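import Pool.Agent.Lib.MP_849b2e_co.Ext

/-!
Soundness of the rule `apply`, and graphs of maximum degree at most two.
-/

namespace Pool.Agent.Lib.MP_849b2e_co

variable {T : Tab} {Γ : Ctx} {A : List ℕ}

theorem app_testBit_dis {k t s : ℕ} (ht : t < k + 1) (h0 : t ≠ 0)
    (h : (Nat.xor (pw (k + 1) - 2) (pw t)).testBit s = true) : s < k + 1 ∧ s ≠ 0 ∧ s ≠ t := by
  have e : pw (k + 1) - 2 = 2 * (2 ^ k - 1) := by
    rw [pw_eq, pow_succ]
    omega
  have key : ∀ r, (pw (k + 1) - 2).testBit r = decide (r ≠ 0 ∧ r < k + 1) := by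
    intro r
    rw [e]
    rcases r with _ | r
    · simp
    · rw [Nat.testBit_succ, Nat.mul_div_cancel_left _ (by norm_num : 0 < 2),
        Nat.testBit_two_pow_sub_one]
      simp
  rw [xor_eq, Nat.testBit_xor, key, testBit_pw] at h
  by_cases c : t = s
  · subst c
    simp [h0, ht] at h
  · simp only [c, decide_false, Bool.xor_false, decide_eq_true_eq] at h
    exact ⟨h.2, h.1, Ne.symm c⟩

theorem app_getD_mem {i : ℕ} (h : i < A.length) : A.getD i 0 ∈ A := by
  rw [List.getD_eq_getElem _ _ h]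
  exact List.getElem_mem h

theorem app_index (e : Env) (A : List ℕ) :
    ∃ τ : ℕ → ℕ, ∀ v ∈ e.un A, τ v < A.length ∧ v ∈ e.U (A.getD (τ v) 0) := by
  have : ∀ v, ∃ i, v ∈ e.un A → i < A.length ∧ v ∈ e.U (A.getD i 0) := by
    intro v
    by_cases hv : v ∈ e.un A
    · obtain ⟨a, ha, hv⟩ := Env.mem_un.1 hv
      obtain ⟨i, hi, rfl⟩ := List.getElem_of_mem ha
      exact ⟨i, fun _ => ⟨hi, by rwa [List.getD_eq_getElem _ _ hi]⟩⟩
    · exact ⟨0, fun h => absurd h hv⟩
  choose τ hτ using this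
  exact ⟨τ, hτ⟩

theorem r_apply {TL : Tab} {k m : ℕ} (L : Lem TL k m) (φ : List ℕ) (F : List (ℕ × ℕ))
    (h : applyOK Γ k A φ F = true) (o : AllRef T Γ (applyObl TL m A φ F)) : Bd T Γ A := by
  obtain ⟨c, hc⟩ := L.bd
  have ok := L.ok
  simp only [pureOK, andb_eq, allb_eq, Bool.and_eq_true, ltb_iff, List.all_eq_true,
    List.mem_range, isNil_iff] at ok
  obtain ⟨ok1, ok2, ok3⟩ := ok
  simp only [applyOK, andb_eq, allb_eq, Bool.and_eq_true, isLW_iff, List.all_eq_true,
    List.mem_range, bit_eq, testBit_mask, decide_eq_true_eq, beqB_iff] at h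
  obtain ⟨h1, h2, h3⟩ := h
  refine ⟨c * A.length, fun e H => ?_⟩
  rw [h1]
  obtain ⟨τ, hτ⟩ := app_index e A
  let e' : Env :=
    ⟨fun u v => if u ∈ e.un A ∧ v ∈ e.un A then
        xor (e.E u v) (flipOf F (A.getD (τ u) 0) (A.getD (τ v) 0)) else e.E u v,
      fun u v => by
        by_cases c : u ∈ e.un A ∧ v ∈ e.un A
        · rw [if_pos c, if_pos c.symm, e.symm u v,
            h3 _ (app_getD_mem (hτ u c.1).1) _ (app_getD_mem (hτ v c.2).1)]
        · rw [if_neg c, if_neg fun d => c d.symm, e.symm u v],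
      fun t => if t = 0 then e.un A else (e.un A).filter fun v => φ.getD (τ v) 0 = t, e.P⟩
  have hE : ∀ u ∈ e.un A, ∀ v ∈ e.un A,
      e'.E u v = xor (e.E u v) (flipOf F (A.getD (τ u) 0) (A.getD (τ v) 0)) :=
    fun u hu v hv => if_pos ⟨hu, hv⟩
  have hU : ∀ t v, v ∈ e'.U t ↔ v ∈ e.un A ∧ (t = 0 ∨ φ.getD (τ v) 0 = t) := by
    intro t v
    show v ∈ (if t = 0 then e.un A else (e.un A).filter fun v => φ.getD (τ v) 0 = t) ↔ _
    by_cases c : t = 0
    · simp only [c, if_true, true_or, and_true]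
    · simp only [c, if_false, false_or, Finset.mem_filter]
  have H' : Holds TL (pureCtx k m) e' := by
    refine ⟨ok1, fun t ht => ?_, fun i hi => ?_, fun i hi => ?_, fun i hi => ?_, fun i hi => ?_,
      ⟨Nat.zero_le _, fun u t _ a => ?_, fun u t _ a => ?_, fun u t _ a => ?_, fun u a => ?_,
        fun u v a => ?_⟩, fun lo hi a => ?_⟩
    · have ht' : t < k + 1 := ht
      rw [Ty.eq_of_beq (ok2 t ht')]
      intro v hv
      have hv' := (hU t v).1 hv
      unfold pureTy
      by_cases c : t = 0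
      · rw [if_pos c]
        refine ⟨fun s hs => ?_, fun s hs => by simp at hs, fun s hs => by simp at hs,
          fun s hs => by simp at hs, fun s hs => by simp at hs⟩
        have : s = 0 := Nat.testBit_one_eq_true_iff_self_eq_zero.1 hs
        subst this
        exact ⟨Nat.succ_pos _, (hU 0 v).2 ⟨hv'.1, Or.inl rfl⟩⟩
      · rw [if_neg c]
        refine ⟨fun s hs => ?_, fun s hs => ?_, fun s hs => by simp at hs,
          fun s hs => by simp at hs, fun s hs => by simp at hs⟩
        · simp only [lor_eq, Nat.testBit_or, testBit_pw, Bool.or_eq_true, decide_eq_true_eq,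
            Nat.testBit_one_eq_true_iff_self_eq_zero] at hs
          rcases hs with rfl | rfl
          · exact ⟨Nat.succ_pos _, (hU 0 v).2 ⟨hv'.1, Or.inl rfl⟩⟩
          · exact ⟨ht, hv⟩
        · obtain ⟨a1, a2, a3⟩ := app_testBit_dis ht' c hs
          refine ⟨a1, fun d => ?_⟩
          have d' := ((hU s v).1 d).2.resolve_left a2
          exact a3 (d'.symm.trans (hv'.2.resolve_left c))
    · simp [pureCtx] at hi
    · have hi' : i < m := by
        have : (pw m - 1).testBit i = true := hi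
        rw [pw_eq, Nat.testBit_two_pow_sub_one] at this
        simpa using this
      obtain ⟨_, b2, b3⟩ := ok3 i hi'
      refine ⟨Ax.wf_of_wfb b2, fun x hx => ?_⟩
      exfalso
      obtain ⟨x1, x2, x3⟩ := hx
      have xS : ∀ j < (TL.ax.get i).ts.length, x j ∈ e.un A := fun j hj => by
        obtain ⟨t, _, d⟩ := x1 j hj
        exact ((hU t _).1 d).1
      refine o _ (List.mem_map.2 ⟨i, List.mem_range.2 hi', rfl⟩) e H x
        (fun j => A.getD (τ (x j)) 0) ⟨fun j hj => ?_, fun j hj j' hj' => ?_, fun l hl => ?_,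
          fun l hl => by simp at hl⟩
      · simp only [List.length_map] at hj
        refine ⟨?_, (hτ _ (xS j hj)).2⟩
        obtain ⟨t, d1, d2⟩ := x1 j hj
        rw [List.getD_eq_getElem _ _ hj] at d1
        rw [List.getD_eq_getElem _ _ (by simpa using hj), List.getElem_map]
        refine List.mem_map.2 ⟨τ (x j), List.mem_filter.2
          ⟨List.mem_range.2 (hτ _ (xS j hj)).1, meets_iff.2 ⟨t, d1, ?_⟩⟩, rfl⟩
        simp only [lor_eq, Nat.testBit_or, testBit_pw, Bool.or_eq_true, decide_eq_true_eq,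
          Nat.testBit_one_eq_true_iff_self_eq_zero]
        exact ((hU t _).1 d2).2
      · simp only [List.length_map] at hj hj'
        exact x2 j hj j' hj'
      · have d := x3 l hl
        rw [hE _ (xS _ (b3 l hl).1) _ (xS _ (b3 l hl).2)] at d
        rw [← d]
        simp
    · simp [pureCtx] at hi
    · simp [pureCtx] at hi
    · simp [pureCtx] at a
    · simp [pureCtx] at a
    · simp [pureCtx] at a
    · simp [pureCtx] at a
    · simp [pureCtx] at a
    · simp [pureCtx] at a
  have h4 : LW e'.E (e'.un (pureAct k)) c := hc e' H'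
  have h5 : LW e'.E (e.un A) c := h4.mono (fun v hv => Env.mem_un.2
    ⟨_, h2 _ (hτ v hv).1, (hU _ v).2 ⟨hv, Or.inr rfl⟩⟩) le_rfl
  refine LW.flip τ (fun i j => flipOf F (A.getD i 0) (A.getD j 0)) (fun v hv => (hτ v hv).1)
    (fun u hu v hv _ => ?_) h5
  rw [hE u hu v hv]
  simp

theorem app_cut_card (E : Adj) (O B : Finset ℕ) : Cut E O B O.card := by
  induction O using Finset.induction_on with
  | empty => exact Cut.empty _ _ _
  | insert x O hx ih =>
    rw [Finset.card_insert_of_notMem hx]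
    refine (ih.sum (Cut.single E x B)).mono (fun v hv => ?_) subset_rfl le_rfl
    simp only [Finset.mem_insert, Finset.mem_union, Finset.mem_singleton] at hv ⊢
    tauto

/-- The edges leaving `Z` inside `S`. -/
def appOut (E : Adj) (S Z : Finset ℕ) : Finset (ℕ × ℕ) :=
  (Z ×ˢ (S \ Z)).filter fun p => E p.1 p.2 = true

theorem app_mem_out {E : Adj} {S Z : Finset ℕ} {p : ℕ × ℕ} :
    p ∈ appOut E S Z ↔ p.1 ∈ Z ∧ p.2 ∈ S ∧ p.2 ∉ Z ∧ E p.1 p.2 = true := by
  simp only [appOut, Finset.mem_filter, Finset.mem_product, Finset.mem_sdiff]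
  tauto

theorem app_cut_out {E : Adj} {S Z : Finset ℕ} (h : (appOut E S Z).card ≤ 2) :
    Cut E Z (S \ Z) 3 := by
  have h1 : Cut E (Z \ (appOut E S Z).image Prod.fst) (S \ Z) 1 := by
    have : ∀ u ∈ Z \ (appOut E S Z).image Prod.fst, ∀ w ∈ S \ Z, E u w = false := by
      intro u hu w hw
      rw [Finset.mem_sdiff] at hu hw
      by_contra c
      exact hu.2 (Finset.mem_image.2 ⟨(u, w), app_mem_out.2 ⟨hu.1, hw.1, hw.2, by simpa using c⟩,
        rfl⟩)
    exact ⟨fun _ => 0, fun _ _ => Nat.one_pos, fun u hu v hv _ w hw => by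
      rw [this u hu w hw, this v hv w hw]⟩
  have h2 := Finset.card_image_le (s := appOut E S Z) (f := Prod.fst)
  refine ((app_cut_card E ((appOut E S Z).image Prod.fst) (S \ Z)).sum h1).mono
    (fun v hv => ?_) subset_rfl (by omega)
  simp only [Finset.mem_union, Finset.mem_sdiff]
  tauto

theorem app_step {E : Adj} (hE : ∀ u v, E u v = E v u) {S Z : Finset ℕ}
    (h : ∀ v ∈ S, (S.filter fun w => w ≠ v ∧ E v w = true).card ≤ 2) (hZ : Z ⊆ S)
    (hne : (S \ Z).Nonempty) (hb : (appOut E S Z).card ≤ 2) :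
    ∃ w ∈ S \ Z, (appOut E S (insert w Z)).card ≤ 2 := by
  have sub : ∀ w, appOut E S (insert w Z) ⊆ (appOut E S Z).filter (fun p => p.2 ≠ w) ∪
      ((S.filter fun y => y ≠ w ∧ E w y = true) \ Z).image fun y => (w, y) := by
    rintro w ⟨a, b⟩ hp
    simp only [app_mem_out, Finset.mem_insert, not_or] at hp
    obtain ⟨p1, p2, ⟨p3, p4⟩, p5⟩ := hp
    simp only [Finset.mem_union, Finset.mem_filter, app_mem_out, Finset.mem_image,
      Finset.mem_sdiff, Prod.mk.injEq]
    rcases p1 with rfl | p1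
    · exact Or.inr ⟨b, ⟨⟨p2, p3, p5⟩, p4⟩, rfl, rfl⟩
    · exact Or.inl ⟨⟨p1, p2, p4, p5⟩, p3⟩
  rcases (appOut E S Z).eq_empty_or_nonempty with h0 | ⟨⟨u, w⟩, hp⟩
  · obtain ⟨w, hw⟩ := hne
    refine ⟨w, hw, (Finset.card_le_card (sub w)).trans ?_⟩
    rw [h0, Finset.filter_empty, Finset.empty_union]
    exact Finset.card_image_le.trans ((Finset.card_le_card Finset.sdiff_subset).trans
      (h w (Finset.mem_sdiff.1 hw).1))
  · obtain ⟨p1, p2, p3, p4⟩ := app_mem_out.1 hp
    refine ⟨w, Finset.mem_sdiff.2 ⟨p2, p3⟩,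
      (Finset.card_le_card (sub w)).trans ((Finset.card_union_le _ _).trans ?_)⟩
    have a1 : ((appOut E S Z).filter (fun p => p.2 ≠ w)).card < (appOut E S Z).card :=
      Finset.card_lt_card ⟨Finset.filter_subset _ _, fun d => by simpa using d hp⟩
    have a2 : ((S.filter fun y => y ≠ w ∧ E w y = true) \ Z).card <
        (S.filter fun y => y ≠ w ∧ E w y = true).card := by
      refine Finset.card_lt_card ⟨Finset.sdiff_subset, fun d => ?_⟩
      have hu : u ∈ S.filter fun y => y ≠ w ∧ E w y = true :=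
        Finset.mem_filter.2 ⟨hZ p1, fun c => p3 (c ▸ p1), (hE w u).trans p4⟩
      exact (Finset.mem_sdiff.1 (d hu)).2 p1
    have a3 := h w p2
    have a4 := Finset.card_image_le (s := (S.filter fun y => y ≠ w ∧ E w y = true) \ Z)
      (f := fun y => (w, y))
    omega

theorem app_order {E : Adj} (hE : ∀ u v, E u v = E v u) {S : Finset ℕ}
    (h : ∀ v ∈ S, (S.filter fun w => w ≠ v ∧ E v w = true).card ≤ 2) (n : ℕ) :
    ∀ Z, Z ⊆ S → (S \ Z).card = n → (appOut E S Z).card ≤ 2 →
      ∃ pos : ℕ → ℕ, Set.InjOn pos (S \ Z : Finset ℕ) ∧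
        ∀ i, (appOut E S (Z ∪ (S \ Z).filter fun v => pos v < i)).card ≤ 2 := by
  induction n with
  | zero =>
    intro Z _ hn hb
    rw [Finset.card_eq_zero] at hn
    exact ⟨id, fun _ _ _ _ a => a, fun i => by simpa [hn] using hb⟩
  | succ n ih =>
    intro Z hZ hn hb
    obtain ⟨w, hw, hb'⟩ := app_step hE h hZ (Finset.card_pos.1 (by omega)) hb
    have hw' := Finset.mem_sdiff.1 hw
    obtain ⟨pos, q1, q2⟩ := ih (insert w Z) (Finset.insert_subset hw'.1 hZ)
      (by rw [Finset.sdiff_insert, Finset.card_erase_of_mem hw]; omega) hb'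
    refine ⟨fun v => if v = w then 0 else pos v + 1, fun u hu v hv a => ?_, fun i => ?_⟩
    · by_cases c1 : u = w <;> by_cases c2 : v = w <;> simp only [c1, c2, if_true, if_false] at a
      · rw [c1, c2]
      · omega
      · omega
      · simp only [Finset.coe_sdiff, Set.mem_sdiff, Finset.mem_coe] at hu hv
        refine q1 ?_ ?_ (by omega)
        · simp [hu.1, hu.2, c1]
        · simp [hv.1, hv.2, c2]
    · rcases i with _ | i
      · simpa using hb
      · have : (Z ∪ (S \ Z).filter fun v => (if v = w then 0 else pos v + 1) < i + 1) =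
            insert w Z ∪ (S \ insert w Z).filter fun v => pos v < i := by
          ext v
          simp only [Finset.mem_union, Finset.mem_filter, Finset.mem_sdiff, Finset.mem_insert]
          by_cases c : v = w
          · simp [c, hw'.1, hw'.2]
          · simp [c]
        rw [this]
        exact q2 i

/-- Graphs of maximum degree at most two. -/
theorem lw_deg2 (E : Adj) (hE : ∀ u v, E u v = E v u) (S : Finset ℕ)
    (h : ∀ v ∈ S, (S.filter fun w => w ≠ v ∧ E v w = true).card ≤ 2) : LW E S 3 := by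
  obtain ⟨pos, q1, q2⟩ := app_order hE h _ ∅ (Finset.empty_subset _) rfl (by simp [appOut])
  refine ⟨pos, by simpa using q1, fun i => ?_⟩
  refine (app_cut_out (q2 i)).mono (fun v hv => by simpa using hv) (fun v hv => ?_) le_rfl
  simp only [Finset.mem_filter, Finset.mem_sdiff, Finset.mem_union] at hv ⊢
  refine ⟨hv.1, ?_⟩
  rintro (a | a)
  · simp at a
  · omega

def TD2 : Tab :=
  ⟨1, .leaf ⟨1, 0, 0, 0, 0⟩, .leaf ⟨0, [], 0⟩,
   .leaf (cl [1, 1, 1, 1] [⟨0, 1, true⟩, ⟨0, 2, true⟩, ⟨0, 3, true⟩]), .leaf ⟨[], []⟩⟩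

theorem lem_D2 : Lem TD2 0 1 := by
  refine ⟨rfl, 3, fun e H => ?_⟩
  refine lw_deg2 e.E e.symm _ fun v hv => ?_
  by_contra c
  obtain ⟨a, b, d, ha, hb, hd, ab, ad, bd⟩ := Finset.two_lt_card_iff.1 (not_le.1 c)
  have hS : ∀ y, y ∈ e.un (pureAct 0) → InTy e 1 y := fun y hy => by
    obtain ⟨t, ht, hy⟩ := Env.mem_un.1 hy
    have : t = 0 := by simpa [pureAct] using ht
    exact ⟨0, rfl, this ▸ hy⟩
  rw [Finset.mem_filter] at ha hb hd
  have hx : AxHolds e (cl [1, 1, 1, 1] [⟨0, 1, true⟩, ⟨0, 2, true⟩, ⟨0, 3, true⟩]) :=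
    (H.ax 0 rfl).2
  obtain ⟨w, _, _, z, hz, _⟩ := hx (fun i => [v, a, b, d].getD i 0) ⟨fun i hi => by
      have hi' : i < 4 := hi
      interval_cases i
      · exact hS v hv
      · exact hS a ha.1
      · exact hS b hb.1
      · exact hS d hd.1, fun i hi j hj q => by
      have hi' : i < 4 := hi
      have hj' : j < 4 := hj
      have := ha.2.1
      have := hb.2.1
      have := hd.2.1
      interval_cases i <;> interval_cases j <;> simp at q ⊢ <;> omega, fun l hl => by
      simp only [cl, List.mem_cons, List.not_mem_nil, or_false] at hl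
      rcases hl with rfl | rfl | rfl
      · exact ha.2.2
      · exact hb.2.2
      · exact hd.2.2⟩ ∅ (Nat.zero_le _)
  simp [cl] at hz

end Pool.Agent.Lib.MP_849b2e_co
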