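import Pool.Agent.Lib.MP_849b2e_co.Ext

/-!
Soundness of the rule `block` (strongly connected components).
-/

namespace Pool.Agent.Lib.MP_849b2e_co

variable {T : Tab} {Γ : Ctx} {A : List ℕ}

/-- A block index for a preorder on a finite set of naturals. -/
theorem blk_index (S : Finset ℕ) (R : ℕ → ℕ → Prop) (hr : ∀ u, R u u)
    (ht : ∀ u v w, R u v → R v w → R u w) :
    ∃ β : ℕ → ℕ, (∀ u ∈ S, ∀ v ∈ S, β u = β v → R u v ∧ R v u) ∧
      ∀ u ∈ S, ∀ v ∈ S, R u v → β u ≤ β v := by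
  classical
  let N := S.sup id + 1
  let cnt : ℕ → ℕ := fun v => (S.filter fun u => R u v).card
  let m : ℕ → ℕ := fun v => sInf {u | R u v ∧ R v u}
  have hm : ∀ v, R (m v) v ∧ R v (m v) := fun v =>
    Nat.sInf_mem (s := {u | R u v ∧ R v u}) ⟨v, hr v, hr v⟩
  have hN : ∀ v ∈ S, m v < N := fun v hv => by
    have h1 : m v ≤ v := Nat.sInf_le (s := {u | R u v ∧ R v u}) ⟨hr v, hr v⟩
    have h2 : v ≤ S.sup id := Finset.le_sup (f := id) hv
    omega
  refine ⟨fun v => cnt v * N + m v, fun u hu v hv e => ?_, fun u hu v hv h => ?_⟩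
  · have a1 := hN u hu
    have a2 := hN v hv
    have e1 : m u = m v := by
      have := congrArg (· % N) e
      simpa [Nat.mul_add_mod_self_right, Nat.add_mod, Nat.mod_eq_of_lt a1, Nat.mod_eq_of_lt a2]
        using this
    have b1 := hm u
    have b2 := hm v
    rw [e1] at b1
    exact ⟨ht _ _ _ b1.2 b2.1, ht _ _ _ b2.2 b1.1⟩
  · by_cases c : R v u
    · have e1 : cnt u = cnt v := by
        have : (S.filter fun x => R x u) = S.filter fun x => R x v :=
          Finset.filter_congr fun x _ => ⟨fun a => ht _ _ _ a h, fun a => ht _ _ _ a c⟩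
        simp only [cnt, this]
      have e2 : m u = m v := by
        have : {x | R x u ∧ R u x} = {x | R x v ∧ R v x} := by
          ext x
          exact ⟨fun a => ⟨ht _ _ _ a.1 h, ht _ _ _ c a.2⟩,
            fun a => ⟨ht _ _ _ a.1 c, ht _ _ _ h a.2⟩⟩
        simp only [m, this]
      show cnt u * N + m u ≤ cnt v * N + m v
      rw [e1, e2]
    · have e1 : cnt u < cnt v := by
        refine Finset.card_lt_card ⟨fun x hx => ?_, fun a => ?_⟩
        · rw [Finset.mem_filter] at hx ⊢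
          exact ⟨hx.1, ht _ _ _ hx.2 h⟩
        · exact c (Finset.mem_filter.1 (a (Finset.mem_filter.2 ⟨hv, hr v⟩))).2
      have a1 := hN u hu
      have : (cnt u + 1) * N ≤ cnt v * N := Nat.mul_le_mul_right _ e1
      have e2 : (cnt u + 1) * N = cnt u * N + N := by ring
      show cnt u * N + m u ≤ cnt v * N + m v
      omega

/-- The class of a vertex. -/
noncomputable def blkTau (e : Env) (A : List ℕ) (v : ℕ) : ℕ :=
  sInf {i | i < A.length ∧ v ∈ e.U (A.getD i 0)}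

theorem blk_mem_un {e : Env} {i v : ℕ} (hi : i < A.length) (hv : v ∈ e.U (A.getD i 0)) :
    v ∈ e.un A := by
  refine Env.mem_un.2 ⟨_, ?_, hv⟩
  rw [List.getD_eq_getElem _ _ hi]
  exact List.getElem_mem hi

theorem blk_tau_spec {e : Env} {v : ℕ} (hv : v ∈ e.un A) :
    blkTau e A v < A.length ∧ v ∈ e.U (A.getD (blkTau e A v) 0) := by
  obtain ⟨a, ha, hv⟩ := Env.mem_un.1 hv
  obtain ⟨i, hi, rfl⟩ := List.getElem_of_mem ha
  refine Nat.sInf_mem (s := {i | i < A.length ∧ v ∈ e.U (A.getD i 0)}) ⟨i, hi, ?_⟩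
  rw [List.getD_eq_getElem _ _ hi]
  exact hv

theorem blk_tau_eq {e : Env} (h : pairDis T Γ.nt A = true) (H : Holds T Γ e) {i v : ℕ}
    (hi : i < A.length) (hv : v ∈ e.U (A.getD i 0)) : blkTau e A v = i := by
  have := blk_tau_spec (blk_mem_un hi hv)
  exact pairDis_sound h H _ this.1 _ hi v this.2 hv

/-- The arcs. -/
def blkArc (e : Env) (A dl : List ℕ) (u v : ℕ) : Prop :=
  u ≠ v ∧ u ∈ e.un A ∧ v ∈ e.un A ∧
    e.E u v = !(Sc.d ⟨[], dl⟩ (blkTau e A v) (blkTau e A u))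

/-- The new vertex sets for the block `n`. -/
noncomputable def blkF (e : Env) (A dl : List ℕ) (β : ℕ → ℕ) (n o : ℕ) : Finset ℕ :=
  (e.U (A.getD (o / 3) 0)).filter fun v =>
    (o % 3 = 0 ∧ β v = n) ∨
    (o % 3 = 1 ∧ (β v < n ∨ (n < β v ∧ symRow ⟨[], dl⟩ A.length (o / 3) = true))) ∨
    (o % 3 = 2 ∧ n < β v ∧ symRow ⟨[], dl⟩ A.length (o / 3) = false)

theorem blk_sib {o o' : ℕ} (h : (Nat.xor (Nat.shiftLeft 7 (3 * (o / 3))) (pw o)).testBit o' = true) :
    o' / 3 = o / 3 ∧ o' ≠ o := by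
  simp only [xor_eq, shl_eq, Nat.testBit_xor, Nat.testBit_shiftLeft, testBit_pw] at h
  have h7 : ∀ j, Nat.testBit 7 j = decide (j < 3) := fun j => by
    have : (7 : ℕ) = 2 ^ 3 - 1 := by norm_num
    rw [this, Nat.testBit_two_pow_sub_one]
  rw [h7] at h
  by_cases c : o = o'
  · subst c
    have h1 : o ≥ 3 * (o / 3) := by omega
    have h2 : o - 3 * (o / 3) < 3 := by omega
    simp [h1, h2] at h
  · simp [c] at h
    omega

theorem blk_mem0 {e : Env} {dl : List ℕ} {β : ℕ → ℕ} {n i v : ℕ} :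
    v ∈ blkF e A dl β n (3 * i) ↔ v ∈ e.U (A.getD i 0) ∧ β v = n := by
  have h1 : 3 * i / 3 = i := by omega
  have h2 : 3 * i % 3 = 0 := by omega
  simp [blkF, h1, h2]

theorem blk_mem1 {e : Env} {dl : List ℕ} {β : ℕ → ℕ} {n i v : ℕ} :
    v ∈ blkF e A dl β n (3 * i + 1) ↔ v ∈ e.U (A.getD i 0) ∧
      (β v < n ∨ (n < β v ∧ symRow ⟨[], dl⟩ A.length i = true)) := by
  have h1 : (3 * i + 1) / 3 = i := by omega
  have h2 : (3 * i + 1) % 3 = 1 := by omega
  simp [blkF, h1, h2]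

theorem blk_mem2 {e : Env} {dl : List ℕ} {β : ℕ → ℕ} {n i v : ℕ} :
    v ∈ blkF e A dl β n (3 * i + 2) ↔ v ∈ e.U (A.getD i 0) ∧
      (n < β v ∧ symRow ⟨[], dl⟩ A.length i = false) := by
  have h1 : (3 * i + 2) / 3 = i := by omega
  have h2 : (3 * i + 2) % 3 = 2 := by omega
  simp [blkF, h1, h2]

theorem blk_symRow {dl : List ℕ} {k i j : ℕ} (h : symRow ⟨[], dl⟩ k i = true) (hj : j < k) :
    Sc.d ⟨[], dl⟩ i j = Sc.d ⟨[], dl⟩ j i := by
  simp only [symRow, allb_eq, List.all_eq_true, List.mem_range] at h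
  exact beqB_iff.1 (h j hj)

theorem blk_inTy_pw {e : Env} {t v : ℕ} (h : InTy e (pw t) v) : v ∈ e.U t := by
  obtain ⟨s, h1, h2⟩ := h
  simp only [testBit_pw, decide_eq_true_eq] at h1
  rwa [h1]

theorem blk_inTy_mask {e : Env} {l : List ℕ} {v : ℕ} (h : InTy e (mask l) v) :
    ∃ t ∈ l, v ∈ e.U t := by
  obtain ⟨s, h1, h2⟩ := h
  simp only [testBit_mask, decide_eq_true_eq] at h1
  exact ⟨s, h1, h2⟩

/-- The hypotheses on the block index. -/
structure BlkIdx (e : Env) (A dl : List ℕ) (β : ℕ → ℕ) : Prop where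
  eq : ∀ u ∈ e.un A, ∀ v ∈ e.un A, β u = β v →
    Relation.ReflTransGen (blkArc e A dl) u v ∧ Relation.ReflTransGen (blkArc e A dl) v u
  le : ∀ u ∈ e.un A, ∀ v ∈ e.un A, Relation.ReflTransGen (blkArc e A dl) u v → β u ≤ β v

theorem BlkIdx.adj {e : Env} {dl : List ℕ} {β : ℕ → ℕ} (hβ : BlkIdx e A dl β) {u v : ℕ}
    (hu : u ∈ e.un A) (hv : v ∈ e.un A) (h : β u < β v) :
    e.E u v = Sc.d ⟨[], dl⟩ (blkTau e A u) (blkTau e A v) := by
  by_contra c
  have : blkArc e A dl v u := by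
    refine ⟨by rintro rfl; omega, hv, hu, ?_⟩
    rw [e.symm v u]
    revert c
    cases e.E u v <;> cases Sc.d ⟨[], dl⟩ (blkTau e A u) (blkTau e A v) <;> simp
  have := hβ.le v hv u hu (Relation.ReflTransGen.single this)
  omega

theorem BlkIdx.out {e : Env} {dl : List ℕ} {β : ℕ → ℕ} (hβ : BlkIdx e A dl β) {u v : ℕ}
    (hu : u ∈ e.un A) (hv : v ∈ e.un A) (h : β u = β v) (huv : u ≠ v) :
    ∃ w, blkArc e A dl u w ∧ β w = β u := by
  obtain ⟨h1, _⟩ := hβ.eq u hu v hv h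
  rcases h1.cases_head with a | ⟨w, a, b⟩
  · exact absurd a huv
  · refine ⟨w, a, le_antisymm ?_ ?_⟩
    · rw [h]; exact hβ.le w a.2.2.1 v hv b
    · exact hβ.le u hu w a.2.2.1 (Relation.ReflTransGen.single a)

theorem BlkIdx.inn {e : Env} {dl : List ℕ} {β : ℕ → ℕ} (hβ : BlkIdx e A dl β) {u v : ℕ}
    (hu : u ∈ e.un A) (hv : v ∈ e.un A) (h : β u = β v) (huv : u ≠ v) :
    ∃ w, blkArc e A dl w u ∧ β w = β u := by
  obtain ⟨_, h1⟩ := hβ.eq u hu v hv h
  rcases h1.cases_tail with a | ⟨w, b, a⟩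
  · exact absurd a huv
  · refine ⟨w, a, le_antisymm ?_ ?_⟩
    · exact hβ.le w a.2.1 u hu (Relation.ReflTransGen.single a)
    · rw [h]; exact hβ.le v hv w a.2.1 b

theorem blk_obl {dl kp : List ℕ} {dir : Bool} (o : AllRef T Γ (blockObl1 A dl kp dir))
    {e : Env} (H : Holds T Γ e) {i j u v : ℕ} (hi : i < A.length) (hj : j < A.length)
    (hu : u ∈ e.U (A.getD i 0)) (hv : v ∈ e.U (A.getD j 0)) (huv : u ≠ v)
    (h : e.E u v = Sc.arc ⟨[], dl⟩ dir i j) : bit (kp.getD i 0) j = true := by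
  by_contra c
  refine Refuted.pat2 (o (pat2 (A.getD i 0) (A.getD j 0) (Sc.arc ⟨[], dl⟩ dir i j)) ?_) H hu hv
    huv h
  simp only [blockObl1, List.mem_flatMap, List.mem_range, List.mem_map, List.mem_filter]
  exact ⟨i, hi, j, ⟨hj, by simpa using c⟩, rfl⟩

theorem blk_extSem {dl kp0 kp1 : List ℕ} {b : ℕ} {e : Env} {β : ℕ → ℕ} {n : ℕ}
    (hd : pairDis T Γ.nt A = true) (hb : Γ.nt ≤ b) (H : Holds T Γ e)
    (o : AllRef T Γ (blockObl A dl kp0 kp1)) (hβ : BlkIdx e A dl β)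
    (h2 : ∀ u ∈ e.un A, β u = n → ∃ v ∈ e.un A, β u = β v ∧ u ≠ v) :
    ExtSem e Γ.nt b (blockExt b A dl kp0 kp1) (blkF e A dl β n) := by
  have hU : ∀ o, (e.ext Γ.nt b (blkF e A dl β n)).U (b + o) = blkF e A dl β n o :=
    Env.ext_new e _ hb
  have hU0 : ∀ i v, v ∈ (e.ext Γ.nt b (blkF e A dl β n)).U (b + 3 * i) ↔
      v ∈ e.U (A.getD i 0) ∧ β v = n := fun i v => by rw [hU, blk_mem0]
  have o0 : AllRef T Γ (blockObl1 A dl kp0 false) := fun p hp =>
    o p (List.mem_append_left _ hp)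
  have o1 : AllRef T Γ (blockObl1 A dl kp1 true) := fun p hp =>
    o p (List.mem_append_right _ hp)
  refine ⟨fun o ho v hv => ?_, fun v hv => ?_, fun a ha => ?_, fun s hs => ?_, fun t ht => ?_⟩
  · simp only [blockExt, List.getElem_map, List.getElem_range, Nat.zero_testBit,
      Bool.false_eq_true, false_imp_iff, implies_true, and_true]
    refine ⟨(Finset.mem_filter.1 hv).1, fun o' ho' hv' => ?_⟩
    obtain ⟨a1, a2⟩ := blk_sib ho'
    have b1 := (Finset.mem_filter.1 hv).2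
    have b2 := (Finset.mem_filter.1 hv').2
    rw [a1] at b2
    cases hs : symRow ⟨[], dl⟩ A.length (o / 3) <;> simp only [hs] at b1 b2 <;> simp at b1 b2 <;>
      omega
  · simp only [blockExt, List.mem_map, List.mem_range] at hv
    obtain ⟨i, hi, rfl⟩ := hv
    intro x hx _
    have hlt : A.getD i 0 < Γ.nt := pairDis_lt hd _ (by
      rw [List.getD_eq_getElem _ _ hi]; exact List.getElem_mem hi)
    rw [Env.ext_old e b _ hlt] at hx
    have hsym : symRow ⟨(List.range A.length).map fun i => b + 3 * i, dl⟩ A.length i =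
        symRow ⟨[], dl⟩ A.length i := rfl
    show ∃ k ∈ (if symRow ⟨(List.range A.length).map fun i => b + 3 * i, dl⟩ A.length i = true
      then [b + 3 * i, b + 3 * i + 1] else [b + 3 * i, b + 3 * i + 1, b + 3 * i + 2]), _
    rw [hsym]
    rcases lt_trichotomy (β x) n with c | c | c
    · refine ⟨b + 3 * i + 1, by split <;> simp, ?_⟩
      rw [Nat.add_assoc, hU, blk_mem1]
      exact ⟨hx, Or.inl c⟩
    · refine ⟨b + 3 * i, by split <;> simp, ?_⟩
      rw [hU0]
      exact ⟨hx, c⟩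
    · cases hs : symRow ⟨[], dl⟩ A.length i
      · refine ⟨b + 3 * i + 2, by simp, ?_⟩
        rw [Nat.add_assoc, hU, blk_mem2]
        exact ⟨hx, c, hs⟩
      · refine ⟨b + 3 * i + 1, by simp, ?_⟩
        rw [Nat.add_assoc, hU, blk_mem1]
        exact ⟨hx, Or.inr ⟨c, hs⟩⟩
  · simp only [blockExt, List.mem_append, List.mem_map, List.mem_range] at ha
    rcases ha with (⟨z, hz, rfl⟩ | ⟨i, hi, rfl⟩) | ⟨i, hi, rfl⟩
    · rw [axHolds_cl]
      rintro x ⟨e1, _, e3⟩
      have a0 := blk_inTy_pw (e1 0 (by simp [cl]))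
      have a1 := blk_inTy_mask (e1 1 (by simp [cl]))
      have a2 : e.E (x 0) (x 1) = decide (z % 2 = 0) := e3 ⟨0, 1, decide (z % 2 = 0)⟩ (by simp [cl])
      simp only [List.mem_map, List.mem_filter, List.mem_range] at a1
      obtain ⟨_, ⟨j, ⟨hj, hd'⟩, rfl⟩, a1⟩ := a1
      rw [hU0] at a1
      have hd2 := beqB_iff.1 hd'
      have hi : z / 4 < A.length := by omega
      have t1 := blk_tau_eq hd H hj a1.1
      have key : e.E (x 0) (x 1) = (if z % 4 / 2 = 0 then Sc.d ⟨[], dl⟩ (z / 4) j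
          else Sc.d ⟨[], dl⟩ j (z / 4)) := by
        by_cases r : z % 4 / 2 = 0
        · rw [r, Nat.add_zero, Nat.add_assoc, hU, blk_mem1] at a0
          have t0 := blk_tau_eq hd H hi a0.1
          rw [if_pos r]
          rcases a0.2 with c | ⟨c, hs⟩
          · rw [hβ.adj (blk_mem_un hi a0.1) (blk_mem_un hj a1.1) (by omega), t0, t1]
          · rw [e.symm, hβ.adj (blk_mem_un hj a1.1) (blk_mem_un hi a0.1) (by omega), t0, t1,
              blk_symRow hs hj]
        · have r1 : z % 4 / 2 = 1 := by omega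
          rw [r1, Nat.add_assoc, Nat.add_assoc, hU, blk_mem2] at a0
          have t0 := blk_tau_eq hd H hi a0.1
          rw [if_neg r, e.symm, hβ.adj (blk_mem_un hj a1.1) (blk_mem_un hi a0.1) (by omega), t0, t1]
      have hd3 : (if z % 4 / 2 = 0 then Sc.d ⟨[], dl⟩ (z / 4) j
          else Sc.d ⟨[], dl⟩ j (z / 4)) = decide (z % 2 = 1) := hd2
      rw [key, hd3] at a2
      rcases Nat.mod_two_eq_zero_or_one z with c | c <;> simp [c] at a2
    · rintro x ⟨e1, _, _⟩ X hX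
      have hX0 : X = ∅ := Finset.card_eq_zero.1 (Nat.le_zero.1 hX)
      have a0 := blk_inTy_pw (e1 0 (by simp))
      rw [hU0] at a0
      have m0 := blk_mem_un hi a0.1
      obtain ⟨v, hv, c1, c2⟩ := h2 _ m0 a0.2
      obtain ⟨w, ⟨w1, _, w3, w4⟩, w5⟩ := hβ.out m0 hv c1 c2
      have tw := blk_tau_spec w3
      rw [blk_tau_eq hd H hi a0.1] at w4
      have kp := blk_obl o0 H hi tw.1 a0.1 tw.2 w1 w4
      refine ⟨w, by simp [hX0], fun i' hi' => ?_, ⟨b + 3 * blkTau e A w, [(0, _)]⟩,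
        List.mem_map.2 ⟨blkTau e A w, List.mem_filter.2 ⟨List.mem_range.2 tw.1, kp⟩, rfl⟩, ?_, ?_⟩
      · have : i' = 0 := by simpa using hi'
        rw [this]; exact w1.symm
      · rw [hU0]; exact ⟨tw.2, w5.trans a0.2⟩
      · intro l hl
        rw [List.mem_singleton.1 hl]
        exact (e.symm _ _).trans w4
    · rintro x ⟨e1, _, _⟩ X hX
      have hX0 : X = ∅ := Finset.card_eq_zero.1 (Nat.le_zero.1 hX)
      have a0 := blk_inTy_pw (e1 0 (by simp))
      rw [hU0] at a0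
      have m0 := blk_mem_un hi a0.1
      obtain ⟨v, hv, c1, c2⟩ := h2 _ m0 a0.2
      obtain ⟨w, ⟨w1, w3, _, w4⟩, w5⟩ := hβ.inn m0 hv c1 c2
      have tw := blk_tau_spec w3
      rw [blk_tau_eq hd H hi a0.1] at w4
      have kp := blk_obl o1 H hi tw.1 a0.1 tw.2 w1.symm ((e.symm _ _).trans w4)
      refine ⟨w, by simp [hX0], fun i' hi' => ?_, ⟨b + 3 * blkTau e A w, [(0, _)]⟩,
        List.mem_map.2 ⟨blkTau e A w, List.mem_filter.2 ⟨List.mem_range.2 tw.1, kp⟩, rfl⟩, ?_, ?_⟩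
      · have : i' = 0 := by simpa using hi'
        rw [this]; exact w1
      · rw [hU0]; exact ⟨tw.2, w5.trans a0.2⟩
      · intro l hl
        rw [List.mem_singleton.1 hl]
        exact w4
  · simp only [blockExt, List.mem_singleton] at hs
    subst hs
    have hg : ∀ i < A.length,
        ((List.range A.length).map fun i => b + 3 * i).getD i 0 = b + 3 * i := fun i hi => by
      rw [List.getD_eq_getElem _ _ (by simpa using hi)]
      simp
    have hun : ∀ v, v ∈ (e.ext Γ.nt b (blkF e A dl β n)).un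
        ((List.range A.length).map fun i => b + 3 * i) → v ∈ e.un A ∧ β v = n := fun v hv => by
      simp only [Env.mem_un, List.mem_map, List.mem_range] at hv
      obtain ⟨_, ⟨i, hi, rfl⟩, hv⟩ := hv
      rw [hU0] at hv
      exact ⟨blk_mem_un hi hv.1, hv.2⟩
    refine ⟨fun i hi j hj v hv hv' => ?_, fun u hu v hv => ?_⟩
    · simp only [List.length_map, List.length_range] at hi hj
      rw [hg i hi, hU0] at hv
      rw [hg j hj, hU0] at hv'
      exact pairDis_sound hd H i hi j hj v hv.1 hv'.1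
    · obtain ⟨u1, u2⟩ := hun u hu
      obtain ⟨v1, v2⟩ := hun v hv
      have r := (hβ.eq u u1 v v1 (u2.trans v2.symm)).1
      clear hv
      induction r with
      | refl => exact Relation.ReflTransGen.refl
      | @tail w v r a ih =>
        have w2 : β w = n := by
          have c1 := hβ.le u u1 w a.2.1 r
          have c2 := hβ.le w a.2.1 v v1 (Relation.ReflTransGen.single a)
          omega
        refine (ih a.2.1 w2).tail ⟨a.1, blkTau e A w, ?_, blkTau e A v, ?_, ?_, ?_, a.2.2.2⟩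
        · simpa using (blk_tau_spec a.2.1).1
        · simpa using (blk_tau_spec v1).1
        · rw [hg _ (blk_tau_spec a.2.1).1, hU0]
          exact ⟨(blk_tau_spec a.2.1).2, w2⟩
        · rw [hg _ (blk_tau_spec v1).1, hU0]
          exact ⟨(blk_tau_spec v1).2, v2⟩
  · simp [blockExt] at ht

theorem r_block (dl kp0 kp1 : List ℕ) (I : Ids) (Γ' : Ctx) (A' : List ℕ)
    (h : andb (isLW Γ) (andb (pairDis T Γ.nt A) (andb (child T Γ I (blockExt I.b A dl kp0 kp1) Γ')
      (subD Γ'.nt Γ' ((List.range A.length).map fun i => I.b + 3 * i) A'))) = true)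
    (o : AllRef T Γ (blockObl A dl kp0 kp1)) (k : Bd T Γ' A') : Bd T Γ A := by
  simp only [andb_eq, Bool.and_eq_true] at h
  obtain ⟨h1, hd, hc, hs⟩ := h
  have md := isLW_iff.1 h1
  have md' : Γ'.md = none := (child_md hc).trans md
  have hb := extOK_le (child_ok hc)
  obtain ⟨c, k⟩ := k
  refine ⟨A.length + (c + 1) * A.length, fun e H => ?_⟩
  rw [md]
  obtain ⟨β, b1, b2⟩ := blk_index (e.un A) (Relation.ReflTransGen (blkArc e A dl))
    (fun _ => Relation.ReflTransGen.refl) (fun _ _ _ => Relation.ReflTransGen.trans)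
  have hβ : BlkIdx e A dl β := ⟨b1, b2⟩
  refine LW.blocks β (fun n => ?_) (fun n => ?_)
  · by_cases h2 : ∀ u ∈ e.un A, β u = n → ∃ v ∈ e.un A, β u = β v ∧ u ≠ v
    · have hf := blk_extSem (b := I.b) hd hb H o hβ h2
      have H' := holds_child hc H hf
      have k' := k _ H'
      rw [md'] at k'
      refine LW.mono (E := e.E) k' (fun v hv => subD_un hs H' ?_) (Nat.le_succ c)
      obtain ⟨v1, v2⟩ := Finset.mem_filter.1 hv
      have tv := blk_tau_spec v1
      refine Env.mem_un.2 ⟨I.b + 3 * blkTau e A v,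
        List.mem_map.2 ⟨_, List.mem_range.2 tv.1, rfl⟩, ?_⟩
      rw [Env.ext_new e _ hb, blk_mem0]
      exact ⟨tv.2, v2⟩
    · push Not at h2
      obtain ⟨u, _, u2, u3⟩ := h2
      refine (LW.card e.E {u}).mono (fun v hv => ?_) (by simp)
      obtain ⟨v1, v2⟩ := Finset.mem_filter.1 hv
      exact Finset.mem_singleton.2 (u3 v v1 (u2.trans v2.symm)).symm
  · refine ⟨blkTau e A, fun u hu => (blk_tau_spec (Finset.mem_filter.1 hu).1).1,
      fun u hu v hv t w hw => ?_⟩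
    obtain ⟨u1, u2⟩ := Finset.mem_filter.1 hu
    obtain ⟨v1, v2⟩ := Finset.mem_filter.1 hv
    obtain ⟨w1, w2⟩ := Finset.mem_filter.1 hw
    rw [hβ.adj u1 w1 (by omega), hβ.adj v1 w1 (by omega), t]

end Pool.Agent.Lib.MP_849b2e_co
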