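import Pool.Agent.Lib.MP_849b2e_co.Ext

/-!
Soundness of the rules `psplit`, `def` and `close`.
-/

namespace Pool.Agent.Lib.MP_849b2e_co

variable {T : Tab} {Γ : Ctx} {A : List ℕ}

/-- The vertex `v` satisfies the parameter masks `q`. -/
def rdef_Sat (e : Env) (v : ℕ) (q : ℕ × ℕ) : Prop :=
  (∀ p, q.1.testBit p = true → e.E v (e.P p) = true) ∧
  (∀ p, q.2.testBit p = true → e.E v (e.P p) = false)

theorem rdef_sat_left {e : Env} {v p1 p0 p : ℕ} :
    rdef_Sat e v (p1, Nat.lor p0 (pw p)) ↔ rdef_Sat e v (p1, p0) ∧ e.E v (e.P p) = false := by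
  unfold rdef_Sat
  simp only [lor_eq, Nat.testBit_or, testBit_pw, Bool.or_eq_true, decide_eq_true_eq]
  constructor
  · rintro ⟨h1, h2⟩
    exact ⟨⟨h1, fun q hq => h2 q (Or.inl hq)⟩, h2 p (Or.inr rfl)⟩
  · rintro ⟨⟨h1, h2⟩, h3⟩
    refine ⟨h1, fun q hq => ?_⟩
    rcases hq with hq | rfl
    · exact h2 q hq
    · exact h3

theorem rdef_sat_right {e : Env} {v p1 p0 p : ℕ} :
    rdef_Sat e v (Nat.lor p1 (pw p), p0) ↔ rdef_Sat e v (p1, p0) ∧ e.E v (e.P p) = true := by
  unfold rdef_Sat
  simp only [lor_eq, Nat.testBit_or, testBit_pw, Bool.or_eq_true, decide_eq_true_eq]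
  constructor
  · rintro ⟨h1, h2⟩
    exact ⟨⟨fun q hq => h1 q (Or.inl hq), h2⟩, h1 p (Or.inr rfl)⟩
  · rintro ⟨⟨h1, h2⟩, h3⟩
    refine ⟨fun q hq => ?_, h2⟩
    rcases hq with hq | rfl
    · exact h1 q hq
    · exact h3

theorem rdef_sat_mono (e : Env) (v : ℕ) (t : PT) : ∀ p1 p0, ∀ q ∈ ptKids t p1 p0,
    rdef_Sat e v q → rdef_Sat e v (p1, p0) := by
  induction t with
  | kid =>
    intro p1 p0 q hq h
    simp only [ptKids, List.mem_singleton] at hq
    exact hq ▸ h
  | ref => intro p1 p0 q hq; simp [ptKids] at hq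
  | br p l r ihl ihr =>
    intro p1 p0 q hq h
    simp only [ptKids, List.mem_append] at hq
    rcases hq with hq | hq
    · exact (rdef_sat_left.1 (ihl _ _ q hq h)).1
    · exact (rdef_sat_right.1 (ihr _ _ q hq h)).1

theorem rdef_pairwise (e : Env) (v : ℕ) (t : PT) : ∀ p1 p0,
    (ptKids t p1 p0).Pairwise fun q q' => ¬ (rdef_Sat e v q ∧ rdef_Sat e v q') := by
  induction t with
  | kid => intro p1 p0; simp [ptKids]
  | ref => intro p1 p0; simp [ptKids]
  | br p l r ihl ihr =>
    intro p1 p0
    simp only [ptKids]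
    refine List.pairwise_append.2 ⟨ihl _ _, ihr _ _, fun q hq q' hq' h => ?_⟩
    have h1 := (rdef_sat_left.1 (rdef_sat_mono e v l _ _ q hq h.1)).2
    have h2 := (rdef_sat_right.1 (rdef_sat_mono e v r _ _ q' hq' h.2)).2
    rw [h1] at h2
    exact Bool.false_ne_true h2

theorem rdef_uniq (e : Env) (v : ℕ) (t : PT) (p1 p0 : ℕ) {o o' : ℕ}
    (ho : o < (ptKids t p1 p0).length) (ho' : o' < (ptKids t p1 p0).length)
    (h : rdef_Sat e v ((ptKids t p1 p0).getD o (0, 0)))
    (h' : rdef_Sat e v ((ptKids t p1 p0).getD o' (0, 0))) : o = o' := by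
  have hp := List.pairwise_iff_getElem.1 (rdef_pairwise e v t p1 p0)
  rw [List.getD_eq_getElem _ _ ho] at h
  rw [List.getD_eq_getElem _ _ ho'] at h'
  rcases lt_trichotomy o o' with c | c | c
  · exact absurd ⟨h, h'⟩ (hp o o' ho ho' c)
  · exact c
  · exact absurd ⟨h', h⟩ (hp o' o ho' ho c)

theorem rdef_cover {e : Env} (H : Holds T Γ e) {a v : ℕ} (hv : v ∈ e.U a) (t : PT) :
    ∀ p1 p0 (acc : List Lit), rdef_Sat e v (p1, p0) → (∀ l ∈ acc, e.E v (e.P l.j) = l.b) →
      AllRef T Γ (ptObl a t acc) → ∃ q ∈ ptKids t p1 p0, rdef_Sat e v q := by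
  induction t with
  | kid => intro p1 p0 acc h _ _; exact ⟨(p1, p0), by simp [ptKids], h⟩
  | ref =>
    intro p1 p0 acc _ hacc o
    exfalso
    refine o ⟨[[a]], [], acc, []⟩ (by simp [ptObl]) e H (fun _ => v) (fun _ => a)
      ⟨fun i hi => ?_, fun i hi j hj _ => ?_, fun l hl => by simp at hl, hacc⟩
    · have : i = 0 := by simpa using hi
      subst this
      exact ⟨by simp, hv⟩
    · simp only [List.length_singleton] at hi hj
      omega
  | br p l r ihl ihr =>
    intro p1 p0 acc h hacc o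
    cases c : e.E v (e.P p)
    · obtain ⟨q, hq, hs⟩ := ihl p1 (Nat.lor p0 (pw p)) (⟨0, p, false⟩ :: acc)
        (rdef_sat_left.2 ⟨h, c⟩) (by
          intro l hl
          rcases List.mem_cons.1 hl with rfl | hl
          · exact c
          · exact hacc l hl)
        (fun x hx => o x (by simp only [ptObl, List.mem_append]; exact Or.inl hx))
      exact ⟨q, by simp only [ptKids, List.mem_append]; exact Or.inl hq, hs⟩
    · obtain ⟨q, hq, hs⟩ := ihr (Nat.lor p1 (pw p)) p0 (⟨0, p, true⟩ :: acc)
        (rdef_sat_right.2 ⟨h, c⟩) (by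
          intro l hl
          rcases List.mem_cons.1 hl with rfl | hl
          · exact c
          · exact hacc l hl)
        (fun x hx => o x (by simp only [ptObl, List.mem_append]; exact Or.inr hx))
      exact ⟨q, by simp only [ptKids, List.mem_append]; exact Or.inr hq, hs⟩

theorem rdef_ext_sub (e : Env) (nt b : ℕ) {f : ℕ → Finset ℕ} {a v : ℕ} (hf : ∀ o, f o ⊆ e.U a)
    (h : v ∈ (e.ext nt b f).U a) : v ∈ e.U a := by
  by_cases c : a < nt
  · rwa [e.ext_old b _ c] at h
  · by_cases c' : a < b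
    · simp [Env.ext, c, c'] at h
    · simp only [Env.ext, c, c', if_false] at h
      exact hf _ h

theorem r_psplit (a : ℕ) (ex : List ℕ) (t : PT) (I : Ids) (Γ' : Ctx) (A' : List ℕ)
    (h : lin T Γ I (psplitExt I.b a ex t) Γ' A A' = true) (o : AllRef T Γ (ptObl a t []))
    (k : Bd T Γ' A') : Bd T Γ A := by
  classical
  have hle : Γ.nt ≤ I.b := extOK_le (child_ok (lin_child h))
  refine bd_lin h (fun e H => ?_) k
  refine ⟨fun o => (e.U a).filter fun v =>
    rdef_Sat e v ((ptKids t 0 0).getD o (0, 0)) ∧ ∀ p ∈ ex, v ≠ e.P p, ?_, ?_, ?_, ?_, ?_⟩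
  · intro o ho v hv
    have ho' : o < (ptKids t 0 0).length := by simpa [psplitExt] using ho
    have hk : (psplitExt I.b a ex t).kids[o] =
        ⟨a, Nat.xor (pw (ptKids t 0 0).length - 1) (pw o), ((ptKids t 0 0).getD o (0, 0)).1,
          ((ptKids t 0 0).getD o (0, 0)).2, mask ex⟩ := by
      simp only [psplitExt, List.getElem_map, List.getElem_range]
    rw [hk]
    obtain ⟨h1, h2, h3⟩ := Finset.mem_filter.1 hv
    refine ⟨h1, fun o' hb hv' => ?_, h2.1, h2.2, fun p hp => h3 p (by simpa using hp)⟩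
    simp only [xor_eq, Nat.testBit_xor, testBit_pw] at hb
    rw [pw_eq, Nat.testBit_two_pow_sub_one] at hb
    have hne : o ≠ o' := by
      rintro rfl
      simp [ho'] at hb
    have hlt : o' < (ptKids t 0 0).length := by simpa [hne] using hb
    exact hne (rdef_uniq e v t 0 0 ho' hlt h2 (Finset.mem_filter.1 hv').2.1)
  · intro ev hev
    have : ev = ⟨a, (List.range (ptKids t 0 0).length).map (I.b + ·), mask ex⟩ := by
      simpa [psplitExt] using hev
    subst this
    intro v hv hx
    have hv' : v ∈ e.U a := rdef_ext_sub e _ _ (fun _ => Finset.filter_subset _ _) hv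
    obtain ⟨q, hq, hs⟩ := rdef_cover H hv' t 0 0 [] ⟨by simp, by simp⟩ (by simp) o
    obtain ⟨i, hi, rfl⟩ := List.getElem_of_mem hq
    refine ⟨I.b + i, List.mem_map.2 ⟨i, List.mem_range.2 hi, rfl⟩, ?_⟩
    rw [e.ext_new _ hle]
    refine Finset.mem_filter.2 ⟨hv', ?_, fun p hp => hx p (by simpa using hp)⟩
    rwa [List.getD_eq_getElem _ _ hi]
  · intro x hx; simp [psplitExt] at hx
  · intro x hx; simp [psplitExt] at hx
  · intro x hx; simp [psplitExt] at hx

/-- The vertices counted by the rule `def`. -/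
def rdef_N (e : Env) (B1 B0 : List ℕ) (v : ℕ) : Finset ℕ :=
  ((e.un B0).filter fun y => y ≠ v ∧ e.E y v = false) ∪
    ((e.un B1).filter fun y => y ≠ v ∧ e.E y v = true)

theorem r_def (a m : ℕ) (B1 B0 : List ℕ) (I : Ids) (Γ' : Ctx) (A' : List ℕ)
    (h : andb (allLt Γ.nt (B1 ++ B0)) (lin T Γ I (defExt I.b a m B1 B0) Γ' A A') = true)
    (k : Bd T Γ' A') : Bd T Γ A := by
  classical
  rw [andb_eq, Bool.and_eq_true, allLt_iff] at h
  obtain ⟨hB, h⟩ := h
  have hB1 : ∀ t ∈ B1, t < Γ.nt := fun t ht => hB t (List.mem_append_left _ ht)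
  have hB0 : ∀ t ∈ B0, t < Γ.nt := fun t ht => hB t (List.mem_append_right _ ht)
  have hle : Γ.nt ≤ I.b := extOK_le (child_ok (lin_child h))
  refine bd_lin h (fun e H => ?_) k
  set f : ℕ → Finset ℕ := fun o => (e.U a).filter fun v =>
    (m + 1 ≤ (rdef_N e B1 B0 v).card ↔ o = 0) with hf
  have hmem : ∀ o v, v ∈ f o ↔ v ∈ e.U a ∧ (m + 1 ≤ (rdef_N e B1 B0 v).card ↔ o = 0) :=
    fun o v => Finset.mem_filter
  have hU0 : (e.ext Γ.nt I.b f).U I.b = f 0 := e.ext_new f hle 0
  have hU1 : (e.ext Γ.nt I.b f).U (I.b + 1) = f 1 := e.ext_new f hle 1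
  refine ⟨f, ?_, ?_, ?_, ?_, ?_⟩
  · intro o ho v hv
    have ho' : o < 2 := by simpa [defExt] using ho
    obtain ⟨h1, h2⟩ := (hmem o v).1 hv
    have two : ∀ j, (2 : ℕ).testBit j = true → j = 1 := fun j hj => by
      have := Nat.testBit_two_pow (n := 1) (m := j)
      rw [pow_one, hj] at this
      exact (of_decide_eq_true this.symm).symm
    have one : ∀ j, (1 : ℕ).testBit j = true → j = 0 := fun j hj => by
      have := Nat.testBit_two_pow (n := 0) (m := j)
      rw [pow_zero, hj] at this
      exact (of_decide_eq_true this.symm).symm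
    interval_cases o
    · refine ⟨h1, fun o' hb hv' => ?_, by simp [defExt], by simp [defExt], by simp [defExt]⟩
      have := two o' hb
      subst this
      have := ((hmem 1 v).1 hv').2
      simp only [iff_true] at h2
      exact one_ne_zero (this.1 h2)
    · refine ⟨h1, fun o' hb hv' => ?_, by simp [defExt], by simp [defExt], by simp [defExt]⟩
      have := one o' hb
      subst this
      have := ((hmem 0 v).1 hv').2
      simp only [iff_true] at this
      exact one_ne_zero (h2.1 this)
  · intro ev hev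
    have : ev = ⟨a, [I.b, I.b + 1], 0⟩ := by simpa [defExt] using hev
    subst this
    intro v hv _
    have hv' : v ∈ e.U a := rdef_ext_sub e _ _ (fun _ => Finset.filter_subset _ _) hv
    by_cases c : m + 1 ≤ (rdef_N e B1 B0 v).card
    · exact ⟨I.b, by simp, by rw [hU0, hmem]; exact ⟨hv', by simp [c]⟩⟩
    · exact ⟨I.b + 1, by simp, by rw [hU1, hmem]; exact ⟨hv', by simp [c]⟩⟩
  · intro ax hax
    simp only [defExt, List.mem_cons, List.mem_map, List.mem_range] at hax
    rcases hax with rfl | ⟨j, hj, rfl⟩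
    · intro x hx X hX
      obtain ⟨t, ht, hx0⟩ := hx.1 0 (by simp)
      have : t = I.b := by
        have : I.b = t := by simpa using ht
        exact this.symm
      subst this
      rw [hU0, hmem] at hx0
      have hc : m + 1 ≤ (rdef_N e B1 B0 (x 0)).card := hx0.2.2 rfl
      obtain ⟨w, hw, hwX⟩ := Finset.exists_mem_notMem_of_card_lt_card
        (s := X) (t := rdef_N e B1 B0 (x 0)) (by simp only at hX; omega)
      unfold rdef_N at hw
      rcases Finset.mem_union.1 hw with hw | hw
      · obtain ⟨h1, h2, h3⟩ := Finset.mem_filter.1 hw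
        obtain ⟨s, hs, hws⟩ := Env.mem_un.1 h1
        refine ⟨w, hwX, fun i hi => ?_, ⟨s, [(0, false)]⟩,
          List.mem_append_left _ (List.mem_map.2 ⟨s, hs, rfl⟩), ?_, ?_⟩
        · have : i = 0 := by simpa using hi
          exact this ▸ h2
        · rwa [e.ext_old _ _ (hB0 s hs)]
        · intro l hl
          have : l = (0, false) := by simpa using hl
          subst this
          exact h3
      · obtain ⟨h1, h2, h3⟩ := Finset.mem_filter.1 hw
        obtain ⟨s, hs, hws⟩ := Env.mem_un.1 h1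
        refine ⟨w, hwX, fun i hi => ?_, ⟨s, [(0, true)]⟩,
          List.mem_append_right _ (List.mem_map.2 ⟨s, hs, rfl⟩), ?_, ?_⟩
        · have : i = 0 := by simpa using hi
          exact this ▸ h2
        · rwa [e.ext_old _ _ (hB1 s hs)]
        · intro l hl
          have : l = (0, true) := by simpa using hl
          subst this
          exact h3
    · rw [axHolds_cl]
      rintro x ⟨h1, h2, h3⟩
      simp only [cl, List.length_cons, List.length_map, List.length_range] at h1 h2 h3
      obtain ⟨t, ht, hx0⟩ := h1 0 (by omega)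
      have : t = I.b + 1 := by
        have : I.b + 1 = t := by simpa using ht
        exact this.symm
      subst this
      rw [hU1, hmem] at hx0
      refine one_ne_zero (hx0.2.1 ?_)
      have hsub : ∀ i < m + 1, x (i + 1) ∈ rdef_N e B1 B0 (x 0) := by
        intro i hi
        obtain ⟨s, hs, hxs⟩ := h1 (i + 1) (by omega)
        have hE := h3 ⟨0, i + 1, decide (i < j)⟩ (List.mem_map.2 ⟨i, List.mem_range.2 hi, rfl⟩)
        simp only [Env.ext_E] at hE
        rw [e.symm] at hE
        have hne : x (i + 1) ≠ x 0 := fun c => by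
          have := h2 (i + 1) (by omega) 0 (by omega) c
          omega
        rw [List.getD_cons_succ, List.getD_eq_getElem _ _ (by simpa using hi), List.getElem_map,
          List.getElem_range] at hs
        unfold rdef_N
        by_cases c : i < j
        · rw [if_pos c] at hs
          have hs' : s ∈ B1 := by simpa using hs
          rw [e.ext_old _ _ (hB1 s hs')] at hxs
          exact Finset.mem_union_right _ (Finset.mem_filter.2
            ⟨Env.mem_un.2 ⟨s, hs', hxs⟩, hne, by simpa [c] using hE⟩)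
        · rw [if_neg c] at hs
          have hs' : s ∈ B0 := by simpa using hs
          rw [e.ext_old _ _ (hB0 s hs')] at hxs
          exact Finset.mem_union_left _ (Finset.mem_filter.2
            ⟨Env.mem_un.2 ⟨s, hs', hxs⟩, hne, by simpa [c] using hE⟩)
      have := Finset.card_le_card_of_injOn (s := Finset.range (m + 1))
        (t := rdef_N e B1 B0 (x 0)) (fun i => x (i + 1))
        (fun i hi => hsub i (Finset.mem_range.1 (Finset.mem_coe.1 hi)))
        (fun i hi i' hi' c => by
          have hi := Finset.mem_range.1 (Finset.mem_coe.1 hi)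
          have hi' := Finset.mem_range.1 (Finset.mem_coe.1 hi')
          have := h2 (i + 1) (by omega) (i' + 1) (by omega) c
          omega)
      simpa using this
  · intro x hx; simp [defExt] at hx
  · intro x hx; simp [defExt] at hx

theorem rdef_arc_rev {e : Env} {s : Sc} {u v : ℕ} (h : Arc e s false v u) : Arc e s true u v := by
  obtain ⟨h1, i, hi, j, hj, h2, h3, h4⟩ := h
  refine ⟨h1.symm, j, hj, i, hi, h3, h2, ?_⟩
  rw [e.symm, h4]
  simp [Sc.arc]

theorem rdef_path {e : Env} {s : Sc} (h : ScSem e s) (dir : Bool) {u v : ℕ} (hu : u ∈ e.un s.ts)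
    (hv : v ∈ e.un s.ts) : Relation.ReflTransGen (Arc e s dir) u v := by
  cases dir
  · exact h.2 u hu v hv
  · have := h.2 v hv u hu
    clear hu
    induction this with
    | refl => exact Relation.ReflTransGen.refl
    | tail _ hb ih => exact Relation.ReflTransGen.head (rdef_arc_rev hb) ih

theorem rdef_getD_mem {l : List ℕ} {i : ℕ} (h : i < l.length) : l.getD i 0 ∈ l := by
  rw [List.getD_eq_getElem _ _ h]
  exact List.getElem_mem h

theorem rdef_exists_getD {l : List ℕ} {a : ℕ} (h : a ∈ l) : ∃ i < l.length, l.getD i 0 = a := by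
  obtain ⟨i, hi, rfl⟩ := List.getElem_of_mem h
  exact ⟨i, hi, List.getD_eq_getElem _ _ hi⟩

theorem r_close (dir : Bool) (sci : ℕ) (evs cv cs sp ps : List ℕ) (R : ℕ) (I : Ids) (Γ' : Ctx)
    (A' : List ℕ)
    (h : andb (ltb 0 sp.length) (andb (scOK T Γ sci evs cv cs sp ps)
      (lin T Γ I (closeExt cv R) Γ' A A')) = true)
    (o : AllRef T Γ (closeObl (T.sc.get sci) dir cv cs sp ps R)) (k : Bd T Γ' A') :
    Bd T Γ A := by
  rw [andb_eq, andb_eq, Bool.and_eq_true, Bool.and_eq_true, ltb_iff] at h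
  obtain ⟨h0, hsc, h⟩ := h
  refine bd_lin h (fun e H => ⟨fun _ => ∅, ?_, ?_, ?_, ?_, ?_⟩) k
  · intro x hx; simp [closeExt, deadExt] at hx
  · intro x hx; simp [closeExt, deadExt] at hx
  · intro x hx; simp [closeExt, deadExt] at hx
  · intro x hx; simp [closeExt, deadExt] at hx
  have F := scOK_sound hsc H
  set s := T.sc.get sci with hs
  have good : ∀ y, Relation.ReflTransGen (Arc e s dir) (e.P (sp.getD 0 0)) y →
      ∀ i < cv.length, bit R i = false → y ∉ e.U (cv.getD i 0) := by
    intro y hy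
    induction hy with
    | refl =>
      intro i hi _ hv
      exact F.np _ (Env.mem_un.2 ⟨_, rdef_getD_mem hi, hv⟩) _ (rdef_getD_mem h0) rfl
    | @tail u y _ hb ih =>
      intro i hi hR hv
      obtain ⟨hne, i', hi', j', hj', hu, hy, hE⟩ := hb
      obtain ⟨-, c2, c3⟩ := F.cvs i hi
      have e1 : j' = cs.getD i 0 := F.sem.1 _ hj' _ c2 y hy (c3 hv)
      subst e1
      rcases F.cov u (Env.mem_un.2 ⟨_, rdef_getD_mem hi', hu⟩) with hc | ⟨p, hp, rfl⟩
      · obtain ⟨t, ht, hut⟩ := Env.mem_un.1 hc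
        obtain ⟨j, hj, rfl⟩ := rdef_exists_getD ht
        obtain ⟨-, d2, d3⟩ := F.cvs j hj
        have e2 : i' = cs.getD j 0 := F.sem.1 _ hi' _ d2 u hu (d3 hut)
        subst e2
        have hRj : bit R j = true := by
          cases c : bit R j
          · exact absurd hut (ih j hj c)
          · rfl
        refine Refuted.pat2 (o (pat2 (cv.getD j 0) (cv.getD i 0)
          (s.arc dir (cs.getD j 0) (cs.getD i 0))) ?_) H hut hv hne hE
        unfold closeObl
        refine List.mem_flatMap.2 ⟨i, List.mem_filter.2 ⟨List.mem_range.2 hi, by rw [hR]; rfl⟩,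
          List.mem_append_right _ (List.mem_map.2 ⟨j,
            List.mem_filter.2 ⟨List.mem_range.2 hj, hRj⟩, rfl⟩)⟩
      · obtain ⟨q, hq, rfl⟩ := rdef_exists_getD hp
        obtain ⟨-, d2, d3⟩ := F.par q hq
        have e2 : i' = ps.getD q 0 := F.sem.1 _ hi' _ d2 _ hu d3
        subst e2
        refine o ⟨[[cv.getD i 0]], [],
          [⟨0, sp.getD q 0, s.arc dir (ps.getD q 0) (cs.getD i 0)⟩], []⟩ ?_ e H (fun _ => y)
          (fun _ => cv.getD i 0) ⟨fun z hz => ?_, fun z hz z' hz' _ => ?_, fun l hl => ?_,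
            fun l hl => ?_⟩
        · unfold closeObl
          exact List.mem_flatMap.2 ⟨i, List.mem_filter.2 ⟨List.mem_range.2 hi, by rw [hR]; rfl⟩,
            List.mem_append_left _ (List.mem_map.2 ⟨q, List.mem_range.2 hq, rfl⟩)⟩
        · have : z = 0 := by simpa using hz
          subst this
          exact ⟨List.mem_singleton.2 rfl, hv⟩
        · simp only [List.length_singleton] at hz hz'
          omega
        · exact absurd hl List.not_mem_nil
        · have := List.mem_singleton.1 hl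
          subst this
          rw [e.symm]
          exact hE
  intro t ht
  simp only [closeExt, deadExt, testBit_mask, decide_eq_true_eq] at ht
  obtain ⟨i, hi, rfl⟩ := List.mem_map.1 ht
  obtain ⟨hi, hR⟩ := List.mem_filter.1 hi
  have hi := List.mem_range.1 hi
  have hR : bit R i = false := by simpa using hR
  refine Finset.eq_empty_of_forall_notMem fun v hv => ?_
  have hv := (e.ext_empty _ _ hv).2
  obtain ⟨-, c2, c3⟩ := F.cvs i hi
  obtain ⟨-, d2, d3⟩ := F.par 0 h0
  exact good v (rdef_path F.sem dir (Env.mem_un.2 ⟨_, rdef_getD_mem d2, d3⟩)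
    (Env.mem_un.2 ⟨_, rdef_getD_mem c2, c3 hv⟩)) i hi hR hv

end Pool.Agent.Lib.MP_849b2e_co
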