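import Pool.Agent.Lib.MP_849b2e_co.Init

/-!
Soundness of the rule `ext` (extremal vertex).
-/

namespace Pool.Agent.Lib.MP_849b2e_co

variable {T : Tab} {Γ : Ctx} {A : List ℕ}

/-- The counting argument: a vertex `s` with a largest generalised neighbourhood. -/
theorem rext_core (E : Adj) (hE : ∀ u v, E u v = E v u) (Ua S1 S0 k1 k0 : Finset ℕ)
    (h1 : k1 ⊆ S1) (h0 : k0 ⊆ S0)
    (u1 : ∀ u ∈ Ua, ∀ v ∈ Ua, u ∈ S1 → v ∈ S1) (u0 : ∀ u ∈ Ua, ∀ v ∈ Ua, u ∈ S0 → v ∈ S0)
    (r1 : ∀ u ∈ Ua, ∀ w ∈ S1, w ∉ k1 → u ≠ w → E u w = true)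
    (r0 : ∀ u ∈ Ua, ∀ w ∈ S0, w ∉ k0 → u ≠ w → E u w = false)
    (hd : ∀ v ∈ S1, v ∉ S0) (hne : Ua.Nonempty) :
    ∃ s ∈ Ua, ∀ x ∈ Ua, x ≠ s → ∀ Y X : Finset ℕ,
      (∀ y ∈ Y, y ≠ x ∧ y ≠ s ∧ ((y ∈ k1 ∧ E x y = true ∧ E s y = false) ∨
        (y ∈ k0 ∧ E x y = false ∧ E s y = true))) → X.card < Y.card →
      ∃ w, w ∉ X ∧ w ≠ x ∧ w ≠ s ∧ ((w ∈ k1 ∧ E w x = false ∧ E w s = true) ∨
        (w ∈ k0 ∧ E w x = true ∧ E w s = false)) := by
  classical
  let N : ℕ → Finset ℕ := fun x => (S1 ∪ S0).filter fun y =>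
    y ≠ x ∧ ((y ∈ S1 ∧ E x y = true) ∨ (y ∈ S0 ∧ E x y = false))
  have hN : ∀ x y, y ∈ N x ↔ y ≠ x ∧ ((y ∈ S1 ∧ E x y = true) ∨ (y ∈ S0 ∧ E x y = false)) := by
    intro x y
    simp only [N, Finset.mem_filter, Finset.mem_union]
    tauto
  obtain ⟨s, hs, hmax⟩ := Ua.exists_max_image (fun x => (N x).card) hne
  refine ⟨s, hs, fun x hx hxs Y X hY hX => ?_⟩
  have c1 := Finset.card_sdiff_add_card_inter (N x) (N s)
  have c2 := Finset.card_sdiff_add_card_inter (N s) (N x)
  rw [Finset.inter_comm] at c2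
  have c3 : (N x).card ≤ (N s).card := hmax x hx
  have c4 : (N x \ N s).card ≤ (N s \ N x).card := by omega
  have sx : x ∈ N s → s ∈ N x := by
    intro h
    rw [hN] at h ⊢
    refine ⟨fun e => hxs e.symm, ?_⟩
    rw [hE x s]
    rcases h.2 with h | h
    · exact Or.inl ⟨u1 x hx s hs h.1, h.2⟩
    · exact Or.inr ⟨u0 x hx s hs h.1, h.2⟩
  have c5 : ((N x \ N s).erase s).card ≤ ((N s \ N x).erase x).card := by
    by_cases c : x ∈ N s \ N x
    · have c' : s ∈ N x \ N s := Finset.mem_sdiff.2 ⟨sx (Finset.mem_sdiff.1 c).1,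
        fun h => ((hN s s).1 h).1 rfl⟩
      rw [Finset.card_erase_of_mem c, Finset.card_erase_of_mem c']
      omega
    · rw [Finset.erase_eq_of_notMem c]
      exact Finset.card_erase_le.trans c4
  have hYs : Y ⊆ (N x \ N s).erase s := by
    intro y hy
    obtain ⟨a, b, c⟩ := hY y hy
    rw [Finset.mem_erase, Finset.mem_sdiff, hN, hN]
    refine ⟨b, ⟨a, ?_⟩, ?_⟩
    · rcases c with c | c
      · exact Or.inl ⟨h1 c.1, c.2.1⟩
      · exact Or.inr ⟨h0 c.1, c.2.1⟩
    · rintro ⟨_, d | d⟩ <;> rcases c with c | c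
      · rw [d.2] at c; simp at c
      · exact hd y d.1 (h0 c.1)
      · exact hd y (h1 c.1) d.1
      · rw [d.2] at c; simp at c
  obtain ⟨w, hw, hwX⟩ := Finset.exists_mem_notMem_of_card_lt_card
    (lt_of_lt_of_le hX ((Finset.card_le_card hYs).trans c5))
  rw [Finset.mem_erase, Finset.mem_sdiff, hN, hN] at hw
  obtain ⟨wx, ⟨ws, hw1⟩, hw2⟩ := hw
  refine ⟨w, hwX, wx, ws, ?_⟩
  rw [hE w x, hE w s]
  rcases hw1 with d | d
  · have e : E x w = false := by
      cases c : E x w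
      · rfl
      · exact absurd ⟨wx, Or.inl ⟨d.1, c⟩⟩ hw2
    refine Or.inl ⟨?_, e, d.2⟩
    by_contra c
    rw [r1 x hx w d.1 c (Ne.symm wx)] at e
    simp at e
  · have e : E x w = true := by
      cases c : E x w
      · exact absurd ⟨wx, Or.inr ⟨d.1, c⟩⟩ hw2
      · rfl
    refine Or.inr ⟨?_, e, d.2⟩
    by_contra c
    rw [r0 x hx w d.1 c (Ne.symm wx)] at e
    simp at e

theorem rext_ax (e : Env) (b a j u s : ℕ) (K1 K0 : List ℕ) (hb : e.U b = {s})
    (hd : ∀ v ∈ e.un K1, v ∉ e.un K0)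
    (hs : ∀ x ∈ e.U a, x ≠ s → ∀ Y X : Finset ℕ,
      (∀ y ∈ Y, y ≠ x ∧ y ≠ s ∧ ((y ∈ e.un K1 ∧ e.E x y = true ∧ e.E s y = false) ∨
        (y ∈ e.un K0 ∧ e.E x y = false ∧ e.E s y = true))) → X.card < Y.card →
      ∃ w, w ∉ X ∧ w ≠ x ∧ w ≠ s ∧ ((w ∈ e.un K1 ∧ e.E w x = false ∧ e.E w s = true) ∨
        (w ∈ e.un K0 ∧ e.E w x = true ∧ e.E w s = false))) :
    AxHolds e (extAx b a j u K1 K0) := by
  intro x ⟨m1, m2, m3⟩ X hX
  have hl : (extAx b a j u K1 K0).ts.length = j + 3 := by simp [extAx]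
  have hX' : X.card ≤ j := hX
  rw [hl] at m1 m2 ⊢
  have x0 : x 0 ∈ e.U a := by
    obtain ⟨t, h1, h2⟩ := m1 0 (by omega)
    have : a = t := by simpa [extAx] using h1
    rwa [this]
  have x1 : x 1 = s := by
    obtain ⟨t, h1, h2⟩ := m1 1 (by omega)
    have : b = t := by simpa [extAx] using h1
    rw [← this, hb] at h2
    simpa using h2
  have xi : ∀ i < j + 1,
      (x (i + 2) ∈ e.un K1 ∧ e.E (x 0) (x (i + 2)) = true ∧ e.E s (x (i + 2)) = false) ∨
        (x (i + 2) ∈ e.un K0 ∧ e.E (x 0) (x (i + 2)) = false ∧ e.E s (x (i + 2)) = true) := by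
    intro i hi
    obtain ⟨t, h1, h2⟩ := m1 (i + 2) (by omega)
    have e1 : (extAx b a j u K1 K0).ts.getD (i + 2) 0 = if i < u then mask K1 else mask K0 := by
      simp [extAx, List.getD_eq_getElem?_getD, hi]
    have l1 := m3 ⟨0, i + 2, decide (i < u)⟩ (by
      simp only [extAx, List.mem_flatMap, List.mem_range]
      exact ⟨i, hi, by simp⟩)
    have l2 := m3 ⟨1, i + 2, !decide (i < u)⟩ (by
      simp only [extAx, List.mem_flatMap, List.mem_range]
      exact ⟨i, hi, by simp⟩)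
    simp only [x1] at l1 l2
    rw [e1] at h1
    by_cases c : i < u
    · simp only [c, if_true, testBit_mask, decide_eq_true_eq, decide_true, Bool.not_true] at h1 l1 l2
      exact Or.inl ⟨Env.mem_un.2 ⟨t, h1, h2⟩, l1, l2⟩
    · simp only [c, if_false, testBit_mask, decide_eq_true_eq, decide_false,
        Bool.not_false] at h1 l1 l2
      exact Or.inr ⟨Env.mem_un.2 ⟨t, h1, h2⟩, l1, l2⟩
  have x01 : x 0 ≠ s := fun h => by
    have := m2 0 (by omega) 1 (by omega) (by rw [h, x1])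
    omega
  have hc : ((Finset.range (j + 1)).image fun i => x (i + 2)).card = j + 1 := by
    rw [Finset.card_image_of_injOn, Finset.card_range]
    intro p hp q hq h
    have hp' := Finset.mem_range.1 (Finset.mem_coe.1 hp)
    have hq' := Finset.mem_range.1 (Finset.mem_coe.1 hq)
    have := m2 (p + 2) (by omega) (q + 2) (by omega) h
    omega
  obtain ⟨w, w1, w2, w3, w4⟩ := hs (x 0) x0 x01 ((Finset.range (j + 1)).image fun i => x (i + 2))
    X (by
      intro y hy
      obtain ⟨i, hi, rfl⟩ := Finset.mem_image.1 hy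
      have hi' := Finset.mem_range.1 hi
      refine ⟨fun h => ?_, fun h => ?_, xi i hi'⟩
      · have := m2 (i + 2) (by omega) 0 (by omega) h
        omega
      · have := m2 (i + 2) (by omega) 1 (by omega) (by rw [h, x1])
        omega) (by omega)
  refine ⟨w, w1, fun i hi => ?_, ?_⟩
  · rcases i with _ | _ | i
    · exact w2
    · rw [x1]; exact w3
    · intro h
      have := xi i (by omega)
      rw [← h, e.symm (x 0) w, e.symm s w] at this
      rcases this with c | c <;> rcases w4 with d | d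
      · rw [d.2.1] at c; simp at c
      · exact hd w c.1 d.1
      · exact hd w d.1 c.1
      · rw [d.2.1] at c; simp at c
  · rcases w4 with d | d
    · obtain ⟨t, t1, t2⟩ := Env.mem_un.1 d.1
      refine ⟨⟨t, [(0, false), (1, true)]⟩, ?_, t2, ?_⟩
      · simp only [extAx, List.mem_append, List.mem_map]
        exact Or.inl ⟨t, t1, rfl⟩
      · simp [x1, d.2.1, d.2.2]
    · obtain ⟨t, t1, t2⟩ := Env.mem_un.1 d.1
      refine ⟨⟨t, [(0, true), (1, false)]⟩, ?_, t2, ?_⟩
      · simp only [extAx, List.mem_append, List.mem_map]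
        exact Or.inr ⟨t, t1, rfl⟩
      · simp [x1, d.2.1, d.2.2]

theorem r_ext (a J : ℕ) (K1 R1 K0 R0 lv : List ℕ) (In : Ids) (Γn : Ctx) (An : List ℕ) (I : Ids)
    (Γp : Ctx) (Ap : List ℕ)
    (h : andb (extSide T Γ a (K1 ++ R1) (K0 ++ R0))
      (andb (lin T Γ In (deadExt [a]) Γn A An)
      (andb (extOK T Γ I (extExt I.b a J K1 K0))
      (andb (initOK T (extCtx Γ I (extExt I.b a J K1 K0)) (casePat [I.b] []) lv)
      (andb (Ctx.le Γp (parCtx T (extCtx Γ I (extExt I.b a J K1 K0)) (casePat [I.b] []) lv))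
        (subD Γ.nt Γp A Ap))))) = true)
    (o : AllRef T Γ (extObl a R1 R0)) (kn : Bd T Γn An) (kp : Bd T Γp Ap) : Bd T Γ A := by
  simp only [andb_eq, Bool.and_eq_true] at h
  obtain ⟨hs, hlin, hok, hinit, hle, hsub⟩ := h
  simp only [extSide, andb_eq, orb_eq, allb_eq, Bool.and_eq_true, List.all_eq_true, ltb_iff,
    Bool.or_eq_true] at hs
  obtain ⟨ha, hdis, hg⟩ := hs
  obtain ⟨cn, kn⟩ := kn
  obtain ⟨cp, kp⟩ := kp
  refine ⟨cn + cp, fun e H => ?_⟩
  rcases (e.U a).eq_empty_or_nonempty with hem | hne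
  · refine (mu_lin hlin kn H (f := fun _ => ∅) ⟨?_, ?_, ?_, ?_, ?_⟩).mono subset_rfl (by omega)
    · intro o h; simp [deadExt] at h
    · simp [deadExt]
    · simp [deadExt]
    · simp [deadExt]
    · intro t ht
      have : t = a := by simpa [deadExt] using ht
      rw [this, e.ext_old _ _ ha, hem]
  · have hd : ∀ v ∈ e.un (K1 ++ R1), v ∉ e.un (K0 ++ R0) := by
      intro v hv hv'
      obtain ⟨g, g1, g2⟩ := Env.mem_un.1 hv
      obtain ⟨g', g1', g2'⟩ := Env.mem_un.1 hv'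
      exact disj_sound (hdis g g1 g' g1') H g2 g2'
    have hu : ∀ G : List ℕ, (∀ g ∈ G, g ∈ K1 ++ R1 ++ (K0 ++ R0)) →
        ∀ u ∈ e.U a, ∀ v ∈ e.U a, u ∈ e.un G → v ∈ e.un G := by
      intro G hG u hu v hv h
      obtain ⟨g, g1, g2⟩ := Env.mem_un.1 h
      rcases (hg g (hG g g1)).2 with c | c
      · exact Env.mem_un.2 ⟨g, g1, (isAnc_sound c H).2 hv⟩
      · exact absurd g2 (disj_sound c H hu)
    have hk : ∀ K R : List ℕ, e.un K ⊆ e.un (K ++ R) := by
      intro K R v hv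
      obtain ⟨g, g1, g2⟩ := Env.mem_un.1 hv
      exact Env.mem_un.2 ⟨g, List.mem_append_left _ g1, g2⟩
    have hr : ∀ (K R : List ℕ) (β : Bool), (∀ g ∈ R, pat2 a g β ∈ extObl a R1 R0) →
        ∀ u ∈ e.U a, ∀ w ∈ e.un (K ++ R), w ∉ e.un K → u ≠ w → e.E u w ≠ β := by
      intro K R β hR u hu w hw hw' huw
      obtain ⟨g, g1, g2⟩ := Env.mem_un.1 hw
      rcases List.mem_append.1 g1 with c | c
      · exact absurd (Env.mem_un.2 ⟨g, c, g2⟩) hw'
      · exact (o _ (hR g c)).pat2 H hu g2 huw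
    obtain ⟨s, hs, hmax⟩ := rext_core e.E e.symm (e.U a) (e.un (K1 ++ R1)) (e.un (K0 ++ R0))
      (e.un K1) (e.un K0) (hk _ _) (hk _ _)
      (hu _ fun g hg => List.mem_append_left _ hg) (hu _ fun g hg => List.mem_append_right _ hg)
      (fun u hu w hw hw' huw => by
        simpa using hr K1 R1 false (fun g hg => by
          simp only [extObl, List.mem_append, List.mem_map]
          exact Or.inl ⟨g, hg, rfl⟩) u hu w hw hw' huw)
      (fun u hu w hw hw' huw => by
        simpa using hr K0 R0 true (fun g hg => by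
          simp only [extObl, List.mem_append, List.mem_map]
          exact Or.inr ⟨g, hg, rfl⟩) u hu w hw hw' huw) hd hne
    have hb := extOK_le hok
    have e1 : (e.ext Γ.nt I.b fun _ => {s}).un K1 = e.un K1 :=
      e.ext_un _ _ fun g h => (hg g (by simp [h])).1
    have e0 : (e.ext Γ.nt I.b fun _ => {s}).un K0 = e.un K0 :=
      e.ext_un _ _ fun g h => (hg g (by simp [h])).1
    have eb : (e.ext Γ.nt I.b fun _ => {s}).U I.b = {s} := e.ext_new (fun _ => {s}) hb 0
    have hf : ExtSem e Γ.nt I.b (extExt I.b a J K1 K0) fun _ => {s} := by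
      refine ⟨?_, ?_, ?_, ?_, ?_⟩
      · intro o h v hv
        have o0 : o = 0 := by simpa [extExt] using h
        subst o0
        obtain rfl := Finset.mem_singleton.1 hv
        simp [extExt, hs]
      · simp [extExt]
      · intro z hz
        simp only [extExt, List.mem_flatMap, List.mem_map] at hz
        obtain ⟨j, _, u, _, rfl⟩ := hz
        refine rext_ax _ I.b a j u s K1 K0 eb ?_ ?_
        · rw [e1, e0]
          exact fun v hv hv' => hd v (hk _ _ hv) (hk _ _ hv')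
        · rw [e1, e0, e.ext_old _ _ ha]
          exact hmax
      · simp [extExt]
      · simp [extExt]
    have H' := holds_ext hok H hf
    have hx : PEmb (e.ext Γ.nt I.b fun _ => {s}) (casePat [I.b] []) (fun _ => s)
        (fun _ => I.b) := by
      refine ⟨fun i hi => ?_, fun i hi j hj _ => ?_, by simp [casePat], by simp [casePat]⟩
      · have i0 : i = 0 := by simpa [casePat] using hi
        subst i0
        rw [eb]
        simp [casePat]
      · have i0 : i = 0 := by simpa [casePat] using hi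
        have j0 : j = 0 := by simpa [casePat] using hj
        omega
    have := mu_par hinit hle hsub kp H' hx
    rw [e.ext_un _ _ (subD_lt hsub)] at this
    exact (mu_ext H I.b _ this).mono subset_rfl (by omega)

end Pool.Agent.Lib.MP_849b2e_co
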