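import Pool.Agent.Lib.MP_849b2e_co.Ext

/-!
Soundness of the rule `hit` (bounded hitting sets).
-/

namespace Pool.Agent.Lib.MP_849b2e_co

variable {T : Tab} {Γ : Ctx} {A : List ℕ}

/-- A family of disjoint copies of a typed pattern, indexed by `s`. -/
structure HitFam (e : Env) (ty : List ℕ) (inn cr : List Lit) (y : ℕ → ℕ → ℕ) (s : Finset ℕ) :
    Prop where
  mem : ∀ i ∈ s, ∀ p < ty.length, y i p ∈ e.U (ty.getD p 0)
  inj : ∀ i ∈ s, ∀ j ∈ s, ∀ p < ty.length, ∀ q < ty.length, y i p = y j q → i = j ∧ p = q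
  inn : ∀ i ∈ s, ∀ l ∈ inn, e.E (y i l.i) (y i l.j) = l.b
  cr : ∀ i ∈ s, ∀ j ∈ s, i < j → ∀ l ∈ cr, e.E (y i l.i) (y j l.j) = l.b

theorem hit_rep_length {α : Type} (l : List α) (m : ℕ) :
    ((List.range m).flatMap fun _ => l).length = m * l.length := by
  induction m with
  | zero => simp
  | succ m ih =>
    rw [List.range_succ, List.flatMap_append, List.length_append, ih]
    simp [Nat.succ_mul]

theorem hit_rep_getD {α : Type} (l : List α) (d : α) (m z : ℕ) (hz : z < m * l.length) :
    ((List.range m).flatMap fun _ => l).getD z d = l.getD (z % l.length) d := by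
  induction m with
  | zero => simp at hz
  | succ m ih =>
    rw [List.range_succ, List.flatMap_append]
    by_cases h : z < m * l.length
    · rw [List.getD_append _ _ _ _ (by rw [hit_rep_length]; exact h), ih h]
    · rw [List.getD_append_right _ _ _ _ (by rw [hit_rep_length]; omega), hit_rep_length]
      have h1 : z - m * l.length < l.length := by
        rw [Nat.succ_mul] at hz
        omega
      have h2 : z % l.length = z - m * l.length := by
        have h3 : z = (z - m * l.length) + m * l.length := by omega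
        rw [h3, Nat.add_mul_mod_self_right, Nat.mod_eq_of_lt h1]
        omega
      rw [h2]
      simp

theorem hit_getD_map {α β : Type} (g : α → β) (l : List α) (a : α) (b : β) {p : ℕ}
    (hp : p < l.length) : (l.map g).getD p b = g (l.getD p a) := by
  rw [List.getD_eq_getElem _ _ (by simpa using hp), List.getD_eq_getElem _ _ hp, List.getElem_map]

theorem hit_flip (s t : ℕ) : flipOf [] s t = false := by
  have h : look [] s = 0 := rfl
  simp [flipOf, h]

theorem hit_leaf {e : Env} {ty : List ℕ} {inn cr : List Lit} {y : ℕ → ℕ → ℕ} {s : Finset ℕ}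
    {m : ℕ} (hk : 0 < ty.length) (hi : ∀ l ∈ inn, l.i < ty.length ∧ l.j < ty.length)
    (hc : ∀ l ∈ cr, l.i < ty.length ∧ l.j < ty.length) (H : HitFam e ty inn cr y s)
    (hm : m ≤ s.card) : ∃ x τ, PEmb e (hitPat ty m inn cr) x τ := by
  obtain ⟨σ, hσ1, hσ2⟩ : ∃ σ : ℕ → ℕ, (∀ i < m, σ i ∈ s) ∧ ∀ i j, i < j → j < m → σ i < σ j := by
    refine ⟨fun i => if h : i < s.card then s.orderEmbOfFin rfl ⟨i, h⟩ else 0, ?_, ?_⟩
    · intro i hi
      have h : i < s.card := by omega
      simp only [dif_pos h]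
      exact Finset.orderEmbOfFin_mem _ _ _
    · intro i j hij hj
      have h1 : i < s.card := by omega
      have h2 : j < s.card := by omega
      simp only [dif_pos h1, dif_pos h2]
      exact (s.orderEmbOfFin rfl).strictMono (show (⟨i, h1⟩ : Fin s.card) < ⟨j, h2⟩ from hij)
  have hσ3 : ∀ i < m, ∀ j < m, σ i = σ j → i = j := by
    intro i hi j hj h
    rcases lt_trichotomy i j with c | c | c
    · exact absurd h (hσ2 i j c hj).ne
    · exact c
    · exact absurd h (hσ2 j i c hi).ne'
  have hlen : (hitPat ty m inn cr).S.length = m * ty.length := by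
    simp only [hitPat]
    rw [hit_rep_length, List.length_map]
  have hdiv : ∀ z < m * ty.length, z / ty.length < m := fun z hz =>
    (Nat.div_lt_iff_lt_mul hk).2 hz
  have hd : ∀ i p, p < ty.length → (i * ty.length + p) / ty.length = i := by
    intro i p hp
    rw [Nat.add_comm, Nat.add_mul_div_right _ _ hk, Nat.div_eq_of_lt hp, Nat.zero_add]
  have hr : ∀ i p, p < ty.length → (i * ty.length + p) % ty.length = p := by
    intro i p hp
    rw [Nat.add_comm, Nat.add_mul_mod_self_right, Nat.mod_eq_of_lt hp]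
  refine ⟨fun z => y (σ (z / ty.length)) (z % ty.length), fun z => ty.getD (z % ty.length) 0,
    ?_, ?_, ?_, ?_⟩
  · intro z hz
    rw [hlen] at hz
    refine ⟨?_, H.mem _ (hσ1 _ (hdiv z hz)) _ (Nat.mod_lt _ hk)⟩
    simp only [hitPat]
    rw [hit_rep_getD _ _ _ _ (by rw [List.length_map]; exact hz), List.length_map,
      hit_getD_map _ _ 0 _ (Nat.mod_lt _ hk)]
    exact List.mem_singleton.2 rfl
  · intro z hz z' hz' h
    rw [hlen] at hz hz'
    obtain ⟨h1, h2⟩ := H.inj _ (hσ1 _ (hdiv z hz)) _ (hσ1 _ (hdiv z' hz')) _ (Nat.mod_lt _ hk) _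
      (Nat.mod_lt _ hk) h
    have h3 := hσ3 _ (hdiv z hz) _ (hdiv z' hz') h1
    rw [← Nat.div_add_mod z ty.length, ← Nat.div_add_mod z' ty.length, h2, h3]
  · intro l hl
    have hF : (hitPat ty m inn cr).F = [] := rfl
    rw [hF, hit_flip, Bool.xor_false]
    simp only [hitPat, List.mem_append, List.mem_flatMap, List.mem_range, List.mem_map] at hl
    rcases hl with ⟨i, him, l0, hl0, rfl⟩ | ⟨j, hjm, i, hij, l0, hl0, rfl⟩
    · simp only [hd i _ (hi l0 hl0).1, hd i _ (hi l0 hl0).2, hr i _ (hi l0 hl0).1,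
        hr i _ (hi l0 hl0).2]
      exact H.inn _ (hσ1 i him) l0 hl0
    · simp only [hd i _ (hc l0 hl0).1, hd j _ (hc l0 hl0).2, hr i _ (hc l0 hl0).1,
        hr j _ (hc l0 hl0).2]
      exact H.cr _ (hσ1 i (by omega)) _ (hσ1 j hjm) (hσ2 i j hij hjm) l0 hl0
  · intro l hl
    simp [hitPat] at hl

theorem HitFam.sub {e : Env} {ty : List ℕ} {inn cr : List Lit} {y : ℕ → ℕ → ℕ} {s t : Finset ℕ}
    (H : HitFam e ty inn cr y s) (h : t ⊆ s) : HitFam e ty inn cr y t :=
  ⟨fun i hi => H.mem i (h hi), fun i hi j hj => H.inj i (h hi) j (h hj),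
    fun i hi => H.inn i (h hi), fun i hi j hj => H.cr i (h hi) j (h hj)⟩

theorem HitFam.add_inn {e : Env} {ty : List ℕ} {inn cr : List Lit} {y : ℕ → ℕ → ℕ}
    {s : Finset ℕ} (H : HitFam e ty inn cr y s) {p q : ℕ} {b : Bool}
    (h : ∀ i ∈ s, e.E (y i p) (y i q) = b) : HitFam e ty (⟨p, q, b⟩ :: inn) cr y s := by
  refine ⟨H.mem, H.inj, fun i hi l hl => ?_, H.cr⟩
  rcases List.mem_cons.1 hl with rfl | hl
  · exact h i hi
  · exact H.inn i hi l hl

theorem HitFam.add_cr {e : Env} {ty : List ℕ} {inn cr : List Lit} {y : ℕ → ℕ → ℕ}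
    {s : Finset ℕ} (H : HitFam e ty inn cr y s) {p q : ℕ} {b : Bool}
    (h : ∀ i ∈ s, ∀ j ∈ s, i < j → e.E (y i p) (y j q) = b) :
    HitFam e ty inn (⟨p, q, b⟩ :: cr) y s := by
  refine ⟨H.mem, H.inj, H.inn, fun i hi j hj hij l hl => ?_⟩
  rcases List.mem_cons.1 hl with rfl | hl
  · exact h i hi j hj hij
  · exact H.cr i hi j hj hij l hl

theorem hit_cons_lt {k p q : ℕ} {b : Bool} {ls : List Lit} (hp : p < k) (hq : q < k)
    (h : ∀ l ∈ ls, l.i < k ∧ l.j < k) : ∀ l ∈ (⟨p, q, b⟩ : Lit) :: ls, l.i < k ∧ l.j < k := by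
  intro l hl
  rcases List.mem_cons.1 hl with rfl | hl
  · exact ⟨hp, hq⟩
  · exact h l hl

theorem hit_tree {ty : List ℕ} (hk : 0 < ty.length) (t : HT) : ∀ inn cr : List Lit,
    t.ok ty.length = true → (∀ l ∈ inn, l.i < ty.length ∧ l.j < ty.length) →
    (∀ l ∈ cr, l.i < ty.length ∧ l.j < ty.length) → AllRef T Γ (htObl ty t inn cr) →
    ∃ N, ∀ e, Holds T Γ e → ∀ y s, HitFam e ty inn cr y s → s.card < N := by
  induction t with
  | leaf m =>
    intro inn cr _ hi hc o
    refine ⟨m, fun e He y s H => ?_⟩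
    by_contra c
    obtain ⟨x, τ, hx⟩ := hit_leaf hk hi hc H (not_lt.1 c)
    exact o _ (by simp [htObl]) e He x τ hx
  | br x p q l r ihl ihr =>
    intro inn cr hok hi hc o
    simp only [HT.ok, Bool.and_eq_true, ltb_iff] at hok
    obtain ⟨⟨⟨hp, hq⟩, hl⟩, hr⟩ := hok
    cases x
    · obtain ⟨N1, h1⟩ := ihl _ cr hl (hit_cons_lt (b := false) hp hq hi) hc
        (fun z hz => o z (by simp only [htObl]; exact List.mem_append_left _ hz))
      obtain ⟨N2, h2⟩ := ihr _ cr hr (hit_cons_lt (b := true) hp hq hi) hc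
        (fun z hz => o z (by simp only [htObl]; exact List.mem_append_right _ hz))
      refine ⟨N1 + N2, fun e He y s H => ?_⟩
      have a1 := h1 e He y (s.filter fun i => ¬ e.E (y i p) (y i q) = true)
        ((H.sub (Finset.filter_subset _ _)).add_inn fun i hi => by
          simpa using (Finset.mem_filter.1 hi).2)
      have a2 := h2 e He y (s.filter fun i => e.E (y i p) (y i q) = true)
        ((H.sub (Finset.filter_subset _ _)).add_inn fun i hi => (Finset.mem_filter.1 hi).2)
      have a3 := Finset.card_filter_add_card_filter_not (s := s)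
        (fun i => e.E (y i p) (y i q) = true)
      omega
    · obtain ⟨N1, h1⟩ := ihl inn _ hl hi (hit_cons_lt (b := false) hp hq hc)
        (fun z hz => o z (by simp only [htObl]; exact List.mem_append_left _ hz))
      obtain ⟨N2, h2⟩ := ihr inn _ hr hi (hit_cons_lt (b := true) hp hq hc)
        (fun z hz => o z (by simp only [htObl]; exact List.mem_append_right _ hz))
      obtain ⟨N, hN⟩ := ramsey2 N1 N2
      refine ⟨N, fun e He y s H => ?_⟩
      by_contra c
      obtain ⟨t, ht, h | h⟩ := hN (fun i j => e.E (y i p) (y j q)) s (not_lt.1 c)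
      · have := h1 e He y t ((H.sub ht).add_cr h.2)
        omega
      · have := h2 e He y t ((H.sub ht).add_cr h.2)
        omega

/-- Every copy of the pattern meets `D`. -/
def HitSet (e : Env) (ty : List ℕ) (lits : List Lit) (D : Finset ℕ) : Prop :=
  ∀ x : ℕ → ℕ, (∀ p < ty.length, x p ∈ e.U (ty.getD p 0)) →
    (∀ p < ty.length, ∀ q < ty.length, x p = x q → p = q) →
    (∀ l ∈ lits, e.E (x l.i) (x l.j) = l.b) → ∃ p < ty.length, x p ∈ D

theorem hit_set {e : Env} {ty : List ℕ} {lits : List Lit} {N : ℕ}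
    (h : ∀ y s, HitFam e ty lits [] y s → s.card < N) :
    ∃ D : Finset ℕ, D.card ≤ N * ty.length ∧ HitSet e ty lits D := by
  by_contra c
  have key : ∀ n ≤ N, ∃ y, HitFam e ty lits [] y (Finset.range n) := by
    intro n
    induction n with
    | zero => exact fun _ => ⟨fun _ _ => 0, by simp, by simp, by simp, by simp⟩
    | succ n ih =>
      intro hn
      obtain ⟨y, H⟩ := ih (by omega)
      have hD : ¬ HitSet e ty lits ((Finset.range n ×ˢ Finset.range ty.length).image
          fun z => y z.1 z.2) := by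
        intro hD
        refine c ⟨_, le_trans Finset.card_image_le ?_, hD⟩
        rw [Finset.card_product, Finset.card_range, Finset.card_range]
        exact Nat.mul_le_mul_right _ (by omega)
      unfold HitSet at hD
      push Not at hD
      obtain ⟨x, x1, x2, x3, x4⟩ := hD
      have x5 : ∀ p < ty.length, ∀ i < n, ∀ q < ty.length, x p ≠ y i q := by
        intro p hp i hi q hq hx
        exact x4 p hp (Finset.mem_image.2 ⟨(i, q), Finset.mem_product.2
          ⟨Finset.mem_range.2 hi, Finset.mem_range.2 hq⟩, hx.symm⟩)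
      refine ⟨fun i => if i = n then x else y i, ?_, ?_, ?_, by simp⟩
      · intro i hi p hp
        rw [Finset.mem_range] at hi
        by_cases hi' : i = n
        · simp only [if_pos hi']
          exact x1 p hp
        · simp only [if_neg hi']
          exact H.mem i (Finset.mem_range.2 (by omega)) p hp
      · intro i hi j hj p hp q hq hy
        rw [Finset.mem_range] at hi hj
        by_cases hi' : i = n <;> by_cases hj' : j = n
        · simp only [if_pos hi', if_pos hj'] at hy
          exact ⟨hi'.trans hj'.symm, x2 p hp q hq hy⟩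
        · simp only [if_pos hi', if_neg hj'] at hy
          exact absurd hy (x5 p hp j (by omega) q hq)
        · simp only [if_neg hi', if_pos hj'] at hy
          exact absurd hy.symm (x5 q hq i (by omega) p hp)
        · simp only [if_neg hi', if_neg hj'] at hy
          exact H.inj i (Finset.mem_range.2 (by omega)) j (Finset.mem_range.2 (by omega)) p hp q
            hq hy
      · intro i hi l hl
        rw [Finset.mem_range] at hi
        by_cases hi' : i = n
        · simp only [if_pos hi']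
          exact x3 l hl
        · simp only [if_neg hi']
          exact H.inn i (Finset.mem_range.2 (by omega)) l hl
  obtain ⟨y, H⟩ := key N le_rfl
  have := h y _ H
  simp at this

theorem hit_all (L : List ℕ) (hs : List HP)
    (ok : ∀ h ∈ hs, 0 < h.ty.length ∧ (∀ l ∈ h.lits, l.i < h.ty.length ∧ l.j < h.ty.length) ∧
      h.t.ok h.ty.length = true)
    (o : AllRef T Γ (hitObl L hs)) : ∃ M, ∀ e, Holds T Γ e → ∃ D : Finset ℕ, D.card ≤ M ∧
      ∀ h ∈ hs, HitSet e (h.ty.map fun i => L.getD i 0) h.lits D := by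
  induction hs with
  | nil => exact ⟨0, fun e _ => ⟨∅, by simp, by simp⟩⟩
  | cons h hs ih =>
    obtain ⟨M, hM⟩ := ih (fun g hg => ok g (List.mem_cons_of_mem _ hg))
      (fun z hz => o z (by
        simp only [hitObl, List.flatMap_cons]
        exact List.mem_append_right _ hz))
    obtain ⟨k1, k2, k3⟩ := ok h List.mem_cons_self
    obtain ⟨N, hN⟩ := hit_tree (T := T) (Γ := Γ) (ty := h.ty.map fun i => L.getD i 0)
      (by rwa [List.length_map]) h.t h.lits [] (by rwa [List.length_map])
      (by rwa [List.length_map]) (by simp)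
      (fun z hz => o z (by
        simp only [hitObl, List.flatMap_cons]
        exact List.mem_append_left _ hz))
    refine ⟨N * (h.ty.map fun i => L.getD i 0).length + M, fun e He => ?_⟩
    obtain ⟨D1, d1, d2⟩ := hit_set (hN e He)
    obtain ⟨D2, d3, d4⟩ := hM e He
    refine ⟨D1 ∪ D2, le_trans (Finset.card_union_le _ _) (Nat.add_le_add d1 d3), ?_⟩
    intro g hg x x1 x2 x3
    rcases List.mem_cons.1 hg with rfl | hg
    · obtain ⟨p, hp, hx⟩ := d2 x x1 x2 x3
      exact ⟨p, hp, Finset.mem_union_left _ hx⟩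
    · obtain ⟨p, hp, hx⟩ := d4 g hg x x1 x2 x3
      exact ⟨p, hp, Finset.mem_union_right _ hx⟩

theorem r_hit (L : List ℕ) (hs : List HP) (I : Ids) (Γ' : Ctx) (A' : List ℕ)
    (h : andb (child T Γ I (hitExt I.b L hs) Γ') (hitOK Γ Γ' I.b L hs A A') = true)
    (o : AllRef T Γ (hitObl L hs)) (k : Bd T Γ' A') : Bd T Γ A := by
  rw [andb_eq, Bool.and_eq_true] at h
  obtain ⟨hc, hok⟩ := h
  simp only [hitOK, andb_eq, orb_eq, allb_eq, anyb_eq, Bool.and_eq_true, Bool.or_eq_true,
    List.all_eq_true, List.any_eq_true, ltb_iff, bit_eq, testBit_mask, decide_eq_true_eq,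
    List.mem_range, Nat.beq_eq] at hok
  obtain ⟨ok1, ok2⟩ := hok
  obtain ⟨M, hM⟩ := hit_all (T := T) (Γ := Γ) L hs
    (fun g hg => ⟨(ok1 g hg).1, (ok1 g hg).2.2.1, (ok1 g hg).2.2.2⟩) o
  obtain ⟨c, hk⟩ := k
  obtain ⟨c', hu⟩ := Mu.union c M
  refine ⟨c', fun e He => ?_⟩
  obtain ⟨D, hD, hit⟩ := hM e He
  have hle : Γ.nt ≤ I.b := extOK_le (child_ok hc)
  have hsem : ExtSem e Γ.nt I.b (hitExt I.b L hs) fun i => e.U (L.getD i 0) \ D := by
    refine ⟨?_, ?_, ?_, ?_, ?_⟩
    · intro i hi v hv
      have hi' : i < L.length := by simpa [hitExt] using hi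
      have hkid : (hitExt I.b L hs).kids[i] = ⟨L.getD i 0, 0, 0, 0, 0⟩ := by
        simp only [hitExt, List.getElem_map]
        rw [List.getD_eq_getElem _ _ hi']
      rw [hkid]
      exact ⟨(Finset.mem_sdiff.1 hv).1, by simp, by simp, by simp, by simp⟩
    · intro v hv
      simp [hitExt] at hv
    · intro a ha
      simp only [hitExt, List.mem_map] at ha
      obtain ⟨g, hg, rfl⟩ := ha
      rw [axHolds_cl]
      rintro x ⟨x1, x2, x3⟩
      simp only [cl, List.length_map] at x1 x2 x3
      have x4 : ∀ p < g.ty.length, x p ∈ e.U (L.getD (g.ty.getD p 0) 0) \ D := by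
        intro p hp
        obtain ⟨t, ht, hx⟩ := x1 p hp
        rw [hit_getD_map _ _ 0 _ hp, testBit_pw, decide_eq_true_eq] at ht
        rw [← ht, Env.ext_new _ _ hle] at hx
        exact hx
      obtain ⟨p, hp, hx⟩ := hit g hg x
        (fun p hp => by
          rw [List.length_map] at hp
          rw [hit_getD_map _ _ 0 _ hp]
          exact (Finset.mem_sdiff.1 (x4 p hp)).1)
        (by rw [List.length_map]; exact x2) x3
      rw [List.length_map] at hp
      exact (Finset.mem_sdiff.1 (x4 p hp)).2 hx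
    · intro s hs'
      simp [hitExt] at hs'
    · intro t ht
      simp [hitExt] at ht
  have He' := holds_child hc He hsem
  have h1 := hk _ He'
  rw [child_md hc] at h1
  refine (hu _ e _ D hD (mu_ext He _ _ h1)).mono ?_ le_rfl
  intro v hv
  obtain ⟨a, ha, hva⟩ := Env.mem_un.1 hv
  obtain ⟨b1, b2⟩ := ok2 a ha
  have hva' : v ∈ (e.ext Γ.nt I.b fun i => e.U (L.getD i 0) \ D).U a := by
    rwa [Env.ext_old _ _ _ b1]
  rcases b2 with b2 | b2 | ⟨i, _, b3, b4⟩
  · rw [(He'.dead a b2).2] at hva'
    simp at hva'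
  · exact Finset.mem_union_left _ (Env.mem_un.2 ⟨a, b2, hva'⟩)
  · by_cases hvD : v ∈ D
    · exact Finset.mem_union_right _ hvD
    · refine Finset.mem_union_left _ (Env.mem_un.2 ⟨_, b4, ?_⟩)
      rw [Env.ext_new _ _ hle, b3]
      exact Finset.mem_sdiff.2 ⟨hva, hvD⟩

end Pool.Agent.Lib.MP_849b2e_co
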