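import Pool.Agent.Lib.MP_849b2e_co.Ext

/-!
Soundness of the rule `odd` (shortest odd cycle).
-/

namespace Pool.Agent.Lib.MP_849b2e_co

/-- A shortest odd closed walk, indexed by residues. -/
theorem odd_cycle (G : SimpleGraph ℕ) (hG : ¬ G.Colorable 2)
    (htri : ∀ u v w, G.Adj u v → G.Adj v w → ¬ G.Adj w u) :
    ∃ (L : ℕ) (γ : ZMod L → ℕ), Odd L ∧ 5 ≤ L ∧ (∀ z, G.Adj (γ z) (γ (z + 1))) ∧
      Function.Injective γ ∧ (∀ z z', G.Adj (γ z) (γ z') → z' = z + 1 ∨ z' = z - 1) ∧
      ∀ v z z', G.Adj v (γ z) → G.Adj v (γ z') → z' = z ∨ z' = z + 2 ∨ z' = z - 2 := by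
  classical
  have hex : ∃ L, Odd L ∧ ∃ u, ∃ p : G.Walk u u, p.length = L := by
    by_contra hno
    refine hG (SimpleGraph.two_colorable_iff_forall_loop_even.mpr fun u p => ?_)
    exact Nat.not_odd_iff_even.mp fun ho => hno ⟨_, ho, u, p, rfl⟩
  obtain ⟨L, ⟨hodd, u, p, hp⟩, hmin⟩ : ∃ L, (Odd L ∧ ∃ u, ∃ p : G.Walk u u, p.length = L) ∧
      ∀ u (q : G.Walk u u), Odd q.length → L ≤ q.length :=
    ⟨Nat.find hex, Nat.find_spec hex, fun u q hq => Nat.find_min' hex ⟨hq, u, q, rfl⟩⟩
  have hL0 : 0 < L := hodd.pos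
  have : NeZero L := ⟨hL0.ne'⟩
  let γ : ZMod L → ℕ := fun z => p.getVert z.val
  have step : ∀ z, G.Adj (γ z) (γ (z + 1)) := by
    intro z
    have h1 := p.adj_getVert_succ (i := z.val) (by rw [hp]; exact z.val_lt)
    have h2 : γ (z + 1) = p.getVert (z.val + 1) := by
      have h3 : (z + 1).val = (z.val + 1) % L := by
        conv_lhs => rw [← ZMod.natCast_zmod_val z, ← Nat.cast_succ, ZMod.val_natCast]
      change p.getVert (z + 1).val = _
      rw [h3]
      rcases (Nat.succ_le_of_lt z.val_lt).lt_or_eq with h | h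
      · rw [Nat.mod_eq_of_lt h]
      · have h4 : z.val + 1 = L := h
        rw [h4, Nat.mod_self, p.getVert_zero]
        conv_rhs => rw [← hp, p.getVert_length]
    rw [h2]
    exact h1
  have along : ∀ (z : ZMod L) (d : ℕ), ∃ q : G.Walk (γ z) (γ (z + d)), q.length = d := by
    intro z d
    induction d with
    | zero => exact ⟨SimpleGraph.Walk.nil.copy rfl (by simp), by simp⟩
    | succ d ih =>
      obtain ⟨q, hq⟩ := ih
      exact ⟨(q.concat (step _)).copy rfl (by rw [Nat.cast_succ, add_assoc]), by simp [hq]⟩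
  have short : ∀ (z z' : ZMod L) (q : G.Walk (γ z) (γ z')), ∃ d : ℕ, d < L ∧ z' = z + d ∧
      ((d + q.length) % 2 = 1 ∧ L ≤ d + q.length ∨ (d + q.length) % 2 = 0 ∧ d ≤ q.length) := by
    intro z z' q
    have hd := (z' - z).val_lt
    have hz : z' = z + ((z' - z).val : ℕ) := by rw [ZMod.natCast_zmod_val]; ring
    refine ⟨_, hd, hz, ?_⟩
    generalize (z' - z).val = d at hd hz
    obtain ⟨q1, h1⟩ := along z d
    obtain ⟨q2, h2⟩ := along z' (L - d)
    have e2 : γ (z' + ((L - d : ℕ) : ZMod L)) = γ z := by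
      rw [hz, add_assoc, ← Nat.cast_add, Nat.add_sub_cancel' hd.le, ZMod.natCast_self, add_zero]
    have m1 := hmin _ ((q1.copy rfl (by rw [← hz])).append q.reverse)
    have m2 := hmin _ (q.append (q2.copy rfl e2))
    simp only [SimpleGraph.Walk.length_append, SimpleGraph.Walk.length_copy,
      SimpleGraph.Walk.length_reverse, h1, h2, Nat.odd_iff] at m1 m2
    rw [Nat.odd_iff] at hodd
    omega
  have hL : ((L : ℕ) : ZMod L) = 0 := ZMod.natCast_self L
  have h5 : 5 ≤ L := by
    rw [Nat.odd_iff] at hodd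
    by_contra hlt
    obtain rfl | rfl : L = 1 ∨ L = 3 := by omega
    · exact (step 0).ne (congrArg γ (Subsingleton.elim _ _))
    · exact htri _ _ _ (step 0) (step (0 + 1)) (step (0 + 1 + 1))
  refine ⟨L, γ, hodd, h5, step, fun z z' h => ?_, fun z z' h => ?_, fun v z z' h h' => ?_⟩
  · obtain ⟨d, hd, hz, hc⟩ := short z z' (SimpleGraph.Walk.nil.copy rfl h)
    simp only [SimpleGraph.Walk.length_copy, SimpleGraph.Walk.length_nil] at hc
    obtain rfl : d = 0 := by omega
    simp [hz]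
  · obtain ⟨d, hd, hz, hc⟩ := short z z' h.toWalk
    simp only [SimpleGraph.Walk.length_cons, SimpleGraph.Walk.length_nil] at hc
    rcases (by omega : d = 1 ∨ d + 1 = L) with rfl | h1
    · exact Or.inl (by simp [hz])
    · right
      have h2 := congrArg (Nat.cast : ℕ → ZMod L) h1
      push_cast at h2
      linear_combination hz + h2 + hL
  · obtain ⟨d, hd, hz, hc⟩ := short z z' (SimpleGraph.Walk.cons h.symm h'.toWalk)
    simp only [SimpleGraph.Walk.length_cons, SimpleGraph.Walk.length_nil] at hc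
    rw [Nat.odd_iff] at hodd
    rcases (by omega : d = 0 ∨ d = 2 ∨ d + 2 = L) with rfl | rfl | h1
    · exact Or.inl (by simp [hz])
    · exact Or.inr (Or.inl (by simp [hz]))
    · right
      right
      have h2 := congrArg (Nat.cast : ℕ → ZMod L) h1
      push_cast at h2
      linear_combination hz + h2 + hL

theorem odd_ne {L : ℕ} (ho : Odd L) (h5 : 5 ≤ L) :
    (2 : ZMod L) ≠ 0 ∧ (4 : ZMod L) ≠ 0 ∧ (6 : ZMod L) ≠ 0 ∧ (8 : ZMod L) ≠ 0 := by
  have key : ∀ k : ℕ, 0 < k → k ≤ 8 → k % 2 = 0 → ((k : ℕ) : ZMod L) ≠ 0 := by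
    intro k h0 h8 h2 h
    obtain ⟨c, hc⟩ := (ZMod.natCast_eq_zero_iff k L).mp h
    rw [Nat.odd_iff] at ho
    rcases c with _ | _ | c
    · omega
    · omega
    · have : L * 2 ≤ L * (c + 1 + 1) := Nat.mul_le_mul_left _ (by omega)
      omega
  exact ⟨by exact_mod_cast key 2 (by omega) (by omega) rfl,
    by exact_mod_cast key 4 (by omega) (by omega) rfl,
    by exact_mod_cast key 6 (by omega) (by omega) rfl,
    by exact_mod_cast key 8 (by omega) (by omega) rfl⟩

theorem odd_dir {L k : ℕ} (z : ℕ → ZMod L)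
    (hs : ∀ i < k, z (i + 1) = z i + 1 ∨ z (i + 1) = z i - 1)
    (hi : ∀ i, i + 2 ≤ k → z (i + 2) ≠ z i) :
    z k = z 0 + k ∨ z k = z 0 - k := by
  rcases Nat.eq_zero_or_pos k with rfl | hk
  · simp
  obtain ⟨ε, hε, h0⟩ : ∃ ε : ZMod L, (ε = 1 ∨ ε = -1) ∧ z 1 = z 0 + ε := by
    rcases hs 0 hk with h | h
    · exact ⟨1, Or.inl rfl, h⟩
    · exact ⟨-1, Or.inr rfl, h.trans (sub_eq_add_neg _ _)⟩
  have h1 : ∀ i < k, z (i + 1) = z i + ε := by
    intro i
    induction i with
    | zero => exact fun _ => h0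
    | succ i ih =>
      intro h
      have h2 := ih (by omega)
      have h3 := hi i (by omega)
      rcases hs (i + 1) h with h4 | h4 <;> rcases hε with rfl | rfl
      · exact h4
      · exact absurd (by linear_combination h4 + h2) h3
      · exact absurd (by linear_combination h4 + h2) h3
      · exact h4.trans (sub_eq_add_neg _ _)
  have h2 : ∀ i ≤ k, z i = z 0 + i * ε := by
    intro i
    induction i with
    | zero => simp
    | succ i ih =>
      intro h
      rw [h1 i h, ih (by omega)]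
      push_cast
      ring
  rcases hε with rfl | rfl
  · exact Or.inl (by rw [h2 k le_rfl, mul_one])
  · exact Or.inr (by rw [h2 k le_rfl]; ring)

/-- The combinatorial content of the rule. -/
theorem odd_set (G : SimpleGraph ℕ) (hG : ¬ G.Colorable 2)
    (htri : ∀ u v w, G.Adj u v → G.Adj v w → ¬ G.Adj w u) :
    ∃ C : Finset ℕ, C.Nonempty ∧ (∀ x ∈ C, ∃ w ∈ C, ∃ w' ∈ C, w ≠ w' ∧ G.Adj x w ∧ G.Adj x w') ∧
      (∀ v, ∀ x ∈ C, ∀ y ∈ C, x ≠ y → G.Adj v x → G.Adj v y →
        ∃ w ∈ C, G.Adj w x ∧ G.Adj w y) ∧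
      (∀ v, ∀ x ∈ C, ∀ y ∈ C, ∀ z ∈ C, x ≠ y → x ≠ z → y ≠ z → G.Adj v x → G.Adj v y →
        ¬ G.Adj v z) ∧
      ∀ k, k = 3 ∨ k = 5 ∨ k = 7 → ∀ x : ℕ → ℕ, (∀ i < k + 1, x i ∈ C) →
        (∀ i < k + 1, ∀ j < k + 1, x i = x j → i = j) → (∀ i < k, G.Adj (x i) (x (i + 1))) →
        ¬ G.Adj (x 0) (x k) := by
  classical
  obtain ⟨L, γ, ho, h5, step, inj, adj, two⟩ := odd_cycle G hG htri
  have : NeZero L := ⟨by omega⟩
  obtain ⟨n2, n4, n6, n8⟩ := odd_ne ho h5
  have mem : ∀ z, γ z ∈ Finset.univ.image γ := fun z => Finset.mem_image_of_mem _ (by simp)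
  have back : ∀ z, G.Adj (γ z) (γ (z - 1)) := fun z => by simpa using (step (z - 1)).symm
  refine ⟨Finset.univ.image γ, ⟨_, mem 0⟩, ?_, ?_, ?_, ?_⟩
  · intro x hx
    obtain ⟨z, -, rfl⟩ := Finset.mem_image.mp hx
    exact ⟨_, mem _, _, mem _, fun h => n2 (by linear_combination inj h), step z, back z⟩
  · intro v x hx y hy hxy h1 h2
    obtain ⟨z, -, rfl⟩ := Finset.mem_image.mp hx
    obtain ⟨z', -, rfl⟩ := Finset.mem_image.mp hy
    rcases two v z z' h1 h2 with rfl | rfl | rfl
    · exact absurd rfl hxy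
    · exact ⟨_, mem _, (step z).symm, by
        rw [show z + 2 = z + 1 + 1 by ring]; exact step _⟩
    · exact ⟨_, mem _, (back z).symm, by
        rw [show z - 2 = z - 1 - 1 by ring]; exact back _⟩
  · intro v x hx y hy w hw hxy hxw hyw h1 h2 h3
    obtain ⟨z, -, rfl⟩ := Finset.mem_image.mp hx
    obtain ⟨z', -, rfl⟩ := Finset.mem_image.mp hy
    obtain ⟨z'', -, rfl⟩ := Finset.mem_image.mp hw
    have a1 := (two v z z' h1 h2).resolve_left fun h => hxy (by rw [h])
    have a2 := (two v z z'' h1 h3).resolve_left fun h => hxw (by rw [h])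
    have a3 := (two v z' z'' h2 h3).resolve_left fun h => hyw (by rw [h])
    rcases a1 with a1 | a1 <;> rcases a2 with a2 | a2 <;> rcases a3 with a3 | a3
    · exact n2 (by linear_combination a2 - a1 - a3)
    · exact n2 (by linear_combination a1 + a3 - a2)
    · exact n6 (by linear_combination a2 - a1 - a3)
    · exact n2 (by linear_combination a2 - a1 - a3)
    · exact n2 (by linear_combination a1 + a3 - a2)
    · exact n6 (by linear_combination a1 + a3 - a2)
    · exact n2 (by linear_combination a2 - a1 - a3)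
    · exact n2 (by linear_combination a1 + a3 - a2)
  · intro k hk x hx hinj hs hc
    have hz : ∀ i, ∃ z, i < k + 1 → γ z = x i := by
      intro i
      by_cases hi : i < k + 1
      · obtain ⟨z, -, h⟩ := Finset.mem_image.mp (hx i hi)
        exact ⟨z, fun _ => h⟩
      · exact ⟨0, fun h => absurd h hi⟩
    choose z hz using hz
    have d1 := odd_dir (k := k) z
      (fun i hi => adj _ _ (by rw [hz i (by omega), hz (i + 1) (by omega)]; exact hs i hi))
      (fun i hi h => by
        have := hinj (i + 2) (by omega) i (by omega)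
          (by rw [← hz i (by omega), ← hz (i + 2) (by omega), h])
        omega)
    have d2 := adj (z 0) (z k) (by rw [hz 0 (by omega), hz k (by omega)]; exact hc)
    rcases hk with rfl | rfl | rfl <;> rcases d1 with d1 | d1 <;> rcases d2 with d2 | d2 <;>
      push_cast at d1
    · exact n2 (by linear_combination d2 - d1)
    · exact n4 (by linear_combination d2 - d1)
    · exact n4 (by linear_combination d1 - d2)
    · exact n2 (by linear_combination d1 - d2)
    · exact n4 (by linear_combination d2 - d1)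
    · exact n6 (by linear_combination d2 - d1)
    · exact n6 (by linear_combination d1 - d2)
    · exact n4 (by linear_combination d1 - d2)
    · exact n6 (by linear_combination d2 - d1)
    · exact n8 (by linear_combination d2 - d1)
    · exact n8 (by linear_combination d1 - d2)
    · exact n6 (by linear_combination d1 - d2)

theorem odd_inTy {e : Env} {t v : ℕ} : InTy e (pw t) v ↔ v ∈ e.U t := by simp [InTy]

/-- A partition of `U a` into two new types. -/
theorem odd_part {e : Env} {nt b a : ℕ} (hb : nt ≤ b) (ha : a < nt) {C : Finset ℕ}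
    (hC : C ⊆ e.U a) {axs : List Ax}
    (hax : ∀ y ∈ axs, AxHolds (e.ext nt b fun o => if o = 0 then C else e.U a \ C) y) :
    ExtSem e nt b ⟨[⟨a, 2, 0, 0, 0⟩, ⟨a, 1, 0, 0, 0⟩], [⟨a, [b, b + 1], 0⟩], axs, [], 0⟩
      fun o => if o = 0 then C else e.U a \ C := by
  refine ⟨fun o h v hv => ?_, fun y hy => ?_, hax, fun s hs => by simp at hs,
    fun t ht => by simp at ht⟩
  · have h2 : ∀ o', (2 : ℕ).testBit o' = true → o' = 1 := fun o' h' =>
      (of_decide_eq_true ((Nat.testBit_two_pow (n := 1)).symm.trans h')).symm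
    have h1 : ∀ o', (1 : ℕ).testBit o' = true → o' = 0 := fun o' h' =>
      (of_decide_eq_true ((Nat.testBit_two_pow (n := 0)).symm.trans h')).symm
    obtain rfl | rfl : o = 0 ∨ o = 1 := by
      simp only [List.length_cons, List.length_nil] at h
      omega
    · refine ⟨hC hv, fun o' h' => ?_, by simp, by simp, by simp⟩
      rw [h2 o' h']
      simpa using fun _ => hv
    · refine ⟨(Finset.mem_sdiff.mp hv).1, fun o' h' => ?_, by simp, by simp, by simp⟩
      rw [h1 o' h']
      exact (Finset.mem_sdiff.mp hv).2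
  · rw [List.mem_singleton.mp hy]
    intro x hx _
    rw [e.ext_old _ _ ha] at hx
    by_cases c : x ∈ C
    · exact ⟨b, by simp, (e.ext_new _ hb 0).symm ▸ c⟩
    · exact ⟨b + 1, by simp, (e.ext_new _ hb 1).symm ▸ Finset.mem_sdiff.mpr ⟨hx, c⟩⟩

variable {T : Tab} {Γ : Ctx} {A : List ℕ}

theorem r_odd (a : ℕ) (Ib : Ids) (Γb : Ctx) (Ab : List ℕ) (Io : Ids) (Γo : Ctx) (Ao : List ℕ)
    (h : andb (lin T Γ Ib (bipExt Ib.b a) Γb A Ab) (lin T Γ Io (oddExt Io.b a) Γo A Ao) = true)
    (o : AllRef T Γ [triP a]) (kb : Bd T Γb Ab) (ko : Bd T Γo Ao) : Bd T Γ A := by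
  classical
  rw [andb_eq, Bool.and_eq_true] at h
  have okb := child_ok (lin_child h.1)
  have oko := child_ok (lin_child h.2)
  have ha : a < Γ.nt := extOK_par okb ⟨a, 2, 0, 0, 0⟩ (by simp [bipExt])
  refine bd_two h.1 h.2 (fun e H => ?_) kb ko
  let G : SimpleGraph ℕ :=
    { Adj := fun u v => u ≠ v ∧ u ∈ e.U a ∧ v ∈ e.U a ∧ e.E u v = true
      symm := ⟨fun u v h => ⟨h.1.symm, h.2.2.1, h.2.1, e.symm u v ▸ h.2.2.2⟩⟩
      loopless := ⟨fun u h => h.1 rfl⟩ }
  by_cases hG : G.Colorable 2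
  · left
    obtain ⟨col⟩ := hG
    have hsub : (e.U a).filter (fun v => col v = 0) ⊆ e.U a := Finset.filter_subset _ _
    refine ⟨_, odd_part (extOK_le okb) ha hsub fun y hy => ?_⟩
    have u0 := e.ext_new (fun o => if o = 0 then (e.U a).filter (fun v => col v = 0)
      else e.U a \ (e.U a).filter (fun v => col v = 0)) (extOK_le okb) 0
    have u1 := e.ext_new (fun o => if o = 0 then (e.U a).filter (fun v => col v = 0)
      else e.U a \ (e.U a).filter (fun v => col v = 0)) (extOK_le okb) 1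
    rw [add_zero, if_pos rfl] at u0
    rw [if_neg one_ne_zero] at u1
    simp only [List.mem_cons, List.not_mem_nil, or_false] at hy
    rcases hy with rfl | rfl <;> refine axHolds_cl.mpr fun x ⟨m, i, l⟩ => ?_
    · have m0 := Finset.mem_filter.mp (u0 ▸ odd_inTy.mp (m 0 (by simp [cl])))
      have m1 := Finset.mem_filter.mp (u0 ▸ odd_inTy.mp (m 1 (by simp [cl])))
      exact col.valid (v := x 0) (w := x 1) ⟨fun h => absurd (i 0 (by simp [cl]) 1 (by simp [cl]) h)
        (by simp), m0.1, m1.1, l ⟨0, 1, true⟩ (by simp [cl])⟩ (m0.2.trans m1.2.symm)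
    · have m0 := Finset.mem_sdiff.mp (u1 ▸ odd_inTy.mp (m 0 (by simp [cl])))
      have m1 := Finset.mem_sdiff.mp (u1 ▸ odd_inTy.mp (m 1 (by simp [cl])))
      have c0 : col (x 0) ≠ 0 := fun h => m0.2 (Finset.mem_filter.mpr ⟨m0.1, h⟩)
      have c1 : col (x 1) ≠ 0 := fun h => m1.2 (Finset.mem_filter.mpr ⟨m1.1, h⟩)
      exact col.valid (v := x 0) (w := x 1) ⟨fun h => absurd (i 0 (by simp [cl]) 1 (by simp [cl]) h)
        (by simp), m0.1, m1.1, l ⟨0, 1, true⟩ (by simp [cl])⟩ (by omega)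
  · right
    have htri : ∀ u v w, G.Adj u v → G.Adj v w → ¬ G.Adj w u := by
      intro u v w h1 h2 h3
      refine o (triP a) (by simp) e H (fun i => if i = 0 then u else if i = 1 then v else w)
        (fun _ => a) ⟨fun i hi => ?_, fun i hi j hj => ?_, fun l hl => ?_, by simp [triP]⟩
      · obtain rfl | rfl | rfl : i = 0 ∨ i = 1 ∨ i = 2 := by
          simp only [triP, List.length_cons, List.length_nil] at hi
          omega
        exacts [⟨by simp [triP], h1.2.1⟩, ⟨by simp [triP], h2.2.1⟩, ⟨by simp [triP], h3.2.1⟩]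
      · simp only [triP, List.length_cons, List.length_nil] at hi hj
        have n1 := h1.1
        have n2 := h2.1
        have n3 := h3.1
        obtain rfl | rfl | rfl : i = 0 ∨ i = 1 ∨ i = 2 := by omega
        all_goals
          obtain rfl | rfl | rfl : j = 0 ∨ j = 1 ∨ j = 2 := by omega
          all_goals simp [n1, n2, n3, n1.symm, n2.symm, n3.symm]
      · have hf : ∀ s t, flipOf [] s t = false := fun s t => by simp [flipOf, look]
        simp only [triP, List.mem_cons, List.not_mem_nil, or_false] at hl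
        rcases hl with rfl | rfl | rfl
        · simpa [triP, hf] using h1.2.2.2
        · simpa [triP, hf] using h3.symm.2.2.2
        · simpa [triP, hf] using h2.2.2.2
    obtain ⟨C, ⟨c0, hc0⟩, p2, p3, p4, p5⟩ := odd_set G hG htri
    have hsub : C ⊆ e.U a := fun x hx => by
      obtain ⟨w, -, -, -, -, h, -⟩ := p2 x hx
      exact h.2.1
    refine ⟨_, odd_part (extOK_le oko) ha hsub fun y hy => ?_⟩
    have u0 := e.ext_new (fun o => if o = 0 then C else e.U a \ C) (extOK_le oko) 0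
    have u1 := e.ext_new (fun o => if o = 0 then C else e.U a \ C) (extOK_le oko) 1
    have ua := e.ext_old Io.b (fun o => if o = 0 then C else e.U a \ C) ha
    rw [add_zero, if_pos rfl] at u0
    rw [if_neg one_ne_zero] at u1
    have cyc : ∀ k, k = 3 ∨ k = 5 ∨ k = 7 →
        AxHolds (e.ext Γ.nt Io.b fun o => if o = 0 then C else e.U a \ C) (cycCl Io.b k) := by
      intro k hk
      refine axHolds_cl.mpr fun x ⟨m, i, l⟩ => ?_
      simp only [cl, List.length_replicate] at m i l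
      have mC : ∀ j < k + 1, x j ∈ C := fun j hj => by
        have := m j hj
        rw [List.getD_replicate _ hj, odd_inTy, u0] at this
        exact this
      refine p5 k hk x mC i (fun j hj => ⟨fun h => ?_, hsub (mC j (by omega)),
        hsub (mC (j + 1) (by omega)), l ⟨j, j + 1, true⟩ ?_⟩) ⟨fun h => ?_, hsub (mC 0 (by omega)),
        hsub (mC k (by omega)), l ⟨0, k, true⟩ (by simp)⟩
      · have := i j (by omega) (j + 1) (by omega) h
        omega
      · exact List.mem_cons_of_mem _ (List.mem_map.mpr ⟨j, List.mem_range.mpr hj, rfl⟩)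
      · have := i 0 (by omega) k (by omega) h
        omega
    simp only [List.mem_cons, List.not_mem_nil, or_false] at hy
    rcases hy with rfl | rfl | rfl | rfl | rfl | rfl | rfl
    · intro x _ X hX
      refine ⟨c0, by simp [Finset.card_eq_zero.mp (Nat.le_zero.mp hX)], by simp,
        ⟨Io.b, []⟩, by simp, u0.symm ▸ hc0, by simp⟩
    · intro x ⟨m, _, _⟩ X hX
      have m0 : x 0 ∈ C := u0 ▸ odd_inTy.mp (m 0 (by simp))
      obtain ⟨w, hw, hwX, hadj⟩ : ∃ w ∈ C, w ∉ X ∧ G.Adj (x 0) w := by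
        obtain ⟨w, hw, w', hw', hne, h1, h2⟩ := p2 _ m0
        by_cases c : w ∈ X
        · exact ⟨w', hw', fun c' => hne (Finset.card_le_one.mp hX w c w' c'), h2⟩
        · exact ⟨w, hw, c, h1⟩
      refine ⟨w, hwX, fun i hi => ?_, ⟨Io.b, [(0, true)]⟩, by simp, u0.symm ▸ hw, ?_⟩
      · obtain rfl : i = 0 := by simpa using hi
        exact hadj.1.symm
      · simpa using hadj.symm.2.2.2
    · intro x ⟨m, i, l⟩ X hX
      have m0 := Finset.mem_sdiff.mp (u1 ▸ odd_inTy.mp (m 0 (by simp)))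
      have m1 : x 1 ∈ C := u0 ▸ odd_inTy.mp (m 1 (by simp))
      have m2 : x 2 ∈ C := u0 ▸ odd_inTy.mp (m 2 (by simp))
      obtain ⟨w, hw, h1, h2⟩ := p3 (x 0) _ m1 _ m2
        (fun h => absurd (i 1 (by simp) 2 (by simp) h) (by simp))
        ⟨fun h => m0.2 (h ▸ m1), m0.1, hsub m1, l ⟨0, 1, true⟩ (by simp)⟩
        ⟨fun h => m0.2 (h ▸ m2), m0.1, hsub m2, l ⟨0, 2, true⟩ (by simp)⟩
      refine ⟨w, by simp [Finset.card_eq_zero.mp (Nat.le_zero.mp hX)], fun j hj => ?_,
        ⟨Io.b, [(1, true), (2, true)]⟩, by simp, u0.symm ▸ hw, ?_⟩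
      · obtain rfl | rfl | rfl : j = 0 ∨ j = 1 ∨ j = 2 := by
          simp only [List.length_cons, List.length_nil] at hj
          omega
        exacts [fun h => m0.2 (h ▸ hw), h1.1, h2.1]
      · simpa using ⟨h1.2.2.2, h2.2.2.2⟩
    · refine axHolds_cl.mpr fun x ⟨m, i, l⟩ => ?_
      have m0 : x 0 ∈ e.U a := ua ▸ odd_inTy.mp (m 0 (by simp [cl]))
      have m1 : x 1 ∈ C := u0 ▸ odd_inTy.mp (m 1 (by simp [cl]))
      have m2 : x 2 ∈ C := u0 ▸ odd_inTy.mp (m 2 (by simp [cl]))
      have m3 : x 3 ∈ C := u0 ▸ odd_inTy.mp (m 3 (by simp [cl]))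
      have ne : ∀ j < 4, ∀ j' < 4, j ≠ j' → x j ≠ x j' := fun j hj j' hj' hn h => hn (i j hj j' hj' h)
      exact p4 (x 0) _ m1 _ m2 _ m3 (ne 1 (by simp) 2 (by simp) (by simp))
        (ne 1 (by simp) 3 (by simp) (by simp)) (ne 2 (by simp) 3 (by simp) (by simp))
        ⟨ne 0 (by simp) 1 (by simp) (by simp), m0, hsub m1, l ⟨0, 1, true⟩ (by simp [cl])⟩
        ⟨ne 0 (by simp) 2 (by simp) (by simp), m0, hsub m2, l ⟨0, 2, true⟩ (by simp [cl])⟩
        ⟨ne 0 (by simp) 3 (by simp) (by simp), m0, hsub m3, l ⟨0, 3, true⟩ (by simp [cl])⟩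
    · exact cyc 3 (by simp)
    · exact cyc 5 (by simp)
    · exact cyc 7 (by simp)

end Pool.Agent.Lib.MP_849b2e_co
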