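import Pool.Agent.Lib.MP_849b2e_co.Ext

/-!
Soundness of the rule `twin`.
-/

namespace Pool.Agent.Lib.MP_849b2e_co

variable {T : Tab} {Γ : Ctx} {A : List ℕ}

/-- Twins of the same class with the prescribed adjacency. -/
def twR (E : Adj) (S : Finset ℕ) (τ : ℕ → ℕ) (b : ℕ → Bool) (x y : ℕ) : Prop :=
  x = y ∨ (x ∈ S ∧ y ∈ S ∧ τ x = τ y ∧ E x y = b (τ x) ∧
    ∀ z ∈ S, z ≠ x → z ≠ y → E x z = E y z)

section pure

variable {E : Adj} {S : Finset ℕ} {τ : ℕ → ℕ} {b : ℕ → Bool}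

theorem tw_refl (x : ℕ) : twR E S τ b x x := Or.inl rfl

theorem tw_symm (hs : ∀ u v, E u v = E v u) {x y : ℕ} (h : twR E S τ b x y) :
    twR E S τ b y x := by
  rcases h with h | ⟨h1, h2, h3, h4, h5⟩
  · exact Or.inl h.symm
  · exact Or.inr ⟨h2, h1, h3.symm, by rw [hs, h4, h3], fun z hz a c => (h5 z hz c a).symm⟩

theorem tw_trans (hs : ∀ u v, E u v = E v u) {x y z : ℕ} (h : twR E S τ b x y)
    (h' : twR E S τ b y z) : twR E S τ b x z := by
  by_cases xz : x = z
  · exact Or.inl xz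
  by_cases xy : x = y
  · rwa [xy]
  by_cases yz : y = z
  · rwa [← yz]
  obtain ⟨h1, h2, h3, h4, h5⟩ := h.resolve_left xy
  obtain ⟨-, g2, g3, g4, g5⟩ := h'.resolve_left yz
  refine Or.inr ⟨h1, g2, h3.trans g3, ?_, fun w hw a c => ?_⟩
  · rw [h5 z g2 (Ne.symm xz) (Ne.symm yz), g4, h3]
  · by_cases wy : w = y
    · rw [wy, h4, hs z y, g4, h3]
    · rw [h5 w hw a wy, g5 w hw wy c]

theorem tw_adj {x x' y : ℕ} (h : twR E S τ b x x') (hy : y ∈ S) (h1 : y ≠ x) (h2 : y ≠ x') :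
    E x y = E x' y := by
  rcases h with h | ⟨-, -, -, -, h5⟩
  · rw [h]
  · exact h5 y hy h1 h2

theorem tw_mem {x y : ℕ} (h : twR E S τ b x y) (hx : x ∈ S) : y ∈ S := by
  rcases h with h | ⟨-, h2, -⟩
  · rwa [← h]
  · exact h2

theorem tw_rep (hs : ∀ u v, E u v = E v u) (S : Finset ℕ) (τ : ℕ → ℕ) (b : ℕ → Bool) :
    ∃ r : ℕ → ℕ, (∀ x, twR E S τ b x (r x)) ∧ ∀ x y, twR E S τ b x y → r x = r y := by
  classical
  refine ⟨fun x => Nat.find (⟨x, tw_refl x⟩ : ∃ y, twR E S τ b x y), fun x => Nat.find_spec _,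
    fun x y h => le_antisymm ?_ ?_⟩
  · exact Nat.find_min' _ (tw_trans hs h (Nat.find_spec (⟨y, tw_refl y⟩ : ∃ z, twR E S τ b y z)))
  · exact Nat.find_min' _ (tw_trans hs (tw_symm hs h)
      (Nat.find_spec (⟨x, tw_refl x⟩ : ∃ z, twR E S τ b x z)))

variable {r : ℕ → ℕ}

theorem tw_idem (r1 : ∀ x, twR E S τ b x (r x)) (r2 : ∀ x y, twR E S τ b x y → r x = r y)
    (x : ℕ) : r (r x) = r x := (r2 x (r x) (r1 x)).symm

theorem tw_cross (hs : ∀ u v, E u v = E v u) (r1 : ∀ x, twR E S τ b x (r x))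
    (r2 : ∀ x y, twR E S τ b x y → r x = r y) {x y : ℕ} (hx : x ∈ S) (hy : y ∈ S)
    (h : r x ≠ r y) : E x y = E (r x) (r y) := by
  have a1 : E x y = E (r x) y := tw_adj (r1 x) hy (fun c => h (by rw [c]))
    (fun c => h (by rw [c, tw_idem r1 r2]))
  have a2 : E y (r x) = E (r y) (r x) := tw_adj (r1 y) (tw_mem (r1 x) hx)
    (fun c => h (by rw [← c, tw_idem r1 r2])) h
  rw [a1, hs, a2, hs]

theorem tw_width (hs : ∀ u v, E u v = E v u) (r1 : ∀ x, twR E S τ b x (r x))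
    (r2 : ∀ x y, twR E S τ b x y → r x = r y) {c : ℕ}
    (h : LW E (S.filter fun v => r v = v) c) : LW E S (c + 1 * c) := by
  obtain ⟨pos, p1, p2⟩ := h
  have hR : ∀ v ∈ S, r v ∈ S.filter fun v => r v = v := fun v hv =>
    Finset.mem_filter.2 ⟨tw_mem (r1 v) hv, tw_idem r1 r2 v⟩
  refine LW.blocks (fun v => pos (r v)) (fun i => ?_) (fun i => ?_)
  · have tw : ∀ u ∈ S.filter (fun v => pos (r v) = i), ∀ v ∈ S.filter (fun v => pos (r v) = i),
        twR E S τ b u v := by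
      intro u hu v hv
      obtain ⟨u1, u2⟩ := Finset.mem_filter.1 hu
      obtain ⟨v1, v2⟩ := Finset.mem_filter.1 hv
      have e : r u = r v := p1 (hR u u1) (hR v v1) (u2.trans v2.symm)
      exact tw_trans hs (r1 u) (e ▸ tw_symm hs (r1 v))
    refine ⟨id, fun _ _ _ _ h => h, fun j => ⟨fun _ => 0, fun _ _ => Nat.one_pos,
      fun u hu v hv _ w hw => ?_⟩⟩
    obtain ⟨u1, u2⟩ := Finset.mem_filter.1 hu
    obtain ⟨v1, v2⟩ := Finset.mem_filter.1 hv
    obtain ⟨w1, w2⟩ := Finset.mem_filter.1 hw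
    simp only [id] at u2 v2 w2
    exact tw_adj (tw u u1 v v1) (Finset.mem_filter.1 w1).1 (by omega) (by omega)
  · obtain ⟨f, f1, f2⟩ := p2 i
    refine ⟨fun u => f (r u), fun u hu => ?_, fun u hu v hv e w hw => ?_⟩
    · obtain ⟨u1, u2⟩ := Finset.mem_filter.1 hu
      exact f1 _ (Finset.mem_filter.2 ⟨hR u u1, u2⟩)
    · obtain ⟨u1, u2⟩ := Finset.mem_filter.1 hu
      obtain ⟨v1, v2⟩ := Finset.mem_filter.1 hv
      obtain ⟨w1, w2⟩ := Finset.mem_filter.1 hw
      rw [tw_cross hs r1 r2 u1 w1 (fun c => by rw [c] at u2; omega),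
        tw_cross hs r1 r2 v1 w1 (fun c => by rw [c] at v2; omega)]
      exact f2 _ (Finset.mem_filter.2 ⟨hR u u1, u2⟩) _ (Finset.mem_filter.2 ⟨hR v v1, v2⟩) e _
        (Finset.mem_filter.2 ⟨hR w w1, w2⟩)

theorem tw_split (hs : ∀ u v, E u v = E v u) (r1 : ∀ x, twR E S τ b x (r x))
    (r2 : ∀ x y, twR E S τ b x y → r x = r y) {x y : ℕ} (hx : x ∈ S) (hy : y ∈ S)
    (rx : r x = x) (ry : r y = y) (xy : x ≠ y) (ht : τ x = τ y) (hE : E x y = b (τ x)) :
    ∃ w ∈ S, r w = w ∧ w ≠ x ∧ w ≠ y ∧ E w x ≠ E w y := by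
  have nt : ¬ twR E S τ b x y := fun c => xy (by rw [← rx, r2 x y c, ry])
  have : ∃ z ∈ S, z ≠ x ∧ z ≠ y ∧ E x z ≠ E y z := by
    by_contra c
    refine nt (Or.inr ⟨hx, hy, ht, hE, fun z hz a a' => ?_⟩)
    by_contra c'
    exact c ⟨z, hz, a, a', c'⟩
  obtain ⟨z, hz, zx, zy, hd⟩ := this
  have n1 : r z ≠ x := by
    intro c
    have t := r1 z
    rw [c] at t
    obtain ⟨-, -, t3, t4, t5⟩ := t.resolve_left zx
    exact hd (by rw [hs x z, t4, hs y z, t5 y hy (Ne.symm zy) (Ne.symm xy), hE, t3])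
  have n2 : r z ≠ y := by
    intro c
    have t := r1 z
    rw [c] at t
    obtain ⟨-, -, t3, t4, t5⟩ := t.resolve_left zy
    exact hd (by rw [hs y z, t4, hs x z, t5 x hx (Ne.symm zx) xy, hs y x, hE, t3, ht])
  refine ⟨r z, tw_mem (r1 z) hz, tw_idem r1 r2 z, n1, n2, ?_⟩
  rw [← tw_adj (r1 z) hx (Ne.symm zx) (Ne.symm n1), ← tw_adj (r1 z) hy (Ne.symm zy) (Ne.symm n2),
    hs z x, hs z y]
  exact hd

end pure

theorem tw_obl {β : ℕ} {kp : List ℕ} (o : AllRef T Γ (twinObl A β kp)) {e : Env}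
    (H : Holds T Γ e) {i j x y w : ℕ} (hi : i < A.length) (hj : j < A.length)
    (hx : x ∈ e.U (A.getD i 0)) (hy : y ∈ e.U (A.getD i 0)) (hw : w ∈ e.U (A.getD j 0))
    (xy : x ≠ y) (wx : w ≠ x) (wy : w ≠ y) (h1 : e.E x y = bit β i) (h2 : e.E w x = true)
    (h3 : e.E w y = false) : bit (kp.getD i 0) j = true := by
  by_contra c
  have hp : (⟨[[A.getD i 0], [A.getD i 0], [A.getD j 0]],
      [⟨0, 1, bit β i⟩, ⟨0, 2, true⟩, ⟨1, 2, false⟩], [], []⟩ : Pat) ∈ twinObl A β kp := by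
    unfold twinObl
    refine List.mem_flatMap.2 ⟨i, List.mem_range.2 hi, List.mem_map.2 ⟨j, ?_, rfl⟩⟩
    refine List.mem_filter.2 ⟨List.mem_range.2 hj, ?_⟩
    simpa using c
  have hF : ∀ s t, flipOf [] s t = false := fun s t => by
    have : look [] s = 0 := rfl
    rw [flipOf, this]
    simp
  refine o _ hp e H (fun n => [x, y, w].getD n 0)
    (fun n => [A.getD i 0, A.getD i 0, A.getD j 0].getD n 0) ⟨?_, ?_, ?_, ?_⟩
  · intro n hn
    have hn' : n < 3 := hn
    interval_cases n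
    · exact ⟨List.mem_singleton.2 rfl, hx⟩
    · exact ⟨List.mem_singleton.2 rfl, hy⟩
    · exact ⟨List.mem_singleton.2 rfl, hw⟩
  · intro n hn m hm hnm
    have hn' : n < 3 := hn
    have hm' : m < 3 := hm
    interval_cases n <;> interval_cases m <;> first
      | rfl
      | exact absurd hnm xy
      | exact absurd hnm.symm xy
      | exact absurd hnm wx
      | exact absurd hnm.symm wx
      | exact absurd hnm wy
      | exact absurd hnm.symm wy
  · intro l hl
    rw [hF, Bool.xor_false]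
    simp only [List.mem_cons, List.not_mem_nil, or_false] at hl
    rcases hl with rfl | rfl | rfl
    · exact h1
    · exact (e.symm _ _).trans h2
    · exact (e.symm _ _).trans h3
  · intro l hl
    exact absurd hl List.not_mem_nil

theorem r_twin (β : ℕ) (kp : List ℕ) (I : Ids) (Γ' : Ctx) (A' : List ℕ)
    (h : andb (isLW Γ) (andb (pairDis T Γ.nt A) (andb (child T Γ I (twinExt I.b A β kp) Γ')
      (subD Γ'.nt Γ' ((List.range A.length).map fun i => I.b + i) A'))) = true)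
    (o : AllRef T Γ (twinObl A β kp)) (k : Bd T Γ' A') : Bd T Γ A := by
  simp only [andb_eq, Bool.and_eq_true] at h
  obtain ⟨hL, hD, hC, hS⟩ := h
  have md : Γ.md = none := isLW_iff.1 hL
  have md' : Γ'.md = none := (child_md hC).trans md
  have hb : Γ.nt ≤ I.b := extOK_le (child_ok hC)
  obtain ⟨c, hc⟩ := k
  refine ⟨c + 1 * c, fun e H => ?_⟩
  rw [md]
  show LW e.E (e.un A) (c + 1 * c)
  have mem : ∀ i < A.length, ∀ v ∈ e.U (A.getD i 0), v ∈ e.un A := fun i hi v hv =>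
    Env.mem_un.2 ⟨A.getD i 0, by rw [List.getD_eq_getElem _ _ hi]; exact List.getElem_mem hi, hv⟩
  have ex : ∀ v, ∃ i, v ∈ e.un A → i < A.length ∧ v ∈ e.U (A.getD i 0) := by
    intro v
    by_cases hv : v ∈ e.un A
    · obtain ⟨a, ha, hv'⟩ := Env.mem_un.1 hv
      obtain ⟨i, hi, rfl⟩ := List.getElem_of_mem ha
      exact ⟨i, fun _ => ⟨hi, by rwa [List.getD_eq_getElem _ _ hi]⟩⟩
    · exact ⟨0, fun c => absurd c hv⟩
  choose τ hτ using ex
  have uniq : ∀ i < A.length, ∀ v ∈ e.U (A.getD i 0), τ v = i := fun i hi v hv =>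
    pairDis_sound hD H _ (hτ v (mem i hi v hv)).1 i hi v (hτ v (mem i hi v hv)).2 hv
  obtain ⟨r, r1, r2⟩ := tw_rep e.symm (e.un A) τ (bit β)
  refine tw_width e.symm r1 r2 ?_
  set f : ℕ → Finset ℕ := fun i => (e.U (A.getD i 0)).filter fun v => r v = v with hf
  have hU : ∀ i, (e.ext Γ.nt I.b f).U (I.b + i) = f i := e.ext_new f hb
  have sem : ExtSem e Γ.nt I.b (twinExt I.b A β kp) f := by
    refine ⟨fun i hi v hv => ?_, fun v hv => absurd hv List.not_mem_nil, fun a ha => ?_,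
      fun s hs => absurd hs List.not_mem_nil, fun t ht => ?_⟩
    · have hi' : i < A.length := by simpa [twinExt] using hi
      have e1 : (twinExt I.b A β kp).kids[i] = ⟨A[i], 0, 0, 0, 0⟩ := by simp [twinExt]
      rw [e1]
      refine ⟨?_, by simp, by simp, by simp, by simp⟩
      have := (Finset.mem_filter.1 hv).1
      rwa [List.getD_eq_getElem _ _ hi'] at this
    · obtain ⟨i, hi, rfl⟩ := List.mem_map.1 ha
      have hi' : i < A.length := List.mem_range.1 hi
      rintro x ⟨e1, e2, e3⟩ X hX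
      have hX0 : X = ∅ := Finset.card_eq_zero.1 (Nat.le_zero.1 hX)
      have ty : ∀ n < 2, x n ∈ f i := by
        intro n hn
        obtain ⟨t, t1, t2⟩ := e1 n hn
        have t3 : (pw (I.b + i)).testBit t = true := by
          interval_cases n
          · exact t1
          · exact t1
        rw [testBit_pw, decide_eq_true_eq] at t3
        rwa [← t3, hU] at t2
      obtain ⟨x1, x2⟩ := Finset.mem_filter.1 (ty 0 (by omega))
      obtain ⟨y1, y2⟩ := Finset.mem_filter.1 (ty 1 (by omega))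
      have xy : x 0 ≠ x 1 := fun c =>
        absurd (e2 0 (show 0 < 2 by omega) 1 (show 1 < 2 by omega) c) (by omega)
      have hE : e.E (x 0) (x 1) = bit β i := e3 ⟨0, 1, bit β i⟩ (List.mem_singleton.2 rfl)
      obtain ⟨w, w1, w2, w3, w4, w5⟩ := tw_split e.symm r1 r2 (mem i hi' _ x1) (mem i hi' _ y1)
        x2 y2 xy ((uniq i hi' _ x1).trans (uniq i hi' _ y1).symm) (by rw [uniq i hi' _ x1, hE])
      obtain ⟨j1, j2⟩ := hτ w w1
      have wf : w ∈ (e.ext Γ.nt I.b f).U (I.b + τ w) := by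
        rw [hU]
        exact Finset.mem_filter.2 ⟨j2, w2⟩
      refine ⟨w, by simp [hX0], fun n hn => ?_, ?_⟩
      · have hn' : n < 2 := hn
        interval_cases n
        · exact w3
        · exact w4
      · cases a1 : e.E w (x 0)
        · have a2 : e.E w (x 1) = true := by
            rw [a1] at w5
            simpa using w5.symm
          have kb := tw_obl o H hi' j1 y1 x1 j2 xy.symm w4 w3 ((e.symm _ _).trans hE) a2 a1
          refine ⟨⟨I.b + τ w, [(0, false), (1, true)]⟩, List.mem_flatMap.2 ⟨τ w,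
            List.mem_filter.2 ⟨List.mem_range.2 j1, kb⟩, by simp⟩, wf, fun l hl => ?_⟩
          simp only [List.mem_cons, List.not_mem_nil, or_false] at hl
          rcases hl with rfl | rfl
          · exact a1
          · exact a2
        · have a2 : e.E w (x 1) = false := by
            rw [a1] at w5
            simpa using w5.symm
          have kb := tw_obl o H hi' j1 x1 y1 j2 xy w3 w4 hE a1 a2
          refine ⟨⟨I.b + τ w, [(0, true), (1, false)]⟩, List.mem_flatMap.2 ⟨τ w,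
            List.mem_filter.2 ⟨List.mem_range.2 j1, kb⟩, by simp⟩, wf, fun l hl => ?_⟩
          simp only [List.mem_cons, List.not_mem_nil, or_false] at hl
          rcases hl with rfl | rfl
          · exact a1
          · exact a2
    · simp [twinExt] at ht
  have H' := holds_child hC H sem
  have m := hc _ H'
  rw [md'] at m
  have m' : LW e.E ((e.ext Γ.nt I.b f).un A') c := m
  refine m'.mono (fun v hv => subD_un hS H' ?_) le_rfl
  obtain ⟨v1, v2⟩ := Finset.mem_filter.1 hv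
  obtain ⟨j1, j2⟩ := hτ v v1
  refine Env.mem_un.2 ⟨I.b + τ v, List.mem_map.2 ⟨τ v, List.mem_range.2 j1, rfl⟩, ?_⟩
  rw [hU]
  exact Finset.mem_filter.2 ⟨j2, v2⟩

end Pool.Agent.Lib.MP_849b2e_co
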