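import Pool.Agent.Lib.MP_849b2e_co.Ext

/-!
Soundness of the rule `window` (distance layers).
-/

namespace Pool.Agent.Lib.MP_849b2e_co

variable {T : Tab} {Γ : Ctx} {A : List ℕ}

theorem win_un {e : Env} {A : List ℕ} {v : ℕ} :
    v ∈ e.un A ↔ ∃ i < A.length, v ∈ e.U (A.getD i 0) := by
  rw [Env.mem_un]
  constructor
  · rintro ⟨a, ha, hv⟩
    obtain ⟨i, hi, rfl⟩ := List.getElem_of_mem ha
    exact ⟨i, hi, by rwa [List.getD_eq_getElem _ _ hi]⟩
  · rintro ⟨i, hi, hv⟩
    rw [List.getD_eq_getElem _ _ hi] at hv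
    exact ⟨_, List.getElem_mem hi, hv⟩

theorem win_arc_rev {e : Env} {s : Sc} {u v : ℕ} (h : Arc e s false v u) : Arc e s true u v := by
  obtain ⟨h1, i, hi, j, hj, h2, h3, h4⟩ := h
  exact ⟨h1.symm, j, hj, i, hi, h3, h2, by rw [e.symm, h4]; rfl⟩

theorem win_arc_left {e : Env} {s : Sc} {dir : Bool} {u v : ℕ} (h : Arc e s dir u v) :
    u ∈ e.un s.ts := by
  obtain ⟨_, i, hi, _, _, h2, _⟩ := h
  exact win_un.2 ⟨i, hi, h2⟩

theorem win_arc_val {e : Env} {s : Sc} {dir : Bool} {u v i j : ℕ} (hs : ScSem e s)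
    (h : Arc e s dir u v) (hi : i < s.ts.length) (hj : j < s.ts.length)
    (hu : u ∈ e.U (s.ts.getD i 0)) (hv : v ∈ e.U (s.ts.getD j 0)) : e.E u v = s.arc dir i j := by
  obtain ⟨_, i', hi', j', hj', h2, h3, h4⟩ := h
  rw [hs.1 i hi i' hi' u hu h2, hs.1 j hj j' hj' v hv h3]
  exact h4

/-- Walks of a given length. -/
def winR (a : ℕ → ℕ → Prop) (r : ℕ) : ℕ → ℕ → Prop
  | 0, v => v = r
  | n + 1, v => ∃ u, winR a r n u ∧ a u v

/-- A distance function from the root `r`. -/
structure WinD (e : Env) (s : Sc) (dir : Bool) (r : ℕ) (d : ℕ → ℕ) : Prop where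
  root : d r = 0
  step : ∀ u v, Arc e s dir u v → d v ≤ d u + 1
  pred : ∀ v ∈ e.un s.ts, v ≠ r → ∃ u, Arc e s dir u v ∧ d u + 1 = d v

theorem win_dist {e : Env} {s : Sc} (dir : Bool) {r : ℕ} (hs : ScSem e s) (hr : r ∈ e.un s.ts) :
    ∃ d, WinD e s dir r d := by
  classical
  have h1 : ∀ v ∈ e.un s.ts, Relation.ReflTransGen (Arc e s dir) r v := by
    intro v hv
    cases dir
    · exact hs.2 r hr v hv
    · have h := hs.2 v hv r hr
      clear hv
      induction h using Relation.ReflTransGen.head_induction_on with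
      | refl => exact .refl
      | head h _ ih => exact ih.tail (win_arc_rev h)
  have h2 : ∀ v ∈ e.un s.ts, ∃ n, winR (Arc e s dir) r n v := by
    intro v hv
    have h := h1 v hv
    clear hv
    induction h with
    | refl => exact ⟨0, rfl⟩
    | tail _ h ih =>
      obtain ⟨n, hn⟩ := ih
      exact ⟨n + 1, _, hn, h⟩
  let d : ℕ → ℕ := fun v => sInf {n | winR (Arc e s dir) r n v}
  have hd : ∀ v ∈ e.un s.ts, winR (Arc e s dir) r (d v) v := fun v hv =>
    Nat.sInf_mem (s := {n | winR (Arc e s dir) r n v}) (h2 v hv)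
  have hle : ∀ v n, winR (Arc e s dir) r n v → d v ≤ n := fun v n h =>
    Nat.sInf_le (s := {n | winR (Arc e s dir) r n v}) h
  have hstep : ∀ u v, Arc e s dir u v → d v ≤ d u + 1 := fun u v h =>
    hle v _ ⟨u, hd u (win_arc_left h), h⟩
  refine ⟨d, Nat.le_zero.1 (hle r 0 rfl), hstep, fun v hv hne => ?_⟩
  have h := hd v hv
  rcases hn : d v with _ | n
  · rw [hn] at h
    exact absurd h hne
  · rw [hn] at h
    obtain ⟨u, hu, h⟩ := h
    have h3 := hle u n hu
    have h4 := hstep u v h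
    exact ⟨u, h, by omega⟩

/-- The vertex sets of the new types. -/
def winF (e : Env) (A : List ℕ) (d : ℕ → ℕ) (n t : ℕ) (o : ℕ) : Finset ℕ :=
  (e.U (A.getD (o / (n + 2)) 0)).filter fun v => min (d v - t) (n + 1) = o % (n + 2)

theorem win_mem {e : Env} {nt b : ℕ} (hb : nt ≤ b) {d : ℕ → ℕ} {n t i j v : ℕ} (hj : j < n + 2) :
    v ∈ (e.ext nt b (winF e A d n t)).U (wTy b n i j) ↔
      v ∈ e.U (A.getD i 0) ∧ min (d v - t) (n + 1) = j := by
  have h1 : (i * (n + 2) + j) / (n + 2) = i := by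
    rw [Nat.mul_comm, Nat.mul_add_div (by omega), Nat.div_eq_of_lt hj, Nat.add_zero]
  have h2 : (i * (n + 2) + j) % (n + 2) = j := by
    rw [Nat.mul_comm, Nat.mul_add_mod, Nat.mod_eq_of_lt hj]
  rw [wTy, e.ext_new _ hb, winF, h1, h2, Finset.mem_filter]

theorem win_set {e : Env} {nt b : ℕ} (hb : nt ≤ b) {d : ℕ → ℕ} {n t lo len v : ℕ}
    (h : lo + len ≤ n + 2) :
    v ∈ (e.ext nt b (winF e A d n t)).un (wSet b n A.length lo len) ↔
      v ∈ e.un A ∧ lo ≤ min (d v - t) (n + 1) ∧ min (d v - t) (n + 1) < lo + len := by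
  rw [Env.mem_un, win_un]
  simp only [wSet, List.mem_flatMap, List.mem_map, List.mem_range]
  constructor
  · rintro ⟨_, ⟨i, hi, j, hj, rfl⟩, hv⟩
    rw [win_mem hb (by omega)] at hv
    exact ⟨⟨i, hi, hv.1⟩, by omega, by omega⟩
  · rintro ⟨⟨i, hi, hv⟩, h1, h2⟩
    refine ⟨_, ⟨i, hi, min (d v - t) (n + 1) - lo, by omega, rfl⟩, ?_⟩
    rw [win_mem hb (by omega)]
    exact ⟨hv, by omega⟩

theorem win_lt {b n k lo len : ℕ} (h : lo + len ≤ n + 2) :
    ∀ a ∈ wSet b n k lo len, a < b + k * (n + 2) := by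
  simp only [wSet, List.mem_flatMap, List.mem_map, List.mem_range]
  rintro _ ⟨i, hi, j, hj, rfl⟩
  have := Nat.mul_le_mul_right (n + 2) (show i + 1 ≤ k from hi)
  rw [Nat.add_mul] at this
  unfold wTy
  omega

theorem win_sem {e : Env} {s : Sc} {dir hd : Bool} {b n t p0 sp : ℕ} {cs kp : List ℕ}
    {d : ℕ → ℕ} (H : Holds T Γ e) (F : ScFacts T Γ e s A cs [p0] [sp])
    (D : WinD e s dir (e.P p0) d) (o : AllRef T Γ (winObl s dir A cs kp)) (hb : Γ.nt ≤ b)
    (hn : 1 ≤ n) (ht : hd = true → t = 0) :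
    ExtSem e Γ.nt b (winExt s dir hd b n p0 sp A cs kp) (winF e A d n t) := by
  have hp : sp < s.ts.length ∧ e.P p0 ∈ e.U (s.ts.getD sp 0) := (F.par 0 (by simp)).2
  have hne : ∀ i < A.length, ∀ v ∈ e.U (A.getD i 0), v ≠ e.P p0 := fun i hi v hv =>
    F.np v (win_un.2 ⟨i, hi, hv⟩) p0 (by simp)
  have hts : ∀ i < A.length, ∀ v ∈ e.U (A.getD i 0), v ∈ e.un s.ts := fun i hi v hv =>
    win_un.2 ⟨_, (F.cvs i hi).2.1, (F.cvs i hi).2.2 hv⟩
  have hfar : ∀ i < A.length, ∀ v ∈ e.U (A.getD i 0), 2 ≤ d v →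
      e.E v (e.P p0) ≠ s.arc dir sp (cs.getD i 0) := by
    intro i hi v hv h2 h
    have := D.step (e.P p0) v ⟨(hne i hi v hv).symm, sp, hp.1, _, (F.cvs i hi).2.1, hp.2,
      (F.cvs i hi).2.2 hv, by rw [e.symm, h]⟩
    rw [D.root] at this
    omega
  have hone : ∀ i < A.length, ∀ v ∈ e.U (A.getD i 0), d v = 1 →
      e.E v (e.P p0) = s.arc dir sp (cs.getD i 0) := by
    intro i hi v hv h1
    obtain ⟨u, hu, h2⟩ := D.pred v (hts i hi v hv) (hne i hi v hv)
    obtain rfl : u = e.P p0 := by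
      by_contra c
      obtain ⟨_, _, h3⟩ := D.pred u (win_arc_left hu) c
      omega
    rw [e.symm]
    exact win_arc_val F.sem hu hp.1 (F.cvs i hi).2.1 hp.2 ((F.cvs i hi).2.2 hv)
  refine ⟨?_, ?_, ?_, by simp [winExt], by simp [winExt]⟩
  · intro o ho v hv
    have ho' : o < A.length * (n + 2) := by simpa [winExt] using ho
    have hi : o / (n + 2) < A.length := by rwa [Nat.div_lt_iff_lt_mul (by omega)]
    have hj : o % (n + 2) < n + 2 := Nat.mod_lt _ (by omega)
    have hdm : o / (n + 2) * (n + 2) + o % (n + 2) = o := Nat.div_add_mod' o (n + 2)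
    rw [winF, Finset.mem_filter] at hv
    simp only [winExt, List.getElem_map, List.getElem_range]
    refine ⟨hv.1, fun o' h hv' => ?_, fun p h => ?_, fun p h => ?_, by simp⟩
    · rw [winF, Finset.mem_filter] at hv'
      have h3 : o % (n + 2) = o' % (n + 2) := hv.2.symm.trans hv'.2
      simp only [xor_eq, shl_eq, Nat.testBit_xor, Nat.testBit_shiftLeft, pw_eq (n + 2),
        Nat.testBit_two_pow_sub_one, testBit_pw] at h
      by_cases c : o = o'
      · subst c
        have h1 : o / (n + 2) * (n + 2) ≤ o := by omega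
        have h2 : o - o / (n + 2) * (n + 2) < n + 2 := by omega
        simp [h1, h2] at h
      · simp only [c, decide_false, Bool.xor_false, Bool.and_eq_true, decide_eq_true_eq] at h
        obtain ⟨z, rfl⟩ := Nat.exists_eq_add_of_le h.1
        have h4 : z < n + 2 := by omega
        rw [Nat.mul_comm (o / (n + 2)), Nat.mul_add_mod, Nat.mod_eq_of_lt h4] at h3
        omega
    · split_ifs at h with h1 h2 h3
      · simp at h
      · obtain rfl : p0 = p := by simpa using h
        have := hfar _ hi v hv.1 (by omega)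
        cases hE : e.E v (e.P p0)
        · rw [hE] at this
          simp only [Bool.not_eq_true] at h2
          exact absurd h2.symm this
        · rfl
      · obtain rfl : p0 = p := by simpa using h
        simp only [Bool.and_eq_true, beq_iff_eq] at h3
        have h4 := ht h3.1.1
        rw [hone _ hi v hv.1 (by omega), h3.2]
      · simp at h
    · split_ifs at h with h1 h2 h3
      · obtain rfl : p0 = p := by simpa using h
        have := hfar _ hi v hv.1 (by omega)
        rw [h2] at this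
        simpa using this
      · simp at h
      · obtain rfl : p0 = p := by simpa using h
        simp only [Bool.and_eq_true, beq_iff_eq, Bool.not_eq_true'] at h3
        have h4 := ht h3.1.1
        rw [hone _ hi v hv.1 (by omega), h3.2]
      · simp at h
  · intro ev hev
    simp only [winExt, List.mem_map, List.mem_range] at hev
    obtain ⟨i, hi, rfl⟩ := hev
    intro x hx _
    simp only at hx ⊢
    rw [e.ext_old _ _ (F.cvs i hi).1] at hx
    refine ⟨wTy b n i (min (d x - t) (n + 1)), ?_, (win_mem hb (by omega)).2 ⟨hx, rfl⟩⟩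
    split_ifs with h
    · obtain ⟨u, _, h2⟩ := D.pred x (hts i hi x hx) (hne i hi x hx)
      have h4 := ht h
      simp only [List.mem_map, List.mem_range]
      exact ⟨min (d x - t) (n + 1) - 1, by omega, by congr 1; omega⟩
    · simp only [List.mem_map, List.mem_range]
      exact ⟨_, by omega, rfl⟩
  · intro a ha
    simp only [winExt, List.mem_append, List.mem_flatMap, List.mem_map, List.mem_range] at ha
    rcases ha with ⟨i, hi, j, hj, β, _, rfl⟩ | ⟨i, hi, j, hj, rfl⟩
    · rw [axHolds_cl]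
      rintro x ⟨h1, h2, h3⟩
      obtain ⟨t0, a0, b0⟩ := h1 0 (by simp [cl])
      obtain ⟨t1, a1, b1⟩ := h1 1 (by simp [cl])
      have hx : x 0 ≠ x 1 := fun c => by simpa using h2 0 (by simp [cl]) 1 (by simp [cl]) c
      have hE : e.E (x 0) (x 1) = β := h3 ⟨0, 1, β⟩ (by simp [cl])
      simp only [cl, List.getD_cons_zero, testBit_pw, decide_eq_true_eq] at a0
      simp only [cl, List.getD_cons_succ, List.getD_cons_zero, testBit_mask, decide_eq_true_eq,
        List.mem_flatMap, List.mem_filter, List.mem_map, List.mem_range, beqB_iff] at a1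
      obtain ⟨i2, ⟨hi2, hβ⟩, z, hz, rfl⟩ := a1
      subst a0
      rw [win_mem hb (by omega)] at b0 b1
      have := D.step (x 0) (x 1) ⟨hx, _, (F.cvs i hi).2.1, _, (F.cvs i2 hi2).2.1,
        (F.cvs i hi).2.2 b0.1, (F.cvs i2 hi2).2.2 b1.1, by rw [hE, hβ]⟩
      omega
    · rintro x ⟨h1, -, -⟩ X hX
      obtain ⟨t0, a0, b0⟩ := h1 0 (by simp)
      simp only [List.getD_cons_zero, testBit_pw, decide_eq_true_eq] at a0
      subst a0
      rw [win_mem hb (by omega)] at b0
      obtain rfl : X = ∅ := Finset.card_eq_zero.1 (Nat.le_zero.1 hX)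
      obtain ⟨u, hu, h2⟩ := D.pred (x 0) (hts i hi _ b0.1) (hne i hi _ b0.1)
      have hu0 : u ≠ e.P p0 := fun c => by
        rw [c, D.root] at h2
        omega
      obtain ⟨i2, hi2, hu2⟩ := win_un.1
        ((F.cov u (win_arc_left hu)).resolve_right (by simpa using hu0))
      have hE := win_arc_val F.sem hu (F.cvs i2 hi2).2.1 (F.cvs i hi).2.1 ((F.cvs i2 hi2).2.2 hu2)
        ((F.cvs i hi).2.2 b0.1)
      have hk : bit (kp.getD i 0) i2 = true := by
        by_contra c
        have hr := o (pat2 (A.getD i 0) (A.getD i2 0) (s.arc dir (cs.getD i2 0) (cs.getD i 0))) (by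
          simp only [winObl, List.mem_flatMap, List.mem_map, List.mem_filter, List.mem_range]
          exact ⟨i, hi, i2, ⟨hi2, by simpa using c⟩, rfl⟩)
        exact hr.pat2 H b0.1 hu2 hu.1.symm (by rw [e.symm, hE])
      refine ⟨u, by simp, fun i' hi' => ?_, ?_⟩
      · obtain rfl : i' = 0 := by simpa using hi'
        exact hu.1
      · simp only [List.mem_flatMap, List.mem_filter, List.mem_range, List.mem_cons]
        by_cases c : min (d u - t) (n + 1) = j + 1
        · refine ⟨_, ⟨i2, ⟨hi2, hk⟩, Or.inl rfl⟩, (win_mem hb (by omega)).2 ⟨hu2, c⟩, ?_⟩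
          simpa using hE
        · have c1 : j + 1 = n := by omega
          refine ⟨⟨wTy b n i2 (n + 1), [(0, s.arc dir (cs.getD i2 0) (cs.getD i 0))]⟩,
            ⟨i2, ⟨hi2, hk⟩, Or.inr (by simp [c1])⟩,
            (win_mem hb (by omega)).2 ⟨hu2, by omega⟩, ?_⟩
          simpa using hE

theorem r_window (dir : Bool) (r w p0 sp sci : ℕ) (evs cs kp : List ℕ)
    (IS : Ids) (ΓS : Ctx) (AS : List ℕ) (IW : Ids) (ΓW : Ctx) (AW : List ℕ)
    (IH : Ids) (ΓH : Ctx) (AH : List ℕ)
    (h : andb (isLW Γ) (andb (ltb 0 w) (andb (scOK T Γ sci evs A cs [p0] [sp])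
      (andb (extOK T Γ IS (winExt (T.sc.get sci) dir false IS.b (r + w) p0 sp A cs kp))
      (andb (Ctx.le ΓS (setMd
          (extCtx Γ IS (winExt (T.sc.get sci) dir false IS.b (r + w) p0 sp A cs kp))
          (wSet IS.b (r + w) A.length 0 (r + 1)) (wSet IS.b (r + w) A.length (r + w + 1) 1)))
      (andb (subD ΓS.nt ΓS (wSet IS.b (r + w) A.length 0 (r + w + 2)) AS)
      (andb (child T Γ IW (winExt (T.sc.get sci) dir false IW.b (r + 2 * w) p0 sp A cs kp) ΓW)
      (andb (subD ΓW.nt ΓW (wSet IW.b (r + 2 * w) A.length (r + 1) (2 * w)) AW)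
      (andb (child T Γ IH (winExt (T.sc.get sci) dir true IH.b (r + w) p0 sp A cs kp) ΓH)
        (subD ΓH.nt ΓH (wSet IH.b (r + w) A.length 1 (r + w)) AH))))))))) = true)
    (o : AllRef T Γ (winObl (T.sc.get sci) dir A cs kp))
    (kS : Bd T ΓS AS) (kW : Bd T ΓW AW) (kH : Bd T ΓH AH) : Bd T Γ A := by
  simp only [andb_eq, Bool.and_eq_true, isLW_iff, ltb_iff] at h
  obtain ⟨hmd, hw, hsc, hS1, hS2, hS3, hW1, hW2, hH1, hH2⟩ := h
  obtain ⟨cS, kS⟩ := kS
  obtain ⟨cW, kW⟩ := kW
  obtain ⟨cH, kH⟩ := kH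
  refine ⟨(cS + 1) + max cW cH * (cS + 1), fun e H => ?_⟩
  have F := scOK_sound hsc H
  have hp := (F.par 0 (by simp)).2
  obtain ⟨d, D⟩ := win_dist dir F.sem (r := e.P p0) (win_un.2 ⟨_, hp.1, hp.2⟩)
  have bS := extOK_le hS1
  have bW := extOK_le (child_ok hW1)
  have bH := extOK_le (child_ok hH1)
  have hZ : ∀ m : ℕ, ∃ Z, Z ⊆ e.un A ∧ (∀ v ∈ e.un A, d v ≤ m * w + r → v ∈ Z) ∧
      (∀ v ∈ Z, d v ≤ m * w + r + w) ∧ Cut e.E Z (e.un A \ Z) cS := by
    intro m
    have h1 := holds_ext hS1 H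
      (win_sem (t := m * w) H F D o bS (by omega) (fun c => by simp at c))
    have hl : ∀ lo len, lo + len ≤ r + w + 2 → ∀ a ∈ wSet IS.b (r + w) A.length lo len,
        a < (extCtx Γ IS (winExt (T.sc.get sci) dir false IS.b (r + w) p0 sp A cs kp)).nt := by
      intro lo len h a ha
      simpa [extCtx, winExt] using win_lt h a ha
    have h2 := holds_le hS2 (holds_setMd h1 (hl _ _ (by omega)) (hl _ _ (by omega)))
    have h3 := kS _ h2
    rw [le_md hS2] at h3
    have h4 : e.un A ⊆ (e.ext Γ.nt IS.b (winF e A d (r + w) (m * w))).un AS := fun v hv =>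
      subD_un hS3 h2 ((win_set bS (by omega)).2 ⟨hv, by omega, by omega⟩)
    obtain ⟨Z, z1, z2, z3, z4⟩ := Sep.mono h3 h4 le_rfl
    refine ⟨Z, z1, fun v hv hd => z2 v hv ?_ ?_, fun v hv => ?_, z4⟩
    · exact (win_set bS (by omega)).2 ⟨hv, by omega, by omega⟩
    · rw [win_set bS (by omega)]
      omega
    · have := z3 v hv
      rw [win_set bS (by omega)] at this
      by_contra c
      exact this ⟨z1 hv, by omega, by omega⟩
  choose Z z1 z2 z3 z4 using hZ
  rw [hmd]
  refine LW.chain Z (fun m v hv => z2 _ v (z1 m hv) ?_) (fun v hv => ⟨d v, z2 _ v hv ?_⟩) z4 ?_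
    fun m => ?_
  · have := z3 m v hv
    rw [Nat.add_mul]
    omega
  · have := Nat.le_mul_of_pos_right (d v) hw
    omega
  · have h2 := holds_child hH1 H (win_sem (t := 0) H F D o bH (by omega) fun _ => rfl)
    have h3 := kH _ h2
    rw [child_md hH1, hmd] at h3
    refine LW.mono h3 (fun v hv => subD_un hH2 h2 ((win_set bH (by omega)).2 ?_)) (le_max_right _ _)
    have h4 := z3 0 v hv
    obtain ⟨i, hi, hv'⟩ := win_un.1 (z1 0 hv)
    obtain ⟨u, _, h5⟩ := D.pred v (win_un.2 ⟨_, (F.cvs i hi).2.1, (F.cvs i hi).2.2 hv'⟩)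
      (F.np v (z1 0 hv) p0 (by simp))
    exact ⟨z1 0 hv, by omega, by omega⟩
  · have h2 := holds_child hW1 H
      (win_sem (t := m * w) H F D o bW (by omega) (fun c => by simp at c))
    have h3 := kW _ h2
    rw [child_md hW1, hmd] at h3
    refine LW.mono h3 (fun v hv => subD_un hW2 h2 ((win_set bW (by omega)).2 ?_)) (le_max_left _ _)
    rw [Finset.mem_sdiff] at hv
    have h4 := z3 (m + 1) v hv.1
    have h5 : ¬ d v ≤ m * w + r := fun c => hv.2 (z2 m v (z1 _ hv.1) c)
    rw [Nat.add_mul] at h4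
    exact ⟨z1 _ hv.1, by omega, by omega⟩

end Pool.Agent.Lib.MP_849b2e_co
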