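import Pool.Agent.Lib.MP_849b2e_co.REasy
import Pool.Agent.Lib.MP_849b2e_co.RDef
import Pool.Agent.Lib.MP_849b2e_co.RBlock
import Pool.Agent.Lib.MP_849b2e_co.RTwin
import Pool.Agent.Lib.MP_849b2e_co.RExt
import Pool.Agent.Lib.MP_849b2e_co.RHit
import Pool.Agent.Lib.MP_849b2e_co.ROdd
import Pool.Agent.Lib.MP_849b2e_co.RWin
import Pool.Agent.Lib.MP_849b2e_co.RApply
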