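import Mathlib

/-!
Order width `LW` (number of neighbourhood classes across the cuts of a linear order) and the
separation measure `Sep`.  Graphs are symmetric Boolean relations on `ℕ`; only values at
distinct vertices matter.
-/

namespace Pool.Agent.Lib.MP_849b2e_co

abbrev Adj := ℕ → ℕ → Bool

/-- The vertices of `A` fall into at most `c` classes with equal adjacency to `B`. -/
def Cut (E : Adj) (A B : Finset ℕ) (c : ℕ) : Prop :=
  ∃ f : ℕ → ℕ, (∀ u ∈ A, f u < c) ∧ ∀ u ∈ A, ∀ v ∈ A, f u = f v → ∀ w ∈ B, E u w = E v w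

/-- There is a linear order of `S` all of whose cuts have at most `c` classes. -/
def LW (E : Adj) (S : Finset ℕ) (c : ℕ) : Prop :=
  ∃ pos : ℕ → ℕ, Set.InjOn pos S ∧
    ∀ i, Cut E (S.filter (fun v => pos v < i)) (S.filter (fun v => i ≤ pos v)) c

/-- A cut of `S` with at most `c` classes, containing `Lo \ Hi` and avoiding `Hi`. -/
def Sep (E : Adj) (Lo Hi S : Finset ℕ) (c : ℕ) : Prop :=
  ∃ Z, Z ⊆ S ∧ (∀ v ∈ S, v ∈ Lo → v ∉ Hi → v ∈ Z) ∧ (∀ v ∈ Z, v ∉ Hi) ∧ Cut E Z (S \ Z) c

theorem Cut.mono {E : Adj} {A B A' B' : Finset ℕ} {c c' : ℕ} (h : Cut E A B c)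
    (hA : A' ⊆ A) (hB : B' ⊆ B) (hc : c ≤ c') : Cut E A' B' c' := by
  obtain ⟨f, h1, h2⟩ := h
  exact ⟨f, fun u hu => lt_of_lt_of_le (h1 u (hA hu)) hc,
    fun u hu v hv e w hw => h2 u (hA hu) v (hA hv) e w (hB hw)⟩

theorem Cut.empty (E : Adj) (B : Finset ℕ) (c : ℕ) : Cut E ∅ B c :=
  ⟨fun _ => 0, by simp, by simp⟩

theorem Cut.prod {E : Adj} {A B B' : Finset ℕ} {c c' : ℕ} (h : Cut E A B c)
    (h' : Cut E A B' c') : Cut E A (B ∪ B') (c * c') := by
  obtain ⟨f, h1, h2⟩ := h
  obtain ⟨g, g1, g2⟩ := h'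
  refine ⟨fun u => f u * c' + g u, fun u hu => ?_, fun u hu v hv e w hw => ?_⟩
  · have := h1 u hu
    have := g1 u hu
    calc f u * c' + g u < f u * c' + c' := by omega
      _ = (f u + 1) * c' := by ring
      _ ≤ c * c' := Nat.mul_le_mul_right _ (by omega)
  · have a1 := g1 u hu
    have a2 := g1 v hv
    have e1 : g u = g v := by
      have := congrArg (· % c') e
      simpa [Nat.mul_add_mod_self_right, Nat.add_mod, Nat.mod_eq_of_lt a1, Nat.mod_eq_of_lt a2]
        using this
    have e2 : f u = f v := by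
      have e' : f u * c' + g u = f v * c' + g v := e
      have : f u * c' = f v * c' := by omega
      exact Nat.eq_of_mul_eq_mul_right (by omega) this
    rcases Finset.mem_union.1 hw with hw | hw
    · exact h2 u hu v hv e2 w hw
    · exact g2 u hu v hv e1 w hw

theorem Cut.sum {E : Adj} {A A' B : Finset ℕ} {c c' : ℕ} (h : Cut E A B c)
    (h' : Cut E A' B c') : Cut E (A ∪ A') B (c + c') := by
  obtain ⟨f, h1, h2⟩ := h
  obtain ⟨g, g1, g2⟩ := h'
  refine ⟨fun u => if u ∈ A then f u else c + g u, fun u hu => ?_, fun u hu v hv e w hw => ?_⟩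
  · by_cases a : u ∈ A
    · have := h1 u a
      simp only [a, if_true]; omega
    · have := g1 u ((Finset.mem_union.1 hu).resolve_left a)
      simp only [a, if_false]; omega
  · by_cases a : u ∈ A <;> by_cases b : v ∈ A <;> simp only [a, b, if_true, if_false] at e
    · exact h2 u a v b e w hw
    · have := h1 u a; omega
    · have := h1 v b; omega
    · exact g2 u ((Finset.mem_union.1 hu).resolve_left a) v
        ((Finset.mem_union.1 hv).resolve_left b) (by omega) w hw

theorem Cut.single (E : Adj) (x : ℕ) (B : Finset ℕ) : Cut E {x} B 1 :=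
  ⟨fun _ => 0, by simp, by simp⟩

theorem Cut.single_right (E : Adj) (A : Finset ℕ) (x : ℕ) : Cut E A {x} 2 := by
  refine ⟨fun u => if E u x then 1 else 0, fun u _ => by dsimp only; split <;> omega,
    fun u _ v _ e w hw => ?_⟩
  obtain rfl := Finset.mem_singleton.1 hw
  cases h1 : E u w <;> cases h2 : E v w <;> simp_all

theorem LW.mono {E : Adj} {S S' : Finset ℕ} {c c' : ℕ} (h : LW E S c) (hS : S' ⊆ S)
    (hc : c ≤ c') : LW E S' c' := by
  obtain ⟨pos, h1, h2⟩ := h
  exact ⟨pos, h1.mono hS, fun i => (h2 i).mono (Finset.filter_subset_filter _ hS)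
    (Finset.filter_subset_filter _ hS) hc⟩

theorem LW.empty (E : Adj) (c : ℕ) : LW E ∅ c :=
  ⟨id, by simp, fun i => by simpa using Cut.empty E _ c⟩

/-- Concatenating orders of blocks. -/
theorem LW.blocks {E : Adj} {S : Finset ℕ} {c c' : ℕ} (β : ℕ → ℕ)
    (h1 : ∀ i, LW E (S.filter (fun v => β v = i)) c')
    (h2 : ∀ i, Cut E (S.filter (fun v => β v < i)) (S.filter (fun v => i ≤ β v)) c) :
    LW E S (c + c' * c) := by
  choose p hp1 hp2 using h1
  obtain ⟨N, hN⟩ : ∃ N, ∀ v ∈ S, p (β v) v < N :=
    ⟨S.sup (fun v => p (β v) v) + 1, fun v hv =>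
      Nat.lt_succ_of_le (Finset.le_sup (f := fun v => p (β v) v) hv)⟩
  have key : ∀ u ∈ S, ∀ i, (β u * N + p (β u) u < i ↔
      β u < i / N ∨ (β u = i / N ∧ p (β u) u < i % N)) := by
    intro u hu i
    have hu' := hN u hu
    have hpos : 0 < N := by omega
    have e := Nat.div_add_mod i N
    have m := Nat.mod_lt i hpos
    constructor
    · intro h
      rcases lt_trichotomy (β u) (i / N) with a | a | a
      · exact Or.inl a
      · right; refine ⟨a, ?_⟩
        rw [← a, Nat.mul_comm] at e; omega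
      · exfalso
        have : (i / N + 1) * N ≤ β u * N := Nat.mul_le_mul_right _ a
        have e2 : (i / N + 1) * N = N * (i / N) + N := by ring
        omega
    · rintro (a | ⟨a, b⟩)
      · have : (β u + 1) * N ≤ (i / N) * N := Nat.mul_le_mul_right _ a
        have e2 : (β u + 1) * N = β u * N + N := by ring
        have e3 : (i / N) * N = N * (i / N) := by ring
        omega
      · rw [← a, Nat.mul_comm] at e; omega
  refine ⟨fun v => β v * N + p (β v) v, fun u hu v hv e => ?_, fun i => ?_⟩
  · have hu' := hN u hu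
    have hv' := hN v hv
    have e' : β u * N + p (β u) u = β v * N + p (β v) v := e
    have e1 : p (β u) u = p (β v) v := by
      have := congrArg (· % N) e'
      simpa [Nat.mul_add_mod_self_right, Nat.add_mod, Nat.mod_eq_of_lt hu', Nat.mod_eq_of_lt hv']
        using this
    have e2 : β u = β v := Nat.eq_of_mul_eq_mul_right (by omega : 0 < N) (by omega)
    refine hp1 (β u) (by simpa using hu) (by simpa [e2] using hv) ?_
    rw [e1, e2]
  · set j := i / N
    have A := h2 j
    have B := (hp2 j (i % N)).prod ((h2 (j + 1)).mono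
      (A' := (S.filter (fun v => β v = j)).filter (fun v => p j v < i % N)) (fun v hv => by
        simp only [Finset.mem_filter] at hv ⊢
        exact ⟨hv.1.1, by omega⟩) subset_rfl le_rfl)
    refine ((A.mono subset_rfl ?_ le_rfl).sum (B.mono subset_rfl ?_ le_rfl)).mono ?_
      subset_rfl le_rfl
    · intro v hv
      simp only [Finset.mem_filter] at hv ⊢
      have := key v hv.1 i
      refine ⟨hv.1, ?_⟩
      by_contra c; omega
    · intro v hv
      simp only [Finset.mem_filter, Finset.mem_union] at hv ⊢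
      have := key v hv.1 i
      by_cases c : β v = j
      · left; refine ⟨⟨hv.1, c⟩, ?_⟩
        rw [← c]; by_contra d; omega
      · right; refine ⟨hv.1, ?_⟩
        by_contra d; omega
    · intro v hv
      simp only [Finset.mem_filter, Finset.mem_union] at hv ⊢
      rcases (key v hv.1 i).1 hv.2 with a | ⟨a, b⟩
      · exact Or.inl ⟨hv.1, a⟩
      · right; refine ⟨⟨hv.1, a⟩, ?_⟩
        rw [← show β v = j from a]; exact b

theorem LW.card (E : Adj) (S : Finset ℕ) : LW E S S.card := by
  classical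
  refine ⟨id, fun _ _ _ _ h => h, fun i => ?_⟩
  refine ⟨fun u => (S.filter (· < u)).card, fun u hu => ?_, fun u hu v hv e w _ => ?_⟩
  · refine Finset.card_lt_card ⟨Finset.filter_subset _ _, fun h => ?_⟩
    have := h (Finset.mem_filter.1 hu).1
    simp at this
  · have hu' := (Finset.mem_filter.1 hu).1
    have hv' := (Finset.mem_filter.1 hv).1
    have mono : ∀ a ∈ S, ∀ b, a < b → (S.filter (· < a)).card < (S.filter (· < b)).card := by
      intro a ha b ab
      refine Finset.card_lt_card ⟨fun x hx => ?_, fun h => ?_⟩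
      · simp only [Finset.mem_filter] at hx ⊢; exact ⟨hx.1, by omega⟩
      · have := h (Finset.mem_filter.2 ⟨ha, ab⟩); simp at this
    rcases lt_trichotomy u v with a | a | a
    · have := mono u hu' v a; simp only at e; omega
    · rw [a]
    · have := mono v hv' u a; simp only at e; omega

/-- Two blocks. -/
theorem LW.two {E : Adj} {A B : Finset ℕ} {c c' : ℕ} (hA : LW E A c') (hB : LW E B c')
    (h : Cut E A (B \ A) c) : LW E (A ∪ B) ((c + 1) + c' * (c + 1)) := by
  refine LW.blocks (fun v => if v ∈ A then 0 else 1) (fun i => ?_) (fun i => ?_)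
  · by_cases i0 : i = 0
    · refine hA.mono (fun v hv => ?_) le_rfl
      simp only [Finset.mem_filter] at hv
      by_contra c; simp [c, i0] at hv
    · refine hB.mono (fun v hv => ?_) le_rfl
      simp only [Finset.mem_filter, Finset.mem_union] at hv
      by_cases c : v ∈ A
      · simp [c] at hv; omega
      · exact hv.1.resolve_left c
  · rcases Nat.lt_or_ge i 1 with i0 | i0
    · refine (Cut.empty E _ _).mono (fun v hv => ?_) subset_rfl le_rfl
      simp only [Finset.mem_filter] at hv; omega
    · rcases Nat.lt_or_ge i 2 with i1 | i1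
      · refine h.mono (fun v hv => ?_) (fun v hv => ?_) (by omega)
        · simp only [Finset.mem_filter] at hv
          by_contra c; simp [c] at hv; omega
        · simp only [Finset.mem_filter, Finset.mem_union, Finset.mem_sdiff] at hv ⊢
          by_cases c : v ∈ A
          · simp [c] at hv; omega
          · exact ⟨hv.1.resolve_left c, c⟩
      · refine ⟨fun _ => 0, fun _ _ => Nat.succ_pos _, fun u _ v _ _ w hw => ?_⟩
        simp only [Finset.mem_filter] at hw
        split at hw <;> omega

theorem LW.insert {E : Adj} {S : Finset ℕ} {c : ℕ} (h : LW E S c) (x : ℕ) :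
    LW E (insert x S) (3 * c + 6) := by
  have h1 : LW E {x} (c + 1) := (LW.card E {x}).mono subset_rfl (by simp)
  have := (h.mono subset_rfl (Nat.le_succ c)).two h1
    ((Cut.single_right E S x).mono subset_rfl Finset.sdiff_subset le_rfl)
  refine this.mono (fun v hv => ?_) (by omega)
  simp only [Finset.mem_insert, Finset.mem_union, Finset.mem_singleton] at hv ⊢
  tauto

/-- Nested cuts. -/
theorem LW.chain {E : Adj} {S : Finset ℕ} {c c' : ℕ} (Z : ℕ → Finset ℕ)
    (hm : ∀ m, Z m ⊆ Z (m + 1)) (hS : ∀ v ∈ S, ∃ m, v ∈ Z m)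
    (hc : ∀ m, Cut E (Z m) (S \ Z m) c) (h0 : LW E (Z 0) c')
    (h1 : ∀ m, LW E (Z (m + 1) \ Z m) c') : LW E S ((c + 1) + c' * (c + 1)) := by
  classical
  have mono : ∀ a b, a ≤ b → Z a ⊆ Z b := fun a b ab => monotone_nat_of_le_succ hm ab
  let β : ℕ → ℕ := fun v => if h : ∃ m, v ∈ Z m then Nat.find h else 0
  have hβ : ∀ v ∈ S, ∀ m, v ∈ Z m ↔ β v ≤ m := by
    intro v hv m
    have h := hS v hv
    simp only [β, dif_pos h]
    exact ⟨fun a => Nat.find_min' h a, fun a => mono _ _ a (Nat.find_spec h)⟩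
  refine LW.blocks β (fun i => ?_) (fun i => ?_)
  · rcases i with _ | i
    · refine h0.mono (fun v hv => ?_) le_rfl
      simp only [Finset.mem_filter] at hv
      exact (hβ v hv.1 0).2 hv.2.le
    · refine (h1 i).mono (fun v hv => ?_) le_rfl
      simp only [Finset.mem_filter, Finset.mem_sdiff] at hv ⊢
      rw [hβ v hv.1, hβ v hv.1]; omega
  · rcases i with _ | i
    · refine (Cut.empty E _ _).mono (fun v hv => ?_) subset_rfl le_rfl
      simp only [Finset.mem_filter] at hv; omega
    · refine (hc i).mono (fun v hv => ?_) (fun v hv => ?_) (by omega)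
      · simp only [Finset.mem_filter] at hv
        rw [hβ v hv.1]; omega
      · simp only [Finset.mem_filter, Finset.mem_sdiff] at hv ⊢
        rw [hβ v hv.1]; exact ⟨hv.1, by omega⟩

/-- Flipping adjacencies between `k` classes. -/
theorem LW.flip {E E' : Adj} {S : Finset ℕ} {c k : ℕ} (τ : ℕ → ℕ) (F : ℕ → ℕ → Bool)
    (hτ : ∀ v ∈ S, τ v < k)
    (hE : ∀ u ∈ S, ∀ v ∈ S, u ≠ v → E u v = xor (E' u v) (F (τ u) (τ v)))
    (h : LW E' S c) : LW E S (c * k) := by
  obtain ⟨pos, h1, h2⟩ := h
  refine ⟨pos, h1, fun i => ?_⟩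
  obtain ⟨f, f1, f2⟩ := h2 i
  refine ⟨fun u => f u * k + τ u, fun u hu => ?_, fun u hu v hv e w hw => ?_⟩
  · have := f1 u hu
    have := hτ u (Finset.mem_filter.1 hu).1
    calc f u * k + τ u < f u * k + k := by omega
      _ = (f u + 1) * k := by ring
      _ ≤ c * k := Nat.mul_le_mul_right _ (by omega)
  · have hu' := Finset.mem_filter.1 hu
    have hv' := Finset.mem_filter.1 hv
    have hw' := Finset.mem_filter.1 hw
    have a1 := hτ u hu'.1
    have a2 := hτ v hv'.1
    have e1 : τ u = τ v := by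
      have := congrArg (· % k) e
      simpa [Nat.mul_add_mod_self_right, Nat.add_mod, Nat.mod_eq_of_lt a1, Nat.mod_eq_of_lt a2]
        using this
    have e2 : f u = f v := by
      have e' : f u * k + τ u = f v * k + τ v := e
      exact Nat.eq_of_mul_eq_mul_right (by omega : 0 < k) (by omega)
    rw [hE u hu'.1 w hw'.1 (by rintro rfl; omega), hE v hv'.1 w hw'.1 (by rintro rfl; omega),
      f2 u hu v hv e2 w hw, e1]

theorem LW.congr {E E' : Adj} {S : Finset ℕ} {c : ℕ}
    (hE : ∀ u ∈ S, ∀ v ∈ S, u ≠ v → E u v = E' u v) (h : LW E' S c) : LW E S c := by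
  simpa using LW.flip (fun _ => 0) (fun _ _ => false) (k := 1) (by simp) (by simpa using hE) h

theorem Sep.mono {E : Adj} {Lo Hi S S' : Finset ℕ} {c c' : ℕ} (h : Sep E Lo Hi S c)
    (hS : S' ⊆ S) (hc : c ≤ c') : Sep E Lo Hi S' c' := by
  obtain ⟨Z, _, z2, z3, z4⟩ := h
  refine ⟨Z ∩ S', Finset.inter_subset_right, fun v hv a b => Finset.mem_inter.2
    ⟨z2 v (hS hv) a b, hv⟩, fun v hv => z3 v (Finset.mem_inter.1 hv).1,
    z4.mono Finset.inter_subset_left (fun v hv => ?_) hc⟩
  simp only [Finset.mem_sdiff, Finset.mem_inter] at hv ⊢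
  exact ⟨hS hv.1, fun a => hv.2 ⟨a, hv.1⟩⟩

theorem Sep.empty (E : Adj) (Lo Hi : Finset ℕ) (c : ℕ) : Sep E Lo Hi ∅ c :=
  ⟨∅, subset_rfl, by simp, by simp, Cut.empty _ _ _⟩

theorem Sep.insert {E : Adj} {Lo Hi S : Finset ℕ} {c : ℕ} (h : Sep E Lo Hi S c) (x : ℕ) :
    Sep E Lo Hi (insert x S) (3 * c + 6) := by
  obtain ⟨Z, z1, z2, z3, z4⟩ := h
  by_cases hx : x ∈ Hi
  · refine ⟨Z, z1.trans (Finset.subset_insert _ _), fun v hv a b => ?_, z3, ?_⟩
    · rcases Finset.mem_insert.1 hv with rfl | hv
      · exact absurd hx b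
      · exact z2 v hv a b
    · refine (z4.prod (Cut.single_right E Z x)).mono subset_rfl (fun v hv => ?_) (by omega)
      simp only [Finset.mem_sdiff, Finset.mem_insert, Finset.mem_union,
        Finset.mem_singleton] at hv ⊢
      tauto
  · refine ⟨Z ∪ {x}, fun v hv => ?_, fun v hv a b => ?_, fun v hv => ?_, ?_⟩
    · simp only [Finset.mem_insert, Finset.mem_union, Finset.mem_singleton] at hv ⊢
      rcases hv with hv | hv
      · exact Or.inr (z1 hv)
      · exact Or.inl hv
    · simp only [Finset.mem_insert, Finset.mem_union, Finset.mem_singleton] at hv ⊢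
      rcases hv with hv | hv
      · exact Or.inr hv
      · exact Or.inl (z2 v hv a b)
    · simp only [Finset.mem_union, Finset.mem_singleton] at hv
      rcases hv with hv | rfl
      · exact z3 v hv
      · exact hx
    · refine (z4.sum (Cut.single E x (S \ Z))).mono subset_rfl (fun v hv => ?_) (by omega)
      simp only [Finset.mem_sdiff, Finset.mem_insert, Finset.mem_union,
        Finset.mem_singleton] at hv ⊢
      tauto

/-- Ramsey's theorem for two colours on increasing pairs. -/
theorem ramsey2 (a b : ℕ) : ∃ N : ℕ, ∀ (col : ℕ → ℕ → Bool) (s : Finset ℕ), N ≤ s.card →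
    ∃ t, t ⊆ s ∧ ((a ≤ t.card ∧ ∀ i ∈ t, ∀ j ∈ t, i < j → col i j = false) ∨
      (b ≤ t.card ∧ ∀ i ∈ t, ∀ j ∈ t, i < j → col i j = true)) := by
  induction a generalizing b with
  | zero => exact ⟨0, fun _ _ _ => ⟨∅, by simp, Or.inl ⟨by simp, by simp⟩⟩⟩
  | succ a iha =>
    induction b with
    | zero => exact ⟨0, fun _ _ _ => ⟨∅, by simp, Or.inr ⟨by simp, by simp⟩⟩⟩
    | succ b ihb =>
      obtain ⟨N1, h1⟩ := iha (b + 1)
      obtain ⟨N2, h2⟩ := ihb
      refine ⟨N1 + N2 + 1, fun col s hs => ?_⟩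
      have hne : s.Nonempty := Finset.card_pos.1 (by omega)
      set x := s.min' hne
      have hx : x ∈ s := s.min'_mem hne
      have hlt : ∀ y ∈ s.erase x, x < y := fun y hy =>
        lt_of_le_of_ne (s.min'_le y (Finset.mem_of_mem_erase hy)) (Finset.ne_of_mem_erase hy).symm
      have hc := Finset.card_filter_add_card_filter_not (s := s.erase x) (fun y => col x y = false)
      rw [Finset.card_erase_of_mem hx] at hc
      have ext : ∀ (t : Finset ℕ) (β : Bool), (∀ y ∈ t, y ∈ s.erase x ∧ col x y = β) →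
          (∀ i ∈ t, ∀ j ∈ t, i < j → col i j = β) →
          insert x t ⊆ s ∧ (insert x t).card = t.card + 1 ∧
            ∀ i ∈ insert x t, ∀ j ∈ insert x t, i < j → col i j = β := by
        intro t β ht hcol
        refine ⟨fun y hy => ?_, Finset.card_insert_of_notMem fun h => ?_, fun i hi j hj ij => ?_⟩
        · rcases Finset.mem_insert.1 hy with rfl | hy
          · exact hx
          · exact Finset.mem_of_mem_erase (ht y hy).1
        · exact lt_irrefl _ (hlt x (ht x h).1)
        · rcases Finset.mem_insert.1 hi with rfl | hi <;> rcases Finset.mem_insert.1 hj with rfl | hj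
          · omega
          · exact (ht j hj).2
          · have := hlt i (ht i hi).1; omega
          · exact hcol i hi j hj ij
      by_cases c : N1 ≤ ((s.erase x).filter (fun y => col x y = false)).card
      · obtain ⟨t, ht, h | h⟩ := h1 col _ c
        · obtain ⟨e1, e2, e3⟩ := ext t false (fun y hy => Finset.mem_filter.1 (ht hy)) h.2
          exact ⟨_, e1, Or.inl ⟨by omega, e3⟩⟩
        · exact ⟨t, ht.trans ((Finset.filter_subset _ _).trans (Finset.erase_subset _ _)), Or.inr h⟩
      · obtain ⟨t, ht, h | h⟩ := h2 col ((s.erase x).filter (fun y => ¬ col x y = false)) (by omega)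
        · exact ⟨t, ht.trans ((Finset.filter_subset _ _).trans (Finset.erase_subset _ _)), Or.inl h⟩
        · obtain ⟨e1, e2, e3⟩ := ext t true (fun y hy => by
            have := Finset.mem_filter.1 (ht hy); exact ⟨this.1, by simpa using this.2⟩) h.2
          exact ⟨_, e1, Or.inr ⟨by omega, e3⟩⟩

end Pool.Agent.Lib.MP_849b2e_co
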