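import Pool.Agent.Lib.MP_849b2e_co.Defs
import Pool.Agent.Lib.MP_849b2e_co.Width

/-!
Boundedness of the order width on `(H₁,H₂)`-free graphs.
-/

namespace Pool.Agent.Lib.MP_849b2e_co

/-- `H` is an induced subgraph of the graph `E` restricted to `S`. -/
def IndIn {α : Type} (H : SimpleGraph α) (E : Adj) (S : Finset ℕ) : Prop :=
  ∃ x : α → ℕ, Function.Injective x ∧ (∀ a, x a ∈ S) ∧
    ∀ a b, a ≠ b → (E (x a) (x b) = true ↔ H.Adj a b)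

def BdN {α β : Type} (H₁ : SimpleGraph α) (H₂ : SimpleGraph β) : Prop :=
  ∃ c, ∀ E : Adj, (∀ u v, E u v = E v u) → ∀ S, ¬ IndIn H₁ E S → ¬ IndIn H₂ E S → LW E S c

variable {α β α' β' : Type}

theorem IndIn.mono {H : SimpleGraph α} {E : Adj} {S S' : Finset ℕ} (h : IndIn H E S)
    (hS : S ⊆ S') : IndIn H E S' := by
  obtain ⟨x, h1, h2, h3⟩ := h
  exact ⟨x, h1, fun a => hS (h2 a), h3⟩

theorem IndIn.trans {H : SimpleGraph α} {H' : SimpleGraph α'} {E : Adj} {S : Finset ℕ}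
    (h : IndIn H E S) (h' : H'.IsIndContained H) : IndIn H' E S := by
  obtain ⟨x, h1, h2, h3⟩ := h
  obtain ⟨f⟩ := h'
  refine ⟨fun a => x (f a), h1.comp f.injective, fun a => h2 _, fun a b ab => ?_⟩
  rw [h3 _ _ (fun c => ab (f.injective c)), f.map_adj_iff]

theorem BdN.symm {H₁ : SimpleGraph α} {H₂ : SimpleGraph β} (h : BdN H₁ H₂) : BdN H₂ H₁ := by
  obtain ⟨c, h⟩ := h
  exact ⟨c, fun E hE S a b => h E hE S b a⟩

theorem BdN.mono {H₁ : SimpleGraph α} {H₂ : SimpleGraph β} {H₁' : SimpleGraph α'}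
    {H₂' : SimpleGraph β'} (h : BdN H₁ H₂) (h1 : H₁'.IsIndContained H₁)
    (h2 : H₂'.IsIndContained H₂) : BdN H₁' H₂' := by
  obtain ⟨c, h⟩ := h
  exact ⟨c, fun E hE S a b => h E hE S (fun i => a (i.trans h1)) (fun i => b (i.trans h2))⟩

theorem IndIn.compl {H : SimpleGraph α} {E : Adj} {S : Finset ℕ}
    (h : IndIn H (fun u v => !E u v) S) : IndIn Hᶜ E S := by
  obtain ⟨x, h1, h2, h3⟩ := h
  refine ⟨x, h1, h2, fun a b ab => ?_⟩
  have := h3 a b ab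
  simp only [SimpleGraph.compl_adj, ne_eq, ab, not_false_eq_true, true_and, ← this]
  cases E (x a) (x b) <;> simp

theorem BdN.compl {H₁ : SimpleGraph α} {H₂ : SimpleGraph β} (h : BdN H₁ H₂) : BdN H₁ᶜ H₂ᶜ := by
  obtain ⟨c, h⟩ := h
  refine ⟨c, fun E hE S a b => ?_⟩
  have := h (fun u v => !E u v) (fun u v => by rw [hE]) S (fun i => a i.compl) (fun i => b i.compl)
  simpa using LW.flip (fun _ => 0) (fun _ _ => true) (k := 1) (by simp) (by simp) this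

theorem BdN.of_compl {H₁ : SimpleGraph α} {H₂ : SimpleGraph β} (h : BdN H₁ᶜ H₂ᶜ) : BdN H₁ H₂ := by
  simpa using h.compl

def adjL (l : List (ℕ × ℕ)) (i j : ℕ) : Bool :=
  l.any fun e => (Nat.beq e.1 i && Nat.beq e.2 j) || (Nat.beq e.1 j && Nat.beq e.2 i)

theorem gr_adj {n : ℕ} {l : List (ℕ × ℕ)} {a b : Fin n} :
    (gr n l).Adj a b ↔ a ≠ b ∧ adjL l a b = true := by
  simp only [gr, SimpleGraph.fromRel_adj, adjL, List.any_eq_true, Bool.or_eq_true,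
    Bool.and_eq_true, Nat.beq_eq]
  refine and_congr_right fun _ => ⟨?_, ?_⟩
  · rintro (h | h)
    · exact ⟨_, h, Or.inl ⟨rfl, rfl⟩⟩
    · exact ⟨_, h, Or.inr ⟨rfl, rfl⟩⟩
  · rintro ⟨⟨u, v⟩, h, ⟨rfl, rfl⟩ | ⟨rfl, rfl⟩⟩
    · exact Or.inl h
    · exact Or.inr h

abbrev gK3 := gr 3 [(0, 1), (0, 2), (1, 2)]
abbrev gP3 := gr 3 [(0, 1), (1, 2)]
abbrev gP4 := gr 4 [(0, 1), (1, 2), (2, 3)]
abbrev gC4 := gr 4 [(0, 1), (1, 2), (2, 3), (0, 3)]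
abbrev g2P2 := gr 4 [(0, 1), (2, 3)]
abbrev gPaw := gr 4 [(0, 1), (0, 2), (1, 2), (2, 3)]

end Pool.Agent.Lib.MP_849b2e_co
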