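import Pool.Agent.Lib.MP_849b2e_co.Good
import Pool.Agent.Lib.MP_849b2e_co.Graph

/-!
The minimal pairs with unbounded linear clique-width (up to swapping and complementation).
-/

namespace Pool.Agent.Lib.MP_849b2e_co

abbrev Code := ℕ × List (ℕ × ℕ)

def cK3 : Code := (3, [(0, 1), (0, 2), (1, 2)])
def cK4 : Code := (4, [(0, 1), (0, 2), (0, 3), (1, 2), (1, 3), (2, 3)])
def cDia : Code := (4, [(0, 1), (0, 2), (1, 2), (1, 3), (2, 3)])
def cP4 : Code := (4, [(0, 1), (1, 2), (2, 3)])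
def cC4 : Code := (4, [(0, 1), (1, 2), (2, 3), (0, 3)])
def cC5 : Code := (5, [(0, 1), (1, 2), (2, 3), (3, 4), (0, 4)])
def cC6 : Code := (6, [(0, 1), (1, 2), (2, 3), (3, 4), (4, 5), (0, 5)])
def cK13 : Code := (4, [(0, 1), (0, 2), (0, 3)])
def cK14 : Code := (5, [(0, 1), (0, 2), (0, 3), (0, 4)])
def cH : Code := (6, [(0, 1), (0, 2), (0, 3), (1, 4), (1, 5)])
def cP6 : Code := (6, [(0, 1), (1, 2), (2, 3), (3, 4), (4, 5)])
def cP2P4 : Code := (6, [(0, 1), (2, 3), (3, 4), (4, 5)])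
def c2P2 : Code := (4, [(0, 1), (2, 3)])
def c3P2 : Code := (6, [(0, 1), (2, 3), (4, 5)])
def c2P3 : Code := (6, [(0, 1), (1, 2), (3, 4), (4, 5)])
def c2P1P4 : Code := (6, [(2, 3), (3, 4), (4, 5)])
def c2P12P2 : Code := (6, [(2, 3), (4, 5)])
def c4P1P2 : Code := (6, [(4, 5)])
def c3P1P2 : Code := (5, [(3, 4)])
def cP1P4 : Code := (5, [(1, 2), (2, 3), (3, 4)])
def c5P1 : Code := (5, [])

def badPairs : List (Code × Code) :=
  [(cK3, cK3), (cK3, cC4), (cK3, cK14), (cK3, cC5), (cK3, cC6), (cK3, cH), (cC4, cC4),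
   (cK3, c3P2), (cK3, c2P1P4), (cK3, c2P12P2), (cK3, c4P1P2), (cC4, c2P2),
   (cK4, c3P1P2), (cK4, cP1P4), (cDia, c5P1),
   (cK3, cP6), (cK3, cP2P4), (cK4, c2P2), (cK3, c2P3),
   (cK4, cK13), (cDia, cK13), (cK13, cC4), (cC4, cP4), (cP4, cP4)]

abbrev Code.g (c : Code) : SimpleGraph (Fin c.1) := gr c.1 c.2

/-- The ordered pair `(A, B)` contains a listed pair. -/
def Bad {α β : Type} (A : SimpleGraph α) (B : SimpleGraph β) : Prop :=
  ∃ p ∈ badPairs, p.1.g.IsIndContained A ∧ p.2.g.IsIndContained B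

end Pool.Agent.Lib.MP_849b2e_co
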