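import Pool.Agent.Lib.MP_849b2e_co.Rules

/-!
Forbidden patterns of the typed base graphs of the unbounded families.  Type masks: `1` is the
root type (any vertex), `2, 4, 8, 16` are the parts `1, 2, 3, 4`.
-/

namespace Pool.Agent.Lib.MP_849b2e_co

def eg (s t : ℕ) : Ax := cl [s, t] [⟨0, 1, true⟩]
def two (s t : ℕ) : Ax := cl [s, t, t] [⟨0, 1, true⟩, ⟨0, 2, true⟩]
def chain (s t : ℕ) : Ax :=
  cl [s, s, t, t] [⟨0, 2, true⟩, ⟨0, 3, false⟩, ⟨1, 2, false⟩, ⟨1, 3, true⟩]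

/-- Subdivided binary trees, typed by the bipartition. -/
def axT2 : List Ax :=
  [eg 2 2, eg 4 4,
   cl [1, 1, 1, 1] [⟨0, 1, true⟩, ⟨0, 3, true⟩, ⟨1, 2, true⟩, ⟨2, 3, true⟩],
   cl [1, 1, 1, 1, 1, 1]
     [⟨0, 1, true⟩, ⟨0, 5, true⟩, ⟨1, 2, true⟩, ⟨2, 3, true⟩, ⟨3, 4, true⟩, ⟨4, 5, true⟩],
   cl [1, 1, 1, 1, 1] [⟨0, 1, true⟩, ⟨0, 2, true⟩, ⟨0, 3, true⟩, ⟨0, 4, true⟩],
   cl [1, 1, 1, 1, 1, 1] [⟨0, 1, true⟩, ⟨0, 2, true⟩, ⟨0, 3, true⟩, ⟨1, 4, true⟩, ⟨1, 5, true⟩]]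

/-- Subdivided binary trees with four colours: parts 1, 2 are the depths `0 mod 3` (left and
right branches), part 3 the depths `1 mod 3`, part 4 the depths `2 mod 3`. -/
def axT4 : List Ax :=
  [eg 6 6, eg 8 8, eg 16 16, two 6 8, two 6 16, two 8 6, two 8 16, two 16 8, two 16 2, two 16 4,
   cl [1, 1, 1] [⟨0, 1, true⟩, ⟨0, 2, true⟩, ⟨1, 2, true⟩]]

/-- `a u` is adjacent to `b v` iff `u` is an ancestor of `v` in a binary tree. -/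
def axL : List Ax :=
  [eg 2 2, eg 4 4,
   cl [2, 2, 4, 4, 4]
     [⟨0, 2, true⟩, ⟨0, 3, true⟩, ⟨0, 4, false⟩, ⟨1, 2, true⟩, ⟨1, 3, false⟩, ⟨1, 4, true⟩]]

/-- Comparability graphs of binary trees. -/
def axQ : List Ax :=
  [cl [1, 1, 1, 1] [⟨0, 1, true⟩, ⟨0, 2, false⟩, ⟨1, 2, true⟩, ⟨1, 3, false⟩, ⟨2, 3, true⟩]]

/-- Line graphs of binary trees. -/
def axLn : List Ax :=
  [cl [1, 1, 1, 1] [⟨0, 1, true⟩, ⟨0, 3, true⟩, ⟨1, 2, true⟩, ⟨2, 3, true⟩],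
   cl [1, 1, 1, 1]
     [⟨0, 1, true⟩, ⟨0, 2, true⟩, ⟨0, 3, true⟩, ⟨1, 2, false⟩, ⟨1, 3, false⟩, ⟨2, 3, false⟩]]

/-- Grid: parts `a`, `b`, `c`. -/
def axG1 : List Ax := [eg 6 6, eg 8 8, chain 2 8, chain 4 8]

/-- Grid with a matching: parts `a`, `b`, `c`, `d`. -/
def axG2 : List Ax :=
  [eg 6 6, eg 8 8, eg 16 16, eg 2 16, eg 4 8, chain 2 8, chain 4 16, two 8 16, two 16 8]

/-- The pattern of `a` does not occur in the graph `E` on `ℕ` with parts given by `τ`. -/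
def ClOK (E : Adj) (τ : ℕ → ℕ) (a : Ax) : Prop :=
  ∀ x : ℕ → ℕ,
    (∀ i < a.ts.length, (a.ts.getD i 0).testBit 0 = true ∨
      (a.ts.getD i 0).testBit (τ (x i)) = true) →
    (∀ i < a.ts.length, ∀ j < a.ts.length, x i = x j → i = j) →
    ¬ ∀ l ∈ a.lits, E (x l.i) (x l.j) = l.b

/-- Some graph on `ℕ` with parts `1, …, k` avoids the patterns in `l` and has finite induced
subgraphs of unbounded width. -/
def Unb (k : ℕ) (l : List Ax) : Prop :=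
  ∃ E : Adj, (∀ u v, E u v = E v u) ∧ ∃ τ : ℕ → ℕ, (∀ v, 1 ≤ τ v ∧ τ v ≤ k) ∧
    (∀ a ∈ l, ClOK E τ a) ∧ ∀ c, ∃ S, ¬ LW E S c

end Pool.Agent.Lib.MP_849b2e_co
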