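import Pool.Agent.Lib.MP_849b2e_co.Graph

/-!
Linear clique-width and order width are bounded on the same classes.
-/

namespace Pool.Agent.Lib.MP_849b2e_co

theorem brg_order {V : Type} {k : ℕ} {T : Set V} {G : SimpleGraph V} {l : V → Fin k}
    (h : Lin k T G l) : (∀ x y, G.Adj x y → y ∈ T) ∧
      ∃ pos : V → ℕ, Set.InjOn pos T ∧ (∃ N, ∀ v ∈ T, pos v < N) ∧
        ∀ i, ∃ f : V → Fin k, ∀ u ∈ T, ∀ v ∈ T, pos u < i → pos v < i → f u = f v →
          l u = l v ∧ ∀ w ∈ T, i ≤ pos w → (G.Adj u w ↔ G.Adj v w) := by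
  classical
  induction h with
  | single v l =>
    refine ⟨by simp, fun _ => 0, by simp, ⟨1, by simp⟩, fun i => ⟨l, ?_⟩⟩
    intro u _ w _ _ _ e
    exact ⟨e, by simp⟩
  | @add S G l v l' _ hv hl ih =>
    obtain ⟨h1, pos, h2, ⟨N, hN⟩, h3⟩ := ih
    have hp : ∀ u ∈ S, Function.update pos v N u = pos u := fun u hu =>
      Function.update_of_ne (by rintro rfl; exact hv hu) _ _
    have hpv : Function.update pos v N v = N := Function.update_self _ _ _
    refine ⟨fun x y a => Set.mem_insert_of_mem _ (h1 x y a), Function.update pos v N, ?_,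
      ⟨N + 1, ?_⟩, fun i => ?_⟩
    · rintro x (rfl | hx) y (rfl | hy) e
      · rfl
      · rw [hpv, hp y hy] at e
        have := hN y hy
        omega
      · rw [hpv, hp x hx] at e
        have := hN x hx
        omega
      · rw [hp x hx, hp y hy] at e
        exact h2 hx hy e
    · rintro x (rfl | hx)
      · rw [hpv]; omega
      · rw [hp x hx]
        have := hN x hx
        omega
    · by_cases hi : i ≤ N
      · obtain ⟨f, hf⟩ := h3 i
        refine ⟨f, ?_⟩
        rintro x (rfl | hx) y hy a b e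
        · rw [hpv] at a; omega
        rcases hy with rfl | hy
        · rw [hpv] at b; omega
        rw [hp x hx] at a
        rw [hp y hy] at b
        obtain ⟨c1, c2⟩ := hf x hx y hy a b e
        refine ⟨by rw [hl x hx, hl y hy, c1], ?_⟩
        rintro w (rfl | hw) d
        · exact ⟨fun g => absurd (h1 _ _ g) hv, fun g => absurd (h1 _ _ g) hv⟩
        · rw [hp w hw] at d
          exact c2 w hw d
      · refine ⟨l', fun x _ y _ _ _ e => ⟨e, ?_⟩⟩
        rintro w (rfl | hw) d
        · rw [hpv] at d; omega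
        · rw [hp w hw] at d
          have := hN w hw
          omega
  | @join S G l a b _ _ ih =>
    obtain ⟨h1, pos, h2, hN, h3⟩ := ih
    refine ⟨?_, pos, h2, hN, fun i => ?_⟩
    · intro x y g
      simp only [SimpleGraph.sup_adj, SimpleGraph.fromRel_adj] at g
      rcases g with g | ⟨_, g | g⟩
      · exact h1 x y g
      · exact g.2.1
      · exact g.1
    · obtain ⟨f, hf⟩ := h3 i
      refine ⟨f, fun x hx y hy p q e => ?_⟩
      obtain ⟨c1, c2⟩ := hf x hx y hy p q e
      refine ⟨c1, fun w hw d => ?_⟩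
      have n1 : x ≠ w := by rintro rfl; omega
      have n2 : y ≠ w := by rintro rfl; omega
      simp only [SimpleGraph.sup_adj, SimpleGraph.fromRel_adj, c2 w hw d, c1, hx, hy, hw, n1, n2,
        ne_eq, not_false_eq_true, true_and]
  | @relabel S G l a b _ ih =>
    obtain ⟨h1, pos, h2, hN, h3⟩ := ih
    refine ⟨h1, pos, h2, hN, fun i => ?_⟩
    obtain ⟨f, hf⟩ := h3 i
    refine ⟨f, fun x hx y hy p q e => ?_⟩
    obtain ⟨c1, c2⟩ := hf x hx y hy p q e
    exact ⟨by simp only [c1], c2⟩

theorem brg_fwd {α β : Type} {H₁ : SimpleGraph α} {H₂ : SimpleGraph β}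
    (h : BoundedLcw H₁ H₂) : BdN H₁ H₂ := by
  classical
  obtain ⟨c, h⟩ := h
  refine ⟨c, fun E hE S n1 n2 => ?_⟩
  rcases S.eq_empty_or_nonempty with rfl | hS
  · exact LW.empty E c
  have : Nonempty {x // x ∈ S} := hS.to_subtype
  let G : SimpleGraph {x // x ∈ S} := SimpleGraph.fromRel fun x y => E x.1 y.1 = true
  have hG : ∀ x y : {x // x ∈ S}, x ≠ y → (E x.1 y.1 = true ↔ G.Adj x y) := by
    intro x y n
    simp only [G, SimpleGraph.fromRel_adj, hE y.1 x.1, or_self, n, ne_eq, not_false_eq_true,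
      true_and]
  have key : ∀ {γ : Type} (H : SimpleGraph γ), H.IsIndContained G → IndIn H E S := by
    rintro γ H ⟨φ⟩
    refine ⟨fun a => (φ a).1, fun a b e => φ.injective (Subtype.ext e), fun a => (φ a).2,
      fun a b n => ?_⟩
    rw [hG _ _ (fun e => n (φ.injective e)), φ.map_adj_iff]
  obtain ⟨l, hl⟩ := h {x // x ∈ S} G (fun a => n1 (key _ a)) (fun a => n2 (key _ a))
  obtain ⟨-, pos, h2, -, h3⟩ := brg_order hl
  refine ⟨fun n => if hn : n ∈ S then pos ⟨n, hn⟩ else 0, fun x hx y hy e => ?_, fun i => ?_⟩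
  · have hx' : x ∈ S := hx
    have hy' : y ∈ S := hy
    simp only [hx', hy', dif_pos] at e
    exact congrArg Subtype.val (h2 (Set.mem_univ _) (Set.mem_univ _) e)
  · obtain ⟨f, hf⟩ := h3 i
    refine ⟨fun n => if hn : n ∈ S then (f ⟨n, hn⟩).val else 0, fun u hu => ?_,
      fun u hu v hv e w hw => ?_⟩
    · have := (Finset.mem_filter.1 hu).1
      simp only [this, dif_pos]
      exact Fin.is_lt _
    · obtain ⟨u1, u2⟩ := Finset.mem_filter.1 hu
      obtain ⟨v1, v2⟩ := Finset.mem_filter.1 hv
      obtain ⟨w1, w2⟩ := Finset.mem_filter.1 hw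
      simp only [u1, v1, w1, dif_pos] at e u2 v2 w2
      have a := (hf ⟨u, u1⟩ (Set.mem_univ _) ⟨v, v1⟩ (Set.mem_univ _) u2 v2 (Fin.ext e)).2
        ⟨w, w1⟩ (Set.mem_univ _) w2
      rw [← hG _ _ (by intro g; rw [g] at u2; omega),
        ← hG _ _ (by intro g; rw [g] at v2; omega)] at a
      exact Bool.eq_iff_iff.2 a

theorem brg_joins {V : Type} {k : ℕ} {T : Set V} {G : SimpleGraph V} {l : V → Fin k}
    (h : Lin k T G l) (a : Fin k) (J : Finset (Fin k)) (ha : a ∉ J) :
    Lin k T (G ⊔ SimpleGraph.fromRel fun x y => x ∈ T ∧ y ∈ T ∧ l x = a ∧ l y ∈ J) l := by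
  induction J using Finset.induction_on with
  | empty =>
    convert h using 1
    ext x y
    simp
  | insert b J _ ih =>
    rw [Finset.mem_insert, not_or] at ha
    convert Lin.join a b (ih ha.2) ha.1 using 1
    ext x y
    simp only [SimpleGraph.sup_adj, SimpleGraph.fromRel_adj, Finset.mem_insert]
    tauto

theorem brg_free {V : Type} {c : ℕ} {T : Set V} {G : SimpleGraph V} {l : V → Fin (c + 1)}
    (h : Lin (c + 1) T G l) (R : V → V → Prop) (hR : Equivalence R)
    (hl : ∀ u ∈ T, ∀ v ∈ T, l u = l v → R u v) (f : V → ℕ) (f1 : ∀ u ∈ T, f u < c)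
    (f2 : ∀ u ∈ T, ∀ v ∈ T, f u = f v → R u v) :
    ∃ (l' : V → Fin (c + 1)) (a : Fin (c + 1)), Lin (c + 1) T G l' ∧ (∀ u ∈ T, l' u ≠ a) ∧
      ∀ u ∈ T, ∀ v ∈ T, l' u = l' v → R u v := by
  by_cases hs : ∀ a, ∃ u ∈ T, l u = a
  · choose r r1 r2 using hs
    obtain ⟨a, b, ab, e⟩ := Fintype.exists_ne_map_eq_of_card_lt
      (fun a => (⟨f (r a), f1 _ (r1 a)⟩ : Fin c)) (by simp)
    have hab : R (r a) (r b) := f2 _ (r1 a) _ (r1 b) (congrArg Fin.val e)
    refine ⟨_, a, Lin.relabel a b h, fun u _ => ?_, fun u hu v hv g => ?_⟩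
    · split
      · exact ab.symm
      · assumption
    · by_cases p : l u = a <;> by_cases q : l v = a <;> simp only [p, q, if_true, if_false] at g
      · exact hl u hu v hv (p.trans q.symm)
      · exact hR.trans (hl u hu _ (r1 a) (p.trans (r2 a).symm))
          (hR.trans hab (hl _ (r1 b) v hv ((r2 b).trans g)))
      · exact hR.trans (hl u hu _ (r1 b) (g.trans (r2 b).symm))
          (hR.trans (hR.symm hab) (hl _ (r1 a) v hv ((r2 a).trans q.symm)))
      · exact hl u hu v hv g
  · push Not at hs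
    obtain ⟨a, ha⟩ := hs
    exact ⟨l, a, h, ha, hl⟩

/-- The edges of `G` between vertices of position less than `i`. -/
def brgG {V : Type} (G : SimpleGraph V) (pos : V → ℕ) (i : ℕ) : SimpleGraph V :=
  G ⊓ SimpleGraph.fromRel fun x y => pos x < i ∧ pos y < i

theorem brgG_adj {V : Type} {G : SimpleGraph V} {pos : V → ℕ} {i : ℕ} {x y : V} :
    (brgG G pos i).Adj x y ↔ G.Adj x y ∧ pos x < i ∧ pos y < i := by
  simp only [brgG, SimpleGraph.inf_adj, SimpleGraph.fromRel_adj]
  constructor
  · rintro ⟨a, _, b | b⟩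
    · exact ⟨a, b⟩
    · exact ⟨a, b.symm⟩
  · rintro ⟨a, b⟩
    exact ⟨a, a.ne, Or.inl b⟩

theorem brg_build {V : Type} {c : ℕ} {G : SimpleGraph V} {pos : V → ℕ}
    (hp : Function.Injective pos)
    (hc : ∀ i, ∃ f : V → ℕ, (∀ u, pos u < i → f u < c) ∧ ∀ u v, pos u < i → pos v < i →
      f u = f v → ∀ w, i ≤ pos w → (G.Adj u w ↔ G.Adj v w)) (i : ℕ) :
    (∃ x, pos x < i) → ∃ l : V → Fin (c + 1), Lin (c + 1) {x | pos x < i} (brgG G pos i) l ∧
      ∀ u v, pos u < i → pos v < i → l u = l v → ∀ w, i ≤ pos w → (G.Adj u w ↔ G.Adj v w) := by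
  classical
  induction i with
  | zero => rintro ⟨x, hx⟩; omega
  | succ i ih =>
    rintro ⟨x0, hx0⟩
    by_cases hv : ∃ v, pos v = i
    · obtain ⟨v, hv⟩ := hv
      have hs : ∀ x, pos x < i + 1 ↔ x = v ∨ pos x < i := by
        intro x
        constructor
        · intro a
          by_cases b : pos x < i
          · exact Or.inr b
          · exact Or.inl (hp (by omega))
        · rintro (rfl | a) <;> omega
      by_cases hne : ∃ x, pos x < i
      · obtain ⟨l0, a1, a2⟩ := ih hne
        obtain ⟨f, f1, f2⟩ := hc i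
        obtain ⟨l, a, b1, b2, b3⟩ := brg_free a1
          (fun u u' => ∀ w, i ≤ pos w → (G.Adj u w ↔ G.Adj u' w))
          ⟨fun _ _ _ => Iff.rfl, fun g w hw => (g w hw).symm,
            fun g g' w hw => (g w hw).trans (g' w hw)⟩
          (fun u hu u' hu' => a2 u u' hu hu') f f1 (fun u hu u' hu' => f2 u u' hu hu')
        have hl : ∀ x, pos x < i → Function.update l v a x = l x := fun x hx =>
          Function.update_of_ne (by rintro rfl; omega) _ _
        have hlv : Function.update l v a v = a := Function.update_self _ _ _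
        have c1 := Lin.add v (Function.update l v a) b1 (by simp [hv]) hl
        have hJ : a ∉ Finset.univ.filter (fun b => ∃ u, pos u < i ∧ l u = b ∧ G.Adj u v) := by
          simp only [Finset.mem_filter, Finset.mem_univ, true_and]
          rintro ⟨u, u1, u2, -⟩
          exact b2 u u1 u2
        have c2 := brg_joins c1 a _ hJ
        have half : ∀ x y, (x ∈ insert v {x | pos x < i} ∧ y ∈ insert v {x | pos x < i} ∧
            Function.update l v a x = a ∧ Function.update l v a y ∈
              Finset.univ.filter (fun b => ∃ u, pos u < i ∧ l u = b ∧ G.Adj u v)) ↔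
            x = v ∧ pos y < i ∧ G.Adj y v := by
          intro x y
          constructor
          · rintro ⟨p1, p2, p3, p4⟩
            have q1 : x = v := by
              rcases p1 with p1 | p1
              · exact p1
              · rw [hl x p1] at p3
                exact absurd p3 (b2 x p1)
            have q2 : pos y < i := by
              rcases p2 with rfl | p2
              · rw [hlv] at p4
                exact absurd p4 hJ
              · exact p2
            rw [hl y q2] at p4
            obtain ⟨u, u1, u2, u3⟩ := (Finset.mem_filter.1 p4).2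
            exact ⟨q1, q2, (b3 u u1 y q2 u2 v hv.ge).1 u3⟩
          · rintro ⟨rfl, q2, q3⟩
            refine ⟨Or.inl rfl, Or.inr q2, hlv, ?_⟩
            rw [hl y q2]
            exact Finset.mem_filter.2 ⟨Finset.mem_univ _, y, q2, rfl, q3⟩
        refine ⟨Function.update l v a, ?_, fun u u' p q e w hw => ?_⟩
        · convert c2 using 1
          · ext x
            exact hs x
          · ext x y
            rw [SimpleGraph.sup_adj, SimpleGraph.fromRel_adj, half, half, brgG_adj, brgG_adj, hs,
              hs]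
            constructor
            · rintro ⟨g, rfl | p, rfl | q⟩
              · exact absurd rfl g.ne
              · exact Or.inr ⟨g.ne, Or.inl ⟨rfl, q, g.symm⟩⟩
              · exact Or.inr ⟨g.ne, Or.inr ⟨rfl, p, g⟩⟩
              · exact Or.inl ⟨g, p, q⟩
            · rintro (⟨g, p, q⟩ | ⟨_, ⟨rfl, p, g⟩ | ⟨rfl, p, g⟩⟩)
              · exact ⟨g, Or.inr p, Or.inr q⟩
              · exact ⟨g.symm, Or.inl rfl, Or.inr p⟩
              · exact ⟨g, Or.inr p, Or.inl rfl⟩
        · rcases (hs u).1 p with rfl | p <;> rcases (hs u').1 q with rfl | q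
          · exact Iff.rfl
          · rw [hlv, hl u' q] at e
            exact absurd e.symm (b2 u' q)
          · rw [hlv, hl u p] at e
            exact absurd e (b2 u p)
          · rw [hl u p, hl u' q] at e
            exact b3 u p u' q e w (by omega)
      · have hs' : ∀ x, pos x < i + 1 ↔ x = v := fun x =>
          (hs x).trans ⟨fun a => a.resolve_right fun b => hne ⟨x, b⟩, Or.inl⟩
        refine ⟨fun _ => 0, ?_, fun u u' p q _ w _ => by rw [(hs' u).1 p, (hs' u').1 q]⟩
        convert Lin.single v (fun _ => (0 : Fin (c + 1))) using 1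
        · ext x
          exact hs' x
        · ext x y
          rw [brgG_adj, hs', hs']
          constructor
          · rintro ⟨g, rfl, rfl⟩
            exact absurd rfl g.ne
          · intro g
            exact absurd g (by simp)
    · have hs : ∀ x, pos x < i + 1 ↔ pos x < i := fun x =>
        ⟨fun a => by have : pos x ≠ i := fun b => hv ⟨x, b⟩; omega, fun a => by omega⟩
      obtain ⟨l, a1, a2⟩ := ih ⟨x0, (hs x0).1 hx0⟩
      refine ⟨l, ?_, fun u u' p q e w hw => a2 u u' ((hs u).1 p) ((hs u').1 q) e w (by omega)⟩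
      convert a1 using 1
      · ext x
        exact hs x
      · ext x y
        rw [brgG_adj, brgG_adj, hs, hs]

theorem brg_bwd {α β : Type} {H₁ : SimpleGraph α} {H₂ : SimpleGraph β}
    (h : BdN H₁ H₂) : BoundedLcw H₁ H₂ := by
  classical
  obtain ⟨c, h⟩ := h
  refine ⟨c + 1, fun V _ _ G n1 n2 => ?_⟩
  obtain ⟨e, he⟩ : ∃ e : V → ℕ, Function.Injective e :=
    ⟨fun x => (Fintype.equivFin V x).val, Fin.val_injective.comp (Fintype.equivFin V).injective⟩
  let E : Adj := fun a b => decide (∃ x y, G.Adj x y ∧ e x = a ∧ e y = b)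
  have hE : ∀ x y, E (e x) (e y) = true ↔ G.Adj x y := by
    intro x y
    simp only [E, decide_eq_true_eq]
    constructor
    · rintro ⟨x', y', g, p, q⟩
      rwa [← he p, ← he q]
    · intro g
      exact ⟨x, y, g, rfl, rfl⟩
  have hsym : ∀ a b, E a b = E b a := by
    intro a b
    simp only [E, decide_eq_decide]
    constructor <;> rintro ⟨x, y, g, p, q⟩ <;> exact ⟨y, x, g.symm, q, p⟩
  have key : ∀ {γ : Type} (H : SimpleGraph γ), IndIn H E (Finset.univ.image e) →
      H.IsIndContained G := by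
    rintro γ H ⟨x, x1, x2, x3⟩
    have : ∀ a, ∃ y, e y = x a := fun a => by simpa using x2 a
    choose y hy using this
    have yi : Function.Injective y := fun a b g => x1 (by rw [← hy, ← hy, g])
    refine ⟨⟨⟨y, yi⟩, fun {a b} => ?_⟩⟩
    by_cases ab : a = b
    · subst ab; simp
    · rw [← x3 a b ab, ← hy, ← hy, hE]
      rfl
  obtain ⟨pos, p1, p2⟩ := h E hsym (Finset.univ.image e) (fun a => n1 (key _ a))
    (fun a => n2 (key _ a))
  have hm : ∀ x, e x ∈ Finset.univ.image e := fun x => Finset.mem_image_of_mem e (Finset.mem_univ x)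
  have hinj : Function.Injective (fun x => pos (e x)) := fun x y g => he (p1 (hm x) (hm y) g)
  have hN : ∀ x, pos (e x) < Finset.univ.sup (fun x => pos (e x)) + 1 := fun x =>
    Nat.lt_succ_of_le (Finset.le_sup (f := fun x => pos (e x)) (Finset.mem_univ x))
  obtain ⟨l, hl, -⟩ := brg_build (c := c) (G := G) hinj (fun i => by
    obtain ⟨f, f1, f2⟩ := p2 i
    refine ⟨fun x => f (e x), fun u hu => f1 _ (Finset.mem_filter.2 ⟨hm u, hu⟩),
      fun u v hu hv g w hw => ?_⟩
    rw [← hE, ← hE, f2 _ (Finset.mem_filter.2 ⟨hm u, hu⟩) _ (Finset.mem_filter.2 ⟨hm v, hv⟩) g _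
      (Finset.mem_filter.2 ⟨hm w, hw⟩)]) _ ⟨Classical.arbitrary V, hN _⟩
  refine ⟨l, ?_⟩
  convert hl using 1
  · ext x
    simpa using hN x
  · ext x y
    rw [brgG_adj]
    exact ⟨fun g => ⟨g, hN x, hN y⟩, fun g => g.1⟩

theorem bounded_iff {α β : Type} (H₁ : SimpleGraph α) (H₂ : SimpleGraph β) :
    BoundedLcw H₁ H₂ ↔ BdN H₁ H₂ := ⟨brg_fwd, brg_bwd⟩

end Pool.Agent.Lib.MP_849b2e_co
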