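import Pool.Agent.Lib.MP_849b2e_co.Sem

/-!
The local refutation checker (program only; soundness is in `ChkSound`).
-/

namespace Pool.Agent.Lib.MP_849b2e_co

/-- Local refutations.  `nil`/`cons` encode lists of subproofs. -/
inductive Pf where
  | C (a em : ℕ)
  | B (u v : ℕ) (c0 c1 : Pf)
  | W (a em : ℕ) (ex oth : List ℕ) (ks : Pf)
  | T (x ev : ℕ) (ks : Pf)
  | Z (u : ℕ)
  | X (u v : ℕ)
  | nil
  | cons (h t : Pf)

/-- Refutations of patterns with type sets. -/
inductive Pt where
  | L (lv : List ℕ) (p : Pf)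
  | D (i : ℕ) (ks : Pt)
  | nil
  | cons (h t : Pt)

def dig (em i : ℕ) : ℕ := Nat.land (Nat.shiftRight em (Nat.mul 7 i)) 127
def rowM (w M u : ℕ) : ℕ := Nat.shiftRight M (Nat.mul w u)
def rowP (P u : ℕ) : ℕ := Nat.shiftRight P (Nat.mul 128 u)
def setM (w M u m : ℕ) : ℕ := Nat.lor M (Nat.shiftLeft m (Nat.mul w u))
def setR (P u m : ℕ) : ℕ := Nat.lor P (Nat.shiftLeft m (Nat.mul 128 u))
def setP (P u v : ℕ) : ℕ :=
  Nat.lor (Nat.lor P (pw (Nat.add (Nat.mul 128 u) v))) (pw (Nat.add (Nat.mul 128 v) u))
noncomputable def known (P u v : ℕ) : Bool :=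
  orb (bit P (Nat.add (Nat.mul 128 u) v)) (bit P (Nat.add (Nat.mul 128 v) u))
noncomputable def sel (b : Bool) (x y : ℕ) : ℕ := Bool.rec y x b

noncomputable def one (f : ℕ → ℕ → ℕ → ℕ → ℕ → Bool) (L : List St) : Bool :=
  List.rec (motive := fun _ => Bool) false
    (fun s t _ => List.rec (motive := fun _ => Bool)
      (St.rec (motive := fun _ => Bool) f s) (fun _ _ _ => false) t) L

/-- Forces `x` and passes it on in a form whose low bits depend on all bits of `x`. -/
noncomputable def forceH (x : ℕ) (f : ℕ → Bool) : Bool :=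
  force (Nat.lor (Nat.shiftLeft x 61) (Nat.mod x 2305843009213693951))
    fun y => f (Nat.shiftRight y 61)

@[simp] theorem forceH_eq (x : ℕ) (f : ℕ → Bool) : forceH x f = f x := by
  unfold forceH
  rw [force_eq]
  congr 1
  have h : x % 2305843009213693951 < 2 ^ 61 :=
    lt_trans (Nat.mod_lt _ (by norm_num)) (by norm_num)
  show ((x <<< 61) ||| (x % 2305843009213693951)) >>> 61 = x
  rw [← Nat.shiftLeft_add_eq_or_of_lt h, Nat.shiftRight_eq_div_pow, Nat.shiftLeft_eq]
  omega

noncomputable def forceSt (s : St) (f : ℕ → ℕ → ℕ → ℕ → ℕ → Bool) : Bool :=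
  St.rec (motive := fun _ => Bool) (fun n M P1 P0 lv =>
    force n fun n => forceH M fun M => forceH P1 fun P1 => forceH P0 fun P0 => force lv fun lv =>
      f n M P1 P0 lv) s

/-- The digits of `em` are distinct live labels of the required types; the continuation gets
the remaining live labels. -/
noncomputable def embK (w M : ℕ) (ts : List ℕ) : ℕ → ℕ → (ℕ → Bool) → Bool :=
  List.rec (motive := fun _ => ℕ → ℕ → (ℕ → Bool) → Bool) (fun _ lv k => k lv)
    (fun S _ ih em lv k => force (Nat.land em 127) fun u =>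
      andb (bit lv u) (andb (meets (rowM w M u) S)
        (force (Nat.xor lv (pw u)) fun lv' => force (Nat.shiftRight em 7) fun em' =>
          ih em' lv' k))) ts

noncomputable def litsOK (P1 P0 em : ℕ) (lits : List Lit) : Bool :=
  allb (fun l => Lit.rec (motive := fun _ => Bool) (fun i j b =>
    force (dig em i) fun u => force (dig em j) fun v => known (sel b P1 P0) u v) l) lits

/-- The label `x` cannot have the type with data `y`. -/
noncomputable def conflict (y : Ty) (w M P1 P0 x : ℕ) : Bool :=
  orb (meets y.dis (rowM w M x))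
    (orb (meets y.p1 (rowP P0 x)) (orb (meets y.p0 (rowP P1 x)) (bit y.xp x)))

noncomputable def litConf (P1 P0 em x : ℕ) (lits : List (ℕ × Bool)) : Bool :=
  anyb (fun l => known (sel l.2 P0 P1) x (dig em l.1)) lits

noncomputable def setLits (b : Bool) (P em x : ℕ) (lits : List (ℕ × Bool)) : ℕ :=
  List.rec (motive := fun _ => ℕ) P
    (fun l _ ih => sel (Bool.xor l.2 b) ih (setP ih x (dig em l.1))) lits

/-- The label `x` gets the type with data `y` and the literals `lits`. -/
noncomputable def refineSt (y : Ty) (w n M P1 P0 lv em x : ℕ) (lits : List (ℕ × Bool)) : St :=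
  ⟨n, setM w M x y.anc, setLits true (setR P1 x y.p1) em x lits,
    setLits false (setR P0 x y.p0) em x lits, lv⟩

noncomputable def wKids (T : Tab) (Γ : Ctx) (n M P1 P0 lv em : ℕ) (oth : List ℕ)
    (con : List Dj) : List St :=
  List.rec (motive := fun _ => List St) []
    (fun d _ r => Bool.rec (motive := fun _ => List St)
      (List.rec (motive := fun _ => List St)
        (refineSt (T.ty.get d.ty) T.w (Nat.succ n) M P1 P0 (Nat.lor lv (pw n)) em n d.lits :: r)
        (fun x _ r' => Bool.rec (motive := fun _ => List St)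
          (refineSt (T.ty.get d.ty) T.w n M P1 P0 lv em x d.lits :: r') r'
          (orb (litConf P1 P0 em x d.lits) (conflict (T.ty.get d.ty) T.w M P1 P0 x))) oth)
      r (bit Γ.dead d.ty)) con

noncomputable def tKids (T : Tab) (Γ : Ctx) (n M P1 P0 lv x : ℕ) (kids : List ℕ) : List St :=
  List.rec (motive := fun _ => List St) []
    (fun t _ r => Bool.rec (motive := fun _ => List St)
      (refineSt (T.ty.get t) T.w n M P1 P0 lv 0 x [] :: r) r
      (orb (bit Γ.dead t) (conflict (T.ty.get t) T.w M P1 P0 x))) kids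

noncomputable def isNil {α : Type} (l : List α) : Bool :=
  List.rec (motive := fun _ => Bool) true (fun _ _ _ => false) l

noncomputable def chk (T : Tab) (Γ : Ctx) (p : Pf) : List St → Bool :=
  Pf.rec (motive := fun _ => List St → Bool)
    (fun a em => one fun _ M P1 P0 lv =>
      Ax.rec (motive := fun _ => Bool) (fun ts lits con _ =>
        andb (bit Γ.axm a) (andb (isNil con)
          (embK T.w M ts em lv fun _ => litsOK P1 P0 em lits))) (T.ax.get a))
    (fun u v _ _ ih0 ih1 => one fun n M P1 P0 lv =>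
      andb (ltb u n) (andb (ltb v n)
        (andb (forceH (setP P0 u v) fun P0' => ih0 [⟨n, M, P1, P0', lv⟩])
          (forceH (setP P1 u v) fun P1' => ih1 [⟨n, M, P1', P0, lv⟩]))))
    (fun a em ex oth _ ih => one fun n M P1 P0 lv =>
      Ax.rec (motive := fun _ => Bool) (fun ts lits con excl =>
        andb (bit Γ.axm a) (andb (ltb n 128) (andb (Nat.ble ex.length excl)
          (andb (allb (bit lv) oth) (andb (litsOK P1 P0 em lits)
            (embK T.w M ts em lv fun rest =>
              force (Nat.lor (Nat.lor (Nat.xor lv rest) (Nat.land lv (mask ex))) (mask oth))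
                fun lv' => ih (wKids T Γ n M P1 P0 lv' em oth con))))))) (T.ax.get a))
    (fun x ev _ ih => one fun n M P1 P0 lv =>
      Ev.rec (motive := fun _ => Bool) (fun par kids excl =>
        andb (bit Γ.evm ev) (andb (bit (rowM T.w M x) par)
          (andb (orb (Nat.beq excl 0)
              (andb (bit lv x) (andb (sub excl lv) (Bool.not (bit excl x)))))
            (ih (tKids T Γ n M P1 P0 lv x kids))))) (T.ev.get ev))
    (fun u => one fun _ M _ _ _ => meets (rowM T.w M u) Γ.dead)
    (fun u v => one fun n _ P1 P0 _ =>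
      andb (ltb u n) (andb (ltb v n) (andb (known P1 u v) (known P0 u v))))
    isNil
    (fun _ _ ihh iht L => List.rec (motive := fun _ => Bool) false
      (fun s L' _ => andb (forceSt s fun n M P1 P0 lv => ihh [⟨n, M, P1, P0, lv⟩]) (iht L')) L)
    p

/-! ### Patterns -/

noncomputable def andL (T : Tab) (f : Ty → ℕ) (l : List ℕ) : ℕ :=
  List.rec (motive := fun _ => ℕ) 0
    (fun t r ih => List.rec (motive := fun _ => ℕ) (f (T.ty.get t))
      (fun _ _ _ => Nat.land (f (T.ty.get t)) ih) r) l

/-- Rows of the pattern vertices, starting from label `u`. -/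
noncomputable def rows (T : Tab) (f : Ty → ℕ) (w : ℕ) (S : List (List ℕ)) : ℕ → ℕ :=
  List.rec (motive := fun _ => ℕ → ℕ) (fun _ => 0)
    (fun l _ ih u => Nat.lor (ih (Nat.succ u)) (Nat.shiftLeft (andL T f l) (Nat.mul w u))) S

/-- The flip between the sets `A` and `B` is constantly `g`. -/
noncomputable def flipIs (F : List (ℕ × ℕ)) (A B : List ℕ) (g : Bool) : Bool :=
  List.rec (motive := fun _ => Bool) (Bool.not g)
    (fun _ _ _ => Bool.rec (motive := fun _ => Bool)
      (allb (fun s => Bool.not (meets (look F s) (mask B))) A)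
      (allb (fun s => sub (mask B) (look F s)) A) g) F

noncomputable def initLits (b : Bool) (np k : ℕ) (p : Pat) (P : ℕ) : ℕ :=
  List.rec (motive := fun _ => ℕ) P
    (fun l _ ih => sel (andb (ltb l.i k) (andb (ltb l.j k)
        (flipIs p.F (p.S.getD l.i []) (p.S.getD l.j []) (Bool.xor l.b b))))
      (setP ih (Nat.add np l.i) (Nat.add np l.j)) ih) p.lits

noncomputable def initPl (b : Bool) (np k : ℕ) (p : Pat) (P : ℕ) : ℕ :=
  List.rec (motive := fun _ => ℕ) P
    (fun l _ ih => sel (andb (ltb l.i k) (andb (ltb l.j np) (Bool.not (Bool.xor l.b b))))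
      (setP ih (Nat.add np l.i) l.j) ih) p.pl

/-- No vertex of type `t` is the parameter `q`. -/
noncomputable def notPar (T : Tab) (Γ : Ctx) (t q : ℕ) : Bool :=
  orb (bit (T.ty.get t).xp q) (meets (T.ty.get t).dis (rowM T.w Γ.st.M q))

noncomputable def initOK (T : Tab) (Γ : Ctx) (p : Pat) (lv : List ℕ) : Bool :=
  andb (Nat.ble (Nat.add Γ.st.n p.S.length) 128)
    (andb (allb (bit Γ.st.live) lv)
      (allb (allb fun t => andb (ltb t Γ.nt) (allb (notPar T Γ t) lv)) p.S))

noncomputable def initSt (T : Tab) (Γ : Ctx) (p : Pat) (lv : List ℕ) : St :=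
  ⟨Nat.add Γ.st.n p.S.length,
   Nat.lor Γ.st.M (rows T Ty.anc T.w p.S Γ.st.n),
   initPl true Γ.st.n p.S.length p (initLits true Γ.st.n p.S.length p
     (Nat.lor Γ.st.P1 (rows T Ty.p1 128 p.S Γ.st.n))),
   initPl false Γ.st.n p.S.length p (initLits false Γ.st.n p.S.length p
     (Nat.lor Γ.st.P0 (rows T Ty.p0 128 p.S Γ.st.n))),
   Nat.lor (mask lv) (Nat.shiftLeft (Nat.sub (pw p.S.length) 1) Γ.st.n)⟩

/-- Split the type set of the pattern vertex `i`. -/
def splitP (i : ℕ) (p : Pat) : List Pat :=
  if i < p.S.length then (p.S.getD i []).map fun t => ⟨p.S.set i [t], p.lits, p.pl, p.F⟩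
  else [p]

noncomputable def oneP (f : Pat → Bool) (L : List Pat) : Bool :=
  List.rec (motive := fun _ => Bool) false
    (fun s t _ => List.rec (motive := fun _ => Bool) (f s) (fun _ _ _ => false) t) L

noncomputable def chkPt (T : Tab) (Γ : Ctx) (c : Pt) : List Pat → Bool :=
  Pt.rec (motive := fun _ => List Pat → Bool)
    (fun lv q => oneP fun p => andb (initOK T Γ p lv)
      (forceSt (initSt T Γ p lv) fun n M P1 P0 l => chk T Γ q [⟨n, M, P1, P0, l⟩]))
    (fun i _ ih => oneP fun p => ih (splitP i p))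
    isNil
    (fun _ _ ihh iht L => List.rec (motive := fun _ => Bool) false
      (fun s L' _ => andb (ihh [s]) (iht L')) L)
    c

end Pool.Agent.Lib.MP_849b2e_co
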