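import Pool.Agent.Lib.MP_849b2e_co.Chk

/-!
Soundness of the local checker `chk`.
-/

namespace Pool.Agent.Lib.MP_849b2e_co

/-- The state `s` cannot be realised. -/
def RefS (T : Tab) (Γ : Ctx) (s : St) : Prop :=
  ∀ (e : Env) (φ : ℕ → ℕ), Holds T Γ e → Γ.st.n ≤ s.n → (∀ p < Γ.st.n, φ p = e.P p) →
    LS T.w Γ.nt e φ s → False

theorem cs_dig_lt (em i : ℕ) : dig em i < 128 := by
  have : dig em i = (em >>> (7 * i)) &&& 127 := rfl
  rw [this]
  exact lt_of_le_of_lt Nat.and_le_right (by norm_num)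

theorem cs_dig_zero (em : ℕ) : Nat.land em 127 = dig em 0 := rfl

theorem cs_dig_succ (em i : ℕ) : dig (Nat.shiftRight em 7) i = dig em (i + 1) := by
  have h1 : dig (Nat.shiftRight em 7) i = ((em >>> 7) >>> (7 * i)) &&& 127 := rfl
  have h2 : dig em (i + 1) = (em >>> (7 * (i + 1))) &&& 127 := rfl
  rw [h1, h2, ← Nat.shiftRight_add, show 7 + 7 * i = 7 * (i + 1) by ring]

theorem cs_rowM (w M u t : ℕ) : (rowM w M u).testBit t = M.testBit (w * u + t) := by
  have : rowM w M u = M >>> (w * u) := rfl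
  rw [this, Nat.testBit_shiftRight]

theorem cs_rowP (P u t : ℕ) : (rowP P u).testBit t = P.testBit (128 * u + t) := by
  have : rowP P u = P >>> (128 * u) := rfl
  rw [this, Nat.testBit_shiftRight]

theorem cs_shift {w m x u t : ℕ} (hm : ∀ s, m.testBit s = true → s < w) (ht : t < w)
    (h : (m <<< (w * x)).testBit (w * u + t) = true) : u = x ∧ m.testBit t = true := by
  rw [Nat.testBit_shiftLeft, Bool.and_eq_true, decide_eq_true_eq] at h
  obtain ⟨h1, h2⟩ := h
  have h3 := hm _ h2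
  have hux : u = x := by
    rcases lt_trichotomy u x with c | c | c
    · have := Nat.mul_le_mul_left w (show u + 1 ≤ x from c)
      rw [Nat.mul_succ] at this
      omega
    · exact c
    · have := Nat.mul_le_mul_left w (show x + 1 ≤ u from c)
      rw [Nat.mul_succ] at this
      omega
  subst hux
  rw [Nat.add_sub_cancel_left] at h2
  exact ⟨rfl, h2⟩

/-- The bits of `P` record true adjacency values `b`. -/
def cs_PG (e : Env) (φ : ℕ → ℕ) (n : ℕ) (b : Bool) (P : ℕ) : Prop :=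
  ∀ u v, v < 128 → P.testBit (128 * u + v) = true → u < n ∧ v < n ∧ e.E (φ u) (φ v) = b

theorem cs_setP {e : Env} {φ : ℕ → ℕ} {n : ℕ} {b : Bool} {P u v : ℕ} (h : cs_PG e φ n b P)
    (hn : n ≤ 128) (hu : u < n) (hv : v < n) (hE : e.E (φ u) (φ v) = b) :
    cs_PG e φ n b (setP P u v) := by
  intro u' v' hv' hb
  have e1 : setP P u v = (P ||| pw (128 * u + v)) ||| pw (128 * v + u) := rfl
  rw [e1, Nat.testBit_or, Nat.testBit_or, testBit_pw, testBit_pw] at hb
  simp only [Bool.or_eq_true, decide_eq_true_eq] at hb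
  rcases hb with (hb | hb) | hb
  · exact h u' v' hv' hb
  · obtain ⟨rfl, rfl⟩ : u = u' ∧ v = v' := by omega
    exact ⟨hu, hv, hE⟩
  · obtain ⟨rfl, rfl⟩ : v = u' ∧ u = v' := by omega
    exact ⟨hv, hu, (e.symm _ _).trans hE⟩

theorem cs_setR {e : Env} {φ : ℕ → ℕ} {n : ℕ} {b : Bool} {P x m : ℕ} (h : cs_PG e φ n b P)
    (hn : n ≤ 128) (hx : x < n)
    (hm : ∀ p, m.testBit p = true → p < n ∧ e.E (φ x) (φ p) = b) :
    cs_PG e φ n b (setR P x m) := by
  intro u v hv hb
  have e1 : setR P x m = P ||| (m <<< (128 * x)) := rfl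
  rw [e1, Nat.testBit_or, Bool.or_eq_true] at hb
  rcases hb with hb | hb
  · exact h u v hv hb
  · obtain ⟨rfl, h2⟩ := cs_shift (fun s hs => lt_of_lt_of_le (hm s hs).1 hn) hv hb
    exact ⟨hx, (hm v h2).1, (hm v h2).2⟩

theorem cs_setLits {e : Env} {φ : ℕ → ℕ} {n : ℕ} {b : Bool} {P em x : ℕ} (h : cs_PG e φ n b P)
    (hn : n ≤ 128) (hx : x < n) (lits : List (ℕ × Bool))
    (hl : ∀ l ∈ lits, dig em l.1 < n ∧ e.E (φ x) (φ (dig em l.1)) = l.2) :
    cs_PG e φ n b (setLits b P em x lits) := by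
  induction lits with
  | nil => exact h
  | cons l r ih =>
    have e1 : setLits b P em x (l :: r) = sel (Bool.xor l.2 b) (setLits b P em x r)
      (setP (setLits b P em x r) x (dig em l.1)) := rfl
    have ih' := ih fun l' hl' => hl l' (List.mem_cons_of_mem _ hl')
    have h1 := hl l List.mem_cons_self
    rw [e1]
    cases hc : Bool.xor l.2 b
    · have : l.2 = b := by
        revert hc
        cases l.2 <;> cases b <;> simp
      exact cs_setP ih' hn hx h1.1 (h1.2.trans this)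
    · exact ih'

theorem cs_known {e : Env} {φ : ℕ → ℕ} {n : ℕ} {b : Bool} {P u v : ℕ} (h : cs_PG e φ n b P)
    (hu : u < 128) (hv : v < 128) (hk : known P u v = true) : e.E (φ u) (φ v) = b := by
  have e1 : known P u v = orb (bit P (128 * u + v)) (bit P (128 * v + u)) := rfl
  rw [e1, orb_eq, bit_eq, bit_eq, Bool.or_eq_true] at hk
  rcases hk with hk | hk
  · exact (h u v hv hk).2.2
  · exact (e.symm _ _).trans (h v u hu hk).2.2

theorem cs_refine {T : Tab} {Γ : Ctx} {e : Env} {φ : ℕ → ℕ} (H : Holds T Γ e)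
    {n M P1 P0 lv em x t : ℕ} {lits : List (ℕ × Bool)} (hn : Γ.st.n ≤ n)
    (hφ : ∀ p < Γ.st.n, φ p = e.P p) (h : LS T.w Γ.nt e φ ⟨n, M, P1, P0, lv⟩) (hx : x < n)
    (ht : t < Γ.nt) (hxt : φ x ∈ e.U t)
    (hl : ∀ l ∈ lits, dig em l.1 < n ∧ e.E (φ x) (φ (dig em l.1)) = l.2) :
    LS T.w Γ.nt e φ (refineSt (T.ty.get t) T.w n M P1 P0 lv em x lits) := by
  obtain ⟨a1, _, a3, a4, _⟩ := H.ty t ht _ hxt
  have hn' : n ≤ 128 := h.n
  refine ⟨h.n, ?_, ?_, ?_, h.live, h.inj⟩
  · intro u s hs hb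
    have e1 : (refineSt (T.ty.get t) T.w n M P1 P0 lv em x lits).M =
      M ||| ((T.ty.get t).anc <<< (T.w * x)) := rfl
    rw [e1, Nat.testBit_or, Bool.or_eq_true] at hb
    rcases hb with hb | hb
    · exact h.m u s hs hb
    · obtain ⟨rfl, h2⟩ := cs_shift (fun s hs => lt_of_lt_of_le (a1 s hs).1 H.ntw) hs hb
      exact ⟨hx, (a1 s h2).1, (a1 s h2).2⟩
  · refine cs_setLits (cs_setR h.p1 hn' hx fun p hp => ?_) hn' hx lits hl
    have := a3 p hp
    exact ⟨lt_of_lt_of_le this.1 hn, by rw [hφ p this.1]; exact this.2⟩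
  · refine cs_setLits (cs_setR h.p0 hn' hx fun p hp => ?_) hn' hx lits hl
    have := a4 p hp
    exact ⟨lt_of_lt_of_le this.1 hn, by rw [hφ p this.1]; exact this.2⟩

theorem cs_conflict {T : Tab} {Γ : Ctx} {e : Env} {φ : ℕ → ℕ} (H : Holds T Γ e)
    {n M P1 P0 lv x t : ℕ} (hn : Γ.st.n ≤ n)
    (hφ : ∀ p < Γ.st.n, φ p = e.P p) (h : LS T.w Γ.nt e φ ⟨n, M, P1, P0, lv⟩)
    (ht : t < Γ.nt) (hxt : φ x ∈ e.U t) : conflict (T.ty.get t) T.w M P1 P0 x = false := by
  obtain ⟨_, a2, a3, a4, a5⟩ := H.ty t ht _ hxt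
  have hn' : n ≤ 128 := h.n
  rw [← Bool.not_eq_true]
  intro hc
  unfold conflict at hc
  simp only [orb_eq, Bool.or_eq_true, meets_iff, bit_eq, cs_rowM, cs_rowP] at hc
  rcases hc with ⟨s, h1, h2⟩ | ⟨p, h1, h2⟩ | ⟨p, h1, h2⟩ | h1
  · exact (a2 s h1).2 (h.m x s (lt_of_lt_of_le (a2 s h1).1 H.ntw) h2).2.2
  · have b1 := a3 p h1
    have b2 := (h.p0 x p (by omega) h2).2.2
    rw [hφ p b1.1, b1.2] at b2
    exact Bool.noConfusion b2
  · have b1 := a4 p h1
    have b2 := (h.p1 x p (by omega) h2).2.2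
    rw [hφ p b1.1, b1.2] at b2
    exact Bool.noConfusion b2
  · exact (a5 x h1).2 (hφ x (a5 x h1).1)

theorem cs_litConf {w nt : ℕ} {e : Env} {φ : ℕ → ℕ} {n M P1 P0 lv em x : ℕ}
    {lits : List (ℕ × Bool)} (h : LS w nt e φ ⟨n, M, P1, P0, lv⟩) (hx : x < 128)
    (hl : ∀ l ∈ lits, e.E (φ x) (φ (dig em l.1)) = l.2) : litConf P1 P0 em x lits = false := by
  rw [← Bool.not_eq_true]
  intro hc
  unfold litConf at hc
  rw [anyb_eq, List.any_eq_true] at hc
  obtain ⟨l, h1, h2⟩ := hc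
  have h3 := hl l h1
  cases hb : l.2
  · rw [hb] at h2 h3
    have := cs_known (b := true) h.p1 hx (cs_dig_lt em l.1) h2
    rw [h3] at this
    exact Bool.noConfusion this
  · rw [hb] at h2 h3
    have := cs_known (b := false) h.p0 hx (cs_dig_lt em l.1) h2
    rw [h3] at this
    exact Bool.noConfusion this

theorem cs_litsOK {w nt : ℕ} {e : Env} {φ : ℕ → ℕ} {n M P1 P0 lv em : ℕ} {lits : List Lit}
    (h : LS w nt e φ ⟨n, M, P1, P0, lv⟩) (hc : litsOK P1 P0 em lits = true) :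
    ∀ l ∈ lits, e.E (φ (dig em l.i)) (φ (dig em l.j)) = l.b := by
  unfold litsOK at hc
  rw [allb_eq, List.all_eq_true] at hc
  rintro ⟨i, j, b⟩ hl
  have h1 : (force (dig em i) fun u => force (dig em j) fun v => known (sel b P1 P0) u v) = true :=
    hc _ hl
  rw [force_eq, force_eq] at h1
  cases b
  · exact cs_known (b := false) h.p0 (cs_dig_lt _ _) (cs_dig_lt _ _) h1
  · exact cs_known (b := true) h.p1 (cs_dig_lt _ _) (cs_dig_lt _ _) h1

theorem cs_embK (w M : ℕ) (k : ℕ → Bool) (ts : List ℕ) : ∀ em lv, embK w M ts em lv k = true →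
    ∃ rest, k rest = true ∧
      (∀ i < ts.length, lv.testBit (dig em i) = true ∧
        meets (rowM w M (dig em i)) (ts.getD i 0) = true) ∧
      (∀ i < ts.length, ∀ j < ts.length, dig em i = dig em j → i = j) ∧
      ∀ u, rest.testBit u = true ↔ lv.testBit u = true ∧ ∀ i < ts.length, u ≠ dig em i := by
  induction ts with
  | nil =>
    intro em lv h
    exact ⟨lv, h, by simp, by simp, by simp⟩
  | cons S r ih =>
    intro em lv h
    have e1 : embK w M (S :: r) em lv k = force (Nat.land em 127) fun u =>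
      andb (bit lv u) (andb (meets (rowM w M u) S)
        (force (Nat.xor lv (pw u)) fun lv' => force (Nat.shiftRight em 7) fun em' =>
          embK w M r em' lv' k)) := rfl
    rw [e1, force_eq, force_eq, force_eq, andb_eq, andb_eq, Bool.and_eq_true, Bool.and_eq_true,
      bit_eq, cs_dig_zero] at h
    obtain ⟨h1, h2, h3⟩ := h
    obtain ⟨rest, a1, a2, a3, a4⟩ := ih _ _ h3
    have hx : ∀ u, (Nat.xor lv (pw (dig em 0))).testBit u = true ↔
        lv.testBit u = true ∧ u ≠ dig em 0 := by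
      intro u
      rw [xor_eq, Nat.testBit_xor, testBit_pw]
      by_cases c : dig em 0 = u
      · subst c
        simp [h1]
      · simp [c, Ne.symm c]
    simp only [cs_dig_succ, hx] at a2 a3 a4
    refine ⟨rest, a1, ?_, ?_, ?_⟩
    · intro i hi
      cases i with
      | zero => exact ⟨h1, h2⟩
      | succ i =>
        have := a2 i (by simpa using hi)
        exact ⟨this.1.1, this.2⟩
    · intro i hi j hj hij
      cases i with
      | zero =>
        cases j with
        | zero => rfl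
        | succ j => exact absurd hij.symm (a2 j (by simpa using hj)).1.2
      | succ i =>
        cases j with
        | zero => exact absurd hij (a2 i (by simpa using hi)).1.2
        | succ j => rw [a3 i (by simpa using hi) j (by simpa using hj) hij]
    · intro u
      rw [a4]
      constructor
      · rintro ⟨⟨b1, b2⟩, b3⟩
        refine ⟨b1, fun i hi => ?_⟩
        cases i with
        | zero => exact b2
        | succ i => exact b3 i (by simpa using hi)
      · rintro ⟨b1, b2⟩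
        exact ⟨⟨b1, b2 0 (by simp)⟩, fun i hi => b2 (i + 1) (by simpa using hi)⟩

theorem cs_emb {T : Tab} {Γ : Ctx} {e : Env} {φ : ℕ → ℕ} (H : Holds T Γ e)
    {n M P1 P0 lv em : ℕ} {a : Ax} (hwf : a.WF Γ.nt) (h : LS T.w Γ.nt e φ ⟨n, M, P1, P0, lv⟩)
    (h1 : ∀ i < a.ts.length, lv.testBit (dig em i) = true ∧
      meets (rowM T.w M (dig em i)) (a.ts.getD i 0) = true)
    (h2 : ∀ i < a.ts.length, ∀ j < a.ts.length, dig em i = dig em j → i = j)
    (h3 : litsOK P1 P0 em a.lits = true) : Emb e a (fun i => φ (dig em i)) := by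
  refine ⟨fun i hi => ?_, fun i hi j hj hij => ?_, cs_litsOK h h3⟩
  · obtain ⟨t, b1, b2⟩ := meets_iff.1 (h1 i hi).2
    rw [cs_rowM] at b1
    have hm : a.ts.getD i 0 ∈ a.ts := by
      rw [List.getD_eq_getElem _ _ hi]
      exact List.getElem_mem hi
    exact ⟨t, b2, (h.m _ t (lt_of_lt_of_le (hwf.1 _ hm t b2) H.ntw) b1).2.2⟩
  · exact h2 i hi j hj (h.inj _ _ (h1 i hi).1 (h1 j hj).1 hij)

theorem cs_one {f : ℕ → ℕ → ℕ → ℕ → ℕ → Bool} {L : List St} (h : one f L = true) :
    ∃ n M P1 P0 lv, L = [⟨n, M, P1, P0, lv⟩] ∧ f n M P1 P0 lv = true := by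
  rcases L with _ | ⟨⟨n, M, P1, P0, lv⟩, _ | ⟨s, t⟩⟩
  · exact Bool.noConfusion h
  · exact ⟨n, M, P1, P0, lv, rfl, h⟩
  · exact Bool.noConfusion h

theorem cs_isNil {α : Type} {l : List α} (h : isNil l = true) : l = [] := by
  cases l with
  | nil => rfl
  | cons a r => exact Bool.noConfusion h

theorem cs_tKids (T : Tab) (Γ : Ctx) (n M P1 P0 lv x : ℕ) (kids : List ℕ) {t : ℕ}
    (ht : t ∈ kids) (h1 : Γ.dead.testBit t = false)
    (h2 : conflict (T.ty.get t) T.w M P1 P0 x = false) :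
    refineSt (T.ty.get t) T.w n M P1 P0 lv 0 x [] ∈ tKids T Γ n M P1 P0 lv x kids := by
  induction kids with
  | nil => cases ht
  | cons k r ih =>
    have e1 : tKids T Γ n M P1 P0 lv x (k :: r) = Bool.rec (motive := fun _ => List St)
      (refineSt (T.ty.get k) T.w n M P1 P0 lv 0 x [] :: tKids T Γ n M P1 P0 lv x r)
      (tKids T Γ n M P1 P0 lv x r)
      (orb (bit Γ.dead k) (conflict (T.ty.get k) T.w M P1 P0 x)) := rfl
    rw [e1]
    rcases List.mem_cons.1 ht with rfl | ht'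
    · rw [bit_eq, h1, h2]
      exact List.mem_cons_self
    · cases orb (bit Γ.dead k) (conflict (T.ty.get k) T.w M P1 P0 x)
      · exact List.mem_cons_of_mem _ (ih ht')
      · exact ih ht'

/-- The inner loop of `wKids`. -/
noncomputable def cs_inner (f : ℕ → St) (g : ℕ → Bool) (base : List St) (oth : List ℕ) :
    List St :=
  List.rec (motive := fun _ => List St) base
    (fun x _ r' => Bool.rec (motive := fun _ => List St) (f x :: r') r' (g x)) oth

theorem cs_inner_mem (f : ℕ → St) (g : ℕ → Bool) (base : List St) (oth : List ℕ) :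
    (∀ s ∈ base, s ∈ cs_inner f g base oth) ∧
      ∀ x ∈ oth, g x = false → f x ∈ cs_inner f g base oth := by
  induction oth with
  | nil => exact ⟨fun s hs => hs, fun x hx => by cases hx⟩
  | cons y r ih =>
    have e1 : cs_inner f g base (y :: r) = Bool.rec (motive := fun _ => List St)
      (f y :: cs_inner f g base r) (cs_inner f g base r) (g y) := rfl
    have hsub : ∀ s ∈ cs_inner f g base r, s ∈ cs_inner f g base (y :: r) := by
      intro s hs
      rw [e1]
      cases g y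
      · exact List.mem_cons_of_mem _ hs
      · exact hs
    refine ⟨fun s hs => hsub s (ih.1 s hs), fun x hx hg => ?_⟩
    rcases List.mem_cons.1 hx with rfl | hx'
    · rw [e1, hg]
      exact List.mem_cons_self
    · exact hsub _ (ih.2 x hx' hg)

theorem cs_wKids (T : Tab) (Γ : Ctx) (n M P1 P0 lv em : ℕ) (oth : List ℕ) (con : List Dj)
    {d : Dj} (hd : d ∈ con) (h1 : Γ.dead.testBit d.ty = false) :
    refineSt (T.ty.get d.ty) T.w (Nat.succ n) M P1 P0 (Nat.lor lv (pw n)) em n d.lits ∈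
        wKids T Γ n M P1 P0 lv em oth con ∧
      ∀ x ∈ oth, litConf P1 P0 em x d.lits = false →
        conflict (T.ty.get d.ty) T.w M P1 P0 x = false →
        refineSt (T.ty.get d.ty) T.w n M P1 P0 lv em x d.lits ∈
          wKids T Γ n M P1 P0 lv em oth con := by
  induction con with
  | nil => cases hd
  | cons c r ih =>
    have e1 : wKids T Γ n M P1 P0 lv em oth (c :: r) = Bool.rec (motive := fun _ => List St)
      (cs_inner (fun x => refineSt (T.ty.get c.ty) T.w n M P1 P0 lv em x c.lits)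
        (fun x => orb (litConf P1 P0 em x c.lits) (conflict (T.ty.get c.ty) T.w M P1 P0 x))
        (refineSt (T.ty.get c.ty) T.w (Nat.succ n) M P1 P0 (Nat.lor lv (pw n)) em n c.lits ::
          wKids T Γ n M P1 P0 lv em oth r) oth)
      (wKids T Γ n M P1 P0 lv em oth r) (bit Γ.dead c.ty) := rfl
    rcases List.mem_cons.1 hd with rfl | hd'
    · rw [e1, bit_eq, h1]
      refine ⟨(cs_inner_mem _ _ _ _).1 _ List.mem_cons_self, fun x hx a1 a2 => ?_⟩
      exact (cs_inner_mem _ _ _ _).2 x hx (by rw [a1, a2]; rfl)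
    · have hsub : ∀ s ∈ wKids T Γ n M P1 P0 lv em oth r,
          s ∈ wKids T Γ n M P1 P0 lv em oth (c :: r) := by
        intro s hs
        rw [e1]
        cases bit Γ.dead c.ty
        · exact (cs_inner_mem _ _ _ _).1 _ (List.mem_cons_of_mem _ hs)
        · exact hs
      exact ⟨hsub _ (ih hd').1, fun x hx a1 a2 => hsub _ ((ih hd').2 x hx a1 a2)⟩

theorem cs_dead {T : Tab} {Γ : Ctx} {e : Env} (H : Holds T Γ e) {t v : ℕ} (hv : v ∈ e.U t) :
    Γ.dead.testBit t = false := by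
  rw [← Bool.not_eq_true]
  intro h
  rw [(H.dead t h).2] at hv
  exact Finset.notMem_empty _ hv

theorem cs_live {w nt : ℕ} {e : Env} {φ : ℕ → ℕ} {n M P1 P0 lv lv' : ℕ}
    (h : LS w nt e φ ⟨n, M, P1, P0, lv⟩) (hl : ∀ u, lv'.testBit u = true → lv.testBit u = true) :
    LS w nt e φ ⟨n, M, P1, P0, lv'⟩ :=
  ⟨h.n, h.m, h.p1, h.p0, fun u hu => h.live u (hl u hu),
    fun u v hu hv => h.inj u v (hl u hu) (hl v hv)⟩

theorem cs_new {w nt : ℕ} {e : Env} {φ : ℕ → ℕ} {n M P1 P0 lv z : ℕ}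
    (h : LS w nt e φ ⟨n, M, P1, P0, lv⟩) (hn : n < 128)
    (hz : ∀ u, lv.testBit u = true → φ u ≠ z) :
    LS w nt e (Function.update φ n z) ⟨Nat.succ n, M, P1, P0, Nat.lor lv (pw n)⟩ := by
  have hup : ∀ u, u < n → Function.update φ n z u = φ u := fun u hu =>
    Function.update_of_ne hu.ne _ _
  have hl : ∀ u, (Nat.lor lv (pw n)).testBit u = true → lv.testBit u = true ∨ u = n := by
    intro u hu
    rw [lor_eq, Nat.testBit_or, testBit_pw, Bool.or_eq_true, decide_eq_true_eq] at hu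
    exact hu.imp id Eq.symm
  refine ⟨hn, fun u t ht hb => ?_, fun u v hv hb => ?_, fun u v hv hb => ?_, fun u hu => ?_,
    fun u v hu hv huv => ?_⟩
  · obtain ⟨a1, a2, a3⟩ := h.m u t ht hb
    exact ⟨Nat.lt_succ_of_lt a1, a2, by rw [hup u a1]; exact a3⟩
  · obtain ⟨a1, a2, a3⟩ := h.p1 u v hv hb
    exact ⟨Nat.lt_succ_of_lt a1, Nat.lt_succ_of_lt a2, by rw [hup u a1, hup v a2]; exact a3⟩
  · obtain ⟨a1, a2, a3⟩ := h.p0 u v hv hb
    exact ⟨Nat.lt_succ_of_lt a1, Nat.lt_succ_of_lt a2, by rw [hup u a1, hup v a2]; exact a3⟩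
  · rcases hl u hu with c | c
    · exact Nat.lt_succ_of_lt (h.live u c)
    · rw [c]
      exact Nat.lt_succ_self n
  · rcases hl u hu with c | c <;> rcases hl v hv with c' | c'
    · rw [hup u (h.live u c), hup v (h.live v c')] at huv
      exact h.inj u v c c' huv
    · rw [hup u (h.live u c), c', Function.update_self] at huv
      exact absurd huv (hz u c)
    · rw [hup v (h.live v c'), c, Function.update_self] at huv
      exact absurd huv.symm (hz v c')
    · rw [c, c']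

theorem cs_W {T : Tab} {Γ : Ctx} {n M P1 P0 lv em : ℕ} {ex oth : List ℕ} {a : Ax}
    {k : List St → Bool} (ih : ∀ L, k L = true → ∀ s ∈ L, RefS T Γ s)
    (ha : ∀ e, Holds T Γ e → a.WF Γ.nt ∧ AxHolds e a) (hn : n < 128) (hex : ex.length ≤ a.excl)
    (hoth : ∀ x ∈ oth, lv.testBit x = true) (hl : litsOK P1 P0 em a.lits = true)
    (hk : embK T.w M a.ts em lv (fun rest =>
      force (Nat.lor (Nat.lor (Nat.xor lv rest) (Nat.land lv (mask ex))) (mask oth))
        fun lv' => k (wKids T Γ n M P1 P0 lv' em oth a.con)) = true) :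
    RefS T Γ ⟨n, M, P1, P0, lv⟩ := by
  intro e φ H hnp hφ h
  obtain ⟨hwf, hax⟩ := ha e H
  obtain ⟨rest, a1, a2, a3, a4⟩ := cs_embK _ _ _ _ _ _ hk
  rw [force_eq] at a1
  set lv' := Nat.lor (Nat.lor (Nat.xor lv rest) (Nat.land lv (mask ex))) (mask oth) with hlv'
  have hlv : ∀ u, lv'.testBit u = true →
      lv.testBit u = true ∧ ((∃ i < a.ts.length, u = dig em i) ∨ u ∈ ex ∨ u ∈ oth) := by
    intro u hu
    rw [hlv', lor_eq, lor_eq, xor_eq, land_eq, Nat.testBit_or, Nat.testBit_or, Nat.testBit_xor,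
      Nat.testBit_and, testBit_mask, testBit_mask] at hu
    simp only [Bool.or_eq_true, Bool.and_eq_true, decide_eq_true_eq] at hu
    rcases hu with (c | c) | c
    · have b1 := a4 u
      cases hr : rest.testBit u
      · rw [hr, Bool.xor_false] at c
        rw [hr] at b1
        refine ⟨c, Or.inl ?_⟩
        by_contra b2
        exact Bool.noConfusion (b1.2 ⟨c, fun i hi hu => b2 ⟨i, hi, hu⟩⟩)
      · rw [hr, (b1.1 hr).1] at c
        exact Bool.noConfusion c
    · exact ⟨c.1, Or.inr (Or.inl c.2)⟩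
    · exact ⟨hoth u c, Or.inr (Or.inr c)⟩
  have h' := cs_live h (fun u hu => (hlv u hu).1)
  obtain ⟨z, z1, z2, d, hd, z3, z4⟩ := hax _ (cs_emb H hwf h a2 a3 hl) (ex.toFinset.image φ)
    (Finset.card_image_le.trans ((List.toFinset_card_le ex).trans hex))
  obtain ⟨w1, w2⟩ := cs_wKids T Γ n M P1 P0 lv' em oth a.con hd (cs_dead H z3)
  have hdl : ∀ l ∈ d.lits, dig em l.1 < n := fun l hl' =>
    h.live _ (a2 _ ((hwf.2 d hd).2 l hl')).1
  by_cases c : ∃ x ∈ oth, φ x = z
  · obtain ⟨x, hx, rfl⟩ := c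
    have hxn : x < n := h.live x (hoth x hx)
    have m := w2 x hx (cs_litConf h (by omega) z4) (cs_conflict H hnp hφ h (hwf.2 d hd).1 z3)
    exact ih _ a1 _ m e φ H hnp hφ
      (cs_refine H hnp hφ h' hxn (hwf.2 d hd).1 z3 fun l hl' => ⟨hdl l hl', z4 l hl'⟩)
  · have hnp' : Γ.st.n ≤ n := hnp
    have h'' := cs_new (z := z) h' hn (by
      intro u hu hz
      rcases (hlv u hu).2 with ⟨i, hi, rfl⟩ | b | b
      · exact z2 i hi hz.symm
      · exact z1 (Finset.mem_image.2 ⟨u, List.mem_toFinset.2 b, hz⟩)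
      · exact c ⟨u, b, hz⟩)
    have hφ' : ∀ p < Γ.st.n, Function.update φ n z p = e.P p := fun p hp => by
      rw [Function.update_of_ne (by omega), hφ p hp]
    refine ih _ a1 _ w1 e _ H (Nat.le_succ_of_le hnp') hφ'
      (cs_refine H (Nat.le_succ_of_le hnp') hφ' h'' (Nat.lt_succ_self n) (hwf.2 d hd).1
        (by rw [Function.update_self]; exact z3) fun l hl' => ?_)
    refine ⟨Nat.lt_succ_of_lt (hdl l hl'), ?_⟩
    rw [Function.update_self, Function.update_of_ne (hdl l hl').ne]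
    exact z4 l hl'

theorem cs_T {T : Tab} {Γ : Ctx} {n M P1 P0 lv x : ℕ} {v : Ev}
    {k : List St → Bool} (ih : ∀ L, k L = true → ∀ s ∈ L, RefS T Γ s)
    (hv : ∀ e, Holds T Γ e → v.WF Γ.nt Γ.st.n ∧ EvSem e v)
    (hp : (rowM T.w M x).testBit v.par = true)
    (hex : v.excl = 0 ∨ (lv.testBit x = true ∧ sub v.excl lv = true ∧ v.excl.testBit x = false))
    (hk : k (tKids T Γ n M P1 P0 lv x v.kids) = true) : RefS T Γ ⟨n, M, P1, P0, lv⟩ := by
  intro e φ H hnp hφ h
  obtain ⟨hwf, hev⟩ := hv e H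
  rw [cs_rowM] at hp
  obtain ⟨a1, _, a3⟩ := h.m x _ (lt_of_lt_of_le hwf.1 H.ntw) hp
  obtain ⟨t, ht, hxt⟩ := hev _ a3 (by
    intro p hp' hxp
    rcases hex with c | ⟨c1, c2, c3⟩
    · rw [c, Nat.zero_testBit] at hp'
      exact Bool.noConfusion hp'
    · rw [← hφ p (hwf.2.2 p hp')] at hxp
      rw [h.inj x p c1 (sub_iff.1 c2 p hp') hxp, hp'] at c3
      exact Bool.noConfusion c3)
  have htn := hwf.2.1 t ht
  exact ih _ hk _ (cs_tKids T Γ n M P1 P0 lv x _ ht (cs_dead H hxt)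
    (cs_conflict H hnp hφ h htn hxt)) e φ H hnp hφ
    (cs_refine H hnp hφ h a1 htn hxt (fun l hl => by cases hl))

theorem chk_sound (T : Tab) (Γ : Ctx) (p : Pf) :
    ∀ L, chk T Γ p L = true → ∀ s ∈ L, RefS T Γ s := by
  induction p with
  | C a em =>
    intro L h s hs
    obtain ⟨n, M, P1, P0, lv, rfl, h2⟩ := cs_one (L := L) (f := fun _ M P1 P0 lv =>
      andb (bit Γ.axm a) (andb (isNil (T.ax.get a).con)
        (embK T.w M (T.ax.get a).ts em lv fun _ => litsOK P1 P0 em (T.ax.get a).lits))) h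
    rw [List.mem_singleton.1 hs]
    simp only [andb_eq, Bool.and_eq_true, bit_eq] at h2
    obtain ⟨b1, b2, b3⟩ := h2
    intro e φ H _ _ hL
    obtain ⟨hwf, hax⟩ := H.ax a b1
    obtain ⟨rest, a1, a2, a3, _⟩ := cs_embK _ _ _ _ _ _ b3
    obtain ⟨_, _, _, d, hd, _⟩ := hax _ (cs_emb H hwf hL a2 a3 a1) ∅ (Nat.zero_le _)
    rw [cs_isNil b2] at hd
    cases hd
  | B u v c0 c1 ih0 ih1 =>
    intro L h s hs
    obtain ⟨n, M, P1, P0, lv, rfl, h2⟩ := cs_one (L := L) (f := fun n M P1 P0 lv =>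
      andb (ltb u n) (andb (ltb v n)
        (andb (forceH (setP P0 u v) fun P0' => chk T Γ c0 [⟨n, M, P1, P0', lv⟩])
          (forceH (setP P1 u v) fun P1' => chk T Γ c1 [⟨n, M, P1', P0, lv⟩])))) h
    rw [List.mem_singleton.1 hs]
    simp only [andb_eq, Bool.and_eq_true, ltb_iff, forceH_eq] at h2
    obtain ⟨b1, b2, b3, b4⟩ := h2
    intro e φ H hn hφ hL
    cases hE : e.E (φ u) (φ v)
    · exact ih0 _ b3 _ List.mem_cons_self e φ H hn hφ
        ⟨hL.n, hL.m, hL.p1, cs_setP hL.p0 hL.n b1 b2 hE, hL.live, hL.inj⟩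
    · exact ih1 _ b4 _ List.mem_cons_self e φ H hn hφ
        ⟨hL.n, hL.m, cs_setP hL.p1 hL.n b1 b2 hE, hL.p0, hL.live, hL.inj⟩
  | W a em ex oth ks ih =>
    intro L h s hs
    obtain ⟨n, M, P1, P0, lv, rfl, h2⟩ := cs_one (L := L) (f := fun n M P1 P0 lv =>
      andb (bit Γ.axm a) (andb (ltb n 128) (andb (Nat.ble ex.length (T.ax.get a).excl)
        (andb (allb (bit lv) oth) (andb (litsOK P1 P0 em (T.ax.get a).lits)
          (embK T.w M (T.ax.get a).ts em lv fun rest =>
            force (Nat.lor (Nat.lor (Nat.xor lv rest) (Nat.land lv (mask ex))) (mask oth))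
              fun lv' => chk T Γ ks (wKids T Γ n M P1 P0 lv' em oth (T.ax.get a).con))))))) h
    rw [List.mem_singleton.1 hs]
    rw [andb_eq, andb_eq, andb_eq, andb_eq, andb_eq, Bool.and_eq_true, Bool.and_eq_true,
      Bool.and_eq_true, Bool.and_eq_true, Bool.and_eq_true, bit_eq, ltb_iff, Nat.ble_eq,
      allb_eq, List.all_eq_true] at h2
    obtain ⟨b1, b2, b3, b4, b5, b6⟩ := h2
    exact cs_W ih (fun e H => H.ax a b1) b2 b3 (fun x hx => by rw [← bit_eq]; exact b4 x hx) b5 b6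
  | T x ev ks ih =>
    intro L h s hs
    obtain ⟨n, M, P1, P0, lv, rfl, h2⟩ := cs_one (L := L) (f := fun n M P1 P0 lv =>
      andb (bit Γ.evm ev) (andb (bit (rowM T.w M x) (T.ev.get ev).par)
        (andb (orb (Nat.beq (T.ev.get ev).excl 0)
            (andb (bit lv x) (andb (sub (T.ev.get ev).excl lv)
              (Bool.not (bit (T.ev.get ev).excl x)))))
          (chk T Γ ks (tKids T Γ n M P1 P0 lv x (T.ev.get ev).kids))))) h
    rw [List.mem_singleton.1 hs]
    simp only [andb_eq, orb_eq, Bool.and_eq_true, Bool.or_eq_true, bit_eq, Nat.beq_eq,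
      Bool.not_eq_true'] at h2
    obtain ⟨b1, b2, b3, b4⟩ := h2
    exact cs_T ih (fun e H => H.ev ev b1) b2 b3 b4
  | Z u =>
    intro L h s hs
    obtain ⟨n, M, P1, P0, lv, rfl, h2⟩ := cs_one (L := L) (f := fun _ M _ _ _ =>
      meets (rowM T.w M u) Γ.dead) h
    rw [List.mem_singleton.1 hs]
    intro e φ H _ _ hL
    obtain ⟨t, b1, b2⟩ := meets_iff.1 h2
    rw [cs_rowM] at b1
    have b3 := (hL.m u t (lt_of_lt_of_le (H.dead t b2).1 H.ntw) b1).2.2
    rw [cs_dead H b3] at b2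
    exact Bool.noConfusion b2
  | X u v =>
    intro L h s hs
    obtain ⟨n, M, P1, P0, lv, rfl, h2⟩ := cs_one (L := L) (f := fun n _ P1 P0 _ =>
      andb (ltb u n) (andb (ltb v n) (andb (known P1 u v) (known P0 u v)))) h
    rw [List.mem_singleton.1 hs]
    simp only [andb_eq, Bool.and_eq_true, ltb_iff] at h2
    obtain ⟨b1, b2, b3, b4⟩ := h2
    intro e φ _ _ _ hL
    have hn : n ≤ 128 := hL.n
    have c1 := cs_known (b := true) hL.p1 (by omega) (by omega) b3
    have c0 := cs_known (b := false) hL.p0 (by omega) (by omega) b4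
    rw [c1] at c0
    exact Bool.noConfusion c0
  | nil =>
    intro L h s hs
    rw [cs_isNil (l := L) h] at hs
    cases hs
  | cons hd tl ihh iht =>
    intro L h s hs
    rcases L with _ | ⟨⟨n, M, P1, P0, lv⟩, L'⟩
    · cases hs
    have h2 : andb (force n fun n => forceH M fun M => forceH P1 fun P1 => forceH P0 fun P0 =>
        force lv fun lv => chk T Γ hd [⟨n, M, P1, P0, lv⟩]) (chk T Γ tl L') = true := h
    simp only [andb_eq, Bool.and_eq_true, force_eq, forceH_eq] at h2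
    rcases List.mem_cons.1 hs with rfl | hs'
    · exact ihh _ h2.1 _ List.mem_cons_self
    · exact iht _ h2.2 s hs'

end Pool.Agent.Lib.MP_849b2e_co
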