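import Pool.Agent.Lib.MP_849b2e_co.ClsB

/-!
Every pair is good or contains a minimal bad pair.
-/

namespace Pool.Agent.Lib.MP_849b2e_co

def cls3P1 : Code := (3, [])
def cls4P1 : Code := (4, [])
def clsP3 : Code := (3, [(0, 1), (1, 2)])
def clsP1P2 : Code := (3, [(1, 2)])
def clsP1P3 : Code := (4, [(1, 2), (2, 3)])
def cls2P1P2 : Code := (4, [(2, 3)])
def cls2P1P3 : Code := (5, [(2, 3), (3, 4)])
def clsP1P2P3 : Code := (6, [(1, 2), (3, 4), (4, 5)])
def clsP1P5 : Code := (6, [(1, 2), (2, 3), (3, 4), (4, 5)])
def clsPaw : Code := (4, [(0, 1), (0, 2), (1, 2), (2, 3)])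
def clsK3P1 : Code := (4, [(0, 1), (0, 2), (1, 2)])
def clsM1 : Code := (7, [(0, 1), (0, 2), (0, 3)])
def clsM2 : Code := (6, [(0, 1), (0, 2), (0, 3), (4, 5)])
def clsM3 : Code := (6, [(0, 1), (0, 2), (2, 3), (0, 4), (4, 5)])
def clsM4 : Code := (7, [(1, 2), (1, 3), (1, 4), (4, 5), (5, 6)])

def clsE : List Code := [(0, []), (1, []), (2, []), (3, []), (4, [])]

/-- The containments used in the case analysis. -/
def clsFv (c : Code) : List Bool :=
  [subC cls4P1 c, subC c3P1P2 c, subC cP1P4 c, subC c2P2 c, subC cK13 c, subC cls2P1P2 c,
   subC c5P1 c, subC cP4 c, subC cC4 c, subC cls3P1 c,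
   subC c clsP1P3, subC c cls2P1P2, subC c clsP1P2P3, subC c clsP1P5, subC c cK13,
   subC c cls2P1P3, subC c clsP3, subC c clsP1P2, subC c cP4,
   subC c clsM1 || (subC c clsM2 || (subC c clsM3 || subC c clsM4))]

def clsTabG : List (List Bool) :=
  [[false, false, false, false, false, false, false, false, false, false,
    true, true, true, true, true, true, true, true, true, true],
   [false, false, false, false, false, false, false, false, false, false,
    true, true, true, true, false, true, false, true, true, true],
   [false, false, false, false, false, false, false, false, false, false,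
    true, false, true, true, true, true, true, false, true, true],
   [false, false, false, false, false, true, false, false, false, true,
    false, true, true, true, false, true, false, false, false, true],
   [false, false, false, false, false, false, false, false, false, true,
    true, false, true, true, false, true, false, false, false, true],
   [false, false, false, false, true, false, false, false, false, true,
    false, false, false, false, true, false, false, false, false, true],
   [false, false, false, true, false, false, false, false, false, false,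
    false, false, true, true, false, false, false, false, false, true],
   [false, false, false, false, false, false, false, true, false, false,
    false, false, false, true, false, false, false, false, true, true],
   [true, true, false, false, false, true, false, false, false, true,
    false, false, true, false, false, false, false, false, false, true],
   [true, false, false, false, false, true, false, false, false, true,
    false, false, true, true, false, true, false, false, false, true],
   [true, false, false, false, true, false, false, false, false, true,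
    false, false, false, false, false, false, false, false, false, true],
   [false, false, false, true, false, true, false, false, false, true,
    false, false, true, true, false, false, false, false, false, true],
   [false, false, true, false, false, true, false, true, false, true,
    false, false, false, true, false, false, false, false, false, true],
   [false, false, false, true, false, true, false, false, false, true,
    false, false, true, false, false, false, false, false, false, true],
   [false, false, false, false, true, true, false, true, false, true,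
    false, false, false, false, false, false, false, false, false, true],
   [false, false, false, true, false, false, false, true, false, true,
    false, false, false, true, false, false, false, false, false, true],
   [true, true, false, false, false, true, true, false, false, true,
    false, false, false, false, false, false, false, false, false, true],
   [true, false, false, false, true, true, true, false, false, true,
    false, false, false, false, false, false, false, false, false, true],
   [true, true, false, true, false, true, false, false, false, true,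
    false, false, true, false, false, false, false, false, false, true],
   [true, true, true, false, true, true, false, true, false, true,
    false, false, false, false, false, false, false, false, false, true],
   [true, true, false, true, true, true, false, false, false, true,
    false, false, false, false, false, false, false, false, false, true],
   [true, false, true, true, false, true, false, true, false, true,
    false, false, false, true, false, false, false, false, false, true],
   [true, false, false, true, true, true, false, true, false, true,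
    false, false, false, false, false, false, false, false, false, true],
   [false, false, true, true, true, true, false, true, false, true,
    false, false, false, false, false, false, false, false, false, true],
   [true, true, false, false, true, true, true, false, false, true,
    false, false, false, false, false, false, false, false, false, true],
   [true, true, true, true, true, true, true, true, false, true,
    false, false, false, false, false, false, false, false, false, true]]

def clsTabE : List (List Bool) :=
  [[false, false, false, false, false, false, false, false, false, false,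
    true, true, true, true, true, true, true, true, true, true],
   [false, false, false, false, false, false, false, false, false, false,
    true, true, true, true, true, true, true, true, true, true],
   [false, false, false, false, false, false, false, false, false, false,
    true, true, true, true, true, true, true, true, true, true],
   [false, false, false, false, false, false, false, false, false, true,
    true, true, true, true, true, true, false, false, false, true],
   [true, false, false, false, false, false, false, false, false, true,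
    false, false, true, true, false, true, false, false, false, true]]

theorem cls_tabG : listG.map clsFv = clsTabG := by decide +kernel

theorem cls_tabE : clsE.map clsFv = clsTabE := by decide +kernel

def clsOne : List Bool → List Bool → Bool
  | [a0, _, _, a3, _, a5, _, a7, _, _, a10, a11, _, _, a14, a15, a16, _, a18, _],
    [_, b1, b2, b3, b4, _, b6, b7, b8, _, _, _, b12, b13, b14, b15, _, _, _, b19] =>
      (a0 && (b1 || (b2 || (b3 || b4)))) || ((a5 && (b6 || b4)) || ((a3 && (b4 || (b3 || b7))) ||
        ((a7 && b7) || ((a10 && b19) || ((a11 && (b12 || b13)) || ((a14 && b14) ||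
          ((a15 && b15) || (a16 || (a18 && (!b3 && (!b8 && !b7)))))))))))
  | _, _ => false

def clsBig : List Bool → Bool
  | [_, b1, b2, b3, b4, b5, _, _, _, _, b10, _, _, _, _, _, b16, _, b18, _] =>
      (b1 || (b2 || (b3 || b4))) || (b5 || (b10 || (b16 || b18)))
  | _ => false

def clsSmall : List Bool → Bool
  | [_, _, _, b3, _, _, _, b7, _, b9, _, _, _, _, _, _, b16, b17, b18, _] =>
      b9 || (b16 || (b17 || (b3 || (b7 && b18))))
  | _ => false

theorem cls_pairs : ∀ x ∈ clsTabG ++ clsTabE, ∀ y ∈ clsTabG ++ clsTabE,
    (clsOne x y || clsOne y x) = true := by decide +kernel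

theorem cls_big : ∀ x ∈ clsTabG, clsBig x = true := by decide +kernel

theorem cls_small : ∀ x ∈ clsTabG ++ clsTabE, clsSmall x = true := by decide +kernel

theorem cls_memG {c : Code} (h : c ∈ listG) : clsFv c ∈ clsTabG :=
  cls_tabG ▸ List.mem_map_of_mem h

theorem cls_mem {c : Code} (h : c ∈ listG ++ clsE) : clsFv c ∈ clsTabG ++ clsTabE := by
  rw [← cls_tabG, ← cls_tabE, ← List.map_append]
  exact List.mem_map_of_mem h

variable {α β : Type}

/-- The conclusion of the classification. -/
def clsRes (A : SimpleGraph α) (B : SimpleGraph β) : Prop :=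
  (Good A B ∨ Good B A ∨ Good Aᶜ Bᶜ ∨ Good Bᶜ Aᶜ) ∨ (Bad A B ∨ Bad B A ∨ Bad Aᶜ Bᶜ ∨ Bad Bᶜ Aᶜ)

theorem clsRes.swap {A : SimpleGraph α} {B : SimpleGraph β} (h : clsRes A B) : clsRes B A := by
  unfold clsRes at h ⊢
  tauto

theorem clsRes.of_compl {A : SimpleGraph α} {B : SimpleGraph β} (h : clsRes Aᶜ Bᶜ) :
    clsRes A B := by
  unfold clsRes at h ⊢
  rw [compl_compl, compl_compl] at h
  tauto

theorem cls_good {A : SimpleGraph α} {B : SimpleGraph β} (h : Good A B) : clsRes A B :=
  Or.inl (Or.inl h)

theorem cls_bad {A : SimpleGraph α} {B : SimpleGraph β} (p q : Code) (h : (p, q) ∈ badPairs)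
    (h1 : p.g.IsIndContained A) (h2 : q.g.IsIndContained B) : clsRes A B :=
  Or.inr (Or.inl ⟨(p, q), h, h1, h2⟩)

theorem cls_has {X : SimpleGraph α} (q : Code) {p : Code} (h : subC q p = true)
    (hp : p.g.IsIndContained X) : q.g.IsIndContained X := (subC_iff.1 h).trans hp

theorem cls_has_co {X : SimpleGraph α} (q : Code) {p : Code} (h : subC q p.co = true)
    (hp : p.g.IsIndContained X) : q.g.IsIndContained Xᶜ := by
  have h1 : q.g.IsIndContained (gr p.1 p.co.2) := subC_iff.1 h
  rw [Code.co_g] at h1
  exact h1.trans (indC_compl.2 hp)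

theorem cls_le_co {X : SimpleGraph α} (q : Code) {p : Code} (h : subC p.co q = true)
    (hp : X.IsIndContained p.g) : Xᶜ.IsIndContained q.g := by
  have h1 : (gr p.1 p.co.2).IsIndContained q.g := subC_iff (c := p.co).1 h
  rw [Code.co_g] at h1
  exact (indC_compl.2 hp).trans h1

theorem cls_iso_has {X : SimpleGraph α} {c : Code} (e : X ≃g c.g) (p : Code) :
    subC p c = true ↔ p.g.IsIndContained X :=
  subC_iff.trans ⟨fun h => h.trans ⟨e.symm.toEmbedding⟩, fun h => h.trans ⟨e.toEmbedding⟩⟩

theorem cls_iso_not {X : SimpleGraph α} {c : Code} (e : X ≃g c.g) (p : Code) :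
    (!subC p c) = true ↔ ¬p.g.IsIndContained X := by
  rw [← cls_iso_has e p]
  simp

theorem cls_iso_le {X : SimpleGraph α} {c : Code} (e : X ≃g c.g) (q : Code) :
    subC c q = true ↔ X.IsIndContained q.g :=
  subC_iff.trans ⟨fun h => SimpleGraph.IsIndContained.trans ⟨e.toEmbedding⟩ h,
    fun h => SimpleGraph.IsIndContained.trans ⟨e.symm.toEmbedding⟩ h⟩

theorem cls_four {a : SimpleGraph α} {b : SimpleGraph β} (ha : cls4P1.g.IsIndContained a)
    (hb : c3P1P2.g.IsIndContained b ∨ cP1P4.g.IsIndContained b ∨ c2P2.g.IsIndContained b ∨
      cK13.g.IsIndContained b) : clsRes aᶜ b := by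
  have h := cls_has_co cK4 (by decide +kernel) ha
  rcases hb with hb | hb | hb | hb <;> exact cls_bad cK4 _ (by decide +kernel) h hb

theorem cls_one {a : SimpleGraph α} {b : SimpleGraph β} {c d : Code} (e : a ≃g c.g)
    (e' : b ≃g d.g) (h : clsOne (clsFv c) (clsFv d) = true) : clsRes aᶜ b := by
  simp only [clsOne, clsFv, Bool.or_eq_true, Bool.and_eq_true] at h
  simp only [cls_iso_not e'] at h
  simp only [cls_iso_has e, cls_iso_has e', cls_iso_le e, cls_iso_le e'] at h
  rcases h with ⟨ha, hb⟩ | ⟨ha, hb⟩ | ⟨ha, hb⟩ | ⟨ha, hb⟩ | ⟨ha, hb⟩ | ⟨ha, hb⟩ | ⟨ha, hb⟩ |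
    ⟨ha, hb⟩ | ha | ⟨ha, hb⟩
  · exact cls_four ha hb
  · have h := cls_has_co cDia (by decide +kernel) ha
    rcases hb with hb | hb <;> exact cls_bad cDia _ (by decide +kernel) h hb
  · have h := cls_has_co cC4 (by decide +kernel) ha
    rcases hb with hb | hb | hb
    · exact (cls_bad cK13 cC4 (by decide +kernel) hb h).swap
    · exact cls_bad cC4 _ (by decide +kernel) h hb
    · exact cls_bad cC4 _ (by decide +kernel) h hb
  · exact cls_bad cP4 cP4 (by decide +kernel) (cls_has_co cP4 (by decide +kernel) ha) hb
  · exact cls_good (Or.inr (Or.inr (Or.inr (Or.inl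
      ⟨cls_le_co clsPaw (by decide +kernel) ha, Or.inr hb⟩))))
  · exact cls_good (Or.inr (Or.inr (Or.inr (Or.inr (Or.inl
      ⟨cls_le_co cDia (by decide +kernel) ha, hb⟩)))))
  · exact cls_good (Or.inr (Or.inr (Or.inr (Or.inr (Or.inr (Or.inl
      ⟨cls_le_co clsK3P1 (by decide +kernel) ha, hb⟩))))))
  · exact cls_good (Or.inr (Or.inr (Or.inr (Or.inr (Or.inr (Or.inr ⟨indC_compl.2 ha, hb⟩))))))
  · refine clsRes.of_compl (cls_good (Or.inl ?_))
    rw [compl_compl]
    exact ha
  · exact cls_good (Or.inr (Or.inl ⟨cls_le_co cP4 (by decide +kernel) ha, hb⟩))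

theorem cls_sym {a : SimpleGraph α} {b : SimpleGraph β} (h : clsRes bᶜ a) : clsRes aᶜ b := by
  refine clsRes.of_compl ?_
  rw [compl_compl]
  exact h.swap

theorem cls_two {a : SimpleGraph α} {b : SimpleGraph β} {c d : Code} (e : a ≃g c.g)
    (e' : b ≃g d.g) (hc : c ∈ listG ++ clsE) (hd : d ∈ listG ++ clsE) : clsRes aᶜ b := by
  rcases Bool.or_eq_true_iff.1 (cls_pairs _ (cls_mem hc) _ (cls_mem hd)) with h | h
  · exact cls_one e e' h
  · exact cls_sym (cls_one e' e h)

theorem cls_bot [Fintype α] : c5P1.g.IsIndContained (⊥ : SimpleGraph α) ∨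
    ∃ c ∈ listG ++ clsE, Nonempty ((⊥ : SimpleGraph α) ≃g c.g) := by
  by_cases h : 5 ≤ Fintype.card α
  · left
    obtain ⟨f⟩ : Nonempty (Fin 5 ↪ α) :=
      Function.Embedding.nonempty_of_card_le (by rwa [Fintype.card_fin])
    exact ⟨⟨f, fun {x y} => iff_of_false (fun h => h) fun h => by
      have := (gr_adj.1 h).2
      simp [adjL, c5P1] at this⟩⟩
  · refine Or.inr ⟨_, List.mem_append_right _ ?_, bot_iso⟩
    generalize Fintype.card α = n at h
    have h' : n < 5 := by omega
    interval_cases n <;> decide

theorem cls_not_top (p : Code) (x y : Fin p.1) (hxy : x ≠ y) (h : adjL p.2 x y = false) :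
    ¬p.g.IsIndContained (⊥ : SimpleGraph α)ᶜ := by
  rintro ⟨f⟩
  have h1 : (⊥ : SimpleGraph α)ᶜ.Adj (f x) (f y) := ⟨f.injective.ne hxy, fun h => h⟩
  have h2 := (gr_adj.1 (f.map_adj_iff.1 h1)).2
  rw [h] at h2
  exact Bool.false_ne_true h2

theorem cls_mainE [Fintype α] {b : SimpleGraph β} {d : Code} (e' : b ≃g d.g) (hd : d ∈ listG) :
    clsRes (⊥ : SimpleGraph α)ᶜ b := by
  rcases cls_bot (α := α) with h5 | ⟨c, hc, ⟨e⟩⟩
  · have h := cls_big _ (cls_memG hd)
    simp only [clsBig, clsFv, Bool.or_eq_true] at h
    simp only [cls_iso_has e', cls_iso_le e'] at h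
    rcases h with hb | hb | hb | hb | hb
    · exact cls_four (cls_has cls4P1 (by decide +kernel) h5) hb
    · exact cls_sym (cls_bad cDia c5P1 (by decide +kernel) (cls_has_co cDia (by decide +kernel) hb) h5)
    · exact cls_sym (cls_good (Or.inr (Or.inr (Or.inr (Or.inl
        ⟨cls_le_co clsPaw (by decide +kernel) hb, Or.inl rfl⟩)))))
    · exact (cls_good (Or.inl hb)).swap
    · exact (cls_good (Or.inr (Or.inl ⟨hb,
        cls_not_top c2P2 ⟨0, by decide⟩ ⟨2, by decide⟩ (by decide) (by decide),
        cls_not_top cC4 ⟨0, by decide⟩ ⟨2, by decide⟩ (by decide) (by decide),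
        cls_not_top cP4 ⟨0, by decide⟩ ⟨2, by decide⟩ (by decide) (by decide)⟩))).swap
  · exact cls_two e e' hc (List.mem_append_left _ hd)

theorem cls_main [Fintype α] [Fintype β] {a : SimpleGraph α} {b : SimpleGraph β}
    (ha : ∀ c ∈ listK3, ¬c.g.IsIndContained a) (hb : ∀ c ∈ listK3, ¬c.g.IsIndContained b) :
    clsRes aᶜ b := by
  rcases cls_list a ha with rfl | ⟨c, hc, ⟨e⟩⟩ <;> rcases cls_list b hb with rfl | ⟨d, hd, ⟨e'⟩⟩
  · exact cls_good (Or.inr (Or.inr (Or.inl ⟨compl_bot, rfl⟩)))
  · exact cls_mainE e' hd
  · exact cls_sym (cls_mainE e hc)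
  · exact cls_two e e' (List.mem_append_left _ hc) (List.mem_append_left _ hd)

theorem cls_cases [Fintype α] {X : SimpleGraph α} (h : ∀ c ∈ listK3, ¬c.g.IsIndContained X) :
    cls3P1.g.IsIndContained X ∨ X.IsIndContained clsP3.g ∨ X.IsIndContained clsP1P2.g ∨
      c2P2.g.IsIndContained X ∨ (cP4.g.IsIndContained X ∧ X.IsIndContained cP4.g) := by
  have key : ∀ c ∈ listG ++ clsE, ∀ e : X ≃g c.g,
      cls3P1.g.IsIndContained X ∨ X.IsIndContained clsP3.g ∨ X.IsIndContained clsP1P2.g ∨
        c2P2.g.IsIndContained X ∨ (cP4.g.IsIndContained X ∧ X.IsIndContained cP4.g) := by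
    intro c hc e
    have h := cls_small _ (cls_mem hc)
    simp only [clsSmall, clsFv, Bool.or_eq_true, Bool.and_eq_true] at h
    simpa only [cls_iso_has e, cls_iso_le e] using h
  rcases cls_list X h with rfl | ⟨c, hc, ⟨e⟩⟩
  · rcases cls_bot (α := α) with h5 | ⟨c, hc, ⟨e⟩⟩
    · exact Or.inl (cls_has cls3P1 (by decide +kernel) h5)
    · exact key c hc e
  · exact key c (List.mem_append_left _ hc) e

theorem cls_k3 : ∀ c ∈ listK3, (cK3, c) ∈ badPairs := by decide +kernel

theorem cls_k3a : ∀ c ∈ listK3, (subC cK3 c || (subC cC4 c || (subC c2P2 c || (subC cP4 c ||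
    (subC cK13 c || subC cls4P1 c))))) = true := by decide +kernel

theorem cls_k3b : ∀ c ∈ listK3, (subC cK3 c || (subC cls3P1 c || (subC cP4 c || (subC cC4 c ||
    subC c2P2 c)))) = true := by decide +kernel

theorem cls_core [Fintype α] [Fintype β] {A : SimpleGraph α} {B : SimpleGraph β}
    (hK : cK3.g.IsIndContained A) : clsRes A B := by
  by_cases hB : ∀ c ∈ listK3, ¬c.g.IsIndContained B
  swap
  · push Not at hB
    obtain ⟨c, hc, h⟩ := hB
    exact cls_bad cK3 c (cls_k3 c hc) hK h
  by_cases hA : ∀ c ∈ listK3, ¬c.g.IsIndContained Aᶜ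
  · have h := cls_main hA hB
    rwa [compl_compl] at h
  push Not at hA
  obtain ⟨c, hc, h⟩ := hA
  rcases cls_cases hB with hb | hb | hb | hb | ⟨hb, hb'⟩
  · exact (cls_bad cK3 c (cls_k3 c hc) (cls_has_co cK3 (by decide +kernel) hb) h).swap.of_compl
  · exact (cls_good (Or.inl hb)).swap
  · exact (cls_good (Or.inl (cls_le_co clsP3 (by decide +kernel) hb))).swap.of_compl
  · have h4 := cls_has_co cC4 (by decide +kernel) hb
    have h5 := cls_k3a c hc
    simp only [Bool.or_eq_true] at h5
    rcases h5 with h5 | h5 | h5 | h5 | h5 | h5
    · exact (cls_bad cK3 cC4 (by decide +kernel) (cls_has _ h5 h) h4).of_compl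
    · exact (cls_bad cC4 cC4 (by decide +kernel) (cls_has _ h5 h) h4).of_compl
    · exact (cls_bad cC4 c2P2 (by decide +kernel) h4 (cls_has _ h5 h)).swap.of_compl
    · exact (cls_bad cC4 cP4 (by decide +kernel) h4 (cls_has _ h5 h)).swap.of_compl
    · exact (cls_bad cK13 cC4 (by decide +kernel) (cls_has _ h5 h) h4).of_compl
    · have h6 := cls_has_co cK4 (by decide +kernel) (cls_has _ h5 h)
      rw [compl_compl] at h6
      exact cls_bad cK4 c2P2 (by decide +kernel) h6 hb
  · by_cases h1 : c2P2.g.IsIndContained A
    · exact (cls_bad cC4 cP4 (by decide +kernel) (cls_has_co cC4 (by decide +kernel) h1)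
        (cls_has_co cP4 (by decide +kernel) hb)).of_compl
    by_cases h2 : cC4.g.IsIndContained A
    · exact cls_bad cC4 cP4 (by decide +kernel) h2 hb
    by_cases h3 : cP4.g.IsIndContained A
    · exact cls_bad cP4 cP4 (by decide +kernel) h3 hb
    exact (cls_good (Or.inr (Or.inl ⟨hb', h1, h2, h3⟩))).swap

theorem cls_free [Fintype α] {X : SimpleGraph α} (h1 : ¬cK3.g.IsIndContained X)
    (h2 : ¬cK3.g.IsIndContained Xᶜ) :
    X.IsIndContained clsP3.g ∨ Xᶜ.IsIndContained clsP3.g ∨
      cP4.g.IsIndContained X ∨ cC4.g.IsIndContained X ∨ c2P2.g.IsIndContained X := by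
  have h3 : ¬cls3P1.g.IsIndContained X := fun h => h2 (cls_has_co cK3 (by decide +kernel) h)
  by_cases hX : ∀ c ∈ listK3, ¬c.g.IsIndContained X
  · rcases cls_cases hX with h | h | h | h | h
    · exact absurd h h3
    · exact Or.inl h
    · exact Or.inr (Or.inl (cls_le_co clsP3 (by decide +kernel) h))
    · exact Or.inr (Or.inr (Or.inr (Or.inr h)))
    · exact Or.inr (Or.inr (Or.inl h.1))
  · push Not at hX
    obtain ⟨c, hc, h⟩ := hX
    have h5 := cls_k3b c hc
    simp only [Bool.or_eq_true] at h5
    rcases h5 with h5 | h5 | h5 | h5 | h5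
    · exact absurd (cls_has _ h5 h) h1
    · exact absurd (cls_has _ h5 h) h3
    · exact Or.inr (Or.inr (Or.inl (cls_has _ h5 h)))
    · exact Or.inr (Or.inr (Or.inr (Or.inl (cls_has _ h5 h))))
    · exact Or.inr (Or.inr (Or.inr (Or.inr (cls_has _ h5 h))))

theorem cls_all [Fintype α] [Fintype β] (A : SimpleGraph α) (B : SimpleGraph β) : clsRes A B := by
  by_cases h1 : cK3.g.IsIndContained A
  · exact cls_core h1
  by_cases h2 : cK3.g.IsIndContained B
  · exact (cls_core h2).swap
  by_cases h3 : cK3.g.IsIndContained Aᶜ
  · exact (cls_core h3).of_compl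
  by_cases h4 : cK3.g.IsIndContained Bᶜ
  · exact (cls_core h4).swap.of_compl
  rcases cls_free h1 h3 with ha | ha | ha
  · exact cls_good (Or.inl ha)
  · exact (cls_good (Or.inl ha)).of_compl
  rcases cls_free h2 h4 with hb | hb | hb
  · exact (cls_good (Or.inl hb)).swap
  · exact (cls_good (Or.inl hb)).swap.of_compl
  rcases ha with ha | ha | ha <;> rcases hb with hb | hb | hb
  · exact cls_bad cP4 cP4 (by decide +kernel) ha hb
  · exact (cls_bad cC4 cP4 (by decide +kernel) hb ha).swap
  · exact (cls_bad cC4 cP4 (by decide +kernel) (cls_has_co cC4 (by decide +kernel) hb)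
      (cls_has_co cP4 (by decide +kernel) ha)).swap.of_compl
  · exact cls_bad cC4 cP4 (by decide +kernel) ha hb
  · exact cls_bad cC4 cC4 (by decide +kernel) ha hb
  · exact cls_bad cC4 c2P2 (by decide +kernel) ha hb
  · exact (cls_bad cC4 cP4 (by decide +kernel) (cls_has_co cC4 (by decide +kernel) ha)
      (cls_has_co cP4 (by decide +kernel) hb)).of_compl
  · exact (cls_bad cC4 c2P2 (by decide +kernel) hb ha).swap
  · exact (cls_bad cC4 cC4 (by decide +kernel) (cls_has_co cC4 (by decide +kernel) ha)
      (cls_has_co cC4 (by decide +kernel) hb)).of_compl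

theorem classify {α β : Type} [Fintype α] [Fintype β] (A : SimpleGraph α) (B : SimpleGraph β) :
    (Good A B ∨ Good B A ∨ Good Aᶜ Bᶜ ∨ Good Bᶜ Aᶜ) ∨
      (Bad A B ∨ Bad B A ∨ Bad Aᶜ Bᶜ ∨ Bad Bᶜ Aᶜ) := cls_all A B

end Pool.Agent.Lib.MP_849b2e_co
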