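import Pool.Agent.Lib.MP_849b2e_co.Bad

/-!
Computing with codes of small graphs.
-/

namespace Pool.Agent.Lib.MP_849b2e_co

def embGo (h g : List (ℕ × ℕ)) (m : ℕ) : ℕ → List (ℕ × ℕ) → Bool
  | 0, _ => true
  | d + 1, img => (List.range m).any fun v =>
      (img.all fun p => !Nat.beq p.2 v && (adjL h d p.1 == adjL g v p.2)) &&
        embGo h g m d ((d, v) :: img)

/-- Induced containment of coded graphs. -/
def subC (c d : Code) : Bool := embGo c.2 d.2 d.1 c.1 []

theorem clsa_symm (l : List (ℕ × ℕ)) (i j : ℕ) : adjL l i j = adjL l j i := by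
  unfold adjL
  congr 1
  funext z
  rw [Bool.or_comm]

theorem clsa_adjL_iff {l : List (ℕ × ℕ)} {i j : ℕ} :
    adjL l i j = true ↔ (i, j) ∈ l ∨ (j, i) ∈ l := by
  simp only [adjL, List.any_eq_true, Bool.or_eq_true, Bool.and_eq_true, Nat.beq_eq]
  constructor
  · rintro ⟨⟨u, v⟩, h, ⟨rfl, rfl⟩ | ⟨rfl, rfl⟩⟩
    · exact Or.inl h
    · exact Or.inr h
  · rintro (h | h)
    · exact ⟨_, h, Or.inl ⟨rfl, rfl⟩⟩
    · exact ⟨_, h, Or.inr ⟨rfl, rfl⟩⟩

theorem clsa_beq_false {a b : ℕ} : (!Nat.beq a b) = true ↔ a ≠ b := by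
  rw [Bool.not_eq_true', ← Bool.not_eq_true, Nat.beq_eq]

theorem clsa_embGo (h g : List (ℕ × ℕ)) (m d : ℕ) : ∀ img : List (ℕ × ℕ),
    embGo h g m d img = true ↔ ∃ f : ℕ → ℕ, (∀ i < d, f i < m) ∧
      (∀ i < d, ∀ p ∈ img, p.2 ≠ f i ∧ adjL h i p.1 = adjL g (f i) p.2) ∧
      ∀ i < d, ∀ j < i, f i ≠ f j ∧ adjL h j i = adjL g (f j) (f i) := by
  induction d with
  | zero =>
    intro img
    simp [embGo]
  | succ d ih =>
    intro img
    simp only [embGo, List.any_eq_true, List.mem_range, Bool.and_eq_true, List.all_eq_true,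
      clsa_beq_false, beq_iff_eq, ih]
    constructor
    · rintro ⟨v, hv, h1, f, f1, f2, f3⟩
      refine ⟨fun i => if i = d then v else f i, fun i hi => ?_, fun i hi p hp => ?_,
        fun i hi j hj => ?_⟩
      · by_cases c : i = d
        · simp [c, hv]
        · simpa [c] using f1 i (by omega)
      · by_cases c : i = d
        · simpa [c] using h1 p hp
        · simpa [c] using f2 i (by omega) p (List.mem_cons_of_mem _ hp)
      · have cj : j ≠ d := by omega
        by_cases c : i = d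
        · subst c
          simpa [cj] using f2 j hj (i, v) List.mem_cons_self
        · simpa [c, cj] using f3 i (by omega) j hj
    · rintro ⟨f, f1, f2, f3⟩
      refine ⟨f d, f1 d (by omega), fun p hp => f2 d (by omega) p hp, f,
        fun i hi => f1 i (by omega), fun i hi p hp => ?_, fun i hi j hj => f3 i (by omega) j hj⟩
      rcases List.mem_cons.1 hp with rfl | hp
      · exact f3 d (by omega) i hi
      · exact f2 i (by omega) p hp

theorem clsa_emb {c d : Code} (f : ℕ → ℕ) (f1 : ∀ i < c.1, f i < d.1)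
    (f3 : ∀ i < c.1, ∀ j < i, f i ≠ f j ∧ adjL c.2 j i = adjL d.2 (f j) (f i)) :
    c.g.IsIndContained d.g := by
  have inj : ∀ i < c.1, ∀ j < c.1, f i = f j → i = j := by
    intro i hi j hj e
    rcases lt_trichotomy i j with l | l | l
    · exact absurd e.symm (f3 j hj i l).1
    · exact l
    · exact absurd e (f3 i hi j l).1
  refine ⟨⟨⟨fun a => ⟨f a, f1 a a.2⟩, fun a b e => Fin.ext (inj a a.2 b b.2 (congrArg Fin.val e))⟩,
    fun {a b} => ?_⟩⟩
  change (gr d.1 d.2).Adj ⟨f a, f1 a a.2⟩ ⟨f b, f1 b b.2⟩ ↔ (gr c.1 c.2).Adj a b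
  simp only [gr_adj, ne_eq, Fin.mk.injEq]
  by_cases ab : a = b
  · simp [ab]
  · have n1 : ¬ f a = f b := fun e => ab (Fin.ext (inj a a.2 b b.2 e))
    simp only [n1, ab, not_false_eq_true, true_and]
    rcases lt_trichotomy (a : ℕ) b with l | l | l
    · rw [(f3 b b.2 a l).2]
    · exact absurd (Fin.ext l) ab
    · rw [clsa_symm c.2, clsa_symm d.2, (f3 a a.2 b l).2]

theorem subC_iff {c d : Code} : subC c d = true ↔ c.g.IsIndContained d.g := by
  unfold subC
  rw [clsa_embGo]
  constructor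
  · rintro ⟨f, f1, -, f3⟩
    exact clsa_emb f f1 f3
  · rintro ⟨φ⟩
    refine ⟨fun i => if h : i < c.1 then (φ ⟨i, h⟩).val else 0, fun i hi => ?_,
      fun i _ p hp => absurd hp List.not_mem_nil, fun i hi j hj => ?_⟩
    · simp only [hi, dite_true]
      exact (φ ⟨i, hi⟩).2
    · have hj' : j < c.1 := by omega
      simp only [hi, hj', dite_true]
      have ne : (⟨j, hj'⟩ : Fin c.1) ≠ ⟨i, hi⟩ := fun e => by
        have := congrArg Fin.val e
        simp only at this
        omega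
      have ne' : φ ⟨j, hj'⟩ ≠ φ ⟨i, hi⟩ := fun e => ne (φ.injective e)
      refine ⟨fun e => ne' (Fin.ext e.symm), ?_⟩
      have := φ.map_adj_iff (v := ⟨j, hj'⟩) (w := ⟨i, hi⟩)
      rw [gr_adj, gr_adj] at this
      simp only [ne, ne', ne_eq, not_false_eq_true, true_and] at this
      exact Bool.eq_iff_iff.2 this.symm

/-- The octal digits of `f` give an induced embedding. -/
def embOK (c d : Code) (f : ℕ) : Bool :=
  (List.range c.1).all fun i => Nat.blt (f / 8 ^ i % 8) d.1 && (List.range i).all fun j =>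
    !Nat.beq (f / 8 ^ i % 8) (f / 8 ^ j % 8) &&
      (adjL c.2 i j == adjL d.2 (f / 8 ^ i % 8) (f / 8 ^ j % 8))

theorem embOK_sound {c d : Code} {f : ℕ} (h : embOK c d f = true) : c.g.IsIndContained d.g := by
  simp only [embOK, List.all_eq_true, List.mem_range, Bool.and_eq_true, clsa_beq_false,
    beq_iff_eq, Nat.blt_eq] at h
  refine clsa_emb (fun i => f / 8 ^ i % 8) (fun i hi => (h i hi).1) fun i hi j hj => ?_
  obtain ⟨a, b⟩ := (h i hi).2 j hj
  refine ⟨a, ?_⟩
  rw [clsa_symm c.2, clsa_symm d.2]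
  exact b

/-- The code of the complement. -/
def Code.co (c : Code) : Code :=
  (c.1, (List.range c.1).flatMap fun i => ((List.range c.1).filter fun j =>
    Nat.blt i j && !adjL c.2 i j).map fun j => (i, j))

theorem clsa_mem_co (c : Code) (i j : ℕ) :
    (i, j) ∈ c.co.2 ↔ i < c.1 ∧ j < c.1 ∧ i < j ∧ adjL c.2 i j = false := by
  simp only [Code.co, List.mem_flatMap, List.mem_range, List.mem_map, List.mem_filter,
    Bool.and_eq_true, Nat.blt_eq, Bool.not_eq_true', Prod.mk.injEq]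
  constructor
  · rintro ⟨a, ha, b, ⟨hb, h1, h2⟩, rfl, rfl⟩
    exact ⟨ha, hb, h1, h2⟩
  · rintro ⟨ha, hb, h1, h2⟩
    exact ⟨i, ha, j, ⟨hb, h1, h2⟩, rfl, rfl⟩

theorem Code.co_g (c : Code) : gr c.1 c.co.2 = c.gᶜ := by
  ext a b
  rw [SimpleGraph.compl_adj, gr_adj, gr_adj, clsa_adjL_iff, clsa_mem_co, clsa_mem_co]
  refine and_congr_right fun ab => ?_
  have hab : (a : ℕ) ≠ b := fun e => ab (Fin.ext e)
  rw [clsa_symm c.2 b a]
  have ha := a.2
  have hb := b.2
  cases adjL c.2 a b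
  · simp only [ha, hb, true_and, and_true, Bool.false_eq_true, and_false, not_false_eq_true,
      iff_true]
    omega
  · simp [ab]

theorem clsa_compl {α β : Type} {A : SimpleGraph α} {B : SimpleGraph β}
    (h : A.IsIndContained B) : Aᶜ.IsIndContained Bᶜ := by
  obtain ⟨φ⟩ := h
  refine ⟨⟨φ.toEmbedding, fun {a b} => ?_⟩⟩
  have := φ.map_adj_iff (v := a) (w := b)
  simp only [SimpleGraph.compl_adj, ne_eq]
  refine and_congr (not_congr φ.injective.eq_iff) (not_congr this)

theorem indC_compl {α β : Type} {A : SimpleGraph α} {B : SimpleGraph β} :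
    Aᶜ.IsIndContained Bᶜ ↔ A.IsIndContained B :=
  ⟨fun h => by simpa using clsa_compl h, clsa_compl⟩

/-- An edgeless graph is isomorphic to the edgeless code. -/
theorem bot_iso {α : Type} [Fintype α] :
    Nonempty ((⊥ : SimpleGraph α) ≃g Code.g (Fintype.card α, [])) := by
  refine ⟨⟨Fintype.equivFin α, fun {a b} => ?_⟩⟩
  rw [gr_adj]
  simp [adjL]

/-- The code extended by a new last vertex adjacent to the set with mask `m`. -/
def Code.ext (c : Code) (m : ℕ) : Code :=
  (c.1 + 1, c.2 ++ ((List.range c.1).filter fun i => m.testBit i).map fun i => (i, c.1))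

theorem clsa_mask (n : ℕ) (P : ℕ → Bool) : ∃ m < 2 ^ n, ∀ i < n, m.testBit i = P i := by
  induction n generalizing P with
  | zero => exact ⟨0, by simp, by simp⟩
  | succ n ih =>
    obtain ⟨m, hm, h⟩ := ih fun i => P (i + 1)
    refine ⟨Nat.bit (P 0) m, ?_, fun i hi => ?_⟩
    · rw [Nat.bit_val, pow_succ]
      have : (P 0).toNat ≤ 1 := Bool.toNat_le _
      omega
    · cases i with
      | zero => simp
      | succ i => rw [Nat.testBit_bit_succ]; exact h i (by omega)

theorem clsa_mem_ext (c : Code) (m i j : ℕ) :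
    (i, j) ∈ (c.ext m).2 ↔ (i, j) ∈ c.2 ∨ (i < c.1 ∧ m.testBit i = true ∧ j = c.1) := by
  simp only [Code.ext, List.mem_append, List.mem_map, List.mem_filter, List.mem_range,
    Prod.mk.injEq]
  refine or_congr Iff.rfl ⟨?_, ?_⟩
  · rintro ⟨a, ⟨h1, h2⟩, rfl, rfl⟩
    exact ⟨h1, h2, rfl⟩
  · rintro ⟨h1, h2, rfl⟩
    exact ⟨i, ⟨h1, h2⟩, rfl, rfl⟩

/-- One-vertex extensions. -/
theorem ext_iso {α : Type} (A : SimpleGraph α) (v : α) (c : Code)
    (hc : ∀ e ∈ c.2, e.1 < c.1 ∧ e.2 < c.1)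
    (h : Nonempty (A.induce {x | x ≠ v} ≃g c.g)) : ∃ m < 2 ^ c.1, Nonempty (A ≃g (c.ext m).g) := by
  classical
  obtain ⟨φ⟩ := h
  obtain ⟨m, hm, hP⟩ := clsa_mask c.1 fun i =>
    if h : i < c.1 then decide (A.Adj v (φ.symm ⟨i, h⟩).val) else false
  refine ⟨m, hm, ?_⟩
  let F : α → Fin (c.1 + 1) := fun x =>
    if h : x = v then Fin.last _ else (φ ⟨x, h⟩).castSucc
  have Fv : F v = Fin.last _ := by simp [F]
  have Fx : ∀ x (h : x ≠ v), F x = (φ ⟨x, h⟩).castSucc := fun x h => by simp [F, h]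
  have Finj : Function.Injective F := by
    intro x y e
    by_cases hx : x = v <;> by_cases hy : y = v
    · rw [hx, hy]
    · rw [hx, Fv, Fx y hy] at e
      exact absurd e.symm (Fin.castSucc_ne_last _)
    · rw [hy, Fv, Fx x hx] at e
      exact absurd e (Fin.castSucc_ne_last _)
    · rw [Fx x hx, Fx y hy] at e
      exact congrArg Subtype.val (φ.injective (Fin.castSucc_injective _ e))
  have Fsurj : Function.Surjective F := by
    intro i
    refine Fin.lastCases ⟨v, Fv⟩ (fun j => ⟨(φ.symm j).val, ?_⟩) i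
    rw [Fx _ (φ.symm j).2]
    simp
  have hadj : ∀ x (h : x ≠ v),
      adjL (c.ext m).2 (φ ⟨x, h⟩).val c.1 = true ↔ A.Adj v x := by
    intro x h
    have lt := (φ ⟨x, h⟩).2
    have := hP _ lt
    simp only [lt, dite_true, Fin.eta, RelIso.symm_apply_apply] at this
    rw [clsa_adjL_iff, clsa_mem_ext, clsa_mem_ext, this]
    constructor
    · rintro ((k | k) | (k | k))
      · exact absurd (hc _ k).2 (lt_irrefl _)
      · simpa using k.2.1
      · exact absurd (hc _ k).1 (lt_irrefl _)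
      · exact absurd k.1 (lt_irrefl _)
    · intro k
      exact Or.inl (Or.inr ⟨lt, by simpa using k, rfl⟩)
  refine ⟨⟨Equiv.ofBijective F ⟨Finj, Fsurj⟩, fun {x y} => ?_⟩⟩
  change (gr (c.1 + 1) (c.ext m).2).Adj (F x) (F y) ↔ A.Adj x y
  rw [gr_adj, Finj.ne_iff]
  by_cases hx : x = v <;> by_cases hy : y = v
  · rw [hx, hy]
    simp
  · rw [hx, Fv, Fx y hy, clsa_symm, Fin.val_last, Fin.val_castSucc, hadj y hy]
    exact ⟨fun k => k.2, fun k => ⟨k.ne, k⟩⟩
  · rw [hy, Fv, Fx x hx, Fin.val_last, Fin.val_castSucc, hadj x hx]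
    exact ⟨fun k => k.2.symm, fun k => ⟨k.ne, k.symm⟩⟩
  · have k := φ.map_adj_iff (v := ⟨x, hx⟩) (w := ⟨y, hy⟩)
    rw [gr_adj, φ.injective.ne_iff] at k
    have l1 := (φ ⟨x, hx⟩).2
    have l2 := (φ ⟨y, hy⟩).2
    have e : adjL (c.ext m).2 (φ ⟨x, hx⟩).val (φ ⟨y, hy⟩).val = true ↔
        adjL c.2 (φ ⟨x, hx⟩).val (φ ⟨y, hy⟩).val = true := by
      rw [clsa_adjL_iff, clsa_adjL_iff, clsa_mem_ext, clsa_mem_ext]
      constructor
      · rintro ((k | k) | (k | k))
        · exact Or.inl k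
        · omega
        · exact Or.inr k
        · omega
      · rintro (k | k)
        · exact Or.inl (Or.inl k)
        · exact Or.inr (Or.inl k)
    rw [Fx x hx, Fx y hy, Fin.val_castSucc, Fin.val_castSucc, e]
    simpa using k

/-- Induced containment between finite graphs of equal order is isomorphism. -/
theorem iso_of_indC {α β : Type} [Fintype α] [Fintype β] {A : SimpleGraph α} {B : SimpleGraph β}
    (h : A.IsIndContained B) (hc : Fintype.card α = Fintype.card β) : Nonempty (A ≃g B) := by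
  obtain ⟨φ⟩ := h
  have bij : Function.Bijective φ := (Fintype.bijective_iff_injective_and_card _).2 ⟨φ.injective, hc⟩
  exact ⟨⟨Equiv.ofBijective φ bij, fun {a b} => φ.map_adj_iff⟩⟩

end Pool.Agent.Lib.MP_849b2e_co
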