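import Pool.Agent.Lib.MP_849b2e_co.UnbGen

/-!
Codes of two further graphs.
-/

namespace Pool.Agent.Lib.MP_849b2e_co

def cPaw : Code := (4, [(0, 1), (0, 2), (1, 2), (2, 3)])
def cP1S113 : Code := (7, [(1, 2), (1, 3), (1, 4), (4, 5), (5, 6)])

end Pool.Agent.Lib.MP_849b2e_co
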