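import Pool.Agent.Lib.MP_849b2e_co.Graph

/-!
Cographs without a fixed induced threshold graph.
-/

namespace Pool.Agent.Lib.MP_849b2e_co

variable {β : Type}

/-- No induced path on four vertices, in elementary form. -/
def CogP4 (E : Adj) (S : Finset ℕ) : Prop :=
  ∀ a ∈ S, ∀ b ∈ S, ∀ c ∈ S, ∀ d ∈ S, a ≠ b → b ≠ c → c ≠ d → a ≠ c → a ≠ d → b ≠ d →
    E a b = true → E b c = true → E c d = true → E a c = false → E a d = false → E b d = false →
    False

/-- Distance at most two inside `S`. -/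
def CogR (E : Adj) (S : Finset ℕ) (u v : ℕ) : Prop :=
  u = v ∨ E u v = true ∨ ∃ w ∈ S, w ≠ u ∧ w ≠ v ∧ E u w = true ∧ E w v = true

/-- Embedding of the part `T` of `B`. -/
def CogEmb (B : SimpleGraph β) (T : Finset β) (E : Adj) (S : Finset ℕ) : Prop :=
  ∃ x : β → ℕ, Set.InjOn x T ∧ (∀ a ∈ T, x a ∈ S) ∧
    ∀ a ∈ T, ∀ b ∈ T, a ≠ b → (E (x a) (x b) = true ↔ B.Adj a b)

/-- Threshold graphs, in elementary form. -/
def CogThr (B : SimpleGraph β) : Prop :=
  ∀ v z x y, B.Adj v z → B.Adj x y → ¬ B.Adj v x → ¬ B.Adj z y → v ≠ x → z ≠ y → False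

theorem cog_p4_mono {E : Adj} {S S' : Finset ℕ} (h : CogP4 E S) (hS : S' ⊆ S) : CogP4 E S' :=
  fun a ha b hb c hc d hd => h a (hS ha) b (hS hb) c (hS hc) d (hS hd)

theorem cog_p4_compl {E : Adj} (hE : ∀ u v, E u v = E v u) {S : Finset ℕ} (h : CogP4 E S) :
    CogP4 (fun u v => !E u v) S := by
  intro a ha b hb c hc d hd ab bc cd ac ad bd e1 e2 e3 e4 e5 e6
  simp only [Bool.not_eq_true', Bool.not_eq_false'] at e1 e2 e3 e4 e5 e6
  exact h c hc a ha d hd b hb ac.symm ad bd.symm cd bc.symm ab (by rw [hE]; exact e4) e5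
    (by rw [hE]; exact e6) e3 (by rw [hE]; exact e2) e1

theorem cog_r_symm {E : Adj} (hE : ∀ u v, E u v = E v u) {S : Finset ℕ} {u v : ℕ}
    (h : CogR E S u v) : CogR E S v u := by
  rcases h with h | h | ⟨w, hw, h1, h2, h3, h4⟩
  · exact Or.inl h.symm
  · exact Or.inr (Or.inl (by rw [hE]; exact h))
  · exact Or.inr (Or.inr ⟨w, hw, h2, h1, by rw [hE]; exact h4, by rw [hE]; exact h3⟩)

theorem cog_r_step {E : Adj} {S : Finset ℕ} (hP : CogP4 E S)
    {u v x : ℕ} (hu : u ∈ S) (hv : v ∈ S) (hx : x ∈ S) (h : CogR E S u v) (e : E v x = true) :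
    CogR E S u x := by
  by_cases ux : u = x
  · exact Or.inl ux
  by_cases vx : v = x
  · rw [← vx]; exact h
  by_cases uv : u = v
  · exact Or.inr (Or.inl (by rw [uv]; exact e))
  cases e1 : E u x
  swap
  · exact Or.inr (Or.inl e1)
  cases e2 : E u v
  swap
  · exact Or.inr (Or.inr ⟨v, hv, fun c => uv c.symm, vx, e2, e⟩)
  rcases h with h | h | ⟨w, hw, h1, h2, h3, h4⟩
  · exact absurd h uv
  · rw [e2] at h; cases h
  · have wx : w ≠ x := by
      rintro rfl
      rw [e1] at h3; cases h3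
    cases e3 : E w x
    · exact (hP u hu w hw v hv x hx h1.symm h2 vx uv ux wx h3 h4 e e2 e1 e3).elim
    · exact Or.inr (Or.inr ⟨w, hw, h1, wx, h3, e3⟩)

theorem cog_r_trans {E : Adj} {S : Finset ℕ} (hP : CogP4 E S)
    {u v x : ℕ} (hu : u ∈ S) (hv : v ∈ S) (hx : x ∈ S) (h : CogR E S u v) (h' : CogR E S v x) :
    CogR E S u x := by
  rcases h' with h' | h' | ⟨w, hw, _, _, h3, h4⟩
  · rw [← h']; exact h
  · exact cog_r_step hP hu hv hx h h'
  · exact cog_r_step hP hu hw hx (cog_r_step hP hu hv hw h h3) h4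

open Classical in
/-- Concatenating the components. -/
theorem cog_blocks {E : Adj} (hE : ∀ u v, E u v = E v u) {S : Finset ℕ} (hP : CogP4 E S) {c : ℕ}
    (h : ∀ u ∈ S, LW E (S.filter (CogR E S u)) c) : LW E S (1 + c * 1) := by
  let f : ℕ → ℕ := fun v => sInf {w | w ∈ S ∧ CogR E S v w}
  have hf : ∀ v ∈ S, f v ∈ S ∧ CogR E S v (f v) := fun v hv =>
    Nat.sInf_mem (s := {w | w ∈ S ∧ CogR E S v w}) ⟨v, hv, Or.inl rfl⟩
  have hf2 : ∀ u ∈ S, ∀ v ∈ S, CogR E S u v → f u = f v := by
    intro u hu v hv r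
    have : {w | w ∈ S ∧ CogR E S u w} = {w | w ∈ S ∧ CogR E S v w} := by
      ext w
      exact ⟨fun a => ⟨a.1, cog_r_trans hP hv hu a.1 (cog_r_symm hE r) a.2⟩,
        fun a => ⟨a.1, cog_r_trans hP hu hv a.1 r a.2⟩⟩
    simp only [f, this]
  refine LW.blocks f (fun i => ?_) (fun i => ?_)
  · by_cases hi : i ∈ S
    · refine (h i hi).mono (fun v hv => ?_) le_rfl
      simp only [Finset.mem_filter] at hv ⊢
      refine ⟨hv.1, cog_r_symm hE ?_⟩
      rw [← hv.2]; exact (hf v hv.1).2
    · refine (LW.empty E c).mono (fun v hv => ?_) le_rfl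
      simp only [Finset.mem_filter] at hv
      exact absurd (hv.2 ▸ (hf v hv.1).1) hi
  · have key : ∀ u ∈ S.filter (fun v => f v < i), ∀ w ∈ S.filter (fun v => i ≤ f v),
        E u w = false := by
      intro u hu w hw
      simp only [Finset.mem_filter] at hu hw
      cases e : E u w
      · rfl
      · have := hf2 u hu.1 w hw.1 (Or.inr (Or.inl e))
        omega
    exact ⟨fun _ => 0, fun _ _ => Nat.one_pos, fun u hu v hv _ w hw => by
      rw [key u hu w hw, key v hv w hw]⟩

open Classical in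
/-- A component is connected. -/
theorem cog_comp_conn {E : Adj} (hE : ∀ u v, E u v = E v u) {S : Finset ℕ} (hP : CogP4 E S)
    {u : ℕ} (hu : u ∈ S) : ∀ a ∈ S.filter (CogR E S u), ∀ b ∈ S.filter (CogR E S u),
      CogR E (S.filter (CogR E S u)) a b := by
  intro a ha b hb
  simp only [Finset.mem_filter] at ha hb
  rcases cog_r_trans hP ha.1 hu hb.1 (cog_r_symm hE ha.2) hb.2 with h | h | ⟨w, hw, h1, h2, h3, h4⟩
  · exact Or.inl h
  · exact Or.inr (Or.inl h)
  · exact Or.inr (Or.inr ⟨w, Finset.mem_filter.2 ⟨hw, cog_r_step hP hu ha.1 hw ha.2 h3⟩,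
      h1, h2, h3, h4⟩)

/-- Seinsche's theorem. -/
theorem cog_seinsche {E : Adj} (hE : ∀ u v, E u v = E v u) {S : Finset ℕ} (hP : CogP4 E S)
    (h1 : ∀ a ∈ S, ∀ b ∈ S, CogR E S a b)
    (h2 : ∀ a ∈ S, ∀ b ∈ S, CogR (fun u v => !E u v) S a b) : S.card ≤ 1 := by
  classical
  by_contra hc
  obtain ⟨v, hv, v', hv', vv'⟩ := Finset.one_lt_card.1 (not_le.1 hc)
  have hN : (S.filter (fun y => y ≠ v ∧ E v y = true)).Nonempty := by
    rcases h1 v hv v' hv' with h | h | ⟨w, hw, a1, _, a3, _⟩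
    · exact absurd h vv'
    · exact ⟨v', Finset.mem_filter.2 ⟨hv', fun c => vv' c.symm, h⟩⟩
    · exact ⟨w, Finset.mem_filter.2 ⟨hw, a1, a3⟩⟩
  obtain ⟨y, hy, hmax⟩ := Finset.exists_max_image _
    (fun y => (S.filter (fun x => x ≠ v ∧ E v x = false ∧ E y x = true)).card) hN
  simp only [Finset.mem_filter] at hy
  obtain ⟨hy, yv, evy⟩ := hy
  rcases h2 v hv y hy with h | h | ⟨w, hw, wv, wy, evw, ewy⟩
  · exact yv h.symm
  · simp [evy] at h
  simp only [Bool.not_eq_true'] at evw ewy
  rcases h1 v hv w hw with h | h | ⟨y', hy', y'v, y'w, evy', ey'w⟩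
  · exact wv h.symm
  · rw [evw] at h; cases h
  have eyw : E y w = false := by rw [hE]; exact ewy
  have yy' : y ≠ y' := by
    rintro rfl
    rw [eyw] at ey'w; cases ey'w
  have := hmax y' (Finset.mem_filter.2 ⟨hy', y'v, evy'⟩)
  refine absurd this (not_le.2 (Finset.card_lt_card ⟨fun x hx => ?_, fun hsub => ?_⟩))
  · simp only [Finset.mem_filter] at hx ⊢
    obtain ⟨hx, xv, evx, eyx⟩ := hx
    refine ⟨hx, xv, evx, ?_⟩
    have xw : x ≠ w := by
      rintro rfl
      rw [eyw] at eyx; cases eyx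
    have yx : y ≠ x := by
      rintro rfl
      rw [evy] at evx; cases evx
    have y'x : y' ≠ x := by
      rintro rfl
      rw [evy'] at evx; cases evx
    have exw : E x w = false := by
      cases e : E x w
      · rfl
      · exact (hP v hv y hy x hx w hw yv.symm yx xw xv.symm wv.symm wy.symm evy eyx e evx evw
          eyw).elim
    cases e : E y' x
    swap
    · rfl
    exfalso
    cases e' : E y y'
    · exact hP x hx y hy v hv y' hy' yx.symm yv y'v.symm xv y'x.symm yy' (by rw [hE]; exact eyx)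
        (by rw [hE]; exact evy) evy' (by rw [hE]; exact evx) (by rw [hE]; exact e) e'
    · exact hP x hx y hy y' hy' w hw yx.symm yy' y'w y'x.symm xw wy.symm (by rw [hE]; exact eyx)
        e' ey'w (by rw [hE]; exact e) exw eyw
  · have := hsub (Finset.mem_filter.2 ⟨hw, wv, evw, ey'w⟩)
    simp only [Finset.mem_filter] at this
    rw [eyw] at this
    cases this.2.2.2

theorem cog_lw_compl {E : Adj} {S : Finset ℕ} {c : ℕ} (h : LW (fun u v => !E u v) S c) :
    LW E S c := by
  simpa using LW.flip (E := E) (fun _ => 0) (fun _ _ => true) (k := 1) (by simp) (by simp) h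

/-- Adding an isolated vertex to the forbidden graph. -/
theorem cog_isolated [DecidableEq β] {B : SimpleGraph β} {T : Finset β} {v : β}
    (hv : ∀ a ∈ T, ¬ B.Adj v a) {c : ℕ}
    (h : ∀ E : Adj, (∀ u v, E u v = E v u) → ∀ S, CogP4 E S → ¬ CogEmb B (T.erase v) E S →
      LW E S c) :
    ∀ E : Adj, (∀ u v, E u v = E v u) → ∀ S, CogP4 E S → ¬ CogEmb B T E S → LW E S (c + 2) := by
  classical
  intro E hE S hP hB
  have hE' : ∀ u v, (fun u v => !E u v) u v = (fun u v => !E u v) v u := fun u v => by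
    simp only [hE u v]
  have hP' := cog_p4_compl hE hP
  refine (cog_lw_compl (cog_blocks hE' hP' (c := c + 1) (fun u hu => ?_))).mono subset_rfl
    (by omega)
  set K := S.filter (CogR (fun u v => !E u v) S u) with hK
  have hKS : K ⊆ S := Finset.filter_subset _ _
  have hPK := cog_p4_mono hP hKS
  refine cog_lw_compl ?_
  simp only [Bool.not_not]
  by_cases hc : ∀ a ∈ K, ∀ b ∈ K, CogR E K a b
  · exact (LW.card E K).mono subset_rfl
      ((cog_seinsche hE hPK hc (cog_comp_conn hE' hP' hu)).trans (by omega))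
  refine (cog_blocks hE hPK (c := c) (fun w hw => ?_)).mono subset_rfl (by omega)
  obtain ⟨z, hz, hzw⟩ : ∃ z ∈ K, ¬ CogR E K w z := by
    by_contra hcon
    push Not at hcon
    exact hc fun a ha b hb => cog_r_trans hPK ha hw hb (cog_r_symm hE (hcon a ha)) (hcon b hb)
  refine h E hE _ (cog_p4_mono hPK (Finset.filter_subset _ _)) fun ⟨x, x1, x2, x3⟩ => hB ?_
  have hxz : ∀ a ∈ T.erase v, x a ≠ z ∧ E (x a) z = false := by
    intro a ha
    have := Finset.mem_filter.1 (x2 a ha)
    refine ⟨fun c => hzw (c ▸ this.2), ?_⟩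
    cases e : E (x a) z
    · rfl
    · exact absurd (cog_r_step hPK hw this.1 hz this.2 e) hzw
  refine ⟨Function.update x v z, fun a ha b hb e => ?_, fun a ha => ?_, fun a ha b hb ab => ?_⟩
  · by_cases av : a = v <;> by_cases bv : b = v
    · rw [av, bv]
    · rw [av, Function.update_self, Function.update_of_ne bv] at e
      exact absurd e.symm (hxz b (Finset.mem_erase.2 ⟨bv, hb⟩)).1
    · rw [bv, Function.update_self, Function.update_of_ne av] at e
      exact absurd e (hxz a (Finset.mem_erase.2 ⟨av, ha⟩)).1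
    · rw [Function.update_of_ne av, Function.update_of_ne bv] at e
      exact x1 (Finset.mem_coe.2 (Finset.mem_erase.2 ⟨av, ha⟩))
        (Finset.mem_coe.2 (Finset.mem_erase.2 ⟨bv, hb⟩)) e
  · by_cases av : a = v
    · rw [av, Function.update_self]; exact hKS hz
    · rw [Function.update_of_ne av]
      exact hKS (Finset.mem_filter.1 (x2 a (Finset.mem_erase.2 ⟨av, ha⟩))).1
  · by_cases av : a = v <;> by_cases bv : b = v
    · exact absurd (av.trans bv.symm) ab
    · rw [av, Function.update_self, Function.update_of_ne bv, hE,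
        (hxz b (Finset.mem_erase.2 ⟨bv, hb⟩)).2]
      simpa using hv b hb
    · rw [bv, Function.update_self, Function.update_of_ne av,
        (hxz a (Finset.mem_erase.2 ⟨av, ha⟩)).2, B.adj_comm]
      simpa using hv a ha
    · rw [Function.update_of_ne av, Function.update_of_ne bv]
      exact x3 a (Finset.mem_erase.2 ⟨av, ha⟩) b (Finset.mem_erase.2 ⟨bv, hb⟩) ab

theorem cog_thr_compl {B : SimpleGraph β} (h : CogThr B) : CogThr Bᶜ := by
  intro v z x y h1 h2 h3 h4 vx zy
  simp only [SimpleGraph.compl_adj, ne_eq, not_and, not_not] at h1 h2 h3 h4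
  exact h v x z y (h3 vx) (h4 zy) h1.2 h2.2 h1.1 h2.1

theorem cog_emb_compl {B : SimpleGraph β} {T : Finset β} {E : Adj} {S : Finset ℕ}
    (h : CogEmb Bᶜ T (fun u v => !E u v) S) : CogEmb B T E S := by
  obtain ⟨x, h1, h2, h3⟩ := h
  refine ⟨x, h1, h2, fun a ha b hb ab => ?_⟩
  have := h3 a ha b hb ab
  simp only [SimpleGraph.compl_adj, ne_eq, ab, not_false_eq_true, true_and] at this
  cases e : E (x a) (x b) <;> simp_all

/-- A threshold graph has an isolated or a dominating vertex. -/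
theorem cog_thr_vertex {B : SimpleGraph β} (h : CogThr B) {T : Finset β} (hT : T.Nonempty) :
    ∃ v ∈ T, (∀ a ∈ T, ¬ B.Adj v a) ∨ ∀ a ∈ T, ¬ Bᶜ.Adj v a := by
  classical
  obtain ⟨v, hv, hmax⟩ := Finset.exists_max_image T (fun v => (T.filter (B.Adj v)).card) hT
  by_contra hcon
  push Not at hcon
  obtain ⟨x, hx, vx⟩ := (hcon v hv).2
  obtain ⟨y, hy, xy⟩ := (hcon x hx).1
  rw [SimpleGraph.compl_adj] at vx
  have hsub : (T.filter (B.Adj v)).erase y ⊆ ((T.filter (B.Adj y)).erase x).erase v := by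
    intro z hz
    simp only [Finset.mem_erase, Finset.mem_filter] at hz ⊢
    refine ⟨hz.2.2.ne', fun c => vx.2 (c ▸ hz.2.2), hz.2.1, ?_⟩
    by_contra c
    exact h v z x y hz.2.2 xy vx.2 (fun d => c d.symm) vx.1 hz.1
  have h1 := Finset.card_le_card hsub
  have h2 := hmax y hy
  have hxm : x ∈ T.filter (B.Adj y) := Finset.mem_filter.2 ⟨hx, xy.symm⟩
  have h3 := Finset.card_erase_add_one hxm
  by_cases vy : B.Adj v y
  · have h4 := Finset.card_erase_add_one (Finset.mem_filter.2 ⟨hy, vy⟩ : y ∈ T.filter (B.Adj v))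
    have h5 := Finset.card_erase_add_one (Finset.mem_erase.2 ⟨vx.1, Finset.mem_filter.2
      ⟨hv, vy.symm⟩⟩ : v ∈ (T.filter (B.Adj y)).erase x)
    omega
  · rw [Finset.erase_eq_of_notMem (fun c => vy (Finset.mem_filter.1 c).2)] at h1
    have h5 := Finset.card_erase_le (s := (T.filter (B.Adj y)).erase x) (a := v)
    omega

theorem cog_main (n : ℕ) : ∀ (B : SimpleGraph β), CogThr B → ∀ T : Finset β, T.card = n →
    ∀ E : Adj, (∀ u v, E u v = E v u) → ∀ S, CogP4 E S → ¬ CogEmb B T E S → LW E S (2 * n) := by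
  classical
  induction n with
  | zero =>
    intro B _ T hT E _ S _ hB
    obtain rfl := Finset.card_eq_zero.1 hT
    exact absurd ⟨fun _ => 0, by simp, by simp, by simp⟩ hB
  | succ n ih =>
    intro B hB T hT E hE S hP hT'
    obtain ⟨v, hv, h | h⟩ := cog_thr_vertex hB (T := T) (Finset.card_pos.1 (by omega))
    · exact cog_isolated h (ih B hB (T.erase v) (by rw [Finset.card_erase_of_mem hv]; omega))
        E hE S hP hT'
    · exact cog_lw_compl (cog_isolated h (ih Bᶜ (cog_thr_compl hB) (T.erase v)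
        (by rw [Finset.card_erase_of_mem hv]; omega)) _ (fun u v => by simp only [hE u v]) S
        (cog_p4_compl hE hP) (fun c => hT' (cog_emb_compl c)))

theorem cog_ind4 {B : SimpleGraph β} {l : List (ℕ × ℕ)} (f : Fin 4 → β)
    (hf : Function.Injective f) (h : ∀ i j, i ≠ j → (B.Adj (f i) (f j) ↔ adjL l i j = true)) :
    (gr 4 l).IsIndContained B := by
  refine ⟨⟨⟨f, hf⟩, fun {i j} => ?_⟩⟩
  rw [gr_adj]
  by_cases ij : i = j
  · simp [ij]
  · simpa [ij] using h i j ij

theorem cog_thr_of {B : SimpleGraph β} (h1 : ¬ g2P2.IsIndContained B)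
    (h2 : ¬ gC4.IsIndContained B) (h3 : ¬ gP4.IsIndContained B) : CogThr B := by
  intro v z x y vz xy vx zy nvx nzy
  have nvz := vz.ne
  have nxy := xy.ne
  have nzx : z ≠ x := fun c => vx (c ▸ vz)
  have nvy : v ≠ y := fun c => vx (c ▸ xy.symm)
  have zv := vz.symm
  have yx := xy.symm
  have xv : ¬ B.Adj x v := fun c => vx c.symm
  have yz : ¬ B.Adj y z := fun c => zy c.symm
  have nzv := nvz.symm
  have nyx := nxy.symm
  have nxz := nzx.symm
  have nyv := nvy.symm
  have nxv := nvx.symm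
  have nyz := nzy.symm
  by_cases vy : B.Adj v y <;> by_cases zx : B.Adj z x
  · have yv := vy.symm
    have xz := zx.symm
    refine h2 (cog_ind4 ![v, z, x, y] ?_ ?_)
    · intro i j; fin_cases i <;> fin_cases j <;> simp [*]
    · intro i j; fin_cases i <;> fin_cases j <;> simp [*, adjL]
  · have yv := vy.symm
    have xz : ¬ B.Adj x z := fun c => zx c.symm
    refine h3 (cog_ind4 ![z, v, y, x] ?_ ?_)
    · intro i j; fin_cases i <;> fin_cases j <;> simp [*]
    · intro i j; fin_cases i <;> fin_cases j <;> simp [*, adjL]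
  · have yv : ¬ B.Adj y v := fun c => vy c.symm
    have xz := zx.symm
    refine h3 (cog_ind4 ![v, z, x, y] ?_ ?_)
    · intro i j; fin_cases i <;> fin_cases j <;> simp [*]
    · intro i j; fin_cases i <;> fin_cases j <;> simp [*, adjL]
  · have yv : ¬ B.Adj y v := fun c => vy c.symm
    have xz : ¬ B.Adj x z := fun c => zx c.symm
    refine h1 (cog_ind4 ![v, z, x, y] ?_ ?_)
    · intro i j; fin_cases i <;> fin_cases j <;> simp [*]
    · intro i j; fin_cases i <;> fin_cases j <;> simp [*, adjL]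

/-- Cographs without a fixed threshold graph. -/
theorem bdN_P4 [Fintype β] (B : SimpleGraph β) (h1 : ¬ g2P2.IsIndContained B)
    (h2 : ¬ gC4.IsIndContained B) (h3 : ¬ gP4.IsIndContained B) : BdN gP4 B := by
  refine ⟨2 * Fintype.card β, fun E hE S hP hB => cog_main _ B (cog_thr_of h1 h2 h3) Finset.univ
    Finset.card_univ E hE S ?_ fun ⟨x, x1, x2, x3⟩ => hB ⟨x, fun a b e => x1 (by simp) (by simp) e,
      fun a => x2 a (by simp), fun a b ab => x3 a (by simp) b (by simp) ab⟩⟩
  intro a ha b hb c hc d hd ab bc cd ac ad bd e1 e2 e3 e4 e5 e6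
  have ba := ab.symm
  have cb := bc.symm
  have dc := cd.symm
  have ca := ac.symm
  have da := ad.symm
  have db := bd.symm
  have f1 : E b a = true := by rw [hE]; exact e1
  have f2 : E c b = true := by rw [hE]; exact e2
  have f3 : E d c = true := by rw [hE]; exact e3
  have f4 : E c a = false := by rw [hE]; exact e4
  have f5 : E d a = false := by rw [hE]; exact e5
  have f6 : E d b = false := by rw [hE]; exact e6
  clear hE
  refine hP ⟨![a, b, c, d], ?_, ?_, ?_⟩
  · intro i j; fin_cases i <;> fin_cases j <;> simp [*]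
  · intro i; fin_cases i <;> simp [*]
  · intro i j; fin_cases i <;> fin_cases j <;> simp [*, gr_adj, adjL]

end Pool.Agent.Lib.MP_849b2e_co
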