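import Mathlib

/-!
Linear clique-width: definitions used in the statements.
-/

namespace Pool.Agent.Lib.MP_849b2e_co

/-- `Lin k S G l`: the labelled graph with vertex set `S`, the edges of `G` and labels `l`
(restricted to `S`) is the value of a linear `k`-expression. -/
inductive Lin {V : Type} (k : ℕ) : Set V → SimpleGraph V → (V → Fin k) → Prop
  | single (v : V) (l : V → Fin k) : Lin k {v} ⊥ l
  | add {S : Set V} {G : SimpleGraph V} {l : V → Fin k} (v : V) (l' : V → Fin k) :
      Lin k S G l → v ∉ S → (∀ x ∈ S, l' x = l x) → Lin k (insert v S) G l'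
  | join {S : Set V} {G : SimpleGraph V} {l : V → Fin k} (i j : Fin k) :
      Lin k S G l → i ≠ j →
      Lin k S (G ⊔ SimpleGraph.fromRel fun x y => x ∈ S ∧ y ∈ S ∧ l x = i ∧ l y = j) l
  | relabel {S : Set V} {G : SimpleGraph V} {l : V → Fin k} (i j : Fin k) :
      Lin k S G l → Lin k S G (fun x => if l x = i then j else l x)

/-- The linear clique-width of `G` is at most `k`. -/
def LcwLE {V : Type} (G : SimpleGraph V) (k : ℕ) : Prop :=
  ∃ l : V → Fin k, Lin k Set.univ G l

/-- The class of finite nonempty `(H₁,H₂)`-free graphs has bounded linear clique-width. -/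
def BoundedLcw {α β : Type} (H₁ : SimpleGraph α) (H₂ : SimpleGraph β) : Prop :=
  ∃ c : ℕ, ∀ (V : Type) [Fintype V] [Nonempty V] (G : SimpleGraph V),
    ¬ H₁.IsIndContained G → ¬ H₂.IsIndContained G → LcwLE G c

/-- The graph on `Fin n` with the listed edges. -/
def gr (n : ℕ) (l : List (ℕ × ℕ)) : SimpleGraph (Fin n) :=
  SimpleGraph.fromRel fun x y => (x.val, y.val) ∈ l

end Pool.Agent.Lib.MP_849b2e_co
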