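import Pool.Agent.Lib.MP_849b2e_co.Rules

/-!
Generic lemmas about context extensions, used by the soundness proofs of the rules.
-/

namespace Pool.Agent.Lib.MP_849b2e_co

/-- New types: `f o` is the vertex set of the type `b + o`. -/
def Env.ext (e : Env) (nt b : ℕ) (f : ℕ → Finset ℕ) : Env :=
  ⟨e.E, e.symm, fun t => if t < nt then e.U t else if t < b then ∅ else f (t - b), e.P⟩

@[simp] theorem Env.ext_E (e : Env) (nt b : ℕ) (f : ℕ → Finset ℕ) : (e.ext nt b f).E = e.E := rfl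
@[simp] theorem Env.ext_P (e : Env) (nt b : ℕ) (f : ℕ → Finset ℕ) : (e.ext nt b f).P = e.P := rfl

theorem Env.ext_old (e : Env) {nt t : ℕ} (b : ℕ) (f : ℕ → Finset ℕ) (h : t < nt) :
    (e.ext nt b f).U t = e.U t := by simp [Env.ext, h]

theorem Env.ext_new (e : Env) {nt b : ℕ} (f : ℕ → Finset ℕ) (h : nt ≤ b) (o : ℕ) :
    (e.ext nt b f).U (b + o) = f o := by
  have h1 : ¬ b + o < nt := by omega
  have h2 : ¬ b + o < b := by omega
  simp [Env.ext, h1, h2]

/-- With no new types, the extension only empties the types `≥ nt`. -/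
theorem Env.ext_empty (e : Env) (nt b : ℕ) {t v : ℕ}
    (h : v ∈ (e.ext nt b fun _ => ∅).U t) : t < nt ∧ v ∈ e.U t := by
  by_cases c : t < nt
  · exact ⟨c, by rwa [e.ext_old b _ c] at h⟩
  · simp [Env.ext, c] at h

theorem Env.ext_un (e : Env) {nt : ℕ} (b : ℕ) (f : ℕ → Finset ℕ) {A : List ℕ}
    (h : ∀ a ∈ A, a < nt) : (e.ext nt b f).un A = e.un A := by
  ext v
  simp only [Env.mem_un]
  exact exists_congr fun a => and_congr_right fun ha => by rw [e.ext_old b f (h a ha)]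

/-- The semantic requirements of an extension `x` with new vertex sets `f`. -/
structure ExtSem (e : Env) (nt b : ℕ) (x : Ext) (f : ℕ → Finset ℕ) : Prop where
  kid : ∀ o (h : o < x.kids.length), ∀ v ∈ f o,
    v ∈ e.U x.kids[o].par ∧
    (∀ o', x.kids[o].sib.testBit o' = true → v ∉ f o') ∧
    (∀ p, x.kids[o].p1.testBit p = true → e.E v (e.P p) = true) ∧
    (∀ p, x.kids[o].p0.testBit p = true → e.E v (e.P p) = false) ∧
    (∀ p, x.kids[o].xp.testBit p = true → v ≠ e.P p)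
  ev : ∀ v ∈ x.evs, EvSem (e.ext nt b f) v
  ax : ∀ a ∈ x.axs, AxHolds (e.ext nt b f) a
  sc : ∀ s ∈ x.scs, ScSem (e.ext nt b f) s
  dead : ∀ t, x.dead.testBit t = true → (e.ext nt b f).U t = ∅

variable {T : Tab} {Γ Γ' : Ctx} {I : Ids} {x : Ext} {e : Env} {A A' : List ℕ}

theorem allLt_iff {n : ℕ} {l : List ℕ} : allLt n l = true ↔ ∀ t ∈ l, t < n := by
  simp [allLt]

theorem beqB_iff {a b : Bool} : beqB a b = true ↔ a = b := by
  cases a <;> cases b <;> simp [beqB]

theorem isNil_iff {α : Type} {l : List α} : isNil l = true ↔ l = [] := by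
  cases l
  · simp [isNil]
  · simp [isNil]

theorem isLW_iff : isLW Γ = true ↔ Γ.md = none := by simp [isLW]

theorem ext_lbeq {α : Type} {f : α → α → Bool} (hf : ∀ a b, f a b = true → a = b) :
    ∀ l m : List α, lbeq f l m = true → l = m := by
  intro l
  induction l with
  | nil => intro m h; exact (isNil_iff.1 h).symm
  | cons a l ih =>
    intro m h
    cases m with
    | nil => exact absurd h (by simp [lbeq])
    | cons b m =>
      have e : lbeq f (a :: l) (b :: m) = andb (f a b) (lbeq f l m) := rfl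
      rw [e, andb_eq, Bool.and_eq_true] at h
      rw [hf a b h.1, ih m h.2]

theorem ext_lbeq_nat {l m : List ℕ} (h : lbeq Nat.beq l m = true) : l = m :=
  ext_lbeq (fun _ _ h => Nat.eq_of_beq_eq_true h) l m h

theorem Ty.eq_of_beq {x y : Ty} (h : Ty.beq x y = true) : x = y := by
  cases x; cases y
  simp only [Ty.beq, andb_eq, Bool.and_eq_true, Nat.beq_eq] at h
  obtain ⟨rfl, rfl, rfl, rfl, rfl⟩ := h
  rfl

theorem ext_ev_eq {x y : Ev} (h : Ev.beq x y = true) : x = y := by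
  cases x; cases y
  simp only [Ev.beq, andb_eq, Bool.and_eq_true, Nat.beq_eq] at h
  obtain ⟨rfl, h, rfl⟩ := h
  rw [ext_lbeq_nat h]

theorem ext_lit_eq (x y : Lit) (h : Lit.beq x y = true) : x = y := by
  cases x; cases y
  simp only [Lit.beq, andb_eq, Bool.and_eq_true, Nat.beq_eq, beqB_iff] at h
  obtain ⟨rfl, rfl, rfl⟩ := h
  rfl

theorem ext_dj_eq (x y : Dj) (h : Dj.beq x y = true) : x = y := by
  cases x; cases y
  simp only [Dj.beq, andb_eq, Bool.and_eq_true, Nat.beq_eq] at h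
  obtain ⟨rfl, h⟩ := h
  rw [ext_lbeq (fun a b h => ?_) _ _ h]
  simp only [Bool.and_eq_true, Nat.beq_eq, beqB_iff] at h
  exact Prod.ext h.1 h.2

theorem Ax.eq_of_beq {x y : Ax} (h : Ax.beq x y = true) : x = y := by
  cases x; cases y
  simp only [Ax.beq, andb_eq, Bool.and_eq_true, Nat.beq_eq] at h
  obtain ⟨h1, h2, h3, rfl⟩ := h
  rw [ext_lbeq_nat h1, ext_lbeq ext_lit_eq _ _ h2, ext_lbeq ext_dj_eq _ _ h3]

theorem ext_sc_eq {x y : Sc} (h : Sc.beq x y = true) : x = y := by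
  cases x; cases y
  simp only [Sc.beq, andb_eq, Bool.and_eq_true] at h
  rw [ext_lbeq_nat h.1, ext_lbeq_nat h.2]

theorem ext_md_eq {x y : Option (List ℕ × List ℕ)} (h : mdBeq x y = true) : x = y := by
  rcases x with _ | a <;> rcases y with _ | b
  · rfl
  · simp [mdBeq] at h
  · simp [mdBeq] at h
  · simp only [mdBeq, andb_eq, Bool.and_eq_true] at h
    rw [Prod.ext (ext_lbeq_nat h.1) (ext_lbeq_nat h.2)]

theorem Ax.wf_of_wfb {nt : ℕ} {a : Ax} (h : Ax.wfb nt a = true) : a.WF nt := by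
  simp only [Ax.wfb, andb_eq, Bool.and_eq_true, allLt_iff, allb_eq, List.all_eq_true,
    ltb_iff] at h
  exact ⟨fun S hS t ht => lt_of_testBit_of_lt_pw (h.1 S hS) ht, h.2⟩

theorem ext_ev_wf {nt np : ℕ} {v : Ev} (h : Ev.wfb nt np v = true) : v.WF nt np := by
  simp only [Ev.wfb, andb_eq, Bool.and_eq_true, allLt_iff, ltb_iff] at h
  exact ⟨h.1, h.2.1, fun p hp => lt_of_testBit_of_lt_pw h.2.2 hp⟩

theorem ext_kidsOK {b m : ℕ} : ∀ (l : List Kid) (o : ℕ), kidsOK T Γ b m l o = true →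
    ∀ j (hj : j < l.length), kidOK T Γ b m (o + j) l[j] = true := by
  intro l
  induction l with
  | nil => intro o _ j hj; simp at hj
  | cons k l ih =>
    intro o h j hj
    have e : kidsOK T Γ b m (k :: l) o =
      andb (kidOK T Γ b m o k) (kidsOK T Γ b m l (Nat.succ o)) := rfl
    rw [e, andb_eq, Bool.and_eq_true] at h
    cases j with
    | zero => exact h.1
    | succ j =>
      have := ih _ h.2 j (by simpa using hj)
      rw [show o + (j + 1) = Nat.succ o + j by omega]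
      exact this

theorem ext_idsOK {α : Type} {ok : ℕ → α → Bool} {i : ℕ} : ∀ (is : List ℕ) (m : List α),
    idsOK ok is m = true → i + 1 ∈ is → ∃ a ∈ m, ok i a = true := by
  intro is
  induction is with
  | nil => intro m _ hi; simp at hi
  | cons j is ih =>
    intro m h hi
    cases m with
    | nil => exact absurd h (by simp [idsOK])
    | cons a m =>
      have e : idsOK ok (j :: is) (a :: m) =
        andb (orb (Nat.beq j 0) (ok (Nat.pred j) a)) (idsOK ok is m) := rfl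
      rw [e, andb_eq, orb_eq, Bool.and_eq_true, Bool.or_eq_true, Nat.beq_eq] at h
      rcases List.mem_cons.1 hi with rfl | hi
      · exact ⟨a, List.mem_cons_self, h.1.resolve_left (by omega)⟩
      · obtain ⟨a', h1, h2⟩ := ih m h.2 hi
        exact ⟨a', List.mem_cons_of_mem _ h1, h2⟩

theorem ext_idm {l : List ℕ} {i : ℕ} (h : (idm l).testBit i = true) : i + 1 ∈ l := by
  rw [idm, shr_eq, Nat.testBit_shiftRight, testBit_mask, decide_eq_true_eq, add_comm] at h
  exact h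

theorem extOK_le (h : extOK T Γ I x = true) : Γ.nt ≤ I.b := by
  simp only [extOK, andb_eq, Bool.and_eq_true, Nat.ble_eq] at h
  exact h.1

theorem extOK_par (h : extOK T Γ I x = true) : ∀ k ∈ x.kids, k.par < Γ.nt := by
  simp only [extOK, andb_eq, Bool.and_eq_true] at h
  intro k hk
  obtain ⟨j, hj, rfl⟩ := List.getElem_of_mem hk
  have := ext_kidsOK _ _ h.2.2.1 j hj
  simp only [kidOK, andb_eq, Bool.and_eq_true, ltb_iff] at this
  exact this.1

theorem ext_getD_mem {l : List ℕ} {i : ℕ} (h : i < l.length) : l.getD i 0 ∈ l := by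
  rw [List.getD_eq_getElem _ _ h]
  exact List.getElem_mem h

theorem ext_ax_old {nt : ℕ} (b : ℕ) (f : ℕ → Finset ℕ) {a : Ax} (w : a.WF nt)
    (h : AxHolds e a) : AxHolds (e.ext nt b f) a := by
  intro y hy X hX
  have hy' : Emb e a y := by
    refine ⟨fun i hi => ?_, hy.2.1, hy.2.2⟩
    obtain ⟨t, h1, h2⟩ := hy.1 i hi
    exact ⟨t, h1, by rwa [e.ext_old b f (w.1 _ (ext_getD_mem hi) t h1)] at h2⟩
  obtain ⟨z, h1, h2, d, h3, h4, h5⟩ := h y hy' X hX
  exact ⟨z, h1, h2, d, h3, by rwa [e.ext_old b f (w.2 d h3).1], h5⟩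

theorem ext_sc_old {nt : ℕ} (b : ℕ) (f : ℕ → Finset ℕ) {s : Sc} (w : ∀ t ∈ s.ts, t < nt)
    (h : ScSem e s) : ScSem (e.ext nt b f) s := by
  have u : ∀ i < s.ts.length, (e.ext nt b f).U (s.ts.getD i 0) = e.U (s.ts.getD i 0) :=
    fun i hi => e.ext_old b f (w _ (ext_getD_mem hi))
  refine ⟨fun i hi j hj v h1 h2 => h.1 i hi j hj v (by rwa [u i hi] at h1)
    (by rwa [u j hj] at h2), fun y hy z hz => ?_⟩
  rw [e.ext_un b f w] at hy hz
  refine Relation.ReflTransGen.mono ?_ _ _ (h.2 y hy z hz)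
  rintro p q ⟨h1, i, hi, j, hj, h2, h3, h4⟩
  exact ⟨h1, i, hi, j, hj, by rwa [u i hi], by rwa [u j hj], h4⟩

theorem holds_ext (h : extOK T Γ I x = true) (H : Holds T Γ e) {f : ℕ → Finset ℕ}
    (hf : ExtSem e Γ.nt I.b x f) : Holds T (extCtx Γ I x) (e.ext Γ.nt I.b f) := by
  simp only [extOK, andb_eq, Bool.and_eq_true, Nat.ble_eq, ltb_iff] at h
  obtain ⟨hb, hw, hk, hev, hax, hsc, hd⟩ := h
  have old : ∀ {t}, t < Γ.nt → (e.ext Γ.nt I.b f).U t = e.U t := fun ht => e.ext_old _ f ht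
  refine ⟨hw, fun t ht v hv => ?_, fun i hi => ?_, fun i hi => ?_, fun i hi => ?_,
    fun t ht => ?_, ?_, fun lo hi hm => ?_⟩
  · change t < I.b + x.kids.length at ht
    change (∀ s, _ → s < I.b + x.kids.length ∧ _) ∧ (∀ s, _ → s < I.b + x.kids.length ∧ _) ∧
      (∀ p, _ → p < Γ.st.n ∧ _) ∧ (∀ p, _ → p < Γ.st.n ∧ _) ∧ (∀ p, _ → p < Γ.st.n ∧ _)
    by_cases c : t < Γ.nt
    · rw [old c] at hv
      obtain ⟨a1, a2, a3⟩ := H.ty t c v hv
      refine ⟨fun s hs => ?_, fun s hs => ?_, a3⟩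
      · obtain ⟨b1, b2⟩ := a1 s hs
        exact ⟨by omega, by rwa [old b1]⟩
      · obtain ⟨b1, b2⟩ := a2 s hs
        exact ⟨by omega, by rwa [old b1]⟩
    · by_cases c' : t < I.b
      · simp [Env.ext, c, c'] at hv
      · obtain ⟨o, rfl⟩ : ∃ o, t = I.b + o := ⟨t - I.b, by omega⟩
        have ho : o < x.kids.length := by omega
        have hv' := hv
        rw [e.ext_new f hb] at hv'
        have ok := ext_kidsOK _ _ hk o ho
        rw [Nat.zero_add] at ok
        simp only [kidOK, andb_eq, Bool.and_eq_true, ltb_iff, allLt_iff, List.mem_cons,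
          List.not_mem_nil, or_false, forall_eq_or_imp, forall_eq] at ok
        obtain ⟨k1, k2, k3, k4, k5, k6⟩ := ok
        obtain ⟨s1, s2, s3, s4, s5⟩ := hf.kid o ho v hv'
        obtain ⟨a1, a2, a3, a4, a5⟩ := H.ty _ k1 v s1
        rw [Ty.eq_of_beq k2]
        simp only [kidTy, lor_eq, shl_eq, Nat.testBit_or, Bool.or_eq_true, testBit_pw,
          decide_eq_true_eq, Nat.testBit_shiftLeft, Bool.and_eq_true, ge_iff_le]
        refine ⟨?_, ?_, ?_, ?_, ?_⟩
        · rintro s (hs | rfl)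
          · obtain ⟨b1, b2⟩ := a1 s hs
            exact ⟨by omega, by rwa [old b1]⟩
          · exact ⟨ht, hv⟩
        · rintro s (hs | ⟨hs, hs'⟩)
          · obtain ⟨b1, b2⟩ := a2 s hs
            exact ⟨by omega, by rwa [old b1]⟩
          · obtain ⟨o', rfl⟩ : ∃ o', s = I.b + o' := ⟨s - I.b, by omega⟩
            rw [Nat.add_sub_cancel_left] at hs'
            have := lt_of_testBit_of_lt_pw k3 hs'
            exact ⟨by omega, by rw [e.ext_new f hb]; exact s2 o' hs'⟩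
        · rintro p (hp | hp)
          · exact a3 p hp
          · exact ⟨lt_of_testBit_of_lt_pw k4 hp, s3 p hp⟩
        · rintro p (hp | hp)
          · exact a4 p hp
          · exact ⟨lt_of_testBit_of_lt_pw k5 hp, s4 p hp⟩
        · rintro p (hp | hp)
          · exact a5 p hp
          · exact ⟨lt_of_testBit_of_lt_pw k6 hp, s5 p hp⟩
  · simp only [extCtx, lor_eq, Nat.testBit_or, Bool.or_eq_true] at hi ⊢
    rcases hi with hi | hi
    · obtain ⟨⟨w1, w2, w3⟩, s⟩ := H.ev i hi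
      refine ⟨⟨by omega, fun k hk => by have := w2 k hk; omega, w3⟩, fun y hy hp => ?_⟩
      rw [old w1] at hy
      obtain ⟨k, h1, h2⟩ := s y hy hp
      exact ⟨k, h1, by rwa [old (w2 k h1)]⟩
    · obtain ⟨v, h1, h2⟩ := ext_idsOK _ _ hev (ext_idm hi)
      rw [Bool.and_eq_true] at h2
      rw [ext_ev_eq h2.1]
      exact ⟨ext_ev_wf h2.2, hf.ev v h1⟩
  · simp only [extCtx, lor_eq, Nat.testBit_or, Bool.or_eq_true] at hi ⊢
    rcases hi with hi | hi
    · obtain ⟨w, s⟩ := H.ax i hi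
      refine ⟨⟨fun S hS t ht => ?_, fun d hd => ⟨?_, (w.2 d hd).2⟩⟩, ext_ax_old _ f w s⟩
      · have := w.1 S hS t ht
        omega
      · have := (w.2 d hd).1
        omega
    · obtain ⟨v, h1, h2⟩ := ext_idsOK _ _ hax (ext_idm hi)
      rw [Bool.and_eq_true] at h2
      rw [Ax.eq_of_beq h2.1]
      exact ⟨Ax.wf_of_wfb h2.2, hf.ax v h1⟩
  · simp only [extCtx, lor_eq, Nat.testBit_or, Bool.or_eq_true] at hi ⊢
    rcases hi with hi | hi
    · obtain ⟨w, s⟩ := H.sc i hi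
      exact ⟨fun t ht => by have := w t ht; omega, ext_sc_old _ f w s⟩
    · obtain ⟨v, h1, h2⟩ := ext_idsOK _ _ hsc (ext_idm hi)
      rw [Bool.and_eq_true] at h2
      rw [ext_sc_eq h2.1]
      exact ⟨allLt_iff.1 h2.2, hf.sc v h1⟩
  · simp only [extCtx, lor_eq, Nat.testBit_or, Bool.or_eq_true] at ht ⊢
    rcases ht with ht | ht
    · obtain ⟨a1, a2⟩ := H.dead t ht
      exact ⟨by omega, by rwa [old a1]⟩
    · exact ⟨lt_of_testBit_of_lt_pw hd ht, hf.dead t ht⟩
  · refine ⟨H.par.n, fun u t h1 h2 => ?_, H.par.p1, H.par.p0, H.par.live, H.par.inj⟩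
    obtain ⟨a1, a2, a3⟩ := H.par.m u t h1 h2
    refine ⟨a1, ?_, by rw [old a2]; exact a3⟩
    change t < I.b + x.kids.length
    omega
  · obtain ⟨a1, a2⟩ := H.md lo hi hm
    change (∀ t ∈ lo, t < I.b + x.kids.length) ∧ ∀ t ∈ hi, t < I.b + x.kids.length
    exact ⟨fun t ht => by have := a1 t ht; omega, fun t ht => by have := a2 t ht; omega⟩

theorem le_md (h : Ctx.le Γ' Γ = true) : Γ'.md = Γ.md := by
  simp only [Ctx.le, andb_eq, Bool.and_eq_true] at h
  exact ext_md_eq h.2.2.2.2.2.2.2.2.2.2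

theorem le_nt (h : Ctx.le Γ' Γ = true) : Γ'.nt = Γ.nt := by
  simp only [Ctx.le, andb_eq, Bool.and_eq_true, Nat.beq_eq] at h
  exact h.1

theorem holds_le (h : Ctx.le Γ' Γ = true) (H : Holds T Γ e) : Holds T Γ' e := by
  have hm := le_md h
  simp only [Ctx.le, andb_eq, Bool.and_eq_true, Nat.beq_eq, sub_iff] at h
  obtain ⟨h1, h2, h3, h4, h5, h6, h7, h8, h9, h10, _⟩ := h
  refine ⟨?_, ?_, fun i hi => ?_, fun i hi => ?_, fun i hi => ?_, fun i hi => ?_,
    ⟨?_, fun u t a b => ?_, fun u v a b => ?_, fun u v a b => ?_, fun u a => ?_,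
      fun u v a b => H.par.inj u v (h10 _ a) (h10 _ b)⟩, ?_⟩
  · rw [h1]; exact H.ntw
  · rw [h1, h6]; exact H.ty
  · rw [h1, h6]; exact H.ev i (h2 _ hi)
  · rw [h1]; exact H.ax i (h3 _ hi)
  · rw [h1]; exact H.sc i (h4 _ hi)
  · rw [h1]; exact H.dead i (h5 _ hi)
  · rw [h6]; exact H.par.n
  · rw [h1, h6]; exact H.par.m u t a (h7 _ b)
  · rw [h6]; exact H.par.p1 u v a (h8 _ b)
  · rw [h6]; exact H.par.p0 u v a (h9 _ b)
  · rw [h6]; exact H.par.live u (h10 _ a)
  · rw [h1, hm]; exact H.md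

theorem child_ok (h : child T Γ I x Γ' = true) : extOK T Γ I x = true := by
  rw [child, andb_eq, Bool.and_eq_true] at h
  exact h.1

theorem child_md (h : child T Γ I x Γ' = true) : Γ'.md = Γ.md := by
  rw [child, andb_eq, Bool.and_eq_true] at h
  exact (le_md h.2 :)

theorem holds_child (h : child T Γ I x Γ' = true) (H : Holds T Γ e) {f : ℕ → Finset ℕ}
    (hf : ExtSem e Γ.nt I.b x f) : Holds T Γ' (e.ext Γ.nt I.b f) := by
  rw [child, andb_eq, Bool.and_eq_true] at h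
  exact holds_le h.2 (holds_ext h.1 H hf)

theorem holds_setMd (H : Holds T Γ e) {lo hi : List ℕ} (h1 : ∀ t ∈ lo, t < Γ.nt)
    (h2 : ∀ t ∈ hi, t < Γ.nt) : Holds T (setMd Γ lo hi) e := by
  refine ⟨H.ntw, H.ty, H.ev, H.ax, H.sc, H.dead, H.par, fun lo' hi' hm => ?_⟩
  simp only [setMd, Option.some.injEq, Prod.mk.injEq] at hm
  obtain ⟨rfl, rfl⟩ := hm
  exact ⟨h1, h2⟩

theorem subD_lt {nt : ℕ} (h : subD nt Γ' A A' = true) : ∀ a ∈ A, a < nt := by
  simp only [subD, allb_eq, andb_eq, List.all_eq_true, Bool.and_eq_true, ltb_iff] at h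
  exact fun a ha => (h a ha).1

theorem subD_un {nt : ℕ} (h : subD nt Γ' A A' = true) (H : Holds T Γ' e) : e.un A ⊆ e.un A' := by
  simp only [subD, allb_eq, andb_eq, orb_eq, List.all_eq_true, Bool.and_eq_true, Bool.or_eq_true,
    bit_eq, testBit_mask, decide_eq_true_eq] at h
  intro v hv
  obtain ⟨a, ha, hv⟩ := Env.mem_un.1 hv
  rcases (h a ha).2 with d | d
  · rw [(H.dead a d).2] at hv
    simp at hv
  · exact Env.mem_un.2 ⟨a, d, hv⟩

/-- The measure only depends on the old types. -/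
theorem mu_ext (H : Holds T Γ e) (b : ℕ) (f : ℕ → Finset ℕ) {S : Finset ℕ} {c : ℕ}
    (h : Mu Γ.md (e.ext Γ.nt b f) S c) : Mu Γ.md e S c := by
  have hm := H.md
  rcases hd : Γ.md with _ | ⟨lo, hi⟩
  · rw [hd] at h
    exact h
  · rw [hd] at h
    obtain ⟨h1, h2⟩ := hm lo hi hd
    have h' : Sep e.E ((e.ext Γ.nt b f).un lo) ((e.ext Γ.nt b f).un hi) S c := h
    rw [e.ext_un b f h1, e.ext_un b f h2] at h'
    exact h'

/-- A linear step keeping the active types. -/
noncomputable def lin (T : Tab) (Γ : Ctx) (I : Ids) (x : Ext) (Γ' : Ctx) (A A' : List ℕ) : Bool :=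
  andb (child T Γ I x Γ') (subD Γ.nt Γ' A A')

theorem lin_child (h : lin T Γ I x Γ' A A' = true) : child T Γ I x Γ' = true := by
  rw [lin, andb_eq, Bool.and_eq_true] at h
  exact h.1

theorem mu_lin (h : lin T Γ I x Γ' A A' = true) {c : ℕ}
    (k : ∀ e, Holds T Γ' e → Mu Γ'.md e (e.un A') c) (H : Holds T Γ e) {f : ℕ → Finset ℕ}
    (hf : ExtSem e Γ.nt I.b x f) : Mu Γ.md e (e.un A) c := by
  rw [lin, andb_eq, Bool.and_eq_true] at h
  have H' := holds_child h.1 H hf
  have m := (k _ H').mono (subD_un h.2 H') le_rfl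
  rw [child_md h.1, e.ext_un _ f (subD_lt h.2)] at m
  exact mu_ext H _ f m

theorem bd_lin (h : lin T Γ I x Γ' A A' = true)
    (hf : ∀ e, Holds T Γ e → ∃ f, ExtSem e Γ.nt I.b x f) (k : Bd T Γ' A') : Bd T Γ A := by
  obtain ⟨c, k⟩ := k
  refine ⟨c, fun e H => ?_⟩
  obtain ⟨f, hf⟩ := hf e H
  exact mu_lin h k H hf

theorem bd_two {I₂ : Ids} {x₂ : Ext} {Γ₂ : Ctx} {A₂ : List ℕ} (h : lin T Γ I x Γ' A A' = true)
    (h₂ : lin T Γ I₂ x₂ Γ₂ A A₂ = true)
    (hf : ∀ e, Holds T Γ e → (∃ f, ExtSem e Γ.nt I.b x f) ∨ ∃ f, ExtSem e Γ.nt I₂.b x₂ f)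
    (k : Bd T Γ' A') (k₂ : Bd T Γ₂ A₂) : Bd T Γ A := by
  obtain ⟨c, k⟩ := k
  obtain ⟨c₂, k₂⟩ := k₂
  refine ⟨max c c₂, fun e H => ?_⟩
  rcases hf e H with ⟨f, hf⟩ | ⟨f, hf⟩
  · exact (mu_lin h k H hf).mono subset_rfl (le_max_left _ _)
  · exact (mu_lin h₂ k₂ H hf).mono subset_rfl (le_max_right _ _)

theorem disj_sound {a b v : ℕ} (h : disj T Γ.nt a b = true) (H : Holds T Γ e) (ha : v ∈ e.U a) :
    v ∉ e.U b := by
  simp only [disj, andb_eq, Bool.and_eq_true, ltb_iff, meets_iff] at h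
  obtain ⟨h1, h2, i, h3, h4⟩ := h
  exact fun hb => ((H.ty a h1 v ha).2.1 i h3).2 ((H.ty b h2 v hb).1 i h4).2

theorem ext_pairDis_cons {nt a : ℕ} {r : List ℕ} (h : pairDis T nt (a :: r) = true) :
    a < nt ∧ (∀ b ∈ r, disj T nt a b = true) ∧ pairDis T nt r = true := by
  have e : pairDis T nt (a :: r) =
    andb (ltb a nt) (andb (allb (disj T nt a) r) (pairDis T nt r)) := rfl
  simpa only [e, andb_eq, allb_eq, Bool.and_eq_true, ltb_iff, List.all_eq_true] using h

theorem pairDis_lt (h : pairDis T Γ.nt A = true) : ∀ a ∈ A, a < Γ.nt := by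
  induction A with
  | nil => simp
  | cons a r ih =>
    obtain ⟨h1, _, h3⟩ := ext_pairDis_cons h
    intro b hb
    rcases List.mem_cons.1 hb with rfl | hb
    · exact h1
    · exact ih h3 b hb

theorem pairDis_sound (h : pairDis T Γ.nt A = true) (H : Holds T Γ e) :
    ∀ i < A.length, ∀ j < A.length, ∀ v, v ∈ e.U (A.getD i 0) → v ∈ e.U (A.getD j 0) → i = j := by
  induction A with
  | nil => simp
  | cons a r ih =>
    obtain ⟨_, h2, h3⟩ := ext_pairDis_cons h
    intro i hi j hj v a1 a2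
    rw [List.length_cons] at hi hj
    rcases i with _ | i <;> rcases j with _ | j
    · rfl
    · rw [List.getD_cons_zero] at a1
      rw [List.getD_cons_succ] at a2
      exact absurd a2 (disj_sound (h2 _ (ext_getD_mem (by omega))) H a1)
    · rw [List.getD_cons_zero] at a2
      rw [List.getD_cons_succ] at a1
      exact absurd a1 (disj_sound (h2 _ (ext_getD_mem (by omega))) H a2)
    · rw [List.getD_cons_succ] at a1 a2
      rw [ih h3 i (by omega) j (by omega) v a1 a2]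

theorem isAnc_sound {s t : ℕ} (h : isAnc T Γ.nt s t = true) (H : Holds T Γ e) :
    t < Γ.nt ∧ e.U t ⊆ e.U s := by
  simp only [isAnc, andb_eq, Bool.and_eq_true, ltb_iff, bit_eq] at h
  exact ⟨h.1, fun v hv => ((H.ty t h.1 v hv).1 s h.2).2⟩

theorem ext_rowM {w M u t : ℕ} : (rowM w M u).testBit t = M.testBit (w * u + t) := by
  rw [rowM, shr_eq, Nat.testBit_shiftRight]
  rfl

theorem notPar_sound {t q v : ℕ} (h : notPar T Γ t q = true) (ht : t < Γ.nt) (H : Holds T Γ e)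
    (hv : v ∈ e.U t) : v ≠ e.P q := by
  simp only [notPar, orb_eq, Bool.or_eq_true, bit_eq, meets_iff, ext_rowM] at h
  obtain ⟨_, a2, _, _, a5⟩ := H.ty t ht v hv
  rcases h with h | ⟨i, h1, h2⟩
  · exact (a5 q h).2
  · obtain ⟨b1, b2⟩ := a2 i h1
    rintro rfl
    exact b2 (H.par.m q i (lt_of_lt_of_le b1 H.ntw) h2).2.2

theorem cover_sound {base : ℕ} {evs : List ℕ} {t v : ℕ} (H : Holds T Γ e)
    (h : (cover T Γ base evs).testBit t = true) (hv : v ∈ e.U t) :
    (∃ s, base.testBit s = true ∧ v ∈ e.U s) ∨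
      ∃ p, p < Γ.st.n ∧ (exm T evs).testBit p = true ∧ v = e.P p := by
  induction evs generalizing t with
  | nil => exact Or.inl ⟨t, h, hv⟩
  | cons i evs ih =>
    have e1 : cover T Γ base (i :: evs) =
      sel (andb (bit Γ.evm i) (allb (bit (cover T Γ base evs)) (T.ev.get i).kids))
        (Nat.lor (cover T Γ base evs) (pw (T.ev.get i).par)) (cover T Γ base evs) := rfl
    have e2 : exm T (i :: evs) = exm T evs ||| (T.ev.get i).excl := rfl
    have key : ∀ {t}, (cover T Γ base evs).testBit t = true → v ∈ e.U t →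
        (∃ s, base.testBit s = true ∧ v ∈ e.U s) ∨
          ∃ p, p < Γ.st.n ∧ (exm T (i :: evs)).testBit p = true ∧ v = e.P p := by
      intro t h hv
      refine (ih h hv).imp_right ?_
      rintro ⟨p, h1, h2, h3⟩
      exact ⟨p, h1, by rw [e2, Nat.testBit_or, h2, Bool.true_or], h3⟩
    rw [e1] at h
    cases hc : andb (bit Γ.evm i) (allb (bit (cover T Γ base evs)) (T.ev.get i).kids)
    · rw [hc] at h
      exact key h hv
    · rw [hc] at h
      have h' : (cover T Γ base evs ||| pw (T.ev.get i).par).testBit t = true := h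
      rw [Nat.testBit_or, Bool.or_eq_true, testBit_pw, decide_eq_true_eq] at h'
      rcases h' with h' | rfl
      · exact key h' hv
      · simp only [andb_eq, allb_eq, Bool.and_eq_true, List.all_eq_true, bit_eq] at hc
        obtain ⟨w, s⟩ := H.ev i hc.1
        by_cases c : ∃ p, (T.ev.get i).excl.testBit p = true ∧ v = e.P p
        · obtain ⟨p, h1, h2⟩ := c
          exact Or.inr ⟨p, w.2.2 p h1, by rw [e2, Nat.testBit_or, h1, Bool.or_true], h2⟩
        · obtain ⟨k, h1, h2⟩ := s v hv fun p h1 h2 => c ⟨p, h1, h2⟩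
          exact key (hc.2 k h1) h2

/-- The facts checked by `scOK`. -/
structure ScFacts (T : Tab) (Γ : Ctx) (e : Env) (s : Sc) (cv cs sp ps : List ℕ) : Prop where
  sem : ScSem e s
  cvs : ∀ i < cv.length, cv.getD i 0 < Γ.nt ∧ cs.getD i 0 < s.ts.length ∧
    e.U (cv.getD i 0) ⊆ e.U (s.ts.getD (cs.getD i 0) 0)
  par : ∀ q < sp.length, sp.getD q 0 < Γ.st.n ∧ ps.getD q 0 < s.ts.length ∧
    e.P (sp.getD q 0) ∈ e.U (s.ts.getD (ps.getD q 0) 0)
  cov : ∀ v ∈ e.un s.ts, v ∈ e.un cv ∨ ∃ p ∈ sp, v = e.P p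
  np : ∀ v ∈ e.un cv, ∀ p ∈ sp, v ≠ e.P p

theorem scOK_sound {sci : ℕ} {evs cv cs sp ps : List ℕ}
    (h : scOK T Γ sci evs cv cs sp ps = true) (H : Holds T Γ e) :
    ScFacts T Γ e (T.sc.get sci) cv cs sp ps := by
  simp only [scOK, andb_eq, allb_eq, Bool.and_eq_true, List.all_eq_true, bit_eq, ltb_iff,
    List.mem_range, sub_iff, testBit_mask, decide_eq_true_eq, ext_rowM] at h
  obtain ⟨h1, h2, h3, h4, h5, h6⟩ := h
  obtain ⟨w, s⟩ := H.sc sci h1
  refine ⟨s, fun i hi => ?_, fun q hq => ?_, fun v hv => ?_, fun v hv p hp => ?_⟩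
  · obtain ⟨a1, a2⟩ := isAnc_sound (h2 i hi).2 H
    exact ⟨a1, (h2 i hi).1, a2⟩
  · obtain ⟨a1, a2⟩ := h3 q hq
    obtain ⟨b1, _, b3⟩ := H.par.m _ _ (lt_of_lt_of_le (w _ (ext_getD_mem a1)) H.ntw) a2
    exact ⟨b1, a1, b3⟩
  · obtain ⟨t, a1, a2⟩ := Env.mem_un.1 hv
    rcases cover_sound H (h4 t a1) a2 with ⟨z, b1, b2⟩ | ⟨p, _, b2, b3⟩
    · rw [lor_eq, Nat.testBit_or, Bool.or_eq_true, testBit_mask, decide_eq_true_eq] at b1
      rcases b1 with b1 | b1
      · exact Or.inl (Env.mem_un.2 ⟨z, b1, b2⟩)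
      · rw [(H.dead z b1).2] at b2
        simp at b2
    · exact Or.inr ⟨p, h5 p b2, b3⟩
  · obtain ⟨t, a1, a2⟩ := Env.mem_un.1 hv
    obtain ⟨i, hi, rfl⟩ := List.getElem_of_mem a1
    have lt := (isAnc_sound (h2 i hi).2 H).1
    rw [List.getD_eq_getElem _ _ hi] at lt
    exact notPar_sound (h6 _ a1 p hp) lt H a2

theorem ext_flip_nil (s t : ℕ) : flipOf [] s t = false := by
  have : look [] s = 0 := rfl
  simp [flipOf, this]

/-- Convenient forms of refuted small patterns. -/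
theorem Refuted.pat1 {a : ℕ} (h : Refuted T Γ (pat1 a)) (H : Holds T Γ e) : e.U a = ∅ := by
  refine Finset.eq_empty_of_forall_notMem fun v hv => h e H (fun _ => v) (fun _ => a) ?_
  refine ⟨fun i hi => ?_, fun i hi j hj _ => ?_, by simp [MP_849b2e_co.pat1],
    by simp [MP_849b2e_co.pat1]⟩
  · simp only [MP_849b2e_co.pat1, List.length_cons, List.length_nil] at hi
    obtain rfl : i = 0 := by omega
    exact ⟨by simp [MP_849b2e_co.pat1], hv⟩
  · simp only [MP_849b2e_co.pat1, List.length_cons, List.length_nil] at hi hj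
    omega

theorem Refuted.pat2 {a b u v : ℕ} {β : Bool} (h : Refuted T Γ (pat2 a b β)) (H : Holds T Γ e)
    (hu : u ∈ e.U a) (hv : v ∈ e.U b) (huv : u ≠ v) : e.E u v ≠ β := by
  intro c
  refine h e H (fun i => if i = 0 then u else v) (fun i => if i = 0 then a else b) ?_
  refine ⟨fun i hi => ?_, fun i hi j hj => ?_, ?_, by simp [MP_849b2e_co.pat2]⟩
  · simp only [MP_849b2e_co.pat2, List.length_cons, List.length_nil] at hi
    obtain rfl | rfl : i = 0 ∨ i = 1 := by omega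
    · simp [MP_849b2e_co.pat2, hu]
    · simp [MP_849b2e_co.pat2, hv]
  · simp only [MP_849b2e_co.pat2, List.length_cons, List.length_nil] at hi hj
    obtain rfl | rfl : i = 0 ∨ i = 1 := by omega
    all_goals obtain rfl | rfl : j = 0 ∨ j = 1 := by omega
    all_goals simp [huv, huv.symm]
  · simp [MP_849b2e_co.pat2, ext_flip_nil, c]

theorem ext_mix {a b u v w : ℕ} (h : Refuted T Γ (mixP a b)) (H : Holds T Γ e)
    (hu : u ∈ e.U a) (hv : v ∈ e.U a) (hw : w ∈ e.U b) (h1 : w ≠ u) (h2 : w ≠ v)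
    (c1 : e.E w u = true) (c2 : e.E w v = false) : False := by
  have huv : u ≠ v := by
    rintro rfl
    simp [c1] at c2
  refine h e H (fun i => if i = 0 then w else if i = 1 then u else v)
    (fun i => if i = 0 then b else a) ?_
  refine ⟨fun i hi => ?_, fun i hi j hj => ?_, ?_, by simp [mixP]⟩
  · simp only [mixP, List.length_cons, List.length_nil] at hi
    obtain rfl | rfl | rfl : i = 0 ∨ i = 1 ∨ i = 2 := by omega
    · simp [mixP, hw]
    · simp [mixP, hu]
    · simp [mixP, hv]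
  · simp only [mixP, List.length_cons, List.length_nil] at hi hj
    obtain rfl | rfl | rfl : i = 0 ∨ i = 1 ∨ i = 2 := by omega
    all_goals obtain rfl | rfl | rfl : j = 0 ∨ j = 1 ∨ j = 2 := by omega
    all_goals simp [huv, huv.symm, h1, h1.symm, h2, h2.symm]
  · simp [mixP, ext_flip_nil, c1, c2]

theorem Refuted.mixP {a b u v w : ℕ} (h : Refuted T Γ (mixP a b)) (H : Holds T Γ e)
    (hu : u ∈ e.U a) (hv : v ∈ e.U a) (hw : w ∈ e.U b) (h1 : w ≠ u) (h2 : w ≠ v) :
    e.E u w = e.E v w := by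
  rw [e.symm u, e.symm v]
  cases c1 : e.E w u <;> cases c2 : e.E w v
  · rfl
  · exact (ext_mix h H hv hu hw h2 h1 c2 c1).elim
  · exact (ext_mix h H hu hv hw h1 h2 c1 c2).elim
  · rfl

theorem axHolds_cl {ts : List ℕ} {lits : List Lit} :
    AxHolds e (cl ts lits) ↔ ∀ x, ¬ Emb e (cl ts lits) x := by
  constructor
  · intro h y hy
    obtain ⟨w, _, _, d, hd, _⟩ := h y hy ∅ (by simp)
    simp [cl] at hd
  · intro h y hy
    exact absurd hy (h y)

end Pool.Agent.Lib.MP_849b2e_co
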