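import Pool.Agent.Lib.MP_849b2e_co.Init

/-!
A faster pattern checker: flips are resolved once per leaf, and only for selected literals.
-/

namespace Pool.Agent.Lib.MP_849b2e_co

inductive Pq where
  | L (lv : List ℕ) (km : ℕ) (p : Pf)
  | D (i : ℕ) (ks : Pq)
  | nil
  | cons (h t : Pq)

noncomputable def nthL {α : Type} (d : α) (l : List α) : ℕ → α :=
  List.rec (motive := fun _ => ℕ → α) (fun _ => d)
    (fun a _ ih i => Nat.rec (motive := fun _ => α) a (fun j _ => ih j) i) l

noncomputable def setL {α : Type} (v : α) (l : List α) : ℕ → List α :=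
  List.rec (motive := fun _ => ℕ → List α) (fun _ => [])
    (fun a t ih i => Nat.rec (motive := fun _ => List α) (v :: t) (fun j _ => a :: ih j) i) l

noncomputable def mapL {α β : Type} (f : α → β) (l : List α) : List β :=
  List.rec (motive := fun _ => List β) [] (fun a _ ih => f a :: ih) l

noncomputable def lenL {α : Type} (l : List α) : ℕ :=
  List.rec (motive := fun _ => ℕ) 0 (fun _ _ ih => Nat.succ ih) l

noncomputable def orF (F : List (ℕ × ℕ)) (A : List ℕ) : ℕ :=
  List.rec (motive := fun _ => ℕ) 0 (fun s _ ih => Nat.lor (look F s) ih) A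

noncomputable def andF (F : List (ℕ × ℕ)) (A : List ℕ) : ℕ :=
  List.rec (motive := fun _ => ℕ) 0
    (fun s r ih => List.rec (motive := fun _ => ℕ) (look F s)
      (fun _ _ _ => Nat.land (look F s) ih) r) A

structure VD where
  mk' ::
  m : ℕ
  o : ℕ
  a : ℕ

noncomputable def resolve (k : ℕ) (D : List VD) (lits : List Lit) : ℕ → List Lit :=
  List.rec (motive := fun _ => ℕ → List Lit) (fun _ => [])
    (fun l _ ih km => Bool.rec (motive := fun _ => List Lit) (ih (Nat.shiftRight km 1))
      (Bool.rec (motive := fun _ => List Lit) (l :: ih (Nat.shiftRight km 1))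
        (Bool.rec (motive := fun _ => List Lit) (ih (Nat.shiftRight km 1))
          (⟨l.i, l.j, Bool.not l.b⟩ :: ih (Nat.shiftRight km 1))
          (sub (nthL ⟨0, 0, 0⟩ D l.j).m (nthL ⟨0, 0, 0⟩ D l.i).a))
        (meets (nthL ⟨0, 0, 0⟩ D l.j).m (nthL ⟨0, 0, 0⟩ D l.i).o))
      (andb (Nat.beq (Nat.land km 1) 1) (andb (ltb l.i k) (ltb l.j k)))) lits

noncomputable def keepM (lits : List Lit) : ℕ → List Lit :=
  List.rec (motive := fun _ => ℕ → List Lit) (fun _ => [])
    (fun l _ ih km => Bool.rec (motive := fun _ => List Lit) (ih (Nat.shiftRight km 1))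
      (l :: ih (Nat.shiftRight km 1)) (Nat.beq (Nat.land km 1) 1)) lits

noncomputable def resP (km : ℕ) (p : Pat) : Pat :=
  ⟨p.S, List.rec (motive := fun _ => List Lit) (keepM p.lits km)
    (fun _ _ _ => resolve (lenL p.S) (mapL (fun A => ⟨mask A, orF p.F A, andF p.F A⟩) p.S)
      p.lits km) p.F, p.pl, []⟩

noncomputable def splitQ (i : ℕ) (p : Pat) : List Pat :=
  mapL (fun t => ⟨setL [t] p.S i, p.lits, p.pl, p.F⟩) (nthL [] p.S i)

noncomputable def chkPq (T : Tab) (Γ : Ctx) (c : Pq) : List Pat → Bool :=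
  Pq.rec (motive := fun _ => List Pat → Bool)
    (fun lv km q => oneP fun p => andb (initOK T Γ p lv)
      (forceSt (initSt T Γ (resP km p) lv) fun n M P1 P0 l => chk T Γ q [⟨n, M, P1, P0, l⟩]))
    (fun i _ ih => oneP fun p => andb (ltb i (lenL p.S)) (ih (splitQ i p)))
    isNil
    (fun _ _ ihh iht L => List.rec (motive := fun _ => Bool) false
      (fun s L' _ => andb (ihh [s]) (iht L')) L)
    c

theorem nthL_eq {α : Type} (d : α) (l : List α) (i : ℕ) : nthL d l i = l.getD i d := by
  induction l generalizing i with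
  | nil => rfl
  | cons a l ih =>
    cases i with
    | zero => rfl
    | succ i => exact ih i

theorem setL_eq {α : Type} (v : α) (l : List α) (i : ℕ) : setL v l i = l.set i v := by
  induction l generalizing i with
  | nil => rfl
  | cons a l ih =>
    cases i with
    | zero => rfl
    | succ i => exact congrArg (a :: ·) (ih i)

theorem mapL_eq {α β : Type} (f : α → β) (l : List α) : mapL f l = l.map f := by
  induction l with
  | nil => rfl
  | cons a l ih => exact congrArg (f a :: ·) ih

theorem lenL_eq {α : Type} (l : List α) : lenL l = l.length := by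
  induction l with
  | nil => rfl
  | cons a l ih => exact congrArg Nat.succ ih

theorem orF_bit {F : List (ℕ × ℕ)} {A : List ℕ} {s t : ℕ} (hs : s ∈ A)
    (h : (look F s).testBit t = true) : (orF F A).testBit t = true := by
  induction A with
  | nil => simp at hs
  | cons a A ih =>
    have e : orF F (a :: A) = look F a ||| orF F A := rfl
    rw [e, Nat.testBit_or, Bool.or_eq_true]
    rcases List.mem_cons.1 hs with rfl | hs
    · exact Or.inl h
    · exact Or.inr (ih hs)

theorem andF_bit {F : List (ℕ × ℕ)} {A : List ℕ} {s t : ℕ} (hs : s ∈ A)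
    (h : (andF F A).testBit t = true) : (look F s).testBit t = true := by
  induction A with
  | nil => simp at hs
  | cons a A ih =>
    cases A with
    | nil =>
      obtain rfl := List.mem_singleton.1 hs
      exact h
    | cons b A =>
      have e : andF F (a :: b :: A) = look F a &&& andF F (b :: A) := rfl
      rw [e, Nat.testBit_and, Bool.and_eq_true] at h
      rcases List.mem_cons.1 hs with rfl | hs
      · exact h.1
      · exact ih hs h.2

theorem keepM_mem {lits : List Lit} {km : ℕ} {l : Lit} (h : l ∈ keepM lits km) : l ∈ lits := by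
  induction lits generalizing km with
  | nil => exact h
  | cons a r ih =>
    have e : keepM (a :: r) km = Bool.rec (motive := fun _ => List Lit)
      (keepM r (Nat.shiftRight km 1)) (a :: keepM r (Nat.shiftRight km 1))
      (Nat.beq (Nat.land km 1) 1) := rfl
    rw [e] at h
    cases c : Nat.beq (Nat.land km 1) 1 <;> rw [c] at h
    · exact List.mem_cons_of_mem _ (ih h)
    · rcases List.mem_cons.1 h with rfl | h
      · exact List.mem_cons_self
      · exact List.mem_cons_of_mem _ (ih h)

theorem resolve_mem {k : ℕ} {D : List VD} {lits : List Lit} {km : ℕ} {l : Lit}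
    (h : l ∈ resolve k D lits km) : ∃ l' ∈ lits, l'.i < k ∧ l'.j < k ∧
      ((l = l' ∧ meets (D.getD l'.j ⟨0, 0, 0⟩).m (D.getD l'.i ⟨0, 0, 0⟩).o = false) ∨
       (l = ⟨l'.i, l'.j, !l'.b⟩ ∧
        sub (D.getD l'.j ⟨0, 0, 0⟩).m (D.getD l'.i ⟨0, 0, 0⟩).a = true)) := by
  induction lits generalizing km with
  | nil => exact absurd h List.not_mem_nil
  | cons a r ih =>
    have e : resolve k D (a :: r) km =
      Bool.rec (motive := fun _ => List Lit) (resolve k D r (Nat.shiftRight km 1))
      (Bool.rec (motive := fun _ => List Lit) (a :: resolve k D r (Nat.shiftRight km 1))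
        (Bool.rec (motive := fun _ => List Lit) (resolve k D r (Nat.shiftRight km 1))
          (⟨a.i, a.j, Bool.not a.b⟩ :: resolve k D r (Nat.shiftRight km 1))
          (sub (nthL ⟨0, 0, 0⟩ D a.j).m (nthL ⟨0, 0, 0⟩ D a.i).a))
        (meets (nthL ⟨0, 0, 0⟩ D a.j).m (nthL ⟨0, 0, 0⟩ D a.i).o))
      (andb (Nat.beq (Nat.land km 1) 1) (andb (ltb a.i k) (ltb a.j k))) := rfl
    rw [e, nthL_eq, nthL_eq] at h
    have tl : l ∈ resolve k D r (Nat.shiftRight km 1) → ∃ l' ∈ a :: r, l'.i < k ∧ l'.j < k ∧
      ((l = l' ∧ meets (D.getD l'.j ⟨0, 0, 0⟩).m (D.getD l'.i ⟨0, 0, 0⟩).o = false) ∨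
       (l = ⟨l'.i, l'.j, !l'.b⟩ ∧
        sub (D.getD l'.j ⟨0, 0, 0⟩).m (D.getD l'.i ⟨0, 0, 0⟩).a = true)) := fun h' => by
      obtain ⟨l', h1, h2⟩ := ih h'
      exact ⟨l', List.mem_cons_of_mem _ h1, h2⟩
    cases c : andb (Nat.beq (Nat.land km 1) 1) (andb (ltb a.i k) (ltb a.j k)) <;> rw [c] at h
    · exact tl h
    · simp only [andb_eq, Bool.and_eq_true, ltb_iff] at c
      cases c1 : meets (D.getD a.j ⟨0, 0, 0⟩).m (D.getD a.i ⟨0, 0, 0⟩).o <;> rw [c1] at h
      · rcases List.mem_cons.1 h with rfl | h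
        · exact ⟨l, List.mem_cons_self, c.2.1, c.2.2, Or.inl ⟨rfl, c1⟩⟩
        · exact tl h
      · cases c2 : sub (D.getD a.j ⟨0, 0, 0⟩).m (D.getD a.i ⟨0, 0, 0⟩).a <;> rw [c2] at h
        · exact tl h
        · rcases List.mem_cons.1 h with rfl | h
          · exact ⟨a, List.mem_cons_self, c.2.1, c.2.2, Or.inr ⟨rfl, c2⟩⟩
          · exact tl h

theorem flipOf_nil (s t : ℕ) : flipOf [] s t = false := by
  show bit 0 t = false
  simp

theorem resP_emb {e : Env} {p : Pat} {x τ : ℕ → ℕ} (km : ℕ) (h : PEmb e p x τ) :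
    PEmb e (resP km p) x τ := by
  obtain ⟨S, lits, pl, F⟩ := p
  refine ⟨h.1, h.2.1, fun l hl => ?_, h.2.2.2⟩
  show _ = xor l.b (flipOf [] _ _)
  cases F with
  | nil => exact h.2.2.1 l (keepM_mem hl)
  | cons a F =>
    have hl' : l ∈ resolve (lenL S)
      (mapL (fun A => (⟨mask A, orF (a :: F) A, andF (a :: F) A⟩ : VD)) S) lits km := hl
    rw [lenL_eq, mapL_eq] at hl'
    obtain ⟨l', h1, hi, hj, h2⟩ := resolve_mem hl'
    have g : ∀ i < S.length, (S.map fun A =>
        (⟨mask A, orF (a :: F) A, andF (a :: F) A⟩ : VD)).getD i ⟨0, 0, 0⟩ =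
        ⟨mask (S.getD i []), orF (a :: F) (S.getD i []), andF (a :: F) (S.getD i [])⟩ := by
      intro i hi
      simp [List.getD_eq_getElem?_getD, List.getElem?_eq_getElem hi]
    rw [g _ hi, g _ hj] at h2
    have a1 : τ l'.i ∈ S.getD l'.i [] := (h.1 _ hi).1
    have a2 : τ l'.j ∈ S.getD l'.j [] := (h.1 _ hj).1
    have a3 : e.E (x l'.i) (x l'.j) = xor l'.b (flipOf (a :: F) (τ l'.i) (τ l'.j)) :=
      h.2.2.1 l' h1
    rw [flipOf_nil]
    rcases h2 with ⟨rfl, h2⟩ | ⟨rfl, h2⟩
    · have : flipOf (a :: F) (τ l.i) (τ l.j) = false := by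
        by_contra c
        have c' : (look (a :: F) (τ l.i)).testBit (τ l.j) = true := by
          simpa [flipOf] using c
        have := meets_iff.2 ⟨τ l.j, (by simpa using a2 : (mask (S.getD l.j [])).testBit _ = true),
          orF_bit a1 c'⟩
        rw [this] at h2
        exact absurd h2 (by simp)
      rw [a3, this]
    · have : flipOf (a :: F) (τ l'.i) (τ l'.j) = true := by
        have := andF_bit a1 (sub_iff.1 h2 (τ l'.j) (by simpa using a2))
        simpa [flipOf] using this
      show e.E (x l'.i) (x l'.j) = _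
      rw [a3, this]
      cases l'.b <;> rfl

theorem chkPq_sound {T : Tab} {Γ : Ctx} (c : Pq) :
    ∀ l, chkPq T Γ c l = true → AllRef T Γ l := by
  induction c with
  | L lv km q =>
    intro l h
    obtain ⟨p, rfl, hp⟩ := init_oneP (f := fun p => andb (initOK T Γ p lv)
      (forceSt (initSt T Γ (resP km p) lv) fun n M P1 P0 l => chk T Γ q [⟨n, M, P1, P0, l⟩])) h
    rw [andb_eq, Bool.and_eq_true, init_forceSt] at hp
    intro p' hp' e H x τ hx
    obtain rfl := List.mem_singleton.1 hp'
    exact chk_sound T Γ q _ hp.2 (initSt T Γ (resP km p') lv) (List.mem_singleton_self _) e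
      (parFn e Γ.st.n x) H (Nat.le_add_right _ _) (fun u hu => init_parFn_lt e x hu)
      (initSt_sound (p := resP km p') hp.1 H (resP_emb km hx))
  | D i ks ih =>
    intro l h
    obtain ⟨p, rfl, hp⟩ := init_oneP
      (f := fun p => andb (ltb i (lenL p.S)) (chkPq T Γ ks (splitQ i p))) h
    rw [andb_eq, Bool.and_eq_true, ltb_iff, lenL_eq] at hp
    intro p' hp'
    obtain rfl := List.mem_singleton.1 hp'
    refine splitP_sound (i := i) ?_
    have : splitP i p' = splitQ i p' := by
      simp only [splitP, splitQ, hp.1, if_true, mapL_eq, nthL_eq, setL_eq]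
    rw [this]
    exact ih _ hp.2
  | nil =>
    intro l h
    have h' : isNil l = true := h
    rw [isNil_iff.1 h']
    exact allRef_nil T Γ
  | cons a b iha ihb =>
    intro l h
    cases l with
    | nil => exact allRef_nil T Γ
    | cons s L =>
      have h' : andb (chkPq T Γ a [s]) (chkPq T Γ b L) = true := h
      rw [andb_eq, Bool.and_eq_true] at h'
      intro p hp
      rcases List.mem_cons.1 hp with rfl | hp
      · exact iha _ h'.1 p (List.mem_singleton_self _)
      · exact ihb _ h'.2 p hp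

end Pool.Agent.Lib.MP_849b2e_co
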