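import Pool.Agent.Lib.MP_849b2e_co.Rules

set_option maxRecDepth 100000
set_option linter.all false
namespace Pool.Agent.Lib.MP_849b2e_co

noncomputable def bK_ty : Tr Ty := (Tr.br (Tr.br (Tr.br (Tr.br (Tr.br (Tr.br (Tr.leaf ⟨1,0,0,0,0⟩) (Tr.leaf ⟨0x100000045,0x7e00000022,0,7,0⟩)) (Tr.br (Tr.leaf ⟨66579,0x1ec00c,2,5,0⟩) (Tr.leaf ⟨0x1000000000013,0x3e80000000000c,32,24,0⟩))) (Tr.br (Tr.br (Tr.leaf ⟨325,546,0,0,0⟩) (Tr.leaf ⟨0x10200000045,0x7d00000022,4,3,0⟩)) (Tr.br (Tr.leaf ⟨0x1008413,0x1f400c,4,3,0⟩) (Tr.leaf ⟨0x101000000000013,0x3e80000000000c,32,24,0⟩))))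
 (Tr.br (Tr.br (Tr.br (Tr.leaf ⟨19,12,0,0,0⟩) (Tr.leaf ⟨0x1000000045,0x6f00000022,1,6,0⟩)) (Tr.br (Tr.leaf ⟨0x100413,0xfc00c,3,4,0⟩) (Tr.leaf ⟨0x10000000000013,0x2f80000000000c,40,16,0⟩))) (Tr.br (Tr.br (Tr.leaf ⟨4677,290,0,0,0⟩) (Tr.leaf ⟨0x102000000045,0x5f00000022,5,2,0⟩)) (Tr.br (Tr.leaf ⟨0x10080413,0x17c00c,5,2,0⟩) (Tr.leaf ⟨0x1010000000000013,0x2f80000000000c,40,16,0⟩))))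
)
 (Tr.br (Tr.br (Tr.br (Tr.br (Tr.leaf ⟨5,2,0,0,0⟩) (Tr.leaf ⟨0x400000045,0x7b00000022,2,5,0⟩)) (Tr.br (Tr.leaf ⟨0x40413,0x1bc00c,1,6,0⟩) (Tr.leaf ⟨0x4000000000013,0x3b80000000000c,48,8,0⟩))) (Tr.br (Tr.br (Tr.leaf ⟨1043,12,0,0,0⟩) (Tr.leaf ⟨0x40800000045,0x7700000022,6,1,0⟩)) (Tr.br (Tr.leaf ⟨0x4020413,0x1dc00c,6,1,0⟩) (Tr.leaf ⟨0x404000000000013,0x3b80000000000c,48,8,0⟩))))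
 (Tr.br (Tr.br (Tr.br (Tr.leaf ⟨69,34,0,0,0⟩) (Tr.leaf ⟨0x4000000045,0x3f00000022,3,4,0⟩)) (Tr.br (Tr.leaf ⟨0x401245,290,0,0,0⟩) (Tr.leaf ⟨0x40000000000025,66,0,0,56⟩))) (Tr.br (Tr.br (Tr.leaf ⟨17427,0x1f800c,0,7,0⟩) (Tr.leaf ⟨0x400000000025,66,0,0,0⟩)) (Tr.leaf ⟨0x40200945,546,0,0,7⟩)))
)
)
 (Tr.br (Tr.br (Tr.br (Tr.br (Tr.br (Tr.leaf ⟨3,4,0,0,0⟩) (Tr.leaf ⟨0x200000045,0x7d00000022,4,3,0⟩)) (Tr.br (Tr.leaf ⟨0x20413,0x1dc00c,6,1,0⟩) (Tr.leaf ⟨0x2000000000013,0x3d80000000000c,16,40,0⟩))) (Tr.br (Tr.br (Tr.leaf ⟨581,290,0,0,0⟩) (Tr.leaf ⟨0x20400000045,0x7b00000022,2,5,0⟩)) (Tr.br (Tr.leaf ⟨0x2010413,0x1ec00c,2,5,0⟩) (Tr.leaf ⟨0x202000000000013,0x3d80000000000c,16,40,0⟩))))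
 (Tr.br (Tr.br (Tr.br (Tr.leaf ⟨37,66,0,0,0⟩) (Tr.leaf ⟨0x2000000045,0x5f00000022,5,2,0⟩)) (Tr.br (Tr.leaf ⟨0x200945,546,0,0,7⟩) (Tr.leaf ⟨0x20000000000013,0x1f80000000000c,24,32,0⟩))) (Tr.br (Tr.br (Tr.leaf ⟨10565,546,0,0,0⟩) (Tr.leaf ⟨0x204000000045,0x3f00000022,3,4,0⟩)) (Tr.br (Tr.leaf ⟨0x20100413,0xfc00c,3,4,0⟩) (Tr.leaf ⟨0x2020000000000013,0x1f80000000000c,24,32,0⟩))))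
)
 (Tr.br (Tr.br (Tr.br (Tr.br (Tr.leaf ⟨11,20,0,0,0⟩) (Tr.leaf ⟨0x800000045,0x7700000022,6,1,0⟩)) (Tr.br (Tr.leaf ⟨0x80413,0x17c00c,5,2,0⟩) (Tr.leaf ⟨0x8000000000013,0x3780000000000c,8,48,0⟩))) (Tr.br (Tr.br (Tr.leaf ⟨2373,546,0,0,0⟩) (Tr.leaf ⟨0x81000000045,0x6f00000022,1,6,0⟩)) (Tr.br (Tr.leaf ⟨0x8040413,0x1bc00c,1,6,0⟩) (Tr.leaf ⟨0x808000000000013,0x3780000000000c,8,48,0⟩))))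
 (Tr.br (Tr.br (Tr.br (Tr.leaf ⟨139,20,0,0,0⟩) (Tr.leaf ⟨0x8100000045,0x7e00000022,0,7,0⟩)) (Tr.br (Tr.leaf ⟨0x804413,0x1f800c,0,7,0⟩) (Tr.leaf ⟨0x80800000000013,0x3f00000000000c,0,56,0⟩))) (Tr.br (Tr.br (Tr.leaf ⟨33811,0x1f400c,4,3,0⟩) (Tr.leaf ⟨0x800000000013,0x3f00000000000c,0,56,0⟩)) (Tr.leaf ⟨0x8000000b,20,0,0,7⟩)))
)
)
)

noncomputable def bK_ev : Tr Ev := (Tr.br (Tr.br (Tr.br (Tr.br (Tr.leaf ⟨1,[3,4],0⟩) (Tr.leaf ⟨5,[54],56⟩))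
 (Tr.leaf ⟨11,[21],7⟩))
 (Tr.br (Tr.leaf ⟨6,[8,9],0⟩) (Tr.leaf ⟨6,[32,33,34,35,36,37,38],0⟩))
)
 (Tr.br (Tr.br (Tr.leaf ⟨2,[5,6],0⟩) (Tr.leaf ⟨3,[31],7⟩))
 (Tr.br (Tr.leaf ⟨10,[14,15,16,17,18,19,20],0⟩) (Tr.leaf ⟨4,[47,48,49,50,51,52,53],0⟩))
)
)

noncomputable def bK_ax : Tr Ax := (Tr.br (Tr.br (Tr.br (Tr.br (Tr.br (Tr.br (Tr.leaf ⟨[1,1,1,1,1,1,1],[⟨0,1,true⟩,⟨0,2,true⟩,⟨0,3,true⟩,⟨0,4,false⟩,⟨0,5,false⟩,⟨0,6,false⟩,⟨1,2,false⟩,⟨1,3,false⟩,⟨1,4,false⟩,⟨1,5,false⟩,⟨1,6,false⟩,⟨2,3,false⟩,⟨2,4,false⟩,⟨2,5,false⟩,⟨2,6,false⟩,⟨3,4,false⟩,⟨3,5,false⟩,⟨3,6,false⟩,⟨4,5,false⟩,⟨4,6,false⟩,⟨5,6,false⟩],[],0⟩) (Tr.leaf ⟨[0x80000000000000],[],[],0⟩)) (Tr.leaf ⟨[0x2000000],[],[],0⟩)) (Tr.br (Tr.leaf ⟨[128],[],[],0⟩) (Tr.leaf ⟨[0x10000000000],[],[],0⟩)))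
 (Tr.br (Tr.br (Tr.br (Tr.leaf ⟨[16,4,4,4],[⟨0,1,true⟩,⟨0,2,true⟩,⟨0,3,true⟩],[],0⟩) (Tr.leaf ⟨[0x800000000000000],[],[],0⟩)) (Tr.leaf ⟨[0x20000000],[],[],0⟩)) (Tr.br (Tr.leaf ⟨[2048,2048,2048],[⟨0,1,false⟩,⟨0,2,false⟩,⟨1,2,false⟩],[],0⟩) (Tr.leaf ⟨[0x100000000000],[],[],0⟩)))
)
 (Tr.br (Tr.br (Tr.br (Tr.br (Tr.leaf ⟨[4,4],[⟨0,1,true⟩],[],0⟩) (Tr.leaf ⟨[0x200000000000000],[],[],0⟩)) (Tr.leaf ⟨[0x8000000],[],[],0⟩)) (Tr.br (Tr.leaf ⟨[512,16,16,16],[⟨0,1,true⟩,⟨0,2,true⟩,⟨0,3,true⟩],[],0⟩) (Tr.leaf ⟨[0x40000000000],[],[],0⟩)))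
 (Tr.br (Tr.br (Tr.br (Tr.leaf ⟨[64,8,8,8],[⟨0,1,true⟩,⟨0,2,true⟩,⟨0,3,true⟩],[],0⟩) (Tr.leaf ⟨[0x2000000000000000],[],[],0⟩)) (Tr.leaf ⟨[0x400000],[],[],0⟩)) (Tr.br (Tr.leaf ⟨[0x800000],[],[],0⟩) (Tr.leaf ⟨[32,32,32],[⟨0,1,false⟩,⟨0,2,false⟩,⟨1,2,false⟩],[],0⟩)))
)
)
 (Tr.br (Tr.br (Tr.br (Tr.br (Tr.br (Tr.leaf ⟨[2,2],[⟨0,1,true⟩],[],0⟩) (Tr.leaf ⟨[0x100000000000000],[],[],0⟩)) (Tr.leaf ⟨[0x4000000],[],[],0⟩)) (Tr.br (Tr.leaf ⟨[256],[],[⟨4,[(0,true)]⟩],2⟩) (Tr.leaf ⟨[0x20000000000],[],[],0⟩)))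
 (Tr.br (Tr.br (Tr.br (Tr.leaf ⟨[32],[],[⟨3,[(0,true)]⟩],2⟩) (Tr.leaf ⟨[0x1000000000000000],[],[],0⟩)) (Tr.leaf ⟨[0x40000000],[],[],0⟩)) (Tr.br (Tr.leaf ⟨[8192],[],[],0⟩) (Tr.leaf ⟨[0x200000000000],[],[],0⟩)))
)
 (Tr.br (Tr.br (Tr.br (Tr.br (Tr.leaf ⟨[8],[],[⟨2,[(0,true)]⟩],2⟩) (Tr.leaf ⟨[0x400000000000000],[],[],0⟩)) (Tr.leaf ⟨[0x10000000],[],[],0⟩)) (Tr.br (Tr.leaf ⟨[1024,1024],[⟨0,1,false⟩],[⟨11,[(0,true),(1,false)]⟩,⟨11,[(0,false),(1,true)]⟩,⟨12,[(0,true),(1,false)]⟩,⟨12,[(0,false),(1,true)]⟩],0⟩) (Tr.leaf ⟨[0x80000000000],[],[],0⟩)))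
 (Tr.br (Tr.br (Tr.leaf ⟨[8,8,8],[⟨0,1,false⟩,⟨0,2,false⟩,⟨1,2,false⟩],[],0⟩) (Tr.leaf ⟨[0x8000000000],[],[],0⟩)) (Tr.br (Tr.leaf ⟨[0x1000000],[],[],0⟩) (Tr.leaf ⟨[0x400000000000],[],[],0⟩)))
)
)
)

noncomputable def bK_sc : Tr Sc := (Tr.leaf ⟨[],[]⟩)
noncomputable def bK_T : Tab := ⟨62,bK_ty,bK_ev,bK_ax,bK_sc⟩
def bK_S0 : St := ⟨0,0,0,0,0⟩
def bK_G0 : Ctx := ⟨5,1,31,0,0,bK_S0,none⟩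
def bK_G1 : Ctx := ⟨7,3,127,0,0,bK_S0,none⟩
def bK_G2 : Ctx := ⟨7,3,255,0,0,bK_S0,none⟩
def bK_S1 : St := ⟨3,0xb000000000000002c00000000000000b,0,0x30000000000000000000000000000000500000000000000000000000000000006,7⟩
def bK_G3 : Ctx := ⟨7,3,127,0,0,bK_S1,none⟩
def bK_G4 : Ctx := ⟨7,3,255,0,32,bK_S0,none⟩
def bK_G5 : Ctx := ⟨8,3,511,0,32,bK_S0,none⟩
def bK_G6 : Ctx := ⟨8,3,511,0,160,bK_S0,none⟩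
def bK_G7 : Ctx := ⟨10,7,2047,0,160,bK_S0,none⟩
def bK_G8 : Ctx := ⟨13,7,4095,0,160,bK_S0,none⟩
def bK_G9 : Ctx := ⟨13,7,8191,0,160,bK_S0,none⟩
def bK_S2 : St := ⟨3,0x9450000000000002514000000000000945,0,0x30000000000000000000000000000000500000000000000000000000000000006,7⟩
def bK_G10 : Ctx := ⟨13,7,4095,0,160,bK_S2,none⟩
def bK_G11 : Ctx := ⟨14,7,16383,0,160,bK_S0,none⟩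
def bK_G12 : Ctx := ⟨14,7,16383,0,8352,bK_S0,none⟩
def bK_G13 : Ctx := ⟨21,15,4095,0,160,bK_S2,none⟩
def bK_G14 : Ctx := ⟨22,31,4095,0,160,bK_S2,none⟩
def bK_G15 : Ctx := ⟨31,31,0x7fcfff,0,160,bK_S2,none⟩
def bK_G16 : Ctx := ⟨31,31,0x7fcfff,0,0x7fc000a0,bK_S2,none⟩
def bK_G17 : Ctx := ⟨32,35,127,0,0,bK_S1,none⟩
def bK_G18 : Ctx := ⟨39,99,127,0,0,bK_S1,none⟩
def bK_G19 : Ctx := ⟨46,99,0x3f80007f,0,0,bK_S1,none⟩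
def bK_G20 : Ctx := ⟨46,99,0x3f80007f,0,0x3f8000000000,bK_S1,none⟩
def bK_G21 : Ctx := ⟨46,99,0x7f80007f,0,0x3f8000000000,bK_S1,none⟩
def bK_S3 : St := ⟨6,0x94000000000000025000000000000009400000000000000b000000000000002c00000000000000b,0,0x180000000000000000000000000000002800000000000000000000000000000030000000000000000000000000000000030000000000000000000000000000000500000000000000000000000000000006,63⟩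
def bK_G22 : Ctx := ⟨46,99,0x3f80007f,0,0x3f8000000000,bK_S3,none⟩
def bK_G23 : Ctx := ⟨47,99,0xff80007f,0,0x3f8000000000,bK_S1,none⟩
def bK_G24 : Ctx := ⟨47,99,0xff80007f,0,0x7f8000000000,bK_S1,none⟩
def bK_G25 : Ctx := ⟨54,227,0x3f80007f,0,0x3f8000000000,bK_S3,none⟩
def bK_G26 : Ctx := ⟨55,483,0x3f80007f,0,0x3f8000000000,bK_S3,none⟩
def bK_G27 : Ctx := ⟨62,483,0x7f3f80007f,0,0x3f8000000000,bK_S3,none⟩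
def bK_G28 : Ctx := ⟨62,483,0x7f3f80007f,0,0x3f803f8000000000,bK_S3,none⟩
def bK_h6 : List HP := [⟨[0],[],(HT.leaf 3)⟩]
def bK_h12 : List HP := [⟨[0],[],(HT.leaf 3)⟩]
def bK_h18 : List HP := [⟨[1],[],(HT.br true 0 0 (HT.leaf 2) (HT.leaf 2))⟩,⟨[2],[],(HT.br true 0 0 (HT.leaf 2) (HT.leaf 2))⟩,⟨[3],[],(HT.br true 0 0 (HT.leaf 2) (HT.leaf 2))⟩,⟨[4],[],(HT.leaf 2)⟩,⟨[5],[],(HT.br true 0 0 (HT.leaf 2) (HT.leaf 2))⟩,⟨[6],[],(HT.leaf 2)⟩,⟨[7],[],(HT.leaf 2)⟩,⟨[8],[],(HT.br true 0 0 (HT.leaf 4) (HT.leaf 2))⟩,⟨[0],[],(HT.br true 0 0 (HT.leaf 4) (HT.leaf 2))⟩]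
def bK_h24 : List HP := [⟨[0],[],(HT.br true 0 0 (HT.leaf 3) (HT.leaf 2))⟩,⟨[1],[],(HT.br true 0 0 (HT.leaf 3) (HT.leaf 2))⟩,⟨[2],[],(HT.br true 0 0 (HT.leaf 3) (HT.leaf 2))⟩,⟨[3],[],(HT.br true 0 0 (HT.leaf 3) (HT.leaf 2))⟩,⟨[4],[],(HT.br true 0 0 (HT.leaf 3) (HT.leaf 2))⟩,⟨[5],[],(HT.br true 0 0 (HT.leaf 3) (HT.leaf 2))⟩,⟨[6],[],(HT.br true 0 0 (HT.leaf 3) (HT.leaf 2))⟩]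
def bK_h27 : List HP := [⟨[0],[],(HT.leaf 3)⟩]
def bK_h35 : List HP := [⟨[0],[],(HT.br true 0 0 (HT.leaf 3) (HT.leaf 2))⟩,⟨[1],[],(HT.br true 0 0 (HT.leaf 3) (HT.leaf 2))⟩,⟨[2],[],(HT.br true 0 0 (HT.leaf 3) (HT.leaf 2))⟩,⟨[3],[],(HT.br true 0 0 (HT.leaf 3) (HT.leaf 2))⟩,⟨[4],[],(HT.br true 0 0 (HT.leaf 3) (HT.leaf 2))⟩,⟨[5],[],(HT.br true 0 0 (HT.leaf 3) (HT.leaf 2))⟩,⟨[6],[],(HT.br true 0 0 (HT.leaf 3) (HT.leaf 2))⟩]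

end Pool.Agent.Lib.MP_849b2e_co
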