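import Pool.Agent.Lib.MP_849b2e_co.Fast
import Pool.Agent.Lib.MP_849b2e_co.TbK
import Pool.Agent.Lib.MP_849b2e_co.RApply

set_option maxRecDepth 100000
set_option linter.all false
namespace Pool.Agent.Lib.MP_849b2e_co

noncomputable def bK_o0c : Pq := (Pq.cons (Pq.L [] 0 (Pf.W 5 0 [] [] (Pf.cons (Pf.W 5 0 [1] [] (Pf.cons (Pf.B 2 1 (Pf.W 5 0 [1,2] [] (Pf.cons (Pf.B 3 2 (Pf.B 3 1 (Pf.C 7 32899) (Pf.C 1 131)) (Pf.C 1 259)) Pf.nil)) (Pf.C 1 130)) Pf.nil)) Pf.nil)))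
 Pq.nil)
theorem bK_o0 : AllRef bK_T bK_G2 (List.map pat1 [5]) :=
  chkPq_sound bK_o0c _ (by decide +kernel)
noncomputable def bK_o1c : Pq := (Pq.cons (Pq.L [] 0 (Pf.B 2 1 (Pf.B 2 0 (Pf.B 1 0 (Pf.C 7 32769) (Pf.C 1 1)) (Pf.C 1 2)) (Pf.C 1 130)))
 Pq.nil)
theorem bK_o1 : AllRef bK_T bK_G4 (hitObl [3] bK_h6) :=
  chkPq_sound bK_o1c _ (by decide +kernel)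
noncomputable def bK_o2c : Pq := (Pq.cons (Pq.L [] 0 (Pf.C 8 0))
 Pq.nil)
theorem bK_o2 : AllRef bK_T bK_G5 (List.map pat1 [7]) :=
  chkPq_sound bK_o2c _ (by decide +kernel)
noncomputable def bK_o3c : Pq := (Pq.cons (Pq.L [] 2 (Pf.C 1 256))
 (Pq.cons (Pq.L [] 2 (Pf.C 2 256))
 (Pq.cons (Pq.L [] 2 (Pf.C 2 256))
 (Pq.cons (Pq.L [] 2 (Pf.C 2 256))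
 (Pq.cons (Pq.L [] 2 (Pf.C 2 256))
 Pq.nil)))))
theorem bK_o3 : AllRef bK_T bK_G7 (twinObl [4,8,9] 0 [6,1,1]) :=
  chkPq_sound bK_o3c _ (by decide +kernel)
noncomputable def bK_o4c : Pq := (Pq.cons (Pq.L [] 0 (Pf.B 2 1 (Pf.B 2 0 (Pf.B 1 0 (Pf.C 12 32769) (Pf.C 2 1)) (Pf.C 2 2)) (Pf.C 2 130)))
 Pq.nil)
theorem bK_o4 : AllRef bK_T bK_G9 (hitObl [11] bK_h12) :=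
  chkPq_sound bK_o4c _ (by decide +kernel)
noncomputable def bK_o5c : Pq := (Pq.cons (Pq.L [] 0 (Pf.C 13 0))
 Pq.nil)
theorem bK_o5 : AllRef bK_T bK_G11 (List.map pat1 [13]) :=
  chkPq_sound bK_o5c _ (by decide +kernel)
noncomputable def bK_o6c : Pq := (Pq.cons (Pq.D 0 (Pq.cons (Pq.D 1 (Pq.cons (Pq.L [] 1 (Pf.C 1 128))
 (Pq.cons (Pq.D 2 (Pq.cons (Pq.L [] 2 (Pf.C 1 256))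
 (Pq.cons (Pq.D 3 (Pq.cons (Pq.L [] 4 (Pf.C 1 384))
 (Pq.cons (Pq.L [] 7 (Pf.C 4 0x608080))
 Pq.nil))) Pq.nil))) Pq.nil))) (Pq.cons (Pq.D 1 (Pq.cons (Pq.D 2 (Pq.cons (Pq.D 3 (Pq.cons (Pq.L [] 7 (Pf.C 10 0x608080))
 (Pq.cons (Pq.L [] 4 (Pf.C 2 384))
 Pq.nil))) (Pq.cons (Pq.L [] 2 (Pf.C 2 256))
 Pq.nil))) (Pq.cons (Pq.L [] 1 (Pf.C 2 128))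
 Pq.nil))) Pq.nil))) Pq.nil)
theorem bK_o6 : AllRef bK_T bK_G12 (applyObl TD2 1 [10,12] [0,0] []) :=
  chkPq_sound bK_o6c _ (by decide +kernel)
noncomputable def bK_o7c : Pq := (Pq.cons (Pq.L [0,1,2] 0 (Pf.C 4 0x404003))
 Pq.nil)
theorem bK_o7 : AllRef bK_T bK_G10 (ptObl 10 (PT.br 0 (PT.br 1 (PT.br 2 PT.kid PT.kid) (PT.br 2 PT.kid PT.kid)) (PT.br 1 (PT.br 2 PT.kid PT.kid) (PT.br 2 PT.kid PT.ref))) []) :=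
  chkPq_sound bK_o7c _ (by decide +kernel)
noncomputable def bK_o8c : Pq := Pq.nil
theorem bK_o8 : AllRef bK_T bK_G13 (ptObl 11 PT.kid []) :=
  chkPq_sound bK_o8c _ (by decide +kernel)
noncomputable def bK_o9c : Pq := (Pq.cons (Pq.L [0,1,2] 1 (Pf.W 9 0 [] [1,2,3,4] (Pf.cons (Pf.B 5 4 (Pf.B 5 3 (Pf.W 9 0 [5] [1,2,3,4] (Pf.cons (Pf.B 6 5 (Pf.B 6 4 (Pf.B 6 3 (Pf.W 9 0 [5,6] [1,2,3,4] (Pf.cons (Pf.B 7 6 (Pf.B 7 5 (Pf.B 7 4 (Pf.B 7 3 (Pf.W 9 1 [] [0,2,3,4,5,6,7] (Pf.cons (Pf.B 5 2 (Pf.W 9 1 [5] [0,2,3,4,6,7] (Pf.cons (Pf.B 6 2 (Pf.B 7 2 (Pf.C 0 0x101820c14380) (Pf.B 7 1 (Pf.W 9 1 [5,6] [3,4,7] (Pf.cons (Pf.B 8 7 (Pf.B 8 6 (Pf.B 8 5 (Pf.B 8 4 (Pf.B 8 3 (Pf.C 0 0x1c2030c14401)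 (Pf.C 1 392)) (Pf.C 1 520)) (Pf.C 1 648)) (Pf.C 1 776)) (Pf.C 1 904)) Pf.nil)) (Pf.C 4 0x400087))) (Pf.C 4 0x200106)) (Pf.cons (Pf.B 7 2 (Pf.B 6 2 (Pf.C 0 0x101820e14300) (Pf.B 6 1 (Pf.W 9 1 [5,7] [3,4,6] (Pf.cons (Pf.B 8 7 (Pf.B 8 6 (Pf.B 8 5 (Pf.B 8 4 (Pf.B 8 3 (Pf.C 0 0x182030e14401) (Pf.C 1 392)) (Pf.C 1 520)) (Pf.C 1 648)) (Pf.C 1 776)) (Pf.C 1 904)) Pf.nil)) (Pf.C 4 0x400086))) (Pf.C 4 0x200107)) (Pf.cons (Pf.B 8 7 (Pf.B 8 6 (Pf.B 8 5 (Pf.B 8 4 (Pf.B 8 3 (Pf.B 8 0 (Pf.C 0 0x101880e18280) (Pf.B 8 2 (Pf.B 7 2 (Pf.C 0 0x101821014380) (Pf.B 7 1 (Pf.B 6 2 (Pf.C 0 0x101821014300) (Pf.B 6 1 (Pf.W 9 1 [5,8] [4,6,7] (Pf.cons (Pf.B 9 8 (Pf.B 9 7 (Pf.B 9 6 (Pf.B 9 5 (Pf.B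 9 4 (Pf.C 0 0x1c3041014481) (Pf.C 1 521)) (Pf.C 1 649)) (Pf.C 1 777)) (Pf.C 1 905)) (Pf.C 1 1033)) Pf.nil)) (Pf.C 4 0x400086))) (Pf.C 4 0x400087))) (Pf.C 4 0x200108))) (Pf.C 1 392)) (Pf.C 1 520)) (Pf.C 1 648)) (Pf.C 1 776)) (Pf.C 1 904)) Pf.nil)))) (Pf.C 4 0x200105)) (Pf.cons (Pf.B 6 2 (Pf.W 9 1 [6] [0,2,3,4,5,7] (Pf.cons (Pf.B 5 2 (Pf.B 7 2 (Pf.C 0 0x101820c14380) (Pf.B 7 1 (Pf.W 9 1 [5,6] [3,4,7] (Pf.cons (Pf.B 8 7 (Pf.B 8 6 (Pf.B 8 5 (Pf.B 8 4 (Pf.B 8 3 (Pf.C 0 0x1c2030c14401) (Pf.C 1 392)) (Pf.C 1 520)) (Pf.C 1 648)) (Pf.C 1 776)) (Pf.C 1 904)) Pf.nil)) (Pf.C 4 0x400087))) (Pf.C 4 0x200105)) (Pf.cons (Pf.B 7 2 (Pf.B 5 2 (Pf.C 0 0x101820e18280) (Pf.B 5 1 (Pf.W 9 1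 [6,7] [3,4,5] (Pf.cons (Pf.B 8 7 (Pf.B 8 6 (Pf.B 8 5 (Pf.B 8 4 (Pf.B 8 3 (Pf.C 0 0x142030e18401) (Pf.C 1 392)) (Pf.C 1 520)) (Pf.C 1 648)) (Pf.C 1 776)) (Pf.C 1 904)) Pf.nil)) (Pf.C 4 0x400085))) (Pf.C 4 0x200107)) (Pf.cons (Pf.B 8 7 (Pf.B 8 6 (Pf.B 8 5 (Pf.B 8 4 (Pf.B 8 3 (Pf.B 8 0 (Pf.C 0 0x101880e18280) (Pf.B 8 2 (Pf.B 7 2 (Pf.C 0 0x101821018380) (Pf.B 7 1 (Pf.B 5 2 (Pf.C 0 0x101821018280) (Pf.B 5 1 (Pf.W 9 1 [6,8] [4,5,7] (Pf.cons (Pf.B 9 8 (Pf.B 9 7 (Pf.B 9 6 (Pf.B 9 5 (Pf.B 9 4 (Pf.C 0 0x1c2841018481) (Pf.C 1 521)) (Pf.C 1 649)) (Pf.C 1 777)) (Pf.C 1 905)) (Pf.C 1 1033)) Pf.nil)) (Pf.C 4 0x400085))) (Pf.C 4 0x400087))) (Pf.C 4 0x200108))) (Pf.C 1 392)) (Pf.C 1 520))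 (Pf.C 1 648)) (Pf.C 1 776)) (Pf.C 1 904)) Pf.nil)))) (Pf.C 4 0x200106)) (Pf.cons (Pf.B 7 2 (Pf.W 9 1 [7] [0,2,3,4,5,6] (Pf.cons (Pf.B 5 2 (Pf.B 6 2 (Pf.C 0 0x101820e14300) (Pf.B 6 1 (Pf.W 9 1 [5,7] [3,4,6] (Pf.cons (Pf.B 8 7 (Pf.B 8 6 (Pf.B 8 5 (Pf.B 8 4 (Pf.B 8 3 (Pf.C 0 0x182030e14401) (Pf.C 1 392)) (Pf.C 1 520)) (Pf.C 1 648)) (Pf.C 1 776)) (Pf.C 1 904)) Pf.nil)) (Pf.C 4 0x400086))) (Pf.C 4 0x200105)) (Pf.cons (Pf.B 6 2 (Pf.B 5 2 (Pf.C 0 0x101820e18280) (Pf.B 5 1 (Pf.W 9 1 [6,7] [3,4,5] (Pf.cons (Pf.B 8 7 (Pf.B 8 6 (Pf.B 8 5 (Pf.B 8 4 (Pf.B 8 3 (Pf.C 0 0x142030e18401) (Pf.C 1 392)) (Pf.C 1 520)) (Pf.C 1 648)) (Pf.C 1 776)) (Pf.C 1 904)) Pf.nil)) (Pf.C 4 0x400085)))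 (Pf.C 4 0x200106)) (Pf.cons (Pf.B 8 7 (Pf.B 8 6 (Pf.B 8 5 (Pf.B 8 4 (Pf.B 8 3 (Pf.B 8 0 (Pf.C 0 0x101880e18280) (Pf.B 8 2 (Pf.B 6 2 (Pf.C 0 0x10182101c300) (Pf.B 6 1 (Pf.B 5 2 (Pf.C 0 0x10182101c280) (Pf.B 5 1 (Pf.W 9 1 [7,8] [4,5,6] (Pf.cons (Pf.B 9 8 (Pf.B 9 7 (Pf.B 9 6 (Pf.B 9 5 (Pf.B 9 4 (Pf.C 0 0x18284101c481) (Pf.C 1 521)) (Pf.C 1 649)) (Pf.C 1 777)) (Pf.C 1 905)) (Pf.C 1 1033)) Pf.nil)) (Pf.C 4 0x400085))) (Pf.C 4 0x400086))) (Pf.C 4 0x200108))) (Pf.C 1 392)) (Pf.C 1 520)) (Pf.C 1 648)) (Pf.C 1 776)) (Pf.C 1 904)) Pf.nil)))) (Pf.C 4 0x200107)) (Pf.cons (Pf.B 8 7 (Pf.B 8 6 (Pf.B 8 5 (Pf.B 8 4 (Pf.B 8 3 (Pf.B 8 0 (Pf.C 0 0x101880e18280) (Pf.B 8 2 (Pf.W 9 1 [8] [0,2,3,4,5,6,7]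 (Pf.cons (Pf.B 5 2 (Pf.B 7 2 (Pf.C 0 0x101821014380) (Pf.B 7 1 (Pf.B 6 2 (Pf.C 0 0x101821014300) (Pf.B 6 1 (Pf.W 9 1 [5,8] [4,6,7] (Pf.cons (Pf.B 9 8 (Pf.B 9 7 (Pf.B 9 6 (Pf.B 9 5 (Pf.B 9 4 (Pf.C 0 0x1c3041014481) (Pf.C 1 521)) (Pf.C 1 649)) (Pf.C 1 777)) (Pf.C 1 905)) (Pf.C 1 1033)) Pf.nil)) (Pf.C 4 0x400086))) (Pf.C 4 0x400087))) (Pf.C 4 0x200105)) (Pf.cons (Pf.B 6 2 (Pf.B 7 2 (Pf.C 0 0x101821018380) (Pf.B 7 1 (Pf.B 5 2 (Pf.C 0 0x101821018280) (Pf.B 5 1 (Pf.W 9 1 [6,8] [4,5,7] (Pf.cons (Pf.B 9 8 (Pf.B 9 7 (Pf.B 9 6 (Pf.B 9 5 (Pf.B 9 4 (Pf.C 0 0x1c2841018481) (Pf.C 1 521)) (Pf.C 1 649)) (Pf.C 1 777)) (Pf.C 1 905)) (Pf.C 1 1033)) Pf.nil)) (Pf.C 4 0x400085))) (Pf.C 4 0x400087)))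 (Pf.C 4 0x200106)) (Pf.cons (Pf.B 7 2 (Pf.B 6 2 (Pf.C 0 0x10182101c300) (Pf.B 6 1 (Pf.B 5 2 (Pf.C 0 0x10182101c280) (Pf.B 5 1 (Pf.W 9 1 [7,8] [4,5,6] (Pf.cons (Pf.B 9 8 (Pf.B 9 7 (Pf.B 9 6 (Pf.B 9 5 (Pf.B 9 4 (Pf.C 0 0x18284101c481) (Pf.C 1 521)) (Pf.C 1 649)) (Pf.C 1 777)) (Pf.C 1 905)) (Pf.C 1 1033)) Pf.nil)) (Pf.C 4 0x400085))) (Pf.C 4 0x400086))) (Pf.C 4 0x200107)) (Pf.cons (Pf.B 9 8 (Pf.B 9 7 (Pf.B 9 6 (Pf.B 9 5 (Pf.B 9 4 (Pf.B 9 3 (Pf.B 9 0 (Pf.C 0 0x101890e18280) (Pf.B 9 2 (Pf.B 7 2 (Pf.C 0 0x101821220380) (Pf.B 6 2 (Pf.C 0 0x101821220300) (Pf.B 5 2 (Pf.C 0 0x101821220280) (Pf.C 0 0x202030e18282)))) (Pf.C 4 0x200109))) (Pf.C 1 393)) (Pf.C 1 521)) (Pf.C 1 649))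 (Pf.C 1 777)) (Pf.C 1 905)) (Pf.C 1 1033)) Pf.nil))))) (Pf.C 4 0x200108))) (Pf.C 1 392)) (Pf.C 1 520)) (Pf.C 1 648)) (Pf.C 1 776)) (Pf.C 1 904)) Pf.nil))))) (Pf.C 1 391)) (Pf.C 1 519)) (Pf.C 1 647)) (Pf.C 1 775)) Pf.nil)) (Pf.C 1 390)) (Pf.C 1 518)) (Pf.C 1 646)) Pf.nil)) (Pf.C 1 389)) (Pf.C 1 517)) Pf.nil)))
 (Pq.cons (Pq.L [] 1 (Pf.C 1 515))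
 (Pq.cons (Pq.L [0,1,2] 1 (Pf.W 9 0 [] [1,2,3,4] (Pf.cons (Pf.B 5 4 (Pf.B 5 3 (Pf.W 9 0 [5] [1,2,3,4] (Pf.cons (Pf.B 6 5 (Pf.B 6 4 (Pf.B 6 3 (Pf.W 9 0 [5,6] [1,2,3,4] (Pf.cons (Pf.B 7 6 (Pf.B 7 5 (Pf.B 7 4 (Pf.B 7 3 (Pf.W 9 1 [] [0,2,3,4,5,6,7] (Pf.cons (Pf.B 5 2 (Pf.W 9 1 [5] [0,2,3,4,6,7] (Pf.cons (Pf.B 6 2 (Pf.W 9 1 [5,6] [0,2,3,4,7] (Pf.cons (Pf.B 7 2 (Pf.W 9 2 [3,4] [5,6,7] (Pf.cons (Pf.B 8 7 (Pf.B 8 6 (Pf.B 8 5 (Pf.B 8 4 (Pf.B 8 3 (Pf.C 0 0x1c305080c402) (Pf.C 1 392)) (Pf.C 1 520)) (Pf.C 1 648)) (Pf.C 1 776)) (Pf.C 1 904)) Pf.nil)) (Pf.C 4 0x200107)) (Pf.cons (Pf.B 8 7 (Pf.B 8 6 (Pf.B 8 5 (Pf.B 8 4 (Pf.B 8 3 (Pf.B 8 0 (Pf.C 0 0x101880e18280) (Pf.B 8 2 (Pf.B 7 2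 (Pf.W 9 2 [3,4] [5,6,7] (Pf.cons (Pf.B 9 7 (Pf.B 9 6 (Pf.B 9 5 (Pf.B 9 4 (Pf.B 9 3 (Pf.C 0 0x1c305080c482) (Pf.C 1 393)) (Pf.C 1 521)) (Pf.C 1 649)) (Pf.C 1 777)) (Pf.C 1 905)) Pf.nil)) (Pf.C 0 0x20305080c382)) (Pf.C 4 0x200108))) (Pf.C 1 392)) (Pf.C 1 520)) (Pf.C 1 648)) (Pf.C 1 776)) (Pf.C 1 904)) Pf.nil))) (Pf.C 4 0x200106)) (Pf.cons (Pf.B 7 2 (Pf.W 9 1 [5,7] [0,2,3,4,6] (Pf.cons (Pf.B 6 2 (Pf.W 9 2 [3,4] [5,6,7] (Pf.cons (Pf.B 8 7 (Pf.B 8 6 (Pf.B 8 5 (Pf.B 8 4 (Pf.B 8 3 (Pf.C 0 0x1c305080c402) (Pf.C 1 392)) (Pf.C 1 520)) (Pf.C 1 648)) (Pf.C 1 776)) (Pf.C 1 904)) Pf.nil)) (Pf.C 4 0x200106)) (Pf.cons (Pf.B 8 7 (Pf.B 8 6 (Pf.B 8 5 (Pf.B 8 4 (Pf.B 8 3 (Pf.B 8 0 (Pf.C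 0 0x101880e18280) (Pf.B 8 2 (Pf.B 6 2 (Pf.W 9 2 [3,4] [5,6,7] (Pf.cons (Pf.B 9 7 (Pf.B 9 6 (Pf.B 9 5 (Pf.B 9 4 (Pf.B 9 3 (Pf.C 0 0x1c305080c482) (Pf.C 1 393)) (Pf.C 1 521)) (Pf.C 1 649)) (Pf.C 1 777)) (Pf.C 1 905)) Pf.nil)) (Pf.C 0 0x20385080c302)) (Pf.C 4 0x200108))) (Pf.C 1 392)) (Pf.C 1 520)) (Pf.C 1 648)) (Pf.C 1 776)) (Pf.C 1 904)) Pf.nil))) (Pf.C 4 0x200107)) (Pf.cons (Pf.B 8 7 (Pf.B 8 6 (Pf.B 8 5 (Pf.B 8 4 (Pf.B 8 3 (Pf.B 8 0 (Pf.C 0 0x101880e18280) (Pf.B 8 2 (Pf.W 9 1 [5,8] [0,2,3,4,6,7] (Pf.cons (Pf.B 7 1 (Pf.C 0 0x101871018281) (Pf.B 7 2 (Pf.B 6 2 (Pf.W 9 2 [3,4] [5,6,7] (Pf.cons (Pf.B 9 7 (Pf.B 9 6 (Pf.B 9 5 (Pf.B 9 4 (Pf.B 9 3 (Pf.C 0 0x1c305080c482) (Pf.C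 1 393)) (Pf.C 1 521)) (Pf.C 1 649)) (Pf.C 1 777)) (Pf.C 1 905)) Pf.nil)) (Pf.C 4 0x200106)) (Pf.C 4 0x200107))) (Pf.cons (Pf.B 7 2 (Pf.B 6 2 (Pf.W 9 2 [3,4] [5,6,7] (Pf.cons (Pf.B 9 7 (Pf.B 9 6 (Pf.B 9 5 (Pf.B 9 4 (Pf.B 9 3 (Pf.C 0 0x1c305080c482) (Pf.C 1 393)) (Pf.C 1 521)) (Pf.C 1 649)) (Pf.C 1 777)) (Pf.C 1 905)) Pf.nil)) (Pf.C 0 0x20385080c302)) (Pf.C 4 0x200107)) (Pf.cons (Pf.B 9 8 (Pf.B 9 7 (Pf.B 9 6 (Pf.B 9 5 (Pf.B 9 4 (Pf.B 9 3 (Pf.B 9 0 (Pf.C 0 0x101890e18280) (Pf.B 9 2 (Pf.B 7 2 (Pf.B 6 2 (Pf.W 9 2 [3,4] [5,6,7] (Pf.cons (Pf.B 10 7 (Pf.B 10 6 (Pf.B 10 5 (Pf.B 10 4 (Pf.B 10 3 (Pf.C 0 0x1c305080c502) (Pf.C 1 394)) (Pf.C 1 522)) (Pf.C 1 650)) (Pf.C 1 778)) (Pf.C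 1 906)) Pf.nil)) (Pf.C 0 0x20385080c302)) (Pf.C 0 0x24405080c382)) (Pf.C 4 0x200109))) (Pf.C 1 393)) (Pf.C 1 521)) (Pf.C 1 649)) (Pf.C 1 777)) (Pf.C 1 905)) (Pf.C 1 1033)) Pf.nil)))) (Pf.C 4 0x200108))) (Pf.C 1 392)) (Pf.C 1 520)) (Pf.C 1 648)) (Pf.C 1 776)) (Pf.C 1 904)) Pf.nil)))) (Pf.C 4 0x200105)) (Pf.cons (Pf.B 6 2 (Pf.W 9 1 [6] [0,2,3,4,5,7] (Pf.cons (Pf.B 5 2 (Pf.W 9 1 [5,6] [0,2,3,4,7] (Pf.cons (Pf.B 7 2 (Pf.W 9 2 [3,4] [5,6,7] (Pf.cons (Pf.B 8 7 (Pf.B 8 6 (Pf.B 8 5 (Pf.B 8 4 (Pf.B 8 3 (Pf.C 0 0x1c305080c402) (Pf.C 1 392)) (Pf.C 1 520)) (Pf.C 1 648)) (Pf.C 1 776)) (Pf.C 1 904)) Pf.nil)) (Pf.C 4 0x200107)) (Pf.cons (Pf.B 8 7 (Pf.B 8 6 (Pf.B 8 5 (Pf.B 8 4 (Pf.B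 8 3 (Pf.B 8 0 (Pf.C 0 0x101880e18280) (Pf.B 8 2 (Pf.B 7 2 (Pf.W 9 2 [3,4] [5,6,7] (Pf.cons (Pf.B 9 7 (Pf.B 9 6 (Pf.B 9 5 (Pf.B 9 4 (Pf.B 9 3 (Pf.C 0 0x1c305080c482) (Pf.C 1 393)) (Pf.C 1 521)) (Pf.C 1 649)) (Pf.C 1 777)) (Pf.C 1 905)) Pf.nil)) (Pf.C 0 0x20305080c382)) (Pf.C 4 0x200108))) (Pf.C 1 392)) (Pf.C 1 520)) (Pf.C 1 648)) (Pf.C 1 776)) (Pf.C 1 904)) Pf.nil))) (Pf.C 4 0x200105)) (Pf.cons (Pf.B 7 2 (Pf.W 9 1 [6,7] [0,2,3,4,5] (Pf.cons (Pf.B 5 2 (Pf.W 9 2 [3,4] [5,6,7] (Pf.cons (Pf.B 8 7 (Pf.B 8 6 (Pf.B 8 5 (Pf.B 8 4 (Pf.B 8 3 (Pf.C 0 0x1c305080c402) (Pf.C 1 392)) (Pf.C 1 520)) (Pf.C 1 648)) (Pf.C 1 776)) (Pf.C 1 904)) Pf.nil)) (Pf.C 4 0x200105)) (Pf.cons (Pf.B 8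 7 (Pf.B 8 6 (Pf.B 8 5 (Pf.B 8 4 (Pf.B 8 3 (Pf.B 8 0 (Pf.C 0 0x101880e18280) (Pf.B 8 2 (Pf.B 5 2 (Pf.W 9 2 [3,4] [5,6,7] (Pf.cons (Pf.B 9 7 (Pf.B 9 6 (Pf.B 9 5 (Pf.B 9 4 (Pf.B 9 3 (Pf.C 0 0x1c305080c482) (Pf.C 1 393)) (Pf.C 1 521)) (Pf.C 1 649)) (Pf.C 1 777)) (Pf.C 1 905)) Pf.nil)) (Pf.C 0 0x20386080c282)) (Pf.C 4 0x200108))) (Pf.C 1 392)) (Pf.C 1 520)) (Pf.C 1 648)) (Pf.C 1 776)) (Pf.C 1 904)) Pf.nil))) (Pf.C 4 0x200107)) (Pf.cons (Pf.B 8 7 (Pf.B 8 6 (Pf.B 8 5 (Pf.B 8 4 (Pf.B 8 3 (Pf.B 8 0 (Pf.C 0 0x101880e18280) (Pf.B 8 2 (Pf.W 9 1 [6,8] [0,2,3,4,5,7] (Pf.cons (Pf.B 7 1 (Pf.C 0 0x101871018281) (Pf.B 7 2 (Pf.B 5 2 (Pf.W 9 2 [3,4] [5,6,7] (Pf.cons (Pf.B 9 7 (Pf.B 9 6 (Pf.B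 9 5 (Pf.B 9 4 (Pf.B 9 3 (Pf.C 0 0x1c305080c482) (Pf.C 1 393)) (Pf.C 1 521)) (Pf.C 1 649)) (Pf.C 1 777)) (Pf.C 1 905)) Pf.nil)) (Pf.C 4 0x200105)) (Pf.C 4 0x200107))) (Pf.cons (Pf.B 7 2 (Pf.B 5 2 (Pf.W 9 2 [3,4] [5,6,7] (Pf.cons (Pf.B 9 7 (Pf.B 9 6 (Pf.B 9 5 (Pf.B 9 4 (Pf.B 9 3 (Pf.C 0 0x1c305080c482) (Pf.C 1 393)) (Pf.C 1 521)) (Pf.C 1 649)) (Pf.C 1 777)) (Pf.C 1 905)) Pf.nil)) (Pf.C 0 0x20386080c282)) (Pf.C 4 0x200107)) (Pf.cons (Pf.B 9 8 (Pf.B 9 7 (Pf.B 9 6 (Pf.B 9 5 (Pf.B 9 4 (Pf.B 9 3 (Pf.B 9 0 (Pf.C 0 0x101890e18280) (Pf.B 9 2 (Pf.B 7 2 (Pf.B 5 2 (Pf.W 9 2 [3,4] [5,6,7] (Pf.cons (Pf.B 10 7 (Pf.B 10 6 (Pf.B 10 5 (Pf.B 10 4 (Pf.B 10 3 (Pf.C 0 0x1c305080c502) (Pf.C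 1 394)) (Pf.C 1 522)) (Pf.C 1 650)) (Pf.C 1 778)) (Pf.C 1 906)) Pf.nil)) (Pf.C 0 0x20386080c282)) (Pf.C 0 0x24406080c382)) (Pf.C 4 0x200109))) (Pf.C 1 393)) (Pf.C 1 521)) (Pf.C 1 649)) (Pf.C 1 777)) (Pf.C 1 905)) (Pf.C 1 1033)) Pf.nil)))) (Pf.C 4 0x200108))) (Pf.C 1 392)) (Pf.C 1 520)) (Pf.C 1 648)) (Pf.C 1 776)) (Pf.C 1 904)) Pf.nil)))) (Pf.C 4 0x200106)) (Pf.cons (Pf.B 7 2 (Pf.W 9 1 [7] [0,2,3,4,5,6] (Pf.cons (Pf.B 5 2 (Pf.W 9 1 [5,7] [0,2,3,4,6] (Pf.cons (Pf.B 6 2 (Pf.W 9 2 [3,4] [5,6,7] (Pf.cons (Pf.B 8 7 (Pf.B 8 6 (Pf.B 8 5 (Pf.B 8 4 (Pf.B 8 3 (Pf.C 0 0x1c305080c402) (Pf.C 1 392)) (Pf.C 1 520)) (Pf.C 1 648)) (Pf.C 1 776)) (Pf.C 1 904)) Pf.nil)) (Pf.C 4 0x200106))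 (Pf.cons (Pf.B 8 7 (Pf.B 8 6 (Pf.B 8 5 (Pf.B 8 4 (Pf.B 8 3 (Pf.B 8 0 (Pf.C 0 0x101880e18280) (Pf.B 8 2 (Pf.B 6 2 (Pf.W 9 2 [3,4] [5,6,7] (Pf.cons (Pf.B 9 7 (Pf.B 9 6 (Pf.B 9 5 (Pf.B 9 4 (Pf.B 9 3 (Pf.C 0 0x1c305080c482) (Pf.C 1 393)) (Pf.C 1 521)) (Pf.C 1 649)) (Pf.C 1 777)) (Pf.C 1 905)) Pf.nil)) (Pf.C 0 0x20385080c302)) (Pf.C 4 0x200108))) (Pf.C 1 392)) (Pf.C 1 520)) (Pf.C 1 648)) (Pf.C 1 776)) (Pf.C 1 904)) Pf.nil))) (Pf.C 4 0x200105)) (Pf.cons (Pf.B 6 2 (Pf.W 9 1 [6,7] [0,2,3,4,5] (Pf.cons (Pf.B 5 2 (Pf.W 9 2 [3,4] [5,6,7] (Pf.cons (Pf.B 8 7 (Pf.B 8 6 (Pf.B 8 5 (Pf.B 8 4 (Pf.B 8 3 (Pf.C 0 0x1c305080c402) (Pf.C 1 392)) (Pf.C 1 520)) (Pf.C 1 648)) (Pf.C 1 776)) (Pf.C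 1 904)) Pf.nil)) (Pf.C 4 0x200105)) (Pf.cons (Pf.B 8 7 (Pf.B 8 6 (Pf.B 8 5 (Pf.B 8 4 (Pf.B 8 3 (Pf.B 8 0 (Pf.C 0 0x101880e18280) (Pf.B 8 2 (Pf.B 5 2 (Pf.W 9 2 [3,4] [5,6,7] (Pf.cons (Pf.B 9 7 (Pf.B 9 6 (Pf.B 9 5 (Pf.B 9 4 (Pf.B 9 3 (Pf.C 0 0x1c305080c482) (Pf.C 1 393)) (Pf.C 1 521)) (Pf.C 1 649)) (Pf.C 1 777)) (Pf.C 1 905)) Pf.nil)) (Pf.C 0 0x20386080c282)) (Pf.C 4 0x200108))) (Pf.C 1 392)) (Pf.C 1 520)) (Pf.C 1 648)) (Pf.C 1 776)) (Pf.C 1 904)) Pf.nil))) (Pf.C 4 0x200106)) (Pf.cons (Pf.B 8 7 (Pf.B 8 6 (Pf.B 8 5 (Pf.B 8 4 (Pf.B 8 3 (Pf.B 8 0 (Pf.C 0 0x101880e18280) (Pf.B 8 2 (Pf.W 9 1 [7,8] [0,2,3,4,5,6] (Pf.cons (Pf.B 6 1 (Pf.C 0 0x10186101c281) (Pf.B 6 2 (Pf.B 5 2 (Pf.W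 9 2 [3,4] [5,6,7] (Pf.cons (Pf.B 9 7 (Pf.B 9 6 (Pf.B 9 5 (Pf.B 9 4 (Pf.B 9 3 (Pf.C 0 0x1c305080c482) (Pf.C 1 393)) (Pf.C 1 521)) (Pf.C 1 649)) (Pf.C 1 777)) (Pf.C 1 905)) Pf.nil)) (Pf.C 4 0x200105)) (Pf.C 4 0x200106))) (Pf.cons (Pf.B 6 2 (Pf.B 5 2 (Pf.W 9 2 [3,4] [5,6,7] (Pf.cons (Pf.B 9 7 (Pf.B 9 6 (Pf.B 9 5 (Pf.B 9 4 (Pf.B 9 3 (Pf.C 0 0x1c305080c482) (Pf.C 1 393)) (Pf.C 1 521)) (Pf.C 1 649)) (Pf.C 1 777)) (Pf.C 1 905)) Pf.nil)) (Pf.C 0 0x20386080c282)) (Pf.C 4 0x200106)) (Pf.cons (Pf.B 9 8 (Pf.B 9 7 (Pf.B 9 6 (Pf.B 9 5 (Pf.B 9 4 (Pf.B 9 3 (Pf.B 9 0 (Pf.C 0 0x101890e18280) (Pf.B 9 2 (Pf.B 6 2 (Pf.B 5 2 (Pf.W 9 2 [3,4] [5,6,7] (Pf.cons (Pf.B 10 7 (Pf.B 10 6 (Pf.B 10 5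 (Pf.B 10 4 (Pf.B 10 3 (Pf.C 0 0x1c305080c502) (Pf.C 1 394)) (Pf.C 1 522)) (Pf.C 1 650)) (Pf.C 1 778)) (Pf.C 1 906)) Pf.nil)) (Pf.C 0 0x20386080c282)) (Pf.C 0 0x24407080c302)) (Pf.C 4 0x200109))) (Pf.C 1 393)) (Pf.C 1 521)) (Pf.C 1 649)) (Pf.C 1 777)) (Pf.C 1 905)) (Pf.C 1 1033)) Pf.nil)))) (Pf.C 4 0x200108))) (Pf.C 1 392)) (Pf.C 1 520)) (Pf.C 1 648)) (Pf.C 1 776)) (Pf.C 1 904)) Pf.nil)))) (Pf.C 4 0x200107)) (Pf.cons (Pf.B 8 7 (Pf.B 8 6 (Pf.B 8 5 (Pf.B 8 4 (Pf.B 8 3 (Pf.B 8 0 (Pf.C 0 0x101880e18280) (Pf.B 8 2 (Pf.W 9 1 [8] [0,2,3,4,5,6,7] (Pf.cons (Pf.B 5 2 (Pf.W 9 1 [5,8] [0,2,3,4,6,7] (Pf.cons (Pf.B 7 1 (Pf.C 0 0x101871018281) (Pf.B 7 2 (Pf.B 6 2 (Pf.W 9 2 [3,4] [5,6,7]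 (Pf.cons (Pf.B 9 7 (Pf.B 9 6 (Pf.B 9 5 (Pf.B 9 4 (Pf.B 9 3 (Pf.C 0 0x1c305080c482) (Pf.C 1 393)) (Pf.C 1 521)) (Pf.C 1 649)) (Pf.C 1 777)) (Pf.C 1 905)) Pf.nil)) (Pf.C 4 0x200106)) (Pf.C 4 0x200107))) (Pf.cons (Pf.B 7 2 (Pf.B 6 2 (Pf.W 9 2 [3,4] [5,6,7] (Pf.cons (Pf.B 9 7 (Pf.B 9 6 (Pf.B 9 5 (Pf.B 9 4 (Pf.B 9 3 (Pf.C 0 0x1c305080c482) (Pf.C 1 393)) (Pf.C 1 521)) (Pf.C 1 649)) (Pf.C 1 777)) (Pf.C 1 905)) Pf.nil)) (Pf.C 0 0x20385080c302)) (Pf.C 4 0x200107)) (Pf.cons (Pf.B 9 8 (Pf.B 9 7 (Pf.B 9 6 (Pf.B 9 5 (Pf.B 9 4 (Pf.B 9 3 (Pf.B 9 0 (Pf.C 0 0x101890e18280) (Pf.B 9 2 (Pf.B 7 2 (Pf.B 6 2 (Pf.W 9 2 [3,4] [5,6,7] (Pf.cons (Pf.B 10 7 (Pf.B 10 6 (Pf.B 10 5 (Pf.B 10 4 (Pf.B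 10 3 (Pf.C 0 0x1c305080c502) (Pf.C 1 394)) (Pf.C 1 522)) (Pf.C 1 650)) (Pf.C 1 778)) (Pf.C 1 906)) Pf.nil)) (Pf.C 0 0x20385080c302)) (Pf.C 0 0x24405080c382)) (Pf.C 4 0x200109))) (Pf.C 1 393)) (Pf.C 1 521)) (Pf.C 1 649)) (Pf.C 1 777)) (Pf.C 1 905)) (Pf.C 1 1033)) Pf.nil)))) (Pf.C 4 0x200105)) (Pf.cons (Pf.B 6 2 (Pf.W 9 1 [6,8] [0,2,3,4,5,7] (Pf.cons (Pf.B 7 1 (Pf.C 0 0x101871018281) (Pf.B 7 2 (Pf.B 5 2 (Pf.W 9 2 [3,4] [5,6,7] (Pf.cons (Pf.B 9 7 (Pf.B 9 6 (Pf.B 9 5 (Pf.B 9 4 (Pf.B 9 3 (Pf.C 0 0x1c305080c482) (Pf.C 1 393)) (Pf.C 1 521)) (Pf.C 1 649)) (Pf.C 1 777)) (Pf.C 1 905)) Pf.nil)) (Pf.C 4 0x200105)) (Pf.C 4 0x200107))) (Pf.cons (Pf.B 7 2 (Pf.B 5 2 (Pf.W 9 2 [3,4] [5,6,7]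 (Pf.cons (Pf.B 9 7 (Pf.B 9 6 (Pf.B 9 5 (Pf.B 9 4 (Pf.B 9 3 (Pf.C 0 0x1c305080c482) (Pf.C 1 393)) (Pf.C 1 521)) (Pf.C 1 649)) (Pf.C 1 777)) (Pf.C 1 905)) Pf.nil)) (Pf.C 0 0x20386080c282)) (Pf.C 4 0x200107)) (Pf.cons (Pf.B 9 8 (Pf.B 9 7 (Pf.B 9 6 (Pf.B 9 5 (Pf.B 9 4 (Pf.B 9 3 (Pf.B 9 0 (Pf.C 0 0x101890e18280) (Pf.B 9 2 (Pf.B 7 2 (Pf.B 5 2 (Pf.W 9 2 [3,4] [5,6,7] (Pf.cons (Pf.B 10 7 (Pf.B 10 6 (Pf.B 10 5 (Pf.B 10 4 (Pf.B 10 3 (Pf.C 0 0x1c305080c502) (Pf.C 1 394)) (Pf.C 1 522)) (Pf.C 1 650)) (Pf.C 1 778)) (Pf.C 1 906)) Pf.nil)) (Pf.C 0 0x20386080c282)) (Pf.C 0 0x24406080c382)) (Pf.C 4 0x200109))) (Pf.C 1 393)) (Pf.C 1 521)) (Pf.C 1 649)) (Pf.C 1 777)) (Pf.C 1 905)) (Pf.C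 1 1033)) Pf.nil)))) (Pf.C 4 0x200106)) (Pf.cons (Pf.B 7 2 (Pf.W 9 1 [7,8] [0,2,3,4,5,6] (Pf.cons (Pf.B 6 1 (Pf.C 0 0x10186101c281) (Pf.B 6 2 (Pf.B 5 2 (Pf.W 9 2 [3,4] [5,6,7] (Pf.cons (Pf.B 9 7 (Pf.B 9 6 (Pf.B 9 5 (Pf.B 9 4 (Pf.B 9 3 (Pf.C 0 0x1c305080c482) (Pf.C 1 393)) (Pf.C 1 521)) (Pf.C 1 649)) (Pf.C 1 777)) (Pf.C 1 905)) Pf.nil)) (Pf.C 4 0x200105)) (Pf.C 4 0x200106))) (Pf.cons (Pf.B 6 2 (Pf.B 5 2 (Pf.W 9 2 [3,4] [5,6,7] (Pf.cons (Pf.B 9 7 (Pf.B 9 6 (Pf.B 9 5 (Pf.B 9 4 (Pf.B 9 3 (Pf.C 0 0x1c305080c482) (Pf.C 1 393)) (Pf.C 1 521)) (Pf.C 1 649)) (Pf.C 1 777)) (Pf.C 1 905)) Pf.nil)) (Pf.C 0 0x20386080c282)) (Pf.C 4 0x200106)) (Pf.cons (Pf.B 9 8 (Pf.B 9 7 (Pf.B 9 6 (Pf.B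 9 5 (Pf.B 9 4 (Pf.B 9 3 (Pf.B 9 0 (Pf.C 0 0x101890e18280) (Pf.B 9 2 (Pf.B 6 2 (Pf.B 5 2 (Pf.W 9 2 [3,4] [5,6,7] (Pf.cons (Pf.B 10 7 (Pf.B 10 6 (Pf.B 10 5 (Pf.B 10 4 (Pf.B 10 3 (Pf.C 0 0x1c305080c502) (Pf.C 1 394)) (Pf.C 1 522)) (Pf.C 1 650)) (Pf.C 1 778)) (Pf.C 1 906)) Pf.nil)) (Pf.C 0 0x20386080c282)) (Pf.C 0 0x24407080c302)) (Pf.C 4 0x200109))) (Pf.C 1 393)) (Pf.C 1 521)) (Pf.C 1 649)) (Pf.C 1 777)) (Pf.C 1 905)) (Pf.C 1 1033)) Pf.nil)))) (Pf.C 4 0x200107)) (Pf.cons (Pf.B 9 8 (Pf.B 9 7 (Pf.B 9 6 (Pf.B 9 5 (Pf.B 9 4 (Pf.B 9 3 (Pf.B 9 0 (Pf.C 0 0x101890e18280) (Pf.B 9 2 (Pf.W 9 1 [8,9] [0,2,3,4,5,6,7] (Pf.cons (Pf.B 7 1 (Pf.C 0 0x101871220281) (Pf.B 7 2 (Pf.B 6 2 (Pf.B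 5 2 (Pf.W 9 2 [3,4] [5,6,7] (Pf.cons (Pf.B 10 7 (Pf.B 10 6 (Pf.B 10 5 (Pf.B 10 4 (Pf.B 10 3 (Pf.C 0 0x1c305080c502) (Pf.C 1 394)) (Pf.C 1 522)) (Pf.C 1 650)) (Pf.C 1 778)) (Pf.C 1 906)) Pf.nil)) (Pf.C 4 0x200105)) (Pf.C 0 0x24407080c302)) (Pf.C 4 0x200107))) (Pf.cons (Pf.B 7 1 (Pf.C 0 0x101871220301) (Pf.B 7 2 (Pf.B 6 2 (Pf.B 5 2 (Pf.W 9 2 [3,4] [5,6,7] (Pf.cons (Pf.B 10 7 (Pf.B 10 6 (Pf.B 10 5 (Pf.B 10 4 (Pf.B 10 3 (Pf.C 0 0x1c305080c502) (Pf.C 1 394)) (Pf.C 1 522)) (Pf.C 1 650)) (Pf.C 1 778)) (Pf.C 1 906)) Pf.nil)) (Pf.C 0 0x20386080c282)) (Pf.C 4 0x200106)) (Pf.C 4 0x200107))) (Pf.cons (Pf.B 7 2 (Pf.B 6 2 (Pf.B 5 2 (Pf.W 9 2 [3,4] [5,6,7] (Pf.cons (Pf.B 10 7 (Pf.B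 10 6 (Pf.B 10 5 (Pf.B 10 4 (Pf.B 10 3 (Pf.C 0 0x1c305080c502) (Pf.C 1 394)) (Pf.C 1 522)) (Pf.C 1 650)) (Pf.C 1 778)) (Pf.C 1 906)) Pf.nil)) (Pf.C 0 0x20386080c282)) (Pf.C 0 0x24407080c302)) (Pf.C 4 0x200107)) (Pf.cons (Pf.B 10 9 (Pf.B 10 8 (Pf.B 10 7 (Pf.B 10 6 (Pf.B 10 5 (Pf.B 10 4 (Pf.B 10 3 (Pf.B 10 0 (Pf.C 0 0x1018a0e18280) (Pf.B 10 2 (Pf.B 7 2 (Pf.B 6 2 (Pf.B 5 2 (Pf.W 9 2 [3,4] [5,6,7] (Pf.cons (Pf.B 11 7 (Pf.B 11 6 (Pf.B 11 5 (Pf.B 11 4 (Pf.B 11 3 (Pf.C 0 0x1c305080c582) (Pf.C 1 395)) (Pf.C 1 523)) (Pf.C 1 651)) (Pf.C 1 779)) (Pf.C 1 907)) Pf.nil)) (Pf.C 0 0x20386080c282)) (Pf.C 0 0x24407080c302)) (Pf.C 0 0x28488080c382)) (Pf.C 4 0x20010a))) (Pf.C 1 394)) (Pf.C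 1 522)) (Pf.C 1 650)) (Pf.C 1 778)) (Pf.C 1 906)) (Pf.C 1 1034)) (Pf.C 1 1162)) Pf.nil))))) (Pf.C 4 0x200109))) (Pf.C 1 393)) (Pf.C 1 521)) (Pf.C 1 649)) (Pf.C 1 777)) (Pf.C 1 905)) (Pf.C 1 1033)) Pf.nil))))) (Pf.C 4 0x200108))) (Pf.C 1 392)) (Pf.C 1 520)) (Pf.C 1 648)) (Pf.C 1 776)) (Pf.C 1 904)) Pf.nil))))) (Pf.C 1 391)) (Pf.C 1 519)) (Pf.C 1 647)) (Pf.C 1 775)) Pf.nil)) (Pf.C 1 390)) (Pf.C 1 518)) (Pf.C 1 646)) Pf.nil)) (Pf.C 1 389)) (Pf.C 1 517)) Pf.nil)))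
 (Pq.cons (Pq.L [] 1 (Pf.C 1 515))
 (Pq.cons (Pq.L [0,1,2] 1 (Pf.W 9 0 [] [1,2,3,4] (Pf.cons (Pf.B 5 4 (Pf.B 5 3 (Pf.W 9 0 [5] [1,2,3,4] (Pf.cons (Pf.B 6 5 (Pf.B 6 4 (Pf.B 6 3 (Pf.W 9 0 [5,6] [1,2,3,4] (Pf.cons (Pf.B 7 6 (Pf.B 7 5 (Pf.B 7 4 (Pf.B 7 3 (Pf.W 9 1 [3,4] [0,2,5,6,7] (Pf.cons (Pf.B 5 2 (Pf.W 9 2 [] [0,3,4,5,6,7] (Pf.cons (Pf.W 9 2 [6] [3,4,5,7] (Pf.cons (Pf.W 9 2 [6,7] [3,4,5] (Pf.cons (Pf.B 8 7 (Pf.B 8 6 (Pf.B 8 5 (Pf.B 8 4 (Pf.B 8 3 (Pf.C 0 0x142030e18402) (Pf.C 1 392)) (Pf.C 1 520)) (Pf.C 1 648)) (Pf.C 1 776)) (Pf.C 1 904)) Pf.nil)) (Pf.cons (Pf.B 8 7 (Pf.B 8 6 (Pf.B 8 5 (Pf.B 8 4 (Pf.B 8 3 (Pf.B 7 2 (Pf.W 9 2 [6,8] [4,5,7] (Pf.cons (Pf.B 9 8 (Pf.B 9 7 (Pf.B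 9 6 (Pf.B 9 5 (Pf.B 9 4 (Pf.C 0 0x1c2841018482) (Pf.C 1 521)) (Pf.C 1 649)) (Pf.C 1 777)) (Pf.C 1 905)) (Pf.C 1 1033)) Pf.nil)) (Pf.C 0 0x142031018382)) (Pf.C 1 392)) (Pf.C 1 520)) (Pf.C 1 648)) (Pf.C 1 776)) (Pf.C 1 904)) Pf.nil))) (Pf.cons (Pf.W 9 2 [7] [3,4,5,6] (Pf.cons (Pf.W 9 2 [6,7] [3,4,5] (Pf.cons (Pf.B 8 7 (Pf.B 8 6 (Pf.B 8 5 (Pf.B 8 4 (Pf.B 8 3 (Pf.C 0 0x142030e18402) (Pf.C 1 392)) (Pf.C 1 520)) (Pf.C 1 648)) (Pf.C 1 776)) (Pf.C 1 904)) Pf.nil)) (Pf.cons (Pf.B 8 7 (Pf.B 8 6 (Pf.B 8 5 (Pf.B 8 4 (Pf.B 8 3 (Pf.B 6 2 (Pf.W 9 2 [7,8] [4,5,6] (Pf.cons (Pf.B 9 8 (Pf.B 9 7 (Pf.B 9 6 (Pf.B 9 5 (Pf.B 9 4 (Pf.C 0 0x18284101c482) (Pf.C 1 521)) (Pf.C 1 649)) (Pf.C 1 777))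 (Pf.C 1 905)) (Pf.C 1 1033)) Pf.nil)) (Pf.C 0 0x14203101c302)) (Pf.C 1 392)) (Pf.C 1 520)) (Pf.C 1 648)) (Pf.C 1 776)) (Pf.C 1 904)) Pf.nil))) (Pf.cons (Pf.B 8 7 (Pf.B 8 6 (Pf.B 8 5 (Pf.B 8 4 (Pf.B 8 3 (Pf.W 9 2 [8] [0,3,4,5,6,7] (Pf.cons (Pf.B 7 2 (Pf.W 9 2 [6,8] [4,5,7] (Pf.cons (Pf.B 9 8 (Pf.B 9 7 (Pf.B 9 6 (Pf.B 9 5 (Pf.B 9 4 (Pf.C 0 0x1c2841018482) (Pf.C 1 521)) (Pf.C 1 649)) (Pf.C 1 777)) (Pf.C 1 905)) (Pf.C 1 1033)) Pf.nil)) (Pf.C 0 0x142031018382)) (Pf.cons (Pf.B 6 2 (Pf.W 9 2 [7,8] [4,5,6] (Pf.cons (Pf.B 9 8 (Pf.B 9 7 (Pf.B 9 6 (Pf.B 9 5 (Pf.B 9 4 (Pf.C 0 0x18284101c482) (Pf.C 1 521)) (Pf.C 1 649)) (Pf.C 1 777)) (Pf.C 1 905)) (Pf.C 1 1033)) Pf.nil)) (Pf.C 0 0x14203101c302))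 (Pf.cons (Pf.B 9 8 (Pf.B 9 7 (Pf.B 9 6 (Pf.B 9 5 (Pf.B 9 4 (Pf.B 9 3 (Pf.B 7 2 (Pf.B 6 2 (Pf.C 0 0x101820e14300) (Pf.C 0 0x142031220302)) (Pf.C 0 0x142031220382)) (Pf.C 1 393)) (Pf.C 1 521)) (Pf.C 1 649)) (Pf.C 1 777)) (Pf.C 1 905)) (Pf.C 1 1033)) Pf.nil)))) (Pf.C 1 392)) (Pf.C 1 520)) (Pf.C 1 648)) (Pf.C 1 776)) (Pf.C 1 904)) Pf.nil)))) (Pf.C 4 0x200105)) (Pf.cons (Pf.B 6 2 (Pf.W 9 2 [] [0,3,4,5,6,7] (Pf.cons (Pf.W 9 2 [5] [3,4,6,7] (Pf.cons (Pf.W 9 2 [5,7] [3,4,6] (Pf.cons (Pf.B 8 7 (Pf.B 8 6 (Pf.B 8 5 (Pf.B 8 4 (Pf.B 8 3 (Pf.C 0 0x182030e14402) (Pf.C 1 392)) (Pf.C 1 520)) (Pf.C 1 648)) (Pf.C 1 776)) (Pf.C 1 904)) Pf.nil)) (Pf.cons (Pf.B 8 7 (Pf.B 8 6 (Pf.B 8 5 (Pf.B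 8 4 (Pf.B 8 3 (Pf.B 7 2 (Pf.W 9 2 [5,8] [4,6,7] (Pf.cons (Pf.B 9 8 (Pf.B 9 7 (Pf.B 9 6 (Pf.B 9 5 (Pf.B 9 4 (Pf.C 0 0x1c3041014482) (Pf.C 1 521)) (Pf.C 1 649)) (Pf.C 1 777)) (Pf.C 1 905)) (Pf.C 1 1033)) Pf.nil)) (Pf.C 0 0x182031014382)) (Pf.C 1 392)) (Pf.C 1 520)) (Pf.C 1 648)) (Pf.C 1 776)) (Pf.C 1 904)) Pf.nil))) (Pf.cons (Pf.W 9 2 [7] [3,4,5,6] (Pf.cons (Pf.W 9 2 [5,7] [3,4,6] (Pf.cons (Pf.B 8 7 (Pf.B 8 6 (Pf.B 8 5 (Pf.B 8 4 (Pf.B 8 3 (Pf.C 0 0x182030e14402) (Pf.C 1 392)) (Pf.C 1 520)) (Pf.C 1 648)) (Pf.C 1 776)) (Pf.C 1 904)) Pf.nil)) (Pf.cons (Pf.B 8 7 (Pf.B 8 6 (Pf.B 8 5 (Pf.B 8 4 (Pf.B 8 3 (Pf.B 5 2 (Pf.W 9 2 [7,8] [4,5,6] (Pf.cons (Pf.B 9 8 (Pf.B 9 7 (Pf.B 9 6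 (Pf.B 9 5 (Pf.B 9 4 (Pf.C 0 0x18284101c482) (Pf.C 1 521)) (Pf.C 1 649)) (Pf.C 1 777)) (Pf.C 1 905)) (Pf.C 1 1033)) Pf.nil)) (Pf.C 0 0x18203101c282)) (Pf.C 1 392)) (Pf.C 1 520)) (Pf.C 1 648)) (Pf.C 1 776)) (Pf.C 1 904)) Pf.nil))) (Pf.cons (Pf.B 8 7 (Pf.B 8 6 (Pf.B 8 5 (Pf.B 8 4 (Pf.B 8 3 (Pf.W 9 2 [8] [0,3,4,5,6,7] (Pf.cons (Pf.B 7 2 (Pf.W 9 2 [5,8] [4,6,7] (Pf.cons (Pf.B 9 8 (Pf.B 9 7 (Pf.B 9 6 (Pf.B 9 5 (Pf.B 9 4 (Pf.C 0 0x1c3041014482) (Pf.C 1 521)) (Pf.C 1 649)) (Pf.C 1 777)) (Pf.C 1 905)) (Pf.C 1 1033)) Pf.nil)) (Pf.C 0 0x182031014382)) (Pf.cons (Pf.B 5 2 (Pf.W 9 2 [7,8] [4,5,6] (Pf.cons (Pf.B 9 8 (Pf.B 9 7 (Pf.B 9 6 (Pf.B 9 5 (Pf.B 9 4 (Pf.C 0 0x18284101c482) (Pf.C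 1 521)) (Pf.C 1 649)) (Pf.C 1 777)) (Pf.C 1 905)) (Pf.C 1 1033)) Pf.nil)) (Pf.C 0 0x18203101c282)) (Pf.cons (Pf.B 9 8 (Pf.B 9 7 (Pf.B 9 6 (Pf.B 9 5 (Pf.B 9 4 (Pf.B 9 3 (Pf.B 7 2 (Pf.B 5 2 (Pf.C 0 0x101820e18280) (Pf.C 0 0x182031220282)) (Pf.C 0 0x182031220382)) (Pf.C 1 393)) (Pf.C 1 521)) (Pf.C 1 649)) (Pf.C 1 777)) (Pf.C 1 905)) (Pf.C 1 1033)) Pf.nil)))) (Pf.C 1 392)) (Pf.C 1 520)) (Pf.C 1 648)) (Pf.C 1 776)) (Pf.C 1 904)) Pf.nil)))) (Pf.C 4 0x200106)) (Pf.cons (Pf.B 7 2 (Pf.W 9 2 [] [0,3,4,5,6,7] (Pf.cons (Pf.W 9 2 [5] [3,4,6,7] (Pf.cons (Pf.W 9 2 [5,6] [3,4,7] (Pf.cons (Pf.B 8 7 (Pf.B 8 6 (Pf.B 8 5 (Pf.B 8 4 (Pf.B 8 3 (Pf.C 0 0x1c2030c14402) (Pf.C 1 392)) (Pf.C 1 520))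 (Pf.C 1 648)) (Pf.C 1 776)) (Pf.C 1 904)) Pf.nil)) (Pf.cons (Pf.B 8 7 (Pf.B 8 6 (Pf.B 8 5 (Pf.B 8 4 (Pf.B 8 3 (Pf.B 6 2 (Pf.W 9 2 [5,8] [4,6,7] (Pf.cons (Pf.B 9 8 (Pf.B 9 7 (Pf.B 9 6 (Pf.B 9 5 (Pf.B 9 4 (Pf.C 0 0x1c3041014482) (Pf.C 1 521)) (Pf.C 1 649)) (Pf.C 1 777)) (Pf.C 1 905)) (Pf.C 1 1033)) Pf.nil)) (Pf.C 0 0x1c2031014302)) (Pf.C 1 392)) (Pf.C 1 520)) (Pf.C 1 648)) (Pf.C 1 776)) (Pf.C 1 904)) Pf.nil))) (Pf.cons (Pf.W 9 2 [6] [3,4,5,7] (Pf.cons (Pf.W 9 2 [5,6] [3,4,7] (Pf.cons (Pf.B 8 7 (Pf.B 8 6 (Pf.B 8 5 (Pf.B 8 4 (Pf.B 8 3 (Pf.C 0 0x1c2030c14402) (Pf.C 1 392)) (Pf.C 1 520)) (Pf.C 1 648)) (Pf.C 1 776)) (Pf.C 1 904)) Pf.nil)) (Pf.cons (Pf.B 8 7 (Pf.B 8 6 (Pf.B 8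 5 (Pf.B 8 4 (Pf.B 8 3 (Pf.B 5 2 (Pf.W 9 2 [6,8] [4,5,7] (Pf.cons (Pf.B 9 8 (Pf.B 9 7 (Pf.B 9 6 (Pf.B 9 5 (Pf.B 9 4 (Pf.C 0 0x1c2841018482) (Pf.C 1 521)) (Pf.C 1 649)) (Pf.C 1 777)) (Pf.C 1 905)) (Pf.C 1 1033)) Pf.nil)) (Pf.C 0 0x1c2031018282)) (Pf.C 1 392)) (Pf.C 1 520)) (Pf.C 1 648)) (Pf.C 1 776)) (Pf.C 1 904)) Pf.nil))) (Pf.cons (Pf.B 8 7 (Pf.B 8 6 (Pf.B 8 5 (Pf.B 8 4 (Pf.B 8 3 (Pf.W 9 2 [8] [0,3,4,5,6,7] (Pf.cons (Pf.B 6 2 (Pf.W 9 2 [5,8] [4,6,7] (Pf.cons (Pf.B 9 8 (Pf.B 9 7 (Pf.B 9 6 (Pf.B 9 5 (Pf.B 9 4 (Pf.C 0 0x1c3041014482) (Pf.C 1 521)) (Pf.C 1 649)) (Pf.C 1 777)) (Pf.C 1 905)) (Pf.C 1 1033)) Pf.nil)) (Pf.C 0 0x1c2031014302)) (Pf.cons (Pf.B 5 2 (Pf.W 9 2 [6,8]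 [4,5,7] (Pf.cons (Pf.B 9 8 (Pf.B 9 7 (Pf.B 9 6 (Pf.B 9 5 (Pf.B 9 4 (Pf.C 0 0x1c2841018482) (Pf.C 1 521)) (Pf.C 1 649)) (Pf.C 1 777)) (Pf.C 1 905)) (Pf.C 1 1033)) Pf.nil)) (Pf.C 0 0x1c2031018282)) (Pf.cons (Pf.B 9 8 (Pf.B 9 7 (Pf.B 9 6 (Pf.B 9 5 (Pf.B 9 4 (Pf.B 9 3 (Pf.B 6 2 (Pf.B 5 2 (Pf.C 0 0x101820e18280) (Pf.C 0 0x182031220282)) (Pf.C 0 0x1c2031220302)) (Pf.C 1 393)) (Pf.C 1 521)) (Pf.C 1 649)) (Pf.C 1 777)) (Pf.C 1 905)) (Pf.C 1 1033)) Pf.nil)))) (Pf.C 1 392)) (Pf.C 1 520)) (Pf.C 1 648)) (Pf.C 1 776)) (Pf.C 1 904)) Pf.nil)))) (Pf.C 4 0x200107)) (Pf.cons (Pf.B 8 7 (Pf.B 8 6 (Pf.B 8 5 (Pf.B 8 4 (Pf.B 8 3 (Pf.B 8 0 (Pf.C 0 0x101880e18280) (Pf.B 8 2 (Pf.W 9 2 [] [0,3,4,5,6,7,8]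 (Pf.cons (Pf.W 9 2 [5] [0,3,4,6,7,8] (Pf.cons (Pf.B 7 2 (Pf.W 9 2 [5,6] [4,7,8] (Pf.cons (Pf.B 9 8 (Pf.B 9 7 (Pf.B 9 6 (Pf.B 9 5 (Pf.B 9 4 (Pf.C 0 0x203840c14482) (Pf.C 1 521)) (Pf.C 1 649)) (Pf.C 1 777)) (Pf.C 1 905)) (Pf.C 1 1033)) Pf.nil)) (Pf.C 0 0x202030c14382)) (Pf.cons (Pf.B 6 2 (Pf.W 9 2 [5,7] [4,6,8] (Pf.cons (Pf.B 9 8 (Pf.B 9 7 (Pf.B 9 6 (Pf.B 9 5 (Pf.B 9 4 (Pf.C 0 0x203040e14482) (Pf.C 1 521)) (Pf.C 1 649)) (Pf.C 1 777)) (Pf.C 1 905)) (Pf.C 1 1033)) Pf.nil)) (Pf.C 0 0x202030e14302)) (Pf.cons (Pf.B 9 8 (Pf.B 9 7 (Pf.B 9 6 (Pf.B 9 5 (Pf.B 9 4 (Pf.B 9 3 (Pf.B 7 2 (Pf.B 6 2 (Pf.C 0 0x10182101c300) (Pf.C 0 0x1c2031214302)) (Pf.C 0 0x202031214382)) (Pf.C 1 393))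 (Pf.C 1 521)) (Pf.C 1 649)) (Pf.C 1 777)) (Pf.C 1 905)) (Pf.C 1 1033)) Pf.nil)))) (Pf.cons (Pf.W 9 2 [6] [0,3,4,5,7,8] (Pf.cons (Pf.B 7 2 (Pf.W 9 2 [5,6] [4,7,8] (Pf.cons (Pf.B 9 8 (Pf.B 9 7 (Pf.B 9 6 (Pf.B 9 5 (Pf.B 9 4 (Pf.C 0 0x203840c14482) (Pf.C 1 521)) (Pf.C 1 649)) (Pf.C 1 777)) (Pf.C 1 905)) (Pf.C 1 1033)) Pf.nil)) (Pf.C 0 0x202030c14382)) (Pf.cons (Pf.B 5 2 (Pf.W 9 2 [6,7] [4,5,8] (Pf.cons (Pf.B 9 8 (Pf.B 9 7 (Pf.B 9 6 (Pf.B 9 5 (Pf.B 9 4 (Pf.C 0 0x202840e18482) (Pf.C 1 521)) (Pf.C 1 649)) (Pf.C 1 777)) (Pf.C 1 905)) (Pf.C 1 1033)) Pf.nil)) (Pf.C 0 0x202030e18282)) (Pf.cons (Pf.B 9 8 (Pf.B 9 7 (Pf.B 9 6 (Pf.B 9 5 (Pf.B 9 4 (Pf.B 9 3 (Pf.B 7 2 (Pf.B 5 2 (Pf.C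 0 0x10182101c280) (Pf.C 0 0x1c2031218282)) (Pf.C 0 0x202031218382)) (Pf.C 1 393)) (Pf.C 1 521)) (Pf.C 1 649)) (Pf.C 1 777)) (Pf.C 1 905)) (Pf.C 1 1033)) Pf.nil)))) (Pf.cons (Pf.W 9 2 [7] [0,3,4,5,6,8] (Pf.cons (Pf.B 6 2 (Pf.W 9 2 [5,7] [4,6,8] (Pf.cons (Pf.B 9 8 (Pf.B 9 7 (Pf.B 9 6 (Pf.B 9 5 (Pf.B 9 4 (Pf.C 0 0x203040e14482) (Pf.C 1 521)) (Pf.C 1 649)) (Pf.C 1 777)) (Pf.C 1 905)) (Pf.C 1 1033)) Pf.nil)) (Pf.C 0 0x202030e14302)) (Pf.cons (Pf.B 5 2 (Pf.W 9 2 [6,7] [4,5,8] (Pf.cons (Pf.B 9 8 (Pf.B 9 7 (Pf.B 9 6 (Pf.B 9 5 (Pf.B 9 4 (Pf.C 0 0x202840e18482) (Pf.C 1 521)) (Pf.C 1 649)) (Pf.C 1 777)) (Pf.C 1 905)) (Pf.C 1 1033)) Pf.nil)) (Pf.C 0 0x202030e18282)) (Pf.cons (Pf.B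 9 8 (Pf.B 9 7 (Pf.B 9 6 (Pf.B 9 5 (Pf.B 9 4 (Pf.B 9 3 (Pf.B 6 2 (Pf.B 5 2 (Pf.C 0 0x101821018280) (Pf.C 0 0x18203121c282)) (Pf.C 0 0x20203121c302)) (Pf.C 1 393)) (Pf.C 1 521)) (Pf.C 1 649)) (Pf.C 1 777)) (Pf.C 1 905)) (Pf.C 1 1033)) Pf.nil)))) (Pf.cons (Pf.B 9 8 (Pf.B 9 7 (Pf.B 9 6 (Pf.B 9 5 (Pf.B 9 4 (Pf.B 9 3 (Pf.W 9 2 [9] [0,3,4,6,5,7,8] (Pf.cons (Pf.B 7 2 (Pf.B 5 2 (Pf.C 0 0x10182101c280) (Pf.C 0 0x1c2031218282)) (Pf.C 0 0x202031218382)) (Pf.cons (Pf.B 7 2 (Pf.B 6 2 (Pf.C 0 0x10182101c300) (Pf.C 0 0x1c2031214302)) (Pf.C 0 0x202031214382)) (Pf.cons (Pf.B 6 2 (Pf.B 5 2 (Pf.C 0 0x101821018280) (Pf.C 0 0x18203121c282)) (Pf.C 0 0x20203121c302)) (Pf.cons (Pf.B 10 9 (Pf.B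 10 8 (Pf.B 10 7 (Pf.B 10 6 (Pf.B 10 4 (Pf.B 10 3 (Pf.B 7 2 (Pf.B 6 2 (Pf.C 0 0x10182101c300) (Pf.C 0 0x1c2031424302)) (Pf.C 0 0x202031424382)) (Pf.C 1 394)) (Pf.C 1 522)) (Pf.C 1 778)) (Pf.C 1 906)) (Pf.C 1 1034)) (Pf.C 1 1162)) Pf.nil))))) (Pf.C 1 393)) (Pf.C 1 521)) (Pf.C 1 649)) (Pf.C 1 777)) (Pf.C 1 905)) (Pf.C 1 1033)) Pf.nil))))) (Pf.C 4 0x200108))) (Pf.C 1 392)) (Pf.C 1 520)) (Pf.C 1 648)) (Pf.C 1 776)) (Pf.C 1 904)) Pf.nil))))) (Pf.C 1 391)) (Pf.C 1 519)) (Pf.C 1 647)) (Pf.C 1 775)) Pf.nil)) (Pf.C 1 390)) (Pf.C 1 518)) (Pf.C 1 646)) Pf.nil)) (Pf.C 1 389)) (Pf.C 1 517)) Pf.nil)))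
 (Pq.cons (Pq.L [] 1 (Pf.C 1 515))
 (Pq.cons (Pq.L [1,2] 0 (Pf.B 4 3 (Pf.W 11 515 [] [1,2] (Pf.cons (Pf.C 4 0x404283) (Pf.cons (Pf.C 4 0x404284) (Pf.cons (Pf.C 4 0x404283) (Pf.cons (Pf.C 4 0x404284) Pf.nil))))) (Pf.C 1 388)))
 Pq.nil)))))))
theorem bK_o9 : AllRef bK_T bK_G14 (List.take 7 (hitObl [12,14,15,16,17,18,19,20,21] bK_h18)) :=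
  chkPq_sound bK_o9c _ (by decide +kernel)
noncomputable def bK_o10c : Pq := (Pq.cons (Pq.L [0,1,2] 1 (Pf.W 9 0 [3,4] [1,2] (Pf.cons (Pf.B 5 4 (Pf.B 5 3 (Pf.W 9 1 [] [0,2,3,4,5] (Pf.cons (Pf.B 5 2 (Pf.W 9 1 [5] [2,3,4] (Pf.cons (Pf.B 6 5 (Pf.B 6 4 (Pf.B 6 3 (Pf.W 9 1 [5,6] [2,3,4] (Pf.cons (Pf.B 7 6 (Pf.B 7 5 (Pf.B 7 4 (Pf.B 7 3 (Pf.W 9 2 [] [1,3,4,5,6,7] (Pf.cons (Pf.W 9 2 [6] [3,4,5,7] (Pf.cons (Pf.W 9 2 [6,7] [3,4,5] (Pf.cons (Pf.B 8 7 (Pf.B 8 6 (Pf.B 8 5 (Pf.B 8 4 (Pf.B 8 3 (Pf.C 0 0x142030e18402) (Pf.C 1 392)) (Pf.C 1 520)) (Pf.C 1 648)) (Pf.C 1 776)) (Pf.C 1 904)) Pf.nil)) (Pf.cons (Pf.B 8 7 (Pf.B 8 6 (Pf.B 8 5 (Pf.B 8 4 (Pf.B 8 3 (Pf.B 7 2 (Pf.W 9 2 [6,8] [4,5,7]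 (Pf.cons (Pf.B 9 8 (Pf.B 9 7 (Pf.B 9 6 (Pf.B 9 5 (Pf.B 9 4 (Pf.C 0 0x1c2841018482) (Pf.C 1 521)) (Pf.C 1 649)) (Pf.C 1 777)) (Pf.C 1 905)) (Pf.C 1 1033)) Pf.nil)) (Pf.C 0 0x142031018382)) (Pf.C 1 392)) (Pf.C 1 520)) (Pf.C 1 648)) (Pf.C 1 776)) (Pf.C 1 904)) Pf.nil))) (Pf.cons (Pf.W 9 2 [7] [3,4,5,6] (Pf.cons (Pf.W 9 2 [6,7] [3,4,5] (Pf.cons (Pf.B 8 7 (Pf.B 8 6 (Pf.B 8 5 (Pf.B 8 4 (Pf.B 8 3 (Pf.C 0 0x142030e18402) (Pf.C 1 392)) (Pf.C 1 520)) (Pf.C 1 648)) (Pf.C 1 776)) (Pf.C 1 904)) Pf.nil)) (Pf.cons (Pf.B 8 7 (Pf.B 8 6 (Pf.B 8 5 (Pf.B 8 4 (Pf.B 8 3 (Pf.B 6 2 (Pf.W 9 2 [7,8] [4,5,6] (Pf.cons (Pf.B 9 8 (Pf.B 9 7 (Pf.B 9 6 (Pf.B 9 5 (Pf.B 9 4 (Pf.C 0 0x18284101c482) (Pf.C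 1 521)) (Pf.C 1 649)) (Pf.C 1 777)) (Pf.C 1 905)) (Pf.C 1 1033)) Pf.nil)) (Pf.C 0 0x14203101c302)) (Pf.C 1 392)) (Pf.C 1 520)) (Pf.C 1 648)) (Pf.C 1 776)) (Pf.C 1 904)) Pf.nil))) (Pf.cons (Pf.B 8 7 (Pf.B 8 6 (Pf.B 8 5 (Pf.B 8 4 (Pf.B 8 3 (Pf.W 9 2 [8] [1,3,4,5,6,7] (Pf.cons (Pf.B 7 2 (Pf.W 9 2 [6,8] [4,5,7] (Pf.cons (Pf.B 9 8 (Pf.B 9 7 (Pf.B 9 6 (Pf.B 9 5 (Pf.B 9 4 (Pf.C 0 0x1c2841018482) (Pf.C 1 521)) (Pf.C 1 649)) (Pf.C 1 777)) (Pf.C 1 905)) (Pf.C 1 1033)) Pf.nil)) (Pf.C 0 0x142031018382)) (Pf.cons (Pf.B 6 2 (Pf.W 9 2 [7,8] [4,5,6] (Pf.cons (Pf.B 9 8 (Pf.B 9 7 (Pf.B 9 6 (Pf.B 9 5 (Pf.B 9 4 (Pf.C 0 0x18284101c482) (Pf.C 1 521)) (Pf.C 1 649)) (Pf.C 1 777)) (Pf.C 1 905))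 (Pf.C 1 1033)) Pf.nil)) (Pf.C 0 0x14203101c302)) (Pf.cons (Pf.B 9 8 (Pf.B 9 7 (Pf.B 9 6 (Pf.B 9 5 (Pf.B 9 4 (Pf.B 9 3 (Pf.B 7 2 (Pf.B 6 2 (Pf.C 0 0x101820e14301) (Pf.C 0 0x142031220302)) (Pf.C 0 0x142031220382)) (Pf.C 1 393)) (Pf.C 1 521)) (Pf.C 1 649)) (Pf.C 1 777)) (Pf.C 1 905)) (Pf.C 1 1033)) Pf.nil)))) (Pf.C 1 392)) (Pf.C 1 520)) (Pf.C 1 648)) (Pf.C 1 776)) (Pf.C 1 904)) Pf.nil)))) (Pf.C 1 391)) (Pf.C 1 519)) (Pf.C 1 647)) (Pf.C 1 775)) Pf.nil)) (Pf.C 1 390)) (Pf.C 1 518)) (Pf.C 1 646)) Pf.nil)) (Pf.C 4 0x200105)) (Pf.cons (Pf.B 6 5 (Pf.B 6 4 (Pf.B 6 3 (Pf.W 9 1 [6] [0,2,3,4,5] (Pf.cons (Pf.B 5 2 (Pf.W 9 1 [5,6] [2,3,4] (Pf.cons (Pf.B 7 6 (Pf.B 7 5 (Pf.B 7 4 (Pf.B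 7 3 (Pf.W 9 2 [] [1,3,4,5,6,7] (Pf.cons (Pf.W 9 2 [6] [3,4,5,7] (Pf.cons (Pf.W 9 2 [6,7] [3,4,5] (Pf.cons (Pf.B 8 7 (Pf.B 8 6 (Pf.B 8 5 (Pf.B 8 4 (Pf.B 8 3 (Pf.C 0 0x142030e18402) (Pf.C 1 392)) (Pf.C 1 520)) (Pf.C 1 648)) (Pf.C 1 776)) (Pf.C 1 904)) Pf.nil)) (Pf.cons (Pf.B 8 7 (Pf.B 8 6 (Pf.B 8 5 (Pf.B 8 4 (Pf.B 8 3 (Pf.B 7 2 (Pf.W 9 2 [6,8] [4,5,7] (Pf.cons (Pf.B 9 8 (Pf.B 9 7 (Pf.B 9 6 (Pf.B 9 5 (Pf.B 9 4 (Pf.C 0 0x1c2841018482) (Pf.C 1 521)) (Pf.C 1 649)) (Pf.C 1 777)) (Pf.C 1 905)) (Pf.C 1 1033)) Pf.nil)) (Pf.C 0 0x142031018382)) (Pf.C 1 392)) (Pf.C 1 520)) (Pf.C 1 648)) (Pf.C 1 776)) (Pf.C 1 904)) Pf.nil))) (Pf.cons (Pf.W 9 2 [7] [3,4,5,6] (Pf.cons (Pf.W 9 2 [6,7]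 [3,4,5] (Pf.cons (Pf.B 8 7 (Pf.B 8 6 (Pf.B 8 5 (Pf.B 8 4 (Pf.B 8 3 (Pf.C 0 0x142030e18402) (Pf.C 1 392)) (Pf.C 1 520)) (Pf.C 1 648)) (Pf.C 1 776)) (Pf.C 1 904)) Pf.nil)) (Pf.cons (Pf.B 8 7 (Pf.B 8 6 (Pf.B 8 5 (Pf.B 8 4 (Pf.B 8 3 (Pf.B 6 2 (Pf.W 9 2 [7,8] [4,5,6] (Pf.cons (Pf.B 9 8 (Pf.B 9 7 (Pf.B 9 6 (Pf.B 9 5 (Pf.B 9 4 (Pf.C 0 0x18284101c482) (Pf.C 1 521)) (Pf.C 1 649)) (Pf.C 1 777)) (Pf.C 1 905)) (Pf.C 1 1033)) Pf.nil)) (Pf.C 0 0x14203101c302)) (Pf.C 1 392)) (Pf.C 1 520)) (Pf.C 1 648)) (Pf.C 1 776)) (Pf.C 1 904)) Pf.nil))) (Pf.cons (Pf.B 8 7 (Pf.B 8 6 (Pf.B 8 5 (Pf.B 8 4 (Pf.B 8 3 (Pf.W 9 2 [8] [1,3,4,5,6,7] (Pf.cons (Pf.B 7 2 (Pf.W 9 2 [6,8] [4,5,7] (Pf.cons (Pf.B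 9 8 (Pf.B 9 7 (Pf.B 9 6 (Pf.B 9 5 (Pf.B 9 4 (Pf.C 0 0x1c2841018482) (Pf.C 1 521)) (Pf.C 1 649)) (Pf.C 1 777)) (Pf.C 1 905)) (Pf.C 1 1033)) Pf.nil)) (Pf.C 0 0x142031018382)) (Pf.cons (Pf.B 6 2 (Pf.W 9 2 [7,8] [4,5,6] (Pf.cons (Pf.B 9 8 (Pf.B 9 7 (Pf.B 9 6 (Pf.B 9 5 (Pf.B 9 4 (Pf.C 0 0x18284101c482) (Pf.C 1 521)) (Pf.C 1 649)) (Pf.C 1 777)) (Pf.C 1 905)) (Pf.C 1 1033)) Pf.nil)) (Pf.C 0 0x14203101c302)) (Pf.cons (Pf.B 9 8 (Pf.B 9 7 (Pf.B 9 6 (Pf.B 9 5 (Pf.B 9 4 (Pf.B 9 3 (Pf.B 7 2 (Pf.B 6 2 (Pf.C 0 0x101820e14301) (Pf.C 0 0x142031220302)) (Pf.C 0 0x142031220382)) (Pf.C 1 393)) (Pf.C 1 521)) (Pf.C 1 649)) (Pf.C 1 777)) (Pf.C 1 905)) (Pf.C 1 1033)) Pf.nil)))) (Pf.C 1 392))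 (Pf.C 1 520)) (Pf.C 1 648)) (Pf.C 1 776)) (Pf.C 1 904)) Pf.nil)))) (Pf.C 1 391)) (Pf.C 1 519)) (Pf.C 1 647)) (Pf.C 1 775)) Pf.nil)) (Pf.C 4 0x200105)) (Pf.cons (Pf.B 7 6 (Pf.B 7 5 (Pf.B 7 4 (Pf.B 7 3 (Pf.W 9 1 [6,7] [0,2,3,4,5] (Pf.cons (Pf.B 5 2 (Pf.W 9 2 [] [1,3,4,5,6,7] (Pf.cons (Pf.W 9 2 [6] [3,4,5,7] (Pf.cons (Pf.W 9 2 [6,7] [3,4,5] (Pf.cons (Pf.B 8 7 (Pf.B 8 6 (Pf.B 8 5 (Pf.B 8 4 (Pf.B 8 3 (Pf.C 0 0x142030e18402) (Pf.C 1 392)) (Pf.C 1 520)) (Pf.C 1 648)) (Pf.C 1 776)) (Pf.C 1 904)) Pf.nil)) (Pf.cons (Pf.B 8 7 (Pf.B 8 6 (Pf.B 8 5 (Pf.B 8 4 (Pf.B 8 3 (Pf.B 7 2 (Pf.W 9 2 [6,8] [4,5,7] (Pf.cons (Pf.B 9 8 (Pf.B 9 7 (Pf.B 9 6 (Pf.B 9 5 (Pf.B 9 4 (Pf.C 0 0x1c2841018482)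 (Pf.C 1 521)) (Pf.C 1 649)) (Pf.C 1 777)) (Pf.C 1 905)) (Pf.C 1 1033)) Pf.nil)) (Pf.C 0 0x142031018382)) (Pf.C 1 392)) (Pf.C 1 520)) (Pf.C 1 648)) (Pf.C 1 776)) (Pf.C 1 904)) Pf.nil))) (Pf.cons (Pf.W 9 2 [7] [3,4,5,6] (Pf.cons (Pf.W 9 2 [6,7] [3,4,5] (Pf.cons (Pf.B 8 7 (Pf.B 8 6 (Pf.B 8 5 (Pf.B 8 4 (Pf.B 8 3 (Pf.C 0 0x142030e18402) (Pf.C 1 392)) (Pf.C 1 520)) (Pf.C 1 648)) (Pf.C 1 776)) (Pf.C 1 904)) Pf.nil)) (Pf.cons (Pf.B 8 7 (Pf.B 8 6 (Pf.B 8 5 (Pf.B 8 4 (Pf.B 8 3 (Pf.B 6 2 (Pf.W 9 2 [7,8] [4,5,6] (Pf.cons (Pf.B 9 8 (Pf.B 9 7 (Pf.B 9 6 (Pf.B 9 5 (Pf.B 9 4 (Pf.C 0 0x18284101c482) (Pf.C 1 521)) (Pf.C 1 649)) (Pf.C 1 777)) (Pf.C 1 905)) (Pf.C 1 1033)) Pf.nil)) (Pf.C 0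 0x14203101c302)) (Pf.C 1 392)) (Pf.C 1 520)) (Pf.C 1 648)) (Pf.C 1 776)) (Pf.C 1 904)) Pf.nil))) (Pf.cons (Pf.B 8 7 (Pf.B 8 6 (Pf.B 8 5 (Pf.B 8 4 (Pf.B 8 3 (Pf.W 9 2 [8] [1,3,4,5,6,7] (Pf.cons (Pf.B 7 2 (Pf.W 9 2 [6,8] [4,5,7] (Pf.cons (Pf.B 9 8 (Pf.B 9 7 (Pf.B 9 6 (Pf.B 9 5 (Pf.B 9 4 (Pf.C 0 0x1c2841018482) (Pf.C 1 521)) (Pf.C 1 649)) (Pf.C 1 777)) (Pf.C 1 905)) (Pf.C 1 1033)) Pf.nil)) (Pf.C 0 0x142031018382)) (Pf.cons (Pf.B 6 2 (Pf.W 9 2 [7,8] [4,5,6] (Pf.cons (Pf.B 9 8 (Pf.B 9 7 (Pf.B 9 6 (Pf.B 9 5 (Pf.B 9 4 (Pf.C 0 0x18284101c482) (Pf.C 1 521)) (Pf.C 1 649)) (Pf.C 1 777)) (Pf.C 1 905)) (Pf.C 1 1033)) Pf.nil)) (Pf.C 0 0x14203101c302)) (Pf.cons (Pf.B 9 8 (Pf.B 9 7 (Pf.B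 9 6 (Pf.B 9 5 (Pf.B 9 4 (Pf.B 9 3 (Pf.B 7 2 (Pf.B 6 2 (Pf.C 0 0x101820e14301) (Pf.C 0 0x142031220302)) (Pf.C 0 0x142031220382)) (Pf.C 1 393)) (Pf.C 1 521)) (Pf.C 1 649)) (Pf.C 1 777)) (Pf.C 1 905)) (Pf.C 1 1033)) Pf.nil)))) (Pf.C 1 392)) (Pf.C 1 520)) (Pf.C 1 648)) (Pf.C 1 776)) (Pf.C 1 904)) Pf.nil)))) (Pf.C 4 0x200105)) (Pf.cons (Pf.B 8 7 (Pf.B 8 6 (Pf.B 8 5 (Pf.B 8 4 (Pf.B 8 3 (Pf.B 5 1 (Pf.C 0 0x10185101c301) (Pf.B 5 2 (Pf.W 9 2 [] [1,3,4,5,6,7,8] (Pf.cons (Pf.W 9 2 [6] [1,3,4,5,7,8] (Pf.cons (Pf.B 8 2 (Pf.W 9 2 [6,7] [4,5,8] (Pf.cons (Pf.B 9 8 (Pf.B 9 7 (Pf.B 9 6 (Pf.B 9 5 (Pf.B 9 4 (Pf.C 0 0x202840e18482) (Pf.C 1 521)) (Pf.C 1 649)) (Pf.C 1 777)) (Pf.C 1 905)) (Pf.C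 1 1033)) Pf.nil)) (Pf.C 0 0x142030e18402)) (Pf.cons (Pf.B 7 2 (Pf.W 9 2 [6,8] [4,5,7] (Pf.cons (Pf.B 9 8 (Pf.B 9 7 (Pf.B 9 6 (Pf.B 9 5 (Pf.B 9 4 (Pf.C 0 0x1c2841018482) (Pf.C 1 521)) (Pf.C 1 649)) (Pf.C 1 777)) (Pf.C 1 905)) (Pf.C 1 1033)) Pf.nil)) (Pf.C 0 0x142031018382)) (Pf.cons (Pf.B 9 8 (Pf.B 9 7 (Pf.B 9 6 (Pf.B 9 5 (Pf.B 9 4 (Pf.B 9 3 (Pf.B 8 2 (Pf.B 7 2 (Pf.C 0 0x101821014381) (Pf.C 0 0x142031218382)) (Pf.C 0 0x142031218402)) (Pf.C 1 393)) (Pf.C 1 521)) (Pf.C 1 649)) (Pf.C 1 777)) (Pf.C 1 905)) (Pf.C 1 1033)) Pf.nil)))) (Pf.cons (Pf.W 9 2 [7] [1,3,4,5,6,8] (Pf.cons (Pf.B 8 2 (Pf.W 9 2 [6,7] [4,5,8] (Pf.cons (Pf.B 9 8 (Pf.B 9 7 (Pf.B 9 6 (Pf.B 9 5 (Pf.B 9 4 (Pf.C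 0 0x202840e18482) (Pf.C 1 521)) (Pf.C 1 649)) (Pf.C 1 777)) (Pf.C 1 905)) (Pf.C 1 1033)) Pf.nil)) (Pf.C 0 0x142030e18402)) (Pf.cons (Pf.B 6 2 (Pf.W 9 2 [7,8] [4,5,6] (Pf.cons (Pf.B 9 8 (Pf.B 9 7 (Pf.B 9 6 (Pf.B 9 5 (Pf.B 9 4 (Pf.C 0 0x18284101c482) (Pf.C 1 521)) (Pf.C 1 649)) (Pf.C 1 777)) (Pf.C 1 905)) (Pf.C 1 1033)) Pf.nil)) (Pf.C 0 0x14203101c302)) (Pf.cons (Pf.B 9 8 (Pf.B 9 7 (Pf.B 9 6 (Pf.B 9 5 (Pf.B 9 4 (Pf.B 9 3 (Pf.B 8 2 (Pf.B 6 2 (Pf.C 0 0x101821014301) (Pf.C 0 0x14203121c302)) (Pf.C 0 0x14203121c402)) (Pf.C 1 393)) (Pf.C 1 521)) (Pf.C 1 649)) (Pf.C 1 777)) (Pf.C 1 905)) (Pf.C 1 1033)) Pf.nil)))) (Pf.cons (Pf.W 9 2 [8] [1,3,4,5,6,7] (Pf.cons (Pf.B 7 2 (Pf.W 9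 2 [6,8] [4,5,7] (Pf.cons (Pf.B 9 8 (Pf.B 9 7 (Pf.B 9 6 (Pf.B 9 5 (Pf.B 9 4 (Pf.C 0 0x1c2841018482) (Pf.C 1 521)) (Pf.C 1 649)) (Pf.C 1 777)) (Pf.C 1 905)) (Pf.C 1 1033)) Pf.nil)) (Pf.C 0 0x142031018382)) (Pf.cons (Pf.B 6 2 (Pf.W 9 2 [7,8] [4,5,6] (Pf.cons (Pf.B 9 8 (Pf.B 9 7 (Pf.B 9 6 (Pf.B 9 5 (Pf.B 9 4 (Pf.C 0 0x18284101c482) (Pf.C 1 521)) (Pf.C 1 649)) (Pf.C 1 777)) (Pf.C 1 905)) (Pf.C 1 1033)) Pf.nil)) (Pf.C 0 0x14203101c302)) (Pf.cons (Pf.B 9 8 (Pf.B 9 7 (Pf.B 9 6 (Pf.B 9 5 (Pf.B 9 4 (Pf.B 9 3 (Pf.B 7 2 (Pf.B 6 2 (Pf.C 0 0x101820e14301) (Pf.C 0 0x142031220302)) (Pf.C 0 0x142031220382)) (Pf.C 1 393)) (Pf.C 1 521)) (Pf.C 1 649)) (Pf.C 1 777)) (Pf.C 1 905)) (Pf.C 1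 1033)) Pf.nil)))) (Pf.cons (Pf.B 9 8 (Pf.B 9 7 (Pf.B 9 6 (Pf.B 9 5 (Pf.B 9 4 (Pf.B 9 3 (Pf.W 9 2 [9] [1,3,4,5,7,6,8] (Pf.cons (Pf.B 8 2 (Pf.B 6 2 (Pf.C 0 0x101821014301) (Pf.C 0 0x14203121c302)) (Pf.C 0 0x14203121c402)) (Pf.cons (Pf.B 8 2 (Pf.B 7 2 (Pf.C 0 0x101821014381) (Pf.C 0 0x142031218382)) (Pf.C 0 0x142031218402)) (Pf.cons (Pf.B 7 2 (Pf.B 6 2 (Pf.C 0 0x101820e14301) (Pf.C 0 0x142031220302)) (Pf.C 0 0x142031220382)) (Pf.cons (Pf.B 10 9 (Pf.B 10 8 (Pf.B 10 7 (Pf.B 10 5 (Pf.B 10 4 (Pf.B 10 3 (Pf.B 8 2 (Pf.B 7 2 (Pf.C 0 0x101821014381) (Pf.C 0 0x142031424382)) (Pf.C 0 0x142031424402)) (Pf.C 1 394)) (Pf.C 1 522)) (Pf.C 1 650)) (Pf.C 1 906)) (Pf.C 1 1034)) (Pf.C 1 1162))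 Pf.nil))))) (Pf.C 1 393)) (Pf.C 1 521)) (Pf.C 1 649)) (Pf.C 1 777)) (Pf.C 1 905)) (Pf.C 1 1033)) Pf.nil))))) (Pf.C 4 0x200105))) (Pf.C 1 392)) (Pf.C 1 520)) (Pf.C 1 648)) (Pf.C 1 776)) (Pf.C 1 904)) Pf.nil))) (Pf.C 1 391)) (Pf.C 1 519)) (Pf.C 1 647)) (Pf.C 1 775)) Pf.nil))) (Pf.C 1 390)) (Pf.C 1 518)) (Pf.C 1 646)) Pf.nil))) (Pf.C 1 389)) (Pf.C 1 517)) Pf.nil)))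
 (Pq.cons (Pq.L [] 1 (Pf.C 1 515))
 (Pq.cons (Pq.L [0,2] 0 (Pf.B 4 3 (Pf.W 11 515 [] [0,2] (Pf.cons (Pf.C 4 0x400283) (Pf.cons (Pf.C 4 0x400284) (Pf.cons (Pf.C 4 0x400283) (Pf.cons (Pf.C 4 0x400284) Pf.nil))))) (Pf.C 1 388)))
 (Pq.cons (Pq.L [0,1] 0 (Pf.B 4 3 (Pf.W 11 515 [] [0,1] (Pf.cons (Pf.C 4 0x200283) (Pf.cons (Pf.C 4 0x200284) (Pf.cons (Pf.C 4 0x200283) (Pf.cons (Pf.C 4 0x200284) Pf.nil))))) (Pf.C 1 388)))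
 (Pq.cons (Pq.L [0,1,2] 63 (Pf.B 6 2 (Pf.B 6 1 (Pf.B 6 0 (Pf.B 5 2 (Pf.B 5 1 (Pf.B 5 0 (Pf.B 4 2 (Pf.B 4 1 (Pf.B 4 0 (Pf.B 3 2 (Pf.B 3 1 (Pf.B 3 0 (Pf.W 9 1 [] [0,2,3,4,5,6] (Pf.cons (Pf.B 7 6 (Pf.B 7 5 (Pf.B 7 4 (Pf.B 7 3 (Pf.W 9 1 [7] [0,2,3,4,5,6] (Pf.cons (Pf.B 8 7 (Pf.B 8 6 (Pf.B 8 5 (Pf.B 8 4 (Pf.B 8 3 (Pf.W 9 1 [7,8] [3,4,5,6] (Pf.cons (Pf.B 9 8 (Pf.B 9 7 (Pf.B 9 6 (Pf.B 9 5 (Pf.B 9 4 (Pf.C 0 0x18284101c481) (Pf.B 9 3 (Pf.C 0 0x18283101c481) (Pf.C 4 0x804189))) (Pf.B 9 4 (Pf.B 9 3 (Pf.C 0 0x18203101c481) (Pf.C 4 0xa04189)) (Pf.C 4 0xa04209))) (Pf.B 9 5 (Pf.B 9 4 (Pf.B 9 3 (Pf.C 0 0x14203101c481) (Pf.C 4 0xc04189)) (Pf.C 4 0xc04209)) (Pf.C 4 0xc04289))) (Pf.C 1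 905)) (Pf.C 1 1033)) Pf.nil)) (Pf.B 8 2 (Pf.B 8 0 (Pf.W 9 1 [7,8] [0,2,4,5,6] (Pf.cons (Pf.B 9 8 (Pf.B 9 7 (Pf.B 9 6 (Pf.B 9 5 (Pf.B 9 4 (Pf.C 0 0x18284101c481) (Pf.B 9 2 (Pf.B 9 0 (Pf.B 7 2 (Pf.C 0 0x182821220381) (Pf.B 7 0 (Pf.C 0 0x182801220381) (Pf.C 4 0x404007))) (Pf.C 4 0x804009)) (Pf.C 4 0x804109))) (Pf.B 9 4 (Pf.B 9 2 (Pf.B 9 0 (Pf.B 7 2 (Pf.C 0 0x182021220381) (Pf.B 7 0 (Pf.C 0 0x182001220381) (Pf.C 4 0x404007))) (Pf.C 4 0xa04009)) (Pf.C 4 0xa04109)) (Pf.C 4 0xa04209))) (Pf.B 9 5 (Pf.B 9 4 (Pf.B 9 2 (Pf.B 9 0 (Pf.B 7 2 (Pf.C 0 0x142021220381) (Pf.B 7 0 (Pf.C 0 0x142001220381) (Pf.C 4 0x404007))) (Pf.C 4 0xc04009)) (Pf.C 4 0xc04109)) (Pf.C 4 0xc04209)) (Pf.C 4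 0xc04289))) (Pf.C 1 905)) (Pf.C 1 1033)) Pf.nil)) (Pf.C 4 0x604008)) (Pf.C 4 0x604108))) (Pf.B 8 3 (Pf.B 8 2 (Pf.B 8 0 (Pf.W 9 1 [7,8] [0,2,3,5,6] (Pf.cons (Pf.B 9 8 (Pf.B 9 7 (Pf.B 9 6 (Pf.B 9 5 (Pf.B 9 3 (Pf.C 0 0x18283101c481) (Pf.B 9 2 (Pf.B 9 0 (Pf.B 7 2 (Pf.C 0 0x182821220381) (Pf.B 7 0 (Pf.C 0 0x182801220381) (Pf.C 4 0x404007))) (Pf.C 4 0x604009)) (Pf.C 4 0x604109))) (Pf.B 9 3 (Pf.B 9 2 (Pf.B 9 0 (Pf.B 7 2 (Pf.C 0 0x181821220381) (Pf.B 7 0 (Pf.C 0 0x181801220381) (Pf.C 4 0x404007))) (Pf.C 4 0xa04009)) (Pf.C 4 0xa04109)) (Pf.C 4 0xa04189))) (Pf.B 9 5 (Pf.B 9 3 (Pf.B 9 2 (Pf.B 9 0 (Pf.B 7 2 (Pf.C 0 0x141821220381) (Pf.B 7 0 (Pf.C 0 0x141801220381) (Pf.C 4 0x404007)))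 (Pf.C 4 0xc04009)) (Pf.C 4 0xc04109)) (Pf.C 4 0xc04189)) (Pf.C 4 0xc04289))) (Pf.C 1 905)) (Pf.C 1 1033)) Pf.nil)) (Pf.C 4 0x804008)) (Pf.C 4 0x804108)) (Pf.C 4 0x804188))) (Pf.B 8 4 (Pf.B 8 3 (Pf.B 8 2 (Pf.B 8 0 (Pf.W 9 1 [7,8] [0,2,3,4,6] (Pf.cons (Pf.B 9 8 (Pf.B 9 7 (Pf.B 9 6 (Pf.B 9 4 (Pf.B 9 3 (Pf.C 0 0x18203101c481) (Pf.B 9 2 (Pf.B 9 0 (Pf.B 7 2 (Pf.C 0 0x182021220381) (Pf.B 7 0 (Pf.C 0 0x182001220381) (Pf.C 4 0x404007))) (Pf.C 4 0x604009)) (Pf.C 4 0x604109))) (Pf.B 9 3 (Pf.B 9 2 (Pf.B 9 0 (Pf.B 7 2 (Pf.C 0 0x181821220381) (Pf.B 7 0 (Pf.C 0 0x181801220381) (Pf.C 4 0x404007))) (Pf.C 4 0x804009)) (Pf.C 4 0x804109)) (Pf.C 4 0x804189))) (Pf.B 9 4 (Pf.B 9 3 (Pf.B 9 2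 (Pf.B 9 0 (Pf.B 7 2 (Pf.C 0 0x101821220381) (Pf.B 7 0 (Pf.C 0 0x101801220381) (Pf.C 4 0x404007))) (Pf.C 4 0xc04009)) (Pf.C 4 0xc04109)) (Pf.C 4 0xc04189)) (Pf.C 4 0xc04209))) (Pf.C 1 905)) (Pf.C 1 1033)) Pf.nil)) (Pf.C 4 0xa04008)) (Pf.C 4 0xa04108)) (Pf.C 4 0xa04188)) (Pf.C 4 0xa04208))) (Pf.B 8 5 (Pf.B 8 4 (Pf.B 8 3 (Pf.B 8 2 (Pf.B 8 0 (Pf.W 9 1 [7,8] [0,2,3,4,5] (Pf.cons (Pf.B 9 8 (Pf.B 9 7 (Pf.B 9 5 (Pf.B 9 4 (Pf.B 9 3 (Pf.C 0 0x14203101c481) (Pf.B 9 2 (Pf.B 9 0 (Pf.B 7 2 (Pf.C 0 0x142021220381) (Pf.B 7 0 (Pf.C 0 0x142001220381) (Pf.C 4 0x404007))) (Pf.C 4 0x604009)) (Pf.C 4 0x604109))) (Pf.B 9 3 (Pf.B 9 2 (Pf.B 9 0 (Pf.B 7 2 (Pf.C 0 0x141821220381) (Pf.B 7 0 (Pf.C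 0 0x141801220381) (Pf.C 4 0x404007))) (Pf.C 4 0x804009)) (Pf.C 4 0x804109)) (Pf.C 4 0x804189))) (Pf.B 9 4 (Pf.B 9 3 (Pf.B 9 2 (Pf.B 9 0 (Pf.B 7 2 (Pf.C 0 0x101821220381) (Pf.B 7 0 (Pf.C 0 0x101801220381) (Pf.C 4 0x404007))) (Pf.C 4 0xa04009)) (Pf.C 4 0xa04109)) (Pf.C 4 0xa04189)) (Pf.C 4 0xa04209))) (Pf.C 1 905)) (Pf.C 1 1033)) Pf.nil)) (Pf.C 4 0xc04008)) (Pf.C 4 0xc04108)) (Pf.C 4 0xc04188)) (Pf.C 4 0xc04208)) (Pf.C 4 0xc04288))) (Pf.C 1 904)) Pf.nil)) (Pf.B 7 2 (Pf.B 7 0 (Pf.W 9 1 [7] [0,2,4,5,6] (Pf.cons (Pf.B 8 7 (Pf.B 8 6 (Pf.B 8 5 (Pf.B 8 4 (Pf.W 9 1 [7,8] [0,2,4,5,6] (Pf.cons (Pf.B 9 8 (Pf.B 9 7 (Pf.B 9 6 (Pf.B 9 5 (Pf.B 9 4 (Pf.C 0 0x18284101c481) (Pf.B 9 2 (Pf.B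 9 0 (Pf.B 8 2 (Pf.C 0 0x18282121c401) (Pf.B 8 0 (Pf.C 0 0x18280121c401) (Pf.C 4 0x404008))) (Pf.C 4 0x804009)) (Pf.C 4 0x804109))) (Pf.B 9 4 (Pf.B 9 2 (Pf.B 9 0 (Pf.B 8 2 (Pf.C 0 0x18202121c401) (Pf.B 8 0 (Pf.C 0 0x18200121c401) (Pf.C 4 0x404008))) (Pf.C 4 0xa04009)) (Pf.C 4 0xa04109)) (Pf.C 4 0xa04209))) (Pf.B 9 5 (Pf.B 9 4 (Pf.B 9 2 (Pf.B 9 0 (Pf.B 8 2 (Pf.C 0 0x14202121c401) (Pf.B 8 0 (Pf.C 0 0x14200121c401) (Pf.C 4 0x404008))) (Pf.C 4 0xc04009)) (Pf.C 4 0xc04109)) (Pf.C 4 0xc04209)) (Pf.C 4 0xc04289))) (Pf.C 1 905)) (Pf.C 1 1033)) Pf.nil)) (Pf.B 8 2 (Pf.B 8 0 (Pf.W 9 1 [7,8] [0,2,5,6] (Pf.cons (Pf.B 9 8 (Pf.B 9 7 (Pf.B 9 6 (Pf.B 9 5 (Pf.B 9 2 (Pf.C 0 0x18282101c481)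 (Pf.B 9 0 (Pf.C 0 0x18280101c481) (Pf.C 4 0x404009))) (Pf.B 9 2 (Pf.B 9 0 (Pf.C 0 0x18100101c481) (Pf.C 4 0xa04009)) (Pf.C 4 0xa04109))) (Pf.B 9 5 (Pf.B 9 2 (Pf.B 9 0 (Pf.C 0 0x14100101c481) (Pf.C 4 0xc04009)) (Pf.C 4 0xc04109)) (Pf.C 4 0xc04289))) (Pf.C 1 905)) (Pf.C 1 1033)) Pf.nil)) (Pf.C 4 0x804008)) (Pf.C 4 0x804108))) (Pf.B 8 4 (Pf.B 8 2 (Pf.B 8 0 (Pf.W 9 1 [7,8] [0,2,4,6] (Pf.cons (Pf.B 9 8 (Pf.B 9 7 (Pf.B 9 6 (Pf.B 9 4 (Pf.B 9 2 (Pf.C 0 0x18202101c481) (Pf.B 9 0 (Pf.C 0 0x18200101c481) (Pf.C 4 0x404009))) (Pf.B 9 2 (Pf.B 9 0 (Pf.C 0 0x18100101c481) (Pf.C 4 0x804009)) (Pf.C 4 0x804109))) (Pf.B 9 4 (Pf.B 9 2 (Pf.B 9 0 (Pf.C 0 0x10100101c481) (Pf.C 4 0xc04009)) (Pf.C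 4 0xc04109)) (Pf.C 4 0xc04209))) (Pf.C 1 905)) (Pf.C 1 1033)) Pf.nil)) (Pf.C 4 0xa04008)) (Pf.C 4 0xa04108)) (Pf.C 4 0xa04208))) (Pf.B 8 5 (Pf.B 8 4 (Pf.B 8 2 (Pf.B 8 0 (Pf.W 9 1 [7,8] [0,2,4,5] (Pf.cons (Pf.B 9 8 (Pf.B 9 7 (Pf.B 9 5 (Pf.B 9 4 (Pf.B 9 2 (Pf.C 0 0x14202101c481) (Pf.B 9 0 (Pf.C 0 0x14200101c481) (Pf.C 4 0x404009))) (Pf.B 9 2 (Pf.B 9 0 (Pf.C 0 0x14100101c481) (Pf.C 4 0x804009)) (Pf.C 4 0x804109))) (Pf.B 9 4 (Pf.B 9 2 (Pf.B 9 0 (Pf.C 0 0x10100101c481) (Pf.C 4 0xa04009)) (Pf.C 4 0xa04109)) (Pf.C 4 0xa04209))) (Pf.C 1 905)) (Pf.C 1 1033)) Pf.nil)) (Pf.C 4 0xc04008)) (Pf.C 4 0xc04108)) (Pf.C 4 0xc04208)) (Pf.C 4 0xc04288))) (Pf.C 1 904)) Pf.nil)) (Pf.C 4 0x604007))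 (Pf.C 4 0x604107))) (Pf.B 7 3 (Pf.B 7 2 (Pf.B 7 0 (Pf.W 9 1 [7] [0,2,3,5,6] (Pf.cons (Pf.B 8 7 (Pf.B 8 6 (Pf.B 8 5 (Pf.B 8 3 (Pf.W 9 1 [7,8] [0,2,3,5,6] (Pf.cons (Pf.B 9 8 (Pf.B 9 7 (Pf.B 9 6 (Pf.B 9 5 (Pf.B 9 3 (Pf.C 0 0x18283101c481) (Pf.B 9 2 (Pf.B 9 0 (Pf.B 8 2 (Pf.C 0 0x18282121c401) (Pf.B 8 0 (Pf.C 0 0x18280121c401) (Pf.C 4 0x404008))) (Pf.C 4 0x604009)) (Pf.C 4 0x604109))) (Pf.B 9 3 (Pf.B 9 2 (Pf.B 9 0 (Pf.B 8 2 (Pf.C 0 0x18182121c401) (Pf.B 8 0 (Pf.C 0 0x18180121c401) (Pf.C 4 0x404008))) (Pf.C 4 0xa04009)) (Pf.C 4 0xa04109)) (Pf.C 4 0xa04189))) (Pf.B 9 5 (Pf.B 9 3 (Pf.B 9 2 (Pf.B 9 0 (Pf.B 8 2 (Pf.C 0 0x14182121c401) (Pf.B 8 0 (Pf.C 0 0x14180121c401) (Pf.C 4 0x404008)))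 (Pf.C 4 0xc04009)) (Pf.C 4 0xc04109)) (Pf.C 4 0xc04189)) (Pf.C 4 0xc04289))) (Pf.C 1 905)) (Pf.C 1 1033)) Pf.nil)) (Pf.B 8 2 (Pf.B 8 0 (Pf.W 9 1 [7,8] [0,2,5,6] (Pf.cons (Pf.B 9 8 (Pf.B 9 7 (Pf.B 9 6 (Pf.B 9 5 (Pf.B 9 2 (Pf.C 0 0x18282101c481) (Pf.B 9 0 (Pf.C 0 0x18280101c481) (Pf.C 4 0x404009))) (Pf.B 9 2 (Pf.B 9 0 (Pf.C 0 0x18100101c481) (Pf.C 4 0xa04009)) (Pf.C 4 0xa04109))) (Pf.B 9 5 (Pf.B 9 2 (Pf.B 9 0 (Pf.C 0 0x14100101c481) (Pf.C 4 0xc04009)) (Pf.C 4 0xc04109)) (Pf.C 4 0xc04289))) (Pf.C 1 905)) (Pf.C 1 1033)) Pf.nil)) (Pf.C 4 0x604008)) (Pf.C 4 0x604108))) (Pf.B 8 3 (Pf.B 8 2 (Pf.B 8 0 (Pf.W 9 1 [7,8] [0,2,3,6] (Pf.cons (Pf.B 9 8 (Pf.B 9 7 (Pf.B 9 6 (Pf.B 9 3 (Pf.B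 9 2 (Pf.C 0 0x18182101c481) (Pf.B 9 0 (Pf.C 0 0x18180101c481) (Pf.C 4 0x404009))) (Pf.B 9 2 (Pf.B 9 0 (Pf.C 0 0x18100101c481) (Pf.C 4 0x604009)) (Pf.C 4 0x604109))) (Pf.B 9 3 (Pf.B 9 2 (Pf.B 9 0 (Pf.C 0 0xc100101c481) (Pf.C 4 0xc04009)) (Pf.C 4 0xc04109)) (Pf.C 4 0xc04189))) (Pf.C 1 905)) (Pf.C 1 1033)) Pf.nil)) (Pf.C 4 0xa04008)) (Pf.C 4 0xa04108)) (Pf.C 4 0xa04188))) (Pf.B 8 5 (Pf.B 8 3 (Pf.B 8 2 (Pf.B 8 0 (Pf.W 9 1 [7,8] [0,2,3,5] (Pf.cons (Pf.B 9 8 (Pf.B 9 7 (Pf.B 9 5 (Pf.B 9 3 (Pf.B 9 2 (Pf.C 0 0x14182101c481) (Pf.B 9 0 (Pf.C 0 0x14180101c481) (Pf.C 4 0x404009))) (Pf.B 9 2 (Pf.B 9 0 (Pf.C 0 0x14100101c481) (Pf.C 4 0x604009)) (Pf.C 4 0x604109))) (Pf.B 9 3 (Pf.B 9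 2 (Pf.B 9 0 (Pf.C 0 0xc100101c481) (Pf.C 4 0xa04009)) (Pf.C 4 0xa04109)) (Pf.C 4 0xa04189))) (Pf.C 1 905)) (Pf.C 1 1033)) Pf.nil)) (Pf.C 4 0xc04008)) (Pf.C 4 0xc04108)) (Pf.C 4 0xc04188)) (Pf.C 4 0xc04288))) (Pf.C 1 904)) Pf.nil)) (Pf.C 4 0x804007)) (Pf.C 4 0x804107)) (Pf.C 4 0x804187))) (Pf.B 7 4 (Pf.B 7 3 (Pf.B 7 2 (Pf.B 7 0 (Pf.W 9 1 [7] [0,2,3,4,6] (Pf.cons (Pf.B 8 7 (Pf.B 8 6 (Pf.B 8 4 (Pf.B 8 3 (Pf.W 9 1 [7,8] [0,2,3,4,6] (Pf.cons (Pf.B 9 8 (Pf.B 9 7 (Pf.B 9 6 (Pf.B 9 4 (Pf.B 9 3 (Pf.C 0 0x18203101c481) (Pf.B 9 2 (Pf.B 9 0 (Pf.B 8 2 (Pf.C 0 0x18202121c401) (Pf.B 8 0 (Pf.C 0 0x18200121c401) (Pf.C 4 0x404008))) (Pf.C 4 0x604009)) (Pf.C 4 0x604109))) (Pf.B 9 3 (Pf.B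 9 2 (Pf.B 9 0 (Pf.B 8 2 (Pf.C 0 0x18182121c401) (Pf.B 8 0 (Pf.C 0 0x18180121c401) (Pf.C 4 0x404008))) (Pf.C 4 0x804009)) (Pf.C 4 0x804109)) (Pf.C 4 0x804189))) (Pf.B 9 4 (Pf.B 9 3 (Pf.B 9 2 (Pf.B 9 0 (Pf.B 8 2 (Pf.C 0 0x10182121c401) (Pf.B 8 0 (Pf.C 0 0x10180121c401) (Pf.C 4 0x404008))) (Pf.C 4 0xc04009)) (Pf.C 4 0xc04109)) (Pf.C 4 0xc04189)) (Pf.C 4 0xc04209))) (Pf.C 1 905)) (Pf.C 1 1033)) Pf.nil)) (Pf.B 8 2 (Pf.B 8 0 (Pf.W 9 1 [7,8] [0,2,4,6] (Pf.cons (Pf.B 9 8 (Pf.B 9 7 (Pf.B 9 6 (Pf.B 9 4 (Pf.B 9 2 (Pf.C 0 0x18202101c481) (Pf.B 9 0 (Pf.C 0 0x18200101c481) (Pf.C 4 0x404009))) (Pf.B 9 2 (Pf.B 9 0 (Pf.C 0 0x18100101c481) (Pf.C 4 0x804009)) (Pf.C 4 0x804109))) (Pf.B 9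 4 (Pf.B 9 2 (Pf.B 9 0 (Pf.C 0 0x10100101c481) (Pf.C 4 0xc04009)) (Pf.C 4 0xc04109)) (Pf.C 4 0xc04209))) (Pf.C 1 905)) (Pf.C 1 1033)) Pf.nil)) (Pf.C 4 0x604008)) (Pf.C 4 0x604108))) (Pf.B 8 3 (Pf.B 8 2 (Pf.B 8 0 (Pf.W 9 1 [7,8] [0,2,3,6] (Pf.cons (Pf.B 9 8 (Pf.B 9 7 (Pf.B 9 6 (Pf.B 9 3 (Pf.B 9 2 (Pf.C 0 0x18182101c481) (Pf.B 9 0 (Pf.C 0 0x18180101c481) (Pf.C 4 0x404009))) (Pf.B 9 2 (Pf.B 9 0 (Pf.C 0 0x18100101c481) (Pf.C 4 0x604009)) (Pf.C 4 0x604109))) (Pf.B 9 3 (Pf.B 9 2 (Pf.B 9 0 (Pf.C 0 0xc100101c481) (Pf.C 4 0xc04009)) (Pf.C 4 0xc04109)) (Pf.C 4 0xc04189))) (Pf.C 1 905)) (Pf.C 1 1033)) Pf.nil)) (Pf.C 4 0x804008)) (Pf.C 4 0x804108)) (Pf.C 4 0x804188))) (Pf.B 8 4 (Pf.B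 8 3 (Pf.B 8 2 (Pf.B 8 0 (Pf.W 9 1 [7,8] [0,2,3,4] (Pf.cons (Pf.B 9 8 (Pf.B 9 7 (Pf.B 9 4 (Pf.B 9 3 (Pf.B 9 2 (Pf.C 0 0x10182101c481) (Pf.B 9 0 (Pf.C 0 0x10180101c481) (Pf.C 4 0x404009))) (Pf.B 9 2 (Pf.B 9 0 (Pf.C 0 0x10100101c481) (Pf.C 4 0x604009)) (Pf.C 4 0x604109))) (Pf.B 9 3 (Pf.B 9 2 (Pf.B 9 0 (Pf.C 0 0xc100101c481) (Pf.C 4 0x804009)) (Pf.C 4 0x804109)) (Pf.C 4 0x804189))) (Pf.C 1 905)) (Pf.C 1 1033)) Pf.nil)) (Pf.C 4 0xc04008)) (Pf.C 4 0xc04108)) (Pf.C 4 0xc04188)) (Pf.C 4 0xc04208))) (Pf.C 1 904)) Pf.nil)) (Pf.C 4 0xa04007)) (Pf.C 4 0xa04107)) (Pf.C 4 0xa04187)) (Pf.C 4 0xa04207))) (Pf.B 7 5 (Pf.B 7 4 (Pf.B 7 3 (Pf.B 7 2 (Pf.B 7 0 (Pf.W 9 1 [7] [0,2,3,4,5] (Pf.cons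 (Pf.B 8 7 (Pf.B 8 5 (Pf.B 8 4 (Pf.B 8 3 (Pf.W 9 1 [7,8] [0,2,3,4,5] (Pf.cons (Pf.B 9 8 (Pf.B 9 7 (Pf.B 9 5 (Pf.B 9 4 (Pf.B 9 3 (Pf.C 0 0x14203101c481) (Pf.B 9 2 (Pf.B 9 0 (Pf.B 8 2 (Pf.C 0 0x14202121c401) (Pf.B 8 0 (Pf.C 0 0x14200121c401) (Pf.C 4 0x404008))) (Pf.C 4 0x604009)) (Pf.C 4 0x604109))) (Pf.B 9 3 (Pf.B 9 2 (Pf.B 9 0 (Pf.B 8 2 (Pf.C 0 0x14182121c401) (Pf.B 8 0 (Pf.C 0 0x14180121c401) (Pf.C 4 0x404008))) (Pf.C 4 0x804009)) (Pf.C 4 0x804109)) (Pf.C 4 0x804189))) (Pf.B 9 4 (Pf.B 9 3 (Pf.B 9 2 (Pf.B 9 0 (Pf.B 8 2 (Pf.C 0 0x10182121c401) (Pf.B 8 0 (Pf.C 0 0x10180121c401) (Pf.C 4 0x404008))) (Pf.C 4 0xa04009)) (Pf.C 4 0xa04109)) (Pf.C 4 0xa04189)) (Pf.C 4 0xa04209)))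 (Pf.C 1 905)) (Pf.C 1 1033)) Pf.nil)) (Pf.B 8 2 (Pf.B 8 0 (Pf.W 9 1 [7,8] [0,2,4,5] (Pf.cons (Pf.B 9 8 (Pf.B 9 7 (Pf.B 9 5 (Pf.B 9 4 (Pf.B 9 2 (Pf.C 0 0x14202101c481) (Pf.B 9 0 (Pf.C 0 0x14200101c481) (Pf.C 4 0x404009))) (Pf.B 9 2 (Pf.B 9 0 (Pf.C 0 0x14100101c481) (Pf.C 4 0x804009)) (Pf.C 4 0x804109))) (Pf.B 9 4 (Pf.B 9 2 (Pf.B 9 0 (Pf.C 0 0x10100101c481) (Pf.C 4 0xa04009)) (Pf.C 4 0xa04109)) (Pf.C 4 0xa04209))) (Pf.C 1 905)) (Pf.C 1 1033)) Pf.nil)) (Pf.C 4 0x604008)) (Pf.C 4 0x604108))) (Pf.B 8 3 (Pf.B 8 2 (Pf.B 8 0 (Pf.W 9 1 [7,8] [0,2,3,5] (Pf.cons (Pf.B 9 8 (Pf.B 9 7 (Pf.B 9 5 (Pf.B 9 3 (Pf.B 9 2 (Pf.C 0 0x14182101c481) (Pf.B 9 0 (Pf.C 0 0x14180101c481) (Pf.C 4 0x404009)))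 (Pf.B 9 2 (Pf.B 9 0 (Pf.C 0 0x14100101c481) (Pf.C 4 0x604009)) (Pf.C 4 0x604109))) (Pf.B 9 3 (Pf.B 9 2 (Pf.B 9 0 (Pf.C 0 0xc100101c481) (Pf.C 4 0xa04009)) (Pf.C 4 0xa04109)) (Pf.C 4 0xa04189))) (Pf.C 1 905)) (Pf.C 1 1033)) Pf.nil)) (Pf.C 4 0x804008)) (Pf.C 4 0x804108)) (Pf.C 4 0x804188))) (Pf.B 8 4 (Pf.B 8 3 (Pf.B 8 2 (Pf.B 8 0 (Pf.W 9 1 [7,8] [0,2,3,4] (Pf.cons (Pf.B 9 8 (Pf.B 9 7 (Pf.B 9 4 (Pf.B 9 3 (Pf.B 9 2 (Pf.C 0 0x10182101c481) (Pf.B 9 0 (Pf.C 0 0x10180101c481) (Pf.C 4 0x404009))) (Pf.B 9 2 (Pf.B 9 0 (Pf.C 0 0x10100101c481) (Pf.C 4 0x604009)) (Pf.C 4 0x604109))) (Pf.B 9 3 (Pf.B 9 2 (Pf.B 9 0 (Pf.C 0 0xc100101c481) (Pf.C 4 0x804009)) (Pf.C 4 0x804109)) (Pf.C 4 0x804189)))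 (Pf.C 1 905)) (Pf.C 1 1033)) Pf.nil)) (Pf.C 4 0xa04008)) (Pf.C 4 0xa04108)) (Pf.C 4 0xa04188)) (Pf.C 4 0xa04208))) (Pf.C 1 904)) Pf.nil)) (Pf.C 4 0xc04007)) (Pf.C 4 0xc04107)) (Pf.C 4 0xc04187)) (Pf.C 4 0xc04207)) (Pf.C 4 0xc04287))) Pf.nil)) (Pf.C 2 3)) (Pf.C 2 131)) (Pf.C 2 259)) (Pf.C 2 4)) (Pf.C 2 132)) (Pf.C 2 260)) (Pf.C 2 5)) (Pf.C 2 133)) (Pf.C 2 261)) (Pf.C 2 6)) (Pf.C 2 134)) (Pf.C 2 262)))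
 (Pq.cons (Pq.L [] 1 (Pf.C 2 515))
 (Pq.cons (Pq.L [0,1,2] 63 (Pf.B 6 2 (Pf.B 6 1 (Pf.B 6 0 (Pf.B 5 2 (Pf.B 5 1 (Pf.B 5 0 (Pf.B 4 2 (Pf.B 4 1 (Pf.B 4 0 (Pf.B 3 2 (Pf.B 3 1 (Pf.B 3 0 (Pf.W 9 0 [] [1,2,3,4,5,6] (Pf.cons (Pf.B 7 6 (Pf.B 7 5 (Pf.B 7 4 (Pf.B 7 3 (Pf.W 9 0 [7] [1,2,3,4,5,6] (Pf.cons (Pf.B 8 7 (Pf.B 8 6 (Pf.B 8 5 (Pf.B 8 4 (Pf.B 8 3 (Pf.W 9 0 [7,8] [3,4,5,6] (Pf.cons (Pf.B 9 8 (Pf.B 9 7 (Pf.B 9 6 (Pf.B 9 5 (Pf.B 9 4 (Pf.C 0 0x18284101c480) (Pf.B 9 3 (Pf.C 0 0x18283101c480) (Pf.C 4 0x800189))) (Pf.B 9 4 (Pf.B 9 3 (Pf.C 0 0x18203101c480) (Pf.C 4 0xa00189)) (Pf.C 4 0xa00209))) (Pf.B 9 5 (Pf.B 9 4 (Pf.B 9 3 (Pf.C 0 0x14203101c480) (Pf.C 4 0xc00189)) (Pf.C 4 0xc00209))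 (Pf.C 4 0xc00289))) (Pf.C 1 905)) (Pf.C 1 1033)) Pf.nil)) (Pf.B 8 2 (Pf.B 8 1 (Pf.W 9 0 [7,8] [1,2,4,5,6] (Pf.cons (Pf.B 9 8 (Pf.B 9 7 (Pf.B 9 6 (Pf.B 9 5 (Pf.B 9 4 (Pf.C 0 0x18284101c480) (Pf.B 9 2 (Pf.B 9 1 (Pf.B 7 2 (Pf.C 0 0x182821220380) (Pf.B 7 1 (Pf.C 0 0x182811220380) (Pf.C 4 0x400087))) (Pf.C 4 0x800089)) (Pf.C 4 0x800109))) (Pf.B 9 4 (Pf.B 9 2 (Pf.B 9 1 (Pf.B 7 2 (Pf.C 0 0x182021220380) (Pf.B 7 1 (Pf.C 0 0x182011220380) (Pf.C 4 0x400087))) (Pf.C 4 0xa00089)) (Pf.C 4 0xa00109)) (Pf.C 4 0xa00209))) (Pf.B 9 5 (Pf.B 9 4 (Pf.B 9 2 (Pf.B 9 1 (Pf.B 7 2 (Pf.C 0 0x142021220380) (Pf.B 7 1 (Pf.C 0 0x142011220380) (Pf.C 4 0x400087))) (Pf.C 4 0xc00089)) (Pf.C 4 0xc00109))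 (Pf.C 4 0xc00209)) (Pf.C 4 0xc00289))) (Pf.C 1 905)) (Pf.C 1 1033)) Pf.nil)) (Pf.C 4 0x600088)) (Pf.C 4 0x600108))) (Pf.B 8 3 (Pf.B 8 2 (Pf.B 8 1 (Pf.W 9 0 [7,8] [1,2,3,5,6] (Pf.cons (Pf.B 9 8 (Pf.B 9 7 (Pf.B 9 6 (Pf.B 9 5 (Pf.B 9 3 (Pf.C 0 0x18283101c480) (Pf.B 9 2 (Pf.B 9 1 (Pf.B 7 2 (Pf.C 0 0x182821220380) (Pf.B 7 1 (Pf.C 0 0x182811220380) (Pf.C 4 0x400087))) (Pf.C 4 0x600089)) (Pf.C 4 0x600109))) (Pf.B 9 3 (Pf.B 9 2 (Pf.B 9 1 (Pf.B 7 2 (Pf.C 0 0x181821220380) (Pf.B 7 1 (Pf.C 0 0x181811220380) (Pf.C 4 0x400087))) (Pf.C 4 0xa00089)) (Pf.C 4 0xa00109)) (Pf.C 4 0xa00189))) (Pf.B 9 5 (Pf.B 9 3 (Pf.B 9 2 (Pf.B 9 1 (Pf.B 7 2 (Pf.C 0 0x141821220380) (Pf.B 7 1 (Pf.C 0 0x141811220380)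 (Pf.C 4 0x400087))) (Pf.C 4 0xc00089)) (Pf.C 4 0xc00109)) (Pf.C 4 0xc00189)) (Pf.C 4 0xc00289))) (Pf.C 1 905)) (Pf.C 1 1033)) Pf.nil)) (Pf.C 4 0x800088)) (Pf.C 4 0x800108)) (Pf.C 4 0x800188))) (Pf.B 8 4 (Pf.B 8 3 (Pf.B 8 2 (Pf.B 8 1 (Pf.W 9 0 [7,8] [1,2,3,4,6] (Pf.cons (Pf.B 9 8 (Pf.B 9 7 (Pf.B 9 6 (Pf.B 9 4 (Pf.B 9 3 (Pf.C 0 0x18203101c480) (Pf.B 9 2 (Pf.B 9 1 (Pf.B 7 2 (Pf.C 0 0x182021220380) (Pf.B 7 1 (Pf.C 0 0x182011220380) (Pf.C 4 0x400087))) (Pf.C 4 0x600089)) (Pf.C 4 0x600109))) (Pf.B 9 3 (Pf.B 9 2 (Pf.B 9 1 (Pf.B 7 2 (Pf.C 0 0x181821220380) (Pf.B 7 1 (Pf.C 0 0x181811220380) (Pf.C 4 0x400087))) (Pf.C 4 0x800089)) (Pf.C 4 0x800109)) (Pf.C 4 0x800189))) (Pf.B 9 4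 (Pf.B 9 3 (Pf.B 9 2 (Pf.B 9 1 (Pf.B 7 2 (Pf.C 0 0x101821220380) (Pf.B 7 1 (Pf.C 0 0x101811220380) (Pf.C 4 0x400087))) (Pf.C 4 0xc00089)) (Pf.C 4 0xc00109)) (Pf.C 4 0xc00189)) (Pf.C 4 0xc00209))) (Pf.C 1 905)) (Pf.C 1 1033)) Pf.nil)) (Pf.C 4 0xa00088)) (Pf.C 4 0xa00108)) (Pf.C 4 0xa00188)) (Pf.C 4 0xa00208))) (Pf.B 8 5 (Pf.B 8 4 (Pf.B 8 3 (Pf.B 8 2 (Pf.B 8 1 (Pf.W 9 0 [7,8] [1,2,3,4,5] (Pf.cons (Pf.B 9 8 (Pf.B 9 7 (Pf.B 9 5 (Pf.B 9 4 (Pf.B 9 3 (Pf.C 0 0x14203101c480) (Pf.B 9 2 (Pf.B 9 1 (Pf.B 7 2 (Pf.C 0 0x142021220380) (Pf.B 7 1 (Pf.C 0 0x142011220380) (Pf.C 4 0x400087))) (Pf.C 4 0x600089)) (Pf.C 4 0x600109))) (Pf.B 9 3 (Pf.B 9 2 (Pf.B 9 1 (Pf.B 7 2 (Pf.C 0 0x141821220380)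 (Pf.B 7 1 (Pf.C 0 0x141811220380) (Pf.C 4 0x400087))) (Pf.C 4 0x800089)) (Pf.C 4 0x800109)) (Pf.C 4 0x800189))) (Pf.B 9 4 (Pf.B 9 3 (Pf.B 9 2 (Pf.B 9 1 (Pf.B 7 2 (Pf.C 0 0x101821220380) (Pf.B 7 1 (Pf.C 0 0x101811220380) (Pf.C 4 0x400087))) (Pf.C 4 0xa00089)) (Pf.C 4 0xa00109)) (Pf.C 4 0xa00189)) (Pf.C 4 0xa00209))) (Pf.C 1 905)) (Pf.C 1 1033)) Pf.nil)) (Pf.C 4 0xc00088)) (Pf.C 4 0xc00108)) (Pf.C 4 0xc00188)) (Pf.C 4 0xc00208)) (Pf.C 4 0xc00288))) (Pf.C 1 904)) Pf.nil)) (Pf.B 7 2 (Pf.B 7 1 (Pf.W 9 0 [7] [1,2,4,5,6] (Pf.cons (Pf.B 8 7 (Pf.B 8 6 (Pf.B 8 5 (Pf.B 8 4 (Pf.W 9 0 [7,8] [1,2,4,5,6] (Pf.cons (Pf.B 9 8 (Pf.B 9 7 (Pf.B 9 6 (Pf.B 9 5 (Pf.B 9 4 (Pf.C 0 0x18284101c480)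 (Pf.B 9 2 (Pf.B 9 1 (Pf.B 8 2 (Pf.C 0 0x18282121c400) (Pf.B 8 1 (Pf.C 0 0x18281121c400) (Pf.C 4 0x400088))) (Pf.C 4 0x800089)) (Pf.C 4 0x800109))) (Pf.B 9 4 (Pf.B 9 2 (Pf.B 9 1 (Pf.B 8 2 (Pf.C 0 0x18202121c400) (Pf.B 8 1 (Pf.C 0 0x18201121c400) (Pf.C 4 0x400088))) (Pf.C 4 0xa00089)) (Pf.C 4 0xa00109)) (Pf.C 4 0xa00209))) (Pf.B 9 5 (Pf.B 9 4 (Pf.B 9 2 (Pf.B 9 1 (Pf.B 8 2 (Pf.C 0 0x14202121c400) (Pf.B 8 1 (Pf.C 0 0x14201121c400) (Pf.C 4 0x400088))) (Pf.C 4 0xc00089)) (Pf.C 4 0xc00109)) (Pf.C 4 0xc00209)) (Pf.C 4 0xc00289))) (Pf.C 1 905)) (Pf.C 1 1033)) Pf.nil)) (Pf.B 8 2 (Pf.B 8 1 (Pf.W 9 0 [7,8] [1,2,5,6] (Pf.cons (Pf.B 9 8 (Pf.B 9 7 (Pf.B 9 6 (Pf.B 9 5 (Pf.B 9 2 (Pf.C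 0 0x18282101c480) (Pf.B 9 1 (Pf.C 0 0x18281101c480) (Pf.C 4 0x400089))) (Pf.B 9 2 (Pf.B 9 1 (Pf.C 0 0x18101101c480) (Pf.C 4 0xa00089)) (Pf.C 4 0xa00109))) (Pf.B 9 5 (Pf.B 9 2 (Pf.B 9 1 (Pf.C 0 0x14101101c480) (Pf.C 4 0xc00089)) (Pf.C 4 0xc00109)) (Pf.C 4 0xc00289))) (Pf.C 1 905)) (Pf.C 1 1033)) Pf.nil)) (Pf.C 4 0x800088)) (Pf.C 4 0x800108))) (Pf.B 8 4 (Pf.B 8 2 (Pf.B 8 1 (Pf.W 9 0 [7,8] [1,2,4,6] (Pf.cons (Pf.B 9 8 (Pf.B 9 7 (Pf.B 9 6 (Pf.B 9 4 (Pf.B 9 2 (Pf.C 0 0x18202101c480) (Pf.B 9 1 (Pf.C 0 0x18201101c480) (Pf.C 4 0x400089))) (Pf.B 9 2 (Pf.B 9 1 (Pf.C 0 0x18101101c480) (Pf.C 4 0x800089)) (Pf.C 4 0x800109))) (Pf.B 9 4 (Pf.B 9 2 (Pf.B 9 1 (Pf.C 0 0x10101101c480) (Pf.C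 4 0xc00089)) (Pf.C 4 0xc00109)) (Pf.C 4 0xc00209))) (Pf.C 1 905)) (Pf.C 1 1033)) Pf.nil)) (Pf.C 4 0xa00088)) (Pf.C 4 0xa00108)) (Pf.C 4 0xa00208))) (Pf.B 8 5 (Pf.B 8 4 (Pf.B 8 2 (Pf.B 8 1 (Pf.W 9 0 [7,8] [1,2,4,5] (Pf.cons (Pf.B 9 8 (Pf.B 9 7 (Pf.B 9 5 (Pf.B 9 4 (Pf.B 9 2 (Pf.C 0 0x14202101c480) (Pf.B 9 1 (Pf.C 0 0x14201101c480) (Pf.C 4 0x400089))) (Pf.B 9 2 (Pf.B 9 1 (Pf.C 0 0x14101101c480) (Pf.C 4 0x800089)) (Pf.C 4 0x800109))) (Pf.B 9 4 (Pf.B 9 2 (Pf.B 9 1 (Pf.C 0 0x10101101c480) (Pf.C 4 0xa00089)) (Pf.C 4 0xa00109)) (Pf.C 4 0xa00209))) (Pf.C 1 905)) (Pf.C 1 1033)) Pf.nil)) (Pf.C 4 0xc00088)) (Pf.C 4 0xc00108)) (Pf.C 4 0xc00208)) (Pf.C 4 0xc00288))) (Pf.C 1 904)) Pf.nil))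 (Pf.C 4 0x600087)) (Pf.C 4 0x600107))) (Pf.B 7 3 (Pf.B 7 2 (Pf.B 7 1 (Pf.W 9 0 [7] [1,2,3,5,6] (Pf.cons (Pf.B 8 7 (Pf.B 8 6 (Pf.B 8 5 (Pf.B 8 3 (Pf.W 9 0 [7,8] [1,2,3,5,6] (Pf.cons (Pf.B 9 8 (Pf.B 9 7 (Pf.B 9 6 (Pf.B 9 5 (Pf.B 9 3 (Pf.C 0 0x18283101c480) (Pf.B 9 2 (Pf.B 9 1 (Pf.B 8 2 (Pf.C 0 0x18282121c400) (Pf.B 8 1 (Pf.C 0 0x18281121c400) (Pf.C 4 0x400088))) (Pf.C 4 0x600089)) (Pf.C 4 0x600109))) (Pf.B 9 3 (Pf.B 9 2 (Pf.B 9 1 (Pf.B 8 2 (Pf.C 0 0x18182121c400) (Pf.B 8 1 (Pf.C 0 0x18181121c400) (Pf.C 4 0x400088))) (Pf.C 4 0xa00089)) (Pf.C 4 0xa00109)) (Pf.C 4 0xa00189))) (Pf.B 9 5 (Pf.B 9 3 (Pf.B 9 2 (Pf.B 9 1 (Pf.B 8 2 (Pf.C 0 0x14182121c400) (Pf.B 8 1 (Pf.C 0 0x14181121c400)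 (Pf.C 4 0x400088))) (Pf.C 4 0xc00089)) (Pf.C 4 0xc00109)) (Pf.C 4 0xc00189)) (Pf.C 4 0xc00289))) (Pf.C 1 905)) (Pf.C 1 1033)) Pf.nil)) (Pf.B 8 2 (Pf.B 8 1 (Pf.W 9 0 [7,8] [1,2,5,6] (Pf.cons (Pf.B 9 8 (Pf.B 9 7 (Pf.B 9 6 (Pf.B 9 5 (Pf.B 9 2 (Pf.C 0 0x18282101c480) (Pf.B 9 1 (Pf.C 0 0x18281101c480) (Pf.C 4 0x400089))) (Pf.B 9 2 (Pf.B 9 1 (Pf.C 0 0x18101101c480) (Pf.C 4 0xa00089)) (Pf.C 4 0xa00109))) (Pf.B 9 5 (Pf.B 9 2 (Pf.B 9 1 (Pf.C 0 0x14101101c480) (Pf.C 4 0xc00089)) (Pf.C 4 0xc00109)) (Pf.C 4 0xc00289))) (Pf.C 1 905)) (Pf.C 1 1033)) Pf.nil)) (Pf.C 4 0x600088)) (Pf.C 4 0x600108))) (Pf.B 8 3 (Pf.B 8 2 (Pf.B 8 1 (Pf.W 9 0 [7,8] [1,2,3,6] (Pf.cons (Pf.B 9 8 (Pf.B 9 7 (Pf.B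 9 6 (Pf.B 9 3 (Pf.B 9 2 (Pf.C 0 0x18182101c480) (Pf.B 9 1 (Pf.C 0 0x18181101c480) (Pf.C 4 0x400089))) (Pf.B 9 2 (Pf.B 9 1 (Pf.C 0 0x18101101c480) (Pf.C 4 0x600089)) (Pf.C 4 0x600109))) (Pf.B 9 3 (Pf.B 9 2 (Pf.B 9 1 (Pf.C 0 0xc101101c480) (Pf.C 4 0xc00089)) (Pf.C 4 0xc00109)) (Pf.C 4 0xc00189))) (Pf.C 1 905)) (Pf.C 1 1033)) Pf.nil)) (Pf.C 4 0xa00088)) (Pf.C 4 0xa00108)) (Pf.C 4 0xa00188))) (Pf.B 8 5 (Pf.B 8 3 (Pf.B 8 2 (Pf.B 8 1 (Pf.W 9 0 [7,8] [1,2,3,5] (Pf.cons (Pf.B 9 8 (Pf.B 9 7 (Pf.B 9 5 (Pf.B 9 3 (Pf.B 9 2 (Pf.C 0 0x14182101c480) (Pf.B 9 1 (Pf.C 0 0x14181101c480) (Pf.C 4 0x400089))) (Pf.B 9 2 (Pf.B 9 1 (Pf.C 0 0x14101101c480) (Pf.C 4 0x600089)) (Pf.C 4 0x600109)))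 (Pf.B 9 3 (Pf.B 9 2 (Pf.B 9 1 (Pf.C 0 0xc101101c480) (Pf.C 4 0xa00089)) (Pf.C 4 0xa00109)) (Pf.C 4 0xa00189))) (Pf.C 1 905)) (Pf.C 1 1033)) Pf.nil)) (Pf.C 4 0xc00088)) (Pf.C 4 0xc00108)) (Pf.C 4 0xc00188)) (Pf.C 4 0xc00288))) (Pf.C 1 904)) Pf.nil)) (Pf.C 4 0x800087)) (Pf.C 4 0x800107)) (Pf.C 4 0x800187))) (Pf.B 7 4 (Pf.B 7 3 (Pf.B 7 2 (Pf.B 7 1 (Pf.W 9 0 [7] [1,2,3,4,6] (Pf.cons (Pf.B 8 7 (Pf.B 8 6 (Pf.B 8 4 (Pf.B 8 3 (Pf.W 9 0 [7,8] [1,2,3,4,6] (Pf.cons (Pf.B 9 8 (Pf.B 9 7 (Pf.B 9 6 (Pf.B 9 4 (Pf.B 9 3 (Pf.C 0 0x18203101c480) (Pf.B 9 2 (Pf.B 9 1 (Pf.B 8 2 (Pf.C 0 0x18202121c400) (Pf.B 8 1 (Pf.C 0 0x18201121c400) (Pf.C 4 0x400088))) (Pf.C 4 0x600089)) (Pf.C 4 0x600109)))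 (Pf.B 9 3 (Pf.B 9 2 (Pf.B 9 1 (Pf.B 8 2 (Pf.C 0 0x18182121c400) (Pf.B 8 1 (Pf.C 0 0x18181121c400) (Pf.C 4 0x400088))) (Pf.C 4 0x800089)) (Pf.C 4 0x800109)) (Pf.C 4 0x800189))) (Pf.B 9 4 (Pf.B 9 3 (Pf.B 9 2 (Pf.B 9 1 (Pf.B 8 2 (Pf.C 0 0x10182121c400) (Pf.B 8 1 (Pf.C 0 0x10181121c400) (Pf.C 4 0x400088))) (Pf.C 4 0xc00089)) (Pf.C 4 0xc00109)) (Pf.C 4 0xc00189)) (Pf.C 4 0xc00209))) (Pf.C 1 905)) (Pf.C 1 1033)) Pf.nil)) (Pf.B 8 2 (Pf.B 8 1 (Pf.W 9 0 [7,8] [1,2,4,6] (Pf.cons (Pf.B 9 8 (Pf.B 9 7 (Pf.B 9 6 (Pf.B 9 4 (Pf.B 9 2 (Pf.C 0 0x18202101c480) (Pf.B 9 1 (Pf.C 0 0x18201101c480) (Pf.C 4 0x400089))) (Pf.B 9 2 (Pf.B 9 1 (Pf.C 0 0x18101101c480) (Pf.C 4 0x800089)) (Pf.C 4 0x800109)))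 (Pf.B 9 4 (Pf.B 9 2 (Pf.B 9 1 (Pf.C 0 0x10101101c480) (Pf.C 4 0xc00089)) (Pf.C 4 0xc00109)) (Pf.C 4 0xc00209))) (Pf.C 1 905)) (Pf.C 1 1033)) Pf.nil)) (Pf.C 4 0x600088)) (Pf.C 4 0x600108))) (Pf.B 8 3 (Pf.B 8 2 (Pf.B 8 1 (Pf.W 9 0 [7,8] [1,2,3,6] (Pf.cons (Pf.B 9 8 (Pf.B 9 7 (Pf.B 9 6 (Pf.B 9 3 (Pf.B 9 2 (Pf.C 0 0x18182101c480) (Pf.B 9 1 (Pf.C 0 0x18181101c480) (Pf.C 4 0x400089))) (Pf.B 9 2 (Pf.B 9 1 (Pf.C 0 0x18101101c480) (Pf.C 4 0x600089)) (Pf.C 4 0x600109))) (Pf.B 9 3 (Pf.B 9 2 (Pf.B 9 1 (Pf.C 0 0xc101101c480) (Pf.C 4 0xc00089)) (Pf.C 4 0xc00109)) (Pf.C 4 0xc00189))) (Pf.C 1 905)) (Pf.C 1 1033)) Pf.nil)) (Pf.C 4 0x800088)) (Pf.C 4 0x800108)) (Pf.C 4 0x800188))) (Pf.B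 8 4 (Pf.B 8 3 (Pf.B 8 2 (Pf.B 8 1 (Pf.W 9 0 [7,8] [1,2,3,4] (Pf.cons (Pf.B 9 8 (Pf.B 9 7 (Pf.B 9 4 (Pf.B 9 3 (Pf.B 9 2 (Pf.C 0 0x10182101c480) (Pf.B 9 1 (Pf.C 0 0x10181101c480) (Pf.C 4 0x400089))) (Pf.B 9 2 (Pf.B 9 1 (Pf.C 0 0x10101101c480) (Pf.C 4 0x600089)) (Pf.C 4 0x600109))) (Pf.B 9 3 (Pf.B 9 2 (Pf.B 9 1 (Pf.C 0 0xc101101c480) (Pf.C 4 0x800089)) (Pf.C 4 0x800109)) (Pf.C 4 0x800189))) (Pf.C 1 905)) (Pf.C 1 1033)) Pf.nil)) (Pf.C 4 0xc00088)) (Pf.C 4 0xc00108)) (Pf.C 4 0xc00188)) (Pf.C 4 0xc00208))) (Pf.C 1 904)) Pf.nil)) (Pf.C 4 0xa00087)) (Pf.C 4 0xa00107)) (Pf.C 4 0xa00187)) (Pf.C 4 0xa00207))) (Pf.B 7 5 (Pf.B 7 4 (Pf.B 7 3 (Pf.B 7 2 (Pf.B 7 1 (Pf.W 9 0 [7] [1,2,3,4,5]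 (Pf.cons (Pf.B 8 7 (Pf.B 8 5 (Pf.B 8 4 (Pf.B 8 3 (Pf.W 9 0 [7,8] [1,2,3,4,5] (Pf.cons (Pf.B 9 8 (Pf.B 9 7 (Pf.B 9 5 (Pf.B 9 4 (Pf.B 9 3 (Pf.C 0 0x14203101c480) (Pf.B 9 2 (Pf.B 9 1 (Pf.B 8 2 (Pf.C 0 0x14202121c400) (Pf.B 8 1 (Pf.C 0 0x14201121c400) (Pf.C 4 0x400088))) (Pf.C 4 0x600089)) (Pf.C 4 0x600109))) (Pf.B 9 3 (Pf.B 9 2 (Pf.B 9 1 (Pf.B 8 2 (Pf.C 0 0x14182121c400) (Pf.B 8 1 (Pf.C 0 0x14181121c400) (Pf.C 4 0x400088))) (Pf.C 4 0x800089)) (Pf.C 4 0x800109)) (Pf.C 4 0x800189))) (Pf.B 9 4 (Pf.B 9 3 (Pf.B 9 2 (Pf.B 9 1 (Pf.B 8 2 (Pf.C 0 0x10182121c400) (Pf.B 8 1 (Pf.C 0 0x10181121c400) (Pf.C 4 0x400088))) (Pf.C 4 0xa00089)) (Pf.C 4 0xa00109)) (Pf.C 4 0xa00189)) (Pf.C 4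 0xa00209))) (Pf.C 1 905)) (Pf.C 1 1033)) Pf.nil)) (Pf.B 8 2 (Pf.B 8 1 (Pf.W 9 0 [7,8] [1,2,4,5] (Pf.cons (Pf.B 9 8 (Pf.B 9 7 (Pf.B 9 5 (Pf.B 9 4 (Pf.B 9 2 (Pf.C 0 0x14202101c480) (Pf.B 9 1 (Pf.C 0 0x14201101c480) (Pf.C 4 0x400089))) (Pf.B 9 2 (Pf.B 9 1 (Pf.C 0 0x14101101c480) (Pf.C 4 0x800089)) (Pf.C 4 0x800109))) (Pf.B 9 4 (Pf.B 9 2 (Pf.B 9 1 (Pf.C 0 0x10101101c480) (Pf.C 4 0xa00089)) (Pf.C 4 0xa00109)) (Pf.C 4 0xa00209))) (Pf.C 1 905)) (Pf.C 1 1033)) Pf.nil)) (Pf.C 4 0x600088)) (Pf.C 4 0x600108))) (Pf.B 8 3 (Pf.B 8 2 (Pf.B 8 1 (Pf.W 9 0 [7,8] [1,2,3,5] (Pf.cons (Pf.B 9 8 (Pf.B 9 7 (Pf.B 9 5 (Pf.B 9 3 (Pf.B 9 2 (Pf.C 0 0x14182101c480) (Pf.B 9 1 (Pf.C 0 0x14181101c480)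 (Pf.C 4 0x400089))) (Pf.B 9 2 (Pf.B 9 1 (Pf.C 0 0x14101101c480) (Pf.C 4 0x600089)) (Pf.C 4 0x600109))) (Pf.B 9 3 (Pf.B 9 2 (Pf.B 9 1 (Pf.C 0 0xc101101c480) (Pf.C 4 0xa00089)) (Pf.C 4 0xa00109)) (Pf.C 4 0xa00189))) (Pf.C 1 905)) (Pf.C 1 1033)) Pf.nil)) (Pf.C 4 0x800088)) (Pf.C 4 0x800108)) (Pf.C 4 0x800188))) (Pf.B 8 4 (Pf.B 8 3 (Pf.B 8 2 (Pf.B 8 1 (Pf.W 9 0 [7,8] [1,2,3,4] (Pf.cons (Pf.B 9 8 (Pf.B 9 7 (Pf.B 9 4 (Pf.B 9 3 (Pf.B 9 2 (Pf.C 0 0x10182101c480) (Pf.B 9 1 (Pf.C 0 0x10181101c480) (Pf.C 4 0x400089))) (Pf.B 9 2 (Pf.B 9 1 (Pf.C 0 0x10101101c480) (Pf.C 4 0x600089)) (Pf.C 4 0x600109))) (Pf.B 9 3 (Pf.B 9 2 (Pf.B 9 1 (Pf.C 0 0xc101101c480) (Pf.C 4 0x800089)) (Pf.C 4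 0x800109)) (Pf.C 4 0x800189))) (Pf.C 1 905)) (Pf.C 1 1033)) Pf.nil)) (Pf.C 4 0xa00088)) (Pf.C 4 0xa00108)) (Pf.C 4 0xa00188)) (Pf.C 4 0xa00208))) (Pf.C 1 904)) Pf.nil)) (Pf.C 4 0xc00087)) (Pf.C 4 0xc00107)) (Pf.C 4 0xc00187)) (Pf.C 4 0xc00207)) (Pf.C 4 0xc00287))) Pf.nil)) (Pf.C 2 3)) (Pf.C 2 131)) (Pf.C 2 259)) (Pf.C 2 4)) (Pf.C 2 132)) (Pf.C 2 260)) (Pf.C 2 5)) (Pf.C 2 133)) (Pf.C 2 261)) (Pf.C 2 6)) (Pf.C 2 134)) (Pf.C 2 262)))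
 (Pq.cons (Pq.L [] 1 (Pf.C 2 515))
 Pq.nil))))))))
theorem bK_o10 : AllRef bK_T bK_G14 (List.drop 7 (hitObl [12,14,15,16,17,18,19,20,21] bK_h18)) :=
  chkPq_sound bK_o10c _ (by decide +kernel)
noncomputable def bK_o11c : Pq := (Pq.cons (Pq.L [] 0 (Pf.C 14 3))
 (Pq.cons (Pq.L [] 0 (Pf.C 15 3))
 (Pq.cons (Pq.L [] 0 (Pf.C 16 3))
 (Pq.cons (Pq.L [] 0 (Pf.C 17 3))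
 (Pq.cons (Pq.L [] 0 (Pf.C 18 3))
 (Pq.cons (Pq.L [] 0 (Pf.C 19 3))
 (Pq.cons (Pq.L [] 0 (Pf.C 20 3))
 (Pq.cons (Pq.L [] 0 (Pf.C 21 3))
 (Pq.cons (Pq.L [] 0 (Pf.C 22 3))
 Pq.nil)))))))))
theorem bK_o11 : AllRef bK_T bK_G15 (List.map pat1 [23,24,25,26,27,28,29,30,22]) :=
  chkPq_sound bK_o11c _ (by decide +kernel)
noncomputable def bK_o12c : Pq := Pq.nil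
theorem bK_o12 : AllRef bK_T bK_G3 (ptObl 3 PT.kid []) :=
  chkPq_sound bK_o12c _ (by decide +kernel)
noncomputable def bK_o13c : Pq := (Pq.cons (Pq.L [0,1,2] 0 (Pf.C 6 0x404003))
 Pq.nil)
theorem bK_o13 : AllRef bK_T bK_G17 (ptObl 6 (PT.br 0 (PT.br 1 (PT.br 2 PT.kid PT.kid) (PT.br 2 PT.kid PT.kid)) (PT.br 1 (PT.br 2 PT.kid PT.kid) (PT.br 2 PT.kid PT.ref))) []) :=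
  chkPq_sound bK_o13c _ (by decide +kernel)
noncomputable def bK_o14c : Pq := (Pq.cons (Pq.L [0] 7 (Pf.W 3 0 [] [3,4,5] (Pf.cons (Pf.B 6 5 (Pf.B 6 4 (Pf.B 6 3 (Pf.T 6 1 (Pf.cons (Pf.W 3 0 [6] [3,4,5] (Pf.cons (Pf.B 7 6 (Pf.B 7 5 (Pf.B 7 4 (Pf.B 7 3 (Pf.W 3 0 [6,7] [3,4,5] (Pf.cons (Pf.B 8 7 (Pf.B 8 6 (Pf.B 8 5 (Pf.B 8 4 (Pf.B 8 3 (Pf.C 0 0x142030e18400) (Pf.C 2 392)) (Pf.C 2 520)) (Pf.C 2 648)) (Pf.C 2 776)) (Pf.C 2 904)) Pf.nil)) (Pf.C 2 391)) (Pf.C 2 519)) (Pf.C 2 647)) (Pf.C 2 775)) Pf.nil)) (Pf.cons (Pf.W 3 0 [6] [3,4,5] (Pf.cons (Pf.B 7 6 (Pf.B 7 5 (Pf.B 7 4 (Pf.B 7 3 (Pf.W 3 0 [6,7] [3,4,5] (Pf.cons (Pf.B 8 7 (Pf.B 8 6 (Pf.B 8 5 (Pf.B 8 4 (Pf.B 8 3 (Pf.C 0 0x142030e18400)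 (Pf.C 2 392)) (Pf.C 2 520)) (Pf.C 2 648)) (Pf.C 2 776)) (Pf.C 2 904)) Pf.nil)) (Pf.C 2 391)) (Pf.C 2 519)) (Pf.C 2 647)) (Pf.C 2 775)) Pf.nil)) Pf.nil))) (Pf.C 2 390)) (Pf.C 2 518)) (Pf.C 2 646)) Pf.nil)))
 (Pq.cons (Pq.L [] 1 (Pf.C 2 515))
 (Pq.cons (Pq.L [0] 7 (Pf.W 3 0 [] [3,4,5] (Pf.cons (Pf.B 6 5 (Pf.B 6 4 (Pf.B 6 3 (Pf.T 6 1 (Pf.cons (Pf.W 3 0 [6] [3,4,5] (Pf.cons (Pf.B 7 6 (Pf.B 7 5 (Pf.B 7 4 (Pf.B 7 3 (Pf.W 3 0 [6,7] [3,4,5] (Pf.cons (Pf.B 8 7 (Pf.B 8 6 (Pf.B 8 5 (Pf.B 8 4 (Pf.B 8 3 (Pf.C 0 0x142030e18400) (Pf.C 2 392)) (Pf.C 2 520)) (Pf.C 2 648)) (Pf.C 2 776)) (Pf.C 2 904)) Pf.nil)) (Pf.C 2 391)) (Pf.C 2 519)) (Pf.C 2 647)) (Pf.C 2 775)) Pf.nil)) (Pf.cons (Pf.W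 3 0 [6] [3,4,5] (Pf.cons (Pf.B 7 6 (Pf.B 7 5 (Pf.B 7 4 (Pf.B 7 3 (Pf.W 3 0 [6,7] [3,4,5] (Pf.cons (Pf.B 8 7 (Pf.B 8 6 (Pf.B 8 5 (Pf.B 8 4 (Pf.B 8 3 (Pf.C 0 0x142030e18400) (Pf.C 2 392)) (Pf.C 2 520)) (Pf.C 2 648)) (Pf.C 2 776)) (Pf.C 2 904)) Pf.nil)) (Pf.C 2 391)) (Pf.C 2 519)) (Pf.C 2 647)) (Pf.C 2 775)) Pf.nil)) Pf.nil))) (Pf.C 2 390)) (Pf.C 2 518)) (Pf.C 2 646)) Pf.nil)))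
 (Pq.cons (Pq.L [] 1 (Pf.C 2 515))
 (Pq.cons (Pq.L [0] 7 (Pf.W 3 0 [] [3,4,5] (Pf.cons (Pf.B 6 5 (Pf.B 6 4 (Pf.B 6 3 (Pf.T 6 1 (Pf.cons (Pf.W 3 0 [6] [3,4,5] (Pf.cons (Pf.B 7 6 (Pf.B 7 5 (Pf.B 7 4 (Pf.B 7 3 (Pf.W 3 0 [6,7] [3,4,5] (Pf.cons (Pf.B 8 7 (Pf.B 8 6 (Pf.B 8 5 (Pf.B 8 4 (Pf.B 8 3 (Pf.C 0 0x142030e18400) (Pf.C 2 392)) (Pf.C 2 520)) (Pf.C 2 648)) (Pf.C 2 776)) (Pf.C 2 904)) Pf.nil)) (Pf.C 2 391)) (Pf.C 2 519)) (Pf.C 2 647)) (Pf.C 2 775)) Pf.nil)) (Pf.cons (Pf.W 3 0 [6] [3,4,5] (Pf.cons (Pf.B 7 6 (Pf.B 7 5 (Pf.B 7 4 (Pf.B 7 3 (Pf.W 3 0 [6,7] [3,4,5] (Pf.cons (Pf.B 8 7 (Pf.B 8 6 (Pf.B 8 5 (Pf.B 8 4 (Pf.B 8 3 (Pf.C 0 0x142030e18400) (Pf.C 2 392)) (Pf.C 2 520)) (Pf.C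 2 648)) (Pf.C 2 776)) (Pf.C 2 904)) Pf.nil)) (Pf.C 2 391)) (Pf.C 2 519)) (Pf.C 2 647)) (Pf.C 2 775)) Pf.nil)) Pf.nil))) (Pf.C 2 390)) (Pf.C 2 518)) (Pf.C 2 646)) Pf.nil)))
 (Pq.cons (Pq.L [] 1 (Pf.C 2 515))
 (Pq.cons (Pq.L [0] 7 (Pf.W 3 0 [] [3,4,5] (Pf.cons (Pf.B 6 5 (Pf.B 6 4 (Pf.B 6 3 (Pf.T 6 1 (Pf.cons (Pf.W 3 0 [6] [3,4,5] (Pf.cons (Pf.B 7 6 (Pf.B 7 5 (Pf.B 7 4 (Pf.B 7 3 (Pf.W 3 0 [6,7] [3,4,5] (Pf.cons (Pf.B 8 7 (Pf.B 8 6 (Pf.B 8 5 (Pf.B 8 4 (Pf.B 8 3 (Pf.C 0 0x142030e18400) (Pf.C 2 392)) (Pf.C 2 520)) (Pf.C 2 648)) (Pf.C 2 776)) (Pf.C 2 904)) Pf.nil)) (Pf.C 2 391)) (Pf.C 2 519)) (Pf.C 2 647)) (Pf.C 2 775)) Pf.nil)) (Pf.cons (Pf.W 3 0 [6] [3,4,5] (Pf.cons (Pf.B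 7 6 (Pf.B 7 5 (Pf.B 7 4 (Pf.B 7 3 (Pf.W 3 0 [6,7] [3,4,5] (Pf.cons (Pf.B 8 7 (Pf.B 8 6 (Pf.B 8 5 (Pf.B 8 4 (Pf.B 8 3 (Pf.C 0 0x142030e18400) (Pf.C 2 392)) (Pf.C 2 520)) (Pf.C 2 648)) (Pf.C 2 776)) (Pf.C 2 904)) Pf.nil)) (Pf.C 2 391)) (Pf.C 2 519)) (Pf.C 2 647)) (Pf.C 2 775)) Pf.nil)) Pf.nil))) (Pf.C 2 390)) (Pf.C 2 518)) (Pf.C 2 646)) Pf.nil)))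
 (Pq.cons (Pq.L [] 1 (Pf.C 2 515))
 (Pq.cons (Pq.L [1] 7 (Pf.W 3 1 [] [3,4,5] (Pf.cons (Pf.B 6 5 (Pf.B 6 4 (Pf.B 6 3 (Pf.T 6 1 (Pf.cons (Pf.W 3 1 [6] [3,4,5] (Pf.cons (Pf.B 7 6 (Pf.B 7 5 (Pf.B 7 4 (Pf.B 7 3 (Pf.W 3 1 [6,7] [3,4,5] (Pf.cons (Pf.B 8 7 (Pf.B 8 6 (Pf.B 8 5 (Pf.B 8 4 (Pf.B 8 3 (Pf.C 0 0x142030e18401) (Pf.C 2 392)) (Pf.C 2 520)) (Pf.C 2 648)) (Pf.C 2 776)) (Pf.C 2 904)) Pf.nil)) (Pf.C 2 391)) (Pf.C 2 519)) (Pf.C 2 647)) (Pf.C 2 775)) Pf.nil)) (Pf.cons (Pf.W 3 1 [6] [3,4,5] (Pf.cons (Pf.B 7 6 (Pf.B 7 5 (Pf.B 7 4 (Pf.B 7 3 (Pf.W 3 1 [6,7] [3,4,5] (Pf.cons (Pf.B 8 7 (Pf.B 8 6 (Pf.B 8 5 (Pf.B 8 4 (Pf.B 8 3 (Pf.C 0 0x142030e18401) (Pf.C 2 392)) (Pf.C 2 520)) (Pf.C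 2 648)) (Pf.C 2 776)) (Pf.C 2 904)) Pf.nil)) (Pf.C 2 391)) (Pf.C 2 519)) (Pf.C 2 647)) (Pf.C 2 775)) Pf.nil)) Pf.nil))) (Pf.C 2 390)) (Pf.C 2 518)) (Pf.C 2 646)) Pf.nil)))
 (Pq.cons (Pq.L [] 1 (Pf.C 2 515))
 (Pq.cons (Pq.L [1] 7 (Pf.W 3 1 [] [3,4,5] (Pf.cons (Pf.B 6 5 (Pf.B 6 4 (Pf.B 6 3 (Pf.T 6 1 (Pf.cons (Pf.W 3 1 [6] [3,4,5] (Pf.cons (Pf.B 7 6 (Pf.B 7 5 (Pf.B 7 4 (Pf.B 7 3 (Pf.W 3 1 [6,7] [3,4,5] (Pf.cons (Pf.B 8 7 (Pf.B 8 6 (Pf.B 8 5 (Pf.B 8 4 (Pf.B 8 3 (Pf.C 0 0x142030e18401) (Pf.C 2 392)) (Pf.C 2 520)) (Pf.C 2 648)) (Pf.C 2 776)) (Pf.C 2 904)) Pf.nil)) (Pf.C 2 391)) (Pf.C 2 519)) (Pf.C 2 647)) (Pf.C 2 775)) Pf.nil)) (Pf.cons (Pf.W 3 1 [6] [3,4,5] (Pf.cons (Pf.B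 7 6 (Pf.B 7 5 (Pf.B 7 4 (Pf.B 7 3 (Pf.W 3 1 [6,7] [3,4,5] (Pf.cons (Pf.B 8 7 (Pf.B 8 6 (Pf.B 8 5 (Pf.B 8 4 (Pf.B 8 3 (Pf.C 0 0x142030e18401) (Pf.C 2 392)) (Pf.C 2 520)) (Pf.C 2 648)) (Pf.C 2 776)) (Pf.C 2 904)) Pf.nil)) (Pf.C 2 391)) (Pf.C 2 519)) (Pf.C 2 647)) (Pf.C 2 775)) Pf.nil)) Pf.nil))) (Pf.C 2 390)) (Pf.C 2 518)) (Pf.C 2 646)) Pf.nil)))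
 (Pq.cons (Pq.L [] 1 (Pf.C 2 515))
 (Pq.cons (Pq.L [2] 7 (Pf.W 3 2 [] [3,4,5] (Pf.cons (Pf.B 6 5 (Pf.B 6 4 (Pf.B 6 3 (Pf.T 6 1 (Pf.cons (Pf.W 3 2 [6] [3,4,5] (Pf.cons (Pf.B 7 6 (Pf.B 7 5 (Pf.B 7 4 (Pf.B 7 3 (Pf.W 3 2 [6,7] [3,4,5] (Pf.cons (Pf.B 8 7 (Pf.B 8 6 (Pf.B 8 5 (Pf.B 8 4 (Pf.B 8 3 (Pf.C 0 0x142030e18402) (Pf.C 2 392)) (Pf.C 2 520)) (Pf.C 2 648)) (Pf.C 2 776)) (Pf.C 2 904)) Pf.nil)) (Pf.C 2 391)) (Pf.C 2 519)) (Pf.C 2 647)) (Pf.C 2 775)) Pf.nil)) (Pf.cons (Pf.W 3 2 [6] [3,4,5] (Pf.cons (Pf.B 7 6 (Pf.B 7 5 (Pf.B 7 4 (Pf.B 7 3 (Pf.W 3 2 [6,7] [3,4,5] (Pf.cons (Pf.B 8 7 (Pf.B 8 6 (Pf.B 8 5 (Pf.B 8 4 (Pf.B 8 3 (Pf.C 0 0x142030e18402) (Pf.C 2 392)) (Pf.C 2 520)) (Pf.C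 2 648)) (Pf.C 2 776)) (Pf.C 2 904)) Pf.nil)) (Pf.C 2 391)) (Pf.C 2 519)) (Pf.C 2 647)) (Pf.C 2 775)) Pf.nil)) Pf.nil))) (Pf.C 2 390)) (Pf.C 2 518)) (Pf.C 2 646)) Pf.nil)))
 (Pq.cons (Pq.L [] 1 (Pf.C 2 515))
 Pq.nil))))))))))))))
theorem bK_o14 : AllRef bK_T bK_G18 (hitObl [32,33,34,35,36,37,38] bK_h24) :=
  chkPq_sound bK_o14c _ (by decide +kernel)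
noncomputable def bK_o15c : Pq := (Pq.cons (Pq.L [] 0 (Pf.C 23 3))
 (Pq.cons (Pq.L [] 0 (Pf.C 24 3))
 (Pq.cons (Pq.L [] 0 (Pf.C 25 3))
 (Pq.cons (Pq.L [] 0 (Pf.C 26 3))
 (Pq.cons (Pq.L [] 0 (Pf.C 27 3))
 (Pq.cons (Pq.L [] 0 (Pf.C 28 3))
 (Pq.cons (Pq.L [] 0 (Pf.C 29 3))
 Pq.nil)))))))
theorem bK_o15 : AllRef bK_T bK_G19 (List.map pat1 [39,40,41,42,43,44,45]) :=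
  chkPq_sound bK_o15c _ (by decide +kernel)
noncomputable def bK_o16c : Pq := (Pq.cons (Pq.L [] 0 (Pf.B 5 4 (Pf.B 5 3 (Pf.B 4 3 (Pf.C 30 82308) (Pf.C 2 388)) (Pf.C 2 389)) (Pf.C 2 517)))
 Pq.nil)
theorem bK_o16 : AllRef bK_T bK_G21 (hitObl [5] bK_h27) :=
  chkPq_sound bK_o16c _ (by decide +kernel)
noncomputable def bK_o17c : Pq := (Pq.cons (Pq.L [] 0 (Pf.C 31 3))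
 Pq.nil)
theorem bK_o17 : AllRef bK_T bK_G23 (List.map pat1 [46]) :=
  chkPq_sound bK_o17c _ (by decide +kernel)
noncomputable def bK_o18c : Pq := (Pq.cons (Pq.L [] 1 (Pf.C 1 515))
 Pq.nil)
theorem bK_o18 : AllRef bK_T bK_G24 (splitObl [31] [4]) :=
  chkPq_sound bK_o18c _ (by decide +kernel)
noncomputable def bK_o19c : Pq := (Pq.cons (Pq.L [] 1 (Pf.C 1 515))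
 Pq.nil)
theorem bK_o19 : AllRef bK_T bK_G24 (applyObl TD2 1 [31] [0] []) :=
  chkPq_sound bK_o19c _ (by decide +kernel)
noncomputable def bK_o20c : Pq := (Pq.cons (Pq.L [] 1 (Pf.C 1 515))
 Pq.nil)
theorem bK_o20 : AllRef bK_T bK_G24 (applyObl TD2 1 [4] [0] []) :=
  chkPq_sound bK_o20c _ (by decide +kernel)
noncomputable def bK_o21c : Pq := (Pq.cons (Pq.L [3,4,5] 0 (Pf.C 4 0xa10186))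
 Pq.nil)
theorem bK_o21 : AllRef bK_T bK_G22 (ptObl 4 (PT.br 3 (PT.br 4 (PT.br 5 PT.kid PT.kid) (PT.br 5 PT.kid PT.kid)) (PT.br 4 (PT.br 5 PT.kid PT.kid) (PT.br 5 PT.kid PT.ref))) []) :=
  chkPq_sound bK_o21c _ (by decide +kernel)
noncomputable def bK_o22c : Pq := Pq.nil
theorem bK_o22 : AllRef bK_T bK_G25 (ptObl 5 PT.kid []) :=
  chkPq_sound bK_o22c _ (by decide +kernel)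
noncomputable def bK_o23c : Pq := (Pq.cons (Pq.L [0,1,2,3] 7 (Pf.B 8 2 (Pf.B 8 1 (Pf.B 8 0 (Pf.B 7 2 (Pf.B 7 1 (Pf.B 7 0 (Pf.B 6 2 (Pf.B 6 1 (Pf.B 6 0 (Pf.W 5 3 [] [0,1,2,6,7,8] (Pf.cons (Pf.W 5 3 [0] [1,2,6,7,8] (Pf.cons (Pf.W 5 3 [0,1] [6,7,8] (Pf.cons (Pf.B 9 8 (Pf.B 9 7 (Pf.B 9 6 (Pf.B 9 1 (Pf.B 9 0 (Pf.C 0 0x203860200483) (Pf.C 1 9)) (Pf.C 1 137)) (Pf.C 1 777)) (Pf.C 1 905)) (Pf.C 1 1033)) Pf.nil)) (Pf.cons (Pf.W 5 3 [0,2] [6,7,8] (Pf.cons (Pf.B 9 8 (Pf.B 9 7 (Pf.B 9 6 (Pf.B 9 2 (Pf.B 9 0 (Pf.C 0 0x203860400483) (Pf.C 1 9)) (Pf.C 1 265)) (Pf.C 1 777)) (Pf.C 1 905)) (Pf.C 1 1033)) Pf.nil)) (Pf.cons (Pf.B 9 8 (Pf.B 9 7 (Pf.B 9 6 (Pf.B 9 0 (Pf.T 9 5 (Pf.cons (Pf.W 5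 3 [0,9] [6,7,8] (Pf.cons (Pf.B 10 9 (Pf.B 10 8 (Pf.B 10 7 (Pf.B 10 6 (Pf.B 10 0 (Pf.C 0 0x203861200503) (Pf.C 1 10)) (Pf.C 1 778)) (Pf.C 1 906)) (Pf.C 1 1034)) (Pf.C 1 1162)) Pf.nil)) Pf.nil)) (Pf.C 1 9)) (Pf.C 1 777)) (Pf.C 1 905)) (Pf.C 1 1033)) Pf.nil)))) (Pf.cons (Pf.W 5 3 [1] [0,2,6,7,8] (Pf.cons (Pf.W 5 3 [0,1] [6,7,8] (Pf.cons (Pf.B 9 8 (Pf.B 9 7 (Pf.B 9 6 (Pf.B 9 1 (Pf.B 9 0 (Pf.C 0 0x203860200483) (Pf.C 1 9)) (Pf.C 1 137)) (Pf.C 1 777)) (Pf.C 1 905)) (Pf.C 1 1033)) Pf.nil)) (Pf.cons (Pf.W 5 3 [1,2] [6,7,8] (Pf.cons (Pf.B 9 8 (Pf.B 9 7 (Pf.B 9 6 (Pf.B 9 2 (Pf.B 9 1 (Pf.C 0 0x203860404483) (Pf.C 1 137)) (Pf.C 1 265)) (Pf.C 1 777)) (Pf.C 1 905)) (Pf.C 1 1033)) Pf.nil))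 (Pf.cons (Pf.B 9 8 (Pf.B 9 7 (Pf.B 9 6 (Pf.B 9 1 (Pf.T 9 5 (Pf.cons (Pf.W 5 3 [1,9] [6,7,8] (Pf.cons (Pf.B 10 9 (Pf.B 10 8 (Pf.B 10 7 (Pf.B 10 6 (Pf.B 10 1 (Pf.C 0 0x203861204503) (Pf.C 1 138)) (Pf.C 1 778)) (Pf.C 1 906)) (Pf.C 1 1034)) (Pf.C 1 1162)) Pf.nil)) Pf.nil)) (Pf.C 1 137)) (Pf.C 1 777)) (Pf.C 1 905)) (Pf.C 1 1033)) Pf.nil)))) (Pf.cons (Pf.W 5 3 [2] [0,1,6,7,8] (Pf.cons (Pf.W 5 3 [0,2] [6,7,8] (Pf.cons (Pf.B 9 8 (Pf.B 9 7 (Pf.B 9 6 (Pf.B 9 2 (Pf.B 9 0 (Pf.C 0 0x203860400483) (Pf.C 1 9)) (Pf.C 1 265)) (Pf.C 1 777)) (Pf.C 1 905)) (Pf.C 1 1033)) Pf.nil)) (Pf.cons (Pf.W 5 3 [1,2] [6,7,8] (Pf.cons (Pf.B 9 8 (Pf.B 9 7 (Pf.B 9 6 (Pf.B 9 2 (Pf.B 9 1 (Pf.C 0 0x203860404483)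 (Pf.C 1 137)) (Pf.C 1 265)) (Pf.C 1 777)) (Pf.C 1 905)) (Pf.C 1 1033)) Pf.nil)) (Pf.cons (Pf.B 9 8 (Pf.B 9 7 (Pf.B 9 6 (Pf.B 9 2 (Pf.T 9 5 (Pf.cons (Pf.W 5 3 [2,9] [6,7,8] (Pf.cons (Pf.B 10 9 (Pf.B 10 8 (Pf.B 10 7 (Pf.B 10 6 (Pf.B 10 2 (Pf.C 0 0x203861208503) (Pf.C 1 266)) (Pf.C 1 778)) (Pf.C 1 906)) (Pf.C 1 1034)) (Pf.C 1 1162)) Pf.nil)) Pf.nil)) (Pf.C 1 265)) (Pf.C 1 777)) (Pf.C 1 905)) (Pf.C 1 1033)) Pf.nil)))) (Pf.cons (Pf.B 9 8 (Pf.B 9 7 (Pf.B 9 6 (Pf.B 9 2 (Pf.B 9 1 (Pf.B 9 0 (Pf.T 9 5 (Pf.cons (Pf.W 5 3 [9] [0,1,2,6,7,8] (Pf.cons (Pf.W 5 3 [0,9] [6,7,8] (Pf.cons (Pf.B 10 9 (Pf.B 10 8 (Pf.B 10 7 (Pf.B 10 6 (Pf.B 10 0 (Pf.C 0 0x203861200503) (Pf.C 1 10)) (Pf.C 1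 778)) (Pf.C 1 906)) (Pf.C 1 1034)) (Pf.C 1 1162)) Pf.nil)) (Pf.cons (Pf.W 5 3 [1,9] [6,7,8] (Pf.cons (Pf.B 10 9 (Pf.B 10 8 (Pf.B 10 7 (Pf.B 10 6 (Pf.B 10 1 (Pf.C 0 0x203861204503) (Pf.C 1 138)) (Pf.C 1 778)) (Pf.C 1 906)) (Pf.C 1 1034)) (Pf.C 1 1162)) Pf.nil)) (Pf.cons (Pf.W 5 3 [2,9] [6,7,8] (Pf.cons (Pf.B 10 9 (Pf.B 10 8 (Pf.B 10 7 (Pf.B 10 6 (Pf.B 10 2 (Pf.C 0 0x203861208503) (Pf.C 1 266)) (Pf.C 1 778)) (Pf.C 1 906)) (Pf.C 1 1034)) (Pf.C 1 1162)) Pf.nil)) (Pf.cons (Pf.B 10 9 (Pf.B 10 8 (Pf.B 10 7 (Pf.B 10 6 (Pf.T 10 5 (Pf.cons (Pf.W 5 3 [9,10] [6,7,8] (Pf.cons (Pf.B 11 10 (Pf.B 11 9 (Pf.B 11 8 (Pf.B 11 7 (Pf.B 11 6 (Pf.C 0 0x203861424583) (Pf.C 1 779)) (Pf.C 1 907))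 (Pf.C 1 1035)) (Pf.C 1 1163)) (Pf.C 1 1291)) Pf.nil)) Pf.nil)) (Pf.C 1 778)) (Pf.C 1 906)) (Pf.C 1 1034)) (Pf.C 1 1162)) Pf.nil))))) Pf.nil)) (Pf.C 1 9)) (Pf.C 1 137)) (Pf.C 1 265)) (Pf.C 1 777)) (Pf.C 1 905)) (Pf.C 1 1033)) Pf.nil))))) (Pf.C 1 6)) (Pf.C 1 134)) (Pf.C 1 262)) (Pf.C 1 7)) (Pf.C 1 135)) (Pf.C 1 263)) (Pf.C 1 8)) (Pf.C 1 136)) (Pf.C 1 264)))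
 (Pq.cons (Pq.L [] 1 (Pf.C 1 902))
 (Pq.cons (Pq.L [0,1,2,3] 7 (Pf.B 8 2 (Pf.B 8 1 (Pf.B 8 0 (Pf.B 7 2 (Pf.B 7 1 (Pf.B 7 0 (Pf.B 6 2 (Pf.B 6 1 (Pf.B 6 0 (Pf.W 5 3 [] [0,1,2,6,7,8] (Pf.cons (Pf.W 5 3 [0] [1,2,6,7,8] (Pf.cons (Pf.W 5 3 [0,1] [6,7,8] (Pf.cons (Pf.B 9 8 (Pf.B 9 7 (Pf.B 9 6 (Pf.B 9 1 (Pf.B 9 0 (Pf.C 0 0x203860200483) (Pf.C 1 9)) (Pf.C 1 137)) (Pf.C 1 777)) (Pf.C 1 905)) (Pf.C 1 1033)) Pf.nil)) (Pf.cons (Pf.W 5 3 [0,2] [6,7,8] (Pf.cons (Pf.B 9 8 (Pf.B 9 7 (Pf.B 9 6 (Pf.B 9 2 (Pf.B 9 0 (Pf.C 0 0x203860400483) (Pf.C 1 9)) (Pf.C 1 265)) (Pf.C 1 777)) (Pf.C 1 905)) (Pf.C 1 1033)) Pf.nil)) (Pf.cons (Pf.B 9 8 (Pf.B 9 7 (Pf.B 9 6 (Pf.B 9 0 (Pf.T 9 5 (Pf.cons (Pf.W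 5 3 [0,9] [6,7,8] (Pf.cons (Pf.B 10 9 (Pf.B 10 8 (Pf.B 10 7 (Pf.B 10 6 (Pf.B 10 0 (Pf.C 0 0x203861200503) (Pf.C 1 10)) (Pf.C 1 778)) (Pf.C 1 906)) (Pf.C 1 1034)) (Pf.C 1 1162)) Pf.nil)) Pf.nil)) (Pf.C 1 9)) (Pf.C 1 777)) (Pf.C 1 905)) (Pf.C 1 1033)) Pf.nil)))) (Pf.cons (Pf.W 5 3 [1] [0,2,6,7,8] (Pf.cons (Pf.W 5 3 [0,1] [6,7,8] (Pf.cons (Pf.B 9 8 (Pf.B 9 7 (Pf.B 9 6 (Pf.B 9 1 (Pf.B 9 0 (Pf.C 0 0x203860200483) (Pf.C 1 9)) (Pf.C 1 137)) (Pf.C 1 777)) (Pf.C 1 905)) (Pf.C 1 1033)) Pf.nil)) (Pf.cons (Pf.W 5 3 [1,2] [6,7,8] (Pf.cons (Pf.B 9 8 (Pf.B 9 7 (Pf.B 9 6 (Pf.B 9 2 (Pf.B 9 1 (Pf.C 0 0x203860404483) (Pf.C 1 137)) (Pf.C 1 265)) (Pf.C 1 777)) (Pf.C 1 905)) (Pf.C 1 1033))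 Pf.nil)) (Pf.cons (Pf.B 9 8 (Pf.B 9 7 (Pf.B 9 6 (Pf.B 9 1 (Pf.T 9 5 (Pf.cons (Pf.W 5 3 [1,9] [6,7,8] (Pf.cons (Pf.B 10 9 (Pf.B 10 8 (Pf.B 10 7 (Pf.B 10 6 (Pf.B 10 1 (Pf.C 0 0x203861204503) (Pf.C 1 138)) (Pf.C 1 778)) (Pf.C 1 906)) (Pf.C 1 1034)) (Pf.C 1 1162)) Pf.nil)) Pf.nil)) (Pf.C 1 137)) (Pf.C 1 777)) (Pf.C 1 905)) (Pf.C 1 1033)) Pf.nil)))) (Pf.cons (Pf.W 5 3 [2] [0,1,6,7,8] (Pf.cons (Pf.W 5 3 [0,2] [6,7,8] (Pf.cons (Pf.B 9 8 (Pf.B 9 7 (Pf.B 9 6 (Pf.B 9 2 (Pf.B 9 0 (Pf.C 0 0x203860400483) (Pf.C 1 9)) (Pf.C 1 265)) (Pf.C 1 777)) (Pf.C 1 905)) (Pf.C 1 1033)) Pf.nil)) (Pf.cons (Pf.W 5 3 [1,2] [6,7,8] (Pf.cons (Pf.B 9 8 (Pf.B 9 7 (Pf.B 9 6 (Pf.B 9 2 (Pf.B 9 1 (Pf.C 0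 0x203860404483) (Pf.C 1 137)) (Pf.C 1 265)) (Pf.C 1 777)) (Pf.C 1 905)) (Pf.C 1 1033)) Pf.nil)) (Pf.cons (Pf.B 9 8 (Pf.B 9 7 (Pf.B 9 6 (Pf.B 9 2 (Pf.T 9 5 (Pf.cons (Pf.W 5 3 [2,9] [6,7,8] (Pf.cons (Pf.B 10 9 (Pf.B 10 8 (Pf.B 10 7 (Pf.B 10 6 (Pf.B 10 2 (Pf.C 0 0x203861208503) (Pf.C 1 266)) (Pf.C 1 778)) (Pf.C 1 906)) (Pf.C 1 1034)) (Pf.C 1 1162)) Pf.nil)) Pf.nil)) (Pf.C 1 265)) (Pf.C 1 777)) (Pf.C 1 905)) (Pf.C 1 1033)) Pf.nil)))) (Pf.cons (Pf.B 9 8 (Pf.B 9 7 (Pf.B 9 6 (Pf.B 9 2 (Pf.B 9 1 (Pf.B 9 0 (Pf.T 9 5 (Pf.cons (Pf.W 5 3 [9] [0,1,2,6,7,8] (Pf.cons (Pf.W 5 3 [0,9] [6,7,8] (Pf.cons (Pf.B 10 9 (Pf.B 10 8 (Pf.B 10 7 (Pf.B 10 6 (Pf.B 10 0 (Pf.C 0 0x203861200503) (Pf.C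 1 10)) (Pf.C 1 778)) (Pf.C 1 906)) (Pf.C 1 1034)) (Pf.C 1 1162)) Pf.nil)) (Pf.cons (Pf.W 5 3 [1,9] [6,7,8] (Pf.cons (Pf.B 10 9 (Pf.B 10 8 (Pf.B 10 7 (Pf.B 10 6 (Pf.B 10 1 (Pf.C 0 0x203861204503) (Pf.C 1 138)) (Pf.C 1 778)) (Pf.C 1 906)) (Pf.C 1 1034)) (Pf.C 1 1162)) Pf.nil)) (Pf.cons (Pf.W 5 3 [2,9] [6,7,8] (Pf.cons (Pf.B 10 9 (Pf.B 10 8 (Pf.B 10 7 (Pf.B 10 6 (Pf.B 10 2 (Pf.C 0 0x203861208503) (Pf.C 1 266)) (Pf.C 1 778)) (Pf.C 1 906)) (Pf.C 1 1034)) (Pf.C 1 1162)) Pf.nil)) (Pf.cons (Pf.B 10 9 (Pf.B 10 8 (Pf.B 10 7 (Pf.B 10 6 (Pf.T 10 5 (Pf.cons (Pf.W 5 3 [9,10] [6,7,8] (Pf.cons (Pf.B 11 10 (Pf.B 11 9 (Pf.B 11 8 (Pf.B 11 7 (Pf.B 11 6 (Pf.C 0 0x203861424583) (Pf.C 1 779))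 (Pf.C 1 907)) (Pf.C 1 1035)) (Pf.C 1 1163)) (Pf.C 1 1291)) Pf.nil)) Pf.nil)) (Pf.C 1 778)) (Pf.C 1 906)) (Pf.C 1 1034)) (Pf.C 1 1162)) Pf.nil))))) Pf.nil)) (Pf.C 1 9)) (Pf.C 1 137)) (Pf.C 1 265)) (Pf.C 1 777)) (Pf.C 1 905)) (Pf.C 1 1033)) Pf.nil))))) (Pf.C 1 6)) (Pf.C 1 134)) (Pf.C 1 262)) (Pf.C 1 7)) (Pf.C 1 135)) (Pf.C 1 263)) (Pf.C 1 8)) (Pf.C 1 136)) (Pf.C 1 264)))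
 (Pq.cons (Pq.L [] 1 (Pf.C 1 902))
 (Pq.cons (Pq.L [0,1,2,3] 7 (Pf.B 8 2 (Pf.B 8 1 (Pf.B 8 0 (Pf.B 7 2 (Pf.B 7 1 (Pf.B 7 0 (Pf.B 6 2 (Pf.B 6 1 (Pf.B 6 0 (Pf.W 5 3 [] [0,1,2,6,7,8] (Pf.cons (Pf.W 5 3 [0] [1,2,6,7,8] (Pf.cons (Pf.W 5 3 [0,1] [6,7,8] (Pf.cons (Pf.B 9 8 (Pf.B 9 7 (Pf.B 9 6 (Pf.B 9 1 (Pf.B 9 0 (Pf.C 0 0x203860200483) (Pf.C 1 9)) (Pf.C 1 137)) (Pf.C 1 777)) (Pf.C 1 905)) (Pf.C 1 1033)) Pf.nil)) (Pf.cons (Pf.W 5 3 [0,2] [6,7,8] (Pf.cons (Pf.B 9 8 (Pf.B 9 7 (Pf.B 9 6 (Pf.B 9 2 (Pf.B 9 0 (Pf.C 0 0x203860400483) (Pf.C 1 9)) (Pf.C 1 265)) (Pf.C 1 777)) (Pf.C 1 905)) (Pf.C 1 1033)) Pf.nil)) (Pf.cons (Pf.B 9 8 (Pf.B 9 7 (Pf.B 9 6 (Pf.B 9 0 (Pf.T 9 5 (Pf.cons (Pf.W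 5 3 [0,9] [6,7,8] (Pf.cons (Pf.B 10 9 (Pf.B 10 8 (Pf.B 10 7 (Pf.B 10 6 (Pf.B 10 0 (Pf.C 0 0x203861200503) (Pf.C 1 10)) (Pf.C 1 778)) (Pf.C 1 906)) (Pf.C 1 1034)) (Pf.C 1 1162)) Pf.nil)) Pf.nil)) (Pf.C 1 9)) (Pf.C 1 777)) (Pf.C 1 905)) (Pf.C 1 1033)) Pf.nil)))) (Pf.cons (Pf.W 5 3 [1] [0,2,6,7,8] (Pf.cons (Pf.W 5 3 [0,1] [6,7,8] (Pf.cons (Pf.B 9 8 (Pf.B 9 7 (Pf.B 9 6 (Pf.B 9 1 (Pf.B 9 0 (Pf.C 0 0x203860200483) (Pf.C 1 9)) (Pf.C 1 137)) (Pf.C 1 777)) (Pf.C 1 905)) (Pf.C 1 1033)) Pf.nil)) (Pf.cons (Pf.W 5 3 [1,2] [6,7,8] (Pf.cons (Pf.B 9 8 (Pf.B 9 7 (Pf.B 9 6 (Pf.B 9 2 (Pf.B 9 1 (Pf.C 0 0x203860404483) (Pf.C 1 137)) (Pf.C 1 265)) (Pf.C 1 777)) (Pf.C 1 905)) (Pf.C 1 1033))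 Pf.nil)) (Pf.cons (Pf.B 9 8 (Pf.B 9 7 (Pf.B 9 6 (Pf.B 9 1 (Pf.T 9 5 (Pf.cons (Pf.W 5 3 [1,9] [6,7,8] (Pf.cons (Pf.B 10 9 (Pf.B 10 8 (Pf.B 10 7 (Pf.B 10 6 (Pf.B 10 1 (Pf.C 0 0x203861204503) (Pf.C 1 138)) (Pf.C 1 778)) (Pf.C 1 906)) (Pf.C 1 1034)) (Pf.C 1 1162)) Pf.nil)) Pf.nil)) (Pf.C 1 137)) (Pf.C 1 777)) (Pf.C 1 905)) (Pf.C 1 1033)) Pf.nil)))) (Pf.cons (Pf.W 5 3 [2] [0,1,6,7,8] (Pf.cons (Pf.W 5 3 [0,2] [6,7,8] (Pf.cons (Pf.B 9 8 (Pf.B 9 7 (Pf.B 9 6 (Pf.B 9 2 (Pf.B 9 0 (Pf.C 0 0x203860400483) (Pf.C 1 9)) (Pf.C 1 265)) (Pf.C 1 777)) (Pf.C 1 905)) (Pf.C 1 1033)) Pf.nil)) (Pf.cons (Pf.W 5 3 [1,2] [6,7,8] (Pf.cons (Pf.B 9 8 (Pf.B 9 7 (Pf.B 9 6 (Pf.B 9 2 (Pf.B 9 1 (Pf.C 0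 0x203860404483) (Pf.C 1 137)) (Pf.C 1 265)) (Pf.C 1 777)) (Pf.C 1 905)) (Pf.C 1 1033)) Pf.nil)) (Pf.cons (Pf.B 9 8 (Pf.B 9 7 (Pf.B 9 6 (Pf.B 9 2 (Pf.T 9 5 (Pf.cons (Pf.W 5 3 [2,9] [6,7,8] (Pf.cons (Pf.B 10 9 (Pf.B 10 8 (Pf.B 10 7 (Pf.B 10 6 (Pf.B 10 2 (Pf.C 0 0x203861208503) (Pf.C 1 266)) (Pf.C 1 778)) (Pf.C 1 906)) (Pf.C 1 1034)) (Pf.C 1 1162)) Pf.nil)) Pf.nil)) (Pf.C 1 265)) (Pf.C 1 777)) (Pf.C 1 905)) (Pf.C 1 1033)) Pf.nil)))) (Pf.cons (Pf.B 9 8 (Pf.B 9 7 (Pf.B 9 6 (Pf.B 9 2 (Pf.B 9 1 (Pf.B 9 0 (Pf.T 9 5 (Pf.cons (Pf.W 5 3 [9] [0,1,2,6,7,8] (Pf.cons (Pf.W 5 3 [0,9] [6,7,8] (Pf.cons (Pf.B 10 9 (Pf.B 10 8 (Pf.B 10 7 (Pf.B 10 6 (Pf.B 10 0 (Pf.C 0 0x203861200503) (Pf.C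 1 10)) (Pf.C 1 778)) (Pf.C 1 906)) (Pf.C 1 1034)) (Pf.C 1 1162)) Pf.nil)) (Pf.cons (Pf.W 5 3 [1,9] [6,7,8] (Pf.cons (Pf.B 10 9 (Pf.B 10 8 (Pf.B 10 7 (Pf.B 10 6 (Pf.B 10 1 (Pf.C 0 0x203861204503) (Pf.C 1 138)) (Pf.C 1 778)) (Pf.C 1 906)) (Pf.C 1 1034)) (Pf.C 1 1162)) Pf.nil)) (Pf.cons (Pf.W 5 3 [2,9] [6,7,8] (Pf.cons (Pf.B 10 9 (Pf.B 10 8 (Pf.B 10 7 (Pf.B 10 6 (Pf.B 10 2 (Pf.C 0 0x203861208503) (Pf.C 1 266)) (Pf.C 1 778)) (Pf.C 1 906)) (Pf.C 1 1034)) (Pf.C 1 1162)) Pf.nil)) (Pf.cons (Pf.B 10 9 (Pf.B 10 8 (Pf.B 10 7 (Pf.B 10 6 (Pf.T 10 5 (Pf.cons (Pf.W 5 3 [9,10] [6,7,8] (Pf.cons (Pf.B 11 10 (Pf.B 11 9 (Pf.B 11 8 (Pf.B 11 7 (Pf.B 11 6 (Pf.C 0 0x203861424583) (Pf.C 1 779))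 (Pf.C 1 907)) (Pf.C 1 1035)) (Pf.C 1 1163)) (Pf.C 1 1291)) Pf.nil)) Pf.nil)) (Pf.C 1 778)) (Pf.C 1 906)) (Pf.C 1 1034)) (Pf.C 1 1162)) Pf.nil))))) Pf.nil)) (Pf.C 1 9)) (Pf.C 1 137)) (Pf.C 1 265)) (Pf.C 1 777)) (Pf.C 1 905)) (Pf.C 1 1033)) Pf.nil))))) (Pf.C 1 6)) (Pf.C 1 134)) (Pf.C 1 262)) (Pf.C 1 7)) (Pf.C 1 135)) (Pf.C 1 263)) (Pf.C 1 8)) (Pf.C 1 136)) (Pf.C 1 264)))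
 (Pq.cons (Pq.L [] 1 (Pf.C 1 902))
 (Pq.cons (Pq.L [0,1,2,3] 7 (Pf.B 8 2 (Pf.B 8 1 (Pf.B 8 0 (Pf.B 7 2 (Pf.B 7 1 (Pf.B 7 0 (Pf.B 6 2 (Pf.B 6 1 (Pf.B 6 0 (Pf.W 5 3 [] [0,1,2,6,7,8] (Pf.cons (Pf.W 5 3 [0] [1,2,6,7,8] (Pf.cons (Pf.W 5 3 [0,1] [6,7,8] (Pf.cons (Pf.B 9 8 (Pf.B 9 7 (Pf.B 9 6 (Pf.B 9 1 (Pf.B 9 0 (Pf.C 0 0x203860200483) (Pf.C 1 9)) (Pf.C 1 137)) (Pf.C 1 777)) (Pf.C 1 905)) (Pf.C 1 1033)) Pf.nil)) (Pf.cons (Pf.W 5 3 [0,2] [6,7,8] (Pf.cons (Pf.B 9 8 (Pf.B 9 7 (Pf.B 9 6 (Pf.B 9 2 (Pf.B 9 0 (Pf.C 0 0x203860400483) (Pf.C 1 9)) (Pf.C 1 265)) (Pf.C 1 777)) (Pf.C 1 905)) (Pf.C 1 1033)) Pf.nil)) (Pf.cons (Pf.B 9 8 (Pf.B 9 7 (Pf.B 9 6 (Pf.B 9 0 (Pf.T 9 5 (Pf.cons (Pf.W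 5 3 [0,9] [6,7,8] (Pf.cons (Pf.B 10 9 (Pf.B 10 8 (Pf.B 10 7 (Pf.B 10 6 (Pf.B 10 0 (Pf.C 0 0x203861200503) (Pf.C 1 10)) (Pf.C 1 778)) (Pf.C 1 906)) (Pf.C 1 1034)) (Pf.C 1 1162)) Pf.nil)) Pf.nil)) (Pf.C 1 9)) (Pf.C 1 777)) (Pf.C 1 905)) (Pf.C 1 1033)) Pf.nil)))) (Pf.cons (Pf.W 5 3 [1] [0,2,6,7,8] (Pf.cons (Pf.W 5 3 [0,1] [6,7,8] (Pf.cons (Pf.B 9 8 (Pf.B 9 7 (Pf.B 9 6 (Pf.B 9 1 (Pf.B 9 0 (Pf.C 0 0x203860200483) (Pf.C 1 9)) (Pf.C 1 137)) (Pf.C 1 777)) (Pf.C 1 905)) (Pf.C 1 1033)) Pf.nil)) (Pf.cons (Pf.W 5 3 [1,2] [6,7,8] (Pf.cons (Pf.B 9 8 (Pf.B 9 7 (Pf.B 9 6 (Pf.B 9 2 (Pf.B 9 1 (Pf.C 0 0x203860404483) (Pf.C 1 137)) (Pf.C 1 265)) (Pf.C 1 777)) (Pf.C 1 905)) (Pf.C 1 1033))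 Pf.nil)) (Pf.cons (Pf.B 9 8 (Pf.B 9 7 (Pf.B 9 6 (Pf.B 9 1 (Pf.T 9 5 (Pf.cons (Pf.W 5 3 [1,9] [6,7,8] (Pf.cons (Pf.B 10 9 (Pf.B 10 8 (Pf.B 10 7 (Pf.B 10 6 (Pf.B 10 1 (Pf.C 0 0x203861204503) (Pf.C 1 138)) (Pf.C 1 778)) (Pf.C 1 906)) (Pf.C 1 1034)) (Pf.C 1 1162)) Pf.nil)) Pf.nil)) (Pf.C 1 137)) (Pf.C 1 777)) (Pf.C 1 905)) (Pf.C 1 1033)) Pf.nil)))) (Pf.cons (Pf.W 5 3 [2] [0,1,6,7,8] (Pf.cons (Pf.W 5 3 [0,2] [6,7,8] (Pf.cons (Pf.B 9 8 (Pf.B 9 7 (Pf.B 9 6 (Pf.B 9 2 (Pf.B 9 0 (Pf.C 0 0x203860400483) (Pf.C 1 9)) (Pf.C 1 265)) (Pf.C 1 777)) (Pf.C 1 905)) (Pf.C 1 1033)) Pf.nil)) (Pf.cons (Pf.W 5 3 [1,2] [6,7,8] (Pf.cons (Pf.B 9 8 (Pf.B 9 7 (Pf.B 9 6 (Pf.B 9 2 (Pf.B 9 1 (Pf.C 0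 0x203860404483) (Pf.C 1 137)) (Pf.C 1 265)) (Pf.C 1 777)) (Pf.C 1 905)) (Pf.C 1 1033)) Pf.nil)) (Pf.cons (Pf.B 9 8 (Pf.B 9 7 (Pf.B 9 6 (Pf.B 9 2 (Pf.T 9 5 (Pf.cons (Pf.W 5 3 [2,9] [6,7,8] (Pf.cons (Pf.B 10 9 (Pf.B 10 8 (Pf.B 10 7 (Pf.B 10 6 (Pf.B 10 2 (Pf.C 0 0x203861208503) (Pf.C 1 266)) (Pf.C 1 778)) (Pf.C 1 906)) (Pf.C 1 1034)) (Pf.C 1 1162)) Pf.nil)) Pf.nil)) (Pf.C 1 265)) (Pf.C 1 777)) (Pf.C 1 905)) (Pf.C 1 1033)) Pf.nil)))) (Pf.cons (Pf.B 9 8 (Pf.B 9 7 (Pf.B 9 6 (Pf.B 9 2 (Pf.B 9 1 (Pf.B 9 0 (Pf.T 9 5 (Pf.cons (Pf.W 5 3 [9] [0,1,2,6,7,8] (Pf.cons (Pf.W 5 3 [0,9] [6,7,8] (Pf.cons (Pf.B 10 9 (Pf.B 10 8 (Pf.B 10 7 (Pf.B 10 6 (Pf.B 10 0 (Pf.C 0 0x203861200503) (Pf.C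 1 10)) (Pf.C 1 778)) (Pf.C 1 906)) (Pf.C 1 1034)) (Pf.C 1 1162)) Pf.nil)) (Pf.cons (Pf.W 5 3 [1,9] [6,7,8] (Pf.cons (Pf.B 10 9 (Pf.B 10 8 (Pf.B 10 7 (Pf.B 10 6 (Pf.B 10 1 (Pf.C 0 0x203861204503) (Pf.C 1 138)) (Pf.C 1 778)) (Pf.C 1 906)) (Pf.C 1 1034)) (Pf.C 1 1162)) Pf.nil)) (Pf.cons (Pf.W 5 3 [2,9] [6,7,8] (Pf.cons (Pf.B 10 9 (Pf.B 10 8 (Pf.B 10 7 (Pf.B 10 6 (Pf.B 10 2 (Pf.C 0 0x203861208503) (Pf.C 1 266)) (Pf.C 1 778)) (Pf.C 1 906)) (Pf.C 1 1034)) (Pf.C 1 1162)) Pf.nil)) (Pf.cons (Pf.B 10 9 (Pf.B 10 8 (Pf.B 10 7 (Pf.B 10 6 (Pf.T 10 5 (Pf.cons (Pf.W 5 3 [9,10] [6,7,8] (Pf.cons (Pf.B 11 10 (Pf.B 11 9 (Pf.B 11 8 (Pf.B 11 7 (Pf.B 11 6 (Pf.C 0 0x203861424583) (Pf.C 1 779))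 (Pf.C 1 907)) (Pf.C 1 1035)) (Pf.C 1 1163)) (Pf.C 1 1291)) Pf.nil)) Pf.nil)) (Pf.C 1 778)) (Pf.C 1 906)) (Pf.C 1 1034)) (Pf.C 1 1162)) Pf.nil))))) Pf.nil)) (Pf.C 1 9)) (Pf.C 1 137)) (Pf.C 1 265)) (Pf.C 1 777)) (Pf.C 1 905)) (Pf.C 1 1033)) Pf.nil))))) (Pf.C 1 6)) (Pf.C 1 134)) (Pf.C 1 262)) (Pf.C 1 7)) (Pf.C 1 135)) (Pf.C 1 263)) (Pf.C 1 8)) (Pf.C 1 136)) (Pf.C 1 264)))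
 (Pq.cons (Pq.L [] 1 (Pf.C 1 902))
 (Pq.cons (Pq.L [0,1,2,4] 7 (Pf.B 8 2 (Pf.B 8 1 (Pf.B 8 0 (Pf.B 7 2 (Pf.B 7 1 (Pf.B 7 0 (Pf.B 6 2 (Pf.B 6 1 (Pf.B 6 0 (Pf.W 5 4 [] [0,1,2,6,7,8] (Pf.cons (Pf.W 5 4 [0] [1,2,6,7,8] (Pf.cons (Pf.W 5 4 [0,1] [6,7,8] (Pf.cons (Pf.B 9 8 (Pf.B 9 7 (Pf.B 9 6 (Pf.B 9 1 (Pf.B 9 0 (Pf.C 0 0x203860200484) (Pf.C 1 9)) (Pf.C 1 137)) (Pf.C 1 777)) (Pf.C 1 905)) (Pf.C 1 1033)) Pf.nil)) (Pf.cons (Pf.W 5 4 [0,2] [6,7,8] (Pf.cons (Pf.B 9 8 (Pf.B 9 7 (Pf.B 9 6 (Pf.B 9 2 (Pf.B 9 0 (Pf.C 0 0x203860400484) (Pf.C 1 9)) (Pf.C 1 265)) (Pf.C 1 777)) (Pf.C 1 905)) (Pf.C 1 1033)) Pf.nil)) (Pf.cons (Pf.B 9 8 (Pf.B 9 7 (Pf.B 9 6 (Pf.B 9 0 (Pf.T 9 5 (Pf.cons (Pf.W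 5 4 [0,9] [6,7,8] (Pf.cons (Pf.B 10 9 (Pf.B 10 8 (Pf.B 10 7 (Pf.B 10 6 (Pf.B 10 0 (Pf.C 0 0x203861200504) (Pf.C 1 10)) (Pf.C 1 778)) (Pf.C 1 906)) (Pf.C 1 1034)) (Pf.C 1 1162)) Pf.nil)) Pf.nil)) (Pf.C 1 9)) (Pf.C 1 777)) (Pf.C 1 905)) (Pf.C 1 1033)) Pf.nil)))) (Pf.cons (Pf.W 5 4 [1] [0,2,6,7,8] (Pf.cons (Pf.W 5 4 [0,1] [6,7,8] (Pf.cons (Pf.B 9 8 (Pf.B 9 7 (Pf.B 9 6 (Pf.B 9 1 (Pf.B 9 0 (Pf.C 0 0x203860200484) (Pf.C 1 9)) (Pf.C 1 137)) (Pf.C 1 777)) (Pf.C 1 905)) (Pf.C 1 1033)) Pf.nil)) (Pf.cons (Pf.W 5 4 [1,2] [6,7,8] (Pf.cons (Pf.B 9 8 (Pf.B 9 7 (Pf.B 9 6 (Pf.B 9 2 (Pf.B 9 1 (Pf.C 0 0x203860404484) (Pf.C 1 137)) (Pf.C 1 265)) (Pf.C 1 777)) (Pf.C 1 905)) (Pf.C 1 1033))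 Pf.nil)) (Pf.cons (Pf.B 9 8 (Pf.B 9 7 (Pf.B 9 6 (Pf.B 9 1 (Pf.T 9 5 (Pf.cons (Pf.W 5 4 [1,9] [6,7,8] (Pf.cons (Pf.B 10 9 (Pf.B 10 8 (Pf.B 10 7 (Pf.B 10 6 (Pf.B 10 1 (Pf.C 0 0x203861204504) (Pf.C 1 138)) (Pf.C 1 778)) (Pf.C 1 906)) (Pf.C 1 1034)) (Pf.C 1 1162)) Pf.nil)) Pf.nil)) (Pf.C 1 137)) (Pf.C 1 777)) (Pf.C 1 905)) (Pf.C 1 1033)) Pf.nil)))) (Pf.cons (Pf.W 5 4 [2] [0,1,6,7,8] (Pf.cons (Pf.W 5 4 [0,2] [6,7,8] (Pf.cons (Pf.B 9 8 (Pf.B 9 7 (Pf.B 9 6 (Pf.B 9 2 (Pf.B 9 0 (Pf.C 0 0x203860400484) (Pf.C 1 9)) (Pf.C 1 265)) (Pf.C 1 777)) (Pf.C 1 905)) (Pf.C 1 1033)) Pf.nil)) (Pf.cons (Pf.W 5 4 [1,2] [6,7,8] (Pf.cons (Pf.B 9 8 (Pf.B 9 7 (Pf.B 9 6 (Pf.B 9 2 (Pf.B 9 1 (Pf.C 0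 0x203860404484) (Pf.C 1 137)) (Pf.C 1 265)) (Pf.C 1 777)) (Pf.C 1 905)) (Pf.C 1 1033)) Pf.nil)) (Pf.cons (Pf.B 9 8 (Pf.B 9 7 (Pf.B 9 6 (Pf.B 9 2 (Pf.T 9 5 (Pf.cons (Pf.W 5 4 [2,9] [6,7,8] (Pf.cons (Pf.B 10 9 (Pf.B 10 8 (Pf.B 10 7 (Pf.B 10 6 (Pf.B 10 2 (Pf.C 0 0x203861208504) (Pf.C 1 266)) (Pf.C 1 778)) (Pf.C 1 906)) (Pf.C 1 1034)) (Pf.C 1 1162)) Pf.nil)) Pf.nil)) (Pf.C 1 265)) (Pf.C 1 777)) (Pf.C 1 905)) (Pf.C 1 1033)) Pf.nil)))) (Pf.cons (Pf.B 9 8 (Pf.B 9 7 (Pf.B 9 6 (Pf.B 9 2 (Pf.B 9 1 (Pf.B 9 0 (Pf.T 9 5 (Pf.cons (Pf.W 5 4 [9] [0,1,2,6,7,8] (Pf.cons (Pf.W 5 4 [0,9] [6,7,8] (Pf.cons (Pf.B 10 9 (Pf.B 10 8 (Pf.B 10 7 (Pf.B 10 6 (Pf.B 10 0 (Pf.C 0 0x203861200504) (Pf.C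 1 10)) (Pf.C 1 778)) (Pf.C 1 906)) (Pf.C 1 1034)) (Pf.C 1 1162)) Pf.nil)) (Pf.cons (Pf.W 5 4 [1,9] [6,7,8] (Pf.cons (Pf.B 10 9 (Pf.B 10 8 (Pf.B 10 7 (Pf.B 10 6 (Pf.B 10 1 (Pf.C 0 0x203861204504) (Pf.C 1 138)) (Pf.C 1 778)) (Pf.C 1 906)) (Pf.C 1 1034)) (Pf.C 1 1162)) Pf.nil)) (Pf.cons (Pf.W 5 4 [2,9] [6,7,8] (Pf.cons (Pf.B 10 9 (Pf.B 10 8 (Pf.B 10 7 (Pf.B 10 6 (Pf.B 10 2 (Pf.C 0 0x203861208504) (Pf.C 1 266)) (Pf.C 1 778)) (Pf.C 1 906)) (Pf.C 1 1034)) (Pf.C 1 1162)) Pf.nil)) (Pf.cons (Pf.B 10 9 (Pf.B 10 8 (Pf.B 10 7 (Pf.B 10 6 (Pf.T 10 5 (Pf.cons (Pf.W 5 4 [9,10] [6,7,8] (Pf.cons (Pf.B 11 10 (Pf.B 11 9 (Pf.B 11 8 (Pf.B 11 7 (Pf.B 11 6 (Pf.C 0 0x203861424584) (Pf.C 1 779))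 (Pf.C 1 907)) (Pf.C 1 1035)) (Pf.C 1 1163)) (Pf.C 1 1291)) Pf.nil)) Pf.nil)) (Pf.C 1 778)) (Pf.C 1 906)) (Pf.C 1 1034)) (Pf.C 1 1162)) Pf.nil))))) Pf.nil)) (Pf.C 1 9)) (Pf.C 1 137)) (Pf.C 1 265)) (Pf.C 1 777)) (Pf.C 1 905)) (Pf.C 1 1033)) Pf.nil))))) (Pf.C 1 6)) (Pf.C 1 134)) (Pf.C 1 262)) (Pf.C 1 7)) (Pf.C 1 135)) (Pf.C 1 263)) (Pf.C 1 8)) (Pf.C 1 136)) (Pf.C 1 264)))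
 (Pq.cons (Pq.L [] 1 (Pf.C 1 902))
 (Pq.cons (Pq.L [0,1,2,4] 7 (Pf.B 8 2 (Pf.B 8 1 (Pf.B 8 0 (Pf.B 7 2 (Pf.B 7 1 (Pf.B 7 0 (Pf.B 6 2 (Pf.B 6 1 (Pf.B 6 0 (Pf.W 5 4 [] [0,1,2,6,7,8] (Pf.cons (Pf.W 5 4 [0] [1,2,6,7,8] (Pf.cons (Pf.W 5 4 [0,1] [6,7,8] (Pf.cons (Pf.B 9 8 (Pf.B 9 7 (Pf.B 9 6 (Pf.B 9 1 (Pf.B 9 0 (Pf.C 0 0x203860200484) (Pf.C 1 9)) (Pf.C 1 137)) (Pf.C 1 777)) (Pf.C 1 905)) (Pf.C 1 1033)) Pf.nil)) (Pf.cons (Pf.W 5 4 [0,2] [6,7,8] (Pf.cons (Pf.B 9 8 (Pf.B 9 7 (Pf.B 9 6 (Pf.B 9 2 (Pf.B 9 0 (Pf.C 0 0x203860400484) (Pf.C 1 9)) (Pf.C 1 265)) (Pf.C 1 777)) (Pf.C 1 905)) (Pf.C 1 1033)) Pf.nil)) (Pf.cons (Pf.B 9 8 (Pf.B 9 7 (Pf.B 9 6 (Pf.B 9 0 (Pf.T 9 5 (Pf.cons (Pf.W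 5 4 [0,9] [6,7,8] (Pf.cons (Pf.B 10 9 (Pf.B 10 8 (Pf.B 10 7 (Pf.B 10 6 (Pf.B 10 0 (Pf.C 0 0x203861200504) (Pf.C 1 10)) (Pf.C 1 778)) (Pf.C 1 906)) (Pf.C 1 1034)) (Pf.C 1 1162)) Pf.nil)) Pf.nil)) (Pf.C 1 9)) (Pf.C 1 777)) (Pf.C 1 905)) (Pf.C 1 1033)) Pf.nil)))) (Pf.cons (Pf.W 5 4 [1] [0,2,6,7,8] (Pf.cons (Pf.W 5 4 [0,1] [6,7,8] (Pf.cons (Pf.B 9 8 (Pf.B 9 7 (Pf.B 9 6 (Pf.B 9 1 (Pf.B 9 0 (Pf.C 0 0x203860200484) (Pf.C 1 9)) (Pf.C 1 137)) (Pf.C 1 777)) (Pf.C 1 905)) (Pf.C 1 1033)) Pf.nil)) (Pf.cons (Pf.W 5 4 [1,2] [6,7,8] (Pf.cons (Pf.B 9 8 (Pf.B 9 7 (Pf.B 9 6 (Pf.B 9 2 (Pf.B 9 1 (Pf.C 0 0x203860404484) (Pf.C 1 137)) (Pf.C 1 265)) (Pf.C 1 777)) (Pf.C 1 905)) (Pf.C 1 1033))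 Pf.nil)) (Pf.cons (Pf.B 9 8 (Pf.B 9 7 (Pf.B 9 6 (Pf.B 9 1 (Pf.T 9 5 (Pf.cons (Pf.W 5 4 [1,9] [6,7,8] (Pf.cons (Pf.B 10 9 (Pf.B 10 8 (Pf.B 10 7 (Pf.B 10 6 (Pf.B 10 1 (Pf.C 0 0x203861204504) (Pf.C 1 138)) (Pf.C 1 778)) (Pf.C 1 906)) (Pf.C 1 1034)) (Pf.C 1 1162)) Pf.nil)) Pf.nil)) (Pf.C 1 137)) (Pf.C 1 777)) (Pf.C 1 905)) (Pf.C 1 1033)) Pf.nil)))) (Pf.cons (Pf.W 5 4 [2] [0,1,6,7,8] (Pf.cons (Pf.W 5 4 [0,2] [6,7,8] (Pf.cons (Pf.B 9 8 (Pf.B 9 7 (Pf.B 9 6 (Pf.B 9 2 (Pf.B 9 0 (Pf.C 0 0x203860400484) (Pf.C 1 9)) (Pf.C 1 265)) (Pf.C 1 777)) (Pf.C 1 905)) (Pf.C 1 1033)) Pf.nil)) (Pf.cons (Pf.W 5 4 [1,2] [6,7,8] (Pf.cons (Pf.B 9 8 (Pf.B 9 7 (Pf.B 9 6 (Pf.B 9 2 (Pf.B 9 1 (Pf.C 0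 0x203860404484) (Pf.C 1 137)) (Pf.C 1 265)) (Pf.C 1 777)) (Pf.C 1 905)) (Pf.C 1 1033)) Pf.nil)) (Pf.cons (Pf.B 9 8 (Pf.B 9 7 (Pf.B 9 6 (Pf.B 9 2 (Pf.T 9 5 (Pf.cons (Pf.W 5 4 [2,9] [6,7,8] (Pf.cons (Pf.B 10 9 (Pf.B 10 8 (Pf.B 10 7 (Pf.B 10 6 (Pf.B 10 2 (Pf.C 0 0x203861208504) (Pf.C 1 266)) (Pf.C 1 778)) (Pf.C 1 906)) (Pf.C 1 1034)) (Pf.C 1 1162)) Pf.nil)) Pf.nil)) (Pf.C 1 265)) (Pf.C 1 777)) (Pf.C 1 905)) (Pf.C 1 1033)) Pf.nil)))) (Pf.cons (Pf.B 9 8 (Pf.B 9 7 (Pf.B 9 6 (Pf.B 9 2 (Pf.B 9 1 (Pf.B 9 0 (Pf.T 9 5 (Pf.cons (Pf.W 5 4 [9] [0,1,2,6,7,8] (Pf.cons (Pf.W 5 4 [0,9] [6,7,8] (Pf.cons (Pf.B 10 9 (Pf.B 10 8 (Pf.B 10 7 (Pf.B 10 6 (Pf.B 10 0 (Pf.C 0 0x203861200504) (Pf.C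 1 10)) (Pf.C 1 778)) (Pf.C 1 906)) (Pf.C 1 1034)) (Pf.C 1 1162)) Pf.nil)) (Pf.cons (Pf.W 5 4 [1,9] [6,7,8] (Pf.cons (Pf.B 10 9 (Pf.B 10 8 (Pf.B 10 7 (Pf.B 10 6 (Pf.B 10 1 (Pf.C 0 0x203861204504) (Pf.C 1 138)) (Pf.C 1 778)) (Pf.C 1 906)) (Pf.C 1 1034)) (Pf.C 1 1162)) Pf.nil)) (Pf.cons (Pf.W 5 4 [2,9] [6,7,8] (Pf.cons (Pf.B 10 9 (Pf.B 10 8 (Pf.B 10 7 (Pf.B 10 6 (Pf.B 10 2 (Pf.C 0 0x203861208504) (Pf.C 1 266)) (Pf.C 1 778)) (Pf.C 1 906)) (Pf.C 1 1034)) (Pf.C 1 1162)) Pf.nil)) (Pf.cons (Pf.B 10 9 (Pf.B 10 8 (Pf.B 10 7 (Pf.B 10 6 (Pf.T 10 5 (Pf.cons (Pf.W 5 4 [9,10] [6,7,8] (Pf.cons (Pf.B 11 10 (Pf.B 11 9 (Pf.B 11 8 (Pf.B 11 7 (Pf.B 11 6 (Pf.C 0 0x203861424584) (Pf.C 1 779))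 (Pf.C 1 907)) (Pf.C 1 1035)) (Pf.C 1 1163)) (Pf.C 1 1291)) Pf.nil)) Pf.nil)) (Pf.C 1 778)) (Pf.C 1 906)) (Pf.C 1 1034)) (Pf.C 1 1162)) Pf.nil))))) Pf.nil)) (Pf.C 1 9)) (Pf.C 1 137)) (Pf.C 1 265)) (Pf.C 1 777)) (Pf.C 1 905)) (Pf.C 1 1033)) Pf.nil))))) (Pf.C 1 6)) (Pf.C 1 134)) (Pf.C 1 262)) (Pf.C 1 7)) (Pf.C 1 135)) (Pf.C 1 263)) (Pf.C 1 8)) (Pf.C 1 136)) (Pf.C 1 264)))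
 (Pq.cons (Pq.L [] 1 (Pf.C 1 902))
 (Pq.cons (Pq.L [0,1,2,5] 7 (Pf.B 8 2 (Pf.B 8 1 (Pf.B 8 0 (Pf.B 7 2 (Pf.B 7 1 (Pf.B 7 0 (Pf.B 6 2 (Pf.B 6 1 (Pf.B 6 0 (Pf.W 5 5 [] [0,1,2,6,7,8] (Pf.cons (Pf.W 5 5 [0] [1,2,6,7,8] (Pf.cons (Pf.W 5 5 [0,1] [6,7,8] (Pf.cons (Pf.B 9 8 (Pf.B 9 7 (Pf.B 9 6 (Pf.B 9 1 (Pf.B 9 0 (Pf.C 0 0x203860200485) (Pf.C 1 9)) (Pf.C 1 137)) (Pf.C 1 777)) (Pf.C 1 905)) (Pf.C 1 1033)) Pf.nil)) (Pf.cons (Pf.W 5 5 [0,2] [6,7,8] (Pf.cons (Pf.B 9 8 (Pf.B 9 7 (Pf.B 9 6 (Pf.B 9 2 (Pf.B 9 0 (Pf.C 0 0x203860400485) (Pf.C 1 9)) (Pf.C 1 265)) (Pf.C 1 777)) (Pf.C 1 905)) (Pf.C 1 1033)) Pf.nil)) (Pf.cons (Pf.B 9 8 (Pf.B 9 7 (Pf.B 9 6 (Pf.B 9 0 (Pf.T 9 5 (Pf.cons (Pf.W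 5 5 [0,9] [6,7,8] (Pf.cons (Pf.B 10 9 (Pf.B 10 8 (Pf.B 10 7 (Pf.B 10 6 (Pf.B 10 0 (Pf.C 0 0x203861200505) (Pf.C 1 10)) (Pf.C 1 778)) (Pf.C 1 906)) (Pf.C 1 1034)) (Pf.C 1 1162)) Pf.nil)) Pf.nil)) (Pf.C 1 9)) (Pf.C 1 777)) (Pf.C 1 905)) (Pf.C 1 1033)) Pf.nil)))) (Pf.cons (Pf.W 5 5 [1] [0,2,6,7,8] (Pf.cons (Pf.W 5 5 [0,1] [6,7,8] (Pf.cons (Pf.B 9 8 (Pf.B 9 7 (Pf.B 9 6 (Pf.B 9 1 (Pf.B 9 0 (Pf.C 0 0x203860200485) (Pf.C 1 9)) (Pf.C 1 137)) (Pf.C 1 777)) (Pf.C 1 905)) (Pf.C 1 1033)) Pf.nil)) (Pf.cons (Pf.W 5 5 [1,2] [6,7,8] (Pf.cons (Pf.B 9 8 (Pf.B 9 7 (Pf.B 9 6 (Pf.B 9 2 (Pf.B 9 1 (Pf.C 0 0x203860404485) (Pf.C 1 137)) (Pf.C 1 265)) (Pf.C 1 777)) (Pf.C 1 905)) (Pf.C 1 1033))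 Pf.nil)) (Pf.cons (Pf.B 9 8 (Pf.B 9 7 (Pf.B 9 6 (Pf.B 9 1 (Pf.T 9 5 (Pf.cons (Pf.W 5 5 [1,9] [6,7,8] (Pf.cons (Pf.B 10 9 (Pf.B 10 8 (Pf.B 10 7 (Pf.B 10 6 (Pf.B 10 1 (Pf.C 0 0x203861204505) (Pf.C 1 138)) (Pf.C 1 778)) (Pf.C 1 906)) (Pf.C 1 1034)) (Pf.C 1 1162)) Pf.nil)) Pf.nil)) (Pf.C 1 137)) (Pf.C 1 777)) (Pf.C 1 905)) (Pf.C 1 1033)) Pf.nil)))) (Pf.cons (Pf.W 5 5 [2] [0,1,6,7,8] (Pf.cons (Pf.W 5 5 [0,2] [6,7,8] (Pf.cons (Pf.B 9 8 (Pf.B 9 7 (Pf.B 9 6 (Pf.B 9 2 (Pf.B 9 0 (Pf.C 0 0x203860400485) (Pf.C 1 9)) (Pf.C 1 265)) (Pf.C 1 777)) (Pf.C 1 905)) (Pf.C 1 1033)) Pf.nil)) (Pf.cons (Pf.W 5 5 [1,2] [6,7,8] (Pf.cons (Pf.B 9 8 (Pf.B 9 7 (Pf.B 9 6 (Pf.B 9 2 (Pf.B 9 1 (Pf.C 0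 0x203860404485) (Pf.C 1 137)) (Pf.C 1 265)) (Pf.C 1 777)) (Pf.C 1 905)) (Pf.C 1 1033)) Pf.nil)) (Pf.cons (Pf.B 9 8 (Pf.B 9 7 (Pf.B 9 6 (Pf.B 9 2 (Pf.T 9 5 (Pf.cons (Pf.W 5 5 [2,9] [6,7,8] (Pf.cons (Pf.B 10 9 (Pf.B 10 8 (Pf.B 10 7 (Pf.B 10 6 (Pf.B 10 2 (Pf.C 0 0x203861208505) (Pf.C 1 266)) (Pf.C 1 778)) (Pf.C 1 906)) (Pf.C 1 1034)) (Pf.C 1 1162)) Pf.nil)) Pf.nil)) (Pf.C 1 265)) (Pf.C 1 777)) (Pf.C 1 905)) (Pf.C 1 1033)) Pf.nil)))) (Pf.cons (Pf.B 9 8 (Pf.B 9 7 (Pf.B 9 6 (Pf.B 9 2 (Pf.B 9 1 (Pf.B 9 0 (Pf.T 9 5 (Pf.cons (Pf.W 5 5 [9] [0,1,2,6,7,8] (Pf.cons (Pf.W 5 5 [0,9] [6,7,8] (Pf.cons (Pf.B 10 9 (Pf.B 10 8 (Pf.B 10 7 (Pf.B 10 6 (Pf.B 10 0 (Pf.C 0 0x203861200505) (Pf.C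 1 10)) (Pf.C 1 778)) (Pf.C 1 906)) (Pf.C 1 1034)) (Pf.C 1 1162)) Pf.nil)) (Pf.cons (Pf.W 5 5 [1,9] [6,7,8] (Pf.cons (Pf.B 10 9 (Pf.B 10 8 (Pf.B 10 7 (Pf.B 10 6 (Pf.B 10 1 (Pf.C 0 0x203861204505) (Pf.C 1 138)) (Pf.C 1 778)) (Pf.C 1 906)) (Pf.C 1 1034)) (Pf.C 1 1162)) Pf.nil)) (Pf.cons (Pf.W 5 5 [2,9] [6,7,8] (Pf.cons (Pf.B 10 9 (Pf.B 10 8 (Pf.B 10 7 (Pf.B 10 6 (Pf.B 10 2 (Pf.C 0 0x203861208505) (Pf.C 1 266)) (Pf.C 1 778)) (Pf.C 1 906)) (Pf.C 1 1034)) (Pf.C 1 1162)) Pf.nil)) (Pf.cons (Pf.B 10 9 (Pf.B 10 8 (Pf.B 10 7 (Pf.B 10 6 (Pf.T 10 5 (Pf.cons (Pf.W 5 5 [9,10] [6,7,8] (Pf.cons (Pf.B 11 10 (Pf.B 11 9 (Pf.B 11 8 (Pf.B 11 7 (Pf.B 11 6 (Pf.C 0 0x203861424585) (Pf.C 1 779))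 (Pf.C 1 907)) (Pf.C 1 1035)) (Pf.C 1 1163)) (Pf.C 1 1291)) Pf.nil)) Pf.nil)) (Pf.C 1 778)) (Pf.C 1 906)) (Pf.C 1 1034)) (Pf.C 1 1162)) Pf.nil))))) Pf.nil)) (Pf.C 1 9)) (Pf.C 1 137)) (Pf.C 1 265)) (Pf.C 1 777)) (Pf.C 1 905)) (Pf.C 1 1033)) Pf.nil))))) (Pf.C 1 6)) (Pf.C 1 134)) (Pf.C 1 262)) (Pf.C 1 7)) (Pf.C 1 135)) (Pf.C 1 263)) (Pf.C 1 8)) (Pf.C 1 136)) (Pf.C 1 264)))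
 (Pq.cons (Pq.L [] 1 (Pf.C 1 902))
 Pq.nil))))))))))))))
theorem bK_o23 : AllRef bK_T bK_G26 (hitObl [47,48,49,50,51,52,53] bK_h35) :=
  chkPq_sound bK_o23c _ (by decide +kernel)
noncomputable def bK_o24c : Pq := (Pq.cons (Pq.L [] 0 (Pf.C 32 6))
 (Pq.cons (Pq.L [] 0 (Pf.C 33 6))
 (Pq.cons (Pq.L [] 0 (Pf.C 34 6))
 (Pq.cons (Pq.L [] 0 (Pf.C 35 6))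
 (Pq.cons (Pq.L [] 0 (Pf.C 36 6))
 (Pq.cons (Pq.L [] 0 (Pf.C 37 6))
 (Pq.cons (Pq.L [] 0 (Pf.C 38 6))
 Pq.nil)))))))
theorem bK_o24 : AllRef bK_T bK_G27 (List.map pat1 [55,56,57,58,59,60,61]) :=
  chkPq_sound bK_o24c _ (by decide +kernel)
noncomputable def bK_o25c : Pq := (Pq.cons (Pq.D 0 (Pq.cons (Pq.D 1 (Pq.cons (Pq.L [] 1 (Pf.C 1 902))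
 (Pq.cons (Pq.D 2 (Pq.cons (Pq.L [] 2 (Pf.C 1 1030))
 (Pq.cons (Pq.D 3 (Pq.cons (Pq.L [] 4 (Pf.C 1 1158))
 (Pq.cons (Pq.L [] 7 (Pf.B 9 8 (Pf.B 9 7 (Pf.B 8 7 (Pf.W 3 6 [] [7,8,9] (Pf.cons (Pf.B 10 9 (Pf.B 10 8 (Pf.B 10 7 (Pf.W 3 6 [10] [7,8,9] (Pf.cons (Pf.B 11 10 (Pf.B 11 9 (Pf.B 11 8 (Pf.B 11 7 (Pf.W 3 6 [10,11] [7,8,9] (Pf.cons (Pf.B 12 11 (Pf.B 12 10 (Pf.B 12 9 (Pf.B 12 8 (Pf.B 12 7 (Pf.C 0 0x244071628606) (Pf.C 2 908)) (Pf.C 2 1036)) (Pf.C 2 1164)) (Pf.C 2 1292)) (Pf.C 2 1420)) Pf.nil)) (Pf.C 2 907)) (Pf.C 2 1035)) (Pf.C 2 1163)) (Pf.C 2 1291)) Pf.nil)) (Pf.C 2 906)) (Pf.C 2 1034)) (Pf.C 2 1162)) Pf.nil)) (Pf.C 2 904)) (Pf.C 2 905)) (Pf.C 2 1033)))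
 Pq.nil))) Pq.nil))) Pq.nil))) (Pq.cons (Pq.D 1 (Pq.cons (Pq.D 2 (Pq.cons (Pq.D 3 (Pq.cons (Pq.L [] 7 (Pf.B 9 8 (Pf.B 9 7 (Pf.B 8 7 (Pf.W 5 6 [] [7,8,9] (Pf.cons (Pf.B 10 9 (Pf.B 10 8 (Pf.B 10 7 (Pf.W 5 6 [10] [7,8,9] (Pf.cons (Pf.B 11 10 (Pf.B 11 9 (Pf.B 11 8 (Pf.B 11 7 (Pf.W 5 6 [10,11] [7,8,9] (Pf.cons (Pf.B 12 11 (Pf.B 12 10 (Pf.B 12 9 (Pf.B 12 8 (Pf.B 12 7 (Pf.C 0 0x244071628606) (Pf.C 1 908)) (Pf.C 1 1036)) (Pf.C 1 1164)) (Pf.C 1 1292)) (Pf.C 1 1420)) Pf.nil)) (Pf.C 1 907)) (Pf.C 1 1035)) (Pf.C 1 1163)) (Pf.C 1 1291)) Pf.nil)) (Pf.C 1 906)) (Pf.C 1 1034)) (Pf.C 1 1162)) Pf.nil)) (Pf.C 1 904)) (Pf.C 1 905)) (Pf.C 1 1033)))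
 (Pq.cons (Pq.L [] 4 (Pf.C 2 1158))
 Pq.nil))) (Pq.cons (Pq.L [] 2 (Pf.C 2 1030))
 Pq.nil))) (Pq.cons (Pq.L [] 1 (Pf.C 2 902))
 Pq.nil))) Pq.nil))) Pq.nil)
theorem bK_o25 : AllRef bK_T bK_G28 (applyObl TD2 1 [31,54] [0,0] [(31,0x40000000000000),(54,0x80000000)]) :=
  chkPq_sound bK_o25c _ (by decide +kernel)

end Pool.Agent.Lib.MP_849b2e_co
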