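import Pool.Agent.Lib.MP_849b2e_co.AllR
import Pool.Agent.Lib.MP_849b2e_co.TbK
import Pool.Agent.Lib.MP_849b2e_co.ObK_0

set_option maxRecDepth 100000
set_option linter.all false
namespace Pool.Agent.Lib.MP_849b2e_co

theorem bK_n37  : Bd bK_T bK_G28 [31,54] :=
  r_apply lem_D2 [0,0] [(31,0x40000000000000),(54,0x80000000)] (by decide +kernel) bK_o25
theorem bK_n36  : Bd bK_T bK_G27 [31,55,56,57,58,59,60,61,54] :=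
  r_kill [55,56,57,58,59,60,61] ⟨62,[],[],[]⟩ bK_G28 [31,54] (by decide +kernel) bK_o24 bK_n37
theorem bK_n35  : Bd bK_T bK_G26 [31,47,48,49,50,51,52,53,54] :=
  r_hit [47,48,49,50,51,52,53] bK_h35 ⟨55,[],[33,34,35,36,37,38,39],[]⟩ bK_G27 [31,55,56,57,58,59,60,61,54] (by decide +kernel) bK_o23 bK_n36
theorem bK_n34  : Bd bK_T bK_G26 [31,4,5] :=
  r_act [7,8] [31,47,48,49,50,51,52,53,54] (by decide +kernel) bK_n35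
theorem bK_n33  : Bd bK_T bK_G25 [31,4,5] :=
  r_psplit 5 [3,4,5] PT.kid ⟨54,[9],[],[]⟩ bK_G26 [31,4,5] (by decide +kernel) bK_o22 bK_n34
theorem bK_n32  : Bd bK_T bK_G22 [31,4,5] :=
  r_psplit 4 [] (PT.br 3 (PT.br 4 (PT.br 5 PT.kid PT.kid) (PT.br 5 PT.kid PT.kid)) (PT.br 4 (PT.br 5 PT.kid PT.kid) (PT.br 5 PT.kid PT.ref))) ⟨47,[8],[],[]⟩ bK_G25 [31,4,5] (by decide +kernel) bK_o21 bK_n33
theorem bK_n31  : Bd bK_T bK_G24 [4] :=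
  r_apply lem_D2 [0] [] (by decide +kernel) bK_o20
theorem bK_n30  : Bd bK_T bK_G24 [31] :=
  r_apply lem_D2 [0] [] (by decide +kernel) bK_o19
theorem bK_n29  : Bd bK_T bK_G24 [31,4] :=
  r_split [31] [4] (by decide +kernel) bK_o18 bK_n30 bK_n31
theorem bK_n28  : Bd bK_T bK_G23 [31,4,46] :=
  r_kill [46] ⟨47,[],[],[]⟩ bK_G24 [31,4] (by decide +kernel) bK_o17 bK_n29
theorem bK_n27  : Bd bK_T bK_G21 [31,4,5] :=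
  r_hit [5] bK_h27 ⟨46,[],[32],[]⟩ bK_G23 [31,4,46] (by decide +kernel) bK_o16 bK_n28
theorem bK_n26  : Bd bK_T bK_G20 [31,4,5] :=
  r_case [5,5,5] [⟨0,1,false⟩,⟨0,2,false⟩,⟨1,2,false⟩] [0,1,2] ⟨46,[],[31],[]⟩ bK_G21 [31,4,5] bK_G22 [31,4,5] (by decide +kernel) bK_n27 bK_n32
theorem bK_n25  : Bd bK_T bK_G19 [31,4,5,39,40,41,42,43,44,45] :=
  r_kill [39,40,41,42,43,44,45] ⟨46,[],[],[]⟩ bK_G20 [31,4,5] (by decide +kernel) bK_o15 bK_n26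
theorem bK_n24  : Bd bK_T bK_G18 [31,4,5,32,33,34,35,36,37,38] :=
  r_hit [32,33,34,35,36,37,38] bK_h24 ⟨39,[],[24,25,26,27,28,29,30],[]⟩ bK_G19 [31,4,5,39,40,41,42,43,44,45] (by decide +kernel) bK_o14 bK_n25
theorem bK_n23  : Bd bK_T bK_G18 [3,4,5,6] :=
  r_act [5,6] [31,4,5,32,33,34,35,36,37,38] (by decide +kernel) bK_n24
theorem bK_n22  : Bd bK_T bK_G17 [3,4,5,6] :=
  r_psplit 6 [] (PT.br 0 (PT.br 1 (PT.br 2 PT.kid PT.kid) (PT.br 2 PT.kid PT.kid)) (PT.br 1 (PT.br 2 PT.kid PT.kid) (PT.br 2 PT.kid PT.ref))) ⟨32,[7],[],[]⟩ bK_G18 [3,4,5,6] (by decide +kernel) bK_o13 bK_n23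
theorem bK_n21  : Bd bK_T bK_G3 [3,4,5,6] :=
  r_psplit 3 [0,1,2] PT.kid ⟨31,[6],[],[]⟩ bK_G17 [3,4,5,6] (by decide +kernel) bK_o12 bK_n22
theorem bK_n20  : Bd bK_T bK_G16 [] :=
  r_empty (by decide +kernel) 
theorem bK_n19  : Bd bK_T bK_G15 [23,24,25,26,27,28,29,30,22] :=
  r_kill [23,24,25,26,27,28,29,30,22] ⟨31,[],[],[]⟩ bK_G16 [] (by decide +kernel) bK_o11 bK_n20
theorem bK_n18  : Bd bK_T bK_G14 [14,15,16,17,18,19,20,21,12] :=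
  r_hit [12,14,15,16,17,18,19,20,21] bK_h18 ⟨22,[],[15,16,17,18,19,20,21,22,23],[]⟩ bK_G15 [23,24,25,26,27,28,29,30,22] (by decide +kernel) (allRef_split 7 bK_o9 bK_o10) bK_n19
theorem bK_n17  : Bd bK_T bK_G14 [10,11,12] :=
  r_act [3,4] [14,15,16,17,18,19,20,21,12] (by decide +kernel) bK_n18
theorem bK_n16  : Bd bK_T bK_G13 [10,11,12] :=
  r_psplit 11 [0,1,2] PT.kid ⟨21,[5],[],[]⟩ bK_G14 [10,11,12] (by decide +kernel) bK_o8 bK_n17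
theorem bK_n15  : Bd bK_T bK_G10 [10,11,12] :=
  r_psplit 10 [] (PT.br 0 (PT.br 1 (PT.br 2 PT.kid PT.kid) (PT.br 2 PT.kid PT.kid)) (PT.br 1 (PT.br 2 PT.kid PT.kid) (PT.br 2 PT.kid PT.ref))) ⟨14,[4],[],[]⟩ bK_G13 [10,11,12] (by decide +kernel) bK_o7 bK_n16
theorem bK_n14  : Bd bK_T bK_G12 [10,12] :=
  r_apply lem_D2 [0,0] [] (by decide +kernel) bK_o6
theorem bK_n13  : Bd bK_T bK_G11 [10,13,12] :=
  r_kill [13] ⟨14,[],[],[]⟩ bK_G12 [10,12] (by decide +kernel) bK_o5 bK_n14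
theorem bK_n12  : Bd bK_T bK_G9 [10,11,12] :=
  r_hit [11] bK_h12 ⟨13,[],[14],[]⟩ bK_G11 [10,13,12] (by decide +kernel) bK_o4 bK_n13
theorem bK_n11  : Bd bK_T bK_G8 [10,11,12] :=
  r_case [11,11,11] [⟨0,1,false⟩,⟨0,2,false⟩,⟨1,2,false⟩] [] ⟨13,[],[13],[]⟩ bK_G9 [10,11,12] bK_G10 [10,11,12] (by decide +kernel) bK_n12 bK_n15
theorem bK_n10  : Bd bK_T bK_G7 [4,8,9] :=
  r_twin 0 [6,1,1] ⟨10,[],[12],[]⟩ bK_G8 [10,11,12] (by decide +kernel) bK_o3 bK_n11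
theorem bK_n9  : Bd bK_T bK_G7 [4,6] :=
  r_act [2] [4,8,9] (by decide +kernel) bK_n10
theorem bK_n8  : Bd bK_T bK_G6 [4,6] :=
  r_def 6 2 [4] [] ⟨8,[3],[10,0,0,0,11],[]⟩ bK_G7 [4,6] (by decide +kernel) bK_n9
theorem bK_n7  : Bd bK_T bK_G5 [7,4,6] :=
  r_kill [7] ⟨8,[],[],[]⟩ bK_G6 [4,6] (by decide +kernel) bK_o2 bK_n8
theorem bK_n6  : Bd bK_T bK_G4 [3,4,6] :=
  r_hit [3] bK_h6 ⟨7,[],[9],[]⟩ bK_G5 [7,4,6] (by decide +kernel) bK_o1 bK_n7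
theorem bK_n5  : Bd bK_T bK_G2 [3,4,5,6] :=
  r_kill [5] ⟨7,[],[],[]⟩ bK_G4 [3,4,6] (by decide +kernel) bK_o0 bK_n6
theorem bK_n4  : Bd bK_T bK_G1 [3,4,5,6] :=
  r_case [3,3,3] [⟨0,1,false⟩,⟨0,2,false⟩,⟨1,2,false⟩] [] ⟨7,[],[8],[]⟩ bK_G2 [3,4,5,6] bK_G3 [3,4,5,6] (by decide +kernel) bK_n5 bK_n21
theorem bK_n3  : Bd bK_T bK_G1 [3,4,2] :=
  r_act [1] [3,4,5,6] (by decide +kernel) bK_n4
theorem bK_n2  : Bd bK_T bK_G0 [3,4,2] :=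
  r_def 2 2 [3] [] ⟨5,[2],[6,0,0,0,7],[]⟩ bK_G1 [3,4,2] (by decide +kernel) bK_n3
theorem bK_n1  : Bd bK_T bK_G0 [1,2] :=
  r_act [0] [3,4,2] (by decide +kernel) bK_n2
theorem bK_n0  : Bd bK_T (pureCtx 2 3) (pureAct 2) :=
  show Bd _ _ [1,2] from r_def 1 2 [2] [] ⟨3,[1],[4,0,0,0,5],[]⟩ bK_G0 [1,2] (by decide +kernel) bK_n1
theorem lem_bK  : Lem bK_T 2 3 := ⟨by decide +kernel, bK_n0⟩

end Pool.Agent.Lib.MP_849b2e_co
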