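import Pool.Agent.Lib.MP_849b2e_co.Rules

set_option maxRecDepth 100000
set_option linter.all false
namespace Pool.Agent.Lib.MP_849b2e_co

noncomputable def a_ty : Tr Ty := (Tr.br (Tr.br (Tr.br (Tr.br (Tr.br (Tr.leaf ⟨1,0,0,0,0⟩) (Tr.leaf ⟨65667,1916,10,5,15⟩)) (Tr.br (Tr.leaf ⟨259,1788,6,9,15⟩) (Tr.leaf ⟨0x1010083,1916,10,5,15⟩)))
 (Tr.br (Tr.br (Tr.leaf ⟨19,2028,4,11,15⟩) (Tr.leaf ⟨0x10100b,2036,8,7,15⟩)) (Tr.leaf ⟨4107,2036,8,7,15⟩))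
)
 (Tr.br (Tr.br (Tr.br (Tr.leaf ⟨7,2040,0,15,15⟩) (Tr.leaf ⟨0x40203,1532,14,1,15⟩)) (Tr.br (Tr.leaf ⟨1027,1020,1,14,15⟩) (Tr.leaf ⟨0x4080403,1020,1,14,15⟩)))
 (Tr.br (Tr.br (Tr.leaf ⟨67,1980,2,13,15⟩) (Tr.leaf ⟨0x404023,2012,12,3,15⟩)) (Tr.leaf ⟨16419,2012,12,3,15⟩))
)
)
 (Tr.br (Tr.br (Tr.br (Tr.br (Tr.leaf ⟨3,0,0,0,15⟩) (Tr.leaf ⟨0x20103,1788,6,9,15⟩)) (Tr.br (Tr.leaf ⟨515,1532,14,1,15⟩) (Tr.leaf ⟨0x2020103,1788,6,9,15⟩)))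
 (Tr.br (Tr.br (Tr.leaf ⟨35,2012,12,3,15⟩) (Tr.leaf ⟨0x202013,2028,4,11,15⟩)) (Tr.leaf ⟨8211,2028,4,11,15⟩))
)
 (Tr.br (Tr.br (Tr.br (Tr.leaf ⟨11,2036,8,7,15⟩) (Tr.leaf ⟨0x80403,1020,1,14,15⟩)) (Tr.leaf ⟨2055,2040,0,15,15⟩))
 (Tr.br (Tr.br (Tr.leaf ⟨131,1916,10,5,15⟩) (Tr.leaf ⟨0x808043,1980,2,13,15⟩)) (Tr.leaf ⟨32835,1980,2,13,15⟩))
)
)
)

noncomputable def a_ev : Tr Ev := (Tr.br (Tr.leaf ⟨0,[1],15⟩) (Tr.leaf ⟨1,[2,3,4,5,6,7,8,9,10],0⟩))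

noncomputable def a_ax : Tr Ax := (Tr.br (Tr.br (Tr.br (Tr.br (Tr.br (Tr.br (Tr.leaf ⟨[1,1,1],[⟨0,1,true⟩,⟨0,2,true⟩,⟨1,2,true⟩],[],0⟩) (Tr.leaf ⟨[0x100000,0x2000000,0x4000000],[],[],0⟩)) (Tr.br (Tr.leaf ⟨[32768,0x20000],[],[],0⟩) (Tr.leaf ⟨[],[],[⟨18,[]⟩],0⟩))) (Tr.br (Tr.br (Tr.leaf ⟨[8192,16384],[],[],0⟩) (Tr.leaf ⟨[0x400000,0x800000,0x800000],[⟨0,1,false⟩,⟨0,2,false⟩,⟨1,2,false⟩],[],0⟩)) (Tr.leaf ⟨[0x100000,0x100000,0x2000000],[⟨0,1,false⟩,⟨0,2,false⟩,⟨1,2,false⟩],[],0⟩)))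
 (Tr.br (Tr.br (Tr.br (Tr.leaf ⟨[4096,16384],[],[],0⟩) (Tr.leaf ⟨[0x200000,0x1000000,0x1000000],[⟨0,1,false⟩,⟨0,2,false⟩,⟨1,2,false⟩],[],0⟩)) (Tr.leaf ⟨[65536,0x40000],[],[],0⟩)) (Tr.br (Tr.br (Tr.leaf ⟨[16384,65536],[],[],0⟩) (Tr.leaf ⟨[0x1000000,0x4000000,0x4000000],[⟨0,1,false⟩,⟨0,2,false⟩,⟨1,2,false⟩],[],0⟩)) (Tr.leaf ⟨[0x100000,0x200000,0x800000],[⟨0,1,false⟩,⟨0,2,true⟩,⟨1,2,false⟩],[],0⟩)))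
)
 (Tr.br (Tr.br (Tr.br (Tr.br (Tr.leaf ⟨[1,1,1,1],[⟨0,1,true⟩,⟨0,2,true⟩,⟨0,3,true⟩,⟨1,2,false⟩,⟨1,3,false⟩,⟨2,3,false⟩],[],0⟩) (Tr.leaf ⟨[0x200000,0x200000,0x1000000],[⟨0,1,false⟩,⟨0,2,false⟩,⟨1,2,false⟩],[],0⟩)) (Tr.leaf ⟨[32768,0x80000],[⟨0,1,false⟩],[],0⟩)) (Tr.br (Tr.br (Tr.leaf ⟨[8192,0x40000],[],[],0⟩) (Tr.leaf ⟨[0x400000,0x4000000,0x4000000],[⟨0,1,false⟩,⟨0,2,false⟩,⟨1,2,false⟩],[],0⟩)) (Tr.leaf ⟨[0x100000,0x200000,0x800000],[⟨0,1,false⟩,⟨0,2,false⟩,⟨1,2,false⟩],[],0⟩)))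
 (Tr.br (Tr.br (Tr.br (Tr.leaf ⟨[4096,0x40000],[],[],0⟩) (Tr.leaf ⟨[0x400000,0x400000,0x800000],[⟨0,1,false⟩,⟨0,2,false⟩,⟨1,2,false⟩],[],0⟩)) (Tr.leaf ⟨[0x100000,0x100000,0x200000],[⟨0,1,false⟩,⟨0,2,false⟩,⟨1,2,false⟩],[],0⟩)) (Tr.br (Tr.br (Tr.leaf ⟨[16384,0x40000],[],[],0⟩) (Tr.leaf ⟨[0x2000000,0x4000000,0x4000000],[⟨0,1,false⟩,⟨0,2,false⟩,⟨1,2,false⟩],[],0⟩)) (Tr.leaf ⟨[0x100000,0x800000,0x800000],[⟨0,1,false⟩,⟨0,2,false⟩,⟨1,2,false⟩],[],0⟩)))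
)
)
 (Tr.br (Tr.br (Tr.br (Tr.br (Tr.br (Tr.leaf ⟨[1,1,1,1,1,1,1],[⟨0,1,true⟩,⟨0,2,true⟩,⟨0,3,true⟩,⟨0,4,false⟩,⟨0,5,false⟩,⟨0,6,false⟩,⟨1,2,false⟩,⟨1,3,false⟩,⟨1,4,false⟩,⟨1,5,false⟩,⟨1,6,false⟩,⟨2,3,false⟩,⟨2,4,false⟩,⟨2,5,false⟩,⟨2,6,false⟩,⟨3,4,false⟩,⟨3,5,false⟩,⟨3,6,false⟩,⟨4,5,false⟩,⟨4,6,false⟩,⟨5,6,false⟩],[],0⟩) (Tr.leaf ⟨[0x200000,0x200000,0x800000],[⟨0,1,false⟩,⟨0,2,false⟩,⟨1,2,false⟩],[],0⟩)) (Tr.leaf ⟨[32768,0x40000],[],[],0⟩)) (Tr.br (Tr.br (Tr.leaf ⟨[8192,0x20000],[],[],0⟩) (Tr.leaf ⟨[0x400000,0x800000,0x4000000],[],[],0⟩)) (Tr.leaf ⟨[0x100000,0x200000,0x200000],[⟨0,1,false⟩,⟨0,2,false⟩,⟨1,2,false⟩],[],0⟩)))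
 (Tr.br (Tr.br (Tr.br (Tr.leaf ⟨[4096,65536],[],[],0⟩) (Tr.leaf ⟨[0x200000,0x1000000,0x4000000],[],[],0⟩)) (Tr.leaf ⟨[0x20000,0x40000],[],[],0⟩)) (Tr.br (Tr.br (Tr.leaf ⟨[16384,0x20000],[],[],0⟩) (Tr.leaf ⟨[0x2000000,0x2000000,0x4000000],[⟨0,1,false⟩,⟨0,2,false⟩,⟨1,2,false⟩],[],0⟩)) (Tr.leaf ⟨[0x100000,0x200000,0x800000],[⟨0,1,false⟩,⟨0,2,false⟩,⟨1,2,true⟩],[],0⟩)))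
)
 (Tr.br (Tr.br (Tr.br (Tr.br (Tr.leaf ⟨[2048],[],[],0⟩) (Tr.leaf ⟨[0x200000,0x800000,0x800000],[⟨0,1,false⟩,⟨0,2,false⟩,⟨1,2,false⟩],[],0⟩)) (Tr.leaf ⟨[65536,0x20000],[],[],0⟩)) (Tr.br (Tr.br (Tr.leaf ⟨[8192,0x80000],[⟨0,1,false⟩],[],0⟩) (Tr.leaf ⟨[0x1000000,0x1000000,0x4000000],[⟨0,1,false⟩,⟨0,2,false⟩,⟨1,2,false⟩],[],0⟩)) (Tr.leaf ⟨[0x100000,0x200000,0x800000],[⟨0,1,true⟩,⟨0,2,false⟩,⟨1,2,false⟩],[],0⟩)))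
 (Tr.br (Tr.br (Tr.br (Tr.leaf ⟨[4096,0x80000],[⟨0,1,false⟩],[],0⟩) (Tr.leaf ⟨[0x400000,0x400000,0x4000000],[⟨0,1,false⟩,⟨0,2,false⟩,⟨1,2,false⟩],[],0⟩)) (Tr.leaf ⟨[0x100000,0x100000,0x800000],[⟨0,1,false⟩,⟨0,2,false⟩,⟨1,2,false⟩],[],0⟩)) (Tr.br (Tr.br (Tr.leaf ⟨[32768,65536],[],[],0⟩) (Tr.leaf ⟨[0x40000],[],[],0⟩)) (Tr.leaf ⟨[0x100000,0x2000000,0x2000000],[⟨0,1,false⟩,⟨0,2,false⟩,⟨1,2,false⟩],[],0⟩)))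
)
)
)

noncomputable def a_sc : Tr Sc := (Tr.leaf ⟨[],[]⟩)
noncomputable def a_T : Tab := ⟨27,a_ty,a_ev,a_ax,a_sc⟩
def a_S0 : St := ⟨0,0,0,0,0⟩
def a_G0 : Ctx := ⟨1,0,7,0,0,a_S0,none⟩
def a_S1 : St := ⟨4,0x200000040000008000001,0x100000000000000000000000000000001000000000000000000000000000000010000000000000000000000000000000e,0x60000000000000000000000000000000a0000000000000000000000000000000c00000000000000000000000000000000,15⟩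
def a_G1 : Ctx := ⟨1,0,3,0,0,a_S1,none⟩
def a_G2 : Ctx := ⟨2,1,3,0,0,a_S1,none⟩
def a_G3 : Ctx := ⟨11,3,3,0,0,a_S1,none⟩
def a_G4 : Ctx := ⟨12,3,11,0,0,a_S1,none⟩
def a_G5 : Ctx := ⟨12,3,11,0,2048,a_S1,none⟩
def a_G6 : Ctx := ⟨20,3,0x3ffffb,0,2048,a_S1,none⟩
def a_G7 : Ctx := ⟨27,3,0x7ffffffffffb,0,2048,a_S1,none⟩
def a_G8 : Ctx := ⟨27,3,0xfffffffffffb,0,2048,a_S1,none⟩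
def a_G9 : Ctx := ⟨27,3,0x17ffffffffffb,0,2048,a_S1,none⟩
def a_G10 : Ctx := ⟨27,3,0xfffffffffffb,0,0x40800,a_S1,none⟩
def a_G11 : Ctx := ⟨27,3,0x17ffffffffffb,0,0x3f00800,a_S1,none⟩
def a_h6 : List HP := [⟨[0],[],(HT.leaf 6)⟩]
def a_h8 : List HP := [⟨[0,2],[],(HT.leaf 3)⟩,⟨[0,4],[],(HT.leaf 3)⟩,⟨[0,6],[],(HT.leaf 3)⟩,⟨[0,7],[⟨0,1,false⟩],(HT.leaf 4)⟩,⟨[1,2],[],(HT.leaf 3)⟩,⟨[1,5],[],(HT.leaf 3)⟩,⟨[1,6],[],(HT.leaf 3)⟩,⟨[1,7],[⟨0,1,false⟩],(HT.leaf 4)⟩,⟨[2,4],[],(HT.leaf 3)⟩,⟨[2,5],[],(HT.leaf 3)⟩,⟨[2,6],[],(HT.leaf 3)⟩,⟨[3,4],[],(HT.leaf 3)⟩,⟨[3,5],[],(HT.leaf 3)⟩,⟨[3,6],[],(HT.leaf 3)⟩,⟨[3,7],[⟨0,1,false⟩],(HT.leaf 4)⟩,⟨[4,5],[],(HT.leaf 3)⟩,⟨[4,6],[],(HT.leaf 3)⟩,⟨[5,6],[],(HT.leaf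 3)⟩]
def a_h9 : List HP := [⟨[0,0,1],[⟨0,1,false⟩,⟨0,2,false⟩,⟨1,2,false⟩],(HT.leaf 3)⟩,⟨[0,0,3],[⟨0,1,false⟩,⟨0,2,false⟩,⟨1,2,false⟩],(HT.leaf 3)⟩,⟨[0,0,5],[⟨0,1,false⟩,⟨0,2,false⟩,⟨1,2,false⟩],(HT.leaf 3)⟩,⟨[0,1,1],[⟨0,1,false⟩,⟨0,2,false⟩,⟨1,2,false⟩],(HT.leaf 3)⟩,⟨[0,1,3],[⟨0,1,false⟩,⟨0,2,false⟩,⟨1,2,false⟩],(HT.br true 0 0 (HT.br true 1 1 (HT.br true 2 2 (HT.br true 0 1 (HT.leaf 4) (HT.br true 0 2 (HT.leaf 4) (HT.leaf 4))) (HT.leaf 2)) (HT.leaf 2)) (HT.leaf 2))⟩,⟨[0,1,3],[⟨0,1,true⟩,⟨0,2,false⟩,⟨1,2,false⟩],(HT.br true 0 0 (HT.br true 1 1 (HT.br true 2 2 (HT.br true 0 1 (HT.leaf 4) (HT.br true 0 2 (HT.leaf 4) (HT.leaf 3))) (HT.leaf 2)) (HT.leaf 2)) (HT.leaf 2))⟩,⟨[0,1,3],[⟨0,1,false⟩,⟨0,2,true⟩,⟨1,2,false⟩],(HT.br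 true 0 0 (HT.br true 1 1 (HT.br true 2 2 (HT.br true 0 1 (HT.leaf 4) (HT.leaf 4)) (HT.leaf 2)) (HT.leaf 2)) (HT.leaf 2))⟩,⟨[0,1,3],[⟨0,1,false⟩,⟨0,2,false⟩,⟨1,2,true⟩],(HT.br true 0 0 (HT.br true 1 1 (HT.br true 2 2 (HT.br true 0 1 (HT.leaf 4) (HT.leaf 4)) (HT.leaf 2)) (HT.leaf 2)) (HT.leaf 2))⟩,⟨[0,1,6],[],(HT.leaf 3)⟩,⟨[0,3,3],[⟨0,1,false⟩,⟨0,2,false⟩,⟨1,2,false⟩],(HT.leaf 3)⟩,⟨[0,3,6],[],(HT.leaf 3)⟩,⟨[0,5,5],[⟨0,1,false⟩,⟨0,2,false⟩,⟨1,2,false⟩],(HT.leaf 3)⟩,⟨[0,5,6],[],(HT.br true 0 0 (HT.br true 1 1 (HT.br true 2 2 (HT.br false 0 1 (HT.br false 0 2 (HT.leaf 1) (HT.br false 1 2 (HT.leaf 4) (HT.leaf 3))) (HT.leaf 3)) (HT.leaf 2)) (HT.leaf 2)) (HT.leaf 2))⟩,⟨[1,1,3],[⟨0,1,false⟩,⟨0,2,false⟩,⟨1,2,false⟩],(HT.leaf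 3)⟩,⟨[1,1,4],[⟨0,1,false⟩,⟨0,2,false⟩,⟨1,2,false⟩],(HT.leaf 3)⟩,⟨[1,3,3],[⟨0,1,false⟩,⟨0,2,false⟩,⟨1,2,false⟩],(HT.leaf 3)⟩,⟨[1,3,6],[],(HT.leaf 3)⟩,⟨[1,4,4],[⟨0,1,false⟩,⟨0,2,false⟩,⟨1,2,false⟩],(HT.leaf 3)⟩,⟨[1,4,6],[],(HT.br true 0 0 (HT.br true 1 1 (HT.br true 2 2 (HT.br false 0 1 (HT.br false 0 2 (HT.leaf 1) (HT.br false 1 2 (HT.leaf 4) (HT.leaf 3))) (HT.leaf 3)) (HT.leaf 2)) (HT.leaf 2)) (HT.leaf 2))⟩,⟨[2,2,3],[⟨0,1,false⟩,⟨0,2,false⟩,⟨1,2,false⟩],(HT.leaf 3)⟩,⟨[2,2,6],[⟨0,1,false⟩,⟨0,2,false⟩,⟨1,2,false⟩],(HT.leaf 3)⟩,⟨[2,3,3],[⟨0,1,false⟩,⟨0,2,false⟩,⟨1,2,false⟩],(HT.leaf 3)⟩,⟨[2,3,6],[],(HT.br true 0 0 (HT.br true 1 1 (HT.br true 2 2 (HT.br false 0 1 (HT.br false 0 2 (HT.leaf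 4) (HT.leaf 3)) (HT.leaf 3)) (HT.leaf 2)) (HT.leaf 2)) (HT.leaf 2))⟩,⟨[2,6,6],[⟨0,1,false⟩,⟨0,2,false⟩,⟨1,2,false⟩],(HT.leaf 3)⟩,⟨[4,4,6],[⟨0,1,false⟩,⟨0,2,false⟩,⟨1,2,false⟩],(HT.leaf 3)⟩,⟨[4,6,6],[⟨0,1,false⟩,⟨0,2,false⟩,⟨1,2,false⟩],(HT.leaf 3)⟩,⟨[5,5,6],[⟨0,1,false⟩,⟨0,2,false⟩,⟨1,2,false⟩],(HT.leaf 3)⟩,⟨[5,6,6],[⟨0,1,false⟩,⟨0,2,false⟩,⟨1,2,false⟩],(HT.leaf 3)⟩]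

end Pool.Agent.Lib.MP_849b2e_co
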