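import Pool.Agent.Lib.MP_849b2e_co.Fast
import Pool.Agent.Lib.MP_849b2e_co.Ta
import Pool.Agent.Lib.MP_849b2e_co.RApply
import Pool.Agent.Lib.MP_849b2e_co.TbK

set_option maxRecDepth 100000
set_option linter.all false
namespace Pool.Agent.Lib.MP_849b2e_co

noncomputable def a_o0c : Pq := (Pq.cons (Pq.L [] 7 (Pf.B 3 2 (Pf.B 3 1 (Pf.B 2 1 (Pf.C 2 0x604100) (Pf.C 0 130)) (Pf.C 0 131)) (Pf.C 0 259)))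
 Pq.nil)
theorem a_o0 : AllRef a_T a_G0 [⟨[[0],[0],[0],[0]],[⟨0,1,true⟩,⟨0,2,true⟩,⟨0,3,true⟩],[],[]⟩] :=
  chkPq_sound a_o0c _ (by decide +kernel)
noncomputable def a_o1c : Pq := (Pq.cons (Pq.L [] 7 (Pf.B 3 2 (Pf.B 3 1 (Pf.B 2 1 (Pf.C 2 0x604100) (Pf.C 0 130)) (Pf.C 0 131)) (Pf.C 0 259)))
 Pq.nil)
theorem a_o1 : AllRef a_T a_G0 (applyObl TD2 1 [0] [0] []) :=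
  chkPq_sound a_o1c _ (by decide +kernel)
noncomputable def a_o2c : Pq := Pq.nil
theorem a_o2 : AllRef a_T a_G1 (ptObl 0 PT.kid []) :=
  chkPq_sound a_o2c _ (by decide +kernel)
noncomputable def a_o3c : Pq := (Pq.cons (Pq.L [0,3] 0 (Pf.C 0 49156))
 (Pq.cons (Pq.L [0,2] 0 (Pf.C 0 32772))
 (Pq.cons (Pq.L [0,1] 0 (Pf.C 0 16388))
 Pq.nil)))
theorem a_o3 : AllRef a_T a_G2 (ptObl 1 (PT.br 0 (PT.br 1 (PT.br 2 (PT.br 3 PT.kid PT.kid) (PT.br 3 PT.kid PT.kid)) (PT.br 2 (PT.br 3 PT.kid PT.kid) (PT.br 3 PT.kid PT.kid))) (PT.br 1 (PT.br 2 (PT.br 3 PT.kid PT.ref) PT.ref) PT.ref)) []) :=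
  chkPq_sound a_o3c _ (by decide +kernel)
noncomputable def a_o4c : Pq := (Pq.cons (Pq.L [0,1,2,3] 0 (Pf.B 9 8 (Pf.B 9 7 (Pf.B 8 7 (Pf.C 1 0x243880608080) (Pf.B 9 6 (Pf.B 8 6 (Pf.C 1 0x243080608080) (Pf.B 7 6 (Pf.C 1 0x243070608080) (Pf.C 0 0x20307))) (Pf.B 9 5 (Pf.B 8 5 (Pf.C 1 0x242880608080) (Pf.B 7 5 (Pf.C 1 0x242870608080) (Pf.C 0 0x20287))) (Pf.B 6 5 (Pf.B 9 4 (Pf.B 8 4 (Pf.C 1 0x242080608080) (Pf.B 7 4 (Pf.C 1 0x242070608080) (Pf.C 0 0x20207))) (Pf.B 6 4 (Pf.B 5 4 (Pf.C 1 0xc1010c10289) (Pf.C 0 0x24205)) (Pf.C 0 0x24206))) (Pf.C 0 0x24286))))) (Pf.B 9 6 (Pf.B 8 6 (Pf.C 1 0x243080608080) (Pf.B 9 5 (Pf.B 8 5 (Pf.C 1 0x242880608080) (Pf.B 6 5 (Pf.C 1 0x242860608080) (Pf.C 0 0x20286))) (Pf.B 7 5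 (Pf.B 9 4 (Pf.B 8 4 (Pf.C 1 0x242080608080) (Pf.B 6 4 (Pf.C 1 0x242060608080) (Pf.C 0 0x20206))) (Pf.B 7 4 (Pf.B 5 4 (Pf.C 1 0xc1010e10289) (Pf.C 0 0x24205)) (Pf.C 0 0x24207))) (Pf.C 0 0x24287)))) (Pf.B 7 6 (Pf.B 9 5 (Pf.B 8 5 (Pf.C 1 0x242880608080) (Pf.B 9 4 (Pf.B 8 4 (Pf.C 1 0x242080608080) (Pf.B 5 4 (Pf.C 1 0x242050608080) (Pf.C 0 0x20205))) (Pf.B 7 4 (Pf.B 6 4 (Pf.C 1 0xc1010e10309) (Pf.C 0 0x24206)) (Pf.C 0 0x24207)))) (Pf.B 7 5 (Pf.B 6 5 (Pf.C 1 0xc1010e14309) (Pf.C 0 0x24286)) (Pf.C 0 0x24287))) (Pf.C 0 0x24307)))) (Pf.B 9 7 (Pf.B 9 6 (Pf.B 7 6 (Pf.C 1 0x243070608080) (Pf.B 9 5 (Pf.B 7 5 (Pf.C 1 0x242870608080) (Pf.B 6 5 (Pf.C 1 0x242860608080) (Pf.C 0 0x1c286))) (Pf.B 8 5 (Pf.B 9 4 (Pf.B 7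 4 (Pf.C 1 0x242070608080) (Pf.B 6 4 (Pf.C 1 0x242060608080) (Pf.C 0 0x1c206))) (Pf.B 8 4 (Pf.B 5 4 (Pf.C 1 0xc1011010289) (Pf.C 0 0x24205)) (Pf.C 0 0x24208))) (Pf.C 0 0x24288)))) (Pf.B 8 6 (Pf.B 9 5 (Pf.B 7 5 (Pf.C 1 0x242870608080) (Pf.B 9 4 (Pf.B 7 4 (Pf.C 1 0x242070608080) (Pf.B 5 4 (Pf.C 1 0x242050608080) (Pf.C 0 0x1c205))) (Pf.B 8 4 (Pf.B 6 4 (Pf.C 1 0xc1011010309) (Pf.C 0 0x24206)) (Pf.C 0 0x24208)))) (Pf.B 8 5 (Pf.B 6 5 (Pf.C 1 0xc1011014309) (Pf.C 0 0x24286)) (Pf.C 0 0x24288))) (Pf.C 0 0x24308))) (Pf.B 8 7 (Pf.B 9 6 (Pf.B 9 5 (Pf.B 6 5 (Pf.C 1 0x242860608080) (Pf.B 9 4 (Pf.B 6 4 (Pf.C 1 0x242060608080) (Pf.B 5 4 (Pf.C 1 0x242050608080) (Pf.C 0 98821))) (Pf.B 8 4 (Pf.B 7 4 (Pf.C 1 0xc1011010389)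 (Pf.C 0 0x24207)) (Pf.C 0 0x24208)))) (Pf.B 8 5 (Pf.B 7 5 (Pf.C 1 0xc1011014389) (Pf.C 0 0x24287)) (Pf.C 0 0x24288))) (Pf.B 8 6 (Pf.B 7 6 (Pf.C 1 0xc1011018389) (Pf.C 0 0x24307)) (Pf.C 0 0x24308))) (Pf.C 0 0x24388)))))
 Pq.nil)
theorem a_o4 : AllRef a_T a_G3 (hitObl [2] a_h6) :=
  chkPq_sound a_o4c _ (by decide +kernel)
noncomputable def a_o5c : Pq := (Pq.cons (Pq.L [] 0 (Pf.C 3 4))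
 Pq.nil)
theorem a_o5 : AllRef a_T a_G4 (List.map pat1 [11]) :=
  chkPq_sound a_o5c _ (by decide +kernel)
noncomputable def a_o6c : Pq := (Pq.cons (Pq.L [1,2,3] 0 (Pf.B 9 8 (Pf.B 9 7 (Pf.B 9 6 (Pf.B 9 5 (Pf.B 8 7 (Pf.B 8 6 (Pf.B 8 5 (Pf.B 7 6 (Pf.B 7 5 (Pf.B 6 5 (Pf.C 1 0x20086121c282) (Pf.C 0 49798)) (Pf.C 0 33415)) (Pf.C 0 49927)) (Pf.C 0 49800)) (Pf.C 0 49928)) (Pf.C 0 50056)) (Pf.C 0 33417)) (Pf.C 0 49929)) (Pf.C 0 33673)) (Pf.C 0 50185)))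
 (Pq.cons (Pq.L [1,2,3] 0 (Pf.B 9 8 (Pf.B 9 7 (Pf.B 9 6 (Pf.B 9 5 (Pf.B 8 7 (Pf.B 8 6 (Pf.B 8 5 (Pf.B 7 6 (Pf.B 7 5 (Pf.B 6 5 (Pf.C 1 0x20106121c281) (Pf.C 0 49798)) (Pf.C 0 17031)) (Pf.C 0 49927)) (Pf.C 0 49800)) (Pf.C 0 49928)) (Pf.C 0 50056)) (Pf.C 0 17033)) (Pf.C 0 49929)) (Pf.C 0 17289)) (Pf.C 0 50185)))
 (Pq.cons (Pq.L [0,1,3] 0 (Pf.B 9 8 (Pf.B 9 7 (Pf.B 9 6 (Pf.B 9 4 (Pf.B 8 7 (Pf.B 8 6 (Pf.B 8 4 (Pf.B 7 6 (Pf.B 7 4 (Pf.B 6 4 (Pf.C 1 0x20206121c001) (Pf.C 0 49670)) (Pf.C 0 49671)) (Pf.C 0 49927)) (Pf.C 0 49672)) (Pf.C 0 49928)) (Pf.C 0 50056)) (Pf.C 0 49673)) (Pf.C 0 49929)) (Pf.C 0 17289)) (Pf.C 0 50185)))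
 (Pq.cons (Pq.L [0,1,2,3] 15 (Pf.B 11 9 (Pf.B 11 7 (Pf.B 11 5 (Pf.B 10 8 (Pf.B 10 6 (Pf.B 10 4 (Pf.B 9 7 (Pf.B 9 5 (Pf.B 8 6 (Pf.B 8 4 (Pf.B 6 4 (Pf.B 11 8 (Pf.B 11 6 (Pf.C 1 0x284060404580) (Pf.B 11 4 (Pf.C 1 0x284040404580) (Pf.B 9 6 (Pf.B 9 4 (Pf.C 1 0x203040404480) (Pf.C 1 0x14101160c484)) (Pf.C 1 0x1c101160c486)))) (Pf.B 8 7 (Pf.B 10 7 (Pf.C 1 0x80871018503) (Pf.B 10 9 (Pf.B 9 6 (Pf.C 1 0x284060404480) (Pf.B 11 6 (Pf.B 11 4 (Pf.C 1 0x283040404580) (Pf.B 9 4 (Pf.C 1 0x284040404480) (Pf.C 1 0x14101160c484))) (Pf.C 1 0x1c101120c586))) (Pf.C 1 0x2c1010e0c48a))) (Pf.C 1 0x24101160c388))) (Pf.C 0 49670)) (Pf.C 0 49672)) (Pf.C 0 49928)) (Pf.C 0 649)) (Pf.C 0 905)) (Pf.C 0 49674)) (Pf.C 0 49930)) (Pf.C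 0 50186)) (Pf.C 0 651)) (Pf.C 0 907)) (Pf.C 0 1163)))
 (Pq.cons (Pq.L [1,2,3] 0 (Pf.B 9 8 (Pf.B 9 7 (Pf.B 9 6 (Pf.B 9 5 (Pf.B 8 7 (Pf.B 8 6 (Pf.B 8 5 (Pf.B 7 6 (Pf.B 7 5 (Pf.B 6 5 (Pf.C 1 0x20086121c283) (Pf.C 0 33414)) (Pf.C 0 33415)) (Pf.C 0 33543)) (Pf.C 0 33416)) (Pf.C 0 33544)) (Pf.C 0 33672)) (Pf.C 0 33417)) (Pf.C 0 33545)) (Pf.C 0 33673)) (Pf.C 0 33801)))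
 (Pq.cons (Pq.L [1,2,3] 0 (Pf.B 9 8 (Pf.B 9 7 (Pf.B 9 6 (Pf.B 9 5 (Pf.B 8 7 (Pf.B 8 6 (Pf.B 8 5 (Pf.B 7 6 (Pf.B 7 5 (Pf.B 6 5 (Pf.C 1 0x20186121c281) (Pf.C 0 33414)) (Pf.C 0 17031)) (Pf.C 0 33543)) (Pf.C 0 33416)) (Pf.C 0 33544)) (Pf.C 0 33672)) (Pf.C 0 17033)) (Pf.C 0 33545)) (Pf.C 0 17289)) (Pf.C 0 33801)))
 (Pq.cons (Pq.L [0,1,2] 0 (Pf.B 9 8 (Pf.B 9 7 (Pf.B 9 6 (Pf.B 9 4 (Pf.B 8 7 (Pf.B 8 6 (Pf.B 8 4 (Pf.B 7 6 (Pf.B 7 4 (Pf.B 6 4 (Pf.C 1 0x20206121c001) (Pf.C 0 33286)) (Pf.C 0 33287)) (Pf.C 0 33543)) (Pf.C 0 33288)) (Pf.C 0 33544)) (Pf.C 0 33672)) (Pf.C 0 33289)) (Pf.C 0 33545)) (Pf.C 0 17289)) (Pf.C 0 33801)))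
 (Pq.cons (Pq.L [0,1,2,3] 15 (Pf.B 11 9 (Pf.B 11 7 (Pf.B 11 5 (Pf.B 10 8 (Pf.B 10 6 (Pf.B 10 4 (Pf.B 9 7 (Pf.B 9 5 (Pf.B 8 6 (Pf.B 8 4 (Pf.B 6 4 (Pf.B 11 8 (Pf.B 11 6 (Pf.C 1 0x284060604580) (Pf.B 11 4 (Pf.C 1 0x284040604580) (Pf.B 9 6 (Pf.B 9 4 (Pf.C 1 0x203040604480) (Pf.C 1 0x141811608484)) (Pf.C 1 0x1c1811608486)))) (Pf.B 8 7 (Pf.B 10 7 (Pf.C 1 0xc0871018502) (Pf.B 10 9 (Pf.B 9 6 (Pf.C 1 0x284060604480) (Pf.B 11 6 (Pf.B 11 4 (Pf.C 1 0x283040604580) (Pf.B 9 4 (Pf.C 1 0x284040604480) (Pf.C 1 0x141811608484))) (Pf.C 1 0x1c1811208586))) (Pf.C 1 0x2c1810e0848a))) (Pf.C 1 0x241811608388))) (Pf.C 0 33286)) (Pf.C 0 33288)) (Pf.C 0 33544)) (Pf.C 0 649)) (Pf.C 0 905)) (Pf.C 0 33290)) (Pf.C 0 33546)) (Pf.C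 0 33802)) (Pf.C 0 651)) (Pf.C 0 907)) (Pf.C 0 1163)))
 (Pq.cons (Pq.L [0,1,2,3] 0 (Pf.B 9 8 (Pf.B 9 7 (Pf.B 9 6 (Pf.B 9 5 (Pf.B 8 7 (Pf.B 8 6 (Pf.B 8 5 (Pf.B 7 6 (Pf.B 7 5 (Pf.B 6 5 (Pf.C 1 0x243851000302) (Pf.C 0 49798)) (Pf.C 0 17031)) (Pf.C 0 49927)) (Pf.C 0 49800)) (Pf.C 0 33544)) (Pf.C 0 50056)) (Pf.C 0 17033)) (Pf.C 0 49929)) (Pf.C 0 17289)) (Pf.C 0 50185)))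
 (Pq.cons (Pq.L [0,1,2,3] 0 (Pf.B 9 8 (Pf.B 9 7 (Pf.B 9 6 (Pf.B 9 5 (Pf.B 8 7 (Pf.B 8 6 (Pf.B 8 5 (Pf.B 7 6 (Pf.B 7 5 (Pf.B 6 5 (Pf.C 1 0x243851000303) (Pf.C 0 33414)) (Pf.C 0 17031)) (Pf.C 0 33543)) (Pf.C 0 33416)) (Pf.C 0 33544)) (Pf.C 0 33672)) (Pf.C 0 17033)) (Pf.C 0 33545)) (Pf.C 0 17289)) (Pf.C 0 33801)))
 (Pq.cons (Pq.L [0,1,2] 0 (Pf.B 9 8 (Pf.B 9 7 (Pf.B 9 6 (Pf.B 9 4 (Pf.B 8 7 (Pf.B 8 6 (Pf.B 8 4 (Pf.B 7 6 (Pf.B 7 4 (Pf.B 6 4 (Pf.C 1 0x20206121c001) (Pf.C 0 33286)) (Pf.C 0 33287)) (Pf.C 0 33543)) (Pf.C 0 33288)) (Pf.C 0 33544)) (Pf.C 0 33672)) (Pf.C 0 33289)) (Pf.C 0 33545)) (Pf.C 0 17289)) (Pf.C 0 33801)))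
 (Pq.cons (Pq.L [1,2,3] 0 (Pf.B 9 8 (Pf.B 9 7 (Pf.B 9 6 (Pf.B 9 5 (Pf.B 8 7 (Pf.B 8 6 (Pf.B 8 5 (Pf.B 7 6 (Pf.B 7 5 (Pf.B 6 5 (Pf.C 1 0x20106121c283) (Pf.C 0 17030)) (Pf.C 0 17031)) (Pf.C 0 17159)) (Pf.C 0 17032)) (Pf.C 0 17160)) (Pf.C 0 17288)) (Pf.C 0 17033)) (Pf.C 0 17161)) (Pf.C 0 17289)) (Pf.C 0 17417)))
 (Pq.cons (Pq.L [1,2,3] 0 (Pf.B 9 8 (Pf.B 9 7 (Pf.B 9 6 (Pf.B 9 5 (Pf.B 8 7 (Pf.B 8 6 (Pf.B 8 5 (Pf.B 7 6 (Pf.B 7 5 (Pf.B 6 5 (Pf.C 1 0x20186121c282) (Pf.C 0 17030)) (Pf.C 0 17031)) (Pf.C 0 17159)) (Pf.C 0 17032)) (Pf.C 0 17160)) (Pf.C 0 17288)) (Pf.C 0 17033)) (Pf.C 0 17161)) (Pf.C 0 17289)) (Pf.C 0 17417)))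
 (Pq.cons (Pq.L [0,1,2] 0 (Pf.B 9 8 (Pf.B 9 7 (Pf.B 9 6 (Pf.B 9 4 (Pf.B 8 7 (Pf.B 8 6 (Pf.B 8 4 (Pf.B 7 6 (Pf.B 7 4 (Pf.B 6 4 (Pf.C 1 0x20206121c002) (Pf.C 0 16902)) (Pf.C 0 16903)) (Pf.C 0 17159)) (Pf.C 0 16904)) (Pf.C 0 17160)) (Pf.C 0 17288)) (Pf.C 0 16905)) (Pf.C 0 17161)) (Pf.C 0 17289)) (Pf.C 0 17417)))
 (Pq.cons (Pq.L [0,1,2,3] 15 (Pf.B 11 9 (Pf.B 11 7 (Pf.B 11 5 (Pf.B 10 8 (Pf.B 10 6 (Pf.B 10 4 (Pf.B 9 7 (Pf.B 9 5 (Pf.B 8 6 (Pf.B 8 4 (Pf.B 6 4 (Pf.B 11 8 (Pf.B 11 6 (Pf.C 1 0x284060608580) (Pf.B 11 4 (Pf.C 1 0x284040608580) (Pf.B 9 6 (Pf.B 9 4 (Pf.C 1 0x203040608480) (Pf.C 1 0x141821604484)) (Pf.C 1 0x1c1821604486)))) (Pf.B 8 7 (Pf.B 10 7 (Pf.C 1 0xc1071018501) (Pf.B 10 9 (Pf.B 9 6 (Pf.C 1 0x284060608480)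 (Pf.B 11 6 (Pf.B 11 4 (Pf.C 1 0x283040608580) (Pf.B 9 4 (Pf.C 1 0x284040608480) (Pf.C 1 0x141821604484))) (Pf.C 1 0x1c1821204586))) (Pf.C 1 0x2c1820e0448a))) (Pf.C 1 0x241821604388))) (Pf.C 0 16902)) (Pf.C 0 16904)) (Pf.C 0 17160)) (Pf.C 0 649)) (Pf.C 0 905)) (Pf.C 0 16906)) (Pf.C 0 17162)) (Pf.C 0 17418)) (Pf.C 0 651)) (Pf.C 0 907)) (Pf.C 0 1163)))
 (Pq.cons (Pq.L [0,1,3] 0 (Pf.B 9 8 (Pf.B 9 7 (Pf.B 9 6 (Pf.B 9 5 (Pf.B 8 7 (Pf.B 8 6 (Pf.B 8 5 (Pf.B 7 6 (Pf.B 7 5 (Pf.B 6 5 (Pf.C 1 0x243851000303) (Pf.C 0 17030)) (Pf.C 0 17031)) (Pf.C 0 17159)) (Pf.C 0 17032)) (Pf.C 0 17160)) (Pf.C 0 17288)) (Pf.C 0 17033)) (Pf.C 0 17161)) (Pf.C 0 17289)) (Pf.C 0 17417)))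
 (Pq.cons (Pq.L [0,1,2] 0 (Pf.B 9 8 (Pf.B 9 7 (Pf.B 9 6 (Pf.B 9 4 (Pf.B 8 7 (Pf.B 8 6 (Pf.B 8 4 (Pf.B 7 6 (Pf.B 7 4 (Pf.B 6 4 (Pf.C 1 0x20206121c002) (Pf.C 0 16902)) (Pf.C 0 16903)) (Pf.C 0 17159)) (Pf.C 0 16904)) (Pf.C 0 17160)) (Pf.C 0 17288)) (Pf.C 0 16905)) (Pf.C 0 17161)) (Pf.C 0 17289)) (Pf.C 0 17417)))
 (Pq.cons (Pq.L [0,1,3] 0 (Pf.B 9 8 (Pf.B 9 7 (Pf.B 9 6 (Pf.B 9 4 (Pf.B 8 7 (Pf.B 8 6 (Pf.B 8 4 (Pf.B 7 6 (Pf.B 7 4 (Pf.B 6 4 (Pf.C 1 0x20206121c003) (Pf.C 0 16902)) (Pf.C 0 16903)) (Pf.C 0 17159)) (Pf.C 0 16904)) (Pf.C 0 17160)) (Pf.C 0 17288)) (Pf.C 0 16905)) (Pf.C 0 17161)) (Pf.C 0 17289)) (Pf.C 0 17417)))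
 Pq.nil))))))))))))))))))
theorem a_o6 : AllRef a_T a_G5 (hitObl [3,4,5,6,7,8,9,10] a_h8) :=
  chkPq_sound a_o6c _ (by decide +kernel)
noncomputable def a_o7c : Pq := (Pq.cons (Pq.L [1,2,3] 511 (Pf.B 12 9 (Pf.B 12 6 (Pf.B 11 8 (Pf.B 11 7 (Pf.B 11 5 (Pf.B 11 4 (Pf.B 10 8 (Pf.B 10 7 (Pf.B 10 5 (Pf.B 10 4 (Pf.B 8 5 (Pf.B 8 4 (Pf.B 7 5 (Pf.B 7 4 (Pf.B 12 8 (Pf.B 12 7 (Pf.B 11 9 (Pf.C 1 0x30089101c583) (Pf.B 10 9 (Pf.C 1 0x30089101c503) (Pf.C 1 0x203811608509))) (Pf.B 12 5 (Pf.B 12 4 (Pf.B 11 6 (Pf.C 1 0x300860a10583) (Pf.B 10 6 (Pf.C 1 0x300860a10503) (Pf.C 1 0x142011608506))) (Pf.C 1 0x202810e0820c)) (Pf.C 1 0x284010e0828c))) (Pf.B 12 7 (Pf.B 12 5 (Pf.B 12 4 (Pf.B 11 6 (Pf.C 1 0x300860a10583) (Pf.B 10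 6 (Pf.C 1 0x300860a10503) (Pf.C 1 0x142011608506))) (Pf.C 1 0x1c281100820c)) (Pf.C 1 0x28381100828c)) (Pf.C 1 0x2c501100838c))) (Pf.C 0 49671)) (Pf.C 0 49799)) (Pf.C 0 49672)) (Pf.C 0 49800)) (Pf.C 0 49674)) (Pf.C 0 49802)) (Pf.C 0 50058)) (Pf.C 0 50186)) (Pf.C 0 49675)) (Pf.C 0 49803)) (Pf.C 0 50059)) (Pf.C 0 50187)) (Pf.C 0 33548)) (Pf.C 0 33932)))
 (Pq.cons (Pq.L [1,2,3] 511 (Pf.B 12 9 (Pf.B 12 6 (Pf.B 11 8 (Pf.B 11 7 (Pf.B 11 5 (Pf.B 11 4 (Pf.B 10 8 (Pf.B 10 7 (Pf.B 10 5 (Pf.B 10 4 (Pf.B 8 5 (Pf.B 8 4 (Pf.B 7 5 (Pf.B 7 4 (Pf.B 12 8 (Pf.B 12 7 (Pf.B 11 9 (Pf.C 1 0x30109101c583) (Pf.B 10 9 (Pf.C 1 0x30109101c503) (Pf.C 1 0x203821604509))) (Pf.B 12 5 (Pf.B 12 4 (Pf.B 11 6 (Pf.C 1 0x301060a10583) (Pf.B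 10 6 (Pf.C 1 0x301060a10503) (Pf.C 1 0x142021604506))) (Pf.C 1 0x202820e0420c)) (Pf.C 1 0x284020e0428c))) (Pf.B 12 7 (Pf.B 12 5 (Pf.B 12 4 (Pf.B 11 6 (Pf.C 1 0x301060a10583) (Pf.B 10 6 (Pf.C 1 0x301060a10503) (Pf.C 1 0x142021604506))) (Pf.C 1 0x1c282100420c)) (Pf.C 1 0x28382100428c)) (Pf.C 1 0x2c502100438c))) (Pf.C 0 49671)) (Pf.C 0 49799)) (Pf.C 0 49672)) (Pf.C 0 49800)) (Pf.C 0 49674)) (Pf.C 0 49802)) (Pf.C 0 50058)) (Pf.C 0 50186)) (Pf.C 0 49675)) (Pf.C 0 49803)) (Pf.C 0 50059)) (Pf.C 0 50187)) (Pf.C 0 17164)) (Pf.C 0 17548)))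
 (Pq.cons (Pq.L [0,1,2,3] 504 (Pf.B 12 9 (Pf.B 11 8 (Pf.B 11 7 (Pf.B 11 5 (Pf.B 10 8 (Pf.B 10 7 (Pf.B 10 5 (Pf.B 8 5 (Pf.B 7 5 (Pf.B 12 8 (Pf.B 12 7 (Pf.B 11 9 (Pf.C 1 0x2038b1800481) (Pf.B 10 9 (Pf.C 1 0x2038a1608089) (Pf.B 9 5 (Pf.C 1 0x203851408089) (Pf.C 1 0x203801628289)))) (Pf.C 1 0x2c508040438c)) (Pf.B 12 7 (Pf.C 1 0x2c507100808c) (Pf.B 12 5 (Pf.C 1 0x2c5050e0808c) (Pf.C 1 0x2c500101c28c)))) (Pf.C 0 49799)) (Pf.C 0 49800)) (Pf.C 0 49802)) (Pf.C 0 50058)) (Pf.C 0 50186)) (Pf.C 0 49803)) (Pf.C 0 50059)) (Pf.C 0 50187)) (Pf.C 0 17548)))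
 (Pq.cons (Pq.L [0,1,2,3] 511 (Pf.B 12 9 (Pf.B 12 8 (Pf.B 12 6 (Pf.B 12 5 (Pf.B 11 9 (Pf.B 11 8 (Pf.B 11 6 (Pf.B 11 5 (Pf.B 10 7 (Pf.B 10 4 (Pf.B 9 6 (Pf.B 9 5 (Pf.B 8 6 (Pf.B 8 5 (Pf.B 7 4 (Pf.B 12 7 (Pf.B 12 4 (Pf.B 11 7 (Pf.B 10 9 (Pf.C 1 0x305890e00503) (Pf.B 10 8 (Pf.C 1 0x305880e00503) (Pf.C 1 0x30581120c40a))) (Pf.B 7 6 (Pf.B 10 6 (Pf.C 1 0x300860e10503) (Pf.B 10 9 (Pf.B 10 8 (Pf.C 1 0x304880e00503) (Pf.C 1 0x2c4810c0c40a)) (Pf.C 1 0x305810c0c48a))) (Pf.C 1 0x24401160c307))) (Pf.B 11 4 (Pf.B 9 4 (Pf.B 8 4 (Pf.B 11 7 (Pf.C 1 0x100871220582) (Pf.B 7 6 (Pf.C 1 0x244060800383) (Pf.C 1 0x24401160c307))) (Pf.C 1 0x18281180c404)) (Pf.C 1 0x18281180c484)) (Pf.C 1 0x18281180c584))) (Pf.B 11 7 (Pf.B 7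 6 (Pf.B 7 5 (Pf.B 11 4 (Pf.C 1 0x1c0840c14582) (Pf.B 9 4 (Pf.C 1 0x1c0840c14482) (Pf.C 1 0x18281160c484))) (Pf.C 1 0x20301180c287)) (Pf.C 1 0x24401180c307)) (Pf.C 1 0x24401180c587))) (Pf.C 0 49671)) (Pf.C 0 33416)) (Pf.C 0 33544)) (Pf.C 0 33417)) (Pf.C 0 33545)) (Pf.C 0 49674)) (Pf.C 0 50058)) (Pf.C 0 33419)) (Pf.C 0 33547)) (Pf.C 0 33803)) (Pf.C 0 33931)) (Pf.C 0 33420)) (Pf.C 0 33548)) (Pf.C 0 33804)) (Pf.C 0 33932)))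
 (Pq.cons (Pq.L [0,3] 0x451519008 (Pf.C 1 0x385880e00203))
 (Pq.cons (Pq.L [0,3] 0x8509431010 (Pf.C 1 0x3c6090e00203))
 (Pq.cons (Pq.L [0,1] 0x1881a062900 (Pf.B 15 11 (Pf.B 15 8 (Pf.B 14 12 (Pf.B 12 8 (Pf.C 1 0x385881e00601) (Pf.C 0 66572)) (Pf.C 0 67086)) (Pf.C 0 66575)) (Pf.C 0 66959)))
 (Pq.cons (Pq.L [1] 64 (Pf.C 0 0x24086))
 (Pq.cons (Pq.L [2] 64 (Pf.C 0 0x20105))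
 (Pq.cons (Pq.L [3] 64 (Pf.C 0 0x1c184))
 (Pq.cons (Pq.L [0,1,2,3] 0xfffffffff (Pf.B 13 11 (Pf.B 7 5 (Pf.B 15 11 (Pf.B 15 10 (Pf.B 15 8 (Pf.B 15 7 (Pf.B 15 4 (Pf.C 1 0x3858f0e00203) (Pf.B 15 5 (Pf.C 1 0x385880614784) (Pf.C 0 66191))) (Pf.B 15 5 (Pf.C 1 0x38585100c787) (Pf.B 15 4 (Pf.B 14 12 (Pf.B 12 8 (Pf.C 1 0x385881e00601) (Pf.B 12 7 (Pf.B 12 5 (Pf.B 9 5 (Pf.B 14 9 (Pf.C 1 0x303890a00702) (Pf.B 11 9 (Pf.C 1 0x303890a00582) (Pf.C 1 0x202831c04589))) (Pf.C 1 0x303031e08485)) (Pf.C 1 0x38583100428c)) (Pf.C 0 0x2038c))) (Pf.B 13 12 (Pf.B 12 4 (Pf.C 1 0x345041e00601) (Pf.B 12 8 (Pf.B 11 9 (Pf.C 1 0x3c6091000582) (Pf.B 11 6 (Pf.B 14 6 (Pf.C 1 0x3c2061600702) (Pf.B 13 6 (Pf.C 1 0x3c580181868e) (Pf.C 0 0x3830d)))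 (Pf.C 1 0x3c603120830b))) (Pf.C 1 0x3c5801c1040c))) (Pf.C 0 0x3860d))) (Pf.C 0 82447)))) (Pf.B 15 7 (Pf.B 15 5 (Pf.B 14 12 (Pf.B 12 5 (Pf.C 1 0x385851e00601) (Pf.B 9 5 (Pf.B 14 9 (Pf.C 1 0x3c3890a00702) (Pf.B 11 9 (Pf.C 1 0x3c3890a00582) (Pf.C 1 0x202831c04589))) (Pf.C 1 0x3c3031808485))) (Pf.B 13 12 (Pf.B 12 7 (Pf.C 1 0x345071e00601) (Pf.B 12 8 (Pf.B 12 5 (Pf.B 11 6 (Pf.C 1 0x3c6060a00582) (Pf.B 11 9 (Pf.B 14 9 (Pf.C 1 0x3c3891600702) (Pf.B 13 9 (Pf.C 1 0x3c580182468e) (Pf.C 0 0x3848d))) (Pf.C 1 0x3c6030c0848b))) (Pf.C 1 0x2c4031c0428c)) (Pf.C 0 0x1c40c))) (Pf.C 0 0x3860d))) (Pf.C 1 0x38583100428f)) (Pf.C 0 0x2038f))) (Pf.B 15 8 (Pf.B 15 7 (Pf.B 15 4 (Pf.C 1 0x3858f0e00203) (Pf.C 1 0x34382140420f))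 (Pf.B 15 5 (Pf.C 1 0x38585100c787) (Pf.B 15 4 (Pf.C 1 0x34104141c08f) (Pf.C 0 82447)))) (Pf.B 15 7 (Pf.B 15 4 (Pf.C 1 0x3858f0e00203) (Pf.C 1 0x34382140420f)) (Pf.C 0 0x2038f)))) (Pf.B 15 10 (Pf.B 15 8 (Pf.B 15 5 (Pf.B 15 7 (Pf.B 10 5 (Pf.C 1 0x3c7050e00503) (Pf.B 13 5 (Pf.C 1 0x1c08d1410105) (Pf.B 14 12 (Pf.B 12 7 (Pf.C 1 0x385071e00601) (Pf.B 12 8 (Pf.B 14 9 (Pf.C 1 0x3c6091000702) (Pf.B 14 6 (Pf.B 13 9 (Pf.B 12 5 (Pf.C 1 0x384051e00601) (Pf.B 12 4 (Pf.B 11 6 (Pf.C 1 0x302061c00582) (Pf.B 11 9 (Pf.C 1 0x301891e1810b) (Pf.B 10 9 (Pf.C 1 0x343801e2450b) (Pf.C 0 0x2c48a)))) (Pf.C 0 82444))) (Pf.C 0 0x3848d)) (Pf.C 1 0x3c603120830e))) (Pf.C 0 0x1c40c))) (Pf.B 13 12 (Pf.B 12 7 (Pf.C 1 0x345071e00601)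 (Pf.B 12 8 (Pf.B 12 5 (Pf.B 9 5 (Pf.C 1 0x201851e30481) (Pf.B 13 9 (Pf.B 10 9 (Pf.C 1 0x3c3801a24505) (Pf.C 0 83082)) (Pf.C 0 83085))) (Pf.C 1 0x2c4031c0428c)) (Pf.C 0 0x1c40c))) (Pf.C 0 0x3860d))))) (Pf.B 15 4 (Pf.B 10 8 (Pf.C 1 0x3c7080800503) (Pf.B 13 8 (Pf.C 1 0x1008d141c108) (Pf.B 13 5 (Pf.C 1 0x2c0851c2018d) (Pf.B 14 12 (Pf.B 12 4 (Pf.C 1 0x385041e00601) (Pf.B 12 5 (Pf.B 14 6 (Pf.C 1 0x3c6060a00702) (Pf.B 14 9 (Pf.B 12 8 (Pf.C 1 0x382881e00601) (Pf.B 12 7 (Pf.B 11 9 (Pf.C 1 0x303891c00582) (Pf.B 10 9 (Pf.C 1 0x386001e2450b) (Pf.C 0 0x2c48a))) (Pf.C 0 0x2038c))) (Pf.C 1 0x3c6030c0848e))) (Pf.C 0 66188))) (Pf.B 13 12 (Pf.B 12 4 (Pf.C 1 0x345041e00601) (Pf.B 12 7 (Pf.B 12 5 (Pf.B 12 8 (Pf.B 9 5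 (Pf.C 1 0x201851e30481) (Pf.B 13 9 (Pf.B 13 6 (Pf.C 1 0x3c6061208685) (Pf.B 14 6 (Pf.B 14 9 (Pf.B 11 9 (Pf.C 1 0x3438b1800481) (Pf.C 1 0x384030a04589)) (Pf.C 1 0x3c303180848e)) (Pf.C 0 0x3430e))) (Pf.C 0 83085))) (Pf.C 1 0x2c2831c0440c)) (Pf.C 0 66188)) (Pf.C 1 0x34502080438c))) (Pf.C 0 0x3860d)))))) (Pf.C 1 0x345020e0420f))) (Pf.C 1 0x38403160428f)) (Pf.B 15 7 (Pf.B 15 5 (Pf.C 1 0x38185162008f) (Pf.B 15 4 (Pf.C 1 0x34384140878b) (Pf.C 0 82447))) (Pf.C 0 0x2038f))) (Pf.C 0 0x2c50f))) (Pf.C 1 0x38581100c287)) (Pf.C 1 0x1c201140868b)))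
 (Pq.cons (Pq.L [0,3] 0x8509431010 (Pf.C 1 0x3c6090e00203))
 (Pq.cons (Pq.L [0,1] 0x62d721 (Pf.B 12 8 (Pf.B 12 5 (Pf.B 11 9 (Pf.B 9 5 (Pf.C 1 0x2c4051800481) (Pf.C 0 66185)) (Pf.C 0 66699)) (Pf.C 0 66188)) (Pf.C 0 66572)))
 (Pq.cons (Pq.L [1] 64 (Pf.C 0 0x24086))
 (Pq.cons (Pq.L [2] 64 (Pf.C 0 0x20105))
 (Pq.cons (Pq.L [3] 64 (Pf.C 0 0x1c184))
 (Pq.cons (Pq.L [0,3] 0x451519008 (Pf.C 1 0x385880e00203))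
 (Pq.cons (Pq.L [0,1,2] 0xfb8b98dd0 (Pf.B 14 12 (Pf.B 14 9 (Pf.B 13 11 (Pf.C 1 0x2808d0e1010b) (Pf.B 15 11 (Pf.B 11 9 (Pf.C 1 0x3c6091c00582) (Pf.C 0 0x1c48b)) (Pf.C 0 0x3458f))) (Pf.C 0 0x1c48e)) (Pf.C 0 0x2860e)))
 (Pq.cons (Pq.L [1] 64 (Pf.C 0 0x24086))
 (Pq.cons (Pq.L [2] 64 (Pf.C 0 0x20105))
 (Pq.cons (Pq.L [3] 64 (Pf.C 0 0x1c184))
 (Pq.cons (Pq.L [0,3] 0x451519008 (Pf.C 1 0x385880e00203))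
 (Pq.cons (Pq.L [0,1,2] 0xb98998dc0 (Pf.B 15 10 (Pf.B 15 7 (Pf.B 13 11 (Pf.C 1 0x2808d0e1010b) (Pf.B 13 12 (Pf.B 12 7 (Pf.C 1 0x345071e00601) (Pf.C 0 0x2c38c)) (Pf.C 0 0x2c60d))) (Pf.C 0 0x3838f)) (Pf.C 0 0x3850f)))
 (Pq.cons (Pq.L [1] 64 (Pf.C 0 0x24086))
 (Pq.cons (Pq.L [2] 64 (Pf.C 0 0x20105))
 (Pq.cons (Pq.L [3] 64 (Pf.C 0 0x1c184))
 (Pq.cons (Pq.L [0,2,3] 0 (Pf.B 12 11 (Pf.C 11 1547) (Pf.B 12 10 (Pf.C 7 1546) (Pf.B 12 8 (Pf.C 11 1544) (Pf.B 12 7 (Pf.C 7 1543) (Pf.B 12 5 (Pf.C 11 1541) (Pf.B 11 10 (Pf.B 11 8 (Pf.B 11 7 (Pf.B 11 5 (Pf.B 10 8 (Pf.B 10 7 (Pf.B 10 5 (Pf.B 9 8 (Pf.C 11 1160) (Pf.B 9 7 (Pf.C 7 1159) (Pf.B 9 5 (Pf.C 11 1157) (Pf.B 8 7 (Pf.B 8 5 (Pf.B 7 5 (Pf.C 1 0x2c4051400383) (Pf.C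 0 0x24287)) (Pf.C 0 33416)) (Pf.C 0 0x24388))))) (Pf.C 0 0x3028a)) (Pf.C 0 50058)) (Pf.C 0 0x3040a)) (Pf.C 0 33419)) (Pf.C 0 0x3038b)) (Pf.C 0 33803)) (Pf.C 0 0x3050b))))))))
 (Pq.cons (Pq.L [0,1,2,3] 511 (Pf.B 12 9 (Pf.B 12 8 (Pf.B 12 6 (Pf.B 12 5 (Pf.B 11 9 (Pf.B 11 8 (Pf.B 11 6 (Pf.B 11 5 (Pf.B 10 7 (Pf.B 10 4 (Pf.B 9 6 (Pf.B 9 5 (Pf.B 8 6 (Pf.B 8 5 (Pf.B 7 4 (Pf.B 12 7 (Pf.B 12 4 (Pf.B 11 7 (Pf.B 10 9 (Pf.C 1 0x305890e00503) (Pf.B 10 8 (Pf.C 1 0x305880e00503) (Pf.C 1 0x30582120c40a))) (Pf.B 7 6 (Pf.B 10 6 (Pf.C 1 0x301060e10503) (Pf.B 10 9 (Pf.B 10 8 (Pf.C 1 0x304880e00503) (Pf.C 1 0x2c4820c0c40a)) (Pf.C 1 0x305820c0c48a))) (Pf.C 1 0x24402160c307))) (Pf.B 11 4 (Pf.B 9 4 (Pf.B 8 4 (Pf.B 11 7 (Pf.C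 1 0x101071220581) (Pf.B 7 6 (Pf.C 1 0x244060800383) (Pf.C 1 0x24402160c307))) (Pf.C 1 0x18282180c404)) (Pf.C 1 0x18282180c484)) (Pf.C 1 0x18282180c584))) (Pf.B 11 7 (Pf.B 7 6 (Pf.B 7 5 (Pf.B 11 4 (Pf.C 1 0x1c1040c14581) (Pf.B 9 4 (Pf.C 1 0x1c1040c14481) (Pf.C 1 0x18282160c484))) (Pf.C 1 0x20302180c287)) (Pf.C 1 0x24402180c307)) (Pf.C 1 0x24402180c587))) (Pf.C 0 49671)) (Pf.C 0 17032)) (Pf.C 0 17160)) (Pf.C 0 17033)) (Pf.C 0 17161)) (Pf.C 0 49674)) (Pf.C 0 50058)) (Pf.C 0 17035)) (Pf.C 0 17163)) (Pf.C 0 17419)) (Pf.C 0 17547)) (Pf.C 0 17036)) (Pf.C 0 17164)) (Pf.C 0 17420)) (Pf.C 0 17548)))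
 (Pq.cons (Pq.L [0,1,3] 0 (Pf.B 12 11 (Pf.C 18 1547) (Pf.B 12 10 (Pf.C 7 1546) (Pf.B 12 8 (Pf.C 18 1544) (Pf.B 12 7 (Pf.C 7 1543) (Pf.B 12 5 (Pf.C 18 1541) (Pf.B 11 10 (Pf.B 11 8 (Pf.B 11 7 (Pf.B 11 5 (Pf.B 10 8 (Pf.B 10 7 (Pf.B 10 5 (Pf.B 9 8 (Pf.C 18 1160) (Pf.B 9 7 (Pf.C 7 1159) (Pf.B 9 5 (Pf.C 18 1157) (Pf.B 8 7 (Pf.B 8 5 (Pf.B 7 5 (Pf.C 1 0x2c4051400383) (Pf.C 0 0x24287)) (Pf.C 0 17032)) (Pf.C 0 0x24388))))) (Pf.C 0 0x3028a)) (Pf.C 0 50058)) (Pf.C 0 0x3040a)) (Pf.C 0 17035)) (Pf.C 0 0x3038b)) (Pf.C 0 17419)) (Pf.C 0 0x3050b))))))))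
 (Pq.cons (Pq.L [0,1,3] 511 (Pf.B 12 9 (Pf.B 12 8 (Pf.B 12 6 (Pf.B 12 5 (Pf.B 11 9 (Pf.B 11 8 (Pf.B 11 6 (Pf.B 11 5 (Pf.B 10 7 (Pf.B 10 4 (Pf.B 9 6 (Pf.B 9 5 (Pf.B 8 6 (Pf.B 8 5 (Pf.B 7 4 (Pf.B 12 7 (Pf.B 12 4 (Pf.B 11 7 (Pf.B 10 9 (Pf.C 1 0x305890e00503) (Pf.B 10 8 (Pf.C 1 0x305880e00503) (Pf.B 10 6 (Pf.C 1 0x30586122018a) (Pf.C 1 0x30580122030a)))) (Pf.B 7 6 (Pf.B 10 6 (Pf.C 1 0x1c20a1800301) (Pf.B 9 4 (Pf.C 1 0x303090e00203) (Pf.B 11 4 (Pf.B 10 5 (Pf.C 1 0x305850800503) (Pf.B 10 9 (Pf.C 1 0x305890c1418a) (Pf.C 1 0x305800c1448a))) (Pf.C 1 0x30305120c584)))) (Pf.C 1 0x30488160c307))) (Pf.B 11 7 (Pf.B 10 9 (Pf.C 1 0x305890e00503) (Pf.B 10 8 (Pf.C 1 0x305880e00503) (Pf.B 10 6 (Pf.C 1 0x30586122018a)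 (Pf.C 1 0x30580122030a)))) (Pf.B 7 6 (Pf.B 7 5 (Pf.B 9 4 (Pf.C 1 0x182890e00203) (Pf.B 11 4 (Pf.C 1 0x1828b1824184) (Pf.C 1 0x182801824584))) (Pf.C 1 0x24406160c287)) (Pf.C 1 0x30488160c307)))) (Pf.B 12 4 (Pf.B 11 7 (Pf.B 7 6 (Pf.B 7 5 (Pf.B 11 4 (Pf.C 1 0x1828b0e00203) (Pf.B 9 4 (Pf.C 1 0x182890e00203) (Pf.C 1 0x30305160c484))) (Pf.C 1 0x24406180c287)) (Pf.C 1 0x2c488180c307)) (Pf.B 7 6 (Pf.C 1 0x24406182c187) (Pf.C 1 0x24400182c307))) (Pf.B 11 7 (Pf.B 7 6 (Pf.B 7 5 (Pf.B 11 4 (Pf.C 1 0x1828b0e00203) (Pf.B 9 4 (Pf.C 1 0x18289182c184) (Pf.C 1 0x18280182c484))) (Pf.C 1 0x24406180c287)) (Pf.C 1 0x2c488180c307)) (Pf.B 7 6 (Pf.C 1 0x24406182c187) (Pf.C 1 0x24400182c307))))) (Pf.C 0 49671)) (Pf.C 0 17032))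 (Pf.C 0 17160)) (Pf.C 0 17033)) (Pf.C 0 17161)) (Pf.C 0 49674)) (Pf.C 0 50058)) (Pf.C 0 17035)) (Pf.C 0 17163)) (Pf.C 0 17419)) (Pf.C 0 17547)) (Pf.C 0 17036)) (Pf.C 0 17164)) (Pf.C 0 17420)) (Pf.C 0 17548)))
 (Pq.cons (Pq.L [] 1 (Pf.C 7 772))
 (Pq.cons (Pq.L [0,1,2,3] 0x1f2c9e78 (Pf.B 12 7 (Pf.C 7 1543) (Pf.B 7 6 (Pf.C 7 775) (Pf.B 15 11 (Pf.B 11 9 (Pf.B 11 6 (Pf.B 15 8 (Pf.B 14 9 (Pf.C 1 0x3c1891620701) (Pf.B 14 12 (Pf.C 1 0x3c18c120808e) (Pf.B 14 6 (Pf.C 1 0x3c186120808e) (Pf.C 1 0x3c583182430e)))) (Pf.B 12 8 (Pf.C 1 0x2418c1e08088) (Pf.B 8 6 (Pf.C 1 0x241861808088) (Pf.C 1 0x2c4831e30308)))) (Pf.C 1 0x30483040430b)) (Pf.C 1 0x3c603040448b)) (Pf.B 13 11 (Pf.B 11 9 (Pf.C 1 0x301891e0808b) (Pf.B 11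 7 (Pf.B 11 6 (Pf.C 1 0x30186120808b) (Pf.B 15 8 (Pf.B 12 8 (Pf.B 8 6 (Pf.C 1 0x301881e2430b) (Pf.C 1 0x304830404308)) (Pf.C 1 0x3c4830404608)) (Pf.B 13 8 (Pf.B 14 7 (Pf.C 1 0x2c40e1a00383) (Pf.B 14 12 (Pf.B 14 9 (Pf.B 14 6 (Pf.C 1 0x3018e1e2430b) (Pf.C 0 0x1c30e)) (Pf.C 0 0x1c48e)) (Pf.C 0 0x1c60e))) (Pf.C 0 0x3c40d)))) (Pf.C 0 0x2438b))) (Pf.C 0 0x3c58d))))))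
 (Pq.cons (Pq.L [0,1] 0x34968 (Pf.B 12 7 (Pf.C 7 1543) (Pf.B 12 4 (Pf.C 7 1540) (Pf.B 11 7 (Pf.B 11 4 (Pf.B 10 9 (Pf.C 7 1162) (Pf.B 10 8 (Pf.B 9 4 (Pf.C 7 1156) (Pf.B 8 4 (Pf.C 1 0x283841600401) (Pf.C 0 0x24208))) (Pf.C 0 0x2440a))) (Pf.C 0 0x3020b)) (Pf.C 0 0x3038b)))))
 (Pq.cons (Pq.L [0,3] 1687 (Pf.B 12 10 (Pf.C 7 1546) (Pf.B 12 11 (Pf.B 12 7 (Pf.C 7 1543) (Pf.B 12 8 (Pf.B 12 4 (Pf.C 7 1540) (Pf.B 12 5 (Pf.B 10 9 (Pf.C 7 1162) (Pf.B 11 9 (Pf.B 9 7 (Pf.C 7 1159) (Pf.B 9 8 (Pf.B 9 5 (Pf.C 1 0x2c405180c480) (Pf.B 9 4 (Pf.C 7 1156) (Pf.C 0 82441))) (Pf.C 0 0x1c409))) (Pf.C 0 0x2848b))) (Pf.C 0 66188))) (Pf.C 0 0x1c40c))) (Pf.C 0 0x2858c))))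
 (Pq.cons (Pq.L [0] 1 (Pf.C 0 0x24006))
 (Pq.cons (Pq.L [1] 1 (Pf.C 0 0x20085))
 (Pq.cons (Pq.L [3] 1 (Pf.C 0 0x1c184))
 (Pq.cons (Pq.L [1,2,3] 511 (Pf.B 12 9 (Pf.B 12 6 (Pf.B 11 8 (Pf.B 11 7 (Pf.B 11 5 (Pf.B 11 4 (Pf.B 10 8 (Pf.B 10 7 (Pf.B 10 5 (Pf.B 10 4 (Pf.B 8 5 (Pf.B 8 4 (Pf.B 7 5 (Pf.B 7 4 (Pf.B 12 8 (Pf.B 12 7 (Pf.B 11 9 (Pf.C 1 0x30189101c582) (Pf.B 10 9 (Pf.C 1 0x30189101c502) (Pf.C 1 0x203831604509))) (Pf.B 12 5 (Pf.B 12 4 (Pf.B 11 6 (Pf.C 1 0x301860a10582) (Pf.B 10 6 (Pf.C 1 0x301860a10502) (Pf.C 1 0x142031604506))) (Pf.C 1 0x202830e0420c)) (Pf.C 1 0x284030e0428c))) (Pf.B 12 7 (Pf.B 12 5 (Pf.B 12 4 (Pf.B 11 6 (Pf.C 1 0x301860a10582) (Pf.B 10 6 (Pf.C 1 0x301860a10502) (Pf.C 1 0x142031604506)))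 (Pf.C 1 0x1c283100420c)) (Pf.C 1 0x28383100428c)) (Pf.C 1 0x2c503100438c))) (Pf.C 0 33287)) (Pf.C 0 33415)) (Pf.C 0 33288)) (Pf.C 0 33416)) (Pf.C 0 33290)) (Pf.C 0 33418)) (Pf.C 0 33674)) (Pf.C 0 33802)) (Pf.C 0 33291)) (Pf.C 0 33419)) (Pf.C 0 33675)) (Pf.C 0 33803)) (Pf.C 0 17164)) (Pf.C 0 17548)))
 (Pq.cons (Pq.L [0,1,2,3] 504 (Pf.B 12 9 (Pf.B 11 8 (Pf.B 11 7 (Pf.B 11 5 (Pf.B 10 8 (Pf.B 10 7 (Pf.B 10 5 (Pf.B 8 5 (Pf.B 7 5 (Pf.B 12 8 (Pf.B 12 7 (Pf.B 11 9 (Pf.C 1 0x2038b1800481) (Pf.B 10 9 (Pf.C 1 0x2038a160c089) (Pf.B 9 5 (Pf.C 1 0x20385140c089) (Pf.C 1 0x203801628289)))) (Pf.C 1 0x2c508060438c)) (Pf.B 12 7 (Pf.C 1 0x2c507100c08c) (Pf.B 12 5 (Pf.C 1 0x2c5050e0c08c) (Pf.C 1 0x2c500101c28c)))) (Pf.C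 0 33415)) (Pf.C 0 33416)) (Pf.C 0 33418)) (Pf.C 0 33674)) (Pf.C 0 33802)) (Pf.C 0 33419)) (Pf.C 0 33675)) (Pf.C 0 33803)) (Pf.C 0 17548)))
 (Pq.cons (Pq.L [0,1,2,3] 511 (Pf.B 12 9 (Pf.B 12 8 (Pf.B 12 6 (Pf.B 12 5 (Pf.B 11 9 (Pf.B 11 8 (Pf.B 11 6 (Pf.B 11 5 (Pf.B 10 7 (Pf.B 10 4 (Pf.B 9 6 (Pf.B 9 5 (Pf.B 8 6 (Pf.B 8 5 (Pf.B 7 4 (Pf.B 12 7 (Pf.B 12 4 (Pf.B 11 7 (Pf.B 10 9 (Pf.C 1 0x305890e00502) (Pf.B 10 8 (Pf.C 1 0x305880e00502) (Pf.C 1 0x30583120840a))) (Pf.B 7 6 (Pf.B 10 6 (Pf.C 1 0x301860e10502) (Pf.B 10 9 (Pf.B 10 8 (Pf.C 1 0x304880e00502) (Pf.C 1 0x2c4830c0840a)) (Pf.C 1 0x305830c0848a))) (Pf.C 1 0x244031608307))) (Pf.B 11 4 (Pf.B 9 4 (Pf.B 8 4 (Pf.B 11 7 (Pf.C 1 0x101871220581) (Pf.B 7 6 (Pf.C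 1 0x244060800382) (Pf.C 1 0x244031608307))) (Pf.C 1 0x182831808404)) (Pf.C 1 0x182831808484)) (Pf.C 1 0x182831808584))) (Pf.B 11 7 (Pf.B 7 6 (Pf.B 7 5 (Pf.B 11 4 (Pf.C 1 0x1c1840c14581) (Pf.B 9 4 (Pf.C 1 0x1c1840c14481) (Pf.C 1 0x182831608484))) (Pf.C 1 0x203031808287)) (Pf.C 1 0x244031808307)) (Pf.C 1 0x244031808587))) (Pf.C 0 33287)) (Pf.C 0 17032)) (Pf.C 0 17160)) (Pf.C 0 17033)) (Pf.C 0 17161)) (Pf.C 0 33290)) (Pf.C 0 33674)) (Pf.C 0 17035)) (Pf.C 0 17163)) (Pf.C 0 17419)) (Pf.C 0 17547)) (Pf.C 0 17036)) (Pf.C 0 17164)) (Pf.C 0 17420)) (Pf.C 0 17548)))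
 (Pq.cons (Pq.L [0,1,2] 0 (Pf.B 12 11 (Pf.C 18 1547) (Pf.B 12 10 (Pf.C 11 1546) (Pf.B 12 8 (Pf.C 18 1544) (Pf.B 12 7 (Pf.C 11 1543) (Pf.B 12 5 (Pf.C 18 1541) (Pf.B 11 10 (Pf.B 11 8 (Pf.B 11 7 (Pf.B 11 5 (Pf.B 10 8 (Pf.B 10 7 (Pf.B 10 5 (Pf.B 9 8 (Pf.C 18 1160) (Pf.B 9 7 (Pf.C 11 1159) (Pf.B 9 5 (Pf.C 18 1157) (Pf.B 8 7 (Pf.B 8 5 (Pf.B 7 5 (Pf.C 1 0x2c4051400382) (Pf.C 0 0x24287)) (Pf.C 0 17032)) (Pf.C 0 0x24388))))) (Pf.C 0 0x3028a)) (Pf.C 0 33674)) (Pf.C 0 0x3040a)) (Pf.C 0 17035)) (Pf.C 0 0x3038b)) (Pf.C 0 17419)) (Pf.C 0 0x3050b))))))))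
 (Pq.cons (Pq.L [0,1,2] 511 (Pf.B 12 9 (Pf.B 12 8 (Pf.B 12 6 (Pf.B 12 5 (Pf.B 11 9 (Pf.B 11 8 (Pf.B 11 6 (Pf.B 11 5 (Pf.B 10 7 (Pf.B 10 4 (Pf.B 9 6 (Pf.B 9 5 (Pf.B 8 6 (Pf.B 8 5 (Pf.B 7 4 (Pf.B 12 7 (Pf.B 12 4 (Pf.B 11 7 (Pf.B 10 9 (Pf.C 1 0x305890e00502) (Pf.B 10 8 (Pf.C 1 0x305880e00502) (Pf.B 10 6 (Pf.C 1 0x30586122010a) (Pf.C 1 0x30580122030a)))) (Pf.B 7 6 (Pf.B 10 6 (Pf.C 1 0x1c20a1800301) (Pf.B 9 4 (Pf.C 1 0x303090e00202) (Pf.B 11 4 (Pf.B 10 5 (Pf.C 1 0x305850800502) (Pf.B 10 9 (Pf.C 1 0x305890c1410a) (Pf.C 1 0x305800c1448a))) (Pf.C 1 0x303051208584)))) (Pf.C 1 0x304881608307))) (Pf.B 11 7 (Pf.B 10 9 (Pf.C 1 0x305890e00502) (Pf.B 10 8 (Pf.C 1 0x305880e00502) (Pf.B 10 6 (Pf.C 1 0x30586122010a)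 (Pf.C 1 0x30580122030a)))) (Pf.B 7 6 (Pf.B 7 5 (Pf.B 9 4 (Pf.C 1 0x182890e00202) (Pf.B 11 4 (Pf.C 1 0x1828b1824104) (Pf.C 1 0x182801824584))) (Pf.C 1 0x244061608287)) (Pf.C 1 0x304881608307)))) (Pf.B 12 4 (Pf.B 11 7 (Pf.B 7 6 (Pf.B 7 5 (Pf.B 11 4 (Pf.C 1 0x1828b0e00202) (Pf.B 9 4 (Pf.C 1 0x182890e00202) (Pf.C 1 0x303051608484))) (Pf.C 1 0x244061808287)) (Pf.C 1 0x2c4881808307)) (Pf.B 7 6 (Pf.C 1 0x24406182c107) (Pf.C 1 0x24400182c307))) (Pf.B 11 7 (Pf.B 7 6 (Pf.B 7 5 (Pf.B 11 4 (Pf.C 1 0x1828b0e00202) (Pf.B 9 4 (Pf.C 1 0x18289182c104) (Pf.C 1 0x18280182c484))) (Pf.C 1 0x244061808287)) (Pf.C 1 0x2c4881808307)) (Pf.B 7 6 (Pf.C 1 0x24406182c107) (Pf.C 1 0x24400182c307))))) (Pf.C 0 33287)) (Pf.C 0 17032))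 (Pf.C 0 17160)) (Pf.C 0 17033)) (Pf.C 0 17161)) (Pf.C 0 33290)) (Pf.C 0 33674)) (Pf.C 0 17035)) (Pf.C 0 17163)) (Pf.C 0 17419)) (Pf.C 0 17547)) (Pf.C 0 17036)) (Pf.C 0 17164)) (Pf.C 0 17420)) (Pf.C 0 17548)))
 (Pq.cons (Pq.L [] 1 (Pf.C 11 772))
 (Pq.cons (Pq.L [0,1,2,3] 0x1f2c9e78 (Pf.B 12 7 (Pf.C 11 1543) (Pf.B 7 6 (Pf.C 11 775) (Pf.B 15 11 (Pf.B 11 9 (Pf.B 11 6 (Pf.B 15 8 (Pf.B 14 9 (Pf.C 1 0x3c1091620701) (Pf.B 14 12 (Pf.C 1 0x3c10c120c08e) (Pf.B 14 6 (Pf.C 1 0x3c106120c08e) (Pf.C 1 0x3c582182430e)))) (Pf.B 12 8 (Pf.C 1 0x2410c1e0c088) (Pf.B 8 6 (Pf.C 1 0x24106180c088) (Pf.C 1 0x2c4821e30308)))) (Pf.C 1 0x30482060430b)) (Pf.C 1 0x3c602060448b)) (Pf.B 13 11 (Pf.B 11 9 (Pf.C 1 0x301091e0c08b) (Pf.B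 11 7 (Pf.B 11 6 (Pf.C 1 0x30106120c08b) (Pf.B 15 8 (Pf.B 12 8 (Pf.B 8 6 (Pf.C 1 0x301081e2430b) (Pf.C 1 0x304820604308)) (Pf.C 1 0x3c4820604608)) (Pf.B 13 8 (Pf.B 14 7 (Pf.C 1 0x2c40e1a00382) (Pf.B 14 12 (Pf.B 14 9 (Pf.B 14 6 (Pf.C 1 0x3010e1e2430b) (Pf.C 0 0x1c30e)) (Pf.C 0 0x1c48e)) (Pf.C 0 0x1c60e))) (Pf.C 0 0x3c40d)))) (Pf.C 0 0x2438b))) (Pf.C 0 0x3c58d))))))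
 (Pq.cons (Pq.L [0,1] 0x34968 (Pf.B 12 7 (Pf.C 11 1543) (Pf.B 12 4 (Pf.C 11 1540) (Pf.B 11 7 (Pf.B 11 4 (Pf.B 10 9 (Pf.C 11 1162) (Pf.B 10 8 (Pf.B 9 4 (Pf.C 11 1156) (Pf.B 8 4 (Pf.C 1 0x283841600401) (Pf.C 0 0x24208))) (Pf.C 0 0x2440a))) (Pf.C 0 0x3020b)) (Pf.C 0 0x3038b)))))
 (Pq.cons (Pq.L [0,2] 1687 (Pf.B 12 10 (Pf.C 11 1546) (Pf.B 12 11 (Pf.B 12 7 (Pf.C 11 1543) (Pf.B 12 8 (Pf.B 12 4 (Pf.C 11 1540) (Pf.B 12 5 (Pf.B 10 9 (Pf.C 11 1162) (Pf.B 11 9 (Pf.B 9 7 (Pf.C 11 1159) (Pf.B 9 8 (Pf.B 9 5 (Pf.C 1 0x2c4051808480) (Pf.B 9 4 (Pf.C 11 1156) (Pf.C 0 82441))) (Pf.C 0 0x1c409))) (Pf.C 0 0x2848b))) (Pf.C 0 66188))) (Pf.C 0 0x1c40c))) (Pf.C 0 0x2858c))))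
 (Pq.cons (Pq.L [0] 1 (Pf.C 0 0x24006))
 (Pq.cons (Pq.L [1] 1 (Pf.C 0 0x20085))
 (Pq.cons (Pq.L [2] 1 (Pf.C 0 0x1c104))
 (Pq.cons (Pq.L [0,1,2] 511 (Pf.B 12 9 (Pf.B 12 6 (Pf.B 11 8 (Pf.B 11 7 (Pf.B 11 5 (Pf.B 11 4 (Pf.B 10 8 (Pf.B 10 7 (Pf.B 10 5 (Pf.B 10 4 (Pf.B 8 5 (Pf.B 8 4 (Pf.B 7 5 (Pf.B 7 4 (Pf.B 12 8 (Pf.B 12 7 (Pf.B 11 9 (Pf.C 1 0x2038b1800481) (Pf.B 10 9 (Pf.C 1 0x2038a1800481) (Pf.B 9 5 (Pf.C 1 0x203851628089) (Pf.C 1 0x203801628289)))) (Pf.B 12 5 (Pf.B 12 4 (Pf.B 11 6 (Pf.C 1 0x1420b1800301) (Pf.B 10 6 (Pf.C 1 0x1420a1800301) (Pf.B 8 6 (Pf.C 1 0x142081628086) (Pf.C 1 0x142001628406)))) (Pf.C 1 0x284050e0420c)) (Pf.C 1 0x2c5080e0428c))) (Pf.B 12 7 (Pf.B 12 5 (Pf.B 12 4 (Pf.B 11 6 (Pf.C 1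 0x1420b1800301) (Pf.B 10 6 (Pf.C 1 0x1420a1800301) (Pf.B 8 6 (Pf.C 1 0x142081628086) (Pf.C 1 0x142001628406)))) (Pf.C 1 0x28385100420c)) (Pf.C 1 0x2c507100428c)) (Pf.B 12 5 (Pf.C 1 0x2c505101c08c) (Pf.C 1 0x2c500101c28c)))) (Pf.C 0 33287)) (Pf.C 0 33415)) (Pf.C 0 33288)) (Pf.C 0 33416)) (Pf.C 0 33290)) (Pf.C 0 33418)) (Pf.C 0 33674)) (Pf.C 0 33802)) (Pf.C 0 33291)) (Pf.C 0 33419)) (Pf.C 0 33675)) (Pf.C 0 33803)) (Pf.C 0 17164)) (Pf.C 0 17548)))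
 (Pq.cons (Pq.L [0,1,2,3] 511 (Pf.B 12 9 (Pf.B 12 6 (Pf.B 11 8 (Pf.B 11 7 (Pf.B 11 5 (Pf.B 11 4 (Pf.B 10 8 (Pf.B 10 7 (Pf.B 10 5 (Pf.B 10 4 (Pf.B 9 6 (Pf.B 8 5 (Pf.B 8 4 (Pf.B 7 5 (Pf.B 7 4 (Pf.B 12 8 (Pf.B 8 6 (Pf.B 12 7 (Pf.B 11 9 (Pf.C 1 0x30089101c582) (Pf.B 11 6 (Pf.C 1 0x30086120c10b) (Pf.B 10 9 (Pf.C 1 0x30089101c502) (Pf.B 10 6 (Pf.C 1 0x30086120c10a) (Pf.C 1 0x202841600506))))) (Pf.B 12 5 (Pf.B 12 4 (Pf.C 1 0x202840c04600) (Pf.C 1 0x284050e0020c)) (Pf.C 1 0x2c5080e0028c))) (Pf.C 1 0x304810608308)) (Pf.B 8 6 (Pf.C 1 0x24086180c108) (Pf.B 12 7 (Pf.B 12 5 (Pf.B 12 4 (Pf.B 11 6 (Pf.C 1 0x300860a10582) (Pf.B 10 6 (Pf.C 1 0x300860a10502) (Pf.C 1 0x142011620506))) (Pf.C 1 0x28385100020c)) (Pf.C 1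 0x2c507100028c)) (Pf.B 12 5 (Pf.C 1 0x2c505101c00c) (Pf.C 1 0x2c501101c28c))))) (Pf.C 0 33287)) (Pf.C 0 33415)) (Pf.C 0 33288)) (Pf.C 0 33416)) (Pf.C 0 777)) (Pf.C 0 33290)) (Pf.C 0 33418)) (Pf.C 0 33674)) (Pf.C 0 33802)) (Pf.C 0 33291)) (Pf.C 0 33419)) (Pf.C 0 33675)) (Pf.C 0 33803)) (Pf.C 0 780)) (Pf.C 0 1164)))
 (Pq.cons (Pq.L [0,1,2,3] 504 (Pf.B 12 9 (Pf.B 12 8 (Pf.B 12 6 (Pf.B 11 9 (Pf.B 11 8 (Pf.B 11 6 (Pf.B 10 7 (Pf.B 9 6 (Pf.B 8 6 (Pf.B 12 7 (Pf.B 11 7 (Pf.B 10 9 (Pf.C 1 0x305890e00502) (Pf.B 10 8 (Pf.C 1 0x30588120c10a) (Pf.B 10 6 (Pf.C 1 0x30586100c10a) (Pf.C 1 0x30580122030a)))) (Pf.C 1 0x304880608587)) (Pf.B 11 7 (Pf.C 1 0x2440b180c107) (Pf.B 7 6 (Pf.C 1 0x24406160c107) (Pf.C 1 0x24400182c307))))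 (Pf.C 0 17160)) (Pf.C 0 17161)) (Pf.C 0 33674)) (Pf.C 0 17163)) (Pf.C 0 17419)) (Pf.C 0 17547)) (Pf.C 0 17164)) (Pf.C 0 17420)) (Pf.C 0 17548)))
 (Pq.cons (Pq.L [0,1,2,3] 0x2f349dc (Pf.B 15 14 (Pf.C 18 1934) (Pf.B 12 8 (Pf.C 18 1544) (Pf.B 9 8 (Pf.C 18 1160) (Pf.B 8 6 (Pf.C 18 776) (Pf.B 15 10 (Pf.B 10 9 (Pf.B 10 6 (Pf.B 15 7 (Pf.B 13 9 (Pf.C 1 0x3c089141c682) (Pf.B 13 12 (Pf.C 1 0x3c08c120c10d) (Pf.B 13 6 (Pf.C 1 0x3c086120c10d) (Pf.C 1 0x3c501182430d)))) (Pf.B 12 7 (Pf.C 1 0x2408c1e0c107) (Pf.B 7 6 (Pf.C 1 0x24086180c107) (Pf.C 1 0x284811e30307)))) (Pf.C 1 0x30481060830a)) (Pf.C 1 0x3c601060848a)) (Pf.B 14 10 (Pf.B 10 9 (Pf.C 1 0x300891e0c10a) (Pf.B 10 8 (Pf.B 10 6 (Pf.C 1 0x30086120c10a) (Pf.B 15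 7 (Pf.B 12 7 (Pf.B 7 6 (Pf.C 1 0x300871e2430a) (Pf.C 1 0x304810608307)) (Pf.C 1 0x3c4810608607)) (Pf.B 14 7 (Pf.B 13 8 (Pf.C 1 0x2838d1c00401) (Pf.B 13 12 (Pf.B 13 9 (Pf.B 13 6 (Pf.C 1 0x3008d1e2430a) (Pf.C 0 0x2030d)) (Pf.C 0 0x2048d)) (Pf.C 0 0x2060d))) (Pf.C 0 0x3c38e)))) (Pf.C 0 0x2440a))) (Pf.C 0 0x3c50e))))))))
 (Pq.cons (Pq.L [0,1] 26941 (Pf.B 12 8 (Pf.C 18 1544) (Pf.B 11 9 (Pf.C 18 1163) (Pf.B 11 7 (Pf.B 11 6 (Pf.C 18 779) (Pf.B 11 4 (Pf.B 10 8 (Pf.B 8 6 (Pf.C 18 776) (Pf.B 8 4 (Pf.C 1 0x283841600401) (Pf.C 0 98824))) (Pf.C 0 0x3040a)) (Pf.C 0 98827))) (Pf.C 0 0x2438b)))))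
 (Pq.cons (Pq.L [0,1] 2855 (Pf.B 12 11 (Pf.C 18 1547) (Pf.B 12 10 (Pf.B 12 8 (Pf.C 18 1544) (Pf.B 12 7 (Pf.B 12 5 (Pf.C 18 1541) (Pf.B 12 4 (Pf.B 11 9 (Pf.C 18 1163) (Pf.B 10 9 (Pf.B 9 8 (Pf.C 18 1160) (Pf.B 9 7 (Pf.B 9 5 (Pf.C 18 1157) (Pf.B 9 4 (Pf.C 1 0x283841804480) (Pf.C 0 82441))) (Pf.C 0 0x20389))) (Pf.C 0 0x2c48a))) (Pf.C 0 82444))) (Pf.C 0 0x2038c))) (Pf.C 0 0x2c50c))))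
 (Pq.cons (Pq.L [0] 1 (Pf.C 0 0x24006))
 (Pq.cons (Pq.L [1] 1 (Pf.C 0 0x20085))
 (Pq.cons (Pq.L [2] 1 (Pf.C 0 0x1c104))
 (Pq.cons (Pq.L [0,1,2,3] 511 (Pf.B 12 6 (Pf.B 11 6 (Pf.B 11 5 (Pf.B 10 7 (Pf.B 10 6 (Pf.B 10 5 (Pf.B 10 4 (Pf.B 9 6 (Pf.B 8 6 (Pf.B 8 5 (Pf.B 7 6 (Pf.B 7 5 (Pf.B 7 4 (Pf.C 1 0x182811410382) (Pf.C 0 33287)) (Pf.C 1 0x203010608287)) (Pf.C 1 0x244010608307)) (Pf.C 0 648)) (Pf.C 0 776)) (Pf.C 0 777)) (Pf.C 0 33290)) (Pf.C 1 0x2c301060828a)) (Pf.C 1 0x30581060830a)) (Pf.C 0 33674)) (Pf.C 0 651)) (Pf.C 0 779)) (Pf.C 0 780)))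
 (Pq.cons (Pq.L [0,1,2,3] 511 (Pf.B 12 9 (Pf.B 12 6 (Pf.B 11 8 (Pf.B 11 7 (Pf.B 11 5 (Pf.B 11 4 (Pf.B 10 8 (Pf.B 10 7 (Pf.B 10 5 (Pf.B 10 4 (Pf.B 9 6 (Pf.B 8 5 (Pf.B 8 4 (Pf.B 7 5 (Pf.B 7 4 (Pf.B 12 8 (Pf.B 8 6 (Pf.B 12 7 (Pf.B 11 9 (Pf.C 1 0x30109101c581) (Pf.B 11 6 (Pf.C 1 0x30106120c08b) (Pf.B 10 9 (Pf.C 1 0x30109101c501) (Pf.B 10 6 (Pf.C 1 0x30106120c08a) (Pf.C 1 0x202841600506))))) (Pf.B 12 5 (Pf.B 12 4 (Pf.C 1 0x202840c08600) (Pf.C 1 0x284050e0020c)) (Pf.C 1 0x2c5080e0028c))) (Pf.C 1 0x304820604308)) (Pf.B 8 6 (Pf.C 1 0x24106180c088) (Pf.B 12 7 (Pf.B 12 5 (Pf.B 12 4 (Pf.B 11 6 (Pf.C 1 0x301060a10581) (Pf.B 10 6 (Pf.C 1 0x301060a10501) (Pf.C 1 0x142021620506))) (Pf.C 1 0x28385100020c)) (Pf.C 1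 0x2c507100028c)) (Pf.B 12 5 (Pf.C 1 0x2c505101c00c) (Pf.C 1 0x2c502101c28c))))) (Pf.C 0 16903)) (Pf.C 0 17031)) (Pf.C 0 16904)) (Pf.C 0 17032)) (Pf.C 0 777)) (Pf.C 0 16906)) (Pf.C 0 17034)) (Pf.C 0 17290)) (Pf.C 0 17418)) (Pf.C 0 16907)) (Pf.C 0 17035)) (Pf.C 0 17291)) (Pf.C 0 17419)) (Pf.C 0 780)) (Pf.C 0 1164)))
 (Pq.cons (Pq.L [0,1,2,3] 511 (Pf.B 12 6 (Pf.B 11 6 (Pf.B 11 5 (Pf.B 10 7 (Pf.B 10 6 (Pf.B 10 5 (Pf.B 10 4 (Pf.B 9 6 (Pf.B 8 6 (Pf.B 8 5 (Pf.B 7 6 (Pf.B 7 5 (Pf.B 7 4 (Pf.C 1 0x182821410381) (Pf.C 0 16903)) (Pf.C 1 0x203020604287)) (Pf.C 1 0x244020604307)) (Pf.C 0 648)) (Pf.C 0 776)) (Pf.C 0 777)) (Pf.C 0 16906)) (Pf.C 1 0x2c302060428a)) (Pf.C 1 0x30582060430a)) (Pf.C 0 17290)) (Pf.C 0 651))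 (Pf.C 0 779)) (Pf.C 0 780)))
 (Pq.cons (Pq.L [0,1,2,3] 511 (Pf.B 12 9 (Pf.B 12 6 (Pf.B 11 8 (Pf.B 11 7 (Pf.B 11 5 (Pf.B 11 4 (Pf.B 10 8 (Pf.B 10 7 (Pf.B 10 5 (Pf.B 10 4 (Pf.B 9 6 (Pf.B 8 5 (Pf.B 8 4 (Pf.B 7 5 (Pf.B 7 4 (Pf.B 12 8 (Pf.B 8 6 (Pf.B 12 7 (Pf.B 11 9 (Pf.C 1 0x30189101c581) (Pf.B 11 6 (Pf.C 1 0x30186120808b) (Pf.B 10 9 (Pf.C 1 0x30189101c501) (Pf.B 10 6 (Pf.C 1 0x30186120808a) (Pf.C 1 0x202841600506))))) (Pf.B 12 5 (Pf.B 12 4 (Pf.C 1 0x202840c0c600) (Pf.C 1 0x284050e0020c)) (Pf.C 1 0x2c5080e0028c))) (Pf.C 1 0x304830404308)) (Pf.B 8 6 (Pf.C 1 0x241861808088) (Pf.B 12 7 (Pf.B 12 5 (Pf.B 12 4 (Pf.B 11 6 (Pf.C 1 0x301860a10581) (Pf.B 10 6 (Pf.C 1 0x301860a10501) (Pf.C 1 0x142031620506))) (Pf.C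 1 0x28385100020c)) (Pf.C 1 0x2c507100028c)) (Pf.B 12 5 (Pf.C 1 0x2c505101c00c) (Pf.C 1 0x2c503101c28c))))) (Pf.C 0 16903)) (Pf.C 0 17031)) (Pf.C 0 16904)) (Pf.C 0 17032)) (Pf.C 0 777)) (Pf.C 0 16906)) (Pf.C 0 17034)) (Pf.C 0 17290)) (Pf.C 0 17418)) (Pf.C 0 16907)) (Pf.C 0 17035)) (Pf.C 0 17291)) (Pf.C 0 17419)) (Pf.C 0 780)) (Pf.C 0 1164)))
 (Pq.cons (Pq.L [0,1,2,3] 511 (Pf.B 12 6 (Pf.B 11 6 (Pf.B 11 5 (Pf.B 10 7 (Pf.B 10 6 (Pf.B 10 5 (Pf.B 10 4 (Pf.B 9 6 (Pf.B 8 6 (Pf.B 8 5 (Pf.B 7 6 (Pf.B 7 5 (Pf.B 7 4 (Pf.C 1 0x182831410381) (Pf.C 0 16903)) (Pf.C 1 0x203030404287)) (Pf.C 1 0x244030404307)) (Pf.C 0 648)) (Pf.C 0 776)) (Pf.C 0 777)) (Pf.C 0 16906)) (Pf.C 1 0x2c303040428a)) (Pf.C 1 0x30583040430a))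 (Pf.C 0 17290)) (Pf.C 0 651)) (Pf.C 0 779)) (Pf.C 0 780)))
 Pq.nil)))))))))))))))))))))))))))))))))))))))))))))))))))))))))))))))
theorem a_o7 : AllRef a_T a_G6 (hitObl [12,13,14,15,16,17,19] a_h9) :=
  chkPq_sound a_o7c _ (by decide +kernel)
noncomputable def a_o8c : Pq := (Pq.cons (Pq.L [] 0 (Pf.C 47 4))
 Pq.nil)
theorem a_o8 : AllRef a_T a_G8 (List.map pat1 [18]) :=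
  chkPq_sound a_o8c _ (by decide +kernel)
noncomputable def a_o9c : Pq := (Pq.cons (Pq.D 0 (Pq.cons (Pq.D 1 (Pq.cons (Pq.L [3] 1 (Pf.C 0 82308))
 (Pq.cons (Pq.D 2 (Pq.cons (Pq.L [3] 2 (Pf.C 0 98692))
 (Pq.cons (Pq.L [2] 3 (Pf.B 6 5 (Pf.C 25 82692) (Pf.C 0 33414)))
 (Pq.cons (Pq.L [] 0 (Pf.C 4 772))
 (Pq.cons (Pq.L [] 3 (Pf.B 6 5 (Pf.C 26 98948) (Pf.C 29 98948)))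
 (Pq.cons (Pq.L [] 0 (Pf.C 5 772))
 (Pq.cons (Pq.L [] 0 (Pf.C 9 773))
 (Pq.cons (Pq.L [] 2 (Pf.C 7 772))
 Pq.nil)))))))) (Pq.cons (Pq.L [] 0 (Pf.C 4 644))
 (Pq.cons (Pq.D 2 (Pq.cons (Pq.L [3] 2 (Pf.C 0 98692))
 (Pq.cons (Pq.L [] 3 (Pf.B 6 5 (Pf.C 26 82692) (Pf.C 29 82692)))
 (Pq.cons (Pq.L [] 0 (Pf.C 4 772))
 (Pq.cons (Pq.L [1] 3 (Pf.B 6 5 (Pf.C 30 82692) (Pf.C 0 17030)))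
 (Pq.cons (Pq.L [] 0 (Pf.C 5 772))
 (Pq.cons (Pq.L [] 0 (Pf.C 16 773))
 (Pq.cons (Pq.L [] 2 (Pf.C 7 772))
 Pq.nil)))))))) (Pq.cons (Pq.L [] 0 (Pf.C 5 644))
 (Pq.cons (Pq.D 2 (Pq.cons (Pq.L [3] 2 (Pf.C 0 98692))
 (Pq.cons (Pq.L [] 0 (Pf.C 9 646))
 (Pq.cons (Pq.L [] 0 (Pf.C 4 772))
 (Pq.cons (Pq.L [] 0 (Pf.C 16 646))
 (Pq.cons (Pq.L [] 0 (Pf.C 5 772))
 (Pq.cons (Pq.L [1] 3 (Pf.B 6 5 (Pf.C 31 82692) (Pf.C 0 17030)))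
 (Pq.cons (Pq.L [] 2 (Pf.C 7 772))
 Pq.nil)))))))) (Pq.cons (Pq.L [] 1 (Pf.C 7 644))
 Pq.nil)))))))) (Pq.cons (Pq.D 1 (Pq.cons (Pq.D 2 (Pq.cons (Pq.L [3] 3 (Pf.B 6 5 (Pf.C 22 66182) (Pf.C 0 49798)))
 (Pq.cons (Pq.L [2] 2 (Pf.C 0 98564))
 (Pq.cons (Pq.L [] 0 (Pf.C 8 772))
 (Pq.cons (Pq.L [] 3 (Pf.B 6 5 (Pf.C 26 98821) (Pf.C 28 98821)))
 (Pq.cons (Pq.L [] 0 (Pf.C 5 773))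
 (Pq.cons (Pq.L [] 0 (Pf.C 9 772))
 (Pq.cons (Pq.L [] 2 (Pf.C 11 772))
 Pq.nil)))))))) (Pq.cons (Pq.L [2] 1 (Pf.C 0 82180))
 (Pq.cons (Pq.L [] 0 (Pf.C 8 644))
 (Pq.cons (Pq.D 2 (Pq.cons (Pq.L [] 3 (Pf.B 6 5 (Pf.C 26 82438) (Pf.C 28 82438)))
 (Pq.cons (Pq.L [2] 2 (Pf.C 0 98564))
 (Pq.cons (Pq.L [] 0 (Pf.C 8 772))
 (Pq.cons (Pq.L [1] 3 (Pf.B 6 5 (Pf.C 35 82692) (Pf.C 0 17030)))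
 (Pq.cons (Pq.L [] 0 (Pf.C 15 773))
 (Pq.cons (Pq.L [] 0 (Pf.C 9 772))
 (Pq.cons (Pq.L [] 2 (Pf.C 11 772))
 Pq.nil)))))))) (Pq.cons (Pq.D 2 (Pq.cons (Pq.L [] 0 (Pf.C 5 646))
 (Pq.cons (Pq.L [2] 2 (Pf.C 0 98564))
 (Pq.cons (Pq.L [] 0 (Pf.C 8 772))
 (Pq.cons (Pq.L [] 0 (Pf.C 15 646))
 (Pq.cons (Pq.L [1] 3 (Pf.B 6 5 (Pf.C 36 82692) (Pf.C 0 17030)))
 (Pq.cons (Pq.L [] 0 (Pf.C 9 772))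
 (Pq.cons (Pq.L [] 2 (Pf.C 11 772))
 Pq.nil)))))))) (Pq.cons (Pq.L [] 0 (Pf.C 9 644))
 (Pq.cons (Pq.L [] 1 (Pf.C 11 644))
 Pq.nil)))))))) (Pq.cons (Pq.D 1 (Pq.cons (Pq.L [] 0 (Pf.C 4 517))
 (Pq.cons (Pq.L [] 0 (Pf.C 8 517))
 (Pq.cons (Pq.L [2] 1 (Pf.C 0 82180))
 (Pq.cons (Pq.D 2 (Pq.cons (Pq.L [] 0 (Pf.C 4 518))
 (Pq.cons (Pq.L [] 0 (Pf.C 8 518))
 (Pq.cons (Pq.L [2] 2 (Pf.C 0 98564))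
 (Pq.cons (Pq.L [1] 3 (Pf.B 6 5 (Pf.C 40 82692) (Pf.C 0 17030)))
 (Pq.cons (Pq.L [] 0 (Pf.C 12 772))
 (Pq.cons (Pq.L [] 0 (Pf.C 13 772))
 (Pq.cons (Pq.L [] 0 (Pf.C 41 98948))
 Pq.nil)))))))) (Pq.cons (Pq.L [] 0 (Pf.C 12 644))
 (Pq.cons (Pq.L [] 0 (Pf.C 13 644))
 (Pq.cons (Pq.D 2 (Pq.cons (Pq.L [] 0 (Pf.C 4 518))
 (Pq.cons (Pq.L [] 0 (Pf.C 8 518))
 (Pq.cons (Pq.L [2] 2 (Pf.C 0 98564))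
 (Pq.cons (Pq.L [] 0 (Pf.C 41 82692))
 (Pq.cons (Pq.L [] 0 (Pf.C 12 772))
 (Pq.cons (Pq.L [] 0 (Pf.C 13 772))
 (Pq.cons (Pq.L [0] 3 (Pf.B 6 5 (Pf.C 42 82692) (Pf.C 0 646)))
 Pq.nil)))))))) Pq.nil)))))))) (Pq.cons (Pq.D 1 (Pq.cons (Pq.D 2 (Pq.cons (Pq.L [3] 3 (Pf.B 6 5 (Pf.C 23 66182) (Pf.C 0 49798)))
 (Pq.cons (Pq.L [] 3 (Pf.B 6 5 (Pf.C 26 66309) (Pf.C 27 66309)))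
 (Pq.cons (Pq.L [] 0 (Pf.C 4 773))
 (Pq.cons (Pq.L [1] 2 (Pf.C 0 98436))
 (Pq.cons (Pq.L [] 0 (Pf.C 15 772))
 (Pq.cons (Pq.L [] 0 (Pf.C 16 772))
 (Pq.cons (Pq.L [] 2 (Pf.C 18 772))
 Pq.nil)))))))) (Pq.cons (Pq.D 2 (Pq.cons (Pq.L [] 3 (Pf.B 6 5 (Pf.C 26 66182) (Pf.C 27 66182)))
 (Pq.cons (Pq.L [2] 3 (Pf.B 6 5 (Pf.C 33 66182) (Pf.C 0 33414)))
 (Pq.cons (Pq.L [] 0 (Pf.C 8 773))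
 (Pq.cons (Pq.L [1] 2 (Pf.C 0 98436))
 (Pq.cons (Pq.L [] 0 (Pf.C 15 772))
 (Pq.cons (Pq.L [] 0 (Pf.C 16 772))
 (Pq.cons (Pq.L [] 2 (Pf.C 18 772))
 Pq.nil)))))))) (Pq.cons (Pq.D 2 (Pq.cons (Pq.L [] 0 (Pf.C 4 646))
 (Pq.cons (Pq.L [] 0 (Pf.C 8 646))
 (Pq.cons (Pq.L [2] 3 (Pf.B 6 5 (Pf.C 38 66182) (Pf.C 0 33414)))
 (Pq.cons (Pq.L [1] 2 (Pf.C 0 98436))
 (Pq.cons (Pq.L [] 0 (Pf.C 15 772))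
 (Pq.cons (Pq.L [] 0 (Pf.C 16 772))
 (Pq.cons (Pq.L [] 2 (Pf.C 18 772))
 Pq.nil)))))))) (Pq.cons (Pq.L [1] 1 (Pf.C 0 82052))
 (Pq.cons (Pq.L [] 0 (Pf.C 15 644))
 (Pq.cons (Pq.L [] 0 (Pf.C 16 644))
 (Pq.cons (Pq.L [] 1 (Pf.C 18 644))
 Pq.nil)))))))) (Pq.cons (Pq.D 1 (Pq.cons (Pq.L [] 0 (Pf.C 5 517))
 (Pq.cons (Pq.D 2 (Pq.cons (Pq.L [] 0 (Pf.C 5 518))
 (Pq.cons (Pq.L [2] 3 (Pf.B 6 5 (Pf.C 34 66182) (Pf.C 0 33414)))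
 (Pq.cons (Pq.L [] 0 (Pf.C 12 518))
 (Pq.cons (Pq.L [] 0 (Pf.C 15 518))
 (Pq.cons (Pq.L [1] 2 (Pf.C 0 98436))
 (Pq.cons (Pq.L [] 0 (Pf.C 19 772))
 (Pq.cons (Pq.L [] 0 (Pf.C 37 98821))
 Pq.nil)))))))) (Pq.cons (Pq.L [] 0 (Pf.C 12 517))
 (Pq.cons (Pq.L [] 0 (Pf.C 15 517))
 (Pq.cons (Pq.L [1] 1 (Pf.C 0 82052))
 (Pq.cons (Pq.L [] 0 (Pf.C 19 644))
 (Pq.cons (Pq.D 2 (Pq.cons (Pq.L [] 0 (Pf.C 5 518))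
 (Pq.cons (Pq.L [] 0 (Pf.C 37 82438))
 (Pq.cons (Pq.L [] 0 (Pf.C 12 518))
 (Pq.cons (Pq.L [] 0 (Pf.C 15 518))
 (Pq.cons (Pq.L [1] 2 (Pf.C 0 98436))
 (Pq.cons (Pq.L [] 0 (Pf.C 19 772))
 (Pq.cons (Pq.L [0] 3 (Pf.B 6 5 (Pf.C 44 82692) (Pf.C 0 646)))
 Pq.nil)))))))) Pq.nil)))))))) (Pq.cons (Pq.D 1 (Pq.cons (Pq.D 2 (Pq.cons (Pq.L [3] 3 (Pf.B 6 5 (Pf.C 24 66182) (Pf.C 0 49798)))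
 (Pq.cons (Pq.L [] 0 (Pf.C 9 518))
 (Pq.cons (Pq.L [] 0 (Pf.C 13 518))
 (Pq.cons (Pq.L [] 0 (Pf.C 16 518))
 (Pq.cons (Pq.L [] 0 (Pf.C 19 518))
 (Pq.cons (Pq.L [1] 2 (Pf.C 0 98436))
 (Pq.cons (Pq.L [] 0 (Pf.C 32 98821))
 Pq.nil)))))))) (Pq.cons (Pq.L [] 0 (Pf.C 9 517))
 (Pq.cons (Pq.L [] 0 (Pf.C 13 517))
 (Pq.cons (Pq.L [] 0 (Pf.C 16 517))
 (Pq.cons (Pq.L [] 0 (Pf.C 19 517))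
 (Pq.cons (Pq.L [1] 1 (Pf.C 0 82052))
 (Pq.cons (Pq.D 2 (Pq.cons (Pq.L [] 0 (Pf.C 32 82438))
 (Pq.cons (Pq.L [] 0 (Pf.C 9 518))
 (Pq.cons (Pq.L [] 0 (Pf.C 13 518))
 (Pq.cons (Pq.L [] 0 (Pf.C 16 518))
 (Pq.cons (Pq.L [] 0 (Pf.C 19 518))
 (Pq.cons (Pq.L [1] 2 (Pf.C 0 98436))
 (Pq.cons (Pq.L [0] 3 (Pf.B 6 5 (Pf.C 46 82692) (Pf.C 0 646)))
 Pq.nil)))))))) Pq.nil)))))))) (Pq.cons (Pq.D 1 (Pq.cons (Pq.L [] 1 (Pf.C 7 517))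
 (Pq.cons (Pq.L [] 1 (Pf.C 11 517))
 (Pq.cons (Pq.D 2 (Pq.cons (Pq.L [] 2 (Pf.C 7 518))
 (Pq.cons (Pq.L [] 2 (Pf.C 11 518))
 (Pq.cons (Pq.L [2] 3 (Pf.B 6 5 (Pf.C 39 66182) (Pf.C 0 33414)))
 (Pq.cons (Pq.L [] 2 (Pf.C 18 518))
 (Pq.cons (Pq.L [] 0 (Pf.C 12 773))
 (Pq.cons (Pq.L [] 0 (Pf.C 13 773))
 (Pq.cons (Pq.L [0] 2 (Pf.C 0 98308))
 Pq.nil)))))))) (Pq.cons (Pq.L [] 1 (Pf.C 18 517))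
 (Pq.cons (Pq.D 2 (Pq.cons (Pq.L [] 2 (Pf.C 7 518))
 (Pq.cons (Pq.L [] 2 (Pf.C 11 518))
 (Pq.cons (Pq.L [] 0 (Pf.C 12 646))
 (Pq.cons (Pq.L [] 2 (Pf.C 18 518))
 (Pq.cons (Pq.L [1] 3 (Pf.B 6 5 (Pf.C 43 66182) (Pf.C 0 17030)))
 (Pq.cons (Pq.L [] 0 (Pf.C 19 773))
 (Pq.cons (Pq.L [0] 2 (Pf.C 0 98308))
 Pq.nil)))))))) (Pq.cons (Pq.D 2 (Pq.cons (Pq.L [] 2 (Pf.C 7 518))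
 (Pq.cons (Pq.L [] 2 (Pf.C 11 518))
 (Pq.cons (Pq.L [] 0 (Pf.C 13 646))
 (Pq.cons (Pq.L [] 2 (Pf.C 18 518))
 (Pq.cons (Pq.L [] 0 (Pf.C 19 646))
 (Pq.cons (Pq.L [1] 3 (Pf.B 6 5 (Pf.C 45 66182) (Pf.C 0 17030)))
 (Pq.cons (Pq.L [0] 2 (Pf.C 0 98308))
 Pq.nil)))))))) (Pq.cons (Pq.L [0] 1 (Pf.C 0 81924))
 Pq.nil)))))))) Pq.nil)))))))) Pq.nil)
theorem a_o9 : AllRef a_T a_G10 (applyObl TD2 1 [20,21,22,23,24,25,26] [0,0,0,0,0,0,0] [(20,0x7e00000),(21,0x7d00000),(22,0x7b00000),(23,0x7700000),(24,0x6f00000),(25,0x5f00000),(26,0x3f00000)]) :=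
  chkPq_sound a_o9c _ (by decide +kernel)
noncomputable def a_o10c : Pq := (Pq.cons (Pq.L [] 0 (Pf.W 48 0 [] [4] (Pf.cons (Pf.C 6 644) Pf.nil)))
 (Pq.cons (Pq.L [] 0 (Pf.W 48 0 [] [4] (Pf.cons (Pf.C 10 644) Pf.nil)))
 (Pq.cons (Pq.L [] 0 (Pf.W 48 0 [] [4] (Pf.cons (Pf.C 14 644) Pf.nil)))
 (Pq.cons (Pq.L [] 0 (Pf.W 48 0 [] [4] (Pf.cons (Pf.C 17 644) Pf.nil)))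
 (Pq.cons (Pq.L [] 0 (Pf.W 48 0 [] [4] (Pf.cons (Pf.C 20 644) Pf.nil)))
 (Pq.cons (Pq.L [] 0 (Pf.W 48 0 [] [4] (Pf.cons (Pf.C 21 644) Pf.nil)))
 Pq.nil))))))
theorem a_o10 : AllRef a_T a_G9 (List.map pat1 [20,21,22,23,24,25]) :=
  chkPq_sound a_o10c _ (by decide +kernel)
noncomputable def a_o11c : Pq := (Pq.cons (Pq.L [] 0x1fffff (Pf.C 1 0x284880e18284))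
 (Pq.cons (Pq.L [1] 1 (Pf.C 0 82052))
 (Pq.cons (Pq.L [0] 1 (Pf.C 0 81924))
 Pq.nil)))
theorem a_o11 : AllRef a_T a_G11 (applyObl bK_T 3 [18,26] [1,2] []) :=
  chkPq_sound a_o11c _ (by decide +kernel)

end Pool.Agent.Lib.MP_849b2e_co
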