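import Pool.Agent.Lib.MP_849b2e_co.AllR
import Pool.Agent.Lib.MP_849b2e_co.Ta
import Pool.Agent.Lib.MP_849b2e_co.Oa_0
import Pool.Agent.Lib.MP_849b2e_co.LbK

set_option maxRecDepth 100000
set_option linter.all false
namespace Pool.Agent.Lib.MP_849b2e_co

theorem a_n14  : Bd a_T a_G11 [18,26] :=
  r_apply lem_bK [1,2] [] (by decide +kernel) a_o11
theorem a_n13  : Bd a_T a_G9 [20,21,22,23,24,25,18,26] :=
  r_kill [20,21,22,23,24,25] ⟨27,[],[],[]⟩ a_G11 [18,26] (by decide +kernel) a_o10 a_n14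
theorem a_n12  : Bd a_T a_G10 [20,21,22,23,24,25,26] :=
  r_apply lem_D2 [0,0,0,0,0,0,0] [(20,0x7e00000),(21,0x7d00000),(22,0x7b00000),(23,0x7700000),(24,0x6f00000),(25,0x5f00000),(26,0x3f00000)] (by decide +kernel) a_o9
theorem a_n11  : Bd a_T a_G8 [20,21,22,23,24,25,18,26] :=
  r_kill [18] ⟨27,[],[],[]⟩ a_G10 [20,21,22,23,24,25,26] (by decide +kernel) a_o8 a_n12
theorem a_n10  : Bd a_T a_G7 [20,21,22,23,24,25,18,26] :=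
  r_ex 18 0 ⟨27,[],[48],[]⟩ a_G8 [20,21,22,23,24,25,18,26] ⟨27,[],[49],[]⟩ a_G9 [20,21,22,23,24,25,18,26] (by decide +kernel) a_n11 a_n13
theorem a_n9  : Bd a_T a_G6 [12,13,14,15,16,17,18,19] :=
  r_hit [12,13,14,15,16,17,19] a_h9 ⟨20,[],[23,24,25,26,27,28,29,30,0,31,0,32,33,34,35,36,0,37,38,39,40,41,42,43,44,45,46,47],[]⟩ a_G7 [20,21,22,23,24,25,18,26] (by decide +kernel) a_o7 a_n10
theorem a_n8  : Bd a_T a_G5 [3,4,5,6,7,8,9,10] :=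
  r_hit [3,4,5,6,7,8,9,10] a_h8 ⟨12,[],[5,6,7,8,9,10,11,12,13,14,15,16,17,18,19,20,21,22],[]⟩ a_G6 [12,13,14,15,16,17,18,19] (by decide +kernel) a_o6 a_n9
theorem a_n7  : Bd a_T a_G4 [11,3,4,5,6,7,8,9,10] :=
  r_kill [11] ⟨12,[],[],[]⟩ a_G5 [3,4,5,6,7,8,9,10] (by decide +kernel) a_o5 a_n8
theorem a_n6  : Bd a_T a_G3 [2,3,4,5,6,7,8,9,10] :=
  r_hit [2] a_h6 ⟨11,[],[4],[]⟩ a_G4 [11,3,4,5,6,7,8,9,10] (by decide +kernel) a_o4 a_n7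
theorem a_n5  : Bd a_T a_G3 [0] :=
  r_act [0,1] [2,3,4,5,6,7,8,9,10] (by decide +kernel) a_n6
theorem a_n4  : Bd a_T a_G2 [0] :=
  r_psplit 1 [] (PT.br 0 (PT.br 1 (PT.br 2 (PT.br 3 PT.kid PT.kid) (PT.br 3 PT.kid PT.kid)) (PT.br 2 (PT.br 3 PT.kid PT.kid) (PT.br 3 PT.kid PT.kid))) (PT.br 1 (PT.br 2 (PT.br 3 PT.kid PT.ref) PT.ref) PT.ref)) ⟨2,[2],[],[]⟩ a_G3 [0] (by decide +kernel) a_o3 a_n5
theorem a_n3  : Bd a_T a_G1 [0] :=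
  r_psplit 0 [0,1,2,3] PT.kid ⟨1,[1],[],[]⟩ a_G2 [0] (by decide +kernel) a_o2 a_n4
theorem a_n2  : Bd a_T a_G0 [0] :=
  r_apply lem_D2 [0] [] (by decide +kernel) a_o1
theorem a_n1  : Bd a_T a_G0 [0] :=
  r_learn [[0],[0],[0],[0]] [⟨0,1,true⟩,⟨0,2,true⟩,⟨0,3,true⟩] ⟨1,[],[],[]⟩ a_G0 [0] (by decide +kernel) a_o0 a_n2
theorem a_n0  : Bd a_T (pureCtx 0 2) (pureAct 0) :=
  show Bd _ _ [0] from r_case [0,0,0,0] [⟨0,1,true⟩,⟨0,2,true⟩,⟨0,3,true⟩,⟨1,2,false⟩,⟨1,3,false⟩,⟨2,3,false⟩] [] ⟨1,[],[3],[]⟩ a_G0 [0] a_G1 [0] (by decide +kernel) a_n1 a_n3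
theorem lem_a  : Lem a_T 0 2 := ⟨by decide +kernel, a_n0⟩

end Pool.Agent.Lib.MP_849b2e_co
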