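import Pool.Agent.Lib.MP_849b2e_co.Rules

set_option maxRecDepth 100000
set_option linter.all false
namespace Pool.Agent.Lib.MP_849b2e_co

noncomputable def b2_ty : Tr Ty := (Tr.br (Tr.br (Tr.br (Tr.br (Tr.leaf ⟨1,0,0,0,0⟩) (Tr.leaf ⟨261,122,0,0,0⟩))
 (Tr.br (Tr.leaf ⟨17,110,0,0,0⟩) (Tr.leaf ⟨4161,62,0,0,0⟩))
)
 (Tr.br (Tr.br (Tr.leaf ⟨5,122,0,0,0⟩) (Tr.leaf ⟨1041,110,0,0,0⟩))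
 (Tr.leaf ⟨65,62,0,0,0⟩))
)
 (Tr.br (Tr.br (Tr.br (Tr.leaf ⟨3,124,0,0,0⟩) (Tr.leaf ⟨521,118,0,0,0⟩))
 (Tr.leaf ⟨33,94,0,0,0⟩))
 (Tr.br (Tr.br (Tr.leaf ⟨9,118,0,0,0⟩) (Tr.leaf ⟨2081,94,0,0,0⟩))
 (Tr.leaf ⟨131,124,0,0,0⟩))
)
)

noncomputable def b2_ev : Tr Ev := (Tr.leaf ⟨0,[],0⟩)
noncomputable def b2_ax : Tr Ax := (Tr.br (Tr.br (Tr.br (Tr.br (Tr.br (Tr.br (Tr.leaf ⟨[1,1,1],[⟨0,1,true⟩,⟨0,2,true⟩,⟨1,2,true⟩],[],0⟩) (Tr.leaf ⟨[2,16,64],[⟨0,1,false⟩,⟨0,2,true⟩,⟨1,2,false⟩],[],0⟩)) (Tr.br (Tr.leaf ⟨[2,4,32],[⟨0,1,true⟩,⟨0,2,false⟩,⟨1,2,false⟩],[],0⟩) (Tr.leaf ⟨[8,8,8,32],[⟨0,1,false⟩,⟨0,2,false⟩,⟨0,3,false⟩,⟨1,2,false⟩,⟨1,3,false⟩,⟨2,3,false⟩],[],0⟩)))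 (Tr.br (Tr.br (Tr.leaf ⟨[2,2,16],[⟨0,1,true⟩,⟨0,2,true⟩,⟨1,2,false⟩],[],0⟩) (Tr.leaf ⟨[8,32,64],[⟨0,1,false⟩,⟨0,2,false⟩,⟨1,2,false⟩],[],0⟩)) (Tr.br (Tr.leaf ⟨[2,8,32],[⟨0,1,true⟩,⟨0,2,false⟩,⟨1,2,false⟩],[],0⟩) (Tr.leaf ⟨[128,128],[⟨0,1,false⟩],[⟨7,[(0,true),(1,false)]⟩,⟨7,[(0,false),(1,true)]⟩,⟨8,[(0,true),(1,false)]⟩,⟨8,[(0,false),(1,true)]⟩,⟨9,[(0,true),(1,false)]⟩,⟨9,[(0,false),(1,true)]⟩,⟨10,[(0,true),(1,false)]⟩,⟨10,[(0,false),(1,true)]⟩,⟨11,[(0,true),(1,false)]⟩,⟨11,[(0,false),(1,true)]⟩,⟨12,[(0,true),(1,false)]⟩,⟨12,[(0,false),(1,true)]⟩],0⟩))))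
 (Tr.br (Tr.br (Tr.br (Tr.leaf ⟨[48,48],[⟨0,1,true⟩],[],0⟩) (Tr.leaf ⟨[4,8,32],[⟨0,1,false⟩,⟨0,2,false⟩,⟨1,2,false⟩],[],0⟩)) (Tr.br (Tr.leaf ⟨[2,4,64],[⟨0,1,true⟩,⟨0,2,true⟩,⟨1,2,false⟩],[],0⟩) (Tr.leaf ⟨[16,16,16,64],[⟨0,1,false⟩,⟨0,2,false⟩,⟨0,3,false⟩,⟨1,2,false⟩,⟨1,3,false⟩,⟨2,3,false⟩],[],0⟩))) (Tr.br (Tr.br (Tr.leaf ⟨[2,4,8],[⟨0,1,false⟩,⟨0,2,true⟩,⟨1,2,false⟩],[],0⟩) (Tr.leaf ⟨[10,10,10,10],[⟨0,1,true⟩,⟨0,2,true⟩,⟨0,3,true⟩,⟨1,2,false⟩,⟨1,3,false⟩,⟨2,3,false⟩],[],0⟩)) (Tr.br (Tr.leaf ⟨[2,16,32],[⟨0,1,true⟩,⟨0,2,false⟩,⟨1,2,false⟩],[],0⟩) (Tr.leaf ⟨[2048,2048],[⟨0,1,false⟩],[⟨7,[(0,true),(1,false)]⟩,⟨7,[(0,false),(1,true)]⟩,⟨8,[(0,true),(1,false)]⟩,⟨8,[(0,false),(1,true)]⟩,⟨9,[(0,true),(1,false)]⟩,⟨9,[(0,false),(1,true)]⟩],0⟩))))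
)
 (Tr.br (Tr.br (Tr.br (Tr.br (Tr.leaf ⟨[24,24],[⟨0,1,true⟩],[],0⟩) (Tr.leaf ⟨[2,32,64],[⟨0,1,false⟩,⟨0,2,true⟩,⟨1,2,false⟩],[],0⟩)) (Tr.br (Tr.leaf ⟨[2,4,64],[⟨0,1,true⟩,⟨0,2,false⟩,⟨1,2,false⟩],[],0⟩) (Tr.leaf ⟨[4,4,4,32],[⟨0,1,false⟩,⟨0,2,false⟩,⟨0,3,false⟩,⟨1,2,false⟩,⟨1,3,false⟩,⟨2,3,false⟩],[],0⟩))) (Tr.br (Tr.br (Tr.leaf ⟨[2,2,64],[⟨0,1,true⟩,⟨0,2,true⟩,⟨1,2,false⟩],[],0⟩) (Tr.leaf ⟨[18,18,18,18],[⟨0,1,true⟩,⟨0,2,true⟩,⟨0,3,true⟩,⟨1,2,false⟩,⟨1,3,false⟩,⟨2,3,false⟩],[],0⟩)) (Tr.br (Tr.leaf ⟨[2,8,64],[⟨0,1,true⟩,⟨0,2,false⟩,⟨1,2,false⟩],[],0⟩) (Tr.leaf ⟨[512,512],[⟨0,1,false⟩],[⟨7,[(0,true),(1,false)]⟩,⟨7,[(0,false),(1,true)]⟩,⟨11,[(0,true),(1,false)]⟩,⟨11,[(0,false),(1,true)]⟩,⟨12,[(0,true),(1,false)]⟩,⟨12,[(0,false),(1,true)]⟩],0⟩))))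
 (Tr.br (Tr.br (Tr.br (Tr.leaf ⟨[2,2,4],[⟨0,1,true⟩,⟨0,2,true⟩,⟨1,2,false⟩],[],0⟩) (Tr.leaf ⟨[4,16,64],[⟨0,1,false⟩,⟨0,2,false⟩,⟨1,2,false⟩],[],0⟩)) (Tr.br (Tr.leaf ⟨[2,8,16],[⟨0,1,false⟩,⟨0,2,true⟩,⟨1,2,false⟩],[],0⟩) (Tr.leaf ⟨[4,4,4,16],[⟨0,1,false⟩,⟨0,2,false⟩,⟨0,3,false⟩,⟨1,2,false⟩,⟨1,3,false⟩,⟨2,3,false⟩],[],0⟩))) (Tr.br (Tr.br (Tr.leaf ⟨[2,4,16],[⟨0,1,true⟩,⟨0,2,false⟩,⟨1,2,false⟩],[],0⟩) (Tr.leaf ⟨[32,32,32,4],[⟨0,1,false⟩,⟨0,2,false⟩,⟨0,3,false⟩,⟨1,2,false⟩,⟨1,3,false⟩,⟨2,3,false⟩],[],0⟩)) (Tr.leaf ⟨[2,16,32],[⟨0,1,true⟩,⟨0,2,true⟩,⟨1,2,false⟩],[],0⟩)))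
)
)
 (Tr.br (Tr.br (Tr.br (Tr.br (Tr.br (Tr.leaf ⟨[96,96],[⟨0,1,true⟩],[],0⟩) (Tr.leaf ⟨[2,32,64],[⟨0,1,true⟩,⟨0,2,false⟩,⟨1,2,false⟩],[],0⟩)) (Tr.br (Tr.leaf ⟨[2,4,32],[⟨0,1,false⟩,⟨0,2,true⟩,⟨1,2,false⟩],[],0⟩) (Tr.leaf ⟨[16,16,16,4],[⟨0,1,false⟩,⟨0,2,false⟩,⟨0,3,false⟩,⟨1,2,false⟩,⟨1,3,false⟩,⟨2,3,false⟩],[],0⟩))) (Tr.br (Tr.br (Tr.leaf ⟨[2,2,32],[⟨0,1,true⟩,⟨0,2,true⟩,⟨1,2,false⟩],[],0⟩) (Tr.leaf ⟨[6,6,6,6],[⟨0,1,true⟩,⟨0,2,true⟩,⟨0,3,true⟩,⟨1,2,false⟩,⟨1,3,false⟩,⟨2,3,false⟩],[],0⟩)) (Tr.br (Tr.leaf ⟨[2,8,32],[⟨0,1,false⟩,⟨0,2,true⟩,⟨1,2,false⟩],[],0⟩) (Tr.leaf ⟨[256,256],[⟨0,1,false⟩],[⟨7,[(0,true),(1,false)]⟩,⟨7,[(0,false),(1,true)]⟩,⟨10,[(0,true),(1,false)]⟩,⟨10,[(0,false),(1,true)]⟩,⟨11,[(0,true),(1,false)]⟩,⟨11,[(0,false),(1,true)]⟩],0⟩))))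
 (Tr.br (Tr.br (Tr.br (Tr.leaf ⟨[12,12],[⟨0,1,true⟩],[],0⟩) (Tr.leaf ⟨[4,16,32],[⟨0,1,false⟩,⟨0,2,false⟩,⟨1,2,false⟩],[],0⟩)) (Tr.br (Tr.leaf ⟨[2,8,16],[⟨0,1,true⟩,⟨0,2,false⟩,⟨1,2,false⟩],[],0⟩) (Tr.leaf ⟨[32,32,32,8],[⟨0,1,false⟩,⟨0,2,false⟩,⟨0,3,false⟩,⟨1,2,false⟩,⟨1,3,false⟩,⟨2,3,false⟩],[],0⟩))) (Tr.br (Tr.br (Tr.leaf ⟨[2,4,8],[⟨0,1,true⟩,⟨0,2,true⟩,⟨1,2,false⟩],[],0⟩) (Tr.leaf ⟨[66,66,66,66],[⟨0,1,true⟩,⟨0,2,true⟩,⟨0,3,true⟩,⟨1,2,false⟩,⟨1,3,false⟩,⟨2,3,false⟩],[],0⟩)) (Tr.br (Tr.leaf ⟨[2,16,32],[⟨0,1,false⟩,⟨0,2,true⟩,⟨1,2,false⟩],[],0⟩) (Tr.leaf ⟨[4096,4096],[⟨0,1,false⟩],[⟨7,[(0,true),(1,false)]⟩,⟨7,[(0,false),(1,true)]⟩,⟨9,[(0,true),(1,false)]⟩,⟨9,[(0,false),(1,true)]⟩,⟨10,[(0,true),(1,false)]⟩,⟨10,[(0,false),(1,true)]⟩],0⟩))))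
)
 (Tr.br (Tr.br (Tr.br (Tr.br (Tr.leaf ⟨[68,68],[⟨0,1,true⟩],[],0⟩) (Tr.leaf ⟨[2,32,64],[⟨0,1,true⟩,⟨0,2,true⟩,⟨1,2,false⟩],[],0⟩)) (Tr.br (Tr.leaf ⟨[2,4,64],[⟨0,1,false⟩,⟨0,2,true⟩,⟨1,2,false⟩],[],0⟩) (Tr.leaf ⟨[64,64,64,8],[⟨0,1,false⟩,⟨0,2,false⟩,⟨0,3,false⟩,⟨1,2,false⟩,⟨1,3,false⟩,⟨2,3,false⟩],[],0⟩))) (Tr.br (Tr.br (Tr.leaf ⟨[2,4,8],[⟨0,1,true⟩,⟨0,2,false⟩,⟨1,2,false⟩],[],0⟩) (Tr.leaf ⟨[34,34,34,34],[⟨0,1,true⟩,⟨0,2,true⟩,⟨0,3,true⟩,⟨1,2,false⟩,⟨1,3,false⟩,⟨2,3,false⟩],[],0⟩)) (Tr.br (Tr.leaf ⟨[2,8,64],[⟨0,1,false⟩,⟨0,2,true⟩,⟨1,2,false⟩],[],0⟩) (Tr.leaf ⟨[1024,1024],[⟨0,1,false⟩],[⟨7,[(0,true),(1,false)]⟩,⟨7,[(0,false),(1,true)]⟩,⟨8,[(0,true),(1,false)]⟩,⟨8,[(0,false),(1,true)]⟩,⟨12,[(0,true),(1,false)]⟩,⟨12,[(0,false),(1,true)]⟩],0⟩))))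
 (Tr.br (Tr.br (Tr.br (Tr.leaf ⟨[2,2,8],[⟨0,1,true⟩,⟨0,2,true⟩,⟨1,2,false⟩],[],0⟩) (Tr.leaf ⟨[8,16,64],[⟨0,1,false⟩,⟨0,2,false⟩,⟨1,2,false⟩],[],0⟩)) (Tr.br (Tr.leaf ⟨[2,8,16],[⟨0,1,true⟩,⟨0,2,true⟩,⟨1,2,false⟩],[],0⟩) (Tr.leaf ⟨[8,8,8,64],[⟨0,1,false⟩,⟨0,2,false⟩,⟨0,3,false⟩,⟨1,2,false⟩,⟨1,3,false⟩,⟨2,3,false⟩],[],0⟩))) (Tr.br (Tr.br (Tr.leaf ⟨[2,4,16],[⟨0,1,false⟩,⟨0,2,true⟩,⟨1,2,false⟩],[],0⟩) (Tr.leaf ⟨[64,64,64,16],[⟨0,1,false⟩,⟨0,2,false⟩,⟨0,3,false⟩,⟨1,2,false⟩,⟨1,3,false⟩,⟨2,3,false⟩],[],0⟩)) (Tr.leaf ⟨[2,16,64],[⟨0,1,true⟩,⟨0,2,false⟩,⟨1,2,false⟩],[],0⟩)))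
)
)
)

noncomputable def b2_sc : Tr Sc := (Tr.leaf ⟨[],[]⟩)
noncomputable def b2_T : Tab := ⟨13,b2_ty,b2_ev,b2_ax,b2_sc⟩
def b2_S0 : St := ⟨0,0,0,0,0⟩
def b2_G0 : Ctx := ⟨13,0,0x3fffffffffffffff,0,0,b2_S0,none⟩

end Pool.Agent.Lib.MP_849b2e_co
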