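import Pool.Agent.Lib.MP_849b2e_co.Fast
import Pool.Agent.Lib.MP_849b2e_co.Tb2
import Pool.Agent.Lib.MP_849b2e_co.RApply

set_option maxRecDepth 100000
set_option linter.all false
namespace Pool.Agent.Lib.MP_849b2e_co

noncomputable def b2_o0c : Pq := (Pq.cons (Pq.L [] 2 (Pf.C 3 256))
 (Pq.cons (Pq.L [] 2 (Pf.C 5 256))
 (Pq.cons (Pq.L [] 2 (Pf.C 3 256))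
 (Pq.cons (Pq.L [] 2 (Pf.C 5 256))
 (Pq.cons (Pq.L [] 2 (Pf.C 2 256))
 (Pq.cons (Pq.L [] 2 (Pf.C 2 256))
 (Pq.cons (Pq.L [] 2 (Pf.C 2 256))
 (Pq.cons (Pq.L [] 2 (Pf.C 2 256))
 (Pq.cons (Pq.L [] 2 (Pf.C 4 256))
 (Pq.cons (Pq.L [] 2 (Pf.C 4 256))
 (Pq.cons (Pq.L [] 2 (Pf.C 1 256))
 (Pq.cons (Pq.L [] 2 (Pf.C 1 256))
 (Pq.cons (Pq.L [] 2 (Pf.C 3 256))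
 (Pq.cons (Pq.L [] 2 (Pf.C 1 256))
 (Pq.cons (Pq.L [] 2 (Pf.C 1 256))
 Pq.nil)))))))))))))))
theorem b2_o0 : AllRef b2_T (pureCtx 6 56) (twinObl [1,2,3,4,5,6] 0 [63,25,49,35,7,13]) :=
  chkPq_sound b2_o0c _ (by decide +kernel)
noncomputable def b2_o1c : Pq := (Pq.cons (Pq.D 1 (Pq.cons (Pq.D 2 (Pq.cons (Pq.D 3 (Pq.cons (Pq.L [] 7 (Pf.B 3 2 (Pf.B 3 1 (Pf.B 2 1 (Pf.C 41 0x604100) (Pf.C 0 130)) (Pf.C 0 131)) (Pf.C 0 259)))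
 (Pq.cons (Pq.L [] 6 (Pf.B 3 2 (Pf.C 6 49408) (Pf.C 0 259)))
 (Pq.cons (Pq.L [] 6 (Pf.B 3 2 (Pf.C 7 49408) (Pf.C 0 259)))
 (Pq.cons (Pq.L [] 6 (Pf.B 3 2 (Pf.C 8 49408) (Pf.C 0 259)))
 (Pq.cons (Pq.L [] 6 (Pf.B 3 2 (Pf.C 9 49408) (Pf.C 0 259)))
 (Pq.cons (Pq.L [] 6 (Pf.B 3 2 (Pf.C 10 49408) (Pf.C 0 259)))
 Pq.nil))))))) (Pq.cons (Pq.L [] 3 (Pf.B 2 1 (Pf.C 6 32896) (Pf.C 0 130)))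
 (Pq.cons (Pq.L [] 3 (Pf.B 2 1 (Pf.C 7 32896) (Pf.C 0 130)))
 (Pq.cons (Pq.L [] 3 (Pf.B 2 1 (Pf.C 8 32896) (Pf.C 0 130)))
 (Pq.cons (Pq.L [] 3 (Pf.B 2 1 (Pf.C 9 32896) (Pf.C 0 130)))
 (Pq.cons (Pq.L [] 3 (Pf.B 2 1 (Pf.C 10 32896) (Pf.C 0 130)))
 Pq.nil))))))) (Pq.cons (Pq.D 2 (Pq.cons (Pq.L [] 3 (Pf.B 2 1 (Pf.C 6 16640) (Pf.C 0 130)))
 (Pq.cons (Pq.D 3 (Pq.cons (Pq.L [] 6 (Pf.B 3 2 (Pf.C 6 33152) (Pf.C 0 259)))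
 (Pq.cons (Pq.L [] 7 (Pf.B 3 2 (Pf.B 3 1 (Pf.B 2 1 (Pf.C 41 0x604100) (Pf.C 3 130)) (Pf.C 3 131)) (Pf.C 3 259)))
 (Pq.cons (Pq.L [] 6 (Pf.B 3 2 (Pf.C 13 49408) (Pf.C 5 259)))
 (Pq.cons (Pq.L [] 7 (Pf.B 3 2 (Pf.B 3 1 (Pf.B 2 1 (Pf.W 57 257 [] [0,3] (Pf.cons (Pf.B 4 3 (Pf.C 14 49284) (Pf.C 15 49412)) (Pf.cons (Pf.B 4 3 (Pf.C 14 49412) (Pf.C 15 49284)) (Pf.cons (Pf.B 4 0 (Pf.C 14 65792) (Pf.C 0 16388)) (Pf.cons (Pf.B 4 0 (Pf.C 14 65664) (Pf.C 0 32772)) (Pf.cons (Pf.B 4 3 (Pf.C 37 65922) (Pf.C 4 388)) (Pf.cons (Pf.B 4 3 (Pf.C 37 65921) (Pf.C 4 388)) Pf.nil))))))) (Pf.C 3 130)) (Pf.C 0 131)) (Pf.C 0 259)))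
 (Pq.cons (Pq.L [] 7 (Pf.B 3 2 (Pf.B 3 1 (Pf.B 2 1 (Pf.W 57 257 [] [0,3] (Pf.cons (Pf.B 4 3 (Pf.C 16 49284) (Pf.C 17 49412)) (Pf.cons (Pf.B 4 3 (Pf.C 16 49412) (Pf.C 17 49284)) (Pf.cons (Pf.B 4 3 (Pf.C 37 49666) (Pf.C 4 388)) (Pf.cons (Pf.B 4 3 (Pf.C 37 49665) (Pf.C 4 388)) (Pf.cons (Pf.B 4 0 (Pf.C 16 65792) (Pf.C 0 16388)) (Pf.cons (Pf.B 4 0 (Pf.C 16 65664) (Pf.C 0 32772)) Pf.nil))))))) (Pf.C 3 130)) (Pf.C 0 131)) (Pf.C 0 259)))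
 (Pq.cons (Pq.L [] 6 (Pf.B 3 2 (Pf.C 20 49408) (Pf.C 3 259)))
 Pq.nil))))))) (Pq.cons (Pq.L [] 3 (Pf.B 2 1 (Pf.C 13 32896) (Pf.C 5 130)))
 (Pq.cons (Pq.D 3 (Pq.cons (Pq.L [] 6 (Pf.B 3 2 (Pf.C 8 33152) (Pf.C 0 259)))
 (Pq.cons (Pq.L [] 7 (Pf.B 3 2 (Pf.B 3 1 (Pf.B 2 1 (Pf.W 57 385 [] [0,2] (Pf.cons (Pf.B 4 2 (Pf.C 14 32900) (Pf.C 15 33156)) (Pf.cons (Pf.B 4 2 (Pf.C 14 33156) (Pf.C 15 32900)) (Pf.cons (Pf.B 4 0 (Pf.C 14 65920) (Pf.C 0 16388)) (Pf.cons (Pf.B 4 0 (Pf.C 14 65664) (Pf.C 0 49156)) (Pf.cons (Pf.B 4 2 (Pf.C 37 65795) (Pf.C 4 260)) (Pf.cons (Pf.B 4 2 (Pf.C 37 65793) (Pf.C 4 260)) Pf.nil))))))) (Pf.C 0 130)) (Pf.C 3 131)) (Pf.C 0 259)))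
 (Pq.cons (Pq.L [] 6 (Pf.B 3 2 (Pf.C 23 33152) (Pf.C 2 259)))
 (Pq.cons (Pq.L [] 7 (Pf.B 3 2 (Pf.B 3 1 (Pf.B 2 1 (Pf.W 59 386 [] [0,1] (Pf.cons (Pf.B 4 1 (Pf.C 15 32900) (Pf.C 14 49284)) (Pf.cons (Pf.B 4 1 (Pf.C 15 49284) (Pf.C 14 32900)) (Pf.cons (Pf.B 4 0 (Pf.C 15 49664) (Pf.C 0 32772)) (Pf.cons (Pf.B 4 0 (Pf.C 15 33280) (Pf.C 0 49156)) (Pf.cons (Pf.B 4 1 (Pf.C 38 65921) (Pf.C 3 132)) (Pf.cons (Pf.B 4 1 (Pf.C 38 65793) (Pf.C 3 132)) Pf.nil))))))) (Pf.C 0 130)) (Pf.C 0 131)) (Pf.C 2 259)))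
 (Pq.cons (Pq.L [] 6 (Pf.B 3 2 (Pf.C 30 49408) (Pf.C 4 259)))
 (Pq.cons (Pq.L [] 5 (Pf.B 3 1 (Pf.C 20 49280) (Pf.C 3 131)))
 Pq.nil))))))) (Pq.cons (Pq.D 3 (Pq.cons (Pq.L [] 6 (Pf.B 3 2 (Pf.C 9 33152) (Pf.C 0 259)))
 (Pq.cons (Pq.L [] 7 (Pf.B 3 2 (Pf.B 3 1 (Pf.B 2 1 (Pf.W 57 385 [] [0,2] (Pf.cons (Pf.B 4 2 (Pf.C 16 32900) (Pf.C 17 33156)) (Pf.cons (Pf.B 4 2 (Pf.C 16 33156) (Pf.C 17 32900)) (Pf.cons (Pf.B 4 2 (Pf.C 37 33283) (Pf.C 4 260)) (Pf.cons (Pf.B 4 2 (Pf.C 37 33281) (Pf.C 4 260)) (Pf.cons (Pf.B 4 0 (Pf.C 16 65920) (Pf.C 0 16388)) (Pf.cons (Pf.B 4 0 (Pf.C 16 65664) (Pf.C 0 49156)) Pf.nil))))))) (Pf.C 0 130)) (Pf.C 3 131)) (Pf.C 0 259)))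
 (Pq.cons (Pq.L [] 5 (Pf.B 3 1 (Pf.C 13 49280) (Pf.C 5 131)))
 (Pq.cons (Pq.L [] 6 (Pf.B 3 2 (Pf.C 30 33152) (Pf.C 4 259)))
 (Pq.cons (Pq.L [] 7 (Pf.B 3 2 (Pf.B 3 1 (Pf.B 2 1 (Pf.W 60 386 [] [0,1] (Pf.cons (Pf.B 4 1 (Pf.C 17 32900) (Pf.C 16 49284)) (Pf.cons (Pf.B 4 1 (Pf.C 17 49284) (Pf.C 16 32900)) (Pf.cons (Pf.B 4 0 (Pf.C 17 49664) (Pf.C 0 32772)) (Pf.cons (Pf.B 4 0 (Pf.C 17 33280) (Pf.C 0 49156)) (Pf.cons (Pf.B 4 1 (Pf.C 36 49665) (Pf.C 5 132)) (Pf.cons (Pf.B 4 1 (Pf.C 36 33281) (Pf.C 5 132)) Pf.nil))))))) (Pf.C 0 130)) (Pf.C 0 131)) (Pf.C 1 259)))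
 (Pq.cons (Pq.L [] 6 (Pf.B 3 2 (Pf.C 35 49408) (Pf.C 1 259)))
 Pq.nil))))))) (Pq.cons (Pq.L [] 3 (Pf.B 2 1 (Pf.C 20 32896) (Pf.C 3 130)))
 Pq.nil))))))) (Pq.cons (Pq.D 2 (Pq.cons (Pq.L [] 3 (Pf.B 2 1 (Pf.C 7 16640) (Pf.C 0 130)))
 (Pq.cons (Pq.L [] 3 (Pf.B 2 1 (Pf.C 13 16640) (Pf.C 5 130)))
 (Pq.cons (Pq.D 3 (Pq.cons (Pq.L [] 6 (Pf.B 3 2 (Pf.C 7 33152) (Pf.C 0 259)))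
 (Pq.cons (Pq.L [] 6 (Pf.B 3 2 (Pf.C 13 33152) (Pf.C 5 259)))
 (Pq.cons (Pq.L [] 7 (Pf.B 3 2 (Pf.B 3 1 (Pf.B 2 1 (Pf.C 44 0x604100) (Pf.C 2 130)) (Pf.C 2 131)) (Pf.C 2 259)))
 (Pq.cons (Pq.L [] 6 (Pf.B 3 2 (Pf.C 23 49408) (Pf.C 2 259)))
 (Pq.cons (Pq.L [] 7 (Pf.B 3 2 (Pf.B 3 1 (Pf.B 2 1 (Pf.W 58 257 [] [0,3] (Pf.cons (Pf.B 4 3 (Pf.C 24 49284) (Pf.C 25 49412)) (Pf.cons (Pf.B 4 3 (Pf.C 24 49412) (Pf.C 25 49284)) (Pf.cons (Pf.B 4 0 (Pf.C 24 65792) (Pf.C 0 16388)) (Pf.cons (Pf.B 4 0 (Pf.C 24 65664) (Pf.C 0 32772)) (Pf.cons (Pf.B 4 3 (Pf.C 40 65922) (Pf.C 1 388)) (Pf.cons (Pf.B 4 3 (Pf.C 40 65921) (Pf.C 1 388)) Pf.nil))))))) (Pf.C 2 130)) (Pf.C 0 131)) (Pf.C 0 259)))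
 (Pq.cons (Pq.L [] 7 (Pf.B 3 2 (Pf.B 3 1 (Pf.B 2 1 (Pf.W 58 257 [] [0,3] (Pf.cons (Pf.B 4 3 (Pf.C 26 49284) (Pf.C 27 49412)) (Pf.cons (Pf.B 4 3 (Pf.C 26 49412) (Pf.C 27 49284)) (Pf.cons (Pf.B 4 3 (Pf.C 40 49666) (Pf.C 1 388)) (Pf.cons (Pf.B 4 3 (Pf.C 40 49665) (Pf.C 1 388)) (Pf.cons (Pf.B 4 0 (Pf.C 26 65792) (Pf.C 0 16388)) (Pf.cons (Pf.B 4 0 (Pf.C 26 65664) (Pf.C 0 32772)) Pf.nil))))))) (Pf.C 2 130)) (Pf.C 0 131)) (Pf.C 0 259)))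
 Pq.nil))))))) (Pq.cons (Pq.L [] 3 (Pf.B 2 1 (Pf.C 23 32896) (Pf.C 2 130)))
 (Pq.cons (Pq.D 3 (Pq.cons (Pq.L [] 6 (Pf.B 3 2 (Pf.C 9 33152) (Pf.C 0 259)))
 (Pq.cons (Pq.L [] 5 (Pf.B 3 1 (Pf.C 13 16768) (Pf.C 5 131)))
 (Pq.cons (Pq.L [] 7 (Pf.B 3 2 (Pf.B 3 1 (Pf.B 2 1 (Pf.W 58 385 [] [0,2] (Pf.cons (Pf.B 4 2 (Pf.C 24 32900) (Pf.C 25 33156)) (Pf.cons (Pf.B 4 2 (Pf.C 24 33156) (Pf.C 25 32900)) (Pf.cons (Pf.B 4 0 (Pf.C 24 65920) (Pf.C 0 16388)) (Pf.cons (Pf.B 4 0 (Pf.C 24 65664) (Pf.C 0 49156)) (Pf.cons (Pf.B 4 2 (Pf.C 40 65795) (Pf.C 1 260)) (Pf.cons (Pf.B 4 2 (Pf.C 40 65793) (Pf.C 1 260)) Pf.nil))))))) (Pf.C 0 130)) (Pf.C 2 131)) (Pf.C 0 259)))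
 (Pq.cons (Pq.L [] 6 (Pf.B 3 2 (Pf.C 30 33152) (Pf.C 4 259)))
 (Pq.cons (Pq.L [] 7 (Pf.B 3 2 (Pf.B 3 1 (Pf.B 2 1 (Pf.W 60 386 [] [0,1] (Pf.cons (Pf.B 4 1 (Pf.C 25 32900) (Pf.C 24 49284)) (Pf.cons (Pf.B 4 1 (Pf.C 25 49284) (Pf.C 24 32900)) (Pf.cons (Pf.B 4 1 (Pf.C 36 49284) (Pf.C 5 132)) (Pf.cons (Pf.B 4 1 (Pf.C 36 32900) (Pf.C 5 132)) (Pf.cons (Pf.B 4 0 (Pf.C 25 49664) (Pf.C 0 32772)) (Pf.cons (Pf.B 4 0 (Pf.C 25 33280) (Pf.C 0 49156)) Pf.nil))))))) (Pf.C 0 130)) (Pf.C 0 131)) (Pf.C 1 259)))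
 (Pq.cons (Pq.L [] 6 (Pf.B 3 2 (Pf.C 35 49408) (Pf.C 1 259)))
 Pq.nil))))))) (Pq.cons (Pq.D 3 (Pq.cons (Pq.L [] 6 (Pf.B 3 2 (Pf.C 10 33152) (Pf.C 0 259)))
 (Pq.cons (Pq.L [] 6 (Pf.B 3 2 (Pf.C 20 33152) (Pf.C 3 259)))
 (Pq.cons (Pq.L [] 7 (Pf.B 3 2 (Pf.B 3 1 (Pf.B 2 1 (Pf.W 58 385 [] [0,2] (Pf.cons (Pf.B 4 2 (Pf.C 26 32900) (Pf.C 27 33156)) (Pf.cons (Pf.B 4 2 (Pf.C 26 33156) (Pf.C 27 32900)) (Pf.cons (Pf.B 4 2 (Pf.C 40 33283) (Pf.C 1 260)) (Pf.cons (Pf.B 4 2 (Pf.C 40 33281) (Pf.C 1 260)) (Pf.cons (Pf.B 4 0 (Pf.C 26 65920) (Pf.C 0 16388)) (Pf.cons (Pf.B 4 0 (Pf.C 26 65664) (Pf.C 0 49156)) Pf.nil))))))) (Pf.C 0 130)) (Pf.C 2 131)) (Pf.C 0 259)))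
 (Pq.cons (Pq.L [] 5 (Pf.B 3 1 (Pf.C 23 49280) (Pf.C 2 131)))
 (Pq.cons (Pq.L [] 6 (Pf.B 3 2 (Pf.C 35 33152) (Pf.C 1 259)))
 (Pq.cons (Pq.L [] 7 (Pf.B 3 2 (Pf.B 3 1 (Pf.B 2 1 (Pf.W 61 386 [] [0,1] (Pf.cons (Pf.B 4 1 (Pf.C 27 32900) (Pf.C 26 49284)) (Pf.cons (Pf.B 4 1 (Pf.C 27 49284) (Pf.C 26 32900)) (Pf.cons (Pf.B 4 0 (Pf.C 27 49664) (Pf.C 0 32772)) (Pf.cons (Pf.B 4 0 (Pf.C 27 33280) (Pf.C 0 49156)) (Pf.cons (Pf.B 4 1 (Pf.C 39 49665) (Pf.C 2 132)) (Pf.cons (Pf.B 4 1 (Pf.C 39 33281) (Pf.C 2 132)) Pf.nil))))))) (Pf.C 0 130)) (Pf.C 0 131)) (Pf.C 1 259)))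
 Pq.nil))))))) Pq.nil))))))) (Pq.cons (Pq.D 2 (Pq.cons (Pq.L [] 3 (Pf.B 2 1 (Pf.C 8 16640) (Pf.C 0 130)))
 (Pq.cons (Pq.D 3 (Pq.cons (Pq.L [] 6 (Pf.B 3 2 (Pf.C 6 33152) (Pf.C 0 259)))
 (Pq.cons (Pq.L [] 7 (Pf.B 3 2 (Pf.B 3 1 (Pf.B 2 1 (Pf.W 57 386 [] [0,1] (Pf.cons (Pf.B 4 1 (Pf.C 14 16644) (Pf.C 15 16772)) (Pf.cons (Pf.B 4 1 (Pf.C 14 16772) (Pf.C 15 16644)) (Pf.cons (Pf.B 4 0 (Pf.C 14 65920) (Pf.C 0 32772)) (Pf.cons (Pf.B 4 0 (Pf.C 14 65792) (Pf.C 0 49156)) (Pf.cons (Pf.B 4 1 (Pf.C 37 65667) (Pf.C 4 132)) (Pf.cons (Pf.B 4 1 (Pf.C 37 65666) (Pf.C 4 132)) Pf.nil))))))) (Pf.C 0 130)) (Pf.C 0 131)) (Pf.C 3 259)))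
 (Pq.cons (Pq.L [] 6 (Pf.B 3 2 (Pf.C 13 49408) (Pf.C 5 259)))
 (Pq.cons (Pq.L [] 7 (Pf.B 3 2 (Pf.B 3 1 (Pf.B 2 1 (Pf.W 59 385 [] [0,2] (Pf.cons (Pf.B 4 2 (Pf.C 15 16644) (Pf.C 14 49412)) (Pf.cons (Pf.B 4 2 (Pf.C 15 49412) (Pf.C 14 16644)) (Pf.cons (Pf.B 4 0 (Pf.C 15 49664) (Pf.C 0 16388)) (Pf.cons (Pf.B 4 0 (Pf.C 15 16896) (Pf.C 0 49156)) (Pf.cons (Pf.B 4 2 (Pf.C 38 65922) (Pf.C 3 260)) (Pf.cons (Pf.B 4 2 (Pf.C 38 65666) (Pf.C 3 260)) Pf.nil))))))) (Pf.C 0 130)) (Pf.C 2 131)) (Pf.C 0 259)))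
 (Pq.cons (Pq.L [] 5 (Pf.B 3 1 (Pf.C 30 49280) (Pf.C 4 131)))
 (Pq.cons (Pq.L [] 6 (Pf.B 3 2 (Pf.C 20 49408) (Pf.C 3 259)))
 Pq.nil))))))) (Pq.cons (Pq.L [] 3 (Pf.B 2 1 (Pf.C 23 16640) (Pf.C 2 130)))
 (Pq.cons (Pq.D 3 (Pq.cons (Pq.L [] 6 (Pf.B 3 2 (Pf.C 8 33152) (Pf.C 0 259)))
 (Pq.cons (Pq.L [] 7 (Pf.B 3 2 (Pf.B 3 1 (Pf.B 2 1 (Pf.W 59 257 [] [0,3] (Pf.cons (Pf.B 4 3 (Pf.C 15 16772) (Pf.C 14 33156)) (Pf.cons (Pf.B 4 3 (Pf.C 15 33156) (Pf.C 14 16772)) (Pf.cons (Pf.B 4 0 (Pf.C 15 33280) (Pf.C 0 16388)) (Pf.cons (Pf.B 4 0 (Pf.C 15 16896) (Pf.C 0 32772)) (Pf.cons (Pf.B 4 3 (Pf.C 38 65795) (Pf.C 3 388)) (Pf.cons (Pf.B 4 3 (Pf.C 38 65667) (Pf.C 3 388)) Pf.nil))))))) (Pf.C 2 130)) (Pf.C 0 131)) (Pf.C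 0 259)))
 (Pq.cons (Pq.L [] 6 (Pf.B 3 2 (Pf.C 23 33152) (Pf.C 2 259)))
 (Pq.cons (Pq.L [] 7 (Pf.B 3 2 (Pf.B 3 1 (Pf.B 2 1 (Pf.C 42 0x604100) (Pf.C 2 130)) (Pf.C 2 131)) (Pf.C 2 259)))
 (Pq.cons (Pq.L [] 6 (Pf.B 3 2 (Pf.C 30 49408) (Pf.C 4 259)))
 (Pq.cons (Pq.L [] 7 (Pf.B 3 2 (Pf.B 3 1 (Pf.B 2 1 (Pf.W 59 257 [] [0,3] (Pf.cons (Pf.B 4 3 (Pf.C 31 49284) (Pf.C 32 49412)) (Pf.cons (Pf.B 4 3 (Pf.C 31 49412) (Pf.C 32 49284)) (Pf.cons (Pf.B 4 3 (Pf.C 38 49412) (Pf.C 3 388)) (Pf.cons (Pf.B 4 3 (Pf.C 38 49284) (Pf.C 3 388)) (Pf.cons (Pf.B 4 0 (Pf.C 31 65792) (Pf.C 0 16388)) (Pf.cons (Pf.B 4 0 (Pf.C 31 65664) (Pf.C 0 32772)) Pf.nil))))))) (Pf.C 2 130)) (Pf.C 0 131)) (Pf.C 0 259)))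
 Pq.nil))))))) (Pq.cons (Pq.L [] 3 (Pf.B 2 1 (Pf.C 30 32896) (Pf.C 4 130)))
 (Pq.cons (Pq.D 3 (Pq.cons (Pq.L [] 6 (Pf.B 3 2 (Pf.C 10 33152) (Pf.C 0 259)))
 (Pq.cons (Pq.L [] 6 (Pf.B 3 2 (Pf.C 20 33152) (Pf.C 3 259)))
 (Pq.cons (Pq.L [] 5 (Pf.B 3 1 (Pf.C 23 16768) (Pf.C 2 131)))
 (Pq.cons (Pq.L [] 7 (Pf.B 3 2 (Pf.B 3 1 (Pf.B 2 1 (Pf.W 59 385 [] [0,2] (Pf.cons (Pf.B 4 2 (Pf.C 31 32900) (Pf.C 32 33156)) (Pf.cons (Pf.B 4 2 (Pf.C 31 33156) (Pf.C 32 32900)) (Pf.cons (Pf.B 4 2 (Pf.C 38 33156) (Pf.C 3 260)) (Pf.cons (Pf.B 4 2 (Pf.C 38 32900) (Pf.C 3 260)) (Pf.cons (Pf.B 4 0 (Pf.C 31 65920) (Pf.C 0 16388)) (Pf.cons (Pf.B 4 0 (Pf.C 31 65664) (Pf.C 0 49156)) Pf.nil))))))) (Pf.C 0 130)) (Pf.C 2 131)) (Pf.C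 0 259)))
 (Pq.cons (Pq.L [] 6 (Pf.B 3 2 (Pf.C 35 33152) (Pf.C 1 259)))
 (Pq.cons (Pq.L [] 7 (Pf.B 3 2 (Pf.B 3 1 (Pf.B 2 1 (Pf.W 61 386 [] [0,1] (Pf.cons (Pf.B 4 1 (Pf.C 32 32900) (Pf.C 31 49284)) (Pf.cons (Pf.B 4 1 (Pf.C 32 49284) (Pf.C 31 32900)) (Pf.cons (Pf.B 4 1 (Pf.C 39 49284) (Pf.C 2 132)) (Pf.cons (Pf.B 4 1 (Pf.C 39 32900) (Pf.C 2 132)) (Pf.cons (Pf.B 4 0 (Pf.C 32 49664) (Pf.C 0 32772)) (Pf.cons (Pf.B 4 0 (Pf.C 32 33280) (Pf.C 0 49156)) Pf.nil))))))) (Pf.C 0 130)) (Pf.C 0 131)) (Pf.C 1 259)))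
 Pq.nil))))))) Pq.nil))))))) (Pq.cons (Pq.D 2 (Pq.cons (Pq.L [] 3 (Pf.B 2 1 (Pf.C 9 16640) (Pf.C 0 130)))
 (Pq.cons (Pq.D 3 (Pq.cons (Pq.L [] 6 (Pf.B 3 2 (Pf.C 6 33152) (Pf.C 0 259)))
 (Pq.cons (Pq.L [] 7 (Pf.B 3 2 (Pf.B 3 1 (Pf.B 2 1 (Pf.W 57 386 [] [0,1] (Pf.cons (Pf.B 4 1 (Pf.C 16 16644) (Pf.C 17 16772)) (Pf.cons (Pf.B 4 1 (Pf.C 16 16772) (Pf.C 17 16644)) (Pf.cons (Pf.B 4 1 (Pf.C 37 16899) (Pf.C 4 132)) (Pf.cons (Pf.B 4 1 (Pf.C 37 16898) (Pf.C 4 132)) (Pf.cons (Pf.B 4 0 (Pf.C 16 65920) (Pf.C 0 32772)) (Pf.cons (Pf.B 4 0 (Pf.C 16 65792) (Pf.C 0 49156)) Pf.nil))))))) (Pf.C 0 130)) (Pf.C 0 131)) (Pf.C 3 259)))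
 (Pq.cons (Pq.L [] 6 (Pf.B 3 2 (Pf.C 13 49408) (Pf.C 5 259)))
 (Pq.cons (Pq.L [] 5 (Pf.B 3 1 (Pf.C 30 16768) (Pf.C 4 131)))
 (Pq.cons (Pq.L [] 7 (Pf.B 3 2 (Pf.B 3 1 (Pf.B 2 1 (Pf.W 60 385 [] [0,2] (Pf.cons (Pf.B 4 2 (Pf.C 17 16644) (Pf.C 16 49412)) (Pf.cons (Pf.B 4 2 (Pf.C 17 49412) (Pf.C 16 16644)) (Pf.cons (Pf.B 4 0 (Pf.C 17 49664) (Pf.C 0 16388)) (Pf.cons (Pf.B 4 0 (Pf.C 17 16896) (Pf.C 0 49156)) (Pf.cons (Pf.B 4 2 (Pf.C 36 49666) (Pf.C 5 260)) (Pf.cons (Pf.B 4 2 (Pf.C 36 16898) (Pf.C 5 260)) Pf.nil))))))) (Pf.C 0 130)) (Pf.C 1 131)) (Pf.C 0 259)))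
 (Pq.cons (Pq.L [] 6 (Pf.B 3 2 (Pf.C 20 49408) (Pf.C 3 259)))
 Pq.nil))))))) (Pq.cons (Pq.D 3 (Pq.cons (Pq.L [] 6 (Pf.B 3 2 (Pf.C 7 33152) (Pf.C 0 259)))
 (Pq.cons (Pq.L [] 6 (Pf.B 3 2 (Pf.C 13 33152) (Pf.C 5 259)))
 (Pq.cons (Pq.L [] 7 (Pf.B 3 2 (Pf.B 3 1 (Pf.B 2 1 (Pf.W 58 386 [] [0,1] (Pf.cons (Pf.B 4 1 (Pf.C 24 16644) (Pf.C 25 16772)) (Pf.cons (Pf.B 4 1 (Pf.C 24 16772) (Pf.C 25 16644)) (Pf.cons (Pf.B 4 0 (Pf.C 24 65920) (Pf.C 0 32772)) (Pf.cons (Pf.B 4 0 (Pf.C 24 65792) (Pf.C 0 49156)) (Pf.cons (Pf.B 4 1 (Pf.C 40 65667) (Pf.C 1 132)) (Pf.cons (Pf.B 4 1 (Pf.C 40 65666) (Pf.C 1 132)) Pf.nil))))))) (Pf.C 0 130)) (Pf.C 0 131)) (Pf.C 2 259)))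
 (Pq.cons (Pq.L [] 6 (Pf.B 3 2 (Pf.C 23 49408) (Pf.C 2 259)))
 (Pq.cons (Pq.L [] 7 (Pf.B 3 2 (Pf.B 3 1 (Pf.B 2 1 (Pf.W 60 385 [] [0,2] (Pf.cons (Pf.B 4 2 (Pf.C 25 16644) (Pf.C 24 49412)) (Pf.cons (Pf.B 4 2 (Pf.C 25 49412) (Pf.C 24 16644)) (Pf.cons (Pf.B 4 2 (Pf.C 36 49412) (Pf.C 5 260)) (Pf.cons (Pf.B 4 2 (Pf.C 36 16644) (Pf.C 5 260)) (Pf.cons (Pf.B 4 0 (Pf.C 25 49664) (Pf.C 0 16388)) (Pf.cons (Pf.B 4 0 (Pf.C 25 16896) (Pf.C 0 49156)) Pf.nil))))))) (Pf.C 0 130)) (Pf.C 1 131)) (Pf.C 0 259)))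
 (Pq.cons (Pq.L [] 5 (Pf.B 3 1 (Pf.C 35 49280) (Pf.C 1 131)))
 Pq.nil))))))) (Pq.cons (Pq.L [] 3 (Pf.B 2 1 (Pf.C 30 16640) (Pf.C 4 130)))
 (Pq.cons (Pq.D 3 (Pq.cons (Pq.L [] 6 (Pf.B 3 2 (Pf.C 9 33152) (Pf.C 0 259)))
 (Pq.cons (Pq.L [] 7 (Pf.B 3 2 (Pf.B 3 1 (Pf.B 2 1 (Pf.W 60 257 [] [0,3] (Pf.cons (Pf.B 4 3 (Pf.C 17 16772) (Pf.C 16 33156)) (Pf.cons (Pf.B 4 3 (Pf.C 17 33156) (Pf.C 16 16772)) (Pf.cons (Pf.B 4 0 (Pf.C 17 33280) (Pf.C 0 16388)) (Pf.cons (Pf.B 4 0 (Pf.C 17 16896) (Pf.C 0 32772)) (Pf.cons (Pf.B 4 3 (Pf.C 36 33283) (Pf.C 5 388)) (Pf.cons (Pf.B 4 3 (Pf.C 36 16899) (Pf.C 5 388)) Pf.nil))))))) (Pf.C 1 130)) (Pf.C 0 131)) (Pf.C 0 259)))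
 (Pq.cons (Pq.L [] 7 (Pf.B 3 2 (Pf.B 3 1 (Pf.B 2 1 (Pf.W 60 257 [] [0,3] (Pf.cons (Pf.B 4 3 (Pf.C 25 16772) (Pf.C 24 33156)) (Pf.cons (Pf.B 4 3 (Pf.C 25 33156) (Pf.C 24 16772)) (Pf.cons (Pf.B 4 3 (Pf.C 36 33156) (Pf.C 5 388)) (Pf.cons (Pf.B 4 3 (Pf.C 36 16772) (Pf.C 5 388)) (Pf.cons (Pf.B 4 0 (Pf.C 25 33280) (Pf.C 0 16388)) (Pf.cons (Pf.B 4 0 (Pf.C 25 16896) (Pf.C 0 32772)) Pf.nil))))))) (Pf.C 1 130)) (Pf.C 0 131)) (Pf.C 0 259)))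
 (Pq.cons (Pq.L [] 6 (Pf.B 3 2 (Pf.C 30 33152) (Pf.C 4 259)))
 (Pq.cons (Pq.L [] 7 (Pf.B 3 2 (Pf.B 3 1 (Pf.B 2 1 (Pf.C 43 0x604100) (Pf.C 1 130)) (Pf.C 1 131)) (Pf.C 1 259)))
 (Pq.cons (Pq.L [] 6 (Pf.B 3 2 (Pf.C 35 49408) (Pf.C 1 259)))
 Pq.nil))))))) (Pq.cons (Pq.L [] 3 (Pf.B 2 1 (Pf.C 35 32896) (Pf.C 1 130)))
 Pq.nil))))))) (Pq.cons (Pq.D 2 (Pq.cons (Pq.L [] 3 (Pf.B 2 1 (Pf.C 10 16640) (Pf.C 0 130)))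
 (Pq.cons (Pq.L [] 3 (Pf.B 2 1 (Pf.C 20 16640) (Pf.C 3 130)))
 (Pq.cons (Pq.D 3 (Pq.cons (Pq.L [] 6 (Pf.B 3 2 (Pf.C 7 33152) (Pf.C 0 259)))
 (Pq.cons (Pq.L [] 6 (Pf.B 3 2 (Pf.C 13 33152) (Pf.C 5 259)))
 (Pq.cons (Pq.L [] 7 (Pf.B 3 2 (Pf.B 3 1 (Pf.B 2 1 (Pf.W 58 386 [] [0,1] (Pf.cons (Pf.B 4 1 (Pf.C 26 16644) (Pf.C 27 16772)) (Pf.cons (Pf.B 4 1 (Pf.C 26 16772) (Pf.C 27 16644)) (Pf.cons (Pf.B 4 1 (Pf.C 40 16899) (Pf.C 1 132)) (Pf.cons (Pf.B 4 1 (Pf.C 40 16898) (Pf.C 1 132)) (Pf.cons (Pf.B 4 0 (Pf.C 26 65920) (Pf.C 0 32772)) (Pf.cons (Pf.B 4 0 (Pf.C 26 65792) (Pf.C 0 49156)) Pf.nil))))))) (Pf.C 0 130)) (Pf.C 0 131)) (Pf.C 2 259)))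
 (Pq.cons (Pq.L [] 6 (Pf.B 3 2 (Pf.C 23 49408) (Pf.C 2 259)))
 (Pq.cons (Pq.L [] 5 (Pf.B 3 1 (Pf.C 35 16768) (Pf.C 1 131)))
 (Pq.cons (Pq.L [] 7 (Pf.B 3 2 (Pf.B 3 1 (Pf.B 2 1 (Pf.W 61 385 [] [0,2] (Pf.cons (Pf.B 4 2 (Pf.C 27 16644) (Pf.C 26 49412)) (Pf.cons (Pf.B 4 2 (Pf.C 27 49412) (Pf.C 26 16644)) (Pf.cons (Pf.B 4 0 (Pf.C 27 49664) (Pf.C 0 16388)) (Pf.cons (Pf.B 4 0 (Pf.C 27 16896) (Pf.C 0 49156)) (Pf.cons (Pf.B 4 2 (Pf.C 39 49666) (Pf.C 2 260)) (Pf.cons (Pf.B 4 2 (Pf.C 39 16898) (Pf.C 2 260)) Pf.nil))))))) (Pf.C 0 130)) (Pf.C 1 131)) (Pf.C 0 259)))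
 Pq.nil))))))) (Pq.cons (Pq.D 3 (Pq.cons (Pq.L [] 6 (Pf.B 3 2 (Pf.C 8 33152) (Pf.C 0 259)))
 (Pq.cons (Pq.L [] 5 (Pf.B 3 1 (Pf.C 20 16768) (Pf.C 3 131)))
 (Pq.cons (Pq.L [] 6 (Pf.B 3 2 (Pf.C 23 33152) (Pf.C 2 259)))
 (Pq.cons (Pq.L [] 7 (Pf.B 3 2 (Pf.B 3 1 (Pf.B 2 1 (Pf.W 59 386 [] [0,1] (Pf.cons (Pf.B 4 1 (Pf.C 31 16644) (Pf.C 32 16772)) (Pf.cons (Pf.B 4 1 (Pf.C 31 16772) (Pf.C 32 16644)) (Pf.cons (Pf.B 4 1 (Pf.C 38 16772) (Pf.C 3 132)) (Pf.cons (Pf.B 4 1 (Pf.C 38 16644) (Pf.C 3 132)) (Pf.cons (Pf.B 4 0 (Pf.C 31 65920) (Pf.C 0 32772)) (Pf.cons (Pf.B 4 0 (Pf.C 31 65792) (Pf.C 0 49156)) Pf.nil))))))) (Pf.C 0 130)) (Pf.C 0 131)) (Pf.C 2 259)))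
 (Pq.cons (Pq.L [] 6 (Pf.B 3 2 (Pf.C 30 49408) (Pf.C 4 259)))
 (Pq.cons (Pq.L [] 7 (Pf.B 3 2 (Pf.B 3 1 (Pf.B 2 1 (Pf.W 61 385 [] [0,2] (Pf.cons (Pf.B 4 2 (Pf.C 32 16644) (Pf.C 31 49412)) (Pf.cons (Pf.B 4 2 (Pf.C 32 49412) (Pf.C 31 16644)) (Pf.cons (Pf.B 4 2 (Pf.C 39 49412) (Pf.C 2 260)) (Pf.cons (Pf.B 4 2 (Pf.C 39 16644) (Pf.C 2 260)) (Pf.cons (Pf.B 4 0 (Pf.C 32 49664) (Pf.C 0 16388)) (Pf.cons (Pf.B 4 0 (Pf.C 32 16896) (Pf.C 0 49156)) Pf.nil))))))) (Pf.C 0 130)) (Pf.C 1 131)) (Pf.C 0 259)))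
 Pq.nil))))))) (Pq.cons (Pq.L [] 3 (Pf.B 2 1 (Pf.C 35 16640) (Pf.C 1 130)))
 (Pq.cons (Pq.D 3 (Pq.cons (Pq.L [] 6 (Pf.B 3 2 (Pf.C 10 33152) (Pf.C 0 259)))
 (Pq.cons (Pq.L [] 6 (Pf.B 3 2 (Pf.C 20 33152) (Pf.C 3 259)))
 (Pq.cons (Pq.L [] 7 (Pf.B 3 2 (Pf.B 3 1 (Pf.B 2 1 (Pf.W 61 257 [] [0,3] (Pf.cons (Pf.B 4 3 (Pf.C 27 16772) (Pf.C 26 33156)) (Pf.cons (Pf.B 4 3 (Pf.C 27 33156) (Pf.C 26 16772)) (Pf.cons (Pf.B 4 0 (Pf.C 27 33280) (Pf.C 0 16388)) (Pf.cons (Pf.B 4 0 (Pf.C 27 16896) (Pf.C 0 32772)) (Pf.cons (Pf.B 4 3 (Pf.C 39 33283) (Pf.C 2 388)) (Pf.cons (Pf.B 4 3 (Pf.C 39 16899) (Pf.C 2 388)) Pf.nil))))))) (Pf.C 1 130)) (Pf.C 0 131)) (Pf.C 0 259)))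
 (Pq.cons (Pq.L [] 7 (Pf.B 3 2 (Pf.B 3 1 (Pf.B 2 1 (Pf.W 61 257 [] [0,3] (Pf.cons (Pf.B 4 3 (Pf.C 32 16772) (Pf.C 31 33156)) (Pf.cons (Pf.B 4 3 (Pf.C 32 33156) (Pf.C 31 16772)) (Pf.cons (Pf.B 4 3 (Pf.C 39 33156) (Pf.C 2 388)) (Pf.cons (Pf.B 4 3 (Pf.C 39 16772) (Pf.C 2 388)) (Pf.cons (Pf.B 4 0 (Pf.C 32 33280) (Pf.C 0 16388)) (Pf.cons (Pf.B 4 0 (Pf.C 32 16896) (Pf.C 0 32772)) Pf.nil))))))) (Pf.C 1 130)) (Pf.C 0 131)) (Pf.C 0 259)))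
 (Pq.cons (Pq.L [] 6 (Pf.B 3 2 (Pf.C 35 33152) (Pf.C 1 259)))
 (Pq.cons (Pq.L [] 7 (Pf.B 3 2 (Pf.B 3 1 (Pf.B 2 1 (Pf.C 45 0x604100) (Pf.C 1 130)) (Pf.C 1 131)) (Pf.C 1 259)))
 Pq.nil))))))) Pq.nil))))))) Pq.nil))))))) (Pq.cons (Pq.D 1 (Pq.cons (Pq.D 2 (Pq.cons (Pq.D 3 (Pq.cons (Pq.L [] 7 (Pf.B 3 2 (Pf.B 3 1 (Pf.B 2 1 (Pf.C 41 0x604100) (Pf.C 0 130)) (Pf.C 0 131)) (Pf.C 0 259)))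
 (Pq.cons (Pq.L [] 4 (Pf.C 3 384))
 (Pq.cons (Pq.L [] 4 (Pf.C 5 384))
 (Pq.cons (Pq.L [] 7 (Pf.B 3 2 (Pf.C 14 49154) (Pf.B 3 1 (Pf.C 14 49153) (Pf.B 2 1 (Pf.W 56 257 [] [0,3] (Pf.cons (Pf.B 4 3 (Pf.C 8 49665) (Pf.C 0 16772)) (Pf.cons (Pf.B 4 3 (Pf.C 8 49666) (Pf.C 0 33156)) (Pf.cons (Pf.B 4 3 (Pf.C 15 49666) (Pf.C 0 16772)) (Pf.cons (Pf.B 4 3 (Pf.C 15 49665) (Pf.C 0 33156)) (Pf.cons (Pf.B 4 3 (Pf.C 22 49666) (Pf.C 2 388)) (Pf.cons (Pf.B 4 3 (Pf.C 22 49665) (Pf.C 2 388)) (Pf.cons (Pf.B 4 0 (Pf.C 14 65538) (Pf.C 0 16388)) (Pf.cons (Pf.B 4 0 (Pf.C 14 65537) (Pf.C 0 32772)) (Pf.cons (Pf.B 4 3 (Pf.C 28 65922) (Pf.C 4 388)) (Pf.cons (Pf.B 4 3 (Pf.C 28 65921) (Pf.C 4 388)) (Pf.cons (Pf.B 4 3 (Pf.C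 31 65922) (Pf.C 0 16772)) (Pf.cons (Pf.B 4 3 (Pf.C 31 65921) (Pf.C 0 33156)) Pf.nil))))))))))))) (Pf.C 0 130)))))
 (Pq.cons (Pq.L [] 7 (Pf.B 3 2 (Pf.C 16 49154) (Pf.B 3 1 (Pf.C 16 49153) (Pf.B 2 1 (Pf.W 56 257 [] [0,3] (Pf.cons (Pf.B 4 3 (Pf.C 9 49665) (Pf.C 0 16772)) (Pf.cons (Pf.B 4 3 (Pf.C 9 49666) (Pf.C 0 33156)) (Pf.cons (Pf.B 4 3 (Pf.C 17 49666) (Pf.C 0 16772)) (Pf.cons (Pf.B 4 3 (Pf.C 17 49665) (Pf.C 0 33156)) (Pf.cons (Pf.B 4 3 (Pf.C 25 49666) (Pf.C 0 16772)) (Pf.cons (Pf.B 4 3 (Pf.C 25 49665) (Pf.C 0 33156)) (Pf.cons (Pf.B 4 3 (Pf.C 29 49666) (Pf.C 4 388)) (Pf.cons (Pf.B 4 3 (Pf.C 29 49665) (Pf.C 4 388)) (Pf.cons (Pf.B 4 0 (Pf.C 16 65538) (Pf.C 0 16388)) (Pf.cons (Pf.B 4 0 (Pf.C 16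 65537) (Pf.C 0 32772)) (Pf.cons (Pf.B 4 3 (Pf.C 33 65922) (Pf.C 1 388)) (Pf.cons (Pf.B 4 3 (Pf.C 33 65921) (Pf.C 1 388)) Pf.nil))))))))))))) (Pf.C 0 130)))))
 (Pq.cons (Pq.L [] 4 (Pf.C 3 384))
 Pq.nil))))))) (Pq.cons (Pq.L [] 2 (Pf.C 3 256))
 (Pq.cons (Pq.L [] 2 (Pf.C 5 256))
 (Pq.cons (Pq.D 3 (Pq.cons (Pq.L [] 7 (Pf.B 3 2 (Pf.C 14 32771) (Pf.B 3 1 (Pf.B 2 1 (Pf.C 14 32769) (Pf.W 56 385 [] [0,2] (Pf.cons (Pf.B 4 2 (Pf.C 8 33281) (Pf.C 0 16644)) (Pf.cons (Pf.B 4 2 (Pf.C 8 33283) (Pf.C 0 49412)) (Pf.cons (Pf.B 4 2 (Pf.C 15 33283) (Pf.C 0 16644)) (Pf.cons (Pf.B 4 2 (Pf.C 15 33281) (Pf.C 0 49412)) (Pf.cons (Pf.B 4 2 (Pf.C 22 33283) (Pf.C 2 260)) (Pf.cons (Pf.B 4 2 (Pf.C 22 33281) (Pf.C 2 260))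 (Pf.cons (Pf.B 4 0 (Pf.C 14 65539) (Pf.C 0 16388)) (Pf.cons (Pf.B 4 0 (Pf.C 14 65537) (Pf.C 0 49156)) (Pf.cons (Pf.B 4 2 (Pf.C 28 65795) (Pf.C 4 260)) (Pf.cons (Pf.B 4 2 (Pf.C 28 65793) (Pf.C 4 260)) (Pf.cons (Pf.B 4 2 (Pf.C 31 65795) (Pf.C 0 16644)) (Pf.cons (Pf.B 4 2 (Pf.C 31 65793) (Pf.C 0 49412)) Pf.nil)))))))))))))) (Pf.C 0 131))))
 (Pq.cons (Pq.L [] 4 (Pf.C 3 384))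
 (Pq.cons (Pq.L [] 4 (Pf.C 5 384))
 (Pq.cons (Pq.L [] 7 (Pf.B 3 2 (Pf.B 3 1 (Pf.C 14 49153) (Pf.B 2 1 (Pf.C 14 32769) (Pf.W 59 386 [] [0,1] (Pf.cons (Pf.B 4 0 (Pf.C 15 32772) (Pf.C 14 49156)) (Pf.cons (Pf.B 4 0 (Pf.C 15 49156) (Pf.C 14 32772)) (Pf.cons (Pf.B 4 1 (Pf.C 15 49665) (Pf.C 0 32900)) (Pf.cons (Pf.B 4 1 (Pf.C 15 33281) (Pf.C 0 49284)) (Pf.cons (Pf.B 4 1 (Pf.C 31 65921) (Pf.C 0 32900)) (Pf.cons (Pf.B 4 1 (Pf.C 31 65793) (Pf.C 0 49284)) Pf.nil))))))))) (Pf.C 2 259)))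
 (Pq.cons (Pq.L [] 6 (Pf.B 3 2 (Pf.C 37 49408) (Pf.C 4 259)))
 (Pq.cons (Pq.L [] 4 (Pf.C 3 384))
 Pq.nil))))))) (Pq.cons (Pq.D 3 (Pq.cons (Pq.L [] 7 (Pf.B 3 2 (Pf.C 16 32771) (Pf.B 3 1 (Pf.B 2 1 (Pf.C 16 32769) (Pf.W 56 385 [] [0,2] (Pf.cons (Pf.B 4 2 (Pf.C 9 33281) (Pf.C 0 16644)) (Pf.cons (Pf.B 4 2 (Pf.C 9 33283) (Pf.C 0 49412)) (Pf.cons (Pf.B 4 2 (Pf.C 17 33283) (Pf.C 0 16644)) (Pf.cons (Pf.B 4 2 (Pf.C 17 33281) (Pf.C 0 49412)) (Pf.cons (Pf.B 4 2 (Pf.C 25 33283) (Pf.C 0 16644)) (Pf.cons (Pf.B 4 2 (Pf.C 25 33281) (Pf.C 0 49412)) (Pf.cons (Pf.B 4 2 (Pf.C 29 33283) (Pf.C 4 260)) (Pf.cons (Pf.B 4 2 (Pf.C 29 33281) (Pf.C 4 260)) (Pf.cons (Pf.B 4 0 (Pf.C 16 65539) (Pf.C 0 16388)) (Pf.cons (Pf.B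 4 0 (Pf.C 16 65537) (Pf.C 0 49156)) (Pf.cons (Pf.B 4 2 (Pf.C 33 65795) (Pf.C 1 260)) (Pf.cons (Pf.B 4 2 (Pf.C 33 65793) (Pf.C 1 260)) Pf.nil)))))))))))))) (Pf.C 0 131))))
 (Pq.cons (Pq.L [] 4 (Pf.C 3 384))
 (Pq.cons (Pq.L [] 4 (Pf.C 5 384))
 (Pq.cons (Pq.L [] 6 (Pf.B 3 2 (Pf.C 37 33152) (Pf.C 4 259)))
 (Pq.cons (Pq.L [] 7 (Pf.B 3 2 (Pf.B 3 1 (Pf.C 16 49153) (Pf.B 2 1 (Pf.C 16 32769) (Pf.W 60 386 [] [0,1] (Pf.cons (Pf.B 4 0 (Pf.C 17 32772) (Pf.C 16 49156)) (Pf.cons (Pf.B 4 0 (Pf.C 17 49156) (Pf.C 16 32772)) (Pf.cons (Pf.B 4 1 (Pf.C 17 49665) (Pf.C 0 32900)) (Pf.cons (Pf.B 4 1 (Pf.C 17 33281) (Pf.C 0 49284)) (Pf.cons (Pf.B 4 1 (Pf.C 25 49665) (Pf.C 0 32900)) (Pf.cons (Pf.B 4 1 (Pf.C 25 33281)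 (Pf.C 0 49284)) Pf.nil))))))))) (Pf.C 1 259)))
 (Pq.cons (Pq.L [] 4 (Pf.C 3 384))
 Pq.nil))))))) (Pq.cons (Pq.L [] 2 (Pf.C 3 256))
 Pq.nil))))))) (Pq.cons (Pq.L [] 1 (Pf.C 3 128))
 (Pq.cons (Pq.L [] 1 (Pf.C 5 128))
 (Pq.cons (Pq.D 2 (Pq.cons (Pq.D 3 (Pq.cons (Pq.L [] 7 (Pf.B 3 2 (Pf.B 3 1 (Pf.C 14 16387) (Pf.B 2 1 (Pf.C 14 16386) (Pf.W 56 386 [] [0,1] (Pf.cons (Pf.B 4 1 (Pf.C 8 16898) (Pf.C 0 32900)) (Pf.cons (Pf.B 4 1 (Pf.C 8 16899) (Pf.C 0 49284)) (Pf.cons (Pf.B 4 1 (Pf.C 15 16899) (Pf.C 0 32900)) (Pf.cons (Pf.B 4 1 (Pf.C 15 16898) (Pf.C 0 49284)) (Pf.cons (Pf.B 4 1 (Pf.C 22 16899) (Pf.C 2 132)) (Pf.cons (Pf.B 4 1 (Pf.C 22 16898) (Pf.C 2 132)) (Pf.cons (Pf.B 4 0 (Pf.C 14 65539) (Pf.C 0 32772))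 (Pf.cons (Pf.B 4 0 (Pf.C 14 65538) (Pf.C 0 49156)) (Pf.cons (Pf.B 4 1 (Pf.C 28 65667) (Pf.C 4 132)) (Pf.cons (Pf.B 4 1 (Pf.C 28 65666) (Pf.C 4 132)) (Pf.cons (Pf.B 4 1 (Pf.C 31 65667) (Pf.C 0 32900)) (Pf.cons (Pf.B 4 1 (Pf.C 31 65666) (Pf.C 0 49284)) Pf.nil))))))))))))))) (Pf.C 0 259)))
 (Pq.cons (Pq.L [] 4 (Pf.C 3 384))
 (Pq.cons (Pq.L [] 4 (Pf.C 5 384))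
 (Pq.cons (Pq.L [] 7 (Pf.B 3 2 (Pf.C 14 49154) (Pf.B 3 1 (Pf.B 2 1 (Pf.C 14 16386) (Pf.W 59 385 [] [0,2] (Pf.cons (Pf.B 4 0 (Pf.C 15 16388) (Pf.C 14 49156)) (Pf.cons (Pf.B 4 0 (Pf.C 15 49156) (Pf.C 14 16388)) (Pf.cons (Pf.B 4 2 (Pf.C 15 49666) (Pf.C 0 16644)) (Pf.cons (Pf.B 4 2 (Pf.C 15 16898) (Pf.C 0 49412)) (Pf.cons (Pf.B 4 2 (Pf.C 31 65922) (Pf.C 0 16644)) (Pf.cons (Pf.B 4 2 (Pf.C 31 65666) (Pf.C 0 49412)) Pf.nil)))))))) (Pf.C 2 131))))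
 (Pq.cons (Pq.L [] 5 (Pf.B 3 1 (Pf.C 37 49280) (Pf.C 4 131)))
 (Pq.cons (Pq.L [] 4 (Pf.C 3 384))
 Pq.nil))))))) (Pq.cons (Pq.L [] 2 (Pf.C 3 256))
 (Pq.cons (Pq.L [] 2 (Pf.C 5 256))
 (Pq.cons (Pq.D 3 (Pq.cons (Pq.L [] 7 (Pf.B 3 2 (Pf.C 14 32771) (Pf.B 3 1 (Pf.C 14 16387) (Pf.B 2 1 (Pf.W 59 257 [] [0,3] (Pf.cons (Pf.B 4 0 (Pf.C 15 16388) (Pf.C 14 32772)) (Pf.cons (Pf.B 4 0 (Pf.C 15 32772) (Pf.C 14 16388)) (Pf.cons (Pf.B 4 3 (Pf.C 15 33283) (Pf.C 0 16772)) (Pf.cons (Pf.B 4 3 (Pf.C 15 16899) (Pf.C 0 33156)) (Pf.cons (Pf.B 4 3 (Pf.C 31 65795) (Pf.C 0 16772)) (Pf.cons (Pf.B 4 3 (Pf.C 31 65667) (Pf.C 0 33156)) Pf.nil))))))) (Pf.C 2 130)))))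
 (Pq.cons (Pq.L [] 4 (Pf.C 3 384))
 (Pq.cons (Pq.L [] 4 (Pf.C 5 384))
 (Pq.cons (Pq.L [] 7 (Pf.B 3 2 (Pf.B 3 1 (Pf.B 2 1 (Pf.C 49 49282) (Pf.C 2 130)) (Pf.C 2 131)) (Pf.C 2 259)))
 (Pq.cons (Pq.L [] 6 (Pf.B 3 2 (Pf.C 37 49408) (Pf.C 4 259)))
 (Pq.cons (Pq.L [] 4 (Pf.C 3 384))
 Pq.nil))))))) (Pq.cons (Pq.L [] 3 (Pf.B 2 1 (Pf.C 37 32896) (Pf.C 4 130)))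
 (Pq.cons (Pq.L [] 2 (Pf.C 3 256))
 Pq.nil))))))) (Pq.cons (Pq.D 2 (Pq.cons (Pq.D 3 (Pq.cons (Pq.L [] 7 (Pf.B 3 2 (Pf.B 3 1 (Pf.C 16 16387) (Pf.B 2 1 (Pf.C 16 16386) (Pf.W 56 386 [] [0,1] (Pf.cons (Pf.B 4 1 (Pf.C 9 16898) (Pf.C 0 32900)) (Pf.cons (Pf.B 4 1 (Pf.C 9 16899) (Pf.C 0 49284)) (Pf.cons (Pf.B 4 1 (Pf.C 17 16899) (Pf.C 0 32900)) (Pf.cons (Pf.B 4 1 (Pf.C 17 16898) (Pf.C 0 49284)) (Pf.cons (Pf.B 4 1 (Pf.C 25 16899) (Pf.C 0 32900)) (Pf.cons (Pf.B 4 1 (Pf.C 25 16898) (Pf.C 0 49284)) (Pf.cons (Pf.B 4 1 (Pf.C 29 16899) (Pf.C 4 132)) (Pf.cons (Pf.B 4 1 (Pf.C 29 16898) (Pf.C 4 132)) (Pf.cons (Pf.B 4 0 (Pf.C 16 65539) (Pf.C 0 32772)) (Pf.cons (Pf.B 4 0 (Pf.C 16 65538) (Pf.C 0 49156)) (Pf.cons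 (Pf.B 4 1 (Pf.C 33 65667) (Pf.C 1 132)) (Pf.cons (Pf.B 4 1 (Pf.C 33 65666) (Pf.C 1 132)) Pf.nil))))))))))))))) (Pf.C 0 259)))
 (Pq.cons (Pq.L [] 4 (Pf.C 3 384))
 (Pq.cons (Pq.L [] 4 (Pf.C 5 384))
 (Pq.cons (Pq.L [] 5 (Pf.B 3 1 (Pf.C 37 16768) (Pf.C 4 131)))
 (Pq.cons (Pq.L [] 7 (Pf.B 3 2 (Pf.C 16 49154) (Pf.B 3 1 (Pf.B 2 1 (Pf.C 16 16386) (Pf.W 60 385 [] [0,2] (Pf.cons (Pf.B 4 0 (Pf.C 17 16388) (Pf.C 16 49156)) (Pf.cons (Pf.B 4 0 (Pf.C 17 49156) (Pf.C 16 16388)) (Pf.cons (Pf.B 4 2 (Pf.C 17 49666) (Pf.C 0 16644)) (Pf.cons (Pf.B 4 2 (Pf.C 17 16898) (Pf.C 0 49412)) (Pf.cons (Pf.B 4 2 (Pf.C 25 49666) (Pf.C 0 16644)) (Pf.cons (Pf.B 4 2 (Pf.C 25 16898) (Pf.C 0 49412)) Pf.nil)))))))) (Pf.C 1 131))))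
 (Pq.cons (Pq.L [] 4 (Pf.C 3 384))
 Pq.nil))))))) (Pq.cons (Pq.L [] 2 (Pf.C 3 256))
 (Pq.cons (Pq.L [] 2 (Pf.C 5 256))
 (Pq.cons (Pq.L [] 3 (Pf.B 2 1 (Pf.C 37 16640) (Pf.C 4 130)))
 (Pq.cons (Pq.D 3 (Pq.cons (Pq.L [] 7 (Pf.B 3 2 (Pf.C 16 32771) (Pf.B 3 1 (Pf.C 16 16387) (Pf.B 2 1 (Pf.W 60 257 [] [0,3] (Pf.cons (Pf.B 4 0 (Pf.C 17 16388) (Pf.C 16 32772)) (Pf.cons (Pf.B 4 0 (Pf.C 17 32772) (Pf.C 16 16388)) (Pf.cons (Pf.B 4 3 (Pf.C 17 33283) (Pf.C 0 16772)) (Pf.cons (Pf.B 4 3 (Pf.C 17 16899) (Pf.C 0 33156)) (Pf.cons (Pf.B 4 3 (Pf.C 25 33283) (Pf.C 0 16772)) (Pf.cons (Pf.B 4 3 (Pf.C 25 16899) (Pf.C 0 33156)) Pf.nil))))))) (Pf.C 1 130)))))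
 (Pq.cons (Pq.L [] 4 (Pf.C 3 384))
 (Pq.cons (Pq.L [] 4 (Pf.C 5 384))
 (Pq.cons (Pq.L [] 6 (Pf.B 3 2 (Pf.C 37 33152) (Pf.C 4 259)))
 (Pq.cons (Pq.L [] 7 (Pf.B 3 2 (Pf.B 3 1 (Pf.B 2 1 (Pf.C 46 49282) (Pf.C 1 130)) (Pf.C 1 131)) (Pf.C 1 259)))
 (Pq.cons (Pq.L [] 4 (Pf.C 3 384))
 Pq.nil))))))) (Pq.cons (Pq.L [] 2 (Pf.C 3 256))
 Pq.nil))))))) (Pq.cons (Pq.L [] 1 (Pf.C 3 128))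
 Pq.nil))))))) Pq.nil))
theorem b2_o1 : AllRef b2_T b2_G0 (List.take 2 (List.flatMap (splitP 0) (applyObl TD2 1 [7,8,9,10,11,12] [0,0,0,0,0,0] [(8,3072),(9,6144),(10,4352),(11,768),(12,1536)]))) :=
  chkPq_sound b2_o1c _ (by decide +kernel)
noncomputable def b2_o2c : Pq := (Pq.cons (Pq.D 1 (Pq.cons (Pq.D 2 (Pq.cons (Pq.D 3 (Pq.cons (Pq.L [] 7 (Pf.B 3 2 (Pf.B 3 1 (Pf.B 2 1 (Pf.C 44 0x604100) (Pf.C 0 130)) (Pf.C 0 131)) (Pf.C 0 259)))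
 (Pq.cons (Pq.L [] 4 (Pf.C 5 384))
 (Pq.cons (Pq.L [] 4 (Pf.C 2 384))
 (Pq.cons (Pq.L [] 4 (Pf.C 2 384))
 (Pq.cons (Pq.L [] 7 (Pf.B 3 2 (Pf.C 24 49154) (Pf.B 3 1 (Pf.C 24 49153) (Pf.B 2 1 (Pf.W 56 257 [] [0,3] (Pf.cons (Pf.B 4 3 (Pf.C 9 49665) (Pf.C 0 16772)) (Pf.cons (Pf.B 4 3 (Pf.C 9 49666) (Pf.C 0 33156)) (Pf.cons (Pf.B 4 3 (Pf.C 17 49666) (Pf.C 0 16772)) (Pf.cons (Pf.B 4 3 (Pf.C 17 49665) (Pf.C 0 33156)) (Pf.cons (Pf.B 4 3 (Pf.C 25 49666) (Pf.C 0 16772)) (Pf.cons (Pf.B 4 3 (Pf.C 25 49665) (Pf.C 0 33156)) (Pf.cons (Pf.B 4 3 (Pf.C 29 49666) (Pf.C 4 388)) (Pf.cons (Pf.B 4 3 (Pf.C 29 49665) (Pf.C 4 388)) (Pf.cons (Pf.B 4 0 (Pf.C 24 65538) (Pf.C 0 16388)) (Pf.cons (Pf.B 4 0 (Pf.C 24 65537) (Pf.C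 0 32772)) (Pf.cons (Pf.B 4 3 (Pf.C 33 65922) (Pf.C 1 388)) (Pf.cons (Pf.B 4 3 (Pf.C 33 65921) (Pf.C 1 388)) Pf.nil))))))))))))) (Pf.C 0 130)))))
 (Pq.cons (Pq.L [] 7 (Pf.B 3 2 (Pf.C 26 49154) (Pf.B 3 1 (Pf.C 26 49153) (Pf.B 2 1 (Pf.W 56 257 [] [0,3] (Pf.cons (Pf.B 4 3 (Pf.C 10 49665) (Pf.C 0 16772)) (Pf.cons (Pf.B 4 3 (Pf.C 10 49666) (Pf.C 0 33156)) (Pf.cons (Pf.B 4 3 (Pf.C 19 49666) (Pf.C 3 388)) (Pf.cons (Pf.B 4 3 (Pf.C 19 49665) (Pf.C 3 388)) (Pf.cons (Pf.B 4 3 (Pf.C 27 49666) (Pf.C 0 16772)) (Pf.cons (Pf.B 4 3 (Pf.C 27 49665) (Pf.C 0 33156)) (Pf.cons (Pf.B 4 3 (Pf.C 32 49666) (Pf.C 0 16772)) (Pf.cons (Pf.B 4 3 (Pf.C 32 49665) (Pf.C 0 33156)) (Pf.cons (Pf.B 4 3 (Pf.C 34 49666) (Pf.C 1 388))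 (Pf.cons (Pf.B 4 3 (Pf.C 34 49665) (Pf.C 1 388)) (Pf.cons (Pf.B 4 0 (Pf.C 26 65538) (Pf.C 0 16388)) (Pf.cons (Pf.B 4 0 (Pf.C 26 65537) (Pf.C 0 32772)) Pf.nil))))))))))))) (Pf.C 0 130)))))
 Pq.nil))))))) (Pq.cons (Pq.L [] 2 (Pf.C 5 256))
 (Pq.cons (Pq.L [] 2 (Pf.C 2 256))
 (Pq.cons (Pq.L [] 2 (Pf.C 2 256))
 (Pq.cons (Pq.D 3 (Pq.cons (Pq.L [] 7 (Pf.B 3 2 (Pf.C 24 32771) (Pf.B 3 1 (Pf.B 2 1 (Pf.C 24 32769) (Pf.W 56 385 [] [0,2] (Pf.cons (Pf.B 4 2 (Pf.C 9 33281) (Pf.C 0 16644)) (Pf.cons (Pf.B 4 2 (Pf.C 9 33283) (Pf.C 0 49412)) (Pf.cons (Pf.B 4 2 (Pf.C 17 33283) (Pf.C 0 16644)) (Pf.cons (Pf.B 4 2 (Pf.C 17 33281) (Pf.C 0 49412)) (Pf.cons (Pf.B 4 2 (Pf.C 25 33283) (Pf.C 0 16644)) (Pf.cons (Pf.B 4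 2 (Pf.C 25 33281) (Pf.C 0 49412)) (Pf.cons (Pf.B 4 2 (Pf.C 29 33283) (Pf.C 4 260)) (Pf.cons (Pf.B 4 2 (Pf.C 29 33281) (Pf.C 4 260)) (Pf.cons (Pf.B 4 0 (Pf.C 24 65539) (Pf.C 0 16388)) (Pf.cons (Pf.B 4 0 (Pf.C 24 65537) (Pf.C 0 49156)) (Pf.cons (Pf.B 4 2 (Pf.C 33 65795) (Pf.C 1 260)) (Pf.cons (Pf.B 4 2 (Pf.C 33 65793) (Pf.C 1 260)) Pf.nil)))))))))))))) (Pf.C 0 131))))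
 (Pq.cons (Pq.L [] 4 (Pf.C 5 384))
 (Pq.cons (Pq.L [] 4 (Pf.C 2 384))
 (Pq.cons (Pq.L [] 4 (Pf.C 2 384))
 (Pq.cons (Pq.L [] 7 (Pf.B 3 2 (Pf.B 3 1 (Pf.C 24 49153) (Pf.B 2 1 (Pf.C 24 32769) (Pf.W 60 386 [] [0,1] (Pf.cons (Pf.B 4 0 (Pf.C 25 32772) (Pf.C 24 49156)) (Pf.cons (Pf.B 4 0 (Pf.C 25 49156) (Pf.C 24 32772)) (Pf.cons (Pf.B 4 1 (Pf.C 17 49665) (Pf.C 0 32900)) (Pf.cons (Pf.B 4 1 (Pf.C 17 33281) (Pf.C 0 49284)) (Pf.cons (Pf.B 4 1 (Pf.C 25 49665) (Pf.C 0 32900)) (Pf.cons (Pf.B 4 1 (Pf.C 25 33281) (Pf.C 0 49284)) Pf.nil))))))))) (Pf.C 1 259)))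
 (Pq.cons (Pq.L [] 6 (Pf.B 3 2 (Pf.C 40 49408) (Pf.C 1 259)))
 Pq.nil))))))) (Pq.cons (Pq.D 3 (Pq.cons (Pq.L [] 7 (Pf.B 3 2 (Pf.C 26 32771) (Pf.B 3 1 (Pf.B 2 1 (Pf.C 26 32769) (Pf.W 56 385 [] [0,2] (Pf.cons (Pf.B 4 2 (Pf.C 10 33281) (Pf.C 0 16644)) (Pf.cons (Pf.B 4 2 (Pf.C 10 33283) (Pf.C 0 49412)) (Pf.cons (Pf.B 4 2 (Pf.C 19 33283) (Pf.C 3 260)) (Pf.cons (Pf.B 4 2 (Pf.C 19 33281) (Pf.C 3 260)) (Pf.cons (Pf.B 4 2 (Pf.C 27 33283) (Pf.C 0 16644)) (Pf.cons (Pf.B 4 2 (Pf.C 27 33281) (Pf.C 0 49412)) (Pf.cons (Pf.B 4 2 (Pf.C 32 33283) (Pf.C 0 16644)) (Pf.cons (Pf.B 4 2 (Pf.C 32 33281) (Pf.C 0 49412)) (Pf.cons (Pf.B 4 2 (Pf.C 34 33283) (Pf.C 1 260)) (Pf.cons (Pf.B 4 2 (Pf.C 34 33281) (Pf.C 1 260))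 (Pf.cons (Pf.B 4 0 (Pf.C 26 65539) (Pf.C 0 16388)) (Pf.cons (Pf.B 4 0 (Pf.C 26 65537) (Pf.C 0 49156)) Pf.nil)))))))))))))) (Pf.C 0 131))))
 (Pq.cons (Pq.L [] 4 (Pf.C 5 384))
 (Pq.cons (Pq.L [] 4 (Pf.C 2 384))
 (Pq.cons (Pq.L [] 4 (Pf.C 2 384))
 (Pq.cons (Pq.L [] 6 (Pf.B 3 2 (Pf.C 40 33152) (Pf.C 1 259)))
 (Pq.cons (Pq.L [] 7 (Pf.B 3 2 (Pf.B 3 1 (Pf.C 26 49153) (Pf.B 2 1 (Pf.C 26 32769) (Pf.W 61 386 [] [0,1] (Pf.cons (Pf.B 4 0 (Pf.C 27 32772) (Pf.C 26 49156)) (Pf.cons (Pf.B 4 0 (Pf.C 27 49156) (Pf.C 26 32772)) (Pf.cons (Pf.B 4 1 (Pf.C 27 49665) (Pf.C 0 32900)) (Pf.cons (Pf.B 4 1 (Pf.C 27 33281) (Pf.C 0 49284)) (Pf.cons (Pf.B 4 1 (Pf.C 32 49665) (Pf.C 0 32900)) (Pf.cons (Pf.B 4 1 (Pf.C 32 33281)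 (Pf.C 0 49284)) Pf.nil))))))))) (Pf.C 1 259)))
 Pq.nil))))))) Pq.nil))))))) (Pq.cons (Pq.L [] 1 (Pf.C 5 128))
 (Pq.cons (Pq.L [] 1 (Pf.C 2 128))
 (Pq.cons (Pq.L [] 1 (Pf.C 2 128))
 (Pq.cons (Pq.D 2 (Pq.cons (Pq.D 3 (Pq.cons (Pq.L [] 7 (Pf.B 3 2 (Pf.B 3 1 (Pf.C 24 16387) (Pf.B 2 1 (Pf.C 24 16386) (Pf.W 56 386 [] [0,1] (Pf.cons (Pf.B 4 1 (Pf.C 9 16898) (Pf.C 0 32900)) (Pf.cons (Pf.B 4 1 (Pf.C 9 16899) (Pf.C 0 49284)) (Pf.cons (Pf.B 4 1 (Pf.C 17 16899) (Pf.C 0 32900)) (Pf.cons (Pf.B 4 1 (Pf.C 17 16898) (Pf.C 0 49284)) (Pf.cons (Pf.B 4 1 (Pf.C 25 16899) (Pf.C 0 32900)) (Pf.cons (Pf.B 4 1 (Pf.C 25 16898) (Pf.C 0 49284)) (Pf.cons (Pf.B 4 1 (Pf.C 29 16899) (Pf.C 4 132)) (Pf.cons (Pf.B 4 1 (Pf.C 29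 16898) (Pf.C 4 132)) (Pf.cons (Pf.B 4 0 (Pf.C 24 65539) (Pf.C 0 32772)) (Pf.cons (Pf.B 4 0 (Pf.C 24 65538) (Pf.C 0 49156)) (Pf.cons (Pf.B 4 1 (Pf.C 33 65667) (Pf.C 1 132)) (Pf.cons (Pf.B 4 1 (Pf.C 33 65666) (Pf.C 1 132)) Pf.nil))))))))))))))) (Pf.C 0 259)))
 (Pq.cons (Pq.L [] 4 (Pf.C 5 384))
 (Pq.cons (Pq.L [] 4 (Pf.C 2 384))
 (Pq.cons (Pq.L [] 4 (Pf.C 2 384))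
 (Pq.cons (Pq.L [] 7 (Pf.B 3 2 (Pf.C 24 49154) (Pf.B 3 1 (Pf.B 2 1 (Pf.C 24 16386) (Pf.W 60 385 [] [0,2] (Pf.cons (Pf.B 4 0 (Pf.C 25 16388) (Pf.C 24 49156)) (Pf.cons (Pf.B 4 0 (Pf.C 25 49156) (Pf.C 24 16388)) (Pf.cons (Pf.B 4 2 (Pf.C 17 49666) (Pf.C 0 16644)) (Pf.cons (Pf.B 4 2 (Pf.C 17 16898) (Pf.C 0 49412)) (Pf.cons (Pf.B 4 2 (Pf.C 25 49666) (Pf.C 0 16644)) (Pf.cons (Pf.B 4 2 (Pf.C 25 16898) (Pf.C 0 49412)) Pf.nil)))))))) (Pf.C 1 131))))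
 (Pq.cons (Pq.L [] 5 (Pf.B 3 1 (Pf.C 40 49280) (Pf.C 1 131)))
 Pq.nil))))))) (Pq.cons (Pq.L [] 2 (Pf.C 5 256))
 (Pq.cons (Pq.L [] 2 (Pf.C 2 256))
 (Pq.cons (Pq.L [] 2 (Pf.C 2 256))
 (Pq.cons (Pq.D 3 (Pq.cons (Pq.L [] 7 (Pf.B 3 2 (Pf.C 24 32771) (Pf.B 3 1 (Pf.C 24 16387) (Pf.B 2 1 (Pf.W 60 257 [] [0,3] (Pf.cons (Pf.B 4 0 (Pf.C 25 16388) (Pf.C 24 32772)) (Pf.cons (Pf.B 4 0 (Pf.C 25 32772) (Pf.C 24 16388)) (Pf.cons (Pf.B 4 3 (Pf.C 17 33283) (Pf.C 0 16772)) (Pf.cons (Pf.B 4 3 (Pf.C 17 16899) (Pf.C 0 33156)) (Pf.cons (Pf.B 4 3 (Pf.C 25 33283) (Pf.C 0 16772)) (Pf.cons (Pf.B 4 3 (Pf.C 25 16899) (Pf.C 0 33156)) Pf.nil))))))) (Pf.C 1 130)))))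
 (Pq.cons (Pq.L [] 4 (Pf.C 5 384))
 (Pq.cons (Pq.L [] 4 (Pf.C 2 384))
 (Pq.cons (Pq.L [] 4 (Pf.C 2 384))
 (Pq.cons (Pq.L [] 7 (Pf.B 3 2 (Pf.B 3 1 (Pf.B 2 1 (Pf.C 53 49282) (Pf.C 1 130)) (Pf.C 1 131)) (Pf.C 1 259)))
 (Pq.cons (Pq.L [] 6 (Pf.B 3 2 (Pf.C 40 49408) (Pf.C 1 259)))
 Pq.nil))))))) (Pq.cons (Pq.L [] 3 (Pf.B 2 1 (Pf.C 40 32896) (Pf.C 1 130)))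
 Pq.nil))))))) (Pq.cons (Pq.D 2 (Pq.cons (Pq.D 3 (Pq.cons (Pq.L [] 7 (Pf.B 3 2 (Pf.B 3 1 (Pf.C 26 16387) (Pf.B 2 1 (Pf.C 26 16386) (Pf.W 56 386 [] [0,1] (Pf.cons (Pf.B 4 1 (Pf.C 10 16898) (Pf.C 0 32900)) (Pf.cons (Pf.B 4 1 (Pf.C 10 16899) (Pf.C 0 49284)) (Pf.cons (Pf.B 4 1 (Pf.C 19 16899) (Pf.C 3 132)) (Pf.cons (Pf.B 4 1 (Pf.C 19 16898) (Pf.C 3 132)) (Pf.cons (Pf.B 4 1 (Pf.C 27 16899) (Pf.C 0 32900)) (Pf.cons (Pf.B 4 1 (Pf.C 27 16898) (Pf.C 0 49284)) (Pf.cons (Pf.B 4 1 (Pf.C 32 16899) (Pf.C 0 32900)) (Pf.cons (Pf.B 4 1 (Pf.C 32 16898) (Pf.C 0 49284)) (Pf.cons (Pf.B 4 1 (Pf.C 34 16899) (Pf.C 1 132)) (Pf.cons (Pf.B 4 1 (Pf.C 34 16898) (Pf.C 1 132)) (Pf.cons (Pf.B 4 0 (Pf.C 26 65539) (Pf.C 0 32772))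 (Pf.cons (Pf.B 4 0 (Pf.C 26 65538) (Pf.C 0 49156)) Pf.nil))))))))))))))) (Pf.C 0 259)))
 (Pq.cons (Pq.L [] 4 (Pf.C 5 384))
 (Pq.cons (Pq.L [] 4 (Pf.C 2 384))
 (Pq.cons (Pq.L [] 4 (Pf.C 2 384))
 (Pq.cons (Pq.L [] 5 (Pf.B 3 1 (Pf.C 40 16768) (Pf.C 1 131)))
 (Pq.cons (Pq.L [] 7 (Pf.B 3 2 (Pf.C 26 49154) (Pf.B 3 1 (Pf.B 2 1 (Pf.C 26 16386) (Pf.W 61 385 [] [0,2] (Pf.cons (Pf.B 4 0 (Pf.C 27 16388) (Pf.C 26 49156)) (Pf.cons (Pf.B 4 0 (Pf.C 27 49156) (Pf.C 26 16388)) (Pf.cons (Pf.B 4 2 (Pf.C 27 49666) (Pf.C 0 16644)) (Pf.cons (Pf.B 4 2 (Pf.C 27 16898) (Pf.C 0 49412)) (Pf.cons (Pf.B 4 2 (Pf.C 32 49666) (Pf.C 0 16644)) (Pf.cons (Pf.B 4 2 (Pf.C 32 16898) (Pf.C 0 49412)) Pf.nil)))))))) (Pf.C 1 131))))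
 Pq.nil))))))) (Pq.cons (Pq.L [] 2 (Pf.C 5 256))
 (Pq.cons (Pq.L [] 2 (Pf.C 2 256))
 (Pq.cons (Pq.L [] 2 (Pf.C 2 256))
 (Pq.cons (Pq.L [] 3 (Pf.B 2 1 (Pf.C 40 16640) (Pf.C 1 130)))
 (Pq.cons (Pq.D 3 (Pq.cons (Pq.L [] 7 (Pf.B 3 2 (Pf.C 26 32771) (Pf.B 3 1 (Pf.C 26 16387) (Pf.B 2 1 (Pf.W 61 257 [] [0,3] (Pf.cons (Pf.B 4 0 (Pf.C 27 16388) (Pf.C 26 32772)) (Pf.cons (Pf.B 4 0 (Pf.C 27 32772) (Pf.C 26 16388)) (Pf.cons (Pf.B 4 3 (Pf.C 27 33283) (Pf.C 0 16772)) (Pf.cons (Pf.B 4 3 (Pf.C 27 16899) (Pf.C 0 33156)) (Pf.cons (Pf.B 4 3 (Pf.C 32 33283) (Pf.C 0 16772)) (Pf.cons (Pf.B 4 3 (Pf.C 32 16899) (Pf.C 0 33156)) Pf.nil))))))) (Pf.C 1 130)))))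
 (Pq.cons (Pq.L [] 4 (Pf.C 5 384))
 (Pq.cons (Pq.L [] 4 (Pf.C 2 384))
 (Pq.cons (Pq.L [] 4 (Pf.C 2 384))
 (Pq.cons (Pq.L [] 6 (Pf.B 3 2 (Pf.C 40 33152) (Pf.C 1 259)))
 (Pq.cons (Pq.L [] 7 (Pf.B 3 2 (Pf.B 3 1 (Pf.B 2 1 (Pf.C 51 49282) (Pf.C 1 130)) (Pf.C 1 131)) (Pf.C 1 259)))
 Pq.nil))))))) Pq.nil))))))) Pq.nil))))))) (Pq.cons (Pq.D 1 (Pq.cons (Pq.D 2 (Pq.cons (Pq.D 3 (Pq.cons (Pq.L [] 7 (Pf.B 3 2 (Pf.B 3 1 (Pf.B 2 1 (Pf.C 42 0x604100) (Pf.C 0 130)) (Pf.C 0 131)) (Pf.C 0 259)))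
 (Pq.cons (Pq.L [] 7 (Pf.B 3 2 (Pf.C 15 386) (Pf.B 3 1 (Pf.C 15 385) (Pf.B 2 1 (Pf.W 56 257 [] [0,3] (Pf.cons (Pf.B 4 3 (Pf.C 6 49665) (Pf.C 0 16772)) (Pf.cons (Pf.B 4 3 (Pf.C 6 49666) (Pf.C 0 33156)) (Pf.cons (Pf.B 4 0 (Pf.C 15 514) (Pf.C 0 16388)) (Pf.cons (Pf.B 4 0 (Pf.C 15 513) (Pf.C 0 32772)) (Pf.cons (Pf.B 4 3 (Pf.C 11 65922) (Pf.C 5 388)) (Pf.cons (Pf.B 4 3 (Pf.C 11 65921) (Pf.C 5 388)) (Pf.cons (Pf.B 4 3 (Pf.C 14 65922) (Pf.C 0 16772)) (Pf.cons (Pf.B 4 3 (Pf.C 14 65921) (Pf.C 0 33156)) (Pf.cons (Pf.B 4 3 (Pf.C 16 65922) (Pf.C 0 16772)) (Pf.cons (Pf.B 4 3 (Pf.C 16 65921) (Pf.C 0 33156)) (Pf.cons (Pf.B 4 3 (Pf.C 18 65922) (Pf.C 3 388)) (Pf.cons (Pf.B 4 3 (Pf.C 18 65921) (Pf.C 3 388))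 Pf.nil))))))))))))) (Pf.C 0 130)))))
 (Pq.cons (Pq.L [] 4 (Pf.C 2 384))
 (Pq.cons (Pq.L [] 4 (Pf.C 2 384))
 (Pq.cons (Pq.L [] 4 (Pf.C 4 384))
 (Pq.cons (Pq.L [] 7 (Pf.B 3 2 (Pf.C 31 49154) (Pf.B 3 1 (Pf.C 31 49153) (Pf.B 2 1 (Pf.W 56 257 [] [0,3] (Pf.cons (Pf.B 4 3 (Pf.C 10 49665) (Pf.C 0 16772)) (Pf.cons (Pf.B 4 3 (Pf.C 10 49666) (Pf.C 0 33156)) (Pf.cons (Pf.B 4 3 (Pf.C 19 49666) (Pf.C 3 388)) (Pf.cons (Pf.B 4 3 (Pf.C 19 49665) (Pf.C 3 388)) (Pf.cons (Pf.B 4 3 (Pf.C 27 49666) (Pf.C 0 16772)) (Pf.cons (Pf.B 4 3 (Pf.C 27 49665) (Pf.C 0 33156)) (Pf.cons (Pf.B 4 3 (Pf.C 32 49666) (Pf.C 0 16772)) (Pf.cons (Pf.B 4 3 (Pf.C 32 49665) (Pf.C 0 33156)) (Pf.cons (Pf.B 4 3 (Pf.C 34 49666) (Pf.C 1 388))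 (Pf.cons (Pf.B 4 3 (Pf.C 34 49665) (Pf.C 1 388)) (Pf.cons (Pf.B 4 0 (Pf.C 31 65538) (Pf.C 0 16388)) (Pf.cons (Pf.B 4 0 (Pf.C 31 65537) (Pf.C 0 32772)) Pf.nil))))))))))))) (Pf.C 0 130)))))
 Pq.nil))))))) (Pq.cons (Pq.D 3 (Pq.cons (Pq.L [] 7 (Pf.B 3 2 (Pf.C 15 259) (Pf.B 3 1 (Pf.B 2 1 (Pf.C 15 257) (Pf.W 56 385 [] [0,2] (Pf.cons (Pf.B 4 2 (Pf.C 6 33281) (Pf.C 0 16644)) (Pf.cons (Pf.B 4 2 (Pf.C 6 33283) (Pf.C 0 49412)) (Pf.cons (Pf.B 4 0 (Pf.C 15 515) (Pf.C 0 16388)) (Pf.cons (Pf.B 4 0 (Pf.C 15 513) (Pf.C 0 49156)) (Pf.cons (Pf.B 4 2 (Pf.C 11 65795) (Pf.C 5 260)) (Pf.cons (Pf.B 4 2 (Pf.C 11 65793) (Pf.C 5 260)) (Pf.cons (Pf.B 4 2 (Pf.C 14 65795) (Pf.C 0 16644)) (Pf.cons (Pf.B 4 2 (Pf.C 14 65793)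 (Pf.C 0 49412)) (Pf.cons (Pf.B 4 2 (Pf.C 16 65795) (Pf.C 0 16644)) (Pf.cons (Pf.B 4 2 (Pf.C 16 65793) (Pf.C 0 49412)) (Pf.cons (Pf.B 4 2 (Pf.C 18 65795) (Pf.C 3 260)) (Pf.cons (Pf.B 4 2 (Pf.C 18 65793) (Pf.C 3 260)) Pf.nil)))))))))))))) (Pf.C 0 131))))
 (Pq.cons (Pq.L [] 7 (Pf.B 3 2 (Pf.B 3 1 (Pf.C 15 385) (Pf.B 2 1 (Pf.C 15 257) (Pf.W 57 386 [] [0,1] (Pf.cons (Pf.B 4 0 (Pf.C 14 260) (Pf.C 15 388)) (Pf.cons (Pf.B 4 0 (Pf.C 14 388) (Pf.C 15 260)) (Pf.cons (Pf.B 4 1 (Pf.C 14 65921) (Pf.C 0 32900)) (Pf.cons (Pf.B 4 1 (Pf.C 14 65793) (Pf.C 0 49284)) (Pf.cons (Pf.B 4 1 (Pf.C 16 65921) (Pf.C 0 32900)) (Pf.cons (Pf.B 4 1 (Pf.C 16 65793) (Pf.C 0 49284)) Pf.nil))))))))) (Pf.C 3 259)))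
 (Pq.cons (Pq.L [] 4 (Pf.C 2 384))
 (Pq.cons (Pq.L [] 4 (Pf.C 2 384))
 (Pq.cons (Pq.L [] 4 (Pf.C 4 384))
 (Pq.cons (Pq.L [] 6 (Pf.B 3 2 (Pf.C 38 49154) (Pf.C 3 259)))
 Pq.nil))))))) (Pq.cons (Pq.L [] 2 (Pf.C 2 256))
 (Pq.cons (Pq.L [] 2 (Pf.C 2 256))
 (Pq.cons (Pq.L [] 2 (Pf.C 4 256))
 (Pq.cons (Pq.D 3 (Pq.cons (Pq.L [] 7 (Pf.B 3 2 (Pf.C 31 32771) (Pf.B 3 1 (Pf.B 2 1 (Pf.C 31 32769) (Pf.W 56 385 [] [0,2] (Pf.cons (Pf.B 4 2 (Pf.C 10 33281) (Pf.C 0 16644)) (Pf.cons (Pf.B 4 2 (Pf.C 10 33283) (Pf.C 0 49412)) (Pf.cons (Pf.B 4 2 (Pf.C 19 33283) (Pf.C 3 260)) (Pf.cons (Pf.B 4 2 (Pf.C 19 33281) (Pf.C 3 260)) (Pf.cons (Pf.B 4 2 (Pf.C 27 33283) (Pf.C 0 16644)) (Pf.cons (Pf.B 4 2 (Pf.C 27 33281) (Pf.C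 0 49412)) (Pf.cons (Pf.B 4 2 (Pf.C 32 33283) (Pf.C 0 16644)) (Pf.cons (Pf.B 4 2 (Pf.C 32 33281) (Pf.C 0 49412)) (Pf.cons (Pf.B 4 2 (Pf.C 34 33283) (Pf.C 1 260)) (Pf.cons (Pf.B 4 2 (Pf.C 34 33281) (Pf.C 1 260)) (Pf.cons (Pf.B 4 0 (Pf.C 31 65539) (Pf.C 0 16388)) (Pf.cons (Pf.B 4 0 (Pf.C 31 65537) (Pf.C 0 49156)) Pf.nil)))))))))))))) (Pf.C 0 131))))
 (Pq.cons (Pq.L [] 6 (Pf.B 3 2 (Pf.C 38 32771) (Pf.C 3 259)))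
 (Pq.cons (Pq.L [] 4 (Pf.C 2 384))
 (Pq.cons (Pq.L [] 4 (Pf.C 2 384))
 (Pq.cons (Pq.L [] 4 (Pf.C 4 384))
 (Pq.cons (Pq.L [] 7 (Pf.B 3 2 (Pf.B 3 1 (Pf.C 31 49153) (Pf.B 2 1 (Pf.C 31 32769) (Pf.W 61 386 [] [0,1] (Pf.cons (Pf.B 4 0 (Pf.C 32 32772) (Pf.C 31 49156)) (Pf.cons (Pf.B 4 0 (Pf.C 32 49156) (Pf.C 31 32772)) (Pf.cons (Pf.B 4 1 (Pf.C 27 49665) (Pf.C 0 32900)) (Pf.cons (Pf.B 4 1 (Pf.C 27 33281) (Pf.C 0 49284)) (Pf.cons (Pf.B 4 1 (Pf.C 32 49665) (Pf.C 0 32900)) (Pf.cons (Pf.B 4 1 (Pf.C 32 33281) (Pf.C 0 49284)) Pf.nil))))))))) (Pf.C 1 259)))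
 Pq.nil))))))) Pq.nil))))))) (Pq.cons (Pq.D 2 (Pq.cons (Pq.D 3 (Pq.cons (Pq.L [] 7 (Pf.B 3 2 (Pf.B 3 1 (Pf.C 15 131) (Pf.B 2 1 (Pf.C 15 130) (Pf.W 56 386 [] [0,1] (Pf.cons (Pf.B 4 1 (Pf.C 6 16898) (Pf.C 0 32900)) (Pf.cons (Pf.B 4 1 (Pf.C 6 16899) (Pf.C 0 49284)) (Pf.cons (Pf.B 4 0 (Pf.C 15 515) (Pf.C 0 32772)) (Pf.cons (Pf.B 4 0 (Pf.C 15 514) (Pf.C 0 49156)) (Pf.cons (Pf.B 4 1 (Pf.C 11 65667) (Pf.C 5 132)) (Pf.cons (Pf.B 4 1 (Pf.C 11 65666) (Pf.C 5 132)) (Pf.cons (Pf.B 4 1 (Pf.C 14 65667) (Pf.C 0 32900)) (Pf.cons (Pf.B 4 1 (Pf.C 14 65666) (Pf.C 0 49284)) (Pf.cons (Pf.B 4 1 (Pf.C 16 65667) (Pf.C 0 32900)) (Pf.cons (Pf.B 4 1 (Pf.C 16 65666) (Pf.C 0 49284)) (Pf.cons (Pf.B 4 1 (Pf.C 18 65667) (Pf.C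 3 132)) (Pf.cons (Pf.B 4 1 (Pf.C 18 65666) (Pf.C 3 132)) Pf.nil))))))))))))))) (Pf.C 0 259)))
 (Pq.cons (Pq.L [] 7 (Pf.B 3 2 (Pf.C 15 386) (Pf.B 3 1 (Pf.B 2 1 (Pf.C 15 130) (Pf.W 57 385 [] [0,2] (Pf.cons (Pf.B 4 0 (Pf.C 14 132) (Pf.C 15 388)) (Pf.cons (Pf.B 4 0 (Pf.C 14 388) (Pf.C 15 132)) (Pf.cons (Pf.B 4 2 (Pf.C 14 65922) (Pf.C 0 16644)) (Pf.cons (Pf.B 4 2 (Pf.C 14 65666) (Pf.C 0 49412)) (Pf.cons (Pf.B 4 2 (Pf.C 16 65922) (Pf.C 0 16644)) (Pf.cons (Pf.B 4 2 (Pf.C 16 65666) (Pf.C 0 49412)) Pf.nil)))))))) (Pf.C 3 131))))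
 (Pq.cons (Pq.L [] 4 (Pf.C 2 384))
 (Pq.cons (Pq.L [] 4 (Pf.C 2 384))
 (Pq.cons (Pq.L [] 4 (Pf.C 4 384))
 (Pq.cons (Pq.L [] 5 (Pf.B 3 1 (Pf.C 38 49153) (Pf.C 3 131)))
 Pq.nil))))))) (Pq.cons (Pq.D 3 (Pq.cons (Pq.L [] 7 (Pf.B 3 2 (Pf.C 15 259) (Pf.B 3 1 (Pf.C 15 131) (Pf.B 2 1 (Pf.W 57 257 [] [0,3] (Pf.cons (Pf.B 4 0 (Pf.C 14 132) (Pf.C 15 260)) (Pf.cons (Pf.B 4 0 (Pf.C 14 260) (Pf.C 15 132)) (Pf.cons (Pf.B 4 3 (Pf.C 14 65795) (Pf.C 0 16772)) (Pf.cons (Pf.B 4 3 (Pf.C 14 65667) (Pf.C 0 33156)) (Pf.cons (Pf.B 4 3 (Pf.C 16 65795) (Pf.C 0 16772)) (Pf.cons (Pf.B 4 3 (Pf.C 16 65667) (Pf.C 0 33156)) Pf.nil))))))) (Pf.C 3 130)))))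
 (Pq.cons (Pq.L [] 7 (Pf.B 3 2 (Pf.B 3 1 (Pf.B 2 1 (Pf.C 54 49282) (Pf.C 3 130)) (Pf.C 3 131)) (Pf.C 3 259)))
 (Pq.cons (Pq.L [] 4 (Pf.C 2 384))
 (Pq.cons (Pq.L [] 4 (Pf.C 2 384))
 (Pq.cons (Pq.L [] 4 (Pf.C 4 384))
 (Pq.cons (Pq.L [] 6 (Pf.B 3 2 (Pf.C 38 49154) (Pf.C 3 259)))
 Pq.nil))))))) (Pq.cons (Pq.L [] 2 (Pf.C 2 256))
 (Pq.cons (Pq.L [] 2 (Pf.C 2 256))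
 (Pq.cons (Pq.L [] 2 (Pf.C 4 256))
 (Pq.cons (Pq.L [] 3 (Pf.B 2 1 (Pf.C 38 32769) (Pf.C 3 130)))
 Pq.nil))))))) (Pq.cons (Pq.L [] 1 (Pf.C 2 128))
 (Pq.cons (Pq.L [] 1 (Pf.C 2 128))
 (Pq.cons (Pq.L [] 1 (Pf.C 4 128))
 (Pq.cons (Pq.D 2 (Pq.cons (Pq.D 3 (Pq.cons (Pq.L [] 7 (Pf.B 3 2 (Pf.B 3 1 (Pf.C 31 16387) (Pf.B 2 1 (Pf.C 31 16386) (Pf.W 56 386 [] [0,1] (Pf.cons (Pf.B 4 1 (Pf.C 10 16898) (Pf.C 0 32900)) (Pf.cons (Pf.B 4 1 (Pf.C 10 16899) (Pf.C 0 49284)) (Pf.cons (Pf.B 4 1 (Pf.C 19 16899) (Pf.C 3 132)) (Pf.cons (Pf.B 4 1 (Pf.C 19 16898) (Pf.C 3 132)) (Pf.cons (Pf.B 4 1 (Pf.C 27 16899) (Pf.C 0 32900)) (Pf.cons (Pf.B 4 1 (Pf.C 27 16898) (Pf.C 0 49284)) (Pf.cons (Pf.B 4 1 (Pf.C 32 16899) (Pf.C 0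 32900)) (Pf.cons (Pf.B 4 1 (Pf.C 32 16898) (Pf.C 0 49284)) (Pf.cons (Pf.B 4 1 (Pf.C 34 16899) (Pf.C 1 132)) (Pf.cons (Pf.B 4 1 (Pf.C 34 16898) (Pf.C 1 132)) (Pf.cons (Pf.B 4 0 (Pf.C 31 65539) (Pf.C 0 32772)) (Pf.cons (Pf.B 4 0 (Pf.C 31 65538) (Pf.C 0 49156)) Pf.nil))))))))))))))) (Pf.C 0 259)))
 (Pq.cons (Pq.L [] 5 (Pf.B 3 1 (Pf.C 38 16387) (Pf.C 3 131)))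
 (Pq.cons (Pq.L [] 4 (Pf.C 2 384))
 (Pq.cons (Pq.L [] 4 (Pf.C 2 384))
 (Pq.cons (Pq.L [] 4 (Pf.C 4 384))
 (Pq.cons (Pq.L [] 7 (Pf.B 3 2 (Pf.C 31 49154) (Pf.B 3 1 (Pf.B 2 1 (Pf.C 31 16386) (Pf.W 61 385 [] [0,2] (Pf.cons (Pf.B 4 0 (Pf.C 32 16388) (Pf.C 31 49156)) (Pf.cons (Pf.B 4 0 (Pf.C 32 49156) (Pf.C 31 16388)) (Pf.cons (Pf.B 4 2 (Pf.C 27 49666) (Pf.C 0 16644)) (Pf.cons (Pf.B 4 2 (Pf.C 27 16898) (Pf.C 0 49412)) (Pf.cons (Pf.B 4 2 (Pf.C 32 49666) (Pf.C 0 16644)) (Pf.cons (Pf.B 4 2 (Pf.C 32 16898) (Pf.C 0 49412)) Pf.nil)))))))) (Pf.C 1 131))))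
 Pq.nil))))))) (Pq.cons (Pq.L [] 3 (Pf.B 2 1 (Pf.C 38 16386) (Pf.C 3 130)))
 (Pq.cons (Pq.L [] 2 (Pf.C 2 256))
 (Pq.cons (Pq.L [] 2 (Pf.C 2 256))
 (Pq.cons (Pq.L [] 2 (Pf.C 4 256))
 (Pq.cons (Pq.D 3 (Pq.cons (Pq.L [] 7 (Pf.B 3 2 (Pf.C 31 32771) (Pf.B 3 1 (Pf.C 31 16387) (Pf.B 2 1 (Pf.W 61 257 [] [0,3] (Pf.cons (Pf.B 4 0 (Pf.C 32 16388) (Pf.C 31 32772)) (Pf.cons (Pf.B 4 0 (Pf.C 32 32772) (Pf.C 31 16388)) (Pf.cons (Pf.B 4 3 (Pf.C 27 33283) (Pf.C 0 16772)) (Pf.cons (Pf.B 4 3 (Pf.C 27 16899) (Pf.C 0 33156)) (Pf.cons (Pf.B 4 3 (Pf.C 32 33283) (Pf.C 0 16772)) (Pf.cons (Pf.B 4 3 (Pf.C 32 16899) (Pf.C 0 33156)) Pf.nil))))))) (Pf.C 1 130)))))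
 (Pq.cons (Pq.L [] 6 (Pf.B 3 2 (Pf.C 38 32771) (Pf.C 3 259)))
 (Pq.cons (Pq.L [] 4 (Pf.C 2 384))
 (Pq.cons (Pq.L [] 4 (Pf.C 2 384))
 (Pq.cons (Pq.L [] 4 (Pf.C 4 384))
 (Pq.cons (Pq.L [] 7 (Pf.B 3 2 (Pf.B 3 1 (Pf.B 2 1 (Pf.C 47 49282) (Pf.C 1 130)) (Pf.C 1 131)) (Pf.C 1 259)))
 Pq.nil))))))) Pq.nil))))))) Pq.nil))))))) Pq.nil))
theorem b2_o2 : AllRef b2_T b2_G0 (List.take 2 (List.drop 2 (List.flatMap (splitP 0) (applyObl TD2 1 [7,8,9,10,11,12] [0,0,0,0,0,0] [(8,3072),(9,6144),(10,4352),(11,768),(12,1536)])))) :=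
  chkPq_sound b2_o2c _ (by decide +kernel)
noncomputable def b2_o3c : Pq := (Pq.cons (Pq.D 1 (Pq.cons (Pq.D 2 (Pq.cons (Pq.D 3 (Pq.cons (Pq.L [] 7 (Pf.B 3 2 (Pf.B 3 1 (Pf.B 2 1 (Pf.C 43 0x604100) (Pf.C 0 130)) (Pf.C 0 131)) (Pf.C 0 259)))
 (Pq.cons (Pq.L [] 7 (Pf.B 3 2 (Pf.C 17 386) (Pf.B 3 1 (Pf.C 17 385) (Pf.B 2 1 (Pf.W 56 257 [] [0,3] (Pf.cons (Pf.B 4 3 (Pf.C 6 49665) (Pf.C 0 16772)) (Pf.cons (Pf.B 4 3 (Pf.C 6 49666) (Pf.C 0 33156)) (Pf.cons (Pf.B 4 0 (Pf.C 17 514) (Pf.C 0 16388)) (Pf.cons (Pf.B 4 0 (Pf.C 17 513) (Pf.C 0 32772)) (Pf.cons (Pf.B 4 3 (Pf.C 11 65922) (Pf.C 5 388)) (Pf.cons (Pf.B 4 3 (Pf.C 11 65921) (Pf.C 5 388)) (Pf.cons (Pf.B 4 3 (Pf.C 14 65922) (Pf.C 0 16772)) (Pf.cons (Pf.B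 4 3 (Pf.C 14 65921) (Pf.C 0 33156)) (Pf.cons (Pf.B 4 3 (Pf.C 16 65922) (Pf.C 0 16772)) (Pf.cons (Pf.B 4 3 (Pf.C 16 65921) (Pf.C 0 33156)) (Pf.cons (Pf.B 4 3 (Pf.C 18 65922) (Pf.C 3 388)) (Pf.cons (Pf.B 4 3 (Pf.C 18 65921) (Pf.C 3 388)) Pf.nil))))))))))))) (Pf.C 0 130)))))
 (Pq.cons (Pq.L [] 7 (Pf.B 3 2 (Pf.C 25 386) (Pf.B 3 1 (Pf.C 25 385) (Pf.B 2 1 (Pf.W 56 257 [] [0,3] (Pf.cons (Pf.B 4 3 (Pf.C 7 49665) (Pf.C 0 16772)) (Pf.cons (Pf.B 4 3 (Pf.C 7 49666) (Pf.C 0 33156)) (Pf.cons (Pf.B 4 3 (Pf.C 12 49666) (Pf.C 5 388)) (Pf.cons (Pf.B 4 3 (Pf.C 12 49665) (Pf.C 5 388)) (Pf.cons (Pf.B 4 0 (Pf.C 25 514) (Pf.C 0 16388)) (Pf.cons (Pf.B 4 0 (Pf.C 25 513) (Pf.C 0 32772)) (Pf.cons (Pf.B 4 3 (Pf.C 21 65922)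 (Pf.C 2 388)) (Pf.cons (Pf.B 4 3 (Pf.C 21 65921) (Pf.C 2 388)) (Pf.cons (Pf.B 4 3 (Pf.C 24 65922) (Pf.C 0 16772)) (Pf.cons (Pf.B 4 3 (Pf.C 24 65921) (Pf.C 0 33156)) (Pf.cons (Pf.B 4 3 (Pf.C 26 65922) (Pf.C 0 16772)) (Pf.cons (Pf.B 4 3 (Pf.C 26 65921) (Pf.C 0 33156)) Pf.nil))))))))))))) (Pf.C 0 130)))))
 (Pq.cons (Pq.L [] 4 (Pf.C 4 384))
 (Pq.cons (Pq.L [] 4 (Pf.C 1 384))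
 (Pq.cons (Pq.L [] 4 (Pf.C 1 384))
 Pq.nil))))))) (Pq.cons (Pq.D 3 (Pq.cons (Pq.L [] 7 (Pf.B 3 2 (Pf.C 17 259) (Pf.B 3 1 (Pf.B 2 1 (Pf.C 17 257) (Pf.W 56 385 [] [0,2] (Pf.cons (Pf.B 4 2 (Pf.C 6 33281) (Pf.C 0 16644)) (Pf.cons (Pf.B 4 2 (Pf.C 6 33283) (Pf.C 0 49412)) (Pf.cons (Pf.B 4 0 (Pf.C 17 515) (Pf.C 0 16388)) (Pf.cons (Pf.B 4 0 (Pf.C 17 513) (Pf.C 0 49156)) (Pf.cons (Pf.B 4 2 (Pf.C 11 65795) (Pf.C 5 260)) (Pf.cons (Pf.B 4 2 (Pf.C 11 65793) (Pf.C 5 260)) (Pf.cons (Pf.B 4 2 (Pf.C 14 65795) (Pf.C 0 16644)) (Pf.cons (Pf.B 4 2 (Pf.C 14 65793) (Pf.C 0 49412)) (Pf.cons (Pf.B 4 2 (Pf.C 16 65795) (Pf.C 0 16644)) (Pf.cons (Pf.B 4 2 (Pf.C 16 65793) (Pf.C 0 49412)) (Pf.cons (Pf.B 4 2 (Pf.C 18 65795)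 (Pf.C 3 260)) (Pf.cons (Pf.B 4 2 (Pf.C 18 65793) (Pf.C 3 260)) Pf.nil)))))))))))))) (Pf.C 0 131))))
 (Pq.cons (Pq.L [] 7 (Pf.B 3 2 (Pf.B 3 1 (Pf.C 17 385) (Pf.B 2 1 (Pf.C 17 257) (Pf.W 57 386 [] [0,1] (Pf.cons (Pf.B 4 0 (Pf.C 16 260) (Pf.C 17 388)) (Pf.cons (Pf.B 4 0 (Pf.C 16 388) (Pf.C 17 260)) (Pf.cons (Pf.B 4 1 (Pf.C 14 65921) (Pf.C 0 32900)) (Pf.cons (Pf.B 4 1 (Pf.C 14 65793) (Pf.C 0 49284)) (Pf.cons (Pf.B 4 1 (Pf.C 16 65921) (Pf.C 0 32900)) (Pf.cons (Pf.B 4 1 (Pf.C 16 65793) (Pf.C 0 49284)) Pf.nil))))))))) (Pf.C 3 259)))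
 (Pq.cons (Pq.L [] 6 (Pf.B 3 2 (Pf.C 36 386) (Pf.C 5 259)))
 (Pq.cons (Pq.L [] 4 (Pf.C 4 384))
 (Pq.cons (Pq.L [] 4 (Pf.C 1 384))
 (Pq.cons (Pq.L [] 4 (Pf.C 1 384))
 Pq.nil))))))) (Pq.cons (Pq.D 3 (Pq.cons (Pq.L [] 7 (Pf.B 3 2 (Pf.C 25 259) (Pf.B 3 1 (Pf.B 2 1 (Pf.C 25 257) (Pf.W 56 385 [] [0,2] (Pf.cons (Pf.B 4 2 (Pf.C 7 33281) (Pf.C 0 16644)) (Pf.cons (Pf.B 4 2 (Pf.C 7 33283) (Pf.C 0 49412)) (Pf.cons (Pf.B 4 2 (Pf.C 12 33283) (Pf.C 5 260)) (Pf.cons (Pf.B 4 2 (Pf.C 12 33281) (Pf.C 5 260)) (Pf.cons (Pf.B 4 0 (Pf.C 25 515) (Pf.C 0 16388)) (Pf.cons (Pf.B 4 0 (Pf.C 25 513) (Pf.C 0 49156)) (Pf.cons (Pf.B 4 2 (Pf.C 21 65795) (Pf.C 2 260)) (Pf.cons (Pf.B 4 2 (Pf.C 21 65793) (Pf.C 2 260)) (Pf.cons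 (Pf.B 4 2 (Pf.C 24 65795) (Pf.C 0 16644)) (Pf.cons (Pf.B 4 2 (Pf.C 24 65793) (Pf.C 0 49412)) (Pf.cons (Pf.B 4 2 (Pf.C 26 65795) (Pf.C 0 16644)) (Pf.cons (Pf.B 4 2 (Pf.C 26 65793) (Pf.C 0 49412)) Pf.nil)))))))))))))) (Pf.C 0 131))))
 (Pq.cons (Pq.L [] 6 (Pf.B 3 2 (Pf.C 36 259) (Pf.C 5 259)))
 (Pq.cons (Pq.L [] 7 (Pf.B 3 2 (Pf.B 3 1 (Pf.C 25 385) (Pf.B 2 1 (Pf.C 25 257) (Pf.W 58 386 [] [0,1] (Pf.cons (Pf.B 4 0 (Pf.C 24 260) (Pf.C 25 388)) (Pf.cons (Pf.B 4 0 (Pf.C 24 388) (Pf.C 25 260)) (Pf.cons (Pf.B 4 1 (Pf.C 24 65921) (Pf.C 0 32900)) (Pf.cons (Pf.B 4 1 (Pf.C 24 65793) (Pf.C 0 49284)) (Pf.cons (Pf.B 4 1 (Pf.C 26 65921) (Pf.C 0 32900)) (Pf.cons (Pf.B 4 1 (Pf.C 26 65793) (Pf.C 0 49284)) Pf.nil)))))))))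 (Pf.C 2 259)))
 (Pq.cons (Pq.L [] 4 (Pf.C 4 384))
 (Pq.cons (Pq.L [] 4 (Pf.C 1 384))
 (Pq.cons (Pq.L [] 4 (Pf.C 1 384))
 Pq.nil))))))) (Pq.cons (Pq.L [] 2 (Pf.C 4 256))
 (Pq.cons (Pq.L [] 2 (Pf.C 1 256))
 (Pq.cons (Pq.L [] 2 (Pf.C 1 256))
 Pq.nil))))))) (Pq.cons (Pq.D 2 (Pq.cons (Pq.D 3 (Pq.cons (Pq.L [] 7 (Pf.B 3 2 (Pf.B 3 1 (Pf.C 17 131) (Pf.B 2 1 (Pf.C 17 130) (Pf.W 56 386 [] [0,1] (Pf.cons (Pf.B 4 1 (Pf.C 6 16898) (Pf.C 0 32900)) (Pf.cons (Pf.B 4 1 (Pf.C 6 16899) (Pf.C 0 49284)) (Pf.cons (Pf.B 4 0 (Pf.C 17 515) (Pf.C 0 32772)) (Pf.cons (Pf.B 4 0 (Pf.C 17 514) (Pf.C 0 49156)) (Pf.cons (Pf.B 4 1 (Pf.C 11 65667) (Pf.C 5 132)) (Pf.cons (Pf.B 4 1 (Pf.C 11 65666) (Pf.C 5 132)) (Pf.cons (Pf.B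 4 1 (Pf.C 14 65667) (Pf.C 0 32900)) (Pf.cons (Pf.B 4 1 (Pf.C 14 65666) (Pf.C 0 49284)) (Pf.cons (Pf.B 4 1 (Pf.C 16 65667) (Pf.C 0 32900)) (Pf.cons (Pf.B 4 1 (Pf.C 16 65666) (Pf.C 0 49284)) (Pf.cons (Pf.B 4 1 (Pf.C 18 65667) (Pf.C 3 132)) (Pf.cons (Pf.B 4 1 (Pf.C 18 65666) (Pf.C 3 132)) Pf.nil))))))))))))))) (Pf.C 0 259)))
 (Pq.cons (Pq.L [] 7 (Pf.B 3 2 (Pf.C 17 386) (Pf.B 3 1 (Pf.B 2 1 (Pf.C 17 130) (Pf.W 57 385 [] [0,2] (Pf.cons (Pf.B 4 0 (Pf.C 16 132) (Pf.C 17 388)) (Pf.cons (Pf.B 4 0 (Pf.C 16 388) (Pf.C 17 132)) (Pf.cons (Pf.B 4 2 (Pf.C 14 65922) (Pf.C 0 16644)) (Pf.cons (Pf.B 4 2 (Pf.C 14 65666) (Pf.C 0 49412)) (Pf.cons (Pf.B 4 2 (Pf.C 16 65922) (Pf.C 0 16644)) (Pf.cons (Pf.B 4 2 (Pf.C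 16 65666) (Pf.C 0 49412)) Pf.nil)))))))) (Pf.C 3 131))))
 (Pq.cons (Pq.L [] 5 (Pf.B 3 1 (Pf.C 36 385) (Pf.C 5 131)))
 (Pq.cons (Pq.L [] 4 (Pf.C 4 384))
 (Pq.cons (Pq.L [] 4 (Pf.C 1 384))
 (Pq.cons (Pq.L [] 4 (Pf.C 1 384))
 Pq.nil))))))) (Pq.cons (Pq.D 3 (Pq.cons (Pq.L [] 7 (Pf.B 3 2 (Pf.C 17 259) (Pf.B 3 1 (Pf.C 17 131) (Pf.B 2 1 (Pf.W 57 257 [] [0,3] (Pf.cons (Pf.B 4 0 (Pf.C 16 132) (Pf.C 17 260)) (Pf.cons (Pf.B 4 0 (Pf.C 16 260) (Pf.C 17 132)) (Pf.cons (Pf.B 4 3 (Pf.C 14 65795) (Pf.C 0 16772)) (Pf.cons (Pf.B 4 3 (Pf.C 14 65667) (Pf.C 0 33156)) (Pf.cons (Pf.B 4 3 (Pf.C 16 65795) (Pf.C 0 16772)) (Pf.cons (Pf.B 4 3 (Pf.C 16 65667) (Pf.C 0 33156)) Pf.nil))))))) (Pf.C 3 130)))))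
 (Pq.cons (Pq.L [] 7 (Pf.B 3 2 (Pf.B 3 1 (Pf.B 2 1 (Pf.C 50 49282) (Pf.C 3 130)) (Pf.C 3 131)) (Pf.C 3 259)))
 (Pq.cons (Pq.L [] 6 (Pf.B 3 2 (Pf.C 36 386) (Pf.C 5 259)))
 (Pq.cons (Pq.L [] 4 (Pf.C 4 384))
 (Pq.cons (Pq.L [] 4 (Pf.C 1 384))
 (Pq.cons (Pq.L [] 4 (Pf.C 1 384))
 Pq.nil))))))) (Pq.cons (Pq.L [] 3 (Pf.B 2 1 (Pf.C 36 257) (Pf.C 5 130)))
 (Pq.cons (Pq.L [] 2 (Pf.C 4 256))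
 (Pq.cons (Pq.L [] 2 (Pf.C 1 256))
 (Pq.cons (Pq.L [] 2 (Pf.C 1 256))
 Pq.nil))))))) (Pq.cons (Pq.D 2 (Pq.cons (Pq.D 3 (Pq.cons (Pq.L [] 7 (Pf.B 3 2 (Pf.B 3 1 (Pf.C 25 131) (Pf.B 2 1 (Pf.C 25 130) (Pf.W 56 386 [] [0,1] (Pf.cons (Pf.B 4 1 (Pf.C 7 16898) (Pf.C 0 32900)) (Pf.cons (Pf.B 4 1 (Pf.C 7 16899) (Pf.C 0 49284)) (Pf.cons (Pf.B 4 1 (Pf.C 12 16899) (Pf.C 5 132)) (Pf.cons (Pf.B 4 1 (Pf.C 12 16898) (Pf.C 5 132)) (Pf.cons (Pf.B 4 0 (Pf.C 25 515) (Pf.C 0 32772)) (Pf.cons (Pf.B 4 0 (Pf.C 25 514) (Pf.C 0 49156)) (Pf.cons (Pf.B 4 1 (Pf.C 21 65667) (Pf.C 2 132)) (Pf.cons (Pf.B 4 1 (Pf.C 21 65666) (Pf.C 2 132)) (Pf.cons (Pf.B 4 1 (Pf.C 24 65667) (Pf.C 0 32900)) (Pf.cons (Pf.B 4 1 (Pf.C 24 65666)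 (Pf.C 0 49284)) (Pf.cons (Pf.B 4 1 (Pf.C 26 65667) (Pf.C 0 32900)) (Pf.cons (Pf.B 4 1 (Pf.C 26 65666) (Pf.C 0 49284)) Pf.nil))))))))))))))) (Pf.C 0 259)))
 (Pq.cons (Pq.L [] 5 (Pf.B 3 1 (Pf.C 36 131) (Pf.C 5 131)))
 (Pq.cons (Pq.L [] 7 (Pf.B 3 2 (Pf.C 25 386) (Pf.B 3 1 (Pf.B 2 1 (Pf.C 25 130) (Pf.W 58 385 [] [0,2] (Pf.cons (Pf.B 4 0 (Pf.C 24 132) (Pf.C 25 388)) (Pf.cons (Pf.B 4 0 (Pf.C 24 388) (Pf.C 25 132)) (Pf.cons (Pf.B 4 2 (Pf.C 24 65922) (Pf.C 0 16644)) (Pf.cons (Pf.B 4 2 (Pf.C 24 65666) (Pf.C 0 49412)) (Pf.cons (Pf.B 4 2 (Pf.C 26 65922) (Pf.C 0 16644)) (Pf.cons (Pf.B 4 2 (Pf.C 26 65666) (Pf.C 0 49412)) Pf.nil)))))))) (Pf.C 2 131))))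
 (Pq.cons (Pq.L [] 4 (Pf.C 4 384))
 (Pq.cons (Pq.L [] 4 (Pf.C 1 384))
 (Pq.cons (Pq.L [] 4 (Pf.C 1 384))
 Pq.nil))))))) (Pq.cons (Pq.L [] 3 (Pf.B 2 1 (Pf.C 36 130) (Pf.C 5 130)))
 (Pq.cons (Pq.D 3 (Pq.cons (Pq.L [] 7 (Pf.B 3 2 (Pf.C 25 259) (Pf.B 3 1 (Pf.C 25 131) (Pf.B 2 1 (Pf.W 58 257 [] [0,3] (Pf.cons (Pf.B 4 0 (Pf.C 24 132) (Pf.C 25 260)) (Pf.cons (Pf.B 4 0 (Pf.C 24 260) (Pf.C 25 132)) (Pf.cons (Pf.B 4 3 (Pf.C 24 65795) (Pf.C 0 16772)) (Pf.cons (Pf.B 4 3 (Pf.C 24 65667) (Pf.C 0 33156)) (Pf.cons (Pf.B 4 3 (Pf.C 26 65795) (Pf.C 0 16772)) (Pf.cons (Pf.B 4 3 (Pf.C 26 65667) (Pf.C 0 33156)) Pf.nil))))))) (Pf.C 2 130)))))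
 (Pq.cons (Pq.L [] 6 (Pf.B 3 2 (Pf.C 36 259) (Pf.C 5 259)))
 (Pq.cons (Pq.L [] 7 (Pf.B 3 2 (Pf.B 3 1 (Pf.B 2 1 (Pf.C 48 49282) (Pf.C 2 130)) (Pf.C 2 131)) (Pf.C 2 259)))
 (Pq.cons (Pq.L [] 4 (Pf.C 4 384))
 (Pq.cons (Pq.L [] 4 (Pf.C 1 384))
 (Pq.cons (Pq.L [] 4 (Pf.C 1 384))
 Pq.nil))))))) (Pq.cons (Pq.L [] 2 (Pf.C 4 256))
 (Pq.cons (Pq.L [] 2 (Pf.C 1 256))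
 (Pq.cons (Pq.L [] 2 (Pf.C 1 256))
 Pq.nil))))))) (Pq.cons (Pq.L [] 1 (Pf.C 4 128))
 (Pq.cons (Pq.L [] 1 (Pf.C 1 128))
 (Pq.cons (Pq.L [] 1 (Pf.C 1 128))
 Pq.nil))))))) (Pq.cons (Pq.D 1 (Pq.cons (Pq.D 2 (Pq.cons (Pq.D 3 (Pq.cons (Pq.L [] 7 (Pf.B 3 2 (Pf.B 3 1 (Pf.B 2 1 (Pf.C 45 0x604100) (Pf.C 0 130)) (Pf.C 0 131)) (Pf.C 0 259)))
 (Pq.cons (Pq.L [] 4 (Pf.C 3 384))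
 (Pq.cons (Pq.L [] 7 (Pf.B 3 2 (Pf.C 27 386) (Pf.B 3 1 (Pf.C 27 385) (Pf.B 2 1 (Pf.W 56 257 [] [0,3] (Pf.cons (Pf.B 4 3 (Pf.C 7 49665) (Pf.C 0 16772)) (Pf.cons (Pf.B 4 3 (Pf.C 7 49666) (Pf.C 0 33156)) (Pf.cons (Pf.B 4 3 (Pf.C 12 49666) (Pf.C 5 388)) (Pf.cons (Pf.B 4 3 (Pf.C 12 49665) (Pf.C 5 388)) (Pf.cons (Pf.B 4 0 (Pf.C 27 514) (Pf.C 0 16388)) (Pf.cons (Pf.B 4 0 (Pf.C 27 513) (Pf.C 0 32772)) (Pf.cons (Pf.B 4 3 (Pf.C 21 65922) (Pf.C 2 388)) (Pf.cons (Pf.B 4 3 (Pf.C 21 65921) (Pf.C 2 388)) (Pf.cons (Pf.B 4 3 (Pf.C 24 65922) (Pf.C 0 16772)) (Pf.cons (Pf.B 4 3 (Pf.C 24 65921) (Pf.C 0 33156)) (Pf.cons (Pf.B 4 3 (Pf.C 26 65922) (Pf.C 0 16772)) (Pf.cons (Pf.B 4 3 (Pf.C 26 65921) (Pf.C 0 33156))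 Pf.nil))))))))))))) (Pf.C 0 130)))))
 (Pq.cons (Pq.L [] 7 (Pf.B 3 2 (Pf.C 32 386) (Pf.B 3 1 (Pf.C 32 385) (Pf.B 2 1 (Pf.W 56 257 [] [0,3] (Pf.cons (Pf.B 4 3 (Pf.C 8 49665) (Pf.C 0 16772)) (Pf.cons (Pf.B 4 3 (Pf.C 8 49666) (Pf.C 0 33156)) (Pf.cons (Pf.B 4 3 (Pf.C 15 49666) (Pf.C 0 16772)) (Pf.cons (Pf.B 4 3 (Pf.C 15 49665) (Pf.C 0 33156)) (Pf.cons (Pf.B 4 3 (Pf.C 22 49666) (Pf.C 2 388)) (Pf.cons (Pf.B 4 3 (Pf.C 22 49665) (Pf.C 2 388)) (Pf.cons (Pf.B 4 0 (Pf.C 32 514) (Pf.C 0 16388)) (Pf.cons (Pf.B 4 0 (Pf.C 32 513) (Pf.C 0 32772)) (Pf.cons (Pf.B 4 3 (Pf.C 28 65922) (Pf.C 4 388)) (Pf.cons (Pf.B 4 3 (Pf.C 28 65921) (Pf.C 4 388)) (Pf.cons (Pf.B 4 3 (Pf.C 31 65922) (Pf.C 0 16772)) (Pf.cons (Pf.B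 4 3 (Pf.C 31 65921) (Pf.C 0 33156)) Pf.nil))))))))))))) (Pf.C 0 130)))))
 (Pq.cons (Pq.L [] 4 (Pf.C 1 384))
 (Pq.cons (Pq.L [] 4 (Pf.C 1 384))
 Pq.nil))))))) (Pq.cons (Pq.L [] 2 (Pf.C 3 256))
 (Pq.cons (Pq.D 3 (Pq.cons (Pq.L [] 7 (Pf.B 3 2 (Pf.C 27 259) (Pf.B 3 1 (Pf.B 2 1 (Pf.C 27 257) (Pf.W 56 385 [] [0,2] (Pf.cons (Pf.B 4 2 (Pf.C 7 33281) (Pf.C 0 16644)) (Pf.cons (Pf.B 4 2 (Pf.C 7 33283) (Pf.C 0 49412)) (Pf.cons (Pf.B 4 2 (Pf.C 12 33283) (Pf.C 5 260)) (Pf.cons (Pf.B 4 2 (Pf.C 12 33281) (Pf.C 5 260)) (Pf.cons (Pf.B 4 0 (Pf.C 27 515) (Pf.C 0 16388)) (Pf.cons (Pf.B 4 0 (Pf.C 27 513) (Pf.C 0 49156)) (Pf.cons (Pf.B 4 2 (Pf.C 21 65795) (Pf.C 2 260)) (Pf.cons (Pf.B 4 2 (Pf.C 21 65793) (Pf.C 2 260))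 (Pf.cons (Pf.B 4 2 (Pf.C 24 65795) (Pf.C 0 16644)) (Pf.cons (Pf.B 4 2 (Pf.C 24 65793) (Pf.C 0 49412)) (Pf.cons (Pf.B 4 2 (Pf.C 26 65795) (Pf.C 0 16644)) (Pf.cons (Pf.B 4 2 (Pf.C 26 65793) (Pf.C 0 49412)) Pf.nil)))))))))))))) (Pf.C 0 131))))
 (Pq.cons (Pq.L [] 4 (Pf.C 3 384))
 (Pq.cons (Pq.L [] 7 (Pf.B 3 2 (Pf.B 3 1 (Pf.C 27 385) (Pf.B 2 1 (Pf.C 27 257) (Pf.W 58 386 [] [0,1] (Pf.cons (Pf.B 4 0 (Pf.C 26 260) (Pf.C 27 388)) (Pf.cons (Pf.B 4 0 (Pf.C 26 388) (Pf.C 27 260)) (Pf.cons (Pf.B 4 1 (Pf.C 24 65921) (Pf.C 0 32900)) (Pf.cons (Pf.B 4 1 (Pf.C 24 65793) (Pf.C 0 49284)) (Pf.cons (Pf.B 4 1 (Pf.C 26 65921) (Pf.C 0 32900)) (Pf.cons (Pf.B 4 1 (Pf.C 26 65793) (Pf.C 0 49284)) Pf.nil))))))))) (Pf.C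 2 259)))
 (Pq.cons (Pq.L [] 6 (Pf.B 3 2 (Pf.C 39 386) (Pf.C 2 259)))
 (Pq.cons (Pq.L [] 4 (Pf.C 1 384))
 (Pq.cons (Pq.L [] 4 (Pf.C 1 384))
 Pq.nil))))))) (Pq.cons (Pq.D 3 (Pq.cons (Pq.L [] 7 (Pf.B 3 2 (Pf.C 32 259) (Pf.B 3 1 (Pf.B 2 1 (Pf.C 32 257) (Pf.W 56 385 [] [0,2] (Pf.cons (Pf.B 4 2 (Pf.C 8 33281) (Pf.C 0 16644)) (Pf.cons (Pf.B 4 2 (Pf.C 8 33283) (Pf.C 0 49412)) (Pf.cons (Pf.B 4 2 (Pf.C 15 33283) (Pf.C 0 16644)) (Pf.cons (Pf.B 4 2 (Pf.C 15 33281) (Pf.C 0 49412)) (Pf.cons (Pf.B 4 2 (Pf.C 22 33283) (Pf.C 2 260)) (Pf.cons (Pf.B 4 2 (Pf.C 22 33281) (Pf.C 2 260)) (Pf.cons (Pf.B 4 0 (Pf.C 32 515) (Pf.C 0 16388)) (Pf.cons (Pf.B 4 0 (Pf.C 32 513) (Pf.C 0 49156)) (Pf.cons (Pf.B 4 2 (Pf.C 28 65795)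 (Pf.C 4 260)) (Pf.cons (Pf.B 4 2 (Pf.C 28 65793) (Pf.C 4 260)) (Pf.cons (Pf.B 4 2 (Pf.C 31 65795) (Pf.C 0 16644)) (Pf.cons (Pf.B 4 2 (Pf.C 31 65793) (Pf.C 0 49412)) Pf.nil)))))))))))))) (Pf.C 0 131))))
 (Pq.cons (Pq.L [] 4 (Pf.C 3 384))
 (Pq.cons (Pq.L [] 6 (Pf.B 3 2 (Pf.C 39 259) (Pf.C 2 259)))
 (Pq.cons (Pq.L [] 7 (Pf.B 3 2 (Pf.B 3 1 (Pf.C 32 385) (Pf.B 2 1 (Pf.C 32 257) (Pf.W 59 386 [] [0,1] (Pf.cons (Pf.B 4 0 (Pf.C 31 260) (Pf.C 32 388)) (Pf.cons (Pf.B 4 0 (Pf.C 31 388) (Pf.C 32 260)) (Pf.cons (Pf.B 4 1 (Pf.C 15 49665) (Pf.C 0 32900)) (Pf.cons (Pf.B 4 1 (Pf.C 15 33281) (Pf.C 0 49284)) (Pf.cons (Pf.B 4 1 (Pf.C 31 65921) (Pf.C 0 32900)) (Pf.cons (Pf.B 4 1 (Pf.C 31 65793) (Pf.C 0 49284)) Pf.nil)))))))))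 (Pf.C 2 259)))
 (Pq.cons (Pq.L [] 4 (Pf.C 1 384))
 (Pq.cons (Pq.L [] 4 (Pf.C 1 384))
 Pq.nil))))))) (Pq.cons (Pq.L [] 2 (Pf.C 1 256))
 (Pq.cons (Pq.L [] 2 (Pf.C 1 256))
 Pq.nil))))))) (Pq.cons (Pq.L [] 1 (Pf.C 3 128))
 (Pq.cons (Pq.D 2 (Pq.cons (Pq.D 3 (Pq.cons (Pq.L [] 7 (Pf.B 3 2 (Pf.B 3 1 (Pf.C 27 131) (Pf.B 2 1 (Pf.C 27 130) (Pf.W 56 386 [] [0,1] (Pf.cons (Pf.B 4 1 (Pf.C 7 16898) (Pf.C 0 32900)) (Pf.cons (Pf.B 4 1 (Pf.C 7 16899) (Pf.C 0 49284)) (Pf.cons (Pf.B 4 1 (Pf.C 12 16899) (Pf.C 5 132)) (Pf.cons (Pf.B 4 1 (Pf.C 12 16898) (Pf.C 5 132)) (Pf.cons (Pf.B 4 0 (Pf.C 27 515) (Pf.C 0 32772)) (Pf.cons (Pf.B 4 0 (Pf.C 27 514) (Pf.C 0 49156)) (Pf.cons (Pf.B 4 1 (Pf.C 21 65667) (Pf.C 2 132)) (Pf.cons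 (Pf.B 4 1 (Pf.C 21 65666) (Pf.C 2 132)) (Pf.cons (Pf.B 4 1 (Pf.C 24 65667) (Pf.C 0 32900)) (Pf.cons (Pf.B 4 1 (Pf.C 24 65666) (Pf.C 0 49284)) (Pf.cons (Pf.B 4 1 (Pf.C 26 65667) (Pf.C 0 32900)) (Pf.cons (Pf.B 4 1 (Pf.C 26 65666) (Pf.C 0 49284)) Pf.nil))))))))))))))) (Pf.C 0 259)))
 (Pq.cons (Pq.L [] 4 (Pf.C 3 384))
 (Pq.cons (Pq.L [] 7 (Pf.B 3 2 (Pf.C 27 386) (Pf.B 3 1 (Pf.B 2 1 (Pf.C 27 130) (Pf.W 58 385 [] [0,2] (Pf.cons (Pf.B 4 0 (Pf.C 26 132) (Pf.C 27 388)) (Pf.cons (Pf.B 4 0 (Pf.C 26 388) (Pf.C 27 132)) (Pf.cons (Pf.B 4 2 (Pf.C 24 65922) (Pf.C 0 16644)) (Pf.cons (Pf.B 4 2 (Pf.C 24 65666) (Pf.C 0 49412)) (Pf.cons (Pf.B 4 2 (Pf.C 26 65922) (Pf.C 0 16644)) (Pf.cons (Pf.B 4 2 (Pf.C 26 65666)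 (Pf.C 0 49412)) Pf.nil)))))))) (Pf.C 2 131))))
 (Pq.cons (Pq.L [] 5 (Pf.B 3 1 (Pf.C 39 385) (Pf.C 2 131)))
 (Pq.cons (Pq.L [] 4 (Pf.C 1 384))
 (Pq.cons (Pq.L [] 4 (Pf.C 1 384))
 Pq.nil))))))) (Pq.cons (Pq.L [] 2 (Pf.C 3 256))
 (Pq.cons (Pq.D 3 (Pq.cons (Pq.L [] 7 (Pf.B 3 2 (Pf.C 27 259) (Pf.B 3 1 (Pf.C 27 131) (Pf.B 2 1 (Pf.W 58 257 [] [0,3] (Pf.cons (Pf.B 4 0 (Pf.C 26 132) (Pf.C 27 260)) (Pf.cons (Pf.B 4 0 (Pf.C 26 260) (Pf.C 27 132)) (Pf.cons (Pf.B 4 3 (Pf.C 24 65795) (Pf.C 0 16772)) (Pf.cons (Pf.B 4 3 (Pf.C 24 65667) (Pf.C 0 33156)) (Pf.cons (Pf.B 4 3 (Pf.C 26 65795) (Pf.C 0 16772)) (Pf.cons (Pf.B 4 3 (Pf.C 26 65667) (Pf.C 0 33156)) Pf.nil))))))) (Pf.C 2 130)))))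
 (Pq.cons (Pq.L [] 4 (Pf.C 3 384))
 (Pq.cons (Pq.L [] 7 (Pf.B 3 2 (Pf.B 3 1 (Pf.B 2 1 (Pf.C 55 49282) (Pf.C 2 130)) (Pf.C 2 131)) (Pf.C 2 259)))
 (Pq.cons (Pq.L [] 6 (Pf.B 3 2 (Pf.C 39 386) (Pf.C 2 259)))
 (Pq.cons (Pq.L [] 4 (Pf.C 1 384))
 (Pq.cons (Pq.L [] 4 (Pf.C 1 384))
 Pq.nil))))))) (Pq.cons (Pq.L [] 3 (Pf.B 2 1 (Pf.C 39 257) (Pf.C 2 130)))
 (Pq.cons (Pq.L [] 2 (Pf.C 1 256))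
 (Pq.cons (Pq.L [] 2 (Pf.C 1 256))
 Pq.nil))))))) (Pq.cons (Pq.D 2 (Pq.cons (Pq.D 3 (Pq.cons (Pq.L [] 7 (Pf.B 3 2 (Pf.B 3 1 (Pf.C 32 131) (Pf.B 2 1 (Pf.C 32 130) (Pf.W 56 386 [] [0,1] (Pf.cons (Pf.B 4 1 (Pf.C 8 16898) (Pf.C 0 32900)) (Pf.cons (Pf.B 4 1 (Pf.C 8 16899) (Pf.C 0 49284)) (Pf.cons (Pf.B 4 1 (Pf.C 15 16899) (Pf.C 0 32900)) (Pf.cons (Pf.B 4 1 (Pf.C 15 16898) (Pf.C 0 49284)) (Pf.cons (Pf.B 4 1 (Pf.C 22 16899) (Pf.C 2 132)) (Pf.cons (Pf.B 4 1 (Pf.C 22 16898) (Pf.C 2 132)) (Pf.cons (Pf.B 4 0 (Pf.C 32 515) (Pf.C 0 32772)) (Pf.cons (Pf.B 4 0 (Pf.C 32 514) (Pf.C 0 49156)) (Pf.cons (Pf.B 4 1 (Pf.C 28 65667) (Pf.C 4 132)) (Pf.cons (Pf.B 4 1 (Pf.C 28 65666) (Pf.C 4 132)) (Pf.cons (Pf.B 4 1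 (Pf.C 31 65667) (Pf.C 0 32900)) (Pf.cons (Pf.B 4 1 (Pf.C 31 65666) (Pf.C 0 49284)) Pf.nil))))))))))))))) (Pf.C 0 259)))
 (Pq.cons (Pq.L [] 4 (Pf.C 3 384))
 (Pq.cons (Pq.L [] 5 (Pf.B 3 1 (Pf.C 39 131) (Pf.C 2 131)))
 (Pq.cons (Pq.L [] 7 (Pf.B 3 2 (Pf.C 32 386) (Pf.B 3 1 (Pf.B 2 1 (Pf.C 32 130) (Pf.W 59 385 [] [0,2] (Pf.cons (Pf.B 4 0 (Pf.C 31 132) (Pf.C 32 388)) (Pf.cons (Pf.B 4 0 (Pf.C 31 388) (Pf.C 32 132)) (Pf.cons (Pf.B 4 2 (Pf.C 15 49666) (Pf.C 0 16644)) (Pf.cons (Pf.B 4 2 (Pf.C 15 16898) (Pf.C 0 49412)) (Pf.cons (Pf.B 4 2 (Pf.C 31 65922) (Pf.C 0 16644)) (Pf.cons (Pf.B 4 2 (Pf.C 31 65666) (Pf.C 0 49412)) Pf.nil)))))))) (Pf.C 2 131))))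
 (Pq.cons (Pq.L [] 4 (Pf.C 1 384))
 (Pq.cons (Pq.L [] 4 (Pf.C 1 384))
 Pq.nil))))))) (Pq.cons (Pq.L [] 2 (Pf.C 3 256))
 (Pq.cons (Pq.L [] 3 (Pf.B 2 1 (Pf.C 39 130) (Pf.C 2 130)))
 (Pq.cons (Pq.D 3 (Pq.cons (Pq.L [] 7 (Pf.B 3 2 (Pf.C 32 259) (Pf.B 3 1 (Pf.C 32 131) (Pf.B 2 1 (Pf.W 59 257 [] [0,3] (Pf.cons (Pf.B 4 0 (Pf.C 31 132) (Pf.C 32 260)) (Pf.cons (Pf.B 4 0 (Pf.C 31 260) (Pf.C 32 132)) (Pf.cons (Pf.B 4 3 (Pf.C 15 33283) (Pf.C 0 16772)) (Pf.cons (Pf.B 4 3 (Pf.C 15 16899) (Pf.C 0 33156)) (Pf.cons (Pf.B 4 3 (Pf.C 31 65795) (Pf.C 0 16772)) (Pf.cons (Pf.B 4 3 (Pf.C 31 65667) (Pf.C 0 33156)) Pf.nil))))))) (Pf.C 2 130)))))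
 (Pq.cons (Pq.L [] 4 (Pf.C 3 384))
 (Pq.cons (Pq.L [] 6 (Pf.B 3 2 (Pf.C 39 259) (Pf.C 2 259)))
 (Pq.cons (Pq.L [] 7 (Pf.B 3 2 (Pf.B 3 1 (Pf.B 2 1 (Pf.C 52 49282) (Pf.C 2 130)) (Pf.C 2 131)) (Pf.C 2 259)))
 (Pq.cons (Pq.L [] 4 (Pf.C 1 384))
 (Pq.cons (Pq.L [] 4 (Pf.C 1 384))
 Pq.nil))))))) (Pq.cons (Pq.L [] 2 (Pf.C 1 256))
 (Pq.cons (Pq.L [] 2 (Pf.C 1 256))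
 Pq.nil))))))) (Pq.cons (Pq.L [] 1 (Pf.C 1 128))
 (Pq.cons (Pq.L [] 1 (Pf.C 1 128))
 Pq.nil))))))) Pq.nil))
theorem b2_o3 : AllRef b2_T b2_G0 (List.drop 2 (List.drop 2 (List.flatMap (splitP 0) (applyObl TD2 1 [7,8,9,10,11,12] [0,0,0,0,0,0] [(8,3072),(9,6144),(10,4352),(11,768),(12,1536)])))) :=
  chkPq_sound b2_o3c _ (by decide +kernel)

end Pool.Agent.Lib.MP_849b2e_co
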