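import Pool.Agent.Lib.MP_849b2e_co.AllR
import Pool.Agent.Lib.MP_849b2e_co.Tb2
import Pool.Agent.Lib.MP_849b2e_co.Ob2_0

set_option maxRecDepth 100000
set_option linter.all false
namespace Pool.Agent.Lib.MP_849b2e_co

theorem b2_n1  : Bd b2_T b2_G0 [7,8,9,10,11,12] :=
  r_apply lem_D2 [0,0,0,0,0,0] [(8,3072),(9,6144),(10,4352),(11,768),(12,1536)] (by decide +kernel) (allRef_expand 0 (allRef_split 2 b2_o1 (allRef_split 2 b2_o2 b2_o3)))
theorem b2_n0  : Bd b2_T (pureCtx 6 56) (pureAct 6) :=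
  show Bd _ _ [1,2,3,4,5,6] from r_twin 0 [63,25,49,35,7,13] ⟨7,[],[57,58,59,60,61,62],[]⟩ b2_G0 [7,8,9,10,11,12] (by decide +kernel) b2_o0 b2_n1
theorem lem_b2  : Lem b2_T 6 56 := ⟨by decide +kernel, b2_n0⟩

end Pool.Agent.Lib.MP_849b2e_co
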