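import Pool.Agent.Lib.MP_849b2e_co.Rules

set_option maxRecDepth 100000
set_option linter.all false
namespace Pool.Agent.Lib.MP_849b2e_co

noncomputable def b1_ty : Tr Ty := (Tr.br (Tr.br (Tr.br (Tr.br (Tr.leaf ⟨1,0,0,0,0⟩) (Tr.leaf ⟨323,12,0,0,0⟩))
 (Tr.br (Tr.leaf ⟨21,10,0,0,0⟩) (Tr.leaf ⟨4419,2060,0,0,0⟩))
)
 (Tr.br (Tr.br (Tr.leaf ⟨5,10,0,0,0⟩) (Tr.leaf ⟨1065,6,0,0,0⟩))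
 (Tr.leaf ⟨67,12,0,0,0⟩))
)
 (Tr.br (Tr.br (Tr.br (Tr.leaf ⟨3,12,0,0,0⟩) (Tr.leaf ⟨661,10,0,0,0⟩))
 (Tr.br (Tr.leaf ⟨41,6,0,0,0⟩) (Tr.leaf ⟨12611,2060,0,0,0⟩))
)
 (Tr.br (Tr.br (Tr.leaf ⟨9,6,0,0,0⟩) (Tr.leaf ⟨2371,4108,0,0,0⟩))
 (Tr.leaf ⟨149,10,0,0,0⟩))
)
)

noncomputable def b1_ev : Tr Ev := (Tr.leaf ⟨8,[11,12],0⟩)
noncomputable def b1_ax : Tr Ax := (Tr.br (Tr.br (Tr.br (Tr.br (Tr.leaf ⟨[1,1,1,1,1,1],[⟨0,1,true⟩,⟨0,2,true⟩,⟨0,3,true⟩,⟨0,4,false⟩,⟨0,5,false⟩,⟨1,2,false⟩,⟨1,3,false⟩,⟨1,4,false⟩,⟨1,5,false⟩,⟨2,3,false⟩,⟨2,4,false⟩,⟨2,5,false⟩,⟨3,4,false⟩,⟨3,5,false⟩,⟨4,5,true⟩],[],0⟩) (Tr.leaf ⟨[256,256],[⟨0,1,false⟩],[⟨9,[(0,true),(1,false)]⟩,⟨9,[(0,false),(1,true)]⟩],0⟩))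
 (Tr.leaf ⟨[2,4,4,8],[⟨0,1,true⟩,⟨0,2,true⟩,⟨1,3,false⟩,⟨2,3,false⟩],[],0⟩))
 (Tr.br (Tr.br (Tr.leaf ⟨[4,4],[⟨0,1,true⟩],[],0⟩) (Tr.leaf ⟨[4096,512,512,512],[⟨0,1,true⟩,⟨0,2,true⟩,⟨0,3,true⟩],[],0⟩))
 (Tr.leaf ⟨[32,16,16,16],[⟨0,1,true⟩,⟨0,2,true⟩,⟨0,3,true⟩],[],0⟩))
)
 (Tr.br (Tr.br (Tr.br (Tr.leaf ⟨[10,10],[⟨0,1,true⟩],[],0⟩) (Tr.leaf ⟨[2048],[],[⟨9,[(0,true)]⟩],2⟩))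
 (Tr.leaf ⟨[4,8,8,8],[⟨0,1,true⟩,⟨0,2,true⟩,⟨0,3,true⟩],[],0⟩))
 (Tr.br (Tr.br (Tr.leaf ⟨[2,2,2,4],[⟨0,3,false⟩,⟨1,3,false⟩,⟨2,3,false⟩],[],0⟩) (Tr.leaf ⟨[8192],[],[],0⟩))
 (Tr.leaf ⟨[64,128,128,128],[⟨0,1,false⟩,⟨0,2,false⟩,⟨0,3,false⟩],[],0⟩))
)
)

noncomputable def b1_sc : Tr Sc := (Tr.leaf ⟨[],[]⟩)
noncomputable def b1_T : Tab := ⟨14,b1_ty,b1_ev,b1_ax,b1_sc⟩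
def b1_S0 : St := ⟨0,0,0,0,0⟩
def b1_G0 : Ctx := ⟨6,0,127,0,0,b1_S0,none⟩
def b1_G1 : Ctx := ⟨8,0,255,0,0,b1_S0,none⟩
def b1_G2 : Ctx := ⟨11,0,511,0,0,b1_S0,none⟩
def b1_G3 : Ctx := ⟨13,1,2047,0,0,b1_S0,none⟩
def b1_G4 : Ctx := ⟨14,1,4095,0,0,b1_S0,none⟩
def b1_G5 : Ctx := ⟨14,1,4095,0,8192,b1_S0,none⟩
def b1_h0 : List HP := [⟨[1,0,0,0],[⟨0,1,true⟩,⟨0,2,true⟩,⟨0,3,true⟩],(HT.leaf 3)⟩]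
def b1_h1 : List HP := [⟨[0,1,1,1],[⟨0,1,false⟩,⟨0,2,false⟩,⟨0,3,false⟩],(HT.leaf 3)⟩]
def b1_h5 : List HP := [⟨[0],[],(HT.br true 0 0 (HT.leaf 5) (HT.leaf 2))⟩]

end Pool.Agent.Lib.MP_849b2e_co
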