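import Pool.Agent.Lib.MP_849b2e_co.Fast
import Pool.Agent.Lib.MP_849b2e_co.Tb1
import Pool.Agent.Lib.MP_849b2e_co.RApply

set_option maxRecDepth 100000
set_option linter.all false
namespace Pool.Agent.Lib.MP_849b2e_co

noncomputable def b1_o0c : Pq := (Pq.cons (Pq.L [] 510 (Pf.B 11 10 (Pf.B 11 9 (Pf.B 11 7 (Pf.B 11 6 (Pf.B 11 5 (Pf.B 11 3 (Pf.B 11 2 (Pf.B 10 9 (Pf.B 10 7 (Pf.B 10 6 (Pf.B 10 5 (Pf.B 10 3 (Pf.B 10 2 (Pf.B 9 7 (Pf.B 9 6 (Pf.B 9 5 (Pf.B 9 3 (Pf.B 9 2 (Pf.B 8 4 (Pf.B 8 0 (Pf.B 7 6 (Pf.B 7 5 (Pf.B 7 3 (Pf.B 7 2 (Pf.B 6 5 (Pf.B 6 3 (Pf.B 6 2 (Pf.B 5 3 (Pf.B 4 0 (Pf.B 3 2 (Pf.B 11 4 (Pf.B 11 0 (Pf.B 10 4 (Pf.B 10 0 (Pf.B 9 4 (Pf.B 8 7 (Pf.C 0 0x2071628488) (Pf.B 8 6 (Pf.C 0 0x2061628488)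 (Pf.B 8 5 (Pf.C 0 0x2051628488) (Pf.B 7 0 (Pf.B 8 3 (Pf.C 0 0x31628388) (Pf.B 6 0 (Pf.B 5 0 (Pf.B 4 3 (Pf.C 0 0x30e18284) (Pf.C 5 0x1000203)) (Pf.C 5 0x1010005)) (Pf.C 5 0x1010006))) (Pf.C 5 0x1010007))))) (Pf.B 9 0 (Pf.B 8 3 (Pf.C 0 0x31628488) (Pf.B 4 3 (Pf.B 8 7 (Pf.C 0 0x2071628188) (Pf.B 8 6 (Pf.C 0 0x2061628188) (Pf.B 7 0 (Pf.B 6 0 (Pf.C 0 0x180121c304) (Pf.C 5 0x1010006)) (Pf.C 5 0x1010007)))) (Pf.C 5 0x1000203))) (Pf.C 5 0x1010009))) (Pf.B 9 4 (Pf.B 8 7 (Pf.C 0 0x2071628488) (Pf.B 8 6 (Pf.C 0 0x2061628488) (Pf.B 8 5 (Pf.C 0 0x2051628488) (Pf.B 7 0 (Pf.B 6 0 (Pf.B 5 0 (Pf.C 0 0x5000e18284) (Pf.C 5 0x1010005)) (Pf.C 5 0x1010006)) (Pf.C 5 0x1010007))))) (Pf.B 9 0 (Pf.B 8 7 (Pf.B 8 6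 (Pf.B 8 5 (Pf.C 0 0x5080e18284) (Pf.B 5 0 (Pf.B 7 0 (Pf.C 0 0x5001214384) (Pf.C 0 0x71624288)) (Pf.C 5 0x1010005))) (Pf.B 6 0 (Pf.B 7 0 (Pf.C 0 0x5001218384) (Pf.C 0 0x71624308)) (Pf.C 5 0x1010006))) (Pf.B 7 0 (Pf.B 6 0 (Pf.C 0 0x500121c304) (Pf.B 8 6 (Pf.C 0 0x61624388) (Pf.C 5 0x800406))) (Pf.C 5 0x1010007))) (Pf.C 5 0x1010009)))) (Pf.B 10 0 (Pf.B 9 4 (Pf.B 9 0 (Pf.B 8 3 (Pf.C 0 0x31628488) (Pf.B 4 3 (Pf.B 8 7 (Pf.C 0 0x2071624188) (Pf.B 8 6 (Pf.C 0 0x2061624188) (Pf.B 7 0 (Pf.B 6 0 (Pf.C 0 0x180141c304) (Pf.C 5 0x1010006)) (Pf.C 5 0x1010007)))) (Pf.C 5 0x1000203))) (Pf.B 8 7 (Pf.B 8 6 (Pf.B 8 5 (Pf.C 0 0x4880e18284) (Pf.B 5 0 (Pf.B 7 0 (Pf.C 0 0x4801414384) (Pf.C 0 0x71628288)) (Pf.C 5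 0x1010005))) (Pf.B 6 0 (Pf.B 7 0 (Pf.C 0 0x4801418384) (Pf.C 0 0x71628308)) (Pf.C 5 0x1010006))) (Pf.B 7 0 (Pf.B 6 0 (Pf.C 0 0x480141c304) (Pf.B 8 6 (Pf.C 0 0x61628388) (Pf.C 5 0x800406))) (Pf.C 5 0x1010007)))) (Pf.B 9 0 (Pf.B 8 3 (Pf.C 0 0x31628488) (Pf.B 4 3 (Pf.B 7 0 (Pf.C 0 0x1801424384) (Pf.B 8 7 (Pf.C 0 0x71628488) (Pf.C 5 0x800407))) (Pf.C 5 0x1000203))) (Pf.C 5 0x1010009))) (Pf.C 5 0x101000a))) (Pf.B 10 4 (Pf.B 10 0 (Pf.B 9 4 (Pf.B 8 7 (Pf.C 0 0x2071628488) (Pf.B 8 6 (Pf.C 0 0x2061628488) (Pf.B 8 5 (Pf.C 0 0x2051628488) (Pf.B 7 0 (Pf.B 6 0 (Pf.B 5 0 (Pf.C 0 0x5800e18284) (Pf.C 5 0x1010005)) (Pf.C 5 0x1010006)) (Pf.C 5 0x1010007))))) (Pf.B 9 0 (Pf.B 8 7 (Pf.B 8 6 (Pf.B 8 5 (Pf.C 0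 0x5080e18284) (Pf.B 5 0 (Pf.B 7 0 (Pf.C 0 0x5801214384) (Pf.C 0 0x71424288)) (Pf.C 5 0x1010005))) (Pf.B 6 0 (Pf.B 7 0 (Pf.C 0 0x5801218384) (Pf.C 0 0x71424308)) (Pf.C 5 0x1010006))) (Pf.B 7 0 (Pf.B 6 0 (Pf.C 0 0x580121c304) (Pf.B 8 6 (Pf.C 0 0x61424388) (Pf.C 5 0x800406))) (Pf.C 5 0x1010007))) (Pf.C 5 0x1010009))) (Pf.B 9 4 (Pf.B 8 7 (Pf.C 0 0x2071628488) (Pf.B 8 6 (Pf.C 0 0x2061628488) (Pf.B 8 5 (Pf.C 0 0x2051628488) (Pf.B 7 0 (Pf.B 6 0 (Pf.B 5 0 (Pf.C 0 0x5000e18284) (Pf.C 5 0x1010005)) (Pf.C 5 0x1010006)) (Pf.C 5 0x1010007))))) (Pf.B 9 0 (Pf.B 4 3 (Pf.C 0 0x4841628180) (Pf.B 8 3 (Pf.B 4 2 (Pf.C 0 0x4841628100) (Pf.B 8 2 (Pf.B 8 7 (Pf.C 0 0x5080608384) (Pf.B 8 6 (Pf.C 0 0x5080608304) (Pf.B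 7 0 (Pf.B 6 0 (Pf.C 0 0x500121c304) (Pf.C 5 0x1010006)) (Pf.C 5 0x1010007)))) (Pf.C 5 0x800402))) (Pf.C 5 0x800403))) (Pf.C 5 0x1010009)))) (Pf.B 10 0 (Pf.B 9 4 (Pf.B 9 0 (Pf.B 8 7 (Pf.B 8 6 (Pf.B 8 5 (Pf.C 0 0x4880e18284) (Pf.B 5 0 (Pf.B 7 0 (Pf.C 0 0x5801414384) (Pf.C 0 0x71424288)) (Pf.C 5 0x1010005))) (Pf.B 6 0 (Pf.B 7 0 (Pf.C 0 0x5801418384) (Pf.C 0 0x71424308)) (Pf.C 5 0x1010006))) (Pf.B 7 0 (Pf.B 6 0 (Pf.C 0 0x580141c304) (Pf.B 8 6 (Pf.C 0 0x61424388) (Pf.C 5 0x800406))) (Pf.C 5 0x1010007))) (Pf.B 4 3 (Pf.C 0 0x5041624180) (Pf.B 8 3 (Pf.B 4 2 (Pf.C 0 0x5041624100) (Pf.B 8 2 (Pf.B 8 7 (Pf.C 0 0x4880608384) (Pf.B 8 6 (Pf.C 0 0x4880608304) (Pf.B 7 0 (Pf.B 6 0 (Pf.C 0 0x480141c304) (Pf.C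 5 0x1010006)) (Pf.C 5 0x1010007)))) (Pf.C 5 0x800402))) (Pf.C 5 0x800403)))) (Pf.B 9 0 (Pf.B 7 0 (Pf.C 0 0x5801424384) (Pf.B 8 7 (Pf.B 6 0 (Pf.C 0 0x5801424304) (Pf.B 8 6 (Pf.B 8 5 (Pf.C 0 0x5880e18284) (Pf.B 5 0 (Pf.C 0 0x5801424284) (Pf.C 5 0x1010005))) (Pf.C 5 0x800406))) (Pf.C 5 0x800407))) (Pf.C 5 0x1010009))) (Pf.C 5 0x101000a)))) (Pf.B 11 0 (Pf.B 10 4 (Pf.B 10 0 (Pf.B 9 4 (Pf.B 9 0 (Pf.B 8 3 (Pf.C 0 0x31628488) (Pf.B 4 3 (Pf.B 8 7 (Pf.C 0 0x2071424188) (Pf.B 8 6 (Pf.C 0 0x2061424188) (Pf.B 7 0 (Pf.B 6 0 (Pf.C 0 0x180161c304) (Pf.C 5 0x1010006)) (Pf.C 5 0x1010007)))) (Pf.C 5 0x1000203))) (Pf.B 8 7 (Pf.B 8 6 (Pf.B 8 5 (Pf.C 0 0x4880e18284) (Pf.B 5 0 (Pf.B 7 0 (Pf.C 0 0x4801614384) (Pf.C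 0 0x71628288)) (Pf.C 5 0x1010005))) (Pf.B 6 0 (Pf.B 7 0 (Pf.C 0 0x4801618384) (Pf.C 0 0x71628308)) (Pf.C 5 0x1010006))) (Pf.B 7 0 (Pf.B 6 0 (Pf.C 0 0x480161c304) (Pf.B 8 6 (Pf.C 0 0x61628388) (Pf.C 5 0x800406))) (Pf.C 5 0x1010007)))) (Pf.B 9 0 (Pf.B 8 3 (Pf.C 0 0x31628488) (Pf.B 4 3 (Pf.B 7 0 (Pf.C 0 0x1801624384) (Pf.B 8 7 (Pf.C 0 0x71628488) (Pf.C 5 0x800407))) (Pf.C 5 0x1000203))) (Pf.C 5 0x1010009))) (Pf.B 9 4 (Pf.B 9 0 (Pf.B 8 7 (Pf.B 8 6 (Pf.B 8 5 (Pf.C 0 0x4880e18284) (Pf.B 5 0 (Pf.B 7 0 (Pf.C 0 0x5001614384) (Pf.C 0 0x71624288)) (Pf.C 5 0x1010005))) (Pf.B 6 0 (Pf.B 7 0 (Pf.C 0 0x5001618384) (Pf.C 0 0x71624308)) (Pf.C 5 0x1010006))) (Pf.B 7 0 (Pf.B 6 0 (Pf.C 0 0x500161c304) (Pf.B 8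 6 (Pf.C 0 0x61624388) (Pf.C 5 0x800406))) (Pf.C 5 0x1010007))) (Pf.B 4 3 (Pf.C 0 0x5841424180) (Pf.B 8 3 (Pf.B 4 2 (Pf.C 0 0x5841424100) (Pf.B 8 2 (Pf.B 8 7 (Pf.C 0 0x4880608384) (Pf.B 8 6 (Pf.C 0 0x4880608304) (Pf.B 7 0 (Pf.B 6 0 (Pf.C 0 0x480161c304) (Pf.C 5 0x1010006)) (Pf.C 5 0x1010007)))) (Pf.C 5 0x800402))) (Pf.C 5 0x800403)))) (Pf.B 9 0 (Pf.B 7 0 (Pf.C 0 0x5001624384) (Pf.B 8 7 (Pf.B 6 0 (Pf.C 0 0x5001624304) (Pf.B 8 6 (Pf.B 8 5 (Pf.C 0 0x5080e18284) (Pf.B 5 0 (Pf.C 0 0x5001624284) (Pf.C 5 0x1010005))) (Pf.C 5 0x800406))) (Pf.C 5 0x800407))) (Pf.C 5 0x1010009)))) (Pf.B 10 0 (Pf.B 9 4 (Pf.B 9 0 (Pf.B 8 3 (Pf.C 0 0x31628488) (Pf.B 4 3 (Pf.B 7 0 (Pf.C 0 0x1801628384) (Pf.B 8 7 (Pf.C 0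 0x71628488) (Pf.C 5 0x800407))) (Pf.C 5 0x1000203))) (Pf.B 7 0 (Pf.C 0 0x4801628384) (Pf.B 8 7 (Pf.B 6 0 (Pf.C 0 0x4801628304) (Pf.B 8 6 (Pf.B 8 5 (Pf.C 0 0x4880e18284) (Pf.B 5 0 (Pf.C 0 0x4801628284) (Pf.C 5 0x1010005))) (Pf.C 5 0x800406))) (Pf.C 5 0x800407)))) (Pf.B 9 0 (Pf.B 8 3 (Pf.C 0 0x31628488) (Pf.B 4 3 (Pf.C 0 0x31628484) (Pf.C 5 0x1000203))) (Pf.C 5 0x1010009))) (Pf.C 5 0x101000a))) (Pf.C 5 0x101000b))) (Pf.C 2 259)) (Pf.C 1 4)) (Pf.C 2 389)) (Pf.C 2 262)) (Pf.C 2 390)) (Pf.C 2 646)) (Pf.C 2 263)) (Pf.C 2 391)) (Pf.C 2 647)) (Pf.C 2 775)) (Pf.C 1 8)) (Pf.C 1 520)) (Pf.C 2 265)) (Pf.C 2 393)) (Pf.C 2 649)) (Pf.C 2 777)) (Pf.C 2 905)) (Pf.C 2 266)) (Pf.C 2 394)) (Pf.C 2 650)) (Pf.C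 2 778)) (Pf.C 2 906)) (Pf.C 2 1162)) (Pf.C 2 267)) (Pf.C 2 395)) (Pf.C 2 651)) (Pf.C 2 779)) (Pf.C 2 907)) (Pf.C 2 1163)) (Pf.C 2 1291)))
 Pq.nil)
theorem b1_o0 : AllRef b1_T (pureCtx 3 6) (hitObl [2,3] b1_h0) :=
  chkPq_sound b1_o0c _ (by decide +kernel)
noncomputable def b1_o1c : Pq := (Pq.cons (Pq.L [] 510 (Pf.B 11 10 (Pf.B 11 9 (Pf.B 11 7 (Pf.B 11 6 (Pf.B 11 5 (Pf.B 11 3 (Pf.B 11 2 (Pf.B 10 9 (Pf.B 10 7 (Pf.B 10 6 (Pf.B 10 5 (Pf.B 10 3 (Pf.B 10 2 (Pf.B 9 7 (Pf.B 9 6 (Pf.B 9 5 (Pf.B 9 3 (Pf.B 9 2 (Pf.B 8 4 (Pf.B 8 0 (Pf.B 7 6 (Pf.B 7 5 (Pf.B 7 3 (Pf.B 7 2 (Pf.B 6 5 (Pf.B 6 3 (Pf.B 6 2 (Pf.B 5 3 (Pf.B 4 0 (Pf.B 3 2 (Pf.B 11 4 (Pf.B 11 0 (Pf.C 3 0x1620200) (Pf.B 10 4 (Pf.B 10 0 (Pf.C 3 0x1420200)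 (Pf.B 9 4 (Pf.B 9 0 (Pf.C 3 0x1220200) (Pf.B 8 3 (Pf.B 4 3 (Pf.C 3 0x620004) (Pf.C 0 0x1841628480)) (Pf.C 0 0x1881628480))) (Pf.B 9 0 (Pf.B 7 0 (Pf.B 8 7 (Pf.C 3 0xe10008) (Pf.B 6 0 (Pf.B 8 6 (Pf.C 3 0xc10008) (Pf.B 8 5 (Pf.B 5 0 (Pf.C 3 0xa20200) (Pf.C 0 0x4841628280)) (Pf.C 0 0x4840e18288))) (Pf.C 0 0x4841628300))) (Pf.C 0 0x4841628380)) (Pf.B 8 3 (Pf.B 4 3 (Pf.C 3 0x620004) (Pf.B 7 0 (Pf.B 8 7 (Pf.C 3 0xe10008) (Pf.C 0 0x3881628480)) (Pf.C 0 0x2031628380))) (Pf.C 0 0x1881628480))))) (Pf.B 10 0 (Pf.B 9 4 (Pf.B 9 0 (Pf.C 3 0x1220200) (Pf.B 7 0 (Pf.B 8 7 (Pf.C 3 0xe10008) (Pf.B 6 0 (Pf.B 8 6 (Pf.C 3 0xc10008) (Pf.B 8 5 (Pf.B 5 0 (Pf.C 3 0xa20200) (Pf.C 0 0x5041624280)) (Pf.C 0 0x5040e18288)))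 (Pf.C 0 0x5041624300))) (Pf.C 0 0x5041624380))) (Pf.B 9 0 (Pf.B 4 3 (Pf.B 8 3 (Pf.C 3 0x610008) (Pf.B 4 2 (Pf.B 8 2 (Pf.C 3 0x410008) (Pf.B 8 7 (Pf.B 8 6 (Pf.B 7 0 (Pf.C 3 0xe20200) (Pf.B 6 0 (Pf.C 3 0xc20200) (Pf.C 0 0x402161c300))) (Pf.C 0 0x4840608308)) (Pf.C 0 0x4840608388))) (Pf.C 0 0x5801424104))) (Pf.C 0 0x5801424184)) (Pf.B 8 7 (Pf.B 7 0 (Pf.C 3 0xe20200) (Pf.B 6 0 (Pf.B 8 6 (Pf.C 3 0xc10008) (Pf.C 0 0x3081624380)) (Pf.C 0 0x504161c300))) (Pf.B 8 6 (Pf.B 6 0 (Pf.C 3 0xc20200) (Pf.B 7 0 (Pf.C 0 0x4071624300) (Pf.C 0 0x5041618380))) (Pf.B 8 5 (Pf.B 5 0 (Pf.C 3 0xa20200) (Pf.B 7 0 (Pf.C 0 0x4071624280) (Pf.C 0 0x5041614380))) (Pf.C 0 0x4840e18288)))))) (Pf.B 9 4 (Pf.B 9 0 (Pf.C 3 0x1220200)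 (Pf.B 8 3 (Pf.B 4 3 (Pf.C 3 0x620004) (Pf.B 7 0 (Pf.B 8 7 (Pf.C 3 0xe10008) (Pf.C 0 0x3881628480)) (Pf.C 0 0x2031624380))) (Pf.C 0 0x1881628480))) (Pf.B 9 0 (Pf.B 8 7 (Pf.B 7 0 (Pf.C 3 0xe20200) (Pf.B 6 0 (Pf.B 8 6 (Pf.C 3 0xc10008) (Pf.C 0 0x3081628380)) (Pf.C 0 0x484161c300))) (Pf.B 8 6 (Pf.B 6 0 (Pf.C 3 0xc20200) (Pf.B 7 0 (Pf.C 0 0x4071628300) (Pf.C 0 0x4841618380))) (Pf.B 8 5 (Pf.B 5 0 (Pf.C 3 0xa20200) (Pf.B 7 0 (Pf.C 0 0x4071628280) (Pf.C 0 0x4841614380))) (Pf.C 0 0x4840e18288)))) (Pf.B 8 3 (Pf.B 4 3 (Pf.C 3 0x620004) (Pf.B 8 7 (Pf.B 8 6 (Pf.B 7 0 (Pf.C 3 0xe20200) (Pf.B 6 0 (Pf.C 3 0xc20200) (Pf.C 0 0x203161c300))) (Pf.C 0 0x3081424184)) (Pf.C 0 0x3881424184))) (Pf.C 0 0x1881628480)))))))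 (Pf.B 11 0 (Pf.B 10 4 (Pf.B 10 0 (Pf.C 3 0x1420200) (Pf.B 9 4 (Pf.B 9 0 (Pf.C 3 0x1220200) (Pf.B 7 0 (Pf.B 8 7 (Pf.C 3 0xe10008) (Pf.B 6 0 (Pf.B 8 6 (Pf.C 3 0xc10008) (Pf.B 8 5 (Pf.B 5 0 (Pf.C 3 0xa20200) (Pf.C 0 0x5841424280)) (Pf.C 0 0x5840e18288))) (Pf.C 0 0x5841424300))) (Pf.C 0 0x5841424380))) (Pf.B 9 0 (Pf.B 4 3 (Pf.B 8 3 (Pf.C 3 0x610008) (Pf.B 4 2 (Pf.B 8 2 (Pf.C 3 0x410008) (Pf.B 8 7 (Pf.B 8 6 (Pf.B 7 0 (Pf.C 3 0xe20200) (Pf.B 6 0 (Pf.C 3 0xc20200) (Pf.C 0 0x402141c300))) (Pf.C 0 0x4840608308)) (Pf.C 0 0x4840608388))) (Pf.C 0 0x5001624104))) (Pf.C 0 0x5001624184)) (Pf.B 8 7 (Pf.B 7 0 (Pf.C 3 0xe20200) (Pf.B 6 0 (Pf.B 8 6 (Pf.C 3 0xc10008) (Pf.C 0 0x3081424380)) (Pf.C 0 0x584141c300)))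 (Pf.B 8 6 (Pf.B 6 0 (Pf.C 3 0xc20200) (Pf.B 7 0 (Pf.C 0 0x4071424300) (Pf.C 0 0x5841418380))) (Pf.B 8 5 (Pf.B 5 0 (Pf.C 3 0xa20200) (Pf.B 7 0 (Pf.C 0 0x4071424280) (Pf.C 0 0x5841414380))) (Pf.C 0 0x4840e18288))))))) (Pf.B 10 0 (Pf.B 9 4 (Pf.B 9 0 (Pf.C 3 0x1220200) (Pf.B 4 3 (Pf.B 8 3 (Pf.C 3 0x610008) (Pf.B 4 2 (Pf.B 8 2 (Pf.C 3 0x410008) (Pf.B 8 7 (Pf.B 8 6 (Pf.B 7 0 (Pf.C 3 0xe20200) (Pf.B 6 0 (Pf.C 3 0xc20200) (Pf.C 0 0x402121c300))) (Pf.C 0 0x5040608308)) (Pf.C 0 0x5040608388))) (Pf.C 0 0x4801628104))) (Pf.C 0 0x4801628184))) (Pf.B 8 7 (Pf.B 8 6 (Pf.B 8 5 (Pf.B 7 0 (Pf.C 3 0xe20200) (Pf.B 6 0 (Pf.C 3 0xc20200) (Pf.B 5 0 (Pf.C 3 0xa20200) (Pf.C 0 0x5040e18280)))) (Pf.C 0 0x2881628484))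 (Pf.C 0 0x3081628484)) (Pf.C 0 0x3881628484))) (Pf.B 9 4 (Pf.B 9 0 (Pf.C 3 0x1220200) (Pf.B 8 7 (Pf.B 7 0 (Pf.C 3 0xe20200) (Pf.B 6 0 (Pf.B 8 6 (Pf.C 3 0xc10008) (Pf.C 0 0x3081424380)) (Pf.C 0 0x584121c300))) (Pf.B 8 6 (Pf.B 6 0 (Pf.C 3 0xc20200) (Pf.B 7 0 (Pf.C 0 0x4071424300) (Pf.C 0 0x5841218380))) (Pf.B 8 5 (Pf.B 5 0 (Pf.C 3 0xa20200) (Pf.B 7 0 (Pf.C 0 0x4071424280) (Pf.C 0 0x5841214380))) (Pf.C 0 0x5040e18288))))) (Pf.B 8 7 (Pf.B 8 6 (Pf.B 8 5 (Pf.B 7 0 (Pf.C 3 0xe20200) (Pf.B 6 0 (Pf.C 3 0xc20200) (Pf.B 5 0 (Pf.C 3 0xa20200) (Pf.C 0 0x5840e18280)))) (Pf.C 0 0x2881628484)) (Pf.C 0 0x3081628484)) (Pf.C 0 0x3881628484))))) (Pf.B 10 4 (Pf.B 10 0 (Pf.C 3 0x1420200) (Pf.B 9 4 (Pf.B 9 0 (Pf.C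 3 0x1220200) (Pf.B 8 3 (Pf.B 4 3 (Pf.C 3 0x620004) (Pf.B 7 0 (Pf.B 8 7 (Pf.C 3 0xe10008) (Pf.C 0 0x3881628480)) (Pf.C 0 0x2031424380))) (Pf.C 0 0x1881628480))) (Pf.B 9 0 (Pf.B 8 7 (Pf.B 7 0 (Pf.C 3 0xe20200) (Pf.B 6 0 (Pf.B 8 6 (Pf.C 3 0xc10008) (Pf.C 0 0x3081628380)) (Pf.C 0 0x484141c300))) (Pf.B 8 6 (Pf.B 6 0 (Pf.C 3 0xc20200) (Pf.B 7 0 (Pf.C 0 0x4071628300) (Pf.C 0 0x4841418380))) (Pf.B 8 5 (Pf.B 5 0 (Pf.C 3 0xa20200) (Pf.B 7 0 (Pf.C 0 0x4071628280) (Pf.C 0 0x4841414380))) (Pf.C 0 0x4840e18288)))) (Pf.B 8 3 (Pf.B 4 3 (Pf.C 3 0x620004) (Pf.B 8 7 (Pf.B 8 6 (Pf.B 7 0 (Pf.C 3 0xe20200) (Pf.B 6 0 (Pf.C 3 0xc20200) (Pf.C 0 0x203141c300))) (Pf.C 0 0x3081624184)) (Pf.C 0 0x3881624184))) (Pf.C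 0 0x1881628480))))) (Pf.B 10 0 (Pf.B 9 4 (Pf.B 9 0 (Pf.C 3 0x1220200) (Pf.B 8 7 (Pf.B 7 0 (Pf.C 3 0xe20200) (Pf.B 6 0 (Pf.B 8 6 (Pf.C 3 0xc10008) (Pf.C 0 0x3081624380)) (Pf.C 0 0x504121c300))) (Pf.B 8 6 (Pf.B 6 0 (Pf.C 3 0xc20200) (Pf.B 7 0 (Pf.C 0 0x4071624300) (Pf.C 0 0x5041218380))) (Pf.B 8 5 (Pf.B 5 0 (Pf.C 3 0xa20200) (Pf.B 7 0 (Pf.C 0 0x4071624280) (Pf.C 0 0x5041214380))) (Pf.C 0 0x5040e18288))))) (Pf.B 8 7 (Pf.B 8 6 (Pf.B 8 5 (Pf.B 7 0 (Pf.C 3 0xe20200) (Pf.B 6 0 (Pf.C 3 0xc20200) (Pf.B 5 0 (Pf.C 3 0xa20200) (Pf.C 0 0x5040e18280)))) (Pf.C 0 0x2881628484)) (Pf.C 0 0x3081628484)) (Pf.C 0 0x3881628484))) (Pf.B 9 4 (Pf.B 9 0 (Pf.C 3 0x1220200) (Pf.B 8 3 (Pf.B 4 3 (Pf.C 3 0x620004) (Pf.B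 8 7 (Pf.B 8 6 (Pf.B 7 0 (Pf.C 3 0xe20200) (Pf.B 6 0 (Pf.C 3 0xc20200) (Pf.C 0 0x203121c300))) (Pf.C 0 0x3081628184)) (Pf.C 0 0x3881628184))) (Pf.C 0 0x1881628480))) (Pf.B 8 7 (Pf.B 8 6 (Pf.B 8 5 (Pf.B 7 0 (Pf.C 3 0xe20200) (Pf.B 8 3 (Pf.B 6 0 (Pf.C 3 0xc20200) (Pf.B 5 0 (Pf.C 3 0xa20200) (Pf.B 4 3 (Pf.C 3 0x620004) (Pf.C 0 0x1840e18280)))) (Pf.C 0 0x1881628380))) (Pf.C 0 0x2881628484)) (Pf.C 0 0x3081628484)) (Pf.C 0 0x3881628484))))))) (Pf.C 2 259)) (Pf.C 1 4)) (Pf.C 2 389)) (Pf.C 2 262)) (Pf.C 2 390)) (Pf.C 2 646)) (Pf.C 2 263)) (Pf.C 2 391)) (Pf.C 2 647)) (Pf.C 2 775)) (Pf.C 1 8)) (Pf.C 1 520)) (Pf.C 2 265)) (Pf.C 2 393)) (Pf.C 2 649)) (Pf.C 2 777)) (Pf.C 2 905)) (Pf.C 2 266)) (Pf.C 2 394))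 (Pf.C 2 650)) (Pf.C 2 778)) (Pf.C 2 906)) (Pf.C 2 1162)) (Pf.C 2 267)) (Pf.C 2 395)) (Pf.C 2 651)) (Pf.C 2 779)) (Pf.C 2 907)) (Pf.C 2 1163)) (Pf.C 2 1291)))
 Pq.nil)
theorem b1_o1 : AllRef b1_T b1_G0 (hitObl [1,4] b1_h1) :=
  chkPq_sound b1_o1c _ (by decide +kernel)
noncomputable def b1_o2c : Pq := (Pq.cons (Pq.L [] 2 (Pf.C 1 256))
 (Pq.cons (Pq.L [] 2 (Pf.C 1 256))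
 (Pq.cons (Pq.L [] 2 (Pf.C 2 256))
 (Pq.cons (Pq.L [] 2 (Pf.C 1 256))
 (Pq.cons (Pq.L [] 2 (Pf.C 1 256))
 Pq.nil)))))
theorem b1_o2 : AllRef b1_T b1_G1 (twinObl [6,7,5] 0 [2,5,2]) :=
  chkPq_sound b1_o2c _ (by decide +kernel)
noncomputable def b1_o3c : Pq := (Pq.cons (Pq.L [] 1023 (Pf.W 8 128 [] [2,3,4] (Pf.cons (Pf.B 5 4 (Pf.B 5 3 (Pf.C 3 0xa10083) (Pf.B 5 2 (Pf.C 3 0xa10082) (Pf.W 8 256 [] [1,3,4,5] (Pf.cons (Pf.B 6 4 (Pf.B 6 3 (Pf.C 3 0xc10103) (Pf.W 8 384 [] [5,6] (Pf.cons (Pf.C 10 0xc14380) (Pf.cons (Pf.C 10 0xc14383) Pf.nil)))) (Pf.B 6 3 (Pf.B 6 1 (Pf.C 3 0xc0c101) (Pf.W 8 513 [] [0,2,3,5,6] (Pf.cons (Pf.B 7 0 (Pf.B 7 3 (Pf.C 3 0xe10003) (Pf.B 7 2 (Pf.C 3 0xe10002) (Pf.W 8 386 [] [5,7]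 (Pf.cons (Pf.C 10 0xe14402) (Pf.cons (Pf.C 10 0xe14403) Pf.nil))))) (Pf.C 10 0xc14380)) (Pf.cons (Pf.B 7 0 (Pf.B 7 3 (Pf.C 3 0xe04003) (Pf.B 7 2 (Pf.C 3 0xe04002) (Pf.W 8 386 [] [5,7] (Pf.cons (Pf.C 10 0xe14402) (Pf.cons (Pf.C 10 0xe14403) Pf.nil))))) (Pf.C 10 0xc14380)) Pf.nil)))) (Pf.W 8 384 [] [5,6] (Pf.cons (Pf.C 10 0xc14380) (Pf.cons (Pf.C 10 0xc14383) Pf.nil))))) (Pf.cons (Pf.B 6 4 (Pf.B 6 3 (Pf.C 3 0xc10003) (Pf.W 8 386 [] [5,6] (Pf.cons (Pf.C 10 0xc14382) (Pf.cons (Pf.C 10 0xc14383) Pf.nil)))) (Pf.B 6 3 (Pf.B 6 1 (Pf.C 3 0xc0c001) (Pf.W 8 384 [] [1,2,4,5,6] (Pf.cons (Pf.B 7 2 (Pf.B 7 4 (Pf.C 3 0xe0c104) (Pf.B 7 1 (Pf.C 3 0xe0c101) (Pf.W 8 513 [] [6,7] (Pf.cons (Pf.C 10 0xe18401) (Pf.cons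 (Pf.C 10 0xe18404) Pf.nil))))) (Pf.C 10 0xc14382)) (Pf.cons (Pf.B 7 2 (Pf.B 7 4 (Pf.C 3 0xe08004) (Pf.B 7 1 (Pf.C 3 0xe08001) (Pf.W 8 513 [] [6,7] (Pf.cons (Pf.C 10 0xe18401) (Pf.cons (Pf.C 10 0xe18404) Pf.nil))))) (Pf.C 10 0xc14382)) Pf.nil)))) (Pf.W 8 386 [] [5,6] (Pf.cons (Pf.C 10 0xc14382) (Pf.cons (Pf.C 10 0xc14383) Pf.nil))))) Pf.nil))))) (Pf.B 5 3 (Pf.B 5 2 (Pf.C 3 0xa0c082) (Pf.W 8 256 [] [1,3,4,5] (Pf.cons (Pf.B 6 4 (Pf.B 6 3 (Pf.C 3 0xc10103) (Pf.B 6 1 (Pf.C 3 0xc10101) (Pf.W 8 385 [] [0,2,4,5,6] (Pf.cons (Pf.B 7 0 (Pf.B 7 4 (Pf.C 3 0xe0c004) (Pf.B 7 2 (Pf.C 3 0xe0c002) (Pf.W 8 514 [] [5,7] (Pf.cons (Pf.C 10 0xe14402) (Pf.cons (Pf.C 10 0xe14404) Pf.nil))))) (Pf.C 10 0xc14380)) (Pf.cons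 (Pf.B 7 0 (Pf.B 7 4 (Pf.C 3 0xe04004) (Pf.B 7 2 (Pf.C 3 0xe04002) (Pf.W 8 514 [] [5,7] (Pf.cons (Pf.C 10 0xe14402) (Pf.cons (Pf.C 10 0xe14404) Pf.nil))))) (Pf.C 10 0xc14380)) Pf.nil))))) (Pf.W 8 512 [] [5,6] (Pf.cons (Pf.C 10 0xc14380) (Pf.cons (Pf.C 10 0xc14384) Pf.nil)))) (Pf.cons (Pf.B 6 4 (Pf.B 6 3 (Pf.C 3 0xc10003) (Pf.B 6 1 (Pf.C 3 0xc10001) (Pf.W 8 512 [] [1,2,3,5,6] (Pf.cons (Pf.B 7 2 (Pf.B 7 3 (Pf.C 3 0xe10103) (Pf.B 7 1 (Pf.C 3 0xe10101) (Pf.W 8 385 [] [6,7] (Pf.cons (Pf.C 10 0xe18401) (Pf.cons (Pf.C 10 0xe18403) Pf.nil))))) (Pf.C 10 0xc14382)) (Pf.cons (Pf.B 7 2 (Pf.B 7 3 (Pf.C 3 0xe08003) (Pf.B 7 1 (Pf.C 3 0xe08001) (Pf.W 8 385 [] [6,7] (Pf.cons (Pf.C 10 0xe18401) (Pf.cons (Pf.C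 10 0xe18403) Pf.nil))))) (Pf.C 10 0xc14382)) Pf.nil))))) (Pf.W 8 514 [] [5,6] (Pf.cons (Pf.C 10 0xc14382) (Pf.cons (Pf.C 10 0xc14384) Pf.nil)))) Pf.nil)))) (Pf.B 5 2 (Pf.W 8 384 [] [1,2,4,5] (Pf.cons (Pf.B 6 4 (Pf.B 6 2 (Pf.C 3 0xc10182) (Pf.B 6 1 (Pf.C 3 0xc10181) (Pf.W 8 257 [] [0,3,4,5,6] (Pf.cons (Pf.B 7 0 (Pf.B 7 4 (Pf.C 3 0xe08004) (Pf.B 7 3 (Pf.C 3 0xe08003) (Pf.W 8 515 [] [5,7] (Pf.cons (Pf.C 10 0xe14403) (Pf.cons (Pf.C 10 0xe14404) Pf.nil))))) (Pf.C 10 0xc14380)) (Pf.cons (Pf.B 7 0 (Pf.B 7 4 (Pf.C 3 0xe04004) (Pf.B 7 3 (Pf.C 3 0xe04003) (Pf.W 8 515 [] [5,7] (Pf.cons (Pf.C 10 0xe14403) (Pf.cons (Pf.C 10 0xe14404) Pf.nil))))) (Pf.C 10 0xc14380)) Pf.nil))))) (Pf.W 8 512 [] [5,6] (Pf.cons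 (Pf.C 10 0xc14380) (Pf.cons (Pf.C 10 0xc14384) Pf.nil)))) (Pf.cons (Pf.B 6 4 (Pf.B 6 2 (Pf.C 3 0xc10002) (Pf.B 6 1 (Pf.C 3 0xc10001) (Pf.W 8 512 [] [1,2,3,5,6] (Pf.cons (Pf.B 7 3 (Pf.B 7 2 (Pf.C 3 0xe10182) (Pf.B 7 1 (Pf.C 3 0xe10181) (Pf.W 8 257 [] [6,7] (Pf.cons (Pf.C 10 0xe18401) (Pf.cons (Pf.C 10 0xe18402) Pf.nil))))) (Pf.C 10 0xc14383)) (Pf.cons (Pf.B 7 3 (Pf.B 7 2 (Pf.C 3 0xe0c002) (Pf.B 7 1 (Pf.C 3 0xe0c001) (Pf.W 8 257 [] [6,7] (Pf.cons (Pf.C 10 0xe18401) (Pf.cons (Pf.C 10 0xe18402) Pf.nil))))) (Pf.C 10 0xc14383)) Pf.nil))))) (Pf.W 8 515 [] [5,6] (Pf.cons (Pf.C 10 0xc14383) (Pf.cons (Pf.C 10 0xc14384) Pf.nil)))) Pf.nil))) (Pf.W 8 256 [] [3,4,5] (Pf.cons (Pf.B 6 4 (Pf.B 6 3 (Pf.C 3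 0xc10103) (Pf.W 8 384 [] [5,6] (Pf.cons (Pf.C 10 0xc14380) (Pf.cons (Pf.C 10 0xc14383) Pf.nil)))) (Pf.W 8 512 [] [5,6] (Pf.cons (Pf.C 10 0xc14380) (Pf.cons (Pf.C 10 0xc14384) Pf.nil)))) (Pf.cons (Pf.B 6 4 (Pf.B 6 3 (Pf.C 3 0xc10003) (Pf.W 8 512 [] [2,3,5,6] (Pf.cons (Pf.B 7 3 (Pf.B 7 2 (Pf.C 3 0xe10182) (Pf.C 10 0xc14382)) (Pf.C 10 0xc14383)) (Pf.cons (Pf.B 7 3 (Pf.B 7 2 (Pf.C 3 0xe0c002) (Pf.C 10 0xc14382)) (Pf.C 10 0xc14383)) Pf.nil)))) (Pf.B 6 3 (Pf.W 8 384 [] [2,4,5,6] (Pf.cons (Pf.B 7 4 (Pf.B 7 2 (Pf.C 3 0xe10182) (Pf.C 10 0xc14382)) (Pf.C 10 0xc14384)) (Pf.cons (Pf.B 7 4 (Pf.B 7 2 (Pf.C 3 0xe10002) (Pf.C 10 0xc14382)) (Pf.C 10 0xc14384)) Pf.nil))) (Pf.W 8 386 [] [5,6] (Pf.cons (Pf.C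 10 0xc14382) (Pf.cons (Pf.C 10 0xc14383) Pf.nil))))) Pf.nil)))))) (Pf.cons (Pf.B 5 4 (Pf.B 5 3 (Pf.C 3 0xa10003) (Pf.B 5 2 (Pf.C 3 0xa10002) (Pf.W 8 512 [] [1,2,3,5] (Pf.cons (Pf.B 6 3 (Pf.B 6 2 (Pf.C 3 0xc10182) (Pf.B 6 1 (Pf.C 3 0xc10181) (Pf.W 8 257 [] [5,6] (Pf.cons (Pf.C 10 0xc14381) (Pf.cons (Pf.C 10 0xc14382) Pf.nil))))) (Pf.B 6 2 (Pf.B 6 1 (Pf.C 3 0xc10101) (Pf.W 8 385 [] [5,6] (Pf.cons (Pf.C 10 0xc14381) (Pf.cons (Pf.C 10 0xc14383) Pf.nil)))) (Pf.W 8 386 [] [5,6] (Pf.cons (Pf.C 10 0xc14382) (Pf.cons (Pf.C 10 0xc14383) Pf.nil))))) (Pf.cons (Pf.B 6 3 (Pf.B 6 2 (Pf.C 3 0xc0c002) (Pf.B 6 1 (Pf.C 3 0xc0c001) (Pf.W 8 257 [] [5,6] (Pf.cons (Pf.C 10 0xc14381) (Pf.cons (Pf.C 10 0xc14382)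 Pf.nil))))) (Pf.B 6 2 (Pf.B 6 1 (Pf.C 3 0xc08001) (Pf.W 8 385 [] [5,6] (Pf.cons (Pf.C 10 0xc14381) (Pf.cons (Pf.C 10 0xc14383) Pf.nil)))) (Pf.W 8 386 [] [5,6] (Pf.cons (Pf.C 10 0xc14382) (Pf.cons (Pf.C 10 0xc14383) Pf.nil))))) Pf.nil))))) (Pf.B 5 3 (Pf.B 5 2 (Pf.C 3 0xa0c002) (Pf.W 8 384 [] [1,2,4,5] (Pf.cons (Pf.B 6 4 (Pf.B 6 2 (Pf.C 3 0xc10182) (Pf.B 6 1 (Pf.C 3 0xc10181) (Pf.W 8 257 [] [5,6] (Pf.cons (Pf.C 10 0xc14381) (Pf.cons (Pf.C 10 0xc14382) Pf.nil))))) (Pf.B 6 2 (Pf.B 6 1 (Pf.C 3 0xc0c101) (Pf.W 8 513 [] [5,6] (Pf.cons (Pf.C 10 0xc14381) (Pf.cons (Pf.C 10 0xc14384) Pf.nil)))) (Pf.W 8 514 [] [5,6] (Pf.cons (Pf.C 10 0xc14382) (Pf.cons (Pf.C 10 0xc14384) Pf.nil))))) (Pf.cons (Pf.B 6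 4 (Pf.B 6 2 (Pf.C 3 0xc10002) (Pf.B 6 1 (Pf.C 3 0xc10001) (Pf.W 8 257 [] [5,6] (Pf.cons (Pf.C 10 0xc14381) (Pf.cons (Pf.C 10 0xc14382) Pf.nil))))) (Pf.B 6 2 (Pf.B 6 1 (Pf.C 3 0xc08001) (Pf.W 8 513 [] [5,6] (Pf.cons (Pf.C 10 0xc14381) (Pf.cons (Pf.C 10 0xc14384) Pf.nil)))) (Pf.W 8 514 [] [5,6] (Pf.cons (Pf.C 10 0xc14382) (Pf.cons (Pf.C 10 0xc14384) Pf.nil))))) Pf.nil)))) (Pf.B 5 2 (Pf.W 8 256 [] [1,3,4,5] (Pf.cons (Pf.B 6 4 (Pf.B 6 3 (Pf.C 3 0xc10103) (Pf.B 6 1 (Pf.C 3 0xc10101) (Pf.W 8 385 [] [5,6] (Pf.cons (Pf.C 10 0xc14381) (Pf.cons (Pf.C 10 0xc14383) Pf.nil))))) (Pf.B 6 3 (Pf.B 6 1 (Pf.C 3 0xc0c101) (Pf.W 8 513 [] [5,6] (Pf.cons (Pf.C 10 0xc14381) (Pf.cons (Pf.C 10 0xc14384) Pf.nil))))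 (Pf.W 8 515 [] [5,6] (Pf.cons (Pf.C 10 0xc14383) (Pf.cons (Pf.C 10 0xc14384) Pf.nil))))) (Pf.cons (Pf.B 6 4 (Pf.B 6 3 (Pf.C 3 0xc10003) (Pf.B 6 1 (Pf.C 3 0xc10001) (Pf.W 8 385 [] [5,6] (Pf.cons (Pf.C 10 0xc14381) (Pf.cons (Pf.C 10 0xc14383) Pf.nil))))) (Pf.B 6 3 (Pf.B 6 1 (Pf.C 3 0xc0c001) (Pf.W 8 513 [] [5,6] (Pf.cons (Pf.C 10 0xc14381) (Pf.cons (Pf.C 10 0xc14384) Pf.nil)))) (Pf.W 8 515 [] [5,6] (Pf.cons (Pf.C 10 0xc14383) (Pf.cons (Pf.C 10 0xc14384) Pf.nil))))) Pf.nil))) (Pf.W 8 257 [] [3,4,5] (Pf.cons (Pf.B 6 4 (Pf.B 6 3 (Pf.C 3 0xc10103) (Pf.W 8 385 [] [5,6] (Pf.cons (Pf.C 10 0xc14381) (Pf.cons (Pf.C 10 0xc14383) Pf.nil)))) (Pf.W 8 513 [] [5,6] (Pf.cons (Pf.C 10 0xc14381) (Pf.cons (Pf.C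 10 0xc14384) Pf.nil)))) (Pf.cons (Pf.B 6 4 (Pf.B 6 3 (Pf.C 3 0xc10083) (Pf.W 8 513 [] [2,3,5,6] (Pf.cons (Pf.B 7 3 (Pf.B 7 2 (Pf.C 3 0xe10182) (Pf.C 10 0xc14382)) (Pf.C 10 0xc14383)) (Pf.cons (Pf.B 7 3 (Pf.B 7 2 (Pf.C 3 0xe0c082) (Pf.C 10 0xc14382)) (Pf.C 10 0xc14383)) Pf.nil)))) (Pf.B 6 3 (Pf.W 8 385 [] [2,4,5,6] (Pf.cons (Pf.B 7 4 (Pf.B 7 2 (Pf.C 3 0xe10182) (Pf.C 10 0xc14382)) (Pf.C 10 0xc14384)) (Pf.cons (Pf.B 7 4 (Pf.B 7 2 (Pf.C 3 0xe10082) (Pf.C 10 0xc14382)) (Pf.C 10 0xc14384)) Pf.nil))) (Pf.W 8 386 [] [5,6] (Pf.cons (Pf.C 10 0xc14382) (Pf.cons (Pf.C 10 0xc14383) Pf.nil))))) Pf.nil)))))) Pf.nil))))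
 (Pq.cons (Pq.L [] 1 (Pf.C 1 128))
 Pq.nil))
theorem b1_o3 : AllRef b1_T b1_G3 (hitObl [12] b1_h5) :=
  chkPq_sound b1_o3c _ (by decide +kernel)
noncomputable def b1_o4c : Pq := (Pq.cons (Pq.L [] 0 (Pf.C 11 0))
 Pq.nil)
theorem b1_o4 : AllRef b1_T b1_G4 (List.map pat1 [13]) :=
  chkPq_sound b1_o4c _ (by decide +kernel)
noncomputable def b1_o5c : Pq := (Pq.cons (Pq.D 0 (Pq.cons (Pq.D 1 (Pq.cons (Pq.L [] 1 (Pf.C 1 128))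
 (Pq.cons (Pq.D 2 (Pq.cons (Pq.L [] 2 (Pf.C 1 256))
 (Pq.cons (Pq.D 3 (Pq.cons (Pq.L [] 4 (Pf.C 1 384))
 (Pq.cons (Pq.L [] 7 (Pf.C 7 0x608080))
 (Pq.cons (Pq.L [] 4 (Pf.C 1 384))
 Pq.nil)))) (Pq.cons (Pq.L [] 2 (Pf.C 1 256))
 Pq.nil)))) (Pq.cons (Pq.L [] 1 (Pf.C 1 128))
 Pq.nil)))) (Pq.cons (Pq.D 1 (Pq.cons (Pq.D 2 (Pq.cons (Pq.D 3 (Pq.cons (Pq.L [] 7 (Pf.C 3 49409))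
 (Pq.cons (Pq.L [] 4 (Pf.C 2 384))
 (Pq.cons (Pq.L [] 5 (Pf.B 3 1 (Pf.B 2 1 (Pf.W 9 1 [] [0,3] (Pf.cons (Pf.B 4 3 (Pf.W 9 1 [4] [0,3] (Pf.cons (Pf.B 5 3 (Pf.C 4 0x610281) (Pf.W 9 1 [4,5] [0,3] (Pf.cons (Pf.B 6 3 (Pf.C 4 0x610301) (Pf.C 6 0xa00303)) Pf.nil))) Pf.nil)) (Pf.W 9 1 [4] [0,3] (Pf.cons (Pf.B 5 3 (Pf.W 9 1 [4,5] [0,3] (Pf.cons (Pf.B 6 3 (Pf.C 4 0x614301) (Pf.C 6 0x800303)) Pf.nil)) (Pf.C 6 0x800283)) Pf.nil))) Pf.nil)) (Pf.C 1 130)) (Pf.C 1 131)))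
 Pq.nil)))) (Pq.cons (Pq.L [] 2 (Pf.C 2 256))
 (Pq.cons (Pq.D 3 (Pq.cons (Pq.L [] 3 (Pf.B 3 1 (Pf.B 2 1 (Pf.W 9 1 [] [0,2] (Pf.cons (Pf.B 4 2 (Pf.W 9 1 [4] [0,2] (Pf.cons (Pf.B 5 2 (Pf.C 4 0x410281) (Pf.W 9 1 [4,5] [0,2] (Pf.cons (Pf.B 6 2 (Pf.C 4 0x410301) (Pf.C 6 0xa00302)) Pf.nil))) Pf.nil)) (Pf.W 9 1 [4] [0,2] (Pf.cons (Pf.B 5 2 (Pf.W 9 1 [4,5] [0,2] (Pf.cons (Pf.B 6 2 (Pf.C 4 0x414301) (Pf.C 6 0x800302)) Pf.nil)) (Pf.C 6 0x800282)) Pf.nil))) Pf.nil)) (Pf.C 1 130)) (Pf.C 1 131)))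
 (Pq.cons (Pq.L [] 4 (Pf.C 2 384))
 (Pq.cons (Pq.L [] 5 (Pf.B 3 1 (Pf.B 2 1 (Pf.W 9 1 [] [0,3] (Pf.cons (Pf.B 4 3 (Pf.W 9 1 [4] [0,3] (Pf.cons (Pf.B 5 3 (Pf.C 4 0x610281) (Pf.W 9 1 [4,5] [0,3] (Pf.cons (Pf.B 6 3 (Pf.C 4 0x610301) (Pf.C 6 0xa00303)) Pf.nil))) Pf.nil)) (Pf.W 9 1 [4] [0,3] (Pf.cons (Pf.B 5 3 (Pf.W 9 1 [4,5] [0,3] (Pf.cons (Pf.B 6 3 (Pf.C 4 0x614301) (Pf.C 6 0x800303)) Pf.nil)) (Pf.C 6 0x800283)) Pf.nil))) Pf.nil)) (Pf.C 1 130)) (Pf.C 1 131)))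
 Pq.nil)))) Pq.nil)))) (Pq.cons (Pq.L [] 1 (Pf.C 2 128))
 (Pq.cons (Pq.D 2 (Pq.cons (Pq.D 3 (Pq.cons (Pq.L [] 3 (Pf.B 3 2 (Pf.B 2 1 (Pf.W 9 2 [] [0,1] (Pf.cons (Pf.B 4 1 (Pf.W 9 2 [4] [0,1] (Pf.cons (Pf.B 5 1 (Pf.C 4 0x210282) (Pf.W 9 2 [4,5] [0,1] (Pf.cons (Pf.B 6 1 (Pf.C 4 0x210302) (Pf.C 6 0xa00301)) Pf.nil))) Pf.nil)) (Pf.W 9 2 [4] [0,1] (Pf.cons (Pf.B 5 1 (Pf.W 9 2 [4,5] [0,1] (Pf.cons (Pf.B 6 1 (Pf.C 4 0x214302) (Pf.C 6 0x800301)) Pf.nil)) (Pf.C 6 0x800281)) Pf.nil))) Pf.nil)) (Pf.C 1 130)) (Pf.C 1 259)))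
 (Pq.cons (Pq.L [] 4 (Pf.C 2 384))
 (Pq.cons (Pq.L [] 6 (Pf.B 3 2 (Pf.B 2 1 (Pf.W 9 2 [] [0,3] (Pf.cons (Pf.B 4 3 (Pf.W 9 2 [4] [0,3] (Pf.cons (Pf.B 5 3 (Pf.C 4 0x610282) (Pf.W 9 2 [4,5] [0,3] (Pf.cons (Pf.B 6 3 (Pf.C 4 0x610302) (Pf.C 6 0xa00303)) Pf.nil))) Pf.nil)) (Pf.W 9 2 [4] [0,3] (Pf.cons (Pf.B 5 3 (Pf.W 9 2 [4,5] [0,3] (Pf.cons (Pf.B 6 3 (Pf.C 4 0x614302) (Pf.C 6 0x800303)) Pf.nil)) (Pf.C 6 0x800283)) Pf.nil))) Pf.nil)) (Pf.C 1 130)) (Pf.C 1 259)))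
 Pq.nil)))) (Pq.cons (Pq.L [] 2 (Pf.C 2 256))
 (Pq.cons (Pq.D 3 (Pq.cons (Pq.L [] 6 (Pf.B 3 2 (Pf.B 3 1 (Pf.W 9 3 [] [0,2] (Pf.cons (Pf.B 4 2 (Pf.W 9 3 [4] [0,2] (Pf.cons (Pf.B 5 2 (Pf.C 4 0x410283) (Pf.W 9 3 [4,5] [0,2] (Pf.cons (Pf.B 6 2 (Pf.C 4 0x410303) (Pf.C 6 0xa00302)) Pf.nil))) Pf.nil)) (Pf.W 9 3 [4] [0,2] (Pf.cons (Pf.B 5 2 (Pf.W 9 3 [4,5] [0,2] (Pf.cons (Pf.B 6 2 (Pf.C 4 0x414303) (Pf.C 6 0x800302)) Pf.nil)) (Pf.C 6 0x800282)) Pf.nil))) Pf.nil)) (Pf.C 1 131)) (Pf.C 1 259)))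
 (Pq.cons (Pq.L [] 4 (Pf.C 2 384))
 (Pq.cons (Pq.L [] 7 (Pf.C 5 0x608080))
 Pq.nil)))) Pq.nil)))) Pq.nil)))) (Pq.cons (Pq.D 1 (Pq.cons (Pq.L [] 1 (Pf.C 1 128))
 (Pq.cons (Pq.D 2 (Pq.cons (Pq.L [] 2 (Pf.C 1 256))
 (Pq.cons (Pq.D 3 (Pq.cons (Pq.L [] 4 (Pf.C 1 384))
 (Pq.cons (Pq.L [] 7 (Pf.C 6 0x608080))
 (Pq.cons (Pq.L [] 4 (Pf.C 1 384))
 Pq.nil)))) (Pq.cons (Pq.L [] 2 (Pf.C 1 256))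
 Pq.nil)))) (Pq.cons (Pq.L [] 1 (Pf.C 1 128))
 Pq.nil)))) Pq.nil)))) Pq.nil)
theorem b1_o5 : AllRef b1_T b1_G5 (applyObl TD2 1 [11,9,10] [0,0,0] [(11,512),(9,2048)]) :=
  chkPq_sound b1_o5c _ (by decide +kernel)

end Pool.Agent.Lib.MP_849b2e_co
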