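import Pool.Agent.Lib.MP_849b2e_co.AllR
import Pool.Agent.Lib.MP_849b2e_co.Tb1
import Pool.Agent.Lib.MP_849b2e_co.Ob1_0

set_option maxRecDepth 100000
set_option linter.all false
namespace Pool.Agent.Lib.MP_849b2e_co

theorem b1_n7  : Bd b1_T b1_G5 [11,9,10] :=
  r_apply lem_D2 [0,0,0] [(11,512),(9,2048)] (by decide +kernel) b1_o5
theorem b1_n6  : Bd b1_T b1_G4 [11,13,9,10] :=
  r_kill [13] ⟨14,[],[],[]⟩ b1_G5 [11,9,10] (by decide +kernel) b1_o4 b1_n7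
theorem b1_n5  : Bd b1_T b1_G3 [11,12,9,10] :=
  r_hit [12] b1_h5 ⟨13,[],[12],[]⟩ b1_G4 [11,13,9,10] (by decide +kernel) b1_o3 b1_n6
theorem b1_n4  : Bd b1_T b1_G3 [8,9,10] :=
  r_act [0] [11,12,9,10] (by decide +kernel) b1_n5
theorem b1_n3  : Bd b1_T b1_G2 [8,9,10] :=
  r_def 8 2 [9] [] ⟨11,[1],[10,0,0,0,11],[]⟩ b1_G3 [8,9,10] (by decide +kernel) b1_n4
theorem b1_n2  : Bd b1_T b1_G1 [6,7,5] :=
  r_twin 0 [2,5,2] ⟨8,[],[9],[]⟩ b1_G2 [8,9,10] (by decide +kernel) b1_o2 b1_n3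
theorem b1_n1  : Bd b1_T b1_G0 [1,4,5] :=
  r_hit [1,4] b1_h1 ⟨6,[],[8],[]⟩ b1_G1 [6,7,5] (by decide +kernel) b1_o1 b1_n2
theorem b1_n0  : Bd b1_T (pureCtx 3 6) (pureAct 3) :=
  show Bd _ _ [1,2,3] from r_hit [2,3] b1_h0 ⟨4,[],[7],[]⟩ b1_G0 [1,4,5] (by decide +kernel) b1_o0 b1_n1
theorem lem_b1  : Lem b1_T 3 6 := ⟨by decide +kernel, b1_n0⟩

end Pool.Agent.Lib.MP_849b2e_co
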