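import Pool.Agent.Lib.MP_849b2e_co.Rules

set_option maxRecDepth 100000
set_option linter.all false
namespace Pool.Agent.Lib.MP_849b2e_co

noncomputable def bP_ty : Tr Ty := (Tr.br (Tr.br (Tr.br (Tr.br (Tr.br (Tr.br (Tr.br (Tr.leaf ⟨1,0,0,0,0⟩) (Tr.leaf ⟨0x10000080000000115,0x17f000000602,0,1,0⟩)) (Tr.leaf ⟨0x10000102b,0xef80000c4,0,1,1⟩)) (Tr.br (Tr.leaf ⟨69675,0xee0c4,0,1,1⟩) (Tr.leaf ⟨0x100000000102b,0xee000000000c4,0,1,1⟩))) (Tr.br (Tr.br (Tr.leaf ⟨277,1538,0,0,0⟩) (Tr.leaf ⟨0x10000000115,0x1ef000000602,0,1,0⟩)) (Tr.br (Tr.leaf ⟨0x1000115,0x6f00602,0,1,0⟩) (Tr.leaf ⟨0x100000000000115,0x6f0000000000602,0,1,0⟩))))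
 (Tr.br (Tr.br (Tr.br (Tr.br (Tr.leaf ⟨21,2,0,0,0⟩) (Tr.leaf ⟨0x100200000000000115,0x5f0000000000602,0,1,0⟩)) (Tr.leaf ⟨0x1000000115,0x1fe000000602,0,0,0⟩)) (Tr.br (Tr.leaf ⟨0x100115,0x7e00602,0,0,0⟩) (Tr.leaf ⟨0x10000000000115,0x7e0000000000602,0,0,0⟩))) (Tr.br (Tr.br (Tr.leaf ⟨4139,196,0,0,1⟩) (Tr.leaf ⟨0x100000000115,0xff000000602,0,1,0⟩)) (Tr.br (Tr.leaf ⟨0x1000102b,0xfe80000c4,0,0,1⟩) (Tr.leaf ⟨0x1000000002000115,0x5f00602,0,1,0⟩))))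
)
 (Tr.br (Tr.br (Tr.br (Tr.br (Tr.br (Tr.leaf ⟨5,2,0,0,0⟩) (Tr.leaf ⟨0x4000000010000102b,0xef80000c4,0,1,1⟩)) (Tr.leaf ⟨0x40000102b,0xbf80000c4,0,1,1⟩)) (Tr.br (Tr.leaf ⟨0x4102b,0xbe0c4,0,1,1⟩) (Tr.leaf ⟨0x400000000102b,0xbe000000000c4,0,1,1⟩))) (Tr.br (Tr.br (Tr.leaf ⟨1045,770,0,0,0⟩) (Tr.leaf ⟨0x40000000115,0x1bf000000602,0,1,0⟩)) (Tr.br (Tr.leaf ⟨0x4000115,0x3f00602,0,1,0⟩) (Tr.leaf ⟨0x400000000000115,0x3f0000000000602,0,1,0⟩))))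
 (Tr.br (Tr.br (Tr.br (Tr.leaf ⟨75,164,0,0,0⟩) (Tr.leaf ⟨0x4000000115,0x1fb000000602,0,1,0⟩)) (Tr.br (Tr.leaf ⟨0x400115,0x7b00602,0,1,0⟩) (Tr.leaf ⟨0x40000000000115,0x7b0000000000602,0,1,0⟩))) (Tr.br (Tr.br (Tr.leaf ⟨20523,0xfa0c4,0,0,1⟩) (Tr.leaf ⟨0x40000000102b,0xfa000000000c4,1,0,1⟩)) (Tr.br (Tr.leaf ⟨0x4000102b,0xfb80000c4,0,1,1⟩) (Tr.leaf ⟨0x400000040000102b,0xbf80000c4,0,1,1⟩))))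
)
)
 (Tr.br (Tr.br (Tr.br (Tr.br (Tr.br (Tr.br (Tr.leaf ⟨3,4,0,0,0⟩) (Tr.leaf ⟨0x20000020000000115,0x1df000000602,0,1,0⟩)) (Tr.leaf ⟨0x20000102b,0xdf80000c4,0,1,1⟩)) (Tr.br (Tr.leaf ⟨0x2102b,0xde0c4,0,1,1⟩) (Tr.leaf ⟨0x200000000102b,0xde000000000c4,0,1,1⟩))) (Tr.br (Tr.br (Tr.leaf ⟨533,1282,0,0,0⟩) (Tr.leaf ⟨0x20000000115,0x1df000000602,0,1,0⟩)) (Tr.br (Tr.leaf ⟨0x2000115,0x5f00602,0,1,0⟩) (Tr.leaf ⟨0x200000000000115,0x5f0000000000602,0,1,0⟩))))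
 (Tr.br (Tr.br (Tr.br (Tr.leaf ⟨43,196,0,0,0⟩) (Tr.leaf ⟨0x2000000115,0x1fd000000602,0,0,0⟩)) (Tr.br (Tr.leaf ⟨0x200115,0x7d00602,0,0,0⟩) (Tr.leaf ⟨0x20000000000115,0x7d0000000000602,1,0,0⟩))) (Tr.br (Tr.br (Tr.leaf ⟨12331,0xfc0c4,0,0,1⟩) (Tr.leaf ⟨0x20000000102b,0xfc000000000c4,0,0,1⟩)) (Tr.br (Tr.leaf ⟨0x2000102b,0xfd80000c4,0,1,1⟩) (Tr.leaf ⟨0x200000020000102b,0xdf80000c4,0,1,1⟩))))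
)
 (Tr.br (Tr.br (Tr.br (Tr.br (Tr.br (Tr.leaf ⟨11,4,0,0,0⟩) (Tr.leaf ⟨0x8000200000000102b,0xde000000000c4,0,1,1⟩)) (Tr.leaf ⟨0x80000102b,0x7f80000c4,0,1,1⟩)) (Tr.br (Tr.leaf ⟨0x8102b,0x7e0c4,0,1,1⟩) (Tr.leaf ⟨0x800000000102b,0x7e000000000c4,0,1,1⟩))) (Tr.br (Tr.br (Tr.leaf ⟨2091,196,0,0,0⟩) (Tr.leaf ⟨0x80000000115,0x17f000000602,0,1,0⟩)) (Tr.br (Tr.leaf ⟨0x800102b,0xff00000c4,0,0,1⟩) (Tr.leaf ⟨0x80000000004102b,0xbe0c4,0,1,1⟩))))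
 (Tr.br (Tr.br (Tr.br (Tr.leaf ⟨139,100,0,0,0⟩) (Tr.leaf ⟨0x8000000115,0x1f7000000602,0,1,0⟩)) (Tr.br (Tr.leaf ⟨0x800115,0x7700602,0,1,0⟩) (Tr.leaf ⟨0x80000000000115,0x770000000000602,0,1,0⟩))) (Tr.br (Tr.br (Tr.leaf ⟨36907,0xf60c4,0,1,1⟩) (Tr.leaf ⟨0x80000000102b,0xf6000000000c4,0,1,1⟩)) (Tr.br (Tr.leaf ⟨0x8000102b,0xf780000c4,0,1,1⟩) (Tr.leaf ⟨0x8000040000000115,0x1bf000000602,0,1,0⟩))))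
)
)
)

noncomputable def bP_ev : Tr Ev := (Tr.br (Tr.br (Tr.leaf ⟨4,[8,9,10],0⟩) (Tr.leaf ⟨12,[46,47,48,49,50,51],0⟩))
 (Tr.br (Tr.leaf ⟨5,[12],1⟩) (Tr.leaf ⟨8,[53,54,55,56,57,58],0⟩))
)

noncomputable def bP_ax : Tr Ax := (Tr.br (Tr.br (Tr.br (Tr.br (Tr.br (Tr.br (Tr.br (Tr.leaf ⟨[1,1,1,1,1,1],[⟨0,1,true⟩,⟨0,2,true⟩,⟨0,3,true⟩,⟨0,4,false⟩,⟨0,5,false⟩,⟨1,2,false⟩,⟨1,3,false⟩,⟨1,4,false⟩,⟨1,5,false⟩,⟨2,3,false⟩,⟨2,4,false⟩,⟨2,5,false⟩,⟨3,4,false⟩,⟨3,5,false⟩,⟨4,5,true⟩],[],0⟩) (Tr.leaf ⟨[0x80000000,0x20000000000,0x20000000000],[⟨0,1,true⟩,⟨0,2,true⟩],[],0⟩)) (Tr.leaf ⟨[0x8000000000,0xf00000000],[⟨0,1,false⟩],[],0⟩)) (Tr.br (Tr.leaf ⟨[0x800000,0xc0000],[⟨0,1,false⟩],[],0⟩) (Tr.leaf ⟨[0x800000000000],[],[⟨53,[(0,false)]⟩],0⟩)))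 (Tr.br (Tr.br (Tr.leaf ⟨[8192,0x7cf8000],[⟨0,1,true⟩],[],0⟩) (Tr.leaf ⟨[0x4000000000],[],[⟨28,[(0,true)]⟩],0⟩)) (Tr.br (Tr.leaf ⟨[0x1000000],[],[⟨16,[(0,true)]⟩],0⟩) (Tr.leaf ⟨[0x20000,0x2000000,0x2000000],[⟨0,1,true⟩,⟨0,2,true⟩],[],0⟩))))
 (Tr.br (Tr.br (Tr.br (Tr.br (Tr.leaf ⟨[512,288],[⟨0,1,true⟩],[],0⟩) (Tr.leaf ⟨[0x80000000000000000],[],[],0⟩)) (Tr.leaf ⟨[0x80000000],[],[⟨39,[(0,false)]⟩],0⟩)) (Tr.br (Tr.leaf ⟨[0x20000],[],[⟨23,[(0,false)]⟩],0⟩) (Tr.leaf ⟨[0x40000000000000],[],[⟨46,[(0,true)]⟩],0⟩))) (Tr.br (Tr.br (Tr.leaf ⟨[0x20000,0x4080000],[⟨0,1,true⟩],[],0⟩) (Tr.leaf ⟨[0x40000000000],[],[⟨32,[(0,true)]⟩],0⟩)) (Tr.br (Tr.leaf ⟨[0x40000000,0x1e0f00000000],[⟨0,1,true⟩],[],0⟩) (Tr.leaf ⟨[0x2000000000000000],[],[],0⟩))))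
)
 (Tr.br (Tr.br (Tr.br (Tr.br (Tr.br (Tr.leaf ⟨[4,4],[⟨0,1,true⟩],[],0⟩) (Tr.leaf ⟨[0x10000000000,0x100000000,0x100000000],[⟨0,1,false⟩,⟨0,2,false⟩],[],0⟩)) (Tr.leaf ⟨[0x20000000],[],[⟨37,[(0,false)]⟩],0⟩)) (Tr.br (Tr.leaf ⟨[32768],[],[⟨21,[(0,false)]⟩],0⟩) (Tr.leaf ⟨[0x2000000000000],[],[⟨55,[(0,false)]⟩],0⟩))) (Tr.br (Tr.br (Tr.leaf ⟨[32768,0x70e0000],[⟨0,1,true⟩],[],0⟩) (Tr.leaf ⟨[0x10000000000],[],[⟨30,[(0,true)]⟩],0⟩)) (Tr.br (Tr.leaf ⟨[0x10000000,0x1f8fc0000000],[⟨0,1,true⟩],[],0⟩) (Tr.leaf ⟨[0x800000000000000],[],[],0⟩))))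
 (Tr.br (Tr.br (Tr.br (Tr.leaf ⟨[256],[],[⟨5,[(0,false)]⟩],0⟩) (Tr.leaf ⟨[0x200000000],[],[⟨41,[(0,false)]⟩],0⟩)) (Tr.br (Tr.leaf ⟨[0x400000],[],[⟨14,[(0,true)]⟩],0⟩) (Tr.leaf ⟨[0x100000000000000],[],[⟨48,[(0,true)]⟩],0⟩))) (Tr.br (Tr.br (Tr.leaf ⟨[0x200000,0xf0000],[⟨0,1,false⟩],[],0⟩) (Tr.leaf ⟨[0x800000000000,0x70e000000000000],[⟨0,1,true⟩],[],0⟩)) (Tr.br (Tr.leaf ⟨[0x2000000000,0xfc0000000],[⟨0,1,false⟩],[],0⟩) (Tr.leaf ⟨[0x4000000000000000],[],[],0⟩))))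
)
)
 (Tr.br (Tr.br (Tr.br (Tr.br (Tr.br (Tr.br (Tr.leaf ⟨[2,2],[⟨0,1,true⟩],[],0⟩) (Tr.leaf ⟨[0x20000000000000000],[],[],0⟩)) (Tr.leaf ⟨[0x10000000000,0xe00000000],[⟨0,1,false⟩],[],0⟩)) (Tr.br (Tr.leaf ⟨[0x1000000,0x80000],[⟨0,1,false⟩],[],0⟩) (Tr.leaf ⟨[0x1000000000000],[],[⟨54,[(0,false)]⟩],0⟩))) (Tr.br (Tr.br (Tr.leaf ⟨[16384,0x78f0000],[⟨0,1,true⟩],[],0⟩) (Tr.leaf ⟨[0x8000000000],[],[⟨29,[(0,true)]⟩],0⟩)) (Tr.br (Tr.leaf ⟨[0x2000000],[],[⟨17,[(0,true)]⟩],0⟩) (Tr.leaf ⟨[0x1000000,0x40000,0x40000],[⟨0,1,false⟩,⟨0,2,false⟩],[],0⟩))))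
 (Tr.br (Tr.br (Tr.br (Tr.br (Tr.leaf ⟨[1024,32],[⟨0,1,false⟩],[],0⟩) (Tr.leaf ⟨[0x100000000000000000],[],[],0⟩)) (Tr.leaf ⟨[0x100000000],[],[⟨40,[(0,false)]⟩],0⟩)) (Tr.br (Tr.leaf ⟨[0x40000],[],[⟨24,[(0,false)]⟩],0⟩) (Tr.leaf ⟨[0x80000000000000],[],[⟨47,[(0,true)]⟩],0⟩))) (Tr.br (Tr.br (Tr.leaf ⟨[0x100000,0xf8000],[⟨0,1,false⟩],[],0⟩) (Tr.leaf ⟨[0x80000000000],[],[⟨33,[(0,true)]⟩],0⟩)) (Tr.br (Tr.leaf ⟨[0x80000000,0x1c0e00000000],[⟨0,1,true⟩],[],0⟩) (Tr.leaf ⟨[0x8000000000000000],[],[],0⟩))))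
)
 (Tr.br (Tr.br (Tr.br (Tr.br (Tr.br (Tr.leaf ⟨[8,8],[⟨0,1,false⟩],[⟨4,[(0,true),(1,false)]⟩,⟨4,[(0,false),(1,true)]⟩],0⟩) (Tr.leaf ⟨[0x40000000000000000],[],[],0⟩)) (Tr.leaf ⟨[0x40000000],[],[⟨38,[(0,false)]⟩],0⟩)) (Tr.br (Tr.leaf ⟨[65536],[],[⟨22,[(0,false)]⟩],0⟩) (Tr.leaf ⟨[0x4000000000000],[],[⟨56,[(0,false)]⟩],0⟩))) (Tr.br (Tr.br (Tr.leaf ⟨[65536,0x60c0000],[⟨0,1,true⟩],[],0⟩) (Tr.leaf ⟨[0x20000000000],[],[⟨31,[(0,true)]⟩],0⟩)) (Tr.br (Tr.leaf ⟨[0x20000000,0x1f0f80000000],[⟨0,1,true⟩],[],0⟩) (Tr.leaf ⟨[0x1000000000000000],[],[],0⟩))))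
 (Tr.br (Tr.br (Tr.br (Tr.leaf ⟨[32,2048,256],[⟨0,2,false⟩,⟨1,2,true⟩],[⟨8,[(0,true),(1,false)]⟩],0⟩) (Tr.leaf ⟨[0x400000000],[],[⟨42,[(0,false)]⟩],0⟩)) (Tr.br (Tr.leaf ⟨[0x800000],[],[⟨15,[(0,true)]⟩],0⟩) (Tr.leaf ⟨[0x200000000000000],[],[⟨49,[(0,true)]⟩],0⟩))) (Tr.br (Tr.br (Tr.leaf ⟨[0x400000,0xe0000],[⟨0,1,false⟩],[],0⟩) (Tr.leaf ⟨[0x20000000000000,0xf000000000000],[⟨0,1,false⟩],[],0⟩)) (Tr.br (Tr.leaf ⟨[0x4000000000,0xf80000000],[⟨0,1,false⟩],[],0⟩) (Tr.leaf ⟨[0x10000000000000000],[],[],0⟩))))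
)
)
)

noncomputable def bP_sc : Tr Sc := (Tr.leaf ⟨[5,8],[2,0]⟩)
noncomputable def bP_T : Tab := ⟨69,bP_ty,bP_ev,bP_ax,bP_sc⟩
def bP_S0 : St := ⟨0,0,0,0,0⟩
def bP_G0 : Ctx := ⟨5,0,15,0,0,bP_S0,none⟩
def bP_G1 : Ctx := ⟨11,1,127,1,0,bP_S0,none⟩
def bP_G2 : Ctx := ⟨11,1,127,1,32,bP_S0,none⟩
def bP_S1 : St := ⟨1,2091,0,0,1⟩
def bP_G3 : Ctx := ⟨12,1,255,1,0,bP_S1,none⟩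
def bP_G4 : Ctx := ⟨11,1,127,1,288,bP_S0,none⟩
def bP_G5 : Ctx := ⟨13,3,255,1,0,bP_S1,none⟩
def bP_G6 : Ctx := ⟨27,3,0x3ffffff,1,0,bP_S1,some ([13,14,15,16,20,21,22,23],[19,26])⟩
def bP_G7 : Ctx := ⟨45,3,0x3ffffc0000ff,1,0,bP_S1,none⟩
def bP_G8 : Ctx := ⟨59,15,0xffc000000000ff,1,0,bP_S1,none⟩
def bP_G9 : Ctx := ⟨27,3,0x100000003ffffff,1,0,bP_S1,some ([13,14,15,16,20,21,22,23],[19,26])⟩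
def bP_G10 : Ctx := ⟨27,3,0x300000003ffffff,1,0,bP_S1,some ([13,14,15,16,20,21,22,23],[19,26])⟩
def bP_G11 : Ctx := ⟨61,3,0xf00000003ffffff,1,0,bP_S1,some ([13,14,15,16,20,21,22,23],[19,26])⟩
def bP_G12 : Ctx := ⟨61,3,0xf00000003ffffff,1,0x1800000000000000,bP_S1,some ([13,14,15,16,20,21,22,23],[19,26])⟩
def bP_G13 : Ctx := ⟨65,3,0xf0003ffffc0000ff,1,0,bP_S1,none⟩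
def bP_G14 : Ctx := ⟨65,3,0xf0003ffffc0000ff,1,0x1e000000000000000,bP_S1,none⟩
def bP_G15 : Ctx := ⟨65,3,0x1f0003ffffc0000ff,1,0x1e000000000000000,bP_S1,none⟩
def bP_G16 : Ctx := ⟨66,3,0x3f0003ffffc0000ff,1,0x1e000000000000000,bP_S1,none⟩
def bP_G17 : Ctx := ⟨66,3,0x3f0003ffffc0000ff,1,0x3e000000000000000,bP_S1,none⟩
def bP_G18 : Ctx := ⟨65,3,0x4f0003ffffc0000ff,1,0x1e000000000000000,bP_S1,none⟩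
def bP_G19 : Ctx := ⟨67,3,0xcf0003ffffc0000ff,1,0x1e000000000000000,bP_S1,none⟩
def bP_G20 : Ctx := ⟨67,3,0xcf0003ffffc0000ff,1,0x5e000000000000000,bP_S1,none⟩
def bP_G21 : Ctx := ⟨59,15,0xffc000000000ff,1,0x145400000000000,bP_S1,none⟩
def bP_G22 : Ctx := ⟨69,15,0x3000ffc000000000ff,1,0x145400000000000,bP_S1,none⟩
def bP_G23 : Ctx := ⟨69,15,0x3000ffc000000000ff,1,0x180145400000000000,bP_S1,none⟩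
def bP_h10 : List HP := [⟨[0],[],(HT.br true 0 0 (HT.leaf 4) (HT.leaf 2))⟩,⟨[1],[],(HT.br true 0 0 (HT.leaf 4) (HT.leaf 2))⟩]
def bP_h13 : List HP := [⟨[0],[],(HT.br true 0 0 (HT.leaf 3) (HT.leaf 2))⟩,⟨[2],[],(HT.br true 0 0 (HT.leaf 3) (HT.leaf 2))⟩,⟨[1],[],(HT.br true 0 0 (HT.leaf 2) (HT.leaf 2))⟩,⟨[3],[],(HT.br true 0 0 (HT.leaf 2) (HT.leaf 2))⟩]
def bP_h17 : List HP := [⟨[0],[],(HT.br true 0 0 (HT.leaf 4) (HT.leaf 2))⟩]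
def bP_h21 : List HP := [⟨[0],[],(HT.br true 0 0 (HT.leaf 4) (HT.leaf 2))⟩]
def bP_h25 : List HP := [⟨[0],[],(HT.br true 0 0 (HT.leaf 4) (HT.leaf 2))⟩,⟨[1],[],(HT.br true 0 0 (HT.leaf 3) (HT.leaf 2))⟩]

end Pool.Agent.Lib.MP_849b2e_co
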