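import Pool.Agent.Lib.MP_849b2e_co.Fast
import Pool.Agent.Lib.MP_849b2e_co.TbP
import Pool.Agent.Lib.MP_849b2e_co.RApply
import Pool.Agent.Lib.MP_849b2e_co.Tb1

set_option maxRecDepth 100000
set_option linter.all false
namespace Pool.Agent.Lib.MP_849b2e_co

noncomputable def bP_o0c : Pq := (Pq.cons (Pq.L [] 2 (Pf.C 1 256))
 (Pq.cons (Pq.L [] 2 (Pf.C 2 256))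
 Pq.nil))
theorem bP_o0 : AllRef bP_T (pureCtx 2 3) (twinObl [1,2] 0 [2,1]) :=
  chkPq_sound bP_o0c _ (by decide +kernel)
noncomputable def bP_o1c : Pq := (Pq.cons (Pq.L [] 1 (Pf.C 1 128))
 (Pq.cons (Pq.L [] 1 (Pf.C 2 128))
 (Pq.cons (Pq.L [] 1 (Pf.C 1 128))
 (Pq.cons (Pq.L [] 1 (Pf.C 2 128))
 Pq.nil))))
theorem bP_o1 : AllRef bP_T bP_G0 (blockObl [3,4] [2,0] [2,1] [2,1]) :=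
  chkPq_sound bP_o1c _ (by decide +kernel)
noncomputable def bP_o2c : Pq := Pq.nil
theorem bP_o2 : AllRef bP_T bP_G1 (extObl 5 [] []) :=
  chkPq_sound bP_o2c _ (by decide +kernel)
noncomputable def bP_o3c : Pq := (Pq.cons (Pq.L [] 0 (Pf.W 6 0 [] [] Pf.nil))
 Pq.nil)
theorem bP_o3 : AllRef bP_T bP_G2 (List.map pat1 [8]) :=
  chkPq_sound bP_o3c _ (by decide +kernel)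
noncomputable def bP_o4c : Pq := Pq.nil
theorem bP_o4 : AllRef bP_T bP_G3 (ptObl 5 PT.kid []) :=
  chkPq_sound bP_o4c _ (by decide +kernel)
noncomputable def bP_o5c : Pq := (Pq.cons (Pq.L [] 1 (Pf.C 1 257))
 (Pq.cons (Pq.L [] 1 (Pf.C 2 257))
 Pq.nil))
theorem bP_o5 : AllRef bP_T bP_G5 (winObl (bP_T.sc.get 0) false [12,8] [0,1] [2,1]) :=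
  chkPq_sound bP_o5c _ (by decide +kernel)
noncomputable def bP_o6c : Pq := (Pq.cons (Pq.L [] 3 (Pf.B 3 2 (Pf.W 20 1 [] [2,3] (Pf.cons (Pf.B 4 3 (Pf.B 4 2 (Pf.W 23 4 [] [1,2,3] (Pf.cons (Pf.B 5 3 (Pf.B 5 2 (Pf.B 5 1 (Pf.W 18 5 [] [1,2,3,4] (Pf.cons (Pf.B 6 4 (Pf.B 6 3 (Pf.B 6 2 (Pf.B 6 1 (Pf.C 14 134) (Pf.C 0 0x2840608301)) (Pf.C 2 262)) (Pf.C 2 390)) (Pf.C 2 518)) Pf.nil)) (Pf.C 1 133)) (Pf.C 10 261)) (Pf.C 10 389)) Pf.nil)) (Pf.C 2 260)) (Pf.C 2 388)) Pf.nil)) (Pf.C 2 259)))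
 Pq.nil)
theorem bP_o6 : AllRef bP_T bP_G6 [⟨[[17],[25],[25]],[⟨0,1,true⟩,⟨0,2,true⟩],[],[]⟩] :=
  chkPq_sound bP_o6c _ (by decide +kernel)
noncomputable def bP_o7c : Pq := (Pq.cons (Pq.L [] 3 (Pf.B 3 2 (Pf.W 24 1 [] [2,3] (Pf.cons (Pf.B 4 3 (Pf.B 4 2 (Pf.W 19 4 [] [1,2,3] (Pf.cons (Pf.B 5 3 (Pf.C 15 389) (Pf.B 5 2 (Pf.C 15 261) (Pf.B 5 1 (Pf.W 22 5 [] [1,2,3,4] (Pf.cons (Pf.B 6 4 (Pf.B 6 3 (Pf.B 6 2 (Pf.B 6 1 (Pf.C 0 0x2010608305) (Pf.C 9 134)) (Pf.C 1 262)) (Pf.C 1 390)) (Pf.C 1 518)) Pf.nil)) (Pf.C 2 133)))) Pf.nil)) (Pf.C 1 260)) (Pf.C 1 388)) Pf.nil)) (Pf.C 1 259)))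
 Pq.nil)
theorem bP_o7 : AllRef bP_T bP_G9 [⟨[[24],[18],[18]],[⟨0,1,false⟩,⟨0,2,false⟩],[],[]⟩] :=
  chkPq_sound bP_o7c _ (by decide +kernel)
noncomputable def bP_o8c : Pq := (Pq.cons (Pq.L [] 0 (Pf.W 21 4 [] [1,2,3] (Pf.cons (Pf.B 5 3 (Pf.C 57 65925) (Pf.B 5 2 (Pf.C 57 65797) (Pf.B 5 1 (Pf.C 57 65669) (Pf.W 21 1 [] [2,3,4,5] (Pf.cons (Pf.B 6 5 (Pf.B 6 4 (Pf.C 57 16902) (Pf.B 6 3 (Pf.C 57 16774) (Pf.B 6 2 (Pf.C 57 16646) (Pf.W 21 2 [] [3,4,5,6] (Pf.cons (Pf.B 7 6 (Pf.B 7 5 (Pf.B 7 4 (Pf.C 57 33287) (Pf.B 7 3 (Pf.C 57 33159) (Pf.W 21 3 [] [4,5,6,7] (Pf.cons (Pf.B 8 7 (Pf.B 8 6 (Pf.B 8 5 (Pf.B 8 4 (Pf.C 57 49672) (Pf.W 24 5 [] [4,6,7,8] (Pf.cons (Pf.B 9 4 (Pf.B 9 8 (Pf.B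 9 7 (Pf.W 19 9 [] [4,5,7,8] (Pf.cons (Pf.B 10 8 (Pf.B 10 7 (Pf.B 10 5 (Pf.B 10 4 (Pf.C 15 522) (Pf.C 0 0x485101c504)) (Pf.C 2 650)) (Pf.C 2 906)) (Pf.C 2 1034)) Pf.nil)) (Pf.B 9 6 (Pf.W 19 9 [] [4,5,6,8] (Pf.cons (Pf.B 10 8 (Pf.B 10 6 (Pf.B 10 5 (Pf.B 10 4 (Pf.C 15 522) (Pf.C 0 0x4851018504)) (Pf.C 2 650)) (Pf.C 2 778)) (Pf.C 2 1034)) Pf.nil)) (Pf.W 19 9 [] [5,6,7] (Pf.cons (Pf.B 10 7 (Pf.B 10 6 (Pf.B 10 5 (Pf.W 22 10 [] [5,6,7,9] (Pf.cons (Pf.B 11 9 (Pf.B 11 7 (Pf.B 11 6 (Pf.B 11 5 (Pf.C 0 0x50b0e18289) (Pf.C 9 651)) (Pf.C 9 779)) (Pf.C 9 907)) (Pf.C 1 1163)) Pf.nil)) (Pf.C 2 650)) (Pf.C 2 778)) (Pf.C 2 906)) Pf.nil)))) (Pf.B 9 7 (Pf.B 9 6 (Pf.W 19 9 [] [4,5,6,7] (Pf.cons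 (Pf.B 10 7 (Pf.B 10 6 (Pf.B 10 5 (Pf.B 10 4 (Pf.C 15 522) (Pf.C 0 0x4850e18504)) (Pf.C 2 650)) (Pf.C 2 778)) (Pf.C 2 906)) Pf.nil)) (Pf.W 19 9 [] [5,6,8] (Pf.cons (Pf.B 10 8 (Pf.B 10 6 (Pf.B 10 5 (Pf.W 22 10 [] [5,6,8,9] (Pf.cons (Pf.B 11 9 (Pf.B 11 8 (Pf.B 11 6 (Pf.B 11 5 (Pf.C 0 0x50b1018289) (Pf.C 9 651)) (Pf.C 9 779)) (Pf.C 9 1035)) (Pf.C 1 1163)) Pf.nil)) (Pf.C 2 650)) (Pf.C 2 778)) (Pf.C 2 1034)) Pf.nil))) (Pf.W 19 9 [] [5,7,8] (Pf.cons (Pf.B 10 8 (Pf.B 10 7 (Pf.B 10 5 (Pf.W 22 10 [] [5,7,8,9] (Pf.cons (Pf.B 11 9 (Pf.B 11 8 (Pf.B 11 7 (Pf.B 11 5 (Pf.C 0 0x50b101c289) (Pf.C 9 651)) (Pf.C 9 907)) (Pf.C 9 1035)) (Pf.C 1 1163)) Pf.nil)) (Pf.C 2 650)) (Pf.C 2 906))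 (Pf.C 2 1034)) Pf.nil)))) (Pf.C 1 521)) Pf.nil))) (Pf.C 2 648)) (Pf.C 2 776)) (Pf.C 2 904)) Pf.nil)))) (Pf.C 2 647)) (Pf.C 2 775)) Pf.nil))))) (Pf.C 2 646)) Pf.nil))))) Pf.nil)))
 (Pq.cons (Pq.L [] 1 (Pf.C 1 257))
 (Pq.cons (Pq.L [] 0 (Pf.W 25 1 [] [2,3,4] (Pf.cons (Pf.B 5 4 (Pf.B 5 3 (Pf.B 5 2 (Pf.W 25 2 [] [1,3,4,5] (Pf.cons (Pf.B 6 5 (Pf.B 6 4 (Pf.B 6 3 (Pf.B 6 1 (Pf.W 25 3 [] [1,2,4,5,6] (Pf.cons (Pf.B 7 6 (Pf.B 7 5 (Pf.B 7 4 (Pf.B 7 2 (Pf.B 7 1 (Pf.W 25 4 [] [1,2,3,5,6,7] (Pf.cons (Pf.B 8 7 (Pf.B 8 6 (Pf.B 8 5 (Pf.B 8 3 (Pf.B 8 2 (Pf.B 8 1 (Pf.W 20 5 [] [1,2,3,4,6,7,8] (Pf.cons (Pf.B 9 4 (Pf.B 9 3 (Pf.B 9 2 (Pf.B 9 1 (Pf.B 9 8 (Pf.B 9 7 (Pf.W 23 9 [] [5,7,8] (Pf.cons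 (Pf.B 10 8 (Pf.B 10 7 (Pf.B 10 5 (Pf.W 18 10 [] [5,7,8,9] (Pf.cons (Pf.B 11 9 (Pf.B 11 8 (Pf.C 14 1035) (Pf.B 11 7 (Pf.C 14 907) (Pf.B 11 5 (Pf.C 14 651) (Pf.C 0 0x509101c28b)))) (Pf.C 2 1163)) Pf.nil)) (Pf.C 1 650)) (Pf.C 1 906)) (Pf.C 1 1034)) Pf.nil)) (Pf.B 9 6 (Pf.W 23 9 [] [5,6,8] (Pf.cons (Pf.B 10 8 (Pf.B 10 6 (Pf.B 10 5 (Pf.W 18 10 [] [5,6,8,9] (Pf.cons (Pf.B 11 9 (Pf.B 11 8 (Pf.C 14 1035) (Pf.B 11 6 (Pf.C 14 779) (Pf.B 11 5 (Pf.C 14 651) (Pf.C 0 0x509101828b)))) (Pf.C 2 1163)) Pf.nil)) (Pf.C 1 650)) (Pf.C 1 778)) (Pf.C 1 1034)) Pf.nil)) (Pf.W 23 9 [] [4,6,7,8] (Pf.cons (Pf.B 10 8 (Pf.B 10 7 (Pf.B 10 6 (Pf.B 10 4 (Pf.C 0 0x4040e18509) (Pf.C 10 522)) (Pf.C 1 778))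 (Pf.C 1 906)) (Pf.C 1 1034)) Pf.nil)))) (Pf.B 9 7 (Pf.B 9 6 (Pf.W 23 9 [] [5,6,7] (Pf.cons (Pf.B 10 7 (Pf.B 10 6 (Pf.B 10 5 (Pf.W 18 10 [] [5,6,7,9] (Pf.cons (Pf.B 11 9 (Pf.B 11 7 (Pf.C 14 907) (Pf.B 11 6 (Pf.C 14 779) (Pf.B 11 5 (Pf.C 14 651) (Pf.C 0 0x5090e1828b)))) (Pf.C 2 1163)) Pf.nil)) (Pf.C 1 650)) (Pf.C 1 778)) (Pf.C 1 906)) Pf.nil)) (Pf.W 23 9 [] [3,6,7,8] (Pf.cons (Pf.B 10 8 (Pf.B 10 7 (Pf.B 10 6 (Pf.B 10 3 (Pf.C 0 0x3831018509) (Pf.C 10 394)) (Pf.C 1 778)) (Pf.C 1 906)) (Pf.C 1 1034)) Pf.nil))) (Pf.B 9 6 (Pf.W 23 9 [] [2,6,7,8] (Pf.cons (Pf.B 10 8 (Pf.B 10 7 (Pf.B 10 6 (Pf.B 10 2 (Pf.C 0 0x302101c509) (Pf.C 10 266)) (Pf.C 1 778)) (Pf.C 1 906)) (Pf.C 1 1034))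 Pf.nil)) (Pf.C 0 0x281101c309)))) (Pf.C 2 137)) (Pf.C 2 265)) (Pf.C 2 393)) (Pf.C 2 521)) Pf.nil)) (Pf.C 56 65672)) (Pf.C 56 65800)) (Pf.C 56 65928)) (Pf.C 1 648)) (Pf.C 1 776)) (Pf.C 1 904)) Pf.nil)) (Pf.C 56 49287)) (Pf.C 56 49415)) (Pf.C 56 49671)) (Pf.C 1 647)) (Pf.C 1 775)) Pf.nil)) (Pf.C 56 32902)) (Pf.C 56 33158)) (Pf.C 56 33286)) (Pf.C 1 646)) Pf.nil)) (Pf.C 56 16645)) (Pf.C 56 16773)) (Pf.C 56 16901)) Pf.nil)))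
 (Pq.cons (Pq.L [] 1 (Pf.C 2 257))
 Pq.nil))))
theorem bP_o8 : AllRef bP_T bP_G10 (hitObl [18,25] bP_h10) :=
  chkPq_sound bP_o8c _ (by decide +kernel)
noncomputable def bP_o9c : Pq := (Pq.cons (Pq.L [] 0 (Pf.C 58 1))
 (Pq.cons (Pq.L [] 0 (Pf.C 59 1))
 Pq.nil))
theorem bP_o9 : AllRef bP_T bP_G11 (List.map pat1 [59,60]) :=
  chkPq_sound bP_o9c _ (by decide +kernel)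
noncomputable def bP_o10c : Pq := (Pq.cons (Pq.L [] 1 (Pf.C 1 257))
 (Pq.cons (Pq.L [] 1 (Pf.C 8 130))
 (Pq.cons (Pq.L [] 2 (Pf.C 13 131))
 (Pq.cons (Pq.L [] 1 (Pf.C 2 257))
 (Pq.cons (Pq.L [] 1 (Pf.C 1 257))
 (Pq.cons (Pq.L [] 1 (Pf.C 9 130))
 (Pq.cons (Pq.L [] 2 (Pf.C 14 131))
 (Pq.cons (Pq.L [] 1 (Pf.C 2 257))
 (Pq.cons (Pq.L [] 1 (Pf.C 1 257))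
 (Pq.cons (Pq.L [] 1 (Pf.C 10 130))
 (Pq.cons (Pq.L [] 2 (Pf.C 15 131))
 (Pq.cons (Pq.L [] 1 (Pf.C 2 257))
 (Pq.cons (Pq.L [] 1 (Pf.C 1 257))
 (Pq.cons (Pq.L [] 1 (Pf.C 11 130))
 (Pq.cons (Pq.L [] 2 (Pf.C 16 131))
 (Pq.cons (Pq.L [] 1 (Pf.C 2 257))
 (Pq.cons (Pq.L [] 1 (Pf.C 1 257))
 (Pq.cons (Pq.L [] 1 (Pf.C 12 130))
 (Pq.cons (Pq.L [] 2 (Pf.C 17 131))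
 (Pq.cons (Pq.L [] 1 (Pf.C 2 257))
 Pq.nil))))))))))))))))))))
theorem bP_o10 : AllRef bP_T bP_G12 (splitObl [13,20,14,21,15,22,16,23,17,24] [19,26]) :=
  chkPq_sound bP_o10c _ (by decide +kernel)
noncomputable def bP_o11c : Pq := (Pq.cons (Pq.L [] 7 (Pf.W 38 3 [] [1,2] (Pf.cons (Pf.B 4 2 (Pf.W 43 4 [] [2,3] (Pf.cons (Pf.B 5 3 (Pf.B 5 2 (Pf.W 36 5 [] [2,3,4] (Pf.cons (Pf.B 6 4 (Pf.B 6 3 (Pf.C 32 390) (Pf.B 6 2 (Pf.C 32 262) (Pf.W 41 6 [] [2,3,4,5] (Pf.cons (Pf.B 7 5 (Pf.B 7 4 (Pf.B 7 3 (Pf.B 7 2 (Pf.C 0 0x2840608386) (Pf.C 1 263)) (Pf.C 1 391)) (Pf.C 27 519)) (Pf.C 1 647)) Pf.nil)))) (Pf.C 2 518)) Pf.nil)) (Pf.C 1 261)) (Pf.C 1 389)) Pf.nil)) (Pf.B 4 1 (Pf.W 43 4 []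 [1,3] (Pf.cons (Pf.B 5 3 (Pf.B 5 1 (Pf.W 36 5 [] [1,3,4] (Pf.cons (Pf.B 6 4 (Pf.B 6 3 (Pf.C 32 390) (Pf.B 6 1 (Pf.C 32 134) (Pf.W 41 6 [] [1,3,4,5] (Pf.cons (Pf.B 7 5 (Pf.B 7 4 (Pf.B 7 3 (Pf.B 7 1 (Pf.C 0 0x2840604386) (Pf.C 1 135)) (Pf.C 1 391)) (Pf.C 27 519)) (Pf.C 1 647)) Pf.nil)))) (Pf.C 2 518)) Pf.nil)) (Pf.C 1 133)) (Pf.C 1 389)) Pf.nil)) (Pf.W 38 1 [] [2,3,4] (Pf.cons (Pf.B 5 4 (Pf.B 5 3 (Pf.B 5 2 (Pf.W 43 5 [] [1,2,3] (Pf.cons (Pf.B 6 3 (Pf.B 6 2 (Pf.B 6 1 (Pf.W 36 6 [] [1,2,3,5] (Pf.cons (Pf.B 7 5 (Pf.B 7 3 (Pf.C 32 391) (Pf.B 7 2 (Pf.C 32 263) (Pf.B 7 1 (Pf.C 32 135) (Pf.C 0 0x3050608087)))) (Pf.C 2 647)) Pf.nil)) (Pf.C 1 134)) (Pf.C 1 262)) (Pf.C 1 390))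 Pf.nil)) (Pf.W 38 2 [] [1,3,4,5] (Pf.cons (Pf.B 6 5 (Pf.B 6 4 (Pf.B 6 3 (Pf.B 6 1 (Pf.W 43 4 [] [1,2,3,5,6] (Pf.cons (Pf.B 7 3 (Pf.B 7 2 (Pf.B 7 1 (Pf.B 7 6 (Pf.B 7 5 (Pf.W 43 5 [] [1,2,3,4,6,7] (Pf.cons (Pf.B 8 7 (Pf.B 8 3 (Pf.B 8 2 (Pf.B 8 1 (Pf.B 8 6 (Pf.B 8 4 (Pf.W 43 6 [] [1,2,3,4,5,7,8] (Pf.cons (Pf.B 9 8 (Pf.B 9 7 (Pf.B 9 3 (Pf.B 9 2 (Pf.B 9 1 (Pf.B 9 4 (Pf.C 0 0x3090e08084) (Pf.B 9 5 (Pf.C 0 0x4050e04484) (Pf.W 36 9 [] [3,4,5,6] (Pf.cons (Pf.B 10 6 (Pf.B 10 5 (Pf.B 10 4 (Pf.B 10 3 (Pf.C 32 394) (Pf.C 0 0x18a0c14209)) (Pf.C 2 522)) (Pf.C 2 650)) (Pf.C 2 778)) Pf.nil)))) (Pf.C 1 137)) (Pf.C 1 265)) (Pf.C 1 393)) (Pf.C 1 905)) (Pf.C 1 1033)) Pf.nil)) (Pf.W 43 6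 [] [1,2,3,4,5,7,8] (Pf.cons (Pf.B 9 8 (Pf.B 9 7 (Pf.B 9 3 (Pf.B 9 2 (Pf.B 9 4 (Pf.C 0 0x309101c104) (Pf.B 9 1 (Pf.B 9 5 (Pf.W 36 8 [] [1,2,3,5,6,9] (Pf.cons (Pf.B 10 6 (Pf.B 10 5 (Pf.B 10 3 (Pf.C 32 394) (Pf.B 10 2 (Pf.C 32 266) (Pf.B 10 1 (Pf.C 32 138) (Pf.B 10 9 (Pf.C 0 0x309060808a) (Pf.C 0 0x405060448a))))) (Pf.C 2 650)) (Pf.C 2 778)) Pf.nil)) (Pf.W 36 9 [] [3,4,5,6] (Pf.cons (Pf.B 10 6 (Pf.B 10 5 (Pf.B 10 4 (Pf.B 10 3 (Pf.C 32 394) (Pf.C 0 0x18a0c14209)) (Pf.C 2 522)) (Pf.C 2 650)) (Pf.C 2 778)) Pf.nil))) (Pf.C 1 137))) (Pf.C 1 265)) (Pf.C 1 393)) (Pf.C 1 905)) (Pf.C 1 1033)) Pf.nil))) (Pf.B 8 4 (Pf.C 0 0x3080e08084) (Pf.W 36 8 [] [3,4,5,6] (Pf.cons (Pf.B 9 6 (Pf.B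 9 5 (Pf.B 9 4 (Pf.B 9 3 (Pf.C 32 393) (Pf.C 0 0x1890c14208)) (Pf.C 2 521)) (Pf.C 2 649)) (Pf.C 2 777)) Pf.nil)))) (Pf.C 1 136)) (Pf.C 1 264)) (Pf.C 1 392)) (Pf.C 1 904)) Pf.nil)) (Pf.W 43 6 [] [1,2,3,4,5,7] (Pf.cons (Pf.B 8 7 (Pf.B 8 3 (Pf.B 8 2 (Pf.B 8 1 (Pf.B 8 4 (Pf.C 0 0x3080e08084) (Pf.B 8 5 (Pf.W 36 7 [] [1,2,3,5,6,8] (Pf.cons (Pf.B 9 6 (Pf.B 9 5 (Pf.B 9 3 (Pf.C 32 393) (Pf.B 9 2 (Pf.C 32 265) (Pf.B 9 1 (Pf.C 32 137) (Pf.B 9 8 (Pf.C 0 0x3080608089) (Pf.C 0 0x3850604409))))) (Pf.C 2 649)) (Pf.C 2 777)) Pf.nil)) (Pf.W 36 8 [] [3,4,5,6] (Pf.cons (Pf.B 9 6 (Pf.B 9 5 (Pf.B 9 4 (Pf.B 9 3 (Pf.C 32 393) (Pf.C 0 0x1890c14208)) (Pf.C 2 521)) (Pf.C 2 649)) (Pf.C 2 777))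 Pf.nil)))) (Pf.C 1 136)) (Pf.C 1 264)) (Pf.C 1 392)) (Pf.C 1 904)) Pf.nil))) (Pf.W 36 7 [] [1,2,3,6] (Pf.cons (Pf.B 8 6 (Pf.B 8 3 (Pf.C 32 392) (Pf.B 8 2 (Pf.C 32 264) (Pf.B 8 1 (Pf.C 32 136) (Pf.C 0 0x3860608088)))) (Pf.C 2 776)) Pf.nil))) (Pf.C 1 135)) (Pf.C 1 263)) (Pf.C 1 391)) Pf.nil)) (Pf.W 43 4 [] [1,2,3,5,6] (Pf.cons (Pf.B 7 3 (Pf.B 7 2 (Pf.B 7 1 (Pf.B 7 6 (Pf.B 7 5 (Pf.W 43 5 [] [1,2,3,4,6,7] (Pf.cons (Pf.B 8 7 (Pf.B 8 3 (Pf.B 8 2 (Pf.B 8 1 (Pf.B 8 6 (Pf.B 8 4 (Pf.W 36 8 [] [1,4,5,6] (Pf.cons (Pf.B 9 6 (Pf.B 9 5 (Pf.B 9 4 (Pf.B 9 1 (Pf.C 32 137) (Pf.C 0 0x4050c10481)) (Pf.C 2 521)) (Pf.C 2 649)) (Pf.C 2 777)) Pf.nil)) (Pf.W 43 6 [] [1,2,3,4,5,7,8] (Pf.cons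 (Pf.B 9 8 (Pf.B 9 7 (Pf.B 9 3 (Pf.B 9 2 (Pf.B 9 4 (Pf.C 0 0x309101c104) (Pf.B 9 1 (Pf.B 9 5 (Pf.W 36 8 [] [1,3,4,5,7,9] (Pf.cons (Pf.B 10 5 (Pf.B 10 4 (Pf.B 10 3 (Pf.C 32 394) (Pf.B 10 1 (Pf.C 32 138) (Pf.B 10 9 (Pf.B 10 7 (Pf.C 0 0x18a1220384) (Pf.C 0 0x405060438a)) (Pf.C 0 0x405060448a)))) (Pf.C 2 522)) (Pf.C 2 650)) Pf.nil)) (Pf.W 36 9 [] [3,4,5,6] (Pf.cons (Pf.B 10 6 (Pf.B 10 5 (Pf.B 10 4 (Pf.B 10 3 (Pf.C 32 394) (Pf.C 0 0x18a0c14209)) (Pf.C 2 522)) (Pf.C 2 650)) (Pf.C 2 778)) Pf.nil))) (Pf.C 1 137))) (Pf.C 1 265)) (Pf.C 1 393)) (Pf.C 1 905)) (Pf.C 1 1033)) Pf.nil))) (Pf.B 8 4 (Pf.W 36 7 [] [2,3,4,5,6,8] (Pf.cons (Pf.B 9 6 (Pf.B 9 5 (Pf.B 9 4 (Pf.B 9 8 (Pf.B 9 3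 (Pf.C 32 393) (Pf.B 9 2 (Pf.C 32 265) (Pf.W 41 9 [] [2,3,6,8] (Pf.cons (Pf.B 10 8 (Pf.B 10 6 (Pf.B 10 3 (Pf.B 10 2 (Pf.C 0 0x4060608509) (Pf.C 1 266)) (Pf.C 1 394)) (Pf.C 27 778)) (Pf.C 1 1034)) Pf.nil)))) (Pf.C 0 0x3840c14488)) (Pf.C 2 521)) (Pf.C 2 649)) (Pf.C 2 777)) Pf.nil)) (Pf.W 36 8 [] [3,4,5,6] (Pf.cons (Pf.B 9 6 (Pf.B 9 5 (Pf.B 9 4 (Pf.B 9 3 (Pf.C 32 393) (Pf.C 0 0x1890c14208)) (Pf.C 2 521)) (Pf.C 2 649)) (Pf.C 2 777)) Pf.nil)))) (Pf.C 1 136)) (Pf.C 1 264)) (Pf.C 1 392)) (Pf.C 1 904)) Pf.nil)) (Pf.W 43 6 [] [1,2,3,5,7] (Pf.cons (Pf.B 8 7 (Pf.B 8 3 (Pf.B 8 2 (Pf.B 8 1 (Pf.B 8 5 (Pf.W 36 7 [] [1,2,3,5,6,8] (Pf.cons (Pf.B 9 6 (Pf.B 9 5 (Pf.B 9 3 (Pf.C 32 393)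 (Pf.B 9 2 (Pf.C 32 265) (Pf.B 9 1 (Pf.C 32 137) (Pf.B 9 8 (Pf.W 41 9 [] [2,3,6,8] (Pf.cons (Pf.B 10 8 (Pf.B 10 6 (Pf.B 10 3 (Pf.B 10 2 (Pf.C 0 0x4060608509) (Pf.C 1 266)) (Pf.C 1 394)) (Pf.C 27 778)) (Pf.C 1 1034)) Pf.nil)) (Pf.C 0 0x3850604409))))) (Pf.C 2 649)) (Pf.C 2 777)) Pf.nil)) (Pf.W 36 7 [] [1,2,3,5,6,8] (Pf.cons (Pf.B 9 6 (Pf.B 9 5 (Pf.B 9 3 (Pf.C 32 393) (Pf.B 9 2 (Pf.C 32 265) (Pf.B 9 1 (Pf.C 32 137) (Pf.B 9 8 (Pf.W 41 9 [] [2,3,6,8] (Pf.cons (Pf.B 10 8 (Pf.B 10 6 (Pf.B 10 3 (Pf.B 10 2 (Pf.C 0 0x4060608509) (Pf.C 1 266)) (Pf.C 1 394)) (Pf.C 27 778)) (Pf.C 1 1034)) Pf.nil)) (Pf.W 36 8 [] [1,2,3,5,6,7,9] (Pf.cons (Pf.B 10 9 (Pf.B 10 6 (Pf.B 10 5 (Pf.B 10 3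 (Pf.C 32 394) (Pf.B 10 2 (Pf.C 32 266) (Pf.B 10 7 (Pf.B 10 1 (Pf.C 32 138) (Pf.C 0 0x3851218501)) (Pf.C 0 0x406060838a)))) (Pf.C 2 650)) (Pf.C 2 778)) (Pf.C 2 1162)) Pf.nil)))))) (Pf.C 2 649)) (Pf.C 2 777)) Pf.nil))) (Pf.C 1 136)) (Pf.C 1 264)) (Pf.C 1 392)) (Pf.C 1 904)) Pf.nil))) (Pf.W 36 7 [] [2,3,6] (Pf.cons (Pf.B 8 6 (Pf.B 8 3 (Pf.C 32 392) (Pf.B 8 2 (Pf.C 32 264) (Pf.W 41 8 [] [2,3,6,7] (Pf.cons (Pf.B 9 7 (Pf.B 9 6 (Pf.B 9 3 (Pf.B 9 2 (Pf.C 0 0x3860608488) (Pf.C 1 265)) (Pf.C 1 393)) (Pf.C 27 777)) (Pf.C 1 905)) Pf.nil)))) (Pf.C 2 776)) Pf.nil))) (Pf.C 1 135)) (Pf.C 1 263)) (Pf.C 1 391)) Pf.nil))) (Pf.B 6 1 (Pf.W 43 4 [] [1,2,3,6] (Pf.cons (Pf.B 7 3 (Pf.B 7 2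 (Pf.B 7 1 (Pf.B 7 6 (Pf.C 0 0x1860404384) (Pf.W 36 7 [] [1,2,6] (Pf.cons (Pf.B 8 6 (Pf.B 8 2 (Pf.C 32 264) (Pf.B 8 1 (Pf.C 32 136) (Pf.W 41 8 [] [1,2,6,7] (Pf.cons (Pf.B 9 7 (Pf.B 9 6 (Pf.B 9 2 (Pf.B 9 1 (Pf.C 0 0x3860404488) (Pf.C 1 137)) (Pf.C 1 265)) (Pf.C 27 777)) (Pf.C 1 905)) Pf.nil)))) (Pf.C 2 776)) Pf.nil))) (Pf.C 1 135)) (Pf.C 1 263)) (Pf.C 1 391)) Pf.nil)) (Pf.W 43 4 [] [1,2,3,5,6] (Pf.cons (Pf.B 7 3 (Pf.B 7 2 (Pf.B 7 1 (Pf.B 7 6 (Pf.B 7 5 (Pf.W 43 5 [] [1,2,3,4,6,7] (Pf.cons (Pf.B 8 7 (Pf.B 8 3 (Pf.B 8 2 (Pf.B 8 1 (Pf.B 8 6 (Pf.B 8 4 (Pf.W 36 8 [] [1,4,5,6] (Pf.cons (Pf.B 9 6 (Pf.B 9 5 (Pf.B 9 4 (Pf.B 9 1 (Pf.C 32 137) (Pf.C 0 0x4050c10481)) (Pf.C 2 521))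 (Pf.C 2 649)) (Pf.C 2 777)) Pf.nil)) (Pf.C 0 0x3030e08404)) (Pf.B 8 4 (Pf.W 36 7 [] [1,3,4,5,6,8] (Pf.cons (Pf.B 9 6 (Pf.B 9 5 (Pf.B 9 4 (Pf.B 9 8 (Pf.B 9 3 (Pf.C 32 393) (Pf.B 9 1 (Pf.C 32 137) (Pf.W 41 9 [] [1,3,5,8] (Pf.cons (Pf.B 10 8 (Pf.B 10 5 (Pf.B 10 3 (Pf.B 10 1 (Pf.C 0 0x4050604509) (Pf.C 1 138)) (Pf.C 1 394)) (Pf.C 27 650)) (Pf.C 1 1034)) Pf.nil)))) (Pf.C 0 0x3840c14488)) (Pf.C 2 521)) (Pf.C 2 649)) (Pf.C 2 777)) Pf.nil)) (Pf.W 36 7 [] [3,4,5,6,8] (Pf.cons (Pf.B 9 6 (Pf.B 9 5 (Pf.B 9 4 (Pf.B 9 3 (Pf.C 32 393) (Pf.B 9 8 (Pf.W 41 9 [] [4,5,6,8] (Pf.cons (Pf.B 10 8 (Pf.B 10 6 (Pf.B 10 5 (Pf.B 10 4 (Pf.C 0 0x48a0c14208) (Pf.C 27 522)) (Pf.C 27 650)) (Pf.C 27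 778)) (Pf.C 1 1034)) Pf.nil)) (Pf.W 36 8 [] [3,4,5,6,7,9] (Pf.cons (Pf.B 10 9 (Pf.B 10 6 (Pf.B 10 5 (Pf.B 10 7 (Pf.B 10 4 (Pf.B 10 3 (Pf.C 32 394) (Pf.C 0 0x3841218503)) (Pf.C 2 522)) (Pf.C 0 0x38a1218288)) (Pf.C 2 650)) (Pf.C 2 778)) (Pf.C 2 1162)) Pf.nil)))) (Pf.C 2 521)) (Pf.C 2 649)) (Pf.C 2 777)) Pf.nil)))) (Pf.C 1 136)) (Pf.C 1 264)) (Pf.C 1 392)) (Pf.C 1 904)) Pf.nil)) (Pf.W 36 7 [] [1,3,5] (Pf.cons (Pf.B 8 5 (Pf.B 8 3 (Pf.C 32 392) (Pf.B 8 1 (Pf.C 32 136) (Pf.W 41 8 [] [1,3,5,7] (Pf.cons (Pf.B 9 7 (Pf.B 9 5 (Pf.B 9 3 (Pf.B 9 1 (Pf.C 0 0x3850604488) (Pf.C 1 137)) (Pf.C 1 393)) (Pf.C 27 649)) (Pf.C 1 905)) Pf.nil)))) (Pf.C 2 648)) Pf.nil))) (Pf.B 7 5 (Pf.C 0 0x1050604386)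 (Pf.W 36 7 [] [4,5,6] (Pf.cons (Pf.B 8 6 (Pf.B 8 5 (Pf.B 8 4 (Pf.W 41 8 [] [4,5,6,7] (Pf.cons (Pf.B 9 7 (Pf.B 9 6 (Pf.B 9 5 (Pf.B 9 4 (Pf.C 0 0x4090c14207) (Pf.C 27 521)) (Pf.C 27 649)) (Pf.C 27 777)) (Pf.C 1 905)) Pf.nil)) (Pf.C 2 520)) (Pf.C 2 648)) (Pf.C 2 776)) Pf.nil)))) (Pf.C 1 135)) (Pf.C 1 263)) (Pf.C 1 391)) Pf.nil)))) (Pf.C 2 518)) (Pf.C 2 646)) Pf.nil))) (Pf.B 5 2 (Pf.W 43 4 [] [1,2,3,5] (Pf.cons (Pf.B 6 3 (Pf.B 6 2 (Pf.B 6 1 (Pf.B 6 5 (Pf.C 0 0x1850404304) (Pf.W 36 6 [] [1,2,5] (Pf.cons (Pf.B 7 5 (Pf.B 7 2 (Pf.C 32 263) (Pf.B 7 1 (Pf.C 32 135) (Pf.W 41 7 [] [1,2,5,6] (Pf.cons (Pf.B 8 6 (Pf.B 8 5 (Pf.B 8 2 (Pf.B 8 1 (Pf.C 0 0x3050404407) (Pf.C 1 136)) (Pf.C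 1 264)) (Pf.C 27 648)) (Pf.C 1 776)) Pf.nil)))) (Pf.C 2 647)) Pf.nil))) (Pf.C 1 134)) (Pf.C 1 262)) (Pf.C 1 390)) Pf.nil)) (Pf.W 38 2 [] [1,3,4,5] (Pf.cons (Pf.B 6 5 (Pf.B 6 4 (Pf.B 6 3 (Pf.B 6 1 (Pf.W 43 6 [] [1,2,3] (Pf.cons (Pf.B 7 3 (Pf.B 7 2 (Pf.B 7 1 (Pf.W 36 7 [] [1,2,3,6] (Pf.cons (Pf.B 8 6 (Pf.B 8 3 (Pf.C 32 392) (Pf.B 8 2 (Pf.C 32 264) (Pf.B 8 1 (Pf.C 32 136) (Pf.C 0 0x3860608088)))) (Pf.C 2 776)) Pf.nil)) (Pf.C 1 135)) (Pf.C 1 263)) (Pf.C 1 391)) Pf.nil)) (Pf.W 43 4 [] [1,2,3,5,6] (Pf.cons (Pf.B 7 3 (Pf.B 7 2 (Pf.B 7 1 (Pf.B 7 6 (Pf.B 7 5 (Pf.W 43 5 [] [1,2,3,4,6,7] (Pf.cons (Pf.B 8 7 (Pf.B 8 3 (Pf.B 8 2 (Pf.B 8 1 (Pf.B 8 6 (Pf.C 0 0x860608405) (Pf.B 8 4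 (Pf.W 36 7 [] [2,3,4,5,6,8] (Pf.cons (Pf.B 9 6 (Pf.B 9 5 (Pf.B 9 4 (Pf.B 9 8 (Pf.B 9 3 (Pf.C 32 393) (Pf.B 9 2 (Pf.C 32 265) (Pf.W 41 9 [] [2,3,6,8] (Pf.cons (Pf.B 10 8 (Pf.B 10 6 (Pf.B 10 3 (Pf.B 10 2 (Pf.C 0 0x4060608509) (Pf.C 1 266)) (Pf.C 1 394)) (Pf.C 27 778)) (Pf.C 1 1034)) Pf.nil)))) (Pf.C 0 0x3840c14488)) (Pf.C 2 521)) (Pf.C 2 649)) (Pf.C 2 777)) Pf.nil)) (Pf.W 36 7 [] [3,4,5,6,8] (Pf.cons (Pf.B 9 6 (Pf.B 9 5 (Pf.B 9 4 (Pf.B 9 3 (Pf.C 32 393) (Pf.B 9 8 (Pf.W 41 9 [] [4,5,6,8] (Pf.cons (Pf.B 10 8 (Pf.B 10 6 (Pf.B 10 5 (Pf.B 10 4 (Pf.C 0 0x48a0c14208) (Pf.C 27 522)) (Pf.C 27 650)) (Pf.C 27 778)) (Pf.C 1 1034)) Pf.nil)) (Pf.W 36 8 [] [3,4,5,6,7,9] (Pf.cons (Pf.B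 10 9 (Pf.B 10 6 (Pf.B 10 5 (Pf.B 10 7 (Pf.B 10 4 (Pf.B 10 3 (Pf.C 32 394) (Pf.C 0 0x3841214503)) (Pf.C 2 522)) (Pf.C 0 0x38a1218288)) (Pf.C 2 650)) (Pf.C 2 778)) (Pf.C 2 1162)) Pf.nil)))) (Pf.C 2 521)) (Pf.C 2 649)) (Pf.C 2 777)) Pf.nil)))) (Pf.C 1 136)) (Pf.C 1 264)) (Pf.C 1 392)) (Pf.C 1 904)) Pf.nil)) (Pf.C 0 0x3010608385)) (Pf.W 36 7 [] [2,3,6] (Pf.cons (Pf.B 8 6 (Pf.B 8 3 (Pf.C 32 392) (Pf.B 8 2 (Pf.C 32 264) (Pf.W 41 8 [] [2,3,6,7] (Pf.cons (Pf.B 9 7 (Pf.B 9 6 (Pf.B 9 3 (Pf.B 9 2 (Pf.C 0 0x3860608488) (Pf.C 1 265)) (Pf.C 1 393)) (Pf.C 27 777)) (Pf.C 1 905)) Pf.nil)))) (Pf.C 2 776)) Pf.nil))) (Pf.C 1 135)) (Pf.C 1 263)) (Pf.C 1 391)) Pf.nil))) (Pf.W 43 4 [] [3,5,6]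 (Pf.cons (Pf.B 7 3 (Pf.B 7 6 (Pf.B 7 5 (Pf.W 36 7 [] [3,4,5,6] (Pf.cons (Pf.B 8 6 (Pf.B 8 5 (Pf.B 8 4 (Pf.B 8 3 (Pf.C 32 392) (Pf.C 0 0x3840c14403)) (Pf.C 2 520)) (Pf.C 2 648)) (Pf.C 2 776)) Pf.nil)) (Pf.W 36 7 [] [4,5] (Pf.cons (Pf.B 8 5 (Pf.B 8 4 (Pf.W 41 8 [] [4,5,7] (Pf.cons (Pf.B 9 7 (Pf.B 9 5 (Pf.B 9 4 (Pf.W 34 9 [] [4,5,7,8] (Pf.cons (Pf.B 10 8 (Pf.B 10 7 (Pf.C 30 906) (Pf.B 10 5 (Pf.B 10 4 (Pf.C 0 0x4880a10507) (Pf.C 2 522)) (Pf.C 2 650))) (Pf.C 2 1034)) Pf.nil)) (Pf.C 27 521)) (Pf.C 27 649)) (Pf.C 1 905)) Pf.nil)) (Pf.C 2 520)) (Pf.C 2 648)) Pf.nil))) (Pf.W 36 7 [] [4,6] (Pf.cons (Pf.B 8 6 (Pf.B 8 4 (Pf.W 41 8 [] [4,6,7] (Pf.cons (Pf.B 9 7 (Pf.B 9 6 (Pf.B 9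 4 (Pf.W 34 9 [] [4,6,7,8] (Pf.cons (Pf.B 10 8 (Pf.B 10 7 (Pf.C 30 906) (Pf.B 10 6 (Pf.B 10 4 (Pf.C 0 0x4880c10507) (Pf.C 2 522)) (Pf.C 2 778))) (Pf.C 2 1034)) Pf.nil)) (Pf.C 27 521)) (Pf.C 27 777)) (Pf.C 1 905)) Pf.nil)) (Pf.C 2 520)) (Pf.C 2 776)) Pf.nil))) (Pf.C 1 391)) Pf.nil))) (Pf.C 2 518)) (Pf.C 2 646)) Pf.nil)))) (Pf.C 2 517)) Pf.nil)))) Pf.nil)))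
 (Pq.cons (Pq.L [] 1 (Pf.C 1 257))
 (Pq.cons (Pq.L [] 7 (Pf.W 44 1 [] [2,3] (Pf.cons (Pf.B 4 3 (Pf.B 4 2 (Pf.W 44 2 [] [1,3,4] (Pf.cons (Pf.B 5 4 (Pf.B 5 3 (Pf.B 5 1 (Pf.W 44 3 [] [1,2,4,5] (Pf.cons (Pf.B 6 5 (Pf.B 6 4 (Pf.B 6 2 (Pf.B 6 1 (Pf.W 37 4 [] [1,2,3,5,6] (Pf.cons (Pf.B 7 3 (Pf.B 7 2 (Pf.B 7 1 (Pf.B 7 6 (Pf.B 7 5 (Pf.W 42 7 [] [4,5,6] (Pf.cons (Pf.B 8 6 (Pf.B 8 5 (Pf.B 8 4 (Pf.W 35 8 [] [4,5,6,7] (Pf.cons (Pf.B 9 7 (Pf.B 9 6 (Pf.C 31 777) (Pf.B 9 5 (Pf.C 31 649) (Pf.B 9 4 (Pf.C 31 521) (Pf.C 0 0x4070c14209)))) (Pf.C 2 905)) Pf.nil)) (Pf.C 1 520)) (Pf.C 1 648)) (Pf.C 1 776)) Pf.nil)) (Pf.W 37 5 [] [1,2,3,4,6,7] (Pf.cons (Pf.B 8 7 (Pf.B 8 3 (Pf.B 8 2 (Pf.B 8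 1 (Pf.B 8 6 (Pf.B 8 4 (Pf.W 42 7 [] [3,4,5,6,8] (Pf.cons (Pf.B 9 6 (Pf.B 9 5 (Pf.B 9 4 (Pf.B 9 3 (Pf.B 9 8 (Pf.W 42 8 [] [3,4,5,6,7,9] (Pf.cons (Pf.B 10 9 (Pf.B 10 6 (Pf.B 10 5 (Pf.B 10 4 (Pf.B 10 3 (Pf.B 10 7 (Pf.W 35 9 [] [4,5,6,7,8,10] (Pf.cons (Pf.B 11 8 (Pf.B 11 7 (Pf.B 11 6 (Pf.C 31 779) (Pf.B 11 5 (Pf.C 31 651) (Pf.B 11 4 (Pf.C 31 523) (Pf.B 11 10 (Pf.C 0 0x40a0c1420b) (Pf.C 0 0x4870c1050b))))) (Pf.C 2 907)) (Pf.C 2 1035)) Pf.nil)) (Pf.C 0 0x3031214507)) (Pf.C 28 394)) (Pf.C 1 522)) (Pf.C 1 650)) (Pf.C 1 778)) (Pf.C 1 1162)) Pf.nil)) (Pf.W 35 9 [] [4,5,6,8] (Pf.cons (Pf.B 10 8 (Pf.B 10 6 (Pf.C 31 778) (Pf.B 10 5 (Pf.C 31 650) (Pf.B 10 4 (Pf.C 31 522) (Pf.C 0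 0x4880c1420a)))) (Pf.C 2 1034)) Pf.nil))) (Pf.C 28 393)) (Pf.C 1 521)) (Pf.C 1 649)) (Pf.C 1 777)) Pf.nil)) (Pf.W 42 7 [] [1,2,3,4,5,6,8] (Pf.cons (Pf.B 9 6 (Pf.B 9 5 (Pf.B 9 4 (Pf.B 9 1 (Pf.B 9 8 (Pf.W 35 9 [] [1,4,7,8] (Pf.cons (Pf.B 10 8 (Pf.B 10 7 (Pf.B 10 4 (Pf.C 31 522) (Pf.B 10 1 (Pf.C 0 0x4871004504) (Pf.C 2 138))) (Pf.C 2 906)) (Pf.C 2 1034)) Pf.nil)) (Pf.W 35 9 [] [1,2,3,5,6,8] (Pf.cons (Pf.B 10 8 (Pf.B 10 6 (Pf.C 31 778) (Pf.B 10 5 (Pf.C 31 650) (Pf.B 10 3 (Pf.B 10 2 (Pf.B 10 1 (Pf.W 40 10 [] [5,6,8,9] (Pf.cons (Pf.B 11 9 (Pf.B 11 8 (Pf.B 11 6 (Pf.B 11 5 (Pf.C 0 0x4880c1458a) (Pf.C 1 651)) (Pf.C 1 779)) (Pf.C 26 1035)) (Pf.C 1 1163)) Pf.nil)) (Pf.C 2 138))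 (Pf.C 2 266)) (Pf.C 2 394)))) (Pf.C 2 1034)) Pf.nil))) (Pf.C 28 137)) (Pf.C 1 521)) (Pf.C 1 649)) (Pf.C 1 777)) Pf.nil))) (Pf.B 8 4 (Pf.W 42 7 [] [1,2,3,4,5,6,8] (Pf.cons (Pf.B 9 6 (Pf.B 9 5 (Pf.B 9 4 (Pf.B 9 3 (Pf.B 9 8 (Pf.W 35 9 [] [3,6,7,8] (Pf.cons (Pf.B 10 8 (Pf.B 10 7 (Pf.B 10 6 (Pf.C 31 778) (Pf.B 10 3 (Pf.C 0 0x487100c506) (Pf.C 2 394))) (Pf.C 2 906)) (Pf.C 2 1034)) Pf.nil)) (Pf.W 35 9 [] [1,2,3,4,5,8] (Pf.cons (Pf.B 10 8 (Pf.B 10 5 (Pf.C 31 650) (Pf.B 10 4 (Pf.C 31 522) (Pf.B 10 3 (Pf.B 10 2 (Pf.B 10 1 (Pf.W 40 10 [] [4,5,8,9] (Pf.cons (Pf.B 11 9 (Pf.B 11 8 (Pf.B 11 5 (Pf.B 11 4 (Pf.C 0 0x4880a1058a) (Pf.C 1 523)) (Pf.C 1 651)) (Pf.C 26 1035)) (Pf.C 1 1163))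 Pf.nil)) (Pf.C 2 138)) (Pf.C 2 266)) (Pf.C 2 394)))) (Pf.C 2 1034)) Pf.nil))) (Pf.C 28 393)) (Pf.C 1 521)) (Pf.C 1 649)) (Pf.C 1 777)) Pf.nil)) (Pf.W 42 8 [] [2,4,5,6] (Pf.cons (Pf.B 9 6 (Pf.B 9 5 (Pf.B 9 4 (Pf.B 9 2 (Pf.C 0 0x2820c10488) (Pf.C 28 265)) (Pf.C 1 521)) (Pf.C 1 649)) (Pf.C 1 777)) Pf.nil)))) (Pf.C 2 136)) (Pf.C 2 264)) (Pf.C 2 392)) (Pf.C 2 904)) Pf.nil))) (Pf.B 7 5 (Pf.W 42 7 [] [1,2,3,4,5] (Pf.cons (Pf.B 8 5 (Pf.B 8 4 (Pf.W 35 8 [] [1,2,3,4,5,7] (Pf.cons (Pf.B 9 7 (Pf.B 9 5 (Pf.C 31 649) (Pf.B 9 4 (Pf.C 31 521) (Pf.B 9 3 (Pf.B 9 2 (Pf.B 9 1 (Pf.W 40 9 [] [4,5,7,8] (Pf.cons (Pf.B 10 8 (Pf.B 10 7 (Pf.B 10 5 (Pf.B 10 4 (Pf.C 0 0x4070a10509) (Pf.C 1 522))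 (Pf.C 1 650)) (Pf.C 26 906)) (Pf.C 1 1034)) Pf.nil)) (Pf.C 2 137)) (Pf.C 2 265)) (Pf.C 2 393)))) (Pf.C 2 905)) Pf.nil)) (Pf.C 1 520)) (Pf.C 1 648)) Pf.nil)) (Pf.W 42 7 [] [1,4,5,6] (Pf.cons (Pf.B 8 6 (Pf.B 8 5 (Pf.B 8 4 (Pf.B 8 1 (Pf.C 0 0x2010c14407) (Pf.C 28 136)) (Pf.C 1 520)) (Pf.C 1 648)) (Pf.C 1 776)) Pf.nil)))) (Pf.C 2 135)) (Pf.C 2 263)) (Pf.C 2 391)) Pf.nil)) (Pf.W 37 4 [] [1,2,3,5,6] (Pf.cons (Pf.B 7 3 (Pf.B 7 2 (Pf.B 7 1 (Pf.B 7 6 (Pf.W 42 7 [] [1,3,6] (Pf.cons (Pf.B 8 6 (Pf.B 8 3 (Pf.B 8 1 (Pf.W 35 8 [] [1,3,6,7] (Pf.cons (Pf.B 9 7 (Pf.B 9 6 (Pf.C 31 777) (Pf.B 9 3 (Pf.B 9 1 (Pf.C 0 0x4070604486) (Pf.C 2 137)) (Pf.C 2 393))) (Pf.C 2 905)) Pf.nil)) (Pf.C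 28 136)) (Pf.C 28 392)) (Pf.C 1 776)) Pf.nil)) (Pf.B 7 5 (Pf.C 0 0x1050604386) (Pf.W 37 5 [] [1,2,3,4,6,7] (Pf.cons (Pf.B 8 7 (Pf.B 8 3 (Pf.B 8 2 (Pf.B 8 1 (Pf.B 8 6 (Pf.B 8 4 (Pf.W 42 7 [] [1,4,5,6,8] (Pf.cons (Pf.B 9 6 (Pf.B 9 5 (Pf.B 9 4 (Pf.B 9 1 (Pf.B 9 8 (Pf.W 42 8 [] [1,4,5,6,7,9] (Pf.cons (Pf.B 10 9 (Pf.B 10 6 (Pf.B 10 5 (Pf.B 10 7 (Pf.C 0 0x40a1218287) (Pf.B 10 4 (Pf.B 10 1 (Pf.C 0 0x2011214507) (Pf.C 28 138)) (Pf.C 1 522))) (Pf.C 1 650)) (Pf.C 1 778)) (Pf.C 1 1162)) Pf.nil)) (Pf.W 35 9 [] [4,5,6,8] (Pf.cons (Pf.B 10 8 (Pf.B 10 6 (Pf.C 31 778) (Pf.B 10 5 (Pf.C 31 650) (Pf.B 10 4 (Pf.C 31 522) (Pf.C 0 0x4880c1420a)))) (Pf.C 2 1034)) Pf.nil))) (Pf.C 28 137))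 (Pf.C 1 521)) (Pf.C 1 649)) (Pf.C 1 777)) Pf.nil)) (Pf.W 42 7 [] [1,3,4,5,6,8] (Pf.cons (Pf.B 9 6 (Pf.B 9 5 (Pf.B 9 4 (Pf.B 9 8 (Pf.C 0 0x2080c14487) (Pf.B 9 3 (Pf.B 9 1 (Pf.W 35 9 [] [1,3,6,8] (Pf.cons (Pf.B 10 8 (Pf.B 10 6 (Pf.C 31 778) (Pf.B 10 3 (Pf.B 10 1 (Pf.C 0 0x4880604506) (Pf.C 2 138)) (Pf.C 2 394))) (Pf.C 2 1034)) Pf.nil)) (Pf.C 28 137)) (Pf.C 28 393))) (Pf.C 1 521)) (Pf.C 1 649)) (Pf.C 1 777)) Pf.nil))) (Pf.C 0 0x2820604406)) (Pf.C 2 136)) (Pf.C 2 264)) (Pf.C 2 392)) (Pf.C 2 904)) Pf.nil)))) (Pf.C 2 135)) (Pf.C 2 263)) (Pf.C 2 391)) Pf.nil))) (Pf.B 6 1 (Pf.W 37 4 [] [1,2,3,6] (Pf.cons (Pf.B 7 3 (Pf.B 7 2 (Pf.B 7 1 (Pf.B 7 6 (Pf.W 42 7 [] [2,3,6] (Pf.cons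 (Pf.B 8 6 (Pf.B 8 3 (Pf.B 8 2 (Pf.W 35 8 [] [2,3,6,7] (Pf.cons (Pf.B 9 7 (Pf.B 9 6 (Pf.C 31 777) (Pf.B 9 3 (Pf.B 9 2 (Pf.C 0 0x4070608486) (Pf.C 2 265)) (Pf.C 2 393))) (Pf.C 2 905)) Pf.nil)) (Pf.C 28 264)) (Pf.C 28 392)) (Pf.C 1 776)) Pf.nil)) (Pf.C 0 0x2010608386)) (Pf.C 2 135)) (Pf.C 2 263)) (Pf.C 2 391)) Pf.nil)) (Pf.W 37 6 [] [1,2,3] (Pf.cons (Pf.B 7 3 (Pf.B 7 2 (Pf.B 7 1 (Pf.W 42 7 [] [1,2,3,6] (Pf.cons (Pf.B 8 6 (Pf.B 8 3 (Pf.B 8 2 (Pf.B 8 1 (Pf.C 0 0x3880608086) (Pf.C 28 136)) (Pf.C 28 264)) (Pf.C 28 392)) (Pf.C 1 776)) Pf.nil)) (Pf.C 2 135)) (Pf.C 2 263)) (Pf.C 2 391)) Pf.nil)))) (Pf.C 1 518)) (Pf.C 1 646)) Pf.nil)) (Pf.W 44 3 [] [1,2,4,5] (Pf.cons (Pf.B 6 5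 (Pf.B 6 4 (Pf.B 6 2 (Pf.B 6 1 (Pf.W 37 4 [] [1,2,3,5,6] (Pf.cons (Pf.B 7 3 (Pf.B 7 2 (Pf.B 7 1 (Pf.B 7 6 (Pf.B 7 5 (Pf.W 42 7 [] [4,5,6] (Pf.cons (Pf.B 8 6 (Pf.B 8 5 (Pf.B 8 4 (Pf.W 35 8 [] [4,5,6,7] (Pf.cons (Pf.B 9 7 (Pf.B 9 6 (Pf.C 31 777) (Pf.B 9 5 (Pf.C 31 649) (Pf.B 9 4 (Pf.C 31 521) (Pf.C 0 0x4070c14209)))) (Pf.C 2 905)) Pf.nil)) (Pf.C 1 520)) (Pf.C 1 648)) (Pf.C 1 776)) Pf.nil)) (Pf.C 0 0x3030404385)) (Pf.B 7 5 (Pf.W 42 7 [] [1,2,5] (Pf.cons (Pf.B 8 5 (Pf.B 8 2 (Pf.B 8 1 (Pf.W 35 8 [] [1,2,5,7] (Pf.cons (Pf.B 9 7 (Pf.B 9 5 (Pf.C 31 649) (Pf.B 9 2 (Pf.B 9 1 (Pf.C 0 0x4070404485) (Pf.C 2 137)) (Pf.C 2 265))) (Pf.C 2 905)) Pf.nil)) (Pf.C 28 136)) (Pf.C 28 264))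 (Pf.C 1 648)) Pf.nil)) (Pf.W 37 5 [] [1,2,3,4,6,7] (Pf.cons (Pf.B 8 7 (Pf.B 8 3 (Pf.B 8 2 (Pf.B 8 1 (Pf.B 8 6 (Pf.B 8 4 (Pf.W 42 7 [] [1,4,5,6,8] (Pf.cons (Pf.B 9 6 (Pf.B 9 5 (Pf.B 9 4 (Pf.B 9 1 (Pf.B 9 8 (Pf.W 42 8 [] [1,4,5,6,7,9] (Pf.cons (Pf.B 10 9 (Pf.B 10 6 (Pf.B 10 5 (Pf.B 10 7 (Pf.C 0 0x40a1218287) (Pf.B 10 4 (Pf.B 10 1 (Pf.C 0 0x2011218507) (Pf.C 28 138)) (Pf.C 1 522))) (Pf.C 1 650)) (Pf.C 1 778)) (Pf.C 1 1162)) Pf.nil)) (Pf.W 35 9 [] [4,5,6,8] (Pf.cons (Pf.B 10 8 (Pf.B 10 6 (Pf.C 31 778) (Pf.B 10 5 (Pf.C 31 650) (Pf.B 10 4 (Pf.C 31 522) (Pf.C 0 0x4880c1420a)))) (Pf.C 2 1034)) Pf.nil))) (Pf.C 28 137)) (Pf.C 1 521)) (Pf.C 1 649)) (Pf.C 1 777)) Pf.nil)) (Pf.W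 42 7 [] [1,2,4,5,6,8] (Pf.cons (Pf.B 9 6 (Pf.B 9 5 (Pf.B 9 4 (Pf.B 9 8 (Pf.C 0 0x2080c14487) (Pf.B 9 2 (Pf.B 9 1 (Pf.W 35 9 [] [1,2,5,8] (Pf.cons (Pf.B 10 8 (Pf.B 10 5 (Pf.C 31 650) (Pf.B 10 2 (Pf.B 10 1 (Pf.C 0 0x4880404505) (Pf.C 2 138)) (Pf.C 2 266))) (Pf.C 2 1034)) Pf.nil)) (Pf.C 28 137)) (Pf.C 28 265))) (Pf.C 1 521)) (Pf.C 1 649)) (Pf.C 1 777)) Pf.nil))) (Pf.B 8 4 (Pf.C 0 0x840e0c406) (Pf.W 42 8 [] [2,4,5,6] (Pf.cons (Pf.B 9 6 (Pf.B 9 5 (Pf.B 9 4 (Pf.B 9 2 (Pf.C 0 0x2820c10488) (Pf.C 28 265)) (Pf.C 1 521)) (Pf.C 1 649)) (Pf.C 1 777)) Pf.nil)))) (Pf.C 2 136)) (Pf.C 2 264)) (Pf.C 2 392)) (Pf.C 2 904)) Pf.nil)))) (Pf.C 2 135)) (Pf.C 2 263)) (Pf.C 2 391)) Pf.nil))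 (Pf.W 37 4 [] [1,2,3,5,6] (Pf.cons (Pf.B 7 3 (Pf.B 7 2 (Pf.B 7 1 (Pf.B 7 6 (Pf.B 7 5 (Pf.W 42 7 [] [1,4,5,6] (Pf.cons (Pf.B 8 6 (Pf.B 8 5 (Pf.B 8 4 (Pf.B 8 1 (Pf.C 0 0x3880c14201) (Pf.C 28 136)) (Pf.C 1 520)) (Pf.C 1 648)) (Pf.C 1 776)) Pf.nil)) (Pf.W 37 5 [] [1,2,3,6,7] (Pf.cons (Pf.B 8 7 (Pf.B 8 3 (Pf.B 8 2 (Pf.B 8 1 (Pf.B 8 6 (Pf.W 42 7 [] [1,2,3,5,6,8] (Pf.cons (Pf.B 9 6 (Pf.B 9 5 (Pf.B 9 3 (Pf.B 9 2 (Pf.B 9 1 (Pf.B 9 8 (Pf.W 42 8 [] [1,2,3,5,6,7,9] (Pf.cons (Pf.B 10 9 (Pf.B 10 6 (Pf.B 10 5 (Pf.B 10 3 (Pf.B 10 7 (Pf.B 10 2 (Pf.B 10 1 (Pf.C 0 0x40a0e08085) (Pf.C 28 138)) (Pf.C 28 266)) (Pf.C 0 0x3031214507)) (Pf.C 28 394)) (Pf.C 1 650)) (Pf.C 1 778)) (Pf.C 1 1162))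 Pf.nil)) (Pf.W 35 9 [] [1,2,5,8] (Pf.cons (Pf.B 10 8 (Pf.B 10 5 (Pf.C 31 650) (Pf.B 10 2 (Pf.B 10 1 (Pf.C 0 0x4880404505) (Pf.C 2 138)) (Pf.C 2 266))) (Pf.C 2 1034)) Pf.nil))) (Pf.C 28 137)) (Pf.C 28 265)) (Pf.C 28 393)) (Pf.C 1 649)) (Pf.C 1 777)) Pf.nil)) (Pf.W 42 7 [] [1,2,3,5,6,8] (Pf.cons (Pf.B 9 6 (Pf.B 9 5 (Pf.B 9 3 (Pf.B 9 2 (Pf.B 9 1 (Pf.B 9 8 (Pf.C 0 0x3890604406) (Pf.W 35 9 [] [1,2,5,8] (Pf.cons (Pf.B 10 8 (Pf.B 10 5 (Pf.C 31 650) (Pf.B 10 2 (Pf.B 10 1 (Pf.C 0 0x4880404505) (Pf.C 2 138)) (Pf.C 2 266))) (Pf.C 2 1034)) Pf.nil))) (Pf.C 28 137)) (Pf.C 28 265)) (Pf.C 28 393)) (Pf.C 1 649)) (Pf.C 1 777)) Pf.nil))) (Pf.C 2 136)) (Pf.C 2 264)) (Pf.C 2 392)) (Pf.C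 2 904)) Pf.nil))) (Pf.B 7 5 (Pf.W 42 7 [] [1,2,5] (Pf.cons (Pf.B 8 5 (Pf.B 8 2 (Pf.B 8 1 (Pf.W 35 8 [] [1,2,5,7] (Pf.cons (Pf.B 9 7 (Pf.B 9 5 (Pf.C 31 649) (Pf.B 9 2 (Pf.B 9 1 (Pf.C 0 0x4070404485) (Pf.C 2 137)) (Pf.C 2 265))) (Pf.C 2 905)) Pf.nil)) (Pf.C 28 136)) (Pf.C 28 264)) (Pf.C 1 648)) Pf.nil)) (Pf.W 37 5 [] [1,2,3,4,6,7] (Pf.cons (Pf.B 8 7 (Pf.B 8 3 (Pf.B 8 2 (Pf.B 8 1 (Pf.B 8 6 (Pf.B 8 4 (Pf.W 42 8 [] [1,4,5,6] (Pf.cons (Pf.B 9 6 (Pf.B 9 5 (Pf.B 9 4 (Pf.B 9 1 (Pf.C 0 0x4090c14201) (Pf.C 28 137)) (Pf.C 1 521)) (Pf.C 1 649)) (Pf.C 1 777)) Pf.nil)) (Pf.W 42 7 [] [1,2,4,5,6,8] (Pf.cons (Pf.B 9 6 (Pf.B 9 5 (Pf.B 9 4 (Pf.B 9 8 (Pf.C 0 0x2080c14487) (Pf.B 9 2 (Pf.B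 9 1 (Pf.W 35 9 [] [1,2,5,8] (Pf.cons (Pf.B 10 8 (Pf.B 10 5 (Pf.C 31 650) (Pf.B 10 2 (Pf.B 10 1 (Pf.C 0 0x4880404505) (Pf.C 2 138)) (Pf.C 2 266))) (Pf.C 2 1034)) Pf.nil)) (Pf.C 28 137)) (Pf.C 28 265))) (Pf.C 1 521)) (Pf.C 1 649)) (Pf.C 1 777)) Pf.nil))) (Pf.B 8 4 (Pf.W 37 6 [] [1,2,3,4,5,7,8] (Pf.cons (Pf.B 9 8 (Pf.B 9 7 (Pf.B 9 3 (Pf.B 9 4 (Pf.B 9 2 (Pf.B 9 1 (Pf.B 9 5 (Pf.W 42 9 [] [1,4,5,6] (Pf.cons (Pf.B 10 6 (Pf.B 10 5 (Pf.B 10 4 (Pf.B 10 1 (Pf.C 0 0x48a0c14201) (Pf.C 28 138)) (Pf.C 1 522)) (Pf.C 1 650)) (Pf.C 1 778)) Pf.nil)) (Pf.W 42 8 [] [1,2,4,5,7,9] (Pf.cons (Pf.B 10 5 (Pf.B 10 4 (Pf.B 10 2 (Pf.B 10 1 (Pf.B 10 9 (Pf.C 0 0x40a0404485) (Pf.B 10 7 (Pf.C 0 0x40a0404385)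 (Pf.C 0 0x201122038a))) (Pf.C 28 138)) (Pf.C 28 266)) (Pf.C 1 522)) (Pf.C 1 650)) Pf.nil))) (Pf.C 2 137)) (Pf.C 2 265)) (Pf.C 0 0x209101c186)) (Pf.C 2 393)) (Pf.C 2 905)) (Pf.C 2 1033)) Pf.nil)) (Pf.W 42 8 [] [2,4,5,6] (Pf.cons (Pf.B 9 6 (Pf.B 9 5 (Pf.B 9 4 (Pf.B 9 2 (Pf.C 0 0x2820c10488) (Pf.C 28 265)) (Pf.C 1 521)) (Pf.C 1 649)) (Pf.C 1 777)) Pf.nil)))) (Pf.C 2 136)) (Pf.C 2 264)) (Pf.C 2 392)) (Pf.C 2 904)) Pf.nil)))) (Pf.C 2 135)) (Pf.C 2 263)) (Pf.C 2 391)) Pf.nil))) (Pf.B 6 1 (Pf.W 37 4 [] [1,2,3,6] (Pf.cons (Pf.B 7 3 (Pf.B 7 2 (Pf.B 7 1 (Pf.B 7 6 (Pf.W 42 7 [] [2,3,6] (Pf.cons (Pf.B 8 6 (Pf.B 8 3 (Pf.B 8 2 (Pf.W 35 8 [] [2,3,6,7] (Pf.cons (Pf.B 9 7 (Pf.B 9 6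 (Pf.C 31 777) (Pf.B 9 3 (Pf.B 9 2 (Pf.C 0 0x4070608486) (Pf.C 2 265)) (Pf.C 2 393))) (Pf.C 2 905)) Pf.nil)) (Pf.C 28 264)) (Pf.C 28 392)) (Pf.C 1 776)) Pf.nil)) (Pf.C 0 0x2010608386)) (Pf.C 2 135)) (Pf.C 2 263)) (Pf.C 2 391)) Pf.nil)) (Pf.W 37 4 [] [1,2,3,5,6] (Pf.cons (Pf.B 7 3 (Pf.B 7 2 (Pf.B 7 1 (Pf.B 7 6 (Pf.W 42 7 [] [1,2,3,6] (Pf.cons (Pf.B 8 6 (Pf.B 8 3 (Pf.B 8 2 (Pf.B 8 1 (Pf.C 0 0x3880608086) (Pf.C 28 136)) (Pf.C 28 264)) (Pf.C 28 392)) (Pf.C 1 776)) Pf.nil)) (Pf.B 7 5 (Pf.W 37 6 [] [1,2,3,4,5,7] (Pf.cons (Pf.B 8 7 (Pf.B 8 3 (Pf.B 8 2 (Pf.B 8 4 (Pf.B 8 1 (Pf.B 8 5 (Pf.W 42 8 [] [1,4,5,6] (Pf.cons (Pf.B 9 6 (Pf.B 9 5 (Pf.B 9 4 (Pf.B 9 1 (Pf.C 0 0x4090c14201)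 (Pf.C 28 137)) (Pf.C 1 521)) (Pf.C 1 649)) (Pf.C 1 777)) Pf.nil)) (Pf.W 42 7 [] [1,2,3,5,6,8] (Pf.cons (Pf.B 9 6 (Pf.B 9 5 (Pf.B 9 3 (Pf.B 9 2 (Pf.B 9 1 (Pf.B 9 8 (Pf.C 0 0x3890404405) (Pf.C 0 0x4090608086)) (Pf.C 28 137)) (Pf.C 28 265)) (Pf.C 28 393)) (Pf.C 1 649)) (Pf.C 1 777)) Pf.nil))) (Pf.C 2 136)) (Pf.C 0 0x2080e0c106)) (Pf.C 2 264)) (Pf.C 2 392)) (Pf.C 2 904)) Pf.nil)) (Pf.W 37 5 [] [1,2,3,4,6,7] (Pf.cons (Pf.B 8 7 (Pf.B 8 3 (Pf.B 8 2 (Pf.B 8 1 (Pf.B 8 6 (Pf.B 8 4 (Pf.W 42 8 [] [1,4,5,6] (Pf.cons (Pf.B 9 6 (Pf.B 9 5 (Pf.B 9 4 (Pf.B 9 1 (Pf.C 0 0x4090c14201) (Pf.C 28 137)) (Pf.C 1 521)) (Pf.C 1 649)) (Pf.C 1 777)) Pf.nil)) (Pf.C 0 0x2080e0c106)) (Pf.B 8 4 (Pf.W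 37 6 [] [1,2,3,4,7,8] (Pf.cons (Pf.B 9 8 (Pf.B 9 7 (Pf.B 9 3 (Pf.B 9 4 (Pf.B 9 2 (Pf.B 9 1 (Pf.W 42 9 [] [1,2,3,4,6,7,8] (Pf.cons (Pf.B 10 6 (Pf.B 10 4 (Pf.B 10 3 (Pf.B 10 2 (Pf.B 10 8 (Pf.C 0 0x48a0608406) (Pf.B 10 7 (Pf.C 0 0x48a0608386) (Pf.B 10 1 (Pf.C 0 0x201122038a) (Pf.C 28 138)))) (Pf.C 28 266)) (Pf.C 28 394)) (Pf.C 1 522)) (Pf.C 1 778)) Pf.nil)) (Pf.C 2 137)) (Pf.C 2 265)) (Pf.C 0 0x209101c186)) (Pf.C 2 393)) (Pf.C 2 905)) (Pf.C 2 1033)) Pf.nil)) (Pf.W 37 6 [] [1,2,3,4,5,7,8] (Pf.cons (Pf.B 9 8 (Pf.B 9 7 (Pf.B 9 3 (Pf.B 9 2 (Pf.B 9 4 (Pf.B 9 5 (Pf.B 9 1 (Pf.W 42 9 [] [1,4,5,6] (Pf.cons (Pf.B 10 6 (Pf.B 10 5 (Pf.B 10 4 (Pf.B 10 1 (Pf.C 0 0x48a0c14201) (Pf.C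 28 138)) (Pf.C 1 522)) (Pf.C 1 650)) (Pf.C 1 778)) Pf.nil)) (Pf.C 2 137)) (Pf.C 0 0x4040e08485)) (Pf.C 0 0x2090e0c106)) (Pf.C 2 265)) (Pf.C 2 393)) (Pf.C 2 905)) (Pf.C 2 1033)) Pf.nil)))) (Pf.C 2 136)) (Pf.C 2 264)) (Pf.C 2 392)) (Pf.C 2 904)) Pf.nil)))) (Pf.C 2 135)) (Pf.C 2 263)) (Pf.C 2 391)) Pf.nil)))) (Pf.C 1 518)) (Pf.C 1 646)) Pf.nil))) (Pf.B 5 1 (Pf.W 37 4 [] [1,2,3,5] (Pf.cons (Pf.B 6 3 (Pf.B 6 2 (Pf.B 6 1 (Pf.B 6 5 (Pf.W 42 6 [] [2,3,5] (Pf.cons (Pf.B 7 5 (Pf.B 7 3 (Pf.B 7 2 (Pf.W 35 7 [] [2,3,5,6] (Pf.cons (Pf.B 8 6 (Pf.B 8 5 (Pf.C 31 648) (Pf.B 8 3 (Pf.B 8 2 (Pf.C 0 0x3860608405) (Pf.C 2 264)) (Pf.C 2 392))) (Pf.C 2 776)) Pf.nil)) (Pf.C 28 263)) (Pf.C 28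 391)) (Pf.C 1 647)) Pf.nil)) (Pf.C 0 0x2010608305)) (Pf.C 2 134)) (Pf.C 2 262)) (Pf.C 2 390)) Pf.nil)) (Pf.W 37 5 [] [1,2,3] (Pf.cons (Pf.B 6 3 (Pf.B 6 2 (Pf.B 6 1 (Pf.W 42 6 [] [1,2,3,5] (Pf.cons (Pf.B 7 5 (Pf.B 7 3 (Pf.B 7 2 (Pf.B 7 1 (Pf.C 0 0x3070608085) (Pf.C 28 135)) (Pf.C 28 263)) (Pf.C 28 391)) (Pf.C 1 647)) Pf.nil)) (Pf.C 2 134)) (Pf.C 2 262)) (Pf.C 2 390)) Pf.nil)))) (Pf.C 1 517)) Pf.nil)) (Pf.W 37 4 [] [1,2,3] (Pf.cons (Pf.B 5 3 (Pf.B 5 2 (Pf.B 5 1 (Pf.W 42 5 [] [1,2,4] (Pf.cons (Pf.B 6 4 (Pf.B 6 2 (Pf.B 6 1 (Pf.W 35 6 [] [1,2,4,5] (Pf.cons (Pf.B 7 5 (Pf.B 7 4 (Pf.C 31 519) (Pf.B 7 2 (Pf.B 7 1 (Pf.C 0 0x3050404384) (Pf.C 2 135)) (Pf.C 2 263))) (Pf.C 2 647))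 Pf.nil)) (Pf.C 28 134)) (Pf.C 28 262)) (Pf.C 1 518)) Pf.nil)) (Pf.C 2 133)) (Pf.C 2 261)) (Pf.C 2 389)) Pf.nil))) (Pf.W 37 4 [] [1,2,3] (Pf.cons (Pf.B 5 3 (Pf.B 5 2 (Pf.B 5 1 (Pf.W 42 5 [] [1,3,4] (Pf.cons (Pf.B 6 4 (Pf.B 6 3 (Pf.B 6 1 (Pf.W 35 6 [] [1,3,4,5] (Pf.cons (Pf.B 7 5 (Pf.B 7 4 (Pf.C 31 519) (Pf.B 7 3 (Pf.B 7 1 (Pf.C 0 0x3050604384) (Pf.C 2 135)) (Pf.C 2 391))) (Pf.C 2 647)) Pf.nil)) (Pf.C 28 134)) (Pf.C 28 390)) (Pf.C 1 518)) Pf.nil)) (Pf.C 2 133)) (Pf.C 2 261)) (Pf.C 2 389)) Pf.nil))) Pf.nil)))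
 (Pq.cons (Pq.L [] 1 (Pf.C 2 257))
 (Pq.cons (Pq.L [] 1 (Pf.W 39 1 [] [2] (Pf.cons (Pf.B 3 2 (Pf.W 44 3 [] [1,2] (Pf.cons (Pf.B 4 2 (Pf.B 4 1 (Pf.W 37 4 [] [1,2,3] (Pf.cons (Pf.B 5 3 (Pf.B 5 2 (Pf.C 33 261) (Pf.B 5 1 (Pf.C 33 133) (Pf.W 42 5 [] [1,2,3,4] (Pf.cons (Pf.B 6 4 (Pf.B 6 3 (Pf.B 6 2 (Pf.B 6 1 (Pf.C 0 0x2030404305) (Pf.C 1 134)) (Pf.C 1 262)) (Pf.C 28 390)) (Pf.C 1 518)) Pf.nil)))) (Pf.C 2 389)) Pf.nil)) (Pf.C 1 132)) (Pf.C 1 260)) Pf.nil)) (Pf.W 39 2 [] [1,3] (Pf.cons (Pf.B 4 3 (Pf.B 4 1 (Pf.W 44 4 [] [1,2] (Pf.cons (Pf.B 5 2 (Pf.B 5 1 (Pf.W 37 5 [] [1,2,4] (Pf.cons (Pf.B 6 4 (Pf.B 6 2 (Pf.C 33 262) (Pf.B 6 1 (Pf.C 33 134) (Pf.W 42 6 [] [1,2,4,5] (Pf.cons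 (Pf.B 7 5 (Pf.B 7 4 (Pf.B 7 2 (Pf.B 7 1 (Pf.C 0 0x2840404386) (Pf.C 1 135)) (Pf.C 1 263)) (Pf.C 28 519)) (Pf.C 1 647)) Pf.nil)))) (Pf.C 2 518)) Pf.nil)) (Pf.C 1 133)) (Pf.C 1 261)) Pf.nil)) (Pf.W 44 3 [] [1,2,4] (Pf.cons (Pf.B 5 2 (Pf.B 5 1 (Pf.B 5 4 (Pf.W 44 4 [] [1,2,3,5] (Pf.cons (Pf.B 6 5 (Pf.B 6 2 (Pf.B 6 1 (Pf.B 6 3 (Pf.W 37 5 [] [1,3,6] (Pf.cons (Pf.B 7 3 (Pf.B 7 1 (Pf.C 33 135) (Pf.B 7 6 (Pf.W 42 7 [] [5,6] (Pf.cons (Pf.B 8 6 (Pf.B 8 5 (Pf.W 35 8 [] [5,6,7] (Pf.cons (Pf.B 9 7 (Pf.B 9 6 (Pf.C 31 777) (Pf.B 9 5 (Pf.C 31 649) (Pf.W 40 9 [] [5,6,7,8] (Pf.cons (Pf.B 10 8 (Pf.B 10 7 (Pf.B 10 6 (Pf.B 10 5 (Pf.C 0 0x4070c14509) (Pf.C 1 650)) (Pf.C 1 778)) (Pf.C 26 906))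 (Pf.C 1 1034)) Pf.nil)))) (Pf.C 2 905)) Pf.nil)) (Pf.C 1 648)) (Pf.C 1 776)) Pf.nil)) (Pf.W 42 7 [] [1,3,5,6] (Pf.cons (Pf.B 8 6 (Pf.B 8 5 (Pf.B 8 3 (Pf.B 8 1 (Pf.C 0 0x2830c04407) (Pf.C 1 136)) (Pf.C 28 392)) (Pf.C 1 648)) (Pf.C 1 776)) Pf.nil)))) (Pf.C 2 391)) Pf.nil)) (Pf.W 37 5 [] [1,2,3,4,6] (Pf.cons (Pf.B 7 4 (Pf.B 7 3 (Pf.B 7 1 (Pf.C 33 135) (Pf.B 7 6 (Pf.W 42 7 [] [3,4,6] (Pf.cons (Pf.B 8 6 (Pf.B 8 4 (Pf.B 8 3 (Pf.W 35 8 [] [3,4,6,7] (Pf.cons (Pf.B 9 7 (Pf.B 9 6 (Pf.C 31 777) (Pf.B 9 4 (Pf.B 9 3 (Pf.C 0 0x407080c486) (Pf.C 2 393)) (Pf.C 2 521))) (Pf.C 2 905)) Pf.nil)) (Pf.C 28 392)) (Pf.C 28 520)) (Pf.C 1 776)) Pf.nil)) (Pf.W 37 6 [] [1,2,3,4,5,7] (Pf.cons (Pf.B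 8 7 (Pf.B 8 4 (Pf.B 8 3 (Pf.B 8 2 (Pf.C 33 264) (Pf.B 8 1 (Pf.C 33 136) (Pf.B 8 5 (Pf.C 0 0x1850e10401) (Pf.W 42 8 [] [2,4,5,6] (Pf.cons (Pf.B 9 6 (Pf.B 9 5 (Pf.B 9 4 (Pf.B 9 2 (Pf.C 0 0x3040a08488) (Pf.C 1 265)) (Pf.C 28 521)) (Pf.C 1 649)) (Pf.C 1 777)) Pf.nil))))) (Pf.C 2 392)) (Pf.C 2 520)) (Pf.C 2 904)) Pf.nil)))) (Pf.C 2 391)) (Pf.C 2 519)) Pf.nil))) (Pf.C 1 134)) (Pf.C 1 262)) (Pf.C 1 646)) Pf.nil)) (Pf.W 37 5 [] [3,4] (Pf.cons (Pf.B 6 4 (Pf.B 6 3 (Pf.W 42 6 [] [3,4,5] (Pf.cons (Pf.B 7 5 (Pf.B 7 4 (Pf.B 7 3 (Pf.W 35 7 [] [3,4,5,6] (Pf.cons (Pf.B 8 6 (Pf.B 8 5 (Pf.C 31 648) (Pf.B 8 4 (Pf.B 8 3 (Pf.C 0 0x386080c405) (Pf.C 2 392)) (Pf.C 2 520))) (Pf.C 2 776)) Pf.nil))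 (Pf.C 28 391)) (Pf.C 28 519)) (Pf.C 1 647)) Pf.nil)) (Pf.C 2 390)) (Pf.C 2 518)) Pf.nil))) (Pf.C 1 133)) (Pf.C 1 261)) Pf.nil))) (Pf.C 2 388)) Pf.nil))) Pf.nil)))
 (Pq.cons (Pq.L [] 1 (Pf.C 1 257))
 (Pq.cons (Pq.L [] 1 (Pf.W 45 1 [] [2] (Pf.cons (Pf.B 3 2 (Pf.W 45 2 [] [1,3] (Pf.cons (Pf.B 4 3 (Pf.B 4 1 (Pf.W 38 3 [] [1,2,4] (Pf.cons (Pf.B 5 2 (Pf.B 5 1 (Pf.B 5 4 (Pf.W 43 5 [] [1,2,3,4] (Pf.cons (Pf.B 6 4 (Pf.B 6 3 (Pf.W 36 6 [] [1,2,3,4,5] (Pf.cons (Pf.B 7 5 (Pf.B 7 4 (Pf.C 32 519) (Pf.B 7 3 (Pf.C 32 391) (Pf.B 7 2 (Pf.B 7 1 (Pf.W 41 7 [] [3,4,5,6] (Pf.cons (Pf.B 8 6 (Pf.B 8 5 (Pf.B 8 4 (Pf.B 8 3 (Pf.C 0 0x305080c407) (Pf.C 1 392)) (Pf.C 1 520)) (Pf.C 27 648)) (Pf.C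 1 776)) Pf.nil)) (Pf.C 2 135)) (Pf.C 2 263)))) (Pf.C 2 647)) Pf.nil)) (Pf.C 1 390)) (Pf.C 1 518)) Pf.nil)) (Pf.W 38 4 [] [1,2,3,5] (Pf.cons (Pf.B 6 5 (Pf.B 6 2 (Pf.B 6 1 (Pf.B 6 3 (Pf.W 43 5 [] [1,2,3,4,6] (Pf.cons (Pf.B 7 4 (Pf.B 7 3 (Pf.B 7 1 (Pf.B 7 6 (Pf.W 43 6 [] [1,2,3,4,5,7] (Pf.cons (Pf.B 8 7 (Pf.B 8 4 (Pf.B 8 3 (Pf.B 8 2 (Pf.B 8 1 (Pf.B 8 5 (Pf.W 36 8 [] [2,4,5,6] (Pf.cons (Pf.B 9 6 (Pf.B 9 5 (Pf.B 9 4 (Pf.C 32 521) (Pf.B 9 2 (Pf.C 0 0x4060a08484) (Pf.C 2 265))) (Pf.C 2 649)) (Pf.C 2 777)) Pf.nil)) (Pf.C 0 0x1810e10405)) (Pf.C 29 136)) (Pf.C 29 264)) (Pf.C 1 392)) (Pf.C 1 520)) (Pf.C 1 904)) Pf.nil)) (Pf.W 36 7 [] [1,2,3,4,6] (Pf.cons (Pf.B 8 6 (Pf.B 8 4 (Pf.C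 32 520) (Pf.B 8 3 (Pf.C 32 392) (Pf.B 8 2 (Pf.B 8 1 (Pf.W 41 8 [] [3,4,6,7] (Pf.cons (Pf.B 9 7 (Pf.B 9 6 (Pf.B 9 4 (Pf.B 9 3 (Pf.C 0 0x386080c488) (Pf.C 1 393)) (Pf.C 1 521)) (Pf.C 27 777)) (Pf.C 1 905)) Pf.nil)) (Pf.C 2 136)) (Pf.C 2 264)))) (Pf.C 2 776)) Pf.nil))) (Pf.C 29 135)) (Pf.C 1 391)) (Pf.C 1 519)) Pf.nil)) (Pf.W 43 5 [] [1,2,3,6] (Pf.cons (Pf.B 7 3 (Pf.B 7 1 (Pf.B 7 6 (Pf.W 36 7 [] [1,3,5,6] (Pf.cons (Pf.B 8 6 (Pf.B 8 5 (Pf.B 8 3 (Pf.C 32 392) (Pf.B 8 1 (Pf.C 0 0x3850c04403) (Pf.C 2 136))) (Pf.C 2 648)) (Pf.C 2 776)) Pf.nil)) (Pf.W 36 7 [] [1,2,5,6] (Pf.cons (Pf.B 8 6 (Pf.B 8 5 (Pf.B 8 2 (Pf.B 8 1 (Pf.W 41 8 [] [5,6,7] (Pf.cons (Pf.B 9 7 (Pf.B 9 6 (Pf.B 9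 5 (Pf.W 34 9 [] [5,6,7,8] (Pf.cons (Pf.B 10 8 (Pf.B 10 7 (Pf.C 30 906) (Pf.B 10 6 (Pf.B 10 5 (Pf.C 0 0x4880c14507) (Pf.C 2 650)) (Pf.C 2 778))) (Pf.C 2 1034)) Pf.nil)) (Pf.C 27 649)) (Pf.C 27 777)) (Pf.C 1 905)) Pf.nil)) (Pf.C 2 136)) (Pf.C 2 264)) (Pf.C 2 648)) (Pf.C 2 776)) Pf.nil))) (Pf.C 29 135)) (Pf.C 1 391)) Pf.nil))) (Pf.C 2 134)) (Pf.C 2 262)) (Pf.C 2 646)) Pf.nil))) (Pf.C 2 133)) (Pf.C 2 261)) Pf.nil)) (Pf.W 38 4 [] [1,2] (Pf.cons (Pf.B 5 2 (Pf.B 5 1 (Pf.W 43 5 [] [1,2,4] (Pf.cons (Pf.B 6 4 (Pf.B 6 2 (Pf.B 6 1 (Pf.W 36 6 [] [1,2,4,5] (Pf.cons (Pf.B 7 5 (Pf.B 7 4 (Pf.C 32 519) (Pf.B 7 2 (Pf.B 7 1 (Pf.C 0 0x3050404384) (Pf.C 2 135)) (Pf.C 2 263))) (Pf.C 2 647))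 Pf.nil)) (Pf.C 29 134)) (Pf.C 29 262)) (Pf.C 1 518)) Pf.nil)) (Pf.C 2 133)) (Pf.C 2 261)) Pf.nil))) (Pf.C 1 388)) Pf.nil)) (Pf.W 38 3 [] [1,2] (Pf.cons (Pf.B 4 2 (Pf.B 4 1 (Pf.W 43 4 [] [1,2,3] (Pf.cons (Pf.B 5 3 (Pf.B 5 2 (Pf.B 5 1 (Pf.W 36 5 [] [1,2,3,4] (Pf.cons (Pf.B 6 4 (Pf.B 6 3 (Pf.C 32 390) (Pf.B 6 2 (Pf.B 6 1 (Pf.C 0 0x2840404303) (Pf.C 2 134)) (Pf.C 2 262))) (Pf.C 2 518)) Pf.nil)) (Pf.C 29 133)) (Pf.C 29 261)) (Pf.C 1 389)) Pf.nil)) (Pf.C 2 132)) (Pf.C 2 260)) Pf.nil))) Pf.nil)))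
 (Pq.cons (Pq.L [] 1 (Pf.C 2 257))
 Pq.nil))))))))
theorem bP_o11 : AllRef bP_T bP_G7 (hitObl [33,34,42,43] bP_h13) :=
  chkPq_sound bP_o11c _ (by decide +kernel)
noncomputable def bP_o12c : Pq := (Pq.cons (Pq.L [] 0 (Pf.C 60 1))
 (Pq.cons (Pq.L [] 0 (Pf.C 61 1))
 (Pq.cons (Pq.L [] 0 (Pf.C 62 1))
 (Pq.cons (Pq.L [] 0 (Pf.C 63 1))
 Pq.nil))))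
theorem bP_o12 : AllRef bP_T bP_G13 (List.map pat1 [61,63,62,64]) :=
  chkPq_sound bP_o12c _ (by decide +kernel)
noncomputable def bP_o13c : Pq := (Pq.cons (Pq.L [] 3 (Pf.B 3 2 (Pf.W 36 2 [] [1,3] (Pf.cons (Pf.B 4 1 (Pf.B 4 3 (Pf.W 42 1 [] [2,3,4] (Pf.cons (Pf.B 5 3 (Pf.B 5 2 (Pf.B 5 4 (Pf.W 41 4 [] [2,3,5] (Pf.cons (Pf.B 6 5 (Pf.B 6 3 (Pf.B 6 2 (Pf.W 34 6 [] [2,3,4,5] (Pf.cons (Pf.B 7 5 (Pf.C 30 647) (Pf.B 7 4 (Pf.B 7 3 (Pf.C 30 391) (Pf.B 7 2 (Pf.C 30 263) (Pf.C 0 0x3040a0c107))) (Pf.C 2 519))) Pf.nil)) (Pf.C 1 262)) (Pf.C 1 390)) (Pf.C 1 646)) Pf.nil)) (Pf.W 35 5 [] [1,2,3,4] (Pf.cons (Pf.B 6 4 (Pf.B 6 3 (Pf.C 31 390) (Pf.B 6 2 (Pf.C 31 262) (Pf.B 6 1 (Pf.W 40 6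 [] [2,3,4,5] (Pf.cons (Pf.B 7 5 (Pf.B 7 4 (Pf.B 7 3 (Pf.B 7 2 (Pf.C 0 0x2840608386) (Pf.C 1 263)) (Pf.C 1 391)) (Pf.C 26 519)) (Pf.C 1 647)) Pf.nil)) (Pf.C 2 134)))) (Pf.C 2 518)) Pf.nil))) (Pf.C 1 261)) (Pf.C 1 389)) Pf.nil)) (Pf.W 36 3 [] [1,2,4] (Pf.cons (Pf.B 5 4 (Pf.B 5 1 (Pf.B 5 2 (Pf.W 42 1 [] [2,3,4,5] (Pf.cons (Pf.B 6 3 (Pf.B 6 2 (Pf.B 6 5 (Pf.B 6 4 (Pf.W 35 6 [] [1,2,3,4,5] (Pf.cons (Pf.B 7 5 (Pf.B 7 4 (Pf.B 7 3 (Pf.C 31 391) (Pf.B 7 2 (Pf.C 31 263) (Pf.B 7 1 (Pf.W 41 4 [] [1,2,3,5,6,7] (Pf.cons (Pf.B 8 6 (Pf.B 8 3 (Pf.B 8 2 (Pf.B 8 1 (Pf.B 8 7 (Pf.W 34 8 [] [1,2,4,7] (Pf.cons (Pf.B 9 7 (Pf.B 9 4 (Pf.B 9 2 (Pf.C 30 265) (Pf.B 9 1 (Pf.C 0 0x4040e04482) (Pf.C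 2 137))) (Pf.C 2 521)) (Pf.C 2 905)) Pf.nil)) (Pf.B 8 5 (Pf.W 41 5 [] [1,2,3,6,7,8] (Pf.cons (Pf.B 9 8 (Pf.B 9 6 (Pf.B 9 3 (Pf.B 9 2 (Pf.B 9 7 (Pf.C 0 0x289100c107) (Pf.B 9 1 (Pf.C 0 0x301100c487) (Pf.C 27 137))) (Pf.C 1 265)) (Pf.C 1 393)) (Pf.C 1 777)) (Pf.C 1 1033)) Pf.nil)) (Pf.C 0 0x3010e10288))) (Pf.C 27 136)) (Pf.C 1 264)) (Pf.C 1 392)) (Pf.C 1 776)) Pf.nil)) (Pf.C 2 135)))) (Pf.C 2 519)) (Pf.C 2 647)) Pf.nil)) (Pf.W 41 4 [] [1,2,3,5,6] (Pf.cons (Pf.B 7 6 (Pf.B 7 3 (Pf.B 7 2 (Pf.B 7 1 (Pf.B 7 5 (Pf.W 41 5 [] [1,2,3,4,6,7] (Pf.cons (Pf.B 8 7 (Pf.B 8 6 (Pf.B 8 3 (Pf.B 8 4 (Pf.C 0 0x2880e18184) (Pf.B 8 2 (Pf.B 8 1 (Pf.C 0 0x1010e0c404) (Pf.C 27 136)) (Pf.C 1 264)))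 (Pf.C 1 392)) (Pf.C 1 776)) (Pf.C 1 904)) Pf.nil)) (Pf.W 34 7 [] [2,3,5,6] (Pf.cons (Pf.B 8 6 (Pf.C 30 776) (Pf.B 8 5 (Pf.B 8 3 (Pf.C 30 392) (Pf.B 8 2 (Pf.C 30 264) (Pf.C 0 0x3850c0c108))) (Pf.C 2 648))) Pf.nil))) (Pf.C 27 135)) (Pf.C 1 263)) (Pf.C 1 391)) (Pf.C 1 775)) Pf.nil))) (Pf.W 35 6 [] [1,2,3,5] (Pf.cons (Pf.B 7 5 (Pf.B 7 3 (Pf.C 31 391) (Pf.B 7 2 (Pf.C 31 263) (Pf.B 7 1 (Pf.W 40 7 [] [2,3,5,6] (Pf.cons (Pf.B 8 6 (Pf.B 8 5 (Pf.B 8 3 (Pf.B 8 2 (Pf.C 0 0x3050608407) (Pf.C 1 264)) (Pf.C 1 392)) (Pf.C 26 648)) (Pf.C 1 776)) Pf.nil)) (Pf.C 2 135)))) (Pf.C 2 647)) Pf.nil))) (Pf.C 1 262)) (Pf.C 1 390)) Pf.nil)) (Pf.W 42 1 [] [2,3,4,5] (Pf.cons (Pf.B 6 3 (Pf.B 6 5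 (Pf.B 6 4 (Pf.W 35 6 [] [1,2,4,5] (Pf.cons (Pf.B 7 5 (Pf.B 7 4 (Pf.B 7 2 (Pf.C 31 263) (Pf.B 7 1 (Pf.W 41 4 [] [1,2,5,6,7] (Pf.cons (Pf.B 8 6 (Pf.B 8 2 (Pf.B 8 1 (Pf.B 8 7 (Pf.W 34 8 [] [1,2,4,7] (Pf.cons (Pf.B 9 7 (Pf.B 9 4 (Pf.B 9 2 (Pf.C 30 265) (Pf.B 9 1 (Pf.C 0 0x4040e04482) (Pf.C 2 137))) (Pf.C 2 521)) (Pf.C 2 905)) Pf.nil)) (Pf.B 8 5 (Pf.W 34 8 [] [1,2,4,5] (Pf.cons (Pf.B 9 5 (Pf.B 9 4 (Pf.B 9 2 (Pf.C 30 265) (Pf.B 9 1 (Pf.C 0 0x4040a04482) (Pf.C 2 137))) (Pf.C 2 521)) (Pf.C 2 649)) Pf.nil)) (Pf.C 0 0x3010e10288))) (Pf.C 27 136)) (Pf.C 1 264)) (Pf.C 1 776)) Pf.nil)) (Pf.C 2 135))) (Pf.C 2 519)) (Pf.C 2 647)) Pf.nil)) (Pf.W 35 6 [] [1,2,3,4] (Pf.cons (Pf.B 7 4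 (Pf.B 7 3 (Pf.C 31 391) (Pf.B 7 2 (Pf.C 31 263) (Pf.B 7 1 (Pf.W 41 4 [] [1,2,3,6,7] (Pf.cons (Pf.B 8 6 (Pf.B 8 3 (Pf.B 8 2 (Pf.B 8 1 (Pf.B 8 7 (Pf.W 34 8 [] [1,2,4,7] (Pf.cons (Pf.B 9 7 (Pf.B 9 4 (Pf.B 9 2 (Pf.C 30 265) (Pf.B 9 1 (Pf.C 0 0x4040e04482) (Pf.C 2 137))) (Pf.C 2 521)) (Pf.C 2 905)) Pf.nil)) (Pf.W 40 7 [] [1,3,6,8] (Pf.cons (Pf.B 9 8 (Pf.B 9 6 (Pf.B 9 3 (Pf.B 9 1 (Pf.C 0 0x301100c487) (Pf.C 26 137)) (Pf.C 1 393)) (Pf.C 1 777)) (Pf.C 1 1033)) Pf.nil))) (Pf.C 27 136)) (Pf.C 1 264)) (Pf.C 1 392)) (Pf.C 1 776)) Pf.nil)) (Pf.C 2 135)))) (Pf.C 2 519)) Pf.nil))) (Pf.B 6 4 (Pf.W 35 6 [] [1,2,3,4] (Pf.cons (Pf.B 7 4 (Pf.B 7 3 (Pf.C 31 391) (Pf.B 7 2 (Pf.C 31 263)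 (Pf.B 7 1 (Pf.W 41 4 [] [1,2,3,6,7] (Pf.cons (Pf.B 8 6 (Pf.B 8 3 (Pf.B 8 2 (Pf.B 8 1 (Pf.B 8 7 (Pf.W 34 8 [] [1,2,4,7] (Pf.cons (Pf.B 9 7 (Pf.B 9 4 (Pf.B 9 2 (Pf.C 30 265) (Pf.B 9 1 (Pf.C 0 0x4040e04482) (Pf.C 2 137))) (Pf.C 2 521)) (Pf.C 2 905)) Pf.nil)) (Pf.W 40 7 [] [1,3,6,8] (Pf.cons (Pf.B 9 8 (Pf.B 9 6 (Pf.B 9 3 (Pf.B 9 1 (Pf.C 0 0x301100c487) (Pf.C 26 137)) (Pf.C 1 393)) (Pf.C 1 777)) (Pf.C 1 1033)) Pf.nil))) (Pf.C 27 136)) (Pf.C 1 264)) (Pf.C 1 392)) (Pf.C 1 776)) Pf.nil)) (Pf.C 2 135)))) (Pf.C 2 519)) Pf.nil)) (Pf.W 35 6 [] [1,4,5] (Pf.cons (Pf.B 7 5 (Pf.B 7 4 (Pf.B 7 1 (Pf.W 40 7 [] [1,4,5,6] (Pf.cons (Pf.B 8 6 (Pf.B 8 5 (Pf.B 8 4 (Pf.B 8 1 (Pf.C 0 0x3880a10086)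 (Pf.C 26 136)) (Pf.C 26 520)) (Pf.C 26 648)) (Pf.C 1 776)) Pf.nil)) (Pf.C 2 135)) (Pf.C 2 519)) (Pf.C 2 647)) Pf.nil)))) (Pf.C 1 390)) Pf.nil))) (Pf.C 2 133)) (Pf.C 2 517)) Pf.nil))) (Pf.C 2 132)) Pf.nil)) (Pf.C 1 259)))
 (Pq.cons (Pq.L [] 1 (Pf.C 1 257))
 (Pq.cons (Pq.L [] 1 (Pf.C 2 257))
 (Pq.cons (Pq.L [] 3 (Pf.B 3 2 (Pf.W 37 1 [] [2,3] (Pf.cons (Pf.B 4 3 (Pf.B 4 2 (Pf.W 43 2 [] [1,3,4] (Pf.cons (Pf.B 5 1 (Pf.B 5 4 (Pf.B 5 3 (Pf.W 43 3 [] [1,2,4,5] (Pf.cons (Pf.B 6 5 (Pf.B 6 1 (Pf.B 6 4 (Pf.W 42 4 [] [1,5,6] (Pf.cons (Pf.B 7 6 (Pf.B 7 5 (Pf.B 7 1 (Pf.W 35 7 [] [1,4,5,6] (Pf.cons (Pf.B 8 6 (Pf.C 31 776) (Pf.B 8 5 (Pf.C 31 648) (Pf.B 8 4 (Pf.B 8 1 (Pf.C 31 136) (Pf.C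 0 0x3840c14088)) (Pf.C 2 520)))) Pf.nil)) (Pf.C 1 135)) (Pf.C 1 647)) (Pf.C 1 775)) Pf.nil)) (Pf.B 6 2 (Pf.W 36 5 [] [1,2,3,4,6] (Pf.cons (Pf.B 7 4 (Pf.B 7 3 (Pf.B 7 2 (Pf.B 7 6 (Pf.B 7 1 (Pf.C 32 135) (Pf.W 42 4 [] [1,2,3,6,7] (Pf.cons (Pf.B 8 6 (Pf.B 8 3 (Pf.B 8 2 (Pf.B 8 1 (Pf.B 8 7 (Pf.W 35 8 [] [1,2,4,7] (Pf.cons (Pf.B 9 7 (Pf.B 9 4 (Pf.B 9 2 (Pf.B 9 1 (Pf.C 31 137) (Pf.C 0 0x4040e08481)) (Pf.C 2 265)) (Pf.C 2 521)) (Pf.C 2 905)) Pf.nil)) (Pf.W 41 7 [] [1,3,6,8] (Pf.cons (Pf.B 9 8 (Pf.B 9 6 (Pf.B 9 3 (Pf.B 9 1 (Pf.C 0 0x3031004487) (Pf.C 1 137)) (Pf.C 27 393)) (Pf.C 1 777)) (Pf.C 1 1033)) Pf.nil))) (Pf.C 1 136)) (Pf.C 28 264)) (Pf.C 28 392)) (Pf.C 1 776)) Pf.nil)))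 (Pf.C 0 0x282080c386)) (Pf.C 2 263)) (Pf.C 2 391)) (Pf.C 2 519)) Pf.nil)) (Pf.W 36 6 [] [2,3,4] (Pf.cons (Pf.B 7 4 (Pf.B 7 3 (Pf.B 7 2 (Pf.W 41 7 [] [2,3,4,6] (Pf.cons (Pf.B 8 6 (Pf.B 8 4 (Pf.B 8 3 (Pf.B 8 2 (Pf.C 0 0x388080c106) (Pf.C 27 264)) (Pf.C 27 392)) (Pf.C 27 520)) (Pf.C 1 776)) Pf.nil)) (Pf.C 2 263)) (Pf.C 2 391)) (Pf.C 2 519)) Pf.nil)))) (Pf.C 1 134)) (Pf.C 1 646)) Pf.nil)) (Pf.W 42 4 [] [2,3,5] (Pf.cons (Pf.B 6 5 (Pf.B 6 3 (Pf.B 6 2 (Pf.W 35 6 [] [2,3,4,5] (Pf.cons (Pf.B 7 5 (Pf.C 31 647) (Pf.B 7 4 (Pf.B 7 3 (Pf.B 7 2 (Pf.C 0 0x3040608385) (Pf.C 2 263)) (Pf.C 2 391)) (Pf.C 2 519))) Pf.nil)) (Pf.C 28 262)) (Pf.C 28 390)) (Pf.C 1 646)) Pf.nil))) (Pf.B 5 3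 (Pf.W 43 3 [] [1,2,4,5] (Pf.cons (Pf.B 6 5 (Pf.B 6 1 (Pf.B 6 4 (Pf.W 36 5 [] [1,2,3,4,6] (Pf.cons (Pf.B 7 4 (Pf.B 7 3 (Pf.B 7 2 (Pf.B 7 1 (Pf.C 32 135) (Pf.B 7 6 (Pf.W 42 4 [] [1,2,3,6,7] (Pf.cons (Pf.B 8 6 (Pf.B 8 3 (Pf.B 8 2 (Pf.B 8 1 (Pf.B 8 7 (Pf.W 35 8 [] [1,2,4,7] (Pf.cons (Pf.B 9 7 (Pf.B 9 4 (Pf.B 9 2 (Pf.B 9 1 (Pf.C 31 137) (Pf.C 0 0x4040e08481)) (Pf.C 2 265)) (Pf.C 2 521)) (Pf.C 2 905)) Pf.nil)) (Pf.W 41 7 [] [1,3,6,8] (Pf.cons (Pf.B 9 8 (Pf.B 9 6 (Pf.B 9 3 (Pf.B 9 1 (Pf.C 0 0x3031004487) (Pf.C 1 137)) (Pf.C 27 393)) (Pf.C 1 777)) (Pf.C 1 1033)) Pf.nil))) (Pf.C 1 136)) (Pf.C 28 264)) (Pf.C 28 392)) (Pf.C 1 776)) Pf.nil)) (Pf.W 41 7 [] [1,4,5,6] (Pf.cons (Pf.B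 8 6 (Pf.B 8 5 (Pf.B 8 4 (Pf.B 8 1 (Pf.C 0 0x2840c04407) (Pf.C 1 136)) (Pf.C 27 520)) (Pf.C 1 648)) (Pf.C 1 776)) Pf.nil)))) (Pf.C 2 263)) (Pf.C 2 391)) (Pf.C 2 519)) Pf.nil)) (Pf.B 6 2 (Pf.W 36 5 [] [1,2,3,4,6] (Pf.cons (Pf.B 7 4 (Pf.B 7 3 (Pf.B 7 2 (Pf.B 7 1 (Pf.C 32 135) (Pf.B 7 6 (Pf.W 42 4 [] [1,3,5,6,7] (Pf.cons (Pf.B 8 6 (Pf.B 8 5 (Pf.B 8 3 (Pf.B 8 1 (Pf.B 8 7 (Pf.C 0 0x870c14404) (Pf.W 41 7 [] [1,3,6,8] (Pf.cons (Pf.B 9 8 (Pf.B 9 6 (Pf.B 9 3 (Pf.B 9 1 (Pf.C 0 0x3031004487) (Pf.C 1 137)) (Pf.C 27 393)) (Pf.C 1 777)) (Pf.C 1 1033)) Pf.nil))) (Pf.C 1 136)) (Pf.C 28 392)) (Pf.C 1 648)) (Pf.C 1 776)) Pf.nil)) (Pf.W 36 6 [] [1,2,3,4,5,7] (Pf.cons (Pf.B 8 7 (Pf.B 8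 4 (Pf.B 8 3 (Pf.B 8 2 (Pf.B 8 1 (Pf.C 32 136) (Pf.B 8 5 (Pf.W 42 4 [] [1,2,3,5,6,7,8] (Pf.cons (Pf.B 9 6 (Pf.B 9 5 (Pf.B 9 3 (Pf.B 9 2 (Pf.B 9 1 (Pf.B 9 8 (Pf.C 0 0x880c14484) (Pf.B 9 7 (Pf.W 35 9 [] [3,6,7,8] (Pf.cons (Pf.B 10 8 (Pf.B 10 7 (Pf.B 10 6 (Pf.C 31 778) (Pf.B 10 3 (Pf.C 0 0x4880e0c506) (Pf.C 2 394))) (Pf.C 2 906)) (Pf.C 2 1034)) Pf.nil)) (Pf.W 41 7 [] [2,5,6,9] (Pf.cons (Pf.B 10 9 (Pf.B 10 6 (Pf.B 10 5 (Pf.B 10 2 (Pf.C 0 0x2821218507) (Pf.C 27 266)) (Pf.C 1 650)) (Pf.C 1 778)) (Pf.C 1 1162)) Pf.nil)))) (Pf.C 1 137)) (Pf.C 28 265)) (Pf.C 28 393)) (Pf.C 1 649)) (Pf.C 1 777)) Pf.nil)) (Pf.W 41 7 [] [1,2,3,4,5,6,8] (Pf.cons (Pf.B 9 6 (Pf.B 9 5 (Pf.B 9 4 (Pf.B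 9 3 (Pf.B 9 2 (Pf.B 9 8 (Pf.C 0 0x3890808405) (Pf.B 9 1 (Pf.C 0 0x3030a04488) (Pf.C 1 137))) (Pf.C 27 265)) (Pf.C 27 393)) (Pf.C 27 521)) (Pf.C 1 649)) (Pf.C 1 777)) Pf.nil)))) (Pf.C 2 264)) (Pf.C 2 392)) (Pf.C 2 520)) (Pf.C 2 904)) Pf.nil)))) (Pf.C 2 263)) (Pf.C 2 391)) (Pf.C 2 519)) Pf.nil)) (Pf.W 36 6 [] [2,3,4] (Pf.cons (Pf.B 7 4 (Pf.B 7 3 (Pf.B 7 2 (Pf.W 41 7 [] [2,3,4,6] (Pf.cons (Pf.B 8 6 (Pf.B 8 4 (Pf.B 8 3 (Pf.B 8 2 (Pf.C 0 0x388080c106) (Pf.C 27 264)) (Pf.C 27 392)) (Pf.C 27 520)) (Pf.C 1 776)) Pf.nil)) (Pf.C 2 263)) (Pf.C 2 391)) (Pf.C 2 519)) Pf.nil)))) (Pf.C 1 134)) (Pf.C 1 646)) Pf.nil)) (Pf.W 36 5 [] [2,3,4] (Pf.cons (Pf.B 6 4 (Pf.B 6 3 (Pf.B 6 2 (Pf.W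 41 6 [] [2,3,4,5] (Pf.cons (Pf.B 7 5 (Pf.B 7 4 (Pf.B 7 3 (Pf.B 7 2 (Pf.C 0 0x307080c105) (Pf.C 27 263)) (Pf.C 27 391)) (Pf.C 27 519)) (Pf.C 1 647)) Pf.nil)) (Pf.C 2 262)) (Pf.C 2 390)) (Pf.C 2 518)) Pf.nil)))) (Pf.C 1 133)) Pf.nil)) (Pf.C 2 260)) (Pf.C 2 388)) Pf.nil)) (Pf.C 2 259)))
 Pq.nil))))
theorem bP_o13 : AllRef bP_T bP_G14 (splitObl [31,41] [40,32]) :=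
  chkPq_sound bP_o13c _ (by decide +kernel)
noncomputable def bP_o14c : Pq := (Pq.cons (Pq.L [] 3 (Pf.B 3 2 (Pf.W 36 1 [] [2,3] (Pf.cons (Pf.B 4 3 (Pf.B 4 2 (Pf.W 41 4 [] [1,2,3] (Pf.cons (Pf.B 5 3 (Pf.B 5 2 (Pf.B 5 1 (Pf.W 34 5 [] [1,2,3,4] (Pf.cons (Pf.B 6 4 (Pf.B 6 3 (Pf.B 6 2 (Pf.B 6 1 (Pf.C 30 134) (Pf.C 0 0x2840608301)) (Pf.C 2 262)) (Pf.C 2 390)) (Pf.C 2 518)) Pf.nil)) (Pf.C 1 133)) (Pf.C 27 261)) (Pf.C 27 389)) Pf.nil)) (Pf.C 2 260)) (Pf.C 2 388)) Pf.nil)) (Pf.C 2 259)))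
 Pq.nil)
theorem bP_o14 : AllRef bP_T bP_G14 [⟨[[31],[41],[41]],[⟨0,1,true⟩,⟨0,2,true⟩],[],[]⟩] :=
  chkPq_sound bP_o14c _ (by decide +kernel)
noncomputable def bP_o15c : Pq := (Pq.cons (Pq.L [] 0 (Pf.W 43 1 [] [2,3,4] (Pf.cons (Pf.B 5 4 (Pf.B 5 3 (Pf.B 5 2 (Pf.W 43 2 [] [1,3,4,5] (Pf.cons (Pf.B 6 5 (Pf.B 6 4 (Pf.B 6 3 (Pf.B 6 1 (Pf.W 43 3 [] [1,2,4,5,6] (Pf.cons (Pf.B 7 6 (Pf.B 7 5 (Pf.B 7 4 (Pf.B 7 2 (Pf.B 7 1 (Pf.W 43 4 [] [1,2,3,5,6,7] (Pf.cons (Pf.B 8 7 (Pf.B 8 6 (Pf.B 8 5 (Pf.B 8 3 (Pf.B 8 2 (Pf.B 8 1 (Pf.W 36 5 [] [1,2,3,4,6,7,8] (Pf.cons (Pf.B 9 4 (Pf.B 9 3 (Pf.B 9 2 (Pf.B 9 1 (Pf.B 9 8 (Pf.B 9 7 (Pf.W 41 9 [] [5,7,8] (Pf.cons (Pf.B 10 8 (Pf.B 10 7 (Pf.B 10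 5 (Pf.W 34 10 [] [5,7,8,9] (Pf.cons (Pf.B 11 9 (Pf.B 11 8 (Pf.C 30 1035) (Pf.B 11 7 (Pf.C 30 907) (Pf.B 11 5 (Pf.C 30 651) (Pf.C 0 0x509101c28b)))) (Pf.C 2 1163)) Pf.nil)) (Pf.C 1 650)) (Pf.C 1 906)) (Pf.C 1 1034)) Pf.nil)) (Pf.B 9 6 (Pf.W 41 9 [] [5,6,8] (Pf.cons (Pf.B 10 8 (Pf.B 10 6 (Pf.B 10 5 (Pf.W 34 10 [] [5,6,8,9] (Pf.cons (Pf.B 11 9 (Pf.B 11 8 (Pf.C 30 1035) (Pf.B 11 6 (Pf.C 30 779) (Pf.B 11 5 (Pf.C 30 651) (Pf.C 0 0x509101828b)))) (Pf.C 2 1163)) Pf.nil)) (Pf.C 1 650)) (Pf.C 1 778)) (Pf.C 1 1034)) Pf.nil)) (Pf.W 41 9 [] [4,6,7,8] (Pf.cons (Pf.B 10 8 (Pf.B 10 7 (Pf.B 10 6 (Pf.B 10 4 (Pf.C 0 0x4040e18509) (Pf.C 27 522)) (Pf.C 1 778)) (Pf.C 1 906)) (Pf.C 1 1034))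 Pf.nil)))) (Pf.B 9 7 (Pf.B 9 6 (Pf.W 41 9 [] [5,6,7] (Pf.cons (Pf.B 10 7 (Pf.B 10 6 (Pf.B 10 5 (Pf.W 34 10 [] [5,6,7,9] (Pf.cons (Pf.B 11 9 (Pf.B 11 7 (Pf.C 30 907) (Pf.B 11 6 (Pf.C 30 779) (Pf.B 11 5 (Pf.C 30 651) (Pf.C 0 0x5090e1828b)))) (Pf.C 2 1163)) Pf.nil)) (Pf.C 1 650)) (Pf.C 1 778)) (Pf.C 1 906)) Pf.nil)) (Pf.W 41 9 [] [3,6,7,8] (Pf.cons (Pf.B 10 8 (Pf.B 10 7 (Pf.B 10 6 (Pf.B 10 3 (Pf.C 0 0x3831018509) (Pf.C 27 394)) (Pf.C 1 778)) (Pf.C 1 906)) (Pf.C 1 1034)) Pf.nil))) (Pf.B 9 6 (Pf.W 41 9 [] [2,6,7,8] (Pf.cons (Pf.B 10 8 (Pf.B 10 7 (Pf.B 10 6 (Pf.B 10 2 (Pf.C 0 0x302101c509) (Pf.C 27 266)) (Pf.C 1 778)) (Pf.C 1 906)) (Pf.C 1 1034)) Pf.nil)) (Pf.C 0 0x281101c309))))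 (Pf.C 2 137)) (Pf.C 2 265)) (Pf.C 2 393)) (Pf.C 2 521)) Pf.nil)) (Pf.C 64 65672)) (Pf.C 64 65800)) (Pf.C 64 65928)) (Pf.C 1 648)) (Pf.C 1 776)) (Pf.C 1 904)) Pf.nil)) (Pf.C 64 49287)) (Pf.C 64 49415)) (Pf.C 64 49671)) (Pf.C 1 647)) (Pf.C 1 775)) Pf.nil)) (Pf.C 64 32902)) (Pf.C 64 33158)) (Pf.C 64 33286)) (Pf.C 1 646)) Pf.nil)) (Pf.C 64 16645)) (Pf.C 64 16773)) (Pf.C 64 16901)) Pf.nil)))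
 (Pq.cons (Pq.L [] 1 (Pf.C 2 257))
 Pq.nil))
theorem bP_o15 : AllRef bP_T bP_G15 (hitObl [41] bP_h17) :=
  chkPq_sound bP_o15c _ (by decide +kernel)
noncomputable def bP_o16c : Pq := (Pq.cons (Pq.L [] 0 (Pf.C 65 1))
 Pq.nil)
theorem bP_o16 : AllRef bP_T bP_G16 (List.map pat1 [65]) :=
  chkPq_sound bP_o16c _ (by decide +kernel)
noncomputable def bP_o17c : Pq := (Pq.cons (Pq.L [] 1 (Pf.C 1 257))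
 Pq.nil)
theorem bP_o17 : AllRef bP_T bP_G17 (applyObl TD2 1 [31] [0] []) :=
  chkPq_sound bP_o17c _ (by decide +kernel)
noncomputable def bP_o18c : Pq := (Pq.cons (Pq.L [] 3 (Pf.B 3 2 (Pf.W 42 1 [] [2,3] (Pf.cons (Pf.B 4 3 (Pf.B 4 2 (Pf.W 35 4 [] [1,2,3] (Pf.cons (Pf.B 5 3 (Pf.C 31 389) (Pf.B 5 2 (Pf.C 31 261) (Pf.B 5 1 (Pf.W 40 5 [] [1,2,3,4] (Pf.cons (Pf.B 6 4 (Pf.B 6 3 (Pf.B 6 2 (Pf.B 6 1 (Pf.C 0 0x2010608305) (Pf.C 26 134)) (Pf.C 1 262)) (Pf.C 1 390)) (Pf.C 1 518)) Pf.nil)) (Pf.C 2 133)))) Pf.nil)) (Pf.C 1 260)) (Pf.C 1 388)) Pf.nil)) (Pf.C 1 259)))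
 Pq.nil)
theorem bP_o18 : AllRef bP_T bP_G14 [⟨[[40],[32],[32]],[⟨0,1,false⟩,⟨0,2,false⟩],[],[]⟩] :=
  chkPq_sound bP_o18c _ (by decide +kernel)
noncomputable def bP_o19c : Pq := (Pq.cons (Pq.L [] 0 (Pf.W 37 4 [] [1,2,3] (Pf.cons (Pf.B 5 3 (Pf.C 66 65925) (Pf.B 5 2 (Pf.C 66 65797) (Pf.B 5 1 (Pf.C 66 65669) (Pf.W 37 1 [] [2,3,4,5] (Pf.cons (Pf.B 6 5 (Pf.B 6 4 (Pf.C 66 16902) (Pf.B 6 3 (Pf.C 66 16774) (Pf.B 6 2 (Pf.C 66 16646) (Pf.W 37 2 [] [3,4,5,6] (Pf.cons (Pf.B 7 6 (Pf.B 7 5 (Pf.B 7 4 (Pf.C 66 33287) (Pf.B 7 3 (Pf.C 66 33159) (Pf.W 37 3 [] [4,5,6,7] (Pf.cons (Pf.B 8 7 (Pf.B 8 6 (Pf.B 8 5 (Pf.B 8 4 (Pf.C 66 49672) (Pf.W 42 5 [] [4,6,7,8] (Pf.cons (Pf.B 9 4 (Pf.B 9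 8 (Pf.B 9 7 (Pf.W 35 9 [] [4,5,7,8] (Pf.cons (Pf.B 10 8 (Pf.B 10 7 (Pf.B 10 5 (Pf.B 10 4 (Pf.C 31 522) (Pf.C 0 0x485101c504)) (Pf.C 2 650)) (Pf.C 2 906)) (Pf.C 2 1034)) Pf.nil)) (Pf.B 9 6 (Pf.W 35 9 [] [4,5,6,8] (Pf.cons (Pf.B 10 8 (Pf.B 10 6 (Pf.B 10 5 (Pf.B 10 4 (Pf.C 31 522) (Pf.C 0 0x4851018504)) (Pf.C 2 650)) (Pf.C 2 778)) (Pf.C 2 1034)) Pf.nil)) (Pf.W 35 9 [] [5,6,7] (Pf.cons (Pf.B 10 7 (Pf.B 10 6 (Pf.B 10 5 (Pf.W 40 10 [] [5,6,7,9] (Pf.cons (Pf.B 11 9 (Pf.B 11 7 (Pf.B 11 6 (Pf.B 11 5 (Pf.C 0 0x50b0e18289) (Pf.C 26 651)) (Pf.C 26 779)) (Pf.C 26 907)) (Pf.C 1 1163)) Pf.nil)) (Pf.C 2 650)) (Pf.C 2 778)) (Pf.C 2 906)) Pf.nil)))) (Pf.B 9 7 (Pf.B 9 6 (Pf.W 35 9 []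 [4,5,6,7] (Pf.cons (Pf.B 10 7 (Pf.B 10 6 (Pf.B 10 5 (Pf.B 10 4 (Pf.C 31 522) (Pf.C 0 0x4850e18504)) (Pf.C 2 650)) (Pf.C 2 778)) (Pf.C 2 906)) Pf.nil)) (Pf.W 35 9 [] [5,6,8] (Pf.cons (Pf.B 10 8 (Pf.B 10 6 (Pf.B 10 5 (Pf.W 40 10 [] [5,6,8,9] (Pf.cons (Pf.B 11 9 (Pf.B 11 8 (Pf.B 11 6 (Pf.B 11 5 (Pf.C 0 0x50b1018289) (Pf.C 26 651)) (Pf.C 26 779)) (Pf.C 26 1035)) (Pf.C 1 1163)) Pf.nil)) (Pf.C 2 650)) (Pf.C 2 778)) (Pf.C 2 1034)) Pf.nil))) (Pf.W 35 9 [] [5,7,8] (Pf.cons (Pf.B 10 8 (Pf.B 10 7 (Pf.B 10 5 (Pf.W 40 10 [] [5,7,8,9] (Pf.cons (Pf.B 11 9 (Pf.B 11 8 (Pf.B 11 7 (Pf.B 11 5 (Pf.C 0 0x50b101c289) (Pf.C 26 651)) (Pf.C 26 907)) (Pf.C 26 1035)) (Pf.C 1 1163)) Pf.nil)) (Pf.C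 2 650)) (Pf.C 2 906)) (Pf.C 2 1034)) Pf.nil)))) (Pf.C 1 521)) Pf.nil))) (Pf.C 2 648)) (Pf.C 2 776)) (Pf.C 2 904)) Pf.nil)))) (Pf.C 2 647)) (Pf.C 2 775)) Pf.nil))))) (Pf.C 2 646)) Pf.nil))))) Pf.nil)))
 (Pq.cons (Pq.L [] 1 (Pf.C 1 257))
 Pq.nil))
theorem bP_o19 : AllRef bP_T bP_G18 (hitObl [32] bP_h21) :=
  chkPq_sound bP_o19c _ (by decide +kernel)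
noncomputable def bP_o20c : Pq := (Pq.cons (Pq.L [] 0 (Pf.C 67 1))
 Pq.nil)
theorem bP_o20 : AllRef bP_T bP_G19 (List.map pat1 [66]) :=
  chkPq_sound bP_o20c _ (by decide +kernel)
noncomputable def bP_o21c : Pq := (Pq.cons (Pq.L [] 1 (Pf.C 2 257))
 Pq.nil)
theorem bP_o21 : AllRef bP_T bP_G20 (applyObl TD2 1 [40] [0] []) :=
  chkPq_sound bP_o21c _ (by decide +kernel)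
noncomputable def bP_o22c : Pq := (Pq.cons (Pq.L [0] 0 (Pf.C 1 1))
 (Pq.cons (Pq.L [0] 0 (Pf.W 52 1 [] [0] (Pf.cons (Pf.C 1 2) Pf.nil)))
 (Pq.cons (Pq.L [0] 0 (Pf.W 49 1 [] [0] (Pf.cons (Pf.W 52 2 [] [0] (Pf.cons (Pf.C 1 3) Pf.nil)) Pf.nil)))
 (Pq.cons (Pq.L [0] 0 (Pf.W 54 1 [] [0] (Pf.cons (Pf.W 49 2 [] [0,1] (Pf.cons (Pf.B 3 1 (Pf.W 52 3 [] [0] (Pf.cons (Pf.C 1 4) Pf.nil)) (Pf.C 2 131)) Pf.nil)) Pf.nil)))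
 (Pq.cons (Pq.L [0] 0 (Pf.W 51 1 [] [0] (Pf.cons (Pf.W 54 2 [] [0] (Pf.cons (Pf.W 49 3 [] [0] (Pf.cons (Pf.W 52 4 [] [0] (Pf.cons (Pf.C 1 5) Pf.nil)) Pf.nil)) Pf.nil)) Pf.nil)))
 Pq.nil)))))
theorem bP_o22 : AllRef bP_T bP_G8 (List.map pat1 [46,54,48,56,50]) :=
  chkPq_sound bP_o22c _ (by decide +kernel)
noncomputable def bP_o23c : Pq := (Pq.cons (Pq.L [0] 63 (Pf.W 50 4 [] [0,1,2,3] (Pf.cons (Pf.B 5 3 (Pf.W 53 5 [] [0,3,4] (Pf.cons (Pf.B 6 4 (Pf.B 6 3 (Pf.W 48 6 [] [0,3,4,5] (Pf.cons (Pf.B 7 5 (Pf.B 7 4 (Pf.C 47 519) (Pf.B 7 3 (Pf.C 47 391) (Pf.C 0 0x3050800187))) (Pf.C 2 647)) Pf.nil)) (Pf.C 1 390)) (Pf.C 1 518)) Pf.nil)) (Pf.B 5 2 (Pf.W 53 5 [] [0,2,4] (Pf.cons (Pf.B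 6 4 (Pf.B 6 2 (Pf.W 48 6 [] [0,2,4,5] (Pf.cons (Pf.B 7 5 (Pf.B 7 4 (Pf.C 47 519) (Pf.B 7 2 (Pf.C 47 263) (Pf.C 0 0x3050800107))) (Pf.C 2 647)) Pf.nil)) (Pf.C 1 262)) (Pf.C 1 518)) Pf.nil)) (Pf.B 5 1 (Pf.W 53 5 [] [0,1,4] (Pf.cons (Pf.B 6 4 (Pf.B 6 1 (Pf.W 48 6 [] [0,1,4,5] (Pf.cons (Pf.B 7 5 (Pf.B 7 4 (Pf.C 47 519) (Pf.B 7 1 (Pf.C 47 135) (Pf.C 0 0x3050800087))) (Pf.C 2 647)) Pf.nil)) (Pf.C 1 134)) (Pf.C 1 518)) Pf.nil)) (Pf.W 50 1 [] [0,2,3,4,5] (Pf.cons (Pf.B 6 5 (Pf.B 6 4 (Pf.W 53 6 [] [0,1,4] (Pf.cons (Pf.B 7 4 (Pf.B 7 1 (Pf.W 48 7 [] [0,1,4,6] (Pf.cons (Pf.B 8 6 (Pf.B 8 4 (Pf.C 47 520) (Pf.B 8 1 (Pf.C 47 136) (Pf.C 0 0x3860800088))) (Pf.C 2 776)) Pf.nil)) (Pf.C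 1 135)) (Pf.C 1 519)) Pf.nil)) (Pf.B 6 3 (Pf.W 53 5 [] [0,1,3,4,6] (Pf.cons (Pf.B 7 4 (Pf.B 7 3 (Pf.B 7 1 (Pf.B 7 6 (Pf.C 0 0x2060604385) (Pf.W 48 7 [] [0,1,3,6] (Pf.cons (Pf.B 8 6 (Pf.B 8 3 (Pf.C 47 392) (Pf.B 8 1 (Pf.C 47 136) (Pf.C 0 0x3860600088))) (Pf.C 2 776)) Pf.nil))) (Pf.C 1 135)) (Pf.C 1 391)) (Pf.C 1 519)) Pf.nil)) (Pf.B 6 2 (Pf.W 53 5 [] [0,1,2,4,6] (Pf.cons (Pf.B 7 4 (Pf.B 7 2 (Pf.B 7 1 (Pf.B 7 6 (Pf.C 0 0x2060404385) (Pf.W 48 7 [] [0,1,2,6] (Pf.cons (Pf.B 8 6 (Pf.B 8 2 (Pf.C 47 264) (Pf.B 8 1 (Pf.C 47 136) (Pf.C 0 0x3860400088))) (Pf.C 2 776)) Pf.nil))) (Pf.C 1 135)) (Pf.C 1 263)) (Pf.C 1 519)) Pf.nil)) (Pf.W 50 2 [] [0,1,3,4,5,6] (Pf.cons (Pf.B 7 6 (Pf.B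 7 5 (Pf.B 7 4 (Pf.B 7 1 (Pf.W 53 5 [] [0,1,2,4,6,7] (Pf.cons (Pf.B 8 4 (Pf.B 8 2 (Pf.B 8 1 (Pf.B 8 7 (Pf.B 8 6 (Pf.W 53 6 [] [0,1,2,4,5,7,8] (Pf.cons (Pf.B 9 8 (Pf.B 9 4 (Pf.B 9 2 (Pf.B 9 1 (Pf.B 9 7 (Pf.B 9 5 (Pf.W 53 7 [] [0,2,4,5,6,8,9] (Pf.cons (Pf.B 10 9 (Pf.B 10 8 (Pf.B 10 4 (Pf.B 10 2 (Pf.B 10 6 (Pf.C 0 0x38a1210106) (Pf.B 10 5 (Pf.C 0 0x4051210506) (Pf.W 48 10 [] [0,5,6,7] (Pf.cons (Pf.B 11 7 (Pf.B 11 6 (Pf.B 11 5 (Pf.C 0 0xb0e1828a) (Pf.C 2 651)) (Pf.C 2 779)) (Pf.C 2 907)) Pf.nil)))) (Pf.C 1 266)) (Pf.C 1 522)) (Pf.C 1 1034)) (Pf.C 1 1162)) Pf.nil)) (Pf.W 53 7 [] [0,2,4,5,6,8,9] (Pf.cons (Pf.B 10 9 (Pf.B 10 8 (Pf.B 10 4 (Pf.B 10 2 (Pf.B 10 6 (Pf.C 0 0x38a1210106)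 (Pf.B 10 5 (Pf.C 0 0x38a1220105) (Pf.W 48 10 [] [0,5,6,7] (Pf.cons (Pf.B 11 7 (Pf.B 11 6 (Pf.B 11 5 (Pf.C 0 0xb0e1828a) (Pf.C 2 651)) (Pf.C 2 779)) (Pf.C 2 907)) Pf.nil)))) (Pf.C 1 266)) (Pf.C 1 522)) (Pf.C 1 1034)) (Pf.C 1 1162)) Pf.nil))) (Pf.B 9 5 (Pf.C 0 0x3891008085) (Pf.W 48 9 [] [0,5,6,7] (Pf.cons (Pf.B 10 7 (Pf.B 10 6 (Pf.B 10 5 (Pf.C 0 0xa0e18289) (Pf.C 2 650)) (Pf.C 2 778)) (Pf.C 2 906)) Pf.nil)))) (Pf.C 1 137)) (Pf.C 1 265)) (Pf.C 1 521)) (Pf.C 1 1033)) Pf.nil)) (Pf.W 53 7 [] [0,1,2,4,5,6,8] (Pf.cons (Pf.B 9 8 (Pf.B 9 4 (Pf.B 9 2 (Pf.B 9 6 (Pf.C 0 0x3891010106) (Pf.B 9 1 (Pf.B 9 5 (Pf.C 0 0x3891008085) (Pf.W 48 9 [] [0,5,6,7] (Pf.cons (Pf.B 10 7 (Pf.B 10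 6 (Pf.B 10 5 (Pf.C 0 0xa0e18289) (Pf.C 2 650)) (Pf.C 2 778)) (Pf.C 2 906)) Pf.nil))) (Pf.C 1 137))) (Pf.C 1 265)) (Pf.C 1 521)) (Pf.C 1 1033)) Pf.nil))) (Pf.W 48 8 [] [0,2,4,7] (Pf.cons (Pf.B 9 7 (Pf.B 9 4 (Pf.C 47 521) (Pf.B 9 2 (Pf.C 47 265) (Pf.C 0 0x4070800109))) (Pf.C 2 905)) Pf.nil))) (Pf.C 1 136)) (Pf.C 1 264)) (Pf.C 1 520)) Pf.nil)) (Pf.W 53 5 [] [0,1,2,4,6,7] (Pf.cons (Pf.B 8 4 (Pf.B 8 2 (Pf.B 8 1 (Pf.B 8 7 (Pf.B 8 6 (Pf.W 53 6 [] [0,1,2,4,5,7,8] (Pf.cons (Pf.B 9 8 (Pf.B 9 4 (Pf.B 9 2 (Pf.B 9 1 (Pf.B 9 7 (Pf.C 0 0x870808486) (Pf.B 9 5 (Pf.W 48 8 [] [0,2,4,5,6,7,9] (Pf.cons (Pf.B 10 7 (Pf.B 10 6 (Pf.B 10 5 (Pf.B 10 9 (Pf.B 10 4 (Pf.C 47 522) (Pf.B 10 2 (Pf.C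 47 266) (Pf.C 0 0x487080010a))) (Pf.C 0 0x4050e18509)) (Pf.C 2 650)) (Pf.C 2 778)) (Pf.C 2 906)) Pf.nil)) (Pf.W 48 9 [] [0,5,6,7] (Pf.cons (Pf.B 10 7 (Pf.B 10 6 (Pf.B 10 5 (Pf.C 0 0xa0e18289) (Pf.C 2 650)) (Pf.C 2 778)) (Pf.C 2 906)) Pf.nil)))) (Pf.C 1 137)) (Pf.C 1 265)) (Pf.C 1 521)) (Pf.C 1 1033)) Pf.nil)) (Pf.C 0 0x3810808406)) (Pf.W 48 8 [] [0,2,4,7] (Pf.cons (Pf.B 9 7 (Pf.B 9 4 (Pf.C 47 521) (Pf.B 9 2 (Pf.C 47 265) (Pf.C 0 0x4070800109))) (Pf.C 2 905)) Pf.nil))) (Pf.C 1 136)) (Pf.C 1 264)) (Pf.C 1 520)) Pf.nil))) (Pf.B 7 3 (Pf.W 53 5 [] [0,2,3,4,7] (Pf.cons (Pf.B 8 4 (Pf.B 8 3 (Pf.B 8 2 (Pf.B 8 7 (Pf.C 0 0x2070608405) (Pf.W 48 8 [] [0,2,3,7] (Pf.cons (Pf.B 9 7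 (Pf.B 9 3 (Pf.C 47 393) (Pf.B 9 2 (Pf.C 47 265) (Pf.C 0 0x4070600109))) (Pf.C 2 905)) Pf.nil))) (Pf.C 1 264)) (Pf.C 1 392)) (Pf.C 1 520)) Pf.nil)) (Pf.B 7 1 (Pf.W 53 5 [] [0,1,2,4,7] (Pf.cons (Pf.B 8 4 (Pf.B 8 2 (Pf.B 8 1 (Pf.B 8 7 (Pf.C 0 0x2070404405) (Pf.W 48 8 [] [0,1,2,7] (Pf.cons (Pf.B 9 7 (Pf.B 9 2 (Pf.C 47 265) (Pf.B 9 1 (Pf.C 47 137) (Pf.C 0 0x4070400089))) (Pf.C 2 905)) Pf.nil))) (Pf.C 1 136)) (Pf.C 1 264)) (Pf.C 1 520)) Pf.nil)) (Pf.W 50 3 [] [0,1,2,4,5,6,7] (Pf.cons (Pf.B 8 7 (Pf.B 8 6 (Pf.B 8 5 (Pf.B 8 4 (Pf.B 8 2 (Pf.B 8 1 (Pf.W 53 5 [] [0,1,2,3,4,6,7,8] (Pf.cons (Pf.B 9 4 (Pf.B 9 3 (Pf.B 9 2 (Pf.B 9 1 (Pf.B 9 8 (Pf.B 9 7 (Pf.B 9 6 (Pf.W 48 9 [] [4,5,6,7]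 (Pf.cons (Pf.B 10 7 (Pf.B 10 6 (Pf.B 10 5 (Pf.B 10 4 (Pf.C 47 522) (Pf.C 0 0x4850e18504)) (Pf.C 2 650)) (Pf.C 2 778)) (Pf.C 2 906)) Pf.nil)) (Pf.W 53 7 [] [0,2,3,4,6,8,9] (Pf.cons (Pf.B 10 4 (Pf.B 10 3 (Pf.B 10 2 (Pf.B 10 8 (Pf.W 53 8 [] [0,3,4,6,7,9,10] (Pf.cons (Pf.B 11 10 (Pf.B 11 9 (Pf.B 11 4 (Pf.B 11 3 (Pf.B 11 7 (Pf.C 0 0x40b1410187) (Pf.B 11 6 (Pf.C 0 0x40b1210186) (Pf.W 48 11 [] [0,6,7,8] (Pf.cons (Pf.B 12 8 (Pf.B 12 7 (Pf.B 12 6 (Pf.C 0 0xc101c30b) (Pf.C 2 780)) (Pf.C 2 908)) (Pf.C 2 1036)) Pf.nil)))) (Pf.C 1 395)) (Pf.C 1 523)) (Pf.C 1 1163)) (Pf.C 1 1291)) Pf.nil)) (Pf.B 10 6 (Pf.C 0 0x40a080c106) (Pf.W 48 10 [] [0,6,7,8] (Pf.cons (Pf.B 11 8 (Pf.B 11 7 (Pf.B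 11 6 (Pf.C 0 0xb101c30a) (Pf.C 2 779)) (Pf.C 2 907)) (Pf.C 2 1035)) Pf.nil)))) (Pf.C 1 266)) (Pf.C 1 394)) (Pf.C 1 522)) Pf.nil))) (Pf.B 9 6 (Pf.W 53 6 [] [0,1,3,4,7,8,9] (Pf.cons (Pf.B 10 4 (Pf.B 10 3 (Pf.B 10 1 (Pf.B 10 8 (Pf.W 53 8 [] [0,3,4,6,7,9,10] (Pf.cons (Pf.B 11 10 (Pf.B 11 9 (Pf.B 11 4 (Pf.B 11 3 (Pf.B 11 7 (Pf.C 0 0x40b1210187) (Pf.B 11 6 (Pf.C 0 0x40b1410186) (Pf.W 48 11 [] [0,6,7,8] (Pf.cons (Pf.B 12 8 (Pf.B 12 7 (Pf.B 12 6 (Pf.C 0 0xc101c30b) (Pf.C 2 780)) (Pf.C 2 908)) (Pf.C 2 1036)) Pf.nil)))) (Pf.C 1 395)) (Pf.C 1 523)) (Pf.C 1 1163)) (Pf.C 1 1291)) Pf.nil)) (Pf.B 10 7 (Pf.C 0 0x40a080c087) (Pf.W 48 10 [] [0,6,7,8] (Pf.cons (Pf.B 11 8 (Pf.B 11 7 (Pf.B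 11 6 (Pf.C 0 0xb101c30a) (Pf.C 2 779)) (Pf.C 2 907)) (Pf.C 2 1035)) Pf.nil)))) (Pf.C 1 138)) (Pf.C 1 394)) (Pf.C 1 522)) Pf.nil)) (Pf.W 48 9 [] [0,5,6,7] (Pf.cons (Pf.B 10 7 (Pf.B 10 6 (Pf.B 10 5 (Pf.C 0 0xa0e18289) (Pf.C 2 650)) (Pf.C 2 778)) (Pf.C 2 906)) Pf.nil)))) (Pf.B 9 7 (Pf.C 0 0x409080c087) (Pf.B 9 6 (Pf.C 0 0x409080c106) (Pf.W 48 9 [] [0,6,7,8] (Pf.cons (Pf.B 10 8 (Pf.B 10 7 (Pf.B 10 6 (Pf.C 0 0xa101c309) (Pf.C 2 778)) (Pf.C 2 906)) (Pf.C 2 1034)) Pf.nil))))) (Pf.C 1 137)) (Pf.C 1 265)) (Pf.C 1 393)) (Pf.C 1 521)) Pf.nil)) (Pf.C 0 0x88080c106)) (Pf.B 8 1 (Pf.C 0 0x108080c087) (Pf.W 53 5 [] [0,1,2,3,4,6,7,8] (Pf.cons (Pf.B 9 4 (Pf.B 9 3 (Pf.B 9 2 (Pf.B 9 1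 (Pf.B 9 8 (Pf.B 9 7 (Pf.B 9 6 (Pf.W 48 9 [] [4,5,6,7] (Pf.cons (Pf.B 10 7 (Pf.B 10 6 (Pf.B 10 5 (Pf.B 10 4 (Pf.C 47 522) (Pf.C 0 0x4850e18504)) (Pf.C 2 650)) (Pf.C 2 778)) (Pf.C 2 906)) Pf.nil)) (Pf.C 0 0x401080c486)) (Pf.C 0 0x402080c487)) (Pf.B 9 7 (Pf.B 9 6 (Pf.W 48 9 [] [4,5,6,7] (Pf.cons (Pf.B 10 7 (Pf.B 10 6 (Pf.B 10 5 (Pf.B 10 4 (Pf.C 47 522) (Pf.C 0 0x4850e18504)) (Pf.C 2 650)) (Pf.C 2 778)) (Pf.C 2 906)) Pf.nil)) (Pf.W 48 9 [] [0,5,6,8] (Pf.cons (Pf.B 10 8 (Pf.B 10 6 (Pf.B 10 5 (Pf.C 0 0xa1018289) (Pf.C 2 650)) (Pf.C 2 778)) (Pf.C 2 1034)) Pf.nil))) (Pf.W 48 9 [] [0,5,7,8] (Pf.cons (Pf.B 10 8 (Pf.B 10 7 (Pf.B 10 5 (Pf.C 0 0xa101c289) (Pf.C 2 650)) (Pf.C 2 906))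 (Pf.C 2 1034)) Pf.nil)))) (Pf.C 1 137)) (Pf.C 1 265)) (Pf.C 1 393)) (Pf.C 1 521)) Pf.nil)))) (Pf.W 53 5 [] [0,4,6,7,8] (Pf.cons (Pf.B 9 4 (Pf.B 9 8 (Pf.B 9 7 (Pf.W 48 9 [] [4,5,7,8] (Pf.cons (Pf.B 10 8 (Pf.B 10 7 (Pf.B 10 5 (Pf.B 10 4 (Pf.C 47 522) (Pf.C 0 0x485101c504)) (Pf.C 2 650)) (Pf.C 2 906)) (Pf.C 2 1034)) Pf.nil)) (Pf.B 9 6 (Pf.W 48 9 [] [4,5,6,8] (Pf.cons (Pf.B 10 8 (Pf.B 10 6 (Pf.B 10 5 (Pf.B 10 4 (Pf.C 47 522) (Pf.C 0 0x4851018504)) (Pf.C 2 650)) (Pf.C 2 778)) (Pf.C 2 1034)) Pf.nil)) (Pf.W 48 9 [] [0,5,6,7] (Pf.cons (Pf.B 10 7 (Pf.B 10 6 (Pf.B 10 5 (Pf.C 0 0xa0e18289) (Pf.C 2 650)) (Pf.C 2 778)) (Pf.C 2 906)) Pf.nil)))) (Pf.B 9 7 (Pf.B 9 6 (Pf.W 48 9 [] [4,5,6,7]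 (Pf.cons (Pf.B 10 7 (Pf.B 10 6 (Pf.B 10 5 (Pf.B 10 4 (Pf.C 47 522) (Pf.C 0 0x4850e18504)) (Pf.C 2 650)) (Pf.C 2 778)) (Pf.C 2 906)) Pf.nil)) (Pf.W 48 9 [] [0,5,6,8] (Pf.cons (Pf.B 10 8 (Pf.B 10 6 (Pf.B 10 5 (Pf.C 0 0xa1018289) (Pf.C 2 650)) (Pf.C 2 778)) (Pf.C 2 1034)) Pf.nil))) (Pf.W 48 9 [] [0,5,7,8] (Pf.cons (Pf.B 10 8 (Pf.B 10 7 (Pf.B 10 5 (Pf.C 0 0xa101c289) (Pf.C 2 650)) (Pf.C 2 906)) (Pf.C 2 1034)) Pf.nil)))) (Pf.C 1 521)) Pf.nil))) (Pf.C 2 648)) (Pf.C 2 776)) (Pf.C 2 904)) Pf.nil))))) (Pf.C 2 647)) (Pf.C 2 775)) Pf.nil))))) (Pf.C 2 646)) Pf.nil))))) Pf.nil)))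
 (Pq.cons (Pq.L [] 1 (Pf.C 1 257))
 (Pq.cons (Pq.L [0] 7 (Pf.W 55 1 [] [0,2,3] (Pf.cons (Pf.B 4 3 (Pf.B 4 2 (Pf.W 55 2 [] [0,1,3,4] (Pf.cons (Pf.B 5 4 (Pf.B 5 3 (Pf.B 5 1 (Pf.W 55 3 [] [0,1,2,4,5] (Pf.cons (Pf.B 6 5 (Pf.B 6 4 (Pf.B 6 2 (Pf.B 6 1 (Pf.W 50 4 [] [0,1,2,3,5,6] (Pf.cons (Pf.B 7 3 (Pf.B 7 2 (Pf.B 7 1 (Pf.B 7 6 (Pf.W 53 7 [] [0,4,6] (Pf.cons (Pf.B 8 6 (Pf.B 8 4 (Pf.W 48 8 [] [0,4,6,7] (Pf.cons (Pf.B 9 7 (Pf.B 9 6 (Pf.C 47 777) (Pf.B 9 4 (Pf.C 47 521) (Pf.C 0 0x4070c00209))) (Pf.C 2 905)) Pf.nil)) (Pf.C 1 520)) (Pf.C 1 776)) Pf.nil)) (Pf.B 7 5 (Pf.W 53 7 [] [0,4,5] (Pf.cons (Pf.B 8 5 (Pf.B 8 4 (Pf.W 48 8 [] [0,4,5,7] (Pf.cons (Pf.B 9 7 (Pf.B 9 5 (Pf.C 47 649)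 (Pf.B 9 4 (Pf.C 47 521) (Pf.C 0 0x4070a00209))) (Pf.C 2 905)) Pf.nil)) (Pf.C 1 520)) (Pf.C 1 648)) Pf.nil)) (Pf.W 53 7 [] [1,4,5,6] (Pf.cons (Pf.B 8 6 (Pf.B 8 5 (Pf.B 8 4 (Pf.B 8 1 (Pf.C 0 0x2010c14407) (Pf.C 46 136)) (Pf.C 1 520)) (Pf.C 1 648)) (Pf.C 1 776)) Pf.nil)))) (Pf.C 2 135)) (Pf.C 2 263)) (Pf.C 2 391)) Pf.nil)) (Pf.W 50 4 [] [0,1,2,3,5,6] (Pf.cons (Pf.B 7 3 (Pf.B 7 2 (Pf.B 7 1 (Pf.B 7 6 (Pf.W 53 7 [] [0,4,6] (Pf.cons (Pf.B 8 6 (Pf.B 8 4 (Pf.W 48 8 [] [0,4,6,7] (Pf.cons (Pf.B 9 7 (Pf.B 9 6 (Pf.C 47 777) (Pf.B 9 4 (Pf.C 47 521) (Pf.C 0 0x4070c00209))) (Pf.C 2 905)) Pf.nil)) (Pf.C 1 520)) (Pf.C 1 776)) Pf.nil)) (Pf.B 7 5 (Pf.C 0 0x1050604386) (Pf.W 50 5 [] [0,1,2,3,4,6,7]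 (Pf.cons (Pf.B 8 7 (Pf.B 8 3 (Pf.B 8 2 (Pf.B 8 1 (Pf.B 8 6 (Pf.B 8 4 (Pf.W 53 7 [] [0,1,4,5,6,8] (Pf.cons (Pf.B 9 6 (Pf.B 9 5 (Pf.B 9 4 (Pf.B 9 1 (Pf.B 9 8 (Pf.W 53 8 [] [1,4,5,6,7,9] (Pf.cons (Pf.B 10 9 (Pf.B 10 6 (Pf.B 10 5 (Pf.B 10 7 (Pf.C 0 0x40a1218287) (Pf.B 10 4 (Pf.B 10 1 (Pf.C 0 0x2011214507) (Pf.C 46 138)) (Pf.C 1 522))) (Pf.C 1 650)) (Pf.C 1 778)) (Pf.C 1 1162)) Pf.nil)) (Pf.W 48 9 [] [0,5,6,8] (Pf.cons (Pf.B 10 8 (Pf.B 10 6 (Pf.C 47 778) (Pf.B 10 5 (Pf.C 47 650) (Pf.C 0 0x4880c0028a))) (Pf.C 2 1034)) Pf.nil))) (Pf.C 46 137)) (Pf.C 1 521)) (Pf.C 1 649)) (Pf.C 1 777)) Pf.nil)) (Pf.W 53 7 [] [0,4,5,6,8] (Pf.cons (Pf.B 9 6 (Pf.B 9 5 (Pf.B 9 4 (Pf.B 9 8 (Pf.C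 0 0x2080c14487) (Pf.W 48 9 [] [0,5,6,8] (Pf.cons (Pf.B 10 8 (Pf.B 10 6 (Pf.C 47 778) (Pf.B 10 5 (Pf.C 47 650) (Pf.C 0 0x4880c0028a))) (Pf.C 2 1034)) Pf.nil))) (Pf.C 1 521)) (Pf.C 1 649)) (Pf.C 1 777)) Pf.nil))) (Pf.C 0 0x2820604406)) (Pf.C 2 136)) (Pf.C 2 264)) (Pf.C 2 392)) (Pf.C 2 904)) Pf.nil)))) (Pf.C 2 135)) (Pf.C 2 263)) (Pf.C 2 391)) Pf.nil))) (Pf.B 6 1 (Pf.W 50 4 [] [0,1,2,3,6] (Pf.cons (Pf.B 7 3 (Pf.B 7 2 (Pf.B 7 1 (Pf.B 7 6 (Pf.W 53 7 [] [0,4,6] (Pf.cons (Pf.B 8 6 (Pf.B 8 4 (Pf.W 48 8 [] [0,4,6,7] (Pf.cons (Pf.B 9 7 (Pf.B 9 6 (Pf.C 47 777) (Pf.B 9 4 (Pf.C 47 521) (Pf.C 0 0x4070c00209))) (Pf.C 2 905)) Pf.nil)) (Pf.C 1 520)) (Pf.C 1 776)) Pf.nil)) (Pf.C 0 0x2010608386))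 (Pf.C 2 135)) (Pf.C 2 263)) (Pf.C 2 391)) Pf.nil)) (Pf.W 50 6 [] [1,2,3] (Pf.cons (Pf.B 7 3 (Pf.B 7 2 (Pf.B 7 1 (Pf.W 53 7 [] [1,2,3,6] (Pf.cons (Pf.B 8 6 (Pf.B 8 3 (Pf.B 8 2 (Pf.B 8 1 (Pf.C 0 0x3880608086) (Pf.C 46 136)) (Pf.C 46 264)) (Pf.C 46 392)) (Pf.C 1 776)) Pf.nil)) (Pf.C 2 135)) (Pf.C 2 263)) (Pf.C 2 391)) Pf.nil)))) (Pf.C 1 518)) (Pf.C 1 646)) Pf.nil)) (Pf.W 55 3 [] [0,1,2,4,5] (Pf.cons (Pf.B 6 5 (Pf.B 6 4 (Pf.B 6 2 (Pf.B 6 1 (Pf.W 50 4 [] [0,1,2,3,5,6] (Pf.cons (Pf.B 7 3 (Pf.B 7 2 (Pf.B 7 1 (Pf.B 7 6 (Pf.B 7 5 (Pf.W 53 7 [] [0,5,6] (Pf.cons (Pf.B 8 6 (Pf.B 8 5 (Pf.W 48 8 [] [0,5,6,7] (Pf.cons (Pf.B 9 7 (Pf.B 9 6 (Pf.C 47 777) (Pf.B 9 5 (Pf.C 47 649) (Pf.C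 0 0x4070c00289))) (Pf.C 2 905)) Pf.nil)) (Pf.C 1 648)) (Pf.C 1 776)) Pf.nil)) (Pf.C 0 0x3030404385)) (Pf.B 7 5 (Pf.W 53 7 [] [0,4,5] (Pf.cons (Pf.B 8 5 (Pf.B 8 4 (Pf.W 48 8 [] [0,4,5,7] (Pf.cons (Pf.B 9 7 (Pf.B 9 5 (Pf.C 47 649) (Pf.B 9 4 (Pf.C 47 521) (Pf.C 0 0x4070a00209))) (Pf.C 2 905)) Pf.nil)) (Pf.C 1 520)) (Pf.C 1 648)) Pf.nil)) (Pf.W 50 5 [] [0,1,2,3,4,6,7] (Pf.cons (Pf.B 8 7 (Pf.B 8 3 (Pf.B 8 2 (Pf.B 8 1 (Pf.B 8 6 (Pf.B 8 4 (Pf.W 53 7 [] [0,1,4,5,6,8] (Pf.cons (Pf.B 9 6 (Pf.B 9 5 (Pf.B 9 4 (Pf.B 9 1 (Pf.B 9 8 (Pf.W 53 8 [] [1,4,5,6,7,9] (Pf.cons (Pf.B 10 9 (Pf.B 10 6 (Pf.B 10 5 (Pf.B 10 7 (Pf.C 0 0x40a1218287) (Pf.B 10 4 (Pf.B 10 1 (Pf.C 0 0x2011218507) (Pf.C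 46 138)) (Pf.C 1 522))) (Pf.C 1 650)) (Pf.C 1 778)) (Pf.C 1 1162)) Pf.nil)) (Pf.W 48 9 [] [0,5,6,8] (Pf.cons (Pf.B 10 8 (Pf.B 10 6 (Pf.C 47 778) (Pf.B 10 5 (Pf.C 47 650) (Pf.C 0 0x4880c0028a))) (Pf.C 2 1034)) Pf.nil))) (Pf.C 46 137)) (Pf.C 1 521)) (Pf.C 1 649)) (Pf.C 1 777)) Pf.nil)) (Pf.W 53 7 [] [0,4,5,6,8] (Pf.cons (Pf.B 9 6 (Pf.B 9 5 (Pf.B 9 4 (Pf.B 9 8 (Pf.C 0 0x2080c14487) (Pf.W 48 9 [] [0,5,6,8] (Pf.cons (Pf.B 10 8 (Pf.B 10 6 (Pf.C 47 778) (Pf.B 10 5 (Pf.C 47 650) (Pf.C 0 0x4880c0028a))) (Pf.C 2 1034)) Pf.nil))) (Pf.C 1 521)) (Pf.C 1 649)) (Pf.C 1 777)) Pf.nil))) (Pf.B 8 4 (Pf.C 0 0x840e0c406) (Pf.W 53 8 [] [2,4,5,6] (Pf.cons (Pf.B 9 6 (Pf.B 9 5 (Pf.B 9 4 (Pf.B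 9 2 (Pf.C 0 0x2820c10488) (Pf.C 46 265)) (Pf.C 1 521)) (Pf.C 1 649)) (Pf.C 1 777)) Pf.nil)))) (Pf.C 2 136)) (Pf.C 2 264)) (Pf.C 2 392)) (Pf.C 2 904)) Pf.nil)))) (Pf.C 2 135)) (Pf.C 2 263)) (Pf.C 2 391)) Pf.nil)) (Pf.W 50 4 [] [0,1,2,3,5,6] (Pf.cons (Pf.B 7 3 (Pf.B 7 2 (Pf.B 7 1 (Pf.B 7 6 (Pf.B 7 5 (Pf.W 53 7 [] [1,4,5,6] (Pf.cons (Pf.B 8 6 (Pf.B 8 5 (Pf.B 8 4 (Pf.B 8 1 (Pf.C 0 0x3880c14201) (Pf.C 46 136)) (Pf.C 1 520)) (Pf.C 1 648)) (Pf.C 1 776)) Pf.nil)) (Pf.W 50 5 [] [0,1,2,3,4,6,7] (Pf.cons (Pf.B 8 7 (Pf.B 8 3 (Pf.B 8 2 (Pf.B 8 1 (Pf.B 8 6 (Pf.W 53 7 [] [0,1,2,3,5,6,8] (Pf.cons (Pf.B 9 6 (Pf.B 9 5 (Pf.B 9 3 (Pf.B 9 8 (Pf.W 53 8 [] [1,2,3,5,6,7,9] (Pf.cons (Pf.B 10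 9 (Pf.B 10 6 (Pf.B 10 5 (Pf.B 10 3 (Pf.B 10 7 (Pf.B 10 2 (Pf.B 10 1 (Pf.C 0 0x40a0e08085) (Pf.C 46 138)) (Pf.C 46 266)) (Pf.C 0 0x3031214507)) (Pf.C 46 394)) (Pf.C 1 650)) (Pf.C 1 778)) (Pf.C 1 1162)) Pf.nil)) (Pf.W 48 9 [] [0,5,6,8] (Pf.cons (Pf.B 10 8 (Pf.B 10 6 (Pf.C 47 778) (Pf.B 10 5 (Pf.C 47 650) (Pf.C 0 0x4880c0028a))) (Pf.C 2 1034)) Pf.nil))) (Pf.C 46 393)) (Pf.C 1 649)) (Pf.C 1 777)) Pf.nil)) (Pf.B 8 4 (Pf.W 53 7 [] [0,1,3,4,5,6,8] (Pf.cons (Pf.B 9 6 (Pf.B 9 5 (Pf.B 9 4 (Pf.B 9 3 (Pf.B 9 1 (Pf.B 9 8 (Pf.C 0 0x3890604406) (Pf.W 48 9 [] [0,4,5,8] (Pf.cons (Pf.B 10 8 (Pf.B 10 5 (Pf.C 47 650) (Pf.B 10 4 (Pf.C 47 522) (Pf.C 0 0x4880a0020a))) (Pf.C 2 1034)) Pf.nil)))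 (Pf.C 46 137)) (Pf.C 46 393)) (Pf.C 1 521)) (Pf.C 1 649)) (Pf.C 1 777)) Pf.nil)) (Pf.W 53 7 [] [1,2,3,4,5,6,8] (Pf.cons (Pf.B 9 6 (Pf.B 9 5 (Pf.B 9 4 (Pf.B 9 3 (Pf.B 9 2 (Pf.B 9 8 (Pf.B 9 1 (Pf.C 0 0x389100c086) (Pf.C 46 137)) (Pf.C 0 0x2820c10488)) (Pf.C 46 265)) (Pf.C 46 393)) (Pf.C 1 521)) (Pf.C 1 649)) (Pf.C 1 777)) Pf.nil)))) (Pf.C 2 136)) (Pf.C 2 264)) (Pf.C 2 392)) (Pf.C 2 904)) Pf.nil))) (Pf.B 7 5 (Pf.W 53 7 [] [0,4,5] (Pf.cons (Pf.B 8 5 (Pf.B 8 4 (Pf.W 48 8 [] [0,4,5,7] (Pf.cons (Pf.B 9 7 (Pf.B 9 5 (Pf.C 47 649) (Pf.B 9 4 (Pf.C 47 521) (Pf.C 0 0x4070a00209))) (Pf.C 2 905)) Pf.nil)) (Pf.C 1 520)) (Pf.C 1 648)) Pf.nil)) (Pf.W 50 5 [] [0,1,2,3,4,6,7] (Pf.cons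 (Pf.B 8 7 (Pf.B 8 3 (Pf.B 8 2 (Pf.B 8 1 (Pf.B 8 6 (Pf.B 8 4 (Pf.W 53 8 [] [1,4,5,6] (Pf.cons (Pf.B 9 6 (Pf.B 9 5 (Pf.B 9 4 (Pf.B 9 1 (Pf.C 0 0x4090c14201) (Pf.C 46 137)) (Pf.C 1 521)) (Pf.C 1 649)) (Pf.C 1 777)) Pf.nil)) (Pf.W 53 7 [] [0,4,5,6,8] (Pf.cons (Pf.B 9 6 (Pf.B 9 5 (Pf.B 9 4 (Pf.B 9 8 (Pf.C 0 0x2080c14487) (Pf.W 48 9 [] [0,5,6,8] (Pf.cons (Pf.B 10 8 (Pf.B 10 6 (Pf.C 47 778) (Pf.B 10 5 (Pf.C 47 650) (Pf.C 0 0x4880c0028a))) (Pf.C 2 1034)) Pf.nil))) (Pf.C 1 521)) (Pf.C 1 649)) (Pf.C 1 777)) Pf.nil))) (Pf.B 8 4 (Pf.W 50 6 [] [1,2,3,4,5,7,8] (Pf.cons (Pf.B 9 8 (Pf.B 9 7 (Pf.B 9 3 (Pf.B 9 4 (Pf.B 9 2 (Pf.B 9 1 (Pf.B 9 5 (Pf.W 53 9 [] [1,4,5,6] (Pf.cons (Pf.B 10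 6 (Pf.B 10 5 (Pf.B 10 4 (Pf.B 10 1 (Pf.C 0 0x48a0c14201) (Pf.C 46 138)) (Pf.C 1 522)) (Pf.C 1 650)) (Pf.C 1 778)) Pf.nil)) (Pf.W 53 8 [] [1,2,4,5,7,9] (Pf.cons (Pf.B 10 5 (Pf.B 10 4 (Pf.B 10 2 (Pf.B 10 1 (Pf.B 10 9 (Pf.C 0 0x40a0404485) (Pf.B 10 7 (Pf.C 0 0x40a0404385) (Pf.C 0 0x201122038a))) (Pf.C 46 138)) (Pf.C 46 266)) (Pf.C 1 522)) (Pf.C 1 650)) Pf.nil))) (Pf.C 2 137)) (Pf.C 2 265)) (Pf.C 0 0x209101c186)) (Pf.C 2 393)) (Pf.C 2 905)) (Pf.C 2 1033)) Pf.nil)) (Pf.W 53 8 [] [2,4,5,6] (Pf.cons (Pf.B 9 6 (Pf.B 9 5 (Pf.B 9 4 (Pf.B 9 2 (Pf.C 0 0x2820c10488) (Pf.C 46 265)) (Pf.C 1 521)) (Pf.C 1 649)) (Pf.C 1 777)) Pf.nil)))) (Pf.C 2 136)) (Pf.C 2 264)) (Pf.C 2 392)) (Pf.C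 2 904)) Pf.nil)))) (Pf.C 2 135)) (Pf.C 2 263)) (Pf.C 2 391)) Pf.nil))) (Pf.B 6 1 (Pf.W 50 4 [] [0,1,2,3,6] (Pf.cons (Pf.B 7 3 (Pf.B 7 2 (Pf.B 7 1 (Pf.B 7 6 (Pf.W 53 7 [] [0,4,6] (Pf.cons (Pf.B 8 6 (Pf.B 8 4 (Pf.W 48 8 [] [0,4,6,7] (Pf.cons (Pf.B 9 7 (Pf.B 9 6 (Pf.C 47 777) (Pf.B 9 4 (Pf.C 47 521) (Pf.C 0 0x4070c00209))) (Pf.C 2 905)) Pf.nil)) (Pf.C 1 520)) (Pf.C 1 776)) Pf.nil)) (Pf.C 0 0x2010608386)) (Pf.C 2 135)) (Pf.C 2 263)) (Pf.C 2 391)) Pf.nil)) (Pf.W 50 4 [] [1,2,3,5,6] (Pf.cons (Pf.B 7 3 (Pf.B 7 2 (Pf.B 7 1 (Pf.B 7 6 (Pf.W 53 7 [] [1,2,3,6] (Pf.cons (Pf.B 8 6 (Pf.B 8 3 (Pf.B 8 2 (Pf.B 8 1 (Pf.C 0 0x3880608086) (Pf.C 46 136)) (Pf.C 46 264)) (Pf.C 46 392)) (Pf.C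 1 776)) Pf.nil)) (Pf.B 7 5 (Pf.W 50 6 [] [1,2,3,4,5,7] (Pf.cons (Pf.B 8 7 (Pf.B 8 3 (Pf.B 8 2 (Pf.B 8 4 (Pf.B 8 1 (Pf.B 8 5 (Pf.W 53 8 [] [1,4,5,6] (Pf.cons (Pf.B 9 6 (Pf.B 9 5 (Pf.B 9 4 (Pf.B 9 1 (Pf.C 0 0x4090c14201) (Pf.C 46 137)) (Pf.C 1 521)) (Pf.C 1 649)) (Pf.C 1 777)) Pf.nil)) (Pf.W 53 7 [] [1,2,3,5,6,8] (Pf.cons (Pf.B 9 6 (Pf.B 9 5 (Pf.B 9 3 (Pf.B 9 2 (Pf.B 9 1 (Pf.B 9 8 (Pf.C 0 0x3890404405) (Pf.C 0 0x4090608086)) (Pf.C 46 137)) (Pf.C 46 265)) (Pf.C 46 393)) (Pf.C 1 649)) (Pf.C 1 777)) Pf.nil))) (Pf.C 2 136)) (Pf.C 0 0x2080e0c106)) (Pf.C 2 264)) (Pf.C 2 392)) (Pf.C 2 904)) Pf.nil)) (Pf.W 50 5 [] [1,2,3,4,6,7] (Pf.cons (Pf.B 8 7 (Pf.B 8 3 (Pf.B 8 2 (Pf.B 8 1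 (Pf.B 8 6 (Pf.B 8 4 (Pf.W 53 8 [] [1,4,5,6] (Pf.cons (Pf.B 9 6 (Pf.B 9 5 (Pf.B 9 4 (Pf.B 9 1 (Pf.C 0 0x4090c14201) (Pf.C 46 137)) (Pf.C 1 521)) (Pf.C 1 649)) (Pf.C 1 777)) Pf.nil)) (Pf.C 0 0x2080e0c106)) (Pf.B 8 4 (Pf.W 50 6 [] [1,2,3,4,7,8] (Pf.cons (Pf.B 9 8 (Pf.B 9 7 (Pf.B 9 3 (Pf.B 9 4 (Pf.B 9 2 (Pf.B 9 1 (Pf.W 53 9 [] [1,2,3,4,6,7,8] (Pf.cons (Pf.B 10 6 (Pf.B 10 4 (Pf.B 10 3 (Pf.B 10 2 (Pf.B 10 8 (Pf.C 0 0x48a0608406) (Pf.B 10 7 (Pf.C 0 0x48a0608386) (Pf.B 10 1 (Pf.C 0 0x201122038a) (Pf.C 46 138)))) (Pf.C 46 266)) (Pf.C 46 394)) (Pf.C 1 522)) (Pf.C 1 778)) Pf.nil)) (Pf.C 2 137)) (Pf.C 2 265)) (Pf.C 0 0x209101c186)) (Pf.C 2 393)) (Pf.C 2 905)) (Pf.C 2 1033)) Pf.nil))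 (Pf.W 50 6 [] [1,2,3,4,5,7,8] (Pf.cons (Pf.B 9 8 (Pf.B 9 7 (Pf.B 9 3 (Pf.B 9 2 (Pf.B 9 4 (Pf.B 9 5 (Pf.B 9 1 (Pf.W 53 9 [] [1,4,5,6] (Pf.cons (Pf.B 10 6 (Pf.B 10 5 (Pf.B 10 4 (Pf.B 10 1 (Pf.C 0 0x48a0c14201) (Pf.C 46 138)) (Pf.C 1 522)) (Pf.C 1 650)) (Pf.C 1 778)) Pf.nil)) (Pf.C 2 137)) (Pf.C 0 0x4040e08485)) (Pf.C 0 0x2090e0c106)) (Pf.C 2 265)) (Pf.C 2 393)) (Pf.C 2 905)) (Pf.C 2 1033)) Pf.nil)))) (Pf.C 2 136)) (Pf.C 2 264)) (Pf.C 2 392)) (Pf.C 2 904)) Pf.nil)))) (Pf.C 2 135)) (Pf.C 2 263)) (Pf.C 2 391)) Pf.nil)))) (Pf.C 1 518)) (Pf.C 1 646)) Pf.nil))) (Pf.B 5 1 (Pf.W 50 4 [] [0,1,2,3,5] (Pf.cons (Pf.B 6 3 (Pf.B 6 2 (Pf.B 6 1 (Pf.B 6 5 (Pf.W 53 6 [] [0,4,5] (Pf.cons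 (Pf.B 7 5 (Pf.B 7 4 (Pf.W 48 7 [] [0,4,5,6] (Pf.cons (Pf.B 8 6 (Pf.B 8 5 (Pf.C 47 648) (Pf.B 8 4 (Pf.C 47 520) (Pf.C 0 0x3860a00208))) (Pf.C 2 776)) Pf.nil)) (Pf.C 1 519)) (Pf.C 1 647)) Pf.nil)) (Pf.C 0 0x2010608305)) (Pf.C 2 134)) (Pf.C 2 262)) (Pf.C 2 390)) Pf.nil)) (Pf.W 50 5 [] [1,2,3] (Pf.cons (Pf.B 6 3 (Pf.B 6 2 (Pf.B 6 1 (Pf.W 53 6 [] [1,2,3,5] (Pf.cons (Pf.B 7 5 (Pf.B 7 3 (Pf.B 7 2 (Pf.B 7 1 (Pf.C 0 0x3070608085) (Pf.C 46 135)) (Pf.C 46 263)) (Pf.C 46 391)) (Pf.C 1 647)) Pf.nil)) (Pf.C 2 134)) (Pf.C 2 262)) (Pf.C 2 390)) Pf.nil)))) (Pf.C 1 517)) Pf.nil)) (Pf.W 50 4 [] [1,2,3] (Pf.cons (Pf.B 5 3 (Pf.B 5 2 (Pf.B 5 1 (Pf.W 53 5 [] [1,2,4] (Pf.cons (Pf.B 6 4 (Pf.B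 6 2 (Pf.B 6 1 (Pf.W 48 6 [] [1,2,4,5] (Pf.cons (Pf.B 7 5 (Pf.B 7 4 (Pf.C 47 519) (Pf.B 7 2 (Pf.B 7 1 (Pf.C 0 0x3050404384) (Pf.C 2 135)) (Pf.C 2 263))) (Pf.C 2 647)) Pf.nil)) (Pf.C 46 134)) (Pf.C 46 262)) (Pf.C 1 518)) Pf.nil)) (Pf.C 2 133)) (Pf.C 2 261)) (Pf.C 2 389)) Pf.nil))) (Pf.W 50 4 [] [1,2,3] (Pf.cons (Pf.B 5 3 (Pf.B 5 2 (Pf.B 5 1 (Pf.W 53 5 [] [1,3,4] (Pf.cons (Pf.B 6 4 (Pf.B 6 3 (Pf.B 6 1 (Pf.W 48 6 [] [1,3,4,5] (Pf.cons (Pf.B 7 5 (Pf.B 7 4 (Pf.C 47 519) (Pf.B 7 3 (Pf.B 7 1 (Pf.C 0 0x3050604384) (Pf.C 2 135)) (Pf.C 2 391))) (Pf.C 2 647)) Pf.nil)) (Pf.C 46 134)) (Pf.C 46 390)) (Pf.C 1 518)) Pf.nil)) (Pf.C 2 133)) (Pf.C 2 261)) (Pf.C 2 389)) Pf.nil))) Pf.nil)))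
 (Pq.cons (Pq.L [] 1 (Pf.C 2 257))
 Pq.nil))))
theorem bP_o23 : AllRef bP_T bP_G21 (hitObl [49,57] bP_h25) :=
  chkPq_sound bP_o23c _ (by decide +kernel)
noncomputable def bP_o24c : Pq := (Pq.cons (Pq.L [] 0 (Pf.C 68 1))
 (Pq.cons (Pq.L [] 0 (Pf.C 69 1))
 Pq.nil))
theorem bP_o24 : AllRef bP_T bP_G22 (List.map pat1 [67,68]) :=
  chkPq_sound bP_o24c _ (by decide +kernel)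
noncomputable def bP_o25c : Pq := (Pq.cons (Pq.L [] 32767 (Pf.C 0 0x305080c101))
 (Pq.cons (Pq.L [] 1 (Pf.C 2 257))
 (Pq.cons (Pq.L [] 1 (Pf.C 1 257))
 (Pq.cons (Pq.L [0] 7 (Pf.B 3 2 (Pf.B 3 1 (Pf.B 2 1 (Pf.W 7 16388 [] [2,3] (Pf.cons (Pf.B 5 3 (Pf.B 5 2 (Pf.B 5 1 (Pf.C 0 0x2050608080) (Pf.C 2 133)) (Pf.C 2 261)) (Pf.C 2 389)) Pf.nil)) (Pf.C 2 130)) (Pf.C 2 131)) (Pf.C 2 259)))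
 (Pq.cons (Pq.L [0] 15 (Pf.B 4 1 (Pf.B 3 2 (Pf.W 48 2 [] [0,1,3,4] (Pf.cons (Pf.B 5 4 (Pf.B 5 1 (Pf.B 5 3 (Pf.W 53 4 [] [0,1,2,3,5] (Pf.cons (Pf.B 6 3 (Pf.B 6 2 (Pf.B 6 1 (Pf.C 0 0x2060608001) (Pf.B 6 5 (Pf.W 6 1 [] [0,2,3,4,5,6] (Pf.cons (Pf.B 7 6 (Pf.B 7 3 (Pf.B 7 2 (Pf.B 7 5 (Pf.B 7 0 (Pf.B 7 4 (Pf.T 7 1 (Pf.cons (Pf.T 7 2 (Pf.cons (Pf.W 7 16391 [] [2,3,5,6] (Pf.cons (Pf.B 8 5 (Pf.B 8 1 (Pf.B 8 6 (Pf.B 8 3 (Pf.C 0 0x3880c00181) (Pf.B 8 2 (Pf.C 0 0x3880c00101) (Pf.C 0 0x2800e0c108))) (Pf.B 8 3 (Pf.B 8 2 (Pf.C 0 0x3880600101) (Pf.C 0 0x2800e18108)) (Pf.C 0 0x2800e18188))) (Pf.C 2 136)) (Pf.C 2 648)) Pf.nil)) (Pf.cons (Pf.C 47 897) (Pf.cons (Pf.C 47 897) Pf.nil))))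 Pf.nil)) (Pf.C 0 0x2070608001)) (Pf.C 1 7)) (Pf.C 0 0x2870c0c101)) (Pf.C 1 263)) (Pf.C 1 391)) (Pf.C 1 775)) Pf.nil)) (Pf.W 48 6 [] [0,1,2,3,4,5] (Pf.cons (Pf.B 7 5 (Pf.B 7 4 (Pf.B 7 1 (Pf.B 7 3 (Pf.B 7 2 (Pf.W 6 1 [] [0,2,3,4,5,6,7] (Pf.cons (Pf.B 8 6 (Pf.B 8 3 (Pf.B 8 2 (Pf.B 8 7 (Pf.B 8 0 (Pf.B 8 4 (Pf.B 8 5 (Pf.T 8 1 (Pf.cons (Pf.T 8 2 (Pf.cons (Pf.W 7 16392 [] [5,7] (Pf.cons (Pf.B 9 7 (Pf.B 9 5 (Pf.B 9 1 (Pf.C 0 0x4090e14080) (Pf.C 2 137)) (Pf.C 2 649)) (Pf.C 2 905)) Pf.nil)) (Pf.cons (Pf.C 47 1025) (Pf.cons (Pf.C 47 1025) Pf.nil)))) Pf.nil)) (Pf.T 8 1 (Pf.cons (Pf.T 8 2 (Pf.cons (Pf.W 3 386 [] [0,1,4,5,6,7,8] (Pf.cons (Pf.B 9 7 (Pf.B 9 5 (Pf.B 9 4 (Pf.B 9 1 (Pf.B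 9 8 (Pf.B 9 6 (Pf.B 9 0 (Pf.C 0 0x1091018005) (Pf.T 9 0 (Pf.cons (Pf.T 9 3 (Pf.cons (Pf.W 7 81922 [] [1,7,8,9] (Pf.cons (Pf.B 10 9 (Pf.B 10 7 (Pf.B 10 5 (Pf.B 10 1 (Pf.B 10 8 (Pf.C 0 0x2881204502) (Pf.C 0 0x40a121c080)) (Pf.C 2 138)) (Pf.C 2 650)) (Pf.C 2 906)) (Pf.C 2 1162)) Pf.nil)) Pf.nil)) (Pf.cons (Pf.C 4 9) (Pf.cons (Pf.C 5 393) Pf.nil))))) (Pf.T 9 0 (Pf.cons (Pf.W 7 81922 [] [1,4,6,7,8,9,3] (Pf.cons (Pf.T 9 3 (Pf.cons (Pf.W 7 81923 [] [4,6,7,9] (Pf.cons (Pf.B 10 9 (Pf.B 10 7 (Pf.B 10 5 (Pf.B 10 4 (Pf.B 10 6 (Pf.C 0 0x18a1214206) (Pf.C 0 0x3801210506)) (Pf.C 2 522)) (Pf.C 2 650)) (Pf.C 2 906)) (Pf.C 2 1162)) Pf.nil)) (Pf.cons (Pf.C 46 1154) (Pf.cons (Pf.C 46 1154)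 Pf.nil)))) (Pf.cons (Pf.B 10 9 (Pf.B 10 7 (Pf.B 10 5 (Pf.B 10 4 (Pf.B 10 1 (Pf.B 10 8 (Pf.C 0 0x2881204502) (Pf.B 10 6 (Pf.C 0 0x40a1210086) (Pf.C 0 0x380100830a))) (Pf.C 2 138)) (Pf.C 2 522)) (Pf.C 2 650)) (Pf.C 2 906)) (Pf.C 2 1162)) Pf.nil))) (Pf.cons (Pf.C 4 265) (Pf.cons (Pf.C 5 393) Pf.nil))))) (Pf.B 9 6 (Pf.B 9 0 (Pf.C 0 0x4090c0c001) (Pf.C 0 0x3041008009)) (Pf.B 9 0 (Pf.C 0 0x3801018109) (Pf.T 9 0 (Pf.cons (Pf.T 9 3 (Pf.cons (Pf.W 7 81923 [] [7,9] (Pf.cons (Pf.B 10 9 (Pf.B 10 7 (Pf.B 10 5 (Pf.C 0 0x18a121c280) (Pf.C 2 650)) (Pf.C 2 906)) (Pf.C 2 1162)) Pf.nil)) Pf.nil)) (Pf.cons (Pf.C 4 9) (Pf.cons (Pf.C 5 393) Pf.nil))))))) (Pf.C 2 137)) (Pf.C 2 521)) (Pf.C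 2 649)) (Pf.C 2 905)) (Pf.cons (Pf.B 9 7 (Pf.B 9 5 (Pf.B 9 4 (Pf.B 9 1 (Pf.B 9 8 (Pf.B 9 6 (Pf.B 9 0 (Pf.C 0 0x1891018005) (Pf.T 9 0 (Pf.cons (Pf.T 9 3 (Pf.cons (Pf.W 7 81922 [] [7,9] (Pf.cons (Pf.B 10 9 (Pf.B 10 7 (Pf.B 10 5 (Pf.C 0 0x10a121c280) (Pf.C 2 650)) (Pf.C 2 906)) (Pf.C 2 1162)) Pf.nil)) Pf.nil)) (Pf.cons (Pf.C 4 9) (Pf.cons (Pf.C 5 265) Pf.nil))))) (Pf.T 9 0 (Pf.cons (Pf.W 7 81923 [] [1,4,6,7,8,9,2] (Pf.cons (Pf.T 9 3 (Pf.cons (Pf.W 7 81922 [] [4,6,7,9] (Pf.cons (Pf.B 10 9 (Pf.B 10 7 (Pf.B 10 5 (Pf.B 10 4 (Pf.B 10 6 (Pf.C 0 0x10a1214206) (Pf.C 0 0x3801210506)) (Pf.C 2 522)) (Pf.C 2 650)) (Pf.C 2 906)) (Pf.C 2 1162)) Pf.nil)) (Pf.cons (Pf.C 46 1155) (Pf.cons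 (Pf.C 46 1155) Pf.nil)))) (Pf.cons (Pf.B 10 9 (Pf.B 10 7 (Pf.B 10 5 (Pf.B 10 4 (Pf.B 10 1 (Pf.B 10 8 (Pf.C 0 0x2881204503) (Pf.B 10 6 (Pf.C 0 0x40a1210086) (Pf.C 0 0x380100c30a))) (Pf.C 2 138)) (Pf.C 2 522)) (Pf.C 2 650)) (Pf.C 2 906)) (Pf.C 2 1162)) Pf.nil))) (Pf.cons (Pf.C 4 393) (Pf.cons (Pf.C 5 265) Pf.nil))))) (Pf.B 9 6 (Pf.B 9 0 (Pf.C 0 0x4090c08001) (Pf.C 0 0x304100c009)) (Pf.B 9 0 (Pf.C 0 0x3801018189) (Pf.T 9 0 (Pf.cons (Pf.T 9 3 (Pf.cons (Pf.W 7 81922 [] [7,9] (Pf.cons (Pf.B 10 9 (Pf.B 10 7 (Pf.B 10 5 (Pf.C 0 0x10a121c280) (Pf.C 2 650)) (Pf.C 2 906)) (Pf.C 2 1162)) Pf.nil)) Pf.nil)) (Pf.cons (Pf.C 4 9) (Pf.cons (Pf.C 5 265) Pf.nil))))))) (Pf.C 2 137)) (Pf.C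 2 521)) (Pf.C 2 649)) (Pf.C 2 905)) Pf.nil))) (Pf.cons (Pf.C 47 1025) (Pf.cons (Pf.C 47 1025) Pf.nil)))) Pf.nil))) (Pf.C 0 0x2080608001)) (Pf.C 1 8)) (Pf.C 0 0x3880c0c101)) (Pf.C 1 264)) (Pf.C 1 392)) (Pf.C 1 776)) Pf.nil)) (Pf.W 6 1 [] [0,2,3,4,5,6,7] (Pf.cons (Pf.B 8 6 (Pf.B 8 3 (Pf.B 8 2 (Pf.B 8 0 (Pf.B 8 4 (Pf.B 8 7 (Pf.B 8 5 (Pf.T 8 1 (Pf.cons (Pf.T 8 2 (Pf.cons (Pf.W 7 16392 [] [5,7] (Pf.cons (Pf.B 9 7 (Pf.B 9 5 (Pf.B 9 1 (Pf.C 0 0x4090e14080) (Pf.C 2 137)) (Pf.C 2 649)) (Pf.C 2 905)) Pf.nil)) (Pf.cons (Pf.C 47 1025) (Pf.cons (Pf.C 47 1025) Pf.nil)))) Pf.nil)) (Pf.T 8 1 (Pf.cons (Pf.T 8 2 (Pf.cons (Pf.W 7 81922 [] [1,3,4,6,7,8] (Pf.cons (Pf.B 9 7 (Pf.B 9 5 (Pf.B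 9 4 (Pf.B 9 1 (Pf.B 9 8 (Pf.C 0 0x2880e04482) (Pf.B 9 6 (Pf.B 9 3 (Pf.C 0 0x4090c00181) (Pf.C 0 0x3041008189)) (Pf.B 9 3 (Pf.T 9 3 (Pf.cons (Pf.W 7 81923 [] [4,6,7,9] (Pf.cons (Pf.B 10 9 (Pf.B 10 7 (Pf.B 10 5 (Pf.B 10 4 (Pf.B 10 6 (Pf.C 0 0x18a1214206) (Pf.C 0 0x3801210506)) (Pf.C 2 522)) (Pf.C 2 650)) (Pf.C 2 906)) (Pf.C 2 1162)) Pf.nil)) (Pf.cons (Pf.C 46 1154) (Pf.cons (Pf.C 46 1154) Pf.nil)))) (Pf.C 0 0x3801018189)))) (Pf.C 2 137)) (Pf.C 2 521)) (Pf.C 2 649)) (Pf.C 2 905)) Pf.nil)) (Pf.cons (Pf.C 47 1025) (Pf.cons (Pf.C 47 1025) Pf.nil)))) Pf.nil))) (Pf.C 0 0x3040400407)) (Pf.C 0 0x2080608001)) (Pf.C 1 8)) (Pf.C 1 264)) (Pf.C 1 392)) (Pf.C 1 776)) Pf.nil))) (Pf.B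 7 2 (Pf.W 6 1 [] [0,2,3,4,5,6,7] (Pf.cons (Pf.B 8 6 (Pf.B 8 3 (Pf.B 8 2 (Pf.B 8 0 (Pf.B 8 4 (Pf.B 8 7 (Pf.B 8 5 (Pf.T 8 1 (Pf.cons (Pf.T 8 2 (Pf.cons (Pf.W 7 16392 [] [5,7] (Pf.cons (Pf.B 9 7 (Pf.B 9 5 (Pf.B 9 1 (Pf.C 0 0x4090e14080) (Pf.C 2 137)) (Pf.C 2 649)) (Pf.C 2 905)) Pf.nil)) (Pf.cons (Pf.C 47 1025) (Pf.cons (Pf.C 47 1025) Pf.nil)))) Pf.nil)) (Pf.T 8 1 (Pf.cons (Pf.T 8 2 (Pf.cons (Pf.W 7 81922 [] [1,3,4,6,7,8] (Pf.cons (Pf.B 9 7 (Pf.B 9 5 (Pf.B 9 4 (Pf.B 9 1 (Pf.B 9 8 (Pf.B 9 6 (Pf.C 0 0x1091000305) (Pf.B 9 3 (Pf.C 0 0x3830a10486) (Pf.C 0 0x4050e04483))) (Pf.B 9 6 (Pf.B 9 3 (Pf.C 0 0x4090c00181) (Pf.C 0 0x3041008189)) (Pf.C 0 0x3801008309))) (Pf.C 2 137)) (Pf.C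 2 521)) (Pf.C 2 649)) (Pf.C 2 905)) Pf.nil)) (Pf.cons (Pf.C 47 1025) (Pf.cons (Pf.C 47 1025) Pf.nil)))) Pf.nil))) (Pf.C 0 0x3040600407)) (Pf.C 0 0x2080608001)) (Pf.C 1 8)) (Pf.C 1 264)) (Pf.C 1 392)) (Pf.C 1 776)) Pf.nil)) (Pf.C 0 0x3040600107))) (Pf.C 2 135)) (Pf.C 2 519)) (Pf.C 2 647)) Pf.nil)))) (Pf.C 1 262)) (Pf.C 1 390)) Pf.nil)) (Pf.W 48 3 [] [0,1,2,4,5] (Pf.cons (Pf.B 6 5 (Pf.B 6 4 (Pf.B 6 1 (Pf.B 6 2 (Pf.W 53 4 [] [0,1,2,3,5,6] (Pf.cons (Pf.B 7 3 (Pf.B 7 2 (Pf.B 7 1 (Pf.C 0 0x2070608001) (Pf.B 7 6 (Pf.B 7 5 (Pf.W 6 1 [] [0,2,3,4,5,6,7] (Pf.cons (Pf.B 8 7 (Pf.B 8 3 (Pf.B 8 2 (Pf.B 8 6 (Pf.B 8 0 (Pf.B 8 4 (Pf.B 8 5 (Pf.T 8 1 (Pf.cons (Pf.T 8 2 (Pf.cons (Pf.W 7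 16392 [] [5,6] (Pf.cons (Pf.B 9 6 (Pf.B 9 5 (Pf.B 9 1 (Pf.C 0 0x4090c14080) (Pf.C 2 137)) (Pf.C 2 649)) (Pf.C 2 777)) Pf.nil)) (Pf.cons (Pf.C 47 1025) (Pf.cons (Pf.C 47 1025) Pf.nil)))) Pf.nil)) (Pf.C 0 0x3840600405)) (Pf.C 0 0x2080608001)) (Pf.C 1 8)) (Pf.C 0 0x3080e0c101)) (Pf.C 1 264)) (Pf.C 1 392)) (Pf.C 1 904)) Pf.nil)) (Pf.W 6 1 [] [0,2,3,4,5,6,7] (Pf.cons (Pf.B 8 7 (Pf.B 8 3 (Pf.B 8 2 (Pf.B 8 6 (Pf.B 8 0 (Pf.B 8 4 (Pf.B 8 5 (Pf.T 8 1 (Pf.cons (Pf.T 8 2 (Pf.cons (Pf.W 7 16392 [] [5,6] (Pf.cons (Pf.B 9 6 (Pf.B 9 5 (Pf.B 9 1 (Pf.C 0 0x4090c14080) (Pf.C 2 137)) (Pf.C 2 649)) (Pf.C 2 777)) Pf.nil)) (Pf.cons (Pf.C 47 1025) (Pf.cons (Pf.C 47 1025) Pf.nil)))) Pf.nil))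 (Pf.T 8 1 (Pf.cons (Pf.T 8 2 (Pf.cons (Pf.W 7 81922 [] [1,3,6,7,8] (Pf.cons (Pf.B 9 6 (Pf.B 9 5 (Pf.B 9 1 (Pf.B 9 8 (Pf.B 9 7 (Pf.C 0 0x1091000385) (Pf.B 9 3 (Pf.C 0 0x1091000185) (Pf.C 0 0x3000e08189))) (Pf.B 9 7 (Pf.B 9 3 (Pf.C 0 0x4090e00181) (Pf.C 0 0x3001008189)) (Pf.C 0 0x3001008389))) (Pf.C 2 137)) (Pf.C 2 649)) (Pf.C 2 777)) Pf.nil)) (Pf.cons (Pf.C 47 1025) (Pf.cons (Pf.C 47 1025) Pf.nil)))) Pf.nil))) (Pf.C 0 0x2080608001)) (Pf.C 1 8)) (Pf.C 0 0x3080e0c101)) (Pf.C 1 264)) (Pf.C 1 392)) (Pf.C 1 904)) Pf.nil))) (Pf.B 7 5 (Pf.W 6 1 [] [0,2,3,4,5,6,7] (Pf.cons (Pf.B 8 7 (Pf.B 8 3 (Pf.B 8 2 (Pf.B 8 0 (Pf.B 8 4 (Pf.B 8 5 (Pf.B 8 6 (Pf.T 8 1 (Pf.cons (Pf.T 8 2 (Pf.cons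 (Pf.W 7 16392 [] [5,6] (Pf.cons (Pf.B 9 6 (Pf.B 9 5 (Pf.B 9 1 (Pf.C 0 0x4090c14080) (Pf.C 2 137)) (Pf.C 2 649)) (Pf.C 2 777)) Pf.nil)) (Pf.cons (Pf.C 47 1025) (Pf.cons (Pf.C 47 1025) Pf.nil)))) Pf.nil)) (Pf.T 8 1 (Pf.cons (Pf.T 8 2 (Pf.cons (Pf.W 7 81922 [] [1,3,4,6,7,8] (Pf.cons (Pf.B 9 6 (Pf.B 9 5 (Pf.B 9 4 (Pf.B 9 1 (Pf.B 9 8 (Pf.B 9 7 (Pf.C 0 0x1091000386) (Pf.B 9 3 (Pf.C 0 0x2830c10487) (Pf.C 0 0x4060a04483))) (Pf.B 9 7 (Pf.B 9 3 (Pf.C 0 0x4090e00181) (Pf.C 0 0x3841008189)) (Pf.C 0 0x2801008389))) (Pf.C 2 137)) (Pf.C 2 521)) (Pf.C 2 649)) (Pf.C 2 777)) Pf.nil)) (Pf.cons (Pf.C 47 1025) (Pf.cons (Pf.C 47 1025) Pf.nil)))) Pf.nil))) (Pf.C 0 0x3840600405)) (Pf.C 0 0x2080608001))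 (Pf.C 1 8)) (Pf.C 1 264)) (Pf.C 1 392)) (Pf.C 1 904)) Pf.nil)) (Pf.W 48 7 [] [0,2,4,5,6] (Pf.cons (Pf.B 8 6 (Pf.B 8 5 (Pf.B 8 4 (Pf.B 8 2 (Pf.W 7 81922 [] [6,8] (Pf.cons (Pf.B 9 8 (Pf.B 9 6 (Pf.B 9 5 (Pf.C 0 0x1091018280) (Pf.C 2 649)) (Pf.C 2 777)) (Pf.C 2 1033)) Pf.nil)) (Pf.C 0 0x1080c14207)) (Pf.C 2 520)) (Pf.C 2 648)) (Pf.C 2 776)) Pf.nil))))) (Pf.C 1 263)) (Pf.C 1 391)) Pf.nil)) (Pf.W 53 4 [] [0,1,2,3,5,6] (Pf.cons (Pf.B 7 3 (Pf.B 7 2 (Pf.B 7 1 (Pf.C 0 0x2070608001) (Pf.B 7 6 (Pf.B 7 5 (Pf.W 6 1 [] [0,2,3,4,5,6,7] (Pf.cons (Pf.B 8 7 (Pf.B 8 3 (Pf.B 8 2 (Pf.B 8 0 (Pf.B 8 4 (Pf.B 8 6 (Pf.B 8 5 (Pf.T 8 1 (Pf.cons (Pf.T 8 2 (Pf.cons (Pf.W 7 16392 [] [5,6] (Pf.cons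 (Pf.B 9 6 (Pf.B 9 5 (Pf.B 9 1 (Pf.C 0 0x4090c14080) (Pf.C 2 137)) (Pf.C 2 649)) (Pf.C 2 777)) Pf.nil)) (Pf.cons (Pf.C 47 1025) (Pf.cons (Pf.C 47 1025) Pf.nil)))) Pf.nil)) (Pf.C 0 0x3840600405)) (Pf.C 0 0x3840400406)) (Pf.C 0 0x2080608001)) (Pf.C 1 8)) (Pf.C 1 264)) (Pf.C 1 392)) (Pf.C 1 904)) Pf.nil)) (Pf.W 6 1 [] [0,2,3,4,5,6,7] (Pf.cons (Pf.B 8 7 (Pf.B 8 3 (Pf.B 8 2 (Pf.B 8 0 (Pf.B 8 4 (Pf.B 8 6 (Pf.B 8 5 (Pf.T 8 1 (Pf.cons (Pf.T 8 2 (Pf.cons (Pf.W 7 16392 [] [5,6] (Pf.cons (Pf.B 9 6 (Pf.B 9 5 (Pf.B 9 1 (Pf.C 0 0x4090c14080) (Pf.C 2 137)) (Pf.C 2 649)) (Pf.C 2 777)) Pf.nil)) (Pf.cons (Pf.C 47 1025) (Pf.cons (Pf.C 47 1025) Pf.nil)))) Pf.nil)) (Pf.C 0 0x3020e0c405))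 (Pf.C 0 0x3840400406)) (Pf.C 0 0x2080608001)) (Pf.C 1 8)) (Pf.C 1 264)) (Pf.C 1 392)) (Pf.C 1 904)) Pf.nil))) (Pf.B 7 5 (Pf.W 6 1 [] [0,2,3,4,5,6,7] (Pf.cons (Pf.B 8 7 (Pf.B 8 3 (Pf.B 8 2 (Pf.B 8 0 (Pf.B 8 4 (Pf.B 8 5 (Pf.B 8 6 (Pf.T 8 1 (Pf.cons (Pf.T 8 2 (Pf.cons (Pf.W 7 16392 [] [5,6] (Pf.cons (Pf.B 9 6 (Pf.B 9 5 (Pf.B 9 1 (Pf.C 0 0x4090c14080) (Pf.C 2 137)) (Pf.C 2 649)) (Pf.C 2 777)) Pf.nil)) (Pf.cons (Pf.C 47 1025) (Pf.cons (Pf.C 47 1025) Pf.nil)))) Pf.nil)) (Pf.C 0 0x2830e08406)) (Pf.C 0 0x3840600405)) (Pf.C 0 0x2080608001)) (Pf.C 1 8)) (Pf.C 1 264)) (Pf.C 1 392)) (Pf.C 1 904)) Pf.nil)) (Pf.W 48 7 [] [0,1,2,3,4,5,6] (Pf.cons (Pf.B 8 6 (Pf.B 8 5 (Pf.B 8 4 (Pf.B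 8 1 (Pf.B 8 3 (Pf.B 8 2 (Pf.W 6 1 [] [0,2,3,4,5,6,7,8] (Pf.cons (Pf.B 9 7 (Pf.B 9 3 (Pf.B 9 2 (Pf.B 9 8 (Pf.B 9 0 (Pf.B 9 4 (Pf.B 9 6 (Pf.B 9 5 (Pf.T 9 1 (Pf.cons (Pf.T 9 2 (Pf.cons (Pf.W 7 16393 [] [5,6,8] (Pf.cons (Pf.B 10 8 (Pf.B 10 6 (Pf.B 10 5 (Pf.C 0 0x48a1018280) (Pf.C 2 650)) (Pf.C 2 778)) (Pf.C 2 1034)) Pf.nil)) (Pf.cons (Pf.C 47 1153) (Pf.cons (Pf.C 47 1153) Pf.nil)))) Pf.nil)) (Pf.T 9 1 (Pf.cons (Pf.T 9 2 (Pf.cons (Pf.W 7 81922 [] [1,6,8,9] (Pf.cons (Pf.B 10 8 (Pf.B 10 6 (Pf.B 10 5 (Pf.B 10 1 (Pf.B 10 9 (Pf.C 0 0x2890c04502) (Pf.C 0 0x48a1018080)) (Pf.C 2 138)) (Pf.C 2 650)) (Pf.C 2 778)) (Pf.C 2 1034)) Pf.nil)) (Pf.cons (Pf.C 47 1153) (Pf.cons (Pf.C 47 1153)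 Pf.nil)))) Pf.nil))) (Pf.B 9 5 (Pf.T 9 1 (Pf.cons (Pf.T 9 2 (Pf.cons (Pf.W 7 98307 [] [1,5,8,9] (Pf.cons (Pf.B 10 8 (Pf.B 10 6 (Pf.B 10 5 (Pf.B 10 1 (Pf.B 10 9 (Pf.C 0 0x3090a04503) (Pf.C 0 0x48a1014080)) (Pf.C 2 138)) (Pf.C 2 650)) (Pf.C 2 778)) (Pf.C 2 1034)) Pf.nil)) (Pf.cons (Pf.C 47 1153) (Pf.cons (Pf.C 47 1153) Pf.nil)))) Pf.nil)) (Pf.T 9 1 (Pf.cons (Pf.T 9 2 (Pf.cons (Pf.W 7 81922 [] [1,3,7,8,9] (Pf.cons (Pf.B 10 8 (Pf.B 10 5 (Pf.B 10 1 (Pf.B 10 9 (Pf.B 10 7 (Pf.C 0 0x10a1200385) (Pf.B 10 3 (Pf.C 0 0x10a1200185) (Pf.C 0 0x4000e0818a))) (Pf.B 10 7 (Pf.B 10 3 (Pf.C 0 0x48a0e00181) (Pf.C 0 0x400120818a)) (Pf.C 0 0x400120838a))) (Pf.C 2 138)) (Pf.C 2 650)) (Pf.C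 2 1034)) Pf.nil)) (Pf.cons (Pf.C 47 1153) (Pf.cons (Pf.C 47 1153) Pf.nil)))) Pf.nil)))) (Pf.C 0 0x2090608001)) (Pf.C 1 9)) (Pf.C 0 0x4090e0c101)) (Pf.C 1 265)) (Pf.C 1 393)) (Pf.C 1 905)) Pf.nil)) (Pf.W 6 1 [] [0,2,3,4,5,6,7,8] (Pf.cons (Pf.B 9 7 (Pf.B 9 3 (Pf.B 9 2 (Pf.B 9 0 (Pf.B 9 4 (Pf.B 9 8 (Pf.B 9 5 (Pf.B 9 6 (Pf.T 9 1 (Pf.cons (Pf.T 9 2 (Pf.cons (Pf.W 7 16393 [] [5,6,8] (Pf.cons (Pf.B 10 8 (Pf.B 10 6 (Pf.B 10 5 (Pf.C 0 0x48a1018280) (Pf.C 2 650)) (Pf.C 2 778)) (Pf.C 2 1034)) Pf.nil)) (Pf.cons (Pf.C 47 1153) (Pf.cons (Pf.C 47 1153) Pf.nil)))) Pf.nil)) (Pf.T 9 1 (Pf.cons (Pf.T 9 2 (Pf.cons (Pf.W 7 81922 [] [1,3,6,8,9] (Pf.cons (Pf.B 10 8 (Pf.B 10 6 (Pf.B 10 5 (Pf.B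 10 3 (Pf.C 0 0x2831018502) (Pf.B 10 1 (Pf.B 10 9 (Pf.C 0 0x3090a04503) (Pf.C 0 0x48a1014080)) (Pf.C 2 138))) (Pf.C 2 650)) (Pf.C 2 778)) (Pf.C 2 1034)) Pf.nil)) (Pf.cons (Pf.C 47 1153) (Pf.cons (Pf.C 47 1153) Pf.nil)))) Pf.nil))) (Pf.C 0 0x4020e0c485)) (Pf.C 0 0x3840400488)) (Pf.C 0 0x2090608001)) (Pf.C 1 9)) (Pf.C 1 265)) (Pf.C 1 393)) (Pf.C 1 905)) Pf.nil))) (Pf.B 8 2 (Pf.W 6 1 [] [0,2,3,4,5,6,7,8] (Pf.cons (Pf.B 9 7 (Pf.B 9 3 (Pf.B 9 2 (Pf.B 9 0 (Pf.B 9 4 (Pf.B 9 8 (Pf.B 9 6 (Pf.B 9 5 (Pf.T 9 1 (Pf.cons (Pf.T 9 2 (Pf.cons (Pf.W 7 16393 [] [5,6,8] (Pf.cons (Pf.B 10 8 (Pf.B 10 6 (Pf.B 10 5 (Pf.C 0 0x48a1018280) (Pf.C 2 650)) (Pf.C 2 778)) (Pf.C 2 1034)) Pf.nil)) (Pf.cons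 (Pf.C 47 1153) (Pf.cons (Pf.C 47 1153) Pf.nil)))) Pf.nil)) (Pf.T 9 1 (Pf.cons (Pf.T 9 2 (Pf.cons (Pf.W 7 81922 [] [1,6,8,9] (Pf.cons (Pf.B 10 8 (Pf.B 10 6 (Pf.B 10 5 (Pf.B 10 1 (Pf.B 10 9 (Pf.C 0 0x2890c04502) (Pf.C 0 0x48a1018080)) (Pf.C 2 138)) (Pf.C 2 650)) (Pf.C 2 778)) (Pf.C 2 1034)) Pf.nil)) (Pf.cons (Pf.C 47 1153) (Pf.cons (Pf.C 47 1153) Pf.nil)))) Pf.nil))) (Pf.C 0 0x4030e08486)) (Pf.C 0 0x3840600488)) (Pf.C 0 0x2090608001)) (Pf.C 1 9)) (Pf.C 1 265)) (Pf.C 1 393)) (Pf.C 1 905)) Pf.nil)) (Pf.C 0 0x3840600108))) (Pf.C 2 136)) (Pf.C 2 520)) (Pf.C 2 648)) (Pf.C 2 776)) Pf.nil))))) (Pf.C 1 263)) (Pf.C 1 391)) Pf.nil))) (Pf.C 2 134)) (Pf.C 2 518)) (Pf.C 2 646)) Pf.nil)))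 (Pf.C 2 133)) (Pf.C 2 517)) Pf.nil)) (Pf.C 1 259)) (Pf.C 2 132)))
 (Pq.cons (Pq.L [0] 7 (Pf.B 4 3 (Pf.B 4 2 (Pf.B 3 2 (Pf.W 48 1 [] [0,2,3,4] (Pf.cons (Pf.B 5 4 (Pf.B 5 3 (Pf.B 5 2 (Pf.C 0 0x5080c101) (Pf.C 2 261)) (Pf.C 2 389)) (Pf.C 2 517)) Pf.nil)) (Pf.C 2 259)) (Pf.C 2 260)) (Pf.C 2 388)))
 Pq.nil))))))
theorem bP_o25 : AllRef bP_T bP_G23 (applyObl b1_T 6 [53,47,55] [1,2,3] []) :=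
  chkPq_sound bP_o25c _ (by decide +kernel)

end Pool.Agent.Lib.MP_849b2e_co
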