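import Pool.Agent.Lib.MP_849b2e_co.AllR
import Pool.Agent.Lib.MP_849b2e_co.TbP
import Pool.Agent.Lib.MP_849b2e_co.ObP_0
import Pool.Agent.Lib.MP_849b2e_co.Lb1

set_option maxRecDepth 100000
set_option linter.all false
namespace Pool.Agent.Lib.MP_849b2e_co

theorem bP_n27  : Bd bP_T bP_G23 [53,47,55] :=
  r_apply lem_b1 [1,2,3] [] (by decide +kernel) bP_o25
theorem bP_n26  : Bd bP_T bP_G22 [53,47,55,67,68] :=
  r_kill [67,68] ⟨69,[],[],[]⟩ bP_G23 [53,47,55] (by decide +kernel) bP_o24 bP_n27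
theorem bP_n25  : Bd bP_T bP_G21 [53,47,55,49,57] :=
  r_hit [49,57] bP_h25 ⟨67,[],[69,70],[]⟩ bP_G22 [53,47,55,67,68] (by decide +kernel) bP_o23 bP_n26
theorem bP_n24  : Bd bP_T bP_G8 [46,53,47,54,48,55,49,56,50,57] :=
  r_kill [46,54,48,56,50] ⟨59,[],[],[]⟩ bP_G21 [53,47,55,49,57] (by decide +kernel) bP_o22 bP_n25
theorem bP_n23  : Bd bP_T bP_G20 [40] :=
  r_apply lem_D2 [0] [] (by decide +kernel) bP_o21
theorem bP_n22  : Bd bP_T bP_G19 [40,66] :=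
  r_kill [66] ⟨67,[],[],[]⟩ bP_G20 [40] (by decide +kernel) bP_o20 bP_n23
theorem bP_n21  : Bd bP_T bP_G18 [40,32] :=
  r_hit [32] bP_h21 ⟨66,[],[68],[]⟩ bP_G19 [40,66] (by decide +kernel) bP_o19 bP_n22
theorem bP_n20  : Bd bP_T bP_G14 [40,32] :=
  r_learn [[40],[32],[32]] [⟨0,1,false⟩,⟨0,2,false⟩] ⟨65,[],[67],[]⟩ bP_G18 [40,32] (by decide +kernel) bP_o18 bP_n21
theorem bP_n19  : Bd bP_T bP_G17 [31] :=
  r_apply lem_D2 [0] [] (by decide +kernel) bP_o17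
theorem bP_n18  : Bd bP_T bP_G16 [31,65] :=
  r_kill [65] ⟨66,[],[],[]⟩ bP_G17 [31] (by decide +kernel) bP_o16 bP_n19
theorem bP_n17  : Bd bP_T bP_G15 [31,41] :=
  r_hit [41] bP_h17 ⟨65,[],[66],[]⟩ bP_G16 [31,65] (by decide +kernel) bP_o15 bP_n18
theorem bP_n16  : Bd bP_T bP_G14 [31,41] :=
  r_learn [[31],[41],[41]] [⟨0,1,true⟩,⟨0,2,true⟩] ⟨65,[],[65],[]⟩ bP_G15 [31,41] (by decide +kernel) bP_o14 bP_n17
theorem bP_n15  : Bd bP_T bP_G14 [31,40,32,41] :=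
  r_split [31,41] [40,32] (by decide +kernel) bP_o13 bP_n16 bP_n20
theorem bP_n14  : Bd bP_T bP_G13 [31,40,32,41,61,63,62,64] :=
  r_kill [61,63,62,64] ⟨65,[],[],[]⟩ bP_G14 [31,40,32,41] (by decide +kernel) bP_o12 bP_n15
theorem bP_n13  : Bd bP_T bP_G7 [31,40,32,41,33,42,34,43] :=
  r_hit [33,34,42,43] bP_h13 ⟨61,[],[61,62,63,64],[]⟩ bP_G13 [31,40,32,41,61,63,62,64] (by decide +kernel) bP_o11 bP_n14
theorem bP_n12  : Bd bP_T bP_G12 [13,20,14,21,15,22,16,23,17,24,19,26] :=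
  r_sepend [13,20,14,21,15,22,16,23,17,24] [19,26] (by decide +kernel) bP_o10
theorem bP_n11  : Bd bP_T bP_G11 [13,20,14,21,15,22,16,23,17,24,59,60,19,26] :=
  r_kill [59,60] ⟨61,[],[],[]⟩ bP_G12 [13,20,14,21,15,22,16,23,17,24,19,26] (by decide +kernel) bP_o9 bP_n12
theorem bP_n10  : Bd bP_T bP_G10 [13,20,14,21,15,22,16,23,17,24,18,25,19,26] :=
  r_hit [18,25] bP_h10 ⟨59,[],[59,60],[]⟩ bP_G11 [13,20,14,21,15,22,16,23,17,24,59,60,19,26] (by decide +kernel) bP_o8 bP_n11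
theorem bP_n9  : Bd bP_T bP_G9 [13,20,14,21,15,22,16,23,17,24,18,25,19,26] :=
  r_learn [[24],[18],[18]] [⟨0,1,false⟩,⟨0,2,false⟩] ⟨27,[],[58],[]⟩ bP_G10 [13,20,14,21,15,22,16,23,17,24,18,25,19,26] (by decide +kernel) bP_o7 bP_n10
theorem bP_n8  : Bd bP_T bP_G6 [13,20,14,21,15,22,16,23,17,24,18,25,19,26] :=
  r_learn [[17],[25],[25]] [⟨0,1,true⟩,⟨0,2,true⟩] ⟨27,[],[57],[]⟩ bP_G9 [13,20,14,21,15,22,16,23,17,24,18,25,19,26] (by decide +kernel) bP_o6 bP_n9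
theorem bP_n7  : Bd bP_T bP_G5 [12,8] :=
  r_window false 3 2 0 0 0 [1] [0,1] [2,1] ⟨13,[],[0,9,0,10,0,11,0,12,0,13,14,0,15,0,16,0,17,0,18,0,19,20,21,22,0,23,24,25,26],[]⟩ bP_G6 [13,20,14,21,15,22,16,23,17,24,18,25,19,26] ⟨27,[],[0,0,0,27,0,28,0,29,0,30,0,0,0,0,0,0,31,0,32,0,33,0,34,0,0,0,0,0,35,36,37,38,39,40,0,41,42,43,44,45,46],[]⟩ bP_G7 [31,40,32,41,33,42,34,43] ⟨45,[3,4],[0,0,0,0,0,47,0,0,0,0,0,0,48,0,0,0,0,0,0,0,49,50,51,52,0,53,54,55,56],[]⟩ bP_G8 [46,53,47,54,48,55,49,56,50,57] (by decide +kernel) bP_o5 bP_n8 bP_n13 bP_n24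
theorem bP_n6  : Bd bP_T bP_G5 [5,8] :=
  r_act [1] [12,8] (by decide +kernel) bP_n7
theorem bP_n5  : Bd bP_T bP_G3 [5,8] :=
  r_psplit 5 [0] PT.kid ⟨12,[2],[],[]⟩ bP_G5 [5,8] (by decide +kernel) bP_o4 bP_n6
theorem bP_n4  : Bd bP_T bP_G4 [] :=
  r_empty (by decide +kernel) 
theorem bP_n3  : Bd bP_T bP_G2 [8] :=
  r_kill [8] ⟨11,[],[],[]⟩ bP_G4 [] (by decide +kernel) bP_o3 bP_n4
theorem bP_n2  : Bd bP_T bP_G1 [5,8] :=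
  r_ext 5 2 [] [] [8] [] [] ⟨11,[],[],[]⟩ bP_G2 [8] ⟨11,[],[8],[]⟩ bP_G3 [5,8] (by decide +kernel) bP_o2 bP_n3 bP_n5
theorem bP_n1  : Bd bP_T bP_G0 [3,4] :=
  r_block [2,0] [2,1] [2,1] ⟨5,[0,1],[0,0,0,0,5,0,0,6,0,7],[1]⟩ bP_G1 [5,8] (by decide +kernel) bP_o1 bP_n2
theorem bP_n0  : Bd bP_T (pureCtx 2 3) (pureAct 2) :=
  show Bd _ _ [1,2] from r_twin 0 [2,1] ⟨3,[],[4],[]⟩ bP_G0 [3,4] (by decide +kernel) bP_o0 bP_n1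
theorem lem_bP  : Lem bP_T 2 3 := ⟨by decide +kernel, bP_n0⟩

end Pool.Agent.Lib.MP_849b2e_co
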