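import Pool.Agent.Lib.MP_849b2e_co.Rules

set_option maxRecDepth 100000
set_option linter.all false
namespace Pool.Agent.Lib.MP_849b2e_co

noncomputable def b_ty : Tr Ty := (Tr.br (Tr.br (Tr.br (Tr.br (Tr.br (Tr.br (Tr.leaf ⟨1,0,0,0,0⟩) (Tr.leaf ⟨0x100210003,0xfde000c,20,11,31⟩)) (Tr.br (Tr.leaf ⟨65539,12,0,0,31⟩) (Tr.leaf ⟨0x1000200410003,0xfbe000c,2,29,31⟩))) (Tr.br (Tr.br (Tr.leaf ⟨323,140,0,0,1⟩) (Tr.leaf ⟨0x10100210003,0xfde000c,20,11,31⟩)) (Tr.leaf ⟨0x1010003,0xefe000c,10,21,31⟩)))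
 (Tr.br (Tr.br (Tr.br (Tr.leaf ⟨19,44,0,0,0⟩) (Tr.leaf ⟨0x1002010003,0xdfe000c,1,30,31⟩)) (Tr.leaf ⟨0x110003,0xfee000c,4,27,31⟩)) (Tr.br (Tr.br (Tr.leaf ⟨5443,652,1,0,1⟩) (Tr.leaf ⟨0x104008010003,0x7fe000c,5,26,31⟩)) (Tr.leaf ⟨0x10030003,0xffc000c,0,31,31⟩)))
)
 (Tr.br (Tr.br (Tr.br (Tr.br (Tr.leaf ⟨5,10,0,0,0⟩) (Tr.leaf ⟨0x400810003,0xf7e000c,18,13,31⟩)) (Tr.leaf ⟨0x50003,0xffa000c,16,15,31⟩)) (Tr.br (Tr.br (Tr.leaf ⟨1347,652,1,0,1⟩) (Tr.leaf ⟨0x40801010003,0xefe000c,10,21,31⟩)) (Tr.leaf ⟨0x4010003,0xbfe000c,9,22,31⟩)))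
 (Tr.br (Tr.br (Tr.br (Tr.leaf ⟨67,140,0,0,0⟩) (Tr.leaf ⟨0x4008010003,0x7fe000c,5,26,31⟩)) (Tr.leaf ⟨0x410003,0xfbe000c,2,29,31⟩)) (Tr.br (Tr.br (Tr.leaf ⟨24643,140,0,127,127⟩) (Tr.leaf ⟨0x400040090003,0xff6000c,8,23,31⟩)) (Tr.leaf ⟨0x40090003,0xff6000c,8,23,31⟩)))
)
)
 (Tr.br (Tr.br (Tr.br (Tr.br (Tr.br (Tr.leaf ⟨3,12,0,0,0⟩) (Tr.leaf ⟨0x200410003,0xfbe000c,2,29,31⟩)) (Tr.br (Tr.leaf ⟨0x30003,0xffc000c,0,31,31⟩) (Tr.leaf ⟨0x2001002010003,0xdfe000c,1,30,31⟩))) (Tr.br (Tr.br (Tr.leaf ⟨835,1164,0,1,1⟩) (Tr.leaf ⟨0x20400810003,0xf7e000c,18,13,31⟩)) (Tr.leaf ⟨0x2010003,0xdfe000c,1,30,31⟩)))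
 (Tr.br (Tr.br (Tr.br (Tr.leaf ⟨35,28,0,0,0⟩) (Tr.leaf ⟨0x2004010003,0xbfe000c,9,22,31⟩)) (Tr.leaf ⟨0x210003,0xfde000c,20,11,31⟩)) (Tr.br (Tr.br (Tr.leaf ⟨8259,140,0,0,127⟩) (Tr.leaf ⟨0x200020050003,0xffa000c,16,15,31⟩)) (Tr.leaf ⟨0x20050003,0xffa000c,16,15,31⟩)))
)
 (Tr.br (Tr.br (Tr.br (Tr.br (Tr.leaf ⟨9,6,0,0,0⟩) (Tr.leaf ⟨0x801010003,0xefe000c,10,21,31⟩)) (Tr.leaf ⟨0x90003,0xff6000c,8,23,31⟩)) (Tr.br (Tr.br (Tr.leaf ⟨2179,76,0,1,0⟩) (Tr.leaf ⟨0x82004010003,0xbfe000c,9,22,31⟩)) (Tr.leaf ⟨0x8010003,0x7fe000c,5,26,31⟩)))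
 (Tr.br (Tr.br (Tr.br (Tr.leaf ⟨131,76,0,0,0⟩) (Tr.leaf ⟨0x8010030003,0xffc000c,0,31,31⟩)) (Tr.leaf ⟨0x810003,0xf7e000c,18,13,31⟩)) (Tr.br (Tr.br (Tr.leaf ⟨32899,76,0,127,0⟩) (Tr.leaf ⟨0x800080110003,0xfee000c,4,27,31⟩)) (Tr.leaf ⟨0x80110003,0xfee000c,4,27,31⟩)))
)
)
)

noncomputable def b_ev : Tr Ev := (Tr.br (Tr.br (Tr.br (Tr.br (Tr.leaf ⟨1,[4,5],0⟩) (Tr.leaf ⟨1,[16],31⟩))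
 (Tr.leaf ⟨7,[11],0⟩))
 (Tr.br (Tr.leaf ⟨6,[8],1⟩) (Tr.leaf ⟨13,[14],0⟩))
)
 (Tr.br (Tr.br (Tr.br (Tr.leaf ⟨1,[6,7],0⟩) (Tr.leaf ⟨16,[17,18,19,20,21,22,23,24,25,26,27],0⟩))
 (Tr.leaf ⟨6,[13],127⟩))
 (Tr.br (Tr.leaf ⟨8,[9,10],0⟩) (Tr.leaf ⟨7,[15],0⟩))
)
)

noncomputable def b_ax : Tr Ax := (Tr.br (Tr.br (Tr.br (Tr.br (Tr.br (Tr.br (Tr.leaf ⟨[1,1,1],[⟨0,1,true⟩,⟨0,2,true⟩,⟨1,2,true⟩],[],0⟩) (Tr.leaf ⟨[0x8000000000,0x10000000000,0x80000000000],[⟨0,1,false⟩,⟨0,2,true⟩,⟨1,2,false⟩],[],0⟩)) (Tr.br (Tr.leaf ⟨[0x20000000,0x20000000],[],[],0⟩) (Tr.leaf ⟨[0x8000000000,0x80000000000,0x100000000000],[⟨0,1,true⟩,⟨0,2,false⟩,⟨1,2,false⟩],[],0⟩))) (Tr.br (Tr.br (Tr.leaf ⟨[2,64,64,64],[⟨0,1,true⟩,⟨0,2,true⟩,⟨0,3,true⟩],[],0⟩)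 (Tr.leaf ⟨[0x8000000000,0x20000000000,0x80000000000],[⟨0,1,false⟩,⟨0,2,true⟩,⟨1,2,false⟩],[],0⟩)) (Tr.br (Tr.leaf ⟨[0x8000000000,0x8000000000,0x80000000000],[⟨0,1,true⟩,⟨0,2,true⟩,⟨1,2,false⟩],[],0⟩) (Tr.leaf ⟨[0x200000000000],[],[],0⟩))))
 (Tr.br (Tr.br (Tr.br (Tr.leaf ⟨[32,32],[⟨0,1,true⟩],[],0⟩) (Tr.leaf ⟨[0x8000000000,0x20000000000,0x40000000000],[⟨0,1,true⟩,⟨0,2,false⟩,⟨1,2,false⟩],[],0⟩)) (Tr.br (Tr.leaf ⟨[0x1000000000,0x1000000000],[],[],0⟩) (Tr.leaf ⟨[0x10000000000,0x40000000000,0x80000000000],[⟨0,1,false⟩,⟨0,2,false⟩,⟨1,2,false⟩],[],0⟩))) (Tr.br (Tr.br (Tr.leaf ⟨[64,64,64,64,64,64,64],[⟨0,1,true⟩,⟨1,2,true⟩,⟨2,3,true⟩,⟨3,4,true⟩,⟨4,5,true⟩,⟨5,6,true⟩,⟨0,6,true⟩,⟨0,2,false⟩,⟨0,3,false⟩,⟨0,4,false⟩,⟨0,5,false⟩,⟨1,3,false⟩,⟨1,4,false⟩,⟨1,5,false⟩,⟨1,6,false⟩,⟨2,4,false⟩,⟨2,5,false⟩,⟨2,6,false⟩,⟨3,5,false⟩,⟨3,6,false⟩,⟨4,6,false⟩],[],0⟩)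 (Tr.leaf ⟨[0x8000000000,0x40000000000,0x80000000000],[⟨0,1,false⟩,⟨0,2,true⟩,⟨1,2,false⟩],[],0⟩)) (Tr.br (Tr.leaf ⟨[0x8000000000,0x10000000000,0x20000000000],[⟨0,1,true⟩,⟨0,2,true⟩,⟨1,2,false⟩],[],0⟩) (Tr.leaf ⟨[0x2000000000000],[],[],0⟩))))
)
 (Tr.br (Tr.br (Tr.br (Tr.br (Tr.leaf ⟨[2,2,2,2,2],[⟨0,1,true⟩,⟨1,2,true⟩,⟨2,3,true⟩,⟨3,4,true⟩,⟨4,0,true⟩,⟨0,2,false⟩,⟨0,3,false⟩,⟨1,3,false⟩,⟨1,4,false⟩,⟨2,4,false⟩],[],0⟩) (Tr.leaf ⟨[0x8000000000,0x10000000000,0x100000000000],[⟨0,1,false⟩,⟨0,2,true⟩,⟨1,2,false⟩],[],0⟩)) (Tr.br (Tr.leaf ⟨[0x80000000,0x80000000],[],[],0⟩) (Tr.leaf ⟨[0x8000000000,0x80000000000,0x100000000000],[⟨0,1,true⟩,⟨0,2,true⟩,⟨1,2,false⟩],[],0⟩))) (Tr.br (Tr.br (Tr.leaf ⟨[64,64,64,64,64,64],[⟨0,5,true⟩,⟨0,1,true⟩,⟨1,2,true⟩,⟨2,3,true⟩,⟨3,4,true⟩,⟨4,5,true⟩],[],0⟩)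 (Tr.leaf ⟨[0x8000000000,0x20000000000,0x100000000000],[⟨0,1,false⟩,⟨0,2,true⟩,⟨1,2,false⟩],[],0⟩)) (Tr.br (Tr.leaf ⟨[0x8000000000,0x10000000000,0x20000000000],[⟨0,1,true⟩,⟨0,2,false⟩,⟨1,2,false⟩],[],0⟩) (Tr.leaf ⟨[0x800000000000],[],[],0⟩))))
 (Tr.br (Tr.br (Tr.br (Tr.leaf ⟨[64],[],[⟨6,[(0,true)]⟩],1⟩) (Tr.leaf ⟨[0x8000000000,0x20000000000,0x40000000000],[⟨0,1,true⟩,⟨0,2,true⟩,⟨1,2,false⟩],[],0⟩)) (Tr.br (Tr.leaf ⟨[0x8000000000,0x8000000000,0x20000000000],[⟨0,1,true⟩,⟨0,2,true⟩,⟨1,2,false⟩],[],0⟩) (Tr.leaf ⟨[0x20000000000,0x40000000000,0x100000000000],[⟨0,1,false⟩,⟨0,2,false⟩,⟨1,2,false⟩],[],0⟩))) (Tr.br (Tr.br (Tr.leaf ⟨[64],[],[],0⟩) (Tr.leaf ⟨[0x8000000000,0x40000000000,0x100000000000],[⟨0,1,true⟩,⟨0,2,false⟩,⟨1,2,false⟩],[],0⟩))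 (Tr.leaf ⟨[0x8000000000,0x10000000000,0x40000000000],[⟨0,1,false⟩,⟨0,2,true⟩,⟨1,2,false⟩],[],0⟩)))
)
)
 (Tr.br (Tr.br (Tr.br (Tr.br (Tr.br (Tr.leaf ⟨[1,1,1,1,1,1],[⟨0,1,true⟩,⟨0,2,true⟩,⟨0,3,true⟩,⟨0,4,false⟩,⟨0,5,false⟩,⟨1,2,false⟩,⟨1,3,false⟩,⟨1,4,false⟩,⟨1,5,false⟩,⟨2,3,false⟩,⟨2,4,false⟩,⟨2,5,false⟩,⟨3,4,false⟩,⟨3,5,false⟩,⟨4,5,true⟩],[],0⟩) (Tr.leaf ⟨[0x8000000000,0x10000000000,0x100000000000],[⟨0,1,true⟩,⟨0,2,false⟩,⟨1,2,false⟩],[],0⟩)) (Tr.br (Tr.leaf ⟨[0x40000000,0x40000000],[],[],0⟩) (Tr.leaf ⟨[0x8000000000,0x80000000000,0x100000000000],[⟨0,1,false⟩,⟨0,2,true⟩,⟨1,2,false⟩],[],0⟩))) (Tr.br (Tr.br (Tr.leaf ⟨[64,64,64,64],[⟨0,3,true⟩,⟨0,1,true⟩,⟨1,2,true⟩,⟨2,3,true⟩],[],0⟩) (Tr.leaf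 ⟨[0x8000000000,0x20000000000,0x100000000000],[⟨0,1,true⟩,⟨0,2,false⟩,⟨1,2,false⟩],[],0⟩)) (Tr.br (Tr.leaf ⟨[0x8000000000,0x8000000000,0x100000000000],[⟨0,1,true⟩,⟨0,2,true⟩,⟨1,2,false⟩],[],0⟩) (Tr.leaf ⟨[0x400000000000],[],[],0⟩))))
 (Tr.br (Tr.br (Tr.br (Tr.leaf ⟨[],[],[⟨6,[]⟩],0⟩) (Tr.leaf ⟨[0x8000000000,0x20000000000,0x40000000000],[⟨0,1,false⟩,⟨0,2,true⟩,⟨1,2,false⟩],[],0⟩)) (Tr.br (Tr.leaf ⟨[0x8000000000,0x8000000000,0x10000000000],[⟨0,1,true⟩,⟨0,2,true⟩,⟨1,2,false⟩],[],0⟩) (Tr.leaf ⟨[0x10000000000,0x40000000000,0x100000000000],[⟨0,1,false⟩,⟨0,2,false⟩,⟨1,2,false⟩],[],0⟩))) (Tr.br (Tr.br (Tr.leaf ⟨[64,64,64,64,64,64,64],[⟨0,1,true⟩,⟨1,2,true⟩,⟨2,3,true⟩,⟨3,4,true⟩,⟨4,5,true⟩,⟨5,6,true⟩,⟨0,6,true⟩],[],0⟩)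 (Tr.leaf ⟨[0x8000000000,0x40000000000,0x80000000000],[⟨0,1,true⟩,⟨0,2,true⟩,⟨1,2,false⟩],[],0⟩)) (Tr.leaf ⟨[0x8000000000,0x10000000000,0x40000000000],[⟨0,1,true⟩,⟨0,2,false⟩,⟨1,2,false⟩],[],0⟩)))
)
 (Tr.br (Tr.br (Tr.br (Tr.br (Tr.leaf ⟨[16,16],[⟨0,1,true⟩],[],0⟩) (Tr.leaf ⟨[0x8000000000,0x10000000000,0x100000000000],[⟨0,1,true⟩,⟨0,2,true⟩,⟨1,2,false⟩],[],0⟩)) (Tr.br (Tr.leaf ⟨[0x200000000,0x200000000],[],[],0⟩) (Tr.leaf ⟨[0x10000000000,0x20000000000,0x80000000000],[⟨0,1,false⟩,⟨0,2,false⟩,⟨1,2,false⟩],[],0⟩))) (Tr.br (Tr.br (Tr.leaf ⟨[64,64,64,64,64,64,64,64],[⟨0,7,true⟩,⟨0,1,true⟩,⟨1,2,true⟩,⟨2,3,true⟩,⟨3,4,true⟩,⟨4,5,true⟩,⟨5,6,true⟩,⟨6,7,true⟩],[],0⟩) (Tr.leaf ⟨[0x8000000000,0x40000000000,0x80000000000],[⟨0,1,true⟩,⟨0,2,false⟩,⟨1,2,false⟩],[],0⟩))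 (Tr.br (Tr.leaf ⟨[0x8000000000,0x10000000000,0x20000000000],[⟨0,1,false⟩,⟨0,2,true⟩,⟨1,2,false⟩],[],0⟩) (Tr.leaf ⟨[0x1000000000000],[],[],0⟩))))
 (Tr.br (Tr.br (Tr.br (Tr.leaf ⟨[128,64,64],[⟨0,1,true⟩,⟨0,2,true⟩],[⟨6,[(1,true),(2,true)]⟩],0⟩) (Tr.leaf ⟨[0x8000000000,0x20000000000,0x80000000000],[⟨0,1,true⟩,⟨0,2,false⟩,⟨1,2,false⟩],[],0⟩)) (Tr.br (Tr.leaf ⟨[0x8000000000,0x8000000000,0x40000000000],[⟨0,1,true⟩,⟨0,2,true⟩,⟨1,2,false⟩],[],0⟩) (Tr.leaf ⟨[0x20000000000,0x80000000000,0x100000000000],[⟨0,1,false⟩,⟨0,2,false⟩,⟨1,2,false⟩],[],0⟩))) (Tr.br (Tr.br (Tr.leaf ⟨[4096],[],[],0⟩) (Tr.leaf ⟨[0x8000000000,0x40000000000,0x100000000000],[⟨0,1,false⟩,⟨0,2,true⟩,⟨1,2,false⟩],[],0⟩)) (Tr.leaf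 ⟨[0x8000000000,0x10000000000,0x80000000000],[⟨0,1,true⟩,⟨0,2,false⟩,⟨1,2,false⟩],[],0⟩)))
)
)
)

noncomputable def b_sc : Tr Sc := (Tr.leaf ⟨[1],[0]⟩)
noncomputable def b_T : Tab := ⟨50,b_ty,b_ev,b_ax,b_sc⟩
def b_S0 : St := ⟨0,0,0,0,0⟩
def b_G0 : Ctx := ⟨4,0,3,1,0,b_S0,none⟩
def b_G1 : Ctx := ⟨4,0,7,1,0,b_S0,none⟩
def b_S1 : St := ⟨5,0x3000000000000c000000000003000000000000c000000000003,0x9000000000000000000000000000000140000000000000000000000000000000a0000000000000000000000000000000500000000000000000000000000000012,0x60000000000000000000000000000000300000000000000000000000000000011000000000000000000000000000000180000000000000000000000000000000c,31⟩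
def b_G2 : Ctx := ⟨4,0,3,1,0,b_S1,none⟩
def b_G3 : Ctx := ⟨6,1,31,1,0,b_S0,none⟩
def b_G4 : Ctx := ⟨8,2,4071,1,0,b_S0,none⟩
def b_G5 : Ctx := ⟨8,2,8167,1,0,b_S0,none⟩
def b_S2 : St := ⟨7,0x43000000000010c000000000043000000000010c000000000043000000000010c000000000043,0x210000000000000000000000000000005000000000000000000000000000000028000000000000000000000000000000140000000000000000000000000000000a0000000000000000000000000000000500000000000000000000000000000042,0x1e0000000000000000000000000000000f000000000000000000000000000000470000000000000000000000000000006300000000000000000000000000000071000000000000000000000000000000780000000000000000000000000000003c,127⟩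
def b_G6 : Ctx := ⟨8,2,4071,1,0,b_S2,none⟩
def b_G7 : Ctx := ⟨8,2,16359,1,0,b_S0,none⟩
def b_G8 : Ctx := ⟨8,2,32743,1,0,b_S0,none⟩
def b_S3 : St := ⟨1,67,0,0,1⟩
def b_G9 : Ctx := ⟨8,2,16359,1,0,b_S3,none⟩
def b_G10 : Ctx := ⟨8,2,32743,1,192,b_S0,none⟩
def b_G11 : Ctx := ⟨9,6,16359,1,0,b_S3,none⟩
def b_G12 : Ctx := ⟨11,14,16359,1,0,b_S3,none⟩
def b_G13 : Ctx := ⟨12,30,16359,1,0,b_S3,none⟩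
def b_G14 : Ctx := ⟨12,30,16359,1,2048,b_S3,none⟩
def b_G15 : Ctx := ⟨13,30,49127,1,2048,b_S3,none⟩
def b_G16 : Ctx := ⟨13,30,49127,1,6144,b_S3,none⟩
def b_G17 : Ctx := ⟨14,34,4071,1,0,b_S2,none⟩
def b_G18 : Ctx := ⟨15,98,4071,1,0,b_S2,none⟩
def b_G19 : Ctx := ⟨16,226,4071,1,0,b_S2,none⟩
def b_G20 : Ctx := ⟨16,226,4071,1,49152,b_S2,none⟩
def b_G21 : Ctx := ⟨17,256,3,1,0,b_S1,none⟩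
def b_G22 : Ctx := ⟨28,768,3,1,0,b_S1,none⟩
def b_G23 : Ctx := ⟨39,768,0x1f0003,1,0,b_S1,none⟩
def b_G24 : Ctx := ⟨45,768,0xffffffffff0003,1,0,b_S1,none⟩
def b_G25 : Ctx := ⟨50,768,0x1fffffffffff0003,1,0,b_S1,none⟩
def b_G26 : Ctx := ⟨50,768,0x1fffffffffff0003,1,0x3e00000000000,b_S1,none⟩
def b_h16 : List HP := [⟨[0],[],(HT.leaf 3)⟩]
def b_h28 : List HP := [⟨[0,1],[],(HT.leaf 3)⟩,⟨[0,2],[],(HT.leaf 3)⟩,⟨[0,3],[],(HT.leaf 3)⟩,⟨[0,5],[],(HT.leaf 3)⟩,⟨[0,8],[],(HT.leaf 3)⟩,⟨[1,1],[],(HT.leaf 2)⟩,⟨[1,2],[],(HT.leaf 3)⟩,⟨[1,3],[],(HT.leaf 3)⟩,⟨[1,4],[],(HT.leaf 3)⟩,⟨[1,5],[],(HT.leaf 3)⟩,⟨[1,6],[],(HT.leaf 3)⟩,⟨[1,7],[],(HT.leaf 3)⟩,⟨[1,8],[],(HT.leaf 3)⟩,⟨[1,9],[],(HT.leaf 3)⟩,⟨[1,10],[],(HT.leaf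 3)⟩,⟨[2,2],[],(HT.leaf 2)⟩,⟨[2,3],[],(HT.leaf 3)⟩,⟨[2,4],[],(HT.leaf 3)⟩,⟨[2,5],[],(HT.leaf 3)⟩,⟨[2,6],[],(HT.leaf 3)⟩,⟨[2,7],[],(HT.leaf 3)⟩,⟨[2,8],[],(HT.leaf 3)⟩,⟨[2,9],[],(HT.leaf 3)⟩,⟨[2,10],[],(HT.leaf 3)⟩,⟨[3,3],[],(HT.leaf 2)⟩,⟨[3,4],[],(HT.leaf 3)⟩,⟨[3,5],[],(HT.leaf 3)⟩,⟨[3,6],[],(HT.leaf 3)⟩,⟨[3,7],[],(HT.leaf 3)⟩,⟨[3,8],[],(HT.leaf 3)⟩,⟨[3,9],[],(HT.leaf 3)⟩,⟨[3,10],[],(HT.leaf 3)⟩,⟨[4,5],[],(HT.leaf 3)⟩,⟨[4,8],[],(HT.leaf 3)⟩,⟨[5,5],[],(HT.leaf 2)⟩,⟨[5,6],[],(HT.leaf 3)⟩,⟨[5,7],[],(HT.leaf 3)⟩,⟨[5,8],[],(HT.leaf 3)⟩,⟨[5,9],[],(HT.leaf 3)⟩,⟨[5,10],[],(HT.leaf 3)⟩,⟨[6,8],[],(HT.leaf 3)⟩,⟨[7,8],[],(HT.leaf 3)⟩,⟨[8,8],[],(HT.leaf 2)⟩,⟨[8,9],[],(HT.leaf 3)⟩,⟨[8,10],[],(HT.leaf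 3)⟩]
def b_h29 : List HP := [⟨[0,0,1],[⟨0,1,true⟩,⟨0,2,true⟩,⟨1,2,false⟩],(HT.leaf 3)⟩,⟨[0,0,2],[⟨0,1,true⟩,⟨0,2,true⟩,⟨1,2,false⟩],(HT.leaf 3)⟩,⟨[0,0,3],[⟨0,1,true⟩,⟨0,2,true⟩,⟨1,2,false⟩],(HT.leaf 3)⟩,⟨[0,0,4],[⟨0,1,true⟩,⟨0,2,true⟩,⟨1,2,false⟩],(HT.leaf 3)⟩,⟨[0,0,5],[⟨0,1,true⟩,⟨0,2,true⟩,⟨1,2,false⟩],(HT.leaf 3)⟩,⟨[0,1,2],[⟨0,1,true⟩,⟨0,2,false⟩,⟨1,2,false⟩],(HT.leaf 4)⟩,⟨[0,1,2],[⟨0,1,false⟩,⟨0,2,true⟩,⟨1,2,false⟩],(HT.leaf 4)⟩,⟨[0,1,2],[⟨0,1,true⟩,⟨0,2,true⟩,⟨1,2,false⟩],(HT.leaf 4)⟩,⟨[0,1,3],[⟨0,1,true⟩,⟨0,2,false⟩,⟨1,2,false⟩],(HT.leaf 4)⟩,⟨[0,1,3],[⟨0,1,false⟩,⟨0,2,true⟩,⟨1,2,false⟩],(HT.leaf 4)⟩,⟨[0,1,4],[⟨0,1,true⟩,⟨0,2,false⟩,⟨1,2,false⟩],(HT.leaf 4)⟩,⟨[0,1,4],[⟨0,1,false⟩,⟨0,2,true⟩,⟨1,2,false⟩],(HT.leaf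 4)⟩,⟨[0,1,5],[⟨0,1,true⟩,⟨0,2,false⟩,⟨1,2,false⟩],(HT.leaf 4)⟩,⟨[0,1,5],[⟨0,1,false⟩,⟨0,2,true⟩,⟨1,2,false⟩],(HT.leaf 4)⟩,⟨[0,1,5],[⟨0,1,true⟩,⟨0,2,true⟩,⟨1,2,false⟩],(HT.leaf 4)⟩,⟨[0,2,3],[⟨0,1,true⟩,⟨0,2,false⟩,⟨1,2,false⟩],(HT.leaf 4)⟩,⟨[0,2,3],[⟨0,1,false⟩,⟨0,2,true⟩,⟨1,2,false⟩],(HT.leaf 4)⟩,⟨[0,2,3],[⟨0,1,true⟩,⟨0,2,true⟩,⟨1,2,false⟩],(HT.leaf 4)⟩,⟨[0,2,4],[⟨0,1,true⟩,⟨0,2,false⟩,⟨1,2,false⟩],(HT.leaf 4)⟩,⟨[0,2,4],[⟨0,1,false⟩,⟨0,2,true⟩,⟨1,2,false⟩],(HT.leaf 4)⟩,⟨[0,2,5],[⟨0,1,true⟩,⟨0,2,false⟩,⟨1,2,false⟩],(HT.leaf 4)⟩,⟨[0,2,5],[⟨0,1,false⟩,⟨0,2,true⟩,⟨1,2,false⟩],(HT.leaf 4)⟩,⟨[0,3,4],[⟨0,1,true⟩,⟨0,2,false⟩,⟨1,2,false⟩],(HT.leaf 4)⟩,⟨[0,3,4],[⟨0,1,false⟩,⟨0,2,true⟩,⟨1,2,false⟩],(HT.leaf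 4)⟩,⟨[0,3,4],[⟨0,1,true⟩,⟨0,2,true⟩,⟨1,2,false⟩],(HT.leaf 4)⟩,⟨[0,3,5],[⟨0,1,true⟩,⟨0,2,false⟩,⟨1,2,false⟩],(HT.leaf 4)⟩,⟨[0,3,5],[⟨0,1,false⟩,⟨0,2,true⟩,⟨1,2,false⟩],(HT.leaf 4)⟩,⟨[0,4,5],[⟨0,1,true⟩,⟨0,2,false⟩,⟨1,2,false⟩],(HT.leaf 4)⟩,⟨[0,4,5],[⟨0,1,false⟩,⟨0,2,true⟩,⟨1,2,false⟩],(HT.leaf 4)⟩,⟨[0,4,5],[⟨0,1,true⟩,⟨0,2,true⟩,⟨1,2,false⟩],(HT.leaf 4)⟩,⟨[1,2,4],[⟨0,1,false⟩,⟨0,2,false⟩,⟨1,2,false⟩],(HT.leaf 4)⟩,⟨[1,2,4],[⟨0,1,false⟩,⟨0,2,true⟩,⟨1,2,false⟩],(HT.leaf 4)⟩,⟨[1,2,4],[⟨0,1,false⟩,⟨0,2,false⟩,⟨1,2,true⟩],(HT.leaf 4)⟩,⟨[1,3,4],[⟨0,1,false⟩,⟨0,2,false⟩,⟨1,2,false⟩],(HT.leaf 4)⟩,⟨[1,3,4],[⟨0,1,true⟩,⟨0,2,false⟩,⟨1,2,false⟩],(HT.leaf 4)⟩,⟨[1,3,4],[⟨0,1,false⟩,⟨0,2,true⟩,⟨1,2,false⟩],(HT.leaf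 4)⟩,⟨[1,3,5],[⟨0,1,false⟩,⟨0,2,false⟩,⟨1,2,false⟩],(HT.leaf 4)⟩,⟨[1,3,5],[⟨0,1,true⟩,⟨0,2,false⟩,⟨1,2,false⟩],(HT.leaf 4)⟩,⟨[1,3,5],[⟨0,1,false⟩,⟨0,2,false⟩,⟨1,2,true⟩],(HT.leaf 4)⟩,⟨[2,3,5],[⟨0,1,false⟩,⟨0,2,false⟩,⟨1,2,false⟩],(HT.leaf 4)⟩,⟨[2,3,5],[⟨0,1,false⟩,⟨0,2,true⟩,⟨1,2,false⟩],(HT.leaf 4)⟩,⟨[2,3,5],[⟨0,1,false⟩,⟨0,2,false⟩,⟨1,2,true⟩],(HT.leaf 4)⟩,⟨[2,4,5],[⟨0,1,false⟩,⟨0,2,false⟩,⟨1,2,false⟩],(HT.leaf 4)⟩,⟨[2,4,5],[⟨0,1,true⟩,⟨0,2,false⟩,⟨1,2,false⟩],(HT.leaf 4)⟩,⟨[2,4,5],[⟨0,1,false⟩,⟨0,2,true⟩,⟨1,2,false⟩],(HT.leaf 4)⟩]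
def b_h30 : List HP := [⟨[0],[],(HT.leaf 2)⟩,⟨[1],[],(HT.leaf 2)⟩,⟨[2],[],(HT.leaf 2)⟩,⟨[3],[],(HT.leaf 2)⟩,⟨[4],[],(HT.leaf 2)⟩]

end Pool.Agent.Lib.MP_849b2e_co
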