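import Pool.Agent.Lib.MP_849b2e_co.Fast
import Pool.Agent.Lib.MP_849b2e_co.Tb
import Pool.Agent.Lib.MP_849b2e_co.RApply
import Pool.Agent.Lib.MP_849b2e_co.Tb2
import Pool.Agent.Lib.MP_849b2e_co.TbP

set_option maxRecDepth 100000
set_option linter.all false
namespace Pool.Agent.Lib.MP_849b2e_co

noncomputable def b_o0c : Pq := Pq.nil
theorem b_o0 : AllRef b_T (pureCtx 0 2) (blockObl [0] [0] [1] [1]) :=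
  chkPq_sound b_o0c _ (by decide +kernel)
noncomputable def b_o1c : Pq := (Pq.cons (Pq.L [] 7 (Pf.C 0 32896))
 Pq.nil)
theorem b_o1 : AllRef b_T b_G1 [triP 1] :=
  chkPq_sound b_o1c _ (by decide +kernel)
noncomputable def b_o2c : Pq := (Pq.cons (Pq.L [] 32767 (Pf.C 1 0x2840608080))
 (Pq.cons (Pq.L [] 1 (Pf.C 3 128))
 (Pq.cons (Pq.L [] 1 (Pf.C 4 128))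
 Pq.nil)))
theorem b_o2 : AllRef b_T b_G3 (applyObl bP_T 3 [4,5] [1,2] []) :=
  chkPq_sound b_o2c _ (by decide +kernel)
noncomputable def b_o3c : Pq := (Pq.cons (Pq.L [] 127 (Pf.B 6 4 (Pf.B 6 3 (Pf.B 6 2 (Pf.B 6 1 (Pf.B 5 3 (Pf.B 5 2 (Pf.B 5 1 (Pf.B 5 0 (Pf.B 4 2 (Pf.B 4 1 (Pf.B 4 0 (Pf.B 3 1 (Pf.B 3 0 (Pf.B 2 0 (Pf.C 12 0xc2050c00082) (Pf.C 0 16386)) (Pf.C 8 0x808003)) (Pf.C 0 32899)) (Pf.C 8 0xa0c004)) (Pf.C 8 0xa0c084)) (Pf.C 0 49412)) (Pf.C 0 98309)) (Pf.C 8 0xc10085)) (Pf.C 8 0xc10105)) (Pf.C 0 65925)) (Pf.C 0 134)) (Pf.C 8 0xa00106)) (Pf.C 8 0xa00186)) (Pf.C 0 82438)))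
 Pq.nil)
theorem b_o3 : AllRef b_T b_G5 [⟨[[6],[6],[6],[6],[6],[6],[6]],[⟨0,1,true⟩,⟨1,2,true⟩,⟨2,3,true⟩,⟨3,4,true⟩,⟨4,5,true⟩,⟨5,6,true⟩,⟨0,6,true⟩],[],[]⟩] :=
  chkPq_sound b_o3c _ (by decide +kernel)
noncomputable def b_o4c : Pq := (Pq.cons (Pq.L [] 0 (Pf.C 14 0))
 (Pq.cons (Pq.L [] 0 (Pf.W 5 0 [] [] (Pf.cons (Pf.C 14 1) Pf.nil)))
 Pq.nil))
theorem b_o4 : AllRef b_T b_G8 (List.map pat1 [6,7]) :=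
  chkPq_sound b_o4c _ (by decide +kernel)
noncomputable def b_o5c : Pq := Pq.nil
theorem b_o5 : AllRef b_T b_G9 (ptObl 6 PT.kid []) :=
  chkPq_sound b_o5c _ (by decide +kernel)
noncomputable def b_o6c : Pq := Pq.nil
theorem b_o6 : AllRef b_T b_G11 (ptObl 8 (PT.br 0 PT.kid PT.kid) []) :=
  chkPq_sound b_o6c _ (by decide +kernel)
noncomputable def b_o7c : Pq := (Pq.cons (Pq.L [0] 0 (Pf.W 6 0 [] [1] (Pf.cons (Pf.B 2 1 (Pf.W 6 0 [2] [1] (Pf.cons (Pf.B 3 2 (Pf.B 3 1 (Pf.W 6 2 [0] [1,3] (Pf.cons (Pf.B 4 3 (Pf.B 4 0 (Pf.B 4 1 (Pf.W 6 3 [0] [1,2,4] (Pf.cons (Pf.B 5 2 (Pf.B 5 0 (Pf.B 5 4 (Pf.B 5 1 (Pf.W 6 4 [2] [0,1,3,5] (Pf.cons (Pf.B 6 5 (Pf.B 6 3 (Pf.B 6 2 (Pf.B 6 0 (Pf.B 6 1 (Pf.W 6 5 [3] [0,1,2,4,6]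 (Pf.cons (Pf.B 7 6 (Pf.B 7 4 (Pf.B 7 3 (Pf.B 7 2 (Pf.B 7 0 (Pf.B 7 1 (Pf.W 6 6 [4] [0,1,2,3,5,7] (Pf.cons (Pf.B 8 7 (Pf.B 8 3 (Pf.B 8 2 (Pf.B 8 0 (Pf.B 8 1 (Pf.C 1 0x3080608080) (Pf.W 6 7 [5] [0,1,2,3,4,8] (Pf.cons (Pf.B 9 3 (Pf.B 9 2 (Pf.B 9 1 (Pf.B 9 0 (Pf.C 1 0x3890608080) (Pf.C 8 0x608480)) (Pf.C 8 0x1000481)) (Pf.C 8 0x800482)) (Pf.C 8 0xa00483)) Pf.nil))) (Pf.C 8 0x608400)) (Pf.C 8 0x800402)) (Pf.C 8 0xa00403)) (Pf.C 11 0xc101000614388)) Pf.nil)) (Pf.C 2 0x50600087)) (Pf.C 8 0x608380)) (Pf.C 8 0x800382)) (Pf.C 0 82311)) (Pf.C 8 0xc08384)) (Pf.C 13 0x141800410307)) Pf.nil)) (Pf.C 2 0x40400086)) (Pf.C 8 0x608300)) (Pf.C 0 65798)) (Pf.C 8 0xa00303)) (Pf.C 10 0x202000c286)) Pf.nil)) (Pf.W 6 5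 [3] [0,1,2,4] (Pf.cons (Pf.B 6 4 (Pf.B 6 3 (Pf.B 6 2 (Pf.B 6 1 (Pf.C 1 0x2020604305) (Pf.C 0 82054)) (Pf.C 8 0x800302)) (Pf.C 0 82310)) (Pf.C 10 0x2830008206)) Pf.nil))) (Pf.C 2 0x30008205)) (Pf.C 0 49157)) (Pf.C 8 0x800282)) Pf.nil)) (Pf.W 6 3 [0] [1,2,4] (Pf.cons (Pf.B 5 2 (Pf.B 5 1 (Pf.B 5 0 (Pf.B 5 4 (Pf.W 6 4 [2] [0,1,3,5] (Pf.cons (Pf.B 6 5 (Pf.B 6 3 (Pf.B 6 2 (Pf.B 6 1 (Pf.C 1 0x2830404304) (Pf.C 0 65670)) (Pf.C 0 65798)) (Pf.C 8 0xa00303)) (Pf.C 10 0x202000c286)) Pf.nil)) (Pf.C 2 0x30004205)) (Pf.C 0 49157)) (Pf.C 8 0x800281)) (Pf.C 8 0x800282)) Pf.nil))) (Pf.C 0 32772)) (Pf.C 9 0x400184)) Pf.nil)) (Pf.C 0 131)) (Pf.C 0 259)) Pf.nil)) (Pf.C 0 130)) Pf.nil)))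
 Pq.nil)
theorem b_o7 : AllRef b_T b_G12 (ptObl 7 (PT.br 0 PT.kid PT.ref) []) :=
  chkPq_sound b_o7c _ (by decide +kernel)
noncomputable def b_o8c : Pq := (Pq.cons (Pq.L [] 0 (Pf.X 0 1))
 (Pq.cons (Pq.L [0] 1 (Pf.W 6 0 [] [1,2] (Pf.cons (Pf.B 3 2 (Pf.B 3 1 (Pf.T 3 2 (Pf.cons (Pf.T 3 3 (Pf.cons (Pf.W 6 0 [3] [1,2] (Pf.cons (Pf.B 4 3 (Pf.B 4 2 (Pf.B 4 1 (Pf.T 4 2 (Pf.cons (Pf.T 4 3 (Pf.cons (Pf.W 6 1 [] [0,2,3,4] (Pf.cons (Pf.B 5 2 (Pf.B 5 0 (Pf.B 5 4 (Pf.B 5 3 (Pf.T 5 2 (Pf.cons (Pf.T 5 3 (Pf.cons (Pf.W 6 1 [5] [0,2,3,4] (Pf.cons (Pf.B 6 5 (Pf.B 6 2 (Pf.B 6 0 (Pf.B 6 4 (Pf.C 1 0x40a08301) (Pf.B 6 3 (Pf.C 1 0x30a08301) (Pf.C 8 0x804186))) (Pf.C 8 0x80c300)) (Pf.C 0 16646)) (Pf.C 0 17030)) Pf.nil))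 Pf.nil)) Pf.nil)) (Pf.T 5 2 (Pf.cons (Pf.T 5 3 (Pf.cons (Pf.W 6 1 [5] [0,2,3,4] (Pf.cons (Pf.B 6 5 (Pf.B 6 4 (Pf.B 6 2 (Pf.B 6 0 (Pf.C 1 0x2000a08301) (Pf.C 8 0x80c300)) (Pf.C 0 16646)) (Pf.C 10 0x850600206)) (Pf.C 0 17030)) Pf.nil)) Pf.nil)) Pf.nil))) (Pf.B 5 3 (Pf.T 5 2 (Pf.cons (Pf.T 5 3 (Pf.cons (Pf.W 6 1 [5] [0,2,3,4] (Pf.cons (Pf.B 6 5 (Pf.B 6 3 (Pf.B 6 2 (Pf.B 6 0 (Pf.C 1 0x1800a08301) (Pf.C 8 0x80c300)) (Pf.C 0 16646)) (Pf.C 10 0x850800186)) (Pf.C 0 17030)) Pf.nil)) Pf.nil)) Pf.nil)) (Pf.C 8 0x804185))) (Pf.C 8 0x80c280)) (Pf.C 0 16645)) Pf.nil)) Pf.nil)) Pf.nil)) (Pf.T 4 2 (Pf.cons (Pf.T 4 3 (Pf.cons (Pf.W 6 1 [4] [0,2,3] (Pf.cons (Pf.B 5 4 (Pf.B 5 2 (Pf.B 5 0 (Pf.B 5 3 (Pf.T 5 2 (Pf.cons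 (Pf.T 5 3 (Pf.cons (Pf.W 6 3 [0] [1,2,4,5] (Pf.cons (Pf.B 6 5 (Pf.B 6 4 (Pf.B 6 1 (Pf.B 6 2 (Pf.C 1 0x1860a10101) (Pf.B 6 0 (Pf.T 6 2 (Pf.cons (Pf.T 6 3 (Pf.cons (Pf.W 7 98434 [] [4,5] (Pf.cons (Pf.C 8 0xa10381) Pf.nil)) Pf.nil)) Pf.nil)) (Pf.C 0 49158))) (Pf.C 8 0xa10301)) (Pf.C 8 0x200304)) (Pf.C 10 0x1800804286)) Pf.nil)) Pf.nil)) Pf.nil)) (Pf.C 2 0x10800185)) (Pf.C 8 0x80c280)) (Pf.C 0 16645)) (Pf.C 0 16901)) Pf.nil)) Pf.nil)) Pf.nil))) (Pf.B 4 1 (Pf.T 4 2 (Pf.cons (Pf.T 4 3 (Pf.cons (Pf.W 6 1 [] [0,2,3,4] (Pf.cons (Pf.B 5 2 (Pf.B 5 0 (Pf.B 5 4 (Pf.B 5 3 (Pf.T 5 2 (Pf.cons (Pf.T 5 3 (Pf.cons (Pf.W 7 65666 [] [0,3,5] (Pf.cons (Pf.B 6 5 (Pf.B 6 3 (Pf.B 6 2 (Pf.B 6 0 (Pf.C 1 0x1800a08301) (Pf.C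 0 65542)) (Pf.C 0 16646)) (Pf.C 8 0x804186)) (Pf.C 0 17030)) Pf.nil)) Pf.nil)) Pf.nil)) (Pf.T 5 2 (Pf.cons (Pf.T 5 3 (Pf.cons (Pf.W 7 65666 [] [0,3,5] (Pf.cons (Pf.C 10 0x2000614086) Pf.nil)) Pf.nil)) Pf.nil))) (Pf.B 5 3 (Pf.T 5 2 (Pf.cons (Pf.T 5 3 (Pf.cons (Pf.W 6 1 [5] [0,2,3,4] (Pf.cons (Pf.B 6 5 (Pf.B 6 3 (Pf.B 6 2 (Pf.B 6 0 (Pf.C 1 0x1800a08301) (Pf.C 8 0x80c300)) (Pf.C 0 16646)) (Pf.C 10 0x850800186)) (Pf.C 0 17030)) Pf.nil)) Pf.nil)) Pf.nil)) (Pf.C 8 0x804185))) (Pf.C 8 0x80c280)) (Pf.C 0 16645)) Pf.nil)) Pf.nil)) Pf.nil)) (Pf.C 0 32900))) (Pf.C 0 388)) Pf.nil)) Pf.nil)) Pf.nil)) (Pf.T 3 2 (Pf.cons (Pf.T 3 3 (Pf.cons (Pf.W 6 0 [3] [1,2] (Pf.cons (Pf.B 4 3 (Pf.B 4 1 (Pf.B 4 2 (Pf.T 4 2 (Pf.cons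 (Pf.T 4 3 (Pf.cons (Pf.W 6 1 [3] [0,2,4] (Pf.cons (Pf.B 5 3 (Pf.B 5 2 (Pf.B 5 0 (Pf.B 5 4 (Pf.T 5 2 (Pf.cons (Pf.T 5 3 (Pf.cons (Pf.W 6 4 [0] [1,2,3,5] (Pf.cons (Pf.B 6 5 (Pf.B 6 3 (Pf.B 6 1 (Pf.B 6 2 (Pf.C 1 0x2060a0c101) (Pf.B 6 0 (Pf.T 6 2 (Pf.cons (Pf.T 6 3 (Pf.cons (Pf.W 7 98434 [] [3,5] (Pf.cons (Pf.C 8 0xa0c381) Pf.nil)) Pf.nil)) Pf.nil)) (Pf.C 0 65542))) (Pf.C 8 0xa0c301)) (Pf.C 8 0x200303)) (Pf.C 10 0x2000604286)) Pf.nil)) Pf.nil)) Pf.nil)) (Pf.C 2 0x10600205)) (Pf.C 8 0x80c280)) (Pf.C 0 16645)) (Pf.C 0 16773)) Pf.nil)) Pf.nil)) Pf.nil)) (Pf.C 2 0x604104)) (Pf.C 9 49284)) (Pf.C 0 388)) Pf.nil)) Pf.nil)) Pf.nil))) (Pf.B 3 1 (Pf.T 3 2 (Pf.cons (Pf.T 3 3 (Pf.cons (Pf.W 6 0 [3] [1,2] (Pf.cons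 (Pf.B 4 3 (Pf.B 4 2 (Pf.B 4 1 (Pf.T 4 2 (Pf.cons (Pf.T 4 3 (Pf.cons (Pf.W 6 1 [] [0,2,3,4] (Pf.cons (Pf.B 5 2 (Pf.B 5 0 (Pf.B 5 4 (Pf.B 5 3 (Pf.T 5 2 (Pf.cons (Pf.T 5 3 (Pf.cons (Pf.W 7 49282 [] [0,4,5] (Pf.cons (Pf.B 6 5 (Pf.B 6 4 (Pf.B 6 2 (Pf.B 6 0 (Pf.C 1 0x2000a08301) (Pf.C 0 49158)) (Pf.C 0 16646)) (Pf.C 8 0x604206)) (Pf.C 0 17030)) Pf.nil)) Pf.nil)) Pf.nil)) (Pf.T 5 2 (Pf.cons (Pf.T 5 3 (Pf.cons (Pf.W 6 1 [5] [0,2,3,4] (Pf.cons (Pf.B 6 5 (Pf.B 6 4 (Pf.B 6 2 (Pf.B 6 0 (Pf.C 1 0x2000a08301) (Pf.C 8 0x80c300)) (Pf.C 0 16646)) (Pf.C 10 0x850600206)) (Pf.C 0 17030)) Pf.nil)) Pf.nil)) Pf.nil))) (Pf.B 5 3 (Pf.T 5 2 (Pf.cons (Pf.T 5 3 (Pf.cons (Pf.W 7 49282 [] [0,4,5] (Pf.cons (Pf.C 10 0x1800814086)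 Pf.nil)) Pf.nil)) Pf.nil)) (Pf.C 8 0x804185))) (Pf.C 8 0x80c280)) (Pf.C 0 16645)) Pf.nil)) Pf.nil)) Pf.nil)) (Pf.C 2 0x608084)) (Pf.C 8 0x604202)) (Pf.C 0 388)) Pf.nil)) Pf.nil)) Pf.nil)) (Pf.C 0 32899))) Pf.nil)))
 (Pq.cons (Pq.L [0] 1 (Pf.W 6 0 [1] [2] (Pf.cons (Pf.B 3 1 (Pf.B 3 2 (Pf.T 3 2 (Pf.cons (Pf.T 3 3 (Pf.cons (Pf.W 6 1 [0] [2,3] (Pf.cons (Pf.B 4 3 (Pf.B 4 2 (Pf.B 4 0 (Pf.T 4 2 (Pf.cons (Pf.T 4 3 (Pf.cons (Pf.W 6 3 [0] [1,2,4] (Pf.cons (Pf.B 5 1 (Pf.B 5 0 (Pf.B 5 4 (Pf.B 5 2 (Pf.T 5 2 (Pf.cons (Pf.T 5 3 (Pf.cons (Pf.W 6 4 [1] [0,2,3,5] (Pf.cons (Pf.B 6 5 (Pf.B 6 0 (Pf.T 6 2 (Pf.cons (Pf.T 6 3 (Pf.cons (Pf.W 6 5 [3] [0,1,2,4,6] (Pf.cons (Pf.B 7 4 (Pf.B 7 1 (Pf.B 7 0 (Pf.B 7 2 (Pf.C 1 0x2870800101)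 (Pf.T 7 2 (Pf.cons (Pf.T 7 3 (Pf.cons (Pf.W 7 0x1c082 [] [0,4] (Pf.cons (Pf.C 8 0x800401) Pf.nil)) Pf.nil)) Pf.nil))) (Pf.C 8 0x604380)) (Pf.C 8 0x800381)) (Pf.C 8 0xc04384)) Pf.nil)) Pf.nil)) Pf.nil)) (Pf.C 8 0x604300)) (Pf.C 10 0x201000c286)) Pf.nil)) Pf.nil)) Pf.nil)) (Pf.C 2 0x30004105)) (Pf.C 2 0x30004205)) (Pf.C 0 49157)) (Pf.C 8 0x800281)) Pf.nil)) Pf.nil)) Pf.nil)) (Pf.C 0 16388)) (Pf.C 0 16644)) (Pf.C 9 0x200184)) Pf.nil)) Pf.nil)) Pf.nil)) (Pf.T 3 2 (Pf.cons (Pf.T 3 3 (Pf.cons (Pf.W 6 1 [0] [2,3] (Pf.cons (Pf.B 4 3 (Pf.B 4 2 (Pf.B 4 0 (Pf.T 4 2 (Pf.cons (Pf.T 4 3 (Pf.cons (Pf.W 6 3 [0] [1,2,4] (Pf.cons (Pf.B 5 2 (Pf.B 5 1 (Pf.B 5 4 (Pf.B 5 0 (Pf.T 5 2 (Pf.cons (Pf.T 5 3 (Pf.cons (Pf.W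 6 4 [1] [0,2,3,5] (Pf.cons (Pf.B 6 5 (Pf.B 6 3 (Pf.B 6 2 (Pf.B 6 0 (Pf.C 1 0x2060a08003) (Pf.C 8 0x604300)) (Pf.C 8 0x604302)) (Pf.C 8 0xa00303)) (Pf.C 10 0x201000c286)) Pf.nil)) Pf.nil)) Pf.nil)) (Pf.C 0 49157)) (Pf.C 2 0x30404205)) (Pf.C 8 0x800281)) (Pf.C 0 49413)) Pf.nil)) Pf.nil)) Pf.nil)) (Pf.C 0 16388)) (Pf.C 0 16644)) (Pf.C 9 0x200184)) Pf.nil)) Pf.nil)) Pf.nil))) (Pf.C 0 131)) Pf.nil)))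
 Pq.nil)))
theorem b_o8 : AllRef b_T b_G13 (closeObl (b_T.sc.get 0) false [9,10,11] [0,0,0] [0] [0] 3) :=
  chkPq_sound b_o8c _ (by decide +kernel)
noncomputable def b_o9c : Pq := (Pq.cons (Pq.L [0] 0 (Pf.C 8 0x608080))
 Pq.nil)
theorem b_o9 : AllRef b_T b_G14 (hitObl [10] b_h16) :=
  chkPq_sound b_o9c _ (by decide +kernel)
noncomputable def b_o10c : Pq := (Pq.cons (Pq.L [] 0 (Pf.C 15 1))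
 Pq.nil)
theorem b_o10 : AllRef b_T b_G15 (List.map pat1 [12]) :=
  chkPq_sound b_o10c _ (by decide +kernel)
noncomputable def b_o11c : Pq := (Pq.cons (Pq.L [] 7 (Pf.C 8 0x80c101))
 Pq.nil)
theorem b_o11 : AllRef b_T b_G16 (applyObl TD2 1 [9] [0] []) :=
  chkPq_sound b_o11c _ (by decide +kernel)
noncomputable def b_o12c : Pq := Pq.nil
theorem b_o12 : AllRef b_T b_G6 (ptObl 6 PT.kid []) :=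
  chkPq_sound b_o12c _ (by decide +kernel)
noncomputable def b_o13c : Pq := (Pq.cons (Pq.L [0,5,6] 0 (Pf.C 8 0xa00386))
 (Pq.cons (Pq.L [4,5,6] 0 (Pf.C 8 0xc10385))
 (Pq.cons (Pq.L [3,4,5] 0 (Pf.C 8 0xa0c384))
 (Pq.cons (Pq.L [2,3,4] 0 (Pf.C 8 0x808383))
 (Pq.cons (Pq.L [1,2,3] 0 (Pf.C 8 0x604382))
 (Pq.cons (Pq.L [0,1,2] 0 (Pf.C 8 0x400381))
 (Pq.cons (Pq.L [0,1,6] 0 (Pf.C 8 0xc04380))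
 Pq.nil)))))))
theorem b_o13 : AllRef b_T b_G17 (ptObl 13 (PT.br 0 (PT.br 1 (PT.br 2 (PT.br 3 (PT.br 4 (PT.br 5 (PT.br 6 PT.kid PT.ref) PT.ref) PT.ref) PT.ref) PT.ref) PT.ref) PT.ref) []) :=
  chkPq_sound b_o13c _ (by decide +kernel)
noncomputable def b_o14c : Pq := (Pq.cons (Pq.L [0,2,3,5,6] 0 (Pf.C 1 0x1820a00386))
 (Pq.cons (Pq.L [1,2,4,5,6] 0 (Pf.B 7 6 (Pf.C 1 0x1010818385) (Pf.C 0 82695)))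
 (Pq.cons (Pq.L [0,1,3,4,5] 0 (Pf.B 7 5 (Pf.C 1 0x800614384) (Pf.C 0 66183)))
 (Pq.cons (Pq.L [0,2,3,4,5,6] 0 (Pf.B 7 4 (Pf.B 7 6 (Pf.C 1 0x60808383) (Pf.B 7 5 (Pf.C 2 0x30814307) (Pf.C 0 98951))) (Pf.C 0 49671)))
 (Pq.cons (Pq.L [0,1,2,3,4,5,6] 0 (Pf.B 7 6 (Pf.B 7 3 (Pf.B 7 5 (Pf.C 1 0x3050604382) (Pf.B 7 4 (Pf.C 2 0x20610287) (Pf.C 0 82439))) (Pf.C 0 33159)) (Pf.C 2 0x20200307)))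
 (Pq.cons (Pq.L [0,1,2,3,4,5,6] 0 (Pf.B 7 2 (Pf.B 7 6 (Pf.B 7 5 (Pf.B 7 4 (Pf.C 1 0x2840400381) (Pf.B 7 3 (Pf.C 2 0x1040c207) (Pf.C 0 65927))) (Pf.C 2 0x10018287)) (Pf.B 7 5 (Pf.B 7 4 (Pf.C 1 0x2840400381) (Pf.C 8 0xc04207)) (Pf.C 0 98951))) (Pf.C 0 16647)))
 (Pq.cons (Pq.L [0,1,2,3,4,5,6] 0 (Pf.B 7 6 (Pf.B 7 1 (Pf.B 7 5 (Pf.B 7 4 (Pf.B 7 3 (Pf.C 1 0x2030c04380) (Pf.B 7 2 (Pf.C 2 0x208187) (Pf.C 0 49415))) (Pf.C 2 0xc14207)) (Pf.B 7 4 (Pf.B 7 3 (Pf.C 1 0x2030c04380) (Pf.C 8 0xa00187)) (Pf.C 0 82439))) (Pf.C 0 135)) (Pf.C 0 775)))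
 Pq.nil)))))))
theorem b_o14 : AllRef b_T b_G18 (ptObl 7 (PT.br 0 (PT.br 1 (PT.br 2 (PT.br 3 (PT.br 4 (PT.br 5 (PT.br 6 PT.kid PT.ref) PT.ref) PT.ref) PT.ref) PT.ref) PT.ref) PT.ref) []) :=
  chkPq_sound b_o14c _ (by decide +kernel)
noncomputable def b_o15c : Pq := (Pq.cons (Pq.L [] 0 (Pf.X 0 7))
 (Pq.cons (Pq.L [] 0 (Pf.X 1 7))
 (Pq.cons (Pq.L [] 0 (Pf.X 2 7))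
 (Pq.cons (Pq.L [] 0 (Pf.X 3 7))
 (Pq.cons (Pq.L [] 0 (Pf.X 4 7))
 (Pq.cons (Pq.L [] 0 (Pf.X 5 7))
 (Pq.cons (Pq.L [] 0 (Pf.X 6 7))
 (Pq.cons (Pq.L [] 0 (Pf.X 0 7))
 (Pq.cons (Pq.L [] 0 (Pf.X 1 7))
 (Pq.cons (Pq.L [] 0 (Pf.X 2 7))
 (Pq.cons (Pq.L [] 0 (Pf.X 3 7))
 (Pq.cons (Pq.L [] 0 (Pf.X 4 7))
 (Pq.cons (Pq.L [] 0 (Pf.X 5 7))
 (Pq.cons (Pq.L [] 0 (Pf.X 6 7))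
 Pq.nil))))))))))))))
theorem b_o15 : AllRef b_T b_G19 (closeObl (b_T.sc.get 0) false [14,15] [0,0] [0,1,2,3,4,5,6] [0,0,0,0,0,0,0] 0) :=
  chkPq_sound b_o15c _ (by decide +kernel)
noncomputable def b_o16c : Pq := Pq.nil
theorem b_o16 : AllRef b_T b_G2 (ptObl 1 PT.kid []) :=
  chkPq_sound b_o16c _ (by decide +kernel)
noncomputable def b_o17c : Pq := (Pq.cons (Pq.L [3,4] 0 (Pf.C 0 65925))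
 (Pq.cons (Pq.L [2,3] 0 (Pf.C 0 49413))
 (Pq.cons (Pq.L [3,4] 0 (Pf.C 0 65925))
 (Pq.cons (Pq.L [1,2] 0 (Pf.C 0 32901))
 (Pq.cons (Pq.L [0,4] 0 (Pf.C 0 65541))
 (Pq.cons (Pq.L [0,4] 0 (Pf.C 0 65541))
 (Pq.cons (Pq.L [0,4] 0 (Pf.C 0 65541))
 (Pq.cons (Pq.L [2,3] 0 (Pf.C 0 49413))
 (Pq.cons (Pq.L [0,1] 0 (Pf.C 0 16389))
 Pq.nil)))))))))
theorem b_o17 : AllRef b_T b_G21 (ptObl 16 (PT.br 0 (PT.br 1 (PT.br 2 (PT.br 3 (PT.br 4 PT.kid PT.kid) (PT.br 4 PT.kid PT.ref)) (PT.br 3 (PT.br 4 PT.kid PT.kid) PT.ref)) (PT.br 2 (PT.br 3 (PT.br 4 PT.kid PT.kid) (PT.br 4 PT.kid PT.ref)) PT.ref)) (PT.br 1 (PT.br 2 (PT.br 3 (PT.br 4 PT.kid PT.ref) (PT.br 4 PT.kid PT.ref)) (PT.br 3 (PT.br 4 PT.kid PT.ref) PT.ref)) PT.ref))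 []) :=
  chkPq_sound b_o17c _ (by decide +kernel)
noncomputable def b_o18c : Pq := (Pq.cons (Pq.L [1,2,4] 0 (Pf.B 10 8 (Pf.B 10 6 (Pf.B 8 6 (Pf.C 1 0x1011418404) (Pf.C 0 66312)) (Pf.C 0 66314)) (Pf.C 0 66570)))
 (Pq.cons (Pq.L [0,1,3] 0 (Pf.B 10 8 (Pf.B 10 6 (Pf.B 8 6 (Pf.C 1 0x801418403) (Pf.C 0 49928)) (Pf.C 0 49930)) (Pf.C 0 50186)))
 (Pq.cons (Pq.L [0,2,4] 0 (Pf.B 10 8 (Pf.B 10 6 (Pf.B 8 6 (Pf.C 1 0x2001418402) (Pf.C 0 33544)) (Pf.C 0 33546)) (Pf.C 0 33802)))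
 (Pq.cons (Pq.L [1,3,4] 0 (Pf.B 10 8 (Pf.B 10 6 (Pf.B 8 6 (Pf.C 1 0x2031418401) (Pf.C 0 17160)) (Pf.C 0 17162)) (Pf.C 0 17418)))
 (Pq.cons (Pq.L [0,2,3] 0 (Pf.B 10 8 (Pf.B 10 6 (Pf.B 8 6 (Pf.C 1 0x1821418400) (Pf.C 0 776)) (Pf.C 0 778)) (Pf.C 0 1034)))
 (Pq.cons (Pq.L [1,2,4] 0 (Pf.B 8 7 (Pf.B 8 6 (Pf.B 7 6 (Pf.C 1 0x1011018384) (Pf.C 0 66311)) (Pf.C 0 66312)) (Pf.C 0 66440)))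
 (Pq.cons (Pq.L [0,1,3] 0 (Pf.B 10 8 (Pf.B 10 6 (Pf.B 8 6 (Pf.C 1 0x801418403) (Pf.C 0 49928)) (Pf.C 0 49930)) (Pf.C 0 50186)))
 (Pq.cons (Pq.L [0,2,4] 0 (Pf.B 10 8 (Pf.B 10 6 (Pf.B 8 6 (Pf.C 1 0x2001418402) (Pf.C 0 33544)) (Pf.C 0 33546)) (Pf.C 0 33802)))
 (Pq.cons (Pq.L [1,2,4] 0 (Pf.B 9 7 (Pf.B 9 5 (Pf.B 7 5 (Pf.C 1 0x1011214384) (Pf.C 0 66183)) (Pf.C 0 66185)) (Pf.C 0 66441)))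
 (Pq.cons (Pq.L [1,3,4] 0 (Pf.B 10 8 (Pf.B 10 6 (Pf.B 8 6 (Pf.C 1 0x2031418401) (Pf.C 0 17160)) (Pf.C 0 17162)) (Pf.C 0 17418)))
 (Pq.cons (Pq.L [1,2,4] 0 (Pf.B 9 7 (Pf.B 9 5 (Pf.B 7 5 (Pf.C 1 0x1011214384) (Pf.C 0 66183)) (Pf.C 0 66185)) (Pf.C 0 66441)))
 (Pq.cons (Pq.L [1,2,4] 0 (Pf.B 9 7 (Pf.B 9 5 (Pf.B 7 5 (Pf.C 1 0x1011214384) (Pf.C 0 66183)) (Pf.C 0 66185)) (Pf.C 0 66441)))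
 (Pq.cons (Pq.L [0,2,3] 0 (Pf.B 10 8 (Pf.B 10 6 (Pf.B 8 6 (Pf.C 1 0x1821418400) (Pf.C 0 776)) (Pf.C 0 778)) (Pf.C 0 1034)))
 (Pq.cons (Pq.L [1,2,4] 0 (Pf.B 9 7 (Pf.B 9 5 (Pf.B 7 5 (Pf.C 1 0x1011214384) (Pf.C 0 66183)) (Pf.C 0 66185)) (Pf.C 0 66441)))
 (Pq.cons (Pq.L [1,2,4] 0 (Pf.B 9 7 (Pf.B 9 5 (Pf.B 7 5 (Pf.C 1 0x1011214384) (Pf.C 0 66183)) (Pf.C 0 66185)) (Pf.C 0 66441)))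
 (Pq.cons (Pq.L [0,1,3] 0 (Pf.B 8 7 (Pf.B 8 6 (Pf.B 7 6 (Pf.C 1 0x801018383) (Pf.C 0 49927)) (Pf.C 0 49928)) (Pf.C 0 50056)))
 (Pq.cons (Pq.L [0,2,4] 0 (Pf.B 10 8 (Pf.B 10 6 (Pf.B 8 6 (Pf.C 1 0x2001418402) (Pf.C 0 33544)) (Pf.C 0 33546)) (Pf.C 0 33802)))
 (Pq.cons (Pq.L [0,1,3] 0 (Pf.B 9 7 (Pf.B 9 5 (Pf.B 7 5 (Pf.C 1 0x801214383) (Pf.C 0 49799)) (Pf.C 0 49801)) (Pf.C 0 50057)))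
 (Pq.cons (Pq.L [1,3,4] 0 (Pf.B 10 8 (Pf.B 10 6 (Pf.B 8 6 (Pf.C 1 0x2031418401) (Pf.C 0 17160)) (Pf.C 0 17162)) (Pf.C 0 17418)))
 (Pq.cons (Pq.L [0,1,3] 0 (Pf.B 9 7 (Pf.B 9 5 (Pf.B 7 5 (Pf.C 1 0x801214383) (Pf.C 0 49799)) (Pf.C 0 49801)) (Pf.C 0 50057)))
 (Pq.cons (Pq.L [0,1,3] 0 (Pf.B 9 7 (Pf.B 9 5 (Pf.B 7 5 (Pf.C 1 0x801214383) (Pf.C 0 49799)) (Pf.C 0 49801)) (Pf.C 0 50057)))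
 (Pq.cons (Pq.L [0,2,3] 0 (Pf.B 10 8 (Pf.B 10 6 (Pf.B 8 6 (Pf.C 1 0x1821418400) (Pf.C 0 776)) (Pf.C 0 778)) (Pf.C 0 1034)))
 (Pq.cons (Pq.L [0,1,3] 0 (Pf.B 9 7 (Pf.B 9 5 (Pf.B 7 5 (Pf.C 1 0x801214383) (Pf.C 0 49799)) (Pf.C 0 49801)) (Pf.C 0 50057)))
 (Pq.cons (Pq.L [0,1,3] 0 (Pf.B 9 7 (Pf.B 9 5 (Pf.B 7 5 (Pf.C 1 0x801214383) (Pf.C 0 49799)) (Pf.C 0 49801)) (Pf.C 0 50057)))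
 (Pq.cons (Pq.L [0,2,4] 0 (Pf.B 8 7 (Pf.B 8 6 (Pf.B 7 6 (Pf.C 1 0x2001018382) (Pf.C 0 33543)) (Pf.C 0 33544)) (Pf.C 0 33672)))
 (Pq.cons (Pq.L [0,2,4] 0 (Pf.B 9 7 (Pf.B 9 5 (Pf.B 7 5 (Pf.C 1 0x2001214382) (Pf.C 0 33415)) (Pf.C 0 33417)) (Pf.C 0 33673)))
 (Pq.cons (Pq.L [1,3,4] 0 (Pf.B 10 8 (Pf.B 10 6 (Pf.B 8 6 (Pf.C 1 0x2031418401) (Pf.C 0 17160)) (Pf.C 0 17162)) (Pf.C 0 17418)))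
 (Pq.cons (Pq.L [0,2,4] 0 (Pf.B 9 7 (Pf.B 9 5 (Pf.B 7 5 (Pf.C 1 0x2001214382) (Pf.C 0 33415)) (Pf.C 0 33417)) (Pf.C 0 33673)))
 (Pq.cons (Pq.L [0,2,4] 0 (Pf.B 9 7 (Pf.B 9 5 (Pf.B 7 5 (Pf.C 1 0x2001214382) (Pf.C 0 33415)) (Pf.C 0 33417)) (Pf.C 0 33673)))
 (Pq.cons (Pq.L [0,2,3] 0 (Pf.B 10 8 (Pf.B 10 6 (Pf.B 8 6 (Pf.C 1 0x1821418400) (Pf.C 0 776)) (Pf.C 0 778)) (Pf.C 0 1034)))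
 (Pq.cons (Pq.L [0,2,4] 0 (Pf.B 9 7 (Pf.B 9 5 (Pf.B 7 5 (Pf.C 1 0x2001214382) (Pf.C 0 33415)) (Pf.C 0 33417)) (Pf.C 0 33673)))
 (Pq.cons (Pq.L [0,2,4] 0 (Pf.B 9 7 (Pf.B 9 5 (Pf.B 7 5 (Pf.C 1 0x2001214382) (Pf.C 0 33415)) (Pf.C 0 33417)) (Pf.C 0 33673)))
 (Pq.cons (Pq.L [1,3,4] 0 (Pf.B 10 8 (Pf.B 10 6 (Pf.B 8 6 (Pf.C 1 0x2031418401) (Pf.C 0 17160)) (Pf.C 0 17162)) (Pf.C 0 17418)))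
 (Pq.cons (Pq.L [0,2,3] 0 (Pf.B 10 8 (Pf.B 10 6 (Pf.B 8 6 (Pf.C 1 0x1821418400) (Pf.C 0 776)) (Pf.C 0 778)) (Pf.C 0 1034)))
 (Pq.cons (Pq.L [1,3,4] 0 (Pf.B 8 7 (Pf.B 8 6 (Pf.B 7 6 (Pf.C 1 0x2031018381) (Pf.C 0 17159)) (Pf.C 0 17160)) (Pf.C 0 17288)))
 (Pq.cons (Pq.L [1,3,4] 0 (Pf.B 9 7 (Pf.B 9 5 (Pf.B 7 5 (Pf.C 1 0x2031214381) (Pf.C 0 17031)) (Pf.C 0 17033)) (Pf.C 0 17289)))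
 (Pq.cons (Pq.L [1,3,4] 0 (Pf.B 9 7 (Pf.B 9 5 (Pf.B 7 5 (Pf.C 1 0x2031214381) (Pf.C 0 17031)) (Pf.C 0 17033)) (Pf.C 0 17289)))
 (Pq.cons (Pq.L [0,2,3] 0 (Pf.B 10 8 (Pf.B 10 6 (Pf.B 8 6 (Pf.C 1 0x1821418400) (Pf.C 0 776)) (Pf.C 0 778)) (Pf.C 0 1034)))
 (Pq.cons (Pq.L [1,3,4] 0 (Pf.B 9 7 (Pf.B 9 5 (Pf.B 7 5 (Pf.C 1 0x2031214381) (Pf.C 0 17031)) (Pf.C 0 17033)) (Pf.C 0 17289)))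
 (Pq.cons (Pq.L [1,3,4] 0 (Pf.B 9 7 (Pf.B 9 5 (Pf.B 7 5 (Pf.C 1 0x2031214381) (Pf.C 0 17031)) (Pf.C 0 17033)) (Pf.C 0 17289)))
 (Pq.cons (Pq.L [0,2,3] 0 (Pf.B 10 8 (Pf.B 10 6 (Pf.B 8 6 (Pf.C 1 0x1821418400) (Pf.C 0 776)) (Pf.C 0 778)) (Pf.C 0 1034)))
 (Pq.cons (Pq.L [0,2,3] 0 (Pf.B 10 8 (Pf.B 10 6 (Pf.B 8 6 (Pf.C 1 0x1821418400) (Pf.C 0 776)) (Pf.C 0 778)) (Pf.C 0 1034)))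
 (Pq.cons (Pq.L [0,2,3] 0 (Pf.B 8 7 (Pf.B 8 6 (Pf.B 7 6 (Pf.C 1 0x1821018380) (Pf.C 0 775)) (Pf.C 0 776)) (Pf.C 0 904)))
 (Pq.cons (Pq.L [0,2,3] 0 (Pf.B 9 7 (Pf.B 9 5 (Pf.B 7 5 (Pf.C 1 0x1821214380) (Pf.C 0 647)) (Pf.C 0 649)) (Pf.C 0 905)))
 (Pq.cons (Pq.L [0,2,3] 0 (Pf.B 9 7 (Pf.B 9 5 (Pf.B 7 5 (Pf.C 1 0x1821214380) (Pf.C 0 647)) (Pf.C 0 649)) (Pf.C 0 905)))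
 Pq.nil)))))))))))))))))))))))))))))))))))))))))))))
theorem b_o18 : AllRef b_T b_G22 (hitObl [17,18,19,20,21,22,23,24,25,26,27] b_h28) :=
  chkPq_sound b_o18c _ (by decide +kernel)
noncomputable def b_o19c : Pq := (Pq.cons (Pq.L [0,1,2,3] 191 (Pf.B 13 10 (Pf.B 13 7 (Pf.B 13 9 (Pf.B 13 8 (Pf.C 1 0x4880604682) (Pf.C 1 0x801424688)) (Pf.B 11 9 (Pf.B 13 6 (Pf.B 13 5 (Pf.C 1 0x3050604682) (Pf.C 1 0x800e18685)) (Pf.B 11 6 (Pf.B 9 6 (Pf.C 1 0x80161848d) (Pf.C 0 0x34309)) (Pf.C 0 0x3430b))) (Pf.C 0 0x3448b))) (Pf.C 0 33677)) (Pf.C 0 34061)))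
 (Pq.cons (Pq.L [0,1,2,3] 191 (Pf.B 13 10 (Pf.B 13 7 (Pf.B 13 9 (Pf.B 13 8 (Pf.C 1 0x4880400681) (Pf.C 1 0x1821424688)) (Pf.B 11 9 (Pf.B 13 6 (Pf.B 13 5 (Pf.C 1 0x3050400681) (Pf.C 1 0x1820e18685)) (Pf.B 11 6 (Pf.B 9 6 (Pf.C 1 0x182161848d) (Pf.C 0 0x34309)) (Pf.C 0 0x3430b))) (Pf.C 0 0x3448b))) (Pf.C 0 17293)) (Pf.C 0 17677)))
 (Pq.cons (Pq.L [0,1,2,4] 191 (Pf.B 13 10 (Pf.B 13 7 (Pf.B 13 9 (Pf.B 13 8 (Pf.C 1 0x4880400681) (Pf.C 1 0x2001424688)) (Pf.B 11 9 (Pf.B 13 6 (Pf.B 13 5 (Pf.C 1 0x3050400681) (Pf.C 1 0x2000e18685)) (Pf.B 11 6 (Pf.B 9 6 (Pf.C 1 0x200161848d) (Pf.C 0 0x34309)) (Pf.C 0 0x3430b))) (Pf.C 0 0x3448b))) (Pf.C 0 17293)) (Pf.C 0 17677)))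
 (Pq.cons (Pq.L [0,1,2,4] 191 (Pf.B 13 10 (Pf.B 13 7 (Pf.B 13 9 (Pf.B 13 8 (Pf.C 1 0x4880804680) (Pf.C 1 0x1011424688)) (Pf.B 11 9 (Pf.B 13 6 (Pf.B 13 5 (Pf.C 1 0x3050804680) (Pf.C 1 0x1010e18685)) (Pf.B 11 6 (Pf.B 9 6 (Pf.C 1 0x101161848d) (Pf.C 0 0x34309)) (Pf.C 0 0x3430b))) (Pf.C 0 0x3448b))) (Pf.C 0 909)) (Pf.C 0 1293)))
 (Pq.cons (Pq.L [0,1,3,4] 191 (Pf.B 13 10 (Pf.B 13 7 (Pf.B 13 9 (Pf.B 13 8 (Pf.C 1 0x4880804680) (Pf.C 1 0x2031424688)) (Pf.B 11 9 (Pf.B 13 6 (Pf.B 13 5 (Pf.C 1 0x3050804680) (Pf.C 1 0x2030e18685)) (Pf.B 11 6 (Pf.B 9 6 (Pf.C 1 0x203161848d) (Pf.C 0 0x34309)) (Pf.C 0 0x3430b))) (Pf.C 0 0x3448b))) (Pf.C 0 909)) (Pf.C 0 1293)))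
 (Pq.cons (Pq.L [0,1,2,3,4] 448 (Pf.B 16 13 (Pf.B 16 12 (Pf.B 16 11 (Pf.C 1 0x60b1a00801) (Pf.B 16 10 (Pf.B 16 7 (Pf.B 13 10 (Pf.B 13 7 (Pf.B 12 10 (Pf.B 12 7 (Pf.B 11 10 (Pf.C 1 0x60b1a00501) (Pf.B 11 7 (Pf.C 1 0x60b1a00381) (Pf.B 10 7 (Pf.C 1 0x182201c50b) (Pf.C 0 17290)))) (Pf.C 0 66444)) (Pf.C 0 66828)) (Pf.C 0 17293)) (Pf.C 0 17677)) (Pf.C 0 17296)) (Pf.C 0 17680))) (Pf.C 0 67088)) (Pf.C 0 18064)))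
 (Pq.cons (Pq.L [0,1,2,3,4] 448 (Pf.B 15 13 (Pf.B 15 12 (Pf.B 15 11 (Pf.C 1 0x68b180c782) (Pf.B 15 9 (Pf.B 15 6 (Pf.B 13 9 (Pf.B 13 6 (Pf.B 12 9 (Pf.B 12 6 (Pf.B 11 9 (Pf.C 1 0x68b180c482) (Pf.B 11 6 (Pf.C 1 0x68b180c302) (Pf.B 9 6 (Pf.C 1 0x801e1848b) (Pf.C 0 33545)))) (Pf.C 0 33548)) (Pf.C 0 33932)) (Pf.C 0 66317)) (Pf.C 0 66701)) (Pf.C 0 33551)) (Pf.C 0 33935))) (Pf.C 0 34319)) (Pf.C 0 67215)))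
 (Pq.cons (Pq.L [0,1,2,3,4] 192 (Pf.B 16 13 (Pf.B 16 12 (Pf.B 16 10 (Pf.B 16 7 (Pf.B 13 10 (Pf.B 13 7 (Pf.B 12 10 (Pf.B 12 7 (Pf.B 10 7 (Pf.B 16 11 (Pf.B 11 10 (Pf.C 1 0x60b2000501) (Pf.B 11 7 (Pf.C 1 0x60b2000381) (Pf.C 1 0x1821a2838b))) (Pf.B 11 10 (Pf.B 11 7 (Pf.C 1 0x60b1400381) (Pf.C 1 0x182203438b)) (Pf.C 1 0x182203450b))) (Pf.C 0 17290)) (Pf.C 0 66444)) (Pf.C 0 66828)) (Pf.C 0 17293)) (Pf.C 0 17677)) (Pf.C 0 17296)) (Pf.C 0 17680)) (Pf.C 0 67088)) (Pf.C 0 18064)))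
 (Pq.cons (Pq.L [0,1,2,3,4] 3584 (Pf.B 15 12 (Pf.B 15 9 (Pf.B 15 6 (Pf.B 12 9 (Pf.B 12 6 (Pf.B 9 6 (Pf.B 16 12 (Pf.B 16 9 (Pf.C 1 0x901e30484) (Pf.B 16 6 (Pf.C 1 0x901e30304) (Pf.B 14 9 (Pf.C 1 0x78e0604490) (Pf.B 14 6 (Pf.C 1 0x78e0604310) (Pf.C 1 0x801e2430e))))) (Pf.B 14 12 (Pf.C 1 0x78e0604610) (Pf.B 14 9 (Pf.B 16 9 (Pf.B 16 6 (Pf.C 1 0x901e24304) (Pf.B 14 6 (Pf.C 1 0x78e0604310) (Pf.C 1 0x801e3030e))) (Pf.C 1 0x78e0604490)) (Pf.C 1 0x801e3048e)))) (Pf.C 0 33545)) (Pf.C 0 33548)) (Pf.C 0 33932)) (Pf.C 0 33551)) (Pf.C 0 33935)) (Pf.C 0 34319)))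
 (Pq.cons (Pq.L [0,1,2,3,4] 4088 (Pf.B 16 13 (Pf.B 16 10 (Pf.B 16 7 (Pf.B 15 12 (Pf.B 15 9 (Pf.B 13 10 (Pf.B 13 7 (Pf.B 12 9 (Pf.B 10 7 (Pf.B 16 12 (Pf.B 16 9 (Pf.C 1 0x901e30484) (Pf.B 16 8 (Pf.C 1 0x5080808809) (Pf.B 14 12 (Pf.C 1 0x80e1e00604) (Pf.B 14 8 (Pf.B 15 8 (Pf.C 1 0x20f1c04410) (Pf.B 15 10 (Pf.B 15 13 (Pf.C 1 0x20f2028681) (Pf.B 15 7 (Pf.C 1 0x20f2028381) (Pf.B 14 13 (Pf.C 1 0x60e1e0c08d) (Pf.B 14 7 (Pf.C 1 0x80e080838f) (Pf.C 1 0x200203438e))))) (Pf.C 0 0x2050f))) (Pf.C 0 0x4040e))))) (Pf.B 16 11 (Pf.C 1 0x68b080880c) (Pf.B 14 11 (Pf.B 15 11 (Pf.C 1 0x20f1c04590) (Pf.B 15 13 (Pf.B 15 10 (Pf.C 1 0x20f2034501) (Pf.B 15 7 (Pf.C 1 0x20f2034381) (Pf.B 14 10 (Pf.C 1 0x80e080850f) (Pf.B 14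 7 (Pf.C 1 0x80e080838f) (Pf.C 1 0x200202838e))))) (Pf.C 0 0x2c68f))) (Pf.C 0 0x4058e)))) (Pf.C 0 17290)) (Pf.C 0 33932)) (Pf.C 0 17293)) (Pf.C 0 17677)) (Pf.C 0 33935)) (Pf.C 0 34319)) (Pf.C 0 17296)) (Pf.C 0 17680)) (Pf.C 0 18064)))
 (Pq.cons (Pq.L [0,1,2,3] 3584 (Pf.B 15 12 (Pf.B 15 9 (Pf.B 15 6 (Pf.B 12 9 (Pf.B 12 6 (Pf.B 9 6 (Pf.B 16 12 (Pf.B 16 9 (Pf.C 1 0x101e30482) (Pf.B 16 6 (Pf.C 1 0x101e30302) (Pf.B 14 9 (Pf.C 1 0x78e0600490) (Pf.B 14 6 (Pf.C 1 0x78e0600310) (Pf.C 1 0x801e2430e))))) (Pf.B 14 12 (Pf.C 1 0x78e0600610) (Pf.B 14 9 (Pf.B 16 9 (Pf.B 16 6 (Pf.C 1 0x101e24302) (Pf.B 14 6 (Pf.C 1 0x78e0600310) (Pf.C 1 0x801e3030e))) (Pf.C 1 0x78e0600490)) (Pf.C 1 0x801e3048e)))) (Pf.C 0 33545))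 (Pf.C 0 33548)) (Pf.C 0 33932)) (Pf.C 0 33551)) (Pf.C 0 33935)) (Pf.C 0 34319)))
 (Pq.cons (Pq.L [0,1,2,3,4] 4088 (Pf.B 16 13 (Pf.B 16 10 (Pf.B 16 7 (Pf.B 15 12 (Pf.B 15 9 (Pf.B 13 10 (Pf.B 13 7 (Pf.B 12 9 (Pf.B 10 7 (Pf.B 16 12 (Pf.B 16 9 (Pf.C 1 0x101e30482) (Pf.B 16 8 (Pf.C 1 0x5080808809) (Pf.B 14 12 (Pf.C 1 0x80e1e04602) (Pf.B 14 8 (Pf.B 15 8 (Pf.C 1 0x10f1c00410) (Pf.B 15 10 (Pf.B 15 13 (Pf.C 1 0x10f2028680) (Pf.B 15 7 (Pf.C 1 0x10f2028380) (Pf.B 14 13 (Pf.C 1 0x60e1e0c00d) (Pf.B 14 7 (Pf.C 1 0x80e080838f) (Pf.C 1 0x101203438e))))) (Pf.C 0 0x2050f))) (Pf.C 0 0x4040e))))) (Pf.B 16 11 (Pf.C 1 0x68b080880c) (Pf.B 14 11 (Pf.B 15 11 (Pf.C 1 0x10f1c00590) (Pf.B 15 13 (Pf.B 15 10 (Pf.C 1 0x10f2034500)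 (Pf.B 15 7 (Pf.C 1 0x10f2034380) (Pf.B 14 10 (Pf.C 1 0x80e080850f) (Pf.B 14 7 (Pf.C 1 0x80e080838f) (Pf.C 1 0x101202838e))))) (Pf.C 0 0x2c68f))) (Pf.C 0 0x4058e)))) (Pf.C 0 906)) (Pf.C 0 33932)) (Pf.C 0 909)) (Pf.C 0 1293)) (Pf.C 0 33935)) (Pf.C 0 34319)) (Pf.C 0 912)) (Pf.C 0 1296)) (Pf.C 0 1680)))
 (Pq.cons (Pq.L [0,1,2,3,4] 448 (Pf.B 16 13 (Pf.B 16 12 (Pf.B 16 11 (Pf.C 1 0x60b1a04800) (Pf.B 16 10 (Pf.B 16 7 (Pf.B 13 10 (Pf.B 13 7 (Pf.B 12 10 (Pf.B 12 7 (Pf.B 11 10 (Pf.C 1 0x60b1a04500) (Pf.B 11 7 (Pf.C 1 0x60b1a04380) (Pf.B 10 7 (Pf.C 1 0x203201c50b) (Pf.C 0 906)))) (Pf.C 0 33676)) (Pf.C 0 34060)) (Pf.C 0 909)) (Pf.C 0 1293)) (Pf.C 0 912)) (Pf.C 0 1296))) (Pf.C 0 34320)) (Pf.C 0 1680)))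
 (Pq.cons (Pq.L [0,1,2,3,4] 448 (Pf.B 15 13 (Pf.B 15 12 (Pf.B 15 11 (Pf.C 1 0x68b180c784) (Pf.B 15 9 (Pf.B 15 6 (Pf.B 13 9 (Pf.B 13 6 (Pf.B 12 9 (Pf.B 12 6 (Pf.B 11 9 (Pf.C 1 0x68b180c484) (Pf.B 11 6 (Pf.C 1 0x68b180c304) (Pf.B 9 6 (Pf.C 1 0x801e1848b) (Pf.C 0 33545)))) (Pf.C 0 33548)) (Pf.C 0 33932)) (Pf.C 0 33549)) (Pf.C 0 33933)) (Pf.C 0 33551)) (Pf.C 0 33935))) (Pf.C 0 34319)) (Pf.C 0 34447)))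
 (Pq.cons (Pq.L [0,1,2,3,4] 192 (Pf.B 16 13 (Pf.B 16 12 (Pf.B 16 10 (Pf.B 16 7 (Pf.B 13 10 (Pf.B 13 7 (Pf.B 12 10 (Pf.B 12 7 (Pf.B 10 7 (Pf.B 16 11 (Pf.B 11 10 (Pf.C 1 0x60b2004500) (Pf.B 11 7 (Pf.C 1 0x60b2004380) (Pf.C 1 0x2031a2838b))) (Pf.B 11 10 (Pf.B 11 7 (Pf.C 1 0x60b1404380) (Pf.C 1 0x203203438b)) (Pf.C 1 0x203203450b))) (Pf.C 0 906)) (Pf.C 0 33676)) (Pf.C 0 34060)) (Pf.C 0 909)) (Pf.C 0 1293)) (Pf.C 0 912)) (Pf.C 0 1296)) (Pf.C 0 34320)) (Pf.C 0 1680)))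
 (Pq.cons (Pq.L [0,1,2,3,4] 448 (Pf.B 16 13 (Pf.B 16 12 (Pf.B 16 11 (Pf.C 1 0x60b1a08803) (Pf.B 16 10 (Pf.B 16 7 (Pf.B 13 10 (Pf.B 13 7 (Pf.B 12 10 (Pf.B 12 7 (Pf.B 11 10 (Pf.C 1 0x60b1a08503) (Pf.B 11 7 (Pf.C 1 0x60b1a08383) (Pf.B 10 7 (Pf.C 1 0x200201c50b) (Pf.C 0 17290)))) (Pf.C 0 17292)) (Pf.C 0 17676)) (Pf.C 0 17293)) (Pf.C 0 17677)) (Pf.C 0 17296)) (Pf.C 0 17680))) (Pf.C 0 17936)) (Pf.C 0 18064)))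
 (Pq.cons (Pq.L [0,1,2,3,4] 448 (Pf.B 15 13 (Pf.B 15 12 (Pf.B 15 11 (Pf.C 1 0x68b1800784) (Pf.B 15 9 (Pf.B 15 6 (Pf.B 13 9 (Pf.B 13 6 (Pf.B 12 9 (Pf.B 12 6 (Pf.B 11 9 (Pf.C 1 0x68b1800484) (Pf.B 11 6 (Pf.C 1 0x68b1800304) (Pf.B 9 6 (Pf.C 1 0x1821e1848b) (Pf.C 0 17161)))) (Pf.C 0 17164)) (Pf.C 0 17548)) (Pf.C 0 17165)) (Pf.C 0 17549)) (Pf.C 0 17167)) (Pf.C 0 17551))) (Pf.C 0 17935)) (Pf.C 0 18063)))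
 (Pq.cons (Pq.L [0,1,2,3,4] 192 (Pf.B 16 13 (Pf.B 16 12 (Pf.B 16 10 (Pf.B 16 7 (Pf.B 13 10 (Pf.B 13 7 (Pf.B 12 10 (Pf.B 12 7 (Pf.B 10 7 (Pf.B 16 11 (Pf.B 11 10 (Pf.C 1 0x60b2008503) (Pf.B 11 7 (Pf.C 1 0x60b2008383) (Pf.C 1 0x2001a2838b))) (Pf.B 11 10 (Pf.B 11 7 (Pf.C 1 0x60b1408383) (Pf.C 1 0x200203438b)) (Pf.C 1 0x200203450b))) (Pf.C 0 17290)) (Pf.C 0 17292)) (Pf.C 0 17676)) (Pf.C 0 17293)) (Pf.C 0 17677)) (Pf.C 0 17296)) (Pf.C 0 17680)) (Pf.C 0 17936)) (Pf.C 0 18064)))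
 (Pq.cons (Pq.L [0,1,2,3] 3584 (Pf.B 15 12 (Pf.B 15 9 (Pf.B 15 6 (Pf.B 12 9 (Pf.B 12 6 (Pf.B 9 6 (Pf.B 16 12 (Pf.B 16 9 (Pf.C 1 0x1901e30481) (Pf.B 16 6 (Pf.C 1 0x1901e30301) (Pf.B 14 9 (Pf.C 1 0x78e0600490) (Pf.B 14 6 (Pf.C 1 0x78e0600310) (Pf.C 1 0x1821e2430e))))) (Pf.B 14 12 (Pf.C 1 0x78e0600610) (Pf.B 14 9 (Pf.B 16 9 (Pf.B 16 6 (Pf.C 1 0x1901e24301) (Pf.B 14 6 (Pf.C 1 0x78e0600310) (Pf.C 1 0x1821e3030e))) (Pf.C 1 0x78e0600490)) (Pf.C 1 0x1821e3048e)))) (Pf.C 0 17161)) (Pf.C 0 17164)) (Pf.C 0 17548)) (Pf.C 0 17167)) (Pf.C 0 17551)) (Pf.C 0 17935)))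
 (Pq.cons (Pq.L [0,1,2,3,4] 4088 (Pf.B 16 13 (Pf.B 16 10 (Pf.B 16 7 (Pf.B 15 12 (Pf.B 15 9 (Pf.B 13 10 (Pf.B 13 7 (Pf.B 12 9 (Pf.B 10 7 (Pf.B 16 12 (Pf.B 16 9 (Pf.C 1 0x1901e30481) (Pf.B 16 8 (Pf.C 1 0x5080804809) (Pf.B 14 12 (Pf.C 1 0x80e1e08601) (Pf.B 14 8 (Pf.B 15 8 (Pf.C 1 0x8f1c0c410) (Pf.B 15 10 (Pf.B 15 13 (Pf.C 1 0x8f2028683) (Pf.B 15 7 (Pf.C 1 0x8f2028383) (Pf.B 14 13 (Pf.C 1 0x60e1e0c00d) (Pf.B 14 7 (Pf.C 1 0x80e080438f) (Pf.C 1 0x101203438e))))) (Pf.C 0 0x2050f))) (Pf.C 0 0x4040e))))) (Pf.B 16 11 (Pf.C 1 0x68b080480c) (Pf.B 14 11 (Pf.B 15 11 (Pf.C 1 0x8f1c0c590) (Pf.B 15 13 (Pf.B 15 10 (Pf.C 1 0x8f2034503) (Pf.B 15 7 (Pf.C 1 0x8f2034383) (Pf.B 14 10 (Pf.C 1 0x80e080450f) (Pf.B 14 7 (Pf.C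 1 0x80e080438f) (Pf.C 1 0x101202838e))))) (Pf.C 0 0x2c68f))) (Pf.C 0 0x4058e)))) (Pf.C 0 906)) (Pf.C 0 17548)) (Pf.C 0 909)) (Pf.C 0 1293)) (Pf.C 0 17551)) (Pf.C 0 17935)) (Pf.C 0 912)) (Pf.C 0 1296)) (Pf.C 0 1680)))
 (Pq.cons (Pq.L [0,1,2,3,4] 3584 (Pf.B 15 12 (Pf.B 15 9 (Pf.B 15 6 (Pf.B 12 9 (Pf.B 12 6 (Pf.B 9 6 (Pf.B 16 12 (Pf.B 16 9 (Pf.C 1 0x1101e30484) (Pf.B 16 6 (Pf.C 1 0x1101e30304) (Pf.B 14 9 (Pf.C 1 0x78e0400490) (Pf.B 14 6 (Pf.C 1 0x78e0400310) (Pf.C 1 0x1821e2430e))))) (Pf.B 14 12 (Pf.C 1 0x78e0400610) (Pf.B 14 9 (Pf.B 16 9 (Pf.B 16 6 (Pf.C 1 0x1101e24304) (Pf.B 14 6 (Pf.C 1 0x78e0400310) (Pf.C 1 0x1821e3030e))) (Pf.C 1 0x78e0400490)) (Pf.C 1 0x1821e3048e)))) (Pf.C 0 17161)) (Pf.C 0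 17164)) (Pf.C 0 17548)) (Pf.C 0 17167)) (Pf.C 0 17551)) (Pf.C 0 17935)))
 (Pq.cons (Pq.L [0,1,2,3,4] 4088 (Pf.B 16 13 (Pf.B 16 10 (Pf.B 16 7 (Pf.B 15 12 (Pf.B 15 9 (Pf.B 13 10 (Pf.B 13 7 (Pf.B 12 9 (Pf.B 10 7 (Pf.B 16 12 (Pf.B 16 9 (Pf.C 1 0x1101e30484) (Pf.B 16 8 (Pf.C 1 0x5080804809) (Pf.B 14 12 (Pf.C 1 0x80e1e0c604) (Pf.B 14 8 (Pf.B 15 8 (Pf.C 1 0x20f1c08410) (Pf.B 15 10 (Pf.B 15 13 (Pf.C 1 0x20f2028682) (Pf.B 15 7 (Pf.C 1 0x20f2028382) (Pf.B 14 13 (Pf.C 1 0x60e1e0800d) (Pf.B 14 7 (Pf.C 1 0x80e080438f) (Pf.C 1 0x203203438e))))) (Pf.C 0 0x2050f))) (Pf.C 0 0x4040e))))) (Pf.B 16 11 (Pf.C 1 0x68b080480c) (Pf.B 14 11 (Pf.B 15 11 (Pf.C 1 0x20f1c08590) (Pf.B 15 13 (Pf.B 15 10 (Pf.C 1 0x20f2034502) (Pf.B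 15 7 (Pf.C 1 0x20f2034382) (Pf.B 14 10 (Pf.C 1 0x80e080450f) (Pf.B 14 7 (Pf.C 1 0x80e080438f) (Pf.C 1 0x203202838e))))) (Pf.C 0 0x2c68f))) (Pf.C 0 0x4058e)))) (Pf.C 0 906)) (Pf.C 0 17548)) (Pf.C 0 909)) (Pf.C 0 1293)) (Pf.C 0 17551)) (Pf.C 0 17935)) (Pf.C 0 912)) (Pf.C 0 1296)) (Pf.C 0 1680)))
 (Pq.cons (Pq.L [0,1,2,3,4] 448 (Pf.B 16 13 (Pf.B 16 12 (Pf.B 16 11 (Pf.C 1 0x60b1a10800) (Pf.B 16 10 (Pf.B 16 7 (Pf.B 13 10 (Pf.B 13 7 (Pf.B 12 10 (Pf.B 12 7 (Pf.B 11 10 (Pf.C 1 0x60b1a10500) (Pf.B 11 7 (Pf.C 1 0x60b1a10380) (Pf.B 10 7 (Pf.C 1 0x101201c50b) (Pf.C 0 906)))) (Pf.C 0 50060)) (Pf.C 0 50444)) (Pf.C 0 909)) (Pf.C 0 1293)) (Pf.C 0 912)) (Pf.C 0 1296))) (Pf.C 0 50704)) (Pf.C 0 1680)))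
 (Pq.cons (Pq.L [0,1,2,3,4] 448 (Pf.B 15 13 (Pf.B 15 12 (Pf.B 15 11 (Pf.C 1 0x68b1808781) (Pf.B 15 9 (Pf.B 15 6 (Pf.B 13 9 (Pf.B 13 6 (Pf.B 12 9 (Pf.B 12 6 (Pf.B 11 9 (Pf.C 1 0x68b1808481) (Pf.B 11 6 (Pf.C 1 0x68b1808301) (Pf.B 9 6 (Pf.C 1 0x2001e1848b) (Pf.C 0 17161)))) (Pf.C 0 17164)) (Pf.C 0 17548)) (Pf.C 0 49933)) (Pf.C 0 50317)) (Pf.C 0 17167)) (Pf.C 0 17551))) (Pf.C 0 17935)) (Pf.C 0 50831)))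
 (Pq.cons (Pq.L [0,1,2,3,4] 192 (Pf.B 16 13 (Pf.B 16 12 (Pf.B 16 10 (Pf.B 16 7 (Pf.B 13 10 (Pf.B 13 7 (Pf.B 12 10 (Pf.B 12 7 (Pf.B 10 7 (Pf.B 16 11 (Pf.B 11 10 (Pf.C 1 0x60b2010500) (Pf.B 11 7 (Pf.C 1 0x60b2010380) (Pf.C 1 0x1011a2838b))) (Pf.B 11 10 (Pf.B 11 7 (Pf.C 1 0x60b1410380) (Pf.C 1 0x101203438b)) (Pf.C 1 0x101203450b))) (Pf.C 0 906)) (Pf.C 0 50060)) (Pf.C 0 50444)) (Pf.C 0 909)) (Pf.C 0 1293)) (Pf.C 0 912)) (Pf.C 0 1296)) (Pf.C 0 50704)) (Pf.C 0 1680)))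
 (Pq.cons (Pq.L [0,1,2,3,4] 3584 (Pf.B 15 12 (Pf.B 15 9 (Pf.B 15 6 (Pf.B 12 9 (Pf.B 12 6 (Pf.B 9 6 (Pf.B 16 12 (Pf.B 16 9 (Pf.C 1 0x101e30483) (Pf.B 16 6 (Pf.C 1 0x101e30303) (Pf.B 14 9 (Pf.C 1 0x78e0400490) (Pf.B 14 6 (Pf.C 1 0x78e0400310) (Pf.C 1 0x2001e2430e))))) (Pf.B 14 12 (Pf.C 1 0x78e0400610) (Pf.B 14 9 (Pf.B 16 9 (Pf.B 16 6 (Pf.C 1 0x101e24303) (Pf.B 14 6 (Pf.C 1 0x78e0400310) (Pf.C 1 0x2001e3030e))) (Pf.C 1 0x78e0400490)) (Pf.C 1 0x2001e3048e)))) (Pf.C 0 17161)) (Pf.C 0 17164)) (Pf.C 0 17548)) (Pf.C 0 17167)) (Pf.C 0 17551)) (Pf.C 0 17935)))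
 (Pq.cons (Pq.L [0,1,2,3,4] 4088 (Pf.B 16 13 (Pf.B 16 10 (Pf.B 16 7 (Pf.B 15 12 (Pf.B 15 9 (Pf.B 13 10 (Pf.B 13 7 (Pf.B 12 9 (Pf.B 10 7 (Pf.B 16 12 (Pf.B 16 9 (Pf.C 1 0x101e30483) (Pf.B 16 8 (Pf.C 1 0x5080604809) (Pf.B 14 12 (Pf.C 1 0x80e1e10603) (Pf.B 14 8 (Pf.B 15 8 (Pf.C 1 0x18f1c00410) (Pf.B 15 10 (Pf.B 15 13 (Pf.C 1 0x18f2028680) (Pf.B 15 7 (Pf.C 1 0x18f2028380) (Pf.B 14 13 (Pf.C 1 0x60e1e0800d) (Pf.B 14 7 (Pf.C 1 0x80e060438f) (Pf.C 1 0x203203438e))))) (Pf.C 0 0x2050f))) (Pf.C 0 0x4040e))))) (Pf.B 16 11 (Pf.C 1 0x68b060480c) (Pf.B 14 11 (Pf.B 15 11 (Pf.C 1 0x18f1c00590) (Pf.B 15 13 (Pf.B 15 10 (Pf.C 1 0x18f2034500) (Pf.B 15 7 (Pf.C 1 0x18f2034380) (Pf.B 14 10 (Pf.C 1 0x80e060450f) (Pf.B 14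 7 (Pf.C 1 0x80e060438f) (Pf.C 1 0x203202838e))))) (Pf.C 0 0x2c68f))) (Pf.C 0 0x4058e)))) (Pf.C 0 906)) (Pf.C 0 17548)) (Pf.C 0 909)) (Pf.C 0 1293)) (Pf.C 0 17551)) (Pf.C 0 17935)) (Pf.C 0 912)) (Pf.C 0 1296)) (Pf.C 0 1680)))
 (Pq.cons (Pq.L [0,1,2,3,4] 448 (Pf.B 16 13 (Pf.B 16 12 (Pf.B 16 11 (Pf.C 1 0x60b1a04802) (Pf.B 16 10 (Pf.B 16 7 (Pf.B 13 10 (Pf.B 13 7 (Pf.B 12 10 (Pf.B 12 7 (Pf.B 11 10 (Pf.C 1 0x60b1a04502) (Pf.B 11 7 (Pf.C 1 0x60b1a04382) (Pf.B 10 7 (Pf.C 1 0x203201c50b) (Pf.C 0 906)))) (Pf.C 0 908)) (Pf.C 0 1292)) (Pf.C 0 909)) (Pf.C 0 1293)) (Pf.C 0 912)) (Pf.C 0 1296))) (Pf.C 0 1552)) (Pf.C 0 1680)))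
 (Pq.cons (Pq.L [0,1,2,3,4] 448 (Pf.B 15 13 (Pf.B 15 12 (Pf.B 15 11 (Pf.C 1 0x68b1810783) (Pf.B 15 9 (Pf.B 15 6 (Pf.B 13 9 (Pf.B 13 6 (Pf.B 12 9 (Pf.B 12 6 (Pf.B 11 9 (Pf.C 1 0x68b1810483) (Pf.B 11 6 (Pf.C 1 0x68b1810303) (Pf.B 9 6 (Pf.C 1 0x1011e1848b) (Pf.C 0 777)))) (Pf.C 0 780)) (Pf.C 0 1164)) (Pf.C 0 781)) (Pf.C 0 1165)) (Pf.C 0 783)) (Pf.C 0 1167))) (Pf.C 0 1551)) (Pf.C 0 1679)))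
 (Pq.cons (Pq.L [0,1,2,3,4] 192 (Pf.B 16 13 (Pf.B 16 12 (Pf.B 16 10 (Pf.B 16 7 (Pf.B 13 10 (Pf.B 13 7 (Pf.B 12 10 (Pf.B 12 7 (Pf.B 10 7 (Pf.B 16 11 (Pf.B 11 10 (Pf.C 1 0x60b2004502) (Pf.B 11 7 (Pf.C 1 0x60b2004382) (Pf.C 1 0x2031a2838b))) (Pf.B 11 10 (Pf.B 11 7 (Pf.C 1 0x60b1404382) (Pf.C 1 0x203203438b)) (Pf.C 1 0x203203450b))) (Pf.C 0 906)) (Pf.C 0 908)) (Pf.C 0 1292)) (Pf.C 0 909)) (Pf.C 0 1293)) (Pf.C 0 912)) (Pf.C 0 1296)) (Pf.C 0 1552)) (Pf.C 0 1680)))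
 (Pq.cons (Pq.L [0,1,2,3,4] 3072 (Pf.B 15 12 (Pf.B 15 9 (Pf.B 15 6 (Pf.B 14 12 (Pf.B 14 9 (Pf.B 14 6 (Pf.B 12 9 (Pf.B 12 6 (Pf.B 9 6 (Pf.B 16 12 (Pf.B 16 9 (Pf.C 1 0x1901e30481) (Pf.B 16 6 (Pf.C 1 0x1901e30301) (Pf.C 1 0x7021200310))) (Pf.B 16 9 (Pf.B 16 6 (Pf.C 1 0x1901e24301) (Pf.C 1 0x7021800310)) (Pf.C 1 0x7021800490))) (Pf.C 0 17161)) (Pf.C 0 17164)) (Pf.C 0 17548)) (Pf.C 0 66318)) (Pf.C 0 66702)) (Pf.C 0 67086)) (Pf.C 0 17167)) (Pf.C 0 17551)) (Pf.C 0 17935)))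
 (Pq.cons (Pq.L [0,1,2,3,4] 3647 (Pf.B 16 10 (Pf.B 16 7 (Pf.B 15 11 (Pf.B 14 11 (Pf.B 16 11 (Pf.B 11 9 (Pf.B 11 8 (Pf.B 11 10 (Pf.B 11 6 (Pf.B 11 5 (Pf.B 11 7 (Pf.B 10 7 (Pf.C 1 0x582201c500) (Pf.C 0 906)) (Pf.C 1 0x3010a0c587)) (Pf.C 0 33419)) (Pf.C 0 66315)) (Pf.C 1 0x481100c58a)) (Pf.C 0 33803)) (Pf.C 0 66699)) (Pf.C 1 0x7811c0c590)) (Pf.C 0 34190)) (Pf.C 0 66959)) (Pf.C 0 912)) (Pf.C 0 1296)))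
 (Pq.cons (Pq.L [0,1,2,3,4] 3647 (Pf.B 16 10 (Pf.B 16 7 (Pf.B 15 12 (Pf.B 14 12 (Pf.B 16 12 (Pf.B 12 9 (Pf.B 12 8 (Pf.B 12 10 (Pf.B 12 6 (Pf.B 12 5 (Pf.B 12 7 (Pf.B 10 7 (Pf.C 1 0x601201c503) (Pf.C 0 906)) (Pf.C 1 0x2820c00607)) (Pf.C 0 66188)) (Pf.C 0 17164)) (Pf.C 1 0x402120060a)) (Pf.C 0 66572)) (Pf.C 0 17548)) (Pf.C 1 0x7021e00610)) (Pf.C 0 67086)) (Pf.C 0 17935)) (Pf.C 0 912)) (Pf.C 0 1296)))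
 (Pq.cons (Pq.L [0,1,2,3,4] 1752 (Pf.B 16 13 (Pf.B 16 12 (Pf.B 16 10 (Pf.B 16 9 (Pf.B 16 7 (Pf.B 15 13 (Pf.B 15 10 (Pf.B 15 7 (Pf.B 14 11 (Pf.B 14 8 (Pf.B 13 10 (Pf.B 13 9 (Pf.B 13 7 (Pf.B 12 10 (Pf.B 11 8 (Pf.B 10 7 (Pf.B 16 11 (Pf.B 16 8 (Pf.C 1 0x101c2c402) (Pf.B 13 8 (Pf.B 14 13 (Pf.C 1 0xd1620702) (Pf.B 14 10 (Pf.B 14 7 (Pf.C 1 0x10e2028380) (Pf.C 1 0x7811a1038e)) (Pf.C 1 0x7811a1050e))) (Pf.C 1 0x4812010688))) (Pf.B 11 10 (Pf.B 14 10 (Pf.C 1 0xa1620702) (Pf.B 14 13 (Pf.B 14 7 (Pf.C 1 0x10e2034380) (Pf.C 1 0x781141038e)) (Pf.C 1 0x781141068e))) (Pf.C 1 0x601201050b))) (Pf.C 0 906)) (Pf.C 0 33803)) (Pf.C 0 50444)) (Pf.C 0 909)) (Pf.C 0 50317)) (Pf.C 0 1293)) (Pf.C 0 33806)) (Pf.C 0 34190)) (Pf.C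 0 50063)) (Pf.C 0 50447)) (Pf.C 0 50831)) (Pf.C 0 912)) (Pf.C 0 50320)) (Pf.C 0 1296)) (Pf.C 0 50704)) (Pf.C 0 1680)))
 (Pq.cons (Pq.L [0,1,2,3,4] 3584 (Pf.B 16 12 (Pf.B 16 9 (Pf.B 16 6 (Pf.B 15 12 (Pf.B 15 9 (Pf.B 15 6 (Pf.B 14 12 (Pf.B 14 9 (Pf.B 14 6 (Pf.B 12 9 (Pf.B 12 6 (Pf.B 9 6 (Pf.C 1 0x7041818481) (Pf.C 0 17161)) (Pf.C 0 17164)) (Pf.C 0 17548)) (Pf.C 1 0x8001e0830e)) (Pf.C 1 0x8001e0848e)) (Pf.C 1 0x8001e0860e)) (Pf.C 0 17167)) (Pf.C 0 17551)) (Pf.C 0 17935)) (Pf.C 0 49936)) (Pf.C 0 50320)) (Pf.C 0 50704)))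
 (Pq.cons (Pq.L [0,1,2,3,4] 3584 (Pf.B 16 13 (Pf.B 16 10 (Pf.B 16 7 (Pf.B 15 13 (Pf.B 15 10 (Pf.B 15 7 (Pf.B 14 13 (Pf.B 14 10 (Pf.B 14 7 (Pf.B 13 10 (Pf.B 13 7 (Pf.B 10 7 (Pf.C 1 0x7021a1c500) (Pf.C 0 906)) (Pf.C 0 909)) (Pf.C 0 1293)) (Pf.C 1 0x781201038e)) (Pf.C 1 0x781201050e)) (Pf.C 1 0x781201068e)) (Pf.C 0 50063)) (Pf.C 0 50447)) (Pf.C 0 50831)) (Pf.C 0 912)) (Pf.C 0 1296)) (Pf.C 0 1680)))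
 (Pq.cons (Pq.L [0,1,2,3,4] 2920 (Pf.B 16 13 (Pf.B 16 11 (Pf.B 16 10 (Pf.B 16 8 (Pf.B 16 7 (Pf.B 15 12 (Pf.B 15 9 (Pf.B 14 13 (Pf.B 14 10 (Pf.B 14 7 (Pf.B 13 10 (Pf.B 13 8 (Pf.B 13 7 (Pf.B 12 9 (Pf.B 11 10 (Pf.B 10 7 (Pf.B 16 12 (Pf.B 16 9 (Pf.C 1 0x101e30483) (Pf.B 13 9 (Pf.B 15 13 (Pf.C 1 0xd1824783) (Pf.B 15 10 (Pf.B 15 7 (Pf.C 1 0x18f2028380) (Pf.C 1 0x7041a0438f)) (Pf.C 1 0x7041a0450f))) (Pf.C 1 0x4042004689))) (Pf.B 12 10 (Pf.B 15 10 (Pf.C 1 0xa1824783) (Pf.B 15 13 (Pf.B 15 7 (Pf.C 1 0x18f2034380) (Pf.C 1 0x704140438f)) (Pf.C 1 0x704140468f))) (Pf.C 1 0x584200450c))) (Pf.C 0 906)) (Pf.C 0 34059)) (Pf.C 0 17548)) (Pf.C 0 909)) (Pf.C 0 33805)) (Pf.C 0 1293)) (Pf.C 0 33678)) (Pf.C 0 34062)) (Pf.C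 0 34446)) (Pf.C 0 17551)) (Pf.C 0 17935)) (Pf.C 0 912)) (Pf.C 0 33808)) (Pf.C 0 1296)) (Pf.C 0 34192)) (Pf.C 0 1680)))
 (Pq.cons (Pq.L [0,1,2,3,4] 3647 (Pf.B 16 11 (Pf.B 15 9 (Pf.B 15 6 (Pf.B 14 11 (Pf.B 15 11 (Pf.B 11 10 (Pf.B 11 8 (Pf.B 11 9 (Pf.B 11 7 (Pf.B 11 5 (Pf.B 11 6 (Pf.B 9 6 (Pf.C 1 0x5841e18481) (Pf.C 0 17161)) (Pf.C 1 0x3800a0c586)) (Pf.C 0 33419)) (Pf.C 0 33675)) (Pf.C 1 0x500100c589)) (Pf.C 0 33803)) (Pf.C 0 34059)) (Pf.C 1 0x8001c0c58f)) (Pf.C 0 34190)) (Pf.C 0 17167)) (Pf.C 0 17551)) (Pf.C 0 34192)))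
 (Pq.cons (Pq.L [0,1,2,3,4] 3584 (Pf.B 16 13 (Pf.B 16 10 (Pf.B 16 7 (Pf.B 14 13 (Pf.B 15 13 (Pf.B 14 10 (Pf.B 15 10 (Pf.B 14 7 (Pf.B 15 7 (Pf.B 13 10 (Pf.B 13 7 (Pf.B 10 7 (Pf.C 1 0x7831a1c500) (Pf.C 0 906)) (Pf.C 0 909)) (Pf.C 0 1293)) (Pf.C 1 0x704200438f)) (Pf.C 0 33678)) (Pf.C 1 0x704200450f)) (Pf.C 0 34062)) (Pf.C 1 0x704200468f)) (Pf.C 0 34446)) (Pf.C 0 912)) (Pf.C 0 1296)) (Pf.C 0 1680)))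
 (Pq.cons (Pq.L [0,1,2,3,4] 3072 (Pf.B 15 12 (Pf.B 15 9 (Pf.B 15 6 (Pf.B 14 12 (Pf.B 14 9 (Pf.B 14 6 (Pf.B 12 9 (Pf.B 12 6 (Pf.B 9 6 (Pf.B 16 12 (Pf.B 16 9 (Pf.C 1 0x101e30483) (Pf.B 16 6 (Pf.C 1 0x101e30303) (Pf.C 1 0x7041208310))) (Pf.B 16 9 (Pf.B 16 6 (Pf.C 1 0x101e24303) (Pf.C 1 0x7041808310)) (Pf.C 1 0x7041808490))) (Pf.C 0 17161)) (Pf.C 0 17164)) (Pf.C 0 17548)) (Pf.C 0 17166)) (Pf.C 0 17550)) (Pf.C 0 17934)) (Pf.C 0 17167)) (Pf.C 0 17551)) (Pf.C 0 17935)))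
 (Pq.cons (Pq.L [0,1,2,3,4] 3647 (Pf.B 16 10 (Pf.B 16 7 (Pf.B 15 11 (Pf.B 14 11 (Pf.B 16 11 (Pf.B 11 9 (Pf.B 11 8 (Pf.B 11 10 (Pf.B 11 6 (Pf.B 11 5 (Pf.B 11 7 (Pf.B 10 7 (Pf.C 1 0x584201c502) (Pf.C 0 906)) (Pf.C 1 0x3030a00587)) (Pf.C 0 17035)) (Pf.C 0 17163)) (Pf.C 1 0x483100058a)) (Pf.C 0 17419)) (Pf.C 0 17547)) (Pf.C 1 0x7831c00590)) (Pf.C 0 17806)) (Pf.C 0 17807)) (Pf.C 0 912)) (Pf.C 0 1296)))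
 (Pq.cons (Pq.L [0,1,2,3,4] 3647 (Pf.B 16 10 (Pf.B 16 7 (Pf.B 15 12 (Pf.B 14 12 (Pf.B 16 12 (Pf.B 12 9 (Pf.B 12 8 (Pf.B 12 10 (Pf.B 12 6 (Pf.B 12 5 (Pf.B 12 7 (Pf.B 10 7 (Pf.C 1 0x603201c500) (Pf.C 0 906)) (Pf.C 1 0x2840c08607)) (Pf.C 0 17036)) (Pf.C 0 17164)) (Pf.C 1 0x404120860a)) (Pf.C 0 17420)) (Pf.C 0 17548)) (Pf.C 1 0x7041e08610)) (Pf.C 0 17934)) (Pf.C 0 17935)) (Pf.C 0 912)) (Pf.C 0 1296)))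
 (Pq.cons (Pq.L [0,1,2,3,4] 1752 (Pf.B 16 13 (Pf.B 16 12 (Pf.B 16 10 (Pf.B 16 9 (Pf.B 16 7 (Pf.B 15 13 (Pf.B 15 10 (Pf.B 15 7 (Pf.B 14 11 (Pf.B 14 8 (Pf.B 13 10 (Pf.B 13 9 (Pf.B 13 7 (Pf.B 12 10 (Pf.B 11 8 (Pf.B 10 7 (Pf.B 16 11 (Pf.B 16 8 (Pf.C 1 0x1101c2c404) (Pf.B 13 8 (Pf.B 14 13 (Pf.C 1 0x10d1620704) (Pf.B 14 10 (Pf.B 14 7 (Pf.C 1 0x20e2028382) (Pf.C 1 0x7831a0438e)) (Pf.C 1 0x7831a0450e))) (Pf.C 1 0x4832004688))) (Pf.B 11 10 (Pf.B 14 10 (Pf.C 1 0x10a1620704) (Pf.B 14 13 (Pf.B 14 7 (Pf.C 1 0x20e2034382) (Pf.C 1 0x783140438e)) (Pf.C 1 0x783140468e))) (Pf.C 1 0x603200450b))) (Pf.C 0 906)) (Pf.C 0 17419)) (Pf.C 0 1292)) (Pf.C 0 909)) (Pf.C 0 1165)) (Pf.C 0 1293)) (Pf.C 0 17422)) (Pf.C 0 17806))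 (Pf.C 0 911)) (Pf.C 0 1295)) (Pf.C 0 1679)) (Pf.C 0 912)) (Pf.C 0 1168)) (Pf.C 0 1296)) (Pf.C 0 1552)) (Pf.C 0 1680)))
 (Pq.cons (Pq.L [0,1,2,3,4] 3584 (Pf.B 16 12 (Pf.B 16 9 (Pf.B 16 6 (Pf.B 15 12 (Pf.B 15 9 (Pf.B 15 6 (Pf.B 14 12 (Pf.B 14 9 (Pf.B 14 6 (Pf.B 12 9 (Pf.B 12 6 (Pf.B 9 6 (Pf.C 1 0x7011818483) (Pf.C 0 777)) (Pf.C 0 780)) (Pf.C 0 1164)) (Pf.C 1 0x8021e1030e)) (Pf.C 1 0x8021e1048e)) (Pf.C 1 0x8021e1060e)) (Pf.C 0 783)) (Pf.C 0 1167)) (Pf.C 0 1551)) (Pf.C 0 784)) (Pf.C 0 1168)) (Pf.C 0 1552)))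
 (Pq.cons (Pq.L [0,1,2,3,4] 3584 (Pf.B 16 13 (Pf.B 16 10 (Pf.B 16 7 (Pf.B 15 13 (Pf.B 15 10 (Pf.B 15 7 (Pf.B 14 13 (Pf.B 14 10 (Pf.B 14 7 (Pf.B 13 10 (Pf.B 13 7 (Pf.B 10 7 (Pf.C 1 0x7041a1c502) (Pf.C 0 906)) (Pf.C 0 909)) (Pf.C 0 1293)) (Pf.C 1 0x783200438e)) (Pf.C 1 0x783200450e)) (Pf.C 1 0x783200468e)) (Pf.C 0 911)) (Pf.C 0 1295)) (Pf.C 0 1679)) (Pf.C 0 912)) (Pf.C 0 1296)) (Pf.C 0 1680)))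
 Pq.nil)))))))))))))))))))))))))))))))))))))))))))))
theorem b_o19 : AllRef b_T b_G23 (hitObl [28,32,34,35,37,38] b_h29) :=
  chkPq_sound b_o19c _ (by decide +kernel)
noncomputable def b_o20c : Pq := (Pq.cons (Pq.L [] 0 (Pf.C 16 773))
 (Pq.cons (Pq.L [] 0 (Pf.C 17 773))
 (Pq.cons (Pq.L [] 0 (Pf.C 18 773))
 (Pq.cons (Pq.L [] 0 (Pf.C 19 773))
 (Pq.cons (Pq.L [] 0 (Pf.C 20 773))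
 Pq.nil)))))
theorem b_o20 : AllRef b_T b_G24 (hitObl [29,30,31,33,36] b_h30) :=
  chkPq_sound b_o20c _ (by decide +kernel)
noncomputable def b_o21c : Pq := (Pq.cons (Pq.L [] 0 (Pf.C 56 5))
 (Pq.cons (Pq.L [] 0 (Pf.C 57 5))
 (Pq.cons (Pq.L [] 0 (Pf.C 58 5))
 (Pq.cons (Pq.L [] 0 (Pf.C 59 5))
 (Pq.cons (Pq.L [] 0 (Pf.C 60 5))
 Pq.nil)))))
theorem b_o21 : AllRef b_T b_G25 (List.map pat1 [45,46,47,48,49]) :=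
  chkPq_sound b_o21c _ (by decide +kernel)
noncomputable def b_o22c : Pq := (Pq.cons (Pq.L [] 7 (Pf.C 0 0x1c305))
 (Pq.cons (Pq.L [0] 1 (Pf.C 0 98309))
 (Pq.cons (Pq.L [1] 1 (Pf.C 0 98437))
 (Pq.cons (Pq.L [2] 1 (Pf.C 0 98565))
 (Pq.cons (Pq.L [3] 1 (Pf.C 0 98693))
 (Pq.cons (Pq.L [4] 1 (Pf.C 0 98821))
 (Pq.cons (Pq.L [] 7 (Pf.C 21 0x1c305))
 (Pq.cons (Pq.L [] 7 (Pf.C 22 0x1c305))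
 (Pq.cons (Pq.L [] 7 (Pf.C 23 0x1c305))
 (Pq.cons (Pq.L [] 7 (Pf.C 24 0x1c305))
 (Pq.cons (Pq.L [] 7 (Pf.C 25 0x1c305))
 (Pq.cons (Pq.L [] 7 (Pf.C 26 0x1c305))
 (Pq.cons (Pq.L [] 7 (Pf.C 27 0x1c305))
 (Pq.cons (Pq.L [] 7 (Pf.C 28 0x1c305))
 (Pq.cons (Pq.L [] 7 (Pf.C 29 0x1c305))
 (Pq.cons (Pq.L [] 7 (Pf.C 30 0x1c305))
 (Pq.cons (Pq.L [] 7 (Pf.C 31 0x1c305))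
 (Pq.cons (Pq.L [] 7 (Pf.C 32 0x1c305))
 (Pq.cons (Pq.L [] 7 (Pf.C 33 0x1c305))
 (Pq.cons (Pq.L [] 7 (Pf.C 34 0x1c305))
 (Pq.cons (Pq.L [] 7 (Pf.C 35 0x1c305))
 (Pq.cons (Pq.L [] 7 (Pf.C 36 0x1c305))
 (Pq.cons (Pq.L [] 7 (Pf.C 37 0x1c305))
 (Pq.cons (Pq.L [] 7 (Pf.C 38 0x1c305))
 (Pq.cons (Pq.L [] 7 (Pf.C 39 0x1c305))
 (Pq.cons (Pq.L [] 7 (Pf.C 40 0x1c305))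
 (Pq.cons (Pq.L [] 7 (Pf.C 41 0x1c305))
 (Pq.cons (Pq.L [] 7 (Pf.C 42 0x1c305))
 (Pq.cons (Pq.L [] 7 (Pf.C 43 0x1c305))
 (Pq.cons (Pq.L [] 7 (Pf.C 44 0x1c305))
 (Pq.cons (Pq.L [] 7 (Pf.C 45 0x1c305))
 (Pq.cons (Pq.L [] 7 (Pf.C 46 0x1c305))
 (Pq.cons (Pq.L [] 7 (Pf.C 47 0x1c305))
 (Pq.cons (Pq.L [] 7 (Pf.C 48 0x1c305))
 (Pq.cons (Pq.L [] 7 (Pf.C 49 0x1c305))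
 (Pq.cons (Pq.L [] 7 (Pf.C 50 0x1c305))
 (Pq.cons (Pq.L [] 7 (Pf.C 51 0x1c305))
 (Pq.cons (Pq.L [] 7 (Pf.C 52 0x1c305))
 (Pq.cons (Pq.L [] 7 (Pf.C 53 0x1c305))
 (Pq.cons (Pq.L [] 7 (Pf.C 54 0x1c305))
 (Pq.cons (Pq.L [] 7 (Pf.C 55 0x1c305))
 (Pq.cons (Pq.L [0,1] 63 (Pf.C 1 0x80101c305))
 (Pq.cons (Pq.L [0,4] 63 (Pf.C 1 0x200101c305))
 (Pq.cons (Pq.L [1,2] 63 (Pf.C 1 0x101101c305))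
 (Pq.cons (Pq.L [2,3] 63 (Pf.C 1 0x182101c305))
 (Pq.cons (Pq.L [3,4] 63 (Pf.C 1 0x203101c305))
 (Pq.cons (Pq.L [0,2] 63 (Pf.C 1 0x4020e18280))
 (Pq.cons (Pq.L [0,3] 63 (Pf.C 1 0x4030e18280))
 (Pq.cons (Pq.L [1,3] 63 (Pf.C 1 0x4030e18281))
 (Pq.cons (Pq.L [1,4] 63 (Pf.C 1 0x4040e18281))
 (Pq.cons (Pq.L [0,2] 63 (Pf.C 1 0x4000e18282))
 (Pq.cons (Pq.L [2,4] 63 (Pf.C 1 0x4040e18282))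
 (Pq.cons (Pq.L [0,3] 63 (Pf.C 1 0x4000e18283))
 (Pq.cons (Pq.L [1,3] 63 (Pf.C 1 0x4010e18283))
 (Pq.cons (Pq.L [1,4] 63 (Pf.C 1 0x4010e18284))
 (Pq.cons (Pq.L [2,4] 63 (Pf.C 1 0x4020e18284))
 Pq.nil))))))))))))))))))))))))))))))))))))))))))))))))))))))))
theorem b_o22 : AllRef b_T b_G26 (applyObl b2_T 56 [39,40,41,42,43,44] [1,2,3,4,5,6] []) :=
  chkPq_sound b_o22c _ (by decide +kernel)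

end Pool.Agent.Lib.MP_849b2e_co
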