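import Pool.Agent.Lib.MP_849b2e_co.AllR
import Pool.Agent.Lib.MP_849b2e_co.Tb
import Pool.Agent.Lib.MP_849b2e_co.Ob_0
import Pool.Agent.Lib.MP_849b2e_co.Lb2
import Pool.Agent.Lib.MP_849b2e_co.LbP

set_option maxRecDepth 100000
set_option linter.all false
namespace Pool.Agent.Lib.MP_849b2e_co

theorem b_n32  : Bd b_T b_G26 [39,40,41,42,43,44] :=
  r_apply lem_b2 [1,2,3,4,5,6] [] (by decide +kernel) b_o22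
theorem b_n31  : Bd b_T b_G25 [39,45,46,47,40,48,41,42,49,43,44] :=
  r_kill [45,46,47,48,49] ⟨50,[],[],[]⟩ b_G26 [39,40,41,42,43,44] (by decide +kernel) b_o21 b_n32
theorem b_n30  : Bd b_T b_G24 [39,29,30,31,40,33,41,42,36,43,44] :=
  r_hit [29,30,31,33,36] b_h30 ⟨45,[],[57,58,59,60,61],[]⟩ b_G25 [39,45,46,47,40,48,41,42,49,43,44] (by decide +kernel) b_o20 b_n31
theorem b_n29  : Bd b_T b_G23 [28,29,30,31,32,33,34,35,36,37,38] :=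
  r_hit [28,32,34,35,37,38] b_h29 ⟨39,[],[22,23,24,25,26,27,28,29,30,31,32,33,34,35,36,37,38,39,40,41,42,43,44,45,46,47,48,49,50,51,52,0,0,53,0,0,54,0,0,55,0,0,56],[]⟩ b_G24 [39,29,30,31,40,33,41,42,36,43,44] (by decide +kernel) b_o19 b_n30
theorem b_n28  : Bd b_T b_G22 [17,18,19,20,21,22,23,24,25,26,27] :=
  r_hit [17,18,19,20,21,22,23,24,25,26,27] b_h28 ⟨28,[],[0,0,0,0,0,17,0,0,0,0,0,0,0,0,0,18,0,0,0,0,0,0,0,0,19,0,0,0,0,0,0,0,0,0,20,0,0,0,0,0,0,0,21],[]⟩ b_G23 [28,29,30,31,32,33,34,35,36,37,38] (by decide +kernel) b_o18 b_n29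
theorem b_n27  : Bd b_T b_G22 [1] :=
  r_act [8,9] [17,18,19,20,21,22,23,24,25,26,27] (by decide +kernel) b_n28
theorem b_n26  : Bd b_T b_G21 [1] :=
  r_psplit 16 [] (PT.br 0 (PT.br 1 (PT.br 2 (PT.br 3 (PT.br 4 PT.kid PT.kid) (PT.br 4 PT.kid PT.ref)) (PT.br 3 (PT.br 4 PT.kid PT.kid) PT.ref)) (PT.br 2 (PT.br 3 (PT.br 4 PT.kid PT.kid) (PT.br 4 PT.kid PT.ref)) PT.ref)) (PT.br 1 (PT.br 2 (PT.br 3 (PT.br 4 PT.kid PT.ref) (PT.br 4 PT.kid PT.ref)) (PT.br 3 (PT.br 4 PT.kid PT.ref) PT.ref)) PT.ref)) ⟨17,[10],[],[]⟩ b_G22 [1] (by decide +kernel) b_o17 b_n27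
theorem b_n25  : Bd b_T b_G2 [1] :=
  r_psplit 1 [0,1,2,3,4] PT.kid ⟨16,[9],[],[]⟩ b_G21 [1] (by decide +kernel) b_o16 b_n26
theorem b_n24  : Bd b_T b_G20 [] :=
  r_empty (by decide +kernel) 
theorem b_n23  : Bd b_T b_G19 [14,15] :=
  r_close false 0 [1,5,6,7] [14,15] [0,0] [0,1,2,3,4,5,6] [0,0,0,0,0,0,0] 0 ⟨16,[],[],[]⟩ b_G20 [] (by decide +kernel) b_o15 b_n24
theorem b_n22  : Bd b_T b_G19 [6,7] :=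
  r_act [5,6,7] [14,15] (by decide +kernel) b_n23
theorem b_n21  : Bd b_T b_G18 [6,7] :=
  r_psplit 7 [] (PT.br 0 (PT.br 1 (PT.br 2 (PT.br 3 (PT.br 4 (PT.br 5 (PT.br 6 PT.kid PT.ref) PT.ref) PT.ref) PT.ref) PT.ref) PT.ref) PT.ref) ⟨15,[8],[],[]⟩ b_G19 [6,7] (by decide +kernel) b_o14 b_n22
theorem b_n20  : Bd b_T b_G17 [6,7] :=
  r_psplit 13 [] (PT.br 0 (PT.br 1 (PT.br 2 (PT.br 3 (PT.br 4 (PT.br 5 (PT.br 6 PT.kid PT.ref) PT.ref) PT.ref) PT.ref) PT.ref) PT.ref) PT.ref) ⟨14,[7],[],[]⟩ b_G18 [6,7] (by decide +kernel) b_o13 b_n21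
theorem b_n19  : Bd b_T b_G6 [6,7] :=
  r_psplit 6 [0,1,2,3,4,5,6] PT.kid ⟨13,[6],[],[]⟩ b_G17 [6,7] (by decide +kernel) b_o12 b_n20
theorem b_n18  : Bd b_T b_G16 [9] :=
  r_apply lem_D2 [0] [] (by decide +kernel) b_o11
theorem b_n17  : Bd b_T b_G15 [9,12] :=
  r_kill [12] ⟨13,[],[],[]⟩ b_G16 [9] (by decide +kernel) b_o10 b_n18
theorem b_n16  : Bd b_T b_G14 [9,10] :=
  r_hit [10] b_h16 ⟨12,[],[16],[]⟩ b_G15 [9,12] (by decide +kernel) b_o9 b_n17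
theorem b_n15  : Bd b_T b_G13 [9,10,11] :=
  r_close false 0 [1,2,3,4] [9,10,11] [0,0,0] [0] [0] 3 ⟨12,[],[],[]⟩ b_G14 [9,10] (by decide +kernel) b_o8 b_n16
theorem b_n14  : Bd b_T b_G13 [6,7] :=
  r_act [2,3,4] [9,10,11] (by decide +kernel) b_n15
theorem b_n13  : Bd b_T b_G12 [6,7] :=
  r_psplit 7 [] (PT.br 0 PT.kid PT.ref) ⟨11,[5],[],[]⟩ b_G13 [6,7] (by decide +kernel) b_o7 b_n14
theorem b_n12  : Bd b_T b_G11 [6,7] :=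
  r_psplit 8 [] (PT.br 0 PT.kid PT.kid) ⟨9,[4],[],[]⟩ b_G12 [6,7] (by decide +kernel) b_o6 b_n13
theorem b_n11  : Bd b_T b_G9 [6,7] :=
  r_psplit 6 [0] PT.kid ⟨8,[3],[],[]⟩ b_G11 [6,7] (by decide +kernel) b_o5 b_n12
theorem b_n10  : Bd b_T b_G10 [] :=
  r_empty (by decide +kernel) 
theorem b_n9  : Bd b_T b_G8 [6,7] :=
  r_kill [6,7] ⟨8,[],[],[]⟩ b_G10 [] (by decide +kernel) b_o4 b_n10
theorem b_n8  : Bd b_T b_G7 [6,7] :=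
  r_case [6] [] [] ⟨8,[],[15],[]⟩ b_G8 [6,7] b_G9 [6,7] (by decide +kernel) b_n9 b_n11
theorem b_n7  : Bd b_T b_G5 [6,7] :=
  r_learn [[6],[6],[6],[6],[6],[6],[6]] [⟨0,1,true⟩,⟨1,2,true⟩,⟨2,3,true⟩,⟨3,4,true⟩,⟨4,5,true⟩,⟨5,6,true⟩,⟨0,6,true⟩] ⟨8,[],[14],[]⟩ b_G7 [6,7] (by decide +kernel) b_o3 b_n8
theorem b_n6  : Bd b_T b_G4 [6,7] :=
  r_case [6,6,6,6,6,6,6] [⟨0,1,true⟩,⟨1,2,true⟩,⟨2,3,true⟩,⟨3,4,true⟩,⟨4,5,true⟩,⟨5,6,true⟩,⟨0,6,true⟩,⟨0,2,false⟩,⟨0,3,false⟩,⟨0,4,false⟩,⟨0,5,false⟩,⟨1,3,false⟩,⟨1,4,false⟩,⟨1,5,false⟩,⟨1,6,false⟩,⟨2,4,false⟩,⟨2,5,false⟩,⟨2,6,false⟩,⟨3,5,false⟩,⟨3,6,false⟩,⟨4,6,false⟩] [] ⟨8,[],[13],[]⟩ b_G5 [6,7] b_G6 [6,7] (by decide +kernel) b_n7 b_n19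
theorem b_n5  : Bd b_T b_G4 [1] :=
  r_act [1] [6,7] (by decide +kernel) b_n6
theorem b_n4  : Bd b_T b_G3 [4,5] :=
  r_apply lem_bP [1,2] [] (by decide +kernel) b_o2
theorem b_n3  : Bd b_T b_G3 [1] :=
  r_act [0] [4,5] (by decide +kernel) b_n4
theorem b_n2  : Bd b_T b_G1 [1] :=
  r_odd 1 ⟨4,[1],[4,5],[]⟩ b_G3 [1] ⟨6,[2],[6,7,8,9,10,11,12],[]⟩ b_G4 [1] (by decide +kernel) b_o1 b_n3 b_n5
theorem b_n1  : Bd b_T b_G0 [1] :=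
  r_case [1,1,1,1,1] [⟨0,1,true⟩,⟨1,2,true⟩,⟨2,3,true⟩,⟨3,4,true⟩,⟨4,0,true⟩,⟨0,2,false⟩,⟨0,3,false⟩,⟨1,3,false⟩,⟨1,4,false⟩,⟨2,4,false⟩] [] ⟨4,[],[3],[]⟩ b_G1 [1] b_G2 [1] (by decide +kernel) b_n2 b_n25
theorem b_n0  : Bd b_T (pureCtx 0 2) (pureAct 0) :=
  show Bd _ _ [0] from r_block [0] [1] [1] ⟨1,[],[],[1]⟩ b_G0 [1] (by decide +kernel) b_o0 b_n1
theorem lem_b  : Lem b_T 0 2 := ⟨by decide +kernel, b_n0⟩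

end Pool.Agent.Lib.MP_849b2e_co
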