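import Pool.Agent.Lib.MP_849b2e_co.Fast
import Pool.Agent.Lib.MP_849b2e_co.TbS113
import Pool.Agent.Lib.MP_849b2e_co.RApply

set_option maxRecDepth 100000
set_option linter.all false
namespace Pool.Agent.Lib.MP_849b2e_co

noncomputable def bS113_o0c : Pq := (Pq.cons (Pq.L [] 2 (Pf.C 1 256))
 (Pq.cons (Pq.L [] 2 (Pf.C 2 256))
 Pq.nil))
theorem bS113_o0 : AllRef bS113_T (pureCtx 2 3) (twinObl [1,2] 0 [2,1]) :=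
  chkPq_sound bS113_o0c _ (by decide +kernel)
noncomputable def bS113_o1c : Pq := (Pq.cons (Pq.L [] 1 (Pf.C 1 128))
 (Pq.cons (Pq.L [] 1 (Pf.C 2 128))
 (Pq.cons (Pq.L [] 1 (Pf.C 1 128))
 (Pq.cons (Pq.L [] 1 (Pf.C 2 128))
 Pq.nil))))
theorem bS113_o1 : AllRef bS113_T bS113_G0 (blockObl [3,4] [0,0] [2,1] [2,1]) :=
  chkPq_sound bS113_o1c _ (by decide +kernel)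
noncomputable def bS113_o2c : Pq := Pq.nil
theorem bS113_o2 : AllRef bS113_T bS113_G3 (extObl 11 [] []) :=
  chkPq_sound bS113_o2c _ (by decide +kernel)
noncomputable def bS113_o3c : Pq := Pq.nil
theorem bS113_o3 : AllRef bS113_T bS113_G4 (extObl 13 [] []) :=
  chkPq_sound bS113_o3c _ (by decide +kernel)
noncomputable def bS113_o4c : Pq := (Pq.cons (Pq.D 0 (Pq.cons (Pq.D 1 (Pq.cons (Pq.L [] 1 (Pf.C 1 128))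
 (Pq.cons (Pq.D 2 (Pq.cons (Pq.L [] 2 (Pf.C 1 256))
 (Pq.cons (Pq.D 3 (Pq.cons (Pq.L [] 4 (Pf.C 1 384))
 (Pq.cons (Pq.L [] 7 (Pf.C 7 0x608080))
 Pq.nil))) Pq.nil))) Pq.nil))) (Pq.cons (Pq.D 1 (Pq.cons (Pq.D 2 (Pq.cons (Pq.D 3 (Pq.cons (Pq.L [] 7 (Pf.C 9 0x608080))
 (Pq.cons (Pq.L [] 4 (Pf.C 2 384))
 Pq.nil))) (Pq.cons (Pq.L [] 2 (Pf.C 2 256))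
 Pq.nil))) (Pq.cons (Pq.L [] 1 (Pf.C 2 128))
 Pq.nil))) Pq.nil))) Pq.nil)
theorem bS113_o4 : AllRef bS113_T bS113_G6 (applyObl TD2 1 [12,14] [0,0] []) :=
  chkPq_sound bS113_o4c _ (by decide +kernel)
noncomputable def bS113_o5c : Pq := Pq.nil
theorem bS113_o5 : AllRef bS113_T bS113_G7 (ptObl 12 (PT.br 0 PT.kid PT.kid) []) :=
  chkPq_sound bS113_o5c _ (by decide +kernel)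
noncomputable def bS113_o6c : Pq := Pq.nil
theorem bS113_o6 : AllRef bS113_T bS113_G8 (ptObl 13 PT.kid []) :=
  chkPq_sound bS113_o6c _ (by decide +kernel)
noncomputable def bS113_o7c : Pq := (Pq.cons (Pq.L [0] 0 (Pf.C 2 1))
 Pq.nil)
theorem bS113_o7 : AllRef bS113_T bS113_G9 (ptObl 19 (PT.br 0 PT.kid PT.ref) []) :=
  chkPq_sound bS113_o7c _ (by decide +kernel)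
noncomputable def bS113_o8c : Pq := (Pq.cons (Pq.L [0] 0 (Pf.C 2 1))
 Pq.nil)
theorem bS113_o8 : AllRef bS113_T bS113_G10 (ptObl 14 (PT.br 0 PT.kid PT.ref) []) :=
  chkPq_sound bS113_o8c _ (by decide +kernel)
noncomputable def bS113_o9c : Pq := (Pq.cons (Pq.L [] 0 (Pf.X 0 1))
 (Pq.cons (Pq.L [] 1 (Pf.C 1 257))
 (Pq.cons (Pq.L [0] 1 (Pf.W 11 1 [] [0,2] (Pf.cons (Pf.B 3 2 (Pf.W 8 0 [3] [1,2] (Pf.cons (Pf.B 4 3 (Pf.B 4 2 (Pf.B 4 1 (Pf.T 4 1 (Pf.cons (Pf.T 4 3 (Pf.cons (Pf.W 8 0 [3,4] [1,2] (Pf.cons (Pf.B 5 4 (Pf.B 5 3 (Pf.B 5 2 (Pf.B 5 1 (Pf.C 0 0x1010610280) (Pf.C 9 0x608281)) (Pf.C 1 261)) (Pf.C 1 389)) (Pf.C 1 517)) Pf.nil)) Pf.nil)) Pf.nil)) (Pf.C 9 0x608201)) (Pf.C 1 260)) (Pf.C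 1 388)) Pf.nil)) (Pf.C 1 259)) Pf.nil)))
 (Pq.cons (Pq.L [] 0 (Pf.X 0 1))
 (Pq.cons (Pq.L [0] 1 (Pf.W 8 0 [1] [2] (Pf.cons (Pf.B 3 1 (Pf.B 3 2 (Pf.T 3 1 (Pf.cons (Pf.T 3 3 (Pf.cons (Pf.W 8 0 [1,3] [2] (Pf.cons (Pf.B 4 3 (Pf.B 4 1 (Pf.B 4 2 (Pf.T 4 1 (Pf.cons (Pf.T 4 3 (Pf.cons (Pf.W 8 2 [1] [0,3,4] (Pf.cons (Pf.B 5 4 (Pf.B 5 3 (Pf.B 5 1 (Pf.B 5 0 (Pf.C 0 0x2820210180) (Pf.T 5 1 (Pf.cons (Pf.T 5 3 (Pf.cons (Pf.W 3 641 [] [0,2] (Pf.cons (Pf.T 6 0 (Pf.cons (Pf.C 7 0x400301) (Pf.cons (Pf.C 5 134) Pf.nil))) (Pf.cons (Pf.T 6 0 (Pf.cons (Pf.C 7 0x400305) (Pf.cons (Pf.C 5 646) Pf.nil))) Pf.nil))) Pf.nil)) Pf.nil))) (Pf.C 1 133)) (Pf.C 1 389)) (Pf.C 1 517)) Pf.nil)) Pf.nil)) Pf.nil)) (Pf.T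 4 1 (Pf.cons (Pf.T 4 3 (Pf.cons (Pf.W 3 513 [] [0,2] (Pf.cons (Pf.T 5 0 (Pf.cons (Pf.C 7 0x400281) (Pf.cons (Pf.C 5 133) Pf.nil))) (Pf.cons (Pf.T 5 0 (Pf.cons (Pf.C 7 0x400284) (Pf.cons (Pf.C 5 517) Pf.nil))) Pf.nil))) Pf.nil)) Pf.nil))) (Pf.C 1 132)) (Pf.C 1 388)) Pf.nil)) Pf.nil)) Pf.nil)) (Pf.T 3 1 (Pf.cons (Pf.T 3 3 (Pf.cons (Pf.W 3 385 [] [0,2] (Pf.cons (Pf.T 4 0 (Pf.cons (Pf.C 7 0x400201) (Pf.cons (Pf.C 5 132) Pf.nil))) (Pf.cons (Pf.T 4 0 (Pf.cons (Pf.C 7 0x400203) (Pf.cons (Pf.C 5 388) Pf.nil))) Pf.nil))) Pf.nil)) Pf.nil))) (Pf.C 1 131)) Pf.nil)))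
 (Pq.cons (Pq.L [] 1 (Pf.C 2 257))
 (Pq.cons (Pq.L [] 0 (Pf.X 0 1))
 (Pq.cons (Pq.L [] 1 (Pf.C 12 130))
 (Pq.cons (Pq.L [] 1 (Pf.C 2 257))
 Pq.nil)))))))))
theorem bS113_o9 : AllRef bS113_T bS113_G12 (closeObl (bS113_T.sc.get 0) false [17,18,20,22,23] [0,0,1,1,1] [0] [1] 10) :=
  chkPq_sound bS113_o9c _ (by decide +kernel)
noncomputable def bS113_o10c : Pq := (Pq.cons (Pq.D 0 (Pq.cons (Pq.D 1 (Pq.cons (Pq.L [] 1 (Pf.C 1 257))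
 (Pq.cons (Pq.D 2 (Pq.cons (Pq.L [] 2 (Pf.C 1 385))
 (Pq.cons (Pq.L [0] 3 (Pf.C 7 0x608001))
 Pq.nil))) Pq.nil))) (Pq.cons (Pq.D 1 (Pq.cons (Pq.D 2 (Pq.cons (Pq.D 3 (Pq.cons (Pq.L [] 7 (Pf.C 9 0x80c101))
 (Pq.cons (Pq.L [] 4 (Pf.C 2 513))
 Pq.nil))) (Pq.cons (Pq.L [] 2 (Pf.C 2 385))
 Pq.nil))) (Pq.cons (Pq.L [] 1 (Pf.C 2 257))
 Pq.nil))) Pq.nil))) Pq.nil)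
theorem bS113_o10 : AllRef bS113_T bS113_G13 (applyObl TD2 1 [18,21] [0,0] []) :=
  chkPq_sound bS113_o10c _ (by decide +kernel)
noncomputable def bS113_o11c : Pq := Pq.nil
theorem bS113_o11 : AllRef bS113_T bS113_G5 (ptObl 11 PT.kid []) :=
  chkPq_sound bS113_o11c _ (by decide +kernel)
noncomputable def bS113_o12c : Pq := (Pq.cons (Pq.L [0] 0 (Pf.C 1 1))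
 Pq.nil)
theorem bS113_o12 : AllRef bS113_T bS113_G14 (ptObl 24 (PT.br 0 PT.kid PT.ref) []) :=
  chkPq_sound bS113_o12c _ (by decide +kernel)
noncomputable def bS113_o13c : Pq := (Pq.cons (Pq.L [0] 0 (Pf.C 1 1))
 Pq.nil)
theorem bS113_o13 : AllRef bS113_T bS113_G15 (ptObl 12 (PT.br 0 PT.kid PT.ref) []) :=
  chkPq_sound bS113_o13c _ (by decide +kernel)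
noncomputable def bS113_o14c : Pq := Pq.nil
theorem bS113_o14 : AllRef bS113_T bS113_G16 (ptObl 13 (PT.br 0 PT.kid PT.kid) []) :=
  chkPq_sound bS113_o14c _ (by decide +kernel)
noncomputable def bS113_o15c : Pq := Pq.nil
theorem bS113_o15 : AllRef bS113_T bS113_G17 (ptObl 14 (PT.br 0 PT.kid PT.kid) []) :=
  chkPq_sound bS113_o15c _ (by decide +kernel)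
noncomputable def bS113_o16c : Pq := (Pq.cons (Pq.L [] 0 (Pf.X 0 1))
 (Pq.cons (Pq.L [] 1 (Pf.C 1 257))
 (Pq.cons (Pq.L [] 1 (Pf.C 1 257))
 (Pq.cons (Pq.L [0] 1 (Pf.W 17 1 [] [0,2] (Pf.cons (Pf.B 3 2 (Pf.W 13 3 [] [0,1,2] (Pf.cons (Pf.B 4 2 (Pf.B 4 1 (Pf.W 6 0 [4] [1,2,3] (Pf.cons (Pf.B 5 4 (Pf.B 5 1 (Pf.B 5 3 (Pf.B 5 2 (Pf.W 10 16387 [] [4,5,2] (Pf.cons (Pf.T 5 11 (Pf.cons (Pf.W 6 0 [4,5] [1,2,3] (Pf.cons (Pf.B 6 5 (Pf.B 6 4 (Pf.B 6 1 (Pf.B 6 3 (Pf.C 0 0x830814300) (Pf.B 6 2 (Pf.W 6 2 [1] [0,3,4,5,6] (Pf.cons (Pf.B 7 6 (Pf.B 7 5 (Pf.B 7 4 (Pf.B 7 1 (Pf.B 7 3 (Pf.C 0 0x3820218203) (Pf.B 7 0 (Pf.C 0 0x2800804383) (Pf.C 0 0x820e14200))) (Pf.C 2 135)) (Pf.C 2 519)) (Pf.C 2 647)) (Pf.C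 2 775)) Pf.nil)) (Pf.C 0 0x820c14200))) (Pf.C 2 134)) (Pf.C 2 518)) (Pf.C 2 646)) Pf.nil)) Pf.nil)) (Pf.cons (Pf.B 6 5 (Pf.B 6 4 (Pf.B 6 1 (Pf.C 0 0x830814300) (Pf.C 2 134)) (Pf.C 2 518)) (Pf.C 2 646)) (Pf.cons (Pf.T 5 12 (Pf.cons (Pf.W 6 0 [4,5] [1,2,3] (Pf.cons (Pf.B 6 5 (Pf.B 6 4 (Pf.B 6 1 (Pf.B 6 3 (Pf.C 0 0x830814300) (Pf.B 6 2 (Pf.W 6 2 [1] [0,3,4,5,6] (Pf.cons (Pf.B 7 6 (Pf.B 7 5 (Pf.B 7 4 (Pf.B 7 1 (Pf.B 7 3 (Pf.C 0 0x3820218203) (Pf.B 7 0 (Pf.C 0 0x2800804383) (Pf.C 0 0x820e14200))) (Pf.C 2 135)) (Pf.C 2 519)) (Pf.C 2 647)) (Pf.C 2 775)) Pf.nil)) (Pf.C 0 0x820c14200))) (Pf.C 2 134)) (Pf.C 2 518)) (Pf.C 2 646)) Pf.nil)) Pf.nil)) (Pf.cons (Pf.B 6 5 (Pf.B 6 4 (Pf.B 6 1 (Pf.C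 0 0x830814300) (Pf.C 2 134)) (Pf.C 2 518)) (Pf.C 2 646)) Pf.nil))))) (Pf.W 10 16387 [] [4,5,2] (Pf.cons (Pf.T 5 11 (Pf.cons (Pf.C 14 642) Pf.nil)) (Pf.cons (Pf.B 6 5 (Pf.B 6 4 (Pf.B 6 1 (Pf.C 0 0x830814300) (Pf.C 2 134)) (Pf.C 2 518)) (Pf.C 2 646)) (Pf.cons (Pf.T 5 12 (Pf.cons (Pf.C 14 642) Pf.nil)) (Pf.cons (Pf.B 6 5 (Pf.B 6 4 (Pf.B 6 1 (Pf.C 0 0x830814300) (Pf.C 2 134)) (Pf.C 2 518)) (Pf.C 2 646)) Pf.nil)))))) (Pf.B 5 2 (Pf.W 4 644 [] [0,1,2,3] (Pf.cons (Pf.B 6 3 (Pf.B 6 2 (Pf.B 6 0 (Pf.B 6 1 (Pf.C 0 0x1010600304) (Pf.C 0 0x50608301)) (Pf.C 1 6)) (Pf.C 1 262)) (Pf.C 1 390)) (Pf.cons (Pf.B 6 3 (Pf.B 6 2 (Pf.B 6 0 (Pf.B 6 1 (Pf.C 0 0x1010600305) (Pf.C 0 0x40608301)) (Pf.C 1 6))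 (Pf.C 1 262)) (Pf.C 1 390)) Pf.nil))) (Pf.T 5 2 (Pf.cons (Pf.T 5 11 (Pf.cons (Pf.C 14 642) Pf.nil)) (Pf.cons (Pf.C 9 0x608005) Pf.nil))))) (Pf.C 2 133)) (Pf.C 2 517)) Pf.nil)) (Pf.C 2 132)) (Pf.C 14 514)) (Pf.cons (Pf.B 4 2 (Pf.B 4 1 (Pf.W 8 1 [2,3] [0,4] (Pf.cons (Pf.B 5 4 (Pf.B 5 3 (Pf.B 5 2 (Pf.B 5 0 (Pf.C 0 0x40608281) (Pf.C 1 5)) (Pf.C 1 261)) (Pf.C 1 389)) (Pf.C 9 0x600284)) Pf.nil)) (Pf.C 2 132)) (Pf.C 14 514)) Pf.nil))) (Pf.C 1 259)) Pf.nil)))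
 (Pq.cons (Pq.L [] 1 (Pf.C 14 130))
 (Pq.cons (Pq.L [0] 1 (Pf.W 19 1 [] [0,2] (Pf.cons (Pf.B 3 2 (Pf.W 13 3 [] [0,1,2] (Pf.cons (Pf.B 4 2 (Pf.B 4 1 (Pf.W 8 4 [0,3] [1,2] (Pf.cons (Pf.B 5 3 (Pf.B 5 2 (Pf.B 5 1 (Pf.B 5 0 (Pf.C 0 0x1010600284) (Pf.C 1 5)) (Pf.C 9 0x608281)) (Pf.C 1 261)) (Pf.C 1 389)) Pf.nil)) (Pf.C 2 132)) (Pf.C 14 514)) (Pf.cons (Pf.B 4 2 (Pf.B 4 1 (Pf.W 6 0 [4] [1,2,3] (Pf.cons (Pf.B 5 4 (Pf.B 5 1 (Pf.B 5 3 (Pf.B 5 2 (Pf.W 10 16387 [] [4,5,2] (Pf.cons (Pf.T 5 11 (Pf.cons (Pf.W 6 0 [4,5] [1,2,3] (Pf.cons (Pf.B 6 5 (Pf.B 6 4 (Pf.B 6 1 (Pf.B 6 3 (Pf.C 0 0x830814300) (Pf.B 6 2 (Pf.W 6 2 [1] [0,3,4,5,6] (Pf.cons (Pf.B 7 6 (Pf.B 7 5 (Pf.B 7 4 (Pf.B 7 1 (Pf.B 7 3 (Pf.C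 0 0x3820218203) (Pf.B 7 0 (Pf.C 0 0x2800804383) (Pf.C 0 0x820e14200))) (Pf.C 2 135)) (Pf.C 2 519)) (Pf.C 2 647)) (Pf.C 2 775)) Pf.nil)) (Pf.C 0 0x820c14200))) (Pf.C 2 134)) (Pf.C 2 518)) (Pf.C 2 646)) Pf.nil)) Pf.nil)) (Pf.cons (Pf.B 6 5 (Pf.B 6 4 (Pf.B 6 1 (Pf.C 0 0x830814300) (Pf.C 2 134)) (Pf.C 2 518)) (Pf.C 2 646)) (Pf.cons (Pf.T 5 12 (Pf.cons (Pf.W 6 0 [4,5] [1,2,3] (Pf.cons (Pf.B 6 5 (Pf.B 6 4 (Pf.B 6 1 (Pf.B 6 3 (Pf.C 0 0x830814300) (Pf.B 6 2 (Pf.W 6 2 [1] [0,3,4,5,6] (Pf.cons (Pf.B 7 6 (Pf.B 7 5 (Pf.B 7 4 (Pf.B 7 1 (Pf.B 7 3 (Pf.C 0 0x3820218203) (Pf.B 7 0 (Pf.C 0 0x2800804383) (Pf.C 0 0x820e14200))) (Pf.C 2 135)) (Pf.C 2 519)) (Pf.C 2 647)) (Pf.C 2 775)) Pf.nil)) (Pf.C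 0 0x820c14200))) (Pf.C 2 134)) (Pf.C 2 518)) (Pf.C 2 646)) Pf.nil)) Pf.nil)) (Pf.cons (Pf.B 6 5 (Pf.B 6 4 (Pf.B 6 1 (Pf.C 0 0x830814300) (Pf.C 2 134)) (Pf.C 2 518)) (Pf.C 2 646)) Pf.nil))))) (Pf.W 10 16387 [] [4,5,2] (Pf.cons (Pf.T 5 11 (Pf.cons (Pf.C 14 642) Pf.nil)) (Pf.cons (Pf.B 6 5 (Pf.B 6 4 (Pf.B 6 1 (Pf.C 0 0x830814300) (Pf.C 2 134)) (Pf.C 2 518)) (Pf.C 2 646)) (Pf.cons (Pf.T 5 12 (Pf.cons (Pf.C 14 642) Pf.nil)) (Pf.cons (Pf.B 6 5 (Pf.B 6 4 (Pf.B 6 1 (Pf.C 0 0x830814300) (Pf.C 2 134)) (Pf.C 2 518)) (Pf.C 2 646)) Pf.nil)))))) (Pf.B 5 2 (Pf.W 4 644 [] [0,1,2,3] (Pf.cons (Pf.B 6 3 (Pf.B 6 2 (Pf.B 6 0 (Pf.B 6 1 (Pf.C 0 0x1010600304) (Pf.C 0 0x50608301)) (Pf.C 1 6)) (Pf.C 1 262))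 (Pf.C 1 390)) (Pf.cons (Pf.B 6 3 (Pf.B 6 2 (Pf.B 6 0 (Pf.B 6 1 (Pf.C 0 0x1010600305) (Pf.C 0 0x40608301)) (Pf.C 1 6)) (Pf.C 1 262)) (Pf.C 1 390)) Pf.nil))) (Pf.T 5 2 (Pf.cons (Pf.T 5 11 (Pf.cons (Pf.C 14 642) Pf.nil)) (Pf.cons (Pf.C 9 0x608005) Pf.nil))))) (Pf.C 2 133)) (Pf.C 2 517)) Pf.nil)) (Pf.C 2 132)) (Pf.C 14 514)) Pf.nil))) (Pf.C 1 259)) Pf.nil)))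
 (Pq.cons (Pq.L [] 1 (Pf.C 14 130))
 (Pq.cons (Pq.L [] 0 (Pf.X 0 1))
 (Pq.cons (Pq.L [] 1 (Pf.C 1 257))
 (Pq.cons (Pq.L [] 1 (Pf.C 1 257))
 (Pq.cons (Pq.L [0] 1 (Pf.W 17 1 [] [0,2] (Pf.cons (Pf.B 3 2 (Pf.W 13 3 [] [0,1,2] (Pf.cons (Pf.B 4 2 (Pf.B 4 1 (Pf.W 6 0 [4] [1,2,3] (Pf.cons (Pf.B 5 4 (Pf.B 5 1 (Pf.B 5 3 (Pf.B 5 2 (Pf.W 10 16387 [] [4,5,2] (Pf.cons (Pf.T 5 11 (Pf.cons (Pf.W 6 0 [4,5] [1,2,3] (Pf.cons (Pf.B 6 5 (Pf.B 6 4 (Pf.B 6 1 (Pf.B 6 3 (Pf.C 0 0x830814300) (Pf.B 6 2 (Pf.W 4 772 [] [0,1,2,3] (Pf.cons (Pf.B 7 3 (Pf.B 7 2 (Pf.B 7 0 (Pf.B 7 1 (Pf.C 0 0x1010600384) (Pf.C 0 0x60608381)) (Pf.C 1 7)) (Pf.C 1 263)) (Pf.C 1 391)) (Pf.cons (Pf.B 7 3 (Pf.B 7 2 (Pf.B 7 0 (Pf.B 7 1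 (Pf.C 0 0x1010600386) (Pf.C 0 0x40608381)) (Pf.C 1 7)) (Pf.C 1 263)) (Pf.C 1 391)) Pf.nil))) (Pf.C 0 0x820c14200))) (Pf.C 2 134)) (Pf.C 2 518)) (Pf.C 2 646)) Pf.nil)) Pf.nil)) (Pf.cons (Pf.B 6 5 (Pf.B 6 4 (Pf.B 6 1 (Pf.C 0 0x830814300) (Pf.C 2 134)) (Pf.C 2 518)) (Pf.C 2 646)) (Pf.cons (Pf.T 5 12 (Pf.cons (Pf.W 6 0 [4,5] [1,2,3] (Pf.cons (Pf.B 6 5 (Pf.B 6 4 (Pf.B 6 1 (Pf.B 6 3 (Pf.C 0 0x830814300) (Pf.B 6 2 (Pf.W 4 772 [] [0,1,2,3] (Pf.cons (Pf.B 7 3 (Pf.B 7 2 (Pf.B 7 0 (Pf.B 7 1 (Pf.C 0 0x1010600384) (Pf.C 0 0x60608381)) (Pf.C 1 7)) (Pf.C 1 263)) (Pf.C 1 391)) (Pf.cons (Pf.B 7 3 (Pf.B 7 2 (Pf.B 7 0 (Pf.B 7 1 (Pf.C 0 0x1010600386) (Pf.C 0 0x40608381)) (Pf.C 1 7)) (Pf.C 1 263))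 (Pf.C 1 391)) Pf.nil))) (Pf.C 0 0x820c14200))) (Pf.C 2 134)) (Pf.C 2 518)) (Pf.C 2 646)) Pf.nil)) Pf.nil)) (Pf.cons (Pf.B 6 5 (Pf.B 6 4 (Pf.B 6 1 (Pf.C 0 0x830814300) (Pf.C 2 134)) (Pf.C 2 518)) (Pf.C 2 646)) Pf.nil))))) (Pf.W 6 0 [4,5] [1,2] (Pf.cons (Pf.B 6 5 (Pf.B 6 4 (Pf.B 6 2 (Pf.B 6 1 (Pf.C 0 0x820a10300) (Pf.C 2 134)) (Pf.C 7 0xa04302)) (Pf.C 2 518)) (Pf.C 2 646)) Pf.nil))) (Pf.B 5 2 (Pf.W 4 644 [] [0,1,2,3] (Pf.cons (Pf.B 6 3 (Pf.B 6 2 (Pf.B 6 0 (Pf.B 6 1 (Pf.C 0 0x1010600304) (Pf.C 0 0x50608301)) (Pf.C 1 6)) (Pf.C 1 262)) (Pf.C 1 390)) (Pf.cons (Pf.B 6 3 (Pf.B 6 2 (Pf.B 6 0 (Pf.B 6 1 (Pf.C 0 0x1010600305) (Pf.C 0 0x40608301)) (Pf.C 1 6)) (Pf.C 1 262)) (Pf.C 1 390)) Pf.nil)))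 (Pf.T 5 2 (Pf.cons (Pf.T 5 11 (Pf.cons (Pf.C 16 642) Pf.nil)) (Pf.cons (Pf.C 9 0x608005) Pf.nil))))) (Pf.C 2 133)) (Pf.C 2 517)) Pf.nil)) (Pf.C 2 132)) (Pf.C 16 514)) (Pf.cons (Pf.B 4 2 (Pf.B 4 1 (Pf.W 8 1 [2,3] [0,4] (Pf.cons (Pf.B 5 4 (Pf.B 5 3 (Pf.B 5 2 (Pf.B 5 0 (Pf.C 0 0x40608281) (Pf.C 1 5)) (Pf.C 1 261)) (Pf.C 1 389)) (Pf.C 9 0x600284)) Pf.nil)) (Pf.C 2 132)) (Pf.C 16 514)) Pf.nil))) (Pf.C 1 259)) Pf.nil)))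
 (Pq.cons (Pq.L [] 1 (Pf.C 16 130))
 (Pq.cons (Pq.L [0] 1 (Pf.W 19 1 [] [0,2] (Pf.cons (Pf.B 3 2 (Pf.W 13 3 [] [0,1,2] (Pf.cons (Pf.B 4 2 (Pf.B 4 1 (Pf.W 8 4 [0,3] [1,2] (Pf.cons (Pf.B 5 3 (Pf.B 5 2 (Pf.B 5 1 (Pf.B 5 0 (Pf.C 0 0x1010600284) (Pf.C 1 5)) (Pf.C 9 0x608281)) (Pf.C 1 261)) (Pf.C 1 389)) Pf.nil)) (Pf.C 2 132)) (Pf.C 16 514)) (Pf.cons (Pf.B 4 2 (Pf.B 4 1 (Pf.W 6 0 [4] [1,2,3] (Pf.cons (Pf.B 5 4 (Pf.B 5 1 (Pf.B 5 3 (Pf.B 5 2 (Pf.W 10 16387 [] [4,5,2] (Pf.cons (Pf.T 5 11 (Pf.cons (Pf.W 6 0 [4,5] [1,2,3] (Pf.cons (Pf.B 6 5 (Pf.B 6 4 (Pf.B 6 1 (Pf.B 6 3 (Pf.C 0 0x830814300) (Pf.B 6 2 (Pf.W 4 772 [] [0,1,2,3] (Pf.cons (Pf.B 7 3 (Pf.B 7 2 (Pf.B 7 0 (Pf.B 7 1 (Pf.C 0 0x1010600384)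 (Pf.C 0 0x60608381)) (Pf.C 1 7)) (Pf.C 1 263)) (Pf.C 1 391)) (Pf.cons (Pf.B 7 3 (Pf.B 7 2 (Pf.B 7 0 (Pf.B 7 1 (Pf.C 0 0x1010600386) (Pf.C 0 0x40608381)) (Pf.C 1 7)) (Pf.C 1 263)) (Pf.C 1 391)) Pf.nil))) (Pf.C 0 0x820c14200))) (Pf.C 2 134)) (Pf.C 2 518)) (Pf.C 2 646)) Pf.nil)) Pf.nil)) (Pf.cons (Pf.B 6 5 (Pf.B 6 4 (Pf.B 6 1 (Pf.C 0 0x830814300) (Pf.C 2 134)) (Pf.C 2 518)) (Pf.C 2 646)) (Pf.cons (Pf.T 5 12 (Pf.cons (Pf.W 6 0 [4,5] [1,2,3] (Pf.cons (Pf.B 6 5 (Pf.B 6 4 (Pf.B 6 1 (Pf.B 6 3 (Pf.C 0 0x830814300) (Pf.B 6 2 (Pf.W 4 772 [] [0,1,2,3] (Pf.cons (Pf.B 7 3 (Pf.B 7 2 (Pf.B 7 0 (Pf.B 7 1 (Pf.C 0 0x1010600384) (Pf.C 0 0x60608381)) (Pf.C 1 7)) (Pf.C 1 263)) (Pf.C 1 391)) (Pf.cons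 (Pf.B 7 3 (Pf.B 7 2 (Pf.B 7 0 (Pf.B 7 1 (Pf.C 0 0x1010600386) (Pf.C 0 0x40608381)) (Pf.C 1 7)) (Pf.C 1 263)) (Pf.C 1 391)) Pf.nil))) (Pf.C 0 0x820c14200))) (Pf.C 2 134)) (Pf.C 2 518)) (Pf.C 2 646)) Pf.nil)) Pf.nil)) (Pf.cons (Pf.B 6 5 (Pf.B 6 4 (Pf.B 6 1 (Pf.C 0 0x830814300) (Pf.C 2 134)) (Pf.C 2 518)) (Pf.C 2 646)) Pf.nil))))) (Pf.W 6 0 [4,5] [1,2] (Pf.cons (Pf.B 6 5 (Pf.B 6 4 (Pf.B 6 2 (Pf.B 6 1 (Pf.C 0 0x820a10300) (Pf.C 2 134)) (Pf.C 7 0xa04302)) (Pf.C 2 518)) (Pf.C 2 646)) Pf.nil))) (Pf.B 5 2 (Pf.W 4 644 [] [0,1,2,3] (Pf.cons (Pf.B 6 3 (Pf.B 6 2 (Pf.B 6 0 (Pf.B 6 1 (Pf.C 0 0x1010600304) (Pf.C 0 0x50608301)) (Pf.C 1 6)) (Pf.C 1 262)) (Pf.C 1 390)) (Pf.cons (Pf.B 6 3 (Pf.B 6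 2 (Pf.B 6 0 (Pf.B 6 1 (Pf.C 0 0x1010600305) (Pf.C 0 0x40608301)) (Pf.C 1 6)) (Pf.C 1 262)) (Pf.C 1 390)) Pf.nil))) (Pf.T 5 2 (Pf.cons (Pf.T 5 11 (Pf.cons (Pf.C 16 642) Pf.nil)) (Pf.cons (Pf.C 9 0x608005) Pf.nil))))) (Pf.C 2 133)) (Pf.C 2 517)) Pf.nil)) (Pf.C 2 132)) (Pf.C 16 514)) Pf.nil))) (Pf.C 1 259)) Pf.nil)))
 (Pq.cons (Pq.L [] 1 (Pf.C 16 130))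
 (Pq.cons (Pq.L [] 0 (Pf.X 0 1))
 (Pq.cons (Pq.L [] 1 (Pf.C 18 130))
 (Pq.cons (Pq.L [0] 1 (Pf.W 15 1 [] [0,2] (Pf.cons (Pf.B 3 2 (Pf.W 6 0 [3] [1,2] (Pf.cons (Pf.B 4 3 (Pf.B 4 2 (Pf.B 4 1 (Pf.W 6 0 [3,4] [1,2] (Pf.cons (Pf.B 5 4 (Pf.B 5 3 (Pf.B 5 2 (Pf.B 5 1 (Pf.C 0 0x1010610280) (Pf.C 7 0x608281)) (Pf.C 2 261)) (Pf.C 2 389)) (Pf.C 2 517)) Pf.nil)) (Pf.C 7 0x608201)) (Pf.C 2 260)) (Pf.C 2 388)) Pf.nil)) (Pf.C 2 259)) (Pf.cons (Pf.B 3 2 (Pf.W 6 0 [3] [1,2] (Pf.cons (Pf.B 4 3 (Pf.B 4 2 (Pf.B 4 1 (Pf.W 6 0 [3,4] [1,2] (Pf.cons (Pf.B 5 4 (Pf.B 5 3 (Pf.B 5 2 (Pf.B 5 1 (Pf.C 0 0x1010610280) (Pf.C 7 0x608281)) (Pf.C 2 261)) (Pf.C 2 389)) (Pf.C 2 517)) Pf.nil)) (Pf.C 7 0x608201)) (Pf.C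 2 260)) (Pf.C 2 388)) Pf.nil)) (Pf.C 2 259)) Pf.nil))))
 (Pq.cons (Pq.L [] 1 (Pf.C 2 257))
 (Pq.cons (Pq.L [] 1 (Pf.C 2 257))
 (Pq.cons (Pq.L [] 1 (Pf.C 2 257))
 (Pq.cons (Pq.L [] 1 (Pf.C 2 257))
 (Pq.cons (Pq.L [] 0 (Pf.X 0 1))
 (Pq.cons (Pq.L [] 1 (Pf.C 20 130))
 (Pq.cons (Pq.L [0] 1 (Pf.W 15 1 [] [0,2] (Pf.cons (Pf.B 3 2 (Pf.W 6 0 [3] [1,2] (Pf.cons (Pf.B 4 3 (Pf.B 4 2 (Pf.B 4 1 (Pf.W 6 0 [3,4] [1,2] (Pf.cons (Pf.B 5 4 (Pf.B 5 3 (Pf.B 5 2 (Pf.B 5 1 (Pf.C 0 0x1010610280) (Pf.C 7 0x608281)) (Pf.C 2 261)) (Pf.C 2 389)) (Pf.C 2 517)) Pf.nil)) (Pf.C 7 0x608201)) (Pf.C 2 260)) (Pf.C 2 388)) Pf.nil)) (Pf.C 2 259)) (Pf.cons (Pf.B 3 2 (Pf.W 6 0 [3] [1,2] (Pf.cons (Pf.B 4 3 (Pf.B 4 2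 (Pf.B 4 1 (Pf.W 6 0 [3,4] [1,2] (Pf.cons (Pf.B 5 4 (Pf.B 5 3 (Pf.B 5 2 (Pf.B 5 1 (Pf.C 0 0x1010610280) (Pf.C 7 0x608281)) (Pf.C 2 261)) (Pf.C 2 389)) (Pf.C 2 517)) Pf.nil)) (Pf.C 7 0x608201)) (Pf.C 2 260)) (Pf.C 2 388)) Pf.nil)) (Pf.C 2 259)) Pf.nil))))
 (Pq.cons (Pq.L [] 1 (Pf.C 2 257))
 (Pq.cons (Pq.L [] 1 (Pf.C 2 257))
 (Pq.cons (Pq.L [] 1 (Pf.C 2 257))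
 (Pq.cons (Pq.L [] 1 (Pf.C 2 257))
 Pq.nil))))))))))))))))))))))))))))
theorem bS113_o16 : AllRef bS113_T bS113_G22 (closeObl (bS113_T.sc.get 0) false [31,32,33,34,35,36,28,37,38,30] [0,0,0,0,1,1,1,1,1,1] [0] [0] 725) :=
  chkPq_sound bS113_o16c _ (by decide +kernel)
noncomputable def bS113_o17c : Pq := (Pq.cons (Pq.L [0] 1 (Pf.T 1 15 (Pf.cons (Pf.T 2 15 (Pf.cons (Pf.W 17 1 [] [0,2] (Pf.cons (Pf.B 3 2 (Pf.W 17 2 [] [0,1,3] (Pf.cons (Pf.B 4 3 (Pf.B 4 1 (Pf.W 13 3 [] [0,1,2,4] (Pf.cons (Pf.B 5 2 (Pf.B 5 1 (Pf.B 5 4 (Pf.W 13 4 [] [0,1,2,3,5] (Pf.cons (Pf.B 6 5 (Pf.B 6 2 (Pf.B 6 1 (Pf.B 6 3 (Pf.W 6 0 [5,6] [1,2,3,4] (Pf.cons (Pf.B 7 6 (Pf.B 7 5 (Pf.B 7 2 (Pf.B 7 4 (Pf.C 0 0x1040c14380)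 (Pf.B 7 3 (Pf.B 7 1 (Pf.C 0 0x830a18380) (Pf.C 2 135)) (Pf.C 0 0x2830e18104))) (Pf.C 2 263)) (Pf.C 2 647)) (Pf.C 2 775)) Pf.nil)) (Pf.C 0 0x1040c14083)) (Pf.C 2 134)) (Pf.C 2 262)) (Pf.C 2 646)) (Pf.cons (Pf.B 6 5 (Pf.B 6 3 (Pf.B 6 2 (Pf.B 6 1 (Pf.W 6 0 [5,6] [1,2,3,4] (Pf.cons (Pf.B 7 6 (Pf.B 7 5 (Pf.B 7 2 (Pf.B 7 4 (Pf.C 0 0x1040c14380) (Pf.B 7 3 (Pf.B 7 1 (Pf.C 0 0x830a18380) (Pf.C 2 135)) (Pf.C 0 0x2830e18104))) (Pf.C 2 263)) (Pf.C 2 647)) (Pf.C 2 775)) Pf.nil)) (Pf.C 2 134)) (Pf.C 2 262)) (Pf.C 9 0x800186)) (Pf.C 2 646)) Pf.nil))) (Pf.W 6 0 [5] [1,2,3,4] (Pf.cons (Pf.B 6 5 (Pf.B 6 2 (Pf.B 6 1 (Pf.B 6 4 (Pf.B 6 3 (Pf.W 10 16387 [] [5,6,2,4] (Pf.cons (Pf.T 6 11 (Pf.cons (Pf.W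 6 0 [5,6] [1,2,3,4] (Pf.cons (Pf.B 7 6 (Pf.B 7 5 (Pf.B 7 2 (Pf.B 7 4 (Pf.C 0 0x1040a18380) (Pf.B 7 1 (Pf.B 7 3 (Pf.C 0 0x830a18380) (Pf.T 7 2 (Pf.cons (Pf.T 7 11 (Pf.cons (Pf.W 8 1 [3] [0,2,4,5,6,7] (Pf.cons (Pf.B 8 4 (Pf.B 8 3 (Pf.B 8 0 (Pf.B 8 7 (Pf.C 0 0x4010610007) (Pf.B 8 5 (Pf.C 0 0x4010610005) (Pf.B 8 6 (Pf.B 8 2 (Pf.T 8 1 (Pf.cons (Pf.T 8 8 (Pf.cons (Pf.T 8 9 (Pf.cons (Pf.T 8 13 (Pf.cons (Pf.W 3 1027 [] [1,2,4,5] (Pf.cons (Pf.B 9 5 (Pf.B 9 2 (Pf.B 9 1 (Pf.B 9 4 (Pf.C 0 0x1040a04483) (Pf.C 0 0x880a08484)) (Pf.C 2 137)) (Pf.C 2 265)) (Pf.C 2 649)) (Pf.cons (Pf.B 9 5 (Pf.B 9 2 (Pf.B 9 1 (Pf.B 9 4 (Pf.C 0 0x1040a04488) (Pf.C 0 0x830a08484)) (Pf.C 2 137)) (Pf.C 2 265)) (Pf.C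 2 649)) Pf.nil))) Pf.nil)) Pf.nil)) Pf.nil)) (Pf.cons (Pf.C 7 0xe14088) Pf.nil))) (Pf.C 0 0x3000a04108)) (Pf.B 8 2 (Pf.C 0 0x1040a18088) (Pf.T 8 1 (Pf.cons (Pf.T 8 8 (Pf.cons (Pf.T 8 9 (Pf.cons (Pf.T 8 13 (Pf.cons (Pf.W 10 16392 [] [2,3,4,5,6] (Pf.cons (Pf.B 9 6 (Pf.B 9 5 (Pf.B 9 2 (Pf.B 9 4 (Pf.C 0 0x1040a18480) (Pf.B 9 3 (Pf.B 9 1 (Pf.C 0 0x830a18480) (Pf.C 2 137)) (Pf.C 0 0x4020800189))) (Pf.C 2 265)) (Pf.C 2 649)) (Pf.C 2 777)) (Pf.cons (Pf.B 9 6 (Pf.B 9 5 (Pf.B 9 2 (Pf.B 9 4 (Pf.C 0 0x1040a18480) (Pf.B 9 3 (Pf.B 9 1 (Pf.C 0 0x830a18480) (Pf.C 2 137)) (Pf.C 9 0x800189))) (Pf.C 2 265)) (Pf.C 2 649)) (Pf.C 2 777)) Pf.nil))) Pf.nil)) Pf.nil)) Pf.nil)) (Pf.cons (Pf.C 7 0xa08088)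 Pf.nil))))))) (Pf.C 1 8)) (Pf.C 1 392)) (Pf.C 1 520)) Pf.nil)) Pf.nil)) (Pf.cons (Pf.C 9 0x80c007) Pf.nil)))) (Pf.C 2 135))) (Pf.C 2 263)) (Pf.C 2 647)) (Pf.C 2 775)) Pf.nil)) Pf.nil)) (Pf.cons (Pf.B 7 6 (Pf.B 7 5 (Pf.B 7 1 (Pf.C 0 0x830a18380) (Pf.C 2 135)) (Pf.C 2 647)) (Pf.C 2 775)) (Pf.cons (Pf.T 6 12 (Pf.cons (Pf.W 6 0 [5,6] [1,2,3,4] (Pf.cons (Pf.B 7 6 (Pf.B 7 5 (Pf.B 7 2 (Pf.B 7 4 (Pf.C 0 0x1040a18380) (Pf.B 7 1 (Pf.B 7 3 (Pf.C 0 0x830a18380) (Pf.T 7 2 (Pf.cons (Pf.T 7 11 (Pf.cons (Pf.W 8 1 [3] [0,2,4,5,6,7] (Pf.cons (Pf.B 8 4 (Pf.B 8 3 (Pf.B 8 0 (Pf.B 8 7 (Pf.C 0 0x4010610007) (Pf.B 8 5 (Pf.C 0 0x4010610005) (Pf.B 8 6 (Pf.B 8 2 (Pf.T 8 1 (Pf.cons (Pf.T 8 8 (Pf.cons (Pf.T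 8 9 (Pf.cons (Pf.T 8 13 (Pf.cons (Pf.W 3 1027 [] [1,2,4,5] (Pf.cons (Pf.B 9 5 (Pf.B 9 2 (Pf.B 9 1 (Pf.B 9 4 (Pf.C 0 0x1040a04483) (Pf.C 0 0x880a08484)) (Pf.C 2 137)) (Pf.C 2 265)) (Pf.C 2 649)) (Pf.cons (Pf.B 9 5 (Pf.B 9 2 (Pf.B 9 1 (Pf.B 9 4 (Pf.C 0 0x1040a04488) (Pf.C 0 0x830a08484)) (Pf.C 2 137)) (Pf.C 2 265)) (Pf.C 2 649)) Pf.nil))) Pf.nil)) Pf.nil)) Pf.nil)) (Pf.cons (Pf.C 7 0xe14088) Pf.nil))) (Pf.C 0 0x3000a04108)) (Pf.B 8 2 (Pf.C 0 0x1040a18088) (Pf.T 8 1 (Pf.cons (Pf.T 8 8 (Pf.cons (Pf.T 8 9 (Pf.cons (Pf.T 8 13 (Pf.cons (Pf.W 8 1 [3,8] [0,6] (Pf.cons (Pf.B 9 8 (Pf.B 9 6 (Pf.B 9 3 (Pf.B 9 0 (Pf.C 0 0x6100c481) (Pf.C 1 9)) (Pf.C 1 393)) (Pf.C 9 0x1000486)) (Pf.C 1 1033))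 Pf.nil)) Pf.nil)) Pf.nil)) Pf.nil)) (Pf.cons (Pf.C 7 0xa08088) Pf.nil))))))) (Pf.C 1 8)) (Pf.C 1 392)) (Pf.C 1 520)) Pf.nil)) Pf.nil)) (Pf.cons (Pf.C 9 0x80c007) Pf.nil)))) (Pf.C 2 135))) (Pf.C 2 263)) (Pf.C 2 647)) (Pf.C 2 775)) Pf.nil)) Pf.nil)) (Pf.cons (Pf.B 7 6 (Pf.B 7 5 (Pf.B 7 1 (Pf.C 0 0x830a18380) (Pf.C 2 135)) (Pf.C 2 647)) (Pf.C 2 775)) Pf.nil))))) (Pf.C 0 0x1040a04303)) (Pf.B 6 3 (Pf.C 0 0x830a08304) (Pf.T 6 2 (Pf.cons (Pf.T 6 11 (Pf.cons (Pf.W 8 1 [3] [0,2,4,5,6] (Pf.cons (Pf.B 7 4 (Pf.B 7 3 (Pf.B 7 0 (Pf.B 7 6 (Pf.C 0 0x3810610006) (Pf.B 7 5 (Pf.C 0 0x3810610005) (Pf.B 7 2 (Pf.T 7 1 (Pf.cons (Pf.T 7 8 (Pf.cons (Pf.T 7 9 (Pf.cons (Pf.T 7 13 (Pf.cons (Pf.W 3 899 []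 [1,2,4,5] (Pf.cons (Pf.B 8 5 (Pf.B 8 2 (Pf.B 8 1 (Pf.B 8 4 (Pf.C 0 0x1040a04403) (Pf.C 0 0x870a08404)) (Pf.C 2 136)) (Pf.C 2 264)) (Pf.C 2 648)) (Pf.cons (Pf.B 8 5 (Pf.B 8 2 (Pf.B 8 1 (Pf.B 8 4 (Pf.C 0 0x1040a04407) (Pf.C 0 0x830a08404)) (Pf.C 2 136)) (Pf.C 2 264)) (Pf.C 2 648)) Pf.nil))) Pf.nil)) Pf.nil)) Pf.nil)) (Pf.cons (Pf.C 7 0xc14087) Pf.nil))) (Pf.T 7 1 (Pf.cons (Pf.T 7 8 (Pf.cons (Pf.T 7 9 (Pf.cons (Pf.T 7 13 (Pf.cons (Pf.W 10 16391 [] [2,5] (Pf.cons (Pf.B 8 5 (Pf.B 8 2 (Pf.B 8 1 (Pf.C 0 0x4000a08087) (Pf.C 2 136)) (Pf.C 2 264)) (Pf.C 2 648)) (Pf.cons (Pf.B 8 5 (Pf.B 8 2 (Pf.B 8 1 (Pf.C 0 0x4000a08087) (Pf.C 2 136)) (Pf.C 2 264)) (Pf.C 2 648)) Pf.nil))) Pf.nil)) Pf.nil))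 Pf.nil)) (Pf.cons (Pf.C 7 0xa08087) Pf.nil)))))) (Pf.C 1 7)) (Pf.C 1 391)) (Pf.C 1 519)) Pf.nil)) Pf.nil)) (Pf.cons (Pf.C 9 0x80c006) Pf.nil))))) (Pf.C 2 134)) (Pf.C 2 262)) (Pf.C 2 646)) Pf.nil))) (Pf.C 2 133)) (Pf.C 2 261)) (Pf.cons (Pf.B 5 4 (Pf.B 5 2 (Pf.B 5 1 (Pf.W 13 4 [] [0,1,2,3,5] (Pf.cons (Pf.B 6 5 (Pf.B 6 2 (Pf.B 6 1 (Pf.B 6 3 (Pf.W 6 0 [5,6] [1,2,3,4] (Pf.cons (Pf.B 7 6 (Pf.B 7 5 (Pf.B 7 2 (Pf.B 7 4 (Pf.C 0 0x1040c14380) (Pf.B 7 3 (Pf.B 7 1 (Pf.C 0 0x830a18380) (Pf.C 2 135)) (Pf.C 0 0x2830e18104))) (Pf.C 2 263)) (Pf.C 2 647)) (Pf.C 2 775)) Pf.nil)) (Pf.C 0 0x1040c14083)) (Pf.C 2 134)) (Pf.C 2 262)) (Pf.C 2 646)) (Pf.cons (Pf.B 6 5 (Pf.B 6 3 (Pf.B 6 2 (Pf.B 6 1 (Pf.W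 6 0 [5,6] [1,2,3,4] (Pf.cons (Pf.B 7 6 (Pf.B 7 5 (Pf.B 7 2 (Pf.B 7 4 (Pf.C 0 0x1040c14380) (Pf.B 7 3 (Pf.B 7 1 (Pf.C 0 0x830a18380) (Pf.C 2 135)) (Pf.C 0 0x2830e18104))) (Pf.C 2 263)) (Pf.C 2 647)) (Pf.C 2 775)) Pf.nil)) (Pf.C 2 134)) (Pf.C 2 262)) (Pf.C 9 0x800186)) (Pf.C 2 646)) Pf.nil))) (Pf.C 2 133)) (Pf.C 2 261)) (Pf.C 9 0x600205)) Pf.nil))) (Pf.W 13 3 [] [0,1,2,4] (Pf.cons (Pf.B 5 2 (Pf.B 5 1 (Pf.B 5 4 (Pf.W 13 4 [] [0,1,2,3,5] (Pf.cons (Pf.B 6 5 (Pf.B 6 2 (Pf.B 6 1 (Pf.C 0 0x2800c08084) (Pf.C 2 134)) (Pf.C 2 262)) (Pf.C 2 646)) (Pf.cons (Pf.B 6 5 (Pf.B 6 3 (Pf.B 6 2 (Pf.B 6 1 (Pf.C 0 0x2830208304) (Pf.C 2 134)) (Pf.C 2 262)) (Pf.C 9 0x800186)) (Pf.C 2 646)) Pf.nil))) (Pf.W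 10 16388 [] [2,5] (Pf.cons (Pf.B 6 5 (Pf.B 6 2 (Pf.B 6 1 (Pf.C 0 0x3000a08084) (Pf.C 2 134)) (Pf.C 2 262)) (Pf.C 2 646)) (Pf.cons (Pf.B 6 5 (Pf.B 6 2 (Pf.B 6 1 (Pf.C 0 0x3000a08084) (Pf.C 2 134)) (Pf.C 2 262)) (Pf.C 2 646)) Pf.nil)))) (Pf.C 2 133)) (Pf.C 2 261)) (Pf.cons (Pf.B 5 4 (Pf.B 5 2 (Pf.B 5 1 (Pf.W 13 4 [] [0,1,2,3,5] (Pf.cons (Pf.B 6 5 (Pf.B 6 2 (Pf.B 6 1 (Pf.C 0 0x2800c08084) (Pf.C 2 134)) (Pf.C 2 262)) (Pf.C 2 646)) (Pf.cons (Pf.B 6 5 (Pf.B 6 3 (Pf.B 6 2 (Pf.B 6 1 (Pf.C 0 0x2830208304) (Pf.C 2 134)) (Pf.C 2 262)) (Pf.C 9 0x800186)) (Pf.C 2 646)) Pf.nil))) (Pf.C 2 133)) (Pf.C 2 261)) (Pf.C 9 0x600205)) Pf.nil)))) (Pf.C 1 388)) Pf.nil)) (Pf.W 13 3 [] [0,1,2] (Pf.cons (Pf.B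 4 2 (Pf.B 4 1 (Pf.W 10 16387 [] [2,4] (Pf.cons (Pf.B 5 4 (Pf.B 5 2 (Pf.B 5 1 (Pf.C 0 0x2800808083) (Pf.C 2 133)) (Pf.C 2 261)) (Pf.C 2 517)) (Pf.cons (Pf.B 5 4 (Pf.B 5 2 (Pf.B 5 1 (Pf.C 0 0x2800808083) (Pf.C 2 133)) (Pf.C 2 261)) (Pf.C 2 517)) Pf.nil))) (Pf.C 2 132)) (Pf.C 2 260)) (Pf.cons (Pf.B 4 2 (Pf.B 4 1 (Pf.W 10 16387 [] [2,4] (Pf.cons (Pf.B 5 4 (Pf.B 5 2 (Pf.B 5 1 (Pf.C 0 0x2800808083) (Pf.C 2 133)) (Pf.C 2 261)) (Pf.C 2 517)) (Pf.cons (Pf.B 5 4 (Pf.B 5 2 (Pf.B 5 1 (Pf.C 0 0x2800808083) (Pf.C 2 133)) (Pf.C 2 261)) (Pf.C 2 517)) Pf.nil))) (Pf.C 2 132)) (Pf.C 2 260)) Pf.nil)))) Pf.nil)) Pf.nil)) Pf.nil)))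
 (Pq.cons (Pq.L [] 1 (Pf.C 2 257))
 Pq.nil))
theorem bS113_o17 : AllRef bS113_T bS113_G23 (hitObl [27] bS113_h32) :=
  chkPq_sound bS113_o17c _ (by decide +kernel)
noncomputable def bS113_o18c : Pq := (Pq.cons (Pq.L [] 0 (Pf.C 21 1))
 Pq.nil)
theorem bS113_o18 : AllRef bS113_T bS113_G24 (List.map pat1 [39]) :=
  chkPq_sound bS113_o18c _ (by decide +kernel)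
noncomputable def bS113_o19c : Pq := (Pq.cons (Pq.L [] 2 (Pf.C 1 385))
 (Pq.cons (Pq.L [] 2 (Pf.C 1 385))
 (Pq.cons (Pq.L [] 2 (Pf.C 1 385))
 (Pq.cons (Pq.L [] 2 (Pf.C 1 385))
 (Pq.cons (Pq.L [] 4 (Pf.C 23 259))
 (Pq.cons (Pq.L [0] 3 (Pf.T 1 14 (Pf.cons (Pf.T 2 14 (Pf.cons (Pf.T 3 16 (Pf.cons (Pf.W 19 3 [] [0,1,2] (Pf.cons (Pf.B 4 2 (Pf.B 4 1 (Pf.W 15 1 [] [0,2,3,4] (Pf.cons (Pf.B 5 3 (Pf.T 5 17 (Pf.cons (Pf.W 6 0 [5] [1,3] (Pf.cons (Pf.B 6 5 (Pf.B 6 3 (Pf.B 6 1 (Pf.W 6 0 [5,6] [1,3] (Pf.cons (Pf.B 7 6 (Pf.B 7 5 (Pf.B 7 3 (Pf.B 7 1 (Pf.C 0 0x1810a18380) (Pf.C 7 0xa0c381)) (Pf.C 2 391)) (Pf.C 2 647)) (Pf.C 2 775)) Pf.nil)) (Pf.C 7 0xa0c301)) (Pf.C 2 390)) (Pf.C 2 646)) Pf.nil))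 (Pf.cons (Pf.W 6 0 [5] [1,3] (Pf.cons (Pf.B 6 5 (Pf.B 6 3 (Pf.B 6 1 (Pf.W 6 0 [5,6] [1,3] (Pf.cons (Pf.B 7 6 (Pf.B 7 5 (Pf.B 7 3 (Pf.B 7 1 (Pf.C 0 0x1810a18380) (Pf.C 7 0xa0c381)) (Pf.C 2 391)) (Pf.C 2 647)) (Pf.C 2 775)) Pf.nil)) (Pf.C 7 0xa0c301)) (Pf.C 2 390)) (Pf.C 2 646)) Pf.nil)) Pf.nil))) (Pf.C 2 389)) (Pf.cons (Pf.B 5 4 (Pf.B 5 3 (Pf.B 5 2 (Pf.W 15 2 [] [0,1,3,4,5] (Pf.cons (Pf.B 6 5 (Pf.B 6 3 (Pf.B 6 1 (Pf.B 6 4 (Pf.W 13 4 [] [0,3,5,6] (Pf.cons (Pf.B 7 6 (Pf.B 7 5 (Pf.B 7 3 (Pf.C 0 0x1840e18280) (Pf.C 2 391)) (Pf.C 2 647)) (Pf.C 2 775)) (Pf.cons (Pf.B 7 6 (Pf.B 7 5 (Pf.B 7 3 (Pf.C 0 0x1840e18280) (Pf.C 2 391)) (Pf.C 2 647)) (Pf.C 2 775)) Pf.nil))) (Pf.C 0 0x850008206))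 (Pf.C 7 0xa0c301)) (Pf.C 2 390)) (Pf.C 2 646)) (Pf.cons (Pf.B 6 5 (Pf.B 6 4 (Pf.B 6 3 (Pf.W 13 4 [] [0,3,5,6] (Pf.cons (Pf.B 7 6 (Pf.B 7 5 (Pf.B 7 3 (Pf.C 0 0x1840e18280) (Pf.C 2 391)) (Pf.C 2 647)) (Pf.C 2 775)) (Pf.cons (Pf.B 7 6 (Pf.B 7 5 (Pf.B 7 3 (Pf.C 0 0x1840e18280) (Pf.C 2 391)) (Pf.C 2 647)) (Pf.C 2 775)) Pf.nil))) (Pf.C 2 390)) (Pf.C 9 0x400206)) (Pf.C 2 646)) Pf.nil))) (Pf.C 9 0x200105)) (Pf.C 2 389)) (Pf.C 9 0x200205)) Pf.nil))) (Pf.C 1 132)) (Pf.C 1 260)) Pf.nil)) Pf.nil)) Pf.nil)) Pf.nil)))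
 (Pq.cons (Pq.L [] 2 (Pf.C 2 385))
 (Pq.cons (Pq.L [] 2 (Pf.C 2 385))
 (Pq.cons (Pq.L [] 2 (Pf.C 2 385))
 (Pq.cons (Pq.L [] 2 (Pf.C 2 385))
 (Pq.cons (Pq.L [] 4 (Pf.C 23 386))
 (Pq.cons (Pq.L [] 2 (Pf.C 2 385))
 (Pq.cons (Pq.L [] 2 (Pf.C 2 385))
 (Pq.cons (Pq.L [] 2 (Pf.C 2 385))
 (Pq.cons (Pq.L [] 2 (Pf.C 2 385))
 (Pq.cons (Pq.L [0] 7 (Pf.T 1 16 (Pf.cons (Pf.T 2 16 (Pf.cons (Pf.T 3 14 (Pf.cons (Pf.W 19 1 [] [0,2,3] (Pf.cons (Pf.B 4 3 (Pf.B 4 2 (Pf.W 19 2 [] [0,1,3,4] (Pf.cons (Pf.B 5 4 (Pf.B 5 3 (Pf.B 5 1 (Pf.W 15 3 [] [0,1,2,4,5] (Pf.cons (Pf.B 6 2 (Pf.B 6 1 (Pf.B 6 5 (Pf.B 6 4 (Pf.W 8 6 [0,3] [1,4] (Pf.cons (Pf.B 7 4 (Pf.B 7 3 (Pf.B 7 1 (Pf.B 7 0 (Pf.C 0 0x2010600386) (Pf.C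 1 7)) (Pf.C 9 0x80c381)) (Pf.C 1 391)) (Pf.C 1 519)) Pf.nil)) (Pf.W 13 5 [] [0,1,3,4,6] (Pf.cons (Pf.B 7 6 (Pf.B 7 3 (Pf.B 7 4 (Pf.C 0 0x287000c206) (Pf.B 7 1 (Pf.C 0 0x1810814007) (Pf.C 2 135))) (Pf.C 7 0xc04383)) (Pf.C 2 775)) (Pf.cons (Pf.B 7 6 (Pf.B 7 4 (Pf.B 7 3 (Pf.C 0 0x2870010186) (Pf.C 7 0xc04383)) (Pf.C 9 0xa00207)) (Pf.C 2 775)) Pf.nil)))) (Pf.B 6 4 (Pf.C 0 0x2010614006) (Pf.W 6 4 [1,6] [2,3,5] (Pf.cons (Pf.B 7 6 (Pf.B 7 3 (Pf.B 7 2 (Pf.B 7 1 (Pf.B 7 5 (Pf.C 0 0x1050c04384) (Pf.C 0 0x830c08385)) (Pf.C 2 135)) (Pf.C 2 263)) (Pf.C 7 0xc04383)) (Pf.C 2 775)) Pf.nil)))) (Pf.C 2 134)) (Pf.C 2 262)) (Pf.cons (Pf.B 6 5 (Pf.B 6 4 (Pf.B 6 2 (Pf.W 13 4 [] [0,1,2,3,5,6] (Pf.cons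 (Pf.B 7 6 (Pf.B 7 3 (Pf.B 7 5 (Pf.B 7 2 (Pf.W 13 5 [] [0,2,6,7] (Pf.cons (Pf.B 8 7 (Pf.B 8 6 (Pf.B 8 2 (Pf.C 0 0x105101c300) (Pf.C 2 264)) (Pf.C 2 776)) (Pf.C 2 904)) (Pf.cons (Pf.B 8 7 (Pf.B 8 6 (Pf.B 8 2 (Pf.C 0 0x105101c300) (Pf.C 2 264)) (Pf.C 2 776)) (Pf.C 2 904)) Pf.nil))) (Pf.C 2 263)) (Pf.C 0 0x1860010287)) (Pf.C 7 0xc04383)) (Pf.C 2 775)) (Pf.cons (Pf.B 7 6 (Pf.B 7 5 (Pf.B 7 2 (Pf.W 13 5 [] [0,2,6,7] (Pf.cons (Pf.B 8 7 (Pf.B 8 6 (Pf.B 8 2 (Pf.C 0 0x105101c300) (Pf.C 2 264)) (Pf.C 2 776)) (Pf.C 2 904)) (Pf.cons (Pf.B 8 7 (Pf.B 8 6 (Pf.B 8 2 (Pf.C 0 0x105101c300) (Pf.C 2 264)) (Pf.C 2 776)) (Pf.C 2 904)) Pf.nil))) (Pf.C 2 263)) (Pf.C 9 0x800287)) (Pf.C 2 775)) Pf.nil)))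 (Pf.C 2 262)) (Pf.C 9 0x600206)) (Pf.C 9 0x600286)) Pf.nil))) (Pf.C 9 0x80c281)) (Pf.C 1 389)) (Pf.C 1 517)) Pf.nil)) (Pf.W 15 3 [] [0,1,2,4] (Pf.cons (Pf.B 5 2 (Pf.B 5 1 (Pf.B 5 4 (Pf.W 13 4 [] [1,2,3,5] (Pf.cons (Pf.B 6 5 (Pf.B 6 3 (Pf.B 6 2 (Pf.B 6 1 (Pf.C 0 0x2830208304) (Pf.C 2 134)) (Pf.C 2 262)) (Pf.C 7 0xa04303)) (Pf.C 2 646)) (Pf.cons (Pf.B 6 5 (Pf.B 6 3 (Pf.B 6 2 (Pf.B 6 1 (Pf.C 0 0x2830208304) (Pf.C 2 134)) (Pf.C 2 262)) (Pf.C 7 0xa04303)) (Pf.C 2 646)) Pf.nil))) (Pf.W 10 16388 [] [2,5] (Pf.cons (Pf.B 6 5 (Pf.B 6 2 (Pf.B 6 1 (Pf.C 0 0x3000a08084) (Pf.C 2 134)) (Pf.C 2 262)) (Pf.C 2 646)) (Pf.cons (Pf.B 6 5 (Pf.B 6 2 (Pf.B 6 1 (Pf.C 0 0x3000a08084) (Pf.C 2 134)) (Pf.C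 2 262)) (Pf.C 2 646)) Pf.nil)))) (Pf.C 2 133)) (Pf.C 2 261)) (Pf.cons (Pf.B 5 4 (Pf.B 5 2 (Pf.B 5 1 (Pf.W 13 4 [] [1,2,3,5] (Pf.cons (Pf.B 6 5 (Pf.B 6 3 (Pf.B 6 2 (Pf.B 6 1 (Pf.C 0 0x2830208304) (Pf.C 2 134)) (Pf.C 2 262)) (Pf.C 7 0xa04303)) (Pf.C 2 646)) (Pf.cons (Pf.B 6 5 (Pf.B 6 3 (Pf.B 6 2 (Pf.B 6 1 (Pf.C 0 0x2830208304) (Pf.C 2 134)) (Pf.C 2 262)) (Pf.C 7 0xa04303)) (Pf.C 2 646)) Pf.nil))) (Pf.C 2 133)) (Pf.C 2 261)) (Pf.C 9 0x600205)) Pf.nil)))) (Pf.C 1 388)) Pf.nil)) Pf.nil)) Pf.nil)) Pf.nil)))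
 (Pq.cons (Pq.L [] 2 (Pf.C 2 385))
 (Pq.cons (Pq.L [] 2 (Pf.C 2 385))
 (Pq.cons (Pq.L [] 2 (Pf.C 2 385))
 (Pq.cons (Pq.L [] 2 (Pf.C 2 385))
 (Pq.cons (Pq.L [] 2 (Pf.C 2 385))
 (Pq.cons (Pq.L [] 2 (Pf.C 2 385))
 (Pq.cons (Pq.L [] 2 (Pf.C 2 385))
 (Pq.cons (Pq.L [] 2 (Pf.C 2 385))
 Pq.nil))))))))))))))))))))))))
theorem bS113_o19 : AllRef bS113_T bS113_G26 (twinObl [25,26,40,41,29,30] 0 [60,36,3,1,1,3]) :=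
  chkPq_sound bS113_o19c _ (by decide +kernel)
noncomputable def bS113_o20c : Pq := (Pq.cons (Pq.L [] 1 (Pf.C 1 257))
 (Pq.cons (Pq.L [] 1 (Pf.C 1 257))
 (Pq.cons (Pq.L [] 1 (Pf.C 1 257))
 (Pq.cons (Pq.L [] 1 (Pf.C 1 257))
 (Pq.cons (Pq.L [] 1 (Pf.C 23 130))
 (Pq.cons (Pq.L [0] 1 (Pf.T 1 14 (Pf.cons (Pf.T 2 16 (Pf.cons (Pf.W 19 2 [] [0,1] (Pf.cons (Pf.B 3 1 (Pf.W 15 1 [] [0,2,3] (Pf.cons (Pf.B 4 2 (Pf.W 6 0 [4] [1,2] (Pf.cons (Pf.B 5 4 (Pf.B 5 2 (Pf.B 5 1 (Pf.W 6 0 [4,5] [1,2] (Pf.cons (Pf.B 6 5 (Pf.B 6 4 (Pf.B 6 2 (Pf.B 6 1 (Pf.C 0 0x1010814300) (Pf.C 7 0x808301)) (Pf.C 2 262)) (Pf.C 2 518)) (Pf.C 2 646)) Pf.nil)) (Pf.C 7 0x808281)) (Pf.C 2 261)) (Pf.C 2 517)) Pf.nil)) (Pf.C 2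 260)) (Pf.cons (Pf.B 4 3 (Pf.B 4 2 (Pf.W 13 3 [] [0,1,2,4] (Pf.cons (Pf.B 5 4 (Pf.B 5 2 (Pf.B 5 1 (Pf.W 6 0 [4,5] [1,2] (Pf.cons (Pf.B 6 5 (Pf.B 6 4 (Pf.B 6 2 (Pf.B 6 1 (Pf.C 0 0x1010814300) (Pf.C 7 0x808301)) (Pf.C 2 262)) (Pf.C 2 518)) (Pf.C 2 646)) Pf.nil)) (Pf.C 7 0x808281)) (Pf.C 2 261)) (Pf.C 2 517)) (Pf.cons (Pf.B 5 4 (Pf.B 5 2 (Pf.B 5 1 (Pf.W 6 0 [4,5] [1,2] (Pf.cons (Pf.B 6 5 (Pf.B 6 4 (Pf.B 6 2 (Pf.B 6 1 (Pf.C 0 0x1010814300) (Pf.C 7 0x808301)) (Pf.C 2 262)) (Pf.C 2 518)) (Pf.C 2 646)) Pf.nil)) (Pf.C 7 0x808281)) (Pf.C 2 261)) (Pf.C 2 517)) Pf.nil))) (Pf.C 2 260)) (Pf.C 9 0x200184)) Pf.nil))) (Pf.C 1 131)) Pf.nil)) Pf.nil)) Pf.nil)))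
 (Pq.cons (Pq.L [] 1 (Pf.C 2 257))
 (Pq.cons (Pq.L [] 1 (Pf.C 2 257))
 (Pq.cons (Pq.L [] 1 (Pf.C 2 257))
 (Pq.cons (Pq.L [] 1 (Pf.C 2 257))
 (Pq.cons (Pq.L [] 1 (Pf.C 23 257))
 (Pq.cons (Pq.L [] 1 (Pf.C 2 257))
 (Pq.cons (Pq.L [] 1 (Pf.C 2 257))
 (Pq.cons (Pq.L [] 1 (Pf.C 2 257))
 (Pq.cons (Pq.L [] 1 (Pf.C 2 257))
 (Pq.cons (Pq.L [0] 1 (Pf.T 1 16 (Pf.cons (Pf.T 2 14 (Pf.cons (Pf.W 19 1 [] [0,2] (Pf.cons (Pf.B 3 2 (Pf.W 15 2 [] [0,1,3] (Pf.cons (Pf.B 4 1 (Pf.W 6 0 [4] [1,2] (Pf.cons (Pf.B 5 4 (Pf.B 5 2 (Pf.B 5 1 (Pf.W 6 0 [4,5] [1,2] (Pf.cons (Pf.B 6 5 (Pf.B 6 4 (Pf.B 6 2 (Pf.B 6 1 (Pf.C 0 0x820814300) (Pf.C 2 134)) (Pf.C 7 0x804302)) (Pf.C 2 518)) (Pf.C 2 646)) Pf.nil)) (Pf.C 2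 133)) (Pf.C 7 0x804282)) (Pf.C 2 517)) Pf.nil)) (Pf.C 2 132)) (Pf.cons (Pf.B 4 3 (Pf.B 4 1 (Pf.W 13 3 [] [0,1,2,4] (Pf.cons (Pf.B 5 4 (Pf.B 5 2 (Pf.B 5 1 (Pf.W 6 0 [4,5] [1,2] (Pf.cons (Pf.B 6 5 (Pf.B 6 4 (Pf.B 6 2 (Pf.B 6 1 (Pf.C 0 0x820814300) (Pf.C 2 134)) (Pf.C 7 0x804302)) (Pf.C 2 518)) (Pf.C 2 646)) Pf.nil)) (Pf.C 2 133)) (Pf.C 7 0x804282)) (Pf.C 2 517)) (Pf.cons (Pf.B 5 4 (Pf.B 5 2 (Pf.B 5 1 (Pf.W 6 0 [4,5] [1,2] (Pf.cons (Pf.B 6 5 (Pf.B 6 4 (Pf.B 6 2 (Pf.B 6 1 (Pf.C 0 0x820814300) (Pf.C 2 134)) (Pf.C 7 0x804302)) (Pf.C 2 518)) (Pf.C 2 646)) Pf.nil)) (Pf.C 2 133)) (Pf.C 7 0x804282)) (Pf.C 2 517)) Pf.nil))) (Pf.C 2 132)) (Pf.C 9 0x400184)) Pf.nil))) (Pf.C 1 259)) Pf.nil))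 Pf.nil)) Pf.nil)))
 (Pq.cons (Pq.L [] 1 (Pf.C 2 257))
 (Pq.cons (Pq.L [] 1 (Pf.C 2 257))
 (Pq.cons (Pq.L [] 1 (Pf.C 2 257))
 (Pq.cons (Pq.L [] 1 (Pf.C 2 257))
 (Pq.cons (Pq.L [] 1 (Pf.C 2 257))
 (Pq.cons (Pq.L [] 1 (Pf.C 2 257))
 (Pq.cons (Pq.L [] 1 (Pf.C 2 257))
 (Pq.cons (Pq.L [] 1 (Pf.C 2 257))
 (Pq.cons (Pq.L [] 1 (Pf.C 1 257))
 (Pq.cons (Pq.L [] 1 (Pf.C 1 257))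
 (Pq.cons (Pq.L [] 1 (Pf.C 1 257))
 (Pq.cons (Pq.L [] 1 (Pf.C 1 257))
 (Pq.cons (Pq.L [] 1 (Pf.C 23 130))
 (Pq.cons (Pq.L [0] 1 (Pf.T 1 14 (Pf.cons (Pf.T 2 16 (Pf.cons (Pf.W 19 2 [] [0,1] (Pf.cons (Pf.B 3 1 (Pf.W 15 1 [] [0,2,3] (Pf.cons (Pf.B 4 2 (Pf.W 6 0 [4] [1,2] (Pf.cons (Pf.B 5 4 (Pf.B 5 2 (Pf.B 5 1 (Pf.W 6 0 [4,5] [1,2] (Pf.cons (Pf.B 6 5 (Pf.B 6 4 (Pf.B 6 2 (Pf.B 6 1 (Pf.C 0 0x1010814300) (Pf.C 7 0x808301)) (Pf.C 2 262)) (Pf.C 2 518)) (Pf.C 2 646)) Pf.nil)) (Pf.C 7 0x808281)) (Pf.C 2 261)) (Pf.C 2 517)) Pf.nil)) (Pf.C 2 260)) (Pf.cons (Pf.B 4 3 (Pf.B 4 2 (Pf.W 13 3 [] [0,1,2,4] (Pf.cons (Pf.B 5 4 (Pf.B 5 2 (Pf.B 5 1 (Pf.W 6 0 [4,5] [1,2] (Pf.cons (Pf.B 6 5 (Pf.B 6 4 (Pf.B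 6 2 (Pf.B 6 1 (Pf.C 0 0x1010814300) (Pf.C 7 0x808301)) (Pf.C 2 262)) (Pf.C 2 518)) (Pf.C 2 646)) Pf.nil)) (Pf.C 7 0x808281)) (Pf.C 2 261)) (Pf.C 2 517)) (Pf.cons (Pf.B 5 4 (Pf.B 5 2 (Pf.B 5 1 (Pf.W 6 0 [4,5] [1,2] (Pf.cons (Pf.B 6 5 (Pf.B 6 4 (Pf.B 6 2 (Pf.B 6 1 (Pf.C 0 0x1010814300) (Pf.C 7 0x808301)) (Pf.C 2 262)) (Pf.C 2 518)) (Pf.C 2 646)) Pf.nil)) (Pf.C 7 0x808281)) (Pf.C 2 261)) (Pf.C 2 517)) Pf.nil))) (Pf.C 2 260)) (Pf.C 9 0x200184)) Pf.nil))) (Pf.C 1 131)) Pf.nil)) Pf.nil)) Pf.nil)))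
 (Pq.cons (Pq.L [] 1 (Pf.C 2 257))
 (Pq.cons (Pq.L [] 1 (Pf.C 2 257))
 (Pq.cons (Pq.L [] 1 (Pf.C 2 257))
 (Pq.cons (Pq.L [] 1 (Pf.C 2 257))
 (Pq.cons (Pq.L [] 1 (Pf.C 23 257))
 (Pq.cons (Pq.L [] 1 (Pf.C 2 257))
 (Pq.cons (Pq.L [] 1 (Pf.C 2 257))
 (Pq.cons (Pq.L [] 1 (Pf.C 2 257))
 (Pq.cons (Pq.L [] 1 (Pf.C 2 257))
 (Pq.cons (Pq.L [0] 1 (Pf.T 1 16 (Pf.cons (Pf.T 2 14 (Pf.cons (Pf.W 19 1 [] [0,2] (Pf.cons (Pf.B 3 2 (Pf.W 15 2 [] [0,1,3] (Pf.cons (Pf.B 4 1 (Pf.W 6 0 [4] [1,2] (Pf.cons (Pf.B 5 4 (Pf.B 5 2 (Pf.B 5 1 (Pf.W 6 0 [4,5] [1,2] (Pf.cons (Pf.B 6 5 (Pf.B 6 4 (Pf.B 6 2 (Pf.B 6 1 (Pf.C 0 0x820814300) (Pf.C 2 134)) (Pf.C 7 0x804302)) (Pf.C 2 518)) (Pf.C 2 646)) Pf.nil)) (Pf.C 2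 133)) (Pf.C 7 0x804282)) (Pf.C 2 517)) Pf.nil)) (Pf.C 2 132)) (Pf.cons (Pf.B 4 3 (Pf.B 4 1 (Pf.W 13 3 [] [0,1,2,4] (Pf.cons (Pf.B 5 4 (Pf.B 5 2 (Pf.B 5 1 (Pf.W 6 0 [4,5] [1,2] (Pf.cons (Pf.B 6 5 (Pf.B 6 4 (Pf.B 6 2 (Pf.B 6 1 (Pf.C 0 0x820814300) (Pf.C 2 134)) (Pf.C 7 0x804302)) (Pf.C 2 518)) (Pf.C 2 646)) Pf.nil)) (Pf.C 2 133)) (Pf.C 7 0x804282)) (Pf.C 2 517)) (Pf.cons (Pf.B 5 4 (Pf.B 5 2 (Pf.B 5 1 (Pf.W 6 0 [4,5] [1,2] (Pf.cons (Pf.B 6 5 (Pf.B 6 4 (Pf.B 6 2 (Pf.B 6 1 (Pf.C 0 0x820814300) (Pf.C 2 134)) (Pf.C 7 0x804302)) (Pf.C 2 518)) (Pf.C 2 646)) Pf.nil)) (Pf.C 2 133)) (Pf.C 7 0x804282)) (Pf.C 2 517)) Pf.nil))) (Pf.C 2 132)) (Pf.C 9 0x400184)) Pf.nil))) (Pf.C 1 259)) Pf.nil))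 Pf.nil)) Pf.nil)))
 (Pq.cons (Pq.L [] 1 (Pf.C 2 257))
 (Pq.cons (Pq.L [] 1 (Pf.C 2 257))
 (Pq.cons (Pq.L [] 1 (Pf.C 2 257))
 (Pq.cons (Pq.L [] 1 (Pf.C 2 257))
 (Pq.cons (Pq.L [] 1 (Pf.C 2 257))
 (Pq.cons (Pq.L [] 1 (Pf.C 2 257))
 (Pq.cons (Pq.L [] 1 (Pf.C 2 257))
 (Pq.cons (Pq.L [] 1 (Pf.C 2 257))
 Pq.nil))))))))))))))))))))))))))))))))))))))))))))))))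
theorem bS113_o20 : AllRef bS113_T bS113_G27 (blockObl [42,43,44,45,46,47] [12,8,0,2,0,0] [60,36,3,1,1,3] [60,36,3,1,1,3]) :=
  chkPq_sound bS113_o20c _ (by decide +kernel)
noncomputable def bS113_o21c : Pq := Pq.nil
theorem bS113_o21 : AllRef bS113_T bS113_G28 (extObl 57 [] []) :=
  chkPq_sound bS113_o21c _ (by decide +kernel)
noncomputable def bS113_o22c : Pq := Pq.nil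
theorem bS113_o22 : AllRef bS113_T bS113_G29 (extObl 48 [] []) :=
  chkPq_sound bS113_o22c _ (by decide +kernel)
noncomputable def bS113_o23c : Pq := (Pq.cons (Pq.L [] 0 (Pf.T 1 16 (Pf.cons (Pf.W 28 1 [] [] Pf.nil) Pf.nil)))
 Pq.nil)
theorem bS113_o23 : AllRef bS113_T bS113_G31 (List.map pat1 [60]) :=
  chkPq_sound bS113_o23c _ (by decide +kernel)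
noncomputable def bS113_o24c : Pq := Pq.nil
theorem bS113_o24 : AllRef bS113_T bS113_G33 (extObl 54 [] []) :=
  chkPq_sound bS113_o24c _ (by decide +kernel)
noncomputable def bS113_o25c : Pq := (Pq.cons (Pq.D 0 (Pq.cons (Pq.D 1 (Pq.cons (Pq.L [] 1 (Pf.C 1 257))
 (Pq.cons (Pq.D 2 (Pq.cons (Pq.L [] 2 (Pf.C 1 385))
 (Pq.cons (Pq.L [0] 3 (Pf.B 3 2 (Pf.B 4 3 (Pf.B 4 2 (Pf.T 1 14 (Pf.cons (Pf.W 25 386 [] [0,1] (Pf.cons (Pf.C 9 0x200282) (Pf.cons (Pf.C 9 0x200283) (Pf.cons (Pf.C 9 0x200282) (Pf.cons (Pf.C 9 0x200283) Pf.nil))))) Pf.nil)) (Pf.T 1 14 (Pf.cons (Pf.W 25 386 [] [0,1] (Pf.cons (Pf.C 9 0x200282) (Pf.cons (Pf.C 9 0x200283) (Pf.cons (Pf.C 9 0x200282) (Pf.cons (Pf.C 9 0x200283)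 Pf.nil))))) Pf.nil))) (Pf.B 4 2 (Pf.T 1 14 (Pf.cons (Pf.W 25 386 [] [0,1] (Pf.cons (Pf.C 9 0x200282) (Pf.cons (Pf.C 9 0x200283) (Pf.cons (Pf.C 9 0x200282) (Pf.cons (Pf.C 9 0x200283) Pf.nil))))) Pf.nil)) (Pf.T 1 14 (Pf.cons (Pf.W 25 386 [] [0,1] (Pf.cons (Pf.C 9 0x200282) (Pf.cons (Pf.C 9 0x200283) (Pf.cons (Pf.C 9 0x200282) (Pf.cons (Pf.C 9 0x200283) Pf.nil))))) Pf.nil)))) (Pf.C 2 259)))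
 Pq.nil))) Pq.nil))) (Pq.cons (Pq.D 1 (Pq.cons (Pq.D 2 (Pq.cons (Pq.L [0] 3 (Pf.C 9 0x608001))
 (Pq.cons (Pq.L [] 2 (Pf.C 2 385))
 Pq.nil))) (Pq.cons (Pq.L [] 1 (Pf.C 2 257))
 Pq.nil))) Pq.nil))) Pq.nil)
theorem bS113_o25 : AllRef bS113_T bS113_G34 (applyObl TD2 1 [51,63] [0,0] []) :=
  chkPq_sound bS113_o25c _ (by decide +kernel)
noncomputable def bS113_o26c : Pq := Pq.nil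
theorem bS113_o26 : AllRef bS113_T bS113_G35 (ptObl 51 (PT.br 1 PT.kid PT.kid) []) :=
  chkPq_sound bS113_o26c _ (by decide +kernel)
noncomputable def bS113_o27c : Pq := Pq.nil
theorem bS113_o27 : AllRef bS113_T bS113_G36 (ptObl 54 PT.kid []) :=
  chkPq_sound bS113_o27c _ (by decide +kernel)
noncomputable def bS113_o28c : Pq := (Pq.cons (Pq.L [1] 0 (Pf.C 2 130))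
 Pq.nil)
theorem bS113_o28 : AllRef bS113_T bS113_G37 (ptObl 71 (PT.br 1 PT.kid PT.ref) []) :=
  chkPq_sound bS113_o28c _ (by decide +kernel)
noncomputable def bS113_o29c : Pq := (Pq.cons (Pq.L [1] 0 (Pf.C 2 130))
 Pq.nil)
theorem bS113_o29 : AllRef bS113_T bS113_G38 (ptObl 63 (PT.br 1 PT.kid PT.ref) []) :=
  chkPq_sound bS113_o29c _ (by decide +kernel)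
noncomputable def bS113_o30c : Pq := (Pq.cons (Pq.L [0,1] 0 (Pf.W 8 1 [0] [2] (Pf.cons (Pf.B 3 0 (Pf.B 3 2 (Pf.T 3 1 (Pf.cons (Pf.T 3 8 (Pf.cons (Pf.T 3 9 (Pf.cons (Pf.T 3 13 (Pf.cons (Pf.W 8 1 [0,3] [2] (Pf.cons (Pf.B 4 3 (Pf.B 4 0 (Pf.B 4 2 (Pf.T 4 1 (Pf.cons (Pf.T 4 8 (Pf.cons (Pf.T 4 9 (Pf.cons (Pf.T 4 13 (Pf.cons (Pf.W 22 1 [] [0,2,3,4] (Pf.cons (Pf.B 5 4 (Pf.B 5 3 (Pf.B 5 2 (Pf.T 5 14 (Pf.cons (Pf.W 15 5 [] [0,1,2,3,4] (Pf.cons (Pf.B 6 2 (Pf.B 6 1 (Pf.B 6 4 (Pf.B 6 3 (Pf.C 0 0x2860010181) (Pf.W 29 2 [] [0,1,3,4,5,6] (Pf.cons (Pf.B 7 5 (Pf.B 7 4 (Pf.B 7 3 (Pf.B 7 6 (Pf.C 0 0x3820014186) (Pf.B 7 1 (Pf.C 0 0x2010014386) (Pf.C 7 0xc08087))) (Pf.C 1 391)) (Pf.C 1 519)) (Pf.C 1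 647)) Pf.nil))) (Pf.W 29 2 [] [0,1,3,4,5,6] (Pf.cons (Pf.B 7 5 (Pf.B 7 4 (Pf.B 7 6 (Pf.C 0 0x3820014206) (Pf.B 7 3 (Pf.B 7 1 (Pf.C 0 0x3820010181) (Pf.C 7 0xc08087)) (Pf.C 1 391))) (Pf.C 1 519)) (Pf.C 1 647)) Pf.nil))) (Pf.C 2 134)) (Pf.C 2 262)) (Pf.cons (Pf.B 6 4 (Pf.B 6 3 (Pf.B 6 1 (Pf.C 0 0x2860010181) (Pf.C 2 134)) (Pf.C 9 0xa00186)) (Pf.C 9 0xa00206)) Pf.nil))) Pf.nil)) (Pf.C 0 0x2820010181)) (Pf.C 1 389)) (Pf.C 1 517)) Pf.nil)) Pf.nil)) Pf.nil)) Pf.nil)) (Pf.cons (Pf.T 4 10 (Pf.cons (Pf.T 4 14 (Pf.cons (Pf.W 22 1 [] [0,2,3,4] (Pf.cons (Pf.B 5 4 (Pf.B 5 3 (Pf.B 5 2 (Pf.T 5 14 (Pf.cons (Pf.W 15 5 [] [0,1,2,3,4] (Pf.cons (Pf.B 6 2 (Pf.B 6 1 (Pf.B 6 4 (Pf.B 6 3 (Pf.C 0 0x2860010181)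 (Pf.W 29 2 [] [0,1,3,4,5,6] (Pf.cons (Pf.B 7 5 (Pf.B 7 4 (Pf.B 7 3 (Pf.B 7 6 (Pf.C 0 0x3820014186) (Pf.B 7 1 (Pf.C 0 0x2010014386) (Pf.C 7 0xc08087))) (Pf.C 1 391)) (Pf.C 1 519)) (Pf.C 1 647)) Pf.nil))) (Pf.W 29 2 [] [0,1,3,4,5,6] (Pf.cons (Pf.B 7 5 (Pf.B 7 4 (Pf.B 7 6 (Pf.C 0 0x3820014206) (Pf.B 7 3 (Pf.B 7 1 (Pf.C 0 0x3820010181) (Pf.C 7 0xc08087)) (Pf.C 1 391))) (Pf.C 1 519)) (Pf.C 1 647)) Pf.nil))) (Pf.C 2 134)) (Pf.C 2 262)) (Pf.cons (Pf.B 6 4 (Pf.B 6 3 (Pf.B 6 1 (Pf.C 0 0x2860010181) (Pf.C 2 134)) (Pf.C 9 0xa00186)) (Pf.C 9 0xa00206)) Pf.nil))) Pf.nil)) (Pf.C 0 0x2820010181)) (Pf.C 1 389)) (Pf.C 1 517)) Pf.nil)) Pf.nil)) Pf.nil)) Pf.nil))) (Pf.W 29 2 [] [0,4,1,3] (Pf.cons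 (Pf.T 4 14 (Pf.cons (Pf.T 4 18 (Pf.cons (Pf.W 22 1 [] [0,2,3,4] (Pf.cons (Pf.B 5 4 (Pf.B 5 3 (Pf.B 5 2 (Pf.T 5 14 (Pf.cons (Pf.W 15 5 [] [0,1,2,3,4] (Pf.cons (Pf.B 6 4 (Pf.B 6 2 (Pf.B 6 3 (Pf.B 6 1 (Pf.C 0 0x2860010181) (Pf.C 2 134)) (Pf.C 0 0x2020014186)) (Pf.C 2 262)) (Pf.C 7 0x404304)) (Pf.cons (Pf.B 6 4 (Pf.B 6 3 (Pf.B 6 1 (Pf.C 0 0x2860010181) (Pf.C 2 134)) (Pf.C 9 0xa00186)) (Pf.C 7 0x404304)) Pf.nil))) Pf.nil)) (Pf.C 9 0x800282)) (Pf.C 1 389)) (Pf.C 1 517)) Pf.nil)) Pf.nil)) Pf.nil)) (Pf.cons (Pf.C 9 0x800282) Pf.nil)))) (Pf.C 1 4)) (Pf.C 1 388)) Pf.nil)) Pf.nil)) Pf.nil)) Pf.nil)) (Pf.cons (Pf.T 3 10 (Pf.cons (Pf.T 3 14 (Pf.cons (Pf.W 8 1 [0,3] [2] (Pf.cons (Pf.B 4 3 (Pf.B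 4 0 (Pf.B 4 2 (Pf.T 4 1 (Pf.cons (Pf.T 4 8 (Pf.cons (Pf.T 4 9 (Pf.cons (Pf.T 4 13 (Pf.cons (Pf.W 22 1 [] [0,2,3,4] (Pf.cons (Pf.B 5 4 (Pf.B 5 3 (Pf.B 5 2 (Pf.T 5 14 (Pf.cons (Pf.W 15 5 [] [0,1,2,3,4] (Pf.cons (Pf.B 6 2 (Pf.B 6 1 (Pf.B 6 4 (Pf.B 6 3 (Pf.C 0 0x2860010181) (Pf.W 29 2 [] [0,1,3,4,5,6] (Pf.cons (Pf.B 7 5 (Pf.B 7 4 (Pf.B 7 3 (Pf.B 7 6 (Pf.C 0 0x3820014186) (Pf.B 7 1 (Pf.C 0 0x2010014386) (Pf.C 7 0xc08087))) (Pf.C 1 391)) (Pf.C 1 519)) (Pf.C 1 647)) Pf.nil))) (Pf.W 29 2 [] [0,1,3,4,5,6] (Pf.cons (Pf.B 7 5 (Pf.B 7 4 (Pf.B 7 6 (Pf.C 0 0x3820014206) (Pf.B 7 3 (Pf.B 7 1 (Pf.C 0 0x3820010181) (Pf.C 7 0xc08087)) (Pf.C 1 391))) (Pf.C 1 519)) (Pf.C 1 647)) Pf.nil))) (Pf.C 2 134))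 (Pf.C 2 262)) (Pf.cons (Pf.B 6 4 (Pf.B 6 3 (Pf.B 6 1 (Pf.C 0 0x2860010181) (Pf.C 2 134)) (Pf.C 9 0xa00186)) (Pf.C 9 0xa00206)) Pf.nil))) Pf.nil)) (Pf.C 0 0x2820010181)) (Pf.C 1 389)) (Pf.C 1 517)) Pf.nil)) Pf.nil)) Pf.nil)) Pf.nil)) (Pf.cons (Pf.T 4 10 (Pf.cons (Pf.T 4 14 (Pf.cons (Pf.W 22 1 [] [0,2,3,4] (Pf.cons (Pf.B 5 4 (Pf.B 5 3 (Pf.B 5 2 (Pf.T 5 14 (Pf.cons (Pf.W 15 5 [] [0,1,2,3,4] (Pf.cons (Pf.B 6 2 (Pf.B 6 1 (Pf.B 6 4 (Pf.B 6 3 (Pf.C 0 0x2860010181) (Pf.W 29 2 [] [0,1,3,4,5,6] (Pf.cons (Pf.B 7 5 (Pf.B 7 4 (Pf.B 7 3 (Pf.B 7 6 (Pf.C 0 0x3820014186) (Pf.B 7 1 (Pf.C 0 0x2010014386) (Pf.C 7 0xc08087))) (Pf.C 1 391)) (Pf.C 1 519)) (Pf.C 1 647)) Pf.nil))) (Pf.W 29 2 [] [0,1,3,4,5,6]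 (Pf.cons (Pf.B 7 5 (Pf.B 7 4 (Pf.B 7 6 (Pf.C 0 0x3820014206) (Pf.B 7 3 (Pf.B 7 1 (Pf.C 0 0x3820010181) (Pf.C 7 0xc08087)) (Pf.C 1 391))) (Pf.C 1 519)) (Pf.C 1 647)) Pf.nil))) (Pf.C 2 134)) (Pf.C 2 262)) (Pf.cons (Pf.B 6 4 (Pf.B 6 3 (Pf.B 6 1 (Pf.C 0 0x2860010181) (Pf.C 2 134)) (Pf.C 9 0xa00186)) (Pf.C 9 0xa00206)) Pf.nil))) Pf.nil)) (Pf.C 0 0x2820010181)) (Pf.C 1 389)) (Pf.C 1 517)) Pf.nil)) Pf.nil)) Pf.nil)) Pf.nil))) (Pf.W 29 2 [] [0,4,1,3] (Pf.cons (Pf.T 4 14 (Pf.cons (Pf.T 4 18 (Pf.cons (Pf.W 22 1 [] [0,2,3,4] (Pf.cons (Pf.B 5 4 (Pf.B 5 3 (Pf.B 5 2 (Pf.T 5 14 (Pf.cons (Pf.W 15 5 [] [0,1,2,3,4] (Pf.cons (Pf.B 6 4 (Pf.B 6 2 (Pf.B 6 3 (Pf.B 6 1 (Pf.C 0 0x2860010181) (Pf.C 2 134))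 (Pf.C 0 0x2020014186)) (Pf.C 2 262)) (Pf.C 7 0x404304)) (Pf.cons (Pf.B 6 4 (Pf.B 6 3 (Pf.B 6 1 (Pf.C 0 0x2860010181) (Pf.C 2 134)) (Pf.C 9 0xa00186)) (Pf.C 7 0x404304)) Pf.nil))) Pf.nil)) (Pf.C 9 0x800282)) (Pf.C 1 389)) (Pf.C 1 517)) Pf.nil)) Pf.nil)) Pf.nil)) (Pf.cons (Pf.C 9 0x800282) Pf.nil)))) (Pf.C 1 4)) (Pf.C 1 388)) Pf.nil)) Pf.nil)) Pf.nil)) Pf.nil))) (Pf.W 29 2 [] [0,3,1] (Pf.cons (Pf.T 3 14 (Pf.cons (Pf.T 3 18 (Pf.cons (Pf.W 8 1 [0,3] [2] (Pf.cons (Pf.B 4 3 (Pf.B 4 2 (Pf.B 4 0 (Pf.T 4 1 (Pf.cons (Pf.T 4 8 (Pf.cons (Pf.T 4 9 (Pf.cons (Pf.T 4 13 (Pf.cons (Pf.W 22 1 [] [0,2,3,4] (Pf.cons (Pf.B 5 4 (Pf.B 5 3 (Pf.B 5 2 (Pf.T 5 14 (Pf.cons (Pf.W 15 5 [] [0,1,2,3,4] (Pf.cons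 (Pf.B 6 3 (Pf.B 6 2 (Pf.B 6 4 (Pf.B 6 1 (Pf.C 0 0x2860010181) (Pf.C 2 134)) (Pf.C 0 0x1820014206)) (Pf.C 2 262)) (Pf.C 7 0x404303)) (Pf.cons (Pf.B 6 4 (Pf.B 6 3 (Pf.B 6 1 (Pf.C 0 0x2860010181) (Pf.C 2 134)) (Pf.C 7 0x404303)) (Pf.C 9 0xa00206)) Pf.nil))) Pf.nil)) (Pf.C 9 0x600282)) (Pf.C 1 389)) (Pf.C 1 517)) Pf.nil)) Pf.nil)) Pf.nil)) Pf.nil)) (Pf.cons (Pf.T 4 10 (Pf.cons (Pf.T 4 14 (Pf.cons (Pf.W 22 1 [] [0,2,3,4] (Pf.cons (Pf.B 5 4 (Pf.B 5 3 (Pf.B 5 2 (Pf.T 5 14 (Pf.cons (Pf.W 15 5 [] [0,1,2,3,4] (Pf.cons (Pf.B 6 3 (Pf.B 6 2 (Pf.B 6 4 (Pf.B 6 1 (Pf.C 0 0x2860010181) (Pf.C 2 134)) (Pf.C 0 0x1820014206)) (Pf.C 2 262)) (Pf.C 7 0x404303)) (Pf.cons (Pf.B 6 4 (Pf.B 6 3 (Pf.B 6 1 (Pf.C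 0 0x2860010181) (Pf.C 2 134)) (Pf.C 7 0x404303)) (Pf.C 9 0xa00206)) Pf.nil))) Pf.nil)) (Pf.C 9 0x600282)) (Pf.C 1 389)) (Pf.C 1 517)) Pf.nil)) Pf.nil)) Pf.nil)) Pf.nil))) (Pf.C 1 4)) (Pf.C 9 0x600202)) (Pf.C 1 388)) Pf.nil)) Pf.nil)) Pf.nil)) (Pf.cons (Pf.C 9 0x600202) Pf.nil)))) (Pf.C 1 3)) Pf.nil)))
 Pq.nil)
theorem bS113_o30 : AllRef bS113_T bS113_G39 (List.map pat1 [73]) :=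
  chkPq_sound bS113_o30c _ (by decide +kernel)
noncomputable def bS113_o31c : Pq := (Pq.cons (Pq.L [] 0 (Pf.X 1 2))
 (Pq.cons (Pq.L [] 1 (Pf.C 1 386))
 (Pq.cons (Pq.L [] 1 (Pf.C 1 386))
 (Pq.cons (Pq.L [] 1 (Pf.C 36 259))
 (Pq.cons (Pq.L [] 0 (Pf.X 1 2))
 (Pq.cons (Pq.L [0,1] 1 (Pf.T 2 14 (Pf.cons (Pf.W 35 2 [] [0,1,3] (Pf.cons (Pf.B 4 3 (Pf.W 33 4 [] [0,1,2,3] (Pf.cons (Pf.B 5 3 (Pf.B 5 2 (Pf.T 5 14 (Pf.cons (Pf.W 8 1 [0,5] [2,3,4] (Pf.cons (Pf.B 6 5 (Pf.B 6 2 (Pf.B 6 0 (Pf.B 6 3 (Pf.C 0 0x1030014301) (Pf.B 6 4 (Pf.W 32 32900 [] [0,3,5,6] (Pf.cons (Pf.T 6 14 (Pf.cons (Pf.T 6 18 (Pf.cons (Pf.C 34 771) Pf.nil)) Pf.nil)) (Pf.cons (Pf.B 7 6 (Pf.B 7 5 (Pf.B 7 3 (Pf.B 7 2 (Pf.C 0 0x1030014381)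 (Pf.C 1 263)) (Pf.C 0 0x2840018383)) (Pf.C 1 647)) (Pf.C 1 775)) Pf.nil))) (Pf.T 6 1 (Pf.cons (Pf.T 6 8 (Pf.cons (Pf.T 6 9 (Pf.cons (Pf.T 6 13 (Pf.cons (Pf.W 22 4 [] [0,1,2,3,5,6] (Pf.cons (Pf.B 7 6 (Pf.B 7 5 (Pf.B 7 2 (Pf.B 7 3 (Pf.B 7 1 (Pf.T 7 14 (Pf.cons (Pf.W 15 7 [] [0,1,2,3,4,5,6] (Pf.cons (Pf.B 8 5 (Pf.B 8 4 (Pf.B 8 2 (Pf.C 0 0x3880014104) (Pf.C 7 0x80c402)) (Pf.C 2 520)) (Pf.C 7 0x804405)) (Pf.cons (Pf.B 8 6 (Pf.B 8 5 (Pf.B 8 4 (Pf.C 0 0x3880018284) (Pf.C 2 520)) (Pf.C 7 0x804405)) (Pf.C 9 0xe00308)) Pf.nil))) Pf.nil)) (Pf.C 0 0x1030014381)) (Pf.B 7 1 (Pf.C 0 0x2810008383) (Pf.T 7 14 (Pf.cons (Pf.W 32 32900 [] [0,3,5,7] (Pf.cons (Pf.T 7 18 (Pf.cons (Pf.C 34 899) Pf.nil))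 (Pf.cons (Pf.B 8 7 (Pf.B 8 5 (Pf.B 8 3 (Pf.B 8 2 (Pf.C 0 0x1030014401) (Pf.C 1 264)) (Pf.C 0 0x284001c403)) (Pf.C 1 648)) (Pf.C 1 904)) Pf.nil))) Pf.nil)))) (Pf.C 1 263)) (Pf.C 1 647)) (Pf.C 1 775)) Pf.nil)) Pf.nil)) Pf.nil)) Pf.nil)) (Pf.cons (Pf.C 7 0x80c086) Pf.nil))))) (Pf.C 1 6)) (Pf.C 1 262)) (Pf.C 1 646)) Pf.nil)) Pf.nil)) (Pf.C 1 261)) (Pf.C 34 643)) Pf.nil)) (Pf.C 2 388)) Pf.nil)) Pf.nil)))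
 (Pq.cons (Pq.L [] 1 (Pf.C 34 259))
 (Pq.cons (Pq.L [] 1 (Pf.C 2 386))
 Pq.nil))))))))
theorem bS113_o31 : AllRef bS113_T bS113_G42 (closeObl (bS113_T.sc.get 1) false [76,77,70,74,75] [1,1,1,2,2] [1] [2] 13) :=
  chkPq_sound bS113_o31c _ (by decide +kernel)
noncomputable def bS113_o32c : Pq := (Pq.cons (Pq.L [] 0 (Pf.T 2 22 (Pf.cons (Pf.W 33 2 [] [] (Pf.cons (Pf.C 38 386) Pf.nil)) Pf.nil)))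
 Pq.nil)
theorem bS113_o32 : AllRef bS113_T bS113_G44 (List.map pat1 [79]) :=
  chkPq_sound bS113_o32c _ (by decide +kernel)
noncomputable def bS113_o33c : Pq := (Pq.cons (Pq.L [] 0 (Pf.T 2 14 (Pf.cons (Pf.T 2 23 (Pf.cons (Pf.W 35 2 [] [] (Pf.cons (Pf.T 3 24 (Pf.cons (Pf.C 40 386) Pf.nil)) Pf.nil)) Pf.nil)) Pf.nil)))
 Pq.nil)
theorem bS113_o33 : AllRef bS113_T bS113_G46 (List.map pat1 [81]) :=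
  chkPq_sound bS113_o33c _ (by decide +kernel)
noncomputable def bS113_o34c : Pq := (Pq.cons (Pq.L [0,1] 1 (Pf.T 3 25 (Pf.cons (Pf.T 3 23 (Pf.cons (Pf.T 3 14 (Pf.cons (Pf.T 2 25 (Pf.cons (Pf.T 2 23 (Pf.cons (Pf.T 2 14 (Pf.cons (Pf.W 39 3 [] [0,1,2] (Pf.cons (Pf.B 4 2 (Pf.T 4 22 (Pf.cons (Pf.W 35 2 [] [0,1,3,4] (Pf.cons (Pf.B 5 4 (Pf.B 5 3 (Pf.W 33 4 [] [0,1,2,3,5] (Pf.cons (Pf.B 6 5 (Pf.B 6 3 (Pf.B 6 2 (Pf.C 0 0x105000c304) (Pf.C 1 262)) (Pf.C 1 390)) (Pf.C 7 0x804286)) Pf.nil)) (Pf.W 33 4 [] [0,1,2,3,5] (Pf.cons (Pf.B 6 5 (Pf.B 6 3 (Pf.B 6 2 (Pf.C 0 0x301000c105) (Pf.C 1 262)) (Pf.C 1 390)) (Pf.C 7 0x804286)) Pf.nil))) (Pf.C 2 517)) Pf.nil)) Pf.nil)) (Pf.T 4 22 (Pf.cons (Pf.W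 32 32900 [] [0,3] (Pf.cons (Pf.B 5 3 (Pf.B 5 2 (Pf.C 0 0x281000c104) (Pf.C 1 261)) (Pf.C 1 389)) Pf.nil)) Pf.nil))) Pf.nil)) Pf.nil)) Pf.nil)) Pf.nil)) Pf.nil)) Pf.nil)) Pf.nil)))
 (Pq.cons (Pq.L [] 1 (Pf.C 1 386))
 (Pq.cons (Pq.L [0,1] 7 (Pf.T 2 14 (Pf.cons (Pf.T 3 14 (Pf.cons (Pf.T 4 14 (Pf.cons (Pf.W 22 1 [] [0,2,3,4] (Pf.cons (Pf.B 5 4 (Pf.B 5 3 (Pf.B 5 2 (Pf.T 5 14 (Pf.cons (Pf.W 15 5 [] [0,1,2,3,4] (Pf.cons (Pf.B 6 1 (Pf.B 6 4 (Pf.B 6 3 (Pf.C 0 0x2860010181) (Pf.B 6 2 (Pf.C 0 0x2860010101) (Pf.W 24 386 [] [1,6] (Pf.cons (Pf.C 7 0xc04382) (Pf.cons (Pf.C 7 0xc04383) (Pf.cons (Pf.C 7 0xc04382) (Pf.cons (Pf.C 7 0xc04383) Pf.nil))))))) (Pf.B 6 3 (Pf.B 6 2 (Pf.C 0 0x286000c101)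 (Pf.W 24 386 [] [0,1,4,5,6] (Pf.cons (Pf.W 24 514 [] [1,6] (Pf.cons (Pf.C 7 0xc04382) (Pf.cons (Pf.C 7 0xc04384) (Pf.cons (Pf.C 7 0xc04382) (Pf.cons (Pf.C 7 0xc04384) Pf.nil))))) (Pf.cons (Pf.C 7 0xc04382) (Pf.cons (Pf.B 7 6 (Pf.B 7 4 (Pf.C 0 0x1870008206) (Pf.C 7 0xc04384)) (Pf.C 2 775)) (Pf.cons (Pf.C 7 0xc04382) (Pf.cons (Pf.B 7 6 (Pf.B 7 5 (Pf.C 0 0x1870008286) (Pf.C 9 0x600287)) (Pf.C 2 775)) Pf.nil))))))) (Pf.B 6 2 (Pf.W 24 386 [] [0,1,4,5,6] (Pf.cons (Pf.B 7 6 (Pf.B 7 4 (Pf.C 0 0x107000c206) (Pf.C 7 0xc04384)) (Pf.C 2 775)) (Pf.cons (Pf.W 24 515 [] [1,6] (Pf.cons (Pf.C 7 0xc04383) (Pf.cons (Pf.C 7 0xc04384) (Pf.cons (Pf.C 7 0xc04383) (Pf.cons (Pf.C 7 0xc04384) Pf.nil)))))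 (Pf.cons (Pf.C 7 0xc04383) (Pf.cons (Pf.B 7 6 (Pf.B 7 5 (Pf.C 0 0x107000c286) (Pf.C 9 0x400287)) (Pf.C 2 775)) (Pf.cons (Pf.C 7 0xc04383) Pf.nil)))))) (Pf.W 24 386 [] [1,6] (Pf.cons (Pf.C 7 0xc04382) (Pf.cons (Pf.C 7 0xc04383) (Pf.cons (Pf.C 7 0xc04382) (Pf.cons (Pf.C 7 0xc04383) Pf.nil)))))))) (Pf.C 2 134)) (Pf.cons (Pf.B 6 3 (Pf.B 6 2 (Pf.B 6 1 (Pf.C 0 0x286000c101) (Pf.C 2 134)) (Pf.C 9 0xa00106)) (Pf.C 9 0xa00186)) Pf.nil))) Pf.nil)) (Pf.C 1 261)) (Pf.C 1 389)) (Pf.C 1 517)) Pf.nil)) Pf.nil)) Pf.nil)) Pf.nil)))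
 (Pq.cons (Pq.L [] 1 (Pf.C 1 386))
 (Pq.cons (Pq.L [0,1] 7 (Pf.T 4 24 (Pf.cons (Pf.T 4 22 (Pf.cons (Pf.T 3 24 (Pf.cons (Pf.T 3 22 (Pf.cons (Pf.T 2 24 (Pf.cons (Pf.T 2 22 (Pf.cons (Pf.W 37 4 [] [0,1,2,3] (Pf.cons (Pf.B 5 3 (Pf.B 5 2 (Pf.T 5 14 (Pf.cons (Pf.W 37 3 [] [0,1,2,4,5] (Pf.cons (Pf.B 6 5 (Pf.B 6 4 (Pf.B 6 2 (Pf.T 6 14 (Pf.cons (Pf.W 33 2 [] [0,1,3,4,5,6] (Pf.cons (Pf.B 7 6 (Pf.B 7 5 (Pf.B 7 4 (Pf.B 7 3 (Pf.T 7 14 (Pf.cons (Pf.W 8 2 [0,7] [1,3,4,5,6] (Pf.cons (Pf.B 8 7 (Pf.B 8 6 (Pf.B 8 5 (Pf.B 8 1 (Pf.C 0 0x4020e18281) (Pf.B 8 0 (Pf.B 8 4 (Pf.C 0 0x284001c402) (Pf.B 8 3 (Pf.C 0 0x1860210108) (Pf.T 8 1 (Pf.cons (Pf.T 8 8 (Pf.cons (Pf.T 8 9 (Pf.cons (Pf.T 8 13 (Pf.cons (Pf.W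 22 1 [] [0,2,3,4,5,6,7,8] (Pf.cons (Pf.B 9 8 (Pf.B 9 7 (Pf.B 9 6 (Pf.B 9 5 (Pf.B 9 4 (Pf.B 9 3 (Pf.B 9 2 (Pf.T 9 14 (Pf.cons (Pf.W 15 9 [] [0,1,3,4,5,6,8] (Pf.cons (Pf.B 10 6 (Pf.B 10 5 (Pf.B 10 1 (Pf.C 0 0x48a0018281) (Pf.C 2 138)) (Pf.C 7 0x804505)) (Pf.C 7 0x604506)) (Pf.cons (Pf.B 10 8 (Pf.B 10 5 (Pf.B 10 4 (Pf.C 0 0x48a0020284) (Pf.C 2 522)) (Pf.C 7 0x804505)) (Pf.C 9 0x120040a)) Pf.nil))) Pf.nil)) (Pf.C 0 0x303001c482)) (Pf.C 0 0x2840018483)) (Pf.C 0 0x484001c301)) (Pf.C 1 649)) (Pf.C 1 777)) (Pf.C 1 905)) (Pf.C 1 1033)) Pf.nil)) Pf.nil)) Pf.nil)) Pf.nil)) (Pf.cons (Pf.C 7 0x608088) Pf.nil))))) (Pf.C 1 8))) (Pf.C 1 648)) (Pf.C 1 776)) (Pf.C 1 904)) Pf.nil)) Pf.nil)) (Pf.C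 7 0x404187)) (Pf.C 7 0x404207)) (Pf.C 1 647)) (Pf.C 1 775)) Pf.nil)) Pf.nil)) (Pf.C 7 0x604106)) (Pf.C 7 0x604206)) (Pf.C 1 646)) Pf.nil)) Pf.nil)) (Pf.C 7 0x804105)) (Pf.C 7 0x804185)) Pf.nil)) Pf.nil)) Pf.nil)) Pf.nil)) Pf.nil)) Pf.nil)) Pf.nil)))
 (Pq.cons (Pq.L [] 1 (Pf.C 2 386))
 Pq.nil))))))
theorem bS113_o34 : AllRef bS113_T bS113_G47 (hitObl [69,70,72] bS113_h62) :=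
  chkPq_sound bS113_o34c _ (by decide +kernel)
noncomputable def bS113_o35c : Pq := (Pq.cons (Pq.L [] 0 (Pf.C 41 2))
 (Pq.cons (Pq.L [] 0 (Pf.C 42 2))
 (Pq.cons (Pq.L [] 0 (Pf.C 43 2))
 Pq.nil)))
theorem bS113_o35 : AllRef bS113_T bS113_G48 (List.map pat1 [82,83,84]) :=
  chkPq_sound bS113_o35c _ (by decide +kernel)
noncomputable def bS113_o36c : Pq := Pq.nil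
theorem bS113_o36 : AllRef bS113_T bS113_G32 (ptObl 48 PT.kid []) :=
  chkPq_sound bS113_o36c _ (by decide +kernel)
noncomputable def bS113_o37c : Pq := (Pq.cons (Pq.L [1] 0 (Pf.C 1 130))
 Pq.nil)
theorem bS113_o37 : AllRef bS113_T bS113_G50 (ptObl 85 (PT.br 1 PT.kid PT.ref) []) :=
  chkPq_sound bS113_o37c _ (by decide +kernel)
noncomputable def bS113_o38c : Pq := (Pq.cons (Pq.L [1] 0 (Pf.C 1 130))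
 Pq.nil)
theorem bS113_o38 : AllRef bS113_T bS113_G51 (ptObl 51 (PT.br 1 PT.kid PT.ref) []) :=
  chkPq_sound bS113_o38c _ (by decide +kernel)
noncomputable def bS113_o39c : Pq := Pq.nil
theorem bS113_o39 : AllRef bS113_T bS113_G52 (ptObl 54 (PT.br 1 PT.kid PT.kid) []) :=
  chkPq_sound bS113_o39c _ (by decide +kernel)
noncomputable def bS113_o40c : Pq := Pq.nil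
theorem bS113_o40 : AllRef bS113_T bS113_G53 (ptObl 60 (PT.br 1 PT.kid PT.kid) []) :=
  chkPq_sound bS113_o40c _ (by decide +kernel)
noncomputable def bS113_o41c : Pq := Pq.nil
theorem bS113_o41 : AllRef bS113_T bS113_G54 (ptObl 63 (PT.br 1 PT.kid PT.kid) []) :=
  chkPq_sound bS113_o41c _ (by decide +kernel)
noncomputable def bS113_o42c : Pq := (Pq.cons (Pq.L [] 0 (Pf.X 1 2))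
 (Pq.cons (Pq.L [] 1 (Pf.C 1 386))
 (Pq.cons (Pq.L [] 1 (Pf.C 1 386))
 (Pq.cons (Pq.L [] 1 (Pf.C 1 386))
 (Pq.cons (Pq.L [0,1] 1 (Pf.T 1 13 (Pf.cons (Pf.T 3 14 (Pf.cons (Pf.W 13 1 [] [0,2,3] (Pf.cons (Pf.B 4 2 (Pf.B 4 3 (Pf.T 4 17 (Pf.cons (Pf.W 6 1 [4] [0,2,3] (Pf.cons (Pf.B 5 4 (Pf.B 5 2 (Pf.B 5 3 (Pf.T 5 2 (Pf.cons (Pf.T 5 11 (Pf.cons (Pf.T 5 15 (Pf.cons (Pf.W 6 1 [4,5] [0,2,3] (Pf.cons (Pf.B 6 5 (Pf.B 6 4 (Pf.B 6 2 (Pf.B 6 3 (Pf.B 6 0 (Pf.C 0 0x1000814301) (Pf.W 4 772 [] [0,1,2,3] (Pf.cons (Pf.B 7 3 (Pf.B 7 1 (Pf.B 7 0 (Pf.B 7 2 (Pf.C 0 0x1820004384) (Pf.C 0 0x86000c382)) (Pf.C 1 7)) (Pf.C 1 135)) (Pf.C 1 391)) (Pf.cons (Pf.B 7 3 (Pf.B 7 1 (Pf.B 7 0 (Pf.B 7 2 (Pf.C 0 0x1820004386)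 (Pf.C 0 0x84000c382)) (Pf.C 1 7)) (Pf.C 1 135)) (Pf.C 1 391)) Pf.nil)))) (Pf.C 0 0x1030c14201)) (Pf.C 2 262)) (Pf.C 2 518)) (Pf.C 2 646)) Pf.nil)) Pf.nil)) (Pf.cons (Pf.T 5 17 (Pf.cons (Pf.W 4 644 [] [0,1,2,3] (Pf.cons (Pf.B 6 3 (Pf.B 6 1 (Pf.B 6 0 (Pf.B 6 2 (Pf.C 0 0x1820004304) (Pf.C 0 0x85000c302)) (Pf.C 1 6)) (Pf.C 1 134)) (Pf.C 1 390)) (Pf.cons (Pf.B 6 3 (Pf.B 6 1 (Pf.B 6 0 (Pf.B 6 2 (Pf.C 0 0x1820004305) (Pf.C 0 0x84000c302)) (Pf.C 1 6)) (Pf.C 1 134)) (Pf.C 1 390)) Pf.nil))) (Pf.cons (Pf.C 23 389) Pf.nil))) Pf.nil))) (Pf.cons (Pf.T 5 12 (Pf.cons (Pf.T 5 16 (Pf.cons (Pf.W 6 1 [4,5] [0,2,3] (Pf.cons (Pf.B 6 5 (Pf.B 6 4 (Pf.B 6 2 (Pf.B 6 3 (Pf.B 6 0 (Pf.C 0 0x1000814301) (Pf.W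 4 772 [] [0,1,2,3] (Pf.cons (Pf.B 7 3 (Pf.B 7 1 (Pf.B 7 0 (Pf.B 7 2 (Pf.C 0 0x1820004384) (Pf.C 0 0x86000c382)) (Pf.C 1 7)) (Pf.C 1 135)) (Pf.C 1 391)) (Pf.cons (Pf.B 7 3 (Pf.B 7 1 (Pf.B 7 0 (Pf.B 7 2 (Pf.C 0 0x1820004386) (Pf.C 0 0x84000c382)) (Pf.C 1 7)) (Pf.C 1 135)) (Pf.C 1 391)) Pf.nil)))) (Pf.C 0 0x1030c14201)) (Pf.C 2 262)) (Pf.C 2 518)) (Pf.C 2 646)) Pf.nil)) Pf.nil)) (Pf.cons (Pf.W 8 2 [0,3] [1,5] (Pf.cons (Pf.B 6 5 (Pf.B 6 3 (Pf.B 6 1 (Pf.B 6 0 (Pf.C 0 0x85000c302) (Pf.C 1 6)) (Pf.C 1 134)) (Pf.C 1 390)) (Pf.C 9 0x200305)) Pf.nil)) Pf.nil))) Pf.nil))) (Pf.W 6 1 [4,5] [2,3] (Pf.cons (Pf.B 6 5 (Pf.B 6 4 (Pf.B 6 3 (Pf.B 6 2 (Pf.C 0 0x1030a10301) (Pf.C 2 262)) (Pf.C 7 0xa08303))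 (Pf.C 2 518)) (Pf.C 2 646)) Pf.nil))) (Pf.C 2 261)) (Pf.C 2 517)) Pf.nil)) (Pf.cons (Pf.C 23 388) Pf.nil))) (Pf.T 4 17 (Pf.cons (Pf.W 6 1 [4] [2,3] (Pf.cons (Pf.B 5 4 (Pf.B 5 3 (Pf.B 5 2 (Pf.W 6 1 [4,5] [2,3] (Pf.cons (Pf.B 6 5 (Pf.B 6 4 (Pf.B 6 3 (Pf.B 6 2 (Pf.C 0 0x1030814301) (Pf.C 2 262)) (Pf.C 7 0x808303)) (Pf.C 2 518)) (Pf.C 2 646)) Pf.nil)) (Pf.C 2 261)) (Pf.C 7 0x808283)) (Pf.C 2 517)) Pf.nil)) (Pf.cons (Pf.W 6 1 [4] [2,3] (Pf.cons (Pf.B 5 4 (Pf.B 5 3 (Pf.B 5 2 (Pf.W 6 1 [4,5] [2,3] (Pf.cons (Pf.B 6 5 (Pf.B 6 4 (Pf.B 6 3 (Pf.B 6 2 (Pf.C 0 0x1030814301) (Pf.C 2 262)) (Pf.C 7 0x808303)) (Pf.C 2 518)) (Pf.C 2 646)) Pf.nil)) (Pf.C 2 261)) (Pf.C 7 0x808283)) (Pf.C 2 517)) Pf.nil))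 Pf.nil)))) (Pf.C 2 260)) (Pf.cons (Pf.B 4 3 (Pf.B 4 2 (Pf.W 8 2 [0,3] [1,4] (Pf.cons (Pf.B 5 4 (Pf.B 5 3 (Pf.B 5 1 (Pf.B 5 0 (Pf.C 0 0x84000c282) (Pf.C 1 5)) (Pf.C 1 133)) (Pf.C 1 389)) (Pf.C 9 0x200284)) Pf.nil)) (Pf.C 2 260)) (Pf.C 9 0x200184)) Pf.nil))) Pf.nil)) Pf.nil)))
 (Pq.cons (Pq.L [] 1 (Pf.C 48 259))
 (Pq.cons (Pq.L [0] 1 (Pf.T 2 16 (Pf.cons (Pf.T 3 14 (Pf.cons (Pf.W 19 2 [] [0,3] (Pf.cons (Pf.B 4 3 (Pf.W 15 3 [] [0,2,4] (Pf.cons (Pf.B 5 2 (Pf.W 6 0 [5] [2,3] (Pf.cons (Pf.B 6 5 (Pf.B 6 3 (Pf.B 6 2 (Pf.W 6 0 [5,6] [2,3] (Pf.cons (Pf.B 7 6 (Pf.B 7 5 (Pf.B 7 3 (Pf.B 7 2 (Pf.C 0 0x1030a18380) (Pf.C 2 263)) (Pf.C 7 0xa08383)) (Pf.C 2 647)) (Pf.C 2 775)) Pf.nil)) (Pf.C 2 262))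 (Pf.C 7 0xa08303)) (Pf.C 2 646)) Pf.nil)) (Pf.C 2 261)) (Pf.cons (Pf.B 5 4 (Pf.B 5 2 (Pf.W 13 4 [] [0,2,3,5] (Pf.cons (Pf.B 6 5 (Pf.B 6 3 (Pf.B 6 2 (Pf.W 6 0 [5,6] [2,3] (Pf.cons (Pf.B 7 6 (Pf.B 7 5 (Pf.B 7 3 (Pf.B 7 2 (Pf.C 0 0x1030a18380) (Pf.C 2 263)) (Pf.C 7 0xa08383)) (Pf.C 2 647)) (Pf.C 2 775)) Pf.nil)) (Pf.C 2 262)) (Pf.C 7 0xa08303)) (Pf.C 2 646)) (Pf.cons (Pf.B 6 5 (Pf.B 6 3 (Pf.B 6 2 (Pf.W 6 0 [5,6] [2,3] (Pf.cons (Pf.B 7 6 (Pf.B 7 5 (Pf.B 7 3 (Pf.B 7 2 (Pf.C 0 0x1030a18380) (Pf.C 2 263)) (Pf.C 7 0xa08383)) (Pf.C 2 647)) (Pf.C 2 775)) Pf.nil)) (Pf.C 2 262)) (Pf.C 7 0xa08303)) (Pf.C 2 646)) Pf.nil))) (Pf.C 2 261)) (Pf.C 9 0x600205)) Pf.nil))) (Pf.C 1 388)) Pf.nil)) Pf.nil))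 Pf.nil)))
 (Pq.cons (Pq.L [0] 1 (Pf.T 2 16 (Pf.cons (Pf.T 3 14 (Pf.cons (Pf.W 19 2 [] [0,3] (Pf.cons (Pf.B 4 3 (Pf.W 15 3 [] [0,2,4] (Pf.cons (Pf.B 5 2 (Pf.W 6 0 [5] [2,3] (Pf.cons (Pf.B 6 5 (Pf.B 6 3 (Pf.B 6 2 (Pf.W 6 0 [5,6] [2,3] (Pf.cons (Pf.B 7 6 (Pf.B 7 5 (Pf.B 7 3 (Pf.B 7 2 (Pf.C 0 0x1030a18380) (Pf.C 2 263)) (Pf.C 7 0xa08383)) (Pf.C 2 647)) (Pf.C 2 775)) Pf.nil)) (Pf.C 2 262)) (Pf.C 7 0xa08303)) (Pf.C 2 646)) Pf.nil)) (Pf.C 2 261)) (Pf.cons (Pf.B 5 4 (Pf.B 5 2 (Pf.W 13 4 [] [0,2,3,5] (Pf.cons (Pf.B 6 5 (Pf.B 6 3 (Pf.B 6 2 (Pf.W 6 0 [5,6] [2,3] (Pf.cons (Pf.B 7 6 (Pf.B 7 5 (Pf.B 7 3 (Pf.B 7 2 (Pf.C 0 0x1030a18380) (Pf.C 2 263)) (Pf.C 7 0xa08383)) (Pf.C 2 647)) (Pf.C 2 775))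 Pf.nil)) (Pf.C 2 262)) (Pf.C 7 0xa08303)) (Pf.C 2 646)) (Pf.cons (Pf.B 6 5 (Pf.B 6 3 (Pf.B 6 2 (Pf.W 6 0 [5,6] [2,3] (Pf.cons (Pf.B 7 6 (Pf.B 7 5 (Pf.B 7 3 (Pf.B 7 2 (Pf.C 0 0x1030a18380) (Pf.C 2 263)) (Pf.C 7 0xa08383)) (Pf.C 2 647)) (Pf.C 2 775)) Pf.nil)) (Pf.C 2 262)) (Pf.C 7 0xa08303)) (Pf.C 2 646)) Pf.nil))) (Pf.C 2 261)) (Pf.C 9 0x600205)) Pf.nil))) (Pf.C 1 388)) Pf.nil)) Pf.nil)) Pf.nil)))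
 (Pq.cons (Pq.L [0,1] 1 (Pf.T 1 13 (Pf.cons (Pf.T 3 14 (Pf.cons (Pf.W 13 1 [] [0,2,3] (Pf.cons (Pf.B 4 2 (Pf.B 4 3 (Pf.T 4 17 (Pf.cons (Pf.W 8 4 [0,1] [2,3] (Pf.cons (Pf.B 5 3 (Pf.B 5 2 (Pf.B 5 1 (Pf.B 5 0 (Pf.C 0 0x1820004284) (Pf.C 1 5)) (Pf.C 1 133)) (Pf.C 9 0x600282)) (Pf.C 1 389)) Pf.nil)) (Pf.cons (Pf.C 23 388) Pf.nil))) (Pf.T 4 17 (Pf.cons (Pf.W 6 1 [4] [2,3] (Pf.cons (Pf.B 5 4 (Pf.B 5 3 (Pf.B 5 2 (Pf.W 6 1 [4,5] [2,3] (Pf.cons (Pf.B 6 5 (Pf.B 6 4 (Pf.B 6 3 (Pf.B 6 2 (Pf.C 0 0x1030814301) (Pf.C 2 262)) (Pf.C 7 0x808303)) (Pf.C 2 518)) (Pf.C 2 646)) Pf.nil)) (Pf.C 2 261)) (Pf.C 7 0x808283)) (Pf.C 2 517)) Pf.nil)) (Pf.cons (Pf.W 6 1 [4] [2,3] (Pf.cons (Pf.B 5 4 (Pf.B 5 3 (Pf.B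 5 2 (Pf.W 6 1 [4,5] [2,3] (Pf.cons (Pf.B 6 5 (Pf.B 6 4 (Pf.B 6 3 (Pf.B 6 2 (Pf.C 0 0x1030814301) (Pf.C 2 262)) (Pf.C 7 0x808303)) (Pf.C 2 518)) (Pf.C 2 646)) Pf.nil)) (Pf.C 2 261)) (Pf.C 7 0x808283)) (Pf.C 2 517)) Pf.nil)) Pf.nil)))) (Pf.C 2 260)) (Pf.cons (Pf.B 4 3 (Pf.B 4 2 (Pf.W 6 1 [4] [0,2,3] (Pf.cons (Pf.B 5 4 (Pf.B 5 2 (Pf.B 5 3 (Pf.T 5 2 (Pf.cons (Pf.T 5 11 (Pf.cons (Pf.T 5 15 (Pf.cons (Pf.W 6 1 [4,5] [0,2,3] (Pf.cons (Pf.B 6 5 (Pf.B 6 4 (Pf.B 6 2 (Pf.B 6 3 (Pf.B 6 0 (Pf.C 0 0x1000814301) (Pf.W 4 772 [] [0,1,2,3] (Pf.cons (Pf.B 7 3 (Pf.B 7 1 (Pf.B 7 0 (Pf.B 7 2 (Pf.C 0 0x1820004384) (Pf.C 0 0x86000c382)) (Pf.C 1 7)) (Pf.C 1 135)) (Pf.C 1 391)) (Pf.cons (Pf.B 7 3 (Pf.B 7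 1 (Pf.B 7 0 (Pf.B 7 2 (Pf.C 0 0x1820004386) (Pf.C 0 0x84000c382)) (Pf.C 1 7)) (Pf.C 1 135)) (Pf.C 1 391)) Pf.nil)))) (Pf.C 0 0x1030c14201)) (Pf.C 2 262)) (Pf.C 2 518)) (Pf.C 2 646)) Pf.nil)) Pf.nil)) (Pf.cons (Pf.T 5 17 (Pf.cons (Pf.W 8 5 [0,1] [2,3] (Pf.cons (Pf.B 6 3 (Pf.B 6 2 (Pf.B 6 1 (Pf.B 6 0 (Pf.C 0 0x1820004305) (Pf.C 1 6)) (Pf.C 1 134)) (Pf.C 9 0x600302)) (Pf.C 1 390)) Pf.nil)) (Pf.cons (Pf.C 23 389) Pf.nil))) Pf.nil))) (Pf.cons (Pf.T 5 12 (Pf.cons (Pf.T 5 16 (Pf.cons (Pf.W 6 1 [4,5] [0,2,3] (Pf.cons (Pf.B 6 5 (Pf.B 6 4 (Pf.B 6 2 (Pf.B 6 3 (Pf.B 6 0 (Pf.C 0 0x1000814301) (Pf.W 4 772 [] [0,1,2,3] (Pf.cons (Pf.B 7 3 (Pf.B 7 1 (Pf.B 7 0 (Pf.B 7 2 (Pf.C 0 0x1820004384) (Pf.C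 0 0x86000c382)) (Pf.C 1 7)) (Pf.C 1 135)) (Pf.C 1 391)) (Pf.cons (Pf.B 7 3 (Pf.B 7 1 (Pf.B 7 0 (Pf.B 7 2 (Pf.C 0 0x1820004386) (Pf.C 0 0x84000c382)) (Pf.C 1 7)) (Pf.C 1 135)) (Pf.C 1 391)) Pf.nil)))) (Pf.C 0 0x1030c14201)) (Pf.C 2 262)) (Pf.C 2 518)) (Pf.C 2 646)) Pf.nil)) Pf.nil)) (Pf.cons (Pf.W 4 644 [] [0,1,2,3] (Pf.cons (Pf.B 6 3 (Pf.B 6 1 (Pf.B 6 0 (Pf.B 6 2 (Pf.C 0 0x1820004304) (Pf.C 0 0x85000c302)) (Pf.C 1 6)) (Pf.C 1 134)) (Pf.C 1 390)) (Pf.cons (Pf.B 6 3 (Pf.B 6 1 (Pf.B 6 0 (Pf.B 6 2 (Pf.C 0 0x1820004305) (Pf.C 0 0x84000c302)) (Pf.C 1 6)) (Pf.C 1 134)) (Pf.C 1 390)) Pf.nil))) Pf.nil))) Pf.nil))) (Pf.W 6 1 [4,5] [2,3] (Pf.cons (Pf.B 6 5 (Pf.B 6 4 (Pf.B 6 3 (Pf.B 6 2 (Pf.C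 0 0x1030a10301) (Pf.C 2 262)) (Pf.C 7 0xa08303)) (Pf.C 2 518)) (Pf.C 2 646)) Pf.nil))) (Pf.C 2 261)) (Pf.C 2 517)) Pf.nil)) (Pf.C 2 260)) (Pf.C 9 0x200184)) Pf.nil))) Pf.nil)) Pf.nil)))
 (Pq.cons (Pq.L [0,1] 1 (Pf.C 9 0x604002))
 Pq.nil))))))))))
theorem bS113_o42 : AllRef bS113_T bS113_G57 (closeObl (bS113_T.sc.get 1) false [94,95,96,97,88,89,90,91,92,93] [0,0,1,1,2,2,4,4,5,5] [1] [0] 1015) :=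
  chkPq_sound bS113_o42c _ (by decide +kernel)
noncomputable def bS113_o43c : Pq := (Pq.cons (Pq.L [] 0 (Pf.X 1 2))
 (Pq.cons (Pq.L [] 1 (Pf.C 1 386))
 (Pq.cons (Pq.L [] 1 (Pf.C 1 386))
 (Pq.cons (Pq.L [0,1] 1 (Pf.T 3 13 (Pf.cons (Pf.T 1 13 (Pf.cons (Pf.W 49 2 [] [0,1,3] (Pf.cons (Pf.B 4 3 (Pf.T 4 13 (Pf.cons (Pf.W 44 4 [] [0,1,2,3] (Pf.cons (Pf.B 5 3 (Pf.C 45 643) (Pf.B 5 2 (Pf.C 0 0x202000c085) (Pf.C 2 261))) (Pf.cons (Pf.B 5 2 (Pf.W 8 2 [0,4] [1,5] (Pf.cons (Pf.B 6 5 (Pf.B 6 4 (Pf.B 6 1 (Pf.B 6 0 (Pf.C 0 0x850800302) (Pf.C 1 6)) (Pf.C 1 134)) (Pf.C 1 518)) (Pf.C 9 0x804305)) Pf.nil)) (Pf.C 2 261)) Pf.nil))) Pf.nil)) (Pf.C 1 388)) Pf.nil)) Pf.nil)) Pf.nil)))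
 (Pq.cons (Pq.L [] 1 (Pf.C 45 259))
 (Pq.cons (Pq.L [] 1 (Pf.C 46 259))
 (Pq.cons (Pq.L [0] 1 (Pf.W 51 2 [] [0,3] (Pf.cons (Pf.C 9 0x600202) Pf.nil)))
 (Pq.cons (Pq.L [0,1] 1 (Pf.C 9 0x604002))
 (Pq.cons (Pq.L [] 0 (Pf.X 1 2))
 (Pq.cons (Pq.L [] 1 (Pf.C 50 259))
 (Pq.cons (Pq.L [1] 1 (Pf.T 1 13 (Pf.cons (Pf.T 2 14 (Pf.cons (Pf.W 47 2 [] [1,3] (Pf.cons (Pf.B 4 3 (Pf.W 6 1 [4] [2,3] (Pf.cons (Pf.B 5 4 (Pf.B 5 3 (Pf.B 5 2 (Pf.W 6 1 [4,5] [2,3] (Pf.cons (Pf.B 6 5 (Pf.B 6 4 (Pf.B 6 3 (Pf.B 6 2 (Pf.C 0 0x1820814301) (Pf.C 7 0x80c302)) (Pf.C 2 390)) (Pf.C 2 518)) (Pf.C 2 646)) Pf.nil)) (Pf.C 7 0x80c282)) (Pf.C 2 389)) (Pf.C 2 517)) Pf.nil)) (Pf.C 2 388)) Pf.nil)) Pf.nil)) Pf.nil)))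
 (Pq.cons (Pq.L [] 1 (Pf.C 2 386))
 (Pq.cons (Pq.L [] 1 (Pf.C 2 386))
 (Pq.cons (Pq.L [] 1 (Pf.C 2 386))
 (Pq.cons (Pq.L [] 1 (Pf.C 2 386))
 (Pq.cons (Pq.L [] 1 (Pf.C 2 386))
 (Pq.cons (Pq.L [] 0 (Pf.X 1 2))
 (Pq.cons (Pq.L [0,1] 1 (Pf.T 1 13 (Pf.cons (Pf.T 2 13 (Pf.cons (Pf.T 3 16 (Pf.cons (Pf.W 13 1 [] [0,2,3] (Pf.cons (Pf.B 4 3 (Pf.B 4 2 (Pf.W 13 2 [] [0,1,3,4] (Pf.cons (Pf.B 5 4 (Pf.B 5 3 (Pf.W 44 2 [] [0,3,4,1,5] (Pf.cons (Pf.T 5 17 (Pf.cons (Pf.W 6 1 [4] [0,2,3,5] (Pf.cons (Pf.W 30 1 [] [0,2,3,4,5] (Pf.cons (Pf.B 6 5 (Pf.B 6 4 (Pf.B 6 3 (Pf.B 6 2 (Pf.C 0 0x1820a10300) (Pf.C 0 0x2010a0c302)) (Pf.C 2 390)) (Pf.C 2 518)) (Pf.C 2 646)) (Pf.cons (Pf.B 6 5 (Pf.B 6 4 (Pf.B 6 3 (Pf.B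 6 2 (Pf.C 0 0x1820a10301) (Pf.C 0 0x2000a0c302)) (Pf.C 2 390)) (Pf.C 2 518)) (Pf.C 2 646)) (Pf.cons (Pf.B 6 5 (Pf.B 6 4 (Pf.B 6 3 (Pf.B 6 2 (Pf.C 0 0x1820a10300) (Pf.C 9 0x200106)) (Pf.C 2 390)) (Pf.C 2 518)) (Pf.C 2 646)) Pf.nil)))) (Pf.cons (Pf.B 6 5 (Pf.B 6 4 (Pf.B 6 3 (Pf.B 6 2 (Pf.B 6 0 (Pf.B 5 1 (Pf.W 6 1 [4,6] [0,2,3,5] (Pf.cons (Pf.B 7 6 (Pf.B 7 5 (Pf.B 7 4 (Pf.B 7 3 (Pf.B 7 2 (Pf.B 7 0 (Pf.C 0 0x2800818381) (Pf.C 0 0x1820a10380)) (Pf.C 0 0x2010e14182)) (Pf.C 2 391)) (Pf.C 2 519)) (Pf.C 2 647)) (Pf.C 2 775)) Pf.nil)) (Pf.C 0 0x1820a18201)) (Pf.C 0 0x1820a10300)) (Pf.B 5 1 (Pf.C 0 0x2010c0c282) (Pf.W 30 1 [] [0,2,3,4,5] (Pf.cons (Pf.B 7 5 (Pf.B 7 4 (Pf.B 7 3 (Pf.B 7 2 (Pf.C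 0 0x1820a10380) (Pf.C 0 0x2010a0c382)) (Pf.C 2 391)) (Pf.C 2 519)) (Pf.C 2 647)) (Pf.cons (Pf.B 7 5 (Pf.B 7 4 (Pf.B 7 3 (Pf.B 7 2 (Pf.C 0 0x1820a10381) (Pf.C 0 0x2000a0c382)) (Pf.C 2 391)) (Pf.C 2 519)) (Pf.C 2 647)) (Pf.cons (Pf.B 7 5 (Pf.B 7 4 (Pf.B 7 3 (Pf.B 7 2 (Pf.C 0 0x1820a10380) (Pf.C 9 0x200107)) (Pf.C 2 391)) (Pf.C 2 519)) (Pf.C 2 647)) Pf.nil)))))) (Pf.C 2 390)) (Pf.C 2 518)) (Pf.C 2 646)) Pf.nil))) (Pf.cons (Pf.W 6 1 [4] [0,2,3,5] (Pf.cons (Pf.W 30 1 [] [0,2,3,4,5] (Pf.cons (Pf.B 6 5 (Pf.B 6 4 (Pf.B 6 3 (Pf.B 6 2 (Pf.C 0 0x1820a10300) (Pf.C 0 0x2010a0c302)) (Pf.C 2 390)) (Pf.C 2 518)) (Pf.C 2 646)) (Pf.cons (Pf.B 6 5 (Pf.B 6 4 (Pf.B 6 3 (Pf.B 6 2 (Pf.C 0 0x1820a10301)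 (Pf.C 0 0x2000a0c302)) (Pf.C 2 390)) (Pf.C 2 518)) (Pf.C 2 646)) (Pf.cons (Pf.B 6 5 (Pf.B 6 4 (Pf.B 6 3 (Pf.B 6 2 (Pf.C 0 0x1820a10300) (Pf.C 9 0x200106)) (Pf.C 2 390)) (Pf.C 2 518)) (Pf.C 2 646)) Pf.nil)))) (Pf.cons (Pf.B 6 5 (Pf.B 6 4 (Pf.B 6 3 (Pf.B 6 2 (Pf.B 6 0 (Pf.B 5 1 (Pf.W 6 1 [4,6] [0,2,3,5] (Pf.cons (Pf.B 7 6 (Pf.B 7 5 (Pf.B 7 4 (Pf.B 7 3 (Pf.B 7 2 (Pf.B 7 0 (Pf.C 0 0x2800818381) (Pf.C 0 0x1820a10380)) (Pf.C 0 0x2010e14182)) (Pf.C 2 391)) (Pf.C 2 519)) (Pf.C 2 647)) (Pf.C 2 775)) Pf.nil)) (Pf.C 0 0x1820a18201)) (Pf.C 0 0x1820a10300)) (Pf.B 5 1 (Pf.C 0 0x2010c0c282) (Pf.W 30 1 [] [0,2,3,4,5] (Pf.cons (Pf.B 7 5 (Pf.B 7 4 (Pf.B 7 3 (Pf.B 7 2 (Pf.C 0 0x1820a10380) (Pf.C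 0 0x2010a0c382)) (Pf.C 2 391)) (Pf.C 2 519)) (Pf.C 2 647)) (Pf.cons (Pf.B 7 5 (Pf.B 7 4 (Pf.B 7 3 (Pf.B 7 2 (Pf.C 0 0x1820a10381) (Pf.C 0 0x2000a0c382)) (Pf.C 2 391)) (Pf.C 2 519)) (Pf.C 2 647)) (Pf.cons (Pf.B 7 5 (Pf.B 7 4 (Pf.B 7 3 (Pf.B 7 2 (Pf.C 0 0x1820a10380) (Pf.C 9 0x200107)) (Pf.C 2 391)) (Pf.C 2 519)) (Pf.C 2 647)) Pf.nil)))))) (Pf.C 2 390)) (Pf.C 2 518)) (Pf.C 2 646)) Pf.nil))) Pf.nil))) (Pf.cons (Pf.B 6 5 (Pf.B 6 4 (Pf.B 6 3 (Pf.C 0 0x1820a10300) (Pf.C 2 390)) (Pf.C 2 518)) (Pf.C 2 646)) (Pf.cons (Pf.B 6 5 (Pf.B 6 4 (Pf.B 6 3 (Pf.C 0 0x2000a0c302) (Pf.C 2 390)) (Pf.C 2 518)) (Pf.C 2 646)) Pf.nil)))) (Pf.C 2 389)) (Pf.C 2 517)) (Pf.cons (Pf.B 5 4 (Pf.B 5 3 (Pf.B 5 1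 (Pf.W 44 2 [] [0,3,4,1,5] (Pf.cons (Pf.W 8 4 [0,1] [2,5] (Pf.cons (Pf.B 6 5 (Pf.B 6 2 (Pf.B 6 1 (Pf.B 6 0 (Pf.C 0 0x1050004304) (Pf.C 1 6)) (Pf.C 1 134)) (Pf.C 1 262)) (Pf.C 9 0x400305)) Pf.nil)) (Pf.cons (Pf.B 6 5 (Pf.B 6 4 (Pf.B 6 3 (Pf.C 0 0x1820a10300) (Pf.C 2 390)) (Pf.C 2 518)) (Pf.C 2 646)) (Pf.cons (Pf.B 6 5 (Pf.B 6 4 (Pf.B 6 3 (Pf.C 0 0x2000a0c302) (Pf.C 2 390)) (Pf.C 2 518)) (Pf.C 2 646)) Pf.nil)))) (Pf.C 9 0x400085)) (Pf.C 2 389)) (Pf.C 2 517)) Pf.nil))) (Pf.W 44 2 [] [0,1,3,4] (Pf.cons (Pf.B 5 4 (Pf.B 5 3 (Pf.W 30 1 [] [0,2,3,4,5] (Pf.cons (Pf.B 6 5 (Pf.B 6 4 (Pf.B 6 3 (Pf.B 6 2 (Pf.C 0 0x1820814300) (Pf.C 0 0x281080c302)) (Pf.C 2 390)) (Pf.C 2 518)) (Pf.C 2 646)) (Pf.cons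 (Pf.B 6 5 (Pf.B 6 4 (Pf.B 6 3 (Pf.B 6 2 (Pf.C 0 0x1820814301) (Pf.C 0 0x280080c302)) (Pf.C 2 390)) (Pf.C 2 518)) (Pf.C 2 646)) (Pf.cons (Pf.B 6 5 (Pf.B 6 4 (Pf.B 6 3 (Pf.B 6 2 (Pf.C 0 0x1820814300) (Pf.C 9 0x200106)) (Pf.C 2 390)) (Pf.C 2 518)) (Pf.C 2 646)) Pf.nil)))) (Pf.C 2 389)) (Pf.C 2 517)) (Pf.cons (Pf.B 5 4 (Pf.B 5 3 (Pf.T 5 16 (Pf.cons (Pf.W 10 49154 [] [4,5] (Pf.cons (Pf.B 6 5 (Pf.B 6 4 (Pf.B 6 3 (Pf.C 0 0x3000814182) (Pf.C 2 390)) (Pf.C 2 518)) (Pf.C 2 646)) (Pf.cons (Pf.B 6 5 (Pf.B 6 4 (Pf.B 6 3 (Pf.C 0 0x3000814182) (Pf.C 2 390)) (Pf.C 2 518)) (Pf.C 2 646)) Pf.nil))) Pf.nil)) (Pf.C 2 389)) (Pf.C 2 517)) Pf.nil)))) (Pf.C 2 388)) (Pf.cons (Pf.B 4 3 (Pf.B 4 2 (Pf.W 13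 2 [] [0,3,4] (Pf.cons (Pf.B 5 4 (Pf.B 5 3 (Pf.W 44 2 [] [0,3,4,5] (Pf.cons (Pf.B 6 5 (Pf.B 6 4 (Pf.B 6 3 (Pf.C 0 0x1820a10300) (Pf.C 2 390)) (Pf.C 2 518)) (Pf.C 2 646)) (Pf.cons (Pf.B 6 5 (Pf.B 6 4 (Pf.B 6 3 (Pf.C 0 0x2000a0c302) (Pf.C 2 390)) (Pf.C 2 518)) (Pf.C 2 646)) Pf.nil))) (Pf.C 2 389)) (Pf.C 2 517)) (Pf.cons (Pf.B 5 4 (Pf.B 5 3 (Pf.W 44 2 [] [0,3,4,5] (Pf.cons (Pf.B 6 5 (Pf.B 6 4 (Pf.B 6 3 (Pf.C 0 0x1820a10300) (Pf.C 2 390)) (Pf.C 2 518)) (Pf.C 2 646)) (Pf.cons (Pf.B 6 5 (Pf.B 6 4 (Pf.B 6 3 (Pf.C 0 0x2000a0c302) (Pf.C 2 390)) (Pf.C 2 518)) (Pf.C 2 646)) Pf.nil))) (Pf.C 2 389)) (Pf.C 2 517)) Pf.nil))) (Pf.C 9 0x200104)) (Pf.C 2 388)) Pf.nil))) Pf.nil)) Pf.nil)) Pf.nil)))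
 (Pq.cons (Pq.L [0] 1 (Pf.T 2 14 (Pf.cons (Pf.T 3 16 (Pf.cons (Pf.W 19 3 [] [0,2] (Pf.cons (Pf.B 4 2 (Pf.W 15 2 [] [0,3,4] (Pf.cons (Pf.B 5 3 (Pf.W 6 0 [5] [2,3] (Pf.cons (Pf.B 6 5 (Pf.B 6 3 (Pf.B 6 2 (Pf.W 6 0 [5,6] [2,3] (Pf.cons (Pf.B 7 6 (Pf.B 7 5 (Pf.B 7 3 (Pf.B 7 2 (Pf.C 0 0x1820a18380) (Pf.C 7 0xa0c382)) (Pf.C 2 391)) (Pf.C 2 647)) (Pf.C 2 775)) Pf.nil)) (Pf.C 7 0xa0c302)) (Pf.C 2 390)) (Pf.C 2 646)) Pf.nil)) (Pf.C 2 389)) (Pf.cons (Pf.B 5 4 (Pf.B 5 3 (Pf.W 13 4 [] [0,2,3,5] (Pf.cons (Pf.B 6 5 (Pf.B 6 3 (Pf.B 6 2 (Pf.W 6 0 [5,6] [2,3] (Pf.cons (Pf.B 7 6 (Pf.B 7 5 (Pf.B 7 3 (Pf.B 7 2 (Pf.C 0 0x1820a18380) (Pf.C 7 0xa0c382)) (Pf.C 2 391)) (Pf.C 2 647)) (Pf.C 2 775)) Pf.nil))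 (Pf.C 7 0xa0c302)) (Pf.C 2 390)) (Pf.C 2 646)) (Pf.cons (Pf.B 6 5 (Pf.B 6 3 (Pf.B 6 2 (Pf.W 6 0 [5,6] [2,3] (Pf.cons (Pf.B 7 6 (Pf.B 7 5 (Pf.B 7 3 (Pf.B 7 2 (Pf.C 0 0x1820a18380) (Pf.C 7 0xa0c382)) (Pf.C 2 391)) (Pf.C 2 647)) (Pf.C 2 775)) Pf.nil)) (Pf.C 7 0xa0c302)) (Pf.C 2 390)) (Pf.C 2 646)) Pf.nil))) (Pf.C 2 389)) (Pf.C 9 0x400205)) Pf.nil))) (Pf.C 1 260)) Pf.nil)) Pf.nil)) Pf.nil)))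
 (Pq.cons (Pq.L [] 1 (Pf.C 2 386))
 (Pq.cons (Pq.L [] 1 (Pf.C 2 386))
 (Pq.cons (Pq.L [] 1 (Pf.C 2 386))
 (Pq.cons (Pq.L [] 1 (Pf.C 2 386))
 (Pq.cons (Pq.L [] 1 (Pf.C 2 386))
 (Pq.cons (Pq.L [] 0 (Pf.X 1 2))
 (Pq.cons (Pq.L [] 1 (Pf.C 52 259))
 (Pq.cons (Pq.L [1] 1 (Pf.T 1 13 (Pf.cons (Pf.T 2 14 (Pf.cons (Pf.W 47 2 [] [1,3] (Pf.cons (Pf.B 4 3 (Pf.W 6 1 [4] [2,3] (Pf.cons (Pf.B 5 4 (Pf.B 5 3 (Pf.B 5 2 (Pf.W 6 1 [4,5] [2,3] (Pf.cons (Pf.B 6 5 (Pf.B 6 4 (Pf.B 6 3 (Pf.B 6 2 (Pf.C 0 0x1820814301) (Pf.C 7 0x80c302)) (Pf.C 2 390)) (Pf.C 2 518)) (Pf.C 2 646)) Pf.nil)) (Pf.C 7 0x80c282)) (Pf.C 2 389)) (Pf.C 2 517)) Pf.nil)) (Pf.C 2 388)) Pf.nil)) Pf.nil)) Pf.nil)))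
 (Pq.cons (Pq.L [] 1 (Pf.C 2 386))
 (Pq.cons (Pq.L [] 1 (Pf.C 2 386))
 (Pq.cons (Pq.L [] 1 (Pf.C 2 386))
 (Pq.cons (Pq.L [] 1 (Pf.C 2 386))
 (Pq.cons (Pq.L [] 1 (Pf.C 2 386))
 Pq.nil))))))))))))))))))))))))))))))))
theorem bS113_o43 : AllRef bS113_T bS113_G60 (closeObl (bS113_T.sc.get 1) false [94,95,96,98,99,89,90,91,100,101,93] [0,0,1,2,2,2,4,4,5,5,5] [1] [0] 1453) :=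
  chkPq_sound bS113_o43c _ (by decide +kernel)
noncomputable def bS113_o44c : Pq := (Pq.cons (Pq.L [0,1] 0 (Pf.T 1 13 (Pf.cons (Pf.T 2 35 (Pf.cons (Pf.W 51 2 [] [0,1] (Pf.cons (Pf.T 3 13 (Pf.cons (Pf.T 3 36 (Pf.cons (Pf.C 58 386) (Pf.cons (Pf.W 44 3 [] [0,1,2] (Pf.cons (Pf.B 4 2 (Pf.W 8 4 [0,1] [2,3] (Pf.cons (Pf.B 5 3 (Pf.B 5 2 (Pf.B 5 1 (Pf.B 5 0 (Pf.C 0 0x1820004284) (Pf.C 1 5)) (Pf.C 1 133)) (Pf.C 9 0x600282)) (Pf.C 1 389)) Pf.nil)) (Pf.C 2 260)) (Pf.cons (Pf.C 54 515) Pf.nil))) Pf.nil))) Pf.nil)) Pf.nil)) Pf.nil)) Pf.nil)))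
 Pq.nil)
theorem bS113_o44 : AllRef bS113_T bS113_G64 (List.map pat1 [107]) :=
  chkPq_sound bS113_o44c _ (by decide +kernel)
noncomputable def bS113_o45c : Pq := (Pq.cons (Pq.L [] 0 (Pf.X 1 2))
 (Pq.cons (Pq.L [] 1 (Pf.C 1 386))
 (Pq.cons (Pq.L [] 1 (Pf.C 54 259))
 (Pq.cons (Pq.L [0,1] 1 (Pf.T 1 13 (Pf.cons (Pf.T 3 13 (Pf.cons (Pf.T 3 32 (Pf.cons (Pf.W 55 2 [] [0,1,3] (Pf.cons (Pf.B 4 3 (Pf.W 53 4 [] [0,1,2,3] (Pf.cons (Pf.B 5 3 (Pf.B 5 2 (Pf.C 0 0x205000c082) (Pf.C 2 261)) (Pf.C 54 643)) (Pf.cons (Pf.B 5 3 (Pf.B 5 2 (Pf.C 0 0x205020c002) (Pf.C 2 261)) (Pf.C 54 643)) Pf.nil))) (Pf.C 1 388)) Pf.nil)) Pf.nil)) Pf.nil)) Pf.nil)))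
 (Pq.cons (Pq.L [] 1 (Pf.C 54 259))
 (Pq.cons (Pq.L [0,1] 1 (Pf.T 1 13 (Pf.cons (Pf.T 2 35 (Pf.cons (Pf.W 51 2 [] [0,3,1] (Pf.cons (Pf.T 3 13 (Pf.cons (Pf.W 44 3 [] [0,1,2] (Pf.cons (Pf.B 4 2 (Pf.W 8 4 [0,1] [2,3] (Pf.cons (Pf.B 5 3 (Pf.B 5 2 (Pf.B 5 1 (Pf.B 5 0 (Pf.C 0 0x1820004284) (Pf.C 1 5)) (Pf.C 1 133)) (Pf.C 9 0x600282)) (Pf.C 1 389)) Pf.nil)) (Pf.C 2 260)) (Pf.cons (Pf.C 54 515) Pf.nil))) Pf.nil)) (Pf.cons (Pf.C 9 0x600202) Pf.nil))) Pf.nil)) Pf.nil)))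
 (Pq.cons (Pq.L [0,1] 1 (Pf.C 9 0x604002))
 (Pq.cons (Pq.L [] 0 (Pf.X 1 2))
 (Pq.cons (Pq.L [] 1 (Pf.C 1 386))
 (Pq.cons (Pq.L [0,1] 1 (Pf.T 1 13 (Pf.cons (Pf.T 3 14 (Pf.cons (Pf.W 13 1 [] [0,2,3] (Pf.cons (Pf.B 4 2 (Pf.B 4 3 (Pf.T 4 17 (Pf.cons (Pf.W 6 1 [4] [0,2,3] (Pf.cons (Pf.B 5 4 (Pf.B 5 2 (Pf.B 5 3 (Pf.T 5 2 (Pf.cons (Pf.T 5 11 (Pf.cons (Pf.T 5 15 (Pf.cons (Pf.W 6 1 [4,5] [0,2,3] (Pf.cons (Pf.B 6 5 (Pf.B 6 4 (Pf.B 6 2 (Pf.B 6 3 (Pf.B 6 0 (Pf.C 0 0x1000814301) (Pf.W 4 772 [] [0,1,2,3] (Pf.cons (Pf.B 7 3 (Pf.B 7 1 (Pf.B 7 0 (Pf.B 7 2 (Pf.C 0 0x1820004384) (Pf.C 0 0x86000c382)) (Pf.C 1 7)) (Pf.C 1 135)) (Pf.C 1 391)) (Pf.cons (Pf.B 7 3 (Pf.B 7 1 (Pf.B 7 0 (Pf.B 7 2 (Pf.C 0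 0x1820004386) (Pf.C 0 0x84000c382)) (Pf.C 1 7)) (Pf.C 1 135)) (Pf.C 1 391)) Pf.nil)))) (Pf.C 0 0x1030c14201)) (Pf.C 2 262)) (Pf.C 2 518)) (Pf.C 2 646)) Pf.nil)) Pf.nil)) (Pf.cons (Pf.T 5 17 (Pf.cons (Pf.W 4 644 [] [0,1,2,3] (Pf.cons (Pf.B 6 3 (Pf.B 6 1 (Pf.B 6 0 (Pf.B 6 2 (Pf.C 0 0x1820004304) (Pf.C 0 0x85000c302)) (Pf.C 1 6)) (Pf.C 1 134)) (Pf.C 1 390)) (Pf.cons (Pf.B 6 3 (Pf.B 6 1 (Pf.B 6 0 (Pf.B 6 2 (Pf.C 0 0x1820004305) (Pf.C 0 0x84000c302)) (Pf.C 1 6)) (Pf.C 1 134)) (Pf.C 1 390)) Pf.nil))) (Pf.cons (Pf.C 23 389) Pf.nil))) Pf.nil))) (Pf.cons (Pf.T 5 12 (Pf.cons (Pf.T 5 16 (Pf.cons (Pf.W 6 1 [4,5] [0,2,3] (Pf.cons (Pf.B 6 5 (Pf.B 6 4 (Pf.B 6 2 (Pf.B 6 3 (Pf.B 6 0 (Pf.C 0 0x1000814301)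 (Pf.W 4 772 [] [0,1,2,3] (Pf.cons (Pf.B 7 3 (Pf.B 7 1 (Pf.B 7 0 (Pf.B 7 2 (Pf.C 0 0x1820004384) (Pf.C 0 0x86000c382)) (Pf.C 1 7)) (Pf.C 1 135)) (Pf.C 1 391)) (Pf.cons (Pf.B 7 3 (Pf.B 7 1 (Pf.B 7 0 (Pf.B 7 2 (Pf.C 0 0x1820004386) (Pf.C 0 0x84000c382)) (Pf.C 1 7)) (Pf.C 1 135)) (Pf.C 1 391)) Pf.nil)))) (Pf.C 0 0x1030c14201)) (Pf.C 2 262)) (Pf.C 2 518)) (Pf.C 2 646)) Pf.nil)) Pf.nil)) (Pf.cons (Pf.W 8 2 [0,3] [1,5] (Pf.cons (Pf.B 6 5 (Pf.B 6 3 (Pf.B 6 1 (Pf.B 6 0 (Pf.C 0 0x85000c302) (Pf.C 1 6)) (Pf.C 1 134)) (Pf.C 1 390)) (Pf.C 9 0x200305)) Pf.nil)) Pf.nil))) Pf.nil))) (Pf.W 6 1 [4,5] [2,3] (Pf.cons (Pf.B 6 5 (Pf.B 6 4 (Pf.B 6 3 (Pf.B 6 2 (Pf.C 0 0x1030a10301) (Pf.C 2 262)) (Pf.C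 7 0xa08303)) (Pf.C 2 518)) (Pf.C 2 646)) Pf.nil))) (Pf.C 2 261)) (Pf.C 2 517)) Pf.nil)) (Pf.cons (Pf.C 23 388) Pf.nil))) (Pf.T 4 17 (Pf.cons (Pf.W 6 1 [4] [2,3] (Pf.cons (Pf.B 5 4 (Pf.B 5 3 (Pf.B 5 2 (Pf.W 6 1 [4,5] [2,3] (Pf.cons (Pf.B 6 5 (Pf.B 6 4 (Pf.B 6 3 (Pf.B 6 2 (Pf.C 0 0x1030814301) (Pf.C 2 262)) (Pf.C 7 0x808303)) (Pf.C 2 518)) (Pf.C 2 646)) Pf.nil)) (Pf.C 2 261)) (Pf.C 7 0x808283)) (Pf.C 2 517)) Pf.nil)) (Pf.cons (Pf.W 6 1 [4] [2,3] (Pf.cons (Pf.B 5 4 (Pf.B 5 3 (Pf.B 5 2 (Pf.W 6 1 [4,5] [2,3] (Pf.cons (Pf.B 6 5 (Pf.B 6 4 (Pf.B 6 3 (Pf.B 6 2 (Pf.C 0 0x1030814301) (Pf.C 2 262)) (Pf.C 7 0x808303)) (Pf.C 2 518)) (Pf.C 2 646)) Pf.nil)) (Pf.C 2 261)) (Pf.C 7 0x808283)) (Pf.C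 2 517)) Pf.nil)) Pf.nil)))) (Pf.C 2 260)) (Pf.cons (Pf.B 4 3 (Pf.B 4 2 (Pf.W 8 2 [0,3] [1,4] (Pf.cons (Pf.B 5 4 (Pf.B 5 3 (Pf.B 5 1 (Pf.B 5 0 (Pf.C 0 0x84000c282) (Pf.C 1 5)) (Pf.C 1 133)) (Pf.C 1 389)) (Pf.C 9 0x200284)) Pf.nil)) (Pf.C 2 260)) (Pf.C 9 0x200184)) Pf.nil))) Pf.nil)) Pf.nil)))
 (Pq.cons (Pq.L [0,1] 1 (Pf.T 1 13 (Pf.cons (Pf.T 3 14 (Pf.cons (Pf.T 3 33 (Pf.cons (Pf.W 55 2 [] [0,1,3] (Pf.cons (Pf.B 4 3 (Pf.T 4 13 (Pf.cons (Pf.T 4 32 (Pf.cons (Pf.W 13 4 [] [0,1,2,3] (Pf.cons (Pf.B 5 2 (Pf.B 5 3 (Pf.B 5 1 (Pf.C 0 0x205000c082) (Pf.T 5 17 (Pf.cons (Pf.W 53 4 [] [0,1,2,3,5] (Pf.cons (Pf.B 6 5 (Pf.B 6 2 (Pf.B 6 3 (Pf.C 0 0x2060004182) (Pf.W 6 1 [2,5] [3,6] (Pf.cons (Pf.B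 7 6 (Pf.B 7 5 (Pf.B 7 3 (Pf.B 7 2 (Pf.C 0 0x3030414381) (Pf.C 2 263)) (Pf.C 7 0xc08383)) (Pf.C 2 647)) (Pf.C 2 775)) Pf.nil))) (Pf.C 2 262)) (Pf.C 2 646)) (Pf.cons (Pf.B 6 3 (Pf.B 6 2 (Pf.C 0 0x206020c002) (Pf.C 2 262)) (Pf.C 9 0x804186)) Pf.nil))) (Pf.cons (Pf.C 23 389) Pf.nil)))) (Pf.W 53 4 [] [0,1,2,3,5] (Pf.cons (Pf.T 5 34 (Pf.cons (Pf.W 6 1 [2] [3,5] (Pf.cons (Pf.B 6 5 (Pf.B 6 3 (Pf.B 6 2 (Pf.W 6 1 [2,6] [3,5] (Pf.cons (Pf.B 7 6 (Pf.B 7 5 (Pf.B 7 3 (Pf.B 7 2 (Pf.C 0 0x2830418381) (Pf.C 2 263)) (Pf.C 7 0xa08383)) (Pf.C 2 647)) (Pf.C 2 775)) Pf.nil)) (Pf.C 2 262)) (Pf.C 7 0xa08303)) (Pf.C 2 646)) Pf.nil)) Pf.nil)) (Pf.cons (Pf.B 6 3 (Pf.B 6 2 (Pf.C 0 0x206000c082) (Pf.C 2 262))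 (Pf.C 7 0xa08303)) (Pf.cons (Pf.B 6 3 (Pf.B 6 2 (Pf.C 0 0x206020c002) (Pf.C 2 262)) (Pf.C 7 0xa08303)) Pf.nil))))) (Pf.C 2 261)) (Pf.cons (Pf.B 5 3 (Pf.B 5 2 (Pf.B 5 1 (Pf.C 0 0x205000c082) (Pf.C 9 0x800085)) (Pf.C 2 261)) (Pf.C 9 0x800185)) Pf.nil))) Pf.nil)) Pf.nil)) (Pf.C 1 388)) Pf.nil)) Pf.nil)) Pf.nil)) Pf.nil)))
 (Pq.cons (Pq.L [0] 1 (Pf.T 2 16 (Pf.cons (Pf.T 3 14 (Pf.cons (Pf.W 19 2 [] [0,3] (Pf.cons (Pf.B 4 3 (Pf.W 15 3 [] [0,2,4] (Pf.cons (Pf.B 5 2 (Pf.W 6 0 [5] [2,3] (Pf.cons (Pf.B 6 5 (Pf.B 6 3 (Pf.B 6 2 (Pf.W 6 0 [5,6] [2,3] (Pf.cons (Pf.B 7 6 (Pf.B 7 5 (Pf.B 7 3 (Pf.B 7 2 (Pf.C 0 0x1030a18380) (Pf.C 2 263)) (Pf.C 7 0xa08383)) (Pf.C 2 647)) (Pf.C 2 775)) Pf.nil)) (Pf.C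 2 262)) (Pf.C 7 0xa08303)) (Pf.C 2 646)) Pf.nil)) (Pf.C 2 261)) (Pf.cons (Pf.B 5 4 (Pf.B 5 2 (Pf.W 13 4 [] [0,2,3,5] (Pf.cons (Pf.B 6 5 (Pf.B 6 3 (Pf.B 6 2 (Pf.W 6 0 [5,6] [2,3] (Pf.cons (Pf.B 7 6 (Pf.B 7 5 (Pf.B 7 3 (Pf.B 7 2 (Pf.C 0 0x1030a18380) (Pf.C 2 263)) (Pf.C 7 0xa08383)) (Pf.C 2 647)) (Pf.C 2 775)) Pf.nil)) (Pf.C 2 262)) (Pf.C 7 0xa08303)) (Pf.C 2 646)) (Pf.cons (Pf.B 6 5 (Pf.B 6 3 (Pf.B 6 2 (Pf.W 6 0 [5,6] [2,3] (Pf.cons (Pf.B 7 6 (Pf.B 7 5 (Pf.B 7 3 (Pf.B 7 2 (Pf.C 0 0x1030a18380) (Pf.C 2 263)) (Pf.C 7 0xa08383)) (Pf.C 2 647)) (Pf.C 2 775)) Pf.nil)) (Pf.C 2 262)) (Pf.C 7 0xa08303)) (Pf.C 2 646)) Pf.nil))) (Pf.C 2 261)) (Pf.C 9 0x600205)) Pf.nil))) (Pf.C 1 388)) Pf.nil))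 Pf.nil)) Pf.nil)))
 (Pq.cons (Pq.L [0,1] 1 (Pf.T 1 13 (Pf.cons (Pf.T 3 14 (Pf.cons (Pf.W 13 1 [] [0,2,3] (Pf.cons (Pf.B 4 2 (Pf.B 4 3 (Pf.T 4 17 (Pf.cons (Pf.W 8 4 [0,1] [2,3] (Pf.cons (Pf.B 5 3 (Pf.B 5 2 (Pf.B 5 1 (Pf.B 5 0 (Pf.C 0 0x1820004284) (Pf.C 1 5)) (Pf.C 1 133)) (Pf.C 9 0x600282)) (Pf.C 1 389)) Pf.nil)) (Pf.cons (Pf.C 23 388) Pf.nil))) (Pf.T 4 17 (Pf.cons (Pf.W 6 1 [4] [2,3] (Pf.cons (Pf.B 5 4 (Pf.B 5 3 (Pf.B 5 2 (Pf.W 6 1 [4,5] [2,3] (Pf.cons (Pf.B 6 5 (Pf.B 6 4 (Pf.B 6 3 (Pf.B 6 2 (Pf.C 0 0x1030814301) (Pf.C 2 262)) (Pf.C 7 0x808303)) (Pf.C 2 518)) (Pf.C 2 646)) Pf.nil)) (Pf.C 2 261)) (Pf.C 7 0x808283)) (Pf.C 2 517)) Pf.nil)) (Pf.cons (Pf.W 6 1 [4] [2,3] (Pf.cons (Pf.B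 5 4 (Pf.B 5 3 (Pf.B 5 2 (Pf.W 6 1 [4,5] [2,3] (Pf.cons (Pf.B 6 5 (Pf.B 6 4 (Pf.B 6 3 (Pf.B 6 2 (Pf.C 0 0x1030814301) (Pf.C 2 262)) (Pf.C 7 0x808303)) (Pf.C 2 518)) (Pf.C 2 646)) Pf.nil)) (Pf.C 2 261)) (Pf.C 7 0x808283)) (Pf.C 2 517)) Pf.nil)) Pf.nil)))) (Pf.C 2 260)) (Pf.cons (Pf.B 4 3 (Pf.B 4 2 (Pf.W 6 1 [4] [0,2,3] (Pf.cons (Pf.B 5 4 (Pf.B 5 2 (Pf.B 5 3 (Pf.T 5 2 (Pf.cons (Pf.T 5 11 (Pf.cons (Pf.T 5 15 (Pf.cons (Pf.W 6 1 [4,5] [0,2,3] (Pf.cons (Pf.B 6 5 (Pf.B 6 4 (Pf.B 6 2 (Pf.B 6 3 (Pf.B 6 0 (Pf.C 0 0x1000814301) (Pf.W 4 772 [] [0,1,2,3] (Pf.cons (Pf.B 7 3 (Pf.B 7 1 (Pf.B 7 0 (Pf.B 7 2 (Pf.C 0 0x1820004384) (Pf.C 0 0x86000c382)) (Pf.C 1 7)) (Pf.C 1 135)) (Pf.C 1 391)) (Pf.cons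 (Pf.B 7 3 (Pf.B 7 1 (Pf.B 7 0 (Pf.B 7 2 (Pf.C 0 0x1820004386) (Pf.C 0 0x84000c382)) (Pf.C 1 7)) (Pf.C 1 135)) (Pf.C 1 391)) Pf.nil)))) (Pf.C 0 0x1030c14201)) (Pf.C 2 262)) (Pf.C 2 518)) (Pf.C 2 646)) Pf.nil)) Pf.nil)) (Pf.cons (Pf.T 5 17 (Pf.cons (Pf.W 8 5 [0,1] [2,3] (Pf.cons (Pf.B 6 3 (Pf.B 6 2 (Pf.B 6 1 (Pf.B 6 0 (Pf.C 0 0x1820004305) (Pf.C 1 6)) (Pf.C 1 134)) (Pf.C 9 0x600302)) (Pf.C 1 390)) Pf.nil)) (Pf.cons (Pf.C 23 389) Pf.nil))) Pf.nil))) (Pf.cons (Pf.T 5 12 (Pf.cons (Pf.T 5 16 (Pf.cons (Pf.W 6 1 [4,5] [0,2,3] (Pf.cons (Pf.B 6 5 (Pf.B 6 4 (Pf.B 6 2 (Pf.B 6 3 (Pf.B 6 0 (Pf.C 0 0x1000814301) (Pf.W 4 772 [] [0,1,2,3] (Pf.cons (Pf.B 7 3 (Pf.B 7 1 (Pf.B 7 0 (Pf.B 7 2 (Pf.C 0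 0x1820004384) (Pf.C 0 0x86000c382)) (Pf.C 1 7)) (Pf.C 1 135)) (Pf.C 1 391)) (Pf.cons (Pf.B 7 3 (Pf.B 7 1 (Pf.B 7 0 (Pf.B 7 2 (Pf.C 0 0x1820004386) (Pf.C 0 0x84000c382)) (Pf.C 1 7)) (Pf.C 1 135)) (Pf.C 1 391)) Pf.nil)))) (Pf.C 0 0x1030c14201)) (Pf.C 2 262)) (Pf.C 2 518)) (Pf.C 2 646)) Pf.nil)) Pf.nil)) (Pf.cons (Pf.W 4 644 [] [0,1,2,3] (Pf.cons (Pf.B 6 3 (Pf.B 6 1 (Pf.B 6 0 (Pf.B 6 2 (Pf.C 0 0x1820004304) (Pf.C 0 0x85000c302)) (Pf.C 1 6)) (Pf.C 1 134)) (Pf.C 1 390)) (Pf.cons (Pf.B 6 3 (Pf.B 6 1 (Pf.B 6 0 (Pf.B 6 2 (Pf.C 0 0x1820004305) (Pf.C 0 0x84000c302)) (Pf.C 1 6)) (Pf.C 1 134)) (Pf.C 1 390)) Pf.nil))) Pf.nil))) Pf.nil))) (Pf.W 6 1 [4,5] [2,3] (Pf.cons (Pf.B 6 5 (Pf.B 6 4 (Pf.B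 6 3 (Pf.B 6 2 (Pf.C 0 0x1030a10301) (Pf.C 2 262)) (Pf.C 7 0xa08303)) (Pf.C 2 518)) (Pf.C 2 646)) Pf.nil))) (Pf.C 2 261)) (Pf.C 2 517)) Pf.nil)) (Pf.C 2 260)) (Pf.C 9 0x200184)) Pf.nil))) Pf.nil)) Pf.nil)))
 (Pq.cons (Pq.L [0,1] 1 (Pf.C 9 0x604002))
 (Pq.cons (Pq.L [] 0 (Pf.X 1 2))
 (Pq.cons (Pq.L [] 1 (Pf.C 56 259))
 (Pq.cons (Pq.L [] 1 (Pf.C 2 386))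
 (Pq.cons (Pq.L [] 1 (Pf.C 2 386))
 (Pq.cons (Pq.L [] 1 (Pf.C 2 386))
 (Pq.cons (Pq.L [] 1 (Pf.C 2 386))
 (Pq.cons (Pq.L [] 1 (Pf.C 2 386))
 Pq.nil)))))))))))))))))))))
theorem bS113_o45 : AllRef bS113_T bS113_G65 (closeObl (bS113_T.sc.get 1) true [102,103,87,88,104,105,91,106,93] [0,0,1,2,2,2,4,5,5] [1] [0] 473) :=
  chkPq_sound bS113_o45c _ (by decide +kernel)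
noncomputable def bS113_o46c : Pq := (Pq.cons (Pq.L [0,1] 1 (Pf.T 1 13 (Pf.cons (Pf.T 2 16 (Pf.cons (Pf.T 3 16 (Pf.cons (Pf.W 13 1 [] [0,2,3] (Pf.cons (Pf.B 4 3 (Pf.B 4 2 (Pf.W 10 32769 [] [3,4] (Pf.cons (Pf.B 5 4 (Pf.B 5 3 (Pf.B 5 2 (Pf.C 0 0x280080c101) (Pf.C 2 261)) (Pf.C 2 389)) (Pf.C 2 517)) (Pf.cons (Pf.B 5 4 (Pf.B 5 3 (Pf.B 5 2 (Pf.C 0 0x280080c101) (Pf.C 2 261)) (Pf.C 2 389)) (Pf.C 2 517)) Pf.nil))) (Pf.C 2 260)) (Pf.C 2 388)) (Pf.cons (Pf.B 4 3 (Pf.B 4 2 (Pf.W 10 32769 [] [3,4] (Pf.cons (Pf.B 5 4 (Pf.B 5 3 (Pf.B 5 2 (Pf.C 0 0x280080c101) (Pf.C 2 261)) (Pf.C 2 389)) (Pf.C 2 517)) (Pf.cons (Pf.B 5 4 (Pf.B 5 3 (Pf.B 5 2 (Pf.C 0 0x280080c101) (Pf.C 2 261)) (Pf.C 2 389)) (Pf.C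 2 517)) Pf.nil))) (Pf.C 2 260)) (Pf.C 2 388)) Pf.nil))) Pf.nil)) Pf.nil)) Pf.nil)))
 (Pq.cons (Pq.L [] 1 (Pf.C 2 386))
 (Pq.cons (Pq.L [0,1] 1 (Pf.T 3 38 (Pf.cons (Pf.T 3 35 (Pf.cons (Pf.T 2 38 (Pf.cons (Pf.T 2 35 (Pf.cons (Pf.T 1 13 (Pf.cons (Pf.W 57 3 [] [0,1,2] (Pf.cons (Pf.B 4 2 (Pf.W 51 3 [] [0,4,1,2] (Pf.cons (Pf.T 4 13 (Pf.cons (Pf.W 51 2 [] [0,1,3,4] (Pf.cons (Pf.B 5 4 (Pf.B 5 3 (Pf.W 57 2 [] [0,5,1,3,4] (Pf.cons (Pf.T 5 13 (Pf.cons (Pf.W 13 1 [] [0,2,3,4,5] (Pf.cons (Pf.B 6 3 (Pf.B 6 2 (Pf.B 6 5 (Pf.W 8 6 [0,1] [2,5] (Pf.cons (Pf.B 7 5 (Pf.B 7 2 (Pf.B 7 1 (Pf.B 7 0 (Pf.C 0 0x2820004386) (Pf.C 1 7)) (Pf.C 1 135)) (Pf.C 9 0xa00382)) (Pf.C 1 647)) Pf.nil)) (Pf.B 6 4 (Pf.C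 0 0x2030014086) (Pf.W 44 4 [] [0,1,2,3,5,6] (Pf.cons (Pf.B 7 6 (Pf.B 7 3 (Pf.B 7 5 (Pf.B 7 2 (Pf.W 53 4 [] [1,2,3,5,6,7] (Pf.cons (Pf.B 8 7 (Pf.B 8 6 (Pf.B 8 3 (Pf.C 0 0x3810c0c404) (Pf.C 2 392)) (Pf.C 2 776)) (Pf.C 2 904)) (Pf.cons (Pf.B 8 7 (Pf.B 8 6 (Pf.B 8 5 (Pf.B 8 2 (Pf.C 0 0x1050c1c401) (Pf.C 2 264)) (Pf.C 9 0x804288)) (Pf.C 2 776)) (Pf.C 2 904)) Pf.nil))) (Pf.C 2 263)) (Pf.C 0 0x2030004287)) (Pf.C 2 391)) (Pf.C 2 775)) (Pf.cons (Pf.B 7 6 (Pf.B 7 5 (Pf.B 7 3 (Pf.B 7 2 (Pf.C 0 0x1050c0c384) (Pf.C 2 263)) (Pf.C 2 391)) (Pf.C 9 0x804287)) (Pf.C 2 775)) Pf.nil))))) (Pf.C 2 262)) (Pf.C 2 390)) (Pf.cons (Pf.B 6 4 (Pf.B 6 3 (Pf.B 6 2 (Pf.W 44 4 [] [0,1,2,3,5,6] (Pf.cons (Pf.B 7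 3 (Pf.B 7 5 (Pf.B 7 2 (Pf.T 7 37 (Pf.cons (Pf.W 8 7 [0,1] [2,5] (Pf.cons (Pf.B 8 5 (Pf.B 8 2 (Pf.B 8 1 (Pf.B 8 0 (Pf.C 0 0x2820004407) (Pf.C 1 8)) (Pf.C 1 136)) (Pf.C 9 0xa00402)) (Pf.C 1 648)) Pf.nil)) Pf.nil)) (Pf.C 2 263)) (Pf.C 0 0x2030004287)) (Pf.C 2 391)) (Pf.cons (Pf.B 7 6 (Pf.B 7 3 (Pf.B 7 2 (Pf.C 0 0x3810c0c100) (Pf.C 2 263)) (Pf.C 2 391)) (Pf.C 2 775)) Pf.nil))) (Pf.C 2 262)) (Pf.C 2 390)) (Pf.C 9 0x200206)) Pf.nil))) Pf.nil)) (Pf.cons (Pf.C 9 0xa00302) Pf.nil))) (Pf.C 9 0x800283)) (Pf.C 1 517)) Pf.nil)) Pf.nil)) (Pf.cons (Pf.C 9 0x800283) Pf.nil))) (Pf.W 51 3 [] [0,4,1,2] (Pf.cons (Pf.T 4 13 (Pf.cons (Pf.W 13 1 [] [0,2,3,4] (Pf.cons (Pf.B 5 3 (Pf.B 5 2 (Pf.B 5 4 (Pf.W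 4 386 [] [0,1,4,5] (Pf.cons (Pf.B 6 4 (Pf.B 6 1 (Pf.B 6 0 (Pf.B 6 5 (Pf.C 0 0x850010302) (Pf.C 0 0x2030004305)) (Pf.C 1 6)) (Pf.C 1 134)) (Pf.C 1 518)) (Pf.cons (Pf.B 6 4 (Pf.B 6 1 (Pf.B 6 0 (Pf.B 6 5 (Pf.C 0 0x850010303) (Pf.C 0 0x2020004305)) (Pf.C 1 6)) (Pf.C 1 134)) (Pf.C 1 518)) Pf.nil))) (Pf.W 44 4 [] [0,1,2,3,5] (Pf.cons (Pf.B 6 5 (Pf.B 6 3 (Pf.B 6 2 (Pf.C 0 0x3010a0c104) (Pf.C 2 262)) (Pf.C 2 390)) (Pf.C 2 646)) (Pf.cons (Pf.B 6 5 (Pf.B 6 3 (Pf.B 6 2 (Pf.C 0 0x3010a0c100) (Pf.C 2 262)) (Pf.C 2 390)) (Pf.C 2 646)) Pf.nil)))) (Pf.C 2 261)) (Pf.C 2 389)) (Pf.cons (Pf.B 5 4 (Pf.B 5 3 (Pf.B 5 2 (Pf.W 4 386 [] [0,1,4,5] (Pf.cons (Pf.B 6 4 (Pf.B 6 1 (Pf.B 6 0 (Pf.B 6 5 (Pf.C 0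 0x850010302) (Pf.C 0 0x2030004305)) (Pf.C 1 6)) (Pf.C 1 134)) (Pf.C 1 518)) (Pf.cons (Pf.B 6 4 (Pf.B 6 1 (Pf.B 6 0 (Pf.B 6 5 (Pf.C 0 0x850010303) (Pf.C 0 0x2020004305)) (Pf.C 1 6)) (Pf.C 1 134)) (Pf.C 1 518)) Pf.nil))) (Pf.C 2 261)) (Pf.C 2 389)) (Pf.C 9 0x200205)) Pf.nil))) Pf.nil)) (Pf.cons (Pf.C 9 0x800283) Pf.nil)))) Pf.nil)) Pf.nil)) Pf.nil)) Pf.nil)) Pf.nil)) Pf.nil)))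
 (Pq.cons (Pq.L [] 1 (Pf.C 2 386))
 (Pq.cons (Pq.L [0,1] 0 (Pf.B 3 2 (Pf.T 1 13 (Pf.cons (Pf.W 25 386 [] [0,1] (Pf.cons (Pf.C 9 0x200202) (Pf.cons (Pf.C 9 0x200203) (Pf.cons (Pf.C 9 0x200202) (Pf.cons (Pf.C 9 0x200203) Pf.nil))))) Pf.nil)) (Pf.C 2 259)))
 Pq.nil)))))
theorem bS113_o46 : AllRef bS113_T bS113_G66 (hitObl [91,92,93] bS113_h89) :=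
  chkPq_sound bS113_o46c _ (by decide +kernel)
noncomputable def bS113_o47c : Pq := (Pq.cons (Pq.L [] 0 (Pf.C 59 2))
 (Pq.cons (Pq.L [] 0 (Pf.C 60 2))
 (Pq.cons (Pq.L [] 0 (Pf.C 61 2))
 Pq.nil)))
theorem bS113_o47 : AllRef bS113_T bS113_G67 (List.map pat1 [108,109,110]) :=
  chkPq_sound bS113_o47c _ (by decide +kernel)
noncomputable def bS113_o48c : Pq := (Pq.cons (Pq.L [0,1] 1 (Pf.T 1 13 (Pf.cons (Pf.T 2 34 (Pf.cons (Pf.T 3 34 (Pf.cons (Pf.W 49 2 [] [0,1,3] (Pf.cons (Pf.B 4 3 (Pf.C 63 515) (Pf.T 4 36 (Pf.cons (Pf.T 4 13 (Pf.cons (Pf.W 13 1 [] [0,2,3,4] (Pf.cons (Pf.B 5 3 (Pf.B 5 2 (Pf.B 5 4 (Pf.W 44 4 [] [0,1,2,3,5] (Pf.cons (Pf.T 5 37 (Pf.cons (Pf.W 4 386 [] [0,1,4,5] (Pf.cons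 (Pf.B 6 4 (Pf.B 6 1 (Pf.B 6 0 (Pf.B 6 5 (Pf.C 0 0x850010302) (Pf.C 0 0x2030004305)) (Pf.C 1 6)) (Pf.C 1 134)) (Pf.C 1 518)) (Pf.cons (Pf.B 6 4 (Pf.B 6 1 (Pf.B 6 0 (Pf.B 6 5 (Pf.C 0 0x850010303) (Pf.C 0 0x2020004305)) (Pf.C 1 6)) (Pf.C 1 134)) (Pf.C 1 518)) Pf.nil))) Pf.nil)) (Pf.cons (Pf.B 6 3 (Pf.B 6 2 (Pf.W 4 386 [] [0,1,4,6] (Pf.cons (Pf.B 7 4 (Pf.B 7 1 (Pf.B 7 0 (Pf.B 7 6 (Pf.C 0 0x860010382) (Pf.C 0 0x2030004386)) (Pf.C 1 7)) (Pf.C 1 135)) (Pf.C 1 519)) (Pf.cons (Pf.B 7 4 (Pf.B 7 1 (Pf.B 7 0 (Pf.B 7 6 (Pf.C 0 0x860010383) (Pf.C 0 0x2020004386)) (Pf.C 1 7)) (Pf.C 1 135)) (Pf.C 1 519)) Pf.nil))) (Pf.C 2 262)) (Pf.C 2 390)) (Pf.cons (Pf.B 6 5 (Pf.B 6 3 (Pf.B 6 2 (Pf.C 0 0x2810c0c104)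 (Pf.C 2 262)) (Pf.C 2 390)) (Pf.C 2 646)) Pf.nil)))) (Pf.W 44 4 [] [0,1,2,3,5] (Pf.cons (Pf.B 6 5 (Pf.B 6 3 (Pf.B 6 2 (Pf.C 0 0x3010a0c104) (Pf.C 2 262)) (Pf.C 2 390)) (Pf.C 2 646)) (Pf.cons (Pf.B 6 5 (Pf.B 6 3 (Pf.B 6 2 (Pf.C 0 0x3010a0c100) (Pf.C 2 262)) (Pf.C 2 390)) (Pf.C 2 646)) Pf.nil)))) (Pf.C 2 261)) (Pf.C 2 389)) (Pf.cons (Pf.B 5 4 (Pf.B 5 2 (Pf.W 8 2 [0,4] [1,5] (Pf.cons (Pf.B 6 5 (Pf.B 6 4 (Pf.B 6 1 (Pf.B 6 0 (Pf.C 0 0x850010302) (Pf.C 1 6)) (Pf.C 1 134)) (Pf.C 1 518)) (Pf.C 9 0x200305)) Pf.nil)) (Pf.C 2 261)) (Pf.C 9 0x200205)) Pf.nil))) Pf.nil)) Pf.nil))) Pf.nil)) Pf.nil)) Pf.nil)) Pf.nil)))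
 (Pq.cons (Pq.L [] 1 (Pf.C 2 386))
 Pq.nil))
theorem bS113_o48 : AllRef bS113_T bS113_G69 (hitObl [112] bS113_h93) :=
  chkPq_sound bS113_o48c _ (by decide +kernel)
noncomputable def bS113_o49c : Pq := (Pq.cons (Pq.L [] 0 (Pf.C 64 2))
 Pq.nil)
theorem bS113_o49 : AllRef bS113_T bS113_G70 (List.map pat1 [113]) :=
  chkPq_sound bS113_o49c _ (by decide +kernel)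
noncomputable def bS113_o50c : Pq := (Pq.cons (Pq.L [0,1] 1 (Pf.T 1 13 (Pf.cons (Pf.T 2 37 (Pf.cons (Pf.T 3 37 (Pf.cons (Pf.W 55 2 [] [0,1,3] (Pf.cons (Pf.B 4 3 (Pf.T 4 32 (Pf.cons (Pf.T 4 13 (Pf.cons (Pf.W 13 4 [] [0,1,2,3] (Pf.cons (Pf.B 5 3 (Pf.B 5 2 (Pf.W 53 4 [] [0,1,2,3,5] (Pf.cons (Pf.W 4 386 [] [0,1,4,5] (Pf.cons (Pf.B 6 4 (Pf.B 6 1 (Pf.B 6 0 (Pf.B 6 5 (Pf.C 0 0x2050004302) (Pf.C 0 0x830010305)) (Pf.C 1 6)) (Pf.C 1 134)) (Pf.C 1 518)) (Pf.cons (Pf.B 6 4 (Pf.B 6 1 (Pf.B 6 0 (Pf.B 6 5 (Pf.C 0 0x2050004303) (Pf.C 0 0x820010305)) (Pf.C 1 6)) (Pf.C 1 134)) (Pf.C 1 518)) Pf.nil))) (Pf.cons (Pf.B 6 3 (Pf.B 6 2 (Pf.W 4 386 [] [0,1,4,6] (Pf.cons (Pf.B 7 4 (Pf.B 7 1 (Pf.B 7 0 (Pf.B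 7 6 (Pf.C 0 0x2060004382) (Pf.C 0 0x830010386)) (Pf.C 1 7)) (Pf.C 1 135)) (Pf.C 1 519)) (Pf.cons (Pf.B 7 4 (Pf.B 7 1 (Pf.B 7 0 (Pf.B 7 6 (Pf.C 0 0x2060004383) (Pf.C 0 0x820010386)) (Pf.C 1 7)) (Pf.C 1 135)) (Pf.C 1 519)) Pf.nil))) (Pf.C 2 262)) (Pf.C 2 390)) (Pf.cons (Pf.B 6 5 (Pf.B 6 3 (Pf.B 6 2 (Pf.C 0 0x3040a0c100) (Pf.C 2 262)) (Pf.C 2 390)) (Pf.C 2 646)) Pf.nil)))) (Pf.C 2 261)) (Pf.C 2 389)) (Pf.cons (Pf.B 5 2 (Pf.B 5 1 (Pf.W 8 2 [0,1] [4,5] (Pf.cons (Pf.B 6 5 (Pf.B 6 4 (Pf.B 6 1 (Pf.B 6 0 (Pf.C 0 0x2050004302) (Pf.C 1 6)) (Pf.C 1 134)) (Pf.C 1 518)) (Pf.C 9 0x800305)) Pf.nil)) (Pf.C 9 0x800085)) (Pf.C 2 261)) Pf.nil))) Pf.nil)) Pf.nil)) (Pf.C 66 515)) Pf.nil)) Pf.nil)) Pf.nil))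 Pf.nil)))
 (Pq.cons (Pq.L [] 1 (Pf.C 2 386))
 Pq.nil))
theorem bS113_o50 : AllRef bS113_T bS113_G72 (hitObl [115] bS113_h97) :=
  chkPq_sound bS113_o50c _ (by decide +kernel)
noncomputable def bS113_o51c : Pq := (Pq.cons (Pq.L [] 0 (Pf.C 67 2))
 Pq.nil)
theorem bS113_o51 : AllRef bS113_T bS113_G73 (List.map pat1 [116]) :=
  chkPq_sound bS113_o51c _ (by decide +kernel)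
noncomputable def bS113_o52c : Pq := (Pq.cons (Pq.L [] 2 (Pf.C 1 514))
 (Pq.cons (Pq.L [] 2 (Pf.C 2 514))
 (Pq.cons (Pq.L [] 2 (Pf.C 2 514))
 (Pq.cons (Pq.L [] 2 (Pf.C 2 514))
 (Pq.cons (Pq.L [] 2 (Pf.C 2 514))
 Pq.nil)))))
theorem bS113_o52 : AllRef bS113_T bS113_G74 (twinObl [86,111,114] 0 [6,1,1]) :=
  chkPq_sound bS113_o52c _ (by decide +kernel)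
noncomputable def bS113_o53c : Pq := (Pq.cons (Pq.L [] 1 (Pf.C 1 386))
 (Pq.cons (Pq.L [0,1] 3 (Pf.B 4 3 (Pf.T 4 36 (Pf.cons (Pf.T 4 32 (Pf.cons (Pf.T 4 13 (Pf.cons (Pf.T 3 36 (Pf.cons (Pf.T 3 32 (Pf.cons (Pf.T 3 13 (Pf.cons (Pf.T 1 13 (Pf.cons (Pf.T 2 37 (Pf.cons (Pf.W 53 4 [] [0,1,2,3] (Pf.cons (Pf.B 5 2 (Pf.B 5 3 (Pf.C 0 0x2050004182) (Pf.T 5 34 (Pf.cons (Pf.W 44 3 [] [0,1,2,4,5] (Pf.cons (Pf.B 6 5 (Pf.B 6 4 (Pf.C 0 0x86000c205) (Pf.B 6 2 (Pf.T 6 37 (Pf.cons (Pf.T 6 40 (Pf.cons (Pf.T 5 39 (Pf.cons (Pf.W 6 1 [2,6] [0,3,4,5] (Pf.cons (Pf.B 7 6 (Pf.B 7 5 (Pf.B 7 2 (Pf.B 7 4 (Pf.C 0 0x2840c08381) (Pf.B 7 3 (Pf.C 0 0x2830418381) (Pf.T 7 2 (Pf.cons (Pf.T 7 11 (Pf.cons (Pf.T 7 15 (Pf.cons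 (Pf.W 69 3 [] [0,1,5,6,7] (Pf.cons (Pf.B 8 7 (Pf.B 8 6 (Pf.B 8 5 (Pf.C 0 0x3810c14400) (Pf.C 2 648)) (Pf.C 2 776)) (Pf.C 2 904)) Pf.nil)) Pf.nil)) (Pf.cons (Pf.T 7 17 (Pf.cons (Pf.W 69 3 [] [0,1,2,4,5,6,7] (Pf.cons (Pf.B 8 7 (Pf.B 8 6 (Pf.B 8 5 (Pf.B 8 2 (Pf.B 8 4 (Pf.T 8 34 (Pf.cons (Pf.W 49 8 [] [0,1,2,3,4,5,6,7] (Pf.cons (Pf.B 9 4 (Pf.B 9 7 (Pf.C 0 0x4880010087) (Pf.B 9 6 (Pf.C 0 0x4880010086) (Pf.B 9 3 (Pf.B 9 5 (Pf.C 0 0x2830e20309) (Pf.B 9 2 (Pf.C 0 0x1010c20289) (Pf.W 44 9 [] [0,1,5,6,8] (Pf.cons (Pf.B 10 8 (Pf.B 10 6 (Pf.B 10 5 (Pf.C 0 0x5010c20289) (Pf.C 2 650)) (Pf.C 2 778)) (Pf.C 2 1034)) (Pf.cons (Pf.B 10 8 (Pf.B 10 6 (Pf.B 10 5 (Pf.C 0 0x5010c20280) (Pf.C 2 650)) (Pf.C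 2 778)) (Pf.C 2 1034)) Pf.nil))))) (Pf.C 1 393)))) (Pf.C 1 521)) Pf.nil)) Pf.nil)) (Pf.C 0 0x1010c14404)) (Pf.C 2 264)) (Pf.C 2 648)) (Pf.C 2 776)) (Pf.C 2 904)) Pf.nil)) (Pf.cons (Pf.W 22 2 [] [0,1,3,4,5,6,7] (Pf.cons (Pf.B 8 7 (Pf.C 23 1031) (Pf.B 8 3 (Pf.B 8 1 (Pf.T 8 14 (Pf.cons (Pf.W 69 3 [] [0,1,2,4,5,6,7,8] (Pf.cons (Pf.B 9 7 (Pf.B 9 6 (Pf.B 9 5 (Pf.B 9 2 (Pf.B 9 8 (Pf.B 9 4 (Pf.T 9 34 (Pf.cons (Pf.W 49 9 [] [0,1,2,3,4,5,6,7,8] (Pf.cons (Pf.B 10 8 (Pf.B 10 7 (Pf.C 0 0x5090020087) (Pf.B 10 4 (Pf.B 10 6 (Pf.C 0 0x5090010086) (Pf.B 10 3 (Pf.B 10 5 (Pf.C 0 0x2830e2430a) (Pf.B 10 2 (Pf.C 0 0x1010c2428a) (Pf.W 44 10 [] [0,1,5,6,9] (Pf.cons (Pf.B 11 9 (Pf.B 11 6 (Pf.B 11 5 (Pf.C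 0 0x5810c2428a) (Pf.C 2 651)) (Pf.C 2 779)) (Pf.C 2 1163)) (Pf.cons (Pf.B 11 9 (Pf.B 11 6 (Pf.B 11 5 (Pf.C 0 0x5810c24280) (Pf.C 2 651)) (Pf.C 2 779)) (Pf.C 2 1163)) Pf.nil))))) (Pf.C 1 394))) (Pf.C 1 522))) (Pf.C 1 1034)) Pf.nil)) Pf.nil)) (Pf.C 0 0x1010c14484)) (Pf.C 0 0x409000c082)) (Pf.C 2 265)) (Pf.C 2 649)) (Pf.C 2 777)) (Pf.C 2 905)) Pf.nil)) Pf.nil)) (Pf.C 1 136)) (Pf.C 1 392))) Pf.nil)) Pf.nil))) Pf.nil))) (Pf.cons (Pf.C 9 0x80c087) Pf.nil))))) (Pf.C 2 263)) (Pf.C 2 647)) (Pf.C 2 775)) Pf.nil)) (Pf.cons (Pf.W 6 1 [2,6] [0,3,4,5] (Pf.cons (Pf.B 7 6 (Pf.B 7 5 (Pf.B 7 2 (Pf.B 7 4 (Pf.C 0 0x2840c08381) (Pf.B 7 3 (Pf.C 0 0x2830418381) (Pf.T 7 2 (Pf.cons (Pf.T 7 11 (Pf.cons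 (Pf.T 7 15 (Pf.cons (Pf.W 69 3 [] [0,1,5,6,7] (Pf.cons (Pf.B 8 7 (Pf.B 8 6 (Pf.B 8 5 (Pf.C 0 0x3810c14400) (Pf.C 2 648)) (Pf.C 2 776)) (Pf.C 2 904)) Pf.nil)) Pf.nil)) (Pf.cons (Pf.T 7 17 (Pf.cons (Pf.W 22 2 [] [0,1,3,4,5,6,7] (Pf.cons (Pf.B 8 4 (Pf.B 8 3 (Pf.B 8 6 (Pf.B 8 1 (Pf.B 8 5 (Pf.B 8 7 (Pf.T 8 14 (Pf.cons (Pf.W 15 8 [] [0,1,2,3,4,5,6,7] (Pf.cons (Pf.B 9 7 (Pf.B 9 6 (Pf.B 9 5 (Pf.B 9 2 (Pf.B 9 4 (Pf.B 9 3 (Pf.C 0 0x4090010185) (Pf.C 0 0x2060020189)) (Pf.B 9 3 (Pf.C 0 0x1820020209) (Pf.B 9 1 (Pf.C 0 0x820020209) (Pf.W 69 3 [] [0,1,2,4,5,6,7,8,9] (Pf.cons (Pf.B 10 9 (Pf.B 10 7 (Pf.B 10 8 (Pf.B 10 6 (Pf.B 10 5 (Pf.B 10 2 (Pf.B 10 4 (Pf.T 10 34 (Pf.cons (Pf.W 49 10 [] [0,1,2,3,4,5,6,7,8,9]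 (Pf.cons (Pf.B 11 8 (Pf.B 11 9 (Pf.C 0 0x58a0020089) (Pf.B 11 5 (Pf.C 63 1413) (Pf.B 11 7 (Pf.C 0 0x381122828b) (Pf.B 11 6 (Pf.C 0 0x3010e2828b) (Pf.B 11 4 (Pf.B 11 3 (Pf.B 11 2 (Pf.C 0 0x1010c2828b) (Pf.W 44 11 [] [0,1,5,6,10] (Pf.cons (Pf.B 12 10 (Pf.B 12 6 (Pf.B 12 5 (Pf.C 0 0x6010c2828b) (Pf.C 2 652)) (Pf.C 2 780)) (Pf.C 2 1292)) (Pf.cons (Pf.B 12 10 (Pf.B 12 6 (Pf.B 12 5 (Pf.C 0 0x6010c28280) (Pf.C 2 652)) (Pf.C 2 780)) (Pf.C 2 1292)) Pf.nil)))) (Pf.C 1 395)) (Pf.C 1 523)))))) (Pf.C 1 1035)) Pf.nil)) Pf.nil)) (Pf.C 0 0x1010c14504)) (Pf.C 2 266)) (Pf.C 2 650)) (Pf.C 2 778)) (Pf.C 0 0x40a000c087)) (Pf.C 2 906)) (Pf.C 2 1162)) Pf.nil))))) (Pf.C 2 265)) (Pf.C 2 649)) (Pf.C 2 777))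 (Pf.C 2 905)) (Pf.cons (Pf.B 9 5 (Pf.B 9 4 (Pf.B 9 3 (Pf.C 0 0x4090010185) (Pf.C 9 0x1000189)) (Pf.C 9 0x1000209)) (Pf.C 2 649)) Pf.nil))) Pf.nil)) (Pf.T 8 14 (Pf.cons (Pf.W 69 3 [] [0,1,2,4,5,6,7,8] (Pf.cons (Pf.B 9 7 (Pf.B 9 6 (Pf.B 9 5 (Pf.B 9 2 (Pf.B 9 8 (Pf.B 9 4 (Pf.T 9 34 (Pf.cons (Pf.W 49 9 [] [0,1,2,3,4,5,6,7,8] (Pf.cons (Pf.B 10 8 (Pf.B 10 7 (Pf.C 0 0x5090020087) (Pf.B 10 5 (Pf.C 63 1285) (Pf.B 10 6 (Pf.C 0 0x3010e2428a) (Pf.B 10 4 (Pf.B 10 3 (Pf.B 10 2 (Pf.C 0 0x1010c2428a) (Pf.W 44 10 [] [0,1,5,6,9] (Pf.cons (Pf.B 11 9 (Pf.B 11 6 (Pf.B 11 5 (Pf.C 0 0x5810c2428a) (Pf.C 2 651)) (Pf.C 2 779)) (Pf.C 2 1163)) (Pf.cons (Pf.B 11 9 (Pf.B 11 6 (Pf.B 11 5 (Pf.C 0 0x5810c24280)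 (Pf.C 2 651)) (Pf.C 2 779)) (Pf.C 2 1163)) Pf.nil)))) (Pf.C 1 394)) (Pf.C 1 522))))) (Pf.C 1 1034)) Pf.nil)) Pf.nil)) (Pf.C 0 0x1010c14484)) (Pf.C 0 0x409000c082)) (Pf.C 2 265)) (Pf.C 2 649)) (Pf.C 2 777)) (Pf.C 2 905)) Pf.nil)) Pf.nil))) (Pf.C 0 0x86000c405)) (Pf.C 1 136)) (Pf.C 0 0x1820010406)) (Pf.C 1 392)) (Pf.C 1 520)) Pf.nil)) (Pf.cons (Pf.W 22 2 [] [0,1,3,4,5,6,7] (Pf.cons (Pf.B 8 7 (Pf.C 23 1031) (Pf.B 8 3 (Pf.B 8 1 (Pf.T 8 14 (Pf.cons (Pf.W 69 3 [] [0,1,2,4,5,6,7,8] (Pf.cons (Pf.B 9 7 (Pf.B 9 6 (Pf.B 9 5 (Pf.B 9 2 (Pf.B 9 8 (Pf.B 9 4 (Pf.T 9 34 (Pf.cons (Pf.W 49 9 [] [0,1,2,3,4,5,6,7,8] (Pf.cons (Pf.B 10 8 (Pf.B 10 7 (Pf.C 0 0x5090020087) (Pf.B 10 5 (Pf.C 63 1285) (Pf.B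 10 6 (Pf.C 0 0x3010e2428a) (Pf.B 10 4 (Pf.B 10 3 (Pf.B 10 2 (Pf.C 0 0x1010c2428a) (Pf.W 44 10 [] [0,1,5,6,9] (Pf.cons (Pf.B 11 9 (Pf.B 11 6 (Pf.B 11 5 (Pf.C 0 0x5810c2428a) (Pf.C 2 651)) (Pf.C 2 779)) (Pf.C 2 1163)) (Pf.cons (Pf.B 11 9 (Pf.B 11 6 (Pf.B 11 5 (Pf.C 0 0x5810c24280) (Pf.C 2 651)) (Pf.C 2 779)) (Pf.C 2 1163)) Pf.nil)))) (Pf.C 1 394)) (Pf.C 1 522))))) (Pf.C 1 1034)) Pf.nil)) Pf.nil)) (Pf.C 0 0x1010c14484)) (Pf.C 0 0x409000c082)) (Pf.C 2 265)) (Pf.C 2 649)) (Pf.C 2 777)) (Pf.C 2 905)) Pf.nil)) Pf.nil)) (Pf.C 1 136)) (Pf.C 1 392))) Pf.nil)) Pf.nil))) Pf.nil))) (Pf.cons (Pf.C 9 0x80c087) Pf.nil))))) (Pf.C 2 263)) (Pf.C 2 647)) (Pf.C 2 775)) Pf.nil)) Pf.nil))) (Pf.cons (Pf.C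 66 518) Pf.nil))) Pf.nil)) (Pf.C 2 262))) (Pf.C 2 646)) (Pf.cons (Pf.B 6 5 (Pf.B 6 4 (Pf.C 0 0x860600205) (Pf.C 9 0x604206)) (Pf.C 2 646)) Pf.nil))) Pf.nil))) (Pf.C 2 261)) (Pf.cons (Pf.B 5 3 (Pf.B 5 2 (Pf.C 0 0x205020c002) (Pf.C 2 261)) (Pf.C 9 0x804185)) Pf.nil))) Pf.nil)) Pf.nil)) Pf.nil)) Pf.nil)) Pf.nil)) Pf.nil)) Pf.nil)) Pf.nil)) (Pf.C 1 388)))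
 (Pq.cons (Pq.L [] 2 (Pf.C 70 514))
 (Pq.cons (Pq.L [] 1 (Pf.C 2 386))
 Pq.nil))))
theorem bS113_o53 : AllRef bS113_T bS113_G76 (splitObl [120,118] [121,119]) :=
  chkPq_sound bS113_o53c _ (by decide +kernel)
noncomputable def bS113_o54c : Pq := (Pq.cons (Pq.D 0 (Pq.cons (Pq.D 1 (Pq.cons (Pq.L [] 1 (Pf.C 1 386))
 (Pq.cons (Pq.D 2 (Pq.cons (Pq.L [] 2 (Pf.C 1 514))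
 (Pq.cons (Pq.D 3 (Pq.cons (Pq.L [] 4 (Pf.C 1 642))
 (Pq.cons (Pq.L [0,1] 7 (Pf.B 5 4 (Pf.B 5 3 (Pf.B 4 3 (Pf.T 5 34 (Pf.cons (Pf.T 4 34 (Pf.cons (Pf.T 3 34 (Pf.cons (Pf.T 2 36 (Pf.cons (Pf.T 2 32 (Pf.cons (Pf.T 2 13 (Pf.cons (Pf.T 1 13 (Pf.cons (Pf.W 13 1 [] [0,2,3,4,5] (Pf.cons (Pf.B 6 5 (Pf.B 6 4 (Pf.B 6 3 (Pf.B 6 2 (Pf.W 44 2 [] [0,1,3,4,5,6] (Pf.cons (Pf.T 6 37 (Pf.cons (Pf.W 4 515 [] [0,1,2,6] (Pf.cons (Pf.B 7 2 (Pf.B 7 1 (Pf.B 7 0 (Pf.B 7 6 (Pf.C 0 0x860008383) (Pf.C 0 0x1040004386)) (Pf.C 1 7)) (Pf.C 1 135)) (Pf.C 1 263)) (Pf.cons (Pf.B 7 2 (Pf.B 7 1 (Pf.B 7 0 (Pf.B 7 6 (Pf.C 0 0x860008384) (Pf.C 0 0x1030004386)) (Pf.C 1 7)) (Pf.C 1 135)) (Pf.C 1 263)) Pf.nil))) Pf.nil))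 (Pf.cons (Pf.B 7 5 (Pf.B 7 3 (Pf.T 7 37 (Pf.cons (Pf.W 4 643 [] [0,1,2,7] (Pf.cons (Pf.B 8 2 (Pf.B 8 1 (Pf.B 8 0 (Pf.B 8 7 (Pf.C 0 0x870008403) (Pf.C 0 0x1050004407)) (Pf.C 1 8)) (Pf.C 1 136)) (Pf.C 1 264)) (Pf.cons (Pf.B 8 2 (Pf.B 8 1 (Pf.B 8 0 (Pf.B 8 7 (Pf.C 0 0x870008405) (Pf.C 0 0x1030004407)) (Pf.C 1 8)) (Pf.C 1 136)) (Pf.C 1 264)) Pf.nil))) Pf.nil)) (Pf.C 2 391)) (Pf.C 2 647)) (Pf.cons (Pf.B 7 6 (Pf.B 7 5 (Pf.B 7 4 (Pf.C 0 0x3010e14202) (Pf.C 2 519)) (Pf.C 2 647)) (Pf.C 2 775)) Pf.nil)))) (Pf.W 44 2 [] [0,1,4,5,6] (Pf.cons (Pf.B 7 6 (Pf.B 7 5 (Pf.B 7 4 (Pf.C 0 0x3810c14202) (Pf.C 2 519)) (Pf.C 2 647)) (Pf.C 2 775)) (Pf.cons (Pf.B 7 6 (Pf.B 7 5 (Pf.B 7 4 (Pf.C 0 0x3810c14200)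 (Pf.C 2 519)) (Pf.C 2 647)) (Pf.C 2 775)) Pf.nil)))) (Pf.C 2 390)) (Pf.C 2 518)) (Pf.C 2 646)) (Pf.cons (Pf.B 6 3 (Pf.B 6 2 (Pf.W 8 3 [0,2] [1,6] (Pf.cons (Pf.B 7 6 (Pf.B 7 2 (Pf.B 7 1 (Pf.B 7 0 (Pf.C 0 0x860008383) (Pf.C 1 7)) (Pf.C 1 135)) (Pf.C 1 263)) (Pf.C 9 0x200386)) Pf.nil)) (Pf.C 9 0x200106)) (Pf.C 2 390)) Pf.nil))) Pf.nil)) Pf.nil)) Pf.nil)) Pf.nil)) Pf.nil)) Pf.nil)) Pf.nil)) (Pf.C 2 388)) (Pf.C 2 389)) (Pf.C 2 517)))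
 Pq.nil))) Pq.nil))) Pq.nil))) (Pq.cons (Pq.D 1 (Pq.cons (Pq.D 2 (Pq.cons (Pq.D 3 (Pq.cons (Pq.L [0,1] 7 (Pf.B 5 4 (Pf.B 5 3 (Pf.B 4 3 (Pf.T 5 36 (Pf.cons (Pf.T 5 32 (Pf.cons (Pf.T 5 13 (Pf.cons (Pf.T 4 36 (Pf.cons (Pf.T 4 32 (Pf.cons (Pf.T 4 13 (Pf.cons (Pf.T 3 36 (Pf.cons (Pf.T 3 32 (Pf.cons (Pf.T 3 13 (Pf.cons (Pf.T 2 34 (Pf.cons (Pf.T 1 13 (Pf.cons (Pf.W 44 5 [] [0,1,2,3,4] (Pf.cons (Pf.B 6 2 (Pf.B 6 4 (Pf.C 0 0x860014202) (Pf.B 6 3 (Pf.C 0 0x860014182) (Pf.T 6 37 (Pf.cons (Pf.W 44 3 [] [0,1,2,4,5,6] (Pf.cons (Pf.B 7 6 (Pf.B 7 2 (Pf.B 7 5 (Pf.C 0 0x87000c282) (Pf.B 7 4 (Pf.C 0 0x87000c202) (Pf.T 7 37 (Pf.cons (Pf.W 44 4 [] [0,1,2,3,5,6,7] (Pf.cons (Pf.B 8 7 (Pf.B 8 6 (Pf.B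 8 2 (Pf.B 8 5 (Pf.C 0 0x1050e18401) (Pf.T 8 37 (Pf.cons (Pf.W 22 2 [] [0,1,3,4,5,6,7,8] (Pf.cons (Pf.B 9 5 (Pf.B 9 4 (Pf.B 9 3 (Pf.B 9 1 (Pf.B 9 8 (Pf.B 9 7 (Pf.B 9 6 (Pf.T 9 14 (Pf.cons (Pf.W 15 9 [] [0,1,2,3,4,5,6,7,8] (Pf.cons (Pf.B 10 8 (Pf.B 10 7 (Pf.B 10 6 (Pf.B 10 2 (Pf.B 10 5 (Pf.B 10 4 (Pf.C 0 0x48a0014202) (Pf.C 0 0x288002420a)) (Pf.B 10 1 (Pf.C 0 0x86002428a) (Pf.W 62 2 [] [0,1,3,4,5,7,8,9,10] (Pf.cons (Pf.B 11 9 (Pf.B 11 5 (Pf.B 11 4 (Pf.B 11 8 (Pf.B 11 3 (Pf.B 11 7 (Pf.B 11 10 (Pf.T 11 13 (Pf.cons (Pf.T 11 32 (Pf.cons (Pf.T 11 36 (Pf.cons (Pf.W 53 11 [] [0,1,8,9,10] (Pf.cons (Pf.B 12 10 (Pf.B 12 9 (Pf.C 0 0x58c000448a) (Pf.B 12 8 (Pf.C 0 0x88002c48c) (Pf.C 2 1036)))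 (Pf.C 2 1292)) (Pf.cons (Pf.B 12 10 (Pf.B 12 9 (Pf.C 0 0x58c020048a) (Pf.C 9 0x160448c)) (Pf.C 2 1292)) Pf.nil))) Pf.nil)) Pf.nil)) Pf.nil)) (Pf.T 11 13 (Pf.cons (Pf.T 11 32 (Pf.cons (Pf.T 11 36 (Pf.cons (Pf.W 53 11 [] [0,1,7,8,10] (Pf.cons (Pf.B 12 10 (Pf.B 12 8 (Pf.B 12 7 (Pf.C 0 0x60b1420381) (Pf.C 2 908)) (Pf.C 2 1036)) (Pf.C 2 1292)) (Pf.cons (Pf.B 12 10 (Pf.B 12 8 (Pf.B 12 7 (Pf.C 0 0x60b1420380) (Pf.C 2 908)) (Pf.C 2 1036)) (Pf.C 2 1292)) Pf.nil))) Pf.nil)) Pf.nil)) Pf.nil))) (Pf.C 0 0x1820004587)) (Pf.C 1 395)) (Pf.C 0 0x2020004588)) (Pf.C 1 523)) (Pf.C 1 651)) (Pf.C 1 1163)) Pf.nil)))) (Pf.C 2 266)) (Pf.C 2 778)) (Pf.C 2 906)) (Pf.C 2 1034)) (Pf.cons (Pf.B 10 7 (Pf.B 10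 5 (Pf.B 10 4 (Pf.C 0 0x48a0014207) (Pf.C 9 0x120020a)) (Pf.C 9 0x120028a)) (Pf.C 2 906)) Pf.nil))) Pf.nil)) (Pf.C 0 0x2820004486)) (Pf.C 0 0x1820004487)) (Pf.C 0 0x2020004488)) (Pf.C 1 137)) (Pf.C 1 393)) (Pf.C 1 521)) (Pf.C 1 649)) Pf.nil)) Pf.nil))) (Pf.C 2 264)) (Pf.C 2 776)) (Pf.C 2 904)) (Pf.cons (Pf.B 8 7 (Pf.B 8 6 (Pf.B 8 5 (Pf.B 8 2 (Pf.C 0 0x1050e18401) (Pf.C 2 264)) (Pf.C 9 0x804288)) (Pf.C 2 776)) (Pf.C 2 904)) Pf.nil))) Pf.nil)))) (Pf.C 2 263)) (Pf.C 2 775)) (Pf.cons (Pf.B 7 4 (Pf.B 7 2 (Pf.C 0 0x870610002) (Pf.C 2 263)) (Pf.C 9 0x604207)) Pf.nil))) Pf.nil)))) (Pf.C 2 262)) (Pf.cons (Pf.B 6 3 (Pf.B 6 2 (Pf.C 0 0x860a0c002) (Pf.C 2 262)) (Pf.C 9 0xa04186)) Pf.nil)))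 Pf.nil)) Pf.nil)) Pf.nil)) Pf.nil)) Pf.nil)) Pf.nil)) Pf.nil)) Pf.nil)) Pf.nil)) Pf.nil)) Pf.nil)) (Pf.C 1 388)) (Pf.C 1 389)) (Pf.C 1 517)))
 (Pq.cons (Pq.L [] 4 (Pf.C 2 642))
 Pq.nil))) (Pq.cons (Pq.L [] 2 (Pf.C 2 514))
 Pq.nil))) (Pq.cons (Pq.L [] 1 (Pf.C 2 386))
 Pq.nil))) Pq.nil))) Pq.nil)
theorem bS113_o54 : AllRef bS113_T bS113_G76 (applyObl TD2 1 [120,118] [0,0] []) :=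
  chkPq_sound bS113_o54c _ (by decide +kernel)
noncomputable def bS113_o55c : Pq := (Pq.cons (Pq.D 0 (Pq.cons (Pq.D 1 (Pq.cons (Pq.L [] 1 (Pf.C 1 386))
 (Pq.cons (Pq.D 2 (Pq.cons (Pq.L [] 2 (Pf.C 1 514))
 (Pq.cons (Pq.D 3 (Pq.cons (Pq.L [] 4 (Pf.C 1 642))
 (Pq.cons (Pq.L [0,1] 7 (Pf.B 5 4 (Pf.B 5 3 (Pf.B 4 3 (Pf.T 5 37 (Pf.cons (Pf.T 4 37 (Pf.cons (Pf.T 3 37 (Pf.cons (Pf.T 2 36 (Pf.cons (Pf.T 2 32 (Pf.cons (Pf.T 2 13 (Pf.cons (Pf.T 1 13 (Pf.cons (Pf.W 53 2 [] [0,1,3,4,5] (Pf.cons (Pf.B 6 5 (Pf.B 6 4 (Pf.B 6 3 (Pf.T 6 34 (Pf.cons (Pf.T 6 39 (Pf.cons (Pf.W 6 2 [6] [0,1,3,4,5] (Pf.cons (Pf.B 7 6 (Pf.B 7 5 (Pf.B 7 4 (Pf.B 7 3 (Pf.B 7 1 (Pf.B 7 0 (Pf.C 0 0x3820c10180) (Pf.T 7 2 (Pf.cons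 (Pf.T 7 11 (Pf.cons (Pf.T 7 17 (Pf.cons (Pf.W 6 2 [6,7] [0,1,3,4,5] (Pf.cons (Pf.B 8 6 (Pf.B 8 5 (Pf.B 8 4 (Pf.B 8 3 (Pf.B 8 1 (Pf.B 8 0 (Pf.C 0 0x4020c10180) (Pf.T 8 2 (Pf.cons (Pf.T 8 11 (Pf.cons (Pf.T 8 17 (Pf.cons (Pf.W 8 3 [0,1] [2,4,5,6,7,8] (Pf.cons (Pf.B 9 2 (Pf.B 9 1 (Pf.B 9 0 (Pf.B 9 8 (Pf.C 0 0x1080004483) (Pf.B 9 7 (Pf.C 0 0x1070004483) (Pf.B 9 6 (Pf.C 0 0x1060004483) (Pf.B 9 5 (Pf.C 0 0x281061c309) (Pf.B 9 4 (Pf.C 0 0x201061c309) (Pf.T 9 1 (Pf.cons (Pf.T 9 8 (Pf.cons (Pf.T 9 9 (Pf.cons (Pf.T 9 13 (Pf.cons (Pf.W 4 515 [] [1,2,8,9] (Pf.cons (Pf.B 10 9 (Pf.B 10 2 (Pf.B 10 1 (Pf.B 10 8 (Pf.C 0 0x1081204503) (Pf.C 0 0x841208508)) (Pf.C 1 138)) (Pf.C 1 266)) (Pf.C 1 1162))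 (Pf.cons (Pf.B 10 9 (Pf.B 10 2 (Pf.B 10 1 (Pf.B 10 8 (Pf.C 0 0x1081204504) (Pf.C 0 0x831208508)) (Pf.C 1 138)) (Pf.C 1 266)) (Pf.C 1 1162)) Pf.nil))) Pf.nil)) Pf.nil)) Pf.nil)) (Pf.cons (Pf.C 7 0xa10189) Pf.nil)))))))) (Pf.C 1 9)) (Pf.C 1 137)) (Pf.C 1 265)) Pf.nil)) (Pf.cons (Pf.W 22 5 [] [0,1,2,8] (Pf.cons (Pf.B 9 8 (Pf.C 23 1160) (Pf.B 9 2 (Pf.B 9 1 (Pf.C 0 0x850008488) (Pf.C 1 137)) (Pf.C 1 265))) Pf.nil)) Pf.nil))) Pf.nil)) (Pf.cons (Pf.T 8 12 (Pf.cons (Pf.W 8 3 [0,1] [2,8] (Pf.cons (Pf.B 9 8 (Pf.B 9 2 (Pf.B 9 1 (Pf.B 9 0 (Pf.C 0 0x1080004483) (Pf.C 1 9)) (Pf.C 1 137)) (Pf.C 1 265)) (Pf.C 9 0x400488)) Pf.nil)) Pf.nil)) Pf.nil)))) (Pf.C 0 0x3021010181)) (Pf.C 2 392)) (Pf.C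 2 520)) (Pf.C 2 648)) (Pf.C 2 776)) Pf.nil)) (Pf.cons (Pf.W 22 3 [] [0,1,2,7] (Pf.cons (Pf.B 8 7 (Pf.C 23 1031) (Pf.B 8 2 (Pf.B 8 1 (Pf.C 0 0x830008407) (Pf.C 1 136)) (Pf.C 1 264))) Pf.nil)) Pf.nil))) Pf.nil)) (Pf.cons (Pf.T 7 12 (Pf.cons (Pf.W 8 3 [0,1] [2,7] (Pf.cons (Pf.B 8 7 (Pf.B 8 2 (Pf.B 8 1 (Pf.B 8 0 (Pf.C 0 0x1070004403) (Pf.C 1 8)) (Pf.C 1 136)) (Pf.C 1 264)) (Pf.C 9 0x400407)) Pf.nil)) Pf.nil)) Pf.nil)))) (Pf.C 0 0x3020e10181)) (Pf.C 2 391)) (Pf.C 2 519)) (Pf.C 2 647)) (Pf.C 2 775)) Pf.nil)) (Pf.cons (Pf.W 22 5 [] [0,1,2,3,4,6] (Pf.cons (Pf.B 7 2 (Pf.B 7 1 (Pf.B 7 6 (Pf.B 7 4 (Pf.B 7 3 (Pf.T 7 14 (Pf.cons (Pf.W 15 7 [] [0,1,2,3,4,5,6] (Pf.cons (Pf.B 8 6 (Pf.B 8 5 (Pf.B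 8 4 (Pf.B 8 3 (Pf.B 8 2 (Pf.B 8 1 (Pf.W 4 643 [] [0,1,7,8] (Pf.cons (Pf.B 9 7 (Pf.B 9 1 (Pf.B 9 0 (Pf.B 9 8 (Pf.C 0 0x3880004483) (Pf.C 0 0x85001c488)) (Pf.C 1 9)) (Pf.C 1 137)) (Pf.C 1 905)) (Pf.cons (Pf.B 9 7 (Pf.B 9 1 (Pf.B 9 0 (Pf.B 9 8 (Pf.C 0 0x3880004485) (Pf.C 0 0x83001c488)) (Pf.C 1 9)) (Pf.C 1 137)) (Pf.C 1 905)) Pf.nil))) (Pf.C 0 0x106001c088)) (Pf.B 8 1 (Pf.C 0 0x83001c108) (Pf.C 0 0x3021010181))) (Pf.C 2 392)) (Pf.C 2 520)) (Pf.C 2 648)) (Pf.C 2 776)) (Pf.cons (Pf.B 8 3 (Pf.B 8 1 (Pf.W 8 3 [0,1] [7,8] (Pf.cons (Pf.B 9 8 (Pf.B 9 7 (Pf.B 9 1 (Pf.B 9 0 (Pf.C 0 0x3880004483) (Pf.C 1 9)) (Pf.C 1 137)) (Pf.C 1 905)) (Pf.C 9 0xe00488)) Pf.nil)) (Pf.C 9 0xe00088)) (Pf.C 2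 392)) Pf.nil))) Pf.nil)) (Pf.C 0 0x1060004383)) (Pf.C 0 0x1060004384)) (Pf.C 0 0x850008386)) (Pf.C 1 135)) (Pf.C 1 263)) Pf.nil)) Pf.nil))) Pf.nil)) (Pf.C 2 390)) (Pf.C 2 518)) (Pf.C 2 646)) (Pf.cons (Pf.B 6 5 (Pf.B 6 4 (Pf.W 13 2 [] [0,4,5,6] (Pf.cons (Pf.B 7 6 (Pf.B 7 5 (Pf.B 7 4 (Pf.C 0 0x3020e14200) (Pf.C 2 519)) (Pf.C 2 647)) (Pf.C 2 775)) (Pf.cons (Pf.B 7 6 (Pf.B 7 5 (Pf.B 7 4 (Pf.C 0 0x3020e14200) (Pf.C 2 519)) (Pf.C 2 647)) (Pf.C 2 775)) Pf.nil))) (Pf.C 2 518)) (Pf.C 2 646)) Pf.nil))) Pf.nil)) Pf.nil)) Pf.nil)) Pf.nil)) Pf.nil)) Pf.nil)) Pf.nil)) (Pf.C 2 388)) (Pf.C 2 389)) (Pf.C 2 517)))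
 Pq.nil))) Pq.nil))) Pq.nil))) (Pq.cons (Pq.D 1 (Pq.cons (Pq.D 2 (Pq.cons (Pq.D 3 (Pq.cons (Pq.L [0,1] 7 (Pf.B 5 4 (Pf.B 5 3 (Pf.B 4 3 (Pf.T 5 36 (Pf.cons (Pf.T 5 32 (Pf.cons (Pf.T 5 13 (Pf.cons (Pf.T 4 36 (Pf.cons (Pf.T 4 32 (Pf.cons (Pf.T 4 13 (Pf.cons (Pf.T 3 36 (Pf.cons (Pf.T 3 32 (Pf.cons (Pf.T 3 13 (Pf.cons (Pf.T 2 37 (Pf.cons (Pf.T 1 13 (Pf.cons (Pf.W 13 5 [] [0,1,2,3,4] (Pf.cons (Pf.B 6 2 (Pf.B 6 4 (Pf.B 6 3 (Pf.W 13 4 [] [0,1,2,3,5,6] (Pf.cons (Pf.B 7 6 (Pf.B 7 2 (Pf.B 7 5 (Pf.B 7 3 (Pf.W 53 4 [] [0,1,2,3,5,6,7] (Pf.cons (Pf.B 6 1 (Pf.T 7 39 (Pf.cons (Pf.T 7 34 (Pf.cons (Pf.W 53 5 [] [0,1,2,3,4,6,7] (Pf.cons (Pf.T 6 39 (Pf.cons (Pf.T 6 34 (Pf.cons (Pf.W 53 3 [] [0,1,2,4,6,7]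 (Pf.cons (Pf.B 8 2 (Pf.B 8 4 (Pf.T 8 39 (Pf.cons (Pf.T 8 34 (Pf.cons (Pf.W 68 515 [] [0,1,7,8] (Pf.cons (Pf.C 70 1028) (Pf.cons (Pf.C 70 1156) (Pf.cons (Pf.C 70 899) (Pf.cons (Pf.C 70 1155) (Pf.cons (Pf.B 9 7 (Pf.C 0 0x207000c089) (Pf.C 2 905)) (Pf.cons (Pf.B 9 8 (Pf.C 0 0x1880010089) (Pf.C 2 1033)) Pf.nil))))))) Pf.nil)) (Pf.cons (Pf.C 63 520) Pf.nil))) (Pf.C 0 0x82000c208)) (Pf.C 2 264)) (Pf.cons (Pf.B 8 7 (Pf.B 8 6 (Pf.B 8 2 (Pf.C 0 0x401041c300) (Pf.C 2 264)) (Pf.C 2 776)) (Pf.C 2 904)) Pf.nil))) Pf.nil)) (Pf.cons (Pf.C 63 390) Pf.nil))) (Pf.cons (Pf.B 8 2 (Pf.B 8 4 (Pf.B 8 3 (Pf.T 8 39 (Pf.cons (Pf.T 8 34 (Pf.cons (Pf.W 68 644 [] [0,1,7,3,8] (Pf.cons (Pf.C 70 899) (Pf.cons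 (Pf.C 70 1157) (Pf.cons (Pf.C 70 1027) (Pf.cons (Pf.C 70 1156) (Pf.cons (Pf.B 9 8 (Pf.C 0 0x2880010089) (Pf.C 2 1033)) (Pf.cons (Pf.B 9 7 (Pf.C 0 0x2070014089) (Pf.C 2 905)) Pf.nil))))))) Pf.nil)) (Pf.cons (Pf.C 63 392) Pf.nil))) (Pf.C 0 0x820014188)) (Pf.C 0 0x820014208)) (Pf.C 2 264)) (Pf.cons (Pf.B 8 7 (Pf.B 8 6 (Pf.B 8 2 (Pf.C 0 0x4050c1c100) (Pf.C 2 264)) (Pf.C 2 776)) (Pf.C 2 904)) Pf.nil)))) Pf.nil)) (Pf.cons (Pf.C 63 391) Pf.nil))) (Pf.C 0 0x2070014086)) (Pf.cons (Pf.B 8 7 (Pf.B 8 6 (Pf.B 8 2 (Pf.B 8 5 (Pf.B 8 3 (Pf.B 6 1 (Pf.T 8 39 (Pf.cons (Pf.T 8 34 (Pf.cons (Pf.W 53 5 [] [0,1,3,4,6,7,8] (Pf.cons (Pf.T 6 39 (Pf.cons (Pf.T 6 34 (Pf.cons (Pf.W 68 644 [] [0,1,6,3,8] (Pf.cons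 (Pf.C 70 1027) (Pf.cons (Pf.C 70 1157) (Pf.cons (Pf.C 70 771) (Pf.cons (Pf.C 70 1156) (Pf.cons (Pf.B 9 6 (Pf.C 0 0x2860010089) (Pf.C 2 777)) (Pf.cons (Pf.B 9 8 (Pf.C 0 0x2080014089) (Pf.C 2 1033)) Pf.nil))))))) Pf.nil)) (Pf.cons (Pf.C 63 390) Pf.nil))) (Pf.cons (Pf.B 9 8 (Pf.B 9 7 (Pf.B 9 6 (Pf.B 9 4 (Pf.B 9 3 (Pf.T 9 39 (Pf.cons (Pf.T 9 34 (Pf.cons (Pf.W 68 644 [] [0,1,8,3,9] (Pf.cons (Pf.C 70 1027) (Pf.cons (Pf.C 70 1285) (Pf.cons (Pf.C 70 1155) (Pf.cons (Pf.C 70 1284) (Pf.cons (Pf.B 10 9 (Pf.C 0 0x289001008a) (Pf.C 2 1162)) (Pf.cons (Pf.B 10 8 (Pf.C 0 0x208001408a) (Pf.C 2 1034)) Pf.nil))))))) Pf.nil)) (Pf.cons (Pf.C 63 393) Pf.nil))) (Pf.C 0 0x2070014189)) (Pf.C 0 0x3051220384))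 (Pf.C 2 777)) (Pf.C 2 905)) (Pf.C 2 1033)) (Pf.cons (Pf.B 9 8 (Pf.B 9 7 (Pf.B 9 6 (Pf.C 0 0x4850c20380) (Pf.C 2 777)) (Pf.C 2 905)) (Pf.C 2 1033)) Pf.nil)))) Pf.nil)) (Pf.cons (Pf.C 63 392) Pf.nil))) (Pf.C 0 0x2080014086)) (Pf.C 0 0x820010188)) (Pf.C 0 0x820010288)) (Pf.C 2 264)) (Pf.C 2 776)) (Pf.C 2 904)) (Pf.cons (Pf.B 8 7 (Pf.B 8 6 (Pf.B 8 2 (Pf.C 0 0x4040e18100) (Pf.C 2 264)) (Pf.C 2 776)) (Pf.C 2 904)) Pf.nil)))) (Pf.C 0 0x2860010187)) (Pf.B 7 1 (Pf.C 0 0x820014207) (Pf.W 53 4 [] [0,1,2,3,5,6,7] (Pf.cons (Pf.B 8 7 (Pf.B 8 6 (Pf.B 8 2 (Pf.B 8 5 (Pf.B 8 3 (Pf.B 6 1 (Pf.W 53 5 [] [0,1,2,4,6,3,7,8] (Pf.cons (Pf.T 8 39 (Pf.cons (Pf.T 8 34 (Pf.cons (Pf.T 6 39 (Pf.cons (Pf.T 6 34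 (Pf.cons (Pf.W 53 3 [] [0,1,2,4,6,7,8] (Pf.cons (Pf.B 9 2 (Pf.B 9 4 (Pf.T 9 39 (Pf.cons (Pf.T 9 34 (Pf.cons (Pf.W 68 515 [] [0,1,8,9] (Pf.cons (Pf.C 70 1156) (Pf.cons (Pf.C 70 1284) (Pf.cons (Pf.C 70 1027) (Pf.cons (Pf.C 70 1283) (Pf.cons (Pf.B 10 8 (Pf.C 0 0x208000c08a) (Pf.C 2 1034)) (Pf.cons (Pf.B 10 9 (Pf.C 0 0x189001008a) (Pf.C 2 1162)) Pf.nil))))))) Pf.nil)) (Pf.cons (Pf.C 63 521) Pf.nil))) (Pf.C 0 0x82000c209)) (Pf.C 2 265)) (Pf.cons (Pf.B 9 8 (Pf.B 9 7 (Pf.B 9 6 (Pf.C 0 0x4810e20300) (Pf.C 2 777)) (Pf.C 2 905)) (Pf.C 2 1033)) Pf.nil))) Pf.nil)) (Pf.cons (Pf.C 63 390) Pf.nil))) Pf.nil)) (Pf.cons (Pf.C 63 392) Pf.nil))) (Pf.cons (Pf.B 9 8 (Pf.B 9 7 (Pf.B 9 6 (Pf.B 9 4 (Pf.C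 0 0x4040e18485) (Pf.B 9 2 (Pf.C 0 0x820014209) (Pf.C 2 265))) (Pf.C 2 777)) (Pf.C 2 905)) (Pf.C 2 1033)) (Pf.cons (Pf.B 9 8 (Pf.B 9 7 (Pf.B 9 6 (Pf.C 0 0x4810e20300) (Pf.C 2 777)) (Pf.C 2 905)) (Pf.C 2 1033)) Pf.nil)))) (Pf.C 0 0x2080014086)) (Pf.C 0 0x820010188)) (Pf.C 0 0x820010288)) (Pf.C 2 264)) (Pf.C 2 776)) (Pf.C 2 904)) (Pf.cons (Pf.B 8 7 (Pf.B 8 6 (Pf.B 8 2 (Pf.C 0 0x4040e18100) (Pf.C 2 264)) (Pf.C 2 776)) (Pf.C 2 904)) Pf.nil))))) (Pf.C 2 263)) (Pf.C 2 775)) (Pf.cons (Pf.B 7 2 (Pf.B 7 1 (Pf.W 65 2 [] [0,1,4,7] (Pf.cons (Pf.B 8 7 (Pf.B 8 4 (Pf.C 0 0x2070004402) (Pf.C 1 520)) (Pf.C 9 0x800407)) Pf.nil)) (Pf.C 9 0x800087)) (Pf.C 2 263)) Pf.nil))) (Pf.B 6 1 (Pf.C 0 0x820014186)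 (Pf.W 53 4 [] [0,1,2,3,5,6] (Pf.cons (Pf.B 7 6 (Pf.B 7 3 (Pf.C 0 0x2070004186) (Pf.B 7 2 (Pf.C 0 0x820010187) (Pf.C 2 263))) (Pf.C 2 775)) (Pf.cons (Pf.B 7 6 (Pf.B 7 5 (Pf.C 0 0x2070200286) (Pf.C 9 0x804287)) (Pf.C 2 775)) Pf.nil))))) (Pf.B 6 1 (Pf.C 0 0x820014206) (Pf.W 53 5 [] [0,1,2,3,4,6] (Pf.cons (Pf.B 7 6 (Pf.B 7 2 (Pf.B 7 4 (Pf.B 7 3 (Pf.T 7 39 (Pf.cons (Pf.T 7 34 (Pf.cons (Pf.W 53 4 [] [0,1,2,3,5,6,7] (Pf.cons (Pf.B 8 7 (Pf.B 8 6 (Pf.B 8 2 (Pf.B 8 3 (Pf.T 8 39 (Pf.cons (Pf.T 8 34 (Pf.cons (Pf.W 53 3 [] [0,1,2,4,6,7,8] (Pf.cons (Pf.B 9 2 (Pf.B 9 4 (Pf.T 9 39 (Pf.cons (Pf.T 9 34 (Pf.cons (Pf.W 68 515 [] [0,1,8,9] (Pf.cons (Pf.C 70 1156) (Pf.cons (Pf.C 70 1284) (Pf.cons (Pf.C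 70 1027) (Pf.cons (Pf.C 70 1283) (Pf.cons (Pf.B 10 8 (Pf.C 0 0x208000c08a) (Pf.C 2 1034)) (Pf.cons (Pf.B 10 9 (Pf.C 0 0x189001008a) (Pf.C 2 1162)) Pf.nil))))))) Pf.nil)) (Pf.cons (Pf.C 63 521) Pf.nil))) (Pf.C 0 0x82000c209)) (Pf.C 2 265)) (Pf.cons (Pf.B 9 8 (Pf.B 9 7 (Pf.B 9 6 (Pf.C 0 0x4810c20380) (Pf.C 2 777)) (Pf.C 2 905)) (Pf.C 2 1033)) Pf.nil))) Pf.nil)) (Pf.cons (Pf.C 63 392) Pf.nil))) (Pf.C 0 0x820010188)) (Pf.C 2 264)) (Pf.C 2 776)) (Pf.C 2 904)) (Pf.cons (Pf.B 8 7 (Pf.B 8 6 (Pf.B 8 5 (Pf.B 8 2 (Pf.C 0 0x3850c08401) (Pf.C 2 264)) (Pf.C 9 0x804288)) (Pf.C 2 776)) (Pf.C 2 904)) Pf.nil))) Pf.nil)) (Pf.cons (Pf.C 63 391) Pf.nil))) (Pf.C 0 0x820014187)) (Pf.C 0 0x820014207))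 (Pf.C 2 263)) (Pf.C 2 775)) (Pf.cons (Pf.B 7 2 (Pf.T 7 16 (Pf.cons (Pf.W 8 2 [0,1] [5,7] (Pf.cons (Pf.B 8 7 (Pf.B 8 5 (Pf.B 8 1 (Pf.B 8 0 (Pf.C 0 0x2870200402) (Pf.C 1 8)) (Pf.C 1 136)) (Pf.C 1 648)) (Pf.C 9 0xa04407)) Pf.nil)) Pf.nil)) (Pf.C 2 263)) Pf.nil))))) (Pf.C 2 262)) (Pf.cons (Pf.B 6 2 (Pf.B 6 1 (Pf.W 65 2 [] [0,1,5,6] (Pf.cons (Pf.B 7 6 (Pf.B 7 5 (Pf.C 0 0x2860004382) (Pf.C 1 647)) (Pf.C 9 0xa00386)) Pf.nil)) (Pf.C 9 0xa00086)) (Pf.C 2 262)) Pf.nil))) Pf.nil)) Pf.nil)) Pf.nil)) Pf.nil)) Pf.nil)) Pf.nil)) Pf.nil)) Pf.nil)) Pf.nil)) Pf.nil)) Pf.nil)) (Pf.C 1 388)) (Pf.C 1 389)) (Pf.C 1 517)))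
 (Pq.cons (Pq.L [] 4 (Pf.C 2 642))
 Pq.nil))) (Pq.cons (Pq.L [] 2 (Pf.C 2 514))
 Pq.nil))) (Pq.cons (Pq.L [] 1 (Pf.C 2 386))
 Pq.nil))) Pq.nil))) Pq.nil)
theorem bS113_o55 : AllRef bS113_T bS113_G76 (applyObl TD2 1 [121,119] [0,0] [(121,0x800000000000000000000000000000),(119,0x2000000000000000000000000000000)]) :=
  chkPq_sound bS113_o55c _ (by decide +kernel)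
noncomputable def bS113_o56c : Pq := Pq.nil
theorem bS113_o56 : AllRef bS113_T bS113_G30 (ptObl 48 (PT.br 1 PT.kid PT.kid) []) :=
  chkPq_sound bS113_o56c _ (by decide +kernel)
noncomputable def bS113_o57c : Pq := (Pq.cons (Pq.L [1] 0 (Pf.C 23 257))
 Pq.nil)
theorem bS113_o57 : AllRef bS113_T bS113_G77 (ptObl 51 (PT.br 1 PT.ref PT.kid) []) :=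
  chkPq_sound bS113_o57c _ (by decide +kernel)
noncomputable def bS113_o58c : Pq := (Pq.cons (Pq.L [1] 0 (Pf.C 2 130))
 Pq.nil)
theorem bS113_o58 : AllRef bS113_T bS113_G78 (ptObl 54 (PT.br 1 PT.kid PT.ref) []) :=
  chkPq_sound bS113_o58c _ (by decide +kernel)
noncomputable def bS113_o59c : Pq := Pq.nil
theorem bS113_o59 : AllRef bS113_T bS113_G79 (ptObl 57 PT.kid []) :=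
  chkPq_sound bS113_o59c _ (by decide +kernel)
noncomputable def bS113_o60c : Pq := (Pq.cons (Pq.L [1] 0 (Pf.C 2 130))
 Pq.nil)
theorem bS113_o60 : AllRef bS113_T bS113_G80 (ptObl 126 (PT.br 1 PT.kid PT.ref) []) :=
  chkPq_sound bS113_o60c _ (by decide +kernel)
noncomputable def bS113_o61c : Pq := (Pq.cons (Pq.L [1] 0 (Pf.C 2 130))
 Pq.nil)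
theorem bS113_o61 : AllRef bS113_T bS113_G81 (ptObl 60 (PT.br 1 PT.kid PT.ref) []) :=
  chkPq_sound bS113_o61c _ (by decide +kernel)
noncomputable def bS113_o62c : Pq := (Pq.cons (Pq.L [1] 0 (Pf.C 2 130))
 Pq.nil)
theorem bS113_o62 : AllRef bS113_T bS113_G82 (ptObl 63 (PT.br 1 PT.kid PT.ref) []) :=
  chkPq_sound bS113_o62c _ (by decide +kernel)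
noncomputable def bS113_o63c : Pq := (Pq.cons (Pq.L [0,1] 0 (Pf.T 2 14 (Pf.cons (Pf.W 8 1 [0,2] [] (Pf.cons (Pf.B 3 2 (Pf.B 3 0 (Pf.T 3 1 (Pf.cons (Pf.T 3 8 (Pf.cons (Pf.T 3 9 (Pf.cons (Pf.T 3 13 (Pf.cons (Pf.W 27 1 [] [0,2,3] (Pf.cons (Pf.B 4 3 (Pf.B 4 2 (Pf.T 4 13 (Pf.cons (Pf.T 4 42 (Pf.cons (Pf.W 13 4 [] [0,1,2,3] (Pf.cons (Pf.B 5 1 (Pf.B 5 3 (Pf.B 5 2 (Pf.C 0 0x205000c101) (Pf.W 26 2 [] [1,5,0,3,4] (Pf.cons (Pf.T 5 44 (Pf.cons (Pf.W 22 5 [] [0,1,3,4] (Pf.cons (Pf.B 6 4 (Pf.B 6 3 (Pf.B 6 1 (Pf.C 23 769) (Pf.C 0 0x205000c301)) (Pf.C 1 390)) (Pf.C 1 518)) Pf.nil)) Pf.nil)) (Pf.cons (Pf.C 7 0xa04302) (Pf.cons (Pf.C 7 0xa04302) Pf.nil))))) (Pf.B 5 2 (Pf.T 5 17 (Pf.cons (Pf.W 26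 2 [] [0,1,3,4,5] (Pf.cons (Pf.B 6 5 (Pf.B 6 1 (Pf.B 6 4 (Pf.T 6 44 (Pf.cons (Pf.W 22 6 [] [0,1,2,4,5] (Pf.cons (Pf.B 7 4 (Pf.B 7 2 (Pf.B 7 5 (Pf.B 7 1 (Pf.C 23 897) (Pf.C 0 0x2050008381)) (Pf.C 0 0x1060010385)) (Pf.C 1 263)) (Pf.C 1 519)) Pf.nil)) Pf.nil)) (Pf.T 6 44 (Pf.cons (Pf.W 6 4 [5,6] [1,2] (Pf.cons (Pf.B 7 6 (Pf.B 7 5 (Pf.B 7 2 (Pf.B 7 1 (Pf.C 0 0x820c14384) (Pf.C 2 135)) (Pf.C 7 0xc04382)) (Pf.C 2 647)) (Pf.C 2 775)) Pf.nil)) Pf.nil))) (Pf.C 2 134)) (Pf.C 2 646)) (Pf.cons (Pf.B 6 5 (Pf.B 6 4 (Pf.B 6 3 (Pf.C 0 0x1060010185) (Pf.C 9 0x400186)) (Pf.C 9 0x400206)) (Pf.C 2 646)) Pf.nil))) (Pf.cons (Pf.C 23 261) Pf.nil))) (Pf.W 26 2 [] [1,5,0,3,4] (Pf.cons (Pf.T 5 44 (Pf.cons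 (Pf.W 31 1 [] [0,2,3,4,5] (Pf.cons (Pf.T 3 42 (Pf.cons (Pf.W 6 0 [1,5] [2,3,4] (Pf.cons (Pf.B 6 5 (Pf.B 6 2 (Pf.B 6 1 (Pf.B 6 4 (Pf.B 6 3 (Pf.T 6 2 (Pf.cons (Pf.T 6 11 (Pf.cons (Pf.T 6 17 (Pf.cons (Pf.W 6 3 [1,5] [0,2,4,6] (Pf.cons (Pf.B 7 6 (Pf.B 7 5 (Pf.B 7 2 (Pf.B 7 1 (Pf.B 7 4 (Pf.T 7 2 (Pf.cons (Pf.T 7 11 (Pf.cons (Pf.T 7 15 (Pf.cons (Pf.W 6 4 [5] [0,1,2,3,6,7] (Pf.cons (Pf.B 8 7 (Pf.B 8 6 (Pf.B 8 5 (Pf.B 8 2 (Pf.B 8 1 (Pf.B 8 3 (Pf.C 0 0x4040a1c083) (Pf.B 8 0 (Pf.C 0 0x300021c403) (Pf.T 8 2 (Pf.cons (Pf.T 8 11 (Pf.cons (Pf.T 8 17 (Pf.cons (Pf.W 6 4 [5,8] [1,2] (Pf.cons (Pf.B 9 8 (Pf.B 9 5 (Pf.B 9 2 (Pf.B 9 1 (Pf.C 0 0x820a20484) (Pf.C 2 137)) (Pf.C 7 0xa04482)) (Pf.C 2 649))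 (Pf.C 2 1033)) Pf.nil)) (Pf.cons (Pf.C 23 264) Pf.nil))) Pf.nil)) (Pf.cons (Pf.C 9 0x80c008) Pf.nil))))) (Pf.C 2 136)) (Pf.C 7 0xa04402)) (Pf.C 2 648)) (Pf.C 2 776)) (Pf.C 2 904)) Pf.nil)) Pf.nil)) (Pf.cons (Pf.T 7 17 (Pf.cons (Pf.W 6 4 [5] [0,1,2,3,7] (Pf.cons (Pf.B 8 7 (Pf.B 8 5 (Pf.B 8 2 (Pf.B 8 1 (Pf.B 8 3 (Pf.C 0 0x4040a1c083) (Pf.B 8 0 (Pf.C 0 0x2080608001) (Pf.T 8 2 (Pf.cons (Pf.T 8 11 (Pf.cons (Pf.T 8 17 (Pf.cons (Pf.W 6 4 [5,8] [1,2] (Pf.cons (Pf.B 9 8 (Pf.B 9 5 (Pf.B 9 2 (Pf.B 9 1 (Pf.C 0 0x820a20484) (Pf.C 2 137)) (Pf.C 7 0xa04482)) (Pf.C 2 649)) (Pf.C 2 1033)) Pf.nil)) (Pf.cons (Pf.C 23 264) Pf.nil))) Pf.nil)) (Pf.cons (Pf.C 9 0x80c008) Pf.nil))))) (Pf.C 2 136)) (Pf.C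 7 0xa04402)) (Pf.C 2 648)) (Pf.C 2 904)) Pf.nil)) (Pf.cons (Pf.C 23 263) Pf.nil))) Pf.nil))) (Pf.cons (Pf.T 7 12 (Pf.cons (Pf.T 7 16 (Pf.cons (Pf.W 6 4 [5] [0,1,2,3,6,7] (Pf.cons (Pf.B 8 7 (Pf.B 8 6 (Pf.B 8 5 (Pf.B 8 2 (Pf.B 8 1 (Pf.B 8 3 (Pf.C 0 0x4040a1c083) (Pf.B 8 0 (Pf.C 0 0x300021c403) (Pf.T 8 2 (Pf.cons (Pf.T 8 11 (Pf.cons (Pf.T 8 17 (Pf.cons (Pf.W 6 4 [5,8] [1,2] (Pf.cons (Pf.B 9 8 (Pf.B 9 5 (Pf.B 9 2 (Pf.B 9 1 (Pf.C 0 0x820a20484) (Pf.C 2 137)) (Pf.C 7 0xa04482)) (Pf.C 2 649)) (Pf.C 2 1033)) Pf.nil)) (Pf.cons (Pf.C 23 264) Pf.nil))) Pf.nil)) (Pf.cons (Pf.C 9 0x80c008) Pf.nil))))) (Pf.C 2 136)) (Pf.C 7 0xa04402)) (Pf.C 2 648)) (Pf.C 2 776)) (Pf.C 2 904)) Pf.nil)) Pf.nil))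 (Pf.cons (Pf.W 6 4 [5] [0,1,2,3,7] (Pf.cons (Pf.B 8 7 (Pf.B 8 5 (Pf.B 8 2 (Pf.B 8 1 (Pf.B 8 3 (Pf.C 0 0x4040a1c083) (Pf.B 8 0 (Pf.C 0 0x2080608001) (Pf.T 8 2 (Pf.cons (Pf.T 8 11 (Pf.cons (Pf.T 8 17 (Pf.cons (Pf.W 6 4 [5,8] [1,2] (Pf.cons (Pf.B 9 8 (Pf.B 9 5 (Pf.B 9 2 (Pf.B 9 1 (Pf.C 0 0x820a20484) (Pf.C 2 137)) (Pf.C 7 0xa04482)) (Pf.C 2 649)) (Pf.C 2 1033)) Pf.nil)) (Pf.cons (Pf.C 23 264) Pf.nil))) Pf.nil)) (Pf.cons (Pf.C 9 0x80c008) Pf.nil))))) (Pf.C 2 136)) (Pf.C 7 0xa04402)) (Pf.C 2 648)) (Pf.C 2 904)) Pf.nil)) Pf.nil))) Pf.nil))) (Pf.B 7 0 (Pf.C 0 0x2070608001) (Pf.T 7 2 (Pf.cons (Pf.T 7 11 (Pf.cons (Pf.T 7 17 (Pf.cons (Pf.W 6 4 [5,7] [1,2] (Pf.cons (Pf.B 8 7 (Pf.B 8 5 (Pf.B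 8 2 (Pf.B 8 1 (Pf.C 0 0x820a1c404) (Pf.C 2 136)) (Pf.C 7 0xa04402)) (Pf.C 2 648)) (Pf.C 2 904)) Pf.nil)) (Pf.cons (Pf.C 23 263) Pf.nil))) Pf.nil)) (Pf.cons (Pf.C 9 0x80c007) Pf.nil))))) (Pf.C 2 135)) (Pf.C 7 0xa04382)) (Pf.C 2 647)) (Pf.C 2 775)) Pf.nil)) (Pf.cons (Pf.C 23 262) Pf.nil))) Pf.nil)) (Pf.cons (Pf.T 6 12 (Pf.cons (Pf.W 6 3 [1,5] [0,2,4,6] (Pf.cons (Pf.B 7 6 (Pf.B 7 5 (Pf.B 7 2 (Pf.B 7 1 (Pf.B 7 4 (Pf.T 7 2 (Pf.cons (Pf.T 7 11 (Pf.cons (Pf.T 7 15 (Pf.cons (Pf.W 6 4 [5] [0,1,2,3,6,7] (Pf.cons (Pf.B 8 7 (Pf.B 8 6 (Pf.B 8 5 (Pf.B 8 2 (Pf.B 8 1 (Pf.B 8 3 (Pf.C 0 0x4040a1c083) (Pf.B 8 0 (Pf.C 0 0x300021c403) (Pf.T 8 2 (Pf.cons (Pf.T 8 11 (Pf.cons (Pf.T 8 17 (Pf.cons (Pf.W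 6 4 [5,8] [1,2] (Pf.cons (Pf.B 9 8 (Pf.B 9 5 (Pf.B 9 2 (Pf.B 9 1 (Pf.C 0 0x820a20484) (Pf.C 2 137)) (Pf.C 7 0xa04482)) (Pf.C 2 649)) (Pf.C 2 1033)) Pf.nil)) (Pf.cons (Pf.C 23 264) Pf.nil))) Pf.nil)) (Pf.cons (Pf.C 9 0x80c008) Pf.nil))))) (Pf.C 2 136)) (Pf.C 7 0xa04402)) (Pf.C 2 648)) (Pf.C 2 776)) (Pf.C 2 904)) Pf.nil)) Pf.nil)) (Pf.cons (Pf.T 7 17 (Pf.cons (Pf.W 6 4 [5] [0,1,2,3,7] (Pf.cons (Pf.B 8 7 (Pf.B 8 5 (Pf.B 8 2 (Pf.B 8 1 (Pf.B 8 3 (Pf.C 0 0x4040a1c083) (Pf.B 8 0 (Pf.C 0 0x2080608001) (Pf.T 8 2 (Pf.cons (Pf.T 8 11 (Pf.cons (Pf.T 8 17 (Pf.cons (Pf.W 6 4 [5,8] [1,2] (Pf.cons (Pf.B 9 8 (Pf.B 9 5 (Pf.B 9 2 (Pf.B 9 1 (Pf.C 0 0x820a20484) (Pf.C 2 137)) (Pf.C 7 0xa04482)) (Pf.C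 2 649)) (Pf.C 2 1033)) Pf.nil)) (Pf.cons (Pf.C 23 264) Pf.nil))) Pf.nil)) (Pf.cons (Pf.C 9 0x80c008) Pf.nil))))) (Pf.C 2 136)) (Pf.C 7 0xa04402)) (Pf.C 2 648)) (Pf.C 2 904)) Pf.nil)) (Pf.cons (Pf.C 23 263) Pf.nil))) Pf.nil))) (Pf.cons (Pf.T 7 12 (Pf.cons (Pf.T 7 16 (Pf.cons (Pf.W 6 4 [5] [0,1,2,3,6,7] (Pf.cons (Pf.B 8 7 (Pf.B 8 6 (Pf.B 8 5 (Pf.B 8 2 (Pf.B 8 1 (Pf.B 8 3 (Pf.C 0 0x4040a1c083) (Pf.B 8 0 (Pf.C 0 0x300021c403) (Pf.T 8 2 (Pf.cons (Pf.T 8 11 (Pf.cons (Pf.T 8 17 (Pf.cons (Pf.W 6 4 [5,8] [1,2] (Pf.cons (Pf.B 9 8 (Pf.B 9 5 (Pf.B 9 2 (Pf.B 9 1 (Pf.C 0 0x820a20484) (Pf.C 2 137)) (Pf.C 7 0xa04482)) (Pf.C 2 649)) (Pf.C 2 1033)) Pf.nil)) (Pf.cons (Pf.C 23 264) Pf.nil))) Pf.nil))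 (Pf.cons (Pf.C 9 0x80c008) Pf.nil))))) (Pf.C 2 136)) (Pf.C 7 0xa04402)) (Pf.C 2 648)) (Pf.C 2 776)) (Pf.C 2 904)) Pf.nil)) Pf.nil)) (Pf.cons (Pf.W 6 4 [5] [0,1,2,3,7] (Pf.cons (Pf.B 8 7 (Pf.B 8 5 (Pf.B 8 2 (Pf.B 8 1 (Pf.B 8 3 (Pf.C 0 0x4040a1c083) (Pf.B 8 0 (Pf.C 0 0x2080608001) (Pf.T 8 2 (Pf.cons (Pf.T 8 11 (Pf.cons (Pf.T 8 17 (Pf.cons (Pf.W 6 4 [5,8] [1,2] (Pf.cons (Pf.B 9 8 (Pf.B 9 5 (Pf.B 9 2 (Pf.B 9 1 (Pf.C 0 0x820a20484) (Pf.C 2 137)) (Pf.C 7 0xa04482)) (Pf.C 2 649)) (Pf.C 2 1033)) Pf.nil)) (Pf.cons (Pf.C 23 264) Pf.nil))) Pf.nil)) (Pf.cons (Pf.C 9 0x80c008) Pf.nil))))) (Pf.C 2 136)) (Pf.C 7 0xa04402)) (Pf.C 2 648)) (Pf.C 2 904)) Pf.nil)) Pf.nil))) Pf.nil))) (Pf.B 7 0 (Pf.C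 0 0x2070608001) (Pf.T 7 2 (Pf.cons (Pf.T 7 11 (Pf.cons (Pf.T 7 17 (Pf.cons (Pf.W 6 4 [5,7] [1,2] (Pf.cons (Pf.B 8 7 (Pf.B 8 5 (Pf.B 8 2 (Pf.B 8 1 (Pf.C 0 0x820a1c404) (Pf.C 2 136)) (Pf.C 7 0xa04402)) (Pf.C 2 648)) (Pf.C 2 904)) Pf.nil)) (Pf.cons (Pf.C 23 263) Pf.nil))) Pf.nil)) (Pf.cons (Pf.C 9 0x80c007) Pf.nil))))) (Pf.C 2 135)) (Pf.C 7 0xa04382)) (Pf.C 2 647)) (Pf.C 2 775)) Pf.nil)) Pf.nil)) Pf.nil))) (Pf.T 6 2 (Pf.cons (Pf.T 6 11 (Pf.cons (Pf.T 6 17 (Pf.cons (Pf.W 6 4 [5] [0,1,2,3,6] (Pf.cons (Pf.B 7 6 (Pf.B 7 5 (Pf.B 7 2 (Pf.B 7 1 (Pf.B 7 3 (Pf.C 0 0x3840a18083) (Pf.B 7 0 (Pf.C 0 0x2070608001) (Pf.T 7 2 (Pf.cons (Pf.T 7 11 (Pf.cons (Pf.T 7 17 (Pf.cons (Pf.W 6 4 [5,7] [1,2]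 (Pf.cons (Pf.B 8 7 (Pf.B 8 5 (Pf.B 8 2 (Pf.B 8 1 (Pf.C 0 0x820a1c404) (Pf.C 2 136)) (Pf.C 7 0xa04402)) (Pf.C 2 648)) (Pf.C 2 904)) Pf.nil)) (Pf.cons (Pf.C 23 263) Pf.nil))) Pf.nil)) (Pf.cons (Pf.C 9 0x80c007) Pf.nil))))) (Pf.C 2 135)) (Pf.C 7 0xa04382)) (Pf.C 2 647)) (Pf.C 2 775)) Pf.nil)) (Pf.cons (Pf.C 23 262) Pf.nil))) Pf.nil)) (Pf.cons (Pf.T 6 12 (Pf.cons (Pf.W 6 4 [5] [0,1,2,3,6] (Pf.cons (Pf.B 7 6 (Pf.B 7 5 (Pf.B 7 2 (Pf.B 7 1 (Pf.B 7 3 (Pf.C 0 0x3840a18083) (Pf.B 7 0 (Pf.C 0 0x2070608001) (Pf.T 7 2 (Pf.cons (Pf.T 7 11 (Pf.cons (Pf.T 7 17 (Pf.cons (Pf.W 6 4 [5,7] [1,2] (Pf.cons (Pf.B 8 7 (Pf.B 8 5 (Pf.B 8 2 (Pf.B 8 1 (Pf.C 0 0x820a1c404) (Pf.C 2 136)) (Pf.C 7 0xa04402)) (Pf.C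 2 648)) (Pf.C 2 904)) Pf.nil)) (Pf.cons (Pf.C 23 263) Pf.nil))) Pf.nil)) (Pf.cons (Pf.C 9 0x80c007) Pf.nil))))) (Pf.C 2 135)) (Pf.C 7 0xa04382)) (Pf.C 2 647)) (Pf.C 2 775)) Pf.nil)) Pf.nil)) Pf.nil)))) (Pf.B 6 3 (Pf.C 0 0x2060008181) (Pf.T 6 2 (Pf.cons (Pf.T 6 11 (Pf.cons (Pf.T 6 17 (Pf.cons (Pf.W 6 4 [5,6] [1,2] (Pf.cons (Pf.B 7 6 (Pf.B 7 5 (Pf.B 7 2 (Pf.B 7 1 (Pf.C 0 0x820a18384) (Pf.C 2 135)) (Pf.C 7 0xa04382)) (Pf.C 2 647)) (Pf.C 2 775)) Pf.nil)) (Pf.cons (Pf.C 23 262) Pf.nil))) Pf.nil)) (Pf.cons (Pf.C 9 0x80c006) Pf.nil))))) (Pf.C 2 134)) (Pf.C 7 0xa04302)) (Pf.C 2 646)) Pf.nil)) Pf.nil)) (Pf.cons (Pf.B 6 4 (Pf.B 6 3 (Pf.B 6 2 (Pf.B 6 5 (Pf.T 6 13 (Pf.cons (Pf.T 6 42 (Pf.cons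 (Pf.W 22 5 [] [0,1,4,6] (Pf.cons (Pf.B 7 6 (Pf.B 7 4 (Pf.B 7 1 (Pf.C 23 897) (Pf.C 0 0x2050018381)) (Pf.C 1 519)) (Pf.C 1 775)) Pf.nil)) Pf.nil)) Pf.nil)) (Pf.T 6 13 (Pf.cons (Pf.T 6 42 (Pf.cons (Pf.W 6 0 [1,5] [2,3,4,6] (Pf.cons (Pf.B 7 5 (Pf.B 7 2 (Pf.B 7 1 (Pf.B 7 6 (Pf.B 7 4 (Pf.B 7 3 (Pf.T 7 2 (Pf.cons (Pf.T 7 11 (Pf.cons (Pf.T 7 17 (Pf.cons (Pf.W 6 3 [1,5] [0,2,4,6,7] (Pf.cons (Pf.B 8 7 (Pf.B 8 5 (Pf.B 8 2 (Pf.B 8 1 (Pf.B 8 6 (Pf.B 8 4 (Pf.T 8 2 (Pf.cons (Pf.T 8 11 (Pf.cons (Pf.T 8 15 (Pf.cons (Pf.W 6 4 [5] [0,1,2,3,7,8] (Pf.cons (Pf.B 9 8 (Pf.B 9 7 (Pf.B 9 5 (Pf.B 9 2 (Pf.B 9 1 (Pf.B 9 3 (Pf.C 0 0x4840a20083) (Pf.B 9 0 (Pf.C 0 0x3800220483) (Pf.T 9 2 (Pf.cons (Pf.T 9 11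 (Pf.cons (Pf.T 9 17 (Pf.cons (Pf.W 6 4 [5,9] [1,2] (Pf.cons (Pf.B 10 9 (Pf.B 10 5 (Pf.B 10 2 (Pf.B 10 1 (Pf.C 0 0x820a24504) (Pf.C 2 138)) (Pf.C 7 0xa04502)) (Pf.C 2 650)) (Pf.C 2 1162)) Pf.nil)) (Pf.cons (Pf.C 23 265) Pf.nil))) Pf.nil)) (Pf.cons (Pf.C 9 0x80c009) Pf.nil))))) (Pf.C 2 137)) (Pf.C 7 0xa04482)) (Pf.C 2 649)) (Pf.C 2 905)) (Pf.C 2 1033)) Pf.nil)) Pf.nil)) (Pf.cons (Pf.T 8 17 (Pf.cons (Pf.W 6 4 [5] [0,1,2,3,6,8] (Pf.cons (Pf.B 9 8 (Pf.B 9 5 (Pf.B 9 2 (Pf.B 9 1 (Pf.B 9 3 (Pf.C 0 0x4840a20083) (Pf.B 9 6 (Pf.C 0 0x2090608301) (Pf.B 9 0 (Pf.C 0 0x80618209) (Pf.T 9 2 (Pf.cons (Pf.T 9 11 (Pf.cons (Pf.T 9 17 (Pf.cons (Pf.W 6 4 [5,9] [1,2] (Pf.cons (Pf.B 10 9 (Pf.B 10 5 (Pf.B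 10 2 (Pf.B 10 1 (Pf.C 0 0x820a24504) (Pf.C 2 138)) (Pf.C 7 0xa04502)) (Pf.C 2 650)) (Pf.C 2 1162)) Pf.nil)) (Pf.cons (Pf.C 23 265) Pf.nil))) Pf.nil)) (Pf.cons (Pf.C 9 0x80c009) Pf.nil)))))) (Pf.C 2 137)) (Pf.C 7 0xa04482)) (Pf.C 2 649)) (Pf.C 2 1033)) Pf.nil)) (Pf.cons (Pf.C 23 264) Pf.nil))) Pf.nil))) (Pf.cons (Pf.T 8 12 (Pf.cons (Pf.T 8 16 (Pf.cons (Pf.W 6 4 [5] [0,1,2,3,7,8] (Pf.cons (Pf.B 9 8 (Pf.B 9 7 (Pf.B 9 5 (Pf.B 9 2 (Pf.B 9 1 (Pf.B 9 3 (Pf.C 0 0x4840a20083) (Pf.B 9 0 (Pf.C 0 0x3800220483) (Pf.T 9 2 (Pf.cons (Pf.T 9 11 (Pf.cons (Pf.T 9 17 (Pf.cons (Pf.W 6 4 [5,9] [1,2] (Pf.cons (Pf.B 10 9 (Pf.B 10 5 (Pf.B 10 2 (Pf.B 10 1 (Pf.C 0 0x820a24504) (Pf.C 2 138)) (Pf.C 7 0xa04502))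 (Pf.C 2 650)) (Pf.C 2 1162)) Pf.nil)) (Pf.cons (Pf.C 23 265) Pf.nil))) Pf.nil)) (Pf.cons (Pf.C 9 0x80c009) Pf.nil))))) (Pf.C 2 137)) (Pf.C 7 0xa04482)) (Pf.C 2 649)) (Pf.C 2 905)) (Pf.C 2 1033)) Pf.nil)) Pf.nil)) (Pf.cons (Pf.W 6 4 [5] [0,1,2,3,6,8] (Pf.cons (Pf.B 9 8 (Pf.B 9 5 (Pf.B 9 2 (Pf.B 9 1 (Pf.B 9 3 (Pf.C 0 0x4840a20083) (Pf.B 9 6 (Pf.C 0 0x2090608301) (Pf.B 9 0 (Pf.C 0 0x80618209) (Pf.T 9 2 (Pf.cons (Pf.T 9 11 (Pf.cons (Pf.T 9 17 (Pf.cons (Pf.W 6 4 [5,9] [1,2] (Pf.cons (Pf.B 10 9 (Pf.B 10 5 (Pf.B 10 2 (Pf.B 10 1 (Pf.C 0 0x820a24504) (Pf.C 2 138)) (Pf.C 7 0xa04502)) (Pf.C 2 650)) (Pf.C 2 1162)) Pf.nil)) (Pf.cons (Pf.C 23 265) Pf.nil))) Pf.nil)) (Pf.cons (Pf.C 9 0x80c009)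 Pf.nil)))))) (Pf.C 2 137)) (Pf.C 7 0xa04482)) (Pf.C 2 649)) (Pf.C 2 1033)) Pf.nil)) Pf.nil))) Pf.nil))) (Pf.C 0 0x2080618101)) (Pf.B 8 4 (Pf.T 8 2 (Pf.cons (Pf.T 8 11 (Pf.cons (Pf.T 8 15 (Pf.cons (Pf.W 30 6 [] [0,3,5,7,1,8] (Pf.cons (Pf.T 7 44 (Pf.cons (Pf.W 3 771 [] [0,1,7,8] (Pf.cons (Pf.B 9 8 (Pf.B 9 7 (Pf.B 9 1 (Pf.B 9 0 (Pf.C 0 0x3800220483) (Pf.C 0 0x406021c480)) (Pf.C 2 137)) (Pf.C 2 905)) (Pf.C 2 1033)) (Pf.cons (Pf.B 9 8 (Pf.B 9 7 (Pf.B 9 1 (Pf.B 9 0 (Pf.C 0 0x3800220486) (Pf.C 0 0x403021c480)) (Pf.C 2 137)) (Pf.C 2 905)) (Pf.C 2 1033)) Pf.nil))) Pf.nil)) (Pf.cons (Pf.B 9 8 (Pf.B 9 7 (Pf.B 9 5 (Pf.C 0 0x4060a1c480) (Pf.C 2 649)) (Pf.C 2 905)) (Pf.C 2 1033)) (Pf.cons (Pf.B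 9 8 (Pf.B 9 7 (Pf.B 9 5 (Pf.C 0 0x4060a1c480) (Pf.C 2 649)) (Pf.C 2 905)) (Pf.C 2 1033)) (Pf.cons (Pf.B 9 8 (Pf.B 9 7 (Pf.B 9 5 (Pf.C 0 0x3800a20486) (Pf.C 2 649)) (Pf.C 2 905)) (Pf.C 2 1033)) (Pf.cons (Pf.B 9 8 (Pf.B 9 7 (Pf.B 9 5 (Pf.B 9 3 (Pf.C 0 0x4030a1c480) (Pf.C 9 0xc00189)) (Pf.C 2 649)) (Pf.C 2 905)) (Pf.C 2 1033)) Pf.nil)))))) Pf.nil)) (Pf.cons (Pf.T 8 17 (Pf.cons (Pf.W 6 4 [5] [0,1,2,3,6,8] (Pf.cons (Pf.B 9 8 (Pf.B 9 5 (Pf.B 9 2 (Pf.B 9 1 (Pf.B 9 6 (Pf.C 0 0x4840a20086) (Pf.B 9 3 (Pf.C 0 0x2090c08181) (Pf.B 9 0 (Pf.C 0 0x2090608001) (Pf.T 9 2 (Pf.cons (Pf.T 9 11 (Pf.cons (Pf.T 9 17 (Pf.cons (Pf.W 6 4 [5,9] [1,2] (Pf.cons (Pf.B 10 9 (Pf.B 10 5 (Pf.B 10 2 (Pf.B 10 1 (Pf.C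 0 0x820a24504) (Pf.C 2 138)) (Pf.C 7 0xa04502)) (Pf.C 2 650)) (Pf.C 2 1162)) Pf.nil)) (Pf.cons (Pf.C 23 265) Pf.nil))) Pf.nil)) (Pf.cons (Pf.C 9 0x80c009) Pf.nil)))))) (Pf.C 2 137)) (Pf.C 7 0xa04482)) (Pf.C 2 649)) (Pf.C 2 1033)) Pf.nil)) (Pf.cons (Pf.C 23 264) Pf.nil))) Pf.nil))) (Pf.cons (Pf.B 8 0 (Pf.T 8 12 (Pf.cons (Pf.T 8 16 (Pf.cons (Pf.W 30 6 [] [0,3,5,7,1,8] (Pf.cons (Pf.T 7 44 (Pf.cons (Pf.W 3 771 [] [0,1,7,8] (Pf.cons (Pf.B 9 8 (Pf.B 9 7 (Pf.B 9 1 (Pf.B 9 0 (Pf.C 0 0x3800220483) (Pf.C 0 0x406021c480)) (Pf.C 2 137)) (Pf.C 2 905)) (Pf.C 2 1033)) (Pf.cons (Pf.B 9 8 (Pf.B 9 7 (Pf.B 9 1 (Pf.B 9 0 (Pf.C 0 0x3800220486) (Pf.C 0 0x403021c480)) (Pf.C 2 137)) (Pf.C 2 905)) (Pf.C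 2 1033)) Pf.nil))) Pf.nil)) (Pf.cons (Pf.B 9 8 (Pf.B 9 7 (Pf.B 9 5 (Pf.C 0 0x4060a1c480) (Pf.C 2 649)) (Pf.C 2 905)) (Pf.C 2 1033)) (Pf.cons (Pf.B 9 8 (Pf.B 9 7 (Pf.B 9 5 (Pf.C 0 0x4060a1c480) (Pf.C 2 649)) (Pf.C 2 905)) (Pf.C 2 1033)) (Pf.cons (Pf.T 8 47 (Pf.cons (Pf.W 3 771 [] [0,1,7,8] (Pf.cons (Pf.B 9 8 (Pf.B 9 7 (Pf.B 9 1 (Pf.B 9 0 (Pf.C 0 0x3800220483) (Pf.C 0 0x406021c480)) (Pf.C 2 137)) (Pf.C 2 905)) (Pf.C 2 1033)) (Pf.cons (Pf.B 9 8 (Pf.B 9 7 (Pf.B 9 1 (Pf.B 9 0 (Pf.C 0 0x3800220486) (Pf.C 0 0x403021c480)) (Pf.C 2 137)) (Pf.C 2 905)) (Pf.C 2 1033)) Pf.nil))) Pf.nil)) (Pf.cons (Pf.B 9 8 (Pf.B 9 7 (Pf.B 9 5 (Pf.C 0 0x3800a20486) (Pf.C 2 649)) (Pf.C 2 905)) (Pf.C 2 1033))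 (Pf.cons (Pf.B 9 8 (Pf.B 9 7 (Pf.B 9 5 (Pf.B 9 3 (Pf.C 0 0x4030a1c480) (Pf.C 9 0xc00189)) (Pf.C 2 649)) (Pf.C 2 905)) (Pf.C 2 1033)) Pf.nil))))))) Pf.nil)) Pf.nil)) (Pf.C 9 0xc0c008)) Pf.nil))) (Pf.B 8 0 (Pf.C 0 0x2080608001) (Pf.T 8 2 (Pf.cons (Pf.T 8 11 (Pf.cons (Pf.T 8 17 (Pf.cons (Pf.W 6 4 [5,8] [1,2] (Pf.cons (Pf.B 9 8 (Pf.B 9 5 (Pf.B 9 2 (Pf.B 9 1 (Pf.C 0 0x820a20484) (Pf.C 2 137)) (Pf.C 7 0xa04482)) (Pf.C 2 649)) (Pf.C 2 1033)) Pf.nil)) (Pf.cons (Pf.C 23 264) Pf.nil))) Pf.nil)) (Pf.cons (Pf.C 9 0x80c008) Pf.nil)))))) (Pf.C 2 136)) (Pf.C 7 0xa04402)) (Pf.C 2 648)) (Pf.C 2 904)) Pf.nil)) (Pf.cons (Pf.C 23 263) Pf.nil))) Pf.nil)) (Pf.cons (Pf.T 7 12 (Pf.cons (Pf.W 6 3 [1,5]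 [0,2,4,6,7] (Pf.cons (Pf.B 8 7 (Pf.B 8 5 (Pf.B 8 2 (Pf.B 8 1 (Pf.B 8 6 (Pf.B 8 4 (Pf.T 8 2 (Pf.cons (Pf.T 8 11 (Pf.cons (Pf.T 8 15 (Pf.cons (Pf.W 6 4 [5] [0,1,2,3,7,8] (Pf.cons (Pf.B 9 8 (Pf.B 9 7 (Pf.B 9 5 (Pf.B 9 2 (Pf.B 9 1 (Pf.B 9 3 (Pf.C 0 0x4840a20083) (Pf.B 9 0 (Pf.C 0 0x3800220483) (Pf.T 9 2 (Pf.cons (Pf.T 9 11 (Pf.cons (Pf.T 9 17 (Pf.cons (Pf.W 6 4 [5,9] [1,2] (Pf.cons (Pf.B 10 9 (Pf.B 10 5 (Pf.B 10 2 (Pf.B 10 1 (Pf.C 0 0x820a24504) (Pf.C 2 138)) (Pf.C 7 0xa04502)) (Pf.C 2 650)) (Pf.C 2 1162)) Pf.nil)) (Pf.cons (Pf.C 23 265) Pf.nil))) Pf.nil)) (Pf.cons (Pf.C 9 0x80c009) Pf.nil))))) (Pf.C 2 137)) (Pf.C 7 0xa04482)) (Pf.C 2 649)) (Pf.C 2 905)) (Pf.C 2 1033)) Pf.nil)) Pf.nil))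 (Pf.cons (Pf.T 8 17 (Pf.cons (Pf.W 6 4 [5] [0,1,2,3,6,8] (Pf.cons (Pf.B 9 8 (Pf.B 9 5 (Pf.B 9 2 (Pf.B 9 1 (Pf.B 9 3 (Pf.C 0 0x4840a20083) (Pf.B 9 6 (Pf.C 0 0x2090608301) (Pf.B 9 0 (Pf.C 0 0x80618209) (Pf.T 9 2 (Pf.cons (Pf.T 9 11 (Pf.cons (Pf.T 9 17 (Pf.cons (Pf.W 6 4 [5,9] [1,2] (Pf.cons (Pf.B 10 9 (Pf.B 10 5 (Pf.B 10 2 (Pf.B 10 1 (Pf.C 0 0x820a24504) (Pf.C 2 138)) (Pf.C 7 0xa04502)) (Pf.C 2 650)) (Pf.C 2 1162)) Pf.nil)) (Pf.cons (Pf.C 23 265) Pf.nil))) Pf.nil)) (Pf.cons (Pf.C 9 0x80c009) Pf.nil)))))) (Pf.C 2 137)) (Pf.C 7 0xa04482)) (Pf.C 2 649)) (Pf.C 2 1033)) Pf.nil)) (Pf.cons (Pf.C 23 264) Pf.nil))) Pf.nil))) (Pf.cons (Pf.T 8 12 (Pf.cons (Pf.T 8 16 (Pf.cons (Pf.W 6 4 [5] [0,1,2,3,7,8]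 (Pf.cons (Pf.B 9 8 (Pf.B 9 7 (Pf.B 9 5 (Pf.B 9 2 (Pf.B 9 1 (Pf.B 9 3 (Pf.C 0 0x4840a20083) (Pf.B 9 0 (Pf.C 0 0x3800220483) (Pf.T 9 2 (Pf.cons (Pf.T 9 11 (Pf.cons (Pf.T 9 17 (Pf.cons (Pf.W 6 4 [5,9] [1,2] (Pf.cons (Pf.B 10 9 (Pf.B 10 5 (Pf.B 10 2 (Pf.B 10 1 (Pf.C 0 0x820a24504) (Pf.C 2 138)) (Pf.C 7 0xa04502)) (Pf.C 2 650)) (Pf.C 2 1162)) Pf.nil)) (Pf.cons (Pf.C 23 265) Pf.nil))) Pf.nil)) (Pf.cons (Pf.C 9 0x80c009) Pf.nil))))) (Pf.C 2 137)) (Pf.C 7 0xa04482)) (Pf.C 2 649)) (Pf.C 2 905)) (Pf.C 2 1033)) Pf.nil)) Pf.nil)) (Pf.cons (Pf.W 6 4 [5] [0,1,2,3,6,8] (Pf.cons (Pf.B 9 8 (Pf.B 9 5 (Pf.B 9 2 (Pf.B 9 1 (Pf.B 9 3 (Pf.C 0 0x4840a20083) (Pf.B 9 6 (Pf.C 0 0x2090608301) (Pf.B 9 0 (Pf.C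 0 0x80618209) (Pf.T 9 2 (Pf.cons (Pf.T 9 11 (Pf.cons (Pf.T 9 17 (Pf.cons (Pf.W 6 4 [5,9] [1,2] (Pf.cons (Pf.B 10 9 (Pf.B 10 5 (Pf.B 10 2 (Pf.B 10 1 (Pf.C 0 0x820a24504) (Pf.C 2 138)) (Pf.C 7 0xa04502)) (Pf.C 2 650)) (Pf.C 2 1162)) Pf.nil)) (Pf.cons (Pf.C 23 265) Pf.nil))) Pf.nil)) (Pf.cons (Pf.C 9 0x80c009) Pf.nil)))))) (Pf.C 2 137)) (Pf.C 7 0xa04482)) (Pf.C 2 649)) (Pf.C 2 1033)) Pf.nil)) Pf.nil))) Pf.nil))) (Pf.C 0 0x2080618101)) (Pf.B 8 4 (Pf.T 8 2 (Pf.cons (Pf.T 8 11 (Pf.cons (Pf.T 8 15 (Pf.cons (Pf.W 30 6 [] [0,3,5,7,8] (Pf.cons (Pf.B 9 8 (Pf.B 9 7 (Pf.B 9 5 (Pf.C 0 0x4060a1c480) (Pf.C 2 649)) (Pf.C 2 905)) (Pf.C 2 1033)) (Pf.cons (Pf.B 9 8 (Pf.B 9 7 (Pf.B 9 5 (Pf.C 0 0x4060a1c480)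 (Pf.C 2 649)) (Pf.C 2 905)) (Pf.C 2 1033)) (Pf.cons (Pf.B 9 8 (Pf.B 9 7 (Pf.B 9 5 (Pf.C 0 0x3800a20486) (Pf.C 2 649)) (Pf.C 2 905)) (Pf.C 2 1033)) (Pf.cons (Pf.B 9 8 (Pf.B 9 7 (Pf.B 9 5 (Pf.B 9 3 (Pf.C 0 0x4030a1c480) (Pf.C 9 0xc00189)) (Pf.C 2 649)) (Pf.C 2 905)) (Pf.C 2 1033)) Pf.nil))))) Pf.nil)) (Pf.cons (Pf.T 8 17 (Pf.cons (Pf.W 6 4 [5] [0,1,2,3,6,8] (Pf.cons (Pf.B 9 8 (Pf.B 9 5 (Pf.B 9 2 (Pf.B 9 1 (Pf.B 9 6 (Pf.C 0 0x4840a20086) (Pf.B 9 3 (Pf.C 0 0x2090c08181) (Pf.B 9 0 (Pf.C 0 0x2090608001) (Pf.T 9 2 (Pf.cons (Pf.T 9 11 (Pf.cons (Pf.T 9 17 (Pf.cons (Pf.W 6 4 [5,9] [1,2] (Pf.cons (Pf.B 10 9 (Pf.B 10 5 (Pf.B 10 2 (Pf.B 10 1 (Pf.C 0 0x820a24504) (Pf.C 2 138)) (Pf.C 7 0xa04502))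 (Pf.C 2 650)) (Pf.C 2 1162)) Pf.nil)) (Pf.cons (Pf.C 23 265) Pf.nil))) Pf.nil)) (Pf.cons (Pf.C 9 0x80c009) Pf.nil)))))) (Pf.C 2 137)) (Pf.C 7 0xa04482)) (Pf.C 2 649)) (Pf.C 2 1033)) Pf.nil)) (Pf.cons (Pf.C 23 264) Pf.nil))) Pf.nil))) (Pf.cons (Pf.B 8 0 (Pf.T 8 12 (Pf.cons (Pf.T 8 16 (Pf.cons (Pf.W 30 6 [] [0,3,5,7,8,1] (Pf.cons (Pf.B 9 8 (Pf.B 9 7 (Pf.B 9 5 (Pf.C 0 0x4060a1c480) (Pf.C 2 649)) (Pf.C 2 905)) (Pf.C 2 1033)) (Pf.cons (Pf.B 9 8 (Pf.B 9 7 (Pf.B 9 5 (Pf.C 0 0x4060a1c480) (Pf.C 2 649)) (Pf.C 2 905)) (Pf.C 2 1033)) (Pf.cons (Pf.T 8 47 (Pf.cons (Pf.W 3 771 [] [0,1,7,8] (Pf.cons (Pf.B 9 8 (Pf.B 9 7 (Pf.B 9 1 (Pf.B 9 0 (Pf.C 0 0x3800220483) (Pf.C 0 0x406021c480)) (Pf.C 2 137))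 (Pf.C 2 905)) (Pf.C 2 1033)) (Pf.cons (Pf.B 9 8 (Pf.B 9 7 (Pf.B 9 1 (Pf.B 9 0 (Pf.C 0 0x3800220486) (Pf.C 0 0x403021c480)) (Pf.C 2 137)) (Pf.C 2 905)) (Pf.C 2 1033)) Pf.nil))) Pf.nil)) (Pf.cons (Pf.B 9 8 (Pf.B 9 7 (Pf.B 9 5 (Pf.C 0 0x3800a20486) (Pf.C 2 649)) (Pf.C 2 905)) (Pf.C 2 1033)) (Pf.cons (Pf.B 9 8 (Pf.B 9 7 (Pf.B 9 5 (Pf.B 9 3 (Pf.C 0 0x4030a1c480) (Pf.C 9 0xc00189)) (Pf.C 2 649)) (Pf.C 2 905)) (Pf.C 2 1033)) Pf.nil)))))) Pf.nil)) Pf.nil)) (Pf.C 9 0xc0c008)) Pf.nil))) (Pf.B 8 0 (Pf.C 0 0x2080608001) (Pf.T 8 2 (Pf.cons (Pf.T 8 11 (Pf.cons (Pf.T 8 17 (Pf.cons (Pf.W 6 4 [5,8] [1,2] (Pf.cons (Pf.B 9 8 (Pf.B 9 5 (Pf.B 9 2 (Pf.B 9 1 (Pf.C 0 0x820a20484) (Pf.C 2 137)) (Pf.C 7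 0xa04482)) (Pf.C 2 649)) (Pf.C 2 1033)) Pf.nil)) (Pf.cons (Pf.C 23 264) Pf.nil))) Pf.nil)) (Pf.cons (Pf.C 9 0x80c008) Pf.nil)))))) (Pf.C 2 136)) (Pf.C 7 0xa04402)) (Pf.C 2 648)) (Pf.C 2 904)) Pf.nil)) Pf.nil)) Pf.nil))) (Pf.T 7 2 (Pf.cons (Pf.T 7 11 (Pf.cons (Pf.T 7 17 (Pf.cons (Pf.W 6 4 [5] [0,1,2,3,6,7] (Pf.cons (Pf.B 8 7 (Pf.B 8 5 (Pf.B 8 2 (Pf.B 8 1 (Pf.B 8 3 (Pf.C 0 0x4040a1c083) (Pf.B 8 6 (Pf.C 0 0x2080608301) (Pf.B 8 0 (Pf.C 0 0x70618208) (Pf.T 8 2 (Pf.cons (Pf.T 8 11 (Pf.cons (Pf.T 8 17 (Pf.cons (Pf.W 6 4 [5,8] [1,2] (Pf.cons (Pf.B 9 8 (Pf.B 9 5 (Pf.B 9 2 (Pf.B 9 1 (Pf.C 0 0x820a20484) (Pf.C 2 137)) (Pf.C 7 0xa04482)) (Pf.C 2 649)) (Pf.C 2 1033)) Pf.nil)) (Pf.cons (Pf.C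 23 264) Pf.nil))) Pf.nil)) (Pf.cons (Pf.C 9 0x80c008) Pf.nil)))))) (Pf.C 2 136)) (Pf.C 7 0xa04402)) (Pf.C 2 648)) (Pf.C 2 904)) Pf.nil)) (Pf.cons (Pf.C 23 263) Pf.nil))) Pf.nil)) (Pf.cons (Pf.T 7 12 (Pf.cons (Pf.W 6 4 [5] [0,1,2,3,6,7] (Pf.cons (Pf.B 8 7 (Pf.B 8 5 (Pf.B 8 2 (Pf.B 8 1 (Pf.B 8 3 (Pf.C 0 0x4040a1c083) (Pf.B 8 6 (Pf.C 0 0x2080608301) (Pf.B 8 0 (Pf.C 0 0x70618208) (Pf.T 8 2 (Pf.cons (Pf.T 8 11 (Pf.cons (Pf.T 8 17 (Pf.cons (Pf.W 6 4 [5,8] [1,2] (Pf.cons (Pf.B 9 8 (Pf.B 9 5 (Pf.B 9 2 (Pf.B 9 1 (Pf.C 0 0x820a20484) (Pf.C 2 137)) (Pf.C 7 0xa04482)) (Pf.C 2 649)) (Pf.C 2 1033)) Pf.nil)) (Pf.cons (Pf.C 23 264) Pf.nil))) Pf.nil)) (Pf.cons (Pf.C 9 0x80c008) Pf.nil)))))) (Pf.C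 2 136)) (Pf.C 7 0xa04402)) (Pf.C 2 648)) (Pf.C 2 904)) Pf.nil)) Pf.nil)) Pf.nil)))) (Pf.C 0 0x2070018101)) (Pf.B 7 4 (Pf.B 7 3 (Pf.T 7 2 (Pf.cons (Pf.T 7 11 (Pf.cons (Pf.T 7 17 (Pf.cons (Pf.W 6 3 [1,5] [0,2,4,6,7] (Pf.cons (Pf.B 8 7 (Pf.B 8 5 (Pf.B 8 2 (Pf.B 8 1 (Pf.B 8 6 (Pf.B 8 4 (Pf.T 8 2 (Pf.cons (Pf.T 8 11 (Pf.cons (Pf.T 8 15 (Pf.cons (Pf.W 30 6 [] [0,3,5,7,8] (Pf.cons (Pf.B 9 8 (Pf.B 9 7 (Pf.B 9 5 (Pf.B 9 3 (Pf.C 0 0x4030a1c480) (Pf.C 0 0x3860a20483)) (Pf.C 2 649)) (Pf.C 2 905)) (Pf.C 2 1033)) (Pf.cons (Pf.B 9 8 (Pf.B 9 7 (Pf.B 9 5 (Pf.B 9 3 (Pf.C 0 0x4030a1c480) (Pf.C 0 0x3860a20483)) (Pf.C 2 649)) (Pf.C 2 905)) (Pf.C 2 1033)) (Pf.cons (Pf.B 9 8 (Pf.B 9 7 (Pf.B 9 5 (Pf.B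 9 3 (Pf.C 0 0x4030a1c486) (Pf.C 0 0x3800a20483)) (Pf.C 2 649)) (Pf.C 2 905)) (Pf.C 2 1033)) (Pf.cons (Pf.B 9 8 (Pf.B 9 7 (Pf.B 9 5 (Pf.B 9 3 (Pf.C 0 0x4030a1c480) (Pf.C 9 0xc00189)) (Pf.C 2 649)) (Pf.C 2 905)) (Pf.C 2 1033)) Pf.nil))))) Pf.nil)) (Pf.cons (Pf.T 8 17 (Pf.cons (Pf.W 6 4 [5] [0,1,2,3,6,7,8] (Pf.cons (Pf.B 9 8 (Pf.B 9 7 (Pf.B 9 5 (Pf.B 9 2 (Pf.B 9 1 (Pf.B 9 6 (Pf.C 0 0x4840a1c086) (Pf.B 9 3 (Pf.C 0 0x403021c486) (Pf.B 9 0 (Pf.C 0 0x70c10189) (Pf.T 9 2 (Pf.cons (Pf.T 9 11 (Pf.cons (Pf.T 9 17 (Pf.cons (Pf.W 6 4 [5,9] [1,2] (Pf.cons (Pf.B 10 9 (Pf.B 10 5 (Pf.B 10 2 (Pf.B 10 1 (Pf.C 0 0x820a24504) (Pf.C 2 138)) (Pf.C 7 0xa04502)) (Pf.C 2 650)) (Pf.C 2 1162)) Pf.nil)) (Pf.cons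 (Pf.C 23 265) Pf.nil))) Pf.nil)) (Pf.cons (Pf.C 9 0x80c009) Pf.nil)))))) (Pf.C 2 137)) (Pf.C 7 0xa04482)) (Pf.C 2 649)) (Pf.C 2 905)) (Pf.C 2 1033)) Pf.nil)) (Pf.cons (Pf.C 23 264) Pf.nil))) Pf.nil))) (Pf.cons (Pf.T 8 12 (Pf.cons (Pf.T 8 16 (Pf.cons (Pf.W 30 6 [] [0,3,5,7,8] (Pf.cons (Pf.B 9 8 (Pf.B 9 7 (Pf.B 9 5 (Pf.B 9 3 (Pf.C 0 0x4030a1c480) (Pf.C 0 0x3860a20483)) (Pf.C 2 649)) (Pf.C 2 905)) (Pf.C 2 1033)) (Pf.cons (Pf.B 9 8 (Pf.B 9 7 (Pf.B 9 5 (Pf.B 9 3 (Pf.C 0 0x4030a1c480) (Pf.C 0 0x3860a20483)) (Pf.C 2 649)) (Pf.C 2 905)) (Pf.C 2 1033)) (Pf.cons (Pf.B 9 8 (Pf.B 9 7 (Pf.B 9 5 (Pf.B 9 3 (Pf.C 0 0x4030a1c486) (Pf.C 0 0x3800a20483)) (Pf.C 2 649)) (Pf.C 2 905)) (Pf.C 2 1033))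 (Pf.cons (Pf.B 9 8 (Pf.B 9 7 (Pf.B 9 5 (Pf.B 9 3 (Pf.C 0 0x4030a1c480) (Pf.C 9 0xc00189)) (Pf.C 2 649)) (Pf.C 2 905)) (Pf.C 2 1033)) Pf.nil))))) Pf.nil)) (Pf.cons (Pf.W 8 7 [0,6] [3,8] (Pf.cons (Pf.B 9 8 (Pf.B 9 6 (Pf.B 9 3 (Pf.B 9 0 (Pf.C 0 0x1880018487) (Pf.C 1 9)) (Pf.C 1 393)) (Pf.C 1 777)) (Pf.C 9 0x600488)) Pf.nil)) Pf.nil))) Pf.nil))) (Pf.C 0 0x2080618101)) (Pf.B 8 4 (Pf.T 8 2 (Pf.cons (Pf.T 8 11 (Pf.cons (Pf.T 8 15 (Pf.cons (Pf.W 6 4 [5] [0,1,2,3,6,7,8] (Pf.cons (Pf.B 9 8 (Pf.B 9 7 (Pf.B 9 5 (Pf.B 9 6 (Pf.C 0 0x4840a20386) (Pf.B 9 2 (Pf.B 9 1 (Pf.B 9 3 (Pf.C 0 0x2090c08181) (Pf.B 9 0 (Pf.C 0 0x70c10189) (Pf.T 9 2 (Pf.cons (Pf.T 9 11 (Pf.cons (Pf.T 9 17 (Pf.cons (Pf.W 6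 4 [5,9] [1,2] (Pf.cons (Pf.B 10 9 (Pf.B 10 5 (Pf.B 10 2 (Pf.B 10 1 (Pf.C 0 0x820a24504) (Pf.C 2 138)) (Pf.C 7 0xa04502)) (Pf.C 2 650)) (Pf.C 2 1162)) Pf.nil)) (Pf.cons (Pf.C 23 265) Pf.nil))) Pf.nil)) (Pf.cons (Pf.C 9 0x80c009) Pf.nil))))) (Pf.C 2 137)) (Pf.C 7 0xa04482))) (Pf.C 2 649)) (Pf.C 2 905)) (Pf.C 2 1033)) Pf.nil)) Pf.nil)) (Pf.cons (Pf.T 8 17 (Pf.cons (Pf.W 6 4 [5] [0,1,2,3,6,7,8] (Pf.cons (Pf.B 9 8 (Pf.B 9 7 (Pf.B 9 5 (Pf.B 9 6 (Pf.C 0 0x4840a20386) (Pf.B 9 2 (Pf.B 9 1 (Pf.B 9 3 (Pf.C 0 0x2090c08181) (Pf.B 9 0 (Pf.C 0 0x70c10189) (Pf.T 9 2 (Pf.cons (Pf.T 9 11 (Pf.cons (Pf.T 9 17 (Pf.cons (Pf.W 6 4 [5,9] [1,2] (Pf.cons (Pf.B 10 9 (Pf.B 10 5 (Pf.B 10 2 (Pf.B 10 1 (Pf.C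 0 0x820a24504) (Pf.C 2 138)) (Pf.C 7 0xa04502)) (Pf.C 2 650)) (Pf.C 2 1162)) Pf.nil)) (Pf.cons (Pf.C 23 265) Pf.nil))) Pf.nil)) (Pf.cons (Pf.C 9 0x80c009) Pf.nil))))) (Pf.C 2 137)) (Pf.C 7 0xa04482))) (Pf.C 2 649)) (Pf.C 2 905)) (Pf.C 2 1033)) Pf.nil)) (Pf.cons (Pf.C 23 264) Pf.nil))) Pf.nil))) (Pf.cons (Pf.B 8 0 (Pf.T 8 12 (Pf.cons (Pf.T 8 16 (Pf.cons (Pf.W 8 7 [0,6] [3,8] (Pf.cons (Pf.B 9 8 (Pf.B 9 6 (Pf.B 9 3 (Pf.B 9 0 (Pf.C 0 0x1880c00487) (Pf.C 1 9)) (Pf.C 1 393)) (Pf.C 1 777)) (Pf.C 9 0xc0c488)) Pf.nil)) Pf.nil)) Pf.nil)) (Pf.C 9 0xc0c008)) Pf.nil))) (Pf.B 8 0 (Pf.C 0 0x70c10188) (Pf.T 8 2 (Pf.cons (Pf.T 8 11 (Pf.cons (Pf.T 8 17 (Pf.cons (Pf.W 6 4 [5,8] [1,2] (Pf.cons (Pf.B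 9 8 (Pf.B 9 5 (Pf.B 9 2 (Pf.B 9 1 (Pf.C 0 0x820a20484) (Pf.C 2 137)) (Pf.C 7 0xa04482)) (Pf.C 2 649)) (Pf.C 2 1033)) Pf.nil)) (Pf.cons (Pf.C 23 264) Pf.nil))) Pf.nil)) (Pf.cons (Pf.C 9 0x80c008) Pf.nil)))))) (Pf.C 2 136)) (Pf.C 7 0xa04402)) (Pf.C 2 648)) (Pf.C 2 904)) Pf.nil)) (Pf.cons (Pf.C 23 263) Pf.nil))) Pf.nil)) (Pf.cons (Pf.T 7 12 (Pf.cons (Pf.W 6 3 [1,5] [0,2,4,6,7] (Pf.cons (Pf.B 8 7 (Pf.B 8 5 (Pf.B 8 2 (Pf.B 8 1 (Pf.B 8 6 (Pf.B 8 4 (Pf.T 8 2 (Pf.cons (Pf.T 8 11 (Pf.cons (Pf.T 8 15 (Pf.cons (Pf.W 30 6 [] [0,3,5,7,8] (Pf.cons (Pf.B 9 8 (Pf.B 9 7 (Pf.B 9 5 (Pf.B 9 3 (Pf.C 0 0x4030a1c480) (Pf.C 0 0x3860a20483)) (Pf.C 2 649)) (Pf.C 2 905)) (Pf.C 2 1033)) (Pf.cons (Pf.B 9 8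 (Pf.B 9 7 (Pf.B 9 5 (Pf.B 9 3 (Pf.C 0 0x4030a1c480) (Pf.C 0 0x3860a20483)) (Pf.C 2 649)) (Pf.C 2 905)) (Pf.C 2 1033)) (Pf.cons (Pf.B 9 8 (Pf.B 9 7 (Pf.B 9 5 (Pf.B 9 3 (Pf.C 0 0x4030a1c486) (Pf.C 0 0x3800a20483)) (Pf.C 2 649)) (Pf.C 2 905)) (Pf.C 2 1033)) (Pf.cons (Pf.T 7 48 (Pf.cons (Pf.W 3 768 [] [3,5,7,8] (Pf.cons (Pf.B 9 8 (Pf.B 9 7 (Pf.B 9 5 (Pf.B 9 3 (Pf.C 0 0x4030a1c480) (Pf.C 0 0x3860a20483)) (Pf.C 2 649)) (Pf.C 2 905)) (Pf.C 2 1033)) (Pf.cons (Pf.B 9 8 (Pf.B 9 7 (Pf.B 9 5 (Pf.B 9 3 (Pf.C 0 0x4030a1c486) (Pf.C 0 0x3800a20483)) (Pf.C 2 649)) (Pf.C 2 905)) (Pf.C 2 1033)) Pf.nil))) Pf.nil)) (Pf.cons (Pf.B 9 8 (Pf.B 9 7 (Pf.B 9 5 (Pf.B 9 3 (Pf.C 0 0x4030a1c480) (Pf.C 9 0xc00189))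 (Pf.C 2 649)) (Pf.C 2 905)) (Pf.C 2 1033)) Pf.nil)))))) Pf.nil)) (Pf.cons (Pf.T 8 17 (Pf.cons (Pf.W 8 8 [0,3] [6,7] (Pf.cons (Pf.B 9 7 (Pf.B 9 6 (Pf.B 9 3 (Pf.B 9 0 (Pf.C 0 0x307000c488) (Pf.C 1 9)) (Pf.C 1 393)) (Pf.C 1 777)) (Pf.C 9 0xc00487)) Pf.nil)) (Pf.cons (Pf.C 23 264) Pf.nil))) Pf.nil))) (Pf.cons (Pf.T 8 12 (Pf.cons (Pf.T 8 16 (Pf.cons (Pf.W 30 6 [] [0,3,5,7,8] (Pf.cons (Pf.B 9 8 (Pf.B 9 7 (Pf.B 9 5 (Pf.B 9 3 (Pf.C 0 0x4030a1c480) (Pf.C 0 0x3860a20483)) (Pf.C 2 649)) (Pf.C 2 905)) (Pf.C 2 1033)) (Pf.cons (Pf.B 9 8 (Pf.B 9 7 (Pf.B 9 5 (Pf.B 9 3 (Pf.C 0 0x4030a1c480) (Pf.C 0 0x3860a20483)) (Pf.C 2 649)) (Pf.C 2 905)) (Pf.C 2 1033)) (Pf.cons (Pf.B 9 8 (Pf.B 9 7 (Pf.B 9 5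 (Pf.B 9 3 (Pf.C 0 0x4030a1c486) (Pf.C 0 0x3800a20483)) (Pf.C 2 649)) (Pf.C 2 905)) (Pf.C 2 1033)) (Pf.cons (Pf.T 7 48 (Pf.cons (Pf.W 3 768 [] [3,5,7,8] (Pf.cons (Pf.B 9 8 (Pf.B 9 7 (Pf.B 9 5 (Pf.B 9 3 (Pf.C 0 0x4030a1c480) (Pf.C 0 0x3860a20483)) (Pf.C 2 649)) (Pf.C 2 905)) (Pf.C 2 1033)) (Pf.cons (Pf.B 9 8 (Pf.B 9 7 (Pf.B 9 5 (Pf.B 9 3 (Pf.C 0 0x4030a1c486) (Pf.C 0 0x3800a20483)) (Pf.C 2 649)) (Pf.C 2 905)) (Pf.C 2 1033)) Pf.nil))) Pf.nil)) (Pf.cons (Pf.B 9 8 (Pf.B 9 7 (Pf.B 9 5 (Pf.B 9 3 (Pf.C 0 0x4030a1c480) (Pf.C 9 0xc00189)) (Pf.C 2 649)) (Pf.C 2 905)) (Pf.C 2 1033)) Pf.nil)))))) Pf.nil)) (Pf.cons (Pf.W 6 4 [5] [0,1,2,3,6,7,8] (Pf.cons (Pf.B 9 8 (Pf.B 9 7 (Pf.B 9 5 (Pf.B 9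 2 (Pf.B 9 1 (Pf.B 9 6 (Pf.C 0 0x4840a1c086) (Pf.B 9 3 (Pf.C 0 0x403021c486) (Pf.B 9 0 (Pf.C 0 0x70c10189) (Pf.T 9 2 (Pf.cons (Pf.T 9 11 (Pf.cons (Pf.T 9 17 (Pf.cons (Pf.W 6 4 [5,9] [1,2] (Pf.cons (Pf.B 10 9 (Pf.B 10 5 (Pf.B 10 2 (Pf.B 10 1 (Pf.C 0 0x820a24504) (Pf.C 2 138)) (Pf.C 7 0xa04502)) (Pf.C 2 650)) (Pf.C 2 1162)) Pf.nil)) (Pf.cons (Pf.C 23 265) Pf.nil))) Pf.nil)) (Pf.cons (Pf.C 9 0x80c009) Pf.nil)))))) (Pf.C 2 137)) (Pf.C 7 0xa04482)) (Pf.C 2 649)) (Pf.C 2 905)) (Pf.C 2 1033)) Pf.nil)) Pf.nil))) Pf.nil))) (Pf.C 0 0x2080618101)) (Pf.B 8 4 (Pf.T 8 2 (Pf.cons (Pf.T 8 11 (Pf.cons (Pf.T 8 15 (Pf.cons (Pf.W 8 8 [3,6] [0,7] (Pf.cons (Pf.B 9 7 (Pf.B 9 6 (Pf.B 9 3 (Pf.B 9 0 (Pf.C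 0 0x70c0c488) (Pf.C 1 9)) (Pf.C 1 393)) (Pf.C 1 777)) (Pf.C 9 0xc00487)) Pf.nil)) Pf.nil)) (Pf.cons (Pf.T 8 17 (Pf.cons (Pf.W 6 4 [5] [0,1,2,3,6,7,8] (Pf.cons (Pf.B 9 8 (Pf.B 9 7 (Pf.B 9 5 (Pf.B 9 6 (Pf.C 0 0x4840a20386) (Pf.B 9 2 (Pf.B 9 1 (Pf.B 9 3 (Pf.C 0 0x2090c08181) (Pf.B 9 0 (Pf.C 0 0x70c10189) (Pf.T 9 2 (Pf.cons (Pf.T 9 11 (Pf.cons (Pf.T 9 17 (Pf.cons (Pf.W 6 4 [5,9] [1,2] (Pf.cons (Pf.B 10 9 (Pf.B 10 5 (Pf.B 10 2 (Pf.B 10 1 (Pf.C 0 0x820a24504) (Pf.C 2 138)) (Pf.C 7 0xa04502)) (Pf.C 2 650)) (Pf.C 2 1162)) Pf.nil)) (Pf.cons (Pf.C 23 265) Pf.nil))) Pf.nil)) (Pf.cons (Pf.C 9 0x80c009) Pf.nil))))) (Pf.C 2 137)) (Pf.C 7 0xa04482))) (Pf.C 2 649)) (Pf.C 2 905)) (Pf.C 2 1033))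 Pf.nil)) (Pf.cons (Pf.C 23 264) Pf.nil))) Pf.nil))) (Pf.cons (Pf.B 8 0 (Pf.T 8 12 (Pf.cons (Pf.T 8 16 (Pf.cons (Pf.W 6 4 [5] [0,1,2,3,6,7,8] (Pf.cons (Pf.B 9 8 (Pf.B 9 7 (Pf.B 9 5 (Pf.B 9 6 (Pf.C 0 0x4840a20386) (Pf.B 9 2 (Pf.B 9 1 (Pf.B 9 3 (Pf.C 0 0x2090c08181) (Pf.B 9 0 (Pf.C 0 0x70c10189) (Pf.T 9 2 (Pf.cons (Pf.T 9 11 (Pf.cons (Pf.T 9 17 (Pf.cons (Pf.W 6 4 [5,9] [1,2] (Pf.cons (Pf.B 10 9 (Pf.B 10 5 (Pf.B 10 2 (Pf.B 10 1 (Pf.C 0 0x820a24504) (Pf.C 2 138)) (Pf.C 7 0xa04502)) (Pf.C 2 650)) (Pf.C 2 1162)) Pf.nil)) (Pf.cons (Pf.C 23 265) Pf.nil))) Pf.nil)) (Pf.cons (Pf.C 9 0x80c009) Pf.nil))))) (Pf.C 2 137)) (Pf.C 7 0xa04482))) (Pf.C 2 649)) (Pf.C 2 905)) (Pf.C 2 1033)) Pf.nil))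 Pf.nil)) Pf.nil)) (Pf.C 9 0xc0c008)) Pf.nil))) (Pf.B 8 0 (Pf.C 0 0x70c10188) (Pf.T 8 2 (Pf.cons (Pf.T 8 11 (Pf.cons (Pf.T 8 17 (Pf.cons (Pf.W 6 4 [5,8] [1,2] (Pf.cons (Pf.B 9 8 (Pf.B 9 5 (Pf.B 9 2 (Pf.B 9 1 (Pf.C 0 0x820a20484) (Pf.C 2 137)) (Pf.C 7 0xa04482)) (Pf.C 2 649)) (Pf.C 2 1033)) Pf.nil)) (Pf.cons (Pf.C 23 264) Pf.nil))) Pf.nil)) (Pf.cons (Pf.C 9 0x80c008) Pf.nil)))))) (Pf.C 2 136)) (Pf.C 7 0xa04402)) (Pf.C 2 648)) (Pf.C 2 904)) Pf.nil)) Pf.nil)) Pf.nil))) (Pf.T 7 2 (Pf.cons (Pf.T 7 11 (Pf.cons (Pf.T 7 17 (Pf.cons (Pf.W 6 4 [5] [0,1,2,3,6,7] (Pf.cons (Pf.B 8 7 (Pf.B 8 5 (Pf.B 8 2 (Pf.B 8 1 (Pf.B 8 6 (Pf.C 0 0x4040a1c086) (Pf.B 8 3 (Pf.C 0 0x2080c08181) (Pf.B 8 0 (Pf.C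 0 0x2080608001) (Pf.T 8 2 (Pf.cons (Pf.T 8 11 (Pf.cons (Pf.T 8 17 (Pf.cons (Pf.W 6 4 [5,8] [1,2] (Pf.cons (Pf.B 9 8 (Pf.B 9 5 (Pf.B 9 2 (Pf.B 9 1 (Pf.C 0 0x820a20484) (Pf.C 2 137)) (Pf.C 7 0xa04482)) (Pf.C 2 649)) (Pf.C 2 1033)) Pf.nil)) (Pf.cons (Pf.C 23 264) Pf.nil))) Pf.nil)) (Pf.cons (Pf.C 9 0x80c008) Pf.nil)))))) (Pf.C 2 136)) (Pf.C 7 0xa04402)) (Pf.C 2 648)) (Pf.C 2 904)) Pf.nil)) (Pf.cons (Pf.C 23 263) Pf.nil))) Pf.nil)) (Pf.cons (Pf.C 9 0xc0c007) Pf.nil)))) (Pf.B 7 3 (Pf.C 0 0x2070008181) (Pf.T 7 2 (Pf.cons (Pf.T 7 11 (Pf.cons (Pf.T 7 17 (Pf.cons (Pf.W 6 4 [5,7] [1,2] (Pf.cons (Pf.B 8 7 (Pf.B 8 5 (Pf.B 8 2 (Pf.B 8 1 (Pf.C 0 0x820a1c404) (Pf.C 2 136)) (Pf.C 7 0xa04402))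 (Pf.C 2 648)) (Pf.C 2 904)) Pf.nil)) (Pf.cons (Pf.C 23 263) Pf.nil))) Pf.nil)) (Pf.cons (Pf.C 9 0x80c007) Pf.nil)))))) (Pf.C 2 135)) (Pf.C 7 0xa04382)) (Pf.C 2 647)) Pf.nil)) Pf.nil)) Pf.nil))) (Pf.C 1 262)) (Pf.C 1 390)) (Pf.C 1 518)) Pf.nil))) Pf.nil)) (Pf.cons (Pf.C 7 0xa04302) (Pf.cons (Pf.C 7 0xa04302) Pf.nil)))))) (Pf.C 2 133)) (Pf.cons (Pf.B 5 3 (Pf.B 5 2 (Pf.B 5 1 (Pf.C 0 0x205000c101) (Pf.C 2 133)) (Pf.C 9 0x800105)) (Pf.C 9 0x800185)) Pf.nil))) Pf.nil)) Pf.nil)) (Pf.C 1 260)) (Pf.C 1 388)) Pf.nil)) Pf.nil)) Pf.nil)) Pf.nil)) (Pf.cons (Pf.T 3 10 (Pf.cons (Pf.T 3 14 (Pf.cons (Pf.W 27 1 [] [0,2,3] (Pf.cons (Pf.B 4 3 (Pf.B 4 2 (Pf.T 4 13 (Pf.cons (Pf.T 4 42 (Pf.cons (Pf.W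 13 4 [] [0,1,2,3] (Pf.cons (Pf.B 5 1 (Pf.B 5 3 (Pf.B 5 2 (Pf.C 0 0x205000c101) (Pf.W 26 2 [] [1,5,0,3,4] (Pf.cons (Pf.T 5 44 (Pf.cons (Pf.W 31 1 [] [0,2,3,4,5] (Pf.cons (Pf.B 6 4 (Pf.B 6 3 (Pf.B 6 5 (Pf.C 0 0x205000c301) (Pf.B 6 2 (Pf.T 6 13 (Pf.cons (Pf.T 6 42 (Pf.cons (Pf.W 6 0 [1,5] [2,3,4,6] (Pf.cons (Pf.B 7 5 (Pf.B 7 2 (Pf.B 7 1 (Pf.B 7 6 (Pf.B 7 4 (Pf.T 7 2 (Pf.cons (Pf.T 7 11 (Pf.cons (Pf.T 7 17 (Pf.cons (Pf.W 6 4 [5] [0,1,2,3,7] (Pf.cons (Pf.B 8 7 (Pf.B 8 5 (Pf.B 8 2 (Pf.B 8 1 (Pf.B 8 0 (Pf.C 0 0x4040a1c080) (Pf.B 8 3 (Pf.C 0 0x2080008181) (Pf.T 8 2 (Pf.cons (Pf.T 8 11 (Pf.cons (Pf.T 8 17 (Pf.cons (Pf.W 6 4 [5,8] [1,3] (Pf.cons (Pf.B 9 8 (Pf.B 9 5 (Pf.B 9 3 (Pf.B 9 1 (Pf.C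 0 0x831014484) (Pf.C 2 137)) (Pf.C 7 0x1004483)) (Pf.C 2 649)) (Pf.C 2 1033)) Pf.nil)) (Pf.cons (Pf.C 23 264) Pf.nil))) Pf.nil)) (Pf.cons (Pf.C 9 0x80c008) Pf.nil))))) (Pf.C 2 136)) (Pf.C 7 0xa04402)) (Pf.C 2 648)) (Pf.C 2 904)) Pf.nil)) (Pf.cons (Pf.C 23 263) Pf.nil))) Pf.nil)) (Pf.cons (Pf.T 7 12 (Pf.cons (Pf.W 6 4 [5] [0,1,2,3,7] (Pf.cons (Pf.B 8 7 (Pf.B 8 5 (Pf.B 8 2 (Pf.B 8 1 (Pf.B 8 0 (Pf.C 0 0x4040a1c080) (Pf.B 8 3 (Pf.C 0 0x2080008181) (Pf.T 8 2 (Pf.cons (Pf.T 8 11 (Pf.cons (Pf.T 8 17 (Pf.cons (Pf.W 6 4 [5,8] [1,3] (Pf.cons (Pf.B 9 8 (Pf.B 9 5 (Pf.B 9 3 (Pf.B 9 1 (Pf.C 0 0x831014484) (Pf.C 2 137)) (Pf.C 7 0x1004483)) (Pf.C 2 649)) (Pf.C 2 1033)) Pf.nil)) (Pf.cons (Pf.C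 23 264) Pf.nil))) Pf.nil)) (Pf.cons (Pf.C 9 0x80c008) Pf.nil))))) (Pf.C 2 136)) (Pf.C 7 0xa04402)) (Pf.C 2 648)) (Pf.C 2 904)) Pf.nil)) Pf.nil)) Pf.nil))) (Pf.C 0 0x2070018101)) (Pf.B 7 4 (Pf.B 7 3 (Pf.T 7 2 (Pf.cons (Pf.T 7 11 (Pf.cons (Pf.T 7 17 (Pf.cons (Pf.W 6 4 [5] [0,1,2,3,6,7] (Pf.cons (Pf.B 8 7 (Pf.B 8 5 (Pf.B 8 2 (Pf.B 8 1 (Pf.B 8 6 (Pf.C 0 0x4040a1c086) (Pf.B 8 3 (Pf.C 0 0x2080c08181) (Pf.B 8 0 (Pf.C 0 0x70c10188) (Pf.T 8 2 (Pf.cons (Pf.T 8 11 (Pf.cons (Pf.T 8 17 (Pf.cons (Pf.W 6 4 [5,8] [1,3] (Pf.cons (Pf.B 9 8 (Pf.B 9 5 (Pf.B 9 3 (Pf.B 9 1 (Pf.C 0 0x831014484) (Pf.C 2 137)) (Pf.C 7 0x1004483)) (Pf.C 2 649)) (Pf.C 2 1033)) Pf.nil)) (Pf.cons (Pf.C 23 264) Pf.nil))) Pf.nil))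 (Pf.cons (Pf.C 9 0x80c008) Pf.nil)))))) (Pf.C 2 136)) (Pf.C 7 0xa04402)) (Pf.C 2 648)) (Pf.C 2 904)) Pf.nil)) (Pf.cons (Pf.C 23 263) Pf.nil))) Pf.nil)) (Pf.cons (Pf.T 7 12 (Pf.cons (Pf.W 6 4 [5] [0,1,2,3,6,7] (Pf.cons (Pf.B 8 7 (Pf.B 8 5 (Pf.B 8 2 (Pf.B 8 1 (Pf.B 8 6 (Pf.C 0 0x4040a1c086) (Pf.B 8 3 (Pf.C 0 0x2080c08181) (Pf.B 8 0 (Pf.C 0 0x70c10188) (Pf.T 8 2 (Pf.cons (Pf.T 8 11 (Pf.cons (Pf.T 8 17 (Pf.cons (Pf.W 6 4 [5,8] [1,3] (Pf.cons (Pf.B 9 8 (Pf.B 9 5 (Pf.B 9 3 (Pf.B 9 1 (Pf.C 0 0x831014484) (Pf.C 2 137)) (Pf.C 7 0x1004483)) (Pf.C 2 649)) (Pf.C 2 1033)) Pf.nil)) (Pf.cons (Pf.C 23 264) Pf.nil))) Pf.nil)) (Pf.cons (Pf.C 9 0x80c008) Pf.nil)))))) (Pf.C 2 136)) (Pf.C 7 0xa04402))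 (Pf.C 2 648)) (Pf.C 2 904)) Pf.nil)) Pf.nil)) Pf.nil))) (Pf.C 0 0x1870010105)) (Pf.B 7 3 (Pf.C 0 0x2070008181) (Pf.T 7 2 (Pf.cons (Pf.T 7 11 (Pf.cons (Pf.T 7 17 (Pf.cons (Pf.W 6 4 [5,7] [1,3] (Pf.cons (Pf.B 8 7 (Pf.B 8 5 (Pf.B 8 3 (Pf.B 8 1 (Pf.C 0 0x830e14404) (Pf.C 2 136)) (Pf.C 7 0xe04403)) (Pf.C 2 648)) (Pf.C 2 904)) Pf.nil)) (Pf.cons (Pf.C 23 263) Pf.nil))) Pf.nil)) (Pf.cons (Pf.C 9 0x80c007) Pf.nil)))))) (Pf.C 2 135)) (Pf.C 7 0xa04382)) (Pf.C 2 647)) Pf.nil)) Pf.nil)) Pf.nil)) (Pf.C 1 262))) (Pf.C 1 390)) (Pf.C 1 518)) Pf.nil)) Pf.nil)) (Pf.cons (Pf.C 7 0xa04302) (Pf.cons (Pf.C 7 0xa04302) Pf.nil))))) (Pf.B 5 2 (Pf.T 5 17 (Pf.cons (Pf.W 26 2 [] [0,1,3,4,5] (Pf.cons (Pf.B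 6 5 (Pf.B 6 3 (Pf.B 6 4 (Pf.C 0 0x106000c205) (Pf.B 6 1 (Pf.T 6 44 (Pf.cons (Pf.W 6 4 [5,6] [1,2] (Pf.cons (Pf.B 7 6 (Pf.B 7 5 (Pf.B 7 2 (Pf.B 7 1 (Pf.C 0 0x820c14384) (Pf.C 2 135)) (Pf.C 7 0xc04382)) (Pf.C 2 647)) (Pf.C 2 775)) Pf.nil)) Pf.nil)) (Pf.C 2 134))) (Pf.C 7 0xa04303)) (Pf.C 2 646)) (Pf.cons (Pf.B 6 5 (Pf.B 6 4 (Pf.B 6 3 (Pf.C 0 0x1060010185) (Pf.C 7 0xa04303)) (Pf.C 9 0x400206)) (Pf.C 2 646)) Pf.nil))) (Pf.cons (Pf.C 23 261) Pf.nil))) (Pf.W 26 2 [] [1,5,0,3,4] (Pf.cons (Pf.T 5 44 (Pf.cons (Pf.W 6 0 [1,5] [2,3,4] (Pf.cons (Pf.B 6 5 (Pf.B 6 3 (Pf.B 6 2 (Pf.B 6 1 (Pf.B 6 4 (Pf.W 6 4 [5] [0,1,2,3,6] (Pf.cons (Pf.B 7 6 (Pf.B 7 5 (Pf.B 7 3 (Pf.B 7 2 (Pf.B 7 1 (Pf.B 7 0 (Pf.C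 0 0x3840a18080) (Pf.C 0 0x207000c101)) (Pf.C 2 135)) (Pf.C 7 0xa04382)) (Pf.C 7 0xa04383)) (Pf.C 2 647)) (Pf.C 2 775)) Pf.nil)) (Pf.C 0 0x206000c101)) (Pf.C 2 134)) (Pf.C 7 0xa04302)) (Pf.C 7 0xa04303)) (Pf.C 2 646)) Pf.nil)) Pf.nil)) (Pf.cons (Pf.C 7 0xa04302) (Pf.cons (Pf.C 7 0xa04302) Pf.nil)))))) (Pf.C 2 133)) (Pf.cons (Pf.B 5 3 (Pf.B 5 2 (Pf.B 5 1 (Pf.C 0 0x205000c101) (Pf.C 2 133)) (Pf.C 9 0x800105)) (Pf.C 9 0x800185)) Pf.nil))) Pf.nil)) Pf.nil)) (Pf.C 1 260)) (Pf.C 1 388)) Pf.nil)) Pf.nil)) Pf.nil)) Pf.nil))) (Pf.C 1 3)) (Pf.C 1 259)) Pf.nil)) Pf.nil)))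
 Pq.nil)
theorem bS113_o63 : AllRef bS113_T bS113_G83 (List.map pat1 [124]) :=
  chkPq_sound bS113_o63c _ (by decide +kernel)
noncomputable def bS113_o64c : Pq := (Pq.cons (Pq.L [] 0 (Pf.X 1 2))
 (Pq.cons (Pq.L [] 1 (Pf.C 1 386))
 (Pq.cons (Pq.L [] 1 (Pf.C 1 386))
 (Pq.cons (Pq.L [] 1 (Pf.C 74 259))
 (Pq.cons (Pq.L [] 0 (Pf.X 1 2))
 (Pq.cons (Pq.L [0,1] 1 (Pf.T 2 13 (Pf.cons (Pf.W 6 2 [3] [0,1] (Pf.cons (Pf.B 4 3 (Pf.B 4 1 (Pf.T 4 2 (Pf.cons (Pf.T 4 11 (Pf.cons (Pf.T 4 15 (Pf.cons (Pf.W 6 2 [3,4] [0,1] (Pf.cons (Pf.B 5 4 (Pf.B 5 3 (Pf.B 5 1 (Pf.B 5 0 (Pf.C 0 0x800610282) (Pf.T 5 2 (Pf.cons (Pf.T 5 11 (Pf.cons (Pf.T 5 17 (Pf.cons (Pf.W 8 1 [0] [2,3,4,5] (Pf.cons (Pf.B 6 2 (Pf.B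 6 0 (Pf.B 6 5 (Pf.B 6 4 (Pf.B 6 3 (Pf.W 22 3 [] [0,1,2,6,5] (Pf.cons (Pf.T 6 14 (Pf.cons (Pf.W 4 643 [] [0,1,2,6] (Pf.cons (Pf.B 7 6 (Pf.B 7 2 (Pf.B 7 0 (Pf.B 7 1 (Pf.C 0 0x3010008383) (Pf.C 0 0x1050018381)) (Pf.C 1 7)) (Pf.C 1 263)) (Pf.C 1 775)) (Pf.cons (Pf.B 7 6 (Pf.B 7 2 (Pf.B 7 0 (Pf.B 7 1 (Pf.C 0 0x3010008385) (Pf.C 0 0x1030018381)) (Pf.C 1 7)) (Pf.C 1 263)) (Pf.C 1 775)) Pf.nil))) Pf.nil)) (Pf.cons (Pf.B 7 6 (Pf.B 7 2 (Pf.B 7 1 (Pf.C 23 897) (Pf.C 0 0x1030018381)) (Pf.C 1 263)) (Pf.C 1 775)) Pf.nil))) (Pf.C 0 0x860614202)) (Pf.B 6 3 (Pf.C 0 0x2060214180) (Pf.T 6 1 (Pf.cons (Pf.T 6 8 (Pf.cons (Pf.T 6 9 (Pf.cons (Pf.T 6 13 (Pf.cons (Pf.W 22 3 [] [0,1,2,4,5,6] (Pf.cons (Pf.B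 7 6 (Pf.B 7 2 (Pf.B 7 1 (Pf.C 23 897) (Pf.B 7 5 (Pf.C 0 0x1050018381) (Pf.B 7 4 (Pf.C 0 0x1040c00381) (Pf.C 7 0xa04207)))) (Pf.C 1 263)) (Pf.C 1 775)) Pf.nil)) Pf.nil)) Pf.nil)) Pf.nil)) (Pf.cons (Pf.C 7 0x80c086) Pf.nil))))) (Pf.B 6 4 (Pf.B 6 3 (Pf.C 0 0x860a10182) (Pf.T 6 1 (Pf.cons (Pf.T 6 8 (Pf.cons (Pf.T 6 9 (Pf.cons (Pf.T 6 13 (Pf.cons (Pf.W 3 768 [] [1,2,3,4] (Pf.cons (Pf.B 7 4 (Pf.B 7 3 (Pf.B 7 1 (Pf.B 7 2 (Pf.C 0 0x2020604380) (Pf.C 0 0x860610382)) (Pf.C 2 135)) (Pf.C 2 391)) (Pf.C 2 519)) (Pf.cons (Pf.B 7 4 (Pf.B 7 3 (Pf.B 7 1 (Pf.B 7 2 (Pf.C 0 0x2020604386) (Pf.C 0 0x800610382)) (Pf.C 2 135)) (Pf.C 2 391)) (Pf.C 2 519)) Pf.nil))) Pf.nil)) Pf.nil)) Pf.nil)) (Pf.cons (Pf.C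 7 0xa0c086) Pf.nil)))) (Pf.B 6 3 (Pf.T 6 1 (Pf.cons (Pf.T 6 8 (Pf.cons (Pf.T 6 9 (Pf.cons (Pf.T 6 13 (Pf.cons (Pf.W 22 3 [] [0,1,2,4,6] (Pf.cons (Pf.B 7 6 (Pf.B 7 2 (Pf.B 7 4 (Pf.B 7 1 (Pf.C 23 897) (Pf.C 0 0x1040c00381)) (Pf.C 0 0x30418384)) (Pf.C 1 263)) (Pf.C 1 775)) Pf.nil)) Pf.nil)) Pf.nil)) Pf.nil)) (Pf.cons (Pf.C 7 0xa10086) Pf.nil))) (Pf.T 6 1 (Pf.cons (Pf.T 6 8 (Pf.cons (Pf.T 6 9 (Pf.cons (Pf.T 6 13 (Pf.cons (Pf.W 22 3 [] [0,1,2,4,5,6] (Pf.cons (Pf.B 7 6 (Pf.B 7 2 (Pf.B 7 1 (Pf.C 23 897) (Pf.B 7 4 (Pf.C 0 0x1040c00381) (Pf.B 7 5 (Pf.C 0 0x207020c280) (Pf.C 7 0x804287)))) (Pf.C 1 263)) (Pf.C 1 775)) Pf.nil)) Pf.nil)) Pf.nil)) Pf.nil)) (Pf.cons (Pf.C 7 0x80c086) Pf.nil))))))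 (Pf.C 1 6)) (Pf.C 1 262)) Pf.nil)) (Pf.cons (Pf.W 22 3 [] [1,2,4,5] (Pf.cons (Pf.B 6 5 (Pf.C 23 773) (Pf.B 6 2 (Pf.B 6 1 (Pf.C 23 769) (Pf.B 6 4 (Pf.C 0 0x860a0c202) (Pf.C 7 0xa04206))) (Pf.C 1 262))) Pf.nil)) Pf.nil))) Pf.nil)) (Pf.cons (Pf.T 5 12 (Pf.cons (Pf.W 8 1 [0] [2,5] (Pf.cons (Pf.B 6 5 (Pf.B 6 2 (Pf.B 6 0 (Pf.W 8 1 [0,6] [2,5] (Pf.cons (Pf.B 7 6 (Pf.B 7 5 (Pf.B 7 2 (Pf.B 7 0 (Pf.C 0 0x1050018381) (Pf.C 1 7)) (Pf.C 1 263)) (Pf.C 9 0x400385)) (Pf.C 1 775)) Pf.nil)) (Pf.C 1 6)) (Pf.C 1 262)) (Pf.C 9 0x400305)) Pf.nil)) Pf.nil)) Pf.nil)))) (Pf.C 2 133)) (Pf.C 2 389)) (Pf.C 2 517)) Pf.nil)) Pf.nil)) (Pf.cons (Pf.T 4 17 (Pf.cons (Pf.W 6 2 [3,4] [0,1] (Pf.cons (Pf.B 5 4 (Pf.B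 5 3 (Pf.B 5 1 (Pf.T 5 2 (Pf.cons (Pf.T 5 11 (Pf.cons (Pf.T 5 15 (Pf.cons (Pf.W 8 1 [0] [2,3,4,5] (Pf.cons (Pf.B 6 2 (Pf.B 6 0 (Pf.B 6 5 (Pf.B 6 4 (Pf.B 6 3 (Pf.W 22 3 [] [0,1,2,6,4] (Pf.cons (Pf.T 6 14 (Pf.cons (Pf.W 4 515 [] [0,1,2,6] (Pf.cons (Pf.B 7 6 (Pf.B 7 2 (Pf.B 7 0 (Pf.B 7 1 (Pf.C 0 0x3010008383) (Pf.C 0 0x1040018381)) (Pf.C 1 7)) (Pf.C 1 263)) (Pf.C 1 775)) (Pf.cons (Pf.B 7 6 (Pf.B 7 2 (Pf.B 7 0 (Pf.B 7 1 (Pf.C 0 0x3010008384) (Pf.C 0 0x1030018381)) (Pf.C 1 7)) (Pf.C 1 263)) (Pf.C 1 775)) Pf.nil))) Pf.nil)) (Pf.cons (Pf.B 7 6 (Pf.B 7 2 (Pf.B 7 1 (Pf.C 23 897) (Pf.C 0 0x1030018381)) (Pf.C 1 263)) (Pf.C 1 775)) Pf.nil))) (Pf.C 0 0x860614202)) (Pf.B 6 3 (Pf.C 0 0x860814182)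 (Pf.T 6 1 (Pf.cons (Pf.T 6 8 (Pf.cons (Pf.T 6 9 (Pf.cons (Pf.T 6 13 (Pf.cons (Pf.W 3 768 [] [1,2,3,5] (Pf.cons (Pf.B 7 5 (Pf.B 7 3 (Pf.B 7 1 (Pf.B 7 2 (Pf.C 0 0x2820604380) (Pf.C 0 0x860614382)) (Pf.C 2 135)) (Pf.C 2 391)) (Pf.C 2 647)) (Pf.cons (Pf.B 7 5 (Pf.B 7 3 (Pf.B 7 1 (Pf.B 7 2 (Pf.C 0 0x2820604386) (Pf.C 0 0x800614382)) (Pf.C 2 135)) (Pf.C 2 391)) (Pf.C 2 647)) Pf.nil))) Pf.nil)) Pf.nil)) Pf.nil)) (Pf.cons (Pf.C 7 0x80c086) Pf.nil))))) (Pf.B 6 4 (Pf.B 6 3 (Pf.C 0 0x2860210180) (Pf.T 6 1 (Pf.cons (Pf.T 6 8 (Pf.cons (Pf.T 6 9 (Pf.cons (Pf.T 6 13 (Pf.cons (Pf.W 22 3 [] [0,1,2,4,5,6] (Pf.cons (Pf.B 7 6 (Pf.B 7 2 (Pf.B 7 1 (Pf.C 23 897) (Pf.B 7 5 (Pf.C 0 0x1050c00381) (Pf.B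 7 4 (Pf.C 0 0x1040018381) (Pf.C 7 0xa04207)))) (Pf.C 1 263)) (Pf.C 1 775)) Pf.nil)) Pf.nil)) Pf.nil)) Pf.nil)) (Pf.cons (Pf.C 7 0xa0c086) Pf.nil)))) (Pf.B 6 3 (Pf.T 6 1 (Pf.cons (Pf.T 6 8 (Pf.cons (Pf.T 6 9 (Pf.cons (Pf.T 6 13 (Pf.cons (Pf.W 22 3 [] [0,1,2,5,6] (Pf.cons (Pf.B 7 6 (Pf.B 7 2 (Pf.B 7 5 (Pf.B 7 1 (Pf.C 23 897) (Pf.C 0 0x1050c00381)) (Pf.C 0 0x30418385)) (Pf.C 1 263)) (Pf.C 1 775)) Pf.nil)) Pf.nil)) Pf.nil)) Pf.nil)) (Pf.cons (Pf.C 7 0xa10086) Pf.nil))) (Pf.T 6 1 (Pf.cons (Pf.T 6 8 (Pf.cons (Pf.T 6 9 (Pf.cons (Pf.T 6 13 (Pf.cons (Pf.W 22 3 [] [0,1,2,4,5,6] (Pf.cons (Pf.B 7 6 (Pf.B 7 2 (Pf.B 7 1 (Pf.C 23 897) (Pf.B 7 5 (Pf.C 0 0x1050c00381) (Pf.B 7 4 (Pf.C 0 0x287020c200)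 (Pf.C 7 0xa04207)))) (Pf.C 1 263)) (Pf.C 1 775)) Pf.nil)) Pf.nil)) Pf.nil)) Pf.nil)) (Pf.cons (Pf.C 7 0x80c086) Pf.nil)))))) (Pf.C 1 6)) (Pf.C 1 262)) Pf.nil)) Pf.nil)) (Pf.cons (Pf.T 5 17 (Pf.cons (Pf.W 8 1 [0] [2,3,4,5] (Pf.cons (Pf.B 6 2 (Pf.B 6 0 (Pf.B 6 5 (Pf.B 6 4 (Pf.B 6 3 (Pf.W 22 3 [] [0,1,2,6,4] (Pf.cons (Pf.T 6 14 (Pf.cons (Pf.W 4 515 [] [0,1,2,6] (Pf.cons (Pf.B 7 6 (Pf.B 7 2 (Pf.B 7 0 (Pf.B 7 1 (Pf.C 0 0x3010008383) (Pf.C 0 0x1040018381)) (Pf.C 1 7)) (Pf.C 1 263)) (Pf.C 1 775)) (Pf.cons (Pf.B 7 6 (Pf.B 7 2 (Pf.B 7 0 (Pf.B 7 1 (Pf.C 0 0x3010008384) (Pf.C 0 0x1030018381)) (Pf.C 1 7)) (Pf.C 1 263)) (Pf.C 1 775)) Pf.nil))) Pf.nil)) (Pf.cons (Pf.B 7 6 (Pf.B 7 2 (Pf.B 7 1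 (Pf.C 23 897) (Pf.C 0 0x1030018381)) (Pf.C 1 263)) (Pf.C 1 775)) Pf.nil))) (Pf.C 0 0x860614202)) (Pf.B 6 3 (Pf.C 0 0x860814182) (Pf.T 6 1 (Pf.cons (Pf.T 6 8 (Pf.cons (Pf.T 6 9 (Pf.cons (Pf.T 6 13 (Pf.cons (Pf.W 22 3 [] [0,1,2,4,5,6] (Pf.cons (Pf.B 7 6 (Pf.B 7 2 (Pf.B 7 1 (Pf.C 23 897) (Pf.B 7 5 (Pf.C 0 0x1050018381) (Pf.B 7 4 (Pf.C 0 0x287020c206) (Pf.C 7 0xa04207)))) (Pf.C 1 263)) (Pf.C 1 775)) Pf.nil)) Pf.nil)) Pf.nil)) Pf.nil)) (Pf.cons (Pf.C 7 0x80c086) Pf.nil))))) (Pf.B 6 4 (Pf.B 6 3 (Pf.C 0 0x860a10182) (Pf.T 6 1 (Pf.cons (Pf.T 6 8 (Pf.cons (Pf.T 6 9 (Pf.cons (Pf.T 6 13 (Pf.cons (Pf.W 22 3 [] [0,1,2,4,5,6] (Pf.cons (Pf.B 7 6 (Pf.B 7 2 (Pf.B 7 1 (Pf.C 23 897) (Pf.B 7 4 (Pf.C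 0 0x1040018381) (Pf.B 7 5 (Pf.C 0 0x207020c286) (Pf.C 7 0x804287)))) (Pf.C 1 263)) (Pf.C 1 775)) Pf.nil)) Pf.nil)) Pf.nil)) Pf.nil)) (Pf.cons (Pf.C 7 0xa0c086) Pf.nil)))) (Pf.B 6 3 (Pf.T 6 1 (Pf.cons (Pf.T 6 8 (Pf.cons (Pf.T 6 9 (Pf.cons (Pf.T 6 13 (Pf.cons (Pf.W 22 3 [] [0,1,2,6] (Pf.cons (Pf.B 7 6 (Pf.B 7 2 (Pf.B 7 1 (Pf.C 23 897) (Pf.C 0 0x1030018381)) (Pf.C 1 263)) (Pf.C 1 775)) Pf.nil)) Pf.nil)) Pf.nil)) Pf.nil)) (Pf.cons (Pf.C 7 0xa10086) Pf.nil))) (Pf.T 6 1 (Pf.cons (Pf.T 6 8 (Pf.cons (Pf.T 6 9 (Pf.cons (Pf.T 6 13 (Pf.cons (Pf.W 22 3 [] [1,2,4,5,6] (Pf.cons (Pf.B 7 6 (Pf.B 7 2 (Pf.B 7 1 (Pf.C 23 897) (Pf.B 7 5 (Pf.B 7 4 (Pf.T 7 14 (Pf.cons (Pf.W 4 515 [] [1,2,6,7] (Pf.cons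 (Pf.B 8 7 (Pf.B 8 6 (Pf.B 8 2 (Pf.B 8 1 (Pf.C 0 0x3810c08403) (Pf.C 0 0x1040c1c401)) (Pf.C 1 264)) (Pf.C 1 776)) (Pf.C 1 904)) (Pf.cons (Pf.B 8 7 (Pf.B 8 6 (Pf.B 8 2 (Pf.B 8 1 (Pf.C 0 0x3810c08404) (Pf.C 0 0x1030c1c401)) (Pf.C 1 264)) (Pf.C 1 776)) (Pf.C 1 904)) Pf.nil))) Pf.nil)) (Pf.C 0 0x870814182)) (Pf.B 7 4 (Pf.C 0 0x870a0c202) (Pf.C 7 0xa04207)))) (Pf.C 1 263)) (Pf.C 1 775)) Pf.nil)) Pf.nil)) Pf.nil)) Pf.nil)) (Pf.cons (Pf.C 7 0x80c086) Pf.nil)))))) (Pf.C 1 6)) (Pf.C 1 262)) Pf.nil)) (Pf.cons (Pf.W 22 3 [] [1,2,4,5] (Pf.cons (Pf.B 6 5 (Pf.C 23 773) (Pf.B 6 2 (Pf.B 6 1 (Pf.C 23 769) (Pf.B 6 4 (Pf.C 0 0x860a0c202) (Pf.C 7 0xa04206))) (Pf.C 1 262))) Pf.nil)) Pf.nil))) Pf.nil)))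 (Pf.cons (Pf.T 5 12 (Pf.cons (Pf.T 5 16 (Pf.cons (Pf.W 8 1 [0] [2,3,4,5] (Pf.cons (Pf.B 6 2 (Pf.B 6 0 (Pf.B 6 5 (Pf.B 6 4 (Pf.B 6 3 (Pf.W 22 3 [] [0,1,2,6,4] (Pf.cons (Pf.T 6 14 (Pf.cons (Pf.W 4 515 [] [0,1,2,6] (Pf.cons (Pf.B 7 6 (Pf.B 7 2 (Pf.B 7 0 (Pf.B 7 1 (Pf.C 0 0x3010008383) (Pf.C 0 0x1040018381)) (Pf.C 1 7)) (Pf.C 1 263)) (Pf.C 1 775)) (Pf.cons (Pf.B 7 6 (Pf.B 7 2 (Pf.B 7 0 (Pf.B 7 1 (Pf.C 0 0x3010008384) (Pf.C 0 0x1030018381)) (Pf.C 1 7)) (Pf.C 1 263)) (Pf.C 1 775)) Pf.nil))) Pf.nil)) (Pf.cons (Pf.B 7 6 (Pf.B 7 2 (Pf.B 7 1 (Pf.C 23 897) (Pf.C 0 0x1030018381)) (Pf.C 1 263)) (Pf.C 1 775)) Pf.nil))) (Pf.C 0 0x860614202)) (Pf.B 6 3 (Pf.C 0 0x860814182) (Pf.T 6 1 (Pf.cons (Pf.T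 6 8 (Pf.cons (Pf.T 6 9 (Pf.cons (Pf.T 6 13 (Pf.cons (Pf.W 3 768 [] [1,2,3,5] (Pf.cons (Pf.B 7 5 (Pf.B 7 3 (Pf.B 7 1 (Pf.B 7 2 (Pf.C 0 0x2820604380) (Pf.C 0 0x860614382)) (Pf.C 2 135)) (Pf.C 2 391)) (Pf.C 2 647)) (Pf.cons (Pf.B 7 5 (Pf.B 7 3 (Pf.B 7 1 (Pf.B 7 2 (Pf.C 0 0x2820604386) (Pf.C 0 0x800614382)) (Pf.C 2 135)) (Pf.C 2 391)) (Pf.C 2 647)) Pf.nil))) Pf.nil)) Pf.nil)) Pf.nil)) (Pf.cons (Pf.C 7 0x80c086) Pf.nil))))) (Pf.B 6 4 (Pf.B 6 3 (Pf.C 0 0x2860210180) (Pf.T 6 1 (Pf.cons (Pf.T 6 8 (Pf.cons (Pf.T 6 9 (Pf.cons (Pf.T 6 13 (Pf.cons (Pf.W 8 1 [0,6] [2,5] (Pf.cons (Pf.B 7 6 (Pf.B 7 5 (Pf.B 7 2 (Pf.B 7 0 (Pf.C 0 0x1050c00381) (Pf.C 1 7)) (Pf.C 1 263)) (Pf.C 9 0xc08385)) (Pf.C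 1 775)) Pf.nil)) Pf.nil)) Pf.nil)) Pf.nil)) (Pf.cons (Pf.C 7 0xa0c086) Pf.nil)))) (Pf.T 6 1 (Pf.cons (Pf.T 6 8 (Pf.cons (Pf.T 6 9 (Pf.cons (Pf.T 6 13 (Pf.cons (Pf.W 8 1 [0,6] [2,5] (Pf.cons (Pf.B 7 6 (Pf.B 7 5 (Pf.B 7 2 (Pf.B 7 0 (Pf.C 0 0x1050c00381) (Pf.C 1 7)) (Pf.C 1 263)) (Pf.C 9 0xc08385)) (Pf.C 1 775)) Pf.nil)) Pf.nil)) Pf.nil)) Pf.nil)) (Pf.cons (Pf.C 7 0xa10086) Pf.nil))))) (Pf.C 1 6)) (Pf.C 1 262)) Pf.nil)) Pf.nil)) (Pf.cons (Pf.W 8 1 [0] [2,5] (Pf.cons (Pf.B 6 5 (Pf.B 6 2 (Pf.B 6 0 (Pf.W 8 1 [0,6] [2,5] (Pf.cons (Pf.B 7 6 (Pf.B 7 5 (Pf.B 7 2 (Pf.B 7 0 (Pf.C 0 0x1050018381) (Pf.C 1 7)) (Pf.C 1 263)) (Pf.C 9 0x400385)) (Pf.C 1 775)) Pf.nil)) (Pf.C 1 6)) (Pf.C 1 262)) (Pf.C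 9 0x400305)) Pf.nil)) Pf.nil))) Pf.nil))) (Pf.C 2 133)) (Pf.C 2 389)) (Pf.C 2 517)) Pf.nil)) (Pf.cons (Pf.W 6 2 [3,4] [1] (Pf.cons (Pf.B 5 4 (Pf.B 5 3 (Pf.B 5 1 (Pf.W 22 3 [] [1,2,4,5] (Pf.cons (Pf.B 6 4 (Pf.C 23 772) (Pf.B 6 2 (Pf.B 6 1 (Pf.C 23 769) (Pf.B 6 5 (Pf.C 0 0x86080c282) (Pf.C 7 0x804286))) (Pf.C 1 262))) Pf.nil)) (Pf.C 2 133)) (Pf.C 2 389)) (Pf.C 2 517)) Pf.nil)) Pf.nil))) Pf.nil))) (Pf.cons (Pf.T 4 12 (Pf.cons (Pf.T 4 16 (Pf.cons (Pf.W 6 2 [3,4] [0,1] (Pf.cons (Pf.B 5 4 (Pf.B 5 3 (Pf.B 5 1 (Pf.B 5 0 (Pf.C 0 0x800610282) (Pf.T 5 2 (Pf.cons (Pf.T 5 11 (Pf.cons (Pf.T 5 17 (Pf.cons (Pf.W 8 1 [0] [2,3,4,5] (Pf.cons (Pf.B 6 2 (Pf.B 6 0 (Pf.B 6 5 (Pf.B 6 4 (Pf.B 6 3 (Pf.W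 22 3 [] [0,1,2,6,5] (Pf.cons (Pf.T 6 14 (Pf.cons (Pf.W 4 643 [] [0,1,2,6] (Pf.cons (Pf.B 7 6 (Pf.B 7 2 (Pf.B 7 0 (Pf.B 7 1 (Pf.C 0 0x3010008383) (Pf.C 0 0x1050018381)) (Pf.C 1 7)) (Pf.C 1 263)) (Pf.C 1 775)) (Pf.cons (Pf.B 7 6 (Pf.B 7 2 (Pf.B 7 0 (Pf.B 7 1 (Pf.C 0 0x3010008385) (Pf.C 0 0x1030018381)) (Pf.C 1 7)) (Pf.C 1 263)) (Pf.C 1 775)) Pf.nil))) Pf.nil)) (Pf.cons (Pf.B 7 6 (Pf.B 7 2 (Pf.B 7 1 (Pf.C 23 897) (Pf.C 0 0x1030018381)) (Pf.C 1 263)) (Pf.C 1 775)) Pf.nil))) (Pf.C 0 0x860614202)) (Pf.B 6 3 (Pf.C 0 0x2060214180) (Pf.T 6 1 (Pf.cons (Pf.T 6 8 (Pf.cons (Pf.T 6 9 (Pf.cons (Pf.T 6 13 (Pf.cons (Pf.W 8 1 [0,6] [2,4] (Pf.cons (Pf.B 7 6 (Pf.B 7 4 (Pf.B 7 2 (Pf.B 7 0 (Pf.C 0 0x1040c00381)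 (Pf.C 1 7)) (Pf.C 1 263)) (Pf.C 9 0xc08384)) (Pf.C 1 775)) Pf.nil)) Pf.nil)) Pf.nil)) Pf.nil)) (Pf.cons (Pf.C 7 0x80c086) Pf.nil))))) (Pf.B 6 4 (Pf.B 6 3 (Pf.C 0 0x860a10182) (Pf.T 6 1 (Pf.cons (Pf.T 6 8 (Pf.cons (Pf.T 6 9 (Pf.cons (Pf.T 6 13 (Pf.cons (Pf.W 3 768 [] [1,2,3,4] (Pf.cons (Pf.B 7 4 (Pf.B 7 3 (Pf.B 7 1 (Pf.B 7 2 (Pf.C 0 0x2020604380) (Pf.C 0 0x860610382)) (Pf.C 2 135)) (Pf.C 2 391)) (Pf.C 2 519)) (Pf.cons (Pf.B 7 4 (Pf.B 7 3 (Pf.B 7 1 (Pf.B 7 2 (Pf.C 0 0x2020604386) (Pf.C 0 0x800610382)) (Pf.C 2 135)) (Pf.C 2 391)) (Pf.C 2 519)) Pf.nil))) Pf.nil)) Pf.nil)) Pf.nil)) (Pf.cons (Pf.C 7 0xa0c086) Pf.nil)))) (Pf.T 6 1 (Pf.cons (Pf.T 6 8 (Pf.cons (Pf.T 6 9 (Pf.cons (Pf.T 6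 13 (Pf.cons (Pf.W 8 1 [0,6] [2,4] (Pf.cons (Pf.B 7 6 (Pf.B 7 4 (Pf.B 7 2 (Pf.B 7 0 (Pf.C 0 0x1040c00381) (Pf.C 1 7)) (Pf.C 1 263)) (Pf.C 9 0xc08384)) (Pf.C 1 775)) Pf.nil)) Pf.nil)) Pf.nil)) Pf.nil)) (Pf.cons (Pf.C 7 0xa10086) Pf.nil))))) (Pf.C 1 6)) (Pf.C 1 262)) Pf.nil)) (Pf.cons (Pf.W 22 3 [] [1,2,4,5] (Pf.cons (Pf.B 6 5 (Pf.C 23 773) (Pf.B 6 2 (Pf.B 6 1 (Pf.C 23 769) (Pf.B 6 4 (Pf.C 0 0x860a0c202) (Pf.C 7 0xa04206))) (Pf.C 1 262))) Pf.nil)) Pf.nil))) Pf.nil)) (Pf.cons (Pf.T 5 12 (Pf.cons (Pf.W 8 1 [0] [2,5] (Pf.cons (Pf.B 6 5 (Pf.B 6 2 (Pf.B 6 0 (Pf.W 8 1 [0,6] [2,5] (Pf.cons (Pf.B 7 6 (Pf.B 7 5 (Pf.B 7 2 (Pf.B 7 0 (Pf.C 0 0x1050018381) (Pf.C 1 7)) (Pf.C 1 263)) (Pf.C 9 0x400385))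 (Pf.C 1 775)) Pf.nil)) (Pf.C 1 6)) (Pf.C 1 262)) (Pf.C 9 0x400305)) Pf.nil)) Pf.nil)) Pf.nil)))) (Pf.C 2 133)) (Pf.C 2 389)) (Pf.C 2 517)) Pf.nil)) Pf.nil)) (Pf.cons (Pf.W 8 1 [0] [2,4] (Pf.cons (Pf.B 5 4 (Pf.B 5 2 (Pf.B 5 0 (Pf.W 8 1 [0,5] [2,4] (Pf.cons (Pf.B 6 5 (Pf.B 6 4 (Pf.B 6 2 (Pf.B 6 0 (Pf.C 0 0x1040014301) (Pf.C 1 6)) (Pf.C 1 262)) (Pf.C 9 0x400304)) (Pf.C 1 646)) Pf.nil)) (Pf.C 1 5)) (Pf.C 1 261)) (Pf.C 9 0x400284)) Pf.nil)) Pf.nil))) Pf.nil))) (Pf.C 2 132)) (Pf.C 2 388)) Pf.nil)) Pf.nil)))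
 (Pq.cons (Pq.L [1] 1 (Pf.T 2 13 (Pf.cons (Pf.W 73 2 [] [1,3] (Pf.cons (Pf.B 4 3 (Pf.W 6 2 [1,3] [4] (Pf.cons (Pf.B 5 4 (Pf.B 5 3 (Pf.B 5 1 (Pf.W 22 3 [] [1,2,4,5] (Pf.cons (Pf.B 6 4 (Pf.C 23 772) (Pf.B 6 2 (Pf.B 6 1 (Pf.C 23 769) (Pf.B 6 5 (Pf.C 0 0x206020c282) (Pf.C 7 0x804286))) (Pf.C 1 262))) Pf.nil)) (Pf.C 2 133)) (Pf.C 2 389)) (Pf.C 2 517)) Pf.nil)) (Pf.C 2 388)) Pf.nil)) Pf.nil)))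
 (Pq.cons (Pq.L [] 1 (Pf.C 2 386))
 (Pq.cons (Pq.L [] 0 (Pf.X 1 2))
 (Pq.cons (Pq.L [] 1 (Pf.C 72 259))
 (Pq.cons (Pq.L [0,1] 1 (Pf.T 2 13 (Pf.cons (Pf.W 73 2 [] [0,1,3] (Pf.cons (Pf.B 4 3 (Pf.W 71 4 [] [0,1,2,3] (Pf.cons (Pf.B 5 3 (Pf.B 5 2 (Pf.W 4 385 [] [0,2,4,5] (Pf.cons (Pf.B 6 5 (Pf.B 6 2 (Pf.B 6 0 (Pf.B 6 4 (Pf.C 0 0x2840008301) (Pf.C 0 0x1030014304)) (Pf.C 1 6)) (Pf.C 1 262)) (Pf.C 1 646)) (Pf.cons (Pf.B 6 5 (Pf.B 6 2 (Pf.B 6 0 (Pf.B 6 4 (Pf.C 0 0x2840008303) (Pf.C 0 0x1010014304)) (Pf.C 1 6)) (Pf.C 1 262)) (Pf.C 1 646)) Pf.nil))) (Pf.C 1 261)) (Pf.C 72 643)) Pf.nil)) (Pf.C 2 388)) Pf.nil)) Pf.nil)))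
 (Pq.cons (Pq.L [] 1 (Pf.C 2 386))
 (Pq.cons (Pq.L [] 0 (Pf.X 1 2))
 (Pq.cons (Pq.L [0,1] 1 (Pf.T 2 13 (Pf.cons (Pf.T 3 16 (Pf.cons (Pf.W 13 2 [] [0,1,3] (Pf.cons (Pf.B 4 3 (Pf.B 4 1 (Pf.T 4 17 (Pf.cons (Pf.W 6 2 [3,4] [0,1] (Pf.cons (Pf.B 5 4 (Pf.B 5 3 (Pf.B 5 1 (Pf.B 5 0 (Pf.C 0 0x80080c282) (Pf.T 5 2 (Pf.cons (Pf.T 5 11 (Pf.cons (Pf.T 5 17 (Pf.cons (Pf.W 8 1 [0] [2,3,4,5] (Pf.cons (Pf.B 6 2 (Pf.B 6 0 (Pf.B 6 5 (Pf.B 6 4 (Pf.W 22 4 [] [0,1,2,6,5] (Pf.cons (Pf.T 6 14 (Pf.cons (Pf.W 4 644 [] [0,1,2,6] (Pf.cons (Pf.B 7 6 (Pf.B 7 2 (Pf.B 7 0 (Pf.B 7 1 (Pf.C 0 0x3010008384) (Pf.C 0 0x1050018381)) (Pf.C 1 7)) (Pf.C 1 263)) (Pf.C 1 775)) (Pf.cons (Pf.B 7 6 (Pf.B 7 2 (Pf.B 7 0 (Pf.B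 7 1 (Pf.C 0 0x3010008385) (Pf.C 0 0x1040018381)) (Pf.C 1 7)) (Pf.C 1 263)) (Pf.C 1 775)) Pf.nil))) Pf.nil)) (Pf.cons (Pf.B 7 6 (Pf.B 7 2 (Pf.B 7 1 (Pf.C 23 897) (Pf.C 0 0x1040018381)) (Pf.C 1 263)) (Pf.C 1 775)) Pf.nil))) (Pf.B 6 3 (Pf.C 0 0x860814182) (Pf.T 6 1 (Pf.cons (Pf.T 6 8 (Pf.cons (Pf.T 6 9 (Pf.cons (Pf.T 6 13 (Pf.cons (Pf.W 8 1 [0,6] [2,3] (Pf.cons (Pf.B 7 6 (Pf.B 7 3 (Pf.B 7 2 (Pf.B 7 0 (Pf.C 0 0x1030c00381) (Pf.C 1 7)) (Pf.C 1 263)) (Pf.C 9 0xc08383)) (Pf.C 1 775)) Pf.nil)) Pf.nil)) Pf.nil)) Pf.nil)) (Pf.cons (Pf.C 7 0x80c086) Pf.nil))))) (Pf.B 6 4 (Pf.B 6 3 (Pf.C 0 0x860a10182) (Pf.T 6 1 (Pf.cons (Pf.T 6 8 (Pf.cons (Pf.T 6 9 (Pf.cons (Pf.T 6 13 (Pf.cons (Pf.W 8 1 [0,6]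 [2,3] (Pf.cons (Pf.B 7 6 (Pf.B 7 3 (Pf.B 7 2 (Pf.B 7 0 (Pf.C 0 0x1030c00381) (Pf.C 1 7)) (Pf.C 1 263)) (Pf.C 9 0xc08383)) (Pf.C 1 775)) Pf.nil)) Pf.nil)) Pf.nil)) Pf.nil)) (Pf.cons (Pf.C 7 0xa0c086) Pf.nil)))) (Pf.B 6 3 (Pf.T 6 1 (Pf.cons (Pf.T 6 8 (Pf.cons (Pf.T 6 9 (Pf.cons (Pf.T 6 13 (Pf.cons (Pf.W 3 768 [] [1,2,3,4] (Pf.cons (Pf.B 7 4 (Pf.B 7 3 (Pf.B 7 1 (Pf.B 7 2 (Pf.C 0 0x1820804380) (Pf.C 0 0x86080c382)) (Pf.C 2 135)) (Pf.C 2 391)) (Pf.C 2 519)) (Pf.cons (Pf.B 7 4 (Pf.B 7 3 (Pf.B 7 1 (Pf.B 7 2 (Pf.C 0 0x1820804386) (Pf.C 0 0x80080c382)) (Pf.C 2 135)) (Pf.C 2 391)) (Pf.C 2 519)) Pf.nil))) Pf.nil)) Pf.nil)) Pf.nil)) (Pf.cons (Pf.C 7 0xa10086) Pf.nil))) (Pf.T 6 1 (Pf.cons (Pf.T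 6 8 (Pf.cons (Pf.T 6 9 (Pf.cons (Pf.T 6 13 (Pf.cons (Pf.W 8 1 [0,6] [2,3] (Pf.cons (Pf.B 7 6 (Pf.B 7 3 (Pf.B 7 2 (Pf.B 7 0 (Pf.C 0 0x1030c00381) (Pf.C 1 7)) (Pf.C 1 263)) (Pf.C 9 0xc08383)) (Pf.C 1 775)) Pf.nil)) Pf.nil)) Pf.nil)) Pf.nil)) (Pf.cons (Pf.C 7 0x80c086) Pf.nil)))))) (Pf.C 1 6)) (Pf.C 1 262)) Pf.nil)) (Pf.cons (Pf.W 22 4 [] [1,2,3,5] (Pf.cons (Pf.B 6 5 (Pf.C 23 773) (Pf.B 6 2 (Pf.B 6 1 (Pf.C 23 769) (Pf.B 6 3 (Pf.C 0 0x860a10182) (Pf.C 7 0xa04186))) (Pf.C 1 262))) Pf.nil)) Pf.nil))) Pf.nil)) (Pf.cons (Pf.T 5 12 (Pf.cons (Pf.W 8 1 [0] [2,5] (Pf.cons (Pf.B 6 5 (Pf.B 6 2 (Pf.B 6 0 (Pf.W 8 1 [0,6] [2,5] (Pf.cons (Pf.B 7 6 (Pf.B 7 5 (Pf.B 7 2 (Pf.B 7 0 (Pf.C 0 0x1050018381)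 (Pf.C 1 7)) (Pf.C 1 263)) (Pf.C 9 0x400385)) (Pf.C 1 775)) Pf.nil)) (Pf.C 1 6)) (Pf.C 1 262)) (Pf.C 9 0x400305)) Pf.nil)) Pf.nil)) Pf.nil)))) (Pf.C 2 133)) (Pf.C 2 389)) (Pf.C 2 517)) Pf.nil)) (Pf.cons (Pf.W 6 2 [3,4] [0,1] (Pf.cons (Pf.B 5 4 (Pf.B 5 3 (Pf.B 5 1 (Pf.B 5 0 (Pf.C 0 0x80080c282) (Pf.T 5 2 (Pf.cons (Pf.T 5 11 (Pf.cons (Pf.T 5 17 (Pf.cons (Pf.W 22 5 [] [1,2,3,4] (Pf.cons (Pf.B 6 4 (Pf.C 23 772) (Pf.B 6 2 (Pf.B 6 1 (Pf.C 23 769) (Pf.B 6 3 (Pf.C 0 0x860814182) (Pf.C 7 0x804186))) (Pf.C 1 262))) Pf.nil)) (Pf.cons (Pf.W 8 1 [0] [2,3,4,5] (Pf.cons (Pf.B 6 2 (Pf.B 6 0 (Pf.B 6 5 (Pf.B 6 4 (Pf.W 4 644 [] [0,1,2,6] (Pf.cons (Pf.B 7 6 (Pf.B 7 2 (Pf.B 7 0 (Pf.B 7 1 (Pf.C 0 0x3010008384)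 (Pf.C 0 0x1050018381)) (Pf.C 1 7)) (Pf.C 1 263)) (Pf.C 1 775)) (Pf.cons (Pf.B 7 6 (Pf.B 7 2 (Pf.B 7 0 (Pf.B 7 1 (Pf.C 0 0x3010008385) (Pf.C 0 0x1040018381)) (Pf.C 1 7)) (Pf.C 1 263)) (Pf.C 1 775)) Pf.nil))) (Pf.B 6 3 (Pf.C 0 0x860814182) (Pf.T 6 1 (Pf.cons (Pf.T 6 8 (Pf.cons (Pf.T 6 9 (Pf.cons (Pf.T 6 13 (Pf.cons (Pf.W 8 1 [0,6] [2,3] (Pf.cons (Pf.B 7 6 (Pf.B 7 3 (Pf.B 7 2 (Pf.B 7 0 (Pf.C 0 0x1030c00381) (Pf.C 1 7)) (Pf.C 1 263)) (Pf.C 9 0xc08383)) (Pf.C 1 775)) Pf.nil)) Pf.nil)) Pf.nil)) Pf.nil)) (Pf.cons (Pf.C 7 0x80c086) Pf.nil))))) (Pf.B 6 4 (Pf.B 6 3 (Pf.C 0 0x860a10182) (Pf.T 6 1 (Pf.cons (Pf.T 6 8 (Pf.cons (Pf.T 6 9 (Pf.cons (Pf.T 6 13 (Pf.cons (Pf.W 8 1 [0,6] [2,3] (Pf.cons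 (Pf.B 7 6 (Pf.B 7 3 (Pf.B 7 2 (Pf.B 7 0 (Pf.C 0 0x1030c00381) (Pf.C 1 7)) (Pf.C 1 263)) (Pf.C 9 0xc08383)) (Pf.C 1 775)) Pf.nil)) Pf.nil)) Pf.nil)) Pf.nil)) (Pf.cons (Pf.C 7 0xa0c086) Pf.nil)))) (Pf.B 6 3 (Pf.T 6 1 (Pf.cons (Pf.T 6 8 (Pf.cons (Pf.T 6 9 (Pf.cons (Pf.T 6 13 (Pf.cons (Pf.W 3 768 [] [1,2,3,4] (Pf.cons (Pf.B 7 4 (Pf.B 7 3 (Pf.B 7 1 (Pf.B 7 2 (Pf.C 0 0x1820804380) (Pf.C 0 0x86080c382)) (Pf.C 2 135)) (Pf.C 2 391)) (Pf.C 2 519)) (Pf.cons (Pf.B 7 4 (Pf.B 7 3 (Pf.B 7 1 (Pf.B 7 2 (Pf.C 0 0x1820804386) (Pf.C 0 0x80080c382)) (Pf.C 2 135)) (Pf.C 2 391)) (Pf.C 2 519)) Pf.nil))) Pf.nil)) Pf.nil)) Pf.nil)) (Pf.cons (Pf.C 7 0xa10086) Pf.nil))) (Pf.T 6 1 (Pf.cons (Pf.T 6 8 (Pf.cons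 (Pf.T 6 9 (Pf.cons (Pf.T 6 13 (Pf.cons (Pf.W 8 1 [0,6] [2,3] (Pf.cons (Pf.B 7 6 (Pf.B 7 3 (Pf.B 7 2 (Pf.B 7 0 (Pf.C 0 0x1030c00381) (Pf.C 1 7)) (Pf.C 1 263)) (Pf.C 9 0xc08383)) (Pf.C 1 775)) Pf.nil)) Pf.nil)) Pf.nil)) Pf.nil)) (Pf.cons (Pf.C 7 0x80c086) Pf.nil)))))) (Pf.C 1 6)) (Pf.C 1 262)) Pf.nil)) Pf.nil))) Pf.nil)) (Pf.cons (Pf.T 5 12 (Pf.cons (Pf.W 8 1 [0] [2,5] (Pf.cons (Pf.B 6 5 (Pf.B 6 2 (Pf.B 6 0 (Pf.W 8 1 [0,6] [2,5] (Pf.cons (Pf.B 7 6 (Pf.B 7 5 (Pf.B 7 2 (Pf.B 7 0 (Pf.C 0 0x1050018381) (Pf.C 1 7)) (Pf.C 1 263)) (Pf.C 9 0x400385)) (Pf.C 1 775)) Pf.nil)) (Pf.C 1 6)) (Pf.C 1 262)) (Pf.C 9 0x400305)) Pf.nil)) Pf.nil)) Pf.nil)))) (Pf.C 2 133)) (Pf.C 2 389)) (Pf.C 2 517))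 Pf.nil)) Pf.nil))) (Pf.C 2 132)) (Pf.C 2 388)) (Pf.cons (Pf.B 4 1 (Pf.W 8 1 [0] [2,4] (Pf.cons (Pf.B 5 4 (Pf.B 5 2 (Pf.B 5 0 (Pf.W 8 1 [0,5] [2,4] (Pf.cons (Pf.B 6 5 (Pf.B 6 4 (Pf.B 6 2 (Pf.B 6 0 (Pf.C 0 0x1040014301) (Pf.C 1 6)) (Pf.C 1 262)) (Pf.C 9 0x400304)) (Pf.C 1 646)) Pf.nil)) (Pf.C 1 5)) (Pf.C 1 261)) (Pf.C 9 0x400284)) Pf.nil)) (Pf.C 2 132)) Pf.nil))) Pf.nil)) Pf.nil)))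
 (Pq.cons (Pq.L [0,1] 1 (Pf.T 2 13 (Pf.cons (Pf.T 3 16 (Pf.cons (Pf.W 73 2 [] [0,1,3] (Pf.cons (Pf.B 4 3 (Pf.W 71 4 [] [0,1,2,3] (Pf.cons (Pf.B 5 2 (Pf.B 5 3 (Pf.T 5 13 (Pf.cons (Pf.W 6 2 [1,3] [0,4,5] (Pf.cons (Pf.B 6 4 (Pf.B 6 3 (Pf.B 6 1 (Pf.B 6 5 (Pf.B 6 0 (Pf.C 0 0x200020c302) (Pf.W 4 769 [] [0,2,4,5] (Pf.cons (Pf.B 7 5 (Pf.B 7 2 (Pf.B 7 0 (Pf.B 7 4 (Pf.C 0 0x2840008381) (Pf.C 0 0x1060014384)) (Pf.C 1 7)) (Pf.C 1 263)) (Pf.C 1 647)) (Pf.cons (Pf.B 7 5 (Pf.B 7 2 (Pf.B 7 0 (Pf.B 7 4 (Pf.C 0 0x2840008386) (Pf.C 0 0x1010014384)) (Pf.C 1 7)) (Pf.C 1 263)) (Pf.C 1 647)) Pf.nil)))) (Pf.C 0 0x2050c0c082)) (Pf.C 2 134)) (Pf.C 2 390)) (Pf.C 2 518)) Pf.nil)) Pf.nil)) (Pf.W 8 1 [0,2]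 [3,5] (Pf.cons (Pf.B 6 5 (Pf.B 6 3 (Pf.B 6 2 (Pf.B 6 0 (Pf.C 0 0x2830400301) (Pf.C 1 6)) (Pf.C 1 262)) (Pf.C 9 0xa08303)) (Pf.C 1 646)) Pf.nil))) (Pf.C 1 261)) Pf.nil)) (Pf.C 2 388)) Pf.nil)) Pf.nil)) Pf.nil)))
 (Pq.cons (Pq.L [] 1 (Pf.C 2 386))
 (Pq.cons (Pq.L [] 0 (Pf.X 1 2))
 (Pq.cons (Pq.L [0,1] 1 (Pf.T 2 13 (Pf.cons (Pf.W 8 1 [0] [2,3] (Pf.cons (Pf.B 4 3 (Pf.B 4 2 (Pf.B 4 0 (Pf.W 8 1 [0,4] [2,3] (Pf.cons (Pf.B 5 4 (Pf.B 5 3 (Pf.B 5 2 (Pf.B 5 0 (Pf.C 0 0x1030010281) (Pf.C 1 5)) (Pf.C 1 261)) (Pf.C 9 0x400283)) (Pf.C 1 517)) Pf.nil)) (Pf.C 1 4)) (Pf.C 1 260)) (Pf.C 9 0x400203)) Pf.nil)) Pf.nil)))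
 (Pq.cons (Pq.L [0,1] 1 (Pf.T 2 13 (Pf.cons (Pf.W 73 2 [] [0,1,3] (Pf.cons (Pf.B 4 3 (Pf.W 71 4 [] [0,1,2,3] (Pf.cons (Pf.B 5 3 (Pf.B 5 2 (Pf.W 8 1 [0,2] [3,4,5] (Pf.cons (Pf.B 6 5 (Pf.B 6 3 (Pf.B 6 2 (Pf.B 6 0 (Pf.B 6 4 (Pf.C 0 0x2840008301) (Pf.C 0 0x1030014304)) (Pf.C 1 6)) (Pf.C 1 262)) (Pf.C 9 0x400303)) (Pf.C 1 646)) Pf.nil)) (Pf.C 1 261)) (Pf.C 9 0x400283)) Pf.nil)) (Pf.C 2 388)) Pf.nil)) Pf.nil)))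
 (Pq.cons (Pq.L [] 1 (Pf.C 2 386))
 Pq.nil))))))))))))))))))))
theorem bS113_o64 : AllRef bS113_T bS113_G86 (closeObl (bS113_T.sc.get 1) false [122,132,133,125,130,131,128,129] [0,0,0,2,3,3,4,5] [1] [3] 19) :=
  chkPq_sound bS113_o64c _ (by decide +kernel)
noncomputable def bS113_o65c : Pq := (Pq.cons (Pq.L [] 0 (Pf.X 1 2))
 (Pq.cons (Pq.L [] 1 (Pf.C 1 386))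
 (Pq.cons (Pq.L [] 1 (Pf.C 1 386))
 (Pq.cons (Pq.L [] 1 (Pf.C 78 259))
 (Pq.cons (Pq.L [] 0 (Pf.X 1 2))
 (Pq.cons (Pq.L [0,1] 1 (Pf.T 2 13 (Pf.cons (Pf.T 3 49 (Pf.cons (Pf.W 71 3 [] [0,1,2] (Pf.cons (Pf.B 4 2 (Pf.T 4 13 (Pf.cons (Pf.W 77 2 [] [0,1,3,4] (Pf.cons (Pf.B 5 3 (Pf.B 5 4 (Pf.W 75 5 [] [0,2,3,4] (Pf.cons (Pf.B 6 4 (Pf.B 6 3 (Pf.C 76 771) (Pf.B 6 2 (Pf.C 0 0x1050010303) (Pf.C 1 262))) (Pf.C 1 518)) Pf.nil)) (Pf.W 75 5 [] [0,1,2,4] (Pf.cons (Pf.B 6 4 (Pf.B 6 2 (Pf.C 0 0x3010010105) (Pf.C 1 262)) (Pf.C 1 518)) Pf.nil))) (Pf.C 2 389)) Pf.nil)) Pf.nil)) (Pf.C 1 260)) Pf.nil)) Pf.nil)) Pf.nil)))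
 (Pq.cons (Pq.L [] 1 (Pf.C 76 259))
 (Pq.cons (Pq.L [] 1 (Pf.C 2 386))
 Pq.nil))))))))
theorem bS113_o65 : AllRef bS113_T bS113_G89 (closeObl (bS113_T.sc.get 1) true [136,137,123,134,135] [0,0,0,3,3] [1] [3] 13) :=
  chkPq_sound bS113_o65c _ (by decide +kernel)
noncomputable def bS113_o66c : Pq := (Pq.cons (Pq.L [0,1] 1 (Pf.T 3 52 (Pf.cons (Pf.T 3 13 (Pf.cons (Pf.T 2 52 (Pf.cons (Pf.T 2 13 (Pf.cons (Pf.W 77 3 [] [0,1,2] (Pf.cons (Pf.B 4 2 (Pf.C 80 514) (Pf.W 75 4 [] [0,1,2,3] (Pf.cons (Pf.B 5 3 (Pf.B 5 2 (Pf.C 0 0x281000c104) (Pf.C 1 261)) (Pf.C 1 389)) Pf.nil))) Pf.nil)) Pf.nil)) Pf.nil)) Pf.nil)) Pf.nil)))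
 (Pq.cons (Pq.L [] 1 (Pf.C 1 386))
 Pq.nil))
theorem bS113_o66 : AllRef bS113_T bS113_G91 (hitObl [139] bS113_h128) :=
  chkPq_sound bS113_o66c _ (by decide +kernel)
noncomputable def bS113_o67c : Pq := (Pq.cons (Pq.L [] 0 (Pf.C 81 2))
 Pq.nil)
theorem bS113_o67 : AllRef bS113_T bS113_G92 (List.map pat1 [140]) :=
  chkPq_sound bS113_o67c _ (by decide +kernel)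
noncomputable def bS113_o68c : Pq := (Pq.cons (Pq.L [0,1] 1 (Pf.T 2 13 (Pf.cons (Pf.T 2 50 (Pf.cons (Pf.T 3 13 (Pf.cons (Pf.T 3 50 (Pf.cons (Pf.W 73 2 [] [0,1,3] (Pf.cons (Pf.B 4 3 (Pf.W 71 4 [] [0,1,2,3] (Pf.cons (Pf.B 5 3 (Pf.B 5 2 (Pf.C 0 0x284000c101) (Pf.C 1 261)) (Pf.C 1 389)) Pf.nil)) (Pf.C 83 515)) Pf.nil)) Pf.nil)) Pf.nil)) Pf.nil)) Pf.nil)))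
 (Pq.cons (Pq.L [] 1 (Pf.C 1 386))
 Pq.nil))
theorem bS113_o68 : AllRef bS113_T bS113_G94 (hitObl [142] bS113_h132) :=
  chkPq_sound bS113_o68c _ (by decide +kernel)
noncomputable def bS113_o69c : Pq := (Pq.cons (Pq.L [] 0 (Pf.C 84 2))
 Pq.nil)
theorem bS113_o69 : AllRef bS113_T bS113_G95 (List.map pat1 [143]) :=
  chkPq_sound bS113_o69c _ (by decide +kernel)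
noncomputable def bS113_o70c : Pq := (Pq.cons (Pq.D 0 (Pq.cons (Pq.D 1 (Pq.cons (Pq.L [] 1 (Pf.C 1 386))
 (Pq.cons (Pq.L [] 1 (Pf.C 1 386))
 (Pq.cons (Pq.D 2 (Pq.cons (Pq.L [] 2 (Pf.C 1 514))
 (Pq.cons (Pq.L [] 2 (Pf.C 1 514))
 (Pq.cons (Pq.D 3 (Pq.cons (Pq.L [] 4 (Pf.C 1 642))
 (Pq.cons (Pq.L [] 4 (Pf.C 1 642))
 (Pq.cons (Pq.L [0,1] 7 (Pf.B 5 4 (Pf.B 5 3 (Pf.B 4 3 (Pf.T 5 51 (Pf.cons (Pf.T 5 49 (Pf.cons (Pf.T 4 51 (Pf.cons (Pf.T 4 49 (Pf.cons (Pf.T 3 51 (Pf.cons (Pf.T 3 49 (Pf.cons (Pf.T 2 52 (Pf.cons (Pf.T 2 13 (Pf.cons (Pf.W 75 5 [] [0,1,2,3,4] (Pf.cons (Pf.B 6 2 (Pf.B 6 4 (Pf.B 6 3 (Pf.T 6 13 (Pf.cons (Pf.T 6 50 (Pf.cons (Pf.W 4 515 [] [0,1,2,6] (Pf.cons (Pf.B 7 6 (Pf.B 7 2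 (Pf.B 7 0 (Pf.B 7 1 (Pf.C 0 0x3010008383) (Pf.C 0 0x1040018381)) (Pf.C 1 7)) (Pf.C 1 263)) (Pf.C 1 775)) (Pf.cons (Pf.B 7 6 (Pf.B 7 2 (Pf.B 7 0 (Pf.B 7 1 (Pf.C 0 0x3010008384) (Pf.C 0 0x1030018381)) (Pf.C 1 7)) (Pf.C 1 263)) (Pf.C 1 775)) Pf.nil))) Pf.nil)) Pf.nil)) (Pf.C 0 0x860614202)) (Pf.B 6 3 (Pf.C 0 0x860814182) (Pf.T 6 13 (Pf.cons (Pf.T 6 50 (Pf.cons (Pf.W 75 3 [] [0,1,2,4,5,6] (Pf.cons (Pf.B 7 6 (Pf.B 7 2 (Pf.B 7 5 (Pf.C 0 0x1050018381) (Pf.B 7 4 (Pf.C 0 0x287020c206) (Pf.T 7 13 (Pf.cons (Pf.T 7 50 (Pf.cons (Pf.W 75 4 [] [0,1,2,3,5,6,7] (Pf.cons (Pf.B 8 7 (Pf.B 8 6 (Pf.B 8 2 (Pf.B 8 5 (Pf.C 0 0x1050018401) (Pf.T 8 13 (Pf.cons (Pf.T 8 50 (Pf.cons (Pf.W 79 2 [] [0,1,3,4,5,7,8]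 (Pf.cons (Pf.B 9 5 (Pf.B 9 4 (Pf.B 9 8 (Pf.B 9 3 (Pf.B 9 7 (Pf.T 9 49 (Pf.cons (Pf.W 71 9 [] [0,1,7,8] (Pf.cons (Pf.B 10 8 (Pf.B 10 7 (Pf.C 0 0x5090020381) (Pf.C 1 906)) (Pf.C 1 1034)) Pf.nil)) Pf.nil)) (Pf.C 0 0x1820804487)) (Pf.C 2 393)) (Pf.C 0 0x2020a04488)) (Pf.C 2 521)) (Pf.C 2 649)) Pf.nil)) Pf.nil)) Pf.nil))) (Pf.C 1 264)) (Pf.C 1 776)) (Pf.C 1 904)) Pf.nil)) Pf.nil)) Pf.nil)))) (Pf.C 1 263)) (Pf.C 1 775)) Pf.nil)) Pf.nil)) Pf.nil)))) (Pf.C 1 262)) Pf.nil)) Pf.nil)) Pf.nil)) Pf.nil)) Pf.nil)) Pf.nil)) Pf.nil)) Pf.nil)) Pf.nil)) (Pf.C 2 388)) (Pf.C 2 389)) (Pf.C 2 517)))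
 Pq.nil)))) Pq.nil)))) Pq.nil)))) (Pq.cons (Pq.D 1 (Pq.cons (Pq.L [] 1 (Pf.C 1 386))
 (Pq.cons (Pq.L [] 1 (Pf.C 1 386))
 (Pq.cons (Pq.D 2 (Pq.cons (Pq.L [] 2 (Pf.C 1 514))
 (Pq.cons (Pq.L [] 2 (Pf.C 1 514))
 (Pq.cons (Pq.D 3 (Pq.cons (Pq.L [] 4 (Pf.C 1 642))
 (Pq.cons (Pq.L [] 4 (Pf.C 1 642))
 (Pq.cons (Pq.L [0,1] 7 (Pf.B 5 4 (Pf.B 5 3 (Pf.B 4 3 (Pf.T 5 51 (Pf.cons (Pf.T 5 49 (Pf.cons (Pf.T 4 51 (Pf.cons (Pf.T 4 49 (Pf.cons (Pf.T 3 51 (Pf.cons (Pf.T 3 49 (Pf.cons (Pf.T 2 50 (Pf.cons (Pf.T 2 13 (Pf.cons (Pf.W 71 5 [] [0,1,2,3,4] (Pf.cons (Pf.B 6 2 (Pf.B 6 4 (Pf.B 6 3 (Pf.T 6 13 (Pf.cons (Pf.T 6 52 (Pf.cons (Pf.T 6 53 (Pf.cons (Pf.W 71 3 [] [0,1,2,4,5,6] (Pf.cons (Pf.B 7 6 (Pf.B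 7 2 (Pf.B 7 5 (Pf.B 7 4 (Pf.T 7 13 (Pf.cons (Pf.T 7 52 (Pf.cons (Pf.T 7 53 (Pf.cons (Pf.W 71 4 [] [0,1,2,3,5,6,7] (Pf.cons (Pf.B 8 7 (Pf.B 8 6 (Pf.B 8 2 (Pf.B 8 5 (Pf.B 8 3 (Pf.T 8 13 (Pf.cons (Pf.T 8 52 (Pf.cons (Pf.T 8 53 (Pf.cons (Pf.W 6 2 [1] [0,3,4,5,6,7,8] (Pf.cons (Pf.B 9 5 (Pf.B 9 4 (Pf.B 9 3 (Pf.B 9 1 (Pf.B 9 0 (Pf.C 0 0x4820210180) (Pf.B 9 8 (Pf.B 9 7 (Pf.B 9 6 (Pf.T 9 2 (Pf.cons (Pf.T 9 11 (Pf.cons (Pf.T 9 17 (Pf.cons (Pf.W 22 9 [] [3,4,5] (Pf.cons (Pf.B 10 5 (Pf.C 23 1285) (Pf.B 10 4 (Pf.C 23 1284) (Pf.B 10 3 (Pf.C 23 1283) (Pf.C 7 0xa1018a)))) Pf.nil)) (Pf.cons (Pf.W 8 1 [0,2] [3,4,5,6,7,8,9] (Pf.cons (Pf.B 10 8 (Pf.B 10 7 (Pf.B 10 6 (Pf.B 10 2 (Pf.B 10 0 (Pf.B 10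 5 (Pf.C 0 0x3050008501) (Pf.B 10 9 (Pf.C 0 0x1090018505) (Pf.B 10 4 (Pf.C 0 0x4040008501) (Pf.B 10 3 (Pf.C 0 0x3830008501) (Pf.T 10 1 (Pf.cons (Pf.T 10 8 (Pf.cons (Pf.T 10 9 (Pf.cons (Pf.T 10 13 (Pf.cons (Pf.W 4 1153 [] [2,5,6,10] (Pf.cons (Pf.B 11 10 (Pf.B 11 6 (Pf.B 11 2 (Pf.B 11 5 (Pf.C 0 0x3051408581) (Pf.C 0 0x1091418585)) (Pf.C 1 267)) (Pf.C 1 779)) (Pf.C 1 1291)) (Pf.cons (Pf.B 11 10 (Pf.B 11 6 (Pf.B 11 2 (Pf.B 11 5 (Pf.C 0 0x3051408589) (Pf.C 0 0x1011418585)) (Pf.C 1 267)) (Pf.C 1 779)) (Pf.C 1 1291)) Pf.nil))) Pf.nil)) Pf.nil)) Pf.nil)) (Pf.cons (Pf.C 7 0x80c08a) Pf.nil))))))) (Pf.C 1 10)) (Pf.C 1 266)) (Pf.C 1 778)) (Pf.C 1 906)) (Pf.C 1 1034)) Pf.nil)) Pf.nil))) Pf.nil))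 (Pf.cons (Pf.T 9 12 (Pf.cons (Pf.W 8 1 [0,2] [5,6,9] (Pf.cons (Pf.B 10 9 (Pf.B 10 6 (Pf.B 10 2 (Pf.B 10 0 (Pf.B 10 5 (Pf.C 0 0x3050008501) (Pf.C 0 0x1090018505)) (Pf.C 1 10)) (Pf.C 1 266)) (Pf.C 1 778)) (Pf.C 9 0x400509)) Pf.nil)) Pf.nil)) Pf.nil))) (Pf.C 0 0x3830008309)) (Pf.C 0 0x4040008389)) (Pf.B 9 7 (Pf.C 0 0x3830020109) (Pf.B 9 6 (Pf.C 0 0x305001c109) (Pf.T 9 2 (Pf.cons (Pf.T 9 11 (Pf.cons (Pf.T 9 17 (Pf.cons (Pf.W 22 9 [] [0,5,7,8] (Pf.cons (Pf.B 10 8 (Pf.B 10 7 (Pf.B 10 5 (Pf.C 23 1285) (Pf.C 0 0x5050020389)) (Pf.C 1 906)) (Pf.C 1 1034)) Pf.nil)) (Pf.cons (Pf.W 82 2 [] [0,1,3,4,5,6,7,8,9] (Pf.cons (Pf.T 9 49 (Pf.cons (Pf.T 9 51 (Pf.cons (Pf.W 75 9 [] [0,1,7,8] (Pf.cons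 (Pf.B 10 8 (Pf.B 10 7 (Pf.C 0 0x5010020389) (Pf.C 1 906)) (Pf.C 1 1034)) Pf.nil)) Pf.nil)) Pf.nil)) (Pf.cons (Pf.B 10 9 (Pf.B 10 5 (Pf.B 10 6 (Pf.C 0 0x2861204502) (Pf.B 10 4 (Pf.B 10 8 (Pf.C 0 0x404001810a) (Pf.B 10 3 (Pf.B 10 7 (Pf.C 0 0x383001810a) (Pf.T 10 49 (Pf.cons (Pf.T 10 51 (Pf.cons (Pf.W 75 10 [] [0,1,7,8] (Pf.cons (Pf.B 11 8 (Pf.B 11 7 (Pf.C 0 0x581002038a) (Pf.C 1 907)) (Pf.C 1 1035)) Pf.nil)) Pf.nil)) Pf.nil))) (Pf.C 2 394))) (Pf.C 2 522))) (Pf.C 2 650)) (Pf.C 2 1162)) Pf.nil))) Pf.nil))) Pf.nil)) (Pf.cons (Pf.C 9 0xc08009) Pf.nil))))))) (Pf.C 2 137)) (Pf.C 2 393)) (Pf.C 2 521)) (Pf.C 2 649)) Pf.nil)) (Pf.cons (Pf.C 80 392) Pf.nil))) Pf.nil)) Pf.nil)) (Pf.C 0 0x101001c403))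 (Pf.C 0 0x1010018405)) (Pf.C 1 264)) (Pf.C 1 776)) (Pf.C 1 904)) Pf.nil)) (Pf.cons (Pf.C 80 519) Pf.nil))) Pf.nil)) Pf.nil)) (Pf.T 7 13 (Pf.cons (Pf.T 7 52 (Pf.cons (Pf.T 7 53 (Pf.cons (Pf.W 4 515 [] [0,5,6,7] (Pf.cons (Pf.B 8 7 (Pf.B 8 6 (Pf.B 8 0 (Pf.B 8 5 (Pf.C 0 0x305001c403) (Pf.C 0 0x3840018405)) (Pf.C 1 8)) (Pf.C 1 776)) (Pf.C 1 904)) (Pf.cons (Pf.B 8 7 (Pf.B 8 6 (Pf.B 8 0 (Pf.B 8 5 (Pf.C 0 0x305001c404) (Pf.C 0 0x3830018405)) (Pf.C 1 8)) (Pf.C 1 776)) (Pf.C 1 904)) Pf.nil))) (Pf.cons (Pf.C 80 647) Pf.nil))) Pf.nil)) Pf.nil))) (Pf.C 0 0x1010018385)) (Pf.C 1 263)) (Pf.C 1 775)) Pf.nil)) (Pf.cons (Pf.C 80 390) Pf.nil))) Pf.nil)) Pf.nil)) (Pf.T 6 13 (Pf.cons (Pf.T 6 52 (Pf.cons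 (Pf.T 6 53 (Pf.cons (Pf.W 71 4 [] [0,1,2,3,5,6] (Pf.cons (Pf.B 7 6 (Pf.B 7 2 (Pf.B 7 5 (Pf.B 7 3 (Pf.T 7 13 (Pf.cons (Pf.T 7 52 (Pf.cons (Pf.T 7 53 (Pf.cons (Pf.W 4 643 [] [0,4,6,7] (Pf.cons (Pf.B 8 7 (Pf.B 8 6 (Pf.B 8 0 (Pf.B 8 4 (Pf.C 0 0x3840018403) (Pf.C 0 0x305001c404)) (Pf.C 1 8)) (Pf.C 1 776)) (Pf.C 1 904)) (Pf.cons (Pf.B 8 7 (Pf.B 8 6 (Pf.B 8 0 (Pf.B 8 4 (Pf.C 0 0x3840018405) (Pf.C 0 0x303001c404)) (Pf.C 1 8)) (Pf.C 1 776)) (Pf.C 1 904)) Pf.nil))) (Pf.cons (Pf.C 80 391) Pf.nil))) Pf.nil)) Pf.nil)) (Pf.C 0 0x1010018383)) (Pf.C 0 0x1010018385)) (Pf.C 1 263)) (Pf.C 1 775)) Pf.nil)) (Pf.cons (Pf.C 80 518) Pf.nil))) Pf.nil)) Pf.nil))) (Pf.B 6 3 (Pf.T 6 13 (Pf.cons (Pf.T 6 52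 (Pf.cons (Pf.T 6 53 (Pf.cons (Pf.W 71 3 [] [0,1,2,4,5,6] (Pf.cons (Pf.B 7 6 (Pf.B 7 2 (Pf.B 7 5 (Pf.B 7 4 (Pf.T 7 13 (Pf.cons (Pf.T 7 52 (Pf.cons (Pf.T 7 53 (Pf.cons (Pf.W 4 644 [] [0,3,6,7] (Pf.cons (Pf.B 8 7 (Pf.B 8 6 (Pf.B 8 0 (Pf.B 8 3 (Pf.C 0 0x3830018404) (Pf.C 0 0x305001c403)) (Pf.C 1 8)) (Pf.C 1 776)) (Pf.C 1 904)) (Pf.cons (Pf.B 8 7 (Pf.B 8 6 (Pf.B 8 0 (Pf.B 8 3 (Pf.C 0 0x3830018405) (Pf.C 0 0x304001c403)) (Pf.C 1 8)) (Pf.C 1 776)) (Pf.C 1 904)) Pf.nil))) (Pf.cons (Pf.C 80 519) Pf.nil))) Pf.nil)) Pf.nil)) (Pf.C 0 0x1010018384)) (Pf.C 0 0x1010018385)) (Pf.C 1 263)) (Pf.C 1 775)) Pf.nil)) (Pf.cons (Pf.C 80 390) Pf.nil))) Pf.nil)) Pf.nil)) (Pf.T 6 13 (Pf.cons (Pf.T 6 52 (Pf.cons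 (Pf.W 4 515 [] [0,1,2,6] (Pf.cons (Pf.B 7 6 (Pf.B 7 2 (Pf.B 7 0 (Pf.B 7 1 (Pf.C 0 0x1010018383) (Pf.C 0 0x3040008381)) (Pf.C 1 7)) (Pf.C 1 263)) (Pf.C 1 775)) (Pf.cons (Pf.B 7 6 (Pf.B 7 2 (Pf.B 7 0 (Pf.B 7 1 (Pf.C 0 0x1010018384) (Pf.C 0 0x3030008381)) (Pf.C 1 7)) (Pf.C 1 263)) (Pf.C 1 775)) Pf.nil))) Pf.nil)) Pf.nil)))) (Pf.C 1 262)) Pf.nil)) Pf.nil)) Pf.nil)) Pf.nil)) Pf.nil)) Pf.nil)) Pf.nil)) Pf.nil)) Pf.nil)) (Pf.C 2 388)) (Pf.C 2 389)) (Pf.C 2 517)))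
 Pq.nil)))) Pq.nil)))) Pq.nil)))) (Pq.cons (Pq.D 1 (Pq.cons (Pq.D 2 (Pq.cons (Pq.D 3 (Pq.cons (Pq.L [0,1] 6 (Pf.B 5 4 (Pf.T 5 52 (Pf.cons (Pf.T 5 13 (Pf.cons (Pf.T 4 52 (Pf.cons (Pf.T 4 13 (Pf.cons (Pf.T 2 51 (Pf.cons (Pf.W 75 2 [] [0,1,4,5] (Pf.cons (Pf.B 6 5 (Pf.B 6 4 (Pf.C 0 0x3010014202) (Pf.C 1 518)) (Pf.C 1 646)) Pf.nil)) Pf.nil)) Pf.nil)) Pf.nil)) Pf.nil)) Pf.nil)) (Pf.C 1 517)))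
 (Pq.cons (Pq.L [0,1] 7 (Pf.B 5 4 (Pf.B 5 3 (Pf.B 4 3 (Pf.C 0 0x281000c202) (Pf.C 1 388)) (Pf.C 1 389)) (Pf.C 1 517)))
 (Pq.cons (Pq.L [] 4 (Pf.C 2 642))
 Pq.nil)))) (Pq.cons (Pq.D 3 (Pq.cons (Pq.L [0,1] 7 (Pf.B 5 4 (Pf.B 5 3 (Pf.B 4 3 (Pf.C 0 0x2010014182) (Pf.C 1 388)) (Pf.C 1 389)) (Pf.C 1 517)))
 (Pq.cons (Pq.L [0,1] 7 (Pf.B 5 4 (Pf.B 5 3 (Pf.B 4 3 (Pf.C 0 0x1820014201) (Pf.C 1 388)) (Pf.C 1 389)) (Pf.C 1 517)))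
 (Pq.cons (Pq.L [] 4 (Pf.C 2 642))
 Pq.nil)))) (Pq.cons (Pq.L [] 2 (Pf.C 2 514))
 Pq.nil)))) (Pq.cons (Pq.D 2 (Pq.cons (Pq.D 3 (Pq.cons (Pq.L [0,1] 7 (Pf.B 5 4 (Pf.B 5 3 (Pf.B 4 3 (Pf.C 0 0x1810014202) (Pf.C 1 388)) (Pf.C 1 389)) (Pf.C 1 517)))
 (Pq.cons (Pq.L [0,1] 7 (Pf.B 5 4 (Pf.B 5 3 (Pf.B 4 3 (Pf.C 0 0x2020014181) (Pf.C 1 388)) (Pf.C 1 389)) (Pf.C 1 517)))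
 (Pq.cons (Pq.L [] 4 (Pf.C 2 642))
 Pq.nil)))) (Pq.cons (Pq.L [0,1] 3 (Pf.B 4 3 (Pf.B 5 4 (Pf.B 5 3 (Pf.B 5 2 (Pf.T 2 49 (Pf.cons (Pf.W 71 2 [] [0,1,3,4] (Pf.cons (Pf.B 6 4 (Pf.B 6 3 (Pf.C 0 0x3020010181) (Pf.C 1 390)) (Pf.C 1 518)) Pf.nil)) Pf.nil)) (Pf.T 2 49 (Pf.cons (Pf.W 71 2 [] [0,1,3,4] (Pf.cons (Pf.B 6 4 (Pf.B 6 3 (Pf.C 0 0x3020010181) (Pf.C 1 390)) (Pf.C 1 518)) Pf.nil)) Pf.nil))) (Pf.T 2 49 (Pf.cons (Pf.W 71 2 [] [0,1,3,4] (Pf.cons (Pf.B 6 4 (Pf.B 6 3 (Pf.C 0 0x3020010181) (Pf.C 1 390)) (Pf.C 1 518)) Pf.nil)) Pf.nil))) (Pf.T 2 49 (Pf.cons (Pf.W 71 2 [] [0,1,3,4] (Pf.cons (Pf.B 6 4 (Pf.B 6 3 (Pf.C 0 0x3020010181) (Pf.C 1 390)) (Pf.C 1 518)) Pf.nil)) Pf.nil))) (Pf.C 1 388)))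
 (Pq.cons (Pq.L [] 2 (Pf.C 2 514))
 Pq.nil)))) (Pq.cons (Pq.L [] 1 (Pf.C 2 386))
 Pq.nil)))) Pq.nil)))) Pq.nil)
theorem bS113_o70 : AllRef bS113_T bS113_G96 (applyObl TD2 1 [138,141,127] [0,0,0] [(141,0x80000000000000000000000000000000),(127,0x200000000000000000000000000000000000)]) :=
  chkPq_sound bS113_o70c _ (by decide +kernel)

end Pool.Agent.Lib.MP_849b2e_co
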