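import Pool.Agent.Lib.MP_849b2e_co.AllR
import Pool.Agent.Lib.MP_849b2e_co.TbS113
import Pool.Agent.Lib.MP_849b2e_co.ObS113_0

set_option maxRecDepth 100000
set_option linter.all false
namespace Pool.Agent.Lib.MP_849b2e_co

theorem bS113_n134  : Bd bS113_T bS113_G96 [138,141,127] :=
  r_apply lem_D2 [0,0,0] [(141,0x80000000000000000000000000000000),(127,0x200000000000000000000000000000000000)] (by decide +kernel) bS113_o70
theorem bS113_n133  : Bd bS113_T bS113_G95 [138,141,143,127] :=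
  r_kill [143] ⟨144,[],[],[]⟩ bS113_G96 [138,141,127] (by decide +kernel) bS113_o69 bS113_n134
theorem bS113_n132  : Bd bS113_T bS113_G94 [138,141,142,127] :=
  r_hit [142] bS113_h132 ⟨143,[],[85],[]⟩ bS113_G95 [138,141,143,127] (by decide +kernel) bS113_o68 bS113_n133
theorem bS113_n131  : Bd bS113_T bS113_G94 [138,123,127] :=
  r_act [54] [138,141,142,127] (by decide +kernel) bS113_n132
theorem bS113_n130  : Bd bS113_T bS113_G93 [138,123,127] :=
  r_def 123 0 [127] [] ⟨141,[55],[83,0,84],[]⟩ bS113_G94 [138,123,127] (by decide +kernel) bS113_n131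
theorem bS113_n129  : Bd bS113_T bS113_G92 [138,140,123,127] :=
  r_kill [140] ⟨141,[],[],[]⟩ bS113_G93 [138,123,127] (by decide +kernel) bS113_o67 bS113_n130
theorem bS113_n128  : Bd bS113_T bS113_G91 [138,139,123,127] :=
  r_hit [139] bS113_h128 ⟨140,[],[82],[]⟩ bS113_G92 [138,140,123,127] (by decide +kernel) bS113_o66 bS113_n129
theorem bS113_n127  : Bd bS113_T bS113_G91 [122,123,127] :=
  r_act [53] [138,139,123,127] (by decide +kernel) bS113_n128
theorem bS113_n126  : Bd bS113_T bS113_G90 [122,123,127] :=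
  r_def 122 0 [] [127] ⟨138,[54],[80,81],[]⟩ bS113_G91 [122,123,127] (by decide +kernel) bS113_n127
theorem bS113_n125  : Bd bS113_T bS113_G90 [136,123,134] :=
  r_act [] [122,123,127] (by decide +kernel) bS113_n126
theorem bS113_n124  : Bd bS113_T bS113_G89 [136,137,123,134,135] :=
  r_close true 1 [42,52,43,44,45,46,51,47,48] [136,137,123,134,135] [0,0,0,3,3] [1] [3] 13 ⟨138,[],[],[]⟩ bS113_G90 [136,123,134] (by decide +kernel) bS113_o65 bS113_n125
theorem bS113_n123  : Bd bS113_T bS113_G89 [122,123,134,135] :=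
  r_act [52] [136,137,123,134,135] (by decide +kernel) bS113_n124
theorem bS113_n122  : Bd bS113_T bS113_G88 [122,123,134,135] :=
  r_def 122 0 [134] [] ⟨136,[53],[78,0,79],[]⟩ bS113_G89 [122,123,134,135] (by decide +kernel) bS113_n123
theorem bS113_n121  : Bd bS113_T bS113_G88 [122,123,127] :=
  r_act [51] [122,123,134,135] (by decide +kernel) bS113_n122
theorem bS113_n120  : Bd bS113_T bS113_G87 [122,123,127] :=
  r_def 127 0 [] [123] ⟨134,[52],[76,77],[]⟩ bS113_G88 [122,123,127] (by decide +kernel) bS113_n121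
theorem bS113_n119  : Bd bS113_T bS113_G87 [122,132,130] :=
  r_act [] [122,123,127] (by decide +kernel) bS113_n120
theorem bS113_n118  : Bd bS113_T bS113_G86 [122,132,133,125,130,131,128,129] :=
  r_close false 1 [42,50,43,44,45,46,49,47,48] [122,132,133,125,130,131,128,129] [0,0,0,2,3,3,4,5] [1] [3] 19 ⟨134,[],[],[]⟩ bS113_G87 [122,132,130] (by decide +kernel) bS113_o64 bS113_n119
theorem bS113_n117  : Bd bS113_T bS113_G86 [122,123,125,130,131,128,129] :=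
  r_act [50] [122,132,133,125,130,131,128,129] (by decide +kernel) bS113_n118
theorem bS113_n116  : Bd bS113_T bS113_G85 [122,123,125,130,131,128,129] :=
  r_def 123 0 [] [130] ⟨132,[51],[74,75],[]⟩ bS113_G86 [122,123,125,130,131,128,129] (by decide +kernel) bS113_n117
theorem bS113_n115  : Bd bS113_T bS113_G85 [122,123,125,127,128,129] :=
  r_act [49] [122,123,125,130,131,128,129] (by decide +kernel) bS113_n116
theorem bS113_n114  : Bd bS113_T bS113_G84 [122,123,125,127,128,129] :=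
  r_def 127 0 [122] [] ⟨130,[50],[72,0,73],[]⟩ bS113_G85 [122,123,125,127,128,129] (by decide +kernel) bS113_n115
theorem bS113_n113  : Bd bS113_T bS113_G83 [122,123,124,125,127,128,129] :=
  r_kill [124] ⟨130,[],[],[]⟩ bS113_G84 [122,123,125,127,128,129] (by decide +kernel) bS113_o63 bS113_n114
theorem bS113_n112  : Bd bS113_T bS113_G83 [48,51,54,57,60,63] :=
  r_act [42,43,44,45,46,47,48] [122,123,124,125,127,128,129] (by decide +kernel) bS113_n113
theorem bS113_n111  : Bd bS113_T bS113_G82 [48,51,54,57,60,63] :=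
  r_psplit 63 [] (PT.br 1 PT.kid PT.ref) ⟨129,[49],[],[]⟩ bS113_G83 [48,51,54,57,60,63] (by decide +kernel) bS113_o62 bS113_n112
theorem bS113_n110  : Bd bS113_T bS113_G81 [48,51,54,57,60,63] :=
  r_psplit 60 [] (PT.br 1 PT.kid PT.ref) ⟨128,[48],[],[]⟩ bS113_G82 [48,51,54,57,60,63] (by decide +kernel) bS113_o61 bS113_n111
theorem bS113_n109  : Bd bS113_T bS113_G80 [48,51,54,57,60,63] :=
  r_psplit 126 [] (PT.br 1 PT.kid PT.ref) ⟨127,[47],[],[]⟩ bS113_G81 [48,51,54,57,60,63] (by decide +kernel) bS113_o60 bS113_n110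
theorem bS113_n108  : Bd bS113_T bS113_G79 [48,51,54,57,60,63] :=
  r_psplit 57 [1] PT.kid ⟨126,[46],[],[]⟩ bS113_G80 [48,51,54,57,60,63] (by decide +kernel) bS113_o59 bS113_n109
theorem bS113_n107  : Bd bS113_T bS113_G78 [48,51,54,57,60,63] :=
  r_psplit 54 [] (PT.br 1 PT.kid PT.ref) ⟨125,[45],[],[]⟩ bS113_G79 [48,51,54,57,60,63] (by decide +kernel) bS113_o58 bS113_n108
theorem bS113_n106  : Bd bS113_T bS113_G77 [48,51,54,57,60,63] :=
  r_psplit 51 [] (PT.br 1 PT.ref PT.kid) ⟨124,[44],[],[]⟩ bS113_G78 [48,51,54,57,60,63] (by decide +kernel) bS113_o57 bS113_n107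
theorem bS113_n105  : Bd bS113_T bS113_G30 [48,51,54,57,60,63] :=
  r_psplit 48 [] (PT.br 1 PT.kid PT.kid) ⟨122,[43],[],[]⟩ bS113_G77 [48,51,54,57,60,63] (by decide +kernel) bS113_o56 bS113_n106
theorem bS113_n104  : Bd bS113_T bS113_G76 [121,119] :=
  r_apply lem_D2 [0,0] [(121,0x800000000000000000000000000000),(119,0x2000000000000000000000000000000)] (by decide +kernel) bS113_o55
theorem bS113_n103  : Bd bS113_T bS113_G76 [120,118] :=
  r_apply lem_D2 [0,0] [] (by decide +kernel) bS113_o54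
theorem bS113_n102  : Bd bS113_T bS113_G76 [120,121,118,119] :=
  r_split [120,118] [121,119] (by decide +kernel) bS113_o53 bS113_n103 bS113_n104
theorem bS113_n101  : Bd bS113_T bS113_G76 [117,118,119] :=
  r_act [41] [120,121,118,119] (by decide +kernel) bS113_n102
theorem bS113_n100  : Bd bS113_T bS113_G75 [117,118,119] :=
  r_def 117 0 [] [118] ⟨120,[42],[70,71],[]⟩ bS113_G76 [117,118,119] (by decide +kernel) bS113_n101
theorem bS113_n99  : Bd bS113_T bS113_G74 [86,111,114] :=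
  r_twin 0 [6,1,1] ⟨117,[],[69],[]⟩ bS113_G75 [117,118,119] (by decide +kernel) bS113_o52 bS113_n100
theorem bS113_n98  : Bd bS113_T bS113_G73 [86,111,114,116] :=
  r_kill [116] ⟨117,[],[],[]⟩ bS113_G74 [86,111,114] (by decide +kernel) bS113_o51 bS113_n99
theorem bS113_n97  : Bd bS113_T bS113_G72 [86,111,114,115] :=
  r_hit [115] bS113_h97 ⟨116,[],[68],[]⟩ bS113_G73 [86,111,114,116] (by decide +kernel) bS113_o50 bS113_n98
theorem bS113_n96  : Bd bS113_T bS113_G72 [86,111,89] :=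
  r_act [40] [86,111,114,115] (by decide +kernel) bS113_n97
theorem bS113_n95  : Bd bS113_T bS113_G71 [86,111,89] :=
  r_def 89 0 [86] [] ⟨114,[41],[66,0,67],[]⟩ bS113_G72 [86,111,89] (by decide +kernel) bS113_n96
theorem bS113_n94  : Bd bS113_T bS113_G70 [86,111,113,89] :=
  r_kill [113] ⟨114,[],[],[]⟩ bS113_G71 [86,111,89] (by decide +kernel) bS113_o49 bS113_n95
theorem bS113_n93  : Bd bS113_T bS113_G69 [86,111,112,89] :=
  r_hit [112] bS113_h93 ⟨113,[],[65],[]⟩ bS113_G70 [86,111,113,89] (by decide +kernel) bS113_o48 bS113_n94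
theorem bS113_n92  : Bd bS113_T bS113_G69 [86,88,89] :=
  r_act [39] [86,111,112,89] (by decide +kernel) bS113_n93
theorem bS113_n91  : Bd bS113_T bS113_G68 [86,88,89] :=
  r_def 88 0 [] [86] ⟨111,[40],[63,64],[]⟩ bS113_G69 [86,88,89] (by decide +kernel) bS113_n92
theorem bS113_n90  : Bd bS113_T bS113_G67 [86,88,89,108,109,110] :=
  r_kill [108,109,110] ⟨111,[],[],[]⟩ bS113_G68 [86,88,89] (by decide +kernel) bS113_o47 bS113_n91
theorem bS113_n89  : Bd bS113_T bS113_G66 [86,88,89,91,92,93] :=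
  r_hit [91,92,93] bS113_h89 ⟨108,[],[60,61,62],[]⟩ bS113_G67 [86,88,89,108,109,110] (by decide +kernel) bS113_o46 bS113_n90
theorem bS113_n88  : Bd bS113_T bS113_G66 [102,88,104,91,106,93] :=
  r_act [] [86,88,89,91,92,93] (by decide +kernel) bS113_n89
theorem bS113_n87  : Bd bS113_T bS113_G65 [102,103,87,88,104,105,91,106,93] :=
  r_close true 1 [26,27,36,28,29,37,30,31,38] [102,103,87,88,104,105,91,106,93] [0,0,1,2,2,2,4,5,5] [1] [0] 473 ⟨108,[],[],[]⟩ bS113_G66 [102,88,104,91,106,93] (by decide +kernel) bS113_o45 bS113_n88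
theorem bS113_n86  : Bd bS113_T bS113_G64 [102,103,87,88,104,105,91,106,107,93] :=
  r_kill [107] ⟨108,[],[],[]⟩ bS113_G65 [102,103,87,88,104,105,91,106,93] (by decide +kernel) bS113_o44 bS113_n87
theorem bS113_n85  : Bd bS113_T bS113_G64 [102,103,87,88,89,91,92,93] :=
  r_act [37,38] [102,103,87,88,104,105,91,106,107,93] (by decide +kernel) bS113_n86
theorem bS113_n84  : Bd bS113_T bS113_G63 [102,103,87,88,89,91,92,93] :=
  r_def 92 0 [102] [] ⟨106,[39],[58,0,59],[]⟩ bS113_G64 [102,103,87,88,89,91,92,93] (by decide +kernel) bS113_n85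
theorem bS113_n83  : Bd bS113_T bS113_G62 [102,103,87,88,89,91,92,93] :=
  r_def 89 0 [] [102] ⟨104,[38],[56,57],[]⟩ bS113_G63 [102,103,87,88,89,91,92,93] (by decide +kernel) bS113_n84
theorem bS113_n82  : Bd bS113_T bS113_G62 [86,87,88,89,91,92,93] :=
  r_act [36] [102,103,87,88,89,91,92,93] (by decide +kernel) bS113_n83
theorem bS113_n81  : Bd bS113_T bS113_G61 [86,87,88,89,91,92,93] :=
  r_def 86 0 [88,91] [] ⟨102,[37],[54,0,55],[]⟩ bS113_G62 [86,87,88,89,91,92,93] (by decide +kernel) bS113_n82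
theorem bS113_n80  : Bd bS113_T bS113_G61 [94,96,98,89,91,100,93] :=
  r_act [] [86,87,88,89,91,92,93] (by decide +kernel) bS113_n81
theorem bS113_n79  : Bd bS113_T bS113_G60 [94,95,96,98,99,89,90,91,100,101,93] :=
  r_close false 1 [26,27,32,28,33,29,34,30,31,35] [94,95,96,98,99,89,90,91,100,101,93] [0,0,1,2,2,2,4,4,5,5,5] [1] [0] 1453 ⟨102,[],[],[]⟩ bS113_G61 [94,96,98,89,91,100,93] (by decide +kernel) bS113_o43 bS113_n80
theorem bS113_n78  : Bd bS113_T bS113_G60 [94,95,96,88,89,90,91,92,93] :=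
  r_act [34,35] [94,95,96,98,99,89,90,91,100,101,93] (by decide +kernel) bS113_n79
theorem bS113_n77  : Bd bS113_T bS113_G59 [94,95,96,88,89,90,91,92,93] :=
  r_def 92 0 [94] [] ⟨100,[36],[52,0,53],[]⟩ bS113_G60 [94,95,96,88,89,90,91,92,93] (by decide +kernel) bS113_n78
theorem bS113_n76  : Bd bS113_T bS113_G58 [94,95,96,88,89,90,91,92,93] :=
  r_def 88 0 [94] [] ⟨98,[35],[50,0,51],[]⟩ bS113_G59 [94,95,96,88,89,90,91,92,93] (by decide +kernel) bS113_n77
theorem bS113_n75  : Bd bS113_T bS113_G57 [94,95,96,97,88,89,90,91,92,93] :=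
  r_close false 1 [26,27,32,28,33,29,30,31] [94,95,96,97,88,89,90,91,92,93] [0,0,1,1,2,2,4,4,5,5] [1] [0] 1015 ⟨98,[],[],[]⟩ bS113_G58 [94,95,96,88,89,90,91,92,93] (by decide +kernel) bS113_o42 bS113_n76
theorem bS113_n74  : Bd bS113_T bS113_G57 [86,87,88,89,90,91,92,93] :=
  r_act [32,33] [94,95,96,97,88,89,90,91,92,93] (by decide +kernel) bS113_n75
theorem bS113_n73  : Bd bS113_T bS113_G56 [86,87,88,89,90,91,92,93] :=
  r_def 87 0 [89] [] ⟨96,[34],[48,0,49],[]⟩ bS113_G57 [86,87,88,89,90,91,92,93] (by decide +kernel) bS113_n74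
theorem bS113_n72  : Bd bS113_T bS113_G55 [86,87,88,89,90,91,92,93] :=
  r_def 86 0 [91] [89] ⟨94,[33],[45,46,47],[]⟩ bS113_G56 [86,87,88,89,90,91,92,93] (by decide +kernel) bS113_n73
theorem bS113_n71  : Bd bS113_T bS113_G55 [48,51,54,60,63] :=
  r_act [26,27,28,29,30,31] [86,87,88,89,90,91,92,93] (by decide +kernel) bS113_n72
theorem bS113_n70  : Bd bS113_T bS113_G54 [48,51,54,60,63] :=
  r_psplit 63 [] (PT.br 1 PT.kid PT.kid) ⟨92,[32],[],[]⟩ bS113_G55 [48,51,54,60,63] (by decide +kernel) bS113_o41 bS113_n71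
theorem bS113_n69  : Bd bS113_T bS113_G53 [48,51,54,60,63] :=
  r_psplit 60 [] (PT.br 1 PT.kid PT.kid) ⟨90,[31],[],[]⟩ bS113_G54 [48,51,54,60,63] (by decide +kernel) bS113_o40 bS113_n70
theorem bS113_n68  : Bd bS113_T bS113_G52 [48,51,54,60,63] :=
  r_psplit 54 [] (PT.br 1 PT.kid PT.kid) ⟨88,[30],[],[]⟩ bS113_G53 [48,51,54,60,63] (by decide +kernel) bS113_o39 bS113_n69
theorem bS113_n67  : Bd bS113_T bS113_G51 [48,51,54,60,63] :=
  r_psplit 51 [] (PT.br 1 PT.kid PT.ref) ⟨87,[29],[],[]⟩ bS113_G52 [48,51,54,60,63] (by decide +kernel) bS113_o38 bS113_n68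
theorem bS113_n66  : Bd bS113_T bS113_G50 [48,51,54,60,63] :=
  r_psplit 85 [] (PT.br 1 PT.kid PT.ref) ⟨86,[28],[],[]⟩ bS113_G51 [48,51,54,60,63] (by decide +kernel) bS113_o37 bS113_n67
theorem bS113_n65  : Bd bS113_T bS113_G32 [48,51,54,60,63] :=
  r_psplit 48 [1] PT.kid ⟨85,[27],[],[]⟩ bS113_G50 [48,51,54,60,63] (by decide +kernel) bS113_o36 bS113_n66
theorem bS113_n64  : Bd bS113_T bS113_G49 [] :=
  r_empty (by decide +kernel) 
theorem bS113_n63  : Bd bS113_T bS113_G48 [82,83,84] :=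
  r_kill [82,83,84] ⟨85,[],[],[]⟩ bS113_G49 [] (by decide +kernel) bS113_o35 bS113_n64
theorem bS113_n62  : Bd bS113_T bS113_G47 [69,70,72] :=
  r_hit [69,70,72] bS113_h62 ⟨82,[],[42,43,44],[]⟩ bS113_G48 [82,83,84] (by decide +kernel) bS113_o34 bS113_n63
theorem bS113_n61  : Bd bS113_T bS113_G47 [80,70,78] :=
  r_act [] [69,70,72] (by decide +kernel) bS113_n62
theorem bS113_n60  : Bd bS113_T bS113_G46 [80,81,70,78] :=
  r_kill [81] ⟨82,[],[],[]⟩ bS113_G47 [80,70,78] (by decide +kernel) bS113_o33 bS113_n61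
theorem bS113_n59  : Bd bS113_T bS113_G46 [69,70,78] :=
  r_act [25] [80,81,70,78] (by decide +kernel) bS113_n60
theorem bS113_n58  : Bd bS113_T bS113_G45 [69,70,78] :=
  r_def 69 0 [78] [] ⟨80,[26],[40,0,41],[]⟩ bS113_G46 [69,70,78] (by decide +kernel) bS113_n59
theorem bS113_n57  : Bd bS113_T bS113_G44 [69,70,78,79] :=
  r_kill [79] ⟨80,[],[],[]⟩ bS113_G45 [69,70,78] (by decide +kernel) bS113_o32 bS113_n58
theorem bS113_n56  : Bd bS113_T bS113_G44 [69,70,72] :=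
  r_act [24] [69,70,78,79] (by decide +kernel) bS113_n57
theorem bS113_n55  : Bd bS113_T bS113_G43 [69,70,72] :=
  r_def 72 0 [70] [] ⟨78,[25],[38,0,39],[]⟩ bS113_G44 [69,70,72] (by decide +kernel) bS113_n56
theorem bS113_n54  : Bd bS113_T bS113_G43 [76,70,74] :=
  r_act [] [69,70,72] (by decide +kernel) bS113_n55
theorem bS113_n53  : Bd bS113_T bS113_G42 [76,77,70,74,75] :=
  r_close false 1 [18,23,19,20,22,21] [76,77,70,74,75] [1,1,1,2,2] [1] [2] 13 ⟨78,[],[],[]⟩ bS113_G43 [76,70,74] (by decide +kernel) bS113_o31 bS113_n54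
theorem bS113_n52  : Bd bS113_T bS113_G42 [69,70,74,75] :=
  r_act [23] [76,77,70,74,75] (by decide +kernel) bS113_n53
theorem bS113_n51  : Bd bS113_T bS113_G41 [69,70,74,75] :=
  r_def 69 0 [74] [] ⟨76,[24],[36,0,37],[]⟩ bS113_G42 [69,70,74,75] (by decide +kernel) bS113_n52
theorem bS113_n50  : Bd bS113_T bS113_G41 [69,70,72] :=
  r_act [22] [69,70,74,75] (by decide +kernel) bS113_n51
theorem bS113_n49  : Bd bS113_T bS113_G40 [69,70,72] :=
  r_def 72 0 [70] [] ⟨74,[23],[34,0,35],[]⟩ bS113_G41 [69,70,72] (by decide +kernel) bS113_n50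
theorem bS113_n48  : Bd bS113_T bS113_G39 [69,70,72,73] :=
  r_kill [73] ⟨74,[],[],[]⟩ bS113_G40 [69,70,72] (by decide +kernel) bS113_o30 bS113_n49
theorem bS113_n47  : Bd bS113_T bS113_G39 [51,54,63] :=
  r_act [18,19,20,21] [69,70,72,73] (by decide +kernel) bS113_n48
theorem bS113_n46  : Bd bS113_T bS113_G38 [51,54,63] :=
  r_psplit 63 [] (PT.br 1 PT.kid PT.ref) ⟨73,[22],[],[]⟩ bS113_G39 [51,54,63] (by decide +kernel) bS113_o29 bS113_n47
theorem bS113_n45  : Bd bS113_T bS113_G37 [51,54,63] :=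
  r_psplit 71 [] (PT.br 1 PT.kid PT.ref) ⟨72,[21],[],[]⟩ bS113_G38 [51,54,63] (by decide +kernel) bS113_o28 bS113_n46
theorem bS113_n44  : Bd bS113_T bS113_G36 [51,54,63] :=
  r_psplit 54 [1] PT.kid ⟨71,[20],[],[]⟩ bS113_G37 [51,54,63] (by decide +kernel) bS113_o27 bS113_n45
theorem bS113_n43  : Bd bS113_T bS113_G35 [51,54,63] :=
  r_psplit 51 [] (PT.br 1 PT.kid PT.kid) ⟨69,[19],[],[]⟩ bS113_G36 [51,54,63] (by decide +kernel) bS113_o26 bS113_n44
theorem bS113_n42  : Bd bS113_T bS113_G34 [51,63] :=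
  r_apply lem_D2 [0,0] [] (by decide +kernel) bS113_o25
theorem bS113_n41  : Bd bS113_T bS113_G33 [51,54,63] :=
  r_ext 54 2 [51] [] [] [] [0] ⟨66,[],[],[]⟩ bS113_G34 [51,63] ⟨68,[],[0,33],[]⟩ bS113_G35 [51,54,63] (by decide +kernel) bS113_o24 bS113_n42 bS113_n43
theorem bS113_n40  : Bd bS113_T bS113_G31 [51,54,60,63] :=
  r_kill [60] ⟨66,[],[],[]⟩ bS113_G33 [51,54,63] (by decide +kernel) bS113_o23 bS113_n41
theorem bS113_n39  : Bd bS113_T bS113_G29 [48,51,54,60,63] :=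
  r_ext 48 2 [60,63] [] [54] [] [0] ⟨66,[],[],[]⟩ bS113_G31 [51,54,60,63] ⟨67,[],[],[]⟩ bS113_G32 [48,51,54,60,63] (by decide +kernel) bS113_o22 bS113_n40 bS113_n65
theorem bS113_n38  : Bd bS113_T bS113_G28 [48,51,54,57,60,63] :=
  r_ext 57 2 [48] [] [] [] [0] ⟨66,[],[],[]⟩ bS113_G29 [48,51,54,60,63] ⟨66,[],[],[]⟩ bS113_G30 [48,51,54,57,60,63] (by decide +kernel) bS113_o21 bS113_n39 bS113_n105
theorem bS113_n37  : Bd bS113_T bS113_G27 [42,43,44,45,46,47] :=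
  r_block [12,8,0,2,0,0] [60,36,3,1,1,3] [60,36,3,1,1,3] ⟨48,[],[0,0,0,0,0,0,0,0,0,0,0,0,0,0,0,0,0,0,0,0,0,0,0,0,0,27,0,28,29,30,31,0,0,32],[2]⟩ bS113_G28 [48,51,54,57,60,63] (by decide +kernel) bS113_o20 bS113_n38
theorem bS113_n36  : Bd bS113_T bS113_G26 [25,26,40,41,29,30] :=
  r_twin 0 [60,36,3,1,1,3] ⟨42,[],[0,25,0,0,0,26],[]⟩ bS113_G27 [42,43,44,45,46,47] (by decide +kernel) bS113_o19 bS113_n37
theorem bS113_n35  : Bd bS113_T bS113_G26 [25,26,28,29,30] :=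
  r_act [17] [25,26,40,41,29,30] (by decide +kernel) bS113_n36
theorem bS113_n34  : Bd bS113_T bS113_G25 [25,26,28,29,30] :=
  r_def 28 0 [] [26] ⟨40,[18],[23,24],[]⟩ bS113_G26 [25,26,28,29,30] (by decide +kernel) bS113_n35
theorem bS113_n33  : Bd bS113_T bS113_G24 [25,26,39,28,29,30] :=
  r_kill [39] ⟨40,[],[],[]⟩ bS113_G25 [25,26,28,29,30] (by decide +kernel) bS113_o18 bS113_n34
theorem bS113_n32  : Bd bS113_T bS113_G23 [25,26,27,28,29,30] :=
  r_hit [27] bS113_h32 ⟨39,[],[22],[]⟩ bS113_G24 [25,26,39,28,29,30] (by decide +kernel) bS113_o17 bS113_n33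
theorem bS113_n31  : Bd bS113_T bS113_G23 [31,33,35,28,37,30] :=
  r_act [] [25,26,27,28,29,30] (by decide +kernel) bS113_n32
theorem bS113_n30  : Bd bS113_T bS113_G22 [31,32,33,34,35,36,28,37,38,30] :=
  r_close false 0 [1,8,9,13,10,14,2,11,15,12,16] [31,32,33,34,35,36,28,37,38,30] [0,0,0,0,1,1,1,1,1,1] [0] [0] 725 ⟨39,[],[],[]⟩ bS113_G23 [31,33,35,28,37,30] (by decide +kernel) bS113_o16 bS113_n31
theorem bS113_n29  : Bd bS113_T bS113_G22 [31,32,33,34,27,28,29,30] :=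
  r_act [15,16] [31,32,33,34,35,36,28,37,38,30] (by decide +kernel) bS113_n30
theorem bS113_n28  : Bd bS113_T bS113_G21 [31,32,33,34,27,28,29,30] :=
  r_def 29 0 [31] [] ⟨37,[17],[20,0,21],[]⟩ bS113_G22 [31,32,33,34,27,28,29,30] (by decide +kernel) bS113_n29
theorem bS113_n27  : Bd bS113_T bS113_G20 [31,32,33,34,27,28,29,30] :=
  r_def 27 0 [31] [] ⟨35,[16],[18,0,19],[]⟩ bS113_G21 [31,32,33,34,27,28,29,30] (by decide +kernel) bS113_n28
theorem bS113_n26  : Bd bS113_T bS113_G20 [25,26,27,28,29,30] :=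
  r_act [13,14] [31,32,33,34,27,28,29,30] (by decide +kernel) bS113_n27
theorem bS113_n25  : Bd bS113_T bS113_G19 [25,26,27,28,29,30] :=
  r_def 26 0 [28,30] [] ⟨33,[15],[16,0,17],[]⟩ bS113_G20 [25,26,27,28,29,30] (by decide +kernel) bS113_n26
theorem bS113_n24  : Bd bS113_T bS113_G18 [25,26,27,28,29,30] :=
  r_def 25 0 [28,30] [] ⟨31,[14],[14,0,15],[]⟩ bS113_G19 [25,26,27,28,29,30] (by decide +kernel) bS113_n25
theorem bS113_n23  : Bd bS113_T bS113_G18 [11,12,13,14] :=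
  r_act [8,9,10,11,12] [25,26,27,28,29,30] (by decide +kernel) bS113_n24
theorem bS113_n22  : Bd bS113_T bS113_G17 [11,12,13,14] :=
  r_psplit 14 [] (PT.br 0 PT.kid PT.kid) ⟨29,[13],[],[]⟩ bS113_G18 [11,12,13,14] (by decide +kernel) bS113_o15 bS113_n23
theorem bS113_n21  : Bd bS113_T bS113_G16 [11,12,13,14] :=
  r_psplit 13 [] (PT.br 0 PT.kid PT.kid) ⟨27,[12],[],[]⟩ bS113_G17 [11,12,13,14] (by decide +kernel) bS113_o14 bS113_n22
theorem bS113_n20  : Bd bS113_T bS113_G15 [11,12,13,14] :=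
  r_psplit 12 [] (PT.br 0 PT.kid PT.ref) ⟨26,[11],[],[]⟩ bS113_G16 [11,12,13,14] (by decide +kernel) bS113_o13 bS113_n21
theorem bS113_n19  : Bd bS113_T bS113_G14 [11,12,13,14] :=
  r_psplit 24 [] (PT.br 0 PT.kid PT.ref) ⟨25,[10],[],[]⟩ bS113_G15 [11,12,13,14] (by decide +kernel) bS113_o12 bS113_n20
theorem bS113_n18  : Bd bS113_T bS113_G5 [11,12,13,14] :=
  r_psplit 11 [0] PT.kid ⟨24,[9],[],[]⟩ bS113_G14 [11,12,13,14] (by decide +kernel) bS113_o11 bS113_n19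
theorem bS113_n17  : Bd bS113_T bS113_G13 [18,21] :=
  r_apply lem_D2 [0,0] [] (by decide +kernel) bS113_o10
theorem bS113_n16  : Bd bS113_T bS113_G13 [18,22] :=
  r_act [] [18,21] (by decide +kernel) bS113_n17
theorem bS113_n15  : Bd bS113_T bS113_G12 [17,18,20,22,23] :=
  r_close false 0 [1,3,2,4,5,6,7] [17,18,20,22,23] [0,0,1,1,1] [0] [1] 10 ⟨24,[],[],[]⟩ bS113_G13 [18,22] (by decide +kernel) bS113_o9 bS113_n16
theorem bS113_n14  : Bd bS113_T bS113_G12 [17,18,20,21] :=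
  r_act [7] [17,18,20,22,23] (by decide +kernel) bS113_n15
theorem bS113_n13  : Bd bS113_T bS113_G11 [17,18,20,21] :=
  r_def 21 0 [18] [] ⟨22,[8],[12,0,13],[]⟩ bS113_G12 [17,18,20,21] (by decide +kernel) bS113_n14
theorem bS113_n12  : Bd bS113_T bS113_G11 [12,13,14] :=
  r_act [3,4,5,6] [17,18,20,21] (by decide +kernel) bS113_n13
theorem bS113_n11  : Bd bS113_T bS113_G10 [12,13,14] :=
  r_psplit 14 [] (PT.br 0 PT.kid PT.ref) ⟨21,[7],[],[]⟩ bS113_G11 [12,13,14] (by decide +kernel) bS113_o8 bS113_n12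
theorem bS113_n10  : Bd bS113_T bS113_G9 [12,13,14] :=
  r_psplit 19 [] (PT.br 0 PT.kid PT.ref) ⟨20,[6],[],[]⟩ bS113_G10 [12,13,14] (by decide +kernel) bS113_o7 bS113_n11
theorem bS113_n9  : Bd bS113_T bS113_G8 [12,13,14] :=
  r_psplit 13 [0] PT.kid ⟨19,[5],[],[]⟩ bS113_G9 [12,13,14] (by decide +kernel) bS113_o6 bS113_n10
theorem bS113_n8  : Bd bS113_T bS113_G7 [12,13,14] :=
  r_psplit 12 [] (PT.br 0 PT.kid PT.kid) ⟨17,[4],[],[]⟩ bS113_G8 [12,13,14] (by decide +kernel) bS113_o5 bS113_n9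
theorem bS113_n7  : Bd bS113_T bS113_G6 [12,14] :=
  r_apply lem_D2 [0,0] [] (by decide +kernel) bS113_o4
theorem bS113_n6  : Bd bS113_T bS113_G4 [12,13,14] :=
  r_ext 13 2 [12] [] [] [] [] ⟨15,[],[],[]⟩ bS113_G6 [12,14] ⟨16,[],[],[]⟩ bS113_G7 [12,13,14] (by decide +kernel) bS113_o3 bS113_n7 bS113_n8
theorem bS113_n5  : Bd bS113_T bS113_G3 [11,12,13,14] :=
  r_ext 11 2 [13,14] [] [] [] [] ⟨15,[],[],[]⟩ bS113_G4 [12,13,14] ⟨15,[],[0,11],[]⟩ bS113_G5 [11,12,13,14] (by decide +kernel) bS113_o2 bS113_n6 bS113_n18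
theorem bS113_n4  : Bd bS113_T bS113_G3 [5,8] :=
  r_act [1,2] [11,12,13,14] (by decide +kernel) bS113_n5
theorem bS113_n3  : Bd bS113_T bS113_G2 [5,8] :=
  r_def 8 2 [5] [] ⟨13,[3],[9,0,0,0,10],[]⟩ bS113_G3 [5,8] (by decide +kernel) bS113_n4
theorem bS113_n2  : Bd bS113_T bS113_G1 [5,8] :=
  r_def 5 2 [8] [] ⟨11,[2],[7,0,0,0,8],[]⟩ bS113_G2 [5,8] (by decide +kernel) bS113_n3
theorem bS113_n1  : Bd bS113_T bS113_G0 [3,4] :=
  r_block [0,0] [2,1] [2,1] ⟨5,[0,1],[0,0,0,0,6],[1]⟩ bS113_G1 [5,8] (by decide +kernel) bS113_o1 bS113_n2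
theorem bS113_n0  : Bd bS113_T (pureCtx 2 3) (pureAct 2) :=
  show Bd _ _ [1,2] from r_twin 0 [2,1] ⟨3,[],[4,5],[]⟩ bS113_G0 [3,4] (by decide +kernel) bS113_o0 bS113_n1
theorem lem_bS113  : Lem bS113_T 2 3 := ⟨by decide +kernel, bS113_n0⟩

end Pool.Agent.Lib.MP_849b2e_co
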