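import Pool.Agent.Lib.MP_849b2e_co.Rules

set_option maxRecDepth 100000
set_option linter.all false
namespace Pool.Agent.Lib.MP_849b2e_co

noncomputable def bD_ty : Tr Ty := (Tr.br (Tr.br (Tr.br (Tr.br (Tr.br (Tr.br (Tr.leaf ⟨1,0,0,0,0⟩) (Tr.leaf ⟨0x130600003,0xc8000004,0,17,63⟩)) (Tr.br (Tr.leaf ⟨70027,34820,0,1,1⟩) (Tr.leaf ⟨0x1010c08600003,0x1210000004,0,17,63⟩))) (Tr.br (Tr.br (Tr.leaf ⟨395,4,0,1,1⟩) (Tr.leaf ⟨0x10c08600003,0x1210000004,0,17,63⟩)) (Tr.br (Tr.leaf ⟨0x1800005,0x6000002,16,1,63⟩) (Tr.leaf ⟨0x140008208600003,0x200000410000004,0,17,63⟩))))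
 (Tr.br (Tr.br (Tr.br (Tr.leaf ⟨21,2,0,0,0⟩) (Tr.leaf ⟨0x1408600003,0xa10000004,0,17,63⟩)) (Tr.br (Tr.leaf ⟨0x124415,0x42202,1,0,0⟩) (Tr.leaf ⟨0x10040001800005,0x20000006000002,16,1,63⟩))) (Tr.br (Tr.br (Tr.leaf ⟨4491,2052,0,1,1⟩) (Tr.leaf ⟨0x100050600003,0x28000004,0,17,63⟩)) (Tr.br (Tr.leaf ⟨0x10600003,0x8000004,0,17,63⟩) (Tr.leaf ⟨0x1000080004800005,0x2000000003000002,17,0,63⟩))))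
)
 (Tr.br (Tr.br (Tr.br (Tr.br (Tr.leaf ⟨5,2,0,0,0⟩) (Tr.leaf ⟨0x408600003,0x210000004,0,17,63⟩)) (Tr.br (Tr.leaf ⟨0x44415,0x22202,1,0,0⟩) (Tr.leaf ⟨0x4402002800005,0x8000005000002,1,16,63⟩))) (Tr.br (Tr.br (Tr.leaf ⟨1045,514,1,0,0⟩) (Tr.leaf ⟨0x40001800005,0x6000002,16,1,63⟩)) (Tr.br (Tr.leaf ⟨0x4800005,0x3000002,17,0,63⟩) (Tr.leaf ⟨0x401010c08600003,0x800001210000004,0,17,63⟩))))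
 (Tr.br (Tr.br (Tr.br (Tr.leaf ⟨85,2,0,0,0⟩) (Tr.leaf ⟨0x4130600003,0xc8000004,0,17,63⟩)) (Tr.br (Tr.leaf ⟨0x600003,4,0,17,63⟩) (Tr.leaf ⟨0x40008208600003,0x410000004,0,17,63⟩))) (Tr.br (Tr.br (Tr.leaf ⟨17429,8706,1,0,0⟩) (Tr.leaf ⟨0x402002800005,0x5000002,1,16,63⟩)) (Tr.leaf ⟨0x50600003,0x28000004,0,17,63⟩)))
)
)
 (Tr.br (Tr.br (Tr.br (Tr.br (Tr.br (Tr.leaf ⟨3,4,0,0,0⟩) (Tr.leaf ⟨0x208600003,0x410000004,0,17,63⟩)) (Tr.br (Tr.leaf ⟨0x24415,0x42202,1,0,0⟩) (Tr.leaf ⟨0x2021408600003,0xa10000004,0,17,63⟩))) (Tr.br (Tr.br (Tr.leaf ⟨533,1026,0,1,0⟩) (Tr.leaf ⟨0x21408600003,0xa10000004,0,17,63⟩)) (Tr.br (Tr.leaf ⟨0x2800005,0x5000002,1,16,63⟩) (Tr.leaf ⟨0x240008208600003,0x100000410000004,0,17,63⟩))))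
 (Tr.br (Tr.br (Tr.br (Tr.leaf ⟨43,4,0,0,0⟩) (Tr.leaf ⟨0x2002800005,0x5000002,1,16,63⟩)) (Tr.br (Tr.leaf ⟨0x200003,4,0,0,63⟩) (Tr.leaf ⟨0x20040001800005,0x10000006000002,16,1,63⟩))) (Tr.br (Tr.br (Tr.leaf ⟨9237,16898,1,0,0⟩) (Tr.leaf ⟨0x2000b0600003,0x148000004,0,17,63⟩)) (Tr.br (Tr.leaf ⟨0x30600003,0x48000004,0,17,63⟩) (Tr.leaf ⟨0x2000080004800005,0x1000000003000002,17,0,63⟩))))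
)
 (Tr.br (Tr.br (Tr.br (Tr.br (Tr.leaf ⟨11,4,0,0,0⟩) (Tr.leaf ⟨0xc08600003,0x1210000004,0,17,63⟩)) (Tr.br (Tr.leaf ⟨0x8918b,67588,0,1,1⟩) (Tr.leaf ⟨0x8402002800005,0x4000005000002,1,16,63⟩))) (Tr.br (Tr.br (Tr.leaf ⟨2443,4100,0,1,1⟩) (Tr.leaf ⟨0x80004800005,0x3000002,17,0,63⟩)) (Tr.br (Tr.leaf ⟨0x8600003,0x10000004,0,17,63⟩) (Tr.leaf ⟨0x801010c08600003,0x400001210000004,0,17,63⟩))))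
 (Tr.br (Tr.br (Tr.br (Tr.leaf ⟨139,4,0,0,1⟩) (Tr.leaf ⟨0x8208600003,0x410000004,0,17,63⟩)) (Tr.br (Tr.leaf ⟨0x800005,2,0,0,63⟩) (Tr.leaf ⟨0x90040001800005,0x20000006000002,16,1,63⟩))) (Tr.br (Tr.br (Tr.leaf ⟨37259,67588,0,1,1⟩) (Tr.leaf ⟨0x804130600003,0xc8000004,0,17,63⟩)) (Tr.leaf ⟨0xb0600003,0x148000004,0,17,63⟩)))
)
)
)

noncomputable def bD_ev : Tr Ev := (Tr.br (Tr.br (Tr.br (Tr.br (Tr.br (Tr.leaf ⟨3,[7],1⟩) (Tr.leaf ⟨46,[50,51],0⟩)) (Tr.leaf ⟨21,[22],0⟩))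
 (Tr.br (Tr.br (Tr.leaf ⟨10,[13,14],0⟩) (Tr.leaf ⟨43,[60,61],0⟩)) (Tr.leaf ⟨28,[29,30],0⟩))
)
 (Tr.br (Tr.br (Tr.br (Tr.leaf ⟨4,[9,10],0⟩) (Tr.leaf ⟨54,[56,57],0⟩)) (Tr.leaf ⟨23,[24,25,26],0⟩))
 (Tr.br (Tr.leaf ⟨14,[17,18],0⟩) (Tr.leaf ⟨27,[33,34],0⟩))
)
)
 (Tr.br (Tr.br (Tr.br (Tr.br (Tr.leaf ⟨7,[8],0⟩) (Tr.leaf ⟨42,[52,53],0⟩)) (Tr.leaf ⟨2,[23],63⟩))
 (Tr.br (Tr.leaf ⟨12,[15,16],0⟩) (Tr.leaf ⟨29,[31,32],0⟩))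
)
 (Tr.br (Tr.br (Tr.br (Tr.leaf ⟨8,[11,12],0⟩) (Tr.leaf ⟨48,[58,59],0⟩)) (Tr.leaf ⟨22,[27,28],0⟩))
 (Tr.br (Tr.leaf ⟨1,[21],63⟩) (Tr.leaf ⟨34,[35,36],0⟩))
)
)
)

noncomputable def bD_ax : Tr Ax := (Tr.br (Tr.br (Tr.br (Tr.br (Tr.br (Tr.br (Tr.leaf ⟨[1,1,1,1,1,1,1],[⟨0,1,false⟩,⟨0,2,false⟩,⟨0,3,false⟩,⟨0,4,false⟩,⟨0,5,false⟩,⟨0,6,false⟩,⟨1,2,true⟩,⟨1,3,true⟩,⟨1,4,true⟩,⟨1,5,false⟩,⟨1,6,false⟩,⟨2,3,false⟩,⟨2,4,false⟩,⟨2,5,false⟩,⟨2,6,false⟩,⟨3,4,false⟩,⟨3,5,false⟩,⟨3,6,false⟩,⟨4,5,true⟩,⟨4,6,false⟩,⟨5,6,true⟩],[],0⟩) (Tr.leaf ⟨[0x1000000000000,0x800000000000,0x40000000000],[⟨0,1,false⟩,⟨0,2,true⟩,⟨1,2,false⟩],[],0⟩)) (Tr.leaf ⟨[0x20000],[],[⟨15,[(0,false)]⟩],0⟩)) (Tr.br (Tr.br (Tr.leaf ⟨[8,32,16,16],[⟨0,2,false⟩,⟨1,2,true⟩,⟨0,3,false⟩,⟨1,3,true⟩],[⟨4,[(0,true),(1,false)]⟩],1⟩)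 (Tr.leaf ⟨[0x400000000000000],[],[⟨55,[(0,true)]⟩],0⟩)) (Tr.leaf ⟨[0x80000000],[],[⟨25,[(0,true)]⟩],0⟩)))
 (Tr.br (Tr.br (Tr.br (Tr.leaf ⟨[2,4,4,4,2,4],[⟨0,1,true⟩,⟨0,2,true⟩,⟨0,3,true⟩,⟨3,4,true⟩,⟨4,5,true⟩,⟨1,4,false⟩,⟨2,4,false⟩,⟨0,5,false⟩],[],0⟩) (Tr.leaf ⟨[0x10000000000000],[],[⟨48,[(0,true)]⟩],0⟩)) (Tr.leaf ⟨[0x8000000],[],[⟨26,[(0,false)]⟩],0⟩)) (Tr.br (Tr.leaf ⟨[8192],[],[⟨11,[(0,false)]⟩],0⟩) (Tr.leaf ⟨[0x800000000],[],[⟨24,[(0,false)]⟩],0⟩)))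
)
 (Tr.br (Tr.br (Tr.br (Tr.br (Tr.leaf ⟨[4,4],[⟨0,1,true⟩],[],0⟩) (Tr.leaf ⟨[0x4000000000000],[],[⟨39,[(0,true)]⟩],0⟩)) (Tr.leaf ⟨[0x80000],[],[],0⟩)) (Tr.br (Tr.br (Tr.leaf ⟨[2048],[],[⟨9,[(0,false)]⟩],0⟩) (Tr.leaf ⟨[0x1000000000000000],[],[⟨56,[(0,false)]⟩],0⟩)) (Tr.leaf ⟨[0x200000000],[],[⟨25,[(0,false)]⟩],1⟩)))
 (Tr.br (Tr.br (Tr.br (Tr.leaf ⟨[16,16],[⟨0,1,false⟩],[⟨3,[(0,true),(1,false)]⟩,⟨3,[(0,false),(1,true)]⟩],0⟩) (Tr.leaf ⟨[0x100000000000000],[],[⟨50,[(0,true)]⟩],0⟩)) (Tr.leaf ⟨[0x20000000],[],[⟨24,[(0,false)]⟩],0⟩)) (Tr.br (Tr.leaf ⟨[32768],[],[⟨13,[(0,false)]⟩],0⟩) (Tr.leaf ⟨[0x20000000000,0x2000000000],[⟨0,1,false⟩],[],0⟩)))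
)
)
 (Tr.br (Tr.br (Tr.br (Tr.br (Tr.br (Tr.leaf ⟨[2,2],[⟨0,1,true⟩],[],0⟩) (Tr.leaf ⟨[0x1000000000000,0x40000000000,0x80000000000],[⟨0,1,true⟩,⟨0,2,false⟩,⟨1,2,false⟩],[],0⟩)) (Tr.leaf ⟨[0x40000,32768],[⟨0,1,false⟩],[],0⟩)) (Tr.br (Tr.br (Tr.leaf ⟨[64],[],[],0⟩) (Tr.leaf ⟨[0x800000000000000,0x80000000000000],[⟨0,1,true⟩],[],0⟩)) (Tr.leaf ⟨[0x100000000,0x2000000],[⟨0,1,true⟩],[],0⟩)))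
 (Tr.br (Tr.br (Tr.br (Tr.leaf ⟨[8,8],[⟨0,1,false⟩],[⟨4,[(0,true),(1,false)]⟩,⟨4,[(0,false),(1,true)]⟩],0⟩) (Tr.leaf ⟨[0x20000000000000,0x1000000000000],[⟨0,1,true⟩],[],0⟩)) (Tr.leaf ⟨[0x10000000,0x4000000],[⟨0,1,false⟩],[],0⟩)) (Tr.br (Tr.leaf ⟨[16384,2048],[⟨0,1,false⟩],[],0⟩) (Tr.leaf ⟨[0x1000000000,0x1000000],[⟨0,1,false⟩],[],0⟩)))
)
 (Tr.br (Tr.br (Tr.br (Tr.br (Tr.leaf ⟨[2,4,4,4,2,4],[⟨0,1,true⟩,⟨0,2,true⟩,⟨0,3,true⟩,⟨3,4,true⟩,⟨4,5,true⟩,⟨1,4,false⟩,⟨2,4,false⟩,⟨0,5,false⟩,⟨0,4,false⟩,⟨1,2,false⟩,⟨1,3,false⟩,⟨1,5,false⟩,⟨2,3,false⟩,⟨2,5,false⟩,⟨3,5,false⟩],[],0⟩) (Tr.leaf ⟨[0x8000000000000,0x8000000000],[⟨0,1,true⟩],[],0⟩)) (Tr.leaf ⟨[0x100000],[],[],0⟩)) (Tr.br (Tr.br (Tr.leaf ⟨[4096,512],[⟨0,1,false⟩],[],0⟩) (Tr.leaf ⟨[0x2000000000000000,0x100000000000000],[⟨0,1,false⟩],[],0⟩))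 (Tr.leaf ⟨[0x400000000,0x2000000,0x2000000],[⟨0,1,false⟩,⟨0,2,false⟩],[],0⟩)))
 (Tr.br (Tr.br (Tr.br (Tr.leaf ⟨[8,32,16],[⟨0,2,false⟩,⟨1,2,true⟩],[⟨4,[(0,true),(1,false)]⟩],0⟩) (Tr.leaf ⟨[0x200000000000000,0x4000000000000],[⟨0,1,true⟩],[],0⟩)) (Tr.leaf ⟨[0x40000000,0x1000000],[⟨0,1,false⟩],[],0⟩)) (Tr.br (Tr.leaf ⟨[65536,8192],[⟨0,1,false⟩],[],0⟩) (Tr.leaf ⟨[0x1000000000000,0x200000000000,0x40000000000],[⟨0,1,false⟩,⟨0,2,true⟩,⟨1,2,false⟩],[],0⟩)))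
)
)
)

noncomputable def bD_sc : Tr Sc := (Tr.leaf ⟨[],[]⟩)
noncomputable def bD_T : Tab := ⟨62,bD_ty,bD_ev,bD_ax,bD_sc⟩
def bD_S0 : St := ⟨0,0,0,0,0⟩
def bD_G0 : Ctx := ⟨3,0,15,0,0,bD_S0,none⟩
def bD_S1 : St := ⟨6,0x1400000000000000300000000000000140000000000000050000000000000014000000000000003,0x10000000000000000000000000000000280000000000000000000000000000001100000000000000000000000000000001000000000000000000000000000000010000000000000000000000000000000e,0xf00000000000000000000000000000007000000000000000000000000000000260000000000000000000000000000003a0000000000000000000000000000003c00000000000000000000000000000030,63⟩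
def bD_G1 : Ctx := ⟨3,0,7,0,0,bD_S1,none⟩
def bD_G2 : Ctx := ⟨3,0,31,0,0,bD_S0,none⟩
def bD_G3 : Ctx := ⟨5,0,127,0,0,bD_S0,none⟩
def bD_G4 : Ctx := ⟨5,0,127,0,8,bD_S0,none⟩
def bD_S2 : St := ⟨1,43,0,0,1⟩
def bD_G5 : Ctx := ⟨6,0,511,0,0,bD_S2,none⟩
def bD_G6 : Ctx := ⟨7,0,639,0,8,bD_S0,none⟩
def bD_G7 : Ctx := ⟨7,0,639,0,72,bD_S0,none⟩
def bD_G8 : Ctx := ⟨8,1,511,0,0,bD_S2,none⟩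
def bD_G9 : Ctx := ⟨9,3,511,0,0,bD_S2,none⟩
def bD_G10 : Ctx := ⟨11,7,511,0,0,bD_S2,none⟩
def bD_G11 : Ctx := ⟨13,15,3583,0,0,bD_S2,none⟩
def bD_G12 : Ctx := ⟨15,31,15871,0,0,bD_S2,none⟩
def bD_G13 : Ctx := ⟨17,63,65023,0,0,bD_S2,none⟩
def bD_G14 : Ctx := ⟨19,127,0x3fdff,0,0,bD_S2,none⟩
def bD_G15 : Ctx := ⟨21,127,0xffdff,0,0,bD_S2,none⟩
def bD_G16 : Ctx := ⟨21,127,0xffdff,0,0x180000,bD_S2,none⟩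
def bD_G17 : Ctx := ⟨22,128,7,0,0,bD_S1,none⟩
def bD_G18 : Ctx := ⟨23,384,7,0,0,bD_S1,none⟩
def bD_G19 : Ctx := ⟨24,896,7,0,0,bD_S1,none⟩
def bD_G20 : Ctx := ⟨27,1920,7,0,0,bD_S1,none⟩
def bD_G21 : Ctx := ⟨29,3968,0x300007,0,0,bD_S1,none⟩
def bD_G22 : Ctx := ⟨31,8064,0xf00007,0,0,bD_S1,none⟩
def bD_G23 : Ctx := ⟨33,16256,0x3f00007,0,0,bD_S1,none⟩
def bD_G24 : Ctx := ⟨35,32640,0xff00007,0,0,bD_S1,none⟩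
def bD_G25 : Ctx := ⟨37,65408,0x3ff00007,0,0,bD_S1,none⟩
def bD_G26 : Ctx := ⟨42,65408,0x7ff00007,0,0,bD_S1,none⟩
def bD_G27 : Ctx := ⟨50,65408,0x3fff00007,0,0,bD_S1,none⟩
def bD_G28 : Ctx := ⟨52,0x1ff80,0xffff00007,0,0,bD_S1,none⟩
def bD_G29 : Ctx := ⟨54,0x3ff80,0x3ffff00007,0,0,bD_S1,none⟩
def bD_G30 : Ctx := ⟨56,0x3ff80,0x3ffff00007,0,0,bD_S1,none⟩
def bD_G31 : Ctx := ⟨58,0x7ff80,0xfffff00007,0,0,bD_S1,none⟩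
def bD_G32 : Ctx := ⟨60,0xfff80,0x3fffff00007,0,0,bD_S1,none⟩
def bD_G33 : Ctx := ⟨62,0x1fff80,0xffffff00007,0,0,bD_S1,none⟩
def bD_h4 : List HP := [⟨[0],[],(HT.leaf 2)⟩]
def bD_h19 : List HP := [⟨[0],[],(HT.br true 0 0 (HT.leaf 2) (HT.leaf 2))⟩,⟨[1],[],(HT.br true 0 0 (HT.leaf 2) (HT.leaf 2))⟩]
def bD_h39 : List HP := [⟨[2,1],[],(HT.br true 0 0 (HT.br true 1 1 (HT.br false 0 1 (HT.br true 0 1 (HT.br true 1 0 (HT.leaf 2) (HT.leaf 2)) (HT.leaf 2)) (HT.leaf 1)) (HT.leaf 2)) (HT.leaf 2))⟩,⟨[3,0],[⟨0,1,false⟩],(HT.leaf 2)⟩,⟨[4,0],[⟨0,1,false⟩],(HT.leaf 3)⟩]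
def bD_h40 : List HP := [⟨[6,3,0],[⟨0,1,false⟩,⟨0,2,true⟩,⟨1,2,false⟩],(HT.br true 0 0 (HT.br true 1 1 (HT.br true 2 2 (HT.br true 0 1 (HT.br true 1 0 (HT.br true 0 2 (HT.br true 1 2 (HT.br true 2 0 (HT.leaf 2) (HT.leaf 3)) (HT.leaf 3)) (HT.br true 2 0 (HT.leaf 3) (HT.br true 1 2 (HT.br true 2 1 (HT.leaf 3) (HT.leaf 4)) (HT.br true 2 1 (HT.leaf 4) (HT.leaf 4))))) (HT.leaf 2)) (HT.leaf 2)) (HT.leaf 2)) (HT.leaf 2)) (HT.leaf 2))⟩,⟨[6,5,0],[⟨0,1,false⟩,⟨0,2,true⟩,⟨1,2,false⟩],(HT.br true 0 0 (HT.br true 1 1 (HT.br true 2 2 (HT.br true 0 1 (HT.br true 1 0 (HT.br true 0 2 (HT.br true 1 2 (HT.br true 2 0 (HT.leaf 2) (HT.leaf 3)) (HT.leaf 3)) (HT.br true 2 0 (HT.leaf 3) (HT.br true 1 2 (HT.br true 2 1 (HT.leaf 3) (HT.leaf 4)) (HT.br true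 2 1 (HT.leaf 4) (HT.leaf 4))))) (HT.leaf 2)) (HT.leaf 2)) (HT.leaf 2)) (HT.leaf 2)) (HT.leaf 2))⟩,⟨[6,0,1],[⟨0,1,true⟩,⟨0,2,false⟩,⟨1,2,false⟩],(HT.leaf 2)⟩,⟨[7,3,5],[],(HT.br true 0 0 (HT.br true 1 1 (HT.br true 2 2 (HT.br false 0 1 (HT.br false 0 2 (HT.br false 1 2 (HT.br true 0 1 (HT.br true 0 2 (HT.br true 1 0 (HT.br true 1 2 (HT.br true 2 0 (HT.br true 2 1 (HT.leaf 2) (HT.leaf 2)) (HT.leaf 2)) (HT.leaf 2)) (HT.leaf 2)) (HT.leaf 2)) (HT.leaf 2)) (HT.leaf 1)) (HT.leaf 1)) (HT.leaf 1)) (HT.leaf 2)) (HT.leaf 2)) (HT.leaf 2))⟩,⟨[3,2,4],[⟨0,1,false⟩,⟨0,2,false⟩,⟨1,2,false⟩],(HT.br true 0 0 (HT.br true 1 1 (HT.br true 2 2 (HT.br true 0 1 (HT.br true 0 2 (HT.br true 1 0 (HT.br true 1 2 (HT.br true 2 0 (HT.br true 2 1 (HT.leaf 3) (HT.leaf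 2)) (HT.leaf 2)) (HT.leaf 2)) (HT.leaf 2)) (HT.leaf 2)) (HT.leaf 2)) (HT.leaf 2)) (HT.leaf 2)) (HT.leaf 2))⟩,⟨[3,2,4],[⟨0,1,false⟩,⟨0,2,false⟩,⟨1,2,true⟩],(HT.br true 0 0 (HT.br true 1 1 (HT.br true 2 2 (HT.br true 0 1 (HT.br true 1 0 (HT.br true 1 2 (HT.leaf 2) (HT.br true 2 1 (HT.leaf 2) (HT.br true 0 2 (HT.br true 2 0 (HT.leaf 3) (HT.leaf 2)) (HT.br true 2 0 (HT.leaf 2) (HT.leaf 2))))) (HT.leaf 2)) (HT.leaf 2)) (HT.leaf 2)) (HT.leaf 2)) (HT.leaf 2))⟩,⟨[3,4,4],[⟨0,1,true⟩,⟨0,2,false⟩,⟨1,2,false⟩],(HT.br true 0 0 (HT.br true 1 1 (HT.br true 2 2 (HT.br true 1 2 (HT.br true 2 1 (HT.br true 0 1 (HT.br true 0 2 (HT.br true 1 0 (HT.leaf 3) (HT.leaf 3)) (HT.leaf 2)) (HT.br true 0 2 (HT.br true 1 0 (HT.leaf 3) (HT.leaf 3)) (HT.br true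 1 0 (HT.leaf 3) (HT.leaf 3)))) (HT.leaf 2)) (HT.leaf 2)) (HT.leaf 2)) (HT.leaf 2)) (HT.leaf 2))⟩]
def bD_h46 : List HP := [⟨[0,0,1],[⟨0,1,false⟩,⟨0,2,false⟩,⟨1,2,false⟩],(HT.br true 0 0 (HT.br true 1 1 (HT.br true 2 2 (HT.br true 0 1 (HT.br true 1 0 (HT.br true 0 2 (HT.br true 1 2 (HT.br true 2 0 (HT.br true 2 1 (HT.leaf 4) (HT.leaf 4)) (HT.br true 2 1 (HT.leaf 4) (HT.leaf 4))) (HT.br true 2 0 (HT.br true 2 1 (HT.leaf 4) (HT.leaf 3)) (HT.leaf 3))) (HT.br true 2 0 (HT.br true 2 1 (HT.br true 1 2 (HT.leaf 4) (HT.leaf 4)) (HT.leaf 3)) (HT.leaf 3))) (HT.leaf 2)) (HT.leaf 2)) (HT.leaf 2)) (HT.leaf 2)) (HT.leaf 2))⟩]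

end Pool.Agent.Lib.MP_849b2e_co
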