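import Pool.Agent.Lib.MP_849b2e_co.Fast
import Pool.Agent.Lib.MP_849b2e_co.TbD
import Pool.Agent.Lib.MP_849b2e_co.RApply
import Pool.Agent.Lib.MP_849b2e_co.TbS113

set_option maxRecDepth 100000
set_option linter.all false
namespace Pool.Agent.Lib.MP_849b2e_co

noncomputable def bD_o0c : Pq := (Pq.cons (Pq.L [] 255 (Pf.B 5 3 (Pf.B 5 2 (Pf.B 5 1 (Pf.B 4 0 (Pf.B 3 2 (Pf.B 3 1 (Pf.B 2 1 (Pf.C 3 0x2840604100) (Pf.C 2 130)) (Pf.C 2 131)) (Pf.C 2 259)) (Pf.C 1 4)) (Pf.C 2 133)) (Pf.C 2 261)) (Pf.C 2 389)))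
 Pq.nil)
theorem bD_o0 : AllRef bD_T bD_G0 [⟨[[1],[2],[2],[2],[1],[2]],[⟨0,1,true⟩,⟨0,2,true⟩,⟨0,3,true⟩,⟨3,4,true⟩,⟨4,5,true⟩,⟨1,4,false⟩,⟨2,4,false⟩,⟨0,5,false⟩],[],[]⟩] :=
  chkPq_sound bD_o0c _ (by decide +kernel)
noncomputable def bD_o1c : Pq := (Pq.cons (Pq.L [] 2 (Pf.C 1 256))
 (Pq.cons (Pq.L [] 2 (Pf.C 2 256))
 Pq.nil))
theorem bD_o1 : AllRef bD_T bD_G2 (twinObl [1,2] 0 [2,1]) :=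
  chkPq_sound bD_o1c _ (by decide +kernel)
noncomputable def bD_o2c : Pq := Pq.nil
theorem bD_o2 : AllRef bD_T bD_G3 (extObl 3 [] []) :=
  chkPq_sound bD_o2c _ (by decide +kernel)
noncomputable def bD_o3c : Pq := (Pq.cons (Pq.L [] 0 (Pf.B 1 0 (Pf.W 6 128 [] [] Pf.nil) (Pf.C 2 1)))
 Pq.nil)
theorem bD_o3 : AllRef bD_T bD_G4 (hitObl [4] bD_h4) :=
  chkPq_sound bD_o3c _ (by decide +kernel)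
noncomputable def bD_o4c : Pq := (Pq.cons (Pq.L [] 0 (Pf.C 9 0))
 Pq.nil)
theorem bD_o4 : AllRef bD_T bD_G6 (List.map pat1 [6]) :=
  chkPq_sound bD_o4c _ (by decide +kernel)
noncomputable def bD_o5c : Pq := Pq.nil
theorem bD_o5 : AllRef bD_T bD_G5 (ptObl 3 PT.kid []) :=
  chkPq_sound bD_o5c _ (by decide +kernel)
noncomputable def bD_o6c : Pq := (Pq.cons (Pq.L [0] 0 (Pf.C 1 1))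
 Pq.nil)
theorem bD_o6 : AllRef bD_T bD_G8 (ptObl 7 (PT.br 0 PT.kid PT.ref) []) :=
  chkPq_sound bD_o6c _ (by decide +kernel)
noncomputable def bD_o7c : Pq := Pq.nil
theorem bD_o7 : AllRef bD_T bD_G9 (ptObl 4 (PT.br 0 PT.kid PT.kid) []) :=
  chkPq_sound bD_o7c _ (by decide +kernel)
noncomputable def bD_o8c : Pq := (Pq.cons (Pq.L [0] 1 (Pf.W 14 1 [] [0,2] (Pf.cons (Pf.B 3 2 (Pf.W 12 3 [] [0,1,2] (Pf.cons (Pf.B 4 2 (Pf.B 4 1 (Pf.W 10 4 [] [0,1,2,3] (Pf.cons (Pf.B 5 3 (Pf.B 5 2 (Pf.C 11 642) (Pf.B 5 1 (Pf.C 11 641) (Pf.W 5 257 [] [0,3,4,5] (Pf.cons (Pf.B 6 5 (Pf.B 6 3 (Pf.B 6 4 (Pf.T 6 2 (Pf.cons (Pf.C 11 770) (Pf.cons (Pf.T 6 4 (Pf.cons (Pf.W 8 0xc0c002 [5] [1] (Pf.cons (Pf.B 7 6 (Pf.B 7 5 (Pf.B 7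 3 (Pf.B 7 1 (Pf.T 7 2 (Pf.cons (Pf.C 11 897) Pf.nil)) (Pf.C 3 0x1800c14381)) (Pf.C 2 391)) (Pf.C 2 647)) (Pf.C 2 775)) Pf.nil)) (Pf.cons (Pf.C 13 518) Pf.nil))) Pf.nil))) (Pf.T 6 2 (Pf.cons (Pf.C 11 770) (Pf.cons (Pf.T 6 4 (Pf.cons (Pf.W 12 6 [] [0,1,2,3,4,5] (Pf.cons (Pf.B 7 4 (Pf.B 7 2 (Pf.B 7 1 (Pf.B 7 5 (Pf.C 0 0x82810800307) (Pf.B 7 3 (Pf.C 0 0x10301041c283) (Pf.C 0 0x1870404284))) (Pf.C 1 135)) (Pf.C 1 263)) (Pf.C 1 519)) Pf.nil)) (Pf.cons (Pf.T 6 6 (Pf.cons (Pf.W 8 0xc0c002 [5] [1] (Pf.cons (Pf.B 7 6 (Pf.B 7 5 (Pf.B 7 3 (Pf.B 7 1 (Pf.T 7 2 (Pf.cons (Pf.C 11 897) Pf.nil)) (Pf.C 3 0x1800c14381)) (Pf.C 2 391)) (Pf.C 2 647)) (Pf.C 2 775)) Pf.nil)) (Pf.cons (Pf.C 17 262) Pf.nil))) Pf.nil))) Pf.nil))))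 (Pf.C 2 390)) (Pf.C 2 646)) (Pf.cons (Pf.B 6 5 (Pf.B 6 3 (Pf.B 6 4 (Pf.T 6 2 (Pf.cons (Pf.C 11 769) (Pf.cons (Pf.T 6 4 (Pf.cons (Pf.W 8 0xc0c001 [5] [2] (Pf.cons (Pf.B 7 6 (Pf.B 7 5 (Pf.B 7 3 (Pf.B 7 2 (Pf.T 7 2 (Pf.cons (Pf.C 11 898) Pf.nil)) (Pf.C 3 0x1800c14382)) (Pf.C 2 391)) (Pf.C 2 647)) (Pf.C 2 775)) Pf.nil)) (Pf.cons (Pf.C 13 518) Pf.nil))) Pf.nil))) (Pf.T 6 2 (Pf.cons (Pf.C 11 769) (Pf.cons (Pf.T 6 4 (Pf.cons (Pf.W 12 6 [] [0,1,2,3,4,5] (Pf.cons (Pf.B 7 4 (Pf.B 7 2 (Pf.B 7 1 (Pf.B 7 5 (Pf.C 0 0x42820800307) (Pf.B 7 3 (Pf.C 0 0x10302021c283) (Pf.C 0 0x1870404284))) (Pf.C 1 135)) (Pf.C 1 263)) (Pf.C 1 519)) Pf.nil)) (Pf.cons (Pf.T 6 6 (Pf.cons (Pf.W 8 0xc0c001 [5] [2] (Pf.cons (Pf.B 7 6 (Pf.B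 7 5 (Pf.B 7 3 (Pf.B 7 2 (Pf.T 7 2 (Pf.cons (Pf.C 11 898) Pf.nil)) (Pf.C 3 0x1800c14382)) (Pf.C 2 391)) (Pf.C 2 647)) (Pf.C 2 775)) Pf.nil)) (Pf.cons (Pf.C 17 134) Pf.nil))) Pf.nil))) Pf.nil)))) (Pf.C 2 390)) (Pf.C 2 646)) Pf.nil))))) (Pf.C 2 389)) Pf.nil)) (Pf.C 1 132)) (Pf.C 1 260)) Pf.nil)) (Pf.W 14 2 [] [0,1,3] (Pf.cons (Pf.B 4 3 (Pf.B 4 1 (Pf.W 12 3 [] [0,1,2,4] (Pf.cons (Pf.W 10 5 [] [0,1,2,3,4] (Pf.cons (Pf.B 6 4 (Pf.B 6 3 (Pf.B 6 2 (Pf.C 11 770) (Pf.W 8 0x80c001 [6] [2] (Pf.cons (Pf.B 7 6 (Pf.B 7 4 (Pf.B 7 3 (Pf.B 7 2 (Pf.T 7 2 (Pf.cons (Pf.C 11 898) Pf.nil)) (Pf.C 3 0x2000618382)) (Pf.C 2 391)) (Pf.C 2 519)) (Pf.C 2 775)) Pf.nil))) (Pf.C 2 390)) (Pf.C 2 518)) Pf.nil)) Pf.nil)) (Pf.W 12 3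 [] [0,1,2,4] (Pf.cons (Pf.B 5 2 (Pf.B 5 1 (Pf.B 5 4 (Pf.W 10 5 [] [0,1,2,3,4] (Pf.cons (Pf.B 6 4 (Pf.B 6 3 (Pf.B 6 2 (Pf.C 11 770) (Pf.B 6 1 (Pf.C 11 769) (Pf.W 7 49157 [] [1,2,4,6] (Pf.cons (Pf.B 7 6 (Pf.B 7 4 (Pf.B 7 3 (Pf.B 7 2 (Pf.B 7 1 (Pf.T 7 2 (Pf.cons (Pf.C 11 897) Pf.nil)) (Pf.C 3 0x1820c10381)) (Pf.C 3 0x2000618382)) (Pf.C 2 391)) (Pf.C 2 519)) (Pf.C 2 775)) Pf.nil)))) (Pf.C 2 390)) (Pf.C 2 518)) Pf.nil)) (Pf.W 12 4 [] [0,1,2,3,5] (Pf.cons (Pf.B 6 5 (Pf.B 6 2 (Pf.B 6 1 (Pf.B 6 3 (Pf.C 0 0x81800a04206) (Pf.W 10 5 [] [0,1,2,3,4,6] (Pf.cons (Pf.B 7 4 (Pf.B 7 3 (Pf.B 7 2 (Pf.C 11 898) (Pf.B 7 1 (Pf.C 11 897) (Pf.B 7 6 (Pf.C 0 0x83810a00206) (Pf.W 10 6 [] [0,2,3,4,7] (Pf.cons (Pf.B 8 7 (Pf.B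 8 4 (Pf.B 8 3 (Pf.B 8 2 (Pf.C 11 1026) (Pf.C 3 0x200061c402)) (Pf.C 2 392)) (Pf.C 2 520)) (Pf.C 2 904)) Pf.nil))))) (Pf.C 2 391)) (Pf.C 2 519)) Pf.nil))) (Pf.C 1 134)) (Pf.C 1 262)) (Pf.C 1 646)) Pf.nil))) (Pf.C 1 133)) (Pf.C 1 261)) Pf.nil))) (Pf.C 2 388)) Pf.nil))) Pf.nil)))
 (Pq.cons (Pq.L [] 1 (Pf.C 1 257))
 (Pq.cons (Pq.L [0] 1 (Pf.W 16 1 [] [0,2] (Pf.cons (Pf.W 14 3 [] [0,1,2] (Pf.cons (Pf.B 4 2 (Pf.B 4 1 (Pf.W 12 4 [] [0,1,2] (Pf.cons (Pf.B 5 2 (Pf.C 13 642) (Pf.B 5 1 (Pf.C 13 641) (Pf.W 10 5 [] [0,1,2,4] (Pf.cons (Pf.B 6 4 (Pf.B 6 2 (Pf.B 6 1 (Pf.W 6 257 [] [0,4,5,6] (Pf.cons (Pf.B 7 5 (Pf.B 7 0 (Pf.B 7 6 (Pf.T 7 0 (Pf.cons (Pf.T 7 1 (Pf.cons (Pf.T 7 3 (Pf.cons (Pf.C 13 898) (Pf.cons (Pf.C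 11 775) Pf.nil))) Pf.nil)) Pf.nil)) (Pf.B 7 4 (Pf.C 3 0x3070208200) (Pf.C 3 0x1050218207))) (Pf.C 1 7)) (Pf.C 1 647)) (Pf.cons (Pf.B 7 5 (Pf.B 7 0 (Pf.B 7 6 (Pf.T 7 0 (Pf.cons (Pf.T 7 1 (Pf.cons (Pf.T 7 3 (Pf.cons (Pf.C 13 897) (Pf.cons (Pf.C 11 775) Pf.nil))) Pf.nil)) Pf.nil)) (Pf.B 7 4 (Pf.C 3 0x3070404200) (Pf.C 3 0x850418207))) (Pf.C 1 7)) (Pf.C 1 647)) Pf.nil))) (Pf.C 2 134)) (Pf.C 2 262)) (Pf.C 2 518)) Pf.nil)))) Pf.nil)) (Pf.C 2 132)) (Pf.C 2 260)) Pf.nil)) Pf.nil)))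
 (Pq.cons (Pq.L [] 1 (Pf.C 2 257))
 Pq.nil))))
theorem bD_o8 : AllRef bD_T bD_G14 (hitObl [15,17] bD_h19) :=
  chkPq_sound bD_o8c _ (by decide +kernel)
noncomputable def bD_o9c : Pq := (Pq.cons (Pq.L [] 0 (Pf.C 18 1))
 (Pq.cons (Pq.L [] 0 (Pf.C 19 1))
 Pq.nil))
theorem bD_o9 : AllRef bD_T bD_G15 (List.map pat1 [19,20]) :=
  chkPq_sound bD_o9c _ (by decide +kernel)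
noncomputable def bD_o10c : Pq := (Pq.cons (Pq.L [] 1 (Pf.C 1 257))
 (Pq.cons (Pq.L [] 2 (Pf.C 13 385))
 (Pq.cons (Pq.L [] 2 (Pf.C 11 385))
 (Pq.cons (Pq.L [] 1 (Pf.C 2 257))
 (Pq.cons (Pq.L [] 2 (Pf.C 15 385))
 (Pq.cons (Pq.L [] 1 (Pf.C 2 257))
 Pq.nil))))))
theorem bD_o10 : AllRef bD_T bD_G16 (splitObl [11,9,13] [16,18]) :=
  chkPq_sound bD_o10c _ (by decide +kernel)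
noncomputable def bD_o11c : Pq := (Pq.cons (Pq.D 0 (Pq.cons (Pq.D 1 (Pq.cons (Pq.L [] 1 (Pf.C 1 257))
 (Pq.cons (Pq.D 2 (Pq.cons (Pq.L [] 2 (Pf.C 1 385))
 (Pq.cons (Pq.D 3 (Pq.cons (Pq.L [] 4 (Pf.C 1 513))
 (Pq.cons (Pq.D 4 (Pq.cons (Pq.D 5 (Pq.cons (Pq.L [] 16384 (Pf.C 1 773))
 (Pq.cons (Pq.L [] 32767 (Pf.C 3 0x305080c101))
 (Pq.cons (Pq.L [] 32767 (Pf.C 3 0x305080c101))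
 Pq.nil)))) (Pq.cons (Pq.L [] 4096 (Pf.C 2 644))
 (Pq.cons (Pq.L [] 4096 (Pf.C 2 644))
 Pq.nil)))) (Pq.cons (Pq.D 4 (Pq.cons (Pq.D 5 (Pq.cons (Pq.L [] 16384 (Pf.C 1 773))
 (Pq.cons (Pq.L [] 32767 (Pf.C 3 0x305080c101))
 (Pq.cons (Pq.L [] 32767 (Pf.C 3 0x305080c101))
 Pq.nil)))) (Pq.cons (Pq.L [] 4096 (Pf.C 2 644))
 (Pq.cons (Pq.L [] 4096 (Pf.C 2 644))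
 Pq.nil)))) Pq.nil)))) (Pq.cons (Pq.D 3 (Pq.cons (Pq.L [] 4 (Pf.C 1 513))
 (Pq.cons (Pq.D 4 (Pq.cons (Pq.D 5 (Pq.cons (Pq.L [] 16384 (Pf.C 1 773))
 (Pq.cons (Pq.L [] 32767 (Pf.C 3 0x305080c101))
 (Pq.cons (Pq.L [] 32767 (Pf.C 3 0x305080c101))
 Pq.nil)))) (Pq.cons (Pq.L [] 4096 (Pf.C 2 644))
 (Pq.cons (Pq.L [] 4096 (Pf.C 2 644))
 Pq.nil)))) (Pq.cons (Pq.D 4 (Pq.cons (Pq.D 5 (Pq.cons (Pq.L [] 16384 (Pf.C 1 773))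
 (Pq.cons (Pq.L [] 32767 (Pf.C 3 0x305080c101))
 (Pq.cons (Pq.L [] 32767 (Pf.C 3 0x305080c101))
 Pq.nil)))) (Pq.cons (Pq.L [] 4096 (Pf.C 2 644))
 (Pq.cons (Pq.L [] 4096 (Pf.C 2 644))
 Pq.nil)))) Pq.nil)))) Pq.nil)))) (Pq.cons (Pq.D 2 (Pq.cons (Pq.L [] 2 (Pf.C 1 385))
 (Pq.cons (Pq.D 3 (Pq.cons (Pq.L [] 4 (Pf.C 1 513))
 (Pq.cons (Pq.D 4 (Pq.cons (Pq.D 5 (Pq.cons (Pq.L [] 16384 (Pf.C 1 773))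
 (Pq.cons (Pq.L [] 32767 (Pf.C 3 0x305080c101))
 (Pq.cons (Pq.L [] 32767 (Pf.C 3 0x305080c101))
 Pq.nil)))) (Pq.cons (Pq.L [] 4096 (Pf.C 2 644))
 (Pq.cons (Pq.L [] 4096 (Pf.C 2 644))
 Pq.nil)))) (Pq.cons (Pq.D 4 (Pq.cons (Pq.D 5 (Pq.cons (Pq.L [] 16384 (Pf.C 1 773))
 (Pq.cons (Pq.L [] 32767 (Pf.C 3 0x305080c101))
 (Pq.cons (Pq.L [] 32767 (Pf.C 3 0x305080c101))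
 Pq.nil)))) (Pq.cons (Pq.L [] 4096 (Pf.C 2 644))
 (Pq.cons (Pq.L [] 4096 (Pf.C 2 644))
 Pq.nil)))) Pq.nil)))) (Pq.cons (Pq.D 3 (Pq.cons (Pq.L [] 4 (Pf.C 1 513))
 (Pq.cons (Pq.D 4 (Pq.cons (Pq.D 5 (Pq.cons (Pq.L [] 16384 (Pf.C 1 773))
 (Pq.cons (Pq.L [] 32767 (Pf.C 3 0x305080c101))
 (Pq.cons (Pq.L [] 32767 (Pf.C 3 0x305080c101))
 Pq.nil)))) (Pq.cons (Pq.L [] 4096 (Pf.C 2 644))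
 (Pq.cons (Pq.L [] 4096 (Pf.C 2 644))
 Pq.nil)))) (Pq.cons (Pq.D 4 (Pq.cons (Pq.L [0] 5248 (Pf.W 7 32773 [] [3,4] (Pf.cons (Pf.C 4 0x385080c100) Pf.nil)))
 (Pq.cons (Pq.L [] 4096 (Pf.C 2 644))
 (Pq.cons (Pq.L [] 4096 (Pf.C 2 644))
 Pq.nil)))) Pq.nil)))) Pq.nil)))) Pq.nil)))) (Pq.cons (Pq.D 1 (Pq.cons (Pq.D 2 (Pq.cons (Pq.D 3 (Pq.cons (Pq.D 4 (Pq.cons (Pq.L [] 4096 (Pf.C 1 644))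
 (Pq.cons (Pq.D 5 (Pq.cons (Pq.L [0] 32767 (Pf.C 0 0x182840608080))
 (Pq.cons (Pq.L [0] 32767 (Pf.C 0 0x182840608080))
 (Pq.cons (Pq.L [] 16384 (Pf.C 2 773))
 Pq.nil)))) (Pq.cons (Pq.D 5 (Pq.cons (Pq.L [0] 32767 (Pf.W 10 2 [] [0,1,3,4,5,6] (Pf.cons (Pf.B 7 5 (Pf.B 7 1 (Pf.B 7 6 (Pf.B 7 4 (Pf.C 0 0x80840c00287) (Pf.B 7 3 (Pf.W 10 4 [] [0,1,2,3,5,7] (Pf.cons (Pf.B 8 5 (Pf.B 8 3 (Pf.B 8 2 (Pf.B 8 1 (Pf.C 0 0x2840608088) (Pf.C 2 136)) (Pf.C 4 0x402021c284)) (Pf.C 4 0x403021c284)) (Pf.C 2 648)) Pf.nil)) (Pf.C 0 0xc3840c00282))) (Pf.B 7 4 (Pf.B 7 3 (Pf.C 0 0x284040c087) (Pf.C 0 0x183830808080)) (Pf.B 7 3 (Pf.C 0 0x18384040c080) (Pf.W 10 4 [] [0,1,2,3,5,6,7] (Pf.cons (Pf.B 8 7 (Pf.B 8 5 (Pf.B 8 2 (Pf.B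 8 1 (Pf.B 8 6 (Pf.C 0 0x80840018288) (Pf.B 8 3 (Pf.C 3 0x830e14406) (Pf.C 0 0x184030808080))) (Pf.C 2 136)) (Pf.C 4 0x402021c284)) (Pf.C 2 648)) (Pf.C 2 904)) Pf.nil))))) (Pf.C 2 135)) (Pf.C 2 647)) Pf.nil)))
 (Pq.cons (Pq.L [] 16384 (Pf.C 2 773))
 (Pq.cons (Pq.L [] 16384 (Pf.C 2 773))
 Pq.nil)))) Pq.nil)))) (Pq.cons (Pq.L [] 4 (Pf.C 2 513))
 (Pq.cons (Pq.L [] 4 (Pf.C 2 513))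
 Pq.nil)))) (Pq.cons (Pq.L [] 2 (Pf.C 2 385))
 (Pq.cons (Pq.L [] 2 (Pf.C 2 385))
 Pq.nil)))) (Pq.cons (Pq.L [] 1 (Pf.C 2 257))
 (Pq.cons (Pq.L [] 1 (Pf.C 2 257))
 Pq.nil)))) (Pq.cons (Pq.D 1 (Pq.cons (Pq.D 2 (Pq.cons (Pq.D 3 (Pq.cons (Pq.D 4 (Pq.cons (Pq.L [] 4096 (Pf.C 1 644))
 (Pq.cons (Pq.D 5 (Pq.cons (Pq.L [0] 32767 (Pf.W 10 4 [] [0,1,2,3,5,6] (Pf.cons (Pf.B 7 5 (Pf.B 7 1 (Pf.B 7 6 (Pf.B 7 3 (Pf.C 0 0x18284000c087) (Pf.B 7 2 (Pf.C 0 0x182840008087) (Pf.W 5 386 [] [1,4,5,7] (Pf.cons (Pf.B 8 4 (Pf.C 4 0x284021c402) (Pf.C 4 0x3830214404)) (Pf.cons (Pf.B 8 4 (Pf.C 4 0x284021c403) (Pf.C 4 0x3820214404)) Pf.nil))))) (Pf.B 7 3 (Pf.B 7 2 (Pf.W 10 6 [] [0,1,2,3,4,5,7] (Pf.cons (Pf.B 8 5 (Pf.B 8 4 (Pf.B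 8 1 (Pf.B 8 3 (Pf.C 0 0x18284000c088) (Pf.B 8 2 (Pf.C 0 0x182840008088) (Pf.W 5 386 [] [1,4,5,6,7,8] (Pf.cons (Pf.B 9 6 (Pf.B 9 4 (Pf.C 4 0x2840220482) (Pf.C 4 0x3860a04484)) (Pf.C 4 0x82121c286)) (Pf.cons (Pf.B 9 6 (Pf.B 9 4 (Pf.C 4 0x2840220483) (Pf.C 4 0x3860a04484)) (Pf.C 4 0x83121c286)) Pf.nil))))) (Pf.C 2 136)) (Pf.C 4 0x3860a04404)) (Pf.C 2 648)) Pf.nil)) (Pf.W 10 6 [] [0,1,2,4,5,7] (Pf.cons (Pf.B 8 5 (Pf.B 8 4 (Pf.B 8 2 (Pf.B 8 1 (Pf.C 0 0x182840400088) (Pf.C 2 136)) (Pf.C 4 0x2860e04402)) (Pf.C 4 0x3860a04404)) (Pf.C 2 648)) Pf.nil))) (Pf.W 10 6 [] [0,1,3,4,5,7] (Pf.cons (Pf.B 8 5 (Pf.B 8 4 (Pf.B 8 3 (Pf.B 8 1 (Pf.C 0 0x182840600088) (Pf.C 2 136)) (Pf.C 4 0x2860e04403)) (Pf.C 4 0x3860a04404))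 (Pf.C 2 648)) Pf.nil)))) (Pf.C 2 135)) (Pf.C 2 647)) Pf.nil)))
 (Pq.cons (Pq.L [] 16384 (Pf.C 2 773))
 (Pq.cons (Pq.L [] 16384 (Pf.C 2 773))
 Pq.nil)))) (Pq.cons (Pq.D 5 (Pq.cons (Pq.L [0] 32767 (Pf.W 10 2 [] [0,1,3,4,5,6] (Pf.cons (Pf.B 7 5 (Pf.B 7 1 (Pf.B 7 6 (Pf.B 7 3 (Pf.C 0 0x18280040c087) (Pf.B 7 4 (Pf.W 5 512 [] [1,3,5,7] (Pf.cons (Pf.B 8 3 (Pf.C 4 0x3830214400) (Pf.C 4 0x284021c403)) (Pf.cons (Pf.B 8 3 (Pf.C 4 0x3830214404) (Pf.C 4 0x280021c403)) Pf.nil))) (Pf.C 0 0xc3840c00282))) (Pf.B 7 4 (Pf.W 5 512 [] [1,5,6,7] (Pf.cons (Pf.B 8 6 (Pf.C 4 0x3860a04400) (Pf.C 4 0x840a1c406)) (Pf.cons (Pf.B 8 6 (Pf.C 4 0x3860a04404) (Pf.C 4 0x800a1c406)) Pf.nil))) (Pf.B 7 3 (Pf.W 10 4 [] [0,1,2,3,5,6,7]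 (Pf.cons (Pf.B 8 6 (Pf.B 8 5 (Pf.B 8 3 (Pf.B 8 2 (Pf.B 8 1 (Pf.C 0 0x182800608088) (Pf.C 2 136)) (Pf.C 4 0x402021c284)) (Pf.C 4 0x403021c284)) (Pf.C 2 648)) (Pf.C 4 0x800a1c406)) Pf.nil)) (Pf.W 10 3 [] [0,1,2,4,5,6,7] (Pf.cons (Pf.B 8 7 (Pf.B 8 6 (Pf.B 8 5 (Pf.B 8 1 (Pf.B 8 2 (Pf.C 0 0x183830008088) (Pf.B 8 4 (Pf.C 3 0x402021c284) (Pf.C 0 0x84040c00283))) (Pf.C 2 136)) (Pf.C 2 648)) (Pf.C 4 0x830e14406)) (Pf.C 2 904)) Pf.nil))))) (Pf.C 2 135)) (Pf.C 2 647)) Pf.nil)))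
 (Pq.cons (Pq.L [] 16384 (Pf.C 2 773))
 (Pq.cons (Pq.L [] 16384 (Pf.C 2 773))
 Pq.nil)))) Pq.nil)))) (Pq.cons (Pq.L [] 4 (Pf.C 2 513))
 (Pq.cons (Pq.L [] 4 (Pf.C 2 513))
 Pq.nil)))) (Pq.cons (Pq.L [] 2 (Pf.C 2 385))
 (Pq.cons (Pq.L [] 2 (Pf.C 2 385))
 Pq.nil)))) (Pq.cons (Pq.L [] 1 (Pf.C 2 257))
 (Pq.cons (Pq.L [] 1 (Pf.C 2 257))
 Pq.nil)))) Pq.nil)))) (Pq.cons (Pq.L [] 1 (Pf.C 1 257))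
 (Pq.cons (Pq.L [] 1 (Pf.C 2 257))
 Pq.nil)))
theorem bD_o11 : AllRef bD_T bD_G16 (applyObl bS113_T 3 [11,9,13] [1,2,2] []) :=
  chkPq_sound bD_o11c _ (by decide +kernel)
noncomputable def bD_o12c : Pq := (Pq.cons (Pq.D 0 (Pq.cons (Pq.D 1 (Pq.cons (Pq.L [] 1 (Pf.C 1 257))
 (Pq.cons (Pq.D 2 (Pq.cons (Pq.L [] 2 (Pf.C 1 385))
 (Pq.cons (Pq.D 3 (Pq.cons (Pq.L [] 4 (Pf.C 1 513))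
 (Pq.cons (Pq.L [0] 7 (Pf.B 4 3 (Pf.B 4 2 (Pf.B 3 2 (Pf.W 7 32769 [] [3,4] (Pf.cons (Pf.B 5 4 (Pf.B 5 3 (Pf.B 5 2 (Pf.T 5 2 (Pf.cons (Pf.W 8 0x608001 [5] [4] (Pf.cons (Pf.B 6 5 (Pf.B 6 4 (Pf.B 6 3 (Pf.B 6 2 (Pf.T 6 2 (Pf.cons (Pf.W 6 386 [] [0,1,4,5,6] (Pf.cons (Pf.B 7 1 (Pf.B 7 0 (Pf.B 7 6 (Pf.B 7 5 (Pf.T 7 0 (Pf.cons (Pf.T 7 1 (Pf.cons (Pf.T 7 3 (Pf.cons (Pf.C 13 899) (Pf.cons (Pf.C 11 647) Pf.nil))) Pf.nil)) Pf.nil)) (Pf.B 7 4 (Pf.C 3 0x287040c200) (Pf.C 3 0x3010a08207))) (Pf.B 7 5 (Pf.B 7 4 (Pf.C 3 0x307040c200) (Pf.C 3 0x2810c08207)) (Pf.C 3 0x1800418287))) (Pf.C 1 7)) (Pf.C 1 135)) (Pf.cons (Pf.B 7 1 (Pf.B 7 0 (Pf.B 7 6 (Pf.B 7 5 (Pf.T 7 0 (Pf.cons (Pf.T 7 1 (Pf.cons (Pf.T 7 3 (Pf.cons (Pf.C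 13 898) (Pf.cons (Pf.C 11 647) Pf.nil))) Pf.nil)) Pf.nil)) (Pf.B 7 4 (Pf.C 3 0x2870608200) (Pf.C 3 0x3010a0c207))) (Pf.B 7 5 (Pf.B 7 4 (Pf.C 3 0x3070608200) (Pf.C 3 0x2810c0c207)) (Pf.C 3 0x1000618287))) (Pf.C 1 7)) (Pf.C 1 135)) Pf.nil))) Pf.nil)) (Pf.C 2 262)) (Pf.C 2 390)) (Pf.C 2 518)) (Pf.C 2 646)) Pf.nil)) Pf.nil)) (Pf.C 2 261)) (Pf.C 2 389)) (Pf.C 2 517)) Pf.nil)) (Pf.C 2 259)) (Pf.C 2 260)) (Pf.C 2 388)))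
 Pq.nil))) Pq.nil))) Pq.nil))) (Pq.cons (Pq.D 1 (Pq.cons (Pq.D 2 (Pq.cons (Pq.D 3 (Pq.cons (Pq.L [0] 7 (Pf.B 4 3 (Pf.B 4 2 (Pf.B 3 2 (Pf.W 7 16386 [] [3,4] (Pf.cons (Pf.B 5 1 (Pf.B 5 4 (Pf.T 5 2 (Pf.cons (Pf.C 11 644) Pf.nil)) (Pf.B 5 3 (Pf.T 5 2 (Pf.cons (Pf.C 11 643) Pf.nil)) (Pf.T 5 2 (Pf.cons (Pf.W 5 386 [] [0,1,4,5] (Pf.cons (Pf.B 6 5 (Pf.B 6 1 (Pf.B 6 4 (Pf.T 6 2 (Pf.cons (Pf.C 11 771) (Pf.cons (Pf.T 6 4 (Pf.cons (Pf.C 15 771) (Pf.cons (Pf.T 6 6 (Pf.cons (Pf.W 16 6 [] [0,1,5] (Pf.cons (Pf.B 7 5 (Pf.C 11 647) (Pf.B 7 1 (Pf.C 17 897) (Pf.W 14 7 [] [0,1,5,6] (Pf.cons (Pf.C 4 0x2870218400) Pf.nil)))) Pf.nil)) (Pf.cons (Pf.W 5 515 [] [0,1,2,5,6] (Pf.cons (Pf.B 7 6 (Pf.B 7 5 (Pf.B 7 1 (Pf.B 7 0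 (Pf.B 7 2 (Pf.T 7 2 (Pf.cons (Pf.C 11 898) Pf.nil)) (Pf.C 3 0x800c14382)) (Pf.C 3 0x2830e18080)) (Pf.C 2 135)) (Pf.C 2 647)) (Pf.C 2 775)) (Pf.cons (Pf.B 7 6 (Pf.B 7 5 (Pf.B 7 1 (Pf.B 7 0 (Pf.B 7 2 (Pf.T 7 2 (Pf.cons (Pf.C 11 898) Pf.nil)) (Pf.C 3 0x800c14382)) (Pf.C 3 0x2840e18080)) (Pf.C 2 135)) (Pf.C 2 647)) (Pf.C 2 775)) Pf.nil))) Pf.nil))) Pf.nil))) Pf.nil))) (Pf.T 6 2 (Pf.cons (Pf.C 11 771) (Pf.cons (Pf.T 6 4 (Pf.cons (Pf.C 15 771) (Pf.cons (Pf.W 5 514 [] [0,1,5,6] (Pf.cons (Pf.B 7 6 (Pf.B 7 5 (Pf.B 7 1 (Pf.B 7 0 (Pf.C 3 0x800c14382) (Pf.C 3 0x2840c04380)) (Pf.C 2 135)) (Pf.C 2 647)) (Pf.C 2 775)) (Pf.cons (Pf.B 7 6 (Pf.B 7 5 (Pf.B 7 1 (Pf.B 7 0 (Pf.C 3 0x800c14384) (Pf.C 3 0x2820c04380))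 (Pf.C 2 135)) (Pf.C 2 647)) (Pf.C 2 775)) Pf.nil))) Pf.nil))) Pf.nil)))) (Pf.C 2 134)) (Pf.C 2 646)) (Pf.cons (Pf.B 6 5 (Pf.B 6 1 (Pf.B 6 4 (Pf.T 6 2 (Pf.cons (Pf.C 11 770) (Pf.cons (Pf.T 6 4 (Pf.cons (Pf.C 15 770) (Pf.cons (Pf.T 6 6 (Pf.cons (Pf.W 16 6 [] [0,1,5] (Pf.cons (Pf.B 7 5 (Pf.C 11 647) (Pf.B 7 1 (Pf.C 17 897) (Pf.W 14 7 [] [0,1,5,6] (Pf.cons (Pf.C 4 0x2870218400) Pf.nil)))) Pf.nil)) (Pf.cons (Pf.W 5 514 [] [0,1,3,5,6] (Pf.cons (Pf.B 7 6 (Pf.B 7 5 (Pf.B 7 1 (Pf.B 7 0 (Pf.B 7 3 (Pf.T 7 2 (Pf.cons (Pf.C 11 899) Pf.nil)) (Pf.C 3 0x800c14383)) (Pf.C 3 0x2820e18080)) (Pf.C 2 135)) (Pf.C 2 647)) (Pf.C 2 775)) (Pf.cons (Pf.B 7 6 (Pf.B 7 5 (Pf.B 7 1 (Pf.B 7 0 (Pf.T 7 2 (Pf.cons (Pf.C 11 898) Pf.nil))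 (Pf.C 3 0x2840e18080)) (Pf.C 2 135)) (Pf.C 2 647)) (Pf.C 2 775)) Pf.nil))) Pf.nil))) Pf.nil))) Pf.nil))) (Pf.T 6 2 (Pf.cons (Pf.C 11 770) (Pf.cons (Pf.T 6 4 (Pf.cons (Pf.C 15 770) (Pf.cons (Pf.W 5 515 [] [0,1,5,6] (Pf.cons (Pf.B 7 6 (Pf.B 7 5 (Pf.B 7 1 (Pf.B 7 0 (Pf.C 3 0x800c14383) (Pf.C 3 0x2840c04380)) (Pf.C 2 135)) (Pf.C 2 647)) (Pf.C 2 775)) (Pf.cons (Pf.B 7 6 (Pf.B 7 5 (Pf.B 7 1 (Pf.B 7 0 (Pf.C 3 0x800c14384) (Pf.C 3 0x2830c04380)) (Pf.C 2 135)) (Pf.C 2 647)) (Pf.C 2 775)) Pf.nil))) Pf.nil))) Pf.nil)))) (Pf.C 2 134)) (Pf.C 2 646)) Pf.nil))) Pf.nil)))) (Pf.C 2 133)) Pf.nil)) (Pf.C 1 259)) (Pf.C 1 260)) (Pf.C 1 388)))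
 (Pq.cons (Pq.L [] 4 (Pf.C 2 513))
 Pq.nil))) (Pq.cons (Pq.L [] 2 (Pf.C 2 385))
 Pq.nil))) (Pq.cons (Pq.L [] 1 (Pf.C 2 257))
 Pq.nil))) Pq.nil))) Pq.nil)
theorem bD_o12 : AllRef bD_T bD_G16 (applyObl TD2 1 [16,18] [0,0] [(16,0x40000),(18,65536)]) :=
  chkPq_sound bD_o12c _ (by decide +kernel)
noncomputable def bD_o13c : Pq := Pq.nil
theorem bD_o13 : AllRef bD_T bD_G1 (ptObl 1 PT.kid []) :=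
  chkPq_sound bD_o13c _ (by decide +kernel)
noncomputable def bD_o14c : Pq := (Pq.cons (Pq.L [4] 0 (Pf.C 1 518))
 (Pq.cons (Pq.L [0] 0 (Pf.C 1 6))
 Pq.nil))
theorem bD_o14 : AllRef bD_T bD_G17 (ptObl 21 (PT.br 0 (PT.br 4 PT.kid PT.ref) PT.ref) []) :=
  chkPq_sound bD_o14c _ (by decide +kernel)
noncomputable def bD_o15c : Pq := Pq.nil
theorem bD_o15 : AllRef bD_T bD_G18 (ptObl 2 PT.kid []) :=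
  chkPq_sound bD_o15c _ (by decide +kernel)
noncomputable def bD_o16c : Pq := (Pq.cons (Pq.L [0,1,2,3,4,5] 0 (Pf.B 6 5 (Pf.B 6 3 (Pf.B 6 2 (Pf.B 6 1 (Pf.C 0 0x142030404006) (Pf.C 2 134)) (Pf.C 2 262)) (Pf.C 2 390)) (Pf.C 2 646)))
 Pq.nil)
theorem bD_o16 : AllRef bD_T bD_G19 (ptObl 23 (PT.br 0 (PT.br 4 PT.ref PT.kid) (PT.br 4 PT.kid PT.kid)) []) :=
  chkPq_sound bD_o16c _ (by decide +kernel)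
noncomputable def bD_o17c : Pq := (Pq.cons (Pq.L [0,2,3,4,5] 63 (Pf.W 20 6 [] [0,2,3,4,5,7,8,9] (Pf.cons (Pf.B 10 9 (Pf.C 21 1289) (Pf.B 10 7 (Pf.C 21 1287) (Pf.B 10 5 (Pf.B 10 3 (Pf.B 10 2 (Pf.B 10 8 (Pf.W 22 7 [] [0,2,3,4,5,6,8,9,10] (Pf.cons (Pf.B 11 10 (Pf.B 11 5 (Pf.B 11 3 (Pf.B 11 2 (Pf.B 11 9 (Pf.B 11 8 (Pf.W 26 6 [] [0,2,3,4,5,8,9,10,11] (Pf.cons (Pf.B 12 11 (Pf.B 12 10 (Pf.B 12 9 (Pf.B 12 8 (Pf.B 12 5 (Pf.B 12 3 (Pf.B 12 2 (Pf.B 8 5 (Pf.C 0 0x3000a1614208) (Pf.B 8 3 (Pf.B 8 2 (Pf.C 0 0x2c2031808008) (Pf.C 0 0x14402140c00b)) (Pf.C 0 0x14403182800b))) (Pf.C 2 268)) (Pf.C 2 396)) (Pf.C 2 652)) (Pf.C 0 0x206001210506)) (Pf.C 25 1545)) (Pf.C 2 1292)) (Pf.C 2 1420)) Pf.nil)) (Pf.B 11 6 (Pf.C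 0 0x205840e00506) (Pf.W 26 6 [] [0,4,8,9,10,11] (Pf.cons (Pf.B 12 11 (Pf.B 12 10 (Pf.B 12 9 (Pf.B 12 8 (Pf.C 0 0x245040c2058c) (Pf.C 0 0x6080c10589)) (Pf.C 25 1545)) (Pf.C 2 1292)) (Pf.C 2 1420)) Pf.nil)))) (Pf.B 11 8 (Pf.B 11 6 (Pf.W 22 9 [] [0,4,6,7,8,10,11] (Pf.cons (Pf.B 12 11 (Pf.B 12 10 (Pf.B 12 8 (Pf.B 12 6 (Pf.W 26 6 [] [0,4,10,11,12] (Pf.cons (Pf.B 13 12 (Pf.B 13 11 (Pf.B 13 10 (Pf.C 0 0x3400a182c206) (Pf.C 2 1293)) (Pf.C 2 1421)) (Pf.C 2 1549)) Pf.nil)) (Pf.C 0 0x186041200508)) (Pf.B 12 7 (Pf.B 12 6 (Pf.C 0 0x206040e00506) (Pf.C 0 0x245841018600)) (Pf.C 0 0x24584101c600))) (Pf.C 2 1292)) (Pf.C 2 1420)) Pf.nil)) (Pf.C 0 0x185840e00508)) (Pf.B 11 6 (Pf.C 0 0x205840e00506) (Pf.W 26 6 [] [0,4,7,8,9,10,11]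 (Pf.cons (Pf.B 12 11 (Pf.B 12 10 (Pf.B 12 9 (Pf.B 12 8 (Pf.B 12 7 (Pf.C 0 0x1c504101858c) (Pf.C 25 1543)) (Pf.C 0 0x206001210506)) (Pf.C 25 1545)) (Pf.C 2 1292)) (Pf.C 2 1420)) Pf.nil))))) (Pf.C 2 267)) (Pf.C 2 395)) (Pf.C 2 651)) (Pf.C 2 1291)) Pf.nil)) (Pf.W 20 8 [] [0,2,4,5,6,7,9,10] (Pf.cons (Pf.B 11 10 (Pf.B 11 9 (Pf.C 21 1417) (Pf.B 11 7 (Pf.C 21 1415) (Pf.B 11 5 (Pf.B 11 2 (Pf.B 11 6 (Pf.W 22 7 [] [0,4,5,6,8,9,10,11] (Pf.cons (Pf.B 12 11 (Pf.B 12 10 (Pf.B 12 5 (Pf.B 12 9 (Pf.B 12 8 (Pf.W 26 6 [] [0,4,5,8,9,10,11,12] (Pf.cons (Pf.B 13 12 (Pf.B 13 11 (Pf.B 13 10 (Pf.B 13 9 (Pf.B 13 8 (Pf.B 13 5 (Pf.B 8 5 (Pf.C 0 0x3400b1814208) (Pf.C 0 0x1440a1a2c00c)) (Pf.C 2 653)) (Pf.C 0 0x206801210586))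 (Pf.C 25 1673)) (Pf.C 2 1293)) (Pf.C 2 1421)) (Pf.C 2 1549)) Pf.nil)) (Pf.B 12 6 (Pf.C 0 0x206040e00586) (Pf.W 26 6 [] [0,4,8,9,11,12] (Pf.cons (Pf.B 13 12 (Pf.B 13 11 (Pf.B 13 9 (Pf.B 13 8 (Pf.C 0 0x245840c2060d) (Pf.C 0 0x6880c10609)) (Pf.C 25 1673)) (Pf.C 2 1421)) (Pf.C 2 1549)) Pf.nil)))) (Pf.B 12 8 (Pf.B 12 6 (Pf.W 22 9 [] [0,4,6,7,8,11,12] (Pf.cons (Pf.B 13 12 (Pf.B 13 11 (Pf.B 13 8 (Pf.B 13 6 (Pf.W 26 6 [] [0,4,11,12,13] (Pf.cons (Pf.B 14 13 (Pf.B 14 12 (Pf.B 14 11 (Pf.C 0 0x3800b1a30206) (Pf.C 2 1422)) (Pf.C 2 1550)) (Pf.C 2 1678)) Pf.nil)) (Pf.C 0 0x186841200588)) (Pf.B 13 7 (Pf.B 13 6 (Pf.C 0 0x206840e00586) (Pf.C 0 0x246041018680)) (Pf.C 0 0x24604101c680))) (Pf.C 2 1421)) (Pf.C 2 1549))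 Pf.nil)) (Pf.C 0 0x186040e00588)) (Pf.B 12 6 (Pf.C 0 0x206040e00586) (Pf.W 26 6 [] [0,4,7,8,9,11,12] (Pf.cons (Pf.B 13 12 (Pf.B 13 11 (Pf.B 13 9 (Pf.B 13 8 (Pf.B 13 7 (Pf.C 0 0x1c584101860d) (Pf.C 25 1671)) (Pf.C 0 0x206801210586)) (Pf.C 25 1673)) (Pf.C 2 1421)) (Pf.C 2 1549)) Pf.nil))))) (Pf.C 2 652)) (Pf.C 2 1292)) (Pf.C 2 1420)) Pf.nil)) (Pf.W 22 7 [] [0,2,4,5,6,8,9,10,11] (Pf.cons (Pf.B 12 11 (Pf.B 12 10 (Pf.B 12 5 (Pf.B 12 2 (Pf.B 12 9 (Pf.B 12 8 (Pf.B 12 6 (Pf.W 26 6 [] [0,4,5,8,9,10,11,12] (Pf.cons (Pf.B 13 12 (Pf.B 13 11 (Pf.B 13 10 (Pf.B 13 9 (Pf.B 13 8 (Pf.B 13 5 (Pf.B 8 5 (Pf.C 0 0x3400b1814208) (Pf.C 0 0x1440a1a2c00c)) (Pf.C 2 653)) (Pf.C 0 0x20680121858c)) (Pf.C 25 1673)) (Pf.C 2 1293))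 (Pf.C 2 1421)) (Pf.C 2 1549)) Pf.nil)) (Pf.W 26 6 [] [4,7,9,10,12] (Pf.cons (Pf.B 13 12 (Pf.B 13 10 (Pf.B 13 9 (Pf.B 13 7 (Pf.C 0 0x18604121c50d) (Pf.C 25 1671)) (Pf.C 25 1673)) (Pf.C 2 1293)) (Pf.C 2 1549)) Pf.nil))) (Pf.W 26 8 [] [4,7,9,11,12] (Pf.cons (Pf.B 13 12 (Pf.B 13 11 (Pf.B 13 9 (Pf.B 13 7 (Pf.C 0 0x20604121c58d) (Pf.C 25 1671)) (Pf.C 25 1673)) (Pf.C 2 1421)) (Pf.C 2 1549)) Pf.nil))) (Pf.B 12 8 (Pf.B 12 6 (Pf.W 22 9 [] [0,2,4,5,6,7,8,10,11,12] (Pf.cons (Pf.B 13 12 (Pf.B 13 11 (Pf.B 13 10 (Pf.B 13 5 (Pf.B 13 2 (Pf.B 13 8 (Pf.B 8 2 (Pf.C 0 0x800b1a30208) (Pf.B 9 2 (Pf.C 0 0x840a182c48d) (Pf.B 7 2 (Pf.C 0 0x106091000107) (Pf.B 6 2 (Pf.C 0 0x106090e00106) (Pf.B 13 6 (Pf.W 26 6 [] [0,4,10,12,13]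 (Pf.cons (Pf.B 14 13 (Pf.B 14 12 (Pf.B 14 10 (Pf.C 0 0x3800a1a30206) (Pf.C 2 1294)) (Pf.C 2 1550)) (Pf.C 2 1678)) Pf.nil)) (Pf.C 0 0x28402163430c)))))) (Pf.B 13 6 (Pf.B 8 5 (Pf.B 9 5 (Pf.C 0 0x3440a182c485) (Pf.B 6 5 (Pf.C 0 0x3440a1814486) (Pf.C 0 0x206841218280))) (Pf.C 0 0x2c00a1a1440c)) (Pf.C 0 0x246041018680))) (Pf.C 2 269)) (Pf.C 2 653)) (Pf.C 2 1293)) (Pf.C 2 1421)) (Pf.C 2 1549)) Pf.nil)) (Pf.W 26 8 [] [0,4,6,7,9,10,12] (Pf.cons (Pf.B 13 12 (Pf.B 13 10 (Pf.B 13 9 (Pf.B 13 7 (Pf.B 13 6 (Pf.C 0 0x18604101c50d) (Pf.C 0 0x6861210607)) (Pf.C 25 1671)) (Pf.C 25 1673)) (Pf.C 2 1293)) (Pf.C 2 1549)) Pf.nil))) (Pf.B 12 6 (Pf.W 26 6 [] [0,4,7,8,9,11,12] (Pf.cons (Pf.B 13 12 (Pf.B 13 11 (Pf.B 13 9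 (Pf.B 13 8 (Pf.B 13 7 (Pf.C 0 0x206040c1c58d) (Pf.C 25 1671)) (Pf.C 0 0x6881210606)) (Pf.C 25 1673)) (Pf.C 2 1421)) (Pf.C 2 1549)) Pf.nil)) (Pf.W 22 9 [] [0,4,5,6,7,10,11,12] (Pf.cons (Pf.B 13 12 (Pf.B 13 11 (Pf.B 13 10 (Pf.B 13 5 (Pf.B 13 7 (Pf.B 13 6 (Pf.C 0 0x186090e0050d) (Pf.W 26 6 [] [4,7,9,10,13] (Pf.cons (Pf.B 14 13 (Pf.B 14 10 (Pf.B 14 9 (Pf.B 14 7 (Pf.C 0 0x18684121c50e) (Pf.C 25 1799)) (Pf.C 25 1801)) (Pf.C 2 1294)) (Pf.C 2 1678)) Pf.nil))) (Pf.B 13 6 (Pf.C 0 0x1c6841218600) (Pf.B 6 5 (Pf.C 0 0x2800b1a30305) (Pf.W 26 6 [] [0,5,9,10,11,12,13] (Pf.cons (Pf.B 14 13 (Pf.B 14 12 (Pf.B 14 11 (Pf.B 14 10 (Pf.B 14 9 (Pf.B 14 5 (Pf.B 9 5 (Pf.C 0 0x2848b1a1430e) (Pf.C 0 0x3800a181448d)) (Pf.C 2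 654)) (Pf.C 25 1801)) (Pf.C 2 1294)) (Pf.C 2 1422)) (Pf.C 2 1550)) (Pf.C 2 1678)) Pf.nil))))) (Pf.C 2 653)) (Pf.C 2 1293)) (Pf.C 2 1421)) (Pf.C 2 1549)) Pf.nil))))) (Pf.C 2 268)) (Pf.C 2 652)) (Pf.C 2 1292)) (Pf.C 2 1420)) Pf.nil))) (Pf.C 2 267)) (Pf.C 2 651)))) (Pf.C 2 1291)) Pf.nil))) (Pf.C 2 266)) (Pf.C 2 394)) (Pf.C 2 650)))) Pf.nil)))
 (Pq.cons (Pq.L [] 4 (Pf.C 1 1031))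
 (Pq.cons (Pq.L [] 4 (Pf.C 1 1158))
 (Pq.cons (Pq.L [] 1 (Pf.C 1 902))
 (Pq.cons (Pq.L [] 1 (Pf.C 1 1159))
 (Pq.cons (Pq.L [] 1 (Pf.C 1 1030))
 (Pq.cons (Pq.L [0,2,3,4,5] 3 (Pf.B 9 7 (Pf.B 9 6 (Pf.C 27 0x1c486) (Pf.B 9 5 (Pf.B 9 3 (Pf.B 9 2 (Pf.B 8 7 (Pf.C 27 0x24388) (Pf.B 8 6 (Pf.B 7 5 (Pf.B 7 3 (Pf.B 7 2 (Pf.B 8 5 (Pf.B 8 3 (Pf.B 6 5 (Pf.B 6 3 (Pf.W 28 6 [] [0,3,4,5,7] (Pf.cons (Pf.B 10 7 (Pf.B 10 5 (Pf.B 10 3 (Pf.C 0 0x1c0030a28206) (Pf.C 2 394)) (Pf.C 2 650)) (Pf.C 2 906)) Pf.nil)) (Pf.W 20 6 [] [3,4,5,7,9] (Pf.cons (Pf.B 10 9 (Pf.B 10 7 (Pf.B 10 5 (Pf.B 10 3 (Pf.C 0 0x243030a28207) (Pf.C 2 394)) (Pf.C 2 650)) (Pf.C 2 906)) (Pf.C 2 1162)) Pf.nil))) (Pf.B 6 3 (Pf.W 20 6 [] [3,4,5,7,9] (Pf.cons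 (Pf.B 10 9 (Pf.B 10 7 (Pf.B 10 5 (Pf.B 10 3 (Pf.C 0 0x243050628207) (Pf.C 2 394)) (Pf.C 2 650)) (Pf.C 2 906)) (Pf.C 2 1162)) Pf.nil)) (Pf.W 28 6 [] [0,3,4,5,7,8,9] (Pf.cons (Pf.B 10 9 (Pf.B 10 7 (Pf.B 10 5 (Pf.B 10 3 (Pf.B 10 8 (Pf.C 0 0x240030a28208) (Pf.C 0 0x1c40a0a0c209)) (Pf.C 2 394)) (Pf.C 2 650)) (Pf.C 2 906)) (Pf.C 2 1162)) Pf.nil)))) (Pf.W 20 8 [] [3,4,5,7,9] (Pf.cons (Pf.B 10 9 (Pf.B 10 7 (Pf.B 10 5 (Pf.B 10 3 (Pf.C 0 0x1c4030a28209) (Pf.C 2 394)) (Pf.C 2 650)) (Pf.C 2 906)) (Pf.C 2 1162)) Pf.nil))) (Pf.B 8 3 (Pf.W 20 8 [] [3,4,5,7,9] (Pf.cons (Pf.B 10 9 (Pf.B 10 7 (Pf.B 10 5 (Pf.B 10 3 (Pf.C 0 0x1c4050628209) (Pf.C 2 394)) (Pf.C 2 650)) (Pf.C 2 906)) (Pf.C 2 1162)) Pf.nil)) (Pf.B 8 2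 (Pf.B 6 5 (Pf.B 6 3 (Pf.W 28 6 [] [0,3,4,5,7] (Pf.cons (Pf.B 10 7 (Pf.B 10 5 (Pf.B 10 3 (Pf.C 0 0x1c0030a28206) (Pf.C 2 394)) (Pf.C 2 650)) (Pf.C 2 906)) Pf.nil)) (Pf.B 6 2 (Pf.C 0 0x243030e14402) (Pf.C 0 0x142031208307))) (Pf.B 6 3 (Pf.B 6 2 (Pf.C 0 0x243050e0c402) (Pf.C 0 0xc2051208307)) (Pf.B 6 2 (Pf.W 28 6 [] [0,2,3,5,7] (Pf.cons (Pf.B 10 7 (Pf.B 10 5 (Pf.B 10 3 (Pf.B 10 2 (Pf.C 0 0x143030e0800a) (Pf.C 2 266)) (Pf.C 2 394)) (Pf.C 2 650)) (Pf.C 2 906)) Pf.nil)) (Pf.W 20 6 [] [2,3,4,7,9] (Pf.cons (Pf.B 10 9 (Pf.B 10 7 (Pf.B 10 3 (Pf.B 10 2 (Pf.C 0 0x282031208307) (Pf.C 2 266)) (Pf.C 2 394)) (Pf.C 2 906)) (Pf.C 2 1162)) Pf.nil))))) (Pf.W 20 8 [] [2,3,4,7,9] (Pf.cons (Pf.B 10 9 (Pf.B 10 7 (Pf.B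 10 3 (Pf.B 10 2 (Pf.C 0 0x282030e08409) (Pf.C 2 266)) (Pf.C 2 394)) (Pf.C 2 906)) (Pf.C 2 1162)) Pf.nil))))) (Pf.C 2 263)) (Pf.C 2 391)) (Pf.C 2 647)) (Pf.C 1 776))) (Pf.C 2 265)) (Pf.C 2 393)) (Pf.C 2 649))) (Pf.C 2 905)))
 (Pq.cons (Pq.L [0,1,2,3,4,5] 7 (Pf.B 11 9 (Pf.B 11 8 (Pf.C 27 0x24588) (Pf.B 11 7 (Pf.B 11 6 (Pf.C 27 0x1c586) (Pf.B 11 5 (Pf.B 11 3 (Pf.B 11 2 (Pf.B 11 1 (Pf.B 10 9 (Pf.C 27 0x2c48a) (Pf.B 10 8 (Pf.B 10 7 (Pf.C 27 0x2c38a) (Pf.B 10 6 (Pf.B 9 7 (Pf.B 9 6 (Pf.C 27 0x1c486) (Pf.B 9 5 (Pf.B 9 3 (Pf.B 9 2 (Pf.B 9 1 (Pf.B 8 7 (Pf.C 27 0x24388) (Pf.B 8 6 (Pf.B 7 5 (Pf.B 7 3 (Pf.B 7 2 (Pf.B 7 1 (Pf.B 10 5 (Pf.B 10 3 (Pf.B 10 2 (Pf.C 0 0x14203160800a) (Pf.B 10 1 (Pf.C 0 0x14203160400a)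 (Pf.B 8 2 (Pf.C 0 0x2c4071208504) (Pf.B 8 1 (Pf.C 0 0x2c4021204504) (Pf.B 6 2 (Pf.C 0 0x2c3090e08504) (Pf.B 6 1 (Pf.C 0 0x243020e04404) (Pf.B 8 5 (Pf.B 8 3 (Pf.B 6 5 (Pf.B 6 3 (Pf.C 0 0x101801420386) (Pf.C 0 0x1c401120c305)) (Pf.C 0 0x102861400488)) (Pf.C 0 0x24501160c405)) (Pf.B 6 5 (Pf.C 0 0x102881400386) (Pf.W 20 6 [] [4,5,7,9,11] (Pf.cons (Pf.B 12 11 (Pf.B 12 9 (Pf.B 12 7 (Pf.B 12 5 (Pf.C 0 0x302051624307) (Pf.C 2 652)) (Pf.C 2 908)) (Pf.C 2 1164)) (Pf.C 2 1420)) Pf.nil)))))))))) (Pf.C 0 0x14203121c50b)) (Pf.B 8 5 (Pf.B 6 5 (Pf.C 0 0x1028a1000386) (Pf.W 20 6 [] [4,5,7,9,11] (Pf.cons (Pf.B 12 11 (Pf.B 12 9 (Pf.B 12 7 (Pf.B 12 5 (Pf.C 0 0x302051624307) (Pf.C 2 652)) (Pf.C 2 908)) (Pf.C 2 1164))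 (Pf.C 2 1420)) Pf.nil))) (Pf.W 20 8 [] [4,5,7,9,11] (Pf.cons (Pf.B 12 11 (Pf.B 12 9 (Pf.B 12 7 (Pf.B 12 5 (Pf.C 0 0x30205161c409) (Pf.C 2 652)) (Pf.C 2 908)) (Pf.C 2 1164)) (Pf.C 2 1420)) Pf.nil)))) (Pf.C 2 135)) (Pf.C 2 263)) (Pf.C 2 391)) (Pf.C 2 647)) (Pf.C 1 776))) (Pf.C 2 137)) (Pf.C 2 265)) (Pf.C 2 393)) (Pf.C 2 649))) (Pf.C 2 905)) (Pf.C 1 778))) (Pf.C 1 1034))) (Pf.C 2 139)) (Pf.C 2 267)) (Pf.C 2 395)) (Pf.C 2 651))) (Pf.C 2 907))) (Pf.C 2 1163)))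
 Pq.nil))))))))
theorem bD_o17 : AllRef bD_T bD_G25 (hitObl [25,32,33,35,36] bD_h39) :=
  chkPq_sound bD_o17c _ (by decide +kernel)
noncomputable def bD_o18c : Pq := (Pq.cons (Pq.L [0,1,2,3,4,5] 16383 (Pf.B 11 5 (Pf.B 11 3 (Pf.B 11 2 (Pf.B 11 1 (Pf.B 10 8 (Pf.B 8 5 (Pf.B 8 3 (Pf.B 8 2 (Pf.B 8 1 (Pf.B 10 5 (Pf.B 10 3 (Pf.B 10 2 (Pf.C 0 0x8003101420a) (Pf.B 9 5 (Pf.B 9 3 (Pf.B 9 2 (Pf.C 0 0x80031014209) (Pf.B 7 3 (Pf.B 7 2 (Pf.C 0 0x105891400107) (Pf.B 6 3 (Pf.B 6 2 (Pf.C 0 0x10180121c106) (Pf.W 20 6 [] [0,2,3,4,8,9,10,11] (Pf.cons (Pf.B 12 11 (Pf.B 12 10 (Pf.C 21 1546) (Pf.B 12 9 (Pf.C 0 0x245841400606) (Pf.B 12 8 (Pf.B 12 3 (Pf.B 12 2 (Pf.C 0 0x203021630483) (Pf.C 2 268)) (Pf.C 2 396)) (Pf.C 2 1036))))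 (Pf.C 2 1420)) Pf.nil))) (Pf.C 0 0x245840018187))) (Pf.C 0 0x24584001c18a))) (Pf.B 6 3 (Pf.C 0 0x18404120018a) (Pf.B 6 5 (Pf.W 20 6 [] [0,3,4,5,8,9,10,11] (Pf.cons (Pf.B 12 11 (Pf.B 12 10 (Pf.C 21 1546) (Pf.B 12 9 (Pf.C 0 0x245841400606) (Pf.B 12 8 (Pf.B 12 5 (Pf.B 12 3 (Pf.C 0 0x203031630485) (Pf.C 2 396)) (Pf.C 2 652)) (Pf.C 2 1036)))) (Pf.C 2 1420)) Pf.nil)) (Pf.C 0 0x2c483101430a)))) (Pf.B 9 3 (Pf.B 9 2 (Pf.B 9 1 (Pf.C 0 0x202030404009) (Pf.C 0 0x80011614488)) (Pf.C 0 0xc0021614488)) (Pf.B 6 3 (Pf.C 0 0x18404120018a) (Pf.B 6 5 (Pf.C 0 0x20303161448a) (Pf.W 20 6 [] [0,3,5,8,11] (Pf.cons (Pf.B 12 11 (Pf.B 12 8 (Pf.B 12 5 (Pf.B 12 3 (Pf.C 0 0x30003101430b) (Pf.C 2 396)) (Pf.C 2 652)) (Pf.C 2 1036))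 (Pf.C 2 1420)) Pf.nil))))))) (Pf.B 10 2 (Pf.B 10 1 (Pf.B 9 5 (Pf.B 9 2 (Pf.B 9 3 (Pf.C 0 0x80031014209) (Pf.B 9 1 (Pf.C 0 0x2c4830404005) (Pf.C 0 0x44831014202))) (Pf.C 0 0x848b101420a)) (Pf.B 9 3 (Pf.B 9 2 (Pf.B 9 1 (Pf.C 0 0x202030404009) (Pf.C 0 0x80011614488)) (Pf.C 0 0xc0021614488)) (Pf.B 9 2 (Pf.C 0 0x80031614488) (Pf.B 9 1 (Pf.C 0 0x40021614488) (Pf.C 0 0x20205040448a))))) (Pf.C 0 0x45031014202)) (Pf.B 10 1 (Pf.C 0 0x85031014201) (Pf.B 9 5 (Pf.B 9 3 (Pf.B 9 2 (Pf.C 0 0x80031014209) (Pf.B 7 3 (Pf.C 0 0x245841400187) (Pf.B 7 2 (Pf.C 0 0x105891400107) (Pf.B 6 3 (Pf.C 0 0x245840e00186) (Pf.B 6 2 (Pf.C 0 0x105890e00106) (Pf.B 6 5 (Pf.C 0 0x2c482100c305) (Pf.W 20 6 [] [0,3,5,8,11] (Pf.cons (Pf.B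 12 11 (Pf.B 12 8 (Pf.B 12 5 (Pf.B 12 3 (Pf.C 0 0x30003101430b) (Pf.C 2 396)) (Pf.C 2 652)) (Pf.C 2 1036)) (Pf.C 2 1420)) Pf.nil)))))))) (Pf.B 9 2 (Pf.B 9 1 (Pf.C 0 0x2c4830404005) (Pf.C 0 0x44831014202)) (Pf.B 9 1 (Pf.C 0 0x84831014201) (Pf.B 7 1 (Pf.C 0 0x105891400087) (Pf.B 6 1 (Pf.C 0 0x105890e00086) (Pf.B 6 5 (Pf.B 6 3 (Pf.C 0 0x20301160c485) (Pf.W 20 6 [] [0,3,4,5,8,9,10,11] (Pf.cons (Pf.B 12 11 (Pf.B 12 10 (Pf.C 21 1546) (Pf.B 12 9 (Pf.C 0 0x245841400606) (Pf.B 12 8 (Pf.B 12 5 (Pf.B 12 3 (Pf.C 0 0x203031630485) (Pf.C 2 396)) (Pf.C 2 652)) (Pf.C 2 1036)))) (Pf.C 2 1420)) Pf.nil))) (Pf.B 6 3 (Pf.C 0 0xc001101430b) (Pf.W 20 6 [] [0,3,5,8,11] (Pf.cons (Pf.B 12 11 (Pf.B 12 8 (Pf.B 12 5 (Pf.B 12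 3 (Pf.C 0 0x30003101430b) (Pf.C 2 396)) (Pf.C 2 652)) (Pf.C 2 1036)) (Pf.C 2 1420)) Pf.nil))))))))) (Pf.B 9 3 (Pf.B 9 2 (Pf.B 9 1 (Pf.C 0 0x202030404009) (Pf.C 0 0x80011614488)) (Pf.C 0 0xc0021614488)) (Pf.W 20 9 [] [0,3,5,8,11] (Pf.cons (Pf.B 12 11 (Pf.B 12 8 (Pf.B 12 5 (Pf.B 12 3 (Pf.C 0 0x300031614488) (Pf.C 2 396)) (Pf.C 2 652)) (Pf.C 2 1036)) (Pf.C 2 1420)) Pf.nil))))))) (Pf.B 10 3 (Pf.B 10 2 (Pf.C 0 0x8003162020a) (Pf.B 9 5 (Pf.B 7 5 (Pf.B 7 2 (Pf.C 0 0x85051620207) (Pf.B 9 2 (Pf.C 0 0x1028a0e00109) (Pf.B 9 3 (Pf.B 7 3 (Pf.B 6 5 (Pf.B 6 3 (Pf.B 6 2 (Pf.C 0 0x105890e00106) (Pf.W 20 6 [] [2,3,5,8,10] (Pf.cons (Pf.B 12 10 (Pf.C 21 1546) (Pf.B 12 8 (Pf.B 12 5 (Pf.B 12 3 (Pf.B 12 2 (Pf.C 0 0x203020a30503)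 (Pf.C 2 268)) (Pf.C 2 396)) (Pf.C 2 652)) (Pf.C 2 1036))) Pf.nil))) (Pf.C 0 0x282840018187)) (Pf.C 0 0x245841418280)) (Pf.C 0 0x28284001c189)) (Pf.C 0 0x14502160c488)))) (Pf.C 0 0x24584141c280)) (Pf.B 6 5 (Pf.C 0 0x184041424280) (Pf.B 9 3 (Pf.B 9 2 (Pf.B 9 1 (Pf.C 0 0x202030404009) (Pf.C 0 0x80011614488)) (Pf.C 0 0xc0021614488)) (Pf.B 6 3 (Pf.C 0 0x18404120018a) (Pf.W 20 6 [] [3,5,8,10,11] (Pf.cons (Pf.B 12 11 (Pf.B 12 10 (Pf.C 21 1546) (Pf.B 12 8 (Pf.B 12 5 (Pf.B 12 3 (Pf.C 0 0x30505100c30b) (Pf.C 2 396)) (Pf.C 2 652)) (Pf.C 2 1036))) (Pf.C 2 1420)) Pf.nil))))))) (Pf.B 10 2 (Pf.B 10 1 (Pf.C 0 0x145030404008) (Pf.C 0 0x45031620202)) (Pf.B 9 5 (Pf.B 7 5 (Pf.B 7 2 (Pf.C 0 0x85051620207) (Pf.B 9 2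 (Pf.C 0 0x1028a0e00109) (Pf.B 9 3 (Pf.C 0 0x2c4820a0c508) (Pf.B 6 5 (Pf.B 6 2 (Pf.C 0 0x1028a0e00106) (Pf.B 6 3 (Pf.C 0 0x20302160c485) (Pf.W 20 6 [] [0,3,4,5,8,9,10,11] (Pf.cons (Pf.B 12 11 (Pf.B 12 10 (Pf.C 21 1546) (Pf.B 12 9 (Pf.C 0 0x245841400606) (Pf.B 12 8 (Pf.B 12 5 (Pf.B 12 3 (Pf.C 0 0x203031630485) (Pf.C 2 396)) (Pf.C 2 652)) (Pf.C 2 1036)))) (Pf.C 2 1420)) Pf.nil)))) (Pf.C 0 0x245841418280))))) (Pf.C 0 0x24584141c280)) (Pf.B 6 5 (Pf.C 0 0x184041424280) (Pf.B 9 3 (Pf.B 9 2 (Pf.C 0 0x2c4850608508) (Pf.C 0 0xc0021614488)) (Pf.B 9 2 (Pf.C 0 0x80031614488) (Pf.B 7 2 (Pf.C 0 0x105891400107) (Pf.B 6 2 (Pf.C 0 0x105890e00106) (Pf.B 6 3 (Pf.C 0 0xc002101430b) (Pf.W 20 6 [] [0,3,5,8,11] (Pf.cons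 (Pf.B 12 11 (Pf.B 12 8 (Pf.B 12 5 (Pf.B 12 3 (Pf.C 0 0x30003101430b) (Pf.C 2 396)) (Pf.C 2 652)) (Pf.C 2 1036)) (Pf.C 2 1420)) Pf.nil)))))))))))) (Pf.C 2 136)) (Pf.C 2 264)) (Pf.C 2 392)) (Pf.C 2 648)) (Pf.C 0 0x245840c28400)) (Pf.C 2 139)) (Pf.C 2 267)) (Pf.C 2 395)) (Pf.C 2 651)))
 (Pq.cons (Pq.L [0,4] 0xc49ee3f (Pf.B 10 8 (Pf.W 20 6 [] [0,4,8,9,10,11,14] (Pf.cons (Pf.B 15 14 (Pf.B 15 11 (Pf.B 15 10 (Pf.C 21 1930) (Pf.B 15 9 (Pf.C 0 0x245841400786) (Pf.B 15 8 (Pf.C 0 0x18409140078e) (Pf.C 2 1039)))) (Pf.C 2 1423)) (Pf.C 2 1807)) Pf.nil)) (Pf.W 20 6 [] [0,7,8,10,11] (Pf.cons (Pf.B 15 11 (Pf.B 15 10 (Pf.C 21 1930) (Pf.B 15 8 (Pf.B 15 7 (Pf.C 21 1927) (Pf.C 0 0x1840a001c78b)) (Pf.C 2 1039))) (Pf.C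 2 1423)) Pf.nil))))
 (Pq.cons (Pq.L [0,4] 0x937627 (Pf.B 10 8 (Pf.C 0 0x184040e28700) (Pf.C 0 0x1c5840c28400)))
 (Pq.cons (Pq.L [0,4] 0x3f9123f8 (Pf.B 13 8 (Pf.B 14 10 (Pf.B 10 8 (Pf.B 13 11 (Pf.W 20 9 [] [0,4,8,10,11,12,13,14] (Pf.cons (Pf.B 15 14 (Pf.B 15 13 (Pf.C 21 1933) (Pf.B 15 11 (Pf.B 15 12 (Pf.C 0 0x245841a0078c) (Pf.B 15 10 (Pf.C 21 1930) (Pf.B 15 8 (Pf.C 0 0x2470c1400788) (Pf.C 2 1039)))) (Pf.C 2 1423))) (Pf.C 2 1807)) Pf.nil)) (Pf.W 20 9 [] [0,8,10,11,13] (Pf.cons (Pf.B 15 13 (Pf.C 21 1933) (Pf.B 15 11 (Pf.B 15 10 (Pf.C 21 1930) (Pf.B 15 8 (Pf.C 0 0x2458d1400788) (Pf.C 2 1039))) (Pf.C 2 1423))) Pf.nil))) (Pf.C 0 0x284041824700)) (Pf.B 13 11 (Pf.W 20 9 [] [0,4,8,11,12,13,14] (Pf.cons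 (Pf.B 15 14 (Pf.B 15 13 (Pf.C 21 1933) (Pf.B 15 11 (Pf.B 15 12 (Pf.C 0 0x245841a0078c) (Pf.B 15 8 (Pf.C 0 0x2470c1a00788) (Pf.C 2 1039))) (Pf.C 2 1423))) (Pf.C 2 1807)) Pf.nil)) (Pf.C 0 0x345841828700))) (Pf.C 0 0x344041824700)))
 (Pq.cons (Pq.L [0,2,3,4,5] 0x200201002 (Pf.B 8 5 (Pf.B 8 3 (Pf.B 8 2 (Pf.W 20 6 [] [0,2,3,4,5,7,8,11,14] (Pf.cons (Pf.B 15 14 (Pf.B 15 11 (Pf.B 15 8 (Pf.B 15 5 (Pf.B 15 3 (Pf.W 24 7 [] [0,2,3,4,5,6,8,11,14,15] (Pf.cons (Pf.B 16 15 (Pf.B 16 14 (Pf.B 16 11 (Pf.B 16 5 (Pf.B 16 3 (Pf.B 16 2 (Pf.B 16 6 (Pf.W 28 6 [] [0,2,3,4,5,8,15,16] (Pf.cons (Pf.B 17 16 (Pf.B 17 15 (Pf.B 17 8 (Pf.B 17 5 (Pf.B 17 3 (Pf.B 17 2 (Pf.B 6 5 (Pf.C 0 0x4000f2214206) (Pf.B 6 3 (Pf.B 6 2 (Pf.C 0 0x442032008006)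 (Pf.C 0 0xc0021014311)) (Pf.C 0 0x3c0031014311))) (Pf.C 2 273)) (Pf.C 2 401)) (Pf.C 2 657)) (Pf.C 2 1041)) (Pf.C 2 1937)) (Pf.C 2 2065)) Pf.nil)) (Pf.W 28 6 [] [0,11,14,15,16] (Pf.cons (Pf.B 17 16 (Pf.B 17 15 (Pf.B 17 14 (Pf.B 17 11 (Pf.C 0 0x3c0101c2c311) (Pf.C 2 1425)) (Pf.C 2 1809)) (Pf.C 2 1937)) (Pf.C 2 2065)) Pf.nil))) (Pf.C 2 272)) (Pf.C 2 400)) (Pf.C 2 656)) (Pf.C 2 1424)) (Pf.C 2 1808)) (Pf.C 2 1936)) Pf.nil)) (Pf.C 2 399)) (Pf.C 2 655)) (Pf.C 2 1039)) (Pf.C 2 1423)) (Pf.C 2 1807)) Pf.nil)) (Pf.C 2 264)) (Pf.C 2 392)) (Pf.C 2 648)))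
 (Pq.cons (Pq.L [0] 0x8440041045008100 (Pf.W 20 6 [] [0,11,13,14,17] (Pf.cons (Pf.B 18 17 (Pf.B 18 14 (Pf.B 18 13 (Pf.C 21 2317) (Pf.B 18 11 (Pf.W 28 6 [] [0,11,13,14,17,18] (Pf.cons (Pf.B 19 18 (Pf.B 19 17 (Pf.B 19 14 (Pf.B 19 11 (Pf.B 19 13 (Pf.C 0 0x4868b2238313) (Pf.C 0 0x4c68b2238300)) (Pf.C 2 1427)) (Pf.C 2 1811)) (Pf.C 2 2195)) (Pf.C 2 2323)) Pf.nil)) (Pf.C 2 1426))) (Pf.C 2 1810)) (Pf.C 2 2194)) Pf.nil)))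
 (Pq.cons (Pq.L [0] 0x8440041045008100 (Pf.W 20 6 [] [0,11,13,14,17] (Pf.cons (Pf.B 18 17 (Pf.B 18 14 (Pf.B 18 13 (Pf.C 21 2317) (Pf.B 18 11 (Pf.W 28 6 [] [0,11,13,14,17,18] (Pf.cons (Pf.B 19 18 (Pf.B 19 17 (Pf.B 19 14 (Pf.B 19 11 (Pf.B 19 13 (Pf.C 0 0x486911c2c313) (Pf.C 0 0x4c6911c2c300)) (Pf.C 2 1427)) (Pf.C 2 1811)) (Pf.C 2 2195)) (Pf.C 2 2323)) Pf.nil)) (Pf.C 2 1426))) (Pf.C 2 1810)) (Pf.C 2 2194)) Pf.nil)))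
 (Pq.cons (Pq.L [0,4] 0x29f499452e5128ff8 (Pf.W 20 6 [] [0,4,7,9,10,11,12,13,14,15,16,17] (Pf.cons (Pf.B 18 17 (Pf.B 18 16 (Pf.C 21 2320) (Pf.B 18 14 (Pf.B 18 13 (Pf.C 21 2317) (Pf.B 18 11 (Pf.B 18 10 (Pf.C 21 2314) (Pf.B 18 15 (Pf.B 18 12 (Pf.B 18 9 (Pf.W 24 7 [] [0,4,6,9,11,12,13,14,15,16,17,18] (Pf.cons (Pf.B 19 18 (Pf.B 19 17 (Pf.B 19 14 (Pf.B 19 11 (Pf.B 19 16 (Pf.C 0 0x4c0121c2c811) (Pf.B 19 13 (Pf.C 0 0x4c012222c68e) (Pf.B 19 15 (Pf.B 19 6 (Pf.W 28 6 [] [0,4,14,15,16,17,18,19] (Pf.cons (Pf.B 20 19 (Pf.B 20 18 (Pf.B 20 17 (Pf.B 20 14 (Pf.B 20 16 (Pf.C 0 0x4430e2648814) (Pf.B 20 15 (Pf.C 0 0x40a040c3c880) (Pf.C 0 0x990083ca06))) (Pf.C 2 1812)) (Pf.C 2 2196)) (Pf.C 2 2324)) (Pf.C 2 2452)) Pf.nil))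 (Pf.W 28 6 [] [0,14,17,18,19] (Pf.cons (Pf.B 20 19 (Pf.B 20 18 (Pf.B 20 17 (Pf.B 20 14 (Pf.C 0 0x480132238314) (Pf.C 2 1812)) (Pf.C 2 2196)) (Pf.C 2 2324)) (Pf.C 2 2452)) Pf.nil))) (Pf.B 19 12 (Pf.B 19 9 (Pf.B 19 6 (Pf.W 28 6 [] [0,4,12,13,14,15,17,18,19] (Pf.cons (Pf.B 20 19 (Pf.B 20 18 (Pf.B 20 17 (Pf.B 20 14 (Pf.B 20 15 (Pf.C 0 0x480132238794) (Pf.B 20 13 (Pf.C 0 0x383112648694) (Pf.B 20 12 (Pf.C 0 0x34a040c30700) (Pf.C 0 0x9041e30a06)))) (Pf.C 2 1812)) (Pf.C 2 2196)) (Pf.C 2 2324)) (Pf.C 2 2452)) Pf.nil)) (Pf.C 0 0x109001e18989)) (Pf.C 0 0x109001e2498c)) (Pf.B 19 9 (Pf.C 0 0x109001e30989) (Pf.B 19 6 (Pf.C 0 0x109001824986) (Pf.W 28 6 [] [0,14,17,18,19] (Pf.cons (Pf.B 20 19 (Pf.B 20 18 (Pf.B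 20 17 (Pf.B 20 14 (Pf.C 0 0x480132238314) (Pf.C 2 1812)) (Pf.C 2 2196)) (Pf.C 2 2324)) (Pf.C 2 2452)) Pf.nil)))))))) (Pf.C 2 1427)) (Pf.C 2 1811)) (Pf.C 2 2195)) (Pf.C 2 2323)) Pf.nil)) (Pf.W 20 9 [] [0,4,6,12,13,14,15,16,17,18] (Pf.cons (Pf.B 19 18 (Pf.B 19 17 (Pf.B 19 16 (Pf.C 21 2448) (Pf.B 19 14 (Pf.B 19 13 (Pf.C 21 2445) (Pf.B 19 6 (Pf.W 28 6 [] [0,4,12,13,14,15,16,17,18,19] (Pf.cons (Pf.B 20 19 (Pf.B 20 18 (Pf.B 20 17 (Pf.B 20 14 (Pf.B 20 16 (Pf.C 0 0x4430e2648814) (Pf.B 20 15 (Pf.C 0 0x40a040c3c880) (Pf.B 20 13 (Pf.C 0 0x383112648694) (Pf.B 20 12 (Pf.C 0 0x34a040c30700) (Pf.C 0 0x9041e30a06))))) (Pf.C 2 1812)) (Pf.C 2 2196)) (Pf.C 2 2324)) (Pf.C 2 2452)) Pf.nil)) (Pf.W 28 6 [] [0,14,17,18,19]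 (Pf.cons (Pf.B 20 19 (Pf.B 20 18 (Pf.B 20 17 (Pf.B 20 14 (Pf.C 0 0x480132238314) (Pf.C 2 1812)) (Pf.C 2 2196)) (Pf.C 2 2324)) (Pf.C 2 2452)) Pf.nil)))) (Pf.C 2 1811))) (Pf.C 2 2195)) (Pf.C 2 2323)) Pf.nil))) (Pf.B 18 9 (Pf.W 20 12 [] [0,4,6,9,10,11,14,15,16,17,18] (Pf.cons (Pf.B 19 18 (Pf.B 19 17 (Pf.B 19 16 (Pf.C 21 2448) (Pf.B 19 14 (Pf.B 19 11 (Pf.B 19 10 (Pf.C 21 2442) (Pf.B 19 15 (Pf.B 19 6 (Pf.W 28 6 [] [0,4,12,14,15,16,17,18,19] (Pf.cons (Pf.B 20 19 (Pf.B 20 18 (Pf.B 20 17 (Pf.B 20 14 (Pf.B 20 16 (Pf.C 0 0x4430e2648814) (Pf.B 20 15 (Pf.C 0 0x40a040c3c880) (Pf.B 20 12 (Pf.C 0 0x4c0122238614) (Pf.C 0 0x9841e30a06)))) (Pf.C 2 1812)) (Pf.C 2 2196)) (Pf.C 2 2324)) (Pf.C 2 2452)) Pf.nil)) (Pf.W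 28 6 [] [0,14,17,18,19] (Pf.cons (Pf.B 20 19 (Pf.B 20 18 (Pf.B 20 17 (Pf.B 20 14 (Pf.C 0 0x480132238314) (Pf.C 2 1812)) (Pf.C 2 2196)) (Pf.C 2 2324)) (Pf.C 2 2452)) Pf.nil))) (Pf.B 19 9 (Pf.B 19 6 (Pf.W 28 6 [] [0,4,9,10,11,14,15,17,18,19] (Pf.cons (Pf.B 20 19 (Pf.B 20 18 (Pf.B 20 17 (Pf.B 20 14 (Pf.B 20 15 (Pf.C 0 0x480132238794) (Pf.B 20 11 (Pf.B 20 10 (Pf.C 0 0x2c30e2648514) (Pf.B 20 9 (Pf.C 0 0x28a040c24580) (Pf.C 0 0x9041e24a06))) (Pf.C 2 1428))) (Pf.C 2 1812)) (Pf.C 2 2196)) (Pf.C 2 2324)) (Pf.C 2 2452)) Pf.nil)) (Pf.C 0 0x309001e18989)) (Pf.B 19 6 (Pf.C 0 0x309001e24986) (Pf.W 28 6 [] [0,14,17,18,19] (Pf.cons (Pf.B 20 19 (Pf.B 20 18 (Pf.B 20 17 (Pf.B 20 14 (Pf.C 0 0x480132238314) (Pf.C 2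 1812)) (Pf.C 2 2196)) (Pf.C 2 2324)) (Pf.C 2 2452)) Pf.nil)))))) (Pf.C 2 1427)) (Pf.C 2 1811))) (Pf.C 2 2195)) (Pf.C 2 2323)) Pf.nil)) (Pf.W 20 9 [] [0,14,17,18] (Pf.cons (Pf.B 19 18 (Pf.B 19 17 (Pf.B 19 14 (Pf.W 28 9 [] [0,14,17,18,19] (Pf.cons (Pf.B 20 19 (Pf.B 20 18 (Pf.B 20 17 (Pf.B 20 14 (Pf.C 0 0x4c0122238494) (Pf.C 2 1812)) (Pf.C 2 2196)) (Pf.C 2 2324)) (Pf.C 2 2452)) Pf.nil)) (Pf.C 2 1811)) (Pf.C 2 2195)) (Pf.C 2 2323)) Pf.nil)))) (Pf.B 18 12 (Pf.B 18 9 (Pf.W 20 15 [] [0,4,6,9,10,11,12,13,14,17,18] (Pf.cons (Pf.B 19 18 (Pf.B 19 17 (Pf.B 19 14 (Pf.B 19 13 (Pf.C 21 2445) (Pf.B 19 11 (Pf.B 19 10 (Pf.C 21 2442) (Pf.B 19 12 (Pf.B 19 6 (Pf.W 28 6 [] [0,4,12,13,14,15,17,18,19] (Pf.cons (Pf.B 20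 19 (Pf.B 20 18 (Pf.B 20 17 (Pf.B 20 14 (Pf.B 20 15 (Pf.C 0 0x4c0122238794) (Pf.B 20 13 (Pf.C 0 0x383112648694) (Pf.B 20 12 (Pf.C 0 0x34a040c30700) (Pf.C 0 0x9841e30a06)))) (Pf.C 2 1812)) (Pf.C 2 2196)) (Pf.C 2 2324)) (Pf.C 2 2452)) Pf.nil)) (Pf.W 28 6 [] [0,14,17,18,19] (Pf.cons (Pf.B 20 19 (Pf.B 20 18 (Pf.B 20 17 (Pf.B 20 14 (Pf.C 0 0x480132238314) (Pf.C 2 1812)) (Pf.C 2 2196)) (Pf.C 2 2324)) (Pf.C 2 2452)) Pf.nil))) (Pf.B 19 9 (Pf.B 19 6 (Pf.W 28 6 [] [0,4,9,10,11,12,14,17,18,19] (Pf.cons (Pf.B 20 19 (Pf.B 20 18 (Pf.B 20 17 (Pf.B 20 14 (Pf.B 20 12 (Pf.C 0 0x480132238614) (Pf.B 20 11 (Pf.B 20 10 (Pf.C 0 0x2c30e2648514) (Pf.B 20 9 (Pf.C 0 0x28a040c24580) (Pf.C 0 0x9041824a06))) (Pf.C 2 1428))) (Pf.C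 2 1812)) (Pf.C 2 2196)) (Pf.C 2 2324)) (Pf.C 2 2452)) Pf.nil)) (Pf.C 0 0x3c9001818989)) (Pf.B 19 6 (Pf.C 0 0x3c9001824986) (Pf.W 28 6 [] [0,14,17,18,19] (Pf.cons (Pf.B 20 19 (Pf.B 20 18 (Pf.B 20 17 (Pf.B 20 14 (Pf.C 0 0x480132238314) (Pf.C 2 1812)) (Pf.C 2 2196)) (Pf.C 2 2324)) (Pf.C 2 2452)) Pf.nil)))))) (Pf.C 2 1427))) (Pf.C 2 1811)) (Pf.C 2 2195)) (Pf.C 2 2323)) Pf.nil)) (Pf.W 20 9 [] [0,14,17,18] (Pf.cons (Pf.B 19 18 (Pf.B 19 17 (Pf.B 19 14 (Pf.W 28 9 [] [0,14,17,18,19] (Pf.cons (Pf.B 20 19 (Pf.B 20 18 (Pf.B 20 17 (Pf.B 20 14 (Pf.C 0 0x4c0122238494) (Pf.C 2 1812)) (Pf.C 2 2196)) (Pf.C 2 2324)) (Pf.C 2 2452)) Pf.nil)) (Pf.C 2 1811)) (Pf.C 2 2195)) (Pf.C 2 2323)) Pf.nil))) (Pf.B 18 9 (Pf.W 20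 12 [] [0,4,6,9,10,11,14,17,18] (Pf.cons (Pf.B 19 18 (Pf.B 19 17 (Pf.B 19 14 (Pf.B 19 11 (Pf.B 19 10 (Pf.C 21 2442) (Pf.B 19 9 (Pf.B 19 6 (Pf.W 28 6 [] [0,4,9,10,11,12,14,17,18,19] (Pf.cons (Pf.B 20 19 (Pf.B 20 18 (Pf.B 20 17 (Pf.B 20 14 (Pf.B 20 12 (Pf.C 0 0x4c0122238614) (Pf.B 20 11 (Pf.B 20 10 (Pf.C 0 0x2c30e2648514) (Pf.B 20 9 (Pf.C 0 0x28a040c24580) (Pf.C 0 0x9841824a06))) (Pf.C 2 1428))) (Pf.C 2 1812)) (Pf.C 2 2196)) (Pf.C 2 2324)) (Pf.C 2 2452)) Pf.nil)) (Pf.W 28 6 [] [0,14,17,18,19] (Pf.cons (Pf.B 20 19 (Pf.B 20 18 (Pf.B 20 17 (Pf.B 20 14 (Pf.C 0 0x480132238314) (Pf.C 2 1812)) (Pf.C 2 2196)) (Pf.C 2 2324)) (Pf.C 2 2452)) Pf.nil))) (Pf.W 28 9 [] [0,14,17,18,19] (Pf.cons (Pf.B 20 19 (Pf.B 20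 18 (Pf.B 20 17 (Pf.B 20 14 (Pf.C 0 0x480132238494) (Pf.C 2 1812)) (Pf.C 2 2196)) (Pf.C 2 2324)) (Pf.C 2 2452)) Pf.nil)))) (Pf.C 2 1427)) (Pf.C 2 1811)) (Pf.C 2 2195)) (Pf.C 2 2323)) Pf.nil)) (Pf.W 20 9 [] [0,14,17,18] (Pf.cons (Pf.B 19 18 (Pf.B 19 17 (Pf.B 19 14 (Pf.W 28 9 [] [0,14,17,18,19] (Pf.cons (Pf.B 20 19 (Pf.B 20 18 (Pf.B 20 17 (Pf.B 20 14 (Pf.C 0 0x4c0122238494) (Pf.C 2 1812)) (Pf.C 2 2196)) (Pf.C 2 2324)) (Pf.C 2 2452)) Pf.nil)) (Pf.C 2 1811)) (Pf.C 2 2195)) (Pf.C 2 2323)) Pf.nil)))))) (Pf.C 2 1426))) (Pf.C 2 1810))) (Pf.C 2 2194)) Pf.nil)))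
 (Pq.cons (Pq.L [] 64 (Pf.C 1 1159))
 (Pq.cons (Pq.L [] 64 (Pf.C 1 1286))
 (Pq.cons (Pq.L [] 64 (Pf.C 2 1416))
 (Pq.cons (Pq.L [] 64 (Pf.C 1 1287))
 (Pq.cons (Pq.L [] 64 (Pf.C 1 1158))
 (Pq.cons (Pq.L [0,1,2,3,4,5] 16383 (Pf.B 11 5 (Pf.B 11 3 (Pf.B 11 2 (Pf.B 11 1 (Pf.B 10 8 (Pf.B 8 5 (Pf.B 8 3 (Pf.B 8 2 (Pf.B 8 1 (Pf.B 10 5 (Pf.B 10 3 (Pf.B 10 2 (Pf.C 0 0x8003101420a) (Pf.B 9 5 (Pf.B 9 3 (Pf.B 9 2 (Pf.C 0 0x80031014209) (Pf.B 7 3 (Pf.B 7 2 (Pf.C 0 0x105891400107) (Pf.B 6 3 (Pf.B 6 2 (Pf.C 0 0x10180121c106) (Pf.W 20 6 [] [0,2,3,4,8,9,10,11] (Pf.cons (Pf.B 12 11 (Pf.B 12 10 (Pf.C 21 1546) (Pf.B 12 9 (Pf.C 0 0x245841400606) (Pf.B 12 8 (Pf.B 12 3 (Pf.B 12 2 (Pf.C 0 0x203021630483) (Pf.C 2 268)) (Pf.C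 2 396)) (Pf.C 2 1036)))) (Pf.C 2 1420)) Pf.nil))) (Pf.C 0 0x245840018187))) (Pf.C 0 0x24584001c18a))) (Pf.B 6 3 (Pf.C 0 0x18404120018a) (Pf.B 6 5 (Pf.W 20 6 [] [0,3,4,5,8,9,10,11] (Pf.cons (Pf.B 12 11 (Pf.B 12 10 (Pf.C 21 1546) (Pf.B 12 9 (Pf.C 0 0x245841400606) (Pf.B 12 8 (Pf.B 12 5 (Pf.B 12 3 (Pf.C 0 0x203031630485) (Pf.C 2 396)) (Pf.C 2 652)) (Pf.C 2 1036)))) (Pf.C 2 1420)) Pf.nil)) (Pf.C 0 0x2c483101430a)))) (Pf.B 9 3 (Pf.B 9 2 (Pf.B 9 1 (Pf.C 0 0x202030404009) (Pf.C 0 0x80011614488)) (Pf.C 0 0xc0021614488)) (Pf.B 6 3 (Pf.C 0 0x18404120018a) (Pf.B 6 5 (Pf.C 0 0x20303161448a) (Pf.W 20 6 [] [0,3,5,8,11] (Pf.cons (Pf.B 12 11 (Pf.B 12 8 (Pf.B 12 5 (Pf.B 12 3 (Pf.C 0 0x30003101430b) (Pf.C 2 396))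 (Pf.C 2 652)) (Pf.C 2 1036)) (Pf.C 2 1420)) Pf.nil))))))) (Pf.B 10 2 (Pf.B 10 1 (Pf.B 9 5 (Pf.B 9 2 (Pf.B 9 3 (Pf.C 0 0x80031014209) (Pf.B 9 1 (Pf.C 0 0x2c4830404005) (Pf.C 0 0x44831014202))) (Pf.C 0 0x848b101420a)) (Pf.B 9 3 (Pf.B 9 2 (Pf.B 9 1 (Pf.C 0 0x202030404009) (Pf.C 0 0x80011614488)) (Pf.C 0 0xc0021614488)) (Pf.B 9 2 (Pf.C 0 0x80031614488) (Pf.B 9 1 (Pf.C 0 0x40021614488) (Pf.C 0 0x20205040448a))))) (Pf.C 0 0x45031014202)) (Pf.B 10 1 (Pf.C 0 0x85031014201) (Pf.B 9 5 (Pf.B 9 3 (Pf.B 9 2 (Pf.C 0 0x80031014209) (Pf.B 7 3 (Pf.C 0 0x245841400187) (Pf.B 7 2 (Pf.C 0 0x105891400107) (Pf.B 6 3 (Pf.C 0 0x245840e00186) (Pf.B 6 2 (Pf.C 0 0x105890e00106) (Pf.B 6 5 (Pf.C 0 0x2c482100c305) (Pf.W 20 6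 [] [0,3,5,8,11] (Pf.cons (Pf.B 12 11 (Pf.B 12 8 (Pf.B 12 5 (Pf.B 12 3 (Pf.C 0 0x30003101430b) (Pf.C 2 396)) (Pf.C 2 652)) (Pf.C 2 1036)) (Pf.C 2 1420)) Pf.nil)))))))) (Pf.B 9 2 (Pf.B 9 1 (Pf.C 0 0x2c4830404005) (Pf.C 0 0x44831014202)) (Pf.B 9 1 (Pf.C 0 0x84831014201) (Pf.B 7 1 (Pf.C 0 0x105891400087) (Pf.B 6 1 (Pf.C 0 0x105890e00086) (Pf.B 6 5 (Pf.B 6 3 (Pf.C 0 0x20301160c485) (Pf.W 20 6 [] [0,3,4,5,8,9,10,11] (Pf.cons (Pf.B 12 11 (Pf.B 12 10 (Pf.C 21 1546) (Pf.B 12 9 (Pf.C 0 0x245841400606) (Pf.B 12 8 (Pf.B 12 5 (Pf.B 12 3 (Pf.C 0 0x203031630485) (Pf.C 2 396)) (Pf.C 2 652)) (Pf.C 2 1036)))) (Pf.C 2 1420)) Pf.nil))) (Pf.B 6 3 (Pf.C 0 0xc001101430b) (Pf.W 20 6 [] [0,3,5,8,11] (Pf.cons (Pf.B 12 11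 (Pf.B 12 8 (Pf.B 12 5 (Pf.B 12 3 (Pf.C 0 0x30003101430b) (Pf.C 2 396)) (Pf.C 2 652)) (Pf.C 2 1036)) (Pf.C 2 1420)) Pf.nil))))))))) (Pf.B 9 3 (Pf.B 9 2 (Pf.B 9 1 (Pf.C 0 0x202030404009) (Pf.C 0 0x80011614488)) (Pf.C 0 0xc0021614488)) (Pf.W 20 9 [] [0,3,5,8,11] (Pf.cons (Pf.B 12 11 (Pf.B 12 8 (Pf.B 12 5 (Pf.B 12 3 (Pf.C 0 0x300031614488) (Pf.C 2 396)) (Pf.C 2 652)) (Pf.C 2 1036)) (Pf.C 2 1420)) Pf.nil))))))) (Pf.B 10 3 (Pf.B 10 2 (Pf.C 0 0x8003162020a) (Pf.B 9 5 (Pf.B 7 5 (Pf.B 7 2 (Pf.C 0 0x85051620207) (Pf.B 9 2 (Pf.C 0 0x1028a0e00109) (Pf.B 9 3 (Pf.B 7 3 (Pf.B 6 5 (Pf.B 6 3 (Pf.B 6 2 (Pf.C 0 0x105890e00106) (Pf.W 20 6 [] [2,3,5,8,10] (Pf.cons (Pf.B 12 10 (Pf.C 21 1546) (Pf.B 12 8 (Pf.B 12 5 (Pf.B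 12 3 (Pf.B 12 2 (Pf.C 0 0x203020a30503) (Pf.C 2 268)) (Pf.C 2 396)) (Pf.C 2 652)) (Pf.C 2 1036))) Pf.nil))) (Pf.C 0 0x282840018187)) (Pf.C 0 0x245841418280)) (Pf.C 0 0x28284001c189)) (Pf.C 0 0x14502160c488)))) (Pf.C 0 0x24584141c280)) (Pf.B 6 5 (Pf.C 0 0x184041424280) (Pf.B 9 3 (Pf.B 9 2 (Pf.B 9 1 (Pf.C 0 0x202030404009) (Pf.C 0 0x80011614488)) (Pf.C 0 0xc0021614488)) (Pf.B 6 3 (Pf.C 0 0x18404120018a) (Pf.W 20 6 [] [3,5,8,10,11] (Pf.cons (Pf.B 12 11 (Pf.B 12 10 (Pf.C 21 1546) (Pf.B 12 8 (Pf.B 12 5 (Pf.B 12 3 (Pf.C 0 0x30505100c30b) (Pf.C 2 396)) (Pf.C 2 652)) (Pf.C 2 1036))) (Pf.C 2 1420)) Pf.nil))))))) (Pf.B 10 2 (Pf.B 10 1 (Pf.C 0 0x145030404008) (Pf.C 0 0x45031620202)) (Pf.B 9 5 (Pf.B 7 5 (Pf.B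 7 2 (Pf.C 0 0x85051620207) (Pf.B 9 2 (Pf.C 0 0x1028a0e00109) (Pf.B 9 3 (Pf.C 0 0x2c4820a0c508) (Pf.B 6 5 (Pf.B 6 2 (Pf.C 0 0x1028a0e00106) (Pf.B 6 3 (Pf.C 0 0x20302160c485) (Pf.W 20 6 [] [0,3,4,5,8,9,10,11] (Pf.cons (Pf.B 12 11 (Pf.B 12 10 (Pf.C 21 1546) (Pf.B 12 9 (Pf.C 0 0x245841400606) (Pf.B 12 8 (Pf.B 12 5 (Pf.B 12 3 (Pf.C 0 0x203031630485) (Pf.C 2 396)) (Pf.C 2 652)) (Pf.C 2 1036)))) (Pf.C 2 1420)) Pf.nil)))) (Pf.C 0 0x245841418280))))) (Pf.C 0 0x24584141c280)) (Pf.B 6 5 (Pf.C 0 0x184041424280) (Pf.B 9 3 (Pf.B 9 2 (Pf.C 0 0x2c4850608508) (Pf.C 0 0xc0021614488)) (Pf.B 9 2 (Pf.C 0 0x80031614488) (Pf.B 7 2 (Pf.C 0 0x105891400107) (Pf.B 6 2 (Pf.C 0 0x105890e00106) (Pf.B 6 3 (Pf.C 0 0xc002101430b)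 (Pf.W 20 6 [] [0,3,5,8,11] (Pf.cons (Pf.B 12 11 (Pf.B 12 8 (Pf.B 12 5 (Pf.B 12 3 (Pf.C 0 0x30003101430b) (Pf.C 2 396)) (Pf.C 2 652)) (Pf.C 2 1036)) (Pf.C 2 1420)) Pf.nil)))))))))))) (Pf.C 2 136)) (Pf.C 2 264)) (Pf.C 2 392)) (Pf.C 2 648)) (Pf.C 0 0x245840c28400)) (Pf.C 2 139)) (Pf.C 2 267)) (Pf.C 2 395)) (Pf.C 2 651)))
 (Pq.cons (Pq.L [0,4] 0xc49ee3f (Pf.B 10 8 (Pf.W 20 6 [] [0,4,8,9,10,11,14] (Pf.cons (Pf.B 15 14 (Pf.B 15 11 (Pf.B 15 10 (Pf.C 21 1930) (Pf.B 15 9 (Pf.C 0 0x245841400786) (Pf.B 15 8 (Pf.C 0 0x18409140078e) (Pf.C 2 1039)))) (Pf.C 2 1423)) (Pf.C 2 1807)) Pf.nil)) (Pf.W 20 6 [] [0,7,8,10,11] (Pf.cons (Pf.B 15 11 (Pf.B 15 10 (Pf.C 21 1930) (Pf.B 15 8 (Pf.B 15 7 (Pf.C 21 1927) (Pf.C 0 0x1840a001c78b))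 (Pf.C 2 1039))) (Pf.C 2 1423)) Pf.nil))))
 (Pq.cons (Pq.L [0,4] 0x937627 (Pf.B 10 8 (Pf.C 0 0x184040e28700) (Pf.C 0 0x1c5840c28400)))
 (Pq.cons (Pq.L [0,4] 0x3f9123f8 (Pf.B 13 8 (Pf.B 14 10 (Pf.B 10 8 (Pf.B 13 11 (Pf.W 20 9 [] [0,4,8,10,11,12,13,14] (Pf.cons (Pf.B 15 14 (Pf.B 15 13 (Pf.C 21 1933) (Pf.B 15 11 (Pf.B 15 12 (Pf.C 0 0x245841a0078c) (Pf.B 15 10 (Pf.C 21 1930) (Pf.B 15 8 (Pf.C 0 0x2470c1400788) (Pf.C 2 1039)))) (Pf.C 2 1423))) (Pf.C 2 1807)) Pf.nil)) (Pf.W 20 9 [] [0,8,10,11,13] (Pf.cons (Pf.B 15 13 (Pf.C 21 1933) (Pf.B 15 11 (Pf.B 15 10 (Pf.C 21 1930) (Pf.B 15 8 (Pf.C 0 0x2458d1400788) (Pf.C 2 1039))) (Pf.C 2 1423))) Pf.nil))) (Pf.C 0 0x284041824700)) (Pf.B 13 11 (Pf.W 20 9 [] [0,4,8,11,12,13,14]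 (Pf.cons (Pf.B 15 14 (Pf.B 15 13 (Pf.C 21 1933) (Pf.B 15 11 (Pf.B 15 12 (Pf.C 0 0x245841a0078c) (Pf.B 15 8 (Pf.C 0 0x2470c1a00788) (Pf.C 2 1039))) (Pf.C 2 1423))) (Pf.C 2 1807)) Pf.nil)) (Pf.C 0 0x345841828700))) (Pf.C 0 0x344041824700)))
 (Pq.cons (Pq.L [0,1,2,3,4,5] 36866 (Pf.B 11 3 (Pf.B 11 2 (Pf.B 8 5 (Pf.B 8 3 (Pf.B 8 2 (Pf.B 8 1 (Pf.W 20 6 [] [0,1,2,3,4,5,8,11] (Pf.cons (Pf.B 15 11 (Pf.B 15 8 (Pf.B 15 3 (Pf.W 28 6 [] [0,1,2,3,4,5,8,11,15] (Pf.cons (Pf.B 16 15 (Pf.B 16 11 (Pf.B 16 8 (Pf.B 16 5 (Pf.B 16 3 (Pf.B 16 2 (Pf.B 16 1 (Pf.B 6 3 (Pf.B 6 2 (Pf.B 6 5 (Pf.C 0 0x80032014206) (Pf.B 6 1 (Pf.C 0 0x402030404006) (Pf.C 0 0x80011014310))) (Pf.C 0 0xc0021620310)) (Pf.C 0 0x3c0031620310)) (Pf.C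 2 144)) (Pf.C 2 272)) (Pf.C 2 400)) (Pf.C 2 656)) (Pf.C 2 1040)) (Pf.C 2 1424)) (Pf.C 2 1936)) Pf.nil)) (Pf.C 2 399)) (Pf.C 2 1039)) (Pf.C 2 1423)) Pf.nil)) (Pf.C 2 136)) (Pf.C 2 264)) (Pf.C 2 392)) (Pf.C 2 648)) (Pf.C 2 267)) (Pf.C 2 395)))
 (Pq.cons (Pq.L [0] 0x8440041045008100 (Pf.W 20 6 [] [0,11,13,14,17] (Pf.cons (Pf.B 18 17 (Pf.B 18 14 (Pf.B 18 13 (Pf.C 21 2317) (Pf.B 18 11 (Pf.W 28 6 [] [0,11,13,14,17,18] (Pf.cons (Pf.B 19 18 (Pf.B 19 17 (Pf.B 19 14 (Pf.B 19 11 (Pf.B 19 13 (Pf.C 0 0x4868b2238313) (Pf.C 0 0x4c68b2238300)) (Pf.C 2 1427)) (Pf.C 2 1811)) (Pf.C 2 2195)) (Pf.C 2 2323)) Pf.nil)) (Pf.C 2 1426))) (Pf.C 2 1810)) (Pf.C 2 2194)) Pf.nil)))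
 (Pq.cons (Pq.L [0] 0x8440041045008100 (Pf.W 20 6 [] [0,11,13,14,17] (Pf.cons (Pf.B 18 17 (Pf.B 18 14 (Pf.B 18 13 (Pf.C 21 2317) (Pf.B 18 11 (Pf.W 28 6 [] [0,11,13,14,17,18] (Pf.cons (Pf.B 19 18 (Pf.B 19 17 (Pf.B 19 14 (Pf.B 19 11 (Pf.B 19 13 (Pf.C 0 0x486911c2c313) (Pf.C 0 0x4c6911c2c300)) (Pf.C 2 1427)) (Pf.C 2 1811)) (Pf.C 2 2195)) (Pf.C 2 2323)) Pf.nil)) (Pf.C 2 1426))) (Pf.C 2 1810)) (Pf.C 2 2194)) Pf.nil)))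
 (Pq.cons (Pq.L [0,3,4] 0x29f49b4d2ed368ffa (Pf.B 17 3 (Pf.B 14 3 (Pf.B 11 3 (Pf.B 8 3 (Pf.W 20 6 [] [0,3,4,8,9,10,11,12,13,14,15,16,17] (Pf.cons (Pf.B 18 17 (Pf.B 18 16 (Pf.C 21 2320) (Pf.B 18 14 (Pf.B 18 13 (Pf.C 21 2317) (Pf.B 18 11 (Pf.B 18 10 (Pf.C 21 2314) (Pf.B 18 8 (Pf.B 18 3 (Pf.B 16 3 (Pf.C 0 0xc0121620811) (Pf.B 13 3 (Pf.C 0 0xc012162068e) (Pf.B 18 15 (Pf.B 18 12 (Pf.W 28 6 [] [0,3,4,8,11,12,13,14,15,16,17,18] (Pf.cons (Pf.B 19 18 (Pf.B 19 17 (Pf.B 19 14 (Pf.B 19 11 (Pf.B 19 8 (Pf.B 19 3 (Pf.B 6 3 (Pf.B 19 16 (Pf.C 0 0x44308240c813) (Pf.B 19 15 (Pf.C 0 0x409840c3c880) (Pf.B 19 13 (Pf.C 0 0x38308240c693) (Pf.B 19 12 (Pf.C 0 0x349840c30700) (Pf.C 0 0x9041e30986))))) (Pf.C 0 0x480031620313))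 (Pf.C 2 403)) (Pf.C 2 1043)) (Pf.C 2 1427)) (Pf.C 2 1811)) (Pf.C 2 2195)) (Pf.C 2 2323)) Pf.nil)) (Pf.B 18 9 (Pf.W 20 12 [] [0,4,6,9,10,11,14,15,16,17,18] (Pf.cons (Pf.B 19 18 (Pf.B 19 17 (Pf.B 19 16 (Pf.C 21 2448) (Pf.B 19 14 (Pf.B 19 11 (Pf.B 19 10 (Pf.C 21 2442) (Pf.B 19 15 (Pf.B 19 6 (Pf.W 28 6 [] [0,4,12,14,15,16,17,18,19] (Pf.cons (Pf.B 20 19 (Pf.B 20 18 (Pf.B 20 17 (Pf.B 20 14 (Pf.B 20 16 (Pf.C 0 0x4430e2648814) (Pf.B 20 15 (Pf.C 0 0x40a040c3c880) (Pf.B 20 12 (Pf.C 0 0x4c0122238614) (Pf.C 0 0x9841e30a06)))) (Pf.C 2 1812)) (Pf.C 2 2196)) (Pf.C 2 2324)) (Pf.C 2 2452)) Pf.nil)) (Pf.W 28 6 [] [0,14,17,18,19] (Pf.cons (Pf.B 20 19 (Pf.B 20 18 (Pf.B 20 17 (Pf.B 20 14 (Pf.C 0 0x480132238314) (Pf.C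 2 1812)) (Pf.C 2 2196)) (Pf.C 2 2324)) (Pf.C 2 2452)) Pf.nil))) (Pf.B 19 9 (Pf.B 19 6 (Pf.W 28 6 [] [0,4,9,10,11,14,15,17,18,19] (Pf.cons (Pf.B 20 19 (Pf.B 20 18 (Pf.B 20 17 (Pf.B 20 14 (Pf.B 20 15 (Pf.C 0 0x480132238794) (Pf.B 20 11 (Pf.B 20 10 (Pf.C 0 0x2c30e2648514) (Pf.B 20 9 (Pf.C 0 0x28a040c24580) (Pf.C 0 0x9041e24a06))) (Pf.C 2 1428))) (Pf.C 2 1812)) (Pf.C 2 2196)) (Pf.C 2 2324)) (Pf.C 2 2452)) Pf.nil)) (Pf.C 0 0x309001e18989)) (Pf.B 19 6 (Pf.C 0 0x309001e24986) (Pf.W 28 6 [] [0,14,17,18,19] (Pf.cons (Pf.B 20 19 (Pf.B 20 18 (Pf.B 20 17 (Pf.B 20 14 (Pf.C 0 0x480132238314) (Pf.C 2 1812)) (Pf.C 2 2196)) (Pf.C 2 2324)) (Pf.C 2 2452)) Pf.nil)))))) (Pf.C 2 1427)) (Pf.C 2 1811))) (Pf.C 2 2195))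 (Pf.C 2 2323)) Pf.nil)) (Pf.W 20 9 [] [0,14,17,18] (Pf.cons (Pf.B 19 18 (Pf.B 19 17 (Pf.B 19 14 (Pf.W 28 9 [] [0,14,17,18,19] (Pf.cons (Pf.B 20 19 (Pf.B 20 18 (Pf.B 20 17 (Pf.B 20 14 (Pf.C 0 0x4c0122238494) (Pf.C 2 1812)) (Pf.C 2 2196)) (Pf.C 2 2324)) (Pf.C 2 2452)) Pf.nil)) (Pf.C 2 1811)) (Pf.C 2 2195)) (Pf.C 2 2323)) Pf.nil)))) (Pf.B 18 12 (Pf.B 18 9 (Pf.W 20 15 [] [0,4,6,9,10,11,12,13,14,17,18] (Pf.cons (Pf.B 19 18 (Pf.B 19 17 (Pf.B 19 14 (Pf.B 19 13 (Pf.C 21 2445) (Pf.B 19 11 (Pf.B 19 10 (Pf.C 21 2442) (Pf.B 19 12 (Pf.B 19 6 (Pf.W 28 6 [] [0,4,12,13,14,15,17,18,19] (Pf.cons (Pf.B 20 19 (Pf.B 20 18 (Pf.B 20 17 (Pf.B 20 14 (Pf.B 20 15 (Pf.C 0 0x4c0122238794) (Pf.B 20 13 (Pf.C 0 0x383112648694)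 (Pf.B 20 12 (Pf.C 0 0x34a040c30700) (Pf.C 0 0x9841e30a06)))) (Pf.C 2 1812)) (Pf.C 2 2196)) (Pf.C 2 2324)) (Pf.C 2 2452)) Pf.nil)) (Pf.W 28 6 [] [0,14,17,18,19] (Pf.cons (Pf.B 20 19 (Pf.B 20 18 (Pf.B 20 17 (Pf.B 20 14 (Pf.C 0 0x480132238314) (Pf.C 2 1812)) (Pf.C 2 2196)) (Pf.C 2 2324)) (Pf.C 2 2452)) Pf.nil))) (Pf.B 19 9 (Pf.B 19 6 (Pf.W 28 6 [] [0,4,9,10,11,12,14,17,18,19] (Pf.cons (Pf.B 20 19 (Pf.B 20 18 (Pf.B 20 17 (Pf.B 20 14 (Pf.B 20 12 (Pf.C 0 0x480132238614) (Pf.B 20 11 (Pf.B 20 10 (Pf.C 0 0x2c30e2648514) (Pf.B 20 9 (Pf.C 0 0x28a040c24580) (Pf.C 0 0x9041824a06))) (Pf.C 2 1428))) (Pf.C 2 1812)) (Pf.C 2 2196)) (Pf.C 2 2324)) (Pf.C 2 2452)) Pf.nil)) (Pf.C 0 0x3c9001818989)) (Pf.B 19 6 (Pf.C 0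 0x3c9001824986) (Pf.W 28 6 [] [0,14,17,18,19] (Pf.cons (Pf.B 20 19 (Pf.B 20 18 (Pf.B 20 17 (Pf.B 20 14 (Pf.C 0 0x480132238314) (Pf.C 2 1812)) (Pf.C 2 2196)) (Pf.C 2 2324)) (Pf.C 2 2452)) Pf.nil)))))) (Pf.C 2 1427))) (Pf.C 2 1811)) (Pf.C 2 2195)) (Pf.C 2 2323)) Pf.nil)) (Pf.W 20 9 [] [0,14,17,18] (Pf.cons (Pf.B 19 18 (Pf.B 19 17 (Pf.B 19 14 (Pf.W 28 9 [] [0,14,17,18,19] (Pf.cons (Pf.B 20 19 (Pf.B 20 18 (Pf.B 20 17 (Pf.B 20 14 (Pf.C 0 0x4c0122238494) (Pf.C 2 1812)) (Pf.C 2 2196)) (Pf.C 2 2324)) (Pf.C 2 2452)) Pf.nil)) (Pf.C 2 1811)) (Pf.C 2 2195)) (Pf.C 2 2323)) Pf.nil))) (Pf.B 18 9 (Pf.W 20 12 [] [0,4,6,9,10,11,14,17,18] (Pf.cons (Pf.B 19 18 (Pf.B 19 17 (Pf.B 19 14 (Pf.B 19 11 (Pf.B 19 10 (Pf.C 21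 2442) (Pf.B 19 9 (Pf.B 19 6 (Pf.W 28 6 [] [0,4,9,10,11,12,14,17,18,19] (Pf.cons (Pf.B 20 19 (Pf.B 20 18 (Pf.B 20 17 (Pf.B 20 14 (Pf.B 20 12 (Pf.C 0 0x4c0122238614) (Pf.B 20 11 (Pf.B 20 10 (Pf.C 0 0x2c30e2648514) (Pf.B 20 9 (Pf.C 0 0x28a040c24580) (Pf.C 0 0x9841824a06))) (Pf.C 2 1428))) (Pf.C 2 1812)) (Pf.C 2 2196)) (Pf.C 2 2324)) (Pf.C 2 2452)) Pf.nil)) (Pf.W 28 6 [] [0,14,17,18,19] (Pf.cons (Pf.B 20 19 (Pf.B 20 18 (Pf.B 20 17 (Pf.B 20 14 (Pf.C 0 0x480132238314) (Pf.C 2 1812)) (Pf.C 2 2196)) (Pf.C 2 2324)) (Pf.C 2 2452)) Pf.nil))) (Pf.W 28 9 [] [0,14,17,18,19] (Pf.cons (Pf.B 20 19 (Pf.B 20 18 (Pf.B 20 17 (Pf.B 20 14 (Pf.C 0 0x480132238494) (Pf.C 2 1812)) (Pf.C 2 2196)) (Pf.C 2 2324)) (Pf.C 2 2452))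 Pf.nil)))) (Pf.C 2 1427)) (Pf.C 2 1811)) (Pf.C 2 2195)) (Pf.C 2 2323)) Pf.nil)) (Pf.W 20 9 [] [0,14,17,18] (Pf.cons (Pf.B 19 18 (Pf.B 19 17 (Pf.B 19 14 (Pf.W 28 9 [] [0,14,17,18,19] (Pf.cons (Pf.B 20 19 (Pf.B 20 18 (Pf.B 20 17 (Pf.B 20 14 (Pf.C 0 0x4c0122238494) (Pf.C 2 1812)) (Pf.C 2 2196)) (Pf.C 2 2324)) (Pf.C 2 2452)) Pf.nil)) (Pf.C 2 1811)) (Pf.C 2 2195)) (Pf.C 2 2323)) Pf.nil))))))) (Pf.C 2 402)) (Pf.C 2 1042))) (Pf.C 2 1426))) (Pf.C 2 1810))) (Pf.C 2 2194)) Pf.nil)) (Pf.C 2 392)) (Pf.C 2 395)) (Pf.C 2 398)) (Pf.C 2 401)))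
 (Pq.cons (Pq.L [] 64 (Pf.C 1 1159))
 (Pq.cons (Pq.L [] 64 (Pf.C 1 1286))
 (Pq.cons (Pq.L [] 64 (Pf.C 2 1416))
 (Pq.cons (Pq.L [] 64 (Pf.C 1 1287))
 (Pq.cons (Pq.L [] 64 (Pf.C 1 1158))
 (Pq.cons (Pq.L [0,1,2,3,4,5] 63 (Pf.B 11 8 (Pf.B 11 7 (Pf.B 11 5 (Pf.B 11 3 (Pf.B 10 8 (Pf.B 10 7 (Pf.B 10 5 (Pf.B 10 3 (Pf.B 10 2 (Pf.B 10 1 (Pf.B 9 6 (Pf.B 8 5 (Pf.B 8 3 (Pf.B 8 2 (Pf.B 8 1 (Pf.B 7 5 (Pf.B 7 3 (Pf.B 7 2 (Pf.B 7 1 (Pf.B 11 6 (Pf.B 10 6 (Pf.B 6 3 (Pf.B 6 2 (Pf.B 6 5 (Pf.C 0 0x80031414206) (Pf.B 6 1 (Pf.C 0 0x282030404006) (Pf.C 0 0x80010e1430a))) (Pf.C 0 0x1c302100c00a)) (Pf.C 0 0x1c303162000a)) (Pf.B 6 5 (Pf.B 6 3 (Pf.B 6 2 (Pf.B 6 1 (Pf.C 0 0x142030404006) (Pf.C 0 0x8001141c305)) (Pf.C 0 0xc002141c305))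 (Pf.C 0 0x20003141c305)) (Pf.B 6 3 (Pf.B 6 2 (Pf.B 6 1 (Pf.W 28 6 [] [0,1,2,3,4] (Pf.cons (Pf.B 12 3 (Pf.B 12 2 (Pf.B 12 1 (Pf.C 0 0x302030404006) (Pf.C 2 140)) (Pf.C 2 268)) (Pf.C 2 396)) Pf.nil)) (Pf.C 0 0x4305100c202)) (Pf.W 28 6 [] [0,2,3,5,8] (Pf.cons (Pf.B 12 8 (Pf.B 12 5 (Pf.B 12 3 (Pf.B 12 2 (Pf.C 0 0x14302100c00c) (Pf.C 2 268)) (Pf.C 2 396)) (Pf.C 2 652)) (Pf.C 2 1036)) Pf.nil))) (Pf.W 28 6 [] [0,3,5,8,11] (Pf.cons (Pf.B 12 11 (Pf.B 12 8 (Pf.B 12 5 (Pf.B 12 3 (Pf.C 0 0x14303162000c) (Pf.C 2 396)) (Pf.C 2 652)) (Pf.C 2 1036)) (Pf.C 2 1420)) Pf.nil))))) (Pf.B 10 6 (Pf.B 6 5 (Pf.B 6 3 (Pf.C 0 0x1c30b100c005) (Pf.B 9 8 (Pf.B 9 7 (Pf.B 9 3 (Pf.B 9 2 (Pf.B 9 5 (Pf.C 0 0x80030e14209) (Pf.B 9 1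 (Pf.C 0 0x1c2030404009) (Pf.C 0 0x80011414487))) (Pf.C 0 0x28482100c007)) (Pf.C 0 0x284831620007)) (Pf.B 9 5 (Pf.B 9 3 (Pf.C 0 0x28487160c305) (Pf.C 0 0x20003141c485)) (Pf.C 0 0x2c3071414488))) (Pf.B 9 7 (Pf.B 9 5 (Pf.B 9 3 (Pf.C 0 0x28488160c005) (Pf.C 0 0x1c3031420485)) (Pf.C 0 0x2c0081414487)) (Pf.W 28 9 [] [0,7,8,10,11] (Pf.cons (Pf.B 12 11 (Pf.B 12 10 (Pf.B 12 8 (Pf.B 12 7 (Pf.C 0 0x2c008141c48c) (Pf.C 2 908)) (Pf.C 2 1036)) (Pf.C 2 1292)) (Pf.C 2 1420)) Pf.nil))))) (Pf.C 0 0x2000b0e1430a)) (Pf.W 28 6 [] [0,7,8,10,11] (Pf.cons (Pf.B 12 11 (Pf.B 12 10 (Pf.B 12 8 (Pf.B 12 7 (Pf.C 0 0x2000b141c30c) (Pf.C 2 908)) (Pf.C 2 1036)) (Pf.C 2 1292)) (Pf.C 2 1420)) Pf.nil)))) (Pf.C 2 135)) (Pf.C 2 263))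 (Pf.C 2 391)) (Pf.C 2 647)) (Pf.C 2 136)) (Pf.C 2 264)) (Pf.C 2 392)) (Pf.C 2 648)) (Pf.C 1 777)) (Pf.C 2 138)) (Pf.C 2 266)) (Pf.C 2 394)) (Pf.C 2 650)) (Pf.C 2 906)) (Pf.C 2 1034)) (Pf.C 2 395)) (Pf.C 2 651)) (Pf.C 2 907)) (Pf.C 2 1035)))
 Pq.nil)))))))))))))))))))))))))))
theorem bD_o18 : AllRef bD_T bD_G26 (List.take 27 (hitObl [24,26,30,31,37,38,40,41] bD_h40)) :=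
  chkPq_sound bD_o18c _ (by decide +kernel)
noncomputable def bD_o19c : Pq := (Pq.cons (Pq.L [0,4,5] 30719 (Pf.W 20 6 [] [0,4,5,7,8,9,10,11] (Pf.cons (Pf.B 12 11 (Pf.C 21 1547) (Pf.B 12 10 (Pf.C 21 1546) (Pf.B 12 8 (Pf.C 21 1544) (Pf.B 12 7 (Pf.C 21 1543) (Pf.B 12 5 (Pf.B 12 9 (Pf.W 22 7 [] [0,4,6,8,9,11,12] (Pf.cons (Pf.B 13 12 (Pf.B 13 9 (Pf.C 29 1673) (Pf.B 13 6 (Pf.C 29 1670) (Pf.B 13 11 (Pf.W 24 7 [] [0,4,6,9,11,12,13] (Pf.cons (Pf.B 14 13 (Pf.B 14 12 (Pf.B 14 11 (Pf.B 14 9 (Pf.B 14 6 (Pf.C 0 0x2c604121868e) (Pf.C 0 0x106860e0070b)) (Pf.C 0 0x106890e0070b)) (Pf.C 25 1803)) (Pf.C 2 1550)) (Pf.C 2 1678)) Pf.nil)) (Pf.B 13 8 (Pf.W 24 7 [] [0,4,6,8,9,12,13] (Pf.cons (Pf.B 14 13 (Pf.B 14 12 (Pf.B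 14 8 (Pf.B 14 9 (Pf.B 14 6 (Pf.C 0 0x20604121868e) (Pf.C 0 0x106860e00708)) (Pf.C 0 0x106890e00708)) (Pf.C 25 1800)) (Pf.C 2 1550)) (Pf.C 2 1678)) Pf.nil)) (Pf.W 22 8 [] [0,4,6,7,9,11,12,13] (Pf.cons (Pf.B 14 13 (Pf.B 14 12 (Pf.B 14 9 (Pf.C 29 1801) (Pf.B 14 6 (Pf.C 29 1798) (Pf.B 14 11 (Pf.B 14 7 (Pf.W 24 7 [] [0,4,8,9,11,12,14] (Pf.cons (Pf.B 15 14 (Pf.B 15 12 (Pf.B 15 11 (Pf.B 15 9 (Pf.B 15 8 (Pf.C 0 0x24704162060f) (Pf.C 25 1928)) (Pf.C 0 0x107090e0078b)) (Pf.C 25 1931)) (Pf.C 2 1551)) (Pf.C 2 1807)) Pf.nil)) (Pf.C 0 0x1c7041620680)) (Pf.B 14 7 (Pf.W 24 7 [] [0,4,6,8,9,12,14] (Pf.cons (Pf.B 15 14 (Pf.B 15 12 (Pf.B 15 8 (Pf.B 15 9 (Pf.B 15 6 (Pf.C 0 0x20604121870f) (Pf.C 0 0x107060e00788)) (Pf.C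 0 0x107090e00788)) (Pf.C 25 1928)) (Pf.C 2 1551)) (Pf.C 2 1807)) Pf.nil)) (Pf.W 24 7 [] [0,4,8,11,14] (Pf.cons (Pf.B 15 14 (Pf.B 15 11 (Pf.B 15 8 (Pf.C 0 0x7871610708) (Pf.C 25 1928)) (Pf.C 25 1931)) (Pf.C 2 1807)) Pf.nil)))))) (Pf.C 2 1550)) (Pf.C 2 1678)) Pf.nil)))))) (Pf.C 2 1549)) Pf.nil)) (Pf.W 20 9 [] [0,4,5,6,7,8,10,11,12] (Pf.cons (Pf.B 13 12 (Pf.B 13 11 (Pf.C 21 1675) (Pf.B 13 10 (Pf.C 21 1674) (Pf.B 13 8 (Pf.C 21 1672) (Pf.B 13 7 (Pf.C 21 1671) (Pf.B 13 5 (Pf.B 13 6 (Pf.W 22 7 [] [0,4,6,8,9,11,13] (Pf.cons (Pf.B 14 13 (Pf.B 14 9 (Pf.C 29 1801) (Pf.B 14 6 (Pf.C 29 1798) (Pf.B 14 11 (Pf.W 24 7 [] [0,4,6,9,11,13,14] (Pf.cons (Pf.B 15 14 (Pf.B 15 13 (Pf.B 15 11 (Pf.B 15 9 (Pf.B 15 6 (Pf.C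 0 0x2c684121870f) (Pf.C 0 0x107060e0078b)) (Pf.C 0 0x107090e0078b)) (Pf.C 25 1931)) (Pf.C 2 1679)) (Pf.C 2 1807)) Pf.nil)) (Pf.B 14 8 (Pf.W 24 7 [] [0,4,6,8,9,13,14] (Pf.cons (Pf.B 15 14 (Pf.B 15 13 (Pf.B 15 8 (Pf.B 15 9 (Pf.B 15 6 (Pf.C 0 0x20684121870f) (Pf.C 0 0x107060e00788)) (Pf.C 0 0x107090e00788)) (Pf.C 25 1928)) (Pf.C 2 1679)) (Pf.C 2 1807)) Pf.nil)) (Pf.W 22 8 [] [0,4,6,7,9,11,13,14] (Pf.cons (Pf.B 15 14 (Pf.B 15 13 (Pf.B 15 9 (Pf.C 29 1929) (Pf.B 15 6 (Pf.C 29 1926) (Pf.B 15 11 (Pf.B 15 7 (Pf.W 24 7 [] [0,4,8,9,11,13,15] (Pf.cons (Pf.B 16 15 (Pf.B 16 13 (Pf.B 16 11 (Pf.B 16 9 (Pf.B 16 8 (Pf.C 0 0x247841620690) (Pf.C 25 2056)) (Pf.C 0 0x107890e0080b)) (Pf.C 25 2059)) (Pf.C 2 1680)) (Pf.C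 2 1936)) Pf.nil)) (Pf.C 0 0x1c7841620700)) (Pf.B 15 7 (Pf.W 24 7 [] [0,4,6,8,9,13,15] (Pf.cons (Pf.B 16 15 (Pf.B 16 13 (Pf.B 16 8 (Pf.B 16 9 (Pf.B 16 6 (Pf.C 0 0x206841218790) (Pf.C 0 0x107860e00808)) (Pf.C 0 0x107890e00808)) (Pf.C 25 2056)) (Pf.C 2 1680)) (Pf.C 2 1936)) Pf.nil)) (Pf.W 24 7 [] [0,4,8,11,15] (Pf.cons (Pf.B 16 15 (Pf.B 16 11 (Pf.B 16 8 (Pf.C 0 0x8071610788) (Pf.C 25 2056)) (Pf.C 25 2059)) (Pf.C 2 1936)) Pf.nil)))))) (Pf.C 2 1679)) (Pf.C 2 1807)) Pf.nil)))))) (Pf.C 2 1678)) Pf.nil)) (Pf.W 22 7 [] [0,4,5,6,8,9,10,11,12,13] (Pf.cons (Pf.B 14 13 (Pf.B 14 12 (Pf.B 14 9 (Pf.C 29 1801) (Pf.B 14 6 (Pf.C 29 1798) (Pf.B 14 5 (Pf.B 14 11 (Pf.B 14 10 (Pf.B 14 8 (Pf.W 24 7 [] [0,4,8,9,11,13,14]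 (Pf.cons (Pf.B 15 14 (Pf.B 15 13 (Pf.B 15 11 (Pf.B 15 9 (Pf.B 15 8 (Pf.C 0 0x24704162068f) (Pf.C 25 1928)) (Pf.C 0 0x107090e0078b)) (Pf.C 25 1931)) (Pf.C 2 1679)) (Pf.C 2 1807)) Pf.nil)) (Pf.W 22 8 [] [0,4,5,6,7,9,10,11,12,13,14] (Pf.cons (Pf.B 15 14 (Pf.B 15 13 (Pf.B 15 12 (Pf.B 15 9 (Pf.C 29 1929) (Pf.B 15 6 (Pf.C 29 1926) (Pf.B 15 5 (Pf.B 6 5 (Pf.C 0 0x3000d1e38305) (Pf.B 15 11 (Pf.B 15 10 (Pf.B 15 7 (Pf.W 24 7 [] [0,4,9,11,12,13,14,15] (Pf.cons (Pf.B 16 15 (Pf.B 16 14 (Pf.B 16 13 (Pf.B 16 12 (Pf.B 16 11 (Pf.B 16 9 (Pf.C 0 0x3458c1e38490) (Pf.C 0 0x107090e0080b)) (Pf.C 25 2059)) (Pf.C 2 1552)) (Pf.C 2 1680)) (Pf.C 2 1808)) (Pf.C 2 1936)) Pf.nil)) (Pf.W 24 7 [] [0,4,9,10,11,12,13,14,15] (Pf.cons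 (Pf.B 16 15 (Pf.B 16 14 (Pf.B 16 13 (Pf.B 16 12 (Pf.B 16 11 (Pf.B 16 10 (Pf.B 16 9 (Pf.C 0 0x3450c1e38490) (Pf.C 0 0x107090e0080a)) (Pf.C 0 0x10787002880b)) (Pf.C 25 2059)) (Pf.C 2 1552)) (Pf.C 2 1680)) (Pf.C 2 1808)) (Pf.C 2 1936)) Pf.nil))) (Pf.B 15 7 (Pf.W 24 7 [] [0,4,9,10,11,12,13,14,15] (Pf.cons (Pf.B 16 15 (Pf.B 16 14 (Pf.B 16 13 (Pf.B 16 12 (Pf.B 16 11 (Pf.B 16 10 (Pf.B 16 9 (Pf.C 0 0x3458c1e38490) (Pf.C 0 0x107090e0080a)) (Pf.C 0 0x1078a0e0080b)) (Pf.C 25 2059)) (Pf.C 2 1552)) (Pf.C 2 1680)) (Pf.C 2 1808)) (Pf.C 2 1936)) Pf.nil)) (Pf.C 0 0x20704141c780))) (Pf.B 15 7 (Pf.W 24 7 [] [0,4,5,6,11,12,13,14,15] (Pf.cons (Pf.B 16 15 (Pf.B 16 14 (Pf.B 16 13 (Pf.B 16 12 (Pf.B 16 11 (Pf.B 16 6 (Pf.B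 16 5 (Pf.B 11 5 (Pf.C 0 0x3058d1c14310) (Pf.C 0 0x4000c1e1458e)) (Pf.C 2 656)) (Pf.C 0 0x107060e0080b)) (Pf.C 25 2059)) (Pf.C 2 1552)) (Pf.C 2 1680)) (Pf.C 2 1808)) (Pf.C 2 1936)) Pf.nil)) (Pf.C 0 0x20704161c780)))) (Pf.C 2 655)))) (Pf.C 2 1551)) (Pf.C 2 1679)) (Pf.C 2 1807)) Pf.nil))) (Pf.B 14 8 (Pf.W 24 7 [] [0,4,8,9,11,13,14] (Pf.cons (Pf.B 15 14 (Pf.B 15 13 (Pf.B 15 11 (Pf.B 15 9 (Pf.B 15 8 (Pf.C 0 0x24704162068f) (Pf.C 25 1928)) (Pf.C 0 0x107090e0078b)) (Pf.C 25 1931)) (Pf.C 2 1679)) (Pf.C 2 1807)) Pf.nil)) (Pf.W 24 10 [] [0,4,8,9,11,14] (Pf.cons (Pf.B 15 14 (Pf.B 15 11 (Pf.B 15 9 (Pf.C 0 0x78a082470b) (Pf.B 15 8 (Pf.C 0 0x789082070b) (Pf.C 25 1928))) (Pf.C 25 1931)) (Pf.C 2 1807)) Pf.nil))))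 (Pf.B 14 10 (Pf.B 14 8 (Pf.W 22 11 [] [0,4,5,6,7,8,9,10,12,13,14] (Pf.cons (Pf.B 15 14 (Pf.B 15 13 (Pf.B 15 12 (Pf.B 15 9 (Pf.C 29 1929) (Pf.B 15 6 (Pf.C 29 1926) (Pf.B 15 5 (Pf.B 6 5 (Pf.C 0 0x3000d1e38305) (Pf.B 15 10 (Pf.B 15 8 (Pf.B 15 7 (Pf.W 24 7 [] [0,4,8,9,11,13,15] (Pf.cons (Pf.B 16 15 (Pf.B 16 13 (Pf.B 16 11 (Pf.B 16 9 (Pf.B 16 8 (Pf.C 0 0x247841620690) (Pf.C 25 2056)) (Pf.C 0 0x107890e0080b)) (Pf.C 25 2059)) (Pf.C 2 1680)) (Pf.C 2 1936)) Pf.nil)) (Pf.W 24 7 [] [0,4,9,10,11,12,13,14,15] (Pf.cons (Pf.B 16 15 (Pf.B 16 14 (Pf.B 16 13 (Pf.B 16 12 (Pf.B 16 11 (Pf.B 16 10 (Pf.B 16 9 (Pf.C 0 0x3450c1e38490) (Pf.C 0 0x107090e0080a)) (Pf.C 0 0x10787002880b)) (Pf.C 25 2059)) (Pf.C 2 1552)) (Pf.C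 2 1680)) (Pf.C 2 1808)) (Pf.C 2 1936)) Pf.nil))) (Pf.B 15 7 (Pf.W 24 7 [] [0,4,5,6,8,11,12,13,14,15] (Pf.cons (Pf.B 16 15 (Pf.B 16 14 (Pf.B 16 13 (Pf.B 16 12 (Pf.B 16 11 (Pf.B 16 8 (Pf.B 16 6 (Pf.B 16 5 (Pf.B 11 5 (Pf.C 0 0x3058d1e14310) (Pf.C 0 0x4000c1c1458f)) (Pf.C 2 656)) (Pf.C 0 0x107060e00808)) (Pf.C 25 2056)) (Pf.C 25 2059)) (Pf.C 2 1552)) (Pf.C 2 1680)) (Pf.C 2 1808)) (Pf.C 2 1936)) Pf.nil)) (Pf.C 0 0x2c704101c780))) (Pf.B 15 7 (Pf.W 24 7 [] [0,4,8,9,10,11,13,14,15] (Pf.cons (Pf.B 16 15 (Pf.B 16 14 (Pf.B 16 13 (Pf.B 16 11 (Pf.B 16 10 (Pf.B 16 9 (Pf.B 16 8 (Pf.C 0 0x247041420690) (Pf.C 25 2056)) (Pf.C 0 0x107090e0080a)) (Pf.C 0 0x1078a0e0080b)) (Pf.C 25 2059)) (Pf.C 2 1680)) (Pf.C 2 1808))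 (Pf.C 2 1936)) Pf.nil)) (Pf.C 0 0x2c704141c780)))) (Pf.C 2 655)))) (Pf.C 2 1551)) (Pf.C 2 1679)) (Pf.C 2 1807)) Pf.nil)) (Pf.W 22 8 [] [0,4,7,9,10,11,12,13,14] (Pf.cons (Pf.B 15 14 (Pf.B 15 13 (Pf.B 15 12 (Pf.B 15 9 (Pf.C 29 1929) (Pf.B 15 11 (Pf.B 15 7 (Pf.W 24 7 [] [0,4,8,9,11,13,15] (Pf.cons (Pf.B 16 15 (Pf.B 16 13 (Pf.B 16 11 (Pf.B 16 9 (Pf.B 16 8 (Pf.C 0 0x247841620690) (Pf.C 25 2056)) (Pf.C 0 0x107890e0080b)) (Pf.C 25 2059)) (Pf.C 2 1680)) (Pf.C 2 1936)) Pf.nil)) (Pf.C 0 0x1c7841620700)) (Pf.B 15 10 (Pf.B 15 7 (Pf.W 22 11 [] [0,4,7,8,12,14,15] (Pf.cons (Pf.B 16 15 (Pf.B 16 14 (Pf.B 16 12 (Pf.B 16 8 (Pf.B 16 7 (Pf.W 24 7 [] [0,11,12,14,15,16] (Pf.cons (Pf.B 17 16 (Pf.B 17 15 (Pf.B 17 14 (Pf.B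 17 12 (Pf.B 17 11 (Pf.C 0 0x4400c1e38590) (Pf.C 25 2187)) (Pf.C 2 1553)) (Pf.C 2 1809)) (Pf.C 2 1937)) (Pf.C 2 2065)) Pf.nil)) (Pf.C 0 0x1c8041620700)) (Pf.B 16 7 (Pf.W 24 7 [] [0,11,12,14,15,16] (Pf.cons (Pf.B 17 16 (Pf.B 17 15 (Pf.B 17 14 (Pf.B 17 12 (Pf.B 17 11 (Pf.C 0 0x4400c1e38590) (Pf.C 25 2187)) (Pf.C 2 1553)) (Pf.C 2 1809)) (Pf.C 2 1937)) (Pf.C 2 2065)) Pf.nil)) (Pf.C 0 0x2c784101c800))) (Pf.C 2 1552)) (Pf.C 2 1808)) (Pf.C 2 1936)) Pf.nil)) (Pf.W 24 7 [] [0,4,8,10,11,15] (Pf.cons (Pf.B 16 15 (Pf.B 16 11 (Pf.B 16 10 (Pf.C 0 0x807161078a) (Pf.B 16 8 (Pf.C 0 0x107871400808) (Pf.C 25 2056))) (Pf.C 25 2059)) (Pf.C 2 1936)) Pf.nil))) (Pf.W 24 10 [] [0,4,8,11,15] (Pf.cons (Pf.B 16 15 (Pf.B 16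 11 (Pf.B 16 8 (Pf.C 0 0x80a1610788) (Pf.C 25 2056)) (Pf.C 25 2059)) (Pf.C 2 1936)) Pf.nil))))) (Pf.C 2 1551)) (Pf.C 2 1679)) (Pf.C 2 1807)) Pf.nil))) (Pf.B 14 8 (Pf.W 24 10 [] [0,4,8,11,14] (Pf.cons (Pf.B 15 14 (Pf.B 15 11 (Pf.B 15 8 (Pf.C 0 0x78a1610708) (Pf.C 25 1928)) (Pf.C 25 1931)) (Pf.C 2 1807)) Pf.nil)) (Pf.W 22 8 [] [0,4,7,9,10,11,13,14] (Pf.cons (Pf.B 15 14 (Pf.B 15 13 (Pf.B 15 9 (Pf.C 29 1929) (Pf.B 15 11 (Pf.B 15 7 (Pf.W 24 7 [] [0,4,8,9,11,13,15] (Pf.cons (Pf.B 16 15 (Pf.B 16 13 (Pf.B 16 11 (Pf.B 16 9 (Pf.B 16 8 (Pf.C 0 0x247841620690) (Pf.C 25 2056)) (Pf.C 0 0x107890e0080b)) (Pf.C 25 2059)) (Pf.C 2 1680)) (Pf.C 2 1936)) Pf.nil)) (Pf.C 0 0x1c7841620700)) (Pf.B 15 10 (Pf.B 15 7 (Pf.W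 24 7 [] [0,4,8,9,10,13,14,15] (Pf.cons (Pf.B 16 15 (Pf.B 16 14 (Pf.B 16 13 (Pf.B 16 8 (Pf.B 16 10 (Pf.B 16 9 (Pf.C 0 0x247841420690) (Pf.C 0 0x107890e00808)) (Pf.C 0 0x2070a0e0080f)) (Pf.C 25 2056)) (Pf.C 2 1680)) (Pf.C 2 1808)) (Pf.C 2 1936)) Pf.nil)) (Pf.C 0 0x1c7841420700)) (Pf.W 24 10 [] [0,4,8,11,15] (Pf.cons (Pf.B 16 15 (Pf.B 16 11 (Pf.B 16 8 (Pf.C 0 0x80a1610788) (Pf.C 25 2056)) (Pf.C 25 2059)) (Pf.C 2 1936)) Pf.nil))))) (Pf.C 2 1679)) (Pf.C 2 1807)) Pf.nil))))) (Pf.C 2 654)))) (Pf.C 2 1550)) (Pf.C 2 1678)) Pf.nil))) (Pf.C 2 653)))))) (Pf.C 2 1549)) Pf.nil))) (Pf.C 2 652)))))) Pf.nil)))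
 (Pq.cons (Pq.L [] 64 (Pf.C 1 1288))
 (Pq.cons (Pq.L [] 64 (Pf.C 1 1160))
 (Pq.cons (Pq.L [] 64 (Pf.C 1 1415))
 (Pq.cons (Pq.L [] 64 (Pf.C 1 1159))
 (Pq.cons (Pq.L [] 64 (Pf.C 1 1414))
 (Pq.cons (Pq.L [] 64 (Pf.C 1 1286))
 (Pq.cons (Pq.L [] 1 (Pf.C 1 1031))
 (Pq.cons (Pq.L [] 1 (Pf.C 1 1030))
 (Pq.cons (Pq.L [] 1 (Pf.C 1 902))
 (Pq.cons (Pq.L [] 1 (Pf.C 1 1416))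
 (Pq.cons (Pq.L [] 1 (Pf.C 1 1287))
 (Pq.cons (Pq.L [] 1 (Pf.C 1 1158))
 (Pq.cons (Pq.L [0,3,4,5] 40962 (Pf.B 11 5 (Pf.B 11 3 (Pf.B 8 5 (Pf.B 8 3 (Pf.W 22 6 [] [0,3,4,5,8,11] (Pf.cons (Pf.B 15 11 (Pf.B 15 8 (Pf.B 15 5 (Pf.B 15 3 (Pf.B 6 3 (Pf.C 0 0x3c2031620006) (Pf.B 6 5 (Pf.W 24 6 [] [3,4,5,8,15] (Pf.cons (Pf.B 16 15 (Pf.B 16 8 (Pf.B 16 5 (Pf.B 16 3 (Pf.C 0 0x403031e14208) (Pf.C 2 400)) (Pf.C 2 656)) (Pf.C 2 1040)) (Pf.C 2 1936)) Pf.nil)) (Pf.C 0 0x14303162000f))) (Pf.C 2 399)) (Pf.C 2 655)) (Pf.C 2 1039)) (Pf.C 2 1423)) Pf.nil)) (Pf.C 2 392)) (Pf.C 2 648)) (Pf.C 2 395)) (Pf.C 2 651)))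
 (Pq.cons (Pq.L [0,4] 10311 (Pf.W 22 6 [] [0,4,7,8,10] (Pf.cons (Pf.B 12 10 (Pf.C 23 1546) (Pf.B 12 8 (Pf.B 12 7 (Pf.C 23 1543) (Pf.C 0 0x40a081c606)) (Pf.C 2 1036))) Pf.nil)))
 (Pq.cons (Pq.L [0,3,4,5] 16383 (Pf.B 11 5 (Pf.B 11 3 (Pf.B 8 5 (Pf.B 8 3 (Pf.B 10 8 (Pf.B 10 5 (Pf.B 10 3 (Pf.C 0 0x14203162000a) (Pf.B 9 5 (Pf.B 9 3 (Pf.B 7 3 (Pf.C 0 0x244001410187) (Pf.B 6 3 (Pf.C 0 0x244000e10186) (Pf.B 6 5 (Pf.C 0 0x244001418185) (Pf.W 22 6 [] [0,3,5,8,11] (Pf.cons (Pf.B 12 11 (Pf.B 12 8 (Pf.B 12 5 (Pf.B 12 3 (Pf.C 0 0x14303162000c) (Pf.C 2 396)) (Pf.C 2 652)) (Pf.C 2 1036)) (Pf.C 2 1420)) Pf.nil))))) (Pf.B 6 5 (Pf.B 6 3 (Pf.C 0 0x142031620006) (Pf.W 22 6 [] [0,3,4,5,8,9,10,11] (Pf.cons (Pf.B 12 11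 (Pf.B 12 10 (Pf.C 23 1546) (Pf.B 12 8 (Pf.B 12 9 (Pf.B 12 5 (Pf.B 12 3 (Pf.C 0 0x204830a3020b) (Pf.C 2 396)) (Pf.C 2 652)) (Pf.C 0 0x4091410606)) (Pf.C 2 1036))) (Pf.C 2 1420)) Pf.nil))) (Pf.B 6 3 (Pf.C 0 0x18284142418b) (Pf.W 22 6 [] [0,3,5,8,11] (Pf.cons (Pf.B 12 11 (Pf.B 12 8 (Pf.B 12 5 (Pf.B 12 3 (Pf.C 0 0x14303162000c) (Pf.C 2 396)) (Pf.C 2 652)) (Pf.C 2 1036)) (Pf.C 2 1420)) Pf.nil))))) (Pf.B 7 5 (Pf.W 22 6 [] [0,4,5,7,8,9,10] (Pf.cons (Pf.B 12 10 (Pf.C 23 1546) (Pf.B 12 8 (Pf.B 12 9 (Pf.B 12 7 (Pf.C 23 1543) (Pf.B 12 5 (Pf.C 0 0x24284141c600) (Pf.C 2 652))) (Pf.C 0 0x4091410606)) (Pf.C 2 1036))) Pf.nil)) (Pf.C 0 0x409081c28a)))) (Pf.B 10 3 (Pf.B 9 5 (Pf.B 9 3 (Pf.B 7 3 (Pf.B 7 5 (Pf.C 0 0x142031620007)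 (Pf.C 0 0x184141c289)) (Pf.C 0 0x24400081c18a)) (Pf.B 6 5 (Pf.B 6 3 (Pf.C 0 0x282841200186) (Pf.C 0 0x28284121818b)) (Pf.B 6 3 (Pf.C 0 0x24184141828b) (Pf.W 22 6 [] [0,3,5,8,11] (Pf.cons (Pf.B 12 11 (Pf.B 12 8 (Pf.B 12 5 (Pf.B 12 3 (Pf.C 0 0x14303162000c) (Pf.C 2 396)) (Pf.C 2 652)) (Pf.C 2 1036)) (Pf.C 2 1420)) Pf.nil))))) (Pf.B 7 5 (Pf.C 0 0x4091410287) (Pf.B 6 5 (Pf.C 0 0x4090e10286) (Pf.B 9 3 (Pf.W 22 6 [] [0,3,4,5,8,9,10,11] (Pf.cons (Pf.B 12 11 (Pf.B 12 10 (Pf.C 23 1546) (Pf.B 12 8 (Pf.B 12 9 (Pf.B 12 5 (Pf.B 12 3 (Pf.C 0 0x14488160c00c) (Pf.C 2 396)) (Pf.C 2 652)) (Pf.C 0 0x4091410606)) (Pf.C 2 1036))) (Pf.C 2 1420)) Pf.nil)) (Pf.B 6 3 (Pf.W 22 6 [] [0,3,4,8,9,10] (Pf.cons (Pf.B 12 10 (Pf.C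 23 1546) (Pf.B 12 8 (Pf.B 12 9 (Pf.B 12 3 (Pf.C 0 0x286041200186) (Pf.C 2 396)) (Pf.C 0 0x4091410606)) (Pf.C 2 1036))) Pf.nil)) (Pf.W 22 6 [] [0,3,5,8,11] (Pf.cons (Pf.B 12 11 (Pf.B 12 8 (Pf.B 12 5 (Pf.B 12 3 (Pf.C 0 0x14303162000c) (Pf.C 2 396)) (Pf.C 2 652)) (Pf.C 2 1036)) (Pf.C 2 1420)) Pf.nil))))))) (Pf.B 9 5 (Pf.B 9 3 (Pf.B 7 3 (Pf.C 0 0x244001410187) (Pf.B 6 3 (Pf.C 0 0x244000e10186) (Pf.W 22 6 [] [0,3,4,5,8,9,10,11] (Pf.cons (Pf.B 12 11 (Pf.B 12 10 (Pf.C 23 1546) (Pf.B 12 8 (Pf.B 12 9 (Pf.B 12 5 (Pf.B 12 3 (Pf.C 0 0x2c0030a30209) (Pf.C 2 396)) (Pf.C 2 652)) (Pf.C 0 0x4091410606)) (Pf.C 2 1036))) (Pf.C 2 1420)) Pf.nil)))) (Pf.B 6 5 (Pf.B 6 3 (Pf.C 0 0x142031620006) (Pf.W 22 6 [] [0,3,4,5,8,9,10,11]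 (Pf.cons (Pf.B 12 11 (Pf.B 12 10 (Pf.C 23 1546) (Pf.B 12 8 (Pf.B 12 9 (Pf.B 12 5 (Pf.B 12 3 (Pf.C 0 0x204830a3020b) (Pf.C 2 396)) (Pf.C 2 652)) (Pf.C 0 0x4091410606)) (Pf.C 2 1036))) (Pf.C 2 1420)) Pf.nil))) (Pf.W 22 6 [] [0,3,4,5,8,9,10,11] (Pf.cons (Pf.B 12 11 (Pf.B 12 10 (Pf.C 23 1546) (Pf.B 12 8 (Pf.B 12 9 (Pf.B 12 5 (Pf.B 12 3 (Pf.C 0 0x204830a3020b) (Pf.C 2 396)) (Pf.C 2 652)) (Pf.C 0 0x4091410606)) (Pf.C 2 1036))) (Pf.C 2 1420)) Pf.nil)))) (Pf.B 7 5 (Pf.C 0 0x4091410287) (Pf.B 6 5 (Pf.C 0 0x4090e10286) (Pf.B 6 3 (Pf.W 22 6 [] [0,3,4,8,11] (Pf.cons (Pf.B 12 11 (Pf.B 12 8 (Pf.B 12 3 (Pf.C 0 0x302031620006) (Pf.C 2 396)) (Pf.C 2 1036)) (Pf.C 2 1420)) Pf.nil)) (Pf.W 22 6 [] [0,3,5,8,11] (Pf.cons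 (Pf.B 12 11 (Pf.B 12 8 (Pf.B 12 5 (Pf.B 12 3 (Pf.C 0 0x14303162000c) (Pf.C 2 396)) (Pf.C 2 652)) (Pf.C 2 1036)) (Pf.C 2 1420)) Pf.nil)))))))) (Pf.W 22 6 [] [0,4,7,8,9,10] (Pf.cons (Pf.B 12 10 (Pf.C 23 1546) (Pf.B 12 8 (Pf.B 12 9 (Pf.C 0 0x1060a0024406) (Pf.B 12 7 (Pf.C 23 1543) (Pf.C 0 0x409081c606))) (Pf.C 2 1036))) Pf.nil))) (Pf.C 2 392)) (Pf.C 2 648)) (Pf.C 2 395)) (Pf.C 2 651)))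
 (Pq.cons (Pq.L [0,4] 2913 (Pf.W 22 6 [] [0,4,7,10,11] (Pf.cons (Pf.B 12 11 (Pf.B 12 10 (Pf.C 23 1546) (Pf.B 12 7 (Pf.C 23 1543) (Pf.C 0 0x5871410606))) (Pf.C 2 1420)) Pf.nil)))
 (Pq.cons (Pq.L [] 64 (Pf.C 1 1159))
 (Pq.cons (Pq.L [0,2,3,4,5] 322 (Pf.B 11 5 (Pf.B 11 3 (Pf.B 11 2 (Pf.B 8 5 (Pf.B 8 3 (Pf.B 8 2 (Pf.B 6 5 (Pf.B 6 3 (Pf.W 22 6 [] [0,3,4,5,8] (Pf.cons (Pf.B 12 8 (Pf.B 12 5 (Pf.B 12 3 (Pf.C 0 0x200030a30206) (Pf.C 2 396)) (Pf.C 2 652)) (Pf.C 2 1036)) Pf.nil)) (Pf.W 22 6 [] [3,4,5,8,11] (Pf.cons (Pf.B 12 11 (Pf.B 12 8 (Pf.B 12 5 (Pf.B 12 3 (Pf.C 0 0x2c3030a30208) (Pf.C 2 396)) (Pf.C 2 652)) (Pf.C 2 1036)) (Pf.C 2 1420)) Pf.nil))) (Pf.B 6 3 (Pf.W 22 6 [] [0,3,5,8,11] (Pf.cons (Pf.B 12 11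 (Pf.B 12 8 (Pf.B 12 5 (Pf.B 12 3 (Pf.C 0 0x1430b100c00c) (Pf.C 2 396)) (Pf.C 2 652)) (Pf.C 2 1036)) (Pf.C 2 1420)) Pf.nil)) (Pf.B 6 2 (Pf.W 22 6 [] [0,2,3,5,8] (Pf.cons (Pf.B 12 8 (Pf.B 12 5 (Pf.B 12 3 (Pf.B 12 2 (Pf.C 0 0x14303100800c) (Pf.C 2 268)) (Pf.C 2 396)) (Pf.C 2 652)) (Pf.C 2 1036)) Pf.nil)) (Pf.W 22 6 [] [2,3,4,8,11] (Pf.cons (Pf.B 12 11 (Pf.B 12 8 (Pf.B 12 3 (Pf.B 12 2 (Pf.C 0 0x302031608308) (Pf.C 2 268)) (Pf.C 2 396)) (Pf.C 2 1036)) (Pf.C 2 1420)) Pf.nil))))) (Pf.C 2 264)) (Pf.C 2 392)) (Pf.C 2 648)) (Pf.C 2 267)) (Pf.C 2 395)) (Pf.C 2 651)))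
 (Pq.cons (Pq.L [] 64 (Pf.C 1 1286))
 (Pq.cons (Pq.L [] 64 (Pf.C 2 1416))
 (Pq.cons (Pq.L [] 64 (Pf.C 1 1287))
 (Pq.cons (Pq.L [] 64 (Pf.C 1 1158))
 (Pq.cons (Pq.L [0,4] 4095 (Pf.B 11 6 (Pf.W 22 6 [] [0,4,7,10,11] (Pf.cons (Pf.B 12 11 (Pf.B 12 10 (Pf.C 23 1546) (Pf.B 12 7 (Pf.C 23 1543) (Pf.C 0 0x58a081c606))) (Pf.C 2 1420)) Pf.nil)) (Pf.B 10 8 (Pf.C 0 0x1c4000c28584) (Pf.B 9 8 (Pf.W 22 6 [] [0,4,8,9,10,11] (Pf.cons (Pf.B 12 11 (Pf.B 12 10 (Pf.C 23 1546) (Pf.B 12 9 (Pf.C 0 0x1060a0c00589) (Pf.B 12 8 (Pf.C 0 0x40a1210606) (Pf.C 2 1036)))) (Pf.C 2 1420)) Pf.nil)) (Pf.C 0 0x185800e24404)))))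
 (Pq.cons (Pq.L [0,4] 2631 (Pf.W 22 6 [] [0,4,7,8,10] (Pf.cons (Pf.B 12 10 (Pf.C 23 1546) (Pf.B 12 8 (Pf.B 12 7 (Pf.C 23 1543) (Pf.C 0 0x4071410606)) (Pf.C 2 1036))) Pf.nil)))
 (Pq.cons (Pq.L [0,3,4,5] 0x88c8effff (Pf.B 11 5 (Pf.B 11 3 (Pf.B 8 5 (Pf.B 8 3 (Pf.W 22 6 [] [0,3,4,5,7,8,9,10,11,12,13,14] (Pf.cons (Pf.B 15 14 (Pf.B 15 13 (Pf.C 23 1933) (Pf.B 15 12 (Pf.B 15 11 (Pf.B 15 10 (Pf.C 23 1930) (Pf.B 15 9 (Pf.B 15 8 (Pf.B 15 7 (Pf.C 23 1927) (Pf.B 15 5 (Pf.B 15 3 (Pf.B 12 3 (Pf.C 0 0x3c203162000c) (Pf.B 12 5 (Pf.B 10 5 (Pf.C 0 0x1420f162050c) (Pf.B 9 5 (Pf.B 7 5 (Pf.C 0 0x1420f1620389) (Pf.B 6 5 (Pf.B 6 3 (Pf.C 0 0x142031620006) (Pf.W 24 6 [] [3,4,5,8,15] (Pf.cons (Pf.B 16 15 (Pf.B 16 8 (Pf.B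 16 5 (Pf.B 16 3 (Pf.C 0 0x403031e14208) (Pf.C 2 400)) (Pf.C 2 656)) (Pf.C 2 1040)) (Pf.C 2 1936)) Pf.nil))) (Pf.C 0 0x4070818289))) (Pf.C 0 0x40a082428c))) (Pf.C 0 0x14603162000f))) (Pf.C 2 399)) (Pf.C 2 655))) (Pf.C 2 1039)) (Pf.C 0 0x58a0824786))) (Pf.C 2 1423)) (Pf.C 0 0x70d0830786))) (Pf.C 2 1807)) Pf.nil)) (Pf.C 2 392)) (Pf.C 2 648)) (Pf.C 2 395)) (Pf.C 2 651)))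
 (Pq.cons (Pq.L [0,4] 18938 (Pf.W 22 6 [] [0,4,8,9,10,11] (Pf.cons (Pf.B 12 11 (Pf.B 12 10 (Pf.C 23 1546) (Pf.B 12 9 (Pf.B 12 8 (Pf.C 0 0x1060a1200406) (Pf.C 2 1036)) (Pf.C 0 0x58a0824606))) (Pf.C 2 1420)) Pf.nil)))
 (Pq.cons (Pq.L [0,4] 18938 (Pf.W 22 6 [] [0,4,8,9,10,11] (Pf.cons (Pf.B 12 11 (Pf.B 12 10 (Pf.C 23 1546) (Pf.B 12 9 (Pf.C 0 0x1060a0c00589) (Pf.B 12 8 (Pf.C 0 0x40a1210606) (Pf.C 2 1036)))) (Pf.C 2 1420)) Pf.nil)))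
 (Pq.cons (Pq.L [0,2,3,4,5] 4226 (Pf.B 11 5 (Pf.B 11 3 (Pf.B 11 2 (Pf.B 8 5 (Pf.B 8 3 (Pf.B 8 2 (Pf.B 6 5 (Pf.B 6 3 (Pf.W 22 6 [] [0,3,4,5,8] (Pf.cons (Pf.B 12 8 (Pf.B 12 5 (Pf.B 12 3 (Pf.C 0 0x200030a30206) (Pf.C 2 396)) (Pf.C 2 652)) (Pf.C 2 1036)) Pf.nil)) (Pf.W 22 6 [] [3,4,5,8,11] (Pf.cons (Pf.B 12 11 (Pf.B 12 8 (Pf.B 12 5 (Pf.B 12 3 (Pf.C 0 0x2c3030a30208) (Pf.C 2 396)) (Pf.C 2 652)) (Pf.C 2 1036)) (Pf.C 2 1420)) Pf.nil))) (Pf.B 6 3 (Pf.W 22 6 [] [0,3,5,8,11] (Pf.cons (Pf.B 12 11 (Pf.B 12 8 (Pf.B 12 5 (Pf.B 12 3 (Pf.C 0 0x1430b100c00c) (Pf.C 2 396)) (Pf.C 2 652)) (Pf.C 2 1036)) (Pf.C 2 1420)) Pf.nil)) (Pf.B 6 2 (Pf.W 22 6 [] [0,2,3,5,8] (Pf.cons (Pf.B 12 8 (Pf.B 12 5 (Pf.B 12 3 (Pf.B 12 2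 (Pf.C 0 0x14303100800c) (Pf.C 2 268)) (Pf.C 2 396)) (Pf.C 2 652)) (Pf.C 2 1036)) Pf.nil)) (Pf.W 22 6 [] [2,3,4,8,11] (Pf.cons (Pf.B 12 11 (Pf.B 12 8 (Pf.B 12 3 (Pf.B 12 2 (Pf.C 0 0x302031608308) (Pf.C 2 268)) (Pf.C 2 396)) (Pf.C 2 1036)) (Pf.C 2 1420)) Pf.nil))))) (Pf.C 2 264)) (Pf.C 2 392)) (Pf.C 2 648)) (Pf.C 2 267)) (Pf.C 2 395)) (Pf.C 2 651)))
 (Pq.cons (Pq.L [] 64 (Pf.C 1 1159))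
 (Pq.cons (Pq.L [] 64 (Pf.C 1 1286))
 (Pq.cons (Pq.L [] 64 (Pf.C 2 1416))
 (Pq.cons (Pq.L [] 64 (Pf.C 1 1287))
 (Pq.cons (Pq.L [] 64 (Pf.C 1 1158))
 (Pq.cons (Pq.L [0,3,4,5] 0x1dfffffff (Pf.B 14 5 (Pf.B 13 5 (Pf.B 13 3 (Pf.B 11 5 (Pf.B 11 3 (Pf.B 10 5 (Pf.B 10 3 (Pf.B 8 5 (Pf.B 8 3 (Pf.B 7 5 (Pf.B 7 3 (Pf.B 12 11 (Pf.B 12 8 (Pf.B 9 8 (Pf.B 12 5 (Pf.B 9 5 (Pf.B 6 5 (Pf.B 6 3 (Pf.C 0 0x142031420006) (Pf.W 22 6 [] [3,4,5,7,8] (Pf.cons (Pf.B 15 8 (Pf.B 15 7 (Pf.B 15 5 (Pf.B 15 3 (Pf.C 0 0x1c3030a3c208) (Pf.C 2 399)) (Pf.C 2 655)) (Pf.C 2 911)) (Pf.C 2 1039)) Pf.nil))) (Pf.C 0 0x143071620009)) (Pf.C 0 0x1448a101c00c)) (Pf.B 9 5 (Pf.C 0 0x1460d101c009) (Pf.B 6 5 (Pf.C 0 0x68c1210286) (Pf.W 22 6 [] [0,5,9,10,11,12,13,14]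 (Pf.cons (Pf.B 15 14 (Pf.B 15 13 (Pf.B 15 11 (Pf.B 15 12 (Pf.B 15 10 (Pf.B 15 9 (Pf.B 15 5 (Pf.C 0 0x68c121828f) (Pf.C 2 655)) (Pf.C 0 0x3c48a1a2c006)) (Pf.C 2 1295)) (Pf.C 0 0x3c60d1c2c006)) (Pf.C 2 1423)) (Pf.C 2 1679)) (Pf.C 2 1807)) Pf.nil))))) (Pf.B 12 5 (Pf.B 9 5 (Pf.B 9 3 (Pf.C 0 0x14203161c009) (Pf.C 0 0x142031420487)) (Pf.C 0 0x14488161c00c)) (Pf.B 9 5 (Pf.C 0 0x1460d161c009) (Pf.C 0 0x346051420487)))) (Pf.B 9 8 (Pf.B 12 5 (Pf.B 12 3 (Pf.C 0 0x14203141c00c) (Pf.C 0 0x142031a20607)) (Pf.B 9 5 (Pf.C 0 0x14608161c009) (Pf.C 0 0x284851a20607))) (Pf.C 0 0x183801824404))) (Pf.B 12 8 (Pf.B 9 8 (Pf.B 12 5 (Pf.B 12 3 (Pf.C 0 0x14203101c00c) (Pf.C 0 0x142031a2c607)) (Pf.B 9 5 (Pf.C 0 0x1460b101c009)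 (Pf.C 0 0x284851a2c607))) (Pf.B 12 5 (Pf.B 12 3 (Pf.C 0 0x14203101c00c) (Pf.C 0 0x142031a2c607)) (Pf.B 9 5 (Pf.C 0 0x1460b1c1c009) (Pf.C 0 0x2c6051420487)))) (Pf.B 9 8 (Pf.B 12 5 (Pf.B 12 3 (Pf.C 0 0x14203141c00c) (Pf.C 0 0x142031620607)) (Pf.B 9 5 (Pf.C 0 0x146081c1c009) (Pf.C 0 0x284851620607))) (Pf.C 0 0x183801824404)))) (Pf.C 2 391)) (Pf.C 2 647)) (Pf.C 2 392)) (Pf.C 2 648)) (Pf.C 2 394)) (Pf.C 2 650)) (Pf.C 2 395)) (Pf.C 2 651)) (Pf.C 2 397)) (Pf.C 2 653)) (Pf.C 2 654)))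
 (Pq.cons (Pq.L [0,3,4,5] 0x1dffffffe (Pf.B 14 5 (Pf.B 14 3 (Pf.B 13 5 (Pf.B 13 3 (Pf.B 11 5 (Pf.B 11 3 (Pf.B 10 5 (Pf.B 10 3 (Pf.B 8 5 (Pf.B 8 3 (Pf.B 7 5 (Pf.B 7 3 (Pf.B 12 11 (Pf.B 12 8 (Pf.B 12 5 (Pf.B 12 3 (Pf.C 0 0x14203162000c) (Pf.C 0 0x14203141c608)) (Pf.B 9 5 (Pf.C 0 0x1460d1c2c009) (Pf.B 6 5 (Pf.C 0 0x68c1210286) (Pf.W 22 6 [] [0,4,5,9,10,11,12,13,14] (Pf.cons (Pf.B 15 14 (Pf.B 15 13 (Pf.B 15 11 (Pf.B 15 12 (Pf.B 15 10 (Pf.B 15 9 (Pf.B 15 5 (Pf.C 0 0x68c121828f) (Pf.C 2 655)) (Pf.C 0 0x107891800506)) (Pf.C 2 1295)) (Pf.C 0 0x3c60d1c2c006)) (Pf.C 2 1423)) (Pf.C 2 1679)) (Pf.C 2 1807)) Pf.nil))))) (Pf.B 12 5 (Pf.B 12 3 (Pf.C 0 0x142031c2c00c) (Pf.C 0 0x14203101c60b)) (Pf.B 9 5 (Pf.C 0 0x1460d1c2c009)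 (Pf.B 6 5 (Pf.C 0 0x68c1210286) (Pf.W 22 6 [] [0,4,5,9,10,11,12,13,14] (Pf.cons (Pf.B 15 14 (Pf.B 15 13 (Pf.B 15 11 (Pf.B 15 12 (Pf.B 15 10 (Pf.B 15 9 (Pf.B 15 5 (Pf.C 0 0x68c121828f) (Pf.C 2 655)) (Pf.C 0 0x107891800506)) (Pf.C 2 1295)) (Pf.C 0 0x3c60d1c2c006)) (Pf.C 2 1423)) (Pf.C 2 1679)) (Pf.C 2 1807)) Pf.nil)))))) (Pf.B 12 8 (Pf.B 9 8 (Pf.B 12 5 (Pf.B 12 3 (Pf.C 0 0x142031c2000c) (Pf.C 0 0x14203141c608)) (Pf.B 9 5 (Pf.C 0 0x1460b1c20009) (Pf.B 6 5 (Pf.C 0 0x58c1210286) (Pf.W 22 6 [] [0,4,5,9,10,11,12,13] (Pf.cons (Pf.B 15 13 (Pf.B 15 11 (Pf.B 15 10 (Pf.B 15 9 (Pf.B 15 12 (Pf.B 15 5 (Pf.C 0 0x58c121828f) (Pf.C 2 655)) (Pf.C 0 0x1078c1200506)) (Pf.C 0 0x3c48a1a2c006)) (Pf.C 2 1295)) (Pf.C 2 1423))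 (Pf.C 2 1679)) Pf.nil))))) (Pf.C 0 0x204871a2c604)) (Pf.B 9 8 (Pf.B 12 5 (Pf.B 9 5 (Pf.B 9 3 (Pf.C 0 0x142031620009) (Pf.C 0 0x14203141c488)) (Pf.C 0 0x14487162060e)) (Pf.B 9 5 (Pf.B 9 3 (Pf.C 0 0x142031620009) (Pf.C 0 0x14203141c488)) (Pf.B 6 5 (Pf.C 0 0x40c1210286) (Pf.W 22 6 [] [0,4,5,8,9,10,11,12,13] (Pf.cons (Pf.B 15 13 (Pf.B 15 11 (Pf.B 15 10 (Pf.B 15 9 (Pf.B 15 12 (Pf.B 15 8 (Pf.B 15 5 (Pf.C 0 0x40c121828f) (Pf.C 2 655)) (Pf.C 2 1039)) (Pf.C 0 0x1078c1200506)) (Pf.C 0 0x3c48a1a2c006)) (Pf.C 2 1295)) (Pf.C 2 1423)) (Pf.C 2 1679)) Pf.nil))))) (Pf.B 12 5 (Pf.B 9 5 (Pf.B 9 3 (Pf.C 0 0x142031a2c009) (Pf.C 0 0x14203101c48b)) (Pf.C 0 0x144871a2c60e)) (Pf.B 9 5 (Pf.B 9 3 (Pf.C 0 0x142031a2c009) (Pf.C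 0 0x14203101c48b)) (Pf.B 6 5 (Pf.C 0 0x58c1210286) (Pf.W 22 6 [] [0,4,5,9,10,11,12,13] (Pf.cons (Pf.B 15 13 (Pf.B 15 11 (Pf.B 15 10 (Pf.B 15 9 (Pf.B 15 12 (Pf.B 15 5 (Pf.C 0 0x58c121828f) (Pf.C 2 655)) (Pf.C 0 0x1078c1200506)) (Pf.C 0 0x3c48a1a2c006)) (Pf.C 2 1295)) (Pf.C 2 1423)) (Pf.C 2 1679)) Pf.nil)))))))) (Pf.C 2 391)) (Pf.C 2 647)) (Pf.C 2 392)) (Pf.C 2 648)) (Pf.C 2 394)) (Pf.C 2 650)) (Pf.C 2 395)) (Pf.C 2 651)) (Pf.C 2 397)) (Pf.C 2 653)) (Pf.C 2 398)) (Pf.C 2 654)))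
 (Pq.cons (Pq.L [0,3,4,5] 4039 (Pf.B 11 5 (Pf.B 11 3 (Pf.B 10 5 (Pf.B 10 3 (Pf.B 8 5 (Pf.B 8 3 (Pf.B 7 5 (Pf.B 7 3 (Pf.B 6 5 (Pf.B 6 3 (Pf.C 0 0x142031420006) (Pf.C 0 0x14203161c308)) (Pf.W 22 6 [] [0,5,7,8,10] (Pf.cons (Pf.B 12 10 (Pf.B 12 8 (Pf.B 12 7 (Pf.B 12 5 (Pf.C 0 0x14307142000c) (Pf.C 2 652)) (Pf.C 2 908)) (Pf.C 2 1036)) (Pf.C 2 1292)) Pf.nil))) (Pf.C 2 391)) (Pf.C 2 647)) (Pf.C 2 392)) (Pf.C 2 648)) (Pf.C 2 394)) (Pf.C 2 650)) (Pf.C 2 395)) (Pf.C 2 651)))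
 (Pq.cons (Pq.L [0,3,4,5] 0x1dfdffe7f (Pf.B 13 5 (Pf.B 13 3 (Pf.B 12 11 (Pf.B 12 8 (Pf.B 11 5 (Pf.B 11 3 (Pf.B 10 5 (Pf.B 10 3 (Pf.B 8 5 (Pf.B 8 3 (Pf.B 7 5 (Pf.B 7 3 (Pf.B 9 8 (Pf.B 12 5 (Pf.B 9 5 (Pf.B 9 3 (Pf.C 0 0x14203101c009) (Pf.C 0 0x142031a28487)) (Pf.C 0 0x1448a101c00c)) (Pf.B 6 5 (Pf.C 0 0x1460d141c308) (Pf.B 9 5 (Pf.C 0 0x3861810289) (Pf.W 22 6 [] [0,4,5,7,8,9,10,12,13] (Pf.cons (Pf.B 15 13 (Pf.B 15 10 (Pf.B 15 8 (Pf.B 15 7 (Pf.B 15 12 (Pf.B 15 9 (Pf.B 15 5 (Pf.C 0 0x386182428f) (Pf.C 2 655)) (Pf.C 0 0x107890c0050c)) (Pf.C 0 0x3c60d141c308)) (Pf.C 2 911)) (Pf.C 2 1039)) (Pf.C 2 1295)) (Pf.C 2 1679)) Pf.nil))))) (Pf.B 12 5 (Pf.B 9 5 (Pf.B 9 3 (Pf.C 0 0x14203161c009) (Pf.C 0 0x142031420487))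 (Pf.C 0 0x14488161c00c)) (Pf.B 9 5 (Pf.C 0 0x1460d1420487) (Pf.B 6 5 (Pf.C 0 0x4091810286) (Pf.W 22 6 [] [0,4,5,8,9,11,12,13,14] (Pf.cons (Pf.B 15 14 (Pf.B 15 13 (Pf.B 15 11 (Pf.B 15 8 (Pf.B 15 9 (Pf.B 15 12 (Pf.B 15 5 (Pf.C 0 0x409181828f) (Pf.C 2 655)) (Pf.C 0 0x1078c121868b)) (Pf.C 0 0x3c4881c2c006)) (Pf.C 2 1039)) (Pf.C 2 1423)) (Pf.C 2 1679)) (Pf.C 2 1807)) Pf.nil)))))) (Pf.C 2 391)) (Pf.C 2 647)) (Pf.C 2 392)) (Pf.C 2 648)) (Pf.C 2 394)) (Pf.C 2 650)) (Pf.C 2 395)) (Pf.C 2 651)) (Pf.C 0 0x2060d141c304)) (Pf.C 0 0x2c60d141c304)) (Pf.C 2 397)) (Pf.C 2 653)))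
 (Pq.cons (Pq.L [0,3,4,5] 64519 (Pf.B 11 5 (Pf.B 11 3 (Pf.B 10 5 (Pf.B 10 3 (Pf.B 8 5 (Pf.B 8 3 (Pf.B 7 5 (Pf.B 7 3 (Pf.B 6 5 (Pf.B 6 3 (Pf.C 0 0x142031620006) (Pf.C 0 0x14203141c308)) (Pf.W 22 6 [] [0,5,7,8,11] (Pf.cons (Pf.B 15 11 (Pf.B 15 8 (Pf.B 15 7 (Pf.B 15 5 (Pf.C 0 0x14307162000f) (Pf.C 2 655)) (Pf.C 2 911)) (Pf.C 2 1039)) (Pf.C 2 1423)) Pf.nil))) (Pf.C 2 391)) (Pf.C 2 647)) (Pf.C 2 392)) (Pf.C 2 648)) (Pf.C 2 394)) (Pf.C 2 650)) (Pf.C 2 395)) (Pf.C 2 651)))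
 (Pq.cons (Pq.L [0,3,4,5] 0x1ffbbffff (Pf.B 14 5 (Pf.B 13 5 (Pf.B 13 3 (Pf.B 12 11 (Pf.B 12 8 (Pf.B 11 5 (Pf.B 10 5 (Pf.B 10 3 (Pf.B 9 8 (Pf.B 8 5 (Pf.B 8 3 (Pf.B 7 5 (Pf.B 7 3 (Pf.B 12 5 (Pf.B 9 5 (Pf.B 9 3 (Pf.C 0 0x14203101c009) (Pf.C 0 0x142031a28487)) (Pf.C 0 0x1448a101c00c)) (Pf.B 9 5 (Pf.C 0 0x1460d1c28487) (Pf.B 6 5 (Pf.C 0 0x1448a161c308) (Pf.W 22 6 [] [0,4,5,7,8,9,10,11,12,13] (Pf.cons (Pf.B 15 13 (Pf.B 15 11 (Pf.B 15 10 (Pf.B 15 8 (Pf.B 15 12 (Pf.B 15 9 (Pf.B 15 7 (Pf.B 15 5 (Pf.C 0 0x386182428f) (Pf.C 2 655)) (Pf.C 2 911)) (Pf.C 0 0x107890c0050c)) (Pf.C 0 0x3c60d1628308)) (Pf.C 2 1039)) (Pf.C 2 1295)) (Pf.C 2 1423)) (Pf.C 2 1679)) Pf.nil))))) (Pf.C 2 391)) (Pf.C 2 647)) (Pf.C 2 392))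 (Pf.C 2 648)) (Pf.C 0 0x2048a161c304)) (Pf.C 2 394)) (Pf.C 2 650)) (Pf.C 2 651)) (Pf.C 0 0x2060d141c304)) (Pf.C 0 0x2c60d1c28484)) (Pf.C 2 397)) (Pf.C 2 653)) (Pf.C 2 654)))
 (Pq.cons (Pq.L [0,1,2,3,4,5] 0x16767febf (Pf.B 14 5 (Pf.B 14 3 (Pf.B 14 2 (Pf.B 14 1 (Pf.B 11 5 (Pf.B 11 3 (Pf.B 11 2 (Pf.B 11 1 (Pf.B 10 5 (Pf.B 10 3 (Pf.B 8 5 (Pf.B 8 3 (Pf.B 8 2 (Pf.B 8 1 (Pf.B 7 5 (Pf.B 7 3 (Pf.B 7 2 (Pf.B 12 11 (Pf.B 12 8 (Pf.B 9 8 (Pf.B 12 5 (Pf.B 12 3 (Pf.C 0 0x14203162000c) (Pf.C 0 0x14203141c608)) (Pf.B 6 5 (Pf.C 0 0x146071c2c308) (Pf.B 9 5 (Pf.C 0 0x5861810289) (Pf.W 22 6 [] [0,4,5,8,9,10,11,12,14] (Pf.cons (Pf.B 15 14 (Pf.B 15 11 (Pf.B 15 10 (Pf.B 15 8 (Pf.B 15 12 (Pf.B 15 9 (Pf.B 15 5 (Pf.C 0 0x586182428f)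 (Pf.C 2 655)) (Pf.C 0 0x107891818508)) (Pf.C 0 0x3c60a1c2c308)) (Pf.C 2 1039)) (Pf.C 2 1295)) (Pf.C 2 1423)) (Pf.C 2 1807)) Pf.nil))))) (Pf.B 12 5 (Pf.B 12 3 (Pf.C 0 0x14203162000c) (Pf.C 0 0x14203141c608)) (Pf.B 9 5 (Pf.C 0 0x146071c2048b) (Pf.B 6 5 (Pf.C 0 0x4091810286) (Pf.W 22 6 [] [0,5,8,9,10,11,12,14] (Pf.cons (Pf.B 15 14 (Pf.B 15 11 (Pf.B 15 10 (Pf.B 15 8 (Pf.B 15 12 (Pf.B 15 9 (Pf.B 15 5 (Pf.C 0 0x409181828f) (Pf.C 2 655)) (Pf.C 0 0x2c30e103c48c)) (Pf.C 0 0x3c60a1c2c308)) (Pf.C 2 1039)) (Pf.C 2 1295)) (Pf.C 2 1423)) (Pf.C 2 1807)) Pf.nil)))))) (Pf.C 0 0x206071c2c304)) (Pf.B 12 8 (Pf.B 9 8 (Pf.B 12 5 (Pf.B 12 3 (Pf.C 0 0x142031c2000c) (Pf.C 0 0x14203141c608)) (Pf.B 9 5 (Pf.C 0 0x384871614608)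 (Pf.B 6 5 (Pf.C 0 0x1858c1210288) (Pf.W 22 6 [] [4,5,7,8,10] (Pf.cons (Pf.B 15 10 (Pf.B 15 8 (Pf.B 15 7 (Pf.B 15 5 (Pf.C 0 0x3c205141c308) (Pf.C 2 655)) (Pf.C 2 911)) (Pf.C 2 1039)) (Pf.C 2 1295)) Pf.nil))))) (Pf.C 0 0x2c6071c20484)) (Pf.B 9 8 (Pf.C 0 0x304000c24704) (Pf.B 12 5 (Pf.B 12 3 (Pf.B 12 2 (Pf.C 0 0x142031c0800c) (Pf.B 12 1 (Pf.C 0 0x142031c0400c) (Pf.B 9 2 (Pf.C 0 0x384871608604) (Pf.B 9 1 (Pf.C 0 0x384821604604) (Pf.B 6 2 (Pf.C 0 0x2c3071008484) (Pf.B 6 1 (Pf.C 0 0x2c3021004484) (Pf.B 9 5 (Pf.B 9 3 (Pf.B 6 5 (Pf.B 6 3 (Pf.C 0 0x101801824406) (Pf.C 0 0x20481160c305)) (Pf.C 0 0x102861800589)) (Pf.C 0 0x2c6011c0c485)) (Pf.B 6 5 (Pf.C 0 0x102891800406) (Pf.W 22 6 [] [4,5,7,8,10] (Pf.cons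 (Pf.B 15 10 (Pf.B 15 8 (Pf.B 15 7 (Pf.B 15 5 (Pf.C 0 0x3c205141c308) (Pf.C 2 655)) (Pf.C 2 911)) (Pf.C 2 1039)) (Pf.C 2 1295)) Pf.nil)))))))))) (Pf.C 0 0x14203101c60e)) (Pf.B 12 2 (Pf.B 9 2 (Pf.B 9 5 (Pf.C 0 0x384871614602) (Pf.B 6 2 (Pf.B 6 5 (Pf.C 0 0x2c3071014482) (Pf.W 22 6 [] [4,5,7,8,10] (Pf.cons (Pf.B 15 10 (Pf.B 15 8 (Pf.B 15 7 (Pf.B 15 5 (Pf.C 0 0x3c205141c308) (Pf.C 2 655)) (Pf.C 2 911)) (Pf.C 2 1039)) (Pf.C 2 1295)) Pf.nil))) (Pf.C 0 0x204871608304))) (Pf.C 0 0x2c6071c08484)) (Pf.B 9 2 (Pf.C 0 0x384871608604) (Pf.B 6 2 (Pf.C 0 0x2c3071008484) (Pf.B 12 1 (Pf.B 9 1 (Pf.B 9 5 (Pf.C 0 0x384821614601) (Pf.B 6 1 (Pf.B 6 5 (Pf.C 0 0x2c3021014481) (Pf.W 22 6 [] [4,5,7,8,10] (Pf.cons (Pf.B 15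 10 (Pf.B 15 8 (Pf.B 15 7 (Pf.B 15 5 (Pf.C 0 0x3c205141c308) (Pf.C 2 655)) (Pf.C 2 911)) (Pf.C 2 1039)) (Pf.C 2 1295)) Pf.nil))) (Pf.C 0 0x204821604304))) (Pf.C 0 0x2c6021c04484)) (Pf.B 9 1 (Pf.C 0 0x384821604604) (Pf.B 6 1 (Pf.C 0 0x2c3021004484) (Pf.B 6 5 (Pf.B 6 3 (Pf.W 22 6 [] [0,3,4,5,8] (Pf.cons (Pf.B 15 8 (Pf.B 15 5 (Pf.B 15 3 (Pf.C 0 0x200030a3c206) (Pf.C 2 399)) (Pf.C 2 655)) (Pf.C 2 1039)) Pf.nil)) (Pf.C 0 0x142030404308)) (Pf.W 22 6 [] [4,5,7,8,10] (Pf.cons (Pf.B 15 10 (Pf.B 15 8 (Pf.B 15 7 (Pf.B 15 5 (Pf.C 0 0x3c205141c308) (Pf.C 2 655)) (Pf.C 2 911)) (Pf.C 2 1039)) (Pf.C 2 1295)) Pf.nil))))))))))))) (Pf.C 2 263)) (Pf.C 2 391)) (Pf.C 2 647)) (Pf.C 2 136)) (Pf.C 2 264)) (Pf.C 2 392)) (Pf.C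 2 648)) (Pf.C 2 394)) (Pf.C 2 650)) (Pf.C 2 139)) (Pf.C 2 267)) (Pf.C 2 395)) (Pf.C 2 651)) (Pf.C 2 142)) (Pf.C 2 270)) (Pf.C 2 398)) (Pf.C 2 654)))
 (Pq.cons (Pq.L [] 64 (Pf.C 2 1288))
 (Pq.cons (Pq.L [] 64 (Pf.C 2 1415))
 (Pq.cons (Pq.L [] 64 (Pf.C 2 1416))
 (Pq.cons (Pq.L [] 64 (Pf.C 2 1287))
 (Pq.cons (Pq.L [] 64 (Pf.C 1 1158))
 Pq.nil))))))))))))))))))))))))))))))))))))))))))))))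
theorem bD_o19 : AllRef bD_T bD_G26 (List.drop 27 (hitObl [24,26,30,31,37,38,40,41] bD_h40)) :=
  chkPq_sound bD_o19c _ (by decide +kernel)
noncomputable def bD_o20c : Pq := (Pq.cons (Pq.L [] 1 (Pf.C 1 902))
 (Pq.cons (Pq.L [] 1 (Pf.C 1 902))
 (Pq.cons (Pq.L [0,1,2,3,4,5] 2 (Pf.B 6 5 (Pf.B 6 3 (Pf.B 6 2 (Pf.B 6 1 (Pf.B 8 5 (Pf.B 8 3 (Pf.W 26 8 [] [0,3,4,5,6] (Pf.cons (Pf.B 9 6 (Pf.B 9 5 (Pf.B 9 3 (Pf.C 0 0x240030c14208) (Pf.C 2 393)) (Pf.C 2 649)) (Pf.C 2 777)) Pf.nil)) (Pf.B 8 2 (Pf.W 20 8 [] [0,2,4,5,6] (Pf.cons (Pf.B 9 6 (Pf.B 9 5 (Pf.B 9 2 (Pf.C 0 0x80090c14208) (Pf.C 2 265)) (Pf.C 2 649)) (Pf.C 2 777)) Pf.nil)) (Pf.W 26 8 [] [2,3,4,5,6] (Pf.cons (Pf.B 9 6 (Pf.B 9 5 (Pf.B 9 3 (Pf.B 9 2 (Pf.C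 0 0x84030c14209) (Pf.C 2 265)) (Pf.C 2 393)) (Pf.C 2 649)) (Pf.C 2 777)) Pf.nil)))) (Pf.B 8 3 (Pf.B 8 2 (Pf.B 8 1 (Pf.C 0 0x182030404008) (Pf.C 0 0x144010608006)) (Pf.W 20 8 [] [0,2,3,5,6] (Pf.cons (Pf.B 9 6 (Pf.B 9 5 (Pf.B 9 3 (Pf.B 9 2 (Pf.C 0 0x144020624006) (Pf.C 2 265)) (Pf.C 2 393)) (Pf.C 2 649)) (Pf.C 2 777)) Pf.nil))) (Pf.B 8 2 (Pf.W 20 8 [] [0,2,3,5,6] (Pf.cons (Pf.B 9 6 (Pf.B 9 5 (Pf.B 9 3 (Pf.B 9 2 (Pf.C 0 0x144030424006) (Pf.C 2 265)) (Pf.C 2 393)) (Pf.C 2 649)) (Pf.C 2 777)) Pf.nil)) (Pf.B 8 1 (Pf.W 20 8 [] [1,2,3,4,6] (Pf.cons (Pf.B 9 6 (Pf.B 9 3 (Pf.B 9 2 (Pf.B 9 1 (Pf.C 0 0x84030c24201) (Pf.C 2 137)) (Pf.C 2 265)) (Pf.C 2 393)) (Pf.C 2 777)) Pf.nil)) (Pf.W 26 8 [] [1,2,3,4,6] (Pf.cons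 (Pf.B 9 6 (Pf.B 9 3 (Pf.B 9 2 (Pf.B 9 1 (Pf.C 0 0x182030404409) (Pf.C 2 137)) (Pf.C 2 265)) (Pf.C 2 393)) (Pf.C 2 777)) Pf.nil)))))) (Pf.C 2 134)) (Pf.C 2 262)) (Pf.C 2 390)) (Pf.C 2 646)))
 (Pq.cons (Pq.L [] 1 (Pf.C 1 902))
 (Pq.cons (Pq.L [] 1 (Pf.C 35 902))
 (Pq.cons (Pq.L [] 1 (Pf.C 1 902))
 (Pq.cons (Pq.L [] 1 (Pf.C 1 902))
 (Pq.cons (Pq.L [] 1 (Pf.C 37 902))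
 (Pq.cons (Pq.L [] 1 (Pf.C 1 902))
 (Pq.cons (Pq.L [0,1,2,3,4,5] 3 (Pf.B 8 7 (Pf.B 6 5 (Pf.B 6 3 (Pf.B 6 2 (Pf.B 6 1 (Pf.B 8 5 (Pf.B 8 3 (Pf.B 8 2 (Pf.C 0 0x142030c08008) (Pf.B 7 5 (Pf.B 7 3 (Pf.B 7 2 (Pf.W 28 7 [] [0,2,3,4,5] (Pf.cons (Pf.B 9 5 (Pf.B 9 3 (Pf.B 9 2 (Pf.C 0 0x80030a24207) (Pf.C 2 265)) (Pf.C 2 393)) (Pf.C 2 649)) Pf.nil)) (Pf.W 28 7 [] [0,2,3,4,5,6,8] (Pf.cons (Pf.B 9 6 (Pf.B 9 5 (Pf.B 9 3 (Pf.B 9 8 (Pf.C 0 0x180030a24208) (Pf.B 9 2 (Pf.C 0 0x84090a0c206) (Pf.C 2 265))) (Pf.C 2 393)) (Pf.C 2 649)) (Pf.C 2 777)) Pf.nil))) (Pf.B 7 2 (Pf.W 20 7 [] [2,3,4,5,6] (Pf.cons (Pf.B 9 6 (Pf.B 9 5 (Pf.B 9 3 (Pf.B 9 2 (Pf.C 0 0x183830a24202) (Pf.C 2 265)) (Pf.C 2 393)) (Pf.C 2 649)) (Pf.C 2 777))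 Pf.nil)) (Pf.W 20 7 [] [2,3,4,5,6,8] (Pf.cons (Pf.B 9 6 (Pf.B 9 5 (Pf.B 9 3 (Pf.B 9 8 (Pf.C 0 0x183830a24208) (Pf.B 9 2 (Pf.C 0 0x84090a0c206) (Pf.C 2 265))) (Pf.C 2 393)) (Pf.C 2 649)) (Pf.C 2 777)) Pf.nil)))) (Pf.B 7 3 (Pf.B 7 2 (Pf.W 20 7 [] [2,3,4,5,6] (Pf.cons (Pf.B 9 6 (Pf.B 9 5 (Pf.B 9 3 (Pf.B 9 2 (Pf.C 0 0x183850624202) (Pf.C 2 265)) (Pf.C 2 393)) (Pf.C 2 649)) (Pf.C 2 777)) Pf.nil)) (Pf.W 20 7 [] [0,2,3,4,5,6,8] (Pf.cons (Pf.B 9 6 (Pf.B 9 5 (Pf.B 9 3 (Pf.B 9 8 (Pf.C 0 0x143860624008) (Pf.B 9 2 (Pf.C 0 0x84090a0c206) (Pf.C 2 265))) (Pf.C 2 393)) (Pf.C 2 649)) (Pf.C 2 777)) Pf.nil))) (Pf.W 28 7 [] [0,2,3,4,5,6,8] (Pf.cons (Pf.B 9 6 (Pf.B 9 5 (Pf.B 9 3 (Pf.B 9 8 (Pf.C 0 0x180030a24208) (Pf.B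 9 2 (Pf.C 0 0x84090a0c206) (Pf.C 2 265))) (Pf.C 2 393)) (Pf.C 2 649)) (Pf.C 2 777)) Pf.nil))))) (Pf.B 8 2 (Pf.W 20 8 [] [0,2,4,5,6] (Pf.cons (Pf.B 9 6 (Pf.B 9 5 (Pf.B 9 2 (Pf.C 0 0x142090c08008) (Pf.C 2 265)) (Pf.C 2 649)) (Pf.C 2 777)) Pf.nil)) (Pf.W 20 8 [] [2,3,4,5,6] (Pf.cons (Pf.B 9 6 (Pf.B 9 5 (Pf.B 9 3 (Pf.B 9 2 (Pf.C 0 0x84030a24206) (Pf.C 2 265)) (Pf.C 2 393)) (Pf.C 2 649)) (Pf.C 2 777)) Pf.nil)))) (Pf.B 8 3 (Pf.B 8 2 (Pf.W 28 8 [] [0,2,3,4,6] (Pf.cons (Pf.B 9 6 (Pf.B 9 3 (Pf.B 9 2 (Pf.C 0 0x242030c08008) (Pf.C 2 265)) (Pf.C 2 393)) (Pf.C 2 777)) Pf.nil)) (Pf.W 20 8 [] [2,3,4,5,6] (Pf.cons (Pf.B 9 6 (Pf.B 9 5 (Pf.B 9 3 (Pf.B 9 2 (Pf.C 0 0x84050624206) (Pf.C 2 265)) (Pf.C 2 393)) (Pf.C 2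 649)) (Pf.C 2 777)) Pf.nil))) (Pf.B 8 2 (Pf.W 28 8 [] [0,2,3,5,6] (Pf.cons (Pf.B 9 6 (Pf.B 9 5 (Pf.B 9 3 (Pf.B 9 2 (Pf.C 0 0x144030c08009) (Pf.C 2 265)) (Pf.C 2 393)) (Pf.C 2 649)) (Pf.C 2 777)) Pf.nil)) (Pf.B 8 1 (Pf.W 28 8 [] [0,1,2,5,6] (Pf.cons (Pf.B 9 6 (Pf.B 9 5 (Pf.B 9 2 (Pf.B 9 1 (Pf.C 0 0x144020c04009) (Pf.C 2 137)) (Pf.C 2 265)) (Pf.C 2 649)) (Pf.C 2 777)) Pf.nil)) (Pf.W 20 8 [] [1,2,3,4,6] (Pf.cons (Pf.B 9 6 (Pf.B 9 3 (Pf.B 9 2 (Pf.B 9 1 (Pf.C 0 0x242030404406) (Pf.C 2 137)) (Pf.C 2 265)) (Pf.C 2 393)) (Pf.C 2 777)) Pf.nil)))))) (Pf.C 2 134)) (Pf.C 2 262)) (Pf.C 2 390)) (Pf.C 2 646)) (Pf.C 1 904)))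
 (Pq.cons (Pq.L [] 1 (Pf.C 1 902))
 (Pq.cons (Pq.L [] 1 (Pf.C 1 902))
 (Pq.cons (Pq.L [] 2 (Pf.C 29 776))
 (Pq.cons (Pq.L [] 1 (Pf.C 1 902))
 (Pq.cons (Pq.L [] 2 (Pf.C 30 776))
 (Pq.cons (Pq.L [] 2 (Pf.B 8 7 (Pf.W 36 8 [] [6] (Pf.cons (Pf.B 9 6 (Pf.C 31 0x20309) (Pf.C 1 777)) Pf.nil)) (Pf.C 2 904)))
 (Pq.cons (Pq.L [] 2 (Pf.B 8 7 (Pf.W 36 8 [] [6] (Pf.cons (Pf.B 9 6 (Pf.C 32 0x20309) (Pf.C 1 777)) Pf.nil)) (Pf.C 2 904)))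
 (Pq.cons (Pq.L [] 1 (Pf.C 2 902))
 (Pq.cons (Pq.L [] 2 (Pf.C 23 1030))
 (Pq.cons (Pq.L [] 1 (Pf.C 2 902))
 (Pq.cons (Pq.L [0,2,3,4,5] 3 (Pf.B 8 7 (Pf.B 8 5 (Pf.B 8 3 (Pf.B 8 2 (Pf.B 7 5 (Pf.B 7 3 (Pf.B 7 2 (Pf.B 6 5 (Pf.B 6 3 (Pf.W 22 6 [] [0,3,4,5,8] (Pf.cons (Pf.B 9 8 (Pf.B 9 5 (Pf.B 9 3 (Pf.C 0 0x200030a24206) (Pf.C 2 393)) (Pf.C 2 649)) (Pf.C 2 1033)) Pf.nil)) (Pf.W 22 6 [] [3,4,5,7,8] (Pf.cons (Pf.B 9 8 (Pf.B 9 7 (Pf.B 9 5 (Pf.B 9 3 (Pf.C 0 0x1c3030a24208) (Pf.C 2 393)) (Pf.C 2 649)) (Pf.C 2 905)) (Pf.C 2 1033)) Pf.nil))) (Pf.B 6 3 (Pf.W 22 6 [] [0,3,5,7,8] (Pf.cons (Pf.B 9 8 (Pf.B 9 7 (Pf.B 9 5 (Pf.B 9 3 (Pf.C 0 0x14307100c009) (Pf.C 2 393)) (Pf.C 2 649)) (Pf.C 2 905)) (Pf.C 2 1033)) Pf.nil))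 (Pf.B 6 2 (Pf.W 22 6 [] [0,2,3,5,8] (Pf.cons (Pf.B 9 8 (Pf.B 9 5 (Pf.B 9 3 (Pf.B 9 2 (Pf.C 0 0x143031008009) (Pf.C 2 265)) (Pf.C 2 393)) (Pf.C 2 649)) (Pf.C 2 1033)) Pf.nil)) (Pf.W 22 6 [] [2,3,4,7,8] (Pf.cons (Pf.B 9 8 (Pf.B 9 7 (Pf.B 9 3 (Pf.B 9 2 (Pf.C 0 0x242030e08308) (Pf.C 2 265)) (Pf.C 2 393)) (Pf.C 2 905)) (Pf.C 2 1033)) Pf.nil))))) (Pf.C 2 263)) (Pf.C 2 391)) (Pf.C 2 647)) (Pf.C 2 264)) (Pf.C 2 392)) (Pf.C 2 648)) (Pf.C 2 904)))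
 (Pq.cons (Pq.L [0,2,3,4,5] 3 (Pf.B 8 7 (Pf.B 8 5 (Pf.B 8 3 (Pf.B 8 2 (Pf.B 7 5 (Pf.B 7 3 (Pf.B 7 2 (Pf.B 6 5 (Pf.B 6 3 (Pf.W 22 6 [] [0,3,4,5,8] (Pf.cons (Pf.B 9 8 (Pf.B 9 5 (Pf.B 9 3 (Pf.C 0 0x200030a24206) (Pf.C 2 393)) (Pf.C 2 649)) (Pf.C 2 1033)) Pf.nil)) (Pf.W 22 6 [] [3,4,5,7,8] (Pf.cons (Pf.B 9 8 (Pf.B 9 7 (Pf.B 9 5 (Pf.B 9 3 (Pf.C 0 0x1c3030a24208) (Pf.C 2 393)) (Pf.C 2 649)) (Pf.C 2 905)) (Pf.C 2 1033)) Pf.nil))) (Pf.B 6 3 (Pf.W 22 6 [] [0,3,5,7,8] (Pf.cons (Pf.B 9 8 (Pf.B 9 7 (Pf.B 9 5 (Pf.B 9 3 (Pf.C 0 0x14307100c009) (Pf.C 2 393)) (Pf.C 2 649)) (Pf.C 2 905)) (Pf.C 2 1033)) Pf.nil)) (Pf.B 6 2 (Pf.W 22 6 [] [0,2,3,5,8] (Pf.cons (Pf.B 9 8 (Pf.B 9 5 (Pf.B 9 3 (Pf.B 9 2 (Pf.C 0 0x143031008009)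 (Pf.C 2 265)) (Pf.C 2 393)) (Pf.C 2 649)) (Pf.C 2 1033)) Pf.nil)) (Pf.W 22 6 [] [2,3,4,7,8] (Pf.cons (Pf.B 9 8 (Pf.B 9 7 (Pf.B 9 3 (Pf.B 9 2 (Pf.C 0 0x242030e08308) (Pf.C 2 265)) (Pf.C 2 393)) (Pf.C 2 905)) (Pf.C 2 1033)) Pf.nil))))) (Pf.C 2 263)) (Pf.C 2 391)) (Pf.C 2 647)) (Pf.C 2 264)) (Pf.C 2 392)) (Pf.C 2 648)) (Pf.C 2 904)))
 (Pq.cons (Pq.L [] 1 (Pf.C 2 902))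
 (Pq.cons (Pq.L [0,3,4,5] 3 (Pf.B 8 7 (Pf.B 8 5 (Pf.B 8 3 (Pf.B 7 5 (Pf.B 7 3 (Pf.W 34 7 [] [0,3,4,5,6,8] (Pf.cons (Pf.B 9 6 (Pf.B 9 8 (Pf.W 34 8 [] [0,4,6,7,9] (Pf.cons (Pf.B 10 9 (Pf.B 10 6 (Pf.B 10 7 (Pf.C 0 0x284001218384) (Pf.W 20 9 [] [0,4,6,7,8,10] (Pf.cons (Pf.B 11 8 (Pf.B 11 7 (Pf.B 11 6 (Pf.C 21 1414) (Pf.B 11 10 (Pf.C 0 0x284000c10589) (Pf.W 20 10 [] [4,7,8,11] (Pf.cons (Pf.B 12 11 (Pf.B 12 8 (Pf.B 12 7 (Pf.W 26 10 [] [4,7,8,11,12] (Pf.cons (Pf.B 13 12 (Pf.B 13 11 (Pf.B 13 8 (Pf.B 13 7 (Pf.C 0 0x3020b101c50d) (Pf.C 2 909)) (Pf.C 2 1037)) (Pf.C 2 1421)) (Pf.C 2 1549)) Pf.nil)) (Pf.C 2 908)) (Pf.C 2 1036)) (Pf.C 2 1420)) Pf.nil)))) (Pf.C 2 907)) (Pf.C 2 1035)) Pf.nil))) (Pf.C 1 778)) (Pf.C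 1 1162)) Pf.nil)) (Pf.W 20 9 [] [0,3,4,5,6,7,8] (Pf.cons (Pf.B 10 8 (Pf.B 10 7 (Pf.B 10 6 (Pf.C 21 1286) (Pf.B 10 5 (Pf.B 10 3 (Pf.W 26 9 [] [0,3,4,5,6,7,8,10] (Pf.cons (Pf.B 11 10 (Pf.B 11 8 (Pf.B 11 7 (Pf.B 11 5 (Pf.B 11 3 (Pf.B 9 5 (Pf.B 9 3 (Pf.B 11 6 (Pf.B 6 5 (Pf.B 6 3 (Pf.C 0 0x142031620006) (Pf.C 0 0x20487140c305)) (Pf.C 0 0x20487141430b)) (Pf.W 26 9 [11] [4,6,7,8,10] (Pf.cons (Pf.B 12 11 (Pf.B 12 10 (Pf.B 12 8 (Pf.B 12 7 (Pf.B 12 6 (Pf.C 0 0x20487162830c) (Pf.C 0 0x204871630304)) (Pf.C 2 908)) (Pf.C 2 1036)) (Pf.C 2 1292)) (Pf.C 2 1420)) Pf.nil))) (Pf.C 0 0x14203101c48b)) (Pf.C 0 0x28205101c48b)) (Pf.C 2 395)) (Pf.C 2 651)) (Pf.C 2 907)) (Pf.C 2 1035)) (Pf.C 2 1291)) Pf.nil)) (Pf.C 2 394))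 (Pf.C 2 650))) (Pf.C 2 906)) (Pf.C 2 1034)) Pf.nil))) (Pf.C 1 777)) Pf.nil)) (Pf.C 2 391)) (Pf.C 2 647)) (Pf.C 2 392)) (Pf.C 2 648)) (Pf.C 2 904)))
 (Pq.cons (Pq.L [] 1 (Pf.C 2 902))
 (Pq.cons (Pq.L [] 2 (Pf.C 21 1030))
 (Pq.cons (Pq.L [] 2 (Pf.C 21 1030))
 (Pq.cons (Pq.L [] 1 (Pf.C 2 902))
 (Pq.cons (Pq.L [] 2 (Pf.C 21 1030))
 (Pq.cons (Pq.L [] 1 (Pf.C 2 902))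
 Pq.nil))))))))))))))))))))))))))))))
theorem bD_o20 : AllRef bD_T bD_G29 (splitObl [39,48,49,52,50,43] [45,47,53,44,51]) :=
  chkPq_sound bD_o20c _ (by decide +kernel)
noncomputable def bD_o21c : Pq := (Pq.cons (Pq.L [0,2,3,4,5] 0x161af95cce67ffe7f (Pf.B 11 5 (Pf.B 11 3 (Pf.B 11 2 (Pf.B 8 5 (Pf.B 8 3 (Pf.B 8 2 (Pf.W 26 9 [] [0,2,3,4,5,6,7,8,10,11,12,13,15,16,17] (Pf.cons (Pf.B 18 17 (Pf.B 18 11 (Pf.B 18 8 (Pf.B 18 5 (Pf.B 18 3 (Pf.B 18 2 (Pf.B 9 3 (Pf.C 0 0x480031620209) (Pf.B 9 2 (Pf.B 9 5 (Pf.B 18 16 (Pf.B 16 3 (Pf.C 0 0x480031620210) (Pf.B 16 2 (Pf.B 16 5 (Pf.B 18 15 (Pf.B 15 3 (Pf.C 0 0x48003162020f) (Pf.B 15 2 (Pf.B 15 5 (Pf.B 18 13 (Pf.B 13 3 (Pf.C 0 0x48003162020d) (Pf.B 13 2 (Pf.B 13 5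 (Pf.B 18 12 (Pf.B 12 3 (Pf.C 0 0x48003162020c) (Pf.B 12 2 (Pf.B 12 5 (Pf.B 18 10 (Pf.B 10 3 (Pf.C 0 0x48003162020a) (Pf.B 10 2 (Pf.B 10 5 (Pf.B 18 7 (Pf.B 7 3 (Pf.C 0 0x480031620207) (Pf.B 7 2 (Pf.B 7 5 (Pf.B 18 6 (Pf.B 6 3 (Pf.C 0 0x480031620206) (Pf.B 6 2 (Pf.B 6 5 (Pf.W 26 9 [18] [0,3,4,5,6,8,17] (Pf.cons (Pf.B 19 18 (Pf.B 19 17 (Pf.B 19 8 (Pf.B 19 5 (Pf.B 19 3 (Pf.B 19 6 (Pf.W 20 6 [] [0,4,17,18,19] (Pf.cons (Pf.B 20 19 (Pf.B 20 18 (Pf.B 20 17 (Pf.C 0 0x442142648006) (Pf.C 2 2196)) (Pf.C 2 2324)) (Pf.C 2 2452)) Pf.nil)) (Pf.C 0 0x4c3031014212)) (Pf.C 2 403)) (Pf.C 2 659)) (Pf.C 2 1043)) (Pf.C 2 2195)) (Pf.C 2 2323)) Pf.nil)) (Pf.C 0 0x143032408008)) (Pf.C 0 0x83031620212))) (Pf.B 6 5 (Pf.B 6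 3 (Pf.C 0 0x18900121c185) (Pf.W 26 9 [18] [0,3,4,5,6,8,15,16,17] (Pf.cons (Pf.B 19 18 (Pf.B 19 17 (Pf.B 19 8 (Pf.B 19 5 (Pf.B 19 3 (Pf.B 19 16 (Pf.B 19 6 (Pf.C 0 0x483031014213) (Pf.W 20 6 [] [0,4,15,16,17,18,19] (Pf.cons (Pf.B 20 19 (Pf.B 20 18 (Pf.B 20 17 (Pf.B 20 16 (Pf.C 0 0x442142648010) (Pf.B 20 15 (Pf.C 0 0x189002010a0f) (Pf.C 0 0x18900203ca11))) (Pf.C 2 2196)) (Pf.C 2 2324)) (Pf.C 2 2452)) Pf.nil))) (Pf.C 0 0x4c8031014212)) (Pf.C 2 403)) (Pf.C 2 659)) (Pf.C 2 1043)) (Pf.C 2 2195)) (Pf.C 2 2323)) Pf.nil))) (Pf.C 0 0x483051620207))) (Pf.C 0 0x143832408008)) (Pf.C 0 0x83831620212))) (Pf.B 7 5 (Pf.B 18 6 (Pf.B 6 3 (Pf.C 0 0x480031620206) (Pf.B 6 2 (Pf.B 6 5 (Pf.W 26 9 [18] [0,3,4,5,6,8,17] (Pf.cons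 (Pf.B 19 18 (Pf.B 19 17 (Pf.B 19 8 (Pf.B 19 5 (Pf.B 19 3 (Pf.B 19 6 (Pf.W 20 6 [] [0,4,17,18,19] (Pf.cons (Pf.B 20 19 (Pf.B 20 18 (Pf.B 20 17 (Pf.C 0 0x442142648006) (Pf.C 2 2196)) (Pf.C 2 2324)) (Pf.C 2 2452)) Pf.nil)) (Pf.C 0 0x4c3031014212)) (Pf.C 2 403)) (Pf.C 2 659)) (Pf.C 2 1043)) (Pf.C 2 2195)) (Pf.C 2 2323)) Pf.nil)) (Pf.C 0 0x143032408008)) (Pf.C 0 0x83031620212))) (Pf.B 6 5 (Pf.B 6 3 (Pf.C 0 0x189001424185) (Pf.W 26 9 [18] [0,3,4,5,6,8,15,16,17] (Pf.cons (Pf.B 19 18 (Pf.B 19 17 (Pf.B 19 8 (Pf.B 19 5 (Pf.B 19 3 (Pf.B 19 16 (Pf.B 19 6 (Pf.C 0 0x483031014213) (Pf.W 20 6 [] [0,4,15,16,17,18,19] (Pf.cons (Pf.B 20 19 (Pf.B 20 18 (Pf.B 20 17 (Pf.B 20 16 (Pf.C 0 0x442142648010) (Pf.B 20 15 (Pf.C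 0 0x189002010a0f) (Pf.C 0 0x18900203ca11))) (Pf.C 2 2196)) (Pf.C 2 2324)) (Pf.C 2 2452)) Pf.nil))) (Pf.C 0 0x4c8031014212)) (Pf.C 2 403)) (Pf.C 2 659)) (Pf.C 2 1043)) (Pf.C 2 2195)) (Pf.C 2 2323)) Pf.nil))) (Pf.C 0 0x102860e00909))) (Pf.C 0 0x483851620209))) (Pf.C 0 0x145032408008)) (Pf.C 0 0x85031620212))) (Pf.B 10 5 (Pf.B 18 7 (Pf.B 7 3 (Pf.C 0 0x480031620207) (Pf.B 7 2 (Pf.B 7 5 (Pf.B 18 6 (Pf.B 6 3 (Pf.C 0 0x480031620206) (Pf.B 6 2 (Pf.B 6 5 (Pf.W 26 9 [18] [0,3,4,5,6,8,17] (Pf.cons (Pf.B 19 18 (Pf.B 19 17 (Pf.B 19 8 (Pf.B 19 5 (Pf.B 19 3 (Pf.B 19 6 (Pf.W 20 6 [] [0,4,17,18,19] (Pf.cons (Pf.B 20 19 (Pf.B 20 18 (Pf.B 20 17 (Pf.C 0 0x442142648006) (Pf.C 2 2196)) (Pf.C 2 2324)) (Pf.C 2 2452)) Pf.nil))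 (Pf.C 0 0x4c3031014212)) (Pf.C 2 403)) (Pf.C 2 659)) (Pf.C 2 1043)) (Pf.C 2 2195)) (Pf.C 2 2323)) Pf.nil)) (Pf.C 0 0x143032408008)) (Pf.C 0 0x83031620212))) (Pf.B 6 5 (Pf.B 6 3 (Pf.C 0 0x18900121c185) (Pf.W 26 9 [18] [0,3,4,5,6,8,15,16,17] (Pf.cons (Pf.B 19 18 (Pf.B 19 17 (Pf.B 19 8 (Pf.B 19 5 (Pf.B 19 3 (Pf.B 19 16 (Pf.B 19 6 (Pf.C 0 0x483031014213) (Pf.W 20 6 [] [0,4,15,16,17,18,19] (Pf.cons (Pf.B 20 19 (Pf.B 20 18 (Pf.B 20 17 (Pf.B 20 16 (Pf.C 0 0x442142648010) (Pf.B 20 15 (Pf.C 0 0x189002010a0f) (Pf.C 0 0x18900203ca11))) (Pf.C 2 2196)) (Pf.C 2 2324)) (Pf.C 2 2452)) Pf.nil))) (Pf.C 0 0x4c8031014212)) (Pf.C 2 403)) (Pf.C 2 659)) (Pf.C 2 1043)) (Pf.C 2 2195)) (Pf.C 2 2323)) Pf.nil))) (Pf.C 0 0x102861400907)))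 (Pf.C 0 0x143832408008)) (Pf.C 0 0x83831620212))) (Pf.B 7 5 (Pf.B 18 6 (Pf.B 6 3 (Pf.C 0 0x480031620206) (Pf.B 6 2 (Pf.B 6 5 (Pf.W 26 9 [18] [0,3,4,5,6,8,17] (Pf.cons (Pf.B 19 18 (Pf.B 19 17 (Pf.B 19 8 (Pf.B 19 5 (Pf.B 19 3 (Pf.B 19 6 (Pf.W 20 6 [] [0,4,17,18,19] (Pf.cons (Pf.B 20 19 (Pf.B 20 18 (Pf.B 20 17 (Pf.C 0 0x442142648006) (Pf.C 2 2196)) (Pf.C 2 2324)) (Pf.C 2 2452)) Pf.nil)) (Pf.C 0 0x4c3031014212)) (Pf.C 2 403)) (Pf.C 2 659)) (Pf.C 2 1043)) (Pf.C 2 2195)) (Pf.C 2 2323)) Pf.nil)) (Pf.C 0 0x143032408008)) (Pf.C 0 0x83031620212))) (Pf.B 6 5 (Pf.B 6 3 (Pf.C 0 0x189001824185) (Pf.W 26 9 [18] [0,3,4,5,6,8,15,16,17] (Pf.cons (Pf.B 19 18 (Pf.B 19 17 (Pf.B 19 8 (Pf.B 19 5 (Pf.B 19 3 (Pf.B 19 16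 (Pf.B 19 6 (Pf.C 0 0x483031014213) (Pf.W 20 6 [] [0,4,15,16,17,18,19] (Pf.cons (Pf.B 20 19 (Pf.B 20 18 (Pf.B 20 17 (Pf.B 20 16 (Pf.C 0 0x442142648010) (Pf.B 20 15 (Pf.C 0 0x189002010a0f) (Pf.C 0 0x18900203ca11))) (Pf.C 2 2196)) (Pf.C 2 2324)) (Pf.C 2 2452)) Pf.nil))) (Pf.C 0 0x4c8031014212)) (Pf.C 2 403)) (Pf.C 2 659)) (Pf.C 2 1043)) (Pf.C 2 2195)) (Pf.C 2 2323)) Pf.nil))) (Pf.C 0 0x102860e00909))) (Pf.C 0 0x102871400909))) (Pf.C 0 0x485051620209))) (Pf.C 0 0x146032408008)) (Pf.C 0 0x86031620212))) (Pf.B 12 5 (Pf.B 18 10 (Pf.B 10 3 (Pf.C 0 0x48003162020a) (Pf.B 10 2 (Pf.B 10 5 (Pf.B 18 7 (Pf.B 7 3 (Pf.C 0 0x480031620207) (Pf.B 7 2 (Pf.B 7 5 (Pf.B 18 6 (Pf.B 6 3 (Pf.C 0 0x480031620206) (Pf.B 6 2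 (Pf.B 6 5 (Pf.W 26 9 [18] [0,3,4,5,6,8,17] (Pf.cons (Pf.B 19 18 (Pf.B 19 17 (Pf.B 19 8 (Pf.B 19 5 (Pf.B 19 3 (Pf.B 19 6 (Pf.W 20 6 [] [0,4,17,18,19] (Pf.cons (Pf.B 20 19 (Pf.B 20 18 (Pf.B 20 17 (Pf.C 0 0x442142648006) (Pf.C 2 2196)) (Pf.C 2 2324)) (Pf.C 2 2452)) Pf.nil)) (Pf.C 0 0x4c3031014212)) (Pf.C 2 403)) (Pf.C 2 659)) (Pf.C 2 1043)) (Pf.C 2 2195)) (Pf.C 2 2323)) Pf.nil)) (Pf.C 0 0x143032408008)) (Pf.C 0 0x83031620212))) (Pf.B 6 5 (Pf.B 6 3 (Pf.C 0 0x18900121c185) (Pf.W 26 9 [18] [0,3,4,5,6,8,15,16,17] (Pf.cons (Pf.B 19 18 (Pf.B 19 17 (Pf.B 19 8 (Pf.B 19 5 (Pf.B 19 3 (Pf.B 19 16 (Pf.B 19 6 (Pf.C 0 0x483031014213) (Pf.W 20 6 [] [0,4,15,16,17,18,19] (Pf.cons (Pf.B 20 19 (Pf.B 20 18 (Pf.B 20 17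 (Pf.B 20 16 (Pf.C 0 0x442142648010) (Pf.B 20 15 (Pf.C 0 0x189002010a0f) (Pf.C 0 0x18900203ca11))) (Pf.C 2 2196)) (Pf.C 2 2324)) (Pf.C 2 2452)) Pf.nil))) (Pf.C 0 0x4c8031014212)) (Pf.C 2 403)) (Pf.C 2 659)) (Pf.C 2 1043)) (Pf.C 2 2195)) (Pf.C 2 2323)) Pf.nil))) (Pf.C 0 0x102861800907))) (Pf.C 0 0x143832408008)) (Pf.C 0 0x83831620212))) (Pf.B 7 5 (Pf.B 18 6 (Pf.B 6 3 (Pf.C 0 0x480031620206) (Pf.B 6 2 (Pf.B 6 5 (Pf.W 26 9 [18] [0,3,4,5,6,8,17] (Pf.cons (Pf.B 19 18 (Pf.B 19 17 (Pf.B 19 8 (Pf.B 19 5 (Pf.B 19 3 (Pf.B 19 6 (Pf.W 20 6 [] [0,4,17,18,19] (Pf.cons (Pf.B 20 19 (Pf.B 20 18 (Pf.B 20 17 (Pf.C 0 0x442142648006) (Pf.C 2 2196)) (Pf.C 2 2324)) (Pf.C 2 2452)) Pf.nil)) (Pf.C 0 0x4c3031014212)) (Pf.C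 2 403)) (Pf.C 2 659)) (Pf.C 2 1043)) (Pf.C 2 2195)) (Pf.C 2 2323)) Pf.nil)) (Pf.C 0 0x143032408008)) (Pf.C 0 0x83031620212))) (Pf.B 6 5 (Pf.B 6 3 (Pf.C 0 0x189001424185) (Pf.W 26 9 [18] [0,3,4,5,6,8,15,16,17] (Pf.cons (Pf.B 19 18 (Pf.B 19 17 (Pf.B 19 8 (Pf.B 19 5 (Pf.B 19 3 (Pf.B 19 16 (Pf.B 19 6 (Pf.C 0 0x483031014213) (Pf.W 20 6 [] [0,4,15,16,17,18,19] (Pf.cons (Pf.B 20 19 (Pf.B 20 18 (Pf.B 20 17 (Pf.B 20 16 (Pf.C 0 0x442142648010) (Pf.B 20 15 (Pf.C 0 0x189002010a0f) (Pf.C 0 0x18900203ca11))) (Pf.C 2 2196)) (Pf.C 2 2324)) (Pf.C 2 2452)) Pf.nil))) (Pf.C 0 0x4c8031014212)) (Pf.C 2 403)) (Pf.C 2 659)) (Pf.C 2 1043)) (Pf.C 2 2195)) (Pf.C 2 2323)) Pf.nil))) (Pf.C 0 0x102860e00909))) (Pf.C 0 0x102871800909)))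 (Pf.C 0 0x145032408008)) (Pf.C 0 0x85031620212))) (Pf.B 10 5 (Pf.B 18 7 (Pf.B 7 3 (Pf.C 0 0x480031620207) (Pf.B 7 2 (Pf.B 7 5 (Pf.B 18 6 (Pf.B 6 3 (Pf.C 0 0x480031620206) (Pf.B 6 2 (Pf.B 6 5 (Pf.W 26 9 [18] [0,3,4,5,6,8,17] (Pf.cons (Pf.B 19 18 (Pf.B 19 17 (Pf.B 19 8 (Pf.B 19 5 (Pf.B 19 3 (Pf.B 19 6 (Pf.W 20 6 [] [0,4,17,18,19] (Pf.cons (Pf.B 20 19 (Pf.B 20 18 (Pf.B 20 17 (Pf.C 0 0x442142648006) (Pf.C 2 2196)) (Pf.C 2 2324)) (Pf.C 2 2452)) Pf.nil)) (Pf.C 0 0x4c3031014212)) (Pf.C 2 403)) (Pf.C 2 659)) (Pf.C 2 1043)) (Pf.C 2 2195)) (Pf.C 2 2323)) Pf.nil)) (Pf.C 0 0x143032408008)) (Pf.C 0 0x83031620212))) (Pf.B 6 5 (Pf.B 6 3 (Pf.C 0 0x18900121c185) (Pf.W 26 9 [18] [0,3,4,5,6,8,15,16,17] (Pf.cons (Pf.B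 19 18 (Pf.B 19 17 (Pf.B 19 8 (Pf.B 19 5 (Pf.B 19 3 (Pf.B 19 16 (Pf.B 19 6 (Pf.C 0 0x483031014213) (Pf.W 20 6 [] [0,4,15,16,17,18,19] (Pf.cons (Pf.B 20 19 (Pf.B 20 18 (Pf.B 20 17 (Pf.B 20 16 (Pf.C 0 0x442142648010) (Pf.B 20 15 (Pf.C 0 0x189002010a0f) (Pf.C 0 0x18900203ca11))) (Pf.C 2 2196)) (Pf.C 2 2324)) (Pf.C 2 2452)) Pf.nil))) (Pf.C 0 0x4c8031014212)) (Pf.C 2 403)) (Pf.C 2 659)) (Pf.C 2 1043)) (Pf.C 2 2195)) (Pf.C 2 2323)) Pf.nil))) (Pf.C 0 0x102861400907))) (Pf.C 0 0x143832408008)) (Pf.C 0 0x83831620212))) (Pf.B 7 5 (Pf.B 18 6 (Pf.B 6 3 (Pf.C 0 0x480031620206) (Pf.B 6 2 (Pf.B 6 5 (Pf.W 26 9 [18] [0,3,4,5,6,8,17] (Pf.cons (Pf.B 19 18 (Pf.B 19 17 (Pf.B 19 8 (Pf.B 19 5 (Pf.B 19 3 (Pf.B 19 6 (Pf.W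 20 6 [] [0,4,17,18,19] (Pf.cons (Pf.B 20 19 (Pf.B 20 18 (Pf.B 20 17 (Pf.C 0 0x442142648006) (Pf.C 2 2196)) (Pf.C 2 2324)) (Pf.C 2 2452)) Pf.nil)) (Pf.C 0 0x4c3031014212)) (Pf.C 2 403)) (Pf.C 2 659)) (Pf.C 2 1043)) (Pf.C 2 2195)) (Pf.C 2 2323)) Pf.nil)) (Pf.C 0 0x143032408008)) (Pf.C 0 0x83031620212))) (Pf.B 6 5 (Pf.B 6 3 (Pf.C 0 0x189001a24185) (Pf.W 26 9 [18] [0,3,4,5,6,8,15,16,17] (Pf.cons (Pf.B 19 18 (Pf.B 19 17 (Pf.B 19 8 (Pf.B 19 5 (Pf.B 19 3 (Pf.B 19 16 (Pf.B 19 6 (Pf.C 0 0x483031014213) (Pf.W 20 6 [] [0,4,15,16,17,18,19] (Pf.cons (Pf.B 20 19 (Pf.B 20 18 (Pf.B 20 17 (Pf.B 20 16 (Pf.C 0 0x442142648010) (Pf.B 20 15 (Pf.C 0 0x189002010a0f) (Pf.C 0 0x18900203ca11))) (Pf.C 2 2196)) (Pf.C 2 2324))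 (Pf.C 2 2452)) Pf.nil))) (Pf.C 0 0x4c8031014212)) (Pf.C 2 403)) (Pf.C 2 659)) (Pf.C 2 1043)) (Pf.C 2 2195)) (Pf.C 2 2323)) Pf.nil))) (Pf.C 0 0x102860e00909))) (Pf.C 0 0x102871400909))) (Pf.C 0 0x1028a1800909))) (Pf.C 0 0x486051620209))) (Pf.C 0 0x146832408008)) (Pf.C 0 0x86831620212))) (Pf.B 13 5 (Pf.B 13 3 (Pf.C 0 0x349001e24185) (Pf.W 26 13 [] [3,4,5,8,18] (Pf.cons (Pf.B 19 18 (Pf.B 19 8 (Pf.B 19 5 (Pf.B 19 3 (Pf.C 0 0x486831014213) (Pf.C 2 403)) (Pf.C 2 659)) (Pf.C 2 1043)) (Pf.C 2 2323)) Pf.nil))) (Pf.C 0 0x486851620209))) (Pf.C 0 0x147832408008)) (Pf.C 0 0x87831620212))) (Pf.B 15 5 (Pf.B 15 3 (Pf.C 0 0x3c9002024185) (Pf.W 26 15 [] [3,4,5,8,18] (Pf.cons (Pf.B 19 18 (Pf.B 19 8 (Pf.B 19 5 (Pf.B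 19 3 (Pf.C 0 0x487831014213) (Pf.C 2 403)) (Pf.C 2 659)) (Pf.C 2 1043)) (Pf.C 2 2323)) Pf.nil))) (Pf.C 0 0x487851620209))) (Pf.C 0 0x148032408008)) (Pf.C 0 0x88031620212))) (Pf.B 16 5 (Pf.B 18 15 (Pf.B 15 3 (Pf.C 0 0x48003162020f) (Pf.B 16 3 (Pf.C 0 0x409001e24188) (Pf.W 26 16 [] [3,4,5,8,18] (Pf.cons (Pf.B 19 18 (Pf.B 19 8 (Pf.B 19 5 (Pf.B 19 3 (Pf.C 0 0x488031014213) (Pf.C 2 403)) (Pf.C 2 659)) (Pf.C 2 1043)) (Pf.C 2 2323)) Pf.nil)))) (Pf.B 15 5 (Pf.B 18 13 (Pf.B 13 3 (Pf.C 0 0x48003162020d) (Pf.B 16 3 (Pf.C 0 0x409001a24188) (Pf.W 26 16 [] [3,4,5,8,18] (Pf.cons (Pf.B 19 18 (Pf.B 19 8 (Pf.B 19 5 (Pf.B 19 3 (Pf.C 0 0x488031014213) (Pf.C 2 403)) (Pf.C 2 659)) (Pf.C 2 1043)) (Pf.C 2 2323)) Pf.nil))))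 (Pf.B 13 5 (Pf.B 18 12 (Pf.B 12 3 (Pf.C 0 0x48003162020c) (Pf.B 16 3 (Pf.C 0 0x409001824188) (Pf.W 26 16 [] [3,4,5,8,18] (Pf.cons (Pf.B 19 18 (Pf.B 19 8 (Pf.B 19 5 (Pf.B 19 3 (Pf.C 0 0x488031014213) (Pf.C 2 403)) (Pf.C 2 659)) (Pf.C 2 1043)) (Pf.C 2 2323)) Pf.nil)))) (Pf.B 12 5 (Pf.B 18 10 (Pf.B 10 3 (Pf.C 0 0x48003162020a) (Pf.B 16 3 (Pf.C 0 0x409001424188) (Pf.W 26 16 [] [3,4,5,8,18] (Pf.cons (Pf.B 19 18 (Pf.B 19 8 (Pf.B 19 5 (Pf.B 19 3 (Pf.C 0 0x488031014213) (Pf.C 2 403)) (Pf.C 2 659)) (Pf.C 2 1043)) (Pf.C 2 2323)) Pf.nil)))) (Pf.B 10 5 (Pf.W 26 9 [18] [0,3,4,5,8,10,17] (Pf.cons (Pf.B 19 18 (Pf.B 19 17 (Pf.B 19 8 (Pf.B 19 5 (Pf.B 19 3 (Pf.B 19 10 (Pf.B 10 3 (Pf.C 0 0x4c003101420a) (Pf.C 0 0x485031014213))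 (Pf.W 36 17 [] [0,4,9,10,18,19] (Pf.cons (Pf.B 20 10 (Pf.B 20 9 (Pf.B 20 19 (Pf.B 20 18 (Pf.C 27 0x4c914) (Pf.C 0 0x108941400909)) (Pf.C 0 0x108941400989)) (Pf.C 1 1172)) (Pf.C 1 1300)) Pf.nil))) (Pf.C 2 403)) (Pf.C 2 659)) (Pf.C 2 1043)) (Pf.C 2 2195)) (Pf.C 2 2323)) Pf.nil)) (Pf.C 0 0x1028a1800909))) (Pf.C 0 0x1028c1a00909))) (Pf.C 0 0x1028d1e00909))) (Pf.C 0 0x1028f2000909))) (Pf.C 0 0x488051620209))) (Pf.C 0 0x144832408008)) (Pf.C 0 0x84831620212))) (Pf.C 2 274)) (Pf.C 2 402)) (Pf.C 2 658)) (Pf.C 2 1042)) (Pf.C 2 1426)) (Pf.C 2 2194)) Pf.nil)) (Pf.C 2 264)) (Pf.C 2 392)) (Pf.C 2 648)) (Pf.C 2 267)) (Pf.C 2 395)) (Pf.C 2 651)))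
 Pq.nil)
theorem bD_o21 : AllRef bD_T bD_G29 (List.take 1 (List.take 4 (hitObl [39,52] bD_h46))) :=
  chkPq_sound bD_o21c _ (by decide +kernel)
noncomputable def bD_o22c : Pq := (Pq.cons (Pq.L [0,1,2,3,4,5] 0x3effb21ffc8643ff8 (Pf.B 17 5 (Pf.B 17 3 (Pf.B 17 2 (Pf.B 17 1 (Pf.B 14 5 (Pf.B 14 3 (Pf.B 14 2 (Pf.B 14 1 (Pf.B 11 5 (Pf.B 11 3 (Pf.B 11 2 (Pf.B 11 1 (Pf.B 8 5 (Pf.B 8 3 (Pf.B 8 2 (Pf.B 8 1 (Pf.B 16 5 (Pf.B 10 5 (Pf.B 9 5 (Pf.B 16 3 (Pf.B 16 2 (Pf.C 0 0x80032214210) (Pf.C 0 0xc0021620805)) (Pf.B 9 3 (Pf.W 26 9 [] [0,3,4,5,8] (Pf.cons (Pf.B 18 8 (Pf.B 18 5 (Pf.B 18 3 (Pf.C 0 0x480031014209) (Pf.C 2 402)) (Pf.C 2 658)) (Pf.C 2 1042)) Pf.nil)) (Pf.W 26 9 [] [0,3,4,5,8,11,13,14,16,17] (Pf.cons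 (Pf.B 18 17 (Pf.B 18 14 (Pf.B 18 11 (Pf.B 18 13 (Pf.B 18 16 (Pf.B 18 8 (Pf.B 18 5 (Pf.B 18 3 (Pf.C 0 0x480031620805) (Pf.C 2 402)) (Pf.C 2 658)) (Pf.C 2 1042)) (Pf.C 0 0x9101a10589)) (Pf.C 0 0x4868b2238209)) (Pf.C 2 1426)) (Pf.C 2 1810)) (Pf.C 2 2194)) Pf.nil)))) (Pf.C 0 0x242842028400)) (Pf.C 0 0x145081c2c800)) (Pf.B 16 3 (Pf.B 16 2 (Pf.B 16 1 (Pf.C 0 0x442030404010) (Pf.C 0 0x80011014811)) (Pf.C 0 0xc0021014811)) (Pf.B 16 2 (Pf.C 0 0x80031014811) (Pf.B 16 1 (Pf.C 0 0x40021014811) (Pf.B 15 5 (Pf.B 15 3 (Pf.B 15 2 (Pf.C 0 0x8003101420f) (Pf.B 15 1 (Pf.C 0 0x4003101420f) (Pf.B 13 2 (Pf.C 0 0x107101e0010d) (Pf.B 13 3 (Pf.C 0 0xc002162068e) (Pf.B 13 1 (Pf.C 0 0x107101e0008d) (Pf.B 12 1 (Pf.C 0 0x107101a0008c)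 (Pf.B 10 1 (Pf.C 0 0x1058d180008a) (Pf.B 9 1 (Pf.C 0 0x1040a1800089) (Pf.B 13 5 (Pf.B 9 5 (Pf.B 9 3 (Pf.W 26 9 [] [0,3,4,5,8] (Pf.cons (Pf.B 18 8 (Pf.B 18 5 (Pf.B 18 3 (Pf.C 0 0x480031014209) (Pf.C 2 402)) (Pf.C 2 658)) (Pf.C 2 1042)) Pf.nil)) (Pf.W 26 9 [] [0,3,4,5,8,11,13,14,17] (Pf.cons (Pf.B 18 17 (Pf.B 18 14 (Pf.B 18 11 (Pf.B 18 13 (Pf.B 18 8 (Pf.B 18 5 (Pf.B 18 3 (Pf.C 0 0x480031620685) (Pf.C 2 402)) (Pf.C 2 658)) (Pf.C 2 1042)) (Pf.C 0 0x4868b2238209)) (Pf.C 2 1426)) (Pf.C 2 1810)) (Pf.C 2 2194)) Pf.nil))) (Pf.C 0 0x14481162068e)) (Pf.B 12 5 (Pf.B 12 3 (Pf.B 10 5 (Pf.B 10 3 (Pf.B 9 3 (Pf.W 26 9 [] [0,3,4,8,11] (Pf.cons (Pf.B 18 11 (Pf.B 18 8 (Pf.B 18 3 (Pf.C 0 0x480031620209) (Pf.C 2 402))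 (Pf.C 2 1042)) (Pf.C 2 1426)) Pf.nil)) (Pf.C 0 0x28404002418c)) (Pf.B 9 5 (Pf.B 9 3 (Pf.W 26 9 [] [0,3,4,5,8] (Pf.cons (Pf.B 18 8 (Pf.B 18 5 (Pf.B 18 3 (Pf.C 0 0x480031014209) (Pf.C 2 402)) (Pf.C 2 658)) (Pf.C 2 1042)) Pf.nil)) (Pf.W 26 9 [] [0,3,4,5,8,11,13,14,17] (Pf.cons (Pf.B 18 17 (Pf.B 18 14 (Pf.B 18 11 (Pf.B 18 13 (Pf.B 18 8 (Pf.B 18 5 (Pf.B 18 3 (Pf.C 0 0x48003101468e) (Pf.C 2 402)) (Pf.C 2 658)) (Pf.C 2 1042)) (Pf.C 0 0x4868b2238209)) (Pf.C 2 1426)) (Pf.C 2 1810)) (Pf.C 2 2194)) Pf.nil))) (Pf.B 9 3 (Pf.C 0 0x14481100c50b) (Pf.W 26 9 [] [0,3,4,5,8,11,13,14,17] (Pf.cons (Pf.B 18 17 (Pf.B 18 14 (Pf.B 18 11 (Pf.B 18 13 (Pf.B 18 8 (Pf.B 18 5 (Pf.B 18 3 (Pf.C 0 0x48003101468e) (Pf.C 2 402)) (Pf.C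 2 658)) (Pf.C 2 1042)) (Pf.C 0 0x4868b2238209)) (Pf.C 2 1426)) (Pf.C 2 1810)) (Pf.C 2 2194)) Pf.nil))))) (Pf.B 10 3 (Pf.C 0 0xc001101450b) (Pf.B 9 5 (Pf.B 9 3 (Pf.W 26 9 [] [0,3,4,5,8] (Pf.cons (Pf.B 18 8 (Pf.B 18 5 (Pf.B 18 3 (Pf.C 0 0x480031014209) (Pf.C 2 402)) (Pf.C 2 658)) (Pf.C 2 1042)) Pf.nil)) (Pf.W 26 9 [] [0,3,4,5,8,10,11,13,14,17] (Pf.cons (Pf.B 18 17 (Pf.B 18 14 (Pf.B 18 11 (Pf.B 18 13 (Pf.B 18 8 (Pf.B 18 10 (Pf.B 18 5 (Pf.B 18 3 (Pf.C 0 0x48003101450b) (Pf.C 2 402)) (Pf.C 2 658)) (Pf.C 0 0x90a1a10409)) (Pf.C 2 1042)) (Pf.C 0 0x4868b2238209)) (Pf.C 2 1426)) (Pf.C 2 1810)) (Pf.C 2 2194)) Pf.nil))) (Pf.B 9 3 (Pf.W 26 9 [] [0,3,4,8,11] (Pf.cons (Pf.B 18 11 (Pf.B 18 8 (Pf.B 18 3 (Pf.C 0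 0x480031620209) (Pf.C 2 402)) (Pf.C 2 1042)) (Pf.C 2 1426)) Pf.nil)) (Pf.W 26 9 [] [0,3,4,5,8,10,11,13,14,17] (Pf.cons (Pf.B 18 17 (Pf.B 18 14 (Pf.B 18 11 (Pf.B 18 13 (Pf.B 18 8 (Pf.B 18 10 (Pf.B 18 5 (Pf.B 18 3 (Pf.C 0 0x48003101450b) (Pf.C 2 402)) (Pf.C 2 658)) (Pf.C 0 0x90a1a10409)) (Pf.C 2 1042)) (Pf.C 0 0x4868b2238209)) (Pf.C 2 1426)) (Pf.C 2 1810)) (Pf.C 2 2194)) Pf.nil)))))) (Pf.B 10 3 (Pf.C 0 0x28404180018f) (Pf.B 10 5 (Pf.B 9 5 (Pf.B 9 3 (Pf.W 26 9 [] [0,3,4,5,8] (Pf.cons (Pf.B 18 8 (Pf.B 18 5 (Pf.B 18 3 (Pf.C 0 0x480031014209) (Pf.C 2 402)) (Pf.C 2 658)) (Pf.C 2 1042)) Pf.nil)) (Pf.W 26 9 [] [0,3,4,5,8,11,13,14,17] (Pf.cons (Pf.B 18 17 (Pf.B 18 14 (Pf.B 18 11 (Pf.B 18 13 (Pf.B 18 8 (Pf.B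 18 5 (Pf.B 18 3 (Pf.C 0 0x48003101468e) (Pf.C 2 402)) (Pf.C 2 658)) (Pf.C 2 1042)) (Pf.C 0 0x4868b2238209)) (Pf.C 2 1426)) (Pf.C 2 1810)) (Pf.C 2 2194)) Pf.nil))) (Pf.B 9 3 (Pf.C 0 0x14481100c50b) (Pf.W 26 9 [] [0,3,4,5,8,11,13,14,17] (Pf.cons (Pf.B 18 17 (Pf.B 18 14 (Pf.B 18 11 (Pf.B 18 13 (Pf.B 18 8 (Pf.B 18 5 (Pf.B 18 3 (Pf.C 0 0x48003101468e) (Pf.C 2 402)) (Pf.C 2 658)) (Pf.C 2 1042)) (Pf.C 0 0x4868b2238209)) (Pf.C 2 1426)) (Pf.C 2 1810)) (Pf.C 2 2194)) Pf.nil)))) (Pf.B 9 5 (Pf.B 9 3 (Pf.W 26 9 [] [0,3,4,5,8] (Pf.cons (Pf.B 18 8 (Pf.B 18 5 (Pf.B 18 3 (Pf.C 0 0x480031014209) (Pf.C 2 402)) (Pf.C 2 658)) (Pf.C 2 1042)) Pf.nil)) (Pf.W 26 9 [] [0,3,4,5,8,10,11,13,14,17] (Pf.cons (Pf.B 18 17 (Pf.B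 18 14 (Pf.B 18 11 (Pf.B 18 13 (Pf.B 18 8 (Pf.B 18 10 (Pf.B 18 5 (Pf.B 18 3 (Pf.C 0 0x48003101450b) (Pf.C 2 402)) (Pf.C 2 658)) (Pf.C 0 0x90a1a10409)) (Pf.C 2 1042)) (Pf.C 0 0x4868b2238209)) (Pf.C 2 1426)) (Pf.C 2 1810)) (Pf.C 2 2194)) Pf.nil))) (Pf.B 9 3 (Pf.C 0 0x24284180018f) (Pf.W 26 9 [] [0,3,4,5,8,10,11,13,14,17] (Pf.cons (Pf.B 18 17 (Pf.B 18 14 (Pf.B 18 11 (Pf.B 18 13 (Pf.B 18 8 (Pf.B 18 10 (Pf.B 18 5 (Pf.B 18 3 (Pf.C 0 0x48003101450b) (Pf.C 2 402)) (Pf.C 2 658)) (Pf.C 0 0x90a1a10409)) (Pf.C 2 1042)) (Pf.C 0 0x4868b2238209)) (Pf.C 2 1426)) (Pf.C 2 1810)) (Pf.C 2 2194)) Pf.nil))))))) (Pf.B 12 3 (Pf.B 10 5 (Pf.B 10 3 (Pf.B 9 5 (Pf.B 9 3 (Pf.W 26 9 [] [0,3,4,5,8] (Pf.cons (Pf.B 18 8 (Pf.B 18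 5 (Pf.B 18 3 (Pf.C 0 0x480031014209) (Pf.C 2 402)) (Pf.C 2 658)) (Pf.C 2 1042)) Pf.nil)) (Pf.C 0 0x30284002418a)) (Pf.C 0 0x284041824280)) (Pf.C 0 0x14601100c50b)) (Pf.B 9 5 (Pf.B 9 3 (Pf.W 26 9 [] [0,3,4,5,8] (Pf.cons (Pf.B 18 8 (Pf.B 18 5 (Pf.B 18 3 (Pf.C 0 0x480031014209) (Pf.C 2 402)) (Pf.C 2 658)) (Pf.C 2 1042)) Pf.nil)) (Pf.C 0 0x30284002418f)) (Pf.B 9 3 (Pf.C 0 0x184182428f) (Pf.W 26 9 [] [0,3,4,5,8,10,11,12,13,14,17] (Pf.cons (Pf.B 18 17 (Pf.B 18 14 (Pf.B 18 11 (Pf.B 18 13 (Pf.B 18 8 (Pf.B 18 10 (Pf.B 18 5 (Pf.B 18 12 (Pf.B 18 3 (Pf.C 0 0x48003162020c) (Pf.C 2 402)) (Pf.C 0 0x90c142428b)) (Pf.C 2 658)) (Pf.C 0 0x90a1a10409)) (Pf.C 2 1042)) (Pf.C 0 0x4868b2238209)) (Pf.C 2 1426)) (Pf.C 2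 1810)) (Pf.C 2 2194)) Pf.nil))))) (Pf.B 10 3 (Pf.C 0 0x28404180018f) (Pf.B 10 5 (Pf.B 9 5 (Pf.B 9 3 (Pf.W 26 9 [] [0,3,4,5,8] (Pf.cons (Pf.B 18 8 (Pf.B 18 5 (Pf.B 18 3 (Pf.C 0 0x480031014209) (Pf.C 2 402)) (Pf.C 2 658)) (Pf.C 2 1042)) Pf.nil)) (Pf.W 26 9 [] [0,3,4,5,8,11,13,14,17] (Pf.cons (Pf.B 18 17 (Pf.B 18 14 (Pf.B 18 11 (Pf.B 18 13 (Pf.B 18 8 (Pf.B 18 5 (Pf.B 18 3 (Pf.C 0 0x48003101468e) (Pf.C 2 402)) (Pf.C 2 658)) (Pf.C 2 1042)) (Pf.C 0 0x4868b2238209)) (Pf.C 2 1426)) (Pf.C 2 1810)) (Pf.C 2 2194)) Pf.nil))) (Pf.C 0 0x284041824280)) (Pf.B 9 5 (Pf.B 9 3 (Pf.W 26 9 [] [0,3,4,5,8] (Pf.cons (Pf.B 18 8 (Pf.B 18 5 (Pf.B 18 3 (Pf.C 0 0x480031014209) (Pf.C 2 402)) (Pf.C 2 658)) (Pf.C 2 1042)) Pf.nil))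 (Pf.W 26 9 [] [0,3,4,5,8,10,11,13,14,17] (Pf.cons (Pf.B 18 17 (Pf.B 18 14 (Pf.B 18 11 (Pf.B 18 13 (Pf.B 18 8 (Pf.B 18 10 (Pf.B 18 5 (Pf.B 18 3 (Pf.C 0 0x48003101450b) (Pf.C 2 402)) (Pf.C 2 658)) (Pf.C 0 0x90a1a10409)) (Pf.C 2 1042)) (Pf.C 0 0x4868b2238209)) (Pf.C 2 1426)) (Pf.C 2 1810)) (Pf.C 2 2194)) Pf.nil))) (Pf.B 9 3 (Pf.W 26 9 [] [0,3,4,8,11] (Pf.cons (Pf.B 18 11 (Pf.B 18 8 (Pf.B 18 3 (Pf.C 0 0x480031620209) (Pf.C 2 402)) (Pf.C 2 1042)) (Pf.C 2 1426)) Pf.nil)) (Pf.W 26 9 [] [0,3,4,5,8,10,11,13,14,17] (Pf.cons (Pf.B 18 17 (Pf.B 18 14 (Pf.B 18 11 (Pf.B 18 13 (Pf.B 18 8 (Pf.B 18 10 (Pf.B 18 5 (Pf.B 18 3 (Pf.C 0 0x48003101450b) (Pf.C 2 402)) (Pf.C 2 658)) (Pf.C 0 0x90a1a10409)) (Pf.C 2 1042)) (Pf.C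 0 0x4868b2238209)) (Pf.C 2 1426)) (Pf.C 2 1810)) (Pf.C 2 2194)) Pf.nil))))))))))))))))) (Pf.B 13 3 (Pf.C 0 0x344101e00191) (Pf.B 13 2 (Pf.C 0 0x8003162068e) (Pf.B 15 2 (Pf.C 0 0x107101a0010f) (Pf.B 15 1 (Pf.C 0 0x87831014201) (Pf.B 13 1 (Pf.C 0 0x107101e0008d) (Pf.B 12 1 (Pf.C 0 0x107101a0008c) (Pf.B 10 3 (Pf.C 0 0x2840d1e0018e) (Pf.B 10 1 (Pf.C 0 0x1058d180008a) (Pf.B 9 1 (Pf.C 0 0x1040a1800089) (Pf.B 13 5 (Pf.B 9 5 (Pf.B 9 3 (Pf.W 26 9 [] [0,3,4,5,8] (Pf.cons (Pf.B 18 8 (Pf.B 18 5 (Pf.B 18 3 (Pf.C 0 0x480031014209) (Pf.C 2 402)) (Pf.C 2 658)) (Pf.C 2 1042)) Pf.nil)) (Pf.W 26 9 [] [0,3,4,5,8,11,13,14,17] (Pf.cons (Pf.B 18 17 (Pf.B 18 14 (Pf.B 18 11 (Pf.B 18 13 (Pf.B 18 8 (Pf.B 18 5 (Pf.B 18 3 (Pf.C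 0 0x480031620685) (Pf.C 2 402)) (Pf.C 2 658)) (Pf.C 2 1042)) (Pf.C 0 0x4868b2238209)) (Pf.C 2 1426)) (Pf.C 2 1810)) (Pf.C 2 2194)) Pf.nil))) (Pf.C 0 0x14481162068e)) (Pf.B 12 5 (Pf.B 12 3 (Pf.B 10 5 (Pf.B 9 5 (Pf.B 9 3 (Pf.W 26 9 [] [0,3,4,5,8] (Pf.cons (Pf.B 18 8 (Pf.B 18 5 (Pf.B 18 3 (Pf.C 0 0x480031014209) (Pf.C 2 402)) (Pf.C 2 658)) (Pf.C 2 1042)) Pf.nil)) (Pf.W 26 9 [] [0,3,4,5,8,11,13,14,17] (Pf.cons (Pf.B 18 17 (Pf.B 18 14 (Pf.B 18 11 (Pf.B 18 13 (Pf.B 18 8 (Pf.B 18 5 (Pf.B 18 3 (Pf.C 0 0x48003101468e) (Pf.C 2 402)) (Pf.C 2 658)) (Pf.C 2 1042)) (Pf.C 0 0x4868b2238209)) (Pf.C 2 1426)) (Pf.C 2 1810)) (Pf.C 2 2194)) Pf.nil))) (Pf.B 9 3 (Pf.C 0 0x14481100c50b) (Pf.W 26 9 [] [0,3,4,5,8,11,13,14,17]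 (Pf.cons (Pf.B 18 17 (Pf.B 18 14 (Pf.B 18 11 (Pf.B 18 13 (Pf.B 18 8 (Pf.B 18 5 (Pf.B 18 3 (Pf.C 0 0x48003101468e) (Pf.C 2 402)) (Pf.C 2 658)) (Pf.C 2 1042)) (Pf.C 0 0x4868b2238209)) (Pf.C 2 1426)) (Pf.C 2 1810)) (Pf.C 2 2194)) Pf.nil)))) (Pf.B 9 5 (Pf.B 9 3 (Pf.W 26 9 [] [0,3,4,5,8] (Pf.cons (Pf.B 18 8 (Pf.B 18 5 (Pf.B 18 3 (Pf.C 0 0x480031014209) (Pf.C 2 402)) (Pf.C 2 658)) (Pf.C 2 1042)) Pf.nil)) (Pf.W 26 9 [] [0,3,4,5,8,10,11,13,14,17] (Pf.cons (Pf.B 18 17 (Pf.B 18 14 (Pf.B 18 11 (Pf.B 18 13 (Pf.B 18 8 (Pf.B 18 10 (Pf.B 18 5 (Pf.B 18 3 (Pf.C 0 0x48003101450b) (Pf.C 2 402)) (Pf.C 2 658)) (Pf.C 0 0x90a1a10409)) (Pf.C 2 1042)) (Pf.C 0 0x4868b2238209)) (Pf.C 2 1426)) (Pf.C 2 1810)) (Pf.C 2 2194))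 Pf.nil))) (Pf.B 9 3 (Pf.C 0 0x242841e0018c) (Pf.W 26 9 [] [0,3,4,5,8,10,11,13,14,17] (Pf.cons (Pf.B 18 17 (Pf.B 18 14 (Pf.B 18 11 (Pf.B 18 13 (Pf.B 18 8 (Pf.B 18 10 (Pf.B 18 5 (Pf.B 18 3 (Pf.C 0 0x48003101450b) (Pf.C 2 402)) (Pf.C 2 658)) (Pf.C 0 0x90a1a10409)) (Pf.C 2 1042)) (Pf.C 0 0x4868b2238209)) (Pf.C 2 1426)) (Pf.C 2 1810)) (Pf.C 2 2194)) Pf.nil))))) (Pf.B 10 5 (Pf.B 9 5 (Pf.B 9 3 (Pf.W 26 9 [] [0,3,4,5,8] (Pf.cons (Pf.B 18 8 (Pf.B 18 5 (Pf.B 18 3 (Pf.C 0 0x480031014209) (Pf.C 2 402)) (Pf.C 2 658)) (Pf.C 2 1042)) Pf.nil)) (Pf.W 26 9 [] [0,3,4,5,8,11,13,14,17] (Pf.cons (Pf.B 18 17 (Pf.B 18 14 (Pf.B 18 11 (Pf.B 18 13 (Pf.B 18 8 (Pf.B 18 5 (Pf.B 18 3 (Pf.C 0 0x48003101468e) (Pf.C 2 402)) (Pf.C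 2 658)) (Pf.C 2 1042)) (Pf.C 0 0x4868b2238209)) (Pf.C 2 1426)) (Pf.C 2 1810)) (Pf.C 2 2194)) Pf.nil))) (Pf.B 9 3 (Pf.C 0 0x14481100c50b) (Pf.W 26 9 [] [0,3,4,5,8,11,13,14,17] (Pf.cons (Pf.B 18 17 (Pf.B 18 14 (Pf.B 18 11 (Pf.B 18 13 (Pf.B 18 8 (Pf.B 18 5 (Pf.B 18 3 (Pf.C 0 0x48003101468e) (Pf.C 2 402)) (Pf.C 2 658)) (Pf.C 2 1042)) (Pf.C 0 0x4868b2238209)) (Pf.C 2 1426)) (Pf.C 2 1810)) (Pf.C 2 2194)) Pf.nil)))) (Pf.B 9 5 (Pf.B 9 3 (Pf.W 26 9 [] [0,3,4,5,8] (Pf.cons (Pf.B 18 8 (Pf.B 18 5 (Pf.B 18 3 (Pf.C 0 0x480031014209) (Pf.C 2 402)) (Pf.C 2 658)) (Pf.C 2 1042)) Pf.nil)) (Pf.W 26 9 [] [0,3,4,5,8,10,11,13,14,17] (Pf.cons (Pf.B 18 17 (Pf.B 18 14 (Pf.B 18 11 (Pf.B 18 13 (Pf.B 18 8 (Pf.B 18 10 (Pf.B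 18 5 (Pf.B 18 3 (Pf.C 0 0x48003101450b) (Pf.C 2 402)) (Pf.C 2 658)) (Pf.C 0 0x90a1a10409)) (Pf.C 2 1042)) (Pf.C 0 0x4868b2238209)) (Pf.C 2 1426)) (Pf.C 2 1810)) (Pf.C 2 2194)) Pf.nil))) (Pf.B 9 3 (Pf.C 0 0x2428a180018b) (Pf.W 26 9 [] [0,3,4,5,8,10,11,13,14,17] (Pf.cons (Pf.B 18 17 (Pf.B 18 14 (Pf.B 18 11 (Pf.B 18 13 (Pf.B 18 8 (Pf.B 18 10 (Pf.B 18 5 (Pf.B 18 3 (Pf.C 0 0x48003101450b) (Pf.C 2 402)) (Pf.C 2 658)) (Pf.C 0 0x90a1a10409)) (Pf.C 2 1042)) (Pf.C 0 0x4868b2238209)) (Pf.C 2 1426)) (Pf.C 2 1810)) (Pf.C 2 2194)) Pf.nil)))))) (Pf.B 12 3 (Pf.C 0 0x3028d1e0018e) (Pf.B 10 5 (Pf.B 9 5 (Pf.B 9 3 (Pf.W 26 9 [] [0,3,4,5,8] (Pf.cons (Pf.B 18 8 (Pf.B 18 5 (Pf.B 18 3 (Pf.C 0 0x480031014209) (Pf.C 2 402))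 (Pf.C 2 658)) (Pf.C 2 1042)) Pf.nil)) (Pf.W 26 9 [] [0,3,4,5,8,11,13,14,17] (Pf.cons (Pf.B 18 17 (Pf.B 18 14 (Pf.B 18 11 (Pf.B 18 13 (Pf.B 18 8 (Pf.B 18 5 (Pf.B 18 3 (Pf.C 0 0x48003101468e) (Pf.C 2 402)) (Pf.C 2 658)) (Pf.C 2 1042)) (Pf.C 0 0x4868b2238209)) (Pf.C 2 1426)) (Pf.C 2 1810)) (Pf.C 2 2194)) Pf.nil))) (Pf.C 0 0x284041824280)) (Pf.B 9 5 (Pf.B 9 3 (Pf.W 26 9 [] [0,3,4,5,8] (Pf.cons (Pf.B 18 8 (Pf.B 18 5 (Pf.B 18 3 (Pf.C 0 0x480031014209) (Pf.C 2 402)) (Pf.C 2 658)) (Pf.C 2 1042)) Pf.nil)) (Pf.W 26 9 [] [0,3,4,5,8,10,11,13,14,17] (Pf.cons (Pf.B 18 17 (Pf.B 18 14 (Pf.B 18 11 (Pf.B 18 13 (Pf.B 18 8 (Pf.B 18 10 (Pf.B 18 5 (Pf.B 18 3 (Pf.C 0 0x48003101450b) (Pf.C 2 402)) (Pf.C 2 658)) (Pf.C 0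 0x90a1a10409)) (Pf.C 2 1042)) (Pf.C 0 0x4868b2238209)) (Pf.C 2 1426)) (Pf.C 2 1810)) (Pf.C 2 2194)) Pf.nil))) (Pf.B 9 3 (Pf.C 0 0x2428c1e00188) (Pf.W 26 9 [] [0,3,4,5,8,10,11,13,14,17] (Pf.cons (Pf.B 18 17 (Pf.B 18 14 (Pf.B 18 11 (Pf.B 18 13 (Pf.B 18 8 (Pf.B 18 10 (Pf.B 18 5 (Pf.B 18 3 (Pf.C 0 0x48003101450b) (Pf.C 2 402)) (Pf.C 2 658)) (Pf.C 0 0x90a1a10409)) (Pf.C 2 1042)) (Pf.C 0 0x4868b2238209)) (Pf.C 2 1426)) (Pf.C 2 1810)) (Pf.C 2 2194)) Pf.nil)))))))))))))))))) (Pf.B 15 3 (Pf.B 15 2 (Pf.C 0 0x8003162020f) (Pf.B 15 1 (Pf.C 0 0x4003162020f) (Pf.B 13 2 (Pf.C 0 0x107101e0010d) (Pf.B 13 5 (Pf.C 0 0x14782162068e) (Pf.B 13 3 (Pf.C 0 0xc002101468e) (Pf.B 13 1 (Pf.C 0 0x107101e0008d) (Pf.B 12 1 (Pf.C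 0 0x107101a0008c) (Pf.B 10 1 (Pf.C 0 0x1058d180008a) (Pf.B 12 5 (Pf.B 12 3 (Pf.B 10 5 (Pf.B 10 3 (Pf.B 9 5 (Pf.B 9 3 (Pf.W 26 9 [] [0,3,4,5,8] (Pf.cons (Pf.B 18 8 (Pf.B 18 5 (Pf.B 18 3 (Pf.C 0 0x480031014209) (Pf.C 2 402)) (Pf.C 2 658)) (Pf.C 2 1042)) Pf.nil)) (Pf.C 0 0x3c284002418a)) (Pf.C 0 0x284041e24280)) (Pf.C 0 0x14781100c50b)) (Pf.B 9 5 (Pf.B 9 3 (Pf.W 26 9 [] [0,3,4,5,8] (Pf.cons (Pf.B 18 8 (Pf.B 18 5 (Pf.B 18 3 (Pf.C 0 0x480031014209) (Pf.C 2 402)) (Pf.C 2 658)) (Pf.C 2 1042)) Pf.nil)) (Pf.C 0 0x3c284002418c)) (Pf.B 9 3 (Pf.C 0 0x1841e2428c) (Pf.W 26 9 [] [0,3,4,5,8,10,11,13,14,15,17] (Pf.cons (Pf.B 18 17 (Pf.B 18 14 (Pf.B 18 11 (Pf.B 18 13 (Pf.B 18 8 (Pf.B 18 10 (Pf.B 18 5 (Pf.B 18 15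 (Pf.B 18 3 (Pf.C 0 0x48003162020f) (Pf.C 2 402)) (Pf.C 0 0x90f142428b)) (Pf.C 2 658)) (Pf.C 0 0x90a1a10409)) (Pf.C 2 1042)) (Pf.C 0 0x4868b2238209)) (Pf.C 2 1426)) (Pf.C 2 1810)) (Pf.C 2 2194)) Pf.nil))))) (Pf.C 0 0x3c28d003018e)) (Pf.B 12 3 (Pf.C 0 0x18d1e3028e) (Pf.B 10 5 (Pf.C 0 0x284041e30280) (Pf.B 10 3 (Pf.C 0 0xc001101450b) (Pf.B 9 5 (Pf.B 9 3 (Pf.W 26 9 [] [0,3,4,5,8] (Pf.cons (Pf.B 18 8 (Pf.B 18 5 (Pf.B 18 3 (Pf.C 0 0x480031014209) (Pf.C 2 402)) (Pf.C 2 658)) (Pf.C 2 1042)) Pf.nil)) (Pf.C 0 0x3c28c0024188)) (Pf.B 9 3 (Pf.C 0 0x18c1e24288) (Pf.W 26 9 [] [0,3,4,5,8,10,11,13,14,17] (Pf.cons (Pf.B 18 17 (Pf.B 18 14 (Pf.B 18 11 (Pf.B 18 13 (Pf.B 18 8 (Pf.B 18 10 (Pf.B 18 5 (Pf.B 18 3 (Pf.C 0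 0x48003101450b) (Pf.C 2 402)) (Pf.C 2 658)) (Pf.C 0 0x90a1a10409)) (Pf.C 2 1042)) (Pf.C 0 0x4868b2238209)) (Pf.C 2 1426)) (Pf.C 2 1810)) (Pf.C 2 2194)) Pf.nil)))))))))))))))) (Pf.B 13 3 (Pf.C 0 0x344101e00191) (Pf.B 13 5 (Pf.C 0 0x14783162068e) (Pf.B 10 3 (Pf.C 0 0x2840d1e0018e) (Pf.B 10 5 (Pf.B 9 5 (Pf.B 9 3 (Pf.W 26 9 [] [0,3,4,5,8] (Pf.cons (Pf.B 18 8 (Pf.B 18 5 (Pf.B 18 3 (Pf.C 0 0x480031014209) (Pf.C 2 402)) (Pf.C 2 658)) (Pf.C 2 1042)) Pf.nil)) (Pf.W 26 9 [] [0,3,4,5,8,11,13,14,17] (Pf.cons (Pf.B 18 17 (Pf.B 18 14 (Pf.B 18 11 (Pf.B 18 13 (Pf.B 18 8 (Pf.B 18 5 (Pf.B 18 3 (Pf.C 0 0x48003101468e) (Pf.C 2 402)) (Pf.C 2 658)) (Pf.C 2 1042)) (Pf.C 0 0x4868b2238209)) (Pf.C 2 1426)) (Pf.C 2 1810))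 (Pf.C 2 2194)) Pf.nil))) (Pf.C 0 0x284041e24280)) (Pf.B 9 5 (Pf.B 9 3 (Pf.W 26 9 [] [0,3,4,5,8] (Pf.cons (Pf.B 18 8 (Pf.B 18 5 (Pf.B 18 3 (Pf.C 0 0x480031014209) (Pf.C 2 402)) (Pf.C 2 658)) (Pf.C 2 1042)) Pf.nil)) (Pf.W 26 9 [] [0,3,4,5,8,10,11,13,14,17] (Pf.cons (Pf.B 18 17 (Pf.B 18 14 (Pf.B 18 11 (Pf.B 18 13 (Pf.B 18 8 (Pf.B 18 10 (Pf.B 18 5 (Pf.B 18 3 (Pf.C 0 0x48003101450b) (Pf.C 2 402)) (Pf.C 2 658)) (Pf.C 0 0x90a1a10409)) (Pf.C 2 1042)) (Pf.C 0 0x4868b2238209)) (Pf.C 2 1426)) (Pf.C 2 1810)) (Pf.C 2 2194)) Pf.nil))) (Pf.B 9 3 (Pf.W 26 9 [] [0,3,4,8,11] (Pf.cons (Pf.B 18 11 (Pf.B 18 8 (Pf.B 18 3 (Pf.C 0 0x480031620209) (Pf.C 2 402)) (Pf.C 2 1042)) (Pf.C 2 1426)) Pf.nil)) (Pf.W 26 9 [] [0,3,4,5,8,10,11,13,14,17]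 (Pf.cons (Pf.B 18 17 (Pf.B 18 14 (Pf.B 18 11 (Pf.B 18 13 (Pf.B 18 8 (Pf.B 18 10 (Pf.B 18 5 (Pf.B 18 3 (Pf.C 0 0x48003101450b) (Pf.C 2 402)) (Pf.C 2 658)) (Pf.C 0 0x90a1a10409)) (Pf.C 2 1042)) (Pf.C 0 0x4868b2238209)) (Pf.C 2 1426)) (Pf.C 2 1810)) (Pf.C 2 2194)) Pf.nil)))))))))))))) (Pf.C 2 136)) (Pf.C 2 264)) (Pf.C 2 392)) (Pf.C 2 648)) (Pf.C 2 139)) (Pf.C 2 267)) (Pf.C 2 395)) (Pf.C 2 651)) (Pf.C 2 142)) (Pf.C 2 270)) (Pf.C 2 398)) (Pf.C 2 654)) (Pf.C 2 145)) (Pf.C 2 273)) (Pf.C 2 401)) (Pf.C 2 657)))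
 (Pq.cons (Pq.L [0,1,2,3,4,5] 0x3f77b21d788642ff8 (Pf.B 17 5 (Pf.B 17 3 (Pf.B 17 2 (Pf.B 17 1 (Pf.B 14 5 (Pf.B 14 3 (Pf.B 14 2 (Pf.B 14 1 (Pf.B 11 5 (Pf.B 11 3 (Pf.B 11 2 (Pf.B 11 1 (Pf.B 8 5 (Pf.B 8 3 (Pf.B 8 2 (Pf.B 8 1 (Pf.B 16 5 (Pf.B 16 3 (Pf.B 16 2 (Pf.C 0 0x80031014210) (Pf.B 16 1 (Pf.C 0 0x40031014210) (Pf.B 15 5 (Pf.B 9 5 (Pf.B 15 3 (Pf.B 15 2 (Pf.C 0 0x8003221420f) (Pf.C 0 0xc0021620785)) (Pf.B 15 2 (Pf.C 0 0x80031620785) (Pf.B 13 2 (Pf.C 0 0x1040f200010d) (Pf.B 12 2 (Pf.C 0 0x1070f1a0010c) (Pf.B 12 3 (Pf.C 0 0xc002162060e) (Pf.B 12 5 (Pf.B 9 3 (Pf.W 26 9 [] [0,3,4,5,11] (Pf.cons (Pf.B 18 11 (Pf.B 18 5 (Pf.B 18 3 (Pf.C 0 0x480031614209) (Pf.C 2 402)) (Pf.C 2 658)) (Pf.C 2 1426)) Pf.nil))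 (Pf.W 26 9 [] [0,3,4,5,8,11,12,14,17] (Pf.cons (Pf.B 18 17 (Pf.B 18 14 (Pf.B 18 11 (Pf.B 18 12 (Pf.B 18 8 (Pf.B 18 5 (Pf.B 18 3 (Pf.C 0 0x480031620605) (Pf.C 2 402)) (Pf.C 2 658)) (Pf.C 2 1042)) (Pf.C 0 0x4860b2238209)) (Pf.C 2 1426)) (Pf.C 2 1810)) (Pf.C 2 2194)) Pf.nil))) (Pf.B 9 3 (Pf.W 26 9 [] [0,3,4,5,11] (Pf.cons (Pf.B 18 11 (Pf.B 18 5 (Pf.B 18 3 (Pf.C 0 0x480031614209) (Pf.C 2 402)) (Pf.C 2 658)) (Pf.C 2 1426)) Pf.nil)) (Pf.W 26 9 [] [0,3,4,5,8,11,12,14,17] (Pf.cons (Pf.B 18 17 (Pf.B 18 14 (Pf.B 18 11 (Pf.B 18 12 (Pf.B 18 8 (Pf.B 18 5 (Pf.B 18 3 (Pf.C 0 0x48003101460e) (Pf.C 2 402)) (Pf.C 2 658)) (Pf.C 2 1042)) (Pf.C 0 0x4860b2238209)) (Pf.C 2 1426)) (Pf.C 2 1810)) (Pf.C 2 2194)) Pf.nil)))))))))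 (Pf.C 0 0x144881c2c780)) (Pf.B 15 3 (Pf.B 15 2 (Pf.B 15 1 (Pf.C 0 0x44203040400f) (Pf.C 0 0x80011014791)) (Pf.C 0 0xc0021014791)) (Pf.B 15 2 (Pf.C 0 0x80031014791) (Pf.B 15 1 (Pf.C 0 0x40021014791) (Pf.B 13 2 (Pf.C 0 0x1040f200010d) (Pf.B 13 1 (Pf.C 0 0x1040f200008d) (Pf.B 12 2 (Pf.C 0 0x1070f1a0010c) (Pf.B 12 3 (Pf.C 0 0xc002162060e) (Pf.B 12 1 (Pf.C 0 0x1070f1a0008c) (Pf.B 10 1 (Pf.C 0 0x1070f180008a) (Pf.B 9 1 (Pf.C 0 0x1058c1400089) (Pf.B 12 5 (Pf.B 9 5 (Pf.B 9 3 (Pf.W 26 9 [] [0,3,4,5,11] (Pf.cons (Pf.B 18 11 (Pf.B 18 5 (Pf.B 18 3 (Pf.C 0 0x480031614209) (Pf.C 2 402)) (Pf.C 2 658)) (Pf.C 2 1426)) Pf.nil)) (Pf.W 26 9 [] [0,3,4,5,8,11,12,14,17] (Pf.cons (Pf.B 18 17 (Pf.B 18 14 (Pf.B 18 11 (Pf.B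 18 12 (Pf.B 18 8 (Pf.B 18 5 (Pf.B 18 3 (Pf.C 0 0x480031620605) (Pf.C 2 402)) (Pf.C 2 658)) (Pf.C 2 1042)) (Pf.C 0 0x4860b2238209)) (Pf.C 2 1426)) (Pf.C 2 1810)) (Pf.C 2 2194)) Pf.nil))) (Pf.B 9 3 (Pf.C 0 0xc001101448b) (Pf.W 26 9 [] [0,3,5,8,11] (Pf.cons (Pf.B 18 11 (Pf.B 18 8 (Pf.B 18 5 (Pf.B 18 3 (Pf.C 0 0x48003101448b) (Pf.C 2 402)) (Pf.C 2 658)) (Pf.C 2 1042)) (Pf.C 2 1426)) Pf.nil)))) (Pf.B 9 5 (Pf.B 9 3 (Pf.W 26 9 [] [0,3,4,5,11] (Pf.cons (Pf.B 18 11 (Pf.B 18 5 (Pf.B 18 3 (Pf.C 0 0x480031614209) (Pf.C 2 402)) (Pf.C 2 658)) (Pf.C 2 1426)) Pf.nil)) (Pf.W 26 9 [] [0,3,4,5,8,11,12,14,17] (Pf.cons (Pf.B 18 17 (Pf.B 18 14 (Pf.B 18 11 (Pf.B 18 12 (Pf.B 18 8 (Pf.B 18 5 (Pf.B 18 3 (Pf.C 0 0x48003101460e)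 (Pf.C 2 402)) (Pf.C 2 658)) (Pf.C 2 1042)) (Pf.C 0 0x4860b2238209)) (Pf.C 2 1426)) (Pf.C 2 1810)) (Pf.C 2 2194)) Pf.nil))) (Pf.B 9 3 (Pf.C 0 0xc001101448b) (Pf.W 26 9 [] [0,3,5,8,11] (Pf.cons (Pf.B 18 11 (Pf.B 18 8 (Pf.B 18 5 (Pf.B 18 3 (Pf.C 0 0x48003101448b) (Pf.C 2 402)) (Pf.C 2 658)) (Pf.C 2 1042)) (Pf.C 2 1426)) Pf.nil)))))))))))))))))) (Pf.B 15 5 (Pf.B 15 3 (Pf.B 15 2 (Pf.C 0 0x8003221420f) (Pf.C 0 0xc0021620785)) (Pf.B 12 3 (Pf.C 0 0x3040f2000191) (Pf.B 9 3 (Pf.C 0 0x2440c200018e) (Pf.B 12 5 (Pf.W 26 9 [] [0,3,4,5,8,11,12,14,17] (Pf.cons (Pf.B 18 17 (Pf.B 18 14 (Pf.B 18 11 (Pf.B 18 12 (Pf.B 18 8 (Pf.B 18 5 (Pf.B 18 3 (Pf.C 0 0x480031620605) (Pf.C 2 402)) (Pf.C 2 658)) (Pf.C 2 1042)) (Pf.C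 0 0x4860b2238209)) (Pf.C 2 1426)) (Pf.C 2 1810)) (Pf.C 2 2194)) Pf.nil)) (Pf.W 26 9 [] [0,3,4,5,8,11,12,14,17] (Pf.cons (Pf.B 18 17 (Pf.B 18 14 (Pf.B 18 11 (Pf.B 18 12 (Pf.B 18 8 (Pf.B 18 5 (Pf.B 18 3 (Pf.C 0 0x48003101460e) (Pf.C 2 402)) (Pf.C 2 658)) (Pf.C 2 1042)) (Pf.C 0 0x4860b2238209)) (Pf.C 2 1426)) (Pf.C 2 1810)) (Pf.C 2 2194)) Pf.nil)))))) (Pf.B 15 3 (Pf.B 15 2 (Pf.B 15 1 (Pf.C 0 0x44203040400f) (Pf.C 0 0x80011014791)) (Pf.C 0 0xc0021014791)) (Pf.B 12 3 (Pf.C 0 0x3040f2000191) (Pf.B 9 3 (Pf.C 0 0x2440c200018e) (Pf.B 12 5 (Pf.W 26 9 [] [0,3,4,5,8,11,12,14,17] (Pf.cons (Pf.B 18 17 (Pf.B 18 14 (Pf.B 18 11 (Pf.B 18 12 (Pf.B 18 8 (Pf.B 18 5 (Pf.B 18 3 (Pf.C 0 0x480031620605) (Pf.C 2 402)) (Pf.C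 2 658)) (Pf.C 2 1042)) (Pf.C 0 0x4860b2238209)) (Pf.C 2 1426)) (Pf.C 2 1810)) (Pf.C 2 2194)) Pf.nil)) (Pf.W 26 9 [] [0,3,4,5,8,11,12,14,17] (Pf.cons (Pf.B 18 17 (Pf.B 18 14 (Pf.B 18 11 (Pf.B 18 12 (Pf.B 18 8 (Pf.B 18 5 (Pf.B 18 3 (Pf.C 0 0x48003101460e) (Pf.C 2 402)) (Pf.C 2 658)) (Pf.C 2 1042)) (Pf.C 0 0x4860b2238209)) (Pf.C 2 1426)) (Pf.C 2 1810)) (Pf.C 2 2194)) Pf.nil)))))))) (Pf.B 16 3 (Pf.B 16 2 (Pf.C 0 0x80031620210) (Pf.B 16 1 (Pf.C 0 0x40031620210) (Pf.B 15 5 (Pf.B 15 2 (Pf.B 15 3 (Pf.C 0 0x8805220c20f) (Pf.C 0 0x80031620785)) (Pf.C 0 0x148021620791)) (Pf.B 15 2 (Pf.C 0 0x88051620791) (Pf.B 15 1 (Pf.C 0 0x40021014791) (Pf.B 13 2 (Pf.C 0 0x1040f200010d) (Pf.B 13 1 (Pf.C 0 0x1040f200008d)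 (Pf.B 12 2 (Pf.C 0 0x1070f1a0010c) (Pf.B 12 5 (Pf.C 0 0x14802162060e) (Pf.B 12 1 (Pf.C 0 0x1070f1a0008c) (Pf.B 10 1 (Pf.C 0 0x1070f180008a) (Pf.B 9 1 (Pf.C 0 0x1058c1400089) (Pf.B 9 5 (Pf.B 9 3 (Pf.W 26 9 [] [0,3,4,5,11] (Pf.cons (Pf.B 18 11 (Pf.B 18 5 (Pf.B 18 3 (Pf.C 0 0x480031614209) (Pf.C 2 402)) (Pf.C 2 658)) (Pf.C 2 1426)) Pf.nil)) (Pf.C 0 0x14801100c48b)) (Pf.B 9 3 (Pf.C 0 0xc001101448b) (Pf.W 26 9 [] [0,3,4,5,8,11,12,14,16,17] (Pf.cons (Pf.B 18 17 (Pf.B 18 14 (Pf.B 18 11 (Pf.B 18 12 (Pf.B 18 8 (Pf.B 18 5 (Pf.B 18 16 (Pf.B 18 3 (Pf.C 0 0x480031620210) (Pf.C 2 402)) (Pf.C 0 0x910182428e)) (Pf.C 2 658)) (Pf.C 2 1042)) (Pf.C 0 0x4860b2238209)) (Pf.C 2 1426)) (Pf.C 2 1810)) (Pf.C 2 2194)) Pf.nil))))))))))))))))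 (Pf.B 15 5 (Pf.B 15 3 (Pf.B 15 2 (Pf.C 0 0x8003221420f) (Pf.C 0 0xc0021620785)) (Pf.C 0 0x148031620791)) (Pf.B 15 3 (Pf.C 0 0xc8051620791) (Pf.B 12 3 (Pf.C 0 0x3040f2000191) (Pf.B 12 5 (Pf.C 0 0x14803162060e) (Pf.B 9 3 (Pf.C 0 0x2440c200018e) (Pf.W 26 9 [] [0,3,4,5,8,11,12,14,17] (Pf.cons (Pf.B 18 17 (Pf.B 18 14 (Pf.B 18 11 (Pf.B 18 12 (Pf.B 18 8 (Pf.B 18 5 (Pf.B 18 3 (Pf.C 0 0x48003101460e) (Pf.C 2 402)) (Pf.C 2 658)) (Pf.C 2 1042)) (Pf.C 0 0x4860b2238209)) (Pf.C 2 1426)) (Pf.C 2 1810)) (Pf.C 2 2194)) Pf.nil))))))))) (Pf.C 2 136)) (Pf.C 2 264)) (Pf.C 2 392)) (Pf.C 2 648)) (Pf.C 2 139)) (Pf.C 2 267)) (Pf.C 2 395)) (Pf.C 2 651)) (Pf.C 2 142)) (Pf.C 2 270)) (Pf.C 2 398)) (Pf.C 2 654)) (Pf.C 2 145))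 (Pf.C 2 273)) (Pf.C 2 401)) (Pf.C 2 657)))
 (Pq.cons (Pq.L [0,1,2,3,4,5] 0x3eedf21ffc8643ff8 (Pf.B 17 5 (Pf.B 17 3 (Pf.B 17 2 (Pf.B 17 1 (Pf.B 14 5 (Pf.B 14 3 (Pf.B 14 2 (Pf.B 14 1 (Pf.B 11 5 (Pf.B 11 3 (Pf.B 11 2 (Pf.B 11 1 (Pf.B 8 5 (Pf.B 8 3 (Pf.B 8 2 (Pf.B 8 1 (Pf.B 16 5 (Pf.B 10 5 (Pf.B 16 3 (Pf.B 16 2 (Pf.C 0 0x80032214210) (Pf.C 0 0xc0021620805)) (Pf.B 16 2 (Pf.C 0 0x80031620805) (Pf.B 10 2 (Pf.C 0 0x880b221420a) (Pf.B 15 2 (Pf.C 0 0x85081c2c791) (Pf.B 13 2 (Pf.C 0 0x1070f140010d) (Pf.B 13 3 (Pf.C 0 0xc002162068e) (Pf.B 12 2 (Pf.C 0 0x1070f140010c) (Pf.B 12 3 (Pf.C 0 0xc002162060e) (Pf.B 13 5 (Pf.W 26 9 [] [0,3,4,5,8,11,13,14,17] (Pf.cons (Pf.B 18 17 (Pf.B 18 14 (Pf.B 18 11 (Pf.B 18 13 (Pf.B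 18 8 (Pf.B 18 5 (Pf.B 18 3 (Pf.C 0 0x480031620685) (Pf.C 2 402)) (Pf.C 2 658)) (Pf.C 2 1042)) (Pf.C 0 0x4868b2238209)) (Pf.C 2 1426)) (Pf.C 2 1810)) (Pf.C 2 2194)) Pf.nil)) (Pf.B 12 5 (Pf.W 26 9 [] [0,3,4,5,8,11,12,13,14,17] (Pf.cons (Pf.B 18 17 (Pf.B 18 14 (Pf.B 18 11 (Pf.B 18 13 (Pf.B 18 12 (Pf.B 18 8 (Pf.B 18 5 (Pf.B 18 3 (Pf.C 0 0x480031620605) (Pf.C 2 402)) (Pf.C 2 658)) (Pf.C 2 1042)) (Pf.C 0 0x90c1a10589)) (Pf.C 0 0x4868b2238209)) (Pf.C 2 1426)) (Pf.C 2 1810)) (Pf.C 2 2194)) Pf.nil)) (Pf.C 0 0x407041a30280))))))))))) (Pf.C 0 0x145081c2c800)) (Pf.B 16 3 (Pf.B 16 2 (Pf.B 16 1 (Pf.C 0 0x442030404010) (Pf.C 0 0x80011014811)) (Pf.C 0 0xc0021014811)) (Pf.B 16 2 (Pf.C 0 0x80031014811) (Pf.B 15 5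 (Pf.B 10 5 (Pf.B 15 3 (Pf.B 15 2 (Pf.C 0 0x8003221420f) (Pf.C 0 0xc0021620785)) (Pf.B 15 2 (Pf.C 0 0x80031620785) (Pf.B 10 2 (Pf.C 0 0x102901e0010a) (Pf.B 13 2 (Pf.C 0 0x1070f140010d) (Pf.B 13 3 (Pf.C 0 0xc002162068e) (Pf.B 12 2 (Pf.C 0 0x1070f140010c) (Pf.B 12 3 (Pf.C 0 0xc002162060e) (Pf.B 13 5 (Pf.W 26 9 [] [0,3,4,5,8,11,13,14,17] (Pf.cons (Pf.B 18 17 (Pf.B 18 14 (Pf.B 18 11 (Pf.B 18 13 (Pf.B 18 8 (Pf.B 18 5 (Pf.B 18 3 (Pf.C 0 0x480031620685) (Pf.C 2 402)) (Pf.C 2 658)) (Pf.C 2 1042)) (Pf.C 0 0x4868b2238209)) (Pf.C 2 1426)) (Pf.C 2 1810)) (Pf.C 2 2194)) Pf.nil)) (Pf.B 12 5 (Pf.W 26 9 [] [0,3,4,5,8,11,12,13,14,17] (Pf.cons (Pf.B 18 17 (Pf.B 18 14 (Pf.B 18 11 (Pf.B 18 13 (Pf.B 18 12 (Pf.B 18 8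 (Pf.B 18 5 (Pf.B 18 3 (Pf.C 0 0x480031620605) (Pf.C 2 402)) (Pf.C 2 658)) (Pf.C 2 1042)) (Pf.C 0 0x90c1a10589)) (Pf.C 0 0x4868b2238209)) (Pf.C 2 1426)) (Pf.C 2 1810)) (Pf.C 2 2194)) Pf.nil)) (Pf.C 0 0x3c7041a30280)))))))))) (Pf.C 0 0x145081c2c780)) (Pf.B 15 3 (Pf.B 15 2 (Pf.B 15 1 (Pf.C 0 0x44203040400f) (Pf.C 0 0x80011014791)) (Pf.C 0 0xc0021014791)) (Pf.B 15 2 (Pf.C 0 0x80031014791) (Pf.B 15 1 (Pf.C 0 0x40021014791) (Pf.B 13 5 (Pf.B 13 3 (Pf.B 13 2 (Pf.C 0 0x80031c1420d) (Pf.C 0 0xc0021620685)) (Pf.W 26 9 [] [0,3,4,5,8,11,13,14,17] (Pf.cons (Pf.B 18 17 (Pf.B 18 14 (Pf.B 18 11 (Pf.B 18 13 (Pf.B 18 8 (Pf.B 18 5 (Pf.B 18 3 (Pf.C 0 0x480031620685) (Pf.C 2 402)) (Pf.C 2 658)) (Pf.C 2 1042)) (Pf.C 0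 0x4868b2238209)) (Pf.C 2 1426)) (Pf.C 2 1810)) (Pf.C 2 2194)) Pf.nil))) (Pf.B 13 3 (Pf.B 13 2 (Pf.C 0 0x8003223820d) (Pf.C 0 0xc002101468e)) (Pf.B 13 2 (Pf.C 0 0x8003101468e) (Pf.B 13 1 (Pf.C 0 0x4002101468e) (Pf.B 12 2 (Pf.C 0 0x1070f1a0010c) (Pf.B 12 3 (Pf.C 0 0xc002162060e) (Pf.B 12 1 (Pf.C 0 0x1070f1a0008c) (Pf.B 10 1 (Pf.C 0 0x1070f180008a) (Pf.B 9 1 (Pf.C 0 0x1058c1400089) (Pf.B 12 5 (Pf.W 26 9 [] [0,3,4,5,8,11,12,13,14,17] (Pf.cons (Pf.B 18 17 (Pf.B 18 14 (Pf.B 18 11 (Pf.B 18 13 (Pf.B 18 12 (Pf.B 18 8 (Pf.B 18 5 (Pf.B 18 3 (Pf.C 0 0x480031620605) (Pf.C 2 402)) (Pf.C 2 658)) (Pf.C 2 1042)) (Pf.C 0 0x90c1a10589)) (Pf.C 0 0x4868b2238209)) (Pf.C 2 1426)) (Pf.C 2 1810)) (Pf.C 2 2194)) Pf.nil))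 (Pf.B 9 5 (Pf.B 9 3 (Pf.W 26 9 [] [0,3,4,5,11] (Pf.cons (Pf.B 18 11 (Pf.B 18 5 (Pf.B 18 3 (Pf.C 0 0x480031614209) (Pf.C 2 402)) (Pf.C 2 658)) (Pf.C 2 1426)) Pf.nil)) (Pf.W 26 9 [] [0,3,4,5,8,11,12,13,14,17] (Pf.cons (Pf.B 18 17 (Pf.B 18 14 (Pf.B 18 11 (Pf.B 18 13 (Pf.B 18 12 (Pf.B 18 8 (Pf.B 18 5 (Pf.B 18 3 (Pf.C 0 0x48003101460e) (Pf.C 2 402)) (Pf.C 2 658)) (Pf.C 2 1042)) (Pf.C 0 0x90c1a10589)) (Pf.C 0 0x4868b2238209)) (Pf.C 2 1426)) (Pf.C 2 1810)) (Pf.C 2 2194)) Pf.nil))) (Pf.B 9 3 (Pf.C 0 0xc001101448b) (Pf.W 26 9 [] [0,3,5,8,11] (Pf.cons (Pf.B 18 11 (Pf.B 18 8 (Pf.B 18 5 (Pf.B 18 3 (Pf.C 0 0x48003101448b) (Pf.C 2 402)) (Pf.C 2 658)) (Pf.C 2 1042)) (Pf.C 2 1426)) Pf.nil))))))))))))))))))))) (Pf.C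 2 136)) (Pf.C 2 264)) (Pf.C 2 392)) (Pf.C 2 648)) (Pf.C 2 139)) (Pf.C 2 267)) (Pf.C 2 395)) (Pf.C 2 651)) (Pf.C 2 142)) (Pf.C 2 270)) (Pf.C 2 398)) (Pf.C 2 654)) (Pf.C 2 145)) (Pf.C 2 273)) (Pf.C 2 401)) (Pf.C 2 657)))
 Pq.nil)))
theorem bD_o22 : AllRef bD_T bD_G29 (List.drop 1 (List.take 4 (hitObl [39,52] bD_h46))) :=
  chkPq_sound bD_o22c _ (by decide +kernel)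
noncomputable def bD_o23c : Pq := (Pq.cons (Pq.L [0,1,2,3,4,5] 0x3ffff6bff58ed7ffc (Pf.B 17 5 (Pf.B 17 3 (Pf.B 17 2 (Pf.B 17 1 (Pf.B 14 5 (Pf.B 14 3 (Pf.B 14 2 (Pf.B 14 1 (Pf.B 11 5 (Pf.B 11 3 (Pf.B 11 2 (Pf.B 11 1 (Pf.B 8 5 (Pf.B 8 3 (Pf.B 8 2 (Pf.B 8 1 (Pf.B 16 5 (Pf.B 16 3 (Pf.B 16 2 (Pf.C 0 0x80031014210) (Pf.B 16 1 (Pf.C 0 0x40031014210) (Pf.B 15 5 (Pf.B 15 3 (Pf.B 15 2 (Pf.C 0 0x8003101420f) (Pf.B 15 1 (Pf.C 0 0x4003101420f) (Pf.B 13 5 (Pf.B 13 3 (Pf.B 12 3 (Pf.B 9 3 (Pf.W 26 9 [] [0,3,4,8,11] (Pf.cons (Pf.B 18 11 (Pf.B 18 8 (Pf.B 18 3 (Pf.C 0 0x480031620209) (Pf.C 2 402)) (Pf.C 2 1042)) (Pf.C 2 1426)) Pf.nil)) (Pf.C 0 0x34884002418c)) (Pf.C 0 0x34884003018f)) (Pf.B 13 2 (Pf.C 0 0x34180203c105)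 (Pf.B 13 1 (Pf.C 0 0x4782220c685) (Pf.B 12 1 (Pf.C 0 0x1088d1e0008c) (Pf.B 10 3 (Pf.C 0 0x287041a0018f) (Pf.B 10 2 (Pf.C 0 0x80032238508) (Pf.B 10 1 (Pf.C 0 0x47821c0c508) (Pf.B 9 1 (Pf.C 0 0x1070a1800089) (Pf.B 7 3 (Pf.C 0 0xc6911c2c388) (Pf.B 7 2 (Pf.C 0 0x80031c2c388) (Pf.B 7 1 (Pf.C 0 0x4782160c388) (Pf.B 9 5 (Pf.B 9 3 (Pf.W 26 9 [] [0,3,4,5,8] (Pf.cons (Pf.B 18 8 (Pf.B 18 5 (Pf.B 18 3 (Pf.C 0 0x480031014209) (Pf.C 2 402)) (Pf.C 2 658)) (Pf.C 2 1042)) Pf.nil)) (Pf.B 7 5 (Pf.W 26 9 [] [0,3,4,5,7,10,11,13,14,17] (Pf.cons (Pf.B 18 17 (Pf.B 18 14 (Pf.B 18 11 (Pf.B 18 13 (Pf.B 18 10 (Pf.B 18 7 (Pf.B 18 5 (Pf.B 18 3 (Pf.C 0 0x480031c2c385) (Pf.C 2 402)) (Pf.C 2 658)) (Pf.C 0 0x9071410709)) (Pf.C 0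 0x90a1a10889)) (Pf.C 0 0x486911c2c209)) (Pf.C 2 1426)) (Pf.C 2 1810)) (Pf.C 2 2194)) Pf.nil)) (Pf.W 26 9 [] [0,3,4,5,7,8,10,11,13,14,17] (Pf.cons (Pf.B 18 17 (Pf.B 18 14 (Pf.B 18 11 (Pf.B 18 13 (Pf.B 18 10 (Pf.B 18 8 (Pf.B 18 7 (Pf.B 18 5 (Pf.B 18 3 (Pf.C 0 0x480031614388) (Pf.C 2 402)) (Pf.C 2 658)) (Pf.C 0 0x9071410709)) (Pf.C 2 1042)) (Pf.C 0 0x90a1a10889)) (Pf.C 0 0x486911c2c209)) (Pf.C 2 1426)) (Pf.C 2 1810)) (Pf.C 2 2194)) Pf.nil)))) (Pf.B 9 3 (Pf.C 0 0x14481220c688) (Pf.B 7 5 (Pf.C 0 0x144811c2c388) (Pf.W 26 9 [] [0,3,4,5,7,8,10,11,13,14,17] (Pf.cons (Pf.B 18 17 (Pf.B 18 14 (Pf.B 18 11 (Pf.B 18 13 (Pf.B 18 10 (Pf.B 18 8 (Pf.B 18 7 (Pf.B 18 5 (Pf.B 18 3 (Pf.C 0 0x480031614388) (Pf.C 2 402))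 (Pf.C 2 658)) (Pf.C 0 0x9071410709)) (Pf.C 2 1042)) (Pf.C 0 0x90a1a10889)) (Pf.C 0 0x486911c2c209)) (Pf.C 2 1426)) (Pf.C 2 1810)) (Pf.C 2 2194)) Pf.nil)))))))))))))))) (Pf.B 7 5 (Pf.C 0 0x146911c2c380) (Pf.B 13 3 (Pf.B 13 2 (Pf.C 0 0x10180203c10d) (Pf.C 0 0xc0022214688)) (Pf.B 7 3 (Pf.C 0 0xc6851c2c388) (Pf.B 9 5 (Pf.B 9 3 (Pf.W 26 9 [] [0,3,4,5,8] (Pf.cons (Pf.B 18 8 (Pf.B 18 5 (Pf.B 18 3 (Pf.C 0 0x480031014209) (Pf.C 2 402)) (Pf.C 2 658)) (Pf.C 2 1042)) Pf.nil)) (Pf.W 26 9 [] [0,3,4,5,7,8,10,11,13,14,17] (Pf.cons (Pf.B 18 17 (Pf.B 18 14 (Pf.B 18 11 (Pf.B 18 13 (Pf.B 18 10 (Pf.B 18 8 (Pf.B 18 7 (Pf.B 18 5 (Pf.B 18 3 (Pf.C 0 0x480031614388) (Pf.C 2 402)) (Pf.C 2 658)) (Pf.C 0 0x9071410709)) (Pf.C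 2 1042)) (Pf.C 0 0x90a1a10889)) (Pf.C 0 0x486911c2c209)) (Pf.C 2 1426)) (Pf.C 2 1810)) (Pf.C 2 2194)) Pf.nil))) (Pf.B 9 3 (Pf.W 26 9 [] [0,3,4,8,11] (Pf.cons (Pf.B 18 11 (Pf.B 18 8 (Pf.B 18 3 (Pf.C 0 0x480031620209) (Pf.C 2 402)) (Pf.C 2 1042)) (Pf.C 2 1426)) Pf.nil)) (Pf.W 26 9 [] [0,3,4,5,7,8,10,11,13,14,17] (Pf.cons (Pf.B 18 17 (Pf.B 18 14 (Pf.B 18 11 (Pf.B 18 13 (Pf.B 18 10 (Pf.B 18 8 (Pf.B 18 7 (Pf.B 18 5 (Pf.B 18 3 (Pf.C 0 0x480031614388) (Pf.C 2 402)) (Pf.C 2 658)) (Pf.C 0 0x9071410709)) (Pf.C 2 1042)) (Pf.C 0 0x90a1a10889)) (Pf.C 0 0x486911c2c209)) (Pf.C 2 1426)) (Pf.C 2 1810)) (Pf.C 2 2194)) Pf.nil)))))))))) (Pf.B 13 3 (Pf.C 0 0x348841e00190) (Pf.B 10 3 (Pf.C 0 0x287041a00190) (Pf.B 10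 2 (Pf.C 0 0x80032238508) (Pf.B 15 2 (Pf.C 0 0x1070a200010f) (Pf.B 15 1 (Pf.C 0 0x87831014201) (Pf.B 13 2 (Pf.C 0 0x1070a1e0010d) (Pf.B 13 1 (Pf.C 0 0x4802220c688) (Pf.B 12 1 (Pf.C 0 0x1088d1e0008c) (Pf.B 10 1 (Pf.C 0 0x48021c0c508) (Pf.B 9 1 (Pf.C 0 0x1070a1800089) (Pf.B 7 3 (Pf.C 0 0xc6911c2c388) (Pf.B 7 2 (Pf.C 0 0x80031c2c388) (Pf.B 7 1 (Pf.C 0 0x4802160c388) (Pf.B 13 5 (Pf.B 9 5 (Pf.B 9 3 (Pf.W 26 9 [] [0,3,4,5,8] (Pf.cons (Pf.B 18 8 (Pf.B 18 5 (Pf.B 18 3 (Pf.C 0 0x480031014209) (Pf.C 2 402)) (Pf.C 2 658)) (Pf.C 2 1042)) Pf.nil)) (Pf.B 7 5 (Pf.W 26 9 [] [0,3,4,5,7,10,11,13,14,17] (Pf.cons (Pf.B 18 17 (Pf.B 18 14 (Pf.B 18 11 (Pf.B 18 13 (Pf.B 18 10 (Pf.B 18 7 (Pf.B 18 5 (Pf.B 18 3 (Pf.C 0 0x480031c2c385)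 (Pf.C 2 402)) (Pf.C 2 658)) (Pf.C 0 0x9071410709)) (Pf.C 0 0x90a1a10889)) (Pf.C 0 0x486911c2c209)) (Pf.C 2 1426)) (Pf.C 2 1810)) (Pf.C 2 2194)) Pf.nil)) (Pf.W 26 9 [] [0,3,4,5,7,8,10,11,13,14,17] (Pf.cons (Pf.B 18 17 (Pf.B 18 14 (Pf.B 18 11 (Pf.B 18 13 (Pf.B 18 10 (Pf.B 18 8 (Pf.B 18 7 (Pf.B 18 5 (Pf.B 18 3 (Pf.C 0 0x480031614388) (Pf.C 2 402)) (Pf.C 2 658)) (Pf.C 0 0x9071410709)) (Pf.C 2 1042)) (Pf.C 0 0x90a1a10889)) (Pf.C 0 0x486911c2c209)) (Pf.C 2 1426)) (Pf.C 2 1810)) (Pf.C 2 2194)) Pf.nil)))) (Pf.B 9 3 (Pf.C 0 0x14481220c688) (Pf.B 7 5 (Pf.C 0 0x144811c2c388) (Pf.W 26 9 [] [0,3,4,5,7,8,10,11,13,14,17] (Pf.cons (Pf.B 18 17 (Pf.B 18 14 (Pf.B 18 11 (Pf.B 18 13 (Pf.B 18 10 (Pf.B 18 8 (Pf.B 18 7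 (Pf.B 18 5 (Pf.B 18 3 (Pf.C 0 0x480031614388) (Pf.C 2 402)) (Pf.C 2 658)) (Pf.C 0 0x9071410709)) (Pf.C 2 1042)) (Pf.C 0 0x90a1a10889)) (Pf.C 0 0x486911c2c209)) (Pf.C 2 1426)) (Pf.C 2 1810)) (Pf.C 2 2194)) Pf.nil))))) (Pf.B 7 5 (Pf.C 0 0x146911c2c380) (Pf.B 9 5 (Pf.B 9 3 (Pf.W 26 9 [] [0,3,4,5,8] (Pf.cons (Pf.B 18 8 (Pf.B 18 5 (Pf.B 18 3 (Pf.C 0 0x480031014209) (Pf.C 2 402)) (Pf.C 2 658)) (Pf.C 2 1042)) Pf.nil)) (Pf.W 26 9 [] [0,3,4,5,7,8,10,11,13,14,17] (Pf.cons (Pf.B 18 17 (Pf.B 18 14 (Pf.B 18 11 (Pf.B 18 13 (Pf.B 18 10 (Pf.B 18 8 (Pf.B 18 7 (Pf.B 18 5 (Pf.B 18 3 (Pf.C 0 0x480031614388) (Pf.C 2 402)) (Pf.C 2 658)) (Pf.C 0 0x9071410709)) (Pf.C 2 1042)) (Pf.C 0 0x90a1a10889)) (Pf.C 0 0x486911c2c209))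 (Pf.C 2 1426)) (Pf.C 2 1810)) (Pf.C 2 2194)) Pf.nil))) (Pf.B 9 3 (Pf.C 0 0x242871e00188) (Pf.W 26 9 [] [0,3,4,5,7,8,10,11,13,14,17] (Pf.cons (Pf.B 18 17 (Pf.B 18 14 (Pf.B 18 11 (Pf.B 18 13 (Pf.B 18 10 (Pf.B 18 8 (Pf.B 18 7 (Pf.B 18 5 (Pf.B 18 3 (Pf.C 0 0x480031614388) (Pf.C 2 402)) (Pf.C 2 658)) (Pf.C 0 0x9071410709)) (Pf.C 2 1042)) (Pf.C 0 0x90a1a10889)) (Pf.C 0 0x486911c2c209)) (Pf.C 2 1426)) (Pf.C 2 1810)) (Pf.C 2 2194)) Pf.nil)))))))))))))))))))) (Pf.B 15 3 (Pf.B 13 5 (Pf.B 13 3 (Pf.B 12 5 (Pf.B 12 3 (Pf.B 9 5 (Pf.B 9 3 (Pf.W 26 9 [] [0,3,4,5,8] (Pf.cons (Pf.B 18 8 (Pf.B 18 5 (Pf.B 18 3 (Pf.C 0 0x480031014209) (Pf.C 2 402)) (Pf.C 2 658)) (Pf.C 2 1042)) Pf.nil)) (Pf.C 0 0x34884002418c)) (Pf.C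 0 0x348841e24280)) (Pf.C 0 0x3c284003018d)) (Pf.C 0 0x348841e30280)) (Pf.C 0 0x3c2840034190)) (Pf.B 13 3 (Pf.C 0 0x1841e34290) (Pf.B 7 5 (Pf.C 0 0x146911c2c380) (Pf.B 7 3 (Pf.C 0 0xc6851c2c388) (Pf.B 9 5 (Pf.B 9 3 (Pf.W 26 9 [] [0,3,4,5,8] (Pf.cons (Pf.B 18 8 (Pf.B 18 5 (Pf.B 18 3 (Pf.C 0 0x480031014209) (Pf.C 2 402)) (Pf.C 2 658)) (Pf.C 2 1042)) Pf.nil)) (Pf.C 0 0x3c2840024190)) (Pf.B 9 3 (Pf.C 0 0x1871e24288) (Pf.W 26 9 [] [0,3,4,5,7,8,10,11,13,14,17] (Pf.cons (Pf.B 18 17 (Pf.B 18 14 (Pf.B 18 11 (Pf.B 18 13 (Pf.B 18 10 (Pf.B 18 8 (Pf.B 18 7 (Pf.B 18 5 (Pf.B 18 3 (Pf.C 0 0x480031614388) (Pf.C 2 402)) (Pf.C 2 658)) (Pf.C 0 0x9071410709)) (Pf.C 2 1042)) (Pf.C 0 0x90a1a10889)) (Pf.C 0 0x486911c2c209))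 (Pf.C 2 1426)) (Pf.C 2 1810)) (Pf.C 2 2194)) Pf.nil)))))))) (Pf.B 13 3 (Pf.C 0 0x348841e00190) (Pf.B 10 3 (Pf.C 0 0x287041a00190) (Pf.B 10 5 (Pf.C 0 0x147832238508) (Pf.B 7 5 (Pf.C 0 0x1c5841e28280) (Pf.B 7 3 (Pf.C 0 0xc7851c2c388) (Pf.B 9 5 (Pf.B 9 3 (Pf.W 26 9 [] [0,3,4,5,8] (Pf.cons (Pf.B 18 8 (Pf.B 18 5 (Pf.B 18 3 (Pf.C 0 0x480031014209) (Pf.C 2 402)) (Pf.C 2 658)) (Pf.C 2 1042)) Pf.nil)) (Pf.W 26 9 [] [0,3,4,5,7,8,10,11,13,14,17] (Pf.cons (Pf.B 18 17 (Pf.B 18 14 (Pf.B 18 11 (Pf.B 18 13 (Pf.B 18 10 (Pf.B 18 8 (Pf.B 18 7 (Pf.B 18 5 (Pf.B 18 3 (Pf.C 0 0x480031614388) (Pf.C 2 402)) (Pf.C 2 658)) (Pf.C 0 0x9071410709)) (Pf.C 2 1042)) (Pf.C 0 0x90a1a10889)) (Pf.C 0 0x486911c2c209)) (Pf.C 2 1426))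 (Pf.C 2 1810)) (Pf.C 2 2194)) Pf.nil))) (Pf.B 9 3 (Pf.W 26 9 [] [0,3,4,8,11] (Pf.cons (Pf.B 18 11 (Pf.B 18 8 (Pf.B 18 3 (Pf.C 0 0x480031620209) (Pf.C 2 402)) (Pf.C 2 1042)) (Pf.C 2 1426)) Pf.nil)) (Pf.W 26 9 [] [0,3,4,5,7,8,10,11,13,14,17] (Pf.cons (Pf.B 18 17 (Pf.B 18 14 (Pf.B 18 11 (Pf.B 18 13 (Pf.B 18 10 (Pf.B 18 8 (Pf.B 18 7 (Pf.B 18 5 (Pf.B 18 3 (Pf.C 0 0x480031614388) (Pf.C 2 402)) (Pf.C 2 658)) (Pf.C 0 0x9071410709)) (Pf.C 2 1042)) (Pf.C 0 0x90a1a10889)) (Pf.C 0 0x486911c2c209)) (Pf.C 2 1426)) (Pf.C 2 1810)) (Pf.C 2 2194)) Pf.nil))))))))))))) (Pf.B 16 2 (Pf.B 13 2 (Pf.B 13 3 (Pf.C 0 0x8003162020d) (Pf.B 13 5 (Pf.B 13 1 (Pf.C 0 0x446830404005) (Pf.C 0 0x46831014202)) (Pf.C 0 0x80032214688)))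 (Pf.C 0 0x86911620210)) (Pf.B 16 1 (Pf.C 0 0x88031014201) (Pf.B 15 5 (Pf.B 15 3 (Pf.B 15 2 (Pf.C 0 0x8003101420f) (Pf.B 15 1 (Pf.C 0 0x4003101420f) (Pf.B 13 3 (Pf.C 0 0x34884200018f) (Pf.B 10 3 (Pf.C 0 0x287041a0018f) (Pf.B 10 2 (Pf.C 0 0x80032238508) (Pf.B 13 2 (Pf.C 0 0x1070a1e0010d) (Pf.B 13 1 (Pf.C 0 0x4782220c688) (Pf.B 12 1 (Pf.C 0 0x1088d1e0008c) (Pf.B 10 1 (Pf.C 0 0x47821c0c508) (Pf.B 9 1 (Pf.C 0 0x1070a1800089) (Pf.B 7 3 (Pf.C 0 0xc6911c2c388) (Pf.B 7 2 (Pf.C 0 0x80031c2c388) (Pf.B 7 1 (Pf.C 0 0x4782160c388) (Pf.B 13 5 (Pf.B 9 5 (Pf.B 9 3 (Pf.W 26 9 [] [0,3,4,5,8] (Pf.cons (Pf.B 18 8 (Pf.B 18 5 (Pf.B 18 3 (Pf.C 0 0x480031014209) (Pf.C 2 402)) (Pf.C 2 658)) (Pf.C 2 1042)) Pf.nil)) (Pf.B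 7 5 (Pf.W 26 9 [] [0,3,4,5,7,10,11,13,14,17] (Pf.cons (Pf.B 18 17 (Pf.B 18 14 (Pf.B 18 11 (Pf.B 18 13 (Pf.B 18 10 (Pf.B 18 7 (Pf.B 18 5 (Pf.B 18 3 (Pf.C 0 0x480031c2c385) (Pf.C 2 402)) (Pf.C 2 658)) (Pf.C 0 0x9071410709)) (Pf.C 0 0x90a1a10889)) (Pf.C 0 0x486911c2c209)) (Pf.C 2 1426)) (Pf.C 2 1810)) (Pf.C 2 2194)) Pf.nil)) (Pf.W 26 9 [] [0,3,4,5,7,8,10,11,13,14,17] (Pf.cons (Pf.B 18 17 (Pf.B 18 14 (Pf.B 18 11 (Pf.B 18 13 (Pf.B 18 10 (Pf.B 18 8 (Pf.B 18 7 (Pf.B 18 5 (Pf.B 18 3 (Pf.C 0 0x480031614388) (Pf.C 2 402)) (Pf.C 2 658)) (Pf.C 0 0x9071410709)) (Pf.C 2 1042)) (Pf.C 0 0x90a1a10889)) (Pf.C 0 0x486911c2c209)) (Pf.C 2 1426)) (Pf.C 2 1810)) (Pf.C 2 2194)) Pf.nil)))) (Pf.B 9 3 (Pf.C 0 0x14481220c688)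 (Pf.B 7 5 (Pf.C 0 0x144811c2c388) (Pf.W 26 9 [] [0,3,4,5,7,8,10,11,13,14,17] (Pf.cons (Pf.B 18 17 (Pf.B 18 14 (Pf.B 18 11 (Pf.B 18 13 (Pf.B 18 10 (Pf.B 18 8 (Pf.B 18 7 (Pf.B 18 5 (Pf.B 18 3 (Pf.C 0 0x480031614388) (Pf.C 2 402)) (Pf.C 2 658)) (Pf.C 0 0x9071410709)) (Pf.C 2 1042)) (Pf.C 0 0x90a1a10889)) (Pf.C 0 0x486911c2c209)) (Pf.C 2 1426)) (Pf.C 2 1810)) (Pf.C 2 2194)) Pf.nil))))) (Pf.B 7 5 (Pf.C 0 0x146911c2c380) (Pf.B 9 5 (Pf.B 9 3 (Pf.W 26 9 [] [0,3,4,5,8] (Pf.cons (Pf.B 18 8 (Pf.B 18 5 (Pf.B 18 3 (Pf.C 0 0x480031014209) (Pf.C 2 402)) (Pf.C 2 658)) (Pf.C 2 1042)) Pf.nil)) (Pf.W 26 9 [] [0,3,4,5,7,8,10,11,13,14,17] (Pf.cons (Pf.B 18 17 (Pf.B 18 14 (Pf.B 18 11 (Pf.B 18 13 (Pf.B 18 10 (Pf.B 18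 8 (Pf.B 18 7 (Pf.B 18 5 (Pf.B 18 3 (Pf.C 0 0x480031614388) (Pf.C 2 402)) (Pf.C 2 658)) (Pf.C 0 0x9071410709)) (Pf.C 2 1042)) (Pf.C 0 0x90a1a10889)) (Pf.C 0 0x486911c2c209)) (Pf.C 2 1426)) (Pf.C 2 1810)) (Pf.C 2 2194)) Pf.nil))) (Pf.B 9 3 (Pf.C 0 0x242872000188) (Pf.W 26 9 [] [0,3,4,5,7,8,10,11,13,14,17] (Pf.cons (Pf.B 18 17 (Pf.B 18 14 (Pf.B 18 11 (Pf.B 18 13 (Pf.B 18 10 (Pf.B 18 8 (Pf.B 18 7 (Pf.B 18 5 (Pf.B 18 3 (Pf.C 0 0x480031614388) (Pf.C 2 402)) (Pf.C 2 658)) (Pf.C 0 0x9071410709)) (Pf.C 2 1042)) (Pf.C 0 0x90a1a10889)) (Pf.C 0 0x486911c2c209)) (Pf.C 2 1426)) (Pf.C 2 1810)) (Pf.C 2 2194)) Pf.nil))))))))))))))))))) (Pf.B 15 2 (Pf.B 15 1 (Pf.B 13 2 (Pf.B 13 3 (Pf.C 0 0x8003162020d) (Pf.B 13 5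 (Pf.B 13 1 (Pf.C 0 0x446830404005) (Pf.C 0 0x1088d200008f)) (Pf.C 0 0x80032214688))) (Pf.C 0 0x1088d200010f)) (Pf.C 0 0x47831014202)) (Pf.B 15 1 (Pf.C 0 0x87831014201) (Pf.B 13 5 (Pf.B 13 3 (Pf.B 12 3 (Pf.C 0 0x348841e0018c) (Pf.B 10 3 (Pf.C 0 0x28704180018d) (Pf.C 0 0x3488a1800188))) (Pf.B 10 3 (Pf.C 0 0x2888d1e00188) (Pf.B 10 2 (Pf.C 0 0x80032238508) (Pf.B 13 2 (Pf.C 0 0x1070a1e0010d) (Pf.B 13 1 (Pf.C 0 0x86831014201) (Pf.B 12 1 (Pf.C 0 0x1088d1e0008c) (Pf.B 10 1 (Pf.C 0 0x40022238508) (Pf.B 9 1 (Pf.C 0 0x1070a1800089) (Pf.B 7 3 (Pf.C 0 0xc6911c2c388) (Pf.B 7 2 (Pf.C 0 0x80031c2c388) (Pf.B 7 1 (Pf.C 0 0x40021c2c388) (Pf.B 9 5 (Pf.B 9 3 (Pf.W 26 9 [] [0,3,4,5,8] (Pf.cons (Pf.B 18 8 (Pf.B 18 5 (Pf.B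 18 3 (Pf.C 0 0x480031014209) (Pf.C 2 402)) (Pf.C 2 658)) (Pf.C 2 1042)) Pf.nil)) (Pf.B 7 5 (Pf.W 26 9 [] [0,3,4,5,7,10,11,13,14,17] (Pf.cons (Pf.B 18 17 (Pf.B 18 14 (Pf.B 18 11 (Pf.B 18 13 (Pf.B 18 10 (Pf.B 18 7 (Pf.B 18 5 (Pf.B 18 3 (Pf.C 0 0x480031c2c385) (Pf.C 2 402)) (Pf.C 2 658)) (Pf.C 0 0x9071410709)) (Pf.C 0 0x90a1a10889)) (Pf.C 0 0x486911c2c209)) (Pf.C 2 1426)) (Pf.C 2 1810)) (Pf.C 2 2194)) Pf.nil)) (Pf.W 26 9 [] [0,3,4,5,7,8,10,11,13,14,17] (Pf.cons (Pf.B 18 17 (Pf.B 18 14 (Pf.B 18 11 (Pf.B 18 13 (Pf.B 18 10 (Pf.B 18 8 (Pf.B 18 7 (Pf.B 18 5 (Pf.B 18 3 (Pf.C 0 0x480031614388) (Pf.C 2 402)) (Pf.C 2 658)) (Pf.C 0 0x9071410709)) (Pf.C 2 1042)) (Pf.C 0 0x90a1a10889)) (Pf.C 0 0x486911c2c209))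 (Pf.C 2 1426)) (Pf.C 2 1810)) (Pf.C 2 2194)) Pf.nil)))) (Pf.B 9 3 (Pf.C 0 0x14481220c688) (Pf.B 7 5 (Pf.C 0 0x144811c2c388) (Pf.W 26 9 [] [0,3,4,5,7,8,10,11,13,14,17] (Pf.cons (Pf.B 18 17 (Pf.B 18 14 (Pf.B 18 11 (Pf.B 18 13 (Pf.B 18 10 (Pf.B 18 8 (Pf.B 18 7 (Pf.B 18 5 (Pf.B 18 3 (Pf.C 0 0x480031614388) (Pf.C 2 402)) (Pf.C 2 658)) (Pf.C 0 0x9071410709)) (Pf.C 2 1042)) (Pf.C 0 0x90a1a10889)) (Pf.C 0 0x486911c2c209)) (Pf.C 2 1426)) (Pf.C 2 1810)) (Pf.C 2 2194)) Pf.nil)))))))))))))))) (Pf.B 7 5 (Pf.C 0 0x146911c2c380) (Pf.B 13 3 (Pf.B 13 2 (Pf.C 0 0x8003162020d) (Pf.C 0 0xc0022214688)) (Pf.B 7 3 (Pf.C 0 0xc6851c2c388) (Pf.B 9 5 (Pf.B 9 3 (Pf.W 26 9 [] [0,3,4,5,8] (Pf.cons (Pf.B 18 8 (Pf.B 18 5 (Pf.B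 18 3 (Pf.C 0 0x480031014209) (Pf.C 2 402)) (Pf.C 2 658)) (Pf.C 2 1042)) Pf.nil)) (Pf.W 26 9 [] [0,3,4,5,7,8,10,11,13,14,17] (Pf.cons (Pf.B 18 17 (Pf.B 18 14 (Pf.B 18 11 (Pf.B 18 13 (Pf.B 18 10 (Pf.B 18 8 (Pf.B 18 7 (Pf.B 18 5 (Pf.B 18 3 (Pf.C 0 0x480031614388) (Pf.C 2 402)) (Pf.C 2 658)) (Pf.C 0 0x9071410709)) (Pf.C 2 1042)) (Pf.C 0 0x90a1a10889)) (Pf.C 0 0x486911c2c209)) (Pf.C 2 1426)) (Pf.C 2 1810)) (Pf.C 2 2194)) Pf.nil))) (Pf.B 9 3 (Pf.C 0 0x242871e00188) (Pf.W 26 9 [] [0,3,4,5,7,8,10,11,13,14,17] (Pf.cons (Pf.B 18 17 (Pf.B 18 14 (Pf.B 18 11 (Pf.B 18 13 (Pf.B 18 10 (Pf.B 18 8 (Pf.B 18 7 (Pf.B 18 5 (Pf.B 18 3 (Pf.C 0 0x480031614388) (Pf.C 2 402)) (Pf.C 2 658)) (Pf.C 0 0x9071410709)) (Pf.C 2 1042))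 (Pf.C 0 0x90a1a10889)) (Pf.C 0 0x486911c2c209)) (Pf.C 2 1426)) (Pf.C 2 1810)) (Pf.C 2 2194)) Pf.nil))))))))))) (Pf.B 15 3 (Pf.B 15 2 (Pf.C 0 0x8003162020f) (Pf.B 13 3 (Pf.C 0 0x34884200018f) (Pf.B 13 5 (Pf.B 13 2 (Pf.C 0 0x1028f200010d) (Pf.C 0 0x14782220c688)) (Pf.C 0 0x3c28d2000188)))) (Pf.B 15 2 (Pf.B 15 1 (Pf.C 0 0x147830404008) (Pf.C 0 0x47831620202)) (Pf.B 13 5 (Pf.B 13 2 (Pf.C 0 0x1028f200010d) (Pf.B 13 3 (Pf.C 0 0x446820a0c788) (Pf.B 9 5 (Pf.B 7 5 (Pf.C 0 0x3c2841a1c880) (Pf.B 7 3 (Pf.C 0 0xc6911614388) (Pf.B 9 3 (Pf.W 26 9 [] [0,3,4,5,8] (Pf.cons (Pf.B 18 8 (Pf.B 18 5 (Pf.B 18 3 (Pf.C 0 0x480031014209) (Pf.C 2 402)) (Pf.C 2 658)) (Pf.C 2 1042)) Pf.nil)) (Pf.W 26 9 [] [0,3,4,5,7,8,10,11,13,14,17]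 (Pf.cons (Pf.B 18 17 (Pf.B 18 14 (Pf.B 18 11 (Pf.B 18 13 (Pf.B 18 10 (Pf.B 18 8 (Pf.B 18 7 (Pf.B 18 5 (Pf.B 18 3 (Pf.C 0 0x480031614388) (Pf.C 2 402)) (Pf.C 2 658)) (Pf.C 0 0x9071410709)) (Pf.C 2 1042)) (Pf.C 0 0x90a1a10889)) (Pf.C 0 0x486911c2c209)) (Pf.C 2 1426)) (Pf.C 2 1810)) (Pf.C 2 2194)) Pf.nil))))) (Pf.C 0 0x348841e24280)))) (Pf.B 13 3 (Pf.C 0 0x3428f2000188) (Pf.B 7 5 (Pf.C 0 0x146911c2c380) (Pf.B 7 3 (Pf.C 0 0xc6851c2c388) (Pf.B 9 5 (Pf.B 9 3 (Pf.W 26 9 [] [0,3,4,5,8] (Pf.cons (Pf.B 18 8 (Pf.B 18 5 (Pf.B 18 3 (Pf.C 0 0x480031014209) (Pf.C 2 402)) (Pf.C 2 658)) (Pf.C 2 1042)) Pf.nil)) (Pf.W 26 9 [] [0,3,4,5,7,8,10,11,13,14,17] (Pf.cons (Pf.B 18 17 (Pf.B 18 14 (Pf.B 18 11 (Pf.B 18 13 (Pf.B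 18 10 (Pf.B 18 8 (Pf.B 18 7 (Pf.B 18 5 (Pf.B 18 3 (Pf.C 0 0x480031614388) (Pf.C 2 402)) (Pf.C 2 658)) (Pf.C 0 0x9071410709)) (Pf.C 2 1042)) (Pf.C 0 0x90a1a10889)) (Pf.C 0 0x486911c2c209)) (Pf.C 2 1426)) (Pf.C 2 1810)) (Pf.C 2 2194)) Pf.nil))) (Pf.B 9 3 (Pf.C 0 0x242872000188) (Pf.W 26 9 [] [0,3,4,5,7,8,10,11,13,14,17] (Pf.cons (Pf.B 18 17 (Pf.B 18 14 (Pf.B 18 11 (Pf.B 18 13 (Pf.B 18 10 (Pf.B 18 8 (Pf.B 18 7 (Pf.B 18 5 (Pf.B 18 3 (Pf.C 0 0x480031614388) (Pf.C 2 402)) (Pf.C 2 658)) (Pf.C 0 0x9071410709)) (Pf.C 2 1042)) (Pf.C 0 0x90a1a10889)) (Pf.C 0 0x486911c2c209)) (Pf.C 2 1426)) (Pf.C 2 1810)) (Pf.C 2 2194)) Pf.nil)))))))))))))) (Pf.B 16 3 (Pf.B 16 2 (Pf.C 0 0x80031620210) (Pf.B 15 5 (Pf.B 15 2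 (Pf.C 0 0x8805162020f) (Pf.B 15 3 (Pf.B 13 5 (Pf.B 13 3 (Pf.B 12 5 (Pf.B 12 3 (Pf.B 9 5 (Pf.B 9 3 (Pf.W 26 9 [] [0,3,4,5,8] (Pf.cons (Pf.B 18 8 (Pf.B 18 5 (Pf.B 18 3 (Pf.C 0 0x480031014209) (Pf.C 2 402)) (Pf.C 2 658)) (Pf.C 2 1042)) Pf.nil)) (Pf.C 0 0x34884002418c)) (Pf.C 0 0x348842024280)) (Pf.C 0 0x40284003018d)) (Pf.C 0 0x348842030280)) (Pf.C 0 0x40284003418f)) (Pf.B 13 3 (Pf.C 0 0x184203428f) (Pf.B 7 5 (Pf.C 0 0x146911c2c380) (Pf.B 7 3 (Pf.C 0 0xc6851c2c388) (Pf.B 9 5 (Pf.B 9 3 (Pf.W 26 9 [] [0,3,4,5,8] (Pf.cons (Pf.B 18 8 (Pf.B 18 5 (Pf.B 18 3 (Pf.C 0 0x480031014209) (Pf.C 2 402)) (Pf.C 2 658)) (Pf.C 2 1042)) Pf.nil)) (Pf.C 0 0x40284002418f)) (Pf.B 9 3 (Pf.C 0 0x1872024288) (Pf.W 26 9 [] [0,3,4,5,7,8,10,11,13,14,17]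 (Pf.cons (Pf.B 18 17 (Pf.B 18 14 (Pf.B 18 11 (Pf.B 18 13 (Pf.B 18 10 (Pf.B 18 8 (Pf.B 18 7 (Pf.B 18 5 (Pf.B 18 3 (Pf.C 0 0x480031614388) (Pf.C 2 402)) (Pf.C 2 658)) (Pf.C 0 0x9071410709)) (Pf.C 2 1042)) (Pf.C 0 0x90a1a10889)) (Pf.C 0 0x486911c2c209)) (Pf.C 2 1426)) (Pf.C 2 1810)) (Pf.C 2 2194)) Pf.nil)))))))) (Pf.B 13 3 (Pf.C 0 0x348841e00190) (Pf.B 13 5 (Pf.B 13 2 (Pf.C 0 0x102901e0010d) (Pf.C 0 0x14802220c688)) (Pf.C 0 0x4028d1e00188))))) (Pf.B 13 5 (Pf.C 0 0x34884203c280) (Pf.B 10 5 (Pf.C 0 0x287041e34280) (Pf.B 10 2 (Pf.C 0 0x88052238508) (Pf.B 15 2 (Pf.C 0 0x1070a200010f) (Pf.B 13 2 (Pf.C 0 0x1070a1e0010d) (Pf.B 13 3 (Pf.C 0 0xc0022214688) (Pf.B 7 5 (Pf.C 0 0x146911c2c380) (Pf.B 7 3 (Pf.C 0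 0xc6851c2c388) (Pf.B 9 5 (Pf.B 9 3 (Pf.W 26 9 [] [0,3,4,5,8] (Pf.cons (Pf.B 18 8 (Pf.B 18 5 (Pf.B 18 3 (Pf.C 0 0x480031014209) (Pf.C 2 402)) (Pf.C 2 658)) (Pf.C 2 1042)) Pf.nil)) (Pf.C 0 0x402870024188)) (Pf.B 9 3 (Pf.C 0 0x1872024288) (Pf.W 26 9 [] [0,3,4,5,7,8,10,11,13,14,17] (Pf.cons (Pf.B 18 17 (Pf.B 18 14 (Pf.B 18 11 (Pf.B 18 13 (Pf.B 18 10 (Pf.B 18 8 (Pf.B 18 7 (Pf.B 18 5 (Pf.B 18 3 (Pf.C 0 0x480031614388) (Pf.C 2 402)) (Pf.C 2 658)) (Pf.C 0 0x9071410709)) (Pf.C 2 1042)) (Pf.C 0 0x90a1a10889)) (Pf.C 0 0x486911c2c209)) (Pf.C 2 1426)) (Pf.C 2 1810)) (Pf.C 2 2194)) Pf.nil)))))))))))))) (Pf.B 16 2 (Pf.B 16 1 (Pf.C 0 0x148030404008) (Pf.C 0 0x48031620202)) (Pf.B 15 5 (Pf.B 15 2 (Pf.C 0 0x8805162020f)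 (Pf.B 15 3 (Pf.B 13 3 (Pf.C 0 0x34884200018f) (Pf.B 10 3 (Pf.C 0 0x287041a0018f) (Pf.B 10 5 (Pf.C 0 0x148032238508) (Pf.B 7 5 (Pf.C 0 0x1c5842028280) (Pf.B 7 3 (Pf.C 0 0xc8051c2c388) (Pf.B 9 5 (Pf.B 9 3 (Pf.W 26 9 [] [0,3,4,5,8] (Pf.cons (Pf.B 18 8 (Pf.B 18 5 (Pf.B 18 3 (Pf.C 0 0x480031014209) (Pf.C 2 402)) (Pf.C 2 658)) (Pf.C 2 1042)) Pf.nil)) (Pf.W 26 9 [] [0,3,4,5,7,8,10,11,13,14,17] (Pf.cons (Pf.B 18 17 (Pf.B 18 14 (Pf.B 18 11 (Pf.B 18 13 (Pf.B 18 10 (Pf.B 18 8 (Pf.B 18 7 (Pf.B 18 5 (Pf.B 18 3 (Pf.C 0 0x480031614388) (Pf.C 2 402)) (Pf.C 2 658)) (Pf.C 0 0x9071410709)) (Pf.C 2 1042)) (Pf.C 0 0x90a1a10889)) (Pf.C 0 0x486911c2c209)) (Pf.C 2 1426)) (Pf.C 2 1810)) (Pf.C 2 2194)) Pf.nil))) (Pf.B 9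 3 (Pf.W 26 9 [] [0,3,4,8,11] (Pf.cons (Pf.B 18 11 (Pf.B 18 8 (Pf.B 18 3 (Pf.C 0 0x480031620209) (Pf.C 2 402)) (Pf.C 2 1042)) (Pf.C 2 1426)) Pf.nil)) (Pf.W 26 9 [] [0,3,4,5,7,8,10,11,13,14,17] (Pf.cons (Pf.B 18 17 (Pf.B 18 14 (Pf.B 18 11 (Pf.B 18 13 (Pf.B 18 10 (Pf.B 18 8 (Pf.B 18 7 (Pf.B 18 5 (Pf.B 18 3 (Pf.C 0 0x480031614388) (Pf.C 2 402)) (Pf.C 2 658)) (Pf.C 0 0x9071410709)) (Pf.C 2 1042)) (Pf.C 0 0x90a1a10889)) (Pf.C 0 0x486911c2c209)) (Pf.C 2 1426)) (Pf.C 2 1810)) (Pf.C 2 2194)) Pf.nil))))))))) (Pf.B 13 5 (Pf.B 13 2 (Pf.C 0 0x102901e0010d) (Pf.B 13 3 (Pf.C 0 0x446820a0c808) (Pf.B 9 5 (Pf.B 7 5 (Pf.C 0 0x402841a1c880) (Pf.B 7 3 (Pf.C 0 0xc6911614388) (Pf.B 9 3 (Pf.W 26 9 [] [0,3,4,5,8] (Pf.cons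 (Pf.B 18 8 (Pf.B 18 5 (Pf.B 18 3 (Pf.C 0 0x480031014209) (Pf.C 2 402)) (Pf.C 2 658)) (Pf.C 2 1042)) Pf.nil)) (Pf.W 26 9 [] [0,3,4,5,7,8,10,11,13,14,17] (Pf.cons (Pf.B 18 17 (Pf.B 18 14 (Pf.B 18 11 (Pf.B 18 13 (Pf.B 18 10 (Pf.B 18 8 (Pf.B 18 7 (Pf.B 18 5 (Pf.B 18 3 (Pf.C 0 0x480031614388) (Pf.C 2 402)) (Pf.C 2 658)) (Pf.C 0 0x9071410709)) (Pf.C 2 1042)) (Pf.C 0 0x90a1a10889)) (Pf.C 0 0x486911c2c209)) (Pf.C 2 1426)) (Pf.C 2 1810)) (Pf.C 2 2194)) Pf.nil))))) (Pf.C 0 0x348842024280)))) (Pf.B 13 3 (Pf.C 0 0x342901e00188) (Pf.B 7 5 (Pf.C 0 0x146911c2c380) (Pf.B 7 3 (Pf.C 0 0xc6851c2c388) (Pf.B 9 5 (Pf.B 9 3 (Pf.W 26 9 [] [0,3,4,5,8] (Pf.cons (Pf.B 18 8 (Pf.B 18 5 (Pf.B 18 3 (Pf.C 0 0x480031014209) (Pf.C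 2 402)) (Pf.C 2 658)) (Pf.C 2 1042)) Pf.nil)) (Pf.W 26 9 [] [0,3,4,5,7,8,10,11,13,14,17] (Pf.cons (Pf.B 18 17 (Pf.B 18 14 (Pf.B 18 11 (Pf.B 18 13 (Pf.B 18 10 (Pf.B 18 8 (Pf.B 18 7 (Pf.B 18 5 (Pf.B 18 3 (Pf.C 0 0x480031614388) (Pf.C 2 402)) (Pf.C 2 658)) (Pf.C 0 0x9071410709)) (Pf.C 2 1042)) (Pf.C 0 0x90a1a10889)) (Pf.C 0 0x486911c2c209)) (Pf.C 2 1426)) (Pf.C 2 1810)) (Pf.C 2 2194)) Pf.nil))) (Pf.B 9 3 (Pf.C 0 0x242871e00188) (Pf.W 26 9 [] [0,3,4,5,7,8,10,11,13,14,17] (Pf.cons (Pf.B 18 17 (Pf.B 18 14 (Pf.B 18 11 (Pf.B 18 13 (Pf.B 18 10 (Pf.B 18 8 (Pf.B 18 7 (Pf.B 18 5 (Pf.B 18 3 (Pf.C 0 0x480031614388) (Pf.C 2 402)) (Pf.C 2 658)) (Pf.C 0 0x9071410709)) (Pf.C 2 1042)) (Pf.C 0 0x90a1a10889)) (Pf.C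 0 0x486911c2c209)) (Pf.C 2 1426)) (Pf.C 2 1810)) (Pf.C 2 2194)) Pf.nil)))))))))) (Pf.B 13 5 (Pf.C 0 0x34884203c280) (Pf.B 10 5 (Pf.C 0 0x287041e34280) (Pf.B 10 3 (Pf.C 0 0xc8052238508) (Pf.B 13 3 (Pf.C 0 0x3488a2000188) (Pf.B 7 5 (Pf.C 0 0x146911c2c380) (Pf.B 7 3 (Pf.C 0 0xc6851c2c388) (Pf.W 26 9 [] [0,3,4,5,7,8,10,11,13,14,17] (Pf.cons (Pf.B 18 17 (Pf.B 18 14 (Pf.B 18 11 (Pf.B 18 13 (Pf.B 18 10 (Pf.B 18 8 (Pf.B 18 7 (Pf.B 18 5 (Pf.B 18 3 (Pf.C 0 0x480031614388) (Pf.C 2 402)) (Pf.C 2 658)) (Pf.C 0 0x9071410709)) (Pf.C 2 1042)) (Pf.C 0 0x90a1a10889)) (Pf.C 0 0x486911c2c209)) (Pf.C 2 1426)) (Pf.C 2 1810)) (Pf.C 2 2194)) Pf.nil)))))))))))) (Pf.C 2 136)) (Pf.C 2 264)) (Pf.C 2 392)) (Pf.C 2 648)) (Pf.C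 2 139)) (Pf.C 2 267)) (Pf.C 2 395)) (Pf.C 2 651)) (Pf.C 2 142)) (Pf.C 2 270)) (Pf.C 2 398)) (Pf.C 2 654)) (Pf.C 2 145)) (Pf.C 2 273)) (Pf.C 2 401)) (Pf.C 2 657)))
 (Pq.cons (Pq.L [0,1,2,3,4,5] 0x7bb5daffc (Pf.B 14 5 (Pf.B 14 3 (Pf.B 14 2 (Pf.B 14 1 (Pf.B 11 5 (Pf.B 11 3 (Pf.B 11 2 (Pf.B 8 5 (Pf.B 8 3 (Pf.B 8 2 (Pf.B 8 1 (Pf.B 13 5 (Pf.B 10 5 (Pf.B 7 5 (Pf.W 20 7 [] [0,4,5,8,11,12,13,14] (Pf.cons (Pf.B 15 14 (Pf.B 15 11 (Pf.B 15 8 (Pf.B 15 5 (Pf.B 15 13 (Pf.B 15 12 (Pf.C 0 0x7841a1c58c) (Pf.C 0 0x344040030787)) (Pf.C 0 0x3838b103c685)) (Pf.C 2 655)) (Pf.C 2 1039)) (Pf.C 2 1423)) (Pf.C 2 1807)) Pf.nil)) (Pf.C 0 0x2050e1614380)) (Pf.C 0 0x2c6881c14500)) (Pf.B 10 5 (Pf.C 0 0x385081614680) (Pf.B 7 5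 (Pf.C 0 0x3838b1014680) (Pf.B 13 3 (Pf.B 13 2 (Pf.B 13 1 (Pf.C 0 0x38203040400d) (Pf.C 0 0x8001101468e)) (Pf.C 0 0xc002101468e)) (Pf.B 13 2 (Pf.C 0 0x8003101468e) (Pf.B 13 1 (Pf.C 0 0x4002101468e) (Pf.B 12 5 (Pf.B 12 3 (Pf.B 10 3 (Pf.C 0 0x38505160c68c) (Pf.B 7 3 (Pf.C 0 0x2c385100c50c) (Pf.W 20 7 [] [0,3,5,8,11] (Pf.cons (Pf.B 15 11 (Pf.B 15 8 (Pf.B 15 5 (Pf.B 15 3 (Pf.C 0 0x3c0031614388) (Pf.C 2 399)) (Pf.C 2 655)) (Pf.C 2 1039)) (Pf.C 2 1423)) Pf.nil)))) (Pf.B 12 2 (Pf.B 12 1 (Pf.C 0 0x38205040468c) (Pf.C 0 0x46031014202)) (Pf.B 10 2 (Pf.C 0 0x1058d180010a) (Pf.B 9 2 (Pf.C 0 0x1058d1400109) (Pf.B 7 2 (Pf.C 0 0x1040a1200107) (Pf.B 7 3 (Pf.C 0 0xc0021614388) (Pf.W 20 7 [] [0,3,5,8,11] (Pf.cons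 (Pf.B 15 11 (Pf.B 15 8 (Pf.B 15 5 (Pf.B 15 3 (Pf.C 0 0x3c0031614388) (Pf.C 2 399)) (Pf.C 2 655)) (Pf.C 2 1039)) (Pf.C 2 1423)) Pf.nil)))))))) (Pf.W 20 7 [] [0,4,5,8,11,12,13,14] (Pf.cons (Pf.B 15 14 (Pf.B 15 11 (Pf.B 15 8 (Pf.B 15 5 (Pf.B 15 12 (Pf.B 15 13 (Pf.C 0 0x7840e3458c) (Pf.C 0 0x1c704003478c)) (Pf.C 0 0x3c6051c2c388)) (Pf.C 2 655)) (Pf.C 2 1039)) (Pf.C 2 1423)) (Pf.C 2 1807)) Pf.nil))))))))) (Pf.C 2 136)) (Pf.C 2 264)) (Pf.C 2 392)) (Pf.C 2 648)) (Pf.C 2 267)) (Pf.C 2 395)) (Pf.C 2 651)) (Pf.C 2 142)) (Pf.C 2 270)) (Pf.C 2 398)) (Pf.C 2 654)))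
 (Pq.cons (Pq.L [4] 0x1095f1287 (Pf.C 0 0x1c7041824406))
 Pq.nil)))
theorem bD_o23 : AllRef bD_T bD_G29 (List.take 3 (List.drop 4 (hitObl [39,52] bD_h46))) :=
  chkPq_sound bD_o23c _ (by decide +kernel)
noncomputable def bD_o24c : Pq := (Pq.cons (Pq.L [0,1,2,3,4,5] 0x3ffffb77fedd4efda (Pf.B 17 5 (Pf.B 17 3 (Pf.B 17 2 (Pf.B 17 1 (Pf.B 14 5 (Pf.B 14 3 (Pf.B 14 2 (Pf.B 14 1 (Pf.B 11 5 (Pf.B 11 3 (Pf.B 11 2 (Pf.B 11 1 (Pf.B 8 5 (Pf.B 8 3 (Pf.B 8 2 (Pf.B 8 1 (Pf.B 16 5 (Pf.B 16 3 (Pf.B 16 2 (Pf.C 0 0x80031014210) (Pf.B 16 1 (Pf.C 0 0x40031014210) (Pf.B 15 5 (Pf.B 15 3 (Pf.B 15 2 (Pf.C 0 0x8003101420f) (Pf.B 15 1 (Pf.C 0 0x4003101420f) (Pf.B 13 3 (Pf.B 13 2 (Pf.C 0 0x10180203c10d) (Pf.B 12 5 (Pf.B 12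 3 (Pf.B 10 3 (Pf.B 9 3 (Pf.C 0 0x184182488a) (Pf.B 9 5 (Pf.W 26 9 [] [0,3,5,14,17] (Pf.cons (Pf.B 18 17 (Pf.B 18 14 (Pf.B 18 5 (Pf.B 18 3 (Pf.C 0 0x480032238485) (Pf.C 2 402)) (Pf.C 2 658)) (Pf.C 2 1810)) (Pf.C 2 2194)) Pf.nil)) (Pf.W 26 9 [] [0,3,4,5,8,12,14,17] (Pf.cons (Pf.B 18 17 (Pf.B 18 14 (Pf.B 18 8 (Pf.B 18 5 (Pf.B 18 12 (Pf.B 18 3 (Pf.C 0 0x48003101420c) (Pf.C 2 402)) (Pf.C 0 0x486111c14488)) (Pf.C 2 658)) (Pf.C 2 1042)) (Pf.C 2 1810)) (Pf.C 2 2194)) Pf.nil)))) (Pf.C 0 0x30884002818d)) (Pf.B 9 3 (Pf.C 0 0x24704180018d) (Pf.B 6 3 (Pf.C 0 0xc6111c2c308) (Pf.B 9 5 (Pf.W 26 9 [] [0,3,5,14,17] (Pf.cons (Pf.B 18 17 (Pf.B 18 14 (Pf.B 18 5 (Pf.B 18 3 (Pf.C 0 0x480032238485) (Pf.C 2 402)) (Pf.C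 2 658)) (Pf.C 2 1810)) (Pf.C 2 2194)) Pf.nil)) (Pf.B 6 5 (Pf.W 26 9 [] [0,3,5,6,8,11,14] (Pf.cons (Pf.B 18 14 (Pf.B 18 11 (Pf.B 18 8 (Pf.B 18 5 (Pf.B 18 6 (Pf.B 18 3 (Pf.C 0 0x480031c2c305) (Pf.C 2 402)) (Pf.C 0 0x1448e1648308)) (Pf.C 2 658)) (Pf.C 2 1042)) (Pf.C 2 1426)) (Pf.C 2 1810)) Pf.nil)) (Pf.W 26 9 [] [0,3,5,6,8,11,12,14,17] (Pf.cons (Pf.B 18 17 (Pf.B 18 14 (Pf.B 18 11 (Pf.B 18 8 (Pf.B 18 5 (Pf.B 18 12 (Pf.B 18 6 (Pf.B 18 3 (Pf.C 0 0x480031614308) (Pf.C 2 402)) (Pf.C 0 0x9061824888)) (Pf.C 0 0x486111c14488)) (Pf.C 2 658)) (Pf.C 2 1042)) (Pf.C 2 1426)) (Pf.C 2 1810)) (Pf.C 2 2194)) Pf.nil))))))) (Pf.B 6 5 (Pf.C 0 0x146111c2c300) (Pf.B 12 3 (Pf.B 12 2 (Pf.C 0 0x101801e3410c) (Pf.C 0 0xc0022214608))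 (Pf.B 9 3 (Pf.C 0 0x24704180018d) (Pf.B 6 3 (Pf.C 0 0xc6051c2c308) (Pf.B 9 5 (Pf.W 26 9 [] [0,3,5,6,8,11,12,14,17] (Pf.cons (Pf.B 18 17 (Pf.B 18 14 (Pf.B 18 11 (Pf.B 18 8 (Pf.B 18 5 (Pf.B 18 12 (Pf.B 18 6 (Pf.B 18 3 (Pf.C 0 0x480031614308) (Pf.C 2 402)) (Pf.C 0 0x9061824888)) (Pf.C 0 0x384910a48608)) (Pf.C 2 658)) (Pf.C 2 1042)) (Pf.C 2 1426)) (Pf.C 2 1810)) (Pf.C 2 2194)) Pf.nil)) (Pf.W 26 9 [] [0,3,5,8,14] (Pf.cons (Pf.B 18 14 (Pf.B 18 8 (Pf.B 18 5 (Pf.B 18 3 (Pf.C 0 0x480031c14488) (Pf.C 2 402)) (Pf.C 2 658)) (Pf.C 2 1042)) (Pf.C 2 1810)) Pf.nil))))))))) (Pf.B 12 3 (Pf.C 0 0x308841a0018f) (Pf.B 12 2 (Pf.C 0 0x30180203c108) (Pf.B 12 1 (Pf.C 0 0x4782220c608) (Pf.B 9 3 (Pf.C 0 0x24704180018f) (Pf.B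 6 3 (Pf.C 0 0xc6111c2c308) (Pf.B 6 2 (Pf.C 0 0x80031c2c308) (Pf.B 6 1 (Pf.C 0 0x4782160c308) (Pf.B 12 5 (Pf.B 9 5 (Pf.W 26 9 [] [0,3,5,14,17] (Pf.cons (Pf.B 18 17 (Pf.B 18 14 (Pf.B 18 5 (Pf.B 18 3 (Pf.C 0 0x480032238485) (Pf.C 2 402)) (Pf.C 2 658)) (Pf.C 2 1810)) (Pf.C 2 2194)) Pf.nil)) (Pf.B 6 5 (Pf.W 26 9 [] [0,3,5,6,8,11,14] (Pf.cons (Pf.B 18 14 (Pf.B 18 11 (Pf.B 18 8 (Pf.B 18 5 (Pf.B 18 6 (Pf.B 18 3 (Pf.C 0 0x480031c2c305) (Pf.C 2 402)) (Pf.C 0 0x1448e1648308)) (Pf.C 2 658)) (Pf.C 2 1042)) (Pf.C 2 1426)) (Pf.C 2 1810)) Pf.nil)) (Pf.W 26 9 [] [0,3,5,6,8,11,12,14,17] (Pf.cons (Pf.B 18 17 (Pf.B 18 14 (Pf.B 18 11 (Pf.B 18 8 (Pf.B 18 5 (Pf.B 18 12 (Pf.B 18 6 (Pf.B 18 3 (Pf.C 0 0x480031614308) (Pf.C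 2 402)) (Pf.C 0 0x9061824888)) (Pf.C 0 0x486111c14488)) (Pf.C 2 658)) (Pf.C 2 1042)) (Pf.C 2 1426)) (Pf.C 2 1810)) (Pf.C 2 2194)) Pf.nil)))) (Pf.B 6 5 (Pf.C 0 0x146011c2c308) (Pf.B 9 5 (Pf.W 26 9 [] [0,3,5,6,8,11,12,14,17] (Pf.cons (Pf.B 18 17 (Pf.B 18 14 (Pf.B 18 11 (Pf.B 18 8 (Pf.B 18 5 (Pf.B 18 12 (Pf.B 18 6 (Pf.B 18 3 (Pf.C 0 0x480031614308) (Pf.C 2 402)) (Pf.C 0 0x9061824888)) (Pf.C 0 0x384910a48608)) (Pf.C 2 658)) (Pf.C 2 1042)) (Pf.C 2 1426)) (Pf.C 2 1810)) (Pf.C 2 2194)) Pf.nil)) (Pf.W 26 9 [] [0,3,5,8,14] (Pf.cons (Pf.B 18 14 (Pf.B 18 8 (Pf.B 18 5 (Pf.B 18 3 (Pf.C 0 0x480031c14488) (Pf.C 2 402)) (Pf.C 2 658)) (Pf.C 2 1042)) (Pf.C 2 1810)) Pf.nil))))))))))))))) (Pf.B 12 3 (Pf.C 0 0x308841e00190)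 (Pf.B 9 3 (Pf.C 0 0x247041800190) (Pf.B 9 2 (Pf.C 0 0x80032238488) (Pf.B 15 2 (Pf.C 0 0x10709200010f) (Pf.B 13 2 (Pf.C 0 0x107091e0010d) (Pf.B 12 2 (Pf.C 0 0x107091a0010c) (Pf.B 12 1 (Pf.C 0 0x4802220c608) (Pf.B 6 3 (Pf.C 0 0xc6111c2c308) (Pf.B 6 2 (Pf.C 0 0x80031c2c308) (Pf.B 6 1 (Pf.C 0 0x4802160c308) (Pf.B 12 5 (Pf.B 9 5 (Pf.W 26 9 [] [0,3,5,14,17] (Pf.cons (Pf.B 18 17 (Pf.B 18 14 (Pf.B 18 5 (Pf.B 18 3 (Pf.C 0 0x480032238485) (Pf.C 2 402)) (Pf.C 2 658)) (Pf.C 2 1810)) (Pf.C 2 2194)) Pf.nil)) (Pf.B 6 5 (Pf.W 26 9 [] [0,3,5,6,8,11,14] (Pf.cons (Pf.B 18 14 (Pf.B 18 11 (Pf.B 18 8 (Pf.B 18 5 (Pf.B 18 6 (Pf.B 18 3 (Pf.C 0 0x480031c2c305) (Pf.C 2 402)) (Pf.C 0 0x1448e1648308)) (Pf.C 2 658)) (Pf.C 2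 1042)) (Pf.C 2 1426)) (Pf.C 2 1810)) Pf.nil)) (Pf.W 26 9 [] [0,3,5,6,8,11,12,14,17] (Pf.cons (Pf.B 18 17 (Pf.B 18 14 (Pf.B 18 11 (Pf.B 18 8 (Pf.B 18 5 (Pf.B 18 12 (Pf.B 18 6 (Pf.B 18 3 (Pf.C 0 0x480031614308) (Pf.C 2 402)) (Pf.C 0 0x9061824888)) (Pf.C 0 0x486111c14488)) (Pf.C 2 658)) (Pf.C 2 1042)) (Pf.C 2 1426)) (Pf.C 2 1810)) (Pf.C 2 2194)) Pf.nil)))) (Pf.B 6 5 (Pf.C 0 0x146011c2c308) (Pf.B 9 5 (Pf.W 26 9 [] [0,3,5,6,8,11,12,14,17] (Pf.cons (Pf.B 18 17 (Pf.B 18 14 (Pf.B 18 11 (Pf.B 18 8 (Pf.B 18 5 (Pf.B 18 12 (Pf.B 18 6 (Pf.B 18 3 (Pf.C 0 0x480031614308) (Pf.C 2 402)) (Pf.C 0 0x9061824888)) (Pf.C 0 0x384910a48608)) (Pf.C 2 658)) (Pf.C 2 1042)) (Pf.C 2 1426)) (Pf.C 2 1810)) (Pf.C 2 2194)) Pf.nil))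 (Pf.W 26 9 [] [0,3,5,8,14] (Pf.cons (Pf.B 18 14 (Pf.B 18 8 (Pf.B 18 5 (Pf.B 18 3 (Pf.C 0 0x480031c14488) (Pf.C 2 402)) (Pf.C 2 658)) (Pf.C 2 1042)) (Pf.C 2 1810)) Pf.nil)))))))))))))))) (Pf.B 15 3 (Pf.B 13 5 (Pf.B 13 3 (Pf.B 12 5 (Pf.B 12 3 (Pf.B 10 5 (Pf.B 10 3 (Pf.B 9 5 (Pf.C 0 0x3c2841824880) (Pf.B 9 3 (Pf.C 0 0x1841e2428a) (Pf.W 26 9 [] [0,3,4,5,8,12,14,15,17] (Pf.cons (Pf.B 18 17 (Pf.B 18 14 (Pf.B 18 8 (Pf.B 18 5 (Pf.B 18 15 (Pf.B 18 12 (Pf.B 18 3 (Pf.C 0 0x48003101420c) (Pf.C 2 402)) (Pf.C 0 0x90c121088f)) (Pf.C 0 0x487852238488)) (Pf.C 2 658)) (Pf.C 2 1042)) (Pf.C 2 1810)) (Pf.C 2 2194)) Pf.nil)))) (Pf.C 0 0x3c284002818c)) (Pf.C 0 0x308841e28280)) (Pf.C 0 0x3c284003018d)) (Pf.B 9 5 (Pf.C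 0 0x247041e30280) (Pf.B 9 3 (Pf.C 0 0x1841e2428d) (Pf.W 26 9 [] [0,3,4,5,8,11,14,15,17] (Pf.cons (Pf.B 18 17 (Pf.B 18 14 (Pf.B 18 11 (Pf.B 18 8 (Pf.B 18 5 (Pf.B 18 15 (Pf.B 18 3 (Pf.C 0 0x48003162020f) (Pf.C 2 402)) (Pf.C 0 0x487852238488)) (Pf.C 2 658)) (Pf.C 2 1042)) (Pf.C 2 1426)) (Pf.C 2 1810)) (Pf.C 2 2194)) Pf.nil))))) (Pf.C 0 0x3c2840034190)) (Pf.B 13 3 (Pf.C 0 0x1841e34290) (Pf.B 12 5 (Pf.C 0 0x308841e34280) (Pf.B 9 5 (Pf.C 0 0x247041a30280) (Pf.B 9 3 (Pf.C 0 0xc6852238488) (Pf.W 26 9 [] [0,3,4,5,8,11,14,15,17] (Pf.cons (Pf.B 18 17 (Pf.B 18 14 (Pf.B 18 11 (Pf.B 18 8 (Pf.B 18 5 (Pf.B 18 15 (Pf.B 18 3 (Pf.C 0 0x48003162020f) (Pf.C 2 402)) (Pf.C 0 0x487852238488)) (Pf.C 2 658)) (Pf.C 2 1042))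 (Pf.C 2 1426)) (Pf.C 2 1810)) (Pf.C 2 2194)) Pf.nil))))))) (Pf.B 12 3 (Pf.C 0 0x308841e00190) (Pf.B 9 3 (Pf.C 0 0x247041800190) (Pf.B 9 5 (Pf.C 0 0x147832238488) (Pf.B 6 5 (Pf.C 0 0x185841e24280) (Pf.B 6 3 (Pf.C 0 0xc7851c2c308) (Pf.W 26 9 [] [0,3,5,6,8,11,14,15,17] (Pf.cons (Pf.B 18 17 (Pf.B 18 14 (Pf.B 18 11 (Pf.B 18 8 (Pf.B 18 5 (Pf.B 18 15 (Pf.B 18 6 (Pf.B 18 3 (Pf.C 0 0x480031614308) (Pf.C 2 402)) (Pf.C 0 0x9061e24288)) (Pf.C 0 0x487852238488)) (Pf.C 2 658)) (Pf.C 2 1042)) (Pf.C 2 1426)) (Pf.C 2 1810)) (Pf.C 2 2194)) Pf.nil))))))))))) (Pf.B 16 2 (Pf.B 12 2 (Pf.B 12 3 (Pf.C 0 0x8003162020c) (Pf.B 12 5 (Pf.B 12 1 (Pf.C 0 0x446030404005) (Pf.C 0 0x46031014202)) (Pf.C 0 0x80032214608))) (Pf.C 0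 0x86111620210)) (Pf.B 16 1 (Pf.C 0 0x88031014201) (Pf.B 15 5 (Pf.B 15 3 (Pf.B 15 2 (Pf.C 0 0x8003101420f) (Pf.B 15 1 (Pf.C 0 0x4003101420f) (Pf.B 12 3 (Pf.C 0 0x30884200018f) (Pf.B 9 3 (Pf.C 0 0x24704180018f) (Pf.B 9 2 (Pf.C 0 0x80032238488) (Pf.B 13 2 (Pf.C 0 0x107091e0010d) (Pf.B 12 2 (Pf.C 0 0x107091a0010c) (Pf.B 12 1 (Pf.C 0 0x4782220c608) (Pf.B 6 3 (Pf.C 0 0xc6111c2c308) (Pf.B 6 2 (Pf.C 0 0x80031c2c308) (Pf.B 6 1 (Pf.C 0 0x4782160c308) (Pf.B 12 5 (Pf.B 9 5 (Pf.W 26 9 [] [0,3,5,14,17] (Pf.cons (Pf.B 18 17 (Pf.B 18 14 (Pf.B 18 5 (Pf.B 18 3 (Pf.C 0 0x480032238485) (Pf.C 2 402)) (Pf.C 2 658)) (Pf.C 2 1810)) (Pf.C 2 2194)) Pf.nil)) (Pf.B 6 5 (Pf.W 26 9 [] [0,3,5,6,8,11,14] (Pf.cons (Pf.B 18 14 (Pf.B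 18 11 (Pf.B 18 8 (Pf.B 18 5 (Pf.B 18 6 (Pf.B 18 3 (Pf.C 0 0x480031c2c305) (Pf.C 2 402)) (Pf.C 0 0x1448e1648308)) (Pf.C 2 658)) (Pf.C 2 1042)) (Pf.C 2 1426)) (Pf.C 2 1810)) Pf.nil)) (Pf.W 26 9 [] [0,3,5,6,8,11,12,14,17] (Pf.cons (Pf.B 18 17 (Pf.B 18 14 (Pf.B 18 11 (Pf.B 18 8 (Pf.B 18 5 (Pf.B 18 12 (Pf.B 18 6 (Pf.B 18 3 (Pf.C 0 0x480031614308) (Pf.C 2 402)) (Pf.C 0 0x9061824888)) (Pf.C 0 0x486111c14488)) (Pf.C 2 658)) (Pf.C 2 1042)) (Pf.C 2 1426)) (Pf.C 2 1810)) (Pf.C 2 2194)) Pf.nil)))) (Pf.B 6 5 (Pf.C 0 0x146011c2c308) (Pf.B 9 5 (Pf.W 26 9 [] [0,3,5,6,8,11,12,14,17] (Pf.cons (Pf.B 18 17 (Pf.B 18 14 (Pf.B 18 11 (Pf.B 18 8 (Pf.B 18 5 (Pf.B 18 12 (Pf.B 18 6 (Pf.B 18 3 (Pf.C 0 0x480031614308) (Pf.C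 2 402)) (Pf.C 0 0x9061824888)) (Pf.C 0 0x384910a48608)) (Pf.C 2 658)) (Pf.C 2 1042)) (Pf.C 2 1426)) (Pf.C 2 1810)) (Pf.C 2 2194)) Pf.nil)) (Pf.W 26 9 [] [0,3,5,8,14] (Pf.cons (Pf.B 18 14 (Pf.B 18 8 (Pf.B 18 5 (Pf.B 18 3 (Pf.C 0 0x480031c14488) (Pf.C 2 402)) (Pf.C 2 658)) (Pf.C 2 1042)) (Pf.C 2 1810)) Pf.nil)))))))))))))))) (Pf.B 15 2 (Pf.B 15 1 (Pf.B 12 2 (Pf.B 12 3 (Pf.C 0 0x8003162020c) (Pf.B 12 5 (Pf.B 12 1 (Pf.C 0 0x446030404005) (Pf.C 0 0x1088c200008f)) (Pf.C 0 0x80032214608))) (Pf.C 0 0x1088c200010f)) (Pf.C 0 0x47831014202)) (Pf.B 13 5 (Pf.B 13 3 (Pf.B 13 2 (Pf.C 0 0x8003101420d) (Pf.B 13 1 (Pf.C 0 0x4003101420d) (Pf.B 12 3 (Pf.C 0 0x308841e0018d) (Pf.B 9 3 (Pf.C 0 0x24704180018d) (Pf.B 9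 2 (Pf.C 0 0x80032238488) (Pf.B 12 2 (Pf.C 0 0x107091a0010c) (Pf.B 12 1 (Pf.C 0 0x4682220c608) (Pf.B 6 3 (Pf.C 0 0xc6111c2c308) (Pf.B 6 2 (Pf.C 0 0x80031c2c308) (Pf.B 6 1 (Pf.C 0 0x4682160c308) (Pf.B 12 5 (Pf.B 9 5 (Pf.W 26 9 [] [0,3,5,14,17] (Pf.cons (Pf.B 18 17 (Pf.B 18 14 (Pf.B 18 5 (Pf.B 18 3 (Pf.C 0 0x480032238485) (Pf.C 2 402)) (Pf.C 2 658)) (Pf.C 2 1810)) (Pf.C 2 2194)) Pf.nil)) (Pf.B 6 5 (Pf.W 26 9 [] [0,3,5,6,8,11,14] (Pf.cons (Pf.B 18 14 (Pf.B 18 11 (Pf.B 18 8 (Pf.B 18 5 (Pf.B 18 6 (Pf.B 18 3 (Pf.C 0 0x480031c2c305) (Pf.C 2 402)) (Pf.C 0 0x1448e1648308)) (Pf.C 2 658)) (Pf.C 2 1042)) (Pf.C 2 1426)) (Pf.C 2 1810)) Pf.nil)) (Pf.W 26 9 [] [0,3,5,6,8,11,12,14,17] (Pf.cons (Pf.B 18 17 (Pf.B 18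 14 (Pf.B 18 11 (Pf.B 18 8 (Pf.B 18 5 (Pf.B 18 12 (Pf.B 18 6 (Pf.B 18 3 (Pf.C 0 0x480031614308) (Pf.C 2 402)) (Pf.C 0 0x9061824888)) (Pf.C 0 0x486111c14488)) (Pf.C 2 658)) (Pf.C 2 1042)) (Pf.C 2 1426)) (Pf.C 2 1810)) (Pf.C 2 2194)) Pf.nil)))) (Pf.B 6 5 (Pf.C 0 0x146011c2c308) (Pf.B 9 5 (Pf.W 26 9 [] [0,3,5,6,8,11,12,14,17] (Pf.cons (Pf.B 18 17 (Pf.B 18 14 (Pf.B 18 11 (Pf.B 18 8 (Pf.B 18 5 (Pf.B 18 12 (Pf.B 18 6 (Pf.B 18 3 (Pf.C 0 0x480031614308) (Pf.C 2 402)) (Pf.C 0 0x9061824888)) (Pf.C 0 0x384910a48608)) (Pf.C 2 658)) (Pf.C 2 1042)) (Pf.C 2 1426)) (Pf.C 2 1810)) (Pf.C 2 2194)) Pf.nil)) (Pf.W 26 9 [] [0,3,5,8,14] (Pf.cons (Pf.B 18 14 (Pf.B 18 8 (Pf.B 18 5 (Pf.B 18 3 (Pf.C 0 0x480031c14488) (Pf.C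 2 402)) (Pf.C 2 658)) (Pf.C 2 1042)) (Pf.C 2 1810)) Pf.nil))))))))))))))) (Pf.B 12 5 (Pf.B 12 3 (Pf.B 10 3 (Pf.C 0 0x308841a0018a) (Pf.B 9 3 (Pf.C 0 0x24704140018c) (Pf.C 0 0x308891400188))) (Pf.B 9 3 (Pf.C 0 0x2488c1a00188) (Pf.B 6 3 (Pf.C 0 0xc6111c2c308) (Pf.B 9 5 (Pf.W 26 9 [] [0,3,5,14,17] (Pf.cons (Pf.B 18 17 (Pf.B 18 14 (Pf.B 18 5 (Pf.B 18 3 (Pf.C 0 0x480032238485) (Pf.C 2 402)) (Pf.C 2 658)) (Pf.C 2 1810)) (Pf.C 2 2194)) Pf.nil)) (Pf.B 6 5 (Pf.W 26 9 [] [0,3,5,6,8,11,14] (Pf.cons (Pf.B 18 14 (Pf.B 18 11 (Pf.B 18 8 (Pf.B 18 5 (Pf.B 18 6 (Pf.B 18 3 (Pf.C 0 0x480031c2c305) (Pf.C 2 402)) (Pf.C 0 0x1448e1648308)) (Pf.C 2 658)) (Pf.C 2 1042)) (Pf.C 2 1426)) (Pf.C 2 1810)) Pf.nil)) (Pf.W 26 9 []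 [0,3,5,6,8,11,12,14,17] (Pf.cons (Pf.B 18 17 (Pf.B 18 14 (Pf.B 18 11 (Pf.B 18 8 (Pf.B 18 5 (Pf.B 18 12 (Pf.B 18 6 (Pf.B 18 3 (Pf.C 0 0x480031614308) (Pf.C 2 402)) (Pf.C 0 0x9061824888)) (Pf.C 0 0x486111c14488)) (Pf.C 2 658)) (Pf.C 2 1042)) (Pf.C 2 1426)) (Pf.C 2 1810)) (Pf.C 2 2194)) Pf.nil))))))) (Pf.B 6 5 (Pf.C 0 0x146111c2c300) (Pf.B 12 3 (Pf.B 12 2 (Pf.C 0 0x8003162020c) (Pf.C 0 0xc0022214608)) (Pf.B 9 3 (Pf.C 0 0x2488c1a00188) (Pf.B 6 3 (Pf.C 0 0xc6051c2c308) (Pf.B 9 5 (Pf.W 26 9 [] [0,3,5,6,8,11,12,14,17] (Pf.cons (Pf.B 18 17 (Pf.B 18 14 (Pf.B 18 11 (Pf.B 18 8 (Pf.B 18 5 (Pf.B 18 12 (Pf.B 18 6 (Pf.B 18 3 (Pf.C 0 0x480031614308) (Pf.C 2 402)) (Pf.C 0 0x9061824888)) (Pf.C 0 0x384910a48608))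 (Pf.C 2 658)) (Pf.C 2 1042)) (Pf.C 2 1426)) (Pf.C 2 1810)) (Pf.C 2 2194)) Pf.nil)) (Pf.W 26 9 [] [0,3,5,8,14] (Pf.cons (Pf.B 18 14 (Pf.B 18 8 (Pf.B 18 5 (Pf.B 18 3 (Pf.C 0 0x480031c14488) (Pf.C 2 402)) (Pf.C 2 658)) (Pf.C 2 1042)) (Pf.C 2 1810)) Pf.nil))))))))) (Pf.B 13 3 (Pf.B 13 2 (Pf.C 0 0x8003162020d) (Pf.B 12 3 (Pf.C 0 0x308841e0018d) (Pf.B 12 5 (Pf.B 12 2 (Pf.C 0 0x1028d1e0010c) (Pf.C 0 0x14682220c608)) (Pf.C 0 0x3428c1e00188)))) (Pf.B 13 2 (Pf.B 13 1 (Pf.C 0 0x146830404008) (Pf.C 0 0x46831620202)) (Pf.B 12 5 (Pf.B 12 2 (Pf.C 0 0x1028d1e0010c) (Pf.B 12 3 (Pf.C 0 0x446020a0c688) (Pf.B 9 5 (Pf.C 0 0x342841824880) (Pf.B 9 3 (Pf.C 0 0xc6111c14488) (Pf.B 6 5 (Pf.C 0 0x342841818880) (Pf.B 6 3 (Pf.C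 0 0xc6111614308) (Pf.W 26 9 [] [0,3,5,6,8,11,13,14,17] (Pf.cons (Pf.B 18 17 (Pf.B 18 14 (Pf.B 18 11 (Pf.B 18 8 (Pf.B 18 5 (Pf.B 18 13 (Pf.B 18 6 (Pf.B 18 3 (Pf.C 0 0x480031614308) (Pf.C 2 402)) (Pf.C 0 0x9061a24288)) (Pf.C 0 0x486852238488)) (Pf.C 2 658)) (Pf.C 2 1042)) (Pf.C 2 1426)) (Pf.C 2 1810)) (Pf.C 2 2194)) Pf.nil)))))))) (Pf.B 12 3 (Pf.C 0 0x3028d1e00188) (Pf.B 9 5 (Pf.C 0 0x247041a30280) (Pf.B 9 3 (Pf.C 0 0xc6852238488) (Pf.B 6 5 (Pf.C 0 0x146111c2c300) (Pf.B 6 3 (Pf.C 0 0xc6051c2c308) (Pf.W 26 9 [] [0,3,5,6,8,11,12,13,14,17] (Pf.cons (Pf.B 18 17 (Pf.B 18 14 (Pf.B 18 11 (Pf.B 18 8 (Pf.B 18 5 (Pf.B 18 13 (Pf.B 18 12 (Pf.B 18 6 (Pf.B 18 3 (Pf.C 0 0x480031614308) (Pf.C 2 402)) (Pf.C 0 0x9061824288))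 (Pf.C 0 0x90c1a24288)) (Pf.C 0 0x486852238488)) (Pf.C 2 658)) (Pf.C 2 1042)) (Pf.C 2 1426)) (Pf.C 2 1810)) (Pf.C 2 2194)) Pf.nil))))))))))))) (Pf.B 15 3 (Pf.B 15 2 (Pf.C 0 0x8003162020f) (Pf.B 12 3 (Pf.C 0 0x30884200018f) (Pf.B 12 5 (Pf.B 13 5 (Pf.B 13 2 (Pf.C 0 0x1028f200010d) (Pf.B 12 2 (Pf.C 0 0x1028f1a0010c) (Pf.C 0 0x14782220c608))) (Pf.C 0 0x308841e34280)) (Pf.C 0 0x3c28c2000188)))) (Pf.B 15 2 (Pf.B 15 1 (Pf.C 0 0x147830404008) (Pf.C 0 0x47831620202)) (Pf.B 13 5 (Pf.B 13 2 (Pf.C 0 0x1028f200010d) (Pf.B 13 3 (Pf.B 12 3 (Pf.C 0 0x308841e0018d) (Pf.B 9 3 (Pf.C 0 0x24704180018d) (Pf.B 9 5 (Pf.C 0 0x147832238488) (Pf.B 6 5 (Pf.C 0 0x185841e24280) (Pf.B 6 3 (Pf.C 0 0xc7851c2c308) (Pf.W 26 9 [] [0,3,5,6,8,11,14,15,17]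 (Pf.cons (Pf.B 18 17 (Pf.B 18 14 (Pf.B 18 11 (Pf.B 18 8 (Pf.B 18 5 (Pf.B 18 15 (Pf.B 18 6 (Pf.B 18 3 (Pf.C 0 0x480031614308) (Pf.C 2 402)) (Pf.C 0 0x9061e24288)) (Pf.C 0 0x487852238488)) (Pf.C 2 658)) (Pf.C 2 1042)) (Pf.C 2 1426)) (Pf.C 2 1810)) (Pf.C 2 2194)) Pf.nil))))))) (Pf.B 12 5 (Pf.B 12 2 (Pf.C 0 0x1028f1a0010c) (Pf.B 12 3 (Pf.C 0 0x446020a0c788) (Pf.B 9 5 (Pf.C 0 0x3c2841824880) (Pf.B 9 3 (Pf.C 0 0xc6111c14488) (Pf.B 6 5 (Pf.C 0 0x3c2841818880) (Pf.B 6 3 (Pf.C 0 0xc6111614308) (Pf.W 26 9 [] [0,3,5,6,8,11,14,15,17] (Pf.cons (Pf.B 18 17 (Pf.B 18 14 (Pf.B 18 11 (Pf.B 18 8 (Pf.B 18 5 (Pf.B 18 15 (Pf.B 18 6 (Pf.B 18 3 (Pf.C 0 0x480031614308) (Pf.C 2 402)) (Pf.C 0 0x9061e24288)) (Pf.C 0 0x487852238488))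 (Pf.C 2 658)) (Pf.C 2 1042)) (Pf.C 2 1426)) (Pf.C 2 1810)) (Pf.C 2 2194)) Pf.nil)))))))) (Pf.B 12 3 (Pf.C 0 0x3028f1a00188) (Pf.B 9 5 (Pf.C 0 0x247041e30280) (Pf.B 9 3 (Pf.C 0 0xc7852238488) (Pf.B 6 5 (Pf.C 0 0x146111c2c300) (Pf.B 6 3 (Pf.C 0 0xc6051c2c308) (Pf.W 26 9 [] [0,3,5,6,8,11,12,14,15,17] (Pf.cons (Pf.B 18 17 (Pf.B 18 14 (Pf.B 18 11 (Pf.B 18 8 (Pf.B 18 5 (Pf.B 18 15 (Pf.B 18 12 (Pf.B 18 6 (Pf.B 18 3 (Pf.C 0 0x480031614308) (Pf.C 2 402)) (Pf.C 0 0x9061824288)) (Pf.C 0 0x90c1e24288)) (Pf.C 0 0x487852238488)) (Pf.C 2 658)) (Pf.C 2 1042)) (Pf.C 2 1426)) (Pf.C 2 1810)) (Pf.C 2 2194)) Pf.nil)))))))))) (Pf.B 13 3 (Pf.C 0 0x3428f2000188) (Pf.B 12 5 (Pf.C 0 0x308841e34280) (Pf.B 12 3 (Pf.C 0 0x3028d2000188)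 (Pf.B 9 5 (Pf.C 0 0x247041a30280) (Pf.B 9 3 (Pf.C 0 0xc6852238488) (Pf.B 6 5 (Pf.C 0 0x146111c2c300) (Pf.B 6 3 (Pf.C 0 0xc6051c2c308) (Pf.W 26 9 [] [0,3,5,6,8,11,12,13,14,15,17] (Pf.cons (Pf.B 18 17 (Pf.B 18 14 (Pf.B 18 11 (Pf.B 18 8 (Pf.B 18 5 (Pf.B 18 15 (Pf.B 18 13 (Pf.B 18 12 (Pf.B 18 6 (Pf.B 18 3 (Pf.C 0 0x480031614308) (Pf.C 2 402)) (Pf.C 0 0x9061824288)) (Pf.C 0 0x90c1a24288)) (Pf.C 0 0x90d1e24288)) (Pf.C 0 0x487852238488)) (Pf.C 2 658)) (Pf.C 2 1042)) (Pf.C 2 1426)) (Pf.C 2 1810)) (Pf.C 2 2194)) Pf.nil)))))))))))))))) (Pf.B 16 3 (Pf.B 16 2 (Pf.C 0 0x80031620210) (Pf.B 15 5 (Pf.B 15 2 (Pf.C 0 0x8805162020f) (Pf.B 15 3 (Pf.B 13 5 (Pf.B 13 3 (Pf.B 12 5 (Pf.B 12 3 (Pf.B 10 5 (Pf.B 10 3 (Pf.B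 9 5 (Pf.C 0 0x402841824880) (Pf.B 9 3 (Pf.C 0 0x184202428a) (Pf.W 26 9 [] [0,3,4,5,8,12,14,16,17] (Pf.cons (Pf.B 18 17 (Pf.B 18 14 (Pf.B 18 8 (Pf.B 18 5 (Pf.B 18 16 (Pf.B 18 12 (Pf.B 18 3 (Pf.C 0 0x48003101420c) (Pf.C 2 402)) (Pf.C 0 0x90c1210890)) (Pf.C 0 0x488052238488)) (Pf.C 2 658)) (Pf.C 2 1042)) (Pf.C 2 1810)) (Pf.C 2 2194)) Pf.nil)))) (Pf.C 0 0x40284002818c)) (Pf.C 0 0x308842028280)) (Pf.C 0 0x40284003018d)) (Pf.B 9 5 (Pf.C 0 0x247042030280) (Pf.B 9 3 (Pf.C 0 0x184202428d) (Pf.W 26 9 [] [0,3,4,5,8,11,14,16,17] (Pf.cons (Pf.B 18 17 (Pf.B 18 14 (Pf.B 18 11 (Pf.B 18 8 (Pf.B 18 5 (Pf.B 18 16 (Pf.B 18 3 (Pf.C 0 0x480031620210) (Pf.C 2 402)) (Pf.C 0 0x488052238488)) (Pf.C 2 658)) (Pf.C 2 1042))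 (Pf.C 2 1426)) (Pf.C 2 1810)) (Pf.C 2 2194)) Pf.nil))))) (Pf.C 0 0x40284003418f)) (Pf.B 13 3 (Pf.C 0 0x184203428f) (Pf.B 12 5 (Pf.C 0 0x308842034280) (Pf.B 9 5 (Pf.C 0 0x247041a30280) (Pf.B 9 3 (Pf.C 0 0xc6852238488) (Pf.W 26 9 [] [0,3,4,5,8,11,14,16,17] (Pf.cons (Pf.B 18 17 (Pf.B 18 14 (Pf.B 18 11 (Pf.B 18 8 (Pf.B 18 5 (Pf.B 18 16 (Pf.B 18 3 (Pf.C 0 0x480031620210) (Pf.C 2 402)) (Pf.C 0 0x488052238488)) (Pf.C 2 658)) (Pf.C 2 1042)) (Pf.C 2 1426)) (Pf.C 2 1810)) (Pf.C 2 2194)) Pf.nil))))))) (Pf.B 12 3 (Pf.C 0 0x308841e00190) (Pf.B 12 5 (Pf.B 13 5 (Pf.B 13 2 (Pf.C 0 0x102901e0010d) (Pf.B 12 2 (Pf.C 0 0x102901a0010c) (Pf.C 0 0x14802220c608))) (Pf.C 0 0x308842034280)) (Pf.C 0 0x4028c1e00188))))) (Pf.B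 12 5 (Pf.C 0 0x30884203c280) (Pf.B 9 5 (Pf.C 0 0x247041e30280) (Pf.B 9 2 (Pf.C 0 0x88052238488) (Pf.B 9 3 (Pf.C 0 0xc0021c14488) (Pf.W 26 9 [] [0,3,4,5,8,11,14,16,17] (Pf.cons (Pf.B 18 17 (Pf.B 18 14 (Pf.B 18 11 (Pf.B 18 8 (Pf.B 18 5 (Pf.B 18 16 (Pf.B 18 3 (Pf.C 0 0x480031620210) (Pf.C 2 402)) (Pf.C 0 0x488052238488)) (Pf.C 2 658)) (Pf.C 2 1042)) (Pf.C 2 1426)) (Pf.C 2 1810)) (Pf.C 2 2194)) Pf.nil)))))))) (Pf.B 16 2 (Pf.B 16 1 (Pf.C 0 0x148030404008) (Pf.C 0 0x48031620202)) (Pf.B 15 5 (Pf.B 15 2 (Pf.C 0 0x8805162020f) (Pf.B 15 3 (Pf.B 12 3 (Pf.C 0 0x30884200018f) (Pf.B 9 3 (Pf.C 0 0x24704180018f) (Pf.B 9 5 (Pf.C 0 0x148032238488) (Pf.B 6 5 (Pf.C 0 0x185842024280) (Pf.B 6 3 (Pf.C 0 0xc8051c2c308)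 (Pf.W 26 9 [] [0,3,5,6,8,11,14,16,17] (Pf.cons (Pf.B 18 17 (Pf.B 18 14 (Pf.B 18 11 (Pf.B 18 8 (Pf.B 18 5 (Pf.B 18 16 (Pf.B 18 6 (Pf.B 18 3 (Pf.C 0 0x480031614308) (Pf.C 2 402)) (Pf.C 0 0x9062024288)) (Pf.C 0 0x488052238488)) (Pf.C 2 658)) (Pf.C 2 1042)) (Pf.C 2 1426)) (Pf.C 2 1810)) (Pf.C 2 2194)) Pf.nil))))))) (Pf.B 13 5 (Pf.B 13 2 (Pf.C 0 0x102901e0010d) (Pf.B 13 3 (Pf.B 12 3 (Pf.C 0 0x308841e0018d) (Pf.B 9 3 (Pf.C 0 0x24704180018d) (Pf.B 9 5 (Pf.C 0 0x148032238488) (Pf.B 6 5 (Pf.C 0 0x185842024280) (Pf.B 6 3 (Pf.C 0 0xc8051c2c308) (Pf.W 26 9 [] [0,3,5,6,8,11,14,16,17] (Pf.cons (Pf.B 18 17 (Pf.B 18 14 (Pf.B 18 11 (Pf.B 18 8 (Pf.B 18 5 (Pf.B 18 16 (Pf.B 18 6 (Pf.B 18 3 (Pf.C 0 0x480031614308) (Pf.C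 2 402)) (Pf.C 0 0x9062024288)) (Pf.C 0 0x488052238488)) (Pf.C 2 658)) (Pf.C 2 1042)) (Pf.C 2 1426)) (Pf.C 2 1810)) (Pf.C 2 2194)) Pf.nil))))))) (Pf.B 12 5 (Pf.B 12 2 (Pf.C 0 0x102901a0010c) (Pf.B 12 3 (Pf.C 0 0x446020a0c808) (Pf.B 9 5 (Pf.C 0 0x402841824880) (Pf.B 9 3 (Pf.C 0 0xc6111c14488) (Pf.B 6 5 (Pf.C 0 0x402841818880) (Pf.B 6 3 (Pf.C 0 0xc6111614308) (Pf.W 26 9 [] [0,3,5,6,8,11,14,16,17] (Pf.cons (Pf.B 18 17 (Pf.B 18 14 (Pf.B 18 11 (Pf.B 18 8 (Pf.B 18 5 (Pf.B 18 16 (Pf.B 18 6 (Pf.B 18 3 (Pf.C 0 0x480031614308) (Pf.C 2 402)) (Pf.C 0 0x9062024288)) (Pf.C 0 0x488052238488)) (Pf.C 2 658)) (Pf.C 2 1042)) (Pf.C 2 1426)) (Pf.C 2 1810)) (Pf.C 2 2194)) Pf.nil)))))))) (Pf.B 12 3 (Pf.C 0 0x302901a00188)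 (Pf.B 9 5 (Pf.C 0 0x247042030280) (Pf.B 9 3 (Pf.C 0 0xc8052238488) (Pf.B 6 5 (Pf.C 0 0x146111c2c300) (Pf.B 6 3 (Pf.C 0 0xc6051c2c308) (Pf.W 26 9 [] [0,3,5,6,8,11,12,14,16,17] (Pf.cons (Pf.B 18 17 (Pf.B 18 14 (Pf.B 18 11 (Pf.B 18 8 (Pf.B 18 5 (Pf.B 18 16 (Pf.B 18 12 (Pf.B 18 6 (Pf.B 18 3 (Pf.C 0 0x480031614308) (Pf.C 2 402)) (Pf.C 0 0x9061824288)) (Pf.C 0 0x90c2024288)) (Pf.C 0 0x488052238488)) (Pf.C 2 658)) (Pf.C 2 1042)) (Pf.C 2 1426)) (Pf.C 2 1810)) (Pf.C 2 2194)) Pf.nil)))))))))) (Pf.B 13 3 (Pf.C 0 0x342901e00188) (Pf.B 12 5 (Pf.C 0 0x308842034280) (Pf.B 12 3 (Pf.C 0 0x3028d1e00188) (Pf.B 9 5 (Pf.C 0 0x247041a30280) (Pf.B 9 3 (Pf.C 0 0xc6852238488) (Pf.B 6 5 (Pf.C 0 0x146111c2c300) (Pf.B 6 3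 (Pf.C 0 0xc6051c2c308) (Pf.W 26 9 [] [0,3,5,6,8,11,12,13,14,16,17] (Pf.cons (Pf.B 18 17 (Pf.B 18 14 (Pf.B 18 11 (Pf.B 18 8 (Pf.B 18 5 (Pf.B 18 16 (Pf.B 18 13 (Pf.B 18 12 (Pf.B 18 6 (Pf.B 18 3 (Pf.C 0 0x480031614308) (Pf.C 2 402)) (Pf.C 0 0x9061824288)) (Pf.C 0 0x90c1a24288)) (Pf.C 0 0x90d2024288)) (Pf.C 0 0x488052238488)) (Pf.C 2 658)) (Pf.C 2 1042)) (Pf.C 2 1426)) (Pf.C 2 1810)) (Pf.C 2 2194)) Pf.nil)))))))))))) (Pf.B 12 5 (Pf.C 0 0x30884203c280) (Pf.B 9 5 (Pf.C 0 0x247041e30280) (Pf.B 9 3 (Pf.C 0 0xc8052238488) (Pf.B 12 3 (Pf.C 0 0x308892000188) (Pf.B 6 5 (Pf.C 0 0x146111c2c300) (Pf.B 6 3 (Pf.C 0 0xc6051c2c308) (Pf.W 26 9 [] [0,3,5,6,8,11,12,14,15,16,17] (Pf.cons (Pf.B 18 17 (Pf.B 18 14 (Pf.B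 18 11 (Pf.B 18 8 (Pf.B 18 5 (Pf.B 18 16 (Pf.B 18 15 (Pf.B 18 12 (Pf.B 18 6 (Pf.B 18 3 (Pf.C 0 0x480031614308) (Pf.C 2 402)) (Pf.C 0 0x9061824288)) (Pf.C 0 0x90c1e24288)) (Pf.C 0 0x90f2024288)) (Pf.C 0 0x488052238488)) (Pf.C 2 658)) (Pf.C 2 1042)) (Pf.C 2 1426)) (Pf.C 2 1810)) (Pf.C 2 2194)) Pf.nil)))))))))))) (Pf.C 2 136)) (Pf.C 2 264)) (Pf.C 2 392)) (Pf.C 2 648)) (Pf.C 2 139)) (Pf.C 2 267)) (Pf.C 2 395)) (Pf.C 2 651)) (Pf.C 2 142)) (Pf.C 2 270)) (Pf.C 2 398)) (Pf.C 2 654)) (Pf.C 2 145)) (Pf.C 2 273)) (Pf.C 2 401)) (Pf.C 2 657)))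
 Pq.nil)
theorem bD_o24 : AllRef bD_T bD_G29 (List.take 1 (List.drop 3 (List.drop 4 (hitObl [39,52] bD_h46)))) :=
  chkPq_sound bD_o24c _ (by decide +kernel)
noncomputable def bD_o25c : Pq := (Pq.cons (Pq.L [0,1,2,3,4,5] 0x3ffffffffffffffff (Pf.B 17 5 (Pf.B 17 3 (Pf.B 17 2 (Pf.B 17 1 (Pf.B 14 5 (Pf.B 14 3 (Pf.B 14 2 (Pf.B 14 1 (Pf.B 11 5 (Pf.B 11 3 (Pf.B 11 2 (Pf.B 11 1 (Pf.B 8 5 (Pf.B 8 3 (Pf.B 8 2 (Pf.B 8 1 (Pf.B 16 5 (Pf.B 16 3 (Pf.B 16 2 (Pf.C 0 0x80031014210) (Pf.B 16 1 (Pf.C 0 0x40031014210) (Pf.B 15 5 (Pf.B 15 3 (Pf.B 15 2 (Pf.C 0 0x8003101420f) (Pf.B 15 1 (Pf.C 0 0x4003101420f) (Pf.B 13 5 (Pf.B 13 3 (Pf.B 13 2 (Pf.C 0 0x10180203c10d) (Pf.B 13 1 (Pf.C 0 0x10180203c08d) (Pf.B 12 3 (Pf.C 0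 0x1841a3088f) (Pf.B 12 2 (Pf.C 0 0x301801e34108) (Pf.B 12 1 (Pf.C 0 0x4782220c608) (Pf.B 10 3 (Pf.C 0 0x1841a2888f) (Pf.B 9 3 (Pf.C 0 0x1841a2488f) (Pf.B 7 3 (Pf.C 0 0xc6111c2c388) (Pf.B 7 2 (Pf.C 0 0x8691160c388) (Pf.B 7 1 (Pf.C 0 0x4682160c388) (Pf.B 6 3 (Pf.C 0 0xc6111c2c308) (Pf.B 6 2 (Pf.C 0 0x8691160c308) (Pf.B 6 1 (Pf.C 0 0x4682160c308) (Pf.B 12 5 (Pf.B 10 5 (Pf.B 9 5 (Pf.W 26 9 [] [0,3,5,14,17] (Pf.cons (Pf.B 18 17 (Pf.B 18 14 (Pf.B 18 5 (Pf.B 18 3 (Pf.C 0 0x480032238485) (Pf.C 2 402)) (Pf.C 2 658)) (Pf.C 2 1810)) (Pf.C 2 2194)) Pf.nil)) (Pf.W 26 9 [] [0,3,4,5,8,10,12,13,14,17] (Pf.cons (Pf.B 18 17 (Pf.B 18 14 (Pf.B 18 8 (Pf.B 18 5 (Pf.B 18 13 (Pf.B 18 12 (Pf.B 18 10 (Pf.B 18 3 (Pf.C 0 0x480032238505)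 (Pf.C 2 402)) (Pf.C 0 0x90a121070c)) (Pf.C 0 0x90c1a24888)) (Pf.C 0 0x486911c14488)) (Pf.C 2 658)) (Pf.C 2 1042)) (Pf.C 2 1810)) (Pf.C 2 2194)) Pf.nil))) (Pf.B 9 5 (Pf.W 26 9 [] [0,3,5,14,17] (Pf.cons (Pf.B 18 17 (Pf.B 18 14 (Pf.B 18 5 (Pf.B 18 3 (Pf.C 0 0x480032238485) (Pf.C 2 402)) (Pf.C 2 658)) (Pf.C 2 1810)) (Pf.C 2 2194)) Pf.nil)) (Pf.B 7 5 (Pf.C 0 0x1c5841424280) (Pf.B 6 5 (Pf.C 0 0x185841424280) (Pf.W 26 9 [] [0,3,4,5,6,7,8,10,11,12,13,14,17] (Pf.cons (Pf.B 18 17 (Pf.B 18 14 (Pf.B 18 11 (Pf.B 18 8 (Pf.B 18 5 (Pf.B 18 13 (Pf.B 18 12 (Pf.B 18 10 (Pf.B 18 7 (Pf.B 18 6 (Pf.B 18 3 (Pf.C 0 0x480031614308) (Pf.C 2 402)) (Pf.C 0 0x906121c288)) (Pf.C 0 0x9071424288)) (Pf.C 0 0x90a121028c)) (Pf.C 0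 0x90c1a24888)) (Pf.C 0 0x486911c14488)) (Pf.C 2 658)) (Pf.C 2 1042)) (Pf.C 2 1426)) (Pf.C 2 1810)) (Pf.C 2 2194)) Pf.nil)))))) (Pf.B 7 5 (Pf.C 0 0x146011c2c388) (Pf.B 6 5 (Pf.C 0 0x146011c2c308) (Pf.B 10 5 (Pf.B 9 5 (Pf.C 0 0x302841424700) (Pf.W 26 9 [] [0,3,4,5,8,10,12,13,14,17] (Pf.cons (Pf.B 18 17 (Pf.B 18 14 (Pf.B 18 8 (Pf.B 18 5 (Pf.B 18 13 (Pf.B 18 12 (Pf.B 18 10 (Pf.B 18 3 (Pf.C 0 0x480032238505) (Pf.C 2 402)) (Pf.C 0 0x146111c48508)) (Pf.C 0 0x90c121028d)) (Pf.C 0 0x486911c14488)) (Pf.C 2 658)) (Pf.C 2 1042)) (Pf.C 2 1810)) (Pf.C 2 2194)) Pf.nil))) (Pf.B 9 5 (Pf.W 26 9 [] [0,3,5,14,17] (Pf.cons (Pf.B 18 17 (Pf.B 18 14 (Pf.B 18 5 (Pf.B 18 3 (Pf.C 0 0x480032238485) (Pf.C 2 402)) (Pf.C 2 658))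 (Pf.C 2 1810)) (Pf.C 2 2194)) Pf.nil)) (Pf.W 26 9 [] [0,3,4,5,6,7,8,10,11,12,13,14,17] (Pf.cons (Pf.B 18 17 (Pf.B 18 14 (Pf.B 18 11 (Pf.B 18 8 (Pf.B 18 5 (Pf.B 18 13 (Pf.B 18 12 (Pf.B 18 10 (Pf.B 18 7 (Pf.B 18 6 (Pf.B 18 3 (Pf.C 0 0x480031614308) (Pf.C 2 402)) (Pf.C 0 0x906121c288)) (Pf.C 0 0x9071424288)) (Pf.C 0 0x90a1824288)) (Pf.C 0 0x90c121028d)) (Pf.C 0 0x486911c14488)) (Pf.C 2 658)) (Pf.C 2 1042)) (Pf.C 2 1426)) (Pf.C 2 1810)) (Pf.C 2 2194)) Pf.nil)))))))))))))))))))) (Pf.B 13 2 (Pf.C 0 0x34180203c105) (Pf.B 12 2 (Pf.C 0 0x3088d1e00108) (Pf.B 12 1 (Pf.C 0 0x86111620201) (Pf.B 10 3 (Pf.C 0 0x287041a0018f) (Pf.B 9 3 (Pf.C 0 0x247041a0018f) (Pf.B 7 3 (Pf.C 0 0xc6911c2c388) (Pf.B 7 2 (Pf.C 0 0x80031c2c388)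 (Pf.B 7 1 (Pf.C 0 0x4782160c388) (Pf.B 6 3 (Pf.C 0 0xc6911c2c308) (Pf.B 6 2 (Pf.C 0 0x80031c2c308) (Pf.B 6 1 (Pf.C 0 0x4782160c308) (Pf.B 12 5 (Pf.B 10 5 (Pf.B 9 5 (Pf.W 26 9 [] [0,3,5,14,17] (Pf.cons (Pf.B 18 17 (Pf.B 18 14 (Pf.B 18 5 (Pf.B 18 3 (Pf.C 0 0x480032238485) (Pf.C 2 402)) (Pf.C 2 658)) (Pf.C 2 1810)) (Pf.C 2 2194)) Pf.nil)) (Pf.W 26 9 [] [0,3,4,5,8,10,12,13,14,17] (Pf.cons (Pf.B 18 17 (Pf.B 18 14 (Pf.B 18 8 (Pf.B 18 5 (Pf.B 18 13 (Pf.B 18 12 (Pf.B 18 10 (Pf.B 18 3 (Pf.C 0 0x480032238505) (Pf.C 2 402)) (Pf.C 0 0x90a121070c)) (Pf.C 0 0x90c1a24888)) (Pf.C 0 0x486911c14488)) (Pf.C 2 658)) (Pf.C 2 1042)) (Pf.C 2 1810)) (Pf.C 2 2194)) Pf.nil))) (Pf.B 9 5 (Pf.W 26 9 [] [0,3,5,14,17] (Pf.cons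 (Pf.B 18 17 (Pf.B 18 14 (Pf.B 18 5 (Pf.B 18 3 (Pf.C 0 0x480032238485) (Pf.C 2 402)) (Pf.C 2 658)) (Pf.C 2 1810)) (Pf.C 2 2194)) Pf.nil)) (Pf.B 7 5 (Pf.C 0 0x1c5841424280) (Pf.B 6 5 (Pf.C 0 0x185841424280) (Pf.W 26 9 [] [0,3,4,5,6,7,8,10,11,12,13,14,17] (Pf.cons (Pf.B 18 17 (Pf.B 18 14 (Pf.B 18 11 (Pf.B 18 8 (Pf.B 18 5 (Pf.B 18 13 (Pf.B 18 12 (Pf.B 18 10 (Pf.B 18 7 (Pf.B 18 6 (Pf.B 18 3 (Pf.C 0 0x480031614308) (Pf.C 2 402)) (Pf.C 0 0x906121c288)) (Pf.C 0 0x9071424288)) (Pf.C 0 0x90a121028c)) (Pf.C 0 0x90c1a24888)) (Pf.C 0 0x486911c14488)) (Pf.C 2 658)) (Pf.C 2 1042)) (Pf.C 2 1426)) (Pf.C 2 1810)) (Pf.C 2 2194)) Pf.nil)))))) (Pf.B 7 5 (Pf.C 0 0x146011c2c388) (Pf.B 6 5 (Pf.C 0 0x146011c2c308) (Pf.B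 10 5 (Pf.B 9 5 (Pf.C 0 0x302841424700) (Pf.W 26 9 [] [0,3,4,5,8,10,12,13,14,17] (Pf.cons (Pf.B 18 17 (Pf.B 18 14 (Pf.B 18 8 (Pf.B 18 5 (Pf.B 18 13 (Pf.B 18 12 (Pf.B 18 10 (Pf.B 18 3 (Pf.C 0 0x480032238505) (Pf.C 2 402)) (Pf.C 0 0x146111c48508)) (Pf.C 0 0x90c121028d)) (Pf.C 0 0x486911c14488)) (Pf.C 2 658)) (Pf.C 2 1042)) (Pf.C 2 1810)) (Pf.C 2 2194)) Pf.nil))) (Pf.B 9 5 (Pf.W 26 9 [] [0,3,5,14,17] (Pf.cons (Pf.B 18 17 (Pf.B 18 14 (Pf.B 18 5 (Pf.B 18 3 (Pf.C 0 0x480032238485) (Pf.C 2 402)) (Pf.C 2 658)) (Pf.C 2 1810)) (Pf.C 2 2194)) Pf.nil)) (Pf.W 26 9 [] [0,3,4,5,6,7,8,10,11,12,13,14,17] (Pf.cons (Pf.B 18 17 (Pf.B 18 14 (Pf.B 18 11 (Pf.B 18 8 (Pf.B 18 5 (Pf.B 18 13 (Pf.B 18 12 (Pf.B 18 10 (Pf.B 18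 7 (Pf.B 18 6 (Pf.B 18 3 (Pf.C 0 0x480031614308) (Pf.C 2 402)) (Pf.C 0 0x906121c288)) (Pf.C 0 0x9071424288)) (Pf.C 0 0x90a1824288)) (Pf.C 0 0x90c121028d)) (Pf.C 0 0x486911c14488)) (Pf.C 2 658)) (Pf.C 2 1042)) (Pf.C 2 1426)) (Pf.C 2 1810)) (Pf.C 2 2194)) Pf.nil))))))))))))))))))) (Pf.B 7 5 (Pf.C 0 0x146911c2c380) (Pf.B 6 5 (Pf.C 0 0x146911c2c300) (Pf.B 13 3 (Pf.B 13 2 (Pf.C 0 0x10180203c10d) (Pf.C 0 0xc0022214688)) (Pf.B 10 3 (Pf.C 0 0x287041a0018f) (Pf.B 9 3 (Pf.C 0 0x247041a0018f) (Pf.B 6 3 (Pf.C 0 0xc6851c2c308) (Pf.B 12 5 (Pf.B 10 5 (Pf.B 9 5 (Pf.C 0 0x342841424700) (Pf.W 26 9 [] [0,3,4,5,8,10,12,13,14,17] (Pf.cons (Pf.B 18 17 (Pf.B 18 14 (Pf.B 18 8 (Pf.B 18 5 (Pf.B 18 12 (Pf.B 18 13 (Pf.B 18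 10 (Pf.B 18 3 (Pf.C 0 0x480032238505) (Pf.C 2 402)) (Pf.C 0 0x146911c48508)) (Pf.C 0 0x90d121028c)) (Pf.C 0 0x486111c14488)) (Pf.C 2 658)) (Pf.C 2 1042)) (Pf.C 2 1810)) (Pf.C 2 2194)) Pf.nil))) (Pf.B 9 5 (Pf.W 26 9 [] [0,3,5,14,17] (Pf.cons (Pf.B 18 17 (Pf.B 18 14 (Pf.B 18 5 (Pf.B 18 3 (Pf.C 0 0x480032238485) (Pf.C 2 402)) (Pf.C 2 658)) (Pf.C 2 1810)) (Pf.C 2 2194)) Pf.nil)) (Pf.W 26 9 [] [0,3,4,5,6,7,8,10,11,12,13,14,17] (Pf.cons (Pf.B 18 17 (Pf.B 18 14 (Pf.B 18 11 (Pf.B 18 8 (Pf.B 18 5 (Pf.B 18 12 (Pf.B 18 13 (Pf.B 18 10 (Pf.B 18 7 (Pf.B 18 6 (Pf.B 18 3 (Pf.C 0 0x480031614308) (Pf.C 2 402)) (Pf.C 0 0x906121c288)) (Pf.C 0 0x9071424288)) (Pf.C 0 0x90a1a24288)) (Pf.C 0 0x90d121028c)) (Pf.C 0 0x486111c14488))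 (Pf.C 2 658)) (Pf.C 2 1042)) (Pf.C 2 1426)) (Pf.C 2 1810)) (Pf.C 2 2194)) Pf.nil)))) (Pf.B 9 5 (Pf.C 0 0x247041a30280) (Pf.W 26 9 [] [0,3,5,8,14] (Pf.cons (Pf.B 18 14 (Pf.B 18 8 (Pf.B 18 5 (Pf.B 18 3 (Pf.C 0 0x480031c14488) (Pf.C 2 402)) (Pf.C 2 658)) (Pf.C 2 1042)) (Pf.C 2 1810)) Pf.nil))))))))))))) (Pf.B 12 3 (Pf.C 0 0x308841e00190) (Pf.B 10 3 (Pf.C 0 0x287041800190) (Pf.B 10 2 (Pf.C 0 0x80032238508) (Pf.B 15 2 (Pf.C 0 0x1070a200010f) (Pf.B 13 2 (Pf.C 0 0x1070a1e0010d) (Pf.B 12 2 (Pf.C 0 0x1070a1a0010c) (Pf.B 12 1 (Pf.C 0 0x4802220c608) (Pf.B 9 3 (Pf.C 0 0x247041800190) (Pf.B 7 3 (Pf.C 0 0xc6111c2c388) (Pf.B 7 2 (Pf.C 0 0x80031c2c388) (Pf.B 7 1 (Pf.C 0 0x4802160c388) (Pf.B 6 3 (Pf.C 0 0xc6111c2c308)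 (Pf.B 6 2 (Pf.C 0 0x80031c2c308) (Pf.B 6 1 (Pf.C 0 0x4802160c308) (Pf.B 13 5 (Pf.B 12 5 (Pf.B 10 5 (Pf.B 9 5 (Pf.W 26 9 [] [0,3,5,14,17] (Pf.cons (Pf.B 18 17 (Pf.B 18 14 (Pf.B 18 5 (Pf.B 18 3 (Pf.C 0 0x480032238485) (Pf.C 2 402)) (Pf.C 2 658)) (Pf.C 2 1810)) (Pf.C 2 2194)) Pf.nil)) (Pf.W 26 9 [] [0,3,4,5,8,10,12,13,14,17] (Pf.cons (Pf.B 18 17 (Pf.B 18 14 (Pf.B 18 8 (Pf.B 18 5 (Pf.B 18 13 (Pf.B 18 12 (Pf.B 18 10 (Pf.B 18 3 (Pf.C 0 0x480032238505) (Pf.C 2 402)) (Pf.C 0 0x90a121070c)) (Pf.C 0 0x90c1a24888)) (Pf.C 0 0x486911c14488)) (Pf.C 2 658)) (Pf.C 2 1042)) (Pf.C 2 1810)) (Pf.C 2 2194)) Pf.nil))) (Pf.B 9 5 (Pf.W 26 9 [] [0,3,5,14,17] (Pf.cons (Pf.B 18 17 (Pf.B 18 14 (Pf.B 18 5 (Pf.B 18 3 (Pf.C 0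 0x480032238485) (Pf.C 2 402)) (Pf.C 2 658)) (Pf.C 2 1810)) (Pf.C 2 2194)) Pf.nil)) (Pf.B 7 5 (Pf.C 0 0x1c5841424280) (Pf.B 6 5 (Pf.C 0 0x185841424280) (Pf.W 26 9 [] [0,3,4,5,6,7,8,10,11,12,13,14,17] (Pf.cons (Pf.B 18 17 (Pf.B 18 14 (Pf.B 18 11 (Pf.B 18 8 (Pf.B 18 5 (Pf.B 18 13 (Pf.B 18 12 (Pf.B 18 10 (Pf.B 18 7 (Pf.B 18 6 (Pf.B 18 3 (Pf.C 0 0x480031614308) (Pf.C 2 402)) (Pf.C 0 0x906121c288)) (Pf.C 0 0x9071424288)) (Pf.C 0 0x90a121028c)) (Pf.C 0 0x90c1a24888)) (Pf.C 0 0x486911c14488)) (Pf.C 2 658)) (Pf.C 2 1042)) (Pf.C 2 1426)) (Pf.C 2 1810)) (Pf.C 2 2194)) Pf.nil)))))) (Pf.B 7 5 (Pf.C 0 0x146011c2c388) (Pf.B 6 5 (Pf.C 0 0x146011c2c308) (Pf.B 10 5 (Pf.B 9 5 (Pf.C 0 0x302841424700) (Pf.W 26 9 []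 [0,3,4,5,8,10,12,13,14,17] (Pf.cons (Pf.B 18 17 (Pf.B 18 14 (Pf.B 18 8 (Pf.B 18 5 (Pf.B 18 13 (Pf.B 18 12 (Pf.B 18 10 (Pf.B 18 3 (Pf.C 0 0x480032238505) (Pf.C 2 402)) (Pf.C 0 0x146111c48508)) (Pf.C 0 0x90c121028d)) (Pf.C 0 0x486911c14488)) (Pf.C 2 658)) (Pf.C 2 1042)) (Pf.C 2 1810)) (Pf.C 2 2194)) Pf.nil))) (Pf.B 9 5 (Pf.W 26 9 [] [0,3,5,14,17] (Pf.cons (Pf.B 18 17 (Pf.B 18 14 (Pf.B 18 5 (Pf.B 18 3 (Pf.C 0 0x480032238485) (Pf.C 2 402)) (Pf.C 2 658)) (Pf.C 2 1810)) (Pf.C 2 2194)) Pf.nil)) (Pf.W 26 9 [] [0,3,4,5,6,7,8,10,11,12,13,14,17] (Pf.cons (Pf.B 18 17 (Pf.B 18 14 (Pf.B 18 11 (Pf.B 18 8 (Pf.B 18 5 (Pf.B 18 13 (Pf.B 18 12 (Pf.B 18 10 (Pf.B 18 7 (Pf.B 18 6 (Pf.B 18 3 (Pf.C 0 0x480031614308) (Pf.C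 2 402)) (Pf.C 0 0x906121c288)) (Pf.C 0 0x9071424288)) (Pf.C 0 0x90a1824288)) (Pf.C 0 0x90c121028d)) (Pf.C 0 0x486911c14488)) (Pf.C 2 658)) (Pf.C 2 1042)) (Pf.C 2 1426)) (Pf.C 2 1810)) (Pf.C 2 2194)) Pf.nil))))))) (Pf.B 7 5 (Pf.C 0 0x146911c2c380) (Pf.B 6 5 (Pf.C 0 0x146911c2c300) (Pf.B 12 5 (Pf.B 10 5 (Pf.B 9 5 (Pf.C 0 0x342841424700) (Pf.W 26 9 [] [0,3,4,5,8,10,12,13,14,17] (Pf.cons (Pf.B 18 17 (Pf.B 18 14 (Pf.B 18 8 (Pf.B 18 5 (Pf.B 18 12 (Pf.B 18 13 (Pf.B 18 10 (Pf.B 18 3 (Pf.C 0 0x480032238505) (Pf.C 2 402)) (Pf.C 0 0x146911c48508)) (Pf.C 0 0x90d121028c)) (Pf.C 0 0x486111c14488)) (Pf.C 2 658)) (Pf.C 2 1042)) (Pf.C 2 1810)) (Pf.C 2 2194)) Pf.nil))) (Pf.B 9 5 (Pf.W 26 9 [] [0,3,5,14,17] (Pf.cons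 (Pf.B 18 17 (Pf.B 18 14 (Pf.B 18 5 (Pf.B 18 3 (Pf.C 0 0x480032238485) (Pf.C 2 402)) (Pf.C 2 658)) (Pf.C 2 1810)) (Pf.C 2 2194)) Pf.nil)) (Pf.W 26 9 [] [0,3,4,5,6,7,8,10,11,12,13,14,17] (Pf.cons (Pf.B 18 17 (Pf.B 18 14 (Pf.B 18 11 (Pf.B 18 8 (Pf.B 18 5 (Pf.B 18 12 (Pf.B 18 13 (Pf.B 18 10 (Pf.B 18 7 (Pf.B 18 6 (Pf.B 18 3 (Pf.C 0 0x480031614308) (Pf.C 2 402)) (Pf.C 0 0x906121c288)) (Pf.C 0 0x9071424288)) (Pf.C 0 0x90a1a24288)) (Pf.C 0 0x90d121028c)) (Pf.C 0 0x486111c14488)) (Pf.C 2 658)) (Pf.C 2 1042)) (Pf.C 2 1426)) (Pf.C 2 1810)) (Pf.C 2 2194)) Pf.nil)))) (Pf.B 9 5 (Pf.C 0 0x247041a30280) (Pf.W 26 9 [] [0,3,5,8,14] (Pf.cons (Pf.B 18 14 (Pf.B 18 8 (Pf.B 18 5 (Pf.B 18 3 (Pf.C 0 0x480031c14488) (Pf.C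 2 402)) (Pf.C 2 658)) (Pf.C 2 1042)) (Pf.C 2 1810)) Pf.nil)))))))))))))))))))))) (Pf.B 15 3 (Pf.B 15 2 (Pf.C 0 0x8003162020f) (Pf.B 15 1 (Pf.C 0 0x4003162020f) (Pf.B 13 5 (Pf.B 13 3 (Pf.B 9 5 (Pf.C 0 0x3c2841a24880) (Pf.B 9 3 (Pf.C 0 0x1841e2428d) (Pf.W 26 9 [] [0,3,4,5,8,13,14,15,17] (Pf.cons (Pf.B 18 17 (Pf.B 18 14 (Pf.B 18 8 (Pf.B 18 5 (Pf.B 18 15 (Pf.B 18 13 (Pf.B 18 3 (Pf.C 0 0x48003101420d) (Pf.C 2 402)) (Pf.C 0 0x90d121088f)) (Pf.C 0 0x487852238488)) (Pf.C 2 658)) (Pf.C 2 1042)) (Pf.C 2 1810)) (Pf.C 2 2194)) Pf.nil)))) (Pf.C 0 0x3c2840034190)) (Pf.B 13 3 (Pf.C 0 0x1841e34290) (Pf.B 13 2 (Pf.C 0 0x8785220c688) (Pf.B 12 2 (Pf.C 0 0x3088d1e00108) (Pf.B 12 1 (Pf.C 0 0x86111620201) (Pf.B 10 5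 (Pf.C 0 0x287041e34280) (Pf.B 10 3 (Pf.C 0 0x1841e28290) (Pf.B 9 5 (Pf.C 0 0x247041e34280) (Pf.B 9 3 (Pf.C 0 0x18a1e24288) (Pf.B 7 5 (Pf.C 0 0x146911c2c380) (Pf.B 6 5 (Pf.C 0 0x146911c2c300) (Pf.B 6 3 (Pf.C 0 0xc6851c2c308) (Pf.B 12 5 (Pf.B 12 3 (Pf.W 26 9 [] [0,3,4,5,8,12,14,15,17] (Pf.cons (Pf.B 18 17 (Pf.B 18 14 (Pf.B 18 8 (Pf.B 18 5 (Pf.B 18 15 (Pf.B 18 12 (Pf.B 18 3 (Pf.C 0 0x48003101420c) (Pf.C 2 402)) (Pf.C 0 0x90c121088f)) (Pf.C 0 0x487852238488)) (Pf.C 2 658)) (Pf.C 2 1042)) (Pf.C 2 1810)) (Pf.C 2 2194)) Pf.nil)) (Pf.C 0 0x14781220c608)) (Pf.W 26 9 [] [0,3,5,6,7,8,10,11,12,13,14,15,17] (Pf.cons (Pf.B 18 17 (Pf.B 18 14 (Pf.B 18 11 (Pf.B 18 8 (Pf.B 18 5 (Pf.B 18 15 (Pf.B 18 13 (Pf.B 18 12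 (Pf.B 18 10 (Pf.B 18 7 (Pf.B 18 6 (Pf.B 18 3 (Pf.C 0 0x480031614308) (Pf.C 2 402)) (Pf.C 0 0x906121c288)) (Pf.C 0 0x9071424288)) (Pf.C 0 0x90a1824288)) (Pf.C 0 0x90c1a24288)) (Pf.C 0 0x90d1e24288)) (Pf.C 0 0x487852238488)) (Pf.C 2 658)) (Pf.C 2 1042)) (Pf.C 2 1426)) (Pf.C 2 1810)) (Pf.C 2 2194)) Pf.nil))))))))))))))))) (Pf.B 12 3 (Pf.C 0 0x308841e00190) (Pf.B 10 3 (Pf.C 0 0x287041800190) (Pf.B 10 5 (Pf.C 0 0x147832238508) (Pf.B 9 3 (Pf.C 0 0x247041800190) (Pf.B 9 5 (Pf.C 0 0x147832238488) (Pf.B 7 5 (Pf.C 0 0x1c5841424280) (Pf.B 6 5 (Pf.C 0 0x185841424280) (Pf.B 6 3 (Pf.C 0 0xc7851c2c308) (Pf.B 13 5 (Pf.B 12 5 (Pf.C 0 0x3c2841a30880) (Pf.W 26 9 [] [0,3,4,5,6,7,8,10,11,12,13,14,15,17] (Pf.cons (Pf.B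 18 17 (Pf.B 18 14 (Pf.B 18 11 (Pf.B 18 8 (Pf.B 18 5 (Pf.B 18 15 (Pf.B 18 13 (Pf.B 18 12 (Pf.B 18 10 (Pf.B 18 7 (Pf.B 18 6 (Pf.B 18 3 (Pf.C 0 0x480031614308) (Pf.C 2 402)) (Pf.C 0 0x906121c288)) (Pf.C 0 0x9071424288)) (Pf.C 0 0x90a1824288)) (Pf.C 0 0x90c121028d)) (Pf.C 0 0x90d121088f)) (Pf.C 0 0x487852238488)) (Pf.C 2 658)) (Pf.C 2 1042)) (Pf.C 2 1426)) (Pf.C 2 1810)) (Pf.C 2 2194)) Pf.nil))) (Pf.W 26 9 [] [0,3,5,6,7,8,10,11,13,14,15,17] (Pf.cons (Pf.B 18 17 (Pf.B 18 14 (Pf.B 18 11 (Pf.B 18 8 (Pf.B 18 5 (Pf.B 18 15 (Pf.B 18 13 (Pf.B 18 10 (Pf.B 18 7 (Pf.B 18 6 (Pf.B 18 3 (Pf.C 0 0x480031614308) (Pf.C 2 402)) (Pf.C 0 0x906121c288)) (Pf.C 0 0x9071424288)) (Pf.C 0 0x90a1a24288)) (Pf.C 0 0x90d1e24288))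 (Pf.C 0 0x487852238488)) (Pf.C 2 658)) (Pf.C 2 1042)) (Pf.C 2 1426)) (Pf.C 2 1810)) (Pf.C 2 2194)) Pf.nil))))))))))))))) (Pf.B 16 2 (Pf.B 13 2 (Pf.B 13 3 (Pf.C 0 0x8003162020d) (Pf.B 13 5 (Pf.B 13 1 (Pf.C 0 0x446830404005) (Pf.C 0 0x46831014202)) (Pf.C 0 0x80032214688))) (Pf.C 0 0x86911620210)) (Pf.B 16 1 (Pf.C 0 0x88031014201) (Pf.B 15 5 (Pf.B 15 3 (Pf.B 15 2 (Pf.C 0 0x8003101420f) (Pf.B 15 1 (Pf.C 0 0x4003101420f) (Pf.B 12 3 (Pf.C 0 0x30884200018f) (Pf.B 10 3 (Pf.C 0 0x28704180018f) (Pf.B 10 2 (Pf.C 0 0x80032238508) (Pf.B 13 2 (Pf.C 0 0x1070a1e0010d) (Pf.B 12 2 (Pf.C 0 0x1070a1a0010c) (Pf.B 12 1 (Pf.C 0 0x4782220c608) (Pf.B 9 3 (Pf.C 0 0x24704180018f) (Pf.B 7 3 (Pf.C 0 0xc6111c2c388) (Pf.B 7 2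 (Pf.C 0 0x80031c2c388) (Pf.B 7 1 (Pf.C 0 0x4782160c388) (Pf.B 6 3 (Pf.C 0 0xc6111c2c308) (Pf.B 6 2 (Pf.C 0 0x80031c2c308) (Pf.B 6 1 (Pf.C 0 0x4782160c308) (Pf.B 13 5 (Pf.B 12 5 (Pf.B 10 5 (Pf.B 9 5 (Pf.W 26 9 [] [0,3,5,14,17] (Pf.cons (Pf.B 18 17 (Pf.B 18 14 (Pf.B 18 5 (Pf.B 18 3 (Pf.C 0 0x480032238485) (Pf.C 2 402)) (Pf.C 2 658)) (Pf.C 2 1810)) (Pf.C 2 2194)) Pf.nil)) (Pf.W 26 9 [] [0,3,4,5,8,10,12,13,14,17] (Pf.cons (Pf.B 18 17 (Pf.B 18 14 (Pf.B 18 8 (Pf.B 18 5 (Pf.B 18 13 (Pf.B 18 12 (Pf.B 18 10 (Pf.B 18 3 (Pf.C 0 0x480032238505) (Pf.C 2 402)) (Pf.C 0 0x90a121070c)) (Pf.C 0 0x90c1a24888)) (Pf.C 0 0x486911c14488)) (Pf.C 2 658)) (Pf.C 2 1042)) (Pf.C 2 1810)) (Pf.C 2 2194)) Pf.nil))) (Pf.B 9 5 (Pf.W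 26 9 [] [0,3,5,14,17] (Pf.cons (Pf.B 18 17 (Pf.B 18 14 (Pf.B 18 5 (Pf.B 18 3 (Pf.C 0 0x480032238485) (Pf.C 2 402)) (Pf.C 2 658)) (Pf.C 2 1810)) (Pf.C 2 2194)) Pf.nil)) (Pf.B 7 5 (Pf.C 0 0x1c5841424280) (Pf.B 6 5 (Pf.C 0 0x185841424280) (Pf.W 26 9 [] [0,3,4,5,6,7,8,10,11,12,13,14,17] (Pf.cons (Pf.B 18 17 (Pf.B 18 14 (Pf.B 18 11 (Pf.B 18 8 (Pf.B 18 5 (Pf.B 18 13 (Pf.B 18 12 (Pf.B 18 10 (Pf.B 18 7 (Pf.B 18 6 (Pf.B 18 3 (Pf.C 0 0x480031614308) (Pf.C 2 402)) (Pf.C 0 0x906121c288)) (Pf.C 0 0x9071424288)) (Pf.C 0 0x90a121028c)) (Pf.C 0 0x90c1a24888)) (Pf.C 0 0x486911c14488)) (Pf.C 2 658)) (Pf.C 2 1042)) (Pf.C 2 1426)) (Pf.C 2 1810)) (Pf.C 2 2194)) Pf.nil)))))) (Pf.B 7 5 (Pf.C 0 0x146011c2c388) (Pf.B 6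 5 (Pf.C 0 0x146011c2c308) (Pf.B 10 5 (Pf.B 9 5 (Pf.C 0 0x302841424700) (Pf.W 26 9 [] [0,3,4,5,8,10,12,13,14,17] (Pf.cons (Pf.B 18 17 (Pf.B 18 14 (Pf.B 18 8 (Pf.B 18 5 (Pf.B 18 13 (Pf.B 18 12 (Pf.B 18 10 (Pf.B 18 3 (Pf.C 0 0x480032238505) (Pf.C 2 402)) (Pf.C 0 0x146111c48508)) (Pf.C 0 0x90c121028d)) (Pf.C 0 0x486911c14488)) (Pf.C 2 658)) (Pf.C 2 1042)) (Pf.C 2 1810)) (Pf.C 2 2194)) Pf.nil))) (Pf.B 9 5 (Pf.W 26 9 [] [0,3,5,14,17] (Pf.cons (Pf.B 18 17 (Pf.B 18 14 (Pf.B 18 5 (Pf.B 18 3 (Pf.C 0 0x480032238485) (Pf.C 2 402)) (Pf.C 2 658)) (Pf.C 2 1810)) (Pf.C 2 2194)) Pf.nil)) (Pf.W 26 9 [] [0,3,4,5,6,7,8,10,11,12,13,14,17] (Pf.cons (Pf.B 18 17 (Pf.B 18 14 (Pf.B 18 11 (Pf.B 18 8 (Pf.B 18 5 (Pf.B 18 13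 (Pf.B 18 12 (Pf.B 18 10 (Pf.B 18 7 (Pf.B 18 6 (Pf.B 18 3 (Pf.C 0 0x480031614308) (Pf.C 2 402)) (Pf.C 0 0x906121c288)) (Pf.C 0 0x9071424288)) (Pf.C 0 0x90a1824288)) (Pf.C 0 0x90c121028d)) (Pf.C 0 0x486911c14488)) (Pf.C 2 658)) (Pf.C 2 1042)) (Pf.C 2 1426)) (Pf.C 2 1810)) (Pf.C 2 2194)) Pf.nil))))))) (Pf.B 7 5 (Pf.C 0 0x146911c2c380) (Pf.B 6 5 (Pf.C 0 0x146911c2c300) (Pf.B 12 5 (Pf.B 10 5 (Pf.B 9 5 (Pf.C 0 0x342841424700) (Pf.W 26 9 [] [0,3,4,5,8,10,12,13,14,17] (Pf.cons (Pf.B 18 17 (Pf.B 18 14 (Pf.B 18 8 (Pf.B 18 5 (Pf.B 18 12 (Pf.B 18 13 (Pf.B 18 10 (Pf.B 18 3 (Pf.C 0 0x480032238505) (Pf.C 2 402)) (Pf.C 0 0x146911c48508)) (Pf.C 0 0x90d121028c)) (Pf.C 0 0x486111c14488)) (Pf.C 2 658)) (Pf.C 2 1042))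 (Pf.C 2 1810)) (Pf.C 2 2194)) Pf.nil))) (Pf.B 9 5 (Pf.W 26 9 [] [0,3,5,14,17] (Pf.cons (Pf.B 18 17 (Pf.B 18 14 (Pf.B 18 5 (Pf.B 18 3 (Pf.C 0 0x480032238485) (Pf.C 2 402)) (Pf.C 2 658)) (Pf.C 2 1810)) (Pf.C 2 2194)) Pf.nil)) (Pf.W 26 9 [] [0,3,4,5,6,7,8,10,11,12,13,14,17] (Pf.cons (Pf.B 18 17 (Pf.B 18 14 (Pf.B 18 11 (Pf.B 18 8 (Pf.B 18 5 (Pf.B 18 12 (Pf.B 18 13 (Pf.B 18 10 (Pf.B 18 7 (Pf.B 18 6 (Pf.B 18 3 (Pf.C 0 0x480031614308) (Pf.C 2 402)) (Pf.C 0 0x906121c288)) (Pf.C 0 0x9071424288)) (Pf.C 0 0x90a1a24288)) (Pf.C 0 0x90d121028c)) (Pf.C 0 0x486111c14488)) (Pf.C 2 658)) (Pf.C 2 1042)) (Pf.C 2 1426)) (Pf.C 2 1810)) (Pf.C 2 2194)) Pf.nil)))) (Pf.B 9 5 (Pf.C 0 0x247041a30280) (Pf.W 26 9 [] [0,3,5,8,14]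 (Pf.cons (Pf.B 18 14 (Pf.B 18 8 (Pf.B 18 5 (Pf.B 18 3 (Pf.C 0 0x480031c14488) (Pf.C 2 402)) (Pf.C 2 658)) (Pf.C 2 1042)) (Pf.C 2 1810)) Pf.nil)))))))))))))))))))))) (Pf.B 15 2 (Pf.B 15 1 (Pf.B 13 2 (Pf.B 13 3 (Pf.C 0 0x8003162020d) (Pf.B 13 5 (Pf.B 13 1 (Pf.C 0 0x446830404005) (Pf.C 0 0x1088d200008f)) (Pf.C 0 0x80032214688))) (Pf.C 0 0x1088d200010f)) (Pf.C 0 0x47831014202)) (Pf.B 13 5 (Pf.B 13 3 (Pf.B 12 3 (Pf.B 10 3 (Pf.C 0 0x287041e0018c) (Pf.C 0 0x3088a1e00188)) (Pf.C 0 0x3488c1e00188)) (Pf.B 12 3 (Pf.C 0 0x3088d1e00188) (Pf.B 10 3 (Pf.C 0 0x2888c1e00188) (Pf.B 10 2 (Pf.C 0 0x80032238508) (Pf.B 13 2 (Pf.C 0 0x1070a1e0010d) (Pf.B 12 2 (Pf.C 0 0x1070a1a0010c) (Pf.B 12 1 (Pf.C 0 0x86031620201) (Pf.B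 9 3 (Pf.C 0 0x2470a1800188) (Pf.B 7 3 (Pf.C 0 0xc6111c2c388) (Pf.B 7 2 (Pf.C 0 0x80031c2c388) (Pf.B 7 1 (Pf.C 0 0x40021c2c388) (Pf.B 6 3 (Pf.C 0 0xc6111c2c308) (Pf.B 6 2 (Pf.C 0 0x80031c2c308) (Pf.B 6 1 (Pf.C 0 0x40021c2c308) (Pf.B 12 5 (Pf.B 10 5 (Pf.B 9 5 (Pf.W 26 9 [] [0,3,5,14,17] (Pf.cons (Pf.B 18 17 (Pf.B 18 14 (Pf.B 18 5 (Pf.B 18 3 (Pf.C 0 0x480032238485) (Pf.C 2 402)) (Pf.C 2 658)) (Pf.C 2 1810)) (Pf.C 2 2194)) Pf.nil)) (Pf.W 26 9 [] [0,3,4,5,8,10,12,13,14,17] (Pf.cons (Pf.B 18 17 (Pf.B 18 14 (Pf.B 18 8 (Pf.B 18 5 (Pf.B 18 13 (Pf.B 18 12 (Pf.B 18 10 (Pf.B 18 3 (Pf.C 0 0x480032238505) (Pf.C 2 402)) (Pf.C 0 0x90a121070c)) (Pf.C 0 0x90c1a24888)) (Pf.C 0 0x486911c14488)) (Pf.C 2 658)) (Pf.C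 2 1042)) (Pf.C 2 1810)) (Pf.C 2 2194)) Pf.nil))) (Pf.B 9 5 (Pf.W 26 9 [] [0,3,5,14,17] (Pf.cons (Pf.B 18 17 (Pf.B 18 14 (Pf.B 18 5 (Pf.B 18 3 (Pf.C 0 0x480032238485) (Pf.C 2 402)) (Pf.C 2 658)) (Pf.C 2 1810)) (Pf.C 2 2194)) Pf.nil)) (Pf.B 7 5 (Pf.C 0 0x1c5841424280) (Pf.B 6 5 (Pf.C 0 0x185841424280) (Pf.W 26 9 [] [0,3,4,5,6,7,8,10,11,12,13,14,17] (Pf.cons (Pf.B 18 17 (Pf.B 18 14 (Pf.B 18 11 (Pf.B 18 8 (Pf.B 18 5 (Pf.B 18 13 (Pf.B 18 12 (Pf.B 18 10 (Pf.B 18 7 (Pf.B 18 6 (Pf.B 18 3 (Pf.C 0 0x480031614308) (Pf.C 2 402)) (Pf.C 0 0x906121c288)) (Pf.C 0 0x9071424288)) (Pf.C 0 0x90a121028c)) (Pf.C 0 0x90c1a24888)) (Pf.C 0 0x486911c14488)) (Pf.C 2 658)) (Pf.C 2 1042)) (Pf.C 2 1426)) (Pf.C 2 1810)) (Pf.C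 2 2194)) Pf.nil)))))) (Pf.B 7 5 (Pf.C 0 0x146011c2c388) (Pf.B 6 5 (Pf.C 0 0x146011c2c308) (Pf.B 10 5 (Pf.B 9 5 (Pf.C 0 0x302841424700) (Pf.W 26 9 [] [0,3,4,5,8,10,12,13,14,17] (Pf.cons (Pf.B 18 17 (Pf.B 18 14 (Pf.B 18 8 (Pf.B 18 5 (Pf.B 18 13 (Pf.B 18 12 (Pf.B 18 10 (Pf.B 18 3 (Pf.C 0 0x480032238505) (Pf.C 2 402)) (Pf.C 0 0x146111c48508)) (Pf.C 0 0x90c121028d)) (Pf.C 0 0x486911c14488)) (Pf.C 2 658)) (Pf.C 2 1042)) (Pf.C 2 1810)) (Pf.C 2 2194)) Pf.nil))) (Pf.B 9 5 (Pf.W 26 9 [] [0,3,5,14,17] (Pf.cons (Pf.B 18 17 (Pf.B 18 14 (Pf.B 18 5 (Pf.B 18 3 (Pf.C 0 0x480032238485) (Pf.C 2 402)) (Pf.C 2 658)) (Pf.C 2 1810)) (Pf.C 2 2194)) Pf.nil)) (Pf.W 26 9 [] [0,3,4,5,6,7,8,10,11,12,13,14,17] (Pf.cons (Pf.B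 18 17 (Pf.B 18 14 (Pf.B 18 11 (Pf.B 18 8 (Pf.B 18 5 (Pf.B 18 13 (Pf.B 18 12 (Pf.B 18 10 (Pf.B 18 7 (Pf.B 18 6 (Pf.B 18 3 (Pf.C 0 0x480031614308) (Pf.C 2 402)) (Pf.C 0 0x906121c288)) (Pf.C 0 0x9071424288)) (Pf.C 0 0x90a1824288)) (Pf.C 0 0x90c121028d)) (Pf.C 0 0x486911c14488)) (Pf.C 2 658)) (Pf.C 2 1042)) (Pf.C 2 1426)) (Pf.C 2 1810)) (Pf.C 2 2194)) Pf.nil))))))))))))))))))))) (Pf.B 7 5 (Pf.C 0 0x146911c2c380) (Pf.B 6 5 (Pf.C 0 0x146911c2c300) (Pf.B 13 3 (Pf.B 13 2 (Pf.C 0 0x8003162020d) (Pf.C 0 0xc0022214688)) (Pf.B 12 3 (Pf.C 0 0x3088d1e00188) (Pf.B 10 3 (Pf.C 0 0x2888c1e00188) (Pf.B 9 3 (Pf.C 0 0x2470a1800188) (Pf.B 6 3 (Pf.C 0 0xc6851c2c308) (Pf.B 12 5 (Pf.B 10 5 (Pf.B 9 5 (Pf.C 0 0x342841424700)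 (Pf.W 26 9 [] [0,3,4,5,8,10,12,13,14,17] (Pf.cons (Pf.B 18 17 (Pf.B 18 14 (Pf.B 18 8 (Pf.B 18 5 (Pf.B 18 12 (Pf.B 18 13 (Pf.B 18 10 (Pf.B 18 3 (Pf.C 0 0x480032238505) (Pf.C 2 402)) (Pf.C 0 0x146911c48508)) (Pf.C 0 0x90d121028c)) (Pf.C 0 0x486111c14488)) (Pf.C 2 658)) (Pf.C 2 1042)) (Pf.C 2 1810)) (Pf.C 2 2194)) Pf.nil))) (Pf.B 9 5 (Pf.W 26 9 [] [0,3,5,14,17] (Pf.cons (Pf.B 18 17 (Pf.B 18 14 (Pf.B 18 5 (Pf.B 18 3 (Pf.C 0 0x480032238485) (Pf.C 2 402)) (Pf.C 2 658)) (Pf.C 2 1810)) (Pf.C 2 2194)) Pf.nil)) (Pf.W 26 9 [] [0,3,4,5,6,7,8,10,11,12,13,14,17] (Pf.cons (Pf.B 18 17 (Pf.B 18 14 (Pf.B 18 11 (Pf.B 18 8 (Pf.B 18 5 (Pf.B 18 12 (Pf.B 18 13 (Pf.B 18 10 (Pf.B 18 7 (Pf.B 18 6 (Pf.B 18 3 (Pf.C 0 0x480031614308)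 (Pf.C 2 402)) (Pf.C 0 0x906121c288)) (Pf.C 0 0x9071424288)) (Pf.C 0 0x90a1a24288)) (Pf.C 0 0x90d121028c)) (Pf.C 0 0x486111c14488)) (Pf.C 2 658)) (Pf.C 2 1042)) (Pf.C 2 1426)) (Pf.C 2 1810)) (Pf.C 2 2194)) Pf.nil)))) (Pf.B 9 5 (Pf.C 0 0x247041a30280) (Pf.W 26 9 [] [0,3,5,8,14] (Pf.cons (Pf.B 18 14 (Pf.B 18 8 (Pf.B 18 5 (Pf.B 18 3 (Pf.C 0 0x480031c14488) (Pf.C 2 402)) (Pf.C 2 658)) (Pf.C 2 1042)) (Pf.C 2 1810)) Pf.nil)))))))))))))) (Pf.B 15 3 (Pf.B 15 2 (Pf.C 0 0x8003162020f) (Pf.B 13 3 (Pf.C 0 0x34884200018f) (Pf.B 13 5 (Pf.B 13 2 (Pf.C 0 0x1028f200010d) (Pf.C 0 0x14782220c688)) (Pf.C 0 0x3c28d2000188)))) (Pf.B 15 2 (Pf.B 15 1 (Pf.C 0 0x147830404008) (Pf.C 0 0x47831620202)) (Pf.B 13 5 (Pf.B 13 2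 (Pf.C 0 0x1028f200010d) (Pf.B 13 3 (Pf.C 0 0x446820a0c788) (Pf.B 12 5 (Pf.C 0 0x3c2841a30880) (Pf.B 10 5 (Pf.C 0 0x3c2841a28880) (Pf.B 9 5 (Pf.C 0 0x3c2841a24880) (Pf.B 9 3 (Pf.C 0 0xc6911c14488) (Pf.B 7 5 (Pf.C 0 0x146111c2c380) (Pf.B 6 5 (Pf.C 0 0x146111c2c300) (Pf.B 6 3 (Pf.C 0 0xc6911614308) (Pf.W 26 9 [] [0,3,4,5,6,7,8,10,11,12,13,14,15,17] (Pf.cons (Pf.B 18 17 (Pf.B 18 14 (Pf.B 18 11 (Pf.B 18 8 (Pf.B 18 5 (Pf.B 18 15 (Pf.B 18 13 (Pf.B 18 12 (Pf.B 18 10 (Pf.B 18 7 (Pf.B 18 6 (Pf.B 18 3 (Pf.C 0 0x480031614308) (Pf.C 2 402)) (Pf.C 0 0x906121c288)) (Pf.C 0 0x9071424288)) (Pf.C 0 0x90a1824288)) (Pf.C 0 0x90c121028d)) (Pf.C 0 0x90d121088f)) (Pf.C 0 0x487852238488)) (Pf.C 2 658)) (Pf.C 2 1042)) (Pf.C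 2 1426)) (Pf.C 2 1810)) (Pf.C 2 2194)) Pf.nil))))))))))) (Pf.B 13 3 (Pf.C 0 0x3428f2000188) (Pf.B 10 5 (Pf.C 0 0x287041e34280) (Pf.B 9 5 (Pf.C 0 0x247041e34280) (Pf.B 9 3 (Pf.C 0 0xc7852238488) (Pf.B 7 5 (Pf.C 0 0x146911c2c380) (Pf.B 6 5 (Pf.C 0 0x146911c2c300) (Pf.B 6 3 (Pf.C 0 0xc6851c2c308) (Pf.W 26 9 [] [0,3,5,6,7,8,10,11,13,14,15,17] (Pf.cons (Pf.B 18 17 (Pf.B 18 14 (Pf.B 18 11 (Pf.B 18 8 (Pf.B 18 5 (Pf.B 18 15 (Pf.B 18 13 (Pf.B 18 10 (Pf.B 18 7 (Pf.B 18 6 (Pf.B 18 3 (Pf.C 0 0x480031614308) (Pf.C 2 402)) (Pf.C 0 0x906121c288)) (Pf.C 0 0x9071424288)) (Pf.C 0 0x90a1a24288)) (Pf.C 0 0x90d1e24288)) (Pf.C 0 0x487852238488)) (Pf.C 2 658)) (Pf.C 2 1042)) (Pf.C 2 1426)) (Pf.C 2 1810)) (Pf.C 2 2194))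 Pf.nil)))))))))))))))) (Pf.B 16 3 (Pf.B 16 2 (Pf.C 0 0x80031620210) (Pf.B 16 1 (Pf.C 0 0x40031620210) (Pf.B 15 5 (Pf.B 15 2 (Pf.C 0 0x8805162020f) (Pf.B 15 3 (Pf.B 13 5 (Pf.B 13 3 (Pf.B 9 5 (Pf.C 0 0x402841a24880) (Pf.B 9 3 (Pf.C 0 0x184202428d) (Pf.W 26 9 [] [0,3,4,5,8,13,14,16,17] (Pf.cons (Pf.B 18 17 (Pf.B 18 14 (Pf.B 18 8 (Pf.B 18 5 (Pf.B 18 16 (Pf.B 18 13 (Pf.B 18 3 (Pf.C 0 0x48003101420d) (Pf.C 2 402)) (Pf.C 0 0x90d1210890)) (Pf.C 0 0x488052238488)) (Pf.C 2 658)) (Pf.C 2 1042)) (Pf.C 2 1810)) (Pf.C 2 2194)) Pf.nil)))) (Pf.C 0 0x40284003418f)) (Pf.B 13 3 (Pf.C 0 0x184203428f) (Pf.B 13 2 (Pf.C 0 0x8805220c688) (Pf.B 12 2 (Pf.C 0 0x3088d1e00108) (Pf.B 12 1 (Pf.C 0 0x86111620201) (Pf.B 10 5 (Pf.C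 0 0x287042034280) (Pf.B 10 3 (Pf.C 0 0x184202828f) (Pf.B 9 5 (Pf.C 0 0x247042034280) (Pf.B 9 3 (Pf.C 0 0x18a2024288) (Pf.B 7 5 (Pf.C 0 0x146911c2c380) (Pf.B 6 5 (Pf.C 0 0x146911c2c300) (Pf.B 6 3 (Pf.C 0 0xc6851c2c308) (Pf.B 12 5 (Pf.B 12 3 (Pf.W 26 9 [] [0,3,4,5,8,12,14,16,17] (Pf.cons (Pf.B 18 17 (Pf.B 18 14 (Pf.B 18 8 (Pf.B 18 5 (Pf.B 18 16 (Pf.B 18 12 (Pf.B 18 3 (Pf.C 0 0x48003101420c) (Pf.C 2 402)) (Pf.C 0 0x90c1210890)) (Pf.C 0 0x488052238488)) (Pf.C 2 658)) (Pf.C 2 1042)) (Pf.C 2 1810)) (Pf.C 2 2194)) Pf.nil)) (Pf.C 0 0x14801220c608)) (Pf.W 26 9 [] [0,3,5,6,7,8,10,11,12,13,14,16,17] (Pf.cons (Pf.B 18 17 (Pf.B 18 14 (Pf.B 18 11 (Pf.B 18 8 (Pf.B 18 5 (Pf.B 18 16 (Pf.B 18 13 (Pf.B 18 12 (Pf.B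 18 10 (Pf.B 18 7 (Pf.B 18 6 (Pf.B 18 3 (Pf.C 0 0x480031614308) (Pf.C 2 402)) (Pf.C 0 0x906121c288)) (Pf.C 0 0x9071424288)) (Pf.C 0 0x90a1824288)) (Pf.C 0 0x90c1a24288)) (Pf.C 0 0x90d2024288)) (Pf.C 0 0x488052238488)) (Pf.C 2 658)) (Pf.C 2 1042)) (Pf.C 2 1426)) (Pf.C 2 1810)) (Pf.C 2 2194)) Pf.nil))))))))))))))) (Pf.B 13 3 (Pf.C 0 0x348841e00190) (Pf.B 13 5 (Pf.B 13 2 (Pf.C 0 0x102901e0010d) (Pf.C 0 0x14802220c688)) (Pf.C 0 0x4028d1e00188))))) (Pf.B 13 5 (Pf.C 0 0x34884203c280) (Pf.B 12 5 (Pf.C 0 0x30884203c280) (Pf.B 10 5 (Pf.C 0 0x287041a30280) (Pf.B 10 2 (Pf.C 0 0x88052238508) (Pf.B 15 2 (Pf.C 0 0x1070a200010f) (Pf.B 13 2 (Pf.C 0 0x1070a1e0010d) (Pf.B 13 3 (Pf.C 0 0xc0022214688) (Pf.B 15 3 (Pf.C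 0 0x18d203c288) (Pf.B 12 3 (Pf.C 0 0x18d2030288) (Pf.B 9 5 (Pf.C 0 0x247041a30280) (Pf.B 9 3 (Pf.C 0 0xc7852238488) (Pf.B 7 5 (Pf.C 0 0x146111c2c380) (Pf.B 6 5 (Pf.C 0 0x146111c2c300) (Pf.B 6 3 (Pf.C 0 0xc6051c2c308) (Pf.W 26 9 [] [0,3,5,6,7,8,10,11,12,13,14,15,16,17] (Pf.cons (Pf.B 18 17 (Pf.B 18 14 (Pf.B 18 11 (Pf.B 18 8 (Pf.B 18 5 (Pf.B 18 16 (Pf.B 18 15 (Pf.B 18 13 (Pf.B 18 12 (Pf.B 18 10 (Pf.B 18 7 (Pf.B 18 6 (Pf.B 18 3 (Pf.C 0 0x480031614308) (Pf.C 2 402)) (Pf.C 0 0x906121c288)) (Pf.C 0 0x9071424288)) (Pf.C 0 0x90a1824288)) (Pf.C 0 0x90c1a24288)) (Pf.C 0 0x90d1e24288)) (Pf.C 0 0x90f2024288)) (Pf.C 0 0x488052238488)) (Pf.C 2 658)) (Pf.C 2 1042)) (Pf.C 2 1426)) (Pf.C 2 1810)) (Pf.C 2 2194))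 Pf.nil))))))))))))))))))) (Pf.B 16 2 (Pf.B 16 1 (Pf.C 0 0x148030404008) (Pf.C 0 0x48031620202)) (Pf.B 15 5 (Pf.B 15 2 (Pf.C 0 0x8805162020f) (Pf.B 15 3 (Pf.B 12 3 (Pf.C 0 0x30884200018f) (Pf.B 10 3 (Pf.C 0 0x28704180018f) (Pf.B 10 5 (Pf.C 0 0x148032238508) (Pf.B 9 3 (Pf.C 0 0x24704180018f) (Pf.B 9 5 (Pf.C 0 0x148032238488) (Pf.B 7 5 (Pf.C 0 0x1c5841424280) (Pf.B 6 5 (Pf.C 0 0x185841424280) (Pf.B 6 3 (Pf.C 0 0xc8051c2c308) (Pf.B 13 5 (Pf.B 12 5 (Pf.C 0 0x402841a30880) (Pf.W 26 9 [] [0,3,4,5,6,7,8,10,11,12,13,14,16,17] (Pf.cons (Pf.B 18 17 (Pf.B 18 14 (Pf.B 18 11 (Pf.B 18 8 (Pf.B 18 5 (Pf.B 18 16 (Pf.B 18 13 (Pf.B 18 12 (Pf.B 18 10 (Pf.B 18 7 (Pf.B 18 6 (Pf.B 18 3 (Pf.C 0 0x480031614308) (Pf.C 2 402))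 (Pf.C 0 0x906121c288)) (Pf.C 0 0x9071424288)) (Pf.C 0 0x90a1824288)) (Pf.C 0 0x90c121028d)) (Pf.C 0 0x90d1210890)) (Pf.C 0 0x488052238488)) (Pf.C 2 658)) (Pf.C 2 1042)) (Pf.C 2 1426)) (Pf.C 2 1810)) (Pf.C 2 2194)) Pf.nil))) (Pf.W 26 9 [] [0,3,5,6,7,8,10,11,13,14,16,17] (Pf.cons (Pf.B 18 17 (Pf.B 18 14 (Pf.B 18 11 (Pf.B 18 8 (Pf.B 18 5 (Pf.B 18 16 (Pf.B 18 13 (Pf.B 18 10 (Pf.B 18 7 (Pf.B 18 6 (Pf.B 18 3 (Pf.C 0 0x480031614308) (Pf.C 2 402)) (Pf.C 0 0x906121c288)) (Pf.C 0 0x9071424288)) (Pf.C 0 0x90a1a24288)) (Pf.C 0 0x90d2024288)) (Pf.C 0 0x488052238488)) (Pf.C 2 658)) (Pf.C 2 1042)) (Pf.C 2 1426)) (Pf.C 2 1810)) (Pf.C 2 2194)) Pf.nil))))))))))) (Pf.B 13 5 (Pf.B 13 2 (Pf.C 0 0x102901e0010d) (Pf.B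 13 3 (Pf.C 0 0x446820a0c808) (Pf.B 12 5 (Pf.C 0 0x402841a30880) (Pf.B 10 5 (Pf.C 0 0x402841a28880) (Pf.B 9 5 (Pf.C 0 0x402841a24880) (Pf.B 9 3 (Pf.C 0 0xc6911c14488) (Pf.B 7 5 (Pf.C 0 0x146111c2c380) (Pf.B 6 5 (Pf.C 0 0x146111c2c300) (Pf.B 6 3 (Pf.C 0 0xc6911614308) (Pf.W 26 9 [] [0,3,4,5,6,7,8,10,11,12,13,14,16,17] (Pf.cons (Pf.B 18 17 (Pf.B 18 14 (Pf.B 18 11 (Pf.B 18 8 (Pf.B 18 5 (Pf.B 18 16 (Pf.B 18 13 (Pf.B 18 12 (Pf.B 18 10 (Pf.B 18 7 (Pf.B 18 6 (Pf.B 18 3 (Pf.C 0 0x480031614308) (Pf.C 2 402)) (Pf.C 0 0x906121c288)) (Pf.C 0 0x9071424288)) (Pf.C 0 0x90a1824288)) (Pf.C 0 0x90c121028d)) (Pf.C 0 0x90d1210890)) (Pf.C 0 0x488052238488)) (Pf.C 2 658)) (Pf.C 2 1042)) (Pf.C 2 1426)) (Pf.C 2 1810)) (Pf.C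 2 2194)) Pf.nil))))))))))) (Pf.B 13 3 (Pf.C 0 0x342901e00188) (Pf.B 10 5 (Pf.C 0 0x287042034280) (Pf.B 9 5 (Pf.C 0 0x247042034280) (Pf.B 9 3 (Pf.C 0 0xc8052238488) (Pf.B 7 5 (Pf.C 0 0x146911c2c380) (Pf.B 6 5 (Pf.C 0 0x146911c2c300) (Pf.B 6 3 (Pf.C 0 0xc6851c2c308) (Pf.W 26 9 [] [0,3,5,6,7,8,10,11,13,14,16,17] (Pf.cons (Pf.B 18 17 (Pf.B 18 14 (Pf.B 18 11 (Pf.B 18 8 (Pf.B 18 5 (Pf.B 18 16 (Pf.B 18 13 (Pf.B 18 10 (Pf.B 18 7 (Pf.B 18 6 (Pf.B 18 3 (Pf.C 0 0x480031614308) (Pf.C 2 402)) (Pf.C 0 0x906121c288)) (Pf.C 0 0x9071424288)) (Pf.C 0 0x90a1a24288)) (Pf.C 0 0x90d2024288)) (Pf.C 0 0x488052238488)) (Pf.C 2 658)) (Pf.C 2 1042)) (Pf.C 2 1426)) (Pf.C 2 1810)) (Pf.C 2 2194)) Pf.nil)))))))))))) (Pf.B 13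 5 (Pf.C 0 0x34884203c280) (Pf.B 12 5 (Pf.C 0 0x30884203c280) (Pf.B 10 5 (Pf.C 0 0x287041a30280) (Pf.B 10 3 (Pf.C 0 0xc8052238508) (Pf.B 12 3 (Pf.C 0 0x3088a2000188) (Pf.B 9 5 (Pf.C 0 0x247041a30280) (Pf.B 9 3 (Pf.C 0 0xc8052238488) (Pf.B 7 5 (Pf.C 0 0x146111c2c380) (Pf.B 6 5 (Pf.C 0 0x146111c2c300) (Pf.B 6 3 (Pf.C 0 0xc6051c2c308) (Pf.W 26 9 [] [0,3,5,6,7,8,10,11,12,13,14,15,16,17] (Pf.cons (Pf.B 18 17 (Pf.B 18 14 (Pf.B 18 11 (Pf.B 18 8 (Pf.B 18 5 (Pf.B 18 16 (Pf.B 18 15 (Pf.B 18 13 (Pf.B 18 12 (Pf.B 18 10 (Pf.B 18 7 (Pf.B 18 6 (Pf.B 18 3 (Pf.C 0 0x480031614308) (Pf.C 2 402)) (Pf.C 0 0x906121c288)) (Pf.C 0 0x9071424288)) (Pf.C 0 0x90a1824288)) (Pf.C 0 0x90c1a24288)) (Pf.C 0 0x90d1e24288)) (Pf.C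 0 0x90f2024288)) (Pf.C 0 0x488052238488)) (Pf.C 2 658)) (Pf.C 2 1042)) (Pf.C 2 1426)) (Pf.C 2 1810)) (Pf.C 2 2194)) Pf.nil)))))))))))))))) (Pf.C 2 136)) (Pf.C 2 264)) (Pf.C 2 392)) (Pf.C 2 648)) (Pf.C 2 139)) (Pf.C 2 267)) (Pf.C 2 395)) (Pf.C 2 651)) (Pf.C 2 142)) (Pf.C 2 270)) (Pf.C 2 398)) (Pf.C 2 654)) (Pf.C 2 145)) (Pf.C 2 273)) (Pf.C 2 401)) (Pf.C 2 657)))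
 (Pq.cons (Pq.L [0,4] 0x286b0502 (Pf.C 0 0x344041218700))
 (Pq.cons (Pq.L [0,1,2,3,4,5] 0x3fdbffff (Pf.B 14 5 (Pf.B 14 3 (Pf.B 14 2 (Pf.B 14 1 (Pf.B 13 11 (Pf.B 13 8 (Pf.B 11 5 (Pf.B 11 3 (Pf.B 11 2 (Pf.B 10 8 (Pf.B 8 5 (Pf.B 8 3 (Pf.B 8 2 (Pf.B 8 1 (Pf.B 13 5 (Pf.B 13 3 (Pf.B 12 5 (Pf.B 9 5 (Pf.B 6 5 (Pf.W 20 6 [] [0,4,5,8,11,12,13,14] (Pf.cons (Pf.B 15 14 (Pf.B 15 11 (Pf.B 15 8 (Pf.B 15 5 (Pf.B 15 12 (Pf.B 15 13 (Pf.C 0 0x784181858d) (Pf.C 0 0x304040034786)) (Pf.C 0 0x3830b103c605)) (Pf.C 2 655)) (Pf.C 2 1039)) (Pf.C 2 1423)) (Pf.C 2 1807)) Pf.nil)) (Pf.C 0 0x2048e1614300)) (Pf.C 0 0x2c6081c14480)) (Pf.B 9 5 (Pf.C 0 0x384881614600) (Pf.B 6 5 (Pf.C 0 0x3830b1014600) (Pf.B 12 3 (Pf.B 12 2 (Pf.B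 12 1 (Pf.C 0 0x38203040400c) (Pf.C 0 0x8001101460e)) (Pf.C 0 0xc002101460e)) (Pf.B 9 3 (Pf.C 0 0x38485160c60d) (Pf.B 6 3 (Pf.C 0 0x2c305100c48d) (Pf.W 20 6 [] [0,3,5,8,11] (Pf.cons (Pf.B 15 11 (Pf.B 15 8 (Pf.B 15 5 (Pf.B 15 3 (Pf.C 0 0x3c0031614308) (Pf.C 2 399)) (Pf.C 2 655)) (Pf.C 2 1039)) (Pf.C 2 1423)) Pf.nil)))))))) (Pf.B 13 2 (Pf.B 13 1 (Pf.B 12 5 (Pf.B 12 2 (Pf.B 12 3 (Pf.C 0 0x80031c1420c) (Pf.C 0 0x80031620605)) (Pf.C 0 0x86081c1420d)) (Pf.B 12 3 (Pf.B 12 2 (Pf.B 12 1 (Pf.C 0 0x38203040400c) (Pf.C 0 0x8001101460d)) (Pf.C 0 0xc002101460e)) (Pf.B 12 2 (Pf.C 0 0x8003101460e) (Pf.B 12 1 (Pf.C 0 0x4002101460d) (Pf.C 0 0x38205040460d))))) (Pf.C 0 0x46831014202)) (Pf.B 12 5 (Pf.B 9 5 (Pf.B 6 5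 (Pf.W 20 6 [] [0,4,5,8,11,12,13,14] (Pf.cons (Pf.B 15 14 (Pf.B 15 11 (Pf.B 15 8 (Pf.B 15 5 (Pf.B 15 12 (Pf.B 15 13 (Pf.C 0 0x784181858d) (Pf.C 0 0x304040034786)) (Pf.C 0 0x3830b103c605)) (Pf.C 2 655)) (Pf.C 2 1039)) (Pf.C 2 1423)) (Pf.C 2 1807)) Pf.nil)) (Pf.C 0 0x2048e1614300)) (Pf.C 0 0x2c6081c14480)) (Pf.B 6 5 (Pf.C 0 0x3830b1014600) (Pf.B 12 3 (Pf.B 12 2 (Pf.B 12 1 (Pf.C 0 0x38203040400c) (Pf.C 0 0x8001101460e)) (Pf.C 0 0xc002101460e)) (Pf.B 12 2 (Pf.C 0 0x8003101460e) (Pf.B 10 2 (Pf.C 0 0x1040c1a0010a) (Pf.B 9 2 (Pf.C 0 0x1058c1400109) (Pf.B 7 2 (Pf.C 0 0x104091400107) (Pf.B 6 2 (Pf.C 0 0x104090e00106) (Pf.B 6 3 (Pf.C 0 0xc0021614308) (Pf.W 20 6 [] [0,3,5,8,11] (Pf.cons (Pf.B 15 11 (Pf.B 15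 8 (Pf.B 15 5 (Pf.B 15 3 (Pf.C 0 0x3c0031614308) (Pf.C 2 399)) (Pf.C 2 655)) (Pf.C 2 1039)) (Pf.C 2 1423)) Pf.nil))))))))))))) (Pf.B 13 3 (Pf.B 13 2 (Pf.C 0 0x8003162020d) (Pf.B 12 5 (Pf.B 12 2 (Pf.B 12 3 (Pf.C 0 0x86851c0c20c) (Pf.C 0 0x80031620605)) (Pf.C 0 0x14682162060e)) (Pf.B 6 5 (Pf.C 0 0x3830b1014600) (Pf.W 20 6 [] [0,4,5,8,11,12,13,14] (Pf.cons (Pf.B 15 14 (Pf.B 15 11 (Pf.B 15 8 (Pf.B 15 5 (Pf.B 15 13 (Pf.B 15 12 (Pf.C 0 0x7840c3058d) (Pf.C 0 0x18704003078d)) (Pf.C 0 0x3c6851c2c308)) (Pf.C 2 655)) (Pf.C 2 1039)) (Pf.C 2 1423)) (Pf.C 2 1807)) Pf.nil))))) (Pf.B 12 5 (Pf.B 12 3 (Pf.B 12 2 (Pf.C 0 0x80031c1420c) (Pf.C 0 0xc0021620605)) (Pf.C 0 0x14683162060e)) (Pf.B 6 5 (Pf.C 0 0x3830b1014600)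 (Pf.W 20 6 [] [0,4,5,8,11,12,13,14] (Pf.cons (Pf.B 15 14 (Pf.B 15 11 (Pf.B 15 8 (Pf.B 15 5 (Pf.B 15 13 (Pf.B 15 12 (Pf.C 0 0x7840c3058d) (Pf.C 0 0x18704003078d)) (Pf.C 0 0x3c6851c2c308)) (Pf.C 2 655)) (Pf.C 2 1039)) (Pf.C 2 1423)) (Pf.C 2 1807)) Pf.nil)))))) (Pf.C 2 136)) (Pf.C 2 264)) (Pf.C 2 392)) (Pf.C 2 648)) (Pf.C 0 0x185841228400)) (Pf.C 2 267)) (Pf.C 2 395)) (Pf.C 2 651)) (Pf.C 0 0x185841234400)) (Pf.C 0 0x247041834580)) (Pf.C 2 142)) (Pf.C 2 270)) (Pf.C 2 398)) (Pf.C 2 654)))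
 (Pq.cons (Pq.L [] 64 (Pf.C 1 1159))
 (Pq.cons (Pq.L [] 64 (Pf.C 1 1286))
 (Pq.cons (Pq.L [] 64 (Pf.C 2 1416))
 (Pq.cons (Pq.L [] 64 (Pf.C 1 1287))
 (Pq.cons (Pq.L [] 64 (Pf.C 1 1158))
 Pq.nil))))))))
theorem bD_o25 : AllRef bD_T bD_G29 (List.drop 1 (List.drop 3 (List.drop 4 (hitObl [39,52] bD_h46)))) :=
  chkPq_sound bD_o25c _ (by decide +kernel)
noncomputable def bD_o26c : Pq := (Pq.cons (Pq.L [] 1 (Pf.C 1 902))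
 (Pq.cons (Pq.L [0,1,2,3,4,5] 2 (Pf.B 6 5 (Pf.B 6 3 (Pf.B 6 2 (Pf.B 6 1 (Pf.B 8 5 (Pf.B 8 3 (Pf.W 26 8 [] [0,3,4,5,6] (Pf.cons (Pf.B 9 6 (Pf.B 9 5 (Pf.B 9 3 (Pf.C 0 0x240030c14208) (Pf.C 2 393)) (Pf.C 2 649)) (Pf.C 2 777)) Pf.nil)) (Pf.B 8 2 (Pf.W 20 8 [] [0,2,4,5,6] (Pf.cons (Pf.B 9 6 (Pf.B 9 5 (Pf.B 9 2 (Pf.C 0 0x80090c14208) (Pf.C 2 265)) (Pf.C 2 649)) (Pf.C 2 777)) Pf.nil)) (Pf.W 26 8 [] [2,3,4,5,6] (Pf.cons (Pf.B 9 6 (Pf.B 9 5 (Pf.B 9 3 (Pf.B 9 2 (Pf.C 0 0x84030c14209) (Pf.C 2 265)) (Pf.C 2 393)) (Pf.C 2 649)) (Pf.C 2 777)) Pf.nil)))) (Pf.B 8 3 (Pf.B 8 2 (Pf.B 8 1 (Pf.C 0 0x182030404008) (Pf.C 0 0x144010608006)) (Pf.W 20 8 [] [0,2,3,5,6] (Pf.cons (Pf.B 9 6 (Pf.B 9 5 (Pf.B 9 3 (Pf.B 9 2 (Pf.C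 0 0x144020624006) (Pf.C 2 265)) (Pf.C 2 393)) (Pf.C 2 649)) (Pf.C 2 777)) Pf.nil))) (Pf.B 8 2 (Pf.W 20 8 [] [0,2,3,5,6] (Pf.cons (Pf.B 9 6 (Pf.B 9 5 (Pf.B 9 3 (Pf.B 9 2 (Pf.C 0 0x144030424006) (Pf.C 2 265)) (Pf.C 2 393)) (Pf.C 2 649)) (Pf.C 2 777)) Pf.nil)) (Pf.B 8 1 (Pf.W 20 8 [] [1,2,3,4,6] (Pf.cons (Pf.B 9 6 (Pf.B 9 3 (Pf.B 9 2 (Pf.B 9 1 (Pf.C 0 0x84030c24201) (Pf.C 2 137)) (Pf.C 2 265)) (Pf.C 2 393)) (Pf.C 2 777)) Pf.nil)) (Pf.W 26 8 [] [1,2,3,4,6] (Pf.cons (Pf.B 9 6 (Pf.B 9 3 (Pf.B 9 2 (Pf.B 9 1 (Pf.C 0 0x182030404409) (Pf.C 2 137)) (Pf.C 2 265)) (Pf.C 2 393)) (Pf.C 2 777)) Pf.nil)))))) (Pf.C 2 134)) (Pf.C 2 262)) (Pf.C 2 390)) (Pf.C 2 646)))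
 (Pq.cons (Pq.L [] 1 (Pf.C 1 902))
 (Pq.cons (Pq.L [0,1,2,3,4,5] 2 (Pf.B 6 5 (Pf.B 6 3 (Pf.B 6 2 (Pf.B 6 1 (Pf.B 8 5 (Pf.B 8 3 (Pf.W 26 8 [] [0,3,4,5,6] (Pf.cons (Pf.B 9 6 (Pf.B 9 5 (Pf.B 9 3 (Pf.C 0 0x240030c14208) (Pf.C 2 393)) (Pf.C 2 649)) (Pf.C 2 777)) Pf.nil)) (Pf.B 8 2 (Pf.W 20 8 [] [0,2,4,5,6] (Pf.cons (Pf.B 9 6 (Pf.B 9 5 (Pf.B 9 2 (Pf.C 0 0x80090c14208) (Pf.C 2 265)) (Pf.C 2 649)) (Pf.C 2 777)) Pf.nil)) (Pf.W 26 8 [] [2,3,4,5,6] (Pf.cons (Pf.B 9 6 (Pf.B 9 5 (Pf.B 9 3 (Pf.B 9 2 (Pf.C 0 0x84030c14209) (Pf.C 2 265)) (Pf.C 2 393)) (Pf.C 2 649)) (Pf.C 2 777)) Pf.nil)))) (Pf.B 8 3 (Pf.B 8 2 (Pf.B 8 1 (Pf.C 0 0x182030404008) (Pf.C 0 0x144010608006)) (Pf.W 20 8 [] [0,2,3,5,6] (Pf.cons (Pf.B 9 6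 (Pf.B 9 5 (Pf.B 9 3 (Pf.B 9 2 (Pf.C 0 0x144020624006) (Pf.C 2 265)) (Pf.C 2 393)) (Pf.C 2 649)) (Pf.C 2 777)) Pf.nil))) (Pf.B 8 2 (Pf.W 20 8 [] [0,2,3,5,6] (Pf.cons (Pf.B 9 6 (Pf.B 9 5 (Pf.B 9 3 (Pf.B 9 2 (Pf.C 0 0x144030424006) (Pf.C 2 265)) (Pf.C 2 393)) (Pf.C 2 649)) (Pf.C 2 777)) Pf.nil)) (Pf.B 8 1 (Pf.W 20 8 [] [1,2,3,4,6] (Pf.cons (Pf.B 9 6 (Pf.B 9 3 (Pf.B 9 2 (Pf.B 9 1 (Pf.C 0 0x84030c24201) (Pf.C 2 137)) (Pf.C 2 265)) (Pf.C 2 393)) (Pf.C 2 777)) Pf.nil)) (Pf.W 26 8 [] [1,2,3,4,6] (Pf.cons (Pf.B 9 6 (Pf.B 9 3 (Pf.B 9 2 (Pf.B 9 1 (Pf.C 0 0x182030404409) (Pf.C 2 137)) (Pf.C 2 265)) (Pf.C 2 393)) (Pf.C 2 777)) Pf.nil)))))) (Pf.C 2 134)) (Pf.C 2 262)) (Pf.C 2 390)) (Pf.C 2 646)))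
 (Pq.cons (Pq.L [] 1 (Pf.C 1 902))
 (Pq.cons (Pq.L [] 1 (Pf.C 41 775))
 (Pq.cons (Pq.L [] 1 (Pf.C 1 902))
 (Pq.cons (Pq.L [] 2 (Pf.C 29 776))
 (Pq.cons (Pq.L [0,2,3,4,5] 3 (Pf.B 8 7 (Pf.B 8 5 (Pf.B 8 3 (Pf.B 8 2 (Pf.B 7 5 (Pf.B 7 3 (Pf.B 7 2 (Pf.B 6 5 (Pf.B 6 3 (Pf.W 28 6 [] [0,3,4,5,8] (Pf.cons (Pf.B 9 8 (Pf.B 9 5 (Pf.B 9 3 (Pf.C 0 0x200030a24206) (Pf.C 2 393)) (Pf.C 2 649)) (Pf.C 2 1033)) Pf.nil)) (Pf.W 20 6 [] [3,4,5,7,8] (Pf.cons (Pf.B 9 8 (Pf.B 9 7 (Pf.B 9 5 (Pf.B 9 3 (Pf.C 0 0x1c3030a24208) (Pf.C 2 393)) (Pf.C 2 649)) (Pf.C 2 905)) (Pf.C 2 1033)) Pf.nil))) (Pf.B 6 3 (Pf.W 20 6 [] [3,4,5,7,8] (Pf.cons (Pf.B 9 8 (Pf.B 9 7 (Pf.B 9 5 (Pf.B 9 3 (Pf.C 0 0x1c3050624208) (Pf.C 2 393)) (Pf.C 2 649))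 (Pf.C 2 905)) (Pf.C 2 1033)) Pf.nil)) (Pf.B 6 2 (Pf.W 28 6 [] [0,2,3,5,8] (Pf.cons (Pf.B 9 8 (Pf.B 9 5 (Pf.B 9 3 (Pf.B 9 2 (Pf.C 0 0x143031008009) (Pf.C 2 265)) (Pf.C 2 393)) (Pf.C 2 649)) (Pf.C 2 1033)) Pf.nil)) (Pf.W 20 6 [] [2,3,4,7,8] (Pf.cons (Pf.B 9 8 (Pf.B 9 7 (Pf.B 9 3 (Pf.B 9 2 (Pf.C 0 0x242030e08308) (Pf.C 2 265)) (Pf.C 2 393)) (Pf.C 2 905)) (Pf.C 2 1033)) Pf.nil))))) (Pf.C 2 263)) (Pf.C 2 391)) (Pf.C 2 647)) (Pf.C 2 264)) (Pf.C 2 392)) (Pf.C 2 648)) (Pf.C 2 904)))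
 (Pq.cons (Pq.L [] 1 (Pf.C 2 902))
 (Pq.cons (Pq.L [] 2 (Pf.W 40 6 [] [8] (Pf.cons (Pf.B 9 8 (Pf.C 33 0x20486) (Pf.C 2 1033)) Pf.nil)))
 (Pq.cons (Pq.L [] 1 (Pf.C 2 902))
 Pq.nil))))))))))))
theorem bD_o26 : AllRef bD_T bD_G32 (splitObl [56,57,59,49,50,43] [58,55]) :=
  chkPq_sound bD_o26c _ (by decide +kernel)
noncomputable def bD_o27c : Pq := (Pq.cons (Pq.L [] 1 (Pf.C 1 902))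
 (Pq.cons (Pq.L [] 1 (Pf.C 1 902))
 (Pq.cons (Pq.L [] 1 (Pf.C 1 902))
 (Pq.cons (Pq.L [] 2 (Pf.C 43 1030))
 (Pq.cons (Pq.L [] 1 (Pf.C 39 902))
 (Pq.cons (Pq.L [0,2,3,4,5] 3 (Pf.B 8 7 (Pf.B 8 5 (Pf.B 8 3 (Pf.B 8 2 (Pf.B 7 5 (Pf.B 7 3 (Pf.B 7 2 (Pf.B 6 5 (Pf.B 6 3 (Pf.W 28 6 [] [0,3,4,5,8] (Pf.cons (Pf.B 9 8 (Pf.B 9 5 (Pf.B 9 3 (Pf.C 0 0x200030a24206) (Pf.C 2 393)) (Pf.C 2 649)) (Pf.C 2 1033)) Pf.nil)) (Pf.W 20 6 [] [3,4,5,7,8] (Pf.cons (Pf.B 9 8 (Pf.B 9 7 (Pf.B 9 5 (Pf.B 9 3 (Pf.C 0 0x1c3030a24208) (Pf.C 2 393)) (Pf.C 2 649)) (Pf.C 2 905)) (Pf.C 2 1033)) Pf.nil))) (Pf.B 6 3 (Pf.W 20 6 [] [3,4,5,7,8] (Pf.cons (Pf.B 9 8 (Pf.B 9 7 (Pf.B 9 5 (Pf.B 9 3 (Pf.C 0 0x1c3050624208) (Pf.C 2 393)) (Pf.C 2 649))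 (Pf.C 2 905)) (Pf.C 2 1033)) Pf.nil)) (Pf.B 6 2 (Pf.W 28 6 [] [0,2,3,5,8] (Pf.cons (Pf.B 9 8 (Pf.B 9 5 (Pf.B 9 3 (Pf.B 9 2 (Pf.C 0 0x143031008009) (Pf.C 2 265)) (Pf.C 2 393)) (Pf.C 2 649)) (Pf.C 2 1033)) Pf.nil)) (Pf.W 20 6 [] [2,3,4,7,8] (Pf.cons (Pf.B 9 8 (Pf.B 9 7 (Pf.B 9 3 (Pf.B 9 2 (Pf.C 0 0x242030e08308) (Pf.C 2 265)) (Pf.C 2 393)) (Pf.C 2 905)) (Pf.C 2 1033)) Pf.nil))))) (Pf.C 2 263)) (Pf.C 2 391)) (Pf.C 2 647)) (Pf.C 2 264)) (Pf.C 2 392)) (Pf.C 2 648)) (Pf.C 2 904)))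
 (Pq.cons (Pq.L [] 2 (Pf.C 30 1030))
 (Pq.cons (Pq.L [] 1 (Pf.C 2 902))
 (Pq.cons (Pq.L [0,4,5] 3 (Pf.B 8 7 (Pf.B 8 5 (Pf.B 7 5 (Pf.W 26 6 [] [0,4,5,7,8] (Pf.cons (Pf.B 9 8 (Pf.B 9 7 (Pf.B 9 5 (Pf.W 26 6 [9] [0,4,5,7,8] (Pf.cons (Pf.B 10 9 (Pf.B 10 8 (Pf.B 10 7 (Pf.B 10 5 (Pf.B 6 5 (Pf.C 0 0x142081424006) (Pf.W 42 7 [] [0,4,5,6,8,9,10] (Pf.cons (Pf.B 11 6 (Pf.B 11 10 (Pf.B 11 9 (Pf.B 11 5 (Pf.C 0 0x14207142400b) (Pf.B 11 8 (Pf.W 38 11 [] [4,5,7,8,9] (Pf.cons (Pf.B 12 9 (Pf.B 12 8 (Pf.B 12 7 (Pf.B 12 5 (Pf.C 0 0x30585101c209) (Pf.C 2 652)) (Pf.C 2 908)) (Pf.C 2 1036)) (Pf.C 2 1164)) Pf.nil)) (Pf.W 38 11 [] [5,6,7,8,9] (Pf.cons (Pf.B 12 9 (Pf.B 12 8 (Pf.B 12 7 (Pf.B 12 6 (Pf.B 12 5 (Pf.C 0 0x1c3051030589)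 (Pf.C 2 652)) (Pf.C 39 1542)) (Pf.C 2 908)) (Pf.C 2 1036)) (Pf.C 2 1164)) Pf.nil)))) (Pf.B 11 8 (Pf.B 11 5 (Pf.C 0 0x14307142000b) (Pf.C 0 0x24585101c20a)) (Pf.B 11 5 (Pf.C 0 0x245880e1420a) (Pf.C 0 0x1c305122058a)))) (Pf.B 11 9 (Pf.B 11 8 (Pf.B 11 5 (Pf.C 0 0x14307122000b) (Pf.C 0 0x28585101c209)) (Pf.B 11 5 (Pf.C 0 0x285880e14209) (Pf.C 0 0x1c3051420589))) (Pf.B 11 8 (Pf.B 11 5 (Pf.W 26 11 [] [0,4,5,7] (Pf.cons (Pf.B 12 7 (Pf.B 12 5 (Pf.W 26 11 [12] [0,4,5,7] (Pf.cons (Pf.B 13 12 (Pf.B 13 7 (Pf.B 13 5 (Pf.C 0 0x14207183400b) (Pf.C 2 653)) (Pf.C 2 909)) (Pf.C 2 1549)) Pf.nil)) (Pf.C 2 652)) (Pf.C 2 908)) Pf.nil)) (Pf.C 0 0x1c3051424588)) (Pf.W 26 11 [] [4,7,8,9,10] (Pf.cons (Pf.B 12 10 (Pf.B 12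 9 (Pf.B 12 8 (Pf.B 12 7 (Pf.C 0 0x1c208142458c) (Pf.C 2 908)) (Pf.C 2 1036)) (Pf.C 2 1164)) (Pf.C 2 1292)) Pf.nil))))) (Pf.C 1 779)) Pf.nil))) (Pf.C 2 650)) (Pf.C 2 906)) (Pf.C 2 1034)) (Pf.C 2 1162)) Pf.nil)) (Pf.C 2 649)) (Pf.C 2 905)) (Pf.C 2 1033)) Pf.nil)) (Pf.C 2 647)) (Pf.C 2 648)) (Pf.C 2 904)))
 (Pq.cons (Pq.L [0,1,2,3,4,5] 3 (Pf.B 8 7 (Pf.B 8 5 (Pf.B 8 3 (Pf.B 8 2 (Pf.B 8 1 (Pf.B 7 5 (Pf.B 7 3 (Pf.B 7 2 (Pf.B 7 1 (Pf.W 28 6 [] [0,1,2,3,4,5,7,8] (Pf.cons (Pf.B 9 8 (Pf.B 9 7 (Pf.B 9 5 (Pf.B 9 3 (Pf.B 9 2 (Pf.W 42 7 [] [0,1,2,3,4,5,6,8,9] (Pf.cons (Pf.B 10 6 (Pf.B 10 9 (Pf.B 10 8 (Pf.W 26 10 [] [0,2,3,4,5,7,8,9] (Pf.cons (Pf.B 11 9 (Pf.B 11 7 (Pf.B 11 5 (Pf.B 11 3 (Pf.B 11 2 (Pf.B 10 5 (Pf.C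 0 0x2c007121420a) (Pf.B 10 3 (Pf.B 10 2 (Pf.C 0 0x24203160800a) (Pf.C 0 0x145020e0c009)) (Pf.C 0 0x14503101c009))) (Pf.C 2 267)) (Pf.C 2 395)) (Pf.C 2 651)) (Pf.C 2 907)) (Pf.C 2 1163)) Pf.nil)) (Pf.W 26 10 [] [0,4,5,7,8,9] (Pf.cons (Pf.B 11 9 (Pf.B 11 8 (Pf.B 11 7 (Pf.B 11 5 (Pf.B 10 5 (Pf.C 0 0x2c007121420a) (Pf.C 0 0x14508161c009)) (Pf.C 2 651)) (Pf.C 2 907)) (Pf.C 2 1035)) (Pf.C 2 1163)) Pf.nil))) (Pf.B 10 8 (Pf.W 26 10 [] [0,2,4,5,6,7,8,9] (Pf.cons (Pf.B 11 9 (Pf.B 11 8 (Pf.B 11 7 (Pf.B 11 5 (Pf.B 11 2 (Pf.B 10 2 (Pf.B 10 5 (Pf.C 0 0x14207160800a) (Pf.B 11 6 (Pf.B 6 5 (Pf.C 0 0x2c0081214206) (Pf.C 0 0x143071620009)) (Pf.B 6 5 (Pf.B 6 2 (Pf.C 0 0x80081214206) (Pf.C 0 0x20207160830a)) (Pf.C 0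 0x24505161c308)))) (Pf.C 0 0x8509101c20b)) (Pf.C 2 267)) (Pf.C 2 651)) (Pf.C 2 907)) (Pf.C 2 1035)) (Pf.C 2 1163)) Pf.nil)) (Pf.W 42 8 [] [0,1,2,3,4,5,6,7,9,10] (Pf.cons (Pf.B 11 10 (Pf.B 11 6 (Pf.B 11 9 (Pf.B 11 7 (Pf.C 0 0x284840c0038b) (Pf.W 26 10 [] [0,4,6,7,8,9,11] (Pf.cons (Pf.B 12 9 (Pf.B 12 8 (Pf.B 12 7 (Pf.B 12 11 (Pf.B 12 6 (Pf.C 0 0x28404161838c) (Pf.C 0 0x18600141040b)) (Pf.W 26 11 [] [4,7,8,9,12] (Pf.cons (Pf.B 13 12 (Pf.B 13 9 (Pf.B 13 8 (Pf.B 13 7 (Pf.C 0 0x30587122020d) (Pf.C 2 909)) (Pf.C 2 1037)) (Pf.C 2 1165)) (Pf.C 2 1549)) Pf.nil))) (Pf.C 2 908)) (Pf.C 2 1036)) (Pf.C 2 1164)) Pf.nil))) (Pf.B 11 7 (Pf.W 26 10 [] [0,1,2,3,4,5,6,7,8,9,11] (Pf.cons (Pf.B 12 9 (Pf.B 12 8 (Pf.B 12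 7 (Pf.B 12 5 (Pf.B 12 3 (Pf.B 12 2 (Pf.B 12 1 (Pf.B 10 5 (Pf.C 0 0x24508181c005) (Pf.B 12 11 (Pf.B 12 6 (Pf.C 0 0x18384162848c) (Pf.C 0 0x18600141040b)) (Pf.B 11 5 (Pf.C 0 0x2458c101c005) (Pf.B 11 2 (Pf.C 0 0x30585101c202) (Pf.B 11 1 (Pf.C 0 0x1c2051808581) (Pf.B 10 2 (Pf.C 0 0x205051808587) (Pf.B 10 3 (Pf.C 0 0x85050e0c20c) (Pf.B 10 1 (Pf.C 0 0x205021804587) (Pf.C 0 0x1c203040450c))))))))) (Pf.C 2 140)) (Pf.C 2 268)) (Pf.C 2 396)) (Pf.C 2 652)) (Pf.C 2 908)) (Pf.C 2 1036)) (Pf.C 2 1164)) Pf.nil)) (Pf.W 26 10 [] [0,4,6,7,8,9,11] (Pf.cons (Pf.B 12 9 (Pf.B 12 8 (Pf.B 12 7 (Pf.B 12 11 (Pf.B 12 6 (Pf.C 0 0x28404161838c) (Pf.C 0 0x18600141040b)) (Pf.W 26 10 [12] [4,7,8,9,11] (Pf.cons (Pf.B 13 12 (Pf.B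 13 9 (Pf.B 13 8 (Pf.B 13 7 (Pf.B 13 11 (Pf.C 0 0x20509181c58d) (Pf.W 26 11 [] [4,8,9,12,13] (Pf.cons (Pf.B 14 13 (Pf.B 14 12 (Pf.B 14 9 (Pf.B 14 8 (Pf.C 0 0x202091a3058e) (Pf.C 2 1038)) (Pf.C 2 1166)) (Pf.C 2 1550)) (Pf.C 2 1678)) Pf.nil))) (Pf.C 2 909)) (Pf.C 2 1037)) (Pf.C 2 1165)) (Pf.C 2 1549)) Pf.nil))) (Pf.C 2 908)) (Pf.C 2 1036)) (Pf.C 2 1164)) Pf.nil)))) (Pf.C 1 779)) (Pf.C 1 1291)) Pf.nil)))) (Pf.C 1 778)) Pf.nil)) (Pf.C 2 265)) (Pf.C 2 393)) (Pf.C 2 649)) (Pf.C 2 905)) (Pf.C 2 1033)) Pf.nil)) (Pf.C 2 135)) (Pf.C 2 263)) (Pf.C 2 391)) (Pf.C 2 647)) (Pf.C 2 136)) (Pf.C 2 264)) (Pf.C 2 392)) (Pf.C 2 648)) (Pf.C 2 904)))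
 (Pq.cons (Pq.L [0,4,5] 3 (Pf.B 8 7 (Pf.B 8 5 (Pf.B 7 5 (Pf.W 42 7 [] [0,4,5,6,8] (Pf.cons (Pf.B 9 6 (Pf.B 9 8 (Pf.W 26 9 [] [4,6,7,8] (Pf.cons (Pf.B 10 8 (Pf.B 10 7 (Pf.B 10 6 (Pf.W 26 9 [10] [4,6,7,8] (Pf.cons (Pf.B 11 10 (Pf.B 11 8 (Pf.B 11 7 (Pf.B 11 6 (Pf.C 27 0x28586) (Pf.W 38 9 [] [4,6,7,8,10,11] (Pf.cons (Pf.B 12 11 (Pf.B 12 10 (Pf.B 12 8 (Pf.B 12 7 (Pf.B 12 6 (Pf.C 30 1542) (Pf.C 0 0x20207163030a)) (Pf.C 2 908)) (Pf.C 2 1036)) (Pf.C 2 1292)) (Pf.C 2 1420)) Pf.nil))) (Pf.C 2 907)) (Pf.C 2 1035)) (Pf.C 2 1291)) Pf.nil)) (Pf.W 26 9 [10] [4,6,7,8] (Pf.cons (Pf.B 11 10 (Pf.B 11 8 (Pf.B 11 7 (Pf.B 11 6 (Pf.W 38 9 [] [4,6,7,8,10,11] (Pf.cons (Pf.B 12 11 (Pf.B 12 10 (Pf.B 12 8 (Pf.B 12 7 (Pf.B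 12 6 (Pf.C 30 1542) (Pf.C 0 0x20207143030b)) (Pf.C 2 908)) (Pf.C 2 1036)) (Pf.C 2 1292)) (Pf.C 2 1420)) Pf.nil)) (Pf.C 0 0x20207142c309)) (Pf.C 2 907)) (Pf.C 2 1035)) (Pf.C 2 1291)) Pf.nil))) (Pf.C 2 906)) (Pf.C 2 1034)) Pf.nil)) (Pf.W 42 8 [] [0,4,5,6,7,9] (Pf.cons (Pf.B 10 9 (Pf.B 10 6 (Pf.B 10 7 (Pf.W 26 9 [] [0,4,5,6,7,8,10] (Pf.cons (Pf.B 11 8 (Pf.B 11 7 (Pf.B 11 5 (Pf.B 11 10 (Pf.B 11 6 (Pf.W 26 9 [11] [0,4,5,6,7,8,10] (Pf.cons (Pf.B 12 11 (Pf.B 12 8 (Pf.B 12 7 (Pf.B 12 6 (Pf.C 27 0x2c606) (Pf.B 12 10 (Pf.C 0 0x18600121040a) (Pf.B 12 5 (Pf.B 10 5 (Pf.B 9 5 (Pf.C 0 0x14207182c009) (Pf.C 0 0x14488161c00a)) (Pf.C 0 0x30505101c20b)) (Pf.C 2 652)))) (Pf.C 2 908)) (Pf.C 2 1036)) (Pf.C 2 1420)) Pf.nil))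 (Pf.C 0 0x18580121040a)) (Pf.B 11 6 (Pf.C 0 0x285801210406) (Pf.W 26 9 [11] [0,4,5,6,7,8,10] (Pf.cons (Pf.B 12 11 (Pf.B 12 8 (Pf.B 12 7 (Pf.B 12 5 (Pf.B 9 5 (Pf.C 0 0x14207182c009) (Pf.B 12 10 (Pf.B 10 5 (Pf.C 0 0x14488181c00a) (Pf.C 0 0x2c505101c20c)) (Pf.B 12 6 (Pf.C 0 0x286001210406) (Pf.W 26 10 [] [0,4,6,7,8,9,11,12] (Pf.cons (Pf.B 13 12 (Pf.B 13 11 (Pf.B 13 8 (Pf.B 13 7 (Pf.B 13 6 (Pf.C 0 0x20207182c30d) (Pf.B 13 9 (Pf.C 0 0x18680082440a) (Pf.W 26 10 [13] [4,6,7,8,9,11] (Pf.cons (Pf.B 14 13 (Pf.B 14 11 (Pf.B 14 8 (Pf.B 14 7 (Pf.B 14 9 (Pf.B 14 6 (Pf.C 0 0x2048d161c30e) (Pf.C 0 0x2048d0e3830a)) (Pf.C 0 0x1c2081a3848a)) (Pf.C 2 910)) (Pf.C 2 1038)) (Pf.C 2 1422)) (Pf.C 2 1678)) Pf.nil)))) (Pf.C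 2 909)) (Pf.C 2 1037)) (Pf.C 2 1421)) (Pf.C 2 1549)) Pf.nil))))) (Pf.C 2 652)) (Pf.C 2 908)) (Pf.C 2 1036)) (Pf.C 2 1420)) Pf.nil)))) (Pf.C 2 651)) (Pf.C 2 907)) (Pf.C 2 1035)) Pf.nil)) (Pf.W 26 9 [] [0,4,6,7,8,10] (Pf.cons (Pf.B 11 8 (Pf.B 11 7 (Pf.B 11 10 (Pf.B 11 6 (Pf.C 0 0x24404141838b) (Pf.C 0 0x18580121040a)) (Pf.W 26 9 [11] [0,4,6,7,8,10] (Pf.cons (Pf.B 12 11 (Pf.B 12 8 (Pf.B 12 7 (Pf.B 12 10 (Pf.B 12 6 (Pf.C 0 0x24404141838c) (Pf.C 0 0x18600121040a)) (Pf.W 26 10 [] [4,7,8,11,12] (Pf.cons (Pf.B 13 12 (Pf.B 13 11 (Pf.B 13 8 (Pf.B 13 7 (Pf.C 0 0x20207182c50d) (Pf.C 2 909)) (Pf.C 2 1037)) (Pf.C 2 1421)) (Pf.C 2 1549)) Pf.nil))) (Pf.C 2 908)) (Pf.C 2 1036)) (Pf.C 2 1420)) Pf.nil))) (Pf.C 2 907))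 (Pf.C 2 1035)) Pf.nil))) (Pf.C 1 778)) (Pf.C 1 1162)) Pf.nil))) (Pf.C 1 777)) Pf.nil)) (Pf.C 2 647)) (Pf.C 2 648)) (Pf.C 2 904)))
 (Pq.cons (Pq.L [] 1 (Pf.C 2 902))
 Pq.nil))))))))))))
theorem bD_o27 : AllRef bD_T bD_G33 (splitObl [56,50,60] [57,59,49,61]) :=
  chkPq_sound bD_o27c _ (by decide +kernel)
noncomputable def bD_o28c : Pq := (Pq.cons (Pq.D 0 (Pq.cons (Pq.D 1 (Pq.cons (Pq.L [] 1 (Pf.C 1 902))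
 (Pq.cons (Pq.D 2 (Pq.cons (Pq.L [] 2 (Pf.C 1 1030))
 (Pq.cons (Pq.D 3 (Pq.cons (Pq.L [] 4 (Pf.C 1 1158))
 (Pq.cons (Pq.D 4 (Pq.cons (Pq.D 5 (Pq.cons (Pq.L [4] 32767 (Pf.C 0 0x2c509101c304))
 (Pq.cons (Pq.L [4] 32767 (Pf.C 0 0x2c509101c304))
 (Pq.cons (Pq.L [4] 32767 (Pf.W 26 6 [] [4,7,8,9,10,11] (Pf.cons (Pf.B 12 11 (Pf.B 12 9 (Pf.B 12 8 (Pf.B 12 7 (Pf.B 12 10 (Pf.C 0 0x2c509101c30c) (Pf.C 0 0x30509101c304)) (Pf.C 2 908)) (Pf.C 2 1036)) (Pf.C 2 1164)) (Pf.C 2 1420)) Pf.nil)))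
 Pq.nil)))) (Pq.cons (Pq.L [] 4096 (Pf.C 2 1289))
 (Pq.cons (Pq.L [] 4096 (Pf.C 2 1289))
 Pq.nil)))) (Pq.cons (Pq.D 4 (Pq.cons (Pq.D 5 (Pq.cons (Pq.L [] 16384 (Pf.C 1 1418))
 (Pq.cons (Pq.L [4] 11127 (Pf.W 20 6 [] [4,7,8,9,11] (Pf.cons (Pf.B 12 11 (Pf.B 12 9 (Pf.B 12 8 (Pf.B 12 7 (Pf.C 0 0x30209101c30b) (Pf.C 2 908)) (Pf.C 2 1036)) (Pf.C 2 1164)) (Pf.C 2 1420)) Pf.nil)))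
 (Pq.cons (Pq.L [4] 11127 (Pf.W 26 6 [] [4,7,8,9,11] (Pf.cons (Pf.B 12 11 (Pf.B 12 9 (Pf.B 12 8 (Pf.B 12 7 (Pf.C 0 0x2c209101c30c) (Pf.C 2 908)) (Pf.C 2 1036)) (Pf.C 2 1164)) (Pf.C 2 1420)) Pf.nil)))
 Pq.nil)))) (Pq.cons (Pq.L [] 4096 (Pf.C 2 1289))
 (Pq.cons (Pq.L [] 4096 (Pf.C 2 1289))
 Pq.nil)))) Pq.nil)))) (Pq.cons (Pq.D 3 (Pq.cons (Pq.L [] 4 (Pf.C 1 1158))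
 (Pq.cons (Pq.D 4 (Pq.cons (Pq.D 5 (Pq.cons (Pq.L [] 16384 (Pf.C 1 1418))
 (Pq.cons (Pq.L [4] 11127 (Pf.W 20 6 [] [4,7,8,9,11] (Pf.cons (Pf.B 12 11 (Pf.B 12 9 (Pf.B 12 8 (Pf.B 12 7 (Pf.C 0 0x30208121c30b) (Pf.C 2 908)) (Pf.C 2 1036)) (Pf.C 2 1164)) (Pf.C 2 1420)) Pf.nil)))
 (Pq.cons (Pq.L [4] 11127 (Pf.W 26 6 [] [4,7,8,9,11] (Pf.cons (Pf.B 12 11 (Pf.B 12 9 (Pf.B 12 8 (Pf.B 12 7 (Pf.C 0 0x2c208121c30c) (Pf.C 2 908)) (Pf.C 2 1036)) (Pf.C 2 1164)) (Pf.C 2 1420)) Pf.nil)))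
 Pq.nil)))) (Pq.cons (Pq.L [] 4096 (Pf.C 2 1289))
 (Pq.cons (Pq.L [] 4096 (Pf.C 2 1289))
 Pq.nil)))) (Pq.cons (Pq.D 4 (Pq.cons (Pq.D 5 (Pq.cons (Pq.L [] 16384 (Pf.C 1 1418))
 (Pq.cons (Pq.L [2,3,4,5] 32767 (Pf.B 11 5 (Pf.B 11 3 (Pf.B 11 2 (Pf.B 9 5 (Pf.B 9 2 (Pf.B 8 5 (Pf.B 8 3 (Pf.B 8 2 (Pf.B 7 5 (Pf.B 10 5 (Pf.C 0 0x2c5091014207) (Pf.B 7 3 (Pf.B 10 3 (Pf.C 0 0x2c505100c207) (Pf.B 7 2 (Pf.B 10 2 (Pf.B 6 2 (Pf.C 0 0x2c509101c302) (Pf.B 6 5 (Pf.C 0 0x142080e0830b) (Pf.B 6 3 (Pf.C 0 0xc2050e0830b) (Pf.W 20 6 [] [2,3,4,7,11] (Pf.cons (Pf.B 12 11 (Pf.B 12 7 (Pf.B 12 3 (Pf.B 12 2 (Pf.C 0 0x302030e0830b) (Pf.C 2 268)) (Pf.C 2 396)) (Pf.C 2 908)) (Pf.C 2 1420)) Pf.nil))))) (Pf.C 0 0x202031608507)) (Pf.C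 2 263))) (Pf.C 2 391))) (Pf.C 2 647)) (Pf.C 2 264)) (Pf.C 2 392)) (Pf.C 2 648)) (Pf.C 2 265)) (Pf.C 2 649)) (Pf.C 2 267)) (Pf.C 2 395)) (Pf.C 2 651)))
 (Pq.cons (Pq.L [0,1,2,3,4,5] 32767 (Pf.B 11 5 (Pf.B 11 3 (Pf.B 11 2 (Pf.B 11 1 (Pf.B 9 5 (Pf.B 9 3 (Pf.B 9 2 (Pf.B 9 1 (Pf.B 8 5 (Pf.B 8 3 (Pf.B 8 2 (Pf.B 8 1 (Pf.B 7 5 (Pf.B 7 3 (Pf.B 7 2 (Pf.B 7 1 (Pf.B 10 5 (Pf.B 10 2 (Pf.C 0 0x142080e0800a) (Pf.C 0 0x85091014207)) (Pf.B 10 3 (Pf.B 6 3 (Pf.C 0 0x2c509101c303) (Pf.B 6 5 (Pf.W 26 6 [] [4,5,7,8,11] (Pf.cons (Pf.B 12 11 (Pf.B 12 8 (Pf.B 12 7 (Pf.B 12 5 (Pf.C 0 0x1c308161420c) (Pf.C 2 652)) (Pf.C 2 908)) (Pf.C 2 1036)) (Pf.C 2 1420)) Pf.nil)) (Pf.W 26 6 [] [3,4,5,7,8,9,10,11] (Pf.cons (Pf.B 12 11 (Pf.B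 12 9 (Pf.B 12 8 (Pf.B 12 7 (Pf.B 12 10 (Pf.C 0 0x2c509101c30c) (Pf.B 12 5 (Pf.B 12 3 (Pf.C 0 0x30505100c207) (Pf.C 2 396)) (Pf.C 2 652))) (Pf.C 2 908)) (Pf.C 2 1036)) (Pf.C 2 1164)) (Pf.C 2 1420)) Pf.nil)))) (Pf.B 10 2 (Pf.B 6 2 (Pf.C 0 0x2c509101c302) (Pf.B 6 5 (Pf.W 26 6 [] [4,5,7,8,11] (Pf.cons (Pf.B 12 11 (Pf.B 12 8 (Pf.B 12 7 (Pf.B 12 5 (Pf.C 0 0x1c308161420c) (Pf.C 2 652)) (Pf.C 2 908)) (Pf.C 2 1036)) (Pf.C 2 1420)) Pf.nil)) (Pf.B 6 3 (Pf.W 26 6 [] [3,4,5,7,11] (Pf.cons (Pf.B 12 11 (Pf.B 12 7 (Pf.B 12 5 (Pf.B 12 3 (Pf.C 0 0x1c305160c20c) (Pf.C 2 396)) (Pf.C 2 652)) (Pf.C 2 908)) (Pf.C 2 1420)) Pf.nil)) (Pf.W 26 6 [] [2,3,4,7,11] (Pf.cons (Pf.B 12 11 (Pf.B 12 7 (Pf.B 12 3 (Pf.B 12 2 (Pf.C 0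 0x2c2030e0830c) (Pf.C 2 268)) (Pf.C 2 396)) (Pf.C 2 908)) (Pf.C 2 1420)) Pf.nil))))) (Pf.B 10 1 (Pf.B 6 1 (Pf.C 0 0x2c509101c301) (Pf.B 6 2 (Pf.C 0 0x2c2080e04302) (Pf.B 6 5 (Pf.W 26 6 [] [4,5,7,8,11] (Pf.cons (Pf.B 12 11 (Pf.B 12 8 (Pf.B 12 7 (Pf.B 12 5 (Pf.C 0 0x1c308161420c) (Pf.C 2 652)) (Pf.C 2 908)) (Pf.C 2 1036)) (Pf.C 2 1420)) Pf.nil)) (Pf.B 6 3 (Pf.W 26 6 [] [3,4,5,7,11] (Pf.cons (Pf.B 12 11 (Pf.B 12 7 (Pf.B 12 5 (Pf.B 12 3 (Pf.C 0 0x1c305160c20c) (Pf.C 2 396)) (Pf.C 2 652)) (Pf.C 2 908)) (Pf.C 2 1420)) Pf.nil)) (Pf.W 26 6 [] [2,3,4,7,11] (Pf.cons (Pf.B 12 11 (Pf.B 12 7 (Pf.B 12 3 (Pf.B 12 2 (Pf.C 0 0x2c2030e0830c) (Pf.C 2 268)) (Pf.C 2 396)) (Pf.C 2 908)) (Pf.C 2 1420)) Pf.nil)))))) (Pf.C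 0 0x202030404507))))) (Pf.C 2 135)) (Pf.C 2 263)) (Pf.C 2 391)) (Pf.C 2 647)) (Pf.C 2 136)) (Pf.C 2 264)) (Pf.C 2 392)) (Pf.C 2 648)) (Pf.C 2 137)) (Pf.C 2 265)) (Pf.C 2 393)) (Pf.C 2 649)) (Pf.C 2 139)) (Pf.C 2 267)) (Pf.C 2 395)) (Pf.C 2 651)))
 Pq.nil)))) (Pq.cons (Pq.L [] 4096 (Pf.C 2 1289))
 (Pq.cons (Pq.L [] 4096 (Pf.C 2 1289))
 Pq.nil)))) Pq.nil)))) Pq.nil)))) (Pq.cons (Pq.D 2 (Pq.cons (Pq.L [] 2 (Pf.C 1 1030))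
 (Pq.cons (Pq.D 3 (Pq.cons (Pq.L [] 4 (Pf.C 1 1158))
 (Pq.cons (Pq.D 4 (Pq.cons (Pq.D 5 (Pq.cons (Pq.L [] 16384 (Pf.C 1 1418))
 (Pq.cons (Pq.L [4] 11127 (Pf.W 20 6 [] [4,7,8,9,11] (Pf.cons (Pf.B 12 11 (Pf.B 12 9 (Pf.B 12 8 (Pf.B 12 7 (Pf.C 0 0x30207122030b) (Pf.C 2 908)) (Pf.C 2 1036)) (Pf.C 2 1164)) (Pf.C 2 1420)) Pf.nil)))
 (Pq.cons (Pq.L [4] 11127 (Pf.W 26 6 [] [4,7,8,9,11] (Pf.cons (Pf.B 12 11 (Pf.B 12 9 (Pf.B 12 8 (Pf.B 12 7 (Pf.C 0 0x2c207122030c) (Pf.C 2 908)) (Pf.C 2 1036)) (Pf.C 2 1164)) (Pf.C 2 1420)) Pf.nil)))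
 Pq.nil)))) (Pq.cons (Pq.L [] 4096 (Pf.C 2 1289))
 (Pq.cons (Pq.L [] 4096 (Pf.C 2 1289))
 Pq.nil)))) (Pq.cons (Pq.D 4 (Pq.cons (Pq.D 5 (Pq.cons (Pq.L [] 16384 (Pf.C 1 1418))
 (Pq.cons (Pq.L [2,3,4,5] 32767 (Pf.B 11 5 (Pf.B 11 3 (Pf.B 11 2 (Pf.B 9 5 (Pf.B 9 2 (Pf.B 8 5 (Pf.B 8 3 (Pf.B 8 2 (Pf.B 7 5 (Pf.B 10 5 (Pf.C 0 0x2c5090e14208) (Pf.B 7 3 (Pf.B 10 3 (Pf.C 0 0x2c5050e0c208) (Pf.B 7 2 (Pf.B 10 2 (Pf.B 6 2 (Pf.C 0 0x2c509101c302) (Pf.B 6 5 (Pf.C 0 0x14207100830b) (Pf.B 6 3 (Pf.C 0 0xc205100830b) (Pf.W 20 6 [] [2,3,4,8,11] (Pf.cons (Pf.B 12 11 (Pf.B 12 8 (Pf.B 12 3 (Pf.B 12 2 (Pf.C 0 0x30203100830b) (Pf.C 2 268)) (Pf.C 2 396)) (Pf.C 2 1036)) (Pf.C 2 1420)) Pf.nil))))) (Pf.C 0 0x1c2031608508)) (Pf.C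 2 263))) (Pf.C 2 391))) (Pf.C 2 647)) (Pf.C 2 264)) (Pf.C 2 392)) (Pf.C 2 648)) (Pf.C 2 265)) (Pf.C 2 649)) (Pf.C 2 267)) (Pf.C 2 395)) (Pf.C 2 651)))
 (Pq.cons (Pq.L [0,1,2,3,4,5] 32767 (Pf.B 11 5 (Pf.B 11 3 (Pf.B 11 2 (Pf.B 11 1 (Pf.B 9 5 (Pf.B 9 3 (Pf.B 9 2 (Pf.B 9 1 (Pf.B 8 5 (Pf.B 8 3 (Pf.B 8 2 (Pf.B 8 1 (Pf.B 7 5 (Pf.B 7 3 (Pf.B 7 2 (Pf.B 7 1 (Pf.B 10 5 (Pf.B 10 2 (Pf.C 0 0x14207100800a) (Pf.C 0 0x85090e14208)) (Pf.B 10 3 (Pf.B 6 3 (Pf.C 0 0x2c509101c303) (Pf.B 6 5 (Pf.W 26 6 [] [4,5,7,8,11] (Pf.cons (Pf.B 12 11 (Pf.B 12 8 (Pf.B 12 7 (Pf.B 12 5 (Pf.C 0 0x20307161420c) (Pf.C 2 652)) (Pf.C 2 908)) (Pf.C 2 1036)) (Pf.C 2 1420)) Pf.nil)) (Pf.W 26 6 [] [3,4,5,7,8,9,10,11] (Pf.cons (Pf.B 12 11 (Pf.B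 12 9 (Pf.B 12 8 (Pf.B 12 7 (Pf.B 12 10 (Pf.C 0 0x2c509101c30c) (Pf.B 12 5 (Pf.B 12 3 (Pf.C 0 0x305050e0c208) (Pf.C 2 396)) (Pf.C 2 652))) (Pf.C 2 908)) (Pf.C 2 1036)) (Pf.C 2 1164)) (Pf.C 2 1420)) Pf.nil)))) (Pf.B 10 2 (Pf.B 6 2 (Pf.C 0 0x2c509101c302) (Pf.B 6 5 (Pf.W 26 6 [] [4,5,7,8,11] (Pf.cons (Pf.B 12 11 (Pf.B 12 8 (Pf.B 12 7 (Pf.B 12 5 (Pf.C 0 0x20307161420c) (Pf.C 2 652)) (Pf.C 2 908)) (Pf.C 2 1036)) (Pf.C 2 1420)) Pf.nil)) (Pf.B 6 3 (Pf.W 26 6 [] [3,4,5,8,11] (Pf.cons (Pf.B 12 11 (Pf.B 12 8 (Pf.B 12 5 (Pf.B 12 3 (Pf.C 0 0x20305160c20c) (Pf.C 2 396)) (Pf.C 2 652)) (Pf.C 2 1036)) (Pf.C 2 1420)) Pf.nil)) (Pf.W 26 6 [] [2,3,4,8,11] (Pf.cons (Pf.B 12 11 (Pf.B 12 8 (Pf.B 12 3 (Pf.B 12 2 (Pf.C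 0 0x2c203100830c) (Pf.C 2 268)) (Pf.C 2 396)) (Pf.C 2 1036)) (Pf.C 2 1420)) Pf.nil))))) (Pf.B 10 1 (Pf.B 6 1 (Pf.C 0 0x2c509101c301) (Pf.B 6 2 (Pf.C 0 0x2c2071004302) (Pf.B 6 5 (Pf.W 26 6 [] [4,5,7,8,11] (Pf.cons (Pf.B 12 11 (Pf.B 12 8 (Pf.B 12 7 (Pf.B 12 5 (Pf.C 0 0x20307161420c) (Pf.C 2 652)) (Pf.C 2 908)) (Pf.C 2 1036)) (Pf.C 2 1420)) Pf.nil)) (Pf.B 6 3 (Pf.W 26 6 [] [3,4,5,8,11] (Pf.cons (Pf.B 12 11 (Pf.B 12 8 (Pf.B 12 5 (Pf.B 12 3 (Pf.C 0 0x20305160c20c) (Pf.C 2 396)) (Pf.C 2 652)) (Pf.C 2 1036)) (Pf.C 2 1420)) Pf.nil)) (Pf.W 26 6 [] [2,3,4,8,11] (Pf.cons (Pf.B 12 11 (Pf.B 12 8 (Pf.B 12 3 (Pf.B 12 2 (Pf.C 0 0x2c203100830c) (Pf.C 2 268)) (Pf.C 2 396)) (Pf.C 2 1036)) (Pf.C 2 1420)) Pf.nil))))))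 (Pf.C 0 0x1c2030404508))))) (Pf.C 2 135)) (Pf.C 2 263)) (Pf.C 2 391)) (Pf.C 2 647)) (Pf.C 2 136)) (Pf.C 2 264)) (Pf.C 2 392)) (Pf.C 2 648)) (Pf.C 2 137)) (Pf.C 2 265)) (Pf.C 2 393)) (Pf.C 2 649)) (Pf.C 2 139)) (Pf.C 2 267)) (Pf.C 2 395)) (Pf.C 2 651)))
 Pq.nil)))) (Pq.cons (Pq.L [] 4096 (Pf.C 2 1289))
 (Pq.cons (Pq.L [] 4096 (Pf.C 2 1289))
 Pq.nil)))) Pq.nil)))) (Pq.cons (Pq.D 3 (Pq.cons (Pq.L [] 4 (Pf.C 1 1158))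
 (Pq.cons (Pq.D 4 (Pq.cons (Pq.D 5 (Pq.cons (Pq.L [] 16384 (Pf.C 1 1418))
 (Pq.cons (Pq.L [2,3,4,5] 32767 (Pf.B 11 5 (Pf.B 11 3 (Pf.B 11 2 (Pf.B 9 5 (Pf.B 9 3 (Pf.B 9 2 (Pf.B 8 5 (Pf.B 7 5 (Pf.B 7 3 (Pf.B 10 5 (Pf.B 6 5 (Pf.C 0 0x2c509101c305) (Pf.B 10 3 (Pf.B 6 3 (Pf.C 0 0x2c5090e14303) (Pf.B 10 2 (Pf.B 6 2 (Pf.C 0 0x2c5090a0c302) (Pf.W 20 6 [] [2,3,4,5,7,8,9,10,11] (Pf.cons (Pf.B 12 11 (Pf.B 12 9 (Pf.B 12 8 (Pf.B 12 7 (Pf.B 12 10 (Pf.C 0 0x2c509101c30c) (Pf.B 12 5 (Pf.B 12 3 (Pf.B 12 2 (Pf.C 0 0x2450c0a0c202) (Pf.C 2 268)) (Pf.C 2 396)) (Pf.C 2 652))) (Pf.C 2 908)) (Pf.C 2 1036)) (Pf.C 2 1164)) (Pf.C 2 1420)) Pf.nil))) (Pf.B 6 2 (Pf.W 26 10 [] [2,4,6,7,8,9,11] (Pf.cons (Pf.B 12 11 (Pf.B 12 9 (Pf.B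 12 8 (Pf.B 12 7 (Pf.B 12 6 (Pf.C 0 0x2c509101c30c) (Pf.B 12 2 (Pf.C 0 0x303091608504) (Pf.C 2 268))) (Pf.C 2 908)) (Pf.C 2 1036)) (Pf.C 2 1164)) (Pf.C 2 1420)) Pf.nil)) (Pf.W 20 6 [] [2,3,4,9,11] (Pf.cons (Pf.B 12 11 (Pf.B 12 9 (Pf.B 12 3 (Pf.B 12 2 (Pf.C 0 0x30203120830b) (Pf.C 2 268)) (Pf.C 2 396)) (Pf.C 2 1164)) (Pf.C 2 1420)) Pf.nil))))) (Pf.W 26 10 [] [3,4,5,7,9] (Pf.cons (Pf.B 12 9 (Pf.B 12 7 (Pf.B 12 5 (Pf.B 12 3 (Pf.C 0 0x245030e1420c) (Pf.C 2 396)) (Pf.C 2 652)) (Pf.C 2 908)) (Pf.C 2 1164)) Pf.nil)))) (Pf.W 26 10 [] [4,5,7,8,9] (Pf.cons (Pf.B 12 9 (Pf.B 12 8 (Pf.B 12 7 (Pf.B 12 5 (Pf.C 0 0x24505101c20c) (Pf.C 2 652)) (Pf.C 2 908)) (Pf.C 2 1036)) (Pf.C 2 1164)) Pf.nil))) (Pf.C 2 391)) (Pf.C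 2 647)) (Pf.C 2 648)) (Pf.C 2 265)) (Pf.C 2 393)) (Pf.C 2 649)) (Pf.C 2 267)) (Pf.C 2 395)) (Pf.C 2 651)))
 (Pq.cons (Pq.L [4] 32736 (Pf.W 26 10 [] [4,7,8,9,11] (Pf.cons (Pf.B 12 11 (Pf.B 12 9 (Pf.B 12 8 (Pf.B 12 7 (Pf.C 0 0x2450b101c20c) (Pf.C 2 908)) (Pf.C 2 1036)) (Pf.C 2 1164)) (Pf.C 2 1420)) Pf.nil)))
 Pq.nil)))) (Pq.cons (Pq.L [] 4096 (Pf.C 2 1289))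
 (Pq.cons (Pq.L [] 4096 (Pf.C 2 1289))
 Pq.nil)))) (Pq.cons (Pq.D 4 (Pq.cons (Pq.D 5 (Pq.cons (Pq.L [] 16384 (Pf.C 1 1418))
 (Pq.cons (Pq.L [4] 32736 (Pf.W 26 10 [] [4,7,8,9,11] (Pf.cons (Pf.B 12 11 (Pf.B 12 9 (Pf.B 12 8 (Pf.B 12 7 (Pf.C 0 0x2c509101c20c) (Pf.C 2 908)) (Pf.C 2 1036)) (Pf.C 2 1164)) (Pf.C 2 1420)) Pf.nil)))
 (Pq.cons (Pq.L [0,1,2,3,4,5] 32767 (Pf.B 11 5 (Pf.B 11 3 (Pf.B 11 2 (Pf.B 9 5 (Pf.B 9 3 (Pf.B 9 2 (Pf.B 9 1 (Pf.B 8 3 (Pf.B 8 2 (Pf.B 7 5 (Pf.B 7 3 (Pf.B 7 2 (Pf.B 7 1 (Pf.B 10 5 (Pf.B 10 3 (Pf.B 10 2 (Pf.B 10 1 (Pf.C 0 0x14203040400a) (Pf.C 0 0x45090a0c202)) (Pf.W 26 10 [] [2,3,4,5,9] (Pf.cons (Pf.B 12 9 (Pf.B 12 5 (Pf.B 12 3 (Pf.B 12 2 (Pf.C 0 0x85090a0c20c) (Pf.C 2 268)) (Pf.C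 2 396)) (Pf.C 2 652)) (Pf.C 2 1164)) Pf.nil))) (Pf.B 10 2 (Pf.B 10 1 (Pf.C 0 0x14207040400a) (Pf.C 0 0x45030e14202)) (Pf.W 26 10 [] [2,3,4,5,7] (Pf.cons (Pf.B 12 7 (Pf.B 12 5 (Pf.B 12 3 (Pf.B 12 2 (Pf.C 0 0x85030e1420c) (Pf.C 2 268)) (Pf.C 2 396)) (Pf.C 2 652)) (Pf.C 2 908)) Pf.nil)))) (Pf.B 10 3 (Pf.B 6 3 (Pf.C 0 0x2c509101c303) (Pf.B 10 2 (Pf.B 6 2 (Pf.C 0 0x2c5090e0c302) (Pf.B 6 5 (Pf.W 26 6 [] [2,3,4,5,11] (Pf.cons (Pf.B 12 11 (Pf.B 12 5 (Pf.B 12 3 (Pf.B 12 2 (Pf.C 0 0x8303161420c) (Pf.C 2 268)) (Pf.C 2 396)) (Pf.C 2 652)) (Pf.C 2 1420)) Pf.nil)) (Pf.W 26 6 [] [2,3,4,5,7,8,9,10,11] (Pf.cons (Pf.B 12 11 (Pf.B 12 9 (Pf.B 12 8 (Pf.B 12 7 (Pf.B 12 10 (Pf.C 0 0x2c509101c30c) (Pf.B 12 5 (Pf.B 12 3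 (Pf.B 12 2 (Pf.C 0 0x305050e0c202) (Pf.C 2 268)) (Pf.C 2 396)) (Pf.C 2 652))) (Pf.C 2 908)) (Pf.C 2 1036)) (Pf.C 2 1164)) (Pf.C 2 1420)) Pf.nil)))) (Pf.W 26 10 [] [2,3,4,5,7] (Pf.cons (Pf.B 12 7 (Pf.B 12 5 (Pf.B 12 3 (Pf.B 12 2 (Pf.C 0 0x85050e0c20c) (Pf.C 2 268)) (Pf.C 2 396)) (Pf.C 2 652)) (Pf.C 2 908)) Pf.nil)))) (Pf.B 10 2 (Pf.B 6 2 (Pf.C 0 0x2c509101c302) (Pf.B 6 5 (Pf.B 6 3 (Pf.W 26 6 [] [2,3,4,5,7] (Pf.cons (Pf.B 12 7 (Pf.B 12 5 (Pf.B 12 3 (Pf.B 12 2 (Pf.C 0 0x83070a0c20c) (Pf.C 2 268)) (Pf.C 2 396)) (Pf.C 2 652)) (Pf.C 2 908)) Pf.nil)) (Pf.W 26 6 [] [2,3,4,5,11] (Pf.cons (Pf.B 12 11 (Pf.B 12 5 (Pf.B 12 3 (Pf.B 12 2 (Pf.C 0 0x8303161420c) (Pf.C 2 268)) (Pf.C 2 396)) (Pf.C 2 652)) (Pf.C 2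 1420)) Pf.nil))) (Pf.B 6 3 (Pf.W 26 6 [] [2,3,4,5,11] (Pf.cons (Pf.B 12 11 (Pf.B 12 5 (Pf.B 12 3 (Pf.B 12 2 (Pf.C 0 0x8305160c20c) (Pf.C 2 268)) (Pf.C 2 396)) (Pf.C 2 652)) (Pf.C 2 1420)) Pf.nil)) (Pf.W 26 6 [] [2,3,4,7,8,9,10,11] (Pf.cons (Pf.B 12 11 (Pf.B 12 9 (Pf.B 12 8 (Pf.B 12 7 (Pf.B 12 10 (Pf.C 0 0x2c509101c30c) (Pf.B 12 3 (Pf.B 12 2 (Pf.C 0 0x30503101c202) (Pf.C 2 268)) (Pf.C 2 396))) (Pf.C 2 908)) (Pf.C 2 1036)) (Pf.C 2 1164)) (Pf.C 2 1420)) Pf.nil))))) (Pf.W 26 10 [] [2,3,4,7,8] (Pf.cons (Pf.B 12 8 (Pf.B 12 7 (Pf.B 12 3 (Pf.B 12 2 (Pf.C 0 0x8503101c20c) (Pf.C 2 268)) (Pf.C 2 396)) (Pf.C 2 908)) (Pf.C 2 1036)) Pf.nil))))) (Pf.C 2 135)) (Pf.C 2 263)) (Pf.C 2 391)) (Pf.C 2 647)) (Pf.C 2 264))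 (Pf.C 2 392)) (Pf.C 2 137)) (Pf.C 2 265)) (Pf.C 2 393)) (Pf.C 2 649)) (Pf.C 2 267)) (Pf.C 2 395)) (Pf.C 2 651)))
 Pq.nil)))) (Pq.cons (Pq.L [] 4096 (Pf.C 2 1289))
 (Pq.cons (Pq.L [] 4096 (Pf.C 2 1289))
 Pq.nil)))) Pq.nil)))) Pq.nil)))) Pq.nil)))) (Pq.cons (Pq.D 1 (Pq.cons (Pq.D 2 (Pq.cons (Pq.D 3 (Pq.cons (Pq.D 4 (Pq.cons (Pq.L [] 4096 (Pf.C 1 1289))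
 (Pq.cons (Pq.D 5 (Pq.cons (Pq.L [0,4] 19899 (Pf.C 0 0x2c500101c304))
 (Pq.cons (Pq.L [4] 32767 (Pf.C 0 0x2c509101c304))
 (Pq.cons (Pq.L [] 16384 (Pf.C 2 1418))
 Pq.nil)))) (Pq.cons (Pq.D 5 (Pq.cons (Pq.L [0,1,2,3,4,5] 32767 (Pf.B 10 5 (Pf.B 10 3 (Pf.B 10 2 (Pf.B 10 1 (Pf.B 6 5 (Pf.B 6 3 (Pf.B 6 2 (Pf.B 6 1 (Pf.W 20 9 [] [0,1,2,3,4,5,6,7,8,10,11] (Pf.cons (Pf.B 12 10 (Pf.B 12 6 (Pf.B 12 5 (Pf.B 12 3 (Pf.B 12 2 (Pf.B 12 1 (Pf.B 12 11 (Pf.B 12 8 (Pf.C 0 0x10600122030b) (Pf.B 12 7 (Pf.C 0 0x206001624507) (Pf.W 26 7 [] [0,2,3,4,5,6,9,10,11,12] (Pf.cons (Pf.B 13 12 (Pf.B 13 10 (Pf.B 13 6 (Pf.B 13 5 (Pf.B 13 3 (Pf.B 13 2 (Pf.B 7 5 (Pf.C 0 0x1838c141420d) (Pf.B 7 3 (Pf.C 0 0x18385140c20d) (Pf.B 7 2 (Pf.B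 13 11 (Pf.B 13 9 (Pf.C 0 0x1c604162450d) (Pf.C 0 0x246800e1060b)) (Pf.B 11 5 (Pf.C 0 0x3458a1814206) (Pf.B 11 3 (Pf.C 0 0x34585180c206) (Pf.B 11 2 (Pf.C 0 0x183831a28582) (Pf.C 0 0x302031a08586))))) (Pf.C 0 0x282030c0838d)))) (Pf.C 2 269)) (Pf.C 2 397)) (Pf.C 2 653)) (Pf.C 2 781)) (Pf.C 2 1293)) (Pf.C 2 1549)) Pf.nil)))) (Pf.B 12 8 (Pf.B 12 7 (Pf.W 20 11 [] [0,4,6,7,8,9,10,12] (Pf.cons (Pf.B 13 12 (Pf.B 13 10 (Pf.B 13 6 (Pf.B 13 9 (Pf.B 13 8 (Pf.C 0 0x10680122030b) (Pf.B 13 7 (Pf.C 0 0x206801624507) (Pf.C 0 0x2c600101c689))) (Pf.B 13 8 (Pf.B 13 7 (Pf.C 0 0x10680101c30b) (Pf.C 0 0x2c600121c688)) (Pf.B 13 7 (Pf.C 0 0x2c6001220687) (Pf.W 26 7 [] [4,6,10,12,13] (Pf.cons (Pf.B 14 13 (Pf.B 14 12 (Pf.B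 14 10 (Pf.B 14 6 (Pf.C 0 0x1838d182820e) (Pf.C 2 782)) (Pf.C 2 1294)) (Pf.C 2 1550)) (Pf.C 2 1678)) Pf.nil))))) (Pf.C 2 781)) (Pf.C 2 1293)) (Pf.C 2 1549)) Pf.nil)) (Pf.W 20 11 [] [0,1,2,3,4,5,6,7,8,9,10,12] (Pf.cons (Pf.B 13 12 (Pf.B 13 10 (Pf.B 13 6 (Pf.B 13 5 (Pf.B 13 3 (Pf.B 13 2 (Pf.B 13 1 (Pf.B 13 9 (Pf.B 9 2 (Pf.C 0 0x1848a1a30202) (Pf.B 11 2 (Pf.C 0 0x3058a0c0848d) (Pf.B 11 5 (Pf.C 0 0x858a1a14206) (Pf.B 11 3 (Pf.C 0 0x85851a0c206) (Pf.B 11 1 (Pf.B 9 3 (Pf.C 0 0x18482180c58d) (Pf.B 9 1 (Pf.C 0 0x302030c08481) (Pf.C 0 0x305820c0448d))) (Pf.C 0 0x342030404586)))))) (Pf.B 13 8 (Pf.B 13 7 (Pf.C 0 0x10680101c30b) (Pf.W 26 7 [] [0,4,6,8,9,10,11,12,13] (Pf.cons (Pf.B 14 13 (Pf.B 14 12 (Pf.B 14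 10 (Pf.B 14 6 (Pf.B 14 11 (Pf.C 0 0x2858c1a1838e) (Pf.B 14 9 (Pf.C 0 0x2c7000e24304) (Pf.B 14 8 (Pf.C 0 0x3038d1438488) (Pf.C 0 0x1840e182858d)))) (Pf.C 2 782)) (Pf.C 2 1294)) (Pf.C 2 1550)) (Pf.C 2 1678)) Pf.nil))) (Pf.W 26 8 [] [4,6,10,12,13] (Pf.cons (Pf.B 14 13 (Pf.B 14 12 (Pf.B 14 10 (Pf.B 14 6 (Pf.C 0 0x1840d182820e) (Pf.C 2 782)) (Pf.C 2 1294)) (Pf.C 2 1550)) (Pf.C 2 1678)) Pf.nil)))) (Pf.C 2 141)) (Pf.C 2 269)) (Pf.C 2 397)) (Pf.C 2 653)) (Pf.C 2 781)) (Pf.C 2 1293)) (Pf.C 2 1549)) Pf.nil))) (Pf.B 12 7 (Pf.W 20 11 [] [0,1,2,3,4,5,6,7,8,9,10,12] (Pf.cons (Pf.B 13 12 (Pf.B 13 10 (Pf.B 13 6 (Pf.B 13 5 (Pf.B 13 3 (Pf.B 13 2 (Pf.B 13 1 (Pf.B 13 9 (Pf.B 9 2 (Pf.C 0 0x1848a1a30202) (Pf.B 11 2 (Pf.C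 0 0x3058a0c0848d) (Pf.B 11 5 (Pf.C 0 0x858a1a14206) (Pf.B 11 3 (Pf.C 0 0x85851a0c206) (Pf.B 11 1 (Pf.B 9 3 (Pf.C 0 0x18482180c58d) (Pf.B 9 1 (Pf.C 0 0x302030c08481) (Pf.C 0 0x305820c0448d))) (Pf.C 0 0x342030404586)))))) (Pf.B 13 8 (Pf.B 8 2 (Pf.C 0 0x1840c1a28202) (Pf.B 11 2 (Pf.C 0 0x2858c0c0840d) (Pf.B 11 5 (Pf.C 0 0x858a1a14206) (Pf.B 11 3 (Pf.C 0 0x85851a0c206) (Pf.B 11 1 (Pf.B 8 3 (Pf.C 0 0x18402140c58d) (Pf.B 8 1 (Pf.C 0 0x282030c08401) (Pf.C 0 0x285820c0440d))) (Pf.C 0 0x342030404586)))))) (Pf.B 13 7 (Pf.W 26 8 [] [0,4,6,7,9,10,11,12,13] (Pf.cons (Pf.B 14 13 (Pf.B 14 12 (Pf.B 14 10 (Pf.B 14 6 (Pf.B 14 11 (Pf.C 0 0x2858c1a1840e) (Pf.B 14 9 (Pf.C 0 0x2c7001024304) (Pf.B 14 7 (Pf.C 0 0x3040d1438487)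 (Pf.C 0 0x1838e182858d)))) (Pf.C 2 782)) (Pf.C 2 1294)) (Pf.C 2 1550)) (Pf.C 2 1678)) Pf.nil)) (Pf.W 26 7 [] [4,6,10,12,13] (Pf.cons (Pf.B 14 13 (Pf.B 14 12 (Pf.B 14 10 (Pf.B 14 6 (Pf.C 0 0x1838d182820e) (Pf.C 2 782)) (Pf.C 2 1294)) (Pf.C 2 1550)) (Pf.C 2 1678)) Pf.nil))))) (Pf.C 2 141)) (Pf.C 2 269)) (Pf.C 2 397)) (Pf.C 2 653)) (Pf.C 2 781)) (Pf.C 2 1293)) (Pf.C 2 1549)) Pf.nil)) (Pf.W 20 11 [] [0,1,2,3,4,5,6,7,8,10,12] (Pf.cons (Pf.B 13 12 (Pf.B 13 10 (Pf.B 13 6 (Pf.B 13 5 (Pf.B 13 3 (Pf.B 13 2 (Pf.B 13 1 (Pf.B 13 8 (Pf.B 8 2 (Pf.C 0 0x1840c1a28202) (Pf.B 11 2 (Pf.C 0 0x2858c0c0840d) (Pf.B 11 5 (Pf.C 0 0x858a1a14206) (Pf.B 11 3 (Pf.C 0 0x85851a0c206) (Pf.B 11 1 (Pf.B 8 3 (Pf.C 0 0x18402140c58d)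 (Pf.B 8 1 (Pf.C 0 0x282030c08401) (Pf.C 0 0x285820c0440d))) (Pf.C 0 0x342030404586)))))) (Pf.B 13 7 (Pf.B 7 2 (Pf.C 0 0x1838c1a28202) (Pf.B 11 2 (Pf.C 0 0x2858c0c0838d) (Pf.B 11 5 (Pf.C 0 0x858a1a14206) (Pf.B 11 3 (Pf.C 0 0x85851a0c206) (Pf.B 11 1 (Pf.B 8 1 (Pf.C 0 0x2858c1a18401) (Pf.B 7 1 (Pf.C 0 0x200801610507) (Pf.C 0 0x285820c0438d))) (Pf.C 0 0x342030404586)))))) (Pf.W 26 7 [] [0,2,3,4,5,6,8,10,11,12,13] (Pf.cons (Pf.B 14 13 (Pf.B 14 12 (Pf.B 14 10 (Pf.B 14 6 (Pf.B 14 11 (Pf.C 0 0x2858c1a1838e) (Pf.B 14 8 (Pf.C 0 0x2c7000e20304) (Pf.B 14 5 (Pf.B 14 3 (Pf.B 14 2 (Pf.B 11 5 (Pf.C 0 0x3858a1a14206) (Pf.B 11 3 (Pf.C 0 0x385851a0c206) (Pf.B 11 2 (Pf.B 8 2 (Pf.C 0 0x2820c1c18402) (Pf.B 7 5 (Pf.C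 0 0x1838c141420e) (Pf.B 7 3 (Pf.C 0 0x18385140c20e) (Pf.B 7 2 (Pf.C 0 0x201001610507) (Pf.C 0 0x282030c0838e))))) (Pf.C 0 0x342031c08586)))) (Pf.C 2 270)) (Pf.C 2 398)) (Pf.C 2 654)))) (Pf.C 2 782)) (Pf.C 2 1294)) (Pf.C 2 1550)) (Pf.C 2 1678)) Pf.nil)))) (Pf.C 2 141)) (Pf.C 2 269)) (Pf.C 2 397)) (Pf.C 2 653)) (Pf.C 2 781)) (Pf.C 2 1293)) (Pf.C 2 1549)) Pf.nil))))) (Pf.C 2 140)) (Pf.C 2 268)) (Pf.C 2 396)) (Pf.C 2 652)) (Pf.C 2 780)) (Pf.C 2 1292)) Pf.nil)) (Pf.C 2 134)) (Pf.C 2 262)) (Pf.C 2 390)) (Pf.C 2 646)) (Pf.C 2 138)) (Pf.C 2 266)) (Pf.C 2 394)) (Pf.C 2 650)))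
 (Pq.cons (Pq.L [] 16384 (Pf.C 2 1418))
 (Pq.cons (Pq.L [] 16384 (Pf.C 2 1418))
 Pq.nil)))) Pq.nil)))) (Pq.cons (Pq.L [] 4 (Pf.C 2 1158))
 (Pq.cons (Pq.L [] 4 (Pf.C 2 1158))
 Pq.nil)))) (Pq.cons (Pq.L [] 2 (Pf.C 2 1030))
 (Pq.cons (Pq.L [] 2 (Pf.C 2 1030))
 Pq.nil)))) (Pq.cons (Pq.L [] 1 (Pf.C 2 902))
 (Pq.cons (Pq.L [] 1 (Pf.C 2 902))
 Pq.nil)))) (Pq.cons (Pq.D 1 (Pq.cons (Pq.D 2 (Pq.cons (Pq.D 3 (Pq.cons (Pq.D 4 (Pq.cons (Pq.L [] 4096 (Pf.C 1 1289))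
 (Pq.cons (Pq.D 5 (Pq.cons (Pq.L [0,1,2,3,4,5] 32767 (Pf.B 10 5 (Pf.B 10 3 (Pf.B 10 2 (Pf.B 10 1 (Pf.B 6 5 (Pf.B 6 2 (Pf.B 6 1 (Pf.W 20 7 [] [0,1,2,3,4,5,6,8,9,10,11] (Pf.cons (Pf.B 12 10 (Pf.B 12 6 (Pf.B 12 5 (Pf.B 12 3 (Pf.B 12 2 (Pf.B 12 1 (Pf.B 12 11 (Pf.B 12 9 (Pf.C 0 0x106001624507) (Pf.B 12 8 (Pf.W 20 9 [] [0,1,2,3,4,5,6,7,8,10,11,12] (Pf.cons (Pf.B 13 12 (Pf.B 13 10 (Pf.B 13 6 (Pf.B 13 2 (Pf.B 13 1 (Pf.B 13 11 (Pf.B 13 8 (Pf.C 0 0x106801624508) (Pf.B 13 7 (Pf.C 0 0x245001010687) (Pf.C 0 0x24600101c68b))) (Pf.B 11 2 (Pf.C 0 0x2858d1818202) (Pf.B 11 1 (Pf.C 0 0x1820d1408581) (Pf.B 13 8 (Pf.B 8 2 (Pf.C 0 0x3020d1408588) (Pf.C 0 0x184021a2858c)) (Pf.B 8 2 (Pf.C 0 0x1840d140858c) (Pf.B 8 5 (Pf.C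 0 0x8406181420a) (Pf.B 8 3 (Pf.C 0 0x8405180c20a) (Pf.B 8 1 (Pf.C 0 0x18402140458c) (Pf.C 0 0x30203040440a))))))))) (Pf.C 2 141)) (Pf.C 2 269)) (Pf.C 2 781)) (Pf.C 2 1293)) (Pf.C 2 1549)) Pf.nil)) (Pf.C 0 0x2c5000820607))) (Pf.B 12 9 (Pf.W 26 7 [10] [0,4,6,9,11,12] (Pf.cons (Pf.B 13 12 (Pf.B 13 10 (Pf.B 13 6 (Pf.B 13 11 (Pf.B 13 9 (Pf.C 0 0x2c6040e2430d) (Pf.C 0 0x246801610607)) (Pf.W 26 11 [] [4,6,10,12,13] (Pf.cons (Pf.B 14 13 (Pf.B 14 12 (Pf.B 14 10 (Pf.B 14 6 (Pf.C 0 0x1820c1a2858e) (Pf.C 2 782)) (Pf.C 2 1294)) (Pf.C 2 1550)) (Pf.C 2 1678)) Pf.nil))) (Pf.C 2 781)) (Pf.C 2 1293)) (Pf.C 2 1549)) Pf.nil)) (Pf.B 12 8 (Pf.W 20 9 [] [0,4,6,7,8,10,11,12] (Pf.cons (Pf.B 13 12 (Pf.B 13 10 (Pf.B 13 6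 (Pf.B 13 11 (Pf.B 13 8 (Pf.C 0 0x106801624508) (Pf.B 13 7 (Pf.C 0 0x245001010687) (Pf.W 26 9 [] [0,4,6,7,8,10,12,13] (Pf.cons (Pf.B 14 13 (Pf.B 14 12 (Pf.B 14 10 (Pf.B 14 6 (Pf.B 14 8 (Pf.C 0 0x34406182848e) (Pf.B 14 7 (Pf.C 0 0x34386182848e) (Pf.C 0 0x24500101c704))) (Pf.C 2 782)) (Pf.C 2 1294)) (Pf.C 2 1550)) (Pf.C 2 1678)) Pf.nil)))) (Pf.B 13 8 (Pf.W 26 11 [] [4,6,8,9,10,12,13] (Pf.cons (Pf.B 14 13 (Pf.B 14 12 (Pf.B 14 10 (Pf.B 14 6 (Pf.B 14 8 (Pf.B 14 9 (Pf.C 0 0x2c684102430e) (Pf.C 0 0x3420c1438488)) (Pf.C 0 0x384061a3020a)) (Pf.C 2 782)) (Pf.C 2 1294)) (Pf.C 2 1550)) (Pf.C 2 1678)) Pf.nil)) (Pf.B 13 7 (Pf.C 0 0x245001010687) (Pf.W 26 9 [] [0,4,6,7,8,10,12,13] (Pf.cons (Pf.B 14 13 (Pf.B 14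 12 (Pf.B 14 10 (Pf.B 14 6 (Pf.B 14 8 (Pf.C 0 0x34406182848e) (Pf.B 14 7 (Pf.C 0 0x34386182848e) (Pf.C 0 0x24500101c704))) (Pf.C 2 782)) (Pf.C 2 1294)) (Pf.C 2 1550)) (Pf.C 2 1678)) Pf.nil))))) (Pf.C 2 781)) (Pf.C 2 1293)) (Pf.C 2 1549)) Pf.nil)) (Pf.W 20 8 [] [0,1,2,3,4,5,6,7,10,11,12] (Pf.cons (Pf.B 13 12 (Pf.B 13 10 (Pf.B 13 6 (Pf.B 13 5 (Pf.B 13 3 (Pf.B 13 2 (Pf.B 13 1 (Pf.B 13 11 (Pf.B 11 2 (Pf.C 0 0x2858c1a18202) (Pf.B 11 1 (Pf.C 0 0x1820c1408581) (Pf.B 8 2 (Pf.C 0 0x1840c140858d) (Pf.B 8 5 (Pf.C 0 0x84061a1420a) (Pf.B 8 3 (Pf.C 0 0x84051a0c20a) (Pf.B 8 1 (Pf.C 0 0x18402140458d) (Pf.C 0 0x34203040440a))))))) (Pf.B 13 7 (Pf.W 26 11 [] [0,4,6,7,8,10,12,13] (Pf.cons (Pf.B 14 13 (Pf.B 14 12 (Pf.B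 14 10 (Pf.B 14 6 (Pf.B 14 8 (Pf.C 0 0x1840c1a2858e) (Pf.B 14 7 (Pf.C 0 0x207001610687) (Pf.C 0 0x2c500101c704))) (Pf.C 2 782)) (Pf.C 2 1294)) (Pf.C 2 1550)) (Pf.C 2 1678)) Pf.nil)) (Pf.W 26 11 [] [0,4,6,7,8,10,12,13] (Pf.cons (Pf.B 14 13 (Pf.B 14 12 (Pf.B 14 10 (Pf.B 14 6 (Pf.B 14 8 (Pf.C 0 0x1840c1a2858e) (Pf.B 14 7 (Pf.C 0 0x1838d182858e) (Pf.C 0 0x2c500101c704))) (Pf.C 2 782)) (Pf.C 2 1294)) (Pf.C 2 1550)) (Pf.C 2 1678)) Pf.nil)))) (Pf.C 2 141)) (Pf.C 2 269)) (Pf.C 2 397)) (Pf.C 2 653)) (Pf.C 2 781)) (Pf.C 2 1293)) (Pf.C 2 1549)) Pf.nil))))) (Pf.C 2 140)) (Pf.C 2 268)) (Pf.C 2 396)) (Pf.C 2 652)) (Pf.C 2 780)) (Pf.C 2 1292)) Pf.nil)) (Pf.C 2 134)) (Pf.C 2 262)) (Pf.C 2 646)) (Pf.C 2 138)) (Pf.C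 2 266)) (Pf.C 2 394)) (Pf.C 2 650)))
 (Pq.cons (Pq.L [] 16384 (Pf.C 2 1418))
 (Pq.cons (Pq.L [] 16384 (Pf.C 2 1418))
 Pq.nil)))) (Pq.cons (Pq.D 5 (Pq.cons (Pq.L [0,1,2,3,4,5] 32767 (Pf.B 10 5 (Pf.B 10 3 (Pf.B 10 2 (Pf.B 10 1 (Pf.B 6 5 (Pf.B 6 2 (Pf.B 6 1 (Pf.W 20 9 [] [0,1,2,3,4,5,6,7,8,10,11] (Pf.cons (Pf.B 12 10 (Pf.B 12 6 (Pf.B 12 2 (Pf.B 12 1 (Pf.B 12 11 (Pf.B 12 8 (Pf.B 12 7 (Pf.C 0 0x2c509101c30c) (Pf.C 0 0x1c6001624508)) (Pf.B 12 7 (Pf.C 0 0x206001624507) (Pf.W 26 7 [] [0,4,6,9,10,11,12] (Pf.cons (Pf.B 13 12 (Pf.B 13 10 (Pf.B 13 6 (Pf.B 13 11 (Pf.B 13 9 (Pf.C 0 0x1c604162450d) (Pf.C 0 0x246800e1060b)) (Pf.W 26 11 [] [4,6,10,12,13] (Pf.cons (Pf.B 14 13 (Pf.B 14 12 (Pf.B 14 10 (Pf.B 14 6 (Pf.C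 0 0x3458a181820e) (Pf.C 2 782)) (Pf.C 2 1294)) (Pf.C 2 1550)) (Pf.C 2 1678)) Pf.nil))) (Pf.C 2 781)) (Pf.C 2 1293)) (Pf.C 2 1549)) Pf.nil)))) (Pf.B 12 8 (Pf.B 12 7 (Pf.W 26 7 [] [0,4,6,8,9,10,11,12] (Pf.cons (Pf.B 13 12 (Pf.B 13 10 (Pf.B 13 6 (Pf.B 13 11 (Pf.B 13 9 (Pf.C 0 0x2c6040e2430d) (Pf.C 0 0x246801610607)) (Pf.B 13 9 (Pf.B 13 8 (Pf.W 26 11 [] [0,4,6,8,9,10,12,13] (Pf.cons (Pf.B 14 13 (Pf.B 14 12 (Pf.B 14 10 (Pf.B 14 6 (Pf.B 14 9 (Pf.C 0 0x1848a1a3058e) (Pf.B 14 8 (Pf.C 0 0x247001610608) (Pf.C 0 0x2c6801220704))) (Pf.C 2 782)) (Pf.C 2 1294)) (Pf.C 2 1550)) (Pf.C 2 1678)) Pf.nil)) (Pf.C 0 0x206801210507)) (Pf.B 13 8 (Pf.W 26 11 [] [4,6,8,9,10,12,13] (Pf.cons (Pf.B 14 13 (Pf.B 14 12 (Pf.B 14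 10 (Pf.B 14 6 (Pf.B 14 8 (Pf.B 14 9 (Pf.C 0 0x2c604102430e) (Pf.C 0 0x3020a1a38488)) (Pf.C 0 0x38406182820d)) (Pf.C 2 782)) (Pf.C 2 1294)) (Pf.C 2 1550)) (Pf.C 2 1678)) Pf.nil)) (Pf.C 0 0x106001220687)))) (Pf.C 2 781)) (Pf.C 2 1293)) (Pf.C 2 1549)) Pf.nil)) (Pf.W 26 7 [] [0,1,2,3,4,5,6,8,9,10,11,12] (Pf.cons (Pf.B 13 12 (Pf.B 13 10 (Pf.B 13 6 (Pf.B 13 5 (Pf.B 13 3 (Pf.B 13 2 (Pf.B 13 1 (Pf.B 13 11 (Pf.B 13 8 (Pf.C 0 0x2c5040e2030d) (Pf.C 0 0x206801610507)) (Pf.B 13 9 (Pf.B 13 8 (Pf.W 26 11 [] [0,4,6,8,9,10,12,13] (Pf.cons (Pf.B 14 13 (Pf.B 14 12 (Pf.B 14 10 (Pf.B 14 6 (Pf.B 14 9 (Pf.C 0 0x1848a1a3058e) (Pf.B 14 8 (Pf.C 0 0x247001610608) (Pf.C 0 0x2c6801220704))) (Pf.C 2 782)) (Pf.C 2 1294)) (Pf.C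 2 1550)) (Pf.C 2 1678)) Pf.nil)) (Pf.C 0 0x206801210507)) (Pf.B 13 8 (Pf.C 0 0x246800e10608) (Pf.B 8 2 (Pf.C 0 0x344061828202) (Pf.B 8 1 (Pf.C 0 0x282061a08401) (Pf.B 7 2 (Pf.C 0 0x303861a0840a) (Pf.B 7 5 (Pf.C 0 0x8386141420d) (Pf.B 7 3 (Pf.C 0 0x8385140c20d) (Pf.B 7 1 (Pf.C 0 0x303821a0440a) (Pf.C 0 0x28203040438d)))))))))) (Pf.C 2 141)) (Pf.C 2 269)) (Pf.C 2 397)) (Pf.C 2 653)) (Pf.C 2 781)) (Pf.C 2 1293)) (Pf.C 2 1549)) Pf.nil))) (Pf.B 12 7 (Pf.W 26 7 [] [0,4,6,8,9,10,11,12] (Pf.cons (Pf.B 13 12 (Pf.B 13 10 (Pf.B 13 6 (Pf.B 13 11 (Pf.B 13 9 (Pf.C 0 0x2c6040e2430d) (Pf.C 0 0x246801610607)) (Pf.B 13 9 (Pf.B 13 8 (Pf.W 26 11 [] [0,4,6,8,9,10,12,13] (Pf.cons (Pf.B 14 13 (Pf.B 14 12 (Pf.B 14 10 (Pf.B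 14 6 (Pf.B 14 9 (Pf.C 0 0x1848a1a3058e) (Pf.B 14 8 (Pf.C 0 0x1840c1a2858e) (Pf.C 0 0x2c6801220704))) (Pf.C 2 782)) (Pf.C 2 1294)) (Pf.C 2 1550)) (Pf.C 2 1678)) Pf.nil)) (Pf.C 0 0x206801210507)) (Pf.W 26 11 [] [4,6,7,9,10,12,13] (Pf.cons (Pf.B 14 13 (Pf.B 14 12 (Pf.B 14 10 (Pf.B 14 6 (Pf.B 14 7 (Pf.B 14 9 (Pf.C 0 0x2c6040e2430e) (Pf.C 0 0x3020a1a38487)) (Pf.C 0 0x38386182820d)) (Pf.C 2 782)) (Pf.C 2 1294)) (Pf.C 2 1550)) (Pf.C 2 1678)) Pf.nil)))) (Pf.C 2 781)) (Pf.C 2 1293)) (Pf.C 2 1549)) Pf.nil)) (Pf.W 26 7 [] [0,4,6,8,9,10,12] (Pf.cons (Pf.B 13 12 (Pf.B 13 10 (Pf.B 13 6 (Pf.B 13 9 (Pf.B 13 8 (Pf.C 0 0x245040e2060d) (Pf.C 0 0x206801210507)) (Pf.W 26 7 [13] [4,6,9,10,12] (Pf.cons (Pf.B 14 13 (Pf.B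 14 12 (Pf.B 14 10 (Pf.B 14 6 (Pf.B 14 9 (Pf.C 0 0x303861a2848e) (Pf.W 26 9 [] [4,10,12,13,14] (Pf.cons (Pf.B 15 14 (Pf.B 15 13 (Pf.B 15 12 (Pf.B 15 10 (Pf.C 0 0x3020a1c3448f) (Pf.C 2 1295)) (Pf.C 2 1551)) (Pf.C 2 1679)) (Pf.C 2 1807)) Pf.nil))) (Pf.C 2 782)) (Pf.C 2 1294)) (Pf.C 2 1550)) (Pf.C 2 1678)) Pf.nil))) (Pf.C 2 781)) (Pf.C 2 1293)) (Pf.C 2 1549)) Pf.nil))))) (Pf.C 2 140)) (Pf.C 2 268)) (Pf.C 2 780)) (Pf.C 2 1292)) Pf.nil)) (Pf.C 2 134)) (Pf.C 2 262)) (Pf.C 2 646)) (Pf.C 2 138)) (Pf.C 2 266)) (Pf.C 2 394)) (Pf.C 2 650)))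
 (Pq.cons (Pq.L [] 16384 (Pf.C 2 1418))
 (Pq.cons (Pq.L [] 16384 (Pf.C 2 1418))
 Pq.nil)))) Pq.nil)))) (Pq.cons (Pq.L [] 4 (Pf.C 2 1158))
 (Pq.cons (Pq.L [] 4 (Pf.C 2 1158))
 Pq.nil)))) (Pq.cons (Pq.L [] 2 (Pf.C 2 1030))
 (Pq.cons (Pq.L [] 2 (Pf.C 2 1030))
 Pq.nil)))) (Pq.cons (Pq.L [] 1 (Pf.C 2 902))
 (Pq.cons (Pq.L [] 1 (Pf.C 2 902))
 Pq.nil)))) Pq.nil)))) (Pq.cons (Pq.L [] 1 (Pf.C 1 902))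
 (Pq.cons (Pq.L [] 1 (Pf.C 2 902))
 Pq.nil)))
theorem bD_o28 : AllRef bD_T bD_G33 (applyObl bS113_T 3 [56,50,60] [1,2,2] []) :=
  chkPq_sound bD_o28c _ (by decide +kernel)
noncomputable def bD_o29c : Pq := (Pq.cons (Pq.D 0 (Pq.cons (Pq.D 1 (Pq.cons (Pq.L [] 1 (Pf.C 1 902))
 (Pq.cons (Pq.L [] 1 (Pf.C 1 902))
 (Pq.cons (Pq.L [] 1 (Pf.C 1 902))
 (Pq.cons (Pq.D 2 (Pq.cons (Pq.L [] 2 (Pf.C 1 1030))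
 (Pq.cons (Pq.L [] 2 (Pf.C 1 1030))
 (Pq.cons (Pq.L [] 2 (Pf.C 1 1030))
 (Pq.cons (Pq.D 3 (Pq.cons (Pq.L [] 4 (Pf.C 1 1158))
 (Pq.cons (Pq.L [] 4 (Pf.C 1 1158))
 (Pq.cons (Pq.L [] 4 (Pf.C 1 1158))
 (Pq.cons (Pq.D 4 (Pq.cons (Pq.D 5 (Pq.cons (Pq.L [] 16384 (Pf.C 1 1418))
 (Pq.cons (Pq.L [] 16384 (Pf.C 1 1418))
 (Pq.cons (Pq.L [] 16384 (Pf.C 1 1418))
 (Pq.cons (Pq.L [0,1,2,3,4,5] 32767 (Pf.B 11 5 (Pf.B 11 3 (Pf.B 11 2 (Pf.B 11 1 (Pf.B 9 5 (Pf.B 9 3 (Pf.B 9 2 (Pf.B 9 1 (Pf.B 8 5 (Pf.B 8 3 (Pf.B 8 2 (Pf.B 7 5 (Pf.B 7 3 (Pf.B 7 2 (Pf.B 7 1 (Pf.B 10 5 (Pf.B 10 3 (Pf.B 10 2 (Pf.B 10 1 (Pf.C 0 0x14203040400a) (Pf.C 0 0x45070a0c202)) (Pf.B 10 1 (Pf.C 0 0x85070a0c201) (Pf.B 6 2 (Pf.B 6 5 (Pf.C 0 0x85071214206)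 (Pf.B 6 3 (Pf.C 0 0x8507120c206) (Pf.B 6 1 (Pf.C 0 0x242070404506) (Pf.C 0 0x85010a0c309)))) (Pf.C 0 0x2c302101c509)))) (Pf.B 6 3 (Pf.B 10 2 (Pf.B 10 1 (Pf.C 0 0x14209040400a) (Pf.C 0 0x45031214202)) (Pf.B 10 1 (Pf.C 0 0x85031214201) (Pf.B 6 2 (Pf.B 6 5 (Pf.C 0 0x85031214206) (Pf.B 6 1 (Pf.C 0 0x242030404506) (Pf.C 0 0x85011614309))) (Pf.C 0 0x2c3020e0c509)))) (Pf.C 0 0x2c303101c509))) (Pf.B 6 5 (Pf.B 10 3 (Pf.B 6 3 (Pf.C 0 0x14507120c006) (Pf.B 10 2 (Pf.B 10 1 (Pf.B 6 2 (Pf.C 0 0x145071208006) (Pf.B 6 1 (Pf.C 0 0x145071204006) (Pf.C 0 0x24203040430a))) (Pf.C 0 0x4505120c202)) (Pf.B 10 1 (Pf.C 0 0x8505120c201) (Pf.B 6 2 (Pf.B 6 1 (Pf.C 0 0x142070404006) (Pf.C 0 0x8501160c309)) (Pf.C 0 0x14502160c309)))))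 (Pf.B 6 3 (Pf.B 10 2 (Pf.B 10 1 (Pf.B 6 2 (Pf.C 0 0x145031208006) (Pf.B 6 1 (Pf.C 0 0x145031204006) (Pf.C 0 0x2420b040430a))) (Pf.C 0 0x45031624202)) (Pf.B 10 1 (Pf.C 0 0x85031624201) (Pf.B 6 2 (Pf.B 6 1 (Pf.C 0 0x142030404006) (Pf.C 0 0x2c3010608509)) (Pf.C 0 0x2c3020a0c509)))) (Pf.C 0 0x2c3030e14509))) (Pf.C 0 0x2c305101c509))) (Pf.C 2 135)) (Pf.C 2 263)) (Pf.C 2 391)) (Pf.C 2 647)) (Pf.C 2 264)) (Pf.C 2 392)) (Pf.C 2 648)) (Pf.C 2 137)) (Pf.C 2 265)) (Pf.C 2 393)) (Pf.C 2 649)) (Pf.C 2 139)) (Pf.C 2 267)) (Pf.C 2 395)) (Pf.C 2 651)))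
 Pq.nil))))) (Pq.cons (Pq.D 5 (Pq.cons (Pq.L [] 16384 (Pf.C 1 1418))
 (Pq.cons (Pq.L [] 16384 (Pf.C 1 1418))
 (Pq.cons (Pq.L [] 16384 (Pf.C 1 1418))
 (Pq.cons (Pq.L [0,1,2,3,4,5] 32767 (Pf.B 11 5 (Pf.B 11 3 (Pf.B 11 2 (Pf.B 11 1 (Pf.B 9 5 (Pf.B 9 3 (Pf.B 9 2 (Pf.B 9 1 (Pf.B 8 5 (Pf.B 8 3 (Pf.B 8 2 (Pf.B 7 5 (Pf.B 7 3 (Pf.B 7 2 (Pf.B 7 1 (Pf.B 10 5 (Pf.B 10 3 (Pf.B 10 2 (Pf.B 10 1 (Pf.C 0 0x14203040400a) (Pf.C 0 0x45070a0c202)) (Pf.B 10 1 (Pf.C 0 0x85070a0c201) (Pf.B 6 2 (Pf.B 6 5 (Pf.C 0 0x85071214206) (Pf.B 6 3 (Pf.C 0 0x8507120c206) (Pf.B 6 1 (Pf.C 0 0x242070404506) (Pf.C 0 0x85010a0c309)))) (Pf.C 0 0x2c302101c509)))) (Pf.B 6 3 (Pf.B 10 2 (Pf.B 10 1 (Pf.C 0 0x14209040400a) (Pf.C 0 0x45031214202))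 (Pf.B 10 1 (Pf.C 0 0x85031214201) (Pf.B 6 2 (Pf.B 6 5 (Pf.C 0 0x85031214206) (Pf.B 6 1 (Pf.C 0 0x242030404506) (Pf.C 0 0x85011614309))) (Pf.C 0 0x2c3020e0c509)))) (Pf.C 0 0x2c303101c509))) (Pf.B 6 5 (Pf.B 10 3 (Pf.B 6 3 (Pf.C 0 0x14507120c006) (Pf.B 10 2 (Pf.B 10 1 (Pf.B 6 2 (Pf.C 0 0x145071208006) (Pf.B 6 1 (Pf.C 0 0x145071204006) (Pf.C 0 0x24203040430a))) (Pf.C 0 0x4505120c202)) (Pf.B 10 1 (Pf.C 0 0x8505120c201) (Pf.B 6 2 (Pf.B 6 1 (Pf.C 0 0x142070404006) (Pf.C 0 0x8501160c309)) (Pf.C 0 0x14502160c309))))) (Pf.B 6 3 (Pf.B 10 2 (Pf.B 10 1 (Pf.B 6 2 (Pf.C 0 0x145031208006) (Pf.B 6 1 (Pf.C 0 0x145031204006) (Pf.C 0 0x2420b040430a))) (Pf.C 0 0x45031624202)) (Pf.B 10 1 (Pf.C 0 0x85031624201) (Pf.B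 6 2 (Pf.B 6 1 (Pf.C 0 0x142030404006) (Pf.C 0 0x2c3010608509)) (Pf.C 0 0x2c3020a0c509)))) (Pf.C 0 0x2c3030e14509))) (Pf.C 0 0x2c305101c509))) (Pf.C 2 135)) (Pf.C 2 263)) (Pf.C 2 391)) (Pf.C 2 647)) (Pf.C 2 264)) (Pf.C 2 392)) (Pf.C 2 648)) (Pf.C 2 137)) (Pf.C 2 265)) (Pf.C 2 393)) (Pf.C 2 649)) (Pf.C 2 139)) (Pf.C 2 267)) (Pf.C 2 395)) (Pf.C 2 651)))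
 Pq.nil))))) (Pq.cons (Pq.D 5 (Pq.cons (Pq.L [] 16384 (Pf.C 1 1418))
 (Pq.cons (Pq.L [] 16384 (Pf.C 1 1418))
 (Pq.cons (Pq.L [] 16384 (Pf.C 1 1418))
 (Pq.cons (Pq.L [0,1,2,3,4,5] 32767 (Pf.B 11 5 (Pf.B 11 3 (Pf.B 11 2 (Pf.B 11 1 (Pf.B 9 5 (Pf.B 9 3 (Pf.B 9 2 (Pf.B 9 1 (Pf.B 8 5 (Pf.B 8 3 (Pf.B 8 2 (Pf.B 7 5 (Pf.B 7 3 (Pf.B 7 2 (Pf.B 7 1 (Pf.B 10 5 (Pf.B 10 3 (Pf.B 10 2 (Pf.B 10 1 (Pf.C 0 0x14203040400a) (Pf.C 0 0x45070a0c202)) (Pf.B 10 1 (Pf.C 0 0x85070a0c201) (Pf.B 6 2 (Pf.B 6 5 (Pf.C 0 0x85071214206) (Pf.B 6 3 (Pf.C 0 0x8507120c206) (Pf.B 6 1 (Pf.C 0 0x242070404506) (Pf.C 0 0x85010a0c309)))) (Pf.C 0 0x2c302101c509)))) (Pf.B 6 3 (Pf.B 10 2 (Pf.B 10 1 (Pf.C 0 0x14209040400a) (Pf.C 0 0x45031214202))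 (Pf.B 10 1 (Pf.C 0 0x85031214201) (Pf.B 6 2 (Pf.B 6 5 (Pf.C 0 0x85031214206) (Pf.B 6 1 (Pf.C 0 0x242030404506) (Pf.C 0 0x85011614309))) (Pf.C 0 0x2c3020e0c509)))) (Pf.C 0 0x2c303101c509))) (Pf.B 6 5 (Pf.B 10 3 (Pf.B 6 3 (Pf.C 0 0x14507120c006) (Pf.B 10 2 (Pf.B 10 1 (Pf.B 6 2 (Pf.C 0 0x145071208006) (Pf.B 6 1 (Pf.C 0 0x145071204006) (Pf.C 0 0x24203040430a))) (Pf.C 0 0x4505120c202)) (Pf.B 10 1 (Pf.C 0 0x8505120c201) (Pf.B 6 2 (Pf.B 6 1 (Pf.C 0 0x142070404006) (Pf.C 0 0x8501160c309)) (Pf.C 0 0x14502160c309))))) (Pf.B 6 3 (Pf.B 10 2 (Pf.B 10 1 (Pf.B 6 2 (Pf.C 0 0x145031208006) (Pf.B 6 1 (Pf.C 0 0x145031204006) (Pf.C 0 0x2420b040430a))) (Pf.C 0 0x45031624202)) (Pf.B 10 1 (Pf.C 0 0x85031624201) (Pf.B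 6 2 (Pf.B 6 1 (Pf.C 0 0x142030404006) (Pf.C 0 0x2c3010608509)) (Pf.C 0 0x2c3020a0c509)))) (Pf.C 0 0x2c3030e14509))) (Pf.C 0 0x2c305101c509))) (Pf.C 2 135)) (Pf.C 2 263)) (Pf.C 2 391)) (Pf.C 2 647)) (Pf.C 2 264)) (Pf.C 2 392)) (Pf.C 2 648)) (Pf.C 2 137)) (Pf.C 2 265)) (Pf.C 2 393)) (Pf.C 2 649)) (Pf.C 2 139)) (Pf.C 2 267)) (Pf.C 2 395)) (Pf.C 2 651)))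
 Pq.nil))))) (Pq.cons (Pq.L [] 4096 (Pf.C 2 1289))
 Pq.nil))))) Pq.nil))))) Pq.nil))))) Pq.nil))))) (Pq.cons (Pq.D 1 (Pq.cons (Pq.L [] 1 (Pf.C 1 902))
 (Pq.cons (Pq.L [] 1 (Pf.C 1 902))
 (Pq.cons (Pq.L [] 1 (Pf.C 1 902))
 (Pq.cons (Pq.D 2 (Pq.cons (Pq.L [] 2 (Pf.C 1 1030))
 (Pq.cons (Pq.L [] 2 (Pf.C 1 1030))
 (Pq.cons (Pq.L [] 2 (Pf.C 1 1030))
 (Pq.cons (Pq.D 3 (Pq.cons (Pq.L [] 4 (Pf.C 1 1158))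
 (Pq.cons (Pq.L [] 4 (Pf.C 1 1158))
 (Pq.cons (Pq.L [] 4 (Pf.C 1 1158))
 (Pq.cons (Pq.D 4 (Pq.cons (Pq.D 5 (Pq.cons (Pq.L [] 16384 (Pf.C 1 1418))
 (Pq.cons (Pq.L [] 16384 (Pf.C 1 1418))
 (Pq.cons (Pq.L [] 16384 (Pf.C 1 1418))
 (Pq.cons (Pq.L [0,1,2,3,4,5] 32767 (Pf.B 11 5 (Pf.B 11 3 (Pf.B 11 2 (Pf.B 11 1 (Pf.B 9 5 (Pf.B 9 3 (Pf.B 9 2 (Pf.B 9 1 (Pf.B 8 5 (Pf.B 8 3 (Pf.B 8 2 (Pf.B 7 5 (Pf.B 7 3 (Pf.B 7 2 (Pf.B 7 1 (Pf.B 10 5 (Pf.B 10 3 (Pf.B 10 2 (Pf.B 10 1 (Pf.C 0 0x14203040400a) (Pf.C 0 0x45070a0c202)) (Pf.B 10 1 (Pf.C 0 0x85070a0c201) (Pf.B 6 2 (Pf.B 6 5 (Pf.C 0 0x85071214206) (Pf.B 6 3 (Pf.C 0 0x8507120c206) (Pf.B 6 1 (Pf.C 0 0x242070404506) (Pf.C 0 0x85010a0c309)))) (Pf.C 0 0x2c302101c509))))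 (Pf.B 6 3 (Pf.B 10 2 (Pf.B 10 1 (Pf.C 0 0x14209040400a) (Pf.C 0 0x45031214202)) (Pf.B 10 1 (Pf.C 0 0x85031214201) (Pf.B 6 2 (Pf.B 6 5 (Pf.C 0 0x85031214206) (Pf.B 6 1 (Pf.C 0 0x242030404506) (Pf.C 0 0x85011614309))) (Pf.C 0 0x2c3020e0c509)))) (Pf.C 0 0x2c303101c509))) (Pf.B 6 5 (Pf.B 10 3 (Pf.B 6 3 (Pf.C 0 0x14507120c006) (Pf.B 10 2 (Pf.B 10 1 (Pf.B 6 2 (Pf.C 0 0x145071208006) (Pf.B 6 1 (Pf.C 0 0x145071204006) (Pf.C 0 0x24203040430a))) (Pf.C 0 0x4505120c202)) (Pf.B 10 1 (Pf.C 0 0x8505120c201) (Pf.B 6 2 (Pf.B 6 1 (Pf.C 0 0x142070404006) (Pf.C 0 0x8501160c309)) (Pf.C 0 0x14502160c309))))) (Pf.B 6 3 (Pf.B 10 2 (Pf.B 10 1 (Pf.B 6 2 (Pf.C 0 0x145031208006) (Pf.B 6 1 (Pf.C 0 0x145031204006) (Pf.C 0 0x2420b040430a)))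 (Pf.C 0 0x45031624202)) (Pf.B 10 1 (Pf.C 0 0x85031624201) (Pf.B 6 2 (Pf.B 6 1 (Pf.C 0 0x142030404006) (Pf.C 0 0x2c3010608509)) (Pf.C 0 0x2c3020a0c509)))) (Pf.C 0 0x2c3030e14509))) (Pf.C 0 0x2c305101c509))) (Pf.C 2 135)) (Pf.C 2 263)) (Pf.C 2 391)) (Pf.C 2 647)) (Pf.C 2 264)) (Pf.C 2 392)) (Pf.C 2 648)) (Pf.C 2 137)) (Pf.C 2 265)) (Pf.C 2 393)) (Pf.C 2 649)) (Pf.C 2 139)) (Pf.C 2 267)) (Pf.C 2 395)) (Pf.C 2 651)))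
 Pq.nil))))) (Pq.cons (Pq.D 5 (Pq.cons (Pq.L [] 16384 (Pf.C 1 1418))
 (Pq.cons (Pq.L [] 16384 (Pf.C 1 1418))
 (Pq.cons (Pq.L [] 16384 (Pf.C 1 1418))
 (Pq.cons (Pq.L [0,1,2,3,4,5] 32767 (Pf.B 11 5 (Pf.B 11 3 (Pf.B 11 2 (Pf.B 11 1 (Pf.B 9 5 (Pf.B 9 3 (Pf.B 9 2 (Pf.B 9 1 (Pf.B 8 5 (Pf.B 8 3 (Pf.B 8 2 (Pf.B 7 5 (Pf.B 7 3 (Pf.B 7 2 (Pf.B 7 1 (Pf.B 10 5 (Pf.B 10 3 (Pf.B 10 2 (Pf.B 10 1 (Pf.C 0 0x14203040400a) (Pf.C 0 0x45070a0c202)) (Pf.B 10 1 (Pf.C 0 0x85070a0c201) (Pf.B 6 2 (Pf.B 6 5 (Pf.C 0 0x85071214206) (Pf.B 6 3 (Pf.C 0 0x8507120c206) (Pf.B 6 1 (Pf.C 0 0x242070404506) (Pf.C 0 0x85010a0c309)))) (Pf.C 0 0x2c302101c509)))) (Pf.B 6 3 (Pf.B 10 2 (Pf.B 10 1 (Pf.C 0 0x14209040400a) (Pf.C 0 0x45031214202))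 (Pf.B 10 1 (Pf.C 0 0x85031214201) (Pf.B 6 2 (Pf.B 6 5 (Pf.C 0 0x85031214206) (Pf.B 6 1 (Pf.C 0 0x242030404506) (Pf.C 0 0x85011614309))) (Pf.C 0 0x2c3020e0c509)))) (Pf.C 0 0x2c303101c509))) (Pf.B 6 5 (Pf.B 10 3 (Pf.B 6 3 (Pf.C 0 0x14507120c006) (Pf.B 10 2 (Pf.B 10 1 (Pf.B 6 2 (Pf.C 0 0x145071208006) (Pf.B 6 1 (Pf.C 0 0x145071204006) (Pf.C 0 0x24203040430a))) (Pf.C 0 0x4505120c202)) (Pf.B 10 1 (Pf.C 0 0x8505120c201) (Pf.B 6 2 (Pf.B 6 1 (Pf.C 0 0x142070404006) (Pf.C 0 0x8501160c309)) (Pf.C 0 0x14502160c309))))) (Pf.B 6 3 (Pf.B 10 2 (Pf.B 10 1 (Pf.B 6 2 (Pf.C 0 0x145031208006) (Pf.B 6 1 (Pf.C 0 0x145031204006) (Pf.C 0 0x2420b040430a))) (Pf.C 0 0x45031624202)) (Pf.B 10 1 (Pf.C 0 0x85031624201) (Pf.B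 6 2 (Pf.B 6 1 (Pf.C 0 0x142030404006) (Pf.C 0 0x2c3010608509)) (Pf.C 0 0x2c3020a0c509)))) (Pf.C 0 0x2c3030e14509))) (Pf.C 0 0x2c305101c509))) (Pf.C 2 135)) (Pf.C 2 263)) (Pf.C 2 391)) (Pf.C 2 647)) (Pf.C 2 264)) (Pf.C 2 392)) (Pf.C 2 648)) (Pf.C 2 137)) (Pf.C 2 265)) (Pf.C 2 393)) (Pf.C 2 649)) (Pf.C 2 139)) (Pf.C 2 267)) (Pf.C 2 395)) (Pf.C 2 651)))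
 Pq.nil))))) (Pq.cons (Pq.D 5 (Pq.cons (Pq.L [] 16384 (Pf.C 1 1418))
 (Pq.cons (Pq.L [] 16384 (Pf.C 1 1418))
 (Pq.cons (Pq.L [] 16384 (Pf.C 1 1418))
 (Pq.cons (Pq.L [0,1,2,3,4,5] 32767 (Pf.B 11 5 (Pf.B 11 3 (Pf.B 11 2 (Pf.B 11 1 (Pf.B 9 5 (Pf.B 9 3 (Pf.B 9 2 (Pf.B 9 1 (Pf.B 8 5 (Pf.B 8 3 (Pf.B 8 2 (Pf.B 7 5 (Pf.B 7 3 (Pf.B 7 2 (Pf.B 7 1 (Pf.B 10 5 (Pf.B 10 3 (Pf.B 10 2 (Pf.B 10 1 (Pf.C 0 0x14203040400a) (Pf.C 0 0x45070a0c202)) (Pf.B 10 1 (Pf.C 0 0x85070a0c201) (Pf.B 6 2 (Pf.B 6 5 (Pf.C 0 0x85071214206) (Pf.B 6 3 (Pf.C 0 0x8507120c206) (Pf.B 6 1 (Pf.C 0 0x242070404506) (Pf.C 0 0x85010a0c309)))) (Pf.C 0 0x2c302101c509)))) (Pf.B 6 3 (Pf.B 10 2 (Pf.B 10 1 (Pf.C 0 0x14209040400a) (Pf.C 0 0x45031214202))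 (Pf.B 10 1 (Pf.C 0 0x85031214201) (Pf.B 6 2 (Pf.B 6 5 (Pf.C 0 0x85031214206) (Pf.B 6 1 (Pf.C 0 0x242030404506) (Pf.C 0 0x85011614309))) (Pf.C 0 0x2c3020e0c509)))) (Pf.C 0 0x2c303101c509))) (Pf.B 6 5 (Pf.B 10 3 (Pf.B 6 3 (Pf.C 0 0x14507120c006) (Pf.B 10 2 (Pf.B 10 1 (Pf.B 6 2 (Pf.C 0 0x145071208006) (Pf.B 6 1 (Pf.C 0 0x145071204006) (Pf.C 0 0x24203040430a))) (Pf.C 0 0x4505120c202)) (Pf.B 10 1 (Pf.C 0 0x8505120c201) (Pf.B 6 2 (Pf.B 6 1 (Pf.C 0 0x142070404006) (Pf.C 0 0x8501160c309)) (Pf.C 0 0x14502160c309))))) (Pf.B 6 3 (Pf.B 10 2 (Pf.B 10 1 (Pf.B 6 2 (Pf.C 0 0x145031208006) (Pf.B 6 1 (Pf.C 0 0x145031204006) (Pf.C 0 0x2420b040430a))) (Pf.C 0 0x45031624202)) (Pf.B 10 1 (Pf.C 0 0x85031624201) (Pf.B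 6 2 (Pf.B 6 1 (Pf.C 0 0x142030404006) (Pf.C 0 0x2c3010608509)) (Pf.C 0 0x2c3020a0c509)))) (Pf.C 0 0x2c3030e14509))) (Pf.C 0 0x2c305101c509))) (Pf.C 2 135)) (Pf.C 2 263)) (Pf.C 2 391)) (Pf.C 2 647)) (Pf.C 2 264)) (Pf.C 2 392)) (Pf.C 2 648)) (Pf.C 2 137)) (Pf.C 2 265)) (Pf.C 2 393)) (Pf.C 2 649)) (Pf.C 2 139)) (Pf.C 2 267)) (Pf.C 2 395)) (Pf.C 2 651)))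
 Pq.nil))))) (Pq.cons (Pq.L [] 4096 (Pf.C 2 1289))
 Pq.nil))))) Pq.nil))))) Pq.nil))))) Pq.nil))))) (Pq.cons (Pq.D 1 (Pq.cons (Pq.L [] 1 (Pf.C 1 902))
 (Pq.cons (Pq.L [] 1 (Pf.C 1 902))
 (Pq.cons (Pq.L [] 1 (Pf.C 1 902))
 (Pq.cons (Pq.D 2 (Pq.cons (Pq.L [] 2 (Pf.C 1 1030))
 (Pq.cons (Pq.L [] 2 (Pf.C 1 1030))
 (Pq.cons (Pq.L [] 2 (Pf.C 1 1030))
 (Pq.cons (Pq.D 3 (Pq.cons (Pq.L [] 4 (Pf.C 1 1158))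
 (Pq.cons (Pq.L [] 4 (Pf.C 1 1158))
 (Pq.cons (Pq.L [] 4 (Pf.C 1 1158))
 (Pq.cons (Pq.D 4 (Pq.cons (Pq.D 5 (Pq.cons (Pq.L [] 16384 (Pf.C 1 1418))
 (Pq.cons (Pq.L [] 16384 (Pf.C 1 1418))
 (Pq.cons (Pq.L [] 16384 (Pf.C 1 1418))
 (Pq.cons (Pq.L [0,1,2,3,4,5] 32767 (Pf.B 11 5 (Pf.B 11 3 (Pf.B 11 2 (Pf.B 11 1 (Pf.B 9 5 (Pf.B 9 3 (Pf.B 9 2 (Pf.B 9 1 (Pf.B 8 5 (Pf.B 8 3 (Pf.B 8 2 (Pf.B 7 5 (Pf.B 7 3 (Pf.B 7 2 (Pf.B 7 1 (Pf.B 10 5 (Pf.B 10 3 (Pf.B 10 2 (Pf.B 10 1 (Pf.C 0 0x14203040400a) (Pf.C 0 0x45070a0c202)) (Pf.B 10 1 (Pf.C 0 0x85070a0c201) (Pf.B 6 2 (Pf.B 6 5 (Pf.C 0 0x85071214206) (Pf.B 6 3 (Pf.C 0 0x8507120c206) (Pf.B 6 1 (Pf.C 0 0x242070404506) (Pf.C 0 0x85010a0c309)))) (Pf.C 0 0x2c302101c509))))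 (Pf.B 6 3 (Pf.B 10 2 (Pf.B 10 1 (Pf.C 0 0x14209040400a) (Pf.C 0 0x45031214202)) (Pf.B 10 1 (Pf.C 0 0x85031214201) (Pf.B 6 2 (Pf.B 6 5 (Pf.C 0 0x85031214206) (Pf.B 6 1 (Pf.C 0 0x242030404506) (Pf.C 0 0x85011614309))) (Pf.C 0 0x2c3020e0c509)))) (Pf.C 0 0x2c303101c509))) (Pf.B 6 5 (Pf.B 10 3 (Pf.B 6 3 (Pf.C 0 0x14507120c006) (Pf.B 10 2 (Pf.B 10 1 (Pf.B 6 2 (Pf.C 0 0x145071208006) (Pf.B 6 1 (Pf.C 0 0x145071204006) (Pf.C 0 0x24203040430a))) (Pf.C 0 0x4505120c202)) (Pf.B 10 1 (Pf.C 0 0x8505120c201) (Pf.B 6 2 (Pf.B 6 1 (Pf.C 0 0x142070404006) (Pf.C 0 0x8501160c309)) (Pf.C 0 0x14502160c309))))) (Pf.B 6 3 (Pf.B 10 2 (Pf.B 10 1 (Pf.B 6 2 (Pf.C 0 0x145031208006) (Pf.B 6 1 (Pf.C 0 0x145031204006) (Pf.C 0 0x2420b040430a)))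 (Pf.C 0 0x45031624202)) (Pf.B 10 1 (Pf.C 0 0x85031624201) (Pf.B 6 2 (Pf.B 6 1 (Pf.C 0 0x142030404006) (Pf.C 0 0x2c3010608509)) (Pf.C 0 0x2c3020a0c509)))) (Pf.C 0 0x2c3030e14509))) (Pf.C 0 0x2c305101c509))) (Pf.C 2 135)) (Pf.C 2 263)) (Pf.C 2 391)) (Pf.C 2 647)) (Pf.C 2 264)) (Pf.C 2 392)) (Pf.C 2 648)) (Pf.C 2 137)) (Pf.C 2 265)) (Pf.C 2 393)) (Pf.C 2 649)) (Pf.C 2 139)) (Pf.C 2 267)) (Pf.C 2 395)) (Pf.C 2 651)))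
 Pq.nil))))) (Pq.cons (Pq.D 5 (Pq.cons (Pq.L [] 16384 (Pf.C 1 1418))
 (Pq.cons (Pq.L [] 16384 (Pf.C 1 1418))
 (Pq.cons (Pq.L [] 16384 (Pf.C 1 1418))
 (Pq.cons (Pq.L [0,1,2,3,4,5] 32767 (Pf.B 11 5 (Pf.B 11 3 (Pf.B 11 2 (Pf.B 11 1 (Pf.B 9 5 (Pf.B 9 3 (Pf.B 9 2 (Pf.B 9 1 (Pf.B 8 5 (Pf.B 8 3 (Pf.B 8 2 (Pf.B 7 5 (Pf.B 7 3 (Pf.B 7 2 (Pf.B 7 1 (Pf.B 10 5 (Pf.B 10 3 (Pf.B 10 2 (Pf.B 10 1 (Pf.C 0 0x14203040400a) (Pf.C 0 0x45070a0c202)) (Pf.B 10 1 (Pf.C 0 0x85070a0c201) (Pf.B 6 2 (Pf.B 6 5 (Pf.C 0 0x85071214206) (Pf.B 6 3 (Pf.C 0 0x8507120c206) (Pf.B 6 1 (Pf.C 0 0x242070404506) (Pf.C 0 0x85010a0c309)))) (Pf.C 0 0x2c302101c509)))) (Pf.B 6 3 (Pf.B 10 2 (Pf.B 10 1 (Pf.C 0 0x14209040400a) (Pf.C 0 0x45031214202))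 (Pf.B 10 1 (Pf.C 0 0x85031214201) (Pf.B 6 2 (Pf.B 6 5 (Pf.C 0 0x85031214206) (Pf.B 6 1 (Pf.C 0 0x242030404506) (Pf.C 0 0x85011614309))) (Pf.C 0 0x2c3020e0c509)))) (Pf.C 0 0x2c303101c509))) (Pf.B 6 5 (Pf.B 10 3 (Pf.B 6 3 (Pf.C 0 0x14507120c006) (Pf.B 10 2 (Pf.B 10 1 (Pf.B 6 2 (Pf.C 0 0x145071208006) (Pf.B 6 1 (Pf.C 0 0x145071204006) (Pf.C 0 0x24203040430a))) (Pf.C 0 0x4505120c202)) (Pf.B 10 1 (Pf.C 0 0x8505120c201) (Pf.B 6 2 (Pf.B 6 1 (Pf.C 0 0x142070404006) (Pf.C 0 0x8501160c309)) (Pf.C 0 0x14502160c309))))) (Pf.B 6 3 (Pf.B 10 2 (Pf.B 10 1 (Pf.B 6 2 (Pf.C 0 0x145031208006) (Pf.B 6 1 (Pf.C 0 0x145031204006) (Pf.C 0 0x2420b040430a))) (Pf.C 0 0x45031624202)) (Pf.B 10 1 (Pf.C 0 0x85031624201) (Pf.B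 6 2 (Pf.B 6 1 (Pf.C 0 0x142030404006) (Pf.C 0 0x2c3010608509)) (Pf.C 0 0x2c3020a0c509)))) (Pf.C 0 0x2c3030e14509))) (Pf.C 0 0x2c305101c509))) (Pf.C 2 135)) (Pf.C 2 263)) (Pf.C 2 391)) (Pf.C 2 647)) (Pf.C 2 264)) (Pf.C 2 392)) (Pf.C 2 648)) (Pf.C 2 137)) (Pf.C 2 265)) (Pf.C 2 393)) (Pf.C 2 649)) (Pf.C 2 139)) (Pf.C 2 267)) (Pf.C 2 395)) (Pf.C 2 651)))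
 Pq.nil))))) (Pq.cons (Pq.D 5 (Pq.cons (Pq.L [] 16384 (Pf.C 1 1418))
 (Pq.cons (Pq.L [] 16384 (Pf.C 1 1418))
 (Pq.cons (Pq.L [] 16384 (Pf.C 1 1418))
 (Pq.cons (Pq.L [0,1,2,3,4,5] 32767 (Pf.B 11 5 (Pf.B 11 3 (Pf.B 11 2 (Pf.B 11 1 (Pf.B 9 5 (Pf.B 9 3 (Pf.B 9 2 (Pf.B 9 1 (Pf.B 8 5 (Pf.B 8 3 (Pf.B 8 2 (Pf.B 7 5 (Pf.B 7 3 (Pf.B 7 2 (Pf.B 7 1 (Pf.B 10 5 (Pf.B 10 3 (Pf.B 10 2 (Pf.B 10 1 (Pf.C 0 0x14203040400a) (Pf.C 0 0x45070a0c202)) (Pf.B 10 1 (Pf.C 0 0x85070a0c201) (Pf.B 6 2 (Pf.B 6 5 (Pf.C 0 0x85071214206) (Pf.B 6 3 (Pf.C 0 0x8507120c206) (Pf.B 6 1 (Pf.C 0 0x242070404506) (Pf.C 0 0x85010a0c309)))) (Pf.C 0 0x2c302101c509)))) (Pf.B 6 3 (Pf.B 10 2 (Pf.B 10 1 (Pf.C 0 0x14209040400a) (Pf.C 0 0x45031214202))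 (Pf.B 10 1 (Pf.C 0 0x85031214201) (Pf.B 6 2 (Pf.B 6 5 (Pf.C 0 0x85031214206) (Pf.B 6 1 (Pf.C 0 0x242030404506) (Pf.C 0 0x85011614309))) (Pf.C 0 0x2c3020e0c509)))) (Pf.C 0 0x2c303101c509))) (Pf.B 6 5 (Pf.B 10 3 (Pf.B 6 3 (Pf.C 0 0x14507120c006) (Pf.B 10 2 (Pf.B 10 1 (Pf.B 6 2 (Pf.C 0 0x145071208006) (Pf.B 6 1 (Pf.C 0 0x145071204006) (Pf.C 0 0x24203040430a))) (Pf.C 0 0x4505120c202)) (Pf.B 10 1 (Pf.C 0 0x8505120c201) (Pf.B 6 2 (Pf.B 6 1 (Pf.C 0 0x142070404006) (Pf.C 0 0x8501160c309)) (Pf.C 0 0x14502160c309))))) (Pf.B 6 3 (Pf.B 10 2 (Pf.B 10 1 (Pf.B 6 2 (Pf.C 0 0x145031208006) (Pf.B 6 1 (Pf.C 0 0x145031204006) (Pf.C 0 0x2420b040430a))) (Pf.C 0 0x45031624202)) (Pf.B 10 1 (Pf.C 0 0x85031624201) (Pf.B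 6 2 (Pf.B 6 1 (Pf.C 0 0x142030404006) (Pf.C 0 0x2c3010608509)) (Pf.C 0 0x2c3020a0c509)))) (Pf.C 0 0x2c3030e14509))) (Pf.C 0 0x2c305101c509))) (Pf.C 2 135)) (Pf.C 2 263)) (Pf.C 2 391)) (Pf.C 2 647)) (Pf.C 2 264)) (Pf.C 2 392)) (Pf.C 2 648)) (Pf.C 2 137)) (Pf.C 2 265)) (Pf.C 2 393)) (Pf.C 2 649)) (Pf.C 2 139)) (Pf.C 2 267)) (Pf.C 2 395)) (Pf.C 2 651)))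
 Pq.nil))))) (Pq.cons (Pq.L [] 4096 (Pf.C 2 1289))
 Pq.nil))))) Pq.nil))))) Pq.nil))))) Pq.nil))))) (Pq.cons (Pq.D 1 (Pq.cons (Pq.D 2 (Pq.cons (Pq.D 3 (Pq.cons (Pq.D 4 (Pq.cons (Pq.L [] 4096 (Pf.C 1 1289))
 (Pq.cons (Pq.L [] 4096 (Pf.C 1 1289))
 (Pq.cons (Pq.L [] 4096 (Pf.C 1 1289))
 (Pq.cons (Pq.D 5 (Pq.cons (Pq.L [0] 32767 (Pf.C 0 0x2c300101c509))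
 (Pq.cons (Pq.L [0] 32767 (Pf.C 0 0x2c300101c509))
 (Pq.cons (Pq.L [0] 32767 (Pf.C 0 0x2c300101c509))
 (Pq.cons (Pq.L [] 16384 (Pf.C 2 1418))
 Pq.nil))))) Pq.nil))))) (Pq.cons (Pq.D 4 (Pq.cons (Pq.L [] 4096 (Pf.C 1 1289))
 (Pq.cons (Pq.L [] 4096 (Pf.C 1 1289))
 (Pq.cons (Pq.L [] 4096 (Pf.C 1 1289))
 (Pq.cons (Pq.D 5 (Pq.cons (Pq.L [0] 32767 (Pf.C 0 0x2c300101c509))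
 (Pq.cons (Pq.L [0] 32767 (Pf.C 0 0x2c300101c509))
 (Pq.cons (Pq.L [0] 32767 (Pf.C 0 0x2c300101c509))
 (Pq.cons (Pq.L [] 16384 (Pf.C 2 1418))
 Pq.nil))))) Pq.nil))))) (Pq.cons (Pq.D 4 (Pq.cons (Pq.L [] 4096 (Pf.C 1 1289))
 (Pq.cons (Pq.L [] 4096 (Pf.C 1 1289))
 (Pq.cons (Pq.L [] 4096 (Pf.C 1 1289))
 (Pq.cons (Pq.D 5 (Pq.cons (Pq.L [0] 32767 (Pf.C 0 0x2c300101c509))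
 (Pq.cons (Pq.L [0] 32767 (Pf.C 0 0x2c300101c509))
 (Pq.cons (Pq.L [0] 32767 (Pf.C 0 0x2c300101c509))
 (Pq.cons (Pq.L [] 16384 (Pf.C 2 1418))
 Pq.nil))))) Pq.nil))))) (Pq.cons (Pq.L [] 4 (Pf.C 2 1158))
 Pq.nil))))) (Pq.cons (Pq.D 3 (Pq.cons (Pq.D 4 (Pq.cons (Pq.L [] 4096 (Pf.C 1 1289))
 (Pq.cons (Pq.L [] 4096 (Pf.C 1 1289))
 (Pq.cons (Pq.L [] 4096 (Pf.C 1 1289))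
 (Pq.cons (Pq.D 5 (Pq.cons (Pq.L [0] 32767 (Pf.C 0 0x2c300101c509))
 (Pq.cons (Pq.L [0] 32767 (Pf.C 0 0x2c300101c509))
 (Pq.cons (Pq.L [0] 32767 (Pf.C 0 0x2c300101c509))
 (Pq.cons (Pq.L [] 16384 (Pf.C 2 1418))
 Pq.nil))))) Pq.nil))))) (Pq.cons (Pq.D 4 (Pq.cons (Pq.L [] 4096 (Pf.C 1 1289))
 (Pq.cons (Pq.L [] 4096 (Pf.C 1 1289))
 (Pq.cons (Pq.L [] 4096 (Pf.C 1 1289))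
 (Pq.cons (Pq.D 5 (Pq.cons (Pq.L [0] 32767 (Pf.C 0 0x2c300101c509))
 (Pq.cons (Pq.L [0] 32767 (Pf.C 0 0x2c300101c509))
 (Pq.cons (Pq.L [0] 32767 (Pf.C 0 0x2c300101c509))
 (Pq.cons (Pq.L [] 16384 (Pf.C 2 1418))
 Pq.nil))))) Pq.nil))))) (Pq.cons (Pq.D 4 (Pq.cons (Pq.L [] 4096 (Pf.C 1 1289))
 (Pq.cons (Pq.L [] 4096 (Pf.C 1 1289))
 (Pq.cons (Pq.L [] 4096 (Pf.C 1 1289))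
 (Pq.cons (Pq.D 5 (Pq.cons (Pq.L [0] 32767 (Pf.C 0 0x2c300101c509))
 (Pq.cons (Pq.L [0] 32767 (Pf.C 0 0x2c300101c509))
 (Pq.cons (Pq.L [0] 32767 (Pf.C 0 0x2c300101c509))
 (Pq.cons (Pq.L [] 16384 (Pf.C 2 1418))
 Pq.nil))))) Pq.nil))))) (Pq.cons (Pq.L [] 4 (Pf.C 2 1158))
 Pq.nil))))) (Pq.cons (Pq.D 3 (Pq.cons (Pq.D 4 (Pq.cons (Pq.L [] 4096 (Pf.C 1 1289))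
 (Pq.cons (Pq.L [] 4096 (Pf.C 1 1289))
 (Pq.cons (Pq.L [] 4096 (Pf.C 1 1289))
 (Pq.cons (Pq.D 5 (Pq.cons (Pq.L [0] 32767 (Pf.C 0 0x2c300101c509))
 (Pq.cons (Pq.L [0] 32767 (Pf.C 0 0x2c300101c509))
 (Pq.cons (Pq.L [0] 32767 (Pf.C 0 0x2c300101c509))
 (Pq.cons (Pq.L [] 16384 (Pf.C 2 1418))
 Pq.nil))))) Pq.nil))))) (Pq.cons (Pq.D 4 (Pq.cons (Pq.L [] 4096 (Pf.C 1 1289))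
 (Pq.cons (Pq.L [] 4096 (Pf.C 1 1289))
 (Pq.cons (Pq.L [] 4096 (Pf.C 1 1289))
 (Pq.cons (Pq.D 5 (Pq.cons (Pq.L [0] 32767 (Pf.C 0 0x2c300101c509))
 (Pq.cons (Pq.L [0] 32767 (Pf.C 0 0x2c300101c509))
 (Pq.cons (Pq.L [0] 32767 (Pf.C 0 0x2c300101c509))
 (Pq.cons (Pq.L [] 16384 (Pf.C 2 1418))
 Pq.nil))))) Pq.nil))))) (Pq.cons (Pq.D 4 (Pq.cons (Pq.L [] 4096 (Pf.C 1 1289))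
 (Pq.cons (Pq.L [] 4096 (Pf.C 1 1289))
 (Pq.cons (Pq.L [] 4096 (Pf.C 1 1289))
 (Pq.cons (Pq.D 5 (Pq.cons (Pq.L [0] 32767 (Pf.C 0 0x2c300101c509))
 (Pq.cons (Pq.L [0] 32767 (Pf.C 0 0x2c300101c509))
 (Pq.cons (Pq.L [0] 32767 (Pf.C 0 0x2c300101c509))
 (Pq.cons (Pq.L [] 16384 (Pf.C 2 1418))
 Pq.nil))))) Pq.nil))))) (Pq.cons (Pq.L [] 4 (Pf.C 2 1158))
 Pq.nil))))) (Pq.cons (Pq.L [] 2 (Pf.C 2 1030))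
 Pq.nil))))) (Pq.cons (Pq.D 2 (Pq.cons (Pq.D 3 (Pq.cons (Pq.D 4 (Pq.cons (Pq.L [] 4096 (Pf.C 1 1289))
 (Pq.cons (Pq.L [] 4096 (Pf.C 1 1289))
 (Pq.cons (Pq.L [] 4096 (Pf.C 1 1289))
 (Pq.cons (Pq.D 5 (Pq.cons (Pq.L [0] 32767 (Pf.C 0 0x2c300101c509))
 (Pq.cons (Pq.L [0] 32767 (Pf.C 0 0x2c300101c509))
 (Pq.cons (Pq.L [0] 32767 (Pf.C 0 0x2c300101c509))
 (Pq.cons (Pq.L [] 16384 (Pf.C 2 1418))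
 Pq.nil))))) Pq.nil))))) (Pq.cons (Pq.D 4 (Pq.cons (Pq.L [] 4096 (Pf.C 1 1289))
 (Pq.cons (Pq.L [] 4096 (Pf.C 1 1289))
 (Pq.cons (Pq.L [] 4096 (Pf.C 1 1289))
 (Pq.cons (Pq.D 5 (Pq.cons (Pq.L [0] 32767 (Pf.C 0 0x2c300101c509))
 (Pq.cons (Pq.L [0] 32767 (Pf.C 0 0x2c300101c509))
 (Pq.cons (Pq.L [0] 32767 (Pf.C 0 0x2c300101c509))
 (Pq.cons (Pq.L [] 16384 (Pf.C 2 1418))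
 Pq.nil))))) Pq.nil))))) (Pq.cons (Pq.D 4 (Pq.cons (Pq.L [] 4096 (Pf.C 1 1289))
 (Pq.cons (Pq.L [] 4096 (Pf.C 1 1289))
 (Pq.cons (Pq.L [] 4096 (Pf.C 1 1289))
 (Pq.cons (Pq.D 5 (Pq.cons (Pq.L [0] 32767 (Pf.C 0 0x2c300101c509))
 (Pq.cons (Pq.L [0] 32767 (Pf.C 0 0x2c300101c509))
 (Pq.cons (Pq.L [0] 32767 (Pf.C 0 0x2c300101c509))
 (Pq.cons (Pq.L [] 16384 (Pf.C 2 1418))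
 Pq.nil))))) Pq.nil))))) (Pq.cons (Pq.L [] 4 (Pf.C 2 1158))
 Pq.nil))))) (Pq.cons (Pq.D 3 (Pq.cons (Pq.D 4 (Pq.cons (Pq.L [] 4096 (Pf.C 1 1289))
 (Pq.cons (Pq.L [] 4096 (Pf.C 1 1289))
 (Pq.cons (Pq.L [] 4096 (Pf.C 1 1289))
 (Pq.cons (Pq.D 5 (Pq.cons (Pq.L [0] 32767 (Pf.C 0 0x2c300101c509))
 (Pq.cons (Pq.L [0] 32767 (Pf.C 0 0x2c300101c509))
 (Pq.cons (Pq.L [0] 32767 (Pf.C 0 0x2c300101c509))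
 (Pq.cons (Pq.L [] 16384 (Pf.C 2 1418))
 Pq.nil))))) Pq.nil))))) (Pq.cons (Pq.D 4 (Pq.cons (Pq.L [] 4096 (Pf.C 1 1289))
 (Pq.cons (Pq.L [] 4096 (Pf.C 1 1289))
 (Pq.cons (Pq.L [] 4096 (Pf.C 1 1289))
 (Pq.cons (Pq.D 5 (Pq.cons (Pq.L [0] 32767 (Pf.C 0 0x2c300101c509))
 (Pq.cons (Pq.L [0] 32767 (Pf.C 0 0x2c300101c509))
 (Pq.cons (Pq.L [0] 32767 (Pf.C 0 0x2c300101c509))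
 (Pq.cons (Pq.L [] 16384 (Pf.C 2 1418))
 Pq.nil))))) Pq.nil))))) (Pq.cons (Pq.D 4 (Pq.cons (Pq.L [] 4096 (Pf.C 1 1289))
 (Pq.cons (Pq.L [] 4096 (Pf.C 1 1289))
 (Pq.cons (Pq.L [] 4096 (Pf.C 1 1289))
 (Pq.cons (Pq.D 5 (Pq.cons (Pq.L [0] 32767 (Pf.C 0 0x2c300101c509))
 (Pq.cons (Pq.L [0] 32767 (Pf.C 0 0x2c300101c509))
 (Pq.cons (Pq.L [0] 32767 (Pf.C 0 0x2c300101c509))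
 (Pq.cons (Pq.L [] 16384 (Pf.C 2 1418))
 Pq.nil))))) Pq.nil))))) (Pq.cons (Pq.L [] 4 (Pf.C 2 1158))
 Pq.nil))))) (Pq.cons (Pq.D 3 (Pq.cons (Pq.D 4 (Pq.cons (Pq.L [] 4096 (Pf.C 1 1289))
 (Pq.cons (Pq.L [] 4096 (Pf.C 1 1289))
 (Pq.cons (Pq.L [] 4096 (Pf.C 1 1289))
 (Pq.cons (Pq.D 5 (Pq.cons (Pq.L [0] 32767 (Pf.C 0 0x2c300101c509))
 (Pq.cons (Pq.L [0] 32767 (Pf.C 0 0x2c300101c509))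
 (Pq.cons (Pq.L [0] 32767 (Pf.C 0 0x2c300101c509))
 (Pq.cons (Pq.L [] 16384 (Pf.C 2 1418))
 Pq.nil))))) Pq.nil))))) (Pq.cons (Pq.D 4 (Pq.cons (Pq.L [] 4096 (Pf.C 1 1289))
 (Pq.cons (Pq.L [] 4096 (Pf.C 1 1289))
 (Pq.cons (Pq.L [] 4096 (Pf.C 1 1289))
 (Pq.cons (Pq.D 5 (Pq.cons (Pq.L [0] 32767 (Pf.C 0 0x2c300101c509))
 (Pq.cons (Pq.L [0] 32767 (Pf.C 0 0x2c300101c509))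
 (Pq.cons (Pq.L [0] 32767 (Pf.C 0 0x2c300101c509))
 (Pq.cons (Pq.L [] 16384 (Pf.C 2 1418))
 Pq.nil))))) Pq.nil))))) (Pq.cons (Pq.D 4 (Pq.cons (Pq.L [] 4096 (Pf.C 1 1289))
 (Pq.cons (Pq.L [] 4096 (Pf.C 1 1289))
 (Pq.cons (Pq.L [] 4096 (Pf.C 1 1289))
 (Pq.cons (Pq.D 5 (Pq.cons (Pq.L [0] 32767 (Pf.C 0 0x2c300101c509))
 (Pq.cons (Pq.L [0] 32767 (Pf.C 0 0x2c300101c509))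
 (Pq.cons (Pq.L [0] 32767 (Pf.C 0 0x2c300101c509))
 (Pq.cons (Pq.L [] 16384 (Pf.C 2 1418))
 Pq.nil))))) Pq.nil))))) (Pq.cons (Pq.L [] 4 (Pf.C 2 1158))
 Pq.nil))))) (Pq.cons (Pq.L [] 2 (Pf.C 2 1030))
 Pq.nil))))) (Pq.cons (Pq.D 2 (Pq.cons (Pq.D 3 (Pq.cons (Pq.D 4 (Pq.cons (Pq.L [] 4096 (Pf.C 1 1289))
 (Pq.cons (Pq.L [] 4096 (Pf.C 1 1289))
 (Pq.cons (Pq.L [] 4096 (Pf.C 1 1289))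
 (Pq.cons (Pq.D 5 (Pq.cons (Pq.L [0] 32767 (Pf.C 0 0x2c300101c509))
 (Pq.cons (Pq.L [0] 32767 (Pf.C 0 0x2c300101c509))
 (Pq.cons (Pq.L [0] 32767 (Pf.C 0 0x2c300101c509))
 (Pq.cons (Pq.L [] 16384 (Pf.C 2 1418))
 Pq.nil))))) Pq.nil))))) (Pq.cons (Pq.D 4 (Pq.cons (Pq.L [] 4096 (Pf.C 1 1289))
 (Pq.cons (Pq.L [] 4096 (Pf.C 1 1289))
 (Pq.cons (Pq.L [] 4096 (Pf.C 1 1289))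
 (Pq.cons (Pq.D 5 (Pq.cons (Pq.L [0] 32767 (Pf.C 0 0x2c300101c509))
 (Pq.cons (Pq.L [0] 32767 (Pf.C 0 0x2c300101c509))
 (Pq.cons (Pq.L [0] 32767 (Pf.C 0 0x2c300101c509))
 (Pq.cons (Pq.L [] 16384 (Pf.C 2 1418))
 Pq.nil))))) Pq.nil))))) (Pq.cons (Pq.D 4 (Pq.cons (Pq.L [] 4096 (Pf.C 1 1289))
 (Pq.cons (Pq.L [] 4096 (Pf.C 1 1289))
 (Pq.cons (Pq.L [] 4096 (Pf.C 1 1289))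
 (Pq.cons (Pq.D 5 (Pq.cons (Pq.L [0] 32767 (Pf.C 0 0x2c300101c509))
 (Pq.cons (Pq.L [0] 32767 (Pf.C 0 0x2c300101c509))
 (Pq.cons (Pq.L [0] 32767 (Pf.C 0 0x2c300101c509))
 (Pq.cons (Pq.L [] 16384 (Pf.C 2 1418))
 Pq.nil))))) Pq.nil))))) (Pq.cons (Pq.L [] 4 (Pf.C 2 1158))
 Pq.nil))))) (Pq.cons (Pq.D 3 (Pq.cons (Pq.D 4 (Pq.cons (Pq.L [] 4096 (Pf.C 1 1289))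
 (Pq.cons (Pq.L [] 4096 (Pf.C 1 1289))
 (Pq.cons (Pq.L [] 4096 (Pf.C 1 1289))
 (Pq.cons (Pq.D 5 (Pq.cons (Pq.L [0] 32767 (Pf.C 0 0x2c300101c509))
 (Pq.cons (Pq.L [0] 32767 (Pf.C 0 0x2c300101c509))
 (Pq.cons (Pq.L [0] 32767 (Pf.C 0 0x2c300101c509))
 (Pq.cons (Pq.L [] 16384 (Pf.C 2 1418))
 Pq.nil))))) Pq.nil))))) (Pq.cons (Pq.D 4 (Pq.cons (Pq.L [] 4096 (Pf.C 1 1289))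
 (Pq.cons (Pq.L [] 4096 (Pf.C 1 1289))
 (Pq.cons (Pq.L [] 4096 (Pf.C 1 1289))
 (Pq.cons (Pq.D 5 (Pq.cons (Pq.L [0] 32767 (Pf.C 0 0x2c300101c509))
 (Pq.cons (Pq.L [0] 32767 (Pf.C 0 0x2c300101c509))
 (Pq.cons (Pq.L [0] 32767 (Pf.C 0 0x2c300101c509))
 (Pq.cons (Pq.L [] 16384 (Pf.C 2 1418))
 Pq.nil))))) Pq.nil))))) (Pq.cons (Pq.D 4 (Pq.cons (Pq.L [] 4096 (Pf.C 1 1289))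
 (Pq.cons (Pq.L [] 4096 (Pf.C 1 1289))
 (Pq.cons (Pq.L [] 4096 (Pf.C 1 1289))
 (Pq.cons (Pq.D 5 (Pq.cons (Pq.L [0] 32767 (Pf.C 0 0x2c300101c509))
 (Pq.cons (Pq.L [0] 32767 (Pf.C 0 0x2c300101c509))
 (Pq.cons (Pq.L [0] 32767 (Pf.C 0 0x2c300101c509))
 (Pq.cons (Pq.L [] 16384 (Pf.C 2 1418))
 Pq.nil))))) Pq.nil))))) (Pq.cons (Pq.L [] 4 (Pf.C 2 1158))
 Pq.nil))))) (Pq.cons (Pq.D 3 (Pq.cons (Pq.D 4 (Pq.cons (Pq.L [] 4096 (Pf.C 1 1289))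
 (Pq.cons (Pq.L [] 4096 (Pf.C 1 1289))
 (Pq.cons (Pq.L [] 4096 (Pf.C 1 1289))
 (Pq.cons (Pq.D 5 (Pq.cons (Pq.L [0] 32767 (Pf.C 0 0x2c300101c509))
 (Pq.cons (Pq.L [0] 32767 (Pf.C 0 0x2c300101c509))
 (Pq.cons (Pq.L [0] 32767 (Pf.C 0 0x2c300101c509))
 (Pq.cons (Pq.L [] 16384 (Pf.C 2 1418))
 Pq.nil))))) Pq.nil))))) (Pq.cons (Pq.D 4 (Pq.cons (Pq.L [] 4096 (Pf.C 1 1289))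
 (Pq.cons (Pq.L [] 4096 (Pf.C 1 1289))
 (Pq.cons (Pq.L [] 4096 (Pf.C 1 1289))
 (Pq.cons (Pq.D 5 (Pq.cons (Pq.L [0] 32767 (Pf.C 0 0x2c300101c509))
 (Pq.cons (Pq.L [0] 32767 (Pf.C 0 0x2c300101c509))
 (Pq.cons (Pq.L [0] 32767 (Pf.C 0 0x2c300101c509))
 (Pq.cons (Pq.L [] 16384 (Pf.C 2 1418))
 Pq.nil))))) Pq.nil))))) (Pq.cons (Pq.D 4 (Pq.cons (Pq.L [] 4096 (Pf.C 1 1289))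
 (Pq.cons (Pq.L [] 4096 (Pf.C 1 1289))
 (Pq.cons (Pq.L [] 4096 (Pf.C 1 1289))
 (Pq.cons (Pq.D 5 (Pq.cons (Pq.L [0] 32767 (Pf.C 0 0x2c300101c509))
 (Pq.cons (Pq.L [0] 32767 (Pf.C 0 0x2c300101c509))
 (Pq.cons (Pq.L [0] 32767 (Pf.C 0 0x2c300101c509))
 (Pq.cons (Pq.L [] 16384 (Pf.C 2 1418))
 Pq.nil))))) Pq.nil))))) (Pq.cons (Pq.L [] 4 (Pf.C 2 1158))
 Pq.nil))))) (Pq.cons (Pq.L [] 2 (Pf.C 2 1030))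
 Pq.nil))))) (Pq.cons (Pq.L [] 1 (Pf.C 2 902))
 Pq.nil))))) Pq.nil))))) (Pq.cons (Pq.L [] 1 (Pf.C 1 902))
 (Pq.cons (Pq.L [] 1 (Pf.C 2 902))
 Pq.nil)))
theorem bD_o29 : AllRef bD_T bD_G33 (applyObl bS113_T 3 [57,59,49,61] [1,1,1,2] [(57,0x2000000000000000),(59,0x2000000000000000),(49,0x2000000000000000),(61,0xa02000000000000)]) :=
  chkPq_sound bD_o29c _ (by decide +kernel)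
noncomputable def bD_o30c : Pq := (Pq.cons (Pq.L [0] 32767 (Pf.C 0 0x2c509101c300))
 (Pq.cons (Pq.L [] 1 (Pf.C 1 902))
 (Pq.cons (Pq.L [] 1 (Pf.C 2 902))
 Pq.nil)))
theorem bD_o30 : AllRef bD_T bD_G32 (applyObl bS113_T 3 [58,55] [1,2] []) :=
  chkPq_sound bD_o30c _ (by decide +kernel)
noncomputable def bD_o31c : Pq := (Pq.cons (Pq.L [] 1 (Pf.C 1 902))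
 (Pq.cons (Pq.L [0,2,3,4,5] 2 (Pf.B 8 7 (Pf.B 6 5 (Pf.B 6 3 (Pf.B 6 2 (Pf.W 22 7 [] [0,2,3,4,5,6,8] (Pf.cons (Pf.B 9 6 (Pf.B 9 5 (Pf.B 9 3 (Pf.B 9 2 (Pf.B 9 8 (Pf.W 24 8 [] [0,2,3,4,5,6,9] (Pf.cons (Pf.B 10 9 (Pf.B 10 6 (Pf.B 10 5 (Pf.B 10 3 (Pf.B 10 2 (Pf.B 8 5 (Pf.B 8 3 (Pf.C 0 0x180031214208) (Pf.C 0 0x284031214206)) (Pf.B 8 3 (Pf.C 0 0x28405120c206) (Pf.B 8 2 (Pf.C 0 0x144030c08009) (Pf.C 0 0x242031408406)))) (Pf.C 2 266)) (Pf.C 2 394)) (Pf.C 2 650)) (Pf.C 2 778)) (Pf.C 2 1162)) Pf.nil)) (Pf.W 22 8 [] [0,4,5,6,9] (Pf.cons (Pf.B 10 9 (Pf.B 10 6 (Pf.B 10 5 (Pf.W 24 8 [] [0,4,5,6,9,10] (Pf.cons (Pf.B 11 10 (Pf.B 11 9 (Pf.B 11 6 (Pf.B 11 5 (Pf.B 8 5 (Pf.C 0 0x2c4091414206) (Pf.C 0 0x1800b121440a))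 (Pf.C 2 651)) (Pf.C 2 779)) (Pf.C 2 1163)) (Pf.C 2 1291)) Pf.nil)) (Pf.C 2 650)) (Pf.C 2 778)) (Pf.C 2 1162)) Pf.nil))) (Pf.C 2 265)) (Pf.C 2 393)) (Pf.C 2 649)) (Pf.C 2 777)) Pf.nil)) (Pf.C 2 262)) (Pf.C 2 390)) (Pf.C 2 646)) (Pf.C 1 904)))
 (Pq.cons (Pq.L [] 1 (Pf.C 1 902))
 (Pq.cons (Pq.L [] 1 (Pf.C 25 775))
 (Pq.cons (Pq.L [] 2 (Pf.C 23 1030))
 (Pq.cons (Pq.L [] 1 (Pf.C 2 902))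
 Pq.nil))))))
theorem bD_o31 : AllRef bD_T bD_G29 (splitObl [45,47,53] [44,51]) :=
  chkPq_sound bD_o31c _ (by decide +kernel)
noncomputable def bD_o32c : Pq := (Pq.cons (Pq.L [0] 32767 (Pf.C 0 0x2c509101c300))
 (Pq.cons (Pq.L [] 1 (Pf.C 1 902))
 (Pq.cons (Pq.L [] 1 (Pf.C 2 902))
 Pq.nil)))
theorem bD_o32 : AllRef bD_T bD_G29 (applyObl bS113_T 3 [45,47,53] [1,1,2] []) :=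
  chkPq_sound bD_o32c _ (by decide +kernel)
noncomputable def bD_o33c : Pq := (Pq.cons (Pq.L [4] 32767 (Pf.C 0 0x2c509101c304))
 (Pq.cons (Pq.L [] 1 (Pf.C 1 902))
 (Pq.cons (Pq.L [] 1 (Pf.C 2 902))
 Pq.nil)))
theorem bD_o33 : AllRef bD_T bD_G29 (applyObl bS113_T 3 [44,51] [1,2] []) :=
  chkPq_sound bD_o33c _ (by decide +kernel)

end Pool.Agent.Lib.MP_849b2e_co
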