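import Pool.Agent.Lib.MP_849b2e_co.AllR
import Pool.Agent.Lib.MP_849b2e_co.TbD
import Pool.Agent.Lib.MP_849b2e_co.ObD_0
import Pool.Agent.Lib.MP_849b2e_co.LbS113

set_option maxRecDepth 100000
set_option linter.all false
namespace Pool.Agent.Lib.MP_849b2e_co

theorem bD_n60  : Bd bD_T bD_G29 [44,51] :=
  r_apply lem_bS113 [1,2] [] (by decide +kernel) bD_o33
theorem bD_n59  : Bd bD_T bD_G29 [45,47,53] :=
  r_apply lem_bS113 [1,1,2] [] (by decide +kernel) bD_o32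
theorem bD_n58  : Bd bD_T bD_G29 [45,47,53,44,51] :=
  r_split [45,47,53] [44,51] (by decide +kernel) bD_o31 bD_n59 bD_n60
theorem bD_n57  : Bd bD_T bD_G32 [58,55] :=
  r_apply lem_bS113 [1,2] [] (by decide +kernel) bD_o30
theorem bD_n56  : Bd bD_T bD_G33 [57,59,49,61] :=
  r_apply lem_bS113 [1,1,1,2] [(57,0x2000000000000000),(59,0x2000000000000000),(49,0x2000000000000000),(61,0xa02000000000000)] (by decide +kernel) bD_o29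
theorem bD_n55  : Bd bD_T bD_G33 [56,50,60] :=
  r_apply lem_bS113 [1,2,2] [] (by decide +kernel) bD_o28
theorem bD_n54  : Bd bD_T bD_G33 [56,57,59,49,50,60,61] :=
  r_split [56,50,60] [57,59,49,61] (by decide +kernel) bD_o27 bD_n55 bD_n56
theorem bD_n53  : Bd bD_T bD_G33 [56,57,59,49,50,43] :=
  r_act [20] [56,57,59,49,50,60,61] (by decide +kernel) bD_n54
theorem bD_n52  : Bd bD_T bD_G32 [56,57,59,49,50,43] :=
  r_def 43 0 [] [56] ⟨60,[21],[43,44],[]⟩ bD_G33 [56,57,59,49,50,43] (by decide +kernel) bD_n53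
theorem bD_n51  : Bd bD_T bD_G32 [56,57,58,59,49,55,50,43] :=
  r_split [56,57,59,49,50,43] [58,55] (by decide +kernel) bD_o26 bD_n52 bD_n57
theorem bD_n50  : Bd bD_T bD_G32 [56,57,48,49,55,50,43] :=
  r_act [19] [56,57,58,59,49,55,50,43] (by decide +kernel) bD_n51
theorem bD_n49  : Bd bD_T bD_G31 [56,57,48,49,55,50,43] :=
  r_def 48 0 [55] [] ⟨58,[20],[41,0,42],[]⟩ bD_G32 [56,57,48,49,55,50,43] (by decide +kernel) bD_n50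
theorem bD_n48  : Bd bD_T bD_G31 [54,48,49,55,50,43] :=
  r_act [18] [56,57,48,49,55,50,43] (by decide +kernel) bD_n49
theorem bD_n47  : Bd bD_T bD_G30 [54,48,49,55,50,43] :=
  r_def 54 0 [50] [] ⟨56,[19],[39,0,40],[]⟩ bD_G31 [54,48,49,55,50,43] (by decide +kernel) bD_n48
theorem bD_n46  : Bd bD_T bD_G29 [39,48,49,52,50,43] :=
  r_hit [39,52] bD_h46 ⟨54,[],[],[]⟩ bD_G30 [54,48,49,55,50,43] (by decide +kernel) (allRef_split 4 (allRef_split 1 bD_o21 bD_o22) (allRef_split 3 bD_o23 (allRef_split 1 bD_o24 bD_o25))) bD_n47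
theorem bD_n45  : Bd bD_T bD_G29 [39,48,49,45,47,44,52,53,50,51,43] :=
  r_split [39,48,49,52,50,43] [45,47,53,44,51] (by decide +kernel) bD_o20 bD_n46 bD_n58
theorem bD_n44  : Bd bD_T bD_G29 [39,48,49,45,47,44,42,50,51,43] :=
  r_act [17] [39,48,49,45,47,44,52,53,50,51,43] (by decide +kernel) bD_n45
theorem bD_n43  : Bd bD_T bD_G28 [39,48,49,45,47,44,42,50,51,43] :=
  r_def 42 0 [48] [] ⟨52,[18],[37,0,38],[]⟩ bD_G29 [39,48,49,45,47,44,42,50,51,43] (by decide +kernel) bD_n44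
theorem bD_n42  : Bd bD_T bD_G28 [39,48,49,45,47,44,42,46,43] :=
  r_act [16] [39,48,49,45,47,44,42,50,51,43] (by decide +kernel) bD_n43
theorem bD_n41  : Bd bD_T bD_G27 [39,48,49,45,47,44,42,46,43] :=
  r_def 46 0 [39] [] ⟨50,[17],[35,0,36],[]⟩ bD_G28 [39,48,49,45,47,44,42,46,43] (by decide +kernel) bD_n42
theorem bD_n40  : Bd bD_T bD_G26 [39,40,41,31,38,30,24,37,26] :=
  r_hit [24,26,30,31,37,38,40,41] bD_h40 ⟨42,[],[32,33,34],[]⟩ bD_G27 [39,48,49,45,47,44,42,46,43] (by decide +kernel) (allRef_split 27 bD_o18 bD_o19) bD_n41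
theorem bD_n39  : Bd bD_T bD_G25 [33,35,36,31,32,30,24,25,26] :=
  r_hit [25,32,33,35,36] bD_h39 ⟨37,[],[0,0,31],[]⟩ bD_G26 [39,40,41,31,38,30,24,37,26] (by decide +kernel) bD_o17 bD_n40
theorem bD_n38  : Bd bD_T bD_G25 [33,34,31,32,30,24,25,26] :=
  r_act [15] [33,35,36,31,32,30,24,25,26] (by decide +kernel) bD_n39
theorem bD_n37  : Bd bD_T bD_G24 [33,34,31,32,30,24,25,26] :=
  r_def 34 0 [] [24] ⟨35,[16],[29,30],[]⟩ bD_G25 [33,34,31,32,30,24,25,26] (by decide +kernel) bD_n38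
theorem bD_n36  : Bd bD_T bD_G24 [27,31,32,30,24,25,26] :=
  r_act [14] [33,34,31,32,30,24,25,26] (by decide +kernel) bD_n37
theorem bD_n35  : Bd bD_T bD_G23 [27,31,32,30,24,25,26] :=
  r_def 27 1 [] [25] ⟨33,[15],[27,28],[]⟩ bD_G24 [27,31,32,30,24,25,26] (by decide +kernel) bD_n36
theorem bD_n34  : Bd bD_T bD_G23 [27,29,30,24,25,26] :=
  r_act [13] [27,31,32,30,24,25,26] (by decide +kernel) bD_n35
theorem bD_n33  : Bd bD_T bD_G22 [27,29,30,24,25,26] :=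
  r_def 29 0 [25] [] ⟨31,[14],[25,0,26],[]⟩ bD_G23 [27,29,30,24,25,26] (by decide +kernel) bD_n34
theorem bD_n32  : Bd bD_T bD_G22 [27,28,24,25,26] :=
  r_act [12] [27,29,30,24,25,26] (by decide +kernel) bD_n33
theorem bD_n31  : Bd bD_T bD_G21 [27,28,24,25,26] :=
  r_def 28 0 [] [24] ⟨29,[13],[23,24],[]⟩ bD_G22 [27,28,24,25,26] (by decide +kernel) bD_n32
theorem bD_n30  : Bd bD_T bD_G21 [22,24,25,26] :=
  r_act [11] [27,28,24,25,26] (by decide +kernel) bD_n31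
theorem bD_n29  : Bd bD_T bD_G20 [22,24,25,26] :=
  r_def 22 0 [] [26] ⟨27,[12],[21,22],[]⟩ bD_G21 [22,24,25,26] (by decide +kernel) bD_n30
theorem bD_n28  : Bd bD_T bD_G20 [1,2] :=
  r_act [7,8,9,10] [22,24,25,26] (by decide +kernel) bD_n29
theorem bD_n27  : Bd bD_T bD_G19 [1,2] :=
  r_psplit 23 [] (PT.br 0 (PT.br 4 PT.ref PT.kid) (PT.br 4 PT.kid PT.kid)) ⟨24,[11],[],[]⟩ bD_G20 [1,2] (by decide +kernel) bD_o16 bD_n28
theorem bD_n26  : Bd bD_T bD_G18 [1,2] :=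
  r_psplit 2 [0,1,2,3,4,5] PT.kid ⟨23,[10],[],[]⟩ bD_G19 [1,2] (by decide +kernel) bD_o15 bD_n27
theorem bD_n25  : Bd bD_T bD_G17 [1,2] :=
  r_psplit 21 [] (PT.br 0 (PT.br 4 PT.kid PT.ref) PT.ref) ⟨22,[9],[],[]⟩ bD_G18 [1,2] (by decide +kernel) bD_o14 bD_n26
theorem bD_n24  : Bd bD_T bD_G1 [1,2] :=
  r_psplit 1 [0,1,2,3,4,5] PT.kid ⟨21,[8],[],[]⟩ bD_G17 [1,2] (by decide +kernel) bD_o13 bD_n25
theorem bD_n23  : Bd bD_T bD_G16 [16,18] :=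
  r_apply lem_D2 [0,0] [(16,0x40000),(18,65536)] (by decide +kernel) bD_o12
theorem bD_n22  : Bd bD_T bD_G16 [11,9,13] :=
  r_apply lem_bS113 [1,2,2] [] (by decide +kernel) bD_o11
theorem bD_n21  : Bd bD_T bD_G16 [11,16,9,13,18] :=
  r_split [11,9,13] [16,18] (by decide +kernel) bD_o10 bD_n22 bD_n23
theorem bD_n20  : Bd bD_T bD_G15 [11,19,16,9,13,20,18] :=
  r_kill [19,20] ⟨21,[],[],[]⟩ bD_G16 [11,16,9,13,18] (by decide +kernel) bD_o9 bD_n21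
theorem bD_n19  : Bd bD_T bD_G14 [11,15,16,9,13,17,18] :=
  r_hit [15,17] bD_h19 ⟨19,[],[19,20],[]⟩ bD_G15 [11,19,16,9,13,20,18] (by decide +kernel) bD_o8 bD_n20
theorem bD_n18  : Bd bD_T bD_G14 [11,15,16,9,13,14] :=
  r_act [6] [11,15,16,9,13,17,18] (by decide +kernel) bD_n19
theorem bD_n17  : Bd bD_T bD_G13 [11,15,16,9,13,14] :=
  r_def 14 0 [] [15] ⟨17,[7],[17,18],[]⟩ bD_G14 [11,15,16,9,13,14] (by decide +kernel) bD_n18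
theorem bD_n16  : Bd bD_T bD_G13 [11,12,9,13,14] :=
  r_act [5] [11,15,16,9,13,14] (by decide +kernel) bD_n17
theorem bD_n15  : Bd bD_T bD_G12 [11,12,9,13,14] :=
  r_def 12 0 [] [13] ⟨15,[6],[15,16],[]⟩ bD_G13 [11,12,9,13,14] (by decide +kernel) bD_n16
theorem bD_n14  : Bd bD_T bD_G12 [11,12,9,10] :=
  r_act [4] [11,12,9,13,14] (by decide +kernel) bD_n15
theorem bD_n13  : Bd bD_T bD_G11 [11,12,9,10] :=
  r_def 10 0 [] [11] ⟨13,[5],[13,14],[]⟩ bD_G12 [11,12,9,10] (by decide +kernel) bD_n14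
theorem bD_n12  : Bd bD_T bD_G11 [8,9,10] :=
  r_act [3] [11,12,9,10] (by decide +kernel) bD_n13
theorem bD_n11  : Bd bD_T bD_G10 [8,9,10] :=
  r_def 8 0 [] [9] ⟨11,[4],[11,12],[]⟩ bD_G11 [8,9,10] (by decide +kernel) bD_n12
theorem bD_n10  : Bd bD_T bD_G10 [3,4] :=
  r_act [0,1,2] [8,9,10] (by decide +kernel) bD_n11
theorem bD_n9  : Bd bD_T bD_G9 [3,4] :=
  r_psplit 4 [] (PT.br 0 PT.kid PT.kid) ⟨9,[3],[],[]⟩ bD_G10 [3,4] (by decide +kernel) bD_o7 bD_n10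
theorem bD_n8  : Bd bD_T bD_G8 [3,4] :=
  r_psplit 7 [] (PT.br 0 PT.kid PT.ref) ⟨8,[2],[],[]⟩ bD_G9 [3,4] (by decide +kernel) bD_o6 bD_n9
theorem bD_n7  : Bd bD_T bD_G5 [3,4] :=
  r_psplit 3 [0] PT.kid ⟨7,[1],[],[]⟩ bD_G8 [3,4] (by decide +kernel) bD_o5 bD_n8
theorem bD_n6  : Bd bD_T bD_G7 [] :=
  r_empty (by decide +kernel) 
theorem bD_n5  : Bd bD_T bD_G6 [6] :=
  r_kill [6] ⟨7,[],[],[]⟩ bD_G7 [] (by decide +kernel) bD_o4 bD_n6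
theorem bD_n4  : Bd bD_T bD_G4 [4] :=
  r_hit [4] bD_h4 ⟨6,[],[10],[]⟩ bD_G6 [6] (by decide +kernel) bD_o3 bD_n5
theorem bD_n3  : Bd bD_T bD_G3 [3,4] :=
  r_ext 3 2 [] [] [4] [] [] ⟨5,[],[],[]⟩ bD_G4 [4] ⟨5,[],[8,0,9],[]⟩ bD_G5 [3,4] (by decide +kernel) bD_o2 bD_n4 bD_n7
theorem bD_n2  : Bd bD_T bD_G2 [1,2] :=
  r_twin 0 [2,1] ⟨3,[],[6,7],[]⟩ bD_G3 [3,4] (by decide +kernel) bD_o1 bD_n3
theorem bD_n1  : Bd bD_T bD_G0 [1,2] :=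
  r_learn [[1],[2],[2],[2],[1],[2]] [⟨0,1,true⟩,⟨0,2,true⟩,⟨0,3,true⟩,⟨3,4,true⟩,⟨4,5,true⟩,⟨1,4,false⟩,⟨2,4,false⟩,⟨0,5,false⟩] ⟨3,[],[5],[]⟩ bD_G2 [1,2] (by decide +kernel) bD_o0 bD_n2
theorem bD_n0  : Bd bD_T (pureCtx 2 3) (pureAct 2) :=
  show Bd _ _ [1,2] from r_case [1,2,2,2,1,2] [⟨0,1,true⟩,⟨0,2,true⟩,⟨0,3,true⟩,⟨3,4,true⟩,⟨4,5,true⟩,⟨1,4,false⟩,⟨2,4,false⟩,⟨0,5,false⟩,⟨0,4,false⟩,⟨1,2,false⟩,⟨1,3,false⟩,⟨1,5,false⟩,⟨2,3,false⟩,⟨2,5,false⟩,⟨3,5,false⟩] [] ⟨3,[],[4],[]⟩ bD_G0 [1,2] bD_G1 [1,2] (by decide +kernel) bD_n1 bD_n24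
theorem lem_bD  : Lem bD_T 2 3 := ⟨by decide +kernel, bD_n0⟩

end Pool.Agent.Lib.MP_849b2e_co
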