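import Pool.Agent.Lib.MP_849b2e_co.Rules

set_option maxRecDepth 100000
set_option linter.all false
namespace Pool.Agent.Lib.MP_849b2e_co

noncomputable def s1_ty : Tr Ty := (Tr.br (Tr.br (Tr.br (Tr.br (Tr.br (Tr.br (Tr.br (Tr.br (Tr.leaf ⟨1,0,0,0,0⟩) (Tr.leaf ⟨0x100100000000400000010000100100201,0x80080000000000000060000000000dfe,0,1,0⟩)) (Tr.leaf ⟨0x10010000100100201,0x8060000000000dfe,1,0,0⟩)) (Tr.br (Tr.br (Tr.leaf ⟨0x100100201,3582,0,0,0⟩) (Tr.leaf ⟨0x1004c000000000000000000000000000000200401,0x20000000000000000000000000000000000bfe,0,1,1⟩)) (Tr.leaf ⟨0x1000200000002000080080101,0x80010000000c000000000efe,1,0,0⟩))) (Tr.br (Tr.br (Tr.br (Tr.leaf ⟨65569,4062,0,0,0⟩) (Tr.leaf ⟨0x1000000000000000000000000000000080101,0x800000000000000000000000000000000efe,1,0,0⟩)) (Tr.leaf ⟨0x100000002000080080101,0x20000000c000000000efe,0,1,0⟩))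 (Tr.br (Tr.leaf ⟨0x1000040040081,0xc00000000f7e,0,0,0⟩) (Tr.leaf ⟨0x10400400080000000400040040081,0x8200200040000001800000000f7e,1,0,0⟩)))) (Tr.br (Tr.br (Tr.br (Tr.br (Tr.leaf ⟨257,3838,0,0,0⟩) (Tr.leaf ⟨0x10000000000000000000000000000004009,0x20000000000000000000000000000000ff6,0,1,0⟩)) (Tr.leaf ⟨0x1000000002008002005,0x200000000c000000ffa,0,1,0⟩)) (Tr.br (Tr.leaf ⟨0x10010010021,0x60000000fde,0,0,0⟩) (Tr.leaf ⟨0x100100020000000080020020041,0x80080010000000300000000fbe,1,0,0⟩))) (Tr.br (Tr.br (Tr.br (Tr.leaf ⟨0x1004009,4086,0,0,0⟩) (Tr.leaf ⟨0x110000000000000000000000000000000400801,0x800000000000000000000000000000000007fe,0,1,0⟩)) (Tr.leaf ⟨0x11800000080000200400801,0x80000003000000000007fe,0,1,1⟩)) (Tr.br (Tr.leaf ⟨0x100000200400801,0x2800000000007fe,0,0,0⟩) (Tr.leaf ⟨0x1000000000004000000010010010021,0x800000000008000000060000000fde,0,1,0⟩)))))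
 (Tr.br (Tr.br (Tr.br (Tr.br (Tr.br (Tr.leaf ⟨17,4078,0,0,0⟩) (Tr.leaf ⟨0x1000000000000100000002000080080101,0x20000000c000000000efe,0,1,0⟩)) (Tr.leaf ⟨0x100010000100100201,0x200060000000000dfe,0,1,0⟩)) (Tr.br (Tr.br (Tr.leaf ⟨0x1004001003,0xc00000ffc,0,0,0⟩) (Tr.leaf ⟨0x100000400000000000000000000000000000040081,3966,1,0,0⟩)) (Tr.leaf ⟨0x10011800000080000200400801,0x80080000003000000000007fe,0,1,1⟩))) (Tr.br (Tr.br (Tr.br (Tr.leaf ⟨0x100201,3582,0,0,0⟩) (Tr.leaf ⟨0x10000000000000000000000000000000400801,2046,0,1,0⟩)) (Tr.leaf ⟨0x1800000080000200400801,0x3000000000007fe,0,1,1⟩)) (Tr.br (Tr.leaf ⟨0x10000100100201,0x60000000000dfe,0,0,0⟩) (Tr.leaf ⟨0x100000000400000010000100100201,0x80000000000000060000000000dfe,0,1,0⟩)))) (Tr.br (Tr.br (Tr.br (Tr.br (Tr.leaf ⟨4099,4092,0,0,0⟩) (Tr.leaf ⟨0x100000000000000000000000000000010021,4062,1,0,0⟩))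 (Tr.leaf ⟨0x10000000080020020041,0x20000000300000000fbe,0,1,0⟩)) (Tr.br (Tr.leaf ⟨0x100020020041,0x280000000fbe,0,0,0⟩) (Tr.leaf ⟨0x1001000200000002000080080101,0x80080010000000c000000000efe,1,0,0⟩))) (Tr.br (Tr.br (Tr.br (Tr.leaf ⟨0x10010021,4062,0,0,0⟩) (Tr.leaf ⟨0x1110000000000000000000000000000000400801,0x8800000000000000000000000000000000007fe,0,1,0⟩)) (Tr.leaf ⟨0x100020000000080020020041,0x80010000000300000000fbe,1,0,0⟩)) (Tr.br (Tr.leaf ⟨0x1002000080080101,0xc000000000efe,0,0,0⟩) (Tr.leaf ⟨0x10000000000040000000400040040081,0x8000000000080000001800000000f7e,0,1,0⟩)))))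
)
 (Tr.br (Tr.br (Tr.br (Tr.br (Tr.br (Tr.br (Tr.leaf ⟨5,4090,0,0,0⟩) (Tr.leaf ⟨0x400000000000010000000080020020041,0x20000000300000000fbe,0,1,0⟩)) (Tr.leaf ⟨0x60000400040040081,0x1800000000f7e,0,1,1⟩)) (Tr.br (Tr.br (Tr.leaf ⟨0x404001003,0x1800000ffc,0,0,0⟩) (Tr.leaf ⟨0x40000100000000000000000000000000000010021,4062,1,0,0⟩)) (Tr.leaf ⟨0x4004400000010000100100201,0x2002000000060000000000dfe,0,1,0⟩))) (Tr.br (Tr.br (Tr.br (Tr.leaf ⟨0x40081,3966,0,0,0⟩) (Tr.leaf ⟨0x4000000000000000000000000000000200401,3070,0,0,1⟩)) (Tr.leaf ⟨0x400000010000100100201,0x60000000000dfe,0,1,0⟩)) (Tr.br (Tr.leaf ⟨0x4000080080101,0xa000000000efe,0,0,0⟩) (Tr.leaf ⟨0x41001000200000002000080080101,0x2080080010000000c000000000efe,1,0,0⟩)))) (Tr.br (Tr.br (Tr.br (Tr.br (Tr.leaf ⟨1025,3070,0,0,0⟩) (Tr.leaf ⟨0x40000000000000000000000000000008011,0x80000000000000000000000000000000fee,0,1,0⟩))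 (Tr.leaf ⟨0x4000000010010010021,0x8000000060000000fde,0,1,0⟩)) (Tr.br (Tr.leaf ⟨0x40010010021,0x30000000fde,0,0,0⟩) (Tr.leaf ⟨0x400400080000000400040040081,0x200200040000001800000000f7e,1,0,0⟩))) (Tr.br (Tr.br (Tr.br (Tr.leaf ⟨0x4001003,4092,0,0,0⟩) (Tr.leaf ⟨0x400002000000000000000000000000000001003,0x200000000000000000000000000000000000ffc,0,1,0⟩)) (Tr.leaf ⟨0x40008000000010010010021,0x20004000000060000000fde,1,0,0⟩)) (Tr.br (Tr.leaf ⟨0x480000200400801,0x3000000000007fe,0,0,0⟩) (Tr.leaf ⟨0x4000000000010000000080020020041,0x2000000000020000000300000000fbe,0,1,0⟩)))))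
 (Tr.br (Tr.br (Tr.br (Tr.br (Tr.br (Tr.leaf ⟨65,4030,0,0,0⟩) (Tr.leaf ⟨0x4000000000000000000000000000002005,0x8000000000000000000000000000000ffa,0,1,0⟩)) (Tr.leaf ⟨0x400000000404001003,0x800000001800000ffc,0,1,0⟩)) (Tr.br (Tr.br (Tr.leaf ⟨0x4008002005,0xa000000ffa,0,0,0⟩) (Tr.leaf ⟨0x400002000000000000000000000000000000100201,3582,0,1,0⟩)) (Tr.leaf ⟨0x40040008000000010010010021,0x20020004000000060000000fde,1,0,0⟩))) (Tr.br (Tr.br (Tr.br (Tr.leaf ⟨0x400801,2046,0,0,0⟩) (Tr.leaf ⟨0x4c000000000000000000000000000000200401,0x20000000000000000000000000000000000bfe,0,1,1⟩)) (Tr.leaf ⟨0x4400000010000100100201,0x2000000060000000000dfe,0,1,0⟩)) (Tr.br (Tr.leaf ⟨0x40000100100201,0x30000000000dfe,0,0,0⟩) (Tr.leaf ⟨0x400000001800000080000200400801,0x2000000000000003000000000007fe,0,1,1⟩)))) (Tr.br (Tr.br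 (Tr.br (Tr.br (Tr.leaf ⟨16393,4086,0,0,0⟩) (Tr.leaf ⟨0x400000000000000000000000000000040081,3966,1,0,0⟩)) (Tr.leaf ⟨0x40000000400040040081,0x80000001800000000f7e,0,1,0⟩)) (Tr.br (Tr.leaf ⟨0x400040040081,0x1800000000f7e,0,0,0⟩) (Tr.leaf ⟨0x4004004400000010000100100201,0x2002002000000060000000000dfe,0,1,0⟩))) (Tr.br (Tr.br (Tr.br (Tr.leaf ⟨0x40040081,3966,0,0,0⟩) (Tr.leaf ⟨0x4000020000000000000000000000000000004009,0x10000000000000000000000000000000ff6,1,0,0⟩)) (Tr.leaf ⟨0x400080000000400040040081,0x200040000001800000000f7e,1,0,0⟩)) (Tr.br (Tr.leaf ⟨0x6002000080080101,0xc000000000efe,0,1,1⟩) (Tr.leaf ⟨0x40000000000100000002000080080101,0x2000000000020000000c000000000efe,0,1,0⟩)))))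
)
)
 (Tr.br (Tr.br (Tr.br (Tr.br (Tr.br (Tr.br (Tr.br (Tr.leaf ⟨3,4092,0,0,0⟩) (Tr.leaf ⟨0x200000000000004000000010010010021,0x8000000060000000fde,0,1,0⟩)) (Tr.leaf ⟨0x20000400040040081,0x1800000000f7e,0,0,1⟩)) (Tr.br (Tr.br (Tr.leaf ⟨0x200400801,2046,0,0,0⟩) (Tr.leaf ⟨0x20400002000000000000000000000000000001003,0x200000000000000000000000000000000000ffc,0,1,0⟩)) (Tr.leaf ⟨0x2004400000010000100100201,0x4002000000060000000000dfe,0,1,0⟩))) (Tr.br (Tr.br (Tr.br (Tr.leaf ⟨0x20041,4030,0,0,0⟩) (Tr.leaf ⟨0x2000000000000000000000000000000100201,3582,0,1,0⟩)) (Tr.leaf ⟨0x200000002000080080101,0x10000000c000000000efe,1,0,0⟩)) (Tr.br (Tr.leaf ⟨0x2000080080101,0xc000000000efe,0,0,0⟩) (Tr.leaf ⟨0x21001000200000002000080080101,0x4080080010000000c000000000efe,1,0,0⟩)))) (Tr.br (Tr.br (Tr.br (Tr.br (Tr.leaf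 ⟨513,3582,0,0,0⟩) (Tr.leaf ⟨0x20000000000000000000000000000004009,0x10000000000000000000000000000000ff6,1,0,0⟩)) (Tr.leaf ⟨0x2000000002008002005,0x100000000c000000ffa,1,0,0⟩)) (Tr.br (Tr.leaf ⟨0x20010010021,0x50000000fde,0,0,0⟩) (Tr.leaf ⟨0x200400080000000400040040081,0x400200040000001800000000f7e,1,0,0⟩))) (Tr.br (Tr.br (Tr.br (Tr.leaf ⟨0x2008011,4078,0,0,0⟩) (Tr.leaf ⟨0x200002000000000000000000000000000001003,0x400000000000000000000000000000000000ffc,0,1,0⟩)) (Tr.leaf ⟨0x20008000000010010010021,0x40004000000060000000fde,1,0,0⟩)) (Tr.br (Tr.leaf ⟨0x200000200400801,0x1800000000007fe,0,0,0⟩) (Tr.leaf ⟨0x2000000000010000000080020020041,0x4000000000020000000300000000fbe,0,1,0⟩)))))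
 (Tr.br (Tr.br (Tr.br (Tr.br (Tr.br (Tr.leaf ⟨33,4062,0,0,0⟩) (Tr.leaf ⟨0x2000000000000000000000000000001003,4092,0,1,0⟩)) (Tr.leaf ⟨0x200010000100100201,0x100060000000000dfe,1,0,0⟩)) (Tr.br (Tr.br (Tr.leaf ⟨0x2008002005,0xc000000ffa,0,0,0⟩) (Tr.leaf ⟨0x200001000000000000000000000000000000080101,0x800000000000000000000000000000000efe,1,0,0⟩)) (Tr.leaf ⟨0x20040008000000010010010021,0x40020004000000060000000fde,1,0,0⟩))) (Tr.br (Tr.br (Tr.br (Tr.leaf ⟨0x200401,3070,0,0,0⟩) (Tr.leaf ⟨0x2c000000000000000000000000000000200401,0x40000000000000000000000000000000000bfe,0,1,1⟩)) (Tr.leaf ⟨0x2400000010000100100201,0x4000000060000000000dfe,0,1,0⟩)) (Tr.br (Tr.leaf ⟨0x20000100100201,0x50000000000dfe,0,0,0⟩) (Tr.leaf ⟨0x200000001800000080000200400801,0x4000000000000003000000000007fe,0,1,1⟩)))) (Tr.br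 (Tr.br (Tr.br (Tr.br (Tr.leaf ⟨8197,4090,0,0,0⟩) (Tr.leaf ⟨0x200000000000000000000000000000020041,4030,1,0,0⟩)) (Tr.leaf ⟨0x20000000080020020041,0x10000000300000000fbe,1,0,0⟩)) (Tr.br (Tr.leaf ⟨0x200020020041,0x180000000fbe,0,0,0⟩) (Tr.leaf ⟨0x2004004400000010000100100201,0x4002002000000060000000000dfe,0,1,0⟩))) (Tr.br (Tr.br (Tr.br (Tr.leaf ⟨0x20020041,4030,0,0,0⟩) (Tr.leaf ⟨0x2000008000000000000000000000000000002005,0x4000000000000000000000000000000ffa,1,0,0⟩)) (Tr.leaf ⟨0x200080000000400040040081,0x400040000001800000000f7e,1,0,0⟩)) (Tr.br (Tr.leaf ⟨0x2002000080080101,0xc000000000efe,0,0,1⟩) (Tr.leaf ⟨0x20000000000100000002000080080101,0x4000000000020000000c000000000efe,0,1,0⟩)))))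
)
 (Tr.br (Tr.br (Tr.br (Tr.br (Tr.br (Tr.br (Tr.leaf ⟨9,4086,0,0,0⟩) (Tr.leaf ⟨0x800000000000040000000400040040081,0x80000001800000000f7e,0,1,0⟩)) (Tr.leaf ⟨0x80002000080080101,0xc000000000efe,0,1,0⟩)) (Tr.br (Tr.br (Tr.leaf ⟨0x804001003,0x1400000ffc,0,0,0⟩) (Tr.leaf ⟨0x80000200000000000000000000000000000020041,4030,1,0,0⟩)) (Tr.leaf ⟨0x8011800000080000200400801,0x100080000003000000000007fe,0,1,1⟩))) (Tr.br (Tr.br (Tr.br (Tr.leaf ⟨0x80101,3838,0,0,0⟩) (Tr.leaf ⟨0xc000000000000000000000000000000200401,3070,0,1,1⟩)) (Tr.leaf ⟨0x800000080000200400801,0x3000000000007fe,0,0,1⟩)) (Tr.br (Tr.leaf ⟨0x8000080080101,0x6000000000efe,0,0,0⟩) (Tr.leaf ⟨0x80000000400000010000100100201,0x100000000000000060000000000dfe,0,1,0⟩)))) (Tr.br (Tr.br (Tr.br (Tr.br (Tr.leaf ⟨2049,2046,0,0,0⟩) (Tr.leaf ⟨0x80000000000000000000000000000008011,0x40000000000000000000000000000000fee,1,0,0⟩))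 (Tr.leaf ⟨0x8000000010010010021,0x4000000060000000fde,1,0,0⟩)) (Tr.br (Tr.leaf ⟨0x80020020041,0x300000000fbe,0,0,0⟩) (Tr.leaf ⟨0x801000200000002000080080101,0x100080010000000c000000000efe,1,0,0⟩))) (Tr.br (Tr.br (Tr.br (Tr.leaf ⟨0x8002005,4090,0,0,0⟩) (Tr.leaf ⟨0x910000000000000000000000000000000400801,0x10800000000000000000000000000000000007fe,0,1,0⟩)) (Tr.leaf ⟨0x80020000000080020020041,0x100010000000300000000fbe,1,0,0⟩)) (Tr.br (Tr.leaf ⟨0x800400040040081,0x1800000000f7e,0,0,0⟩) (Tr.leaf ⟨0x8000000000040000000400040040081,0x10000000000080000001800000000f7e,0,1,0⟩)))))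
 (Tr.br (Tr.br (Tr.br (Tr.br (Tr.br (Tr.leaf ⟨129,3966,0,0,0⟩) (Tr.leaf ⟨0x8000000000000000000000000000002005,0x4000000000000000000000000000000ffa,1,0,0⟩)) (Tr.leaf ⟨0x800000000404001003,0x400000001800000ffc,1,0,0⟩)) (Tr.br (Tr.br (Tr.leaf ⟨0x8008002005,0x6000000ffa,0,0,0⟩) (Tr.leaf ⟨0x801110000000000000000000000000000000400801,0x8800000000000000000000000000000000007fe,0,1,0⟩)) (Tr.leaf ⟨0x80100020000000080020020041,0x100080010000000300000000fbe,1,0,0⟩))) (Tr.br (Tr.br (Tr.br (Tr.leaf ⟨0xa00401,3070,0,0,0⟩) (Tr.leaf ⟨0x90000000000000000000000000000000400801,0x1000000000000000000000000000000000007fe,0,1,0⟩)) (Tr.leaf ⟨0x9800000080000200400801,0x100000003000000000007fe,0,1,1⟩)) (Tr.br (Tr.leaf ⟨0x80000200400801,0x3000000000007fe,0,0,0⟩) (Tr.leaf ⟨0x800000000004000000010010010021,0x1000000000008000000060000000fde,0,1,0⟩))))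 (Tr.br (Tr.br (Tr.br (Tr.br (Tr.leaf ⟨32785,4078,0,0,0⟩) (Tr.leaf ⟨0x800000000000000000000000000000080101,0x1000000000000000000000000000000000efe,0,1,0⟩)) (Tr.leaf ⟨0x80000000400040040081,0x40000001800000000f7e,1,0,0⟩)) (Tr.br (Tr.leaf ⟨0x800040040081,0x1400000000f7e,0,0,0⟩) (Tr.leaf ⟨0x8400400080000000400040040081,0x10200200040000001800000000f7e,1,0,0⟩))) (Tr.br (Tr.br (Tr.br (Tr.leaf ⟨0x80080101,3838,0,0,0⟩) (Tr.leaf ⟨0x8000080000000000000000000000000000008011,0x40000000000000000000000000000000fee,1,0,0⟩)) (Tr.leaf ⟨0x800200000002000080080101,0x100010000000c000000000efe,1,0,0⟩)) (Tr.br (Tr.leaf ⟨0x8010000100100201,0x10060000000000dfe,0,1,0⟩) (Tr.leaf ⟨0x80100000000400000010000100100201,0x100080000000000000060000000000dfe,0,1,0⟩)))))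
)
)
)

noncomputable def s1_ev : Tr Ev := (Tr.br (Tr.br (Tr.br (Tr.br (Tr.br (Tr.br (Tr.leaf ⟨28,[40,41,42],0⟩) (Tr.leaf ⟨96,[107,108],0⟩)) (Tr.br (Tr.leaf ⟨46,[78,79],0⟩) (Tr.leaf ⟨17,[141],0⟩))) (Tr.br (Tr.br (Tr.leaf ⟨46,[65],1⟩) (Tr.leaf ⟨78,[123,124],0⟩)) (Tr.br (Tr.leaf ⟨77,[91,92],0⟩) (Tr.leaf ⟨148,[151,152],0⟩))))
 (Tr.br (Tr.br (Tr.br (Tr.leaf ⟨33,[55,56,57],0⟩) (Tr.leaf ⟨82,[115,116],0⟩)) (Tr.br (Tr.leaf ⟨83,[84],0⟩) (Tr.leaf ⟨21,[146],1⟩))) (Tr.br (Tr.br (Tr.leaf ⟨34,[70,71],0⟩) (Tr.leaf ⟨13,[134,135],0⟩)) (Tr.leaf ⟨88,[99,100],0⟩)))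
)
 (Tr.br (Tr.br (Tr.br (Tr.br (Tr.leaf ⟨30,[46,47,48],0⟩) (Tr.leaf ⟨106,[111,112],0⟩)) (Tr.br (Tr.leaf ⟨52,[82],0⟩) (Tr.leaf ⟨19,[143,144],0⟩))) (Tr.br (Tr.br (Tr.leaf ⟨49,[67],0⟩) (Tr.leaf ⟨116,[127,128],0⟩)) (Tr.br (Tr.leaf ⟨81,[95,96],0⟩) (Tr.leaf ⟨152,[155,156],0⟩))))
 (Tr.br (Tr.br (Tr.br (Tr.leaf ⟨61,[62],0⟩) (Tr.leaf ⟨74,[119,120],0⟩)) (Tr.br (Tr.leaf ⟨84,[87,88],0⟩) (Tr.leaf ⟨22,[148],0⟩))) (Tr.br (Tr.br (Tr.leaf ⟨40,[74,75],0⟩) (Tr.leaf ⟨15,[138,139],0⟩)) (Tr.leaf ⟨92,[103,104],0⟩)))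
)
)
 (Tr.br (Tr.br (Tr.br (Tr.br (Tr.br (Tr.leaf ⟨29,[43,44,45],0⟩) (Tr.leaf ⟨98,[109,110],0⟩)) (Tr.br (Tr.leaf ⟨49,[80,81],0⟩) (Tr.leaf ⟨18,[142],0⟩))) (Tr.br (Tr.br (Tr.leaf ⟨65,[66],0⟩) (Tr.leaf ⟨80,[125,126],0⟩)) (Tr.br (Tr.leaf ⟨79,[93,94],0⟩) (Tr.leaf ⟨133,[153,154],0⟩))))
 (Tr.br (Tr.br (Tr.br (Tr.leaf ⟨49,[61],1⟩) (Tr.leaf ⟨84,[117,118],0⟩)) (Tr.br (Tr.leaf ⟨82,[85,86],0⟩) (Tr.leaf ⟨146,[147],0⟩))) (Tr.br (Tr.br (Tr.leaf ⟨37,[72,73],0⟩) (Tr.leaf ⟨14,[136,137],0⟩)) (Tr.leaf ⟨90,[101,102],0⟩)))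
)
 (Tr.br (Tr.br (Tr.br (Tr.br (Tr.leaf ⟨31,[49,50,51],0⟩) (Tr.leaf ⟨108,[113,114],0⟩)) (Tr.br (Tr.leaf ⟨55,[83],1⟩) (Tr.leaf ⟨20,[145],0⟩))) (Tr.br (Tr.br (Tr.leaf ⟨52,[68,69],0⟩) (Tr.leaf ⟨12,[133],0⟩)) (Tr.leaf ⟨86,[97,98],0⟩)))
 (Tr.br (Tr.br (Tr.br (Tr.leaf ⟨52,[63,64],0⟩) (Tr.leaf ⟨76,[121,122],0⟩)) (Tr.br (Tr.leaf ⟨75,[89,90],0⟩) (Tr.leaf ⟨147,[149,150],0⟩))) (Tr.br (Tr.br (Tr.leaf ⟨43,[76,77],0⟩) (Tr.leaf ⟨16,[140],0⟩)) (Tr.leaf ⟨94,[105,106],0⟩)))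
)
)
)

noncomputable def s1_ax : Tr Ax := (Tr.br (Tr.br (Tr.br (Tr.br (Tr.br (Tr.br (Tr.br (Tr.br (Tr.leaf ⟨[1,1,1,1,1,1],[⟨0,1,true⟩,⟨0,2,true⟩,⟨0,3,false⟩,⟨0,4,true⟩,⟨0,5,false⟩,⟨1,2,false⟩,⟨1,3,false⟩,⟨1,4,false⟩,⟨1,5,false⟩,⟨2,3,true⟩,⟨2,4,false⟩,⟨2,5,false⟩,⟨3,4,false⟩,⟨3,5,false⟩,⟨4,5,true⟩],[],0⟩) (Tr.leaf ⟨[0x10000000000000000000000000000,0x2000000000000000000000000000],[⟨0,1,false⟩],[],0⟩)) (Tr.leaf ⟨[0x40000,0x40000],[⟨0,1,false⟩],[⟨20,[(0,true),(1,false)]⟩,⟨20,[(0,false),(1,true)]⟩,⟨22,[(0,true),(1,false)]⟩,⟨22,[(0,false),(1,true)]⟩],0⟩)) (Tr.br (Tr.leaf ⟨[412,1122,412,1122],[⟨0,1,true⟩,⟨0,2,false⟩,⟨0,3,false⟩,⟨1,2,false⟩,⟨1,3,false⟩,⟨2,3,true⟩],[],0⟩) (Tr.leaf ⟨[0x400000000000],[],[⟨52,[(0,false)]⟩,⟨55,[(0,false)]⟩],0⟩))) (Tr.br (Tr.br (Tr.br (Tr.leaf ⟨[512,2048,350],[⟨0,1,false⟩,⟨0,2,false⟩,⟨1,2,false⟩],[],0⟩)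 (Tr.leaf ⟨[0x80000000000000000000000000000000000000],[],[⟨134,[(0,false)]⟩],0⟩)) (Tr.leaf ⟨[0x800000000000,0x90000000000000],[⟨0,1,false⟩],[],0⟩)) (Tr.br (Tr.leaf ⟨[488,3606,3606,3606,3606],[⟨0,1,true⟩,⟨0,2,false⟩,⟨0,3,true⟩,⟨0,4,false⟩,⟨1,2,true⟩,⟨1,3,false⟩,⟨1,4,false⟩,⟨2,3,false⟩,⟨2,4,false⟩,⟨3,4,true⟩],[],0⟩) (Tr.leaf ⟨[0x400000000000000000000000,0xa000000000000000000000],[⟨0,1,false⟩],[],0⟩)))) (Tr.br (Tr.br (Tr.br (Tr.br (Tr.leaf ⟨[2048,8],[⟨0,1,false⟩],[],0⟩) (Tr.leaf ⟨[0x10000000000000000000000000000000,0x200000000000000000000000000000],[⟨0,1,true⟩],[],0⟩)) (Tr.leaf ⟨[0x20000000,0x20000000],[⟨0,1,false⟩],[⟨33,[(0,true),(1,false)]⟩,⟨33,[(0,false),(1,true)]⟩],0⟩)) (Tr.br (Tr.leaf ⟨[3072,1022,1022,1022,1022],[⟨0,1,true⟩,⟨0,2,false⟩,⟨0,3,true⟩,⟨0,4,false⟩,⟨1,2,true⟩,⟨1,3,false⟩,⟨1,4,false⟩,⟨2,3,false⟩,⟨2,4,false⟩,⟨3,4,true⟩],[],0⟩)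 (Tr.leaf ⟨[0x4000000000000000000000,0x100000000000000000000],[⟨0,1,true⟩],[],0⟩))) (Tr.br (Tr.br (Tr.br (Tr.leaf ⟨[20,1026,392],[⟨0,1,true⟩,⟨0,2,false⟩,⟨1,2,false⟩],[],0⟩) (Tr.leaf ⟨[0x8000000000000000000000000000000000000000],[],[],0⟩)) (Tr.leaf ⟨[0x10000000000],[],[⟨55,[(0,true)]⟩],0⟩)) (Tr.br (Tr.leaf ⟨[350,3744,3744,3744,3744],[⟨0,1,true⟩,⟨0,2,false⟩,⟨0,3,true⟩,⟨0,4,false⟩,⟨1,2,true⟩,⟨1,3,false⟩,⟨1,4,false⟩,⟨2,3,false⟩,⟨2,4,false⟩,⟨3,4,true⟩],[],0⟩) (Tr.leaf ⟨[0x100000000000000000000000000,0x8000000000000000000000000],[⟨0,1,false⟩],[],0⟩)))))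
 (Tr.br (Tr.br (Tr.br (Tr.br (Tr.br (Tr.leaf ⟨[12,512],[⟨0,1,false⟩],[],0⟩) (Tr.leaf ⟨[0x200000000000000000000000000000],[],[⟨75,[(0,false)]⟩,⟨77,[(0,false)]⟩,⟨79,[(0,false)]⟩,⟨81,[(0,false)]⟩],0⟩)) (Tr.leaf ⟨[0x200000,0x800000,0x8e000],[⟨0,2,false⟩,⟨1,2,true⟩],[⟨13,[(0,true),(1,false)]⟩,⟨14,[(0,true),(1,false)]⟩,⟨15,[(0,true),(1,false)]⟩,⟨19,[(0,true),(1,false)]⟩],0⟩)) (Tr.br (Tr.leaf ⟨[66,66,3616,284],[⟨0,1,false⟩,⟨0,2,false⟩,⟨0,3,false⟩,⟨1,2,true⟩,⟨1,3,false⟩,⟨2,3,false⟩],[],0⟩) (Tr.leaf ⟨[0x80000000000000,0x400000000000000,0x2490000000000],[⟨0,2,true⟩,⟨1,2,false⟩],[⟨40,[(0,false),(1,true)]⟩,⟨43,[(0,false),(1,true)]⟩,⟨46,[(0,false),(1,true)]⟩,⟨49,[(0,false),(1,true)]⟩,⟨34,[(0,true),(1,false)]⟩,⟨37,[(0,true),(1,false)]⟩],0⟩))) (Tr.br (Tr.br (Tr.br (Tr.leaf ⟨[12,400,2560],[⟨0,1,false⟩,⟨0,2,false⟩,⟨1,2,false⟩],[],0⟩)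 (Tr.leaf ⟨[0x800000000000000000000000000000000000000],[],[⟨153,[(0,false)]⟩],0⟩)) (Tr.leaf ⟨[0x100000000000000,0x92490000000000],[⟨0,1,true⟩],[],0⟩)) (Tr.br (Tr.leaf ⟨[350,350,3744,350,3744],[⟨0,1,false⟩,⟨0,2,false⟩,⟨0,3,false⟩,⟨0,4,false⟩,⟨1,2,true⟩,⟨1,3,false⟩,⟨1,4,false⟩,⟨2,3,false⟩,⟨2,4,false⟩,⟨3,4,true⟩],[],0⟩) (Tr.leaf ⟨[0x4000000000000000000000000,0x800000000000000000000000],[⟨0,1,true⟩],[],0⟩)))) (Tr.br (Tr.br (Tr.br (Tr.br (Tr.leaf ⟨[16,8],[⟨0,1,false⟩],[],0⟩) (Tr.leaf ⟨[0x400000000000000000000000000000000],[],[],0⟩)) (Tr.leaf ⟨[0x20000000000,0x80000000000000],[⟨0,1,false⟩],[],0⟩)) (Tr.br (Tr.leaf ⟨[3598,3598,3598,3598,496],[⟨0,1,true⟩,⟨0,2,true⟩,⟨0,3,false⟩,⟨0,4,true⟩,⟨1,2,false⟩,⟨1,3,false⟩,⟨1,4,false⟩,⟨2,3,true⟩,⟨2,4,false⟩,⟨3,4,false⟩],[],0⟩) (Tr.leaf ⟨[0x40000000000000000000000,0x8000000000000000000000],[⟨0,1,false⟩],[],0⟩)))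 (Tr.br (Tr.br (Tr.leaf ⟨[2560,128,66],[⟨0,1,false⟩,⟨0,2,false⟩,⟨1,2,false⟩],[],0⟩) (Tr.leaf ⟨[0x10000000000000],[],[⟨46,[(0,false)]⟩,⟨49,[(0,false)]⟩],0⟩)) (Tr.br (Tr.leaf ⟨[16384,16384],[⟨0,1,false⟩],[⟨21,[(0,true),(1,false)]⟩,⟨21,[(0,false),(1,true)]⟩],0⟩) (Tr.leaf ⟨[0x1000000000000000000000000000,0xa000000000000000000000000],[⟨0,1,false⟩],[],0⟩)))))
)
 (Tr.br (Tr.br (Tr.br (Tr.br (Tr.br (Tr.br (Tr.leaf ⟨[3584,3584],[⟨0,1,true⟩],[],0⟩) (Tr.leaf ⟨[0x40000000000000000000000000000,0x2000000000000000000000000000],[⟨0,1,false⟩],[],0⟩)) (Tr.leaf ⟨[0x200000,0x200000],[⟨0,1,false⟩],[⟨13,[(0,true),(1,false)]⟩,⟨13,[(0,false),(1,true)]⟩,⟨14,[(0,true),(1,false)]⟩,⟨14,[(0,false),(1,true)]⟩,⟨15,[(0,true),(1,false)]⟩,⟨15,[(0,false),(1,true)]⟩,⟨19,[(0,true),(1,false)]⟩,⟨19,[(0,false),(1,true)]⟩],0⟩)) (Tr.br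 (Tr.leaf ⟨[3072,526,3072,526],[⟨0,1,true⟩,⟨0,2,false⟩,⟨0,3,false⟩,⟨1,2,false⟩,⟨1,3,false⟩,⟨2,3,true⟩],[],0⟩) (Tr.leaf ⟨[0x80000000000000],[],[⟨34,[(0,false)]⟩,⟨37,[(0,false)]⟩,⟨40,[(0,true)]⟩,⟨43,[(0,true)]⟩,⟨46,[(0,true)]⟩,⟨49,[(0,true)]⟩],0⟩))) (Tr.br (Tr.br (Tr.br (Tr.leaf ⟨[1024,2048,496],[⟨0,1,false⟩,⟨0,2,false⟩,⟨1,2,false⟩],[],0⟩) (Tr.leaf ⟨[0x200000000000000000000000000000000000000],[],[⟨151,[(0,false)]⟩],0⟩)) (Tr.leaf ⟨[0x4000000000000,0x90000000000000],[⟨0,1,false⟩],[],0⟩)) (Tr.br (Tr.leaf ⟨[496,3598,3598,3598,496],[⟨0,1,true⟩,⟨0,2,true⟩,⟨0,3,false⟩,⟨0,4,false⟩,⟨1,2,false⟩,⟨1,3,false⟩,⟨1,4,false⟩,⟨2,3,true⟩,⟨2,4,false⟩,⟨3,4,false⟩],[],0⟩) (Tr.leaf ⟨[0x1000000000000000000000000,0xa000000000000000000000],[⟨0,1,false⟩],[],0⟩)))) (Tr.br (Tr.br (Tr.br (Tr.br (Tr.leaf ⟨[32,64],[⟨0,1,false⟩],[],0⟩)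 (Tr.leaf ⟨[0x100000000000000000000000000000000,0x8000000000000000000000000000000],[⟨0,1,false⟩],[],0⟩)) (Tr.leaf ⟨[0x80000000,0x80000000],[⟨0,1,false⟩],[⟨32,[(0,true),(1,false)]⟩,⟨32,[(0,false),(1,true)]⟩,⟨33,[(0,true),(1,false)]⟩,⟨33,[(0,false),(1,true)]⟩],0⟩)) (Tr.br (Tr.leaf ⟨[3072,1022,1022,1022,3072],[⟨0,1,true⟩,⟨0,2,true⟩,⟨0,3,false⟩,⟨0,4,false⟩,⟨1,2,false⟩,⟨1,3,false⟩,⟨1,4,false⟩,⟨2,3,true⟩,⟨2,4,false⟩,⟨3,4,false⟩],[],0⟩) (Tr.leaf ⟨[0x10000000000000000000000,0x154000000000000000000],[⟨0,1,true⟩],[],0⟩))) (Tr.br (Tr.br (Tr.br (Tr.leaf ⟨[3072,514,12],[⟨0,1,true⟩,⟨0,2,false⟩,⟨1,2,false⟩],[],0⟩) (Tr.leaf ⟨[0x20000000000000000000000000000000000000000],[],[],0⟩)) (Tr.leaf ⟨[0x400000000000],[],[⟨52,[(0,true)]⟩,⟨55,[(0,true)]⟩],0⟩)) (Tr.br (Tr.leaf ⟨[2560,2560,1534,2560,1534],[⟨0,1,false⟩,⟨0,2,false⟩,⟨0,3,false⟩,⟨0,4,false⟩,⟨1,2,true⟩,⟨1,3,false⟩,⟨1,4,false⟩,⟨2,3,false⟩,⟨2,4,false⟩,⟨3,4,true⟩],[],0⟩)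 (Tr.leaf ⟨[0x400000000000000000000000000,0xa000000000000000000000000],[⟨0,1,false⟩],[],0⟩)))))
 (Tr.br (Tr.br (Tr.br (Tr.br (Tr.br (Tr.leaf ⟨[512,66],[⟨0,1,false⟩],[],0⟩) (Tr.leaf ⟨[0x1000000000000000000000000000000,0x200000000000000000000000000000],[⟨0,1,true⟩],[],0⟩)) (Tr.leaf ⟨[0x2000000],[],[],0⟩)) (Tr.br (Tr.leaf ⟨[1022,1022,1022,1022,3072],[⟨0,1,true⟩,⟨0,2,true⟩,⟨0,3,false⟩,⟨0,4,true⟩,⟨1,2,false⟩,⟨1,3,false⟩,⟨1,4,false⟩,⟨2,3,true⟩,⟨2,4,false⟩,⟨3,4,false⟩],[],0⟩) (Tr.leaf ⟨[0x2000000000000,0x1000000000000000,0x10000000000000],[⟨0,2,false⟩,⟨1,2,true⟩],[⟨52,[(0,true),(1,false)]⟩],0⟩))) (Tr.br (Tr.br (Tr.br (Tr.leaf ⟨[128,544,284],[⟨0,1,true⟩,⟨0,2,false⟩,⟨1,2,false⟩],[],0⟩) (Tr.leaf ⟨[0x2000000000000000000000000000000000000000],[],[],0⟩)) (Tr.leaf ⟨[0x400000000],[],[⟨55,[(0,false)]⟩],0⟩))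 (Tr.br (Tr.leaf ⟨[412,412,3682,412,3682],[⟨0,1,false⟩,⟨0,2,false⟩,⟨0,3,false⟩,⟨0,4,false⟩,⟨1,2,true⟩,⟨1,3,false⟩,⟨1,4,false⟩,⟨2,3,false⟩,⟨2,4,false⟩,⟨3,4,true⟩],[],0⟩) (Tr.leaf ⟨[0x10000000000000000000000000,0xaa0000000000000000000000],[⟨0,1,true⟩],[],0⟩)))) (Tr.br (Tr.br (Tr.br (Tr.br (Tr.leaf ⟨[2,64],[⟨0,1,false⟩],[],0⟩) (Tr.leaf ⟨[0x1000000000000000000000000000000000],[],[],0⟩)) (Tr.leaf ⟨[0x100000000000,0x90000000000000],[⟨0,1,false⟩],[],0⟩)) (Tr.br (Tr.leaf ⟨[3682,3682,3682,3682,412],[⟨0,1,true⟩,⟨0,2,true⟩,⟨0,3,false⟩,⟨0,4,true⟩,⟨1,2,false⟩,⟨1,3,false⟩,⟨1,4,false⟩,⟨2,3,true⟩,⟨2,4,false⟩,⟨3,4,false⟩],[],0⟩) (Tr.leaf ⟨[0x100000000000000000000000,0x8000000000000000000000],[⟨0,1,false⟩],[],0⟩))) (Tr.br (Tr.br (Tr.leaf ⟨[512,160,2048],[⟨0,1,true⟩,⟨0,2,false⟩,⟨1,2,false⟩],[],0⟩) (Tr.leaf ⟨[0x10000000000],[],[⟨55,[(0,false)]⟩],0⟩))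 (Tr.br (Tr.leaf ⟨[65536,65536],[⟨0,1,false⟩],[⟨22,[(0,true),(1,false)]⟩,⟨22,[(0,false),(1,true)]⟩],0⟩) (Tr.leaf ⟨[0x4000000000000000000000000000,0x800000000000000000000000000],[⟨0,1,true⟩],[],0⟩)))))
)
)
 (Tr.br (Tr.br (Tr.br (Tr.br (Tr.br (Tr.br (Tr.br (Tr.leaf ⟨[510,510],[⟨0,1,true⟩],[],0⟩) (Tr.leaf ⟨[0x20000000000000000000000000000],[],[⟨109,[(0,false)]⟩],0⟩)) (Tr.leaf ⟨[0x80000,0x80000],[⟨0,1,false⟩],[⟨20,[(0,true),(1,false)]⟩,⟨20,[(0,false),(1,true)]⟩,⟨21,[(0,true),(1,false)]⟩,⟨21,[(0,false),(1,true)]⟩,⟨22,[(0,true),(1,false)]⟩,⟨22,[(0,false),(1,true)]⟩],0⟩)) (Tr.br (Tr.leaf ⟨[3072,3072,610,412],[⟨0,1,false⟩,⟨0,2,false⟩,⟨0,3,false⟩,⟨1,2,true⟩,⟨1,3,false⟩,⟨2,3,false⟩],[],0⟩) (Tr.leaf ⟨[0x2000000000000],[],[⟨52,[(0,false)]⟩,⟨55,[(0,false)]⟩],0⟩))) (Tr.br (Tr.br (Tr.br (Tr.leaf ⟨[14,336,2560],[⟨0,1,false⟩,⟨0,2,false⟩,⟨1,2,false⟩],[],0⟩)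 (Tr.leaf ⟨[0x100000000000000000000000000000000000000,0x4000000000000000000000000000000000],[⟨0,1,false⟩],[],0⟩)) (Tr.leaf ⟨[0x1000000000000,0x92492400000000],[⟨0,1,true⟩],[],0⟩)) (Tr.br (Tr.leaf ⟨[412,3682,3682,3682,3682],[⟨0,1,true⟩,⟨0,2,false⟩,⟨0,3,true⟩,⟨0,4,false⟩,⟨1,2,true⟩,⟨1,3,false⟩,⟨1,4,false⟩,⟨2,3,false⟩,⟨2,4,false⟩,⟨3,4,true⟩],[],0⟩) (Tr.leaf ⟨[0x800000000000000000000000],[],[⟨85,[(0,false)]⟩,⟨87,[(0,false)]⟩],0⟩)))) (Tr.br (Tr.br (Tr.br (Tr.br (Tr.leaf ⟨[2048,16],[⟨0,1,false⟩],[],0⟩) (Tr.leaf ⟨[0x40000000000000000000000000000000,0x280000000000000000000000000000],[⟨0,1,true⟩],[],0⟩)) (Tr.leaf ⟨[0x40000000,0x40000000],[⟨0,1,false⟩],[⟨32,[(0,true),(1,false)]⟩,⟨32,[(0,false),(1,true)]⟩,⟨33,[(0,true),(1,false)]⟩,⟨33,[(0,false),(1,true)]⟩],0⟩)) (Tr.br (Tr.leaf ⟨[2560,1534,1534,1534,1534],[⟨0,1,true⟩,⟨0,2,false⟩,⟨0,3,true⟩,⟨0,4,false⟩,⟨1,2,true⟩,⟨1,3,false⟩,⟨1,4,false⟩,⟨2,3,false⟩,⟨2,4,false⟩,⟨3,4,true⟩],[],0⟩)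 (Tr.leaf ⟨[0x8000000000000000000000],[],[⟨74,[(0,true)]⟩,⟨76,[(0,true)]⟩,⟨78,[(0,true)]⟩,⟨80,[(0,true)]⟩],0⟩))) (Tr.br (Tr.br (Tr.br (Tr.leaf ⟨[3072,96,12],[⟨0,1,false⟩,⟨0,2,false⟩,⟨1,2,false⟩],[],0⟩) (Tr.leaf ⟨[0x10000000000000000000000000000000000000000],[],[],0⟩)) (Tr.leaf ⟨[0x80000000000],[],[⟨55,[(0,true)]⟩],0⟩)) (Tr.br (Tr.leaf ⟨[3072,3072,1022,3072,1022],[⟨0,1,false⟩,⟨0,2,false⟩,⟨0,3,false⟩,⟨0,4,false⟩,⟨1,2,true⟩,⟨1,3,false⟩,⟨1,4,false⟩,⟨2,3,false⟩,⟨2,4,false⟩,⟨3,4,true⟩],[],0⟩) (Tr.leaf ⟨[0x200000000000000000000000000],[],[⟨97,[(0,false)]⟩,⟨99,[(0,false)]⟩],0⟩)))))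
 (Tr.br (Tr.br (Tr.br (Tr.br (Tr.br (Tr.leaf ⟨[20,512],[⟨0,1,false⟩],[],0⟩) (Tr.leaf ⟨[0x400000000000000000000000000000,0x2a8000000000000000000],[⟨0,1,false⟩],[],0⟩)) (Tr.leaf ⟨[0x1000000],[],[],0⟩)) (Tr.br (Tr.leaf ⟨[2560,1184,2560,1184],[⟨0,1,true⟩,⟨0,2,false⟩,⟨0,3,false⟩,⟨1,2,false⟩,⟨1,3,false⟩,⟨2,3,true⟩],[],0⟩) (Tr.leaf ⟨[0x400000000000,0x800000000000000,0x10000000000000],[⟨0,2,false⟩,⟨1,2,true⟩],[⟨52,[(0,true),(1,false)]⟩],0⟩))) (Tr.br (Tr.br (Tr.br (Tr.leaf ⟨[412,1024,512],[⟨0,1,false⟩,⟨0,2,false⟩,⟨1,2,false⟩],[],0⟩) (Tr.leaf ⟨[0x1000000000000000000000000000000000000000,0x200000000000000000000000000000000000000],[⟨0,1,false⟩],[],0⟩)) (Tr.leaf ⟨[0x200000000000000,0x2490000000000],[⟨0,1,false⟩],[],0⟩)) (Tr.br (Tr.leaf ⟨[496,496,3598,496,3598],[⟨0,1,false⟩,⟨0,2,false⟩,⟨0,3,false⟩,⟨0,4,false⟩,⟨1,2,true⟩,⟨1,3,false⟩,⟨1,4,false⟩,⟨2,3,false⟩,⟨2,4,false⟩,⟨3,4,true⟩],[],0⟩)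 (Tr.leaf ⟨[0x8000000000000000000000000],[],[⟨89,[(0,true)]⟩,⟨91,[(0,true)]⟩,⟨93,[(0,true)]⟩,⟨95,[(0,true)]⟩],0⟩)))) (Tr.br (Tr.br (Tr.br (Tr.br (Tr.leaf ⟨[512,32],[⟨0,1,true⟩],[],0⟩) (Tr.leaf ⟨[0x800000000000000000000000000000000],[],[],0⟩)) (Tr.leaf ⟨[0x40000000000,0x92492400000000],[⟨0,1,true⟩],[],0⟩)) (Tr.br (Tr.leaf ⟨[3606,3606,3606,3606,488],[⟨0,1,true⟩,⟨0,2,true⟩,⟨0,3,false⟩,⟨0,4,true⟩,⟨1,2,false⟩,⟨1,3,false⟩,⟨1,4,false⟩,⟨2,3,true⟩,⟨2,4,false⟩,⟨3,4,false⟩],[],0⟩) (Tr.leaf ⟨[0x80000000000000000000000],[],[⟨87,[(0,false)]⟩],0⟩))) (Tr.br (Tr.br (Tr.leaf ⟨[2560,1056,128],[⟨0,1,true⟩,⟨0,2,false⟩,⟨1,2,false⟩],[],0⟩) (Tr.leaf ⟨[0x80000000000000],[],[⟨34,[(0,true)]⟩,⟨37,[(0,true)]⟩,⟨40,[(0,false)]⟩,⟨43,[(0,false)]⟩,⟨46,[(0,false)]⟩,⟨49,[(0,false)]⟩],0⟩)) (Tr.br (Tr.leaf ⟨[32768,32768],[⟨0,1,false⟩],[⟨21,[(0,true),(1,false)]⟩,⟨21,[(0,false),(1,true)]⟩],0⟩)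 (Tr.leaf ⟨[0x2000000000000000000000000000],[],[⟨107,[(0,true)]⟩],0⟩)))))
)
 (Tr.br (Tr.br (Tr.br (Tr.br (Tr.br (Tr.br (Tr.leaf ⟨[1024,96],[⟨0,1,false⟩],[],0⟩) (Tr.leaf ⟨[0x100000000000000000000000000000,0x280000000000000000000],[⟨0,1,false⟩],[],0⟩)) (Tr.leaf ⟨[0x400000,0x400000],[⟨0,1,false⟩],[⟨12,[(0,true),(1,false)]⟩,⟨12,[(0,false),(1,true)]⟩,⟨13,[(0,true),(1,false)]⟩,⟨13,[(0,false),(1,true)]⟩,⟨16,[(0,true),(1,false)]⟩,⟨16,[(0,false),(1,true)]⟩,⟨17,[(0,true),(1,false)]⟩,⟨17,[(0,false),(1,true)]⟩,⟨18,[(0,true),(1,false)]⟩,⟨18,[(0,false),(1,true)]⟩,⟨19,[(0,true),(1,false)]⟩,⟨19,[(0,false),(1,true)]⟩],0⟩)) (Tr.br (Tr.leaf ⟨[3072,610,3072,610],[⟨0,1,true⟩,⟨0,2,false⟩,⟨0,3,false⟩,⟨1,2,false⟩,⟨1,3,false⟩,⟨2,3,true⟩],[],0⟩) (Tr.leaf ⟨[0x80000000000000,0x400000000000000,0x2400000000],[⟨0,2,false⟩,⟨1,2,true⟩],[⟨40,[(0,false),(1,true)]⟩,⟨43,[(0,false),(1,true)]⟩,⟨46,[(0,false),(1,true)]⟩,⟨49,[(0,false),(1,true)]⟩,⟨34,[(0,true),(1,false)]⟩,⟨37,[(0,true),(1,false)]⟩],0⟩)))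 (Tr.br (Tr.br (Tr.br (Tr.leaf ⟨[160,336,3072],[⟨0,1,false⟩,⟨0,2,false⟩,⟨1,2,false⟩],[],0⟩) (Tr.leaf ⟨[0x400000000000000000000000000000000000000,0x80000000000000000000000000000000000000],[⟨0,1,false⟩],[],0⟩)) (Tr.leaf ⟨[0x8000000000000,0x92492400000000],[⟨0,1,true⟩],[],0⟩)) (Tr.br (Tr.leaf ⟨[412,3682,3682,3682,412],[⟨0,1,true⟩,⟨0,2,true⟩,⟨0,3,false⟩,⟨0,4,false⟩,⟨1,2,false⟩,⟨1,3,false⟩,⟨1,4,false⟩,⟨2,3,true⟩,⟨2,4,false⟩,⟨3,4,false⟩],[],0⟩) (Tr.leaf ⟨[0x2000000000000000000000000],[],[⟨95,[(0,true)]⟩],0⟩)))) (Tr.br (Tr.br (Tr.br (Tr.br (Tr.leaf ⟨[128,1024],[⟨0,1,false⟩],[],0⟩) (Tr.leaf ⟨[0x200000000000000000000000000000000],[],[],0⟩)) (Tr.leaf ⟨[0x200000000,0x200000000],[⟨0,1,false⟩],[⟨26,[(0,true),(1,false)]⟩,⟨26,[(0,false),(1,true)]⟩,⟨27,[(0,true),(1,false)]⟩,⟨27,[(0,false),(1,true)]⟩,⟨28,[(0,true),(1,false)]⟩,⟨28,[(0,false),(1,true)]⟩,⟨29,[(0,true),(1,false)]⟩,⟨29,[(0,false),(1,true)]⟩,⟨30,[(0,true),(1,false)]⟩,⟨30,[(0,false),(1,true)]⟩,⟨31,[(0,true),(1,false)]⟩,⟨31,[(0,false),(1,true)]⟩],0⟩))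 (Tr.br (Tr.leaf ⟨[2560,1534,1534,1534,2560],[⟨0,1,true⟩,⟨0,2,true⟩,⟨0,3,false⟩,⟨0,4,false⟩,⟨1,2,false⟩,⟨1,3,false⟩,⟨1,4,false⟩,⟨2,3,true⟩,⟨2,4,false⟩,⟨3,4,false⟩],[],0⟩) (Tr.leaf ⟨[0x20000000000000000000000],[],[⟨87,[(0,false)]⟩],0⟩))) (Tr.br (Tr.br (Tr.br (Tr.leaf ⟨[1024,14,2048],[⟨0,1,true⟩,⟨0,2,false⟩,⟨1,2,false⟩],[],0⟩) (Tr.leaf ⟨[],[],[⟨161,[]⟩],0⟩)) (Tr.leaf ⟨[0x2000000000000],[],[⟨52,[(0,true)]⟩,⟨55,[(0,true)]⟩],0⟩)) (Tr.br (Tr.leaf ⟨[8192,8192],[⟨0,1,false⟩],[⟨21,[(0,true),(1,false)]⟩,⟨21,[(0,false),(1,true)]⟩,⟨22,[(0,true),(1,false)]⟩,⟨22,[(0,false),(1,true)]⟩],0⟩) (Tr.leaf ⟨[0x800000000000000000000000000],[],[⟨97,[(0,false)]⟩,⟨99,[(0,false)]⟩],0⟩)))))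
 (Tr.br (Tr.br (Tr.br (Tr.br (Tr.br (Tr.leaf ⟨[1024,2],[⟨0,1,true⟩],[],0⟩) (Tr.leaf ⟨[0x4000000000000000000000000000000,0x200000000000000000000000000000],[⟨0,1,true⟩],[],0⟩)) (Tr.leaf ⟨[0x10000000,0x10000000],[⟨0,1,false⟩],[⟨33,[(0,true),(1,false)]⟩,⟨33,[(0,false),(1,true)]⟩],0⟩)) (Tr.br (Tr.leaf ⟨[1534,1534,1534,1534,2560],[⟨0,1,true⟩,⟨0,2,true⟩,⟨0,3,false⟩,⟨0,4,true⟩,⟨1,2,false⟩,⟨1,3,false⟩,⟨1,4,false⟩,⟨2,3,true⟩,⟨2,4,false⟩,⟨3,4,false⟩],[],0⟩) (Tr.leaf ⟨[0x2000000000000000000000],[],[⟨80,[(0,true)]⟩],0⟩))) (Tr.br (Tr.br (Tr.br (Tr.leaf ⟨[12,1026,400],[⟨0,1,true⟩,⟨0,2,false⟩,⟨1,2,false⟩],[],0⟩) (Tr.leaf ⟨[0x4000000000000000000000000000000000000000],[],[],0⟩)) (Tr.leaf ⟨[0x2000000000],[],[⟨55,[(0,false)]⟩],0⟩)) (Tr.br (Tr.leaf ⟨[3744,3744,3744,3744,350],[⟨0,1,true⟩,⟨0,2,true⟩,⟨0,3,false⟩,⟨0,4,true⟩,⟨1,2,false⟩,⟨1,3,false⟩,⟨1,4,false⟩,⟨2,3,true⟩,⟨2,4,false⟩,⟨3,4,false⟩],[],0⟩)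 (Tr.leaf ⟨[0x40000000000000000000000000,0x8000000000000000000000000],[⟨0,1,false⟩],[],0⟩)))) (Tr.br (Tr.br (Tr.br (Tr.br (Tr.leaf ⟨[2,32],[],[],0⟩) (Tr.leaf ⟨[0x40000000000000000000000000000000000000,0x854000000000000000000000000000000000],[⟨0,1,false⟩],[],0⟩)) (Tr.leaf ⟨[0x200000000000,0x82492400000000],[⟨0,1,true⟩],[],0⟩)) (Tr.br (Tr.leaf ⟨[496,3598,3598,3598,3598],[⟨0,1,true⟩,⟨0,2,false⟩,⟨0,3,true⟩,⟨0,4,false⟩,⟨1,2,true⟩,⟨1,3,false⟩,⟨1,4,false⟩,⟨2,3,false⟩,⟨2,4,false⟩,⟨3,4,true⟩],[],0⟩) (Tr.leaf ⟨[0x200000000000000000000000],[],[⟨85,[(0,false)]⟩,⟨87,[(0,false)]⟩],0⟩))) (Tr.br (Tr.br (Tr.leaf ⟨[496,526,496,526],[⟨0,1,true⟩,⟨0,2,false⟩,⟨0,3,false⟩,⟨1,2,false⟩,⟨1,3,false⟩,⟨2,3,true⟩],[],0⟩) (Tr.leaf ⟨[0x80000000000],[],[⟨55,[(0,false)]⟩],0⟩)) (Tr.br (Tr.leaf ⟨[0x20000,0x20000],[⟨0,1,false⟩],[⟨22,[(0,true),(1,false)]⟩,⟨22,[(0,false),(1,true)]⟩],0⟩)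 (Tr.leaf ⟨[0x8000000000000000000000000000],[],[⟨109,[(0,false)]⟩],0⟩)))))
)
)
)

noncomputable def s1_sc : Tr Sc := (Tr.leaf ⟨[34,37,40,43,46,49,52,55],[64,64,128,192,192,192,11,3]⟩)
noncomputable def s1_T : Tab := ⟨168,s1_ty,s1_ev,s1_ax,s1_sc⟩
def s1_S0 : St := ⟨0,0,0,0,0⟩
def s1_G0 : Ctx := ⟨23,0,0xfffffffffffffffff,0,0,s1_S0,none⟩
def s1_G1 : Ctx := ⟨23,0,0xfffffffffffffffff,0,0x200000,s1_S0,none⟩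
def s1_S1 : St := ⟨1,0xa00401,0,0,1⟩
def s1_G2 : Ctx := ⟨24,0,0x1fffffffffffffffff,0,0,s1_S1,none⟩
def s1_G3 : Ctx := ⟨26,0,0x6fffffffffffffffff,0,0x200000,s1_S0,none⟩
def s1_G4 : Ctx := ⟨26,0,0x6fffffffffffffffff,0,0x3200000,s1_S0,none⟩
def s1_G5 : Ctx := ⟨34,0,0xfefffffffffffffffff,0,0x3200000,s1_S0,none⟩
def s1_G6 : Ctx := ⟨58,31,0x7ffffffefffffffffffffffff,1,0x3200000,s1_S0,none⟩
def s1_G7 : Ctx := ⟨58,31,0x7ffffffefffffffffffffffff,1,0x80000003200000,s1_S0,none⟩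
def s1_S2 : St := ⟨1,0x480000200400801,0,0,1⟩
def s1_G8 : Ctx := ⟨59,31,0x1fffffffefffffffffffffffff,1,0x3200000,s1_S2,none⟩
def s1_G9 : Ctx := ⟨58,31,0x7ffffffefffffffffffffffff,1,0x80092403200000,s1_S0,none⟩
def s1_G10 : Ctx := ⟨58,31,0x7ffffffefffffffffffffffff,1,0x80492403200000,s1_S0,none⟩
def s1_S3 : St := ⟨1,0x800400040040081,0,0,1⟩
def s1_G11 : Ctx := ⟨60,31,0x27ffffffefffffffffffffffff,1,0x80092403200000,s1_S3,none⟩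
def s1_G12 : Ctx := ⟨58,31,0x7ffffffefffffffffffffffff,1,0x82492403200000,s1_S0,none⟩
def s1_S4 : St := ⟨1,0x1002000080080101,0,0,1⟩
def s1_G13 : Ctx := ⟨61,31,0x47ffffffefffffffffffffffff,1,0x80492403200000,s1_S4,none⟩
def s1_G14 : Ctx := ⟨58,31,0x7ffffffefffffffffffffffff,1,0x92492403200000,s1_S0,none⟩
def s1_G15 : Ctx := ⟨62,63,0x47ffffffefffffffffffffffff,1,0x80492403200000,s1_S4,none⟩
def s1_G16 : Ctx := ⟨63,127,0x47ffffffefffffffffffffffff,1,0x80492403200000,s1_S4,none⟩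
def s1_G17 : Ctx := ⟨65,255,0x47ffffffefffffffffffffffff,1,0x80492403200000,s1_S4,none⟩
def s1_G18 : Ctx := ⟨65,255,0x47ffffffefffffffffffffffff,1,0x1c080492403200000,s1_S4,none⟩
def s1_G19 : Ctx := ⟨66,287,0x27ffffffefffffffffffffffff,1,0x80092403200000,s1_S3,none⟩
def s1_G20 : Ctx := ⟨67,799,0x27ffffffefffffffffffffffff,1,0x80092403200000,s1_S3,none⟩
def s1_G21 : Ctx := ⟨68,1823,0x27ffffffefffffffffffffffff,1,0x80092403200000,s1_S3,none⟩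
def s1_G22 : Ctx := ⟨70,3871,0x27ffffffefffffffffffffffff,1,0x80092403200000,s1_S3,none⟩
def s1_G23 : Ctx := ⟨70,3871,0x27ffffffefffffffffffffffff,1,0x3c0080092403200000,s1_S3,none⟩
def s1_G24 : Ctx := ⟨72,4127,0x1fffffffefffffffffffffffff,1,0x3200000,s1_S2,none⟩
def s1_G25 : Ctx := ⟨74,12319,0x1fffffffefffffffffffffffff,1,0x3200000,s1_S2,none⟩
def s1_G26 : Ctx := ⟨76,28703,0x1fffffffefffffffffffffffff,1,0x3200000,s1_S2,none⟩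
def s1_G27 : Ctx := ⟨78,61471,0x1fffffffefffffffffffffffff,1,0x3200000,s1_S2,none⟩
def s1_G28 : Ctx := ⟨80,0x1f01f,0x1fffffffefffffffffffffffff,1,0x3200000,s1_S2,none⟩
def s1_G29 : Ctx := ⟨82,0x3f01f,0x1fffffffefffffffffffffffff,1,0x3200000,s1_S2,none⟩
def s1_G30 : Ctx := ⟨83,0x7f01f,0x1fffffffefffffffffffffffff,1,0x3200000,s1_S2,none⟩
def s1_G31 : Ctx := ⟨84,0xff01f,0x1fffffffefffffffffffffffff,1,0x3200000,s1_S2,none⟩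
def s1_G32 : Ctx := ⟨85,0x1ff01f,0x1fffffffefffffffffffffffff,1,0x3200000,s1_S2,none⟩
def s1_G33 : Ctx := ⟨85,0x1ff01f,0x1fffffffefffffffffffffffff,1,0x3c00000000003200000,s1_S2,none⟩
def s1_G34 : Ctx := ⟨87,0x3ff01f,0x19fffffffefffffffffffffffff,1,0x3c00000000003200000,s1_S2,none⟩
def s1_G35 : Ctx := ⟨89,0x7ff01f,0x79fffffffefffffffffffffffff,1,0x3c00000000003200000,s1_S2,none⟩
def s1_G36 : Ctx := ⟨91,0xfff01f,0x1f9fffffffefffffffffffffffff,1,0x3c00000000003200000,s1_S2,none⟩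
def s1_G37 : Ctx := ⟨93,0x1fff01f,0x7f9fffffffefffffffffffffffff,1,0x3c00000000003200000,s1_S2,none⟩
def s1_G38 : Ctx := ⟨95,0x3fff01f,0x1ff9fffffffefffffffffffffffff,1,0x3c00000000003200000,s1_S2,none⟩
def s1_G39 : Ctx := ⟨97,0x7fff01f,0x7ff9fffffffefffffffffffffffff,1,0x3c00000000003200000,s1_S2,none⟩
def s1_G40 : Ctx := ⟨99,0xffff01f,0x1fff9fffffffefffffffffffffffff,1,0x3c00000000003200000,s1_S2,none⟩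
def s1_G41 : Ctx := ⟨101,0x1ffff01f,0x7fff9fffffffefffffffffffffffff,1,0x3c00000000003200000,s1_S2,none⟩
def s1_G42 : Ctx := ⟨101,0x1ffff01f,0x7fff9fffffffefffffffffffffffff,1,0x10000003c00000000003200000,s1_S2,none⟩
def s1_G43 : Ctx := ⟨103,0x3ffff01f,0xffff9fffffffefffffffffffffffff,1,0x10000003c00000000003200000,s1_S2,none⟩
def s1_G44 : Ctx := ⟨105,0x7ffff01f,0x1ffff9fffffffefffffffffffffffff,1,0x10000003c00000000003200000,s1_S2,none⟩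
def s1_G45 : Ctx := ⟨107,0xfffff01f,0x7ffff9fffffffefffffffffffffffff,1,0x10000003c00000000003200000,s1_S2,none⟩
def s1_G46 : Ctx := ⟨109,0x1fffff01f,0x1fffff9fffffffefffffffffffffffff,1,0x10000003c00000000003200000,s1_S2,none⟩
def s1_G47 : Ctx := ⟨109,0x1fffff01f,0x1fffff9fffffffefffffffffffffffff,1,0x150000003c00000000003200000,s1_S2,none⟩
def s1_G48 : Ctx := ⟨111,0x3fffff01f,0x7fffff9fffffffefffffffffffffffff,1,0x150000003c00000000003200000,s1_S2,none⟩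
def s1_G49 : Ctx := ⟨113,0x7fffff01f,0x1ffffff9fffffffefffffffffffffffff,1,0x150000003c00000000003200000,s1_S2,none⟩
def s1_G50 : Ctx := ⟨115,0xffffff01f,0x7ffffff9fffffffefffffffffffffffff,1,0x150000003c00000000003200000,s1_S2,none⟩
def s1_G51 : Ctx := ⟨115,0xffffff01f,0x7ffffff9fffffffefffffffffffffffff,1,0x54150000003c00000000003200000,s1_S2,none⟩
def s1_G52 : Ctx := ⟨117,0x1ffffff01f,0xfffffff9fffffffefffffffffffffffff,1,0x54150000003c00000000003200000,s1_S2,none⟩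
def s1_G53 : Ctx := ⟨119,0x3ffffff01f,0x3fffffff9fffffffefffffffffffffffff,1,0x54150000003c00000000003200000,s1_S2,none⟩
def s1_G54 : Ctx := ⟨119,0x3ffffff01f,0x3fffffff9fffffffefffffffffffffffff,1,0x454150000003c00000000003200000,s1_S2,none⟩
def s1_G55 : Ctx := ⟨121,0x7ffffff01f,0x7fffffff9fffffffefffffffffffffffff,1,0x454150000003c00000000003200000,s1_S2,none⟩
def s1_G56 : Ctx := ⟨123,0xfffffff01f,0xffffffff9fffffffefffffffffffffffff,1,0x454150000003c00000000003200000,s1_S2,none⟩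
def s1_G57 : Ctx := ⟨125,0x1fffffff01f,0x1ffffffff9fffffffefffffffffffffffff,1,0x454150000003c00000000003200000,s1_S2,none⟩
def s1_G58 : Ctx := ⟨127,0x3fffffff01f,0x3ffffffff9fffffffefffffffffffffffff,1,0x454150000003c00000000003200000,s1_S2,none⟩
def s1_G59 : Ctx := ⟨127,0x3fffffff01f,0x3ffffffff9fffffffefffffffffffffffff,1,0x55454150000003c00000000003200000,s1_S2,none⟩
def s1_G60 : Ctx := ⟨129,0x7fffffff01f,0x7ffffffff9fffffffefffffffffffffffff,1,0x55454150000003c00000000003200000,s1_S2,none⟩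
def s1_G61 : Ctx := ⟨129,0x7fffffff01f,0x7ffffffff9fffffffefffffffffffffffff,1,0x155454150000003c00000000003200000,s1_S2,none⟩
def s1_G62 : Ctx := ⟨133,0x7fffffff01f,0x7fffffffff9fffffffefffffffffffffffff,1,0x155454150000003c00000000003200000,s1_S2,none⟩
def s1_G63 : Ctx := ⟨133,0x7fffffff01f,0x7fffffffff9fffffffefffffffffffffffff,1,0x1f55454150000003c00000000003200000,s1_S2,none⟩
def s1_G64 : Ctx := ⟨134,0x80000000000,0x1fffffffffffffffff,0,0,s1_S1,none⟩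
def s1_G65 : Ctx := ⟨136,0x180000000000,0x1fffffffffffffffff,0,0,s1_S1,none⟩
def s1_G66 : Ctx := ⟨138,0x380000000000,0x1fffffffffffffffff,0,0,s1_S1,none⟩
def s1_G67 : Ctx := ⟨140,0x780000000000,0x1fffffffffffffffff,0,0,s1_S1,none⟩
def s1_G68 : Ctx := ⟨141,0xf80000000000,0x1fffffffffffffffff,0,0,s1_S1,none⟩
def s1_G69 : Ctx := ⟨142,0x1f80000000000,0x1fffffffffffffffff,0,0,s1_S1,none⟩
def s1_G70 : Ctx := ⟨143,0x3f80000000000,0x1fffffffffffffffff,0,0,s1_S1,none⟩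
def s1_G71 : Ctx := ⟨145,0x7f80000000000,0x1fffffffffffffffff,0,0,s1_S1,none⟩
def s1_G72 : Ctx := ⟨146,0xff80000000000,0x1fffffffffffffffff,0,0,s1_S1,none⟩
def s1_G73 : Ctx := ⟨147,0x1ff80000000000,0x1fffffffffffffffff,0,0,s1_S1,none⟩
def s1_G74 : Ctx := ⟨148,0x3ff80000000000,0x1fffffffffffffffff,0,0,s1_S1,none⟩
def s1_G75 : Ctx := ⟨149,0x7ff80000000000,0x1fffffffffffffffff,0,0,s1_S1,none⟩
def s1_G76 : Ctx := ⟨151,0xfff80000000000,0x8000000000000000001fffffffffffffffff,0,0,s1_S1,none⟩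
def s1_G77 : Ctx := ⟨153,0x1fff80000000000,0x38000000000000000001fffffffffffffffff,0,0,s1_S1,none⟩
def s1_G78 : Ctx := ⟨155,0x3fff80000000000,0xf8000000000000000001fffffffffffffffff,0,0,s1_S1,none⟩
def s1_G79 : Ctx := ⟨157,0x7fff80000000000,0x3f8000000000000000001fffffffffffffffff,0,0,s1_S1,none⟩
def s1_G80 : Ctx := ⟨161,0x7fff80000000000,0x3ff8000000000000000001fffffffffffffffff,0,0,s1_S1,none⟩
def s1_G81 : Ctx := ⟨161,0x7fff80000000000,0x3ff8000000000000000001fffffffffffffffff,0,0x1e000000000000000000000000000000000000000,s1_S1,none⟩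
def s1_G82 : Ctx := ⟨168,0x7fff80000000000,0x3ff8000000000000000001fffffffffffffffff,0,0x1e000000000000000000000000000000000000000,s1_S1,none⟩
def s1_G83 : Ctx := ⟨168,0x7fff80000000000,0x7ff8000000000000000001fffffffffffffffff,0,0x1e000000000000000000000000000000000000000,s1_S1,none⟩
def s1_G84 : Ctx := ⟨168,0x7fff80000000000,0xbff8000000000000000001fffffffffffffffff,0,0x1e000000000000000000000000000000000000000,s1_S1,none⟩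
def s1_G85 : Ctx := ⟨168,0x7fff80000000000,0x7ff8000000000000000001fffffffffffffffff,0,0x3e000000000000000000000000000000000000000,s1_S1,none⟩
def s1_G86 : Ctx := ⟨168,0x7fff80000000000,0xbff8000000000000000001fffffffffffffffff,0,0xde000000000000000000000000000000000000000,s1_S1,none⟩
def s1_h2 : List HP := [⟨[0],[],(HT.leaf 2)⟩,⟨[1],[],(HT.leaf 2)⟩]
def s1_h75 : List HP := [⟨[0],[],(HT.br true 0 0 (HT.leaf 2) (HT.leaf 2))⟩,⟨[1],[],(HT.br true 0 0 (HT.leaf 2) (HT.leaf 2))⟩,⟨[2],[],(HT.br true 0 0 (HT.leaf 2) (HT.leaf 2))⟩,⟨[3],[],(HT.br true 0 0 (HT.leaf 2) (HT.leaf 2))⟩]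
def s1_h98 : List HP := [⟨[0],[],(HT.br true 0 0 (HT.leaf 2) (HT.leaf 2))⟩,⟨[1],[],(HT.br true 0 0 (HT.leaf 2) (HT.leaf 2))⟩,⟨[2],[],(HT.br true 0 0 (HT.leaf 2) (HT.leaf 2))⟩,⟨[3],[],(HT.br true 0 0 (HT.leaf 2) (HT.leaf 2))⟩]

end Pool.Agent.Lib.MP_849b2e_co
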