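import Pool.Agent.Lib.MP_849b2e_co.Fast
import Pool.Agent.Lib.MP_849b2e_co.Ts1
import Pool.Agent.Lib.MP_849b2e_co.TbD
import Pool.Agent.Lib.MP_849b2e_co.TbS113

set_option maxRecDepth 100000
set_option linter.all false
namespace Pool.Agent.Lib.MP_849b2e_co

noncomputable def s1_o0c : Pq := (Pq.cons (Pq.L [] 2 (Pf.C 1 256))
 (Pq.cons (Pq.L [] 2 (Pf.C 1 256))
 (Pq.cons (Pq.L [] 2 (Pf.C 1 256))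
 (Pq.cons (Pq.L [] 2 (Pf.C 1 256))
 (Pq.cons (Pq.L [] 2 (Pf.C 1 256))
 (Pq.cons (Pq.L [] 2 (Pf.C 1 256))
 (Pq.cons (Pq.L [] 2 (Pf.C 1 256))
 (Pq.cons (Pq.L [] 2 (Pf.C 1 256))
 (Pq.cons (Pq.L [] 4 (Pf.C 6 130))
 (Pq.cons (Pq.L [] 2 (Pf.C 7 2))
 (Pq.cons (Pq.L [] 2 (Pf.C 1 256))
 (Pq.cons (Pq.L [] 2 (Pf.C 1 256))
 (Pq.cons (Pq.L [] 2 (Pf.C 1 256))
 (Pq.cons (Pq.L [] 2 (Pf.C 1 256))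
 (Pq.cons (Pq.L [] 2 (Pf.C 1 256))
 (Pq.cons (Pq.L [] 2 (Pf.C 1 256))
 (Pq.cons (Pq.L [] 2 (Pf.C 1 256))
 (Pq.cons (Pq.L [] 2 (Pf.C 1 256))
 (Pq.cons (Pq.L [] 4 (Pf.C 4 257))
 (Pq.cons (Pq.L [] 2 (Pf.C 1 256))
 (Pq.cons (Pq.L [] 2 (Pf.C 1 256))
 (Pq.cons (Pq.L [] 2 (Pf.C 1 256))
 (Pq.cons (Pq.L [] 2 (Pf.C 1 256))
 (Pq.cons (Pq.L [] 2 (Pf.C 1 256))
 (Pq.cons (Pq.L [] 2 (Pf.C 1 256))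
 (Pq.cons (Pq.L [] 2 (Pf.C 1 256))
 (Pq.cons (Pq.L [] 2 (Pf.C 1 256))
 (Pq.cons (Pq.L [] 4 (Pf.C 4 257))
 (Pq.cons (Pq.L [] 4 (Pf.C 8 130))
 (Pq.cons (Pq.L [] 2 (Pf.C 1 256))
 (Pq.cons (Pq.L [] 2 (Pf.C 1 256))
 (Pq.cons (Pq.L [] 2 (Pf.C 1 256))
 (Pq.cons (Pq.L [] 2 (Pf.C 1 256))
 (Pq.cons (Pq.L [] 2 (Pf.C 1 256))
 (Pq.cons (Pq.L [] 2 (Pf.C 1 256))
 (Pq.cons (Pq.L [] 2 (Pf.C 1 256))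
 (Pq.cons (Pq.L [] 2 (Pf.C 1 256))
 (Pq.cons (Pq.L [] 4 (Pf.C 5 257))
 (Pq.cons (Pq.L [] 4 (Pf.C 9 130))
 (Pq.cons (Pq.L [] 2 (Pf.C 1 256))
 (Pq.cons (Pq.L [] 2 (Pf.C 1 256))
 (Pq.cons (Pq.L [] 2 (Pf.C 1 256))
 (Pq.cons (Pq.L [] 2 (Pf.C 1 256))
 (Pq.cons (Pq.L [] 2 (Pf.C 1 256))
 (Pq.cons (Pq.L [] 2 (Pf.C 1 256))
 (Pq.cons (Pq.L [] 2 (Pf.C 1 256))
 (Pq.cons (Pq.L [] 2 (Pf.C 1 256))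
 (Pq.cons (Pq.L [] 2 (Pf.C 13 2))
 (Pq.cons (Pq.L [] 4 (Pf.C 3 130))
 (Pq.cons (Pq.L [] 2 (Pf.C 1 256))
 (Pq.cons (Pq.L [] 2 (Pf.C 1 256))
 (Pq.cons (Pq.L [] 2 (Pf.C 1 256))
 (Pq.cons (Pq.L [] 2 (Pf.C 1 256))
 (Pq.cons (Pq.L [] 2 (Pf.C 1 256))
 (Pq.cons (Pq.L [] 2 (Pf.C 1 256))
 (Pq.cons (Pq.L [] 2 (Pf.C 1 256))
 (Pq.cons (Pq.L [] 2 (Pf.C 1 256))
 (Pq.cons (Pq.L [] 4 (Pf.C 6 130))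
 (Pq.cons (Pq.L [] 4 (Pf.C 3 130))
 (Pq.cons (Pq.L [] 2 (Pf.C 1 256))
 (Pq.cons (Pq.L [] 2 (Pf.C 1 256))
 (Pq.cons (Pq.L [] 2 (Pf.C 1 256))
 (Pq.cons (Pq.L [] 2 (Pf.C 1 256))
 (Pq.cons (Pq.L [] 2 (Pf.C 1 256))
 (Pq.cons (Pq.L [] 2 (Pf.C 1 256))
 (Pq.cons (Pq.L [] 2 (Pf.C 1 256))
 (Pq.cons (Pq.L [] 2 (Pf.C 1 256))
 (Pq.cons (Pq.L [] 4 (Pf.C 11 257))
 (Pq.cons (Pq.L [] 2 (Pf.C 1 256))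
 (Pq.cons (Pq.L [] 2 (Pf.C 1 256))
 (Pq.cons (Pq.L [] 2 (Pf.C 1 256))
 (Pq.cons (Pq.L [] 2 (Pf.C 1 256))
 (Pq.cons (Pq.L [] 2 (Pf.C 1 256))
 (Pq.cons (Pq.L [] 2 (Pf.C 1 256))
 (Pq.cons (Pq.L [] 2 (Pf.C 1 256))
 (Pq.cons (Pq.L [] 2 (Pf.C 1 256))
 (Pq.cons (Pq.L [] 4 (Pf.C 6 257))
 (Pq.cons (Pq.L [] 4 (Pf.C 4 130))
 (Pq.cons (Pq.L [] 4 (Pf.C 4 130))
 (Pq.cons (Pq.L [] 4 (Pf.C 5 130))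
 (Pq.cons (Pq.L [] 2 (Pf.C 13 256))
 (Pq.cons (Pq.L [] 4 (Pf.C 6 257))
 (Pq.cons (Pq.L [] 2 (Pf.C 2 256))
 (Pq.cons (Pq.L [] 2 (Pf.C 2 256))
 (Pq.cons (Pq.L [] 2 (Pf.C 2 256))
 (Pq.cons (Pq.L [] 2 (Pf.C 7 256))
 (Pq.cons (Pq.L [] 4 (Pf.C 3 257))
 (Pq.cons (Pq.L [] 4 (Pf.C 3 257))
 (Pq.cons (Pq.L [] 4 (Pf.C 11 130))
 (Pq.cons (Pq.L [] 2 (Pf.C 2 256))
 (Pq.cons (Pq.L [] 2 (Pf.C 2 256))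
 (Pq.cons (Pq.L [] 2 (Pf.C 2 256))
 (Pq.cons (Pq.L [] 4 (Pf.C 8 257))
 (Pq.cons (Pq.L [] 4 (Pf.C 9 257))
 (Pq.cons (Pq.L [] 2 (Pf.C 2 256))
 (Pq.cons (Pq.L [] 2 (Pf.C 2 256))
 (Pq.cons (Pq.L [] 2 (Pf.C 2 256))
 Pq.nil)))))))))))))))))))))))))))))))))))))))))))))))))))))))))))))))))))))))))))))))))))))))))))))))))
theorem s1_o0 : AllRef s1_T (pureCtx 11 59) (twinObl [1,2,3,4,5,6,7,8,9,10,11] 0 [1024,1536,512,512,1024,1024,1280,1792,192,142,243]) :=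
  chkPq_sound s1_o0c _ (by decide +kernel)
noncomputable def s1_o1c : Pq := Pq.nil
theorem s1_o1 : AllRef s1_T s1_G0 (extObl 21 [] []) :=
  chkPq_sound s1_o1c _ (by decide +kernel)
noncomputable def s1_o2c : Pq := (Pq.cons (Pq.L [] 0 (Pf.B 1 0 (Pf.W 60 128 [] [] Pf.nil) (Pf.C 1 1)))
 (Pq.cons (Pq.L [] 0 (Pf.B 1 0 (Pf.W 61 128 [] [] Pf.nil) (Pf.C 1 1)))
 Pq.nil))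
theorem s1_o2 : AllRef s1_T s1_G1 (hitObl [14,15] s1_h2) :=
  chkPq_sound s1_o2c _ (by decide +kernel)
noncomputable def s1_o3c : Pq := (Pq.cons (Pq.L [] 0 (Pf.C 69 0))
 (Pq.cons (Pq.L [] 0 (Pf.C 70 0))
 Pq.nil))
theorem s1_o3 : AllRef s1_T s1_G3 (List.map pat1 [24,25]) :=
  chkPq_sound s1_o3c _ (by decide +kernel)
noncomputable def s1_o4c : Pq := (Pq.cons (Pq.L [] 2 (Pf.C 1 256))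
 (Pq.cons (Pq.L [] 2 (Pf.C 1 256))
 (Pq.cons (Pq.L [] 2 (Pf.C 1 256))
 (Pq.cons (Pq.L [] 2 (Pf.C 1 256))
 (Pq.cons (Pq.L [] 2 (Pf.C 1 256))
 (Pq.cons (Pq.L [] 2 (Pf.C 1 256))
 (Pq.cons (Pq.L [] 4 (Pf.C 6 130))
 (Pq.cons (Pq.L [] 2 (Pf.C 1 256))
 (Pq.cons (Pq.L [] 2 (Pf.C 1 256))
 (Pq.cons (Pq.L [] 2 (Pf.C 1 256))
 (Pq.cons (Pq.L [] 2 (Pf.C 1 256))
 (Pq.cons (Pq.L [] 2 (Pf.C 1 256))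
 (Pq.cons (Pq.L [] 2 (Pf.C 1 256))
 (Pq.cons (Pq.L [] 4 (Pf.C 4 257))
 (Pq.cons (Pq.L [] 2 (Pf.C 1 256))
 (Pq.cons (Pq.L [] 2 (Pf.C 1 256))
 (Pq.cons (Pq.L [] 2 (Pf.C 1 256))
 (Pq.cons (Pq.L [] 2 (Pf.C 1 256))
 (Pq.cons (Pq.L [] 2 (Pf.C 1 256))
 (Pq.cons (Pq.L [] 2 (Pf.C 1 256))
 (Pq.cons (Pq.L [] 2 (Pf.C 13 2))
 (Pq.cons (Pq.L [] 2 (Pf.C 1 256))
 (Pq.cons (Pq.L [] 2 (Pf.C 1 256))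
 (Pq.cons (Pq.L [] 2 (Pf.C 1 256))
 (Pq.cons (Pq.L [] 2 (Pf.C 1 256))
 (Pq.cons (Pq.L [] 2 (Pf.C 1 256))
 (Pq.cons (Pq.L [] 2 (Pf.C 1 256))
 (Pq.cons (Pq.L [] 4 (Pf.C 6 130))
 (Pq.cons (Pq.L [] 2 (Pf.C 1 256))
 (Pq.cons (Pq.L [] 2 (Pf.C 1 256))
 (Pq.cons (Pq.L [] 2 (Pf.C 1 256))
 (Pq.cons (Pq.L [] 2 (Pf.C 1 256))
 (Pq.cons (Pq.L [] 2 (Pf.C 1 256))
 (Pq.cons (Pq.L [] 2 (Pf.C 1 256))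
 (Pq.cons (Pq.L [] 2 (Pf.C 1 256))
 (Pq.cons (Pq.L [] 2 (Pf.C 1 256))
 (Pq.cons (Pq.L [] 2 (Pf.C 1 256))
 (Pq.cons (Pq.L [] 2 (Pf.C 1 256))
 (Pq.cons (Pq.L [] 2 (Pf.C 1 256))
 (Pq.cons (Pq.L [] 2 (Pf.C 1 256))
 (Pq.cons (Pq.L [] 4 (Pf.C 6 257))
 (Pq.cons (Pq.L [] 4 (Pf.C 4 130))
 (Pq.cons (Pq.L [] 2 (Pf.C 13 256))
 (Pq.cons (Pq.L [] 4 (Pf.C 6 257))
 (Pq.cons (Pq.L [] 2 (Pf.C 2 256))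
 (Pq.cons (Pq.L [] 2 (Pf.C 2 256))
 (Pq.cons (Pq.L [] 2 (Pf.C 2 256))
 (Pq.cons (Pq.L [] 2 (Pf.C 2 256))
 Pq.nil))))))))))))))))))))))))))))))))))))))))))))))))
theorem s1_o4 : AllRef s1_T s1_G4 (twinObl [12,13,16,17,18,19,20,22] 0 [128,128,128,128,192,192,48,63]) :=
  chkPq_sound s1_o4c _ (by decide +kernel)
noncomputable def s1_o5c : Pq := (Pq.cons (Pq.L [] 1 (Pf.C 1 128))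
 (Pq.cons (Pq.L [] 1 (Pf.C 1 128))
 (Pq.cons (Pq.L [] 1 (Pf.C 1 128))
 (Pq.cons (Pq.L [] 1 (Pf.C 1 128))
 (Pq.cons (Pq.L [] 1 (Pf.C 1 128))
 (Pq.cons (Pq.L [] 1 (Pf.C 1 128))
 (Pq.cons (Pq.L [] 1 (Pf.C 6 1))
 (Pq.cons (Pq.L [] 1 (Pf.C 1 128))
 (Pq.cons (Pq.L [] 1 (Pf.C 1 128))
 (Pq.cons (Pq.L [] 1 (Pf.C 1 128))
 (Pq.cons (Pq.L [] 1 (Pf.C 1 128))
 (Pq.cons (Pq.L [] 1 (Pf.C 1 128))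
 (Pq.cons (Pq.L [] 1 (Pf.C 1 128))
 (Pq.cons (Pq.L [] 1 (Pf.C 4 128))
 (Pq.cons (Pq.L [] 1 (Pf.C 1 128))
 (Pq.cons (Pq.L [] 1 (Pf.C 1 128))
 (Pq.cons (Pq.L [] 1 (Pf.C 1 128))
 (Pq.cons (Pq.L [] 1 (Pf.C 1 128))
 (Pq.cons (Pq.L [] 1 (Pf.C 1 128))
 (Pq.cons (Pq.L [] 1 (Pf.C 1 128))
 (Pq.cons (Pq.L [] 1 (Pf.C 13 1))
 (Pq.cons (Pq.L [] 1 (Pf.C 1 128))
 (Pq.cons (Pq.L [] 1 (Pf.C 1 128))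
 (Pq.cons (Pq.L [] 1 (Pf.C 1 128))
 (Pq.cons (Pq.L [] 1 (Pf.C 1 128))
 (Pq.cons (Pq.L [] 1 (Pf.C 1 128))
 (Pq.cons (Pq.L [] 1 (Pf.C 1 128))
 (Pq.cons (Pq.L [] 1 (Pf.C 6 1))
 (Pq.cons (Pq.L [] 1 (Pf.C 1 128))
 (Pq.cons (Pq.L [] 1 (Pf.C 1 128))
 (Pq.cons (Pq.L [] 1 (Pf.C 1 128))
 (Pq.cons (Pq.L [] 1 (Pf.C 1 128))
 (Pq.cons (Pq.L [] 1 (Pf.C 1 128))
 (Pq.cons (Pq.L [] 1 (Pf.C 1 128))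
 (Pq.cons (Pq.L [] 1 (Pf.C 1 128))
 (Pq.cons (Pq.L [] 1 (Pf.C 1 128))
 (Pq.cons (Pq.L [] 1 (Pf.C 1 128))
 (Pq.cons (Pq.L [] 1 (Pf.C 1 128))
 (Pq.cons (Pq.L [] 1 (Pf.C 1 128))
 (Pq.cons (Pq.L [] 1 (Pf.C 1 128))
 (Pq.cons (Pq.L [] 1 (Pf.C 6 128))
 (Pq.cons (Pq.L [] 1 (Pf.C 4 1))
 (Pq.cons (Pq.L [] 1 (Pf.C 13 128))
 (Pq.cons (Pq.L [] 1 (Pf.C 6 128))
 (Pq.cons (Pq.L [] 1 (Pf.C 2 128))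
 (Pq.cons (Pq.L [] 1 (Pf.C 2 128))
 (Pq.cons (Pq.L [] 1 (Pf.C 2 128))
 (Pq.cons (Pq.L [] 1 (Pf.C 2 128))
 (Pq.cons (Pq.L [] 1 (Pf.C 1 128))
 (Pq.cons (Pq.L [] 1 (Pf.C 1 128))
 (Pq.cons (Pq.L [] 1 (Pf.C 1 128))
 (Pq.cons (Pq.L [] 1 (Pf.C 1 128))
 (Pq.cons (Pq.L [] 1 (Pf.C 1 128))
 (Pq.cons (Pq.L [] 1 (Pf.C 1 128))
 (Pq.cons (Pq.L [] 1 (Pf.C 6 1))
 (Pq.cons (Pq.L [] 1 (Pf.C 1 128))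
 (Pq.cons (Pq.L [] 1 (Pf.C 1 128))
 (Pq.cons (Pq.L [] 1 (Pf.C 1 128))
 (Pq.cons (Pq.L [] 1 (Pf.C 1 128))
 (Pq.cons (Pq.L [] 1 (Pf.C 1 128))
 (Pq.cons (Pq.L [] 1 (Pf.C 1 128))
 (Pq.cons (Pq.L [] 1 (Pf.C 4 128))
 (Pq.cons (Pq.L [] 1 (Pf.C 1 128))
 (Pq.cons (Pq.L [] 1 (Pf.C 1 128))
 (Pq.cons (Pq.L [] 1 (Pf.C 1 128))
 (Pq.cons (Pq.L [] 1 (Pf.C 1 128))
 (Pq.cons (Pq.L [] 1 (Pf.C 1 128))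
 (Pq.cons (Pq.L [] 1 (Pf.C 1 128))
 (Pq.cons (Pq.L [] 1 (Pf.C 13 1))
 (Pq.cons (Pq.L [] 1 (Pf.C 1 128))
 (Pq.cons (Pq.L [] 1 (Pf.C 1 128))
 (Pq.cons (Pq.L [] 1 (Pf.C 1 128))
 (Pq.cons (Pq.L [] 1 (Pf.C 1 128))
 (Pq.cons (Pq.L [] 1 (Pf.C 1 128))
 (Pq.cons (Pq.L [] 1 (Pf.C 1 128))
 (Pq.cons (Pq.L [] 1 (Pf.C 6 1))
 (Pq.cons (Pq.L [] 1 (Pf.C 1 128))
 (Pq.cons (Pq.L [] 1 (Pf.C 1 128))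
 (Pq.cons (Pq.L [] 1 (Pf.C 1 128))
 (Pq.cons (Pq.L [] 1 (Pf.C 1 128))
 (Pq.cons (Pq.L [] 1 (Pf.C 1 128))
 (Pq.cons (Pq.L [] 1 (Pf.C 1 128))
 (Pq.cons (Pq.L [] 1 (Pf.C 1 128))
 (Pq.cons (Pq.L [] 1 (Pf.C 1 128))
 (Pq.cons (Pq.L [] 1 (Pf.C 1 128))
 (Pq.cons (Pq.L [] 1 (Pf.C 1 128))
 (Pq.cons (Pq.L [] 1 (Pf.C 1 128))
 (Pq.cons (Pq.L [] 1 (Pf.C 1 128))
 (Pq.cons (Pq.L [] 1 (Pf.C 6 128))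
 (Pq.cons (Pq.L [] 1 (Pf.C 4 1))
 (Pq.cons (Pq.L [] 1 (Pf.C 13 128))
 (Pq.cons (Pq.L [] 1 (Pf.C 6 128))
 (Pq.cons (Pq.L [] 1 (Pf.C 2 128))
 (Pq.cons (Pq.L [] 1 (Pf.C 2 128))
 (Pq.cons (Pq.L [] 1 (Pf.C 2 128))
 (Pq.cons (Pq.L [] 1 (Pf.C 2 128))
 Pq.nil))))))))))))))))))))))))))))))))))))))))))))))))))))))))))))))))))))))))))))))))))))))))))))))))
theorem s1_o5 : AllRef s1_T s1_G5 (blockObl [26,27,28,29,30,31,32,33] [64,64,128,192,192,192,11,3] [128,128,128,128,192,192,48,63] [128,128,128,128,192,192,48,63]) :=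
  chkPq_sound s1_o5c _ (by decide +kernel)
noncomputable def s1_o6c : Pq := Pq.nil
theorem s1_o6 : AllRef s1_T s1_G6 (extObl 55 [] []) :=
  chkPq_sound s1_o6c _ (by decide +kernel)
noncomputable def s1_o7c : Pq := (Pq.cons (Pq.L [] 0 (Pf.W 86 0 [] [] Pf.nil))
 (Pq.cons (Pq.L [] 0 (Pf.W 87 0 [] [] Pf.nil))
 (Pq.cons (Pq.L [] 0 (Pf.W 88 0 [] [] Pf.nil))
 (Pq.cons (Pq.L [] 0 (Pf.W 89 0 [] [] Pf.nil))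
 Pq.nil))))
theorem s1_o7 : AllRef s1_T s1_G7 (List.map pat1 [34,37,40,43]) :=
  chkPq_sound s1_o7c _ (by decide +kernel)
noncomputable def s1_o8c : Pq := Pq.nil
theorem s1_o8 : AllRef s1_T s1_G9 (extObl 46 [] []) :=
  chkPq_sound s1_o8c _ (by decide +kernel)
noncomputable def s1_o9c : Pq := Pq.nil
theorem s1_o9 : AllRef s1_T s1_G10 (extObl 49 [] []) :=
  chkPq_sound s1_o9c _ (by decide +kernel)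
noncomputable def s1_o10c : Pq := (Pq.cons (Pq.L [] 0 (Pf.W 92 0 [] [] Pf.nil))
 Pq.nil)
theorem s1_o10 : AllRef s1_T s1_G12 (List.map pat1 [52]) :=
  chkPq_sound s1_o10c _ (by decide +kernel)
noncomputable def s1_o11c : Pq := Pq.nil
theorem s1_o11 : AllRef s1_T s1_G13 (ptObl 49 PT.kid []) :=
  chkPq_sound s1_o11c _ (by decide +kernel)
noncomputable def s1_o12c : Pq := (Pq.cons (Pq.L [0] 0 (Pf.C 1 1))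
 Pq.nil)
theorem s1_o12 : AllRef s1_T s1_G15 (ptObl 61 (PT.br 0 PT.kid PT.ref) []) :=
  chkPq_sound s1_o12c _ (by decide +kernel)
noncomputable def s1_o13c : Pq := Pq.nil
theorem s1_o13 : AllRef s1_T s1_G16 (ptObl 52 (PT.br 0 PT.kid PT.kid) []) :=
  chkPq_sound s1_o13c _ (by decide +kernel)
noncomputable def s1_o14c : Pq := (Pq.cons (Pq.L [0] 0 (Pf.W 91 0 [] [1] (Pf.cons (Pf.B 2 1 (Pf.T 2 7 (Pf.cons (Pf.W 102 32769 [] [] (Pf.cons (Pf.B 3 2 (Pf.C 31 0x400181) (Pf.C 2 259)) Pf.nil)) Pf.nil)) (Pf.T 2 7 (Pf.cons (Pf.W 92 2 [] [0,1] (Pf.cons (Pf.B 3 1 (Pf.B 3 0 (Pf.T 3 5 (Pf.cons (Pf.T 3 6 (Pf.cons (Pf.W 102 32771 [] [] (Pf.cons (Pf.B 4 2 (Pf.C 31 0x400203) (Pf.C 2 260)) Pf.nil)) Pf.nil)) Pf.nil)) (Pf.C 1 3)) (Pf.C 1 131))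 Pf.nil)) Pf.nil))) Pf.nil)))
 (Pq.cons (Pq.L [0] 0 (Pf.W 91 0 [] [1] (Pf.cons (Pf.B 2 1 (Pf.T 2 7 (Pf.cons (Pf.W 92 2 [] [0,1] (Pf.cons (Pf.B 3 0 (Pf.B 3 1 (Pf.T 3 5 (Pf.cons (Pf.T 3 6 (Pf.cons (Pf.W 102 32771 [] [] (Pf.cons (Pf.B 4 2 (Pf.C 31 0x400203) (Pf.C 2 260)) Pf.nil)) Pf.nil)) Pf.nil)) (Pf.C 31 0x400083)) (Pf.C 1 3)) Pf.nil)) Pf.nil)) (Pf.C 2 130)) Pf.nil)))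
 (Pq.cons (Pq.L [0] 0 (Pf.W 92 1 [] [0] (Pf.cons (Pf.B 2 0 (Pf.T 2 5 (Pf.cons (Pf.T 2 6 (Pf.cons (Pf.W 102 16386 [] [] (Pf.cons (Pf.B 3 1 (Pf.C 31 0x200182) (Pf.C 2 131)) Pf.nil)) Pf.nil)) Pf.nil)) (Pf.C 1 2)) Pf.nil)))
 Pq.nil)))
theorem s1_o14 : AllRef s1_T s1_G17 (List.map pat1 [62,63,64]) :=
  chkPq_sound s1_o14c _ (by decide +kernel)
noncomputable def s1_o15c : Pq := Pq.nil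
theorem s1_o15 : AllRef s1_T s1_G11 (ptObl 46 PT.kid []) :=
  chkPq_sound s1_o15c _ (by decide +kernel)
noncomputable def s1_o16c : Pq := (Pq.cons (Pq.L [0] 0 (Pf.C 1 1))
 Pq.nil)
theorem s1_o16 : AllRef s1_T s1_G19 (ptObl 65 (PT.br 0 PT.kid PT.ref) []) :=
  chkPq_sound s1_o16c _ (by decide +kernel)
noncomputable def s1_o17c : Pq := (Pq.cons (Pq.L [0] 0 (Pf.C 1 1))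
 Pq.nil)
theorem s1_o17 : AllRef s1_T s1_G20 (ptObl 49 (PT.br 0 PT.kid PT.ref) []) :=
  chkPq_sound s1_o17c _ (by decide +kernel)
noncomputable def s1_o18c : Pq := Pq.nil
theorem s1_o18 : AllRef s1_T s1_G21 (ptObl 52 (PT.br 0 PT.kid PT.kid) []) :=
  chkPq_sound s1_o18c _ (by decide +kernel)
noncomputable def s1_o19c : Pq := (Pq.cons (Pq.L [0] 0 (Pf.W 90 0 [] [1] (Pf.cons (Pf.B 2 1 (Pf.T 2 11 (Pf.cons (Pf.W 101 32769 [] [] (Pf.cons (Pf.B 3 2 (Pf.C 31 0x400181) (Pf.C 2 259)) Pf.nil)) Pf.nil)) (Pf.T 2 11 (Pf.cons (Pf.W 92 2 [] [0,1] (Pf.cons (Pf.B 3 1 (Pf.B 3 0 (Pf.T 3 8 (Pf.cons (Pf.T 3 9 (Pf.cons (Pf.W 101 32771 [] [] (Pf.cons (Pf.B 4 2 (Pf.C 31 0x400203) (Pf.C 2 260)) Pf.nil)) Pf.nil)) Pf.nil)) (Pf.C 1 3)) (Pf.C 1 131))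 (Pf.cons (Pf.B 3 1 (Pf.C 22 49409) (Pf.C 1 131)) Pf.nil))) Pf.nil))) Pf.nil)))
 (Pq.cons (Pq.L [0] 0 (Pf.W 90 0 [] [1] (Pf.cons (Pf.B 2 1 (Pf.C 22 16640) (Pf.T 2 11 (Pf.cons (Pf.W 92 2 [] [0,1] (Pf.cons (Pf.B 3 1 (Pf.B 3 0 (Pf.T 3 8 (Pf.cons (Pf.T 3 9 (Pf.cons (Pf.W 101 32771 [] [] (Pf.cons (Pf.B 4 2 (Pf.C 31 0x400203) (Pf.C 2 260)) Pf.nil)) Pf.nil)) Pf.nil)) (Pf.C 1 3)) (Pf.C 1 131)) (Pf.cons (Pf.B 3 0 (Pf.C 22 49408) (Pf.C 1 3)) Pf.nil))) Pf.nil))) Pf.nil)))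
 (Pq.cons (Pq.L [0] 0 (Pf.W 90 0 [] [1] (Pf.cons (Pf.B 2 1 (Pf.T 2 11 (Pf.cons (Pf.W 92 2 [] [0,1] (Pf.cons (Pf.B 3 0 (Pf.B 3 1 (Pf.T 3 8 (Pf.cons (Pf.T 3 9 (Pf.cons (Pf.W 101 32771 [] [] (Pf.cons (Pf.B 4 2 (Pf.C 31 0x400203) (Pf.C 2 260)) Pf.nil)) Pf.nil)) Pf.nil)) (Pf.C 31 0x400083)) (Pf.C 1 3)) (Pf.cons (Pf.B 3 0 (Pf.C 22 49408) (Pf.C 1 3)) Pf.nil))) Pf.nil)) (Pf.C 2 130)) Pf.nil)))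
 (Pq.cons (Pq.L [0] 0 (Pf.W 92 1 [] [0] (Pf.cons (Pf.B 2 0 (Pf.T 2 8 (Pf.cons (Pf.T 2 9 (Pf.cons (Pf.W 101 16386 [] [] (Pf.cons (Pf.B 3 1 (Pf.C 31 0x200182) (Pf.C 2 131)) Pf.nil)) Pf.nil)) Pf.nil)) (Pf.C 1 2)) (Pf.cons (Pf.B 2 0 (Pf.C 22 32896) (Pf.C 1 2)) Pf.nil))))
 Pq.nil))))
theorem s1_o19 : AllRef s1_T s1_G22 (List.map pat1 [66,67,68,69]) :=
  chkPq_sound s1_o19c _ (by decide +kernel)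
noncomputable def s1_o20c : Pq := Pq.nil
theorem s1_o20 : AllRef s1_T s1_G8 (ptObl 34 (PT.br 0 PT.kid PT.kid) []) :=
  chkPq_sound s1_o20c _ (by decide +kernel)
noncomputable def s1_o21c : Pq := Pq.nil
theorem s1_o21 : AllRef s1_T s1_G24 (ptObl 37 (PT.br 0 PT.kid PT.kid) []) :=
  chkPq_sound s1_o21c _ (by decide +kernel)
noncomputable def s1_o22c : Pq := Pq.nil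
theorem s1_o22 : AllRef s1_T s1_G25 (ptObl 40 (PT.br 0 PT.kid PT.kid) []) :=
  chkPq_sound s1_o22c _ (by decide +kernel)
noncomputable def s1_o23c : Pq := Pq.nil
theorem s1_o23 : AllRef s1_T s1_G26 (ptObl 43 (PT.br 0 PT.kid PT.kid) []) :=
  chkPq_sound s1_o23c _ (by decide +kernel)
noncomputable def s1_o24c : Pq := Pq.nil
theorem s1_o24 : AllRef s1_T s1_G27 (ptObl 46 (PT.br 0 PT.kid PT.kid) []) :=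
  chkPq_sound s1_o24c _ (by decide +kernel)
noncomputable def s1_o25c : Pq := Pq.nil
theorem s1_o25 : AllRef s1_T s1_G28 (ptObl 49 (PT.br 0 PT.kid PT.kid) []) :=
  chkPq_sound s1_o25c _ (by decide +kernel)
noncomputable def s1_o26c : Pq := (Pq.cons (Pq.L [0] 0 (Pf.C 2 1))
 Pq.nil)
theorem s1_o26 : AllRef s1_T s1_G29 (ptObl 52 (PT.br 0 PT.kid PT.ref) []) :=
  chkPq_sound s1_o26c _ (by decide +kernel)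
noncomputable def s1_o27c : Pq := Pq.nil
theorem s1_o27 : AllRef s1_T s1_G30 (ptObl 55 PT.kid []) :=
  chkPq_sound s1_o27c _ (by decide +kernel)
noncomputable def s1_o28c : Pq := (Pq.cons (Pq.L [0] 0 (Pf.C 2 1))
 Pq.nil)
theorem s1_o28 : AllRef s1_T s1_G31 (ptObl 83 (PT.br 0 PT.kid PT.ref) []) :=
  chkPq_sound s1_o28c _ (by decide +kernel)
noncomputable def s1_o29c : Pq := (Pq.cons (Pq.L [0] 0 (Pf.W 93 0 [] [1] (Pf.cons (Pf.B 2 1 (Pf.T 2 12 (Pf.cons (Pf.W 86 2 [] [0,1] (Pf.cons (Pf.B 3 0 (Pf.B 3 1 (Pf.T 3 19 (Pf.cons (Pf.T 3 20 (Pf.cons (Pf.W 99 32771 [] [1] (Pf.cons (Pf.C 15 513) (Pf.cons (Pf.B 4 2 (Pf.C 14 514) (Pf.C 1 260)) (Pf.cons (Pf.B 4 2 (Pf.C 28 33283) (Pf.C 1 260)) (Pf.cons (Pf.B 4 2 (Pf.C 17 49666) (Pf.C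 1 260)) (Pf.cons (Pf.B 4 2 (Pf.C 34 0x400203) (Pf.C 1 260)) (Pf.cons (Pf.B 4 2 (Pf.C 26 65792) (Pf.C 1 260)) Pf.nil))))))) Pf.nil)) Pf.nil)) (Pf.C 34 0x400083)) (Pf.C 2 3)) Pf.nil)) Pf.nil)) (Pf.C 1 130)) (Pf.cons (Pf.B 2 1 (Pf.T 2 13 (Pf.cons (Pf.W 87 2 [] [0,1] (Pf.cons (Pf.B 3 1 (Pf.B 3 0 (Pf.T 3 19 (Pf.cons (Pf.T 3 20 (Pf.cons (Pf.W 99 32771 [] [1] (Pf.cons (Pf.C 15 513) (Pf.cons (Pf.B 4 2 (Pf.C 17 49666) (Pf.C 1 260)) (Pf.cons (Pf.B 4 2 (Pf.C 20 49666) (Pf.C 1 260)) (Pf.cons (Pf.B 4 2 (Pf.C 17 49666) (Pf.C 1 260)) (Pf.cons (Pf.B 4 2 (Pf.C 26 33283) (Pf.C 1 260)) (Pf.cons (Pf.B 4 2 (Pf.C 34 0x400203) (Pf.C 1 260)) Pf.nil))))))) Pf.nil)) Pf.nil)) (Pf.C 2 3)) (Pf.C 26 32899)) Pf.nil)) Pf.nil)) (Pf.C 1 130)) (Pf.cons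 (Pf.C 15 257) (Pf.cons (Pf.B 2 1 (Pf.C 14 257) (Pf.C 1 130)) (Pf.cons (Pf.B 2 1 (Pf.C 28 16640) (Pf.C 1 130)) (Pf.cons (Pf.B 2 1 (Pf.C 17 257) (Pf.C 1 130)) Pf.nil))))))))
 (Pq.cons (Pq.L [0] 0 (Pf.W 86 1 [] [0] (Pf.cons (Pf.B 2 0 (Pf.T 2 19 (Pf.cons (Pf.T 2 20 (Pf.cons (Pf.W 99 16386 [] [] (Pf.cons (Pf.C 15 385) (Pf.cons (Pf.B 3 1 (Pf.C 14 385) (Pf.C 1 131)) (Pf.cons (Pf.B 3 1 (Pf.C 28 16770) (Pf.C 1 131)) (Pf.cons (Pf.B 3 1 (Pf.C 17 33153) (Pf.C 1 131)) (Pf.cons (Pf.B 3 1 (Pf.C 34 0x200182) (Pf.C 1 131)) (Pf.cons (Pf.B 3 1 (Pf.C 26 49280) (Pf.C 1 131)) Pf.nil))))))) Pf.nil)) Pf.nil)) (Pf.C 2 2)) Pf.nil)))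
 (Pq.cons (Pq.L [0] 0 (Pf.W 93 0 [] [1] (Pf.cons (Pf.B 2 1 (Pf.C 26 16640) (Pf.C 1 130)) (Pf.cons (Pf.B 2 1 (Pf.T 2 13 (Pf.cons (Pf.W 87 2 [] [0,1] (Pf.cons (Pf.B 3 0 (Pf.B 3 1 (Pf.T 3 19 (Pf.cons (Pf.T 3 20 (Pf.cons (Pf.W 99 32771 [] [] (Pf.cons (Pf.B 4 2 (Pf.C 25 33283) (Pf.C 1 260)) (Pf.cons (Pf.B 4 2 (Pf.C 17 49666) (Pf.C 1 260)) (Pf.cons (Pf.B 4 2 (Pf.C 20 49666) (Pf.C 1 260)) (Pf.cons (Pf.B 4 2 (Pf.C 17 49666) (Pf.C 1 260)) (Pf.cons (Pf.B 4 2 (Pf.C 26 33283) (Pf.C 1 260)) (Pf.cons (Pf.B 4 2 (Pf.C 34 0x400203) (Pf.C 1 260)) Pf.nil))))))) Pf.nil)) Pf.nil)) (Pf.C 34 0x400083)) (Pf.C 2 3)) Pf.nil)) Pf.nil)) (Pf.C 1 130)) (Pf.cons (Pf.B 2 1 (Pf.C 25 16640) (Pf.C 1 130)) (Pf.cons (Pf.B 2 1 (Pf.C 17 257) (Pf.C 1 130))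 (Pf.cons (Pf.B 2 1 (Pf.C 20 257) (Pf.C 1 130)) (Pf.cons (Pf.B 2 1 (Pf.C 17 257) (Pf.C 1 130)) Pf.nil))))))))
 (Pq.cons (Pq.L [0] 0 (Pf.W 87 1 [] [0] (Pf.cons (Pf.B 2 0 (Pf.T 2 19 (Pf.cons (Pf.T 2 20 (Pf.cons (Pf.W 99 16386 [] [] (Pf.cons (Pf.B 3 1 (Pf.C 25 16770) (Pf.C 1 131)) (Pf.cons (Pf.B 3 1 (Pf.C 17 33153) (Pf.C 1 131)) (Pf.cons (Pf.B 3 1 (Pf.C 20 33153) (Pf.C 1 131)) (Pf.cons (Pf.B 3 1 (Pf.C 17 33153) (Pf.C 1 131)) (Pf.cons (Pf.B 3 1 (Pf.C 26 16770) (Pf.C 1 131)) (Pf.cons (Pf.B 3 1 (Pf.C 34 0x200182) (Pf.C 1 131)) Pf.nil))))))) Pf.nil)) Pf.nil)) (Pf.C 2 2)) Pf.nil)))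
 Pq.nil))))
theorem s1_o29 : AllRef s1_T s1_G32 (List.map pat1 [70,71,72,73]) :=
  chkPq_sound s1_o29c _ (by decide +kernel)
noncomputable def s1_o30c : Pq := (Pq.cons (Pq.L [] 0 (Pf.X 0 1))
 (Pq.cons (Pq.L [0] 1 (Pf.W 88 1 [] [0,2] (Pf.cons (Pf.B 3 2 (Pf.B 3 0 (Pf.T 3 19 (Pf.cons (Pf.T 3 20 (Pf.cons (Pf.T 3 22 (Pf.cons (Pf.W 100 16387 [] [2] (Pf.cons (Pf.B 4 1 (Pf.C 35 0x20c200) (Pf.C 1 132)) (Pf.cons (Pf.B 4 1 (Pf.C 10 513) (Pf.C 1 132)) (Pf.cons (Pf.B 4 1 (Pf.C 29 65667) (Pf.C 1 132)) (Pf.cons (Pf.B 4 1 (Pf.B 4 2 (Pf.C 19 33281) (Pf.T 4 17 (Pf.cons (Pf.T 4 26 (Pf.cons (Pf.C 118 514) (Pf.cons (Pf.C 114 388) Pf.nil))) Pf.nil))) (Pf.C 1 132)) (Pf.cons (Pf.C 15 132) (Pf.cons (Pf.B 4 1 (Pf.C 25 65664) (Pf.C 1 132)) Pf.nil)))))))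 (Pf.cons (Pf.C 106 131) Pf.nil))) Pf.nil)) Pf.nil)) (Pf.C 2 3)) (Pf.C 2 259)) Pf.nil)))
 (Pq.cons (Pq.L [0] 1 (Pf.W 107 1 [] [0,2] (Pf.cons (Pf.B 3 2 (Pf.W 105 3 [] [0,1,2] (Pf.cons (Pf.B 4 1 (Pf.C 35 0x200203) (Pf.C 1 132)) (Pf.cons (Pf.B 4 1 (Pf.C 10 513) (Pf.C 1 132)) (Pf.cons (Pf.B 4 1 (Pf.C 29 65664) (Pf.C 1 132)) (Pf.cons (Pf.B 4 2 (Pf.B 4 1 (Pf.C 19 33281) (Pf.C 1 132)) (Pf.C 106 514)) Pf.nil))))) (Pf.C 2 259)) Pf.nil)))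
 (Pq.cons (Pq.L [0] 1 (Pf.W 93 0 [] [1,2] (Pf.cons (Pf.C 15 131) (Pf.cons (Pf.T 3 13 Pf.nil) (Pf.cons (Pf.B 3 1 (Pf.B 3 2 (Pf.T 3 14 (Pf.cons (Pf.W 88 3 [] [0,1,2] (Pf.cons (Pf.B 4 2 (Pf.B 4 0 (Pf.B 4 1 (Pf.C 35 0x200184) (Pf.T 4 19 (Pf.cons (Pf.T 4 20 (Pf.cons (Pf.T 4 22 (Pf.cons (Pf.W 100 49156 [] [1,2] (Pf.cons (Pf.B 5 3 (Pf.C 35 0x610280) (Pf.C 1 389)) (Pf.cons (Pf.B 5 3 (Pf.C 10 643) (Pf.C 1 389)) (Pf.cons (Pf.B 5 3 (Pf.C 29 82308) (Pf.C 1 389)) (Pf.cons (Pf.B 5 3 (Pf.B 5 2 (Pf.C 19 33411) (Pf.T 5 17 (Pf.cons (Pf.T 5 26 (Pf.cons (Pf.C 118 642) (Pf.cons (Pf.C 114 517) Pf.nil))) Pf.nil))) (Pf.C 1 389)) (Pf.cons (Pf.C 15 133) (Pf.cons (Pf.B 5 3 (Pf.C 25 82304) (Pf.C 1 389)) Pf.nil))))))) (Pf.cons (Pf.C 106 388) Pf.nil)))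 Pf.nil)) Pf.nil))) (Pf.C 2 4)) (Pf.C 2 260)) Pf.nil)) Pf.nil)) (Pf.C 35 0x200182)) (Pf.C 1 131)) (Pf.cons (Pf.B 3 1 (Pf.C 10 385) (Pf.C 1 131)) (Pf.cons (Pf.B 3 1 (Pf.C 29 49280) (Pf.C 1 131)) (Pf.cons (Pf.B 3 1 (Pf.B 3 2 (Pf.C 19 33153) (Pf.T 3 17 (Pf.cons (Pf.C 106 386) Pf.nil))) (Pf.C 1 131)) Pf.nil))))))))
 (Pq.cons (Pq.L [0] 1 (Pf.W 89 1 [] [0,2] (Pf.cons (Pf.B 3 2 (Pf.B 3 0 (Pf.T 3 19 (Pf.cons (Pf.T 3 20 (Pf.cons (Pf.T 3 22 (Pf.cons (Pf.W 100 16387 [] [2] (Pf.cons (Pf.B 4 1 (Pf.C 10 132) (Pf.C 1 132)) (Pf.cons (Pf.B 4 1 (Pf.C 35 0x20c200) (Pf.C 1 132)) (Pf.cons (Pf.B 4 1 (Pf.B 4 2 (Pf.C 19 32900) (Pf.T 4 16 (Pf.cons (Pf.T 4 25 (Pf.cons (Pf.C 118 514) (Pf.cons (Pf.C 112 388) Pf.nil))) Pf.nil))) (Pf.C 1 132)) (Pf.cons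 (Pf.B 4 1 (Pf.B 4 2 (Pf.C 33 0x804182) (Pf.T 4 17 (Pf.cons (Pf.T 4 26 (Pf.cons (Pf.C 118 514) (Pf.cons (Pf.C 114 388) Pf.nil))) Pf.nil))) (Pf.C 1 132)) (Pf.cons (Pf.B 4 1 (Pf.C 14 132) (Pf.C 1 132)) (Pf.cons (Pf.B 4 1 (Pf.C 17 132) (Pf.C 1 132)) Pf.nil))))))) (Pf.cons (Pf.C 106 131) Pf.nil))) Pf.nil)) Pf.nil)) (Pf.C 2 3)) (Pf.C 2 259)) Pf.nil)))
 (Pq.cons (Pq.L [0] 1 (Pf.W 109 1 [] [0,2] (Pf.cons (Pf.B 3 2 (Pf.W 105 3 [] [0,1,2] (Pf.cons (Pf.B 4 1 (Pf.C 10 132) (Pf.C 1 132)) (Pf.cons (Pf.B 4 1 (Pf.C 35 0x200203) (Pf.C 1 132)) (Pf.cons (Pf.B 4 2 (Pf.B 4 1 (Pf.C 19 32900) (Pf.C 1 132)) (Pf.C 106 514)) (Pf.cons (Pf.B 4 2 (Pf.B 4 1 (Pf.C 33 0x804002) (Pf.C 1 132)) (Pf.C 106 514)) Pf.nil))))) (Pf.C 2 259)) Pf.nil)))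
 (Pq.cons (Pq.L [0] 1 (Pf.W 93 0 [] [1,2] (Pf.cons (Pf.B 3 1 (Pf.C 14 131) (Pf.C 1 131)) (Pf.cons (Pf.T 3 13 Pf.nil) (Pf.cons (Pf.B 3 1 (Pf.C 10 131) (Pf.C 1 131)) (Pf.cons (Pf.B 3 1 (Pf.B 3 2 (Pf.T 3 15 (Pf.cons (Pf.W 89 3 [] [0,1,2] (Pf.cons (Pf.B 4 2 (Pf.B 4 0 (Pf.B 4 1 (Pf.C 35 0x200184) (Pf.T 4 19 (Pf.cons (Pf.T 4 20 (Pf.cons (Pf.T 4 22 (Pf.cons (Pf.W 100 49156 [] [2] (Pf.cons (Pf.B 5 3 (Pf.C 10 389) (Pf.C 1 389)) (Pf.cons (Pf.B 5 3 (Pf.C 35 0x610280) (Pf.C 1 389)) (Pf.cons (Pf.B 5 3 (Pf.B 5 2 (Pf.C 19 33157) (Pf.T 5 16 (Pf.cons (Pf.T 5 25 (Pf.cons (Pf.C 118 642) (Pf.cons (Pf.C 112 517) Pf.nil))) Pf.nil))) (Pf.C 1 389)) (Pf.cons (Pf.B 5 3 (Pf.B 5 2 (Pf.C 33 0xa0c202) (Pf.T 5 17 (Pf.cons (Pf.T 5 26 (Pf.cons (Pf.C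 118 642) (Pf.cons (Pf.C 114 517) Pf.nil))) Pf.nil))) (Pf.C 1 389)) (Pf.cons (Pf.B 5 3 (Pf.C 14 389) (Pf.C 1 389)) (Pf.cons (Pf.B 5 3 (Pf.C 17 389) (Pf.C 1 389)) Pf.nil))))))) (Pf.cons (Pf.C 106 388) Pf.nil))) Pf.nil)) Pf.nil))) (Pf.C 2 4)) (Pf.C 2 260)) Pf.nil)) Pf.nil)) (Pf.C 35 0x200182)) (Pf.C 1 131)) (Pf.cons (Pf.B 3 1 (Pf.B 3 2 (Pf.C 19 32899) (Pf.T 3 16 (Pf.cons (Pf.C 106 386) Pf.nil))) (Pf.C 1 131)) (Pf.cons (Pf.B 3 1 (Pf.B 3 2 (Pf.C 33 0x604002) (Pf.T 3 17 (Pf.cons (Pf.C 106 386) Pf.nil))) (Pf.C 1 131)) Pf.nil))))))))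
 (Pq.cons (Pq.L [0] 1 (Pf.W 90 1 [] [0,2] (Pf.cons (Pf.B 3 2 (Pf.C 30 32899) (Pf.C 2 259)) (Pf.cons (Pf.B 3 2 (Pf.B 3 0 (Pf.T 3 19 (Pf.cons (Pf.T 3 20 (Pf.cons (Pf.T 3 22 (Pf.cons (Pf.W 67 256 [] [1,3] (Pf.cons (Pf.B 4 1 (Pf.C 28 65666) (Pf.C 1 132)) (Pf.cons (Pf.B 4 1 (Pf.C 28 65664) (Pf.C 1 132)) (Pf.cons (Pf.B 4 1 (Pf.C 20 32900) (Pf.C 1 132)) (Pf.cons (Pf.B 4 1 (Pf.C 20 132) (Pf.C 1 132)) (Pf.cons (Pf.B 4 1 (Pf.C 29 16896) (Pf.C 1 132)) (Pf.cons (Pf.B 4 1 (Pf.C 29 16898) (Pf.C 1 132)) (Pf.cons (Pf.B 4 1 (Pf.C 19 33281) (Pf.C 1 132)) (Pf.cons (Pf.B 4 1 (Pf.C 19 513) (Pf.C 1 132)) (Pf.cons (Pf.B 4 1 (Pf.B 4 3 (Pf.C 37 0x20c200) (Pf.W 100 16387 [] [2,4] (Pf.cons (Pf.B 5 1 (Pf.C 29 17024) (Pf.C 1 133)) (Pf.cons (Pf.B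 5 4 (Pf.B 5 2 (Pf.C 19 33412) (Pf.T 5 15 (Pf.cons (Pf.T 5 24 (Pf.cons (Pf.C 118 642) (Pf.cons (Pf.C 110 389) Pf.nil))) Pf.nil))) (Pf.C 1 517)) (Pf.cons (Pf.B 5 1 (Pf.C 37 0x20c280) (Pf.C 1 133)) (Pf.cons (Pf.B 5 4 (Pf.B 5 2 (Pf.C 19 33412) (Pf.T 5 17 (Pf.cons (Pf.T 5 26 (Pf.cons (Pf.C 118 642) (Pf.cons (Pf.C 114 389) Pf.nil))) Pf.nil))) (Pf.C 1 517)) (Pf.cons (Pf.B 5 1 (Pf.C 28 82048) (Pf.C 1 133)) (Pf.cons (Pf.B 5 1 (Pf.C 20 133) (Pf.C 1 133)) Pf.nil)))))))) (Pf.C 1 132)) (Pf.cons (Pf.W 75 256 [] [1,4] (Pf.cons (Pf.B 5 1 (Pf.C 28 82050) (Pf.C 1 133)) (Pf.cons (Pf.B 5 4 (Pf.C 28 82432) (Pf.C 1 517)) (Pf.cons (Pf.B 5 1 (Pf.C 20 32901) (Pf.C 1 133)) (Pf.cons (Pf.B 5 4 (Pf.C 20 517) (Pf.C 1 517)) (Pf.cons (Pf.B 5 4 (Pf.C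 29 66176) (Pf.C 1 517)) (Pf.cons (Pf.B 5 1 (Pf.C 29 17026) (Pf.C 1 133)) (Pf.cons (Pf.B 5 1 (Pf.C 19 33409) (Pf.C 1 133)) (Pf.cons (Pf.B 5 4 (Pf.C 19 644) (Pf.C 1 517)) (Pf.cons (Pf.B 5 4 (Pf.C 37 0x808280) (Pf.C 1 517)) (Pf.cons (Pf.T 4 2 (Pf.cons (Pf.T 4 16 (Pf.cons (Pf.C 106 514) Pf.nil)) (Pf.cons (Pf.C 80 4) (Pf.cons (Pf.C 81 260) Pf.nil)))) (Pf.cons (Pf.T 5 2 (Pf.cons (Pf.T 5 16 (Pf.cons (Pf.C 106 642) Pf.nil)) (Pf.cons (Pf.C 80 5) (Pf.cons (Pf.C 81 261) Pf.nil)))) (Pf.cons (Pf.B 5 1 (Pf.C 19 33409) (Pf.C 1 133)) (Pf.cons (Pf.B 5 4 (Pf.C 19 644) (Pf.C 1 517)) Pf.nil)))))))))))))) (Pf.cons (Pf.B 4 1 (Pf.C 19 33281) (Pf.C 1 132)) (Pf.cons (Pf.B 4 1 (Pf.C 19 513) (Pf.C 1 132)) Pf.nil))))))))))))) (Pf.cons (Pf.C 106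 131) Pf.nil))) Pf.nil)) Pf.nil)) (Pf.C 2 3)) (Pf.C 2 259)) Pf.nil))))
 (Pq.cons (Pq.L [0] 1 (Pf.W 111 1 [] [0,2] (Pf.cons (Pf.B 3 2 (Pf.W 103 3 [] [1,2] (Pf.cons (Pf.B 4 2 (Pf.B 4 1 (Pf.C 19 33281) (Pf.C 1 132)) (Pf.C 106 514)) Pf.nil)) (Pf.C 2 259)) (Pf.cons (Pf.B 3 2 (Pf.W 105 3 [] [0,1,2] (Pf.cons (Pf.B 4 1 (Pf.C 29 16899) (Pf.C 1 132)) (Pf.cons (Pf.B 4 2 (Pf.B 4 1 (Pf.C 19 33281) (Pf.C 1 132)) (Pf.C 106 514)) (Pf.cons (Pf.B 4 1 (Pf.C 37 0x200203) (Pf.C 1 132)) (Pf.cons (Pf.B 4 2 (Pf.B 4 1 (Pf.C 19 33281) (Pf.C 1 132)) (Pf.C 106 514)) Pf.nil))))) (Pf.C 2 259)) Pf.nil))))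
 (Pq.cons (Pq.L [0] 1 (Pf.W 98 2 [] [0,1] (Pf.cons (Pf.B 3 1 (Pf.C 28 49282) (Pf.C 1 131)) (Pf.cons (Pf.B 3 1 (Pf.C 20 32899) (Pf.C 1 131)) (Pf.cons (Pf.B 3 1 (Pf.C 29 16770) (Pf.C 1 131)) (Pf.cons (Pf.T 3 15 (Pf.cons (Pf.C 106 386) (Pf.cons (Pf.T 3 24 (Pf.cons (Pf.C 118 386) (Pf.cons (Pf.W 95 3 [] [0,1,2] (Pf.cons (Pf.B 4 2 (Pf.B 4 0 (Pf.T 4 19 (Pf.cons (Pf.T 4 20 (Pf.cons (Pf.T 4 22 (Pf.cons (Pf.C 110 515) (Pf.cons (Pf.T 4 28 (Pf.cons (Pf.W 117 4 [] [0,1,2,3] (Pf.cons (Pf.B 5 3 (Pf.C 10 389) (Pf.C 1 389)) (Pf.cons (Pf.B 5 3 (Pf.B 5 2 (Pf.C 35 0x608284) (Pf.C 118 642)) (Pf.C 1 389)) (Pf.cons (Pf.B 5 2 (Pf.W 111 5 [] [0,1,2,3,4] (Pf.cons (Pf.B 6 2 (Pf.B 6 1 (Pf.C 112 769) (Pf.C 30 32902)) (Pf.C 2 262)) (Pf.cons (Pf.B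 6 4 (Pf.B 6 2 (Pf.W 105 6 [] [0,2,3,4,5] (Pf.cons (Pf.B 7 5 (Pf.C 29 82822) (Pf.C 1 647)) (Pf.cons (Pf.B 7 5 (Pf.B 7 2 (Pf.C 19 33669) (Pf.C 106 898)) (Pf.C 1 647)) (Pf.cons (Pf.B 7 5 (Pf.C 37 0xa00386) (Pf.C 1 647)) (Pf.cons (Pf.B 7 4 (Pf.B 7 3 (Pf.C 33 0xe0c004) (Pf.C 1 391)) (Pf.C 106 900)) Pf.nil))))) (Pf.C 2 262)) (Pf.C 2 518)) Pf.nil))) (Pf.C 118 642)) (Pf.cons (Pf.B 5 2 (Pf.B 5 1 (Pf.C 19 33409) (Pf.C 1 133)) (Pf.C 118 642)) Pf.nil))))) (Pf.cons (Pf.W 93 0 [] [1,2,3,4] (Pf.cons (Pf.B 5 3 (Pf.C 14 389) (Pf.C 1 389)) (Pf.cons (Pf.T 5 13 Pf.nil) (Pf.cons (Pf.B 5 3 (Pf.C 10 389) (Pf.C 1 389)) (Pf.cons (Pf.B 5 1 (Pf.B 5 2 (Pf.C 19 33409) (Pf.T 5 15 (Pf.cons (Pf.C 106 642) Pf.nil))) (Pf.C 1 133)) (Pf.cons (Pf.B 5 3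 (Pf.B 5 4 (Pf.C 19 65925) (Pf.T 5 16 (Pf.cons (Pf.C 106 644) Pf.nil))) (Pf.C 1 389)) (Pf.cons (Pf.B 5 1 (Pf.B 5 2 (Pf.C 19 33409) (Pf.T 5 17 (Pf.cons (Pf.C 106 642) Pf.nil))) (Pf.C 1 133)) Pf.nil))))))) Pf.nil))) Pf.nil))) Pf.nil)) Pf.nil)) (Pf.C 2 4)) (Pf.C 2 260)) Pf.nil)) Pf.nil))) Pf.nil))) (Pf.cons (Pf.B 3 1 (Pf.B 3 0 (Pf.C 37 0x200182) (Pf.T 3 16 (Pf.cons (Pf.T 3 25 (Pf.cons (Pf.C 118 386) (Pf.cons (Pf.W 96 3 [] [0,1,2] (Pf.cons (Pf.B 4 2 (Pf.B 4 1 (Pf.B 4 0 (Pf.T 4 18 (Pf.cons (Pf.T 4 21 (Pf.cons (Pf.C 112 513) (Pf.cons (Pf.T 4 27 (Pf.cons (Pf.W 115 4 [] [1,2] (Pf.cons (Pf.B 5 2 (Pf.B 5 1 (Pf.C 19 33409) (Pf.C 1 133)) (Pf.C 118 642)) Pf.nil)) (Pf.cons (Pf.W 93 0 [] [1,2,4] (Pf.cons (Pf.T 5 12 Pf.nil) (Pf.cons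 (Pf.T 5 13 Pf.nil) (Pf.cons (Pf.B 5 4 (Pf.B 5 1 (Pf.B 5 2 (Pf.T 5 14 (Pf.cons (Pf.W 88 5 [] [0,1,2,4] (Pf.cons (Pf.B 6 4 (Pf.B 6 2 (Pf.B 6 1 (Pf.C 29 17030) (Pf.B 6 0 (Pf.T 6 19 (Pf.cons (Pf.T 6 20 (Pf.cons (Pf.T 6 22 (Pf.cons (Pf.W 100 81926 [] [4] (Pf.cons (Pf.B 7 5 (Pf.C 35 0xa18380) (Pf.C 1 647)) (Pf.cons (Pf.B 7 5 (Pf.C 10 901) (Pf.C 1 647)) (Pf.cons (Pf.B 7 5 (Pf.C 29 0x1c286) (Pf.C 1 647)) (Pf.cons (Pf.B 7 4 (Pf.C 16 0x1c304) (Pf.T 7 17 (Pf.cons (Pf.T 7 26 (Pf.cons (Pf.C 116 900) (Pf.cons (Pf.C 114 775) Pf.nil))) Pf.nil))) (Pf.cons (Pf.C 15 647) (Pf.cons (Pf.B 7 5 (Pf.C 25 0x1c280) (Pf.C 1 647)) Pf.nil))))))) (Pf.cons (Pf.C 106 646) Pf.nil))) Pf.nil)) Pf.nil)) (Pf.C 2 6))) (Pf.C 2 262)) (Pf.C 2 518)) Pf.nil))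 Pf.nil)) (Pf.C 29 17026)) (Pf.C 1 133)) (Pf.C 13 644)) (Pf.cons (Pf.B 5 1 (Pf.B 5 2 (Pf.C 19 33409) (Pf.T 5 15 (Pf.cons (Pf.C 106 642) Pf.nil))) (Pf.C 1 133)) (Pf.cons (Pf.B 5 4 (Pf.B 5 1 (Pf.B 5 2 (Pf.T 5 16 (Pf.cons (Pf.W 90 5 [] [0,1,2,4] (Pf.cons (Pf.B 6 2 (Pf.C 30 33414) (Pf.C 2 262)) (Pf.cons (Pf.B 6 4 (Pf.B 6 2 (Pf.B 6 0 (Pf.B 6 1 (Pf.C 37 0x200286) (Pf.T 6 19 (Pf.cons (Pf.T 6 20 (Pf.cons (Pf.T 6 22 (Pf.cons (Pf.W 100 81926 [] [2,4] (Pf.cons (Pf.B 7 5 (Pf.C 29 82816) (Pf.C 1 647)) (Pf.cons (Pf.B 7 5 (Pf.B 7 2 (Pf.C 19 33669) (Pf.T 7 15 (Pf.cons (Pf.T 7 24 (Pf.cons (Pf.C 118 898) (Pf.cons (Pf.C 110 775) Pf.nil))) Pf.nil))) (Pf.C 1 647)) (Pf.cons (Pf.B 7 5 (Pf.C 37 0xa18380) (Pf.C 1 647)) (Pf.cons (Pf.B 7 4 (Pf.C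 16 0x1c304) (Pf.T 7 17 (Pf.cons (Pf.T 7 26 (Pf.cons (Pf.C 116 900) (Pf.cons (Pf.C 114 775) Pf.nil))) Pf.nil))) (Pf.cons (Pf.B 7 5 (Pf.C 28 0x1c280) (Pf.C 1 647)) (Pf.cons (Pf.B 7 5 (Pf.C 20 647) (Pf.C 1 647)) Pf.nil))))))) (Pf.cons (Pf.C 106 646) Pf.nil))) Pf.nil)) Pf.nil))) (Pf.C 2 6)) (Pf.C 2 262)) (Pf.C 2 518)) Pf.nil))) Pf.nil)) (Pf.C 37 0x200282)) (Pf.C 1 133)) (Pf.C 30 644)) (Pf.cons (Pf.B 5 4 (Pf.C 16 81924) (Pf.T 5 17 (Pf.cons (Pf.C 104 644) Pf.nil))) Pf.nil))))))) Pf.nil))) Pf.nil))) Pf.nil)) (Pf.C 2 4)) (Pf.C 30 32900)) (Pf.C 2 260)) (Pf.cons (Pf.B 4 2 (Pf.B 4 1 (Pf.B 4 0 (Pf.T 4 19 (Pf.cons (Pf.T 4 20 (Pf.cons (Pf.T 4 22 (Pf.cons (Pf.C 112 513) (Pf.cons (Pf.T 4 28 (Pf.cons (Pf.W 117 4 [] [1,2,3] (Pf.cons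 (Pf.B 5 3 (Pf.C 29 49796) (Pf.C 1 389)) (Pf.cons (Pf.B 5 2 (Pf.B 5 1 (Pf.C 19 33409) (Pf.C 1 133)) (Pf.C 118 642)) (Pf.cons (Pf.B 5 3 (Pf.B 5 2 (Pf.C 37 0x608284) (Pf.C 118 642)) (Pf.C 1 389)) (Pf.cons (Pf.B 5 2 (Pf.B 5 1 (Pf.C 19 33409) (Pf.C 1 133)) (Pf.C 118 642)) Pf.nil))))) (Pf.cons (Pf.W 93 0 [] [1,2,3,4] (Pf.cons (Pf.T 5 12 Pf.nil) (Pf.cons (Pf.T 5 13 Pf.nil) (Pf.cons (Pf.B 5 1 (Pf.B 5 2 (Pf.T 5 14 (Pf.cons (Pf.W 88 5 [] [0,1,2] (Pf.cons (Pf.B 6 2 (Pf.B 6 1 (Pf.C 29 17030) (Pf.B 6 0 (Pf.T 6 19 (Pf.cons (Pf.T 6 20 (Pf.cons (Pf.T 6 22 (Pf.cons (Pf.W 100 81926 [] [2] (Pf.cons (Pf.B 7 5 (Pf.C 35 0xa18380) (Pf.C 1 647)) (Pf.cons (Pf.B 7 5 (Pf.C 10 901) (Pf.C 1 647)) (Pf.cons (Pf.B 7 5 (Pf.C 29 0x1c286) (Pf.C 1 647))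 (Pf.cons (Pf.B 7 5 (Pf.B 7 2 (Pf.C 19 33669) (Pf.T 7 17 (Pf.cons (Pf.T 7 26 (Pf.cons (Pf.C 118 898) (Pf.cons (Pf.C 114 775) Pf.nil))) Pf.nil))) (Pf.C 1 647)) (Pf.cons (Pf.C 15 647) (Pf.cons (Pf.B 7 5 (Pf.C 25 0x1c280) (Pf.C 1 647)) Pf.nil))))))) (Pf.cons (Pf.C 106 646) Pf.nil))) Pf.nil)) Pf.nil)) (Pf.C 2 6))) (Pf.C 2 262)) Pf.nil)) Pf.nil)) (Pf.C 29 17026)) (Pf.C 1 133)) (Pf.cons (Pf.B 5 1 (Pf.B 5 2 (Pf.C 19 33409) (Pf.T 5 15 (Pf.cons (Pf.C 106 642) Pf.nil))) (Pf.C 1 133)) (Pf.cons (Pf.B 5 3 (Pf.B 5 4 (Pf.B 5 1 (Pf.B 5 2 (Pf.T 5 16 (Pf.cons (Pf.W 90 5 [] [0,1,2,4] (Pf.cons (Pf.B 6 4 (Pf.C 30 66182) (Pf.C 2 518)) (Pf.cons (Pf.B 6 2 (Pf.B 6 0 (Pf.B 6 1 (Pf.C 37 0x200286) (Pf.T 6 19 (Pf.cons (Pf.T 6 20 (Pf.cons (Pf.T 6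 22 (Pf.cons (Pf.W 100 81926 [] [2] (Pf.cons (Pf.B 7 5 (Pf.C 29 82816) (Pf.C 1 647)) (Pf.cons (Pf.B 7 5 (Pf.B 7 2 (Pf.C 19 33669) (Pf.T 7 15 (Pf.cons (Pf.T 7 24 (Pf.cons (Pf.C 118 898) (Pf.cons (Pf.C 110 775) Pf.nil))) Pf.nil))) (Pf.C 1 647)) (Pf.cons (Pf.B 7 5 (Pf.C 37 0xa18380) (Pf.C 1 647)) (Pf.cons (Pf.B 7 5 (Pf.B 7 2 (Pf.C 19 33669) (Pf.T 7 17 (Pf.cons (Pf.T 7 26 (Pf.cons (Pf.C 118 898) (Pf.cons (Pf.C 114 775) Pf.nil))) Pf.nil))) (Pf.C 1 647)) (Pf.cons (Pf.B 7 5 (Pf.C 28 0x1c280) (Pf.C 1 647)) (Pf.cons (Pf.B 7 5 (Pf.C 20 647) (Pf.C 1 647)) Pf.nil))))))) (Pf.cons (Pf.C 106 646) Pf.nil))) Pf.nil)) Pf.nil))) (Pf.C 2 6)) (Pf.C 2 262)) Pf.nil))) Pf.nil)) (Pf.C 37 0x200282)) (Pf.C 1 133)) (Pf.C 37 0x600284)) (Pf.C 1 389))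 (Pf.cons (Pf.B 5 1 (Pf.B 5 2 (Pf.C 19 33409) (Pf.T 5 17 (Pf.cons (Pf.C 106 642) Pf.nil))) (Pf.C 1 133)) Pf.nil))))))) Pf.nil))) Pf.nil))) Pf.nil)) Pf.nil)) (Pf.C 2 4)) (Pf.C 37 0x608084)) (Pf.C 2 260)) Pf.nil))) Pf.nil))) Pf.nil))) (Pf.C 1 131)) (Pf.cons (Pf.B 3 1 (Pf.T 3 17 (Pf.cons (Pf.C 106 386) (Pf.cons (Pf.T 3 26 (Pf.cons (Pf.C 118 386) (Pf.cons (Pf.W 97 3 [] [0,1,2] (Pf.cons (Pf.B 4 2 (Pf.B 4 1 (Pf.B 4 0 (Pf.T 4 18 (Pf.cons (Pf.T 4 21 (Pf.cons (Pf.C 112 513) (Pf.cons (Pf.T 4 27 (Pf.cons (Pf.W 115 4 [] [1,2] (Pf.cons (Pf.B 5 2 (Pf.B 5 1 (Pf.C 19 33409) (Pf.C 1 133)) (Pf.C 118 642)) Pf.nil)) (Pf.cons (Pf.W 93 0 [] [1,2,4] (Pf.cons (Pf.T 5 12 Pf.nil) (Pf.cons (Pf.T 5 13 Pf.nil) (Pf.cons (Pf.B 5 4 (Pf.B 5 1 (Pf.B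 5 2 (Pf.T 5 14 (Pf.cons (Pf.W 88 5 [] [0,1,2,4] (Pf.cons (Pf.B 6 4 (Pf.B 6 2 (Pf.B 6 1 (Pf.C 29 17030) (Pf.B 6 0 (Pf.T 6 19 (Pf.cons (Pf.T 6 20 (Pf.cons (Pf.T 6 22 (Pf.cons (Pf.W 100 81926 [] [4] (Pf.cons (Pf.B 7 5 (Pf.C 35 0xa18380) (Pf.C 1 647)) (Pf.cons (Pf.B 7 5 (Pf.C 10 901) (Pf.C 1 647)) (Pf.cons (Pf.B 7 5 (Pf.C 29 0x1c286) (Pf.C 1 647)) (Pf.cons (Pf.B 7 4 (Pf.C 16 0x1c304) (Pf.T 7 17 (Pf.cons (Pf.T 7 26 (Pf.cons (Pf.C 116 900) (Pf.cons (Pf.C 114 775) Pf.nil))) Pf.nil))) (Pf.cons (Pf.C 15 647) (Pf.cons (Pf.B 7 5 (Pf.C 25 0x1c280) (Pf.C 1 647)) Pf.nil))))))) (Pf.cons (Pf.C 106 646) Pf.nil))) Pf.nil)) Pf.nil)) (Pf.C 2 6))) (Pf.C 2 262)) (Pf.C 2 518)) Pf.nil)) Pf.nil)) (Pf.C 29 17026)) (Pf.C 1 133)) (Pf.C 13 644))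 (Pf.cons (Pf.B 5 1 (Pf.B 5 2 (Pf.C 19 33409) (Pf.T 5 15 (Pf.cons (Pf.C 106 642) Pf.nil))) (Pf.C 1 133)) (Pf.cons (Pf.B 5 4 (Pf.B 5 1 (Pf.B 5 2 (Pf.T 5 16 (Pf.cons (Pf.W 90 5 [] [0,1,2,4] (Pf.cons (Pf.B 6 2 (Pf.C 30 33414) (Pf.C 2 262)) (Pf.cons (Pf.B 6 4 (Pf.B 6 2 (Pf.B 6 0 (Pf.B 6 1 (Pf.C 37 0x200286) (Pf.T 6 19 (Pf.cons (Pf.T 6 20 (Pf.cons (Pf.T 6 22 (Pf.cons (Pf.W 100 81926 [] [2,4] (Pf.cons (Pf.B 7 5 (Pf.C 29 82816) (Pf.C 1 647)) (Pf.cons (Pf.B 7 5 (Pf.B 7 2 (Pf.C 19 33669) (Pf.T 7 15 (Pf.cons (Pf.T 7 24 (Pf.cons (Pf.C 118 898) (Pf.cons (Pf.C 110 775) Pf.nil))) Pf.nil))) (Pf.C 1 647)) (Pf.cons (Pf.B 7 5 (Pf.C 37 0xa18380) (Pf.C 1 647)) (Pf.cons (Pf.B 7 4 (Pf.C 16 0x1c304) (Pf.T 7 17 (Pf.cons (Pf.T 7 26 (Pf.cons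 (Pf.C 116 900) (Pf.cons (Pf.C 114 775) Pf.nil))) Pf.nil))) (Pf.cons (Pf.B 7 5 (Pf.C 28 0x1c280) (Pf.C 1 647)) (Pf.cons (Pf.B 7 5 (Pf.C 20 647) (Pf.C 1 647)) Pf.nil))))))) (Pf.cons (Pf.C 106 646) Pf.nil))) Pf.nil)) Pf.nil))) (Pf.C 2 6)) (Pf.C 2 262)) (Pf.C 2 518)) Pf.nil))) Pf.nil)) (Pf.C 37 0x200282)) (Pf.C 1 133)) (Pf.C 30 644)) (Pf.cons (Pf.B 5 4 (Pf.C 16 81924) (Pf.T 5 17 (Pf.cons (Pf.C 104 644) Pf.nil))) Pf.nil))))))) Pf.nil))) Pf.nil))) Pf.nil)) (Pf.C 2 4)) (Pf.C 22 49665)) (Pf.C 2 260)) (Pf.cons (Pf.B 4 2 (Pf.B 4 0 (Pf.T 4 19 (Pf.cons (Pf.T 4 20 (Pf.cons (Pf.T 4 22 (Pf.cons (Pf.C 114 515) (Pf.cons (Pf.T 4 28 (Pf.cons (Pf.W 117 4 [] [0,1,2] (Pf.cons (Pf.B 5 2 (Pf.W 107 5 [] [0,2] (Pf.cons (Pf.B 6 2 (Pf.W 105 6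 [] [0,2,5] (Pf.cons (Pf.B 7 5 (Pf.C 35 0xa00386) (Pf.C 1 647)) (Pf.cons (Pf.B 7 5 (Pf.C 10 901) (Pf.C 1 647)) (Pf.cons (Pf.B 7 5 (Pf.C 29 0x1c280) (Pf.C 1 647)) (Pf.cons (Pf.B 7 5 (Pf.B 7 2 (Pf.C 19 33669) (Pf.C 106 898)) (Pf.C 1 647)) Pf.nil))))) (Pf.C 2 262)) Pf.nil)) (Pf.C 118 642)) (Pf.cons (Pf.B 5 2 (Pf.B 5 1 (Pf.C 19 33409) (Pf.C 1 133)) (Pf.C 118 642)) (Pf.cons (Pf.B 5 2 (Pf.W 111 5 [] [0,1,2] (Pf.cons (Pf.B 6 2 (Pf.B 6 1 (Pf.C 112 769) (Pf.C 30 32902)) (Pf.C 2 262)) (Pf.cons (Pf.B 6 2 (Pf.W 105 6 [] [0,2,5] (Pf.cons (Pf.B 7 5 (Pf.C 29 82822) (Pf.C 1 647)) (Pf.cons (Pf.B 7 5 (Pf.B 7 2 (Pf.C 19 33669) (Pf.C 106 898)) (Pf.C 1 647)) (Pf.cons (Pf.B 7 5 (Pf.C 37 0xa00386) (Pf.C 1 647)) (Pf.cons (Pf.B 7 5 (Pf.B 7 2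 (Pf.C 19 33669) (Pf.C 106 898)) (Pf.C 1 647)) Pf.nil))))) (Pf.C 2 262)) Pf.nil))) (Pf.C 118 642)) (Pf.cons (Pf.B 5 2 (Pf.B 5 1 (Pf.C 19 33409) (Pf.C 1 133)) (Pf.C 118 642)) Pf.nil))))) (Pf.cons (Pf.W 93 0 [] [1,2,3,4] (Pf.cons (Pf.T 5 12 Pf.nil) (Pf.cons (Pf.T 5 13 Pf.nil) (Pf.cons (Pf.B 5 3 (Pf.B 5 4 (Pf.C 19 65925) (Pf.T 5 14 (Pf.cons (Pf.C 106 644) Pf.nil))) (Pf.C 1 389)) (Pf.cons (Pf.B 5 1 (Pf.B 5 2 (Pf.C 19 33409) (Pf.T 5 15 (Pf.cons (Pf.C 106 642) Pf.nil))) (Pf.C 1 133)) (Pf.cons (Pf.B 5 3 (Pf.B 5 4 (Pf.C 19 65925) (Pf.T 5 16 (Pf.cons (Pf.C 106 644) Pf.nil))) (Pf.C 1 389)) (Pf.cons (Pf.B 5 1 (Pf.B 5 2 (Pf.C 19 33409) (Pf.T 5 17 (Pf.cons (Pf.C 106 642) Pf.nil))) (Pf.C 1 133)) Pf.nil))))))) Pf.nil))) Pf.nil))) Pf.nil))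 Pf.nil)) (Pf.C 2 4)) (Pf.C 2 260)) Pf.nil))) Pf.nil))) Pf.nil))) (Pf.C 1 131)) Pf.nil))))))))
 Pq.nil))))))))))
theorem s1_o30 : AllRef s1_T s1_G41 (List.take 10 (closeObl (s1_T.sc.get 0) true [74,89,90,76,91,92,78,93,94,80,95,96,85,97,98,87,99,100] [2,2,2,3,3,3,4,4,4,5,5,5,6,6,6,7,7,7] [0] [7] 0x1ffff)) :=
  chkPq_sound s1_o30c _ (by decide +kernel)
noncomputable def s1_o31c : Pq := (Pq.cons (Pq.L [0] 1 (Pf.W 91 1 [] [0,2] (Pf.cons (Pf.B 3 2 (Pf.B 3 0 (Pf.T 3 18 (Pf.cons (Pf.T 3 21 (Pf.cons (Pf.W 67 256 [] [1,3] (Pf.cons (Pf.B 4 1 (Pf.C 17 32900) (Pf.C 1 132)) (Pf.cons (Pf.B 4 1 (Pf.C 17 132) (Pf.C 1 132)) (Pf.cons (Pf.B 4 1 (Pf.C 17 32900) (Pf.C 1 132)) (Pf.cons (Pf.B 4 1 (Pf.C 17 132) (Pf.C 1 132)) (Pf.cons (Pf.B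 4 1 (Pf.C 19 32900) (Pf.C 1 132)) (Pf.cons (Pf.B 4 1 (Pf.C 19 132) (Pf.C 1 132)) (Pf.cons (Pf.B 4 1 (Pf.C 33 0x210002) (Pf.C 1 132)) (Pf.cons (Pf.B 4 1 (Pf.C 33 0x210100) (Pf.C 1 132)) (Pf.cons (Pf.B 4 1 (Pf.C 19 32900) (Pf.C 1 132)) (Pf.cons (Pf.B 4 1 (Pf.C 19 132) (Pf.C 1 132)) (Pf.cons (Pf.B 4 3 (Pf.C 16 65795) (Pf.W 92 3 [] [0,1,2,4] (Pf.cons (Pf.B 5 4 (Pf.B 5 2 (Pf.C 19 33285) (Pf.B 5 1 (Pf.B 5 0 (Pf.C 19 133) (Pf.T 5 16 (Pf.cons (Pf.T 5 25 (Pf.cons (Pf.C 118 642) (Pf.cons (Pf.C 112 389) Pf.nil))) Pf.nil))) (Pf.C 1 133))) (Pf.C 1 517)) (Pf.cons (Pf.B 5 2 (Pf.C 16 82179) (Pf.B 5 0 (Pf.C 16 81923) (Pf.T 5 17 (Pf.cons (Pf.T 5 26 (Pf.cons (Pf.C 118 642) (Pf.cons (Pf.C 114 389) Pf.nil))) Pf.nil)))) Pf.nil)))) (Pf.cons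 (Pf.B 4 1 (Pf.W 75 256 [] [1,4] (Pf.cons (Pf.B 5 1 (Pf.C 17 32901) (Pf.C 1 133)) (Pf.cons (Pf.B 5 4 (Pf.C 17 517) (Pf.C 1 517)) (Pf.cons (Pf.B 5 1 (Pf.C 17 32901) (Pf.C 1 133)) (Pf.cons (Pf.B 5 4 (Pf.C 17 517) (Pf.C 1 517)) (Pf.cons (Pf.B 5 1 (Pf.C 19 32901) (Pf.C 1 133)) (Pf.cons (Pf.B 5 4 (Pf.C 19 517) (Pf.C 1 517)) (Pf.cons (Pf.B 5 1 (Pf.C 33 0x214002) (Pf.C 1 133)) (Pf.cons (Pf.B 5 1 (Pf.C 33 0x214100) (Pf.C 1 133)) (Pf.cons (Pf.B 5 1 (Pf.C 19 32901) (Pf.C 1 133)) (Pf.cons (Pf.B 5 4 (Pf.C 19 517) (Pf.C 1 517)) (Pf.cons (Pf.B 5 4 (Pf.B 5 1 (Pf.C 52 0x20800281) (Pf.C 1 133)) (Pf.C 1 517)) (Pf.cons (Pf.T 4 3 (Pf.cons (Pf.T 4 17 (Pf.cons (Pf.C 106 514) Pf.nil)) (Pf.cons (Pf.C 82 4) (Pf.cons (Pf.C 83 260) Pf.nil))))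 (Pf.cons (Pf.T 5 3 (Pf.cons (Pf.T 5 17 (Pf.cons (Pf.C 106 642) Pf.nil)) (Pf.cons (Pf.C 82 5) (Pf.cons (Pf.C 83 261) Pf.nil)))) Pf.nil)))))))))))))) (Pf.C 1 132)) Pf.nil))))))))))))) (Pf.cons (Pf.C 104 131) Pf.nil))) Pf.nil)) (Pf.C 2 3)) (Pf.C 2 259)) (Pf.cons (Pf.B 3 2 (Pf.B 3 0 (Pf.T 3 19 (Pf.cons (Pf.T 3 20 (Pf.cons (Pf.T 3 22 (Pf.cons (Pf.W 67 256 [] [1,3] (Pf.cons (Pf.B 4 1 (Pf.C 17 32900) (Pf.C 1 132)) (Pf.cons (Pf.B 4 1 (Pf.C 17 132) (Pf.C 1 132)) (Pf.cons (Pf.B 4 1 (Pf.C 17 32900) (Pf.C 1 132)) (Pf.cons (Pf.B 4 1 (Pf.C 17 132) (Pf.C 1 132)) (Pf.cons (Pf.B 4 1 (Pf.C 19 32900) (Pf.C 1 132)) (Pf.cons (Pf.B 4 1 (Pf.C 19 132) (Pf.C 1 132)) (Pf.cons (Pf.B 4 1 (Pf.C 33 0x210002) (Pf.C 1 132)) (Pf.cons (Pf.B 4 1 (Pf.C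 33 0x210100) (Pf.C 1 132)) (Pf.cons (Pf.B 4 1 (Pf.C 19 32900) (Pf.C 1 132)) (Pf.cons (Pf.B 4 1 (Pf.C 19 132) (Pf.C 1 132)) (Pf.cons (Pf.B 4 1 (Pf.B 4 3 (Pf.C 57 0x10610002) (Pf.W 75 256 [] [1,3,4] (Pf.cons (Pf.B 5 4 (Pf.C 17 33285) (Pf.C 1 517)) (Pf.cons (Pf.B 5 1 (Pf.C 17 133) (Pf.C 1 133)) (Pf.cons (Pf.B 5 4 (Pf.C 17 33285) (Pf.C 1 517)) (Pf.cons (Pf.B 5 1 (Pf.C 17 133) (Pf.C 1 133)) (Pf.cons (Pf.B 5 4 (Pf.C 19 33285) (Pf.C 1 517)) (Pf.cons (Pf.B 5 1 (Pf.C 19 133) (Pf.C 1 133)) (Pf.cons (Pf.B 5 1 (Pf.C 33 0x214002) (Pf.C 1 133)) (Pf.cons (Pf.B 5 1 (Pf.C 33 0x214100) (Pf.C 1 133)) (Pf.cons (Pf.B 5 4 (Pf.C 19 33285) (Pf.C 1 517)) (Pf.cons (Pf.B 5 1 (Pf.C 19 133) (Pf.C 1 133)) (Pf.cons (Pf.T 4 3 (Pf.cons (Pf.T 4 17 (Pf.cons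 (Pf.T 4 26 (Pf.cons (Pf.W 113 4 [] [0,1,2] (Pf.cons (Pf.B 5 2 (Pf.C 16 65797) (Pf.C 2 261)) (Pf.cons (Pf.B 5 2 (Pf.B 5 1 (Pf.W 105 5 [] [0,2,4] (Pf.cons (Pf.B 6 4 (Pf.B 6 2 (Pf.C 19 33286) (Pf.C 106 770)) (Pf.C 1 518)) (Pf.cons (Pf.B 6 4 (Pf.B 6 2 (Pf.C 33 0x818282) (Pf.C 106 770)) (Pf.C 1 518)) (Pf.cons (Pf.B 6 4 (Pf.B 6 2 (Pf.C 19 33286) (Pf.C 106 770)) (Pf.C 1 518)) (Pf.cons (Pf.B 6 4 (Pf.B 6 2 (Pf.C 57 0x40018282) (Pf.C 106 770)) (Pf.C 1 518)) Pf.nil))))) (Pf.C 57 0x40004282)) (Pf.C 2 261)) Pf.nil))) (Pf.cons (Pf.W 98 2 [] [0,1,3,4] (Pf.cons (Pf.B 5 4 (Pf.C 17 33285) (Pf.C 1 517)) (Pf.cons (Pf.B 5 4 (Pf.C 17 33285) (Pf.C 1 517)) (Pf.cons (Pf.B 5 1 (Pf.B 5 0 (Pf.C 19 133) (Pf.T 5 14 (Pf.cons (Pf.T 5 23 (Pf.cons (Pf.C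 118 642) (Pf.cons (Pf.W 94 5 [] [0,1] (Pf.cons (Pf.B 6 1 (Pf.C 19 98437) (Pf.T 6 19 (Pf.cons (Pf.T 6 20 (Pf.cons (Pf.T 6 22 (Pf.cons (Pf.C 108 773) (Pf.cons (Pf.C 106 134) Pf.nil))) Pf.nil)) Pf.nil))) Pf.nil)) Pf.nil))) Pf.nil))) (Pf.C 1 133)) (Pf.cons (Pf.B 5 1 (Pf.B 5 0 (Pf.C 33 0x214100) (Pf.T 5 15 (Pf.cons (Pf.T 5 24 (Pf.cons (Pf.C 118 642) (Pf.cons (Pf.W 95 5 [] [0,1,2] (Pf.cons (Pf.B 6 2 (Pf.B 6 1 (Pf.C 33 0x214106) (Pf.T 6 19 (Pf.cons (Pf.T 6 20 (Pf.cons (Pf.T 6 22 (Pf.cons (Pf.C 110 773) (Pf.cons (Pf.C 106 134) Pf.nil))) Pf.nil)) Pf.nil))) (Pf.C 2 262)) Pf.nil)) Pf.nil))) Pf.nil))) (Pf.C 1 133)) (Pf.cons (Pf.B 5 1 (Pf.B 5 0 (Pf.C 19 133) (Pf.T 5 16 (Pf.cons (Pf.T 5 25 (Pf.cons (Pf.C 118 642) (Pf.cons (Pf.W 96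 5 [] [0,1,2] (Pf.cons (Pf.B 6 2 (Pf.B 6 1 (Pf.C 16 16646) (Pf.T 6 18 (Pf.cons (Pf.T 6 21 (Pf.cons (Pf.C 112 773) (Pf.cons (Pf.C 104 134) Pf.nil))) Pf.nil))) (Pf.C 2 262)) (Pf.cons (Pf.B 6 1 (Pf.C 19 98437) (Pf.T 6 19 (Pf.cons (Pf.T 6 20 (Pf.cons (Pf.T 6 22 (Pf.cons (Pf.C 112 773) (Pf.cons (Pf.C 106 134) Pf.nil))) Pf.nil)) Pf.nil))) Pf.nil))) Pf.nil))) Pf.nil))) (Pf.C 1 133)) (Pf.cons (Pf.B 5 4 (Pf.B 5 1 (Pf.B 5 0 (Pf.C 52 0x808281) (Pf.B 5 3 (Pf.T 5 17 (Pf.cons (Pf.T 5 26 (Pf.cons (Pf.C 118 642) (Pf.cons (Pf.C 114 389) Pf.nil))) Pf.nil)) (Pf.T 5 17 (Pf.cons (Pf.T 5 26 (Pf.cons (Pf.C 118 642) (Pf.cons (Pf.W 97 5 [] [0,1,2,3,4] (Pf.cons (Pf.B 6 2 (Pf.B 6 1 (Pf.C 16 16646) (Pf.T 6 18 (Pf.cons (Pf.T 6 21 (Pf.cons (Pf.C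 114 773) (Pf.cons (Pf.C 104 134) Pf.nil))) Pf.nil))) (Pf.C 2 262)) (Pf.cons (Pf.B 6 3 (Pf.B 6 2 (Pf.B 6 0 (Pf.B 6 4 (Pf.B 6 1 (Pf.T 6 19 (Pf.cons (Pf.T 6 20 (Pf.cons (Pf.T 6 22 (Pf.cons (Pf.C 114 772) (Pf.cons (Pf.T 6 28 (Pf.cons (Pf.W 117 6 [] [2,4,5] (Pf.cons (Pf.B 7 4 (Pf.B 7 2 (Pf.C 19 33287) (Pf.C 118 898)) (Pf.C 1 519)) (Pf.cons (Pf.B 7 4 (Pf.B 7 2 (Pf.C 33 0x81c302) (Pf.C 118 898)) (Pf.C 1 519)) (Pf.cons (Pf.B 7 4 (Pf.B 7 2 (Pf.C 19 33287) (Pf.C 118 898)) (Pf.C 1 519)) (Pf.cons (Pf.B 7 5 (Pf.B 7 4 (Pf.B 7 2 (Pf.C 52 0x20a18384) (Pf.C 118 898)) (Pf.C 1 519)) (Pf.C 1 647)) Pf.nil))))) (Pf.cons (Pf.W 100 16387 [] [2,4,5,6] (Pf.cons (Pf.B 7 4 (Pf.B 7 2 (Pf.C 19 33287) (Pf.T 7 14 (Pf.cons (Pf.T 7 23 (Pf.cons (Pf.C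 118 898) (Pf.cons (Pf.C 108 391) Pf.nil))) Pf.nil))) (Pf.C 1 519)) (Pf.cons (Pf.B 7 1 (Pf.B 7 2 (Pf.C 33 0x21c002) (Pf.T 7 15 (Pf.cons (Pf.T 7 24 (Pf.cons (Pf.C 118 898) (Pf.cons (Pf.C 110 391) Pf.nil))) Pf.nil))) (Pf.C 1 135)) (Pf.cons (Pf.B 7 4 (Pf.B 7 2 (Pf.C 19 33287) (Pf.T 7 16 (Pf.cons (Pf.T 7 25 (Pf.cons (Pf.C 118 898) (Pf.cons (Pf.C 112 391) Pf.nil))) Pf.nil))) (Pf.C 1 519)) (Pf.cons (Pf.B 7 5 (Pf.B 7 1 (Pf.B 7 6 (Pf.C 57 0x1061c006) (Pf.B 7 2 (Pf.C 52 0x20a18381) (Pf.T 7 17 (Pf.cons (Pf.T 7 26 (Pf.cons (Pf.C 118 898) (Pf.cons (Pf.C 114 391) Pf.nil))) Pf.nil)))) (Pf.C 1 135)) (Pf.C 1 647)) (Pf.cons (Pf.B 7 1 (Pf.C 17 135) (Pf.C 1 135)) (Pf.cons (Pf.B 7 1 (Pf.C 17 135) (Pf.C 1 135)) Pf.nil))))))) Pf.nil))) Pf.nil)))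 Pf.nil)) Pf.nil)) (Pf.C 52 0x20a18084)) (Pf.B 6 1 (Pf.C 52 0x20a18201) (Pf.T 6 19 (Pf.cons (Pf.T 6 20 (Pf.cons (Pf.T 6 22 (Pf.cons (Pf.C 114 773) (Pf.cons (Pf.C 106 134) Pf.nil))) Pf.nil)) Pf.nil)))) (Pf.C 2 6)) (Pf.C 2 262)) (Pf.C 2 390)) Pf.nil))) Pf.nil))) Pf.nil)))) (Pf.C 1 133)) (Pf.C 1 517)) Pf.nil))))))) Pf.nil))) Pf.nil)) (Pf.cons (Pf.C 82 260) (Pf.cons (Pf.C 83 4) Pf.nil)))) (Pf.cons (Pf.B 5 4 (Pf.B 5 1 (Pf.T 5 3 (Pf.cons (Pf.T 5 17 (Pf.cons (Pf.T 5 26 (Pf.cons (Pf.W 113 5 [] [0,1,2,4] (Pf.cons (Pf.B 6 2 (Pf.C 16 82182) (Pf.C 2 262)) (Pf.cons (Pf.B 6 2 (Pf.B 6 1 (Pf.W 105 6 [] [0,2,4,5] (Pf.cons (Pf.B 7 4 (Pf.B 7 2 (Pf.C 19 33287) (Pf.C 106 898)) (Pf.C 1 519)) (Pf.cons (Pf.B 7 5 (Pf.B 7 2 (Pf.C 33 0xa1c302)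 (Pf.C 106 898)) (Pf.C 1 647)) (Pf.cons (Pf.B 7 4 (Pf.B 7 2 (Pf.C 19 33287) (Pf.C 106 898)) (Pf.C 1 519)) (Pf.cons (Pf.B 7 5 (Pf.B 7 2 (Pf.C 57 0x5001c302) (Pf.C 106 898)) (Pf.C 1 647)) Pf.nil))))) (Pf.C 57 0x50004302)) (Pf.C 2 262)) Pf.nil))) (Pf.cons (Pf.W 98 2 [] [0,1,3,4,5] (Pf.cons (Pf.B 6 5 (Pf.C 17 33414) (Pf.C 1 646)) (Pf.cons (Pf.B 6 5 (Pf.C 17 33414) (Pf.C 1 646)) (Pf.cons (Pf.B 6 1 (Pf.B 6 0 (Pf.C 19 134) (Pf.T 6 14 (Pf.cons (Pf.T 6 23 (Pf.cons (Pf.C 118 770) (Pf.cons (Pf.W 94 6 [] [0,1] (Pf.cons (Pf.B 7 1 (Pf.C 19 0x1c086) (Pf.T 7 19 (Pf.cons (Pf.T 7 20 (Pf.cons (Pf.T 7 22 (Pf.cons (Pf.C 108 902) (Pf.cons (Pf.C 106 135) Pf.nil))) Pf.nil)) Pf.nil))) Pf.nil)) Pf.nil))) Pf.nil))) (Pf.C 1 134)) (Pf.cons (Pf.B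 6 1 (Pf.B 6 0 (Pf.C 33 0x218100) (Pf.T 6 15 (Pf.cons (Pf.T 6 24 (Pf.cons (Pf.C 118 770) (Pf.cons (Pf.W 95 6 [] [0,1,2] (Pf.cons (Pf.B 7 2 (Pf.B 7 1 (Pf.C 33 0x218107) (Pf.T 7 19 (Pf.cons (Pf.T 7 20 (Pf.cons (Pf.T 7 22 (Pf.cons (Pf.C 110 902) (Pf.cons (Pf.C 106 135) Pf.nil))) Pf.nil)) Pf.nil))) (Pf.C 2 263)) Pf.nil)) Pf.nil))) Pf.nil))) (Pf.C 1 134)) (Pf.cons (Pf.B 6 1 (Pf.B 6 0 (Pf.C 19 134) (Pf.T 6 16 (Pf.cons (Pf.T 6 25 (Pf.cons (Pf.C 118 770) (Pf.cons (Pf.W 96 6 [] [0,1,2] (Pf.cons (Pf.B 7 2 (Pf.B 7 1 (Pf.C 16 16647) (Pf.T 7 18 (Pf.cons (Pf.T 7 21 (Pf.cons (Pf.C 112 902) (Pf.cons (Pf.C 104 135) Pf.nil))) Pf.nil))) (Pf.C 2 263)) (Pf.cons (Pf.B 7 1 (Pf.C 19 0x1c086) (Pf.T 7 19 (Pf.cons (Pf.T 7 20 (Pf.cons (Pf.T 7 22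 (Pf.cons (Pf.C 112 902) (Pf.cons (Pf.C 106 135) Pf.nil))) Pf.nil)) Pf.nil))) Pf.nil))) Pf.nil))) Pf.nil))) (Pf.C 1 134)) (Pf.cons (Pf.B 6 5 (Pf.B 6 4 (Pf.B 6 1 (Pf.B 6 0 (Pf.C 52 0x808301) (Pf.B 6 3 (Pf.T 6 17 (Pf.cons (Pf.T 6 26 (Pf.cons (Pf.C 118 770) (Pf.cons (Pf.C 114 390) Pf.nil))) Pf.nil)) (Pf.T 6 17 (Pf.cons (Pf.T 6 26 (Pf.cons (Pf.C 118 770) (Pf.cons (Pf.W 97 6 [] [0,1,2,3,4,5] (Pf.cons (Pf.B 7 2 (Pf.B 7 1 (Pf.C 16 16647) (Pf.T 7 18 (Pf.cons (Pf.T 7 21 (Pf.cons (Pf.C 114 902) (Pf.cons (Pf.C 104 135) Pf.nil))) Pf.nil))) (Pf.C 2 263)) (Pf.cons (Pf.B 7 3 (Pf.B 7 2 (Pf.B 7 0 (Pf.B 7 5 (Pf.B 7 4 (Pf.B 7 1 (Pf.T 7 19 (Pf.cons (Pf.T 7 20 (Pf.cons (Pf.T 7 22 (Pf.cons (Pf.C 114 901) (Pf.cons (Pf.T 7 28 (Pf.cons (Pf.W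 117 7 [] [2,4,6] (Pf.cons (Pf.B 8 4 (Pf.B 8 2 (Pf.C 19 33288) (Pf.C 118 1026)) (Pf.C 1 520)) (Pf.cons (Pf.B 8 4 (Pf.B 8 2 (Pf.C 33 0x820382) (Pf.C 118 1026)) (Pf.C 1 520)) (Pf.cons (Pf.B 8 4 (Pf.B 8 2 (Pf.C 19 33288) (Pf.C 118 1026)) (Pf.C 1 520)) (Pf.cons (Pf.B 8 6 (Pf.B 8 4 (Pf.B 8 2 (Pf.C 52 0x20c1c404) (Pf.C 118 1026)) (Pf.C 1 520)) (Pf.C 1 776)) Pf.nil))))) (Pf.cons (Pf.W 100 16387 [] [2,4,6,7] (Pf.cons (Pf.B 8 4 (Pf.B 8 2 (Pf.C 19 33288) (Pf.T 8 14 (Pf.cons (Pf.T 8 23 (Pf.cons (Pf.C 118 1026) (Pf.cons (Pf.C 108 392) Pf.nil))) Pf.nil))) (Pf.C 1 520)) (Pf.cons (Pf.B 8 1 (Pf.B 8 2 (Pf.C 33 0x220002) (Pf.T 8 15 (Pf.cons (Pf.T 8 24 (Pf.cons (Pf.C 118 1026) (Pf.cons (Pf.C 110 392) Pf.nil))) Pf.nil))) (Pf.C 1 136)) (Pf.cons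 (Pf.B 8 4 (Pf.B 8 2 (Pf.C 19 33288) (Pf.T 8 16 (Pf.cons (Pf.T 8 25 (Pf.cons (Pf.C 118 1026) (Pf.cons (Pf.C 112 392) Pf.nil))) Pf.nil))) (Pf.C 1 520)) (Pf.cons (Pf.B 8 6 (Pf.B 8 1 (Pf.B 8 7 (Pf.C 57 0x10620007) (Pf.B 8 2 (Pf.C 52 0x20c1c401) (Pf.T 8 17 (Pf.cons (Pf.T 8 26 (Pf.cons (Pf.C 118 1026) (Pf.cons (Pf.C 114 392) Pf.nil))) Pf.nil)))) (Pf.C 1 136)) (Pf.C 1 776)) (Pf.cons (Pf.B 8 1 (Pf.C 17 136) (Pf.C 1 136)) (Pf.cons (Pf.B 8 1 (Pf.C 17 136) (Pf.C 1 136)) Pf.nil))))))) Pf.nil))) Pf.nil))) Pf.nil)) Pf.nil)) (Pf.C 52 0x20c1c084)) (Pf.C 52 0x20c1c205)) (Pf.B 7 4 (Pf.C 52 0x20c1c284) (Pf.B 7 1 (Pf.C 52 0x20c1c201) (Pf.T 7 19 (Pf.cons (Pf.T 7 20 (Pf.cons (Pf.T 7 22 (Pf.cons (Pf.C 114 902) (Pf.cons (Pf.C 106 135) Pf.nil)))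 Pf.nil)) Pf.nil))))) (Pf.C 2 7)) (Pf.C 2 263)) (Pf.C 2 391)) Pf.nil))) Pf.nil))) Pf.nil)))) (Pf.C 1 134)) (Pf.C 1 518)) (Pf.C 1 646)) Pf.nil))))))) Pf.nil))) Pf.nil)) (Pf.cons (Pf.C 82 261) (Pf.cons (Pf.C 83 5) Pf.nil)))) (Pf.C 1 133)) (Pf.C 1 517)) (Pf.cons (Pf.B 5 4 (Pf.B 5 1 (Pf.C 52 0x808281) (Pf.C 1 133)) (Pf.C 1 517)) Pf.nil))))))))))))))) (Pf.C 1 132)) (Pf.cons (Pf.B 4 1 (Pf.W 75 256 [] [1,4] (Pf.cons (Pf.B 5 1 (Pf.C 17 32901) (Pf.C 1 133)) (Pf.cons (Pf.B 5 4 (Pf.C 17 517) (Pf.C 1 517)) (Pf.cons (Pf.B 5 1 (Pf.C 17 32901) (Pf.C 1 133)) (Pf.cons (Pf.B 5 4 (Pf.C 17 517) (Pf.C 1 517)) (Pf.cons (Pf.B 5 1 (Pf.C 19 32901) (Pf.C 1 133)) (Pf.cons (Pf.B 5 4 (Pf.C 19 517) (Pf.C 1 517)) (Pf.cons (Pf.B 5 1 (Pf.C 33 0x214002)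 (Pf.C 1 133)) (Pf.cons (Pf.B 5 1 (Pf.C 33 0x214100) (Pf.C 1 133)) (Pf.cons (Pf.B 5 1 (Pf.C 19 32901) (Pf.C 1 133)) (Pf.cons (Pf.B 5 4 (Pf.C 19 517) (Pf.C 1 517)) (Pf.cons (Pf.B 5 4 (Pf.B 5 1 (Pf.C 52 0x20800281) (Pf.C 1 133)) (Pf.C 1 517)) (Pf.cons (Pf.T 4 3 (Pf.cons (Pf.T 4 17 (Pf.cons (Pf.C 106 514) Pf.nil)) (Pf.cons (Pf.C 82 4) (Pf.cons (Pf.C 83 260) Pf.nil)))) (Pf.cons (Pf.T 5 3 (Pf.cons (Pf.T 5 17 (Pf.cons (Pf.C 106 642) Pf.nil)) (Pf.cons (Pf.C 82 5) (Pf.cons (Pf.C 83 261) Pf.nil)))) Pf.nil)))))))))))))) (Pf.C 1 132)) Pf.nil))))))))))))) (Pf.cons (Pf.C 106 131) Pf.nil))) Pf.nil)) Pf.nil)) (Pf.C 2 3)) (Pf.C 2 259)) Pf.nil))))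
 (Pq.cons (Pq.L [0] 1 (Pf.W 113 1 [] [0,2] (Pf.cons (Pf.B 3 2 (Pf.C 16 16643) (Pf.C 2 259)) (Pf.cons (Pf.B 3 2 (Pf.W 105 3 [] [0,1,2] (Pf.cons (Pf.B 4 2 (Pf.B 4 1 (Pf.C 19 32900) (Pf.C 1 132)) (Pf.C 106 514)) (Pf.cons (Pf.B 4 2 (Pf.B 4 1 (Pf.C 33 0x210182) (Pf.C 1 132)) (Pf.C 106 514)) (Pf.cons (Pf.B 4 2 (Pf.B 4 1 (Pf.C 19 32900) (Pf.C 1 132)) (Pf.C 106 514)) (Pf.cons (Pf.B 4 2 (Pf.B 4 1 (Pf.C 57 0x10010182) (Pf.C 1 132)) (Pf.C 106 514)) Pf.nil))))) (Pf.C 2 259)) Pf.nil))))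
 (Pq.cons (Pq.L [0] 1 (Pf.W 98 2 [] [0,1] (Pf.cons (Pf.B 3 1 (Pf.C 17 32899) (Pf.C 1 131)) (Pf.cons (Pf.B 3 1 (Pf.C 17 32899) (Pf.C 1 131)) (Pf.cons (Pf.T 3 14 (Pf.cons (Pf.C 106 386) (Pf.cons (Pf.T 3 23 (Pf.cons (Pf.C 118 386) (Pf.cons (Pf.W 94 3 [] [0,1,2] (Pf.cons (Pf.B 4 2 (Pf.B 4 0 (Pf.T 4 19 (Pf.cons (Pf.T 4 20 (Pf.cons (Pf.T 4 22 (Pf.cons (Pf.C 108 515) (Pf.cons (Pf.T 4 28 (Pf.cons (Pf.W 117 4 [] [0,2,3] (Pf.cons (Pf.B 5 3 (Pf.B 5 2 (Pf.C 35 0x608284) (Pf.C 118 642)) (Pf.C 1 389)) (Pf.cons (Pf.B 5 3 (Pf.C 10 643) (Pf.C 1 389)) (Pf.cons (Pf.B 5 3 (Pf.B 5 2 (Pf.C 29 82306) (Pf.C 118 642)) (Pf.C 1 389)) (Pf.cons (Pf.B 5 2 (Pf.W 113 5 [] [0,2,3,4] (Pf.cons (Pf.B 6 2 (Pf.C 16 82182) (Pf.C 2 262)) (Pf.cons (Pf.B 6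 4 (Pf.B 6 2 (Pf.W 105 6 [] [0,2,3,4,5] (Pf.cons (Pf.B 7 5 (Pf.B 7 2 (Pf.C 19 33415) (Pf.C 106 898)) (Pf.C 1 647)) (Pf.cons (Pf.B 7 3 (Pf.C 10 899) (Pf.C 1 391)) (Pf.cons (Pf.B 7 3 (Pf.C 29 0x1c180) (Pf.C 1 391)) (Pf.cons (Pf.B 7 4 (Pf.B 7 3 (Pf.C 19 66435) (Pf.C 1 391)) (Pf.C 106 900)) Pf.nil))))) (Pf.C 2 262)) (Pf.C 2 518)) Pf.nil))) (Pf.C 118 642)) Pf.nil))))) (Pf.cons (Pf.W 93 0 [] [1,2,3,4] (Pf.cons (Pf.C 15 389) (Pf.cons (Pf.T 5 13 Pf.nil) (Pf.cons (Pf.B 5 1 (Pf.B 5 2 (Pf.C 19 32901) (Pf.T 5 14 (Pf.cons (Pf.C 106 642) Pf.nil))) (Pf.C 1 133)) (Pf.cons (Pf.B 5 3 (Pf.C 10 643) (Pf.C 1 389)) (Pf.cons (Pf.B 5 3 (Pf.C 29 82304) (Pf.C 1 389)) (Pf.cons (Pf.B 5 3 (Pf.B 5 4 (Pf.C 19 66179) (Pf.T 5 17 (Pf.cons (Pf.C 106 644)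 Pf.nil))) (Pf.C 1 389)) Pf.nil))))))) Pf.nil))) Pf.nil))) Pf.nil)) Pf.nil)) (Pf.C 2 4)) (Pf.C 2 260)) Pf.nil)) Pf.nil))) Pf.nil))) (Pf.cons (Pf.B 3 1 (Pf.T 3 15 (Pf.cons (Pf.C 106 386) (Pf.cons (Pf.T 3 24 (Pf.cons (Pf.C 118 386) (Pf.cons (Pf.W 95 3 [] [0,1,2] (Pf.cons (Pf.B 4 2 (Pf.B 4 0 (Pf.T 4 19 (Pf.cons (Pf.T 4 20 (Pf.cons (Pf.T 4 22 (Pf.cons (Pf.C 110 515) (Pf.cons (Pf.T 4 28 (Pf.cons (Pf.W 117 4 [] [0,1,2,3] (Pf.cons (Pf.B 5 3 (Pf.C 10 389) (Pf.C 1 389)) (Pf.cons (Pf.B 5 3 (Pf.B 5 2 (Pf.C 35 0x608284) (Pf.C 118 642)) (Pf.C 1 389)) (Pf.cons (Pf.B 5 2 (Pf.B 5 1 (Pf.C 19 32901) (Pf.C 1 133)) (Pf.C 118 642)) (Pf.cons (Pf.B 5 2 (Pf.W 113 5 [] [0,2,3,4] (Pf.cons (Pf.B 6 2 (Pf.C 16 82182) (Pf.C 2 262)) (Pf.cons (Pf.B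 6 4 (Pf.B 6 2 (Pf.W 105 6 [] [0,2,3,4,5] (Pf.cons (Pf.B 7 3 (Pf.C 10 391) (Pf.C 1 391)) (Pf.cons (Pf.B 7 5 (Pf.B 7 2 (Pf.C 33 0xa1c302) (Pf.C 106 898)) (Pf.C 1 647)) (Pf.cons (Pf.B 7 4 (Pf.B 7 3 (Pf.C 19 65927) (Pf.C 1 391)) (Pf.C 106 900)) (Pf.cons (Pf.B 7 4 (Pf.B 7 3 (Pf.C 33 0xe0c004) (Pf.C 1 391)) (Pf.C 106 900)) Pf.nil))))) (Pf.C 2 262)) (Pf.C 2 518)) Pf.nil))) (Pf.C 118 642)) Pf.nil))))) (Pf.cons (Pf.W 93 0 [] [1,2,3,4] (Pf.cons (Pf.B 5 3 (Pf.C 14 389) (Pf.C 1 389)) (Pf.cons (Pf.T 5 13 Pf.nil) (Pf.cons (Pf.B 5 3 (Pf.C 10 389) (Pf.C 1 389)) (Pf.cons (Pf.B 5 3 (Pf.B 5 1 (Pf.B 5 2 (Pf.C 36 0x208185) (Pf.T 5 15 (Pf.cons (Pf.C 106 642) Pf.nil))) (Pf.C 1 133)) (Pf.C 1 389)) (Pf.cons (Pf.B 5 1 (Pf.B 5 2 (Pf.C 19 32901)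 (Pf.T 5 16 (Pf.cons (Pf.C 106 642) Pf.nil))) (Pf.C 1 133)) (Pf.cons (Pf.B 5 3 (Pf.B 5 4 (Pf.C 33 0xa0c004) (Pf.T 5 17 (Pf.cons (Pf.C 106 644) Pf.nil))) (Pf.C 1 389)) Pf.nil))))))) Pf.nil))) Pf.nil))) Pf.nil)) Pf.nil)) (Pf.C 2 4)) (Pf.C 2 260)) Pf.nil)) Pf.nil))) Pf.nil))) (Pf.C 1 131)) (Pf.cons (Pf.T 3 16 (Pf.cons (Pf.C 106 386) (Pf.cons (Pf.T 3 25 (Pf.cons (Pf.C 118 386) (Pf.cons (Pf.W 96 3 [] [0,1,2] (Pf.cons (Pf.B 4 2 (Pf.B 4 0 (Pf.T 4 18 (Pf.cons (Pf.T 4 21 (Pf.cons (Pf.C 112 515) (Pf.cons (Pf.T 4 27 (Pf.cons (Pf.W 115 4 [] [0,2,3] (Pf.cons (Pf.B 5 3 (Pf.B 5 2 (Pf.W 113 5 [] [0,2,3,4] (Pf.cons (Pf.B 6 3 (Pf.C 112 771) (Pf.C 22 82691)) (Pf.cons (Pf.B 6 4 (Pf.B 6 2 (Pf.W 105 6 [] [0,2,4,5] (Pf.cons (Pf.B 7 5 (Pf.B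 7 2 (Pf.C 19 33415) (Pf.C 106 898)) (Pf.C 1 647)) (Pf.cons (Pf.B 7 5 (Pf.B 7 2 (Pf.C 33 0xa1c302) (Pf.C 106 898)) (Pf.C 1 647)) (Pf.cons (Pf.B 7 5 (Pf.B 7 2 (Pf.C 19 33415) (Pf.C 106 898)) (Pf.C 1 647)) (Pf.cons (Pf.B 7 4 (Pf.C 16 0x1c004) (Pf.C 104 900)) Pf.nil))))) (Pf.C 2 262)) (Pf.C 2 518)) Pf.nil))) (Pf.C 118 642)) (Pf.C 1 389)) Pf.nil)) (Pf.cons (Pf.W 93 0 [] [1,2,4] (Pf.cons (Pf.T 5 12 Pf.nil) (Pf.cons (Pf.T 5 13 Pf.nil) (Pf.cons (Pf.B 5 1 (Pf.B 5 2 (Pf.C 19 32901) (Pf.T 5 14 (Pf.cons (Pf.C 106 642) Pf.nil))) (Pf.C 1 133)) (Pf.cons (Pf.B 5 1 (Pf.B 5 2 (Pf.T 5 15 (Pf.cons (Pf.W 89 5 [] [0,1,2,4] (Pf.cons (Pf.B 6 4 (Pf.B 6 2 (Pf.B 6 1 (Pf.C 33 0x214302) (Pf.B 6 0 (Pf.T 6 19 (Pf.cons (Pf.T 6 20 (Pf.cons (Pf.T 6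 22 (Pf.cons (Pf.W 100 81926 [] [2,4] (Pf.cons (Pf.B 7 5 (Pf.C 10 647) (Pf.C 1 647)) (Pf.cons (Pf.B 7 5 (Pf.C 35 0xa18380) (Pf.C 1 647)) (Pf.cons (Pf.B 7 5 (Pf.B 7 2 (Pf.C 19 33415) (Pf.T 7 16 (Pf.cons (Pf.T 7 25 (Pf.cons (Pf.C 118 898) (Pf.cons (Pf.C 112 775) Pf.nil))) Pf.nil))) (Pf.C 1 647)) (Pf.cons (Pf.B 7 4 (Pf.C 16 0x1c304) (Pf.T 7 17 (Pf.cons (Pf.T 7 26 (Pf.cons (Pf.C 116 900) (Pf.cons (Pf.C 114 775) Pf.nil))) Pf.nil))) (Pf.cons (Pf.B 7 5 (Pf.C 14 647) (Pf.C 1 647)) (Pf.cons (Pf.B 7 5 (Pf.C 17 647) (Pf.C 1 647)) Pf.nil))))))) (Pf.cons (Pf.C 106 646) Pf.nil))) Pf.nil)) Pf.nil)) (Pf.C 2 6))) (Pf.C 2 262)) (Pf.C 2 518)) Pf.nil)) Pf.nil)) (Pf.T 5 15 (Pf.cons (Pf.C 106 642) Pf.nil))) (Pf.C 1 133)) (Pf.cons (Pf.B 5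 1 (Pf.B 5 2 (Pf.C 19 32901) (Pf.T 5 16 (Pf.cons (Pf.C 106 642) Pf.nil))) (Pf.C 1 133)) (Pf.cons (Pf.B 5 4 (Pf.C 16 81924) (Pf.T 5 17 (Pf.cons (Pf.C 104 644) Pf.nil))) Pf.nil))))))) Pf.nil))) Pf.nil))) Pf.nil)) (Pf.C 2 4)) (Pf.C 2 260)) (Pf.cons (Pf.B 4 2 (Pf.B 4 0 (Pf.T 4 19 (Pf.cons (Pf.T 4 20 (Pf.cons (Pf.T 4 22 (Pf.cons (Pf.C 112 515) (Pf.cons (Pf.T 4 28 (Pf.cons (Pf.W 117 4 [] [0,2,3] (Pf.cons (Pf.B 5 3 (Pf.C 29 49796) (Pf.C 1 389)) (Pf.cons (Pf.B 5 2 (Pf.W 109 5 [] [0,2,3,4] (Pf.cons (Pf.B 6 4 (Pf.B 6 2 (Pf.W 105 6 [] [0,2,3,4,5] (Pf.cons (Pf.B 7 5 (Pf.C 10 647) (Pf.C 1 647)) (Pf.cons (Pf.B 7 5 (Pf.C 35 0xa00386) (Pf.C 1 647)) (Pf.cons (Pf.B 7 5 (Pf.B 7 2 (Pf.C 19 33415) (Pf.C 106 898)) (Pf.C 1 647)) (Pf.cons (Pf.B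 7 4 (Pf.B 7 3 (Pf.C 19 66435) (Pf.C 1 391)) (Pf.C 106 900)) Pf.nil))))) (Pf.C 2 262)) (Pf.C 2 518)) Pf.nil)) (Pf.C 118 642)) (Pf.cons (Pf.B 5 3 (Pf.B 5 2 (Pf.C 37 0x608284) (Pf.C 118 642)) (Pf.C 1 389)) (Pf.cons (Pf.B 5 3 (Pf.B 5 2 (Pf.W 113 5 [] [2,3,4] (Pf.cons (Pf.B 6 3 (Pf.C 112 771) (Pf.C 22 82691)) (Pf.cons (Pf.B 6 4 (Pf.B 6 2 (Pf.W 105 6 [] [2,3,4,5] (Pf.cons (Pf.B 7 5 (Pf.B 7 2 (Pf.C 19 33415) (Pf.C 106 898)) (Pf.C 1 647)) (Pf.cons (Pf.B 7 4 (Pf.B 7 3 (Pf.C 19 66435) (Pf.C 1 391)) (Pf.C 106 900)) (Pf.cons (Pf.B 7 5 (Pf.B 7 2 (Pf.C 19 33415) (Pf.C 106 898)) (Pf.C 1 647)) (Pf.cons (Pf.B 7 4 (Pf.B 7 3 (Pf.C 19 66435) (Pf.C 1 391)) (Pf.C 106 900)) Pf.nil))))) (Pf.C 2 262)) (Pf.C 2 518)) Pf.nil))) (Pf.C 118 642))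 (Pf.C 1 389)) Pf.nil))))) (Pf.cons (Pf.W 93 0 [] [1,2,3,4] (Pf.cons (Pf.T 5 12 Pf.nil) (Pf.cons (Pf.T 5 13 Pf.nil) (Pf.cons (Pf.B 5 1 (Pf.B 5 2 (Pf.C 19 32901) (Pf.T 5 14 (Pf.cons (Pf.C 106 642) Pf.nil))) (Pf.C 1 133)) (Pf.cons (Pf.B 5 3 (Pf.B 5 4 (Pf.C 19 66179) (Pf.T 5 15 (Pf.cons (Pf.C 106 644) Pf.nil))) (Pf.C 1 389)) (Pf.cons (Pf.B 5 1 (Pf.B 5 2 (Pf.C 19 32901) (Pf.T 5 16 (Pf.cons (Pf.C 106 642) Pf.nil))) (Pf.C 1 133)) (Pf.cons (Pf.B 5 3 (Pf.B 5 4 (Pf.C 19 66179) (Pf.T 5 17 (Pf.cons (Pf.C 106 644) Pf.nil))) (Pf.C 1 389)) Pf.nil))))))) Pf.nil))) Pf.nil))) Pf.nil)) Pf.nil)) (Pf.C 2 4)) (Pf.C 2 260)) Pf.nil))) Pf.nil))) Pf.nil))) (Pf.cons (Pf.B 3 1 (Pf.T 3 17 (Pf.cons (Pf.C 106 386) (Pf.cons (Pf.T 3 26 (Pf.cons (Pf.C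 118 386) (Pf.cons (Pf.W 97 3 [] [0,1,2] (Pf.cons (Pf.B 4 2 (Pf.B 4 0 (Pf.T 4 18 (Pf.cons (Pf.T 4 21 (Pf.cons (Pf.C 114 515) (Pf.cons (Pf.T 4 27 (Pf.cons (Pf.W 115 4 [] [0,2,3] (Pf.cons (Pf.B 5 3 (Pf.B 5 2 (Pf.W 113 5 [] [0,2,3,4] (Pf.cons (Pf.B 6 4 (Pf.B 6 3 (Pf.C 114 771) (Pf.C 31 0x814303)) (Pf.C 2 518)) (Pf.cons (Pf.B 6 4 (Pf.B 6 2 (Pf.W 105 6 [] [0,2,4,5] (Pf.cons (Pf.B 7 5 (Pf.B 7 2 (Pf.C 19 33415) (Pf.C 106 898)) (Pf.C 1 647)) (Pf.cons (Pf.B 7 5 (Pf.B 7 2 (Pf.C 33 0xa1c302) (Pf.C 106 898)) (Pf.C 1 647)) (Pf.cons (Pf.B 7 5 (Pf.B 7 2 (Pf.C 19 33415) (Pf.C 106 898)) (Pf.C 1 647)) (Pf.cons (Pf.B 7 4 (Pf.C 16 0x1c004) (Pf.C 104 900)) Pf.nil))))) (Pf.C 2 262)) (Pf.C 2 518)) Pf.nil))) (Pf.C 118 642)) (Pf.C 1 389)) Pf.nil))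 (Pf.cons (Pf.W 93 0 [] [1,2,4] (Pf.cons (Pf.T 5 12 Pf.nil) (Pf.cons (Pf.T 5 13 Pf.nil) (Pf.cons (Pf.B 5 1 (Pf.B 5 2 (Pf.C 19 32901) (Pf.T 5 14 (Pf.cons (Pf.C 106 642) Pf.nil))) (Pf.C 1 133)) (Pf.cons (Pf.B 5 1 (Pf.B 5 2 (Pf.T 5 15 (Pf.cons (Pf.W 89 5 [] [0,1,2,4] (Pf.cons (Pf.B 6 4 (Pf.B 6 2 (Pf.B 6 1 (Pf.C 33 0x214302) (Pf.B 6 0 (Pf.T 6 19 (Pf.cons (Pf.T 6 20 (Pf.cons (Pf.T 6 22 (Pf.cons (Pf.W 100 81926 [] [2,4] (Pf.cons (Pf.B 7 5 (Pf.C 10 647) (Pf.C 1 647)) (Pf.cons (Pf.B 7 5 (Pf.C 35 0xa18380) (Pf.C 1 647)) (Pf.cons (Pf.B 7 5 (Pf.B 7 2 (Pf.C 19 33415) (Pf.T 7 16 (Pf.cons (Pf.T 7 25 (Pf.cons (Pf.C 118 898) (Pf.cons (Pf.C 112 775) Pf.nil))) Pf.nil))) (Pf.C 1 647)) (Pf.cons (Pf.B 7 4 (Pf.C 16 0x1c304) (Pf.T 7 17 (Pf.cons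 (Pf.T 7 26 (Pf.cons (Pf.C 116 900) (Pf.cons (Pf.C 114 775) Pf.nil))) Pf.nil))) (Pf.cons (Pf.B 7 5 (Pf.C 14 647) (Pf.C 1 647)) (Pf.cons (Pf.B 7 5 (Pf.C 17 647) (Pf.C 1 647)) Pf.nil))))))) (Pf.cons (Pf.C 106 646) Pf.nil))) Pf.nil)) Pf.nil)) (Pf.C 2 6))) (Pf.C 2 262)) (Pf.C 2 518)) Pf.nil)) Pf.nil)) (Pf.T 5 15 (Pf.cons (Pf.C 106 642) Pf.nil))) (Pf.C 1 133)) (Pf.cons (Pf.B 5 1 (Pf.B 5 2 (Pf.C 19 32901) (Pf.T 5 16 (Pf.cons (Pf.C 106 642) Pf.nil))) (Pf.C 1 133)) (Pf.cons (Pf.B 5 4 (Pf.C 16 81924) (Pf.T 5 17 (Pf.cons (Pf.C 104 644) Pf.nil))) Pf.nil))))))) Pf.nil))) Pf.nil))) Pf.nil)) (Pf.C 2 4)) (Pf.C 2 260)) (Pf.cons (Pf.B 4 2 (Pf.B 4 0 (Pf.B 4 1 (Pf.T 4 19 (Pf.cons (Pf.T 4 20 (Pf.cons (Pf.T 4 22 (Pf.cons (Pf.C 114 513) (Pf.cons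 (Pf.T 4 28 (Pf.cons (Pf.W 117 4 [] [1,2,3] (Pf.cons (Pf.B 5 2 (Pf.B 5 1 (Pf.C 19 32901) (Pf.C 1 133)) (Pf.C 118 642)) (Pf.cons (Pf.B 5 2 (Pf.B 5 1 (Pf.C 33 0x214202) (Pf.C 1 133)) (Pf.C 118 642)) (Pf.cons (Pf.B 5 2 (Pf.B 5 1 (Pf.C 19 32901) (Pf.C 1 133)) (Pf.C 118 642)) (Pf.cons (Pf.B 5 3 (Pf.B 5 2 (Pf.B 5 1 (Pf.C 52 0x20610281) (Pf.C 1 133)) (Pf.C 118 642)) (Pf.C 1 389)) Pf.nil))))) (Pf.cons (Pf.W 93 0 [] [1,2,3,4] (Pf.cons (Pf.T 5 12 Pf.nil) (Pf.cons (Pf.T 5 13 Pf.nil) (Pf.cons (Pf.B 5 1 (Pf.B 5 2 (Pf.C 19 32901) (Pf.T 5 14 (Pf.cons (Pf.C 106 642) Pf.nil))) (Pf.C 1 133)) (Pf.cons (Pf.B 5 1 (Pf.B 5 4 (Pf.B 5 2 (Pf.T 5 15 (Pf.cons (Pf.W 89 5 [] [0,1,2] (Pf.cons (Pf.B 6 2 (Pf.B 6 1 (Pf.C 33 0x214302) (Pf.B 6 0 (Pf.T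 6 19 (Pf.cons (Pf.T 6 20 (Pf.cons (Pf.T 6 22 (Pf.cons (Pf.W 100 81926 [] [2] (Pf.cons (Pf.B 7 5 (Pf.C 10 647) (Pf.C 1 647)) (Pf.cons (Pf.B 7 5 (Pf.C 35 0xa18380) (Pf.C 1 647)) (Pf.cons (Pf.B 7 5 (Pf.B 7 2 (Pf.C 19 33415) (Pf.T 7 16 (Pf.cons (Pf.T 7 25 (Pf.cons (Pf.C 118 898) (Pf.cons (Pf.C 112 775) Pf.nil))) Pf.nil))) (Pf.C 1 647)) (Pf.cons (Pf.B 7 5 (Pf.B 7 2 (Pf.C 33 0xe14302) (Pf.T 7 17 (Pf.cons (Pf.T 7 26 (Pf.cons (Pf.C 118 898) (Pf.cons (Pf.C 114 775) Pf.nil))) Pf.nil))) (Pf.C 1 647)) (Pf.cons (Pf.B 7 5 (Pf.C 14 647) (Pf.C 1 647)) (Pf.cons (Pf.B 7 5 (Pf.C 17 647) (Pf.C 1 647)) Pf.nil))))))) (Pf.cons (Pf.C 106 646) Pf.nil))) Pf.nil)) Pf.nil)) (Pf.C 2 6))) (Pf.C 2 262)) Pf.nil)) Pf.nil)) (Pf.C 33 0x214104)) (Pf.B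 5 2 (Pf.C 33 0x214202) (Pf.T 5 15 (Pf.cons (Pf.C 106 642) Pf.nil)))) (Pf.C 1 133)) (Pf.cons (Pf.B 5 1 (Pf.B 5 2 (Pf.C 19 32901) (Pf.T 5 16 (Pf.cons (Pf.C 106 642) Pf.nil))) (Pf.C 1 133)) (Pf.cons (Pf.B 5 3 (Pf.B 5 1 (Pf.B 5 4 (Pf.B 5 2 (Pf.T 5 17 (Pf.cons (Pf.W 91 5 [] [0,1,2,3,4] (Pf.cons (Pf.B 6 2 (Pf.B 6 1 (Pf.C 16 16646) (Pf.B 6 0 (Pf.T 6 18 (Pf.cons (Pf.T 6 21 (Pf.cons (Pf.W 92 6 [] [0,2,5] (Pf.cons (Pf.B 7 5 (Pf.B 7 2 (Pf.C 19 33415) (Pf.B 7 0 (Pf.C 19 647) (Pf.T 7 16 (Pf.cons (Pf.T 7 25 (Pf.cons (Pf.C 118 898) (Pf.cons (Pf.C 112 775) Pf.nil))) Pf.nil)))) (Pf.C 1 647)) (Pf.cons (Pf.B 7 2 (Pf.C 16 0x1c106) (Pf.B 7 0 (Pf.C 16 0x1c006) (Pf.T 7 17 (Pf.cons (Pf.T 7 26 (Pf.cons (Pf.C 118 898) (Pf.cons (Pf.C 114 775)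 Pf.nil))) Pf.nil)))) Pf.nil))) (Pf.cons (Pf.C 104 646) Pf.nil))) Pf.nil)) (Pf.C 2 6))) (Pf.C 2 262)) (Pf.cons (Pf.B 6 4 (Pf.B 6 2 (Pf.B 6 3 (Pf.C 57 0x30414304) (Pf.B 6 0 (Pf.B 6 1 (Pf.C 57 0x10014302) (Pf.T 6 19 (Pf.cons (Pf.T 6 20 (Pf.cons (Pf.T 6 22 (Pf.cons (Pf.W 98 4 [] [0,1,2,3,5,6] (Pf.cons (Pf.B 7 5 (Pf.C 17 66183) (Pf.C 1 647)) (Pf.cons (Pf.B 7 5 (Pf.C 17 66183) (Pf.C 1 647)) (Pf.cons (Pf.B 7 5 (Pf.B 7 2 (Pf.C 19 33415) (Pf.B 7 0 (Pf.C 19 647) (Pf.B 7 6 (Pf.T 7 14 (Pf.cons (Pf.T 7 23 (Pf.cons (Pf.C 118 898) (Pf.cons (Pf.C 108 775) Pf.nil))) Pf.nil)) (Pf.T 7 14 (Pf.cons (Pf.T 7 23 (Pf.cons (Pf.C 118 898) (Pf.cons (Pf.W 100 81926 [] [2,3,4,7] (Pf.cons (Pf.B 8 5 (Pf.B 8 2 (Pf.C 19 33416) (Pf.T 8 14 (Pf.cons (Pf.T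 8 23 (Pf.cons (Pf.C 118 1026) (Pf.cons (Pf.C 108 776) Pf.nil))) Pf.nil))) (Pf.C 1 648)) (Pf.cons (Pf.B 8 7 (Pf.C 10 1031) (Pf.C 1 904)) (Pf.cons (Pf.B 8 7 (Pf.C 29 0x20386) (Pf.C 1 904)) (Pf.cons (Pf.B 8 5 (Pf.B 8 4 (Pf.C 57 0x50c20004) (Pf.B 8 3 (Pf.B 8 2 (Pf.C 52 0x20610405) (Pf.T 8 17 (Pf.cons (Pf.T 8 26 (Pf.cons (Pf.C 118 1026) (Pf.cons (Pf.C 114 776) Pf.nil))) Pf.nil))) (Pf.C 1 392))) (Pf.C 1 648)) (Pf.cons (Pf.C 15 904) (Pf.cons (Pf.B 8 5 (Pf.C 17 648) (Pf.C 1 648)) Pf.nil))))))) Pf.nil))) Pf.nil))))) (Pf.C 1 647)) (Pf.cons (Pf.B 7 5 (Pf.B 7 2 (Pf.C 33 0xa1c202) (Pf.B 7 0 (Pf.C 33 0xa1c100) (Pf.T 7 15 (Pf.cons (Pf.T 7 24 (Pf.cons (Pf.C 118 898) (Pf.cons (Pf.W 95 7 [] [0,4,5] (Pf.cons (Pf.B 8 4 (Pf.B 8 5 (Pf.C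 33 0xa1c208) (Pf.T 8 19 (Pf.cons (Pf.T 8 20 (Pf.cons (Pf.T 8 22 (Pf.cons (Pf.C 110 1031) (Pf.cons (Pf.C 106 648) Pf.nil))) Pf.nil)) Pf.nil))) (Pf.C 2 520)) Pf.nil)) Pf.nil))) Pf.nil)))) (Pf.C 1 647)) (Pf.cons (Pf.B 7 5 (Pf.B 7 2 (Pf.C 19 33415) (Pf.B 7 0 (Pf.C 19 647) (Pf.T 7 16 (Pf.cons (Pf.T 7 25 (Pf.cons (Pf.C 118 898) (Pf.cons (Pf.W 96 7 [] [0,4,5] (Pf.cons (Pf.B 8 4 (Pf.B 8 5 (Pf.C 16 82440) (Pf.T 8 18 (Pf.cons (Pf.T 8 21 (Pf.cons (Pf.C 112 1031) (Pf.cons (Pf.C 104 648) Pf.nil))) Pf.nil))) (Pf.C 2 520)) (Pf.cons (Pf.B 8 5 (Pf.C 19 0x20287) (Pf.T 8 19 (Pf.cons (Pf.T 8 20 (Pf.cons (Pf.T 8 22 (Pf.cons (Pf.C 112 1031) (Pf.cons (Pf.C 106 648) Pf.nil))) Pf.nil)) Pf.nil))) Pf.nil))) Pf.nil))) Pf.nil)))) (Pf.C 1 647))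 (Pf.cons (Pf.B 7 5 (Pf.B 7 3 (Pf.B 7 2 (Pf.C 52 0x20610385) (Pf.B 7 1 (Pf.B 7 0 (Pf.C 52 0x208385) (Pf.B 7 6 (Pf.T 7 17 (Pf.cons (Pf.T 7 26 (Pf.cons (Pf.C 118 898) (Pf.cons (Pf.C 114 775) Pf.nil))) Pf.nil)) (Pf.T 7 17 (Pf.cons (Pf.T 7 26 (Pf.cons (Pf.C 118 898) (Pf.cons (Pf.W 97 7 [] [0,1,2,3,4,5,6] (Pf.cons (Pf.B 8 4 (Pf.B 8 5 (Pf.C 16 82440) (Pf.T 8 18 (Pf.cons (Pf.T 8 21 (Pf.cons (Pf.C 114 1031) (Pf.cons (Pf.C 104 648) Pf.nil))) Pf.nil))) (Pf.C 2 520)) (Pf.cons (Pf.B 8 6 (Pf.B 8 4 (Pf.B 8 2 (Pf.B 8 0 (Pf.B 8 5 (Pf.B 8 3 (Pf.B 8 1 (Pf.T 8 19 (Pf.cons (Pf.T 8 20 (Pf.cons (Pf.T 8 22 (Pf.cons (Pf.C 114 1025) (Pf.cons (Pf.T 8 28 (Pf.cons (Pf.W 117 8 [] [0,4,5,7] (Pf.cons (Pf.B 9 5 (Pf.B 9 4 (Pf.C 19 66185) (Pf.C 118 1156))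 (Pf.C 1 649)) (Pf.cons (Pf.B 9 5 (Pf.B 9 4 (Pf.C 33 0xa24004) (Pf.C 118 1156)) (Pf.C 1 649)) (Pf.cons (Pf.B 9 5 (Pf.B 9 4 (Pf.C 19 66185) (Pf.C 118 1156)) (Pf.C 1 649)) (Pf.cons (Pf.B 9 7 (Pf.B 9 5 (Pf.B 9 4 (Pf.C 52 0x40e20485) (Pf.C 118 1156)) (Pf.C 1 649)) (Pf.C 1 905)) Pf.nil))))) (Pf.cons (Pf.W 100 81926 [] [2,3,4,7,8] (Pf.cons (Pf.B 9 5 (Pf.B 9 2 (Pf.C 19 33417) (Pf.T 9 14 (Pf.cons (Pf.T 9 23 (Pf.cons (Pf.C 118 1154) (Pf.cons (Pf.C 108 777) Pf.nil))) Pf.nil))) (Pf.C 1 649)) (Pf.cons (Pf.B 9 5 (Pf.B 9 2 (Pf.C 33 0xa24002) (Pf.T 9 15 (Pf.cons (Pf.T 9 24 (Pf.cons (Pf.C 118 1154) (Pf.cons (Pf.C 110 777) Pf.nil))) Pf.nil))) (Pf.C 1 649)) (Pf.cons (Pf.B 9 5 (Pf.B 9 2 (Pf.C 19 33417) (Pf.T 9 16 (Pf.cons (Pf.T 9 25 (Pf.cons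 (Pf.C 118 1154) (Pf.cons (Pf.C 112 777) Pf.nil))) Pf.nil))) (Pf.C 1 649)) (Pf.cons (Pf.B 9 7 (Pf.B 9 5 (Pf.B 9 8 (Pf.C 57 0x50c24008) (Pf.B 9 4 (Pf.C 52 0x40e20485) (Pf.B 9 3 (Pf.B 9 2 (Pf.C 52 0x20610485) (Pf.T 9 17 (Pf.cons (Pf.T 9 26 (Pf.cons (Pf.C 118 1154) (Pf.cons (Pf.C 114 777) Pf.nil))) Pf.nil))) (Pf.C 1 393)))) (Pf.C 1 649)) (Pf.C 1 905)) (Pf.cons (Pf.B 9 5 (Pf.C 17 649) (Pf.C 1 649)) (Pf.cons (Pf.B 9 5 (Pf.C 17 649) (Pf.C 1 649)) Pf.nil))))))) Pf.nil))) Pf.nil))) Pf.nil)) Pf.nil)) (Pf.C 52 0x20620085)) (Pf.C 52 0x40e20185)) (Pf.T 8 19 (Pf.cons (Pf.T 8 20 (Pf.cons (Pf.T 8 22 (Pf.cons (Pf.C 114 1031) (Pf.cons (Pf.C 106 648) Pf.nil))) Pf.nil)) Pf.nil))) (Pf.C 2 8)) (Pf.C 2 264)) (Pf.C 2 520)) (Pf.C 2 776)) Pf.nil)))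 Pf.nil))) Pf.nil)))) (Pf.C 1 135))) (Pf.C 1 391)) (Pf.C 1 647)) Pf.nil))))))) (Pf.cons (Pf.C 106 646) Pf.nil))) Pf.nil)) Pf.nil))) (Pf.C 2 6))) (Pf.C 2 262)) (Pf.C 2 518)) Pf.nil))) Pf.nil)) (Pf.C 57 0x10014104)) (Pf.B 5 2 (Pf.C 52 0x20610281) (Pf.T 5 17 (Pf.cons (Pf.C 106 642) Pf.nil)))) (Pf.C 1 133)) (Pf.C 1 389)) Pf.nil))))))) Pf.nil))) Pf.nil))) Pf.nil)) Pf.nil)) (Pf.T 4 19 (Pf.cons (Pf.T 4 20 (Pf.cons (Pf.T 4 22 (Pf.cons (Pf.C 114 515) (Pf.cons (Pf.T 4 28 (Pf.cons (Pf.W 117 4 [] [0,1,2,3] (Pf.cons (Pf.B 5 2 (Pf.B 5 1 (Pf.C 19 32901) (Pf.C 1 133)) (Pf.C 118 642)) (Pf.cons (Pf.B 5 2 (Pf.W 109 5 [] [0,2,3,4] (Pf.cons (Pf.B 6 4 (Pf.B 6 2 (Pf.W 105 6 [] [0,2,3,4,5] (Pf.cons (Pf.B 7 5 (Pf.C 10 647) (Pf.C 1 647)) (Pf.cons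 (Pf.B 7 5 (Pf.C 35 0xa00386) (Pf.C 1 647)) (Pf.cons (Pf.B 7 4 (Pf.B 7 3 (Pf.C 19 65927) (Pf.C 1 391)) (Pf.C 106 900)) (Pf.cons (Pf.B 7 5 (Pf.B 7 2 (Pf.C 33 0xe14002) (Pf.C 106 898)) (Pf.C 1 647)) Pf.nil))))) (Pf.C 2 262)) (Pf.C 2 518)) Pf.nil)) (Pf.C 118 642)) (Pf.cons (Pf.B 5 2 (Pf.B 5 1 (Pf.C 19 32901) (Pf.C 1 133)) (Pf.C 118 642)) (Pf.cons (Pf.B 5 3 (Pf.B 5 2 (Pf.W 113 5 [] [2,3,4] (Pf.cons (Pf.B 6 2 (Pf.C 16 82182) (Pf.C 2 262)) (Pf.cons (Pf.B 6 4 (Pf.B 6 2 (Pf.W 105 6 [] [2,3,4,5] (Pf.cons (Pf.B 7 4 (Pf.B 7 3 (Pf.C 19 65927) (Pf.C 1 391)) (Pf.C 106 900)) (Pf.cons (Pf.B 7 5 (Pf.B 7 2 (Pf.C 33 0xa1c302) (Pf.C 106 898)) (Pf.C 1 647)) (Pf.cons (Pf.B 7 4 (Pf.B 7 3 (Pf.C 19 65927) (Pf.C 1 391)) (Pf.C 106 900)) (Pf.cons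 (Pf.B 7 5 (Pf.B 7 4 (Pf.B 7 3 (Pf.B 7 2 (Pf.C 52 0x40a08187) (Pf.C 106 898)) (Pf.C 1 391)) (Pf.C 106 900)) (Pf.C 1 647)) Pf.nil))))) (Pf.C 2 262)) (Pf.C 2 518)) Pf.nil))) (Pf.C 118 642)) (Pf.C 1 389)) Pf.nil))))) (Pf.cons (Pf.W 93 0 [] [1,2,3,4] (Pf.cons (Pf.T 5 12 Pf.nil) (Pf.cons (Pf.T 5 13 Pf.nil) (Pf.cons (Pf.B 5 1 (Pf.B 5 2 (Pf.C 19 32901) (Pf.T 5 14 (Pf.cons (Pf.C 106 642) Pf.nil))) (Pf.C 1 133)) (Pf.cons (Pf.B 5 3 (Pf.B 5 1 (Pf.B 5 4 (Pf.B 5 2 (Pf.C 52 0x40208185) (Pf.T 5 15 (Pf.cons (Pf.C 106 642) Pf.nil))) (Pf.T 5 15 (Pf.cons (Pf.C 106 644) Pf.nil))) (Pf.C 1 133)) (Pf.C 1 389)) (Pf.cons (Pf.B 5 1 (Pf.B 5 2 (Pf.C 19 32901) (Pf.T 5 16 (Pf.cons (Pf.C 106 642) Pf.nil))) (Pf.C 1 133)) (Pf.cons (Pf.B 5 3 (Pf.B 5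 1 (Pf.B 5 4 (Pf.B 5 2 (Pf.C 52 0x40208185) (Pf.T 5 17 (Pf.cons (Pf.C 106 642) Pf.nil))) (Pf.T 5 17 (Pf.cons (Pf.C 106 644) Pf.nil))) (Pf.C 1 133)) (Pf.C 1 389)) Pf.nil))))))) Pf.nil))) Pf.nil))) Pf.nil)) Pf.nil))) (Pf.C 2 4)) (Pf.C 2 260)) Pf.nil))) Pf.nil))) Pf.nil))) (Pf.C 1 131)) Pf.nil))))))))
 (Pq.cons (Pq.L [] 1 (Pf.C 2 257))
 (Pq.cons (Pq.L [] 1 (Pf.C 2 257))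
 (Pq.cons (Pq.L [] 1 (Pf.C 2 257))
 (Pq.cons (Pq.L [] 1 (Pf.C 2 257))
 (Pq.cons (Pq.L [] 1 (Pf.C 2 257))
 Pq.nil))))))))
theorem s1_o31 : AllRef s1_T s1_G41 (List.drop 10 (closeObl (s1_T.sc.get 0) true [74,89,90,76,91,92,78,93,94,80,95,96,85,97,98,87,99,100] [2,2,2,3,3,3,4,4,4,5,5,5,6,6,6,7,7,7] [0] [7] 0x1ffff)) :=
  chkPq_sound s1_o31c _ (by decide +kernel)
noncomputable def s1_o32c : Pq := (Pq.cons (Pq.L [0] 0 (Pf.W 94 1 [] [0] (Pf.cons (Pf.T 2 19 (Pf.cons (Pf.T 2 20 (Pf.cons (Pf.T 2 22 (Pf.cons (Pf.C 108 257) (Pf.cons (Pf.T 2 28 (Pf.cons (Pf.C 119 257) Pf.nil)) Pf.nil))) Pf.nil)) Pf.nil)) Pf.nil)))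
 (Pq.cons (Pq.L [0] 0 (Pf.W 95 1 [] [0] (Pf.cons (Pf.T 2 19 (Pf.cons (Pf.T 2 20 (Pf.cons (Pf.T 2 22 (Pf.cons (Pf.C 110 257) (Pf.cons (Pf.T 2 28 (Pf.cons (Pf.C 120 257) Pf.nil)) Pf.nil))) Pf.nil)) Pf.nil)) Pf.nil)))
 Pq.nil))
theorem s1_o32 : AllRef s1_T s1_G46 (List.map pat1 [102,104]) :=
  chkPq_sound s1_o32c _ (by decide +kernel)
noncomputable def s1_o33c : Pq := (Pq.cons (Pq.L [] 0 (Pf.X 0 1))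
 (Pq.cons (Pq.L [] 1 (Pf.C 1 257))
 (Pq.cons (Pq.L [] 1 (Pf.C 1 257))
 (Pq.cons (Pq.L [] 1 (Pf.C 1 257))
 (Pq.cons (Pq.L [] 1 (Pf.C 1 257))
 (Pq.cons (Pq.L [] 1 (Pf.C 1 257))
 (Pq.cons (Pq.L [] 1 (Pf.C 1 257))
 (Pq.cons (Pq.L [] 1 (Pf.C 1 257))
 (Pq.cons (Pq.L [] 1 (Pf.C 1 257))
 (Pq.cons (Pq.L [] 1 (Pf.C 1 257))
 (Pq.cons (Pq.L [] 1 (Pf.C 1 257))
 (Pq.cons (Pq.L [] 1 (Pf.C 1 257))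
 (Pq.cons (Pq.L [] 1 (Pf.C 1 257))
 (Pq.cons (Pq.L [] 1 (Pf.C 1 257))
 (Pq.cons (Pq.L [] 1 (Pf.C 1 257))
 (Pq.cons (Pq.L [] 1 (Pf.C 112 130))
 (Pq.cons (Pq.L [] 1 (Pf.C 122 130))
 (Pq.cons (Pq.L [] 1 (Pf.C 128 130))
 (Pq.cons (Pq.L [] 1 (Pf.C 112 130))
 (Pq.cons (Pq.L [] 1 (Pf.C 122 130))
 (Pq.cons (Pq.L [] 0 (Pf.X 0 1))
 (Pq.cons (Pq.L [] 1 (Pf.C 1 257))
 (Pq.cons (Pq.L [] 1 (Pf.C 1 257))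
 (Pq.cons (Pq.L [] 1 (Pf.C 1 257))
 (Pq.cons (Pq.L [] 1 (Pf.C 1 257))
 (Pq.cons (Pq.L [] 1 (Pf.C 1 257))
 (Pq.cons (Pq.L [] 1 (Pf.C 1 257))
 (Pq.cons (Pq.L [] 1 (Pf.C 1 257))
 (Pq.cons (Pq.L [] 1 (Pf.C 1 257))
 (Pq.cons (Pq.L [] 1 (Pf.C 1 257))
 (Pq.cons (Pq.L [] 1 (Pf.C 1 257))
 (Pq.cons (Pq.L [] 1 (Pf.C 1 257))
 (Pq.cons (Pq.L [] 1 (Pf.C 1 257))
 (Pq.cons (Pq.L [] 1 (Pf.C 1 257))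
 (Pq.cons (Pq.L [] 1 (Pf.C 1 257))
 (Pq.cons (Pq.L [] 1 (Pf.C 114 130))
 (Pq.cons (Pq.L [] 1 (Pf.C 124 130))
 (Pq.cons (Pq.L [] 1 (Pf.C 130 130))
 (Pq.cons (Pq.L [] 1 (Pf.C 114 130))
 (Pq.cons (Pq.L [] 1 (Pf.C 124 130))
 (Pq.cons (Pq.L [] 0 (Pf.X 0 1))
 (Pq.cons (Pq.L [] 1 (Pf.C 13 130))
 (Pq.cons (Pq.L [] 1 (Pf.C 13 130))
 (Pq.cons (Pq.L [] 1 (Pf.C 13 130))
 (Pq.cons (Pq.L [] 1 (Pf.C 6 130))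
 (Pq.cons (Pq.L [] 1 (Pf.C 6 130))
 (Pq.cons (Pq.L [] 1 (Pf.C 6 130))
 (Pq.cons (Pq.L [0] 1 (Pf.C 30 130))
 (Pq.cons (Pq.L [0] 1 (Pf.W 111 1 [] [0,2] (Pf.cons (Pf.B 3 2 (Pf.W 103 3 [] [0,2] (Pf.cons (Pf.B 4 2 (Pf.C 16 65538) (Pf.C 104 514)) Pf.nil)) (Pf.C 2 259)) (Pf.cons (Pf.B 3 2 (Pf.C 30 49282) (Pf.C 2 259)) Pf.nil))))
 (Pq.cons (Pq.L [] 1 (Pf.W 121 1 [] [2] (Pf.cons (Pf.B 3 2 (Pf.W 115 3 [] [1,2] (Pf.cons (Pf.B 4 2 (Pf.B 4 1 (Pf.C 22 65793) (Pf.C 1 132)) (Pf.C 116 514)) Pf.nil)) (Pf.C 2 259)) (Pf.cons (Pf.B 3 2 (Pf.C 30 49282) (Pf.C 2 259)) Pf.nil))))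
 (Pq.cons (Pq.L [] 1 (Pf.W 127 1 [] [2] (Pf.cons (Pf.B 3 2 (Pf.W 125 3 [] [1,2] (Pf.cons (Pf.B 4 2 (Pf.B 4 1 (Pf.C 22 65793) (Pf.C 1 132)) (Pf.C 126 514)) Pf.nil)) (Pf.C 2 259)) Pf.nil)))
 (Pq.cons (Pq.L [] 1 (Pf.C 104 130))
 (Pq.cons (Pq.L [] 1 (Pf.C 116 130))
 (Pq.cons (Pq.L [] 1 (Pf.C 126 130))
 (Pq.cons (Pq.L [] 1 (Pf.W 129 1 [] [2] (Pf.cons (Pf.B 3 2 (Pf.W 125 3 [] [1,2] (Pf.cons (Pf.B 4 2 (Pf.B 4 1 (Pf.C 31 0x404184) (Pf.C 1 132)) (Pf.C 126 514)) Pf.nil)) (Pf.C 2 259)) Pf.nil)))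
 (Pq.cons (Pq.L [] 1 (Pf.C 2 257))
 (Pq.cons (Pq.L [] 1 (Pf.C 2 257))
 (Pq.cons (Pq.L [] 1 (Pf.C 2 257))
 (Pq.cons (Pq.L [] 1 (Pf.C 2 257))
 (Pq.cons (Pq.L [] 1 (Pf.C 2 257))
 Pq.nil))))))))))))))))))))))))))))))))))))))))))))))))))))))))))))
theorem s1_o33 : AllRef s1_T s1_G50 (closeObl (s1_T.sc.get 0) false [74,89,101,76,91,103,78,93,105,111,112,80,95,107,113,114,85,97,109,110,87,99] [2,2,2,3,3,3,4,4,4,4,4,5,5,5,5,5,6,6,6,6,7,7] [0] [7] 0x377bff) :=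
  chkPq_sound s1_o33c _ (by decide +kernel)
noncomputable def s1_o34c : Pq := (Pq.cons (Pq.L [0] 0 (Pf.T 1 22 (Pf.cons (Pf.W 105 1 [] [0] (Pf.cons (Pf.W 100 32769 [] [] (Pf.cons (Pf.B 3 2 (Pf.C 35 0x404180) (Pf.C 1 259)) (Pf.cons (Pf.B 3 2 (Pf.C 10 386) (Pf.C 1 259)) (Pf.cons (Pf.B 3 2 (Pf.C 29 49409) (Pf.C 1 259)) (Pf.cons (Pf.T 3 17 (Pf.cons (Pf.C 133 385) Pf.nil)) (Pf.cons (Pf.C 15 259) (Pf.cons (Pf.B 3 2 (Pf.C 25 49408) (Pf.C 1 259)) Pf.nil))))))) (Pf.cons (Pf.W 100 32769 [] [] (Pf.cons (Pf.B 3 2 (Pf.C 10 259) (Pf.C 1 259)) (Pf.cons (Pf.B 3 2 (Pf.C 35 0x404180) (Pf.C 1 259)) (Pf.cons (Pf.T 3 16 (Pf.cons (Pf.C 133 385) Pf.nil)) (Pf.cons (Pf.T 3 17 (Pf.cons (Pf.C 133 385) Pf.nil)) (Pf.cons (Pf.B 3 2 (Pf.C 14 259)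 (Pf.C 1 259)) (Pf.cons (Pf.B 3 2 (Pf.C 17 259) (Pf.C 1 259)) Pf.nil))))))) (Pf.cons (Pf.W 100 32769 [] [] (Pf.cons (Pf.B 3 2 (Pf.C 29 33152) (Pf.C 1 259)) (Pf.cons (Pf.T 3 15 (Pf.cons (Pf.C 133 385) Pf.nil)) (Pf.cons (Pf.B 3 2 (Pf.C 37 0x404180) (Pf.C 1 259)) (Pf.cons (Pf.T 3 17 (Pf.cons (Pf.C 133 385) Pf.nil)) (Pf.cons (Pf.B 3 2 (Pf.C 28 49408) (Pf.C 1 259)) (Pf.cons (Pf.B 3 2 (Pf.C 20 259) (Pf.C 1 259)) Pf.nil))))))) (Pf.cons (Pf.W 100 32769 [] [] (Pf.cons (Pf.T 3 14 (Pf.cons (Pf.C 133 385) Pf.nil)) (Pf.cons (Pf.T 3 15 (Pf.cons (Pf.C 133 385) Pf.nil)) (Pf.cons (Pf.T 3 16 (Pf.cons (Pf.C 133 385) Pf.nil)) (Pf.cons (Pf.T 3 17 (Pf.cons (Pf.C 133 385) Pf.nil)) (Pf.cons (Pf.B 3 2 (Pf.C 17 259) (Pf.C 1 259)) (Pf.cons (Pf.B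 3 2 (Pf.C 17 259) (Pf.C 1 259)) Pf.nil))))))) Pf.nil))))) (Pf.cons (Pf.T 1 28 (Pf.cons (Pf.W 117 1 [] [0] (Pf.cons (Pf.W 107 2 [] [0,1] (Pf.cons (Pf.B 3 1 (Pf.T 3 37 (Pf.cons (Pf.W 105 3 [] [0,1,2] (Pf.cons (Pf.B 4 2 (Pf.C 35 0x400203) (Pf.C 1 260)) (Pf.cons (Pf.B 4 2 (Pf.C 10 514) (Pf.C 1 260)) (Pf.cons (Pf.B 4 2 (Pf.C 29 65792) (Pf.C 1 260)) (Pf.cons (Pf.B 4 1 (Pf.W 67 128 [] [2,4] (Pf.cons (Pf.C 15 261) (Pf.cons (Pf.C 15 261) (Pf.cons (Pf.B 5 4 (Pf.C 17 16901) (Pf.C 1 517)) (Pf.cons (Pf.B 5 4 (Pf.C 17 517) (Pf.C 1 517)) (Pf.cons (Pf.B 5 4 (Pf.C 19 16901) (Pf.C 1 517)) (Pf.cons (Pf.B 5 4 (Pf.C 19 517) (Pf.C 1 517)) (Pf.cons (Pf.B 5 4 (Pf.C 33 0x814001) (Pf.C 1 517)) (Pf.cons (Pf.B 5 4 (Pf.C 33 0x814080) (Pf.C 1 517))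 (Pf.cons (Pf.B 5 4 (Pf.C 19 16901) (Pf.C 1 517)) (Pf.cons (Pf.B 5 4 (Pf.C 19 517) (Pf.C 1 517)) (Pf.cons (Pf.B 5 4 (Pf.W 75 128 [] [2,4,5] (Pf.cons (Pf.C 15 262) (Pf.cons (Pf.C 15 262) (Pf.cons (Pf.B 6 5 (Pf.C 17 17030) (Pf.C 1 646)) (Pf.cons (Pf.B 6 4 (Pf.C 17 518) (Pf.C 1 518)) (Pf.cons (Pf.B 6 5 (Pf.C 19 17030) (Pf.C 1 646)) (Pf.cons (Pf.B 6 4 (Pf.C 19 518) (Pf.C 1 518)) (Pf.cons (Pf.B 6 4 (Pf.C 33 0x818001) (Pf.C 1 518)) (Pf.cons (Pf.B 6 4 (Pf.C 33 0x818080) (Pf.C 1 518)) (Pf.cons (Pf.B 6 5 (Pf.C 19 17030) (Pf.C 1 646)) (Pf.cons (Pf.B 6 4 (Pf.C 19 518) (Pf.C 1 518)) (Pf.cons (Pf.T 5 3 (Pf.cons (Pf.T 5 17 (Pf.cons (Pf.C 133 641) Pf.nil)) (Pf.cons (Pf.C 82 133) (Pf.cons (Pf.C 83 5) Pf.nil)))) (Pf.cons (Pf.T 6 3 (Pf.cons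 (Pf.T 6 17 (Pf.cons (Pf.C 133 769) Pf.nil)) (Pf.cons (Pf.C 82 134) (Pf.cons (Pf.C 83 6) Pf.nil)))) (Pf.cons (Pf.B 6 5 (Pf.B 6 4 (Pf.C 52 0xa04304) (Pf.C 1 518)) (Pf.C 1 646)) Pf.nil)))))))))))))) (Pf.C 1 517)) (Pf.cons (Pf.B 5 4 (Pf.W 75 128 [] [2,4,5] (Pf.cons (Pf.C 15 262) (Pf.cons (Pf.C 15 262) (Pf.cons (Pf.B 6 4 (Pf.C 17 16902) (Pf.C 1 518)) (Pf.cons (Pf.B 6 5 (Pf.C 17 646) (Pf.C 1 646)) (Pf.cons (Pf.B 6 4 (Pf.C 19 16902) (Pf.C 1 518)) (Pf.cons (Pf.B 6 5 (Pf.C 19 646) (Pf.C 1 646)) (Pf.cons (Pf.B 6 4 (Pf.C 33 0x818001) (Pf.C 1 518)) (Pf.cons (Pf.B 6 4 (Pf.C 33 0x818080) (Pf.C 1 518)) (Pf.cons (Pf.B 6 4 (Pf.C 19 16902) (Pf.C 1 518)) (Pf.cons (Pf.B 6 5 (Pf.C 19 646) (Pf.C 1 646)) (Pf.cons (Pf.B 6 5 (Pf.B 6 4 (Pf.C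 52 0x10a00304) (Pf.C 1 518)) (Pf.C 1 646)) (Pf.cons (Pf.T 5 3 (Pf.cons (Pf.T 5 17 (Pf.cons (Pf.C 106 641) Pf.nil)) (Pf.cons (Pf.C 82 5) (Pf.cons (Pf.C 83 133) Pf.nil)))) (Pf.cons (Pf.T 6 3 (Pf.cons (Pf.T 6 17 (Pf.cons (Pf.C 106 769) Pf.nil)) (Pf.cons (Pf.C 82 6) (Pf.cons (Pf.C 83 134) Pf.nil)))) Pf.nil)))))))))))))) (Pf.C 1 517)) Pf.nil))))))))))))) (Pf.C 106 513)) Pf.nil))))) (Pf.cons (Pf.C 133 259) Pf.nil))) (Pf.C 2 131)) Pf.nil)) (Pf.cons (Pf.W 109 2 [] [0,1] (Pf.cons (Pf.B 3 1 (Pf.T 3 37 (Pf.cons (Pf.W 105 3 [] [0,1,2] (Pf.cons (Pf.B 4 2 (Pf.C 10 260) (Pf.C 1 260)) (Pf.cons (Pf.B 4 2 (Pf.C 35 0x400203) (Pf.C 1 260)) (Pf.cons (Pf.B 4 1 (Pf.W 67 128 [] [4] (Pf.cons (Pf.B 5 4 (Pf.C 28 82433) (Pf.C 1 517)) (Pf.cons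 (Pf.B 5 4 (Pf.C 28 82432) (Pf.C 1 517)) (Pf.cons (Pf.B 5 4 (Pf.C 20 16901) (Pf.C 1 517)) (Pf.cons (Pf.B 5 4 (Pf.C 20 517) (Pf.C 1 517)) (Pf.cons (Pf.B 5 4 (Pf.C 29 66176) (Pf.C 1 517)) (Pf.cons (Pf.B 5 4 (Pf.C 29 66177) (Pf.C 1 517)) (Pf.cons (Pf.B 5 4 (Pf.C 19 17028) (Pf.C 1 517)) (Pf.cons (Pf.B 5 4 (Pf.C 19 644) (Pf.C 1 517)) (Pf.cons (Pf.W 75 128 [] [4,5] (Pf.cons (Pf.B 6 5 (Pf.C 28 98945) (Pf.C 1 646)) (Pf.cons (Pf.B 6 4 (Pf.C 28 98816) (Pf.C 1 518)) (Pf.cons (Pf.B 6 5 (Pf.C 20 17030) (Pf.C 1 646)) (Pf.cons (Pf.B 6 4 (Pf.C 20 518) (Pf.C 1 518)) (Pf.cons (Pf.B 6 4 (Pf.C 29 66304) (Pf.C 1 518)) (Pf.cons (Pf.B 6 5 (Pf.C 29 82689) (Pf.C 1 646)) (Pf.cons (Pf.B 6 5 (Pf.C 19 17157) (Pf.C 1 646)) (Pf.cons (Pf.B 6 4 (Pf.C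 19 772) (Pf.C 1 518)) (Pf.cons (Pf.T 5 2 (Pf.cons (Pf.T 5 16 (Pf.cons (Pf.C 133 641) Pf.nil)) (Pf.cons (Pf.C 80 133) (Pf.cons (Pf.C 81 5) Pf.nil)))) (Pf.cons (Pf.T 6 2 (Pf.cons (Pf.T 6 16 (Pf.cons (Pf.C 133 769) Pf.nil)) (Pf.cons (Pf.C 80 134) (Pf.cons (Pf.C 81 6) Pf.nil)))) (Pf.cons (Pf.B 6 5 (Pf.C 37 0xa00301) (Pf.C 1 646)) (Pf.cons (Pf.B 6 5 (Pf.C 19 17157) (Pf.C 1 646)) (Pf.cons (Pf.B 6 4 (Pf.C 19 772) (Pf.C 1 518)) Pf.nil)))))))))))))) (Pf.cons (Pf.W 75 128 [] [4,5] (Pf.cons (Pf.B 6 4 (Pf.C 28 98817) (Pf.C 1 518)) (Pf.cons (Pf.B 6 5 (Pf.C 28 98944) (Pf.C 1 646)) (Pf.cons (Pf.B 6 4 (Pf.C 20 16902) (Pf.C 1 518)) (Pf.cons (Pf.B 6 5 (Pf.C 20 646) (Pf.C 1 646)) (Pf.cons (Pf.B 6 5 (Pf.C 29 82688) (Pf.C 1 646)) (Pf.cons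 (Pf.B 6 4 (Pf.C 29 66305) (Pf.C 1 518)) (Pf.cons (Pf.B 6 4 (Pf.C 19 17156) (Pf.C 1 518)) (Pf.cons (Pf.B 6 5 (Pf.C 19 773) (Pf.C 1 646)) (Pf.cons (Pf.B 6 5 (Pf.C 37 0xa04300) (Pf.C 1 646)) (Pf.cons (Pf.T 5 2 (Pf.cons (Pf.T 5 16 (Pf.cons (Pf.C 106 641) Pf.nil)) (Pf.cons (Pf.C 80 5) (Pf.cons (Pf.C 81 133) Pf.nil)))) (Pf.cons (Pf.T 6 2 (Pf.cons (Pf.T 6 16 (Pf.cons (Pf.C 106 769) Pf.nil)) (Pf.cons (Pf.C 80 6) (Pf.cons (Pf.C 81 134) Pf.nil)))) (Pf.cons (Pf.B 6 4 (Pf.C 19 17156) (Pf.C 1 518)) (Pf.cons (Pf.B 6 5 (Pf.C 19 773) (Pf.C 1 646)) Pf.nil)))))))))))))) (Pf.cons (Pf.B 5 4 (Pf.C 19 17028) (Pf.C 1 517)) (Pf.cons (Pf.B 5 4 (Pf.C 19 644) (Pf.C 1 517)) Pf.nil))))))))))))) (Pf.C 106 513)) (Pf.cons (Pf.B 4 1 (Pf.W 67 128 []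 [4] (Pf.cons (Pf.B 5 4 (Pf.C 17 16901) (Pf.C 1 517)) (Pf.cons (Pf.B 5 4 (Pf.C 17 517) (Pf.C 1 517)) (Pf.cons (Pf.B 5 4 (Pf.C 17 16901) (Pf.C 1 517)) (Pf.cons (Pf.B 5 4 (Pf.C 17 517) (Pf.C 1 517)) (Pf.cons (Pf.B 5 4 (Pf.C 19 16901) (Pf.C 1 517)) (Pf.cons (Pf.B 5 4 (Pf.C 19 517) (Pf.C 1 517)) (Pf.cons (Pf.B 5 4 (Pf.C 33 0x814001) (Pf.C 1 517)) (Pf.cons (Pf.B 5 4 (Pf.C 33 0x814080) (Pf.C 1 517)) (Pf.cons (Pf.B 5 4 (Pf.C 19 16901) (Pf.C 1 517)) (Pf.cons (Pf.B 5 4 (Pf.C 19 517) (Pf.C 1 517)) (Pf.cons (Pf.B 5 4 (Pf.W 75 128 [] [4,5] (Pf.cons (Pf.B 6 5 (Pf.C 17 17030) (Pf.C 1 646)) (Pf.cons (Pf.B 6 4 (Pf.C 17 518) (Pf.C 1 518)) (Pf.cons (Pf.B 6 5 (Pf.C 17 17030) (Pf.C 1 646)) (Pf.cons (Pf.B 6 4 (Pf.C 17 518) (Pf.C 1 518))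 (Pf.cons (Pf.B 6 5 (Pf.C 19 17030) (Pf.C 1 646)) (Pf.cons (Pf.B 6 4 (Pf.C 19 518) (Pf.C 1 518)) (Pf.cons (Pf.B 6 4 (Pf.C 33 0x818001) (Pf.C 1 518)) (Pf.cons (Pf.B 6 4 (Pf.C 33 0x818080) (Pf.C 1 518)) (Pf.cons (Pf.B 6 5 (Pf.C 19 17030) (Pf.C 1 646)) (Pf.cons (Pf.B 6 4 (Pf.C 19 518) (Pf.C 1 518)) (Pf.cons (Pf.T 5 3 (Pf.cons (Pf.T 5 17 (Pf.cons (Pf.C 133 641) Pf.nil)) (Pf.cons (Pf.C 82 133) (Pf.cons (Pf.C 83 5) Pf.nil)))) (Pf.cons (Pf.T 6 3 (Pf.cons (Pf.T 6 17 (Pf.cons (Pf.C 133 769) Pf.nil)) (Pf.cons (Pf.C 82 134) (Pf.cons (Pf.C 83 6) Pf.nil)))) (Pf.cons (Pf.B 6 5 (Pf.B 6 4 (Pf.C 52 0xa04304) (Pf.C 1 518)) (Pf.C 1 646)) Pf.nil)))))))))))))) (Pf.C 1 517)) (Pf.cons (Pf.B 5 4 (Pf.W 75 128 [] [4,5] (Pf.cons (Pf.B 6 4 (Pf.C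 17 16902) (Pf.C 1 518)) (Pf.cons (Pf.B 6 5 (Pf.C 17 646) (Pf.C 1 646)) (Pf.cons (Pf.B 6 4 (Pf.C 17 16902) (Pf.C 1 518)) (Pf.cons (Pf.B 6 5 (Pf.C 17 646) (Pf.C 1 646)) (Pf.cons (Pf.B 6 4 (Pf.C 19 16902) (Pf.C 1 518)) (Pf.cons (Pf.B 6 5 (Pf.C 19 646) (Pf.C 1 646)) (Pf.cons (Pf.B 6 4 (Pf.C 33 0x818001) (Pf.C 1 518)) (Pf.cons (Pf.B 6 4 (Pf.C 33 0x818080) (Pf.C 1 518)) (Pf.cons (Pf.B 6 4 (Pf.C 19 16902) (Pf.C 1 518)) (Pf.cons (Pf.B 6 5 (Pf.C 19 646) (Pf.C 1 646)) (Pf.cons (Pf.B 6 5 (Pf.B 6 4 (Pf.C 52 0x10a00304) (Pf.C 1 518)) (Pf.C 1 646)) (Pf.cons (Pf.T 5 3 (Pf.cons (Pf.T 5 17 (Pf.cons (Pf.C 106 641) Pf.nil)) (Pf.cons (Pf.C 82 5) (Pf.cons (Pf.C 83 133) Pf.nil)))) (Pf.cons (Pf.T 6 3 (Pf.cons (Pf.T 6 17 (Pf.cons (Pf.C 106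 769) Pf.nil)) (Pf.cons (Pf.C 82 6) (Pf.cons (Pf.C 83 134) Pf.nil)))) Pf.nil)))))))))))))) (Pf.C 1 517)) Pf.nil))))))))))))) (Pf.C 106 513)) Pf.nil))))) (Pf.cons (Pf.C 133 259) Pf.nil))) (Pf.C 2 131)) Pf.nil)) (Pf.cons (Pf.W 111 2 [] [0,1] (Pf.cons (Pf.B 3 1 (Pf.T 3 36 (Pf.cons (Pf.W 103 3 [] [0,1] (Pf.cons (Pf.B 4 1 (Pf.W 67 128 [] [4] (Pf.cons (Pf.B 5 4 (Pf.C 17 16901) (Pf.C 1 517)) (Pf.cons (Pf.B 5 4 (Pf.C 17 517) (Pf.C 1 517)) (Pf.cons (Pf.B 5 4 (Pf.C 17 16901) (Pf.C 1 517)) (Pf.cons (Pf.B 5 4 (Pf.C 17 517) (Pf.C 1 517)) (Pf.cons (Pf.B 5 4 (Pf.C 19 16901) (Pf.C 1 517)) (Pf.cons (Pf.B 5 4 (Pf.C 19 517) (Pf.C 1 517)) (Pf.cons (Pf.B 5 4 (Pf.C 33 0x814001) (Pf.C 1 517)) (Pf.cons (Pf.B 5 4 (Pf.C 33 0x814080) (Pf.C 1 517))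 (Pf.cons (Pf.B 5 4 (Pf.C 19 16901) (Pf.C 1 517)) (Pf.cons (Pf.B 5 4 (Pf.C 19 517) (Pf.C 1 517)) (Pf.cons (Pf.B 5 4 (Pf.W 75 128 [] [4,5] (Pf.cons (Pf.B 6 5 (Pf.C 17 17030) (Pf.C 1 646)) (Pf.cons (Pf.B 6 4 (Pf.C 17 518) (Pf.C 1 518)) (Pf.cons (Pf.B 6 5 (Pf.C 17 17030) (Pf.C 1 646)) (Pf.cons (Pf.B 6 4 (Pf.C 17 518) (Pf.C 1 518)) (Pf.cons (Pf.B 6 5 (Pf.C 19 17030) (Pf.C 1 646)) (Pf.cons (Pf.B 6 4 (Pf.C 19 518) (Pf.C 1 518)) (Pf.cons (Pf.B 6 4 (Pf.C 33 0x818001) (Pf.C 1 518)) (Pf.cons (Pf.B 6 4 (Pf.C 33 0x818080) (Pf.C 1 518)) (Pf.cons (Pf.B 6 5 (Pf.C 19 17030) (Pf.C 1 646)) (Pf.cons (Pf.B 6 4 (Pf.C 19 518) (Pf.C 1 518)) (Pf.cons (Pf.T 5 3 (Pf.cons (Pf.T 5 17 (Pf.cons (Pf.C 133 641) Pf.nil)) (Pf.cons (Pf.C 82 133) (Pf.cons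 (Pf.C 83 5) Pf.nil)))) (Pf.cons (Pf.T 6 3 (Pf.cons (Pf.T 6 17 (Pf.cons (Pf.C 133 769) Pf.nil)) (Pf.cons (Pf.C 82 134) (Pf.cons (Pf.C 83 6) Pf.nil)))) (Pf.cons (Pf.B 6 5 (Pf.B 6 4 (Pf.C 52 0xa04304) (Pf.C 1 518)) (Pf.C 1 646)) Pf.nil)))))))))))))) (Pf.C 1 517)) (Pf.cons (Pf.B 5 4 (Pf.W 75 128 [] [4,5] (Pf.cons (Pf.B 6 4 (Pf.C 17 16902) (Pf.C 1 518)) (Pf.cons (Pf.B 6 5 (Pf.C 17 646) (Pf.C 1 646)) (Pf.cons (Pf.B 6 4 (Pf.C 17 16902) (Pf.C 1 518)) (Pf.cons (Pf.B 6 5 (Pf.C 17 646) (Pf.C 1 646)) (Pf.cons (Pf.B 6 4 (Pf.C 19 16902) (Pf.C 1 518)) (Pf.cons (Pf.B 6 5 (Pf.C 19 646) (Pf.C 1 646)) (Pf.cons (Pf.B 6 4 (Pf.C 33 0x818001) (Pf.C 1 518)) (Pf.cons (Pf.B 6 4 (Pf.C 33 0x818080) (Pf.C 1 518)) (Pf.cons (Pf.B 6 4 (Pf.C 19 16902)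 (Pf.C 1 518)) (Pf.cons (Pf.B 6 5 (Pf.C 19 646) (Pf.C 1 646)) (Pf.cons (Pf.B 6 5 (Pf.B 6 4 (Pf.C 52 0x10a00304) (Pf.C 1 518)) (Pf.C 1 646)) (Pf.cons (Pf.T 5 3 (Pf.cons (Pf.T 5 17 (Pf.cons (Pf.C 106 641) Pf.nil)) (Pf.cons (Pf.C 82 5) (Pf.cons (Pf.C 83 133) Pf.nil)))) (Pf.cons (Pf.T 6 3 (Pf.cons (Pf.T 6 17 (Pf.cons (Pf.C 106 769) Pf.nil)) (Pf.cons (Pf.C 82 6) (Pf.cons (Pf.C 83 134) Pf.nil)))) Pf.nil)))))))))))))) (Pf.C 1 517)) Pf.nil))))))))))))) (Pf.C 106 513)) Pf.nil)) (Pf.cons (Pf.C 131 259) Pf.nil))) (Pf.C 2 131)) (Pf.cons (Pf.B 3 1 (Pf.T 3 37 (Pf.cons (Pf.W 105 3 [] [0,1,2] (Pf.cons (Pf.B 4 2 (Pf.C 29 33283) (Pf.C 1 260)) (Pf.cons (Pf.B 4 1 (Pf.W 67 128 [] [4] (Pf.cons (Pf.B 5 4 (Pf.C 14 517) (Pf.C 1 517)) (Pf.cons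 (Pf.B 5 4 (Pf.C 14 517) (Pf.C 1 517)) (Pf.cons (Pf.B 5 4 (Pf.C 17 16901) (Pf.C 1 517)) (Pf.cons (Pf.B 5 4 (Pf.C 17 517) (Pf.C 1 517)) (Pf.cons (Pf.B 5 4 (Pf.C 10 517) (Pf.C 1 517)) (Pf.cons (Pf.B 5 4 (Pf.C 10 517) (Pf.C 1 517)) (Pf.cons (Pf.B 5 4 (Pf.W 75 128 [] [4,5] (Pf.cons (Pf.B 6 5 (Pf.C 14 646) (Pf.C 1 646)) (Pf.cons (Pf.B 6 5 (Pf.C 14 646) (Pf.C 1 646)) (Pf.cons (Pf.B 6 5 (Pf.C 17 17030) (Pf.C 1 646)) (Pf.cons (Pf.B 6 4 (Pf.C 17 518) (Pf.C 1 518)) (Pf.cons (Pf.B 6 5 (Pf.C 10 646) (Pf.C 1 646)) (Pf.cons (Pf.B 6 5 (Pf.C 10 646) (Pf.C 1 646)) (Pf.cons (Pf.T 5 1 (Pf.cons (Pf.T 5 15 (Pf.cons (Pf.C 133 641) Pf.nil)) (Pf.cons (Pf.C 78 133) (Pf.cons (Pf.C 79 5) Pf.nil)))) (Pf.cons (Pf.T 6 1 (Pf.cons (Pf.T 6 15 (Pf.cons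 (Pf.C 133 769) Pf.nil)) (Pf.cons (Pf.C 78 134) (Pf.cons (Pf.C 79 6) Pf.nil)))) (Pf.cons (Pf.B 6 5 (Pf.C 35 0xa00301) (Pf.C 1 646)) (Pf.cons (Pf.B 6 5 (Pf.C 19 17030) (Pf.C 1 646)) (Pf.cons (Pf.B 6 4 (Pf.C 19 518) (Pf.C 1 518)) (Pf.cons (Pf.T 6 3 (Pf.cons (Pf.T 6 17 (Pf.cons (Pf.C 133 769) Pf.nil)) (Pf.cons (Pf.C 82 134) (Pf.cons (Pf.C 83 6) Pf.nil)))) (Pf.cons (Pf.B 6 5 (Pf.B 6 4 (Pf.C 36 0xc00284) (Pf.C 1 518)) (Pf.C 1 646)) Pf.nil)))))))))))))) (Pf.C 1 517)) (Pf.cons (Pf.B 5 4 (Pf.W 75 128 [] [4,5] (Pf.cons (Pf.B 6 5 (Pf.C 14 646) (Pf.C 1 646)) (Pf.cons (Pf.B 6 5 (Pf.C 14 646) (Pf.C 1 646)) (Pf.cons (Pf.B 6 4 (Pf.C 17 16902) (Pf.C 1 518)) (Pf.cons (Pf.B 6 5 (Pf.C 17 646) (Pf.C 1 646)) (Pf.cons (Pf.B 6 5 (Pf.C 10 646)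 (Pf.C 1 646)) (Pf.cons (Pf.B 6 5 (Pf.C 10 646) (Pf.C 1 646)) (Pf.cons (Pf.B 6 5 (Pf.C 35 0xa04300) (Pf.C 1 646)) (Pf.cons (Pf.T 5 1 (Pf.cons (Pf.T 5 15 (Pf.cons (Pf.C 106 641) Pf.nil)) (Pf.cons (Pf.C 78 5) (Pf.cons (Pf.C 79 133) Pf.nil)))) (Pf.cons (Pf.T 6 1 (Pf.cons (Pf.T 6 15 (Pf.cons (Pf.C 106 769) Pf.nil)) (Pf.cons (Pf.C 78 6) (Pf.cons (Pf.C 79 134) Pf.nil)))) (Pf.cons (Pf.B 6 4 (Pf.C 19 16902) (Pf.C 1 518)) (Pf.cons (Pf.B 6 5 (Pf.C 19 646) (Pf.C 1 646)) (Pf.cons (Pf.B 6 5 (Pf.B 6 4 (Pf.C 36 0xc04284) (Pf.C 1 518)) (Pf.C 1 646)) (Pf.cons (Pf.T 6 3 (Pf.cons (Pf.T 6 17 (Pf.cons (Pf.C 106 769) Pf.nil)) (Pf.cons (Pf.C 82 6) (Pf.cons (Pf.C 83 134) Pf.nil)))) Pf.nil)))))))))))))) (Pf.C 1 517)) (Pf.cons (Pf.B 5 4 (Pf.C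 19 16901) (Pf.C 1 517)) (Pf.cons (Pf.B 5 4 (Pf.C 19 517) (Pf.C 1 517)) (Pf.cons (Pf.B 5 4 (Pf.W 75 128 [] [4,5] (Pf.cons (Pf.B 6 5 (Pf.C 17 17030) (Pf.C 1 646)) (Pf.cons (Pf.B 6 4 (Pf.C 14 518) (Pf.C 1 518)) (Pf.cons (Pf.B 6 5 (Pf.C 17 17030) (Pf.C 1 646)) (Pf.cons (Pf.B 6 4 (Pf.C 17 518) (Pf.C 1 518)) (Pf.cons (Pf.B 6 5 (Pf.C 19 17030) (Pf.C 1 646)) (Pf.cons (Pf.B 6 4 (Pf.C 10 518) (Pf.C 1 518)) (Pf.cons (Pf.T 6 1 (Pf.cons (Pf.T 6 15 (Pf.cons (Pf.C 133 769) Pf.nil)) (Pf.cons (Pf.C 78 134) (Pf.cons (Pf.C 79 6) Pf.nil)))) (Pf.cons (Pf.B 6 5 (Pf.B 6 4 (Pf.C 36 0xa04304) (Pf.C 1 518)) (Pf.C 1 646)) (Pf.cons (Pf.B 6 5 (Pf.C 19 17030) (Pf.C 1 646)) (Pf.cons (Pf.B 6 4 (Pf.C 19 518) (Pf.C 1 518)) (Pf.cons (Pf.T 5 3 (Pf.cons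 (Pf.T 5 17 (Pf.cons (Pf.C 133 641) Pf.nil)) (Pf.cons (Pf.C 82 133) (Pf.cons (Pf.C 83 5) Pf.nil)))) (Pf.cons (Pf.T 6 3 (Pf.cons (Pf.T 6 17 (Pf.cons (Pf.C 133 769) Pf.nil)) (Pf.cons (Pf.C 82 134) (Pf.cons (Pf.C 83 6) Pf.nil)))) (Pf.cons (Pf.B 6 5 (Pf.B 6 4 (Pf.C 52 0xa04304) (Pf.C 1 518)) (Pf.C 1 646)) Pf.nil)))))))))))))) (Pf.C 1 517)) (Pf.cons (Pf.B 5 4 (Pf.W 75 128 [] [4,5] (Pf.cons (Pf.B 6 4 (Pf.C 14 518) (Pf.C 1 518)) (Pf.cons (Pf.B 6 5 (Pf.C 17 646) (Pf.C 1 646)) (Pf.cons (Pf.B 6 4 (Pf.C 17 16902) (Pf.C 1 518)) (Pf.cons (Pf.B 6 5 (Pf.C 17 646) (Pf.C 1 646)) (Pf.cons (Pf.B 6 4 (Pf.C 10 518) (Pf.C 1 518)) (Pf.cons (Pf.B 6 5 (Pf.C 19 646) (Pf.C 1 646)) (Pf.cons (Pf.B 6 5 (Pf.B 6 4 (Pf.C 36 0xa00304) (Pf.C 1 518)) (Pf.C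 1 646)) (Pf.cons (Pf.T 6 1 (Pf.cons (Pf.T 6 15 (Pf.cons (Pf.C 106 769) Pf.nil)) (Pf.cons (Pf.C 78 6) (Pf.cons (Pf.C 79 134) Pf.nil)))) (Pf.cons (Pf.B 6 4 (Pf.C 19 16902) (Pf.C 1 518)) (Pf.cons (Pf.B 6 5 (Pf.C 19 646) (Pf.C 1 646)) (Pf.cons (Pf.B 6 5 (Pf.B 6 4 (Pf.C 52 0x10a00304) (Pf.C 1 518)) (Pf.C 1 646)) (Pf.cons (Pf.T 5 3 (Pf.cons (Pf.T 5 17 (Pf.cons (Pf.C 106 641) Pf.nil)) (Pf.cons (Pf.C 82 5) (Pf.cons (Pf.C 83 133) Pf.nil)))) (Pf.cons (Pf.T 6 3 (Pf.cons (Pf.T 6 17 (Pf.cons (Pf.C 106 769) Pf.nil)) (Pf.cons (Pf.C 82 6) (Pf.cons (Pf.C 83 134) Pf.nil)))) Pf.nil)))))))))))))) (Pf.C 1 517)) Pf.nil))))))))))))) (Pf.C 106 513)) (Pf.cons (Pf.B 4 2 (Pf.C 37 0x400203) (Pf.C 1 260)) (Pf.cons (Pf.B 4 1 (Pf.W 67 128 [] [4]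 (Pf.cons (Pf.B 5 4 (Pf.C 17 16901) (Pf.C 1 517)) (Pf.cons (Pf.B 5 4 (Pf.C 17 517) (Pf.C 1 517)) (Pf.cons (Pf.B 5 4 (Pf.C 17 16901) (Pf.C 1 517)) (Pf.cons (Pf.B 5 4 (Pf.C 17 517) (Pf.C 1 517)) (Pf.cons (Pf.B 5 4 (Pf.C 19 16901) (Pf.C 1 517)) (Pf.cons (Pf.B 5 4 (Pf.C 19 517) (Pf.C 1 517)) (Pf.cons (Pf.B 5 4 (Pf.C 33 0x814001) (Pf.C 1 517)) (Pf.cons (Pf.B 5 4 (Pf.C 33 0x814080) (Pf.C 1 517)) (Pf.cons (Pf.B 5 4 (Pf.C 19 16901) (Pf.C 1 517)) (Pf.cons (Pf.B 5 4 (Pf.C 19 517) (Pf.C 1 517)) (Pf.cons (Pf.B 5 4 (Pf.W 75 128 [] [4,5] (Pf.cons (Pf.B 6 5 (Pf.C 17 17030) (Pf.C 1 646)) (Pf.cons (Pf.B 6 4 (Pf.C 17 518) (Pf.C 1 518)) (Pf.cons (Pf.B 6 5 (Pf.C 17 17030) (Pf.C 1 646)) (Pf.cons (Pf.B 6 4 (Pf.C 17 518) (Pf.C 1 518)) (Pf.cons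 (Pf.B 6 5 (Pf.C 19 17030) (Pf.C 1 646)) (Pf.cons (Pf.B 6 4 (Pf.C 19 518) (Pf.C 1 518)) (Pf.cons (Pf.B 6 4 (Pf.C 33 0x818001) (Pf.C 1 518)) (Pf.cons (Pf.B 6 4 (Pf.C 33 0x818080) (Pf.C 1 518)) (Pf.cons (Pf.B 6 5 (Pf.C 19 17030) (Pf.C 1 646)) (Pf.cons (Pf.B 6 4 (Pf.C 19 518) (Pf.C 1 518)) (Pf.cons (Pf.T 5 3 (Pf.cons (Pf.T 5 17 (Pf.cons (Pf.C 133 641) Pf.nil)) (Pf.cons (Pf.C 82 133) (Pf.cons (Pf.C 83 5) Pf.nil)))) (Pf.cons (Pf.T 6 3 (Pf.cons (Pf.T 6 17 (Pf.cons (Pf.C 133 769) Pf.nil)) (Pf.cons (Pf.C 82 134) (Pf.cons (Pf.C 83 6) Pf.nil)))) (Pf.cons (Pf.B 6 5 (Pf.B 6 4 (Pf.C 52 0xa04304) (Pf.C 1 518)) (Pf.C 1 646)) Pf.nil)))))))))))))) (Pf.C 1 517)) (Pf.cons (Pf.B 5 4 (Pf.W 75 128 [] [4,5] (Pf.cons (Pf.B 6 4 (Pf.C 17 16902)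 (Pf.C 1 518)) (Pf.cons (Pf.B 6 5 (Pf.C 17 646) (Pf.C 1 646)) (Pf.cons (Pf.B 6 4 (Pf.C 17 16902) (Pf.C 1 518)) (Pf.cons (Pf.B 6 5 (Pf.C 17 646) (Pf.C 1 646)) (Pf.cons (Pf.B 6 4 (Pf.C 19 16902) (Pf.C 1 518)) (Pf.cons (Pf.B 6 5 (Pf.C 19 646) (Pf.C 1 646)) (Pf.cons (Pf.B 6 4 (Pf.C 33 0x818001) (Pf.C 1 518)) (Pf.cons (Pf.B 6 4 (Pf.C 33 0x818080) (Pf.C 1 518)) (Pf.cons (Pf.B 6 4 (Pf.C 19 16902) (Pf.C 1 518)) (Pf.cons (Pf.B 6 5 (Pf.C 19 646) (Pf.C 1 646)) (Pf.cons (Pf.B 6 5 (Pf.B 6 4 (Pf.C 52 0x10a00304) (Pf.C 1 518)) (Pf.C 1 646)) (Pf.cons (Pf.T 5 3 (Pf.cons (Pf.T 5 17 (Pf.cons (Pf.C 106 641) Pf.nil)) (Pf.cons (Pf.C 82 5) (Pf.cons (Pf.C 83 133) Pf.nil)))) (Pf.cons (Pf.T 6 3 (Pf.cons (Pf.T 6 17 (Pf.cons (Pf.C 106 769) Pf.nil))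 (Pf.cons (Pf.C 82 6) (Pf.cons (Pf.C 83 134) Pf.nil)))) Pf.nil)))))))))))))) (Pf.C 1 517)) Pf.nil))))))))))))) (Pf.C 106 513)) Pf.nil))))) (Pf.cons (Pf.C 133 259) Pf.nil))) (Pf.C 2 131)) Pf.nil))) (Pf.cons (Pf.W 113 2 [] [0,1] (Pf.cons (Pf.B 3 1 (Pf.T 3 36 (Pf.cons (Pf.W 103 3 [] [0,1] (Pf.cons (Pf.B 4 1 (Pf.W 67 128 [] [4] (Pf.cons (Pf.B 5 4 (Pf.C 17 16901) (Pf.C 1 517)) (Pf.cons (Pf.B 5 4 (Pf.C 17 517) (Pf.C 1 517)) (Pf.cons (Pf.B 5 4 (Pf.C 17 16901) (Pf.C 1 517)) (Pf.cons (Pf.B 5 4 (Pf.C 17 517) (Pf.C 1 517)) (Pf.cons (Pf.B 5 4 (Pf.C 19 16901) (Pf.C 1 517)) (Pf.cons (Pf.B 5 4 (Pf.C 19 517) (Pf.C 1 517)) (Pf.cons (Pf.B 5 4 (Pf.C 33 0x814001) (Pf.C 1 517)) (Pf.cons (Pf.B 5 4 (Pf.C 33 0x814080) (Pf.C 1 517)) (Pf.cons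 (Pf.B 5 4 (Pf.C 19 16901) (Pf.C 1 517)) (Pf.cons (Pf.B 5 4 (Pf.C 19 517) (Pf.C 1 517)) (Pf.cons (Pf.B 5 4 (Pf.W 75 128 [] [4,5] (Pf.cons (Pf.B 6 5 (Pf.C 17 17030) (Pf.C 1 646)) (Pf.cons (Pf.B 6 4 (Pf.C 17 518) (Pf.C 1 518)) (Pf.cons (Pf.B 6 5 (Pf.C 17 17030) (Pf.C 1 646)) (Pf.cons (Pf.B 6 4 (Pf.C 17 518) (Pf.C 1 518)) (Pf.cons (Pf.B 6 5 (Pf.C 19 17030) (Pf.C 1 646)) (Pf.cons (Pf.B 6 4 (Pf.C 19 518) (Pf.C 1 518)) (Pf.cons (Pf.B 6 4 (Pf.C 33 0x818001) (Pf.C 1 518)) (Pf.cons (Pf.B 6 4 (Pf.C 33 0x818080) (Pf.C 1 518)) (Pf.cons (Pf.B 6 5 (Pf.C 19 17030) (Pf.C 1 646)) (Pf.cons (Pf.B 6 4 (Pf.C 19 518) (Pf.C 1 518)) (Pf.cons (Pf.T 5 3 (Pf.cons (Pf.T 5 17 (Pf.cons (Pf.C 133 641) Pf.nil)) (Pf.cons (Pf.C 82 133) (Pf.cons (Pf.C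 83 5) Pf.nil)))) (Pf.cons (Pf.T 6 3 (Pf.cons (Pf.T 6 17 (Pf.cons (Pf.C 133 769) Pf.nil)) (Pf.cons (Pf.C 82 134) (Pf.cons (Pf.C 83 6) Pf.nil)))) (Pf.cons (Pf.B 6 5 (Pf.B 6 4 (Pf.C 52 0xa04304) (Pf.C 1 518)) (Pf.C 1 646)) Pf.nil)))))))))))))) (Pf.C 1 517)) (Pf.cons (Pf.B 5 4 (Pf.W 75 128 [] [4,5] (Pf.cons (Pf.B 6 4 (Pf.C 17 16902) (Pf.C 1 518)) (Pf.cons (Pf.B 6 5 (Pf.C 17 646) (Pf.C 1 646)) (Pf.cons (Pf.B 6 4 (Pf.C 17 16902) (Pf.C 1 518)) (Pf.cons (Pf.B 6 5 (Pf.C 17 646) (Pf.C 1 646)) (Pf.cons (Pf.B 6 4 (Pf.C 19 16902) (Pf.C 1 518)) (Pf.cons (Pf.B 6 5 (Pf.C 19 646) (Pf.C 1 646)) (Pf.cons (Pf.B 6 4 (Pf.C 33 0x818001) (Pf.C 1 518)) (Pf.cons (Pf.B 6 4 (Pf.C 33 0x818080) (Pf.C 1 518)) (Pf.cons (Pf.B 6 4 (Pf.C 19 16902) (Pf.C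 1 518)) (Pf.cons (Pf.B 6 5 (Pf.C 19 646) (Pf.C 1 646)) (Pf.cons (Pf.B 6 5 (Pf.B 6 4 (Pf.C 52 0x10a00304) (Pf.C 1 518)) (Pf.C 1 646)) (Pf.cons (Pf.T 5 3 (Pf.cons (Pf.T 5 17 (Pf.cons (Pf.C 106 641) Pf.nil)) (Pf.cons (Pf.C 82 5) (Pf.cons (Pf.C 83 133) Pf.nil)))) (Pf.cons (Pf.T 6 3 (Pf.cons (Pf.T 6 17 (Pf.cons (Pf.C 106 769) Pf.nil)) (Pf.cons (Pf.C 82 6) (Pf.cons (Pf.C 83 134) Pf.nil)))) Pf.nil)))))))))))))) (Pf.C 1 517)) Pf.nil))))))))))))) (Pf.C 106 513)) Pf.nil)) (Pf.cons (Pf.C 131 259) Pf.nil))) (Pf.C 2 131)) (Pf.cons (Pf.B 3 1 (Pf.T 3 37 (Pf.cons (Pf.W 105 3 [] [0,1] (Pf.cons (Pf.B 4 1 (Pf.W 67 128 [] [4] (Pf.cons (Pf.C 15 517) (Pf.cons (Pf.C 15 517) (Pf.cons (Pf.B 5 4 (Pf.C 25 82433) (Pf.C 1 517)) (Pf.cons (Pf.B 5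 4 (Pf.C 25 82432) (Pf.C 1 517)) (Pf.cons (Pf.W 75 128 [] [4,5] (Pf.cons (Pf.C 15 518) (Pf.cons (Pf.C 15 518) (Pf.cons (Pf.B 6 5 (Pf.C 25 98945) (Pf.C 1 646)) (Pf.cons (Pf.B 6 4 (Pf.C 25 98816) (Pf.C 1 518)) (Pf.cons (Pf.T 5 0 (Pf.cons (Pf.T 5 14 (Pf.cons (Pf.C 133 641) Pf.nil)) (Pf.cons (Pf.C 76 133) (Pf.cons (Pf.C 77 5) Pf.nil)))) (Pf.cons (Pf.T 6 0 (Pf.cons (Pf.T 6 14 (Pf.cons (Pf.C 133 769) Pf.nil)) (Pf.cons (Pf.C 76 134) (Pf.cons (Pf.C 77 6) Pf.nil)))) (Pf.cons (Pf.B 6 5 (Pf.C 35 0xa00301) (Pf.C 1 646)) (Pf.cons (Pf.B 6 5 (Pf.C 10 773) (Pf.C 1 646)) (Pf.cons (Pf.B 6 5 (Pf.C 10 773) (Pf.C 1 646)) (Pf.cons (Pf.T 6 2 (Pf.cons (Pf.T 6 16 (Pf.cons (Pf.C 133 769) Pf.nil)) (Pf.cons (Pf.C 80 134) (Pf.cons (Pf.C 81 6) Pf.nil))))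 (Pf.cons (Pf.B 6 5 (Pf.C 29 98944) (Pf.C 1 646)) (Pf.cons (Pf.B 6 5 (Pf.C 19 17157) (Pf.C 1 646)) (Pf.cons (Pf.B 6 4 (Pf.C 19 772) (Pf.C 1 518)) Pf.nil)))))))))))))) (Pf.cons (Pf.W 75 128 [] [4,5] (Pf.cons (Pf.C 15 518) (Pf.cons (Pf.C 15 518) (Pf.cons (Pf.B 6 4 (Pf.C 25 98817) (Pf.C 1 518)) (Pf.cons (Pf.B 6 5 (Pf.C 25 98944) (Pf.C 1 646)) (Pf.cons (Pf.B 6 5 (Pf.C 35 0xa04300) (Pf.C 1 646)) (Pf.cons (Pf.T 5 0 (Pf.cons (Pf.T 5 14 (Pf.cons (Pf.C 106 641) Pf.nil)) (Pf.cons (Pf.C 76 5) (Pf.cons (Pf.C 77 133) Pf.nil)))) (Pf.cons (Pf.T 6 0 (Pf.cons (Pf.T 6 14 (Pf.cons (Pf.C 106 769) Pf.nil)) (Pf.cons (Pf.C 76 6) (Pf.cons (Pf.C 77 134) Pf.nil)))) (Pf.cons (Pf.B 6 5 (Pf.C 10 773) (Pf.C 1 646)) (Pf.cons (Pf.B 6 5 (Pf.C 10 773)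 (Pf.C 1 646)) (Pf.cons (Pf.B 6 5 (Pf.C 29 98945) (Pf.C 1 646)) (Pf.cons (Pf.T 6 2 (Pf.cons (Pf.T 6 16 (Pf.cons (Pf.C 106 769) Pf.nil)) (Pf.cons (Pf.C 80 6) (Pf.cons (Pf.C 81 134) Pf.nil)))) (Pf.cons (Pf.B 6 4 (Pf.C 19 17156) (Pf.C 1 518)) (Pf.cons (Pf.B 6 5 (Pf.C 19 773) (Pf.C 1 646)) Pf.nil)))))))))))))) (Pf.cons (Pf.B 5 4 (Pf.C 10 644) (Pf.C 1 517)) (Pf.cons (Pf.B 5 4 (Pf.C 10 644) (Pf.C 1 517)) (Pf.cons (Pf.W 75 128 [] [4,5] (Pf.cons (Pf.C 15 518) (Pf.cons (Pf.C 15 518) (Pf.cons (Pf.B 6 5 (Pf.C 20 17030) (Pf.C 1 646)) (Pf.cons (Pf.B 6 4 (Pf.C 25 98816) (Pf.C 1 518)) (Pf.cons (Pf.T 6 0 (Pf.cons (Pf.T 6 14 (Pf.cons (Pf.C 133 769) Pf.nil)) (Pf.cons (Pf.C 76 134) (Pf.cons (Pf.C 77 6) Pf.nil)))) (Pf.cons (Pf.B 6 5 (Pf.C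 29 82689) (Pf.C 1 646)) (Pf.cons (Pf.B 6 5 (Pf.C 19 17157) (Pf.C 1 646)) (Pf.cons (Pf.B 6 4 (Pf.C 10 772) (Pf.C 1 518)) (Pf.cons (Pf.T 5 2 (Pf.cons (Pf.T 5 16 (Pf.cons (Pf.C 133 641) Pf.nil)) (Pf.cons (Pf.C 80 133) (Pf.cons (Pf.C 81 5) Pf.nil)))) (Pf.cons (Pf.T 6 2 (Pf.cons (Pf.T 6 16 (Pf.cons (Pf.C 133 769) Pf.nil)) (Pf.cons (Pf.C 80 134) (Pf.cons (Pf.C 81 6) Pf.nil)))) (Pf.cons (Pf.B 6 5 (Pf.C 37 0xa00301) (Pf.C 1 646)) (Pf.cons (Pf.B 6 5 (Pf.C 19 17157) (Pf.C 1 646)) (Pf.cons (Pf.B 6 4 (Pf.C 19 772) (Pf.C 1 518)) Pf.nil)))))))))))))) (Pf.cons (Pf.W 75 128 [] [4,5] (Pf.cons (Pf.C 15 518) (Pf.cons (Pf.C 15 518) (Pf.cons (Pf.B 6 4 (Pf.C 25 98817) (Pf.C 1 518)) (Pf.cons (Pf.B 6 5 (Pf.C 20 646) (Pf.C 1 646)) (Pf.cons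 (Pf.B 6 5 (Pf.C 29 82688) (Pf.C 1 646)) (Pf.cons (Pf.T 6 0 (Pf.cons (Pf.T 6 14 (Pf.cons (Pf.C 106 769) Pf.nil)) (Pf.cons (Pf.C 76 6) (Pf.cons (Pf.C 77 134) Pf.nil)))) (Pf.cons (Pf.B 6 4 (Pf.C 10 772) (Pf.C 1 518)) (Pf.cons (Pf.B 6 5 (Pf.C 19 773) (Pf.C 1 646)) (Pf.cons (Pf.B 6 5 (Pf.C 37 0xa04300) (Pf.C 1 646)) (Pf.cons (Pf.T 5 2 (Pf.cons (Pf.T 5 16 (Pf.cons (Pf.C 106 641) Pf.nil)) (Pf.cons (Pf.C 80 5) (Pf.cons (Pf.C 81 133) Pf.nil)))) (Pf.cons (Pf.T 6 2 (Pf.cons (Pf.T 6 16 (Pf.cons (Pf.C 106 769) Pf.nil)) (Pf.cons (Pf.C 80 6) (Pf.cons (Pf.C 81 134) Pf.nil)))) (Pf.cons (Pf.B 6 4 (Pf.C 19 17156) (Pf.C 1 518)) (Pf.cons (Pf.B 6 5 (Pf.C 19 773) (Pf.C 1 646)) Pf.nil)))))))))))))) (Pf.cons (Pf.B 5 4 (Pf.C 19 17028) (Pf.C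 1 517)) (Pf.cons (Pf.B 5 4 (Pf.C 19 644) (Pf.C 1 517)) Pf.nil))))))))))))) (Pf.C 106 513)) (Pf.cons (Pf.B 4 1 (Pf.W 67 128 [] [4] (Pf.cons (Pf.B 5 4 (Pf.C 14 517) (Pf.C 1 517)) (Pf.cons (Pf.B 5 4 (Pf.C 14 517) (Pf.C 1 517)) (Pf.cons (Pf.B 5 4 (Pf.C 17 16901) (Pf.C 1 517)) (Pf.cons (Pf.B 5 4 (Pf.C 17 517) (Pf.C 1 517)) (Pf.cons (Pf.B 5 4 (Pf.C 10 517) (Pf.C 1 517)) (Pf.cons (Pf.B 5 4 (Pf.C 10 517) (Pf.C 1 517)) (Pf.cons (Pf.B 5 4 (Pf.W 75 128 [] [4,5] (Pf.cons (Pf.B 6 5 (Pf.C 14 646) (Pf.C 1 646)) (Pf.cons (Pf.B 6 5 (Pf.C 14 646) (Pf.C 1 646)) (Pf.cons (Pf.B 6 5 (Pf.C 17 17030) (Pf.C 1 646)) (Pf.cons (Pf.B 6 4 (Pf.C 17 518) (Pf.C 1 518)) (Pf.cons (Pf.B 6 5 (Pf.C 10 646) (Pf.C 1 646)) (Pf.cons (Pf.B 6 5 (Pf.C 10 646)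 (Pf.C 1 646)) (Pf.cons (Pf.T 5 1 (Pf.cons (Pf.T 5 15 (Pf.cons (Pf.C 133 641) Pf.nil)) (Pf.cons (Pf.C 78 133) (Pf.cons (Pf.C 79 5) Pf.nil)))) (Pf.cons (Pf.T 6 1 (Pf.cons (Pf.T 6 15 (Pf.cons (Pf.C 133 769) Pf.nil)) (Pf.cons (Pf.C 78 134) (Pf.cons (Pf.C 79 6) Pf.nil)))) (Pf.cons (Pf.B 6 5 (Pf.C 35 0xa00301) (Pf.C 1 646)) (Pf.cons (Pf.B 6 5 (Pf.C 19 17030) (Pf.C 1 646)) (Pf.cons (Pf.B 6 4 (Pf.C 19 518) (Pf.C 1 518)) (Pf.cons (Pf.T 6 3 (Pf.cons (Pf.T 6 17 (Pf.cons (Pf.C 133 769) Pf.nil)) (Pf.cons (Pf.C 82 134) (Pf.cons (Pf.C 83 6) Pf.nil)))) (Pf.cons (Pf.B 6 5 (Pf.B 6 4 (Pf.C 36 0xc00284) (Pf.C 1 518)) (Pf.C 1 646)) Pf.nil)))))))))))))) (Pf.C 1 517)) (Pf.cons (Pf.B 5 4 (Pf.W 75 128 [] [4,5] (Pf.cons (Pf.B 6 5 (Pf.C 14 646)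 (Pf.C 1 646)) (Pf.cons (Pf.B 6 5 (Pf.C 14 646) (Pf.C 1 646)) (Pf.cons (Pf.B 6 4 (Pf.C 17 16902) (Pf.C 1 518)) (Pf.cons (Pf.B 6 5 (Pf.C 17 646) (Pf.C 1 646)) (Pf.cons (Pf.B 6 5 (Pf.C 10 646) (Pf.C 1 646)) (Pf.cons (Pf.B 6 5 (Pf.C 10 646) (Pf.C 1 646)) (Pf.cons (Pf.B 6 5 (Pf.C 35 0xa04300) (Pf.C 1 646)) (Pf.cons (Pf.T 5 1 (Pf.cons (Pf.T 5 15 (Pf.cons (Pf.C 106 641) Pf.nil)) (Pf.cons (Pf.C 78 5) (Pf.cons (Pf.C 79 133) Pf.nil)))) (Pf.cons (Pf.T 6 1 (Pf.cons (Pf.T 6 15 (Pf.cons (Pf.C 106 769) Pf.nil)) (Pf.cons (Pf.C 78 6) (Pf.cons (Pf.C 79 134) Pf.nil)))) (Pf.cons (Pf.B 6 4 (Pf.C 19 16902) (Pf.C 1 518)) (Pf.cons (Pf.B 6 5 (Pf.C 19 646) (Pf.C 1 646)) (Pf.cons (Pf.B 6 5 (Pf.B 6 4 (Pf.C 36 0xc04284) (Pf.C 1 518)) (Pf.C 1 646))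 (Pf.cons (Pf.T 6 3 (Pf.cons (Pf.T 6 17 (Pf.cons (Pf.C 106 769) Pf.nil)) (Pf.cons (Pf.C 82 6) (Pf.cons (Pf.C 83 134) Pf.nil)))) Pf.nil)))))))))))))) (Pf.C 1 517)) (Pf.cons (Pf.B 5 4 (Pf.C 19 16901) (Pf.C 1 517)) (Pf.cons (Pf.B 5 4 (Pf.C 19 517) (Pf.C 1 517)) (Pf.cons (Pf.B 5 4 (Pf.W 75 128 [] [4,5] (Pf.cons (Pf.B 6 5 (Pf.C 17 17030) (Pf.C 1 646)) (Pf.cons (Pf.B 6 4 (Pf.C 14 518) (Pf.C 1 518)) (Pf.cons (Pf.B 6 5 (Pf.C 17 17030) (Pf.C 1 646)) (Pf.cons (Pf.B 6 4 (Pf.C 17 518) (Pf.C 1 518)) (Pf.cons (Pf.B 6 5 (Pf.C 19 17030) (Pf.C 1 646)) (Pf.cons (Pf.B 6 4 (Pf.C 10 518) (Pf.C 1 518)) (Pf.cons (Pf.T 6 1 (Pf.cons (Pf.T 6 15 (Pf.cons (Pf.C 133 769) Pf.nil)) (Pf.cons (Pf.C 78 134) (Pf.cons (Pf.C 79 6) Pf.nil)))) (Pf.cons (Pf.B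 6 5 (Pf.B 6 4 (Pf.C 36 0xa04304) (Pf.C 1 518)) (Pf.C 1 646)) (Pf.cons (Pf.B 6 5 (Pf.C 19 17030) (Pf.C 1 646)) (Pf.cons (Pf.B 6 4 (Pf.C 19 518) (Pf.C 1 518)) (Pf.cons (Pf.T 5 3 (Pf.cons (Pf.T 5 17 (Pf.cons (Pf.C 133 641) Pf.nil)) (Pf.cons (Pf.C 82 133) (Pf.cons (Pf.C 83 5) Pf.nil)))) (Pf.cons (Pf.T 6 3 (Pf.cons (Pf.T 6 17 (Pf.cons (Pf.C 133 769) Pf.nil)) (Pf.cons (Pf.C 82 134) (Pf.cons (Pf.C 83 6) Pf.nil)))) (Pf.cons (Pf.B 6 5 (Pf.B 6 4 (Pf.C 52 0xa04304) (Pf.C 1 518)) (Pf.C 1 646)) Pf.nil)))))))))))))) (Pf.C 1 517)) (Pf.cons (Pf.B 5 4 (Pf.W 75 128 [] [4,5] (Pf.cons (Pf.B 6 4 (Pf.C 14 518) (Pf.C 1 518)) (Pf.cons (Pf.B 6 5 (Pf.C 17 646) (Pf.C 1 646)) (Pf.cons (Pf.B 6 4 (Pf.C 17 16902) (Pf.C 1 518)) (Pf.cons (Pf.B 6 5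 (Pf.C 17 646) (Pf.C 1 646)) (Pf.cons (Pf.B 6 4 (Pf.C 10 518) (Pf.C 1 518)) (Pf.cons (Pf.B 6 5 (Pf.C 19 646) (Pf.C 1 646)) (Pf.cons (Pf.B 6 5 (Pf.B 6 4 (Pf.C 36 0xa00304) (Pf.C 1 518)) (Pf.C 1 646)) (Pf.cons (Pf.T 6 1 (Pf.cons (Pf.T 6 15 (Pf.cons (Pf.C 106 769) Pf.nil)) (Pf.cons (Pf.C 78 6) (Pf.cons (Pf.C 79 134) Pf.nil)))) (Pf.cons (Pf.B 6 4 (Pf.C 19 16902) (Pf.C 1 518)) (Pf.cons (Pf.B 6 5 (Pf.C 19 646) (Pf.C 1 646)) (Pf.cons (Pf.B 6 5 (Pf.B 6 4 (Pf.C 52 0x10a00304) (Pf.C 1 518)) (Pf.C 1 646)) (Pf.cons (Pf.T 5 3 (Pf.cons (Pf.T 5 17 (Pf.cons (Pf.C 106 641) Pf.nil)) (Pf.cons (Pf.C 82 5) (Pf.cons (Pf.C 83 133) Pf.nil)))) (Pf.cons (Pf.T 6 3 (Pf.cons (Pf.T 6 17 (Pf.cons (Pf.C 106 769) Pf.nil)) (Pf.cons (Pf.C 82 6) (Pf.cons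 (Pf.C 83 134) Pf.nil)))) Pf.nil)))))))))))))) (Pf.C 1 517)) Pf.nil))))))))))))) (Pf.C 106 513)) (Pf.cons (Pf.B 4 1 (Pf.W 67 128 [] [4] (Pf.cons (Pf.B 5 4 (Pf.C 28 82433) (Pf.C 1 517)) (Pf.cons (Pf.B 5 4 (Pf.C 28 82432) (Pf.C 1 517)) (Pf.cons (Pf.B 5 4 (Pf.C 20 16901) (Pf.C 1 517)) (Pf.cons (Pf.B 5 4 (Pf.C 20 517) (Pf.C 1 517)) (Pf.cons (Pf.B 5 4 (Pf.C 29 66176) (Pf.C 1 517)) (Pf.cons (Pf.B 5 4 (Pf.C 29 66177) (Pf.C 1 517)) (Pf.cons (Pf.B 5 4 (Pf.C 19 17028) (Pf.C 1 517)) (Pf.cons (Pf.B 5 4 (Pf.C 19 644) (Pf.C 1 517)) (Pf.cons (Pf.W 75 128 [] [4,5] (Pf.cons (Pf.B 6 5 (Pf.C 28 98945) (Pf.C 1 646)) (Pf.cons (Pf.B 6 4 (Pf.C 28 98816) (Pf.C 1 518)) (Pf.cons (Pf.B 6 5 (Pf.C 20 17030) (Pf.C 1 646)) (Pf.cons (Pf.B 6 4 (Pf.C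 20 518) (Pf.C 1 518)) (Pf.cons (Pf.B 6 4 (Pf.C 29 66304) (Pf.C 1 518)) (Pf.cons (Pf.B 6 5 (Pf.C 29 82689) (Pf.C 1 646)) (Pf.cons (Pf.B 6 5 (Pf.C 19 17157) (Pf.C 1 646)) (Pf.cons (Pf.B 6 4 (Pf.C 19 772) (Pf.C 1 518)) (Pf.cons (Pf.T 5 2 (Pf.cons (Pf.T 5 16 (Pf.cons (Pf.C 133 641) Pf.nil)) (Pf.cons (Pf.C 80 133) (Pf.cons (Pf.C 81 5) Pf.nil)))) (Pf.cons (Pf.T 6 2 (Pf.cons (Pf.T 6 16 (Pf.cons (Pf.C 133 769) Pf.nil)) (Pf.cons (Pf.C 80 134) (Pf.cons (Pf.C 81 6) Pf.nil)))) (Pf.cons (Pf.B 6 5 (Pf.C 37 0xa00301) (Pf.C 1 646)) (Pf.cons (Pf.B 6 5 (Pf.C 19 17157) (Pf.C 1 646)) (Pf.cons (Pf.B 6 4 (Pf.C 19 772) (Pf.C 1 518)) Pf.nil)))))))))))))) (Pf.cons (Pf.W 75 128 [] [4,5] (Pf.cons (Pf.B 6 4 (Pf.C 28 98817) (Pf.C 1 518)) (Pf.cons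 (Pf.B 6 5 (Pf.C 28 98944) (Pf.C 1 646)) (Pf.cons (Pf.B 6 4 (Pf.C 20 16902) (Pf.C 1 518)) (Pf.cons (Pf.B 6 5 (Pf.C 20 646) (Pf.C 1 646)) (Pf.cons (Pf.B 6 5 (Pf.C 29 82688) (Pf.C 1 646)) (Pf.cons (Pf.B 6 4 (Pf.C 29 66305) (Pf.C 1 518)) (Pf.cons (Pf.B 6 4 (Pf.C 19 17156) (Pf.C 1 518)) (Pf.cons (Pf.B 6 5 (Pf.C 19 773) (Pf.C 1 646)) (Pf.cons (Pf.B 6 5 (Pf.C 37 0xa04300) (Pf.C 1 646)) (Pf.cons (Pf.T 5 2 (Pf.cons (Pf.T 5 16 (Pf.cons (Pf.C 106 641) Pf.nil)) (Pf.cons (Pf.C 80 5) (Pf.cons (Pf.C 81 133) Pf.nil)))) (Pf.cons (Pf.T 6 2 (Pf.cons (Pf.T 6 16 (Pf.cons (Pf.C 106 769) Pf.nil)) (Pf.cons (Pf.C 80 6) (Pf.cons (Pf.C 81 134) Pf.nil)))) (Pf.cons (Pf.B 6 4 (Pf.C 19 17156) (Pf.C 1 518)) (Pf.cons (Pf.B 6 5 (Pf.C 19 773) (Pf.C 1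 646)) Pf.nil)))))))))))))) (Pf.cons (Pf.B 5 4 (Pf.C 19 17028) (Pf.C 1 517)) (Pf.cons (Pf.B 5 4 (Pf.C 19 644) (Pf.C 1 517)) Pf.nil))))))))))))) (Pf.C 106 513)) (Pf.cons (Pf.B 4 1 (Pf.W 67 128 [] [4] (Pf.cons (Pf.B 5 4 (Pf.C 17 16901) (Pf.C 1 517)) (Pf.cons (Pf.B 5 4 (Pf.C 17 517) (Pf.C 1 517)) (Pf.cons (Pf.B 5 4 (Pf.C 17 16901) (Pf.C 1 517)) (Pf.cons (Pf.B 5 4 (Pf.C 17 517) (Pf.C 1 517)) (Pf.cons (Pf.B 5 4 (Pf.C 19 16901) (Pf.C 1 517)) (Pf.cons (Pf.B 5 4 (Pf.C 19 517) (Pf.C 1 517)) (Pf.cons (Pf.B 5 4 (Pf.C 33 0x814001) (Pf.C 1 517)) (Pf.cons (Pf.B 5 4 (Pf.C 33 0x814080) (Pf.C 1 517)) (Pf.cons (Pf.B 5 4 (Pf.C 19 16901) (Pf.C 1 517)) (Pf.cons (Pf.B 5 4 (Pf.C 19 517) (Pf.C 1 517)) (Pf.cons (Pf.B 5 4 (Pf.W 75 128 [] [4,5]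 (Pf.cons (Pf.B 6 5 (Pf.C 17 17030) (Pf.C 1 646)) (Pf.cons (Pf.B 6 4 (Pf.C 17 518) (Pf.C 1 518)) (Pf.cons (Pf.B 6 5 (Pf.C 17 17030) (Pf.C 1 646)) (Pf.cons (Pf.B 6 4 (Pf.C 17 518) (Pf.C 1 518)) (Pf.cons (Pf.B 6 5 (Pf.C 19 17030) (Pf.C 1 646)) (Pf.cons (Pf.B 6 4 (Pf.C 19 518) (Pf.C 1 518)) (Pf.cons (Pf.B 6 4 (Pf.C 33 0x818001) (Pf.C 1 518)) (Pf.cons (Pf.B 6 4 (Pf.C 33 0x818080) (Pf.C 1 518)) (Pf.cons (Pf.B 6 5 (Pf.C 19 17030) (Pf.C 1 646)) (Pf.cons (Pf.B 6 4 (Pf.C 19 518) (Pf.C 1 518)) (Pf.cons (Pf.T 5 3 (Pf.cons (Pf.T 5 17 (Pf.cons (Pf.C 133 641) Pf.nil)) (Pf.cons (Pf.C 82 133) (Pf.cons (Pf.C 83 5) Pf.nil)))) (Pf.cons (Pf.T 6 3 (Pf.cons (Pf.T 6 17 (Pf.cons (Pf.C 133 769) Pf.nil)) (Pf.cons (Pf.C 82 134) (Pf.cons (Pf.C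 83 6) Pf.nil)))) (Pf.cons (Pf.B 6 5 (Pf.B 6 4 (Pf.C 52 0xa04304) (Pf.C 1 518)) (Pf.C 1 646)) Pf.nil)))))))))))))) (Pf.C 1 517)) (Pf.cons (Pf.B 5 4 (Pf.W 75 128 [] [4,5] (Pf.cons (Pf.B 6 4 (Pf.C 17 16902) (Pf.C 1 518)) (Pf.cons (Pf.B 6 5 (Pf.C 17 646) (Pf.C 1 646)) (Pf.cons (Pf.B 6 4 (Pf.C 17 16902) (Pf.C 1 518)) (Pf.cons (Pf.B 6 5 (Pf.C 17 646) (Pf.C 1 646)) (Pf.cons (Pf.B 6 4 (Pf.C 19 16902) (Pf.C 1 518)) (Pf.cons (Pf.B 6 5 (Pf.C 19 646) (Pf.C 1 646)) (Pf.cons (Pf.B 6 4 (Pf.C 33 0x818001) (Pf.C 1 518)) (Pf.cons (Pf.B 6 4 (Pf.C 33 0x818080) (Pf.C 1 518)) (Pf.cons (Pf.B 6 4 (Pf.C 19 16902) (Pf.C 1 518)) (Pf.cons (Pf.B 6 5 (Pf.C 19 646) (Pf.C 1 646)) (Pf.cons (Pf.B 6 5 (Pf.B 6 4 (Pf.C 52 0x10a00304) (Pf.C 1 518)) (Pf.C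 1 646)) (Pf.cons (Pf.T 5 3 (Pf.cons (Pf.T 5 17 (Pf.cons (Pf.C 106 641) Pf.nil)) (Pf.cons (Pf.C 82 5) (Pf.cons (Pf.C 83 133) Pf.nil)))) (Pf.cons (Pf.T 6 3 (Pf.cons (Pf.T 6 17 (Pf.cons (Pf.C 106 769) Pf.nil)) (Pf.cons (Pf.C 82 6) (Pf.cons (Pf.C 83 134) Pf.nil)))) Pf.nil)))))))))))))) (Pf.C 1 517)) Pf.nil))))))))))))) (Pf.C 106 513)) Pf.nil))))) (Pf.cons (Pf.C 133 259) Pf.nil))) (Pf.C 2 131)) Pf.nil))) Pf.nil))))) Pf.nil)) Pf.nil))))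
 Pq.nil)
theorem s1_o34 : AllRef s1_T s1_G53 (List.map pat1 [118]) :=
  chkPq_sound s1_o34c _ (by decide +kernel)
noncomputable def s1_o35c : Pq := (Pq.cons (Pq.L [0] 0 (Pf.W 88 1 [] [0] (Pf.cons (Pf.T 2 19 (Pf.cons (Pf.T 2 20 (Pf.cons (Pf.T 2 22 (Pf.cons (Pf.T 2 37 (Pf.cons (Pf.C 134 257) Pf.nil)) (Pf.cons (Pf.C 106 130) Pf.nil))) Pf.nil)) Pf.nil)) Pf.nil)))
 (Pq.cons (Pq.L [0] 0 (Pf.W 89 1 [] [0] (Pf.cons (Pf.T 2 19 (Pf.cons (Pf.T 2 20 (Pf.cons (Pf.T 2 22 (Pf.cons (Pf.T 2 37 (Pf.cons (Pf.C 135 257) Pf.nil)) (Pf.cons (Pf.C 106 130) Pf.nil))) Pf.nil)) Pf.nil)) Pf.nil)))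
 (Pq.cons (Pq.L [0] 0 (Pf.W 90 1 [] [0] (Pf.cons (Pf.B 2 0 (Pf.C 30 130) (Pf.C 2 2)) (Pf.cons (Pf.T 2 19 (Pf.cons (Pf.T 2 20 (Pf.cons (Pf.T 2 22 (Pf.cons (Pf.T 2 37 (Pf.cons (Pf.C 136 257) Pf.nil)) (Pf.cons (Pf.C 106 130) Pf.nil))) Pf.nil)) Pf.nil)) Pf.nil))))
 (Pq.cons (Pq.L [0] 0 (Pf.W 91 1 [] [0] (Pf.cons (Pf.B 2 0 (Pf.T 2 18 (Pf.cons (Pf.T 2 21 (Pf.cons (Pf.T 2 36 (Pf.cons (Pf.C 137 257) (Pf.cons (Pf.W 92 2 [] [0,1] (Pf.cons (Pf.B 3 1 (Pf.B 3 0 (Pf.C 19 131) (Pf.T 3 16 (Pf.cons (Pf.C 131 386) Pf.nil))) (Pf.C 1 131)) (Pf.cons (Pf.B 3 0 (Pf.C 16 49154) (Pf.T 3 17 (Pf.cons (Pf.C 131 386) Pf.nil))) Pf.nil))) Pf.nil))) (Pf.cons (Pf.C 104 130) Pf.nil))) Pf.nil)) (Pf.C 2 2)) (Pf.cons (Pf.T 2 19 (Pf.cons (Pf.T 2 20 (Pf.cons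 (Pf.T 2 22 (Pf.cons (Pf.T 2 37 (Pf.cons (Pf.C 137 257) Pf.nil)) (Pf.cons (Pf.C 106 130) Pf.nil))) Pf.nil)) Pf.nil)) Pf.nil))))
 Pq.nil))))
theorem s1_o35 : AllRef s1_T s1_G58 (List.map pat1 [120,122,124,126]) :=
  chkPq_sound s1_o35c _ (by decide +kernel)
noncomputable def s1_o36c : Pq := (Pq.cons (Pq.L [0] 0 (Pf.T 1 21 (Pf.cons (Pf.W 103 1 [] [0] (Pf.cons (Pf.T 2 41 (Pf.cons (Pf.W 92 1 [] [0,2] (Pf.cons (Pf.B 3 2 (Pf.B 3 0 (Pf.C 19 259) (Pf.T 3 16 (Pf.cons (Pf.C 131 385) Pf.nil))) (Pf.C 1 259)) (Pf.cons (Pf.B 3 0 (Pf.C 16 49153) (Pf.T 3 17 (Pf.cons (Pf.C 131 385) Pf.nil))) Pf.nil))) Pf.nil)) Pf.nil)) (Pf.cons (Pf.T 1 27 (Pf.cons (Pf.W 92 1 [] [0] (Pf.cons (Pf.T 2 16 (Pf.cons (Pf.T 2 40 (Pf.cons (Pf.C 138 257) Pf.nil))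 (Pf.cons (Pf.C 131 257) Pf.nil))) (Pf.cons (Pf.B 2 0 (Pf.C 16 32769) (Pf.T 2 17 (Pf.cons (Pf.C 131 257) Pf.nil))) Pf.nil))) (Pf.cons (Pf.T 1 33 (Pf.cons (Pf.W 125 1 [] [0] (Pf.cons (Pf.W 123 2 [] [0,1] (Pf.cons (Pf.B 3 1 (Pf.W 115 3 [] [1] (Pf.cons (Pf.B 4 1 (Pf.C 131 513) (Pf.C 116 513)) Pf.nil)) (Pf.C 2 131)) (Pf.cons (Pf.B 3 1 (Pf.T 3 37 (Pf.cons (Pf.W 117 3 [] [0,1,2] (Pf.cons (Pf.W 107 4 [] [0,1] (Pf.cons (Pf.B 5 1 (Pf.W 105 5 [] [0,1,4] (Pf.cons (Pf.B 6 4 (Pf.C 35 0x800305) (Pf.C 1 518)) (Pf.cons (Pf.B 6 4 (Pf.C 10 772) (Pf.C 1 518)) (Pf.cons (Pf.B 6 4 (Pf.C 29 98816) (Pf.C 1 518)) (Pf.cons (Pf.B 6 1 (Pf.C 16 98305) (Pf.C 104 769)) Pf.nil))))) (Pf.C 2 133)) Pf.nil)) (Pf.cons (Pf.B 4 1 (Pf.C 6 513) (Pf.W 109 4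 [] [0,1,2,3] (Pf.cons (Pf.B 5 3 (Pf.B 5 1 (Pf.W 105 5 [] [0,1,2,3,4] (Pf.cons (Pf.B 6 4 (Pf.C 10 518) (Pf.C 1 518)) (Pf.cons (Pf.B 6 4 (Pf.C 35 0x800305) (Pf.C 1 518)) (Pf.cons (Pf.B 6 3 (Pf.B 6 2 (Pf.C 19 49414) (Pf.C 1 262)) (Pf.C 106 771)) (Pf.cons (Pf.B 6 1 (Pf.C 16 98305) (Pf.C 104 769)) Pf.nil))))) (Pf.C 2 133)) (Pf.C 2 389)) Pf.nil))) (Pf.cons (Pf.B 4 1 (Pf.C 131 513) (Pf.W 111 4 [] [0,1] (Pf.cons (Pf.B 5 1 (Pf.W 103 5 [] [0,1] (Pf.cons (Pf.B 6 1 (Pf.C 16 98305) (Pf.C 104 769)) Pf.nil)) (Pf.C 2 133)) (Pf.cons (Pf.B 5 1 (Pf.C 30 82433) (Pf.C 2 133)) Pf.nil)))) (Pf.cons (Pf.B 4 1 (Pf.C 131 513) (Pf.C 116 513)) Pf.nil))))) Pf.nil)) (Pf.C 2 131)) Pf.nil))) Pf.nil)) Pf.nil)) Pf.nil))) Pf.nil))))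
 Pq.nil)
theorem s1_o36 : AllRef s1_T s1_G60 (List.map pat1 [128]) :=
  chkPq_sound s1_o36c _ (by decide +kernel)
noncomputable def s1_o37c : Pq := (Pq.cons (Pq.L [0] 1 (Pf.T 1 38 (Pf.cons (Pf.T 2 38 (Pf.cons (Pf.W 62 257 [] [0] (Pf.cons (Pf.B 3 0 (Pf.W 71 257 [] [0,3] (Pf.cons (Pf.T 3 4 (Pf.cons (Pf.T 3 19 (Pf.cons (Pf.T 3 20 (Pf.cons (Pf.T 3 22 (Pf.cons (Pf.T 3 37 (Pf.cons (Pf.W 132 3 [] [0,1,2] (Pf.cons (Pf.B 4 1 (Pf.C 35 0x20c200) (Pf.C 1 132)) (Pf.cons (Pf.B 4 2 (Pf.C 10 514) (Pf.C 1 260)) (Pf.cons (Pf.B 4 1 (Pf.C 29 65667) (Pf.C 1 132)) (Pf.cons (Pf.B 4 2 (Pf.C 19 49666) (Pf.C 1 260)) Pf.nil))))) Pf.nil)) (Pf.cons (Pf.C 106 131) Pf.nil))) Pf.nil)) Pf.nil)) (Pf.cons (Pf.C 84 131) (Pf.cons (Pf.C 85 259) Pf.nil))))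 (Pf.cons (Pf.B 4 0 (Pf.T 4 4 (Pf.cons (Pf.T 4 19 (Pf.cons (Pf.T 4 20 (Pf.cons (Pf.T 4 22 (Pf.cons (Pf.T 4 37 (Pf.cons (Pf.W 132 4 [] [0,1,2] (Pf.cons (Pf.B 5 1 (Pf.C 35 0x210280) (Pf.C 1 133)) (Pf.cons (Pf.B 5 2 (Pf.C 10 642) (Pf.C 1 261)) (Pf.cons (Pf.B 5 1 (Pf.C 29 82052) (Pf.C 1 133)) (Pf.cons (Pf.B 5 2 (Pf.C 19 66178) (Pf.C 1 261)) Pf.nil))))) Pf.nil)) (Pf.cons (Pf.C 106 132) Pf.nil))) Pf.nil)) Pf.nil)) (Pf.cons (Pf.C 84 132) (Pf.cons (Pf.C 85 260) Pf.nil)))) (Pf.C 2 4)) (Pf.cons (Pf.B 4 3 (Pf.C 35 0x20c104) (Pf.C 2 388)) Pf.nil)))) (Pf.C 2 3)) (Pf.cons (Pf.B 3 0 (Pf.W 71 257 [] [0,3] (Pf.cons (Pf.B 4 3 (Pf.C 35 0x40c084) (Pf.C 2 388)) (Pf.cons (Pf.T 3 4 (Pf.cons (Pf.T 3 19 (Pf.cons (Pf.T 3 20 (Pf.cons (Pf.T 3 22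 (Pf.cons (Pf.T 3 37 (Pf.cons (Pf.W 132 3 [] [0,1,2] (Pf.cons (Pf.B 4 2 (Pf.C 35 0x40c200) (Pf.C 1 260)) (Pf.cons (Pf.B 4 2 (Pf.C 10 514) (Pf.C 1 260)) (Pf.cons (Pf.B 4 2 (Pf.C 29 65795) (Pf.C 1 260)) (Pf.cons (Pf.B 4 1 (Pf.C 19 49665) (Pf.C 1 132)) Pf.nil))))) Pf.nil)) (Pf.cons (Pf.C 106 259) Pf.nil))) Pf.nil)) Pf.nil)) (Pf.cons (Pf.C 84 259) (Pf.cons (Pf.C 85 131) Pf.nil)))) (Pf.cons (Pf.B 4 0 (Pf.T 4 4 (Pf.cons (Pf.T 4 19 (Pf.cons (Pf.T 4 20 (Pf.cons (Pf.T 4 22 (Pf.cons (Pf.T 4 37 (Pf.cons (Pf.W 132 4 [] [0,1,2] (Pf.cons (Pf.B 5 2 (Pf.C 35 0x410280) (Pf.C 1 261)) (Pf.cons (Pf.B 5 2 (Pf.C 10 642) (Pf.C 1 261)) (Pf.cons (Pf.B 5 2 (Pf.C 29 82180) (Pf.C 1 261)) (Pf.cons (Pf.B 5 1 (Pf.C 19 66177) (Pf.C 1 133)) Pf.nil)))))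 Pf.nil)) (Pf.cons (Pf.C 106 260) Pf.nil))) Pf.nil)) Pf.nil)) (Pf.cons (Pf.C 84 260) (Pf.cons (Pf.C 85 132) Pf.nil)))) (Pf.C 2 4)) Pf.nil)))) (Pf.C 2 3)) Pf.nil))) Pf.nil)) Pf.nil)))
 (Pq.cons (Pq.L [] 1 (Pf.C 1 257))
 (Pq.cons (Pq.L [0] 1 (Pf.T 1 39 (Pf.cons (Pf.T 2 39 (Pf.cons (Pf.W 63 257 [] [0] (Pf.cons (Pf.B 3 0 (Pf.W 72 257 [] [0,3] (Pf.cons (Pf.T 3 4 (Pf.cons (Pf.T 3 19 (Pf.cons (Pf.T 3 20 (Pf.cons (Pf.T 3 22 (Pf.cons (Pf.T 3 37 (Pf.cons (Pf.W 132 3 [] [0,1,2] (Pf.cons (Pf.B 4 2 (Pf.C 10 260) (Pf.C 1 260)) (Pf.cons (Pf.B 4 1 (Pf.C 35 0x20c200) (Pf.C 1 132)) (Pf.cons (Pf.B 4 2 (Pf.C 19 49412) (Pf.C 1 260)) (Pf.cons (Pf.B 4 2 (Pf.B 4 1 (Pf.C 36 0x80c082) (Pf.C 1 132)) (Pf.C 1 260)) Pf.nil))))) Pf.nil)) (Pf.cons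 (Pf.C 106 131) Pf.nil))) Pf.nil)) Pf.nil)) (Pf.cons (Pf.C 84 131) (Pf.cons (Pf.C 85 259) Pf.nil)))) (Pf.cons (Pf.B 4 0 (Pf.T 4 4 (Pf.cons (Pf.T 4 19 (Pf.cons (Pf.T 4 20 (Pf.cons (Pf.T 4 22 (Pf.cons (Pf.T 4 37 (Pf.cons (Pf.W 132 4 [] [0,1,2] (Pf.cons (Pf.B 5 2 (Pf.C 10 261) (Pf.C 1 261)) (Pf.cons (Pf.B 5 1 (Pf.C 35 0x210280) (Pf.C 1 133)) (Pf.cons (Pf.B 5 2 (Pf.C 19 65797) (Pf.C 1 261)) (Pf.cons (Pf.B 5 2 (Pf.B 5 1 (Pf.C 36 0xa10082) (Pf.C 1 133)) (Pf.C 1 261)) Pf.nil))))) Pf.nil)) (Pf.cons (Pf.C 106 132) Pf.nil))) Pf.nil)) Pf.nil)) (Pf.cons (Pf.C 84 132) (Pf.cons (Pf.C 85 260) Pf.nil)))) (Pf.C 2 4)) (Pf.cons (Pf.B 4 3 (Pf.C 35 0x20c104) (Pf.C 2 388)) Pf.nil)))) (Pf.C 2 3)) (Pf.cons (Pf.B 3 0 (Pf.W 72 257 [] [0,3] (Pf.cons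 (Pf.B 4 3 (Pf.C 35 0x40c084) (Pf.C 2 388)) (Pf.cons (Pf.T 3 4 (Pf.cons (Pf.T 3 19 (Pf.cons (Pf.T 3 20 (Pf.cons (Pf.T 3 22 (Pf.cons (Pf.T 3 37 (Pf.cons (Pf.W 132 3 [] [0,1,2] (Pf.cons (Pf.B 4 2 (Pf.C 10 260) (Pf.C 1 260)) (Pf.cons (Pf.B 4 2 (Pf.C 35 0x40c200) (Pf.C 1 260)) (Pf.cons (Pf.B 4 1 (Pf.C 19 49284) (Pf.C 1 132)) (Pf.cons (Pf.B 4 2 (Pf.B 4 1 (Pf.C 36 0x80c101) (Pf.C 1 132)) (Pf.C 1 260)) Pf.nil))))) Pf.nil)) (Pf.cons (Pf.C 106 259) Pf.nil))) Pf.nil)) Pf.nil)) (Pf.cons (Pf.C 84 259) (Pf.cons (Pf.C 85 131) Pf.nil)))) (Pf.cons (Pf.B 4 0 (Pf.T 4 4 (Pf.cons (Pf.T 4 19 (Pf.cons (Pf.T 4 20 (Pf.cons (Pf.T 4 22 (Pf.cons (Pf.T 4 37 (Pf.cons (Pf.W 132 4 [] [0,1,2] (Pf.cons (Pf.B 5 2 (Pf.C 10 261) (Pf.C 1 261)) (Pf.cons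 (Pf.B 5 2 (Pf.C 35 0x410280) (Pf.C 1 261)) (Pf.cons (Pf.B 5 1 (Pf.C 19 65669) (Pf.C 1 133)) (Pf.cons (Pf.B 5 2 (Pf.B 5 1 (Pf.C 36 0xa10101) (Pf.C 1 133)) (Pf.C 1 261)) Pf.nil))))) Pf.nil)) (Pf.cons (Pf.C 106 260) Pf.nil))) Pf.nil)) Pf.nil)) (Pf.cons (Pf.C 84 260) (Pf.cons (Pf.C 85 132) Pf.nil)))) (Pf.C 2 4)) Pf.nil)))) (Pf.C 2 3)) Pf.nil))) Pf.nil)) Pf.nil)))
 (Pq.cons (Pq.L [] 1 (Pf.C 1 257))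
 (Pq.cons (Pq.L [0] 1 (Pf.T 1 40 (Pf.cons (Pf.T 2 40 (Pf.cons (Pf.W 64 257 [] [0] (Pf.cons (Pf.B 3 0 (Pf.C 30 131) (Pf.C 2 3)) (Pf.cons (Pf.B 3 0 (Pf.C 30 259) (Pf.C 2 3)) (Pf.cons (Pf.B 3 0 (Pf.W 73 257 [] [0,3] (Pf.cons (Pf.B 4 0 (Pf.C 30 132) (Pf.C 2 4)) (Pf.cons (Pf.B 4 3 (Pf.C 30 49412) (Pf.C 2 388)) (Pf.cons (Pf.T 3 4 (Pf.cons (Pf.T 3 19 (Pf.cons (Pf.T 3 20 (Pf.cons (Pf.T 3 22 (Pf.cons (Pf.T 3 37 (Pf.cons (Pf.W 132 3 [] [0,1,2] (Pf.cons (Pf.B 4 2 (Pf.C 29 33280) (Pf.C 1 260)) (Pf.cons (Pf.B 4 2 (Pf.C 19 49666) (Pf.C 1 260)) (Pf.cons (Pf.B 4 1 (Pf.C 37 0x20c200) (Pf.C 1 132)) (Pf.cons (Pf.B 4 2 (Pf.C 19 49666) (Pf.C 1 260)) Pf.nil))))) Pf.nil)) (Pf.cons (Pf.C 106 131) Pf.nil))) Pf.nil)) Pf.nil)) (Pf.cons (Pf.C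 84 131) (Pf.cons (Pf.C 85 259) Pf.nil)))) (Pf.cons (Pf.B 4 0 (Pf.T 4 4 (Pf.cons (Pf.T 4 19 (Pf.cons (Pf.T 4 20 (Pf.cons (Pf.T 4 22 (Pf.cons (Pf.T 4 37 (Pf.cons (Pf.W 132 4 [] [0,1,2] (Pf.cons (Pf.B 5 2 (Pf.C 29 33408) (Pf.C 1 261)) (Pf.cons (Pf.B 5 2 (Pf.C 19 66178) (Pf.C 1 261)) (Pf.cons (Pf.B 5 1 (Pf.C 37 0x210280) (Pf.C 1 133)) (Pf.cons (Pf.B 5 2 (Pf.C 19 66178) (Pf.C 1 261)) Pf.nil))))) Pf.nil)) (Pf.cons (Pf.C 106 132) Pf.nil))) Pf.nil)) Pf.nil)) (Pf.cons (Pf.C 84 132) (Pf.cons (Pf.C 85 260) Pf.nil)))) (Pf.C 2 4)) (Pf.cons (Pf.B 4 3 (Pf.C 37 0x20c104) (Pf.C 2 388)) Pf.nil)))))) (Pf.C 2 3)) (Pf.cons (Pf.B 3 0 (Pf.W 73 257 [] [0,3] (Pf.cons (Pf.B 4 3 (Pf.C 30 49284) (Pf.C 2 388)) (Pf.cons (Pf.B 4 0 (Pf.C 30 260) (Pf.C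 2 4)) (Pf.cons (Pf.B 4 3 (Pf.C 37 0x40c084) (Pf.C 2 388)) (Pf.cons (Pf.T 3 4 (Pf.cons (Pf.T 3 19 (Pf.cons (Pf.T 3 20 (Pf.cons (Pf.T 3 22 (Pf.cons (Pf.T 3 37 (Pf.cons (Pf.W 132 3 [] [0,1,2] (Pf.cons (Pf.B 4 2 (Pf.C 29 33280) (Pf.C 1 260)) (Pf.cons (Pf.B 4 1 (Pf.C 19 49665) (Pf.C 1 132)) (Pf.cons (Pf.B 4 2 (Pf.C 37 0x40c200) (Pf.C 1 260)) (Pf.cons (Pf.B 4 1 (Pf.C 19 49665) (Pf.C 1 132)) Pf.nil))))) Pf.nil)) (Pf.cons (Pf.C 106 259) Pf.nil))) Pf.nil)) Pf.nil)) (Pf.cons (Pf.C 84 259) (Pf.cons (Pf.C 85 131) Pf.nil)))) (Pf.cons (Pf.B 4 0 (Pf.T 4 4 (Pf.cons (Pf.T 4 19 (Pf.cons (Pf.T 4 20 (Pf.cons (Pf.T 4 22 (Pf.cons (Pf.T 4 37 (Pf.cons (Pf.W 132 4 [] [0,1,2] (Pf.cons (Pf.B 5 2 (Pf.C 29 33408) (Pf.C 1 261)) (Pf.cons (Pf.B 5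 1 (Pf.C 19 66177) (Pf.C 1 133)) (Pf.cons (Pf.B 5 2 (Pf.C 37 0x410280) (Pf.C 1 261)) (Pf.cons (Pf.B 5 1 (Pf.C 19 66177) (Pf.C 1 133)) Pf.nil))))) Pf.nil)) (Pf.cons (Pf.C 106 260) Pf.nil))) Pf.nil)) Pf.nil)) (Pf.cons (Pf.C 84 260) (Pf.cons (Pf.C 85 132) Pf.nil)))) (Pf.C 2 4)) Pf.nil)))))) (Pf.C 2 3)) Pf.nil))))) Pf.nil)) Pf.nil)))
 (Pq.cons (Pq.L [] 1 (Pf.C 1 257))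
 (Pq.cons (Pq.L [0] 1 (Pf.T 1 41 (Pf.cons (Pf.T 2 41 (Pf.cons (Pf.W 65 257 [] [0] (Pf.cons (Pf.B 3 0 (Pf.C 16 32771) (Pf.C 2 3)) (Pf.cons (Pf.B 3 0 (Pf.C 16 16387) (Pf.C 2 3)) (Pf.cons (Pf.B 3 0 (Pf.W 74 257 [] [0,3] (Pf.cons (Pf.B 4 3 (Pf.C 16 33156) (Pf.C 2 388)) (Pf.cons (Pf.B 4 0 (Pf.C 16 16388) (Pf.C 2 4)) (Pf.cons (Pf.T 3 4 (Pf.cons (Pf.T 3 19 (Pf.cons (Pf.T 3 20 (Pf.cons (Pf.T 3 22 (Pf.cons (Pf.T 3 37 (Pf.cons (Pf.W 132 3 [] [0,1,2] (Pf.cons (Pf.B 4 2 (Pf.C 19 49412) (Pf.C 1 260)) (Pf.cons (Pf.B 4 2 (Pf.C 33 0x410003) (Pf.C 1 260)) (Pf.cons (Pf.B 4 2 (Pf.C 19 49412) (Pf.C 1 260)) (Pf.cons (Pf.B 4 2 (Pf.B 4 1 (Pf.C 52 0x30200202) (Pf.C 1 132)) (Pf.C 1 260)) Pf.nil))))) Pf.nil)) (Pf.cons (Pf.C 106 131) Pf.nil)))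 Pf.nil)) Pf.nil)) (Pf.cons (Pf.C 84 131) (Pf.cons (Pf.C 85 259) Pf.nil)))) (Pf.cons (Pf.B 4 0 (Pf.T 4 4 (Pf.cons (Pf.T 4 19 (Pf.cons (Pf.T 4 20 (Pf.cons (Pf.T 4 22 (Pf.cons (Pf.T 4 37 (Pf.cons (Pf.W 132 4 [] [0,1,2] (Pf.cons (Pf.B 5 2 (Pf.C 19 65797) (Pf.C 1 261)) (Pf.cons (Pf.B 5 2 (Pf.C 33 0x414004) (Pf.C 1 261)) (Pf.cons (Pf.B 5 2 (Pf.C 19 65797) (Pf.C 1 261)) (Pf.cons (Pf.B 5 2 (Pf.B 5 1 (Pf.C 52 0x40200282) (Pf.C 1 133)) (Pf.C 1 261)) Pf.nil))))) Pf.nil)) (Pf.cons (Pf.C 106 132) Pf.nil))) Pf.nil)) Pf.nil)) (Pf.cons (Pf.C 84 132) (Pf.cons (Pf.C 85 260) Pf.nil)))) (Pf.C 2 4)) (Pf.cons (Pf.B 4 3 (Pf.B 4 0 (Pf.C 57 0x10608200) (Pf.C 2 4)) (Pf.C 2 388)) Pf.nil)))))) (Pf.C 2 3)) (Pf.cons (Pf.B 3 0 (Pf.W 74 257 [] [0,3]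 (Pf.cons (Pf.B 4 0 (Pf.C 16 32772) (Pf.C 2 4)) (Pf.cons (Pf.B 4 3 (Pf.C 16 16772) (Pf.C 2 388)) (Pf.cons (Pf.B 4 3 (Pf.B 4 0 (Pf.C 57 0x20604200) (Pf.C 2 4)) (Pf.C 2 388)) (Pf.cons (Pf.T 3 4 (Pf.cons (Pf.T 3 19 (Pf.cons (Pf.T 3 20 (Pf.cons (Pf.T 3 22 (Pf.cons (Pf.T 3 37 (Pf.cons (Pf.W 132 3 [] [0,1,2] (Pf.cons (Pf.B 4 1 (Pf.C 19 49284) (Pf.C 1 132)) (Pf.cons (Pf.B 4 1 (Pf.C 33 0x210003) (Pf.C 1 132)) (Pf.cons (Pf.B 4 1 (Pf.C 19 49284) (Pf.C 1 132)) (Pf.cons (Pf.B 4 2 (Pf.B 4 1 (Pf.C 52 0x30400201) (Pf.C 1 132)) (Pf.C 1 260)) Pf.nil))))) Pf.nil)) (Pf.cons (Pf.C 106 259) Pf.nil))) Pf.nil)) Pf.nil)) (Pf.cons (Pf.C 84 259) (Pf.cons (Pf.C 85 131) Pf.nil)))) (Pf.cons (Pf.B 4 0 (Pf.T 4 4 (Pf.cons (Pf.T 4 19 (Pf.cons (Pf.T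 4 20 (Pf.cons (Pf.T 4 22 (Pf.cons (Pf.T 4 37 (Pf.cons (Pf.W 132 4 [] [0,1,2] (Pf.cons (Pf.B 5 1 (Pf.C 19 65669) (Pf.C 1 133)) (Pf.cons (Pf.B 5 1 (Pf.C 33 0x214004) (Pf.C 1 133)) (Pf.cons (Pf.B 5 1 (Pf.C 19 65669) (Pf.C 1 133)) (Pf.cons (Pf.B 5 2 (Pf.B 5 1 (Pf.C 52 0x40400281) (Pf.C 1 133)) (Pf.C 1 261)) Pf.nil))))) Pf.nil)) (Pf.cons (Pf.C 106 260) Pf.nil))) Pf.nil)) Pf.nil)) (Pf.cons (Pf.C 84 260) (Pf.cons (Pf.C 85 132) Pf.nil)))) (Pf.C 2 4)) Pf.nil)))))) (Pf.C 2 3)) Pf.nil))))) Pf.nil)) Pf.nil)))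
 (Pq.cons (Pq.L [] 1 (Pf.C 1 257))
 Pq.nil))))))))
theorem s1_o37 : AllRef s1_T s1_G61 (hitObl [74,76,78,80] s1_h75) :=
  chkPq_sound s1_o37c _ (by decide +kernel)
noncomputable def s1_o38c : Pq := (Pq.cons (Pq.L [] 0 (Pf.C 139 1))
 (Pq.cons (Pq.L [] 0 (Pf.C 140 1))
 (Pq.cons (Pq.L [] 0 (Pf.C 141 1))
 (Pq.cons (Pq.L [] 0 (Pf.C 142 1))
 Pq.nil))))
theorem s1_o38 : AllRef s1_T s1_G62 (List.map pat1 [129,130,131,132]) :=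
  chkPq_sound s1_o38c _ (by decide +kernel)
noncomputable def s1_o39c : Pq := (Pq.cons (Pq.D 2 (Pq.cons (Pq.L [] 64 (Pf.C 1 386))
 (Pq.cons (Pq.L [] 2 (Pf.C 10 385))
 (Pq.cons (Pq.L [] 64 (Pf.C 1 386))
 (Pq.cons (Pq.L [] 64 (Pf.C 1 386))
 (Pq.cons (Pq.L [] 64 (Pf.C 13 259))
 (Pq.cons (Pq.D 3 (Pq.cons (Pq.L [] 128 (Pf.C 1 514))
 (Pq.cons (Pq.L [] 4 (Pf.C 10 513))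
 (Pq.cons (Pq.L [] 128 (Pf.C 1 514))
 (Pq.cons (Pq.L [] 2054 (Pf.C 19 49665))
 (Pq.cons (Pq.L [] 128 (Pf.C 13 260))
 (Pq.cons (Pq.D 4 (Pq.cons (Pq.L [] 256 (Pf.C 1 642))
 (Pq.cons (Pq.L [] 8 (Pf.C 10 641))
 (Pq.cons (Pq.L [] 256 (Pf.C 1 642))
 (Pq.cons (Pq.L [] 4106 (Pf.C 19 49793))
 (Pq.cons (Pq.L [] 256 (Pf.C 13 261))
 (Pq.cons (Pq.D 5 (Pq.cons (Pq.D 6 (Pq.cons (Pq.L [] 0x100000 (Pf.C 1 902))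
 (Pq.cons (Pq.L [] 32 (Pf.C 10 897))
 (Pq.cons (Pq.L [0] 17507 (Pf.C 46 0x70608080))
 (Pq.cons (Pq.L [] 16418 (Pf.C 19 50049))
 (Pq.cons (Pq.L [0] 0x106032 (Pf.C 42 0x30e18080))
 (Pq.cons (Pq.L [] 0x106673 (Pf.C 53 0x70c0c101))
 Pq.nil))))))) (Pq.cons (Pq.L [] 16 (Pf.C 10 769))
 (Pq.cons (Pq.L [0] 8787 (Pf.C 46 0x60608080))
 (Pq.cons (Pq.L [] 8210 (Pf.C 19 49921))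
 (Pq.cons (Pq.L [0] 0x40018 (Pf.C 35 0xc14080))
 (Pq.cons (Pq.L [] 0x4335b (Pf.C 50 0x10c14182))
 Pq.nil))))))) Pq.nil))))))) Pq.nil))))))) Pq.nil))))))) (Pq.cons (Pq.L [] 1 (Pf.C 10 257))
 (Pq.cons (Pq.D 2 (Pq.cons (Pq.L [] 64 (Pf.C 1 386))
 (Pq.cons (Pq.L [] 2 (Pf.C 10 385))
 (Pq.cons (Pq.L [] 64 (Pf.C 1 386))
 (Pq.cons (Pq.L [] 64 (Pf.C 1 386))
 (Pq.cons (Pq.D 3 (Pq.cons (Pq.L [] 128 (Pf.C 1 514))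
 (Pq.cons (Pq.L [] 4 (Pf.C 10 513))
 (Pq.cons (Pq.L [] 128 (Pf.C 1 514))
 (Pq.cons (Pq.L [] 128 (Pf.C 1 514))
 (Pq.cons (Pq.D 4 (Pq.cons (Pq.L [] 256 (Pf.C 1 642))
 (Pq.cons (Pq.L [] 8 (Pf.C 10 641))
 (Pq.cons (Pq.L [] 256 (Pf.C 1 642))
 (Pq.cons (Pq.L [] 256 (Pf.C 1 642))
 (Pq.cons (Pq.D 5 (Pq.cons (Pq.L [] 0x40000 (Pf.C 13 773))
 (Pq.cons (Pq.L [] 16 (Pf.C 10 769))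
 (Pq.cons (Pq.D 6 (Pq.cons (Pq.L [] 0x100000 (Pf.C 1 902))
 (Pq.cons (Pq.L [] 32 (Pf.C 10 897))
 (Pq.cons (Pq.L [] 0x100000 (Pf.C 1 902))
 (Pq.cons (Pq.L [0] 17507 (Pf.C 55 0x70608080))
 (Pq.cons (Pq.L [] 0x106673 (Pf.C 53 0x70c0c101))
 (Pq.cons (Pq.L [0] 17507 (Pf.C 42 0x70608080))
 Pq.nil))))))) (Pq.cons (Pq.L [0] 8787 (Pf.C 55 0x60608080))
 (Pq.cons (Pq.L [0] 0x40319 (Pf.C 49 0x60a04002))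
 (Pq.cons (Pq.L [0] 0x40018 (Pf.C 35 0xa18080))
 Pq.nil))))))) (Pq.cons (Pq.D 5 (Pq.cons (Pq.D 6 (Pq.cons (Pq.L [] 0x1c7740 (Pf.C 40 0x70c0c105))
 (Pq.cons (Pq.L [] 32 (Pf.C 10 897))
 (Pq.cons (Pq.L [] 0x1c7740 (Pf.C 40 0x70c0c105))
 (Pq.cons (Pq.L [] 0x80028 (Pf.C 19 82817))
 (Pq.cons (Pq.L [0] 0x100631 (Pf.C 46 0x20e18080))
 (Pq.cons (Pq.L [0] 17507 (Pf.C 42 0x70608080))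
 Pq.nil))))))) (Pq.cons (Pq.L [] 16 (Pf.C 10 769))
 (Pq.cons (Pq.D 6 (Pq.cons (Pq.L [] 0x1c7740 (Pf.C 40 0x70c0c105))
 (Pq.cons (Pq.L [] 32 (Pf.C 10 897))
 (Pq.cons (Pq.L [] 0x1c7740 (Pf.C 40 0x70c0c105))
 (Pq.cons (Pq.L [] 0x80028 (Pf.C 19 82817))
 (Pq.cons (Pq.L [] 0x106673 (Pf.C 53 0x70c0c101))
 (Pq.cons (Pq.L [0] 17507 (Pf.C 42 0x70608080))
 Pq.nil))))))) (Pq.cons (Pq.L [0] 8787 (Pf.C 55 0x60608080))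
 (Pq.cons (Pq.L [0] 0x40018 (Pf.C 35 0xc14080))
 (Pq.cons (Pq.L [0] 8787 (Pf.C 42 0x60608080))
 Pq.nil))))))) Pq.nil))))))) (Pq.cons (Pq.D 4 (Pq.cons (Pq.L [] 256 (Pf.C 1 642))
 (Pq.cons (Pq.L [] 8 (Pf.C 10 641))
 (Pq.cons (Pq.L [] 256 (Pf.C 1 642))
 (Pq.cons (Pq.L [] 32780 (Pf.C 19 66177))
 (Pq.cons (Pq.D 5 (Pq.cons (Pq.L [0] 0x5801c (Pf.C 42 0x40a18080))
 (Pq.cons (Pq.L [] 16 (Pf.C 10 769))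
 (Pq.cons (Pq.L [0] 0x5801c (Pf.C 42 0x40a18080))
 (Pq.cons (Pq.L [] 65556 (Pf.C 19 66305))
 (Pq.cons (Pq.L [0] 0x40319 (Pf.C 49 0x60a04002))
 (Pq.cons (Pq.L [0] 0x40018 (Pf.C 35 0xa18080))
 Pq.nil))))))) (Pq.cons (Pq.D 5 (Pq.cons (Pq.D 6 (Pq.cons (Pq.L [] 0x1c7740 (Pf.C 40 0x70c0c105))
 (Pq.cons (Pq.L [] 32 (Pf.C 10 897))
 (Pq.cons (Pq.L [] 0x1c7740 (Pf.C 40 0x70c0c105))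
 (Pq.cons (Pq.L [] 0x20024 (Pf.C 19 66433))
 (Pq.cons (Pq.L [0] 0x130034 (Pf.C 42 0x40e18080))
 (Pq.cons (Pq.L [0] 17507 (Pf.C 42 0x70608080))
 Pq.nil))))))) (Pq.cons (Pq.L [] 16 (Pf.C 10 769))
 (Pq.cons (Pq.D 6 (Pq.cons (Pq.L [] 0x1c7740 (Pf.C 40 0x70c0c105))
 (Pq.cons (Pq.L [] 32 (Pf.C 10 897))
 (Pq.cons (Pq.L [] 0x1c7740 (Pf.C 40 0x70c0c105))
 (Pq.cons (Pq.L [] 0x20024 (Pf.C 19 66433))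
 (Pq.cons (Pq.L [0] 0x130034 (Pf.C 42 0x40e18080))
 (Pq.cons (Pq.L [0] 17507 (Pf.C 42 0x70608080))
 Pq.nil))))))) (Pq.cons (Pq.L [] 65556 (Pf.C 19 66305))
 (Pq.cons (Pq.L [0] 0x40018 (Pf.C 35 0xc14080))
 (Pq.cons (Pq.L [0] 8787 (Pf.C 42 0x60608080))
 Pq.nil))))))) Pq.nil))))))) Pq.nil))))))) (Pq.cons (Pq.D 3 (Pq.cons (Pq.L [] 128 (Pf.C 1 514))
 (Pq.cons (Pq.L [] 4 (Pf.C 10 513))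
 (Pq.cons (Pq.L [] 128 (Pf.C 1 514))
 (Pq.cons (Pq.L [] 2054 (Pf.C 19 49665))
 (Pq.cons (Pq.D 4 (Pq.cons (Pq.L [] 256 (Pf.C 1 642))
 (Pq.cons (Pq.L [] 8 (Pf.C 10 641))
 (Pq.cons (Pq.L [] 256 (Pf.C 1 642))
 (Pq.cons (Pq.L [] 4106 (Pf.C 19 49793))
 (Pq.cons (Pq.D 5 (Pq.cons (Pq.L [0] 0x4301a (Pf.C 42 0x30a18080))
 (Pq.cons (Pq.L [] 16 (Pf.C 10 769))
 (Pq.cons (Pq.L [0] 0x4301a (Pf.C 42 0x30a18080))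
 (Pq.cons (Pq.L [] 8210 (Pf.C 19 49921))
 (Pq.cons (Pq.L [0] 0x40319 (Pf.C 49 0x60a04002))
 (Pq.cons (Pq.L [0] 0x40018 (Pf.C 35 0xa18080))
 Pq.nil))))))) (Pq.cons (Pq.D 5 (Pq.cons (Pq.D 6 (Pq.cons (Pq.L [] 0x1f8780 (Pf.C 40 0x70c10105))
 (Pq.cons (Pq.L [] 32 (Pf.C 10 897))
 (Pq.cons (Pq.L [] 0x1f8780 (Pf.C 40 0x70c10105))
 (Pq.cons (Pq.L [] 16418 (Pf.C 19 50049))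
 (Pq.cons (Pq.L [0] 0x106032 (Pf.C 42 0x30e18080))
 (Pq.cons (Pq.L [0] 0x204a5 (Pf.C 42 0x70808080))
 Pq.nil))))))) (Pq.cons (Pq.L [] 16 (Pf.C 10 769))
 (Pq.cons (Pq.D 6 (Pq.cons (Pq.L [] 0x1f8780 (Pf.C 40 0x70c10105))
 (Pq.cons (Pq.L [] 32 (Pf.C 10 897))
 (Pq.cons (Pq.L [] 0x1f8780 (Pf.C 40 0x70c10105))
 (Pq.cons (Pq.L [] 16418 (Pf.C 19 50049))
 (Pq.cons (Pq.L [0] 0x106032 (Pf.C 42 0x30e18080))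
 (Pq.cons (Pq.L [0] 0x204a5 (Pf.C 42 0x70808080))
 Pq.nil))))))) (Pq.cons (Pq.L [] 8210 (Pf.C 19 49921))
 (Pq.cons (Pq.L [0] 0x40018 (Pf.C 35 0xc14080))
 (Pq.cons (Pq.L [0] 66197 (Pf.C 42 0x60808080))
 Pq.nil))))))) Pq.nil))))))) (Pq.cons (Pq.D 4 (Pq.cons (Pq.L [] 256 (Pf.C 1 642))
 (Pq.cons (Pq.L [] 8 (Pf.C 10 641))
 (Pq.cons (Pq.L [] 256 (Pf.C 1 642))
 (Pq.cons (Pq.L [] 4106 (Pf.C 19 49793))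
 (Pq.cons (Pq.D 5 (Pq.cons (Pq.L [0] 0x4301a (Pf.C 42 0x30a18080))
 (Pq.cons (Pq.L [] 16 (Pf.C 10 769))
 (Pq.cons (Pq.L [0] 0x4301a (Pf.C 42 0x30a18080))
 (Pq.cons (Pq.L [] 8210 (Pf.C 19 49921))
 (Pq.cons (Pq.L [0] 0x40319 (Pf.C 49 0x60a04002))
 (Pq.cons (Pq.L [0] 0x40018 (Pf.C 35 0xa18080))
 Pq.nil))))))) (Pq.cons (Pq.D 5 (Pq.cons (Pq.D 6 (Pq.cons (Pq.L [] 0x100000 (Pf.C 1 902))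
 (Pq.cons (Pq.L [] 32 (Pf.C 10 897))
 (Pq.cons (Pq.L [] 0x100000 (Pf.C 1 902))
 (Pq.cons (Pq.L [] 16418 (Pf.C 19 50049))
 (Pq.cons (Pq.L [0] 0x106032 (Pf.C 42 0x30e18080))
 (Pq.cons (Pq.L [0] 0x100631 (Pf.C 46 0x20e18080))
 Pq.nil))))))) (Pq.cons (Pq.L [] 16 (Pf.C 10 769))
 (Pq.cons (Pq.D 6 (Pq.cons (Pq.L [] 0x100000 (Pf.C 1 902))
 (Pq.cons (Pq.L [] 32 (Pf.C 10 897))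
 (Pq.cons (Pq.L [] 0x100000 (Pf.C 1 902))
 (Pq.cons (Pq.L [] 16418 (Pf.C 19 50049))
 (Pq.cons (Pq.L [0] 0x106032 (Pf.C 42 0x30e18080))
 (Pq.cons (Pq.L [] 0x106673 (Pf.C 53 0x70c0c101))
 Pq.nil))))))) (Pq.cons (Pq.L [] 8210 (Pf.C 19 49921))
 (Pq.cons (Pq.L [0] 0x40018 (Pf.C 35 0xc14080))
 (Pq.cons (Pq.L [0] 0x40319 (Pf.C 49 0x60a04002))
 Pq.nil))))))) Pq.nil))))))) Pq.nil))))))) Pq.nil))))))) (Pq.cons (Pq.D 2 (Pq.cons (Pq.L [] 64 (Pf.C 1 386))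
 (Pq.cons (Pq.L [] 2 (Pf.C 10 385))
 (Pq.cons (Pq.L [] 64 (Pf.C 1 386))
 (Pq.cons (Pq.L [] 64 (Pf.C 1 386))
 (Pq.cons (Pq.D 3 (Pq.cons (Pq.L [] 128 (Pf.C 1 514))
 (Pq.cons (Pq.L [] 4 (Pf.C 10 513))
 (Pq.cons (Pq.L [] 128 (Pf.C 1 514))
 (Pq.cons (Pq.L [] 128 (Pf.C 1 514))
 (Pq.cons (Pq.D 4 (Pq.cons (Pq.L [] 256 (Pf.C 1 642))
 (Pq.cons (Pq.L [] 8 (Pf.C 10 641))
 (Pq.cons (Pq.L [] 256 (Pf.C 1 642))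
 (Pq.cons (Pq.L [] 256 (Pf.C 1 642))
 (Pq.cons (Pq.D 5 (Pq.cons (Pq.L [] 0x40000 (Pf.C 13 773))
 (Pq.cons (Pq.L [] 16 (Pf.C 10 769))
 (Pq.cons (Pq.D 6 (Pq.cons (Pq.L [] 0x100600 (Pf.C 22 33670))
 (Pq.cons (Pq.L [] 32 (Pf.C 10 897))
 (Pq.cons (Pq.L [] 0x100000 (Pf.C 1 902))
 (Pq.cons (Pq.L [] 0x100000 (Pf.C 1 902))
 (Pq.cons (Pq.L [] 0x106673 (Pf.C 53 0x70c0c101))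
 (Pq.cons (Pq.L [] 1057 (Pf.C 19 0x1c101))
 Pq.nil))))))) (Pq.cons (Pq.D 6 (Pq.cons (Pq.L [] 0x100000 (Pf.C 1 902))
 (Pq.cons (Pq.L [] 32 (Pf.C 10 897))
 (Pq.cons (Pq.L [] 0x100000 (Pf.C 1 902))
 (Pq.cons (Pq.L [] 0x100000 (Pf.C 1 902))
 (Pq.cons (Pq.L [] 0x106673 (Pf.C 53 0x70c0c101))
 (Pq.cons (Pq.L [] 1057 (Pf.C 19 0x1c101))
 Pq.nil))))))) (Pq.cons (Pq.L [0] 0x40319 (Pf.C 49 0x60a04002))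
 (Pq.cons (Pq.L [] 529 (Pf.C 19 98561))
 Pq.nil))))))) (Pq.cons (Pq.D 5 (Pq.cons (Pq.D 6 (Pq.cons (Pq.L [] 0x1c7740 (Pf.C 40 0x70c0c105))
 (Pq.cons (Pq.L [] 32 (Pf.C 10 897))
 (Pq.cons (Pq.L [] 0x100600 (Pf.C 22 33543))
 (Pq.cons (Pq.L [] 0x80028 (Pf.C 19 82817))
 (Pq.cons (Pq.L [0] 0x100631 (Pf.C 46 0x20e18080))
 (Pq.cons (Pq.L [] 1057 (Pf.C 19 0x1c101))
 Pq.nil))))))) (Pq.cons (Pq.L [] 16 (Pf.C 10 769))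
 (Pq.cons (Pq.D 6 (Pq.cons (Pq.L [] 0x100600 (Pf.C 22 33670))
 (Pq.cons (Pq.L [] 32 (Pf.C 10 897))
 (Pq.cons (Pq.L [] 0x1c7740 (Pf.C 40 0x70c0c105))
 (Pq.cons (Pq.L [] 0x80028 (Pf.C 19 82817))
 (Pq.cons (Pq.L [] 0x106673 (Pf.C 53 0x70c0c101))
 (Pq.cons (Pq.L [] 1057 (Pf.C 19 0x1c101))
 Pq.nil))))))) (Pq.cons (Pq.D 6 (Pq.cons (Pq.L [] 0x1c7740 (Pf.C 40 0x70c0c105))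
 (Pq.cons (Pq.L [] 32 (Pf.C 10 897))
 (Pq.cons (Pq.L [] 0x1c7740 (Pf.C 40 0x70c0c105))
 (Pq.cons (Pq.L [] 0x80028 (Pf.C 19 82817))
 (Pq.cons (Pq.L [] 0x106673 (Pf.C 53 0x70c0c101))
 (Pq.cons (Pq.L [] 1057 (Pf.C 19 0x1c101))
 Pq.nil))))))) (Pq.cons (Pq.L [0] 0x40018 (Pf.C 35 0xc14080))
 (Pq.cons (Pq.L [] 529 (Pf.C 19 98561))
 Pq.nil))))))) Pq.nil))))))) (Pq.cons (Pq.D 4 (Pq.cons (Pq.L [] 256 (Pf.C 1 642))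
 (Pq.cons (Pq.L [] 8 (Pf.C 10 641))
 (Pq.cons (Pq.L [] 256 (Pf.C 1 642))
 (Pq.cons (Pq.L [] 32780 (Pf.C 19 66177))
 (Pq.cons (Pq.D 5 (Pq.cons (Pq.L [0] 0x5801c (Pf.C 42 0x40a18080))
 (Pq.cons (Pq.L [] 16 (Pf.C 10 769))
 (Pq.cons (Pq.L [0] 0x5801c (Pf.C 42 0x40a18080))
 (Pq.cons (Pq.L [] 65556 (Pf.C 19 66305))
 (Pq.cons (Pq.L [0] 0x40319 (Pf.C 49 0x60a04002))
 (Pq.cons (Pq.L [] 529 (Pf.C 19 98561))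
 Pq.nil))))))) (Pq.cons (Pq.D 5 (Pq.cons (Pq.D 6 (Pq.cons (Pq.L [] 0x1c7740 (Pf.C 40 0x70c0c105))
 (Pq.cons (Pq.L [] 32 (Pf.C 10 897))
 (Pq.cons (Pq.L [] 0x100600 (Pf.C 22 33543))
 (Pq.cons (Pq.L [] 0x20024 (Pf.C 19 66433))
 (Pq.cons (Pq.L [0] 0x130034 (Pf.C 42 0x40e18080))
 (Pq.cons (Pq.L [] 1057 (Pf.C 19 0x1c101))
 Pq.nil))))))) (Pq.cons (Pq.L [] 16 (Pf.C 10 769))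
 (Pq.cons (Pq.D 6 (Pq.cons (Pq.L [] 0x100600 (Pf.C 22 33670))
 (Pq.cons (Pq.L [] 32 (Pf.C 10 897))
 (Pq.cons (Pq.L [] 0x1c7740 (Pf.C 40 0x70c0c105))
 (Pq.cons (Pq.L [] 0x20024 (Pf.C 19 66433))
 (Pq.cons (Pq.L [0] 0x130034 (Pf.C 42 0x40e18080))
 (Pq.cons (Pq.L [] 1057 (Pf.C 19 0x1c101))
 Pq.nil))))))) (Pq.cons (Pq.L [] 65556 (Pf.C 19 66305))
 (Pq.cons (Pq.L [0] 0x40018 (Pf.C 35 0xc14080))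
 (Pq.cons (Pq.L [] 529 (Pf.C 19 98561))
 Pq.nil))))))) Pq.nil))))))) Pq.nil))))))) (Pq.cons (Pq.D 3 (Pq.cons (Pq.L [] 128 (Pf.C 1 514))
 (Pq.cons (Pq.L [] 4 (Pf.C 10 513))
 (Pq.cons (Pq.L [] 128 (Pf.C 1 514))
 (Pq.cons (Pq.L [] 2054 (Pf.C 19 49665))
 (Pq.cons (Pq.D 4 (Pq.cons (Pq.L [] 256 (Pf.C 1 642))
 (Pq.cons (Pq.L [] 8 (Pf.C 10 641))
 (Pq.cons (Pq.L [] 256 (Pf.C 1 642))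
 (Pq.cons (Pq.L [] 4106 (Pf.C 19 49793))
 (Pq.cons (Pq.D 5 (Pq.cons (Pq.L [0] 0x4301a (Pf.C 42 0x30a18080))
 (Pq.cons (Pq.L [] 16 (Pf.C 10 769))
 (Pq.cons (Pq.L [0] 0x4301a (Pf.C 42 0x30a18080))
 (Pq.cons (Pq.L [] 8210 (Pf.C 19 49921))
 (Pq.cons (Pq.L [0] 0x40319 (Pf.C 49 0x60a04002))
 (Pq.cons (Pq.L [] 529 (Pf.C 19 98561))
 Pq.nil))))))) (Pq.cons (Pq.D 5 (Pq.cons (Pq.D 6 (Pq.cons (Pq.L [] 0x1f8780 (Pf.C 40 0x70c10105))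
 (Pq.cons (Pq.L [] 32 (Pf.C 10 897))
 (Pq.cons (Pq.L [] 0x100600 (Pf.C 22 33543))
 (Pq.cons (Pq.L [] 16418 (Pf.C 19 50049))
 (Pq.cons (Pq.L [0] 0x106032 (Pf.C 42 0x30e18080))
 (Pq.cons (Pq.L [] 1057 (Pf.C 19 0x1c101))
 Pq.nil))))))) (Pq.cons (Pq.L [] 16 (Pf.C 10 769))
 (Pq.cons (Pq.D 6 (Pq.cons (Pq.L [] 0x100600 (Pf.C 22 33670))
 (Pq.cons (Pq.L [] 32 (Pf.C 10 897))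
 (Pq.cons (Pq.L [] 0x1f8780 (Pf.C 40 0x70c10105))
 (Pq.cons (Pq.L [] 16418 (Pf.C 19 50049))
 (Pq.cons (Pq.L [0] 0x106032 (Pf.C 42 0x30e18080))
 (Pq.cons (Pq.L [] 1057 (Pf.C 19 0x1c101))
 Pq.nil))))))) (Pq.cons (Pq.L [] 8210 (Pf.C 19 49921))
 (Pq.cons (Pq.L [0] 0x40018 (Pf.C 35 0xc14080))
 (Pq.cons (Pq.L [] 529 (Pf.C 19 98561))
 Pq.nil))))))) Pq.nil))))))) (Pq.cons (Pq.D 4 (Pq.cons (Pq.L [] 256 (Pf.C 1 642))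
 (Pq.cons (Pq.L [] 8 (Pf.C 10 641))
 (Pq.cons (Pq.L [] 256 (Pf.C 1 642))
 (Pq.cons (Pq.L [] 4106 (Pf.C 19 49793))
 (Pq.cons (Pq.D 5 (Pq.cons (Pq.L [0] 0x4301a (Pf.C 42 0x30a18080))
 (Pq.cons (Pq.L [] 16 (Pf.C 10 769))
 (Pq.cons (Pq.L [0] 0x4301a (Pf.C 42 0x30a18080))
 (Pq.cons (Pq.L [] 8210 (Pf.C 19 49921))
 (Pq.cons (Pq.L [0] 0x40319 (Pf.C 49 0x60a04002))
 (Pq.cons (Pq.L [] 529 (Pf.C 19 98561))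
 Pq.nil))))))) (Pq.cons (Pq.D 5 (Pq.cons (Pq.D 6 (Pq.cons (Pq.L [] 0x100000 (Pf.C 1 902))
 (Pq.cons (Pq.L [] 32 (Pf.C 10 897))
 (Pq.cons (Pq.L [] 0x100600 (Pf.C 22 33543))
 (Pq.cons (Pq.L [] 16418 (Pf.C 19 50049))
 (Pq.cons (Pq.L [0] 0x106032 (Pf.C 42 0x30e18080))
 (Pq.cons (Pq.L [] 1057 (Pf.C 19 0x1c101))
 Pq.nil))))))) (Pq.cons (Pq.L [] 16 (Pf.C 10 769))
 (Pq.cons (Pq.D 6 (Pq.cons (Pq.L [] 0x100600 (Pf.C 22 33670))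
 (Pq.cons (Pq.L [] 32 (Pf.C 10 897))
 (Pq.cons (Pq.L [] 0x100000 (Pf.C 1 902))
 (Pq.cons (Pq.L [] 16418 (Pf.C 19 50049))
 (Pq.cons (Pq.L [0] 0x106032 (Pf.C 42 0x30e18080))
 (Pq.cons (Pq.L [] 1057 (Pf.C 19 0x1c101))
 Pq.nil))))))) (Pq.cons (Pq.L [] 8210 (Pf.C 19 49921))
 (Pq.cons (Pq.L [0] 0x40018 (Pf.C 35 0xc14080))
 (Pq.cons (Pq.L [] 529 (Pf.C 19 98561))
 Pq.nil))))))) Pq.nil))))))) Pq.nil))))))) Pq.nil))))))) Pq.nil))))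
theorem s1_o39 : AllRef s1_T s1_G63 (List.take 4 (List.flatMap (splitP 1) (List.take 1 (List.take 3 (List.flatMap (splitP 0) (List.take 1 (applyObl bD_T 3 [75,77,79,81,82,84] [1,1,1,1,2,2] []))))))) :=
  chkPq_sound s1_o39c _ (by decide +kernel)
noncomputable def s1_o40c : Pq := (Pq.cons (Pq.D 2 (Pq.cons (Pq.L [] 64 (Pf.C 13 386))
 (Pq.cons (Pq.L [] 2 (Pf.C 10 385))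
 (Pq.cons (Pq.D 3 (Pq.cons (Pq.L [] 128 (Pf.C 13 514))
 (Pq.cons (Pq.L [] 4 (Pf.C 10 513))
 (Pq.cons (Pq.D 4 (Pq.cons (Pq.L [] 256 (Pf.C 13 642))
 (Pq.cons (Pq.L [] 8 (Pf.C 10 641))
 (Pq.cons (Pq.D 5 (Pq.cons (Pq.L [] 0x40000 (Pf.C 1 773))
 (Pq.cons (Pq.L [] 16 (Pf.C 10 769))
 (Pq.cons (Pq.L [] 0x40000 (Pf.C 1 773))
 (Pq.cons (Pq.L [0] 8787 (Pf.C 55 0x6040c080))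
 (Pq.cons (Pq.L [0] 0x1c677b (Pf.B 7 0 (Pf.C 0 0x800e18105) (Pf.C 0 0x1030c1c080)))
 (Pq.cons (Pq.L [0] 8787 (Pf.C 42 0x6040c080))
 Pq.nil))))))) (Pq.cons (Pq.D 5 (Pq.cons (Pq.L [] 0x40000 (Pf.C 1 773))
 (Pq.cons (Pq.L [] 16 (Pf.C 10 769))
 (Pq.cons (Pq.L [] 0x40000 (Pf.C 1 773))
 (Pq.cons (Pq.L [0] 8787 (Pf.C 55 0x6040c080))
 (Pq.cons (Pq.L [0] 0x1c677b (Pf.B 7 0 (Pf.C 0 0x800e18105) (Pf.C 0 0x1030c1c080)))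
 (Pq.cons (Pq.L [0] 8787 (Pf.C 42 0x6040c080))
 Pq.nil))))))) (Pq.cons (Pq.L [0] 4427 (Pf.C 49 0x50404003))
 (Pq.cons (Pq.L [0] 265 (Pf.C 35 0x414080))
 Pq.nil))))))) (Pq.cons (Pq.D 4 (Pq.cons (Pq.L [] 256 (Pf.C 13 642))
 (Pq.cons (Pq.L [] 8 (Pf.C 10 641))
 (Pq.cons (Pq.D 5 (Pq.cons (Pq.L [] 0x5bbc0 (Pf.C 55 0x40c14182))
 (Pq.cons (Pq.L [] 16 (Pf.C 10 769))
 (Pq.cons (Pq.L [] 0x5bbc0 (Pf.C 55 0x40c14182))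
 (Pq.cons (Pq.L [0] 8787 (Pf.C 55 0x6040c080))
 (Pq.cons (Pq.L [0] 0x5801c (Pf.C 55 0x40c14080))
 (Pq.cons (Pq.L [] 65556 (Pf.C 19 98817))
 Pq.nil))))))) (Pq.cons (Pq.D 5 (Pq.cons (Pq.L [] 0x40000 (Pf.C 1 773))
 (Pq.cons (Pq.L [] 16 (Pf.C 10 769))
 (Pq.cons (Pq.L [] 0x40000 (Pf.C 1 773))
 (Pq.cons (Pq.L [0] 8787 (Pf.C 55 0x6040c080))
 (Pq.cons (Pq.L [0] 0x1c677b (Pf.B 7 0 (Pf.C 0 0x800e18105) (Pf.C 0 0x1030c1c080)))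
 (Pq.cons (Pq.L [] 65556 (Pf.C 19 98817))
 Pq.nil))))))) (Pq.cons (Pq.L [0] 4427 (Pf.C 49 0x50404003))
 (Pq.cons (Pq.L [] 32780 (Pf.C 19 82433))
 Pq.nil))))))) (Pq.cons (Pq.L [0] 2247 (Pf.C 49 0x40404003))
 (Pq.cons (Pq.L [0] 133 (Pf.C 35 0x410080))
 Pq.nil))))))) (Pq.cons (Pq.D 3 (Pq.cons (Pq.L [] 128 (Pf.C 13 514))
 (Pq.cons (Pq.L [] 4 (Pf.C 10 513))
 (Pq.cons (Pq.D 4 (Pq.cons (Pq.L [] 256 (Pf.C 13 642))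
 (Pq.cons (Pq.L [] 8 (Pf.C 10 641))
 (Pq.cons (Pq.D 5 (Pq.cons (Pq.L [] 0x5bbc0 (Pf.C 55 0x30c14202))
 (Pq.cons (Pq.L [] 16 (Pf.C 10 769))
 (Pq.cons (Pq.L [] 0x5bbc0 (Pf.C 55 0x30c14202))
 (Pq.cons (Pq.L [0] 66197 (Pf.C 55 0x60410080))
 (Pq.cons (Pq.L [0] 0x4301a (Pf.C 55 0x30c14080))
 (Pq.cons (Pq.L [] 8210 (Pf.C 19 98689))
 Pq.nil))))))) (Pq.cons (Pq.D 5 (Pq.cons (Pq.L [] 0x40000 (Pf.C 1 773))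
 (Pq.cons (Pq.L [] 16 (Pf.C 10 769))
 (Pq.cons (Pq.L [] 0x40000 (Pf.C 1 773))
 (Pq.cons (Pq.L [0] 66197 (Pf.C 55 0x60410080))
 (Pq.cons (Pq.L [0] 0x1c677b (Pf.B 7 0 (Pf.C 0 0x800e18105) (Pf.C 0 0x1030c1c080)))
 (Pq.cons (Pq.L [] 8210 (Pf.C 19 98689))
 Pq.nil))))))) (Pq.cons (Pq.L [0] 4427 (Pf.C 49 0x50404003))
 (Pq.cons (Pq.L [] 4106 (Pf.C 19 82305))
 Pq.nil))))))) (Pq.cons (Pq.D 4 (Pq.cons (Pq.L [] 256 (Pf.C 13 642))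
 (Pq.cons (Pq.L [] 8 (Pf.C 10 641))
 (Pq.cons (Pq.D 5 (Pq.cons (Pq.L [] 0x43000 (Pf.C 22 49925))
 (Pq.cons (Pq.L [] 16 (Pf.C 10 769))
 (Pq.cons (Pq.L [] 0x40000 (Pf.C 1 773))
 (Pq.cons (Pq.L [] 0x40000 (Pf.C 1 773))
 (Pq.cons (Pq.L [0] 0x4301a (Pf.C 55 0x30c14080))
 (Pq.cons (Pq.L [] 8210 (Pf.C 19 98689))
 Pq.nil))))))) (Pq.cons (Pq.D 5 (Pq.cons (Pq.L [] 0x40000 (Pf.C 1 773))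
 (Pq.cons (Pq.L [] 16 (Pf.C 10 769))
 (Pq.cons (Pq.L [] 0x40000 (Pf.C 1 773))
 (Pq.cons (Pq.L [] 0x40000 (Pf.C 1 773))
 (Pq.cons (Pq.L [0] 0x1c677b (Pf.B 7 0 (Pf.C 0 0x800e18105) (Pf.C 0 0x1030c1c080)))
 (Pq.cons (Pq.L [] 8210 (Pf.C 19 98689))
 Pq.nil))))))) (Pq.cons (Pq.L [0] 4427 (Pf.C 49 0x50404003))
 (Pq.cons (Pq.L [] 4106 (Pf.C 19 82305))
 Pq.nil))))))) (Pq.cons (Pq.L [0] 2247 (Pf.C 49 0x40404003))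
 (Pq.cons (Pq.L [] 2054 (Pf.C 19 65921))
 Pq.nil))))))) (Pq.cons (Pq.L [] 64 (Pf.C 2 386))
 (Pq.cons (Pq.L [0] 67 (Pf.C 35 0x40c080))
 Pq.nil))))))) (Pq.cons (Pq.D 2 (Pq.cons (Pq.D 3 (Pq.cons (Pq.D 4 (Pq.cons (Pq.D 5 (Pq.cons (Pq.L [] 0x40000 (Pf.C 1 773))
 (Pq.cons (Pq.L [] 16 (Pf.C 10 769))
 (Pq.cons (Pq.L [0] 8787 (Pf.C 46 0x6040c080))
 (Pq.cons (Pq.L [] 529 (Pf.C 19 33537))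
 (Pq.cons (Pq.L [] 0x40000 (Pf.C 13 646))
 (Pq.cons (Pq.L [0] 0x1c677b (Pf.B 7 0 (Pf.C 0 0x800e18105) (Pf.C 0 0x1030c1c080)))
 Pq.nil))))))) (Pq.cons (Pq.L [] 8 (Pf.C 10 641))
 (Pq.cons (Pq.D 5 (Pq.cons (Pq.L [] 0x40000 (Pf.C 1 773))
 (Pq.cons (Pq.L [] 16 (Pf.C 10 769))
 (Pq.cons (Pq.L [0] 8787 (Pf.C 46 0x6040c080))
 (Pq.cons (Pq.L [] 529 (Pf.C 19 33537))
 (Pq.cons (Pq.L [0] 0x1c677b (Pf.B 7 0 (Pf.C 0 0x800e18105) (Pf.C 0 0x1030c1c080)))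
 (Pq.cons (Pq.L [0] 0x1c677b (Pf.B 7 0 (Pf.C 0 0x800e18105) (Pf.C 0 0x1030c1c080)))
 Pq.nil))))))) (Pq.cons (Pq.D 5 (Pq.cons (Pq.L [] 0x40000 (Pf.C 1 773))
 (Pq.cons (Pq.L [] 16 (Pf.C 10 769))
 (Pq.cons (Pq.L [0] 8787 (Pf.C 46 0x6040c080))
 (Pq.cons (Pq.L [] 529 (Pf.C 19 33537))
 (Pq.cons (Pq.L [0] 0x1c677b (Pf.B 7 0 (Pf.C 0 0x800e18105) (Pf.C 0 0x1030c1c080)))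
 (Pq.cons (Pq.L [0] 0x1c677b (Pf.B 7 0 (Pf.C 0 0x800e18105) (Pf.C 0 0x1030c1c080)))
 Pq.nil))))))) (Pq.cons (Pq.L [0] 265 (Pf.C 35 0xa08080))
 (Pq.cons (Pq.L [] 256 (Pf.C 2 642))
 Pq.nil))))))) (Pq.cons (Pq.L [] 4 (Pf.C 10 513))
 (Pq.cons (Pq.D 4 (Pq.cons (Pq.D 5 (Pq.cons (Pq.L [] 0x5bbc0 (Pf.C 46 0x40c14182))
 (Pq.cons (Pq.L [] 16 (Pf.C 10 769))
 (Pq.cons (Pq.L [0] 8787 (Pf.C 46 0x6040c080))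
 (Pq.cons (Pq.L [] 529 (Pf.C 19 33537))
 (Pq.cons (Pq.L [0] 0x5801c (Pf.C 46 0x40c14080))
 (Pq.cons (Pq.L [0] 0x5801c (Pf.C 46 0x40c14080))
 Pq.nil))))))) (Pq.cons (Pq.L [] 8 (Pf.C 10 641))
 (Pq.cons (Pq.D 5 (Pq.cons (Pq.L [] 0x40000 (Pf.C 1 773))
 (Pq.cons (Pq.L [] 16 (Pf.C 10 769))
 (Pq.cons (Pq.L [0] 8787 (Pf.C 46 0x6040c080))
 (Pq.cons (Pq.L [] 529 (Pf.C 19 33537))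
 (Pq.cons (Pq.L [0] 0x1c677b (Pf.B 7 0 (Pf.C 0 0x800e18105) (Pf.C 0 0x1030c1c080)))
 (Pq.cons (Pq.L [0] 0x1c677b (Pf.B 7 0 (Pf.C 0 0x800e18105) (Pf.C 0 0x1030c1c080)))
 Pq.nil))))))) (Pq.cons (Pq.D 5 (Pq.cons (Pq.L [] 0x40000 (Pf.C 1 773))
 (Pq.cons (Pq.L [] 16 (Pf.C 10 769))
 (Pq.cons (Pq.L [0] 8787 (Pf.C 46 0x6040c080))
 (Pq.cons (Pq.L [] 529 (Pf.C 19 33537))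
 (Pq.cons (Pq.L [0] 0x1c677b (Pf.B 7 0 (Pf.C 0 0x800e18105) (Pf.C 0 0x1030c1c080)))
 (Pq.cons (Pq.L [0] 0x1c677b (Pf.B 7 0 (Pf.C 0 0x800e18105) (Pf.C 0 0x1030c1c080)))
 Pq.nil))))))) (Pq.cons (Pq.L [0] 265 (Pf.C 35 0xa08080))
 (Pq.cons (Pq.L [0] 33165 (Pf.C 49 0x50404004))
 Pq.nil))))))) (Pq.cons (Pq.D 4 (Pq.cons (Pq.D 5 (Pq.cons (Pq.L [] 0x5bbc0 (Pf.C 46 0x40c14182))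
 (Pq.cons (Pq.L [] 16 (Pf.C 10 769))
 (Pq.cons (Pq.L [0] 8787 (Pf.C 46 0x6040c080))
 (Pq.cons (Pq.L [] 529 (Pf.C 19 33537))
 (Pq.cons (Pq.L [0] 0x5801c (Pf.C 46 0x40c14080))
 (Pq.cons (Pq.L [] 65556 (Pf.C 19 98817))
 Pq.nil))))))) (Pq.cons (Pq.L [] 8 (Pf.C 10 641))
 (Pq.cons (Pq.D 5 (Pq.cons (Pq.L [] 0x5bbc0 (Pf.C 55 0x40c14182))
 (Pq.cons (Pq.L [] 16 (Pf.C 10 769))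
 (Pq.cons (Pq.L [0] 8787 (Pf.C 46 0x6040c080))
 (Pq.cons (Pq.L [] 529 (Pf.C 19 33537))
 (Pq.cons (Pq.L [0] 0x5801c (Pf.C 55 0x40c14080))
 (Pq.cons (Pq.L [] 65556 (Pf.C 19 98817))
 Pq.nil))))))) (Pq.cons (Pq.D 5 (Pq.cons (Pq.L [] 0x40000 (Pf.C 1 773))
 (Pq.cons (Pq.L [] 16 (Pf.C 10 769))
 (Pq.cons (Pq.L [0] 8787 (Pf.C 46 0x6040c080))
 (Pq.cons (Pq.L [] 529 (Pf.C 19 33537))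
 (Pq.cons (Pq.L [0] 0x1c677b (Pf.B 7 0 (Pf.C 0 0x800e18105) (Pf.C 0 0x1030c1c080)))
 (Pq.cons (Pq.L [] 65556 (Pf.C 19 98817))
 Pq.nil))))))) (Pq.cons (Pq.L [0] 265 (Pf.C 35 0xa08080))
 (Pq.cons (Pq.L [] 32780 (Pf.C 19 82433))
 Pq.nil))))))) (Pq.cons (Pq.L [0] 133 (Pf.C 35 0x808080))
 (Pq.cons (Pq.L [] 128 (Pf.C 2 514))
 Pq.nil))))))) (Pq.cons (Pq.L [] 2 (Pf.C 10 385))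
 (Pq.cons (Pq.D 3 (Pq.cons (Pq.D 4 (Pq.cons (Pq.D 5 (Pq.cons (Pq.L [] 0x5bbc0 (Pf.C 46 0x30c14202))
 (Pq.cons (Pq.L [] 16 (Pf.C 10 769))
 (Pq.cons (Pq.L [0] 66197 (Pf.C 46 0x60410080))
 (Pq.cons (Pq.L [] 529 (Pf.C 19 33537))
 (Pq.cons (Pq.L [0] 0x4301a (Pf.C 46 0x30c14080))
 (Pq.cons (Pq.L [0] 0x4301a (Pf.C 46 0x30c14080))
 Pq.nil))))))) (Pq.cons (Pq.L [] 8 (Pf.C 10 641))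
 (Pq.cons (Pq.D 5 (Pq.cons (Pq.L [] 0x40000 (Pf.C 1 773))
 (Pq.cons (Pq.L [] 16 (Pf.C 10 769))
 (Pq.cons (Pq.L [0] 66197 (Pf.C 46 0x60410080))
 (Pq.cons (Pq.L [] 529 (Pf.C 19 33537))
 (Pq.cons (Pq.L [0] 0x1c677b (Pf.B 7 0 (Pf.C 0 0x800e18105) (Pf.C 0 0x1030c1c080)))
 (Pq.cons (Pq.L [0] 0x1c677b (Pf.B 7 0 (Pf.C 0 0x800e18105) (Pf.C 0 0x1030c1c080)))
 Pq.nil))))))) (Pq.cons (Pq.D 5 (Pq.cons (Pq.L [] 0x40000 (Pf.C 1 773))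
 (Pq.cons (Pq.L [] 16 (Pf.C 10 769))
 (Pq.cons (Pq.L [0] 66197 (Pf.C 46 0x60410080))
 (Pq.cons (Pq.L [] 529 (Pf.C 19 33537))
 (Pq.cons (Pq.L [0] 0x1c677b (Pf.B 7 0 (Pf.C 0 0x800e18105) (Pf.C 0 0x1030c1c080)))
 (Pq.cons (Pq.L [0] 0x1c677b (Pf.B 7 0 (Pf.C 0 0x800e18105) (Pf.C 0 0x1030c1c080)))
 Pq.nil))))))) (Pq.cons (Pq.L [0] 265 (Pf.C 35 0xa08080))
 (Pq.cons (Pq.L [0] 4427 (Pf.C 49 0x50404003))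
 Pq.nil))))))) (Pq.cons (Pq.L [] 4 (Pf.C 10 513))
 (Pq.cons (Pq.D 4 (Pq.cons (Pq.D 5 (Pq.cons (Pq.L [] 0x40000 (Pf.C 1 773))
 (Pq.cons (Pq.L [] 16 (Pf.C 10 769))
 (Pq.cons (Pq.L [] 0x40000 (Pf.C 1 773))
 (Pq.cons (Pq.L [] 529 (Pf.C 19 33537))
 (Pq.cons (Pq.L [0] 0x4301a (Pf.C 46 0x30c14080))
 (Pq.cons (Pq.L [0] 0x4301a (Pf.C 46 0x30c14080))
 Pq.nil))))))) (Pq.cons (Pq.L [] 8 (Pf.C 10 641))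
 (Pq.cons (Pq.D 5 (Pq.cons (Pq.L [] 0x40000 (Pf.C 1 773))
 (Pq.cons (Pq.L [] 16 (Pf.C 10 769))
 (Pq.cons (Pq.L [] 0x40000 (Pf.C 1 773))
 (Pq.cons (Pq.L [] 529 (Pf.C 19 33537))
 (Pq.cons (Pq.L [0] 0x1c677b (Pf.B 7 0 (Pf.C 0 0x800e18105) (Pf.C 0 0x1030c1c080)))
 (Pq.cons (Pq.L [0] 0x1c677b (Pf.B 7 0 (Pf.C 0 0x800e18105) (Pf.C 0 0x1030c1c080)))
 Pq.nil))))))) (Pq.cons (Pq.D 5 (Pq.cons (Pq.L [] 0x40000 (Pf.C 1 773))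
 (Pq.cons (Pq.L [] 16 (Pf.C 10 769))
 (Pq.cons (Pq.L [] 0x40000 (Pf.C 1 773))
 (Pq.cons (Pq.L [] 529 (Pf.C 19 33537))
 (Pq.cons (Pq.L [0] 0x1c677b (Pf.B 7 0 (Pf.C 0 0x800e18105) (Pf.C 0 0x1030c1c080)))
 (Pq.cons (Pq.L [0] 0x1c677b (Pf.B 7 0 (Pf.C 0 0x800e18105) (Pf.C 0 0x1030c1c080)))
 Pq.nil))))))) (Pq.cons (Pq.L [0] 265 (Pf.C 35 0xa08080))
 (Pq.cons (Pq.L [0] 4427 (Pf.C 49 0x50404003))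
 Pq.nil))))))) (Pq.cons (Pq.D 4 (Pq.cons (Pq.D 5 (Pq.cons (Pq.L [] 0x5bbc0 (Pf.C 55 0x40c14182))
 (Pq.cons (Pq.L [] 16 (Pf.C 10 769))
 (Pq.cons (Pq.L [] 0x5bbc0 (Pf.C 55 0x40c14182))
 (Pq.cons (Pq.L [] 529 (Pf.C 19 33537))
 (Pq.cons (Pq.L [0] 0x4301a (Pf.C 46 0x30c14080))
 (Pq.cons (Pq.L [] 65556 (Pf.C 19 98817))
 Pq.nil))))))) (Pq.cons (Pq.L [] 8 (Pf.C 10 641))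
 (Pq.cons (Pq.D 5 (Pq.cons (Pq.L [] 0x5bbc0 (Pf.C 55 0x40c14182))
 (Pq.cons (Pq.L [] 16 (Pf.C 10 769))
 (Pq.cons (Pq.L [] 0x5bbc0 (Pf.C 55 0x40c14182))
 (Pq.cons (Pq.L [] 529 (Pf.C 19 33537))
 (Pq.cons (Pq.L [0] 0x5801c (Pf.C 55 0x40c14080))
 (Pq.cons (Pq.L [] 65556 (Pf.C 19 98817))
 Pq.nil))))))) (Pq.cons (Pq.D 5 (Pq.cons (Pq.L [] 0x40000 (Pf.C 1 773))
 (Pq.cons (Pq.L [] 16 (Pf.C 10 769))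
 (Pq.cons (Pq.L [] 0x40000 (Pf.C 1 773))
 (Pq.cons (Pq.L [] 529 (Pf.C 19 33537))
 (Pq.cons (Pq.L [0] 0x1c677b (Pf.B 7 0 (Pf.C 0 0x800e18105) (Pf.C 0 0x1030c1c080)))
 (Pq.cons (Pq.L [] 65556 (Pf.C 19 98817))
 Pq.nil))))))) (Pq.cons (Pq.L [0] 265 (Pf.C 35 0xa08080))
 (Pq.cons (Pq.L [] 32780 (Pf.C 19 82433))
 Pq.nil))))))) (Pq.cons (Pq.L [0] 133 (Pf.C 35 0x808080))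
 (Pq.cons (Pq.L [0] 2247 (Pf.C 49 0x40404003))
 Pq.nil))))))) (Pq.cons (Pq.D 3 (Pq.cons (Pq.D 4 (Pq.cons (Pq.D 5 (Pq.cons (Pq.L [] 0x5bbc0 (Pf.C 46 0x30c14202))
 (Pq.cons (Pq.L [] 16 (Pf.C 10 769))
 (Pq.cons (Pq.L [0] 66197 (Pf.C 46 0x60410080))
 (Pq.cons (Pq.L [] 529 (Pf.C 19 33537))
 (Pq.cons (Pq.L [0] 0x4301a (Pf.C 46 0x30c14080))
 (Pq.cons (Pq.L [] 8210 (Pf.C 19 98689))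
 Pq.nil))))))) (Pq.cons (Pq.L [] 8 (Pf.C 10 641))
 (Pq.cons (Pq.D 5 (Pq.cons (Pq.L [] 0x5bbc0 (Pf.C 55 0x30c14202))
 (Pq.cons (Pq.L [] 16 (Pf.C 10 769))
 (Pq.cons (Pq.L [0] 66197 (Pf.C 46 0x60410080))
 (Pq.cons (Pq.L [] 529 (Pf.C 19 33537))
 (Pq.cons (Pq.L [0] 0x4301a (Pf.C 55 0x30c14080))
 (Pq.cons (Pq.L [] 8210 (Pf.C 19 98689))
 Pq.nil))))))) (Pq.cons (Pq.D 5 (Pq.cons (Pq.L [] 0x40000 (Pf.C 1 773))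
 (Pq.cons (Pq.L [] 16 (Pf.C 10 769))
 (Pq.cons (Pq.L [0] 66197 (Pf.C 46 0x60410080))
 (Pq.cons (Pq.L [] 529 (Pf.C 19 33537))
 (Pq.cons (Pq.L [0] 0x1c677b (Pf.B 7 0 (Pf.C 0 0x800e18105) (Pf.C 0 0x1030c1c080)))
 (Pq.cons (Pq.L [] 8210 (Pf.C 19 98689))
 Pq.nil))))))) (Pq.cons (Pq.L [0] 265 (Pf.C 35 0xa08080))
 (Pq.cons (Pq.L [] 4106 (Pf.C 19 82305))
 Pq.nil))))))) (Pq.cons (Pq.L [] 4 (Pf.C 10 513))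
 (Pq.cons (Pq.D 4 (Pq.cons (Pq.D 5 (Pq.cons (Pq.L [] 0x5bbc0 (Pf.C 55 0x30c14202))
 (Pq.cons (Pq.L [] 16 (Pf.C 10 769))
 (Pq.cons (Pq.L [] 0x5bbc0 (Pf.C 55 0x30c14202))
 (Pq.cons (Pq.L [] 529 (Pf.C 19 33537))
 (Pq.cons (Pq.L [0] 0x4301a (Pf.C 46 0x30c14080))
 (Pq.cons (Pq.L [] 8210 (Pf.C 19 98689))
 Pq.nil))))))) (Pq.cons (Pq.L [] 8 (Pf.C 10 641))
 (Pq.cons (Pq.D 5 (Pq.cons (Pq.L [] 0x5bbc0 (Pf.C 55 0x30c14202))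
 (Pq.cons (Pq.L [] 16 (Pf.C 10 769))
 (Pq.cons (Pq.L [] 0x5bbc0 (Pf.C 55 0x30c14202))
 (Pq.cons (Pq.L [] 529 (Pf.C 19 33537))
 (Pq.cons (Pq.L [0] 0x4301a (Pf.C 55 0x30c14080))
 (Pq.cons (Pq.L [] 8210 (Pf.C 19 98689))
 Pq.nil))))))) (Pq.cons (Pq.D 5 (Pq.cons (Pq.L [] 0x40000 (Pf.C 1 773))
 (Pq.cons (Pq.L [] 16 (Pf.C 10 769))
 (Pq.cons (Pq.L [] 0x40000 (Pf.C 1 773))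
 (Pq.cons (Pq.L [] 529 (Pf.C 19 33537))
 (Pq.cons (Pq.L [0] 0x1c677b (Pf.B 7 0 (Pf.C 0 0x800e18105) (Pf.C 0 0x1030c1c080)))
 (Pq.cons (Pq.L [] 8210 (Pf.C 19 98689))
 Pq.nil))))))) (Pq.cons (Pq.L [0] 265 (Pf.C 35 0xa08080))
 (Pq.cons (Pq.L [] 4106 (Pf.C 19 82305))
 Pq.nil))))))) (Pq.cons (Pq.D 4 (Pq.cons (Pq.D 5 (Pq.cons (Pq.L [] 0x40000 (Pf.C 1 773))
 (Pq.cons (Pq.L [] 16 (Pf.C 10 769))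
 (Pq.cons (Pq.L [] 0x43000 (Pf.C 22 49798))
 (Pq.cons (Pq.L [] 529 (Pf.C 19 33537))
 (Pq.cons (Pq.L [0] 0x4301a (Pf.C 46 0x30c14080))
 (Pq.cons (Pq.L [] 8210 (Pf.C 19 98689))
 Pq.nil))))))) (Pq.cons (Pq.L [] 8 (Pf.C 10 641))
 (Pq.cons (Pq.D 5 (Pq.cons (Pq.L [] 0x43000 (Pf.C 22 49925))
 (Pq.cons (Pq.L [] 16 (Pf.C 10 769))
 (Pq.cons (Pq.L [] 0x40000 (Pf.C 1 773))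
 (Pq.cons (Pq.L [] 529 (Pf.C 19 33537))
 (Pq.cons (Pq.L [0] 0x4301a (Pf.C 55 0x30c14080))
 (Pq.cons (Pq.L [] 8210 (Pf.C 19 98689))
 Pq.nil))))))) (Pq.cons (Pq.D 5 (Pq.cons (Pq.L [] 0x40000 (Pf.C 1 773))
 (Pq.cons (Pq.L [] 16 (Pf.C 10 769))
 (Pq.cons (Pq.L [] 0x40000 (Pf.C 1 773))
 (Pq.cons (Pq.L [] 529 (Pf.C 19 33537))
 (Pq.cons (Pq.L [0] 0x1c677b (Pf.B 7 0 (Pf.C 0 0x800e18105) (Pf.C 0 0x1030c1c080)))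
 (Pq.cons (Pq.L [] 8210 (Pf.C 19 98689))
 Pq.nil))))))) (Pq.cons (Pq.L [0] 265 (Pf.C 35 0xa08080))
 (Pq.cons (Pq.L [] 4106 (Pf.C 19 82305))
 Pq.nil))))))) (Pq.cons (Pq.L [0] 133 (Pf.C 35 0x808080))
 (Pq.cons (Pq.L [] 2054 (Pf.C 19 65921))
 Pq.nil))))))) (Pq.cons (Pq.L [0] 67 (Pf.C 35 0x608080))
 (Pq.cons (Pq.L [] 64 (Pf.C 2 386))
 Pq.nil))))))) Pq.nil))
theorem s1_o40 : AllRef s1_T s1_G63 (List.drop 4 (List.flatMap (splitP 1) (List.take 1 (List.take 3 (List.flatMap (splitP 0) (List.take 1 (applyObl bD_T 3 [75,77,79,81,82,84] [1,1,1,1,2,2] []))))))) :=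
  chkPq_sound s1_o40c _ (by decide +kernel)
noncomputable def s1_o41c : Pq := (Pq.cons (Pq.D 1 (Pq.cons (Pq.L [] 1 (Pf.C 10 130))
 (Pq.cons (Pq.D 2 (Pq.cons (Pq.L [] 2 (Pf.C 10 131))
 (Pq.cons (Pq.L [] 64 (Pf.C 1 386))
 (Pq.cons (Pq.L [] 64 (Pf.C 1 386))
 (Pq.cons (Pq.L [] 64 (Pf.C 1 386))
 (Pq.cons (Pq.L [] 2 (Pf.C 6 131))
 (Pq.cons (Pq.D 3 (Pq.cons (Pq.L [] 4 (Pf.C 10 132))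
 (Pq.cons (Pq.L [] 128 (Pf.C 1 514))
 (Pq.cons (Pq.L [] 2054 (Pf.C 19 49284))
 (Pq.cons (Pq.L [] 128 (Pf.C 1 514))
 (Pq.cons (Pq.L [] 4 (Pf.C 6 132))
 (Pq.cons (Pq.D 4 (Pq.cons (Pq.L [] 8 (Pf.C 10 133))
 (Pq.cons (Pq.L [] 256 (Pf.C 1 642))
 (Pq.cons (Pq.L [] 4106 (Pf.C 19 49285))
 (Pq.cons (Pq.L [] 256 (Pf.C 1 642))
 (Pq.cons (Pq.L [] 8 (Pf.C 6 133))
 (Pq.cons (Pq.D 5 (Pq.cons (Pq.L [] 16 (Pf.C 10 134))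
 (Pq.cons (Pq.D 6 (Pq.cons (Pq.L [] 32 (Pf.C 10 135))
 (Pq.cons (Pq.L [] 0x100000 (Pf.C 1 902))
 (Pq.cons (Pq.L [] 16418 (Pf.C 19 49287))
 (Pq.cons (Pq.L [] 17507 (Pf.C 36 0xe0c101))
 (Pq.cons (Pq.L [] 32 (Pf.C 6 135))
 (Pq.cons (Pq.L [] 0x106673 (Pf.C 52 0x70c0c101))
 Pq.nil))))))) (Pq.cons (Pq.L [] 8210 (Pf.C 19 49286))
 (Pq.cons (Pq.L [] 8787 (Pf.C 36 0xc0c101))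
 (Pq.cons (Pq.L [] 16 (Pf.C 6 134))
 (Pq.cons (Pq.L [] 0x4335b (Pf.C 50 0x10c14182))
 Pq.nil))))))) Pq.nil))))))) Pq.nil))))))) Pq.nil))))))) (Pq.cons (Pq.D 2 (Pq.cons (Pq.L [] 2 (Pf.C 10 131))
 (Pq.cons (Pq.L [] 64 (Pf.C 1 386))
 (Pq.cons (Pq.L [] 64 (Pf.C 1 386))
 (Pq.cons (Pq.L [] 64 (Pf.C 1 386))
 (Pq.cons (Pq.L [] 2 (Pf.C 6 131))
 (Pq.cons (Pq.D 3 (Pq.cons (Pq.L [] 4 (Pf.C 10 132))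
 (Pq.cons (Pq.L [] 128 (Pf.C 1 514))
 (Pq.cons (Pq.L [] 2054 (Pf.C 19 49284))
 (Pq.cons (Pq.L [] 128 (Pf.C 1 514))
 (Pq.cons (Pq.L [] 4 (Pf.C 6 132))
 (Pq.cons (Pq.D 4 (Pq.cons (Pq.L [] 8 (Pf.C 10 133))
 (Pq.cons (Pq.L [] 256 (Pf.C 1 642))
 (Pq.cons (Pq.L [] 4106 (Pf.C 19 49285))
 (Pq.cons (Pq.L [] 256 (Pf.C 1 642))
 (Pq.cons (Pq.L [] 8 (Pf.C 6 133))
 (Pq.cons (Pq.D 5 (Pq.cons (Pq.L [] 16 (Pf.C 10 134))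
 (Pq.cons (Pq.D 6 (Pq.cons (Pq.L [] 32 (Pf.C 10 135))
 (Pq.cons (Pq.L [] 0x100000 (Pf.C 1 902))
 (Pq.cons (Pq.L [] 16418 (Pf.C 19 49287))
 (Pq.cons (Pq.L [] 0x100000 (Pf.C 1 902))
 (Pq.cons (Pq.L [] 32 (Pf.C 6 135))
 (Pq.cons (Pq.L [] 1057 (Pf.C 19 0x1c082))
 Pq.nil))))))) (Pq.cons (Pq.L [] 8210 (Pf.C 19 49286))
 (Pq.cons (Pq.D 6 (Pq.cons (Pq.L [] 32 (Pf.C 10 135))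
 (Pq.cons (Pq.L [] 0x100000 (Pf.C 1 902))
 (Pq.cons (Pq.L [] 16418 (Pf.C 19 49287))
 (Pq.cons (Pq.L [] 0x100000 (Pf.C 1 902))
 (Pq.cons (Pq.L [] 32 (Pf.C 6 135))
 (Pq.cons (Pq.L [] 1057 (Pf.C 19 0x1c082))
 Pq.nil))))))) (Pq.cons (Pq.L [] 16 (Pf.C 6 134))
 (Pq.cons (Pq.L [] 529 (Pf.C 19 98434))
 Pq.nil))))))) Pq.nil))))))) Pq.nil))))))) Pq.nil))))))) (Pq.cons (Pq.D 2 (Pq.cons (Pq.L [] 2 (Pf.C 10 131))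
 (Pq.cons (Pq.L [] 64 (Pf.C 1 386))
 (Pq.cons (Pq.L [] 64 (Pf.C 1 386))
 (Pq.cons (Pq.L [] 64 (Pf.C 1 386))
 (Pq.cons (Pq.L [] 2 (Pf.C 6 131))
 (Pq.cons (Pq.D 3 (Pq.cons (Pq.L [] 4 (Pf.C 10 132))
 (Pq.cons (Pq.L [] 128 (Pf.C 1 514))
 (Pq.cons (Pq.L [] 2054 (Pf.C 19 49284))
 (Pq.cons (Pq.L [] 128 (Pf.C 1 514))
 (Pq.cons (Pq.L [] 4 (Pf.C 6 132))
 (Pq.cons (Pq.D 4 (Pq.cons (Pq.L [] 8 (Pf.C 10 133))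
 (Pq.cons (Pq.L [] 256 (Pf.C 1 642))
 (Pq.cons (Pq.L [] 4106 (Pf.C 19 49285))
 (Pq.cons (Pq.L [] 256 (Pf.C 1 642))
 (Pq.cons (Pq.L [] 8 (Pf.C 6 133))
 (Pq.cons (Pq.D 5 (Pq.cons (Pq.L [] 16 (Pf.C 10 134))
 (Pq.cons (Pq.D 6 (Pq.cons (Pq.L [] 32 (Pf.C 10 135))
 (Pq.cons (Pq.L [] 0x100000 (Pf.C 1 902))
 (Pq.cons (Pq.L [] 16418 (Pf.C 19 49287))
 (Pq.cons (Pq.L [] 0x100000 (Pf.C 1 902))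
 (Pq.cons (Pq.L [] 32 (Pf.C 6 135))
 (Pq.cons (Pq.L [] 0x100631 (Pf.C 36 0x41c301))
 Pq.nil))))))) (Pq.cons (Pq.L [] 8210 (Pf.C 19 49286))
 (Pq.cons (Pq.D 6 (Pq.cons (Pq.L [] 32 (Pf.C 10 135))
 (Pq.cons (Pq.L [] 0x100000 (Pf.C 1 902))
 (Pq.cons (Pq.L [] 16418 (Pf.C 19 49287))
 (Pq.cons (Pq.L [] 0x100000 (Pf.C 1 902))
 (Pq.cons (Pq.L [] 32 (Pf.C 6 135))
 (Pq.cons (Pq.L [] 0x106673 (Pf.C 52 0x70c0c101))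
 Pq.nil))))))) (Pq.cons (Pq.L [] 16 (Pf.C 6 134))
 (Pq.cons (Pq.L [0] 0x40319 (Pf.C 49 0x60a04002))
 Pq.nil))))))) Pq.nil))))))) Pq.nil))))))) Pq.nil))))))) (Pq.cons (Pq.L [] 1 (Pf.C 6 130))
 (Pq.cons (Pq.D 2 (Pq.cons (Pq.L [] 2 (Pf.C 10 131))
 (Pq.cons (Pq.D 3 (Pq.cons (Pq.L [] 4 (Pf.C 10 132))
 (Pq.cons (Pq.D 4 (Pq.cons (Pq.L [] 8 (Pf.C 10 133))
 (Pq.cons (Pq.D 5 (Pq.cons (Pq.L [] 16 (Pf.C 10 134))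
 (Pq.cons (Pq.L [] 0x40000 (Pf.C 1 773))
 (Pq.cons (Pq.L [] 529 (Pf.C 19 32902))
 (Pq.cons (Pq.L [] 8787 (Pf.C 36 0xc08181))
 (Pq.cons (Pq.L [] 16 (Pf.C 6 134))
 (Pq.cons (Pq.L [0] 0x1c677b (Pf.B 7 0 (Pf.C 0 0x800e18105) (Pf.C 0 0x1030c1c080)))
 Pq.nil))))))) (Pq.cons (Pq.D 5 (Pq.cons (Pq.L [] 16 (Pf.C 10 134))
 (Pq.cons (Pq.L [] 0x40000 (Pf.C 1 773))
 (Pq.cons (Pq.L [] 529 (Pf.C 19 32902))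
 (Pq.cons (Pq.L [] 8787 (Pf.C 36 0xc08181))
 (Pq.cons (Pq.L [] 16 (Pf.C 6 134))
 (Pq.cons (Pq.L [0] 0x1c677b (Pf.B 7 0 (Pf.C 0 0x800e18105) (Pf.C 0 0x1030c1c080)))
 Pq.nil))))))) (Pq.cons (Pq.D 5 (Pq.cons (Pq.L [] 16 (Pf.C 10 134))
 (Pq.cons (Pq.L [] 0x40000 (Pf.C 1 773))
 (Pq.cons (Pq.L [] 529 (Pf.C 19 32902))
 (Pq.cons (Pq.L [] 8787 (Pf.C 36 0xc08181))
 (Pq.cons (Pq.L [] 16 (Pf.C 6 134))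
 (Pq.cons (Pq.L [0] 0x1c677b (Pf.B 7 0 (Pf.C 0 0x800e18105) (Pf.C 0 0x1030c1c080)))
 Pq.nil))))))) (Pq.cons (Pq.L [] 8 (Pf.C 6 133))
 (Pq.cons (Pq.L [] 256 (Pf.C 2 642))
 Pq.nil))))))) (Pq.cons (Pq.D 4 (Pq.cons (Pq.L [] 8 (Pf.C 10 133))
 (Pq.cons (Pq.D 5 (Pq.cons (Pq.L [] 16 (Pf.C 10 134))
 (Pq.cons (Pq.L [] 0x5bbc0 (Pf.C 46 0x40c14182))
 (Pq.cons (Pq.L [] 529 (Pf.C 19 32902))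
 (Pq.cons (Pq.L [] 8787 (Pf.C 36 0xc08181))
 (Pq.cons (Pq.L [] 16 (Pf.C 6 134))
 (Pq.cons (Pq.L [] 65556 (Pf.C 19 98436))
 Pq.nil))))))) (Pq.cons (Pq.D 5 (Pq.cons (Pq.L [] 16 (Pf.C 10 134))
 (Pq.cons (Pq.L [] 0x40000 (Pf.C 1 773))
 (Pq.cons (Pq.L [] 529 (Pf.C 19 32902))
 (Pq.cons (Pq.L [] 8787 (Pf.C 36 0xc08181))
 (Pq.cons (Pq.L [] 16 (Pf.C 6 134))
 (Pq.cons (Pq.L [] 65556 (Pf.C 19 98436))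
 Pq.nil))))))) (Pq.cons (Pq.D 5 (Pq.cons (Pq.L [] 16 (Pf.C 10 134))
 (Pq.cons (Pq.L [] 0x40000 (Pf.C 1 773))
 (Pq.cons (Pq.L [] 529 (Pf.C 19 32902))
 (Pq.cons (Pq.L [] 8787 (Pf.C 36 0xc08181))
 (Pq.cons (Pq.L [] 16 (Pf.C 6 134))
 (Pq.cons (Pq.L [] 65556 (Pf.C 19 98436))
 Pq.nil))))))) (Pq.cons (Pq.L [] 8 (Pf.C 6 133))
 (Pq.cons (Pq.L [] 32780 (Pf.C 19 82052))
 Pq.nil))))))) (Pq.cons (Pq.D 4 (Pq.cons (Pq.L [] 8 (Pf.C 10 133))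
 (Pq.cons (Pq.D 5 (Pq.cons (Pq.L [] 16 (Pf.C 10 134))
 (Pq.cons (Pq.L [] 0x5bbc0 (Pf.C 46 0x40c14182))
 (Pq.cons (Pq.L [] 529 (Pf.C 19 32902))
 (Pq.cons (Pq.L [] 8787 (Pf.C 36 0xc08181))
 (Pq.cons (Pq.L [] 16 (Pf.C 6 134))
 (Pq.cons (Pq.L [] 0x5801c (Pf.C 36 0x818281))
 Pq.nil))))))) (Pq.cons (Pq.D 5 (Pq.cons (Pq.L [] 16 (Pf.C 10 134))
 (Pq.cons (Pq.L [] 0x40000 (Pf.C 1 773))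
 (Pq.cons (Pq.L [] 529 (Pf.C 19 32902))
 (Pq.cons (Pq.L [] 8787 (Pf.C 36 0xc08181))
 (Pq.cons (Pq.L [] 16 (Pf.C 6 134))
 (Pq.cons (Pq.L [0] 0x1c677b (Pf.B 7 0 (Pf.C 0 0x800e18105) (Pf.C 0 0x1030c1c080)))
 Pq.nil))))))) (Pq.cons (Pq.D 5 (Pq.cons (Pq.L [] 16 (Pf.C 10 134))
 (Pq.cons (Pq.L [] 0x40000 (Pf.C 1 773))
 (Pq.cons (Pq.L [] 529 (Pf.C 19 32902))
 (Pq.cons (Pq.L [] 8787 (Pf.C 36 0xc08181))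
 (Pq.cons (Pq.L [] 16 (Pf.C 6 134))
 (Pq.cons (Pq.L [0] 0x1c677b (Pf.B 7 0 (Pf.C 0 0x800e18105) (Pf.C 0 0x1030c1c080)))
 Pq.nil))))))) (Pq.cons (Pq.L [] 8 (Pf.C 6 133))
 (Pq.cons (Pq.L [0] 33165 (Pf.C 49 0x50404004))
 Pq.nil))))))) (Pq.cons (Pq.L [] 4 (Pf.C 6 132))
 (Pq.cons (Pq.L [] 128 (Pf.C 2 514))
 Pq.nil))))))) (Pq.cons (Pq.D 3 (Pq.cons (Pq.L [] 4 (Pf.C 10 132))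
 (Pq.cons (Pq.D 4 (Pq.cons (Pq.L [] 8 (Pf.C 10 133))
 (Pq.cons (Pq.D 5 (Pq.cons (Pq.L [] 16 (Pf.C 10 134))
 (Pq.cons (Pq.L [] 0x5bbc0 (Pf.C 46 0x30c14202))
 (Pq.cons (Pq.L [] 529 (Pf.C 19 32902))
 (Pq.cons (Pq.L [] 66197 (Pf.C 36 0xc08201))
 (Pq.cons (Pq.L [] 16 (Pf.C 6 134))
 (Pq.cons (Pq.L [] 8210 (Pf.C 19 98435))
 Pq.nil))))))) (Pq.cons (Pq.D 5 (Pq.cons (Pq.L [] 16 (Pf.C 10 134))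
 (Pq.cons (Pq.L [] 0x40000 (Pf.C 1 773))
 (Pq.cons (Pq.L [] 529 (Pf.C 19 32902))
 (Pq.cons (Pq.L [] 66197 (Pf.C 36 0xc08201))
 (Pq.cons (Pq.L [] 16 (Pf.C 6 134))
 (Pq.cons (Pq.L [] 8210 (Pf.C 19 98435))
 Pq.nil))))))) (Pq.cons (Pq.D 5 (Pq.cons (Pq.L [] 16 (Pf.C 10 134))
 (Pq.cons (Pq.L [] 0x40000 (Pf.C 1 773))
 (Pq.cons (Pq.L [] 529 (Pf.C 19 32902))
 (Pq.cons (Pq.L [] 66197 (Pf.C 36 0xc08201))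
 (Pq.cons (Pq.L [] 16 (Pf.C 6 134))
 (Pq.cons (Pq.L [] 8210 (Pf.C 19 98435))
 Pq.nil))))))) (Pq.cons (Pq.L [] 8 (Pf.C 6 133))
 (Pq.cons (Pq.L [] 4106 (Pf.C 19 82051))
 Pq.nil))))))) (Pq.cons (Pq.D 4 (Pq.cons (Pq.L [] 8 (Pf.C 10 133))
 (Pq.cons (Pq.D 5 (Pq.cons (Pq.L [] 16 (Pf.C 10 134))
 (Pq.cons (Pq.L [] 0x40000 (Pf.C 1 773))
 (Pq.cons (Pq.L [] 529 (Pf.C 19 32902))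
 (Pq.cons (Pq.L [] 0x40000 (Pf.C 1 773))
 (Pq.cons (Pq.L [] 16 (Pf.C 6 134))
 (Pq.cons (Pq.L [] 8210 (Pf.C 19 98435))
 Pq.nil))))))) (Pq.cons (Pq.D 5 (Pq.cons (Pq.L [] 16 (Pf.C 10 134))
 (Pq.cons (Pq.L [] 0x40000 (Pf.C 1 773))
 (Pq.cons (Pq.L [] 529 (Pf.C 19 32902))
 (Pq.cons (Pq.L [] 0x40000 (Pf.C 1 773))
 (Pq.cons (Pq.L [] 16 (Pf.C 6 134))
 (Pq.cons (Pq.L [] 8210 (Pf.C 19 98435))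
 Pq.nil))))))) (Pq.cons (Pq.D 5 (Pq.cons (Pq.L [] 16 (Pf.C 10 134))
 (Pq.cons (Pq.L [] 0x40000 (Pf.C 1 773))
 (Pq.cons (Pq.L [] 529 (Pf.C 19 32902))
 (Pq.cons (Pq.L [] 0x40000 (Pf.C 1 773))
 (Pq.cons (Pq.L [] 16 (Pf.C 6 134))
 (Pq.cons (Pq.L [] 8210 (Pf.C 19 98435))
 Pq.nil))))))) (Pq.cons (Pq.L [] 8 (Pf.C 6 133))
 (Pq.cons (Pq.L [] 4106 (Pf.C 19 82051))
 Pq.nil))))))) (Pq.cons (Pq.D 4 (Pq.cons (Pq.L [] 8 (Pf.C 10 133))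
 (Pq.cons (Pq.D 5 (Pq.cons (Pq.L [] 16 (Pf.C 10 134))
 (Pq.cons (Pq.L [] 0x40000 (Pf.C 1 773))
 (Pq.cons (Pq.L [] 529 (Pf.C 19 32902))
 (Pq.cons (Pq.L [] 0x40000 (Pf.C 1 773))
 (Pq.cons (Pq.L [] 16 (Pf.C 6 134))
 (Pq.cons (Pq.L [] 8210 (Pf.C 19 98435))
 Pq.nil))))))) (Pq.cons (Pq.D 5 (Pq.cons (Pq.L [] 16 (Pf.C 10 134))
 (Pq.cons (Pq.L [] 0x40000 (Pf.C 1 773))
 (Pq.cons (Pq.L [] 529 (Pf.C 19 32902))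
 (Pq.cons (Pq.L [] 0x40000 (Pf.C 1 773))
 (Pq.cons (Pq.L [] 16 (Pf.C 6 134))
 (Pq.cons (Pq.L [] 8210 (Pf.C 19 98435))
 Pq.nil))))))) (Pq.cons (Pq.D 5 (Pq.cons (Pq.L [] 16 (Pf.C 10 134))
 (Pq.cons (Pq.L [] 0x40000 (Pf.C 1 773))
 (Pq.cons (Pq.L [] 529 (Pf.C 19 32902))
 (Pq.cons (Pq.L [] 0x40000 (Pf.C 1 773))
 (Pq.cons (Pq.L [] 16 (Pf.C 6 134))
 (Pq.cons (Pq.L [] 8210 (Pf.C 19 98435))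
 Pq.nil))))))) (Pq.cons (Pq.L [] 8 (Pf.C 6 133))
 (Pq.cons (Pq.L [] 4106 (Pf.C 19 82051))
 Pq.nil))))))) (Pq.cons (Pq.L [] 4 (Pf.C 6 132))
 (Pq.cons (Pq.L [] 2054 (Pf.C 19 65667))
 Pq.nil))))))) (Pq.cons (Pq.D 3 (Pq.cons (Pq.L [] 4 (Pf.C 10 132))
 (Pq.cons (Pq.D 4 (Pq.cons (Pq.L [] 8 (Pf.C 10 133))
 (Pq.cons (Pq.D 5 (Pq.cons (Pq.L [] 16 (Pf.C 10 134))
 (Pq.cons (Pq.L [] 0x5bbc0 (Pf.C 46 0x30c14202))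
 (Pq.cons (Pq.L [] 529 (Pf.C 19 32902))
 (Pq.cons (Pq.L [] 66197 (Pf.C 36 0xc08201))
 (Pq.cons (Pq.L [] 16 (Pf.C 6 134))
 (Pq.cons (Pq.L [] 0x4301a (Pf.C 36 0x618281))
 Pq.nil))))))) (Pq.cons (Pq.D 5 (Pq.cons (Pq.L [] 16 (Pf.C 10 134))
 (Pq.cons (Pq.L [] 0x40000 (Pf.C 1 773))
 (Pq.cons (Pq.L [] 529 (Pf.C 19 32902))
 (Pq.cons (Pq.L [] 66197 (Pf.C 36 0xc08201))
 (Pq.cons (Pq.L [] 16 (Pf.C 6 134))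
 (Pq.cons (Pq.L [0] 0x1c677b (Pf.B 7 0 (Pf.C 0 0x800e18105) (Pf.C 0 0x1030c1c080)))
 Pq.nil))))))) (Pq.cons (Pq.D 5 (Pq.cons (Pq.L [] 16 (Pf.C 10 134))
 (Pq.cons (Pq.L [] 0x40000 (Pf.C 1 773))
 (Pq.cons (Pq.L [] 529 (Pf.C 19 32902))
 (Pq.cons (Pq.L [] 66197 (Pf.C 36 0xc08201))
 (Pq.cons (Pq.L [] 16 (Pf.C 6 134))
 (Pq.cons (Pq.L [0] 0x1c677b (Pf.B 7 0 (Pf.C 0 0x800e18105) (Pf.C 0 0x1030c1c080)))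
 Pq.nil))))))) (Pq.cons (Pq.L [] 8 (Pf.C 6 133))
 (Pq.cons (Pq.L [0] 4427 (Pf.C 49 0x50404003))
 Pq.nil))))))) (Pq.cons (Pq.D 4 (Pq.cons (Pq.L [] 8 (Pf.C 10 133))
 (Pq.cons (Pq.D 5 (Pq.cons (Pq.L [] 16 (Pf.C 10 134))
 (Pq.cons (Pq.L [] 0x40000 (Pf.C 1 773))
 (Pq.cons (Pq.L [] 529 (Pf.C 19 32902))
 (Pq.cons (Pq.L [] 0x40000 (Pf.C 1 773))
 (Pq.cons (Pq.L [] 16 (Pf.C 6 134))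
 (Pq.cons (Pq.L [] 65556 (Pf.C 19 98436))
 Pq.nil))))))) (Pq.cons (Pq.D 5 (Pq.cons (Pq.L [] 16 (Pf.C 10 134))
 (Pq.cons (Pq.L [] 0x40000 (Pf.C 1 773))
 (Pq.cons (Pq.L [] 529 (Pf.C 19 32902))
 (Pq.cons (Pq.L [] 0x40000 (Pf.C 1 773))
 (Pq.cons (Pq.L [] 16 (Pf.C 6 134))
 (Pq.cons (Pq.L [] 65556 (Pf.C 19 98436))
 Pq.nil))))))) (Pq.cons (Pq.D 5 (Pq.cons (Pq.L [] 16 (Pf.C 10 134))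
 (Pq.cons (Pq.L [] 0x40000 (Pf.C 1 773))
 (Pq.cons (Pq.L [] 529 (Pf.C 19 32902))
 (Pq.cons (Pq.L [] 0x40000 (Pf.C 1 773))
 (Pq.cons (Pq.L [] 16 (Pf.C 6 134))
 (Pq.cons (Pq.L [] 65556 (Pf.C 19 98436))
 Pq.nil))))))) (Pq.cons (Pq.L [] 8 (Pf.C 6 133))
 (Pq.cons (Pq.L [] 32780 (Pf.C 19 82052))
 Pq.nil))))))) (Pq.cons (Pq.D 4 (Pq.cons (Pq.L [] 8 (Pf.C 10 133))
 (Pq.cons (Pq.D 5 (Pq.cons (Pq.L [] 16 (Pf.C 10 134))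
 (Pq.cons (Pq.L [] 0x40000 (Pf.C 1 773))
 (Pq.cons (Pq.L [] 529 (Pf.C 19 32902))
 (Pq.cons (Pq.L [] 0x40000 (Pf.C 1 773))
 (Pq.cons (Pq.L [] 16 (Pf.C 6 134))
 (Pq.cons (Pq.L [] 0x4301a (Pf.C 36 0x618281))
 Pq.nil))))))) (Pq.cons (Pq.D 5 (Pq.cons (Pq.L [] 16 (Pf.C 10 134))
 (Pq.cons (Pq.L [] 0x40000 (Pf.C 1 773))
 (Pq.cons (Pq.L [] 529 (Pf.C 19 32902))
 (Pq.cons (Pq.L [] 0x40000 (Pf.C 1 773))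
 (Pq.cons (Pq.L [] 16 (Pf.C 6 134))
 (Pq.cons (Pq.L [0] 0x1c677b (Pf.B 7 0 (Pf.C 0 0x800e18105) (Pf.C 0 0x1030c1c080)))
 Pq.nil))))))) (Pq.cons (Pq.D 5 (Pq.cons (Pq.L [] 16 (Pf.C 10 134))
 (Pq.cons (Pq.L [] 0x40000 (Pf.C 1 773))
 (Pq.cons (Pq.L [] 529 (Pf.C 19 32902))
 (Pq.cons (Pq.L [] 0x40000 (Pf.C 1 773))
 (Pq.cons (Pq.L [] 16 (Pf.C 6 134))
 (Pq.cons (Pq.L [0] 0x1c677b (Pf.B 7 0 (Pf.C 0 0x800e18105) (Pf.C 0 0x1030c1c080)))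
 Pq.nil))))))) (Pq.cons (Pq.L [] 8 (Pf.C 6 133))
 (Pq.cons (Pq.L [0] 4427 (Pf.C 49 0x50404003))
 Pq.nil))))))) (Pq.cons (Pq.L [] 4 (Pf.C 6 132))
 (Pq.cons (Pq.L [0] 2247 (Pf.C 49 0x40404003))
 Pq.nil))))))) (Pq.cons (Pq.L [] 2 (Pf.C 6 131))
 (Pq.cons (Pq.L [] 64 (Pf.C 2 386))
 Pq.nil))))))) Pq.nil))))))) Pq.nil)
theorem s1_o41 : AllRef s1_T s1_G63 (List.take 1 (List.drop 1 (List.take 3 (List.flatMap (splitP 0) (List.take 1 (applyObl bD_T 3 [75,77,79,81,82,84] [1,1,1,1,2,2] [])))))) :=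
  chkPq_sound s1_o41c _ (by decide +kernel)
noncomputable def s1_o42c : Pq := (Pq.cons (Pq.D 2 (Pq.cons (Pq.L [] 64 (Pf.C 1 386))
 (Pq.cons (Pq.L [] 64 (Pf.C 1 386))
 (Pq.cons (Pq.L [] 64 (Pf.C 1 386))
 (Pq.cons (Pq.L [] 64 (Pf.C 1 386))
 (Pq.cons (Pq.L [] 67 (Pf.C 29 16643))
 (Pq.cons (Pq.L [] 67 (Pf.C 29 16643))
 Pq.nil))))))) (Pq.cons (Pq.D 2 (Pq.cons (Pq.L [] 64 (Pf.C 1 386))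
 (Pq.cons (Pq.L [] 64 (Pf.C 1 386))
 (Pq.cons (Pq.L [] 64 (Pf.C 1 386))
 (Pq.cons (Pq.L [] 64 (Pf.C 1 386))
 (Pq.cons (Pq.D 3 (Pq.cons (Pq.L [] 128 (Pf.C 1 514))
 (Pq.cons (Pq.L [] 2054 (Pf.C 28 65667))
 (Pq.cons (Pq.L [] 128 (Pf.C 1 514))
 (Pq.cons (Pq.L [] 128 (Pf.C 1 514))
 (Pq.cons (Pq.D 4 (Pq.cons (Pq.L [] 256 (Pf.C 1 642))
 (Pq.cons (Pq.L [] 4106 (Pf.C 28 82051))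
 (Pq.cons (Pq.L [] 256 (Pf.C 1 642))
 (Pq.cons (Pq.L [] 256 (Pf.C 1 642))
 (Pq.cons (Pq.D 5 (Pq.cons (Pq.L [] 0x40018 (Pf.C 29 17157))
 (Pq.cons (Pq.L [] 8210 (Pf.C 28 98435))
 (Pq.cons (Pq.D 6 (Pq.cons (Pq.L [0] 17507 (Pf.C 46 0x10608380))
 (Pq.cons (Pq.L [] 16418 (Pf.C 28 0x1c083))
 (Pq.cons (Pq.L [] 0x100000 (Pf.C 1 902))
 (Pq.cons (Pq.L [] 0x100000 (Pf.C 1 902))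
 (Pq.cons (Pq.L [] 1057 (Pf.C 28 32903))
 (Pq.cons (Pq.L [] 1057 (Pf.C 19 0x1c101))
 Pq.nil))))))) (Pq.cons (Pq.D 6 (Pq.cons (Pq.L [0] 17507 (Pf.C 46 0x10608380))
 (Pq.cons (Pq.L [] 16418 (Pf.C 28 0x1c083))
 (Pq.cons (Pq.L [] 0x100000 (Pf.C 1 902))
 (Pq.cons (Pq.L [] 0x100000 (Pf.C 1 902))
 (Pq.cons (Pq.L [] 1057 (Pf.C 28 32903))
 (Pq.cons (Pq.L [] 1057 (Pf.C 19 0x1c101))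
 Pq.nil))))))) (Pq.cons (Pq.L [] 529 (Pf.C 28 32902))
 (Pq.cons (Pq.L [] 529 (Pf.C 19 98561))
 Pq.nil))))))) (Pq.cons (Pq.D 5 (Pq.cons (Pq.L [] 0x40018 (Pf.C 29 17157))
 (Pq.cons (Pq.L [] 8210 (Pf.C 28 98435))
 (Pq.cons (Pq.D 6 (Pq.cons (Pq.L [0] 17507 (Pf.C 46 0x10608380))
 (Pq.cons (Pq.L [] 0x80028 (Pf.C 19 82817))
 (Pq.cons (Pq.L [] 0x1c7740 (Pf.C 40 0x70c0c105))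
 (Pq.cons (Pq.L [] 0x80028 (Pf.C 19 82817))
 (Pq.cons (Pq.L [] 1057 (Pf.C 28 32903))
 (Pq.cons (Pq.L [] 1057 (Pf.C 19 0x1c101))
 Pq.nil))))))) (Pq.cons (Pq.D 6 (Pq.cons (Pq.L [0] 17507 (Pf.C 46 0x10608380))
 (Pq.cons (Pq.L [] 0x80028 (Pf.C 19 82817))
 (Pq.cons (Pq.L [] 0x1c7740 (Pf.C 40 0x70c0c105))
 (Pq.cons (Pq.L [] 0x80028 (Pf.C 19 82817))
 (Pq.cons (Pq.L [] 1057 (Pf.C 28 32903))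
 (Pq.cons (Pq.L [] 1057 (Pf.C 19 0x1c101))
 Pq.nil))))))) (Pq.cons (Pq.L [] 529 (Pf.C 28 32902))
 (Pq.cons (Pq.L [] 529 (Pf.C 19 98561))
 Pq.nil))))))) Pq.nil))))))) (Pq.cons (Pq.D 4 (Pq.cons (Pq.L [] 256 (Pf.C 1 642))
 (Pq.cons (Pq.L [] 32780 (Pf.C 19 66177))
 (Pq.cons (Pq.L [] 256 (Pf.C 1 642))
 (Pq.cons (Pq.L [] 32780 (Pf.C 19 66177))
 (Pq.cons (Pq.D 5 (Pq.cons (Pq.L [] 0x40018 (Pf.C 29 17157))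
 (Pq.cons (Pq.L [] 65556 (Pf.C 19 66305))
 (Pq.cons (Pq.L [0] 0x5801c (Pf.C 42 0x40a18080))
 (Pq.cons (Pq.L [] 65556 (Pf.C 19 66305))
 (Pq.cons (Pq.L [] 529 (Pf.C 28 32902))
 (Pq.cons (Pq.L [] 529 (Pf.C 19 98561))
 Pq.nil))))))) (Pq.cons (Pq.D 5 (Pq.cons (Pq.L [] 0x40018 (Pf.C 29 17157))
 (Pq.cons (Pq.L [] 65556 (Pf.C 19 66305))
 (Pq.cons (Pq.D 6 (Pq.cons (Pq.L [0] 17507 (Pf.C 46 0x10608380))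
 (Pq.cons (Pq.L [] 0x20024 (Pf.C 19 66433))
 (Pq.cons (Pq.L [] 0x1c7740 (Pf.C 40 0x70c0c105))
 (Pq.cons (Pq.L [] 0x20024 (Pf.C 19 66433))
 (Pq.cons (Pq.L [] 1057 (Pf.C 28 32903))
 (Pq.cons (Pq.L [] 1057 (Pf.C 19 0x1c101))
 Pq.nil))))))) (Pq.cons (Pq.L [] 65556 (Pf.C 19 66305))
 (Pq.cons (Pq.L [] 529 (Pf.C 28 32902))
 (Pq.cons (Pq.L [] 529 (Pf.C 19 98561))
 Pq.nil))))))) Pq.nil))))))) Pq.nil))))))) (Pq.cons (Pq.D 3 (Pq.cons (Pq.L [] 128 (Pf.C 1 514))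
 (Pq.cons (Pq.L [] 2054 (Pf.C 19 49665))
 (Pq.cons (Pq.L [] 128 (Pf.C 1 514))
 (Pq.cons (Pq.L [] 2054 (Pf.C 19 49665))
 (Pq.cons (Pq.D 4 (Pq.cons (Pq.L [] 256 (Pf.C 1 642))
 (Pq.cons (Pq.L [] 4106 (Pf.C 19 49793))
 (Pq.cons (Pq.L [] 256 (Pf.C 1 642))
 (Pq.cons (Pq.L [] 4106 (Pf.C 19 49793))
 (Pq.cons (Pq.D 5 (Pq.cons (Pq.L [] 0x40018 (Pf.C 29 17157))
 (Pq.cons (Pq.L [] 8210 (Pf.C 19 49921))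
 (Pq.cons (Pq.L [0] 0x4301a (Pf.C 42 0x30a18080))
 (Pq.cons (Pq.L [] 8210 (Pf.C 19 49921))
 (Pq.cons (Pq.L [] 529 (Pf.C 28 32902))
 (Pq.cons (Pq.L [] 529 (Pf.C 19 98561))
 Pq.nil))))))) (Pq.cons (Pq.D 5 (Pq.cons (Pq.L [] 0x40018 (Pf.C 29 17157))
 (Pq.cons (Pq.L [] 8210 (Pf.C 19 49921))
 (Pq.cons (Pq.D 6 (Pq.cons (Pq.L [0] 17507 (Pf.C 46 0x10608380))
 (Pq.cons (Pq.L [] 16418 (Pf.C 19 50049))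
 (Pq.cons (Pq.L [] 0x1f8780 (Pf.C 40 0x70c10105))
 (Pq.cons (Pq.L [] 16418 (Pf.C 19 50049))
 (Pq.cons (Pq.L [] 1057 (Pf.C 28 32903))
 (Pq.cons (Pq.L [] 1057 (Pf.C 19 0x1c101))
 Pq.nil))))))) (Pq.cons (Pq.L [] 8210 (Pf.C 19 49921))
 (Pq.cons (Pq.L [] 529 (Pf.C 28 32902))
 (Pq.cons (Pq.L [] 529 (Pf.C 19 98561))
 Pq.nil))))))) Pq.nil))))))) (Pq.cons (Pq.D 4 (Pq.cons (Pq.L [] 256 (Pf.C 1 642))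
 (Pq.cons (Pq.L [] 4106 (Pf.C 19 49793))
 (Pq.cons (Pq.L [] 256 (Pf.C 1 642))
 (Pq.cons (Pq.L [] 4106 (Pf.C 19 49793))
 (Pq.cons (Pq.D 5 (Pq.cons (Pq.L [] 0x40018 (Pf.C 29 17157))
 (Pq.cons (Pq.L [] 8210 (Pf.C 19 49921))
 (Pq.cons (Pq.L [0] 0x4301a (Pf.C 42 0x30a18080))
 (Pq.cons (Pq.L [] 8210 (Pf.C 19 49921))
 (Pq.cons (Pq.L [] 529 (Pf.C 28 32902))
 (Pq.cons (Pq.L [] 529 (Pf.C 19 98561))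
 Pq.nil))))))) (Pq.cons (Pq.D 5 (Pq.cons (Pq.L [] 0x40018 (Pf.C 29 17157))
 (Pq.cons (Pq.L [] 8210 (Pf.C 19 49921))
 (Pq.cons (Pq.D 6 (Pq.cons (Pq.L [0] 17507 (Pf.C 46 0x10608380))
 (Pq.cons (Pq.L [] 16418 (Pf.C 19 50049))
 (Pq.cons (Pq.L [] 0x100000 (Pf.C 1 902))
 (Pq.cons (Pq.L [] 16418 (Pf.C 19 50049))
 (Pq.cons (Pq.L [] 1057 (Pf.C 28 32903))
 (Pq.cons (Pq.L [] 1057 (Pf.C 19 0x1c101))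
 Pq.nil))))))) (Pq.cons (Pq.L [] 8210 (Pf.C 19 49921))
 (Pq.cons (Pq.L [] 529 (Pf.C 28 32902))
 (Pq.cons (Pq.L [] 529 (Pf.C 19 98561))
 Pq.nil))))))) Pq.nil))))))) Pq.nil))))))) Pq.nil))))))) (Pq.cons (Pq.D 2 (Pq.cons (Pq.L [] 64 (Pf.C 1 386))
 (Pq.cons (Pq.L [] 64 (Pf.C 1 386))
 (Pq.cons (Pq.L [] 64 (Pf.C 1 386))
 (Pq.cons (Pq.L [] 64 (Pf.C 1 386))
 (Pq.cons (Pq.D 3 (Pq.cons (Pq.L [] 128 (Pf.C 1 514))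
 (Pq.cons (Pq.L [] 2054 (Pf.C 28 65667))
 (Pq.cons (Pq.L [] 128 (Pf.C 1 514))
 (Pq.cons (Pq.L [] 128 (Pf.C 1 514))
 (Pq.cons (Pq.D 4 (Pq.cons (Pq.L [] 256 (Pf.C 1 642))
 (Pq.cons (Pq.L [] 4106 (Pf.C 28 82051))
 (Pq.cons (Pq.L [] 256 (Pf.C 1 642))
 (Pq.cons (Pq.L [] 256 (Pf.C 1 642))
 (Pq.cons (Pq.D 5 (Pq.cons (Pq.L [] 0x40018 (Pf.C 29 17157))
 (Pq.cons (Pq.L [] 8210 (Pf.C 28 98435))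
 (Pq.cons (Pq.D 6 (Pq.cons (Pq.L [] 0x106673 (Pf.C 54 0x70c0c101))
 (Pq.cons (Pq.L [] 16418 (Pf.C 28 0x1c083))
 (Pq.cons (Pq.L [] 0x100000 (Pf.C 1 902))
 (Pq.cons (Pq.L [0] 17507 (Pf.C 55 0x70608080))
 (Pq.cons (Pq.L [] 0x106673 (Pf.C 53 0x70c0c101))
 (Pq.cons (Pq.L [0] 17507 (Pf.C 42 0x70608080))
 Pq.nil))))))) (Pq.cons (Pq.L [0] 8787 (Pf.C 55 0x60608080))
 (Pq.cons (Pq.L [] 0x4335b (Pf.C 50 0x10c14182))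
 (Pq.cons (Pq.L [0] 8787 (Pf.C 42 0x60608080))
 Pq.nil))))))) (Pq.cons (Pq.D 5 (Pq.cons (Pq.L [] 0x40018 (Pf.C 29 17157))
 (Pq.cons (Pq.L [] 8210 (Pf.C 28 98435))
 (Pq.cons (Pq.D 6 (Pq.cons (Pq.L [] 0x106673 (Pf.C 54 0x70c0c101))
 (Pq.cons (Pq.L [] 0x80028 (Pf.C 19 82817))
 (Pq.cons (Pq.L [] 0x1c7740 (Pf.C 40 0x70c0c105))
 (Pq.cons (Pq.L [] 0x80028 (Pf.C 19 82817))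
 (Pq.cons (Pq.L [] 0x106673 (Pf.C 53 0x70c0c101))
 (Pq.cons (Pq.L [0] 17507 (Pf.C 42 0x70608080))
 Pq.nil))))))) (Pq.cons (Pq.L [0] 8787 (Pf.C 55 0x60608080))
 (Pq.cons (Pq.L [] 0x4335b (Pf.C 50 0x10c14182))
 (Pq.cons (Pq.L [0] 8787 (Pf.C 42 0x60608080))
 Pq.nil))))))) Pq.nil))))))) (Pq.cons (Pq.D 4 (Pq.cons (Pq.L [] 256 (Pf.C 1 642))
 (Pq.cons (Pq.L [] 32780 (Pf.C 19 66177))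
 (Pq.cons (Pq.L [] 256 (Pf.C 1 642))
 (Pq.cons (Pq.L [] 32780 (Pf.C 19 66177))
 (Pq.cons (Pq.D 5 (Pq.cons (Pq.L [] 0x40018 (Pf.C 29 17157))
 (Pq.cons (Pq.L [] 65556 (Pf.C 19 66305))
 (Pq.cons (Pq.L [0] 0x5801c (Pf.C 42 0x40a18080))
 (Pq.cons (Pq.L [] 65556 (Pf.C 19 66305))
 (Pq.cons (Pq.L [] 0x4335b (Pf.C 50 0x10c14182))
 (Pq.cons (Pq.L [] 0x5801c (Pf.C 33 0x214304))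
 Pq.nil))))))) (Pq.cons (Pq.D 5 (Pq.cons (Pq.L [] 0x40018 (Pf.C 29 17157))
 (Pq.cons (Pq.L [] 65556 (Pf.C 19 66305))
 (Pq.cons (Pq.D 6 (Pq.cons (Pq.L [] 0x106673 (Pf.C 54 0x70c0c101))
 (Pq.cons (Pq.L [] 0x20024 (Pf.C 19 66433))
 (Pq.cons (Pq.L [] 0x1c7740 (Pf.C 40 0x70c0c105))
 (Pq.cons (Pq.L [] 0x20024 (Pf.C 19 66433))
 (Pq.cons (Pq.L [0] 0x130034 (Pf.C 42 0x40e18080))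
 (Pq.cons (Pq.L [0] 17507 (Pf.C 42 0x70608080))
 Pq.nil))))))) (Pq.cons (Pq.L [] 65556 (Pf.C 19 66305))
 (Pq.cons (Pq.L [] 0x5801c (Pf.C 33 0x218284))
 (Pq.cons (Pq.L [0] 8787 (Pf.C 42 0x60608080))
 Pq.nil))))))) Pq.nil))))))) Pq.nil))))))) (Pq.cons (Pq.D 3 (Pq.cons (Pq.L [] 128 (Pf.C 1 514))
 (Pq.cons (Pq.L [] 2054 (Pf.C 19 49665))
 (Pq.cons (Pq.L [] 128 (Pf.C 1 514))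
 (Pq.cons (Pq.L [] 2054 (Pf.C 19 49665))
 (Pq.cons (Pq.D 4 (Pq.cons (Pq.L [] 256 (Pf.C 1 642))
 (Pq.cons (Pq.L [] 4106 (Pf.C 19 49793))
 (Pq.cons (Pq.L [] 256 (Pf.C 1 642))
 (Pq.cons (Pq.L [] 4106 (Pf.C 19 49793))
 (Pq.cons (Pq.D 5 (Pq.cons (Pq.L [] 0x40018 (Pf.C 29 17157))
 (Pq.cons (Pq.L [] 8210 (Pf.C 19 49921))
 (Pq.cons (Pq.L [0] 0x4301a (Pf.C 42 0x30a18080))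
 (Pq.cons (Pq.L [] 8210 (Pf.C 19 49921))
 (Pq.cons (Pq.L [] 0x4335b (Pf.C 50 0x10c14182))
 (Pq.cons (Pq.L [] 0x4301a (Pf.C 33 0x214303))
 Pq.nil))))))) (Pq.cons (Pq.D 5 (Pq.cons (Pq.L [] 0x40018 (Pf.C 29 17157))
 (Pq.cons (Pq.L [] 8210 (Pf.C 19 49921))
 (Pq.cons (Pq.D 6 (Pq.cons (Pq.L [] 0x106673 (Pf.C 54 0x70c0c101))
 (Pq.cons (Pq.L [] 16418 (Pf.C 19 50049))
 (Pq.cons (Pq.L [] 0x1f8780 (Pf.C 40 0x70c10105))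
 (Pq.cons (Pq.L [] 16418 (Pf.C 19 50049))
 (Pq.cons (Pq.L [0] 0x106032 (Pf.C 42 0x30e18080))
 (Pq.cons (Pq.L [0] 0x204a5 (Pf.C 42 0x70808080))
 Pq.nil))))))) (Pq.cons (Pq.L [] 8210 (Pf.C 19 49921))
 (Pq.cons (Pq.L [] 0x4301a (Pf.C 33 0x218283))
 (Pq.cons (Pq.L [0] 66197 (Pf.C 42 0x60808080))
 Pq.nil))))))) Pq.nil))))))) (Pq.cons (Pq.D 4 (Pq.cons (Pq.L [] 256 (Pf.C 1 642))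
 (Pq.cons (Pq.L [] 4106 (Pf.C 19 49793))
 (Pq.cons (Pq.L [] 256 (Pf.C 1 642))
 (Pq.cons (Pq.L [] 4106 (Pf.C 19 49793))
 (Pq.cons (Pq.D 5 (Pq.cons (Pq.L [] 0x40018 (Pf.C 29 17157))
 (Pq.cons (Pq.L [] 8210 (Pf.C 19 49921))
 (Pq.cons (Pq.L [0] 0x4301a (Pf.C 42 0x30a18080))
 (Pq.cons (Pq.L [] 8210 (Pf.C 19 49921))
 (Pq.cons (Pq.L [] 0x4335b (Pf.C 50 0x10c14182))
 (Pq.cons (Pq.L [] 0x4301a (Pf.C 33 0x214303))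
 Pq.nil))))))) (Pq.cons (Pq.D 5 (Pq.cons (Pq.L [] 0x40018 (Pf.C 29 17157))
 (Pq.cons (Pq.L [] 8210 (Pf.C 19 49921))
 (Pq.cons (Pq.D 6 (Pq.cons (Pq.L [] 0x106673 (Pf.C 54 0x70c0c101))
 (Pq.cons (Pq.L [] 16418 (Pf.C 19 50049))
 (Pq.cons (Pq.L [] 0x100000 (Pf.C 1 902))
 (Pq.cons (Pq.L [] 16418 (Pf.C 19 50049))
 (Pq.cons (Pq.L [0] 0x106032 (Pf.C 42 0x30e18080))
 (Pq.cons (Pq.L [] 0x106673 (Pf.C 53 0x70c0c101))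
 Pq.nil))))))) (Pq.cons (Pq.L [] 8210 (Pf.C 19 49921))
 (Pq.cons (Pq.L [] 0x4301a (Pf.C 33 0x218283))
 (Pq.cons (Pq.L [] 0x4335b (Pf.C 50 0x10c14182))
 Pq.nil))))))) Pq.nil))))))) Pq.nil))))))) Pq.nil))))))) (Pq.cons (Pq.D 2 (Pq.cons (Pq.L [] 64 (Pf.C 1 386))
 (Pq.cons (Pq.L [] 64 (Pf.C 1 386))
 (Pq.cons (Pq.L [] 64 (Pf.C 1 386))
 (Pq.cons (Pq.L [] 64 (Pf.C 1 386))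
 (Pq.cons (Pq.D 3 (Pq.cons (Pq.L [] 128 (Pf.C 1 514))
 (Pq.cons (Pq.L [] 2054 (Pf.C 28 65667))
 (Pq.cons (Pq.L [] 128 (Pf.C 1 514))
 (Pq.cons (Pq.L [] 128 (Pf.C 1 514))
 (Pq.cons (Pq.D 4 (Pq.cons (Pq.L [] 256 (Pf.C 1 642))
 (Pq.cons (Pq.L [] 4106 (Pf.C 28 82051))
 (Pq.cons (Pq.L [] 256 (Pf.C 1 642))
 (Pq.cons (Pq.L [] 256 (Pf.C 1 642))
 (Pq.cons (Pq.D 5 (Pq.cons (Pq.L [] 0x40018 (Pf.C 29 17157))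
 (Pq.cons (Pq.L [] 8210 (Pf.C 28 98435))
 (Pq.cons (Pq.D 6 (Pq.cons (Pq.L [] 0x106673 (Pf.C 54 0x70c0c101))
 (Pq.cons (Pq.L [] 16418 (Pf.C 28 0x1c083))
 (Pq.cons (Pq.L [] 0x100000 (Pf.C 1 902))
 (Pq.cons (Pq.L [] 0x100000 (Pf.C 1 902))
 (Pq.cons (Pq.L [] 0x106673 (Pf.C 53 0x70c0c101))
 (Pq.cons (Pq.L [] 1057 (Pf.C 19 0x1c101))
 Pq.nil))))))) (Pq.cons (Pq.D 6 (Pq.cons (Pq.L [] 0x106673 (Pf.C 54 0x70c0c101))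
 (Pq.cons (Pq.L [] 16418 (Pf.C 28 0x1c083))
 (Pq.cons (Pq.L [] 0x100000 (Pf.C 1 902))
 (Pq.cons (Pq.L [] 0x100000 (Pf.C 1 902))
 (Pq.cons (Pq.L [] 0x106673 (Pf.C 53 0x70c0c101))
 (Pq.cons (Pq.L [] 1057 (Pf.C 19 0x1c101))
 Pq.nil))))))) (Pq.cons (Pq.L [] 0x4335b (Pf.C 50 0x10c14182))
 (Pq.cons (Pq.L [] 529 (Pf.C 19 98561))
 Pq.nil))))))) (Pq.cons (Pq.D 5 (Pq.cons (Pq.L [] 0x40018 (Pf.C 29 17157))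
 (Pq.cons (Pq.L [] 8210 (Pf.C 28 98435))
 (Pq.cons (Pq.D 6 (Pq.cons (Pq.L [] 0x106673 (Pf.C 54 0x70c0c101))
 (Pq.cons (Pq.L [] 0x80028 (Pf.C 19 82817))
 (Pq.cons (Pq.L [] 0x1c7740 (Pf.C 40 0x70c0c105))
 (Pq.cons (Pq.L [] 0x80028 (Pf.C 19 82817))
 (Pq.cons (Pq.L [] 0x106673 (Pf.C 53 0x70c0c101))
 (Pq.cons (Pq.L [] 1057 (Pf.C 19 0x1c101))
 Pq.nil))))))) (Pq.cons (Pq.D 6 (Pq.cons (Pq.L [] 0x106673 (Pf.C 54 0x70c0c101))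
 (Pq.cons (Pq.L [] 0x80028 (Pf.C 19 82817))
 (Pq.cons (Pq.L [] 0x1c7740 (Pf.C 40 0x70c0c105))
 (Pq.cons (Pq.L [] 0x80028 (Pf.C 19 82817))
 (Pq.cons (Pq.L [] 0x106673 (Pf.C 53 0x70c0c101))
 (Pq.cons (Pq.L [] 1057 (Pf.C 19 0x1c101))
 Pq.nil))))))) (Pq.cons (Pq.L [] 0x4335b (Pf.C 50 0x10c14182))
 (Pq.cons (Pq.L [] 529 (Pf.C 19 98561))
 Pq.nil))))))) Pq.nil))))))) (Pq.cons (Pq.D 4 (Pq.cons (Pq.L [] 256 (Pf.C 1 642))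
 (Pq.cons (Pq.L [] 32780 (Pf.C 19 66177))
 (Pq.cons (Pq.L [] 256 (Pf.C 1 642))
 (Pq.cons (Pq.L [] 32780 (Pf.C 19 66177))
 (Pq.cons (Pq.D 5 (Pq.cons (Pq.L [] 0x40018 (Pf.C 29 17157))
 (Pq.cons (Pq.L [] 65556 (Pf.C 19 66305))
 (Pq.cons (Pq.L [0] 0x5801c (Pf.C 42 0x40a18080))
 (Pq.cons (Pq.L [] 65556 (Pf.C 19 66305))
 (Pq.cons (Pq.L [] 0x4335b (Pf.C 50 0x10c14182))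
 (Pq.cons (Pq.L [] 529 (Pf.C 19 98561))
 Pq.nil))))))) (Pq.cons (Pq.D 5 (Pq.cons (Pq.L [] 0x40018 (Pf.C 29 17157))
 (Pq.cons (Pq.L [] 65556 (Pf.C 19 66305))
 (Pq.cons (Pq.D 6 (Pq.cons (Pq.L [] 0x106673 (Pf.C 54 0x70c0c101))
 (Pq.cons (Pq.L [] 0x20024 (Pf.C 19 66433))
 (Pq.cons (Pq.L [] 0x1c7740 (Pf.C 40 0x70c0c105))
 (Pq.cons (Pq.L [] 0x20024 (Pf.C 19 66433))
 (Pq.cons (Pq.L [0] 0x130034 (Pf.C 42 0x40e18080))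
 (Pq.cons (Pq.L [] 1057 (Pf.C 19 0x1c101))
 Pq.nil))))))) (Pq.cons (Pq.L [] 65556 (Pf.C 19 66305))
 (Pq.cons (Pq.L [] 0x5801c (Pf.C 33 0x218284))
 (Pq.cons (Pq.L [] 529 (Pf.C 19 98561))
 Pq.nil))))))) Pq.nil))))))) Pq.nil))))))) (Pq.cons (Pq.D 3 (Pq.cons (Pq.L [] 128 (Pf.C 1 514))
 (Pq.cons (Pq.L [] 2054 (Pf.C 19 49665))
 (Pq.cons (Pq.L [] 128 (Pf.C 1 514))
 (Pq.cons (Pq.L [] 2054 (Pf.C 19 49665))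
 (Pq.cons (Pq.D 4 (Pq.cons (Pq.L [] 256 (Pf.C 1 642))
 (Pq.cons (Pq.L [] 4106 (Pf.C 19 49793))
 (Pq.cons (Pq.L [] 256 (Pf.C 1 642))
 (Pq.cons (Pq.L [] 4106 (Pf.C 19 49793))
 (Pq.cons (Pq.D 5 (Pq.cons (Pq.L [] 0x40018 (Pf.C 29 17157))
 (Pq.cons (Pq.L [] 8210 (Pf.C 19 49921))
 (Pq.cons (Pq.L [0] 0x4301a (Pf.C 42 0x30a18080))
 (Pq.cons (Pq.L [] 8210 (Pf.C 19 49921))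
 (Pq.cons (Pq.L [] 0x4335b (Pf.C 50 0x10c14182))
 (Pq.cons (Pq.L [] 529 (Pf.C 19 98561))
 Pq.nil))))))) (Pq.cons (Pq.D 5 (Pq.cons (Pq.L [] 0x40018 (Pf.C 29 17157))
 (Pq.cons (Pq.L [] 8210 (Pf.C 19 49921))
 (Pq.cons (Pq.D 6 (Pq.cons (Pq.L [] 0x106673 (Pf.C 54 0x70c0c101))
 (Pq.cons (Pq.L [] 16418 (Pf.C 19 50049))
 (Pq.cons (Pq.L [] 0x1f8780 (Pf.C 40 0x70c10105))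
 (Pq.cons (Pq.L [] 16418 (Pf.C 19 50049))
 (Pq.cons (Pq.L [0] 0x106032 (Pf.C 42 0x30e18080))
 (Pq.cons (Pq.L [] 1057 (Pf.C 19 0x1c101))
 Pq.nil))))))) (Pq.cons (Pq.L [] 8210 (Pf.C 19 49921))
 (Pq.cons (Pq.L [] 0x4301a (Pf.C 33 0x218283))
 (Pq.cons (Pq.L [] 529 (Pf.C 19 98561))
 Pq.nil))))))) Pq.nil))))))) (Pq.cons (Pq.D 4 (Pq.cons (Pq.L [] 256 (Pf.C 1 642))
 (Pq.cons (Pq.L [] 4106 (Pf.C 19 49793))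
 (Pq.cons (Pq.L [] 256 (Pf.C 1 642))
 (Pq.cons (Pq.L [] 4106 (Pf.C 19 49793))
 (Pq.cons (Pq.D 5 (Pq.cons (Pq.L [] 0x40018 (Pf.C 29 17157))
 (Pq.cons (Pq.L [] 8210 (Pf.C 19 49921))
 (Pq.cons (Pq.L [0] 0x4301a (Pf.C 42 0x30a18080))
 (Pq.cons (Pq.L [] 8210 (Pf.C 19 49921))
 (Pq.cons (Pq.L [] 0x4335b (Pf.C 50 0x10c14182))
 (Pq.cons (Pq.L [] 529 (Pf.C 19 98561))
 Pq.nil))))))) (Pq.cons (Pq.D 5 (Pq.cons (Pq.L [] 0x40018 (Pf.C 29 17157))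
 (Pq.cons (Pq.L [] 8210 (Pf.C 19 49921))
 (Pq.cons (Pq.D 6 (Pq.cons (Pq.L [] 0x106673 (Pf.C 54 0x70c0c101))
 (Pq.cons (Pq.L [] 16418 (Pf.C 19 50049))
 (Pq.cons (Pq.L [] 0x100000 (Pf.C 1 902))
 (Pq.cons (Pq.L [] 16418 (Pf.C 19 50049))
 (Pq.cons (Pq.L [0] 0x106032 (Pf.C 42 0x30e18080))
 (Pq.cons (Pq.L [] 1057 (Pf.C 19 0x1c101))
 Pq.nil))))))) (Pq.cons (Pq.L [] 8210 (Pf.C 19 49921))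
 (Pq.cons (Pq.L [] 0x4301a (Pf.C 33 0x218283))
 (Pq.cons (Pq.L [] 529 (Pf.C 19 98561))
 Pq.nil))))))) Pq.nil))))))) Pq.nil))))))) Pq.nil))))))) Pq.nil))))
theorem s1_o42 : AllRef s1_T s1_G63 (List.take 4 (List.flatMap (splitP 1) (List.drop 1 (List.drop 1 (List.take 3 (List.flatMap (splitP 0) (List.take 1 (applyObl bD_T 3 [75,77,79,81,82,84] [1,1,1,1,2,2] [])))))))) :=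
  chkPq_sound s1_o42c _ (by decide +kernel)
noncomputable def s1_o43c : Pq := (Pq.cons (Pq.D 2 (Pq.cons (Pq.L [] 67 (Pf.C 29 16770))
 (Pq.cons (Pq.D 3 (Pq.cons (Pq.L [] 133 (Pf.C 29 16898))
 (Pq.cons (Pq.D 4 (Pq.cons (Pq.L [] 265 (Pf.C 29 17026))
 (Pq.cons (Pq.D 5 (Pq.cons (Pq.L [0] 8787 (Pf.C 46 0x1040c300))
 (Pq.cons (Pq.L [] 529 (Pf.C 28 98434))
 (Pq.cons (Pq.L [] 0x40000 (Pf.C 1 773))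
 (Pq.cons (Pq.L [] 0x40000 (Pf.C 1 773))
 (Pq.cons (Pq.L [] 8210 (Pf.C 28 49286))
 (Pq.cons (Pq.L [] 8210 (Pf.C 19 98689))
 Pq.nil))))))) (Pq.cons (Pq.D 5 (Pq.cons (Pq.L [0] 8787 (Pf.C 46 0x1040c300))
 (Pq.cons (Pq.L [] 529 (Pf.C 28 98434))
 (Pq.cons (Pq.L [] 0x40000 (Pf.C 1 773))
 (Pq.cons (Pq.L [] 0x40000 (Pf.C 1 773))
 (Pq.cons (Pq.L [] 8210 (Pf.C 28 49286))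
 (Pq.cons (Pq.L [] 8210 (Pf.C 19 98689))
 Pq.nil))))))) (Pq.cons (Pq.D 5 (Pq.cons (Pq.L [0] 8787 (Pf.C 46 0x1040c300))
 (Pq.cons (Pq.L [] 529 (Pf.C 28 98434))
 (Pq.cons (Pq.L [] 0x40000 (Pf.C 1 773))
 (Pq.cons (Pq.L [] 0x40000 (Pf.C 1 773))
 (Pq.cons (Pq.L [] 8210 (Pf.C 28 49286))
 (Pq.cons (Pq.L [] 8210 (Pf.C 19 98689))
 Pq.nil))))))) (Pq.cons (Pq.L [] 4106 (Pf.C 28 49285))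
 (Pq.cons (Pq.L [] 4106 (Pf.C 19 82305))
 Pq.nil))))))) (Pq.cons (Pq.D 4 (Pq.cons (Pq.L [] 265 (Pf.C 29 17026))
 (Pq.cons (Pq.D 5 (Pq.cons (Pq.L [0] 8787 (Pf.C 46 0x1040c300))
 (Pq.cons (Pq.L [] 529 (Pf.C 28 98434))
 (Pq.cons (Pq.L [] 0x40000 (Pf.C 1 773))
 (Pq.cons (Pq.L [0] 66197 (Pf.C 55 0x60410080))
 (Pq.cons (Pq.L [] 8210 (Pf.C 28 49286))
 (Pq.cons (Pq.L [] 8210 (Pf.C 19 98689))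
 Pq.nil))))))) (Pq.cons (Pq.D 5 (Pq.cons (Pq.L [0] 8787 (Pf.C 46 0x1040c300))
 (Pq.cons (Pq.L [] 529 (Pf.C 28 98434))
 (Pq.cons (Pq.L [] 0x5bbc0 (Pf.C 55 0x30c14202))
 (Pq.cons (Pq.L [0] 66197 (Pf.C 55 0x60410080))
 (Pq.cons (Pq.L [] 8210 (Pf.C 28 49286))
 (Pq.cons (Pq.L [] 8210 (Pf.C 19 98689))
 Pq.nil))))))) (Pq.cons (Pq.D 5 (Pq.cons (Pq.L [0] 8787 (Pf.C 46 0x1040c300))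
 (Pq.cons (Pq.L [] 529 (Pf.C 28 98434))
 (Pq.cons (Pq.L [] 0x40000 (Pf.C 1 773))
 (Pq.cons (Pq.L [0] 66197 (Pf.C 55 0x60410080))
 (Pq.cons (Pq.L [] 8210 (Pf.C 28 49286))
 (Pq.cons (Pq.L [] 8210 (Pf.C 19 98689))
 Pq.nil))))))) (Pq.cons (Pq.L [] 4106 (Pf.C 28 49285))
 (Pq.cons (Pq.L [] 4106 (Pf.C 19 82305))
 Pq.nil))))))) (Pq.cons (Pq.D 4 (Pq.cons (Pq.L [] 265 (Pf.C 29 17026))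
 (Pq.cons (Pq.D 5 (Pq.cons (Pq.L [0] 8787 (Pf.C 46 0x1040c300))
 (Pq.cons (Pq.L [] 529 (Pf.C 28 98434))
 (Pq.cons (Pq.L [] 0x40000 (Pf.C 1 773))
 (Pq.cons (Pq.L [] 0x40000 (Pf.C 1 773))
 (Pq.cons (Pq.L [] 8210 (Pf.C 28 49286))
 (Pq.cons (Pq.L [] 8210 (Pf.C 19 98689))
 Pq.nil))))))) (Pq.cons (Pq.D 5 (Pq.cons (Pq.L [0] 8787 (Pf.C 46 0x1040c300))
 (Pq.cons (Pq.L [] 529 (Pf.C 28 98434))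
 (Pq.cons (Pq.L [] 0x40000 (Pf.C 1 773))
 (Pq.cons (Pq.L [] 0x40000 (Pf.C 1 773))
 (Pq.cons (Pq.L [] 8210 (Pf.C 28 49286))
 (Pq.cons (Pq.L [] 8210 (Pf.C 19 98689))
 Pq.nil))))))) (Pq.cons (Pq.D 5 (Pq.cons (Pq.L [0] 8787 (Pf.C 46 0x1040c300))
 (Pq.cons (Pq.L [] 529 (Pf.C 28 98434))
 (Pq.cons (Pq.L [] 0x40000 (Pf.C 1 773))
 (Pq.cons (Pq.L [] 0x40000 (Pf.C 1 773))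
 (Pq.cons (Pq.L [] 8210 (Pf.C 28 49286))
 (Pq.cons (Pq.L [] 8210 (Pf.C 19 98689))
 Pq.nil))))))) (Pq.cons (Pq.L [] 4106 (Pf.C 28 49285))
 (Pq.cons (Pq.L [] 4106 (Pf.C 19 82305))
 Pq.nil))))))) (Pq.cons (Pq.L [] 2054 (Pf.C 28 49284))
 (Pq.cons (Pq.L [] 2054 (Pf.C 19 65921))
 Pq.nil))))))) (Pq.cons (Pq.D 3 (Pq.cons (Pq.L [] 133 (Pf.C 29 16898))
 (Pq.cons (Pq.D 4 (Pq.cons (Pq.L [] 265 (Pf.C 29 17026))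
 (Pq.cons (Pq.D 5 (Pq.cons (Pq.L [0] 66197 (Pf.C 46 0x10410300))
 (Pq.cons (Pq.L [] 529 (Pf.C 28 98434))
 (Pq.cons (Pq.L [] 0x40000 (Pf.C 1 773))
 (Pq.cons (Pq.L [0] 8787 (Pf.C 55 0x6040c080))
 (Pq.cons (Pq.L [] 65556 (Pf.C 28 65670))
 (Pq.cons (Pq.L [] 65556 (Pf.C 19 98817))
 Pq.nil))))))) (Pq.cons (Pq.D 5 (Pq.cons (Pq.L [0] 66197 (Pf.C 46 0x10410300))
 (Pq.cons (Pq.L [] 529 (Pf.C 28 98434))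
 (Pq.cons (Pq.L [] 0x5bbc0 (Pf.C 55 0x40c14182))
 (Pq.cons (Pq.L [0] 8787 (Pf.C 55 0x6040c080))
 (Pq.cons (Pq.L [] 65556 (Pf.C 28 65670))
 (Pq.cons (Pq.L [] 65556 (Pf.C 19 98817))
 Pq.nil))))))) (Pq.cons (Pq.D 5 (Pq.cons (Pq.L [0] 66197 (Pf.C 46 0x10410300))
 (Pq.cons (Pq.L [] 529 (Pf.C 28 98434))
 (Pq.cons (Pq.L [] 0x40000 (Pf.C 1 773))
 (Pq.cons (Pq.L [0] 8787 (Pf.C 55 0x6040c080))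
 (Pq.cons (Pq.L [] 65556 (Pf.C 28 65670))
 (Pq.cons (Pq.L [] 65556 (Pf.C 19 98817))
 Pq.nil))))))) (Pq.cons (Pq.L [] 32780 (Pf.C 28 65669))
 (Pq.cons (Pq.L [] 32780 (Pf.C 19 82433))
 Pq.nil))))))) (Pq.cons (Pq.D 4 (Pq.cons (Pq.L [] 265 (Pf.C 29 17026))
 (Pq.cons (Pq.D 5 (Pq.cons (Pq.L [] 0x40000 (Pf.C 1 773))
 (Pq.cons (Pq.L [] 529 (Pf.C 28 98434))
 (Pq.cons (Pq.L [] 0x40000 (Pf.C 1 773))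
 (Pq.cons (Pq.L [0] 8787 (Pf.C 55 0x6040c080))
 (Pq.cons (Pq.L [0] 0x1c677b (Pf.B 7 0 (Pf.C 0 0x800e18105) (Pf.C 0 0x1030c1c080)))
 (Pq.cons (Pq.L [0] 8787 (Pf.C 42 0x6040c080))
 Pq.nil))))))) (Pq.cons (Pq.D 5 (Pq.cons (Pq.L [] 0x40000 (Pf.C 1 773))
 (Pq.cons (Pq.L [] 529 (Pf.C 28 98434))
 (Pq.cons (Pq.L [] 0x40000 (Pf.C 1 773))
 (Pq.cons (Pq.L [0] 8787 (Pf.C 55 0x6040c080))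
 (Pq.cons (Pq.L [0] 0x1c677b (Pf.B 7 0 (Pf.C 0 0x800e18105) (Pf.C 0 0x1030c1c080)))
 (Pq.cons (Pq.L [0] 8787 (Pf.C 42 0x6040c080))
 Pq.nil))))))) (Pq.cons (Pq.D 5 (Pq.cons (Pq.L [] 0x40000 (Pf.C 1 773))
 (Pq.cons (Pq.L [] 529 (Pf.C 28 98434))
 (Pq.cons (Pq.L [] 0x40000 (Pf.C 1 773))
 (Pq.cons (Pq.L [0] 8787 (Pf.C 55 0x6040c080))
 (Pq.cons (Pq.L [0] 0x1c677b (Pf.B 7 0 (Pf.C 0 0x800e18105) (Pf.C 0 0x1030c1c080)))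
 (Pq.cons (Pq.L [0] 8787 (Pf.C 42 0x6040c080))
 Pq.nil))))))) (Pq.cons (Pq.L [] 256 (Pf.C 2 642))
 (Pq.cons (Pq.L [] 256 (Pf.C 2 642))
 Pq.nil))))))) (Pq.cons (Pq.D 4 (Pq.cons (Pq.L [] 265 (Pf.C 29 17026))
 (Pq.cons (Pq.D 5 (Pq.cons (Pq.L [] 0x40000 (Pf.C 1 773))
 (Pq.cons (Pq.L [] 529 (Pf.C 28 98434))
 (Pq.cons (Pq.L [] 0x40000 (Pf.C 1 773))
 (Pq.cons (Pq.L [0] 8787 (Pf.C 55 0x6040c080))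
 (Pq.cons (Pq.L [0] 0x1c677b (Pf.B 7 0 (Pf.C 0 0x800e18105) (Pf.C 0 0x1030c1c080)))
 (Pq.cons (Pq.L [] 65556 (Pf.C 19 98817))
 Pq.nil))))))) (Pq.cons (Pq.D 5 (Pq.cons (Pq.L [] 0x5bbc0 (Pf.C 55 0x40c14182))
 (Pq.cons (Pq.L [] 529 (Pf.C 28 98434))
 (Pq.cons (Pq.L [] 0x5bbc0 (Pf.C 55 0x40c14182))
 (Pq.cons (Pq.L [0] 8787 (Pf.C 55 0x6040c080))
 (Pq.cons (Pq.L [0] 0x5801c (Pf.C 55 0x40c14080))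
 (Pq.cons (Pq.L [] 65556 (Pf.C 19 98817))
 Pq.nil))))))) (Pq.cons (Pq.D 5 (Pq.cons (Pq.L [] 0x40000 (Pf.C 1 773))
 (Pq.cons (Pq.L [] 529 (Pf.C 28 98434))
 (Pq.cons (Pq.L [] 0x40000 (Pf.C 1 773))
 (Pq.cons (Pq.L [0] 8787 (Pf.C 55 0x6040c080))
 (Pq.cons (Pq.L [0] 0x1c677b (Pf.B 7 0 (Pf.C 0 0x800e18105) (Pf.C 0 0x1030c1c080)))
 (Pq.cons (Pq.L [] 65556 (Pf.C 19 98817))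
 Pq.nil))))))) (Pq.cons (Pq.L [0] 33165 (Pf.C 56 0x50404004))
 (Pq.cons (Pq.L [] 32780 (Pf.C 19 82433))
 Pq.nil))))))) (Pq.cons (Pq.L [] 128 (Pf.C 2 514))
 (Pq.cons (Pq.L [] 128 (Pf.C 2 514))
 Pq.nil))))))) (Pq.cons (Pq.D 3 (Pq.cons (Pq.L [] 133 (Pf.C 29 16898))
 (Pq.cons (Pq.D 4 (Pq.cons (Pq.L [] 265 (Pf.C 29 17026))
 (Pq.cons (Pq.D 5 (Pq.cons (Pq.L [0] 66197 (Pf.C 46 0x10410300))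
 (Pq.cons (Pq.L [] 529 (Pf.C 28 98434))
 (Pq.cons (Pq.L [] 0x40000 (Pf.C 1 773))
 (Pq.cons (Pq.L [] 0x40000 (Pf.C 1 773))
 (Pq.cons (Pq.L [] 65556 (Pf.C 28 65670))
 (Pq.cons (Pq.L [] 8210 (Pf.C 19 98689))
 Pq.nil))))))) (Pq.cons (Pq.D 5 (Pq.cons (Pq.L [0] 66197 (Pf.C 46 0x10410300))
 (Pq.cons (Pq.L [] 529 (Pf.C 28 98434))
 (Pq.cons (Pq.L [] 0x40000 (Pf.C 1 773))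
 (Pq.cons (Pq.L [] 0x40000 (Pf.C 1 773))
 (Pq.cons (Pq.L [] 65556 (Pf.C 28 65670))
 (Pq.cons (Pq.L [] 8210 (Pf.C 19 98689))
 Pq.nil))))))) (Pq.cons (Pq.D 5 (Pq.cons (Pq.L [0] 66197 (Pf.C 46 0x10410300))
 (Pq.cons (Pq.L [] 529 (Pf.C 28 98434))
 (Pq.cons (Pq.L [] 0x40000 (Pf.C 1 773))
 (Pq.cons (Pq.L [] 0x40000 (Pf.C 1 773))
 (Pq.cons (Pq.L [] 65556 (Pf.C 28 65670))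
 (Pq.cons (Pq.L [] 8210 (Pf.C 19 98689))
 Pq.nil))))))) (Pq.cons (Pq.L [] 32780 (Pf.C 28 65669))
 (Pq.cons (Pq.L [] 4106 (Pf.C 19 82305))
 Pq.nil))))))) (Pq.cons (Pq.D 4 (Pq.cons (Pq.L [] 265 (Pf.C 29 17026))
 (Pq.cons (Pq.D 5 (Pq.cons (Pq.L [] 0x40000 (Pf.C 1 773))
 (Pq.cons (Pq.L [] 529 (Pf.C 28 98434))
 (Pq.cons (Pq.L [] 0x40000 (Pf.C 1 773))
 (Pq.cons (Pq.L [0] 66197 (Pf.C 55 0x60410080))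
 (Pq.cons (Pq.L [0] 0x1c677b (Pf.B 7 0 (Pf.C 0 0x800e18105) (Pf.C 0 0x1030c1c080)))
 (Pq.cons (Pq.L [] 8210 (Pf.C 19 98689))
 Pq.nil))))))) (Pq.cons (Pq.D 5 (Pq.cons (Pq.L [] 0x5bbc0 (Pf.C 55 0x30c14202))
 (Pq.cons (Pq.L [] 529 (Pf.C 28 98434))
 (Pq.cons (Pq.L [] 0x5bbc0 (Pf.C 55 0x30c14202))
 (Pq.cons (Pq.L [0] 66197 (Pf.C 55 0x60410080))
 (Pq.cons (Pq.L [0] 0x4301a (Pf.C 55 0x30c14080))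
 (Pq.cons (Pq.L [] 8210 (Pf.C 19 98689))
 Pq.nil))))))) (Pq.cons (Pq.D 5 (Pq.cons (Pq.L [] 0x40000 (Pf.C 1 773))
 (Pq.cons (Pq.L [] 529 (Pf.C 28 98434))
 (Pq.cons (Pq.L [] 0x40000 (Pf.C 1 773))
 (Pq.cons (Pq.L [0] 66197 (Pf.C 55 0x60410080))
 (Pq.cons (Pq.L [0] 0x1c677b (Pf.B 7 0 (Pf.C 0 0x800e18105) (Pf.C 0 0x1030c1c080)))
 (Pq.cons (Pq.L [] 8210 (Pf.C 19 98689))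
 Pq.nil))))))) (Pq.cons (Pq.L [0] 4427 (Pf.C 56 0x50404003))
 (Pq.cons (Pq.L [] 4106 (Pf.C 19 82305))
 Pq.nil))))))) (Pq.cons (Pq.D 4 (Pq.cons (Pq.L [] 265 (Pf.C 29 17026))
 (Pq.cons (Pq.D 5 (Pq.cons (Pq.L [] 0x40000 (Pf.C 1 773))
 (Pq.cons (Pq.L [] 529 (Pf.C 28 98434))
 (Pq.cons (Pq.L [] 0x40000 (Pf.C 1 773))
 (Pq.cons (Pq.L [] 0x40000 (Pf.C 1 773))
 (Pq.cons (Pq.L [0] 0x1c677b (Pf.B 7 0 (Pf.C 0 0x800e18105) (Pf.C 0 0x1030c1c080)))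
 (Pq.cons (Pq.L [] 8210 (Pf.C 19 98689))
 Pq.nil))))))) (Pq.cons (Pq.D 5 (Pq.cons (Pq.L [] 0x43000 (Pf.C 22 49925))
 (Pq.cons (Pq.L [] 529 (Pf.C 28 98434))
 (Pq.cons (Pq.L [] 0x40000 (Pf.C 1 773))
 (Pq.cons (Pq.L [] 0x40000 (Pf.C 1 773))
 (Pq.cons (Pq.L [0] 0x4301a (Pf.C 55 0x30c14080))
 (Pq.cons (Pq.L [] 8210 (Pf.C 19 98689))
 Pq.nil))))))) (Pq.cons (Pq.D 5 (Pq.cons (Pq.L [] 0x40000 (Pf.C 1 773))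
 (Pq.cons (Pq.L [] 529 (Pf.C 28 98434))
 (Pq.cons (Pq.L [] 0x40000 (Pf.C 1 773))
 (Pq.cons (Pq.L [] 0x40000 (Pf.C 1 773))
 (Pq.cons (Pq.L [0] 0x1c677b (Pf.B 7 0 (Pf.C 0 0x800e18105) (Pf.C 0 0x1030c1c080)))
 (Pq.cons (Pq.L [] 8210 (Pf.C 19 98689))
 Pq.nil))))))) (Pq.cons (Pq.L [0] 4427 (Pf.C 56 0x50404003))
 (Pq.cons (Pq.L [] 4106 (Pf.C 19 82305))
 Pq.nil))))))) (Pq.cons (Pq.L [0] 2247 (Pf.C 56 0x40404003))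
 (Pq.cons (Pq.L [] 2054 (Pf.C 19 65921))
 Pq.nil))))))) (Pq.cons (Pq.L [] 64 (Pf.C 2 386))
 (Pq.cons (Pq.L [] 64 (Pf.C 2 386))
 Pq.nil))))))) (Pq.cons (Pq.D 2 (Pq.cons (Pq.L [] 67 (Pf.C 29 16770))
 (Pq.cons (Pq.D 3 (Pq.cons (Pq.L [] 133 (Pf.C 29 16898))
 (Pq.cons (Pq.D 4 (Pq.cons (Pq.L [] 265 (Pf.C 29 17026))
 (Pq.cons (Pq.D 5 (Pq.cons (Pq.L [0] 8787 (Pf.C 46 0x1040c300))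
 (Pq.cons (Pq.L [] 529 (Pf.C 19 33537))
 (Pq.cons (Pq.L [] 0x40000 (Pf.C 1 773))
 (Pq.cons (Pq.L [] 529 (Pf.C 19 33537))
 (Pq.cons (Pq.L [] 8210 (Pf.C 28 49286))
 (Pq.cons (Pq.L [] 8210 (Pf.C 19 98689))
 Pq.nil))))))) (Pq.cons (Pq.D 5 (Pq.cons (Pq.L [0] 8787 (Pf.C 46 0x1040c300))
 (Pq.cons (Pq.L [] 529 (Pf.C 19 33537))
 (Pq.cons (Pq.L [] 0x40000 (Pf.C 1 773))
 (Pq.cons (Pq.L [] 529 (Pf.C 19 33537))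
 (Pq.cons (Pq.L [] 8210 (Pf.C 28 49286))
 (Pq.cons (Pq.L [] 8210 (Pf.C 19 98689))
 Pq.nil))))))) (Pq.cons (Pq.D 5 (Pq.cons (Pq.L [0] 8787 (Pf.C 46 0x1040c300))
 (Pq.cons (Pq.L [] 529 (Pf.C 19 33537))
 (Pq.cons (Pq.L [] 0x40000 (Pf.C 1 773))
 (Pq.cons (Pq.L [] 529 (Pf.C 19 33537))
 (Pq.cons (Pq.L [] 8210 (Pf.C 28 49286))
 (Pq.cons (Pq.L [] 8210 (Pf.C 19 98689))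
 Pq.nil))))))) (Pq.cons (Pq.L [] 4106 (Pf.C 28 49285))
 (Pq.cons (Pq.L [] 4106 (Pf.C 19 82305))
 Pq.nil))))))) (Pq.cons (Pq.D 4 (Pq.cons (Pq.L [] 265 (Pf.C 29 17026))
 (Pq.cons (Pq.D 5 (Pq.cons (Pq.L [0] 8787 (Pf.C 46 0x1040c300))
 (Pq.cons (Pq.L [] 529 (Pf.C 19 33537))
 (Pq.cons (Pq.L [] 0x40000 (Pf.C 1 773))
 (Pq.cons (Pq.L [] 529 (Pf.C 19 33537))
 (Pq.cons (Pq.L [] 8210 (Pf.C 28 49286))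
 (Pq.cons (Pq.L [] 8210 (Pf.C 19 98689))
 Pq.nil))))))) (Pq.cons (Pq.D 5 (Pq.cons (Pq.L [0] 8787 (Pf.C 46 0x1040c300))
 (Pq.cons (Pq.L [] 529 (Pf.C 19 33537))
 (Pq.cons (Pq.L [] 0x5bbc0 (Pf.C 55 0x30c14202))
 (Pq.cons (Pq.L [] 529 (Pf.C 19 33537))
 (Pq.cons (Pq.L [] 8210 (Pf.C 28 49286))
 (Pq.cons (Pq.L [] 8210 (Pf.C 19 98689))
 Pq.nil))))))) (Pq.cons (Pq.D 5 (Pq.cons (Pq.L [0] 8787 (Pf.C 46 0x1040c300))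
 (Pq.cons (Pq.L [] 529 (Pf.C 19 33537))
 (Pq.cons (Pq.L [] 0x40000 (Pf.C 1 773))
 (Pq.cons (Pq.L [] 529 (Pf.C 19 33537))
 (Pq.cons (Pq.L [] 8210 (Pf.C 28 49286))
 (Pq.cons (Pq.L [] 8210 (Pf.C 19 98689))
 Pq.nil))))))) (Pq.cons (Pq.L [] 4106 (Pf.C 28 49285))
 (Pq.cons (Pq.L [] 4106 (Pf.C 19 82305))
 Pq.nil))))))) (Pq.cons (Pq.D 4 (Pq.cons (Pq.L [] 265 (Pf.C 29 17026))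
 (Pq.cons (Pq.D 5 (Pq.cons (Pq.L [0] 8787 (Pf.C 46 0x1040c300))
 (Pq.cons (Pq.L [] 529 (Pf.C 19 33537))
 (Pq.cons (Pq.L [] 0x40000 (Pf.C 1 773))
 (Pq.cons (Pq.L [] 529 (Pf.C 19 33537))
 (Pq.cons (Pq.L [] 8210 (Pf.C 28 49286))
 (Pq.cons (Pq.L [] 8210 (Pf.C 19 98689))
 Pq.nil))))))) (Pq.cons (Pq.D 5 (Pq.cons (Pq.L [0] 8787 (Pf.C 46 0x1040c300))
 (Pq.cons (Pq.L [] 529 (Pf.C 19 33537))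
 (Pq.cons (Pq.L [] 0x40000 (Pf.C 1 773))
 (Pq.cons (Pq.L [] 529 (Pf.C 19 33537))
 (Pq.cons (Pq.L [] 8210 (Pf.C 28 49286))
 (Pq.cons (Pq.L [] 8210 (Pf.C 19 98689))
 Pq.nil))))))) (Pq.cons (Pq.D 5 (Pq.cons (Pq.L [0] 8787 (Pf.C 46 0x1040c300))
 (Pq.cons (Pq.L [] 529 (Pf.C 19 33537))
 (Pq.cons (Pq.L [] 0x40000 (Pf.C 1 773))
 (Pq.cons (Pq.L [] 529 (Pf.C 19 33537))
 (Pq.cons (Pq.L [] 8210 (Pf.C 28 49286))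
 (Pq.cons (Pq.L [] 8210 (Pf.C 19 98689))
 Pq.nil))))))) (Pq.cons (Pq.L [] 4106 (Pf.C 28 49285))
 (Pq.cons (Pq.L [] 4106 (Pf.C 19 82305))
 Pq.nil))))))) (Pq.cons (Pq.L [] 2054 (Pf.C 28 49284))
 (Pq.cons (Pq.L [] 2054 (Pf.C 19 65921))
 Pq.nil))))))) (Pq.cons (Pq.D 3 (Pq.cons (Pq.L [] 133 (Pf.C 29 16898))
 (Pq.cons (Pq.D 4 (Pq.cons (Pq.L [] 265 (Pf.C 29 17026))
 (Pq.cons (Pq.D 5 (Pq.cons (Pq.L [0] 66197 (Pf.C 46 0x10410300))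
 (Pq.cons (Pq.L [] 529 (Pf.C 19 33537))
 (Pq.cons (Pq.L [] 0x40000 (Pf.C 1 773))
 (Pq.cons (Pq.L [] 529 (Pf.C 19 33537))
 (Pq.cons (Pq.L [] 65556 (Pf.C 28 65670))
 (Pq.cons (Pq.L [] 65556 (Pf.C 19 98817))
 Pq.nil))))))) (Pq.cons (Pq.D 5 (Pq.cons (Pq.L [0] 66197 (Pf.C 46 0x10410300))
 (Pq.cons (Pq.L [] 529 (Pf.C 19 33537))
 (Pq.cons (Pq.L [] 0x5bbc0 (Pf.C 55 0x40c14182))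
 (Pq.cons (Pq.L [] 529 (Pf.C 19 33537))
 (Pq.cons (Pq.L [] 65556 (Pf.C 28 65670))
 (Pq.cons (Pq.L [] 65556 (Pf.C 19 98817))
 Pq.nil))))))) (Pq.cons (Pq.D 5 (Pq.cons (Pq.L [0] 66197 (Pf.C 46 0x10410300))
 (Pq.cons (Pq.L [] 529 (Pf.C 19 33537))
 (Pq.cons (Pq.L [] 0x40000 (Pf.C 1 773))
 (Pq.cons (Pq.L [] 529 (Pf.C 19 33537))
 (Pq.cons (Pq.L [] 65556 (Pf.C 28 65670))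
 (Pq.cons (Pq.L [] 65556 (Pf.C 19 98817))
 Pq.nil))))))) (Pq.cons (Pq.L [] 32780 (Pf.C 28 65669))
 (Pq.cons (Pq.L [] 32780 (Pf.C 19 82433))
 Pq.nil))))))) (Pq.cons (Pq.D 4 (Pq.cons (Pq.L [] 265 (Pf.C 29 17026))
 (Pq.cons (Pq.D 5 (Pq.cons (Pq.L [] 0x40000 (Pf.C 1 773))
 (Pq.cons (Pq.L [] 529 (Pf.C 19 33537))
 (Pq.cons (Pq.L [] 0x40000 (Pf.C 1 773))
 (Pq.cons (Pq.L [] 529 (Pf.C 19 33537))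
 (Pq.cons (Pq.L [0] 0x1c677b (Pf.B 7 0 (Pf.C 0 0x800e18105) (Pf.C 0 0x1030c1c080)))
 (Pq.cons (Pq.L [0] 0x1c677b (Pf.B 7 0 (Pf.C 0 0x800e18105) (Pf.C 0 0x1030c1c080)))
 Pq.nil))))))) (Pq.cons (Pq.D 5 (Pq.cons (Pq.L [] 0x40000 (Pf.C 1 773))
 (Pq.cons (Pq.L [] 529 (Pf.C 19 33537))
 (Pq.cons (Pq.L [] 0x40000 (Pf.C 1 773))
 (Pq.cons (Pq.L [] 529 (Pf.C 19 33537))
 (Pq.cons (Pq.L [0] 0x1c677b (Pf.B 7 0 (Pf.C 0 0x800e18105) (Pf.C 0 0x1030c1c080)))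
 (Pq.cons (Pq.L [0] 0x1c677b (Pf.B 7 0 (Pf.C 0 0x800e18105) (Pf.C 0 0x1030c1c080)))
 Pq.nil))))))) (Pq.cons (Pq.D 5 (Pq.cons (Pq.L [] 0x40000 (Pf.C 1 773))
 (Pq.cons (Pq.L [] 529 (Pf.C 19 33537))
 (Pq.cons (Pq.L [] 0x40000 (Pf.C 1 773))
 (Pq.cons (Pq.L [] 529 (Pf.C 19 33537))
 (Pq.cons (Pq.L [0] 0x1c677b (Pf.B 7 0 (Pf.C 0 0x800e18105) (Pf.C 0 0x1030c1c080)))
 (Pq.cons (Pq.L [0] 0x1c677b (Pf.B 7 0 (Pf.C 0 0x800e18105) (Pf.C 0 0x1030c1c080)))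
 Pq.nil))))))) (Pq.cons (Pq.L [] 256 (Pf.C 2 642))
 (Pq.cons (Pq.L [] 256 (Pf.C 2 642))
 Pq.nil))))))) (Pq.cons (Pq.D 4 (Pq.cons (Pq.L [] 265 (Pf.C 29 17026))
 (Pq.cons (Pq.D 5 (Pq.cons (Pq.L [] 0x40000 (Pf.C 1 773))
 (Pq.cons (Pq.L [] 529 (Pf.C 19 33537))
 (Pq.cons (Pq.L [] 0x40000 (Pf.C 1 773))
 (Pq.cons (Pq.L [] 529 (Pf.C 19 33537))
 (Pq.cons (Pq.L [0] 0x1c677b (Pf.B 7 0 (Pf.C 0 0x800e18105) (Pf.C 0 0x1030c1c080)))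
 (Pq.cons (Pq.L [] 65556 (Pf.C 19 98817))
 Pq.nil))))))) (Pq.cons (Pq.D 5 (Pq.cons (Pq.L [] 0x5bbc0 (Pf.C 55 0x40c14182))
 (Pq.cons (Pq.L [] 529 (Pf.C 19 33537))
 (Pq.cons (Pq.L [] 0x5bbc0 (Pf.C 55 0x40c14182))
 (Pq.cons (Pq.L [] 529 (Pf.C 19 33537))
 (Pq.cons (Pq.L [0] 0x5801c (Pf.C 55 0x40c14080))
 (Pq.cons (Pq.L [] 65556 (Pf.C 19 98817))
 Pq.nil))))))) (Pq.cons (Pq.D 5 (Pq.cons (Pq.L [] 0x40000 (Pf.C 1 773))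
 (Pq.cons (Pq.L [] 529 (Pf.C 19 33537))
 (Pq.cons (Pq.L [] 0x40000 (Pf.C 1 773))
 (Pq.cons (Pq.L [] 529 (Pf.C 19 33537))
 (Pq.cons (Pq.L [0] 0x1c677b (Pf.B 7 0 (Pf.C 0 0x800e18105) (Pf.C 0 0x1030c1c080)))
 (Pq.cons (Pq.L [] 65556 (Pf.C 19 98817))
 Pq.nil))))))) (Pq.cons (Pq.L [0] 33165 (Pf.C 56 0x50404004))
 (Pq.cons (Pq.L [] 32780 (Pf.C 19 82433))
 Pq.nil))))))) (Pq.cons (Pq.L [] 128 (Pf.C 2 514))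
 (Pq.cons (Pq.L [] 128 (Pf.C 2 514))
 Pq.nil))))))) (Pq.cons (Pq.D 3 (Pq.cons (Pq.L [] 133 (Pf.C 29 16898))
 (Pq.cons (Pq.D 4 (Pq.cons (Pq.L [] 265 (Pf.C 29 17026))
 (Pq.cons (Pq.D 5 (Pq.cons (Pq.L [0] 66197 (Pf.C 46 0x10410300))
 (Pq.cons (Pq.L [] 529 (Pf.C 19 33537))
 (Pq.cons (Pq.L [] 0x40000 (Pf.C 1 773))
 (Pq.cons (Pq.L [] 529 (Pf.C 19 33537))
 (Pq.cons (Pq.L [] 65556 (Pf.C 28 65670))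
 (Pq.cons (Pq.L [] 8210 (Pf.C 19 98689))
 Pq.nil))))))) (Pq.cons (Pq.D 5 (Pq.cons (Pq.L [0] 66197 (Pf.C 46 0x10410300))
 (Pq.cons (Pq.L [] 529 (Pf.C 19 33537))
 (Pq.cons (Pq.L [] 0x40000 (Pf.C 1 773))
 (Pq.cons (Pq.L [] 529 (Pf.C 19 33537))
 (Pq.cons (Pq.L [] 65556 (Pf.C 28 65670))
 (Pq.cons (Pq.L [] 8210 (Pf.C 19 98689))
 Pq.nil))))))) (Pq.cons (Pq.D 5 (Pq.cons (Pq.L [0] 66197 (Pf.C 46 0x10410300))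
 (Pq.cons (Pq.L [] 529 (Pf.C 19 33537))
 (Pq.cons (Pq.L [] 0x40000 (Pf.C 1 773))
 (Pq.cons (Pq.L [] 529 (Pf.C 19 33537))
 (Pq.cons (Pq.L [] 65556 (Pf.C 28 65670))
 (Pq.cons (Pq.L [] 8210 (Pf.C 19 98689))
 Pq.nil))))))) (Pq.cons (Pq.L [] 32780 (Pf.C 28 65669))
 (Pq.cons (Pq.L [] 4106 (Pf.C 19 82305))
 Pq.nil))))))) (Pq.cons (Pq.D 4 (Pq.cons (Pq.L [] 265 (Pf.C 29 17026))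
 (Pq.cons (Pq.D 5 (Pq.cons (Pq.L [] 0x40000 (Pf.C 1 773))
 (Pq.cons (Pq.L [] 529 (Pf.C 19 33537))
 (Pq.cons (Pq.L [] 0x40000 (Pf.C 1 773))
 (Pq.cons (Pq.L [] 529 (Pf.C 19 33537))
 (Pq.cons (Pq.L [0] 0x1c677b (Pf.B 7 0 (Pf.C 0 0x800e18105) (Pf.C 0 0x1030c1c080)))
 (Pq.cons (Pq.L [] 8210 (Pf.C 19 98689))
 Pq.nil))))))) (Pq.cons (Pq.D 5 (Pq.cons (Pq.L [] 0x5bbc0 (Pf.C 55 0x30c14202))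
 (Pq.cons (Pq.L [] 529 (Pf.C 19 33537))
 (Pq.cons (Pq.L [] 0x5bbc0 (Pf.C 55 0x30c14202))
 (Pq.cons (Pq.L [] 529 (Pf.C 19 33537))
 (Pq.cons (Pq.L [0] 0x4301a (Pf.C 55 0x30c14080))
 (Pq.cons (Pq.L [] 8210 (Pf.C 19 98689))
 Pq.nil))))))) (Pq.cons (Pq.D 5 (Pq.cons (Pq.L [] 0x40000 (Pf.C 1 773))
 (Pq.cons (Pq.L [] 529 (Pf.C 19 33537))
 (Pq.cons (Pq.L [] 0x40000 (Pf.C 1 773))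
 (Pq.cons (Pq.L [] 529 (Pf.C 19 33537))
 (Pq.cons (Pq.L [0] 0x1c677b (Pf.B 7 0 (Pf.C 0 0x800e18105) (Pf.C 0 0x1030c1c080)))
 (Pq.cons (Pq.L [] 8210 (Pf.C 19 98689))
 Pq.nil))))))) (Pq.cons (Pq.L [0] 4427 (Pf.C 56 0x50404003))
 (Pq.cons (Pq.L [] 4106 (Pf.C 19 82305))
 Pq.nil))))))) (Pq.cons (Pq.D 4 (Pq.cons (Pq.L [] 265 (Pf.C 29 17026))
 (Pq.cons (Pq.D 5 (Pq.cons (Pq.L [] 0x40000 (Pf.C 1 773))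
 (Pq.cons (Pq.L [] 529 (Pf.C 19 33537))
 (Pq.cons (Pq.L [] 0x40000 (Pf.C 1 773))
 (Pq.cons (Pq.L [] 529 (Pf.C 19 33537))
 (Pq.cons (Pq.L [0] 0x1c677b (Pf.B 7 0 (Pf.C 0 0x800e18105) (Pf.C 0 0x1030c1c080)))
 (Pq.cons (Pq.L [] 8210 (Pf.C 19 98689))
 Pq.nil))))))) (Pq.cons (Pq.D 5 (Pq.cons (Pq.L [] 0x43000 (Pf.C 22 49925))
 (Pq.cons (Pq.L [] 529 (Pf.C 19 33537))
 (Pq.cons (Pq.L [] 0x40000 (Pf.C 1 773))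
 (Pq.cons (Pq.L [] 529 (Pf.C 19 33537))
 (Pq.cons (Pq.L [0] 0x4301a (Pf.C 55 0x30c14080))
 (Pq.cons (Pq.L [] 8210 (Pf.C 19 98689))
 Pq.nil))))))) (Pq.cons (Pq.D 5 (Pq.cons (Pq.L [] 0x40000 (Pf.C 1 773))
 (Pq.cons (Pq.L [] 529 (Pf.C 19 33537))
 (Pq.cons (Pq.L [] 0x40000 (Pf.C 1 773))
 (Pq.cons (Pq.L [] 529 (Pf.C 19 33537))
 (Pq.cons (Pq.L [0] 0x1c677b (Pf.B 7 0 (Pf.C 0 0x800e18105) (Pf.C 0 0x1030c1c080)))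
 (Pq.cons (Pq.L [] 8210 (Pf.C 19 98689))
 Pq.nil))))))) (Pq.cons (Pq.L [0] 4427 (Pf.C 56 0x50404003))
 (Pq.cons (Pq.L [] 4106 (Pf.C 19 82305))
 Pq.nil))))))) (Pq.cons (Pq.L [0] 2247 (Pf.C 56 0x40404003))
 (Pq.cons (Pq.L [] 2054 (Pf.C 19 65921))
 Pq.nil))))))) (Pq.cons (Pq.L [] 64 (Pf.C 2 386))
 (Pq.cons (Pq.L [] 64 (Pf.C 2 386))
 Pq.nil))))))) Pq.nil))
theorem s1_o43 : AllRef s1_T s1_G63 (List.drop 4 (List.flatMap (splitP 1) (List.drop 1 (List.drop 1 (List.take 3 (List.flatMap (splitP 0) (List.take 1 (applyObl bD_T 3 [75,77,79,81,82,84] [1,1,1,1,2,2] [])))))))) :=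
  chkPq_sound s1_o43c _ (by decide +kernel)
noncomputable def s1_o44c : Pq := (Pq.cons (Pq.D 1 (Pq.cons (Pq.D 2 (Pq.cons (Pq.L [] 64 (Pf.C 1 386))
 (Pq.cons (Pq.L [] 64 (Pf.C 1 386))
 (Pq.cons (Pq.L [] 67 (Pf.C 22 16643))
 (Pq.cons (Pq.L [] 64 (Pf.C 1 386))
 (Pq.cons (Pq.L [] 64 (Pf.C 13 259))
 (Pq.cons (Pq.D 3 (Pq.cons (Pq.L [] 2054 (Pf.C 19 49284))
 (Pq.cons (Pq.L [] 128 (Pf.C 1 514))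
 (Pq.cons (Pq.L [] 2054 (Pf.C 19 49284))
 (Pq.cons (Pq.L [] 128 (Pf.C 1 514))
 (Pq.cons (Pq.L [] 2054 (Pf.C 16 16772))
 (Pq.cons (Pq.D 4 (Pq.cons (Pq.L [] 4106 (Pf.C 19 49285))
 (Pq.cons (Pq.L [] 256 (Pf.C 1 642))
 (Pq.cons (Pq.L [] 4106 (Pf.C 19 49285))
 (Pq.cons (Pq.L [] 256 (Pf.C 1 642))
 (Pq.cons (Pq.L [] 4106 (Pf.C 16 16773))
 (Pq.cons (Pq.D 5 (Pq.cons (Pq.L [] 8210 (Pf.C 19 49286))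
 (Pq.cons (Pq.L [] 0x4301a (Pf.C 33 0x218283))
 (Pq.cons (Pq.L [] 8210 (Pf.C 19 49286))
 (Pq.cons (Pq.D 6 (Pq.cons (Pq.L [] 16418 (Pf.C 19 49287))
 (Pq.cons (Pq.L [0] 17507 (Pf.C 46 0x10608380))
 (Pq.cons (Pq.L [] 16418 (Pf.C 19 49287))
 (Pq.cons (Pq.L [] 0x100000 (Pf.C 1 902))
 (Pq.cons (Pq.L [] 16418 (Pf.C 16 16775))
 (Pq.cons (Pq.L [] 1057 (Pf.C 19 0x1c082))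
 Pq.nil))))))) (Pq.cons (Pq.L [] 8210 (Pf.C 16 16774))
 (Pq.cons (Pq.L [] 529 (Pf.C 19 98434))
 Pq.nil))))))) Pq.nil))))))) Pq.nil))))))) Pq.nil))))))) (Pq.cons (Pq.D 2 (Pq.cons (Pq.L [] 64 (Pf.C 1 386))
 (Pq.cons (Pq.L [] 64 (Pf.C 1 386))
 (Pq.cons (Pq.L [] 64 (Pf.C 1 386))
 (Pq.cons (Pq.L [] 64 (Pf.C 1 386))
 (Pq.cons (Pq.D 3 (Pq.cons (Pq.L [] 128 (Pf.C 1 514))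
 (Pq.cons (Pq.L [] 128 (Pf.C 1 514))
 (Pq.cons (Pq.L [] 128 (Pf.C 1 514))
 (Pq.cons (Pq.L [] 128 (Pf.C 1 514))
 (Pq.cons (Pq.D 4 (Pq.cons (Pq.L [] 256 (Pf.C 1 642))
 (Pq.cons (Pq.L [] 256 (Pf.C 1 642))
 (Pq.cons (Pq.L [] 256 (Pf.C 1 642))
 (Pq.cons (Pq.L [] 256 (Pf.C 1 642))
 (Pq.cons (Pq.D 5 (Pq.cons (Pq.L [0] 8787 (Pf.C 46 0x10608300))
 (Pq.cons (Pq.L [] 8787 (Pf.C 36 0x20c106))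
 (Pq.cons (Pq.L [] 0x40018 (Pf.C 22 17030))
 (Pq.cons (Pq.D 6 (Pq.cons (Pq.L [0] 17507 (Pf.C 46 0x10608380))
 (Pq.cons (Pq.L [] 17507 (Pf.C 36 0x20c107))
 (Pq.cons (Pq.L [] 0x106673 (Pf.C 52 0x70c0c101))
 (Pq.cons (Pq.L [] 0x100000 (Pf.C 1 902))
 (Pq.cons (Pq.L [] 0x1c0739 (Pf.C 51 0x10414386))
 (Pq.cons (Pq.L [] 16418 (Pf.C 16 17283))
 Pq.nil))))))) (Pq.cons (Pq.L [] 0x4335b (Pf.C 50 0x10c14182))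
 (Pq.cons (Pq.L [] 8210 (Pf.C 16 17155))
 Pq.nil))))))) (Pq.cons (Pq.L [] 4106 (Pf.C 16 17027))
 Pq.nil))))))) (Pq.cons (Pq.L [] 2054 (Pf.C 16 16899))
 Pq.nil))))))) (Pq.cons (Pq.D 3 (Pq.cons (Pq.L [] 2054 (Pf.C 19 49284))
 (Pq.cons (Pq.L [] 128 (Pf.C 1 514))
 (Pq.cons (Pq.L [] 2054 (Pf.C 19 49284))
 (Pq.cons (Pq.L [] 128 (Pf.C 1 514))
 (Pq.cons (Pq.L [] 2054 (Pf.C 16 16772))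
 (Pq.cons (Pq.D 4 (Pq.cons (Pq.L [] 4106 (Pf.C 19 49285))
 (Pq.cons (Pq.L [] 256 (Pf.C 1 642))
 (Pq.cons (Pq.L [] 4106 (Pf.C 19 49285))
 (Pq.cons (Pq.L [] 256 (Pf.C 1 642))
 (Pq.cons (Pq.L [] 4106 (Pf.C 16 16773))
 (Pq.cons (Pq.D 5 (Pq.cons (Pq.L [] 8210 (Pf.C 19 49286))
 (Pq.cons (Pq.L [] 0x4301a (Pf.C 33 0x218283))
 (Pq.cons (Pq.L [] 8210 (Pf.C 19 49286))
 (Pq.cons (Pq.D 6 (Pq.cons (Pq.L [] 16418 (Pf.C 19 49287))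
 (Pq.cons (Pq.L [] 17507 (Pf.C 36 0x20c107))
 (Pq.cons (Pq.L [] 16418 (Pf.C 19 49287))
 (Pq.cons (Pq.L [] 0x100000 (Pf.C 1 902))
 (Pq.cons (Pq.L [] 16418 (Pf.C 16 16775))
 (Pq.cons (Pq.L [] 17507 (Pf.C 33 0x208187))
 Pq.nil))))))) (Pq.cons (Pq.L [] 8210 (Pf.C 16 16774))
 (Pq.cons (Pq.L [] 8787 (Pf.C 33 0x208186))
 Pq.nil))))))) Pq.nil))))))) Pq.nil))))))) Pq.nil))))))) (Pq.cons (Pq.D 2 (Pq.cons (Pq.L [] 67 (Pf.C 22 16770))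
 (Pq.cons (Pq.L [] 64 (Pf.C 1 386))
 (Pq.cons (Pq.L [] 64 (Pf.C 1 386))
 (Pq.cons (Pq.L [] 64 (Pf.C 1 386))
 (Pq.cons (Pq.L [] 67 (Pf.C 22 16770))
 (Pq.cons (Pq.D 3 (Pq.cons (Pq.L [] 2054 (Pf.C 19 49284))
 (Pq.cons (Pq.L [] 128 (Pf.C 1 514))
 (Pq.cons (Pq.L [] 2054 (Pf.C 19 49284))
 (Pq.cons (Pq.L [] 128 (Pf.C 1 514))
 (Pq.cons (Pq.L [] 2054 (Pf.C 16 16772))
 (Pq.cons (Pq.D 4 (Pq.cons (Pq.L [] 4106 (Pf.C 19 49285))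
 (Pq.cons (Pq.L [] 256 (Pf.C 1 642))
 (Pq.cons (Pq.L [] 4106 (Pf.C 19 49285))
 (Pq.cons (Pq.L [] 256 (Pf.C 1 642))
 (Pq.cons (Pq.L [] 4106 (Pf.C 16 16773))
 (Pq.cons (Pq.D 5 (Pq.cons (Pq.L [] 8210 (Pf.C 19 49286))
 (Pq.cons (Pq.L [] 0x4301a (Pf.C 33 0x218283))
 (Pq.cons (Pq.L [] 8210 (Pf.C 19 49286))
 (Pq.cons (Pq.D 6 (Pq.cons (Pq.L [] 16418 (Pf.C 19 49287))
 (Pq.cons (Pq.L [] 0x106673 (Pf.C 54 0x70c0c101))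
 (Pq.cons (Pq.L [] 16418 (Pf.C 19 49287))
 (Pq.cons (Pq.L [] 0x100000 (Pf.C 1 902))
 (Pq.cons (Pq.L [] 16418 (Pf.C 16 16775))
 (Pq.cons (Pq.L [] 1057 (Pf.C 19 0x1c082))
 Pq.nil))))))) (Pq.cons (Pq.L [] 8210 (Pf.C 16 16774))
 (Pq.cons (Pq.L [] 529 (Pf.C 19 98434))
 Pq.nil))))))) Pq.nil))))))) Pq.nil))))))) Pq.nil))))))) (Pq.cons (Pq.D 2 (Pq.cons (Pq.L [] 64 (Pf.C 1 386))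
 (Pq.cons (Pq.L [] 64 (Pf.C 1 386))
 (Pq.cons (Pq.L [] 64 (Pf.C 1 386))
 (Pq.cons (Pq.L [] 64 (Pf.C 1 386))
 (Pq.cons (Pq.D 3 (Pq.cons (Pq.L [] 128 (Pf.C 1 514))
 (Pq.cons (Pq.L [] 128 (Pf.C 1 514))
 (Pq.cons (Pq.L [] 128 (Pf.C 1 514))
 (Pq.cons (Pq.L [] 128 (Pf.C 1 514))
 (Pq.cons (Pq.D 4 (Pq.cons (Pq.L [] 256 (Pf.C 1 642))
 (Pq.cons (Pq.L [] 256 (Pf.C 1 642))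
 (Pq.cons (Pq.L [] 256 (Pf.C 1 642))
 (Pq.cons (Pq.L [] 256 (Pf.C 1 642))
 (Pq.cons (Pq.D 5 (Pq.cons (Pq.L [] 0x4335b (Pf.C 51 0x10c14182))
 (Pq.cons (Pq.L [] 0x4335b (Pf.C 51 0x10c14182))
 (Pq.cons (Pq.L [] 0x40018 (Pf.C 22 17030))
 (Pq.cons (Pq.D 6 (Pq.cons (Pq.L [] 0x106673 (Pf.C 52 0x70c0c101))
 (Pq.cons (Pq.L [] 0x106673 (Pf.C 54 0x70c0c101))
 (Pq.cons (Pq.L [] 0x106673 (Pf.C 52 0x70c0c101))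
 (Pq.cons (Pq.L [] 0x100000 (Pf.C 1 902))
 (Pq.cons (Pq.L [] 0x106673 (Pf.C 52 0x70c0c101))
 (Pq.cons (Pq.L [] 16418 (Pf.C 16 17283))
 Pq.nil))))))) (Pq.cons (Pq.L [] 0x4335b (Pf.C 50 0x10c14182))
 (Pq.cons (Pq.L [] 8210 (Pf.C 16 17155))
 Pq.nil))))))) (Pq.cons (Pq.L [] 4106 (Pf.C 16 17027))
 Pq.nil))))))) (Pq.cons (Pq.L [] 2054 (Pf.C 16 16899))
 Pq.nil))))))) (Pq.cons (Pq.D 3 (Pq.cons (Pq.L [] 2054 (Pf.C 19 49284))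
 (Pq.cons (Pq.L [] 128 (Pf.C 1 514))
 (Pq.cons (Pq.L [] 2054 (Pf.C 19 49284))
 (Pq.cons (Pq.L [] 128 (Pf.C 1 514))
 (Pq.cons (Pq.L [] 2054 (Pf.C 16 16772))
 (Pq.cons (Pq.D 4 (Pq.cons (Pq.L [] 4106 (Pf.C 19 49285))
 (Pq.cons (Pq.L [] 256 (Pf.C 1 642))
 (Pq.cons (Pq.L [] 4106 (Pf.C 19 49285))
 (Pq.cons (Pq.L [] 256 (Pf.C 1 642))
 (Pq.cons (Pq.L [] 4106 (Pf.C 16 16773))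
 (Pq.cons (Pq.D 5 (Pq.cons (Pq.L [] 8210 (Pf.C 19 49286))
 (Pq.cons (Pq.L [] 0x4301a (Pf.C 33 0x218283))
 (Pq.cons (Pq.L [] 8210 (Pf.C 19 49286))
 (Pq.cons (Pq.D 6 (Pq.cons (Pq.L [] 16418 (Pf.C 19 49287))
 (Pq.cons (Pq.L [] 0x106673 (Pf.C 54 0x70c0c101))
 (Pq.cons (Pq.L [] 16418 (Pf.C 19 49287))
 (Pq.cons (Pq.L [] 0x100000 (Pf.C 1 902))
 (Pq.cons (Pq.L [] 16418 (Pf.C 16 16775))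
 (Pq.cons (Pq.L [] 0x106673 (Pf.C 52 0x70c0c101))
 Pq.nil))))))) (Pq.cons (Pq.L [] 8210 (Pf.C 16 16774))
 (Pq.cons (Pq.L [] 0x4335b (Pf.C 50 0x10c14182))
 Pq.nil))))))) Pq.nil))))))) Pq.nil))))))) Pq.nil))))))) (Pq.cons (Pq.D 2 (Pq.cons (Pq.L [] 64 (Pf.C 13 386))
 (Pq.cons (Pq.D 3 (Pq.cons (Pq.L [] 128 (Pf.C 13 514))
 (Pq.cons (Pq.D 4 (Pq.cons (Pq.L [] 256 (Pf.C 13 642))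
 (Pq.cons (Pq.D 5 (Pq.cons (Pq.L [] 0x4301a (Pf.C 36 0x218283))
 (Pq.cons (Pq.L [] 8787 (Pf.C 36 0x208186))
 (Pq.cons (Pq.L [] 0x40000 (Pf.C 1 773))
 (Pq.cons (Pq.L [] 0x40000 (Pf.C 1 773))
 (Pq.cons (Pq.L [] 0x4301a (Pf.C 36 0x218283))
 (Pq.cons (Pq.L [] 529 (Pf.C 16 17154))
 Pq.nil))))))) (Pq.cons (Pq.L [] 265 (Pf.C 22 16645))
 (Pq.cons (Pq.D 5 (Pq.cons (Pq.L [0] 8787 (Pf.C 46 0x1040c300))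
 (Pq.cons (Pq.L [] 8787 (Pf.C 36 0x208186))
 (Pq.cons (Pq.L [] 0x40000 (Pf.C 1 773))
 (Pq.cons (Pq.L [] 0x40000 (Pf.C 1 773))
 (Pq.cons (Pq.L [] 0x4335b (Pf.C 51 0x10608305))
 (Pq.cons (Pq.L [] 529 (Pf.C 16 17154))
 Pq.nil))))))) (Pq.cons (Pq.L [] 256 (Pf.C 2 642))
 (Pq.cons (Pq.L [] 256 (Pf.C 2 642))
 Pq.nil))))))) (Pq.cons (Pq.L [] 133 (Pf.C 22 16644))
 (Pq.cons (Pq.D 4 (Pq.cons (Pq.L [] 256 (Pf.C 13 642))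
 (Pq.cons (Pq.D 5 (Pq.cons (Pq.L [] 0x4301a (Pf.C 36 0x218283))
 (Pq.cons (Pq.L [] 8787 (Pf.C 36 0x208186))
 (Pq.cons (Pq.L [] 0x40000 (Pf.C 1 773))
 (Pq.cons (Pq.L [] 0x40000 (Pf.C 1 773))
 (Pq.cons (Pq.L [] 0x4301a (Pf.C 36 0x218283))
 (Pq.cons (Pq.L [] 529 (Pf.C 16 17154))
 Pq.nil))))))) (Pq.cons (Pq.L [] 265 (Pf.C 22 16645))
 (Pq.cons (Pq.D 5 (Pq.cons (Pq.L [0] 8787 (Pf.C 46 0x1040c300))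
 (Pq.cons (Pq.L [] 8787 (Pf.C 36 0x208186))
 (Pq.cons (Pq.L [] 0x40000 (Pf.C 1 773))
 (Pq.cons (Pq.L [] 0x40000 (Pf.C 1 773))
 (Pq.cons (Pq.L [] 0x4335b (Pf.C 51 0x10608305))
 (Pq.cons (Pq.L [] 529 (Pf.C 16 17154))
 Pq.nil))))))) (Pq.cons (Pq.L [] 256 (Pf.C 2 642))
 (Pq.cons (Pq.L [] 256 (Pf.C 2 642))
 Pq.nil))))))) (Pq.cons (Pq.L [] 128 (Pf.C 2 514))
 (Pq.cons (Pq.L [] 128 (Pf.C 2 514))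
 Pq.nil))))))) (Pq.cons (Pq.L [] 67 (Pf.C 22 16643))
 (Pq.cons (Pq.D 3 (Pq.cons (Pq.L [] 128 (Pf.C 13 514))
 (Pq.cons (Pq.D 4 (Pq.cons (Pq.L [] 256 (Pf.C 13 642))
 (Pq.cons (Pq.D 5 (Pq.cons (Pq.L [] 0x5801c (Pf.C 36 0x218284))
 (Pq.cons (Pq.L [] 66197 (Pf.C 36 0x208206))
 (Pq.cons (Pq.L [] 0x40000 (Pf.C 1 773))
 (Pq.cons (Pq.L [] 0x40000 (Pf.C 1 773))
 (Pq.cons (Pq.L [] 0x5801c (Pf.C 36 0x218284))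
 (Pq.cons (Pq.L [] 529 (Pf.C 16 17154))
 Pq.nil))))))) (Pq.cons (Pq.L [] 265 (Pf.C 22 16645))
 (Pq.cons (Pq.D 5 (Pq.cons (Pq.L [0] 66197 (Pf.C 46 0x10410300))
 (Pq.cons (Pq.L [] 66197 (Pf.C 36 0x208206))
 (Pq.cons (Pq.L [] 0x40000 (Pf.C 1 773))
 (Pq.cons (Pq.L [] 0x40000 (Pf.C 1 773))
 (Pq.cons (Pq.L [] 0x5839d (Pf.C 51 0x10808305))
 (Pq.cons (Pq.L [] 529 (Pf.C 16 17154))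
 Pq.nil))))))) (Pq.cons (Pq.L [] 256 (Pf.C 2 642))
 (Pq.cons (Pq.L [] 256 (Pf.C 2 642))
 Pq.nil))))))) (Pq.cons (Pq.L [] 133 (Pf.C 22 16644))
 (Pq.cons (Pq.D 4 (Pq.cons (Pq.L [] 256 (Pf.C 13 642))
 (Pq.cons (Pq.D 5 (Pq.cons (Pq.L [] 0x40000 (Pf.C 1 773))
 (Pq.cons (Pq.L [] 512 (Pf.C 6 770))
 (Pq.cons (Pq.L [] 0x40000 (Pf.C 1 773))
 (Pq.cons (Pq.L [] 0x40000 (Pf.C 1 773))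
 (Pq.cons (Pq.L [0] 0x1c677b (Pf.B 7 0 (Pf.C 0 0x800e18105) (Pf.C 0 0x1030c1c080)))
 (Pq.cons (Pq.L [] 529 (Pf.C 16 17154))
 Pq.nil))))))) (Pq.cons (Pq.L [] 265 (Pf.C 22 16645))
 (Pq.cons (Pq.D 5 (Pq.cons (Pq.L [] 0x40000 (Pf.C 1 773))
 (Pq.cons (Pq.L [] 512 (Pf.C 6 770))
 (Pq.cons (Pq.L [] 0x40000 (Pf.C 1 773))
 (Pq.cons (Pq.L [] 0x40000 (Pf.C 1 773))
 (Pq.cons (Pq.L [0] 0x1c677b (Pf.B 7 0 (Pf.C 0 0x800e18105) (Pf.C 0 0x1030c1c080)))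
 (Pq.cons (Pq.L [] 529 (Pf.C 16 17154))
 Pq.nil))))))) (Pq.cons (Pq.L [] 256 (Pf.C 2 642))
 (Pq.cons (Pq.L [] 256 (Pf.C 2 642))
 Pq.nil))))))) (Pq.cons (Pq.L [] 128 (Pf.C 2 514))
 (Pq.cons (Pq.L [] 128 (Pf.C 2 514))
 Pq.nil))))))) (Pq.cons (Pq.L [] 64 (Pf.C 2 386))
 (Pq.cons (Pq.L [] 64 (Pf.C 2 386))
 Pq.nil))))))) (Pq.cons (Pq.D 2 (Pq.cons (Pq.D 3 (Pq.cons (Pq.D 4 (Pq.cons (Pq.D 5 (Pq.cons (Pq.L [] 529 (Pf.C 19 32902))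
 (Pq.cons (Pq.L [0] 8787 (Pf.C 46 0x1040c300))
 (Pq.cons (Pq.L [] 529 (Pf.C 19 32902))
 (Pq.cons (Pq.L [] 0x40000 (Pf.C 1 773))
 (Pq.cons (Pq.L [] 529 (Pf.C 16 16646))
 (Pq.cons (Pq.L [] 8210 (Pf.C 19 98435))
 Pq.nil))))))) (Pq.cons (Pq.L [] 4096 (Pf.C 10 643))
 (Pq.cons (Pq.D 5 (Pq.cons (Pq.L [] 529 (Pf.C 19 32902))
 (Pq.cons (Pq.L [0] 8787 (Pf.C 46 0x1040c300))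
 (Pq.cons (Pq.L [] 529 (Pf.C 19 32902))
 (Pq.cons (Pq.L [] 0x40000 (Pf.C 1 773))
 (Pq.cons (Pq.L [] 529 (Pf.C 16 16646))
 (Pq.cons (Pq.L [] 8210 (Pf.C 19 98435))
 Pq.nil))))))) (Pq.cons (Pq.D 5 (Pq.cons (Pq.L [] 529 (Pf.C 19 32902))
 (Pq.cons (Pq.L [0] 8787 (Pf.C 46 0x1040c300))
 (Pq.cons (Pq.L [] 529 (Pf.C 19 32902))
 (Pq.cons (Pq.L [] 0x40000 (Pf.C 1 773))
 (Pq.cons (Pq.L [] 529 (Pf.C 16 16646))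
 (Pq.cons (Pq.L [] 8210 (Pf.C 19 98435))
 Pq.nil))))))) (Pq.cons (Pq.L [] 256 (Pf.C 2 642))
 (Pq.cons (Pq.L [] 4106 (Pf.C 19 82051))
 Pq.nil))))))) (Pq.cons (Pq.L [] 2048 (Pf.C 10 515))
 (Pq.cons (Pq.D 4 (Pq.cons (Pq.D 5 (Pq.cons (Pq.L [] 529 (Pf.C 19 32902))
 (Pq.cons (Pq.L [0] 8787 (Pf.C 46 0x1040c300))
 (Pq.cons (Pq.L [] 529 (Pf.C 19 32902))
 (Pq.cons (Pq.L [] 0x40000 (Pf.C 1 773))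
 (Pq.cons (Pq.L [] 529 (Pf.C 16 16646))
 (Pq.cons (Pq.L [] 8210 (Pf.C 19 98435))
 Pq.nil))))))) (Pq.cons (Pq.L [] 4096 (Pf.C 10 643))
 (Pq.cons (Pq.D 5 (Pq.cons (Pq.L [] 529 (Pf.C 19 32902))
 (Pq.cons (Pq.L [0] 8787 (Pf.C 46 0x1040c300))
 (Pq.cons (Pq.L [] 529 (Pf.C 19 32902))
 (Pq.cons (Pq.L [] 0x40000 (Pf.C 1 773))
 (Pq.cons (Pq.L [] 529 (Pf.C 16 16646))
 (Pq.cons (Pq.L [] 8210 (Pf.C 19 98435))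
 Pq.nil))))))) (Pq.cons (Pq.D 5 (Pq.cons (Pq.L [] 529 (Pf.C 19 32902))
 (Pq.cons (Pq.L [0] 8787 (Pf.C 46 0x1040c300))
 (Pq.cons (Pq.L [] 529 (Pf.C 19 32902))
 (Pq.cons (Pq.L [] 0x40000 (Pf.C 1 773))
 (Pq.cons (Pq.L [] 529 (Pf.C 16 16646))
 (Pq.cons (Pq.L [] 8210 (Pf.C 19 98435))
 Pq.nil))))))) (Pq.cons (Pq.L [] 256 (Pf.C 2 642))
 (Pq.cons (Pq.L [] 4106 (Pf.C 19 82051))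
 Pq.nil))))))) (Pq.cons (Pq.D 4 (Pq.cons (Pq.D 5 (Pq.cons (Pq.L [] 529 (Pf.C 19 32902))
 (Pq.cons (Pq.L [0] 8787 (Pf.C 46 0x1040c300))
 (Pq.cons (Pq.L [] 529 (Pf.C 19 32902))
 (Pq.cons (Pq.L [] 0x40000 (Pf.C 1 773))
 (Pq.cons (Pq.L [] 529 (Pf.C 16 16646))
 (Pq.cons (Pq.L [] 8210 (Pf.C 19 98435))
 Pq.nil))))))) (Pq.cons (Pq.L [] 4096 (Pf.C 10 643))
 (Pq.cons (Pq.D 5 (Pq.cons (Pq.L [] 529 (Pf.C 19 32902))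
 (Pq.cons (Pq.L [0] 8787 (Pf.C 46 0x1040c300))
 (Pq.cons (Pq.L [] 529 (Pf.C 19 32902))
 (Pq.cons (Pq.L [] 0x40000 (Pf.C 1 773))
 (Pq.cons (Pq.L [] 529 (Pf.C 16 16646))
 (Pq.cons (Pq.L [] 8210 (Pf.C 19 98435))
 Pq.nil))))))) (Pq.cons (Pq.D 5 (Pq.cons (Pq.L [] 529 (Pf.C 19 32902))
 (Pq.cons (Pq.L [0] 8787 (Pf.C 46 0x1040c300))
 (Pq.cons (Pq.L [] 529 (Pf.C 19 32902))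
 (Pq.cons (Pq.L [] 0x40000 (Pf.C 1 773))
 (Pq.cons (Pq.L [] 529 (Pf.C 16 16646))
 (Pq.cons (Pq.L [] 8210 (Pf.C 19 98435))
 Pq.nil))))))) (Pq.cons (Pq.L [] 256 (Pf.C 2 642))
 (Pq.cons (Pq.L [] 4106 (Pf.C 19 82051))
 Pq.nil))))))) (Pq.cons (Pq.L [] 128 (Pf.C 2 514))
 (Pq.cons (Pq.L [] 2054 (Pf.C 19 65667))
 Pq.nil))))))) (Pq.cons (Pq.D 3 (Pq.cons (Pq.L [] 2048 (Pf.C 10 388))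
 (Pq.cons (Pq.D 4 (Pq.cons (Pq.L [] 4096 (Pf.C 10 389))
 (Pq.cons (Pq.D 5 (Pq.cons (Pq.L [] 529 (Pf.C 19 32902))
 (Pq.cons (Pq.L [] 8787 (Pf.C 36 0x208186))
 (Pq.cons (Pq.L [] 529 (Pf.C 19 32902))
 (Pq.cons (Pq.L [] 0x40000 (Pf.C 1 773))
 (Pq.cons (Pq.L [] 529 (Pf.C 16 16646))
 (Pq.cons (Pq.L [] 8787 (Pf.C 33 0x20c106))
 Pq.nil))))))) (Pq.cons (Pq.D 5 (Pq.cons (Pq.L [] 529 (Pf.C 19 32902))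
 (Pq.cons (Pq.L [] 8787 (Pf.C 36 0x208186))
 (Pq.cons (Pq.L [] 529 (Pf.C 19 32902))
 (Pq.cons (Pq.L [] 0x40000 (Pf.C 1 773))
 (Pq.cons (Pq.L [] 529 (Pf.C 16 16646))
 (Pq.cons (Pq.L [] 8787 (Pf.C 33 0x20c106))
 Pq.nil))))))) (Pq.cons (Pq.D 5 (Pq.cons (Pq.L [] 529 (Pf.C 19 32902))
 (Pq.cons (Pq.L [] 8787 (Pf.C 36 0x208186))
 (Pq.cons (Pq.L [] 529 (Pf.C 19 32902))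
 (Pq.cons (Pq.L [] 0x40000 (Pf.C 1 773))
 (Pq.cons (Pq.L [] 529 (Pf.C 16 16646))
 (Pq.cons (Pq.L [] 8787 (Pf.C 33 0x20c106))
 Pq.nil))))))) (Pq.cons (Pq.L [] 256 (Pf.C 2 642))
 (Pq.cons (Pq.L [] 256 (Pf.C 2 642))
 Pq.nil))))))) (Pq.cons (Pq.D 4 (Pq.cons (Pq.L [] 4096 (Pf.C 10 389))
 (Pq.cons (Pq.D 5 (Pq.cons (Pq.L [] 529 (Pf.C 19 32902))
 (Pq.cons (Pq.L [] 8787 (Pf.C 36 0x208186))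
 (Pq.cons (Pq.L [] 529 (Pf.C 19 32902))
 (Pq.cons (Pq.L [] 0x40000 (Pf.C 1 773))
 (Pq.cons (Pq.L [] 529 (Pf.C 16 16646))
 (Pq.cons (Pq.L [] 65556 (Pf.C 19 98436))
 Pq.nil))))))) (Pq.cons (Pq.D 5 (Pq.cons (Pq.L [] 529 (Pf.C 19 32902))
 (Pq.cons (Pq.L [] 8787 (Pf.C 36 0x208186))
 (Pq.cons (Pq.L [] 529 (Pf.C 19 32902))
 (Pq.cons (Pq.L [] 0x40000 (Pf.C 1 773))
 (Pq.cons (Pq.L [] 529 (Pf.C 16 16646))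
 (Pq.cons (Pq.L [] 65556 (Pf.C 19 98436))
 Pq.nil))))))) (Pq.cons (Pq.D 5 (Pq.cons (Pq.L [] 529 (Pf.C 19 32902))
 (Pq.cons (Pq.L [] 8787 (Pf.C 36 0x208186))
 (Pq.cons (Pq.L [] 529 (Pf.C 19 32902))
 (Pq.cons (Pq.L [] 0x40000 (Pf.C 1 773))
 (Pq.cons (Pq.L [] 529 (Pf.C 16 16646))
 (Pq.cons (Pq.L [] 65556 (Pf.C 19 98436))
 Pq.nil))))))) (Pq.cons (Pq.L [] 256 (Pf.C 2 642))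
 (Pq.cons (Pq.L [] 32780 (Pf.C 19 82052))
 Pq.nil))))))) (Pq.cons (Pq.D 4 (Pq.cons (Pq.L [] 4096 (Pf.C 10 389))
 (Pq.cons (Pq.D 5 (Pq.cons (Pq.L [] 529 (Pf.C 19 32902))
 (Pq.cons (Pq.L [] 8787 (Pf.C 36 0x208186))
 (Pq.cons (Pq.L [] 529 (Pf.C 19 32902))
 (Pq.cons (Pq.L [] 0x40000 (Pf.C 1 773))
 (Pq.cons (Pq.L [] 529 (Pf.C 16 16646))
 (Pq.cons (Pq.L [] 8787 (Pf.C 33 0x20c106))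
 Pq.nil))))))) (Pq.cons (Pq.D 5 (Pq.cons (Pq.L [] 529 (Pf.C 19 32902))
 (Pq.cons (Pq.L [] 8787 (Pf.C 36 0x208186))
 (Pq.cons (Pq.L [] 529 (Pf.C 19 32902))
 (Pq.cons (Pq.L [] 0x40000 (Pf.C 1 773))
 (Pq.cons (Pq.L [] 529 (Pf.C 16 16646))
 (Pq.cons (Pq.L [] 8787 (Pf.C 33 0x20c106))
 Pq.nil))))))) (Pq.cons (Pq.D 5 (Pq.cons (Pq.L [] 529 (Pf.C 19 32902))
 (Pq.cons (Pq.L [] 8787 (Pf.C 36 0x208186))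
 (Pq.cons (Pq.L [] 529 (Pf.C 19 32902))
 (Pq.cons (Pq.L [] 0x40000 (Pf.C 1 773))
 (Pq.cons (Pq.L [] 529 (Pf.C 16 16646))
 (Pq.cons (Pq.L [] 8787 (Pf.C 33 0x20c106))
 Pq.nil))))))) (Pq.cons (Pq.L [] 256 (Pf.C 2 642))
 (Pq.cons (Pq.L [] 256 (Pf.C 2 642))
 Pq.nil))))))) (Pq.cons (Pq.L [] 128 (Pf.C 2 514))
 (Pq.cons (Pq.L [] 128 (Pf.C 2 514))
 Pq.nil))))))) (Pq.cons (Pq.D 3 (Pq.cons (Pq.D 4 (Pq.cons (Pq.D 5 (Pq.cons (Pq.L [] 529 (Pf.C 19 32902))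
 (Pq.cons (Pq.L [0] 66197 (Pf.C 46 0x10410300))
 (Pq.cons (Pq.L [] 529 (Pf.C 19 32902))
 (Pq.cons (Pq.L [] 0x40000 (Pf.C 1 773))
 (Pq.cons (Pq.L [] 529 (Pf.C 16 16646))
 (Pq.cons (Pq.L [] 8210 (Pf.C 19 98435))
 Pq.nil))))))) (Pq.cons (Pq.L [] 32768 (Pf.C 10 644))
 (Pq.cons (Pq.D 5 (Pq.cons (Pq.L [] 529 (Pf.C 19 32902))
 (Pq.cons (Pq.L [0] 66197 (Pf.C 46 0x10410300))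
 (Pq.cons (Pq.L [] 529 (Pf.C 19 32902))
 (Pq.cons (Pq.L [] 0x40000 (Pf.C 1 773))
 (Pq.cons (Pq.L [] 529 (Pf.C 16 16646))
 (Pq.cons (Pq.L [] 8210 (Pf.C 19 98435))
 Pq.nil))))))) (Pq.cons (Pq.D 5 (Pq.cons (Pq.L [] 529 (Pf.C 19 32902))
 (Pq.cons (Pq.L [0] 66197 (Pf.C 46 0x10410300))
 (Pq.cons (Pq.L [] 529 (Pf.C 19 32902))
 (Pq.cons (Pq.L [] 0x40000 (Pf.C 1 773))
 (Pq.cons (Pq.L [] 529 (Pf.C 16 16646))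
 (Pq.cons (Pq.L [] 8210 (Pf.C 19 98435))
 Pq.nil))))))) (Pq.cons (Pq.L [] 256 (Pf.C 2 642))
 (Pq.cons (Pq.L [] 4106 (Pf.C 19 82051))
 Pq.nil))))))) (Pq.cons (Pq.D 4 (Pq.cons (Pq.L [] 32768 (Pf.C 10 517))
 (Pq.cons (Pq.D 5 (Pq.cons (Pq.L [] 529 (Pf.C 19 32902))
 (Pq.cons (Pq.L [] 66197 (Pf.C 36 0x208206))
 (Pq.cons (Pq.L [] 529 (Pf.C 19 32902))
 (Pq.cons (Pq.L [] 0x40000 (Pf.C 1 773))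
 (Pq.cons (Pq.L [] 529 (Pf.C 16 16646))
 (Pq.cons (Pq.L [] 8210 (Pf.C 19 98435))
 Pq.nil))))))) (Pq.cons (Pq.D 5 (Pq.cons (Pq.L [] 529 (Pf.C 19 32902))
 (Pq.cons (Pq.L [] 66197 (Pf.C 36 0x208206))
 (Pq.cons (Pq.L [] 529 (Pf.C 19 32902))
 (Pq.cons (Pq.L [] 0x40000 (Pf.C 1 773))
 (Pq.cons (Pq.L [] 529 (Pf.C 16 16646))
 (Pq.cons (Pq.L [] 8210 (Pf.C 19 98435))
 Pq.nil))))))) (Pq.cons (Pq.D 5 (Pq.cons (Pq.L [] 529 (Pf.C 19 32902))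
 (Pq.cons (Pq.L [] 66197 (Pf.C 36 0x208206))
 (Pq.cons (Pq.L [] 529 (Pf.C 19 32902))
 (Pq.cons (Pq.L [] 0x40000 (Pf.C 1 773))
 (Pq.cons (Pq.L [] 529 (Pf.C 16 16646))
 (Pq.cons (Pq.L [] 8210 (Pf.C 19 98435))
 Pq.nil))))))) (Pq.cons (Pq.L [] 256 (Pf.C 2 642))
 (Pq.cons (Pq.L [] 4106 (Pf.C 19 82051))
 Pq.nil))))))) (Pq.cons (Pq.D 4 (Pq.cons (Pq.D 5 (Pq.cons (Pq.L [] 529 (Pf.C 19 32902))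
 (Pq.cons (Pq.L [] 0x40000 (Pf.C 1 773))
 (Pq.cons (Pq.L [] 529 (Pf.C 19 32902))
 (Pq.cons (Pq.L [] 0x40000 (Pf.C 1 773))
 (Pq.cons (Pq.L [] 529 (Pf.C 16 16646))
 (Pq.cons (Pq.L [] 8210 (Pf.C 19 98435))
 Pq.nil))))))) (Pq.cons (Pq.D 5 (Pq.cons (Pq.L [] 529 (Pf.C 19 32902))
 (Pq.cons (Pq.L [] 0x40000 (Pf.C 1 773))
 (Pq.cons (Pq.L [] 529 (Pf.C 19 32902))
 (Pq.cons (Pq.L [] 0x40000 (Pf.C 1 773))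
 (Pq.cons (Pq.L [] 529 (Pf.C 16 16646))
 (Pq.cons (Pq.L [] 8210 (Pf.C 19 98435))
 Pq.nil))))))) (Pq.cons (Pq.D 5 (Pq.cons (Pq.L [] 529 (Pf.C 19 32902))
 (Pq.cons (Pq.L [] 0x40000 (Pf.C 1 773))
 (Pq.cons (Pq.L [] 529 (Pf.C 19 32902))
 (Pq.cons (Pq.L [] 0x40000 (Pf.C 1 773))
 (Pq.cons (Pq.L [] 529 (Pf.C 16 16646))
 (Pq.cons (Pq.L [] 8210 (Pf.C 19 98435))
 Pq.nil))))))) (Pq.cons (Pq.D 5 (Pq.cons (Pq.L [] 529 (Pf.C 19 32902))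
 (Pq.cons (Pq.L [] 0x40000 (Pf.C 1 773))
 (Pq.cons (Pq.L [] 529 (Pf.C 19 32902))
 (Pq.cons (Pq.L [] 0x40000 (Pf.C 1 773))
 (Pq.cons (Pq.L [] 529 (Pf.C 16 16646))
 (Pq.cons (Pq.L [] 8210 (Pf.C 19 98435))
 Pq.nil))))))) (Pq.cons (Pq.L [] 256 (Pf.C 2 642))
 (Pq.cons (Pq.L [] 4106 (Pf.C 19 82051))
 Pq.nil))))))) (Pq.cons (Pq.D 4 (Pq.cons (Pq.D 5 (Pq.cons (Pq.L [] 529 (Pf.C 19 32902))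
 (Pq.cons (Pq.L [] 0x40000 (Pf.C 1 773))
 (Pq.cons (Pq.L [] 529 (Pf.C 19 32902))
 (Pq.cons (Pq.L [] 0x40000 (Pf.C 1 773))
 (Pq.cons (Pq.L [] 529 (Pf.C 16 16646))
 (Pq.cons (Pq.L [] 8210 (Pf.C 19 98435))
 Pq.nil))))))) (Pq.cons (Pq.D 5 (Pq.cons (Pq.L [] 529 (Pf.C 19 32902))
 (Pq.cons (Pq.L [] 0x40000 (Pf.C 1 773))
 (Pq.cons (Pq.L [] 529 (Pf.C 19 32902))
 (Pq.cons (Pq.L [] 0x40000 (Pf.C 1 773))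
 (Pq.cons (Pq.L [] 529 (Pf.C 16 16646))
 (Pq.cons (Pq.L [] 8210 (Pf.C 19 98435))
 Pq.nil))))))) (Pq.cons (Pq.D 5 (Pq.cons (Pq.L [] 529 (Pf.C 19 32902))
 (Pq.cons (Pq.L [] 0x40000 (Pf.C 1 773))
 (Pq.cons (Pq.L [] 529 (Pf.C 19 32902))
 (Pq.cons (Pq.L [] 0x40000 (Pf.C 1 773))
 (Pq.cons (Pq.L [] 529 (Pf.C 16 16646))
 (Pq.cons (Pq.L [] 8210 (Pf.C 19 98435))
 Pq.nil))))))) (Pq.cons (Pq.D 5 (Pq.cons (Pq.L [] 529 (Pf.C 19 32902))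
 (Pq.cons (Pq.L [] 0x40000 (Pf.C 1 773))
 (Pq.cons (Pq.L [] 529 (Pf.C 19 32902))
 (Pq.cons (Pq.L [] 0x40000 (Pf.C 1 773))
 (Pq.cons (Pq.L [] 529 (Pf.C 16 16646))
 (Pq.cons (Pq.L [] 8210 (Pf.C 19 98435))
 Pq.nil))))))) (Pq.cons (Pq.L [] 256 (Pf.C 2 642))
 (Pq.cons (Pq.L [] 4106 (Pf.C 19 82051))
 Pq.nil))))))) (Pq.cons (Pq.L [] 128 (Pf.C 2 514))
 (Pq.cons (Pq.L [] 2054 (Pf.C 19 65667))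
 Pq.nil))))))) (Pq.cons (Pq.D 3 (Pq.cons (Pq.D 4 (Pq.cons (Pq.D 5 (Pq.cons (Pq.L [] 529 (Pf.C 19 32902))
 (Pq.cons (Pq.L [0] 66197 (Pf.C 46 0x10410300))
 (Pq.cons (Pq.L [] 529 (Pf.C 19 32902))
 (Pq.cons (Pq.L [] 0x40000 (Pf.C 1 773))
 (Pq.cons (Pq.L [] 529 (Pf.C 16 16646))
 (Pq.cons (Pq.L [] 65556 (Pf.C 19 98436))
 Pq.nil))))))) (Pq.cons (Pq.L [] 32768 (Pf.C 10 644))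
 (Pq.cons (Pq.D 5 (Pq.cons (Pq.L [] 529 (Pf.C 19 32902))
 (Pq.cons (Pq.L [0] 66197 (Pf.C 46 0x10410300))
 (Pq.cons (Pq.L [] 529 (Pf.C 19 32902))
 (Pq.cons (Pq.L [] 0x40000 (Pf.C 1 773))
 (Pq.cons (Pq.L [] 529 (Pf.C 16 16646))
 (Pq.cons (Pq.L [] 65556 (Pf.C 19 98436))
 Pq.nil))))))) (Pq.cons (Pq.D 5 (Pq.cons (Pq.L [] 529 (Pf.C 19 32902))
 (Pq.cons (Pq.L [0] 66197 (Pf.C 46 0x10410300))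
 (Pq.cons (Pq.L [] 529 (Pf.C 19 32902))
 (Pq.cons (Pq.L [] 0x40000 (Pf.C 1 773))
 (Pq.cons (Pq.L [] 529 (Pf.C 16 16646))
 (Pq.cons (Pq.L [] 65556 (Pf.C 19 98436))
 Pq.nil))))))) (Pq.cons (Pq.L [] 256 (Pf.C 2 642))
 (Pq.cons (Pq.L [] 32780 (Pf.C 19 82052))
 Pq.nil))))))) (Pq.cons (Pq.D 4 (Pq.cons (Pq.L [] 32768 (Pf.C 10 517))
 (Pq.cons (Pq.D 5 (Pq.cons (Pq.L [] 529 (Pf.C 19 32902))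
 (Pq.cons (Pq.L [] 66197 (Pf.C 36 0x208206))
 (Pq.cons (Pq.L [] 529 (Pf.C 19 32902))
 (Pq.cons (Pq.L [] 0x40000 (Pf.C 1 773))
 (Pq.cons (Pq.L [] 529 (Pf.C 16 16646))
 (Pq.cons (Pq.L [] 66197 (Pf.C 33 0x210106))
 Pq.nil))))))) (Pq.cons (Pq.D 5 (Pq.cons (Pq.L [] 529 (Pf.C 19 32902))
 (Pq.cons (Pq.L [] 66197 (Pf.C 36 0x208206))
 (Pq.cons (Pq.L [] 529 (Pf.C 19 32902))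
 (Pq.cons (Pq.L [] 0x40000 (Pf.C 1 773))
 (Pq.cons (Pq.L [] 529 (Pf.C 16 16646))
 (Pq.cons (Pq.L [] 66197 (Pf.C 33 0x210106))
 Pq.nil))))))) (Pq.cons (Pq.D 5 (Pq.cons (Pq.L [] 529 (Pf.C 19 32902))
 (Pq.cons (Pq.L [] 66197 (Pf.C 36 0x208206))
 (Pq.cons (Pq.L [] 529 (Pf.C 19 32902))
 (Pq.cons (Pq.L [] 0x40000 (Pf.C 1 773))
 (Pq.cons (Pq.L [] 529 (Pf.C 16 16646))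
 (Pq.cons (Pq.L [] 66197 (Pf.C 33 0x210106))
 Pq.nil))))))) (Pq.cons (Pq.L [] 256 (Pf.C 2 642))
 (Pq.cons (Pq.L [] 256 (Pf.C 2 642))
 Pq.nil))))))) (Pq.cons (Pq.D 4 (Pq.cons (Pq.D 5 (Pq.cons (Pq.L [] 529 (Pf.C 19 32902))
 (Pq.cons (Pq.L [] 0x40000 (Pf.C 1 773))
 (Pq.cons (Pq.L [] 529 (Pf.C 19 32902))
 (Pq.cons (Pq.L [] 0x40000 (Pf.C 1 773))
 (Pq.cons (Pq.L [] 529 (Pf.C 16 16646))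
 (Pq.cons (Pq.L [] 65556 (Pf.C 19 98436))
 Pq.nil))))))) (Pq.cons (Pq.D 5 (Pq.cons (Pq.L [] 529 (Pf.C 19 32902))
 (Pq.cons (Pq.L [] 0x40000 (Pf.C 1 773))
 (Pq.cons (Pq.L [] 529 (Pf.C 19 32902))
 (Pq.cons (Pq.L [] 0x40000 (Pf.C 1 773))
 (Pq.cons (Pq.L [] 529 (Pf.C 16 16646))
 (Pq.cons (Pq.L [] 65556 (Pf.C 19 98436))
 Pq.nil))))))) (Pq.cons (Pq.D 5 (Pq.cons (Pq.L [] 529 (Pf.C 19 32902))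
 (Pq.cons (Pq.L [] 0x40000 (Pf.C 1 773))
 (Pq.cons (Pq.L [] 529 (Pf.C 19 32902))
 (Pq.cons (Pq.L [] 0x40000 (Pf.C 1 773))
 (Pq.cons (Pq.L [] 529 (Pf.C 16 16646))
 (Pq.cons (Pq.L [] 65556 (Pf.C 19 98436))
 Pq.nil))))))) (Pq.cons (Pq.D 5 (Pq.cons (Pq.L [] 529 (Pf.C 19 32902))
 (Pq.cons (Pq.L [] 0x40000 (Pf.C 1 773))
 (Pq.cons (Pq.L [] 529 (Pf.C 19 32902))
 (Pq.cons (Pq.L [] 0x40000 (Pf.C 1 773))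
 (Pq.cons (Pq.L [] 529 (Pf.C 16 16646))
 (Pq.cons (Pq.L [] 65556 (Pf.C 19 98436))
 Pq.nil))))))) (Pq.cons (Pq.L [] 256 (Pf.C 2 642))
 (Pq.cons (Pq.L [] 32780 (Pf.C 19 82052))
 Pq.nil))))))) (Pq.cons (Pq.D 4 (Pq.cons (Pq.D 5 (Pq.cons (Pq.L [] 529 (Pf.C 19 32902))
 (Pq.cons (Pq.L [] 0x40000 (Pf.C 1 773))
 (Pq.cons (Pq.L [] 529 (Pf.C 19 32902))
 (Pq.cons (Pq.L [] 0x40000 (Pf.C 1 773))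
 (Pq.cons (Pq.L [] 529 (Pf.C 16 16646))
 (Pq.cons (Pq.L [0] 0x1c677b (Pf.B 7 0 (Pf.C 0 0x800e18105) (Pf.C 0 0x1030c1c080)))
 Pq.nil))))))) (Pq.cons (Pq.D 5 (Pq.cons (Pq.L [] 529 (Pf.C 19 32902))
 (Pq.cons (Pq.L [] 0x40000 (Pf.C 1 773))
 (Pq.cons (Pq.L [] 529 (Pf.C 19 32902))
 (Pq.cons (Pq.L [] 0x40000 (Pf.C 1 773))
 (Pq.cons (Pq.L [] 529 (Pf.C 16 16646))
 (Pq.cons (Pq.L [0] 0x1c677b (Pf.B 7 0 (Pf.C 0 0x800e18105) (Pf.C 0 0x1030c1c080)))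
 Pq.nil))))))) (Pq.cons (Pq.D 5 (Pq.cons (Pq.L [] 529 (Pf.C 19 32902))
 (Pq.cons (Pq.L [] 0x40000 (Pf.C 1 773))
 (Pq.cons (Pq.L [] 529 (Pf.C 19 32902))
 (Pq.cons (Pq.L [] 0x40000 (Pf.C 1 773))
 (Pq.cons (Pq.L [] 529 (Pf.C 16 16646))
 (Pq.cons (Pq.L [0] 0x1c677b (Pf.B 7 0 (Pf.C 0 0x800e18105) (Pf.C 0 0x1030c1c080)))
 Pq.nil))))))) (Pq.cons (Pq.D 5 (Pq.cons (Pq.L [] 529 (Pf.C 19 32902))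
 (Pq.cons (Pq.L [] 0x40000 (Pf.C 1 773))
 (Pq.cons (Pq.L [] 529 (Pf.C 19 32902))
 (Pq.cons (Pq.L [] 0x40000 (Pf.C 1 773))
 (Pq.cons (Pq.L [] 529 (Pf.C 16 16646))
 (Pq.cons (Pq.L [0] 0x1c677b (Pf.B 7 0 (Pf.C 0 0x800e18105) (Pf.C 0 0x1030c1c080)))
 Pq.nil))))))) (Pq.cons (Pq.L [] 256 (Pf.C 2 642))
 (Pq.cons (Pq.L [] 256 (Pf.C 2 642))
 Pq.nil))))))) (Pq.cons (Pq.L [] 128 (Pf.C 2 514))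
 (Pq.cons (Pq.L [] 128 (Pf.C 2 514))
 Pq.nil))))))) (Pq.cons (Pq.L [] 64 (Pf.C 2 386))
 (Pq.cons (Pq.L [] 64 (Pf.C 2 386))
 Pq.nil))))))) Pq.nil))))))) Pq.nil)
theorem s1_o44 : AllRef s1_T s1_G63 (List.take 1 (List.drop 3 (List.flatMap (splitP 0) (List.take 1 (applyObl bD_T 3 [75,77,79,81,82,84] [1,1,1,1,2,2] []))))) :=
  chkPq_sound s1_o44c _ (by decide +kernel)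
noncomputable def s1_o45c : Pq := (Pq.cons (Pq.D 2 (Pq.cons (Pq.L [] 64 (Pf.C 1 386))
 (Pq.cons (Pq.L [] 2 (Pf.C 6 385))
 (Pq.cons (Pq.L [] 64 (Pf.C 1 386))
 (Pq.cons (Pq.L [] 64 (Pf.C 1 386))
 (Pq.cons (Pq.L [] 64 (Pf.C 13 259))
 (Pq.cons (Pq.D 3 (Pq.cons (Pq.L [] 128 (Pf.C 1 514))
 (Pq.cons (Pq.L [] 4 (Pf.C 6 513))
 (Pq.cons (Pq.L [] 128 (Pf.C 1 514))
 (Pq.cons (Pq.L [] 2054 (Pf.C 16 65921))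
 (Pq.cons (Pq.L [] 128 (Pf.C 13 260))
 (Pq.cons (Pq.D 4 (Pq.cons (Pq.L [] 256 (Pf.C 1 642))
 (Pq.cons (Pq.L [] 8 (Pf.C 6 641))
 (Pq.cons (Pq.L [] 256 (Pf.C 1 642))
 (Pq.cons (Pq.L [] 4106 (Pf.C 16 82305))
 (Pq.cons (Pq.L [] 256 (Pf.C 13 261))
 (Pq.cons (Pq.D 5 (Pq.cons (Pq.D 6 (Pq.cons (Pq.L [] 0x1c0739 (Pf.C 43 0x10e18105))
 (Pq.cons (Pq.L [] 32 (Pf.C 6 897))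
 (Pq.cons (Pq.L [] 0x1c0739 (Pf.C 43 0x10e18105))
 (Pq.cons (Pq.L [] 16418 (Pf.C 16 0x1c181))
 (Pq.cons (Pq.L [] 0x106673 (Pf.C 58 0x60e08181))
 (Pq.cons (Pq.L [] 0x106673 (Pf.C 58 0x60e08181))
 Pq.nil))))))) (Pq.cons (Pq.L [] 16 (Pf.C 6 769))
 (Pq.cons (Pq.L [] 8768 (Pf.C 29 98563))
 (Pq.cons (Pq.L [] 8210 (Pf.C 16 98689))
 (Pq.cons (Pq.L [] 0x40000 (Pf.C 2 773))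
 (Pq.cons (Pq.L [] 0x40000 (Pf.C 2 773))
 Pq.nil))))))) Pq.nil))))))) Pq.nil))))))) Pq.nil))))))) (Pq.cons (Pq.L [] 1 (Pf.C 6 257))
 (Pq.cons (Pq.D 2 (Pq.cons (Pq.L [] 64 (Pf.C 1 386))
 (Pq.cons (Pq.L [] 2 (Pf.C 6 385))
 (Pq.cons (Pq.L [] 64 (Pf.C 1 386))
 (Pq.cons (Pq.L [] 64 (Pf.C 1 386))
 (Pq.cons (Pq.D 3 (Pq.cons (Pq.L [] 128 (Pf.C 1 514))
 (Pq.cons (Pq.L [] 4 (Pf.C 6 513))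
 (Pq.cons (Pq.L [] 128 (Pf.C 1 514))
 (Pq.cons (Pq.L [] 128 (Pf.C 1 514))
 (Pq.cons (Pq.D 4 (Pq.cons (Pq.L [] 256 (Pf.C 1 642))
 (Pq.cons (Pq.L [] 8 (Pf.C 6 641))
 (Pq.cons (Pq.L [] 256 (Pf.C 1 642))
 (Pq.cons (Pq.L [] 256 (Pf.C 1 642))
 (Pq.cons (Pq.D 5 (Pq.cons (Pq.L [] 0x40000 (Pf.C 13 773))
 (Pq.cons (Pq.L [] 16 (Pf.C 6 769))
 (Pq.cons (Pq.D 6 (Pq.cons (Pq.L [] 0x1c0739 (Pf.C 43 0x10e18105))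
 (Pq.cons (Pq.L [] 32 (Pf.C 6 897))
 (Pq.cons (Pq.L [] 0x1c0739 (Pf.C 43 0x10e18105))
 (Pq.cons (Pq.L [] 0x1c0739 (Pf.C 43 0x10e18105))
 (Pq.cons (Pq.L [] 0x106673 (Pf.C 58 0x60e08181))
 (Pq.cons (Pq.L [] 0x106673 (Pf.C 58 0x60e08181))
 Pq.nil))))))) (Pq.cons (Pq.L [] 8768 (Pf.C 22 98690))
 (Pq.cons (Pq.L [0] 0x43340 (Pf.C 38 0xc14182))
 (Pq.cons (Pq.L [] 8768 (Pf.C 30 98563))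
 Pq.nil))))))) (Pq.cons (Pq.D 5 (Pq.cons (Pq.D 6 (Pq.cons (Pq.L [] 0x1c0739 (Pf.C 43 0x10e18105))
 (Pq.cons (Pq.L [] 32 (Pf.C 6 897))
 (Pq.cons (Pq.L [] 0x1c0739 (Pf.C 43 0x10e18105))
 (Pq.cons (Pq.L [] 0x80028 (Pf.C 16 0x1c281))
 (Pq.cons (Pq.L [] 0x106673 (Pf.C 58 0x60e08181))
 (Pq.cons (Pq.L [] 0x106673 (Pf.C 58 0x60e08181))
 Pq.nil))))))) (Pq.cons (Pq.L [] 16 (Pf.C 6 769))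
 (Pq.cons (Pq.D 6 (Pq.cons (Pq.L [] 0x1c0739 (Pf.C 43 0x10e18105))
 (Pq.cons (Pq.L [] 32 (Pf.C 6 897))
 (Pq.cons (Pq.L [] 0x1c0739 (Pf.C 43 0x10e18105))
 (Pq.cons (Pq.L [] 0x80028 (Pf.C 16 0x1c281))
 (Pq.cons (Pq.L [] 0x106673 (Pf.C 58 0x60e08181))
 (Pq.cons (Pq.L [] 0x106673 (Pf.C 58 0x60e08181))
 Pq.nil))))))) (Pq.cons (Pq.L [] 8768 (Pf.C 22 98690))
 (Pq.cons (Pq.L [] 0x40000 (Pf.C 2 773))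
 (Pq.cons (Pq.L [] 8768 (Pf.C 30 98563))
 Pq.nil))))))) Pq.nil))))))) (Pq.cons (Pq.D 4 (Pq.cons (Pq.L [] 256 (Pf.C 1 642))
 (Pq.cons (Pq.L [] 8 (Pf.C 6 641))
 (Pq.cons (Pq.L [] 256 (Pf.C 1 642))
 (Pq.cons (Pq.L [] 32780 (Pf.C 16 82433))
 (Pq.cons (Pq.D 5 (Pq.cons (Pq.L [] 0x5bbc0 (Pf.C 38 0x40c14182))
 (Pq.cons (Pq.L [] 16 (Pf.C 6 769))
 (Pq.cons (Pq.L [] 0x5bbc0 (Pf.C 38 0x40c14182))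
 (Pq.cons (Pq.L [] 65556 (Pf.C 16 98817))
 (Pq.cons (Pq.L [0] 0x43340 (Pf.C 38 0xc14182))
 (Pq.cons (Pq.L [] 8768 (Pf.C 30 98563))
 Pq.nil))))))) (Pq.cons (Pq.D 5 (Pq.cons (Pq.D 6 (Pq.cons (Pq.L [] 0x1c0739 (Pf.C 43 0x10e18105))
 (Pq.cons (Pq.L [] 32 (Pf.C 6 897))
 (Pq.cons (Pq.L [] 0x1c0739 (Pf.C 43 0x10e18105))
 (Pq.cons (Pq.L [] 0x20024 (Pf.C 16 0x1c201))
 (Pq.cons (Pq.L [] 0x106673 (Pf.C 58 0x60e08181))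
 (Pq.cons (Pq.L [] 0x106673 (Pf.C 58 0x60e08181))
 Pq.nil))))))) (Pq.cons (Pq.L [] 16 (Pf.C 6 769))
 (Pq.cons (Pq.D 6 (Pq.cons (Pq.L [] 0x1c0739 (Pf.C 43 0x10e18105))
 (Pq.cons (Pq.L [] 32 (Pf.C 6 897))
 (Pq.cons (Pq.L [] 0x1c0739 (Pf.C 43 0x10e18105))
 (Pq.cons (Pq.L [] 0x20024 (Pf.C 16 0x1c201))
 (Pq.cons (Pq.L [] 0x106673 (Pf.C 58 0x60e08181))
 (Pq.cons (Pq.L [] 0x106673 (Pf.C 58 0x60e08181))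
 Pq.nil))))))) (Pq.cons (Pq.L [] 65556 (Pf.C 16 98817))
 (Pq.cons (Pq.L [] 0x40000 (Pf.C 2 773))
 (Pq.cons (Pq.L [] 8768 (Pf.C 30 98563))
 Pq.nil))))))) Pq.nil))))))) Pq.nil))))))) (Pq.cons (Pq.D 3 (Pq.cons (Pq.L [] 128 (Pf.C 1 514))
 (Pq.cons (Pq.L [] 4 (Pf.C 6 513))
 (Pq.cons (Pq.L [] 128 (Pf.C 1 514))
 (Pq.cons (Pq.L [] 2054 (Pf.C 16 65921))
 (Pq.cons (Pq.D 4 (Pq.cons (Pq.L [] 256 (Pf.C 1 642))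
 (Pq.cons (Pq.L [] 8 (Pf.C 6 641))
 (Pq.cons (Pq.L [] 256 (Pf.C 1 642))
 (Pq.cons (Pq.L [] 4106 (Pf.C 16 82305))
 (Pq.cons (Pq.D 5 (Pq.cons (Pq.L [] 0x5bbc0 (Pf.C 38 0x30c14202))
 (Pq.cons (Pq.L [] 16 (Pf.C 6 769))
 (Pq.cons (Pq.L [] 0x5bbc0 (Pf.C 38 0x30c14202))
 (Pq.cons (Pq.L [] 8210 (Pf.C 16 98689))
 (Pq.cons (Pq.L [0] 0x58380 (Pf.C 38 0xc14202))
 (Pq.cons (Pq.L [] 66176 (Pf.C 30 98564))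
 Pq.nil))))))) (Pq.cons (Pq.D 5 (Pq.cons (Pq.D 6 (Pq.cons (Pq.L [] 0x1c0739 (Pf.C 43 0x10e18105))
 (Pq.cons (Pq.L [] 32 (Pf.C 6 897))
 (Pq.cons (Pq.L [] 0x1c0739 (Pf.C 43 0x10e18105))
 (Pq.cons (Pq.L [] 16418 (Pf.C 16 0x1c181))
 (Pq.cons (Pq.L [] 0x106673 (Pf.C 58 0x60e08181))
 (Pq.cons (Pq.L [] 0x106673 (Pf.C 58 0x60e08181))
 Pq.nil))))))) (Pq.cons (Pq.L [] 16 (Pf.C 6 769))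
 (Pq.cons (Pq.D 6 (Pq.cons (Pq.L [] 0x1c0739 (Pf.C 43 0x10e18105))
 (Pq.cons (Pq.L [] 32 (Pf.C 6 897))
 (Pq.cons (Pq.L [] 0x1c0739 (Pf.C 43 0x10e18105))
 (Pq.cons (Pq.L [] 16418 (Pf.C 16 0x1c181))
 (Pq.cons (Pq.L [] 0x106673 (Pf.C 58 0x60e08181))
 (Pq.cons (Pq.L [] 0x106673 (Pf.C 58 0x60e08181))
 Pq.nil))))))) (Pq.cons (Pq.L [] 8210 (Pf.C 16 98689))
 (Pq.cons (Pq.L [] 0x40000 (Pf.C 2 773))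
 (Pq.cons (Pq.L [] 66176 (Pf.C 30 98564))
 Pq.nil))))))) Pq.nil))))))) (Pq.cons (Pq.D 4 (Pq.cons (Pq.L [] 256 (Pf.C 1 642))
 (Pq.cons (Pq.L [] 8 (Pf.C 6 641))
 (Pq.cons (Pq.L [] 256 (Pf.C 1 642))
 (Pq.cons (Pq.L [] 4106 (Pf.C 16 82305))
 (Pq.cons (Pq.D 5 (Pq.cons (Pq.L [] 0x43000 (Pf.C 30 49925))
 (Pq.cons (Pq.L [] 16 (Pf.C 6 769))
 (Pq.cons (Pq.L [] 0x43000 (Pf.C 30 49925))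
 (Pq.cons (Pq.L [] 8210 (Pf.C 16 98689))
 (Pq.cons (Pq.L [] 0x40000 (Pf.C 2 773))
 (Pq.cons (Pq.L [] 0x40000 (Pf.C 2 773))
 Pq.nil))))))) (Pq.cons (Pq.D 5 (Pq.cons (Pq.D 6 (Pq.cons (Pq.L [] 0x1c0739 (Pf.C 43 0x10e18105))
 (Pq.cons (Pq.L [] 32 (Pf.C 6 897))
 (Pq.cons (Pq.L [] 0x1c0739 (Pf.C 43 0x10e18105))
 (Pq.cons (Pq.L [] 16418 (Pf.C 16 0x1c181))
 (Pq.cons (Pq.L [] 0x106673 (Pf.C 58 0x60e08181))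
 (Pq.cons (Pq.L [] 0x106673 (Pf.C 58 0x60e08181))
 Pq.nil))))))) (Pq.cons (Pq.L [] 16 (Pf.C 6 769))
 (Pq.cons (Pq.D 6 (Pq.cons (Pq.L [] 0x1c0739 (Pf.C 43 0x10e18105))
 (Pq.cons (Pq.L [] 32 (Pf.C 6 897))
 (Pq.cons (Pq.L [] 0x1c0739 (Pf.C 43 0x10e18105))
 (Pq.cons (Pq.L [] 16418 (Pf.C 16 0x1c181))
 (Pq.cons (Pq.L [] 0x106673 (Pf.C 58 0x60e08181))
 (Pq.cons (Pq.L [] 0x106673 (Pf.C 58 0x60e08181))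
 Pq.nil))))))) (Pq.cons (Pq.L [] 8210 (Pf.C 16 98689))
 (Pq.cons (Pq.L [] 0x40000 (Pf.C 2 773))
 (Pq.cons (Pq.L [] 0x40000 (Pf.C 2 773))
 Pq.nil))))))) Pq.nil))))))) Pq.nil))))))) Pq.nil))))))) (Pq.cons (Pq.D 2 (Pq.cons (Pq.L [] 64 (Pf.C 1 386))
 (Pq.cons (Pq.L [] 2 (Pf.C 6 385))
 (Pq.cons (Pq.L [] 64 (Pf.C 1 386))
 (Pq.cons (Pq.L [] 64 (Pf.C 1 386))
 (Pq.cons (Pq.D 3 (Pq.cons (Pq.L [] 128 (Pf.C 1 514))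
 (Pq.cons (Pq.L [] 4 (Pf.C 6 513))
 (Pq.cons (Pq.L [] 128 (Pf.C 1 514))
 (Pq.cons (Pq.L [] 128 (Pf.C 1 514))
 (Pq.cons (Pq.D 4 (Pq.cons (Pq.L [] 256 (Pf.C 1 642))
 (Pq.cons (Pq.L [] 8 (Pf.C 6 641))
 (Pq.cons (Pq.L [] 256 (Pf.C 1 642))
 (Pq.cons (Pq.L [] 256 (Pf.C 1 642))
 (Pq.cons (Pq.D 5 (Pq.cons (Pq.L [] 0x40000 (Pf.C 13 773))
 (Pq.cons (Pq.L [] 16 (Pf.C 6 769))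
 (Pq.cons (Pq.D 6 (Pq.cons (Pq.L [] 0x1c0739 (Pf.C 43 0x10e18105))
 (Pq.cons (Pq.L [] 32 (Pf.C 6 897))
 (Pq.cons (Pq.L [] 0x1c0739 (Pf.C 43 0x10e18105))
 (Pq.cons (Pq.L [] 0x1c0739 (Pf.C 43 0x10e18105))
 (Pq.cons (Pq.L [] 0x106673 (Pf.C 58 0x60e08181))
 (Pq.cons (Pq.L [] 1057 (Pf.C 16 33665))
 Pq.nil))))))) (Pq.cons (Pq.D 6 (Pq.cons (Pq.L [] 0x1c0739 (Pf.C 43 0x10e18105))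
 (Pq.cons (Pq.L [] 32 (Pf.C 6 897))
 (Pq.cons (Pq.L [] 0x1c0739 (Pf.C 43 0x10e18105))
 (Pq.cons (Pq.L [] 0x1c0739 (Pf.C 43 0x10e18105))
 (Pq.cons (Pq.L [] 0x106673 (Pf.C 58 0x60e08181))
 (Pq.cons (Pq.L [] 1057 (Pf.C 16 33665))
 Pq.nil))))))) (Pq.cons (Pq.L [0] 0x43340 (Pf.C 38 0xc14182))
 (Pq.cons (Pq.L [] 529 (Pf.C 16 33537))
 Pq.nil))))))) (Pq.cons (Pq.D 5 (Pq.cons (Pq.D 6 (Pq.cons (Pq.L [] 0x1c0739 (Pf.C 43 0x10e18105))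
 (Pq.cons (Pq.L [] 32 (Pf.C 6 897))
 (Pq.cons (Pq.L [] 0x1c0739 (Pf.C 43 0x10e18105))
 (Pq.cons (Pq.L [] 0x80028 (Pf.C 16 0x1c281))
 (Pq.cons (Pq.L [] 0x106673 (Pf.C 58 0x60e08181))
 (Pq.cons (Pq.L [] 1057 (Pf.C 16 33665))
 Pq.nil))))))) (Pq.cons (Pq.L [] 16 (Pf.C 6 769))
 (Pq.cons (Pq.D 6 (Pq.cons (Pq.L [] 0x1c0739 (Pf.C 43 0x10e18105))
 (Pq.cons (Pq.L [] 32 (Pf.C 6 897))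
 (Pq.cons (Pq.L [] 0x1c0739 (Pf.C 43 0x10e18105))
 (Pq.cons (Pq.L [] 0x80028 (Pf.C 16 0x1c281))
 (Pq.cons (Pq.L [] 0x106673 (Pf.C 58 0x60e08181))
 (Pq.cons (Pq.L [] 1057 (Pf.C 16 33665))
 Pq.nil))))))) (Pq.cons (Pq.D 6 (Pq.cons (Pq.L [] 0x1c0739 (Pf.C 43 0x10e18105))
 (Pq.cons (Pq.L [] 32 (Pf.C 6 897))
 (Pq.cons (Pq.L [] 0x1c0739 (Pf.C 43 0x10e18105))
 (Pq.cons (Pq.L [] 0x80028 (Pf.C 16 0x1c281))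
 (Pq.cons (Pq.L [] 0x106673 (Pf.C 58 0x60e08181))
 (Pq.cons (Pq.L [] 1057 (Pf.C 16 33665))
 Pq.nil))))))) (Pq.cons (Pq.L [] 0x40000 (Pf.C 2 773))
 (Pq.cons (Pq.L [] 529 (Pf.C 16 33537))
 Pq.nil))))))) Pq.nil))))))) (Pq.cons (Pq.D 4 (Pq.cons (Pq.L [] 256 (Pf.C 1 642))
 (Pq.cons (Pq.L [] 8 (Pf.C 6 641))
 (Pq.cons (Pq.L [] 256 (Pf.C 1 642))
 (Pq.cons (Pq.L [] 32780 (Pf.C 16 82433))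
 (Pq.cons (Pq.D 5 (Pq.cons (Pq.L [] 0x5bbc0 (Pf.C 38 0x40c14182))
 (Pq.cons (Pq.L [] 16 (Pf.C 6 769))
 (Pq.cons (Pq.L [] 0x5bbc0 (Pf.C 38 0x40c14182))
 (Pq.cons (Pq.L [] 65556 (Pf.C 16 98817))
 (Pq.cons (Pq.L [0] 0x43340 (Pf.C 38 0xc14182))
 (Pq.cons (Pq.L [] 529 (Pf.C 16 33537))
 Pq.nil))))))) (Pq.cons (Pq.D 5 (Pq.cons (Pq.D 6 (Pq.cons (Pq.L [] 0x1c0739 (Pf.C 43 0x10e18105))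
 (Pq.cons (Pq.L [] 32 (Pf.C 6 897))
 (Pq.cons (Pq.L [] 0x1c0739 (Pf.C 43 0x10e18105))
 (Pq.cons (Pq.L [] 0x20024 (Pf.C 16 0x1c201))
 (Pq.cons (Pq.L [] 0x106673 (Pf.C 58 0x60e08181))
 (Pq.cons (Pq.L [] 1057 (Pf.C 16 33665))
 Pq.nil))))))) (Pq.cons (Pq.L [] 16 (Pf.C 6 769))
 (Pq.cons (Pq.D 6 (Pq.cons (Pq.L [] 0x1c0739 (Pf.C 43 0x10e18105))
 (Pq.cons (Pq.L [] 32 (Pf.C 6 897))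
 (Pq.cons (Pq.L [] 0x1c0739 (Pf.C 43 0x10e18105))
 (Pq.cons (Pq.L [] 0x20024 (Pf.C 16 0x1c201))
 (Pq.cons (Pq.L [] 0x106673 (Pf.C 58 0x60e08181))
 (Pq.cons (Pq.L [] 1057 (Pf.C 16 33665))
 Pq.nil))))))) (Pq.cons (Pq.L [] 65556 (Pf.C 16 98817))
 (Pq.cons (Pq.L [] 0x40000 (Pf.C 2 773))
 (Pq.cons (Pq.L [] 529 (Pf.C 16 33537))
 Pq.nil))))))) Pq.nil))))))) Pq.nil))))))) (Pq.cons (Pq.D 3 (Pq.cons (Pq.L [] 128 (Pf.C 1 514))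
 (Pq.cons (Pq.L [] 4 (Pf.C 6 513))
 (Pq.cons (Pq.L [] 128 (Pf.C 1 514))
 (Pq.cons (Pq.L [] 2054 (Pf.C 16 65921))
 (Pq.cons (Pq.D 4 (Pq.cons (Pq.L [] 256 (Pf.C 1 642))
 (Pq.cons (Pq.L [] 8 (Pf.C 6 641))
 (Pq.cons (Pq.L [] 256 (Pf.C 1 642))
 (Pq.cons (Pq.L [] 4106 (Pf.C 16 82305))
 (Pq.cons (Pq.D 5 (Pq.cons (Pq.L [] 0x5bbc0 (Pf.C 38 0x30c14202))
 (Pq.cons (Pq.L [] 16 (Pf.C 6 769))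
 (Pq.cons (Pq.L [] 0x5bbc0 (Pf.C 38 0x30c14202))
 (Pq.cons (Pq.L [] 8210 (Pf.C 16 98689))
 (Pq.cons (Pq.L [0] 0x58380 (Pf.C 38 0xc14202))
 (Pq.cons (Pq.L [] 529 (Pf.C 16 33537))
 Pq.nil))))))) (Pq.cons (Pq.D 5 (Pq.cons (Pq.D 6 (Pq.cons (Pq.L [] 0x1c0739 (Pf.C 43 0x10e18105))
 (Pq.cons (Pq.L [] 32 (Pf.C 6 897))
 (Pq.cons (Pq.L [] 0x1c0739 (Pf.C 43 0x10e18105))
 (Pq.cons (Pq.L [] 16418 (Pf.C 16 0x1c181))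
 (Pq.cons (Pq.L [] 0x106673 (Pf.C 58 0x60e08181))
 (Pq.cons (Pq.L [] 1057 (Pf.C 16 33665))
 Pq.nil))))))) (Pq.cons (Pq.L [] 16 (Pf.C 6 769))
 (Pq.cons (Pq.D 6 (Pq.cons (Pq.L [] 0x1c0739 (Pf.C 43 0x10e18105))
 (Pq.cons (Pq.L [] 32 (Pf.C 6 897))
 (Pq.cons (Pq.L [] 0x1c0739 (Pf.C 43 0x10e18105))
 (Pq.cons (Pq.L [] 16418 (Pf.C 16 0x1c181))
 (Pq.cons (Pq.L [] 0x106673 (Pf.C 58 0x60e08181))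
 (Pq.cons (Pq.L [] 1057 (Pf.C 16 33665))
 Pq.nil))))))) (Pq.cons (Pq.L [] 8210 (Pf.C 16 98689))
 (Pq.cons (Pq.L [] 0x40000 (Pf.C 2 773))
 (Pq.cons (Pq.L [] 529 (Pf.C 16 33537))
 Pq.nil))))))) Pq.nil))))))) (Pq.cons (Pq.D 4 (Pq.cons (Pq.L [] 256 (Pf.C 1 642))
 (Pq.cons (Pq.L [] 8 (Pf.C 6 641))
 (Pq.cons (Pq.L [] 256 (Pf.C 1 642))
 (Pq.cons (Pq.L [] 4106 (Pf.C 16 82305))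
 (Pq.cons (Pq.D 5 (Pq.cons (Pq.L [] 0x43000 (Pf.C 30 49925))
 (Pq.cons (Pq.L [] 16 (Pf.C 6 769))
 (Pq.cons (Pq.L [] 0x43000 (Pf.C 30 49925))
 (Pq.cons (Pq.L [] 8210 (Pf.C 16 98689))
 (Pq.cons (Pq.L [] 0x40000 (Pf.C 2 773))
 (Pq.cons (Pq.L [] 529 (Pf.C 16 33537))
 Pq.nil))))))) (Pq.cons (Pq.D 5 (Pq.cons (Pq.D 6 (Pq.cons (Pq.L [] 0x1c0739 (Pf.C 43 0x10e18105))
 (Pq.cons (Pq.L [] 32 (Pf.C 6 897))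
 (Pq.cons (Pq.L [] 0x1c0739 (Pf.C 43 0x10e18105))
 (Pq.cons (Pq.L [] 16418 (Pf.C 16 0x1c181))
 (Pq.cons (Pq.L [] 0x106673 (Pf.C 58 0x60e08181))
 (Pq.cons (Pq.L [] 1057 (Pf.C 16 33665))
 Pq.nil))))))) (Pq.cons (Pq.L [] 16 (Pf.C 6 769))
 (Pq.cons (Pq.D 6 (Pq.cons (Pq.L [] 0x1c0739 (Pf.C 43 0x10e18105))
 (Pq.cons (Pq.L [] 32 (Pf.C 6 897))
 (Pq.cons (Pq.L [] 0x1c0739 (Pf.C 43 0x10e18105))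
 (Pq.cons (Pq.L [] 16418 (Pf.C 16 0x1c181))
 (Pq.cons (Pq.L [] 0x106673 (Pf.C 58 0x60e08181))
 (Pq.cons (Pq.L [] 1057 (Pf.C 16 33665))
 Pq.nil))))))) (Pq.cons (Pq.L [] 8210 (Pf.C 16 98689))
 (Pq.cons (Pq.L [] 0x40000 (Pf.C 2 773))
 (Pq.cons (Pq.L [] 529 (Pf.C 16 33537))
 Pq.nil))))))) Pq.nil))))))) Pq.nil))))))) Pq.nil))))))) Pq.nil))))
theorem s1_o45 : AllRef s1_T s1_G63 (List.take 4 (List.flatMap (splitP 1) (List.take 1 (List.drop 1 (List.drop 3 (List.flatMap (splitP 0) (List.take 1 (applyObl bD_T 3 [75,77,79,81,82,84] [1,1,1,1,2,2] [])))))))) :=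
  chkPq_sound s1_o45c _ (by decide +kernel)
noncomputable def s1_o46c : Pq := (Pq.cons (Pq.D 2 (Pq.cons (Pq.L [] 64 (Pf.C 13 386))
 (Pq.cons (Pq.L [] 2 (Pf.C 6 385))
 (Pq.cons (Pq.D 3 (Pq.cons (Pq.L [] 128 (Pf.C 13 514))
 (Pq.cons (Pq.L [] 4 (Pf.C 6 513))
 (Pq.cons (Pq.D 4 (Pq.cons (Pq.L [] 256 (Pf.C 13 642))
 (Pq.cons (Pq.L [] 8 (Pf.C 6 641))
 (Pq.cons (Pq.D 5 (Pq.cons (Pq.L [] 0x4335b (Pf.C 43 0x10c14182))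
 (Pq.cons (Pq.L [] 16 (Pf.C 6 769))
 (Pq.cons (Pq.L [] 0x4335b (Pf.C 43 0x10c14182))
 (Pq.cons (Pq.L [] 0x4335b (Pf.C 43 0x10c14182))
 (Pq.cons (Pq.D 6 (Pq.cons (Pq.L [] 0x106673 (Pf.C 58 0x70c0c101))
 (Pq.cons (Pq.L [] 32 (Pf.C 6 897))
 (Pq.cons (Pq.L [] 0x106673 (Pf.C 58 0x70c0c101))
 (Pq.cons (Pq.L [] 0x106673 (Pf.C 58 0x70c0c101))
 (Pq.cons (Pq.L [0] 0x1c0700 (Pf.C 38 0xe18105))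
 (Pq.cons (Pq.L [] 17472 (Pf.C 30 0x1c182))
 Pq.nil))))))) (Pq.cons (Pq.L [] 8768 (Pf.C 30 98690))
 Pq.nil))))))) (Pq.cons (Pq.D 5 (Pq.cons (Pq.L [] 0x4335b (Pf.C 43 0x10c14182))
 (Pq.cons (Pq.L [] 16 (Pf.C 6 769))
 (Pq.cons (Pq.L [] 0x4335b (Pf.C 43 0x10c14182))
 (Pq.cons (Pq.L [] 0x4335b (Pf.C 43 0x10c14182))
 (Pq.cons (Pq.D 6 (Pq.cons (Pq.L [] 0x106673 (Pf.C 58 0x70c0c101))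
 (Pq.cons (Pq.L [] 32 (Pf.C 6 897))
 (Pq.cons (Pq.L [] 0x106673 (Pf.C 58 0x70c0c101))
 (Pq.cons (Pq.L [] 0x106673 (Pf.C 58 0x70c0c101))
 (Pq.cons (Pq.L [0] 0x1c0700 (Pf.C 38 0xe18105))
 (Pq.cons (Pq.L [] 0x80028 (Pf.C 16 82817))
 Pq.nil))))))) (Pq.cons (Pq.L [] 8768 (Pf.C 30 98690))
 Pq.nil))))))) (Pq.cons (Pq.L [] 256 (Pf.C 2 642))
 (Pq.cons (Pq.L [] 256 (Pf.C 2 642))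
 Pq.nil))))))) (Pq.cons (Pq.D 4 (Pq.cons (Pq.L [] 256 (Pf.C 13 642))
 (Pq.cons (Pq.L [] 8 (Pf.C 6 641))
 (Pq.cons (Pq.D 5 (Pq.cons (Pq.L [] 0x4335b (Pf.C 43 0x10c14182))
 (Pq.cons (Pq.L [] 16 (Pf.C 6 769))
 (Pq.cons (Pq.L [] 0x4335b (Pf.C 43 0x10c14182))
 (Pq.cons (Pq.L [] 0x4335b (Pf.C 43 0x10c14182))
 (Pq.cons (Pq.L [] 0x5bbc0 (Pf.C 55 0x40c14182))
 (Pq.cons (Pq.L [] 65556 (Pf.C 16 66305))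
 Pq.nil))))))) (Pq.cons (Pq.D 5 (Pq.cons (Pq.L [] 0x4335b (Pf.C 43 0x10c14182))
 (Pq.cons (Pq.L [] 16 (Pf.C 6 769))
 (Pq.cons (Pq.L [] 0x4335b (Pf.C 43 0x10c14182))
 (Pq.cons (Pq.L [] 0x4335b (Pf.C 43 0x10c14182))
 (Pq.cons (Pq.D 6 (Pq.cons (Pq.L [] 0x106673 (Pf.C 58 0x70c0c101))
 (Pq.cons (Pq.L [] 32 (Pf.C 6 897))
 (Pq.cons (Pq.L [] 0x106673 (Pf.C 58 0x70c0c101))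
 (Pq.cons (Pq.L [] 0x106673 (Pf.C 58 0x70c0c101))
 (Pq.cons (Pq.L [0] 0x1c0700 (Pf.C 38 0xe18105))
 (Pq.cons (Pq.L [] 0x20024 (Pf.C 16 66433))
 Pq.nil))))))) (Pq.cons (Pq.L [] 65556 (Pf.C 16 66305))
 Pq.nil))))))) (Pq.cons (Pq.L [] 256 (Pf.C 2 642))
 (Pq.cons (Pq.L [] 32780 (Pf.C 16 66177))
 Pq.nil))))))) (Pq.cons (Pq.L [] 128 (Pf.C 2 514))
 (Pq.cons (Pq.L [] 128 (Pf.C 2 514))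
 Pq.nil))))))) (Pq.cons (Pq.D 3 (Pq.cons (Pq.L [] 128 (Pf.C 13 514))
 (Pq.cons (Pq.L [] 4 (Pf.C 6 513))
 (Pq.cons (Pq.D 4 (Pq.cons (Pq.L [] 256 (Pf.C 13 642))
 (Pq.cons (Pq.L [] 8 (Pf.C 6 641))
 (Pq.cons (Pq.D 5 (Pq.cons (Pq.L [] 0x4335b (Pf.C 43 0x10c14182))
 (Pq.cons (Pq.L [] 16 (Pf.C 6 769))
 (Pq.cons (Pq.L [] 0x4335b (Pf.C 43 0x10c14182))
 (Pq.cons (Pq.L [] 0x4335b (Pf.C 43 0x10c14182))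
 (Pq.cons (Pq.L [] 0x5bbc0 (Pf.C 55 0x30c14202))
 (Pq.cons (Pq.L [] 8210 (Pf.C 16 49921))
 Pq.nil))))))) (Pq.cons (Pq.D 5 (Pq.cons (Pq.L [] 0x4335b (Pf.C 43 0x10c14182))
 (Pq.cons (Pq.L [] 16 (Pf.C 6 769))
 (Pq.cons (Pq.L [] 0x4335b (Pf.C 43 0x10c14182))
 (Pq.cons (Pq.L [] 0x4335b (Pf.C 43 0x10c14182))
 (Pq.cons (Pq.D 6 (Pq.cons (Pq.L [] 0x106673 (Pf.C 58 0x70c0c101))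
 (Pq.cons (Pq.L [] 32 (Pf.C 6 897))
 (Pq.cons (Pq.L [] 0x106673 (Pf.C 58 0x70c0c101))
 (Pq.cons (Pq.L [] 0x106673 (Pf.C 58 0x70c0c101))
 (Pq.cons (Pq.L [0] 0x1c0700 (Pf.C 38 0xe18105))
 (Pq.cons (Pq.L [] 16418 (Pf.C 16 50049))
 Pq.nil))))))) (Pq.cons (Pq.L [] 8210 (Pf.C 16 49921))
 Pq.nil))))))) (Pq.cons (Pq.L [] 256 (Pf.C 2 642))
 (Pq.cons (Pq.L [] 4106 (Pf.C 16 49793))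
 Pq.nil))))))) (Pq.cons (Pq.D 4 (Pq.cons (Pq.L [] 256 (Pf.C 13 642))
 (Pq.cons (Pq.L [] 8 (Pf.C 6 641))
 (Pq.cons (Pq.D 5 (Pq.cons (Pq.L [] 0x4335b (Pf.C 43 0x10c14182))
 (Pq.cons (Pq.L [] 16 (Pf.C 6 769))
 (Pq.cons (Pq.L [] 0x4335b (Pf.C 43 0x10c14182))
 (Pq.cons (Pq.L [] 0x4335b (Pf.C 43 0x10c14182))
 (Pq.cons (Pq.L [] 0x43000 (Pf.C 22 49925))
 (Pq.cons (Pq.L [] 8210 (Pf.C 16 49921))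
 Pq.nil))))))) (Pq.cons (Pq.D 5 (Pq.cons (Pq.L [] 0x4335b (Pf.C 43 0x10c14182))
 (Pq.cons (Pq.L [] 16 (Pf.C 6 769))
 (Pq.cons (Pq.L [] 0x4335b (Pf.C 43 0x10c14182))
 (Pq.cons (Pq.L [] 0x4335b (Pf.C 43 0x10c14182))
 (Pq.cons (Pq.D 6 (Pq.cons (Pq.L [] 0x106673 (Pf.C 58 0x70c0c101))
 (Pq.cons (Pq.L [] 32 (Pf.C 6 897))
 (Pq.cons (Pq.L [] 0x106673 (Pf.C 58 0x70c0c101))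
 (Pq.cons (Pq.L [] 0x106673 (Pf.C 58 0x70c0c101))
 (Pq.cons (Pq.L [0] 0x1c0700 (Pf.C 38 0xe18105))
 (Pq.cons (Pq.L [] 16418 (Pf.C 16 50049))
 Pq.nil))))))) (Pq.cons (Pq.L [] 8210 (Pf.C 16 49921))
 Pq.nil))))))) (Pq.cons (Pq.L [] 256 (Pf.C 2 642))
 (Pq.cons (Pq.L [] 4106 (Pf.C 16 49793))
 Pq.nil))))))) (Pq.cons (Pq.L [] 128 (Pf.C 2 514))
 (Pq.cons (Pq.L [] 2054 (Pf.C 16 49665))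
 Pq.nil))))))) (Pq.cons (Pq.L [] 64 (Pf.C 2 386))
 (Pq.cons (Pq.L [] 64 (Pf.C 2 386))
 Pq.nil))))))) (Pq.cons (Pq.D 2 (Pq.cons (Pq.D 3 (Pq.cons (Pq.D 4 (Pq.cons (Pq.D 5 (Pq.cons (Pq.L [] 0x4335b (Pf.C 43 0x10c14182))
 (Pq.cons (Pq.L [] 16 (Pf.C 6 769))
 (Pq.cons (Pq.L [] 0x4335b (Pf.C 43 0x10c14182))
 (Pq.cons (Pq.L [] 529 (Pf.C 16 98561))
 (Pq.cons (Pq.L [] 0x40000 (Pf.C 13 646))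
 (Pq.cons (Pq.D 6 (Pq.cons (Pq.L [] 0x106673 (Pf.C 58 0x70c0c101))
 (Pq.cons (Pq.L [] 32 (Pf.C 6 897))
 (Pq.cons (Pq.L [] 0x106673 (Pf.C 58 0x70c0c101))
 (Pq.cons (Pq.L [] 1057 (Pf.C 16 0x1c101))
 (Pq.cons (Pq.L [] 0x106640 (Pf.C 35 0xe18182))
 (Pq.cons (Pq.L [] 0x100000 (Pf.C 2 902))
 Pq.nil))))))) Pq.nil))))))) (Pq.cons (Pq.L [] 8 (Pf.C 6 641))
 (Pq.cons (Pq.D 5 (Pq.cons (Pq.L [] 0x4335b (Pf.C 43 0x10c14182))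
 (Pq.cons (Pq.L [] 16 (Pf.C 6 769))
 (Pq.cons (Pq.L [] 0x4335b (Pf.C 43 0x10c14182))
 (Pq.cons (Pq.L [] 529 (Pf.C 16 98561))
 (Pq.cons (Pq.D 6 (Pq.cons (Pq.L [] 0x106673 (Pf.C 58 0x70c0c101))
 (Pq.cons (Pq.L [] 32 (Pf.C 6 897))
 (Pq.cons (Pq.L [] 0x106673 (Pf.C 58 0x70c0c101))
 (Pq.cons (Pq.L [] 1057 (Pf.C 16 0x1c101))
 (Pq.cons (Pq.L [] 0x1c7740 (Pf.C 49 0x70c0c105))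
 (Pq.cons (Pq.L [] 0x106640 (Pf.C 35 0xc1c182))
 Pq.nil))))))) (Pq.cons (Pq.D 6 (Pq.cons (Pq.L [] 0x106673 (Pf.C 58 0x70c0c101))
 (Pq.cons (Pq.L [] 32 (Pf.C 6 897))
 (Pq.cons (Pq.L [] 0x106673 (Pf.C 58 0x70c0c101))
 (Pq.cons (Pq.L [] 1057 (Pf.C 16 0x1c101))
 (Pq.cons (Pq.L [] 0x106640 (Pf.C 35 0xe18182))
 (Pq.cons (Pq.L [] 0x1c7740 (Pf.C 49 0x70c0c105))
 Pq.nil))))))) Pq.nil))))))) (Pq.cons (Pq.D 5 (Pq.cons (Pq.L [] 0x4335b (Pf.C 43 0x10c14182))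
 (Pq.cons (Pq.L [] 16 (Pf.C 6 769))
 (Pq.cons (Pq.L [] 0x4335b (Pf.C 43 0x10c14182))
 (Pq.cons (Pq.L [] 529 (Pf.C 16 98561))
 (Pq.cons (Pq.D 6 (Pq.cons (Pq.L [] 0x106673 (Pf.C 58 0x70c0c101))
 (Pq.cons (Pq.L [] 32 (Pf.C 6 897))
 (Pq.cons (Pq.L [] 0x106673 (Pf.C 58 0x70c0c101))
 (Pq.cons (Pq.L [] 1057 (Pf.C 16 0x1c101))
 (Pq.cons (Pq.L [] 0x1c7740 (Pf.C 49 0x70c0c105))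
 (Pq.cons (Pq.L [] 0x80028 (Pf.C 16 82817))
 Pq.nil))))))) (Pq.cons (Pq.D 6 (Pq.cons (Pq.L [] 0x106673 (Pf.C 58 0x70c0c101))
 (Pq.cons (Pq.L [] 32 (Pf.C 6 897))
 (Pq.cons (Pq.L [] 0x106673 (Pf.C 58 0x70c0c101))
 (Pq.cons (Pq.L [] 1057 (Pf.C 16 0x1c101))
 (Pq.cons (Pq.L [] 0x106640 (Pf.C 35 0xe18182))
 (Pq.cons (Pq.L [] 0x80028 (Pf.C 16 82817))
 Pq.nil))))))) Pq.nil))))))) (Pq.cons (Pq.L [] 256 (Pf.C 2 642))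
 (Pq.cons (Pq.L [] 256 (Pf.C 2 642))
 Pq.nil))))))) (Pq.cons (Pq.L [] 4 (Pf.C 6 513))
 (Pq.cons (Pq.D 4 (Pq.cons (Pq.D 5 (Pq.cons (Pq.L [] 0x4335b (Pf.C 43 0x10c14182))
 (Pq.cons (Pq.L [] 16 (Pf.C 6 769))
 (Pq.cons (Pq.L [] 0x4335b (Pf.C 43 0x10c14182))
 (Pq.cons (Pq.L [] 529 (Pf.C 16 98561))
 (Pq.cons (Pq.L [] 0x5bbc0 (Pf.C 46 0x40c14182))
 (Pq.cons (Pq.L [] 0x5bbc0 (Pf.C 46 0x40c14182))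
 Pq.nil))))))) (Pq.cons (Pq.L [] 8 (Pf.C 6 641))
 (Pq.cons (Pq.D 5 (Pq.cons (Pq.L [] 0x4335b (Pf.C 43 0x10c14182))
 (Pq.cons (Pq.L [] 16 (Pf.C 6 769))
 (Pq.cons (Pq.L [] 0x4335b (Pf.C 43 0x10c14182))
 (Pq.cons (Pq.L [] 529 (Pf.C 16 98561))
 (Pq.cons (Pq.D 6 (Pq.cons (Pq.L [] 0x106673 (Pf.C 58 0x70c0c101))
 (Pq.cons (Pq.L [] 32 (Pf.C 6 897))
 (Pq.cons (Pq.L [] 0x106673 (Pf.C 58 0x70c0c101))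
 (Pq.cons (Pq.L [] 1057 (Pf.C 16 0x1c101))
 (Pq.cons (Pq.L [] 0x1c7740 (Pf.C 49 0x70c0c105))
 (Pq.cons (Pq.L [] 0x106640 (Pf.C 35 0xc1c182))
 Pq.nil))))))) (Pq.cons (Pq.D 6 (Pq.cons (Pq.L [] 0x106673 (Pf.C 58 0x70c0c101))
 (Pq.cons (Pq.L [] 32 (Pf.C 6 897))
 (Pq.cons (Pq.L [] 0x106673 (Pf.C 58 0x70c0c101))
 (Pq.cons (Pq.L [] 1057 (Pf.C 16 0x1c101))
 (Pq.cons (Pq.L [] 0x106640 (Pf.C 35 0xe18182))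
 (Pq.cons (Pq.L [] 0x1c7740 (Pf.C 49 0x70c0c105))
 Pq.nil))))))) Pq.nil))))))) (Pq.cons (Pq.D 5 (Pq.cons (Pq.L [] 0x4335b (Pf.C 43 0x10c14182))
 (Pq.cons (Pq.L [] 16 (Pf.C 6 769))
 (Pq.cons (Pq.L [] 0x4335b (Pf.C 43 0x10c14182))
 (Pq.cons (Pq.L [] 529 (Pf.C 16 98561))
 (Pq.cons (Pq.D 6 (Pq.cons (Pq.L [] 0x106673 (Pf.C 58 0x70c0c101))
 (Pq.cons (Pq.L [] 32 (Pf.C 6 897))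
 (Pq.cons (Pq.L [] 0x106673 (Pf.C 58 0x70c0c101))
 (Pq.cons (Pq.L [] 1057 (Pf.C 16 0x1c101))
 (Pq.cons (Pq.L [] 0x1c7740 (Pf.C 49 0x70c0c105))
 (Pq.cons (Pq.L [] 0x80028 (Pf.C 16 82817))
 Pq.nil))))))) (Pq.cons (Pq.D 6 (Pq.cons (Pq.L [] 0x106673 (Pf.C 58 0x70c0c101))
 (Pq.cons (Pq.L [] 32 (Pf.C 6 897))
 (Pq.cons (Pq.L [] 0x106673 (Pf.C 58 0x70c0c101))
 (Pq.cons (Pq.L [] 1057 (Pf.C 16 0x1c101))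
 (Pq.cons (Pq.L [] 0x106640 (Pf.C 35 0xe18182))
 (Pq.cons (Pq.L [] 0x80028 (Pf.C 16 82817))
 Pq.nil))))))) Pq.nil))))))) (Pq.cons (Pq.L [] 256 (Pf.C 2 642))
 (Pq.cons (Pq.L [] 256 (Pf.C 2 642))
 Pq.nil))))))) (Pq.cons (Pq.D 4 (Pq.cons (Pq.D 5 (Pq.cons (Pq.L [] 0x4335b (Pf.C 43 0x10c14182))
 (Pq.cons (Pq.L [] 16 (Pf.C 6 769))
 (Pq.cons (Pq.L [] 0x4335b (Pf.C 43 0x10c14182))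
 (Pq.cons (Pq.L [] 529 (Pf.C 16 98561))
 (Pq.cons (Pq.L [] 0x5bbc0 (Pf.C 46 0x40c14182))
 (Pq.cons (Pq.L [] 65556 (Pf.C 16 66305))
 Pq.nil))))))) (Pq.cons (Pq.L [] 8 (Pf.C 6 641))
 (Pq.cons (Pq.D 5 (Pq.cons (Pq.L [] 0x4335b (Pf.C 43 0x10c14182))
 (Pq.cons (Pq.L [] 16 (Pf.C 6 769))
 (Pq.cons (Pq.L [] 0x4335b (Pf.C 43 0x10c14182))
 (Pq.cons (Pq.L [] 529 (Pf.C 16 98561))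
 (Pq.cons (Pq.L [] 0x5bbc0 (Pf.C 55 0x40c14182))
 (Pq.cons (Pq.L [] 65556 (Pf.C 16 66305))
 Pq.nil))))))) (Pq.cons (Pq.D 5 (Pq.cons (Pq.L [] 0x4335b (Pf.C 43 0x10c14182))
 (Pq.cons (Pq.L [] 16 (Pf.C 6 769))
 (Pq.cons (Pq.L [] 0x4335b (Pf.C 43 0x10c14182))
 (Pq.cons (Pq.L [] 529 (Pf.C 16 98561))
 (Pq.cons (Pq.D 6 (Pq.cons (Pq.L [] 0x106673 (Pf.C 58 0x70c0c101))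
 (Pq.cons (Pq.L [] 32 (Pf.C 6 897))
 (Pq.cons (Pq.L [] 0x106673 (Pf.C 58 0x70c0c101))
 (Pq.cons (Pq.L [] 1057 (Pf.C 16 0x1c101))
 (Pq.cons (Pq.L [] 0x1c7740 (Pf.C 49 0x70c0c105))
 (Pq.cons (Pq.L [] 0x20024 (Pf.C 16 66433))
 Pq.nil))))))) (Pq.cons (Pq.L [] 65556 (Pf.C 16 66305))
 Pq.nil))))))) (Pq.cons (Pq.L [] 256 (Pf.C 2 642))
 (Pq.cons (Pq.L [] 32780 (Pf.C 16 66177))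
 Pq.nil))))))) (Pq.cons (Pq.L [] 128 (Pf.C 2 514))
 (Pq.cons (Pq.L [] 128 (Pf.C 2 514))
 Pq.nil))))))) (Pq.cons (Pq.L [] 2 (Pf.C 6 385))
 (Pq.cons (Pq.D 3 (Pq.cons (Pq.D 4 (Pq.cons (Pq.D 5 (Pq.cons (Pq.L [] 0x4335b (Pf.C 43 0x10c14182))
 (Pq.cons (Pq.L [] 16 (Pf.C 6 769))
 (Pq.cons (Pq.L [] 0x4335b (Pf.C 43 0x10c14182))
 (Pq.cons (Pq.L [] 529 (Pf.C 16 98561))
 (Pq.cons (Pq.L [] 0x5bbc0 (Pf.C 46 0x30c14202))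
 (Pq.cons (Pq.L [] 0x5bbc0 (Pf.C 46 0x30c14202))
 Pq.nil))))))) (Pq.cons (Pq.L [] 8 (Pf.C 6 641))
 (Pq.cons (Pq.D 5 (Pq.cons (Pq.L [] 0x4335b (Pf.C 43 0x10c14182))
 (Pq.cons (Pq.L [] 16 (Pf.C 6 769))
 (Pq.cons (Pq.L [] 0x4335b (Pf.C 43 0x10c14182))
 (Pq.cons (Pq.L [] 529 (Pf.C 16 98561))
 (Pq.cons (Pq.D 6 (Pq.cons (Pq.L [] 0x106673 (Pf.C 58 0x70c0c101))
 (Pq.cons (Pq.L [] 32 (Pf.C 6 897))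
 (Pq.cons (Pq.L [] 0x106673 (Pf.C 58 0x70c0c101))
 (Pq.cons (Pq.L [] 1057 (Pf.C 16 0x1c101))
 (Pq.cons (Pq.L [] 0x1f8780 (Pf.C 49 0x70c10105))
 (Pq.cons (Pq.L [] 0x130680 (Pf.C 35 0xc1c202))
 Pq.nil))))))) (Pq.cons (Pq.D 6 (Pq.cons (Pq.L [] 0x106673 (Pf.C 58 0x70c0c101))
 (Pq.cons (Pq.L [] 32 (Pf.C 6 897))
 (Pq.cons (Pq.L [] 0x106673 (Pf.C 58 0x70c0c101))
 (Pq.cons (Pq.L [] 1057 (Pf.C 16 0x1c101))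
 (Pq.cons (Pq.L [] 0x130680 (Pf.C 35 0xe18202))
 (Pq.cons (Pq.L [] 0x1f8780 (Pf.C 49 0x70c10105))
 Pq.nil))))))) Pq.nil))))))) (Pq.cons (Pq.D 5 (Pq.cons (Pq.L [] 0x4335b (Pf.C 43 0x10c14182))
 (Pq.cons (Pq.L [] 16 (Pf.C 6 769))
 (Pq.cons (Pq.L [] 0x4335b (Pf.C 43 0x10c14182))
 (Pq.cons (Pq.L [] 529 (Pf.C 16 98561))
 (Pq.cons (Pq.D 6 (Pq.cons (Pq.L [] 0x106673 (Pf.C 58 0x70c0c101))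
 (Pq.cons (Pq.L [] 32 (Pf.C 6 897))
 (Pq.cons (Pq.L [] 0x106673 (Pf.C 58 0x70c0c101))
 (Pq.cons (Pq.L [] 1057 (Pf.C 16 0x1c101))
 (Pq.cons (Pq.L [] 0x1f8780 (Pf.C 49 0x70c10105))
 (Pq.cons (Pq.L [] 0x80028 (Pf.C 16 82817))
 Pq.nil))))))) (Pq.cons (Pq.D 6 (Pq.cons (Pq.L [] 0x106673 (Pf.C 58 0x70c0c101))
 (Pq.cons (Pq.L [] 32 (Pf.C 6 897))
 (Pq.cons (Pq.L [] 0x106673 (Pf.C 58 0x70c0c101))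
 (Pq.cons (Pq.L [] 1057 (Pf.C 16 0x1c101))
 (Pq.cons (Pq.L [] 0x130680 (Pf.C 35 0xe18202))
 (Pq.cons (Pq.L [] 0x80028 (Pf.C 16 82817))
 Pq.nil))))))) Pq.nil))))))) (Pq.cons (Pq.L [] 256 (Pf.C 2 642))
 (Pq.cons (Pq.L [] 256 (Pf.C 2 642))
 Pq.nil))))))) (Pq.cons (Pq.L [] 4 (Pf.C 6 513))
 (Pq.cons (Pq.D 4 (Pq.cons (Pq.D 5 (Pq.cons (Pq.L [] 0x4335b (Pf.C 43 0x10c14182))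
 (Pq.cons (Pq.L [] 16 (Pf.C 6 769))
 (Pq.cons (Pq.L [] 0x4335b (Pf.C 43 0x10c14182))
 (Pq.cons (Pq.L [] 529 (Pf.C 16 98561))
 (Pq.cons (Pq.L [] 0x43000 (Pf.C 29 49798))
 (Pq.cons (Pq.L [] 0x43000 (Pf.C 29 49798))
 Pq.nil))))))) (Pq.cons (Pq.L [] 8 (Pf.C 6 641))
 (Pq.cons (Pq.D 5 (Pq.cons (Pq.L [] 0x4335b (Pf.C 43 0x10c14182))
 (Pq.cons (Pq.L [] 16 (Pf.C 6 769))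
 (Pq.cons (Pq.L [] 0x4335b (Pf.C 43 0x10c14182))
 (Pq.cons (Pq.L [] 529 (Pf.C 16 98561))
 (Pq.cons (Pq.D 6 (Pq.cons (Pq.L [] 0x106673 (Pf.C 58 0x70c0c101))
 (Pq.cons (Pq.L [] 32 (Pf.C 6 897))
 (Pq.cons (Pq.L [] 0x106673 (Pf.C 58 0x70c0c101))
 (Pq.cons (Pq.L [] 1057 (Pf.C 16 0x1c101))
 (Pq.cons (Pq.L [] 0x100000 (Pf.C 2 902))
 (Pq.cons (Pq.L [] 0x100000 (Pf.C 2 902))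
 Pq.nil))))))) (Pq.cons (Pq.D 6 (Pq.cons (Pq.L [] 0x106673 (Pf.C 58 0x70c0c101))
 (Pq.cons (Pq.L [] 32 (Pf.C 6 897))
 (Pq.cons (Pq.L [] 0x106673 (Pf.C 58 0x70c0c101))
 (Pq.cons (Pq.L [] 1057 (Pf.C 16 0x1c101))
 (Pq.cons (Pq.L [] 0x100000 (Pf.C 2 902))
 (Pq.cons (Pq.L [] 0x100000 (Pf.C 2 902))
 Pq.nil))))))) Pq.nil))))))) (Pq.cons (Pq.D 5 (Pq.cons (Pq.L [] 0x4335b (Pf.C 43 0x10c14182))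
 (Pq.cons (Pq.L [] 16 (Pf.C 6 769))
 (Pq.cons (Pq.L [] 0x4335b (Pf.C 43 0x10c14182))
 (Pq.cons (Pq.L [] 529 (Pf.C 16 98561))
 (Pq.cons (Pq.D 6 (Pq.cons (Pq.L [] 0x106673 (Pf.C 58 0x70c0c101))
 (Pq.cons (Pq.L [] 32 (Pf.C 6 897))
 (Pq.cons (Pq.L [] 0x106673 (Pf.C 58 0x70c0c101))
 (Pq.cons (Pq.L [] 1057 (Pf.C 16 0x1c101))
 (Pq.cons (Pq.L [] 0x1c7740 (Pf.C 56 0x70c0c105))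
 (Pq.cons (Pq.L [] 0x80028 (Pf.C 16 82817))
 Pq.nil))))))) (Pq.cons (Pq.D 6 (Pq.cons (Pq.L [] 0x106673 (Pf.C 58 0x70c0c101))
 (Pq.cons (Pq.L [] 32 (Pf.C 6 897))
 (Pq.cons (Pq.L [] 0x106673 (Pf.C 58 0x70c0c101))
 (Pq.cons (Pq.L [] 1057 (Pf.C 16 0x1c101))
 (Pq.cons (Pq.L [] 0x1c7740 (Pf.C 56 0x70c0c105))
 (Pq.cons (Pq.L [] 0x80028 (Pf.C 16 82817))
 Pq.nil))))))) Pq.nil))))))) (Pq.cons (Pq.L [] 256 (Pf.C 2 642))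
 (Pq.cons (Pq.L [] 256 (Pf.C 2 642))
 Pq.nil))))))) (Pq.cons (Pq.D 4 (Pq.cons (Pq.D 5 (Pq.cons (Pq.L [] 0x4335b (Pf.C 43 0x10c14182))
 (Pq.cons (Pq.L [] 16 (Pf.C 6 769))
 (Pq.cons (Pq.L [] 0x4335b (Pf.C 43 0x10c14182))
 (Pq.cons (Pq.L [] 529 (Pf.C 16 98561))
 (Pq.cons (Pq.L [] 0x5bbc0 (Pf.C 55 0x40c14182))
 (Pq.cons (Pq.L [] 65556 (Pf.C 16 66305))
 Pq.nil))))))) (Pq.cons (Pq.L [] 8 (Pf.C 6 641))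
 (Pq.cons (Pq.D 5 (Pq.cons (Pq.L [] 0x4335b (Pf.C 43 0x10c14182))
 (Pq.cons (Pq.L [] 16 (Pf.C 6 769))
 (Pq.cons (Pq.L [] 0x4335b (Pf.C 43 0x10c14182))
 (Pq.cons (Pq.L [] 529 (Pf.C 16 98561))
 (Pq.cons (Pq.L [] 0x5bbc0 (Pf.C 55 0x40c14182))
 (Pq.cons (Pq.L [] 65556 (Pf.C 16 66305))
 Pq.nil))))))) (Pq.cons (Pq.D 5 (Pq.cons (Pq.L [] 0x4335b (Pf.C 43 0x10c14182))
 (Pq.cons (Pq.L [] 16 (Pf.C 6 769))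
 (Pq.cons (Pq.L [] 0x4335b (Pf.C 43 0x10c14182))
 (Pq.cons (Pq.L [] 529 (Pf.C 16 98561))
 (Pq.cons (Pq.D 6 (Pq.cons (Pq.L [] 0x106673 (Pf.C 58 0x70c0c101))
 (Pq.cons (Pq.L [] 32 (Pf.C 6 897))
 (Pq.cons (Pq.L [] 0x106673 (Pf.C 58 0x70c0c101))
 (Pq.cons (Pq.L [] 1057 (Pf.C 16 0x1c101))
 (Pq.cons (Pq.L [] 0x1c7740 (Pf.C 56 0x70c0c105))
 (Pq.cons (Pq.L [] 0x20024 (Pf.C 16 66433))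
 Pq.nil))))))) (Pq.cons (Pq.L [] 65556 (Pf.C 16 66305))
 Pq.nil))))))) (Pq.cons (Pq.L [] 256 (Pf.C 2 642))
 (Pq.cons (Pq.L [] 32780 (Pf.C 16 66177))
 Pq.nil))))))) (Pq.cons (Pq.L [] 128 (Pf.C 2 514))
 (Pq.cons (Pq.L [] 128 (Pf.C 2 514))
 Pq.nil))))))) (Pq.cons (Pq.D 3 (Pq.cons (Pq.D 4 (Pq.cons (Pq.D 5 (Pq.cons (Pq.L [] 0x4335b (Pf.C 43 0x10c14182))
 (Pq.cons (Pq.L [] 16 (Pf.C 6 769))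
 (Pq.cons (Pq.L [] 0x4335b (Pf.C 43 0x10c14182))
 (Pq.cons (Pq.L [] 529 (Pf.C 16 98561))
 (Pq.cons (Pq.L [] 0x5bbc0 (Pf.C 46 0x30c14202))
 (Pq.cons (Pq.L [] 8210 (Pf.C 16 49921))
 Pq.nil))))))) (Pq.cons (Pq.L [] 8 (Pf.C 6 641))
 (Pq.cons (Pq.D 5 (Pq.cons (Pq.L [] 0x4335b (Pf.C 43 0x10c14182))
 (Pq.cons (Pq.L [] 16 (Pf.C 6 769))
 (Pq.cons (Pq.L [] 0x4335b (Pf.C 43 0x10c14182))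
 (Pq.cons (Pq.L [] 529 (Pf.C 16 98561))
 (Pq.cons (Pq.L [] 0x5bbc0 (Pf.C 55 0x30c14202))
 (Pq.cons (Pq.L [] 8210 (Pf.C 16 49921))
 Pq.nil))))))) (Pq.cons (Pq.D 5 (Pq.cons (Pq.L [] 0x4335b (Pf.C 43 0x10c14182))
 (Pq.cons (Pq.L [] 16 (Pf.C 6 769))
 (Pq.cons (Pq.L [] 0x4335b (Pf.C 43 0x10c14182))
 (Pq.cons (Pq.L [] 529 (Pf.C 16 98561))
 (Pq.cons (Pq.D 6 (Pq.cons (Pq.L [] 0x106673 (Pf.C 58 0x70c0c101))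
 (Pq.cons (Pq.L [] 32 (Pf.C 6 897))
 (Pq.cons (Pq.L [] 0x106673 (Pf.C 58 0x70c0c101))
 (Pq.cons (Pq.L [] 1057 (Pf.C 16 0x1c101))
 (Pq.cons (Pq.L [] 0x1f8780 (Pf.C 49 0x70c10105))
 (Pq.cons (Pq.L [] 16418 (Pf.C 16 50049))
 Pq.nil))))))) (Pq.cons (Pq.L [] 8210 (Pf.C 16 49921))
 Pq.nil))))))) (Pq.cons (Pq.L [] 256 (Pf.C 2 642))
 (Pq.cons (Pq.L [] 4106 (Pf.C 16 49793))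
 Pq.nil))))))) (Pq.cons (Pq.L [] 4 (Pf.C 6 513))
 (Pq.cons (Pq.D 4 (Pq.cons (Pq.D 5 (Pq.cons (Pq.L [] 0x4335b (Pf.C 43 0x10c14182))
 (Pq.cons (Pq.L [] 16 (Pf.C 6 769))
 (Pq.cons (Pq.L [] 0x4335b (Pf.C 43 0x10c14182))
 (Pq.cons (Pq.L [] 529 (Pf.C 16 98561))
 (Pq.cons (Pq.L [] 0x5bbc0 (Pf.C 55 0x30c14202))
 (Pq.cons (Pq.L [] 8210 (Pf.C 16 49921))
 Pq.nil))))))) (Pq.cons (Pq.L [] 8 (Pf.C 6 641))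
 (Pq.cons (Pq.D 5 (Pq.cons (Pq.L [] 0x4335b (Pf.C 43 0x10c14182))
 (Pq.cons (Pq.L [] 16 (Pf.C 6 769))
 (Pq.cons (Pq.L [] 0x4335b (Pf.C 43 0x10c14182))
 (Pq.cons (Pq.L [] 529 (Pf.C 16 98561))
 (Pq.cons (Pq.L [] 0x5bbc0 (Pf.C 55 0x30c14202))
 (Pq.cons (Pq.L [] 8210 (Pf.C 16 49921))
 Pq.nil))))))) (Pq.cons (Pq.D 5 (Pq.cons (Pq.L [] 0x4335b (Pf.C 43 0x10c14182))
 (Pq.cons (Pq.L [] 16 (Pf.C 6 769))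
 (Pq.cons (Pq.L [] 0x4335b (Pf.C 43 0x10c14182))
 (Pq.cons (Pq.L [] 529 (Pf.C 16 98561))
 (Pq.cons (Pq.D 6 (Pq.cons (Pq.L [] 0x106673 (Pf.C 58 0x70c0c101))
 (Pq.cons (Pq.L [] 32 (Pf.C 6 897))
 (Pq.cons (Pq.L [] 0x106673 (Pf.C 58 0x70c0c101))
 (Pq.cons (Pq.L [] 1057 (Pf.C 16 0x1c101))
 (Pq.cons (Pq.L [] 0x1f8780 (Pf.C 56 0x70c10105))
 (Pq.cons (Pq.L [] 16418 (Pf.C 16 50049))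
 Pq.nil))))))) (Pq.cons (Pq.L [] 8210 (Pf.C 16 49921))
 Pq.nil))))))) (Pq.cons (Pq.L [] 256 (Pf.C 2 642))
 (Pq.cons (Pq.L [] 4106 (Pf.C 16 49793))
 Pq.nil))))))) (Pq.cons (Pq.D 4 (Pq.cons (Pq.D 5 (Pq.cons (Pq.L [] 0x4335b (Pf.C 43 0x10c14182))
 (Pq.cons (Pq.L [] 16 (Pf.C 6 769))
 (Pq.cons (Pq.L [] 0x4335b (Pf.C 43 0x10c14182))
 (Pq.cons (Pq.L [] 529 (Pf.C 16 98561))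
 (Pq.cons (Pq.L [] 0x40000 (Pf.C 13 646))
 (Pq.cons (Pq.L [] 8210 (Pf.C 16 49921))
 Pq.nil))))))) (Pq.cons (Pq.L [] 8 (Pf.C 6 641))
 (Pq.cons (Pq.D 5 (Pq.cons (Pq.L [] 0x4335b (Pf.C 43 0x10c14182))
 (Pq.cons (Pq.L [] 16 (Pf.C 6 769))
 (Pq.cons (Pq.L [] 0x4335b (Pf.C 43 0x10c14182))
 (Pq.cons (Pq.L [] 529 (Pf.C 16 98561))
 (Pq.cons (Pq.L [] 0x43000 (Pf.C 22 49925))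
 (Pq.cons (Pq.L [] 8210 (Pf.C 16 49921))
 Pq.nil))))))) (Pq.cons (Pq.D 5 (Pq.cons (Pq.L [] 0x4335b (Pf.C 43 0x10c14182))
 (Pq.cons (Pq.L [] 16 (Pf.C 6 769))
 (Pq.cons (Pq.L [] 0x4335b (Pf.C 43 0x10c14182))
 (Pq.cons (Pq.L [] 529 (Pf.C 16 98561))
 (Pq.cons (Pq.D 6 (Pq.cons (Pq.L [] 0x106673 (Pf.C 58 0x70c0c101))
 (Pq.cons (Pq.L [] 32 (Pf.C 6 897))
 (Pq.cons (Pq.L [] 0x106673 (Pf.C 58 0x70c0c101))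
 (Pq.cons (Pq.L [] 1057 (Pf.C 16 0x1c101))
 (Pq.cons (Pq.L [] 0x100000 (Pf.C 2 902))
 (Pq.cons (Pq.L [] 16418 (Pf.C 16 50049))
 Pq.nil))))))) (Pq.cons (Pq.L [] 8210 (Pf.C 16 49921))
 Pq.nil))))))) (Pq.cons (Pq.L [] 256 (Pf.C 2 642))
 (Pq.cons (Pq.L [] 4106 (Pf.C 16 49793))
 Pq.nil))))))) (Pq.cons (Pq.L [] 128 (Pf.C 2 514))
 (Pq.cons (Pq.L [] 2054 (Pf.C 16 49665))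
 Pq.nil))))))) (Pq.cons (Pq.L [] 64 (Pf.C 2 386))
 (Pq.cons (Pq.L [] 64 (Pf.C 2 386))
 Pq.nil))))))) Pq.nil))
theorem s1_o46 : AllRef s1_T s1_G63 (List.drop 4 (List.flatMap (splitP 1) (List.take 1 (List.drop 1 (List.drop 3 (List.flatMap (splitP 0) (List.take 1 (applyObl bD_T 3 [75,77,79,81,82,84] [1,1,1,1,2,2] [])))))))) :=
  chkPq_sound s1_o46c _ (by decide +kernel)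
noncomputable def s1_o47c : Pq := (Pq.cons (Pq.D 1 (Pq.cons (Pq.D 2 (Pq.cons (Pq.L [] 64 (Pf.C 1 386))
 (Pq.cons (Pq.L [] 64 (Pf.C 1 386))
 (Pq.cons (Pq.L [] 64 (Pf.C 1 386))
 (Pq.cons (Pq.L [] 64 (Pf.C 1 386))
 (Pq.cons (Pq.L [] 67 (Pf.C 30 16643))
 (Pq.cons (Pq.D 3 (Pq.cons (Pq.L [] 128 (Pf.C 1 514))
 (Pq.cons (Pq.L [] 128 (Pf.C 1 514))
 (Pq.cons (Pq.L [] 128 (Pf.C 1 514))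
 (Pq.cons (Pq.L [] 128 (Pf.C 1 514))
 (Pq.cons (Pq.L [] 133 (Pf.C 30 16644))
 (Pq.cons (Pq.D 4 (Pq.cons (Pq.L [] 256 (Pf.C 1 642))
 (Pq.cons (Pq.L [] 256 (Pf.C 1 642))
 (Pq.cons (Pq.L [] 256 (Pf.C 1 642))
 (Pq.cons (Pq.L [] 256 (Pf.C 1 642))
 (Pq.cons (Pq.L [] 265 (Pf.C 30 16645))
 (Pq.cons (Pq.D 5 (Pq.cons (Pq.D 6 (Pq.cons (Pq.L [] 0x1c0739 (Pf.C 42 0x10e18105))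
 (Pq.cons (Pq.L [] 1057 (Pf.C 19 17282))
 (Pq.cons (Pq.L [] 17507 (Pf.C 33 0xe08181))
 (Pq.cons (Pq.L [] 1057 (Pf.C 19 17282))
 (Pq.cons (Pq.L [] 0x100030 (Pf.C 30 17159))
 (Pq.cons (Pq.L [] 0x106673 (Pf.C 57 0x60e08181))
 Pq.nil))))))) (Pq.cons (Pq.L [] 529 (Pf.C 19 17154))
 (Pq.cons (Pq.L [] 8787 (Pf.C 33 0xc08181))
 (Pq.cons (Pq.L [] 529 (Pf.C 19 17154))
 (Pq.cons (Pq.L [] 0x40000 (Pf.C 2 773))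
 (Pq.cons (Pq.L [] 0x40000 (Pf.C 2 773))
 Pq.nil))))))) Pq.nil))))))) Pq.nil))))))) Pq.nil))))))) (Pq.cons (Pq.D 2 (Pq.cons (Pq.L [] 64 (Pf.C 1 386))
 (Pq.cons (Pq.L [] 64 (Pf.C 1 386))
 (Pq.cons (Pq.L [] 64 (Pf.C 1 386))
 (Pq.cons (Pq.L [] 64 (Pf.C 1 386))
 (Pq.cons (Pq.D 3 (Pq.cons (Pq.L [] 128 (Pf.C 1 514))
 (Pq.cons (Pq.L [] 2054 (Pf.C 16 65667))
 (Pq.cons (Pq.L [] 128 (Pf.C 1 514))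
 (Pq.cons (Pq.L [] 2054 (Pf.C 16 65667))
 (Pq.cons (Pq.D 4 (Pq.cons (Pq.L [] 256 (Pf.C 1 642))
 (Pq.cons (Pq.L [] 4106 (Pf.C 16 82051))
 (Pq.cons (Pq.L [] 256 (Pf.C 1 642))
 (Pq.cons (Pq.L [] 4106 (Pf.C 16 82051))
 (Pq.cons (Pq.D 5 (Pq.cons (Pq.L [] 529 (Pf.C 19 16646))
 (Pq.cons (Pq.L [] 8210 (Pf.C 16 98435))
 (Pq.cons (Pq.L [] 529 (Pf.C 19 16646))
 (Pq.cons (Pq.L [] 8210 (Pf.C 16 98435))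
 (Pq.cons (Pq.L [] 529 (Pf.C 16 32902))
 (Pq.cons (Pq.L [] 0x40000 (Pf.C 2 773))
 Pq.nil))))))) (Pq.cons (Pq.D 5 (Pq.cons (Pq.L [] 529 (Pf.C 19 16646))
 (Pq.cons (Pq.L [] 8210 (Pf.C 16 98435))
 (Pq.cons (Pq.L [] 529 (Pf.C 19 16646))
 (Pq.cons (Pq.L [] 8210 (Pf.C 16 98435))
 (Pq.cons (Pq.L [] 529 (Pf.C 16 32902))
 (Pq.cons (Pq.L [] 0x40000 (Pf.C 2 773))
 Pq.nil))))))) Pq.nil))))))) (Pq.cons (Pq.D 4 (Pq.cons (Pq.L [] 256 (Pf.C 1 642))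
 (Pq.cons (Pq.L [] 4106 (Pf.C 16 82051))
 (Pq.cons (Pq.L [] 256 (Pf.C 1 642))
 (Pq.cons (Pq.L [] 4106 (Pf.C 16 82051))
 (Pq.cons (Pq.D 5 (Pq.cons (Pq.L [] 529 (Pf.C 19 16646))
 (Pq.cons (Pq.L [] 8210 (Pf.C 16 98435))
 (Pq.cons (Pq.L [] 529 (Pf.C 19 16646))
 (Pq.cons (Pq.L [] 8210 (Pf.C 16 98435))
 (Pq.cons (Pq.L [] 529 (Pf.C 16 32902))
 (Pq.cons (Pq.L [] 0x40000 (Pf.C 2 773))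
 Pq.nil))))))) (Pq.cons (Pq.D 5 (Pq.cons (Pq.L [] 529 (Pf.C 19 16646))
 (Pq.cons (Pq.L [] 8210 (Pf.C 16 98435))
 (Pq.cons (Pq.L [] 529 (Pf.C 19 16646))
 (Pq.cons (Pq.L [] 8210 (Pf.C 16 98435))
 (Pq.cons (Pq.L [] 529 (Pf.C 16 32902))
 (Pq.cons (Pq.L [] 0x40000 (Pf.C 2 773))
 Pq.nil))))))) Pq.nil))))))) Pq.nil))))))) (Pq.cons (Pq.D 3 (Pq.cons (Pq.L [] 128 (Pf.C 1 514))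
 (Pq.cons (Pq.L [] 128 (Pf.C 1 514))
 (Pq.cons (Pq.L [] 128 (Pf.C 1 514))
 (Pq.cons (Pq.L [] 128 (Pf.C 1 514))
 (Pq.cons (Pq.D 4 (Pq.cons (Pq.L [] 256 (Pf.C 1 642))
 (Pq.cons (Pq.L [] 32780 (Pf.C 16 82052))
 (Pq.cons (Pq.L [] 256 (Pf.C 1 642))
 (Pq.cons (Pq.L [] 32780 (Pf.C 16 82052))
 (Pq.cons (Pq.D 5 (Pq.cons (Pq.L [] 529 (Pf.C 19 16646))
 (Pq.cons (Pq.L [] 65556 (Pf.C 16 98436))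
 (Pq.cons (Pq.L [] 529 (Pf.C 19 16646))
 (Pq.cons (Pq.L [] 65556 (Pf.C 16 98436))
 (Pq.cons (Pq.L [] 529 (Pf.C 16 32902))
 (Pq.cons (Pq.L [] 0x40000 (Pf.C 2 773))
 Pq.nil))))))) (Pq.cons (Pq.D 5 (Pq.cons (Pq.L [] 529 (Pf.C 19 16646))
 (Pq.cons (Pq.L [] 65556 (Pf.C 16 98436))
 (Pq.cons (Pq.L [] 529 (Pf.C 19 16646))
 (Pq.cons (Pq.L [] 65556 (Pf.C 16 98436))
 (Pq.cons (Pq.L [] 529 (Pf.C 16 32902))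
 (Pq.cons (Pq.L [] 0x40000 (Pf.C 2 773))
 Pq.nil))))))) Pq.nil))))))) (Pq.cons (Pq.D 4 (Pq.cons (Pq.L [] 256 (Pf.C 1 642))
 (Pq.cons (Pq.L [] 256 (Pf.C 1 642))
 (Pq.cons (Pq.L [] 256 (Pf.C 1 642))
 (Pq.cons (Pq.L [] 256 (Pf.C 1 642))
 (Pq.cons (Pq.D 5 (Pq.cons (Pq.L [] 529 (Pf.C 19 16646))
 (Pq.cons (Pq.D 6 (Pq.cons (Pq.L [] 1057 (Pf.C 19 16647))
 (Pq.cons (Pq.L [] 0x80028 (Pf.C 16 0x1c085))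
 (Pq.cons (Pq.L [] 1057 (Pf.C 19 16647))
 (Pq.cons (Pq.L [] 0x80028 (Pf.C 16 0x1c085))
 (Pq.cons (Pq.L [] 1057 (Pf.C 16 32903))
 (Pq.cons (Pq.L [] 0x106673 (Pf.C 57 0x60e08181))
 Pq.nil))))))) (Pq.cons (Pq.L [] 529 (Pf.C 19 16646))
 (Pq.cons (Pq.L [] 8787 (Pf.C 33 0xc08181))
 (Pq.cons (Pq.L [] 529 (Pf.C 16 32902))
 (Pq.cons (Pq.L [] 0x40000 (Pf.C 2 773))
 Pq.nil))))))) (Pq.cons (Pq.D 5 (Pq.cons (Pq.L [] 529 (Pf.C 19 16646))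
 (Pq.cons (Pq.D 6 (Pq.cons (Pq.L [] 1057 (Pf.C 19 16647))
 (Pq.cons (Pq.L [] 0x1c0739 (Pf.C 42 0x10e18105))
 (Pq.cons (Pq.L [] 1057 (Pf.C 19 16647))
 (Pq.cons (Pq.L [] 17507 (Pf.C 33 0xe08181))
 (Pq.cons (Pq.L [] 1057 (Pf.C 16 32903))
 (Pq.cons (Pq.L [] 0x106673 (Pf.C 57 0x60e08181))
 Pq.nil))))))) (Pq.cons (Pq.L [] 529 (Pf.C 19 16646))
 (Pq.cons (Pq.L [] 8787 (Pf.C 33 0xc08181))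
 (Pq.cons (Pq.L [] 529 (Pf.C 16 32902))
 (Pq.cons (Pq.L [] 0x40000 (Pf.C 2 773))
 Pq.nil))))))) Pq.nil))))))) Pq.nil))))))) Pq.nil))))))) (Pq.cons (Pq.D 2 (Pq.cons (Pq.L [] 64 (Pf.C 1 386))
 (Pq.cons (Pq.L [] 64 (Pf.C 1 386))
 (Pq.cons (Pq.L [] 64 (Pf.C 1 386))
 (Pq.cons (Pq.L [] 64 (Pf.C 1 386))
 (Pq.cons (Pq.L [] 67 (Pf.C 30 16643))
 (Pq.cons (Pq.D 3 (Pq.cons (Pq.L [] 128 (Pf.C 1 514))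
 (Pq.cons (Pq.L [] 128 (Pf.C 1 514))
 (Pq.cons (Pq.L [] 128 (Pf.C 1 514))
 (Pq.cons (Pq.L [] 128 (Pf.C 1 514))
 (Pq.cons (Pq.L [] 133 (Pf.C 30 16644))
 (Pq.cons (Pq.D 4 (Pq.cons (Pq.L [] 256 (Pf.C 1 642))
 (Pq.cons (Pq.L [] 256 (Pf.C 1 642))
 (Pq.cons (Pq.L [] 256 (Pf.C 1 642))
 (Pq.cons (Pq.L [] 256 (Pf.C 1 642))
 (Pq.cons (Pq.L [] 265 (Pf.C 30 16645))
 (Pq.cons (Pq.D 5 (Pq.cons (Pq.D 6 (Pq.cons (Pq.L [] 0x1c0739 (Pf.C 42 0x10e18105))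
 (Pq.cons (Pq.L [] 1057 (Pf.C 19 17282))
 (Pq.cons (Pq.L [] 0x1c0739 (Pf.C 42 0x10e18105))
 (Pq.cons (Pq.L [] 1057 (Pf.C 19 17282))
 (Pq.cons (Pq.L [] 0x100030 (Pf.C 30 17159))
 (Pq.cons (Pq.L [] 0x100631 (Pf.C 33 0x418381))
 Pq.nil))))))) (Pq.cons (Pq.L [] 529 (Pf.C 19 17154))
 (Pq.cons (Pq.D 6 (Pq.cons (Pq.L [] 0x1c0739 (Pf.C 42 0x10e18105))
 (Pq.cons (Pq.L [] 1057 (Pf.C 19 17282))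
 (Pq.cons (Pq.L [] 0x1c0739 (Pf.C 42 0x10e18105))
 (Pq.cons (Pq.L [] 1057 (Pf.C 19 17282))
 (Pq.cons (Pq.L [] 0x100030 (Pf.C 30 17159))
 (Pq.cons (Pq.L [] 0x106673 (Pf.C 57 0x60e08181))
 Pq.nil))))))) (Pq.cons (Pq.L [] 529 (Pf.C 19 17154))
 (Pq.cons (Pq.L [] 0x40000 (Pf.C 2 773))
 (Pq.cons (Pq.L [] 0x40000 (Pf.C 2 773))
 Pq.nil))))))) Pq.nil))))))) Pq.nil))))))) Pq.nil))))))) (Pq.cons (Pq.D 2 (Pq.cons (Pq.L [] 64 (Pf.C 1 386))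
 (Pq.cons (Pq.L [] 64 (Pf.C 1 386))
 (Pq.cons (Pq.L [] 64 (Pf.C 1 386))
 (Pq.cons (Pq.L [] 64 (Pf.C 1 386))
 (Pq.cons (Pq.D 3 (Pq.cons (Pq.L [] 128 (Pf.C 1 514))
 (Pq.cons (Pq.L [] 2054 (Pf.C 16 65667))
 (Pq.cons (Pq.L [] 128 (Pf.C 1 514))
 (Pq.cons (Pq.L [] 2054 (Pf.C 16 65667))
 (Pq.cons (Pq.D 4 (Pq.cons (Pq.L [] 256 (Pf.C 1 642))
 (Pq.cons (Pq.L [] 4106 (Pf.C 16 82051))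
 (Pq.cons (Pq.L [] 256 (Pf.C 1 642))
 (Pq.cons (Pq.L [] 4106 (Pf.C 16 82051))
 (Pq.cons (Pq.D 5 (Pq.cons (Pq.L [] 529 (Pf.C 19 16646))
 (Pq.cons (Pq.L [] 8210 (Pf.C 16 98435))
 (Pq.cons (Pq.L [] 529 (Pf.C 19 16646))
 (Pq.cons (Pq.L [] 8210 (Pf.C 16 98435))
 (Pq.cons (Pq.L [] 529 (Pf.C 16 32902))
 (Pq.cons (Pq.L [] 0x40000 (Pf.C 2 773))
 Pq.nil))))))) (Pq.cons (Pq.D 5 (Pq.cons (Pq.L [] 529 (Pf.C 19 16646))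
 (Pq.cons (Pq.L [] 8210 (Pf.C 16 98435))
 (Pq.cons (Pq.L [] 529 (Pf.C 19 16646))
 (Pq.cons (Pq.L [] 8210 (Pf.C 16 98435))
 (Pq.cons (Pq.L [] 529 (Pf.C 16 32902))
 (Pq.cons (Pq.L [] 0x40000 (Pf.C 2 773))
 Pq.nil))))))) Pq.nil))))))) (Pq.cons (Pq.D 4 (Pq.cons (Pq.L [] 256 (Pf.C 1 642))
 (Pq.cons (Pq.L [] 4106 (Pf.C 16 82051))
 (Pq.cons (Pq.L [] 256 (Pf.C 1 642))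
 (Pq.cons (Pq.L [] 4106 (Pf.C 16 82051))
 (Pq.cons (Pq.D 5 (Pq.cons (Pq.L [] 529 (Pf.C 19 16646))
 (Pq.cons (Pq.L [] 8210 (Pf.C 16 98435))
 (Pq.cons (Pq.L [] 529 (Pf.C 19 16646))
 (Pq.cons (Pq.L [] 8210 (Pf.C 16 98435))
 (Pq.cons (Pq.L [] 529 (Pf.C 16 32902))
 (Pq.cons (Pq.L [] 0x40000 (Pf.C 2 773))
 Pq.nil))))))) (Pq.cons (Pq.D 5 (Pq.cons (Pq.L [] 529 (Pf.C 19 16646))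
 (Pq.cons (Pq.L [] 8210 (Pf.C 16 98435))
 (Pq.cons (Pq.L [] 529 (Pf.C 19 16646))
 (Pq.cons (Pq.L [] 8210 (Pf.C 16 98435))
 (Pq.cons (Pq.L [] 529 (Pf.C 16 32902))
 (Pq.cons (Pq.L [] 0x40000 (Pf.C 2 773))
 Pq.nil))))))) Pq.nil))))))) Pq.nil))))))) (Pq.cons (Pq.D 3 (Pq.cons (Pq.L [] 128 (Pf.C 1 514))
 (Pq.cons (Pq.L [] 128 (Pf.C 1 514))
 (Pq.cons (Pq.L [] 128 (Pf.C 1 514))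
 (Pq.cons (Pq.L [] 128 (Pf.C 1 514))
 (Pq.cons (Pq.D 4 (Pq.cons (Pq.L [] 256 (Pf.C 1 642))
 (Pq.cons (Pq.L [] 32780 (Pf.C 16 82052))
 (Pq.cons (Pq.L [] 256 (Pf.C 1 642))
 (Pq.cons (Pq.L [] 32780 (Pf.C 16 82052))
 (Pq.cons (Pq.D 5 (Pq.cons (Pq.L [] 529 (Pf.C 19 16646))
 (Pq.cons (Pq.L [] 65556 (Pf.C 16 98436))
 (Pq.cons (Pq.L [] 529 (Pf.C 19 16646))
 (Pq.cons (Pq.L [] 65556 (Pf.C 16 98436))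
 (Pq.cons (Pq.L [] 529 (Pf.C 16 32902))
 (Pq.cons (Pq.L [] 0x40000 (Pf.C 2 773))
 Pq.nil))))))) (Pq.cons (Pq.D 5 (Pq.cons (Pq.L [] 529 (Pf.C 19 16646))
 (Pq.cons (Pq.L [] 65556 (Pf.C 16 98436))
 (Pq.cons (Pq.L [] 529 (Pf.C 19 16646))
 (Pq.cons (Pq.L [] 65556 (Pf.C 16 98436))
 (Pq.cons (Pq.L [] 529 (Pf.C 16 32902))
 (Pq.cons (Pq.L [] 0x40000 (Pf.C 2 773))
 Pq.nil))))))) Pq.nil))))))) (Pq.cons (Pq.D 4 (Pq.cons (Pq.L [] 256 (Pf.C 1 642))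
 (Pq.cons (Pq.L [] 256 (Pf.C 1 642))
 (Pq.cons (Pq.L [] 256 (Pf.C 1 642))
 (Pq.cons (Pq.L [] 256 (Pf.C 1 642))
 (Pq.cons (Pq.D 5 (Pq.cons (Pq.L [] 529 (Pf.C 19 16646))
 (Pq.cons (Pq.D 6 (Pq.cons (Pq.L [] 1057 (Pf.C 19 16647))
 (Pq.cons (Pq.L [] 0x80028 (Pf.C 16 0x1c085))
 (Pq.cons (Pq.L [] 1057 (Pf.C 19 16647))
 (Pq.cons (Pq.L [] 0x80028 (Pf.C 16 0x1c085))
 (Pq.cons (Pq.L [] 1057 (Pf.C 16 32903))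
 (Pq.cons (Pq.L [] 0x100631 (Pf.C 33 0x418381))
 Pq.nil))))))) (Pq.cons (Pq.L [] 529 (Pf.C 19 16646))
 (Pq.cons (Pq.D 6 (Pq.cons (Pq.L [] 1057 (Pf.C 19 16647))
 (Pq.cons (Pq.L [] 0x80028 (Pf.C 16 0x1c085))
 (Pq.cons (Pq.L [] 1057 (Pf.C 19 16647))
 (Pq.cons (Pq.L [] 0x80028 (Pf.C 16 0x1c085))
 (Pq.cons (Pq.L [] 1057 (Pf.C 16 32903))
 (Pq.cons (Pq.L [] 0x106673 (Pf.C 57 0x60e08181))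
 Pq.nil))))))) (Pq.cons (Pq.L [] 529 (Pf.C 16 32902))
 (Pq.cons (Pq.L [] 0x40000 (Pf.C 2 773))
 Pq.nil))))))) (Pq.cons (Pq.D 5 (Pq.cons (Pq.L [] 529 (Pf.C 19 16646))
 (Pq.cons (Pq.D 6 (Pq.cons (Pq.L [] 1057 (Pf.C 19 16647))
 (Pq.cons (Pq.L [] 0x1c0739 (Pf.C 42 0x10e18105))
 (Pq.cons (Pq.L [] 1057 (Pf.C 19 16647))
 (Pq.cons (Pq.L [] 0x1c0739 (Pf.C 42 0x10e18105))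
 (Pq.cons (Pq.L [] 1057 (Pf.C 16 32903))
 (Pq.cons (Pq.L [] 0x100631 (Pf.C 33 0x418381))
 Pq.nil))))))) (Pq.cons (Pq.L [] 529 (Pf.C 19 16646))
 (Pq.cons (Pq.D 6 (Pq.cons (Pq.L [] 1057 (Pf.C 19 16647))
 (Pq.cons (Pq.L [] 0x1c0739 (Pf.C 42 0x10e18105))
 (Pq.cons (Pq.L [] 1057 (Pf.C 19 16647))
 (Pq.cons (Pq.L [] 0x1c0739 (Pf.C 42 0x10e18105))
 (Pq.cons (Pq.L [] 1057 (Pf.C 16 32903))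
 (Pq.cons (Pq.L [] 0x106673 (Pf.C 57 0x60e08181))
 Pq.nil))))))) (Pq.cons (Pq.L [] 529 (Pf.C 16 32902))
 (Pq.cons (Pq.L [] 0x40000 (Pf.C 2 773))
 Pq.nil))))))) Pq.nil))))))) Pq.nil))))))) Pq.nil))))))) (Pq.cons (Pq.D 2 (Pq.cons (Pq.L [] 67 (Pf.C 30 16770))
 (Pq.cons (Pq.D 3 (Pq.cons (Pq.L [] 2054 (Pf.C 19 16772))
 (Pq.cons (Pq.D 4 (Pq.cons (Pq.L [] 4106 (Pf.C 19 16773))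
 (Pq.cons (Pq.D 5 (Pq.cons (Pq.L [] 8210 (Pf.C 19 16774))
 (Pq.cons (Pq.L [] 529 (Pf.C 16 98434))
 (Pq.cons (Pq.L [] 8210 (Pf.C 19 16774))
 (Pq.cons (Pq.L [] 529 (Pf.C 16 98434))
 (Pq.cons (Pq.L [] 8210 (Pf.C 16 49286))
 (Pq.cons (Pq.D 6 (Pq.cons (Pq.L [] 16418 (Pf.C 19 16775))
 (Pq.cons (Pq.L [] 1057 (Pf.C 16 0x1c082))
 (Pq.cons (Pq.L [] 16418 (Pf.C 19 16775))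
 (Pq.cons (Pq.L [] 1057 (Pf.C 16 0x1c082))
 (Pq.cons (Pq.L [] 16418 (Pf.C 16 49287))
 (Pq.cons (Pq.L [] 0x100000 (Pf.C 2 902))
 Pq.nil))))))) Pq.nil))))))) (Pq.cons (Pq.L [] 4106 (Pf.C 19 16773))
 (Pq.cons (Pq.D 5 (Pq.cons (Pq.L [] 8210 (Pf.C 19 16774))
 (Pq.cons (Pq.L [] 529 (Pf.C 16 98434))
 (Pq.cons (Pq.L [] 8210 (Pf.C 19 16774))
 (Pq.cons (Pq.L [] 529 (Pf.C 16 98434))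
 (Pq.cons (Pq.L [] 8210 (Pf.C 16 49286))
 (Pq.cons (Pq.D 6 (Pq.cons (Pq.L [] 16418 (Pf.C 19 16775))
 (Pq.cons (Pq.L [] 1057 (Pf.C 16 0x1c082))
 (Pq.cons (Pq.L [] 16418 (Pf.C 19 16775))
 (Pq.cons (Pq.L [] 1057 (Pf.C 16 0x1c082))
 (Pq.cons (Pq.L [] 16418 (Pf.C 16 49287))
 (Pq.cons (Pq.L [] 0x1c7740 (Pf.C 49 0x70c0c105))
 Pq.nil))))))) Pq.nil))))))) (Pq.cons (Pq.L [] 4106 (Pf.C 16 49285))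
 (Pq.cons (Pq.L [] 256 (Pf.C 2 642))
 Pq.nil))))))) (Pq.cons (Pq.L [] 2054 (Pf.C 19 16772))
 (Pq.cons (Pq.D 4 (Pq.cons (Pq.L [] 4106 (Pf.C 19 16773))
 (Pq.cons (Pq.D 5 (Pq.cons (Pq.L [] 8210 (Pf.C 19 16774))
 (Pq.cons (Pq.L [] 529 (Pf.C 16 98434))
 (Pq.cons (Pq.L [] 8210 (Pf.C 19 16774))
 (Pq.cons (Pq.L [] 529 (Pf.C 16 98434))
 (Pq.cons (Pq.L [] 8210 (Pf.C 16 49286))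
 (Pq.cons (Pq.L [] 0x5801c (Pf.C 33 0x814301))
 Pq.nil))))))) (Pq.cons (Pq.L [] 4106 (Pf.C 19 16773))
 (Pq.cons (Pq.D 5 (Pq.cons (Pq.L [] 8210 (Pf.C 19 16774))
 (Pq.cons (Pq.L [] 529 (Pf.C 16 98434))
 (Pq.cons (Pq.L [] 8210 (Pf.C 19 16774))
 (Pq.cons (Pq.L [] 529 (Pf.C 16 98434))
 (Pq.cons (Pq.L [] 8210 (Pf.C 16 49286))
 (Pq.cons (Pq.D 6 (Pq.cons (Pq.L [] 16418 (Pf.C 19 16775))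
 (Pq.cons (Pq.L [] 1057 (Pf.C 16 0x1c082))
 (Pq.cons (Pq.L [] 16418 (Pf.C 19 16775))
 (Pq.cons (Pq.L [] 1057 (Pf.C 16 0x1c082))
 (Pq.cons (Pq.L [] 16418 (Pf.C 16 49287))
 (Pq.cons (Pq.L [] 0x1c7740 (Pf.C 49 0x70c0c105))
 Pq.nil))))))) Pq.nil))))))) (Pq.cons (Pq.L [] 4106 (Pf.C 16 49285))
 (Pq.cons (Pq.L [] 256 (Pf.C 2 642))
 Pq.nil))))))) (Pq.cons (Pq.L [] 2054 (Pf.C 16 49284))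
 (Pq.cons (Pq.L [] 128 (Pf.C 2 514))
 Pq.nil))))))) (Pq.cons (Pq.L [] 67 (Pf.C 30 16770))
 (Pq.cons (Pq.D 3 (Pq.cons (Pq.L [] 2054 (Pf.C 19 16772))
 (Pq.cons (Pq.D 4 (Pq.cons (Pq.L [] 4106 (Pf.C 19 16773))
 (Pq.cons (Pq.D 5 (Pq.cons (Pq.L [] 8210 (Pf.C 19 16774))
 (Pq.cons (Pq.L [] 529 (Pf.C 16 98434))
 (Pq.cons (Pq.L [] 8210 (Pf.C 19 16774))
 (Pq.cons (Pq.L [] 529 (Pf.C 16 98434))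
 (Pq.cons (Pq.L [] 8210 (Pf.C 16 49286))
 (Pq.cons (Pq.L [] 0x4301a (Pf.C 33 0x614301))
 Pq.nil))))))) (Pq.cons (Pq.L [] 4106 (Pf.C 19 16773))
 (Pq.cons (Pq.D 5 (Pq.cons (Pq.L [] 8210 (Pf.C 19 16774))
 (Pq.cons (Pq.L [] 529 (Pf.C 16 98434))
 (Pq.cons (Pq.L [] 8210 (Pf.C 19 16774))
 (Pq.cons (Pq.L [] 529 (Pf.C 16 98434))
 (Pq.cons (Pq.L [] 8210 (Pf.C 16 49286))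
 (Pq.cons (Pq.D 6 (Pq.cons (Pq.L [] 16418 (Pf.C 19 16775))
 (Pq.cons (Pq.L [] 1057 (Pf.C 16 0x1c082))
 (Pq.cons (Pq.L [] 16418 (Pf.C 19 16775))
 (Pq.cons (Pq.L [] 1057 (Pf.C 16 0x1c082))
 (Pq.cons (Pq.L [] 16418 (Pf.C 16 49287))
 (Pq.cons (Pq.L [] 0x1f8780 (Pf.C 49 0x70c10105))
 Pq.nil))))))) Pq.nil))))))) (Pq.cons (Pq.L [] 4106 (Pf.C 16 49285))
 (Pq.cons (Pq.L [] 256 (Pf.C 2 642))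
 Pq.nil))))))) (Pq.cons (Pq.L [] 2054 (Pf.C 19 16772))
 (Pq.cons (Pq.D 4 (Pq.cons (Pq.L [] 4106 (Pf.C 19 16773))
 (Pq.cons (Pq.D 5 (Pq.cons (Pq.L [] 8210 (Pf.C 19 16774))
 (Pq.cons (Pq.L [] 529 (Pf.C 16 98434))
 (Pq.cons (Pq.L [] 8210 (Pf.C 19 16774))
 (Pq.cons (Pq.L [] 529 (Pf.C 16 98434))
 (Pq.cons (Pq.L [] 8210 (Pf.C 16 49286))
 (Pq.cons (Pq.L [] 0x4301a (Pf.C 33 0x614301))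
 Pq.nil))))))) (Pq.cons (Pq.L [] 4106 (Pf.C 19 16773))
 (Pq.cons (Pq.D 5 (Pq.cons (Pq.L [] 8210 (Pf.C 19 16774))
 (Pq.cons (Pq.L [] 529 (Pf.C 16 98434))
 (Pq.cons (Pq.L [] 8210 (Pf.C 19 16774))
 (Pq.cons (Pq.L [] 529 (Pf.C 16 98434))
 (Pq.cons (Pq.L [] 8210 (Pf.C 16 49286))
 (Pq.cons (Pq.D 6 (Pq.cons (Pq.L [] 16418 (Pf.C 19 16775))
 (Pq.cons (Pq.L [] 1057 (Pf.C 16 0x1c082))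
 (Pq.cons (Pq.L [] 16418 (Pf.C 19 16775))
 (Pq.cons (Pq.L [] 1057 (Pf.C 16 0x1c082))
 (Pq.cons (Pq.L [] 16418 (Pf.C 16 49287))
 (Pq.cons (Pq.L [] 0x100000 (Pf.C 2 902))
 Pq.nil))))))) Pq.nil))))))) (Pq.cons (Pq.L [] 4106 (Pf.C 16 49285))
 (Pq.cons (Pq.L [] 256 (Pf.C 2 642))
 Pq.nil))))))) (Pq.cons (Pq.L [] 2054 (Pf.C 16 49284))
 (Pq.cons (Pq.L [] 128 (Pf.C 2 514))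
 Pq.nil))))))) (Pq.cons (Pq.L [] 64 (Pf.C 2 386))
 (Pq.cons (Pq.L [] 64 (Pf.C 2 386))
 Pq.nil))))))) (Pq.cons (Pq.D 2 (Pq.cons (Pq.D 3 (Pq.cons (Pq.D 4 (Pq.cons (Pq.D 5 (Pq.cons (Pq.L [] 0x4335b (Pf.C 42 0x10c14182))
 (Pq.cons (Pq.L [] 8210 (Pf.C 19 17155))
 (Pq.cons (Pq.L [] 8787 (Pf.C 33 0xc0c101))
 (Pq.cons (Pq.L [] 8210 (Pf.C 19 17155))
 (Pq.cons (Pq.L [] 0x40018 (Pf.C 30 17030))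
 (Pq.cons (Pq.D 6 (Pq.cons (Pq.L [] 0x106673 (Pf.C 57 0x70c0c101))
 (Pq.cons (Pq.L [] 16418 (Pf.C 19 17283))
 (Pq.cons (Pq.L [] 17507 (Pf.C 33 0xe0c101))
 (Pq.cons (Pq.L [] 16418 (Pf.C 19 17283))
 (Pq.cons (Pq.L [0] 0x106032 (Pf.C 57 0x70c0c001))
 (Pq.cons (Pq.L [] 0x100000 (Pf.C 2 902))
 Pq.nil))))))) Pq.nil))))))) (Pq.cons (Pq.L [] 4106 (Pf.C 19 17027))
 (Pq.cons (Pq.D 5 (Pq.cons (Pq.L [] 0x4335b (Pf.C 42 0x10c14182))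
 (Pq.cons (Pq.L [] 8210 (Pf.C 19 17155))
 (Pq.cons (Pq.L [] 8787 (Pf.C 33 0xc0c101))
 (Pq.cons (Pq.L [] 8210 (Pf.C 19 17155))
 (Pq.cons (Pq.L [] 0x40018 (Pf.C 30 17030))
 (Pq.cons (Pq.D 6 (Pq.cons (Pq.L [] 0x106673 (Pf.C 57 0x70c0c101))
 (Pq.cons (Pq.L [] 16418 (Pf.C 19 17283))
 (Pq.cons (Pq.L [] 17507 (Pf.C 33 0xe0c101))
 (Pq.cons (Pq.L [] 16418 (Pf.C 19 17283))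
 (Pq.cons (Pq.L [0] 0x106032 (Pf.C 57 0x70c0c001))
 (Pq.cons (Pq.L [] 0x1c7740 (Pf.C 49 0x70c0c105))
 Pq.nil))))))) Pq.nil))))))) (Pq.cons (Pq.L [] 4106 (Pf.C 19 17027))
 (Pq.cons (Pq.L [] 256 (Pf.C 2 642))
 (Pq.cons (Pq.L [] 256 (Pf.C 2 642))
 Pq.nil))))))) (Pq.cons (Pq.L [] 2054 (Pf.C 19 16899))
 (Pq.cons (Pq.D 4 (Pq.cons (Pq.D 5 (Pq.cons (Pq.L [] 0x4335b (Pf.C 42 0x10c14182))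
 (Pq.cons (Pq.L [] 8210 (Pf.C 19 17155))
 (Pq.cons (Pq.L [] 8787 (Pf.C 33 0xc0c101))
 (Pq.cons (Pq.L [] 8210 (Pf.C 19 17155))
 (Pq.cons (Pq.L [] 0x40018 (Pf.C 30 17030))
 (Pq.cons (Pq.L [] 0x5801c (Pf.C 33 0x814301))
 Pq.nil))))))) (Pq.cons (Pq.L [] 4106 (Pf.C 19 17027))
 (Pq.cons (Pq.D 5 (Pq.cons (Pq.L [] 0x4335b (Pf.C 42 0x10c14182))
 (Pq.cons (Pq.L [] 8210 (Pf.C 19 17155))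
 (Pq.cons (Pq.L [] 8787 (Pf.C 33 0xc0c101))
 (Pq.cons (Pq.L [] 8210 (Pf.C 19 17155))
 (Pq.cons (Pq.L [] 0x40018 (Pf.C 30 17030))
 (Pq.cons (Pq.D 6 (Pq.cons (Pq.L [] 0x130034 (Pf.C 33 0x81c301))
 (Pq.cons (Pq.L [] 16418 (Pf.C 19 17283))
 (Pq.cons (Pq.L [] 17507 (Pf.C 33 0xe0c101))
 (Pq.cons (Pq.L [] 16418 (Pf.C 19 17283))
 (Pq.cons (Pq.L [] 0x130034 (Pf.C 33 0x81c301))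
 (Pq.cons (Pq.L [] 0x1c7740 (Pf.C 49 0x70c0c105))
 Pq.nil))))))) Pq.nil))))))) (Pq.cons (Pq.L [] 4106 (Pf.C 19 17027))
 (Pq.cons (Pq.L [] 256 (Pf.C 2 642))
 (Pq.cons (Pq.L [] 256 (Pf.C 2 642))
 Pq.nil))))))) (Pq.cons (Pq.L [] 2054 (Pf.C 19 16899))
 (Pq.cons (Pq.L [] 128 (Pf.C 2 514))
 (Pq.cons (Pq.L [] 128 (Pf.C 2 514))
 Pq.nil))))))) (Pq.cons (Pq.D 3 (Pq.cons (Pq.L [] 2054 (Pf.C 19 16772))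
 (Pq.cons (Pq.D 4 (Pq.cons (Pq.L [] 4106 (Pf.C 19 16773))
 (Pq.cons (Pq.D 5 (Pq.cons (Pq.L [] 8210 (Pf.C 19 16774))
 (Pq.cons (Pq.L [] 0x4335b (Pf.C 42 0x10c14182))
 (Pq.cons (Pq.L [] 8210 (Pf.C 19 16774))
 (Pq.cons (Pq.L [] 8787 (Pf.C 33 0xc0c101))
 (Pq.cons (Pq.L [] 8210 (Pf.C 16 49286))
 (Pq.cons (Pq.D 6 (Pq.cons (Pq.L [] 16418 (Pf.C 19 16775))
 (Pq.cons (Pq.L [] 0x106673 (Pf.C 57 0x70c0c101))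
 (Pq.cons (Pq.L [] 16418 (Pf.C 19 16775))
 (Pq.cons (Pq.L [] 17507 (Pf.C 33 0xe0c101))
 (Pq.cons (Pq.L [] 16418 (Pf.C 16 49287))
 (Pq.cons (Pq.L [] 0x100000 (Pf.C 2 902))
 Pq.nil))))))) Pq.nil))))))) (Pq.cons (Pq.L [] 4106 (Pf.C 19 16773))
 (Pq.cons (Pq.D 5 (Pq.cons (Pq.L [] 8210 (Pf.C 19 16774))
 (Pq.cons (Pq.L [] 0x4335b (Pf.C 42 0x10c14182))
 (Pq.cons (Pq.L [] 8210 (Pf.C 19 16774))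
 (Pq.cons (Pq.L [] 8787 (Pf.C 33 0xc0c101))
 (Pq.cons (Pq.L [] 8210 (Pf.C 16 49286))
 (Pq.cons (Pq.D 6 (Pq.cons (Pq.L [] 16418 (Pf.C 19 16775))
 (Pq.cons (Pq.L [] 0x106673 (Pf.C 57 0x70c0c101))
 (Pq.cons (Pq.L [] 16418 (Pf.C 19 16775))
 (Pq.cons (Pq.L [] 17507 (Pf.C 33 0xe0c101))
 (Pq.cons (Pq.L [] 16418 (Pf.C 16 49287))
 (Pq.cons (Pq.L [] 0x1c7740 (Pf.C 49 0x70c0c105))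
 Pq.nil))))))) Pq.nil))))))) (Pq.cons (Pq.L [] 4106 (Pf.C 16 49285))
 (Pq.cons (Pq.L [] 256 (Pf.C 2 642))
 Pq.nil))))))) (Pq.cons (Pq.L [] 2054 (Pf.C 19 16772))
 (Pq.cons (Pq.D 4 (Pq.cons (Pq.L [] 4106 (Pf.C 19 16773))
 (Pq.cons (Pq.D 5 (Pq.cons (Pq.L [] 8210 (Pf.C 19 16774))
 (Pq.cons (Pq.L [] 0x4335b (Pf.C 42 0x10c14182))
 (Pq.cons (Pq.L [] 8210 (Pf.C 19 16774))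
 (Pq.cons (Pq.L [] 8787 (Pf.C 33 0xc0c101))
 (Pq.cons (Pq.L [] 8210 (Pf.C 16 49286))
 (Pq.cons (Pq.L [] 0x5801c (Pf.C 33 0x814301))
 Pq.nil))))))) (Pq.cons (Pq.L [] 4106 (Pf.C 19 16773))
 (Pq.cons (Pq.D 5 (Pq.cons (Pq.L [] 8210 (Pf.C 19 16774))
 (Pq.cons (Pq.L [] 0x4335b (Pf.C 42 0x10c14182))
 (Pq.cons (Pq.L [] 8210 (Pf.C 19 16774))
 (Pq.cons (Pq.L [] 8787 (Pf.C 33 0xc0c101))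
 (Pq.cons (Pq.L [] 8210 (Pf.C 16 49286))
 (Pq.cons (Pq.D 6 (Pq.cons (Pq.L [] 16418 (Pf.C 19 16775))
 (Pq.cons (Pq.L [] 0x130034 (Pf.C 33 0x81c301))
 (Pq.cons (Pq.L [] 16418 (Pf.C 19 16775))
 (Pq.cons (Pq.L [] 17507 (Pf.C 33 0xe0c101))
 (Pq.cons (Pq.L [] 16418 (Pf.C 16 49287))
 (Pq.cons (Pq.L [] 0x1c7740 (Pf.C 49 0x70c0c105))
 Pq.nil))))))) Pq.nil))))))) (Pq.cons (Pq.L [] 4106 (Pf.C 16 49285))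
 (Pq.cons (Pq.L [] 256 (Pf.C 2 642))
 Pq.nil))))))) (Pq.cons (Pq.L [] 2054 (Pf.C 16 49284))
 (Pq.cons (Pq.L [] 128 (Pf.C 2 514))
 Pq.nil))))))) (Pq.cons (Pq.D 3 (Pq.cons (Pq.D 4 (Pq.cons (Pq.D 5 (Pq.cons (Pq.L [] 0x4335b (Pf.C 42 0x10c14182))
 (Pq.cons (Pq.L [] 8210 (Pf.C 19 17155))
 (Pq.cons (Pq.L [] 66197 (Pf.C 33 0xc10101))
 (Pq.cons (Pq.L [] 8210 (Pf.C 19 17155))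
 (Pq.cons (Pq.L [] 0x40018 (Pf.C 30 17030))
 (Pq.cons (Pq.L [] 0x4301a (Pf.C 33 0x614301))
 Pq.nil))))))) (Pq.cons (Pq.L [] 4106 (Pf.C 19 17027))
 (Pq.cons (Pq.D 5 (Pq.cons (Pq.L [] 0x4335b (Pf.C 42 0x10c14182))
 (Pq.cons (Pq.L [] 8210 (Pf.C 19 17155))
 (Pq.cons (Pq.L [] 66197 (Pf.C 33 0xc10101))
 (Pq.cons (Pq.L [] 8210 (Pf.C 19 17155))
 (Pq.cons (Pq.L [] 0x40018 (Pf.C 30 17030))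
 (Pq.cons (Pq.D 6 (Pq.cons (Pq.L [] 0x106032 (Pf.C 33 0x61c301))
 (Pq.cons (Pq.L [] 16418 (Pf.C 19 17283))
 (Pq.cons (Pq.L [] 0x204a5 (Pf.C 33 0xe10101))
 (Pq.cons (Pq.L [] 16418 (Pf.C 19 17283))
 (Pq.cons (Pq.L [] 0x106032 (Pf.C 33 0x61c301))
 (Pq.cons (Pq.L [] 0x1f8780 (Pf.C 49 0x70c10105))
 Pq.nil))))))) Pq.nil))))))) (Pq.cons (Pq.L [] 4106 (Pf.C 19 17027))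
 (Pq.cons (Pq.L [] 256 (Pf.C 2 642))
 (Pq.cons (Pq.L [] 256 (Pf.C 2 642))
 Pq.nil))))))) (Pq.cons (Pq.L [] 2054 (Pf.C 19 16899))
 (Pq.cons (Pq.D 4 (Pq.cons (Pq.D 5 (Pq.cons (Pq.L [] 0x4335b (Pf.C 42 0x10c14182))
 (Pq.cons (Pq.L [] 8210 (Pf.C 19 17155))
 (Pq.cons (Pq.L [] 0x4335b (Pf.C 42 0x10c14182))
 (Pq.cons (Pq.L [] 8210 (Pf.C 19 17155))
 (Pq.cons (Pq.L [] 0x40018 (Pf.C 30 17030))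
 (Pq.cons (Pq.L [] 0x4301a (Pf.C 33 0x614301))
 Pq.nil))))))) (Pq.cons (Pq.L [] 4106 (Pf.C 19 17027))
 (Pq.cons (Pq.D 5 (Pq.cons (Pq.L [] 0x4335b (Pf.C 42 0x10c14182))
 (Pq.cons (Pq.L [] 8210 (Pf.C 19 17155))
 (Pq.cons (Pq.L [] 0x4335b (Pf.C 42 0x10c14182))
 (Pq.cons (Pq.L [] 8210 (Pf.C 19 17155))
 (Pq.cons (Pq.L [] 0x40018 (Pf.C 30 17030))
 (Pq.cons (Pq.D 6 (Pq.cons (Pq.L [] 0x106032 (Pf.C 33 0x61c301))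
 (Pq.cons (Pq.L [] 16418 (Pf.C 19 17283))
 (Pq.cons (Pq.L [] 0x106673 (Pf.C 57 0x70c0c101))
 (Pq.cons (Pq.L [] 16418 (Pf.C 19 17283))
 (Pq.cons (Pq.L [] 0x106032 (Pf.C 33 0x61c301))
 (Pq.cons (Pq.L [] 0x100000 (Pf.C 2 902))
 Pq.nil))))))) Pq.nil))))))) (Pq.cons (Pq.L [] 4106 (Pf.C 19 17027))
 (Pq.cons (Pq.L [] 256 (Pf.C 2 642))
 (Pq.cons (Pq.L [] 256 (Pf.C 2 642))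
 Pq.nil))))))) (Pq.cons (Pq.L [] 2054 (Pf.C 19 16899))
 (Pq.cons (Pq.L [] 128 (Pf.C 2 514))
 (Pq.cons (Pq.L [] 128 (Pf.C 2 514))
 Pq.nil))))))) (Pq.cons (Pq.D 3 (Pq.cons (Pq.L [] 2054 (Pf.C 19 16772))
 (Pq.cons (Pq.D 4 (Pq.cons (Pq.L [] 4106 (Pf.C 19 16773))
 (Pq.cons (Pq.D 5 (Pq.cons (Pq.L [] 8210 (Pf.C 19 16774))
 (Pq.cons (Pq.L [] 0x4335b (Pf.C 42 0x10c14182))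
 (Pq.cons (Pq.L [] 8210 (Pf.C 19 16774))
 (Pq.cons (Pq.L [] 66197 (Pf.C 33 0xc10101))
 (Pq.cons (Pq.L [] 8210 (Pf.C 16 49286))
 (Pq.cons (Pq.L [] 0x4301a (Pf.C 33 0x614301))
 Pq.nil))))))) (Pq.cons (Pq.L [] 4106 (Pf.C 19 16773))
 (Pq.cons (Pq.D 5 (Pq.cons (Pq.L [] 8210 (Pf.C 19 16774))
 (Pq.cons (Pq.L [] 0x4335b (Pf.C 42 0x10c14182))
 (Pq.cons (Pq.L [] 8210 (Pf.C 19 16774))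
 (Pq.cons (Pq.L [] 66197 (Pf.C 33 0xc10101))
 (Pq.cons (Pq.L [] 8210 (Pf.C 16 49286))
 (Pq.cons (Pq.D 6 (Pq.cons (Pq.L [] 16418 (Pf.C 19 16775))
 (Pq.cons (Pq.L [] 0x106032 (Pf.C 33 0x61c301))
 (Pq.cons (Pq.L [] 16418 (Pf.C 19 16775))
 (Pq.cons (Pq.L [] 0x204a5 (Pf.C 33 0xe10101))
 (Pq.cons (Pq.L [] 16418 (Pf.C 16 49287))
 (Pq.cons (Pq.L [] 0x1f8780 (Pf.C 49 0x70c10105))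
 Pq.nil))))))) Pq.nil))))))) (Pq.cons (Pq.L [] 4106 (Pf.C 16 49285))
 (Pq.cons (Pq.L [] 256 (Pf.C 2 642))
 Pq.nil))))))) (Pq.cons (Pq.L [] 2054 (Pf.C 19 16772))
 (Pq.cons (Pq.D 4 (Pq.cons (Pq.L [] 4106 (Pf.C 19 16773))
 (Pq.cons (Pq.D 5 (Pq.cons (Pq.L [] 8210 (Pf.C 19 16774))
 (Pq.cons (Pq.L [] 0x4335b (Pf.C 42 0x10c14182))
 (Pq.cons (Pq.L [] 8210 (Pf.C 19 16774))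
 (Pq.cons (Pq.L [] 0x4335b (Pf.C 42 0x10c14182))
 (Pq.cons (Pq.L [] 8210 (Pf.C 16 49286))
 (Pq.cons (Pq.L [] 0x4301a (Pf.C 33 0x614301))
 Pq.nil))))))) (Pq.cons (Pq.L [] 4106 (Pf.C 19 16773))
 (Pq.cons (Pq.D 5 (Pq.cons (Pq.L [] 8210 (Pf.C 19 16774))
 (Pq.cons (Pq.L [] 0x4335b (Pf.C 42 0x10c14182))
 (Pq.cons (Pq.L [] 8210 (Pf.C 19 16774))
 (Pq.cons (Pq.L [] 0x4335b (Pf.C 42 0x10c14182))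
 (Pq.cons (Pq.L [] 8210 (Pf.C 16 49286))
 (Pq.cons (Pq.D 6 (Pq.cons (Pq.L [] 16418 (Pf.C 19 16775))
 (Pq.cons (Pq.L [] 0x106032 (Pf.C 33 0x61c301))
 (Pq.cons (Pq.L [] 16418 (Pf.C 19 16775))
 (Pq.cons (Pq.L [] 0x106673 (Pf.C 57 0x70c0c101))
 (Pq.cons (Pq.L [] 16418 (Pf.C 16 49287))
 (Pq.cons (Pq.L [] 0x100000 (Pf.C 2 902))
 Pq.nil))))))) Pq.nil))))))) (Pq.cons (Pq.L [] 4106 (Pf.C 16 49285))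
 (Pq.cons (Pq.L [] 256 (Pf.C 2 642))
 Pq.nil))))))) (Pq.cons (Pq.L [] 2054 (Pf.C 16 49284))
 (Pq.cons (Pq.L [] 128 (Pf.C 2 514))
 Pq.nil))))))) (Pq.cons (Pq.L [] 64 (Pf.C 2 386))
 (Pq.cons (Pq.L [] 64 (Pf.C 2 386))
 Pq.nil))))))) Pq.nil))))))) Pq.nil)
theorem s1_o47 : AllRef s1_T s1_G63 (List.drop 1 (List.drop 1 (List.drop 3 (List.flatMap (splitP 0) (List.take 1 (applyObl bD_T 3 [75,77,79,81,82,84] [1,1,1,1,2,2] [])))))) :=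
  chkPq_sound s1_o47c _ (by decide +kernel)
noncomputable def s1_o48c : Pq := (Pq.cons (Pq.D 0 (Pq.cons (Pq.D 1 (Pq.cons (Pq.L [] 1 (Pf.C 1 257))
 (Pq.cons (Pq.L [] 1 (Pf.C 1 257))
 (Pq.cons (Pq.L [] 1 (Pf.C 1 257))
 (Pq.cons (Pq.L [] 1 (Pf.C 1 257))
 Pq.nil))))) (Pq.cons (Pq.D 1 (Pq.cons (Pq.L [] 1 (Pf.C 1 257))
 (Pq.cons (Pq.L [] 1 (Pf.C 1 257))
 (Pq.cons (Pq.L [] 1 (Pf.C 1 257))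
 (Pq.cons (Pq.L [] 1 (Pf.C 1 257))
 Pq.nil))))) (Pq.cons (Pq.D 1 (Pq.cons (Pq.L [] 1 (Pf.C 1 257))
 (Pq.cons (Pq.L [] 1 (Pf.C 1 257))
 (Pq.cons (Pq.L [] 1 (Pf.C 1 257))
 (Pq.cons (Pq.L [] 1 (Pf.C 1 257))
 Pq.nil))))) (Pq.cons (Pq.D 1 (Pq.cons (Pq.L [] 1 (Pf.C 1 257))
 (Pq.cons (Pq.L [] 1 (Pf.C 1 257))
 (Pq.cons (Pq.L [] 1 (Pf.C 1 257))
 (Pq.cons (Pq.L [] 1 (Pf.C 1 257))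
 Pq.nil))))) Pq.nil))))) (Pq.cons (Pq.D 0 (Pq.cons (Pq.D 1 (Pq.cons (Pq.L [] 1 (Pf.C 2 257))
 (Pq.cons (Pq.L [] 1 (Pf.C 2 257))
 Pq.nil))) (Pq.cons (Pq.D 1 (Pq.cons (Pq.L [] 1 (Pf.C 2 257))
 (Pq.cons (Pq.L [] 1 (Pf.C 2 257))
 Pq.nil))) Pq.nil))) Pq.nil))
theorem s1_o48 : AllRef s1_T s1_G63 (List.drop 1 (applyObl bD_T 3 [75,77,79,81,82,84] [1,1,1,1,2,2] [])) :=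
  chkPq_sound s1_o48c _ (by decide +kernel)
noncomputable def s1_o49c : Pq := (Pq.cons (Pq.L [0] 0 (Pf.C 7 128))
 Pq.nil)
theorem s1_o49 : AllRef s1_T s1_G2 (ptObl 12 (PT.br 0 PT.kid PT.ref) []) :=
  chkPq_sound s1_o49c _ (by decide +kernel)
noncomputable def s1_o50c : Pq := Pq.nil
theorem s1_o50 : AllRef s1_T s1_G64 (ptObl 13 (PT.br 0 PT.kid PT.kid) []) :=
  chkPq_sound s1_o50c _ (by decide +kernel)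
noncomputable def s1_o51c : Pq := Pq.nil
theorem s1_o51 : AllRef s1_T s1_G65 (ptObl 14 (PT.br 0 PT.kid PT.kid) []) :=
  chkPq_sound s1_o51c _ (by decide +kernel)
noncomputable def s1_o52c : Pq := Pq.nil
theorem s1_o52 : AllRef s1_T s1_G66 (ptObl 15 (PT.br 0 PT.kid PT.kid) []) :=
  chkPq_sound s1_o52c _ (by decide +kernel)
noncomputable def s1_o53c : Pq := (Pq.cons (Pq.L [0] 0 (Pf.C 3 128))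
 Pq.nil)
theorem s1_o53 : AllRef s1_T s1_G67 (ptObl 16 (PT.br 0 PT.ref PT.kid) []) :=
  chkPq_sound s1_o53c _ (by decide +kernel)
noncomputable def s1_o54c : Pq := (Pq.cons (Pq.L [0] 0 (Pf.C 3 128))
 Pq.nil)
theorem s1_o54 : AllRef s1_T s1_G68 (ptObl 17 (PT.br 0 PT.ref PT.kid) []) :=
  chkPq_sound s1_o54c _ (by decide +kernel)
noncomputable def s1_o55c : Pq := (Pq.cons (Pq.L [0] 0 (Pf.C 11 1))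
 Pq.nil)
theorem s1_o55 : AllRef s1_T s1_G69 (ptObl 18 (PT.br 0 PT.ref PT.kid) []) :=
  chkPq_sound s1_o55c _ (by decide +kernel)
noncomputable def s1_o56c : Pq := Pq.nil
theorem s1_o56 : AllRef s1_T s1_G70 (ptObl 19 (PT.br 0 PT.kid PT.kid) []) :=
  chkPq_sound s1_o56c _ (by decide +kernel)
noncomputable def s1_o57c : Pq := (Pq.cons (Pq.L [0] 0 (Pf.C 2 1))
 Pq.nil)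
theorem s1_o57 : AllRef s1_T s1_G71 (ptObl 20 (PT.br 0 PT.kid PT.ref) []) :=
  chkPq_sound s1_o57c _ (by decide +kernel)
noncomputable def s1_o58c : Pq := Pq.nil
theorem s1_o58 : AllRef s1_T s1_G72 (ptObl 21 PT.kid []) :=
  chkPq_sound s1_o58c _ (by decide +kernel)
noncomputable def s1_o59c : Pq := (Pq.cons (Pq.L [0] 0 (Pf.C 2 1))
 Pq.nil)
theorem s1_o59 : AllRef s1_T s1_G73 (ptObl 146 (PT.br 0 PT.kid PT.ref) []) :=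
  chkPq_sound s1_o59c _ (by decide +kernel)
noncomputable def s1_o60c : Pq := (Pq.cons (Pq.L [0] 0 (Pf.C 2 1))
 Pq.nil)
theorem s1_o60 : AllRef s1_T s1_G74 (ptObl 22 (PT.br 0 PT.kid PT.ref) []) :=
  chkPq_sound s1_o60c _ (by decide +kernel)
noncomputable def s1_o61c : Pq := (Pq.cons (Pq.L [0] 1 (Pf.W 59 257 [] [0] (Pf.cons (Pf.B 3 0 (Pf.T 3 52 (Pf.cons (Pf.T 3 53 (Pf.cons (Pf.W 68 32771 [] [] (Pf.cons (Pf.B 4 2 (Pf.C 32 33156) (Pf.C 1 260)) (Pf.cons (Pf.B 4 2 (Pf.C 24 65538) (Pf.C 1 260)) (Pf.cons (Pf.B 4 2 (Pf.C 23 65538) (Pf.C 1 260)) (Pf.cons (Pf.B 4 2 (Pf.C 23 65538) (Pf.C 1 260)) Pf.nil))))) Pf.nil)) Pf.nil)) (Pf.C 2 3)) (Pf.cons (Pf.B 3 0 (Pf.T 3 52 (Pf.cons (Pf.T 3 53 (Pf.cons (Pf.W 68 16387 [] [2] (Pf.cons (Pf.B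 4 1 (Pf.C 32 16772) (Pf.C 1 132)) (Pf.cons (Pf.B 4 2 (Pf.C 24 65538) (Pf.C 1 260)) (Pf.cons (Pf.B 4 2 (Pf.C 23 65538) (Pf.C 1 260)) (Pf.cons (Pf.B 4 2 (Pf.C 23 65538) (Pf.C 1 260)) Pf.nil))))) Pf.nil)) Pf.nil)) (Pf.C 2 3)) (Pf.cons (Pf.B 3 0 (Pf.C 27 49408) (Pf.C 2 3)) (Pf.cons (Pf.B 3 0 (Pf.C 27 49280) (Pf.C 2 3)) Pf.nil))))))
 (Pq.cons (Pq.L [] 1 (Pf.C 1 257))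
 (Pq.cons (Pq.L [0] 1 (Pf.W 60 257 [] [0] (Pf.cons (Pf.B 3 0 (Pf.T 3 52 (Pf.cons (Pf.T 3 53 (Pf.cons (Pf.W 68 32771 [] [] (Pf.cons (Pf.B 4 2 (Pf.C 24 33156) (Pf.C 1 260)) (Pf.cons (Pf.B 4 2 (Pf.C 32 33156) (Pf.C 1 260)) (Pf.cons (Pf.B 4 2 (Pf.C 12 260) (Pf.C 1 260)) (Pf.cons (Pf.B 4 2 (Pf.C 23 65538) (Pf.C 1 260)) Pf.nil))))) Pf.nil)) Pf.nil)) (Pf.C 2 3)) (Pf.cons (Pf.B 3 0 (Pf.T 3 52 (Pf.cons (Pf.T 3 53 (Pf.cons (Pf.W 68 16387 [] [2] (Pf.cons (Pf.B 4 1 (Pf.C 24 16772) (Pf.C 1 132)) (Pf.cons (Pf.B 4 1 (Pf.C 32 16772) (Pf.C 1 132)) (Pf.cons (Pf.B 4 2 (Pf.C 12 260) (Pf.C 1 260)) (Pf.cons (Pf.B 4 2 (Pf.C 23 65538) (Pf.C 1 260)) Pf.nil))))) Pf.nil)) Pf.nil)) (Pf.C 2 3)) Pf.nil))))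
 (Pq.cons (Pq.L [] 1 (Pf.C 1 257))
 (Pq.cons (Pq.L [0] 1 (Pf.W 61 257 [] [0] (Pf.cons (Pf.B 3 0 (Pf.T 3 52 (Pf.cons (Pf.T 3 53 (Pf.cons (Pf.W 68 32771 [] [] (Pf.cons (Pf.B 4 2 (Pf.C 23 33156) (Pf.C 1 260)) (Pf.cons (Pf.B 4 2 (Pf.C 12 514) (Pf.C 1 260)) (Pf.cons (Pf.B 4 2 (Pf.C 32 33156) (Pf.C 1 260)) (Pf.cons (Pf.B 4 2 (Pf.C 24 65538) (Pf.C 1 260)) Pf.nil))))) Pf.nil)) Pf.nil)) (Pf.C 2 3)) (Pf.cons (Pf.B 3 0 (Pf.T 3 52 (Pf.cons (Pf.T 3 53 (Pf.cons (Pf.W 68 16387 [] [2] (Pf.cons (Pf.B 4 1 (Pf.C 23 16772) (Pf.C 1 132)) (Pf.cons (Pf.B 4 2 (Pf.C 12 514) (Pf.C 1 260)) (Pf.cons (Pf.B 4 1 (Pf.C 32 16772) (Pf.C 1 132)) (Pf.cons (Pf.B 4 2 (Pf.C 24 65538) (Pf.C 1 260)) Pf.nil))))) Pf.nil)) Pf.nil)) (Pf.C 2 3)) Pf.nil))))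
 (Pq.cons (Pq.L [] 1 (Pf.C 1 257))
 (Pq.cons (Pq.L [0] 1 (Pf.W 66 128 [] [2] (Pf.cons (Pf.T 3 44 (Pf.cons (Pf.W 68 49153 [] [] (Pf.cons (Pf.B 4 3 (Pf.C 32 49284) (Pf.C 1 388)) (Pf.cons (Pf.B 4 3 (Pf.C 24 65539) (Pf.C 1 388)) (Pf.cons (Pf.B 4 3 (Pf.C 23 65539) (Pf.C 1 388)) (Pf.cons (Pf.B 4 3 (Pf.C 23 65539) (Pf.C 1 388)) Pf.nil))))) Pf.nil)) (Pf.cons (Pf.B 3 2 (Pf.T 3 44 (Pf.cons (Pf.C 143 386) Pf.nil)) (Pf.T 3 44 (Pf.cons (Pf.W 66 257 [] [0,3] (Pf.cons (Pf.B 4 3 (Pf.B 4 0 (Pf.T 4 44 (Pf.cons (Pf.C 143 514) Pf.nil)) (Pf.C 32 0x40c004)) (Pf.C 1 388)) (Pf.cons (Pf.B 4 3 (Pf.B 4 0 (Pf.T 4 44 (Pf.cons (Pf.C 143 513) Pf.nil)) (Pf.C 32 0x20c004)) (Pf.C 1 388)) (Pf.cons (Pf.B 4 3 (Pf.C 24 65795) (Pf.C 1 388)) (Pf.cons (Pf.B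 4 3 (Pf.C 24 65667) (Pf.C 1 388)) (Pf.cons (Pf.B 4 3 (Pf.C 23 65795) (Pf.C 1 388)) (Pf.cons (Pf.B 4 3 (Pf.C 23 65667) (Pf.C 1 388)) (Pf.cons (Pf.B 4 3 (Pf.C 23 65795) (Pf.C 1 388)) (Pf.cons (Pf.B 4 3 (Pf.C 23 65667) (Pf.C 1 388)) Pf.nil))))))))) Pf.nil))) (Pf.cons (Pf.T 3 45 (Pf.cons (Pf.W 68 49153 [] [] (Pf.cons (Pf.B 4 3 (Pf.C 24 49284) (Pf.C 1 388)) (Pf.cons (Pf.B 4 3 (Pf.C 32 49284) (Pf.C 1 388)) (Pf.cons (Pf.B 4 3 (Pf.C 12 388) (Pf.C 1 388)) (Pf.cons (Pf.B 4 3 (Pf.C 23 65539) (Pf.C 1 388)) Pf.nil))))) Pf.nil)) (Pf.cons (Pf.B 3 2 (Pf.T 3 45 (Pf.cons (Pf.C 143 386) Pf.nil)) (Pf.T 3 45 (Pf.cons (Pf.W 66 257 [] [0,3] (Pf.cons (Pf.B 4 3 (Pf.B 4 0 (Pf.T 4 44 (Pf.cons (Pf.C 143 514) Pf.nil)) (Pf.C 24 49156)) (Pf.C 1 388))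 (Pf.cons (Pf.B 4 3 (Pf.B 4 0 (Pf.T 4 44 (Pf.cons (Pf.C 143 513) Pf.nil)) (Pf.C 24 49156)) (Pf.C 1 388)) (Pf.cons (Pf.B 4 3 (Pf.B 4 0 (Pf.T 4 45 (Pf.cons (Pf.C 143 514) Pf.nil)) (Pf.C 32 0x40c004)) (Pf.C 1 388)) (Pf.cons (Pf.B 4 3 (Pf.B 4 0 (Pf.T 4 45 (Pf.cons (Pf.C 143 513) Pf.nil)) (Pf.C 32 0x20c004)) (Pf.C 1 388)) (Pf.cons (Pf.B 4 3 (Pf.C 12 388) (Pf.C 1 388)) (Pf.cons (Pf.B 4 3 (Pf.C 12 388) (Pf.C 1 388)) (Pf.cons (Pf.B 4 3 (Pf.C 23 65795) (Pf.C 1 388)) (Pf.cons (Pf.B 4 3 (Pf.C 23 65667) (Pf.C 1 388)) Pf.nil))))))))) Pf.nil))) (Pf.cons (Pf.T 3 46 (Pf.cons (Pf.W 68 49153 [] [] (Pf.cons (Pf.B 4 3 (Pf.C 23 49284) (Pf.C 1 388)) (Pf.cons (Pf.B 4 3 (Pf.C 12 515) (Pf.C 1 388)) (Pf.cons (Pf.B 4 3 (Pf.C 32 49284) (Pf.C 1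 388)) (Pf.cons (Pf.B 4 3 (Pf.C 24 65539) (Pf.C 1 388)) Pf.nil))))) Pf.nil)) (Pf.cons (Pf.B 3 2 (Pf.T 3 46 (Pf.cons (Pf.C 143 386) Pf.nil)) (Pf.T 3 46 (Pf.cons (Pf.W 66 257 [] [0,3] (Pf.cons (Pf.B 4 3 (Pf.B 4 0 (Pf.T 4 44 (Pf.cons (Pf.C 143 514) Pf.nil)) (Pf.C 23 49156)) (Pf.C 1 388)) (Pf.cons (Pf.B 4 3 (Pf.B 4 0 (Pf.T 4 44 (Pf.cons (Pf.C 143 513) Pf.nil)) (Pf.C 23 49156)) (Pf.C 1 388)) (Pf.cons (Pf.B 4 3 (Pf.C 12 515) (Pf.C 1 388)) (Pf.cons (Pf.B 4 3 (Pf.C 12 515) (Pf.C 1 388)) (Pf.cons (Pf.B 4 3 (Pf.B 4 0 (Pf.T 4 46 (Pf.cons (Pf.C 143 514) Pf.nil)) (Pf.C 32 0x40c004)) (Pf.C 1 388)) (Pf.cons (Pf.B 4 3 (Pf.B 4 0 (Pf.T 4 46 (Pf.cons (Pf.C 143 513) Pf.nil)) (Pf.C 32 0x20c004)) (Pf.C 1 388)) (Pf.cons (Pf.B 4 3 (Pf.C 24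 65795) (Pf.C 1 388)) (Pf.cons (Pf.B 4 3 (Pf.C 24 65667) (Pf.C 1 388)) Pf.nil))))))))) Pf.nil))) (Pf.cons (Pf.T 3 50 (Pf.cons (Pf.W 68 49153 [] [] (Pf.cons (Pf.B 4 3 (Pf.C 23 49284) (Pf.C 1 388)) (Pf.cons (Pf.B 4 3 (Pf.C 23 49284) (Pf.C 1 388)) (Pf.cons (Pf.B 4 3 (Pf.C 24 49284) (Pf.C 1 388)) (Pf.cons (Pf.B 4 3 (Pf.C 32 49284) (Pf.C 1 388)) Pf.nil))))) Pf.nil)) (Pf.cons (Pf.B 3 2 (Pf.T 3 50 (Pf.cons (Pf.C 143 386) Pf.nil)) (Pf.T 3 50 (Pf.cons (Pf.W 66 257 [] [0,3] (Pf.cons (Pf.B 4 3 (Pf.B 4 0 (Pf.T 4 44 (Pf.cons (Pf.C 143 514) Pf.nil)) (Pf.C 23 49156)) (Pf.C 1 388)) (Pf.cons (Pf.B 4 3 (Pf.B 4 0 (Pf.T 4 44 (Pf.cons (Pf.C 143 513) Pf.nil)) (Pf.C 23 49156)) (Pf.C 1 388)) (Pf.cons (Pf.B 4 3 (Pf.B 4 0 (Pf.T 4 45 (Pf.cons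 (Pf.C 143 514) Pf.nil)) (Pf.C 23 49156)) (Pf.C 1 388)) (Pf.cons (Pf.B 4 3 (Pf.B 4 0 (Pf.T 4 45 (Pf.cons (Pf.C 143 513) Pf.nil)) (Pf.C 23 49156)) (Pf.C 1 388)) (Pf.cons (Pf.B 4 3 (Pf.B 4 0 (Pf.T 4 46 (Pf.cons (Pf.C 143 514) Pf.nil)) (Pf.C 24 49156)) (Pf.C 1 388)) (Pf.cons (Pf.B 4 3 (Pf.B 4 0 (Pf.T 4 46 (Pf.cons (Pf.C 143 513) Pf.nil)) (Pf.C 24 49156)) (Pf.C 1 388)) (Pf.cons (Pf.B 4 3 (Pf.B 4 0 (Pf.T 4 50 (Pf.cons (Pf.C 143 514) Pf.nil)) (Pf.C 32 0x40c004)) (Pf.C 1 388)) (Pf.cons (Pf.B 4 3 (Pf.B 4 0 (Pf.T 4 50 (Pf.cons (Pf.C 143 513) Pf.nil)) (Pf.C 32 0x20c004)) (Pf.C 1 388)) Pf.nil))))))))) Pf.nil))) Pf.nil))))))))))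
 (Pq.cons (Pq.L [] 1 (Pf.C 2 257))
 Pq.nil))))))))
theorem s1_o61 : AllRef s1_T s1_G79 (hitObl [135,137,139,150] s1_h98) :=
  chkPq_sound s1_o61c _ (by decide +kernel)
noncomputable def s1_o62c : Pq := (Pq.cons (Pq.L [] 0 (Pf.C 150 1))
 (Pq.cons (Pq.L [] 0 (Pf.C 151 1))
 (Pq.cons (Pq.L [] 0 (Pf.C 152 1))
 (Pq.cons (Pq.L [] 0 (Pf.C 153 1))
 Pq.nil))))
theorem s1_o62 : AllRef s1_T s1_G80 (List.map pat1 [157,158,159,160]) :=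
  chkPq_sound s1_o62c _ (by decide +kernel)
noncomputable def s1_o63c : Pq := (Pq.cons (Pq.L [] 1 (Pf.C 1 257))
 (Pq.cons (Pq.L [] 1 (Pf.C 1 257))
 (Pq.cons (Pq.L [] 1 (Pf.C 1 257))
 (Pq.cons (Pq.L [] 1 (Pf.C 1 257))
 (Pq.cons (Pq.L [] 1 (Pf.C 1 257))
 (Pq.cons (Pq.L [] 2 (Pf.C 6 385))
 (Pq.cons (Pq.L [] 2 (Pf.C 149 385))
 (Pq.cons (Pq.L [] 1 (Pf.C 1 257))
 (Pq.cons (Pq.L [] 1 (Pf.C 1 257))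
 (Pq.cons (Pq.L [] 1 (Pf.C 1 257))
 (Pq.cons (Pq.L [] 1 (Pf.C 1 257))
 (Pq.cons (Pq.L [] 1 (Pf.C 7 257))
 (Pq.cons (Pq.L [] 1 (Pf.W 144 1 [] [2] (Pf.cons (Pf.B 4 2 (Pf.C 26 65793) (Pf.C 1 260)) Pf.nil)))
 (Pq.cons (Pq.L [] 0 (Pf.W 148 2 [] [1] (Pf.cons (Pf.W 146 4 [] [1] (Pf.cons (Pf.B 5 1 (Pf.C 147 641) (Pf.W 144 5 [] [1] (Pf.cons (Pf.B 6 1 (Pf.C 26 98437) (Pf.C 1 134)) Pf.nil))) Pf.nil)) Pf.nil)))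
 (Pq.cons (Pq.L [] 0 (Pf.W 148 2 [] [1] (Pf.cons (Pf.C 15 132) Pf.nil)))
 (Pq.cons (Pq.L [] 0 (Pf.W 148 2 [] [1] (Pf.cons (Pf.B 4 1 (Pf.C 14 132) (Pf.C 1 132)) Pf.nil)))
 (Pq.cons (Pq.L [] 2 (Pf.W 148 3 [] [1] (Pf.cons (Pf.B 4 1 (Pf.C 28 65667) (Pf.C 1 132)) Pf.nil)))
 (Pq.cons (Pq.L [] 2 (Pf.W 148 3 [] [1] (Pf.cons (Pf.B 4 1 (Pf.C 17 49284) (Pf.C 1 132)) Pf.nil)))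
 (Pq.cons (Pq.L [] 1 (Pf.C 2 257))
 (Pq.cons (Pq.L [] 1 (Pf.C 2 257))
 (Pq.cons (Pq.L [] 2 (Pf.C 145 131))
 (Pq.cons (Pq.L [] 2 (Pf.C 8 131))
 (Pq.cons (Pq.L [] 2 (Pf.C 9 131))
 (Pq.cons (Pq.L [0] 2 (Pf.C 18 16768))
 (Pq.cons (Pq.L [] 1 (Pf.C 2 257))
 (Pq.cons (Pq.L [] 1 (Pf.C 2 257))
 Pq.nil))))))))))))))))))))))))))
theorem s1_o63 : AllRef s1_T s1_G81 (splitObl [153,155] [154,140,141,142,144,145,156,134,136,138,143,149,151]) :=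
  chkPq_sound s1_o63c _ (by decide +kernel)
noncomputable def s1_o64c : Pq := (Pq.cons (Pq.D 0 (Pq.cons (Pq.D 1 (Pq.cons (Pq.L [] 1 (Pf.C 1 257))
 (Pq.cons (Pq.D 2 (Pq.cons (Pq.L [] 2 (Pf.C 1 385))
 (Pq.cons (Pq.D 3 (Pq.cons (Pq.L [] 4 (Pf.C 1 513))
 (Pq.cons (Pq.D 4 (Pq.cons (Pq.D 5 (Pq.cons (Pq.L [0] 28700 (Pf.C 42 0xc14084))
 (Pq.cons (Pq.L [] 16793 (Pf.C 34 0xa18082))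
 Pq.nil))) (Pq.cons (Pq.L [] 4096 (Pf.C 2 644))
 Pq.nil))) Pq.nil))) Pq.nil))) Pq.nil))) (Pq.cons (Pq.D 1 (Pq.cons (Pq.D 2 (Pq.cons (Pq.D 3 (Pq.cons (Pq.D 4 (Pq.cons (Pq.L [0] 4301 (Pf.C 42 0xa10101))
 (Pq.cons (Pq.D 5 (Pq.cons (Pq.L [] 16793 (Pf.C 34 0xc14101))
 (Pq.cons (Pq.L [] 16384 (Pf.C 2 773))
 Pq.nil))) Pq.nil))) (Pq.cons (Pq.L [] 4 (Pf.C 2 513))
 Pq.nil))) (Pq.cons (Pq.L [] 2 (Pf.C 2 385))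
 Pq.nil))) (Pq.cons (Pq.L [] 1 (Pf.C 2 257))
 Pq.nil))) Pq.nil))) (Pq.cons (Pq.L [] 1 (Pf.C 1 257))
 (Pq.cons (Pq.L [] 1 (Pf.C 2 257))
 Pq.nil)))
theorem s1_o64 : AllRef s1_T s1_G81 (applyObl bS113_T 3 [153,155] [1,2] []) :=
  chkPq_sound s1_o64c _ (by decide +kernel)
noncomputable def s1_o65c : Pq := (Pq.cons (Pq.L [] 1 (Pf.C 1 257))
 (Pq.cons (Pq.L [] 1 (Pf.C 1 257))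
 (Pq.cons (Pq.L [] 1 (Pf.C 1 257))
 (Pq.cons (Pq.L [] 1 (Pf.C 1 257))
 (Pq.cons (Pq.L [] 1 (Pf.C 7 257))
 (Pq.cons (Pq.L [] 2 (Pf.C 147 131))
 (Pq.cons (Pq.L [] 1 (Pf.C 1 257))
 (Pq.cons (Pq.L [] 1 (Pf.C 1 257))
 (Pq.cons (Pq.L [] 1 (Pf.C 1 257))
 (Pq.cons (Pq.L [] 1 (Pf.C 1 257))
 (Pq.cons (Pq.L [] 2 (Pf.C 3 385))
 (Pq.cons (Pq.L [] 2 (Pf.W 144 1 [] [3] (Pf.cons (Pf.B 4 3 (Pf.C 25 65921) (Pf.C 1 388)) Pf.nil)))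
 (Pq.cons (Pq.L [] 1 (Pf.C 1 257))
 (Pq.cons (Pq.L [] 1 (Pf.C 1 257))
 (Pq.cons (Pq.L [] 1 (Pf.C 1 257))
 (Pq.cons (Pq.L [] 1 (Pf.C 1 257))
 (Pq.cons (Pq.L [] 2 (Pf.C 3 385))
 (Pq.cons (Pq.L [] 2 (Pf.W 144 1 [] [3] (Pf.cons (Pf.B 4 3 (Pf.C 17 16772) (Pf.C 1 388)) Pf.nil)))
 (Pq.cons (Pq.L [] 1 (Pf.C 1 257))
 (Pq.cons (Pq.L [] 1 (Pf.C 1 257))
 (Pq.cons (Pq.L [] 1 (Pf.C 1 257))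
 (Pq.cons (Pq.L [] 1 (Pf.C 1 257))
 (Pq.cons (Pq.L [] 2 (Pf.C 11 131))
 (Pq.cons (Pq.L [] 2 (Pf.W 144 1 [] [3] (Pf.cons (Pf.B 4 3 (Pf.C 20 16772) (Pf.C 1 388)) Pf.nil)))
 (Pq.cons (Pq.L [] 1 (Pf.C 1 257))
 (Pq.cons (Pq.L [] 1 (Pf.C 1 257))
 (Pq.cons (Pq.L [] 1 (Pf.C 1 257))
 (Pq.cons (Pq.L [] 1 (Pf.C 1 257))
 (Pq.cons (Pq.L [0] 2 (Pf.W 68 49153 [] [] (Pf.cons (Pf.B 4 3 (Pf.C 23 49284) (Pf.C 1 388)) (Pf.cons (Pf.B 4 3 (Pf.C 23 49284) (Pf.C 1 388)) (Pf.cons (Pf.B 4 3 (Pf.C 24 49284) (Pf.C 1 388)) (Pf.cons (Pf.B 4 3 (Pf.C 32 49284) (Pf.C 1 388)) Pf.nil))))))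
 (Pq.cons (Pq.L [] 2 (Pf.W 144 1 [] [3] (Pf.cons (Pf.B 4 3 (Pf.C 17 16772) (Pf.C 1 388)) Pf.nil)))
 (Pq.cons (Pq.L [] 2 (Pf.C 4 385))
 (Pq.cons (Pq.L [] 2 (Pf.C 4 385))
 (Pq.cons (Pq.L [] 2 (Pf.C 5 385))
 (Pq.cons (Pq.L [0] 2 (Pf.C 21 49153))
 (Pq.cons (Pq.L [] 1 (Pf.C 2 257))
 (Pq.cons (Pq.L [] 1 (Pf.C 2 257))
 (Pq.cons (Pq.L [] 2 (Pf.C 145 131))
 (Pq.cons (Pq.L [] 2 (Pf.C 8 131))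
 (Pq.cons (Pq.L [] 2 (Pf.C 9 131))
 (Pq.cons (Pq.L [0] 2 (Pf.C 18 16768))
 (Pq.cons (Pq.L [] 1 (Pf.C 2 257))
 (Pq.cons (Pq.L [] 1 (Pf.C 2 257))
 Pq.nil))))))))))))))))))))))))))))))))))))))))))
theorem s1_o65 : AllRef s1_T s1_G81 (splitObl [154,140,141,142,144,145,156] [134,136,138,143,149,151]) :=
  chkPq_sound s1_o65c _ (by decide +kernel)
noncomputable def s1_o66c : Pq := (Pq.cons (Pq.L [] 2 (Pf.C 1 385))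
 (Pq.cons (Pq.L [] 2 (Pf.C 1 385))
 (Pq.cons (Pq.L [] 2 (Pf.C 1 385))
 (Pq.cons (Pq.L [] 2 (Pf.C 1 385))
 (Pq.cons (Pq.L [] 2 (Pf.C 1 385))
 (Pq.cons (Pq.L [] 4 (Pf.C 6 259))
 (Pq.cons (Pq.L [] 2 (Pf.C 1 385))
 (Pq.cons (Pq.L [] 2 (Pf.C 1 385))
 (Pq.cons (Pq.L [] 2 (Pf.C 1 385))
 (Pq.cons (Pq.L [] 2 (Pf.C 1 385))
 (Pq.cons (Pq.L [] 2 (Pf.C 1 385))
 (Pq.cons (Pq.L [] 2 (Pf.C 13 131))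
 (Pq.cons (Pq.L [] 2 (Pf.C 1 385))
 (Pq.cons (Pq.L [] 2 (Pf.C 1 385))
 (Pq.cons (Pq.L [] 2 (Pf.C 1 385))
 (Pq.cons (Pq.L [] 2 (Pf.C 1 385))
 (Pq.cons (Pq.L [] 2 (Pf.C 1 385))
 (Pq.cons (Pq.L [] 4 (Pf.C 6 259))
 (Pq.cons (Pq.L [] 2 (Pf.C 1 385))
 (Pq.cons (Pq.L [] 2 (Pf.C 1 385))
 (Pq.cons (Pq.L [] 2 (Pf.C 1 385))
 (Pq.cons (Pq.L [] 2 (Pf.C 1 385))
 (Pq.cons (Pq.L [] 2 (Pf.C 1 385))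
 (Pq.cons (Pq.L [] 2 (Pf.C 1 385))
 (Pq.cons (Pq.L [] 2 (Pf.C 1 385))
 (Pq.cons (Pq.L [] 2 (Pf.C 1 385))
 (Pq.cons (Pq.L [] 2 (Pf.C 1 385))
 (Pq.cons (Pq.L [] 2 (Pf.C 1 385))
 (Pq.cons (Pq.L [] 4 (Pf.C 6 386))
 (Pq.cons (Pq.L [] 2 (Pf.C 13 385))
 (Pq.cons (Pq.L [] 4 (Pf.C 6 386))
 (Pq.cons (Pq.L [] 2 (Pf.C 2 385))
 (Pq.cons (Pq.L [] 2 (Pf.C 2 385))
 (Pq.cons (Pq.L [] 2 (Pf.C 2 385))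
 (Pq.cons (Pq.L [] 2 (Pf.C 2 385))
 Pq.nil)))))))))))))))))))))))))))))))))))
theorem s1_o66 : AllRef s1_T s1_G81 (twinObl [154,140,141,142,144,145,156] 0 [64,64,64,96,96,24,31]) :=
  chkPq_sound s1_o66c _ (by decide +kernel)
noncomputable def s1_o67c : Pq := (Pq.cons (Pq.L [] 0 (Pf.C 154 1))
 Pq.nil)
theorem s1_o67 : AllRef s1_T s1_G83 (List.map pat1 [161]) :=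
  chkPq_sound s1_o67c _ (by decide +kernel)
noncomputable def s1_o68c : Pq := (Pq.cons (Pq.D 2 (Pq.cons (Pq.L [] 64 (Pf.C 1 386))
 (Pq.cons (Pq.L [] 2 (Pf.C 10 385))
 (Pq.cons (Pq.L [] 64 (Pf.C 1 386))
 (Pq.cons (Pq.L [] 64 (Pf.C 1 386))
 (Pq.cons (Pq.L [] 64 (Pf.C 13 259))
 (Pq.cons (Pq.D 3 (Pq.cons (Pq.L [] 128 (Pf.C 1 514))
 (Pq.cons (Pq.L [] 4 (Pf.C 10 513))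
 (Pq.cons (Pq.L [] 128 (Pf.C 1 514))
 (Pq.cons (Pq.L [] 2054 (Pf.C 19 49665))
 (Pq.cons (Pq.L [] 128 (Pf.C 13 260))
 (Pq.cons (Pq.D 4 (Pq.cons (Pq.L [] 256 (Pf.C 1 642))
 (Pq.cons (Pq.L [] 8 (Pf.C 10 641))
 (Pq.cons (Pq.L [] 256 (Pf.C 1 642))
 (Pq.cons (Pq.L [] 4106 (Pf.C 19 49793))
 (Pq.cons (Pq.L [] 256 (Pf.C 13 261))
 (Pq.cons (Pq.D 5 (Pq.cons (Pq.D 6 (Pq.cons (Pq.L [] 0x100000 (Pf.C 1 902))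
 (Pq.cons (Pq.L [] 32 (Pf.C 10 897))
 (Pq.cons (Pq.L [0] 17507 (Pf.C 46 0x70608080))
 (Pq.cons (Pq.L [] 16418 (Pf.C 19 50049))
 (Pq.cons (Pq.L [0] 0x106032 (Pf.C 42 0x30e18080))
 (Pq.cons (Pq.L [] 0x106673 (Pf.C 53 0x70c0c101))
 Pq.nil))))))) (Pq.cons (Pq.L [] 16 (Pf.C 10 769))
 (Pq.cons (Pq.L [0] 8787 (Pf.C 46 0x60608080))
 (Pq.cons (Pq.L [] 8210 (Pf.C 19 49921))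
 (Pq.cons (Pq.L [0] 0x40018 (Pf.C 35 0xc14080))
 (Pq.cons (Pq.L [] 0x4335b (Pf.C 50 0x10c14182))
 Pq.nil))))))) Pq.nil))))))) Pq.nil))))))) Pq.nil))))))) (Pq.cons (Pq.L [] 1 (Pf.C 10 257))
 (Pq.cons (Pq.D 2 (Pq.cons (Pq.L [] 64 (Pf.C 1 386))
 (Pq.cons (Pq.L [] 2 (Pf.C 10 385))
 (Pq.cons (Pq.L [] 64 (Pf.C 1 386))
 (Pq.cons (Pq.L [] 64 (Pf.C 1 386))
 (Pq.cons (Pq.D 3 (Pq.cons (Pq.L [] 128 (Pf.C 1 514))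
 (Pq.cons (Pq.L [] 4 (Pf.C 10 513))
 (Pq.cons (Pq.L [] 128 (Pf.C 1 514))
 (Pq.cons (Pq.L [] 128 (Pf.C 1 514))
 (Pq.cons (Pq.D 4 (Pq.cons (Pq.L [] 256 (Pf.C 1 642))
 (Pq.cons (Pq.L [] 8 (Pf.C 10 641))
 (Pq.cons (Pq.L [] 256 (Pf.C 1 642))
 (Pq.cons (Pq.L [] 256 (Pf.C 1 642))
 (Pq.cons (Pq.D 5 (Pq.cons (Pq.L [] 0x40000 (Pf.C 13 773))
 (Pq.cons (Pq.L [] 16 (Pf.C 10 769))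
 (Pq.cons (Pq.D 6 (Pq.cons (Pq.L [] 0x100000 (Pf.C 1 902))
 (Pq.cons (Pq.L [] 32 (Pf.C 10 897))
 (Pq.cons (Pq.L [] 0x100000 (Pf.C 1 902))
 (Pq.cons (Pq.L [0] 17507 (Pf.C 55 0x70608080))
 (Pq.cons (Pq.L [] 0x106673 (Pf.C 53 0x70c0c101))
 (Pq.cons (Pq.L [0] 17507 (Pf.C 42 0x70608080))
 Pq.nil))))))) (Pq.cons (Pq.L [0] 8787 (Pf.C 55 0x60608080))
 (Pq.cons (Pq.L [0] 0x40319 (Pf.C 49 0x60a04002))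
 (Pq.cons (Pq.L [0] 0x40018 (Pf.C 35 0xa18080))
 Pq.nil))))))) (Pq.cons (Pq.D 5 (Pq.cons (Pq.D 6 (Pq.cons (Pq.L [] 0x1c7740 (Pf.C 40 0x70c0c105))
 (Pq.cons (Pq.L [] 32 (Pf.C 10 897))
 (Pq.cons (Pq.L [] 0x1c7740 (Pf.C 40 0x70c0c105))
 (Pq.cons (Pq.L [] 0x80028 (Pf.C 19 82817))
 (Pq.cons (Pq.L [0] 0x100631 (Pf.C 46 0x20e18080))
 (Pq.cons (Pq.L [0] 17507 (Pf.C 42 0x70608080))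
 Pq.nil))))))) (Pq.cons (Pq.L [] 16 (Pf.C 10 769))
 (Pq.cons (Pq.D 6 (Pq.cons (Pq.L [] 0x1c7740 (Pf.C 40 0x70c0c105))
 (Pq.cons (Pq.L [] 32 (Pf.C 10 897))
 (Pq.cons (Pq.L [] 0x1c7740 (Pf.C 40 0x70c0c105))
 (Pq.cons (Pq.L [] 0x80028 (Pf.C 19 82817))
 (Pq.cons (Pq.L [] 0x106673 (Pf.C 53 0x70c0c101))
 (Pq.cons (Pq.L [0] 17507 (Pf.C 42 0x70608080))
 Pq.nil))))))) (Pq.cons (Pq.L [0] 8787 (Pf.C 55 0x60608080))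
 (Pq.cons (Pq.L [0] 0x40018 (Pf.C 35 0xc14080))
 (Pq.cons (Pq.L [0] 8787 (Pf.C 42 0x60608080))
 Pq.nil))))))) Pq.nil))))))) (Pq.cons (Pq.D 4 (Pq.cons (Pq.L [] 256 (Pf.C 1 642))
 (Pq.cons (Pq.L [] 8 (Pf.C 10 641))
 (Pq.cons (Pq.L [] 256 (Pf.C 1 642))
 (Pq.cons (Pq.L [] 32780 (Pf.C 19 66177))
 (Pq.cons (Pq.D 5 (Pq.cons (Pq.L [0] 0x5801c (Pf.C 42 0x40a18080))
 (Pq.cons (Pq.L [] 16 (Pf.C 10 769))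
 (Pq.cons (Pq.L [0] 0x5801c (Pf.C 42 0x40a18080))
 (Pq.cons (Pq.L [] 65556 (Pf.C 19 66305))
 (Pq.cons (Pq.L [0] 0x40319 (Pf.C 49 0x60a04002))
 (Pq.cons (Pq.L [0] 0x40018 (Pf.C 35 0xa18080))
 Pq.nil))))))) (Pq.cons (Pq.D 5 (Pq.cons (Pq.D 6 (Pq.cons (Pq.L [] 0x1c7740 (Pf.C 40 0x70c0c105))
 (Pq.cons (Pq.L [] 32 (Pf.C 10 897))
 (Pq.cons (Pq.L [] 0x1c7740 (Pf.C 40 0x70c0c105))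
 (Pq.cons (Pq.L [] 0x20024 (Pf.C 19 66433))
 (Pq.cons (Pq.L [0] 0x130034 (Pf.C 42 0x40e18080))
 (Pq.cons (Pq.L [0] 17507 (Pf.C 42 0x70608080))
 Pq.nil))))))) (Pq.cons (Pq.L [] 16 (Pf.C 10 769))
 (Pq.cons (Pq.D 6 (Pq.cons (Pq.L [] 0x1c7740 (Pf.C 40 0x70c0c105))
 (Pq.cons (Pq.L [] 32 (Pf.C 10 897))
 (Pq.cons (Pq.L [] 0x1c7740 (Pf.C 40 0x70c0c105))
 (Pq.cons (Pq.L [] 0x20024 (Pf.C 19 66433))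
 (Pq.cons (Pq.L [0] 0x130034 (Pf.C 42 0x40e18080))
 (Pq.cons (Pq.L [0] 17507 (Pf.C 42 0x70608080))
 Pq.nil))))))) (Pq.cons (Pq.L [] 65556 (Pf.C 19 66305))
 (Pq.cons (Pq.L [0] 0x40018 (Pf.C 35 0xc14080))
 (Pq.cons (Pq.L [0] 8787 (Pf.C 42 0x60608080))
 Pq.nil))))))) Pq.nil))))))) Pq.nil))))))) (Pq.cons (Pq.D 3 (Pq.cons (Pq.L [] 128 (Pf.C 1 514))
 (Pq.cons (Pq.L [] 4 (Pf.C 10 513))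
 (Pq.cons (Pq.L [] 128 (Pf.C 1 514))
 (Pq.cons (Pq.L [] 2054 (Pf.C 19 49665))
 (Pq.cons (Pq.D 4 (Pq.cons (Pq.L [] 256 (Pf.C 1 642))
 (Pq.cons (Pq.L [] 8 (Pf.C 10 641))
 (Pq.cons (Pq.L [] 256 (Pf.C 1 642))
 (Pq.cons (Pq.L [] 4106 (Pf.C 19 49793))
 (Pq.cons (Pq.D 5 (Pq.cons (Pq.L [0] 0x4301a (Pf.C 42 0x30a18080))
 (Pq.cons (Pq.L [] 16 (Pf.C 10 769))
 (Pq.cons (Pq.L [0] 0x4301a (Pf.C 42 0x30a18080))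
 (Pq.cons (Pq.L [] 8210 (Pf.C 19 49921))
 (Pq.cons (Pq.L [0] 0x40319 (Pf.C 49 0x60a04002))
 (Pq.cons (Pq.L [0] 0x40018 (Pf.C 35 0xa18080))
 Pq.nil))))))) (Pq.cons (Pq.D 5 (Pq.cons (Pq.D 6 (Pq.cons (Pq.L [] 0x1f8780 (Pf.C 40 0x70c10105))
 (Pq.cons (Pq.L [] 32 (Pf.C 10 897))
 (Pq.cons (Pq.L [] 0x1f8780 (Pf.C 40 0x70c10105))
 (Pq.cons (Pq.L [] 16418 (Pf.C 19 50049))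
 (Pq.cons (Pq.L [0] 0x106032 (Pf.C 42 0x30e18080))
 (Pq.cons (Pq.L [0] 0x204a5 (Pf.C 42 0x70808080))
 Pq.nil))))))) (Pq.cons (Pq.L [] 16 (Pf.C 10 769))
 (Pq.cons (Pq.D 6 (Pq.cons (Pq.L [] 0x1f8780 (Pf.C 40 0x70c10105))
 (Pq.cons (Pq.L [] 32 (Pf.C 10 897))
 (Pq.cons (Pq.L [] 0x1f8780 (Pf.C 40 0x70c10105))
 (Pq.cons (Pq.L [] 16418 (Pf.C 19 50049))
 (Pq.cons (Pq.L [0] 0x106032 (Pf.C 42 0x30e18080))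
 (Pq.cons (Pq.L [0] 0x204a5 (Pf.C 42 0x70808080))
 Pq.nil))))))) (Pq.cons (Pq.L [] 8210 (Pf.C 19 49921))
 (Pq.cons (Pq.L [0] 0x40018 (Pf.C 35 0xc14080))
 (Pq.cons (Pq.L [0] 66197 (Pf.C 42 0x60808080))
 Pq.nil))))))) Pq.nil))))))) (Pq.cons (Pq.D 4 (Pq.cons (Pq.L [] 256 (Pf.C 1 642))
 (Pq.cons (Pq.L [] 8 (Pf.C 10 641))
 (Pq.cons (Pq.L [] 256 (Pf.C 1 642))
 (Pq.cons (Pq.L [] 4106 (Pf.C 19 49793))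
 (Pq.cons (Pq.D 5 (Pq.cons (Pq.L [0] 0x4301a (Pf.C 42 0x30a18080))
 (Pq.cons (Pq.L [] 16 (Pf.C 10 769))
 (Pq.cons (Pq.L [0] 0x4301a (Pf.C 42 0x30a18080))
 (Pq.cons (Pq.L [] 8210 (Pf.C 19 49921))
 (Pq.cons (Pq.L [0] 0x40319 (Pf.C 49 0x60a04002))
 (Pq.cons (Pq.L [0] 0x40018 (Pf.C 35 0xa18080))
 Pq.nil))))))) (Pq.cons (Pq.D 5 (Pq.cons (Pq.D 6 (Pq.cons (Pq.L [] 0x100000 (Pf.C 1 902))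
 (Pq.cons (Pq.L [] 32 (Pf.C 10 897))
 (Pq.cons (Pq.L [] 0x100000 (Pf.C 1 902))
 (Pq.cons (Pq.L [] 16418 (Pf.C 19 50049))
 (Pq.cons (Pq.L [0] 0x106032 (Pf.C 42 0x30e18080))
 (Pq.cons (Pq.L [0] 0x100631 (Pf.C 46 0x20e18080))
 Pq.nil))))))) (Pq.cons (Pq.L [] 16 (Pf.C 10 769))
 (Pq.cons (Pq.D 6 (Pq.cons (Pq.L [] 0x100000 (Pf.C 1 902))
 (Pq.cons (Pq.L [] 32 (Pf.C 10 897))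
 (Pq.cons (Pq.L [] 0x100000 (Pf.C 1 902))
 (Pq.cons (Pq.L [] 16418 (Pf.C 19 50049))
 (Pq.cons (Pq.L [0] 0x106032 (Pf.C 42 0x30e18080))
 (Pq.cons (Pq.L [] 0x106673 (Pf.C 53 0x70c0c101))
 Pq.nil))))))) (Pq.cons (Pq.L [] 8210 (Pf.C 19 49921))
 (Pq.cons (Pq.L [0] 0x40018 (Pf.C 35 0xc14080))
 (Pq.cons (Pq.L [0] 0x40319 (Pf.C 49 0x60a04002))
 Pq.nil))))))) Pq.nil))))))) Pq.nil))))))) Pq.nil))))))) (Pq.cons (Pq.D 2 (Pq.cons (Pq.L [] 64 (Pf.C 1 386))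
 (Pq.cons (Pq.L [] 2 (Pf.C 10 385))
 (Pq.cons (Pq.L [] 64 (Pf.C 1 386))
 (Pq.cons (Pq.L [] 64 (Pf.C 1 386))
 (Pq.cons (Pq.D 3 (Pq.cons (Pq.L [] 128 (Pf.C 1 514))
 (Pq.cons (Pq.L [] 4 (Pf.C 10 513))
 (Pq.cons (Pq.L [] 128 (Pf.C 1 514))
 (Pq.cons (Pq.L [] 128 (Pf.C 1 514))
 (Pq.cons (Pq.D 4 (Pq.cons (Pq.L [] 256 (Pf.C 1 642))
 (Pq.cons (Pq.L [] 8 (Pf.C 10 641))
 (Pq.cons (Pq.L [] 256 (Pf.C 1 642))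
 (Pq.cons (Pq.L [] 256 (Pf.C 1 642))
 (Pq.cons (Pq.D 5 (Pq.cons (Pq.L [] 0x40000 (Pf.C 13 773))
 (Pq.cons (Pq.L [] 16 (Pf.C 10 769))
 (Pq.cons (Pq.D 6 (Pq.cons (Pq.L [] 0x100600 (Pf.C 22 33670))
 (Pq.cons (Pq.L [] 32 (Pf.C 10 897))
 (Pq.cons (Pq.L [] 0x100000 (Pf.C 1 902))
 (Pq.cons (Pq.L [] 0x100000 (Pf.C 1 902))
 (Pq.cons (Pq.L [] 0x106673 (Pf.C 53 0x70c0c101))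
 (Pq.cons (Pq.L [] 1057 (Pf.C 19 0x1c101))
 Pq.nil))))))) (Pq.cons (Pq.D 6 (Pq.cons (Pq.L [] 0x100000 (Pf.C 1 902))
 (Pq.cons (Pq.L [] 32 (Pf.C 10 897))
 (Pq.cons (Pq.L [] 0x100000 (Pf.C 1 902))
 (Pq.cons (Pq.L [] 0x100000 (Pf.C 1 902))
 (Pq.cons (Pq.L [] 0x106673 (Pf.C 53 0x70c0c101))
 (Pq.cons (Pq.L [] 1057 (Pf.C 19 0x1c101))
 Pq.nil))))))) (Pq.cons (Pq.L [0] 0x40319 (Pf.C 49 0x60a04002))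
 (Pq.cons (Pq.L [] 529 (Pf.C 19 98561))
 Pq.nil))))))) (Pq.cons (Pq.D 5 (Pq.cons (Pq.D 6 (Pq.cons (Pq.L [] 0x1c7740 (Pf.C 40 0x70c0c105))
 (Pq.cons (Pq.L [] 32 (Pf.C 10 897))
 (Pq.cons (Pq.L [] 0x100600 (Pf.C 22 33543))
 (Pq.cons (Pq.L [] 0x80028 (Pf.C 19 82817))
 (Pq.cons (Pq.L [0] 0x100631 (Pf.C 46 0x20e18080))
 (Pq.cons (Pq.L [] 1057 (Pf.C 19 0x1c101))
 Pq.nil))))))) (Pq.cons (Pq.L [] 16 (Pf.C 10 769))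
 (Pq.cons (Pq.D 6 (Pq.cons (Pq.L [] 0x100600 (Pf.C 22 33670))
 (Pq.cons (Pq.L [] 32 (Pf.C 10 897))
 (Pq.cons (Pq.L [] 0x1c7740 (Pf.C 40 0x70c0c105))
 (Pq.cons (Pq.L [] 0x80028 (Pf.C 19 82817))
 (Pq.cons (Pq.L [] 0x106673 (Pf.C 53 0x70c0c101))
 (Pq.cons (Pq.L [] 1057 (Pf.C 19 0x1c101))
 Pq.nil))))))) (Pq.cons (Pq.D 6 (Pq.cons (Pq.L [] 0x1c7740 (Pf.C 40 0x70c0c105))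
 (Pq.cons (Pq.L [] 32 (Pf.C 10 897))
 (Pq.cons (Pq.L [] 0x1c7740 (Pf.C 40 0x70c0c105))
 (Pq.cons (Pq.L [] 0x80028 (Pf.C 19 82817))
 (Pq.cons (Pq.L [] 0x106673 (Pf.C 53 0x70c0c101))
 (Pq.cons (Pq.L [] 1057 (Pf.C 19 0x1c101))
 Pq.nil))))))) (Pq.cons (Pq.L [0] 0x40018 (Pf.C 35 0xc14080))
 (Pq.cons (Pq.L [] 529 (Pf.C 19 98561))
 Pq.nil))))))) Pq.nil))))))) (Pq.cons (Pq.D 4 (Pq.cons (Pq.L [] 256 (Pf.C 1 642))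
 (Pq.cons (Pq.L [] 8 (Pf.C 10 641))
 (Pq.cons (Pq.L [] 256 (Pf.C 1 642))
 (Pq.cons (Pq.L [] 32780 (Pf.C 19 66177))
 (Pq.cons (Pq.D 5 (Pq.cons (Pq.L [0] 0x5801c (Pf.C 42 0x40a18080))
 (Pq.cons (Pq.L [] 16 (Pf.C 10 769))
 (Pq.cons (Pq.L [0] 0x5801c (Pf.C 42 0x40a18080))
 (Pq.cons (Pq.L [] 65556 (Pf.C 19 66305))
 (Pq.cons (Pq.L [0] 0x40319 (Pf.C 49 0x60a04002))
 (Pq.cons (Pq.L [] 529 (Pf.C 19 98561))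
 Pq.nil))))))) (Pq.cons (Pq.D 5 (Pq.cons (Pq.D 6 (Pq.cons (Pq.L [] 0x1c7740 (Pf.C 40 0x70c0c105))
 (Pq.cons (Pq.L [] 32 (Pf.C 10 897))
 (Pq.cons (Pq.L [] 0x100600 (Pf.C 22 33543))
 (Pq.cons (Pq.L [] 0x20024 (Pf.C 19 66433))
 (Pq.cons (Pq.L [0] 0x130034 (Pf.C 42 0x40e18080))
 (Pq.cons (Pq.L [] 1057 (Pf.C 19 0x1c101))
 Pq.nil))))))) (Pq.cons (Pq.L [] 16 (Pf.C 10 769))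
 (Pq.cons (Pq.D 6 (Pq.cons (Pq.L [] 0x100600 (Pf.C 22 33670))
 (Pq.cons (Pq.L [] 32 (Pf.C 10 897))
 (Pq.cons (Pq.L [] 0x1c7740 (Pf.C 40 0x70c0c105))
 (Pq.cons (Pq.L [] 0x20024 (Pf.C 19 66433))
 (Pq.cons (Pq.L [0] 0x130034 (Pf.C 42 0x40e18080))
 (Pq.cons (Pq.L [] 1057 (Pf.C 19 0x1c101))
 Pq.nil))))))) (Pq.cons (Pq.L [] 65556 (Pf.C 19 66305))
 (Pq.cons (Pq.L [0] 0x40018 (Pf.C 35 0xc14080))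
 (Pq.cons (Pq.L [] 529 (Pf.C 19 98561))
 Pq.nil))))))) Pq.nil))))))) Pq.nil))))))) (Pq.cons (Pq.D 3 (Pq.cons (Pq.L [] 128 (Pf.C 1 514))
 (Pq.cons (Pq.L [] 4 (Pf.C 10 513))
 (Pq.cons (Pq.L [] 128 (Pf.C 1 514))
 (Pq.cons (Pq.L [] 2054 (Pf.C 19 49665))
 (Pq.cons (Pq.D 4 (Pq.cons (Pq.L [] 256 (Pf.C 1 642))
 (Pq.cons (Pq.L [] 8 (Pf.C 10 641))
 (Pq.cons (Pq.L [] 256 (Pf.C 1 642))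
 (Pq.cons (Pq.L [] 4106 (Pf.C 19 49793))
 (Pq.cons (Pq.D 5 (Pq.cons (Pq.L [0] 0x4301a (Pf.C 42 0x30a18080))
 (Pq.cons (Pq.L [] 16 (Pf.C 10 769))
 (Pq.cons (Pq.L [0] 0x4301a (Pf.C 42 0x30a18080))
 (Pq.cons (Pq.L [] 8210 (Pf.C 19 49921))
 (Pq.cons (Pq.L [0] 0x40319 (Pf.C 49 0x60a04002))
 (Pq.cons (Pq.L [] 529 (Pf.C 19 98561))
 Pq.nil))))))) (Pq.cons (Pq.D 5 (Pq.cons (Pq.D 6 (Pq.cons (Pq.L [] 0x1f8780 (Pf.C 40 0x70c10105))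
 (Pq.cons (Pq.L [] 32 (Pf.C 10 897))
 (Pq.cons (Pq.L [] 0x100600 (Pf.C 22 33543))
 (Pq.cons (Pq.L [] 16418 (Pf.C 19 50049))
 (Pq.cons (Pq.L [0] 0x106032 (Pf.C 42 0x30e18080))
 (Pq.cons (Pq.L [] 1057 (Pf.C 19 0x1c101))
 Pq.nil))))))) (Pq.cons (Pq.L [] 16 (Pf.C 10 769))
 (Pq.cons (Pq.D 6 (Pq.cons (Pq.L [] 0x100600 (Pf.C 22 33670))
 (Pq.cons (Pq.L [] 32 (Pf.C 10 897))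
 (Pq.cons (Pq.L [] 0x1f8780 (Pf.C 40 0x70c10105))
 (Pq.cons (Pq.L [] 16418 (Pf.C 19 50049))
 (Pq.cons (Pq.L [0] 0x106032 (Pf.C 42 0x30e18080))
 (Pq.cons (Pq.L [] 1057 (Pf.C 19 0x1c101))
 Pq.nil))))))) (Pq.cons (Pq.L [] 8210 (Pf.C 19 49921))
 (Pq.cons (Pq.L [0] 0x40018 (Pf.C 35 0xc14080))
 (Pq.cons (Pq.L [] 529 (Pf.C 19 98561))
 Pq.nil))))))) Pq.nil))))))) (Pq.cons (Pq.D 4 (Pq.cons (Pq.L [] 256 (Pf.C 1 642))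
 (Pq.cons (Pq.L [] 8 (Pf.C 10 641))
 (Pq.cons (Pq.L [] 256 (Pf.C 1 642))
 (Pq.cons (Pq.L [] 4106 (Pf.C 19 49793))
 (Pq.cons (Pq.D 5 (Pq.cons (Pq.L [0] 0x4301a (Pf.C 42 0x30a18080))
 (Pq.cons (Pq.L [] 16 (Pf.C 10 769))
 (Pq.cons (Pq.L [0] 0x4301a (Pf.C 42 0x30a18080))
 (Pq.cons (Pq.L [] 8210 (Pf.C 19 49921))
 (Pq.cons (Pq.L [0] 0x40319 (Pf.C 49 0x60a04002))
 (Pq.cons (Pq.L [] 529 (Pf.C 19 98561))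
 Pq.nil))))))) (Pq.cons (Pq.D 5 (Pq.cons (Pq.D 6 (Pq.cons (Pq.L [] 0x100000 (Pf.C 1 902))
 (Pq.cons (Pq.L [] 32 (Pf.C 10 897))
 (Pq.cons (Pq.L [] 0x100600 (Pf.C 22 33543))
 (Pq.cons (Pq.L [] 16418 (Pf.C 19 50049))
 (Pq.cons (Pq.L [0] 0x106032 (Pf.C 42 0x30e18080))
 (Pq.cons (Pq.L [] 1057 (Pf.C 19 0x1c101))
 Pq.nil))))))) (Pq.cons (Pq.L [] 16 (Pf.C 10 769))
 (Pq.cons (Pq.D 6 (Pq.cons (Pq.L [] 0x100600 (Pf.C 22 33670))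
 (Pq.cons (Pq.L [] 32 (Pf.C 10 897))
 (Pq.cons (Pq.L [] 0x100000 (Pf.C 1 902))
 (Pq.cons (Pq.L [] 16418 (Pf.C 19 50049))
 (Pq.cons (Pq.L [0] 0x106032 (Pf.C 42 0x30e18080))
 (Pq.cons (Pq.L [] 1057 (Pf.C 19 0x1c101))
 Pq.nil))))))) (Pq.cons (Pq.L [] 8210 (Pf.C 19 49921))
 (Pq.cons (Pq.L [0] 0x40018 (Pf.C 35 0xc14080))
 (Pq.cons (Pq.L [] 529 (Pf.C 19 98561))
 Pq.nil))))))) Pq.nil))))))) Pq.nil))))))) Pq.nil))))))) Pq.nil))))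
theorem s1_o68 : AllRef s1_T s1_G85 (List.take 4 (List.flatMap (splitP 1) (List.take 1 (List.take 3 (List.flatMap (splitP 0) (List.take 1 (applyObl bD_T 3 [162,163,164,165,166,167] [1,1,1,1,2,2] []))))))) :=
  chkPq_sound s1_o68c _ (by decide +kernel)
noncomputable def s1_o69c : Pq := (Pq.cons (Pq.D 2 (Pq.cons (Pq.L [] 64 (Pf.C 13 386))
 (Pq.cons (Pq.L [] 2 (Pf.C 10 385))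
 (Pq.cons (Pq.D 3 (Pq.cons (Pq.L [] 128 (Pf.C 13 514))
 (Pq.cons (Pq.L [] 4 (Pf.C 10 513))
 (Pq.cons (Pq.D 4 (Pq.cons (Pq.L [] 256 (Pf.C 13 642))
 (Pq.cons (Pq.L [] 8 (Pf.C 10 641))
 (Pq.cons (Pq.D 5 (Pq.cons (Pq.L [] 0x40000 (Pf.C 1 773))
 (Pq.cons (Pq.L [] 16 (Pf.C 10 769))
 (Pq.cons (Pq.L [] 0x40000 (Pf.C 1 773))
 (Pq.cons (Pq.L [0] 8787 (Pf.C 55 0x6040c080))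
 (Pq.cons (Pq.L [0] 0x1c677b (Pf.B 7 0 (Pf.C 0 0x800e18105) (Pf.C 0 0x1030c1c080)))
 (Pq.cons (Pq.L [0] 8787 (Pf.C 42 0x6040c080))
 Pq.nil))))))) (Pq.cons (Pq.L [0] 0x1fffff (Pf.B 7 0 (Pf.B 6 0 (Pf.C 0 0x800e18105) (Pf.C 0 0x1030e18080)) (Pf.B 6 0 (Pf.C 0 0x1030c1c080) (Pf.W 64 515 [] [0,1,2,5,6,7] (Pf.cons (Pf.B 8 5 (Pf.C 22 82947) (Pf.B 8 2 (Pf.B 8 1 (Pf.B 8 0 (Pf.B 8 7 (Pf.B 8 6 (Pf.C 0 0x2020e18405) (Pf.C 0 0x1041018080)) (Pf.C 0 0x104101c080)) (Pf.C 2 8)) (Pf.C 13 136)) (Pf.C 2 264))) (Pf.cons (Pf.B 8 5 (Pf.C 22 82948) (Pf.B 8 2 (Pf.B 8 1 (Pf.B 8 0 (Pf.B 8 7 (Pf.B 8 6 (Pf.C 0 0x1820e18405) (Pf.C 0 0x1031018080)) (Pf.C 0 0x103101c080)) (Pf.C 2 8)) (Pf.C 13 136)) (Pf.C 2 264))) (Pf.cons (Pf.B 8 2 (Pf.C 30 0x20202)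 (Pf.C 2 264)) (Pf.cons (Pf.B 8 2 (Pf.C 30 0x20182) (Pf.C 2 264)) Pf.nil))))))))
 (Pq.cons (Pq.L [0] 4427 (Pf.C 49 0x50404003))
 (Pq.cons (Pq.L [0] 265 (Pf.C 35 0x414080))
 Pq.nil))))))) (Pq.cons (Pq.D 4 (Pq.cons (Pq.L [] 256 (Pf.C 13 642))
 (Pq.cons (Pq.L [] 8 (Pf.C 10 641))
 (Pq.cons (Pq.D 5 (Pq.cons (Pq.L [] 0x5bbc0 (Pf.C 55 0x40c14182))
 (Pq.cons (Pq.L [] 16 (Pf.C 10 769))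
 (Pq.cons (Pq.L [] 0x5bbc0 (Pf.C 55 0x40c14182))
 (Pq.cons (Pq.L [0] 8787 (Pf.C 55 0x6040c080))
 (Pq.cons (Pq.L [0] 0x5801c (Pf.C 55 0x40c14080))
 (Pq.cons (Pq.L [] 65556 (Pf.C 19 98817))
 Pq.nil))))))) (Pq.cons (Pq.D 5 (Pq.cons (Pq.L [] 0x40000 (Pf.C 1 773))
 (Pq.cons (Pq.L [] 16 (Pf.C 10 769))
 (Pq.cons (Pq.L [] 0x40000 (Pf.C 1 773))
 (Pq.cons (Pq.L [0] 8787 (Pf.C 55 0x6040c080))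
 (Pq.cons (Pq.L [0] 0x1c677b (Pf.B 7 0 (Pf.C 0 0x800e18105) (Pf.C 0 0x1030c1c080)))
 (Pq.cons (Pq.L [] 65556 (Pf.C 19 98817))
 Pq.nil))))))) (Pq.cons (Pq.L [0] 4427 (Pf.C 49 0x50404003))
 (Pq.cons (Pq.L [] 32780 (Pf.C 19 82433))
 Pq.nil))))))) (Pq.cons (Pq.L [0] 2247 (Pf.C 49 0x40404003))
 (Pq.cons (Pq.L [0] 133 (Pf.C 35 0x410080))
 Pq.nil))))))) (Pq.cons (Pq.D 3 (Pq.cons (Pq.L [] 128 (Pf.C 13 514))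
 (Pq.cons (Pq.L [] 4 (Pf.C 10 513))
 (Pq.cons (Pq.D 4 (Pq.cons (Pq.L [] 256 (Pf.C 13 642))
 (Pq.cons (Pq.L [] 8 (Pf.C 10 641))
 (Pq.cons (Pq.D 5 (Pq.cons (Pq.L [] 0x5bbc0 (Pf.C 55 0x30c14202))
 (Pq.cons (Pq.L [] 16 (Pf.C 10 769))
 (Pq.cons (Pq.L [] 0x5bbc0 (Pf.C 55 0x30c14202))
 (Pq.cons (Pq.L [0] 66197 (Pf.C 55 0x60410080))
 (Pq.cons (Pq.L [0] 0x4301a (Pf.C 55 0x30c14080))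
 (Pq.cons (Pq.L [] 8210 (Pf.C 19 98689))
 Pq.nil))))))) (Pq.cons (Pq.D 5 (Pq.cons (Pq.L [] 0x40000 (Pf.C 1 773))
 (Pq.cons (Pq.L [] 16 (Pf.C 10 769))
 (Pq.cons (Pq.L [] 0x40000 (Pf.C 1 773))
 (Pq.cons (Pq.L [0] 66197 (Pf.C 55 0x60410080))
 (Pq.cons (Pq.L [0] 0x1c677b (Pf.B 7 0 (Pf.C 0 0x800e18105) (Pf.C 0 0x1030c1c080)))
 (Pq.cons (Pq.L [] 8210 (Pf.C 19 98689))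
 Pq.nil))))))) (Pq.cons (Pq.L [0] 4427 (Pf.C 49 0x50404003))
 (Pq.cons (Pq.L [] 4106 (Pf.C 19 82305))
 Pq.nil))))))) (Pq.cons (Pq.D 4 (Pq.cons (Pq.L [] 256 (Pf.C 13 642))
 (Pq.cons (Pq.L [] 8 (Pf.C 10 641))
 (Pq.cons (Pq.D 5 (Pq.cons (Pq.L [] 0x43000 (Pf.C 22 49925))
 (Pq.cons (Pq.L [] 16 (Pf.C 10 769))
 (Pq.cons (Pq.L [] 0x40000 (Pf.C 1 773))
 (Pq.cons (Pq.L [] 0x40000 (Pf.C 1 773))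
 (Pq.cons (Pq.L [0] 0x4301a (Pf.C 55 0x30c14080))
 (Pq.cons (Pq.L [] 8210 (Pf.C 19 98689))
 Pq.nil))))))) (Pq.cons (Pq.D 5 (Pq.cons (Pq.L [] 0x40000 (Pf.C 1 773))
 (Pq.cons (Pq.L [] 16 (Pf.C 10 769))
 (Pq.cons (Pq.L [] 0x40000 (Pf.C 1 773))
 (Pq.cons (Pq.L [] 0x40000 (Pf.C 1 773))
 (Pq.cons (Pq.L [0] 0x1c677b (Pf.B 7 0 (Pf.C 0 0x800e18105) (Pf.C 0 0x1030c1c080)))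
 (Pq.cons (Pq.L [] 8210 (Pf.C 19 98689))
 Pq.nil))))))) (Pq.cons (Pq.L [0] 4427 (Pf.C 49 0x50404003))
 (Pq.cons (Pq.L [] 4106 (Pf.C 19 82305))
 Pq.nil))))))) (Pq.cons (Pq.L [0] 2247 (Pf.C 49 0x40404003))
 (Pq.cons (Pq.L [] 2054 (Pf.C 19 65921))
 Pq.nil))))))) (Pq.cons (Pq.L [] 64 (Pf.C 2 386))
 (Pq.cons (Pq.L [0] 67 (Pf.C 35 0x40c080))
 Pq.nil))))))) (Pq.cons (Pq.D 2 (Pq.cons (Pq.D 3 (Pq.cons (Pq.D 4 (Pq.cons (Pq.D 5 (Pq.cons (Pq.L [] 0x40000 (Pf.C 1 773))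
 (Pq.cons (Pq.L [] 16 (Pf.C 10 769))
 (Pq.cons (Pq.L [0] 8787 (Pf.C 46 0x6040c080))
 (Pq.cons (Pq.L [] 529 (Pf.C 19 33537))
 (Pq.cons (Pq.L [] 0x40000 (Pf.C 13 646))
 (Pq.cons (Pq.L [0] 0x1c677b (Pf.B 7 0 (Pf.C 0 0x800e18105) (Pf.C 0 0x1030c1c080)))
 Pq.nil))))))) (Pq.cons (Pq.L [] 8 (Pf.C 10 641))
 (Pq.cons (Pq.L [0] 0x1fffff (Pf.B 7 0 (Pf.B 6 0 (Pf.C 0 0x800e18105) (Pf.C 0 0x1030e18080)) (Pf.B 6 0 (Pf.C 0 0x1030c1c080) (Pf.W 62 515 [] [0,1,2,5,6,7] (Pf.cons (Pf.B 8 5 (Pf.C 29 82312) (Pf.B 8 2 (Pf.B 8 1 (Pf.B 8 0 (Pf.B 8 7 (Pf.B 8 6 (Pf.C 0 0x2020e18405) (Pf.C 0 0x1041018080)) (Pf.C 0 0x104101c080)) (Pf.C 2 8)) (Pf.C 35 0x808088)) (Pf.C 2 264))) (Pf.cons (Pf.B 8 5 (Pf.C 29 82440) (Pf.B 8 2 (Pf.B 8 1 (Pf.B 8 0 (Pf.B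 8 7 (Pf.B 8 6 (Pf.C 0 0x1820e18405) (Pf.C 0 0x1031018080)) (Pf.C 0 0x103101c080)) (Pf.C 2 8)) (Pf.C 35 0x608088)) (Pf.C 2 264))) Pf.nil))))))
 (Pq.cons (Pq.L [0] 0x1fffff (Pf.B 7 0 (Pf.B 6 0 (Pf.C 0 0x800e18105) (Pf.C 0 0x1030e18080)) (Pf.B 6 0 (Pf.C 0 0x1030c1c080) (Pf.W 62 515 [] [0,1,2,5,6,7] (Pf.cons (Pf.B 8 5 (Pf.C 19 0x20284) (Pf.B 8 2 (Pf.B 8 1 (Pf.B 8 0 (Pf.B 8 7 (Pf.B 8 6 (Pf.C 0 0x2020e18405) (Pf.C 0 0x1041018080)) (Pf.C 0 0x104101c080)) (Pf.C 2 8)) (Pf.C 35 0x808088)) (Pf.C 2 264))) (Pf.cons (Pf.B 8 5 (Pf.C 19 0x20283) (Pf.B 8 2 (Pf.B 8 1 (Pf.B 8 0 (Pf.B 8 7 (Pf.B 8 6 (Pf.C 0 0x1820e18405) (Pf.C 0 0x1031018080)) (Pf.C 0 0x103101c080)) (Pf.C 2 8)) (Pf.C 35 0x608088)) (Pf.C 2 264))) Pf.nil))))))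
 (Pq.cons (Pq.L [0] 265 (Pf.C 35 0xa08080))
 (Pq.cons (Pq.L [] 256 (Pf.C 2 642))
 Pq.nil))))))) (Pq.cons (Pq.L [] 4 (Pf.C 10 513))
 (Pq.cons (Pq.D 4 (Pq.cons (Pq.D 5 (Pq.cons (Pq.L [] 0x5bbc0 (Pf.C 46 0x40c14182))
 (Pq.cons (Pq.L [] 16 (Pf.C 10 769))
 (Pq.cons (Pq.L [0] 8787 (Pf.C 46 0x6040c080))
 (Pq.cons (Pq.L [] 529 (Pf.C 19 33537))
 (Pq.cons (Pq.L [0] 0x5801c (Pf.C 46 0x40c14080))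
 (Pq.cons (Pq.L [0] 0x5801c (Pf.C 46 0x40c14080))
 Pq.nil))))))) (Pq.cons (Pq.L [] 8 (Pf.C 10 641))
 (Pq.cons (Pq.D 5 (Pq.cons (Pq.L [] 0x40000 (Pf.C 1 773))
 (Pq.cons (Pq.L [] 16 (Pf.C 10 769))
 (Pq.cons (Pq.L [0] 8787 (Pf.C 46 0x6040c080))
 (Pq.cons (Pq.L [] 529 (Pf.C 19 33537))
 (Pq.cons (Pq.L [0] 0x1c677b (Pf.B 7 0 (Pf.C 0 0x800e18105) (Pf.C 0 0x1030c1c080)))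
 (Pq.cons (Pq.L [0] 0x1c677b (Pf.B 7 0 (Pf.C 0 0x800e18105) (Pf.C 0 0x1030c1c080)))
 Pq.nil))))))) (Pq.cons (Pq.D 5 (Pq.cons (Pq.L [] 0x40000 (Pf.C 1 773))
 (Pq.cons (Pq.L [] 16 (Pf.C 10 769))
 (Pq.cons (Pq.L [0] 8787 (Pf.C 46 0x6040c080))
 (Pq.cons (Pq.L [] 529 (Pf.C 19 33537))
 (Pq.cons (Pq.L [0] 0x1c677b (Pf.B 7 0 (Pf.C 0 0x800e18105) (Pf.C 0 0x1030c1c080)))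
 (Pq.cons (Pq.L [0] 0x1c677b (Pf.B 7 0 (Pf.C 0 0x800e18105) (Pf.C 0 0x1030c1c080)))
 Pq.nil))))))) (Pq.cons (Pq.L [0] 265 (Pf.C 35 0xa08080))
 (Pq.cons (Pq.L [0] 33165 (Pf.C 49 0x50404004))
 Pq.nil))))))) (Pq.cons (Pq.D 4 (Pq.cons (Pq.D 5 (Pq.cons (Pq.L [] 0x5bbc0 (Pf.C 46 0x40c14182))
 (Pq.cons (Pq.L [] 16 (Pf.C 10 769))
 (Pq.cons (Pq.L [0] 8787 (Pf.C 46 0x6040c080))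
 (Pq.cons (Pq.L [] 529 (Pf.C 19 33537))
 (Pq.cons (Pq.L [0] 0x5801c (Pf.C 46 0x40c14080))
 (Pq.cons (Pq.L [] 65556 (Pf.C 19 98817))
 Pq.nil))))))) (Pq.cons (Pq.L [] 8 (Pf.C 10 641))
 (Pq.cons (Pq.D 5 (Pq.cons (Pq.L [] 0x5bbc0 (Pf.C 55 0x40c14182))
 (Pq.cons (Pq.L [] 16 (Pf.C 10 769))
 (Pq.cons (Pq.L [0] 8787 (Pf.C 46 0x6040c080))
 (Pq.cons (Pq.L [] 529 (Pf.C 19 33537))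
 (Pq.cons (Pq.L [0] 0x5801c (Pf.C 55 0x40c14080))
 (Pq.cons (Pq.L [] 65556 (Pf.C 19 98817))
 Pq.nil))))))) (Pq.cons (Pq.D 5 (Pq.cons (Pq.L [] 0x40000 (Pf.C 1 773))
 (Pq.cons (Pq.L [] 16 (Pf.C 10 769))
 (Pq.cons (Pq.L [0] 8787 (Pf.C 46 0x6040c080))
 (Pq.cons (Pq.L [] 529 (Pf.C 19 33537))
 (Pq.cons (Pq.L [0] 0x1c677b (Pf.B 7 0 (Pf.C 0 0x800e18105) (Pf.C 0 0x1030c1c080)))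
 (Pq.cons (Pq.L [] 65556 (Pf.C 19 98817))
 Pq.nil))))))) (Pq.cons (Pq.L [0] 265 (Pf.C 35 0xa08080))
 (Pq.cons (Pq.L [] 32780 (Pf.C 19 82433))
 Pq.nil))))))) (Pq.cons (Pq.L [0] 133 (Pf.C 35 0x808080))
 (Pq.cons (Pq.L [] 128 (Pf.C 2 514))
 Pq.nil))))))) (Pq.cons (Pq.L [] 2 (Pf.C 10 385))
 (Pq.cons (Pq.D 3 (Pq.cons (Pq.D 4 (Pq.cons (Pq.D 5 (Pq.cons (Pq.L [] 0x5bbc0 (Pf.C 46 0x30c14202))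
 (Pq.cons (Pq.L [] 16 (Pf.C 10 769))
 (Pq.cons (Pq.L [0] 66197 (Pf.C 46 0x60410080))
 (Pq.cons (Pq.L [] 529 (Pf.C 19 33537))
 (Pq.cons (Pq.L [0] 0x4301a (Pf.C 46 0x30c14080))
 (Pq.cons (Pq.L [0] 0x4301a (Pf.C 46 0x30c14080))
 Pq.nil))))))) (Pq.cons (Pq.L [] 8 (Pf.C 10 641))
 (Pq.cons (Pq.D 5 (Pq.cons (Pq.L [] 0x40000 (Pf.C 1 773))
 (Pq.cons (Pq.L [] 16 (Pf.C 10 769))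
 (Pq.cons (Pq.L [0] 66197 (Pf.C 46 0x60410080))
 (Pq.cons (Pq.L [] 529 (Pf.C 19 33537))
 (Pq.cons (Pq.L [0] 0x1c677b (Pf.B 7 0 (Pf.C 0 0x800e18105) (Pf.C 0 0x1030c1c080)))
 (Pq.cons (Pq.L [0] 0x1c677b (Pf.B 7 0 (Pf.C 0 0x800e18105) (Pf.C 0 0x1030c1c080)))
 Pq.nil))))))) (Pq.cons (Pq.D 5 (Pq.cons (Pq.L [] 0x40000 (Pf.C 1 773))
 (Pq.cons (Pq.L [] 16 (Pf.C 10 769))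
 (Pq.cons (Pq.L [0] 66197 (Pf.C 46 0x60410080))
 (Pq.cons (Pq.L [] 529 (Pf.C 19 33537))
 (Pq.cons (Pq.L [0] 0x1c677b (Pf.B 7 0 (Pf.C 0 0x800e18105) (Pf.C 0 0x1030c1c080)))
 (Pq.cons (Pq.L [0] 0x1c677b (Pf.B 7 0 (Pf.C 0 0x800e18105) (Pf.C 0 0x1030c1c080)))
 Pq.nil))))))) (Pq.cons (Pq.L [0] 265 (Pf.C 35 0xa08080))
 (Pq.cons (Pq.L [0] 4427 (Pf.C 49 0x50404003))
 Pq.nil))))))) (Pq.cons (Pq.L [] 4 (Pf.C 10 513))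
 (Pq.cons (Pq.D 4 (Pq.cons (Pq.D 5 (Pq.cons (Pq.L [] 0x40000 (Pf.C 1 773))
 (Pq.cons (Pq.L [] 16 (Pf.C 10 769))
 (Pq.cons (Pq.L [] 0x40000 (Pf.C 1 773))
 (Pq.cons (Pq.L [] 529 (Pf.C 19 33537))
 (Pq.cons (Pq.L [0] 0x4301a (Pf.C 46 0x30c14080))
 (Pq.cons (Pq.L [0] 0x4301a (Pf.C 46 0x30c14080))
 Pq.nil))))))) (Pq.cons (Pq.L [] 8 (Pf.C 10 641))
 (Pq.cons (Pq.D 5 (Pq.cons (Pq.L [] 0x40000 (Pf.C 1 773))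
 (Pq.cons (Pq.L [] 16 (Pf.C 10 769))
 (Pq.cons (Pq.L [] 0x40000 (Pf.C 1 773))
 (Pq.cons (Pq.L [] 529 (Pf.C 19 33537))
 (Pq.cons (Pq.L [0] 0x1c677b (Pf.B 7 0 (Pf.C 0 0x800e18105) (Pf.C 0 0x1030c1c080)))
 (Pq.cons (Pq.L [0] 0x1c677b (Pf.B 7 0 (Pf.C 0 0x800e18105) (Pf.C 0 0x1030c1c080)))
 Pq.nil))))))) (Pq.cons (Pq.D 5 (Pq.cons (Pq.L [] 0x40000 (Pf.C 1 773))
 (Pq.cons (Pq.L [] 16 (Pf.C 10 769))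
 (Pq.cons (Pq.L [] 0x40000 (Pf.C 1 773))
 (Pq.cons (Pq.L [] 529 (Pf.C 19 33537))
 (Pq.cons (Pq.L [0] 0x1c677b (Pf.B 7 0 (Pf.C 0 0x800e18105) (Pf.C 0 0x1030c1c080)))
 (Pq.cons (Pq.L [0] 0x1c677b (Pf.B 7 0 (Pf.C 0 0x800e18105) (Pf.C 0 0x1030c1c080)))
 Pq.nil))))))) (Pq.cons (Pq.L [0] 265 (Pf.C 35 0xa08080))
 (Pq.cons (Pq.L [0] 4427 (Pf.C 49 0x50404003))
 Pq.nil))))))) (Pq.cons (Pq.D 4 (Pq.cons (Pq.D 5 (Pq.cons (Pq.L [] 0x5bbc0 (Pf.C 55 0x40c14182))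
 (Pq.cons (Pq.L [] 16 (Pf.C 10 769))
 (Pq.cons (Pq.L [] 0x5bbc0 (Pf.C 55 0x40c14182))
 (Pq.cons (Pq.L [] 529 (Pf.C 19 33537))
 (Pq.cons (Pq.L [0] 0x4301a (Pf.C 46 0x30c14080))
 (Pq.cons (Pq.L [] 65556 (Pf.C 19 98817))
 Pq.nil))))))) (Pq.cons (Pq.L [] 8 (Pf.C 10 641))
 (Pq.cons (Pq.D 5 (Pq.cons (Pq.L [] 0x5bbc0 (Pf.C 55 0x40c14182))
 (Pq.cons (Pq.L [] 16 (Pf.C 10 769))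
 (Pq.cons (Pq.L [] 0x5bbc0 (Pf.C 55 0x40c14182))
 (Pq.cons (Pq.L [] 529 (Pf.C 19 33537))
 (Pq.cons (Pq.L [0] 0x5801c (Pf.C 55 0x40c14080))
 (Pq.cons (Pq.L [] 65556 (Pf.C 19 98817))
 Pq.nil))))))) (Pq.cons (Pq.D 5 (Pq.cons (Pq.L [] 0x40000 (Pf.C 1 773))
 (Pq.cons (Pq.L [] 16 (Pf.C 10 769))
 (Pq.cons (Pq.L [] 0x40000 (Pf.C 1 773))
 (Pq.cons (Pq.L [] 529 (Pf.C 19 33537))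
 (Pq.cons (Pq.L [0] 0x1c677b (Pf.B 7 0 (Pf.C 0 0x800e18105) (Pf.C 0 0x1030c1c080)))
 (Pq.cons (Pq.L [] 65556 (Pf.C 19 98817))
 Pq.nil))))))) (Pq.cons (Pq.L [0] 265 (Pf.C 35 0xa08080))
 (Pq.cons (Pq.L [] 32780 (Pf.C 19 82433))
 Pq.nil))))))) (Pq.cons (Pq.L [0] 133 (Pf.C 35 0x808080))
 (Pq.cons (Pq.L [0] 2247 (Pf.C 49 0x40404003))
 Pq.nil))))))) (Pq.cons (Pq.D 3 (Pq.cons (Pq.D 4 (Pq.cons (Pq.D 5 (Pq.cons (Pq.L [] 0x5bbc0 (Pf.C 46 0x30c14202))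
 (Pq.cons (Pq.L [] 16 (Pf.C 10 769))
 (Pq.cons (Pq.L [0] 66197 (Pf.C 46 0x60410080))
 (Pq.cons (Pq.L [] 529 (Pf.C 19 33537))
 (Pq.cons (Pq.L [0] 0x4301a (Pf.C 46 0x30c14080))
 (Pq.cons (Pq.L [] 8210 (Pf.C 19 98689))
 Pq.nil))))))) (Pq.cons (Pq.L [] 8 (Pf.C 10 641))
 (Pq.cons (Pq.D 5 (Pq.cons (Pq.L [] 0x5bbc0 (Pf.C 55 0x30c14202))
 (Pq.cons (Pq.L [] 16 (Pf.C 10 769))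
 (Pq.cons (Pq.L [0] 66197 (Pf.C 46 0x60410080))
 (Pq.cons (Pq.L [] 529 (Pf.C 19 33537))
 (Pq.cons (Pq.L [0] 0x4301a (Pf.C 55 0x30c14080))
 (Pq.cons (Pq.L [] 8210 (Pf.C 19 98689))
 Pq.nil))))))) (Pq.cons (Pq.D 5 (Pq.cons (Pq.L [] 0x40000 (Pf.C 1 773))
 (Pq.cons (Pq.L [] 16 (Pf.C 10 769))
 (Pq.cons (Pq.L [0] 66197 (Pf.C 46 0x60410080))
 (Pq.cons (Pq.L [] 529 (Pf.C 19 33537))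
 (Pq.cons (Pq.L [0] 0x1c677b (Pf.B 7 0 (Pf.C 0 0x800e18105) (Pf.C 0 0x1030c1c080)))
 (Pq.cons (Pq.L [] 8210 (Pf.C 19 98689))
 Pq.nil))))))) (Pq.cons (Pq.L [0] 265 (Pf.C 35 0xa08080))
 (Pq.cons (Pq.L [] 4106 (Pf.C 19 82305))
 Pq.nil))))))) (Pq.cons (Pq.L [] 4 (Pf.C 10 513))
 (Pq.cons (Pq.D 4 (Pq.cons (Pq.D 5 (Pq.cons (Pq.L [] 0x5bbc0 (Pf.C 55 0x30c14202))
 (Pq.cons (Pq.L [] 16 (Pf.C 10 769))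
 (Pq.cons (Pq.L [] 0x5bbc0 (Pf.C 55 0x30c14202))
 (Pq.cons (Pq.L [] 529 (Pf.C 19 33537))
 (Pq.cons (Pq.L [0] 0x4301a (Pf.C 46 0x30c14080))
 (Pq.cons (Pq.L [] 8210 (Pf.C 19 98689))
 Pq.nil))))))) (Pq.cons (Pq.L [] 8 (Pf.C 10 641))
 (Pq.cons (Pq.D 5 (Pq.cons (Pq.L [] 0x5bbc0 (Pf.C 55 0x30c14202))
 (Pq.cons (Pq.L [] 16 (Pf.C 10 769))
 (Pq.cons (Pq.L [] 0x5bbc0 (Pf.C 55 0x30c14202))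
 (Pq.cons (Pq.L [] 529 (Pf.C 19 33537))
 (Pq.cons (Pq.L [0] 0x4301a (Pf.C 55 0x30c14080))
 (Pq.cons (Pq.L [] 8210 (Pf.C 19 98689))
 Pq.nil))))))) (Pq.cons (Pq.D 5 (Pq.cons (Pq.L [] 0x40000 (Pf.C 1 773))
 (Pq.cons (Pq.L [] 16 (Pf.C 10 769))
 (Pq.cons (Pq.L [] 0x40000 (Pf.C 1 773))
 (Pq.cons (Pq.L [] 529 (Pf.C 19 33537))
 (Pq.cons (Pq.L [0] 0x1c677b (Pf.B 7 0 (Pf.C 0 0x800e18105) (Pf.C 0 0x1030c1c080)))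
 (Pq.cons (Pq.L [] 8210 (Pf.C 19 98689))
 Pq.nil))))))) (Pq.cons (Pq.L [0] 265 (Pf.C 35 0xa08080))
 (Pq.cons (Pq.L [] 4106 (Pf.C 19 82305))
 Pq.nil))))))) (Pq.cons (Pq.D 4 (Pq.cons (Pq.D 5 (Pq.cons (Pq.L [] 0x40000 (Pf.C 1 773))
 (Pq.cons (Pq.L [] 16 (Pf.C 10 769))
 (Pq.cons (Pq.L [] 0x43000 (Pf.C 22 49798))
 (Pq.cons (Pq.L [] 529 (Pf.C 19 33537))
 (Pq.cons (Pq.L [0] 0x4301a (Pf.C 46 0x30c14080))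
 (Pq.cons (Pq.L [] 8210 (Pf.C 19 98689))
 Pq.nil))))))) (Pq.cons (Pq.L [] 8 (Pf.C 10 641))
 (Pq.cons (Pq.D 5 (Pq.cons (Pq.L [] 0x43000 (Pf.C 22 49925))
 (Pq.cons (Pq.L [] 16 (Pf.C 10 769))
 (Pq.cons (Pq.L [] 0x40000 (Pf.C 1 773))
 (Pq.cons (Pq.L [] 529 (Pf.C 19 33537))
 (Pq.cons (Pq.L [0] 0x4301a (Pf.C 55 0x30c14080))
 (Pq.cons (Pq.L [] 8210 (Pf.C 19 98689))
 Pq.nil))))))) (Pq.cons (Pq.D 5 (Pq.cons (Pq.L [] 0x40000 (Pf.C 1 773))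
 (Pq.cons (Pq.L [] 16 (Pf.C 10 769))
 (Pq.cons (Pq.L [] 0x40000 (Pf.C 1 773))
 (Pq.cons (Pq.L [] 529 (Pf.C 19 33537))
 (Pq.cons (Pq.L [0] 0x1c677b (Pf.B 7 0 (Pf.C 0 0x800e18105) (Pf.C 0 0x1030c1c080)))
 (Pq.cons (Pq.L [] 8210 (Pf.C 19 98689))
 Pq.nil))))))) (Pq.cons (Pq.L [0] 265 (Pf.C 35 0xa08080))
 (Pq.cons (Pq.L [] 4106 (Pf.C 19 82305))
 Pq.nil))))))) (Pq.cons (Pq.L [0] 133 (Pf.C 35 0x808080))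
 (Pq.cons (Pq.L [] 2054 (Pf.C 19 65921))
 Pq.nil))))))) (Pq.cons (Pq.L [0] 67 (Pf.C 35 0x608080))
 (Pq.cons (Pq.L [] 64 (Pf.C 2 386))
 Pq.nil))))))) Pq.nil))
theorem s1_o69 : AllRef s1_T s1_G85 (List.drop 4 (List.flatMap (splitP 1) (List.take 1 (List.take 3 (List.flatMap (splitP 0) (List.take 1 (applyObl bD_T 3 [162,163,164,165,166,167] [1,1,1,1,2,2] []))))))) :=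
  chkPq_sound s1_o69c _ (by decide +kernel)
noncomputable def s1_o70c : Pq := (Pq.cons (Pq.D 1 (Pq.cons (Pq.L [] 1 (Pf.C 10 130))
 (Pq.cons (Pq.D 2 (Pq.cons (Pq.L [] 2 (Pf.C 10 131))
 (Pq.cons (Pq.L [] 64 (Pf.C 1 386))
 (Pq.cons (Pq.L [] 64 (Pf.C 1 386))
 (Pq.cons (Pq.L [] 64 (Pf.C 1 386))
 (Pq.cons (Pq.L [] 2 (Pf.C 6 131))
 (Pq.cons (Pq.D 3 (Pq.cons (Pq.L [] 4 (Pf.C 10 132))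
 (Pq.cons (Pq.L [] 128 (Pf.C 1 514))
 (Pq.cons (Pq.L [] 2054 (Pf.C 19 49284))
 (Pq.cons (Pq.L [] 128 (Pf.C 1 514))
 (Pq.cons (Pq.L [] 4 (Pf.C 6 132))
 (Pq.cons (Pq.D 4 (Pq.cons (Pq.L [] 8 (Pf.C 10 133))
 (Pq.cons (Pq.L [] 256 (Pf.C 1 642))
 (Pq.cons (Pq.L [] 4106 (Pf.C 19 49285))
 (Pq.cons (Pq.L [] 256 (Pf.C 1 642))
 (Pq.cons (Pq.L [] 8 (Pf.C 6 133))
 (Pq.cons (Pq.D 5 (Pq.cons (Pq.L [] 16 (Pf.C 10 134))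
 (Pq.cons (Pq.D 6 (Pq.cons (Pq.L [] 32 (Pf.C 10 135))
 (Pq.cons (Pq.L [] 0x100000 (Pf.C 1 902))
 (Pq.cons (Pq.L [] 16418 (Pf.C 19 49287))
 (Pq.cons (Pq.L [] 17507 (Pf.C 36 0xe0c101))
 (Pq.cons (Pq.L [] 32 (Pf.C 6 135))
 (Pq.cons (Pq.L [] 0x106673 (Pf.C 52 0x70c0c101))
 Pq.nil))))))) (Pq.cons (Pq.L [] 8210 (Pf.C 19 49286))
 (Pq.cons (Pq.L [] 8787 (Pf.C 36 0xc0c101))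
 (Pq.cons (Pq.L [] 16 (Pf.C 6 134))
 (Pq.cons (Pq.L [] 0x4335b (Pf.C 50 0x10c14182))
 Pq.nil))))))) Pq.nil))))))) Pq.nil))))))) Pq.nil))))))) (Pq.cons (Pq.D 2 (Pq.cons (Pq.L [] 2 (Pf.C 10 131))
 (Pq.cons (Pq.L [] 64 (Pf.C 1 386))
 (Pq.cons (Pq.L [] 64 (Pf.C 1 386))
 (Pq.cons (Pq.L [] 64 (Pf.C 1 386))
 (Pq.cons (Pq.L [] 2 (Pf.C 6 131))
 (Pq.cons (Pq.D 3 (Pq.cons (Pq.L [] 4 (Pf.C 10 132))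
 (Pq.cons (Pq.L [] 128 (Pf.C 1 514))
 (Pq.cons (Pq.L [] 2054 (Pf.C 19 49284))
 (Pq.cons (Pq.L [] 128 (Pf.C 1 514))
 (Pq.cons (Pq.L [] 4 (Pf.C 6 132))
 (Pq.cons (Pq.D 4 (Pq.cons (Pq.L [] 8 (Pf.C 10 133))
 (Pq.cons (Pq.L [] 256 (Pf.C 1 642))
 (Pq.cons (Pq.L [] 4106 (Pf.C 19 49285))
 (Pq.cons (Pq.L [] 256 (Pf.C 1 642))
 (Pq.cons (Pq.L [] 8 (Pf.C 6 133))
 (Pq.cons (Pq.D 5 (Pq.cons (Pq.L [] 16 (Pf.C 10 134))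
 (Pq.cons (Pq.D 6 (Pq.cons (Pq.L [] 32 (Pf.C 10 135))
 (Pq.cons (Pq.L [] 0x100000 (Pf.C 1 902))
 (Pq.cons (Pq.L [] 16418 (Pf.C 19 49287))
 (Pq.cons (Pq.L [] 0x100000 (Pf.C 1 902))
 (Pq.cons (Pq.L [] 32 (Pf.C 6 135))
 (Pq.cons (Pq.L [] 1057 (Pf.C 19 0x1c082))
 Pq.nil))))))) (Pq.cons (Pq.L [] 8210 (Pf.C 19 49286))
 (Pq.cons (Pq.D 6 (Pq.cons (Pq.L [] 32 (Pf.C 10 135))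
 (Pq.cons (Pq.L [] 0x100000 (Pf.C 1 902))
 (Pq.cons (Pq.L [] 16418 (Pf.C 19 49287))
 (Pq.cons (Pq.L [] 0x100000 (Pf.C 1 902))
 (Pq.cons (Pq.L [] 32 (Pf.C 6 135))
 (Pq.cons (Pq.L [] 1057 (Pf.C 19 0x1c082))
 Pq.nil))))))) (Pq.cons (Pq.L [] 16 (Pf.C 6 134))
 (Pq.cons (Pq.L [] 529 (Pf.C 19 98434))
 Pq.nil))))))) Pq.nil))))))) Pq.nil))))))) Pq.nil))))))) (Pq.cons (Pq.D 2 (Pq.cons (Pq.L [] 2 (Pf.C 10 131))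
 (Pq.cons (Pq.L [] 64 (Pf.C 1 386))
 (Pq.cons (Pq.L [] 64 (Pf.C 1 386))
 (Pq.cons (Pq.L [] 64 (Pf.C 1 386))
 (Pq.cons (Pq.L [] 2 (Pf.C 6 131))
 (Pq.cons (Pq.D 3 (Pq.cons (Pq.L [] 4 (Pf.C 10 132))
 (Pq.cons (Pq.L [] 128 (Pf.C 1 514))
 (Pq.cons (Pq.L [] 2054 (Pf.C 19 49284))
 (Pq.cons (Pq.L [] 128 (Pf.C 1 514))
 (Pq.cons (Pq.L [] 4 (Pf.C 6 132))
 (Pq.cons (Pq.D 4 (Pq.cons (Pq.L [] 8 (Pf.C 10 133))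
 (Pq.cons (Pq.L [] 256 (Pf.C 1 642))
 (Pq.cons (Pq.L [] 4106 (Pf.C 19 49285))
 (Pq.cons (Pq.L [] 256 (Pf.C 1 642))
 (Pq.cons (Pq.L [] 8 (Pf.C 6 133))
 (Pq.cons (Pq.D 5 (Pq.cons (Pq.L [] 16 (Pf.C 10 134))
 (Pq.cons (Pq.D 6 (Pq.cons (Pq.L [] 32 (Pf.C 10 135))
 (Pq.cons (Pq.L [] 0x100000 (Pf.C 1 902))
 (Pq.cons (Pq.L [] 16418 (Pf.C 19 49287))
 (Pq.cons (Pq.L [] 0x100000 (Pf.C 1 902))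
 (Pq.cons (Pq.L [] 32 (Pf.C 6 135))
 (Pq.cons (Pq.L [] 0x100631 (Pf.C 36 0x41c301))
 Pq.nil))))))) (Pq.cons (Pq.L [] 8210 (Pf.C 19 49286))
 (Pq.cons (Pq.D 6 (Pq.cons (Pq.L [] 32 (Pf.C 10 135))
 (Pq.cons (Pq.L [] 0x100000 (Pf.C 1 902))
 (Pq.cons (Pq.L [] 16418 (Pf.C 19 49287))
 (Pq.cons (Pq.L [] 0x100000 (Pf.C 1 902))
 (Pq.cons (Pq.L [] 32 (Pf.C 6 135))
 (Pq.cons (Pq.L [] 0x106673 (Pf.C 52 0x70c0c101))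
 Pq.nil))))))) (Pq.cons (Pq.L [] 16 (Pf.C 6 134))
 (Pq.cons (Pq.L [0] 0x40319 (Pf.C 49 0x60a04002))
 Pq.nil))))))) Pq.nil))))))) Pq.nil))))))) Pq.nil))))))) (Pq.cons (Pq.L [] 1 (Pf.C 6 130))
 (Pq.cons (Pq.D 2 (Pq.cons (Pq.L [] 2 (Pf.C 10 131))
 (Pq.cons (Pq.D 3 (Pq.cons (Pq.L [] 4 (Pf.C 10 132))
 (Pq.cons (Pq.D 4 (Pq.cons (Pq.L [] 8 (Pf.C 10 133))
 (Pq.cons (Pq.D 5 (Pq.cons (Pq.L [] 16 (Pf.C 10 134))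
 (Pq.cons (Pq.L [] 0x40000 (Pf.C 1 773))
 (Pq.cons (Pq.L [] 529 (Pf.C 19 32902))
 (Pq.cons (Pq.L [] 8787 (Pf.C 36 0xc08181))
 (Pq.cons (Pq.L [] 16 (Pf.C 6 134))
 (Pq.cons (Pq.L [0] 0x1c677b (Pf.B 7 0 (Pf.C 0 0x800e18105) (Pf.C 0 0x1030c1c080)))
 Pq.nil))))))) (Pq.cons (Pq.L [0] 0x1fffff (Pf.B 7 0 (Pf.B 6 0 (Pf.C 0 0x800e18105) (Pf.C 0 0x1030e18080)) (Pf.B 6 0 (Pf.C 0 0x1030c1c080) (Pf.W 63 515 [] [0,1,2,5,6,7] (Pf.cons (Pf.B 8 5 (Pf.C 19 0x20205) (Pf.B 8 2 (Pf.B 8 1 (Pf.B 8 0 (Pf.B 8 7 (Pf.B 8 6 (Pf.C 0 0x2020e18405) (Pf.C 0 0x1041018080)) (Pf.C 0 0x104101c080)) (Pf.C 2 8)) (Pf.C 35 0x808088)) (Pf.C 2 264))) (Pf.cons (Pf.B 8 5 (Pf.C 19 0x20185) (Pf.B 8 2 (Pf.B 8 1 (Pf.B 8 0 (Pf.B 8 7 (Pf.B 8 6 (Pf.C 0 0x1820e18405)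 (Pf.C 0 0x1031018080)) (Pf.C 0 0x103101c080)) (Pf.C 2 8)) (Pf.C 35 0x608088)) (Pf.C 2 264))) Pf.nil))))))
 (Pq.cons (Pq.L [0] 0x1fffff (Pf.B 7 0 (Pf.B 6 0 (Pf.C 0 0x800e18105) (Pf.C 0 0x1030e18080)) (Pf.B 6 0 (Pf.C 0 0x1030c1c080) (Pf.W 63 515 [] [0,1,2,5,6,7] (Pf.cons (Pf.B 8 5 (Pf.C 36 0xa20184) (Pf.B 8 2 (Pf.B 8 1 (Pf.B 8 0 (Pf.B 8 7 (Pf.B 8 6 (Pf.C 0 0x2020e18405) (Pf.C 0 0x1041018080)) (Pf.C 0 0x104101c080)) (Pf.C 2 8)) (Pf.C 35 0x808088)) (Pf.C 2 264))) (Pf.cons (Pf.B 8 5 (Pf.C 36 0xa20203) (Pf.B 8 2 (Pf.B 8 1 (Pf.B 8 0 (Pf.B 8 7 (Pf.B 8 6 (Pf.C 0 0x1820e18405) (Pf.C 0 0x1031018080)) (Pf.C 0 0x103101c080)) (Pf.C 2 8)) (Pf.C 35 0x608088)) (Pf.C 2 264))) Pf.nil))))))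
 (Pq.cons (Pq.L [] 8 (Pf.C 6 133))
 (Pq.cons (Pq.L [] 256 (Pf.C 2 642))
 Pq.nil))))))) (Pq.cons (Pq.D 4 (Pq.cons (Pq.L [] 8 (Pf.C 10 133))
 (Pq.cons (Pq.D 5 (Pq.cons (Pq.L [] 16 (Pf.C 10 134))
 (Pq.cons (Pq.L [] 0x5bbc0 (Pf.C 46 0x40c14182))
 (Pq.cons (Pq.L [] 529 (Pf.C 19 32902))
 (Pq.cons (Pq.L [] 8787 (Pf.C 36 0xc08181))
 (Pq.cons (Pq.L [] 16 (Pf.C 6 134))
 (Pq.cons (Pq.L [] 65556 (Pf.C 19 98436))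
 Pq.nil))))))) (Pq.cons (Pq.D 5 (Pq.cons (Pq.L [] 16 (Pf.C 10 134))
 (Pq.cons (Pq.L [] 0x40000 (Pf.C 1 773))
 (Pq.cons (Pq.L [] 529 (Pf.C 19 32902))
 (Pq.cons (Pq.L [] 8787 (Pf.C 36 0xc08181))
 (Pq.cons (Pq.L [] 16 (Pf.C 6 134))
 (Pq.cons (Pq.L [] 65556 (Pf.C 19 98436))
 Pq.nil))))))) (Pq.cons (Pq.D 5 (Pq.cons (Pq.L [] 16 (Pf.C 10 134))
 (Pq.cons (Pq.L [] 0x40000 (Pf.C 1 773))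
 (Pq.cons (Pq.L [] 529 (Pf.C 19 32902))
 (Pq.cons (Pq.L [] 8787 (Pf.C 36 0xc08181))
 (Pq.cons (Pq.L [] 16 (Pf.C 6 134))
 (Pq.cons (Pq.L [] 65556 (Pf.C 19 98436))
 Pq.nil))))))) (Pq.cons (Pq.L [] 8 (Pf.C 6 133))
 (Pq.cons (Pq.L [] 32780 (Pf.C 19 82052))
 Pq.nil))))))) (Pq.cons (Pq.D 4 (Pq.cons (Pq.L [] 8 (Pf.C 10 133))
 (Pq.cons (Pq.D 5 (Pq.cons (Pq.L [] 16 (Pf.C 10 134))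
 (Pq.cons (Pq.L [] 0x5bbc0 (Pf.C 46 0x40c14182))
 (Pq.cons (Pq.L [] 529 (Pf.C 19 32902))
 (Pq.cons (Pq.L [] 8787 (Pf.C 36 0xc08181))
 (Pq.cons (Pq.L [] 16 (Pf.C 6 134))
 (Pq.cons (Pq.L [] 0x5801c (Pf.C 36 0x818281))
 Pq.nil))))))) (Pq.cons (Pq.D 5 (Pq.cons (Pq.L [] 16 (Pf.C 10 134))
 (Pq.cons (Pq.L [] 0x40000 (Pf.C 1 773))
 (Pq.cons (Pq.L [] 529 (Pf.C 19 32902))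
 (Pq.cons (Pq.L [] 8787 (Pf.C 36 0xc08181))
 (Pq.cons (Pq.L [] 16 (Pf.C 6 134))
 (Pq.cons (Pq.L [0] 0x1c677b (Pf.B 7 0 (Pf.C 0 0x800e18105) (Pf.C 0 0x1030c1c080)))
 Pq.nil))))))) (Pq.cons (Pq.D 5 (Pq.cons (Pq.L [] 16 (Pf.C 10 134))
 (Pq.cons (Pq.L [] 0x40000 (Pf.C 1 773))
 (Pq.cons (Pq.L [] 529 (Pf.C 19 32902))
 (Pq.cons (Pq.L [] 8787 (Pf.C 36 0xc08181))
 (Pq.cons (Pq.L [] 16 (Pf.C 6 134))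
 (Pq.cons (Pq.L [0] 0x1c677b (Pf.B 7 0 (Pf.C 0 0x800e18105) (Pf.C 0 0x1030c1c080)))
 Pq.nil))))))) (Pq.cons (Pq.L [] 8 (Pf.C 6 133))
 (Pq.cons (Pq.L [0] 33165 (Pf.C 49 0x50404004))
 Pq.nil))))))) (Pq.cons (Pq.L [] 4 (Pf.C 6 132))
 (Pq.cons (Pq.L [] 128 (Pf.C 2 514))
 Pq.nil))))))) (Pq.cons (Pq.D 3 (Pq.cons (Pq.L [] 4 (Pf.C 10 132))
 (Pq.cons (Pq.D 4 (Pq.cons (Pq.L [] 8 (Pf.C 10 133))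
 (Pq.cons (Pq.D 5 (Pq.cons (Pq.L [] 16 (Pf.C 10 134))
 (Pq.cons (Pq.L [] 0x5bbc0 (Pf.C 46 0x30c14202))
 (Pq.cons (Pq.L [] 529 (Pf.C 19 32902))
 (Pq.cons (Pq.L [] 66197 (Pf.C 36 0xc08201))
 (Pq.cons (Pq.L [] 16 (Pf.C 6 134))
 (Pq.cons (Pq.L [] 8210 (Pf.C 19 98435))
 Pq.nil))))))) (Pq.cons (Pq.D 5 (Pq.cons (Pq.L [] 16 (Pf.C 10 134))
 (Pq.cons (Pq.L [] 0x40000 (Pf.C 1 773))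
 (Pq.cons (Pq.L [] 529 (Pf.C 19 32902))
 (Pq.cons (Pq.L [] 66197 (Pf.C 36 0xc08201))
 (Pq.cons (Pq.L [] 16 (Pf.C 6 134))
 (Pq.cons (Pq.L [] 8210 (Pf.C 19 98435))
 Pq.nil))))))) (Pq.cons (Pq.D 5 (Pq.cons (Pq.L [] 16 (Pf.C 10 134))
 (Pq.cons (Pq.L [] 0x40000 (Pf.C 1 773))
 (Pq.cons (Pq.L [] 529 (Pf.C 19 32902))
 (Pq.cons (Pq.L [] 66197 (Pf.C 36 0xc08201))
 (Pq.cons (Pq.L [] 16 (Pf.C 6 134))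
 (Pq.cons (Pq.L [] 8210 (Pf.C 19 98435))
 Pq.nil))))))) (Pq.cons (Pq.L [] 8 (Pf.C 6 133))
 (Pq.cons (Pq.L [] 4106 (Pf.C 19 82051))
 Pq.nil))))))) (Pq.cons (Pq.D 4 (Pq.cons (Pq.L [] 8 (Pf.C 10 133))
 (Pq.cons (Pq.D 5 (Pq.cons (Pq.L [] 16 (Pf.C 10 134))
 (Pq.cons (Pq.L [] 0x40000 (Pf.C 1 773))
 (Pq.cons (Pq.L [] 529 (Pf.C 19 32902))
 (Pq.cons (Pq.L [] 0x40000 (Pf.C 1 773))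
 (Pq.cons (Pq.L [] 16 (Pf.C 6 134))
 (Pq.cons (Pq.L [] 8210 (Pf.C 19 98435))
 Pq.nil))))))) (Pq.cons (Pq.D 5 (Pq.cons (Pq.L [] 16 (Pf.C 10 134))
 (Pq.cons (Pq.L [] 0x40000 (Pf.C 1 773))
 (Pq.cons (Pq.L [] 529 (Pf.C 19 32902))
 (Pq.cons (Pq.L [] 0x40000 (Pf.C 1 773))
 (Pq.cons (Pq.L [] 16 (Pf.C 6 134))
 (Pq.cons (Pq.L [] 8210 (Pf.C 19 98435))
 Pq.nil))))))) (Pq.cons (Pq.D 5 (Pq.cons (Pq.L [] 16 (Pf.C 10 134))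
 (Pq.cons (Pq.L [] 0x40000 (Pf.C 1 773))
 (Pq.cons (Pq.L [] 529 (Pf.C 19 32902))
 (Pq.cons (Pq.L [] 0x40000 (Pf.C 1 773))
 (Pq.cons (Pq.L [] 16 (Pf.C 6 134))
 (Pq.cons (Pq.L [] 8210 (Pf.C 19 98435))
 Pq.nil))))))) (Pq.cons (Pq.L [] 8 (Pf.C 6 133))
 (Pq.cons (Pq.L [] 4106 (Pf.C 19 82051))
 Pq.nil))))))) (Pq.cons (Pq.D 4 (Pq.cons (Pq.L [] 8 (Pf.C 10 133))
 (Pq.cons (Pq.D 5 (Pq.cons (Pq.L [] 16 (Pf.C 10 134))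
 (Pq.cons (Pq.L [] 0x40000 (Pf.C 1 773))
 (Pq.cons (Pq.L [] 529 (Pf.C 19 32902))
 (Pq.cons (Pq.L [] 0x40000 (Pf.C 1 773))
 (Pq.cons (Pq.L [] 16 (Pf.C 6 134))
 (Pq.cons (Pq.L [] 8210 (Pf.C 19 98435))
 Pq.nil))))))) (Pq.cons (Pq.D 5 (Pq.cons (Pq.L [] 16 (Pf.C 10 134))
 (Pq.cons (Pq.L [] 0x40000 (Pf.C 1 773))
 (Pq.cons (Pq.L [] 529 (Pf.C 19 32902))
 (Pq.cons (Pq.L [] 0x40000 (Pf.C 1 773))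
 (Pq.cons (Pq.L [] 16 (Pf.C 6 134))
 (Pq.cons (Pq.L [] 8210 (Pf.C 19 98435))
 Pq.nil))))))) (Pq.cons (Pq.D 5 (Pq.cons (Pq.L [] 16 (Pf.C 10 134))
 (Pq.cons (Pq.L [] 0x40000 (Pf.C 1 773))
 (Pq.cons (Pq.L [] 529 (Pf.C 19 32902))
 (Pq.cons (Pq.L [] 0x40000 (Pf.C 1 773))
 (Pq.cons (Pq.L [] 16 (Pf.C 6 134))
 (Pq.cons (Pq.L [] 8210 (Pf.C 19 98435))
 Pq.nil))))))) (Pq.cons (Pq.L [] 8 (Pf.C 6 133))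
 (Pq.cons (Pq.L [] 4106 (Pf.C 19 82051))
 Pq.nil))))))) (Pq.cons (Pq.L [] 4 (Pf.C 6 132))
 (Pq.cons (Pq.L [] 2054 (Pf.C 19 65667))
 Pq.nil))))))) (Pq.cons (Pq.D 3 (Pq.cons (Pq.L [] 4 (Pf.C 10 132))
 (Pq.cons (Pq.D 4 (Pq.cons (Pq.L [] 8 (Pf.C 10 133))
 (Pq.cons (Pq.D 5 (Pq.cons (Pq.L [] 16 (Pf.C 10 134))
 (Pq.cons (Pq.L [] 0x5bbc0 (Pf.C 46 0x30c14202))
 (Pq.cons (Pq.L [] 529 (Pf.C 19 32902))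
 (Pq.cons (Pq.L [] 66197 (Pf.C 36 0xc08201))
 (Pq.cons (Pq.L [] 16 (Pf.C 6 134))
 (Pq.cons (Pq.L [] 0x4301a (Pf.C 36 0x618281))
 Pq.nil))))))) (Pq.cons (Pq.D 5 (Pq.cons (Pq.L [] 16 (Pf.C 10 134))
 (Pq.cons (Pq.L [] 0x40000 (Pf.C 1 773))
 (Pq.cons (Pq.L [] 529 (Pf.C 19 32902))
 (Pq.cons (Pq.L [] 66197 (Pf.C 36 0xc08201))
 (Pq.cons (Pq.L [] 16 (Pf.C 6 134))
 (Pq.cons (Pq.L [0] 0x1c677b (Pf.B 7 0 (Pf.C 0 0x800e18105) (Pf.C 0 0x1030c1c080)))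
 Pq.nil))))))) (Pq.cons (Pq.D 5 (Pq.cons (Pq.L [] 16 (Pf.C 10 134))
 (Pq.cons (Pq.L [] 0x40000 (Pf.C 1 773))
 (Pq.cons (Pq.L [] 529 (Pf.C 19 32902))
 (Pq.cons (Pq.L [] 66197 (Pf.C 36 0xc08201))
 (Pq.cons (Pq.L [] 16 (Pf.C 6 134))
 (Pq.cons (Pq.L [0] 0x1c677b (Pf.B 7 0 (Pf.C 0 0x800e18105) (Pf.C 0 0x1030c1c080)))
 Pq.nil))))))) (Pq.cons (Pq.L [] 8 (Pf.C 6 133))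
 (Pq.cons (Pq.L [0] 4427 (Pf.C 49 0x50404003))
 Pq.nil))))))) (Pq.cons (Pq.D 4 (Pq.cons (Pq.L [] 8 (Pf.C 10 133))
 (Pq.cons (Pq.D 5 (Pq.cons (Pq.L [] 16 (Pf.C 10 134))
 (Pq.cons (Pq.L [] 0x40000 (Pf.C 1 773))
 (Pq.cons (Pq.L [] 529 (Pf.C 19 32902))
 (Pq.cons (Pq.L [] 0x40000 (Pf.C 1 773))
 (Pq.cons (Pq.L [] 16 (Pf.C 6 134))
 (Pq.cons (Pq.L [] 65556 (Pf.C 19 98436))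
 Pq.nil))))))) (Pq.cons (Pq.D 5 (Pq.cons (Pq.L [] 16 (Pf.C 10 134))
 (Pq.cons (Pq.L [] 0x40000 (Pf.C 1 773))
 (Pq.cons (Pq.L [] 529 (Pf.C 19 32902))
 (Pq.cons (Pq.L [] 0x40000 (Pf.C 1 773))
 (Pq.cons (Pq.L [] 16 (Pf.C 6 134))
 (Pq.cons (Pq.L [] 65556 (Pf.C 19 98436))
 Pq.nil))))))) (Pq.cons (Pq.D 5 (Pq.cons (Pq.L [] 16 (Pf.C 10 134))
 (Pq.cons (Pq.L [] 0x40000 (Pf.C 1 773))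
 (Pq.cons (Pq.L [] 529 (Pf.C 19 32902))
 (Pq.cons (Pq.L [] 0x40000 (Pf.C 1 773))
 (Pq.cons (Pq.L [] 16 (Pf.C 6 134))
 (Pq.cons (Pq.L [] 65556 (Pf.C 19 98436))
 Pq.nil))))))) (Pq.cons (Pq.L [] 8 (Pf.C 6 133))
 (Pq.cons (Pq.L [] 32780 (Pf.C 19 82052))
 Pq.nil))))))) (Pq.cons (Pq.D 4 (Pq.cons (Pq.L [] 8 (Pf.C 10 133))
 (Pq.cons (Pq.D 5 (Pq.cons (Pq.L [] 16 (Pf.C 10 134))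
 (Pq.cons (Pq.L [] 0x40000 (Pf.C 1 773))
 (Pq.cons (Pq.L [] 529 (Pf.C 19 32902))
 (Pq.cons (Pq.L [] 0x40000 (Pf.C 1 773))
 (Pq.cons (Pq.L [] 16 (Pf.C 6 134))
 (Pq.cons (Pq.L [] 0x4301a (Pf.C 36 0x618281))
 Pq.nil))))))) (Pq.cons (Pq.D 5 (Pq.cons (Pq.L [] 16 (Pf.C 10 134))
 (Pq.cons (Pq.L [] 0x40000 (Pf.C 1 773))
 (Pq.cons (Pq.L [] 529 (Pf.C 19 32902))
 (Pq.cons (Pq.L [] 0x40000 (Pf.C 1 773))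
 (Pq.cons (Pq.L [] 16 (Pf.C 6 134))
 (Pq.cons (Pq.L [0] 0x1c677b (Pf.B 7 0 (Pf.C 0 0x800e18105) (Pf.C 0 0x1030c1c080)))
 Pq.nil))))))) (Pq.cons (Pq.D 5 (Pq.cons (Pq.L [] 16 (Pf.C 10 134))
 (Pq.cons (Pq.L [] 0x40000 (Pf.C 1 773))
 (Pq.cons (Pq.L [] 529 (Pf.C 19 32902))
 (Pq.cons (Pq.L [] 0x40000 (Pf.C 1 773))
 (Pq.cons (Pq.L [] 16 (Pf.C 6 134))
 (Pq.cons (Pq.L [0] 0x1c677b (Pf.B 7 0 (Pf.C 0 0x800e18105) (Pf.C 0 0x1030c1c080)))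
 Pq.nil))))))) (Pq.cons (Pq.L [] 8 (Pf.C 6 133))
 (Pq.cons (Pq.L [0] 4427 (Pf.C 49 0x50404003))
 Pq.nil))))))) (Pq.cons (Pq.L [] 4 (Pf.C 6 132))
 (Pq.cons (Pq.L [0] 2247 (Pf.C 49 0x40404003))
 Pq.nil))))))) (Pq.cons (Pq.L [] 2 (Pf.C 6 131))
 (Pq.cons (Pq.L [] 64 (Pf.C 2 386))
 Pq.nil))))))) Pq.nil))))))) Pq.nil)
theorem s1_o70 : AllRef s1_T s1_G85 (List.take 1 (List.drop 1 (List.take 3 (List.flatMap (splitP 0) (List.take 1 (applyObl bD_T 3 [162,163,164,165,166,167] [1,1,1,1,2,2] [])))))) :=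
  chkPq_sound s1_o70c _ (by decide +kernel)

end Pool.Agent.Lib.MP_849b2e_co
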