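import Pool.Agent.Lib.MP_849b2e_co.Fast
import Pool.Agent.Lib.MP_849b2e_co.Ts1
import Pool.Agent.Lib.MP_849b2e_co.TbD
import Pool.Agent.Lib.MP_849b2e_co.TbS113

set_option maxRecDepth 100000
set_option linter.all false
namespace Pool.Agent.Lib.MP_849b2e_co

noncomputable def s1_o71c : Pq := (Pq.cons (Pq.D 2 (Pq.cons (Pq.L [] 64 (Pf.C 1 386))
 (Pq.cons (Pq.L [] 64 (Pf.C 1 386))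
 (Pq.cons (Pq.L [] 64 (Pf.C 1 386))
 (Pq.cons (Pq.L [] 64 (Pf.C 1 386))
 (Pq.cons (Pq.L [] 67 (Pf.C 29 16643))
 (Pq.cons (Pq.L [] 67 (Pf.C 29 16643))
 Pq.nil))))))) (Pq.cons (Pq.D 2 (Pq.cons (Pq.L [] 64 (Pf.C 1 386))
 (Pq.cons (Pq.L [] 64 (Pf.C 1 386))
 (Pq.cons (Pq.L [] 64 (Pf.C 1 386))
 (Pq.cons (Pq.L [] 64 (Pf.C 1 386))
 (Pq.cons (Pq.D 3 (Pq.cons (Pq.L [] 128 (Pf.C 1 514))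
 (Pq.cons (Pq.L [] 2054 (Pf.C 28 65667))
 (Pq.cons (Pq.L [] 128 (Pf.C 1 514))
 (Pq.cons (Pq.L [] 128 (Pf.C 1 514))
 (Pq.cons (Pq.D 4 (Pq.cons (Pq.L [] 256 (Pf.C 1 642))
 (Pq.cons (Pq.L [] 4106 (Pf.C 28 82051))
 (Pq.cons (Pq.L [] 256 (Pf.C 1 642))
 (Pq.cons (Pq.L [] 256 (Pf.C 1 642))
 (Pq.cons (Pq.D 5 (Pq.cons (Pq.L [] 0x40018 (Pf.C 29 17157))
 (Pq.cons (Pq.L [] 8210 (Pf.C 28 98435))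
 (Pq.cons (Pq.D 6 (Pq.cons (Pq.L [0] 17507 (Pf.C 46 0x10608380))
 (Pq.cons (Pq.L [] 16418 (Pf.C 28 0x1c083))
 (Pq.cons (Pq.L [] 0x100000 (Pf.C 1 902))
 (Pq.cons (Pq.L [] 0x100000 (Pf.C 1 902))
 (Pq.cons (Pq.L [] 1057 (Pf.C 28 32903))
 (Pq.cons (Pq.L [] 1057 (Pf.C 19 0x1c101))
 Pq.nil))))))) (Pq.cons (Pq.D 6 (Pq.cons (Pq.L [0] 17507 (Pf.C 46 0x10608380))
 (Pq.cons (Pq.L [] 16418 (Pf.C 28 0x1c083))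
 (Pq.cons (Pq.L [] 0x100000 (Pf.C 1 902))
 (Pq.cons (Pq.L [] 0x100000 (Pf.C 1 902))
 (Pq.cons (Pq.L [] 1057 (Pf.C 28 32903))
 (Pq.cons (Pq.L [] 1057 (Pf.C 19 0x1c101))
 Pq.nil))))))) (Pq.cons (Pq.L [] 529 (Pf.C 28 32902))
 (Pq.cons (Pq.L [] 529 (Pf.C 19 98561))
 Pq.nil))))))) (Pq.cons (Pq.D 5 (Pq.cons (Pq.L [] 0x40018 (Pf.C 29 17157))
 (Pq.cons (Pq.L [] 8210 (Pf.C 28 98435))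
 (Pq.cons (Pq.D 6 (Pq.cons (Pq.L [0] 17507 (Pf.C 46 0x10608380))
 (Pq.cons (Pq.L [] 0x80028 (Pf.C 19 82817))
 (Pq.cons (Pq.L [] 0x1c7740 (Pf.C 40 0x70c0c105))
 (Pq.cons (Pq.L [] 0x80028 (Pf.C 19 82817))
 (Pq.cons (Pq.L [] 1057 (Pf.C 28 32903))
 (Pq.cons (Pq.L [] 1057 (Pf.C 19 0x1c101))
 Pq.nil))))))) (Pq.cons (Pq.D 6 (Pq.cons (Pq.L [0] 17507 (Pf.C 46 0x10608380))
 (Pq.cons (Pq.L [] 0x80028 (Pf.C 19 82817))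
 (Pq.cons (Pq.L [] 0x1c7740 (Pf.C 40 0x70c0c105))
 (Pq.cons (Pq.L [] 0x80028 (Pf.C 19 82817))
 (Pq.cons (Pq.L [] 1057 (Pf.C 28 32903))
 (Pq.cons (Pq.L [] 1057 (Pf.C 19 0x1c101))
 Pq.nil))))))) (Pq.cons (Pq.L [] 529 (Pf.C 28 32902))
 (Pq.cons (Pq.L [] 529 (Pf.C 19 98561))
 Pq.nil))))))) Pq.nil))))))) (Pq.cons (Pq.D 4 (Pq.cons (Pq.L [] 256 (Pf.C 1 642))
 (Pq.cons (Pq.L [] 32780 (Pf.C 19 66177))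
 (Pq.cons (Pq.L [] 256 (Pf.C 1 642))
 (Pq.cons (Pq.L [] 32780 (Pf.C 19 66177))
 (Pq.cons (Pq.D 5 (Pq.cons (Pq.L [] 0x40018 (Pf.C 29 17157))
 (Pq.cons (Pq.L [] 65556 (Pf.C 19 66305))
 (Pq.cons (Pq.L [0] 0x5801c (Pf.C 42 0x40a18080))
 (Pq.cons (Pq.L [] 65556 (Pf.C 19 66305))
 (Pq.cons (Pq.L [] 529 (Pf.C 28 32902))
 (Pq.cons (Pq.L [] 529 (Pf.C 19 98561))
 Pq.nil))))))) (Pq.cons (Pq.D 5 (Pq.cons (Pq.L [] 0x40018 (Pf.C 29 17157))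
 (Pq.cons (Pq.L [] 65556 (Pf.C 19 66305))
 (Pq.cons (Pq.D 6 (Pq.cons (Pq.L [0] 17507 (Pf.C 46 0x10608380))
 (Pq.cons (Pq.L [] 0x20024 (Pf.C 19 66433))
 (Pq.cons (Pq.L [] 0x1c7740 (Pf.C 40 0x70c0c105))
 (Pq.cons (Pq.L [] 0x20024 (Pf.C 19 66433))
 (Pq.cons (Pq.L [] 1057 (Pf.C 28 32903))
 (Pq.cons (Pq.L [] 1057 (Pf.C 19 0x1c101))
 Pq.nil))))))) (Pq.cons (Pq.L [] 65556 (Pf.C 19 66305))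
 (Pq.cons (Pq.L [] 529 (Pf.C 28 32902))
 (Pq.cons (Pq.L [] 529 (Pf.C 19 98561))
 Pq.nil))))))) Pq.nil))))))) Pq.nil))))))) (Pq.cons (Pq.D 3 (Pq.cons (Pq.L [] 128 (Pf.C 1 514))
 (Pq.cons (Pq.L [] 2054 (Pf.C 19 49665))
 (Pq.cons (Pq.L [] 128 (Pf.C 1 514))
 (Pq.cons (Pq.L [] 2054 (Pf.C 19 49665))
 (Pq.cons (Pq.D 4 (Pq.cons (Pq.L [] 256 (Pf.C 1 642))
 (Pq.cons (Pq.L [] 4106 (Pf.C 19 49793))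
 (Pq.cons (Pq.L [] 256 (Pf.C 1 642))
 (Pq.cons (Pq.L [] 4106 (Pf.C 19 49793))
 (Pq.cons (Pq.D 5 (Pq.cons (Pq.L [] 0x40018 (Pf.C 29 17157))
 (Pq.cons (Pq.L [] 8210 (Pf.C 19 49921))
 (Pq.cons (Pq.L [0] 0x4301a (Pf.C 42 0x30a18080))
 (Pq.cons (Pq.L [] 8210 (Pf.C 19 49921))
 (Pq.cons (Pq.L [] 529 (Pf.C 28 32902))
 (Pq.cons (Pq.L [] 529 (Pf.C 19 98561))
 Pq.nil))))))) (Pq.cons (Pq.D 5 (Pq.cons (Pq.L [] 0x40018 (Pf.C 29 17157))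
 (Pq.cons (Pq.L [] 8210 (Pf.C 19 49921))
 (Pq.cons (Pq.D 6 (Pq.cons (Pq.L [0] 17507 (Pf.C 46 0x10608380))
 (Pq.cons (Pq.L [] 16418 (Pf.C 19 50049))
 (Pq.cons (Pq.L [] 0x1f8780 (Pf.C 40 0x70c10105))
 (Pq.cons (Pq.L [] 16418 (Pf.C 19 50049))
 (Pq.cons (Pq.L [] 1057 (Pf.C 28 32903))
 (Pq.cons (Pq.L [] 1057 (Pf.C 19 0x1c101))
 Pq.nil))))))) (Pq.cons (Pq.L [] 8210 (Pf.C 19 49921))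
 (Pq.cons (Pq.L [] 529 (Pf.C 28 32902))
 (Pq.cons (Pq.L [] 529 (Pf.C 19 98561))
 Pq.nil))))))) Pq.nil))))))) (Pq.cons (Pq.D 4 (Pq.cons (Pq.L [] 256 (Pf.C 1 642))
 (Pq.cons (Pq.L [] 4106 (Pf.C 19 49793))
 (Pq.cons (Pq.L [] 256 (Pf.C 1 642))
 (Pq.cons (Pq.L [] 4106 (Pf.C 19 49793))
 (Pq.cons (Pq.D 5 (Pq.cons (Pq.L [] 0x40018 (Pf.C 29 17157))
 (Pq.cons (Pq.L [] 8210 (Pf.C 19 49921))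
 (Pq.cons (Pq.L [0] 0x4301a (Pf.C 42 0x30a18080))
 (Pq.cons (Pq.L [] 8210 (Pf.C 19 49921))
 (Pq.cons (Pq.L [] 529 (Pf.C 28 32902))
 (Pq.cons (Pq.L [] 529 (Pf.C 19 98561))
 Pq.nil))))))) (Pq.cons (Pq.D 5 (Pq.cons (Pq.L [] 0x40018 (Pf.C 29 17157))
 (Pq.cons (Pq.L [] 8210 (Pf.C 19 49921))
 (Pq.cons (Pq.D 6 (Pq.cons (Pq.L [0] 17507 (Pf.C 46 0x10608380))
 (Pq.cons (Pq.L [] 16418 (Pf.C 19 50049))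
 (Pq.cons (Pq.L [] 0x100000 (Pf.C 1 902))
 (Pq.cons (Pq.L [] 16418 (Pf.C 19 50049))
 (Pq.cons (Pq.L [] 1057 (Pf.C 28 32903))
 (Pq.cons (Pq.L [] 1057 (Pf.C 19 0x1c101))
 Pq.nil))))))) (Pq.cons (Pq.L [] 8210 (Pf.C 19 49921))
 (Pq.cons (Pq.L [] 529 (Pf.C 28 32902))
 (Pq.cons (Pq.L [] 529 (Pf.C 19 98561))
 Pq.nil))))))) Pq.nil))))))) Pq.nil))))))) Pq.nil))))))) (Pq.cons (Pq.D 2 (Pq.cons (Pq.L [] 64 (Pf.C 1 386))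
 (Pq.cons (Pq.L [] 64 (Pf.C 1 386))
 (Pq.cons (Pq.L [] 64 (Pf.C 1 386))
 (Pq.cons (Pq.L [] 64 (Pf.C 1 386))
 (Pq.cons (Pq.D 3 (Pq.cons (Pq.L [] 128 (Pf.C 1 514))
 (Pq.cons (Pq.L [] 2054 (Pf.C 28 65667))
 (Pq.cons (Pq.L [] 128 (Pf.C 1 514))
 (Pq.cons (Pq.L [] 128 (Pf.C 1 514))
 (Pq.cons (Pq.D 4 (Pq.cons (Pq.L [] 256 (Pf.C 1 642))
 (Pq.cons (Pq.L [] 4106 (Pf.C 28 82051))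
 (Pq.cons (Pq.L [] 256 (Pf.C 1 642))
 (Pq.cons (Pq.L [] 256 (Pf.C 1 642))
 (Pq.cons (Pq.D 5 (Pq.cons (Pq.L [] 0x40018 (Pf.C 29 17157))
 (Pq.cons (Pq.L [] 8210 (Pf.C 28 98435))
 (Pq.cons (Pq.D 6 (Pq.cons (Pq.L [] 0x106673 (Pf.C 54 0x70c0c101))
 (Pq.cons (Pq.L [] 16418 (Pf.C 28 0x1c083))
 (Pq.cons (Pq.L [] 0x100000 (Pf.C 1 902))
 (Pq.cons (Pq.L [0] 17507 (Pf.C 55 0x70608080))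
 (Pq.cons (Pq.L [] 0x106673 (Pf.C 53 0x70c0c101))
 (Pq.cons (Pq.L [0] 17507 (Pf.C 42 0x70608080))
 Pq.nil))))))) (Pq.cons (Pq.L [0] 8787 (Pf.C 55 0x60608080))
 (Pq.cons (Pq.L [] 0x4335b (Pf.C 50 0x10c14182))
 (Pq.cons (Pq.L [0] 8787 (Pf.C 42 0x60608080))
 Pq.nil))))))) (Pq.cons (Pq.D 5 (Pq.cons (Pq.L [] 0x40018 (Pf.C 29 17157))
 (Pq.cons (Pq.L [] 8210 (Pf.C 28 98435))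
 (Pq.cons (Pq.D 6 (Pq.cons (Pq.L [] 0x106673 (Pf.C 54 0x70c0c101))
 (Pq.cons (Pq.L [] 0x80028 (Pf.C 19 82817))
 (Pq.cons (Pq.L [] 0x1c7740 (Pf.C 40 0x70c0c105))
 (Pq.cons (Pq.L [] 0x80028 (Pf.C 19 82817))
 (Pq.cons (Pq.L [] 0x106673 (Pf.C 53 0x70c0c101))
 (Pq.cons (Pq.L [0] 17507 (Pf.C 42 0x70608080))
 Pq.nil))))))) (Pq.cons (Pq.L [0] 8787 (Pf.C 55 0x60608080))
 (Pq.cons (Pq.L [] 0x4335b (Pf.C 50 0x10c14182))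
 (Pq.cons (Pq.L [0] 8787 (Pf.C 42 0x60608080))
 Pq.nil))))))) Pq.nil))))))) (Pq.cons (Pq.D 4 (Pq.cons (Pq.L [] 256 (Pf.C 1 642))
 (Pq.cons (Pq.L [] 32780 (Pf.C 19 66177))
 (Pq.cons (Pq.L [] 256 (Pf.C 1 642))
 (Pq.cons (Pq.L [] 32780 (Pf.C 19 66177))
 (Pq.cons (Pq.D 5 (Pq.cons (Pq.L [] 0x40018 (Pf.C 29 17157))
 (Pq.cons (Pq.L [] 65556 (Pf.C 19 66305))
 (Pq.cons (Pq.L [0] 0x5801c (Pf.C 42 0x40a18080))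
 (Pq.cons (Pq.L [] 65556 (Pf.C 19 66305))
 (Pq.cons (Pq.L [] 0x4335b (Pf.C 50 0x10c14182))
 (Pq.cons (Pq.L [] 0x5801c (Pf.C 33 0x214304))
 Pq.nil))))))) (Pq.cons (Pq.D 5 (Pq.cons (Pq.L [] 0x40018 (Pf.C 29 17157))
 (Pq.cons (Pq.L [] 65556 (Pf.C 19 66305))
 (Pq.cons (Pq.D 6 (Pq.cons (Pq.L [] 0x106673 (Pf.C 54 0x70c0c101))
 (Pq.cons (Pq.L [] 0x20024 (Pf.C 19 66433))
 (Pq.cons (Pq.L [] 0x1c7740 (Pf.C 40 0x70c0c105))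
 (Pq.cons (Pq.L [] 0x20024 (Pf.C 19 66433))
 (Pq.cons (Pq.L [0] 0x130034 (Pf.C 42 0x40e18080))
 (Pq.cons (Pq.L [0] 17507 (Pf.C 42 0x70608080))
 Pq.nil))))))) (Pq.cons (Pq.L [] 65556 (Pf.C 19 66305))
 (Pq.cons (Pq.L [] 0x5801c (Pf.C 33 0x218284))
 (Pq.cons (Pq.L [0] 8787 (Pf.C 42 0x60608080))
 Pq.nil))))))) Pq.nil))))))) Pq.nil))))))) (Pq.cons (Pq.D 3 (Pq.cons (Pq.L [] 128 (Pf.C 1 514))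
 (Pq.cons (Pq.L [] 2054 (Pf.C 19 49665))
 (Pq.cons (Pq.L [] 128 (Pf.C 1 514))
 (Pq.cons (Pq.L [] 2054 (Pf.C 19 49665))
 (Pq.cons (Pq.D 4 (Pq.cons (Pq.L [] 256 (Pf.C 1 642))
 (Pq.cons (Pq.L [] 4106 (Pf.C 19 49793))
 (Pq.cons (Pq.L [] 256 (Pf.C 1 642))
 (Pq.cons (Pq.L [] 4106 (Pf.C 19 49793))
 (Pq.cons (Pq.D 5 (Pq.cons (Pq.L [] 0x40018 (Pf.C 29 17157))
 (Pq.cons (Pq.L [] 8210 (Pf.C 19 49921))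
 (Pq.cons (Pq.L [0] 0x4301a (Pf.C 42 0x30a18080))
 (Pq.cons (Pq.L [] 8210 (Pf.C 19 49921))
 (Pq.cons (Pq.L [] 0x4335b (Pf.C 50 0x10c14182))
 (Pq.cons (Pq.L [] 0x4301a (Pf.C 33 0x214303))
 Pq.nil))))))) (Pq.cons (Pq.D 5 (Pq.cons (Pq.L [] 0x40018 (Pf.C 29 17157))
 (Pq.cons (Pq.L [] 8210 (Pf.C 19 49921))
 (Pq.cons (Pq.D 6 (Pq.cons (Pq.L [] 0x106673 (Pf.C 54 0x70c0c101))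
 (Pq.cons (Pq.L [] 16418 (Pf.C 19 50049))
 (Pq.cons (Pq.L [] 0x1f8780 (Pf.C 40 0x70c10105))
 (Pq.cons (Pq.L [] 16418 (Pf.C 19 50049))
 (Pq.cons (Pq.L [0] 0x106032 (Pf.C 42 0x30e18080))
 (Pq.cons (Pq.L [0] 0x204a5 (Pf.C 42 0x70808080))
 Pq.nil))))))) (Pq.cons (Pq.L [] 8210 (Pf.C 19 49921))
 (Pq.cons (Pq.L [] 0x4301a (Pf.C 33 0x218283))
 (Pq.cons (Pq.L [0] 66197 (Pf.C 42 0x60808080))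
 Pq.nil))))))) Pq.nil))))))) (Pq.cons (Pq.D 4 (Pq.cons (Pq.L [] 256 (Pf.C 1 642))
 (Pq.cons (Pq.L [] 4106 (Pf.C 19 49793))
 (Pq.cons (Pq.L [] 256 (Pf.C 1 642))
 (Pq.cons (Pq.L [] 4106 (Pf.C 19 49793))
 (Pq.cons (Pq.D 5 (Pq.cons (Pq.L [] 0x40018 (Pf.C 29 17157))
 (Pq.cons (Pq.L [] 8210 (Pf.C 19 49921))
 (Pq.cons (Pq.L [0] 0x4301a (Pf.C 42 0x30a18080))
 (Pq.cons (Pq.L [] 8210 (Pf.C 19 49921))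
 (Pq.cons (Pq.L [] 0x4335b (Pf.C 50 0x10c14182))
 (Pq.cons (Pq.L [] 0x4301a (Pf.C 33 0x214303))
 Pq.nil))))))) (Pq.cons (Pq.D 5 (Pq.cons (Pq.L [] 0x40018 (Pf.C 29 17157))
 (Pq.cons (Pq.L [] 8210 (Pf.C 19 49921))
 (Pq.cons (Pq.D 6 (Pq.cons (Pq.L [] 0x106673 (Pf.C 54 0x70c0c101))
 (Pq.cons (Pq.L [] 16418 (Pf.C 19 50049))
 (Pq.cons (Pq.L [] 0x100000 (Pf.C 1 902))
 (Pq.cons (Pq.L [] 16418 (Pf.C 19 50049))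
 (Pq.cons (Pq.L [0] 0x106032 (Pf.C 42 0x30e18080))
 (Pq.cons (Pq.L [] 0x106673 (Pf.C 53 0x70c0c101))
 Pq.nil))))))) (Pq.cons (Pq.L [] 8210 (Pf.C 19 49921))
 (Pq.cons (Pq.L [] 0x4301a (Pf.C 33 0x218283))
 (Pq.cons (Pq.L [] 0x4335b (Pf.C 50 0x10c14182))
 Pq.nil))))))) Pq.nil))))))) Pq.nil))))))) Pq.nil))))))) (Pq.cons (Pq.D 2 (Pq.cons (Pq.L [] 64 (Pf.C 1 386))
 (Pq.cons (Pq.L [] 64 (Pf.C 1 386))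
 (Pq.cons (Pq.L [] 64 (Pf.C 1 386))
 (Pq.cons (Pq.L [] 64 (Pf.C 1 386))
 (Pq.cons (Pq.D 3 (Pq.cons (Pq.L [] 128 (Pf.C 1 514))
 (Pq.cons (Pq.L [] 2054 (Pf.C 28 65667))
 (Pq.cons (Pq.L [] 128 (Pf.C 1 514))
 (Pq.cons (Pq.L [] 128 (Pf.C 1 514))
 (Pq.cons (Pq.D 4 (Pq.cons (Pq.L [] 256 (Pf.C 1 642))
 (Pq.cons (Pq.L [] 4106 (Pf.C 28 82051))
 (Pq.cons (Pq.L [] 256 (Pf.C 1 642))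
 (Pq.cons (Pq.L [] 256 (Pf.C 1 642))
 (Pq.cons (Pq.D 5 (Pq.cons (Pq.L [] 0x40018 (Pf.C 29 17157))
 (Pq.cons (Pq.L [] 8210 (Pf.C 28 98435))
 (Pq.cons (Pq.D 6 (Pq.cons (Pq.L [] 0x106673 (Pf.C 54 0x70c0c101))
 (Pq.cons (Pq.L [] 16418 (Pf.C 28 0x1c083))
 (Pq.cons (Pq.L [] 0x100000 (Pf.C 1 902))
 (Pq.cons (Pq.L [] 0x100000 (Pf.C 1 902))
 (Pq.cons (Pq.L [] 0x106673 (Pf.C 53 0x70c0c101))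
 (Pq.cons (Pq.L [] 1057 (Pf.C 19 0x1c101))
 Pq.nil))))))) (Pq.cons (Pq.D 6 (Pq.cons (Pq.L [] 0x106673 (Pf.C 54 0x70c0c101))
 (Pq.cons (Pq.L [] 16418 (Pf.C 28 0x1c083))
 (Pq.cons (Pq.L [] 0x100000 (Pf.C 1 902))
 (Pq.cons (Pq.L [] 0x100000 (Pf.C 1 902))
 (Pq.cons (Pq.L [] 0x106673 (Pf.C 53 0x70c0c101))
 (Pq.cons (Pq.L [] 1057 (Pf.C 19 0x1c101))
 Pq.nil))))))) (Pq.cons (Pq.L [] 0x4335b (Pf.C 50 0x10c14182))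
 (Pq.cons (Pq.L [] 529 (Pf.C 19 98561))
 Pq.nil))))))) (Pq.cons (Pq.D 5 (Pq.cons (Pq.L [] 0x40018 (Pf.C 29 17157))
 (Pq.cons (Pq.L [] 8210 (Pf.C 28 98435))
 (Pq.cons (Pq.D 6 (Pq.cons (Pq.L [] 0x106673 (Pf.C 54 0x70c0c101))
 (Pq.cons (Pq.L [] 0x80028 (Pf.C 19 82817))
 (Pq.cons (Pq.L [] 0x1c7740 (Pf.C 40 0x70c0c105))
 (Pq.cons (Pq.L [] 0x80028 (Pf.C 19 82817))
 (Pq.cons (Pq.L [] 0x106673 (Pf.C 53 0x70c0c101))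
 (Pq.cons (Pq.L [] 1057 (Pf.C 19 0x1c101))
 Pq.nil))))))) (Pq.cons (Pq.D 6 (Pq.cons (Pq.L [] 0x106673 (Pf.C 54 0x70c0c101))
 (Pq.cons (Pq.L [] 0x80028 (Pf.C 19 82817))
 (Pq.cons (Pq.L [] 0x1c7740 (Pf.C 40 0x70c0c105))
 (Pq.cons (Pq.L [] 0x80028 (Pf.C 19 82817))
 (Pq.cons (Pq.L [] 0x106673 (Pf.C 53 0x70c0c101))
 (Pq.cons (Pq.L [] 1057 (Pf.C 19 0x1c101))
 Pq.nil))))))) (Pq.cons (Pq.L [] 0x4335b (Pf.C 50 0x10c14182))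
 (Pq.cons (Pq.L [] 529 (Pf.C 19 98561))
 Pq.nil))))))) Pq.nil))))))) (Pq.cons (Pq.D 4 (Pq.cons (Pq.L [] 256 (Pf.C 1 642))
 (Pq.cons (Pq.L [] 32780 (Pf.C 19 66177))
 (Pq.cons (Pq.L [] 256 (Pf.C 1 642))
 (Pq.cons (Pq.L [] 32780 (Pf.C 19 66177))
 (Pq.cons (Pq.D 5 (Pq.cons (Pq.L [] 0x40018 (Pf.C 29 17157))
 (Pq.cons (Pq.L [] 65556 (Pf.C 19 66305))
 (Pq.cons (Pq.L [0] 0x5801c (Pf.C 42 0x40a18080))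
 (Pq.cons (Pq.L [] 65556 (Pf.C 19 66305))
 (Pq.cons (Pq.L [] 0x4335b (Pf.C 50 0x10c14182))
 (Pq.cons (Pq.L [] 529 (Pf.C 19 98561))
 Pq.nil))))))) (Pq.cons (Pq.D 5 (Pq.cons (Pq.L [] 0x40018 (Pf.C 29 17157))
 (Pq.cons (Pq.L [] 65556 (Pf.C 19 66305))
 (Pq.cons (Pq.D 6 (Pq.cons (Pq.L [] 0x106673 (Pf.C 54 0x70c0c101))
 (Pq.cons (Pq.L [] 0x20024 (Pf.C 19 66433))
 (Pq.cons (Pq.L [] 0x1c7740 (Pf.C 40 0x70c0c105))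
 (Pq.cons (Pq.L [] 0x20024 (Pf.C 19 66433))
 (Pq.cons (Pq.L [0] 0x130034 (Pf.C 42 0x40e18080))
 (Pq.cons (Pq.L [] 1057 (Pf.C 19 0x1c101))
 Pq.nil))))))) (Pq.cons (Pq.L [] 65556 (Pf.C 19 66305))
 (Pq.cons (Pq.L [] 0x5801c (Pf.C 33 0x218284))
 (Pq.cons (Pq.L [] 529 (Pf.C 19 98561))
 Pq.nil))))))) Pq.nil))))))) Pq.nil))))))) (Pq.cons (Pq.D 3 (Pq.cons (Pq.L [] 128 (Pf.C 1 514))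
 (Pq.cons (Pq.L [] 2054 (Pf.C 19 49665))
 (Pq.cons (Pq.L [] 128 (Pf.C 1 514))
 (Pq.cons (Pq.L [] 2054 (Pf.C 19 49665))
 (Pq.cons (Pq.D 4 (Pq.cons (Pq.L [] 256 (Pf.C 1 642))
 (Pq.cons (Pq.L [] 4106 (Pf.C 19 49793))
 (Pq.cons (Pq.L [] 256 (Pf.C 1 642))
 (Pq.cons (Pq.L [] 4106 (Pf.C 19 49793))
 (Pq.cons (Pq.D 5 (Pq.cons (Pq.L [] 0x40018 (Pf.C 29 17157))
 (Pq.cons (Pq.L [] 8210 (Pf.C 19 49921))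
 (Pq.cons (Pq.L [0] 0x4301a (Pf.C 42 0x30a18080))
 (Pq.cons (Pq.L [] 8210 (Pf.C 19 49921))
 (Pq.cons (Pq.L [] 0x4335b (Pf.C 50 0x10c14182))
 (Pq.cons (Pq.L [] 529 (Pf.C 19 98561))
 Pq.nil))))))) (Pq.cons (Pq.D 5 (Pq.cons (Pq.L [] 0x40018 (Pf.C 29 17157))
 (Pq.cons (Pq.L [] 8210 (Pf.C 19 49921))
 (Pq.cons (Pq.D 6 (Pq.cons (Pq.L [] 0x106673 (Pf.C 54 0x70c0c101))
 (Pq.cons (Pq.L [] 16418 (Pf.C 19 50049))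
 (Pq.cons (Pq.L [] 0x1f8780 (Pf.C 40 0x70c10105))
 (Pq.cons (Pq.L [] 16418 (Pf.C 19 50049))
 (Pq.cons (Pq.L [0] 0x106032 (Pf.C 42 0x30e18080))
 (Pq.cons (Pq.L [] 1057 (Pf.C 19 0x1c101))
 Pq.nil))))))) (Pq.cons (Pq.L [] 8210 (Pf.C 19 49921))
 (Pq.cons (Pq.L [] 0x4301a (Pf.C 33 0x218283))
 (Pq.cons (Pq.L [] 529 (Pf.C 19 98561))
 Pq.nil))))))) Pq.nil))))))) (Pq.cons (Pq.D 4 (Pq.cons (Pq.L [] 256 (Pf.C 1 642))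
 (Pq.cons (Pq.L [] 4106 (Pf.C 19 49793))
 (Pq.cons (Pq.L [] 256 (Pf.C 1 642))
 (Pq.cons (Pq.L [] 4106 (Pf.C 19 49793))
 (Pq.cons (Pq.D 5 (Pq.cons (Pq.L [] 0x40018 (Pf.C 29 17157))
 (Pq.cons (Pq.L [] 8210 (Pf.C 19 49921))
 (Pq.cons (Pq.L [0] 0x4301a (Pf.C 42 0x30a18080))
 (Pq.cons (Pq.L [] 8210 (Pf.C 19 49921))
 (Pq.cons (Pq.L [] 0x4335b (Pf.C 50 0x10c14182))
 (Pq.cons (Pq.L [] 529 (Pf.C 19 98561))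
 Pq.nil))))))) (Pq.cons (Pq.D 5 (Pq.cons (Pq.L [] 0x40018 (Pf.C 29 17157))
 (Pq.cons (Pq.L [] 8210 (Pf.C 19 49921))
 (Pq.cons (Pq.D 6 (Pq.cons (Pq.L [] 0x106673 (Pf.C 54 0x70c0c101))
 (Pq.cons (Pq.L [] 16418 (Pf.C 19 50049))
 (Pq.cons (Pq.L [] 0x100000 (Pf.C 1 902))
 (Pq.cons (Pq.L [] 16418 (Pf.C 19 50049))
 (Pq.cons (Pq.L [0] 0x106032 (Pf.C 42 0x30e18080))
 (Pq.cons (Pq.L [] 1057 (Pf.C 19 0x1c101))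
 Pq.nil))))))) (Pq.cons (Pq.L [] 8210 (Pf.C 19 49921))
 (Pq.cons (Pq.L [] 0x4301a (Pf.C 33 0x218283))
 (Pq.cons (Pq.L [] 529 (Pf.C 19 98561))
 Pq.nil))))))) Pq.nil))))))) Pq.nil))))))) Pq.nil))))))) Pq.nil))))
theorem s1_o71 : AllRef s1_T s1_G85 (List.take 4 (List.flatMap (splitP 1) (List.drop 1 (List.drop 1 (List.take 3 (List.flatMap (splitP 0) (List.take 1 (applyObl bD_T 3 [162,163,164,165,166,167] [1,1,1,1,2,2] [])))))))) :=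
  chkPq_sound s1_o71c _ (by decide +kernel)
noncomputable def s1_o72c : Pq := (Pq.cons (Pq.D 2 (Pq.cons (Pq.L [] 67 (Pf.C 29 16770))
 (Pq.cons (Pq.D 3 (Pq.cons (Pq.L [] 133 (Pf.C 29 16898))
 (Pq.cons (Pq.D 4 (Pq.cons (Pq.L [] 265 (Pf.C 29 17026))
 (Pq.cons (Pq.D 5 (Pq.cons (Pq.L [0] 8787 (Pf.C 46 0x1040c300))
 (Pq.cons (Pq.L [] 529 (Pf.C 28 98434))
 (Pq.cons (Pq.L [] 0x40000 (Pf.C 1 773))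
 (Pq.cons (Pq.L [] 0x40000 (Pf.C 1 773))
 (Pq.cons (Pq.L [] 8210 (Pf.C 28 49286))
 (Pq.cons (Pq.L [] 8210 (Pf.C 19 98689))
 Pq.nil))))))) (Pq.cons (Pq.D 5 (Pq.cons (Pq.L [0] 8787 (Pf.C 46 0x1040c300))
 (Pq.cons (Pq.L [] 529 (Pf.C 28 98434))
 (Pq.cons (Pq.L [] 0x40000 (Pf.C 1 773))
 (Pq.cons (Pq.L [] 0x40000 (Pf.C 1 773))
 (Pq.cons (Pq.L [] 8210 (Pf.C 28 49286))
 (Pq.cons (Pq.L [] 8210 (Pf.C 19 98689))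
 Pq.nil))))))) (Pq.cons (Pq.D 5 (Pq.cons (Pq.L [0] 8787 (Pf.C 46 0x1040c300))
 (Pq.cons (Pq.L [] 529 (Pf.C 28 98434))
 (Pq.cons (Pq.L [] 0x40000 (Pf.C 1 773))
 (Pq.cons (Pq.L [] 0x40000 (Pf.C 1 773))
 (Pq.cons (Pq.L [] 8210 (Pf.C 28 49286))
 (Pq.cons (Pq.L [] 8210 (Pf.C 19 98689))
 Pq.nil))))))) (Pq.cons (Pq.L [] 4106 (Pf.C 28 49285))
 (Pq.cons (Pq.L [] 4106 (Pf.C 19 82305))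
 Pq.nil))))))) (Pq.cons (Pq.D 4 (Pq.cons (Pq.L [] 265 (Pf.C 29 17026))
 (Pq.cons (Pq.D 5 (Pq.cons (Pq.L [0] 8787 (Pf.C 46 0x1040c300))
 (Pq.cons (Pq.L [] 529 (Pf.C 28 98434))
 (Pq.cons (Pq.L [] 0x40000 (Pf.C 1 773))
 (Pq.cons (Pq.L [0] 66197 (Pf.C 55 0x60410080))
 (Pq.cons (Pq.L [] 8210 (Pf.C 28 49286))
 (Pq.cons (Pq.L [] 8210 (Pf.C 19 98689))
 Pq.nil))))))) (Pq.cons (Pq.D 5 (Pq.cons (Pq.L [0] 8787 (Pf.C 46 0x1040c300))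
 (Pq.cons (Pq.L [] 529 (Pf.C 28 98434))
 (Pq.cons (Pq.L [] 0x5bbc0 (Pf.C 55 0x30c14202))
 (Pq.cons (Pq.L [0] 66197 (Pf.C 55 0x60410080))
 (Pq.cons (Pq.L [] 8210 (Pf.C 28 49286))
 (Pq.cons (Pq.L [] 8210 (Pf.C 19 98689))
 Pq.nil))))))) (Pq.cons (Pq.D 5 (Pq.cons (Pq.L [0] 8787 (Pf.C 46 0x1040c300))
 (Pq.cons (Pq.L [] 529 (Pf.C 28 98434))
 (Pq.cons (Pq.L [] 0x40000 (Pf.C 1 773))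
 (Pq.cons (Pq.L [0] 66197 (Pf.C 55 0x60410080))
 (Pq.cons (Pq.L [] 8210 (Pf.C 28 49286))
 (Pq.cons (Pq.L [] 8210 (Pf.C 19 98689))
 Pq.nil))))))) (Pq.cons (Pq.L [] 4106 (Pf.C 28 49285))
 (Pq.cons (Pq.L [] 4106 (Pf.C 19 82305))
 Pq.nil))))))) (Pq.cons (Pq.D 4 (Pq.cons (Pq.L [] 265 (Pf.C 29 17026))
 (Pq.cons (Pq.D 5 (Pq.cons (Pq.L [0] 8787 (Pf.C 46 0x1040c300))
 (Pq.cons (Pq.L [] 529 (Pf.C 28 98434))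
 (Pq.cons (Pq.L [] 0x40000 (Pf.C 1 773))
 (Pq.cons (Pq.L [] 0x40000 (Pf.C 1 773))
 (Pq.cons (Pq.L [] 8210 (Pf.C 28 49286))
 (Pq.cons (Pq.L [] 8210 (Pf.C 19 98689))
 Pq.nil))))))) (Pq.cons (Pq.D 5 (Pq.cons (Pq.L [0] 8787 (Pf.C 46 0x1040c300))
 (Pq.cons (Pq.L [] 529 (Pf.C 28 98434))
 (Pq.cons (Pq.L [] 0x40000 (Pf.C 1 773))
 (Pq.cons (Pq.L [] 0x40000 (Pf.C 1 773))
 (Pq.cons (Pq.L [] 8210 (Pf.C 28 49286))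
 (Pq.cons (Pq.L [] 8210 (Pf.C 19 98689))
 Pq.nil))))))) (Pq.cons (Pq.D 5 (Pq.cons (Pq.L [0] 8787 (Pf.C 46 0x1040c300))
 (Pq.cons (Pq.L [] 529 (Pf.C 28 98434))
 (Pq.cons (Pq.L [] 0x40000 (Pf.C 1 773))
 (Pq.cons (Pq.L [] 0x40000 (Pf.C 1 773))
 (Pq.cons (Pq.L [] 8210 (Pf.C 28 49286))
 (Pq.cons (Pq.L [] 8210 (Pf.C 19 98689))
 Pq.nil))))))) (Pq.cons (Pq.L [] 4106 (Pf.C 28 49285))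
 (Pq.cons (Pq.L [] 4106 (Pf.C 19 82305))
 Pq.nil))))))) (Pq.cons (Pq.L [] 2054 (Pf.C 28 49284))
 (Pq.cons (Pq.L [] 2054 (Pf.C 19 65921))
 Pq.nil))))))) (Pq.cons (Pq.D 3 (Pq.cons (Pq.L [] 133 (Pf.C 29 16898))
 (Pq.cons (Pq.D 4 (Pq.cons (Pq.L [] 265 (Pf.C 29 17026))
 (Pq.cons (Pq.D 5 (Pq.cons (Pq.L [0] 66197 (Pf.C 46 0x10410300))
 (Pq.cons (Pq.L [] 529 (Pf.C 28 98434))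
 (Pq.cons (Pq.L [] 0x40000 (Pf.C 1 773))
 (Pq.cons (Pq.L [0] 8787 (Pf.C 55 0x6040c080))
 (Pq.cons (Pq.L [] 65556 (Pf.C 28 65670))
 (Pq.cons (Pq.L [] 65556 (Pf.C 19 98817))
 Pq.nil))))))) (Pq.cons (Pq.D 5 (Pq.cons (Pq.L [0] 66197 (Pf.C 46 0x10410300))
 (Pq.cons (Pq.L [] 529 (Pf.C 28 98434))
 (Pq.cons (Pq.L [] 0x5bbc0 (Pf.C 55 0x40c14182))
 (Pq.cons (Pq.L [0] 8787 (Pf.C 55 0x6040c080))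
 (Pq.cons (Pq.L [] 65556 (Pf.C 28 65670))
 (Pq.cons (Pq.L [] 65556 (Pf.C 19 98817))
 Pq.nil))))))) (Pq.cons (Pq.D 5 (Pq.cons (Pq.L [0] 66197 (Pf.C 46 0x10410300))
 (Pq.cons (Pq.L [] 529 (Pf.C 28 98434))
 (Pq.cons (Pq.L [] 0x40000 (Pf.C 1 773))
 (Pq.cons (Pq.L [0] 8787 (Pf.C 55 0x6040c080))
 (Pq.cons (Pq.L [] 65556 (Pf.C 28 65670))
 (Pq.cons (Pq.L [] 65556 (Pf.C 19 98817))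
 Pq.nil))))))) (Pq.cons (Pq.L [] 32780 (Pf.C 28 65669))
 (Pq.cons (Pq.L [] 32780 (Pf.C 19 82433))
 Pq.nil))))))) (Pq.cons (Pq.D 4 (Pq.cons (Pq.L [] 265 (Pf.C 29 17026))
 (Pq.cons (Pq.L [0] 0x1fffff (Pf.B 7 0 (Pf.B 6 0 (Pf.C 0 0x800e18105) (Pf.C 0 0x1030e18080)) (Pf.B 6 0 (Pf.C 0 0x1030c1c080) (Pf.W 64 515 [] [0,1,2,5,6,7] (Pf.cons (Pf.B 8 5 (Pf.C 6 648) (Pf.B 8 2 (Pf.B 8 1 (Pf.B 8 0 (Pf.B 8 7 (Pf.B 8 6 (Pf.C 0 0x2020e18405) (Pf.C 0 0x1041018080)) (Pf.C 0 0x104101c080)) (Pf.C 2 8)) (Pf.C 31 0x410401)) (Pf.C 2 264))) (Pf.cons (Pf.B 8 5 (Pf.C 6 648) (Pf.B 8 2 (Pf.B 8 1 (Pf.B 8 0 (Pf.B 8 7 (Pf.B 8 6 (Pf.C 0 0x1820e18405) (Pf.C 0 0x1031018080)) (Pf.C 0 0x103101c080)) (Pf.C 2 8)) (Pf.C 31 0x40c401)) (Pf.C 2 264))) (Pf.cons (Pf.B 8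 2 (Pf.C 30 0x20202) (Pf.C 2 264)) (Pf.cons (Pf.B 8 2 (Pf.C 30 0x20182) (Pf.C 2 264)) Pf.nil))))))))
 (Pq.cons (Pq.D 5 (Pq.cons (Pq.L [] 0x40000 (Pf.C 1 773))
 (Pq.cons (Pq.L [] 529 (Pf.C 28 98434))
 (Pq.cons (Pq.L [] 0x40000 (Pf.C 1 773))
 (Pq.cons (Pq.L [0] 8787 (Pf.C 55 0x6040c080))
 (Pq.cons (Pq.L [0] 0x1c677b (Pf.B 7 0 (Pf.C 0 0x800e18105) (Pf.C 0 0x1030c1c080)))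
 (Pq.cons (Pq.L [0] 8787 (Pf.C 42 0x6040c080))
 Pq.nil))))))) (Pq.cons (Pq.L [0] 0x1fffff (Pf.B 7 0 (Pf.B 6 0 (Pf.C 0 0x800e18105) (Pf.C 0 0x1030e18080)) (Pf.B 6 0 (Pf.C 0 0x1030c1c080) (Pf.W 64 515 [] [0,1,2,5,6,7] (Pf.cons (Pf.B 8 5 (Pf.C 22 82947) (Pf.B 8 2 (Pf.B 8 1 (Pf.B 8 0 (Pf.B 8 7 (Pf.B 8 6 (Pf.C 0 0x2020e18405) (Pf.C 0 0x1041018080)) (Pf.C 0 0x104101c080)) (Pf.C 2 8)) (Pf.C 31 0x410401)) (Pf.C 2 264))) (Pf.cons (Pf.B 8 5 (Pf.C 22 82948) (Pf.B 8 2 (Pf.B 8 1 (Pf.B 8 0 (Pf.B 8 7 (Pf.B 8 6 (Pf.C 0 0x1820e18405) (Pf.C 0 0x1031018080)) (Pf.C 0 0x103101c080)) (Pf.C 2 8)) (Pf.C 31 0x40c401)) (Pf.C 2 264))) (Pf.cons (Pf.B 8 2 (Pf.C 30 0x20202) (Pf.C 2 264)) (Pf.cons (Pf.B 8 2 (Pf.C 30 0x20182) (Pf.C 2 264)) Pf.nil))))))))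
 (Pq.cons (Pq.L [] 256 (Pf.C 2 642))
 (Pq.cons (Pq.L [] 256 (Pf.C 2 642))
 Pq.nil))))))) (Pq.cons (Pq.D 4 (Pq.cons (Pq.L [] 265 (Pf.C 29 17026))
 (Pq.cons (Pq.D 5 (Pq.cons (Pq.L [] 0x40000 (Pf.C 1 773))
 (Pq.cons (Pq.L [] 529 (Pf.C 28 98434))
 (Pq.cons (Pq.L [] 0x40000 (Pf.C 1 773))
 (Pq.cons (Pq.L [0] 8787 (Pf.C 55 0x6040c080))
 (Pq.cons (Pq.L [0] 0x1c677b (Pf.B 7 0 (Pf.C 0 0x800e18105) (Pf.C 0 0x1030c1c080)))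
 (Pq.cons (Pq.L [] 65556 (Pf.C 19 98817))
 Pq.nil))))))) (Pq.cons (Pq.D 5 (Pq.cons (Pq.L [] 0x5bbc0 (Pf.C 55 0x40c14182))
 (Pq.cons (Pq.L [] 529 (Pf.C 28 98434))
 (Pq.cons (Pq.L [] 0x5bbc0 (Pf.C 55 0x40c14182))
 (Pq.cons (Pq.L [0] 8787 (Pf.C 55 0x6040c080))
 (Pq.cons (Pq.L [0] 0x5801c (Pf.C 55 0x40c14080))
 (Pq.cons (Pq.L [] 65556 (Pf.C 19 98817))
 Pq.nil))))))) (Pq.cons (Pq.D 5 (Pq.cons (Pq.L [] 0x40000 (Pf.C 1 773))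
 (Pq.cons (Pq.L [] 529 (Pf.C 28 98434))
 (Pq.cons (Pq.L [] 0x40000 (Pf.C 1 773))
 (Pq.cons (Pq.L [0] 8787 (Pf.C 55 0x6040c080))
 (Pq.cons (Pq.L [0] 0x1c677b (Pf.B 7 0 (Pf.C 0 0x800e18105) (Pf.C 0 0x1030c1c080)))
 (Pq.cons (Pq.L [] 65556 (Pf.C 19 98817))
 Pq.nil))))))) (Pq.cons (Pq.L [0] 33165 (Pf.C 56 0x50404004))
 (Pq.cons (Pq.L [] 32780 (Pf.C 19 82433))
 Pq.nil))))))) (Pq.cons (Pq.L [] 128 (Pf.C 2 514))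
 (Pq.cons (Pq.L [] 128 (Pf.C 2 514))
 Pq.nil))))))) (Pq.cons (Pq.D 3 (Pq.cons (Pq.L [] 133 (Pf.C 29 16898))
 (Pq.cons (Pq.D 4 (Pq.cons (Pq.L [] 265 (Pf.C 29 17026))
 (Pq.cons (Pq.D 5 (Pq.cons (Pq.L [0] 66197 (Pf.C 46 0x10410300))
 (Pq.cons (Pq.L [] 529 (Pf.C 28 98434))
 (Pq.cons (Pq.L [] 0x40000 (Pf.C 1 773))
 (Pq.cons (Pq.L [] 0x40000 (Pf.C 1 773))
 (Pq.cons (Pq.L [] 65556 (Pf.C 28 65670))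
 (Pq.cons (Pq.L [] 8210 (Pf.C 19 98689))
 Pq.nil))))))) (Pq.cons (Pq.D 5 (Pq.cons (Pq.L [0] 66197 (Pf.C 46 0x10410300))
 (Pq.cons (Pq.L [] 529 (Pf.C 28 98434))
 (Pq.cons (Pq.L [] 0x40000 (Pf.C 1 773))
 (Pq.cons (Pq.L [] 0x40000 (Pf.C 1 773))
 (Pq.cons (Pq.L [] 65556 (Pf.C 28 65670))
 (Pq.cons (Pq.L [] 8210 (Pf.C 19 98689))
 Pq.nil))))))) (Pq.cons (Pq.D 5 (Pq.cons (Pq.L [0] 66197 (Pf.C 46 0x10410300))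
 (Pq.cons (Pq.L [] 529 (Pf.C 28 98434))
 (Pq.cons (Pq.L [] 0x40000 (Pf.C 1 773))
 (Pq.cons (Pq.L [] 0x40000 (Pf.C 1 773))
 (Pq.cons (Pq.L [] 65556 (Pf.C 28 65670))
 (Pq.cons (Pq.L [] 8210 (Pf.C 19 98689))
 Pq.nil))))))) (Pq.cons (Pq.L [] 32780 (Pf.C 28 65669))
 (Pq.cons (Pq.L [] 4106 (Pf.C 19 82305))
 Pq.nil))))))) (Pq.cons (Pq.D 4 (Pq.cons (Pq.L [] 265 (Pf.C 29 17026))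
 (Pq.cons (Pq.D 5 (Pq.cons (Pq.L [] 0x40000 (Pf.C 1 773))
 (Pq.cons (Pq.L [] 529 (Pf.C 28 98434))
 (Pq.cons (Pq.L [] 0x40000 (Pf.C 1 773))
 (Pq.cons (Pq.L [0] 66197 (Pf.C 55 0x60410080))
 (Pq.cons (Pq.L [0] 0x1c677b (Pf.B 7 0 (Pf.C 0 0x800e18105) (Pf.C 0 0x1030c1c080)))
 (Pq.cons (Pq.L [] 8210 (Pf.C 19 98689))
 Pq.nil))))))) (Pq.cons (Pq.D 5 (Pq.cons (Pq.L [] 0x5bbc0 (Pf.C 55 0x30c14202))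
 (Pq.cons (Pq.L [] 529 (Pf.C 28 98434))
 (Pq.cons (Pq.L [] 0x5bbc0 (Pf.C 55 0x30c14202))
 (Pq.cons (Pq.L [0] 66197 (Pf.C 55 0x60410080))
 (Pq.cons (Pq.L [0] 0x4301a (Pf.C 55 0x30c14080))
 (Pq.cons (Pq.L [] 8210 (Pf.C 19 98689))
 Pq.nil))))))) (Pq.cons (Pq.D 5 (Pq.cons (Pq.L [] 0x40000 (Pf.C 1 773))
 (Pq.cons (Pq.L [] 529 (Pf.C 28 98434))
 (Pq.cons (Pq.L [] 0x40000 (Pf.C 1 773))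
 (Pq.cons (Pq.L [0] 66197 (Pf.C 55 0x60410080))
 (Pq.cons (Pq.L [0] 0x1c677b (Pf.B 7 0 (Pf.C 0 0x800e18105) (Pf.C 0 0x1030c1c080)))
 (Pq.cons (Pq.L [] 8210 (Pf.C 19 98689))
 Pq.nil))))))) (Pq.cons (Pq.L [0] 4427 (Pf.C 56 0x50404003))
 (Pq.cons (Pq.L [] 4106 (Pf.C 19 82305))
 Pq.nil))))))) (Pq.cons (Pq.D 4 (Pq.cons (Pq.L [] 265 (Pf.C 29 17026))
 (Pq.cons (Pq.D 5 (Pq.cons (Pq.L [] 0x40000 (Pf.C 1 773))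
 (Pq.cons (Pq.L [] 529 (Pf.C 28 98434))
 (Pq.cons (Pq.L [] 0x40000 (Pf.C 1 773))
 (Pq.cons (Pq.L [] 0x40000 (Pf.C 1 773))
 (Pq.cons (Pq.L [0] 0x1c677b (Pf.B 7 0 (Pf.C 0 0x800e18105) (Pf.C 0 0x1030c1c080)))
 (Pq.cons (Pq.L [] 8210 (Pf.C 19 98689))
 Pq.nil))))))) (Pq.cons (Pq.D 5 (Pq.cons (Pq.L [] 0x43000 (Pf.C 22 49925))
 (Pq.cons (Pq.L [] 529 (Pf.C 28 98434))
 (Pq.cons (Pq.L [] 0x40000 (Pf.C 1 773))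
 (Pq.cons (Pq.L [] 0x40000 (Pf.C 1 773))
 (Pq.cons (Pq.L [0] 0x4301a (Pf.C 55 0x30c14080))
 (Pq.cons (Pq.L [] 8210 (Pf.C 19 98689))
 Pq.nil))))))) (Pq.cons (Pq.D 5 (Pq.cons (Pq.L [] 0x40000 (Pf.C 1 773))
 (Pq.cons (Pq.L [] 529 (Pf.C 28 98434))
 (Pq.cons (Pq.L [] 0x40000 (Pf.C 1 773))
 (Pq.cons (Pq.L [] 0x40000 (Pf.C 1 773))
 (Pq.cons (Pq.L [0] 0x1c677b (Pf.B 7 0 (Pf.C 0 0x800e18105) (Pf.C 0 0x1030c1c080)))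
 (Pq.cons (Pq.L [] 8210 (Pf.C 19 98689))
 Pq.nil))))))) (Pq.cons (Pq.L [0] 4427 (Pf.C 56 0x50404003))
 (Pq.cons (Pq.L [] 4106 (Pf.C 19 82305))
 Pq.nil))))))) (Pq.cons (Pq.L [0] 2247 (Pf.C 56 0x40404003))
 (Pq.cons (Pq.L [] 2054 (Pf.C 19 65921))
 Pq.nil))))))) (Pq.cons (Pq.L [] 64 (Pf.C 2 386))
 (Pq.cons (Pq.L [] 64 (Pf.C 2 386))
 Pq.nil))))))) (Pq.cons (Pq.D 2 (Pq.cons (Pq.L [] 67 (Pf.C 29 16770))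
 (Pq.cons (Pq.D 3 (Pq.cons (Pq.L [] 133 (Pf.C 29 16898))
 (Pq.cons (Pq.D 4 (Pq.cons (Pq.L [] 265 (Pf.C 29 17026))
 (Pq.cons (Pq.D 5 (Pq.cons (Pq.L [0] 8787 (Pf.C 46 0x1040c300))
 (Pq.cons (Pq.L [] 529 (Pf.C 19 33537))
 (Pq.cons (Pq.L [] 0x40000 (Pf.C 1 773))
 (Pq.cons (Pq.L [] 529 (Pf.C 19 33537))
 (Pq.cons (Pq.L [] 8210 (Pf.C 28 49286))
 (Pq.cons (Pq.L [] 8210 (Pf.C 19 98689))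
 Pq.nil))))))) (Pq.cons (Pq.D 5 (Pq.cons (Pq.L [0] 8787 (Pf.C 46 0x1040c300))
 (Pq.cons (Pq.L [] 529 (Pf.C 19 33537))
 (Pq.cons (Pq.L [] 0x40000 (Pf.C 1 773))
 (Pq.cons (Pq.L [] 529 (Pf.C 19 33537))
 (Pq.cons (Pq.L [] 8210 (Pf.C 28 49286))
 (Pq.cons (Pq.L [] 8210 (Pf.C 19 98689))
 Pq.nil))))))) (Pq.cons (Pq.D 5 (Pq.cons (Pq.L [0] 8787 (Pf.C 46 0x1040c300))
 (Pq.cons (Pq.L [] 529 (Pf.C 19 33537))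
 (Pq.cons (Pq.L [] 0x40000 (Pf.C 1 773))
 (Pq.cons (Pq.L [] 529 (Pf.C 19 33537))
 (Pq.cons (Pq.L [] 8210 (Pf.C 28 49286))
 (Pq.cons (Pq.L [] 8210 (Pf.C 19 98689))
 Pq.nil))))))) (Pq.cons (Pq.L [] 4106 (Pf.C 28 49285))
 (Pq.cons (Pq.L [] 4106 (Pf.C 19 82305))
 Pq.nil))))))) (Pq.cons (Pq.D 4 (Pq.cons (Pq.L [] 265 (Pf.C 29 17026))
 (Pq.cons (Pq.D 5 (Pq.cons (Pq.L [0] 8787 (Pf.C 46 0x1040c300))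
 (Pq.cons (Pq.L [] 529 (Pf.C 19 33537))
 (Pq.cons (Pq.L [] 0x40000 (Pf.C 1 773))
 (Pq.cons (Pq.L [] 529 (Pf.C 19 33537))
 (Pq.cons (Pq.L [] 8210 (Pf.C 28 49286))
 (Pq.cons (Pq.L [] 8210 (Pf.C 19 98689))
 Pq.nil))))))) (Pq.cons (Pq.D 5 (Pq.cons (Pq.L [0] 8787 (Pf.C 46 0x1040c300))
 (Pq.cons (Pq.L [] 529 (Pf.C 19 33537))
 (Pq.cons (Pq.L [] 0x5bbc0 (Pf.C 55 0x30c14202))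
 (Pq.cons (Pq.L [] 529 (Pf.C 19 33537))
 (Pq.cons (Pq.L [] 8210 (Pf.C 28 49286))
 (Pq.cons (Pq.L [] 8210 (Pf.C 19 98689))
 Pq.nil))))))) (Pq.cons (Pq.D 5 (Pq.cons (Pq.L [0] 8787 (Pf.C 46 0x1040c300))
 (Pq.cons (Pq.L [] 529 (Pf.C 19 33537))
 (Pq.cons (Pq.L [] 0x40000 (Pf.C 1 773))
 (Pq.cons (Pq.L [] 529 (Pf.C 19 33537))
 (Pq.cons (Pq.L [] 8210 (Pf.C 28 49286))
 (Pq.cons (Pq.L [] 8210 (Pf.C 19 98689))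
 Pq.nil))))))) (Pq.cons (Pq.L [] 4106 (Pf.C 28 49285))
 (Pq.cons (Pq.L [] 4106 (Pf.C 19 82305))
 Pq.nil))))))) (Pq.cons (Pq.D 4 (Pq.cons (Pq.L [] 265 (Pf.C 29 17026))
 (Pq.cons (Pq.D 5 (Pq.cons (Pq.L [0] 8787 (Pf.C 46 0x1040c300))
 (Pq.cons (Pq.L [] 529 (Pf.C 19 33537))
 (Pq.cons (Pq.L [] 0x40000 (Pf.C 1 773))
 (Pq.cons (Pq.L [] 529 (Pf.C 19 33537))
 (Pq.cons (Pq.L [] 8210 (Pf.C 28 49286))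
 (Pq.cons (Pq.L [] 8210 (Pf.C 19 98689))
 Pq.nil))))))) (Pq.cons (Pq.D 5 (Pq.cons (Pq.L [0] 8787 (Pf.C 46 0x1040c300))
 (Pq.cons (Pq.L [] 529 (Pf.C 19 33537))
 (Pq.cons (Pq.L [] 0x40000 (Pf.C 1 773))
 (Pq.cons (Pq.L [] 529 (Pf.C 19 33537))
 (Pq.cons (Pq.L [] 8210 (Pf.C 28 49286))
 (Pq.cons (Pq.L [] 8210 (Pf.C 19 98689))
 Pq.nil))))))) (Pq.cons (Pq.D 5 (Pq.cons (Pq.L [0] 8787 (Pf.C 46 0x1040c300))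
 (Pq.cons (Pq.L [] 529 (Pf.C 19 33537))
 (Pq.cons (Pq.L [] 0x40000 (Pf.C 1 773))
 (Pq.cons (Pq.L [] 529 (Pf.C 19 33537))
 (Pq.cons (Pq.L [] 8210 (Pf.C 28 49286))
 (Pq.cons (Pq.L [] 8210 (Pf.C 19 98689))
 Pq.nil))))))) (Pq.cons (Pq.L [] 4106 (Pf.C 28 49285))
 (Pq.cons (Pq.L [] 4106 (Pf.C 19 82305))
 Pq.nil))))))) (Pq.cons (Pq.L [] 2054 (Pf.C 28 49284))
 (Pq.cons (Pq.L [] 2054 (Pf.C 19 65921))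
 Pq.nil))))))) (Pq.cons (Pq.D 3 (Pq.cons (Pq.L [] 133 (Pf.C 29 16898))
 (Pq.cons (Pq.D 4 (Pq.cons (Pq.L [] 265 (Pf.C 29 17026))
 (Pq.cons (Pq.D 5 (Pq.cons (Pq.L [0] 66197 (Pf.C 46 0x10410300))
 (Pq.cons (Pq.L [] 529 (Pf.C 19 33537))
 (Pq.cons (Pq.L [] 0x40000 (Pf.C 1 773))
 (Pq.cons (Pq.L [] 529 (Pf.C 19 33537))
 (Pq.cons (Pq.L [] 65556 (Pf.C 28 65670))
 (Pq.cons (Pq.L [] 65556 (Pf.C 19 98817))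
 Pq.nil))))))) (Pq.cons (Pq.D 5 (Pq.cons (Pq.L [0] 66197 (Pf.C 46 0x10410300))
 (Pq.cons (Pq.L [] 529 (Pf.C 19 33537))
 (Pq.cons (Pq.L [] 0x5bbc0 (Pf.C 55 0x40c14182))
 (Pq.cons (Pq.L [] 529 (Pf.C 19 33537))
 (Pq.cons (Pq.L [] 65556 (Pf.C 28 65670))
 (Pq.cons (Pq.L [] 65556 (Pf.C 19 98817))
 Pq.nil))))))) (Pq.cons (Pq.D 5 (Pq.cons (Pq.L [0] 66197 (Pf.C 46 0x10410300))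
 (Pq.cons (Pq.L [] 529 (Pf.C 19 33537))
 (Pq.cons (Pq.L [] 0x40000 (Pf.C 1 773))
 (Pq.cons (Pq.L [] 529 (Pf.C 19 33537))
 (Pq.cons (Pq.L [] 65556 (Pf.C 28 65670))
 (Pq.cons (Pq.L [] 65556 (Pf.C 19 98817))
 Pq.nil))))))) (Pq.cons (Pq.L [] 32780 (Pf.C 28 65669))
 (Pq.cons (Pq.L [] 32780 (Pf.C 19 82433))
 Pq.nil))))))) (Pq.cons (Pq.D 4 (Pq.cons (Pq.L [] 265 (Pf.C 29 17026))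
 (Pq.cons (Pq.D 5 (Pq.cons (Pq.L [] 0x40000 (Pf.C 1 773))
 (Pq.cons (Pq.L [] 529 (Pf.C 19 33537))
 (Pq.cons (Pq.L [] 0x40000 (Pf.C 1 773))
 (Pq.cons (Pq.L [] 529 (Pf.C 19 33537))
 (Pq.cons (Pq.L [0] 0x1c677b (Pf.B 7 0 (Pf.C 0 0x800e18105) (Pf.C 0 0x1030c1c080)))
 (Pq.cons (Pq.L [0] 0x1c677b (Pf.B 7 0 (Pf.C 0 0x800e18105) (Pf.C 0 0x1030c1c080)))
 Pq.nil))))))) (Pq.cons (Pq.D 5 (Pq.cons (Pq.L [] 0x40000 (Pf.C 1 773))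
 (Pq.cons (Pq.L [] 529 (Pf.C 19 33537))
 (Pq.cons (Pq.L [] 0x40000 (Pf.C 1 773))
 (Pq.cons (Pq.L [] 529 (Pf.C 19 33537))
 (Pq.cons (Pq.L [0] 0x1c677b (Pf.B 7 0 (Pf.C 0 0x800e18105) (Pf.C 0 0x1030c1c080)))
 (Pq.cons (Pq.L [0] 0x1c677b (Pf.B 7 0 (Pf.C 0 0x800e18105) (Pf.C 0 0x1030c1c080)))
 Pq.nil))))))) (Pq.cons (Pq.D 5 (Pq.cons (Pq.L [] 0x40000 (Pf.C 1 773))
 (Pq.cons (Pq.L [] 529 (Pf.C 19 33537))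
 (Pq.cons (Pq.L [] 0x40000 (Pf.C 1 773))
 (Pq.cons (Pq.L [] 529 (Pf.C 19 33537))
 (Pq.cons (Pq.L [0] 0x1c677b (Pf.B 7 0 (Pf.C 0 0x800e18105) (Pf.C 0 0x1030c1c080)))
 (Pq.cons (Pq.L [0] 0x1c677b (Pf.B 7 0 (Pf.C 0 0x800e18105) (Pf.C 0 0x1030c1c080)))
 Pq.nil))))))) (Pq.cons (Pq.L [] 256 (Pf.C 2 642))
 (Pq.cons (Pq.L [] 256 (Pf.C 2 642))
 Pq.nil))))))) (Pq.cons (Pq.D 4 (Pq.cons (Pq.L [] 265 (Pf.C 29 17026))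
 (Pq.cons (Pq.D 5 (Pq.cons (Pq.L [] 0x40000 (Pf.C 1 773))
 (Pq.cons (Pq.L [] 529 (Pf.C 19 33537))
 (Pq.cons (Pq.L [] 0x40000 (Pf.C 1 773))
 (Pq.cons (Pq.L [] 529 (Pf.C 19 33537))
 (Pq.cons (Pq.L [0] 0x1c677b (Pf.B 7 0 (Pf.C 0 0x800e18105) (Pf.C 0 0x1030c1c080)))
 (Pq.cons (Pq.L [] 65556 (Pf.C 19 98817))
 Pq.nil))))))) (Pq.cons (Pq.D 5 (Pq.cons (Pq.L [] 0x5bbc0 (Pf.C 55 0x40c14182))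
 (Pq.cons (Pq.L [] 529 (Pf.C 19 33537))
 (Pq.cons (Pq.L [] 0x5bbc0 (Pf.C 55 0x40c14182))
 (Pq.cons (Pq.L [] 529 (Pf.C 19 33537))
 (Pq.cons (Pq.L [0] 0x5801c (Pf.C 55 0x40c14080))
 (Pq.cons (Pq.L [] 65556 (Pf.C 19 98817))
 Pq.nil))))))) (Pq.cons (Pq.D 5 (Pq.cons (Pq.L [] 0x40000 (Pf.C 1 773))
 (Pq.cons (Pq.L [] 529 (Pf.C 19 33537))
 (Pq.cons (Pq.L [] 0x40000 (Pf.C 1 773))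
 (Pq.cons (Pq.L [] 529 (Pf.C 19 33537))
 (Pq.cons (Pq.L [0] 0x1c677b (Pf.B 7 0 (Pf.C 0 0x800e18105) (Pf.C 0 0x1030c1c080)))
 (Pq.cons (Pq.L [] 65556 (Pf.C 19 98817))
 Pq.nil))))))) (Pq.cons (Pq.L [0] 33165 (Pf.C 56 0x50404004))
 (Pq.cons (Pq.L [] 32780 (Pf.C 19 82433))
 Pq.nil))))))) (Pq.cons (Pq.L [] 128 (Pf.C 2 514))
 (Pq.cons (Pq.L [] 128 (Pf.C 2 514))
 Pq.nil))))))) (Pq.cons (Pq.D 3 (Pq.cons (Pq.L [] 133 (Pf.C 29 16898))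
 (Pq.cons (Pq.D 4 (Pq.cons (Pq.L [] 265 (Pf.C 29 17026))
 (Pq.cons (Pq.D 5 (Pq.cons (Pq.L [0] 66197 (Pf.C 46 0x10410300))
 (Pq.cons (Pq.L [] 529 (Pf.C 19 33537))
 (Pq.cons (Pq.L [] 0x40000 (Pf.C 1 773))
 (Pq.cons (Pq.L [] 529 (Pf.C 19 33537))
 (Pq.cons (Pq.L [] 65556 (Pf.C 28 65670))
 (Pq.cons (Pq.L [] 8210 (Pf.C 19 98689))
 Pq.nil))))))) (Pq.cons (Pq.D 5 (Pq.cons (Pq.L [0] 66197 (Pf.C 46 0x10410300))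
 (Pq.cons (Pq.L [] 529 (Pf.C 19 33537))
 (Pq.cons (Pq.L [] 0x40000 (Pf.C 1 773))
 (Pq.cons (Pq.L [] 529 (Pf.C 19 33537))
 (Pq.cons (Pq.L [] 65556 (Pf.C 28 65670))
 (Pq.cons (Pq.L [] 8210 (Pf.C 19 98689))
 Pq.nil))))))) (Pq.cons (Pq.D 5 (Pq.cons (Pq.L [0] 66197 (Pf.C 46 0x10410300))
 (Pq.cons (Pq.L [] 529 (Pf.C 19 33537))
 (Pq.cons (Pq.L [] 0x40000 (Pf.C 1 773))
 (Pq.cons (Pq.L [] 529 (Pf.C 19 33537))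
 (Pq.cons (Pq.L [] 65556 (Pf.C 28 65670))
 (Pq.cons (Pq.L [] 8210 (Pf.C 19 98689))
 Pq.nil))))))) (Pq.cons (Pq.L [] 32780 (Pf.C 28 65669))
 (Pq.cons (Pq.L [] 4106 (Pf.C 19 82305))
 Pq.nil))))))) (Pq.cons (Pq.D 4 (Pq.cons (Pq.L [] 265 (Pf.C 29 17026))
 (Pq.cons (Pq.D 5 (Pq.cons (Pq.L [] 0x40000 (Pf.C 1 773))
 (Pq.cons (Pq.L [] 529 (Pf.C 19 33537))
 (Pq.cons (Pq.L [] 0x40000 (Pf.C 1 773))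
 (Pq.cons (Pq.L [] 529 (Pf.C 19 33537))
 (Pq.cons (Pq.L [0] 0x1c677b (Pf.B 7 0 (Pf.C 0 0x800e18105) (Pf.C 0 0x1030c1c080)))
 (Pq.cons (Pq.L [] 8210 (Pf.C 19 98689))
 Pq.nil))))))) (Pq.cons (Pq.D 5 (Pq.cons (Pq.L [] 0x5bbc0 (Pf.C 55 0x30c14202))
 (Pq.cons (Pq.L [] 529 (Pf.C 19 33537))
 (Pq.cons (Pq.L [] 0x5bbc0 (Pf.C 55 0x30c14202))
 (Pq.cons (Pq.L [] 529 (Pf.C 19 33537))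
 (Pq.cons (Pq.L [0] 0x4301a (Pf.C 55 0x30c14080))
 (Pq.cons (Pq.L [] 8210 (Pf.C 19 98689))
 Pq.nil))))))) (Pq.cons (Pq.D 5 (Pq.cons (Pq.L [] 0x40000 (Pf.C 1 773))
 (Pq.cons (Pq.L [] 529 (Pf.C 19 33537))
 (Pq.cons (Pq.L [] 0x40000 (Pf.C 1 773))
 (Pq.cons (Pq.L [] 529 (Pf.C 19 33537))
 (Pq.cons (Pq.L [0] 0x1c677b (Pf.B 7 0 (Pf.C 0 0x800e18105) (Pf.C 0 0x1030c1c080)))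
 (Pq.cons (Pq.L [] 8210 (Pf.C 19 98689))
 Pq.nil))))))) (Pq.cons (Pq.L [0] 4427 (Pf.C 56 0x50404003))
 (Pq.cons (Pq.L [] 4106 (Pf.C 19 82305))
 Pq.nil))))))) (Pq.cons (Pq.D 4 (Pq.cons (Pq.L [] 265 (Pf.C 29 17026))
 (Pq.cons (Pq.D 5 (Pq.cons (Pq.L [] 0x40000 (Pf.C 1 773))
 (Pq.cons (Pq.L [] 529 (Pf.C 19 33537))
 (Pq.cons (Pq.L [] 0x40000 (Pf.C 1 773))
 (Pq.cons (Pq.L [] 529 (Pf.C 19 33537))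
 (Pq.cons (Pq.L [0] 0x1c677b (Pf.B 7 0 (Pf.C 0 0x800e18105) (Pf.C 0 0x1030c1c080)))
 (Pq.cons (Pq.L [] 8210 (Pf.C 19 98689))
 Pq.nil))))))) (Pq.cons (Pq.D 5 (Pq.cons (Pq.L [] 0x43000 (Pf.C 22 49925))
 (Pq.cons (Pq.L [] 529 (Pf.C 19 33537))
 (Pq.cons (Pq.L [] 0x40000 (Pf.C 1 773))
 (Pq.cons (Pq.L [] 529 (Pf.C 19 33537))
 (Pq.cons (Pq.L [0] 0x4301a (Pf.C 55 0x30c14080))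
 (Pq.cons (Pq.L [] 8210 (Pf.C 19 98689))
 Pq.nil))))))) (Pq.cons (Pq.D 5 (Pq.cons (Pq.L [] 0x40000 (Pf.C 1 773))
 (Pq.cons (Pq.L [] 529 (Pf.C 19 33537))
 (Pq.cons (Pq.L [] 0x40000 (Pf.C 1 773))
 (Pq.cons (Pq.L [] 529 (Pf.C 19 33537))
 (Pq.cons (Pq.L [0] 0x1c677b (Pf.B 7 0 (Pf.C 0 0x800e18105) (Pf.C 0 0x1030c1c080)))
 (Pq.cons (Pq.L [] 8210 (Pf.C 19 98689))
 Pq.nil))))))) (Pq.cons (Pq.L [0] 4427 (Pf.C 56 0x50404003))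
 (Pq.cons (Pq.L [] 4106 (Pf.C 19 82305))
 Pq.nil))))))) (Pq.cons (Pq.L [0] 2247 (Pf.C 56 0x40404003))
 (Pq.cons (Pq.L [] 2054 (Pf.C 19 65921))
 Pq.nil))))))) (Pq.cons (Pq.L [] 64 (Pf.C 2 386))
 (Pq.cons (Pq.L [] 64 (Pf.C 2 386))
 Pq.nil))))))) Pq.nil))
theorem s1_o72 : AllRef s1_T s1_G85 (List.drop 4 (List.flatMap (splitP 1) (List.drop 1 (List.drop 1 (List.take 3 (List.flatMap (splitP 0) (List.take 1 (applyObl bD_T 3 [162,163,164,165,166,167] [1,1,1,1,2,2] [])))))))) :=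
  chkPq_sound s1_o72c _ (by decide +kernel)
noncomputable def s1_o73c : Pq := (Pq.cons (Pq.D 1 (Pq.cons (Pq.D 2 (Pq.cons (Pq.L [] 64 (Pf.C 1 386))
 (Pq.cons (Pq.L [] 64 (Pf.C 1 386))
 (Pq.cons (Pq.L [] 67 (Pf.C 22 16643))
 (Pq.cons (Pq.L [] 64 (Pf.C 1 386))
 (Pq.cons (Pq.L [] 64 (Pf.C 13 259))
 (Pq.cons (Pq.D 3 (Pq.cons (Pq.L [] 2054 (Pf.C 19 49284))
 (Pq.cons (Pq.L [] 128 (Pf.C 1 514))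
 (Pq.cons (Pq.L [] 2054 (Pf.C 19 49284))
 (Pq.cons (Pq.L [] 128 (Pf.C 1 514))
 (Pq.cons (Pq.L [] 2054 (Pf.C 16 16772))
 (Pq.cons (Pq.D 4 (Pq.cons (Pq.L [] 4106 (Pf.C 19 49285))
 (Pq.cons (Pq.L [] 256 (Pf.C 1 642))
 (Pq.cons (Pq.L [] 4106 (Pf.C 19 49285))
 (Pq.cons (Pq.L [] 256 (Pf.C 1 642))
 (Pq.cons (Pq.L [] 4106 (Pf.C 16 16773))
 (Pq.cons (Pq.D 5 (Pq.cons (Pq.L [] 8210 (Pf.C 19 49286))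
 (Pq.cons (Pq.L [] 0x4301a (Pf.C 33 0x218283))
 (Pq.cons (Pq.L [] 8210 (Pf.C 19 49286))
 (Pq.cons (Pq.D 6 (Pq.cons (Pq.L [] 16418 (Pf.C 19 49287))
 (Pq.cons (Pq.L [0] 17507 (Pf.C 46 0x10608380))
 (Pq.cons (Pq.L [] 16418 (Pf.C 19 49287))
 (Pq.cons (Pq.L [] 0x100000 (Pf.C 1 902))
 (Pq.cons (Pq.L [] 16418 (Pf.C 16 16775))
 (Pq.cons (Pq.L [] 1057 (Pf.C 19 0x1c082))
 Pq.nil))))))) (Pq.cons (Pq.L [] 8210 (Pf.C 16 16774))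
 (Pq.cons (Pq.L [] 529 (Pf.C 19 98434))
 Pq.nil))))))) Pq.nil))))))) Pq.nil))))))) Pq.nil))))))) (Pq.cons (Pq.D 2 (Pq.cons (Pq.L [] 64 (Pf.C 1 386))
 (Pq.cons (Pq.L [] 64 (Pf.C 1 386))
 (Pq.cons (Pq.L [] 64 (Pf.C 1 386))
 (Pq.cons (Pq.L [] 64 (Pf.C 1 386))
 (Pq.cons (Pq.D 3 (Pq.cons (Pq.L [] 128 (Pf.C 1 514))
 (Pq.cons (Pq.L [] 128 (Pf.C 1 514))
 (Pq.cons (Pq.L [] 128 (Pf.C 1 514))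
 (Pq.cons (Pq.L [] 128 (Pf.C 1 514))
 (Pq.cons (Pq.D 4 (Pq.cons (Pq.L [] 256 (Pf.C 1 642))
 (Pq.cons (Pq.L [] 256 (Pf.C 1 642))
 (Pq.cons (Pq.L [] 256 (Pf.C 1 642))
 (Pq.cons (Pq.L [] 256 (Pf.C 1 642))
 (Pq.cons (Pq.D 5 (Pq.cons (Pq.L [0] 8787 (Pf.C 46 0x10608300))
 (Pq.cons (Pq.L [] 8787 (Pf.C 36 0x20c106))
 (Pq.cons (Pq.L [] 0x40018 (Pf.C 22 17030))
 (Pq.cons (Pq.D 6 (Pq.cons (Pq.L [0] 17507 (Pf.C 46 0x10608380))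
 (Pq.cons (Pq.L [] 17507 (Pf.C 36 0x20c107))
 (Pq.cons (Pq.L [] 0x106673 (Pf.C 52 0x70c0c101))
 (Pq.cons (Pq.L [] 0x100000 (Pf.C 1 902))
 (Pq.cons (Pq.L [] 0x1c0739 (Pf.C 51 0x10414386))
 (Pq.cons (Pq.L [] 16418 (Pf.C 16 17283))
 Pq.nil))))))) (Pq.cons (Pq.L [] 0x4335b (Pf.C 50 0x10c14182))
 (Pq.cons (Pq.L [] 8210 (Pf.C 16 17155))
 Pq.nil))))))) (Pq.cons (Pq.L [] 4106 (Pf.C 16 17027))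
 Pq.nil))))))) (Pq.cons (Pq.L [] 2054 (Pf.C 16 16899))
 Pq.nil))))))) (Pq.cons (Pq.D 3 (Pq.cons (Pq.L [] 2054 (Pf.C 19 49284))
 (Pq.cons (Pq.L [] 128 (Pf.C 1 514))
 (Pq.cons (Pq.L [] 2054 (Pf.C 19 49284))
 (Pq.cons (Pq.L [] 128 (Pf.C 1 514))
 (Pq.cons (Pq.L [] 2054 (Pf.C 16 16772))
 (Pq.cons (Pq.D 4 (Pq.cons (Pq.L [] 4106 (Pf.C 19 49285))
 (Pq.cons (Pq.L [] 256 (Pf.C 1 642))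
 (Pq.cons (Pq.L [] 4106 (Pf.C 19 49285))
 (Pq.cons (Pq.L [] 256 (Pf.C 1 642))
 (Pq.cons (Pq.L [] 4106 (Pf.C 16 16773))
 (Pq.cons (Pq.D 5 (Pq.cons (Pq.L [] 8210 (Pf.C 19 49286))
 (Pq.cons (Pq.L [] 0x4301a (Pf.C 33 0x218283))
 (Pq.cons (Pq.L [] 8210 (Pf.C 19 49286))
 (Pq.cons (Pq.D 6 (Pq.cons (Pq.L [] 16418 (Pf.C 19 49287))
 (Pq.cons (Pq.L [] 17507 (Pf.C 36 0x20c107))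
 (Pq.cons (Pq.L [] 16418 (Pf.C 19 49287))
 (Pq.cons (Pq.L [] 0x100000 (Pf.C 1 902))
 (Pq.cons (Pq.L [] 16418 (Pf.C 16 16775))
 (Pq.cons (Pq.L [] 17507 (Pf.C 33 0x208187))
 Pq.nil))))))) (Pq.cons (Pq.L [] 8210 (Pf.C 16 16774))
 (Pq.cons (Pq.L [] 8787 (Pf.C 33 0x208186))
 Pq.nil))))))) Pq.nil))))))) Pq.nil))))))) Pq.nil))))))) (Pq.cons (Pq.D 2 (Pq.cons (Pq.L [] 67 (Pf.C 22 16770))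
 (Pq.cons (Pq.L [] 64 (Pf.C 1 386))
 (Pq.cons (Pq.L [] 64 (Pf.C 1 386))
 (Pq.cons (Pq.L [] 64 (Pf.C 1 386))
 (Pq.cons (Pq.L [] 67 (Pf.C 22 16770))
 (Pq.cons (Pq.D 3 (Pq.cons (Pq.L [] 2054 (Pf.C 19 49284))
 (Pq.cons (Pq.L [] 128 (Pf.C 1 514))
 (Pq.cons (Pq.L [] 2054 (Pf.C 19 49284))
 (Pq.cons (Pq.L [] 128 (Pf.C 1 514))
 (Pq.cons (Pq.L [] 2054 (Pf.C 16 16772))
 (Pq.cons (Pq.D 4 (Pq.cons (Pq.L [] 4106 (Pf.C 19 49285))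
 (Pq.cons (Pq.L [] 256 (Pf.C 1 642))
 (Pq.cons (Pq.L [] 4106 (Pf.C 19 49285))
 (Pq.cons (Pq.L [] 256 (Pf.C 1 642))
 (Pq.cons (Pq.L [] 4106 (Pf.C 16 16773))
 (Pq.cons (Pq.D 5 (Pq.cons (Pq.L [] 8210 (Pf.C 19 49286))
 (Pq.cons (Pq.L [] 0x4301a (Pf.C 33 0x218283))
 (Pq.cons (Pq.L [] 8210 (Pf.C 19 49286))
 (Pq.cons (Pq.D 6 (Pq.cons (Pq.L [] 16418 (Pf.C 19 49287))
 (Pq.cons (Pq.L [] 0x106673 (Pf.C 54 0x70c0c101))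
 (Pq.cons (Pq.L [] 16418 (Pf.C 19 49287))
 (Pq.cons (Pq.L [] 0x100000 (Pf.C 1 902))
 (Pq.cons (Pq.L [] 16418 (Pf.C 16 16775))
 (Pq.cons (Pq.L [] 1057 (Pf.C 19 0x1c082))
 Pq.nil))))))) (Pq.cons (Pq.L [] 8210 (Pf.C 16 16774))
 (Pq.cons (Pq.L [] 529 (Pf.C 19 98434))
 Pq.nil))))))) Pq.nil))))))) Pq.nil))))))) Pq.nil))))))) (Pq.cons (Pq.D 2 (Pq.cons (Pq.L [] 64 (Pf.C 1 386))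
 (Pq.cons (Pq.L [] 64 (Pf.C 1 386))
 (Pq.cons (Pq.L [] 64 (Pf.C 1 386))
 (Pq.cons (Pq.L [] 64 (Pf.C 1 386))
 (Pq.cons (Pq.D 3 (Pq.cons (Pq.L [] 128 (Pf.C 1 514))
 (Pq.cons (Pq.L [] 128 (Pf.C 1 514))
 (Pq.cons (Pq.L [] 128 (Pf.C 1 514))
 (Pq.cons (Pq.L [] 128 (Pf.C 1 514))
 (Pq.cons (Pq.D 4 (Pq.cons (Pq.L [] 256 (Pf.C 1 642))
 (Pq.cons (Pq.L [] 256 (Pf.C 1 642))
 (Pq.cons (Pq.L [] 256 (Pf.C 1 642))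
 (Pq.cons (Pq.L [] 256 (Pf.C 1 642))
 (Pq.cons (Pq.D 5 (Pq.cons (Pq.L [] 0x4335b (Pf.C 51 0x10c14182))
 (Pq.cons (Pq.L [] 0x4335b (Pf.C 51 0x10c14182))
 (Pq.cons (Pq.L [] 0x40018 (Pf.C 22 17030))
 (Pq.cons (Pq.D 6 (Pq.cons (Pq.L [] 0x106673 (Pf.C 52 0x70c0c101))
 (Pq.cons (Pq.L [] 0x106673 (Pf.C 54 0x70c0c101))
 (Pq.cons (Pq.L [] 0x106673 (Pf.C 52 0x70c0c101))
 (Pq.cons (Pq.L [] 0x100000 (Pf.C 1 902))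
 (Pq.cons (Pq.L [] 0x106673 (Pf.C 52 0x70c0c101))
 (Pq.cons (Pq.L [] 16418 (Pf.C 16 17283))
 Pq.nil))))))) (Pq.cons (Pq.L [] 0x4335b (Pf.C 50 0x10c14182))
 (Pq.cons (Pq.L [] 8210 (Pf.C 16 17155))
 Pq.nil))))))) (Pq.cons (Pq.L [] 4106 (Pf.C 16 17027))
 Pq.nil))))))) (Pq.cons (Pq.L [] 2054 (Pf.C 16 16899))
 Pq.nil))))))) (Pq.cons (Pq.D 3 (Pq.cons (Pq.L [] 2054 (Pf.C 19 49284))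
 (Pq.cons (Pq.L [] 128 (Pf.C 1 514))
 (Pq.cons (Pq.L [] 2054 (Pf.C 19 49284))
 (Pq.cons (Pq.L [] 128 (Pf.C 1 514))
 (Pq.cons (Pq.L [] 2054 (Pf.C 16 16772))
 (Pq.cons (Pq.D 4 (Pq.cons (Pq.L [] 4106 (Pf.C 19 49285))
 (Pq.cons (Pq.L [] 256 (Pf.C 1 642))
 (Pq.cons (Pq.L [] 4106 (Pf.C 19 49285))
 (Pq.cons (Pq.L [] 256 (Pf.C 1 642))
 (Pq.cons (Pq.L [] 4106 (Pf.C 16 16773))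
 (Pq.cons (Pq.D 5 (Pq.cons (Pq.L [] 8210 (Pf.C 19 49286))
 (Pq.cons (Pq.L [] 0x4301a (Pf.C 33 0x218283))
 (Pq.cons (Pq.L [] 8210 (Pf.C 19 49286))
 (Pq.cons (Pq.D 6 (Pq.cons (Pq.L [] 16418 (Pf.C 19 49287))
 (Pq.cons (Pq.L [] 0x106673 (Pf.C 54 0x70c0c101))
 (Pq.cons (Pq.L [] 16418 (Pf.C 19 49287))
 (Pq.cons (Pq.L [] 0x100000 (Pf.C 1 902))
 (Pq.cons (Pq.L [] 16418 (Pf.C 16 16775))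
 (Pq.cons (Pq.L [] 0x106673 (Pf.C 52 0x70c0c101))
 Pq.nil))))))) (Pq.cons (Pq.L [] 8210 (Pf.C 16 16774))
 (Pq.cons (Pq.L [] 0x4335b (Pf.C 50 0x10c14182))
 Pq.nil))))))) Pq.nil))))))) Pq.nil))))))) Pq.nil))))))) (Pq.cons (Pq.D 2 (Pq.cons (Pq.L [] 64 (Pf.C 13 386))
 (Pq.cons (Pq.D 3 (Pq.cons (Pq.L [] 128 (Pf.C 13 514))
 (Pq.cons (Pq.D 4 (Pq.cons (Pq.L [] 256 (Pf.C 13 642))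
 (Pq.cons (Pq.D 5 (Pq.cons (Pq.L [] 0x4301a (Pf.C 36 0x218283))
 (Pq.cons (Pq.L [] 8787 (Pf.C 36 0x208186))
 (Pq.cons (Pq.L [] 0x40000 (Pf.C 1 773))
 (Pq.cons (Pq.L [] 0x40000 (Pf.C 1 773))
 (Pq.cons (Pq.L [] 0x4301a (Pf.C 36 0x218283))
 (Pq.cons (Pq.L [] 529 (Pf.C 16 17154))
 Pq.nil))))))) (Pq.cons (Pq.L [] 265 (Pf.C 22 16645))
 (Pq.cons (Pq.D 5 (Pq.cons (Pq.L [0] 8787 (Pf.C 46 0x1040c300))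
 (Pq.cons (Pq.L [] 8787 (Pf.C 36 0x208186))
 (Pq.cons (Pq.L [] 0x40000 (Pf.C 1 773))
 (Pq.cons (Pq.L [] 0x40000 (Pf.C 1 773))
 (Pq.cons (Pq.L [] 0x4335b (Pf.C 51 0x10608305))
 (Pq.cons (Pq.L [] 529 (Pf.C 16 17154))
 Pq.nil))))))) (Pq.cons (Pq.L [] 256 (Pf.C 2 642))
 (Pq.cons (Pq.L [] 256 (Pf.C 2 642))
 Pq.nil))))))) (Pq.cons (Pq.L [] 133 (Pf.C 22 16644))
 (Pq.cons (Pq.D 4 (Pq.cons (Pq.L [] 256 (Pf.C 13 642))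
 (Pq.cons (Pq.D 5 (Pq.cons (Pq.L [] 0x4301a (Pf.C 36 0x218283))
 (Pq.cons (Pq.L [] 8787 (Pf.C 36 0x208186))
 (Pq.cons (Pq.L [] 0x40000 (Pf.C 1 773))
 (Pq.cons (Pq.L [] 0x40000 (Pf.C 1 773))
 (Pq.cons (Pq.L [] 0x4301a (Pf.C 36 0x218283))
 (Pq.cons (Pq.L [] 529 (Pf.C 16 17154))
 Pq.nil))))))) (Pq.cons (Pq.L [] 265 (Pf.C 22 16645))
 (Pq.cons (Pq.D 5 (Pq.cons (Pq.L [0] 8787 (Pf.C 46 0x1040c300))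
 (Pq.cons (Pq.L [] 8787 (Pf.C 36 0x208186))
 (Pq.cons (Pq.L [] 0x40000 (Pf.C 1 773))
 (Pq.cons (Pq.L [] 0x40000 (Pf.C 1 773))
 (Pq.cons (Pq.L [] 0x4335b (Pf.C 51 0x10608305))
 (Pq.cons (Pq.L [] 529 (Pf.C 16 17154))
 Pq.nil))))))) (Pq.cons (Pq.L [] 256 (Pf.C 2 642))
 (Pq.cons (Pq.L [] 256 (Pf.C 2 642))
 Pq.nil))))))) (Pq.cons (Pq.L [] 128 (Pf.C 2 514))
 (Pq.cons (Pq.L [] 128 (Pf.C 2 514))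
 Pq.nil))))))) (Pq.cons (Pq.L [] 67 (Pf.C 22 16643))
 (Pq.cons (Pq.D 3 (Pq.cons (Pq.L [] 128 (Pf.C 13 514))
 (Pq.cons (Pq.D 4 (Pq.cons (Pq.L [] 256 (Pf.C 13 642))
 (Pq.cons (Pq.D 5 (Pq.cons (Pq.L [] 0x5801c (Pf.C 36 0x218284))
 (Pq.cons (Pq.L [] 66197 (Pf.C 36 0x208206))
 (Pq.cons (Pq.L [] 0x40000 (Pf.C 1 773))
 (Pq.cons (Pq.L [] 0x40000 (Pf.C 1 773))
 (Pq.cons (Pq.L [] 0x5801c (Pf.C 36 0x218284))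
 (Pq.cons (Pq.L [] 529 (Pf.C 16 17154))
 Pq.nil))))))) (Pq.cons (Pq.L [] 265 (Pf.C 22 16645))
 (Pq.cons (Pq.D 5 (Pq.cons (Pq.L [0] 66197 (Pf.C 46 0x10410300))
 (Pq.cons (Pq.L [] 66197 (Pf.C 36 0x208206))
 (Pq.cons (Pq.L [] 0x40000 (Pf.C 1 773))
 (Pq.cons (Pq.L [] 0x40000 (Pf.C 1 773))
 (Pq.cons (Pq.L [] 0x5839d (Pf.C 51 0x10808305))
 (Pq.cons (Pq.L [] 529 (Pf.C 16 17154))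
 Pq.nil))))))) (Pq.cons (Pq.L [] 256 (Pf.C 2 642))
 (Pq.cons (Pq.L [] 256 (Pf.C 2 642))
 Pq.nil))))))) (Pq.cons (Pq.L [] 133 (Pf.C 22 16644))
 (Pq.cons (Pq.D 4 (Pq.cons (Pq.L [] 256 (Pf.C 13 642))
 (Pq.cons (Pq.D 5 (Pq.cons (Pq.L [] 0x40000 (Pf.C 1 773))
 (Pq.cons (Pq.L [] 512 (Pf.C 6 770))
 (Pq.cons (Pq.L [] 0x40000 (Pf.C 1 773))
 (Pq.cons (Pq.L [] 0x40000 (Pf.C 1 773))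
 (Pq.cons (Pq.L [0] 0x1c677b (Pf.B 7 0 (Pf.C 0 0x800e18105) (Pf.C 0 0x1030c1c080)))
 (Pq.cons (Pq.L [] 529 (Pf.C 16 17154))
 Pq.nil))))))) (Pq.cons (Pq.L [] 265 (Pf.C 22 16645))
 (Pq.cons (Pq.D 5 (Pq.cons (Pq.L [] 0x40000 (Pf.C 1 773))
 (Pq.cons (Pq.L [] 512 (Pf.C 6 770))
 (Pq.cons (Pq.L [] 0x40000 (Pf.C 1 773))
 (Pq.cons (Pq.L [] 0x40000 (Pf.C 1 773))
 (Pq.cons (Pq.L [0] 0x1c677b (Pf.B 7 0 (Pf.C 0 0x800e18105) (Pf.C 0 0x1030c1c080)))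
 (Pq.cons (Pq.L [] 529 (Pf.C 16 17154))
 Pq.nil))))))) (Pq.cons (Pq.L [] 256 (Pf.C 2 642))
 (Pq.cons (Pq.L [] 256 (Pf.C 2 642))
 Pq.nil))))))) (Pq.cons (Pq.L [] 128 (Pf.C 2 514))
 (Pq.cons (Pq.L [] 128 (Pf.C 2 514))
 Pq.nil))))))) (Pq.cons (Pq.L [] 64 (Pf.C 2 386))
 (Pq.cons (Pq.L [] 64 (Pf.C 2 386))
 Pq.nil))))))) (Pq.cons (Pq.D 2 (Pq.cons (Pq.D 3 (Pq.cons (Pq.D 4 (Pq.cons (Pq.D 5 (Pq.cons (Pq.L [] 529 (Pf.C 19 32902))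
 (Pq.cons (Pq.L [0] 8787 (Pf.C 46 0x1040c300))
 (Pq.cons (Pq.L [] 529 (Pf.C 19 32902))
 (Pq.cons (Pq.L [] 0x40000 (Pf.C 1 773))
 (Pq.cons (Pq.L [] 529 (Pf.C 16 16646))
 (Pq.cons (Pq.L [] 8210 (Pf.C 19 98435))
 Pq.nil))))))) (Pq.cons (Pq.L [] 4096 (Pf.C 10 643))
 (Pq.cons (Pq.D 5 (Pq.cons (Pq.L [] 529 (Pf.C 19 32902))
 (Pq.cons (Pq.L [0] 8787 (Pf.C 46 0x1040c300))
 (Pq.cons (Pq.L [] 529 (Pf.C 19 32902))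
 (Pq.cons (Pq.L [] 0x40000 (Pf.C 1 773))
 (Pq.cons (Pq.L [] 529 (Pf.C 16 16646))
 (Pq.cons (Pq.L [] 8210 (Pf.C 19 98435))
 Pq.nil))))))) (Pq.cons (Pq.D 5 (Pq.cons (Pq.L [] 529 (Pf.C 19 32902))
 (Pq.cons (Pq.L [0] 8787 (Pf.C 46 0x1040c300))
 (Pq.cons (Pq.L [] 529 (Pf.C 19 32902))
 (Pq.cons (Pq.L [] 0x40000 (Pf.C 1 773))
 (Pq.cons (Pq.L [] 529 (Pf.C 16 16646))
 (Pq.cons (Pq.L [] 8210 (Pf.C 19 98435))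
 Pq.nil))))))) (Pq.cons (Pq.L [] 256 (Pf.C 2 642))
 (Pq.cons (Pq.L [] 4106 (Pf.C 19 82051))
 Pq.nil))))))) (Pq.cons (Pq.L [] 2048 (Pf.C 10 515))
 (Pq.cons (Pq.D 4 (Pq.cons (Pq.D 5 (Pq.cons (Pq.L [] 529 (Pf.C 19 32902))
 (Pq.cons (Pq.L [0] 8787 (Pf.C 46 0x1040c300))
 (Pq.cons (Pq.L [] 529 (Pf.C 19 32902))
 (Pq.cons (Pq.L [] 0x40000 (Pf.C 1 773))
 (Pq.cons (Pq.L [] 529 (Pf.C 16 16646))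
 (Pq.cons (Pq.L [] 8210 (Pf.C 19 98435))
 Pq.nil))))))) (Pq.cons (Pq.L [] 4096 (Pf.C 10 643))
 (Pq.cons (Pq.D 5 (Pq.cons (Pq.L [] 529 (Pf.C 19 32902))
 (Pq.cons (Pq.L [0] 8787 (Pf.C 46 0x1040c300))
 (Pq.cons (Pq.L [] 529 (Pf.C 19 32902))
 (Pq.cons (Pq.L [] 0x40000 (Pf.C 1 773))
 (Pq.cons (Pq.L [] 529 (Pf.C 16 16646))
 (Pq.cons (Pq.L [] 8210 (Pf.C 19 98435))
 Pq.nil))))))) (Pq.cons (Pq.D 5 (Pq.cons (Pq.L [] 529 (Pf.C 19 32902))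
 (Pq.cons (Pq.L [0] 8787 (Pf.C 46 0x1040c300))
 (Pq.cons (Pq.L [] 529 (Pf.C 19 32902))
 (Pq.cons (Pq.L [] 0x40000 (Pf.C 1 773))
 (Pq.cons (Pq.L [] 529 (Pf.C 16 16646))
 (Pq.cons (Pq.L [] 8210 (Pf.C 19 98435))
 Pq.nil))))))) (Pq.cons (Pq.L [] 256 (Pf.C 2 642))
 (Pq.cons (Pq.L [] 4106 (Pf.C 19 82051))
 Pq.nil))))))) (Pq.cons (Pq.D 4 (Pq.cons (Pq.D 5 (Pq.cons (Pq.L [] 529 (Pf.C 19 32902))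
 (Pq.cons (Pq.L [0] 8787 (Pf.C 46 0x1040c300))
 (Pq.cons (Pq.L [] 529 (Pf.C 19 32902))
 (Pq.cons (Pq.L [] 0x40000 (Pf.C 1 773))
 (Pq.cons (Pq.L [] 529 (Pf.C 16 16646))
 (Pq.cons (Pq.L [] 8210 (Pf.C 19 98435))
 Pq.nil))))))) (Pq.cons (Pq.L [] 4096 (Pf.C 10 643))
 (Pq.cons (Pq.D 5 (Pq.cons (Pq.L [] 529 (Pf.C 19 32902))
 (Pq.cons (Pq.L [0] 8787 (Pf.C 46 0x1040c300))
 (Pq.cons (Pq.L [] 529 (Pf.C 19 32902))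
 (Pq.cons (Pq.L [] 0x40000 (Pf.C 1 773))
 (Pq.cons (Pq.L [] 529 (Pf.C 16 16646))
 (Pq.cons (Pq.L [] 8210 (Pf.C 19 98435))
 Pq.nil))))))) (Pq.cons (Pq.D 5 (Pq.cons (Pq.L [] 529 (Pf.C 19 32902))
 (Pq.cons (Pq.L [0] 8787 (Pf.C 46 0x1040c300))
 (Pq.cons (Pq.L [] 529 (Pf.C 19 32902))
 (Pq.cons (Pq.L [] 0x40000 (Pf.C 1 773))
 (Pq.cons (Pq.L [] 529 (Pf.C 16 16646))
 (Pq.cons (Pq.L [] 8210 (Pf.C 19 98435))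
 Pq.nil))))))) (Pq.cons (Pq.L [] 256 (Pf.C 2 642))
 (Pq.cons (Pq.L [] 4106 (Pf.C 19 82051))
 Pq.nil))))))) (Pq.cons (Pq.L [] 128 (Pf.C 2 514))
 (Pq.cons (Pq.L [] 2054 (Pf.C 19 65667))
 Pq.nil))))))) (Pq.cons (Pq.D 3 (Pq.cons (Pq.L [] 2048 (Pf.C 10 388))
 (Pq.cons (Pq.D 4 (Pq.cons (Pq.L [] 4096 (Pf.C 10 389))
 (Pq.cons (Pq.D 5 (Pq.cons (Pq.L [] 529 (Pf.C 19 32902))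
 (Pq.cons (Pq.L [] 8787 (Pf.C 36 0x208186))
 (Pq.cons (Pq.L [] 529 (Pf.C 19 32902))
 (Pq.cons (Pq.L [] 0x40000 (Pf.C 1 773))
 (Pq.cons (Pq.L [] 529 (Pf.C 16 16646))
 (Pq.cons (Pq.L [] 8787 (Pf.C 33 0x20c106))
 Pq.nil))))))) (Pq.cons (Pq.D 5 (Pq.cons (Pq.L [] 529 (Pf.C 19 32902))
 (Pq.cons (Pq.L [] 8787 (Pf.C 36 0x208186))
 (Pq.cons (Pq.L [] 529 (Pf.C 19 32902))
 (Pq.cons (Pq.L [] 0x40000 (Pf.C 1 773))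
 (Pq.cons (Pq.L [] 529 (Pf.C 16 16646))
 (Pq.cons (Pq.L [] 8787 (Pf.C 33 0x20c106))
 Pq.nil))))))) (Pq.cons (Pq.D 5 (Pq.cons (Pq.L [] 529 (Pf.C 19 32902))
 (Pq.cons (Pq.L [] 8787 (Pf.C 36 0x208186))
 (Pq.cons (Pq.L [] 529 (Pf.C 19 32902))
 (Pq.cons (Pq.L [] 0x40000 (Pf.C 1 773))
 (Pq.cons (Pq.L [] 529 (Pf.C 16 16646))
 (Pq.cons (Pq.L [] 8787 (Pf.C 33 0x20c106))
 Pq.nil))))))) (Pq.cons (Pq.L [] 256 (Pf.C 2 642))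
 (Pq.cons (Pq.L [] 256 (Pf.C 2 642))
 Pq.nil))))))) (Pq.cons (Pq.D 4 (Pq.cons (Pq.L [] 4096 (Pf.C 10 389))
 (Pq.cons (Pq.D 5 (Pq.cons (Pq.L [] 529 (Pf.C 19 32902))
 (Pq.cons (Pq.L [] 8787 (Pf.C 36 0x208186))
 (Pq.cons (Pq.L [] 529 (Pf.C 19 32902))
 (Pq.cons (Pq.L [] 0x40000 (Pf.C 1 773))
 (Pq.cons (Pq.L [] 529 (Pf.C 16 16646))
 (Pq.cons (Pq.L [] 65556 (Pf.C 19 98436))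
 Pq.nil))))))) (Pq.cons (Pq.D 5 (Pq.cons (Pq.L [] 529 (Pf.C 19 32902))
 (Pq.cons (Pq.L [] 8787 (Pf.C 36 0x208186))
 (Pq.cons (Pq.L [] 529 (Pf.C 19 32902))
 (Pq.cons (Pq.L [] 0x40000 (Pf.C 1 773))
 (Pq.cons (Pq.L [] 529 (Pf.C 16 16646))
 (Pq.cons (Pq.L [] 65556 (Pf.C 19 98436))
 Pq.nil))))))) (Pq.cons (Pq.D 5 (Pq.cons (Pq.L [] 529 (Pf.C 19 32902))
 (Pq.cons (Pq.L [] 8787 (Pf.C 36 0x208186))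
 (Pq.cons (Pq.L [] 529 (Pf.C 19 32902))
 (Pq.cons (Pq.L [] 0x40000 (Pf.C 1 773))
 (Pq.cons (Pq.L [] 529 (Pf.C 16 16646))
 (Pq.cons (Pq.L [] 65556 (Pf.C 19 98436))
 Pq.nil))))))) (Pq.cons (Pq.L [] 256 (Pf.C 2 642))
 (Pq.cons (Pq.L [] 32780 (Pf.C 19 82052))
 Pq.nil))))))) (Pq.cons (Pq.D 4 (Pq.cons (Pq.L [] 4096 (Pf.C 10 389))
 (Pq.cons (Pq.D 5 (Pq.cons (Pq.L [] 529 (Pf.C 19 32902))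
 (Pq.cons (Pq.L [] 8787 (Pf.C 36 0x208186))
 (Pq.cons (Pq.L [] 529 (Pf.C 19 32902))
 (Pq.cons (Pq.L [] 0x40000 (Pf.C 1 773))
 (Pq.cons (Pq.L [] 529 (Pf.C 16 16646))
 (Pq.cons (Pq.L [] 8787 (Pf.C 33 0x20c106))
 Pq.nil))))))) (Pq.cons (Pq.D 5 (Pq.cons (Pq.L [] 529 (Pf.C 19 32902))
 (Pq.cons (Pq.L [] 8787 (Pf.C 36 0x208186))
 (Pq.cons (Pq.L [] 529 (Pf.C 19 32902))
 (Pq.cons (Pq.L [] 0x40000 (Pf.C 1 773))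
 (Pq.cons (Pq.L [] 529 (Pf.C 16 16646))
 (Pq.cons (Pq.L [] 8787 (Pf.C 33 0x20c106))
 Pq.nil))))))) (Pq.cons (Pq.D 5 (Pq.cons (Pq.L [] 529 (Pf.C 19 32902))
 (Pq.cons (Pq.L [] 8787 (Pf.C 36 0x208186))
 (Pq.cons (Pq.L [] 529 (Pf.C 19 32902))
 (Pq.cons (Pq.L [] 0x40000 (Pf.C 1 773))
 (Pq.cons (Pq.L [] 529 (Pf.C 16 16646))
 (Pq.cons (Pq.L [] 8787 (Pf.C 33 0x20c106))
 Pq.nil))))))) (Pq.cons (Pq.L [] 256 (Pf.C 2 642))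
 (Pq.cons (Pq.L [] 256 (Pf.C 2 642))
 Pq.nil))))))) (Pq.cons (Pq.L [] 128 (Pf.C 2 514))
 (Pq.cons (Pq.L [] 128 (Pf.C 2 514))
 Pq.nil))))))) (Pq.cons (Pq.D 3 (Pq.cons (Pq.D 4 (Pq.cons (Pq.D 5 (Pq.cons (Pq.L [] 529 (Pf.C 19 32902))
 (Pq.cons (Pq.L [0] 66197 (Pf.C 46 0x10410300))
 (Pq.cons (Pq.L [] 529 (Pf.C 19 32902))
 (Pq.cons (Pq.L [] 0x40000 (Pf.C 1 773))
 (Pq.cons (Pq.L [] 529 (Pf.C 16 16646))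
 (Pq.cons (Pq.L [] 8210 (Pf.C 19 98435))
 Pq.nil))))))) (Pq.cons (Pq.L [] 32768 (Pf.C 10 644))
 (Pq.cons (Pq.D 5 (Pq.cons (Pq.L [] 529 (Pf.C 19 32902))
 (Pq.cons (Pq.L [0] 66197 (Pf.C 46 0x10410300))
 (Pq.cons (Pq.L [] 529 (Pf.C 19 32902))
 (Pq.cons (Pq.L [] 0x40000 (Pf.C 1 773))
 (Pq.cons (Pq.L [] 529 (Pf.C 16 16646))
 (Pq.cons (Pq.L [] 8210 (Pf.C 19 98435))
 Pq.nil))))))) (Pq.cons (Pq.D 5 (Pq.cons (Pq.L [] 529 (Pf.C 19 32902))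
 (Pq.cons (Pq.L [0] 66197 (Pf.C 46 0x10410300))
 (Pq.cons (Pq.L [] 529 (Pf.C 19 32902))
 (Pq.cons (Pq.L [] 0x40000 (Pf.C 1 773))
 (Pq.cons (Pq.L [] 529 (Pf.C 16 16646))
 (Pq.cons (Pq.L [] 8210 (Pf.C 19 98435))
 Pq.nil))))))) (Pq.cons (Pq.L [] 256 (Pf.C 2 642))
 (Pq.cons (Pq.L [] 4106 (Pf.C 19 82051))
 Pq.nil))))))) (Pq.cons (Pq.D 4 (Pq.cons (Pq.L [] 32768 (Pf.C 10 517))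
 (Pq.cons (Pq.D 5 (Pq.cons (Pq.L [] 529 (Pf.C 19 32902))
 (Pq.cons (Pq.L [] 66197 (Pf.C 36 0x208206))
 (Pq.cons (Pq.L [] 529 (Pf.C 19 32902))
 (Pq.cons (Pq.L [] 0x40000 (Pf.C 1 773))
 (Pq.cons (Pq.L [] 529 (Pf.C 16 16646))
 (Pq.cons (Pq.L [] 8210 (Pf.C 19 98435))
 Pq.nil))))))) (Pq.cons (Pq.D 5 (Pq.cons (Pq.L [] 529 (Pf.C 19 32902))
 (Pq.cons (Pq.L [] 66197 (Pf.C 36 0x208206))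
 (Pq.cons (Pq.L [] 529 (Pf.C 19 32902))
 (Pq.cons (Pq.L [] 0x40000 (Pf.C 1 773))
 (Pq.cons (Pq.L [] 529 (Pf.C 16 16646))
 (Pq.cons (Pq.L [] 8210 (Pf.C 19 98435))
 Pq.nil))))))) (Pq.cons (Pq.D 5 (Pq.cons (Pq.L [] 529 (Pf.C 19 32902))
 (Pq.cons (Pq.L [] 66197 (Pf.C 36 0x208206))
 (Pq.cons (Pq.L [] 529 (Pf.C 19 32902))
 (Pq.cons (Pq.L [] 0x40000 (Pf.C 1 773))
 (Pq.cons (Pq.L [] 529 (Pf.C 16 16646))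
 (Pq.cons (Pq.L [] 8210 (Pf.C 19 98435))
 Pq.nil))))))) (Pq.cons (Pq.L [] 256 (Pf.C 2 642))
 (Pq.cons (Pq.L [] 4106 (Pf.C 19 82051))
 Pq.nil))))))) (Pq.cons (Pq.D 4 (Pq.cons (Pq.D 5 (Pq.cons (Pq.L [] 529 (Pf.C 19 32902))
 (Pq.cons (Pq.L [] 0x40000 (Pf.C 1 773))
 (Pq.cons (Pq.L [] 529 (Pf.C 19 32902))
 (Pq.cons (Pq.L [] 0x40000 (Pf.C 1 773))
 (Pq.cons (Pq.L [] 529 (Pf.C 16 16646))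
 (Pq.cons (Pq.L [] 8210 (Pf.C 19 98435))
 Pq.nil))))))) (Pq.cons (Pq.D 5 (Pq.cons (Pq.L [] 529 (Pf.C 19 32902))
 (Pq.cons (Pq.L [] 0x40000 (Pf.C 1 773))
 (Pq.cons (Pq.L [] 529 (Pf.C 19 32902))
 (Pq.cons (Pq.L [] 0x40000 (Pf.C 1 773))
 (Pq.cons (Pq.L [] 529 (Pf.C 16 16646))
 (Pq.cons (Pq.L [] 8210 (Pf.C 19 98435))
 Pq.nil))))))) (Pq.cons (Pq.D 5 (Pq.cons (Pq.L [] 529 (Pf.C 19 32902))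
 (Pq.cons (Pq.L [] 0x40000 (Pf.C 1 773))
 (Pq.cons (Pq.L [] 529 (Pf.C 19 32902))
 (Pq.cons (Pq.L [] 0x40000 (Pf.C 1 773))
 (Pq.cons (Pq.L [] 529 (Pf.C 16 16646))
 (Pq.cons (Pq.L [] 8210 (Pf.C 19 98435))
 Pq.nil))))))) (Pq.cons (Pq.D 5 (Pq.cons (Pq.L [] 529 (Pf.C 19 32902))
 (Pq.cons (Pq.L [] 0x40000 (Pf.C 1 773))
 (Pq.cons (Pq.L [] 529 (Pf.C 19 32902))
 (Pq.cons (Pq.L [] 0x40000 (Pf.C 1 773))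
 (Pq.cons (Pq.L [] 529 (Pf.C 16 16646))
 (Pq.cons (Pq.L [] 8210 (Pf.C 19 98435))
 Pq.nil))))))) (Pq.cons (Pq.L [] 256 (Pf.C 2 642))
 (Pq.cons (Pq.L [] 4106 (Pf.C 19 82051))
 Pq.nil))))))) (Pq.cons (Pq.D 4 (Pq.cons (Pq.D 5 (Pq.cons (Pq.L [] 529 (Pf.C 19 32902))
 (Pq.cons (Pq.L [] 0x40000 (Pf.C 1 773))
 (Pq.cons (Pq.L [] 529 (Pf.C 19 32902))
 (Pq.cons (Pq.L [] 0x40000 (Pf.C 1 773))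
 (Pq.cons (Pq.L [] 529 (Pf.C 16 16646))
 (Pq.cons (Pq.L [] 8210 (Pf.C 19 98435))
 Pq.nil))))))) (Pq.cons (Pq.D 5 (Pq.cons (Pq.L [] 529 (Pf.C 19 32902))
 (Pq.cons (Pq.L [] 0x40000 (Pf.C 1 773))
 (Pq.cons (Pq.L [] 529 (Pf.C 19 32902))
 (Pq.cons (Pq.L [] 0x40000 (Pf.C 1 773))
 (Pq.cons (Pq.L [] 529 (Pf.C 16 16646))
 (Pq.cons (Pq.L [] 8210 (Pf.C 19 98435))
 Pq.nil))))))) (Pq.cons (Pq.D 5 (Pq.cons (Pq.L [] 529 (Pf.C 19 32902))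
 (Pq.cons (Pq.L [] 0x40000 (Pf.C 1 773))
 (Pq.cons (Pq.L [] 529 (Pf.C 19 32902))
 (Pq.cons (Pq.L [] 0x40000 (Pf.C 1 773))
 (Pq.cons (Pq.L [] 529 (Pf.C 16 16646))
 (Pq.cons (Pq.L [] 8210 (Pf.C 19 98435))
 Pq.nil))))))) (Pq.cons (Pq.D 5 (Pq.cons (Pq.L [] 529 (Pf.C 19 32902))
 (Pq.cons (Pq.L [] 0x40000 (Pf.C 1 773))
 (Pq.cons (Pq.L [] 529 (Pf.C 19 32902))
 (Pq.cons (Pq.L [] 0x40000 (Pf.C 1 773))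
 (Pq.cons (Pq.L [] 529 (Pf.C 16 16646))
 (Pq.cons (Pq.L [] 8210 (Pf.C 19 98435))
 Pq.nil))))))) (Pq.cons (Pq.L [] 256 (Pf.C 2 642))
 (Pq.cons (Pq.L [] 4106 (Pf.C 19 82051))
 Pq.nil))))))) (Pq.cons (Pq.L [] 128 (Pf.C 2 514))
 (Pq.cons (Pq.L [] 2054 (Pf.C 19 65667))
 Pq.nil))))))) (Pq.cons (Pq.D 3 (Pq.cons (Pq.D 4 (Pq.cons (Pq.D 5 (Pq.cons (Pq.L [] 529 (Pf.C 19 32902))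
 (Pq.cons (Pq.L [0] 66197 (Pf.C 46 0x10410300))
 (Pq.cons (Pq.L [] 529 (Pf.C 19 32902))
 (Pq.cons (Pq.L [] 0x40000 (Pf.C 1 773))
 (Pq.cons (Pq.L [] 529 (Pf.C 16 16646))
 (Pq.cons (Pq.L [] 65556 (Pf.C 19 98436))
 Pq.nil))))))) (Pq.cons (Pq.L [] 32768 (Pf.C 10 644))
 (Pq.cons (Pq.D 5 (Pq.cons (Pq.L [] 529 (Pf.C 19 32902))
 (Pq.cons (Pq.L [0] 66197 (Pf.C 46 0x10410300))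
 (Pq.cons (Pq.L [] 529 (Pf.C 19 32902))
 (Pq.cons (Pq.L [] 0x40000 (Pf.C 1 773))
 (Pq.cons (Pq.L [] 529 (Pf.C 16 16646))
 (Pq.cons (Pq.L [] 65556 (Pf.C 19 98436))
 Pq.nil))))))) (Pq.cons (Pq.D 5 (Pq.cons (Pq.L [] 529 (Pf.C 19 32902))
 (Pq.cons (Pq.L [0] 66197 (Pf.C 46 0x10410300))
 (Pq.cons (Pq.L [] 529 (Pf.C 19 32902))
 (Pq.cons (Pq.L [] 0x40000 (Pf.C 1 773))
 (Pq.cons (Pq.L [] 529 (Pf.C 16 16646))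
 (Pq.cons (Pq.L [] 65556 (Pf.C 19 98436))
 Pq.nil))))))) (Pq.cons (Pq.L [] 256 (Pf.C 2 642))
 (Pq.cons (Pq.L [] 32780 (Pf.C 19 82052))
 Pq.nil))))))) (Pq.cons (Pq.D 4 (Pq.cons (Pq.L [] 32768 (Pf.C 10 517))
 (Pq.cons (Pq.D 5 (Pq.cons (Pq.L [] 529 (Pf.C 19 32902))
 (Pq.cons (Pq.L [] 66197 (Pf.C 36 0x208206))
 (Pq.cons (Pq.L [] 529 (Pf.C 19 32902))
 (Pq.cons (Pq.L [] 0x40000 (Pf.C 1 773))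
 (Pq.cons (Pq.L [] 529 (Pf.C 16 16646))
 (Pq.cons (Pq.L [] 66197 (Pf.C 33 0x210106))
 Pq.nil))))))) (Pq.cons (Pq.D 5 (Pq.cons (Pq.L [] 529 (Pf.C 19 32902))
 (Pq.cons (Pq.L [] 66197 (Pf.C 36 0x208206))
 (Pq.cons (Pq.L [] 529 (Pf.C 19 32902))
 (Pq.cons (Pq.L [] 0x40000 (Pf.C 1 773))
 (Pq.cons (Pq.L [] 529 (Pf.C 16 16646))
 (Pq.cons (Pq.L [] 66197 (Pf.C 33 0x210106))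
 Pq.nil))))))) (Pq.cons (Pq.D 5 (Pq.cons (Pq.L [] 529 (Pf.C 19 32902))
 (Pq.cons (Pq.L [] 66197 (Pf.C 36 0x208206))
 (Pq.cons (Pq.L [] 529 (Pf.C 19 32902))
 (Pq.cons (Pq.L [] 0x40000 (Pf.C 1 773))
 (Pq.cons (Pq.L [] 529 (Pf.C 16 16646))
 (Pq.cons (Pq.L [] 66197 (Pf.C 33 0x210106))
 Pq.nil))))))) (Pq.cons (Pq.L [] 256 (Pf.C 2 642))
 (Pq.cons (Pq.L [] 256 (Pf.C 2 642))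
 Pq.nil))))))) (Pq.cons (Pq.D 4 (Pq.cons (Pq.D 5 (Pq.cons (Pq.L [] 529 (Pf.C 19 32902))
 (Pq.cons (Pq.L [] 0x40000 (Pf.C 1 773))
 (Pq.cons (Pq.L [] 529 (Pf.C 19 32902))
 (Pq.cons (Pq.L [] 0x40000 (Pf.C 1 773))
 (Pq.cons (Pq.L [] 529 (Pf.C 16 16646))
 (Pq.cons (Pq.L [] 65556 (Pf.C 19 98436))
 Pq.nil))))))) (Pq.cons (Pq.D 5 (Pq.cons (Pq.L [] 529 (Pf.C 19 32902))
 (Pq.cons (Pq.L [] 0x40000 (Pf.C 1 773))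
 (Pq.cons (Pq.L [] 529 (Pf.C 19 32902))
 (Pq.cons (Pq.L [] 0x40000 (Pf.C 1 773))
 (Pq.cons (Pq.L [] 529 (Pf.C 16 16646))
 (Pq.cons (Pq.L [] 65556 (Pf.C 19 98436))
 Pq.nil))))))) (Pq.cons (Pq.D 5 (Pq.cons (Pq.L [] 529 (Pf.C 19 32902))
 (Pq.cons (Pq.L [] 0x40000 (Pf.C 1 773))
 (Pq.cons (Pq.L [] 529 (Pf.C 19 32902))
 (Pq.cons (Pq.L [] 0x40000 (Pf.C 1 773))
 (Pq.cons (Pq.L [] 529 (Pf.C 16 16646))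
 (Pq.cons (Pq.L [] 65556 (Pf.C 19 98436))
 Pq.nil))))))) (Pq.cons (Pq.D 5 (Pq.cons (Pq.L [] 529 (Pf.C 19 32902))
 (Pq.cons (Pq.L [] 0x40000 (Pf.C 1 773))
 (Pq.cons (Pq.L [] 529 (Pf.C 19 32902))
 (Pq.cons (Pq.L [] 0x40000 (Pf.C 1 773))
 (Pq.cons (Pq.L [] 529 (Pf.C 16 16646))
 (Pq.cons (Pq.L [] 65556 (Pf.C 19 98436))
 Pq.nil))))))) (Pq.cons (Pq.L [] 256 (Pf.C 2 642))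
 (Pq.cons (Pq.L [] 32780 (Pf.C 19 82052))
 Pq.nil))))))) (Pq.cons (Pq.D 4 (Pq.cons (Pq.D 5 (Pq.cons (Pq.L [] 529 (Pf.C 19 32902))
 (Pq.cons (Pq.L [] 0x40000 (Pf.C 1 773))
 (Pq.cons (Pq.L [] 529 (Pf.C 19 32902))
 (Pq.cons (Pq.L [] 0x40000 (Pf.C 1 773))
 (Pq.cons (Pq.L [] 529 (Pf.C 16 16646))
 (Pq.cons (Pq.L [0] 0x1c677b (Pf.B 7 0 (Pf.C 0 0x800e18105) (Pf.C 0 0x1030c1c080)))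
 Pq.nil))))))) (Pq.cons (Pq.D 5 (Pq.cons (Pq.L [] 529 (Pf.C 19 32902))
 (Pq.cons (Pq.L [] 0x40000 (Pf.C 1 773))
 (Pq.cons (Pq.L [] 529 (Pf.C 19 32902))
 (Pq.cons (Pq.L [] 0x40000 (Pf.C 1 773))
 (Pq.cons (Pq.L [] 529 (Pf.C 16 16646))
 (Pq.cons (Pq.L [0] 0x1c677b (Pf.B 7 0 (Pf.C 0 0x800e18105) (Pf.C 0 0x1030c1c080)))
 Pq.nil))))))) (Pq.cons (Pq.D 5 (Pq.cons (Pq.L [] 529 (Pf.C 19 32902))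
 (Pq.cons (Pq.L [] 0x40000 (Pf.C 1 773))
 (Pq.cons (Pq.L [] 529 (Pf.C 19 32902))
 (Pq.cons (Pq.L [] 0x40000 (Pf.C 1 773))
 (Pq.cons (Pq.L [] 529 (Pf.C 16 16646))
 (Pq.cons (Pq.L [0] 0x1c677b (Pf.B 7 0 (Pf.C 0 0x800e18105) (Pf.C 0 0x1030c1c080)))
 Pq.nil))))))) (Pq.cons (Pq.D 5 (Pq.cons (Pq.L [] 529 (Pf.C 19 32902))
 (Pq.cons (Pq.L [] 0x40000 (Pf.C 1 773))
 (Pq.cons (Pq.L [] 529 (Pf.C 19 32902))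
 (Pq.cons (Pq.L [] 0x40000 (Pf.C 1 773))
 (Pq.cons (Pq.L [] 529 (Pf.C 16 16646))
 (Pq.cons (Pq.L [0] 0x1c677b (Pf.B 7 0 (Pf.C 0 0x800e18105) (Pf.C 0 0x1030c1c080)))
 Pq.nil))))))) (Pq.cons (Pq.L [] 256 (Pf.C 2 642))
 (Pq.cons (Pq.L [] 256 (Pf.C 2 642))
 Pq.nil))))))) (Pq.cons (Pq.L [] 128 (Pf.C 2 514))
 (Pq.cons (Pq.L [] 128 (Pf.C 2 514))
 Pq.nil))))))) (Pq.cons (Pq.L [] 64 (Pf.C 2 386))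
 (Pq.cons (Pq.L [] 64 (Pf.C 2 386))
 Pq.nil))))))) Pq.nil))))))) Pq.nil)
theorem s1_o73 : AllRef s1_T s1_G85 (List.take 1 (List.drop 3 (List.flatMap (splitP 0) (List.take 1 (applyObl bD_T 3 [162,163,164,165,166,167] [1,1,1,1,2,2] []))))) :=
  chkPq_sound s1_o73c _ (by decide +kernel)
noncomputable def s1_o74c : Pq := (Pq.cons (Pq.D 2 (Pq.cons (Pq.L [] 64 (Pf.C 1 386))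
 (Pq.cons (Pq.L [] 2 (Pf.C 6 385))
 (Pq.cons (Pq.L [] 64 (Pf.C 1 386))
 (Pq.cons (Pq.L [] 64 (Pf.C 1 386))
 (Pq.cons (Pq.L [] 64 (Pf.C 13 259))
 (Pq.cons (Pq.D 3 (Pq.cons (Pq.L [] 128 (Pf.C 1 514))
 (Pq.cons (Pq.L [] 4 (Pf.C 6 513))
 (Pq.cons (Pq.L [] 128 (Pf.C 1 514))
 (Pq.cons (Pq.L [] 2054 (Pf.C 16 65921))
 (Pq.cons (Pq.L [] 128 (Pf.C 13 260))
 (Pq.cons (Pq.D 4 (Pq.cons (Pq.L [] 256 (Pf.C 1 642))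
 (Pq.cons (Pq.L [] 8 (Pf.C 6 641))
 (Pq.cons (Pq.L [] 256 (Pf.C 1 642))
 (Pq.cons (Pq.L [] 4106 (Pf.C 16 82305))
 (Pq.cons (Pq.L [] 256 (Pf.C 13 261))
 (Pq.cons (Pq.D 5 (Pq.cons (Pq.D 6 (Pq.cons (Pq.L [] 0x1c0739 (Pf.C 43 0x10e18105))
 (Pq.cons (Pq.L [] 32 (Pf.C 6 897))
 (Pq.cons (Pq.L [] 0x1c0739 (Pf.C 43 0x10e18105))
 (Pq.cons (Pq.L [] 16418 (Pf.C 16 0x1c181))
 (Pq.cons (Pq.L [] 0x106673 (Pf.C 58 0x60e08181))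
 (Pq.cons (Pq.L [] 0x106673 (Pf.C 58 0x60e08181))
 Pq.nil))))))) (Pq.cons (Pq.L [] 16 (Pf.C 6 769))
 (Pq.cons (Pq.L [] 8768 (Pf.C 29 98563))
 (Pq.cons (Pq.L [] 8210 (Pf.C 16 98689))
 (Pq.cons (Pq.L [] 0x40000 (Pf.C 2 773))
 (Pq.cons (Pq.L [] 0x40000 (Pf.C 2 773))
 Pq.nil))))))) Pq.nil))))))) Pq.nil))))))) Pq.nil))))))) (Pq.cons (Pq.L [] 1 (Pf.C 6 257))
 (Pq.cons (Pq.D 2 (Pq.cons (Pq.L [] 64 (Pf.C 1 386))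
 (Pq.cons (Pq.L [] 2 (Pf.C 6 385))
 (Pq.cons (Pq.L [] 64 (Pf.C 1 386))
 (Pq.cons (Pq.L [] 64 (Pf.C 1 386))
 (Pq.cons (Pq.D 3 (Pq.cons (Pq.L [] 128 (Pf.C 1 514))
 (Pq.cons (Pq.L [] 4 (Pf.C 6 513))
 (Pq.cons (Pq.L [] 128 (Pf.C 1 514))
 (Pq.cons (Pq.L [] 128 (Pf.C 1 514))
 (Pq.cons (Pq.D 4 (Pq.cons (Pq.L [] 256 (Pf.C 1 642))
 (Pq.cons (Pq.L [] 8 (Pf.C 6 641))
 (Pq.cons (Pq.L [] 256 (Pf.C 1 642))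
 (Pq.cons (Pq.L [] 256 (Pf.C 1 642))
 (Pq.cons (Pq.D 5 (Pq.cons (Pq.L [] 0x40000 (Pf.C 13 773))
 (Pq.cons (Pq.L [] 16 (Pf.C 6 769))
 (Pq.cons (Pq.D 6 (Pq.cons (Pq.L [] 0x1c0739 (Pf.C 43 0x10e18105))
 (Pq.cons (Pq.L [] 32 (Pf.C 6 897))
 (Pq.cons (Pq.L [] 0x1c0739 (Pf.C 43 0x10e18105))
 (Pq.cons (Pq.L [] 0x1c0739 (Pf.C 43 0x10e18105))
 (Pq.cons (Pq.L [] 0x106673 (Pf.C 58 0x60e08181))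
 (Pq.cons (Pq.L [] 0x106673 (Pf.C 58 0x60e08181))
 Pq.nil))))))) (Pq.cons (Pq.L [] 8768 (Pf.C 22 98690))
 (Pq.cons (Pq.L [0] 0x43340 (Pf.C 38 0xc14182))
 (Pq.cons (Pq.L [] 8768 (Pf.C 30 98563))
 Pq.nil))))))) (Pq.cons (Pq.D 5 (Pq.cons (Pq.D 6 (Pq.cons (Pq.L [] 0x1c0739 (Pf.C 43 0x10e18105))
 (Pq.cons (Pq.L [] 32 (Pf.C 6 897))
 (Pq.cons (Pq.L [] 0x1c0739 (Pf.C 43 0x10e18105))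
 (Pq.cons (Pq.L [] 0x80028 (Pf.C 16 0x1c281))
 (Pq.cons (Pq.L [] 0x106673 (Pf.C 58 0x60e08181))
 (Pq.cons (Pq.L [] 0x106673 (Pf.C 58 0x60e08181))
 Pq.nil))))))) (Pq.cons (Pq.L [] 16 (Pf.C 6 769))
 (Pq.cons (Pq.D 6 (Pq.cons (Pq.L [] 0x1c0739 (Pf.C 43 0x10e18105))
 (Pq.cons (Pq.L [] 32 (Pf.C 6 897))
 (Pq.cons (Pq.L [] 0x1c0739 (Pf.C 43 0x10e18105))
 (Pq.cons (Pq.L [] 0x80028 (Pf.C 16 0x1c281))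
 (Pq.cons (Pq.L [] 0x106673 (Pf.C 58 0x60e08181))
 (Pq.cons (Pq.L [] 0x106673 (Pf.C 58 0x60e08181))
 Pq.nil))))))) (Pq.cons (Pq.L [] 8768 (Pf.C 22 98690))
 (Pq.cons (Pq.L [] 0x40000 (Pf.C 2 773))
 (Pq.cons (Pq.L [] 8768 (Pf.C 30 98563))
 Pq.nil))))))) Pq.nil))))))) (Pq.cons (Pq.D 4 (Pq.cons (Pq.L [] 256 (Pf.C 1 642))
 (Pq.cons (Pq.L [] 8 (Pf.C 6 641))
 (Pq.cons (Pq.L [] 256 (Pf.C 1 642))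
 (Pq.cons (Pq.L [] 32780 (Pf.C 16 82433))
 (Pq.cons (Pq.D 5 (Pq.cons (Pq.L [] 0x5bbc0 (Pf.C 38 0x40c14182))
 (Pq.cons (Pq.L [] 16 (Pf.C 6 769))
 (Pq.cons (Pq.L [] 0x5bbc0 (Pf.C 38 0x40c14182))
 (Pq.cons (Pq.L [] 65556 (Pf.C 16 98817))
 (Pq.cons (Pq.L [0] 0x43340 (Pf.C 38 0xc14182))
 (Pq.cons (Pq.L [] 8768 (Pf.C 30 98563))
 Pq.nil))))))) (Pq.cons (Pq.D 5 (Pq.cons (Pq.D 6 (Pq.cons (Pq.L [] 0x1c0739 (Pf.C 43 0x10e18105))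
 (Pq.cons (Pq.L [] 32 (Pf.C 6 897))
 (Pq.cons (Pq.L [] 0x1c0739 (Pf.C 43 0x10e18105))
 (Pq.cons (Pq.L [] 0x20024 (Pf.C 16 0x1c201))
 (Pq.cons (Pq.L [] 0x106673 (Pf.C 58 0x60e08181))
 (Pq.cons (Pq.L [] 0x106673 (Pf.C 58 0x60e08181))
 Pq.nil))))))) (Pq.cons (Pq.L [] 16 (Pf.C 6 769))
 (Pq.cons (Pq.D 6 (Pq.cons (Pq.L [] 0x1c0739 (Pf.C 43 0x10e18105))
 (Pq.cons (Pq.L [] 32 (Pf.C 6 897))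
 (Pq.cons (Pq.L [] 0x1c0739 (Pf.C 43 0x10e18105))
 (Pq.cons (Pq.L [] 0x20024 (Pf.C 16 0x1c201))
 (Pq.cons (Pq.L [] 0x106673 (Pf.C 58 0x60e08181))
 (Pq.cons (Pq.L [] 0x106673 (Pf.C 58 0x60e08181))
 Pq.nil))))))) (Pq.cons (Pq.L [] 65556 (Pf.C 16 98817))
 (Pq.cons (Pq.L [] 0x40000 (Pf.C 2 773))
 (Pq.cons (Pq.L [] 8768 (Pf.C 30 98563))
 Pq.nil))))))) Pq.nil))))))) Pq.nil))))))) (Pq.cons (Pq.D 3 (Pq.cons (Pq.L [] 128 (Pf.C 1 514))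
 (Pq.cons (Pq.L [] 4 (Pf.C 6 513))
 (Pq.cons (Pq.L [] 128 (Pf.C 1 514))
 (Pq.cons (Pq.L [] 2054 (Pf.C 16 65921))
 (Pq.cons (Pq.D 4 (Pq.cons (Pq.L [] 256 (Pf.C 1 642))
 (Pq.cons (Pq.L [] 8 (Pf.C 6 641))
 (Pq.cons (Pq.L [] 256 (Pf.C 1 642))
 (Pq.cons (Pq.L [] 4106 (Pf.C 16 82305))
 (Pq.cons (Pq.D 5 (Pq.cons (Pq.L [] 0x5bbc0 (Pf.C 38 0x30c14202))
 (Pq.cons (Pq.L [] 16 (Pf.C 6 769))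
 (Pq.cons (Pq.L [] 0x5bbc0 (Pf.C 38 0x30c14202))
 (Pq.cons (Pq.L [] 8210 (Pf.C 16 98689))
 (Pq.cons (Pq.L [0] 0x58380 (Pf.C 38 0xc14202))
 (Pq.cons (Pq.L [] 66176 (Pf.C 30 98564))
 Pq.nil))))))) (Pq.cons (Pq.D 5 (Pq.cons (Pq.D 6 (Pq.cons (Pq.L [] 0x1c0739 (Pf.C 43 0x10e18105))
 (Pq.cons (Pq.L [] 32 (Pf.C 6 897))
 (Pq.cons (Pq.L [] 0x1c0739 (Pf.C 43 0x10e18105))
 (Pq.cons (Pq.L [] 16418 (Pf.C 16 0x1c181))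
 (Pq.cons (Pq.L [] 0x106673 (Pf.C 58 0x60e08181))
 (Pq.cons (Pq.L [] 0x106673 (Pf.C 58 0x60e08181))
 Pq.nil))))))) (Pq.cons (Pq.L [] 16 (Pf.C 6 769))
 (Pq.cons (Pq.D 6 (Pq.cons (Pq.L [] 0x1c0739 (Pf.C 43 0x10e18105))
 (Pq.cons (Pq.L [] 32 (Pf.C 6 897))
 (Pq.cons (Pq.L [] 0x1c0739 (Pf.C 43 0x10e18105))
 (Pq.cons (Pq.L [] 16418 (Pf.C 16 0x1c181))
 (Pq.cons (Pq.L [] 0x106673 (Pf.C 58 0x60e08181))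
 (Pq.cons (Pq.L [] 0x106673 (Pf.C 58 0x60e08181))
 Pq.nil))))))) (Pq.cons (Pq.L [] 8210 (Pf.C 16 98689))
 (Pq.cons (Pq.L [] 0x40000 (Pf.C 2 773))
 (Pq.cons (Pq.L [] 66176 (Pf.C 30 98564))
 Pq.nil))))))) Pq.nil))))))) (Pq.cons (Pq.D 4 (Pq.cons (Pq.L [] 256 (Pf.C 1 642))
 (Pq.cons (Pq.L [] 8 (Pf.C 6 641))
 (Pq.cons (Pq.L [] 256 (Pf.C 1 642))
 (Pq.cons (Pq.L [] 4106 (Pf.C 16 82305))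
 (Pq.cons (Pq.D 5 (Pq.cons (Pq.L [] 0x43000 (Pf.C 30 49925))
 (Pq.cons (Pq.L [] 16 (Pf.C 6 769))
 (Pq.cons (Pq.L [] 0x43000 (Pf.C 30 49925))
 (Pq.cons (Pq.L [] 8210 (Pf.C 16 98689))
 (Pq.cons (Pq.L [] 0x40000 (Pf.C 2 773))
 (Pq.cons (Pq.L [] 0x40000 (Pf.C 2 773))
 Pq.nil))))))) (Pq.cons (Pq.D 5 (Pq.cons (Pq.D 6 (Pq.cons (Pq.L [] 0x1c0739 (Pf.C 43 0x10e18105))
 (Pq.cons (Pq.L [] 32 (Pf.C 6 897))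
 (Pq.cons (Pq.L [] 0x1c0739 (Pf.C 43 0x10e18105))
 (Pq.cons (Pq.L [] 16418 (Pf.C 16 0x1c181))
 (Pq.cons (Pq.L [] 0x106673 (Pf.C 58 0x60e08181))
 (Pq.cons (Pq.L [] 0x106673 (Pf.C 58 0x60e08181))
 Pq.nil))))))) (Pq.cons (Pq.L [] 16 (Pf.C 6 769))
 (Pq.cons (Pq.D 6 (Pq.cons (Pq.L [] 0x1c0739 (Pf.C 43 0x10e18105))
 (Pq.cons (Pq.L [] 32 (Pf.C 6 897))
 (Pq.cons (Pq.L [] 0x1c0739 (Pf.C 43 0x10e18105))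
 (Pq.cons (Pq.L [] 16418 (Pf.C 16 0x1c181))
 (Pq.cons (Pq.L [] 0x106673 (Pf.C 58 0x60e08181))
 (Pq.cons (Pq.L [] 0x106673 (Pf.C 58 0x60e08181))
 Pq.nil))))))) (Pq.cons (Pq.L [] 8210 (Pf.C 16 98689))
 (Pq.cons (Pq.L [] 0x40000 (Pf.C 2 773))
 (Pq.cons (Pq.L [] 0x40000 (Pf.C 2 773))
 Pq.nil))))))) Pq.nil))))))) Pq.nil))))))) Pq.nil))))))) (Pq.cons (Pq.D 2 (Pq.cons (Pq.L [] 64 (Pf.C 1 386))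
 (Pq.cons (Pq.L [] 2 (Pf.C 6 385))
 (Pq.cons (Pq.L [] 64 (Pf.C 1 386))
 (Pq.cons (Pq.L [] 64 (Pf.C 1 386))
 (Pq.cons (Pq.D 3 (Pq.cons (Pq.L [] 128 (Pf.C 1 514))
 (Pq.cons (Pq.L [] 4 (Pf.C 6 513))
 (Pq.cons (Pq.L [] 128 (Pf.C 1 514))
 (Pq.cons (Pq.L [] 128 (Pf.C 1 514))
 (Pq.cons (Pq.D 4 (Pq.cons (Pq.L [] 256 (Pf.C 1 642))
 (Pq.cons (Pq.L [] 8 (Pf.C 6 641))
 (Pq.cons (Pq.L [] 256 (Pf.C 1 642))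
 (Pq.cons (Pq.L [] 256 (Pf.C 1 642))
 (Pq.cons (Pq.D 5 (Pq.cons (Pq.L [] 0x40000 (Pf.C 13 773))
 (Pq.cons (Pq.L [] 16 (Pf.C 6 769))
 (Pq.cons (Pq.D 6 (Pq.cons (Pq.L [] 0x1c0739 (Pf.C 43 0x10e18105))
 (Pq.cons (Pq.L [] 32 (Pf.C 6 897))
 (Pq.cons (Pq.L [] 0x1c0739 (Pf.C 43 0x10e18105))
 (Pq.cons (Pq.L [] 0x1c0739 (Pf.C 43 0x10e18105))
 (Pq.cons (Pq.L [] 0x106673 (Pf.C 58 0x60e08181))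
 (Pq.cons (Pq.L [] 1057 (Pf.C 16 33665))
 Pq.nil))))))) (Pq.cons (Pq.D 6 (Pq.cons (Pq.L [] 0x1c0739 (Pf.C 43 0x10e18105))
 (Pq.cons (Pq.L [] 32 (Pf.C 6 897))
 (Pq.cons (Pq.L [] 0x1c0739 (Pf.C 43 0x10e18105))
 (Pq.cons (Pq.L [] 0x1c0739 (Pf.C 43 0x10e18105))
 (Pq.cons (Pq.L [] 0x106673 (Pf.C 58 0x60e08181))
 (Pq.cons (Pq.L [] 1057 (Pf.C 16 33665))
 Pq.nil))))))) (Pq.cons (Pq.L [0] 0x43340 (Pf.C 38 0xc14182))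
 (Pq.cons (Pq.L [] 529 (Pf.C 16 33537))
 Pq.nil))))))) (Pq.cons (Pq.D 5 (Pq.cons (Pq.D 6 (Pq.cons (Pq.L [] 0x1c0739 (Pf.C 43 0x10e18105))
 (Pq.cons (Pq.L [] 32 (Pf.C 6 897))
 (Pq.cons (Pq.L [] 0x1c0739 (Pf.C 43 0x10e18105))
 (Pq.cons (Pq.L [] 0x80028 (Pf.C 16 0x1c281))
 (Pq.cons (Pq.L [] 0x106673 (Pf.C 58 0x60e08181))
 (Pq.cons (Pq.L [] 1057 (Pf.C 16 33665))
 Pq.nil))))))) (Pq.cons (Pq.L [] 16 (Pf.C 6 769))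
 (Pq.cons (Pq.D 6 (Pq.cons (Pq.L [] 0x1c0739 (Pf.C 43 0x10e18105))
 (Pq.cons (Pq.L [] 32 (Pf.C 6 897))
 (Pq.cons (Pq.L [] 0x1c0739 (Pf.C 43 0x10e18105))
 (Pq.cons (Pq.L [] 0x80028 (Pf.C 16 0x1c281))
 (Pq.cons (Pq.L [] 0x106673 (Pf.C 58 0x60e08181))
 (Pq.cons (Pq.L [] 1057 (Pf.C 16 33665))
 Pq.nil))))))) (Pq.cons (Pq.D 6 (Pq.cons (Pq.L [] 0x1c0739 (Pf.C 43 0x10e18105))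
 (Pq.cons (Pq.L [] 32 (Pf.C 6 897))
 (Pq.cons (Pq.L [] 0x1c0739 (Pf.C 43 0x10e18105))
 (Pq.cons (Pq.L [] 0x80028 (Pf.C 16 0x1c281))
 (Pq.cons (Pq.L [] 0x106673 (Pf.C 58 0x60e08181))
 (Pq.cons (Pq.L [] 1057 (Pf.C 16 33665))
 Pq.nil))))))) (Pq.cons (Pq.L [] 0x40000 (Pf.C 2 773))
 (Pq.cons (Pq.L [] 529 (Pf.C 16 33537))
 Pq.nil))))))) Pq.nil))))))) (Pq.cons (Pq.D 4 (Pq.cons (Pq.L [] 256 (Pf.C 1 642))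
 (Pq.cons (Pq.L [] 8 (Pf.C 6 641))
 (Pq.cons (Pq.L [] 256 (Pf.C 1 642))
 (Pq.cons (Pq.L [] 32780 (Pf.C 16 82433))
 (Pq.cons (Pq.D 5 (Pq.cons (Pq.L [] 0x5bbc0 (Pf.C 38 0x40c14182))
 (Pq.cons (Pq.L [] 16 (Pf.C 6 769))
 (Pq.cons (Pq.L [] 0x5bbc0 (Pf.C 38 0x40c14182))
 (Pq.cons (Pq.L [] 65556 (Pf.C 16 98817))
 (Pq.cons (Pq.L [0] 0x43340 (Pf.C 38 0xc14182))
 (Pq.cons (Pq.L [] 529 (Pf.C 16 33537))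
 Pq.nil))))))) (Pq.cons (Pq.D 5 (Pq.cons (Pq.D 6 (Pq.cons (Pq.L [] 0x1c0739 (Pf.C 43 0x10e18105))
 (Pq.cons (Pq.L [] 32 (Pf.C 6 897))
 (Pq.cons (Pq.L [] 0x1c0739 (Pf.C 43 0x10e18105))
 (Pq.cons (Pq.L [] 0x20024 (Pf.C 16 0x1c201))
 (Pq.cons (Pq.L [] 0x106673 (Pf.C 58 0x60e08181))
 (Pq.cons (Pq.L [] 1057 (Pf.C 16 33665))
 Pq.nil))))))) (Pq.cons (Pq.L [] 16 (Pf.C 6 769))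
 (Pq.cons (Pq.D 6 (Pq.cons (Pq.L [] 0x1c0739 (Pf.C 43 0x10e18105))
 (Pq.cons (Pq.L [] 32 (Pf.C 6 897))
 (Pq.cons (Pq.L [] 0x1c0739 (Pf.C 43 0x10e18105))
 (Pq.cons (Pq.L [] 0x20024 (Pf.C 16 0x1c201))
 (Pq.cons (Pq.L [] 0x106673 (Pf.C 58 0x60e08181))
 (Pq.cons (Pq.L [] 1057 (Pf.C 16 33665))
 Pq.nil))))))) (Pq.cons (Pq.L [] 65556 (Pf.C 16 98817))
 (Pq.cons (Pq.L [] 0x40000 (Pf.C 2 773))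
 (Pq.cons (Pq.L [] 529 (Pf.C 16 33537))
 Pq.nil))))))) Pq.nil))))))) Pq.nil))))))) (Pq.cons (Pq.D 3 (Pq.cons (Pq.L [] 128 (Pf.C 1 514))
 (Pq.cons (Pq.L [] 4 (Pf.C 6 513))
 (Pq.cons (Pq.L [] 128 (Pf.C 1 514))
 (Pq.cons (Pq.L [] 2054 (Pf.C 16 65921))
 (Pq.cons (Pq.D 4 (Pq.cons (Pq.L [] 256 (Pf.C 1 642))
 (Pq.cons (Pq.L [] 8 (Pf.C 6 641))
 (Pq.cons (Pq.L [] 256 (Pf.C 1 642))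
 (Pq.cons (Pq.L [] 4106 (Pf.C 16 82305))
 (Pq.cons (Pq.D 5 (Pq.cons (Pq.L [] 0x5bbc0 (Pf.C 38 0x30c14202))
 (Pq.cons (Pq.L [] 16 (Pf.C 6 769))
 (Pq.cons (Pq.L [] 0x5bbc0 (Pf.C 38 0x30c14202))
 (Pq.cons (Pq.L [] 8210 (Pf.C 16 98689))
 (Pq.cons (Pq.L [0] 0x58380 (Pf.C 38 0xc14202))
 (Pq.cons (Pq.L [] 529 (Pf.C 16 33537))
 Pq.nil))))))) (Pq.cons (Pq.D 5 (Pq.cons (Pq.D 6 (Pq.cons (Pq.L [] 0x1c0739 (Pf.C 43 0x10e18105))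
 (Pq.cons (Pq.L [] 32 (Pf.C 6 897))
 (Pq.cons (Pq.L [] 0x1c0739 (Pf.C 43 0x10e18105))
 (Pq.cons (Pq.L [] 16418 (Pf.C 16 0x1c181))
 (Pq.cons (Pq.L [] 0x106673 (Pf.C 58 0x60e08181))
 (Pq.cons (Pq.L [] 1057 (Pf.C 16 33665))
 Pq.nil))))))) (Pq.cons (Pq.L [] 16 (Pf.C 6 769))
 (Pq.cons (Pq.D 6 (Pq.cons (Pq.L [] 0x1c0739 (Pf.C 43 0x10e18105))
 (Pq.cons (Pq.L [] 32 (Pf.C 6 897))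
 (Pq.cons (Pq.L [] 0x1c0739 (Pf.C 43 0x10e18105))
 (Pq.cons (Pq.L [] 16418 (Pf.C 16 0x1c181))
 (Pq.cons (Pq.L [] 0x106673 (Pf.C 58 0x60e08181))
 (Pq.cons (Pq.L [] 1057 (Pf.C 16 33665))
 Pq.nil))))))) (Pq.cons (Pq.L [] 8210 (Pf.C 16 98689))
 (Pq.cons (Pq.L [] 0x40000 (Pf.C 2 773))
 (Pq.cons (Pq.L [] 529 (Pf.C 16 33537))
 Pq.nil))))))) Pq.nil))))))) (Pq.cons (Pq.D 4 (Pq.cons (Pq.L [] 256 (Pf.C 1 642))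
 (Pq.cons (Pq.L [] 8 (Pf.C 6 641))
 (Pq.cons (Pq.L [] 256 (Pf.C 1 642))
 (Pq.cons (Pq.L [] 4106 (Pf.C 16 82305))
 (Pq.cons (Pq.D 5 (Pq.cons (Pq.L [] 0x43000 (Pf.C 30 49925))
 (Pq.cons (Pq.L [] 16 (Pf.C 6 769))
 (Pq.cons (Pq.L [] 0x43000 (Pf.C 30 49925))
 (Pq.cons (Pq.L [] 8210 (Pf.C 16 98689))
 (Pq.cons (Pq.L [] 0x40000 (Pf.C 2 773))
 (Pq.cons (Pq.L [] 529 (Pf.C 16 33537))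
 Pq.nil))))))) (Pq.cons (Pq.D 5 (Pq.cons (Pq.D 6 (Pq.cons (Pq.L [] 0x1c0739 (Pf.C 43 0x10e18105))
 (Pq.cons (Pq.L [] 32 (Pf.C 6 897))
 (Pq.cons (Pq.L [] 0x1c0739 (Pf.C 43 0x10e18105))
 (Pq.cons (Pq.L [] 16418 (Pf.C 16 0x1c181))
 (Pq.cons (Pq.L [] 0x106673 (Pf.C 58 0x60e08181))
 (Pq.cons (Pq.L [] 1057 (Pf.C 16 33665))
 Pq.nil))))))) (Pq.cons (Pq.L [] 16 (Pf.C 6 769))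
 (Pq.cons (Pq.D 6 (Pq.cons (Pq.L [] 0x1c0739 (Pf.C 43 0x10e18105))
 (Pq.cons (Pq.L [] 32 (Pf.C 6 897))
 (Pq.cons (Pq.L [] 0x1c0739 (Pf.C 43 0x10e18105))
 (Pq.cons (Pq.L [] 16418 (Pf.C 16 0x1c181))
 (Pq.cons (Pq.L [] 0x106673 (Pf.C 58 0x60e08181))
 (Pq.cons (Pq.L [] 1057 (Pf.C 16 33665))
 Pq.nil))))))) (Pq.cons (Pq.L [] 8210 (Pf.C 16 98689))
 (Pq.cons (Pq.L [] 0x40000 (Pf.C 2 773))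
 (Pq.cons (Pq.L [] 529 (Pf.C 16 33537))
 Pq.nil))))))) Pq.nil))))))) Pq.nil))))))) Pq.nil))))))) Pq.nil))))
theorem s1_o74 : AllRef s1_T s1_G85 (List.take 4 (List.flatMap (splitP 1) (List.take 1 (List.drop 1 (List.drop 3 (List.flatMap (splitP 0) (List.take 1 (applyObl bD_T 3 [162,163,164,165,166,167] [1,1,1,1,2,2] [])))))))) :=
  chkPq_sound s1_o74c _ (by decide +kernel)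
noncomputable def s1_o75c : Pq := (Pq.cons (Pq.D 2 (Pq.cons (Pq.L [] 64 (Pf.C 13 386))
 (Pq.cons (Pq.L [] 2 (Pf.C 6 385))
 (Pq.cons (Pq.D 3 (Pq.cons (Pq.L [] 128 (Pf.C 13 514))
 (Pq.cons (Pq.L [] 4 (Pf.C 6 513))
 (Pq.cons (Pq.D 4 (Pq.cons (Pq.L [] 256 (Pf.C 13 642))
 (Pq.cons (Pq.L [] 8 (Pf.C 6 641))
 (Pq.cons (Pq.D 5 (Pq.cons (Pq.L [] 0x4335b (Pf.C 43 0x10c14182))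
 (Pq.cons (Pq.L [] 16 (Pf.C 6 769))
 (Pq.cons (Pq.L [] 0x4335b (Pf.C 43 0x10c14182))
 (Pq.cons (Pq.L [] 0x4335b (Pf.C 43 0x10c14182))
 (Pq.cons (Pq.D 6 (Pq.cons (Pq.L [] 0x106673 (Pf.C 58 0x70c0c101))
 (Pq.cons (Pq.L [] 32 (Pf.C 6 897))
 (Pq.cons (Pq.L [] 0x106673 (Pf.C 58 0x70c0c101))
 (Pq.cons (Pq.L [] 0x106673 (Pf.C 58 0x70c0c101))
 (Pq.cons (Pq.L [0] 0x1c0700 (Pf.C 38 0xe18105))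
 (Pq.cons (Pq.L [] 17472 (Pf.C 30 0x1c182))
 Pq.nil))))))) (Pq.cons (Pq.L [] 8768 (Pf.C 30 98690))
 Pq.nil))))))) (Pq.cons (Pq.D 5 (Pq.cons (Pq.L [] 0x4335b (Pf.C 43 0x10c14182))
 (Pq.cons (Pq.L [] 16 (Pf.C 6 769))
 (Pq.cons (Pq.L [] 0x4335b (Pf.C 43 0x10c14182))
 (Pq.cons (Pq.L [] 0x4335b (Pf.C 43 0x10c14182))
 (Pq.cons (Pq.D 6 (Pq.cons (Pq.L [] 0x106673 (Pf.C 58 0x70c0c101))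
 (Pq.cons (Pq.L [] 32 (Pf.C 6 897))
 (Pq.cons (Pq.L [] 0x106673 (Pf.C 58 0x70c0c101))
 (Pq.cons (Pq.L [] 0x106673 (Pf.C 58 0x70c0c101))
 (Pq.cons (Pq.L [0] 0x1c0700 (Pf.C 38 0xe18105))
 (Pq.cons (Pq.L [] 0x80028 (Pf.C 16 82817))
 Pq.nil))))))) (Pq.cons (Pq.L [] 8768 (Pf.C 30 98690))
 Pq.nil))))))) (Pq.cons (Pq.L [] 256 (Pf.C 2 642))
 (Pq.cons (Pq.L [] 256 (Pf.C 2 642))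
 Pq.nil))))))) (Pq.cons (Pq.D 4 (Pq.cons (Pq.L [] 256 (Pf.C 13 642))
 (Pq.cons (Pq.L [] 8 (Pf.C 6 641))
 (Pq.cons (Pq.D 5 (Pq.cons (Pq.L [] 0x4335b (Pf.C 43 0x10c14182))
 (Pq.cons (Pq.L [] 16 (Pf.C 6 769))
 (Pq.cons (Pq.L [] 0x4335b (Pf.C 43 0x10c14182))
 (Pq.cons (Pq.L [] 0x4335b (Pf.C 43 0x10c14182))
 (Pq.cons (Pq.L [] 0x5bbc0 (Pf.C 55 0x40c14182))
 (Pq.cons (Pq.L [] 65556 (Pf.C 16 66305))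
 Pq.nil))))))) (Pq.cons (Pq.D 5 (Pq.cons (Pq.L [] 0x4335b (Pf.C 43 0x10c14182))
 (Pq.cons (Pq.L [] 16 (Pf.C 6 769))
 (Pq.cons (Pq.L [] 0x4335b (Pf.C 43 0x10c14182))
 (Pq.cons (Pq.L [] 0x4335b (Pf.C 43 0x10c14182))
 (Pq.cons (Pq.D 6 (Pq.cons (Pq.L [] 0x106673 (Pf.C 58 0x70c0c101))
 (Pq.cons (Pq.L [] 32 (Pf.C 6 897))
 (Pq.cons (Pq.L [] 0x106673 (Pf.C 58 0x70c0c101))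
 (Pq.cons (Pq.L [] 0x106673 (Pf.C 58 0x70c0c101))
 (Pq.cons (Pq.L [0] 0x1c0700 (Pf.C 38 0xe18105))
 (Pq.cons (Pq.L [] 0x20024 (Pf.C 16 66433))
 Pq.nil))))))) (Pq.cons (Pq.L [] 65556 (Pf.C 16 66305))
 Pq.nil))))))) (Pq.cons (Pq.L [] 256 (Pf.C 2 642))
 (Pq.cons (Pq.L [] 32780 (Pf.C 16 66177))
 Pq.nil))))))) (Pq.cons (Pq.L [] 128 (Pf.C 2 514))
 (Pq.cons (Pq.L [] 128 (Pf.C 2 514))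
 Pq.nil))))))) (Pq.cons (Pq.D 3 (Pq.cons (Pq.L [] 128 (Pf.C 13 514))
 (Pq.cons (Pq.L [] 4 (Pf.C 6 513))
 (Pq.cons (Pq.D 4 (Pq.cons (Pq.L [] 256 (Pf.C 13 642))
 (Pq.cons (Pq.L [] 8 (Pf.C 6 641))
 (Pq.cons (Pq.D 5 (Pq.cons (Pq.L [] 0x4335b (Pf.C 43 0x10c14182))
 (Pq.cons (Pq.L [] 16 (Pf.C 6 769))
 (Pq.cons (Pq.L [] 0x4335b (Pf.C 43 0x10c14182))
 (Pq.cons (Pq.L [] 0x4335b (Pf.C 43 0x10c14182))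
 (Pq.cons (Pq.L [] 0x5bbc0 (Pf.C 55 0x30c14202))
 (Pq.cons (Pq.L [] 8210 (Pf.C 16 49921))
 Pq.nil))))))) (Pq.cons (Pq.D 5 (Pq.cons (Pq.L [] 0x4335b (Pf.C 43 0x10c14182))
 (Pq.cons (Pq.L [] 16 (Pf.C 6 769))
 (Pq.cons (Pq.L [] 0x4335b (Pf.C 43 0x10c14182))
 (Pq.cons (Pq.L [] 0x4335b (Pf.C 43 0x10c14182))
 (Pq.cons (Pq.D 6 (Pq.cons (Pq.L [] 0x106673 (Pf.C 58 0x70c0c101))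
 (Pq.cons (Pq.L [] 32 (Pf.C 6 897))
 (Pq.cons (Pq.L [] 0x106673 (Pf.C 58 0x70c0c101))
 (Pq.cons (Pq.L [] 0x106673 (Pf.C 58 0x70c0c101))
 (Pq.cons (Pq.L [0] 0x1c0700 (Pf.C 38 0xe18105))
 (Pq.cons (Pq.L [] 16418 (Pf.C 16 50049))
 Pq.nil))))))) (Pq.cons (Pq.L [] 8210 (Pf.C 16 49921))
 Pq.nil))))))) (Pq.cons (Pq.L [] 256 (Pf.C 2 642))
 (Pq.cons (Pq.L [] 4106 (Pf.C 16 49793))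
 Pq.nil))))))) (Pq.cons (Pq.D 4 (Pq.cons (Pq.L [] 256 (Pf.C 13 642))
 (Pq.cons (Pq.L [] 8 (Pf.C 6 641))
 (Pq.cons (Pq.D 5 (Pq.cons (Pq.L [] 0x4335b (Pf.C 43 0x10c14182))
 (Pq.cons (Pq.L [] 16 (Pf.C 6 769))
 (Pq.cons (Pq.L [] 0x4335b (Pf.C 43 0x10c14182))
 (Pq.cons (Pq.L [] 0x4335b (Pf.C 43 0x10c14182))
 (Pq.cons (Pq.L [] 0x43000 (Pf.C 22 49925))
 (Pq.cons (Pq.L [] 8210 (Pf.C 16 49921))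
 Pq.nil))))))) (Pq.cons (Pq.D 5 (Pq.cons (Pq.L [] 0x4335b (Pf.C 43 0x10c14182))
 (Pq.cons (Pq.L [] 16 (Pf.C 6 769))
 (Pq.cons (Pq.L [] 0x4335b (Pf.C 43 0x10c14182))
 (Pq.cons (Pq.L [] 0x4335b (Pf.C 43 0x10c14182))
 (Pq.cons (Pq.D 6 (Pq.cons (Pq.L [] 0x106673 (Pf.C 58 0x70c0c101))
 (Pq.cons (Pq.L [] 32 (Pf.C 6 897))
 (Pq.cons (Pq.L [] 0x106673 (Pf.C 58 0x70c0c101))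
 (Pq.cons (Pq.L [] 0x106673 (Pf.C 58 0x70c0c101))
 (Pq.cons (Pq.L [0] 0x1c0700 (Pf.C 38 0xe18105))
 (Pq.cons (Pq.L [] 16418 (Pf.C 16 50049))
 Pq.nil))))))) (Pq.cons (Pq.L [] 8210 (Pf.C 16 49921))
 Pq.nil))))))) (Pq.cons (Pq.L [] 256 (Pf.C 2 642))
 (Pq.cons (Pq.L [] 4106 (Pf.C 16 49793))
 Pq.nil))))))) (Pq.cons (Pq.L [] 128 (Pf.C 2 514))
 (Pq.cons (Pq.L [] 2054 (Pf.C 16 49665))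
 Pq.nil))))))) (Pq.cons (Pq.L [] 64 (Pf.C 2 386))
 (Pq.cons (Pq.L [] 64 (Pf.C 2 386))
 Pq.nil))))))) (Pq.cons (Pq.D 2 (Pq.cons (Pq.D 3 (Pq.cons (Pq.D 4 (Pq.cons (Pq.D 5 (Pq.cons (Pq.L [] 0x4335b (Pf.C 43 0x10c14182))
 (Pq.cons (Pq.L [] 16 (Pf.C 6 769))
 (Pq.cons (Pq.L [] 0x4335b (Pf.C 43 0x10c14182))
 (Pq.cons (Pq.L [] 529 (Pf.C 16 98561))
 (Pq.cons (Pq.L [] 0x40000 (Pf.C 13 646))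
 (Pq.cons (Pq.D 6 (Pq.cons (Pq.L [] 0x106673 (Pf.C 58 0x70c0c101))
 (Pq.cons (Pq.L [] 32 (Pf.C 6 897))
 (Pq.cons (Pq.L [] 0x106673 (Pf.C 58 0x70c0c101))
 (Pq.cons (Pq.L [] 1057 (Pf.C 16 0x1c101))
 (Pq.cons (Pq.L [] 0x106640 (Pf.C 35 0xe18182))
 (Pq.cons (Pq.L [] 0x100000 (Pf.C 2 902))
 Pq.nil))))))) Pq.nil))))))) (Pq.cons (Pq.L [] 8 (Pf.C 6 641))
 (Pq.cons (Pq.D 5 (Pq.cons (Pq.L [] 0x4335b (Pf.C 43 0x10c14182))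
 (Pq.cons (Pq.L [] 16 (Pf.C 6 769))
 (Pq.cons (Pq.L [] 0x4335b (Pf.C 43 0x10c14182))
 (Pq.cons (Pq.L [] 529 (Pf.C 16 98561))
 (Pq.cons (Pq.D 6 (Pq.cons (Pq.L [] 0x106673 (Pf.C 58 0x70c0c101))
 (Pq.cons (Pq.L [] 32 (Pf.C 6 897))
 (Pq.cons (Pq.L [] 0x106673 (Pf.C 58 0x70c0c101))
 (Pq.cons (Pq.L [] 1057 (Pf.C 16 0x1c101))
 (Pq.cons (Pq.L [] 0x1c7740 (Pf.C 49 0x70c0c105))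
 (Pq.cons (Pq.L [] 0x106640 (Pf.C 35 0xc1c182))
 Pq.nil))))))) (Pq.cons (Pq.D 6 (Pq.cons (Pq.L [] 0x106673 (Pf.C 58 0x70c0c101))
 (Pq.cons (Pq.L [] 32 (Pf.C 6 897))
 (Pq.cons (Pq.L [] 0x106673 (Pf.C 58 0x70c0c101))
 (Pq.cons (Pq.L [] 1057 (Pf.C 16 0x1c101))
 (Pq.cons (Pq.L [] 0x106640 (Pf.C 35 0xe18182))
 (Pq.cons (Pq.L [] 0x1c7740 (Pf.C 49 0x70c0c105))
 Pq.nil))))))) Pq.nil))))))) (Pq.cons (Pq.D 5 (Pq.cons (Pq.L [] 0x4335b (Pf.C 43 0x10c14182))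
 (Pq.cons (Pq.L [] 16 (Pf.C 6 769))
 (Pq.cons (Pq.L [] 0x4335b (Pf.C 43 0x10c14182))
 (Pq.cons (Pq.L [] 529 (Pf.C 16 98561))
 (Pq.cons (Pq.D 6 (Pq.cons (Pq.L [] 0x106673 (Pf.C 58 0x70c0c101))
 (Pq.cons (Pq.L [] 32 (Pf.C 6 897))
 (Pq.cons (Pq.L [] 0x106673 (Pf.C 58 0x70c0c101))
 (Pq.cons (Pq.L [] 1057 (Pf.C 16 0x1c101))
 (Pq.cons (Pq.L [] 0x1c7740 (Pf.C 49 0x70c0c105))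
 (Pq.cons (Pq.L [] 0x80028 (Pf.C 16 82817))
 Pq.nil))))))) (Pq.cons (Pq.D 6 (Pq.cons (Pq.L [] 0x106673 (Pf.C 58 0x70c0c101))
 (Pq.cons (Pq.L [] 32 (Pf.C 6 897))
 (Pq.cons (Pq.L [] 0x106673 (Pf.C 58 0x70c0c101))
 (Pq.cons (Pq.L [] 1057 (Pf.C 16 0x1c101))
 (Pq.cons (Pq.L [] 0x106640 (Pf.C 35 0xe18182))
 (Pq.cons (Pq.L [] 0x80028 (Pf.C 16 82817))
 Pq.nil))))))) Pq.nil))))))) (Pq.cons (Pq.L [] 256 (Pf.C 2 642))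
 (Pq.cons (Pq.L [] 256 (Pf.C 2 642))
 Pq.nil))))))) (Pq.cons (Pq.L [] 4 (Pf.C 6 513))
 (Pq.cons (Pq.D 4 (Pq.cons (Pq.D 5 (Pq.cons (Pq.L [] 0x4335b (Pf.C 43 0x10c14182))
 (Pq.cons (Pq.L [] 16 (Pf.C 6 769))
 (Pq.cons (Pq.L [] 0x4335b (Pf.C 43 0x10c14182))
 (Pq.cons (Pq.L [] 529 (Pf.C 16 98561))
 (Pq.cons (Pq.L [] 0x5bbc0 (Pf.C 46 0x40c14182))
 (Pq.cons (Pq.L [] 0x5bbc0 (Pf.C 46 0x40c14182))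
 Pq.nil))))))) (Pq.cons (Pq.L [] 8 (Pf.C 6 641))
 (Pq.cons (Pq.D 5 (Pq.cons (Pq.L [] 0x4335b (Pf.C 43 0x10c14182))
 (Pq.cons (Pq.L [] 16 (Pf.C 6 769))
 (Pq.cons (Pq.L [] 0x4335b (Pf.C 43 0x10c14182))
 (Pq.cons (Pq.L [] 529 (Pf.C 16 98561))
 (Pq.cons (Pq.D 6 (Pq.cons (Pq.L [] 0x106673 (Pf.C 58 0x70c0c101))
 (Pq.cons (Pq.L [] 32 (Pf.C 6 897))
 (Pq.cons (Pq.L [] 0x106673 (Pf.C 58 0x70c0c101))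
 (Pq.cons (Pq.L [] 1057 (Pf.C 16 0x1c101))
 (Pq.cons (Pq.L [] 0x1c7740 (Pf.C 49 0x70c0c105))
 (Pq.cons (Pq.L [] 0x106640 (Pf.C 35 0xc1c182))
 Pq.nil))))))) (Pq.cons (Pq.D 6 (Pq.cons (Pq.L [] 0x106673 (Pf.C 58 0x70c0c101))
 (Pq.cons (Pq.L [] 32 (Pf.C 6 897))
 (Pq.cons (Pq.L [] 0x106673 (Pf.C 58 0x70c0c101))
 (Pq.cons (Pq.L [] 1057 (Pf.C 16 0x1c101))
 (Pq.cons (Pq.L [] 0x106640 (Pf.C 35 0xe18182))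
 (Pq.cons (Pq.L [] 0x1c7740 (Pf.C 49 0x70c0c105))
 Pq.nil))))))) Pq.nil))))))) (Pq.cons (Pq.D 5 (Pq.cons (Pq.L [] 0x4335b (Pf.C 43 0x10c14182))
 (Pq.cons (Pq.L [] 16 (Pf.C 6 769))
 (Pq.cons (Pq.L [] 0x4335b (Pf.C 43 0x10c14182))
 (Pq.cons (Pq.L [] 529 (Pf.C 16 98561))
 (Pq.cons (Pq.D 6 (Pq.cons (Pq.L [] 0x106673 (Pf.C 58 0x70c0c101))
 (Pq.cons (Pq.L [] 32 (Pf.C 6 897))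
 (Pq.cons (Pq.L [] 0x106673 (Pf.C 58 0x70c0c101))
 (Pq.cons (Pq.L [] 1057 (Pf.C 16 0x1c101))
 (Pq.cons (Pq.L [] 0x1c7740 (Pf.C 49 0x70c0c105))
 (Pq.cons (Pq.L [] 0x80028 (Pf.C 16 82817))
 Pq.nil))))))) (Pq.cons (Pq.D 6 (Pq.cons (Pq.L [] 0x106673 (Pf.C 58 0x70c0c101))
 (Pq.cons (Pq.L [] 32 (Pf.C 6 897))
 (Pq.cons (Pq.L [] 0x106673 (Pf.C 58 0x70c0c101))
 (Pq.cons (Pq.L [] 1057 (Pf.C 16 0x1c101))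
 (Pq.cons (Pq.L [] 0x106640 (Pf.C 35 0xe18182))
 (Pq.cons (Pq.L [] 0x80028 (Pf.C 16 82817))
 Pq.nil))))))) Pq.nil))))))) (Pq.cons (Pq.L [] 256 (Pf.C 2 642))
 (Pq.cons (Pq.L [] 256 (Pf.C 2 642))
 Pq.nil))))))) (Pq.cons (Pq.D 4 (Pq.cons (Pq.D 5 (Pq.cons (Pq.L [] 0x4335b (Pf.C 43 0x10c14182))
 (Pq.cons (Pq.L [] 16 (Pf.C 6 769))
 (Pq.cons (Pq.L [] 0x4335b (Pf.C 43 0x10c14182))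
 (Pq.cons (Pq.L [] 529 (Pf.C 16 98561))
 (Pq.cons (Pq.L [] 0x5bbc0 (Pf.C 46 0x40c14182))
 (Pq.cons (Pq.L [] 65556 (Pf.C 16 66305))
 Pq.nil))))))) (Pq.cons (Pq.L [] 8 (Pf.C 6 641))
 (Pq.cons (Pq.D 5 (Pq.cons (Pq.L [] 0x4335b (Pf.C 43 0x10c14182))
 (Pq.cons (Pq.L [] 16 (Pf.C 6 769))
 (Pq.cons (Pq.L [] 0x4335b (Pf.C 43 0x10c14182))
 (Pq.cons (Pq.L [] 529 (Pf.C 16 98561))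
 (Pq.cons (Pq.L [] 0x5bbc0 (Pf.C 55 0x40c14182))
 (Pq.cons (Pq.L [] 65556 (Pf.C 16 66305))
 Pq.nil))))))) (Pq.cons (Pq.D 5 (Pq.cons (Pq.L [] 0x4335b (Pf.C 43 0x10c14182))
 (Pq.cons (Pq.L [] 16 (Pf.C 6 769))
 (Pq.cons (Pq.L [] 0x4335b (Pf.C 43 0x10c14182))
 (Pq.cons (Pq.L [] 529 (Pf.C 16 98561))
 (Pq.cons (Pq.D 6 (Pq.cons (Pq.L [] 0x106673 (Pf.C 58 0x70c0c101))
 (Pq.cons (Pq.L [] 32 (Pf.C 6 897))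
 (Pq.cons (Pq.L [] 0x106673 (Pf.C 58 0x70c0c101))
 (Pq.cons (Pq.L [] 1057 (Pf.C 16 0x1c101))
 (Pq.cons (Pq.L [] 0x1c7740 (Pf.C 49 0x70c0c105))
 (Pq.cons (Pq.L [] 0x20024 (Pf.C 16 66433))
 Pq.nil))))))) (Pq.cons (Pq.L [] 65556 (Pf.C 16 66305))
 Pq.nil))))))) (Pq.cons (Pq.L [] 256 (Pf.C 2 642))
 (Pq.cons (Pq.L [] 32780 (Pf.C 16 66177))
 Pq.nil))))))) (Pq.cons (Pq.L [] 128 (Pf.C 2 514))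
 (Pq.cons (Pq.L [] 128 (Pf.C 2 514))
 Pq.nil))))))) (Pq.cons (Pq.L [] 2 (Pf.C 6 385))
 (Pq.cons (Pq.D 3 (Pq.cons (Pq.D 4 (Pq.cons (Pq.D 5 (Pq.cons (Pq.L [] 0x4335b (Pf.C 43 0x10c14182))
 (Pq.cons (Pq.L [] 16 (Pf.C 6 769))
 (Pq.cons (Pq.L [] 0x4335b (Pf.C 43 0x10c14182))
 (Pq.cons (Pq.L [] 529 (Pf.C 16 98561))
 (Pq.cons (Pq.L [] 0x5bbc0 (Pf.C 46 0x30c14202))
 (Pq.cons (Pq.L [] 0x5bbc0 (Pf.C 46 0x30c14202))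
 Pq.nil))))))) (Pq.cons (Pq.L [] 8 (Pf.C 6 641))
 (Pq.cons (Pq.D 5 (Pq.cons (Pq.L [] 0x4335b (Pf.C 43 0x10c14182))
 (Pq.cons (Pq.L [] 16 (Pf.C 6 769))
 (Pq.cons (Pq.L [] 0x4335b (Pf.C 43 0x10c14182))
 (Pq.cons (Pq.L [] 529 (Pf.C 16 98561))
 (Pq.cons (Pq.D 6 (Pq.cons (Pq.L [] 0x106673 (Pf.C 58 0x70c0c101))
 (Pq.cons (Pq.L [] 32 (Pf.C 6 897))
 (Pq.cons (Pq.L [] 0x106673 (Pf.C 58 0x70c0c101))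
 (Pq.cons (Pq.L [] 1057 (Pf.C 16 0x1c101))
 (Pq.cons (Pq.L [] 0x1f8780 (Pf.C 49 0x70c10105))
 (Pq.cons (Pq.L [] 0x130680 (Pf.C 35 0xc1c202))
 Pq.nil))))))) (Pq.cons (Pq.D 6 (Pq.cons (Pq.L [] 0x106673 (Pf.C 58 0x70c0c101))
 (Pq.cons (Pq.L [] 32 (Pf.C 6 897))
 (Pq.cons (Pq.L [] 0x106673 (Pf.C 58 0x70c0c101))
 (Pq.cons (Pq.L [] 1057 (Pf.C 16 0x1c101))
 (Pq.cons (Pq.L [] 0x130680 (Pf.C 35 0xe18202))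
 (Pq.cons (Pq.L [] 0x1f8780 (Pf.C 49 0x70c10105))
 Pq.nil))))))) Pq.nil))))))) (Pq.cons (Pq.D 5 (Pq.cons (Pq.L [] 0x4335b (Pf.C 43 0x10c14182))
 (Pq.cons (Pq.L [] 16 (Pf.C 6 769))
 (Pq.cons (Pq.L [] 0x4335b (Pf.C 43 0x10c14182))
 (Pq.cons (Pq.L [] 529 (Pf.C 16 98561))
 (Pq.cons (Pq.D 6 (Pq.cons (Pq.L [] 0x106673 (Pf.C 58 0x70c0c101))
 (Pq.cons (Pq.L [] 32 (Pf.C 6 897))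
 (Pq.cons (Pq.L [] 0x106673 (Pf.C 58 0x70c0c101))
 (Pq.cons (Pq.L [] 1057 (Pf.C 16 0x1c101))
 (Pq.cons (Pq.L [] 0x1f8780 (Pf.C 49 0x70c10105))
 (Pq.cons (Pq.L [] 0x80028 (Pf.C 16 82817))
 Pq.nil))))))) (Pq.cons (Pq.D 6 (Pq.cons (Pq.L [] 0x106673 (Pf.C 58 0x70c0c101))
 (Pq.cons (Pq.L [] 32 (Pf.C 6 897))
 (Pq.cons (Pq.L [] 0x106673 (Pf.C 58 0x70c0c101))
 (Pq.cons (Pq.L [] 1057 (Pf.C 16 0x1c101))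
 (Pq.cons (Pq.L [] 0x130680 (Pf.C 35 0xe18202))
 (Pq.cons (Pq.L [] 0x80028 (Pf.C 16 82817))
 Pq.nil))))))) Pq.nil))))))) (Pq.cons (Pq.L [] 256 (Pf.C 2 642))
 (Pq.cons (Pq.L [] 256 (Pf.C 2 642))
 Pq.nil))))))) (Pq.cons (Pq.L [] 4 (Pf.C 6 513))
 (Pq.cons (Pq.D 4 (Pq.cons (Pq.D 5 (Pq.cons (Pq.L [] 0x4335b (Pf.C 43 0x10c14182))
 (Pq.cons (Pq.L [] 16 (Pf.C 6 769))
 (Pq.cons (Pq.L [] 0x4335b (Pf.C 43 0x10c14182))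
 (Pq.cons (Pq.L [] 529 (Pf.C 16 98561))
 (Pq.cons (Pq.L [] 0x43000 (Pf.C 29 49798))
 (Pq.cons (Pq.L [] 0x43000 (Pf.C 29 49798))
 Pq.nil))))))) (Pq.cons (Pq.L [] 8 (Pf.C 6 641))
 (Pq.cons (Pq.D 5 (Pq.cons (Pq.L [] 0x4335b (Pf.C 43 0x10c14182))
 (Pq.cons (Pq.L [] 16 (Pf.C 6 769))
 (Pq.cons (Pq.L [] 0x4335b (Pf.C 43 0x10c14182))
 (Pq.cons (Pq.L [] 529 (Pf.C 16 98561))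
 (Pq.cons (Pq.D 6 (Pq.cons (Pq.L [] 0x106673 (Pf.C 58 0x70c0c101))
 (Pq.cons (Pq.L [] 32 (Pf.C 6 897))
 (Pq.cons (Pq.L [] 0x106673 (Pf.C 58 0x70c0c101))
 (Pq.cons (Pq.L [] 1057 (Pf.C 16 0x1c101))
 (Pq.cons (Pq.L [] 0x100000 (Pf.C 2 902))
 (Pq.cons (Pq.L [] 0x100000 (Pf.C 2 902))
 Pq.nil))))))) (Pq.cons (Pq.D 6 (Pq.cons (Pq.L [] 0x106673 (Pf.C 58 0x70c0c101))
 (Pq.cons (Pq.L [] 32 (Pf.C 6 897))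
 (Pq.cons (Pq.L [] 0x106673 (Pf.C 58 0x70c0c101))
 (Pq.cons (Pq.L [] 1057 (Pf.C 16 0x1c101))
 (Pq.cons (Pq.L [] 0x100000 (Pf.C 2 902))
 (Pq.cons (Pq.L [] 0x100000 (Pf.C 2 902))
 Pq.nil))))))) Pq.nil))))))) (Pq.cons (Pq.D 5 (Pq.cons (Pq.L [] 0x4335b (Pf.C 43 0x10c14182))
 (Pq.cons (Pq.L [] 16 (Pf.C 6 769))
 (Pq.cons (Pq.L [] 0x4335b (Pf.C 43 0x10c14182))
 (Pq.cons (Pq.L [] 529 (Pf.C 16 98561))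
 (Pq.cons (Pq.D 6 (Pq.cons (Pq.L [] 0x106673 (Pf.C 58 0x70c0c101))
 (Pq.cons (Pq.L [] 32 (Pf.C 6 897))
 (Pq.cons (Pq.L [] 0x106673 (Pf.C 58 0x70c0c101))
 (Pq.cons (Pq.L [] 1057 (Pf.C 16 0x1c101))
 (Pq.cons (Pq.L [] 0x1c7740 (Pf.C 56 0x70c0c105))
 (Pq.cons (Pq.L [] 0x80028 (Pf.C 16 82817))
 Pq.nil))))))) (Pq.cons (Pq.D 6 (Pq.cons (Pq.L [] 0x106673 (Pf.C 58 0x70c0c101))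
 (Pq.cons (Pq.L [] 32 (Pf.C 6 897))
 (Pq.cons (Pq.L [] 0x106673 (Pf.C 58 0x70c0c101))
 (Pq.cons (Pq.L [] 1057 (Pf.C 16 0x1c101))
 (Pq.cons (Pq.L [] 0x1c7740 (Pf.C 56 0x70c0c105))
 (Pq.cons (Pq.L [] 0x80028 (Pf.C 16 82817))
 Pq.nil))))))) Pq.nil))))))) (Pq.cons (Pq.L [] 256 (Pf.C 2 642))
 (Pq.cons (Pq.L [] 256 (Pf.C 2 642))
 Pq.nil))))))) (Pq.cons (Pq.D 4 (Pq.cons (Pq.D 5 (Pq.cons (Pq.L [] 0x4335b (Pf.C 43 0x10c14182))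
 (Pq.cons (Pq.L [] 16 (Pf.C 6 769))
 (Pq.cons (Pq.L [] 0x4335b (Pf.C 43 0x10c14182))
 (Pq.cons (Pq.L [] 529 (Pf.C 16 98561))
 (Pq.cons (Pq.L [] 0x5bbc0 (Pf.C 55 0x40c14182))
 (Pq.cons (Pq.L [] 65556 (Pf.C 16 66305))
 Pq.nil))))))) (Pq.cons (Pq.L [] 8 (Pf.C 6 641))
 (Pq.cons (Pq.D 5 (Pq.cons (Pq.L [] 0x4335b (Pf.C 43 0x10c14182))
 (Pq.cons (Pq.L [] 16 (Pf.C 6 769))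
 (Pq.cons (Pq.L [] 0x4335b (Pf.C 43 0x10c14182))
 (Pq.cons (Pq.L [] 529 (Pf.C 16 98561))
 (Pq.cons (Pq.L [] 0x5bbc0 (Pf.C 55 0x40c14182))
 (Pq.cons (Pq.L [] 65556 (Pf.C 16 66305))
 Pq.nil))))))) (Pq.cons (Pq.D 5 (Pq.cons (Pq.L [] 0x4335b (Pf.C 43 0x10c14182))
 (Pq.cons (Pq.L [] 16 (Pf.C 6 769))
 (Pq.cons (Pq.L [] 0x4335b (Pf.C 43 0x10c14182))
 (Pq.cons (Pq.L [] 529 (Pf.C 16 98561))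
 (Pq.cons (Pq.D 6 (Pq.cons (Pq.L [] 0x106673 (Pf.C 58 0x70c0c101))
 (Pq.cons (Pq.L [] 32 (Pf.C 6 897))
 (Pq.cons (Pq.L [] 0x106673 (Pf.C 58 0x70c0c101))
 (Pq.cons (Pq.L [] 1057 (Pf.C 16 0x1c101))
 (Pq.cons (Pq.L [] 0x1c7740 (Pf.C 56 0x70c0c105))
 (Pq.cons (Pq.L [] 0x20024 (Pf.C 16 66433))
 Pq.nil))))))) (Pq.cons (Pq.L [] 65556 (Pf.C 16 66305))
 Pq.nil))))))) (Pq.cons (Pq.L [] 256 (Pf.C 2 642))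
 (Pq.cons (Pq.L [] 32780 (Pf.C 16 66177))
 Pq.nil))))))) (Pq.cons (Pq.L [] 128 (Pf.C 2 514))
 (Pq.cons (Pq.L [] 128 (Pf.C 2 514))
 Pq.nil))))))) (Pq.cons (Pq.D 3 (Pq.cons (Pq.D 4 (Pq.cons (Pq.D 5 (Pq.cons (Pq.L [] 0x4335b (Pf.C 43 0x10c14182))
 (Pq.cons (Pq.L [] 16 (Pf.C 6 769))
 (Pq.cons (Pq.L [] 0x4335b (Pf.C 43 0x10c14182))
 (Pq.cons (Pq.L [] 529 (Pf.C 16 98561))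
 (Pq.cons (Pq.L [] 0x5bbc0 (Pf.C 46 0x30c14202))
 (Pq.cons (Pq.L [] 8210 (Pf.C 16 49921))
 Pq.nil))))))) (Pq.cons (Pq.L [] 8 (Pf.C 6 641))
 (Pq.cons (Pq.D 5 (Pq.cons (Pq.L [] 0x4335b (Pf.C 43 0x10c14182))
 (Pq.cons (Pq.L [] 16 (Pf.C 6 769))
 (Pq.cons (Pq.L [] 0x4335b (Pf.C 43 0x10c14182))
 (Pq.cons (Pq.L [] 529 (Pf.C 16 98561))
 (Pq.cons (Pq.L [] 0x5bbc0 (Pf.C 55 0x30c14202))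
 (Pq.cons (Pq.L [] 8210 (Pf.C 16 49921))
 Pq.nil))))))) (Pq.cons (Pq.D 5 (Pq.cons (Pq.L [] 0x4335b (Pf.C 43 0x10c14182))
 (Pq.cons (Pq.L [] 16 (Pf.C 6 769))
 (Pq.cons (Pq.L [] 0x4335b (Pf.C 43 0x10c14182))
 (Pq.cons (Pq.L [] 529 (Pf.C 16 98561))
 (Pq.cons (Pq.D 6 (Pq.cons (Pq.L [] 0x106673 (Pf.C 58 0x70c0c101))
 (Pq.cons (Pq.L [] 32 (Pf.C 6 897))
 (Pq.cons (Pq.L [] 0x106673 (Pf.C 58 0x70c0c101))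
 (Pq.cons (Pq.L [] 1057 (Pf.C 16 0x1c101))
 (Pq.cons (Pq.L [] 0x1f8780 (Pf.C 49 0x70c10105))
 (Pq.cons (Pq.L [] 16418 (Pf.C 16 50049))
 Pq.nil))))))) (Pq.cons (Pq.L [] 8210 (Pf.C 16 49921))
 Pq.nil))))))) (Pq.cons (Pq.L [] 256 (Pf.C 2 642))
 (Pq.cons (Pq.L [] 4106 (Pf.C 16 49793))
 Pq.nil))))))) (Pq.cons (Pq.L [] 4 (Pf.C 6 513))
 (Pq.cons (Pq.D 4 (Pq.cons (Pq.D 5 (Pq.cons (Pq.L [] 0x4335b (Pf.C 43 0x10c14182))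
 (Pq.cons (Pq.L [] 16 (Pf.C 6 769))
 (Pq.cons (Pq.L [] 0x4335b (Pf.C 43 0x10c14182))
 (Pq.cons (Pq.L [] 529 (Pf.C 16 98561))
 (Pq.cons (Pq.L [] 0x5bbc0 (Pf.C 55 0x30c14202))
 (Pq.cons (Pq.L [] 8210 (Pf.C 16 49921))
 Pq.nil))))))) (Pq.cons (Pq.L [] 8 (Pf.C 6 641))
 (Pq.cons (Pq.D 5 (Pq.cons (Pq.L [] 0x4335b (Pf.C 43 0x10c14182))
 (Pq.cons (Pq.L [] 16 (Pf.C 6 769))
 (Pq.cons (Pq.L [] 0x4335b (Pf.C 43 0x10c14182))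
 (Pq.cons (Pq.L [] 529 (Pf.C 16 98561))
 (Pq.cons (Pq.L [] 0x5bbc0 (Pf.C 55 0x30c14202))
 (Pq.cons (Pq.L [] 8210 (Pf.C 16 49921))
 Pq.nil))))))) (Pq.cons (Pq.D 5 (Pq.cons (Pq.L [] 0x4335b (Pf.C 43 0x10c14182))
 (Pq.cons (Pq.L [] 16 (Pf.C 6 769))
 (Pq.cons (Pq.L [] 0x4335b (Pf.C 43 0x10c14182))
 (Pq.cons (Pq.L [] 529 (Pf.C 16 98561))
 (Pq.cons (Pq.D 6 (Pq.cons (Pq.L [] 0x106673 (Pf.C 58 0x70c0c101))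
 (Pq.cons (Pq.L [] 32 (Pf.C 6 897))
 (Pq.cons (Pq.L [] 0x106673 (Pf.C 58 0x70c0c101))
 (Pq.cons (Pq.L [] 1057 (Pf.C 16 0x1c101))
 (Pq.cons (Pq.L [] 0x1f8780 (Pf.C 56 0x70c10105))
 (Pq.cons (Pq.L [] 16418 (Pf.C 16 50049))
 Pq.nil))))))) (Pq.cons (Pq.L [] 8210 (Pf.C 16 49921))
 Pq.nil))))))) (Pq.cons (Pq.L [] 256 (Pf.C 2 642))
 (Pq.cons (Pq.L [] 4106 (Pf.C 16 49793))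
 Pq.nil))))))) (Pq.cons (Pq.D 4 (Pq.cons (Pq.D 5 (Pq.cons (Pq.L [] 0x4335b (Pf.C 43 0x10c14182))
 (Pq.cons (Pq.L [] 16 (Pf.C 6 769))
 (Pq.cons (Pq.L [] 0x4335b (Pf.C 43 0x10c14182))
 (Pq.cons (Pq.L [] 529 (Pf.C 16 98561))
 (Pq.cons (Pq.L [] 0x40000 (Pf.C 13 646))
 (Pq.cons (Pq.L [] 8210 (Pf.C 16 49921))
 Pq.nil))))))) (Pq.cons (Pq.L [] 8 (Pf.C 6 641))
 (Pq.cons (Pq.D 5 (Pq.cons (Pq.L [] 0x4335b (Pf.C 43 0x10c14182))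
 (Pq.cons (Pq.L [] 16 (Pf.C 6 769))
 (Pq.cons (Pq.L [] 0x4335b (Pf.C 43 0x10c14182))
 (Pq.cons (Pq.L [] 529 (Pf.C 16 98561))
 (Pq.cons (Pq.L [] 0x43000 (Pf.C 22 49925))
 (Pq.cons (Pq.L [] 8210 (Pf.C 16 49921))
 Pq.nil))))))) (Pq.cons (Pq.D 5 (Pq.cons (Pq.L [] 0x4335b (Pf.C 43 0x10c14182))
 (Pq.cons (Pq.L [] 16 (Pf.C 6 769))
 (Pq.cons (Pq.L [] 0x4335b (Pf.C 43 0x10c14182))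
 (Pq.cons (Pq.L [] 529 (Pf.C 16 98561))
 (Pq.cons (Pq.D 6 (Pq.cons (Pq.L [] 0x106673 (Pf.C 58 0x70c0c101))
 (Pq.cons (Pq.L [] 32 (Pf.C 6 897))
 (Pq.cons (Pq.L [] 0x106673 (Pf.C 58 0x70c0c101))
 (Pq.cons (Pq.L [] 1057 (Pf.C 16 0x1c101))
 (Pq.cons (Pq.L [] 0x100000 (Pf.C 2 902))
 (Pq.cons (Pq.L [] 16418 (Pf.C 16 50049))
 Pq.nil))))))) (Pq.cons (Pq.L [] 8210 (Pf.C 16 49921))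
 Pq.nil))))))) (Pq.cons (Pq.L [] 256 (Pf.C 2 642))
 (Pq.cons (Pq.L [] 4106 (Pf.C 16 49793))
 Pq.nil))))))) (Pq.cons (Pq.L [] 128 (Pf.C 2 514))
 (Pq.cons (Pq.L [] 2054 (Pf.C 16 49665))
 Pq.nil))))))) (Pq.cons (Pq.L [] 64 (Pf.C 2 386))
 (Pq.cons (Pq.L [] 64 (Pf.C 2 386))
 Pq.nil))))))) Pq.nil))
theorem s1_o75 : AllRef s1_T s1_G85 (List.drop 4 (List.flatMap (splitP 1) (List.take 1 (List.drop 1 (List.drop 3 (List.flatMap (splitP 0) (List.take 1 (applyObl bD_T 3 [162,163,164,165,166,167] [1,1,1,1,2,2] [])))))))) :=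
  chkPq_sound s1_o75c _ (by decide +kernel)
noncomputable def s1_o76c : Pq := (Pq.cons (Pq.D 1 (Pq.cons (Pq.D 2 (Pq.cons (Pq.L [] 64 (Pf.C 1 386))
 (Pq.cons (Pq.L [] 64 (Pf.C 1 386))
 (Pq.cons (Pq.L [] 64 (Pf.C 1 386))
 (Pq.cons (Pq.L [] 64 (Pf.C 1 386))
 (Pq.cons (Pq.L [] 67 (Pf.C 30 16643))
 (Pq.cons (Pq.D 3 (Pq.cons (Pq.L [] 128 (Pf.C 1 514))
 (Pq.cons (Pq.L [] 128 (Pf.C 1 514))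
 (Pq.cons (Pq.L [] 128 (Pf.C 1 514))
 (Pq.cons (Pq.L [] 128 (Pf.C 1 514))
 (Pq.cons (Pq.L [] 133 (Pf.C 30 16644))
 (Pq.cons (Pq.D 4 (Pq.cons (Pq.L [] 256 (Pf.C 1 642))
 (Pq.cons (Pq.L [] 256 (Pf.C 1 642))
 (Pq.cons (Pq.L [] 256 (Pf.C 1 642))
 (Pq.cons (Pq.L [] 256 (Pf.C 1 642))
 (Pq.cons (Pq.L [] 265 (Pf.C 30 16645))
 (Pq.cons (Pq.D 5 (Pq.cons (Pq.D 6 (Pq.cons (Pq.L [] 0x1c0739 (Pf.C 42 0x10e18105))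
 (Pq.cons (Pq.L [] 1057 (Pf.C 19 17282))
 (Pq.cons (Pq.L [] 17507 (Pf.C 33 0xe08181))
 (Pq.cons (Pq.L [] 1057 (Pf.C 19 17282))
 (Pq.cons (Pq.L [] 0x100030 (Pf.C 30 17159))
 (Pq.cons (Pq.L [] 0x106673 (Pf.C 57 0x60e08181))
 Pq.nil))))))) (Pq.cons (Pq.L [] 529 (Pf.C 19 17154))
 (Pq.cons (Pq.L [] 8787 (Pf.C 33 0xc08181))
 (Pq.cons (Pq.L [] 529 (Pf.C 19 17154))
 (Pq.cons (Pq.L [] 0x40000 (Pf.C 2 773))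
 (Pq.cons (Pq.L [] 0x40000 (Pf.C 2 773))
 Pq.nil))))))) Pq.nil))))))) Pq.nil))))))) Pq.nil))))))) (Pq.cons (Pq.D 2 (Pq.cons (Pq.L [] 64 (Pf.C 1 386))
 (Pq.cons (Pq.L [] 64 (Pf.C 1 386))
 (Pq.cons (Pq.L [] 64 (Pf.C 1 386))
 (Pq.cons (Pq.L [] 64 (Pf.C 1 386))
 (Pq.cons (Pq.D 3 (Pq.cons (Pq.L [] 128 (Pf.C 1 514))
 (Pq.cons (Pq.L [] 2054 (Pf.C 16 65667))
 (Pq.cons (Pq.L [] 128 (Pf.C 1 514))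
 (Pq.cons (Pq.L [] 2054 (Pf.C 16 65667))
 (Pq.cons (Pq.D 4 (Pq.cons (Pq.L [] 256 (Pf.C 1 642))
 (Pq.cons (Pq.L [] 4106 (Pf.C 16 82051))
 (Pq.cons (Pq.L [] 256 (Pf.C 1 642))
 (Pq.cons (Pq.L [] 4106 (Pf.C 16 82051))
 (Pq.cons (Pq.D 5 (Pq.cons (Pq.L [] 529 (Pf.C 19 16646))
 (Pq.cons (Pq.L [] 8210 (Pf.C 16 98435))
 (Pq.cons (Pq.L [] 529 (Pf.C 19 16646))
 (Pq.cons (Pq.L [] 8210 (Pf.C 16 98435))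
 (Pq.cons (Pq.L [] 529 (Pf.C 16 32902))
 (Pq.cons (Pq.L [] 0x40000 (Pf.C 2 773))
 Pq.nil))))))) (Pq.cons (Pq.D 5 (Pq.cons (Pq.L [] 529 (Pf.C 19 16646))
 (Pq.cons (Pq.L [] 8210 (Pf.C 16 98435))
 (Pq.cons (Pq.L [] 529 (Pf.C 19 16646))
 (Pq.cons (Pq.L [] 8210 (Pf.C 16 98435))
 (Pq.cons (Pq.L [] 529 (Pf.C 16 32902))
 (Pq.cons (Pq.L [] 0x40000 (Pf.C 2 773))
 Pq.nil))))))) Pq.nil))))))) (Pq.cons (Pq.D 4 (Pq.cons (Pq.L [] 256 (Pf.C 1 642))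
 (Pq.cons (Pq.L [] 4106 (Pf.C 16 82051))
 (Pq.cons (Pq.L [] 256 (Pf.C 1 642))
 (Pq.cons (Pq.L [] 4106 (Pf.C 16 82051))
 (Pq.cons (Pq.D 5 (Pq.cons (Pq.L [] 529 (Pf.C 19 16646))
 (Pq.cons (Pq.L [] 8210 (Pf.C 16 98435))
 (Pq.cons (Pq.L [] 529 (Pf.C 19 16646))
 (Pq.cons (Pq.L [] 8210 (Pf.C 16 98435))
 (Pq.cons (Pq.L [] 529 (Pf.C 16 32902))
 (Pq.cons (Pq.L [] 0x40000 (Pf.C 2 773))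
 Pq.nil))))))) (Pq.cons (Pq.D 5 (Pq.cons (Pq.L [] 529 (Pf.C 19 16646))
 (Pq.cons (Pq.L [] 8210 (Pf.C 16 98435))
 (Pq.cons (Pq.L [] 529 (Pf.C 19 16646))
 (Pq.cons (Pq.L [] 8210 (Pf.C 16 98435))
 (Pq.cons (Pq.L [] 529 (Pf.C 16 32902))
 (Pq.cons (Pq.L [] 0x40000 (Pf.C 2 773))
 Pq.nil))))))) Pq.nil))))))) Pq.nil))))))) (Pq.cons (Pq.D 3 (Pq.cons (Pq.L [] 128 (Pf.C 1 514))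
 (Pq.cons (Pq.L [] 128 (Pf.C 1 514))
 (Pq.cons (Pq.L [] 128 (Pf.C 1 514))
 (Pq.cons (Pq.L [] 128 (Pf.C 1 514))
 (Pq.cons (Pq.D 4 (Pq.cons (Pq.L [] 256 (Pf.C 1 642))
 (Pq.cons (Pq.L [] 32780 (Pf.C 16 82052))
 (Pq.cons (Pq.L [] 256 (Pf.C 1 642))
 (Pq.cons (Pq.L [] 32780 (Pf.C 16 82052))
 (Pq.cons (Pq.D 5 (Pq.cons (Pq.L [] 529 (Pf.C 19 16646))
 (Pq.cons (Pq.L [] 65556 (Pf.C 16 98436))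
 (Pq.cons (Pq.L [] 529 (Pf.C 19 16646))
 (Pq.cons (Pq.L [] 65556 (Pf.C 16 98436))
 (Pq.cons (Pq.L [] 529 (Pf.C 16 32902))
 (Pq.cons (Pq.L [] 0x40000 (Pf.C 2 773))
 Pq.nil))))))) (Pq.cons (Pq.D 5 (Pq.cons (Pq.L [] 529 (Pf.C 19 16646))
 (Pq.cons (Pq.L [] 65556 (Pf.C 16 98436))
 (Pq.cons (Pq.L [] 529 (Pf.C 19 16646))
 (Pq.cons (Pq.L [] 65556 (Pf.C 16 98436))
 (Pq.cons (Pq.L [] 529 (Pf.C 16 32902))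
 (Pq.cons (Pq.L [] 0x40000 (Pf.C 2 773))
 Pq.nil))))))) Pq.nil))))))) (Pq.cons (Pq.D 4 (Pq.cons (Pq.L [] 256 (Pf.C 1 642))
 (Pq.cons (Pq.L [] 256 (Pf.C 1 642))
 (Pq.cons (Pq.L [] 256 (Pf.C 1 642))
 (Pq.cons (Pq.L [] 256 (Pf.C 1 642))
 (Pq.cons (Pq.D 5 (Pq.cons (Pq.L [] 529 (Pf.C 19 16646))
 (Pq.cons (Pq.D 6 (Pq.cons (Pq.L [] 1057 (Pf.C 19 16647))
 (Pq.cons (Pq.L [] 0x80028 (Pf.C 16 0x1c085))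
 (Pq.cons (Pq.L [] 1057 (Pf.C 19 16647))
 (Pq.cons (Pq.L [] 0x80028 (Pf.C 16 0x1c085))
 (Pq.cons (Pq.L [] 1057 (Pf.C 16 32903))
 (Pq.cons (Pq.L [] 0x106673 (Pf.C 57 0x60e08181))
 Pq.nil))))))) (Pq.cons (Pq.L [] 529 (Pf.C 19 16646))
 (Pq.cons (Pq.L [] 8787 (Pf.C 33 0xc08181))
 (Pq.cons (Pq.L [] 529 (Pf.C 16 32902))
 (Pq.cons (Pq.L [] 0x40000 (Pf.C 2 773))
 Pq.nil))))))) (Pq.cons (Pq.D 5 (Pq.cons (Pq.L [] 529 (Pf.C 19 16646))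
 (Pq.cons (Pq.D 6 (Pq.cons (Pq.L [] 1057 (Pf.C 19 16647))
 (Pq.cons (Pq.L [] 0x1c0739 (Pf.C 42 0x10e18105))
 (Pq.cons (Pq.L [] 1057 (Pf.C 19 16647))
 (Pq.cons (Pq.L [] 17507 (Pf.C 33 0xe08181))
 (Pq.cons (Pq.L [] 1057 (Pf.C 16 32903))
 (Pq.cons (Pq.L [] 0x106673 (Pf.C 57 0x60e08181))
 Pq.nil))))))) (Pq.cons (Pq.L [] 529 (Pf.C 19 16646))
 (Pq.cons (Pq.L [] 8787 (Pf.C 33 0xc08181))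
 (Pq.cons (Pq.L [] 529 (Pf.C 16 32902))
 (Pq.cons (Pq.L [] 0x40000 (Pf.C 2 773))
 Pq.nil))))))) Pq.nil))))))) Pq.nil))))))) Pq.nil))))))) (Pq.cons (Pq.D 2 (Pq.cons (Pq.L [] 64 (Pf.C 1 386))
 (Pq.cons (Pq.L [] 64 (Pf.C 1 386))
 (Pq.cons (Pq.L [] 64 (Pf.C 1 386))
 (Pq.cons (Pq.L [] 64 (Pf.C 1 386))
 (Pq.cons (Pq.L [] 67 (Pf.C 30 16643))
 (Pq.cons (Pq.D 3 (Pq.cons (Pq.L [] 128 (Pf.C 1 514))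
 (Pq.cons (Pq.L [] 128 (Pf.C 1 514))
 (Pq.cons (Pq.L [] 128 (Pf.C 1 514))
 (Pq.cons (Pq.L [] 128 (Pf.C 1 514))
 (Pq.cons (Pq.L [] 133 (Pf.C 30 16644))
 (Pq.cons (Pq.D 4 (Pq.cons (Pq.L [] 256 (Pf.C 1 642))
 (Pq.cons (Pq.L [] 256 (Pf.C 1 642))
 (Pq.cons (Pq.L [] 256 (Pf.C 1 642))
 (Pq.cons (Pq.L [] 256 (Pf.C 1 642))
 (Pq.cons (Pq.L [] 265 (Pf.C 30 16645))
 (Pq.cons (Pq.D 5 (Pq.cons (Pq.D 6 (Pq.cons (Pq.L [] 0x1c0739 (Pf.C 42 0x10e18105))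
 (Pq.cons (Pq.L [] 1057 (Pf.C 19 17282))
 (Pq.cons (Pq.L [] 0x1c0739 (Pf.C 42 0x10e18105))
 (Pq.cons (Pq.L [] 1057 (Pf.C 19 17282))
 (Pq.cons (Pq.L [] 0x100030 (Pf.C 30 17159))
 (Pq.cons (Pq.L [] 0x100631 (Pf.C 33 0x418381))
 Pq.nil))))))) (Pq.cons (Pq.L [] 529 (Pf.C 19 17154))
 (Pq.cons (Pq.D 6 (Pq.cons (Pq.L [] 0x1c0739 (Pf.C 42 0x10e18105))
 (Pq.cons (Pq.L [] 1057 (Pf.C 19 17282))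
 (Pq.cons (Pq.L [] 0x1c0739 (Pf.C 42 0x10e18105))
 (Pq.cons (Pq.L [] 1057 (Pf.C 19 17282))
 (Pq.cons (Pq.L [] 0x100030 (Pf.C 30 17159))
 (Pq.cons (Pq.L [] 0x106673 (Pf.C 57 0x60e08181))
 Pq.nil))))))) (Pq.cons (Pq.L [] 529 (Pf.C 19 17154))
 (Pq.cons (Pq.L [] 0x40000 (Pf.C 2 773))
 (Pq.cons (Pq.L [] 0x40000 (Pf.C 2 773))
 Pq.nil))))))) Pq.nil))))))) Pq.nil))))))) Pq.nil))))))) (Pq.cons (Pq.D 2 (Pq.cons (Pq.L [] 64 (Pf.C 1 386))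
 (Pq.cons (Pq.L [] 64 (Pf.C 1 386))
 (Pq.cons (Pq.L [] 64 (Pf.C 1 386))
 (Pq.cons (Pq.L [] 64 (Pf.C 1 386))
 (Pq.cons (Pq.D 3 (Pq.cons (Pq.L [] 128 (Pf.C 1 514))
 (Pq.cons (Pq.L [] 2054 (Pf.C 16 65667))
 (Pq.cons (Pq.L [] 128 (Pf.C 1 514))
 (Pq.cons (Pq.L [] 2054 (Pf.C 16 65667))
 (Pq.cons (Pq.D 4 (Pq.cons (Pq.L [] 256 (Pf.C 1 642))
 (Pq.cons (Pq.L [] 4106 (Pf.C 16 82051))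
 (Pq.cons (Pq.L [] 256 (Pf.C 1 642))
 (Pq.cons (Pq.L [] 4106 (Pf.C 16 82051))
 (Pq.cons (Pq.D 5 (Pq.cons (Pq.L [] 529 (Pf.C 19 16646))
 (Pq.cons (Pq.L [] 8210 (Pf.C 16 98435))
 (Pq.cons (Pq.L [] 529 (Pf.C 19 16646))
 (Pq.cons (Pq.L [] 8210 (Pf.C 16 98435))
 (Pq.cons (Pq.L [] 529 (Pf.C 16 32902))
 (Pq.cons (Pq.L [] 0x40000 (Pf.C 2 773))
 Pq.nil))))))) (Pq.cons (Pq.D 5 (Pq.cons (Pq.L [] 529 (Pf.C 19 16646))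
 (Pq.cons (Pq.L [] 8210 (Pf.C 16 98435))
 (Pq.cons (Pq.L [] 529 (Pf.C 19 16646))
 (Pq.cons (Pq.L [] 8210 (Pf.C 16 98435))
 (Pq.cons (Pq.L [] 529 (Pf.C 16 32902))
 (Pq.cons (Pq.L [] 0x40000 (Pf.C 2 773))
 Pq.nil))))))) Pq.nil))))))) (Pq.cons (Pq.D 4 (Pq.cons (Pq.L [] 256 (Pf.C 1 642))
 (Pq.cons (Pq.L [] 4106 (Pf.C 16 82051))
 (Pq.cons (Pq.L [] 256 (Pf.C 1 642))
 (Pq.cons (Pq.L [] 4106 (Pf.C 16 82051))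
 (Pq.cons (Pq.D 5 (Pq.cons (Pq.L [] 529 (Pf.C 19 16646))
 (Pq.cons (Pq.L [] 8210 (Pf.C 16 98435))
 (Pq.cons (Pq.L [] 529 (Pf.C 19 16646))
 (Pq.cons (Pq.L [] 8210 (Pf.C 16 98435))
 (Pq.cons (Pq.L [] 529 (Pf.C 16 32902))
 (Pq.cons (Pq.L [] 0x40000 (Pf.C 2 773))
 Pq.nil))))))) (Pq.cons (Pq.D 5 (Pq.cons (Pq.L [] 529 (Pf.C 19 16646))
 (Pq.cons (Pq.L [] 8210 (Pf.C 16 98435))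
 (Pq.cons (Pq.L [] 529 (Pf.C 19 16646))
 (Pq.cons (Pq.L [] 8210 (Pf.C 16 98435))
 (Pq.cons (Pq.L [] 529 (Pf.C 16 32902))
 (Pq.cons (Pq.L [] 0x40000 (Pf.C 2 773))
 Pq.nil))))))) Pq.nil))))))) Pq.nil))))))) (Pq.cons (Pq.D 3 (Pq.cons (Pq.L [] 128 (Pf.C 1 514))
 (Pq.cons (Pq.L [] 128 (Pf.C 1 514))
 (Pq.cons (Pq.L [] 128 (Pf.C 1 514))
 (Pq.cons (Pq.L [] 128 (Pf.C 1 514))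
 (Pq.cons (Pq.D 4 (Pq.cons (Pq.L [] 256 (Pf.C 1 642))
 (Pq.cons (Pq.L [] 32780 (Pf.C 16 82052))
 (Pq.cons (Pq.L [] 256 (Pf.C 1 642))
 (Pq.cons (Pq.L [] 32780 (Pf.C 16 82052))
 (Pq.cons (Pq.D 5 (Pq.cons (Pq.L [] 529 (Pf.C 19 16646))
 (Pq.cons (Pq.L [] 65556 (Pf.C 16 98436))
 (Pq.cons (Pq.L [] 529 (Pf.C 19 16646))
 (Pq.cons (Pq.L [] 65556 (Pf.C 16 98436))
 (Pq.cons (Pq.L [] 529 (Pf.C 16 32902))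
 (Pq.cons (Pq.L [] 0x40000 (Pf.C 2 773))
 Pq.nil))))))) (Pq.cons (Pq.D 5 (Pq.cons (Pq.L [] 529 (Pf.C 19 16646))
 (Pq.cons (Pq.L [] 65556 (Pf.C 16 98436))
 (Pq.cons (Pq.L [] 529 (Pf.C 19 16646))
 (Pq.cons (Pq.L [] 65556 (Pf.C 16 98436))
 (Pq.cons (Pq.L [] 529 (Pf.C 16 32902))
 (Pq.cons (Pq.L [] 0x40000 (Pf.C 2 773))
 Pq.nil))))))) Pq.nil))))))) (Pq.cons (Pq.D 4 (Pq.cons (Pq.L [] 256 (Pf.C 1 642))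
 (Pq.cons (Pq.L [] 256 (Pf.C 1 642))
 (Pq.cons (Pq.L [] 256 (Pf.C 1 642))
 (Pq.cons (Pq.L [] 256 (Pf.C 1 642))
 (Pq.cons (Pq.D 5 (Pq.cons (Pq.L [] 529 (Pf.C 19 16646))
 (Pq.cons (Pq.D 6 (Pq.cons (Pq.L [] 1057 (Pf.C 19 16647))
 (Pq.cons (Pq.L [] 0x80028 (Pf.C 16 0x1c085))
 (Pq.cons (Pq.L [] 1057 (Pf.C 19 16647))
 (Pq.cons (Pq.L [] 0x80028 (Pf.C 16 0x1c085))
 (Pq.cons (Pq.L [] 1057 (Pf.C 16 32903))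
 (Pq.cons (Pq.L [] 0x100631 (Pf.C 33 0x418381))
 Pq.nil))))))) (Pq.cons (Pq.L [] 529 (Pf.C 19 16646))
 (Pq.cons (Pq.D 6 (Pq.cons (Pq.L [] 1057 (Pf.C 19 16647))
 (Pq.cons (Pq.L [] 0x80028 (Pf.C 16 0x1c085))
 (Pq.cons (Pq.L [] 1057 (Pf.C 19 16647))
 (Pq.cons (Pq.L [] 0x80028 (Pf.C 16 0x1c085))
 (Pq.cons (Pq.L [] 1057 (Pf.C 16 32903))
 (Pq.cons (Pq.L [] 0x106673 (Pf.C 57 0x60e08181))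
 Pq.nil))))))) (Pq.cons (Pq.L [] 529 (Pf.C 16 32902))
 (Pq.cons (Pq.L [] 0x40000 (Pf.C 2 773))
 Pq.nil))))))) (Pq.cons (Pq.D 5 (Pq.cons (Pq.L [] 529 (Pf.C 19 16646))
 (Pq.cons (Pq.D 6 (Pq.cons (Pq.L [] 1057 (Pf.C 19 16647))
 (Pq.cons (Pq.L [] 0x1c0739 (Pf.C 42 0x10e18105))
 (Pq.cons (Pq.L [] 1057 (Pf.C 19 16647))
 (Pq.cons (Pq.L [] 0x1c0739 (Pf.C 42 0x10e18105))
 (Pq.cons (Pq.L [] 1057 (Pf.C 16 32903))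
 (Pq.cons (Pq.L [] 0x100631 (Pf.C 33 0x418381))
 Pq.nil))))))) (Pq.cons (Pq.L [] 529 (Pf.C 19 16646))
 (Pq.cons (Pq.D 6 (Pq.cons (Pq.L [] 1057 (Pf.C 19 16647))
 (Pq.cons (Pq.L [] 0x1c0739 (Pf.C 42 0x10e18105))
 (Pq.cons (Pq.L [] 1057 (Pf.C 19 16647))
 (Pq.cons (Pq.L [] 0x1c0739 (Pf.C 42 0x10e18105))
 (Pq.cons (Pq.L [] 1057 (Pf.C 16 32903))
 (Pq.cons (Pq.L [] 0x106673 (Pf.C 57 0x60e08181))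
 Pq.nil))))))) (Pq.cons (Pq.L [] 529 (Pf.C 16 32902))
 (Pq.cons (Pq.L [] 0x40000 (Pf.C 2 773))
 Pq.nil))))))) Pq.nil))))))) Pq.nil))))))) Pq.nil))))))) (Pq.cons (Pq.D 2 (Pq.cons (Pq.L [] 67 (Pf.C 30 16770))
 (Pq.cons (Pq.D 3 (Pq.cons (Pq.L [] 2054 (Pf.C 19 16772))
 (Pq.cons (Pq.D 4 (Pq.cons (Pq.L [] 4106 (Pf.C 19 16773))
 (Pq.cons (Pq.D 5 (Pq.cons (Pq.L [] 8210 (Pf.C 19 16774))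
 (Pq.cons (Pq.L [] 529 (Pf.C 16 98434))
 (Pq.cons (Pq.L [] 8210 (Pf.C 19 16774))
 (Pq.cons (Pq.L [] 529 (Pf.C 16 98434))
 (Pq.cons (Pq.L [] 8210 (Pf.C 16 49286))
 (Pq.cons (Pq.D 6 (Pq.cons (Pq.L [] 16418 (Pf.C 19 16775))
 (Pq.cons (Pq.L [] 1057 (Pf.C 16 0x1c082))
 (Pq.cons (Pq.L [] 16418 (Pf.C 19 16775))
 (Pq.cons (Pq.L [] 1057 (Pf.C 16 0x1c082))
 (Pq.cons (Pq.L [] 16418 (Pf.C 16 49287))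
 (Pq.cons (Pq.L [] 0x100000 (Pf.C 2 902))
 Pq.nil))))))) Pq.nil))))))) (Pq.cons (Pq.L [] 4106 (Pf.C 19 16773))
 (Pq.cons (Pq.D 5 (Pq.cons (Pq.L [] 8210 (Pf.C 19 16774))
 (Pq.cons (Pq.L [] 529 (Pf.C 16 98434))
 (Pq.cons (Pq.L [] 8210 (Pf.C 19 16774))
 (Pq.cons (Pq.L [] 529 (Pf.C 16 98434))
 (Pq.cons (Pq.L [] 8210 (Pf.C 16 49286))
 (Pq.cons (Pq.D 6 (Pq.cons (Pq.L [] 16418 (Pf.C 19 16775))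
 (Pq.cons (Pq.L [] 1057 (Pf.C 16 0x1c082))
 (Pq.cons (Pq.L [] 16418 (Pf.C 19 16775))
 (Pq.cons (Pq.L [] 1057 (Pf.C 16 0x1c082))
 (Pq.cons (Pq.L [] 16418 (Pf.C 16 49287))
 (Pq.cons (Pq.L [] 0x1c7740 (Pf.C 49 0x70c0c105))
 Pq.nil))))))) Pq.nil))))))) (Pq.cons (Pq.L [] 4106 (Pf.C 16 49285))
 (Pq.cons (Pq.L [] 256 (Pf.C 2 642))
 Pq.nil))))))) (Pq.cons (Pq.L [] 2054 (Pf.C 19 16772))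
 (Pq.cons (Pq.D 4 (Pq.cons (Pq.L [] 4106 (Pf.C 19 16773))
 (Pq.cons (Pq.D 5 (Pq.cons (Pq.L [] 8210 (Pf.C 19 16774))
 (Pq.cons (Pq.L [] 529 (Pf.C 16 98434))
 (Pq.cons (Pq.L [] 8210 (Pf.C 19 16774))
 (Pq.cons (Pq.L [] 529 (Pf.C 16 98434))
 (Pq.cons (Pq.L [] 8210 (Pf.C 16 49286))
 (Pq.cons (Pq.L [] 0x5801c (Pf.C 33 0x814301))
 Pq.nil))))))) (Pq.cons (Pq.L [] 4106 (Pf.C 19 16773))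
 (Pq.cons (Pq.D 5 (Pq.cons (Pq.L [] 8210 (Pf.C 19 16774))
 (Pq.cons (Pq.L [] 529 (Pf.C 16 98434))
 (Pq.cons (Pq.L [] 8210 (Pf.C 19 16774))
 (Pq.cons (Pq.L [] 529 (Pf.C 16 98434))
 (Pq.cons (Pq.L [] 8210 (Pf.C 16 49286))
 (Pq.cons (Pq.D 6 (Pq.cons (Pq.L [] 16418 (Pf.C 19 16775))
 (Pq.cons (Pq.L [] 1057 (Pf.C 16 0x1c082))
 (Pq.cons (Pq.L [] 16418 (Pf.C 19 16775))
 (Pq.cons (Pq.L [] 1057 (Pf.C 16 0x1c082))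
 (Pq.cons (Pq.L [] 16418 (Pf.C 16 49287))
 (Pq.cons (Pq.L [] 0x1c7740 (Pf.C 49 0x70c0c105))
 Pq.nil))))))) Pq.nil))))))) (Pq.cons (Pq.L [] 4106 (Pf.C 16 49285))
 (Pq.cons (Pq.L [] 256 (Pf.C 2 642))
 Pq.nil))))))) (Pq.cons (Pq.L [] 2054 (Pf.C 16 49284))
 (Pq.cons (Pq.L [] 128 (Pf.C 2 514))
 Pq.nil))))))) (Pq.cons (Pq.L [] 67 (Pf.C 30 16770))
 (Pq.cons (Pq.D 3 (Pq.cons (Pq.L [] 2054 (Pf.C 19 16772))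
 (Pq.cons (Pq.D 4 (Pq.cons (Pq.L [] 4106 (Pf.C 19 16773))
 (Pq.cons (Pq.D 5 (Pq.cons (Pq.L [] 8210 (Pf.C 19 16774))
 (Pq.cons (Pq.L [] 529 (Pf.C 16 98434))
 (Pq.cons (Pq.L [] 8210 (Pf.C 19 16774))
 (Pq.cons (Pq.L [] 529 (Pf.C 16 98434))
 (Pq.cons (Pq.L [] 8210 (Pf.C 16 49286))
 (Pq.cons (Pq.L [] 0x4301a (Pf.C 33 0x614301))
 Pq.nil))))))) (Pq.cons (Pq.L [] 4106 (Pf.C 19 16773))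
 (Pq.cons (Pq.D 5 (Pq.cons (Pq.L [] 8210 (Pf.C 19 16774))
 (Pq.cons (Pq.L [] 529 (Pf.C 16 98434))
 (Pq.cons (Pq.L [] 8210 (Pf.C 19 16774))
 (Pq.cons (Pq.L [] 529 (Pf.C 16 98434))
 (Pq.cons (Pq.L [] 8210 (Pf.C 16 49286))
 (Pq.cons (Pq.D 6 (Pq.cons (Pq.L [] 16418 (Pf.C 19 16775))
 (Pq.cons (Pq.L [] 1057 (Pf.C 16 0x1c082))
 (Pq.cons (Pq.L [] 16418 (Pf.C 19 16775))
 (Pq.cons (Pq.L [] 1057 (Pf.C 16 0x1c082))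
 (Pq.cons (Pq.L [] 16418 (Pf.C 16 49287))
 (Pq.cons (Pq.L [] 0x1f8780 (Pf.C 49 0x70c10105))
 Pq.nil))))))) Pq.nil))))))) (Pq.cons (Pq.L [] 4106 (Pf.C 16 49285))
 (Pq.cons (Pq.L [] 256 (Pf.C 2 642))
 Pq.nil))))))) (Pq.cons (Pq.L [] 2054 (Pf.C 19 16772))
 (Pq.cons (Pq.D 4 (Pq.cons (Pq.L [] 4106 (Pf.C 19 16773))
 (Pq.cons (Pq.D 5 (Pq.cons (Pq.L [] 8210 (Pf.C 19 16774))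
 (Pq.cons (Pq.L [] 529 (Pf.C 16 98434))
 (Pq.cons (Pq.L [] 8210 (Pf.C 19 16774))
 (Pq.cons (Pq.L [] 529 (Pf.C 16 98434))
 (Pq.cons (Pq.L [] 8210 (Pf.C 16 49286))
 (Pq.cons (Pq.L [] 0x4301a (Pf.C 33 0x614301))
 Pq.nil))))))) (Pq.cons (Pq.L [] 4106 (Pf.C 19 16773))
 (Pq.cons (Pq.D 5 (Pq.cons (Pq.L [] 8210 (Pf.C 19 16774))
 (Pq.cons (Pq.L [] 529 (Pf.C 16 98434))
 (Pq.cons (Pq.L [] 8210 (Pf.C 19 16774))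
 (Pq.cons (Pq.L [] 529 (Pf.C 16 98434))
 (Pq.cons (Pq.L [] 8210 (Pf.C 16 49286))
 (Pq.cons (Pq.D 6 (Pq.cons (Pq.L [] 16418 (Pf.C 19 16775))
 (Pq.cons (Pq.L [] 1057 (Pf.C 16 0x1c082))
 (Pq.cons (Pq.L [] 16418 (Pf.C 19 16775))
 (Pq.cons (Pq.L [] 1057 (Pf.C 16 0x1c082))
 (Pq.cons (Pq.L [] 16418 (Pf.C 16 49287))
 (Pq.cons (Pq.L [] 0x100000 (Pf.C 2 902))
 Pq.nil))))))) Pq.nil))))))) (Pq.cons (Pq.L [] 4106 (Pf.C 16 49285))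
 (Pq.cons (Pq.L [] 256 (Pf.C 2 642))
 Pq.nil))))))) (Pq.cons (Pq.L [] 2054 (Pf.C 16 49284))
 (Pq.cons (Pq.L [] 128 (Pf.C 2 514))
 Pq.nil))))))) (Pq.cons (Pq.L [] 64 (Pf.C 2 386))
 (Pq.cons (Pq.L [] 64 (Pf.C 2 386))
 Pq.nil))))))) (Pq.cons (Pq.D 2 (Pq.cons (Pq.D 3 (Pq.cons (Pq.D 4 (Pq.cons (Pq.D 5 (Pq.cons (Pq.L [] 0x4335b (Pf.C 42 0x10c14182))
 (Pq.cons (Pq.L [] 8210 (Pf.C 19 17155))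
 (Pq.cons (Pq.L [] 8787 (Pf.C 33 0xc0c101))
 (Pq.cons (Pq.L [] 8210 (Pf.C 19 17155))
 (Pq.cons (Pq.L [] 0x40018 (Pf.C 30 17030))
 (Pq.cons (Pq.D 6 (Pq.cons (Pq.L [] 0x106673 (Pf.C 57 0x70c0c101))
 (Pq.cons (Pq.L [] 16418 (Pf.C 19 17283))
 (Pq.cons (Pq.L [] 17507 (Pf.C 33 0xe0c101))
 (Pq.cons (Pq.L [] 16418 (Pf.C 19 17283))
 (Pq.cons (Pq.L [0] 0x106032 (Pf.C 57 0x70c0c001))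
 (Pq.cons (Pq.L [] 0x100000 (Pf.C 2 902))
 Pq.nil))))))) Pq.nil))))))) (Pq.cons (Pq.L [] 4106 (Pf.C 19 17027))
 (Pq.cons (Pq.D 5 (Pq.cons (Pq.L [] 0x4335b (Pf.C 42 0x10c14182))
 (Pq.cons (Pq.L [] 8210 (Pf.C 19 17155))
 (Pq.cons (Pq.L [] 8787 (Pf.C 33 0xc0c101))
 (Pq.cons (Pq.L [] 8210 (Pf.C 19 17155))
 (Pq.cons (Pq.L [] 0x40018 (Pf.C 30 17030))
 (Pq.cons (Pq.D 6 (Pq.cons (Pq.L [] 0x106673 (Pf.C 57 0x70c0c101))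
 (Pq.cons (Pq.L [] 16418 (Pf.C 19 17283))
 (Pq.cons (Pq.L [] 17507 (Pf.C 33 0xe0c101))
 (Pq.cons (Pq.L [] 16418 (Pf.C 19 17283))
 (Pq.cons (Pq.L [0] 0x106032 (Pf.C 57 0x70c0c001))
 (Pq.cons (Pq.L [] 0x1c7740 (Pf.C 49 0x70c0c105))
 Pq.nil))))))) Pq.nil))))))) (Pq.cons (Pq.L [] 4106 (Pf.C 19 17027))
 (Pq.cons (Pq.L [] 256 (Pf.C 2 642))
 (Pq.cons (Pq.L [] 256 (Pf.C 2 642))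
 Pq.nil))))))) (Pq.cons (Pq.L [] 2054 (Pf.C 19 16899))
 (Pq.cons (Pq.D 4 (Pq.cons (Pq.D 5 (Pq.cons (Pq.L [] 0x4335b (Pf.C 42 0x10c14182))
 (Pq.cons (Pq.L [] 8210 (Pf.C 19 17155))
 (Pq.cons (Pq.L [] 8787 (Pf.C 33 0xc0c101))
 (Pq.cons (Pq.L [] 8210 (Pf.C 19 17155))
 (Pq.cons (Pq.L [] 0x40018 (Pf.C 30 17030))
 (Pq.cons (Pq.L [] 0x5801c (Pf.C 33 0x814301))
 Pq.nil))))))) (Pq.cons (Pq.L [] 4106 (Pf.C 19 17027))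
 (Pq.cons (Pq.D 5 (Pq.cons (Pq.L [] 0x4335b (Pf.C 42 0x10c14182))
 (Pq.cons (Pq.L [] 8210 (Pf.C 19 17155))
 (Pq.cons (Pq.L [] 8787 (Pf.C 33 0xc0c101))
 (Pq.cons (Pq.L [] 8210 (Pf.C 19 17155))
 (Pq.cons (Pq.L [] 0x40018 (Pf.C 30 17030))
 (Pq.cons (Pq.D 6 (Pq.cons (Pq.L [] 0x130034 (Pf.C 33 0x81c301))
 (Pq.cons (Pq.L [] 16418 (Pf.C 19 17283))
 (Pq.cons (Pq.L [] 17507 (Pf.C 33 0xe0c101))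
 (Pq.cons (Pq.L [] 16418 (Pf.C 19 17283))
 (Pq.cons (Pq.L [] 0x130034 (Pf.C 33 0x81c301))
 (Pq.cons (Pq.L [] 0x1c7740 (Pf.C 49 0x70c0c105))
 Pq.nil))))))) Pq.nil))))))) (Pq.cons (Pq.L [] 4106 (Pf.C 19 17027))
 (Pq.cons (Pq.L [] 256 (Pf.C 2 642))
 (Pq.cons (Pq.L [] 256 (Pf.C 2 642))
 Pq.nil))))))) (Pq.cons (Pq.L [] 2054 (Pf.C 19 16899))
 (Pq.cons (Pq.L [] 128 (Pf.C 2 514))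
 (Pq.cons (Pq.L [] 128 (Pf.C 2 514))
 Pq.nil))))))) (Pq.cons (Pq.D 3 (Pq.cons (Pq.L [] 2054 (Pf.C 19 16772))
 (Pq.cons (Pq.D 4 (Pq.cons (Pq.L [] 4106 (Pf.C 19 16773))
 (Pq.cons (Pq.D 5 (Pq.cons (Pq.L [] 8210 (Pf.C 19 16774))
 (Pq.cons (Pq.L [] 0x4335b (Pf.C 42 0x10c14182))
 (Pq.cons (Pq.L [] 8210 (Pf.C 19 16774))
 (Pq.cons (Pq.L [] 8787 (Pf.C 33 0xc0c101))
 (Pq.cons (Pq.L [] 8210 (Pf.C 16 49286))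
 (Pq.cons (Pq.D 6 (Pq.cons (Pq.L [] 16418 (Pf.C 19 16775))
 (Pq.cons (Pq.L [] 0x106673 (Pf.C 57 0x70c0c101))
 (Pq.cons (Pq.L [] 16418 (Pf.C 19 16775))
 (Pq.cons (Pq.L [] 17507 (Pf.C 33 0xe0c101))
 (Pq.cons (Pq.L [] 16418 (Pf.C 16 49287))
 (Pq.cons (Pq.L [] 0x100000 (Pf.C 2 902))
 Pq.nil))))))) Pq.nil))))))) (Pq.cons (Pq.L [] 4106 (Pf.C 19 16773))
 (Pq.cons (Pq.D 5 (Pq.cons (Pq.L [] 8210 (Pf.C 19 16774))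
 (Pq.cons (Pq.L [] 0x4335b (Pf.C 42 0x10c14182))
 (Pq.cons (Pq.L [] 8210 (Pf.C 19 16774))
 (Pq.cons (Pq.L [] 8787 (Pf.C 33 0xc0c101))
 (Pq.cons (Pq.L [] 8210 (Pf.C 16 49286))
 (Pq.cons (Pq.D 6 (Pq.cons (Pq.L [] 16418 (Pf.C 19 16775))
 (Pq.cons (Pq.L [] 0x106673 (Pf.C 57 0x70c0c101))
 (Pq.cons (Pq.L [] 16418 (Pf.C 19 16775))
 (Pq.cons (Pq.L [] 17507 (Pf.C 33 0xe0c101))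
 (Pq.cons (Pq.L [] 16418 (Pf.C 16 49287))
 (Pq.cons (Pq.L [] 0x1c7740 (Pf.C 49 0x70c0c105))
 Pq.nil))))))) Pq.nil))))))) (Pq.cons (Pq.L [] 4106 (Pf.C 16 49285))
 (Pq.cons (Pq.L [] 256 (Pf.C 2 642))
 Pq.nil))))))) (Pq.cons (Pq.L [] 2054 (Pf.C 19 16772))
 (Pq.cons (Pq.D 4 (Pq.cons (Pq.L [] 4106 (Pf.C 19 16773))
 (Pq.cons (Pq.D 5 (Pq.cons (Pq.L [] 8210 (Pf.C 19 16774))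
 (Pq.cons (Pq.L [] 0x4335b (Pf.C 42 0x10c14182))
 (Pq.cons (Pq.L [] 8210 (Pf.C 19 16774))
 (Pq.cons (Pq.L [] 8787 (Pf.C 33 0xc0c101))
 (Pq.cons (Pq.L [] 8210 (Pf.C 16 49286))
 (Pq.cons (Pq.L [] 0x5801c (Pf.C 33 0x814301))
 Pq.nil))))))) (Pq.cons (Pq.L [] 4106 (Pf.C 19 16773))
 (Pq.cons (Pq.D 5 (Pq.cons (Pq.L [] 8210 (Pf.C 19 16774))
 (Pq.cons (Pq.L [] 0x4335b (Pf.C 42 0x10c14182))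
 (Pq.cons (Pq.L [] 8210 (Pf.C 19 16774))
 (Pq.cons (Pq.L [] 8787 (Pf.C 33 0xc0c101))
 (Pq.cons (Pq.L [] 8210 (Pf.C 16 49286))
 (Pq.cons (Pq.D 6 (Pq.cons (Pq.L [] 16418 (Pf.C 19 16775))
 (Pq.cons (Pq.L [] 0x130034 (Pf.C 33 0x81c301))
 (Pq.cons (Pq.L [] 16418 (Pf.C 19 16775))
 (Pq.cons (Pq.L [] 17507 (Pf.C 33 0xe0c101))
 (Pq.cons (Pq.L [] 16418 (Pf.C 16 49287))
 (Pq.cons (Pq.L [] 0x1c7740 (Pf.C 49 0x70c0c105))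
 Pq.nil))))))) Pq.nil))))))) (Pq.cons (Pq.L [] 4106 (Pf.C 16 49285))
 (Pq.cons (Pq.L [] 256 (Pf.C 2 642))
 Pq.nil))))))) (Pq.cons (Pq.L [] 2054 (Pf.C 16 49284))
 (Pq.cons (Pq.L [] 128 (Pf.C 2 514))
 Pq.nil))))))) (Pq.cons (Pq.D 3 (Pq.cons (Pq.D 4 (Pq.cons (Pq.D 5 (Pq.cons (Pq.L [] 0x4335b (Pf.C 42 0x10c14182))
 (Pq.cons (Pq.L [] 8210 (Pf.C 19 17155))
 (Pq.cons (Pq.L [] 66197 (Pf.C 33 0xc10101))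
 (Pq.cons (Pq.L [] 8210 (Pf.C 19 17155))
 (Pq.cons (Pq.L [] 0x40018 (Pf.C 30 17030))
 (Pq.cons (Pq.L [] 0x4301a (Pf.C 33 0x614301))
 Pq.nil))))))) (Pq.cons (Pq.L [] 4106 (Pf.C 19 17027))
 (Pq.cons (Pq.D 5 (Pq.cons (Pq.L [] 0x4335b (Pf.C 42 0x10c14182))
 (Pq.cons (Pq.L [] 8210 (Pf.C 19 17155))
 (Pq.cons (Pq.L [] 66197 (Pf.C 33 0xc10101))
 (Pq.cons (Pq.L [] 8210 (Pf.C 19 17155))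
 (Pq.cons (Pq.L [] 0x40018 (Pf.C 30 17030))
 (Pq.cons (Pq.D 6 (Pq.cons (Pq.L [] 0x106032 (Pf.C 33 0x61c301))
 (Pq.cons (Pq.L [] 16418 (Pf.C 19 17283))
 (Pq.cons (Pq.L [] 0x204a5 (Pf.C 33 0xe10101))
 (Pq.cons (Pq.L [] 16418 (Pf.C 19 17283))
 (Pq.cons (Pq.L [] 0x106032 (Pf.C 33 0x61c301))
 (Pq.cons (Pq.L [] 0x1f8780 (Pf.C 49 0x70c10105))
 Pq.nil))))))) Pq.nil))))))) (Pq.cons (Pq.L [] 4106 (Pf.C 19 17027))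
 (Pq.cons (Pq.L [] 256 (Pf.C 2 642))
 (Pq.cons (Pq.L [] 256 (Pf.C 2 642))
 Pq.nil))))))) (Pq.cons (Pq.L [] 2054 (Pf.C 19 16899))
 (Pq.cons (Pq.D 4 (Pq.cons (Pq.D 5 (Pq.cons (Pq.L [] 0x4335b (Pf.C 42 0x10c14182))
 (Pq.cons (Pq.L [] 8210 (Pf.C 19 17155))
 (Pq.cons (Pq.L [] 0x4335b (Pf.C 42 0x10c14182))
 (Pq.cons (Pq.L [] 8210 (Pf.C 19 17155))
 (Pq.cons (Pq.L [] 0x40018 (Pf.C 30 17030))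
 (Pq.cons (Pq.L [] 0x4301a (Pf.C 33 0x614301))
 Pq.nil))))))) (Pq.cons (Pq.L [] 4106 (Pf.C 19 17027))
 (Pq.cons (Pq.D 5 (Pq.cons (Pq.L [] 0x4335b (Pf.C 42 0x10c14182))
 (Pq.cons (Pq.L [] 8210 (Pf.C 19 17155))
 (Pq.cons (Pq.L [] 0x4335b (Pf.C 42 0x10c14182))
 (Pq.cons (Pq.L [] 8210 (Pf.C 19 17155))
 (Pq.cons (Pq.L [] 0x40018 (Pf.C 30 17030))
 (Pq.cons (Pq.D 6 (Pq.cons (Pq.L [] 0x106032 (Pf.C 33 0x61c301))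
 (Pq.cons (Pq.L [] 16418 (Pf.C 19 17283))
 (Pq.cons (Pq.L [] 0x106673 (Pf.C 57 0x70c0c101))
 (Pq.cons (Pq.L [] 16418 (Pf.C 19 17283))
 (Pq.cons (Pq.L [] 0x106032 (Pf.C 33 0x61c301))
 (Pq.cons (Pq.L [] 0x100000 (Pf.C 2 902))
 Pq.nil))))))) Pq.nil))))))) (Pq.cons (Pq.L [] 4106 (Pf.C 19 17027))
 (Pq.cons (Pq.L [] 256 (Pf.C 2 642))
 (Pq.cons (Pq.L [] 256 (Pf.C 2 642))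
 Pq.nil))))))) (Pq.cons (Pq.L [] 2054 (Pf.C 19 16899))
 (Pq.cons (Pq.L [] 128 (Pf.C 2 514))
 (Pq.cons (Pq.L [] 128 (Pf.C 2 514))
 Pq.nil))))))) (Pq.cons (Pq.D 3 (Pq.cons (Pq.L [] 2054 (Pf.C 19 16772))
 (Pq.cons (Pq.D 4 (Pq.cons (Pq.L [] 4106 (Pf.C 19 16773))
 (Pq.cons (Pq.D 5 (Pq.cons (Pq.L [] 8210 (Pf.C 19 16774))
 (Pq.cons (Pq.L [] 0x4335b (Pf.C 42 0x10c14182))
 (Pq.cons (Pq.L [] 8210 (Pf.C 19 16774))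
 (Pq.cons (Pq.L [] 66197 (Pf.C 33 0xc10101))
 (Pq.cons (Pq.L [] 8210 (Pf.C 16 49286))
 (Pq.cons (Pq.L [] 0x4301a (Pf.C 33 0x614301))
 Pq.nil))))))) (Pq.cons (Pq.L [] 4106 (Pf.C 19 16773))
 (Pq.cons (Pq.D 5 (Pq.cons (Pq.L [] 8210 (Pf.C 19 16774))
 (Pq.cons (Pq.L [] 0x4335b (Pf.C 42 0x10c14182))
 (Pq.cons (Pq.L [] 8210 (Pf.C 19 16774))
 (Pq.cons (Pq.L [] 66197 (Pf.C 33 0xc10101))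
 (Pq.cons (Pq.L [] 8210 (Pf.C 16 49286))
 (Pq.cons (Pq.D 6 (Pq.cons (Pq.L [] 16418 (Pf.C 19 16775))
 (Pq.cons (Pq.L [] 0x106032 (Pf.C 33 0x61c301))
 (Pq.cons (Pq.L [] 16418 (Pf.C 19 16775))
 (Pq.cons (Pq.L [] 0x204a5 (Pf.C 33 0xe10101))
 (Pq.cons (Pq.L [] 16418 (Pf.C 16 49287))
 (Pq.cons (Pq.L [] 0x1f8780 (Pf.C 49 0x70c10105))
 Pq.nil))))))) Pq.nil))))))) (Pq.cons (Pq.L [] 4106 (Pf.C 16 49285))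
 (Pq.cons (Pq.L [] 256 (Pf.C 2 642))
 Pq.nil))))))) (Pq.cons (Pq.L [] 2054 (Pf.C 19 16772))
 (Pq.cons (Pq.D 4 (Pq.cons (Pq.L [] 4106 (Pf.C 19 16773))
 (Pq.cons (Pq.D 5 (Pq.cons (Pq.L [] 8210 (Pf.C 19 16774))
 (Pq.cons (Pq.L [] 0x4335b (Pf.C 42 0x10c14182))
 (Pq.cons (Pq.L [] 8210 (Pf.C 19 16774))
 (Pq.cons (Pq.L [] 0x4335b (Pf.C 42 0x10c14182))
 (Pq.cons (Pq.L [] 8210 (Pf.C 16 49286))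
 (Pq.cons (Pq.L [] 0x4301a (Pf.C 33 0x614301))
 Pq.nil))))))) (Pq.cons (Pq.L [] 4106 (Pf.C 19 16773))
 (Pq.cons (Pq.D 5 (Pq.cons (Pq.L [] 8210 (Pf.C 19 16774))
 (Pq.cons (Pq.L [] 0x4335b (Pf.C 42 0x10c14182))
 (Pq.cons (Pq.L [] 8210 (Pf.C 19 16774))
 (Pq.cons (Pq.L [] 0x4335b (Pf.C 42 0x10c14182))
 (Pq.cons (Pq.L [] 8210 (Pf.C 16 49286))
 (Pq.cons (Pq.D 6 (Pq.cons (Pq.L [] 16418 (Pf.C 19 16775))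
 (Pq.cons (Pq.L [] 0x106032 (Pf.C 33 0x61c301))
 (Pq.cons (Pq.L [] 16418 (Pf.C 19 16775))
 (Pq.cons (Pq.L [] 0x106673 (Pf.C 57 0x70c0c101))
 (Pq.cons (Pq.L [] 16418 (Pf.C 16 49287))
 (Pq.cons (Pq.L [] 0x100000 (Pf.C 2 902))
 Pq.nil))))))) Pq.nil))))))) (Pq.cons (Pq.L [] 4106 (Pf.C 16 49285))
 (Pq.cons (Pq.L [] 256 (Pf.C 2 642))
 Pq.nil))))))) (Pq.cons (Pq.L [] 2054 (Pf.C 16 49284))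
 (Pq.cons (Pq.L [] 128 (Pf.C 2 514))
 Pq.nil))))))) (Pq.cons (Pq.L [] 64 (Pf.C 2 386))
 (Pq.cons (Pq.L [] 64 (Pf.C 2 386))
 Pq.nil))))))) Pq.nil))))))) Pq.nil)
theorem s1_o76 : AllRef s1_T s1_G85 (List.drop 1 (List.drop 1 (List.drop 3 (List.flatMap (splitP 0) (List.take 1 (applyObl bD_T 3 [162,163,164,165,166,167] [1,1,1,1,2,2] [])))))) :=
  chkPq_sound s1_o76c _ (by decide +kernel)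
noncomputable def s1_o77c : Pq := (Pq.cons (Pq.D 0 (Pq.cons (Pq.D 1 (Pq.cons (Pq.L [] 1 (Pf.C 1 257))
 (Pq.cons (Pq.L [] 1 (Pf.C 1 257))
 (Pq.cons (Pq.L [] 1 (Pf.C 1 257))
 (Pq.cons (Pq.L [] 1 (Pf.C 1 257))
 Pq.nil))))) (Pq.cons (Pq.D 1 (Pq.cons (Pq.L [] 1 (Pf.C 1 257))
 (Pq.cons (Pq.L [] 1 (Pf.C 1 257))
 (Pq.cons (Pq.L [] 1 (Pf.C 1 257))
 (Pq.cons (Pq.L [] 1 (Pf.C 1 257))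
 Pq.nil))))) (Pq.cons (Pq.D 1 (Pq.cons (Pq.L [] 1 (Pf.C 1 257))
 (Pq.cons (Pq.L [] 1 (Pf.C 1 257))
 (Pq.cons (Pq.L [] 1 (Pf.C 1 257))
 (Pq.cons (Pq.L [] 1 (Pf.C 1 257))
 Pq.nil))))) (Pq.cons (Pq.D 1 (Pq.cons (Pq.L [] 1 (Pf.C 1 257))
 (Pq.cons (Pq.L [] 1 (Pf.C 1 257))
 (Pq.cons (Pq.L [] 1 (Pf.C 1 257))
 (Pq.cons (Pq.L [] 1 (Pf.C 1 257))
 Pq.nil))))) Pq.nil))))) (Pq.cons (Pq.D 0 (Pq.cons (Pq.D 1 (Pq.cons (Pq.L [] 1 (Pf.C 2 257))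
 (Pq.cons (Pq.L [] 1 (Pf.C 2 257))
 Pq.nil))) (Pq.cons (Pq.D 1 (Pq.cons (Pq.L [] 1 (Pf.C 2 257))
 (Pq.cons (Pq.L [] 1 (Pf.C 2 257))
 Pq.nil))) Pq.nil))) Pq.nil))
theorem s1_o77 : AllRef s1_T s1_G85 (List.drop 1 (applyObl bD_T 3 [162,163,164,165,166,167] [1,1,1,1,2,2] [])) :=
  chkPq_sound s1_o77c _ (by decide +kernel)
noncomputable def s1_o78c : Pq := (Pq.cons (Pq.L [] 0 (Pf.W 155 0 [] [1] (Pf.cons (Pf.C 15 130) Pf.nil)))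
 (Pq.cons (Pq.L [] 0 (Pf.W 155 0 [] [1] (Pf.cons (Pf.B 2 1 (Pf.C 14 130) (Pf.C 1 130)) Pf.nil)))
 Pq.nil))
theorem s1_o78 : AllRef s1_T s1_G84 (List.map pat1 [162,163]) :=
  chkPq_sound s1_o78c _ (by decide +kernel)
noncomputable def s1_o79c : Pq := (Pq.cons (Pq.D 0 (Pq.cons (Pq.D 1 (Pq.cons (Pq.L [] 1 (Pf.C 1 257))
 (Pq.cons (Pq.L [] 1 (Pf.C 1 257))
 (Pq.cons (Pq.L [] 1 (Pf.C 1 257))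
 (Pq.cons (Pq.L [] 1 (Pf.C 6 130))
 (Pq.cons (Pq.D 2 (Pq.cons (Pq.L [] 2 (Pf.C 1 385))
 (Pq.cons (Pq.L [] 2 (Pf.C 1 385))
 (Pq.cons (Pq.L [] 2 (Pf.C 1 385))
 (Pq.cons (Pq.L [] 2 (Pf.C 6 131))
 (Pq.cons (Pq.D 3 (Pq.cons (Pq.L [] 4 (Pf.C 1 513))
 (Pq.cons (Pq.L [] 4 (Pf.C 1 513))
 (Pq.cons (Pq.L [] 4 (Pf.C 1 513))
 (Pq.cons (Pq.L [] 4 (Pf.C 6 132))
 (Pq.cons (Pq.D 4 (Pq.cons (Pq.D 5 (Pq.cons (Pq.L [] 16384 (Pf.C 1 773))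
 (Pq.cons (Pq.L [] 16384 (Pf.C 1 773))
 (Pq.cons (Pq.L [] 16384 (Pf.C 1 773))
 (Pq.cons (Pq.L [] 29149 (Pf.C 58 0x50404304))
 (Pq.cons (Pq.L [] 16793 (Pf.C 34 0xa08086))
 Pq.nil)))))) (Pq.cons (Pq.L [] 4108 (Pf.C 28 17028))
 (Pq.cons (Pq.L [] 4108 (Pf.C 17 66177))
 (Pq.cons (Pq.L [] 4096 (Pf.C 2 644))
 (Pq.cons (Pq.L [] 4096 (Pf.C 2 644))
 Pq.nil)))))) Pq.nil)))))) Pq.nil)))))) Pq.nil)))))) (Pq.cons (Pq.D 1 (Pq.cons (Pq.L [] 1 (Pf.C 1 257))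
 (Pq.cons (Pq.L [] 1 (Pf.C 1 257))
 (Pq.cons (Pq.L [] 1 (Pf.C 1 257))
 (Pq.cons (Pq.D 2 (Pq.cons (Pq.L [] 2 (Pf.C 1 385))
 (Pq.cons (Pq.L [] 2 (Pf.C 1 385))
 (Pq.cons (Pq.L [] 2 (Pf.C 1 385))
 (Pq.cons (Pq.D 3 (Pq.cons (Pq.L [] 4 (Pf.C 1 513))
 (Pq.cons (Pq.L [] 4 (Pf.C 1 513))
 (Pq.cons (Pq.L [] 4 (Pf.C 1 513))
 (Pq.cons (Pq.D 4 (Pq.cons (Pq.L [0] 4301 (Pf.C 38 0xa08201))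
 (Pq.cons (Pq.D 5 (Pq.cons (Pq.L [] 16384 (Pf.C 1 773))
 (Pq.cons (Pq.L [] 16384 (Pf.C 1 773))
 (Pq.cons (Pq.L [] 16384 (Pf.C 1 773))
 (Pq.cons (Pq.L [] 16793 (Pf.C 31 0xc14101))
 (Pq.cons (Pq.L [] 29149 (Pf.C 38 0x60a10101))
 Pq.nil)))))) (Pq.cons (Pq.L [] 4108 (Pf.C 22 82433))
 (Pq.cons (Pq.L [0] 4301 (Pf.C 38 0xa10101))
 (Pq.cons (Pq.L [] 4096 (Pf.C 2 644))
 Pq.nil)))))) (Pq.cons (Pq.L [] 69 (Pf.C 30 65666))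
 Pq.nil)))))) (Pq.cons (Pq.L [] 35 (Pf.C 30 49282))
 Pq.nil)))))) (Pq.cons (Pq.D 2 (Pq.cons (Pq.L [] 2 (Pf.C 1 385))
 (Pq.cons (Pq.L [] 2 (Pf.C 1 385))
 (Pq.cons (Pq.L [] 2 (Pf.C 1 385))
 (Pq.cons (Pq.L [] 35 (Pf.C 30 32899))
 (Pq.cons (Pq.D 3 (Pq.cons (Pq.L [] 4 (Pf.C 1 513))
 (Pq.cons (Pq.L [] 4 (Pf.C 1 513))
 (Pq.cons (Pq.L [] 4 (Pf.C 1 513))
 (Pq.cons (Pq.L [] 69 (Pf.C 30 32900))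
 (Pq.cons (Pq.D 4 (Pq.cons (Pq.L [] 4108 (Pf.C 28 82052))
 (Pq.cons (Pq.D 5 (Pq.cons (Pq.L [] 16384 (Pf.C 1 773))
 (Pq.cons (Pq.L [] 16384 (Pf.C 1 773))
 (Pq.cons (Pq.L [] 16384 (Pf.C 1 773))
 (Pq.cons (Pq.L [0] 28700 (Pf.C 42 0x40c14080))
 (Pq.cons (Pq.L [] 16793 (Pf.C 37 0xa08086))
 Pq.nil)))))) (Pq.cons (Pq.L [] 4108 (Pf.C 19 66177))
 (Pq.cons (Pq.L [] 4301 (Pf.C 33 0x214202))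
 (Pq.cons (Pq.L [] 4096 (Pf.C 2 644))
 Pq.nil)))))) Pq.nil)))))) Pq.nil)))))) Pq.nil)))))) (Pq.cons (Pq.D 1 (Pq.cons (Pq.L [] 1 (Pf.C 1 257))
 (Pq.cons (Pq.L [] 1 (Pf.C 1 257))
 (Pq.cons (Pq.L [] 1 (Pf.C 1 257))
 (Pq.cons (Pq.D 2 (Pq.cons (Pq.L [] 2 (Pf.C 1 385))
 (Pq.cons (Pq.L [] 2 (Pf.C 1 385))
 (Pq.cons (Pq.L [] 2 (Pf.C 1 385))
 (Pq.cons (Pq.D 3 (Pq.cons (Pq.L [] 4 (Pf.C 1 513))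
 (Pq.cons (Pq.L [] 4 (Pf.C 1 513))
 (Pq.cons (Pq.L [] 4 (Pf.C 1 513))
 (Pq.cons (Pq.D 4 (Pq.cons (Pq.L [] 4108 (Pf.C 17 65669))
 (Pq.cons (Pq.L [] 4108 (Pf.C 22 16901))
 (Pq.cons (Pq.D 5 (Pq.cons (Pq.L [] 16384 (Pf.C 1 773))
 (Pq.cons (Pq.L [] 16384 (Pf.C 1 773))
 (Pq.cons (Pq.L [] 16384 (Pf.C 1 773))
 (Pq.cons (Pq.L [] 16793 (Pf.C 31 0x414301))
 (Pq.cons (Pq.L [] 29149 (Pf.C 58 0x50404304))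
 Pq.nil)))))) (Pq.cons (Pq.L [] 4096 (Pf.C 2 644))
 (Pq.cons (Pq.L [] 4096 (Pf.C 2 644))
 Pq.nil)))))) (Pq.cons (Pq.L [] 69 (Pf.C 16 16898))
 Pq.nil)))))) (Pq.cons (Pq.L [] 35 (Pf.C 16 16770))
 Pq.nil)))))) (Pq.cons (Pq.D 2 (Pq.cons (Pq.L [] 2 (Pf.C 1 385))
 (Pq.cons (Pq.L [] 2 (Pf.C 1 385))
 (Pq.cons (Pq.L [] 2 (Pf.C 1 385))
 (Pq.cons (Pq.L [] 35 (Pf.C 16 16643))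
 (Pq.cons (Pq.D 3 (Pq.cons (Pq.L [] 4 (Pf.C 1 513))
 (Pq.cons (Pq.L [] 4 (Pf.C 1 513))
 (Pq.cons (Pq.L [] 4 (Pf.C 1 513))
 (Pq.cons (Pq.L [] 69 (Pf.C 16 16644))
 (Pq.cons (Pq.D 4 (Pq.cons (Pq.L [] 4108 (Pf.C 17 65669))
 (Pq.cons (Pq.L [] 4108 (Pf.C 19 65669))
 (Pq.cons (Pq.D 5 (Pq.cons (Pq.L [] 16384 (Pf.C 1 773))
 (Pq.cons (Pq.L [] 16384 (Pf.C 1 773))
 (Pq.cons (Pq.L [] 16384 (Pf.C 1 773))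
 (Pq.cons (Pq.L [0] 28700 (Pf.C 42 0x40c04280))
 (Pq.cons (Pq.L [] 29149 (Pf.C 57 0x50404304))
 Pq.nil)))))) (Pq.cons (Pq.L [] 4096 (Pf.C 2 644))
 (Pq.cons (Pq.L [] 4096 (Pf.C 2 644))
 Pq.nil)))))) Pq.nil)))))) Pq.nil)))))) Pq.nil)))))) (Pq.cons (Pq.D 1 (Pq.cons (Pq.L [] 1 (Pf.C 6 257))
 (Pq.cons (Pq.D 2 (Pq.cons (Pq.L [] 2 (Pf.C 6 385))
 (Pq.cons (Pq.D 3 (Pq.cons (Pq.L [] 4 (Pf.C 6 513))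
 (Pq.cons (Pq.D 4 (Pq.cons (Pq.L [] 4096 (Pf.C 1 644))
 (Pq.cons (Pq.L [] 4096 (Pf.C 1 644))
 (Pq.cons (Pq.L [] 4096 (Pf.C 1 644))
 (Pq.cons (Pq.D 5 (Pq.cons (Pq.L [0] 28700 (Pf.C 38 0xc04284))
 (Pq.cons (Pq.L [] 16793 (Pf.C 31 0xa18082))
 (Pq.cons (Pq.L [] 29149 (Pf.C 55 0x60a10101))
 (Pq.cons (Pq.L [0] 28700 (Pf.C 38 0xc14084))
 (Pq.cons (Pq.L [] 16384 (Pf.C 2 773))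
 Pq.nil)))))) (Pq.cons (Pq.L [] 4108 (Pf.C 30 82433))
 Pq.nil)))))) (Pq.cons (Pq.L [] 69 (Pf.C 22 65666))
 (Pq.cons (Pq.L [] 4 (Pf.C 2 513))
 (Pq.cons (Pq.L [] 4 (Pf.C 2 513))
 Pq.nil)))))) (Pq.cons (Pq.L [] 35 (Pf.C 22 49282))
 (Pq.cons (Pq.L [] 2 (Pf.C 2 385))
 (Pq.cons (Pq.L [] 2 (Pf.C 2 385))
 Pq.nil)))))) (Pq.cons (Pq.D 2 (Pq.cons (Pq.L [] 2 (Pf.C 6 385))
 (Pq.cons (Pq.L [] 35 (Pf.C 22 32899))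
 (Pq.cons (Pq.D 3 (Pq.cons (Pq.L [] 4 (Pf.C 6 513))
 (Pq.cons (Pq.L [] 69 (Pf.C 22 32900))
 (Pq.cons (Pq.D 4 (Pq.cons (Pq.L [] 4096 (Pf.C 1 644))
 (Pq.cons (Pq.L [] 4096 (Pf.C 1 644))
 (Pq.cons (Pq.L [] 4096 (Pf.C 1 644))
 (Pq.cons (Pq.D 5 (Pq.cons (Pq.L [] 29149 (Pf.C 52 0x50404304))
 (Pq.cons (Pq.L [] 28672 (Pf.C 22 66182))
 (Pq.cons (Pq.L [] 16793 (Pf.C 31 0xa08086))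
 (Pq.cons (Pq.L [] 16384 (Pf.C 2 773))
 (Pq.cons (Pq.L [] 16384 (Pf.C 2 773))
 Pq.nil)))))) (Pq.cons (Pq.L [] 4108 (Pf.C 16 66177))
 Pq.nil)))))) (Pq.cons (Pq.L [] 4 (Pf.C 2 513))
 (Pq.cons (Pq.L [] 4 (Pf.C 2 513))
 Pq.nil)))))) (Pq.cons (Pq.L [] 2 (Pf.C 2 385))
 (Pq.cons (Pq.L [] 2 (Pf.C 2 385))
 Pq.nil)))))) (Pq.cons (Pq.L [] 1 (Pf.C 2 257))
 (Pq.cons (Pq.L [] 1 (Pf.C 2 257))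
 Pq.nil)))))) (Pq.cons (Pq.D 1 (Pq.cons (Pq.D 2 (Pq.cons (Pq.D 3 (Pq.cons (Pq.D 4 (Pq.cons (Pq.L [] 4096 (Pf.C 1 644))
 (Pq.cons (Pq.L [] 4096 (Pf.C 1 644))
 (Pq.cons (Pq.L [] 4096 (Pf.C 1 644))
 (Pq.cons (Pq.L [] 4108 (Pf.C 16 65669))
 (Pq.cons (Pq.D 5 (Pq.cons (Pq.L [] 16793 (Pf.C 34 0x414301))
 (Pq.cons (Pq.L [] 28672 (Pf.C 28 66309))
 (Pq.cons (Pq.L [] 29149 (Pf.C 52 0x50404304))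
 (Pq.cons (Pq.L [] 16384 (Pf.C 2 773))
 (Pq.cons (Pq.L [] 16384 (Pf.C 2 773))
 Pq.nil)))))) Pq.nil)))))) (Pq.cons (Pq.L [] 69 (Pf.C 28 33281))
 (Pq.cons (Pq.L [] 69 (Pf.C 17 16898))
 (Pq.cons (Pq.L [] 4 (Pf.C 2 513))
 (Pq.cons (Pq.L [] 4 (Pf.C 2 513))
 Pq.nil)))))) (Pq.cons (Pq.L [] 35 (Pf.C 28 33153))
 (Pq.cons (Pq.L [] 35 (Pf.C 17 16770))
 (Pq.cons (Pq.L [] 2 (Pf.C 2 385))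
 (Pq.cons (Pq.L [] 2 (Pf.C 2 385))
 Pq.nil)))))) (Pq.cons (Pq.D 2 (Pq.cons (Pq.L [] 35 (Pf.C 28 49409))
 (Pq.cons (Pq.D 3 (Pq.cons (Pq.L [] 69 (Pf.C 28 65793))
 (Pq.cons (Pq.D 4 (Pq.cons (Pq.L [] 4096 (Pf.C 1 644))
 (Pq.cons (Pq.L [] 4096 (Pf.C 1 644))
 (Pq.cons (Pq.L [] 4096 (Pf.C 1 644))
 (Pq.cons (Pq.L [] 4108 (Pf.C 30 16901))
 (Pq.cons (Pq.D 5 (Pq.cons (Pq.L [] 28700 (Pf.C 33 0x818085))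
 (Pq.cons (Pq.L [] 16793 (Pf.C 37 0x414301))
 (Pq.cons (Pq.L [] 29149 (Pf.C 53 0x50404304))
 (Pq.cons (Pq.L [] 28700 (Pf.C 33 0x818281))
 (Pq.cons (Pq.L [] 16384 (Pf.C 2 773))
 Pq.nil)))))) Pq.nil)))))) (Pq.cons (Pq.L [] 69 (Pf.C 19 16898))
 (Pq.cons (Pq.L [] 4 (Pf.C 2 513))
 (Pq.cons (Pq.L [] 4 (Pf.C 2 513))
 Pq.nil)))))) (Pq.cons (Pq.L [] 35 (Pf.C 19 16770))
 (Pq.cons (Pq.L [] 2 (Pf.C 2 385))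
 (Pq.cons (Pq.L [] 2 (Pf.C 2 385))
 Pq.nil)))))) (Pq.cons (Pq.D 2 (Pq.cons (Pq.L [] 35 (Pf.C 17 16643))
 (Pq.cons (Pq.L [] 35 (Pf.C 19 16643))
 (Pq.cons (Pq.D 3 (Pq.cons (Pq.L [] 69 (Pf.C 17 16644))
 (Pq.cons (Pq.L [] 69 (Pf.C 19 16644))
 (Pq.cons (Pq.D 4 (Pq.cons (Pq.L [] 4096 (Pf.C 1 644))
 (Pq.cons (Pq.L [] 4096 (Pf.C 1 644))
 (Pq.cons (Pq.L [] 4096 (Pf.C 1 644))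
 (Pq.cons (Pq.L [] 4108 (Pf.C 16 65669))
 (Pq.cons (Pq.D 5 (Pq.cons (Pq.L [] 28700 (Pf.C 33 0x818085))
 (Pq.cons (Pq.L [] 29149 (Pf.C 53 0x50404304))
 (Pq.cons (Pq.L [] 29149 (Pf.C 52 0x50404304))
 (Pq.cons (Pq.L [] 16384 (Pf.C 2 773))
 (Pq.cons (Pq.L [] 16384 (Pf.C 2 773))
 Pq.nil)))))) Pq.nil)))))) (Pq.cons (Pq.L [] 4 (Pf.C 2 513))
 (Pq.cons (Pq.L [] 4 (Pf.C 2 513))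
 Pq.nil)))))) (Pq.cons (Pq.L [] 2 (Pf.C 2 385))
 (Pq.cons (Pq.L [] 2 (Pf.C 2 385))
 Pq.nil)))))) (Pq.cons (Pq.L [] 1 (Pf.C 2 257))
 (Pq.cons (Pq.L [] 1 (Pf.C 2 257))
 Pq.nil)))))) Pq.nil)))))) (Pq.cons (Pq.D 0 (Pq.cons (Pq.D 1 (Pq.cons (Pq.L [] 1 (Pf.C 1 257))
 (Pq.cons (Pq.L [] 1 (Pf.C 1 257))
 (Pq.cons (Pq.L [] 1 (Pf.C 1 257))
 Pq.nil)))) (Pq.cons (Pq.D 1 (Pq.cons (Pq.L [] 1 (Pf.C 1 257))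
 (Pq.cons (Pq.L [] 1 (Pf.C 1 257))
 (Pq.cons (Pq.L [] 1 (Pf.C 1 257))
 Pq.nil)))) (Pq.cons (Pq.D 1 (Pq.cons (Pq.L [] 1 (Pf.C 1 257))
 (Pq.cons (Pq.L [] 1 (Pf.C 1 257))
 (Pq.cons (Pq.L [] 1 (Pf.C 1 257))
 Pq.nil)))) Pq.nil)))) (Pq.cons (Pq.D 0 (Pq.cons (Pq.D 1 (Pq.cons (Pq.L [] 1 (Pf.C 2 257))
 (Pq.cons (Pq.L [] 1 (Pf.C 2 257))
 Pq.nil))) (Pq.cons (Pq.D 1 (Pq.cons (Pq.L [] 1 (Pf.C 2 257))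
 (Pq.cons (Pq.L [] 1 (Pf.C 2 257))
 Pq.nil))) Pq.nil))) Pq.nil)))
theorem s1_o79 : AllRef s1_T s1_G86 (applyObl bS113_T 3 [161,164,165,166,167] [1,1,1,2,2] [(161,0xc00000000000000000000000000000000000000000),(164,0x800000000000000000000000000000000000000000),(165,0xc00000000000000000000000000000000000000000),(166,0x220000000000000000000000000000000000000000),(167,0x320000000000000000000000000000000000000000)]) :=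
  chkPq_sound s1_o79c _ (by decide +kernel)
noncomputable def s1_o80c : Pq := (Pq.cons (Pq.D 1 (Pq.cons (Pq.L [] 1 (Pf.C 1 257))
 (Pq.cons (Pq.L [] 1 (Pf.C 1 257))
 (Pq.cons (Pq.L [] 1 (Pf.C 1 257))
 (Pq.cons (Pq.L [] 1 (Pf.C 1 257))
 (Pq.cons (Pq.D 2 (Pq.cons (Pq.L [] 2 (Pf.C 1 385))
 (Pq.cons (Pq.L [] 2 (Pf.C 1 385))
 (Pq.cons (Pq.L [] 2 (Pf.C 1 385))
 (Pq.cons (Pq.L [] 2 (Pf.C 1 385))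
 (Pq.cons (Pq.D 3 (Pq.cons (Pq.L [] 4 (Pf.C 1 513))
 (Pq.cons (Pq.L [] 4 (Pf.C 1 513))
 (Pq.cons (Pq.L [] 4 (Pf.C 1 513))
 (Pq.cons (Pq.L [] 4 (Pf.C 1 513))
 (Pq.cons (Pq.D 4 (Pq.cons (Pq.D 5 (Pq.cons (Pq.L [0] 28700 (Pf.C 42 0xc14084))
 (Pq.cons (Pq.L [] 273 (Pf.C 24 98561))
 (Pq.cons (Pq.L [] 273 (Pf.C 23 98561))
 (Pq.cons (Pq.L [] 273 (Pf.C 23 98561))
 (Pq.cons (Pq.L [] 16793 (Pf.C 32 0xc14101))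
 (Pq.cons (Pq.L [] 273 (Pf.C 27 98434))
 Pq.nil))))))) (Pq.cons (Pq.L [] 137 (Pf.C 24 82177))
 (Pq.cons (Pq.L [] 137 (Pf.C 23 82177))
 (Pq.cons (Pq.L [] 137 (Pf.C 23 82177))
 (Pq.cons (Pq.L [] 4096 (Pf.C 2 644))
 (Pq.cons (Pq.L [] 137 (Pf.C 27 82050))
 Pq.nil))))))) (Pq.cons (Pq.D 4 (Pq.cons (Pq.D 5 (Pq.cons (Pq.L [] 29149 (Pf.C 41 0x60a08084))
 (Pq.cons (Pq.L [] 273 (Pf.C 24 98561))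
 (Pq.cons (Pq.L [] 273 (Pf.C 23 98561))
 (Pq.cons (Pq.L [] 273 (Pf.C 23 98561))
 (Pq.cons (Pq.L [] 16793 (Pf.C 32 0xc14101))
 (Pq.cons (Pq.L [] 273 (Pf.C 27 98434))
 Pq.nil))))))) (Pq.cons (Pq.L [] 137 (Pf.C 24 82177))
 (Pq.cons (Pq.L [] 137 (Pf.C 23 82177))
 (Pq.cons (Pq.L [] 137 (Pf.C 23 82177))
 (Pq.cons (Pq.L [] 4096 (Pf.C 2 644))
 (Pq.cons (Pq.L [] 137 (Pf.C 27 82050))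
 Pq.nil))))))) Pq.nil))))))) (Pq.cons (Pq.D 3 (Pq.cons (Pq.L [] 4 (Pf.C 1 513))
 (Pq.cons (Pq.L [] 4 (Pf.C 1 513))
 (Pq.cons (Pq.L [] 4 (Pf.C 1 513))
 (Pq.cons (Pq.L [] 4 (Pf.C 1 513))
 (Pq.cons (Pq.D 4 (Pq.cons (Pq.L [] 5871 (Pf.C 39 0x30a10101))
 (Pq.cons (Pq.L [] 137 (Pf.C 24 82177))
 (Pq.cons (Pq.L [] 137 (Pf.C 23 82177))
 (Pq.cons (Pq.L [] 137 (Pf.C 23 82177))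
 (Pq.cons (Pq.L [] 5871 (Pf.C 39 0x30a10101))
 (Pq.cons (Pq.L [] 137 (Pf.C 27 82050))
 Pq.nil))))))) (Pq.cons (Pq.D 4 (Pq.cons (Pq.D 5 (Pq.cons (Pq.L [] 29149 (Pf.C 41 0x60a08084))
 (Pq.cons (Pq.L [] 273 (Pf.C 24 98561))
 (Pq.cons (Pq.L [] 273 (Pf.C 23 98561))
 (Pq.cons (Pq.L [] 273 (Pf.C 23 98561))
 (Pq.cons (Pq.L [] 16793 (Pf.C 32 0xc14101))
 (Pq.cons (Pq.L [] 273 (Pf.C 27 98434))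
 Pq.nil))))))) (Pq.cons (Pq.L [] 137 (Pf.C 24 82177))
 (Pq.cons (Pq.L [] 137 (Pf.C 23 82177))
 (Pq.cons (Pq.L [] 137 (Pf.C 23 82177))
 (Pq.cons (Pq.L [] 4096 (Pf.C 2 644))
 (Pq.cons (Pq.L [] 137 (Pf.C 27 82050))
 Pq.nil))))))) Pq.nil))))))) Pq.nil))))))) (Pq.cons (Pq.D 2 (Pq.cons (Pq.L [] 2 (Pf.C 1 385))
 (Pq.cons (Pq.L [] 2 (Pf.C 1 385))
 (Pq.cons (Pq.L [] 2 (Pf.C 1 385))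
 (Pq.cons (Pq.L [] 2 (Pf.C 1 385))
 (Pq.cons (Pq.D 3 (Pq.cons (Pq.L [] 4 (Pf.C 1 513))
 (Pq.cons (Pq.L [] 4 (Pf.C 1 513))
 (Pq.cons (Pq.L [] 4 (Pf.C 1 513))
 (Pq.cons (Pq.L [] 4 (Pf.C 1 513))
 (Pq.cons (Pq.D 4 (Pq.cons (Pq.L [] 5871 (Pf.C 39 0x20a10181))
 (Pq.cons (Pq.L [] 1034 (Pf.C 24 82305))
 (Pq.cons (Pq.L [] 1034 (Pf.C 23 82305))
 (Pq.cons (Pq.L [] 1034 (Pf.C 23 82305))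
 (Pq.cons (Pq.L [] 5871 (Pf.C 39 0x20a10181))
 (Pq.cons (Pq.L [] 1034 (Pf.C 27 82051))
 Pq.nil))))))) (Pq.cons (Pq.D 4 (Pq.cons (Pq.D 5 (Pq.cons (Pq.L [] 32286 (Pf.C 41 0x60a0c084))
 (Pq.cons (Pq.L [] 2066 (Pf.C 24 98689))
 (Pq.cons (Pq.L [] 2066 (Pf.C 23 98689))
 (Pq.cons (Pq.L [] 2066 (Pf.C 23 98689))
 (Pq.cons (Pq.L [] 19482 (Pf.C 32 0xc14181))
 (Pq.cons (Pq.L [] 2066 (Pf.C 27 98435))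
 Pq.nil))))))) (Pq.cons (Pq.L [] 1034 (Pf.C 24 82305))
 (Pq.cons (Pq.L [] 1034 (Pf.C 23 82305))
 (Pq.cons (Pq.L [] 1034 (Pf.C 23 82305))
 (Pq.cons (Pq.L [] 4096 (Pf.C 2 644))
 (Pq.cons (Pq.L [] 1034 (Pf.C 27 82051))
 Pq.nil))))))) Pq.nil))))))) (Pq.cons (Pq.D 3 (Pq.cons (Pq.L [] 4 (Pf.C 1 513))
 (Pq.cons (Pq.L [] 4 (Pf.C 1 513))
 (Pq.cons (Pq.L [] 4 (Pf.C 1 513))
 (Pq.cons (Pq.L [] 4 (Pf.C 1 513))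
 (Pq.cons (Pq.D 4 (Pq.cons (Pq.L [] 4288 (Pf.C 27 33412))
 (Pq.cons (Pq.L [] 128 (Pf.C 8 642))
 (Pq.cons (Pq.L [] 128 (Pf.C 9 642))
 (Pq.cons (Pq.L [0] 128 (Pf.C 18 82176))
 (Pq.cons (Pq.L [] 4096 (Pf.C 2 644))
 (Pq.cons (Pq.L [] 4096 (Pf.C 2 644))
 Pq.nil))))))) (Pq.cons (Pq.D 4 (Pq.cons (Pq.D 5 (Pq.cons (Pq.L [0] 28700 (Pf.C 42 0xc14084))
 (Pq.cons (Pq.L [0] 28700 (Pf.C 42 0xc14084))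
 (Pq.cons (Pq.L [0] 28700 (Pf.C 42 0xc14084))
 (Pq.cons (Pq.L [0] 28700 (Pf.C 42 0xc14084))
 (Pq.cons (Pq.L [] 16793 (Pf.C 34 0xa18082))
 (Pq.cons (Pq.L [] 16793 (Pf.C 34 0xa18082))
 Pq.nil))))))) (Pq.cons (Pq.L [] 128 (Pf.C 8 642))
 (Pq.cons (Pq.L [] 128 (Pf.C 9 642))
 (Pq.cons (Pq.L [0] 128 (Pf.C 18 82176))
 (Pq.cons (Pq.L [] 4096 (Pf.C 2 644))
 (Pq.cons (Pq.L [] 4096 (Pf.C 2 644))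
 Pq.nil))))))) Pq.nil))))))) Pq.nil))))))) Pq.nil))))))) (Pq.cons (Pq.D 1 (Pq.cons (Pq.L [] 1 (Pf.C 1 257))
 (Pq.cons (Pq.L [] 1 (Pf.C 1 257))
 (Pq.cons (Pq.L [] 1 (Pf.C 1 257))
 (Pq.cons (Pq.L [] 1 (Pf.C 1 257))
 (Pq.cons (Pq.D 2 (Pq.cons (Pq.L [] 2 (Pf.C 1 385))
 (Pq.cons (Pq.L [] 2 (Pf.C 1 385))
 (Pq.cons (Pq.L [] 2 (Pf.C 1 385))
 (Pq.cons (Pq.L [] 2 (Pf.C 1 385))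
 (Pq.cons (Pq.D 3 (Pq.cons (Pq.L [] 4 (Pf.C 1 513))
 (Pq.cons (Pq.L [] 4 (Pf.C 1 513))
 (Pq.cons (Pq.L [] 4 (Pf.C 1 513))
 (Pq.cons (Pq.L [] 4 (Pf.C 1 513))
 (Pq.cons (Pq.D 4 (Pq.cons (Pq.D 5 (Pq.cons (Pq.L [0] 28700 (Pf.C 42 0xc14084))
 (Pq.cons (Pq.L [0] 28700 (Pf.C 42 0xc14084))
 (Pq.cons (Pq.L [] 16 (Pf.C 12 134))
 (Pq.cons (Pq.L [] 273 (Pf.C 23 98561))
 (Pq.cons (Pq.L [] 16408 (Pf.C 24 17157))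
 (Pq.cons (Pq.L [] 16 (Pf.C 8 134))
 Pq.nil))))))) (Pq.cons (Pq.D 5 (Pq.cons (Pq.L [0] 28700 (Pf.C 42 0xc14084))
 (Pq.cons (Pq.L [0] 28700 (Pf.C 42 0xc14084))
 (Pq.cons (Pq.L [] 16 (Pf.C 12 134))
 (Pq.cons (Pq.L [] 273 (Pf.C 23 98561))
 (Pq.cons (Pq.L [] 16793 (Pf.C 32 0xc14101))
 (Pq.cons (Pq.L [] 16 (Pf.C 8 134))
 Pq.nil))))))) (Pq.cons (Pq.L [] 8 (Pf.C 12 133))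
 (Pq.cons (Pq.L [] 137 (Pf.C 23 82177))
 (Pq.cons (Pq.L [] 4096 (Pf.C 2 644))
 (Pq.cons (Pq.L [] 8 (Pf.C 8 133))
 Pq.nil))))))) (Pq.cons (Pq.D 4 (Pq.cons (Pq.D 5 (Pq.cons (Pq.L [] 29149 (Pf.C 41 0x60a08084))
 (Pq.cons (Pq.L [] 29149 (Pf.C 41 0x60a08084))
 (Pq.cons (Pq.L [] 16 (Pf.C 12 134))
 (Pq.cons (Pq.L [] 273 (Pf.C 23 98561))
 (Pq.cons (Pq.L [] 16408 (Pf.C 24 17157))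
 (Pq.cons (Pq.L [] 16 (Pf.C 8 134))
 Pq.nil))))))) (Pq.cons (Pq.D 5 (Pq.cons (Pq.L [] 29149 (Pf.C 41 0x60a08084))
 (Pq.cons (Pq.L [] 29149 (Pf.C 41 0x60a08084))
 (Pq.cons (Pq.L [] 16 (Pf.C 12 134))
 (Pq.cons (Pq.L [] 273 (Pf.C 23 98561))
 (Pq.cons (Pq.L [] 16793 (Pf.C 32 0xc14101))
 (Pq.cons (Pq.L [] 16 (Pf.C 8 134))
 Pq.nil))))))) (Pq.cons (Pq.L [] 8 (Pf.C 12 133))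
 (Pq.cons (Pq.L [] 137 (Pf.C 23 82177))
 (Pq.cons (Pq.L [] 4096 (Pf.C 2 644))
 (Pq.cons (Pq.L [] 8 (Pf.C 8 133))
 Pq.nil))))))) Pq.nil))))))) (Pq.cons (Pq.D 3 (Pq.cons (Pq.L [] 4 (Pf.C 1 513))
 (Pq.cons (Pq.L [] 4 (Pf.C 1 513))
 (Pq.cons (Pq.L [] 4 (Pf.C 1 513))
 (Pq.cons (Pq.L [] 4 (Pf.C 1 513))
 (Pq.cons (Pq.D 4 (Pq.cons (Pq.L [] 5871 (Pf.C 39 0x30a10101))
 (Pq.cons (Pq.L [] 5871 (Pf.C 39 0x30a10101))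
 (Pq.cons (Pq.L [] 8 (Pf.C 12 133))
 (Pq.cons (Pq.L [] 137 (Pf.C 23 82177))
 (Pq.cons (Pq.L [] 5871 (Pf.C 39 0x30a10101))
 (Pq.cons (Pq.L [] 8 (Pf.C 8 133))
 Pq.nil))))))) (Pq.cons (Pq.D 4 (Pq.cons (Pq.D 5 (Pq.cons (Pq.L [] 29149 (Pf.C 41 0x60a08084))
 (Pq.cons (Pq.L [] 29149 (Pf.C 41 0x60a08084))
 (Pq.cons (Pq.L [] 16 (Pf.C 12 134))
 (Pq.cons (Pq.L [] 273 (Pf.C 23 98561))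
 (Pq.cons (Pq.L [] 16408 (Pf.C 24 17157))
 (Pq.cons (Pq.L [] 16 (Pf.C 8 134))
 Pq.nil))))))) (Pq.cons (Pq.L [] 1024 (Pf.C 8 643))
 (Pq.cons (Pq.L [] 8 (Pf.C 12 133))
 (Pq.cons (Pq.L [] 137 (Pf.C 23 82177))
 (Pq.cons (Pq.L [] 4096 (Pf.C 2 644))
 (Pq.cons (Pq.L [] 8 (Pf.C 8 133))
 Pq.nil))))))) Pq.nil))))))) Pq.nil))))))) (Pq.cons (Pq.D 2 (Pq.cons (Pq.L [] 2 (Pf.C 1 385))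
 (Pq.cons (Pq.L [] 2 (Pf.C 1 385))
 (Pq.cons (Pq.L [] 2 (Pf.C 1 385))
 (Pq.cons (Pq.L [] 2 (Pf.C 1 385))
 (Pq.cons (Pq.D 3 (Pq.cons (Pq.L [] 4 (Pf.C 1 513))
 (Pq.cons (Pq.L [] 4 (Pf.C 1 513))
 (Pq.cons (Pq.L [] 4 (Pf.C 1 513))
 (Pq.cons (Pq.L [] 4 (Pf.C 1 513))
 (Pq.cons (Pq.D 4 (Pq.cons (Pq.L [] 5871 (Pf.C 39 0x20a10181))
 (Pq.cons (Pq.L [] 5871 (Pf.C 39 0x20a10181))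
 (Pq.cons (Pq.L [] 8 (Pf.C 12 133))
 (Pq.cons (Pq.L [] 1034 (Pf.C 23 82305))
 (Pq.cons (Pq.L [] 5871 (Pf.C 39 0x20a10181))
 (Pq.cons (Pq.L [] 8 (Pf.C 8 133))
 Pq.nil))))))) (Pq.cons (Pq.D 4 (Pq.cons (Pq.D 5 (Pq.cons (Pq.L [] 32286 (Pf.C 41 0x60a0c084))
 (Pq.cons (Pq.L [] 32286 (Pf.C 41 0x60a0c084))
 (Pq.cons (Pq.L [] 16 (Pf.C 12 134))
 (Pq.cons (Pq.L [] 2066 (Pf.C 23 98689))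
 (Pq.cons (Pq.L [] 16408 (Pf.C 24 17157))
 (Pq.cons (Pq.L [] 16 (Pf.C 8 134))
 Pq.nil))))))) (Pq.cons (Pq.L [] 128 (Pf.C 8 642))
 (Pq.cons (Pq.L [] 8 (Pf.C 12 133))
 (Pq.cons (Pq.L [] 1034 (Pf.C 23 82305))
 (Pq.cons (Pq.L [] 4096 (Pf.C 2 644))
 (Pq.cons (Pq.L [] 8 (Pf.C 8 133))
 Pq.nil))))))) Pq.nil))))))) (Pq.cons (Pq.D 3 (Pq.cons (Pq.L [] 4 (Pf.C 1 513))
 (Pq.cons (Pq.L [] 4 (Pf.C 1 513))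
 (Pq.cons (Pq.L [] 4 (Pf.C 1 513))
 (Pq.cons (Pq.L [] 4 (Pf.C 1 513))
 (Pq.cons (Pq.D 4 (Pq.cons (Pq.L [] 4288 (Pf.C 27 33412))
 (Pq.cons (Pq.L [] 128 (Pf.C 8 642))
 (Pq.cons (Pq.L [] 8 (Pf.C 12 133))
 (Pq.cons (Pq.L [0] 128 (Pf.C 18 82176))
 (Pq.cons (Pq.L [] 4096 (Pf.C 2 644))
 (Pq.cons (Pq.L [] 8 (Pf.C 8 133))
 Pq.nil))))))) (Pq.cons (Pq.D 4 (Pq.cons (Pq.D 5 (Pq.cons (Pq.L [0] 28700 (Pf.C 42 0xc14084))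
 (Pq.cons (Pq.L [0] 28700 (Pf.C 42 0xc14084))
 (Pq.cons (Pq.L [] 16 (Pf.C 12 134))
 (Pq.cons (Pq.L [0] 28700 (Pf.C 42 0xc14084))
 (Pq.cons (Pq.L [] 16408 (Pf.C 24 17157))
 (Pq.cons (Pq.L [] 16 (Pf.C 8 134))
 Pq.nil))))))) (Pq.cons (Pq.L [] 128 (Pf.C 8 642))
 (Pq.cons (Pq.L [] 8 (Pf.C 12 133))
 (Pq.cons (Pq.L [0] 128 (Pf.C 18 82176))
 (Pq.cons (Pq.L [] 4096 (Pf.C 2 644))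
 (Pq.cons (Pq.L [] 8 (Pf.C 8 133))
 Pq.nil))))))) Pq.nil))))))) Pq.nil))))))) Pq.nil))))))) (Pq.cons (Pq.D 1 (Pq.cons (Pq.L [] 1 (Pf.C 1 257))
 (Pq.cons (Pq.L [] 1 (Pf.C 1 257))
 (Pq.cons (Pq.L [] 1 (Pf.C 1 257))
 (Pq.cons (Pq.L [] 1 (Pf.C 1 257))
 (Pq.cons (Pq.D 2 (Pq.cons (Pq.L [] 2 (Pf.C 1 385))
 (Pq.cons (Pq.L [] 2 (Pf.C 1 385))
 (Pq.cons (Pq.L [] 2 (Pf.C 1 385))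
 (Pq.cons (Pq.L [] 2 (Pf.C 1 385))
 (Pq.cons (Pq.D 3 (Pq.cons (Pq.L [] 4 (Pf.C 1 513))
 (Pq.cons (Pq.L [] 4 (Pf.C 1 513))
 (Pq.cons (Pq.L [] 4 (Pf.C 1 513))
 (Pq.cons (Pq.L [] 4 (Pf.C 1 513))
 (Pq.cons (Pq.D 4 (Pq.cons (Pq.D 5 (Pq.cons (Pq.L [0] 28700 (Pf.C 42 0xc14084))
 (Pq.cons (Pq.L [] 16 (Pf.C 12 769))
 (Pq.cons (Pq.L [0] 28700 (Pf.C 42 0xc14084))
 (Pq.cons (Pq.L [] 273 (Pf.C 24 98561))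
 (Pq.cons (Pq.L [] 16408 (Pf.C 23 17157))
 (Pq.cons (Pq.L [] 16 (Pf.C 9 134))
 Pq.nil))))))) (Pq.cons (Pq.L [] 8 (Pf.C 12 641))
 (Pq.cons (Pq.D 5 (Pq.cons (Pq.L [0] 28700 (Pf.C 42 0xc14084))
 (Pq.cons (Pq.L [] 16 (Pf.C 12 769))
 (Pq.cons (Pq.L [0] 28700 (Pf.C 42 0xc14084))
 (Pq.cons (Pq.L [] 273 (Pf.C 24 98561))
 (Pq.cons (Pq.L [] 16793 (Pf.C 32 0xc14101))
 (Pq.cons (Pq.L [] 16 (Pf.C 9 134))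
 Pq.nil))))))) (Pq.cons (Pq.L [] 137 (Pf.C 24 82177))
 (Pq.cons (Pq.L [] 4096 (Pf.C 2 644))
 (Pq.cons (Pq.L [] 8 (Pf.C 9 133))
 Pq.nil))))))) (Pq.cons (Pq.D 4 (Pq.cons (Pq.D 5 (Pq.cons (Pq.L [] 29149 (Pf.C 41 0x60a08084))
 (Pq.cons (Pq.L [] 16 (Pf.C 12 769))
 (Pq.cons (Pq.L [] 29149 (Pf.C 41 0x60a08084))
 (Pq.cons (Pq.L [] 273 (Pf.C 24 98561))
 (Pq.cons (Pq.L [] 16408 (Pf.C 23 17157))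
 (Pq.cons (Pq.L [] 16 (Pf.C 9 134))
 Pq.nil))))))) (Pq.cons (Pq.L [] 8 (Pf.C 12 641))
 (Pq.cons (Pq.D 5 (Pq.cons (Pq.L [] 29149 (Pf.C 41 0x60a08084))
 (Pq.cons (Pq.L [] 16 (Pf.C 12 769))
 (Pq.cons (Pq.L [] 29149 (Pf.C 41 0x60a08084))
 (Pq.cons (Pq.L [] 273 (Pf.C 24 98561))
 (Pq.cons (Pq.L [] 16793 (Pf.C 32 0xc14101))
 (Pq.cons (Pq.L [] 16 (Pf.C 9 134))
 Pq.nil))))))) (Pq.cons (Pq.L [] 137 (Pf.C 24 82177))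
 (Pq.cons (Pq.L [] 4096 (Pf.C 2 644))
 (Pq.cons (Pq.L [] 8 (Pf.C 9 133))
 Pq.nil))))))) Pq.nil))))))) (Pq.cons (Pq.D 3 (Pq.cons (Pq.L [] 4 (Pf.C 1 513))
 (Pq.cons (Pq.L [] 4 (Pf.C 1 513))
 (Pq.cons (Pq.L [] 4 (Pf.C 1 513))
 (Pq.cons (Pq.L [] 4 (Pf.C 1 513))
 (Pq.cons (Pq.D 4 (Pq.cons (Pq.L [] 5871 (Pf.C 39 0x30a10101))
 (Pq.cons (Pq.L [] 8 (Pf.C 12 641))
 (Pq.cons (Pq.L [] 5871 (Pf.C 39 0x30a10101))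
 (Pq.cons (Pq.L [] 137 (Pf.C 24 82177))
 (Pq.cons (Pq.L [] 5871 (Pf.C 39 0x30a10101))
 (Pq.cons (Pq.L [] 8 (Pf.C 9 133))
 Pq.nil))))))) (Pq.cons (Pq.D 4 (Pq.cons (Pq.D 5 (Pq.cons (Pq.L [] 29149 (Pf.C 41 0x60a08084))
 (Pq.cons (Pq.L [] 16 (Pf.C 12 769))
 (Pq.cons (Pq.L [] 29149 (Pf.C 41 0x60a08084))
 (Pq.cons (Pq.L [] 273 (Pf.C 24 98561))
 (Pq.cons (Pq.L [] 16408 (Pf.C 23 17157))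
 (Pq.cons (Pq.L [] 16 (Pf.C 9 134))
 Pq.nil))))))) (Pq.cons (Pq.L [] 8 (Pf.C 12 641))
 (Pq.cons (Pq.L [] 1184 (Pf.C 18 82306))
 (Pq.cons (Pq.L [] 137 (Pf.C 24 82177))
 (Pq.cons (Pq.L [] 4096 (Pf.C 2 644))
 (Pq.cons (Pq.L [] 8 (Pf.C 9 133))
 Pq.nil))))))) Pq.nil))))))) Pq.nil))))))) (Pq.cons (Pq.D 2 (Pq.cons (Pq.L [] 2 (Pf.C 1 385))
 (Pq.cons (Pq.L [] 2 (Pf.C 1 385))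
 (Pq.cons (Pq.L [] 2 (Pf.C 1 385))
 (Pq.cons (Pq.L [] 2 (Pf.C 1 385))
 (Pq.cons (Pq.D 3 (Pq.cons (Pq.L [] 4 (Pf.C 1 513))
 (Pq.cons (Pq.L [] 4 (Pf.C 1 513))
 (Pq.cons (Pq.L [] 4 (Pf.C 1 513))
 (Pq.cons (Pq.L [] 4 (Pf.C 1 513))
 (Pq.cons (Pq.D 4 (Pq.cons (Pq.L [] 5871 (Pf.C 39 0x20a10181))
 (Pq.cons (Pq.L [] 8 (Pf.C 12 641))
 (Pq.cons (Pq.L [] 5871 (Pf.C 39 0x20a10181))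
 (Pq.cons (Pq.L [] 1034 (Pf.C 24 82305))
 (Pq.cons (Pq.L [] 5871 (Pf.C 39 0x20a10181))
 (Pq.cons (Pq.L [] 8 (Pf.C 9 133))
 Pq.nil))))))) (Pq.cons (Pq.D 4 (Pq.cons (Pq.D 5 (Pq.cons (Pq.L [] 32286 (Pf.C 41 0x60a0c084))
 (Pq.cons (Pq.L [] 16 (Pf.C 12 769))
 (Pq.cons (Pq.L [] 32286 (Pf.C 41 0x60a0c084))
 (Pq.cons (Pq.L [] 2066 (Pf.C 24 98689))
 (Pq.cons (Pq.L [] 16408 (Pf.C 23 17157))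
 (Pq.cons (Pq.L [] 16 (Pf.C 9 134))
 Pq.nil))))))) (Pq.cons (Pq.L [] 8 (Pf.C 12 641))
 (Pq.cons (Pq.L [] 128 (Pf.C 9 642))
 (Pq.cons (Pq.L [] 1034 (Pf.C 24 82305))
 (Pq.cons (Pq.L [] 4096 (Pf.C 2 644))
 (Pq.cons (Pq.L [] 8 (Pf.C 9 133))
 Pq.nil))))))) Pq.nil))))))) (Pq.cons (Pq.D 3 (Pq.cons (Pq.L [] 4 (Pf.C 1 513))
 (Pq.cons (Pq.L [] 4 (Pf.C 1 513))
 (Pq.cons (Pq.L [] 4 (Pf.C 1 513))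
 (Pq.cons (Pq.L [] 4 (Pf.C 1 513))
 (Pq.cons (Pq.D 4 (Pq.cons (Pq.L [] 4288 (Pf.C 27 33412))
 (Pq.cons (Pq.L [] 8 (Pf.C 12 641))
 (Pq.cons (Pq.L [] 128 (Pf.C 9 642))
 (Pq.cons (Pq.L [0] 128 (Pf.C 18 82176))
 (Pq.cons (Pq.L [] 4096 (Pf.C 2 644))
 (Pq.cons (Pq.L [] 8 (Pf.C 9 133))
 Pq.nil))))))) (Pq.cons (Pq.D 4 (Pq.cons (Pq.D 5 (Pq.cons (Pq.L [0] 28700 (Pf.C 42 0xc14084))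
 (Pq.cons (Pq.L [] 16 (Pf.C 12 769))
 (Pq.cons (Pq.L [0] 28700 (Pf.C 42 0xc14084))
 (Pq.cons (Pq.L [0] 28700 (Pf.C 42 0xc14084))
 (Pq.cons (Pq.L [] 16408 (Pf.C 23 17157))
 (Pq.cons (Pq.L [] 16 (Pf.C 9 134))
 Pq.nil))))))) (Pq.cons (Pq.L [] 8 (Pf.C 12 641))
 (Pq.cons (Pq.L [] 128 (Pf.C 9 642))
 (Pq.cons (Pq.L [0] 128 (Pf.C 18 82176))
 (Pq.cons (Pq.L [] 4096 (Pf.C 2 644))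
 (Pq.cons (Pq.L [] 8 (Pf.C 9 133))
 Pq.nil))))))) Pq.nil))))))) Pq.nil))))))) Pq.nil))))))) (Pq.cons (Pq.D 1 (Pq.cons (Pq.L [] 1 (Pf.C 1 257))
 (Pq.cons (Pq.L [] 1 (Pf.C 1 257))
 (Pq.cons (Pq.L [] 1 (Pf.C 1 257))
 (Pq.cons (Pq.L [] 1 (Pf.C 1 257))
 (Pq.cons (Pq.D 2 (Pq.cons (Pq.L [] 2 (Pf.C 1 385))
 (Pq.cons (Pq.L [] 2 (Pf.C 1 385))
 (Pq.cons (Pq.L [] 2 (Pf.C 1 385))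
 (Pq.cons (Pq.L [] 2 (Pf.C 1 385))
 (Pq.cons (Pq.D 3 (Pq.cons (Pq.L [] 4 (Pf.C 1 513))
 (Pq.cons (Pq.L [] 4 (Pf.C 1 513))
 (Pq.cons (Pq.L [] 4 (Pf.C 1 513))
 (Pq.cons (Pq.L [] 4 (Pf.C 1 513))
 (Pq.cons (Pq.D 4 (Pq.cons (Pq.D 5 (Pq.cons (Pq.L [0] 28700 (Pf.C 42 0xc14084))
 (Pq.cons (Pq.L [0] 28700 (Pf.C 42 0xc14084))
 (Pq.cons (Pq.L [0] 28700 (Pf.C 42 0xc14084))
 (Pq.cons (Pq.L [0] 28700 (Pf.C 42 0xc14084))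
 (Pq.cons (Pq.L [] 16408 (Pf.C 23 17157))
 (Pq.cons (Pq.L [0] 16 (Pf.C 18 17152))
 Pq.nil))))))) (Pq.cons (Pq.D 5 (Pq.cons (Pq.L [0] 28700 (Pf.C 42 0xc14084))
 (Pq.cons (Pq.L [0] 28700 (Pf.C 42 0xc14084))
 (Pq.cons (Pq.L [0] 28700 (Pf.C 42 0xc14084))
 (Pq.cons (Pq.L [0] 28700 (Pf.C 42 0xc14084))
 (Pq.cons (Pq.L [] 16408 (Pf.C 23 17157))
 (Pq.cons (Pq.L [0] 16 (Pf.C 18 17152))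
 Pq.nil))))))) (Pq.cons (Pq.D 5 (Pq.cons (Pq.L [0] 28700 (Pf.C 42 0xc14084))
 (Pq.cons (Pq.L [0] 28700 (Pf.C 42 0xc14084))
 (Pq.cons (Pq.L [0] 28700 (Pf.C 42 0xc14084))
 (Pq.cons (Pq.L [0] 28700 (Pf.C 42 0xc14084))
 (Pq.cons (Pq.L [] 16408 (Pf.C 24 17157))
 (Pq.cons (Pq.L [0] 16 (Pf.C 18 17152))
 Pq.nil))))))) (Pq.cons (Pq.D 5 (Pq.cons (Pq.L [0] 28700 (Pf.C 42 0xc14084))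
 (Pq.cons (Pq.L [0] 28700 (Pf.C 42 0xc14084))
 (Pq.cons (Pq.L [0] 28700 (Pf.C 42 0xc14084))
 (Pq.cons (Pq.L [0] 28700 (Pf.C 42 0xc14084))
 (Pq.cons (Pq.L [] 16793 (Pf.C 32 0xc14101))
 (Pq.cons (Pq.L [0] 16 (Pf.C 18 17152))
 Pq.nil))))))) (Pq.cons (Pq.L [] 4096 (Pf.C 2 644))
 (Pq.cons (Pq.L [0] 8 (Pf.C 18 17024))
 Pq.nil))))))) (Pq.cons (Pq.D 4 (Pq.cons (Pq.D 5 (Pq.cons (Pq.L [] 29149 (Pf.C 41 0x60a08084))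
 (Pq.cons (Pq.L [] 29149 (Pf.C 41 0x60a08084))
 (Pq.cons (Pq.L [] 29149 (Pf.C 41 0x60a08084))
 (Pq.cons (Pq.L [] 29149 (Pf.C 41 0x60a08084))
 (Pq.cons (Pq.L [] 16408 (Pf.C 23 17157))
 (Pq.cons (Pq.L [0] 16 (Pf.C 18 17152))
 Pq.nil))))))) (Pq.cons (Pq.D 5 (Pq.cons (Pq.L [] 29149 (Pf.C 41 0x60a08084))
 (Pq.cons (Pq.L [] 29149 (Pf.C 41 0x60a08084))
 (Pq.cons (Pq.L [] 29149 (Pf.C 41 0x60a08084))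
 (Pq.cons (Pq.L [] 29149 (Pf.C 41 0x60a08084))
 (Pq.cons (Pq.L [] 16408 (Pf.C 23 17157))
 (Pq.cons (Pq.L [0] 16 (Pf.C 18 17152))
 Pq.nil))))))) (Pq.cons (Pq.D 5 (Pq.cons (Pq.L [] 29149 (Pf.C 41 0x60a08084))
 (Pq.cons (Pq.L [] 29149 (Pf.C 41 0x60a08084))
 (Pq.cons (Pq.L [] 29149 (Pf.C 41 0x60a08084))
 (Pq.cons (Pq.L [] 29149 (Pf.C 41 0x60a08084))
 (Pq.cons (Pq.L [] 16408 (Pf.C 24 17157))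
 (Pq.cons (Pq.L [0] 16 (Pf.C 18 17152))
 Pq.nil))))))) (Pq.cons (Pq.D 5 (Pq.cons (Pq.L [] 29149 (Pf.C 41 0x60a08084))
 (Pq.cons (Pq.L [] 29149 (Pf.C 41 0x60a08084))
 (Pq.cons (Pq.L [] 29149 (Pf.C 41 0x60a08084))
 (Pq.cons (Pq.L [] 29149 (Pf.C 41 0x60a08084))
 (Pq.cons (Pq.L [] 16793 (Pf.C 32 0xc14101))
 (Pq.cons (Pq.L [0] 16 (Pf.C 18 17152))
 Pq.nil))))))) (Pq.cons (Pq.L [] 4096 (Pf.C 2 644))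
 (Pq.cons (Pq.L [0] 8 (Pf.C 18 17024))
 Pq.nil))))))) Pq.nil))))))) (Pq.cons (Pq.D 3 (Pq.cons (Pq.L [] 4 (Pf.C 1 513))
 (Pq.cons (Pq.L [] 4 (Pf.C 1 513))
 (Pq.cons (Pq.L [] 4 (Pf.C 1 513))
 (Pq.cons (Pq.L [] 4 (Pf.C 1 513))
 (Pq.cons (Pq.D 4 (Pq.cons (Pq.L [] 5871 (Pf.C 39 0x30a10101))
 (Pq.cons (Pq.L [] 5871 (Pf.C 39 0x30a10101))
 (Pq.cons (Pq.L [] 5871 (Pf.C 39 0x30a10101))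
 (Pq.cons (Pq.L [] 5871 (Pf.C 39 0x30a10101))
 (Pq.cons (Pq.L [] 5871 (Pf.C 39 0x30a10101))
 (Pq.cons (Pq.L [0] 8 (Pf.C 18 17024))
 Pq.nil))))))) (Pq.cons (Pq.D 4 (Pq.cons (Pq.D 5 (Pq.cons (Pq.L [] 29149 (Pf.C 41 0x60a08084))
 (Pq.cons (Pq.L [] 29149 (Pf.C 41 0x60a08084))
 (Pq.cons (Pq.L [] 29149 (Pf.C 41 0x60a08084))
 (Pq.cons (Pq.L [] 29149 (Pf.C 41 0x60a08084))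
 (Pq.cons (Pq.L [] 16408 (Pf.C 23 17157))
 (Pq.cons (Pq.L [0] 16 (Pf.C 18 17152))
 Pq.nil))))))) (Pq.cons (Pq.L [] 1024 (Pf.C 8 643))
 (Pq.cons (Pq.L [] 1184 (Pf.C 18 82306))
 (Pq.cons (Pq.L [] 1184 (Pf.C 18 82306))
 (Pq.cons (Pq.L [] 4096 (Pf.C 2 644))
 (Pq.cons (Pq.L [0] 8 (Pf.C 18 17024))
 Pq.nil))))))) Pq.nil))))))) Pq.nil))))))) (Pq.cons (Pq.D 2 (Pq.cons (Pq.L [] 2 (Pf.C 1 385))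
 (Pq.cons (Pq.L [] 2 (Pf.C 1 385))
 (Pq.cons (Pq.L [] 2 (Pf.C 1 385))
 (Pq.cons (Pq.L [] 2 (Pf.C 1 385))
 (Pq.cons (Pq.D 3 (Pq.cons (Pq.L [] 4 (Pf.C 1 513))
 (Pq.cons (Pq.L [] 4 (Pf.C 1 513))
 (Pq.cons (Pq.L [] 4 (Pf.C 1 513))
 (Pq.cons (Pq.L [] 4 (Pf.C 1 513))
 (Pq.cons (Pq.D 4 (Pq.cons (Pq.L [] 5871 (Pf.C 39 0x20a10181))
 (Pq.cons (Pq.L [] 5871 (Pf.C 39 0x20a10181))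
 (Pq.cons (Pq.L [] 5871 (Pf.C 39 0x20a10181))
 (Pq.cons (Pq.L [] 5871 (Pf.C 39 0x20a10181))
 (Pq.cons (Pq.L [] 5871 (Pf.C 39 0x20a10181))
 (Pq.cons (Pq.L [0] 8 (Pf.C 18 17024))
 Pq.nil))))))) (Pq.cons (Pq.D 4 (Pq.cons (Pq.D 5 (Pq.cons (Pq.L [] 32286 (Pf.C 41 0x60a0c084))
 (Pq.cons (Pq.L [] 32286 (Pf.C 41 0x60a0c084))
 (Pq.cons (Pq.L [] 32286 (Pf.C 41 0x60a0c084))
 (Pq.cons (Pq.L [] 32286 (Pf.C 41 0x60a0c084))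
 (Pq.cons (Pq.L [] 16408 (Pf.C 23 17157))
 (Pq.cons (Pq.L [0] 16 (Pf.C 18 17152))
 Pq.nil))))))) (Pq.cons (Pq.L [] 128 (Pf.C 8 642))
 (Pq.cons (Pq.L [] 128 (Pf.C 9 642))
 (Pq.cons (Pq.L [0] 128 (Pf.C 18 82176))
 (Pq.cons (Pq.L [] 4096 (Pf.C 2 644))
 (Pq.cons (Pq.L [0] 8 (Pf.C 18 17024))
 Pq.nil))))))) Pq.nil))))))) (Pq.cons (Pq.D 3 (Pq.cons (Pq.L [] 4 (Pf.C 1 513))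
 (Pq.cons (Pq.L [] 4 (Pf.C 1 513))
 (Pq.cons (Pq.L [] 4 (Pf.C 1 513))
 (Pq.cons (Pq.L [] 4 (Pf.C 1 513))
 (Pq.cons (Pq.D 4 (Pq.cons (Pq.L [] 4288 (Pf.C 27 33412))
 (Pq.cons (Pq.L [] 128 (Pf.C 8 642))
 (Pq.cons (Pq.L [] 128 (Pf.C 9 642))
 (Pq.cons (Pq.L [0] 128 (Pf.C 18 82176))
 (Pq.cons (Pq.L [] 4096 (Pf.C 2 644))
 (Pq.cons (Pq.L [0] 8 (Pf.C 18 17024))
 Pq.nil))))))) (Pq.cons (Pq.D 4 (Pq.cons (Pq.D 5 (Pq.cons (Pq.L [0] 28700 (Pf.C 42 0xc14084))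
 (Pq.cons (Pq.L [0] 28700 (Pf.C 42 0xc14084))
 (Pq.cons (Pq.L [0] 28700 (Pf.C 42 0xc14084))
 (Pq.cons (Pq.L [0] 28700 (Pf.C 42 0xc14084))
 (Pq.cons (Pq.L [] 16408 (Pf.C 23 17157))
 (Pq.cons (Pq.L [0] 16 (Pf.C 18 17152))
 Pq.nil))))))) (Pq.cons (Pq.L [] 128 (Pf.C 8 642))
 (Pq.cons (Pq.L [] 128 (Pf.C 9 642))
 (Pq.cons (Pq.L [0] 128 (Pf.C 18 82176))
 (Pq.cons (Pq.L [] 4096 (Pf.C 2 644))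
 (Pq.cons (Pq.L [0] 8 (Pf.C 18 17024))
 Pq.nil))))))) Pq.nil))))))) Pq.nil))))))) Pq.nil))))))) Pq.nil))))
theorem s1_o80 : AllRef s1_T s1_G81 (List.take 4 (List.flatMap (splitP 0) (List.take 1 (applyObl bS113_T 3 [134,136,138,143,149,151] [1,1,1,1,2,2] [])))) :=
  chkPq_sound s1_o80c _ (by decide +kernel)
noncomputable def s1_o81c : Pq := (Pq.cons (Pq.D 1 (Pq.cons (Pq.D 2 (Pq.cons (Pq.D 3 (Pq.cons (Pq.D 4 (Pq.cons (Pq.L [0] 4301 (Pf.C 42 0xa10101))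
 (Pq.cons (Pq.L [] 137 (Pf.C 24 82050))
 (Pq.cons (Pq.L [] 137 (Pf.C 23 82050))
 (Pq.cons (Pq.L [] 137 (Pf.C 23 82050))
 (Pq.cons (Pq.D 5 (Pq.cons (Pq.L [] 16793 (Pf.C 32 0xa18082))
 (Pq.cons (Pq.L [] 273 (Pf.C 24 98434))
 (Pq.cons (Pq.L [] 273 (Pf.C 23 98434))
 (Pq.cons (Pq.L [] 273 (Pf.C 23 98434))
 (Pq.cons (Pq.L [] 16384 (Pf.C 2 773))
 (Pq.cons (Pq.L [] 273 (Pf.C 27 98561))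
 Pq.nil))))))) (Pq.cons (Pq.L [] 137 (Pf.C 27 82177))
 Pq.nil))))))) (Pq.cons (Pq.D 4 (Pq.cons (Pq.L [0] 4301 (Pf.C 42 0xa10101))
 (Pq.cons (Pq.L [] 137 (Pf.C 24 82050))
 (Pq.cons (Pq.L [] 137 (Pf.C 23 82050))
 (Pq.cons (Pq.L [] 137 (Pf.C 23 82050))
 (Pq.cons (Pq.D 5 (Pq.cons (Pq.L [] 16793 (Pf.C 32 0xa18082))
 (Pq.cons (Pq.L [] 273 (Pf.C 24 98434))
 (Pq.cons (Pq.L [] 273 (Pf.C 23 98434))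
 (Pq.cons (Pq.L [] 273 (Pf.C 23 98434))
 (Pq.cons (Pq.L [] 29149 (Pf.C 48 0x60a08084))
 (Pq.cons (Pq.L [] 273 (Pf.C 27 98561))
 Pq.nil))))))) (Pq.cons (Pq.L [] 137 (Pf.C 27 82177))
 Pq.nil))))))) (Pq.cons (Pq.D 4 (Pq.cons (Pq.L [0] 4301 (Pf.C 42 0xa10101))
 (Pq.cons (Pq.L [] 137 (Pf.C 24 82050))
 (Pq.cons (Pq.L [] 137 (Pf.C 23 82050))
 (Pq.cons (Pq.L [] 137 (Pf.C 23 82050))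
 (Pq.cons (Pq.D 5 (Pq.cons (Pq.L [] 16793 (Pf.C 32 0xa18082))
 (Pq.cons (Pq.L [] 273 (Pf.C 24 98434))
 (Pq.cons (Pq.L [] 273 (Pf.C 23 98434))
 (Pq.cons (Pq.L [] 273 (Pf.C 23 98434))
 (Pq.cons (Pq.L [] 29149 (Pf.C 47 0x60a08084))
 (Pq.cons (Pq.L [] 273 (Pf.C 27 98561))
 Pq.nil))))))) (Pq.cons (Pq.L [] 137 (Pf.C 27 82177))
 Pq.nil))))))) (Pq.cons (Pq.D 4 (Pq.cons (Pq.L [0] 4301 (Pf.C 42 0xa10101))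
 (Pq.cons (Pq.L [] 137 (Pf.C 24 82050))
 (Pq.cons (Pq.L [] 137 (Pf.C 23 82050))
 (Pq.cons (Pq.L [] 137 (Pf.C 23 82050))
 (Pq.cons (Pq.D 5 (Pq.cons (Pq.L [] 16793 (Pf.C 32 0xa18082))
 (Pq.cons (Pq.L [] 273 (Pf.C 24 98434))
 (Pq.cons (Pq.L [] 273 (Pf.C 23 98434))
 (Pq.cons (Pq.L [] 273 (Pf.C 23 98434))
 (Pq.cons (Pq.L [] 29149 (Pf.C 47 0x60a08084))
 (Pq.cons (Pq.L [] 273 (Pf.C 27 98561))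
 Pq.nil))))))) (Pq.cons (Pq.L [] 137 (Pf.C 27 82177))
 Pq.nil))))))) (Pq.cons (Pq.L [] 4 (Pf.C 2 513))
 (Pq.cons (Pq.L [] 4 (Pf.C 2 513))
 Pq.nil))))))) (Pq.cons (Pq.D 3 (Pq.cons (Pq.D 4 (Pq.cons (Pq.L [0] 4301 (Pf.C 42 0xa10101))
 (Pq.cons (Pq.L [] 137 (Pf.C 24 82050))
 (Pq.cons (Pq.L [] 137 (Pf.C 23 82050))
 (Pq.cons (Pq.L [] 137 (Pf.C 23 82050))
 (Pq.cons (Pq.L [] 5871 (Pf.C 45 0x30a10101))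
 (Pq.cons (Pq.L [] 137 (Pf.C 27 82177))
 Pq.nil))))))) (Pq.cons (Pq.D 4 (Pq.cons (Pq.L [0] 4301 (Pf.C 42 0xa10101))
 (Pq.cons (Pq.L [] 137 (Pf.C 24 82050))
 (Pq.cons (Pq.L [] 137 (Pf.C 23 82050))
 (Pq.cons (Pq.L [] 137 (Pf.C 23 82050))
 (Pq.cons (Pq.D 5 (Pq.cons (Pq.L [] 16793 (Pf.C 32 0xa18082))
 (Pq.cons (Pq.L [] 273 (Pf.C 24 98434))
 (Pq.cons (Pq.L [] 273 (Pf.C 23 98434))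
 (Pq.cons (Pq.L [] 273 (Pf.C 23 98434))
 (Pq.cons (Pq.L [] 29149 (Pf.C 48 0x60a08084))
 (Pq.cons (Pq.L [] 273 (Pf.C 27 98561))
 Pq.nil))))))) (Pq.cons (Pq.L [] 137 (Pf.C 27 82177))
 Pq.nil))))))) (Pq.cons (Pq.L [] 512 (Pf.C 12 388))
 (Pq.cons (Pq.D 4 (Pq.cons (Pq.L [0] 4301 (Pf.C 42 0xa10101))
 (Pq.cons (Pq.L [] 137 (Pf.C 24 82050))
 (Pq.cons (Pq.L [] 137 (Pf.C 23 82050))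
 (Pq.cons (Pq.L [] 137 (Pf.C 23 82050))
 (Pq.cons (Pq.D 5 (Pq.cons (Pq.L [] 16793 (Pf.C 32 0xa18082))
 (Pq.cons (Pq.L [] 273 (Pf.C 24 98434))
 (Pq.cons (Pq.L [] 273 (Pf.C 23 98434))
 (Pq.cons (Pq.L [] 273 (Pf.C 23 98434))
 (Pq.cons (Pq.L [] 29149 (Pf.C 47 0x60a08084))
 (Pq.cons (Pq.L [] 273 (Pf.C 27 98561))
 Pq.nil))))))) (Pq.cons (Pq.L [] 137 (Pf.C 27 82177))
 Pq.nil))))))) (Pq.cons (Pq.L [] 4 (Pf.C 2 513))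
 (Pq.cons (Pq.L [] 4 (Pf.C 2 513))
 Pq.nil))))))) (Pq.cons (Pq.D 3 (Pq.cons (Pq.D 4 (Pq.cons (Pq.L [0] 4301 (Pf.C 42 0xa10101))
 (Pq.cons (Pq.L [] 137 (Pf.C 24 82050))
 (Pq.cons (Pq.L [] 137 (Pf.C 23 82050))
 (Pq.cons (Pq.L [] 137 (Pf.C 23 82050))
 (Pq.cons (Pq.L [] 5871 (Pf.C 44 0x30a10101))
 (Pq.cons (Pq.L [] 137 (Pf.C 27 82177))
 Pq.nil))))))) (Pq.cons (Pq.L [] 512 (Pf.C 12 515))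
 (Pq.cons (Pq.D 4 (Pq.cons (Pq.L [0] 4301 (Pf.C 42 0xa10101))
 (Pq.cons (Pq.L [] 137 (Pf.C 24 82050))
 (Pq.cons (Pq.L [] 137 (Pf.C 23 82050))
 (Pq.cons (Pq.L [] 137 (Pf.C 23 82050))
 (Pq.cons (Pq.D 5 (Pq.cons (Pq.L [] 16793 (Pf.C 32 0xa18082))
 (Pq.cons (Pq.L [] 273 (Pf.C 24 98434))
 (Pq.cons (Pq.L [] 273 (Pf.C 23 98434))
 (Pq.cons (Pq.L [] 273 (Pf.C 23 98434))
 (Pq.cons (Pq.L [] 29149 (Pf.C 47 0x60a08084))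
 (Pq.cons (Pq.L [] 273 (Pf.C 27 98561))
 Pq.nil))))))) (Pq.cons (Pq.L [] 137 (Pf.C 27 82177))
 Pq.nil))))))) (Pq.cons (Pq.D 4 (Pq.cons (Pq.L [0] 4301 (Pf.C 42 0xa10101))
 (Pq.cons (Pq.L [] 137 (Pf.C 24 82050))
 (Pq.cons (Pq.L [] 137 (Pf.C 23 82050))
 (Pq.cons (Pq.L [] 137 (Pf.C 23 82050))
 (Pq.cons (Pq.D 5 (Pq.cons (Pq.L [] 16793 (Pf.C 32 0xa18082))
 (Pq.cons (Pq.L [] 273 (Pf.C 24 98434))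
 (Pq.cons (Pq.L [] 273 (Pf.C 23 98434))
 (Pq.cons (Pq.L [] 273 (Pf.C 23 98434))
 (Pq.cons (Pq.L [] 29149 (Pf.C 47 0x60a08084))
 (Pq.cons (Pq.L [] 273 (Pf.C 27 98561))
 Pq.nil))))))) (Pq.cons (Pq.L [] 137 (Pf.C 27 82177))
 Pq.nil))))))) (Pq.cons (Pq.L [] 4 (Pf.C 2 513))
 (Pq.cons (Pq.L [] 4 (Pf.C 2 513))
 Pq.nil))))))) (Pq.cons (Pq.D 3 (Pq.cons (Pq.D 4 (Pq.cons (Pq.L [0] 4301 (Pf.C 42 0xa10101))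
 (Pq.cons (Pq.L [] 137 (Pf.C 24 82050))
 (Pq.cons (Pq.L [] 137 (Pf.C 23 82050))
 (Pq.cons (Pq.L [] 137 (Pf.C 23 82050))
 (Pq.cons (Pq.L [] 5871 (Pf.C 44 0x30a10101))
 (Pq.cons (Pq.L [] 137 (Pf.C 27 82177))
 Pq.nil))))))) (Pq.cons (Pq.D 4 (Pq.cons (Pq.L [0] 4301 (Pf.C 42 0xa10101))
 (Pq.cons (Pq.L [] 137 (Pf.C 24 82050))
 (Pq.cons (Pq.L [] 137 (Pf.C 23 82050))
 (Pq.cons (Pq.L [] 137 (Pf.C 23 82050))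
 (Pq.cons (Pq.L [] 5871 (Pf.C 44 0x30a10101))
 (Pq.cons (Pq.L [] 137 (Pf.C 27 82177))
 Pq.nil))))))) (Pq.cons (Pq.D 4 (Pq.cons (Pq.L [0] 4301 (Pf.C 42 0xa10101))
 (Pq.cons (Pq.L [] 137 (Pf.C 24 82050))
 (Pq.cons (Pq.L [] 137 (Pf.C 23 82050))
 (Pq.cons (Pq.L [] 137 (Pf.C 23 82050))
 (Pq.cons (Pq.L [] 5871 (Pf.C 45 0x30a10101))
 (Pq.cons (Pq.L [] 137 (Pf.C 27 82177))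
 Pq.nil))))))) (Pq.cons (Pq.D 4 (Pq.cons (Pq.L [0] 4301 (Pf.C 42 0xa10101))
 (Pq.cons (Pq.L [] 137 (Pf.C 24 82050))
 (Pq.cons (Pq.L [] 137 (Pf.C 23 82050))
 (Pq.cons (Pq.L [] 137 (Pf.C 23 82050))
 (Pq.cons (Pq.D 5 (Pq.cons (Pq.L [] 16793 (Pf.C 32 0xa18082))
 (Pq.cons (Pq.L [] 273 (Pf.C 24 98434))
 (Pq.cons (Pq.L [] 273 (Pf.C 23 98434))
 (Pq.cons (Pq.L [] 273 (Pf.C 23 98434))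
 (Pq.cons (Pq.L [] 29149 (Pf.C 47 0x60a08084))
 (Pq.cons (Pq.L [] 273 (Pf.C 27 98561))
 Pq.nil))))))) (Pq.cons (Pq.L [] 137 (Pf.C 27 82177))
 Pq.nil))))))) (Pq.cons (Pq.L [] 4 (Pf.C 2 513))
 (Pq.cons (Pq.L [] 4 (Pf.C 2 513))
 Pq.nil))))))) (Pq.cons (Pq.L [] 2 (Pf.C 2 385))
 (Pq.cons (Pq.L [] 2 (Pf.C 2 385))
 Pq.nil))))))) (Pq.cons (Pq.D 2 (Pq.cons (Pq.D 3 (Pq.cons (Pq.D 4 (Pq.cons (Pq.L [0] 4301 (Pf.C 42 0xa10101))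
 (Pq.cons (Pq.L [] 1034 (Pf.C 24 82051))
 (Pq.cons (Pq.L [] 137 (Pf.C 23 82050))
 (Pq.cons (Pq.L [] 137 (Pf.C 23 82050))
 (Pq.cons (Pq.L [] 5871 (Pf.C 45 0x20a10181))
 (Pq.cons (Pq.L [] 137 (Pf.C 27 82177))
 Pq.nil))))))) (Pq.cons (Pq.D 4 (Pq.cons (Pq.L [0] 4301 (Pf.C 42 0xa10101))
 (Pq.cons (Pq.L [] 1034 (Pf.C 24 82051))
 (Pq.cons (Pq.L [] 137 (Pf.C 23 82050))
 (Pq.cons (Pq.L [] 137 (Pf.C 23 82050))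
 (Pq.cons (Pq.D 5 (Pq.cons (Pq.L [] 16793 (Pf.C 32 0xa18082))
 (Pq.cons (Pq.L [] 2066 (Pf.C 24 98435))
 (Pq.cons (Pq.L [] 273 (Pf.C 23 98434))
 (Pq.cons (Pq.L [] 273 (Pf.C 23 98434))
 (Pq.cons (Pq.L [] 32286 (Pf.C 48 0x60a0c084))
 (Pq.cons (Pq.L [] 273 (Pf.C 27 98561))
 Pq.nil))))))) (Pq.cons (Pq.L [] 137 (Pf.C 27 82177))
 Pq.nil))))))) (Pq.cons (Pq.L [] 64 (Pf.C 12 260))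
 (Pq.cons (Pq.D 4 (Pq.cons (Pq.L [0] 4301 (Pf.C 42 0xa10101))
 (Pq.cons (Pq.L [] 1034 (Pf.C 24 82051))
 (Pq.cons (Pq.L [] 137 (Pf.C 23 82050))
 (Pq.cons (Pq.L [] 137 (Pf.C 23 82050))
 (Pq.cons (Pq.D 5 (Pq.cons (Pq.L [] 16793 (Pf.C 32 0xa18082))
 (Pq.cons (Pq.L [] 2066 (Pf.C 24 98435))
 (Pq.cons (Pq.L [] 273 (Pf.C 23 98434))
 (Pq.cons (Pq.L [] 273 (Pf.C 23 98434))
 (Pq.cons (Pq.L [] 29149 (Pf.C 47 0x60a08084))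
 (Pq.cons (Pq.L [] 273 (Pf.C 27 98561))
 Pq.nil))))))) (Pq.cons (Pq.L [] 137 (Pf.C 27 82177))
 Pq.nil))))))) (Pq.cons (Pq.L [] 4 (Pf.C 2 513))
 (Pq.cons (Pq.L [] 4 (Pf.C 2 513))
 Pq.nil))))))) (Pq.cons (Pq.D 3 (Pq.cons (Pq.D 4 (Pq.cons (Pq.L [0] 4301 (Pf.C 42 0xa10101))
 (Pq.cons (Pq.L [0] 4301 (Pf.C 42 0xa10101))
 (Pq.cons (Pq.L [] 137 (Pf.C 23 82050))
 (Pq.cons (Pq.L [] 137 (Pf.C 23 82050))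
 (Pq.cons (Pq.L [] 4288 (Pf.C 24 33412))
 (Pq.cons (Pq.L [] 137 (Pf.C 27 82177))
 Pq.nil))))))) (Pq.cons (Pq.D 4 (Pq.cons (Pq.L [0] 4301 (Pf.C 42 0xa10101))
 (Pq.cons (Pq.L [0] 4301 (Pf.C 42 0xa10101))
 (Pq.cons (Pq.L [] 137 (Pf.C 23 82050))
 (Pq.cons (Pq.L [] 137 (Pf.C 23 82050))
 (Pq.cons (Pq.D 5 (Pq.cons (Pq.L [] 16793 (Pf.C 32 0xa18082))
 (Pq.cons (Pq.L [] 16793 (Pf.C 32 0xa18082))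
 (Pq.cons (Pq.L [] 273 (Pf.C 23 98434))
 (Pq.cons (Pq.L [] 273 (Pf.C 23 98434))
 (Pq.cons (Pq.L [] 16384 (Pf.C 2 773))
 (Pq.cons (Pq.L [] 273 (Pf.C 27 98561))
 Pq.nil))))))) (Pq.cons (Pq.L [] 137 (Pf.C 27 82177))
 Pq.nil))))))) (Pq.cons (Pq.L [] 64 (Pf.C 12 260))
 (Pq.cons (Pq.D 4 (Pq.cons (Pq.L [0] 4301 (Pf.C 42 0xa10101))
 (Pq.cons (Pq.L [0] 4301 (Pf.C 42 0xa10101))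
 (Pq.cons (Pq.L [] 137 (Pf.C 23 82050))
 (Pq.cons (Pq.L [] 137 (Pf.C 23 82050))
 (Pq.cons (Pq.D 5 (Pq.cons (Pq.L [] 16793 (Pf.C 32 0xa18082))
 (Pq.cons (Pq.L [] 16793 (Pf.C 32 0xa18082))
 (Pq.cons (Pq.L [] 273 (Pf.C 23 98434))
 (Pq.cons (Pq.L [] 273 (Pf.C 23 98434))
 (Pq.cons (Pq.L [] 29149 (Pf.C 47 0x60a08084))
 (Pq.cons (Pq.L [] 273 (Pf.C 27 98561))
 Pq.nil))))))) (Pq.cons (Pq.L [] 137 (Pf.C 27 82177))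
 Pq.nil))))))) (Pq.cons (Pq.L [] 4 (Pf.C 2 513))
 (Pq.cons (Pq.L [] 4 (Pf.C 2 513))
 Pq.nil))))))) (Pq.cons (Pq.L [] 32 (Pf.C 12 259))
 (Pq.cons (Pq.D 3 (Pq.cons (Pq.D 4 (Pq.cons (Pq.L [0] 4301 (Pf.C 42 0xa10101))
 (Pq.cons (Pq.L [0] 4301 (Pf.C 42 0xa10101))
 (Pq.cons (Pq.L [] 137 (Pf.C 23 82050))
 (Pq.cons (Pq.L [] 137 (Pf.C 23 82050))
 (Pq.cons (Pq.L [] 5871 (Pf.C 44 0x30a10101))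
 (Pq.cons (Pq.L [] 137 (Pf.C 27 82177))
 Pq.nil))))))) (Pq.cons (Pq.D 4 (Pq.cons (Pq.L [0] 4301 (Pf.C 42 0xa10101))
 (Pq.cons (Pq.L [0] 4301 (Pf.C 42 0xa10101))
 (Pq.cons (Pq.L [] 137 (Pf.C 23 82050))
 (Pq.cons (Pq.L [] 137 (Pf.C 23 82050))
 (Pq.cons (Pq.L [] 5871 (Pf.C 44 0x30a10101))
 (Pq.cons (Pq.L [] 137 (Pf.C 27 82177))
 Pq.nil))))))) (Pq.cons (Pq.L [] 64 (Pf.C 12 260))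
 (Pq.cons (Pq.D 4 (Pq.cons (Pq.L [0] 4301 (Pf.C 42 0xa10101))
 (Pq.cons (Pq.L [0] 4301 (Pf.C 42 0xa10101))
 (Pq.cons (Pq.L [] 137 (Pf.C 23 82050))
 (Pq.cons (Pq.L [] 137 (Pf.C 23 82050))
 (Pq.cons (Pq.D 5 (Pq.cons (Pq.L [] 16793 (Pf.C 32 0xa18082))
 (Pq.cons (Pq.L [] 16793 (Pf.C 32 0xa18082))
 (Pq.cons (Pq.L [] 273 (Pf.C 23 98434))
 (Pq.cons (Pq.L [] 273 (Pf.C 23 98434))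
 (Pq.cons (Pq.L [] 29149 (Pf.C 47 0x60a08084))
 (Pq.cons (Pq.L [] 273 (Pf.C 27 98561))
 Pq.nil))))))) (Pq.cons (Pq.L [] 137 (Pf.C 27 82177))
 Pq.nil))))))) (Pq.cons (Pq.L [] 4 (Pf.C 2 513))
 (Pq.cons (Pq.L [] 4 (Pf.C 2 513))
 Pq.nil))))))) (Pq.cons (Pq.L [] 2 (Pf.C 2 385))
 (Pq.cons (Pq.L [] 2 (Pf.C 2 385))
 Pq.nil))))))) (Pq.cons (Pq.D 2 (Pq.cons (Pq.D 3 (Pq.cons (Pq.D 4 (Pq.cons (Pq.L [0] 4301 (Pf.C 42 0xa10101))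
 (Pq.cons (Pq.L [] 137 (Pf.C 24 82050))
 (Pq.cons (Pq.L [] 1034 (Pf.C 23 82051))
 (Pq.cons (Pq.L [] 1034 (Pf.C 23 82051))
 (Pq.cons (Pq.L [] 5871 (Pf.C 44 0x20a10181))
 (Pq.cons (Pq.L [] 1034 (Pf.C 27 82305))
 Pq.nil))))))) (Pq.cons (Pq.L [] 64 (Pf.C 12 514))
 (Pq.cons (Pq.D 4 (Pq.cons (Pq.L [0] 4301 (Pf.C 42 0xa10101))
 (Pq.cons (Pq.L [] 137 (Pf.C 24 82050))
 (Pq.cons (Pq.L [] 1034 (Pf.C 23 82051))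
 (Pq.cons (Pq.L [] 1034 (Pf.C 23 82051))
 (Pq.cons (Pq.D 5 (Pq.cons (Pq.L [] 16793 (Pf.C 32 0xa18082))
 (Pq.cons (Pq.L [] 273 (Pf.C 24 98434))
 (Pq.cons (Pq.L [] 2066 (Pf.C 23 98435))
 (Pq.cons (Pq.L [] 2066 (Pf.C 23 98435))
 (Pq.cons (Pq.L [] 32286 (Pf.C 47 0x60a0c084))
 (Pq.cons (Pq.L [] 2066 (Pf.C 27 98689))
 Pq.nil))))))) (Pq.cons (Pq.L [] 1034 (Pf.C 27 82305))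
 Pq.nil))))))) (Pq.cons (Pq.D 4 (Pq.cons (Pq.L [0] 4301 (Pf.C 42 0xa10101))
 (Pq.cons (Pq.L [] 137 (Pf.C 24 82050))
 (Pq.cons (Pq.L [] 1034 (Pf.C 23 82051))
 (Pq.cons (Pq.L [] 1034 (Pf.C 23 82051))
 (Pq.cons (Pq.D 5 (Pq.cons (Pq.L [] 16793 (Pf.C 32 0xa18082))
 (Pq.cons (Pq.L [] 273 (Pf.C 24 98434))
 (Pq.cons (Pq.L [] 2066 (Pf.C 23 98435))
 (Pq.cons (Pq.L [] 2066 (Pf.C 23 98435))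
 (Pq.cons (Pq.L [] 32286 (Pf.C 47 0x60a0c084))
 (Pq.cons (Pq.L [] 2066 (Pf.C 27 98689))
 Pq.nil))))))) (Pq.cons (Pq.L [] 1034 (Pf.C 27 82305))
 Pq.nil))))))) (Pq.cons (Pq.L [] 4 (Pf.C 2 513))
 (Pq.cons (Pq.L [] 4 (Pf.C 2 513))
 Pq.nil))))))) (Pq.cons (Pq.L [] 32 (Pf.C 12 386))
 (Pq.cons (Pq.D 3 (Pq.cons (Pq.D 4 (Pq.cons (Pq.L [0] 4301 (Pf.C 42 0xa10101))
 (Pq.cons (Pq.L [] 137 (Pf.C 24 82050))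
 (Pq.cons (Pq.L [0] 4301 (Pf.C 42 0xa10101))
 (Pq.cons (Pq.L [] 137 (Pf.C 24 82050))
 (Pq.cons (Pq.L [] 4288 (Pf.C 23 33412))
 (Pq.cons (Pq.L [] 128 (Pf.C 9 261))
 Pq.nil))))))) (Pq.cons (Pq.L [] 64 (Pf.C 12 514))
 (Pq.cons (Pq.D 4 (Pq.cons (Pq.L [0] 4301 (Pf.C 42 0xa10101))
 (Pq.cons (Pq.L [] 137 (Pf.C 24 82050))
 (Pq.cons (Pq.L [0] 4301 (Pf.C 42 0xa10101))
 (Pq.cons (Pq.L [] 137 (Pf.C 24 82050))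
 (Pq.cons (Pq.D 5 (Pq.cons (Pq.L [] 16793 (Pf.C 32 0xa18082))
 (Pq.cons (Pq.L [] 273 (Pf.C 24 98434))
 (Pq.cons (Pq.L [] 16793 (Pf.C 32 0xa18082))
 (Pq.cons (Pq.L [] 273 (Pf.C 24 98434))
 (Pq.cons (Pq.L [] 16384 (Pf.C 2 773))
 (Pq.cons (Pq.L [] 256 (Pf.C 9 262))
 Pq.nil))))))) (Pq.cons (Pq.L [] 128 (Pf.C 9 261))
 Pq.nil))))))) (Pq.cons (Pq.D 4 (Pq.cons (Pq.L [0] 4301 (Pf.C 42 0xa10101))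
 (Pq.cons (Pq.L [] 137 (Pf.C 24 82050))
 (Pq.cons (Pq.L [0] 4301 (Pf.C 42 0xa10101))
 (Pq.cons (Pq.L [] 137 (Pf.C 24 82050))
 (Pq.cons (Pq.D 5 (Pq.cons (Pq.L [] 16793 (Pf.C 32 0xa18082))
 (Pq.cons (Pq.L [] 273 (Pf.C 24 98434))
 (Pq.cons (Pq.L [] 16793 (Pf.C 32 0xa18082))
 (Pq.cons (Pq.L [] 273 (Pf.C 24 98434))
 (Pq.cons (Pq.L [] 29149 (Pf.C 48 0x60a08084))
 (Pq.cons (Pq.L [] 29149 (Pf.C 48 0x60a08084))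
 Pq.nil))))))) (Pq.cons (Pq.L [] 128 (Pf.C 9 261))
 Pq.nil))))))) (Pq.cons (Pq.L [] 4 (Pf.C 2 513))
 (Pq.cons (Pq.L [] 4 (Pf.C 2 513))
 Pq.nil))))))) (Pq.cons (Pq.D 3 (Pq.cons (Pq.D 4 (Pq.cons (Pq.L [0] 4301 (Pf.C 42 0xa10101))
 (Pq.cons (Pq.L [] 137 (Pf.C 24 82050))
 (Pq.cons (Pq.L [0] 4301 (Pf.C 42 0xa10101))
 (Pq.cons (Pq.L [] 137 (Pf.C 24 82050))
 (Pq.cons (Pq.L [] 5871 (Pf.C 45 0x30a10101))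
 (Pq.cons (Pq.L [] 5871 (Pf.C 45 0x30a10101))
 Pq.nil))))))) (Pq.cons (Pq.L [] 64 (Pf.C 12 514))
 (Pq.cons (Pq.D 4 (Pq.cons (Pq.L [0] 4301 (Pf.C 42 0xa10101))
 (Pq.cons (Pq.L [] 137 (Pf.C 24 82050))
 (Pq.cons (Pq.L [0] 4301 (Pf.C 42 0xa10101))
 (Pq.cons (Pq.L [] 137 (Pf.C 24 82050))
 (Pq.cons (Pq.L [] 5871 (Pf.C 45 0x30a10101))
 (Pq.cons (Pq.L [] 5871 (Pf.C 45 0x30a10101))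
 Pq.nil))))))) (Pq.cons (Pq.D 4 (Pq.cons (Pq.L [0] 4301 (Pf.C 42 0xa10101))
 (Pq.cons (Pq.L [] 137 (Pf.C 24 82050))
 (Pq.cons (Pq.L [0] 4301 (Pf.C 42 0xa10101))
 (Pq.cons (Pq.L [] 137 (Pf.C 24 82050))
 (Pq.cons (Pq.D 5 (Pq.cons (Pq.L [] 16793 (Pf.C 32 0xa18082))
 (Pq.cons (Pq.L [] 273 (Pf.C 24 98434))
 (Pq.cons (Pq.L [] 16793 (Pf.C 32 0xa18082))
 (Pq.cons (Pq.L [] 273 (Pf.C 24 98434))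
 (Pq.cons (Pq.L [] 29149 (Pf.C 48 0x60a08084))
 (Pq.cons (Pq.L [] 29149 (Pf.C 48 0x60a08084))
 Pq.nil))))))) (Pq.cons (Pq.L [] 128 (Pf.C 9 261))
 Pq.nil))))))) (Pq.cons (Pq.L [] 4 (Pf.C 2 513))
 (Pq.cons (Pq.L [] 4 (Pf.C 2 513))
 Pq.nil))))))) (Pq.cons (Pq.L [] 2 (Pf.C 2 385))
 (Pq.cons (Pq.L [] 2 (Pf.C 2 385))
 Pq.nil))))))) (Pq.cons (Pq.D 2 (Pq.cons (Pq.D 3 (Pq.cons (Pq.D 4 (Pq.cons (Pq.L [0] 4301 (Pf.C 42 0xa10101))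
 (Pq.cons (Pq.L [] 1034 (Pf.C 24 82051))
 (Pq.cons (Pq.L [] 1034 (Pf.C 23 82051))
 (Pq.cons (Pq.L [] 1034 (Pf.C 23 82051))
 (Pq.cons (Pq.L [] 5871 (Pf.C 44 0x20a10181))
 (Pq.cons (Pq.L [] 1034 (Pf.C 27 82305))
 Pq.nil))))))) (Pq.cons (Pq.D 4 (Pq.cons (Pq.L [0] 4301 (Pf.C 42 0xa10101))
 (Pq.cons (Pq.L [] 1034 (Pf.C 24 82051))
 (Pq.cons (Pq.L [] 1034 (Pf.C 23 82051))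
 (Pq.cons (Pq.L [] 1034 (Pf.C 23 82051))
 (Pq.cons (Pq.L [] 5871 (Pf.C 44 0x20a10181))
 (Pq.cons (Pq.L [] 1034 (Pf.C 27 82305))
 Pq.nil))))))) (Pq.cons (Pq.D 4 (Pq.cons (Pq.L [0] 4301 (Pf.C 42 0xa10101))
 (Pq.cons (Pq.L [] 1034 (Pf.C 24 82051))
 (Pq.cons (Pq.L [] 1034 (Pf.C 23 82051))
 (Pq.cons (Pq.L [] 1034 (Pf.C 23 82051))
 (Pq.cons (Pq.L [] 5871 (Pf.C 45 0x20a10181))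
 (Pq.cons (Pq.L [] 1034 (Pf.C 27 82305))
 Pq.nil))))))) (Pq.cons (Pq.D 4 (Pq.cons (Pq.L [0] 4301 (Pf.C 42 0xa10101))
 (Pq.cons (Pq.L [] 1034 (Pf.C 24 82051))
 (Pq.cons (Pq.L [] 1034 (Pf.C 23 82051))
 (Pq.cons (Pq.L [] 1034 (Pf.C 23 82051))
 (Pq.cons (Pq.D 5 (Pq.cons (Pq.L [] 16793 (Pf.C 32 0xa18082))
 (Pq.cons (Pq.L [] 2066 (Pf.C 24 98435))
 (Pq.cons (Pq.L [] 2066 (Pf.C 23 98435))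
 (Pq.cons (Pq.L [] 2066 (Pf.C 23 98435))
 (Pq.cons (Pq.L [] 32286 (Pf.C 47 0x60a0c084))
 (Pq.cons (Pq.L [] 2066 (Pf.C 27 98689))
 Pq.nil))))))) (Pq.cons (Pq.L [] 1034 (Pf.C 27 82305))
 Pq.nil))))))) (Pq.cons (Pq.L [] 4 (Pf.C 2 513))
 (Pq.cons (Pq.L [] 4 (Pf.C 2 513))
 Pq.nil))))))) (Pq.cons (Pq.D 3 (Pq.cons (Pq.D 4 (Pq.cons (Pq.L [0] 4301 (Pf.C 42 0xa10101))
 (Pq.cons (Pq.L [0] 4301 (Pf.C 42 0xa10101))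
 (Pq.cons (Pq.L [] 1034 (Pf.C 23 82051))
 (Pq.cons (Pq.L [] 1034 (Pf.C 23 82051))
 (Pq.cons (Pq.L [] 5871 (Pf.C 44 0x20a10181))
 (Pq.cons (Pq.L [] 1034 (Pf.C 27 82305))
 Pq.nil))))))) (Pq.cons (Pq.D 4 (Pq.cons (Pq.L [0] 4301 (Pf.C 42 0xa10101))
 (Pq.cons (Pq.L [0] 4301 (Pf.C 42 0xa10101))
 (Pq.cons (Pq.L [] 1034 (Pf.C 23 82051))
 (Pq.cons (Pq.L [] 1034 (Pf.C 23 82051))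
 (Pq.cons (Pq.L [] 5871 (Pf.C 44 0x20a10181))
 (Pq.cons (Pq.L [] 1034 (Pf.C 27 82305))
 Pq.nil))))))) (Pq.cons (Pq.L [] 512 (Pf.C 12 388))
 (Pq.cons (Pq.D 4 (Pq.cons (Pq.L [0] 4301 (Pf.C 42 0xa10101))
 (Pq.cons (Pq.L [0] 4301 (Pf.C 42 0xa10101))
 (Pq.cons (Pq.L [] 1034 (Pf.C 23 82051))
 (Pq.cons (Pq.L [] 1034 (Pf.C 23 82051))
 (Pq.cons (Pq.D 5 (Pq.cons (Pq.L [] 16793 (Pf.C 32 0xa18082))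
 (Pq.cons (Pq.L [] 16793 (Pf.C 32 0xa18082))
 (Pq.cons (Pq.L [] 2066 (Pf.C 23 98435))
 (Pq.cons (Pq.L [] 2066 (Pf.C 23 98435))
 (Pq.cons (Pq.L [] 32286 (Pf.C 47 0x60a0c084))
 (Pq.cons (Pq.L [] 2066 (Pf.C 27 98689))
 Pq.nil))))))) (Pq.cons (Pq.L [] 1034 (Pf.C 27 82305))
 Pq.nil))))))) (Pq.cons (Pq.L [] 4 (Pf.C 2 513))
 (Pq.cons (Pq.L [] 4 (Pf.C 2 513))
 Pq.nil))))))) (Pq.cons (Pq.D 3 (Pq.cons (Pq.D 4 (Pq.cons (Pq.L [0] 4301 (Pf.C 42 0xa10101))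
 (Pq.cons (Pq.L [] 1034 (Pf.C 24 82051))
 (Pq.cons (Pq.L [0] 4301 (Pf.C 42 0xa10101))
 (Pq.cons (Pq.L [] 1034 (Pf.C 24 82051))
 (Pq.cons (Pq.L [] 5871 (Pf.C 45 0x20a10181))
 (Pq.cons (Pq.L [] 5871 (Pf.C 45 0x20a10181))
 Pq.nil))))))) (Pq.cons (Pq.L [] 512 (Pf.C 12 515))
 (Pq.cons (Pq.D 4 (Pq.cons (Pq.L [0] 4301 (Pf.C 42 0xa10101))
 (Pq.cons (Pq.L [] 1034 (Pf.C 24 82051))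
 (Pq.cons (Pq.L [0] 4301 (Pf.C 42 0xa10101))
 (Pq.cons (Pq.L [] 1034 (Pf.C 24 82051))
 (Pq.cons (Pq.L [] 5871 (Pf.C 45 0x20a10181))
 (Pq.cons (Pq.L [] 5871 (Pf.C 45 0x20a10181))
 Pq.nil))))))) (Pq.cons (Pq.D 4 (Pq.cons (Pq.L [0] 4301 (Pf.C 42 0xa10101))
 (Pq.cons (Pq.L [] 1034 (Pf.C 24 82051))
 (Pq.cons (Pq.L [0] 4301 (Pf.C 42 0xa10101))
 (Pq.cons (Pq.L [] 1034 (Pf.C 24 82051))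
 (Pq.cons (Pq.D 5 (Pq.cons (Pq.L [] 16793 (Pf.C 32 0xa18082))
 (Pq.cons (Pq.L [] 2066 (Pf.C 24 98435))
 (Pq.cons (Pq.L [] 16793 (Pf.C 32 0xa18082))
 (Pq.cons (Pq.L [] 2066 (Pf.C 24 98435))
 (Pq.cons (Pq.L [] 32286 (Pf.C 48 0x60a0c084))
 (Pq.cons (Pq.L [] 32286 (Pf.C 48 0x60a0c084))
 Pq.nil))))))) (Pq.cons (Pq.L [0] 128 (Pf.C 18 33408))
 Pq.nil))))))) (Pq.cons (Pq.L [] 4 (Pf.C 2 513))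
 (Pq.cons (Pq.L [] 4 (Pf.C 2 513))
 Pq.nil))))))) (Pq.cons (Pq.D 3 (Pq.cons (Pq.D 4 (Pq.cons (Pq.L [0] 4301 (Pf.C 42 0xa10101))
 (Pq.cons (Pq.L [0] 4301 (Pf.C 42 0xa10101))
 (Pq.cons (Pq.L [0] 4301 (Pf.C 42 0xa10101))
 (Pq.cons (Pq.L [0] 4301 (Pf.C 42 0xa10101))
 (Pq.cons (Pq.L [] 4288 (Pf.C 23 33412))
 (Pq.cons (Pq.L [0] 128 (Pf.C 18 33408))
 Pq.nil))))))) (Pq.cons (Pq.D 4 (Pq.cons (Pq.L [0] 4301 (Pf.C 42 0xa10101))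
 (Pq.cons (Pq.L [0] 4301 (Pf.C 42 0xa10101))
 (Pq.cons (Pq.L [0] 4301 (Pf.C 42 0xa10101))
 (Pq.cons (Pq.L [0] 4301 (Pf.C 42 0xa10101))
 (Pq.cons (Pq.L [] 4288 (Pf.C 23 33412))
 (Pq.cons (Pq.L [0] 128 (Pf.C 18 33408))
 Pq.nil))))))) (Pq.cons (Pq.D 4 (Pq.cons (Pq.L [0] 4301 (Pf.C 42 0xa10101))
 (Pq.cons (Pq.L [0] 4301 (Pf.C 42 0xa10101))
 (Pq.cons (Pq.L [0] 4301 (Pf.C 42 0xa10101))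
 (Pq.cons (Pq.L [0] 4301 (Pf.C 42 0xa10101))
 (Pq.cons (Pq.L [] 4288 (Pf.C 24 33412))
 (Pq.cons (Pq.L [0] 128 (Pf.C 18 33408))
 Pq.nil))))))) (Pq.cons (Pq.D 4 (Pq.cons (Pq.L [0] 4301 (Pf.C 42 0xa10101))
 (Pq.cons (Pq.L [0] 4301 (Pf.C 42 0xa10101))
 (Pq.cons (Pq.L [0] 4301 (Pf.C 42 0xa10101))
 (Pq.cons (Pq.L [0] 4301 (Pf.C 42 0xa10101))
 (Pq.cons (Pq.D 5 (Pq.cons (Pq.L [] 16793 (Pf.C 32 0xa18082))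
 (Pq.cons (Pq.L [] 16793 (Pf.C 32 0xa18082))
 (Pq.cons (Pq.L [] 16793 (Pf.C 32 0xa18082))
 (Pq.cons (Pq.L [] 16793 (Pf.C 32 0xa18082))
 (Pq.cons (Pq.L [] 16384 (Pf.C 2 773))
 (Pq.cons (Pq.L [0] 256 (Pf.C 18 33536))
 Pq.nil))))))) (Pq.cons (Pq.L [0] 128 (Pf.C 18 33408))
 Pq.nil))))))) (Pq.cons (Pq.L [] 4 (Pf.C 2 513))
 (Pq.cons (Pq.L [] 4 (Pf.C 2 513))
 Pq.nil))))))) (Pq.cons (Pq.L [] 2 (Pf.C 2 385))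
 (Pq.cons (Pq.L [] 2 (Pf.C 2 385))
 Pq.nil))))))) (Pq.cons (Pq.L [] 1 (Pf.C 2 257))
 (Pq.cons (Pq.L [] 1 (Pf.C 2 257))
 Pq.nil))))))) Pq.nil)
theorem s1_o81 : AllRef s1_T s1_G81 (List.take 1 (List.drop 4 (List.flatMap (splitP 0) (List.take 1 (applyObl bS113_T 3 [134,136,138,143,149,151] [1,1,1,1,2,2] []))))) :=
  chkPq_sound s1_o81c _ (by decide +kernel)
noncomputable def s1_o82c : Pq := (Pq.cons (Pq.D 1 (Pq.cons (Pq.D 2 (Pq.cons (Pq.D 3 (Pq.cons (Pq.D 4 (Pq.cons (Pq.L [0] 4301 (Pf.C 42 0xa10101))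
 (Pq.cons (Pq.L [] 8 (Pf.C 8 641))
 (Pq.cons (Pq.L [] 8 (Pf.C 9 641))
 (Pq.cons (Pq.L [0] 8 (Pf.C 18 82048))
 (Pq.cons (Pq.D 5 (Pq.cons (Pq.L [] 16408 (Pf.C 27 17157))
 (Pq.cons (Pq.L [] 16 (Pf.C 8 769))
 (Pq.cons (Pq.L [] 16 (Pf.C 9 769))
 (Pq.cons (Pq.L [0] 16 (Pf.C 18 98432))
 (Pq.cons (Pq.L [] 16384 (Pf.C 2 773))
 (Pq.cons (Pq.L [] 16384 (Pf.C 2 773))
 Pq.nil))))))) (Pq.cons (Pq.D 5 (Pq.cons (Pq.L [] 16793 (Pf.C 34 0xc14101))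
 (Pq.cons (Pq.L [] 16 (Pf.C 8 769))
 (Pq.cons (Pq.L [] 16 (Pf.C 9 769))
 (Pq.cons (Pq.L [0] 16 (Pf.C 18 98432))
 (Pq.cons (Pq.L [] 16384 (Pf.C 2 773))
 (Pq.cons (Pq.L [] 16384 (Pf.C 2 773))
 Pq.nil))))))) Pq.nil))))))) (Pq.cons (Pq.D 4 (Pq.cons (Pq.L [0] 4301 (Pf.C 42 0xa10101))
 (Pq.cons (Pq.L [] 8 (Pf.C 8 641))
 (Pq.cons (Pq.L [] 8 (Pf.C 9 641))
 (Pq.cons (Pq.L [0] 8 (Pf.C 18 82048))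
 (Pq.cons (Pq.D 5 (Pq.cons (Pq.L [] 16408 (Pf.C 27 17157))
 (Pq.cons (Pq.L [] 16 (Pf.C 8 769))
 (Pq.cons (Pq.L [] 16 (Pf.C 9 769))
 (Pq.cons (Pq.L [0] 16 (Pf.C 18 98432))
 (Pq.cons (Pq.L [] 29149 (Pf.C 48 0x60a08084))
 (Pq.cons (Pq.L [] 29149 (Pf.C 48 0x60a08084))
 Pq.nil))))))) (Pq.cons (Pq.D 5 (Pq.cons (Pq.L [] 16793 (Pf.C 34 0xc14101))
 (Pq.cons (Pq.L [] 16 (Pf.C 8 769))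
 (Pq.cons (Pq.L [] 16 (Pf.C 9 769))
 (Pq.cons (Pq.L [0] 16 (Pf.C 18 98432))
 (Pq.cons (Pq.L [] 29149 (Pf.C 48 0x60a08084))
 (Pq.cons (Pq.L [] 29149 (Pf.C 48 0x60a08084))
 Pq.nil))))))) Pq.nil))))))) (Pq.cons (Pq.D 4 (Pq.cons (Pq.L [0] 4301 (Pf.C 42 0xa10101))
 (Pq.cons (Pq.L [] 8 (Pf.C 8 641))
 (Pq.cons (Pq.L [] 8 (Pf.C 9 641))
 (Pq.cons (Pq.L [0] 8 (Pf.C 18 82048))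
 (Pq.cons (Pq.D 5 (Pq.cons (Pq.L [] 16408 (Pf.C 27 17157))
 (Pq.cons (Pq.L [] 16 (Pf.C 8 769))
 (Pq.cons (Pq.L [] 16 (Pf.C 9 769))
 (Pq.cons (Pq.L [0] 16 (Pf.C 18 98432))
 (Pq.cons (Pq.L [] 29149 (Pf.C 47 0x60a08084))
 (Pq.cons (Pq.L [] 29149 (Pf.C 47 0x60a08084))
 Pq.nil))))))) (Pq.cons (Pq.D 5 (Pq.cons (Pq.L [] 16793 (Pf.C 34 0xc14101))
 (Pq.cons (Pq.L [] 16 (Pf.C 8 769))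
 (Pq.cons (Pq.L [] 16 (Pf.C 9 769))
 (Pq.cons (Pq.L [0] 16 (Pf.C 18 98432))
 (Pq.cons (Pq.L [] 29149 (Pf.C 47 0x60a08084))
 (Pq.cons (Pq.L [] 29149 (Pf.C 47 0x60a08084))
 Pq.nil))))))) Pq.nil))))))) (Pq.cons (Pq.D 4 (Pq.cons (Pq.L [0] 4301 (Pf.C 42 0xa10101))
 (Pq.cons (Pq.L [] 8 (Pf.C 8 641))
 (Pq.cons (Pq.L [] 8 (Pf.C 9 641))
 (Pq.cons (Pq.L [0] 8 (Pf.C 18 82048))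
 (Pq.cons (Pq.D 5 (Pq.cons (Pq.L [] 16408 (Pf.C 27 17157))
 (Pq.cons (Pq.L [] 16 (Pf.C 8 769))
 (Pq.cons (Pq.L [] 16 (Pf.C 9 769))
 (Pq.cons (Pq.L [0] 16 (Pf.C 18 98432))
 (Pq.cons (Pq.L [] 29149 (Pf.C 47 0x60a08084))
 (Pq.cons (Pq.L [] 29149 (Pf.C 47 0x60a08084))
 Pq.nil))))))) (Pq.cons (Pq.D 5 (Pq.cons (Pq.L [] 16793 (Pf.C 34 0xc14101))
 (Pq.cons (Pq.L [] 16 (Pf.C 8 769))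
 (Pq.cons (Pq.L [] 16 (Pf.C 9 769))
 (Pq.cons (Pq.L [0] 16 (Pf.C 18 98432))
 (Pq.cons (Pq.L [] 29149 (Pf.C 47 0x60a08084))
 (Pq.cons (Pq.L [] 29149 (Pf.C 47 0x60a08084))
 Pq.nil))))))) Pq.nil))))))) (Pq.cons (Pq.L [] 4 (Pf.C 2 513))
 (Pq.cons (Pq.L [] 4 (Pf.C 2 513))
 Pq.nil))))))) (Pq.cons (Pq.D 3 (Pq.cons (Pq.D 4 (Pq.cons (Pq.L [0] 4301 (Pf.C 42 0xa10101))
 (Pq.cons (Pq.L [] 8 (Pf.C 8 641))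
 (Pq.cons (Pq.L [] 8 (Pf.C 9 641))
 (Pq.cons (Pq.L [0] 8 (Pf.C 18 82048))
 (Pq.cons (Pq.L [] 5871 (Pf.C 45 0x30a10101))
 (Pq.cons (Pq.L [] 5871 (Pf.C 45 0x30a10101))
 Pq.nil))))))) (Pq.cons (Pq.D 4 (Pq.cons (Pq.L [0] 4301 (Pf.C 42 0xa10101))
 (Pq.cons (Pq.L [] 8 (Pf.C 8 641))
 (Pq.cons (Pq.L [] 8 (Pf.C 9 641))
 (Pq.cons (Pq.L [0] 8 (Pf.C 18 82048))
 (Pq.cons (Pq.D 5 (Pq.cons (Pq.L [] 16408 (Pf.C 27 17157))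
 (Pq.cons (Pq.L [] 16 (Pf.C 8 769))
 (Pq.cons (Pq.L [] 16 (Pf.C 9 769))
 (Pq.cons (Pq.L [0] 16 (Pf.C 18 98432))
 (Pq.cons (Pq.L [] 29149 (Pf.C 48 0x60a08084))
 (Pq.cons (Pq.L [] 29149 (Pf.C 48 0x60a08084))
 Pq.nil))))))) (Pq.cons (Pq.L [] 1024 (Pf.C 8 389))
 Pq.nil))))))) (Pq.cons (Pq.L [] 512 (Pf.C 12 388))
 (Pq.cons (Pq.D 4 (Pq.cons (Pq.L [0] 4301 (Pf.C 42 0xa10101))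
 (Pq.cons (Pq.L [] 8 (Pf.C 8 641))
 (Pq.cons (Pq.L [] 8 (Pf.C 9 641))
 (Pq.cons (Pq.L [0] 8 (Pf.C 18 82048))
 (Pq.cons (Pq.D 5 (Pq.cons (Pq.L [] 16408 (Pf.C 27 17157))
 (Pq.cons (Pq.L [] 16 (Pf.C 8 769))
 (Pq.cons (Pq.L [] 16 (Pf.C 9 769))
 (Pq.cons (Pq.L [0] 16 (Pf.C 18 98432))
 (Pq.cons (Pq.L [] 29149 (Pf.C 47 0x60a08084))
 (Pq.cons (Pq.L [] 29149 (Pf.C 47 0x60a08084))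
 Pq.nil))))))) (Pq.cons (Pq.L [] 1024 (Pf.C 8 389))
 Pq.nil))))))) (Pq.cons (Pq.L [] 4 (Pf.C 2 513))
 (Pq.cons (Pq.L [] 4 (Pf.C 2 513))
 Pq.nil))))))) (Pq.cons (Pq.D 3 (Pq.cons (Pq.D 4 (Pq.cons (Pq.L [0] 4301 (Pf.C 42 0xa10101))
 (Pq.cons (Pq.L [] 8 (Pf.C 8 641))
 (Pq.cons (Pq.L [] 8 (Pf.C 9 641))
 (Pq.cons (Pq.L [0] 8 (Pf.C 18 82048))
 (Pq.cons (Pq.L [] 5871 (Pf.C 44 0x30a10101))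
 (Pq.cons (Pq.L [] 5871 (Pf.C 44 0x30a10101))
 Pq.nil))))))) (Pq.cons (Pq.L [] 512 (Pf.C 12 515))
 (Pq.cons (Pq.D 4 (Pq.cons (Pq.L [0] 4301 (Pf.C 42 0xa10101))
 (Pq.cons (Pq.L [] 8 (Pf.C 8 641))
 (Pq.cons (Pq.L [] 8 (Pf.C 9 641))
 (Pq.cons (Pq.L [0] 8 (Pf.C 18 82048))
 (Pq.cons (Pq.D 5 (Pq.cons (Pq.L [] 16408 (Pf.C 27 17157))
 (Pq.cons (Pq.L [] 16 (Pf.C 8 769))
 (Pq.cons (Pq.L [] 16 (Pf.C 9 769))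
 (Pq.cons (Pq.L [0] 16 (Pf.C 18 98432))
 (Pq.cons (Pq.L [] 29149 (Pf.C 47 0x60a08084))
 (Pq.cons (Pq.L [] 29149 (Pf.C 47 0x60a08084))
 Pq.nil))))))) (Pq.cons (Pq.L [] 1184 (Pf.C 17 82306))
 Pq.nil))))))) (Pq.cons (Pq.D 4 (Pq.cons (Pq.L [0] 4301 (Pf.C 42 0xa10101))
 (Pq.cons (Pq.L [] 8 (Pf.C 8 641))
 (Pq.cons (Pq.L [] 8 (Pf.C 9 641))
 (Pq.cons (Pq.L [0] 8 (Pf.C 18 82048))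
 (Pq.cons (Pq.D 5 (Pq.cons (Pq.L [] 16408 (Pf.C 27 17157))
 (Pq.cons (Pq.L [] 16 (Pf.C 8 769))
 (Pq.cons (Pq.L [] 16 (Pf.C 9 769))
 (Pq.cons (Pq.L [0] 16 (Pf.C 18 98432))
 (Pq.cons (Pq.L [] 29149 (Pf.C 47 0x60a08084))
 (Pq.cons (Pq.L [] 29149 (Pf.C 47 0x60a08084))
 Pq.nil))))))) (Pq.cons (Pq.L [] 1184 (Pf.C 17 82306))
 Pq.nil))))))) (Pq.cons (Pq.L [] 4 (Pf.C 2 513))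
 (Pq.cons (Pq.L [] 4 (Pf.C 2 513))
 Pq.nil))))))) (Pq.cons (Pq.D 3 (Pq.cons (Pq.D 4 (Pq.cons (Pq.L [0] 4301 (Pf.C 42 0xa10101))
 (Pq.cons (Pq.L [] 8 (Pf.C 8 641))
 (Pq.cons (Pq.L [] 8 (Pf.C 9 641))
 (Pq.cons (Pq.L [0] 8 (Pf.C 18 82048))
 (Pq.cons (Pq.L [] 5871 (Pf.C 44 0x30a10101))
 (Pq.cons (Pq.L [] 5871 (Pf.C 44 0x30a10101))
 Pq.nil))))))) (Pq.cons (Pq.D 4 (Pq.cons (Pq.L [0] 4301 (Pf.C 42 0xa10101))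
 (Pq.cons (Pq.L [] 8 (Pf.C 8 641))
 (Pq.cons (Pq.L [] 8 (Pf.C 9 641))
 (Pq.cons (Pq.L [0] 8 (Pf.C 18 82048))
 (Pq.cons (Pq.L [] 5871 (Pf.C 44 0x30a10101))
 (Pq.cons (Pq.L [] 5871 (Pf.C 44 0x30a10101))
 Pq.nil))))))) (Pq.cons (Pq.D 4 (Pq.cons (Pq.L [0] 4301 (Pf.C 42 0xa10101))
 (Pq.cons (Pq.L [] 8 (Pf.C 8 641))
 (Pq.cons (Pq.L [] 8 (Pf.C 9 641))
 (Pq.cons (Pq.L [0] 8 (Pf.C 18 82048))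
 (Pq.cons (Pq.L [] 5871 (Pf.C 45 0x30a10101))
 (Pq.cons (Pq.L [] 5871 (Pf.C 45 0x30a10101))
 Pq.nil))))))) (Pq.cons (Pq.D 4 (Pq.cons (Pq.L [0] 4301 (Pf.C 42 0xa10101))
 (Pq.cons (Pq.L [] 8 (Pf.C 8 641))
 (Pq.cons (Pq.L [] 8 (Pf.C 9 641))
 (Pq.cons (Pq.L [0] 8 (Pf.C 18 82048))
 (Pq.cons (Pq.D 5 (Pq.cons (Pq.L [] 16408 (Pf.C 27 17157))
 (Pq.cons (Pq.L [] 16 (Pf.C 8 769))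
 (Pq.cons (Pq.L [] 16 (Pf.C 9 769))
 (Pq.cons (Pq.L [0] 16 (Pf.C 18 98432))
 (Pq.cons (Pq.L [] 29149 (Pf.C 47 0x60a08084))
 (Pq.cons (Pq.L [] 29149 (Pf.C 47 0x60a08084))
 Pq.nil))))))) (Pq.cons (Pq.L [] 1184 (Pf.C 17 82306))
 Pq.nil))))))) (Pq.cons (Pq.L [] 4 (Pf.C 2 513))
 (Pq.cons (Pq.L [] 4 (Pf.C 2 513))
 Pq.nil))))))) (Pq.cons (Pq.L [] 2 (Pf.C 2 385))
 (Pq.cons (Pq.L [] 2 (Pf.C 2 385))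
 Pq.nil))))))) (Pq.cons (Pq.D 2 (Pq.cons (Pq.D 3 (Pq.cons (Pq.D 4 (Pq.cons (Pq.L [0] 4301 (Pf.C 42 0xa10101))
 (Pq.cons (Pq.L [] 8 (Pf.C 8 641))
 (Pq.cons (Pq.L [] 8 (Pf.C 9 641))
 (Pq.cons (Pq.L [0] 8 (Pf.C 18 82048))
 (Pq.cons (Pq.L [] 5871 (Pf.C 45 0x20a10181))
 (Pq.cons (Pq.L [] 5871 (Pf.C 45 0x20a10181))
 Pq.nil))))))) (Pq.cons (Pq.D 4 (Pq.cons (Pq.L [0] 4301 (Pf.C 42 0xa10101))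
 (Pq.cons (Pq.L [] 8 (Pf.C 8 641))
 (Pq.cons (Pq.L [] 8 (Pf.C 9 641))
 (Pq.cons (Pq.L [0] 8 (Pf.C 18 82048))
 (Pq.cons (Pq.D 5 (Pq.cons (Pq.L [] 16408 (Pf.C 27 17157))
 (Pq.cons (Pq.L [] 16 (Pf.C 8 769))
 (Pq.cons (Pq.L [] 16 (Pf.C 9 769))
 (Pq.cons (Pq.L [0] 16 (Pf.C 18 98432))
 (Pq.cons (Pq.L [] 32286 (Pf.C 48 0x60a0c084))
 (Pq.cons (Pq.L [] 32286 (Pf.C 48 0x60a0c084))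
 Pq.nil))))))) (Pq.cons (Pq.L [] 128 (Pf.C 8 261))
 Pq.nil))))))) (Pq.cons (Pq.L [] 64 (Pf.C 12 260))
 (Pq.cons (Pq.D 4 (Pq.cons (Pq.L [0] 4301 (Pf.C 42 0xa10101))
 (Pq.cons (Pq.L [] 8 (Pf.C 8 641))
 (Pq.cons (Pq.L [] 8 (Pf.C 9 641))
 (Pq.cons (Pq.L [0] 8 (Pf.C 18 82048))
 (Pq.cons (Pq.D 5 (Pq.cons (Pq.L [] 16408 (Pf.C 27 17157))
 (Pq.cons (Pq.L [] 16 (Pf.C 8 769))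
 (Pq.cons (Pq.L [] 16 (Pf.C 9 769))
 (Pq.cons (Pq.L [0] 16 (Pf.C 18 98432))
 (Pq.cons (Pq.L [] 29149 (Pf.C 47 0x60a08084))
 (Pq.cons (Pq.L [] 29149 (Pf.C 47 0x60a08084))
 Pq.nil))))))) (Pq.cons (Pq.L [] 128 (Pf.C 8 261))
 Pq.nil))))))) (Pq.cons (Pq.L [] 4 (Pf.C 2 513))
 (Pq.cons (Pq.L [] 4 (Pf.C 2 513))
 Pq.nil))))))) (Pq.cons (Pq.D 3 (Pq.cons (Pq.D 4 (Pq.cons (Pq.L [0] 4301 (Pf.C 42 0xa10101))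
 (Pq.cons (Pq.L [] 8 (Pf.C 8 641))
 (Pq.cons (Pq.L [] 8 (Pf.C 9 641))
 (Pq.cons (Pq.L [0] 8 (Pf.C 18 82048))
 (Pq.cons (Pq.L [] 4288 (Pf.C 24 33412))
 (Pq.cons (Pq.L [] 128 (Pf.C 8 261))
 Pq.nil))))))) (Pq.cons (Pq.D 4 (Pq.cons (Pq.L [0] 4301 (Pf.C 42 0xa10101))
 (Pq.cons (Pq.L [] 8 (Pf.C 8 641))
 (Pq.cons (Pq.L [] 8 (Pf.C 9 641))
 (Pq.cons (Pq.L [0] 8 (Pf.C 18 82048))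
 (Pq.cons (Pq.D 5 (Pq.cons (Pq.L [] 16408 (Pf.C 27 17157))
 (Pq.cons (Pq.L [] 16 (Pf.C 8 769))
 (Pq.cons (Pq.L [] 16 (Pf.C 9 769))
 (Pq.cons (Pq.L [0] 16 (Pf.C 18 98432))
 (Pq.cons (Pq.L [] 16384 (Pf.C 2 773))
 (Pq.cons (Pq.L [] 256 (Pf.C 8 262))
 Pq.nil))))))) (Pq.cons (Pq.L [] 128 (Pf.C 8 261))
 Pq.nil))))))) (Pq.cons (Pq.L [] 64 (Pf.C 12 260))
 (Pq.cons (Pq.D 4 (Pq.cons (Pq.L [0] 4301 (Pf.C 42 0xa10101))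
 (Pq.cons (Pq.L [] 8 (Pf.C 8 641))
 (Pq.cons (Pq.L [] 8 (Pf.C 9 641))
 (Pq.cons (Pq.L [0] 8 (Pf.C 18 82048))
 (Pq.cons (Pq.D 5 (Pq.cons (Pq.L [] 16408 (Pf.C 27 17157))
 (Pq.cons (Pq.L [] 16 (Pf.C 8 769))
 (Pq.cons (Pq.L [] 16 (Pf.C 9 769))
 (Pq.cons (Pq.L [0] 16 (Pf.C 18 98432))
 (Pq.cons (Pq.L [] 29149 (Pf.C 47 0x60a08084))
 (Pq.cons (Pq.L [] 29149 (Pf.C 47 0x60a08084))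
 Pq.nil))))))) (Pq.cons (Pq.L [] 128 (Pf.C 8 261))
 Pq.nil))))))) (Pq.cons (Pq.L [] 4 (Pf.C 2 513))
 (Pq.cons (Pq.L [] 4 (Pf.C 2 513))
 Pq.nil))))))) (Pq.cons (Pq.L [] 32 (Pf.C 12 259))
 (Pq.cons (Pq.D 3 (Pq.cons (Pq.D 4 (Pq.cons (Pq.L [0] 4301 (Pf.C 42 0xa10101))
 (Pq.cons (Pq.L [] 8 (Pf.C 8 641))
 (Pq.cons (Pq.L [] 8 (Pf.C 9 641))
 (Pq.cons (Pq.L [0] 8 (Pf.C 18 82048))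
 (Pq.cons (Pq.L [] 5871 (Pf.C 44 0x30a10101))
 (Pq.cons (Pq.L [] 5871 (Pf.C 44 0x30a10101))
 Pq.nil))))))) (Pq.cons (Pq.D 4 (Pq.cons (Pq.L [0] 4301 (Pf.C 42 0xa10101))
 (Pq.cons (Pq.L [] 8 (Pf.C 8 641))
 (Pq.cons (Pq.L [] 8 (Pf.C 9 641))
 (Pq.cons (Pq.L [0] 8 (Pf.C 18 82048))
 (Pq.cons (Pq.L [] 5871 (Pf.C 44 0x30a10101))
 (Pq.cons (Pq.L [] 5871 (Pf.C 44 0x30a10101))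
 Pq.nil))))))) (Pq.cons (Pq.L [] 64 (Pf.C 12 260))
 (Pq.cons (Pq.D 4 (Pq.cons (Pq.L [0] 4301 (Pf.C 42 0xa10101))
 (Pq.cons (Pq.L [] 8 (Pf.C 8 641))
 (Pq.cons (Pq.L [] 8 (Pf.C 9 641))
 (Pq.cons (Pq.L [0] 8 (Pf.C 18 82048))
 (Pq.cons (Pq.D 5 (Pq.cons (Pq.L [] 16408 (Pf.C 27 17157))
 (Pq.cons (Pq.L [] 16 (Pf.C 8 769))
 (Pq.cons (Pq.L [] 16 (Pf.C 9 769))
 (Pq.cons (Pq.L [0] 16 (Pf.C 18 98432))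
 (Pq.cons (Pq.L [] 29149 (Pf.C 47 0x60a08084))
 (Pq.cons (Pq.L [] 29149 (Pf.C 47 0x60a08084))
 Pq.nil))))))) (Pq.cons (Pq.L [] 128 (Pf.C 8 261))
 Pq.nil))))))) (Pq.cons (Pq.L [] 4 (Pf.C 2 513))
 (Pq.cons (Pq.L [] 4 (Pf.C 2 513))
 Pq.nil))))))) (Pq.cons (Pq.L [] 2 (Pf.C 2 385))
 (Pq.cons (Pq.L [] 2 (Pf.C 2 385))
 Pq.nil))))))) (Pq.cons (Pq.D 2 (Pq.cons (Pq.D 3 (Pq.cons (Pq.D 4 (Pq.cons (Pq.L [0] 4301 (Pf.C 42 0xa10101))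
 (Pq.cons (Pq.L [] 8 (Pf.C 8 641))
 (Pq.cons (Pq.L [] 8 (Pf.C 9 641))
 (Pq.cons (Pq.L [0] 8 (Pf.C 18 82048))
 (Pq.cons (Pq.L [] 5871 (Pf.C 44 0x20a10181))
 (Pq.cons (Pq.L [] 5871 (Pf.C 44 0x20a10181))
 Pq.nil))))))) (Pq.cons (Pq.L [] 64 (Pf.C 12 514))
 (Pq.cons (Pq.D 4 (Pq.cons (Pq.L [0] 4301 (Pf.C 42 0xa10101))
 (Pq.cons (Pq.L [] 8 (Pf.C 8 641))
 (Pq.cons (Pq.L [] 8 (Pf.C 9 641))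
 (Pq.cons (Pq.L [0] 8 (Pf.C 18 82048))
 (Pq.cons (Pq.D 5 (Pq.cons (Pq.L [] 16408 (Pf.C 27 17157))
 (Pq.cons (Pq.L [] 16 (Pf.C 8 769))
 (Pq.cons (Pq.L [] 16 (Pf.C 9 769))
 (Pq.cons (Pq.L [0] 16 (Pf.C 18 98432))
 (Pq.cons (Pq.L [] 32286 (Pf.C 47 0x60a0c084))
 (Pq.cons (Pq.L [] 32286 (Pf.C 47 0x60a0c084))
 Pq.nil))))))) (Pq.cons (Pq.L [] 128 (Pf.C 9 261))
 Pq.nil))))))) (Pq.cons (Pq.D 4 (Pq.cons (Pq.L [0] 4301 (Pf.C 42 0xa10101))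
 (Pq.cons (Pq.L [] 8 (Pf.C 8 641))
 (Pq.cons (Pq.L [] 8 (Pf.C 9 641))
 (Pq.cons (Pq.L [0] 8 (Pf.C 18 82048))
 (Pq.cons (Pq.D 5 (Pq.cons (Pq.L [] 16408 (Pf.C 27 17157))
 (Pq.cons (Pq.L [] 16 (Pf.C 8 769))
 (Pq.cons (Pq.L [] 16 (Pf.C 9 769))
 (Pq.cons (Pq.L [0] 16 (Pf.C 18 98432))
 (Pq.cons (Pq.L [] 32286 (Pf.C 47 0x60a0c084))
 (Pq.cons (Pq.L [] 32286 (Pf.C 47 0x60a0c084))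
 Pq.nil))))))) (Pq.cons (Pq.L [] 128 (Pf.C 9 261))
 Pq.nil))))))) (Pq.cons (Pq.L [] 4 (Pf.C 2 513))
 (Pq.cons (Pq.L [] 4 (Pf.C 2 513))
 Pq.nil))))))) (Pq.cons (Pq.L [] 32 (Pf.C 12 386))
 (Pq.cons (Pq.D 3 (Pq.cons (Pq.D 4 (Pq.cons (Pq.L [0] 4301 (Pf.C 42 0xa10101))
 (Pq.cons (Pq.L [] 8 (Pf.C 8 641))
 (Pq.cons (Pq.L [] 8 (Pf.C 9 641))
 (Pq.cons (Pq.L [0] 8 (Pf.C 18 82048))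
 (Pq.cons (Pq.L [] 4288 (Pf.C 23 33412))
 (Pq.cons (Pq.L [] 128 (Pf.C 9 261))
 Pq.nil))))))) (Pq.cons (Pq.L [] 64 (Pf.C 12 514))
 (Pq.cons (Pq.D 4 (Pq.cons (Pq.L [0] 4301 (Pf.C 42 0xa10101))
 (Pq.cons (Pq.L [] 8 (Pf.C 8 641))
 (Pq.cons (Pq.L [] 8 (Pf.C 9 641))
 (Pq.cons (Pq.L [0] 8 (Pf.C 18 82048))
 (Pq.cons (Pq.D 5 (Pq.cons (Pq.L [] 16408 (Pf.C 27 17157))
 (Pq.cons (Pq.L [] 16 (Pf.C 8 769))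
 (Pq.cons (Pq.L [] 16 (Pf.C 9 769))
 (Pq.cons (Pq.L [0] 16 (Pf.C 18 98432))
 (Pq.cons (Pq.L [] 16384 (Pf.C 2 773))
 (Pq.cons (Pq.L [] 256 (Pf.C 9 262))
 Pq.nil))))))) (Pq.cons (Pq.L [] 128 (Pf.C 9 261))
 Pq.nil))))))) (Pq.cons (Pq.D 4 (Pq.cons (Pq.L [0] 4301 (Pf.C 42 0xa10101))
 (Pq.cons (Pq.L [] 8 (Pf.C 8 641))
 (Pq.cons (Pq.L [] 8 (Pf.C 9 641))
 (Pq.cons (Pq.L [0] 8 (Pf.C 18 82048))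
 (Pq.cons (Pq.D 5 (Pq.cons (Pq.L [] 16408 (Pf.C 27 17157))
 (Pq.cons (Pq.L [] 16 (Pf.C 8 769))
 (Pq.cons (Pq.L [] 16 (Pf.C 9 769))
 (Pq.cons (Pq.L [0] 16 (Pf.C 18 98432))
 (Pq.cons (Pq.L [] 29149 (Pf.C 48 0x60a08084))
 (Pq.cons (Pq.L [] 29149 (Pf.C 48 0x60a08084))
 Pq.nil))))))) (Pq.cons (Pq.L [] 128 (Pf.C 9 261))
 Pq.nil))))))) (Pq.cons (Pq.L [] 4 (Pf.C 2 513))
 (Pq.cons (Pq.L [] 4 (Pf.C 2 513))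
 Pq.nil))))))) (Pq.cons (Pq.D 3 (Pq.cons (Pq.D 4 (Pq.cons (Pq.L [0] 4301 (Pf.C 42 0xa10101))
 (Pq.cons (Pq.L [] 8 (Pf.C 8 641))
 (Pq.cons (Pq.L [] 8 (Pf.C 9 641))
 (Pq.cons (Pq.L [0] 8 (Pf.C 18 82048))
 (Pq.cons (Pq.L [] 5871 (Pf.C 45 0x30a10101))
 (Pq.cons (Pq.L [] 5871 (Pf.C 45 0x30a10101))
 Pq.nil))))))) (Pq.cons (Pq.L [] 64 (Pf.C 12 514))
 (Pq.cons (Pq.D 4 (Pq.cons (Pq.L [0] 4301 (Pf.C 42 0xa10101))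
 (Pq.cons (Pq.L [] 8 (Pf.C 8 641))
 (Pq.cons (Pq.L [] 8 (Pf.C 9 641))
 (Pq.cons (Pq.L [0] 8 (Pf.C 18 82048))
 (Pq.cons (Pq.L [] 5871 (Pf.C 45 0x30a10101))
 (Pq.cons (Pq.L [] 5871 (Pf.C 45 0x30a10101))
 Pq.nil))))))) (Pq.cons (Pq.D 4 (Pq.cons (Pq.L [0] 4301 (Pf.C 42 0xa10101))
 (Pq.cons (Pq.L [] 8 (Pf.C 8 641))
 (Pq.cons (Pq.L [] 8 (Pf.C 9 641))
 (Pq.cons (Pq.L [0] 8 (Pf.C 18 82048))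
 (Pq.cons (Pq.D 5 (Pq.cons (Pq.L [] 16408 (Pf.C 27 17157))
 (Pq.cons (Pq.L [] 16 (Pf.C 8 769))
 (Pq.cons (Pq.L [] 16 (Pf.C 9 769))
 (Pq.cons (Pq.L [0] 16 (Pf.C 18 98432))
 (Pq.cons (Pq.L [] 29149 (Pf.C 48 0x60a08084))
 (Pq.cons (Pq.L [] 29149 (Pf.C 48 0x60a08084))
 Pq.nil))))))) (Pq.cons (Pq.L [] 128 (Pf.C 9 261))
 Pq.nil))))))) (Pq.cons (Pq.L [] 4 (Pf.C 2 513))
 (Pq.cons (Pq.L [] 4 (Pf.C 2 513))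
 Pq.nil))))))) (Pq.cons (Pq.L [] 2 (Pf.C 2 385))
 (Pq.cons (Pq.L [] 2 (Pf.C 2 385))
 Pq.nil))))))) (Pq.cons (Pq.D 2 (Pq.cons (Pq.D 3 (Pq.cons (Pq.D 4 (Pq.cons (Pq.L [0] 4301 (Pf.C 42 0xa10101))
 (Pq.cons (Pq.L [] 8 (Pf.C 8 641))
 (Pq.cons (Pq.L [] 8 (Pf.C 9 641))
 (Pq.cons (Pq.L [0] 8 (Pf.C 18 82048))
 (Pq.cons (Pq.L [] 5871 (Pf.C 44 0x20a10181))
 (Pq.cons (Pq.L [] 5871 (Pf.C 44 0x20a10181))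
 Pq.nil))))))) (Pq.cons (Pq.D 4 (Pq.cons (Pq.L [0] 4301 (Pf.C 42 0xa10101))
 (Pq.cons (Pq.L [] 8 (Pf.C 8 641))
 (Pq.cons (Pq.L [] 8 (Pf.C 9 641))
 (Pq.cons (Pq.L [0] 8 (Pf.C 18 82048))
 (Pq.cons (Pq.L [] 5871 (Pf.C 44 0x20a10181))
 (Pq.cons (Pq.L [] 5871 (Pf.C 44 0x20a10181))
 Pq.nil))))))) (Pq.cons (Pq.D 4 (Pq.cons (Pq.L [0] 4301 (Pf.C 42 0xa10101))
 (Pq.cons (Pq.L [] 8 (Pf.C 8 641))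
 (Pq.cons (Pq.L [] 8 (Pf.C 9 641))
 (Pq.cons (Pq.L [0] 8 (Pf.C 18 82048))
 (Pq.cons (Pq.L [] 5871 (Pf.C 45 0x20a10181))
 (Pq.cons (Pq.L [] 5871 (Pf.C 45 0x20a10181))
 Pq.nil))))))) (Pq.cons (Pq.D 4 (Pq.cons (Pq.L [0] 4301 (Pf.C 42 0xa10101))
 (Pq.cons (Pq.L [] 8 (Pf.C 8 641))
 (Pq.cons (Pq.L [] 8 (Pf.C 9 641))
 (Pq.cons (Pq.L [0] 8 (Pf.C 18 82048))
 (Pq.cons (Pq.D 5 (Pq.cons (Pq.L [] 16408 (Pf.C 27 17157))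
 (Pq.cons (Pq.L [] 16 (Pf.C 8 769))
 (Pq.cons (Pq.L [] 16 (Pf.C 9 769))
 (Pq.cons (Pq.L [0] 16 (Pf.C 18 98432))
 (Pq.cons (Pq.L [] 32286 (Pf.C 47 0x60a0c084))
 (Pq.cons (Pq.L [] 32286 (Pf.C 47 0x60a0c084))
 Pq.nil))))))) (Pq.cons (Pq.L [] 1184 (Pf.C 17 82179))
 Pq.nil))))))) (Pq.cons (Pq.L [] 4 (Pf.C 2 513))
 (Pq.cons (Pq.L [] 4 (Pf.C 2 513))
 Pq.nil))))))) (Pq.cons (Pq.D 3 (Pq.cons (Pq.D 4 (Pq.cons (Pq.L [0] 4301 (Pf.C 42 0xa10101))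
 (Pq.cons (Pq.L [] 8 (Pf.C 8 641))
 (Pq.cons (Pq.L [] 8 (Pf.C 9 641))
 (Pq.cons (Pq.L [0] 8 (Pf.C 18 82048))
 (Pq.cons (Pq.L [] 5871 (Pf.C 44 0x20a10181))
 (Pq.cons (Pq.L [] 5871 (Pf.C 44 0x20a10181))
 Pq.nil))))))) (Pq.cons (Pq.D 4 (Pq.cons (Pq.L [0] 4301 (Pf.C 42 0xa10101))
 (Pq.cons (Pq.L [] 8 (Pf.C 8 641))
 (Pq.cons (Pq.L [] 8 (Pf.C 9 641))
 (Pq.cons (Pq.L [0] 8 (Pf.C 18 82048))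
 (Pq.cons (Pq.L [] 5871 (Pf.C 44 0x20a10181))
 (Pq.cons (Pq.L [] 5871 (Pf.C 44 0x20a10181))
 Pq.nil))))))) (Pq.cons (Pq.L [] 512 (Pf.C 12 388))
 (Pq.cons (Pq.D 4 (Pq.cons (Pq.L [0] 4301 (Pf.C 42 0xa10101))
 (Pq.cons (Pq.L [] 8 (Pf.C 8 641))
 (Pq.cons (Pq.L [] 8 (Pf.C 9 641))
 (Pq.cons (Pq.L [0] 8 (Pf.C 18 82048))
 (Pq.cons (Pq.D 5 (Pq.cons (Pq.L [] 16408 (Pf.C 27 17157))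
 (Pq.cons (Pq.L [] 16 (Pf.C 8 769))
 (Pq.cons (Pq.L [] 16 (Pf.C 9 769))
 (Pq.cons (Pq.L [0] 16 (Pf.C 18 98432))
 (Pq.cons (Pq.L [] 32286 (Pf.C 47 0x60a0c084))
 (Pq.cons (Pq.L [] 32286 (Pf.C 47 0x60a0c084))
 Pq.nil))))))) (Pq.cons (Pq.L [] 1184 (Pf.C 17 82179))
 Pq.nil))))))) (Pq.cons (Pq.L [] 4 (Pf.C 2 513))
 (Pq.cons (Pq.L [] 4 (Pf.C 2 513))
 Pq.nil))))))) (Pq.cons (Pq.D 3 (Pq.cons (Pq.D 4 (Pq.cons (Pq.L [0] 4301 (Pf.C 42 0xa10101))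
 (Pq.cons (Pq.L [] 8 (Pf.C 8 641))
 (Pq.cons (Pq.L [] 8 (Pf.C 9 641))
 (Pq.cons (Pq.L [0] 8 (Pf.C 18 82048))
 (Pq.cons (Pq.L [] 5871 (Pf.C 45 0x20a10181))
 (Pq.cons (Pq.L [] 5871 (Pf.C 45 0x20a10181))
 Pq.nil))))))) (Pq.cons (Pq.L [] 512 (Pf.C 12 515))
 (Pq.cons (Pq.D 4 (Pq.cons (Pq.L [0] 4301 (Pf.C 42 0xa10101))
 (Pq.cons (Pq.L [] 8 (Pf.C 8 641))
 (Pq.cons (Pq.L [] 8 (Pf.C 9 641))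
 (Pq.cons (Pq.L [0] 8 (Pf.C 18 82048))
 (Pq.cons (Pq.L [] 5871 (Pf.C 45 0x20a10181))
 (Pq.cons (Pq.L [] 5871 (Pf.C 45 0x20a10181))
 Pq.nil))))))) (Pq.cons (Pq.D 4 (Pq.cons (Pq.L [0] 4301 (Pf.C 42 0xa10101))
 (Pq.cons (Pq.L [] 8 (Pf.C 8 641))
 (Pq.cons (Pq.L [] 8 (Pf.C 9 641))
 (Pq.cons (Pq.L [0] 8 (Pf.C 18 82048))
 (Pq.cons (Pq.D 5 (Pq.cons (Pq.L [] 16408 (Pf.C 27 17157))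
 (Pq.cons (Pq.L [] 16 (Pf.C 8 769))
 (Pq.cons (Pq.L [] 16 (Pf.C 9 769))
 (Pq.cons (Pq.L [0] 16 (Pf.C 18 98432))
 (Pq.cons (Pq.L [] 32286 (Pf.C 48 0x60a0c084))
 (Pq.cons (Pq.L [] 32286 (Pf.C 48 0x60a0c084))
 Pq.nil))))))) (Pq.cons (Pq.L [0] 128 (Pf.C 18 33408))
 Pq.nil))))))) (Pq.cons (Pq.L [] 4 (Pf.C 2 513))
 (Pq.cons (Pq.L [] 4 (Pf.C 2 513))
 Pq.nil))))))) (Pq.cons (Pq.D 3 (Pq.cons (Pq.D 4 (Pq.cons (Pq.L [0] 4301 (Pf.C 42 0xa10101))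
 (Pq.cons (Pq.L [] 8 (Pf.C 8 641))
 (Pq.cons (Pq.L [] 8 (Pf.C 9 641))
 (Pq.cons (Pq.L [0] 8 (Pf.C 18 82048))
 (Pq.cons (Pq.L [] 4288 (Pf.C 23 33412))
 (Pq.cons (Pq.L [0] 128 (Pf.C 18 33408))
 Pq.nil))))))) (Pq.cons (Pq.D 4 (Pq.cons (Pq.L [0] 4301 (Pf.C 42 0xa10101))
 (Pq.cons (Pq.L [] 8 (Pf.C 8 641))
 (Pq.cons (Pq.L [] 8 (Pf.C 9 641))
 (Pq.cons (Pq.L [0] 8 (Pf.C 18 82048))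
 (Pq.cons (Pq.L [] 4288 (Pf.C 23 33412))
 (Pq.cons (Pq.L [0] 128 (Pf.C 18 33408))
 Pq.nil))))))) (Pq.cons (Pq.D 4 (Pq.cons (Pq.L [0] 4301 (Pf.C 42 0xa10101))
 (Pq.cons (Pq.L [] 8 (Pf.C 8 641))
 (Pq.cons (Pq.L [] 8 (Pf.C 9 641))
 (Pq.cons (Pq.L [0] 8 (Pf.C 18 82048))
 (Pq.cons (Pq.L [] 4288 (Pf.C 24 33412))
 (Pq.cons (Pq.L [0] 128 (Pf.C 18 33408))
 Pq.nil))))))) (Pq.cons (Pq.D 4 (Pq.cons (Pq.L [0] 4301 (Pf.C 42 0xa10101))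
 (Pq.cons (Pq.L [] 8 (Pf.C 8 641))
 (Pq.cons (Pq.L [] 8 (Pf.C 9 641))
 (Pq.cons (Pq.L [0] 8 (Pf.C 18 82048))
 (Pq.cons (Pq.D 5 (Pq.cons (Pq.L [] 16408 (Pf.C 27 17157))
 (Pq.cons (Pq.L [] 16 (Pf.C 8 769))
 (Pq.cons (Pq.L [] 16 (Pf.C 9 769))
 (Pq.cons (Pq.L [0] 16 (Pf.C 18 98432))
 (Pq.cons (Pq.L [] 16384 (Pf.C 2 773))
 (Pq.cons (Pq.L [0] 256 (Pf.C 18 33536))
 Pq.nil))))))) (Pq.cons (Pq.L [0] 128 (Pf.C 18 33408))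
 Pq.nil))))))) (Pq.cons (Pq.L [] 4 (Pf.C 2 513))
 (Pq.cons (Pq.L [] 4 (Pf.C 2 513))
 Pq.nil))))))) (Pq.cons (Pq.L [] 2 (Pf.C 2 385))
 (Pq.cons (Pq.L [] 2 (Pf.C 2 385))
 Pq.nil))))))) (Pq.cons (Pq.L [] 1 (Pf.C 2 257))
 (Pq.cons (Pq.L [] 1 (Pf.C 2 257))
 Pq.nil))))))) Pq.nil)
theorem s1_o82 : AllRef s1_T s1_G81 (List.drop 1 (List.drop 4 (List.flatMap (splitP 0) (List.take 1 (applyObl bS113_T 3 [134,136,138,143,149,151] [1,1,1,1,2,2] []))))) :=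
  chkPq_sound s1_o82c _ (by decide +kernel)
noncomputable def s1_o83c : Pq := (Pq.cons (Pq.D 0 (Pq.cons (Pq.D 1 (Pq.cons (Pq.L [] 1 (Pf.C 1 257))
 (Pq.cons (Pq.L [] 1 (Pf.C 1 257))
 (Pq.cons (Pq.L [] 1 (Pf.C 1 257))
 (Pq.cons (Pq.L [] 1 (Pf.C 1 257))
 Pq.nil))))) (Pq.cons (Pq.D 1 (Pq.cons (Pq.L [] 1 (Pf.C 1 257))
 (Pq.cons (Pq.L [] 1 (Pf.C 1 257))
 (Pq.cons (Pq.L [] 1 (Pf.C 1 257))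
 (Pq.cons (Pq.L [] 1 (Pf.C 1 257))
 Pq.nil))))) (Pq.cons (Pq.D 1 (Pq.cons (Pq.L [] 1 (Pf.C 1 257))
 (Pq.cons (Pq.L [] 1 (Pf.C 1 257))
 (Pq.cons (Pq.L [] 1 (Pf.C 1 257))
 (Pq.cons (Pq.L [] 1 (Pf.C 1 257))
 Pq.nil))))) (Pq.cons (Pq.D 1 (Pq.cons (Pq.L [] 1 (Pf.C 1 257))
 (Pq.cons (Pq.L [] 1 (Pf.C 1 257))
 (Pq.cons (Pq.L [] 1 (Pf.C 1 257))
 (Pq.cons (Pq.L [] 1 (Pf.C 1 257))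
 Pq.nil))))) Pq.nil))))) (Pq.cons (Pq.D 0 (Pq.cons (Pq.D 1 (Pq.cons (Pq.L [] 1 (Pf.C 2 257))
 (Pq.cons (Pq.L [] 1 (Pf.C 2 257))
 Pq.nil))) (Pq.cons (Pq.D 1 (Pq.cons (Pq.L [] 1 (Pf.C 2 257))
 (Pq.cons (Pq.L [] 1 (Pf.C 2 257))
 Pq.nil))) Pq.nil))) Pq.nil))
theorem s1_o83 : AllRef s1_T s1_G81 (List.drop 1 (applyObl bS113_T 3 [134,136,138,143,149,151] [1,1,1,1,2,2] [])) :=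
  chkPq_sound s1_o83c _ (by decide +kernel)

end Pool.Agent.Lib.MP_849b2e_co
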