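import Pool.Agent.Lib.MP_849b2e_co.AllR
import Pool.Agent.Lib.MP_849b2e_co.Ts1
import Pool.Agent.Lib.MP_849b2e_co.Os1_0
import Pool.Agent.Lib.MP_849b2e_co.Os1_1
import Pool.Agent.Lib.MP_849b2e_co.LbD
import Pool.Agent.Lib.MP_849b2e_co.LbS113

set_option maxRecDepth 100000
set_option linter.all false
namespace Pool.Agent.Lib.MP_849b2e_co

theorem s1_n109  : Bd s1_T s1_G81 [134,136,138,143,149,151] :=
  r_apply lem_bS113 [1,1,1,1,2,2] [] (by decide +kernel) (allRef_split 1 (allRef_expand 0 (allRef_split 4 s1_o80 (allRef_split 1 s1_o81 s1_o82))) s1_o83)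
theorem s1_n108  : Bd s1_T s1_G86 [161,164,165,166,167] :=
  r_apply lem_bS113 [1,1,1,2,2] [(161,0xc00000000000000000000000000000000000000000),(164,0x800000000000000000000000000000000000000000),(165,0xc00000000000000000000000000000000000000000),(166,0x220000000000000000000000000000000000000000),(167,0x320000000000000000000000000000000000000000)] (by decide +kernel) s1_o79
theorem s1_n107  : Bd s1_T s1_G84 [161,162,163,164,165,166,167] :=
  r_kill [162,163] ⟨168,[],[],[]⟩ s1_G86 [161,164,165,166,167] (by decide +kernel) s1_o78 s1_n108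
theorem s1_n106  : Bd s1_T s1_G85 [162,163,164,165,166,167] :=
  r_apply lem_bD [1,1,1,1,2,2] [] (by decide +kernel) (allRef_split 1 (allRef_expand 0 (allRef_split 3 (allRef_split 1 (allRef_expand 1 (allRef_split 4 s1_o68 s1_o69)) (allRef_split 1 s1_o70 (allRef_expand 1 (allRef_split 4 s1_o71 s1_o72)))) (allRef_split 1 s1_o73 (allRef_split 1 (allRef_expand 1 (allRef_split 4 s1_o74 s1_o75)) s1_o76)))) s1_o77)
theorem s1_n105  : Bd s1_T s1_G83 [161,162,163,164,165,166,167] :=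
  r_kill [161] ⟨168,[],[],[]⟩ s1_G85 [162,163,164,165,166,167] (by decide +kernel) s1_o67 s1_n106
theorem s1_n104  : Bd s1_T s1_G82 [161,162,163,164,165,166,167] :=
  r_ex 161 0 ⟨168,[],[155],[]⟩ s1_G83 [161,162,163,164,165,166,167] ⟨168,[],[156],[]⟩ s1_G84 [161,162,163,164,165,166,167] (by decide +kernel) s1_n105 s1_n107
theorem s1_n103  : Bd s1_T s1_G81 [154,140,141,142,144,145,156] :=
  r_twin 0 [64,64,64,96,96,24,31] ⟨161,[],[],[]⟩ s1_G82 [161,162,163,164,165,166,167] (by decide +kernel) s1_o66 s1_n104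
theorem s1_n102  : Bd s1_T s1_G81 [154,140,141,142,144,145,156,134,136,138,143,149,151] :=
  r_split [154,140,141,142,144,145,156] [134,136,138,143,149,151] (by decide +kernel) s1_o65 s1_n103 s1_n109
theorem s1_n101  : Bd s1_T s1_G81 [153,155] :=
  r_apply lem_bS113 [1,2] [] (by decide +kernel) s1_o64
theorem s1_n100  : Bd s1_T s1_G81 [153,154,134,136,138,140,141,142,143,144,145,149,151,155,156] :=
  r_split [153,155] [154,140,141,142,144,145,156,134,136,138,143,149,151] (by decide +kernel) s1_o63 s1_n101 s1_n102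
theorem s1_n99  : Bd s1_T s1_G80 [153,154,134,157,136,158,138,159,140,141,142,143,144,145,149,160,151,155,156] :=
  r_kill [157,158,159,160] ⟨161,[],[],[]⟩ s1_G81 [153,154,134,136,138,140,141,142,143,144,145,149,151,155,156] (by decide +kernel) s1_o62 s1_n100
theorem s1_n98  : Bd s1_T s1_G79 [153,154,134,135,136,137,138,139,140,141,142,143,144,145,149,150,151,155,156] :=
  r_hit [135,137,139,150] s1_h98 ⟨157,[],[151,152,153,154],[]⟩ s1_G80 [153,154,134,157,136,158,138,159,140,141,142,143,144,145,149,160,151,155,156] (by decide +kernel) s1_o61 s1_n99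
theorem s1_n97  : Bd s1_T s1_G79 [153,154,134,135,136,137,138,139,140,141,142,143,144,145,149,150,151,152] :=
  r_act [58] [153,154,134,135,136,137,138,139,140,141,142,143,144,145,149,150,151,155,156] (by decide +kernel) s1_n98
theorem s1_n96  : Bd s1_T s1_G78 [153,154,134,135,136,137,138,139,140,141,142,143,144,145,149,150,151,152] :=
  r_def 152 0 [] [153] ⟨155,[59],[149,150],[]⟩ s1_G79 [153,154,134,135,136,137,138,139,140,141,142,143,144,145,149,150,151,152] (by decide +kernel) s1_n97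
theorem s1_n95  : Bd s1_T s1_G78 [133,134,135,136,137,138,139,140,141,142,143,144,145,149,150,151,152] :=
  r_act [57] [153,154,134,135,136,137,138,139,140,141,142,143,144,145,149,150,151,152] (by decide +kernel) s1_n96
theorem s1_n94  : Bd s1_T s1_G77 [133,134,135,136,137,138,139,140,141,142,143,144,145,149,150,151,152] :=
  r_def 133 0 [] [151] ⟨153,[58],[147,148],[]⟩ s1_G78 [133,134,135,136,137,138,139,140,141,142,143,144,145,149,150,151,152] (by decide +kernel) s1_n95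
theorem s1_n93  : Bd s1_T s1_G77 [133,134,135,136,137,138,139,140,141,142,143,144,145,147,148] :=
  r_act [55,56] [133,134,135,136,137,138,139,140,141,142,143,144,145,149,150,151,152] (by decide +kernel) s1_n94
theorem s1_n92  : Bd s1_T s1_G76 [133,134,135,136,137,138,139,140,141,142,143,144,145,147,148] :=
  r_def 148 0 [] [134] ⟨151,[57],[145,146],[]⟩ s1_G77 [133,134,135,136,137,138,139,140,141,142,143,144,145,147,148] (by decide +kernel) s1_n93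
theorem s1_n91  : Bd s1_T s1_G75 [133,134,135,136,137,138,139,140,141,142,143,144,145,147,148] :=
  r_def 147 0 [] [134,136,138,143] ⟨149,[56],[0,144],[]⟩ s1_G76 [133,134,135,136,137,138,139,140,141,142,143,144,145,147,148] (by decide +kernel) s1_n92
theorem s1_n90  : Bd s1_T s1_G75 [12,13,14,15,16,17,18,19,20,21,22] :=
  r_act [43,44,45,46,47,48,49,50,51,52,53,54] [133,134,135,136,137,138,139,140,141,142,143,144,145,147,148] (by decide +kernel) s1_n91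
theorem s1_n89  : Bd s1_T s1_G74 [12,13,14,15,16,17,18,19,20,21,22] :=
  r_psplit 22 [] (PT.br 0 PT.kid PT.ref) ⟨148,[55],[],[]⟩ s1_G75 [12,13,14,15,16,17,18,19,20,21,22] (by decide +kernel) s1_o60 s1_n90
theorem s1_n88  : Bd s1_T s1_G73 [12,13,14,15,16,17,18,19,20,21,22] :=
  r_psplit 146 [] (PT.br 0 PT.kid PT.ref) ⟨147,[54],[],[]⟩ s1_G74 [12,13,14,15,16,17,18,19,20,21,22] (by decide +kernel) s1_o59 s1_n89
theorem s1_n87  : Bd s1_T s1_G72 [12,13,14,15,16,17,18,19,20,21,22] :=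
  r_psplit 21 [0] PT.kid ⟨146,[53],[],[]⟩ s1_G73 [12,13,14,15,16,17,18,19,20,21,22] (by decide +kernel) s1_o58 s1_n88
theorem s1_n86  : Bd s1_T s1_G71 [12,13,14,15,16,17,18,19,20,21,22] :=
  r_psplit 20 [] (PT.br 0 PT.kid PT.ref) ⟨145,[52],[],[]⟩ s1_G72 [12,13,14,15,16,17,18,19,20,21,22] (by decide +kernel) s1_o57 s1_n87
theorem s1_n85  : Bd s1_T s1_G70 [12,13,14,15,16,17,18,19,20,21,22] :=
  r_psplit 19 [] (PT.br 0 PT.kid PT.kid) ⟨143,[51],[],[]⟩ s1_G71 [12,13,14,15,16,17,18,19,20,21,22] (by decide +kernel) s1_o56 s1_n86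
theorem s1_n84  : Bd s1_T s1_G69 [12,13,14,15,16,17,18,19,20,21,22] :=
  r_psplit 18 [] (PT.br 0 PT.ref PT.kid) ⟨142,[50],[],[]⟩ s1_G70 [12,13,14,15,16,17,18,19,20,21,22] (by decide +kernel) s1_o55 s1_n85
theorem s1_n83  : Bd s1_T s1_G68 [12,13,14,15,16,17,18,19,20,21,22] :=
  r_psplit 17 [] (PT.br 0 PT.ref PT.kid) ⟨141,[49],[],[]⟩ s1_G69 [12,13,14,15,16,17,18,19,20,21,22] (by decide +kernel) s1_o54 s1_n84
theorem s1_n82  : Bd s1_T s1_G67 [12,13,14,15,16,17,18,19,20,21,22] :=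
  r_psplit 16 [] (PT.br 0 PT.ref PT.kid) ⟨140,[48],[],[]⟩ s1_G68 [12,13,14,15,16,17,18,19,20,21,22] (by decide +kernel) s1_o53 s1_n83
theorem s1_n81  : Bd s1_T s1_G66 [12,13,14,15,16,17,18,19,20,21,22] :=
  r_psplit 15 [] (PT.br 0 PT.kid PT.kid) ⟨138,[47],[],[]⟩ s1_G67 [12,13,14,15,16,17,18,19,20,21,22] (by decide +kernel) s1_o52 s1_n82
theorem s1_n80  : Bd s1_T s1_G65 [12,13,14,15,16,17,18,19,20,21,22] :=
  r_psplit 14 [] (PT.br 0 PT.kid PT.kid) ⟨136,[46],[],[]⟩ s1_G66 [12,13,14,15,16,17,18,19,20,21,22] (by decide +kernel) s1_o51 s1_n81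
theorem s1_n79  : Bd s1_T s1_G64 [12,13,14,15,16,17,18,19,20,21,22] :=
  r_psplit 13 [] (PT.br 0 PT.kid PT.kid) ⟨134,[45],[],[]⟩ s1_G65 [12,13,14,15,16,17,18,19,20,21,22] (by decide +kernel) s1_o50 s1_n80
theorem s1_n78  : Bd s1_T s1_G2 [12,13,14,15,16,17,18,19,20,21,22] :=
  r_psplit 12 [] (PT.br 0 PT.kid PT.ref) ⟨133,[44],[],[]⟩ s1_G64 [12,13,14,15,16,17,18,19,20,21,22] (by decide +kernel) s1_o49 s1_n79
theorem s1_n77  : Bd s1_T s1_G63 [75,77,79,81,82,84] :=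
  r_apply lem_bD [1,1,1,1,2,2] [] (by decide +kernel) (allRef_split 1 (allRef_expand 0 (allRef_split 3 (allRef_split 1 (allRef_expand 1 (allRef_split 4 s1_o39 s1_o40)) (allRef_split 1 s1_o41 (allRef_expand 1 (allRef_split 4 s1_o42 s1_o43)))) (allRef_split 1 s1_o44 (allRef_split 1 (allRef_expand 1 (allRef_split 4 s1_o45 s1_o46)) s1_o47)))) s1_o48)
theorem s1_n76  : Bd s1_T s1_G62 [129,75,130,77,131,79,132,81,82,84] :=
  r_kill [129,130,131,132] ⟨133,[],[],[]⟩ s1_G63 [75,77,79,81,82,84] (by decide +kernel) s1_o38 s1_n77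
theorem s1_n75  : Bd s1_T s1_G61 [74,75,76,77,78,79,80,81,82,84] :=
  r_hit [74,76,78,80] s1_h75 ⟨129,[],[140,141,142,143],[]⟩ s1_G62 [129,75,130,77,131,79,132,81,82,84] (by decide +kernel) s1_o37 s1_n76
theorem s1_n74  : Bd s1_T s1_G61 [119,75,121,77,123,79,125,81,115,127,117] :=
  r_act [] [74,75,76,77,78,79,80,81,82,84] (by decide +kernel) s1_n75
theorem s1_n73  : Bd s1_T s1_G60 [119,75,121,77,123,79,125,81,115,127,128,117] :=
  r_kill [128] ⟨129,[],[],[]⟩ s1_G61 [119,75,121,77,123,79,125,81,115,127,117] (by decide +kernel) s1_o36 s1_n74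
theorem s1_n72  : Bd s1_T s1_G60 [119,75,121,77,123,79,125,81,115,116,117] :=
  r_act [42] [119,75,121,77,123,79,125,81,115,127,128,117] (by decide +kernel) s1_n73
theorem s1_n71  : Bd s1_T s1_G59 [119,75,121,77,123,79,125,81,115,116,117] :=
  r_def 116 0 [] [123] ⟨127,[43],[0,139],[]⟩ s1_G60 [119,75,121,77,123,79,125,81,115,116,117] (by decide +kernel) s1_n72
theorem s1_n70  : Bd s1_T s1_G58 [119,120,75,121,122,77,123,124,79,125,126,81,115,116,117] :=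
  r_kill [120,122,124,126] ⟨127,[],[],[]⟩ s1_G59 [119,75,121,77,123,79,125,81,115,116,117] (by decide +kernel) s1_o35 s1_n71
theorem s1_n69  : Bd s1_T s1_G58 [74,75,76,77,78,79,80,81,115,116,117] :=
  r_act [38,39,40,41] [119,120,75,121,122,77,123,124,79,125,126,81,115,116,117] (by decide +kernel) s1_n70
theorem s1_n68  : Bd s1_T s1_G57 [74,75,76,77,78,79,80,81,115,116,117] :=
  r_def 80 0 [115,117] [] ⟨125,[42],[0,0,138],[]⟩ s1_G58 [74,75,76,77,78,79,80,81,115,116,117] (by decide +kernel) s1_n69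
theorem s1_n67  : Bd s1_T s1_G56 [74,75,76,77,78,79,80,81,115,116,117] :=
  r_def 78 0 [117] [] ⟨123,[41],[0,0,137],[]⟩ s1_G57 [74,75,76,77,78,79,80,81,115,116,117] (by decide +kernel) s1_n68
theorem s1_n66  : Bd s1_T s1_G55 [74,75,76,77,78,79,80,81,115,116,117] :=
  r_def 76 0 [117] [] ⟨121,[40],[0,0,136],[]⟩ s1_G56 [74,75,76,77,78,79,80,81,115,116,117] (by decide +kernel) s1_n67
theorem s1_n65  : Bd s1_T s1_G54 [74,75,76,77,78,79,80,81,115,116,117] :=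
  r_def 74 0 [117] [] ⟨119,[39],[0,0,135],[]⟩ s1_G55 [74,75,76,77,78,79,80,81,115,116,117] (by decide +kernel) s1_n66
theorem s1_n64  : Bd s1_T s1_G53 [74,75,76,77,78,79,80,81,115,116,117,118] :=
  r_kill [118] ⟨119,[],[],[]⟩ s1_G54 [74,75,76,77,78,79,80,81,115,116,117] (by decide +kernel) s1_o34 s1_n65
theorem s1_n63  : Bd s1_T s1_G53 [74,75,76,77,78,79,80,81,82,84] :=
  r_act [36,37] [74,75,76,77,78,79,80,81,115,116,117,118] (by decide +kernel) s1_n64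
theorem s1_n62  : Bd s1_T s1_G52 [74,75,76,77,78,79,80,81,82,84] :=
  r_def 84 0 [] [75,77,79,81] ⟨117,[38],[133,134],[]⟩ s1_G53 [74,75,76,77,78,79,80,81,82,84] (by decide +kernel) s1_n63
theorem s1_n61  : Bd s1_T s1_G51 [74,75,76,77,78,79,80,81,82,84] :=
  r_def 82 0 [] [79,81] ⟨115,[37],[0,132],[]⟩ s1_G52 [74,75,76,77,78,79,80,81,82,84] (by decide +kernel) s1_n62
theorem s1_n60  : Bd s1_T s1_G51 [74,89,101,76,91,103,78,93,105,111,80,95,107,113,85,97,109,87,99] :=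
  r_act [] [74,75,76,77,78,79,80,81,82,84] (by decide +kernel) s1_n61
theorem s1_n59  : Bd s1_T s1_G50 [74,89,101,76,91,103,78,93,105,111,112,80,95,107,113,114,85,97,109,110,87,99] :=
  r_close false 0 [12,13,14,23,29,15,24,30,16,25,31,34,17,26,32,35,18,21,27,33,19,20,22,28] [74,89,101,76,91,103,78,93,105,111,112,80,95,107,113,114,85,97,109,110,87,99] [2,2,2,3,3,3,4,4,4,4,4,5,5,5,5,5,6,6,6,6,7,7] [0] [7] 0x377bff ⟨115,[],[],[]⟩ s1_G51 [74,89,101,76,91,103,78,93,105,111,80,95,107,113,85,97,109,87,99] (by decide +kernel) s1_o33 s1_n60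
theorem s1_n58  : Bd s1_T s1_G50 [74,89,101,76,91,103,78,93,105,106,80,95,107,108,85,97,109,110,87,99] :=
  r_act [34,35] [74,89,101,76,91,103,78,93,105,111,112,80,95,107,113,114,85,97,109,110,87,99] (by decide +kernel) s1_n59
theorem s1_n57  : Bd s1_T s1_G49 [74,89,101,76,91,103,78,93,105,106,80,95,107,108,85,97,109,110,87,99] :=
  r_def 108 0 [] [109] ⟨113,[36],[130,131],[]⟩ s1_G50 [74,89,101,76,91,103,78,93,105,106,80,95,107,108,85,97,109,110,87,99] (by decide +kernel) s1_n58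
theorem s1_n56  : Bd s1_T s1_G48 [74,89,101,76,91,103,78,93,105,106,80,95,107,108,85,97,109,110,87,99] :=
  r_def 106 0 [] [109] ⟨111,[35],[128,129],[]⟩ s1_G49 [74,89,101,76,91,103,78,93,105,106,80,95,107,108,85,97,109,110,87,99] (by decide +kernel) s1_n57
theorem s1_n55  : Bd s1_T s1_G48 [74,89,101,76,91,103,78,93,105,106,80,95,107,108,85,97,98,87,99] :=
  r_act [33] [74,89,101,76,91,103,78,93,105,106,80,95,107,108,85,97,109,110,87,99] (by decide +kernel) s1_n56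
theorem s1_n54  : Bd s1_T s1_G47 [74,89,101,76,91,103,78,93,105,106,80,95,107,108,85,97,98,87,99] :=
  r_def 98 0 [107] [] ⟨109,[34],[126,0,127],[]⟩ s1_G48 [74,89,101,76,91,103,78,93,105,106,80,95,107,108,85,97,98,87,99] (by decide +kernel) s1_n55
theorem s1_n53  : Bd s1_T s1_G46 [74,89,101,102,76,91,103,104,78,93,105,106,80,95,107,108,85,97,98,87,99] :=
  r_kill [102,104] ⟨109,[],[],[]⟩ s1_G47 [74,89,101,76,91,103,78,93,105,106,80,95,107,108,85,97,98,87,99] (by decide +kernel) s1_o32 s1_n54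
theorem s1_n52  : Bd s1_T s1_G46 [74,89,90,76,91,92,78,93,94,80,95,96,85,97,98,87,99] :=
  r_act [29,30,31,32] [74,89,101,102,76,91,103,104,78,93,105,106,80,95,107,108,85,97,98,87,99] (by decide +kernel) s1_n53
theorem s1_n51  : Bd s1_T s1_G45 [74,89,90,76,91,92,78,93,94,80,95,96,85,97,98,87,99] :=
  r_def 96 0 [] [97,99] ⟨107,[33],[124,125],[]⟩ s1_G46 [74,89,90,76,91,92,78,93,94,80,95,96,85,97,98,87,99] (by decide +kernel) s1_n52
theorem s1_n50  : Bd s1_T s1_G44 [74,89,90,76,91,92,78,93,94,80,95,96,85,97,98,87,99] :=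
  r_def 94 0 [] [97,99] ⟨105,[32],[122,123],[]⟩ s1_G45 [74,89,90,76,91,92,78,93,94,80,95,96,85,97,98,87,99] (by decide +kernel) s1_n51
theorem s1_n49  : Bd s1_T s1_G43 [74,89,90,76,91,92,78,93,94,80,95,96,85,97,98,87,99] :=
  r_def 92 0 [] [99] ⟨103,[31],[0,121],[]⟩ s1_G44 [74,89,90,76,91,92,78,93,94,80,95,96,85,97,98,87,99] (by decide +kernel) s1_n50
theorem s1_n48  : Bd s1_T s1_G42 [74,89,90,76,91,92,78,93,94,80,95,96,85,97,98,87,99] :=
  r_def 90 0 [] [99] ⟨101,[30],[0,120],[]⟩ s1_G43 [74,89,90,76,91,92,78,93,94,80,95,96,85,97,98,87,99] (by decide +kernel) s1_n49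
theorem s1_n47  : Bd s1_T s1_G41 [74,89,90,76,91,92,78,93,94,80,95,96,85,97,98,87,99,100] :=
  r_close true 0 [12,13,14,23,15,24,16,25,17,26,18,21,27,19,20,22,28] [74,89,90,76,91,92,78,93,94,80,95,96,85,97,98,87,99,100] [2,2,2,3,3,3,4,4,4,5,5,5,6,6,6,7,7,7] [0] [7] 0x1ffff ⟨101,[],[],[]⟩ s1_G42 [74,89,90,76,91,92,78,93,94,80,95,96,85,97,98,87,99] (by decide +kernel) (allRef_split 10 s1_o30 s1_o31) s1_n48
theorem s1_n46  : Bd s1_T s1_G41 [74,89,90,76,91,92,78,93,94,80,95,96,85,86,87,88] :=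
  r_act [27,28] [74,89,90,76,91,92,78,93,94,80,95,96,85,97,98,87,99,100] (by decide +kernel) s1_n47
theorem s1_n45  : Bd s1_T s1_G40 [74,89,90,76,91,92,78,93,94,80,95,96,85,86,87,88] :=
  r_def 88 0 [89,91,93,95] [] ⟨99,[29],[118,0,119],[]⟩ s1_G41 [74,89,90,76,91,92,78,93,94,80,95,96,85,86,87,88] (by decide +kernel) s1_n46
theorem s1_n44  : Bd s1_T s1_G39 [74,89,90,76,91,92,78,93,94,80,95,96,85,86,87,88] :=
  r_def 86 0 [95] [] ⟨97,[28],[116,0,117],[]⟩ s1_G40 [74,89,90,76,91,92,78,93,94,80,95,96,85,86,87,88] (by decide +kernel) s1_n45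
theorem s1_n43  : Bd s1_T s1_G39 [74,75,76,77,78,79,80,81,85,86,87,88] :=
  r_act [23,24,25,26] [74,89,90,76,91,92,78,93,94,80,95,96,85,86,87,88] (by decide +kernel) s1_n44
theorem s1_n42  : Bd s1_T s1_G38 [74,75,76,77,78,79,80,81,85,86,87,88] :=
  r_def 81 0 [] [85,87] ⟨95,[27],[114,115],[]⟩ s1_G39 [74,75,76,77,78,79,80,81,85,86,87,88] (by decide +kernel) s1_n43
theorem s1_n41  : Bd s1_T s1_G37 [74,75,76,77,78,79,80,81,85,86,87,88] :=
  r_def 79 0 [] [85,87] ⟨93,[26],[112,113],[]⟩ s1_G38 [74,75,76,77,78,79,80,81,85,86,87,88] (by decide +kernel) s1_n42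
theorem s1_n40  : Bd s1_T s1_G36 [74,75,76,77,78,79,80,81,85,86,87,88] :=
  r_def 77 0 [] [87] ⟨91,[25],[110,111],[]⟩ s1_G37 [74,75,76,77,78,79,80,81,85,86,87,88] (by decide +kernel) s1_n41
theorem s1_n39  : Bd s1_T s1_G35 [74,75,76,77,78,79,80,81,85,86,87,88] :=
  r_def 75 0 [] [87] ⟨89,[24],[108,109],[]⟩ s1_G36 [74,75,76,77,78,79,80,81,85,86,87,88] (by decide +kernel) s1_n40
theorem s1_n38  : Bd s1_T s1_G35 [74,75,76,77,78,79,80,81,82,84] :=
  r_act [21,22] [74,75,76,77,78,79,80,81,85,86,87,88] (by decide +kernel) s1_n39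
theorem s1_n37  : Bd s1_T s1_G34 [74,75,76,77,78,79,80,81,82,84] :=
  r_def 84 0 [74,76,78,80] [] ⟨87,[23],[106,0,107],[]⟩ s1_G35 [74,75,76,77,78,79,80,81,82,84] (by decide +kernel) s1_n38
theorem s1_n36  : Bd s1_T s1_G33 [74,75,76,77,78,79,80,81,82,84] :=
  r_def 82 0 [80] [] ⟨85,[22],[104,0,105],[]⟩ s1_G34 [74,75,76,77,78,79,80,81,82,84] (by decide +kernel) s1_n37
theorem s1_n35  : Bd s1_T s1_G32 [70,71,72,73,74,75,76,77,78,79,80,81,82,84] :=
  r_kill [70,71,72,73] ⟨85,[],[],[]⟩ s1_G33 [74,75,76,77,78,79,80,81,82,84] (by decide +kernel) s1_o29 s1_n36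
theorem s1_n34  : Bd s1_T s1_G32 [34,37,40,43,46,49,52,55] :=
  r_act [12,13,14,15,16,17,18,19,20] [70,71,72,73,74,75,76,77,78,79,80,81,82,84] (by decide +kernel) s1_n35
theorem s1_n33  : Bd s1_T s1_G31 [34,37,40,43,46,49,52,55] :=
  r_psplit 83 [] (PT.br 0 PT.kid PT.ref) ⟨84,[21],[],[]⟩ s1_G32 [34,37,40,43,46,49,52,55] (by decide +kernel) s1_o28 s1_n34
theorem s1_n32  : Bd s1_T s1_G30 [34,37,40,43,46,49,52,55] :=
  r_psplit 55 [0] PT.kid ⟨83,[20],[],[]⟩ s1_G31 [34,37,40,43,46,49,52,55] (by decide +kernel) s1_o27 s1_n33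
theorem s1_n31  : Bd s1_T s1_G29 [34,37,40,43,46,49,52,55] :=
  r_psplit 52 [] (PT.br 0 PT.kid PT.ref) ⟨82,[19],[],[]⟩ s1_G30 [34,37,40,43,46,49,52,55] (by decide +kernel) s1_o26 s1_n32
theorem s1_n30  : Bd s1_T s1_G28 [34,37,40,43,46,49,52,55] :=
  r_psplit 49 [] (PT.br 0 PT.kid PT.kid) ⟨80,[18],[],[]⟩ s1_G29 [34,37,40,43,46,49,52,55] (by decide +kernel) s1_o25 s1_n31
theorem s1_n29  : Bd s1_T s1_G27 [34,37,40,43,46,49,52,55] :=
  r_psplit 46 [] (PT.br 0 PT.kid PT.kid) ⟨78,[17],[],[]⟩ s1_G28 [34,37,40,43,46,49,52,55] (by decide +kernel) s1_o24 s1_n30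
theorem s1_n28  : Bd s1_T s1_G26 [34,37,40,43,46,49,52,55] :=
  r_psplit 43 [] (PT.br 0 PT.kid PT.kid) ⟨76,[16],[],[]⟩ s1_G27 [34,37,40,43,46,49,52,55] (by decide +kernel) s1_o23 s1_n29
theorem s1_n27  : Bd s1_T s1_G25 [34,37,40,43,46,49,52,55] :=
  r_psplit 40 [] (PT.br 0 PT.kid PT.kid) ⟨74,[15],[],[]⟩ s1_G26 [34,37,40,43,46,49,52,55] (by decide +kernel) s1_o22 s1_n28
theorem s1_n26  : Bd s1_T s1_G24 [34,37,40,43,46,49,52,55] :=
  r_psplit 37 [] (PT.br 0 PT.kid PT.kid) ⟨72,[14],[],[]⟩ s1_G25 [34,37,40,43,46,49,52,55] (by decide +kernel) s1_o21 s1_n27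
theorem s1_n25  : Bd s1_T s1_G8 [34,37,40,43,46,49,52,55] :=
  r_psplit 34 [] (PT.br 0 PT.kid PT.kid) ⟨70,[13],[],[]⟩ s1_G24 [34,37,40,43,46,49,52,55] (by decide +kernel) s1_o20 s1_n26
theorem s1_n24  : Bd s1_T s1_G23 [] :=
  r_empty (by decide +kernel) 
theorem s1_n23  : Bd s1_T s1_G22 [66,67,68,69] :=
  r_kill [66,67,68,69] ⟨70,[],[],[]⟩ s1_G23 [] (by decide +kernel) s1_o19 s1_n24
theorem s1_n22  : Bd s1_T s1_G22 [46,49,52] :=
  r_act [8,9,10,11] [66,67,68,69] (by decide +kernel) s1_n23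
theorem s1_n21  : Bd s1_T s1_G21 [46,49,52] :=
  r_psplit 52 [] (PT.br 0 PT.kid PT.kid) ⟨68,[12],[],[]⟩ s1_G22 [46,49,52] (by decide +kernel) s1_o18 s1_n22
theorem s1_n20  : Bd s1_T s1_G20 [46,49,52] :=
  r_psplit 49 [] (PT.br 0 PT.kid PT.ref) ⟨67,[11],[],[]⟩ s1_G21 [46,49,52] (by decide +kernel) s1_o17 s1_n21
theorem s1_n19  : Bd s1_T s1_G19 [46,49,52] :=
  r_psplit 65 [] (PT.br 0 PT.kid PT.ref) ⟨66,[10],[],[]⟩ s1_G20 [46,49,52] (by decide +kernel) s1_o16 s1_n20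
theorem s1_n18  : Bd s1_T s1_G11 [46,49,52] :=
  r_psplit 46 [0] PT.kid ⟨65,[9],[],[]⟩ s1_G19 [46,49,52] (by decide +kernel) s1_o15 s1_n19
theorem s1_n17  : Bd s1_T s1_G18 [] :=
  r_empty (by decide +kernel) 
theorem s1_n16  : Bd s1_T s1_G17 [62,63,64] :=
  r_kill [62,63,64] ⟨65,[],[],[]⟩ s1_G18 [] (by decide +kernel) s1_o14 s1_n17
theorem s1_n15  : Bd s1_T s1_G17 [49,52] :=
  r_act [5,6,7] [62,63,64] (by decide +kernel) s1_n16
theorem s1_n14  : Bd s1_T s1_G16 [49,52] :=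
  r_psplit 52 [] (PT.br 0 PT.kid PT.kid) ⟨63,[8],[],[]⟩ s1_G17 [49,52] (by decide +kernel) s1_o13 s1_n15
theorem s1_n13  : Bd s1_T s1_G15 [49,52] :=
  r_psplit 61 [] (PT.br 0 PT.kid PT.ref) ⟨62,[7],[],[]⟩ s1_G16 [49,52] (by decide +kernel) s1_o12 s1_n14
theorem s1_n12  : Bd s1_T s1_G13 [49,52] :=
  r_psplit 49 [0] PT.kid ⟨61,[6],[],[]⟩ s1_G15 [49,52] (by decide +kernel) s1_o11 s1_n13
theorem s1_n11  : Bd s1_T s1_G14 [] :=
  r_empty (by decide +kernel) 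
theorem s1_n10  : Bd s1_T s1_G12 [52] :=
  r_kill [52] ⟨58,[],[],[]⟩ s1_G14 [] (by decide +kernel) s1_o10 s1_n11
theorem s1_n9  : Bd s1_T s1_G10 [49,52] :=
  r_ext 49 2 [] [] [52] [] [] ⟨58,[],[],[]⟩ s1_G12 [52] ⟨60,[],[103],[]⟩ s1_G13 [49,52] (by decide +kernel) s1_o9 s1_n10 s1_n12
theorem s1_n8  : Bd s1_T s1_G9 [46,49,52] :=
  r_ext 46 2 [] [] [52] [] [] ⟨58,[],[],[]⟩ s1_G10 [49,52] ⟨59,[],[102],[]⟩ s1_G11 [46,49,52] (by decide +kernel) s1_o8 s1_n9 s1_n18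
theorem s1_n7  : Bd s1_T s1_G7 [34,37,40,43,46,49,52] :=
  r_kill [34,37,40,43] ⟨58,[],[],[]⟩ s1_G9 [46,49,52] (by decide +kernel) s1_o7 s1_n8
theorem s1_n6  : Bd s1_T s1_G6 [34,37,40,43,46,49,52,55] :=
  r_ext 55 2 [40,43,46,49] [] [34,37] [] [] ⟨58,[],[],[]⟩ s1_G7 [34,37,40,43,46,49,52] ⟨58,[],[100,101],[]⟩ s1_G8 [34,37,40,43,46,49,52,55] (by decide +kernel) s1_o6 s1_n7 s1_n25
theorem s1_n5  : Bd s1_T s1_G5 [26,27,28,29,30,31,32,33] :=
  r_block [64,64,128,192,192,192,11,3] [128,128,128,128,192,192,48,63] [128,128,128,128,192,192,48,63] ⟨34,[0,0,1,2,3,4,0,5],[0,0,0,0,0,0,0,0,0,77,78,0,0,79,80,0,0,81,82,0,0,83,84,0,0,0,0,0,85,0,0,86,87,88,89,90,91,92,93,94,0,0,95,96,97,98,0,99],[1]⟩ s1_G6 [34,37,40,43,46,49,52,55] (by decide +kernel) s1_o5 s1_n6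
theorem s1_n4  : Bd s1_T s1_G4 [12,13,16,17,18,19,20,22] :=
  r_twin 0 [128,128,128,128,192,192,48,63] ⟨26,[],[0,0,72,73,74,75,0,76],[]⟩ s1_G5 [26,27,28,29,30,31,32,33] (by decide +kernel) s1_o4 s1_n5
theorem s1_n3  : Bd s1_T s1_G3 [12,13,24,25,16,17,18,19,20,22] :=
  r_kill [24,25] ⟨26,[],[],[]⟩ s1_G4 [12,13,16,17,18,19,20,22] (by decide +kernel) s1_o3 s1_n4
theorem s1_n2  : Bd s1_T s1_G1 [12,13,14,15,16,17,18,19,20,22] :=
  r_hit [14,15] s1_h2 ⟨24,[],[70,71],[]⟩ s1_G3 [12,13,24,25,16,17,18,19,20,22] (by decide +kernel) s1_o2 s1_n3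
theorem s1_n1  : Bd s1_T s1_G0 [12,13,14,15,16,17,18,19,20,21,22] :=
  r_ext 21 2 [] [] [13,14,15,19] [] [] ⟨23,[],[],[]⟩ s1_G1 [12,13,14,15,16,17,18,19,20,22] ⟨23,[],[69],[]⟩ s1_G2 [12,13,14,15,16,17,18,19,20,21,22] (by decide +kernel) s1_o1 s1_n2 s1_n78
theorem s1_n0  : Bd s1_T (pureCtx 11 59) (pureAct 11) :=
  show Bd _ _ [1,2,3,4,5,6,7,8,9,10,11] from r_twin 0 [1024,1536,512,512,1024,1024,1280,1792,192,142,243] ⟨12,[],[0,60,61,62,63,64,65,66,0,67,68],[]⟩ s1_G0 [12,13,14,15,16,17,18,19,20,21,22] (by decide +kernel) s1_o0 s1_n1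
theorem lem_s1  : Lem s1_T 11 59 := ⟨by decide +kernel, s1_n0⟩

end Pool.Agent.Lib.MP_849b2e_co
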