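import Pool.Agent.Lib.MP_849b2e_co.Rules

set_option maxRecDepth 100000
set_option linter.all false
namespace Pool.Agent.Lib.MP_849b2e_co

noncomputable def bS_ty : Tr Ty := (Tr.br (Tr.br (Tr.br (Tr.br (Tr.br (Tr.br (Tr.leaf ⟨1,0,0,0,0⟩) (Tr.leaf ⟨0x10200002b,0x6fc0000c4,38,25,63⟩)) (Tr.leaf ⟨65813,1538,0,0,63⟩)) (Tr.br (Tr.leaf ⟨277,1538,0,0,0⟩) (Tr.leaf ⟨0x1110115,0x6e0602,42,21,63⟩)))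
 (Tr.br (Tr.br (Tr.br (Tr.leaf ⟨21,2,0,0,0⟩) (Tr.leaf ⟨0x1800000115,0xe000000602,0,63,63⟩)) (Tr.leaf ⟨0x110115,0x6e0602,42,21,63⟩)) (Tr.br (Tr.leaf ⟨6187,57540,0,63,63⟩) (Tr.leaf ⟨0x1200002b,0x7ec0000c4,40,23,63⟩)))
)
 (Tr.br (Tr.br (Tr.br (Tr.br (Tr.leaf ⟨5,2,0,0,0⟩) (Tr.leaf ⟨0x40200002b,0x3fc0000c4,46,17,63⟩)) (Tr.leaf ⟨0x50115,0x7a0602,40,23,63⟩)) (Tr.br (Tr.leaf ⟨1045,770,0,0,0⟩) (Tr.leaf ⟨0x600002b,0x7f80000c4,0,63,63⟩)))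
 (Tr.br (Tr.br (Tr.br (Tr.leaf ⟨75,164,0,0,0⟩) (Tr.leaf ⟨0x4800000115,0xb000000602,1,62,63⟩)) (Tr.leaf ⟨0x410115,0x3e0602,14,49,63⟩)) (Tr.br (Tr.leaf ⟨18475,45252,1,62,63⟩) (Tr.leaf ⟨0x4200002b,0x7bc0000c4,42,21,63⟩)))
)
)
 (Tr.br (Tr.br (Tr.br (Tr.br (Tr.br (Tr.leaf ⟨3,4,0,0,0⟩) (Tr.leaf ⟨0x20200002b,0x5fc0000c4,14,49,63⟩)) (Tr.leaf ⟨0x30115,0x7c0602,0,63,63⟩)) (Tr.br (Tr.leaf ⟨533,1282,0,0,0⟩) (Tr.leaf ⟨0x200002b,196,0,0,63⟩)))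
 (Tr.br (Tr.br (Tr.br (Tr.leaf ⟨43,196,0,0,0⟩) (Tr.leaf ⟨0x2800000115,0xd000000602,16,47,63⟩)) (Tr.leaf ⟨0x210115,0x5e0602,6,57,63⟩)) (Tr.br (Tr.leaf ⟨10283,53444,16,47,63⟩) (Tr.leaf ⟨0x2200002b,0x7dc0000c4,44,19,63⟩)))
)
 (Tr.br (Tr.br (Tr.br (Tr.br (Tr.leaf ⟨11,4,0,0,0⟩) (Tr.leaf ⟨0x800000115,1538,0,0,63⟩)) (Tr.leaf ⟨0x90115,0x760602,44,19,63⟩)) (Tr.br (Tr.leaf ⟨2091,196,0,0,63⟩) (Tr.leaf ⟨0xa00002b,0x7f40000c4,32,31,63⟩)))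
 (Tr.br (Tr.br (Tr.br (Tr.leaf ⟨139,100,0,0,0⟩) (Tr.leaf ⟨0x8800000115,0x7000000602,17,46,63⟩)) (Tr.leaf ⟨0x890115,0x760602,44,19,63⟩)) (Tr.br (Tr.leaf ⟨34859,28868,17,46,63⟩) (Tr.leaf ⟨0x8200002b,0x77c0000c4,6,57,63⟩)))
)
)
)

noncomputable def bS_ev : Tr Ev := (Tr.br (Tr.br (Tr.br (Tr.br (Tr.leaf ⟨3,[5,6],0⟩) (Tr.leaf ⟨8,[35],63⟩))
 (Tr.leaf ⟨8,[16],63⟩))
 (Tr.br (Tr.leaf ⟨5,[11],63⟩) (Tr.leaf ⟨5,[25],63⟩))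
)
 (Tr.br (Tr.br (Tr.br (Tr.leaf ⟨4,[8,9],0⟩) (Tr.leaf ⟨35,[36,37,38,39],0⟩))
 (Tr.leaf ⟨16,[17,18,19,20,21,22],0⟩))
 (Tr.br (Tr.leaf ⟨11,[12,13,14,15],0⟩) (Tr.leaf ⟨25,[26,27,28,29,30,31,32,33,34],0⟩))
)
)

noncomputable def bS_ax : Tr Ax := (Tr.br (Tr.br (Tr.br (Tr.br (Tr.leaf ⟨[1,1,1,1,1,1],[⟨0,1,true⟩,⟨0,2,true⟩,⟨0,3,false⟩,⟨0,4,true⟩,⟨0,5,false⟩,⟨1,2,false⟩,⟨1,3,false⟩,⟨1,4,false⟩,⟨1,5,false⟩,⟨2,3,true⟩,⟨2,4,false⟩,⟨2,5,false⟩,⟨3,4,false⟩,⟨3,5,false⟩,⟨4,5,true⟩],[],0⟩) (Tr.leaf ⟨[256,32,32,32,256,32],[⟨0,1,true⟩,⟨0,2,true⟩,⟨0,3,true⟩,⟨3,4,true⟩,⟨4,5,true⟩,⟨0,5,false⟩,⟨1,4,false⟩,⟨2,4,false⟩,⟨0,4,false⟩,⟨1,2,false⟩,⟨1,3,false⟩,⟨1,5,false⟩,⟨2,3,false⟩,⟨2,5,false⟩,⟨3,5,false⟩],[],0⟩))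
 (Tr.leaf ⟨[16,16],[⟨0,1,false⟩],[⟨3,[(0,true),(1,false)]⟩,⟨3,[(0,false),(1,true)]⟩],0⟩))
 (Tr.br (Tr.br (Tr.leaf ⟨[4,4],[⟨0,1,true⟩],[],0⟩) (Tr.leaf ⟨[0x1000000],[],[],0⟩))
 (Tr.leaf ⟨[512,288],[⟨0,1,true⟩],[],0⟩))
)
 (Tr.br (Tr.br (Tr.br (Tr.leaf ⟨[2,2],[⟨0,1,true⟩],[],0⟩) (Tr.leaf ⟨[0x800000],[],[],0⟩))
 (Tr.leaf ⟨[64,288],[⟨0,1,true⟩],[],0⟩))
 (Tr.br (Tr.leaf ⟨[8,8],[⟨0,1,false⟩],[⟨4,[(0,true),(1,false)]⟩,⟨4,[(0,false),(1,true)]⟩],0⟩) (Tr.leaf ⟨[32,256,256,256,32,256],[⟨0,1,true⟩,⟨0,2,true⟩,⟨0,3,true⟩,⟨3,4,true⟩,⟨4,5,true⟩,⟨0,5,false⟩,⟨1,4,false⟩,⟨2,4,false⟩,⟨0,4,false⟩,⟨1,2,false⟩,⟨1,3,false⟩,⟨1,5,false⟩,⟨2,3,false⟩,⟨2,5,false⟩,⟨3,5,false⟩],[],0⟩))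
)
)

noncomputable def bS_sc : Tr Sc := (Tr.leaf ⟨[5,8],[0,0]⟩)
noncomputable def bS_T : Tab := ⟨40,bS_ty,bS_ev,bS_ax,bS_sc⟩
def bS_S0 : St := ⟨0,0,0,0,0⟩
def bS_G0 : Ctx := ⟨5,0,31,0,0,bS_S0,none⟩
def bS_G1 : Ctx := ⟨11,3,127,1,0,bS_S0,none⟩
def bS_G2 : Ctx := ⟨11,3,255,1,0,bS_S0,none⟩
def bS_S1 : St := ⟨6,0x115000000002b000000011500000001150000000115000000002b,0x10000000000000000000000000000000280000000000000000000000000000001100000000000000000000000000000001000000000000000000000000000000010000000000000000000000000000000e,0xf00000000000000000000000000000007000000000000000000000000000000260000000000000000000000000000003a0000000000000000000000000000003c00000000000000000000000000000030,63⟩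
def bS_G3 : Ctx := ⟨11,3,127,1,0,bS_S1,none⟩
def bS_G4 : Ctx := ⟨11,3,511,1,0,bS_S0,none⟩
def bS_S2 : St := ⟨6,0x2b0000000115000000002b000000002b000000002b0000000115,0x10000000000000000000000000000000280000000000000000000000000000001100000000000000000000000000000001000000000000000000000000000000010000000000000000000000000000000e,0xf00000000000000000000000000000007000000000000000000000000000000260000000000000000000000000000003a0000000000000000000000000000003c00000000000000000000000000000030,63⟩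
def bS_G5 : Ctx := ⟨11,3,255,1,0,bS_S2,none⟩
def bS_G6 : Ctx := ⟨12,7,255,1,0,bS_S2,none⟩
def bS_G7 : Ctx := ⟨16,15,255,1,0,bS_S2,none⟩
def bS_G8 : Ctx := ⟨17,31,255,1,0,bS_S2,none⟩
def bS_G9 : Ctx := ⟨23,63,255,1,0,bS_S2,none⟩
def bS_G10 : Ctx := ⟨23,63,255,1,0x64e000,bS_S2,none⟩
def bS_G11 : Ctx := ⟨23,63,255,1,0x66f000,bS_S2,none⟩
def bS_G12 : Ctx := ⟨25,63,1791,1,0x66f000,bS_S2,none⟩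
def bS_G13 : Ctx := ⟨25,63,1791,1,0x1e6f000,bS_S2,none⟩
def bS_G14 : Ctx := ⟨26,67,127,1,0,bS_S1,none⟩
def bS_G15 : Ctx := ⟨35,195,127,1,0,bS_S1,none⟩
def bS_G16 : Ctx := ⟨36,451,127,1,0,bS_S1,none⟩
def bS_G17 : Ctx := ⟨40,963,127,1,0,bS_S1,none⟩
def bS_G18 : Ctx := ⟨40,963,127,1,0x1004000000,bS_S1,none⟩
def bS_h14 : List HP := [⟨[0],[],(HT.br true 0 0 (HT.leaf 2) (HT.leaf 2))⟩,⟨[1],[],(HT.br true 0 0 (HT.leaf 2) (HT.leaf 2))⟩]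

end Pool.Agent.Lib.MP_849b2e_co
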