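import Pool.Agent.Lib.MP_849b2e_co.Fast
import Pool.Agent.Lib.MP_849b2e_co.TbS
import Pool.Agent.Lib.MP_849b2e_co.TbS113
import Pool.Agent.Lib.MP_849b2e_co.Ts1

set_option maxRecDepth 100000
set_option linter.all false
namespace Pool.Agent.Lib.MP_849b2e_co

noncomputable def bS_o0c : Pq := (Pq.cons (Pq.L [] 2 (Pf.C 1 256))
 (Pq.cons (Pq.L [] 2 (Pf.C 2 256))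
 Pq.nil))
theorem bS_o0 : AllRef bS_T (pureCtx 2 3) (twinObl [1,2] 0 [2,1]) :=
  chkPq_sound bS_o0c _ (by decide +kernel)
noncomputable def bS_o1c : Pq := (Pq.cons (Pq.L [] 1 (Pf.C 1 128))
 (Pq.cons (Pq.L [] 1 (Pf.C 2 128))
 (Pq.cons (Pq.L [] 1 (Pf.C 1 128))
 (Pq.cons (Pq.L [] 1 (Pf.C 2 128))
 Pq.nil))))
theorem bS_o1 : AllRef bS_T bS_G0 (blockObl [3,4] [0,0] [2,1] [2,1]) :=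
  chkPq_sound bS_o1c _ (by decide +kernel)
noncomputable def bS_o2c : Pq := (Pq.cons (Pq.L [] 255 (Pf.B 5 3 (Pf.B 5 2 (Pf.B 5 1 (Pf.B 4 0 (Pf.B 3 2 (Pf.B 3 1 (Pf.B 2 1 (Pf.C 7 0x2840604100) (Pf.C 2 130)) (Pf.C 2 131)) (Pf.C 2 259)) (Pf.C 1 4)) (Pf.C 2 133)) (Pf.C 2 261)) (Pf.C 2 389)))
 Pq.nil)
theorem bS_o2 : AllRef bS_T bS_G2 [⟨[[5],[8],[8],[8],[5],[8]],[⟨0,1,true⟩,⟨0,2,true⟩,⟨0,3,true⟩,⟨3,4,true⟩,⟨4,5,true⟩,⟨0,5,false⟩,⟨1,4,false⟩,⟨2,4,false⟩],[],[]⟩] :=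
  chkPq_sound bS_o2c _ (by decide +kernel)
noncomputable def bS_o3c : Pq := (Pq.cons (Pq.L [] 255 (Pf.B 5 3 (Pf.B 5 2 (Pf.B 5 1 (Pf.B 4 0 (Pf.B 3 2 (Pf.B 3 1 (Pf.B 2 1 (Pf.C 8 0x2840604100) (Pf.C 1 130)) (Pf.C 1 131)) (Pf.C 1 259)) (Pf.C 2 4)) (Pf.C 1 133)) (Pf.C 1 261)) (Pf.C 1 389)))
 Pq.nil)
theorem bS_o3 : AllRef bS_T bS_G4 [⟨[[8],[5],[5],[5],[8],[5]],[⟨0,1,true⟩,⟨0,2,true⟩,⟨0,3,true⟩,⟨3,4,true⟩,⟨4,5,true⟩,⟨0,5,false⟩,⟨1,4,false⟩,⟨2,4,false⟩],[],[]⟩] :=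
  chkPq_sound bS_o3c _ (by decide +kernel)
noncomputable def bS_o4c : Pq := (Pq.cons (Pq.D 0 (Pq.cons (Pq.D 1 (Pq.cons (Pq.L [] 1 (Pf.C 1 128))
 (Pq.cons (Pq.D 2 (Pq.cons (Pq.L [] 2 (Pf.C 1 256))
 (Pq.cons (Pq.D 3 (Pq.cons (Pq.L [] 4 (Pf.C 1 384))
 (Pq.cons (Pq.D 4 (Pq.cons (Pq.D 5 (Pq.cons (Pq.L [] 16384 (Pf.C 1 644))
 (Pq.cons (Pq.L [] 32767 (Pf.C 7 0x2840608080))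
 Pq.nil))) (Pq.cons (Pq.L [] 4096 (Pf.C 2 515))
 Pq.nil))) Pq.nil))) Pq.nil))) Pq.nil))) (Pq.cons (Pq.D 1 (Pq.cons (Pq.D 2 (Pq.cons (Pq.D 3 (Pq.cons (Pq.D 4 (Pq.cons (Pq.L [] 4096 (Pf.C 1 515))
 (Pq.cons (Pq.D 5 (Pq.cons (Pq.L [] 32767 (Pf.C 8 0x2840608080))
 (Pq.cons (Pq.L [] 16384 (Pf.C 2 644))
 Pq.nil))) Pq.nil))) (Pq.cons (Pq.L [] 4 (Pf.C 2 384))
 Pq.nil))) (Pq.cons (Pq.L [] 2 (Pf.C 2 256))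
 Pq.nil))) (Pq.cons (Pq.L [] 1 (Pf.C 2 128))
 Pq.nil))) Pq.nil))) (Pq.cons (Pq.L [] 1 (Pf.C 1 128))
 (Pq.cons (Pq.L [] 1 (Pf.C 2 128))
 Pq.nil)))
theorem bS_o4 : AllRef bS_T bS_G4 (applyObl bS113_T 3 [5,8] [1,2] []) :=
  chkPq_sound bS_o4c _ (by decide +kernel)
noncomputable def bS_o5c : Pq := Pq.nil
theorem bS_o5 : AllRef bS_T bS_G5 (ptObl 5 PT.kid []) :=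
  chkPq_sound bS_o5c _ (by decide +kernel)
noncomputable def bS_o6c : Pq := (Pq.cons (Pq.L [5] 0 (Pf.C 1 646))
 (Pq.cons (Pq.L [5] 0 (Pf.C 1 646))
 (Pq.cons (Pq.L [3] 0 (Pf.C 1 390))
 (Pq.cons (Pq.L [2] 0 (Pf.C 1 262))
 (Pq.cons (Pq.L [1] 0 (Pf.C 1 134))
 (Pq.cons (Pq.L [5] 0 (Pf.C 1 646))
 (Pq.cons (Pq.L [5] 0 (Pf.C 1 646))
 (Pq.cons (Pq.L [3] 0 (Pf.C 1 390))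
 (Pq.cons (Pq.L [2] 0 (Pf.C 1 262))
 (Pq.cons (Pq.L [1] 0 (Pf.C 1 134))
 Pq.nil))))))))))
theorem bS_o6 : AllRef bS_T bS_G6 (ptObl 11 (PT.br 0 (PT.br 1 (PT.br 2 (PT.br 3 (PT.br 4 (PT.br 5 PT.kid PT.ref) (PT.br 5 PT.kid PT.ref)) PT.ref) PT.ref) PT.ref) (PT.br 1 (PT.br 2 (PT.br 3 (PT.br 4 (PT.br 5 PT.kid PT.ref) (PT.br 5 PT.kid PT.ref)) PT.ref) PT.ref) PT.ref)) []) :=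
  chkPq_sound bS_o6c _ (by decide +kernel)
noncomputable def bS_o7c : Pq := Pq.nil
theorem bS_o7 : AllRef bS_T bS_G7 (ptObl 8 PT.kid []) :=
  chkPq_sound bS_o7c _ (by decide +kernel)
noncomputable def bS_o8c : Pq := (Pq.cons (Pq.L [0,1,2,3,4,5] 0 (Pf.W 3 257 [] [0,3,4,5,6] (Pf.cons (Pf.B 7 6 (Pf.B 7 4 (Pf.B 7 0 (Pf.B 7 3 (Pf.C 0 0x2030e04100) (Pf.B 7 5 (Pf.C 0 0x1000a10383) (Pf.T 7 1 (Pf.cons (Pf.C 7 0x10e18205) (Pf.cons (Pf.C 6 135) Pf.nil))))) (Pf.C 2 7)) (Pf.C 2 519)) (Pf.C 2 775)) (Pf.cons (Pf.B 7 6 (Pf.B 7 4 (Pf.B 7 0 (Pf.B 7 3 (Pf.C 0 0x2030e08080) (Pf.B 7 5 (Pf.C 0 0x800a10383) (Pf.T 7 1 (Pf.cons (Pf.C 7 0x20e18205) (Pf.cons (Pf.C 6 263) Pf.nil))))) (Pf.C 2 7)) (Pf.C 2 519)) (Pf.C 2 775)) Pf.nil))))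
 (Pq.cons (Pq.L [4] 0 (Pf.C 2 518))
 (Pq.cons (Pq.L [0,1,3,4,5] 0 (Pf.C 0 0x2840200303))
 (Pq.cons (Pq.L [4] 0 (Pf.C 2 518))
 (Pq.cons (Pq.L [0,1,2,3,4] 0 (Pf.B 6 4 (Pf.C 0 0x2030c08080) (Pf.C 2 518)))
 (Pq.cons (Pq.L [0,1,3,4,5] 0 (Pf.C 0 0x2840200303))
 (Pq.cons (Pq.L [4] 0 (Pf.C 2 518))
 (Pq.cons (Pq.L [0,1,2,3,4] 0 (Pf.B 6 4 (Pf.C 0 0x2030c04100) (Pf.C 2 518)))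
 (Pq.cons (Pq.L [0,2,3,4,5] 0 (Pf.C 0 0x2840400303))
 (Pq.cons (Pq.L [4] 0 (Pf.C 2 518))
 (Pq.cons (Pq.L [0,1,2,3,4,5] 0 (Pf.W 3 257 [] [0,3,4,5,6] (Pf.cons (Pf.B 7 6 (Pf.B 7 4 (Pf.B 7 5 (Pf.C 0 0x2050e04106) (Pf.B 7 3 (Pf.C 0 0x1060610385) (Pf.B 7 0 (Pf.T 7 1 (Pf.cons (Pf.C 7 0x3020010383) (Pf.cons (Pf.C 6 135) Pf.nil))) (Pf.C 2 7)))) (Pf.C 2 519)) (Pf.C 2 775)) (Pf.cons (Pf.B 7 6 (Pf.B 7 4 (Pf.B 7 5 (Pf.C 0 0x2050e08086) (Pf.B 7 3 (Pf.C 0 0x860610385) (Pf.B 7 0 (Pf.T 7 1 (Pf.cons (Pf.C 7 0x3010010383) (Pf.cons (Pf.C 6 263) Pf.nil))) (Pf.C 2 7)))) (Pf.C 2 519)) (Pf.C 2 775)) Pf.nil))))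
 (Pq.cons (Pq.L [4] 0 (Pf.C 2 518))
 (Pq.cons (Pq.L [0,1,2,4,5] 0 (Pf.W 3 257 [] [0,4,5,6] (Pf.cons (Pf.B 7 6 (Pf.B 7 4 (Pf.B 7 5 (Pf.C 0 0x2050e04106) (Pf.B 7 0 (Pf.T 7 1 (Pf.cons (Pf.C 7 0x20c10385) (Pf.cons (Pf.C 6 135) Pf.nil))) (Pf.C 2 7))) (Pf.C 2 519)) (Pf.C 2 775)) (Pf.cons (Pf.B 7 6 (Pf.B 7 4 (Pf.B 7 5 (Pf.C 0 0x2050e08086) (Pf.B 7 0 (Pf.T 7 1 (Pf.cons (Pf.C 7 0x10c10385) (Pf.cons (Pf.C 6 263) Pf.nil))) (Pf.C 2 7))) (Pf.C 2 519)) (Pf.C 2 775)) Pf.nil))))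
 (Pq.cons (Pq.L [4] 0 (Pf.C 2 518))
 (Pq.cons (Pq.L [0] 0 (Pf.C 2 6))
 Pq.nil)))))))))))))))
theorem bS_o8 : AllRef bS_T bS_G8 (ptObl 16 (PT.br 0 (PT.br 1 (PT.br 2 (PT.br 3 (PT.br 4 (PT.br 5 PT.kid PT.ref) PT.ref) (PT.br 4 (PT.br 5 PT.ref PT.kid) PT.ref)) (PT.br 3 PT.ref (PT.br 4 (PT.br 5 PT.ref PT.kid) PT.ref))) (PT.br 2 (PT.br 3 PT.ref (PT.br 4 (PT.br 5 PT.ref PT.kid) PT.ref)) (PT.br 3 (PT.br 4 (PT.br 5 PT.kid PT.ref) PT.ref) (PT.br 4 (PT.br 5 PT.kid PT.ref) PT.ref)))) PT.ref) []) :=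
  chkPq_sound bS_o8c _ (by decide +kernel)
noncomputable def bS_o9c : Pq := (Pq.cons (Pq.L [0,1,2,3,4,5] 0 (Pf.W 3 257 [] [0,3,4,5,6] (Pf.cons (Pf.B 7 4 (Pf.B 7 0 (Pf.B 7 3 (Pf.C 0 0x2030e04100) (Pf.B 7 6 (Pf.C 0 0x1000c10383) (Pf.B 7 5 (Pf.C 0 0x1000a10383) (Pf.T 7 1 (Pf.cons (Pf.T 7 4 (Pf.cons (Pf.T 7 5 (Pf.cons (Pf.W 3 773 [] [0,1,3,4,7] (Pf.cons (Pf.B 8 7 (Pf.B 8 4 (Pf.B 8 0 (Pf.B 8 3 (Pf.C 0 0x31014304) (Pf.B 8 1 (Pf.C 0 0x3040200403) (Pf.T 8 1 (Pf.cons (Pf.C 7 0x2060e00401) (Pf.cons (Pf.C 6 136) Pf.nil))))) (Pf.C 2 8)) (Pf.C 2 520)) (Pf.C 2 904)) (Pf.cons (Pf.B 8 7 (Pf.B 8 4 (Pf.B 8 0 (Pf.B 8 3 (Pf.C 0 0x31018284) (Pf.B 8 1 (Pf.C 0 0x2840200403) (Pf.T 8 1 (Pf.cons (Pf.C 7 0x2050e00401) (Pf.cons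 (Pf.C 6 136) Pf.nil))))) (Pf.C 2 8)) (Pf.C 2 520)) (Pf.C 2 904)) Pf.nil))) Pf.nil)) Pf.nil)) (Pf.cons (Pf.C 6 135) Pf.nil)))))) (Pf.C 2 7)) (Pf.C 2 519)) (Pf.cons (Pf.B 7 4 (Pf.B 7 0 (Pf.B 7 3 (Pf.C 0 0x2030e08080) (Pf.B 7 6 (Pf.C 0 0x800c10383) (Pf.B 7 5 (Pf.C 0 0x800a10383) (Pf.T 7 1 (Pf.cons (Pf.T 7 4 (Pf.cons (Pf.T 7 5 (Pf.cons (Pf.W 3 773 [] [0,1,2,3,4,7] (Pf.cons (Pf.B 8 7 (Pf.B 8 4 (Pf.B 8 0 (Pf.B 8 3 (Pf.C 0 0x31014304) (Pf.B 8 2 (Pf.C 0 0x3040400403) (Pf.B 8 1 (Pf.C 0 0x3070200402) (Pf.T 8 1 (Pf.cons (Pf.C 7 0x2060e00402) (Pf.cons (Pf.C 6 136) Pf.nil)))))) (Pf.C 2 8)) (Pf.C 2 520)) (Pf.C 2 904)) (Pf.cons (Pf.B 8 7 (Pf.B 8 4 (Pf.B 8 0 (Pf.B 8 3 (Pf.C 0 0x31018284) (Pf.B 8 2 (Pf.C 0 0x2840400403)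 (Pf.B 8 1 (Pf.C 0 0x2870200402) (Pf.T 8 1 (Pf.cons (Pf.C 7 0x2050e00402) (Pf.cons (Pf.C 6 136) Pf.nil)))))) (Pf.C 2 8)) (Pf.C 2 520)) (Pf.C 2 904)) Pf.nil))) Pf.nil)) Pf.nil)) (Pf.cons (Pf.C 6 263) Pf.nil)))))) (Pf.C 2 7)) (Pf.C 2 519)) Pf.nil))))
 (Pq.cons (Pq.L [0,1,2,3,4,5] 0 (Pf.W 3 257 [] [0,3,4,5,6] (Pf.cons (Pf.B 7 4 (Pf.B 7 0 (Pf.B 7 3 (Pf.C 0 0x2030e04100) (Pf.B 7 5 (Pf.C 0 0x1000a10383) (Pf.B 7 6 (Pf.T 7 1 (Pf.cons (Pf.T 7 4 (Pf.cons (Pf.T 7 5 (Pf.cons (Pf.W 3 770 [] [0,1,3,4,5,7] (Pf.cons (Pf.B 8 7 (Pf.B 8 4 (Pf.B 8 0 (Pf.B 8 3 (Pf.C 0 0x2031008300) (Pf.B 8 5 (Pf.C 0 0x3000a10403) (Pf.B 8 1 (Pf.C 0 0x870420203) (Pf.T 8 1 (Pf.cons (Pf.C 7 0x2101c205) (Pf.cons (Pf.C 6 136) Pf.nil)))))) (Pf.C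 2 8)) (Pf.C 2 520)) (Pf.C 2 904)) (Pf.cons (Pf.B 8 7 (Pf.B 8 4 (Pf.B 8 0 (Pf.B 8 3 (Pf.C 0 0x2031018100) (Pf.B 8 5 (Pf.C 0 0x1000a10403) (Pf.B 8 1 (Pf.C 0 0x870c20203) (Pf.T 8 1 (Pf.cons (Pf.C 7 0x6101c205) (Pf.cons (Pf.C 6 136) Pf.nil)))))) (Pf.C 2 8)) (Pf.C 2 520)) (Pf.C 2 904)) Pf.nil))) Pf.nil)) Pf.nil)) (Pf.cons (Pf.C 6 135) Pf.nil))) (Pf.T 7 1 (Pf.cons (Pf.T 7 4 (Pf.cons (Pf.T 7 5 (Pf.cons (Pf.W 3 769 [] [0,3,4,5,7] (Pf.cons (Pf.B 8 7 (Pf.B 8 4 (Pf.B 8 5 (Pf.C 0 0x2051004307) (Pf.B 8 0 (Pf.T 8 1 (Pf.cons (Pf.C 7 0x60e10405) (Pf.cons (Pf.C 6 136) Pf.nil))) (Pf.C 2 8))) (Pf.C 2 520)) (Pf.C 2 904)) (Pf.cons (Pf.B 8 7 (Pf.B 8 4 (Pf.B 8 5 (Pf.C 0 0x2051018087) (Pf.B 8 3 (Pf.C 0 0x2031018087) (Pf.B 8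 0 (Pf.T 8 1 (Pf.cons (Pf.C 7 0x10e10405) (Pf.cons (Pf.C 6 392) Pf.nil))) (Pf.C 2 8)))) (Pf.C 2 520)) (Pf.C 2 904)) Pf.nil))) Pf.nil)) Pf.nil)) (Pf.cons (Pf.C 6 135) Pf.nil)))))) (Pf.C 2 7)) (Pf.C 2 519)) (Pf.cons (Pf.B 7 4 (Pf.B 7 0 (Pf.B 7 3 (Pf.C 0 0x2030e08080) (Pf.B 7 5 (Pf.C 0 0x800a10383) (Pf.B 7 6 (Pf.T 7 1 (Pf.cons (Pf.T 7 4 (Pf.cons (Pf.T 7 5 (Pf.cons (Pf.W 3 769 [] [0,2,3,4,5,7] (Pf.cons (Pf.B 8 7 (Pf.B 8 4 (Pf.B 8 0 (Pf.B 8 3 (Pf.C 0 0x2031004300) (Pf.B 8 5 (Pf.C 0 0x3000a10403) (Pf.T 8 1 (Pf.cons (Pf.C 7 0x1101c205) (Pf.cons (Pf.C 6 136) Pf.nil))))) (Pf.C 2 8)) (Pf.C 2 520)) (Pf.C 2 904)) (Pf.cons (Pf.B 8 7 (Pf.B 8 4 (Pf.B 8 0 (Pf.B 8 3 (Pf.C 0 0x2031018080) (Pf.B 8 5 (Pf.C 0 0x800a10403)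 (Pf.B 8 2 (Pf.C 0 0x1070c20203) (Pf.T 8 1 (Pf.cons (Pf.C 7 0x6101c205) (Pf.cons (Pf.C 6 264) Pf.nil)))))) (Pf.C 2 8)) (Pf.C 2 520)) (Pf.C 2 904)) Pf.nil))) Pf.nil)) Pf.nil)) (Pf.cons (Pf.C 6 263) Pf.nil))) (Pf.T 7 1 (Pf.cons (Pf.T 7 4 (Pf.cons (Pf.T 7 5 (Pf.cons (Pf.W 3 770 [] [0,3,4,5,7] (Pf.cons (Pf.B 8 7 (Pf.B 8 4 (Pf.B 8 5 (Pf.C 0 0x2051008307) (Pf.B 8 0 (Pf.T 8 1 (Pf.cons (Pf.C 7 0x60e10405) (Pf.cons (Pf.C 6 264) Pf.nil))) (Pf.C 2 8))) (Pf.C 2 520)) (Pf.C 2 904)) (Pf.cons (Pf.B 8 7 (Pf.B 8 4 (Pf.B 8 5 (Pf.C 0 0x2051018107) (Pf.B 8 3 (Pf.C 0 0x2031018107) (Pf.B 8 0 (Pf.T 8 1 (Pf.cons (Pf.C 7 0x20e10405) (Pf.cons (Pf.C 6 392) Pf.nil))) (Pf.C 2 8)))) (Pf.C 2 520)) (Pf.C 2 904)) Pf.nil))) Pf.nil)) Pf.nil))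 (Pf.cons (Pf.C 6 263) Pf.nil)))))) (Pf.C 2 7)) (Pf.C 2 519)) Pf.nil))))
 (Pq.cons (Pq.L [0,1,2,3,4,5] 0 (Pf.W 3 257 [] [0,3,4,5,6] (Pf.cons (Pf.B 7 4 (Pf.B 7 0 (Pf.B 7 6 (Pf.C 0 0x2060e04100) (Pf.B 7 5 (Pf.C 0 0x1000a10386) (Pf.B 7 3 (Pf.C 0 0x2030e04100) (Pf.T 7 1 (Pf.cons (Pf.T 7 4 (Pf.cons (Pf.T 7 5 (Pf.cons (Pf.W 3 771 [] [0,1,2,4,5,7] (Pf.cons (Pf.B 8 7 (Pf.B 8 4 (Pf.B 8 0 (Pf.T 8 1 (Pf.cons (Pf.B 8 2 (Pf.B 8 5 (Pf.C 0 0x1000a10403) (Pf.B 8 1 (Pf.C 7 0x10e10405) (Pf.C 0 0x2061004100))) (Pf.C 7 0x402001c206)) (Pf.cons (Pf.C 6 392) Pf.nil))) (Pf.C 2 8)) (Pf.C 2 520)) (Pf.C 2 904)) (Pf.cons (Pf.B 8 7 (Pf.B 8 4 (Pf.B 8 0 (Pf.T 8 1 (Pf.cons (Pf.B 8 2 (Pf.B 8 5 (Pf.C 0 0x1000a10406) (Pf.B 8 1 (Pf.C 7 0x10e10405)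 (Pf.C 0 0x2031004100))) (Pf.C 7 0x402001c203)) (Pf.cons (Pf.C 6 776) Pf.nil))) (Pf.C 2 8)) (Pf.C 2 520)) (Pf.C 2 904)) Pf.nil))) Pf.nil)) Pf.nil)) (Pf.cons (Pf.C 6 135) Pf.nil)))))) (Pf.C 2 7)) (Pf.C 2 519)) (Pf.cons (Pf.B 7 4 (Pf.B 7 0 (Pf.B 7 6 (Pf.C 0 0x2060e08080) (Pf.B 7 5 (Pf.C 0 0x800a10386) (Pf.B 7 3 (Pf.C 0 0x2030e08080) (Pf.T 7 1 (Pf.cons (Pf.T 7 4 (Pf.cons (Pf.T 7 5 (Pf.cons (Pf.W 3 771 [] [0,1,2,4,5,7] (Pf.cons (Pf.B 8 7 (Pf.B 8 4 (Pf.B 8 0 (Pf.T 8 1 (Pf.cons (Pf.B 8 1 (Pf.B 8 5 (Pf.C 0 0x800a10403) (Pf.B 8 2 (Pf.C 7 0x20e10405) (Pf.C 0 0x2061008080))) (Pf.C 7 0x401001c206)) (Pf.cons (Pf.C 6 392) Pf.nil))) (Pf.C 2 8)) (Pf.C 2 520)) (Pf.C 2 904)) (Pf.cons (Pf.B 8 7 (Pf.B 8 4 (Pf.B 8 0 (Pf.T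 8 1 (Pf.cons (Pf.B 8 1 (Pf.B 8 5 (Pf.C 0 0x800a10406) (Pf.B 8 2 (Pf.C 7 0x20e10405) (Pf.C 0 0x2031008080))) (Pf.C 7 0x401001c203)) (Pf.cons (Pf.C 6 776) Pf.nil))) (Pf.C 2 8)) (Pf.C 2 520)) (Pf.C 2 904)) Pf.nil))) Pf.nil)) Pf.nil)) (Pf.cons (Pf.C 6 263) Pf.nil)))))) (Pf.C 2 7)) (Pf.C 2 519)) Pf.nil))))
 (Pq.cons (Pq.L [0,1,2,3,4,5] 0 (Pf.W 3 257 [] [0,3,4,5,6] (Pf.cons (Pf.B 7 6 (Pf.B 7 4 (Pf.B 7 0 (Pf.B 7 3 (Pf.C 0 0x2030e04100) (Pf.B 7 5 (Pf.C 0 0x1000a10383) (Pf.T 7 1 (Pf.cons (Pf.C 7 0x10e18205) (Pf.cons (Pf.C 6 135) Pf.nil))))) (Pf.C 2 7)) (Pf.C 2 519)) (Pf.C 2 775)) (Pf.cons (Pf.B 7 6 (Pf.B 7 4 (Pf.B 7 0 (Pf.B 7 3 (Pf.C 0 0x2030e08080) (Pf.B 7 5 (Pf.C 0 0x800a10383) (Pf.T 7 1 (Pf.cons (Pf.C 7 0x20e18205)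 (Pf.cons (Pf.C 6 263) Pf.nil))))) (Pf.C 2 7)) (Pf.C 2 519)) (Pf.C 2 775)) Pf.nil))))
 (Pq.cons (Pq.L [0,1,2,3,4] 0 (Pf.W 3 257 [] [0,3,4,6] (Pf.cons (Pf.B 7 6 (Pf.B 7 4 (Pf.B 7 0 (Pf.B 7 3 (Pf.C 0 0x2030e04100) (Pf.T 7 1 (Pf.cons (Pf.C 7 0x3020010383) (Pf.cons (Pf.C 6 135) Pf.nil)))) (Pf.C 2 7)) (Pf.C 2 519)) (Pf.C 2 775)) (Pf.cons (Pf.B 7 6 (Pf.B 7 4 (Pf.B 7 0 (Pf.B 7 3 (Pf.C 0 0x2030e08080) (Pf.T 7 1 (Pf.cons (Pf.C 7 0x3010010383) (Pf.cons (Pf.C 6 263) Pf.nil)))) (Pf.C 2 7)) (Pf.C 2 519)) (Pf.C 2 775)) Pf.nil))))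
 (Pq.cons (Pq.L [0,1,2,3,4,5] 0 (Pf.W 3 257 [] [0,3,4,5,6] (Pf.cons (Pf.B 7 6 (Pf.B 7 4 (Pf.B 7 3 (Pf.C 0 0x2030e04106) (Pf.B 7 5 (Pf.C 0 0x1060a10383) (Pf.B 7 0 (Pf.T 7 1 (Pf.cons (Pf.C 7 0x2050e18001) (Pf.cons (Pf.C 6 135) Pf.nil))) (Pf.C 2 7)))) (Pf.C 2 519)) (Pf.C 2 775)) (Pf.cons (Pf.B 7 6 (Pf.B 7 4 (Pf.B 7 3 (Pf.C 0 0x2030e08086) (Pf.B 7 5 (Pf.C 0 0x860a10383) (Pf.B 7 0 (Pf.T 7 1 (Pf.cons (Pf.C 7 0x2050e18002) (Pf.cons (Pf.C 6 263) Pf.nil))) (Pf.C 2 7)))) (Pf.C 2 519)) (Pf.C 2 775)) Pf.nil))))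
 Pq.nil))))))
theorem bS_o9 : AllRef bS_T bS_G9 (List.map pat1 [13,14,15,18,21,22]) :=
  chkPq_sound bS_o9c _ (by decide +kernel)
noncomputable def bS_o10c : Pq := (Pq.cons (Pq.L [] 0 (Pf.X 0 6))
 (Pq.cons (Pq.L [] 0 (Pf.X 1 6))
 (Pq.cons (Pq.L [] 0 (Pf.X 2 6))
 (Pq.cons (Pq.L [] 0 (Pf.X 3 6))
 (Pq.cons (Pq.L [] 0 (Pf.X 4 6))
 (Pq.cons (Pq.L [] 0 (Pf.X 5 6))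
 (Pq.cons (Pq.L [0,2,4,5] 1 (Pf.C 0 0x2050008386))
 (Pq.cons (Pq.L [0,1,4,5] 1 (Pf.C 0 0x2050004386))
 (Pq.cons (Pq.L [] 0 (Pf.X 0 6))
 (Pq.cons (Pq.L [] 0 (Pf.X 1 6))
 (Pq.cons (Pq.L [] 0 (Pf.X 2 6))
 (Pq.cons (Pq.L [] 0 (Pf.X 3 6))
 (Pq.cons (Pq.L [] 0 (Pf.X 4 6))
 (Pq.cons (Pq.L [] 0 (Pf.X 5 6))
 (Pq.cons (Pq.L [] 1 (Pf.C 2 902))
 (Pq.cons (Pq.L [] 1 (Pf.C 2 902))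
 Pq.nil))))))))))))))))
theorem bS_o10 : AllRef bS_T bS_G10 (closeObl (bS_T.sc.get 0) false [12,17,19,20] [0,1,1,1] [0,1,2,3,4,5] [1,0,0,0,1,0] 12) :=
  chkPq_sound bS_o10c _ (by decide +kernel)
noncomputable def bS_o11c : Pq := (Pq.cons (Pq.L [0,1,2,4,5] 1 (Pf.W 4 902 [] [0,1,2,4,5] (Pf.cons (Pf.B 8 5 (Pf.B 8 2 (Pf.B 8 1 (Pf.B 8 0 (Pf.C 0 0x801018382) (Pf.B 8 4 (Pf.T 8 0 (Pf.cons (Pf.C 7 0x80c1c205) (Pf.cons (Pf.C 5 8) Pf.nil))) (Pf.C 0 0x3820820080))) (Pf.C 1 136)) (Pf.C 1 264)) (Pf.C 1 648)) (Pf.cons (Pf.B 8 5 (Pf.B 8 2 (Pf.B 8 1 (Pf.B 8 0 (Pf.C 0 0x80101c302) (Pf.B 8 4 (Pf.T 8 0 (Pf.cons (Pf.C 7 0x80e18205) (Pf.cons (Pf.C 5 8) Pf.nil))) (Pf.C 0 0x3020820080))) (Pf.C 1 136)) (Pf.C 1 264)) (Pf.C 1 648))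 Pf.nil))))
 (Pq.cons (Pq.L [] 1 (Pf.C 2 902))
 (Pq.cons (Pq.L [0,1,2,4,5] 1 (Pf.W 4 902 [] [0,1,2,4,5] (Pf.cons (Pf.B 8 5 (Pf.B 8 2 (Pf.B 8 1 (Pf.B 8 0 (Pf.C 0 0x1001018381) (Pf.B 8 4 (Pf.T 8 0 (Pf.cons (Pf.C 7 0x80c1c205) (Pf.cons (Pf.C 5 8) Pf.nil))) (Pf.C 0 0x3810820100))) (Pf.C 1 136)) (Pf.C 1 264)) (Pf.C 1 648)) (Pf.cons (Pf.B 8 5 (Pf.B 8 2 (Pf.B 8 1 (Pf.B 8 0 (Pf.C 0 0x100101c301) (Pf.B 8 4 (Pf.T 8 0 (Pf.cons (Pf.C 7 0x80e18205) (Pf.cons (Pf.C 5 8) Pf.nil))) (Pf.C 0 0x3010820100))) (Pf.C 1 136)) (Pf.C 1 264)) (Pf.C 1 648)) Pf.nil))))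
 (Pq.cons (Pq.L [] 1 (Pf.C 2 902))
 Pq.nil))))
theorem bS_o11 : AllRef bS_T bS_G11 (hitObl [19,20] bS_h14) :=
  chkPq_sound bS_o11c _ (by decide +kernel)
noncomputable def bS_o12c : Pq := (Pq.cons (Pq.L [] 0 (Pf.C 9 6))
 (Pq.cons (Pq.L [] 0 (Pf.C 10 6))
 Pq.nil))
theorem bS_o12 : AllRef bS_T bS_G12 (List.map pat1 [23,24]) :=
  chkPq_sound bS_o12c _ (by decide +kernel)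
noncomputable def bS_o13c : Pq := Pq.nil
theorem bS_o13 : AllRef bS_T bS_G3 (ptObl 5 PT.kid []) :=
  chkPq_sound bS_o13c _ (by decide +kernel)
noncomputable def bS_o14c : Pq := (Pq.cons (Pq.L [4] 0 (Pf.C 1 518))
 (Pq.cons (Pq.L [0,1,3,4,5] 0 (Pf.C 0 0x2840200303))
 (Pq.cons (Pq.L [4] 0 (Pf.C 1 518))
 (Pq.cons (Pq.L [0,1,2,3,4] 0 (Pf.B 6 4 (Pf.C 0 0x2030c08080) (Pf.C 1 518)))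
 (Pq.cons (Pq.L [0,1,3,4,5] 0 (Pf.C 0 0x2840200303))
 (Pq.cons (Pq.L [4] 0 (Pf.C 1 518))
 (Pq.cons (Pq.L [0,1,2,3,4] 0 (Pf.B 6 4 (Pf.C 0 0x2030c04100) (Pf.C 1 518)))
 (Pq.cons (Pq.L [0,2,3,4,5] 0 (Pf.C 0 0x2840400303))
 (Pq.cons (Pq.L [4] 0 (Pf.C 1 518))
 (Pq.cons (Pq.L [4] 0 (Pf.C 1 518))
 (Pq.cons (Pq.L [4] 0 (Pf.C 1 518))
 (Pq.cons (Pq.L [0] 0 (Pf.C 1 6))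
 Pq.nil))))))))))))
theorem bS_o14 : AllRef bS_T bS_G14 (ptObl 25 (PT.br 0 (PT.br 1 (PT.br 2 (PT.br 3 (PT.br 4 (PT.br 5 PT.kid PT.kid) PT.ref) (PT.br 4 (PT.br 5 PT.ref PT.kid) PT.ref)) (PT.br 3 PT.ref (PT.br 4 (PT.br 5 PT.ref PT.kid) PT.ref))) (PT.br 2 (PT.br 3 PT.ref (PT.br 4 (PT.br 5 PT.ref PT.kid) PT.ref)) (PT.br 3 (PT.br 4 (PT.br 5 PT.kid PT.kid) PT.ref) (PT.br 4 (PT.br 5 PT.kid PT.kid) PT.ref)))) PT.ref) []) :=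
  chkPq_sound bS_o14c _ (by decide +kernel)
noncomputable def bS_o15c : Pq := Pq.nil
theorem bS_o15 : AllRef bS_T bS_G15 (ptObl 8 PT.kid []) :=
  chkPq_sound bS_o15c _ (by decide +kernel)
noncomputable def bS_o16c : Pq := (Pq.cons (Pq.L [5] 0 (Pf.C 2 646))
 (Pq.cons (Pq.L [5] 0 (Pf.C 2 646))
 (Pq.cons (Pq.L [3] 0 (Pf.C 2 390))
 (Pq.cons (Pq.L [2] 0 (Pf.C 2 262))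
 (Pq.cons (Pq.L [1] 0 (Pf.C 2 134))
 (Pq.cons (Pq.L [5] 0 (Pf.C 2 646))
 (Pq.cons (Pq.L [5] 0 (Pf.C 2 646))
 (Pq.cons (Pq.L [3] 0 (Pf.C 2 390))
 (Pq.cons (Pq.L [2] 0 (Pf.C 2 262))
 (Pq.cons (Pq.L [1] 0 (Pf.C 2 134))
 Pq.nil))))))))))
theorem bS_o16 : AllRef bS_T bS_G16 (ptObl 35 (PT.br 0 (PT.br 1 (PT.br 2 (PT.br 3 (PT.br 4 (PT.br 5 PT.kid PT.ref) (PT.br 5 PT.kid PT.ref)) PT.ref) PT.ref) PT.ref) (PT.br 1 (PT.br 2 (PT.br 3 (PT.br 4 (PT.br 5 PT.kid PT.ref) (PT.br 5 PT.kid PT.ref)) PT.ref) PT.ref) PT.ref)) []) :=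
  chkPq_sound bS_o16c _ (by decide +kernel)
noncomputable def bS_o17c : Pq := (Pq.cons (Pq.L [] 0 (Pf.X 0 6))
 (Pq.cons (Pq.L [] 0 (Pf.X 1 6))
 (Pq.cons (Pq.L [] 0 (Pf.X 2 6))
 (Pq.cons (Pq.L [] 0 (Pf.X 3 6))
 (Pq.cons (Pq.L [] 0 (Pf.X 4 6))
 (Pq.cons (Pq.L [] 0 (Pf.X 5 6))
 (Pq.cons (Pq.L [] 1 (Pf.C 1 902))
 (Pq.cons (Pq.L [] 1 (Pf.C 1 902))
 (Pq.cons (Pq.L [] 1 (Pf.C 1 902))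
 (Pq.cons (Pq.L [] 1 (Pf.C 1 902))
 (Pq.cons (Pq.L [] 1 (Pf.C 1 902))
 (Pq.cons (Pq.L [] 1 (Pf.C 1 902))
 (Pq.cons (Pq.L [] 1 (Pf.C 1 902))
 (Pq.cons (Pq.L [] 1 (Pf.C 1 902))
 (Pq.cons (Pq.L [0,3,4,5] 1 (Pf.C 0 0x30e18284))
 (Pq.cons (Pq.L [0,1,3,4] 1 (Pf.C 0 0x2030e18080))
 (Pq.cons (Pq.L [0,1,4,5] 1 (Pf.C 0 0x2840200386))
 (Pq.cons (Pq.L [] 0 (Pf.X 0 6))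
 (Pq.cons (Pq.L [] 0 (Pf.X 1 6))
 (Pq.cons (Pq.L [] 0 (Pf.X 2 6))
 (Pq.cons (Pq.L [] 0 (Pf.X 3 6))
 (Pq.cons (Pq.L [] 0 (Pf.X 4 6))
 (Pq.cons (Pq.L [] 0 (Pf.X 5 6))
 (Pq.cons (Pq.L [0,1,2,3,4,5] 1 (Pf.W 4 257 [] [0,3,4,5,6,7] (Pf.cons (Pf.B 8 6 (Pf.B 8 4 (Pf.B 8 0 (Pf.B 8 3 (Pf.C 0 0x2031004100) (Pf.B 8 7 (Pf.B 8 5 (Pf.C 0 0x1000a10403) (Pf.C 0 0x3860220205)) (Pf.C 0 0x2030c1c088))) (Pf.C 1 8)) (Pf.C 1 520)) (Pf.C 1 776)) (Pf.cons (Pf.B 8 6 (Pf.B 8 4 (Pf.B 8 0 (Pf.B 8 3 (Pf.C 0 0x2031008080) (Pf.B 8 7 (Pf.B 8 5 (Pf.C 0 0x800a10403) (Pf.C 0 0x3860420205)) (Pf.C 0 0x2030c1c108))) (Pf.C 1 8)) (Pf.C 1 520)) (Pf.C 1 776)) Pf.nil))))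
 (Pq.cons (Pq.L [0,1,3,4] 1 (Pf.C 0 0x800e18203))
 (Pq.cons (Pq.L [0,2,4,5] 1 (Pf.C 0 0x2050008386))
 (Pq.cons (Pq.L [0,1,4,5] 1 (Pf.C 0 0x2050004386))
 (Pq.cons (Pq.L [0,1,2,3,4,5] 1 (Pf.W 4 257 [] [0,3,4,5,6,7] (Pf.cons (Pf.B 8 6 (Pf.B 8 4 (Pf.B 8 0 (Pf.B 8 3 (Pf.C 0 0x2031004100) (Pf.B 8 7 (Pf.B 8 5 (Pf.C 0 0x1000a10403) (Pf.C 0 0x3860a20001)) (Pf.C 0 0x1000e20203))) (Pf.C 1 8)) (Pf.C 1 520)) (Pf.C 1 776)) (Pf.cons (Pf.B 8 6 (Pf.B 8 4 (Pf.B 8 0 (Pf.B 8 3 (Pf.C 0 0x2031008080) (Pf.B 8 7 (Pf.B 8 5 (Pf.C 0 0x800a10403) (Pf.C 0 0x3860a20002)) (Pf.C 0 0x800e20203))) (Pf.C 1 8)) (Pf.C 1 520)) (Pf.C 1 776)) Pf.nil))))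
 (Pq.cons (Pq.L [0,1,4,5] 1 (Pf.C 0 0x2050004386))
 (Pq.cons (Pq.L [0,3,4,5] 1 (Pf.C 0 0x2840e18003))
 (Pq.cons (Pq.L [0,1,4,5] 1 (Pf.C 0 0x2050004386))
 (Pq.cons (Pq.L [] 1 (Pf.C 2 902))
 (Pq.cons (Pq.L [] 1 (Pf.C 2 902))
 (Pq.cons (Pq.L [] 1 (Pf.C 2 902))
 Pq.nil))))))))))))))))))))))))))))))))))
theorem bS_o17 : AllRef bS_T bS_G17 (closeObl (bS_T.sc.get 0) false [26,27,28,29,30,31,32,33,34,36,37,38,39] [0,0,0,0,0,0,0,0,0,1,1,1,1] [0,1,2,3,4,5] [0,1,1,1,0,1] 7678) :=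
  chkPq_sound bS_o17c _ (by decide +kernel)
noncomputable def bS_o18c : Pq := (Pq.cons (Pq.L [] 32767 (Pf.C 0 0x58a1220386))
 (Pq.cons (Pq.L [] 1 (Pf.C 1 902))
 (Pq.cons (Pq.L [] 1 (Pf.C 2 902))
 (Pq.cons (Pq.L [0,1,3,4] 1 (Pf.C 0 0x2030e04300))
 (Pq.cons (Pq.L [0,1,3,4] 1 (Pf.C 0 0x3840200303))
 (Pq.cons (Pq.L [0,2,3,4] 1 (Pf.C 0 0x3840400303))
 (Pq.cons (Pq.L [0,3,4,5] 1 (Pf.C 0 0x385000c304))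
 (Pq.cons (Pq.L [0,1,3,4] 1 (Pf.C 0 0x2030e18080))
 (Pq.cons (Pq.L [0,1,2,4] 1 (Pf.C 0 0x3820818080))
 (Pq.cons (Pq.L [0,1,2,4] 1 (Pf.C 0 0x3810818100))
 (Pq.cons (Pq.L [0,1,3,5] 1 (Pf.C 0 0x2870600301))
 (Pq.cons (Pq.L [0,3,4,5] 1 (Pf.C 0 0x2840e00303))
 (Pq.cons (Pq.L [1,2,3,4] 1 (Pf.C 0 0x1070218203))
 (Pq.cons (Pq.L [0,3,4,5] 1 (Pf.C 0 0x30e18284))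
 (Pq.cons (Pq.L [1,3,4,5] 1 (Pf.C 0 0x870610305))
 (Pq.cons (Pq.L [0,1,2,3,4,5] 0 (Pf.B 7 6 (Pf.W 4 257 [] [0,3,4,5,6,7] (Pf.cons (Pf.B 8 7 (Pf.B 8 6 (Pf.B 8 4 (Pf.B 8 0 (Pf.B 8 3 (Pf.C 0 0x2031004100) (Pf.B 8 5 (Pf.C 0 0x1000a10403) (Pf.C 0 0x3810c14188))) (Pf.C 1 8)) (Pf.C 1 520)) (Pf.C 1 776)) (Pf.C 1 904)) (Pf.cons (Pf.B 8 7 (Pf.B 8 6 (Pf.B 8 4 (Pf.B 8 0 (Pf.B 8 3 (Pf.C 0 0x2031008080) (Pf.B 8 5 (Pf.C 0 0x800a10403) (Pf.C 0 0x3820c14188))) (Pf.C 1 8)) (Pf.C 1 520)) (Pf.C 1 776)) (Pf.C 1 904)) Pf.nil))) (Pf.C 1 775)))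
 (Pq.cons (Pq.L [0,4,5] 7 (Pf.C 0 0x71014304))
 (Pq.cons (Pq.L [1,4,5] 7 (Pf.C 0 0x871010305))
 (Pq.cons (Pq.L [0,1,4] 7 (Pf.C 0 0x401081c300))
 (Pq.cons (Pq.L [0,1,5] 7 (Pf.C 0 0x2871000301))
 (Pq.cons (Pq.L [1,3,4] 7 (Pf.C 0 0x404021c303))
 (Pq.cons (Pq.L [0,3,4] 7 (Pf.C 0 0x4040e00303))
 (Pq.cons (Pq.L [0,3,5] 7 (Pf.C 0 0x2880e18003))
 (Pq.cons (Pq.L [1,3,4] 7 (Pf.C 0 0x880e18203))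
 (Pq.cons (Pq.L [2,3,4] 7 (Pf.C 0 0x1080e18203))
 (Pq.cons (Pq.L [0,1,3] 7 (Pf.C 0 0x4030e04300))
 (Pq.cons (Pq.L [0,1,3] 7 (Pf.C 0 0x4030e18080))
 (Pq.cons (Pq.L [0,1,4] 7 (Pf.C 0 0x2080e18080))
 (Pq.cons (Pq.L [3,4,5] 7 (Pf.C 0 0x4050e0c304))
 (Pq.cons (Pq.L [3,4,5] 7 (Pf.C 0 0x4030e18284))
 (Pq.cons (Pq.L [0,4,5] 7 (Pf.C 0 0x80e18284))
 (Pq.cons (Pq.L [0,1] 63 (Pf.C 0 0x4880e18001))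
 (Pq.cons (Pq.L [3,4] 63 (Pf.C 0 0x4880e18203))
 (Pq.cons (Pq.L [0,3] 63 (Pf.C 0 0x483101c300))
 (Pq.cons (Pq.L [0,1] 63 (Pf.C 0 0x4880e18080))
 (Pq.cons (Pq.L [0,3] 63 (Pf.C 0 0x4880e18180))
 (Pq.cons (Pq.L [3,5] 63 (Pf.C 0 0x189101c305))
 (Pq.cons (Pq.L [4,5] 63 (Pf.C 0 0x4880e18284))
 (Pq.cons (Pq.L [0] 1023 (Pf.C 0 0x4880028386))
 (Pq.cons (Pq.L [4] 1023 (Pf.C 0 0x4880828386))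
 (Pq.cons (Pq.L [0] 1023 (Pf.C 0 0x509101c006))
 (Pq.cons (Pq.L [4] 1023 (Pf.C 0 0x509101c206))
 (Pq.cons (Pq.L [0] 1023 (Pf.C 0 0x4881400386))
 (Pq.cons (Pq.L [4] 1023 (Pf.C 0 0x4881410386))
 (Pq.cons (Pq.L [1] 1023 (Pf.C 0 0x4880228386))
 (Pq.cons (Pq.L [2] 1023 (Pf.C 0 0x4880428386))
 (Pq.cons (Pq.L [3] 1023 (Pf.C 0 0x4880628386))
 (Pq.cons (Pq.L [1] 1023 (Pf.C 0 0x509101c086))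
 (Pq.cons (Pq.L [2] 1023 (Pf.C 0 0x509101c106))
 (Pq.cons (Pq.L [3] 1023 (Pf.C 0 0x509101c186))
 (Pq.cons (Pq.L [1] 1023 (Pf.C 0 0x4881404386))
 (Pq.cons (Pq.L [3] 1023 (Pf.C 0 0x488140c386))
 (Pq.cons (Pq.L [5] 1023 (Pf.C 0 0x509101c305))
 (Pq.cons (Pq.L [1] 1023 (Pf.C 0 0x509101c301))
 (Pq.cons (Pq.L [3] 1023 (Pf.C 0 0x509101c303))
 (Pq.cons (Pq.L [5] 1023 (Pf.C 0 0x4880a28386))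
 (Pq.cons (Pq.L [5] 1023 (Pf.C 0 0x509101c286))
 (Pq.cons (Pq.L [0] 1023 (Pf.C 0 0x509101c300))
 (Pq.cons (Pq.L [4] 1023 (Pf.C 0 0x509101c304))
 Pq.nil)))))))))))))))))))))))))))))))))))))))))))))))))))))))))))
theorem bS_o18 : AllRef bS_T bS_G18 (applyObl s1_T 59 [27,28,29,30,31,32,33,34,37,38,39] [1,2,3,4,5,6,7,8,9,10,11] []) :=
  chkPq_sound bS_o18c _ (by decide +kernel)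

end Pool.Agent.Lib.MP_849b2e_co
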