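import Pool.Agent.Lib.MP_849b2e_co.AllR
import Pool.Agent.Lib.MP_849b2e_co.TbS
import Pool.Agent.Lib.MP_849b2e_co.ObS_0
import Pool.Agent.Lib.MP_849b2e_co.LbS113
import Pool.Agent.Lib.MP_849b2e_co.Ls1

set_option maxRecDepth 100000
set_option linter.all false
namespace Pool.Agent.Lib.MP_849b2e_co

theorem bS_n23  : Bd bS_T bS_G18 [27,28,29,30,31,32,33,34,37,38,39] :=
  r_apply lem_s1 [1,2,3,4,5,6,7,8,9,10,11] [] (by decide +kernel) bS_o18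
theorem bS_n22  : Bd bS_T bS_G17 [26,27,28,29,30,31,32,33,34,36,37,38,39] :=
  r_close false 0 [6,7,8,9] [26,27,28,29,30,31,32,33,34,36,37,38,39] [0,0,0,0,0,0,0,0,0,1,1,1,1] [0,1,2,3,4,5] [0,1,1,1,0,1] 7678 ⟨40,[],[],[]⟩ bS_G18 [27,28,29,30,31,32,33,34,37,38,39] (by decide +kernel) bS_o17 bS_n23
theorem bS_n21  : Bd bS_T bS_G17 [5,8] :=
  r_act [6,7,8,9] [26,27,28,29,30,31,32,33,34,36,37,38,39] (by decide +kernel) bS_n22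
theorem bS_n20  : Bd bS_T bS_G16 [5,8] :=
  r_psplit 35 [] (PT.br 0 (PT.br 1 (PT.br 2 (PT.br 3 (PT.br 4 (PT.br 5 PT.kid PT.ref) (PT.br 5 PT.kid PT.ref)) PT.ref) PT.ref) PT.ref) (PT.br 1 (PT.br 2 (PT.br 3 (PT.br 4 (PT.br 5 PT.kid PT.ref) (PT.br 5 PT.kid PT.ref)) PT.ref) PT.ref) PT.ref)) ⟨36,[10],[],[]⟩ bS_G17 [5,8] (by decide +kernel) bS_o16 bS_n21
theorem bS_n19  : Bd bS_T bS_G15 [5,8] :=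
  r_psplit 8 [0,1,2,3,4,5] PT.kid ⟨35,[9],[],[]⟩ bS_G16 [5,8] (by decide +kernel) bS_o15 bS_n20
theorem bS_n18  : Bd bS_T bS_G14 [5,8] :=
  r_psplit 25 [] (PT.br 0 (PT.br 1 (PT.br 2 (PT.br 3 (PT.br 4 (PT.br 5 PT.kid PT.kid) PT.ref) (PT.br 4 (PT.br 5 PT.ref PT.kid) PT.ref)) (PT.br 3 PT.ref (PT.br 4 (PT.br 5 PT.ref PT.kid) PT.ref))) (PT.br 2 (PT.br 3 PT.ref (PT.br 4 (PT.br 5 PT.ref PT.kid) PT.ref)) (PT.br 3 (PT.br 4 (PT.br 5 PT.kid PT.kid) PT.ref) (PT.br 4 (PT.br 5 PT.kid PT.kid) PT.ref)))) PT.ref) ⟨26,[8],[],[]⟩ bS_G15 [5,8] (by decide +kernel) bS_o14 bS_n19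
theorem bS_n17  : Bd bS_T bS_G3 [5,8] :=
  r_psplit 5 [0,1,2,3,4,5] PT.kid ⟨25,[7],[],[]⟩ bS_G14 [5,8] (by decide +kernel) bS_o13 bS_n18
theorem bS_n16  : Bd bS_T bS_G13 [] :=
  r_empty (by decide +kernel) 
theorem bS_n15  : Bd bS_T bS_G12 [23,24] :=
  r_kill [23,24] ⟨25,[],[],[]⟩ bS_G13 [] (by decide +kernel) bS_o12 bS_n16
theorem bS_n14  : Bd bS_T bS_G11 [19,20] :=
  r_hit [19,20] bS_h14 ⟨23,[],[10,11],[]⟩ bS_G12 [23,24] (by decide +kernel) bS_o11 bS_n15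
theorem bS_n13  : Bd bS_T bS_G10 [12,17,19,20] :=
  r_close false 0 [2,3,4,5] [12,17,19,20] [0,1,1,1] [0,1,2,3,4,5] [1,0,0,0,1,0] 12 ⟨23,[],[],[]⟩ bS_G11 [19,20] (by decide +kernel) bS_o10 bS_n14
theorem bS_n12  : Bd bS_T bS_G9 [12,13,14,15,17,18,19,20,21,22] :=
  r_kill [13,14,15,18,21,22] ⟨23,[],[],[]⟩ bS_G10 [12,17,19,20] (by decide +kernel) bS_o9 bS_n13
theorem bS_n11  : Bd bS_T bS_G9 [5,8] :=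
  r_act [2,3,4,5] [12,13,14,15,17,18,19,20,21,22] (by decide +kernel) bS_n12
theorem bS_n10  : Bd bS_T bS_G8 [5,8] :=
  r_psplit 16 [] (PT.br 0 (PT.br 1 (PT.br 2 (PT.br 3 (PT.br 4 (PT.br 5 PT.kid PT.ref) PT.ref) (PT.br 4 (PT.br 5 PT.ref PT.kid) PT.ref)) (PT.br 3 PT.ref (PT.br 4 (PT.br 5 PT.ref PT.kid) PT.ref))) (PT.br 2 (PT.br 3 PT.ref (PT.br 4 (PT.br 5 PT.ref PT.kid) PT.ref)) (PT.br 3 (PT.br 4 (PT.br 5 PT.kid PT.ref) PT.ref) (PT.br 4 (PT.br 5 PT.kid PT.ref) PT.ref)))) PT.ref) ⟨17,[6],[],[]⟩ bS_G9 [5,8] (by decide +kernel) bS_o8 bS_n11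
theorem bS_n9  : Bd bS_T bS_G7 [5,8] :=
  r_psplit 8 [0,1,2,3,4,5] PT.kid ⟨16,[5],[],[]⟩ bS_G8 [5,8] (by decide +kernel) bS_o7 bS_n10
theorem bS_n8  : Bd bS_T bS_G6 [5,8] :=
  r_psplit 11 [] (PT.br 0 (PT.br 1 (PT.br 2 (PT.br 3 (PT.br 4 (PT.br 5 PT.kid PT.ref) (PT.br 5 PT.kid PT.ref)) PT.ref) PT.ref) PT.ref) (PT.br 1 (PT.br 2 (PT.br 3 (PT.br 4 (PT.br 5 PT.kid PT.ref) (PT.br 5 PT.kid PT.ref)) PT.ref) PT.ref) PT.ref)) ⟨12,[4],[],[]⟩ bS_G7 [5,8] (by decide +kernel) bS_o6 bS_n9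
theorem bS_n7  : Bd bS_T bS_G5 [5,8] :=
  r_psplit 5 [0,1,2,3,4,5] PT.kid ⟨11,[3],[],[]⟩ bS_G6 [5,8] (by decide +kernel) bS_o5 bS_n8
theorem bS_n6  : Bd bS_T bS_G4 [5,8] :=
  r_apply lem_bS113 [1,2] [] (by decide +kernel) bS_o4
theorem bS_n5  : Bd bS_T bS_G4 [5,8] :=
  r_learn [[8],[5],[5],[5],[8],[5]] [⟨0,1,true⟩,⟨0,2,true⟩,⟨0,3,true⟩,⟨3,4,true⟩,⟨4,5,true⟩,⟨0,5,false⟩,⟨1,4,false⟩,⟨2,4,false⟩] ⟨11,[],[],[]⟩ bS_G4 [5,8] (by decide +kernel) bS_o3 bS_n6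
theorem bS_n4  : Bd bS_T bS_G2 [5,8] :=
  r_case [8,5,5,5,8,5] [⟨0,1,true⟩,⟨0,2,true⟩,⟨0,3,true⟩,⟨3,4,true⟩,⟨4,5,true⟩,⟨0,5,false⟩,⟨1,4,false⟩,⟨2,4,false⟩,⟨0,4,false⟩,⟨1,2,false⟩,⟨1,3,false⟩,⟨1,5,false⟩,⟨2,3,false⟩,⟨2,5,false⟩,⟨3,5,false⟩] [] ⟨11,[],[9],[]⟩ bS_G4 [5,8] bS_G5 [5,8] (by decide +kernel) bS_n5 bS_n7
theorem bS_n3  : Bd bS_T bS_G2 [5,8] :=
  r_learn [[5],[8],[8],[8],[5],[8]] [⟨0,1,true⟩,⟨0,2,true⟩,⟨0,3,true⟩,⟨3,4,true⟩,⟨4,5,true⟩,⟨0,5,false⟩,⟨1,4,false⟩,⟨2,4,false⟩] ⟨11,[],[],[]⟩ bS_G2 [5,8] (by decide +kernel) bS_o2 bS_n4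
theorem bS_n2  : Bd bS_T bS_G1 [5,8] :=
  r_case [5,8,8,8,5,8] [⟨0,1,true⟩,⟨0,2,true⟩,⟨0,3,true⟩,⟨3,4,true⟩,⟨4,5,true⟩,⟨0,5,false⟩,⟨1,4,false⟩,⟨2,4,false⟩,⟨0,4,false⟩,⟨1,2,false⟩,⟨1,3,false⟩,⟨1,5,false⟩,⟨2,3,false⟩,⟨2,5,false⟩,⟨3,5,false⟩] [] ⟨11,[],[8],[]⟩ bS_G2 [5,8] bS_G3 [5,8] (by decide +kernel) bS_n3 bS_n17
theorem bS_n1  : Bd bS_T bS_G0 [3,4] :=
  r_block [0,0] [2,1] [2,1] ⟨5,[1,2],[6,0,0,0,7],[1]⟩ bS_G1 [5,8] (by decide +kernel) bS_o1 bS_n2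
theorem bS_n0  : Bd bS_T (pureCtx 2 3) (pureAct 2) :=
  show Bd _ _ [1,2] from r_twin 0 [2,1] ⟨3,[],[4,5],[]⟩ bS_G0 [3,4] (by decide +kernel) bS_o0 bS_n1
theorem lem_bS  : Lem bS_T 2 3 := ⟨by decide +kernel, bS_n0⟩

end Pool.Agent.Lib.MP_849b2e_co
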