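import Pool.Agent.Lib.MP_849b2e_co.Rules

set_option maxRecDepth 100000
set_option linter.all false
namespace Pool.Agent.Lib.MP_849b2e_co

noncomputable def c1_ty : Tr Ty := (Tr.br (Tr.br (Tr.br (Tr.br (Tr.br (Tr.leaf ⟨1,0,0,0,0⟩) (Tr.leaf ⟨65683,780,0,0,0⟩)) (Tr.br (Tr.leaf ⟨275,652,0,0,0⟩) (Tr.leaf ⟨0x1000425,0x200180a,0,1,0⟩)))
 (Tr.br (Tr.br (Tr.leaf ⟨19,12,0,0,0⟩) (Tr.leaf ⟨0x102049,0x20c006,0,1,0⟩)) (Tr.leaf ⟨4133,3082,0,0,0⟩))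
)
 (Tr.br (Tr.br (Tr.br (Tr.leaf ⟨5,10,0,0,0⟩) (Tr.leaf ⟨0x40425,6154,0,0,1⟩)) (Tr.br (Tr.leaf ⟨1061,6154,0,0,0⟩) (Tr.leaf ⟨0x4002049,0x800c006,0,1,0⟩)))
 (Tr.br (Tr.br (Tr.leaf ⟨73,6,0,0,0⟩) (Tr.leaf ⟨0x400093,780,0,0,1⟩)) (Tr.leaf ⟨16457,40966,0,0,0⟩))
)
)
 (Tr.br (Tr.br (Tr.br (Tr.br (Tr.leaf ⟨3,12,0,0,0⟩) (Tr.leaf ⟨0x20425,6154,0,0,0⟩)) (Tr.br (Tr.leaf ⟨531,396,0,0,0⟩) (Tr.leaf ⟨0x2000425,0x100180a,1,0,0⟩)))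
 (Tr.br (Tr.br (Tr.leaf ⟨37,10,0,0,0⟩) (Tr.leaf ⟨0x202049,0x10c006,1,0,0⟩)) (Tr.leaf ⟨8265,49158,0,0,0⟩))
)
 (Tr.br (Tr.br (Tr.br (Tr.leaf ⟨9,6,0,0,0⟩) (Tr.leaf ⟨0xc0425,6154,0,1,1⟩)) (Tr.br (Tr.leaf ⟨2085,5130,0,0,0⟩) (Tr.leaf ⟨0x8002049,0x400c006,1,0,0⟩)))
 (Tr.br (Tr.br (Tr.leaf ⟨147,780,0,0,0⟩) (Tr.leaf ⟨0xc00093,780,0,1,1⟩)) (Tr.leaf ⟨32841,24582,0,0,0⟩))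
)
)
)

noncomputable def c1_ev : Tr Ev := (Tr.br (Tr.br (Tr.br (Tr.leaf ⟨10,[18],1⟩) (Tr.leaf ⟨22,[23],0⟩))
 (Tr.br (Tr.leaf ⟨13,[20,21],0⟩) (Tr.leaf ⟨13,[26,27],0⟩))
)
 (Tr.br (Tr.br (Tr.leaf ⟨18,[19],0⟩) (Tr.leaf ⟨10,[24,25],0⟩))
 (Tr.leaf ⟨7,[22],1⟩))
)

noncomputable def c1_ax : Tr Ax := (Tr.br (Tr.br (Tr.br (Tr.br (Tr.leaf ⟨[1,1,1],[⟨0,1,true⟩,⟨0,2,true⟩,⟨1,2,true⟩],[],0⟩) (Tr.leaf ⟨[8192],[],[⟨7,[(0,true)]⟩,⟨10,[(0,false)]⟩],0⟩))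
 (Tr.br (Tr.leaf ⟨[8,4,2],[⟨0,1,false⟩,⟨0,2,false⟩,⟨1,2,false⟩],[],0⟩) (Tr.leaf ⟨[128,65536,1024],[⟨0,2,true⟩,⟨1,2,false⟩],[⟨10,[(0,false),(1,true)]⟩,⟨13,[(0,true),(1,false)]⟩],0⟩))
)
 (Tr.br (Tr.br (Tr.leaf ⟨[4,4],[⟨0,1,true⟩],[],0⟩) (Tr.leaf ⟨[8192],[],[⟨7,[(0,false)]⟩,⟨10,[(0,true)]⟩],0⟩))
 (Tr.leaf ⟨[8,4,8,4],[⟨0,1,true⟩,⟨0,2,false⟩,⟨0,3,false⟩,⟨1,2,false⟩,⟨1,3,false⟩,⟨2,3,true⟩],[],0⟩))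
)
 (Tr.br (Tr.br (Tr.br (Tr.leaf ⟨[8,8],[⟨0,1,true⟩],[],0⟩) (Tr.leaf ⟨[1024],[],[⟨7,[(0,true)]⟩,⟨13,[(0,false)]⟩],0⟩))
 (Tr.br (Tr.leaf ⟨[8,2,8,2],[⟨0,1,true⟩,⟨0,2,false⟩,⟨0,3,false⟩,⟨1,2,false⟩,⟨1,3,false⟩,⟨2,3,true⟩],[],0⟩) (Tr.leaf ⟨[1024,0x20000,8192],[⟨0,2,true⟩,⟨1,2,false⟩],[⟨13,[(0,false),(1,true)]⟩],0⟩))
)
 (Tr.br (Tr.br (Tr.leaf ⟨[2,2],[⟨0,1,true⟩],[],0⟩) (Tr.leaf ⟨[128,65536,8192],[⟨0,2,false⟩,⟨1,2,true⟩],[⟨10,[(0,false),(1,true)]⟩,⟨13,[(0,true),(1,false)]⟩],0⟩))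
 (Tr.leaf ⟨[4,2,4,2],[⟨0,1,true⟩,⟨0,2,false⟩,⟨0,3,false⟩,⟨1,2,false⟩,⟨1,3,false⟩,⟨2,3,true⟩],[],0⟩))
)
)

noncomputable def c1_sc : Tr Sc := (Tr.leaf ⟨[7,10,13],[2,4,1]⟩)
noncomputable def c1_T : Tab := ⟨28,c1_ty,c1_ev,c1_ax,c1_sc⟩
def c1_S0 : St := ⟨0,0,0,0,0⟩
def c1_G0 : Ctx := ⟨7,0,255,0,0,c1_S0,none⟩
def c1_G1 : Ctx := ⟨16,0,2047,1,0,c1_S0,none⟩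
def c1_G2 : Ctx := ⟨16,0,2047,1,128,c1_S0,none⟩
def c1_S1 : St := ⟨1,65683,0,0,1⟩
def c1_G3 : Ctx := ⟨17,0,8191,1,0,c1_S1,none⟩
def c1_G4 : Ctx := ⟨16,0,2047,1,1152,c1_S0,none⟩
def c1_S2 : St := ⟨1,0x20425,0,0,1⟩
def c1_G5 : Ctx := ⟨18,0,10239,1,128,c1_S2,none⟩
def c1_G6 : Ctx := ⟨16,0,2047,1,9344,c1_S0,none⟩
def c1_G7 : Ctx := ⟨19,1,10239,1,128,c1_S2,none⟩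
def c1_G8 : Ctx := ⟨20,3,10239,1,128,c1_S2,none⟩
def c1_G9 : Ctx := ⟨22,7,10239,1,128,c1_S2,none⟩
def c1_G10 : Ctx := ⟨22,7,10239,1,0x380080,c1_S2,none⟩
def c1_G11 : Ctx := ⟨23,8,8191,1,0,c1_S1,none⟩
def c1_G12 : Ctx := ⟨24,24,8191,1,0,c1_S1,none⟩
def c1_G13 : Ctx := ⟨26,56,8191,1,0,c1_S1,none⟩
def c1_G14 : Ctx := ⟨28,120,8191,1,0,c1_S1,none⟩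
def c1_G15 : Ctx := ⟨28,120,8191,1,0x9000000,c1_S1,none⟩
def c1_G16 : Ctx := ⟨28,120,8191,1,0xf800000,c1_S1,none⟩

end Pool.Agent.Lib.MP_849b2e_co
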