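import Pool.Agent.Lib.MP_849b2e_co.Fast
import Pool.Agent.Lib.MP_849b2e_co.Tc1

set_option maxRecDepth 100000
set_option linter.all false
namespace Pool.Agent.Lib.MP_849b2e_co

noncomputable def c1_o0c : Pq := (Pq.cons (Pq.L [] 2 (Pf.C 3 256))
 (Pq.cons (Pq.L [] 2 (Pf.C 2 256))
 (Pq.cons (Pq.L [] 2 (Pf.C 1 256))
 Pq.nil)))
theorem c1_o0 : AllRef c1_T (pureCtx 3 8) (twinObl [1,2,3] 0 [6,5,3]) :=
  chkPq_sound c1_o0c _ (by decide +kernel)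
noncomputable def c1_o1c : Pq := (Pq.cons (Pq.L [] 1 (Pf.C 3 128))
 (Pq.cons (Pq.L [] 1 (Pf.C 2 128))
 (Pq.cons (Pq.L [] 1 (Pf.C 1 128))
 (Pq.cons (Pq.L [] 1 (Pf.C 3 128))
 (Pq.cons (Pq.L [] 1 (Pf.C 2 128))
 (Pq.cons (Pq.L [] 1 (Pf.C 1 128))
 Pq.nil))))))
theorem c1_o1 : AllRef c1_T c1_G0 (blockObl [4,5,6] [2,4,1] [6,5,3] [6,5,3]) :=
  chkPq_sound c1_o1c _ (by decide +kernel)
noncomputable def c1_o2c : Pq := Pq.nil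
theorem c1_o2 : AllRef c1_T c1_G1 (extObl 7 [] []) :=
  chkPq_sound c1_o2c _ (by decide +kernel)
noncomputable def c1_o3c : Pq := Pq.nil
theorem c1_o3 : AllRef c1_T c1_G2 (extObl 10 [] []) :=
  chkPq_sound c1_o3c _ (by decide +kernel)
noncomputable def c1_o4c : Pq := (Pq.cons (Pq.L [] 0 (Pf.W 8 0 [] [] Pf.nil))
 Pq.nil)
theorem c1_o4 : AllRef c1_T c1_G4 (List.map pat1 [13]) :=
  chkPq_sound c1_o4c _ (by decide +kernel)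
noncomputable def c1_o5c : Pq := Pq.nil
theorem c1_o5 : AllRef c1_T c1_G5 (ptObl 10 PT.kid []) :=
  chkPq_sound c1_o5c _ (by decide +kernel)
noncomputable def c1_o6c : Pq := (Pq.cons (Pq.L [0] 0 (Pf.C 2 1))
 Pq.nil)
theorem c1_o6 : AllRef c1_T c1_G7 (ptObl 18 (PT.br 0 PT.kid PT.ref) []) :=
  chkPq_sound c1_o6c _ (by decide +kernel)
noncomputable def c1_o7c : Pq := Pq.nil
theorem c1_o7 : AllRef c1_T c1_G8 (ptObl 13 (PT.br 0 PT.kid PT.kid) []) :=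
  chkPq_sound c1_o7c _ (by decide +kernel)
noncomputable def c1_o8c : Pq := (Pq.cons (Pq.L [0] 0 (Pf.W 9 0 [] [1] (Pf.cons (Pf.B 2 1 (Pf.T 2 2 (Pf.cons (Pf.W 10 2 [] [0] (Pf.cons (Pf.B 3 0 (Pf.T 3 0 (Pf.cons (Pf.T 3 1 (Pf.cons (Pf.W 13 32771 [] [] (Pf.cons (Pf.B 4 2 (Pf.C 6 0x608004) (Pf.C 1 260)) Pf.nil)) Pf.nil)) Pf.nil)) (Pf.C 2 3)) Pf.nil)) Pf.nil)) (Pf.T 2 2 (Pf.cons (Pf.W 13 32769 [] [] (Pf.cons (Pf.B 3 2 (Pf.C 6 0x208003) (Pf.C 1 259)) Pf.nil)) Pf.nil))) Pf.nil)))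
 (Pq.cons (Pq.L [0] 0 (Pf.W 10 1 [] [0] (Pf.cons (Pf.B 2 0 (Pf.T 2 0 (Pf.cons (Pf.T 2 1 (Pf.cons (Pf.W 13 16386 [] [] (Pf.cons (Pf.B 3 1 (Pf.C 6 0x404003) (Pf.C 1 131)) Pf.nil)) Pf.nil)) Pf.nil)) (Pf.C 2 2)) Pf.nil)))
 (Pq.cons (Pq.L [0] 0 (Pf.W 9 0 [] [1] (Pf.cons (Pf.B 2 1 (Pf.T 2 2 (Pf.cons (Pf.W 10 2 [] [0,1] (Pf.cons (Pf.B 3 0 (Pf.B 3 1 (Pf.C 6 16770) (Pf.T 3 0 (Pf.cons (Pf.T 3 1 (Pf.cons (Pf.W 13 32771 [] [] (Pf.cons (Pf.B 4 2 (Pf.C 6 0x608004) (Pf.C 1 260)) Pf.nil)) Pf.nil)) Pf.nil))) (Pf.C 2 3)) Pf.nil)) Pf.nil)) (Pf.C 1 130)) Pf.nil)))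
 Pq.nil)))
theorem c1_o8 : AllRef c1_T c1_G9 (List.map pat1 [19,20,21]) :=
  chkPq_sound c1_o8c _ (by decide +kernel)
noncomputable def c1_o9c : Pq := Pq.nil
theorem c1_o9 : AllRef c1_T c1_G3 (ptObl 7 PT.kid []) :=
  chkPq_sound c1_o9c _ (by decide +kernel)
noncomputable def c1_o10c : Pq := (Pq.cons (Pq.L [0] 0 (Pf.C 3 1))
 Pq.nil)
theorem c1_o10 : AllRef c1_T c1_G11 (ptObl 22 (PT.br 0 PT.kid PT.ref) []) :=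
  chkPq_sound c1_o10c _ (by decide +kernel)
noncomputable def c1_o11c : Pq := Pq.nil
theorem c1_o11 : AllRef c1_T c1_G12 (ptObl 10 (PT.br 0 PT.kid PT.kid) []) :=
  chkPq_sound c1_o11c _ (by decide +kernel)
noncomputable def c1_o12c : Pq := Pq.nil
theorem c1_o12 : AllRef c1_T c1_G13 (ptObl 13 (PT.br 0 PT.kid PT.kid) []) :=
  chkPq_sound c1_o12c _ (by decide +kernel)
noncomputable def c1_o13c : Pq := (Pq.cons (Pq.L [] 0 (Pf.X 0 1))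
 (Pq.cons (Pq.L [0] 1 (Pf.W 12 32769 [] [] (Pf.cons (Pf.B 3 2 (Pf.C 7 0x208003) (Pf.C 2 259)) (Pf.cons (Pf.B 3 2 (Pf.C 4 259) (Pf.C 0 16643)) Pf.nil))))
 (Pq.cons (Pq.L [] 1 (Pf.C 2 257))
 (Pq.cons (Pq.L [0] 1 (Pf.C 4 257))
 (Pq.cons (Pq.L [] 0 (Pf.X 0 1))
 (Pq.cons (Pq.L [0] 1 (Pf.W 11 32769 [] [] (Pf.cons (Pf.B 3 2 (Pf.C 4 16770) (Pf.C 0 259)) (Pf.cons (Pf.B 3 2 (Pf.C 5 32899) (Pf.C 1 259)) Pf.nil))))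
 (Pq.cons (Pq.L [0] 1 (Pf.C 0 32769))
 (Pq.cons (Pq.L [] 1 (Pf.C 1 257))
 Pq.nil))))))))
theorem c1_o13 : AllRef c1_T c1_G14 (closeObl (c1_T.sc.get 0) false [23,24,25,26,27] [0,1,1,2,2] [0] [0] 13) :=
  chkPq_sound c1_o13c _ (by decide +kernel)
noncomputable def c1_o14c : Pq := (Pq.cons (Pq.L [] 0 (Pf.X 0 1))
 (Pq.cons (Pq.L [] 0 (Pf.X 0 1))
 (Pq.cons (Pq.L [] 0 (Pf.X 0 1))
 Pq.nil)))
theorem c1_o14 : AllRef c1_T c1_G15 (closeObl (c1_T.sc.get 0) true [23,25,26] [0,1,2] [0] [0] 0) :=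
  chkPq_sound c1_o14c _ (by decide +kernel)

end Pool.Agent.Lib.MP_849b2e_co
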