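import Pool.Agent.Lib.MP_849b2e_co.AllR
import Pool.Agent.Lib.MP_849b2e_co.Tc1
import Pool.Agent.Lib.MP_849b2e_co.Oc1_0

set_option maxRecDepth 100000
set_option linter.all false
namespace Pool.Agent.Lib.MP_849b2e_co

theorem c1_n19  : Bd c1_T c1_G16 [] :=
  r_empty (by decide +kernel) 
theorem c1_n18  : Bd c1_T c1_G15 [23,25,26] :=
  r_close true 0 [3,4,5,6] [23,25,26] [0,1,2] [0] [0] 0 ⟨28,[],[],[]⟩ c1_G16 [] (by decide +kernel) c1_o14 c1_n19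
theorem c1_n17  : Bd c1_T c1_G14 [23,24,25,26,27] :=
  r_close false 0 [3,4,5,6] [23,24,25,26,27] [0,1,1,2,2] [0] [0] 13 ⟨28,[],[],[]⟩ c1_G15 [23,25,26] (by decide +kernel) c1_o13 c1_n18
theorem c1_n16  : Bd c1_T c1_G14 [7,10,13] :=
  r_act [3,4,5,6] [23,24,25,26,27] (by decide +kernel) c1_n17
theorem c1_n15  : Bd c1_T c1_G13 [7,10,13] :=
  r_psplit 13 [] (PT.br 0 PT.kid PT.kid) ⟨26,[7],[],[]⟩ c1_G14 [7,10,13] (by decide +kernel) c1_o12 c1_n16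
theorem c1_n14  : Bd c1_T c1_G12 [7,10,13] :=
  r_psplit 10 [] (PT.br 0 PT.kid PT.kid) ⟨24,[6],[],[]⟩ c1_G13 [7,10,13] (by decide +kernel) c1_o11 c1_n15
theorem c1_n13  : Bd c1_T c1_G11 [7,10,13] :=
  r_psplit 22 [] (PT.br 0 PT.kid PT.ref) ⟨23,[5],[],[]⟩ c1_G12 [7,10,13] (by decide +kernel) c1_o10 c1_n14
theorem c1_n12  : Bd c1_T c1_G3 [7,10,13] :=
  r_psplit 7 [0] PT.kid ⟨22,[4],[],[]⟩ c1_G11 [7,10,13] (by decide +kernel) c1_o9 c1_n13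
theorem c1_n11  : Bd c1_T c1_G10 [] :=
  r_empty (by decide +kernel) 
theorem c1_n10  : Bd c1_T c1_G9 [19,20,21] :=
  r_kill [19,20,21] ⟨22,[],[],[]⟩ c1_G10 [] (by decide +kernel) c1_o8 c1_n11
theorem c1_n9  : Bd c1_T c1_G9 [10,13] :=
  r_act [0,1,2] [19,20,21] (by decide +kernel) c1_n10
theorem c1_n8  : Bd c1_T c1_G8 [10,13] :=
  r_psplit 13 [] (PT.br 0 PT.kid PT.kid) ⟨20,[3],[],[]⟩ c1_G9 [10,13] (by decide +kernel) c1_o7 c1_n9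
theorem c1_n7  : Bd c1_T c1_G7 [10,13] :=
  r_psplit 18 [] (PT.br 0 PT.kid PT.ref) ⟨19,[2],[],[]⟩ c1_G8 [10,13] (by decide +kernel) c1_o6 c1_n8
theorem c1_n6  : Bd c1_T c1_G5 [10,13] :=
  r_psplit 10 [0] PT.kid ⟨18,[1],[],[]⟩ c1_G7 [10,13] (by decide +kernel) c1_o5 c1_n7
theorem c1_n5  : Bd c1_T c1_G6 [] :=
  r_empty (by decide +kernel) 
theorem c1_n4  : Bd c1_T c1_G4 [13] :=
  r_kill [13] ⟨16,[],[],[]⟩ c1_G6 [] (by decide +kernel) c1_o4 c1_n5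
theorem c1_n3  : Bd c1_T c1_G2 [10,13] :=
  r_ext 10 2 [13] [] [] [] [] ⟨16,[],[],[]⟩ c1_G4 [13] ⟨17,[],[0,14],[]⟩ c1_G5 [10,13] (by decide +kernel) c1_o3 c1_n4 c1_n6
theorem c1_n2  : Bd c1_T c1_G1 [7,10,13] :=
  r_ext 7 2 [10] [] [13] [] [] ⟨16,[],[],[]⟩ c1_G2 [10,13] ⟨16,[],[12,13],[]⟩ c1_G3 [7,10,13] (by decide +kernel) c1_o2 c1_n3 c1_n12
theorem c1_n1  : Bd c1_T c1_G0 [4,5,6] :=
  r_block [2,4,1] [6,5,3] [6,5,3] ⟨7,[],[0,0,0,0,0,0,0,0,0,0,0,0,0,0,9,0,10,11],[1]⟩ c1_G1 [7,10,13] (by decide +kernel) c1_o1 c1_n2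
theorem c1_n0  : Bd c1_T (pureCtx 3 8) (pureAct 3) :=
  show Bd _ _ [1,2,3] from r_twin 0 [6,5,3] ⟨4,[],[],[]⟩ c1_G0 [4,5,6] (by decide +kernel) c1_o0 c1_n1
theorem lem_c1  : Lem c1_T 3 8 := ⟨by decide +kernel, c1_n0⟩

end Pool.Agent.Lib.MP_849b2e_co
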