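import Pool.Agent.Lib.MP_849b2e_co.Rules

set_option maxRecDepth 100000
set_option linter.all false
namespace Pool.Agent.Lib.MP_849b2e_co

noncomputable def c_ty : Tr Ty := (Tr.br (Tr.br (Tr.br (Tr.br (Tr.br (Tr.br (Tr.leaf ⟨1,0,0,0,0⟩) (Tr.leaf ⟨0x102004007,0x201ff8018,5,26,31⟩)) (Tr.leaf ⟨81927,0x3fe8018,16,15,31⟩)) (Tr.br (Tr.leaf ⟨263,152,0,0,0⟩) (Tr.leaf ⟨0x1004007,0x2ff8018,9,22,31⟩)))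
 (Tr.br (Tr.br (Tr.leaf ⟨19,12,0,0,0⟩) (Tr.leaf ⟨0x104007,0x3ef8018,2,29,31⟩)) (Tr.br (Tr.leaf ⟨4359,152,0,1,0⟩) (Tr.leaf ⟨0x11004007,0x22ff8018,9,22,31⟩)))
)
 (Tr.br (Tr.br (Tr.br (Tr.br (Tr.leaf ⟨7,24,0,0,0⟩) (Tr.leaf ⟨0x400404007,0x803bf8018,10,21,31⟩)) (Tr.leaf ⟨0x44007,0x3fb8018,4,27,31⟩)) (Tr.br (Tr.leaf ⟨1671,2328,0,1,1⟩) (Tr.leaf ⟨0x4084007,0xbf78018,20,11,31⟩)))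
 (Tr.br (Tr.br (Tr.leaf ⟨71,56,0,0,0⟩) (Tr.leaf ⟨0x404007,0x3bf8018,10,21,31⟩)) (Tr.br (Tr.leaf ⟨16391,24,0,0,31⟩) (Tr.leaf ⟨0x40204007,0x83df8018,18,13,31⟩)))
)
)
 (Tr.br (Tr.br (Tr.br (Tr.br (Tr.br (Tr.leaf ⟨3,0,0,0,0⟩) (Tr.leaf ⟨0x202004007,0x101ff8018,5,26,31⟩)) (Tr.leaf ⟨0x24007,0x3fd8018,8,23,31⟩)) (Tr.br (Tr.leaf ⟨647,280,0,0,1⟩) (Tr.leaf ⟨0x2004007,0x1ff8018,5,26,31⟩)))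
 (Tr.br (Tr.br (Tr.leaf ⟨39,88,0,0,0⟩) (Tr.leaf ⟨0x204007,0x3df8018,18,13,31⟩)) (Tr.br (Tr.leaf ⟨10887,1304,1,0,1⟩) (Tr.leaf ⟨0x21004007,0x12ff8018,9,22,31⟩)))
)
 (Tr.br (Tr.br (Tr.br (Tr.br (Tr.leaf ⟨11,20,0,0,0⟩) (Tr.leaf ⟨0x800404007,0x403bf8018,10,21,31⟩)) (Tr.leaf ⟨0x84007,0x3f78018,20,11,31⟩)) (Tr.br (Tr.leaf ⟨2695,1304,1,0,1⟩) (Tr.leaf ⟨0x8084007,0x7f78018,20,11,31⟩)))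
 (Tr.br (Tr.br (Tr.leaf ⟨135,280,0,0,0⟩) (Tr.leaf ⟨0x804007,0x37f8018,1,30,31⟩)) (Tr.br (Tr.leaf ⟨49159,0x3ff0018,0,31,31⟩) (Tr.leaf ⟨0x80204007,0x43df8018,18,13,31⟩)))
)
)
)

noncomputable def c_ev : Tr Ev := (Tr.br (Tr.br (Tr.br (Tr.br (Tr.leaf ⟨1,[2,3],0⟩) (Tr.leaf ⟨19,[26,27],0⟩))
 (Tr.br (Tr.leaf ⟨9,[10,11],0⟩) (Tr.leaf ⟨22,[34,35],0⟩))
)
 (Tr.br (Tr.br (Tr.leaf ⟨2,[7,8],0⟩) (Tr.leaf ⟨21,[30,31],0⟩))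
 (Tr.leaf ⟨2,[14],31⟩))
)
 (Tr.br (Tr.br (Tr.br (Tr.leaf ⟨2,[5,6],0⟩) (Tr.leaf ⟨24,[28,29],0⟩))
 (Tr.leaf ⟨8,[12],0⟩))
 (Tr.br (Tr.br (Tr.leaf ⟨7,[9],1⟩) (Tr.leaf ⟨25,[32,33],0⟩))
 (Tr.leaf ⟨14,[15,16,17,18,19,20,21,22,23,24,25],0⟩))
)
)

noncomputable def c_ax : Tr Ax := (Tr.br (Tr.br (Tr.br (Tr.br (Tr.br (Tr.leaf ⟨[1,1,1],[⟨0,1,true⟩,⟨0,2,true⟩,⟨1,2,true⟩],[],0⟩) (Tr.leaf ⟨[0x8000000,0x1000000],[⟨0,1,false⟩],[],0⟩)) (Tr.br (Tr.leaf ⟨[128],[],[⟨7,[(0,true)]⟩],1⟩) (Tr.leaf ⟨[0x100000000],[],[⟨22,[(0,false)]⟩,⟨16,[(0,true)]⟩],0⟩)))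
 (Tr.br (Tr.br (Tr.leaf ⟨[4,4,4,4,4],[⟨0,1,true⟩,⟨1,2,true⟩,⟨2,3,true⟩,⟨3,4,true⟩,⟨4,0,true⟩,⟨0,2,false⟩,⟨0,3,false⟩,⟨1,3,false⟩,⟨1,4,false⟩,⟨2,4,false⟩],[],0⟩) (Tr.leaf ⟨[0x20000000,0x40000],[⟨0,1,true⟩],[],0⟩)) (Tr.br (Tr.leaf ⟨[256,128],[⟨0,1,true⟩],[],0⟩) (Tr.leaf ⟨[0x800000000,0x8000000],[⟨0,1,false⟩],[],0⟩)))
)
 (Tr.br (Tr.br (Tr.br (Tr.leaf ⟨[2,2],[⟨0,1,false⟩],[⟨1,[(0,true),(1,false)]⟩,⟨1,[(0,false),(1,true)]⟩],0⟩) (Tr.leaf ⟨[0x10000000],[],[⟨21,[(0,false)]⟩,⟨18,[(0,true)]⟩],0⟩)) (Tr.br (Tr.leaf ⟨[128,128,128,128],[⟨0,3,true⟩,⟨0,1,true⟩,⟨1,2,true⟩,⟨2,3,true⟩],[],0⟩) (Tr.leaf ⟨[0x200000000,65536],[⟨0,1,true⟩],[],0⟩)))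
 (Tr.br (Tr.br (Tr.leaf ⟨[64,64],[⟨0,1,true⟩],[],0⟩) (Tr.leaf ⟨[0x80000000,0x2000000],[⟨0,1,false⟩],[],0⟩)) (Tr.leaf ⟨[8192],[],[],0⟩))
)
)
 (Tr.br (Tr.br (Tr.br (Tr.br (Tr.leaf ⟨[1,1,1,1,1,1],[⟨0,1,true⟩,⟨0,2,true⟩,⟨0,3,false⟩,⟨0,4,true⟩,⟨0,5,false⟩,⟨1,2,false⟩,⟨1,3,false⟩,⟨1,4,false⟩,⟨1,5,false⟩,⟨2,3,true⟩,⟨2,4,false⟩,⟨2,5,false⟩,⟨3,4,false⟩,⟨3,5,false⟩,⟨4,5,true⟩],[],0⟩) (Tr.leaf ⟨[0x8000000,0x100000],[⟨0,1,true⟩],[],0⟩)) (Tr.br (Tr.leaf ⟨[4,128,128,128],[⟨0,1,true⟩,⟨0,2,true⟩,⟨0,3,true⟩],[],0⟩) (Tr.leaf ⟨[0x200000000,0x400000],[⟨0,1,false⟩],[],0⟩)))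
 (Tr.br (Tr.br (Tr.leaf ⟨[32,32],[⟨0,1,true⟩],[],0⟩) (Tr.leaf ⟨[0x40000000],[],[⟨25,[(0,false)]⟩,⟨17,[(0,true)]⟩],0⟩)) (Tr.br (Tr.leaf ⟨[128],[],[],0⟩) (Tr.leaf ⟨[0x800000000,0x800000],[⟨0,1,true⟩],[],0⟩)))
)
 (Tr.br (Tr.br (Tr.br (Tr.leaf ⟨[8,4],[⟨0,1,true⟩],[],0⟩) (Tr.leaf ⟨[0x20000000,0x200000],[⟨0,1,false⟩],[],0⟩)) (Tr.br (Tr.leaf ⟨[128,128,128,128,128,128],[⟨0,5,true⟩,⟨0,1,true⟩,⟨1,2,true⟩,⟨2,3,true⟩,⟨3,4,true⟩,⟨4,5,true⟩],[],0⟩) (Tr.leaf ⟨[0x400000000],[],[⟨27,[(0,false)]⟩,⟨23,[(0,true)]⟩],0⟩)))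
 (Tr.br (Tr.br (Tr.leaf ⟨[],[],[⟨7,[]⟩],0⟩) (Tr.leaf ⟨[0x80000000,0x20000],[⟨0,1,true⟩],[],0⟩)) (Tr.leaf ⟨[0x4000000],[],[⟨24,[(0,false)]⟩,⟨20,[(0,true)]⟩],0⟩))
)
)
)

noncomputable def c_sc : Tr Sc := (Tr.leaf ⟨[2],[0]⟩)
noncomputable def c_T : Tab := ⟨36,c_ty,c_ev,c_ax,c_sc⟩
def c_S0 : St := ⟨0,0,0,0,0⟩
def c_G0 : Ctx := ⟨2,0,7,0,0,c_S0,none⟩
def c_G1 : Ctx := ⟨5,1,15,1,0,c_S0,none⟩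
def c_G2 : Ctx := ⟨5,1,31,1,0,c_S0,none⟩
def c_S1 : St := ⟨5,0x7000000007000000007000000007000000007,0x9000000000000000000000000000000140000000000000000000000000000000a0000000000000000000000000000000500000000000000000000000000000012,0x60000000000000000000000000000000300000000000000000000000000000011000000000000000000000000000000180000000000000000000000000000000c,31⟩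
def c_G3 : Ctx := ⟨5,1,15,1,0,c_S1,none⟩
def c_G4 : Ctx := ⟨7,3,127,1,0,c_S0,none⟩
def c_G5 : Ctx := ⟨9,5,3999,1,0,c_S0,none⟩
def c_G6 : Ctx := ⟨9,5,8095,1,0,c_S0,none⟩
def c_G7 : Ctx := ⟨9,5,16287,1,0,c_S0,none⟩
def c_S2 : St := ⟨1,135,0,0,1⟩
def c_G8 : Ctx := ⟨9,5,8095,1,0,c_S2,none⟩
def c_G9 : Ctx := ⟨9,5,16287,1,384,c_S0,none⟩
def c_G10 : Ctx := ⟨10,13,8095,1,0,c_S2,none⟩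
def c_G11 : Ctx := ⟨12,29,8095,1,0,c_S2,none⟩
def c_G12 : Ctx := ⟨13,61,8095,1,0,c_S2,none⟩
def c_G13 : Ctx := ⟨13,61,8095,1,4096,c_S2,none⟩
def c_G14 : Ctx := ⟨14,61,24479,1,4096,c_S2,none⟩
def c_G15 : Ctx := ⟨14,61,24479,1,12288,c_S2,none⟩
def c_G16 : Ctx := ⟨15,65,15,1,0,c_S1,none⟩
def c_G17 : Ctx := ⟨26,193,15,1,0,c_S1,none⟩
def c_G18 : Ctx := ⟨26,193,15,1,32768,c_S1,none⟩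
def c_G19 : Ctx := ⟨28,449,0x3800f,1,32768,c_S1,none⟩
def c_G20 : Ctx := ⟨30,961,0x1f800f,1,32768,c_S1,none⟩
def c_G21 : Ctx := ⟨32,1985,0xff800f,1,32768,c_S1,none⟩
def c_G22 : Ctx := ⟨34,4033,0x7ff800f,1,32768,c_S1,none⟩
def c_G23 : Ctx := ⟨36,8129,0x3fff800f,1,32768,c_S1,none⟩
def c_h16 : List HP := [⟨[0],[],(HT.leaf 3)⟩]

end Pool.Agent.Lib.MP_849b2e_co
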