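import Pool.Agent.Lib.MP_849b2e_co.Fast
import Pool.Agent.Lib.MP_849b2e_co.Tc
import Pool.Agent.Lib.MP_849b2e_co.RApply
import Pool.Agent.Lib.MP_849b2e_co.TbS
import Pool.Agent.Lib.MP_849b2e_co.Tc1

set_option maxRecDepth 100000
set_option linter.all false
namespace Pool.Agent.Lib.MP_849b2e_co

noncomputable def c_o0c : Pq := Pq.nil
theorem c_o0 : AllRef c_T (pureCtx 0 2) (twinObl [0] 0 [1]) :=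
  chkPq_sound c_o0c _ (by decide +kernel)
noncomputable def c_o1c : Pq := Pq.nil
theorem c_o1 : AllRef c_T c_G0 (blockObl [1] [0] [1] [1]) :=
  chkPq_sound c_o1c _ (by decide +kernel)
noncomputable def c_o2c : Pq := (Pq.cons (Pq.L [] 7 (Pf.C 0 32896))
 Pq.nil)
theorem c_o2 : AllRef c_T c_G2 [triP 2] :=
  chkPq_sound c_o2c _ (by decide +kernel)
noncomputable def c_o3c : Pq := (Pq.cons (Pq.L [] 32767 (Pf.C 1 0x2840608080))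
 (Pq.cons (Pq.L [] 1 (Pf.C 5 128))
 (Pq.cons (Pq.L [] 1 (Pf.C 6 128))
 Pq.nil)))
theorem c_o3 : AllRef c_T c_G4 (applyObl bS_T 3 [5,6] [1,2] []) :=
  chkPq_sound c_o3c _ (by decide +kernel)
noncomputable def c_o4c : Pq := (Pq.cons (Pq.L [] 1 (Pf.W 8 1 [] [0] (Pf.cons (Pf.B 2 0 (Pf.W 8 1 [2] [0] (Pf.cons (Pf.B 3 2 (Pf.B 3 0 (Pf.W 8 2 [1] [0,3] (Pf.cons (Pf.B 4 3 (Pf.B 4 1 (Pf.B 4 0 (Pf.W 8 3 [1] [0,2,4] (Pf.cons (Pf.B 5 2 (Pf.B 5 1 (Pf.B 5 4 (Pf.B 5 0 (Pf.C 1 0x2020a0c001) (Pf.W 8 4 [2] [0,1,3,5] (Pf.cons (Pf.B 6 5 (Pf.B 6 3 (Pf.B 6 2 (Pf.B 6 1 (Pf.B 6 0 (Pf.W 8 5 [3] [0,1,2,4,6] (Pf.cons (Pf.B 7 4 (Pf.B 7 3 (Pf.B 7 2 (Pf.B 7 1 (Pf.B 7 0 (Pf.B 7 6 (Pf.W 2 384 [] [1,2,4,5,6,7] (Pf.cons (Pf.B 8 5 (Pf.B 8 1 (Pf.B 8 7 (Pf.B 8 6 (Pf.B 8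 4 (Pf.B 8 2 (Pf.C 1 0x3850404400) (Pf.C 1 0x3040604402)) (Pf.C 1 0x3850820080)) (Pf.C 1 0x3850c20080)) (Pf.B 8 6 (Pf.B 8 4 (Pf.B 8 2 (Pf.C 1 0x2021000181) (Pf.C 1 0x3040604402)) (Pf.C 1 0x800c10388)) (Pf.B 8 4 (Pf.C 1 0x800818388) (Pf.C 0 98824)))) (Pf.C 0 136)) (Pf.C 0 648)) (Pf.cons (Pf.B 8 5 (Pf.B 8 1 (Pf.B 8 7 (Pf.B 8 6 (Pf.B 8 4 (Pf.B 8 2 (Pf.C 1 0x3850404403) (Pf.C 1 0x3040004402)) (Pf.C 1 0x3850820083)) (Pf.C 1 0x3850c20083)) (Pf.B 8 6 (Pf.B 8 4 (Pf.B 8 2 (Pf.C 1 0x202100c001) (Pf.C 1 0x3040004402)) (Pf.C 1 0x830c10388)) (Pf.B 8 4 (Pf.C 1 0x830818388) (Pf.C 0 98824)))) (Pf.C 0 49288)) (Pf.C 0 49800)) Pf.nil))) (Pf.W 2 384 [] [1,2,4,5,6,7] (Pf.cons (Pf.B 8 5 (Pf.B 8 1 (Pf.B 8 7 (Pf.B 8 6 (Pf.C 1 0x3071000185) (Pf.T 8 0 (Pf.cons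 (Pf.C 4 0x60e14008) (Pf.cons (Pf.C 3 8) Pf.nil)))) (Pf.B 8 6 (Pf.B 8 4 (Pf.C 1 0x1850818407) (Pf.B 8 2 (Pf.T 8 0 (Pf.cons (Pf.C 4 0x40404008) (Pf.cons (Pf.C 3 8) Pf.nil))) (Pf.C 0 65800))) (Pf.C 0 0x1c308))) (Pf.C 0 136)) (Pf.C 0 648)) (Pf.cons (Pf.B 8 5 (Pf.B 8 1 (Pf.B 8 7 (Pf.B 8 6 (Pf.C 1 0x307100c005) (Pf.B 8 2 (Pf.C 1 0x3850404403) (Pf.T 8 0 (Pf.cons (Pf.C 9 0xc0c108) (Pf.cons (Pf.C 3 264) Pf.nil))))) (Pf.B 8 6 (Pf.B 8 4 (Pf.C 1 0x50818407) (Pf.T 8 0 (Pf.cons (Pf.C 9 0xe10188) (Pf.cons (Pf.C 3 392) Pf.nil)))) (Pf.C 0 0x1c308))) (Pf.C 0 49288)) (Pf.C 0 49800)) Pf.nil)))) (Pf.C 0 81927)) (Pf.C 9 0x608381)) (Pf.C 9 0x804382)) (Pf.C 0 82311)) (Pf.C 9 0xc08384)) Pf.nil)) (Pf.C 9 0xa04300)) (Pf.C 9 0x608301)) (Pf.C 0 65798)) (Pf.C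 9 0xa04303)) (Pf.C 11 0x202020c286)) Pf.nil))) (Pf.C 4 0x30208205)) (Pf.C 0 49285)) (Pf.C 9 0x804282)) Pf.nil)) (Pf.W 8 3 [1] [0,2,4] (Pf.cons (Pf.B 5 2 (Pf.B 5 1 (Pf.B 5 4 (Pf.B 5 0 (Pf.W 8 4 [2] [0,1,3,5] (Pf.cons (Pf.B 6 5 (Pf.B 6 3 (Pf.B 6 2 (Pf.B 6 1 (Pf.B 6 0 (Pf.W 8 5 [3] [0,1,2,4,6] (Pf.cons (Pf.B 7 4 (Pf.B 7 3 (Pf.B 7 2 (Pf.B 7 1 (Pf.B 7 0 (Pf.B 7 6 (Pf.W 2 256 [] [1,3,4,5,6,7] (Pf.cons (Pf.B 8 4 (Pf.B 8 1 (Pf.B 8 7 (Pf.B 8 6 (Pf.B 8 5 (Pf.B 8 3 (Pf.C 1 0x3040604400) (Pf.C 1 0x3850404403)) (Pf.C 1 0x3040a20080)) (Pf.B 8 5 (Pf.B 8 3 (Pf.C 1 0x2831000101) (Pf.C 1 0x3850404403)) (Pf.C 1 0x800e14308))) (Pf.B 8 6 (Pf.C 1 0x3040e20080) (Pf.B 8 5 (Pf.C 1 0x800a1c308) (Pf.C 0 0x1c288)))) (Pf.C 0 136)) (Pf.C 0 520)) (Pf.cons (Pf.B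 8 4 (Pf.B 8 1 (Pf.B 8 7 (Pf.B 8 6 (Pf.B 8 5 (Pf.B 8 3 (Pf.C 1 0x3040604402) (Pf.C 1 0x3850004403)) (Pf.C 1 0x3040a20082)) (Pf.B 8 5 (Pf.B 8 3 (Pf.C 1 0x2831008001) (Pf.C 1 0x3850004403)) (Pf.C 1 0x820e14308))) (Pf.B 8 6 (Pf.C 1 0x3040e20082) (Pf.B 8 5 (Pf.C 1 0x820a1c308) (Pf.C 0 0x1c288)))) (Pf.C 0 32904)) (Pf.C 0 33288)) Pf.nil))) (Pf.W 2 256 [] [1,3,4,5,6,7] (Pf.cons (Pf.B 8 4 (Pf.B 8 1 (Pf.B 8 7 (Pf.B 8 6 (Pf.C 1 0x3861000104) (Pf.B 8 5 (Pf.C 1 0x1040a1c406) (Pf.B 8 3 (Pf.T 8 0 (Pf.cons (Pf.C 4 0x50604008) (Pf.cons (Pf.C 3 8) Pf.nil))) (Pf.C 0 82312)))) (Pf.B 8 6 (Pf.T 8 0 (Pf.cons (Pf.C 4 0x70c10008) (Pf.cons (Pf.C 3 8) Pf.nil))) (Pf.C 0 0x1c308))) (Pf.C 0 136)) (Pf.C 0 520)) (Pf.cons (Pf.B 8 4 (Pf.B 8 1 (Pf.B 8 7 (Pf.B 8 6 (Pf.C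 1 0x3861008004) (Pf.B 8 5 (Pf.C 1 0x40a1c406) (Pf.T 8 0 (Pf.cons (Pf.C 9 0xc14108) (Pf.cons (Pf.C 3 264) Pf.nil))))) (Pf.B 8 6 (Pf.B 8 3 (Pf.C 1 0x3040604402) (Pf.T 8 0 (Pf.cons (Pf.C 9 0xe0c108) (Pf.cons (Pf.C 3 264) Pf.nil)))) (Pf.C 0 0x1c308))) (Pf.C 0 32904)) (Pf.C 0 33288)) Pf.nil)))) (Pf.C 9 0x804380)) (Pf.C 9 0x608381)) (Pf.C 9 0x804382)) (Pf.C 0 82311)) (Pf.C 9 0xc08384)) Pf.nil)) (Pf.C 0 65542)) (Pf.C 9 0x608301)) (Pf.C 0 65798)) (Pf.C 9 0xa04303)) (Pf.C 11 0x202020c286)) Pf.nil)) (Pf.C 9 0x804280)) (Pf.C 4 0x30208205)) (Pf.C 0 49285)) (Pf.C 9 0x804282)) Pf.nil))) (Pf.C 0 32900)) (Pf.C 10 0x404184)) Pf.nil)) (Pf.C 0 16387)) (Pf.C 0 16643)) Pf.nil)) (Pf.C 0 16386)) Pf.nil)))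
 Pq.nil)
theorem c_o4 : AllRef c_T c_G5 [⟨[[8],[7]],[⟨0,1,true⟩],[],[]⟩] :=
  chkPq_sound c_o4c _ (by decide +kernel)
noncomputable def c_o5c : Pq := (Pq.cons (Pq.L [] 0 (Pf.C 13 0))
 (Pq.cons (Pq.L [] 0 (Pf.W 7 0 [] [] (Pf.cons (Pf.C 13 1) Pf.nil)))
 Pq.nil))
theorem c_o5 : AllRef c_T c_G7 (List.map pat1 [7,8]) :=
  chkPq_sound c_o5c _ (by decide +kernel)
noncomputable def c_o6c : Pq := Pq.nil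
theorem c_o6 : AllRef c_T c_G8 (ptObl 7 PT.kid []) :=
  chkPq_sound c_o6c _ (by decide +kernel)
noncomputable def c_o7c : Pq := Pq.nil
theorem c_o7 : AllRef c_T c_G10 (ptObl 9 (PT.br 0 PT.kid PT.kid) []) :=
  chkPq_sound c_o7c _ (by decide +kernel)
noncomputable def c_o8c : Pq := (Pq.cons (Pq.L [0] 0 (Pf.C 12 1))
 Pq.nil)
theorem c_o8 : AllRef c_T c_G11 (ptObl 8 (PT.br 0 PT.kid PT.ref) []) :=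
  chkPq_sound c_o8c _ (by decide +kernel)
noncomputable def c_o9c : Pq := (Pq.cons (Pq.L [] 0 (Pf.X 0 1))
 (Pq.cons (Pq.L [] 1 (Pf.C 12 130))
 (Pq.cons (Pq.L [] 1 (Pf.C 12 130))
 Pq.nil)))
theorem c_o9 : AllRef c_T c_G12 (closeObl (c_T.sc.get 0) false [10,11,12] [0,0,0] [0] [0] 3) :=
  chkPq_sound c_o9c _ (by decide +kernel)
noncomputable def c_o10c : Pq := (Pq.cons (Pq.L [0] 0 (Pf.C 9 0x608080))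
 Pq.nil)
theorem c_o10 : AllRef c_T c_G13 (hitObl [11] c_h16) :=
  chkPq_sound c_o10c _ (by decide +kernel)
noncomputable def c_o11c : Pq := (Pq.cons (Pq.L [] 0 (Pf.C 14 1))
 Pq.nil)
theorem c_o11 : AllRef c_T c_G14 (List.map pat1 [13]) :=
  chkPq_sound c_o11c _ (by decide +kernel)
noncomputable def c_o12c : Pq := (Pq.cons (Pq.L [] 7 (Pf.C 9 0x80c101))
 Pq.nil)
theorem c_o12 : AllRef c_T c_G15 (applyObl TD2 1 [10] [0] []) :=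
  chkPq_sound c_o12c _ (by decide +kernel)
noncomputable def c_o13c : Pq := Pq.nil
theorem c_o13 : AllRef c_T c_G3 (ptObl 2 PT.kid []) :=
  chkPq_sound c_o13c _ (by decide +kernel)
noncomputable def c_o14c : Pq := (Pq.cons (Pq.L [3,4] 0 (Pf.C 0 65925))
 (Pq.cons (Pq.L [2,3] 0 (Pf.C 0 49413))
 (Pq.cons (Pq.L [3,4] 0 (Pf.C 0 65925))
 (Pq.cons (Pq.L [1,2] 0 (Pf.C 0 32901))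
 (Pq.cons (Pq.L [0,4] 0 (Pf.C 0 65541))
 (Pq.cons (Pq.L [0,4] 0 (Pf.C 0 65541))
 (Pq.cons (Pq.L [0,4] 0 (Pf.C 0 65541))
 (Pq.cons (Pq.L [2,3] 0 (Pf.C 0 49413))
 (Pq.cons (Pq.L [0,1] 0 (Pf.C 0 16389))
 Pq.nil)))))))))
theorem c_o14 : AllRef c_T c_G16 (ptObl 14 (PT.br 0 (PT.br 1 (PT.br 2 (PT.br 3 (PT.br 4 PT.kid PT.kid) (PT.br 4 PT.kid PT.ref)) (PT.br 3 (PT.br 4 PT.kid PT.kid) PT.ref)) (PT.br 2 (PT.br 3 (PT.br 4 PT.kid PT.kid) (PT.br 4 PT.kid PT.ref)) PT.ref)) (PT.br 1 (PT.br 2 (PT.br 3 (PT.br 4 PT.kid PT.ref) (PT.br 4 PT.kid PT.ref)) (PT.br 3 (PT.br 4 PT.kid PT.ref) PT.ref)) PT.ref)) []) :=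
  chkPq_sound c_o14c _ (by decide +kernel)
noncomputable def c_o15c : Pq := (Pq.cons (Pq.L [] 0 (Pf.X 0 5))
 (Pq.cons (Pq.L [] 0 (Pf.X 1 5))
 (Pq.cons (Pq.L [] 0 (Pf.X 2 5))
 (Pq.cons (Pq.L [] 0 (Pf.X 3 5))
 (Pq.cons (Pq.L [] 0 (Pf.X 4 5))
 (Pq.cons (Pq.L [0,2,3,4] 1 (Pf.C 1 0x1030c14004))
 (Pq.cons (Pq.L [0,2,3,4] 1 (Pf.C 1 0x40c14103))
 (Pq.cons (Pq.L [1,2,3,4] 1 (Pf.C 1 0x2030c14082))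
 (Pq.cons (Pq.L [0,1,2,3] 1 (Pf.C 1 0x10c14182))
 (Pq.cons (Pq.L [0,1,2,3] 1 (Pf.C 1 0x1820c14001))
 (Pq.cons (Pq.L [0,1,2,3] 1 (Pf.C 1 0x1820c14001))
 (Pq.cons (Pq.L [0,1,2,4] 1 (Pf.C 1 0x2000c14101))
 (Pq.cons (Pq.L [0,1,3,4] 1 (Pf.C 1 0x1840c14080))
 (Pq.cons (Pq.L [0,1,2,4] 1 (Pf.C 1 0x1010c14200))
 (Pq.cons (Pq.L [0,1,3,4] 1 (Pf.C 1 0x1840c14080))
 Pq.nil)))))))))))))))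
theorem c_o15 : AllRef c_T c_G17 (closeObl (c_T.sc.get 0) false [15,16,17,18,19,20,21,22,23,24,25] [0,0,0,0,0,0,0,0,0,0,0] [0,1,2,3,4] [0,0,0,0,0] 2046) :=
  chkPq_sound c_o15c _ (by decide +kernel)
noncomputable def c_o16c : Pq := (Pq.cons (Pq.L [1,2,3,4] 2 (Pf.C 1 0x3840208283))
 (Pq.cons (Pq.L [4] 1 (Pf.C 0 98821))
 (Pq.cons (Pq.L [] 1 (Pf.C 26 773))
 (Pq.cons (Pq.L [0,1,2,3] 1 (Pf.C 1 0x10c14182))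
 (Pq.cons (Pq.L [4] 1 (Pf.C 0 98821))
 (Pq.cons (Pq.L [0,1,2,4] 2 (Pf.C 1 0x3840404280))
 (Pq.cons (Pq.L [4] 1 (Pf.C 0 98821))
 (Pq.cons (Pq.L [0,1,2,3] 1 (Pf.C 1 0x1820c14001))
 (Pq.cons (Pq.L [0,1,2,4] 2 (Pf.C 1 0x3840404280))
 (Pq.cons (Pq.L [4] 1 (Pf.C 0 98821))
 (Pq.cons (Pq.L [0,1,2,4] 1 (Pf.W 27 5 [] [0,1,2,4,6] (Pf.cons (Pf.B 8 6 (Pf.C 1 0x2860420004) (Pf.C 0 66312)) (Pf.cons (Pf.B 8 6 (Pf.C 1 0x1010818405) (Pf.C 0 82696)) Pf.nil))))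
 (Pq.cons (Pq.L [0,1,2,4] 2 (Pf.C 1 0x3840404280))
 (Pq.cons (Pq.L [3] 1 (Pf.C 0 98693))
 (Pq.cons (Pq.L [1] 1 (Pf.C 0 98437))
 (Pq.cons (Pq.L [] 2 (Pf.C 25 901))
 (Pq.cons (Pq.L [0,1,2,4] 2 (Pf.C 1 0x2000a08381))
 (Pq.cons (Pq.L [1] 1 (Pf.C 0 98437))
 (Pq.cons (Pq.L [3] 1 (Pf.C 0 98693))
 (Pq.cons (Pq.L [0,1,3,4] 2 (Pf.W 15 5 [] [0,1,3,4,7] (Pf.cons (Pf.B 8 7 (Pf.C 1 0x284021c403) (Pf.C 0 50056)) (Pf.cons (Pf.B 8 7 (Pf.C 1 0x1870a20001) (Pf.C 0 17288)) Pf.nil))))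
 (Pq.cons (Pq.L [1] 1 (Pf.C 0 98437))
 (Pq.cons (Pq.L [3] 1 (Pf.C 0 98693))
 (Pq.cons (Pq.L [] 2 (Pf.C 28 647))
 (Pq.cons (Pq.L [1] 1 (Pf.C 0 98437))
 (Pq.cons (Pq.L [] 1 (Pf.C 29 646))
 (Pq.cons (Pq.L [0,1,3,4] 1 (Pf.B 7 6 (Pf.W 24 6 [] [0,1,3,4,5] (Pf.cons (Pf.B 8 5 (Pf.C 1 0x3050220203) (Pf.C 0 49800)) (Pf.cons (Pf.B 8 5 (Pf.C 1 0x800614406) (Pf.C 0 98952)) Pf.nil))) (Pf.C 0 775)))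
 (Pq.cons (Pq.L [0,1,2,3,4] 2 (Pf.B 7 6 (Pf.W 24 7 [] [1,2,3,4,5] (Pf.cons (Pf.B 8 5 (Pf.C 1 0x3820814401) (Pf.C 0 17032)) (Pf.cons (Pf.B 8 5 (Pf.C 1 0x850e20184) (Pf.C 0 66184)) Pf.nil))) (Pf.C 0 775)))
 (Pq.cons (Pq.L [0] 1 (Pf.C 0 98309))
 (Pq.cons (Pq.L [2] 1 (Pf.C 0 98565))
 (Pq.cons (Pq.L [] 2 (Pf.C 22 901))
 (Pq.cons (Pq.L [0] 1 (Pf.C 0 98309))
 (Pq.cons (Pq.L [2] 1 (Pf.C 0 98565))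
 (Pq.cons (Pq.L [0,1,3,4] 2 (Pf.C 1 0x1840a04380))
 (Pq.cons (Pq.L [0] 1 (Pf.C 0 98309))
 (Pq.cons (Pq.L [2] 1 (Pf.C 0 98565))
 (Pq.cons (Pq.L [0,2,3,4] 2 (Pf.W 27 5 [] [0,2,3,4,7] (Pf.cons (Pf.B 8 7 (Pf.C 1 0x283001c402) (Pf.C 0 33672)) (Pf.cons (Pf.B 8 7 (Pf.C 1 0x1070a20200) (Pf.C 0 904)) Pf.nil))))
 (Pq.cons (Pq.L [0] 1 (Pf.C 0 98309))
 Pq.nil))))))))))))))))))))))))))))))))))))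
theorem c_o16 : AllRef c_T c_G23 (splitObl [16,35,32] [17,30,33,18,31,28,26,20,29,27,34,23]) :=
  chkPq_sound c_o16c _ (by decide +kernel)
noncomputable def c_o17c : Pq := (Pq.cons (Pq.L [] 7 (Pf.C 0 0x1c305))
 (Pq.cons (Pq.L [0] 1 (Pf.C 0 98309))
 (Pq.cons (Pq.L [1] 1 (Pf.C 0 98437))
 (Pq.cons (Pq.L [4] 1 (Pf.C 0 98821))
 (Pq.cons (Pq.L [0,1,4] 7 (Pf.C 1 0x3840c04280))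
 (Pq.cons (Pq.L [0,1] 63 (Pf.C 1 0x4070c14080))
 (Pq.cons (Pq.L [0,4] 63 (Pf.C 1 0x4070c14200))
 (Pq.cons (Pq.L [0,1] 63 (Pf.C 1 0x4070c14001))
 Pq.nil))))))))
theorem c_o17 : AllRef c_T c_G23 (applyObl c1_T 8 [16,35,32] [1,2,3] []) :=
  chkPq_sound c_o17c _ (by decide +kernel)
noncomputable def c_o18c : Pq := (Pq.cons (Pq.L [0,1,2,3] 2 (Pf.C 1 0x3830004282))
 (Pq.cons (Pq.L [] 1 (Pf.C 23 773))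
 (Pq.cons (Pq.L [3] 1 (Pf.C 0 98693))
 (Pq.cons (Pq.L [0,1,2,3] 2 (Pf.C 1 0x3830004282))
 (Pq.cons (Pq.L [0,1,2,4] 1 (Pf.C 1 0x2000c14101))
 (Pq.cons (Pq.L [3] 1 (Pf.C 0 98693))
 (Pq.cons (Pq.L [0,1,2,3] 2 (Pf.C 1 0x3830004282))
 (Pq.cons (Pq.L [3] 1 (Pf.C 0 98693))
 (Pq.cons (Pq.L [0,1,2,4] 1 (Pf.C 1 0x1010c14200))
 (Pq.cons (Pq.L [0,1,2,3,4] 1 (Pf.B 7 6 (Pf.W 21 6 [] [0,2,3,4,5] (Pf.cons (Pf.B 8 5 (Pf.C 1 0x3050020182) (Pf.C 0 33416)) (Pf.cons (Pf.B 8 5 (Pf.C 1 0x40414406) (Pf.C 0 98952)) Pf.nil))) (Pf.C 0 17159)))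
 (Pq.cons (Pq.L [1] 1 (Pf.C 0 98437))
 (Pq.cons (Pq.L [0,1,2,3] 2 (Pf.B 7 6 (Pf.W 21 7 [] [0,1,2,3,5] (Pf.cons (Pf.B 8 5 (Pf.C 1 0x3810614400) (Pf.C 0 648)) (Pf.cons (Pf.B 8 5 (Pf.C 1 0x50e20103) (Pf.C 0 49800)) Pf.nil))) (Pf.C 0 17159)))
 (Pq.cons (Pq.L [4] 1 (Pf.C 0 98821))
 (Pq.cons (Pq.L [1] 1 (Pf.C 0 98437))
 (Pq.cons (Pq.L [] 2 (Pf.C 19 901))
 (Pq.cons (Pq.L [4] 1 (Pf.C 0 98821))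
 (Pq.cons (Pq.L [1] 1 (Pf.C 0 98437))
 (Pq.cons (Pq.L [0,1,2,3] 2 (Pf.C 1 0x1820a00381))
 (Pq.cons (Pq.L [2] 1 (Pf.C 0 98565))
 (Pq.cons (Pq.L [] 2 (Pf.C 22 901))
 (Pq.cons (Pq.L [0] 1 (Pf.C 0 98309))
 (Pq.cons (Pq.L [2] 1 (Pf.C 0 98565))
 (Pq.cons (Pq.L [0,1,3,4] 2 (Pf.C 1 0x1840a04380))
 (Pq.cons (Pq.L [0] 1 (Pf.C 0 98309))
 (Pq.cons (Pq.L [2] 1 (Pf.C 0 98565))
 (Pq.cons (Pq.L [] 2 (Pf.C 25 647))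
 (Pq.cons (Pq.L [0] 1 (Pf.C 0 98309))
 Pq.nil)))))))))))))))))))))))))))
theorem c_o18 : AllRef c_T c_G23 (splitObl [17,30,33] [18,31,28,26,20,29,27,34,23]) :=
  chkPq_sound c_o18c _ (by decide +kernel)
noncomputable def c_o19c : Pq := (Pq.cons (Pq.L [] 7 (Pf.C 0 0x1c305))
 (Pq.cons (Pq.L [0] 1 (Pf.C 0 98309))
 (Pq.cons (Pq.L [1] 1 (Pf.C 0 98437))
 (Pq.cons (Pq.L [3] 1 (Pf.C 0 98693))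
 (Pq.cons (Pq.L [1,2,3] 7 (Pf.C 1 0x3830c04282))
 (Pq.cons (Pq.L [0,1] 63 (Pf.C 1 0x4070c14080))
 (Pq.cons (Pq.L [2,3] 63 (Pf.C 1 0x4070c14182))
 (Pq.cons (Pq.L [0,1] 63 (Pf.C 1 0x4070c14001))
 Pq.nil))))))))
theorem c_o19 : AllRef c_T c_G23 (applyObl c1_T 8 [17,30,33] [1,2,3] []) :=
  chkPq_sound c_o19c _ (by decide +kernel)
noncomputable def c_o20c : Pq := (Pq.cons (Pq.L [2] 1 (Pf.C 0 98565))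
 (Pq.cons (Pq.L [0,1,2,4] 2 (Pf.C 1 0x3820800281))
 (Pq.cons (Pq.L [] 1 (Pf.C 20 773))
 (Pq.cons (Pq.L [2] 1 (Pf.C 0 98565))
 (Pq.cons (Pq.L [0,1,2,4] 2 (Pf.C 1 0x3820800281))
 (Pq.cons (Pq.L [0,1,3,4] 1 (Pf.C 1 0x1840c14080))
 (Pq.cons (Pq.L [4] 1 (Pf.C 0 98821))
 (Pq.cons (Pq.L [1] 1 (Pf.C 0 98437))
 (Pq.cons (Pq.L [] 2 (Pf.C 19 901))
 (Pq.cons (Pq.L [4] 1 (Pf.C 0 98821))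
 (Pq.cons (Pq.L [1] 1 (Pf.C 0 98437))
 (Pq.cons (Pq.L [0,1,2,3] 2 (Pf.C 1 0x1820a00381))
 (Pq.cons (Pq.L [0,1,2,4] 2 (Pf.B 7 6 (Pf.W 18 7 [] [0,1,2,4,5] (Pf.cons (Pf.B 8 5 (Pf.C 1 0x3800414404) (Pf.C 0 66184)) (Pf.cons (Pf.B 8 5 (Pf.C 1 0x2050e20082) (Pf.C 0 33416)) Pf.nil))) (Pf.C 0 775)))
 (Pq.cons (Pq.L [0,1,2,3,4] 1 (Pf.B 7 6 (Pf.W 18 6 [] [1,2,3,4,5] (Pf.cons (Pf.B 8 5 (Pf.C 1 0x3050820101) (Pf.C 0 17032)) (Pf.cons (Pf.B 8 5 (Pf.C 1 0x2030214406) (Pf.C 0 98952)) Pf.nil))) (Pf.C 0 775)))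
 (Pq.cons (Pq.L [0] 1 (Pf.C 0 98309))
 (Pq.cons (Pq.L [] 2 (Pf.C 16 901))
 (Pq.cons (Pq.L [3] 1 (Pf.C 0 98693))
 (Pq.cons (Pq.L [0] 1 (Pf.C 0 98309))
 Pq.nil))))))))))))))))))
theorem c_o20 : AllRef c_T c_G23 (splitObl [18,31,28] [26,20,29,27,34,23]) :=
  chkPq_sound c_o20c _ (by decide +kernel)
noncomputable def c_o21c : Pq := (Pq.cons (Pq.L [] 7 (Pf.C 0 0x1c305))
 (Pq.cons (Pq.L [0] 1 (Pf.C 0 98309))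
 (Pq.cons (Pq.L [1] 1 (Pf.C 0 98437))
 (Pq.cons (Pq.L [2] 1 (Pf.C 0 98565))
 (Pq.cons (Pq.L [2,3,4] 7 (Pf.C 1 0x3040e08283))
 (Pq.cons (Pq.L [0,1] 63 (Pf.C 1 0x4070c14080))
 (Pq.cons (Pq.L [2,3] 63 (Pf.C 1 0x4070c14103))
 (Pq.cons (Pq.L [0,1] 63 (Pf.C 1 0x4070c14001))
 Pq.nil))))))))
theorem c_o21 : AllRef c_T c_G23 (applyObl c1_T 8 [18,31,28] [1,2,3] []) :=
  chkPq_sound c_o21c _ (by decide +kernel)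
noncomputable def c_o22c : Pq := (Pq.cons (Pq.L [2] 1 (Pf.C 0 98565))
 (Pq.cons (Pq.L [0,1,2,3,4] 2 (Pf.B 7 6 (Pf.W 15 7 [] [0,1,3,4,5] (Pf.cons (Pf.B 8 5 (Pf.C 1 0x3840214403) (Pf.C 0 49800)) (Pf.cons (Pf.B 8 5 (Pf.C 1 0x1850e20001) (Pf.C 0 17032)) Pf.nil))) (Pf.C 0 33543)))
 (Pq.cons (Pq.L [0,1,2,3] 1 (Pf.B 7 6 (Pf.W 15 6 [] [0,1,2,3,5] (Pf.cons (Pf.B 8 5 (Pf.C 1 0x3050620080) (Pf.C 0 648)) (Pf.cons (Pf.B 8 5 (Pf.C 1 0x1820014406) (Pf.C 0 98952)) Pf.nil))) (Pf.C 0 33543)))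
 (Pq.cons (Pq.L [] 1 (Pf.C 17 773))
 (Pq.cons (Pq.L [1] 1 (Pf.C 0 98437))
 (Pq.cons (Pq.L [0,1,3,4] 2 (Pf.C 1 0x1840e04280))
 (Pq.cons (Pq.L [] 2 (Pf.C 16 901))
 (Pq.cons (Pq.L [3] 1 (Pf.C 0 98693))
 (Pq.cons (Pq.L [0] 1 (Pf.C 0 98309))
 Pq.nil)))))))))
theorem c_o22 : AllRef c_T c_G23 (splitObl [26,20,29] [27,34,23]) :=
  chkPq_sound c_o22c _ (by decide +kernel)
noncomputable def c_o23c : Pq := (Pq.cons (Pq.L [] 7 (Pf.C 0 0x1c305))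
 (Pq.cons (Pq.L [0] 1 (Pf.C 0 98309))
 (Pq.cons (Pq.L [1] 1 (Pf.C 0 98437))
 (Pq.cons (Pq.L [2] 1 (Pf.C 0 98565))
 (Pq.cons (Pq.L [0,1,4] 7 (Pf.C 1 0x3840c04280))
 (Pq.cons (Pq.L [0,1] 63 (Pf.C 1 0x4070c14080))
 (Pq.cons (Pq.L [0,4] 63 (Pf.C 1 0x4070c14200))
 (Pq.cons (Pq.L [0,1] 63 (Pf.C 1 0x4070c14001))
 Pq.nil))))))))
theorem c_o23 : AllRef c_T c_G23 (applyObl c1_T 8 [26,20,29] [1,2,3] []) :=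
  chkPq_sound c_o23c _ (by decide +kernel)
noncomputable def c_o24c : Pq := (Pq.cons (Pq.L [] 7 (Pf.C 0 0x1c305))
 (Pq.cons (Pq.L [0] 1 (Pf.C 0 98309))
 (Pq.cons (Pq.L [1] 1 (Pf.C 0 98437))
 (Pq.cons (Pq.L [2] 1 (Pf.C 0 98565))
 (Pq.cons (Pq.L [0,1,4] 7 (Pf.C 1 0x3840c04280))
 (Pq.cons (Pq.L [0,1] 63 (Pf.C 1 0x4070c14080))
 (Pq.cons (Pq.L [0,4] 63 (Pf.C 1 0x4070c14200))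
 (Pq.cons (Pq.L [0,1] 63 (Pf.C 1 0x4070c14001))
 Pq.nil))))))))
theorem c_o24 : AllRef c_T c_G23 (applyObl c1_T 8 [27,34,23] [1,2,3] []) :=
  chkPq_sound c_o24c _ (by decide +kernel)

end Pool.Agent.Lib.MP_849b2e_co
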