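import Pool.Agent.Lib.MP_849b2e_co.AllR
import Pool.Agent.Lib.MP_849b2e_co.Tc
import Pool.Agent.Lib.MP_849b2e_co.Oc_0
import Pool.Agent.Lib.MP_849b2e_co.LbS
import Pool.Agent.Lib.MP_849b2e_co.Lc1

set_option maxRecDepth 100000
set_option linter.all false
namespace Pool.Agent.Lib.MP_849b2e_co

theorem c_n41  : Bd c_T c_G23 [27,34,23] :=
  r_apply lem_c1 [1,2,3] [] (by decide +kernel) c_o24
theorem c_n40  : Bd c_T c_G23 [26,20,29] :=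
  r_apply lem_c1 [1,2,3] [] (by decide +kernel) c_o23
theorem c_n39  : Bd c_T c_G23 [26,20,29,27,34,23] :=
  r_split [26,20,29] [27,34,23] (by decide +kernel) c_o22 c_n40 c_n41
theorem c_n38  : Bd c_T c_G23 [18,31,28] :=
  r_apply lem_c1 [1,2,3] [] (by decide +kernel) c_o21
theorem c_n37  : Bd c_T c_G23 [18,31,28,26,20,29,27,34,23] :=
  r_split [18,31,28] [26,20,29,27,34,23] (by decide +kernel) c_o20 c_n38 c_n39
theorem c_n36  : Bd c_T c_G23 [17,30,33] :=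
  r_apply lem_c1 [1,2,3] [] (by decide +kernel) c_o19
theorem c_n35  : Bd c_T c_G23 [17,30,33,18,31,28,26,20,29,27,34,23] :=
  r_split [17,30,33] [18,31,28,26,20,29,27,34,23] (by decide +kernel) c_o18 c_n36 c_n37
theorem c_n34  : Bd c_T c_G23 [16,35,32] :=
  r_apply lem_c1 [1,2,3] [] (by decide +kernel) c_o17
theorem c_n33  : Bd c_T c_G23 [16,17,18,26,27,20,30,31,34,35,23,28,29,32,33] :=
  r_split [16,35,32] [17,30,33,18,31,28,26,20,29,27,34,23] (by decide +kernel) c_o16 c_n34 c_n35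
theorem c_n32  : Bd c_T c_G23 [16,17,18,26,27,20,30,31,22,23,28,29,32,33] :=
  r_act [12] [16,17,18,26,27,20,30,31,34,35,23,28,29,32,33] (by decide +kernel) c_n33
theorem c_n31  : Bd c_T c_G22 [16,17,18,26,27,20,30,31,22,23,28,29,32,33] :=
  r_def 22 0 [23] [27] ⟨34,[13],[28,29,30],[]⟩ c_G23 [16,17,18,26,27,20,30,31,22,23,28,29,32,33] (by decide +kernel) c_n32
theorem c_n30  : Bd c_T c_G22 [16,17,18,26,27,20,30,31,22,23,28,29,25] :=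
  r_act [11] [16,17,18,26,27,20,30,31,22,23,28,29,32,33] (by decide +kernel) c_n31
theorem c_n29  : Bd c_T c_G21 [16,17,18,26,27,20,30,31,22,23,28,29,25] :=
  r_def 25 0 [16] [22] ⟨32,[12],[25,26,27],[]⟩ c_G22 [16,17,18,26,27,20,30,31,22,23,28,29,25] (by decide +kernel) c_n30
theorem c_n28  : Bd c_T c_G21 [16,17,18,26,27,20,21,22,23,28,29,25] :=
  r_act [10] [16,17,18,26,27,20,30,31,22,23,28,29,25] (by decide +kernel) c_n29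
theorem c_n27  : Bd c_T c_G20 [16,17,18,26,27,20,21,22,23,28,29,25] :=
  r_def 21 0 [17] [25] ⟨30,[11],[22,23,24],[]⟩ c_G21 [16,17,18,26,27,20,21,22,23,28,29,25] (by decide +kernel) c_n28
theorem c_n26  : Bd c_T c_G20 [16,17,18,26,27,20,21,22,23,24,25] :=
  r_act [9] [16,17,18,26,27,20,21,22,23,28,29,25] (by decide +kernel) c_n27
theorem c_n25  : Bd c_T c_G19 [16,17,18,26,27,20,21,22,23,24,25] :=
  r_def 24 0 [18] [21] ⟨28,[10],[19,20,21],[]⟩ c_G20 [16,17,18,26,27,20,21,22,23,24,25] (by decide +kernel) c_n26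
theorem c_n24  : Bd c_T c_G19 [16,17,18,19,20,21,22,23,24,25] :=
  r_act [8] [16,17,18,26,27,20,21,22,23,24,25] (by decide +kernel) c_n25
theorem c_n23  : Bd c_T c_G18 [16,17,18,19,20,21,22,23,24,25] :=
  r_def 19 0 [20] [24] ⟨26,[9],[16,17,18],[]⟩ c_G19 [16,17,18,19,20,21,22,23,24,25] (by decide +kernel) c_n24
theorem c_n22  : Bd c_T c_G17 [15,16,17,18,19,20,21,22,23,24,25] :=
  r_close false 0 [6,7] [15,16,17,18,19,20,21,22,23,24,25] [0,0,0,0,0,0,0,0,0,0,0] [0,1,2,3,4] [0,0,0,0,0] 2046 ⟨26,[],[],[]⟩ c_G18 [16,17,18,19,20,21,22,23,24,25] (by decide +kernel) c_o15 c_n23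
theorem c_n21  : Bd c_T c_G17 [2] :=
  r_act [6,7] [15,16,17,18,19,20,21,22,23,24,25] (by decide +kernel) c_n22
theorem c_n20  : Bd c_T c_G16 [2] :=
  r_psplit 14 [] (PT.br 0 (PT.br 1 (PT.br 2 (PT.br 3 (PT.br 4 PT.kid PT.kid) (PT.br 4 PT.kid PT.ref)) (PT.br 3 (PT.br 4 PT.kid PT.kid) PT.ref)) (PT.br 2 (PT.br 3 (PT.br 4 PT.kid PT.kid) (PT.br 4 PT.kid PT.ref)) PT.ref)) (PT.br 1 (PT.br 2 (PT.br 3 (PT.br 4 PT.kid PT.ref) (PT.br 4 PT.kid PT.ref)) (PT.br 3 (PT.br 4 PT.kid PT.ref) PT.ref)) PT.ref)) ⟨15,[8],[],[]⟩ c_G17 [2] (by decide +kernel) c_o14 c_n21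
theorem c_n19  : Bd c_T c_G3 [2] :=
  r_psplit 2 [0,1,2,3,4] PT.kid ⟨14,[7],[],[]⟩ c_G16 [2] (by decide +kernel) c_o13 c_n20
theorem c_n18  : Bd c_T c_G15 [10] :=
  r_apply lem_D2 [0] [] (by decide +kernel) c_o12
theorem c_n17  : Bd c_T c_G14 [10,13] :=
  r_kill [13] ⟨14,[],[],[]⟩ c_G15 [10] (by decide +kernel) c_o11 c_n18
theorem c_n16  : Bd c_T c_G13 [10,11] :=
  r_hit [11] c_h16 ⟨13,[],[15],[]⟩ c_G14 [10,13] (by decide +kernel) c_o10 c_n17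
theorem c_n15  : Bd c_T c_G12 [10,11,12] :=
  r_close false 0 [2,3,4,5] [10,11,12] [0,0,0] [0] [0] 3 ⟨13,[],[],[]⟩ c_G13 [10,11] (by decide +kernel) c_o9 c_n16
theorem c_n14  : Bd c_T c_G12 [7,8] :=
  r_act [3,4,5] [10,11,12] (by decide +kernel) c_n15
theorem c_n13  : Bd c_T c_G11 [7,8] :=
  r_psplit 8 [] (PT.br 0 PT.kid PT.ref) ⟨12,[6],[],[]⟩ c_G12 [7,8] (by decide +kernel) c_o8 c_n14
theorem c_n12  : Bd c_T c_G10 [7,8] :=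
  r_psplit 9 [] (PT.br 0 PT.kid PT.kid) ⟨10,[5],[],[]⟩ c_G11 [7,8] (by decide +kernel) c_o7 c_n13
theorem c_n11  : Bd c_T c_G8 [7,8] :=
  r_psplit 7 [0] PT.kid ⟨9,[4],[],[]⟩ c_G10 [7,8] (by decide +kernel) c_o6 c_n12
theorem c_n10  : Bd c_T c_G9 [] :=
  r_empty (by decide +kernel) 
theorem c_n9  : Bd c_T c_G7 [7,8] :=
  r_kill [7,8] ⟨9,[],[],[]⟩ c_G9 [] (by decide +kernel) c_o5 c_n10
theorem c_n8  : Bd c_T c_G6 [7,8] :=
  r_case [7] [] [] ⟨9,[],[14],[]⟩ c_G7 [7,8] c_G8 [7,8] (by decide +kernel) c_n9 c_n11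
theorem c_n7  : Bd c_T c_G5 [7,8] :=
  r_learn [[8],[7]] [⟨0,1,true⟩] ⟨9,[],[13],[]⟩ c_G6 [7,8] (by decide +kernel) c_o4 c_n8
theorem c_n6  : Bd c_T c_G5 [2] :=
  r_act [2] [7,8] (by decide +kernel) c_n7
theorem c_n5  : Bd c_T c_G4 [5,6] :=
  r_apply lem_bS [1,2] [] (by decide +kernel) c_o3
theorem c_n4  : Bd c_T c_G4 [2] :=
  r_act [1] [5,6] (by decide +kernel) c_n5
theorem c_n3  : Bd c_T c_G2 [2] :=
  r_odd 2 ⟨5,[2],[6,7],[]⟩ c_G4 [2] ⟨7,[3],[8,9,0,10,11,12],[]⟩ c_G5 [2] (by decide +kernel) c_o2 c_n4 c_n6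
theorem c_n2  : Bd c_T c_G1 [2] :=
  r_case [2,2,2,2,2] [⟨0,1,true⟩,⟨1,2,true⟩,⟨2,3,true⟩,⟨3,4,true⟩,⟨4,0,true⟩,⟨0,2,false⟩,⟨0,3,false⟩,⟨1,3,false⟩,⟨1,4,false⟩,⟨2,4,false⟩] [] ⟨5,[],[5],[]⟩ c_G2 [2] c_G3 [2] (by decide +kernel) c_n3 c_n19
theorem c_n1  : Bd c_T c_G0 [1] :=
  r_block [0] [1] [1] ⟨2,[1],[4],[1]⟩ c_G1 [2] (by decide +kernel) c_o1 c_n2
theorem c_n0  : Bd c_T (pureCtx 0 2) (pureAct 0) :=
  show Bd _ _ [0] from r_twin 0 [1] ⟨1,[],[3],[]⟩ c_G0 [1] (by decide +kernel) c_o0 c_n1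
theorem lem_c  : Lem c_T 0 2 := ⟨by decide +kernel, c_n0⟩

end Pool.Agent.Lib.MP_849b2e_co
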