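import Pool.Agent.Lib.MP_849b2e_co.Rules

set_option maxRecDepth 100000
set_option linter.all false
namespace Pool.Agent.Lib.MP_849b2e_co

noncomputable def cur_ty : Tr Ty := (Tr.br (Tr.br (Tr.br (Tr.br (Tr.br (Tr.br (Tr.leaf ⟨1,0,0,0,0⟩) (Tr.leaf ⟨0x100000425,0x20000180a,0,1,0⟩)) (Tr.leaf ⟨65683,780,0,0,0⟩)) (Tr.br (Tr.br (Tr.leaf ⟨275,652,0,0,0⟩) (Tr.leaf ⟨0x10800002049,0x2040000c006,1,0,0⟩)) (Tr.leaf ⟨0x1102049,0x220c006,0,1,0⟩)))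
 (Tr.br (Tr.br (Tr.br (Tr.leaf ⟨19,12,0,0,0⟩) (Tr.leaf ⟨0x10c0000093,0x200000030c,0,1,1⟩)) (Tr.leaf ⟨0x102049,0x20c006,0,1,0⟩)) (Tr.br (Tr.br (Tr.leaf ⟨4133,3082,0,0,0⟩) (Tr.leaf ⟨0x100200000425,0x20010000180a,1,0,0⟩)) (Tr.leaf ⟨0x10202049,0x2010c006,1,0,0⟩)))
)
 (Tr.br (Tr.br (Tr.br (Tr.br (Tr.leaf ⟨5,10,0,0,0⟩) (Tr.leaf ⟨0x400002049,0x80000c006,0,1,0⟩)) (Tr.leaf ⟨0x40425,6154,0,0,1⟩)) (Tr.br (Tr.br (Tr.leaf ⟨1061,6154,0,0,0⟩) (Tr.leaf ⟨0x400c0000093,0x8000000030c,0,1,1⟩)) (Tr.leaf ⟨0x40c0425,0x800180a,0,1,1⟩)))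
 (Tr.br (Tr.br (Tr.br (Tr.leaf ⟨73,6,0,0,0⟩) (Tr.leaf ⟨0x4100000425,0x820000180a,0,1,0⟩)) (Tr.leaf ⟨0x4c0425,0x80180a,0,1,1⟩)) (Tr.br (Tr.br (Tr.leaf ⟨16457,40966,0,0,0⟩) (Tr.leaf ⟨0x400400002049,0x80080000c006,0,1,0⟩)) (Tr.leaf ⟨0x40000093,780,0,0,1⟩)))
)
)
 (Tr.br (Tr.br (Tr.br (Tr.br (Tr.br (Tr.leaf ⟨3,12,0,0,0⟩) (Tr.leaf ⟨0x200000425,0x10000180a,1,0,0⟩)) (Tr.leaf ⟨0x20425,6154,0,0,0⟩)) (Tr.br (Tr.br (Tr.leaf ⟨531,396,0,0,0⟩) (Tr.leaf ⟨0x20800002049,0x1040000c006,1,0,0⟩)) (Tr.leaf ⟨0x2102049,0x120c006,0,1,0⟩)))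
 (Tr.br (Tr.br (Tr.br (Tr.leaf ⟨37,10,0,0,0⟩) (Tr.leaf ⟨0x20c0000093,0x100000030c,0,1,1⟩)) (Tr.leaf ⟨0x202049,0x10c006,1,0,0⟩)) (Tr.br (Tr.br (Tr.leaf ⟨8265,49158,0,0,0⟩) (Tr.leaf ⟨0x200200000425,0x10010000180a,1,0,0⟩)) (Tr.leaf ⟨0x20202049,0x1010c006,1,0,0⟩)))
)
 (Tr.br (Tr.br (Tr.br (Tr.br (Tr.leaf ⟨9,6,0,0,0⟩) (Tr.leaf ⟨0x800002049,0x40000c006,1,0,0⟩)) (Tr.leaf ⟨0xc0425,6154,0,1,1⟩)) (Tr.br (Tr.br (Tr.leaf ⟨2085,5130,0,0,0⟩) (Tr.leaf ⟨0x800c0000093,0x4000000030c,0,1,1⟩)) (Tr.leaf ⟨0x80c0425,0x400180a,0,1,1⟩)))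
 (Tr.br (Tr.br (Tr.br (Tr.leaf ⟨147,780,0,0,0⟩) (Tr.leaf ⟨0x8100000425,0x420000180a,0,1,0⟩)) (Tr.leaf ⟨0x8c0425,0x40180a,0,1,1⟩)) (Tr.br (Tr.br (Tr.leaf ⟨32841,24582,0,0,0⟩) (Tr.leaf ⟨0x800400002049,0x40080000c006,0,1,0⟩)) (Tr.leaf ⟨0xc0000093,780,0,1,1⟩)))
)
)
)

noncomputable def cur_ev : Tr Ev := (Tr.br (Tr.br (Tr.br (Tr.br (Tr.br (Tr.leaf ⟨5,[10,11,12],0⟩) (Tr.leaf ⟨31,[42,43],0⟩)) (Tr.leaf ⟨21,[28,29],0⟩))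
 (Tr.br (Tr.leaf ⟨13,[20,21],0⟩) (Tr.leaf ⟨13,[34,35],0⟩))
)
 (Tr.br (Tr.br (Tr.br (Tr.leaf ⟨10,[18],1⟩) (Tr.leaf ⟨34,[46,47],0⟩)) (Tr.leaf ⟨30,[31],0⟩))
 (Tr.br (Tr.leaf ⟨20,[24,25],0⟩) (Tr.leaf ⟨32,[38,39],0⟩))
)
)
 (Tr.br (Tr.br (Tr.br (Tr.br (Tr.leaf ⟨6,[13,14,15],0⟩) (Tr.leaf ⟨33,[44,45],0⟩)) (Tr.leaf ⟨7,[30],1⟩))
 (Tr.br (Tr.leaf ⟨19,[22,23],0⟩) (Tr.leaf ⟨31,[36,37],0⟩))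
)
 (Tr.br (Tr.br (Tr.leaf ⟨18,[19],0⟩) (Tr.leaf ⟨10,[32,33],0⟩))
 (Tr.br (Tr.leaf ⟨19,[26,27],0⟩) (Tr.leaf ⟨35,[40,41],0⟩))
)
)
)

noncomputable def cur_ax : Tr Ax := (Tr.br (Tr.br (Tr.br (Tr.br (Tr.br (Tr.br (Tr.leaf ⟨[1,1,1],[⟨0,1,true⟩,⟨0,2,true⟩,⟨1,2,true⟩],[],0⟩) (Tr.leaf ⟨[0x8000000000,0x1000000000],[⟨0,1,true⟩],[],0⟩)) (Tr.leaf ⟨[128],[],[⟨10,[(0,false)]⟩,⟨13,[(0,true)]⟩],0⟩)) (Tr.br (Tr.br (Tr.leaf ⟨[4,8,8,4,8],[⟨0,1,true⟩,⟨0,2,true⟩,⟨0,3,false⟩,⟨0,4,false⟩,⟨1,2,false⟩,⟨1,3,false⟩,⟨1,4,false⟩,⟨2,3,false⟩,⟨2,4,false⟩,⟨3,4,true⟩],[],0⟩) (Tr.leaf ⟨[0x400000000000],[],[⟨42,[(0,true)]⟩],0⟩)) (Tr.leaf ⟨[0x4000000],[],[⟨20,[(0,true)]⟩],0⟩)))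
 (Tr.br (Tr.br (Tr.br (Tr.leaf ⟨[2,2],[⟨0,1,true⟩],[],0⟩) (Tr.leaf ⟨[0x80000000000,0x800000000],[⟨0,1,false⟩],[],0⟩)) (Tr.leaf ⟨[1024,0x20000,8192],[⟨0,2,true⟩,⟨1,2,false⟩],[⟨13,[(0,false),(1,true)]⟩],0⟩)) (Tr.br (Tr.leaf ⟨[4096,128],[⟨0,1,false⟩],[],0⟩) (Tr.leaf ⟨[0x1000000000],[],[⟨33,[(0,false)]⟩,⟨34,[(0,true)]⟩],0⟩)))
)
 (Tr.br (Tr.br (Tr.br (Tr.br (Tr.leaf ⟨[8,8],[⟨0,1,true⟩],[],0⟩) (Tr.leaf ⟨[0x20000000000,0x1000000000],[⟨0,1,false⟩],[],0⟩)) (Tr.leaf ⟨[128,65536,8192],[⟨0,2,false⟩,⟨1,2,true⟩],[⟨10,[(0,false),(1,true)]⟩,⟨13,[(0,true),(1,false)]⟩],0⟩)) (Tr.br (Tr.leaf ⟨[16,16],[⟨0,1,false⟩],[⟨5,[(0,true),(1,false)]⟩,⟨5,[(0,false),(1,true)]⟩,⟨6,[(0,true),(1,false)]⟩,⟨6,[(0,false),(1,true)]⟩],0⟩)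 (Tr.leaf ⟨[0x10000000],[],[⟨26,[(0,false)]⟩],0⟩)))
 (Tr.br (Tr.br (Tr.br (Tr.leaf ⟨[4,2,2,4,2],[⟨0,1,true⟩,⟨0,2,true⟩,⟨0,3,false⟩,⟨0,4,false⟩,⟨1,2,false⟩,⟨1,3,false⟩,⟨1,4,false⟩,⟨2,3,false⟩,⟨2,4,false⟩,⟨3,4,true⟩],[],0⟩) (Tr.leaf ⟨[0x100000000000],[],[⟨42,[(0,false)]⟩],0⟩)) (Tr.leaf ⟨[0x800000,0x200000],[⟨0,1,false⟩],[],0⟩)) (Tr.br (Tr.leaf ⟨[32768,8320],[⟨0,1,true⟩],[],0⟩) (Tr.leaf ⟨[0x2000000000,0x400000000],[⟨0,1,true⟩],[],0⟩)))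
)
)
 (Tr.br (Tr.br (Tr.br (Tr.br (Tr.br (Tr.leaf ⟨[1,1,1,1,1,1,1],[⟨0,1,false⟩,⟨0,2,false⟩,⟨0,3,false⟩,⟨0,4,false⟩,⟨0,5,false⟩,⟨0,6,false⟩,⟨1,2,true⟩,⟨1,3,true⟩,⟨1,4,true⟩,⟨1,5,false⟩,⟨1,6,false⟩,⟨2,3,false⟩,⟨2,4,false⟩,⟨2,5,false⟩,⟨2,6,false⟩,⟨3,4,false⟩,⟨3,5,false⟩,⟨3,6,false⟩,⟨4,5,true⟩,⟨4,6,false⟩,⟨5,6,true⟩],[],0⟩) (Tr.leaf ⟨[0x10000000000],[],[⟨36,[(0,false)]⟩],0⟩)) (Tr.leaf ⟨[8192],[],[⟨7,[(0,false)]⟩,⟨10,[(0,true)]⟩],0⟩)) (Tr.br (Tr.br (Tr.leaf ⟨[8,4,4,8,4],[⟨0,1,true⟩,⟨0,2,true⟩,⟨0,3,false⟩,⟨0,4,false⟩,⟨1,2,false⟩,⟨1,3,false⟩,⟨1,4,false⟩,⟨2,3,false⟩,⟨2,4,false⟩,⟨3,4,true⟩],[],0⟩) (Tr.leaf ⟨[0x800000000000,0x40000000000],[⟨0,1,true⟩],[],0⟩)) (Tr.leaf ⟨[0x8000000,0x100000],[⟨0,1,true⟩],[],0⟩)))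
 (Tr.br (Tr.br (Tr.br (Tr.leaf ⟨[2,4,8],[⟨0,1,false⟩,⟨0,2,false⟩,⟨1,2,false⟩],[],0⟩) (Tr.leaf ⟨[0x80000000000,0x100000000],[⟨0,1,true⟩],[],0⟩)) (Tr.leaf ⟨[0x400000],[],[⟨21,[(0,false)]⟩],0⟩)) (Tr.br (Tr.leaf ⟨[16384,9216],[⟨0,1,true⟩],[],0⟩) (Tr.leaf ⟨[0x2000000000,0x200000000],[⟨0,1,false⟩],[],0⟩)))
)
 (Tr.br (Tr.br (Tr.br (Tr.br (Tr.leaf ⟨[4,4],[⟨0,1,true⟩],[],0⟩) (Tr.leaf ⟨[0x40000000000],[],[⟨35,[(0,false)]⟩,⟨32,[(0,true)]⟩],0⟩)) (Tr.leaf ⟨[128,65536,1024],[⟨0,2,true⟩,⟨1,2,false⟩],[⟨10,[(0,false),(1,true)]⟩,⟨13,[(0,true),(1,false)]⟩],0⟩)) (Tr.br (Tr.leaf ⟨[2048,1152],[⟨0,1,true⟩],[],0⟩) (Tr.leaf ⟨[0x20000000,0x4000000],[⟨0,1,false⟩],[],0⟩)))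
 (Tr.br (Tr.br (Tr.br (Tr.leaf ⟨[8,2,2,8,2],[⟨0,1,true⟩,⟨0,2,true⟩,⟨0,3,false⟩,⟨0,4,false⟩,⟨1,2,false⟩,⟨1,3,false⟩,⟨1,4,false⟩,⟨2,3,false⟩,⟨2,4,false⟩,⟨3,4,true⟩],[],0⟩) (Tr.leaf ⟨[0x200000000000,0x40000000000],[⟨0,1,false⟩],[],0⟩)) (Tr.leaf ⟨[0x2000000,0x400000],[⟨0,1,true⟩],[],0⟩)) (Tr.br (Tr.leaf ⟨[8192],[],[⟨7,[(0,true)]⟩,⟨10,[(0,false)]⟩],0⟩) (Tr.leaf ⟨[0x4000000000],[],[⟨36,[(0,true)]⟩],0⟩)))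
)
)
)

noncomputable def cur_sc : Tr Sc := (Tr.leaf ⟨[7,10,13],[2,4,1]⟩)
noncomputable def cur_T : Tab := ⟨48,cur_ty,cur_ev,cur_ax,cur_sc⟩
def cur_S0 : St := ⟨0,0,0,0,0⟩
def cur_G0 : Ctx := ⟨7,0,2047,0,0,cur_S0,none⟩
def cur_G1 : Ctx := ⟨16,3,0x3ffff,1,0,cur_S0,none⟩
def cur_G2 : Ctx := ⟨16,3,0x3ffff,1,128,cur_S0,none⟩
def cur_S1 : St := ⟨1,65683,0,0,1⟩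
def cur_G3 : Ctx := ⟨17,3,0xfffff,1,0,cur_S1,none⟩
def cur_G4 : Ctx := ⟨16,3,0x3ffff,1,1152,cur_S0,none⟩
def cur_S2 : St := ⟨1,0x20425,0,0,1⟩
def cur_G5 : Ctx := ⟨18,3,0x13ffff,1,128,cur_S2,none⟩
def cur_G6 : Ctx := ⟨16,3,0x3ffff,1,9344,cur_S0,none⟩
def cur_G7 : Ctx := ⟨19,7,0x13ffff,1,128,cur_S2,none⟩
def cur_G8 : Ctx := ⟨20,15,0x13ffff,1,128,cur_S2,none⟩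
def cur_G9 : Ctx := ⟨22,31,0x13ffff,1,128,cur_S2,none⟩
def cur_G10 : Ctx := ⟨24,63,0x73ffff,1,128,cur_S2,none⟩
def cur_G11 : Ctx := ⟨24,63,0x73ffff,1,0x800080,cur_S2,none⟩
def cur_G12 : Ctx := ⟨26,127,0xf3ffff,1,0x800080,cur_S2,none⟩
def cur_G13 : Ctx := ⟨26,127,0xf3ffff,1,0x2800080,cur_S2,none⟩
def cur_G14 : Ctx := ⟨28,255,0x3f3ffff,1,0x2800080,cur_S2,none⟩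
def cur_G15 : Ctx := ⟨30,511,0xff3ffff,1,0x2800080,cur_S2,none⟩
def cur_G16 : Ctx := ⟨30,511,0xff3ffff,1,0x2a800080,cur_S2,none⟩
def cur_G17 : Ctx := ⟨31,515,0xfffff,1,0,cur_S1,none⟩
def cur_G18 : Ctx := ⟨32,1539,0xfffff,1,0,cur_S1,none⟩
def cur_G19 : Ctx := ⟨34,3587,0xfffff,1,0,cur_S1,none⟩
def cur_G20 : Ctx := ⟨36,7683,0xfffff,1,0,cur_S1,none⟩
def cur_G21 : Ctx := ⟨38,15875,0x700fffff,1,0,cur_S1,none⟩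
def cur_G22 : Ctx := ⟨38,15875,0x700fffff,1,0x2000000000,cur_S1,none⟩
def cur_G23 : Ctx := ⟨40,32259,0x1f00fffff,1,0x2000000000,cur_S1,none⟩
def cur_G24 : Ctx := ⟨42,65027,0x7f00fffff,1,0x2000000000,cur_S1,none⟩
def cur_G25 : Ctx := ⟨42,65027,0x7f00fffff,1,0x2a000000000,cur_S1,none⟩
def cur_G26 : Ctx := ⟨44,0x1fe03,0x3ff00fffff,1,0x2a000000000,cur_S1,none⟩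
def cur_G27 : Ctx := ⟨46,0x3fe03,0xfff00fffff,1,0x2a000000000,cur_S1,none⟩
def cur_G28 : Ctx := ⟨48,0x7fe03,0x3fff00fffff,1,0x2a000000000,cur_S1,none⟩
def cur_G29 : Ctx := ⟨48,0x7fe03,0x3fff00fffff,1,0xaaa000000000,cur_S1,none⟩

end Pool.Agent.Lib.MP_849b2e_co
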