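import Pool.Agent.Lib.MP_849b2e_co.Fast
import Pool.Agent.Lib.MP_849b2e_co.Tcur
import Pool.Agent.Lib.MP_849b2e_co.TbD

set_option maxRecDepth 100000
set_option linter.all false
namespace Pool.Agent.Lib.MP_849b2e_co

noncomputable def cur_o0c : Pq := (Pq.cons (Pq.L [] 2 (Pf.C 4 256))
 (Pq.cons (Pq.L [] 2 (Pf.C 3 256))
 (Pq.cons (Pq.L [] 2 (Pf.C 2 256))
 Pq.nil)))
theorem cur_o0 : AllRef cur_T (pureCtx 3 10) (twinObl [1,2,3] 0 [6,5,3]) :=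
  chkPq_sound cur_o0c _ (by decide +kernel)
noncomputable def cur_o1c : Pq := (Pq.cons (Pq.L [] 1 (Pf.C 4 128))
 (Pq.cons (Pq.L [] 1 (Pf.C 3 128))
 (Pq.cons (Pq.L [] 1 (Pf.C 2 128))
 (Pq.cons (Pq.L [] 1 (Pf.C 4 128))
 (Pq.cons (Pq.L [] 1 (Pf.C 3 128))
 (Pq.cons (Pq.L [] 1 (Pf.C 2 128))
 Pq.nil))))))
theorem cur_o1 : AllRef cur_T cur_G0 (blockObl [4,5,6] [2,4,1] [6,5,3] [6,5,3]) :=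
  chkPq_sound cur_o1c _ (by decide +kernel)
noncomputable def cur_o2c : Pq := Pq.nil
theorem cur_o2 : AllRef cur_T cur_G1 (extObl 7 [] []) :=
  chkPq_sound cur_o2c _ (by decide +kernel)
noncomputable def cur_o3c : Pq := Pq.nil
theorem cur_o3 : AllRef cur_T cur_G2 (extObl 10 [] []) :=
  chkPq_sound cur_o3c _ (by decide +kernel)
noncomputable def cur_o4c : Pq := (Pq.cons (Pq.L [] 0 (Pf.W 15 0 [] [] Pf.nil))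
 Pq.nil)
theorem cur_o4 : AllRef cur_T cur_G4 (List.map pat1 [13]) :=
  chkPq_sound cur_o4c _ (by decide +kernel)
noncomputable def cur_o5c : Pq := Pq.nil
theorem cur_o5 : AllRef cur_T cur_G5 (ptObl 10 PT.kid []) :=
  chkPq_sound cur_o5c _ (by decide +kernel)
noncomputable def cur_o6c : Pq := (Pq.cons (Pq.L [0] 0 (Pf.C 3 1))
 Pq.nil)
theorem cur_o6 : AllRef cur_T cur_G7 (ptObl 18 (PT.br 0 PT.kid PT.ref) []) :=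
  chkPq_sound cur_o6c _ (by decide +kernel)
noncomputable def cur_o7c : Pq := Pq.nil
theorem cur_o7 : AllRef cur_T cur_G8 (ptObl 13 (PT.br 0 PT.kid PT.kid) []) :=
  chkPq_sound cur_o7c _ (by decide +kernel)
noncomputable def cur_o8c : Pq := (Pq.cons (Pq.L [] 0 (Pf.X 0 1))
 (Pq.cons (Pq.L [] 1 (Pf.C 3 257))
 (Pq.cons (Pq.L [0] 1 (Pf.W 17 1 [] [0,2] (Pf.cons (Pf.B 3 2 (Pf.B 3 0 (Pf.T 3 2 (Pf.cons (Pf.T 3 3 (Pf.cons (Pf.T 3 5 (Pf.cons (Pf.W 21 3 [] [0,1,2] (Pf.cons (Pf.B 4 2 (Pf.C 22 514) (Pf.B 4 1 (Pf.C 9 0x30208004) (Pf.C 2 132))) Pf.nil)) (Pf.cons (Pf.W 20 16387 [] [2] (Pf.cons (Pf.B 4 1 (Pf.B 4 2 (Pf.T 4 4 (Pf.cons (Pf.C 22 514) Pf.nil)) (Pf.C 9 0x30200104)) (Pf.C 2 132)) Pf.nil)) Pf.nil))) Pf.nil)) Pf.nil)) (Pf.C 3 3)) (Pf.C 3 259))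 Pf.nil)))
 (Pq.cons (Pq.L [] 1 (Pf.C 22 130))
 Pq.nil))))
theorem cur_o8 : AllRef cur_T cur_G10 (closeObl (cur_T.sc.get 0) false [22,23,20,21] [1,1,2,2] [0] [1] 13) :=
  chkPq_sound cur_o8c _ (by decide +kernel)
noncomputable def cur_o9c : Pq := (Pq.cons (Pq.L [0] 0 (Pf.W 17 1 [] [0] (Pf.cons (Pf.T 2 2 (Pf.cons (Pf.T 2 3 (Pf.cons (Pf.T 2 5 (Pf.cons (Pf.C 23 257) Pf.nil)) Pf.nil)) Pf.nil)) Pf.nil)))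
 Pq.nil)
theorem cur_o9 : AllRef cur_T cur_G12 (List.map pat1 [25]) :=
  chkPq_sound cur_o9c _ (by decide +kernel)
noncomputable def cur_o10c : Pq := (Pq.cons (Pq.L [] 0 (Pf.X 0 1))
 (Pq.cons (Pq.L [] 1 (Pf.C 3 257))
 (Pq.cons (Pq.L [] 1 (Pf.C 25 130))
 (Pq.cons (Pq.L [0] 1 (Pf.T 2 5 (Pf.cons (Pf.W 21 2 [] [0,1] (Pf.cons (Pf.B 3 1 (Pf.W 26 1 [] [0,2,3] (Pf.cons (Pf.B 4 2 (Pf.B 4 3 (Pf.W 24 4 [] [0,1,3] (Pf.cons (Pf.B 5 3 (Pf.B 5 1 (Pf.C 8 0x5080c080) (Pf.C 2 133)) (Pf.C 2 389)) Pf.nil)) (Pf.W 24 4 [] [1,2,3] (Pf.cons (Pf.B 5 3 (Pf.B 5 2 (Pf.B 5 1 (Pf.C 8 0x1040c284) (Pf.C 2 133)) (Pf.C 25 642)) (Pf.C 2 389)) Pf.nil))) (Pf.C 3 260)) Pf.nil)) (Pf.C 2 131)) Pf.nil)) Pf.nil)))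
 (Pq.cons (Pq.L [] 0 (Pf.X 0 1))
 (Pq.cons (Pq.L [] 1 (Pf.C 27 130))
 (Pq.cons (Pq.L [] 1 (Pf.C 2 257))
 (Pq.cons (Pq.L [] 1 (Pf.C 2 257))
 Pq.nil))))))))
theorem cur_o10 : AllRef cur_T cur_G15 (closeObl (cur_T.sc.get 0) true [26,27,20,28,29] [1,1,2,2,2] [0] [1] 13) :=
  chkPq_sound cur_o10c _ (by decide +kernel)
noncomputable def cur_o11c : Pq := (Pq.cons (Pq.L [] 0x1fffff (Pf.C 1 0x1c305080c101))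
 (Pq.cons (Pq.L [] 1 (Pf.C 3 257))
 (Pq.cons (Pq.L [] 1 (Pf.C 2 257))
 Pq.nil)))
theorem cur_o11 : AllRef cur_T cur_G16 (applyObl bD_T 3 [19,20,21] [1,2,2] []) :=
  chkPq_sound cur_o11c _ (by decide +kernel)
noncomputable def cur_o12c : Pq := Pq.nil
theorem cur_o12 : AllRef cur_T cur_G3 (ptObl 7 PT.kid []) :=
  chkPq_sound cur_o12c _ (by decide +kernel)
noncomputable def cur_o13c : Pq := (Pq.cons (Pq.L [0] 0 (Pf.C 4 1))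
 Pq.nil)
theorem cur_o13 : AllRef cur_T cur_G17 (ptObl 30 (PT.br 0 PT.kid PT.ref) []) :=
  chkPq_sound cur_o13c _ (by decide +kernel)
noncomputable def cur_o14c : Pq := Pq.nil
theorem cur_o14 : AllRef cur_T cur_G18 (ptObl 10 (PT.br 0 PT.kid PT.kid) []) :=
  chkPq_sound cur_o14c _ (by decide +kernel)
noncomputable def cur_o15c : Pq := Pq.nil
theorem cur_o15 : AllRef cur_T cur_G19 (ptObl 13 (PT.br 0 PT.kid PT.kid) []) :=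
  chkPq_sound cur_o15c _ (by decide +kernel)
noncomputable def cur_o16c : Pq := (Pq.cons (Pq.L [0] 0 (Pf.W 16 0 [] [1] (Pf.cons (Pf.B 2 1 (Pf.T 2 11 (Pf.cons (Pf.W 10 128 [] [2] (Pf.cons (Pf.T 3 0 (Pf.cons (Pf.T 3 11 (Pf.cons (Pf.C 29 385) Pf.nil)) (Pf.cons (Pf.C 11 3) (Pf.cons (Pf.C 12 131) Pf.nil)))) (Pf.cons (Pf.T 3 0 (Pf.cons (Pf.T 3 11 (Pf.cons (Pf.W 19 49153 [] [] (Pf.cons (Pf.T 4 11 (Pf.cons (Pf.C 29 513) Pf.nil)) (Pf.cons (Pf.B 4 3 (Pf.C 5 65920) (Pf.C 0 16772)) Pf.nil))) Pf.nil)) (Pf.cons (Pf.C 11 131) (Pf.cons (Pf.C 12 3) Pf.nil)))) (Pf.cons (Pf.B 3 2 (Pf.C 5 49409) (Pf.T 3 1 (Pf.cons (Pf.T 3 12 (Pf.cons (Pf.W 18 49153 [] [] (Pf.cons (Pf.B 4 3 (Pf.C 5 49665) (Pf.C 0 388)) (Pf.cons (Pf.T 4 12 (Pf.cons (Pf.C 30 513) Pf.nil))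 Pf.nil))) Pf.nil)) (Pf.cons (Pf.C 13 259) (Pf.cons (Pf.C 14 3) Pf.nil))))) (Pf.cons (Pf.B 3 2 (Pf.C 5 49408) (Pf.T 3 1 (Pf.cons (Pf.T 3 12 (Pf.cons (Pf.C 30 385) Pf.nil)) (Pf.cons (Pf.C 13 259) (Pf.cons (Pf.C 14 131) Pf.nil))))) Pf.nil))))) Pf.nil)) (Pf.T 2 11 (Pf.cons (Pf.W 19 32769 [] [] (Pf.cons (Pf.T 3 11 (Pf.cons (Pf.C 29 385) Pf.nil)) (Pf.cons (Pf.B 3 2 (Pf.C 5 49408) (Pf.C 0 16643)) Pf.nil))) Pf.nil))) (Pf.cons (Pf.B 2 1 (Pf.T 2 12 (Pf.cons (Pf.W 18 32769 [] [] (Pf.cons (Pf.B 3 2 (Pf.C 5 33153) (Pf.C 0 259)) (Pf.cons (Pf.T 3 12 (Pf.cons (Pf.C 30 385) Pf.nil)) Pf.nil))) Pf.nil)) (Pf.T 2 12 (Pf.cons (Pf.W 17 2 [] [0,1] (Pf.cons (Pf.B 3 1 (Pf.B 3 0 (Pf.T 3 9 (Pf.cons (Pf.T 3 10 (Pf.cons (Pf.T 3 13 (Pf.cons (Pf.W 28 3 [] [0,1,2]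 (Pf.cons (Pf.B 4 2 (Pf.C 5 33283) (Pf.C 0 260)) (Pf.cons (Pf.B 4 2 (Pf.B 4 1 (Pf.C 7 0x30800082) (Pf.C 30 513)) (Pf.C 2 260)) Pf.nil))) (Pf.cons (Pf.W 18 32771 [] [1] (Pf.cons (Pf.B 4 2 (Pf.C 5 33283) (Pf.C 0 260)) (Pf.cons (Pf.B 4 2 (Pf.B 4 1 (Pf.C 7 0x30800082) (Pf.T 4 12 (Pf.cons (Pf.C 30 513) Pf.nil))) (Pf.C 2 260)) Pf.nil))) Pf.nil))) Pf.nil)) Pf.nil)) (Pf.C 4 3)) (Pf.C 4 131)) (Pf.cons (Pf.B 3 1 (Pf.B 3 0 (Pf.T 3 11 (Pf.cons (Pf.W 10 128 [] [3] (Pf.cons (Pf.T 4 0 (Pf.cons (Pf.T 4 11 (Pf.cons (Pf.C 29 513) Pf.nil)) (Pf.cons (Pf.C 11 4) (Pf.cons (Pf.C 12 132) Pf.nil)))) (Pf.cons (Pf.T 4 0 (Pf.cons (Pf.T 4 11 (Pf.cons (Pf.W 19 65537 [] [] (Pf.cons (Pf.T 5 11 (Pf.cons (Pf.C 29 641) Pf.nil)) (Pf.cons (Pf.B 5 4 (Pf.C 5 82432) (Pf.C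 0 16901)) Pf.nil))) Pf.nil)) (Pf.cons (Pf.C 11 132) (Pf.cons (Pf.C 12 4) Pf.nil)))) (Pf.cons (Pf.B 4 3 (Pf.C 5 65921) (Pf.T 4 1 (Pf.cons (Pf.T 4 12 (Pf.cons (Pf.W 18 65537 [] [] (Pf.cons (Pf.B 5 4 (Pf.C 5 66177) (Pf.C 0 517)) (Pf.cons (Pf.T 5 12 (Pf.cons (Pf.C 30 641) Pf.nil)) Pf.nil))) Pf.nil)) (Pf.cons (Pf.C 13 388) (Pf.cons (Pf.C 14 4) Pf.nil))))) (Pf.cons (Pf.B 4 3 (Pf.C 5 65920) (Pf.T 4 1 (Pf.cons (Pf.T 4 12 (Pf.cons (Pf.C 30 513) Pf.nil)) (Pf.cons (Pf.C 13 388) (Pf.cons (Pf.C 14 132) Pf.nil))))) Pf.nil))))) Pf.nil)) (Pf.C 0 32771)) (Pf.C 0 32899)) Pf.nil))) Pf.nil))) Pf.nil))))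
 Pq.nil)
theorem cur_o16 : AllRef cur_T cur_G21 (List.map pat1 [37]) :=
  chkPq_sound cur_o16c _ (by decide +kernel)
noncomputable def cur_o17c : Pq := (Pq.cons (Pq.L [] 0 (Pf.X 0 1))
 (Pq.cons (Pq.L [] 1 (Pf.C 32 130))
 (Pq.cons (Pq.L [] 1 (Pf.C 3 257))
 (Pq.cons (Pq.L [] 1 (Pf.C 3 257))
 (Pq.cons (Pq.L [0] 1 (Pf.C 5 16640))
 (Pq.cons (Pq.L [] 1 (Pf.W 33 1 [] [2] (Pf.cons (Pf.B 3 2 (Pf.C 5 16643) (Pf.C 32 386)) Pf.nil)))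
 (Pq.cons (Pq.L [] 0 (Pf.X 0 1))
 (Pq.cons (Pq.L [] 1 (Pf.C 34 130))
 (Pq.cons (Pq.L [] 1 (Pf.W 31 1 [] [2] (Pf.cons (Pf.B 3 2 (Pf.C 34 386) (Pf.C 0 16643)) Pf.nil)))
 (Pq.cons (Pq.L [0] 1 (Pf.C 0 32769))
 (Pq.cons (Pq.L [] 1 (Pf.C 2 257))
 (Pq.cons (Pq.L [] 1 (Pf.C 2 257))
 Pq.nil))))))))))))
theorem cur_o17 : AllRef cur_T cur_G24 (closeObl (cur_T.sc.get 0) false [36,38,39,33,34,40,41] [0,1,1,1,2,2,2] [0] [0] 59) :=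
  chkPq_sound cur_o17c _ (by decide +kernel)
noncomputable def cur_o18c : Pq := (Pq.cons (Pq.L [] 0 (Pf.X 0 1))
 (Pq.cons (Pq.L [] 1 (Pf.C 4 257))
 (Pq.cons (Pq.L [] 1 (Pf.C 37 130))
 (Pq.cons (Pq.L [0] 1 (Pf.T 2 13 (Pf.cons (Pf.W 38 1 [] [0,2] (Pf.cons (Pf.B 3 2 (Pf.W 35 3 [] [0,1,2] (Pf.cons (Pf.B 4 1 (Pf.C 5 65667) (Pf.C 0 132)) (Pf.cons (Pf.B 4 2 (Pf.B 4 1 (Pf.C 6 0x30808001) (Pf.C 3 132)) (Pf.C 37 514)) Pf.nil))) (Pf.C 4 259)) Pf.nil)) Pf.nil)))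
 (Pq.cons (Pq.L [0] 1 (Pf.T 2 13 (Pf.cons (Pf.W 40 1 [] [0,2] (Pf.cons (Pf.B 3 2 (Pf.W 35 3 [] [0,1,2] (Pf.cons (Pf.B 4 2 (Pf.C 36 514) (Pf.B 4 1 (Pf.C 7 0x30208004) (Pf.C 2 132))) (Pf.cons (Pf.B 4 1 (Pf.C 5 16896) (Pf.C 0 49284)) Pf.nil))) (Pf.C 4 259)) Pf.nil)) Pf.nil)))
 (Pq.cons (Pq.L [] 1 (Pf.C 36 130))
 (Pq.cons (Pq.L [] 0 (Pf.X 0 1))
 (Pq.cons (Pq.L [] 1 (Pf.C 39 130))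
 (Pq.cons (Pq.L [] 1 (Pf.C 3 257))
 (Pq.cons (Pq.L [] 1 (Pf.C 3 257))
 (Pq.cons (Pq.L [] 1 (Pf.W 40 1 [] [2] (Pf.cons (Pf.B 3 2 (Pf.C 39 386) (Pf.C 0 16643)) Pf.nil)))
 (Pq.cons (Pq.L [0] 1 (Pf.C 0 32769))
 (Pq.cons (Pq.L [] 0 (Pf.X 0 1))
 (Pq.cons (Pq.L [] 1 (Pf.C 41 130))
 (Pq.cons (Pq.L [0] 1 (Pf.C 5 32896))
 (Pq.cons (Pq.L [] 1 (Pf.W 38 1 [] [2] (Pf.cons (Pf.B 3 2 (Pf.C 5 32899) (Pf.C 41 386)) Pf.nil)))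
 (Pq.cons (Pq.L [] 1 (Pf.C 2 257))
 (Pq.cons (Pq.L [] 1 (Pf.C 2 257))
 Pq.nil))))))))))))))))))
theorem cur_o18 : AllRef cur_T cur_G28 (closeObl (cur_T.sc.get 0) true [42,43,32,44,45,46,47,35] [0,0,1,1,1,2,2,2] [0] [0] 173) :=
  chkPq_sound cur_o18c _ (by decide +kernel)
noncomputable def cur_o19c : Pq := (Pq.cons (Pq.L [] 0x1fffff (Pf.C 1 0x1c305080c101))
 (Pq.cons (Pq.L [] 1 (Pf.C 4 257))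
 (Pq.cons (Pq.D 0 (Pq.cons (Pq.D 1 (Pq.cons (Pq.L [] 1 (Pf.C 3 257))
 (Pq.cons (Pq.L [] 1 (Pf.C 3 257))
 (Pq.cons (Pq.L [0] 1 (Pf.T 1 14 (Pf.cons (Pf.T 2 18 (Pf.cons (Pf.W 31 1 [] [0,2] (Pf.cons (Pf.B 3 2 (Pf.T 3 16 (Pf.cons (Pf.W 40 2 [] [0,1,3] (Pf.cons (Pf.B 4 3 (Pf.B 4 1 (Pf.T 4 13 (Pf.cons (Pf.W 28 3 [] [0,1,2,4] (Pf.cons (Pf.B 5 2 (Pf.C 5 33411) (Pf.B 5 4 (Pf.W 35 4 [] [0,2,5] (Pf.cons (Pf.B 6 5 (Pf.C 5 98948) (Pf.C 0 646)) (Pf.cons (Pf.B 6 2 (Pf.C 5 33536) (Pf.C 0 65798)) Pf.nil))) (Pf.C 0 33285))) (Pf.cons (Pf.B 5 1 (Pf.C 5 82048) (Pf.C 0 49285)) Pf.nil))) Pf.nil)) (Pf.C 0 32900)) (Pf.C 4 388)) Pf.nil)) Pf.nil)) (Pf.C 0 16643)) Pf.nil)) Pf.nil)) Pf.nil)))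
 (Pq.cons (Pq.L [0] 1 (Pf.T 1 14 (Pf.cons (Pf.T 2 15 (Pf.cons (Pf.W 31 1 [] [0,2] (Pf.cons (Pf.B 3 2 (Pf.W 28 3 [] [0,1,2] (Pf.cons (Pf.B 4 2 (Pf.C 5 33283) (Pf.C 0 260)) (Pf.cons (Pf.B 4 1 (Pf.C 5 65664) (Pf.C 0 49284)) Pf.nil))) (Pf.C 0 16643)) Pf.nil)) Pf.nil)) Pf.nil)))
 Pq.nil))))) (Pq.cons (Pq.D 1 (Pq.cons (Pq.L [] 1 (Pf.C 3 257))
 (Pq.cons (Pq.L [] 1 (Pf.C 3 257))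
 (Pq.cons (Pq.L [0] 1 (Pf.T 1 17 (Pf.cons (Pf.T 2 18 (Pf.cons (Pf.W 38 1 [] [0,2] (Pf.cons (Pf.B 3 2 (Pf.T 3 13 (Pf.cons (Pf.W 40 2 [] [0,1,3] (Pf.cons (Pf.B 4 3 (Pf.B 4 1 (Pf.W 35 4 [] [0,1,2,3] (Pf.cons (Pf.B 5 2 (Pf.B 5 3 (Pf.B 5 1 (Pf.C 5 82051) (Pf.C 0 133)) (Pf.C 7 0x40400185)) (Pf.C 2 261)) (Pf.cons (Pf.B 5 2 (Pf.C 5 33408) (Pf.C 0 65797)) Pf.nil))) (Pf.C 0 32900)) (Pf.C 4 388)) Pf.nil)) Pf.nil)) (Pf.W 35 3 [] [0,1,2] (Pf.cons (Pf.B 4 1 (Pf.C 5 65667) (Pf.C 0 132)) (Pf.cons (Pf.B 4 2 (Pf.C 5 33280) (Pf.C 0 49412)) Pf.nil)))) Pf.nil)) Pf.nil)) Pf.nil)))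
 (Pq.cons (Pq.L [0] 1 (Pf.C 0 32769))
 Pq.nil))))) (Pq.cons (Pq.D 1 (Pq.cons (Pq.L [0] 1 (Pf.T 1 18 (Pf.cons (Pf.T 2 14 (Pf.cons (Pf.W 31 2 [] [0,1] (Pf.cons (Pf.B 3 1 (Pf.T 3 16 (Pf.cons (Pf.W 40 1 [] [0,2,3] (Pf.cons (Pf.B 4 3 (Pf.B 4 2 (Pf.T 4 13 (Pf.cons (Pf.W 28 3 [] [0,1,2,4] (Pf.cons (Pf.B 5 2 (Pf.B 5 4 (Pf.W 35 4 [] [0,1,5] (Pf.cons (Pf.B 6 5 (Pf.C 5 98948) (Pf.C 0 646)) (Pf.cons (Pf.B 6 1 (Pf.C 5 17152) (Pf.C 0 65670)) Pf.nil))) (Pf.C 6 0x30400205)) (Pf.C 3 261)) (Pf.cons (Pf.B 5 2 (Pf.C 5 82176) (Pf.C 0 49413)) Pf.nil))) Pf.nil)) (Pf.C 0 16644)) (Pf.C 4 388)) Pf.nil)) Pf.nil)) (Pf.C 0 32899)) Pf.nil)) Pf.nil)) Pf.nil)))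
 (Pq.cons (Pq.L [0] 1 (Pf.T 1 18 (Pf.cons (Pf.T 2 17 (Pf.cons (Pf.W 40 1 [] [0,2] (Pf.cons (Pf.B 3 2 (Pf.W 35 3 [] [0,1,2] (Pf.cons (Pf.B 4 2 (Pf.C 5 65795) (Pf.C 0 260)) (Pf.cons (Pf.B 4 1 (Pf.C 5 16896) (Pf.C 0 49284)) Pf.nil))) (Pf.C 0 16643)) Pf.nil)) Pf.nil)) Pf.nil)))
 (Pq.cons (Pq.L [] 1 (Pf.C 2 257))
 (Pq.cons (Pq.L [] 1 (Pf.C 2 257))
 Pq.nil))))) (Pq.cons (Pq.D 1 (Pq.cons (Pq.L [0] 1 (Pf.T 1 15 (Pf.cons (Pf.T 2 14 (Pf.cons (Pf.W 31 2 [] [0,1] (Pf.cons (Pf.B 3 1 (Pf.W 28 3 [] [0,1,2] (Pf.cons (Pf.B 4 1 (Pf.C 5 16899) (Pf.C 0 132)) (Pf.cons (Pf.B 4 2 (Pf.C 5 65792) (Pf.C 0 49412)) Pf.nil))) (Pf.C 0 32899)) Pf.nil)) Pf.nil)) Pf.nil)))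
 (Pq.cons (Pq.L [0] 1 (Pf.C 0 32769))
 (Pq.cons (Pq.L [] 1 (Pf.C 2 257))
 (Pq.cons (Pq.L [] 1 (Pf.C 2 257))
 Pq.nil))))) Pq.nil))))) Pq.nil)))
theorem cur_o19 : AllRef cur_T cur_G29 (applyObl bD_T 3 [31,32,33,34,35] [1,2,2,2,2] []) :=
  chkPq_sound cur_o19c _ (by decide +kernel)

end Pool.Agent.Lib.MP_849b2e_co
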