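import Pool.Agent.Lib.MP_849b2e_co.AllR
import Pool.Agent.Lib.MP_849b2e_co.Tcur
import Pool.Agent.Lib.MP_849b2e_co.Ocur_0
import Pool.Agent.Lib.MP_849b2e_co.LbD

set_option maxRecDepth 100000
set_option linter.all false
namespace Pool.Agent.Lib.MP_849b2e_co

theorem cur_n44  : Bd cur_T cur_G29 [31,32,33,34,35] :=
  r_apply lem_bD [1,2,2,2,2] [] (by decide +kernel) cur_o19
theorem cur_n43  : Bd cur_T cur_G29 [42,32,44,46,35] :=
  r_act [] [31,32,33,34,35] (by decide +kernel) cur_n44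
theorem cur_n42  : Bd cur_T cur_G28 [42,43,32,44,45,46,47,35] :=
  r_close true 0 [9,10,16,11,17,12,18] [42,43,32,44,45,46,47,35] [0,0,1,1,1,2,2,2] [0] [0] 173 ⟨48,[],[],[]⟩ cur_G29 [42,32,44,46,35] (by decide +kernel) cur_o18 cur_n43
theorem cur_n41  : Bd cur_T cur_G28 [42,43,32,33,34,35] :=
  r_act [17,18] [42,43,32,44,45,46,47,35] (by decide +kernel) cur_n42
theorem cur_n40  : Bd cur_T cur_G27 [42,43,32,33,34,35] :=
  r_def 34 0 [42] [] ⟨46,[19],[41,0,42],[]⟩ cur_G28 [42,43,32,33,34,35] (by decide +kernel) cur_n41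
theorem cur_n39  : Bd cur_T cur_G26 [42,43,32,33,34,35] :=
  r_def 33 0 [] [42] ⟨44,[18],[39,40],[]⟩ cur_G27 [42,43,32,33,34,35] (by decide +kernel) cur_n40
theorem cur_n38  : Bd cur_T cur_G26 [31,32,33,34,35] :=
  r_act [16] [42,43,32,33,34,35] (by decide +kernel) cur_n39
theorem cur_n37  : Bd cur_T cur_G25 [31,32,33,34,35] :=
  r_def 31 0 [32] [35] ⟨42,[17],[36,37,38],[]⟩ cur_G26 [31,32,33,34,35] (by decide +kernel) cur_n38
theorem cur_n36  : Bd cur_T cur_G25 [36,38,33,34,40] :=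
  r_act [] [31,32,33,34,35] (by decide +kernel) cur_n37
theorem cur_n35  : Bd cur_T cur_G24 [36,38,39,33,34,40,41] :=
  r_close false 0 [9,10,13,11,14,12,15] [36,38,39,33,34,40,41] [0,1,1,1,2,2,2] [0] [0] 59 ⟨42,[],[],[]⟩ cur_G25 [36,38,33,34,40] (by decide +kernel) cur_o17 cur_n36
theorem cur_n34  : Bd cur_T cur_G24 [36,32,33,34,35] :=
  r_act [14,15] [36,38,39,33,34,40,41] (by decide +kernel) cur_n35
theorem cur_n33  : Bd cur_T cur_G23 [36,32,33,34,35] :=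
  r_def 35 0 [] [36] ⟨40,[16],[34,35],[]⟩ cur_G24 [36,32,33,34,35] (by decide +kernel) cur_n34
theorem cur_n32  : Bd cur_T cur_G22 [36,32,33,34,35] :=
  r_def 32 0 [36] [] ⟨38,[15],[32,0,33],[]⟩ cur_G23 [36,32,33,34,35] (by decide +kernel) cur_n33
theorem cur_n31  : Bd cur_T cur_G21 [36,37,32,33,34,35] :=
  r_kill [37] ⟨38,[],[],[]⟩ cur_G22 [36,32,33,34,35] (by decide +kernel) cur_o16 cur_n32
theorem cur_n30  : Bd cur_T cur_G21 [31,32,33,34,35] :=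
  r_act [13] [36,37,32,33,34,35] (by decide +kernel) cur_n31
theorem cur_n29  : Bd cur_T cur_G20 [31,32,33,34,35] :=
  r_def 31 0 [34] [33] ⟨36,[14],[29,30,31],[]⟩ cur_G21 [31,32,33,34,35] (by decide +kernel) cur_n30
theorem cur_n28  : Bd cur_T cur_G20 [7,10,13] :=
  r_act [9,10,11,12] [31,32,33,34,35] (by decide +kernel) cur_n29
theorem cur_n27  : Bd cur_T cur_G19 [7,10,13] :=
  r_psplit 13 [] (PT.br 0 PT.kid PT.kid) ⟨34,[13],[],[]⟩ cur_G20 [7,10,13] (by decide +kernel) cur_o15 cur_n28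
theorem cur_n26  : Bd cur_T cur_G18 [7,10,13] :=
  r_psplit 10 [] (PT.br 0 PT.kid PT.kid) ⟨32,[12],[],[]⟩ cur_G19 [7,10,13] (by decide +kernel) cur_o14 cur_n27
theorem cur_n25  : Bd cur_T cur_G17 [7,10,13] :=
  r_psplit 30 [] (PT.br 0 PT.kid PT.ref) ⟨31,[11],[],[]⟩ cur_G18 [7,10,13] (by decide +kernel) cur_o13 cur_n26
theorem cur_n24  : Bd cur_T cur_G3 [7,10,13] :=
  r_psplit 7 [0] PT.kid ⟨30,[10],[],[]⟩ cur_G17 [7,10,13] (by decide +kernel) cur_o12 cur_n25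
theorem cur_n23  : Bd cur_T cur_G16 [19,20,21] :=
  r_apply lem_bD [1,2,2] [] (by decide +kernel) cur_o11
theorem cur_n22  : Bd cur_T cur_G16 [26,20,28] :=
  r_act [] [19,20,21] (by decide +kernel) cur_n23
theorem cur_n21  : Bd cur_T cur_G15 [26,27,20,28,29] :=
  r_close true 0 [2,3,7,4,8] [26,27,20,28,29] [1,1,2,2,2] [0] [1] 13 ⟨30,[],[],[]⟩ cur_G16 [26,20,28] (by decide +kernel) cur_o10 cur_n22
theorem cur_n20  : Bd cur_T cur_G15 [26,27,20,21] :=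
  r_act [8] [26,27,20,28,29] (by decide +kernel) cur_n21
theorem cur_n19  : Bd cur_T cur_G14 [26,27,20,21] :=
  r_def 21 0 [] [26] ⟨28,[9],[27,28],[]⟩ cur_G15 [26,27,20,21] (by decide +kernel) cur_n20
theorem cur_n18  : Bd cur_T cur_G14 [19,20,21] :=
  r_act [7] [26,27,20,21] (by decide +kernel) cur_n19
theorem cur_n17  : Bd cur_T cur_G13 [19,20,21] :=
  r_def 19 0 [20] [] ⟨26,[8],[25,0,26],[]⟩ cur_G14 [19,20,21] (by decide +kernel) cur_n18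
theorem cur_n16  : Bd cur_T cur_G13 [22,24,21] :=
  r_act [] [19,20,21] (by decide +kernel) cur_n17
theorem cur_n15  : Bd cur_T cur_G12 [22,24,25,21] :=
  r_kill [25] ⟨26,[],[],[]⟩ cur_G13 [22,24,21] (by decide +kernel) cur_o9 cur_n16
theorem cur_n14  : Bd cur_T cur_G12 [22,20,21] :=
  r_act [6] [22,24,25,21] (by decide +kernel) cur_n15
theorem cur_n13  : Bd cur_T cur_G11 [22,20,21] :=
  r_def 20 0 [22] [] ⟨24,[7],[0,0,24],[]⟩ cur_G12 [22,20,21] (by decide +kernel) cur_n14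
theorem cur_n12  : Bd cur_T cur_G10 [22,23,20,21] :=
  r_close false 0 [2,3,5,4] [22,23,20,21] [1,1,2,2] [0] [1] 13 ⟨24,[],[],[]⟩ cur_G11 [22,20,21] (by decide +kernel) cur_o8 cur_n13
theorem cur_n11  : Bd cur_T cur_G10 [19,20,21] :=
  r_act [5] [22,23,20,21] (by decide +kernel) cur_n12
theorem cur_n10  : Bd cur_T cur_G9 [19,20,21] :=
  r_def 19 0 [] [21] ⟨22,[6],[22,23],[]⟩ cur_G10 [19,20,21] (by decide +kernel) cur_n11
theorem cur_n9  : Bd cur_T cur_G9 [10,13] :=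
  r_act [2,3,4] [19,20,21] (by decide +kernel) cur_n10
theorem cur_n8  : Bd cur_T cur_G8 [10,13] :=
  r_psplit 13 [] (PT.br 0 PT.kid PT.kid) ⟨20,[5],[],[]⟩ cur_G9 [10,13] (by decide +kernel) cur_o7 cur_n9
theorem cur_n7  : Bd cur_T cur_G7 [10,13] :=
  r_psplit 18 [] (PT.br 0 PT.kid PT.ref) ⟨19,[4],[],[]⟩ cur_G8 [10,13] (by decide +kernel) cur_o6 cur_n8
theorem cur_n6  : Bd cur_T cur_G5 [10,13] :=
  r_psplit 10 [0] PT.kid ⟨18,[3],[],[]⟩ cur_G7 [10,13] (by decide +kernel) cur_o5 cur_n7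
theorem cur_n5  : Bd cur_T cur_G6 [] :=
  r_empty (by decide +kernel) 
theorem cur_n4  : Bd cur_T cur_G4 [13] :=
  r_kill [13] ⟨16,[],[],[]⟩ cur_G6 [] (by decide +kernel) cur_o4 cur_n5
theorem cur_n3  : Bd cur_T cur_G2 [10,13] :=
  r_ext 10 2 [13] [] [] [] [] ⟨16,[],[],[]⟩ cur_G4 [13] ⟨17,[],[0,21],[]⟩ cur_G5 [10,13] (by decide +kernel) cur_o3 cur_n4 cur_n6
theorem cur_n2  : Bd cur_T cur_G1 [7,10,13] :=
  r_ext 7 2 [10] [] [13] [] [] ⟨16,[],[],[]⟩ cur_G2 [10,13] ⟨16,[],[19,20],[]⟩ cur_G3 [7,10,13] (by decide +kernel) cur_o2 cur_n3 cur_n24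
theorem cur_n1  : Bd cur_T cur_G0 [4,5,6] :=
  r_block [2,4,1] [6,5,3] [6,5,3] ⟨7,[0,1,2],[0,0,0,0,12,0,0,13,14,0,15,0,0,0,16,17,0,18],[1]⟩ cur_G1 [7,10,13] (by decide +kernel) cur_o1 cur_n2
theorem cur_n0  : Bd cur_T (pureCtx 3 10) (pureAct 3) :=
  show Bd _ _ [1,2,3] from r_twin 0 [6,5,3] ⟨4,[],[11],[]⟩ cur_G0 [4,5,6] (by decide +kernel) cur_o0 cur_n1
theorem lem_cur  : Lem cur_T 3 10 := ⟨by decide +kernel, cur_n0⟩

end Pool.Agent.Lib.MP_849b2e_co
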