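import Pool.Agent.Lib.MP_849b2e_co.Rules

set_option maxRecDepth 100000
set_option linter.all false
namespace Pool.Agent.Lib.MP_849b2e_co

noncomputable def dS_ty : Tr Ty := (Tr.br (Tr.br (Tr.br (Tr.br (Tr.br (Tr.br (Tr.leaf ⟨1,0,0,0,0⟩) (Tr.leaf ⟨0x100102003,0x1efc00c,18,13,31⟩)) (Tr.br (Tr.leaf ⟨73731,0x1fec00c,8,23,31⟩) (Tr.leaf ⟨0x1000400402003,0x1bfc00c,1,30,31⟩))) (Tr.br (Tr.br (Tr.leaf ⟨323,140,0,0,1⟩) (Tr.leaf ⟨0x10200202003,0x1dfc00c,10,21,31⟩)) (Tr.leaf ⟨0x1002003,0xffc00c,5,26,31⟩)))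
 (Tr.br (Tr.br (Tr.br (Tr.leaf ⟨19,44,0,0,0⟩) (Tr.leaf ⟨0x1001002003,0xffc00c,5,26,31⟩)) (Tr.br (Tr.leaf ⟨0x102003,0x1efc00c,18,13,31⟩) (Tr.leaf ⟨0x10010200202003,0x1dfc00c,10,21,31⟩))) (Tr.br (Tr.br (Tr.leaf ⟨5443,652,1,0,1⟩) (Tr.leaf ⟨0x10000800a003,0x1ff400c,16,15,31⟩)) (Tr.leaf ⟨0x10012003,0x1fec00c,8,23,31⟩)))
)
 (Tr.br (Tr.br (Tr.br (Tr.br (Tr.leaf ⟨5,10,0,0,0⟩) (Tr.leaf ⟨0x400402003,0x1bfc00c,1,30,31⟩)) (Tr.br (Tr.leaf ⟨0x42003,0x1fbc00c,20,11,31⟩) (Tr.leaf ⟨0x4004040042003,0x1fbc00c,20,11,31⟩))) (Tr.br (Tr.br (Tr.leaf ⟨1347,652,1,0,1⟩) (Tr.leaf ⟨0x41001002003,0xffc00c,5,26,31⟩)) (Tr.leaf ⟨0x4006003,0x3ff800c,0,31,31⟩)))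
 (Tr.br (Tr.br (Tr.br (Tr.leaf ⟨67,140,0,0,0⟩) (Tr.leaf ⟨0x4040042003,0x1fbc00c,20,11,31⟩)) (Tr.br (Tr.leaf ⟨0x402003,0x1bfc00c,1,30,31⟩) (Tr.leaf ⟨0x40041001002003,0xffc00c,5,26,31⟩))) (Tr.br (Tr.br (Tr.leaf ⟨24579,0x1ff800c,0,31,31⟩) (Tr.leaf ⟨0x400020022003,0x1fdc00c,4,27,31⟩)) (Tr.leaf ⟨0x40042003,0x1fbc00c,20,11,31⟩)))
)
)
 (Tr.br (Tr.br (Tr.br (Tr.br (Tr.br (Tr.leaf ⟨3,12,0,0,0⟩) (Tr.leaf ⟨0x200202003,0x1dfc00c,10,21,31⟩)) (Tr.br (Tr.leaf ⟨0x22003,0x1fdc00c,4,27,31⟩) (Tr.leaf ⟨0x2082002006003,0x5ff800c,0,31,31⟩))) (Tr.br (Tr.br (Tr.leaf ⟨835,1164,0,1,1⟩) (Tr.leaf ⟨0x20800802003,0x17fc00c,9,22,31⟩)) (Tr.leaf ⟨0x2006003,0x5ff800c,0,31,31⟩)))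
 (Tr.br (Tr.br (Tr.br (Tr.leaf ⟨35,28,0,0,0⟩) (Tr.leaf ⟨0x2002006003,0x5ff800c,0,31,31⟩)) (Tr.br (Tr.leaf ⟨0x202003,0x1dfc00c,10,21,31⟩) (Tr.leaf ⟨0x20020800802003,0x17fc00c,9,22,31⟩))) (Tr.br (Tr.br (Tr.leaf ⟨8195,12,0,0,31⟩) (Tr.leaf ⟨0x200010012003,0x1fec00c,8,23,31⟩)) (Tr.leaf ⟨0x20022003,0x1fdc00c,4,27,31⟩)))
)
 (Tr.br (Tr.br (Tr.br (Tr.br (Tr.leaf ⟨9,6,0,0,0⟩) (Tr.leaf ⟨0x800802003,0x17fc00c,9,22,31⟩)) (Tr.br (Tr.leaf ⟨0x82003,0x1f7c00c,2,29,31⟩) (Tr.leaf ⟨0x8008100102003,0x1efc00c,18,13,31⟩))) (Tr.br (Tr.br (Tr.leaf ⟨2179,76,0,1,0⟩) (Tr.leaf ⟨0x82002006003,0x5ff800c,0,31,31⟩)) (Tr.leaf ⟨0x800a003,0x1ff400c,16,15,31⟩)))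
 (Tr.br (Tr.br (Tr.br (Tr.leaf ⟨131,76,0,0,0⟩) (Tr.leaf ⟨0x8100102003,0x1efc00c,18,13,31⟩)) (Tr.leaf ⟨0x802003,0x17fc00c,9,22,31⟩)) (Tr.br (Tr.br (Tr.leaf ⟨40963,0x1ff400c,16,15,31⟩) (Tr.leaf ⟨0x800080082003,0x1f7c00c,2,29,31⟩)) (Tr.leaf ⟨0x80082003,0x1f7c00c,2,29,31⟩)))
)
)
)

noncomputable def dS_ev : Tr Ev := (Tr.br (Tr.br (Tr.br (Tr.leaf ⟨1,[4,5],0⟩) (Tr.leaf ⟨7,[11],0⟩))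
 (Tr.br (Tr.leaf ⟨6,[8],1⟩) (Tr.leaf ⟨13,[14,15,16,17,18,19,20,21,22,23,24],0⟩))
)
 (Tr.br (Tr.br (Tr.leaf ⟨1,[6,7],0⟩) (Tr.leaf ⟨1,[13],31⟩))
 (Tr.br (Tr.leaf ⟨8,[9,10],0⟩) (Tr.leaf ⟨14,[25,26],0⟩))
)
)

noncomputable def dS_ax : Tr Ax := (Tr.br (Tr.br (Tr.br (Tr.br (Tr.br (Tr.br (Tr.leaf ⟨[1,1,1],[⟨0,1,true⟩,⟨0,2,true⟩,⟨1,2,true⟩],[],0⟩) (Tr.leaf ⟨[0x40000000000000,0x40000000000000],[⟨0,1,false⟩],[⟨49,[(0,true),(1,false)]⟩,⟨49,[(0,false),(1,true)]⟩,⟨51,[(0,true),(1,false)]⟩,⟨51,[(0,false),(1,true)]⟩,⟨52,[(0,true),(1,false)]⟩,⟨52,[(0,false),(1,true)]⟩],0⟩)) (Tr.leaf ⟨[0x80000000000,0x10000000000,0x20000000000],[⟨0,1,true⟩,⟨0,2,true⟩,⟨1,2,false⟩],[],0⟩)) (Tr.br (Tr.leaf ⟨[64,64,64,64],[⟨0,3,true⟩,⟨0,1,true⟩,⟨1,2,true⟩,⟨2,3,true⟩],[],0⟩)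 (Tr.leaf ⟨[0x200000000000],[],[],0⟩)))
 (Tr.br (Tr.br (Tr.leaf ⟨[32,32],[⟨0,1,true⟩],[],0⟩) (Tr.leaf ⟨[0x4000000000,0x10000000000,0x40000000000],[⟨0,1,false⟩,⟨0,2,false⟩,⟨1,2,false⟩],[],0⟩)) (Tr.br (Tr.leaf ⟨[0x4000000,0x1ff8000],[⟨0,1,true⟩],[],0⟩) (Tr.leaf ⟨[0x4000000000000,0x4000000000000],[⟨0,1,false⟩],[⟨49,[(0,true),(1,false)]⟩,⟨49,[(0,false),(1,true)]⟩,⟨52,[(0,true),(1,false)]⟩,⟨52,[(0,false),(1,true)]⟩,⟨53,[(0,true),(1,false)]⟩,⟨53,[(0,false),(1,true)]⟩],0⟩)))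
)
 (Tr.br (Tr.br (Tr.br (Tr.leaf ⟨[2,2,2,2,2],[⟨0,1,true⟩,⟨1,2,true⟩,⟨2,3,true⟩,⟨3,4,true⟩,⟨4,0,true⟩,⟨0,2,false⟩,⟨0,3,false⟩,⟨1,3,false⟩,⟨1,4,false⟩,⟨2,4,false⟩],[],0⟩) (Tr.leaf ⟨[0x4000000000,0x8000000000,0x20000000000],[⟨0,1,false⟩,⟨0,2,false⟩,⟨1,2,false⟩],[],0⟩)) (Tr.br (Tr.leaf ⟨[4096],[],[],0⟩) (Tr.leaf ⟨[0x800000000000],[],[],0⟩)))
 (Tr.br (Tr.br (Tr.leaf ⟨[64],[],[⟨6,[(0,true)]⟩],1⟩) (Tr.leaf ⟨[0x8000000000,0x20000000000,0x40000000000],[⟨0,1,false⟩,⟨0,2,false⟩,⟨1,2,false⟩],[],0⟩)) (Tr.br (Tr.leaf ⟨[0x80000000000,0x4000000000,0x40000000000],[⟨0,1,true⟩,⟨0,2,true⟩,⟨1,2,false⟩],[],0⟩) (Tr.leaf ⟨[0x10000000000000,0x10000000000000],[⟨0,1,false⟩],[⟨49,[(0,true),(1,false)]⟩,⟨49,[(0,false),(1,true)]⟩,⟨50,[(0,true),(1,false)]⟩,⟨50,[(0,false),(1,true)]⟩,⟨54,[(0,true),(1,false)]⟩,⟨54,[(0,false),(1,true)]⟩],0⟩)))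
)
)
 (Tr.br (Tr.br (Tr.br (Tr.br (Tr.leaf ⟨[1,1,1,1,1,1],[⟨0,1,true⟩,⟨0,2,true⟩,⟨0,3,true⟩,⟨0,4,false⟩,⟨0,5,false⟩,⟨1,2,false⟩,⟨1,3,false⟩,⟨1,4,false⟩,⟨1,5,false⟩,⟨2,3,false⟩,⟨2,4,false⟩,⟨2,5,false⟩,⟨3,4,true⟩,⟨3,5,false⟩,⟨4,5,true⟩],[],0⟩) (Tr.leaf ⟨[0x80000000000,0x20000000000,0x40000000000],[⟨0,1,true⟩,⟨0,2,true⟩,⟨1,2,false⟩],[],0⟩)) (Tr.br (Tr.leaf ⟨[64],[],[],0⟩) (Tr.leaf ⟨[0x400000000000],[],[],0⟩)))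
 (Tr.br (Tr.br (Tr.leaf ⟨[],[],[⟨6,[]⟩],0⟩) (Tr.leaf ⟨[0x8000000000,0x10000000000,0x40000000000],[⟨0,1,false⟩,⟨0,2,false⟩,⟨1,2,false⟩],[],0⟩)) (Tr.br (Tr.leaf ⟨[0x80000000000,0x4000000000,0x8000000000],[⟨0,1,true⟩,⟨0,2,true⟩,⟨1,2,false⟩],[],0⟩) (Tr.leaf ⟨[0x8000000000000,0x8000000000000],[⟨0,1,false⟩],[⟨49,[(0,true),(1,false)]⟩,⟨49,[(0,false),(1,true)]⟩,⟨53,[(0,true),(1,false)]⟩,⟨53,[(0,false),(1,true)]⟩,⟨54,[(0,true),(1,false)]⟩,⟨54,[(0,false),(1,true)]⟩],0⟩)))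
)
 (Tr.br (Tr.br (Tr.br (Tr.leaf ⟨[16,16],[⟨0,1,true⟩],[],0⟩) (Tr.leaf ⟨[0x4000000000,0x10000000000,0x20000000000],[⟨0,1,false⟩,⟨0,2,false⟩,⟨1,2,false⟩],[],0⟩)) (Tr.br (Tr.leaf ⟨[0x2000000],[],[⟨15,[(0,true)]⟩,⟨16,[(0,true)]⟩,⟨17,[(0,true)]⟩,⟨18,[(0,true)]⟩,⟨19,[(0,true)]⟩,⟨20,[(0,true)]⟩,⟨21,[(0,true)]⟩,⟨22,[(0,true)]⟩,⟨23,[(0,true)]⟩,⟨24,[(0,true)]⟩],0⟩) (Tr.leaf ⟨[0x1000000000000],[],[],0⟩)))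
 (Tr.br (Tr.br (Tr.leaf ⟨[2,64,64,64],[⟨0,1,true⟩,⟨0,2,true⟩,⟨0,3,true⟩],[],0⟩) (Tr.leaf ⟨[0x100000000000],[],[],0⟩)) (Tr.br (Tr.leaf ⟨[0x80000000000,0x8000000000,0x10000000000],[⟨0,1,true⟩,⟨0,2,true⟩,⟨1,2,false⟩],[],0⟩) (Tr.leaf ⟨[0x20000000000000,0x20000000000000],[⟨0,1,false⟩],[⟨49,[(0,true),(1,false)]⟩,⟨49,[(0,false),(1,true)]⟩,⟨50,[(0,true),(1,false)]⟩,⟨50,[(0,false),(1,true)]⟩,⟨51,[(0,true),(1,false)]⟩,⟨51,[(0,false),(1,true)]⟩],0⟩)))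
)
)
)

noncomputable def dS_sc : Tr Sc := (Tr.leaf ⟨[1],[0]⟩)
noncomputable def dS_T : Tab := ⟨55,dS_ty,dS_ev,dS_ax,dS_sc⟩
def dS_S0 : St := ⟨0,0,0,0,0⟩
def dS_G0 : Ctx := ⟨4,0,3,1,0,dS_S0,none⟩
def dS_G1 : Ctx := ⟨4,0,7,1,0,dS_S0,none⟩
def dS_S1 : St := ⟨5,0x3000000000000060000000000000c000000000000180000000000003,0x9000000000000000000000000000000140000000000000000000000000000000a0000000000000000000000000000000500000000000000000000000000000012,0x60000000000000000000000000000000300000000000000000000000000000011000000000000000000000000000000180000000000000000000000000000000c,31⟩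
def dS_G2 : Ctx := ⟨4,0,3,1,0,dS_S1,none⟩
def dS_G3 : Ctx := ⟨6,1,31,1,0,dS_S0,none⟩
def dS_G4 : Ctx := ⟨8,2,487,1,0,dS_S0,none⟩
def dS_G5 : Ctx := ⟨8,2,999,1,0,dS_S0,none⟩
def dS_S2 : St := ⟨1,67,0,0,1⟩
def dS_G6 : Ctx := ⟨8,2,487,1,0,dS_S2,none⟩
def dS_G7 : Ctx := ⟨8,2,999,1,192,dS_S0,none⟩
def dS_G8 : Ctx := ⟨9,6,487,1,0,dS_S2,none⟩
def dS_G9 : Ctx := ⟨11,14,487,1,0,dS_S2,none⟩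
def dS_G10 : Ctx := ⟨12,30,487,1,0,dS_S2,none⟩
def dS_G11 : Ctx := ⟨12,30,487,1,2048,dS_S2,none⟩
def dS_G12 : Ctx := ⟨13,30,1511,1,2048,dS_S2,none⟩
def dS_G13 : Ctx := ⟨13,30,1511,1,6144,dS_S2,none⟩
def dS_G14 : Ctx := ⟨14,32,3,1,0,dS_S1,none⟩
def dS_G15 : Ctx := ⟨25,96,3,1,0,dS_S1,none⟩
def dS_G16 : Ctx := ⟨27,224,6147,1,0,dS_S1,none⟩
def dS_G17 : Ctx := ⟨27,224,6147,1,0x4000000,dS_S1,none⟩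
def dS_G18 : Ctx := ⟨38,224,6147,1,0x4000000,dS_S1,none⟩
def dS_G19 : Ctx := ⟨44,224,0x7ff803,1,0x4000000,dS_S1,none⟩
def dS_G20 : Ctx := ⟨49,224,0xffff803,1,0x4000000,dS_S1,none⟩
def dS_G21 : Ctx := ⟨49,224,0xffff803,1,0x1f00004000000,dS_S1,none⟩
def dS_G22 : Ctx := ⟨55,224,0x1fffff803,1,0x1f00004000000,dS_S1,none⟩
def dS_h14 : List HP := [⟨[0],[],(HT.leaf 3)⟩]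
def dS_h23 : List HP := [⟨[10,0],[],(HT.leaf 2)⟩,⟨[10,1],[],(HT.leaf 2)⟩,⟨[10,2],[],(HT.leaf 2)⟩,⟨[10,4],[],(HT.leaf 2)⟩,⟨[10,7],[],(HT.leaf 2)⟩,⟨[0,1],[],(HT.leaf 2)⟩,⟨[0,2],[],(HT.leaf 2)⟩,⟨[0,3],[],(HT.leaf 2)⟩,⟨[0,4],[],(HT.leaf 2)⟩,⟨[0,5],[],(HT.leaf 2)⟩,⟨[0,6],[],(HT.leaf 2)⟩,⟨[0,7],[],(HT.leaf 2)⟩,⟨[0,8],[],(HT.leaf 2)⟩,⟨[0,9],[],(HT.leaf 2)⟩,⟨[1,2],[],(HT.leaf 2)⟩,⟨[1,3],[],(HT.leaf 2)⟩,⟨[1,4],[],(HT.leaf 2)⟩,⟨[1,5],[],(HT.leaf 2)⟩,⟨[1,6],[],(HT.leaf 2)⟩,⟨[1,7],[],(HT.leaf 2)⟩,⟨[1,8],[],(HT.leaf 2)⟩,⟨[1,9],[],(HT.leaf 2)⟩,⟨[2,3],[],(HT.leaf 2)⟩,⟨[2,4],[],(HT.leaf 2)⟩,⟨[2,5],[],(HT.leaf 2)⟩,⟨[2,6],[],(HT.leaf 2)⟩,⟨[2,7],[],(HT.leaf 2)⟩,⟨[2,8],[],(HT.leaf 2)⟩,⟨[2,9],[],(HT.leaf 2)⟩,⟨[3,4],[],(HT.leaf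 2)⟩,⟨[3,7],[],(HT.leaf 2)⟩,⟨[4,5],[],(HT.leaf 2)⟩,⟨[4,6],[],(HT.leaf 2)⟩,⟨[4,7],[],(HT.leaf 2)⟩,⟨[4,8],[],(HT.leaf 2)⟩,⟨[4,9],[],(HT.leaf 2)⟩,⟨[5,7],[],(HT.leaf 2)⟩,⟨[6,7],[],(HT.leaf 2)⟩,⟨[7,8],[],(HT.leaf 2)⟩,⟨[7,9],[],(HT.leaf 2)⟩]
def dS_h24 : List HP := [⟨[5,0,1],[⟨0,1,true⟩,⟨0,2,true⟩,⟨1,2,false⟩],(HT.leaf 2)⟩,⟨[5,0,4],[⟨0,1,true⟩,⟨0,2,true⟩,⟨1,2,false⟩],(HT.leaf 2)⟩,⟨[5,1,2],[⟨0,1,true⟩,⟨0,2,true⟩,⟨1,2,false⟩],(HT.leaf 2)⟩,⟨[5,2,3],[⟨0,1,true⟩,⟨0,2,true⟩,⟨1,2,false⟩],(HT.leaf 2)⟩,⟨[5,3,4],[⟨0,1,true⟩,⟨0,2,true⟩,⟨1,2,false⟩],(HT.leaf 2)⟩,⟨[0,1,3],[⟨0,1,false⟩,⟨0,2,false⟩,⟨1,2,false⟩],(HT.leaf 2)⟩,⟨[0,2,3],[⟨0,1,false⟩,⟨0,2,false⟩,⟨1,2,false⟩],(HT.leaf 2)⟩,⟨[0,2,4],[⟨0,1,false⟩,⟨0,2,false⟩,⟨1,2,false⟩],(HT.leaf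 2)⟩,⟨[1,2,4],[⟨0,1,false⟩,⟨0,2,false⟩,⟨1,2,false⟩],(HT.leaf 2)⟩,⟨[1,3,4],[⟨0,1,false⟩,⟨0,2,false⟩,⟨1,2,false⟩],(HT.leaf 2)⟩]
def dS_h25 : List HP := [⟨[0],[],(HT.leaf 2)⟩,⟨[1],[],(HT.leaf 2)⟩,⟨[2],[],(HT.leaf 2)⟩,⟨[3],[],(HT.leaf 2)⟩,⟨[4],[],(HT.leaf 2)⟩]

end Pool.Agent.Lib.MP_849b2e_co
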