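import Pool.Agent.Lib.MP_849b2e_co.Fast
import Pool.Agent.Lib.MP_849b2e_co.TdS
import Pool.Agent.Lib.MP_849b2e_co.RApply
import Pool.Agent.Lib.MP_849b2e_co.TbD

set_option maxRecDepth 100000
set_option linter.all false
namespace Pool.Agent.Lib.MP_849b2e_co

noncomputable def dS_o0c : Pq := Pq.nil
theorem dS_o0 : AllRef dS_T (pureCtx 0 2) (blockObl [0] [0] [1] [1]) :=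
  chkPq_sound dS_o0c _ (by decide +kernel)
noncomputable def dS_o1c : Pq := (Pq.cons (Pq.L [] 7 (Pf.C 0 32896))
 Pq.nil)
theorem dS_o1 : AllRef dS_T dS_G1 [triP 1] :=
  chkPq_sound dS_o1c _ (by decide +kernel)
noncomputable def dS_o2c : Pq := (Pq.cons (Pq.L [] 0x1fffc0 (Pf.C 1 0x305080c101))
 (Pq.cons (Pq.L [] 1 (Pf.C 3 128))
 (Pq.cons (Pq.L [] 1 (Pf.C 4 128))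
 Pq.nil)))
theorem dS_o2 : AllRef dS_T dS_G3 (applyObl bD_T 3 [4,5] [1,2] []) :=
  chkPq_sound dS_o2c _ (by decide +kernel)
noncomputable def dS_o3c : Pq := (Pq.cons (Pq.L [] 0 (Pf.C 9 0))
 (Pq.cons (Pq.L [] 0 (Pf.W 5 0 [] [] (Pf.cons (Pf.C 9 1) Pf.nil)))
 Pq.nil))
theorem dS_o3 : AllRef dS_T dS_G5 (List.map pat1 [6,7]) :=
  chkPq_sound dS_o3c _ (by decide +kernel)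
noncomputable def dS_o4c : Pq := Pq.nil
theorem dS_o4 : AllRef dS_T dS_G6 (ptObl 6 PT.kid []) :=
  chkPq_sound dS_o4c _ (by decide +kernel)
noncomputable def dS_o5c : Pq := Pq.nil
theorem dS_o5 : AllRef dS_T dS_G8 (ptObl 8 (PT.br 0 PT.kid PT.kid) []) :=
  chkPq_sound dS_o5c _ (by decide +kernel)
noncomputable def dS_o6c : Pq := (Pq.cons (Pq.L [0] 0 (Pf.W 6 0 [] [1] (Pf.cons (Pf.B 2 1 (Pf.W 6 0 [2] [1] (Pf.cons (Pf.B 3 2 (Pf.B 3 1 (Pf.W 6 2 [0] [1,3] (Pf.cons (Pf.B 4 3 (Pf.B 4 0 (Pf.B 4 1 (Pf.W 6 4 [2] [0,1,3] (Pf.cons (Pf.B 5 2 (Pf.B 5 0 (Pf.B 5 3 (Pf.B 5 1 (Pf.C 1 0x284040c080) (Pf.C 2 0x40400085)) (Pf.C 2 0x40400185)) (Pf.C 7 0x608280)) (Pf.C 0 65797)) Pf.nil)) (Pf.W 6 3 [0] [1,2,4] (Pf.cons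 (Pf.B 5 2 (Pf.B 5 1 (Pf.B 5 0 (Pf.B 5 4 (Pf.W 6 5 [3] [0,1,2,4] (Pf.cons (Pf.B 6 3 (Pf.B 6 2 (Pf.B 6 1 (Pf.B 6 0 (Pf.C 1 0x3050608080) (Pf.C 7 0x608300)) (Pf.C 7 0x800301)) (Pf.C 7 0x800302)) (Pf.C 0 82310)) Pf.nil)) (Pf.C 2 0x30004205)) (Pf.C 0 49157)) (Pf.C 7 0x800281)) (Pf.C 7 0x800282)) Pf.nil))) (Pf.C 0 32772)) (Pf.C 8 0x400184)) Pf.nil)) (Pf.C 0 131)) (Pf.C 0 259)) Pf.nil)) (Pf.C 0 130)) Pf.nil)))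
 Pq.nil)
theorem dS_o6 : AllRef dS_T dS_G9 (ptObl 7 (PT.br 0 PT.kid PT.ref) []) :=
  chkPq_sound dS_o6c _ (by decide +kernel)
noncomputable def dS_o7c : Pq := (Pq.cons (Pq.L [] 0 (Pf.X 0 1))
 (Pq.cons (Pq.L [0] 1 (Pf.W 6 0 [] [1,2] (Pf.cons (Pf.B 3 2 (Pf.B 3 1 (Pf.T 3 2 (Pf.cons (Pf.T 3 3 (Pf.cons (Pf.W 6 0 [3] [1,2] (Pf.cons (Pf.B 4 3 (Pf.B 4 2 (Pf.B 4 1 (Pf.T 4 2 (Pf.cons (Pf.T 4 3 (Pf.cons (Pf.W 6 1 [] [0,2,3,4] (Pf.cons (Pf.B 5 2 (Pf.B 5 0 (Pf.B 5 4 (Pf.B 5 3 (Pf.T 5 2 (Pf.cons (Pf.T 5 3 (Pf.cons (Pf.W 6 1 [5] [0,2,3,4] (Pf.cons (Pf.B 6 5 (Pf.B 6 2 (Pf.B 6 0 (Pf.B 6 4 (Pf.B 6 3 (Pf.T 6 2 (Pf.cons (Pf.T 6 3 (Pf.cons (Pf.W 6 5 [1] [0,2,3,4,6] (Pf.cons (Pf.B 7 6 (Pf.B 7 1 (Pf.B 7 0 (Pf.B 7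 2 (Pf.T 7 2 (Pf.cons (Pf.T 7 3 (Pf.cons (Pf.W 6 7 [5] [1,2,6] (Pf.cons (Pf.B 8 5 (Pf.B 8 1 (Pf.B 8 6 (Pf.B 8 2 (Pf.C 1 0x4070a18101) (Pf.C 2 0x70a04108)) (Pf.C 2 0x70a04308)) (Pf.C 7 0xc14401)) (Pf.C 0 0x1c288)) Pf.nil)) Pf.nil)) Pf.nil)) (Pf.T 7 2 (Pf.cons (Pf.T 7 3 (Pf.cons (Pf.W 6 6 [1] [0,2,3,4,5,7] (Pf.cons (Pf.B 8 5 (Pf.B 8 2 (Pf.B 8 1 (Pf.B 8 7 (Pf.B 8 0 (Pf.T 8 2 (Pf.cons (Pf.T 8 3 (Pf.cons (Pf.W 6 8 [6] [1,2,5,7] (Pf.cons (Pf.B 9 6 (Pf.B 9 5 (Pf.B 9 2 (Pf.B 9 1 (Pf.C 1 0x4880c14101) (Pf.C 7 0xc14481)) (Pf.C 7 0xe04482)) (Pf.C 7 0xe04485)) (Pf.C 0 0x20309)) Pf.nil)) Pf.nil)) Pf.nil)) (Pf.C 7 0x80c400)) (Pf.C 2 0x60208388)) (Pf.C 0 98440)) (Pf.C 7 0xe04402)) (Pf.C 7 0xe04405)) Pf.nil))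 Pf.nil)) Pf.nil))) (Pf.C 7 0x80c380)) (Pf.C 0 82055)) (Pf.C 8 0xa04307)) Pf.nil)) Pf.nil)) Pf.nil)) (Pf.C 1 0x30c14101)) (Pf.C 1 0x40c14101)) (Pf.C 7 0x80c300)) (Pf.C 0 16646)) (Pf.C 0 17030)) Pf.nil)) Pf.nil)) Pf.nil)) (Pf.T 5 2 (Pf.cons (Pf.T 5 3 (Pf.cons (Pf.W 6 1 [5] [0,2,3,4] (Pf.cons (Pf.B 6 5 (Pf.B 6 3 (Pf.B 6 2 (Pf.B 6 0 (Pf.C 1 0x30a08301) (Pf.C 7 0x80c300)) (Pf.C 0 16646)) (Pf.C 7 0xa00303)) (Pf.C 0 17030)) Pf.nil)) Pf.nil)) Pf.nil))) (Pf.T 5 2 (Pf.cons (Pf.T 5 3 (Pf.cons (Pf.W 6 1 [5] [0,2,3,4] (Pf.cons (Pf.B 6 5 (Pf.B 6 4 (Pf.B 6 2 (Pf.B 6 0 (Pf.C 1 0x40a08301) (Pf.C 7 0x80c300)) (Pf.C 0 16646)) (Pf.C 7 0xa00304)) (Pf.C 0 17030)) Pf.nil)) Pf.nil)) Pf.nil))) (Pf.C 7 0x80c280)) (Pf.C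 0 16645)) Pf.nil)) Pf.nil)) Pf.nil)) (Pf.T 4 2 (Pf.cons (Pf.T 4 3 (Pf.cons (Pf.W 6 1 [4] [0,2,3] (Pf.cons (Pf.B 5 4 (Pf.B 5 2 (Pf.B 5 0 (Pf.B 5 3 (Pf.C 1 0x1800808281) (Pf.C 2 0x10800185)) (Pf.C 7 0x80c280)) (Pf.C 0 16645)) (Pf.C 0 16901)) Pf.nil)) Pf.nil)) Pf.nil))) (Pf.B 4 1 (Pf.T 4 2 (Pf.cons (Pf.T 4 3 (Pf.cons (Pf.W 6 1 [] [0,2,3,4] (Pf.cons (Pf.B 5 2 (Pf.B 5 0 (Pf.B 5 4 (Pf.T 5 2 (Pf.cons (Pf.T 5 3 (Pf.cons (Pf.W 6 1 [5] [0,2,3,4] (Pf.cons (Pf.B 6 5 (Pf.B 6 2 (Pf.B 6 0 (Pf.B 6 4 (Pf.C 1 0x40414301) (Pf.B 6 3 (Pf.T 6 2 (Pf.cons (Pf.T 6 3 (Pf.cons (Pf.W 6 3 [0] [1,2,4,6] (Pf.cons (Pf.B 7 6 (Pf.B 7 4 (Pf.B 7 2 (Pf.B 7 0 (Pf.C 1 0x3830018104) (Pf.C 0 49159)) (Pf.C 7 0x804382)) (Pf.C 7 0xc00384))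 (Pf.C 7 0x804386)) Pf.nil)) Pf.nil)) Pf.nil)) (Pf.C 7 0x804186))) (Pf.C 7 0x80c300)) (Pf.C 0 16646)) (Pf.C 0 17030)) Pf.nil)) Pf.nil)) Pf.nil)) (Pf.B 5 3 (Pf.T 5 2 (Pf.cons (Pf.T 5 3 (Pf.cons (Pf.W 6 3 [0] [1,2,4,5] (Pf.cons (Pf.B 6 5 (Pf.B 6 4 (Pf.B 6 2 (Pf.B 6 0 (Pf.C 1 0x3030014104) (Pf.C 0 49158)) (Pf.C 7 0x804302)) (Pf.C 7 0xa00304)) (Pf.C 7 0x804305)) Pf.nil)) Pf.nil)) Pf.nil)) (Pf.C 7 0x804185))) (Pf.C 7 0x80c280)) (Pf.C 0 16645)) Pf.nil)) Pf.nil)) Pf.nil)) (Pf.C 0 32900))) (Pf.C 0 388)) Pf.nil)) Pf.nil)) Pf.nil)) (Pf.T 3 2 (Pf.cons (Pf.T 3 3 (Pf.cons (Pf.W 6 0 [3] [1,2] (Pf.cons (Pf.B 4 3 (Pf.B 4 1 (Pf.B 4 2 (Pf.T 4 2 (Pf.cons (Pf.T 4 3 (Pf.cons (Pf.W 6 1 [3] [0,2,4] (Pf.cons (Pf.B 5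 3 (Pf.B 5 2 (Pf.B 5 0 (Pf.B 5 4 (Pf.C 1 0x2000608281) (Pf.C 2 0x10600205)) (Pf.C 7 0x80c280)) (Pf.C 0 16645)) (Pf.C 0 16773)) Pf.nil)) Pf.nil)) Pf.nil)) (Pf.C 2 0x604104)) (Pf.C 8 49284)) (Pf.C 0 388)) Pf.nil)) Pf.nil)) Pf.nil))) (Pf.B 3 1 (Pf.T 3 2 (Pf.cons (Pf.T 3 3 (Pf.cons (Pf.W 6 0 [3] [1,2] (Pf.cons (Pf.B 4 3 (Pf.B 4 2 (Pf.B 4 1 (Pf.T 4 2 (Pf.cons (Pf.T 4 3 (Pf.cons (Pf.W 6 1 [] [0,2,3,4] (Pf.cons (Pf.B 5 2 (Pf.B 5 0 (Pf.B 5 4 (Pf.B 5 3 (Pf.T 5 2 (Pf.cons (Pf.T 5 3 (Pf.cons (Pf.W 6 1 [5] [0,2,3,4] (Pf.cons (Pf.B 6 5 (Pf.B 6 2 (Pf.B 6 0 (Pf.B 6 4 (Pf.B 6 3 (Pf.C 1 0x30414301) (Pf.T 6 2 (Pf.cons (Pf.T 6 3 (Pf.cons (Pf.W 6 4 [0] [1,2,3,6] (Pf.cons (Pf.B 7 6 (Pf.B 7 3 (Pf.B 7 2 (Pf.B 7 0 (Pf.C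 1 0x3840018103) (Pf.C 0 65543)) (Pf.C 7 0x604382)) (Pf.C 7 0xc00383)) (Pf.C 7 0x604386)) Pf.nil)) Pf.nil)) Pf.nil))) (Pf.C 1 0x40c14101)) (Pf.C 7 0x80c300)) (Pf.C 0 16646)) (Pf.C 0 17030)) Pf.nil)) Pf.nil)) Pf.nil)) (Pf.T 5 2 (Pf.cons (Pf.T 5 3 (Pf.cons (Pf.W 6 4 [0] [1,2,3,5] (Pf.cons (Pf.B 6 5 (Pf.B 6 3 (Pf.B 6 2 (Pf.B 6 0 (Pf.C 1 0x3040014103) (Pf.C 0 65542)) (Pf.C 7 0x604302)) (Pf.C 7 0xa00303)) (Pf.C 7 0x604305)) Pf.nil)) Pf.nil)) Pf.nil))) (Pf.T 5 2 (Pf.cons (Pf.T 5 3 (Pf.cons (Pf.W 6 1 [5] [0,2,3,4] (Pf.cons (Pf.B 6 5 (Pf.B 6 4 (Pf.B 6 2 (Pf.B 6 0 (Pf.C 1 0x40a08301) (Pf.C 7 0x80c300)) (Pf.C 0 16646)) (Pf.C 7 0xa00304)) (Pf.C 0 17030)) Pf.nil)) Pf.nil)) Pf.nil))) (Pf.C 7 0x80c280)) (Pf.C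 0 16645)) Pf.nil)) Pf.nil)) Pf.nil)) (Pf.C 2 0x608084)) (Pf.C 7 0x604202)) (Pf.C 0 388)) Pf.nil)) Pf.nil)) Pf.nil)) (Pf.C 0 32899))) Pf.nil)))
 (Pq.cons (Pq.L [0] 1 (Pf.W 6 0 [1] [2] (Pf.cons (Pf.B 3 1 (Pf.B 3 2 (Pf.T 3 2 (Pf.cons (Pf.T 3 3 (Pf.cons (Pf.W 6 1 [0] [2,3] (Pf.cons (Pf.B 4 3 (Pf.B 4 2 (Pf.B 4 0 (Pf.T 4 2 (Pf.cons (Pf.T 4 3 (Pf.cons (Pf.W 6 3 [0] [1,2,4] (Pf.cons (Pf.B 5 1 (Pf.B 5 0 (Pf.B 5 4 (Pf.B 5 2 (Pf.C 1 0x2830010101) (Pf.C 2 0x30004105)) (Pf.C 2 0x30004205)) (Pf.C 0 49157)) (Pf.C 7 0x800281)) Pf.nil)) Pf.nil)) Pf.nil)) (Pf.C 0 16388)) (Pf.C 0 16644)) (Pf.C 8 0x200184)) Pf.nil)) Pf.nil)) Pf.nil)) (Pf.T 3 2 (Pf.cons (Pf.T 3 3 (Pf.cons (Pf.W 6 1 [0] [2,3] (Pf.cons (Pf.B 4 3 (Pf.B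 4 2 (Pf.B 4 0 (Pf.T 4 2 (Pf.cons (Pf.T 4 3 (Pf.cons (Pf.W 6 3 [0] [1,2,4] (Pf.cons (Pf.B 5 2 (Pf.B 5 1 (Pf.B 5 4 (Pf.B 5 0 (Pf.T 5 2 (Pf.cons (Pf.T 5 3 (Pf.cons (Pf.W 6 4 [1] [0,2,3,5] (Pf.cons (Pf.B 6 3 (Pf.B 6 2 (Pf.B 6 1 (Pf.B 6 0 (Pf.T 6 2 (Pf.cons (Pf.T 6 3 (Pf.cons (Pf.W 6 6 [4] [0,1,2,3] (Pf.cons (Pf.B 7 4 (Pf.B 7 2 (Pf.B 7 1 (Pf.B 7 0 (Pf.C 1 0x3860808001) (Pf.C 7 0x604380)) (Pf.C 7 0x800381)) (Pf.C 7 0x604382)) (Pf.C 0 98823)) Pf.nil)) Pf.nil)) Pf.nil)) (Pf.C 7 0x604300)) (Pf.C 0 65670)) (Pf.C 7 0x604302)) (Pf.C 7 0xa00303)) Pf.nil)) Pf.nil)) Pf.nil)) (Pf.C 0 49157)) (Pf.C 2 0x30404205)) (Pf.C 7 0x800281)) (Pf.C 0 49413)) Pf.nil)) Pf.nil)) Pf.nil)) (Pf.C 0 16388)) (Pf.C 0 16644)) (Pf.C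 8 0x200184)) Pf.nil)) Pf.nil)) Pf.nil))) (Pf.C 0 131)) Pf.nil)))
 Pq.nil)))
theorem dS_o7 : AllRef dS_T dS_G10 (closeObl (dS_T.sc.get 0) false [9,10,11] [0,0,0] [0] [0] 3) :=
  chkPq_sound dS_o7c _ (by decide +kernel)
noncomputable def dS_o8c : Pq := (Pq.cons (Pq.L [0] 0 (Pf.C 7 0x608080))
 Pq.nil)
theorem dS_o8 : AllRef dS_T dS_G11 (hitObl [10] dS_h14) :=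
  chkPq_sound dS_o8c _ (by decide +kernel)
noncomputable def dS_o9c : Pq := (Pq.cons (Pq.L [] 0 (Pf.C 10 1))
 Pq.nil)
theorem dS_o9 : AllRef dS_T dS_G12 (List.map pat1 [12]) :=
  chkPq_sound dS_o9c _ (by decide +kernel)
noncomputable def dS_o10c : Pq := (Pq.cons (Pq.L [] 7 (Pf.C 7 0x80c101))
 Pq.nil)
theorem dS_o10 : AllRef dS_T dS_G13 (applyObl TD2 1 [9] [0] []) :=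
  chkPq_sound dS_o10c _ (by decide +kernel)
noncomputable def dS_o11c : Pq := Pq.nil
theorem dS_o11 : AllRef dS_T dS_G2 (ptObl 1 PT.kid []) :=
  chkPq_sound dS_o11c _ (by decide +kernel)
noncomputable def dS_o12c : Pq := (Pq.cons (Pq.L [3,4] 0 (Pf.C 0 65925))
 (Pq.cons (Pq.L [2,3] 0 (Pf.C 0 49413))
 (Pq.cons (Pq.L [3,4] 0 (Pf.C 0 65925))
 (Pq.cons (Pq.L [1,2] 0 (Pf.C 0 32901))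
 (Pq.cons (Pq.L [0,4] 0 (Pf.C 0 65541))
 (Pq.cons (Pq.L [0,4] 0 (Pf.C 0 65541))
 (Pq.cons (Pq.L [0,4] 0 (Pf.C 0 65541))
 (Pq.cons (Pq.L [2,3] 0 (Pf.C 0 49413))
 (Pq.cons (Pq.L [0,1] 0 (Pf.C 0 16389))
 Pq.nil)))))))))
theorem dS_o12 : AllRef dS_T dS_G14 (ptObl 13 (PT.br 0 (PT.br 1 (PT.br 2 (PT.br 3 (PT.br 4 PT.kid PT.kid) (PT.br 4 PT.kid PT.ref)) (PT.br 3 (PT.br 4 PT.kid PT.kid) PT.ref)) (PT.br 2 (PT.br 3 (PT.br 4 PT.kid PT.kid) (PT.br 4 PT.kid PT.ref)) PT.ref)) (PT.br 1 (PT.br 2 (PT.br 3 (PT.br 4 PT.kid PT.ref) (PT.br 4 PT.kid PT.ref)) (PT.br 3 (PT.br 4 PT.kid PT.ref) PT.ref)) PT.ref)) []) :=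
  chkPq_sound dS_o12c _ (by decide +kernel)
noncomputable def dS_o13c : Pq := (Pq.cons (Pq.L [] 0 (Pf.X 0 5))
 (Pq.cons (Pq.L [] 0 (Pf.X 1 5))
 (Pq.cons (Pq.L [] 0 (Pf.X 2 5))
 (Pq.cons (Pq.L [] 0 (Pf.X 3 5))
 (Pq.cons (Pq.L [] 0 (Pf.X 4 5))
 (Pq.cons (Pq.L [0,1,2,3,4] 1 (Pf.W 11 5 [] [0,1,2,3,4,6] (Pf.cons (Pf.B 7 6 (Pf.C 1 0x3050e0c004) (Pf.C 12 902)) (Pf.cons (Pf.B 7 6 (Pf.C 1 0x3050e10103) (Pf.C 12 902)) (Pf.cons (Pf.B 7 6 (Pf.C 1 0x3050e0c082) (Pf.C 12 902)) (Pf.cons (Pf.B 7 6 (Pf.C 1 0x3050e0c082) (Pf.C 12 902)) (Pf.cons (Pf.B 7 6 (Pf.C 1 0x3050e08001) (Pf.C 12 902)) (Pf.cons (Pf.B 7 6 (Pf.C 1 0x3050e08001) (Pf.C 12 902)) (Pf.cons (Pf.B 7 6 (Pf.C 1 0x3050e08001) (Pf.C 12 902)) (Pf.cons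 (Pf.B 7 6 (Pf.C 1 0x3050e10080) (Pf.C 12 902)) (Pf.cons (Pf.B 7 6 (Pf.C 1 0x3050e10080) (Pf.C 12 902)) (Pf.cons (Pf.B 7 6 (Pf.C 1 0x3050e10080) (Pf.C 12 902)) Pf.nil))))))))))))
 (Pq.cons (Pq.L [] 1 (Pf.C 12 646))
 (Pq.cons (Pq.L [] 1 (Pf.C 12 646))
 (Pq.cons (Pq.L [] 1 (Pf.C 12 646))
 (Pq.cons (Pq.L [] 1 (Pf.C 12 646))
 (Pq.cons (Pq.L [] 1 (Pf.C 12 646))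
 (Pq.cons (Pq.L [] 1 (Pf.C 12 646))
 (Pq.cons (Pq.L [] 1 (Pf.C 12 646))
 (Pq.cons (Pq.L [] 1 (Pf.C 12 646))
 (Pq.cons (Pq.L [] 1 (Pf.C 12 646))
 (Pq.cons (Pq.L [] 1 (Pf.C 12 646))
 Pq.nil))))))))))))))))
theorem dS_o13 : AllRef dS_T dS_G16 (closeObl (dS_T.sc.get 0) false [25,26,15,16,17,18,19,20,21,22,23,24] [0,0,0,0,0,0,0,0,0,0,0,0] [0,1,2,3,4] [0,0,0,0,0] 4093) :=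
  chkPq_sound dS_o13c _ (by decide +kernel)
noncomputable def dS_o14c : Pq := (Pq.cons (Pq.L [0,1,2,4] 0 (Pf.B 8 6 (Pf.C 1 0x1010018404) (Pf.C 0 66312)))
 (Pq.cons (Pq.L [0,1,2,3] 0 (Pf.B 8 6 (Pf.C 1 0x10418403) (Pf.C 0 49928)))
 (Pq.cons (Pq.L [0,1,2,4] 0 (Pf.B 8 6 (Pf.C 1 0x2000218402) (Pf.C 0 33544)))
 (Pq.cons (Pq.L [0,1,3,4] 0 (Pf.B 8 6 (Pf.C 1 0x1840018401) (Pf.C 0 17160)))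
 (Pq.cons (Pq.L [0,1,2,3] 0 (Pf.B 8 6 (Pf.C 1 0x1820218400) (Pf.C 0 776)))
 (Pq.cons (Pq.L [0,1,2,3] 0 (Pf.B 8 6 (Pf.C 1 0x10418403) (Pf.C 0 49928)))
 (Pq.cons (Pq.L [0,1,2,4] 0 (Pf.B 8 6 (Pf.C 1 0x2000218402) (Pf.C 0 33544)))
 (Pq.cons (Pq.L [0,1,2,4] 0 (Pf.B 7 5 (Pf.C 1 0x1010014384) (Pf.C 0 66183)))
 (Pq.cons (Pq.L [0,1,3,4] 0 (Pf.B 8 6 (Pf.C 1 0x1840018401) (Pf.C 0 17160)))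
 (Pq.cons (Pq.L [0,1,2,4] 0 (Pf.B 7 5 (Pf.C 1 0x1010014384) (Pf.C 0 66183)))
 (Pq.cons (Pq.L [0,1,2,4] 0 (Pf.B 7 5 (Pf.C 1 0x1010014384) (Pf.C 0 66183)))
 (Pq.cons (Pq.L [0,1,2,3] 0 (Pf.B 8 6 (Pf.C 1 0x1820218400) (Pf.C 0 776)))
 (Pq.cons (Pq.L [0,1,2,4] 0 (Pf.B 7 5 (Pf.C 1 0x1010014384) (Pf.C 0 66183)))
 (Pq.cons (Pq.L [0,1,2,4] 0 (Pf.B 7 5 (Pf.C 1 0x1010014384) (Pf.C 0 66183)))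
 (Pq.cons (Pq.L [0,1,2,4] 0 (Pf.B 8 6 (Pf.C 1 0x2000218402) (Pf.C 0 33544)))
 (Pq.cons (Pq.L [0,1,2,3] 0 (Pf.B 7 5 (Pf.C 1 0x10414383) (Pf.C 0 49799)))
 (Pq.cons (Pq.L [0,1,3,4] 0 (Pf.B 8 6 (Pf.C 1 0x1840018401) (Pf.C 0 17160)))
 (Pq.cons (Pq.L [0,1,2,3] 0 (Pf.B 7 5 (Pf.C 1 0x10414383) (Pf.C 0 49799)))
 (Pq.cons (Pq.L [0,1,3,4] 0 (Pf.B 7 5 (Pf.C 1 0x800814383) (Pf.C 0 49799)))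
 (Pq.cons (Pq.L [0,1,2,3] 0 (Pf.B 8 6 (Pf.C 1 0x1820218400) (Pf.C 0 776)))
 (Pq.cons (Pq.L [0,1,3,4] 0 (Pf.B 7 5 (Pf.C 1 0x800814383) (Pf.C 0 49799)))
 (Pq.cons (Pq.L [0,1,2,3] 0 (Pf.B 7 5 (Pf.C 1 0x10414383) (Pf.C 0 49799)))
 (Pq.cons (Pq.L [0,1,2,4] 0 (Pf.B 7 5 (Pf.C 1 0x2000214382) (Pf.C 0 33415)))
 (Pq.cons (Pq.L [0,1,3,4] 0 (Pf.B 8 6 (Pf.C 1 0x1840018401) (Pf.C 0 17160)))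
 (Pq.cons (Pq.L [0,1,2,4] 0 (Pf.B 7 5 (Pf.C 1 0x2000214382) (Pf.C 0 33415)))
 (Pq.cons (Pq.L [0,1,2,4] 0 (Pf.B 7 5 (Pf.C 1 0x2000214382) (Pf.C 0 33415)))
 (Pq.cons (Pq.L [0,1,2,3] 0 (Pf.B 8 6 (Pf.C 1 0x1820218400) (Pf.C 0 776)))
 (Pq.cons (Pq.L [0,1,2,4] 0 (Pf.B 7 5 (Pf.C 1 0x2000214382) (Pf.C 0 33415)))
 (Pq.cons (Pq.L [0,1,2,4] 0 (Pf.B 7 5 (Pf.C 1 0x2000214382) (Pf.C 0 33415)))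
 (Pq.cons (Pq.L [0,1,3,4] 0 (Pf.B 8 6 (Pf.C 1 0x1840018401) (Pf.C 0 17160)))
 (Pq.cons (Pq.L [0,1,2,3] 0 (Pf.B 8 6 (Pf.C 1 0x1820218400) (Pf.C 0 776)))
 (Pq.cons (Pq.L [1,2,3,4] 0 (Pf.B 7 5 (Pf.C 1 0x2030414381) (Pf.C 0 17031)))
 (Pq.cons (Pq.L [1,2,3,4] 0 (Pf.B 7 5 (Pf.C 1 0x2030414381) (Pf.C 0 17031)))
 (Pq.cons (Pq.L [0,1,2,3] 0 (Pf.B 8 6 (Pf.C 1 0x1820218400) (Pf.C 0 776)))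
 (Pq.cons (Pq.L [0,1,3,4] 0 (Pf.B 7 5 (Pf.C 1 0x1840014381) (Pf.C 0 17031)))
 (Pq.cons (Pq.L [0,1,3,4] 0 (Pf.B 7 5 (Pf.C 1 0x1840014381) (Pf.C 0 17031)))
 (Pq.cons (Pq.L [0,1,2,3] 0 (Pf.B 8 6 (Pf.C 1 0x1820218400) (Pf.C 0 776)))
 (Pq.cons (Pq.L [0,1,2,3] 0 (Pf.B 8 6 (Pf.C 1 0x1820218400) (Pf.C 0 776)))
 (Pq.cons (Pq.L [0,1,2,3] 0 (Pf.B 7 5 (Pf.C 1 0x1820214380) (Pf.C 0 647)))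
 (Pq.cons (Pq.L [0,1,2,3] 0 (Pf.B 7 5 (Pf.C 1 0x1820214380) (Pf.C 0 647)))
 Pq.nil))))))))))))))))))))))))))))))))))))))))
theorem dS_o14 : AllRef dS_T dS_G17 (hitObl [15,16,17,18,19,20,21,22,23,24,25] dS_h23) :=
  chkPq_sound dS_o14c _ (by decide +kernel)
noncomputable def dS_o15c : Pq := (Pq.cons (Pq.L [0,1,2,3,4] 7 (Pf.B 10 7 (Pf.B 10 6 (Pf.B 10 5 (Pf.C 1 0x3050e00501) (Pf.C 1 0x1820c1c505)) (Pf.C 0 66314)) (Pf.C 0 17290)))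
 (Pq.cons (Pq.L [0,1,2,3,4] 7 (Pf.B 10 7 (Pf.B 10 6 (Pf.B 10 5 (Pf.C 1 0x3050e04500) (Pf.C 1 0x1840c1c505)) (Pf.C 0 33546)) (Pf.C 0 906)))
 (Pq.cons (Pq.L [0,1,2,3,4] 7 (Pf.B 10 7 (Pf.B 10 6 (Pf.B 10 5 (Pf.C 1 0x3050e08503) (Pf.C 1 0x40c1c505)) (Pf.C 0 17162)) (Pf.C 0 17290)))
 (Pq.cons (Pq.L [0,1,2,3,4] 7 (Pf.B 10 7 (Pf.B 10 6 (Pf.B 10 5 (Pf.C 1 0x3050e10500) (Pf.C 1 0x1010c1c505)) (Pf.C 0 49930)) (Pf.C 0 906)))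
 (Pq.cons (Pq.L [0,1,2,3,4] 7 (Pf.B 10 7 (Pf.B 10 6 (Pf.B 10 5 (Pf.C 1 0x3050e04502) (Pf.C 1 0x2030c1c505)) (Pf.C 0 778)) (Pf.C 0 906)))
 (Pq.cons (Pq.L [0,1,2,3,4] 39 (Pf.B 10 7 (Pf.B 10 6 (Pf.C 1 0x86081c503) (Pf.B 10 5 (Pf.C 1 0x282061800a) (Pf.B 9 7 (Pf.C 1 0x890828383) (Pf.B 9 5 (Pf.C 1 0x505081c089) (Pf.C 0 66185))))) (Pf.C 0 906)))
 (Pq.cons (Pq.L [0,1,2,3,4] 3 (Pf.B 10 7 (Pf.B 10 6 (Pf.B 10 5 (Pf.C 1 0x105081c500) (Pf.C 1 0x3010410505)) (Pf.C 0 49930)) (Pf.C 0 906)))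
 (Pq.cons (Pq.L [0,1,2,3,4] 5 (Pf.B 10 7 (Pf.B 10 6 (Pf.C 1 0x186021c500) (Pf.B 10 5 (Pf.C 1 0x2840604506) (Pf.C 0 33418))) (Pf.C 0 906)))
 (Pq.cons (Pq.L [0,1,2,3,4] 39 (Pf.B 10 7 (Pf.B 10 6 (Pf.C 1 0x186021c500) (Pf.B 10 5 (Pf.C 1 0x284001810a) (Pf.B 9 7 (Pf.C 1 0x1890228380) (Pf.B 9 5 (Pf.C 1 0x505021c189) (Pf.C 0 17033))))) (Pf.C 0 906)))
 (Pq.cons (Pq.L [0,1,2,3,4] 3 (Pf.B 10 7 (Pf.B 10 6 (Pf.B 10 5 (Pf.C 1 0x205021c502) (Pf.C 1 0x3030804505)) (Pf.C 0 778)) (Pf.C 0 906)))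
 Pq.nil))))))))))
theorem dS_o15 : AllRef dS_T dS_G18 (hitObl [30,32,33,35,36,37] dS_h24) :=
  chkPq_sound dS_o15c _ (by decide +kernel)
noncomputable def dS_o16c : Pq := (Pq.cons (Pq.L [0,1,2,4] 0 (Pf.B 6 5 (Pf.C 1 0x1010014304) (Pf.C 0 66182)))
 (Pq.cons (Pq.L [0,1,2,3] 0 (Pf.B 6 5 (Pf.C 1 0x10414303) (Pf.C 0 49798)))
 (Pq.cons (Pq.L [0,1,2,4] 0 (Pf.B 6 5 (Pf.C 1 0x2000214302) (Pf.C 0 33414)))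
 (Pq.cons (Pq.L [0,1,3,4] 0 (Pf.B 6 5 (Pf.C 1 0x1840014301) (Pf.C 0 17030)))
 (Pq.cons (Pq.L [0,1,2,3] 0 (Pf.B 6 5 (Pf.C 1 0x1820214300) (Pf.C 0 646)))
 Pq.nil)))))
theorem dS_o16 : AllRef dS_T dS_G19 (hitObl [27,28,29,31,34] dS_h25) :=
  chkPq_sound dS_o16c _ (by decide +kernel)
noncomputable def dS_o17c : Pq := (Pq.cons (Pq.L [] 0 (Pf.C 23 5))
 (Pq.cons (Pq.L [] 0 (Pf.C 24 5))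
 (Pq.cons (Pq.L [] 0 (Pf.C 25 5))
 (Pq.cons (Pq.L [] 0 (Pf.C 26 5))
 (Pq.cons (Pq.L [] 0 (Pf.C 27 5))
 Pq.nil)))))
theorem dS_o17 : AllRef dS_T dS_G20 (List.map pat1 [44,45,46,47,48]) :=
  chkPq_sound dS_o17c _ (by decide +kernel)
noncomputable def dS_o18c : Pq := (Pq.cons (Pq.L [0,1,2,3,4] 2 (Pf.W 11 5 [] [0,1,2,3,4,7] (Pf.cons (Pf.B 8 7 (Pf.C 1 0x385100c004) (Pf.C 0 82824)) (Pf.cons (Pf.B 8 7 (Pf.C 1 0x3851010103) (Pf.C 0 82824)) (Pf.cons (Pf.B 8 7 (Pf.C 1 0x385100c082) (Pf.C 0 82824)) (Pf.cons (Pf.B 8 7 (Pf.C 1 0x385100c082) (Pf.C 0 82824)) (Pf.cons (Pf.B 8 7 (Pf.C 1 0x3851008001) (Pf.C 0 82824)) (Pf.cons (Pf.B 8 7 (Pf.C 1 0x3851008001) (Pf.C 0 82824)) (Pf.cons (Pf.B 8 7 (Pf.C 1 0x3851008001)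 (Pf.C 0 82824)) (Pf.cons (Pf.B 8 7 (Pf.C 1 0x3851010080) (Pf.C 0 82824)) (Pf.cons (Pf.B 8 7 (Pf.C 1 0x3851010080) (Pf.C 0 82824)) (Pf.cons (Pf.B 8 7 (Pf.C 1 0x3851010080) (Pf.C 0 82824)) Pf.nil))))))))))))
 (Pq.cons (Pq.L [2] 2 (Pf.C 0 0x1c105))
 (Pq.cons (Pq.L [4] 2 (Pf.C 0 0x1c205))
 (Pq.cons (Pq.L [2] 2 (Pf.C 0 0x1c105))
 (Pq.cons (Pq.L [4] 2 (Pf.C 0 0x1c205))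
 (Pq.cons (Pq.L [1] 2 (Pf.C 0 0x1c085))
 (Pq.cons (Pq.L [1] 2 (Pf.C 0 0x1c085))
 (Pq.cons (Pq.L [1] 2 (Pf.C 0 0x1c085))
 (Pq.cons (Pq.L [1] 2 (Pf.C 0 0x1c085))
 (Pq.cons (Pq.L [3] 2 (Pf.C 0 0x1c185))
 (Pq.cons (Pq.L [3] 2 (Pf.C 0 0x1c185))
 (Pq.cons (Pq.L [0] 2 (Pf.C 0 0x1c005))
 (Pq.cons (Pq.L [0] 2 (Pf.C 0 0x1c005))
 (Pq.cons (Pq.L [2] 2 (Pf.C 0 0x1c105))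
 (Pq.cons (Pq.L [0] 2 (Pf.C 0 0x1c005))
 (Pq.cons (Pq.L [0] 2 (Pf.C 0 0x1c005))
 Pq.nil))))))))))))))))
theorem dS_o18 : AllRef dS_T dS_G21 (twinObl [43,38,39,40,41,42] 0 [62,25,49,35,7,13]) :=
  chkPq_sound dS_o18c _ (by decide +kernel)
noncomputable def dS_o19c : Pq := (Pq.cons (Pq.D 0 (Pq.cons (Pq.D 1 (Pq.cons (Pq.L [0,1,2,3,4] 7 (Pf.B 8 6 (Pf.B 7 6 (Pf.T 7 6 (Pf.cons (Pf.T 7 7 (Pf.cons (Pf.T 8 6 (Pf.cons (Pf.T 8 7 (Pf.cons (Pf.W 11 5 [] [0,1,2,3,4,8] (Pf.cons (Pf.B 9 8 (Pf.C 1 0x405120c004) (Pf.C 0 82953)) (Pf.cons (Pf.B 9 8 (Pf.C 1 0x4051210103) (Pf.C 0 82953)) (Pf.cons (Pf.B 9 8 (Pf.C 1 0x405120c082) (Pf.C 0 82953)) (Pf.cons (Pf.B 9 8 (Pf.C 1 0x405120c082) (Pf.C 0 82953)) (Pf.cons (Pf.B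 9 8 (Pf.C 1 0x4051208001) (Pf.C 0 82953)) (Pf.cons (Pf.B 9 8 (Pf.C 1 0x4051208001) (Pf.C 0 82953)) (Pf.cons (Pf.B 9 8 (Pf.C 1 0x4051208001) (Pf.C 0 82953)) (Pf.cons (Pf.B 9 8 (Pf.C 1 0x4051210080) (Pf.C 0 82953)) (Pf.cons (Pf.B 9 8 (Pf.C 1 0x4051210080) (Pf.C 0 82953)) (Pf.cons (Pf.B 9 8 (Pf.C 1 0x4051210080) (Pf.C 0 82953)) Pf.nil))))))))))) Pf.nil)) (Pf.cons (Pf.C 1 0x305100c004) (Pf.cons (Pf.C 1 0x3051010103) (Pf.cons (Pf.C 1 0x305100c082) (Pf.cons (Pf.C 1 0x305100c082) (Pf.cons (Pf.C 1 0x3051008001) (Pf.cons (Pf.C 1 0x3051008001) (Pf.cons (Pf.C 1 0x3051008001) (Pf.cons (Pf.C 1 0x3051010080) (Pf.cons (Pf.C 1 0x3051010080) (Pf.cons (Pf.C 1 0x3051010080) Pf.nil)))))))))))) Pf.nil)) (Pf.cons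 (Pf.C 1 0x3050e0c004) (Pf.cons (Pf.C 1 0x3050e10103) (Pf.cons (Pf.C 1 0x3050e0c082) (Pf.cons (Pf.C 1 0x3050e0c082) (Pf.cons (Pf.C 1 0x3050e08001) (Pf.cons (Pf.C 1 0x3050e08001) (Pf.cons (Pf.C 1 0x3050e08001) (Pf.cons (Pf.C 1 0x3050e10080) (Pf.cons (Pf.C 1 0x3050e10080) (Pf.cons (Pf.C 1 0x3050e10080) Pf.nil)))))))))))) (Pf.C 0 82695)) (Pf.C 0 82696)))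
 (Pq.cons (Pq.D 2 (Pq.cons (Pq.L [1,2,3] 3 (Pf.B 7 6 (Pf.C 1 0x3850c0c082) (Pf.C 0 82695)))
 (Pq.cons (Pq.L [0,1,2,3] 7 (Pf.B 8 7 (Pf.B 8 6 (Pf.B 7 6 (Pf.W 28 902 [] [0,1,2,3,5] (Pf.cons (Pf.B 9 5 (Pf.C 1 0x10414486) (Pf.C 0 98953)) (Pf.cons (Pf.B 9 5 (Pf.C 1 0x10414487) (Pf.C 0 0x1c289)) (Pf.cons (Pf.B 9 5 (Pf.C 1 0x3850c0c089) (Pf.C 0 98953)) (Pf.cons (Pf.B 9 5 (Pf.C 1 0x3050e0c089) (Pf.C 0 0x1c289)) (Pf.cons (Pf.B 9 5 (Pf.C 1 0x3850c0c009) (Pf.C 0 98953)) (Pf.cons (Pf.B 9 5 (Pf.C 1 0x3050e0c009) (Pf.C 0 0x1c289)) Pf.nil))))))) (Pf.C 0 33543)) (Pf.C 0 82696)) (Pf.C 0 82824)))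
 (Pq.cons (Pq.L [4] 3 (Pf.B 7 6 (Pf.C 13 0x1c305) (Pf.C 0 66311)))
 (Pq.cons (Pq.D 3 (Pq.cons (Pq.L [0,1,2] 6 (Pf.B 8 7 (Pf.C 1 0x4050e08001) (Pf.C 0 82824)))
 (Pq.cons (Pq.L [0,1,2] 7 (Pf.B 8 7 (Pf.B 8 6 (Pf.B 7 6 (Pf.C 1 0x10e20305) (Pf.C 0 82695)) (Pf.C 0 33544)) (Pf.C 0 82824)))
 (Pq.cons (Pq.L [1] 6 (Pf.B 8 7 (Pf.C 15 0x1c405) (Pf.C 0 17288)))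
 (Pq.cons (Pq.L [0,1,4] 7 (Pf.B 8 7 (Pf.B 8 6 (Pf.B 7 6 (Pf.C 1 0x40c20385) (Pf.C 0 82695)) (Pf.C 0 82696)) (Pf.C 0 17288)))
 (Pq.cons (Pq.L [3] 6 (Pf.B 8 7 (Pf.C 16 0x20385) (Pf.C 0 50056)))
 (Pq.cons (Pq.L [2] 5 (Pf.B 8 6 (Pf.C 14 0x20305) (Pf.C 0 33544)))
 Pq.nil))))))) (Pq.cons (Pq.D 3 (Pq.cons (Pq.L [0,1,4] 6 (Pf.B 8 7 (Pf.C 1 0x4050e10080) (Pf.C 0 82824)))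
 (Pq.cons (Pq.L [0,1,2] 7 (Pf.B 8 7 (Pf.B 8 6 (Pf.B 7 6 (Pf.C 1 0x800e20305) (Pf.C 0 82695)) (Pf.C 0 33544)) (Pf.C 0 82824)))
 (Pq.cons (Pq.L [4] 5 (Pf.B 8 6 (Pf.C 13 0x20305) (Pf.C 0 66312)))
 (Pq.cons (Pq.L [3] 6 (Pf.B 8 7 (Pf.C 16 0x1c405) (Pf.C 0 50056)))
 (Pq.cons (Pq.L [0,1,2] 7 (Pf.B 8 7 (Pf.B 8 6 (Pf.B 7 6 (Pf.C 1 0x820c20385) (Pf.C 0 82695)) (Pf.C 0 82696)) (Pf.C 0 904)))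
 (Pq.cons (Pq.L [0] 6 (Pf.B 8 7 (Pf.C 17 0x20385) (Pf.C 0 904)))
 Pq.nil))))))) (Pq.cons (Pq.L [2] 3 (Pf.B 7 6 (Pf.C 14 0x1c305) (Pf.C 0 33543)))
 Pq.nil))))))) (Pq.cons (Pq.D 2 (Pq.cons (Pq.L [0,1,2] 3 (Pf.B 7 6 (Pf.C 1 0x3850c08001) (Pf.C 0 82695)))
 (Pq.cons (Pq.L [4] 3 (Pf.B 7 6 (Pf.C 13 99205) (Pf.C 0 66311)))
 (Pq.cons (Pq.L [0,1,2,3] 7 (Pf.B 8 7 (Pf.B 8 6 (Pf.B 7 6 (Pf.W 29 902 [] [0,1,2,3,5] (Pf.cons (Pf.B 9 5 (Pf.C 1 0x1820214486) (Pf.C 0 98953)) (Pf.cons (Pf.B 9 5 (Pf.C 1 0x1820214487) (Pf.C 0 0x1c289)) (Pf.cons (Pf.B 9 5 (Pf.C 1 0x3850c0c009) (Pf.C 0 98953)) (Pf.cons (Pf.B 9 5 (Pf.C 1 0x3050e0c009) (Pf.C 0 0x1c289)) (Pf.cons (Pf.B 9 5 (Pf.C 1 0x3850c08009) (Pf.C 0 98953)) (Pf.cons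 (Pf.B 9 5 (Pf.C 1 0x3050e08009) (Pf.C 0 0x1c289)) Pf.nil))))))) (Pf.C 0 17159)) (Pf.C 0 82696)) (Pf.C 0 82824)))
 (Pq.cons (Pq.L [1] 3 (Pf.B 7 6 (Pf.C 15 0x1c305) (Pf.C 0 17159)))
 (Pq.cons (Pq.D 3 (Pq.cons (Pq.L [0,1,4] 6 (Pf.B 8 7 (Pf.C 1 0x4050e10080) (Pf.C 0 82824)))
 (Pq.cons (Pq.L [4] 5 (Pf.B 8 6 (Pf.C 13 99333) (Pf.C 0 66312)))
 (Pq.cons (Pq.L [1,2,3] 7 (Pf.B 8 7 (Pf.B 8 6 (Pf.B 7 6 (Pf.C 1 0x1030e20305) (Pf.C 0 82695)) (Pf.C 0 17160)) (Pf.C 0 82824)))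
 (Pq.cons (Pq.L [3] 6 (Pf.B 8 7 (Pf.C 16 0x1c405) (Pf.C 0 50056)))
 (Pq.cons (Pq.L [0,1,2] 7 (Pf.B 8 7 (Pf.B 8 6 (Pf.B 7 6 (Pf.C 1 0x1010c20385) (Pf.C 0 82695)) (Pf.C 0 82696)) (Pf.C 0 904)))
 (Pq.cons (Pq.L [0] 6 (Pf.B 8 7 (Pf.C 17 0x20385) (Pf.C 0 904)))
 Pq.nil))))))) (Pq.cons (Pq.D 3 (Pq.cons (Pq.L [0,1,4] 6 (Pf.B 8 7 (Pf.C 1 0x4050e10080) (Pf.C 0 82824)))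
 (Pq.cons (Pq.L [2] 6 (Pf.B 8 7 (Pf.C 14 0x1c405) (Pf.C 0 33672)))
 (Pq.cons (Pq.L [1,2,3] 7 (Pf.B 8 7 (Pf.B 8 6 (Pf.B 7 6 (Pf.C 1 0x1820e20305) (Pf.C 0 82695)) (Pf.C 0 17160)) (Pf.C 0 82824)))
 (Pq.cons (Pq.L [1] 5 (Pf.B 8 6 (Pf.C 15 0x20305) (Pf.C 0 17160)))
 (Pq.cons (Pq.L [0] 6 (Pf.B 8 7 (Pf.C 17 0x1c405) (Pf.C 0 904)))
 (Pq.cons (Pq.L [0,3,4] 7 (Pf.B 8 7 (Pf.B 8 6 (Pf.B 7 6 (Pf.C 1 0x1840c20385) (Pf.C 0 82695)) (Pf.C 0 82696)) (Pf.C 0 904)))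
 Pq.nil))))))) Pq.nil))))))) (Pq.cons (Pq.D 2 (Pq.cons (Pq.L [0,1,2] 3 (Pf.B 7 6 (Pf.C 1 0x3850c08001) (Pf.C 0 82695)))
 (Pq.cons (Pq.D 3 (Pq.cons (Pq.L [1,2,3] 6 (Pf.B 8 7 (Pf.C 1 0x4050e0c082) (Pf.C 0 82824)))
 (Pq.cons (Pq.L [0,1,2] 7 (Pf.B 8 7 (Pf.B 8 6 (Pf.B 7 6 (Pf.C 1 0x10c20385) (Pf.C 0 82695)) (Pf.C 0 82696)) (Pf.C 0 33672)))
 (Pq.cons (Pq.L [4] 6 (Pf.B 8 7 (Pf.C 13 0x20385) (Pf.C 0 66440)))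
 (Pq.cons (Pq.L [0,1,4] 7 (Pf.B 8 7 (Pf.B 8 6 (Pf.B 7 6 (Pf.C 1 0x40e20305) (Pf.C 0 82695)) (Pf.C 0 17160)) (Pf.C 0 82824)))
 (Pq.cons (Pq.L [3] 5 (Pf.B 8 6 (Pf.C 16 0x20305) (Pf.C 0 49928)))
 (Pq.cons (Pq.L [2] 6 (Pf.B 8 7 (Pf.C 14 0x20385) (Pf.C 0 33672)))
 Pq.nil))))))) (Pq.cons (Pq.L [1] 3 (Pf.B 7 6 (Pf.C 15 99205) (Pf.C 0 17159)))
 (Pq.cons (Pq.L [0,1,2,4] 7 (Pf.B 8 7 (Pf.B 8 6 (Pf.B 7 6 (Pf.W 30 902 [] [0,1,2,4,5] (Pf.cons (Pf.B 9 5 (Pf.C 1 0x2000214486) (Pf.C 0 98953)) (Pf.cons (Pf.B 9 5 (Pf.C 1 0x2000214487) (Pf.C 0 0x1c289)) (Pf.cons (Pf.B 9 5 (Pf.C 1 0x3850c10109) (Pf.C 0 98953)) (Pf.cons (Pf.B 9 5 (Pf.C 1 0x3050e10109) (Pf.C 0 0x1c289)) (Pf.cons (Pf.B 9 5 (Pf.C 1 0x3850c08009) (Pf.C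 0 98953)) (Pf.cons (Pf.B 9 5 (Pf.C 1 0x3050e08009) (Pf.C 0 0x1c289)) Pf.nil))))))) (Pf.C 0 17159)) (Pf.C 0 82696)) (Pf.C 0 82824)))
 (Pq.cons (Pq.L [3] 3 (Pf.B 7 6 (Pf.C 16 0x1c305) (Pf.C 0 49927)))
 (Pq.cons (Pq.D 3 (Pq.cons (Pq.L [0,1,4] 6 (Pf.B 8 7 (Pf.C 1 0x4050e10080) (Pf.C 0 82824)))
 (Pq.cons (Pq.L [2] 6 (Pf.B 8 7 (Pf.C 14 0x1c405) (Pf.C 0 33672)))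
 (Pq.cons (Pq.L [1] 5 (Pf.B 8 6 (Pf.C 15 99333) (Pf.C 0 17160)))
 (Pq.cons (Pq.L [0,1,4] 7 (Pf.B 8 7 (Pf.B 8 6 (Pf.B 7 6 (Pf.C 1 0x2000e20305) (Pf.C 0 82695)) (Pf.C 0 17160)) (Pf.C 0 82824)))
 (Pq.cons (Pq.L [0] 6 (Pf.B 8 7 (Pf.C 17 0x1c405) (Pf.C 0 904)))
 (Pq.cons (Pq.L [0,3,4] 7 (Pf.B 8 7 (Pf.B 8 6 (Pf.B 7 6 (Pf.C 1 0x2030c20385) (Pf.C 0 82695)) (Pf.C 0 82696)) (Pf.C 0 904)))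
 Pq.nil))))))) Pq.nil))))))) (Pq.cons (Pq.D 2 (Pq.cons (Pq.L [0,1,4] 3 (Pf.B 7 6 (Pf.C 1 0x3850c10080) (Pf.C 0 82695)))
 (Pq.cons (Pq.D 3 (Pq.cons (Pq.L [1,2,3] 6 (Pf.B 8 7 (Pf.C 1 0x4050e0c082) (Pf.C 0 82824)))
 (Pq.cons (Pq.L [0,1,2] 7 (Pf.B 8 7 (Pf.B 8 6 (Pf.B 7 6 (Pf.C 1 0x800c20385) (Pf.C 0 82695)) (Pf.C 0 82696)) (Pf.C 0 33672)))
 (Pq.cons (Pq.L [4] 6 (Pf.B 8 7 (Pf.C 13 0x20385) (Pf.C 0 66440)))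
 (Pq.cons (Pq.L [3] 5 (Pf.B 8 6 (Pf.C 16 99333) (Pf.C 0 49928)))
 (Pq.cons (Pq.L [0,1,2] 7 (Pf.B 8 7 (Pf.B 8 6 (Pf.B 7 6 (Pf.C 1 0x820e20305) (Pf.C 0 82695)) (Pf.C 0 776)) (Pf.C 0 82824)))
 (Pq.cons (Pq.L [2] 6 (Pf.B 8 7 (Pf.C 14 0x20385) (Pf.C 0 33672)))
 Pq.nil))))))) (Pq.cons (Pq.D 3 (Pq.cons (Pq.L [0,1,2] 6 (Pf.B 8 7 (Pf.C 1 0x4050e08001) (Pf.C 0 82824)))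
 (Pq.cons (Pq.L [4] 6 (Pf.B 8 7 (Pf.C 13 0x1c405) (Pf.C 0 66440)))
 (Pq.cons (Pq.L [1,2,3] 7 (Pf.B 8 7 (Pf.B 8 6 (Pf.B 7 6 (Pf.C 1 0x1030c20385) (Pf.C 0 82695)) (Pf.C 0 82696)) (Pf.C 0 17288)))
 (Pq.cons (Pq.L [1] 6 (Pf.B 8 7 (Pf.C 15 0x20385) (Pf.C 0 17288)))
 (Pq.cons (Pq.L [0,1,2] 7 (Pf.B 8 7 (Pf.B 8 6 (Pf.B 7 6 (Pf.C 1 0x1010e20305) (Pf.C 0 82695)) (Pf.C 0 776)) (Pf.C 0 82824)))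
 (Pq.cons (Pq.L [0] 5 (Pf.B 8 6 (Pf.C 17 0x20305) (Pf.C 0 776)))
 Pq.nil))))))) (Pq.cons (Pq.L [3] 3 (Pf.B 7 6 (Pf.C 16 99205) (Pf.C 0 49927)))
 (Pq.cons (Pq.L [0,1,2,4] 7 (Pf.B 8 7 (Pf.B 8 6 (Pf.B 7 6 (Pf.W 31 902 [] [0,1,2,4,5] (Pf.cons (Pf.B 9 5 (Pf.C 1 0x1010014486) (Pf.C 0 98953)) (Pf.cons (Pf.B 9 5 (Pf.C 1 0x1010014487) (Pf.C 0 0x1c289)) (Pf.cons (Pf.B 9 5 (Pf.C 1 0x3850c10109) (Pf.C 0 98953)) (Pf.cons (Pf.B 9 5 (Pf.C 1 0x3050e10109) (Pf.C 0 0x1c289)) (Pf.cons (Pf.B 9 5 (Pf.C 1 0x3850c10089) (Pf.C 0 98953)) (Pf.cons (Pf.B 9 5 (Pf.C 1 0x3050e10089) (Pf.C 0 0x1c289)) Pf.nil))))))) (Pf.C 0 775)) (Pf.C 0 82696)) (Pf.C 0 82824)))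
 (Pq.cons (Pq.L [0] 3 (Pf.B 7 6 (Pf.C 17 0x1c305) (Pf.C 0 775)))
 Pq.nil))))))) (Pq.cons (Pq.D 2 (Pq.cons (Pq.L [0,1,4] 3 (Pf.B 7 6 (Pf.C 1 0x3850c10080) (Pf.C 0 82695)))
 (Pq.cons (Pq.L [2] 3 (Pf.B 7 6 (Pf.C 14 99205) (Pf.C 0 33543)))
 (Pq.cons (Pq.D 3 (Pq.cons (Pq.L [0,1,2] 6 (Pf.B 8 7 (Pf.C 1 0x4050e08001) (Pf.C 0 82824)))
 (Pq.cons (Pq.L [4] 6 (Pf.B 8 7 (Pf.C 13 0x1c405) (Pf.C 0 66440)))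
 (Pq.cons (Pq.L [1,2,3] 7 (Pf.B 8 7 (Pf.B 8 6 (Pf.B 7 6 (Pf.C 1 0x1820c20385) (Pf.C 0 82695)) (Pf.C 0 82696)) (Pf.C 0 17288)))
 (Pq.cons (Pq.L [1] 6 (Pf.B 8 7 (Pf.C 15 0x20385) (Pf.C 0 17288)))
 (Pq.cons (Pq.L [0] 5 (Pf.B 8 6 (Pf.C 17 99333) (Pf.C 0 776)))
 (Pq.cons (Pq.L [0,3,4] 7 (Pf.B 8 7 (Pf.B 8 6 (Pf.B 7 6 (Pf.C 1 0x1840e20305) (Pf.C 0 82695)) (Pf.C 0 776)) (Pf.C 0 82824)))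
 Pq.nil))))))) (Pq.cons (Pq.D 3 (Pq.cons (Pq.L [0,1,2] 6 (Pf.B 8 7 (Pf.C 1 0x4050e08001) (Pf.C 0 82824)))
 (Pq.cons (Pq.L [2] 5 (Pf.B 8 6 (Pf.C 14 99333) (Pf.C 0 33544)))
 (Pq.cons (Pq.L [1] 6 (Pf.B 8 7 (Pf.C 15 0x1c405) (Pf.C 0 17288)))
 (Pq.cons (Pq.L [0,1,4] 7 (Pf.B 8 7 (Pf.B 8 6 (Pf.B 7 6 (Pf.C 1 0x2000c20385) (Pf.C 0 82695)) (Pf.C 0 82696)) (Pf.C 0 17288)))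
 (Pq.cons (Pq.L [3] 6 (Pf.B 8 7 (Pf.C 16 0x20385) (Pf.C 0 50056)))
 (Pq.cons (Pq.L [0,3,4] 7 (Pf.B 8 7 (Pf.B 8 6 (Pf.B 7 6 (Pf.C 1 0x2030e20305) (Pf.C 0 82695)) (Pf.C 0 776)) (Pf.C 0 82824)))
 Pq.nil))))))) (Pq.cons (Pq.L [0] 3 (Pf.B 7 6 (Pf.C 17 99205) (Pf.C 0 775)))
 (Pq.cons (Pq.L [0,1,3,4] 7 (Pf.B 8 7 (Pf.B 8 6 (Pf.B 7 6 (Pf.W 32 902 [] [0,1,3,4,5] (Pf.cons (Pf.B 9 5 (Pf.C 1 0x1840014486) (Pf.C 0 98953)) (Pf.cons (Pf.B 9 5 (Pf.C 1 0x1840014487) (Pf.C 0 0x1c289)) (Pf.cons (Pf.B 9 5 (Pf.C 1 0x3850c10089) (Pf.C 0 98953)) (Pf.cons (Pf.B 9 5 (Pf.C 1 0x3050e10089) (Pf.C 0 0x1c289)) (Pf.cons (Pf.B 9 5 (Pf.C 1 0x3850c0c089) (Pf.C 0 98953)) (Pf.cons (Pf.B 9 5 (Pf.C 1 0x3050e0c089) (Pf.C 0 0x1c289))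 Pf.nil))))))) (Pf.C 0 775)) (Pf.C 0 82696)) (Pf.C 0 82824)))
 Pq.nil))))))) Pq.nil))))))) (Pq.cons (Pq.D 1 (Pq.cons (Pq.D 2 (Pq.cons (Pq.L [0,1,2] 3 (Pf.B 7 6 (Pf.C 1 0x10418385) (Pf.C 0 82695)))
 (Pq.cons (Pq.L [2] 2 (Pf.C 0 0x1c105))
 (Pq.cons (Pq.L [4] 2 (Pf.C 0 0x1c205))
 (Pq.cons (Pq.D 3 (Pq.cons (Pq.L [0,1,2] 5 (Pf.B 8 6 (Pf.C 1 0x10418405) (Pf.C 0 82696)))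
 (Pq.cons (Pq.L [2] 4 (Pf.C 0 0x20105))
 (Pq.cons (Pq.L [4] 4 (Pf.C 0 0x20205))
 (Pq.cons (Pq.L [0,1,4] 6 (Pf.B 8 7 (Pf.C 1 0x284001c401) (Pf.C 0 17288)))
 (Pq.cons (Pq.L [3] 6 (Pf.B 8 7 (Pf.C 19 0x20385) (Pf.C 0 50056)))
 (Pq.cons (Pq.L [2] 4 (Pf.C 0 0x20105))
 Pq.nil))))))) (Pq.cons (Pq.D 3 (Pq.cons (Pq.L [0,1,2] 5 (Pf.B 8 6 (Pf.C 1 0x10418405) (Pf.C 0 82696)))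
 (Pq.cons (Pq.L [2] 4 (Pf.C 0 0x20105))
 (Pq.cons (Pq.L [4] 4 (Pf.C 0 0x20205))
 (Pq.cons (Pq.L [3] 6 (Pf.B 8 7 (Pf.C 19 0x1c405) (Pf.C 0 50056)))
 (Pq.cons (Pq.L [0,1,2] 6 (Pf.B 8 7 (Pf.C 1 0x282021c400) (Pf.C 0 904)))
 (Pq.cons (Pq.L [2] 4 (Pf.C 0 0x20105))
 Pq.nil))))))) (Pq.cons (Pq.L [2] 2 (Pf.C 0 0x1c105))
 Pq.nil))))))) (Pq.cons (Pq.L [2] 1 (Pf.C 0 98565))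
 (Pq.cons (Pq.L [4] 1 (Pf.C 0 98821))
 (Pq.cons (Pq.D 2 (Pq.cons (Pq.D 3 (Pq.cons (Pq.L [0,1,2] 6 (Pf.B 8 7 (Pf.C 1 0x1041c405) (Pf.C 0 82824)))
 (Pq.cons (Pq.L [2] 4 (Pf.C 0 0x20105))
 (Pq.cons (Pq.L [4] 4 (Pf.C 0 0x20205))
 (Pq.cons (Pq.L [0,1,4] 5 (Pf.B 8 6 (Pf.C 1 0x2840018401) (Pf.C 0 17160)))
 (Pq.cons (Pq.L [3] 5 (Pf.B 8 6 (Pf.C 19 0x20305) (Pf.C 0 49928)))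
 (Pq.cons (Pq.L [2] 4 (Pf.C 0 0x20105))
 Pq.nil))))))) (Pq.cons (Pq.L [2] 2 (Pf.C 0 0x1c105))
 (Pq.cons (Pq.L [4] 2 (Pf.C 0 0x1c205))
 (Pq.cons (Pq.L [0,1,4] 3 (Pf.B 7 6 (Pf.C 1 0x2840018381) (Pf.C 0 17159)))
 (Pq.cons (Pq.L [3] 3 (Pf.B 7 6 (Pf.C 19 0x1c305) (Pf.C 0 49927)))
 (Pq.cons (Pq.L [2] 2 (Pf.C 0 0x1c105))
 Pq.nil))))))) (Pq.cons (Pq.D 2 (Pq.cons (Pq.D 3 (Pq.cons (Pq.L [0,1,2] 6 (Pf.B 8 7 (Pf.C 1 0x1041c405) (Pf.C 0 82824)))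
 (Pq.cons (Pq.L [2] 4 (Pf.C 0 0x20105))
 (Pq.cons (Pq.L [4] 4 (Pf.C 0 0x20205))
 (Pq.cons (Pq.L [3] 5 (Pf.B 8 6 (Pf.C 19 99333) (Pf.C 0 49928)))
 (Pq.cons (Pq.L [0,1,2] 5 (Pf.B 8 6 (Pf.C 1 0x2820218400) (Pf.C 0 776)))
 (Pq.cons (Pq.L [2] 4 (Pf.C 0 0x20105))
 Pq.nil))))))) (Pq.cons (Pq.L [2] 2 (Pf.C 0 0x1c105))
 (Pq.cons (Pq.L [4] 2 (Pf.C 0 0x1c205))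
 (Pq.cons (Pq.L [3] 3 (Pf.B 7 6 (Pf.C 19 99205) (Pf.C 0 49927)))
 (Pq.cons (Pq.L [0,1,2] 3 (Pf.B 7 6 (Pf.C 1 0x2820218380) (Pf.C 0 775)))
 (Pq.cons (Pq.L [2] 2 (Pf.C 0 0x1c105))
 Pq.nil))))))) (Pq.cons (Pq.L [2] 1 (Pf.C 0 98565))
 Pq.nil))))))) (Pq.cons (Pq.D 1 (Pq.cons (Pq.D 2 (Pq.cons (Pq.L [1,2,3] 3 (Pf.B 7 6 (Pf.C 1 0x1820218385) (Pf.C 0 82695)))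
 (Pq.cons (Pq.L [4] 2 (Pf.C 0 0x1c205))
 (Pq.cons (Pq.L [1] 2 (Pf.C 0 0x1c085))
 (Pq.cons (Pq.L [1] 2 (Pf.C 0 0x1c085))
 (Pq.cons (Pq.D 3 (Pq.cons (Pq.L [1,2,3] 5 (Pf.B 8 6 (Pf.C 1 0x1820218405) (Pf.C 0 82696)))
 (Pq.cons (Pq.L [4] 4 (Pf.C 0 0x20205))
 (Pq.cons (Pq.L [1] 4 (Pf.C 0 0x20085))
 (Pq.cons (Pq.L [1] 4 (Pf.C 0 0x20085))
 (Pq.cons (Pq.L [0,1,2,3] 6 (Pf.B 8 7 (Pf.C 1 0x281041c403) (Pf.C 0 904)))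
 (Pq.cons (Pq.L [0] 6 (Pf.B 8 7 (Pf.C 22 0x20385) (Pf.C 0 904)))
 Pq.nil))))))) (Pq.cons (Pq.D 3 (Pq.cons (Pq.L [1,2,3] 5 (Pf.B 8 6 (Pf.C 1 0x1820218405) (Pf.C 0 82696)))
 (Pq.cons (Pq.L [4] 4 (Pf.C 0 0x20205))
 (Pq.cons (Pq.L [1] 4 (Pf.C 0 0x20085))
 (Pq.cons (Pq.L [1] 4 (Pf.C 0 0x20085))
 (Pq.cons (Pq.L [0] 6 (Pf.B 8 7 (Pf.C 22 0x1c405) (Pf.C 0 904)))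
 (Pq.cons (Pq.L [0,1,2,4] 6 (Pf.B 8 7 (Pf.C 1 0x205021c402) (Pf.C 0 904)))
 Pq.nil))))))) Pq.nil))))))) (Pq.cons (Pq.L [4] 1 (Pf.C 0 98821))
 (Pq.cons (Pq.L [1] 1 (Pf.C 0 98437))
 (Pq.cons (Pq.L [1] 1 (Pf.C 0 98437))
 (Pq.cons (Pq.D 2 (Pq.cons (Pq.D 3 (Pq.cons (Pq.L [1,2,3] 6 (Pf.B 8 7 (Pf.C 1 0x182021c405) (Pf.C 0 82824)))
 (Pq.cons (Pq.L [4] 4 (Pf.C 0 0x20205))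
 (Pq.cons (Pq.L [1] 4 (Pf.C 0 0x20085))
 (Pq.cons (Pq.L [1] 4 (Pf.C 0 0x20085))
 (Pq.cons (Pq.L [0,1,2,3] 5 (Pf.B 8 6 (Pf.C 1 0x2810418403) (Pf.C 0 776)))
 (Pq.cons (Pq.L [0] 5 (Pf.B 8 6 (Pf.C 22 0x20305) (Pf.C 0 776)))
 Pq.nil))))))) (Pq.cons (Pq.L [4] 2 (Pf.C 0 0x1c205))
 (Pq.cons (Pq.L [1] 2 (Pf.C 0 0x1c085))
 (Pq.cons (Pq.L [1] 2 (Pf.C 0 0x1c085))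
 (Pq.cons (Pq.L [0,1,2,3] 3 (Pf.B 7 6 (Pf.C 1 0x2810418383) (Pf.C 0 775)))
 (Pq.cons (Pq.L [0] 3 (Pf.B 7 6 (Pf.C 22 0x1c305) (Pf.C 0 775)))
 Pq.nil))))))) (Pq.cons (Pq.D 2 (Pq.cons (Pq.D 3 (Pq.cons (Pq.L [1,2,3] 6 (Pf.B 8 7 (Pf.C 1 0x182021c405) (Pf.C 0 82824)))
 (Pq.cons (Pq.L [4] 4 (Pf.C 0 0x20205))
 (Pq.cons (Pq.L [1] 4 (Pf.C 0 0x20085))
 (Pq.cons (Pq.L [1] 4 (Pf.C 0 0x20085))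
 (Pq.cons (Pq.L [0] 5 (Pf.B 8 6 (Pf.C 22 99333) (Pf.C 0 776)))
 (Pq.cons (Pq.L [0,1,2,4] 5 (Pf.B 8 6 (Pf.C 1 0x2050218402) (Pf.C 0 776)))
 Pq.nil))))))) (Pq.cons (Pq.L [4] 2 (Pf.C 0 0x1c205))
 (Pq.cons (Pq.L [1] 2 (Pf.C 0 0x1c085))
 (Pq.cons (Pq.L [1] 2 (Pf.C 0 0x1c085))
 (Pq.cons (Pq.L [0] 3 (Pf.B 7 6 (Pf.C 22 99205) (Pf.C 0 775)))
 (Pq.cons (Pq.L [0,1,2,4] 3 (Pf.B 7 6 (Pf.C 1 0x2050218382) (Pf.C 0 775)))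
 Pq.nil))))))) Pq.nil))))))) (Pq.cons (Pq.D 1 (Pq.cons (Pq.D 2 (Pq.cons (Pq.L [0,1,4] 3 (Pf.B 7 6 (Pf.C 1 0x2000218385) (Pf.C 0 82695)))
 (Pq.cons (Pq.D 3 (Pq.cons (Pq.L [0,1,4] 5 (Pf.B 8 6 (Pf.C 1 0x2000218405) (Pf.C 0 82696)))
 (Pq.cons (Pq.L [0,1,2,4] 6 (Pf.B 8 7 (Pf.C 1 0x281001c404) (Pf.C 0 33672)))
 (Pq.cons (Pq.L [1] 4 (Pf.C 0 0x20085))
 (Pq.cons (Pq.L [1] 4 (Pf.C 0 0x20085))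
 (Pq.cons (Pq.L [3] 4 (Pf.C 0 0x20185))
 (Pq.cons (Pq.L [2] 6 (Pf.B 8 7 (Pf.C 20 0x20287) (Pf.C 0 33672)))
 Pq.nil))))))) (Pq.cons (Pq.L [1] 2 (Pf.C 0 0x1c085))
 (Pq.cons (Pq.L [1] 2 (Pf.C 0 0x1c085))
 (Pq.cons (Pq.L [3] 2 (Pf.C 0 0x1c185))
 (Pq.cons (Pq.D 3 (Pq.cons (Pq.L [0,1,4] 5 (Pf.B 8 6 (Pf.C 1 0x2000218405) (Pf.C 0 82696)))
 (Pq.cons (Pq.L [2] 6 (Pf.B 8 7 (Pf.C 20 0x1c288) (Pf.C 0 33672)))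
 (Pq.cons (Pq.L [1] 4 (Pf.C 0 0x20085))
 (Pq.cons (Pq.L [1] 4 (Pf.C 0 0x20085))
 (Pq.cons (Pq.L [3] 4 (Pf.C 0 0x20185))
 (Pq.cons (Pq.L [0,1,3] 6 (Pf.B 8 7 (Pf.C 1 0x185021c400) (Pf.C 0 904)))
 Pq.nil))))))) Pq.nil))))))) (Pq.cons (Pq.D 2 (Pq.cons (Pq.D 3 (Pq.cons (Pq.L [0,1,4] 6 (Pf.B 8 7 (Pf.C 1 0x200021c405) (Pf.C 0 82824)))
 (Pq.cons (Pq.L [0,1,2,4] 5 (Pf.B 8 6 (Pf.C 1 0x2810018404) (Pf.C 0 33544)))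
 (Pq.cons (Pq.L [1] 4 (Pf.C 0 0x20085))
 (Pq.cons (Pq.L [1] 4 (Pf.C 0 0x20085))
 (Pq.cons (Pq.L [3] 4 (Pf.C 0 0x20185))
 (Pq.cons (Pq.L [2] 5 (Pf.B 8 6 (Pf.C 20 0x20286) (Pf.C 0 33544)))
 Pq.nil))))))) (Pq.cons (Pq.L [0,1,2,4] 3 (Pf.B 7 6 (Pf.C 1 0x2810018384) (Pf.C 0 33543)))
 (Pq.cons (Pq.L [1] 2 (Pf.C 0 0x1c085))
 (Pq.cons (Pq.L [1] 2 (Pf.C 0 0x1c085))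
 (Pq.cons (Pq.L [3] 2 (Pf.C 0 0x1c185))
 (Pq.cons (Pq.L [2] 3 (Pf.B 7 6 (Pf.C 20 0x1c286) (Pf.C 0 33543)))
 Pq.nil))))))) (Pq.cons (Pq.L [1] 1 (Pf.C 0 98437))
 (Pq.cons (Pq.L [1] 1 (Pf.C 0 98437))
 (Pq.cons (Pq.L [3] 1 (Pf.C 0 98693))
 (Pq.cons (Pq.D 2 (Pq.cons (Pq.D 3 (Pq.cons (Pq.L [0,1,4] 6 (Pf.B 8 7 (Pf.C 1 0x200021c405) (Pf.C 0 82824)))
 (Pq.cons (Pq.L [2] 5 (Pf.B 8 6 (Pf.C 20 98952) (Pf.C 0 33544)))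
 (Pq.cons (Pq.L [1] 4 (Pf.C 0 0x20085))
 (Pq.cons (Pq.L [1] 4 (Pf.C 0 0x20085))
 (Pq.cons (Pq.L [3] 4 (Pf.C 0 0x20185))
 (Pq.cons (Pq.L [0,1,3] 5 (Pf.B 8 6 (Pf.C 1 0x1850218400) (Pf.C 0 776)))
 Pq.nil))))))) (Pq.cons (Pq.L [2] 3 (Pf.B 7 6 (Pf.C 20 98951) (Pf.C 0 33543)))
 (Pq.cons (Pq.L [1] 2 (Pf.C 0 0x1c085))
 (Pq.cons (Pq.L [1] 2 (Pf.C 0 0x1c085))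
 (Pq.cons (Pq.L [3] 2 (Pf.C 0 0x1c185))
 (Pq.cons (Pq.L [0,1,3] 3 (Pf.B 7 6 (Pf.C 1 0x1850218380) (Pf.C 0 775)))
 Pq.nil))))))) Pq.nil))))))) (Pq.cons (Pq.D 1 (Pq.cons (Pq.D 2 (Pq.cons (Pq.L [0,1,2] 3 (Pf.B 7 6 (Pf.C 1 0x1010018385) (Pf.C 0 82695)))
 (Pq.cons (Pq.D 3 (Pq.cons (Pq.L [0,1,2] 5 (Pf.B 8 6 (Pf.C 1 0x1010018405) (Pf.C 0 82696)))
 (Pq.cons (Pq.L [0,1,2] 6 (Pf.B 8 7 (Pf.C 1 0x280021c402) (Pf.C 0 33672)))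
 (Pq.cons (Pq.L [4] 6 (Pf.B 8 7 (Pf.C 18 82951) (Pf.C 0 66440)))
 (Pq.cons (Pq.L [3] 4 (Pf.C 0 0x20185))
 (Pq.cons (Pq.L [0] 4 (Pf.C 0 0x20005))
 (Pq.cons (Pq.L [0] 4 (Pf.C 0 0x20005))
 Pq.nil))))))) (Pq.cons (Pq.D 3 (Pq.cons (Pq.L [0,1,2] 5 (Pf.B 8 6 (Pf.C 1 0x1010018405) (Pf.C 0 82696)))
 (Pq.cons (Pq.L [4] 6 (Pf.B 8 7 (Pf.C 18 82824) (Pf.C 0 66440)))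
 (Pq.cons (Pq.L [0,1,3] 6 (Pf.B 8 7 (Pf.C 1 0x185001c401) (Pf.C 0 17288)))
 (Pq.cons (Pq.L [3] 4 (Pf.C 0 0x20185))
 (Pq.cons (Pq.L [0] 4 (Pf.C 0 0x20005))
 (Pq.cons (Pq.L [0] 4 (Pf.C 0 0x20005))
 Pq.nil))))))) (Pq.cons (Pq.L [3] 2 (Pf.C 0 0x1c185))
 (Pq.cons (Pq.L [0] 2 (Pf.C 0 0x1c005))
 (Pq.cons (Pq.L [0] 2 (Pf.C 0 0x1c005))
 Pq.nil))))))) (Pq.cons (Pq.D 2 (Pq.cons (Pq.D 3 (Pq.cons (Pq.L [0,1,2] 6 (Pf.B 8 7 (Pf.C 1 0x101001c405) (Pf.C 0 82824)))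
 (Pq.cons (Pq.L [0,1,2] 5 (Pf.B 8 6 (Pf.C 1 0x2800218402) (Pf.C 0 33544)))
 (Pq.cons (Pq.L [4] 5 (Pf.B 8 6 (Pf.C 18 82950) (Pf.C 0 66312)))
 (Pq.cons (Pq.L [3] 4 (Pf.C 0 0x20185))
 (Pq.cons (Pq.L [0] 4 (Pf.C 0 0x20005))
 (Pq.cons (Pq.L [0] 4 (Pf.C 0 0x20005))
 Pq.nil))))))) (Pq.cons (Pq.L [0,1,2] 3 (Pf.B 7 6 (Pf.C 1 0x2800218382) (Pf.C 0 33543)))
 (Pq.cons (Pq.L [4] 3 (Pf.B 7 6 (Pf.C 18 82822) (Pf.C 0 66311)))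
 (Pq.cons (Pq.L [3] 2 (Pf.C 0 0x1c185))
 (Pq.cons (Pq.L [0] 2 (Pf.C 0 0x1c005))
 (Pq.cons (Pq.L [0] 2 (Pf.C 0 0x1c005))
 Pq.nil))))))) (Pq.cons (Pq.D 2 (Pq.cons (Pq.D 3 (Pq.cons (Pq.L [0,1,2] 6 (Pf.B 8 7 (Pf.C 1 0x101001c405) (Pf.C 0 82824)))
 (Pq.cons (Pq.L [4] 5 (Pf.B 8 6 (Pf.C 18 82696) (Pf.C 0 66312)))
 (Pq.cons (Pq.L [0,1,3] 5 (Pf.B 8 6 (Pf.C 1 0x1850018401) (Pf.C 0 17160)))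
 (Pq.cons (Pq.L [3] 4 (Pf.C 0 0x20185))
 (Pq.cons (Pq.L [0] 4 (Pf.C 0 0x20005))
 (Pq.cons (Pq.L [0] 4 (Pf.C 0 0x20005))
 Pq.nil))))))) (Pq.cons (Pq.L [4] 3 (Pf.B 7 6 (Pf.C 18 82695) (Pf.C 0 66311)))
 (Pq.cons (Pq.L [0,1,3] 3 (Pf.B 7 6 (Pf.C 1 0x1850018381) (Pf.C 0 17159)))
 (Pq.cons (Pq.L [3] 2 (Pf.C 0 0x1c185))
 (Pq.cons (Pq.L [0] 2 (Pf.C 0 0x1c005))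
 (Pq.cons (Pq.L [0] 2 (Pf.C 0 0x1c005))
 Pq.nil))))))) (Pq.cons (Pq.L [3] 1 (Pf.C 0 98693))
 (Pq.cons (Pq.L [0] 1 (Pf.C 0 98309))
 (Pq.cons (Pq.L [0] 1 (Pf.C 0 98309))
 Pq.nil))))))) (Pq.cons (Pq.D 1 (Pq.cons (Pq.D 2 (Pq.cons (Pq.L [0,3,4] 3 (Pf.B 7 6 (Pf.C 1 0x1840018385) (Pf.C 0 82695)))
 (Pq.cons (Pq.L [2] 2 (Pf.C 0 0x1c105))
 (Pq.cons (Pq.D 3 (Pq.cons (Pq.L [0,3,4] 5 (Pf.B 8 6 (Pf.C 1 0x1840018405) (Pf.C 0 82696)))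
 (Pq.cons (Pq.L [2] 4 (Pf.C 0 0x20105))
 (Pq.cons (Pq.L [0,1,2,4] 6 (Pf.B 8 7 (Pf.C 1 0x105001c404) (Pf.C 0 17288)))
 (Pq.cons (Pq.L [1] 6 (Pf.B 8 7 (Pf.C 21 82951) (Pf.C 0 17288)))
 (Pq.cons (Pq.L [0] 4 (Pf.C 0 0x20005))
 (Pq.cons (Pq.L [0] 4 (Pf.C 0 0x20005))
 Pq.nil))))))) (Pq.cons (Pq.D 3 (Pq.cons (Pq.L [0,3,4] 5 (Pf.B 8 6 (Pf.C 1 0x1840018405) (Pf.C 0 82696)))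
 (Pq.cons (Pq.L [2] 4 (Pf.C 0 0x20105))
 (Pq.cons (Pq.L [1] 6 (Pf.B 8 7 (Pf.C 21 82824) (Pf.C 0 17288)))
 (Pq.cons (Pq.L [0,1,2,3] 6 (Pf.B 8 7 (Pf.C 1 0x5041c403) (Pf.C 0 17288)))
 (Pq.cons (Pq.L [0] 4 (Pf.C 0 0x20005))
 (Pq.cons (Pq.L [0] 4 (Pf.C 0 0x20005))
 Pq.nil))))))) (Pq.cons (Pq.L [0] 2 (Pf.C 0 0x1c005))
 (Pq.cons (Pq.L [0] 2 (Pf.C 0 0x1c005))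
 Pq.nil))))))) (Pq.cons (Pq.L [2] 1 (Pf.C 0 98565))
 (Pq.cons (Pq.D 2 (Pq.cons (Pq.D 3 (Pq.cons (Pq.L [0,3,4] 6 (Pf.B 8 7 (Pf.C 1 0x184001c405) (Pf.C 0 82824)))
 (Pq.cons (Pq.L [2] 4 (Pf.C 0 0x20105))
 (Pq.cons (Pq.L [0,1,2,4] 5 (Pf.B 8 6 (Pf.C 1 0x1050018404) (Pf.C 0 17160)))
 (Pq.cons (Pq.L [1] 5 (Pf.B 8 6 (Pf.C 21 82950) (Pf.C 0 17160)))
 (Pq.cons (Pq.L [0] 4 (Pf.C 0 0x20005))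
 (Pq.cons (Pq.L [0] 4 (Pf.C 0 0x20005))
 Pq.nil))))))) (Pq.cons (Pq.L [2] 2 (Pf.C 0 0x1c105))
 (Pq.cons (Pq.L [0,1,2,4] 3 (Pf.B 7 6 (Pf.C 1 0x1050018384) (Pf.C 0 17159)))
 (Pq.cons (Pq.L [1] 3 (Pf.B 7 6 (Pf.C 21 82822) (Pf.C 0 17159)))
 (Pq.cons (Pq.L [0] 2 (Pf.C 0 0x1c005))
 (Pq.cons (Pq.L [0] 2 (Pf.C 0 0x1c005))
 Pq.nil))))))) (Pq.cons (Pq.D 2 (Pq.cons (Pq.D 3 (Pq.cons (Pq.L [0,3,4] 6 (Pf.B 8 7 (Pf.C 1 0x184001c405) (Pf.C 0 82824)))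
 (Pq.cons (Pq.L [2] 4 (Pf.C 0 0x20105))
 (Pq.cons (Pq.L [1] 5 (Pf.B 8 6 (Pf.C 21 82696) (Pf.C 0 17160)))
 (Pq.cons (Pq.L [0,1,2,3] 5 (Pf.B 8 6 (Pf.C 1 0x50418403) (Pf.C 0 17160)))
 (Pq.cons (Pq.L [0] 4 (Pf.C 0 0x20005))
 (Pq.cons (Pq.L [0] 4 (Pf.C 0 0x20005))
 Pq.nil))))))) (Pq.cons (Pq.L [2] 2 (Pf.C 0 0x1c105))
 (Pq.cons (Pq.L [1] 3 (Pf.B 7 6 (Pf.C 21 82695) (Pf.C 0 17159)))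
 (Pq.cons (Pq.L [0,1,2,3] 3 (Pf.B 7 6 (Pf.C 1 0x50418383) (Pf.C 0 17159)))
 (Pq.cons (Pq.L [0] 2 (Pf.C 0 0x1c005))
 (Pq.cons (Pq.L [0] 2 (Pf.C 0 0x1c005))
 Pq.nil))))))) (Pq.cons (Pq.L [0] 1 (Pf.C 0 98309))
 (Pq.cons (Pq.L [0] 1 (Pf.C 0 98309))
 Pq.nil))))))) Pq.nil))))))) Pq.nil)
theorem dS_o19 : AllRef dS_T dS_G22 (applyObl TD2 1 [49,50,51,52,53,54] [0,0,0,0,0,0] [(50,0x30000000000000),(51,0x60000000000000),(52,0x44000000000000),(53,0xc000000000000),(54,0x18000000000000)]) :=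
  chkPq_sound dS_o19c _ (by decide +kernel)

end Pool.Agent.Lib.MP_849b2e_co
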