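import Pool.Agent.Lib.MP_849b2e_co.AllR
import Pool.Agent.Lib.MP_849b2e_co.TdS
import Pool.Agent.Lib.MP_849b2e_co.OdS_0
import Pool.Agent.Lib.MP_849b2e_co.LbD

set_option maxRecDepth 100000
set_option linter.all false
namespace Pool.Agent.Lib.MP_849b2e_co

theorem dS_n28  : Bd dS_T dS_G22 [49,50,51,52,53,54] :=
  r_apply lem_D2 [0,0,0,0,0,0] [(50,0x30000000000000),(51,0x60000000000000),(52,0x44000000000000),(53,0xc000000000000),(54,0x18000000000000)] (by decide +kernel) dS_o19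
theorem dS_n27  : Bd dS_T dS_G21 [43,38,39,40,41,42] :=
  r_twin 0 [62,25,49,35,7,13] ⟨49,[],[0,29,30,31,32,33],[]⟩ dS_G22 [49,50,51,52,53,54] (by decide +kernel) dS_o18 dS_n28
theorem dS_n26  : Bd dS_T dS_G20 [43,44,45,46,38,47,39,40,48,41,42] :=
  r_kill [44,45,46,47,48] ⟨49,[],[],[]⟩ dS_G21 [43,38,39,40,41,42] (by decide +kernel) dS_o17 dS_n27
theorem dS_n25  : Bd dS_T dS_G19 [43,27,28,29,38,31,39,40,34,41,42] :=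
  r_hit [27,28,29,31,34] dS_h25 ⟨44,[],[24,25,26,27,28],[]⟩ dS_G20 [43,44,45,46,38,47,39,40,48,41,42] (by decide +kernel) dS_o16 dS_n26
theorem dS_n24  : Bd dS_T dS_G18 [37,27,28,29,30,31,32,33,34,35,36] :=
  r_hit [30,32,33,35,36,37] dS_h24 ⟨38,[],[14,15,16,17,18,19,20,21,22,23],[]⟩ dS_G19 [43,27,28,29,38,31,39,40,34,41,42] (by decide +kernel) dS_o15 dS_n25
theorem dS_n23  : Bd dS_T dS_G17 [25,15,16,17,18,19,20,21,22,23,24] :=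
  r_hit [15,16,17,18,19,20,21,22,23,24,25] dS_h23 ⟨27,[],[],[]⟩ dS_G18 [37,27,28,29,30,31,32,33,34,35,36] (by decide +kernel) dS_o14 dS_n24
theorem dS_n22  : Bd dS_T dS_G16 [25,26,15,16,17,18,19,20,21,22,23,24] :=
  r_close false 0 [5,6,7] [25,26,15,16,17,18,19,20,21,22,23,24] [0,0,0,0,0,0,0,0,0,0,0,0] [0,1,2,3,4] [0,0,0,0,0] 4093 ⟨27,[],[],[]⟩ dS_G17 [25,15,16,17,18,19,20,21,22,23,24] (by decide +kernel) dS_o13 dS_n23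
theorem dS_n21  : Bd dS_T dS_G16 [14,15,16,17,18,19,20,21,22,23,24] :=
  r_act [7] [25,26,15,16,17,18,19,20,21,22,23,24] (by decide +kernel) dS_n22
theorem dS_n20  : Bd dS_T dS_G15 [14,15,16,17,18,19,20,21,22,23,24] :=
  r_def 14 0 [15,16,17,18,19,20,21,22,23,24] [] ⟨25,[8],[12,0,13],[]⟩ dS_G16 [14,15,16,17,18,19,20,21,22,23,24] (by decide +kernel) dS_n21
theorem dS_n19  : Bd dS_T dS_G15 [1] :=
  r_act [5,6] [14,15,16,17,18,19,20,21,22,23,24] (by decide +kernel) dS_n20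
theorem dS_n18  : Bd dS_T dS_G14 [1] :=
  r_psplit 13 [] (PT.br 0 (PT.br 1 (PT.br 2 (PT.br 3 (PT.br 4 PT.kid PT.kid) (PT.br 4 PT.kid PT.ref)) (PT.br 3 (PT.br 4 PT.kid PT.kid) PT.ref)) (PT.br 2 (PT.br 3 (PT.br 4 PT.kid PT.kid) (PT.br 4 PT.kid PT.ref)) PT.ref)) (PT.br 1 (PT.br 2 (PT.br 3 (PT.br 4 PT.kid PT.ref) (PT.br 4 PT.kid PT.ref)) (PT.br 3 (PT.br 4 PT.kid PT.ref) PT.ref)) PT.ref)) ⟨14,[7],[],[]⟩ dS_G15 [1] (by decide +kernel) dS_o12 dS_n19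
theorem dS_n17  : Bd dS_T dS_G2 [1] :=
  r_psplit 1 [0,1,2,3,4] PT.kid ⟨13,[6],[],[]⟩ dS_G14 [1] (by decide +kernel) dS_o11 dS_n18
theorem dS_n16  : Bd dS_T dS_G13 [9] :=
  r_apply lem_D2 [0] [] (by decide +kernel) dS_o10
theorem dS_n15  : Bd dS_T dS_G12 [9,12] :=
  r_kill [12] ⟨13,[],[],[]⟩ dS_G13 [9] (by decide +kernel) dS_o9 dS_n16
theorem dS_n14  : Bd dS_T dS_G11 [9,10] :=
  r_hit [10] dS_h14 ⟨12,[],[11],[]⟩ dS_G12 [9,12] (by decide +kernel) dS_o8 dS_n15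
theorem dS_n13  : Bd dS_T dS_G10 [9,10,11] :=
  r_close false 0 [1,2,3,4] [9,10,11] [0,0,0] [0] [0] 3 ⟨12,[],[],[]⟩ dS_G11 [9,10] (by decide +kernel) dS_o7 dS_n14
theorem dS_n12  : Bd dS_T dS_G10 [6,7] :=
  r_act [2,3,4] [9,10,11] (by decide +kernel) dS_n13
theorem dS_n11  : Bd dS_T dS_G9 [6,7] :=
  r_psplit 7 [] (PT.br 0 PT.kid PT.ref) ⟨11,[5],[],[]⟩ dS_G10 [6,7] (by decide +kernel) dS_o6 dS_n12
theorem dS_n10  : Bd dS_T dS_G8 [6,7] :=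
  r_psplit 8 [] (PT.br 0 PT.kid PT.kid) ⟨9,[4],[],[]⟩ dS_G9 [6,7] (by decide +kernel) dS_o5 dS_n11
theorem dS_n9  : Bd dS_T dS_G6 [6,7] :=
  r_psplit 6 [0] PT.kid ⟨8,[3],[],[]⟩ dS_G8 [6,7] (by decide +kernel) dS_o4 dS_n10
theorem dS_n8  : Bd dS_T dS_G7 [] :=
  r_empty (by decide +kernel) 
theorem dS_n7  : Bd dS_T dS_G5 [6,7] :=
  r_kill [6,7] ⟨8,[],[],[]⟩ dS_G7 [] (by decide +kernel) dS_o3 dS_n8
theorem dS_n6  : Bd dS_T dS_G4 [6,7] :=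
  r_case [6] [] [] ⟨8,[],[10],[]⟩ dS_G5 [6,7] dS_G6 [6,7] (by decide +kernel) dS_n7 dS_n9
theorem dS_n5  : Bd dS_T dS_G4 [1] :=
  r_act [1] [6,7] (by decide +kernel) dS_n6
theorem dS_n4  : Bd dS_T dS_G3 [4,5] :=
  r_apply lem_bD [1,2] [] (by decide +kernel) dS_o2
theorem dS_n3  : Bd dS_T dS_G3 [1] :=
  r_act [0] [4,5] (by decide +kernel) dS_n4
theorem dS_n2  : Bd dS_T dS_G1 [1] :=
  r_odd 1 ⟨4,[1],[4,5],[]⟩ dS_G3 [1] ⟨6,[2],[6,7,0,8,9],[]⟩ dS_G4 [1] (by decide +kernel) dS_o1 dS_n3 dS_n5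
theorem dS_n1  : Bd dS_T dS_G0 [1] :=
  r_case [1,1,1,1,1] [⟨0,1,true⟩,⟨1,2,true⟩,⟨2,3,true⟩,⟨3,4,true⟩,⟨4,0,true⟩,⟨0,2,false⟩,⟨0,3,false⟩,⟨1,3,false⟩,⟨1,4,false⟩,⟨2,4,false⟩] [] ⟨4,[],[3],[]⟩ dS_G1 [1] dS_G2 [1] (by decide +kernel) dS_n2 dS_n17
theorem dS_n0  : Bd dS_T (pureCtx 0 2) (pureAct 0) :=
  show Bd _ _ [0] from r_block [0] [1] [1] ⟨1,[],[],[1]⟩ dS_G0 [1] (by decide +kernel) dS_o0 dS_n1
theorem lem_dS  : Lem dS_T 0 2 := ⟨by decide +kernel, dS_n0⟩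

end Pool.Agent.Lib.MP_849b2e_co
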