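import Pool.Agent.Lib.MP_849b2e_co.Rules

set_option maxRecDepth 100000
set_option linter.all false
namespace Pool.Agent.Lib.MP_849b2e_co

noncomputable def d_ty : Tr Ty := (Tr.br (Tr.br (Tr.br (Tr.br (Tr.br (Tr.br (Tr.br (Tr.br (Tr.leaf ⟨1,0,0,0,0⟩) (Tr.leaf ⟨0x100000000400004008010000000000003,0x80000000200000007fe000000000000c,5,26,31⟩)) (Tr.leaf ⟨0x10030000000000003,0xffc000000000000c,0,31,31⟩)) (Tr.br (Tr.leaf ⟨0x100020083,0x3ffd804c,32,95,0⟩) (Tr.leaf ⟨0x1000001001010000000000003,0x80000000efe000000000000c,10,21,31⟩))) (Tr.br (Tr.br (Tr.leaf ⟨65667,0x3ffe804c,64,63,0⟩) (Tr.leaf ⟨0x100202010000000000003,0xdfe000000000000c,1,30,31⟩)) (Tr.br (Tr.leaf ⟨0x1000800100083,0x3fef804c,8,119,0⟩) (Tr.leaf ⟨0x10040040010020050000000000003,0x802002000000ffa000000000000c,16,15,31⟩))))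 (Tr.br (Tr.br (Tr.br (Tr.br (Tr.leaf ⟨323,140,0,0,1⟩) (Tr.leaf ⟨0x10000000000000000800810000000000003,0x800000000000000000f7e000000000000c,18,13,31⟩)) (Tr.leaf ⟨0x1001010000000000003,0xefe000000000000c,10,21,31⟩)) (Tr.br (Tr.leaf ⟨0x10002000083,0x3dff804c,66,61,0⟩) (Tr.leaf ⟨0x100004040080110000000000003,0x8000200000fee000000000000c,4,27,31⟩))) (Tr.br (Tr.br (Tr.leaf ⟨0x1000083,0x3eff804c,2,125,0⟩) (Tr.leaf ⟨0x10020040090000000000003,0x800000ff6000000000000c,8,23,31⟩)) (Tr.br (Tr.leaf ⟨0x110000000000003,0xfee000000000000c,4,27,31⟩) (Tr.leaf ⟨0x1004000001080100410000000000003,0x80200000080000fbe000000000000c,2,29,31⟩)))))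
 (Tr.br (Tr.br (Tr.br (Tr.br (Tr.br (Tr.leaf ⟨19,44,0,0,0⟩) (Tr.leaf ⟨0x1000000000000008010030000000000003,0x80000000000000000ffc000000000000c,0,31,31⟩)) (Tr.leaf ⟨0x100410000000000003,0xfbe000000000000c,2,29,31⟩)) (Tr.br (Tr.leaf ⟨0x1000200083,0x3fdf804c,40,87,0⟩) (Tr.leaf ⟨0x10000002004010000000000003,0x800000000bfe000000000000c,9,22,31⟩))) (Tr.br (Tr.br (Tr.leaf ⟨0x100083,0x3fef804c,8,119,0⟩) (Tr.leaf ⟨0x1080100410000000000003,0x80000fbe000000000000c,2,29,31⟩)) (Tr.br (Tr.leaf ⟨0x10000000000003,12,0,0,31⟩) (Tr.leaf ⟨0x100400000500202010000000000003,0x8020000020000dfe000000000000c,1,30,31⟩)))) (Tr.br (Tr.br (Tr.br (Tr.br (Tr.leaf ⟨5443,652,1,0,1⟩) (Tr.leaf ⟨0x100000000000000002004010000000000003,0x8000000000000000000bfe000000000000c,9,22,31⟩)) (Tr.leaf ⟨0x10020050000000000003,0xffa000000000000c,16,15,31⟩))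 (Tr.br (Tr.leaf ⟨0x100020000083,0x1fff804c,5,122,0⟩) (Tr.leaf ⟨0x1000010020040090000000000003,0x80000800000ff6000000000000c,8,23,31⟩))) (Tr.br (Tr.br (Tr.leaf ⟨0x10000083,0x2fff804c,33,94,0⟩) (Tr.leaf ⟨0x100000800810000000000003,0x8000000f7e000000000000c,18,13,31⟩)) (Tr.br (Tr.leaf ⟨0x1010000000000003,0xefe000000000000c,10,21,31⟩) (Tr.leaf ⟨0x10000010000002004010000000000003,0x800000800000000bfe000000000000c,9,22,31⟩)))))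
)
 (Tr.br (Tr.br (Tr.br (Tr.br (Tr.br (Tr.br (Tr.leaf ⟨5,10,0,0,0⟩) (Tr.leaf ⟨0x400000001000001001010000000000003,0x20000000080000000efe000000000000c,10,21,31⟩)) (Tr.leaf ⟨0x40090000000000003,0xff6000000000000c,8,23,31⟩)) (Tr.br (Tr.leaf ⟨0x400080083,0x3ff7804c,80,47,0⟩) (Tr.leaf ⟨0x4000000400210000000000003,0x200000000fde000000000000c,20,11,31⟩))) (Tr.br (Tr.br (Tr.leaf ⟨0x40083,0x3ffb804c,16,111,0⟩) (Tr.leaf ⟨0x500202010000000000003,0x20000dfe000000000000c,1,30,31⟩)) (Tr.br (Tr.leaf ⟨0x4008001000083,0x3eff804c,2,125,0⟩) (Tr.leaf ⟨0x40100004040080110000000000003,0x2008000200000fee000000000000c,4,27,31⟩)))) (Tr.br (Tr.br (Tr.br (Tr.br (Tr.leaf ⟨1347,652,1,0,1⟩) (Tr.leaf ⟨0x40000000000000001001010000000000003,0x2000000000000000000efe000000000000c,10,21,31⟩)) (Tr.leaf ⟨0x4008010000000000003,0x7fe000000000000c,5,26,31⟩))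 (Tr.br (Tr.leaf ⟨0x40008000083,0x37ff804c,1,126,0⟩) (Tr.leaf ⟨0x400000500202010000000000003,0x20000020000dfe000000000000c,1,30,31⟩))) (Tr.br (Tr.br (Tr.leaf ⟨0x4000083,0x3bff804c,10,117,0⟩) (Tr.leaf ⟨0x40010020050000000000003,0x2000000ffa000000000000c,16,15,31⟩)) (Tr.br (Tr.leaf ⟨0x410000000000003,0xfbe000000000000c,2,29,31⟩) (Tr.leaf ⟨0x4000004000000400210000000000003,0x200000200000000fde000000000000c,20,11,31⟩)))))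
 (Tr.br (Tr.br (Tr.br (Tr.br (Tr.br (Tr.leaf ⟨67,140,0,0,0⟩) (Tr.leaf ⟨0x4000000000000000400210000000000003,0x200000000000000000fde000000000000c,20,11,31⟩)) (Tr.leaf ⟨0x400210000000000003,0xfde000000000000c,20,11,31⟩)) (Tr.br (Tr.leaf ⟨0x4000800083,0x3f7f804c,20,107,0⟩) (Tr.leaf ⟨0x40040010020050000000000003,0x2002000000ffa000000000000c,16,15,31⟩))) (Tr.br (Tr.br (Tr.leaf ⟨0x400083,0x3fbf804c,4,123,0⟩) (Tr.leaf ⟨0x4040080110000000000003,0x200000fee000000000000c,4,27,31⟩)) (Tr.br (Tr.leaf ⟨0x50000000000003,0xffa000000000000c,16,15,31⟩) (Tr.leaf ⟨0x401000010020040090000000000003,0x20080000800000ff6000000000000c,8,23,31⟩)))) (Tr.br (Tr.br (Tr.br (Tr.br (Tr.leaf ⟨24643,140,0,127,127⟩) (Tr.leaf ⟨0x400000000000000004008010000000000003,0x200000000000000000007fe000000000000c,5,26,31⟩))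 (Tr.leaf ⟨0x40080110000000000003,0xfee000000000000c,4,27,31⟩)) (Tr.br (Tr.leaf ⟨0x400100020083,0x3ffd804c,32,95,0⟩) (Tr.leaf ⟨0x4000001080100410000000000003,0x200000080000fbe000000000000c,2,29,31⟩))) (Tr.br (Tr.br (Tr.leaf ⟨0x40008083,0x3fff004c,0,127,0⟩) (Tr.leaf ⟨0x400004008010000000000003,0x200000007fe000000000000c,5,26,31⟩)) (Tr.br (Tr.leaf ⟨0x4010000000000003,0xbfe000000000000c,9,22,31⟩) (Tr.leaf ⟨0x40000000100000800810000000000003,0x2000000008000000f7e000000000000c,18,13,31⟩)))))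
)
)
 (Tr.br (Tr.br (Tr.br (Tr.br (Tr.br (Tr.br (Tr.br (Tr.leaf ⟨3,12,0,0,0⟩) (Tr.leaf ⟨0x200000001000001001010000000000003,0x40000000080000000efe000000000000c,10,21,31⟩)) (Tr.leaf ⟨0x20050000000000003,0xffa000000000000c,16,15,31⟩)) (Tr.br (Tr.leaf ⟨0x200040083,0x3ffb804c,16,111,0⟩) (Tr.leaf ⟨0x2000000400210000000000003,0x400000000fde000000000000c,20,11,31⟩))) (Tr.br (Tr.br (Tr.leaf ⟨0x20083,0x3ffd804c,32,95,0⟩) (Tr.leaf ⟨0x300202010000000000003,0x40000dfe000000000000c,1,30,31⟩)) (Tr.br (Tr.leaf ⟨0x2002000400083,0x3fbf804c,4,123,0⟩) (Tr.leaf ⟨0x20100004040080110000000000003,0x4008000200000fee000000000000c,4,27,31⟩)))) (Tr.br (Tr.br (Tr.br (Tr.br (Tr.leaf ⟨835,1164,0,1,1⟩) (Tr.leaf ⟨0x20000000000000001001010000000000003,0x4000000000000000000efe000000000000c,10,21,31⟩)) (Tr.leaf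 ⟨0x2004010000000000003,0xbfe000000000000c,9,22,31⟩)) (Tr.br (Tr.leaf ⟨0x20004000083,0x3bff804c,10,117,0⟩) (Tr.leaf ⟨0x200000500202010000000000003,0x40000020000dfe000000000000c,1,30,31⟩))) (Tr.br (Tr.br (Tr.leaf ⟨0x2000083,0x3dff804c,66,61,0⟩) (Tr.leaf ⟨0x20010020050000000000003,0x4000000ffa000000000000c,16,15,31⟩)) (Tr.br (Tr.leaf ⟨0x210000000000003,0xfde000000000000c,20,11,31⟩) (Tr.leaf ⟨0x2000004000000400210000000000003,0x400000200000000fde000000000000c,20,11,31⟩)))))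
 (Tr.br (Tr.br (Tr.br (Tr.br (Tr.br (Tr.leaf ⟨35,28,0,0,0⟩) (Tr.leaf ⟨0x2000000000000000400210000000000003,0x400000000000000000fde000000000000c,20,11,31⟩)) (Tr.leaf ⟨0x202010000000000003,0xdfe000000000000c,1,30,31⟩)) (Tr.br (Tr.leaf ⟨0x2000400083,0x3fbf804c,4,123,0⟩) (Tr.leaf ⟨0x20040010020050000000000003,0x4002000000ffa000000000000c,16,15,31⟩))) (Tr.br (Tr.br (Tr.leaf ⟨0x200083,0x3fdf804c,40,87,0⟩) (Tr.leaf ⟨0x2040080110000000000003,0x400000fee000000000000c,4,27,31⟩)) (Tr.br (Tr.leaf ⟨0x30000000000003,0xffc000000000000c,0,31,31⟩) (Tr.leaf ⟨0x201000010020040090000000000003,0x40080000800000ff6000000000000c,8,23,31⟩)))) (Tr.br (Tr.br (Tr.br (Tr.br (Tr.leaf ⟨8259,140,0,0,127⟩) (Tr.leaf ⟨0x200000000000000004008010000000000003,0x400000000000000000007fe000000000000c,5,26,31⟩)) (Tr.leaf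 ⟨0x20040090000000000003,0xff6000000000000c,8,23,31⟩)) (Tr.br (Tr.leaf ⟨0x200080010083,0x3ffe804c,64,63,0⟩) (Tr.leaf ⟨0x2000001080100410000000000003,0x400000080000fbe000000000000c,2,29,31⟩))) (Tr.br (Tr.br (Tr.leaf ⟨0x20000083,0x1fff804c,5,122,0⟩) (Tr.leaf ⟨0x200004008010000000000003,0x400000007fe000000000000c,5,26,31⟩)) (Tr.br (Tr.leaf ⟨0x2010000000000003,0xdfe000000000000c,1,30,31⟩) (Tr.leaf ⟨0x20000000100000800810000000000003,0x4000000008000000f7e000000000000c,18,13,31⟩)))))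
)
 (Tr.br (Tr.br (Tr.br (Tr.br (Tr.br (Tr.br (Tr.leaf ⟨9,6,0,0,0⟩) (Tr.leaf ⟨0x800000000000008010030000000000003,0x100000000000000000ffc000000000000c,0,31,31⟩)) (Tr.leaf ⟨0x80110000000000003,0xfee000000000000c,4,27,31⟩)) (Tr.br (Tr.leaf ⟨0x800100083,0x3fef804c,8,119,0⟩) (Tr.leaf ⟨0x8000002004010000000000003,0x1000000000bfe000000000000c,9,22,31⟩))) (Tr.br (Tr.br (Tr.leaf ⟨0x80083,0x3ff7804c,80,47,0⟩) (Tr.leaf ⟨0x880100410000000000003,0x100000fbe000000000000c,2,29,31⟩)) (Tr.br (Tr.leaf ⟨0x8040008000083,0x37ff804c,1,126,0⟩) (Tr.leaf ⟨0x80400000500202010000000000003,0x10020000020000dfe000000000000c,1,30,31⟩)))) (Tr.br (Tr.br (Tr.br (Tr.br (Tr.leaf ⟨2179,76,0,1,0⟩) (Tr.leaf ⟨0x80000000000000002004010000000000003,0x10000000000000000000bfe000000000000c,9,22,31⟩)) (Tr.leaf ⟨0x8010030000000000003,0xffc000000000000c,0,31,31⟩))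 (Tr.br (Tr.leaf ⟨0x80010000083,0x2fff804c,33,94,0⟩) (Tr.leaf ⟨0x800010020040090000000000003,0x100000800000ff6000000000000c,8,23,31⟩))) (Tr.br (Tr.br (Tr.leaf ⟨0x8000083,0x37ff804c,1,126,0⟩) (Tr.leaf ⟨0x80000800810000000000003,0x10000000f7e000000000000c,18,13,31⟩)) (Tr.br (Tr.leaf ⟨0x810000000000003,0xf7e000000000000c,18,13,31⟩) (Tr.leaf ⟨0x8000010000002004010000000000003,0x1000000800000000bfe000000000000c,9,22,31⟩)))))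
 (Tr.br (Tr.br (Tr.br (Tr.br (Tr.br (Tr.leaf ⟨131,76,0,0,0⟩) (Tr.leaf ⟨0x8000000000000000800810000000000003,0x1000000000000000000f7e000000000000c,18,13,31⟩)) (Tr.leaf ⟨0x800810000000000003,0xf7e000000000000c,18,13,31⟩)) (Tr.br (Tr.leaf ⟨0x8001000083,0x3eff804c,2,125,0⟩) (Tr.leaf ⟨0x80004040080110000000000003,0x10000200000fee000000000000c,4,27,31⟩))) (Tr.br (Tr.br (Tr.leaf ⟨0x800083,0x3f7f804c,20,107,0⟩) (Tr.leaf ⟨0x8020040090000000000003,0x1000000ff6000000000000c,8,23,31⟩)) (Tr.br (Tr.leaf ⟨0x90000000000003,0xff6000000000000c,8,23,31⟩) (Tr.leaf ⟨0x804000001080100410000000000003,0x100200000080000fbe000000000000c,2,29,31⟩)))) (Tr.br (Tr.br (Tr.br (Tr.leaf ⟨32899,0x3fff004c,0,127,0⟩) (Tr.leaf ⟨0x80100410000000000003,0xfbe000000000000c,2,29,31⟩)) (Tr.br (Tr.leaf ⟨0x800200040083,0x3ffb804c,16,111,0⟩)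 (Tr.leaf ⟨0x8040040010020050000000000003,0x1002002000000ffa000000000000c,16,15,31⟩))) (Tr.br (Tr.br (Tr.leaf ⟨0x80010083,0x3ffe804c,64,63,0⟩) (Tr.leaf ⟨0x800001001010000000000003,0x100000000efe000000000000c,10,21,31⟩)) (Tr.br (Tr.leaf ⟨0x8010000000000003,0x7fe000000000000c,5,26,31⟩) (Tr.leaf ⟨0x80000000400004008010000000000003,0x100000000200000007fe000000000000c,5,26,31⟩)))))
)
)
)

noncomputable def d_ev : Tr Ev := (Tr.br (Tr.br (Tr.br (Tr.br (Tr.br (Tr.br (Tr.leaf ⟨1,[4,5],0⟩) (Tr.leaf ⟨92,[125,126],0⟩)) (Tr.leaf ⟨74,[93,94],0⟩)) (Tr.br (Tr.br (Tr.leaf ⟨1,[52],31⟩) (Tr.leaf ⟨74,[141,142],0⟩)) (Tr.leaf ⟨84,[109,110],0⟩)))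
 (Tr.br (Tr.br (Tr.br (Tr.leaf ⟨7,[11],0⟩) (Tr.leaf ⟨70,[133,134],0⟩)) (Tr.leaf ⟨90,[101,102],0⟩)) (Tr.br (Tr.leaf ⟨78,[85,86],0⟩) (Tr.leaf ⟨108,[117,118],0⟩)))
)
 (Tr.br (Tr.br (Tr.br (Tr.br (Tr.leaf ⟨6,[8],1⟩) (Tr.leaf ⟨96,[129,130],0⟩)) (Tr.leaf ⟨70,[97,98],0⟩)) (Tr.br (Tr.leaf ⟨80,[81,82],0⟩) (Tr.leaf ⟨104,[113,114],0⟩)))
 (Tr.br (Tr.br (Tr.br (Tr.leaf ⟨13,[14],0⟩) (Tr.leaf ⟨72,[137,138],0⟩)) (Tr.leaf ⟨82,[105,106],0⟩)) (Tr.br (Tr.leaf ⟨76,[89,90],0⟩) (Tr.leaf ⟨98,[121,122],0⟩)))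
)
)
 (Tr.br (Tr.br (Tr.br (Tr.br (Tr.br (Tr.leaf ⟨1,[6,7],0⟩) (Tr.leaf ⟨94,[127,128],0⟩)) (Tr.leaf ⟨72,[95,96],0⟩)) (Tr.br (Tr.leaf ⟨52,[53,54,55,56,57,58,59,60,61,62,63],0⟩) (Tr.leaf ⟨102,[111,112],0⟩)))
 (Tr.br (Tr.br (Tr.br (Tr.leaf ⟨6,[13],127⟩) (Tr.leaf ⟨71,[135,136],0⟩)) (Tr.leaf ⟨86,[103,104],0⟩)) (Tr.br (Tr.leaf ⟨77,[87,88],0⟩) (Tr.leaf ⟨110,[119,120],0⟩)))
)
 (Tr.br (Tr.br (Tr.br (Tr.br (Tr.leaf ⟨8,[9,10],0⟩) (Tr.leaf ⟨75,[131,132],0⟩)) (Tr.leaf ⟨73,[99,100],0⟩)) (Tr.br (Tr.leaf ⟨79,[83,84],0⟩) (Tr.leaf ⟨106,[115,116],0⟩)))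
 (Tr.br (Tr.br (Tr.br (Tr.leaf ⟨7,[15,16,17,18,19,20,21,22,23,24,25,26,27,28,29],0⟩) (Tr.leaf ⟨73,[139,140],0⟩)) (Tr.leaf ⟨88,[107,108],0⟩)) (Tr.br (Tr.leaf ⟨71,[91,92],0⟩) (Tr.leaf ⟨100,[123,124],0⟩)))
)
)
)

noncomputable def d_ax : Tr Ax := (Tr.br (Tr.br (Tr.br (Tr.br (Tr.br (Tr.br (Tr.br (Tr.br (Tr.leaf ⟨[1,1,1],[⟨0,1,true⟩,⟨0,2,true⟩,⟨1,2,true⟩],[],0⟩) (Tr.leaf ⟨[0x40000000000000000000,0x800000000000000000,0x100000000000000000000],[⟨0,1,true⟩,⟨0,2,false⟩,⟨1,2,false⟩],[],0⟩)) (Tr.br (Tr.leaf ⟨[0x8000000000000000000,0x40000000000000000000,0x2000000000000000000],[⟨0,1,true⟩,⟨0,2,false⟩,⟨1,2,true⟩],[],0⟩) (Tr.leaf ⟨[0x80000000000000000000000000000],[],[⟨113,[(0,true)]⟩],0⟩))) (Tr.br (Tr.br (Tr.leaf ⟨[0x1000000000000],[],[],0⟩) (Tr.leaf ⟨[0x800000000000000000000],[],[⟨74,[(0,false)]⟩],0⟩))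 (Tr.br (Tr.leaf ⟨[0x10000000000000000000,0x80000000000000000000,0x2000000000000000000],[⟨0,1,false⟩,⟨0,2,false⟩,⟨1,2,true⟩],[],0⟩) (Tr.leaf ⟨[0x400000000000000000000000000000000000,0x800000000000000000000000000000000],[⟨0,1,true⟩],[],0⟩)))) (Tr.br (Tr.br (Tr.br (Tr.leaf ⟨[0x40000000,0x1000000000],[],[],0⟩) (Tr.leaf ⟨[0x400000000000000000,0x1000000000000000000,0x4000000000000000000],[⟨0,1,false⟩,⟨0,2,false⟩,⟨1,2,false⟩],[],0⟩)) (Tr.br (Tr.leaf ⟨[0x8000000000000000000,0x800000000000000000,0x4000000000000000000],[⟨0,1,false⟩,⟨0,2,true⟩,⟨1,2,false⟩],[],0⟩) (Tr.leaf ⟨[0x100000000000000000000000000000000,0x1000000000000000000000000],[⟨0,1,false⟩],[],0⟩))) (Tr.br (Tr.br (Tr.leaf ⟨[0x8000000000000000000,0x8000000000000000000,0x1000000000000000000],[⟨0,1,true⟩,⟨0,2,true⟩,⟨1,2,false⟩],[],0⟩)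 (Tr.leaf ⟨[0x8000000000000000000000000],[],[⟨89,[(0,false)]⟩],0⟩)) (Tr.leaf ⟨[0x20000000000000000000,0x400000000000000000,0x100000000000000000000],[⟨0,1,false⟩,⟨0,2,false⟩,⟨1,2,true⟩],[],0⟩)))) (Tr.br (Tr.br (Tr.br (Tr.br (Tr.leaf ⟨[2,64,64,64],[⟨0,1,true⟩,⟨0,2,true⟩,⟨0,3,true⟩],[],0⟩) (Tr.leaf ⟨[0x40000000000000000000,0x1000000000000000000,0x4000000000000000000],[⟨0,1,false⟩,⟨0,2,false⟩,⟨1,2,false⟩],[],0⟩)) (Tr.br (Tr.leaf ⟨[0x8000000000000000000,0x400000000000000000,0x4000000000000000000],[⟨0,1,true⟩,⟨0,2,true⟩,⟨1,2,false⟩],[],0⟩) (Tr.leaf ⟨[0x4000000000000000000000000000000,0x1000000000000000000000000000000],[⟨0,1,true⟩],[],0⟩))) (Tr.br (Tr.br (Tr.leaf ⟨[0x10000000000000000,0x200000000000000000],[⟨0,1,false⟩],[],0⟩) (Tr.leaf ⟨[0x80000000000000000000000],[],[⟨81,[(0,false)]⟩],0⟩))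 (Tr.leaf ⟨[0x10000000000000000000,0x2000000000000000000,0x4000000000000000000],[⟨0,1,false⟩,⟨0,2,true⟩,⟨1,2,false⟩],[],0⟩))) (Tr.br (Tr.br (Tr.br (Tr.leaf ⟨[0x1000000000,0x4000000000],[⟨0,1,false⟩],[],0⟩) (Tr.leaf ⟨[0x800000000000000000,0x100000000000000000000,0x2000000000000000000],[⟨0,1,false⟩,⟨0,2,false⟩,⟨1,2,false⟩],[],0⟩)) (Tr.br (Tr.leaf ⟨[0x10000000000000000000,0x40000000000000000000,0x1000000000000000000],[⟨0,1,false⟩,⟨0,2,true⟩,⟨1,2,false⟩],[],0⟩) (Tr.leaf ⟨[0x4000000000000000000000000000000000,0x800000000000000000000000000000000],[⟨0,1,true⟩],[],0⟩))) (Tr.br (Tr.br (Tr.leaf ⟨[0x8000000000000000000,0x20000000000000000000,0x400000000000000000],[⟨0,1,true⟩,⟨0,2,false⟩,⟨1,2,false⟩],[],0⟩) (Tr.leaf ⟨[0x800000000000000000000000000],[],[⟨105,[(0,true)]⟩],0⟩)) (Tr.leaf ⟨[0x20000000000000000000,0x800000000000000000,0x100000000000000000000],[⟨0,1,false⟩,⟨0,2,true⟩,⟨1,2,false⟩],[],0⟩)))))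
 (Tr.br (Tr.br (Tr.br (Tr.br (Tr.br (Tr.leaf ⟨[32,32],[⟨0,1,true⟩],[],0⟩) (Tr.leaf ⟨[0x40000000000000000000,0x1000000000000000000,0x100000000000000000000],[⟨0,1,false⟩,⟨0,2,false⟩,⟨1,2,false⟩],[],0⟩)) (Tr.br (Tr.leaf ⟨[0x8000000000000000000,0x400000000000000000,0x1000000000000000000],[⟨0,1,false⟩,⟨0,2,true⟩,⟨1,2,false⟩],[],0⟩) (Tr.leaf ⟨[0x800000000000000000000000000000],[],[⟨117,[(0,true)]⟩],0⟩))) (Tr.br (Tr.br (Tr.leaf ⟨[0x10000000000000000,0x20000000000000000],[⟨0,1,false⟩],[],0⟩) (Tr.leaf ⟨[0x8000000000000000000000],[],[⟨70,[(0,false)]⟩],0⟩)) (Tr.leaf ⟨[0x10000000000000000000,0x800000000000000000,0x2000000000000000000],[⟨0,1,false⟩,⟨0,2,false⟩,⟨1,2,false⟩],[],0⟩))) (Tr.br (Tr.br (Tr.br (Tr.leaf ⟨[0x40000000,0x80000000000],[],[],0⟩) (Tr.leaf ⟨[0x80000000000000000000,0x1000000000000000000,0x4000000000000000000],[⟨0,1,false⟩,⟨0,2,false⟩,⟨1,2,false⟩],[],0⟩))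 (Tr.br (Tr.leaf ⟨[0x8000000000000000000,0x1000000000000000000,0x4000000000000000000],[⟨0,1,false⟩,⟨0,2,true⟩,⟨1,2,false⟩],[],0⟩) (Tr.leaf ⟨[0x400000000000000000000000000000000,0x100000000000000000000000000000],[⟨0,1,true⟩],[],0⟩))) (Tr.br (Tr.br (Tr.leaf ⟨[0x8000000000000000000,0x10000000000000000000,0x80000000000000000000],[],[],0⟩) (Tr.leaf ⟨[0x80000000000000000000000000],[],[⟨101,[(0,true)]⟩],0⟩)) (Tr.leaf ⟨[0x20000000000000000000,0x80000000000000000000,0x4000000000000000000],[⟨0,1,true⟩,⟨0,2,false⟩,⟨1,2,false⟩],[],0⟩)))) (Tr.br (Tr.br (Tr.br (Tr.br (Tr.leaf ⟨[64,64,64,64,64,64,64],[⟨0,1,true⟩,⟨1,2,true⟩,⟨2,3,true⟩,⟨3,4,true⟩,⟨4,5,true⟩,⟨5,6,true⟩,⟨0,6,true⟩],[],0⟩) (Tr.leaf ⟨[0x400000000000000000,0x800000000000000000,0x100000000000000000000],[⟨0,1,false⟩,⟨0,2,true⟩,⟨1,2,false⟩],[],0⟩))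 (Tr.br (Tr.leaf ⟨[0x8000000000000000000,0x800000000000000000,0x100000000000000000000],[⟨0,1,false⟩,⟨0,2,true⟩,⟨1,2,false⟩],[],0⟩) (Tr.leaf ⟨[0x20000000000000000000000000000000],[],[⟨94,[(0,false)]⟩,⟨118,[(0,true)]⟩],0⟩))) (Tr.br (Tr.br (Tr.leaf ⟨[0x80000000000000000,0x100000000000000000],[⟨0,1,false⟩],[],0⟩) (Tr.leaf ⟨[0x800000000000000000000000],[],[⟨85,[(0,false)]⟩],0⟩)) (Tr.leaf ⟨[0x20000000000000000000,0x400000000000000000,0x800000000000000000],[⟨0,1,false⟩,⟨0,2,true⟩,⟨1,2,false⟩],[],0⟩))) (Tr.br (Tr.br (Tr.br (Tr.leaf ⟨[0x20000000000,0x100000000000],[⟨0,1,false⟩],[],0⟩) (Tr.leaf ⟨[0x8000000000000000000],[],[],0⟩)) (Tr.br (Tr.leaf ⟨[0x10000000000000000000,0x400000000000000000,0x1000000000000000000],[⟨0,1,false⟩,⟨0,2,true⟩,⟨1,2,false⟩],[],0⟩) (Tr.leaf ⟨[0x40000000000000000000000000000000000,0x800000000000000000000000000000000],[⟨0,1,true⟩],[],0⟩)))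 (Tr.br (Tr.br (Tr.leaf ⟨[0x8000000000000000000,0x20000000000000000000,0x4000000000000000000],[⟨0,1,true⟩,⟨0,2,false⟩,⟨1,2,true⟩],[],0⟩) (Tr.leaf ⟨[0x8000000000000000000000000000],[],[⟨109,[(0,true)]⟩],0⟩)) (Tr.leaf ⟨[0x40000000000000000000,0x400000000000000000,0x1000000000000000000],[⟨0,1,false⟩,⟨0,2,false⟩,⟨1,2,false⟩],[],0⟩)))))
)
 (Tr.br (Tr.br (Tr.br (Tr.br (Tr.br (Tr.br (Tr.leaf ⟨[2,2,2,2,2],[⟨0,1,true⟩,⟨1,2,true⟩,⟨2,3,true⟩,⟨3,4,true⟩,⟨4,0,true⟩,⟨0,2,false⟩,⟨0,3,false⟩,⟨1,3,false⟩,⟨1,4,false⟩,⟨2,4,false⟩],[],0⟩) (Tr.leaf ⟨[0x40000000000000000000,0x800000000000000000,0x2000000000000000000],[⟨0,1,false⟩,⟨0,2,false⟩,⟨1,2,false⟩],[],0⟩)) (Tr.br (Tr.leaf ⟨[0x8000000000000000000,0x400000000000000000,0x800000000000000000],[⟨0,1,true⟩,⟨0,2,true⟩,⟨1,2,false⟩],[],0⟩) (Tr.leaf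 ⟨[0x200000000000000000000000000000],[],[⟨110,[(0,true)]⟩],0⟩))) (Tr.br (Tr.br (Tr.leaf ⟨[0x4000000000000],[],[],0⟩) (Tr.leaf ⟨[0x2000000000000000000000],[],[⟨72,[(0,false)]⟩],0⟩)) (Tr.leaf ⟨[0x10000000000000000000,0x80000000000000000000,0x4000000000000000000],[⟨0,1,true⟩,⟨0,2,false⟩,⟨1,2,false⟩],[],0⟩))) (Tr.br (Tr.br (Tr.br (Tr.leaf ⟨[0x40000000,0x10000000000],[],[],0⟩) (Tr.leaf ⟨[0x80000000000000000000,0x800000000000000000,0x2000000000000000000],[⟨0,1,false⟩,⟨0,2,true⟩,⟨1,2,false⟩],[],0⟩)) (Tr.br (Tr.leaf ⟨[0x8000000000000000000,0x1000000000000000000,0x2000000000000000000],[⟨0,1,true⟩,⟨0,2,true⟩,⟨1,2,false⟩],[],0⟩) (Tr.leaf ⟨[0x200000000000000000000000000000000],[],[⟨122,[(0,false)]⟩,⟨116,[(0,true)]⟩],0⟩))) (Tr.br (Tr.br (Tr.leaf ⟨[0x8000000000000000000,0x8000000000000000000,0x4000000000000000000],[⟨0,1,true⟩,⟨0,2,true⟩,⟨1,2,false⟩],[],0⟩)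 (Tr.leaf ⟨[0x20000000000000000000000000],[],[⟨86,[(0,true)]⟩],0⟩)) (Tr.leaf ⟨[0x20000000000000000000,0x400000000000000000,0x4000000000000000000],[⟨0,1,false⟩,⟨0,2,true⟩,⟨1,2,false⟩],[],0⟩)))) (Tr.br (Tr.br (Tr.br (Tr.br (Tr.leaf ⟨[64,64,64,64,64,64],[⟨0,5,true⟩,⟨0,1,true⟩,⟨1,2,true⟩,⟨2,3,true⟩,⟨3,4,true⟩,⟨4,5,true⟩],[],0⟩) (Tr.leaf ⟨[0x400000000000000000,0x80000000000000000000,0x2000000000000000000],[⟨0,1,false⟩,⟨0,2,false⟩,⟨1,2,false⟩],[],0⟩)) (Tr.br (Tr.leaf ⟨[0x8000000000000000000,0x80000000000000000000,0x4000000000000000000],[⟨0,1,true⟩,⟨0,2,false⟩,⟨1,2,false⟩],[],0⟩) (Tr.leaf ⟨[0x10000000000000000000000000000000,0x100000000000000000000000],[⟨0,1,false⟩],[],0⟩))) (Tr.br (Tr.br (Tr.leaf ⟨[0x20000000000000000,0x200000000000000000],[⟨0,1,false⟩],[],0⟩) (Tr.leaf ⟨[0x200000000000000000000000],[],[⟨83,[(0,false)]⟩],0⟩))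 (Tr.leaf ⟨[0x20000000000000000000,0x400000000000000000,0x80000000000000000000],[⟨0,1,false⟩,⟨0,2,true⟩,⟨1,2,false⟩],[],0⟩))) (Tr.br (Tr.br (Tr.br (Tr.leaf ⟨[0x10000000000,0x80000000000],[⟨0,1,false⟩],[],0⟩) (Tr.leaf ⟨[0x800000000000000000,0x2000000000000000000,0x4000000000000000000],[⟨0,1,false⟩,⟨0,2,false⟩,⟨1,2,false⟩],[],0⟩)) (Tr.br (Tr.leaf ⟨[0x10000000000000000000,0x40000000000000000000,0x2000000000000000000],[⟨0,1,true⟩,⟨0,2,false⟩,⟨1,2,false⟩],[],0⟩) (Tr.leaf ⟨[0x10000000000000000000000000000000000,0x800000000000000000000000000000000],[⟨0,1,true⟩],[],0⟩))) (Tr.br (Tr.br (Tr.leaf ⟨[0x8000000000000000000,0x20000000000000000000,0x800000000000000000],[⟨0,1,true⟩,⟨0,2,false⟩,⟨1,2,true⟩],[],0⟩) (Tr.leaf ⟨[0x2000000000000000000000000000],[],[⟨102,[(0,true)]⟩],0⟩)) (Tr.leaf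 ⟨[0x20000000000000000000,0x800000000000000000,0x4000000000000000000],[⟨0,1,false⟩,⟨0,2,false⟩,⟨1,2,false⟩],[],0⟩)))))
 (Tr.br (Tr.br (Tr.br (Tr.br (Tr.br (Tr.leaf ⟨[64],[],[⟨6,[(0,true)]⟩],1⟩) (Tr.leaf ⟨[0x40000000000000000000,0x1000000000000000000,0x100000000000000000000],[⟨0,1,false⟩,⟨0,2,false⟩,⟨1,2,true⟩],[],0⟩)) (Tr.br (Tr.leaf ⟨[0x8000000000000000000,0x400000000000000000,0x2000000000000000000],[⟨0,1,true⟩,⟨0,2,false⟩,⟨1,2,false⟩],[],0⟩) (Tr.leaf ⟨[0x2000000000000000000000000000000],[],[⟨100,[(0,false)]⟩,⟨120,[(0,true)]⟩],0⟩))) (Tr.br (Tr.br (Tr.leaf ⟨[0x10000000000000000,0x80000000000000000],[⟨0,1,false⟩],[],0⟩) (Tr.leaf ⟨[0x20000000000000000000000],[],[⟨73,[(0,false)]⟩],0⟩)) (Tr.leaf ⟨[0x10000000000000000000,0x1000000000000000000,0x2000000000000000000],[⟨0,1,true⟩,⟨0,2,false⟩,⟨1,2,false⟩],[],0⟩)))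 (Tr.br (Tr.br (Tr.br (Tr.leaf ⟨[0x400000000,0x1000000000],[⟨0,1,false⟩],[],0⟩) (Tr.leaf ⟨[0x800000000000000000,0x1000000000000000000,0x100000000000000000000],[⟨0,1,false⟩,⟨0,2,false⟩,⟨1,2,true⟩],[],0⟩)) (Tr.br (Tr.leaf ⟨[0x10000000000000000000,0x40000000000000000000,0x1000000000000000000],[⟨0,1,false⟩,⟨0,2,false⟩,⟨1,2,false⟩],[],0⟩) (Tr.leaf ⟨[0x1000000000000000000000000000000000,0x7c00000000000000000],[⟨0,1,true⟩],[],0⟩))) (Tr.br (Tr.br (Tr.leaf ⟨[0x8000000000000000000,0x10000000000000000000,0x2000000000000000000],[⟨0,1,true⟩,⟨0,2,false⟩,⟨1,2,false⟩],[],0⟩) (Tr.leaf ⟨[0x200000000000000000000000000],[],[⟨88,[(0,true)]⟩],0⟩)) (Tr.leaf ⟨[0x20000000000000000000,0x800000000000000000,0x100000000000000000000],[⟨0,1,false⟩,⟨0,2,false⟩,⟨1,2,false⟩],[],0⟩)))) (Tr.br (Tr.br (Tr.br (Tr.br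 (Tr.leaf ⟨[4096],[],[],0⟩) (Tr.leaf ⟨[0x400000000000000000,0x1000000000000000000,0x100000000000000000000],[⟨0,1,false⟩,⟨0,2,false⟩,⟨1,2,false⟩],[],0⟩)) (Tr.br (Tr.leaf ⟨[0x8000000000000000000,0x800000000000000000,0x2000000000000000000],[⟨0,1,false⟩,⟨0,2,true⟩,⟨1,2,false⟩],[],0⟩) (Tr.leaf ⟨[0x40000000000000000000000000000000,0x400000000000000000000000000000],[⟨0,1,true⟩],[],0⟩))) (Tr.br (Tr.br (Tr.leaf ⟨[0x8000000000000000000,0x8000000000000000000,0x400000000000000000],[⟨0,1,true⟩,⟨0,2,true⟩,⟨1,2,false⟩],[],0⟩) (Tr.leaf ⟨[0x2000000000000000000000000],[],[⟨87,[(0,false)]⟩],0⟩)) (Tr.leaf ⟨[0x20000000000000000000,0x400000000000000000,0x100000000000000000000],[⟨0,1,false⟩,⟨0,2,false⟩,⟨1,2,false⟩],[],0⟩))) (Tr.br (Tr.br (Tr.br (Tr.leaf ⟨[0x400000000000],[],[],0⟩) (Tr.leaf ⟨[0x200000000000000000000],[],[⟨71,[(0,false)]⟩],0⟩))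 (Tr.br (Tr.leaf ⟨[0x10000000000000000000,0x80000000000000000000,0x2000000000000000000],[⟨0,1,false⟩,⟨0,2,false⟩,⟨1,2,false⟩],[],0⟩) (Tr.leaf ⟨[0x100000000000000000000000000000000000,0x800000000000000000000000000000000],[⟨0,1,true⟩],[],0⟩))) (Tr.br (Tr.br (Tr.leaf ⟨[0x8000000000000000000,0x40000000000000000000,0x1000000000000000000],[⟨0,1,true⟩,⟨0,2,false⟩,⟨1,2,false⟩],[],0⟩) (Tr.leaf ⟨[0x20000000000000000000000000000],[],[⟨106,[(0,true)]⟩],0⟩)) (Tr.leaf ⟨[0x40000000000000000000,0x800000000000000000,0x1000000000000000000],[⟨0,1,true⟩,⟨0,2,false⟩,⟨1,2,false⟩],[],0⟩)))))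
)
)
 (Tr.br (Tr.br (Tr.br (Tr.br (Tr.br (Tr.br (Tr.br (Tr.leaf ⟨[1,1,1,1,1,1,1],[⟨0,1,false⟩,⟨0,2,false⟩,⟨0,3,false⟩,⟨0,4,false⟩,⟨0,5,false⟩,⟨0,6,false⟩,⟨1,2,true⟩,⟨1,3,true⟩,⟨1,4,true⟩,⟨1,5,false⟩,⟨1,6,false⟩,⟨2,3,false⟩,⟨2,4,false⟩,⟨2,5,false⟩,⟨2,6,false⟩,⟨3,4,false⟩,⟨3,5,false⟩,⟨3,6,false⟩,⟨4,5,true⟩,⟨4,6,false⟩,⟨5,6,true⟩],[],0⟩) (Tr.leaf ⟨[0x40000000000000000000,0x800000000000000000,0x100000000000000000000],[⟨0,1,false⟩,⟨0,2,true⟩,⟨1,2,false⟩],[],0⟩)) (Tr.br (Tr.leaf ⟨[0x8000000000000000000,0x400000000000000000,0x80000000000000000000],[⟨0,1,false⟩,⟨0,2,true⟩,⟨1,2,true⟩],[],0⟩) (Tr.leaf ⟨[0x100000000000000000000000000000,0x20000000000000000000000000000],[⟨0,1,true⟩],[],0⟩))) (Tr.br (Tr.br (Tr.leaf ⟨[0x2000000000000],[],[],0⟩) (Tr.leaf ⟨[0x1000000000000000000000,0x4000000000000000000],[⟨0,1,false⟩],[],0⟩))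 (Tr.leaf ⟨[0x10000000000000000000,0x80000000000000000000,0x4000000000000000000],[⟨0,1,false⟩,⟨0,2,false⟩,⟨1,2,false⟩],[],0⟩))) (Tr.br (Tr.br (Tr.br (Tr.leaf ⟨[0x40000000,0x4000000000],[],[],0⟩) (Tr.leaf ⟨[0x400000000000000000,0x100000000000000000000,0x2000000000000000000],[⟨0,1,true⟩,⟨0,2,false⟩,⟨1,2,false⟩],[],0⟩)) (Tr.br (Tr.leaf ⟨[0x8000000000000000000,0x1000000000000000000,0x100000000000000000000],[⟨0,1,false⟩,⟨0,2,true⟩,⟨1,2,true⟩],[],0⟩) (Tr.leaf ⟨[0x100000000000000000000000000000000,0x10000000000000000000000000000],[⟨0,1,true⟩],[],0⟩))) (Tr.br (Tr.br (Tr.leaf ⟨[0x8000000000000000000,0x8000000000000000000,0x2000000000000000000],[⟨0,1,true⟩,⟨0,2,true⟩,⟨1,2,false⟩],[],0⟩) (Tr.leaf ⟨[0x10000000000000000000000000,0x20000000000000000000000],[⟨0,1,false⟩],[],0⟩)) (Tr.leaf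 ⟨[0x20000000000000000000,0x400000000000000000,0x2000000000000000000],[⟨0,1,false⟩,⟨0,2,false⟩,⟨1,2,false⟩],[],0⟩)))) (Tr.br (Tr.br (Tr.br (Tr.br (Tr.leaf ⟨[64,64,64,64],[⟨0,3,true⟩,⟨0,1,true⟩,⟨1,2,true⟩,⟨2,3,true⟩],[],0⟩) (Tr.leaf ⟨[0x400000000000000000,0x80000000000000000000,0x1000000000000000000],[⟨0,1,true⟩,⟨0,2,false⟩,⟨1,2,false⟩],[],0⟩)) (Tr.br (Tr.leaf ⟨[0x8000000000000000000,0x80000000000000000000,0x2000000000000000000],[⟨0,1,true⟩,⟨0,2,false⟩,⟨1,2,true⟩],[],0⟩) (Tr.leaf ⟨[0x8000000000000000000000000000000],[],[⟨92,[(0,false)]⟩,⟨114,[(0,true)]⟩],0⟩))) (Tr.br (Tr.br (Tr.leaf ⟨[0x20000000000000000,0x40000000000000000],[⟨0,1,false⟩],[],0⟩) (Tr.leaf ⟨[0x100000000000000000000000,0x200000000000000000000],[⟨0,1,false⟩],[],0⟩)) (Tr.leaf ⟨[0x20000000000000000000,0x400000000000000000,0x80000000000000000000],[⟨0,1,false⟩,⟨0,2,false⟩,⟨1,2,false⟩],[],0⟩)))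 (Tr.br (Tr.br (Tr.br (Tr.leaf ⟨[0x4000000000,0x20000000000],[⟨0,1,false⟩],[],0⟩) (Tr.leaf ⟨[0x800000000000000000,0x100000000000000000000,0x4000000000000000000],[⟨0,1,false⟩,⟨0,2,false⟩,⟨1,2,false⟩],[],0⟩)) (Tr.br (Tr.leaf ⟨[0x10000000000000000000,0x40000000000000000000,0x2000000000000000000],[⟨0,1,false⟩,⟨0,2,false⟩,⟨1,2,false⟩],[],0⟩) (Tr.leaf ⟨[0x8000000000000000000000000000000000],[],[⟨131,[(0,true)]⟩],0⟩))) (Tr.br (Tr.br (Tr.leaf ⟨[0x8000000000000000000,0x20000000000000000000,0x80000000000000000000],[],[],0⟩) (Tr.leaf ⟨[0x1000000000000000000000000000,0x200000000000000000000000000],[⟨0,1,true⟩],[],0⟩)) (Tr.leaf ⟨[0x20000000000000000000,0x800000000000000000,0x2000000000000000000],[⟨0,1,true⟩,⟨0,2,false⟩,⟨1,2,false⟩],[],0⟩)))))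
 (Tr.br (Tr.br (Tr.br (Tr.br (Tr.br (Tr.leaf ⟨[],[],[⟨6,[]⟩],0⟩) (Tr.leaf ⟨[0x40000000000000000000,0x1000000000000000000,0x100000000000000000000],[⟨0,1,false⟩,⟨0,2,true⟩,⟨1,2,false⟩],[],0⟩)) (Tr.br (Tr.leaf ⟨[0x8000000000000000000,0x400000000000000000,0x100000000000000000000],[⟨0,1,false⟩,⟨0,2,true⟩,⟨1,2,true⟩],[],0⟩) (Tr.leaf ⟨[0x1000000000000000000000000000000,0x200000000000000000000000000000],[⟨0,1,true⟩],[],0⟩))) (Tr.br (Tr.br (Tr.leaf ⟨[0x10000000000000000,0x40000000000000000],[⟨0,1,false⟩],[],0⟩) (Tr.leaf ⟨[0x10000000000000000000000,0x400000000000000000],[⟨0,1,false⟩],[],0⟩)) (Tr.leaf ⟨[0x10000000000000000000,0x800000000000000000,0x4000000000000000000],[⟨0,1,false⟩,⟨0,2,true⟩,⟨1,2,false⟩],[],0⟩))) (Tr.br (Tr.br (Tr.br (Tr.leaf ⟨[0x40000000,0x100000000000],[],[],0⟩) (Tr.leaf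 ⟨[0x80000000000000000000,0x2000000000000000000,0x4000000000000000000],[⟨0,1,true⟩,⟨0,2,false⟩,⟨1,2,false⟩],[],0⟩)) (Tr.br (Tr.leaf ⟨[0x8000000000000000000,0x2000000000000000000,0x4000000000000000000],[⟨0,1,true⟩,⟨0,2,true⟩,⟨1,2,false⟩],[],0⟩) (Tr.leaf ⟨[0x800000000000000000000000000000000],[],[⟨70,[(0,true)]⟩,⟨71,[(0,true)]⟩,⟨72,[(0,true)]⟩,⟨73,[(0,true)]⟩,⟨74,[(0,true)]⟩],0⟩))) (Tr.br (Tr.br (Tr.leaf ⟨[0x8000000000000000000,0x10000000000000000000,0x1000000000000000000],[⟨0,1,true⟩,⟨0,2,false⟩,⟨1,2,true⟩],[],0⟩) (Tr.leaf ⟨[0x100000000000000000000000000,0x20000000000000000000000000],[⟨0,1,true⟩],[],0⟩)) (Tr.leaf ⟨[0x20000000000000000000,0x80000000000000000000,0x4000000000000000000],[⟨0,1,false⟩,⟨0,2,true⟩,⟨1,2,false⟩],[],0⟩)))) (Tr.br (Tr.br (Tr.br (Tr.br (Tr.leaf ⟨[64],[],[],0⟩)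 (Tr.leaf ⟨[0x400000000000000000,0x800000000000000000,0x2000000000000000000],[⟨0,1,false⟩,⟨0,2,false⟩,⟨1,2,false⟩],[],0⟩)) (Tr.br (Tr.leaf ⟨[0x8000000000000000000,0x800000000000000000,0x2000000000000000000],[⟨0,1,true⟩,⟨0,2,false⟩,⟨1,2,false⟩],[],0⟩) (Tr.leaf ⟨[0x40000000000000000000000000000000,0x400000000000000000000000],[⟨0,1,false⟩],[],0⟩))) (Tr.br (Tr.br (Tr.leaf ⟨[0x100000000000000000,0x200000000000000000],[⟨0,1,false⟩],[],0⟩) (Tr.leaf ⟨[0x1000000000000000000000000,0x2000000000000000000000],[⟨0,1,false⟩],[],0⟩)) (Tr.leaf ⟨[0x20000000000000000000,0x400000000000000000,0x1000000000000000000],[⟨0,1,false⟩,⟨0,2,false⟩,⟨1,2,false⟩],[],0⟩))) (Tr.br (Tr.br (Tr.br (Tr.leaf ⟨[0x200000000000],[],[],0⟩) (Tr.leaf ⟨[],[],[⟨75,[]⟩],0⟩)) (Tr.br (Tr.leaf ⟨[0x10000000000000000000,0x400000000000000000,0x2000000000000000000],[⟨0,1,false⟩,⟨0,2,false⟩,⟨1,2,false⟩],[],0⟩)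 (Tr.leaf ⟨[0x80000000000000000000000000000000000],[],[⟨131,[(0,true)]⟩],0⟩))) (Tr.br (Tr.br (Tr.leaf ⟨[0x8000000000000000000,0x40000000000000000000,0x800000000000000000],[⟨0,1,true⟩,⟨0,2,false⟩,⟨1,2,true⟩],[],0⟩) (Tr.leaf ⟨[0x10000000000000000000000000000,0x2000000000000000000000000000],[⟨0,1,true⟩],[],0⟩)) (Tr.leaf ⟨[0x40000000000000000000,0x400000000000000000,0x2000000000000000000],[⟨0,1,false⟩,⟨0,2,true⟩,⟨1,2,false⟩],[],0⟩)))))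
)
 (Tr.br (Tr.br (Tr.br (Tr.br (Tr.br (Tr.br (Tr.leaf ⟨[16,16],[⟨0,1,true⟩],[],0⟩) (Tr.leaf ⟨[0x40000000000000000000,0x800000000000000000,0x4000000000000000000],[⟨0,1,true⟩,⟨0,2,false⟩,⟨1,2,false⟩],[],0⟩)) (Tr.br (Tr.leaf ⟨[0x8000000000000000000,0x400000000000000000,0x1000000000000000000],[⟨0,1,true⟩,⟨0,2,false⟩,⟨1,2,false⟩],[],0⟩) (Tr.leaf ⟨[0x400000000000000000000000000000,0x4000000000000000000000000000],[⟨0,1,true⟩],[],0⟩))) (Tr.br (Tr.br (Tr.leaf ⟨[0x8000000000000],[],[],0⟩) (Tr.leaf ⟨[0x4000000000000000000000,0x1000000000000000000],[⟨0,1,false⟩],[],0⟩)) (Tr.leaf ⟨[0x10000000000000000000,0x80000000000000000000,0x4000000000000000000],[⟨0,1,false⟩,⟨0,2,true⟩,⟨1,2,false⟩],[],0⟩))) (Tr.br (Tr.br (Tr.br (Tr.leaf ⟨[0x40000000,0x20000000000],[],[],0⟩) (Tr.leaf ⟨[0x80000000000000000000,0x800000000000000000,0x4000000000000000000],[⟨0,1,false⟩,⟨0,2,false⟩,⟨1,2,false⟩],[],0⟩))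 (Tr.br (Tr.leaf ⟨[0x8000000000000000000,0x1000000000000000000,0x4000000000000000000],[⟨0,1,true⟩,⟨0,2,false⟩,⟨1,2,false⟩],[],0⟩) (Tr.leaf ⟨[0x400000000000000000000000000000000,0x4000000000000000000000000000000],[⟨0,1,false⟩],[],0⟩))) (Tr.br (Tr.br (Tr.leaf ⟨[0x8000000000000000000,0x10000000000000000000,0x40000000000000000000],[],[],0⟩) (Tr.leaf ⟨[0x40000000000000000000000000,0x4000000000000000000000],[⟨0,1,true⟩],[],0⟩)) (Tr.leaf ⟨[0x20000000000000000000,0x80000000000000000000,0x4000000000000000000],[⟨0,1,false⟩,⟨0,2,false⟩,⟨1,2,false⟩],[],0⟩)))) (Tr.br (Tr.br (Tr.br (Tr.br (Tr.leaf ⟨[64,64,64,64,64,64,64],[⟨0,1,true⟩,⟨1,2,true⟩,⟨2,3,true⟩,⟨3,4,true⟩,⟨4,5,true⟩,⟨5,6,true⟩,⟨0,6,true⟩,⟨0,2,false⟩,⟨0,3,false⟩,⟨0,4,false⟩,⟨0,5,false⟩,⟨1,3,false⟩,⟨1,4,false⟩,⟨1,5,false⟩,⟨1,6,false⟩,⟨2,4,false⟩,⟨2,5,false⟩,⟨2,6,false⟩,⟨3,5,false⟩,⟨3,6,false⟩,⟨4,6,false⟩],[],0⟩)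 (Tr.leaf ⟨[0x400000000000000000,0x80000000000000000000,0x4000000000000000000],[⟨0,1,true⟩,⟨0,2,false⟩,⟨1,2,false⟩],[],0⟩)) (Tr.br (Tr.leaf ⟨[0x8000000000000000000,0x800000000000000000,0x1000000000000000000],[⟨0,1,true⟩,⟨0,2,true⟩,⟨1,2,false⟩],[],0⟩) (Tr.leaf ⟨[0x10000000000000000000000000000000,0x40000000000000000000000000000],[⟨0,1,true⟩],[],0⟩))) (Tr.br (Tr.br (Tr.leaf ⟨[0x40000000000000000,0x80000000000000000],[⟨0,1,false⟩],[],0⟩) (Tr.leaf ⟨[0x400000000000000000000000,0x800000000000000000000],[⟨0,1,false⟩],[],0⟩)) (Tr.leaf ⟨[0x20000000000000000000,0x400000000000000000,0x80000000000000000000],[⟨0,1,false⟩,⟨0,2,false⟩,⟨1,2,true⟩],[],0⟩))) (Tr.br (Tr.br (Tr.br (Tr.leaf ⟨[0x10000000000,0x100000000000],[⟨0,1,false⟩],[],0⟩) (Tr.leaf ⟨[0x1000000000000000000,0x100000000000000000000,0x4000000000000000000],[⟨0,1,true⟩,⟨0,2,false⟩,⟨1,2,false⟩],[],0⟩))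 (Tr.br (Tr.leaf ⟨[0x10000000000000000000,0x40000000000000000000,0x2000000000000000000],[⟨0,1,false⟩,⟨0,2,false⟩,⟨1,2,true⟩],[],0⟩) (Tr.leaf ⟨[0x20000000000000000000000000000000000],[],[⟨131,[(0,true)]⟩],0⟩))) (Tr.br (Tr.br (Tr.leaf ⟨[0x8000000000000000000,0x20000000000000000000,0x100000000000000000000],[],[],0⟩) (Tr.leaf ⟨[0x4000000000000000000000000000,0x40000000000000000000000000],[⟨0,1,true⟩],[],0⟩)) (Tr.leaf ⟨[0x20000000000000000000,0x1000000000000000000,0x4000000000000000000],[⟨0,1,false⟩,⟨0,2,true⟩,⟨1,2,false⟩],[],0⟩)))))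
 (Tr.br (Tr.br (Tr.br (Tr.br (Tr.br (Tr.leaf ⟨[128,64,64],[⟨0,1,true⟩,⟨0,2,true⟩],[⟨6,[(1,true),(2,true)]⟩],0⟩) (Tr.leaf ⟨[0x40000000000000000000,0x1000000000000000000,0x2000000000000000000],[⟨0,1,false⟩,⟨0,2,true⟩,⟨1,2,false⟩],[],0⟩)) (Tr.br (Tr.leaf ⟨[0x8000000000000000000,0x400000000000000000,0x2000000000000000000],[⟨0,1,false⟩,⟨0,2,true⟩,⟨1,2,false⟩],[],0⟩) (Tr.leaf ⟨[0x4000000000000000000000000000000,0x10000000000000000000000000],[⟨0,1,false⟩],[],0⟩))) (Tr.br (Tr.br (Tr.leaf ⟨[0x10000000000000000,0x100000000000000000],[⟨0,1,false⟩],[],0⟩) (Tr.leaf ⟨[0x40000000000000000000000,0x2000000000000000000],[⟨0,1,false⟩],[],0⟩)) (Tr.leaf ⟨[0x10000000000000000000,0x1000000000000000000,0x4000000000000000000],[⟨0,1,false⟩,⟨0,2,false⟩,⟨1,2,false⟩],[],0⟩))) (Tr.br (Tr.br (Tr.br (Tr.leaf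 ⟨[0x400000000,0x80000000000],[⟨0,1,false⟩],[],0⟩) (Tr.leaf ⟨[0x800000000000000000,0x1000000000000000000,0x4000000000000000000],[⟨0,1,false⟩,⟨0,2,false⟩,⟨1,2,false⟩],[],0⟩)) (Tr.br (Tr.leaf ⟨[0x10000000000000000000,0x40000000000000000000,0x1000000000000000000],[⟨0,1,true⟩,⟨0,2,false⟩,⟨1,2,false⟩],[],0⟩) (Tr.leaf ⟨[0x2000000000000000000000000000000000],[],[⟨131,[(0,true)]⟩],0⟩))) (Tr.br (Tr.br (Tr.leaf ⟨[0x8000000000000000000,0x10000000000000000000,0x4000000000000000000],[⟨0,1,true⟩,⟨0,2,false⟩,⟨1,2,true⟩],[],0⟩) (Tr.leaf ⟨[0x400000000000000000000000000,0x10000000000000000000000],[⟨0,1,true⟩],[],0⟩)) (Tr.leaf ⟨[0x20000000000000000000,0x800000000000000000,0x100000000000000000000],[⟨0,1,true⟩,⟨0,2,false⟩,⟨1,2,false⟩],[],0⟩)))) (Tr.br (Tr.br (Tr.br (Tr.br (Tr.leaf ⟨[0x40000000,0x400000000],[],[],0⟩)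 (Tr.leaf ⟨[0x400000000000000000,0x1000000000000000000,0x2000000000000000000],[⟨0,1,false⟩,⟨0,2,false⟩,⟨1,2,false⟩],[],0⟩)) (Tr.br (Tr.leaf ⟨[0x8000000000000000000,0x800000000000000000,0x4000000000000000000],[⟨0,1,true⟩,⟨0,2,false⟩,⟨1,2,false⟩],[],0⟩) (Tr.leaf ⟨[0x80000000000000000000000000000000],[],[⟨96,[(0,false)]⟩,⟨112,[(0,true)]⟩],0⟩))) (Tr.br (Tr.br (Tr.leaf ⟨[0x8000000000000000000,0x8000000000000000000,0x800000000000000000],[⟨0,1,true⟩,⟨0,2,true⟩,⟨1,2,false⟩],[],0⟩) (Tr.leaf ⟨[0x4000000000000000000000000,0x8000000000000000000000],[⟨0,1,false⟩],[],0⟩)) (Tr.leaf ⟨[0x20000000000000000000,0x400000000000000000,0x100000000000000000000],[⟨0,1,false⟩,⟨0,2,true⟩,⟨1,2,false⟩],[],0⟩))) (Tr.br (Tr.br (Tr.br (Tr.leaf ⟨[0x800000000000],[],[],0⟩) (Tr.leaf ⟨[0x400000000000000000000,0x800000000000000000],[⟨0,1,false⟩],[],0⟩))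 (Tr.br (Tr.leaf ⟨[0x10000000000000000000,0x80000000000000000000,0x2000000000000000000],[⟨0,1,true⟩,⟨0,2,false⟩,⟨1,2,false⟩],[],0⟩) (Tr.leaf ⟨[0x200000000000000000000000000000000000],[],[⟨131,[(0,true)]⟩],0⟩))) (Tr.br (Tr.br (Tr.leaf ⟨[0x8000000000000000000,0x40000000000000000000,0x100000000000000000000],[],[],0⟩) (Tr.leaf ⟨[0x40000000000000000000000000000,0x400000000000000000000000000],[⟨0,1,true⟩],[],0⟩)) (Tr.leaf ⟨[0x40000000000000000000,0x800000000000000000,0x100000000000000000000],[⟨0,1,false⟩,⟨0,2,false⟩,⟨1,2,false⟩],[],0⟩)))))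
)
)
)

noncomputable def d_sc : Tr Sc := (Tr.leaf ⟨[1],[0]⟩)
noncomputable def d_T : Tab := ⟨143,d_ty,d_ev,d_ax,d_sc⟩
def d_S0 : St := ⟨0,0,0,0,0⟩
def d_G0 : Ctx := ⟨4,0,3,1,0,d_S0,none⟩
def d_G1 : Ctx := ⟨4,0,7,1,0,d_S0,none⟩
def d_S1 : St := ⟨5,0x300000000000000000000000000000000000600000000000000000000000000000000000c00000000000000000000000000000000001800000000000000000000000000000000003,0x9000000000000000000000000000000140000000000000000000000000000000a0000000000000000000000000000000500000000000000000000000000000012,0x60000000000000000000000000000000300000000000000000000000000000011000000000000000000000000000000180000000000000000000000000000000c,31⟩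
def d_G2 : Ctx := ⟨4,0,3,1,0,d_S1,none⟩
def d_G3 : Ctx := ⟨6,1,31,1,0,d_S0,none⟩
def d_G4 : Ctx := ⟨8,2,2023,1,0,d_S0,none⟩
def d_G5 : Ctx := ⟨8,2,4071,1,0,d_S0,none⟩
def d_S2 : St := ⟨7,0x10c0000000000000000000000000000000002180000000000000000000000000000000004300000000000000000000000000000000008600000000000000000000000000000000010c00000000000000000000000000000000021800000000000000000000000000000000043,0x210000000000000000000000000000005000000000000000000000000000000028000000000000000000000000000000140000000000000000000000000000000a0000000000000000000000000000000500000000000000000000000000000042,0x1e0000000000000000000000000000000f000000000000000000000000000000470000000000000000000000000000006300000000000000000000000000000071000000000000000000000000000000780000000000000000000000000000003c,127⟩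
def d_G6 : Ctx := ⟨8,2,2023,1,0,d_S2,none⟩
def d_G7 : Ctx := ⟨8,2,8167,1,0,d_S0,none⟩
def d_G8 : Ctx := ⟨8,2,16359,1,0,d_S0,none⟩
def d_S3 : St := ⟨1,67,0,0,1⟩
def d_G9 : Ctx := ⟨8,2,8167,1,0,d_S3,none⟩
def d_G10 : Ctx := ⟨8,2,16359,1,192,d_S0,none⟩
def d_G11 : Ctx := ⟨9,6,8167,1,0,d_S3,none⟩
def d_G12 : Ctx := ⟨11,14,8167,1,0,d_S3,none⟩
def d_G13 : Ctx := ⟨12,30,8167,1,0,d_S3,none⟩
def d_G14 : Ctx := ⟨12,30,8167,1,2048,d_S3,none⟩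
def d_G15 : Ctx := ⟨13,30,24551,1,2048,d_S3,none⟩
def d_G16 : Ctx := ⟨13,30,24551,1,6144,d_S3,none⟩
def d_G17 : Ctx := ⟨14,34,2023,1,0,d_S2,none⟩
def d_G18 : Ctx := ⟨15,98,2023,1,0,d_S2,none⟩
def d_G19 : Ctx := ⟨30,226,2023,1,0,d_S2,none⟩
def d_G20 : Ctx := ⟨30,226,2023,1,16384,d_S2,none⟩
def d_G21 : Ctx := ⟨45,226,0x1fff87e7,1,16384,d_S2,none⟩
def d_G22 : Ctx := ⟨52,226,0xfffff87e7,1,16384,d_S2,none⟩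
def d_G23 : Ctx := ⟨52,226,0xfffff87e7,1,0xfe00000004000,d_S2,none⟩
def d_G24 : Ctx := ⟨53,256,3,1,0,d_S1,none⟩
def d_G25 : Ctx := ⟨64,768,3,1,0,d_S1,none⟩
def d_G26 : Ctx := ⟨70,768,0x3ff000000003,1,0,d_S1,none⟩
def d_G27 : Ctx := ⟨81,768,0xffffffffffffffffffffffffffffff000000003,1,0,d_S1,none⟩
def d_G28 : Ctx := ⟨81,768,0x1ffffffffffffffffffffffffffffff000000003,1,0,d_S1,none⟩
def d_G29 : Ctx := ⟨81,768,0x2ffffffffffffffffffffffffffffff000000003,1,0,d_S1,none⟩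
def d_G30 : Ctx := ⟨81,768,0x1ffffffffffffffffffffffffffffff000000003,1,0x8000000000000000000,d_S1,none⟩
def d_G31 : Ctx := ⟨83,1792,0xdffffffffffffffffffffffffffffff000000003,1,0x8000000000000000000,d_S1,none⟩
def d_G32 : Ctx := ⟨85,3840,0x3dffffffffffffffffffffffffffffff000000003,1,0x8000000000000000000,d_S1,none⟩
def d_G33 : Ctx := ⟨87,7936,0xfdffffffffffffffffffffffffffffff000000003,1,0x8000000000000000000,d_S1,none⟩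
def d_G34 : Ctx := ⟨89,16128,0x3fdffffffffffffffffffffffffffffff000000003,1,0x8000000000000000000,d_S1,none⟩
def d_G35 : Ctx := ⟨91,32512,0xffdffffffffffffffffffffffffffffff000000003,1,0x8000000000000000000,d_S1,none⟩
def d_G36 : Ctx := ⟨93,65280,0x3ffdffffffffffffffffffffffffffffff000000003,1,0x8000000000000000000,d_S1,none⟩
def d_G37 : Ctx := ⟨95,0x1ff00,0xfffdffffffffffffffffffffffffffffff000000003,1,0x8000000000000000000,d_S1,none⟩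
def d_G38 : Ctx := ⟨97,0x3ff00,0x3fffdffffffffffffffffffffffffffffff000000003,1,0x8000000000000000000,d_S1,none⟩
def d_G39 : Ctx := ⟨99,0x7ff00,0xffffdffffffffffffffffffffffffffffff000000003,1,0x8000000000000000000,d_S1,none⟩
def d_G40 : Ctx := ⟨101,0xfff00,0x3ffffdffffffffffffffffffffffffffffff000000003,1,0x8000000000000000000,d_S1,none⟩
def d_G41 : Ctx := ⟨103,0x1fff00,0xfffffdffffffffffffffffffffffffffffff000000003,1,0x8000000000000000000,d_S1,none⟩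
def d_G42 : Ctx := ⟨105,0x3fff00,0x3fffffdffffffffffffffffffffffffffffff000000003,1,0x8000000000000000000,d_S1,none⟩
def d_G43 : Ctx := ⟨107,0x7fff00,0xffffffdffffffffffffffffffffffffffffff000000003,1,0x8000000000000000000,d_S1,none⟩
def d_G44 : Ctx := ⟨109,0xffff00,0x3ffffffdffffffffffffffffffffffffffffff000000003,1,0x8000000000000000000,d_S1,none⟩
def d_G45 : Ctx := ⟨111,0x1ffff00,0xfffffffdffffffffffffffffffffffffffffff000000003,1,0x8000000000000000000,d_S1,none⟩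
def d_G46 : Ctx := ⟨113,0x3ffff00,0x3fffffffdffffffffffffffffffffffffffffff000000003,1,0x8000000000000000000,d_S1,none⟩
def d_G47 : Ctx := ⟨115,0x7ffff00,0xffffffffdffffffffffffffffffffffffffffff000000003,1,0x8000000000000000000,d_S1,none⟩
def d_G48 : Ctx := ⟨117,0xfffff00,0x3ffffffffdffffffffffffffffffffffffffffff000000003,1,0x8000000000000000000,d_S1,none⟩
def d_G49 : Ctx := ⟨119,0x1fffff00,0xfffffffffdffffffffffffffffffffffffffffff000000003,1,0x8000000000000000000,d_S1,none⟩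
def d_G50 : Ctx := ⟨121,0x3fffff00,0x3fffffffffdffffffffffffffffffffffffffffff000000003,1,0x8000000000000000000,d_S1,none⟩
def d_G51 : Ctx := ⟨123,0x7fffff00,0x1ffffffffffdffffffffffffffffffffffffffffff000000003,1,0x8000000000000000000,d_S1,none⟩
def d_G52 : Ctx := ⟨125,0xffffff00,0xfffffffffffdffffffffffffffffffffffffffffff000000003,1,0x8000000000000000000,d_S1,none⟩
def d_G53 : Ctx := ⟨127,0x1ffffff00,0x7fffffffffffdffffffffffffffffffffffffffffff000000003,1,0x8000000000000000000,d_S1,none⟩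
def d_G54 : Ctx := ⟨129,0x3ffffff00,0x3ffffffffffffdffffffffffffffffffffffffffffff000000003,1,0x8000000000000000000,d_S1,none⟩
def d_G55 : Ctx := ⟨131,0x7ffffff00,0x1fffffffffffffdffffffffffffffffffffffffffffff000000003,1,0x8000000000000000000,d_S1,none⟩
def d_G56 : Ctx := ⟨133,0x800000300,0x600000000000002ffffffffffffffffffffffffffffff000000003,1,0,d_S1,none⟩
def d_G57 : Ctx := ⟨135,0x1800000300,0x1e00000000000002ffffffffffffffffffffffffffffff000000003,1,0,d_S1,none⟩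
def d_G58 : Ctx := ⟨137,0x3800000300,0x7e00000000000002ffffffffffffffffffffffffffffff000000003,1,0,d_S1,none⟩
def d_G59 : Ctx := ⟨139,0x7800000300,0x1fe00000000000002ffffffffffffffffffffffffffffff000000003,1,0,d_S1,none⟩
def d_G60 : Ctx := ⟨141,0xf800000300,0x7fe00000000000002ffffffffffffffffffffffffffffff000000003,1,0,d_S1,none⟩
def d_G61 : Ctx := ⟨143,0x1f800000300,0x1ffe00000000000002ffffffffffffffffffffffffffffff000000003,1,0,d_S1,none⟩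
def d_h16 : List HP := [⟨[0],[],(HT.leaf 3)⟩]
def d_h24 : List HP := [⟨[0,1],[],(HT.leaf 2)⟩,⟨[0,2],[],(HT.leaf 2)⟩,⟨[0,3],[],(HT.leaf 2)⟩,⟨[0,4],[],(HT.leaf 2)⟩,⟨[0,5],[],(HT.leaf 2)⟩,⟨[0,6],[],(HT.leaf 2)⟩,⟨[0,7],[],(HT.leaf 2)⟩,⟨[0,8],[],(HT.leaf 2)⟩,⟨[0,9],[],(HT.leaf 2)⟩,⟨[0,10],[],(HT.leaf 2)⟩,⟨[0,11],[],(HT.leaf 2)⟩,⟨[0,12],[],(HT.leaf 2)⟩,⟨[0,13],[],(HT.leaf 2)⟩,⟨[0,14],[],(HT.leaf 2)⟩,⟨[1,2],[],(HT.leaf 2)⟩,⟨[1,5],[],(HT.leaf 2)⟩,⟨[1,6],[],(HT.leaf 2)⟩,⟨[1,7],[],(HT.leaf 2)⟩,⟨[1,12],[],(HT.leaf 2)⟩,⟨[1,13],[],(HT.leaf 2)⟩,⟨[1,14],[],(HT.leaf 2)⟩,⟨[2,3],[],(HT.leaf 2)⟩,⟨[2,4],[],(HT.leaf 2)⟩,⟨[2,7],[],(HT.leaf 2)⟩,⟨[2,8],[],(HT.leaf 2)⟩,⟨[2,9],[],(HT.leaf 2)⟩,⟨[2,10],[],(HT.leaf 2)⟩,⟨[3,5],[],(HT.leaf 2)⟩,⟨[3,6],[],(HT.leaf 2)⟩,⟨[3,9],[],(HT.leaf 2)⟩,⟨[3,11],[],(HT.leaf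 2)⟩,⟨[3,12],[],(HT.leaf 2)⟩,⟨[3,13],[],(HT.leaf 2)⟩,⟨[4,5],[],(HT.leaf 2)⟩,⟨[4,6],[⟨0,1,false⟩],(HT.leaf 2)⟩,⟨[4,12],[],(HT.leaf 2)⟩,⟨[4,13],[⟨0,1,false⟩],(HT.leaf 2)⟩,⟨[5,7],[],(HT.leaf 2)⟩,⟨[5,8],[],(HT.leaf 2)⟩,⟨[5,12],[],(HT.leaf 2)⟩,⟨[5,14],[],(HT.leaf 2)⟩,⟨[6,7],[],(HT.leaf 2)⟩,⟨[6,8],[⟨0,1,false⟩],(HT.leaf 2)⟩,⟨[7,9],[],(HT.leaf 2)⟩,⟨[7,10],[],(HT.leaf 2)⟩,⟨[7,11],[],(HT.leaf 2)⟩,⟨[8,9],[],(HT.leaf 2)⟩,⟨[8,11],[⟨0,1,false⟩],(HT.leaf 2)⟩,⟨[9,12],[],(HT.leaf 2)⟩,⟨[9,13],[],(HT.leaf 2)⟩,⟨[9,14],[],(HT.leaf 2)⟩,⟨[10,12],[],(HT.leaf 2)⟩,⟨[10,13],[⟨0,1,false⟩],(HT.leaf 2)⟩,⟨[10,14],[⟨0,1,false⟩],(HT.leaf 2)⟩,⟨[11,12],[],(HT.leaf 2)⟩,⟨[11,14],[⟨0,1,false⟩],(HT.leaf 2)⟩]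
def d_h25 : List HP := [⟨[0],[],(HT.leaf 2)⟩,⟨[1],[],(HT.leaf 2)⟩,⟨[2],[],(HT.leaf 2)⟩,⟨[3],[],(HT.leaf 2)⟩,⟨[4],[],(HT.leaf 2)⟩,⟨[5],[],(HT.leaf 2)⟩,⟨[6],[],(HT.leaf 2)⟩]
def d_h45 : List HP := [⟨[0,1],[⟨0,1,false⟩],(HT.leaf 3)⟩,⟨[0,2],[⟨0,1,false⟩],(HT.leaf 3)⟩,⟨[0,3],[⟨0,1,false⟩],(HT.leaf 3)⟩,⟨[0,4],[⟨0,1,false⟩],(HT.leaf 3)⟩,⟨[0,5],[⟨0,1,false⟩],(HT.leaf 3)⟩,⟨[1,2],[⟨0,1,false⟩],(HT.leaf 3)⟩,⟨[1,5],[⟨0,1,false⟩],(HT.leaf 3)⟩,⟨[2,3],[⟨0,1,false⟩],(HT.leaf 3)⟩,⟨[3,4],[⟨0,1,false⟩],(HT.leaf 3)⟩,⟨[4,5],[⟨0,1,false⟩],(HT.leaf 3)⟩]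
def d_h46 : List HP := [⟨[5,5,0],[⟨0,1,true⟩,⟨0,2,true⟩,⟨1,2,false⟩],(HT.leaf 3)⟩,⟨[5,5,1],[⟨0,1,true⟩,⟨0,2,true⟩,⟨1,2,false⟩],(HT.leaf 3)⟩,⟨[5,5,2],[⟨0,1,true⟩,⟨0,2,true⟩,⟨1,2,false⟩],(HT.leaf 3)⟩,⟨[5,5,3],[⟨0,1,true⟩,⟨0,2,true⟩,⟨1,2,false⟩],(HT.leaf 3)⟩,⟨[5,5,4],[⟨0,1,true⟩,⟨0,2,true⟩,⟨1,2,false⟩],(HT.leaf 3)⟩,⟨[5,6,8],[],(HT.leaf 2)⟩,⟨[5,6,0],[⟨0,1,true⟩,⟨0,2,true⟩,⟨1,2,false⟩],(HT.leaf 2)⟩,⟨[5,6,9],[],(HT.leaf 2)⟩,⟨[5,6,1],[⟨0,1,true⟩,⟨0,2,true⟩,⟨1,2,false⟩],(HT.leaf 2)⟩,⟨[5,6,2],[⟨0,1,true⟩,⟨0,2,true⟩,⟨1,2,false⟩],(HT.leaf 2)⟩,⟨[5,6,2],[⟨0,1,true⟩,⟨0,2,false⟩,⟨1,2,true⟩],(HT.leaf 2)⟩,⟨[5,6,3],[⟨0,1,true⟩,⟨0,2,false⟩,⟨1,2,false⟩],(HT.leaf 2)⟩,⟨[5,6,4],[⟨0,1,true⟩,⟨0,2,true⟩,⟨1,2,false⟩],(HT.leaf 2)⟩,⟨[5,6,4],[⟨0,1,true⟩,⟨0,2,false⟩,⟨1,2,true⟩],(HT.leaf 2)⟩,⟨[5,7,0],[⟨0,1,true⟩,⟨0,2,false⟩,⟨1,2,false⟩],(HT.leaf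 2)⟩,⟨[5,7,9],[],(HT.leaf 2)⟩,⟨[5,7,1],[⟨0,1,true⟩,⟨0,2,true⟩,⟨1,2,false⟩],(HT.leaf 2)⟩,⟨[5,7,1],[⟨0,1,true⟩,⟨0,2,false⟩,⟨1,2,true⟩],(HT.leaf 2)⟩,⟨[5,7,2],[⟨0,1,true⟩,⟨0,2,true⟩,⟨1,2,false⟩],(HT.leaf 2)⟩,⟨[5,7,10],[],(HT.leaf 2)⟩,⟨[5,7,3],[⟨0,1,true⟩,⟨0,2,true⟩,⟨1,2,false⟩],(HT.leaf 2)⟩,⟨[5,7,4],[⟨0,1,true⟩,⟨0,2,true⟩,⟨1,2,false⟩],(HT.leaf 2)⟩,⟨[5,7,4],[⟨0,1,true⟩,⟨0,2,false⟩,⟨1,2,true⟩],(HT.leaf 2)⟩,⟨[5,8,0],[⟨0,1,true⟩,⟨0,2,true⟩,⟨1,2,false⟩],(HT.leaf 2)⟩,⟨[5,8,1],[⟨0,1,true⟩,⟨0,2,true⟩,⟨1,2,false⟩],(HT.leaf 2)⟩,⟨[5,8,1],[⟨0,1,true⟩,⟨0,2,false⟩,⟨1,2,true⟩],(HT.leaf 2)⟩,⟨[5,8,2],[⟨0,1,true⟩,⟨0,2,false⟩,⟨1,2,false⟩],(HT.leaf 2)⟩,⟨[5,8,10],[],(HT.leaf 2)⟩,⟨[5,8,3],[⟨0,1,true⟩,⟨0,2,true⟩,⟨1,2,false⟩],(HT.leaf 2)⟩,⟨[5,8,3],[⟨0,1,true⟩,⟨0,2,false⟩,⟨1,2,true⟩],(HT.leaf 2)⟩,⟨[5,8,4],[⟨0,1,true⟩,⟨0,2,true⟩,⟨1,2,false⟩],(HT.leaf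 2)⟩,⟨[5,0,9],[⟨0,1,true⟩,⟨0,2,true⟩,⟨1,2,false⟩],(HT.leaf 2)⟩,⟨[5,0,9],[⟨0,1,false⟩,⟨0,2,true⟩,⟨1,2,true⟩],(HT.leaf 2)⟩,⟨[5,0,1],[⟨0,1,true⟩,⟨0,2,true⟩,⟨1,2,false⟩],(HT.leaf 2)⟩,⟨[5,0,2],[⟨0,1,true⟩,⟨0,2,false⟩,⟨1,2,false⟩],(HT.leaf 2)⟩,⟨[5,0,2],[⟨0,1,false⟩,⟨0,2,true⟩,⟨1,2,false⟩],(HT.leaf 2)⟩,⟨[5,0,10],[⟨0,1,true⟩,⟨0,2,true⟩,⟨1,2,false⟩],(HT.leaf 2)⟩,⟨[5,0,10],[⟨0,1,false⟩,⟨0,2,true⟩,⟨1,2,true⟩],(HT.leaf 2)⟩,⟨[5,0,3],[⟨0,1,true⟩,⟨0,2,false⟩,⟨1,2,false⟩],(HT.leaf 2)⟩,⟨[5,0,3],[⟨0,1,false⟩,⟨0,2,true⟩,⟨1,2,false⟩],(HT.leaf 2)⟩,⟨[5,0,4],[⟨0,1,true⟩,⟨0,2,true⟩,⟨1,2,false⟩],(HT.leaf 2)⟩,⟨[5,9,1],[⟨0,1,true⟩,⟨0,2,true⟩,⟨1,2,false⟩],(HT.leaf 2)⟩,⟨[5,9,2],[⟨0,1,true⟩,⟨0,2,true⟩,⟨1,2,false⟩],(HT.leaf 2)⟩,⟨[5,9,3],[⟨0,1,true⟩,⟨0,2,true⟩,⟨1,2,false⟩],(HT.leaf 2)⟩,⟨[5,9,3],[⟨0,1,true⟩,⟨0,2,false⟩,⟨1,2,true⟩],(HT.leaf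 2)⟩,⟨[5,9,4],[⟨0,1,true⟩,⟨0,2,false⟩,⟨1,2,false⟩],(HT.leaf 2)⟩,⟨[5,1,2],[⟨0,1,true⟩,⟨0,2,true⟩,⟨1,2,false⟩],(HT.leaf 2)⟩,⟨[5,1,10],[⟨0,1,false⟩,⟨0,2,true⟩,⟨1,2,false⟩],(HT.leaf 2)⟩,⟨[5,1,3],[⟨0,1,true⟩,⟨0,2,false⟩,⟨1,2,false⟩],(HT.leaf 2)⟩,⟨[5,1,3],[⟨0,1,false⟩,⟨0,2,true⟩,⟨1,2,false⟩],(HT.leaf 2)⟩,⟨[5,1,4],[⟨0,1,true⟩,⟨0,2,false⟩,⟨1,2,false⟩],(HT.leaf 2)⟩,⟨[5,1,4],[⟨0,1,false⟩,⟨0,2,true⟩,⟨1,2,false⟩],(HT.leaf 2)⟩,⟨[5,2,10],[⟨0,1,true⟩,⟨0,2,true⟩,⟨1,2,false⟩],(HT.leaf 2)⟩,⟨[5,2,10],[⟨0,1,false⟩,⟨0,2,true⟩,⟨1,2,true⟩],(HT.leaf 2)⟩,⟨[5,2,3],[⟨0,1,true⟩,⟨0,2,true⟩,⟨1,2,false⟩],(HT.leaf 2)⟩,⟨[5,2,4],[⟨0,1,true⟩,⟨0,2,false⟩,⟨1,2,false⟩],(HT.leaf 2)⟩,⟨[5,2,4],[⟨0,1,false⟩,⟨0,2,true⟩,⟨1,2,false⟩],(HT.leaf 2)⟩,⟨[5,10,3],[⟨0,1,true⟩,⟨0,2,true⟩,⟨1,2,false⟩],(HT.leaf 2)⟩,⟨[5,10,4],[⟨0,1,true⟩,⟨0,2,true⟩,⟨1,2,false⟩],(HT.leaf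 2)⟩,⟨[5,3,4],[⟨0,1,true⟩,⟨0,2,true⟩,⟨1,2,false⟩],(HT.leaf 2)⟩,⟨[6,7,0],[⟨0,1,true⟩,⟨0,2,false⟩,⟨1,2,false⟩],(HT.leaf 2)⟩,⟨[6,7,3],[⟨0,1,true⟩,⟨0,2,false⟩,⟨1,2,false⟩],(HT.leaf 2)⟩,⟨[6,8,2],[⟨0,1,false⟩,⟨0,2,false⟩,⟨1,2,false⟩],(HT.leaf 3)⟩,⟨[6,8,2],[⟨0,1,true⟩,⟨0,2,false⟩,⟨1,2,false⟩],(HT.leaf 2)⟩,⟨[6,8,2],[⟨0,1,false⟩,⟨0,2,true⟩,⟨1,2,false⟩],(HT.leaf 3)⟩,⟨[6,8,3],[⟨0,1,false⟩,⟨0,2,false⟩,⟨1,2,false⟩],(HT.leaf 3)⟩,⟨[6,8,3],[⟨0,1,true⟩,⟨0,2,false⟩,⟨1,2,false⟩],(HT.leaf 2)⟩,⟨[6,8,3],[⟨0,1,false⟩,⟨0,2,false⟩,⟨1,2,true⟩],(HT.leaf 3)⟩,⟨[6,0,2],[⟨0,1,false⟩,⟨0,2,true⟩,⟨1,2,false⟩],(HT.leaf 2)⟩,⟨[6,0,3],[⟨0,1,false⟩,⟨0,2,false⟩,⟨1,2,false⟩],(HT.leaf 2)⟩,⟨[6,9,3],[⟨0,1,false⟩,⟨0,2,false⟩,⟨1,2,false⟩],(HT.leaf 3)⟩,⟨[6,9,3],[⟨0,1,true⟩,⟨0,2,false⟩,⟨1,2,false⟩],(HT.leaf 2)⟩,⟨[6,9,3],[⟨0,1,false⟩,⟨0,2,false⟩,⟨1,2,true⟩],(HT.leaf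 3)⟩,⟨[6,9,4],[⟨0,1,false⟩,⟨0,2,false⟩,⟨1,2,false⟩],(HT.leaf 3)⟩,⟨[6,9,4],[⟨0,1,true⟩,⟨0,2,false⟩,⟨1,2,false⟩],(HT.leaf 2)⟩,⟨[6,9,4],[⟨0,1,false⟩,⟨0,2,true⟩,⟨1,2,false⟩],(HT.leaf 3)⟩,⟨[6,1,10],[⟨0,1,false⟩,⟨0,2,true⟩,⟨1,2,false⟩],(HT.leaf 2)⟩,⟨[6,1,3],[⟨0,1,false⟩,⟨0,2,false⟩,⟨1,2,false⟩],(HT.leaf 2)⟩,⟨[6,1,4],[⟨0,1,false⟩,⟨0,2,true⟩,⟨1,2,false⟩],(HT.leaf 2)⟩,⟨[6,2,3],[⟨0,1,true⟩,⟨0,2,false⟩,⟨1,2,false⟩],(HT.leaf 2)⟩,⟨[6,2,4],[⟨0,1,false⟩,⟨0,2,false⟩,⟨1,2,false⟩],(HT.leaf 3)⟩,⟨[6,10,3],[⟨0,1,true⟩,⟨0,2,false⟩,⟨1,2,false⟩],(HT.leaf 2)⟩,⟨[6,3,4],[⟨0,1,false⟩,⟨0,2,true⟩,⟨1,2,false⟩],(HT.leaf 2)⟩,⟨[7,8,0],[⟨0,1,true⟩,⟨0,2,false⟩,⟨1,2,false⟩],(HT.leaf 2)⟩,⟨[7,8,2],[⟨0,1,true⟩,⟨0,2,false⟩,⟨1,2,false⟩],(HT.leaf 2)⟩,⟨[7,0,9],[⟨0,1,false⟩,⟨0,2,false⟩,⟨1,2,false⟩],(HT.leaf 3)⟩,⟨[7,0,9],[⟨0,1,false⟩,⟨0,2,true⟩,⟨1,2,false⟩],(HT.leaf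 2)⟩,⟨[7,0,9],[⟨0,1,false⟩,⟨0,2,false⟩,⟨1,2,true⟩],(HT.leaf 3)⟩,⟨[7,0,1],[⟨0,1,false⟩,⟨0,2,true⟩,⟨1,2,false⟩],(HT.leaf 2)⟩,⟨[7,0,2],[⟨0,1,false⟩,⟨0,2,false⟩,⟨1,2,false⟩],(HT.leaf 2)⟩,⟨[7,0,10],[⟨0,1,false⟩,⟨0,2,false⟩,⟨1,2,false⟩],(HT.leaf 3)⟩,⟨[7,0,10],[⟨0,1,false⟩,⟨0,2,true⟩,⟨1,2,false⟩],(HT.leaf 2)⟩,⟨[7,0,10],[⟨0,1,false⟩,⟨0,2,false⟩,⟨1,2,true⟩],(HT.leaf 3)⟩,⟨[7,0,3],[⟨0,1,false⟩,⟨0,2,false⟩,⟨1,2,false⟩],(HT.leaf 2)⟩,⟨[7,0,4],[⟨0,1,false⟩,⟨0,2,true⟩,⟨1,2,false⟩],(HT.leaf 2)⟩,⟨[7,9,4],[⟨0,1,false⟩,⟨0,2,false⟩,⟨1,2,false⟩],(HT.leaf 3)⟩,⟨[7,9,4],[⟨0,1,true⟩,⟨0,2,false⟩,⟨1,2,false⟩],(HT.leaf 2)⟩,⟨[7,9,4],[⟨0,1,false⟩,⟨0,2,true⟩,⟨1,2,false⟩],(HT.leaf 3)⟩,⟨[7,1,10],[⟨0,1,false⟩,⟨0,2,false⟩,⟨1,2,false⟩],(HT.leaf 3)⟩,⟨[7,1,10],[⟨0,1,true⟩,⟨0,2,false⟩,⟨1,2,false⟩],(HT.leaf 3)⟩,⟨[7,1,10],[⟨0,1,false⟩,⟨0,2,true⟩,⟨1,2,false⟩],(HT.leaf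 2)⟩,⟨[7,1,3],[⟨0,1,true⟩,⟨0,2,false⟩,⟨1,2,false⟩],(HT.leaf 2)⟩,⟨[7,1,4],[⟨0,1,false⟩,⟨0,2,false⟩,⟨1,2,false⟩],(HT.leaf 3)⟩,⟨[7,2,4],[⟨0,1,false⟩,⟨0,2,true⟩,⟨1,2,false⟩],(HT.leaf 2)⟩,⟨[8,0,2],[⟨0,1,false⟩,⟨0,2,false⟩,⟨1,2,false⟩],(HT.leaf 2)⟩,⟨[8,0,3],[⟨0,1,false⟩,⟨0,2,true⟩,⟨1,2,false⟩],(HT.leaf 2)⟩,⟨[8,9,2],[⟨0,1,true⟩,⟨0,2,false⟩,⟨1,2,false⟩],(HT.leaf 2)⟩,⟨[8,9,4],[⟨0,1,true⟩,⟨0,2,false⟩,⟨1,2,false⟩],(HT.leaf 2)⟩,⟨[8,1,2],[⟨0,1,true⟩,⟨0,2,false⟩,⟨1,2,false⟩],(HT.leaf 2)⟩,⟨[8,1,10],[⟨0,1,false⟩,⟨0,2,false⟩,⟨1,2,false⟩],(HT.leaf 3)⟩,⟨[8,1,10],[⟨0,1,true⟩,⟨0,2,false⟩,⟨1,2,false⟩],(HT.leaf 3)⟩,⟨[8,1,10],[⟨0,1,false⟩,⟨0,2,true⟩,⟨1,2,false⟩],(HT.leaf 2)⟩,⟨[8,1,3],[⟨0,1,false⟩,⟨0,2,false⟩,⟨1,2,false⟩],(HT.leaf 3)⟩,⟨[8,1,4],[⟨0,1,true⟩,⟨0,2,false⟩,⟨1,2,false⟩],(HT.leaf 2)⟩,⟨[8,2,10],[⟨0,1,false⟩,⟨0,2,false⟩,⟨1,2,false⟩],(HT.leaf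 3)⟩,⟨[8,2,10],[⟨0,1,false⟩,⟨0,2,true⟩,⟨1,2,false⟩],(HT.leaf 2)⟩,⟨[8,2,10],[⟨0,1,false⟩,⟨0,2,false⟩,⟨1,2,true⟩],(HT.leaf 3)⟩,⟨[8,2,3],[⟨0,1,false⟩,⟨0,2,true⟩,⟨1,2,false⟩],(HT.leaf 2)⟩,⟨[8,2,4],[⟨0,1,false⟩,⟨0,2,false⟩,⟨1,2,false⟩],(HT.leaf 2)⟩,⟨[0,9,2],[⟨0,1,true⟩,⟨0,2,false⟩,⟨1,2,false⟩],(HT.leaf 2)⟩,⟨[0,9,3],[⟨0,1,false⟩,⟨0,2,false⟩,⟨1,2,false⟩],(HT.leaf 3)⟩,⟨[0,9,4],[⟨0,1,true⟩,⟨0,2,false⟩,⟨1,2,false⟩],(HT.leaf 2)⟩,⟨[0,1,10],[⟨0,1,false⟩,⟨0,2,true⟩,⟨1,2,false⟩],(HT.leaf 2)⟩,⟨[0,1,3],[⟨0,1,false⟩,⟨0,2,false⟩,⟨1,2,false⟩],(HT.leaf 2)⟩,⟨[0,2,10],[⟨0,1,false⟩,⟨0,2,false⟩,⟨1,2,false⟩],(HT.leaf 3)⟩,⟨[0,2,3],[⟨0,1,false⟩,⟨0,2,false⟩,⟨1,2,false⟩],(HT.leaf 2)⟩,⟨[0,2,4],[⟨0,1,false⟩,⟨0,2,false⟩,⟨1,2,false⟩],(HT.leaf 2)⟩,⟨[0,10,3],[⟨0,1,true⟩,⟨0,2,false⟩,⟨1,2,false⟩],(HT.leaf 2)⟩,⟨[9,1,10],[⟨0,1,false⟩,⟨0,2,true⟩,⟨1,2,false⟩],(HT.leaf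 2)⟩,⟨[9,1,3],[⟨0,1,false⟩,⟨0,2,true⟩,⟨1,2,false⟩],(HT.leaf 2)⟩,⟨[9,1,4],[⟨0,1,false⟩,⟨0,2,false⟩,⟨1,2,false⟩],(HT.leaf 2)⟩,⟨[9,2,4],[⟨0,1,false⟩,⟨0,2,false⟩,⟨1,2,false⟩],(HT.leaf 2)⟩,⟨[9,10,4],[⟨0,1,true⟩,⟨0,2,false⟩,⟨1,2,false⟩],(HT.leaf 2)⟩,⟨[9,3,4],[⟨0,1,true⟩,⟨0,2,false⟩,⟨1,2,false⟩],(HT.leaf 2)⟩,⟨[1,2,10],[⟨0,1,false⟩,⟨0,2,false⟩,⟨1,2,true⟩],(HT.leaf 2)⟩,⟨[1,2,4],[⟨0,1,false⟩,⟨0,2,false⟩,⟨1,2,false⟩],(HT.leaf 2)⟩,⟨[1,10,3],[⟨0,1,false⟩,⟨0,2,false⟩,⟨1,2,false⟩],(HT.leaf 2)⟩,⟨[1,10,4],[⟨0,1,false⟩,⟨0,2,false⟩,⟨1,2,false⟩],(HT.leaf 2)⟩,⟨[1,3,4],[⟨0,1,false⟩,⟨0,2,false⟩,⟨1,2,false⟩],(HT.leaf 2)⟩,⟨[2,10,4],[⟨0,1,true⟩,⟨0,2,false⟩,⟨1,2,false⟩],(HT.leaf 2)⟩]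

end Pool.Agent.Lib.MP_849b2e_co
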