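import Pool.Agent.Lib.MP_849b2e_co.Fast
import Pool.Agent.Lib.MP_849b2e_co.Td
import Pool.Agent.Lib.MP_849b2e_co.RApply
import Pool.Agent.Lib.MP_849b2e_co.TbD
import Pool.Agent.Lib.MP_849b2e_co.Tcur
import Pool.Agent.Lib.MP_849b2e_co.TdS

set_option maxRecDepth 100000
set_option linter.all false
namespace Pool.Agent.Lib.MP_849b2e_co

noncomputable def d_o0c : Pq := Pq.nil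
theorem d_o0 : AllRef d_T (pureCtx 0 2) (blockObl [0] [0] [1] [1]) :=
  chkPq_sound d_o0c _ (by decide +kernel)
noncomputable def d_o1c : Pq := (Pq.cons (Pq.L [] 7 (Pf.C 0 32896))
 Pq.nil)
theorem d_o1 : AllRef d_T d_G1 [triP 1] :=
  chkPq_sound d_o1c _ (by decide +kernel)
noncomputable def d_o2c : Pq := (Pq.cons (Pq.L [] 0x1fffff (Pf.C 1 0x182840608080))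
 (Pq.cons (Pq.L [] 1 (Pf.C 3 128))
 (Pq.cons (Pq.L [] 1 (Pf.C 4 128))
 Pq.nil)))
theorem d_o2 : AllRef d_T d_G3 (applyObl bD_T 3 [4,5] [1,2] []) :=
  chkPq_sound d_o2c _ (by decide +kernel)
noncomputable def d_o3c : Pq := (Pq.cons (Pq.L [] 127 (Pf.B 6 4 (Pf.B 6 3 (Pf.B 6 2 (Pf.B 6 1 (Pf.B 5 3 (Pf.B 5 2 (Pf.B 5 1 (Pf.B 5 0 (Pf.B 4 2 (Pf.B 4 1 (Pf.B 4 0 (Pf.B 3 1 (Pf.B 3 0 (Pf.B 2 0 (Pf.C 11 0xc2050c00082) (Pf.C 0 16386)) (Pf.C 8 0x808003)) (Pf.C 0 32899)) (Pf.C 8 0xa0c004)) (Pf.C 8 0xa0c084)) (Pf.C 0 49412)) (Pf.C 0 98309)) (Pf.C 8 0xc10085)) (Pf.C 8 0xc10105)) (Pf.C 0 65925)) (Pf.C 0 134)) (Pf.C 8 0xa00106)) (Pf.C 8 0xa00186)) (Pf.C 0 82438)))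
 Pq.nil)
theorem d_o3 : AllRef d_T d_G5 [⟨[[6],[6],[6],[6],[6],[6],[6]],[⟨0,1,true⟩,⟨1,2,true⟩,⟨2,3,true⟩,⟨3,4,true⟩,⟨4,5,true⟩,⟨5,6,true⟩,⟨0,6,true⟩],[],[]⟩] :=
  chkPq_sound d_o3c _ (by decide +kernel)
noncomputable def d_o4c : Pq := (Pq.cons (Pq.L [] 0 (Pf.C 13 0))
 (Pq.cons (Pq.L [] 0 (Pf.W 5 0 [] [] (Pf.cons (Pf.C 13 1) Pf.nil)))
 Pq.nil))
theorem d_o4 : AllRef d_T d_G8 (List.map pat1 [6,7]) :=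
  chkPq_sound d_o4c _ (by decide +kernel)
noncomputable def d_o5c : Pq := Pq.nil
theorem d_o5 : AllRef d_T d_G9 (ptObl 6 PT.kid []) :=
  chkPq_sound d_o5c _ (by decide +kernel)
noncomputable def d_o6c : Pq := Pq.nil
theorem d_o6 : AllRef d_T d_G11 (ptObl 8 (PT.br 0 PT.kid PT.kid) []) :=
  chkPq_sound d_o6c _ (by decide +kernel)
noncomputable def d_o7c : Pq := (Pq.cons (Pq.L [0] 0 (Pf.W 6 0 [] [1] (Pf.cons (Pf.B 2 1 (Pf.W 6 0 [2] [1] (Pf.cons (Pf.B 3 2 (Pf.B 3 1 (Pf.W 6 2 [0] [1,3] (Pf.cons (Pf.B 4 3 (Pf.B 4 0 (Pf.B 4 1 (Pf.W 6 3 [0] [1,2,4] (Pf.cons (Pf.B 5 2 (Pf.B 5 0 (Pf.B 5 4 (Pf.B 5 1 (Pf.W 6 4 [2] [0,1,3,5] (Pf.cons (Pf.B 6 5 (Pf.B 6 3 (Pf.B 6 2 (Pf.B 6 0 (Pf.B 6 1 (Pf.W 6 5 [3] [0,1,2,4,6] (Pf.cons (Pf.B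 7 6 (Pf.B 7 4 (Pf.B 7 3 (Pf.B 7 2 (Pf.B 7 0 (Pf.B 7 1 (Pf.C 1 0x182020604007) (Pf.C 2 0x50600087)) (Pf.C 8 0x608380)) (Pf.C 8 0x800382)) (Pf.C 0 82311)) (Pf.C 8 0xc08384)) (Pf.C 12 0x141800410307)) Pf.nil)) (Pf.C 2 0x40400086)) (Pf.C 8 0x608300)) (Pf.C 0 65798)) (Pf.C 8 0xa00303)) (Pf.C 10 0x202000c286)) Pf.nil)) (Pf.W 6 4 [2] [0,1,3,5] (Pf.cons (Pf.B 6 5 (Pf.B 6 3 (Pf.B 6 2 (Pf.B 6 1 (Pf.B 6 0 (Pf.W 6 5 [3] [0,1,2,4,6] (Pf.cons (Pf.B 7 6 (Pf.B 7 4 (Pf.B 7 3 (Pf.B 7 2 (Pf.B 7 1 (Pf.B 7 0 (Pf.C 1 0x182020604007) (Pf.C 8 0x608380)) (Pf.C 0 82055)) (Pf.C 8 0x800382)) (Pf.C 0 82311)) (Pf.C 8 0xc08384)) (Pf.C 12 0x141800410307)) Pf.nil)) (Pf.C 8 0x608300)) (Pf.C 8 0xa00301)) (Pf.C 0 65798)) (Pf.C 8 0xa00303)) (Pf.C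 10 0x202000c286)) Pf.nil))) (Pf.C 2 0x30008205)) (Pf.C 0 49157)) (Pf.C 8 0x800282)) Pf.nil)) (Pf.W 6 3 [0] [1,2,4] (Pf.cons (Pf.B 5 2 (Pf.B 5 1 (Pf.B 5 0 (Pf.B 5 4 (Pf.W 6 4 [2] [0,1,3,5] (Pf.cons (Pf.B 6 5 (Pf.B 6 3 (Pf.B 6 2 (Pf.B 6 1 (Pf.B 6 0 (Pf.W 6 5 [3] [0,1,2,4,6] (Pf.cons (Pf.B 7 6 (Pf.B 7 3 (Pf.B 7 2 (Pf.B 7 1 (Pf.B 7 0 (Pf.C 1 0x1c2830404006) (Pf.C 8 0x608380)) (Pf.C 8 0x800381)) (Pf.C 8 0x800382)) (Pf.C 0 82311)) (Pf.C 12 0x141800410307)) Pf.nil)) (Pf.C 8 0x608300)) (Pf.C 0 65670)) (Pf.C 0 65798)) (Pf.C 8 0xa00303)) (Pf.C 10 0x202000c286)) Pf.nil)) (Pf.C 2 0x30004205)) (Pf.C 0 49157)) (Pf.C 8 0x800281)) (Pf.C 8 0x800282)) Pf.nil))) (Pf.C 0 32772)) (Pf.C 9 0x400184)) Pf.nil)) (Pf.C 0 131)) (Pf.C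 0 259)) Pf.nil)) (Pf.C 0 130)) Pf.nil)))
 Pq.nil)
theorem d_o7 : AllRef d_T d_G12 (ptObl 7 (PT.br 0 PT.kid PT.ref) []) :=
  chkPq_sound d_o7c _ (by decide +kernel)
noncomputable def d_o8c : Pq := (Pq.cons (Pq.L [] 0 (Pf.X 0 1))
 (Pq.cons (Pq.L [0] 1 (Pf.W 6 0 [] [1,2] (Pf.cons (Pf.B 3 2 (Pf.B 3 1 (Pf.T 3 2 (Pf.cons (Pf.T 3 3 (Pf.cons (Pf.W 6 0 [3] [1,2] (Pf.cons (Pf.B 4 3 (Pf.B 4 2 (Pf.B 4 1 (Pf.T 4 2 (Pf.cons (Pf.T 4 3 (Pf.cons (Pf.W 6 1 [] [0,2,3,4] (Pf.cons (Pf.B 5 2 (Pf.B 5 0 (Pf.B 5 4 (Pf.B 5 3 (Pf.T 5 2 (Pf.cons (Pf.T 5 3 (Pf.cons (Pf.W 6 1 [5] [0,2,3,4] (Pf.cons (Pf.B 6 5 (Pf.B 6 2 (Pf.B 6 0 (Pf.B 6 4 (Pf.B 6 3 (Pf.T 6 2 (Pf.cons (Pf.T 6 3 (Pf.cons (Pf.W 6 3 [0] [1,2,4,5,6] (Pf.cons (Pf.B 7 4 (Pf.B 7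 1 (Pf.B 7 0 (Pf.B 7 6 (Pf.B 7 5 (Pf.B 7 2 (Pf.T 7 2 (Pf.cons (Pf.T 7 3 (Pf.cons (Pf.W 6 4 [0] [1,2,3,5,6,7] (Pf.cons (Pf.B 8 3 (Pf.B 8 1 (Pf.B 8 0 (Pf.B 8 6 (Pf.B 8 5 (Pf.T 8 2 (Pf.cons (Pf.T 8 3 (Pf.cons (Pf.W 6 5 [1] [0,2,3,4,6,7,8] (Pf.cons (Pf.B 9 6 (Pf.B 9 3 (Pf.B 9 1 (Pf.B 9 0 (Pf.B 9 7 (Pf.B 9 2 (Pf.T 9 2 (Pf.cons (Pf.T 9 3 (Pf.cons (Pf.W 6 9 [5] [0,1,2,3,6,7] (Pf.cons (Pf.B 10 5 (Pf.B 10 3 (Pf.B 10 1 (Pf.B 10 6 (Pf.B 10 2 (Pf.C 1 0x284850c08083) (Pf.C 2 0x90a0410a)) (Pf.C 2 0x90a0430a)) (Pf.C 8 0xc14501)) (Pf.C 8 0xe00503)) (Pf.C 0 0x2428a)) Pf.nil)) Pf.nil)) Pf.nil)) (Pf.T 9 2 (Pf.cons (Pf.T 9 3 (Pf.cons (Pf.W 6 6 [1] [0,2,3,4,5,7,8,9] (Pf.cons (Pf.B 10 5 (Pf.B 10 4 (Pf.B 10 3 (Pf.B 10 2 (Pf.B 10 1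 (Pf.B 10 9 (Pf.B 10 7 (Pf.B 10 0 (Pf.T 10 2 (Pf.cons (Pf.T 10 3 (Pf.cons (Pf.W 6 10 [6] [0,1,2,3,5,7,9] (Pf.cons (Pf.B 11 6 (Pf.B 11 5 (Pf.B 11 3 (Pf.B 11 2 (Pf.B 11 1 (Pf.C 1 0x2c5060a08083) (Pf.C 8 0xc14581)) (Pf.C 8 0x1204582)) (Pf.C 8 0xe00583)) (Pf.C 8 0x1204585)) (Pf.C 0 0x2830b)) Pf.nil)) Pf.nil)) Pf.nil)) (Pf.C 8 0x80c500)) (Pf.C 1 0x1c5060a08084)) (Pf.C 2 0x6020848a)) (Pf.C 0 98442)) (Pf.C 8 0x1204502)) (Pf.C 8 0xe00503)) (Pf.C 8 0x1000504)) (Pf.C 8 0x1204505)) Pf.nil)) Pf.nil)) Pf.nil))) (Pf.B 9 2 (Pf.C 1 0x1c4850c08080) (Pf.C 1 0x1870a08486))) (Pf.C 8 0x80c480)) (Pf.C 0 82057)) (Pf.C 8 0xe00483)) (Pf.C 9 0xa04309)) Pf.nil)) Pf.nil)) Pf.nil)) (Pf.B 8 2 (Pf.C 1 0x104050c08083) (Pf.C 1 0xc0040a08406)))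 (Pf.B 8 5 (Pf.B 8 2 (Pf.C 1 0x104060a08083) (Pf.C 1 0xc0040c08405)) (Pf.C 8 0xc10288))) (Pf.C 0 65544)) (Pf.C 8 0xc14401)) (Pf.C 8 0xe00403)) Pf.nil)) Pf.nil)) Pf.nil)) (Pf.C 1 0xc3820c14084)) (Pf.B 7 2 (Pf.C 1 0xc3850c08084) (Pf.C 1 0x100030a08386))) (Pf.B 7 5 (Pf.B 7 2 (Pf.C 1 0xc3860a08084) (Pf.C 1 0x100030c08385)) (Pf.C 8 0xc0c287))) (Pf.C 0 49159)) (Pf.C 8 0xc14381)) (Pf.C 9 0x600207)) Pf.nil)) Pf.nil)) Pf.nil)) (Pf.T 6 2 (Pf.cons (Pf.T 6 3 (Pf.cons (Pf.W 6 4 [0] [1,2,3,5,6] (Pf.cons (Pf.B 7 6 (Pf.B 7 5 (Pf.B 7 3 (Pf.B 7 1 (Pf.B 7 0 (Pf.B 7 2 (Pf.C 1 0x1860a08087) (Pf.T 7 2 (Pf.cons (Pf.T 7 3 (Pf.cons (Pf.W 7 0x1c082 [] [5,6] (Pf.cons (Pf.C 8 0xc14401) Pf.nil)) Pf.nil)) Pf.nil))) (Pf.C 0 65543)) (Pf.C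 8 0xc14381)) (Pf.C 8 0xc00383)) (Pf.C 12 0x100030c04287)) (Pf.C 8 0x604386)) Pf.nil)) Pf.nil)) Pf.nil))) (Pf.B 6 3 (Pf.T 6 2 (Pf.cons (Pf.T 6 3 (Pf.cons (Pf.W 6 3 [0] [1,2,4,5,6] (Pf.cons (Pf.B 7 6 (Pf.B 7 5 (Pf.B 7 4 (Pf.B 7 1 (Pf.B 7 0 (Pf.B 7 2 (Pf.C 1 0x2060a08087) (Pf.T 7 2 (Pf.cons (Pf.T 7 3 (Pf.cons (Pf.W 7 0x1c082 [] [5,6] (Pf.cons (Pf.C 8 0xc14401) Pf.nil)) Pf.nil)) Pf.nil))) (Pf.C 0 49159)) (Pf.C 8 0xc14381)) (Pf.C 8 0xc00384)) (Pf.C 12 0xc0040c04287)) (Pf.C 8 0x804386)) Pf.nil)) Pf.nil)) Pf.nil)) (Pf.C 8 0x804186))) (Pf.C 8 0x80c300)) (Pf.C 0 16646)) (Pf.C 0 17030)) Pf.nil)) Pf.nil)) Pf.nil)) (Pf.T 5 2 (Pf.cons (Pf.T 5 3 (Pf.cons (Pf.W 6 1 [5] [0,2,3,4] (Pf.cons (Pf.B 6 5 (Pf.B 6 4 (Pf.B 6 3 (Pf.B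 6 2 (Pf.B 6 0 (Pf.T 6 2 (Pf.cons (Pf.T 6 3 (Pf.cons (Pf.W 6 4 [0] [1,2,3,5,6] (Pf.cons (Pf.B 7 6 (Pf.B 7 5 (Pf.B 7 3 (Pf.B 7 1 (Pf.B 7 0 (Pf.B 7 2 (Pf.C 1 0x1850c08087) (Pf.T 7 2 (Pf.cons (Pf.T 7 3 (Pf.cons (Pf.W 7 0x1c082 [] [5,6] (Pf.cons (Pf.C 8 0xc14401) Pf.nil)) Pf.nil)) Pf.nil))) (Pf.C 0 65543)) (Pf.C 8 0xc14381)) (Pf.C 8 0xa00383)) (Pf.C 8 0x604385)) (Pf.C 12 0x100030a04307)) Pf.nil)) Pf.nil)) Pf.nil)) (Pf.C 8 0x80c300)) (Pf.C 0 16646)) (Pf.C 8 0xa00303)) (Pf.C 10 0x850600206)) (Pf.C 0 17030)) Pf.nil)) Pf.nil)) Pf.nil))) (Pf.B 5 3 (Pf.T 5 2 (Pf.cons (Pf.T 5 3 (Pf.cons (Pf.W 6 1 [5] [0,2,3,4] (Pf.cons (Pf.B 6 5 (Pf.B 6 4 (Pf.B 6 3 (Pf.B 6 2 (Pf.B 6 0 (Pf.T 6 2 (Pf.cons (Pf.T 6 3 (Pf.cons (Pf.W 6 3 [0]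 [1,2,4,5,6] (Pf.cons (Pf.B 7 6 (Pf.B 7 5 (Pf.B 7 4 (Pf.B 7 1 (Pf.B 7 0 (Pf.B 7 2 (Pf.C 1 0x2050c08087) (Pf.T 7 2 (Pf.cons (Pf.T 7 3 (Pf.cons (Pf.W 7 0x1c082 [] [5,6] (Pf.cons (Pf.C 8 0xc14401) Pf.nil)) Pf.nil)) Pf.nil))) (Pf.C 0 49159)) (Pf.C 8 0xc14381)) (Pf.C 8 0xa00384)) (Pf.C 8 0x804385)) (Pf.C 12 0xc0040a04307)) Pf.nil)) Pf.nil)) Pf.nil)) (Pf.C 8 0x80c300)) (Pf.C 0 16646)) (Pf.C 10 0x850800186)) (Pf.C 8 0xa00304)) (Pf.C 0 17030)) Pf.nil)) Pf.nil)) Pf.nil)) (Pf.C 8 0x804185))) (Pf.C 8 0x80c280)) (Pf.C 0 16645)) Pf.nil)) Pf.nil)) Pf.nil)) (Pf.T 4 2 (Pf.cons (Pf.T 4 3 (Pf.cons (Pf.W 6 1 [4] [0,2,3] (Pf.cons (Pf.B 5 4 (Pf.B 5 2 (Pf.B 5 0 (Pf.B 5 3 (Pf.T 5 2 (Pf.cons (Pf.T 5 3 (Pf.cons (Pf.W 6 3 [0] [1,2,4,5]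 (Pf.cons (Pf.B 6 5 (Pf.B 6 4 (Pf.B 6 1 (Pf.B 6 0 (Pf.B 6 2 (Pf.T 6 2 (Pf.cons (Pf.T 6 3 (Pf.cons (Pf.W 6 5 [1] [0,2,3,4,6] (Pf.cons (Pf.B 7 6 (Pf.B 7 4 (Pf.B 7 3 (Pf.B 7 1 (Pf.B 7 0 (Pf.B 7 2 (Pf.T 7 2 (Pf.cons (Pf.T 7 3 (Pf.cons (Pf.W 6 7 [5] [0,1,2,3,4,6] (Pf.cons (Pf.B 8 5 (Pf.B 8 4 (Pf.B 8 3 (Pf.B 8 1 (Pf.B 8 2 (Pf.C 1 0x203850808083) (Pf.C 2 0x70a04108)) (Pf.C 8 0xa10401)) (Pf.C 8 0xc00403)) (Pf.C 8 0x200404)) (Pf.C 0 0x1c288)) Pf.nil)) Pf.nil)) Pf.nil)) (Pf.T 7 2 (Pf.cons (Pf.T 7 3 (Pf.cons (Pf.W 6 6 [3] [0,1,2,4,5,7] (Pf.cons (Pf.B 8 5 (Pf.B 8 4 (Pf.B 8 3 (Pf.B 8 2 (Pf.B 8 1 (Pf.B 8 0 (Pf.C 1 0xc0040a08088) (Pf.C 8 0x80c400)) (Pf.C 8 0xa10401)) (Pf.C 8 0xe04402)) (Pf.C 0 98696)) (Pf.C 8 0x200404)) (Pf.C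 8 0xe04405)) Pf.nil)) Pf.nil)) Pf.nil))) (Pf.C 8 0x80c380)) (Pf.C 0 82055)) (Pf.C 8 0xc00383)) (Pf.C 8 0x200384)) (Pf.C 12 0x14084000c307)) Pf.nil)) Pf.nil)) Pf.nil)) (Pf.T 6 2 (Pf.cons (Pf.T 6 3 (Pf.cons (Pf.W 7 98434 [] [4,5] (Pf.cons (Pf.C 8 0xa10381) Pf.nil)) Pf.nil)) Pf.nil))) (Pf.C 0 49158)) (Pf.C 8 0xa10301)) (Pf.C 8 0x200304)) (Pf.C 10 0x1800804286)) Pf.nil)) Pf.nil)) Pf.nil)) (Pf.C 2 0x10800185)) (Pf.C 8 0x80c280)) (Pf.C 0 16645)) (Pf.C 0 16901)) Pf.nil)) Pf.nil)) Pf.nil))) (Pf.B 4 1 (Pf.T 4 2 (Pf.cons (Pf.T 4 3 (Pf.cons (Pf.W 6 1 [] [0,2,3,4] (Pf.cons (Pf.B 5 2 (Pf.B 5 0 (Pf.B 5 4 (Pf.B 5 3 (Pf.T 5 2 (Pf.cons (Pf.T 5 3 (Pf.cons (Pf.W 6 1 [5] [0,2,3,4] (Pf.cons (Pf.B 6 5 (Pf.B 6 2 (Pf.B 6 0 (Pf.B 6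 4 (Pf.T 6 2 (Pf.cons (Pf.T 6 3 (Pf.cons (Pf.W 7 65666 [] [5,6] (Pf.cons (Pf.C 8 0xc14381) Pf.nil)) Pf.nil)) Pf.nil)) (Pf.B 6 3 (Pf.T 6 2 (Pf.cons (Pf.T 6 3 (Pf.cons (Pf.W 6 3 [0] [1,2,4,5,6] (Pf.cons (Pf.B 7 6 (Pf.B 7 5 (Pf.B 7 4 (Pf.B 7 2 (Pf.B 7 0 (Pf.C 1 0x1c1800c08205) (Pf.C 0 49159)) (Pf.C 8 0x804382)) (Pf.C 8 0xc00384)) (Pf.C 12 0xc0040c04287)) (Pf.C 8 0x804386)) Pf.nil)) Pf.nil)) Pf.nil)) (Pf.C 8 0x804186))) (Pf.C 8 0x80c300)) (Pf.C 0 16646)) (Pf.C 0 17030)) Pf.nil)) Pf.nil)) Pf.nil)) (Pf.T 5 2 (Pf.cons (Pf.T 5 3 (Pf.cons (Pf.W 7 65666 [] [0,3,5] (Pf.cons (Pf.C 10 0x2000614086) Pf.nil)) Pf.nil)) Pf.nil))) (Pf.B 5 3 (Pf.T 5 2 (Pf.cons (Pf.T 5 3 (Pf.cons (Pf.W 6 1 [5] [0,2,3,4] (Pf.cons (Pf.B 6 5 (Pf.B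 6 4 (Pf.B 6 3 (Pf.B 6 2 (Pf.B 6 0 (Pf.T 6 2 (Pf.cons (Pf.T 6 3 (Pf.cons (Pf.W 6 3 [0] [1,2,4,5,6] (Pf.cons (Pf.B 7 6 (Pf.B 7 5 (Pf.B 7 4 (Pf.B 7 2 (Pf.B 7 0 (Pf.C 1 0x1c1800a08206) (Pf.C 0 49159)) (Pf.C 8 0x804382)) (Pf.C 8 0xa00384)) (Pf.C 8 0x804385)) (Pf.C 12 0xc0040a04307)) Pf.nil)) Pf.nil)) Pf.nil)) (Pf.C 8 0x80c300)) (Pf.C 0 16646)) (Pf.C 10 0x850800186)) (Pf.C 8 0xa00304)) (Pf.C 0 17030)) Pf.nil)) Pf.nil)) Pf.nil)) (Pf.C 8 0x804185))) (Pf.C 8 0x80c280)) (Pf.C 0 16645)) Pf.nil)) Pf.nil)) Pf.nil)) (Pf.C 0 32900))) (Pf.C 0 388)) Pf.nil)) Pf.nil)) Pf.nil)) (Pf.T 3 2 (Pf.cons (Pf.T 3 3 (Pf.cons (Pf.W 6 0 [3] [1,2] (Pf.cons (Pf.B 4 3 (Pf.B 4 1 (Pf.B 4 2 (Pf.T 4 2 (Pf.cons (Pf.T 4 3 (Pf.cons (Pf.W 6 1 [3] [0,2,4]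 (Pf.cons (Pf.B 5 3 (Pf.B 5 2 (Pf.B 5 0 (Pf.B 5 4 (Pf.T 5 2 (Pf.cons (Pf.T 5 3 (Pf.cons (Pf.W 6 4 [0] [1,2,3,5] (Pf.cons (Pf.B 6 5 (Pf.B 6 3 (Pf.B 6 1 (Pf.B 6 0 (Pf.B 6 2 (Pf.T 6 2 (Pf.cons (Pf.T 6 3 (Pf.cons (Pf.W 6 5 [1] [0,2,3,4,6] (Pf.cons (Pf.B 7 6 (Pf.B 7 4 (Pf.B 7 3 (Pf.B 7 1 (Pf.B 7 0 (Pf.B 7 2 (Pf.T 7 2 (Pf.cons (Pf.T 7 3 (Pf.cons (Pf.W 6 7 [5] [0,1,2,3,4,6] (Pf.cons (Pf.B 8 5 (Pf.B 8 4 (Pf.B 8 3 (Pf.B 8 1 (Pf.B 8 2 (Pf.C 1 0x203850608084) (Pf.C 2 0x70a04108)) (Pf.C 8 0xa0c401)) (Pf.C 8 0x200403)) (Pf.C 8 0xc00404)) (Pf.C 0 0x1c288)) Pf.nil)) Pf.nil)) Pf.nil)) (Pf.T 7 2 (Pf.cons (Pf.T 7 3 (Pf.cons (Pf.W 6 6 [4] [0,1,2,3,5,7] (Pf.cons (Pf.B 8 5 (Pf.B 8 4 (Pf.B 8 3 (Pf.B 8 2 (Pf.B 8 1 (Pf.B 8 0 (Pf.C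 1 0x100030a08088) (Pf.C 8 0x80c400)) (Pf.C 8 0xa0c401)) (Pf.C 8 0xe04402)) (Pf.C 8 0x200403)) (Pf.C 0 98824)) (Pf.C 8 0xe04405)) Pf.nil)) Pf.nil)) Pf.nil))) (Pf.C 8 0x80c380)) (Pf.C 0 82055)) (Pf.C 8 0x200383)) (Pf.C 8 0xc00384)) (Pf.C 12 0x140830010307)) Pf.nil)) Pf.nil)) Pf.nil)) (Pf.T 6 2 (Pf.cons (Pf.T 6 3 (Pf.cons (Pf.W 7 98434 [] [3,5] (Pf.cons (Pf.C 8 0xa0c381) Pf.nil)) Pf.nil)) Pf.nil))) (Pf.C 0 65542)) (Pf.C 8 0xa0c301)) (Pf.C 8 0x200303)) (Pf.C 10 0x2000604286)) Pf.nil)) Pf.nil)) Pf.nil)) (Pf.C 2 0x10600205)) (Pf.C 8 0x80c280)) (Pf.C 0 16645)) (Pf.C 0 16773)) Pf.nil)) Pf.nil)) Pf.nil)) (Pf.C 2 0x604104)) (Pf.C 9 49284)) (Pf.C 0 388)) Pf.nil)) Pf.nil)) Pf.nil))) (Pf.B 3 1 (Pf.T 3 2 (Pf.cons (Pf.T 3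 3 (Pf.cons (Pf.W 6 0 [3] [1,2] (Pf.cons (Pf.B 4 3 (Pf.B 4 2 (Pf.B 4 1 (Pf.T 4 2 (Pf.cons (Pf.T 4 3 (Pf.cons (Pf.W 6 1 [] [0,2,3,4] (Pf.cons (Pf.B 5 2 (Pf.B 5 0 (Pf.B 5 4 (Pf.B 5 3 (Pf.T 5 2 (Pf.cons (Pf.T 5 3 (Pf.cons (Pf.W 6 1 [5] [0,2,3,4] (Pf.cons (Pf.B 6 5 (Pf.B 6 2 (Pf.B 6 0 (Pf.B 6 4 (Pf.B 6 3 (Pf.T 6 2 (Pf.cons (Pf.T 6 3 (Pf.cons (Pf.W 7 49282 [] [5,6] (Pf.cons (Pf.C 8 0xc14381) Pf.nil)) Pf.nil)) Pf.nil)) (Pf.T 6 2 (Pf.cons (Pf.T 6 3 (Pf.cons (Pf.W 6 4 [0] [1,2,3,5,6] (Pf.cons (Pf.B 7 6 (Pf.B 7 5 (Pf.B 7 3 (Pf.B 7 2 (Pf.B 7 0 (Pf.C 1 0x1c2000c08185) (Pf.C 0 65543)) (Pf.C 8 0x604382)) (Pf.C 8 0xc00383)) (Pf.C 12 0x100030c04287)) (Pf.C 8 0x604386)) Pf.nil)) Pf.nil)) Pf.nil))) (Pf.B 6 3 (Pf.T 6 2 (Pf.cons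 (Pf.T 6 3 (Pf.cons (Pf.W 7 49282 [] [5,6] (Pf.cons (Pf.C 8 0xc14381) Pf.nil)) Pf.nil)) Pf.nil)) (Pf.C 8 0x804186))) (Pf.C 8 0x80c300)) (Pf.C 0 16646)) (Pf.C 0 17030)) Pf.nil)) Pf.nil)) Pf.nil)) (Pf.T 5 2 (Pf.cons (Pf.T 5 3 (Pf.cons (Pf.W 6 1 [5] [0,2,3,4] (Pf.cons (Pf.B 6 5 (Pf.B 6 4 (Pf.B 6 3 (Pf.B 6 2 (Pf.B 6 0 (Pf.T 6 2 (Pf.cons (Pf.T 6 3 (Pf.cons (Pf.W 6 4 [0] [1,2,3,5,6] (Pf.cons (Pf.B 7 6 (Pf.B 7 5 (Pf.B 7 3 (Pf.B 7 2 (Pf.B 7 0 (Pf.C 1 0x1c2000a08186) (Pf.C 0 65543)) (Pf.C 8 0x604382)) (Pf.C 8 0xa00383)) (Pf.C 8 0x604385)) (Pf.C 12 0x100030a04307)) Pf.nil)) Pf.nil)) Pf.nil)) (Pf.C 8 0x80c300)) (Pf.C 0 16646)) (Pf.C 8 0xa00303)) (Pf.C 10 0x850600206)) (Pf.C 0 17030)) Pf.nil)) Pf.nil)) Pf.nil))) (Pf.B 5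 3 (Pf.T 5 2 (Pf.cons (Pf.T 5 3 (Pf.cons (Pf.W 7 49282 [] [0,4,5] (Pf.cons (Pf.C 10 0x1800814086) Pf.nil)) Pf.nil)) Pf.nil)) (Pf.C 8 0x804185))) (Pf.C 8 0x80c280)) (Pf.C 0 16645)) Pf.nil)) Pf.nil)) Pf.nil)) (Pf.C 2 0x608084)) (Pf.C 8 0x604202)) (Pf.C 0 388)) Pf.nil)) Pf.nil)) Pf.nil)) (Pf.C 0 32899))) Pf.nil)))
 (Pq.cons (Pq.L [0] 1 (Pf.W 6 0 [1] [2] (Pf.cons (Pf.B 3 1 (Pf.B 3 2 (Pf.T 3 2 (Pf.cons (Pf.T 3 3 (Pf.cons (Pf.W 6 1 [0] [2,3] (Pf.cons (Pf.B 4 3 (Pf.B 4 2 (Pf.B 4 0 (Pf.T 4 2 (Pf.cons (Pf.T 4 3 (Pf.cons (Pf.W 6 3 [0] [1,2,4] (Pf.cons (Pf.B 5 1 (Pf.B 5 0 (Pf.B 5 4 (Pf.B 5 2 (Pf.T 5 2 (Pf.cons (Pf.T 5 3 (Pf.cons (Pf.W 6 4 [1] [0,2,3,5] (Pf.cons (Pf.B 6 5 (Pf.B 6 3 (Pf.B 6 1 (Pf.B 6 0 (Pf.B 6 2 (Pf.T 6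 2 (Pf.cons (Pf.T 6 3 (Pf.cons (Pf.W 6 6 [4] [0,1,2,3,5] (Pf.cons (Pf.B 7 5 (Pf.B 7 4 (Pf.B 7 3 (Pf.B 7 1 (Pf.B 7 2 (Pf.B 7 0 (Pf.C 1 0x141800808087) (Pf.C 8 0x604380)) (Pf.C 2 0x60804107)) (Pf.C 8 0x800381)) (Pf.C 8 0xa00383)) (Pf.C 0 98823)) (Pf.C 12 0x18201000c287)) Pf.nil)) Pf.nil)) Pf.nil)) (Pf.T 6 2 (Pf.cons (Pf.T 6 3 (Pf.cons (Pf.W 6 6 [4] [0,1,2,3,5] (Pf.cons (Pf.B 7 5 (Pf.B 7 4 (Pf.B 7 3 (Pf.B 7 2 (Pf.B 7 1 (Pf.B 7 0 (Pf.C 1 0x141800808087) (Pf.C 8 0x604380)) (Pf.C 8 0x800381)) (Pf.C 0 98567)) (Pf.C 8 0xa00383)) (Pf.C 0 98823)) (Pf.C 12 0x18201000c287)) Pf.nil)) Pf.nil)) Pf.nil))) (Pf.C 8 0x604300)) (Pf.C 0 65670)) (Pf.C 8 0xa00303)) (Pf.C 10 0x201000c286)) Pf.nil)) Pf.nil)) Pf.nil)) (Pf.C 2 0x30004105))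 (Pf.C 2 0x30004205)) (Pf.C 0 49157)) (Pf.C 8 0x800281)) Pf.nil)) Pf.nil)) Pf.nil)) (Pf.C 0 16388)) (Pf.C 0 16644)) (Pf.C 9 0x200184)) Pf.nil)) Pf.nil)) Pf.nil)) (Pf.T 3 2 (Pf.cons (Pf.T 3 3 (Pf.cons (Pf.W 6 1 [0] [2,3] (Pf.cons (Pf.B 4 3 (Pf.B 4 2 (Pf.B 4 0 (Pf.T 4 2 (Pf.cons (Pf.T 4 3 (Pf.cons (Pf.W 6 3 [0] [1,2,4] (Pf.cons (Pf.B 5 2 (Pf.B 5 1 (Pf.B 5 4 (Pf.B 5 0 (Pf.T 5 2 (Pf.cons (Pf.T 5 3 (Pf.cons (Pf.W 6 4 [1] [0,2,3,5] (Pf.cons (Pf.B 6 5 (Pf.B 6 3 (Pf.B 6 2 (Pf.B 6 1 (Pf.B 6 0 (Pf.T 6 2 (Pf.cons (Pf.T 6 3 (Pf.cons (Pf.W 6 6 [4] [0,1,2,3,5] (Pf.cons (Pf.B 7 5 (Pf.B 7 4 (Pf.B 7 2 (Pf.B 7 1 (Pf.B 7 0 (Pf.C 1 0x1c3040400085) (Pf.C 8 0x604380)) (Pf.C 8 0x800381)) (Pf.C 8 0x604382)) (Pf.C 0 98823)) (Pf.C 12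 0x18201000c287)) Pf.nil)) Pf.nil)) Pf.nil)) (Pf.C 8 0x604300)) (Pf.C 0 65670)) (Pf.C 8 0x604302)) (Pf.C 8 0xa00303)) (Pf.C 10 0x201000c286)) Pf.nil)) Pf.nil)) Pf.nil)) (Pf.C 0 49157)) (Pf.C 2 0x30404205)) (Pf.C 8 0x800281)) (Pf.C 0 49413)) Pf.nil)) Pf.nil)) Pf.nil)) (Pf.C 0 16388)) (Pf.C 0 16644)) (Pf.C 9 0x200184)) Pf.nil)) Pf.nil)) Pf.nil))) (Pf.C 0 131)) Pf.nil)))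
 Pq.nil)))
theorem d_o8 : AllRef d_T d_G13 (closeObl (d_T.sc.get 0) false [9,10,11] [0,0,0] [0] [0] 3) :=
  chkPq_sound d_o8c _ (by decide +kernel)
noncomputable def d_o9c : Pq := (Pq.cons (Pq.L [0] 0 (Pf.C 8 0x608080))
 Pq.nil)
theorem d_o9 : AllRef d_T d_G14 (hitObl [10] d_h16) :=
  chkPq_sound d_o9c _ (by decide +kernel)
noncomputable def d_o10c : Pq := (Pq.cons (Pq.L [] 0 (Pf.C 14 1))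
 Pq.nil)
theorem d_o10 : AllRef d_T d_G15 (List.map pat1 [12]) :=
  chkPq_sound d_o10c _ (by decide +kernel)
noncomputable def d_o11c : Pq := (Pq.cons (Pq.L [] 7 (Pf.C 8 0x80c101))
 Pq.nil)
theorem d_o11 : AllRef d_T d_G16 (applyObl TD2 1 [9] [0] []) :=
  chkPq_sound d_o11c _ (by decide +kernel)
noncomputable def d_o12c : Pq := Pq.nil
theorem d_o12 : AllRef d_T d_G6 (ptObl 6 PT.kid []) :=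
  chkPq_sound d_o12c _ (by decide +kernel)
noncomputable def d_o13c : Pq := (Pq.cons (Pq.L [0,5,6] 0 (Pf.C 8 0xa00386))
 (Pq.cons (Pq.L [4,5,6] 0 (Pf.C 8 0xc10385))
 (Pq.cons (Pq.L [3,4,5] 0 (Pf.C 8 0xa0c384))
 (Pq.cons (Pq.L [2,3,4] 0 (Pf.C 8 0x808383))
 (Pq.cons (Pq.L [1,2,3] 0 (Pf.C 8 0x604382))
 (Pq.cons (Pq.L [0,1,2] 0 (Pf.C 8 0x400381))
 (Pq.cons (Pq.L [0,1,6] 0 (Pf.C 8 0xc04380))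
 Pq.nil)))))))
theorem d_o13 : AllRef d_T d_G17 (ptObl 13 (PT.br 0 (PT.br 1 (PT.br 2 (PT.br 3 (PT.br 4 (PT.br 5 (PT.br 6 PT.kid PT.ref) PT.ref) PT.ref) PT.ref) PT.ref) PT.ref) PT.ref) []) :=
  chkPq_sound d_o13c _ (by decide +kernel)
noncomputable def d_o14c : Pq := (Pq.cons (Pq.L [5,6] 0 (Pf.C 0 98951))
 (Pq.cons (Pq.L [4,5] 0 (Pf.C 0 82439))
 (Pq.cons (Pq.L [3,4,5,6] 0 (Pf.C 2 0x60a10187))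
 (Pq.cons (Pq.L [5,6] 0 (Pf.C 0 98951))
 (Pq.cons (Pq.L [3,4] 0 (Pf.C 0 65927))
 (Pq.cons (Pq.L [0,1,2,6] 0 (Pf.C 2 0x60004107))
 (Pq.cons (Pq.L [2,3,4,5] 0 (Pf.C 2 0x5080c107))
 (Pq.cons (Pq.L [2,4,6] 0 (Pf.C 8 0xc10107))
 (Pq.cons (Pq.L [4,5] 0 (Pf.C 0 82439))
 (Pq.cons (Pq.L [2,3] 0 (Pf.C 0 49415))
 (Pq.cons (Pq.L [0,1,5,6] 0 (Pf.B 7 6 (Pf.C 2 0x10018287) (Pf.C 0 82695)))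
 (Pq.cons (Pq.L [1,2,3,4] 0 (Pf.C 2 0x40608087))
 (Pq.cons (Pq.L [1,3,6] 0 (Pf.C 8 0xc0c087))
 (Pq.cons (Pq.L [1,3,5] 0 (Pf.C 8 0xa0c087))
 (Pq.cons (Pq.L [3,4] 0 (Pf.C 0 65927))
 (Pq.cons (Pq.L [1,2] 0 (Pf.C 0 32903))
 (Pq.cons (Pq.L [0,6] 0 (Pf.C 0 98311))
 (Pq.cons (Pq.L [0,6] 0 (Pf.C 0 98311))
 (Pq.cons (Pq.L [0,4,5,6] 0 (Pf.B 7 6 (Pf.B 7 5 (Pf.C 2 0xc14207) (Pf.C 0 66183)) (Pf.C 0 775)))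
 (Pq.cons (Pq.L [0,1,2,3] 0 (Pf.C 2 0x30404007))
 (Pq.cons (Pq.L [0,6] 0 (Pf.C 0 98311))
 (Pq.cons (Pq.L [0,2,5] 0 (Pf.C 8 0xa08007))
 (Pq.cons (Pq.L [0,2,4] 0 (Pf.C 8 0x808007))
 (Pq.cons (Pq.L [2,3] 0 (Pf.C 0 49415))
 (Pq.cons (Pq.L [0,1] 0 (Pf.C 0 16391))
 Pq.nil)))))))))))))))))))))))))
theorem d_o14 : AllRef d_T d_G18 (ptObl 7 (PT.br 0 (PT.br 1 (PT.br 2 (PT.br 3 (PT.br 4 (PT.br 5 (PT.br 6 PT.kid PT.kid) (PT.br 6 PT.kid PT.ref)) (PT.br 5 (PT.br 6 PT.kid PT.kid) PT.ref)) (PT.br 4 (PT.br 5 (PT.br 6 PT.kid PT.ref) (PT.br 6 PT.kid PT.ref)) PT.ref)) (PT.br 3 (PT.br 4 (PT.br 5 (PT.br 6 PT.kid PT.ref) PT.ref) (PT.br 5 (PT.br 6 PT.kid PT.ref) PT.ref)) PT.ref)) (PT.br 2 (PT.br 3 (PT.br 4 (PT.br 5 (PT.br 6 PT.kid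 PT.kid) PT.ref) PT.ref) (PT.br 4 (PT.br 5 (PT.br 6 PT.kid PT.ref) PT.ref) PT.ref)) PT.ref)) (PT.br 1 (PT.br 2 (PT.br 3 (PT.br 4 (PT.br 5 (PT.br 6 PT.kid PT.ref) (PT.br 6 PT.kid PT.ref)) PT.ref) PT.ref) (PT.br 3 (PT.br 4 (PT.br 5 (PT.br 6 PT.kid PT.ref) PT.ref) PT.ref) PT.ref)) PT.ref)) []) :=
  chkPq_sound d_o14c _ (by decide +kernel)
noncomputable def d_o15c : Pq := (Pq.cons (Pq.L [] 0 (Pf.X 0 7))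
 (Pq.cons (Pq.L [] 0 (Pf.X 1 7))
 (Pq.cons (Pq.L [] 0 (Pf.X 2 7))
 (Pq.cons (Pq.L [] 0 (Pf.X 3 7))
 (Pq.cons (Pq.L [] 0 (Pf.X 4 7))
 (Pq.cons (Pq.L [] 0 (Pf.X 5 7))
 (Pq.cons (Pq.L [] 0 (Pf.X 6 7))
 (Pq.cons (Pq.L [0,1,2,3,4,5,6] 1 (Pf.W 6 8 [] [0,1,2,3,4,5,6,7] (Pf.cons (Pf.B 9 7 (Pf.B 9 6 (Pf.B 9 5 (Pf.B 9 4 (Pf.B 9 3 (Pf.B 9 2 (Pf.B 9 1 (Pf.B 9 0 (Pf.T 9 5 (Pf.cons (Pf.T 9 6 (Pf.cons (Pf.W 6 8 [9] [0,1,2,3,4,5,6,7] (Pf.cons (Pf.B 10 9 (Pf.B 10 7 (Pf.B 10 6 (Pf.B 10 5 (Pf.B 10 4 (Pf.B 10 3 (Pf.B 10 2 (Pf.B 10 1 (Pf.B 10 0 (Pf.T 10 5 (Pf.cons (Pf.T 10 6 (Pf.cons (Pf.W 6 9 [8] [0,1,2,3,4,5,6,7,10] (Pf.cons (Pf.B 11 10 (Pf.B 11 8 (Pf.B 11 6 (Pf.B 11 5 (Pf.B 11 0 (Pf.B 11 7 (Pf.T 11 5 (Pf.cons (Pf.T 11 6 (Pf.cons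 (Pf.W 6 11 [9] [0,5,6,7,8,10] (Pf.cons (Pf.B 12 9 (Pf.B 12 8 (Pf.B 12 10 (Pf.B 12 7 (Pf.B 12 6 (Pf.C 1 0x30589141c406) (Pf.C 8 0xa00606)) (Pf.C 2 0xb122038c)) (Pf.C 2 0xb122050c)) (Pf.C 8 0x1424608)) (Pf.C 0 0x2c48c)) Pf.nil)) Pf.nil)) Pf.nil)) (Pf.T 11 5 (Pf.cons (Pf.T 11 6 (Pf.cons (Pf.W 6 10 [8] [0,1,2,3,4,5,6,7,9,11] (Pf.cons (Pf.B 12 9 (Pf.B 12 8 (Pf.B 12 11 (Pf.B 12 7 (Pf.B 12 6 (Pf.B 12 5 (Pf.B 12 0 (Pf.T 12 5 (Pf.cons (Pf.T 12 6 (Pf.cons (Pf.W 6 12 [10] [0,5,6,7,8,9,11] (Pf.cons (Pf.B 13 10 (Pf.B 13 9 (Pf.B 13 8 (Pf.B 13 7 (Pf.B 13 6 (Pf.C 1 0x3460a121c406) (Pf.C 8 0xa00686)) (Pf.C 8 0x1620687)) (Pf.C 8 0x1424688)) (Pf.C 8 0x1620689)) (Pf.C 0 0x3050d)) Pf.nil)) Pf.nil)) Pf.nil)) (Pf.C 8 0xc04600)) (Pf.C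 8 0xc10605)) (Pf.C 8 0xa00606)) (Pf.C 8 0x1620607)) (Pf.C 2 0xa102458c)) (Pf.C 0 0x2840c)) (Pf.C 8 0x1620609)) Pf.nil)) Pf.nil)) Pf.nil))) (Pf.C 8 0xc04580)) (Pf.C 8 0xc10585)) (Pf.C 8 0xa00586)) (Pf.C 0 0x2440b)) (Pf.C 9 0x122050b)) Pf.nil)) Pf.nil)) Pf.nil)) (Pf.C 8 0xc04500)) (Pf.C 8 0x400501)) (Pf.C 8 0x604502)) (Pf.C 8 0x808503)) (Pf.C 8 0xa0c504)) (Pf.C 8 0xc10505)) (Pf.C 8 0xa00506)) (Pf.C 0 0x2038a)) (Pf.C 0 0x2048a)) Pf.nil)) Pf.nil)) Pf.nil)) (Pf.C 8 0xc04480)) (Pf.C 8 0x400481)) (Pf.C 8 0x604482)) (Pf.C 8 0x808483)) (Pf.C 8 0xa0c484)) (Pf.C 8 0xc10485)) (Pf.C 8 0xa00486)) (Pf.C 0 0x20389)) Pf.nil)))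
 (Pq.cons (Pq.L [0,5,6] 1 (Pf.W 7 0x20307 [] [0,5] (Pf.cons (Pf.C 8 0xa00486) Pf.nil)))
 (Pq.cons (Pq.L [4,5,6] 1 (Pf.W 7 0x20287 [] [4,6] (Pf.cons (Pf.C 8 0xc10485) Pf.nil)))
 (Pq.cons (Pq.L [3,4,5] 1 (Pf.W 7 0x20207 [] [3,5] (Pf.cons (Pf.C 8 0xa0c484) Pf.nil)))
 (Pq.cons (Pq.L [4,6] 1 (Pf.C 8 0x1018207))
 (Pq.cons (Pq.L [2,3,4] 1 (Pf.W 7 0x20187 [] [2,4] (Pf.cons (Pf.C 8 0x808483) Pf.nil)))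
 (Pq.cons (Pq.L [3,5] 1 (Pf.C 8 0x1014187))
 (Pq.cons (Pq.L [1,2,3] 1 (Pf.W 7 0x20107 [] [1,3] (Pf.cons (Pf.C 8 0x604482) Pf.nil)))
 (Pq.cons (Pq.L [2,4] 1 (Pf.C 8 0x1010107))
 (Pq.cons (Pq.L [0,1,2] 1 (Pf.W 7 0x20087 [] [0,2] (Pf.cons (Pf.C 8 0x400481) Pf.nil)))
 (Pq.cons (Pq.L [1,6] 1 (Pf.C 8 0x1018087))
 (Pq.cons (Pq.L [1,3] 1 (Pf.C 8 0x100c087))
 (Pq.cons (Pq.L [0,1,6] 1 (Pf.W 7 0x20007 [] [1,6] (Pf.cons (Pf.C 8 0xc04480) Pf.nil)))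
 (Pq.cons (Pq.L [0,5] 1 (Pf.C 8 0x1014007))
 (Pq.cons (Pq.L [0,2] 1 (Pf.C 8 0x1008007))
 Pq.nil))))))))))))))))))))))
theorem d_o15 : AllRef d_T d_G19 (closeObl (d_T.sc.get 0) false [14,15,16,17,18,19,20,21,22,23,24,25,26,27,28,29] [0,0,0,0,0,0,0,0,0,0,0,0,0,0,0,0] [0,1,2,3,4,5,6] [0,0,0,0,0,0,0] 65534) :=
  chkPq_sound d_o15c _ (by decide +kernel)
noncomputable def d_o16c : Pq := (Pq.cons (Pq.L [0,1,2,4,6] 0 (Pf.B 10 8 (Pf.C 1 0x80801028304) (Pf.C 0 99338)))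
 (Pq.cons (Pq.L [0,2,3,4,5] 0 (Pf.B 10 8 (Pf.C 1 0x81841028280) (Pf.C 0 82954)))
 (Pq.cons (Pq.L [1,2,3,4,6] 0 (Pf.B 10 8 (Pf.C 1 0x41031028206) (Pf.C 0 66570)))
 (Pq.cons (Pq.L [0,1,2,3,4,5] 0 (Pf.B 10 9 (Pf.C 1 0x41030a28209) (Pf.B 10 7 (Pf.C 1 0x41030a28207) (Pf.B 9 7 (Pf.C 1 0x81840e24500) (Pf.C 0 0x28389)))))
 (Pq.cons (Pq.L [0,1,2,3,5] 0 (Pf.B 10 8 (Pf.C 1 0x821028185) (Pf.C 0 50186)))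
 (Pq.cons (Pq.L [0,1,2,3,4,6] 0 (Pf.B 10 9 (Pf.C 1 0x820828189) (Pf.B 10 7 (Pf.C 1 0x820828187) (Pf.B 9 7 (Pf.C 1 0x41030e24506) (Pf.C 0 0x28389)))))
 (Pq.cons (Pq.L [0,1,2,4,6] 0 (Pf.B 10 8 (Pf.C 1 0x180011028104) (Pf.C 0 33802)))
 (Pq.cons (Pq.L [0,1,2,3,5,6] 0 (Pf.B 10 9 (Pf.C 1 0x180010628109) (Pf.B 10 7 (Pf.C 1 0x180010628107) (Pf.B 9 7 (Pf.C 1 0x820e24505) (Pf.C 0 0x28389)))))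
 (Pq.cons (Pq.L [0,1,3,5,6] 0 (Pf.B 10 8 (Pf.C 1 0x143001028083) (Pf.C 0 17418)))
 (Pq.cons (Pq.L [0,1,2,3,4,5] 0 (Pf.B 10 9 (Pf.C 1 0x101820028089) (Pf.B 10 7 (Pf.C 1 0x101820028087) (Pf.B 9 7 (Pf.C 1 0xc1010e24505) (Pf.C 0 0x28389)))))
 (Pq.cons (Pq.L [0,1,2,4,5,6] 0 (Pf.B 10 9 (Pf.C 1 0x143000428089) (Pf.B 10 7 (Pf.C 1 0x143000428087) (Pf.B 9 7 (Pf.C 1 0x180010e24504) (Pf.C 0 0x28389)))))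
 (Pq.cons (Pq.L [0,1,2,3,5] 0 (Pf.B 10 8 (Pf.C 1 0xc1011028005) (Pf.C 0 1034)))
 (Pq.cons (Pq.L [0,1,2,3,4,6] 0 (Pf.B 10 9 (Pf.C 1 0xc1010c28009) (Pf.B 10 7 (Pf.C 1 0xc1010c28007) (Pf.B 9 7 (Pf.C 1 0x80800e24504) (Pf.C 0 0x28389)))))
 (Pq.cons (Pq.L [0,1,3,4,5,6] 0 (Pf.B 10 9 (Pf.C 1 0x102860228009) (Pf.B 10 7 (Pf.C 1 0x102860228007) (Pf.B 9 7 (Pf.C 1 0x143000e24503) (Pf.C 0 0x28389)))))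
 (Pq.cons (Pq.L [0,2,3,4,5] 0 (Pf.B 10 8 (Pf.C 1 0x81841028280) (Pf.C 0 82954)))
 (Pq.cons (Pq.L [0,1,2,3,5] 0 (Pf.B 10 8 (Pf.C 1 0x821028185) (Pf.C 0 50186)))
 (Pq.cons (Pq.L [0,1,2,3,4,6] 0 (Pf.B 10 9 (Pf.C 1 0x820828189) (Pf.B 10 8 (Pf.B 9 8 (Pf.C 1 0x820820189) (Pf.C 1 0x40061420484)) (Pf.C 0 50186))))
 (Pq.cons (Pq.L [0,1,2,4,6] 0 (Pf.B 10 8 (Pf.C 1 0x180011028104) (Pf.C 0 33802)))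
 (Pq.cons (Pq.L [0,1,2,3,5] 0 (Pf.B 10 8 (Pf.C 1 0xc1011028005) (Pf.C 0 1034)))
 (Pq.cons (Pq.L [0,1,2,4,6] 0 (Pf.B 9 7 (Pf.C 1 0x80800e24304) (Pf.C 0 99209)))
 (Pq.cons (Pq.L [0,1,2,3,4,5,6] 0 (Pf.B 10 9 (Pf.C 1 0x142030228109) (Pf.B 10 8 (Pf.B 9 8 (Pf.C 1 0x142030220109) (Pf.C 1 0x102861420481)) (Pf.C 0 1034))))
 (Pq.cons (Pq.L [1,2,3,4,6] 0 (Pf.B 10 8 (Pf.C 1 0x41031028206) (Pf.C 0 66570)))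
 (Pq.cons (Pq.L [0,2,3,4,5] 0 (Pf.B 9 7 (Pf.C 1 0x81840e24280) (Pf.C 0 82825)))
 (Pq.cons (Pq.L [0,1,2,4,6] 0 (Pf.B 10 8 (Pf.C 1 0x180011028104) (Pf.C 0 33802)))
 (Pq.cons (Pq.L [0,1,2,3,5,6] 0 (Pf.B 10 9 (Pf.C 1 0x180010628109) (Pf.B 10 8 (Pf.B 9 8 (Pf.C 1 0x180010620109) (Pf.C 1 0x3051420483)) (Pf.C 0 33802))))
 (Pq.cons (Pq.L [0,1,3,5,6] 0 (Pf.B 10 8 (Pf.C 1 0x143001028083) (Pf.C 0 17418)))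
 (Pq.cons (Pq.L [0,1,2,3,4,5] 0 (Pf.B 10 9 (Pf.C 1 0x101820028089) (Pf.B 10 8 (Pf.B 9 8 (Pf.C 1 0x101820020089) (Pf.C 1 0xc2051420480)) (Pf.C 0 17418))))
 (Pq.cons (Pq.L [0,1,2,3,5] 0 (Pf.B 10 8 (Pf.C 1 0x821028185) (Pf.C 0 50186)))
 (Pq.cons (Pq.L [1,2,3,4,6] 0 (Pf.B 9 7 (Pf.C 1 0x41030e24206) (Pf.C 0 66441)))
 (Pq.cons (Pq.L [0,1,3,5,6] 0 (Pf.B 10 8 (Pf.C 1 0x143001028083) (Pf.C 0 17418)))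
 (Pq.cons (Pq.L [0,1,2,4,5,6] 0 (Pf.B 10 9 (Pf.C 1 0x143000428089) (Pf.B 10 8 (Pf.B 9 8 (Pf.C 1 0x143000420089) (Pf.C 1 0x182841420482)) (Pf.C 0 17418))))
 (Pq.cons (Pq.L [0,1,2,3,5] 0 (Pf.B 10 8 (Pf.C 1 0xc1011028005) (Pf.C 0 1034)))
 (Pq.cons (Pq.L [0,1,2,3,4,6] 0 (Pf.B 10 9 (Pf.C 1 0xc1010c28009) (Pf.B 10 8 (Pf.B 9 8 (Pf.C 1 0xc1010c20009) (Pf.C 1 0x81841420486)) (Pf.C 0 1034))))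
 (Pq.cons (Pq.L [0,1,2,3,5] 0 (Pf.B 10 8 (Pf.C 1 0x821028185) (Pf.C 0 50186)))
 (Pq.cons (Pq.L [0,1,2,3,4,6] 1 (Pf.B 10 8 (Pf.B 10 7 (Pf.C 1 0x821028187) (Pf.C 1 0x40060828388)) (Pf.C 0 50186)))
 (Pq.cons (Pq.L [0,1,2,3,5] 0 (Pf.B 10 8 (Pf.C 1 0xc1011028005) (Pf.C 0 1034)))
 (Pq.cons (Pq.L [0,1,2,3,4,6] 1 (Pf.B 10 8 (Pf.B 10 7 (Pf.C 1 0xc1011028007) (Pf.C 1 0x81840c28388)) (Pf.C 0 1034)))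
 (Pq.cons (Pq.L [0,1,2,4,6] 0 (Pf.B 10 8 (Pf.C 1 0x180011028104) (Pf.C 0 33802)))
 (Pq.cons (Pq.L [0,1,2,3,5] 0 (Pf.B 9 7 (Pf.C 1 0x820e24185) (Pf.C 0 50057)))
 (Pq.cons (Pq.L [0,1,2,3,5] 0 (Pf.B 10 8 (Pf.C 1 0xc1011028005) (Pf.C 0 1034)))
 (Pq.cons (Pq.L [0,1,3,4,5,6] 0 (Pf.B 10 9 (Pf.C 1 0x102860228009) (Pf.B 10 8 (Pf.B 9 8 (Pf.C 1 0x102860220009) (Pf.C 1 0x142031420481)) (Pf.C 0 1034))))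
 (Pq.cons (Pq.L [0,1,2,4,6] 0 (Pf.B 10 8 (Pf.C 1 0x180011028104) (Pf.C 0 33802)))
 (Pq.cons (Pq.L [0,1,2,3,5,6] 1 (Pf.B 10 8 (Pf.B 10 7 (Pf.C 1 0x180011028107) (Pf.C 1 0x3050628388)) (Pf.C 0 33802)))
 (Pq.cons (Pq.L [0,1,3,5,6] 0 (Pf.B 10 8 (Pf.C 1 0x143001028083) (Pf.C 0 17418)))
 (Pq.cons (Pq.L [0,1,2,3,4,5,6] 0 (Pf.B 10 9 (Pf.C 1 0xc2050028309) (Pf.B 10 8 (Pf.B 9 8 (Pf.C 1 0xc2050020309) (Pf.C 1 0x101821420480)) (Pf.C 0 17418))))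
 (Pq.cons (Pq.L [0,1,2,4,6] 0 (Pf.B 9 7 (Pf.C 1 0x180010e24104) (Pf.C 0 33673)))
 (Pq.cons (Pq.L [0,1,3,5,6] 0 (Pf.B 10 8 (Pf.C 1 0x143001028083) (Pf.C 0 17418)))
 (Pq.cons (Pq.L [0,1,2,4,5,6] 1 (Pf.B 10 8 (Pf.B 10 7 (Pf.C 1 0x143001028087) (Pf.C 1 0x182840428388)) (Pf.C 0 17418)))
 (Pq.cons (Pq.L [0,1,2,3,5] 0 (Pf.B 10 8 (Pf.C 1 0xc1011028005) (Pf.C 0 1034)))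
 (Pq.cons (Pq.L [0,1,2,3,4,5,6] 0 (Pf.B 10 9 (Pf.C 1 0x81840c28289) (Pf.B 10 8 (Pf.B 9 8 (Pf.C 1 0x81840c20289) (Pf.C 1 0xc1011420486)) (Pf.C 0 1034))))
 (Pq.cons (Pq.L [0,1,3,5,6] 0 (Pf.B 9 7 (Pf.C 1 0x143000e24083) (Pf.C 0 17289)))
 (Pq.cons (Pq.L [0,1,2,3,5] 0 (Pf.B 10 8 (Pf.C 1 0xc1011028005) (Pf.C 0 1034)))
 (Pq.cons (Pq.L [0,1,2,3,4,5,6] 1 (Pf.B 10 8 (Pf.B 10 7 (Pf.C 1 0x81841028287) (Pf.C 1 0xc1010c28388)) (Pf.C 0 1034)))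
 (Pq.cons (Pq.L [0,1,2,3,4,5,6] 1 (Pf.B 10 8 (Pf.B 10 7 (Pf.C 1 0x142031028107) (Pf.C 1 0x102860228388)) (Pf.C 0 1034)))
 (Pq.cons (Pq.L [0,1,2,3,5] 0 (Pf.B 10 8 (Pf.C 1 0xc1011028005) (Pf.C 0 1034)))
 (Pq.cons (Pq.L [0,1,3,4,5,6] 1 (Pf.B 10 8 (Pf.B 10 7 (Pf.C 1 0x102861028007) (Pf.C 1 0x142030228388)) (Pf.C 0 1034)))
 Pq.nil))))))))))))))))))))))))))))))))))))))))))))))))))))))))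
theorem d_o16 : AllRef d_T d_G20 (hitObl [15,16,17,18,19,20,21,22,23,24,25,26,27,28,29] d_h24) :=
  chkPq_sound d_o16c _ (by decide +kernel)
noncomputable def d_o17c : Pq := (Pq.cons (Pq.L [0,1,2,4,6] 0 (Pf.B 8 7 (Pf.C 1 0x80800e20304) (Pf.C 0 99208)))
 (Pq.cons (Pq.L [0,2,3,4,5] 0 (Pf.B 8 7 (Pf.C 1 0x81840e20280) (Pf.C 0 82824)))
 (Pq.cons (Pq.L [1,2,3,4,6] 0 (Pf.B 8 7 (Pf.C 1 0x41030e20206) (Pf.C 0 66440)))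
 (Pq.cons (Pq.L [0,1,2,3,5] 0 (Pf.B 8 7 (Pf.C 1 0x820e20185) (Pf.C 0 50056)))
 (Pq.cons (Pq.L [0,1,2,4,6] 0 (Pf.B 8 7 (Pf.C 1 0x180010e20104) (Pf.C 0 33672)))
 (Pq.cons (Pq.L [0,1,3,5,6] 0 (Pf.B 8 7 (Pf.C 1 0x143000e20083) (Pf.C 0 17288)))
 (Pq.cons (Pq.L [0,1,2,3,5] 0 (Pf.B 8 7 (Pf.C 1 0xc1010e20005) (Pf.C 0 904)))
 Pq.nil)))))))
theorem d_o17 : AllRef d_T d_G21 (hitObl [31,32,33,35,37,39,42] d_h25) :=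
  chkPq_sound d_o17c _ (by decide +kernel)
noncomputable def d_o18c : Pq := (Pq.cons (Pq.L [] 0 (Pf.C 29 7))
 (Pq.cons (Pq.L [] 0 (Pf.C 30 7))
 (Pq.cons (Pq.L [] 0 (Pf.C 31 7))
 (Pq.cons (Pq.L [] 0 (Pf.C 32 7))
 (Pq.cons (Pq.L [] 0 (Pf.C 33 7))
 (Pq.cons (Pq.L [] 0 (Pf.C 34 7))
 (Pq.cons (Pq.L [] 0 (Pf.C 35 7))
 Pq.nil)))))))
theorem d_o18 : AllRef d_T d_G22 (List.map pat1 [45,46,47,48,49,50,51]) :=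
  chkPq_sound d_o18c _ (by decide +kernel)
noncomputable def d_o19c : Pq := (Pq.cons (Pq.L [] 0 (Pf.C 15 904))
 (Pq.cons (Pq.L [] 0 (Pf.C 16 904))
 (Pq.cons (Pq.L [] 0 (Pf.C 17 904))
 (Pq.cons (Pq.L [] 0 (Pf.C 18 904))
 (Pq.cons (Pq.L [] 0 (Pf.C 19 904))
 (Pq.cons (Pq.L [] 0 (Pf.C 20 904))
 (Pq.cons (Pq.L [] 0 (Pf.C 21 904))
 Pq.nil)))))))
theorem d_o19 : AllRef d_T d_G23 (splitObl [30] [34,36,38,40,41,43,44]) :=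
  chkPq_sound d_o19c _ (by decide +kernel)
noncomputable def d_o20c : Pq := (Pq.cons (Pq.L [] 7 (Pf.C 0 0x24407))
 (Pq.cons (Pq.L [0] 32767 (Pf.C 1 0x3058a1220380))
 Pq.nil))
theorem d_o20 : AllRef d_T d_G23 (applyObl dS_T 2 [30] [0] []) :=
  chkPq_sound d_o20c _ (by decide +kernel)
noncomputable def d_o21c : Pq := (Pq.cons (Pq.L [] 2 (Pf.C 22 905))
 (Pq.cons (Pq.L [4] 1 (Pf.C 0 0x20207))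
 (Pq.cons (Pq.L [6] 1 (Pf.C 0 0x20307))
 (Pq.cons (Pq.L [0,1,6] 1 (Pf.C 2 0x80c00087))
 (Pq.cons (Pq.L [] 2 (Pf.C 23 905))
 (Pq.cons (Pq.L [2,3,4] 1 (Pf.C 2 0x8080c107))
 Pq.nil))))))
theorem d_o21 : AllRef d_T d_G23 (splitObl [34] [36,38,40,41,43,44]) :=
  chkPq_sound d_o21c _ (by decide +kernel)
noncomputable def d_o22c : Pq := (Pq.cons (Pq.L [4] 1 (Pf.C 0 0x20207))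
 Pq.nil)
theorem d_o22 : AllRef d_T d_G23 (applyObl TD2 1 [34] [0] []) :=
  chkPq_sound d_o22c _ (by decide +kernel)
noncomputable def d_o23c : Pq := (Pq.cons (Pq.L [] 2 (Pf.C 24 905))
 (Pq.cons (Pq.L [1,2,3] 1 (Pf.C 2 0x80608087))
 (Pq.cons (Pq.L [3] 1 (Pf.C 0 0x20187))
 (Pq.cons (Pq.L [5] 1 (Pf.C 0 0x20287))
 (Pq.cons (Pq.L [0,5,6] 1 (Pf.C 2 0x80a18007))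
 Pq.nil)))))
theorem d_o23 : AllRef d_T d_G23 (splitObl [36] [38,40,41,43,44]) :=
  chkPq_sound d_o23c _ (by decide +kernel)
noncomputable def d_o24c : Pq := (Pq.cons (Pq.L [3] 1 (Pf.C 0 0x20187))
 Pq.nil)
theorem d_o24 : AllRef d_T d_G23 (applyObl TD2 1 [36] [0] []) :=
  chkPq_sound d_o24c _ (by decide +kernel)
noncomputable def d_o25c : Pq := (Pq.cons (Pq.L [4,5,6] 1 (Pf.C 2 0x80814307))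
 (Pq.cons (Pq.L [] 2 (Pf.C 25 905))
 (Pq.cons (Pq.L [0,1,2] 1 (Pf.C 2 0x80404007))
 (Pq.cons (Pq.L [2] 1 (Pf.C 0 0x20107))
 Pq.nil))))
theorem d_o25 : AllRef d_T d_G23 (splitObl [38] [40,41,43,44]) :=
  chkPq_sound d_o25c _ (by decide +kernel)
noncomputable def d_o26c : Pq := (Pq.cons (Pq.L [2] 1 (Pf.C 0 0x20107))
 Pq.nil)
theorem d_o26 : AllRef d_T d_G23 (applyObl TD2 1 [38] [0] []) :=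
  chkPq_sound d_o26c _ (by decide +kernel)
noncomputable def d_o27c : Pq := (Pq.cons (Pq.L [1] 1 (Pf.C 0 0x20087))
 (Pq.cons (Pq.L [] 2 (Pf.C 26 905))
 (Pq.cons (Pq.L [] 2 (Pf.C 27 905))
 Pq.nil)))
theorem d_o27 : AllRef d_T d_G23 (splitObl [40] [41,43,44]) :=
  chkPq_sound d_o27c _ (by decide +kernel)
noncomputable def d_o28c : Pq := (Pq.cons (Pq.L [1] 1 (Pf.C 0 0x20087))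
 Pq.nil)
theorem d_o28 : AllRef d_T d_G23 (applyObl TD2 1 [40] [0] []) :=
  chkPq_sound d_o28c _ (by decide +kernel)
noncomputable def d_o29c : Pq := (Pq.cons (Pq.L [3,4,5] 1 (Pf.C 2 0x80610287))
 (Pq.cons (Pq.L [] 2 (Pf.C 28 905))
 Pq.nil))
theorem d_o29 : AllRef d_T d_G23 (splitObl [41] [43,44]) :=
  chkPq_sound d_o29c _ (by decide +kernel)
noncomputable def d_o30c : Pq := (Pq.cons (Pq.L [1] 1 (Pf.C 0 0x20087))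
 Pq.nil)
theorem d_o30 : AllRef d_T d_G23 (applyObl TD2 1 [41] [0] []) :=
  chkPq_sound d_o30c _ (by decide +kernel)
noncomputable def d_o31c : Pq := (Pq.cons (Pq.L [0] 1 (Pf.C 0 0x20007))
 Pq.nil)
theorem d_o31 : AllRef d_T d_G23 (splitObl [43] [44]) :=
  chkPq_sound d_o31c _ (by decide +kernel)
noncomputable def d_o32c : Pq := (Pq.cons (Pq.L [0] 1 (Pf.C 0 0x20007))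
 Pq.nil)
theorem d_o32 : AllRef d_T d_G23 (applyObl TD2 1 [43] [0] []) :=
  chkPq_sound d_o32c _ (by decide +kernel)
noncomputable def d_o33c : Pq := (Pq.cons (Pq.L [0] 1 (Pf.C 0 0x20007))
 Pq.nil)
theorem d_o33 : AllRef d_T d_G23 (applyObl TD2 1 [44] [0] []) :=
  chkPq_sound d_o33c _ (by decide +kernel)
noncomputable def d_o34c : Pq := Pq.nil
theorem d_o34 : AllRef d_T d_G2 (ptObl 1 PT.kid []) :=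
  chkPq_sound d_o34c _ (by decide +kernel)
noncomputable def d_o35c : Pq := (Pq.cons (Pq.L [3,4] 0 (Pf.C 0 65925))
 (Pq.cons (Pq.L [2,3] 0 (Pf.C 0 49413))
 (Pq.cons (Pq.L [3,4] 0 (Pf.C 0 65925))
 (Pq.cons (Pq.L [1,2] 0 (Pf.C 0 32901))
 (Pq.cons (Pq.L [0,4] 0 (Pf.C 0 65541))
 (Pq.cons (Pq.L [0,4] 0 (Pf.C 0 65541))
 (Pq.cons (Pq.L [0,4] 0 (Pf.C 0 65541))
 (Pq.cons (Pq.L [2,3] 0 (Pf.C 0 49413))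
 (Pq.cons (Pq.L [0,1] 0 (Pf.C 0 16389))
 Pq.nil)))))))))
theorem d_o35 : AllRef d_T d_G24 (ptObl 52 (PT.br 0 (PT.br 1 (PT.br 2 (PT.br 3 (PT.br 4 PT.kid PT.kid) (PT.br 4 PT.kid PT.ref)) (PT.br 3 (PT.br 4 PT.kid PT.kid) PT.ref)) (PT.br 2 (PT.br 3 (PT.br 4 PT.kid PT.kid) (PT.br 4 PT.kid PT.ref)) PT.ref)) (PT.br 1 (PT.br 2 (PT.br 3 (PT.br 4 PT.kid PT.ref) (PT.br 4 PT.kid PT.ref)) (PT.br 3 (PT.br 4 PT.kid PT.ref) PT.ref)) PT.ref)) []) :=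
  chkPq_sound d_o35c _ (by decide +kernel)
noncomputable def d_o36c : Pq := (Pq.cons (Pq.L [0,1,2,4] 7 (Pf.B 10 8 (Pf.B 10 7 (Pf.C 1 0x80801028207) (Pf.B 10 6 (Pf.B 10 5 (Pf.C 1 0x80800c28205) (Pf.B 9 8 (Pf.C 1 0x80801420209) (Pf.B 9 6 (Pf.C 1 0x80801418209) (Pf.B 8 6 (Pf.B 8 5 (Pf.C 1 0x80800c20205) (Pf.B 9 5 (Pf.B 7 6 (Pf.C 1 0x80801018207) (Pf.B 9 7 (Pf.B 7 5 (Pf.C 1 0x40041214407) (Pf.C 0 0x28287)) (Pf.C 0 99209))) (Pf.C 0 0x20289))) (Pf.C 0 66312))))) (Pf.C 0 66314))) (Pf.C 0 66570)))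
 (Pq.cons (Pq.L [0,1,2,3,4] 7 (Pf.B 10 8 (Pf.B 10 7 (Pf.C 1 0x40041028187) (Pf.B 10 6 (Pf.B 10 5 (Pf.C 1 0x40040c28185) (Pf.B 9 8 (Pf.C 1 0x40041420189) (Pf.B 9 6 (Pf.C 1 0x40041418189) (Pf.B 8 6 (Pf.B 8 5 (Pf.C 1 0x40040c20185) (Pf.B 9 5 (Pf.B 7 6 (Pf.C 1 0x40041018187) (Pf.B 9 7 (Pf.B 7 5 (Pf.C 1 0x41031214407) (Pf.C 0 0x28287)) (Pf.C 0 99209))) (Pf.C 0 0x20289))) (Pf.C 0 49928))))) (Pf.C 0 49930))) (Pf.C 0 50186)))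
 (Pq.cons (Pq.L [0,1,2,4] 7 (Pf.B 10 8 (Pf.B 10 7 (Pf.C 1 0x100011028107) (Pf.B 10 6 (Pf.B 10 5 (Pf.C 1 0x100010c28105) (Pf.B 9 8 (Pf.C 1 0x100011420109) (Pf.B 9 6 (Pf.C 1 0x100011418109) (Pf.B 8 6 (Pf.B 8 5 (Pf.C 1 0x100010c20105) (Pf.B 9 5 (Pf.B 7 6 (Pf.C 1 0x100011018107) (Pf.B 9 7 (Pf.B 7 5 (Pf.C 1 0x821214407) (Pf.C 0 0x28287)) (Pf.C 0 99209))) (Pf.C 0 0x20289))) (Pf.C 0 33544))))) (Pf.C 0 33546))) (Pf.C 0 33802)))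
 (Pq.cons (Pq.L [0,1,2,3,4] 7 (Pf.B 10 8 (Pf.B 10 7 (Pf.C 1 0x101821028087) (Pf.B 10 6 (Pf.B 10 5 (Pf.C 1 0x101820c28085) (Pf.B 9 8 (Pf.C 1 0x101821420089) (Pf.B 9 6 (Pf.C 1 0x101821418089) (Pf.B 8 6 (Pf.B 8 5 (Pf.C 1 0x101820c20085) (Pf.B 9 5 (Pf.B 7 6 (Pf.C 1 0x101821018087) (Pf.B 9 7 (Pf.B 7 5 (Pf.C 1 0x100011214407) (Pf.C 0 0x28287)) (Pf.C 0 99209))) (Pf.C 0 0x20289))) (Pf.C 0 17160))))) (Pf.C 0 17162))) (Pf.C 0 17418)))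
 (Pq.cons (Pq.L [0,1,2,3] 7 (Pf.B 10 8 (Pf.B 10 7 (Pf.C 1 0xc1011028007) (Pf.B 10 6 (Pf.B 10 5 (Pf.C 1 0xc1010c28005) (Pf.B 9 8 (Pf.C 1 0xc1011420009) (Pf.B 9 6 (Pf.C 1 0xc1011418009) (Pf.B 8 6 (Pf.B 8 5 (Pf.C 1 0xc1010c20005) (Pf.B 9 5 (Pf.B 7 6 (Pf.C 1 0xc1011018007) (Pf.B 9 7 (Pf.B 7 5 (Pf.C 1 0x80801214407) (Pf.C 0 0x28287)) (Pf.C 0 99209))) (Pf.C 0 0x20289))) (Pf.C 0 776))))) (Pf.C 0 778))) (Pf.C 0 1034)))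
 (Pq.cons (Pq.L [0,1,2,3,4] 4 (Pf.B 10 8 (Pf.B 10 6 (Pf.B 9 8 (Pf.C 1 0x821420189) (Pf.B 9 6 (Pf.C 1 0x821418189) (Pf.B 8 6 (Pf.C 1 0x40040c2048a) (Pf.C 0 49928)))) (Pf.C 0 49930)) (Pf.C 0 50186)))
 (Pq.cons (Pq.L [0,1,2,3,4] 4 (Pf.B 10 8 (Pf.B 10 6 (Pf.B 9 8 (Pf.C 1 0xc1011420009) (Pf.B 9 6 (Pf.C 1 0xc1011418009) (Pf.B 8 6 (Pf.C 1 0x81840c2048a) (Pf.C 0 776)))) (Pf.C 0 778)) (Pf.C 0 1034)))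
 (Pq.cons (Pq.L [0,1,2,3,4] 4 (Pf.B 10 8 (Pf.B 10 6 (Pf.B 9 8 (Pf.C 1 0x100011420109) (Pf.B 9 6 (Pf.C 1 0x100011418109) (Pf.B 8 6 (Pf.C 1 0x2030c2048a) (Pf.C 0 33544)))) (Pf.C 0 33546)) (Pf.C 0 33802)))
 (Pq.cons (Pq.L [0,1,2,3,4] 4 (Pf.B 10 8 (Pf.B 10 6 (Pf.B 9 8 (Pf.C 1 0xc2001420089) (Pf.B 9 6 (Pf.C 1 0xc2001418089) (Pf.B 8 6 (Pf.C 1 0x101820c2048a) (Pf.C 0 17160)))) (Pf.C 0 17162)) (Pf.C 0 17418)))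
 (Pq.cons (Pq.L [0,1,2,3,4] 4 (Pf.B 10 8 (Pf.B 10 6 (Pf.B 9 8 (Pf.C 1 0x81841420009) (Pf.B 9 6 (Pf.C 1 0x81841418009) (Pf.B 8 6 (Pf.C 1 0xc1010c2048a) (Pf.C 0 776)))) (Pf.C 0 778)) (Pf.C 0 1034)))
 Pq.nil))))))))))
theorem d_o36 : AllRef d_T d_G25 (hitObl [53,54,55,56,58,61] d_h45) :=
  chkPq_sound d_o36c _ (by decide +kernel)
noncomputable def d_o37c : Pq := (Pq.cons (Pq.L [0,1,2,3,4] 511 (Pf.B 13 10 (Pf.B 13 7 (Pf.B 13 9 (Pf.B 13 8 (Pf.C 1 0x2440a0634100) (Pf.B 11 8 (Pf.B 13 6 (Pf.B 13 5 (Pf.C 1 0x182870634100) (Pf.B 11 5 (Pf.B 8 5 (Pf.B 12 10 (Pf.B 11 10 (Pf.C 1 0x3058d0628100) (Pf.B 10 5 (Pf.C 1 0x40041620505) (Pf.B 12 9 (Pf.B 12 8 (Pf.C 1 0x2440a060410c) (Pf.C 1 0xc10a1230400)) (Pf.B 12 8 (Pf.B 12 5 (Pf.C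 1 0x82101450c) (Pf.B 12 7 (Pf.B 12 6 (Pf.C 1 0xc1070c30280) (Pf.C 0 82700)) (Pf.C 0 82828))) (Pf.C 0 0x2440c))))) (Pf.B 12 9 (Pf.B 12 8 (Pf.C 1 0x2440d060410c) (Pf.C 0 0x2840c)) (Pf.C 1 0x2460a1a0c100))) (Pf.C 0 0x34288)) (Pf.C 0 0x3428b))) (Pf.B 11 6 (Pf.B 8 6 (Pf.B 12 10 (Pf.B 11 10 (Pf.C 1 0x3058d0628100) (Pf.B 10 6 (Pf.C 1 0x821620506) (Pf.B 10 5 (Pf.B 12 9 (Pf.B 12 8 (Pf.C 1 0x2440a060410c) (Pf.C 1 0xc10a1230400)) (Pf.B 12 8 (Pf.B 12 6 (Pf.C 1 0x82101850c) (Pf.B 12 5 (Pf.C 1 0xc10a0a30300) (Pf.C 0 98956))) (Pf.C 0 0x2440c))) (Pf.C 0 98954)))) (Pf.B 12 9 (Pf.B 12 8 (Pf.C 1 0x2440d060410c) (Pf.C 0 0x2840c)) (Pf.C 1 0x2460a1a0c100))) (Pf.C 0 0x34308)) (Pf.C 0 0x3430b))) (Pf.C 0 0x3440b))) (Pf.B 13 8 (Pf.B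 12 10 (Pf.B 12 9 (Pf.B 12 8 (Pf.C 1 0x2440a060410c) (Pf.C 1 0xc10a1230400)) (Pf.C 1 0x3048d140c100)) (Pf.B 12 8 (Pf.B 12 9 (Pf.C 1 0x2048d060410c) (Pf.C 1 0xc10d1030480)) (Pf.C 0 0x2840c))) (Pf.C 0 0x2440d))) (Pf.C 0 33677)) (Pf.C 0 34061)))
 (Pq.cons (Pq.L [0,1,2,3] 511 (Pf.B 13 10 (Pf.B 13 7 (Pf.B 13 9 (Pf.B 13 8 (Pf.C 1 0x2440a0034083) (Pf.B 11 8 (Pf.B 13 6 (Pf.B 13 5 (Pf.C 1 0x182870034083) (Pf.B 11 5 (Pf.B 8 5 (Pf.B 12 10 (Pf.B 11 10 (Pf.C 1 0x3058d0028083) (Pf.B 10 5 (Pf.C 1 0xc1011620505) (Pf.B 12 9 (Pf.B 12 8 (Pf.C 1 0x2440a040008c) (Pf.C 1 0x8a1230403)) (Pf.B 12 8 (Pf.B 12 5 (Pf.C 1 0xc101101450c) (Pf.B 12 7 (Pf.B 12 6 (Pf.C 1 0x870c30283) (Pf.C 0 82700)) (Pf.C 0 82828))) (Pf.C 0 0x2440c))))) (Pf.B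 12 9 (Pf.B 12 8 (Pf.C 1 0x2440d040008c) (Pf.C 0 0x2840c)) (Pf.C 1 0x2460a1a00083))) (Pf.C 0 0x34288)) (Pf.C 0 0x3428b))) (Pf.B 11 6 (Pf.B 8 6 (Pf.B 12 10 (Pf.B 11 10 (Pf.C 1 0x3058d0028083) (Pf.B 10 6 (Pf.C 1 0xc1011620506) (Pf.B 10 5 (Pf.B 12 9 (Pf.B 12 8 (Pf.C 1 0x2440a040008c) (Pf.C 1 0x8a1230403)) (Pf.B 12 8 (Pf.B 12 6 (Pf.C 1 0xc101101850c) (Pf.B 12 5 (Pf.C 1 0x8a0a30303) (Pf.C 0 98956))) (Pf.C 0 0x2440c))) (Pf.C 0 98954)))) (Pf.B 12 9 (Pf.B 12 8 (Pf.C 1 0x2440d040008c) (Pf.C 0 0x2840c)) (Pf.C 1 0x2460a1a00083))) (Pf.C 0 0x34308)) (Pf.C 0 0x3430b))) (Pf.C 0 0x3440b))) (Pf.B 13 8 (Pf.B 12 10 (Pf.B 12 9 (Pf.B 12 8 (Pf.C 1 0x2440a040008c) (Pf.C 1 0x8a1230403)) (Pf.C 1 0x3048d1400083)) (Pf.B 12 8 (Pf.B 12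 9 (Pf.C 1 0x2048d040008c) (Pf.C 1 0x8d1030483)) (Pf.C 0 0x2840c))) (Pf.C 0 0x2440d))) (Pf.C 0 17293)) (Pf.C 0 17677)))
 (Pq.cons (Pq.L [0,1,2,4] 511 (Pf.B 13 10 (Pf.B 13 7 (Pf.B 13 9 (Pf.B 13 8 (Pf.C 1 0x2440a0434084) (Pf.B 11 8 (Pf.B 13 6 (Pf.B 13 5 (Pf.C 1 0x182870434084) (Pf.B 11 5 (Pf.B 8 5 (Pf.B 12 10 (Pf.B 11 10 (Pf.C 1 0x3058d0428084) (Pf.B 10 5 (Pf.C 1 0x100011620505) (Pf.B 12 9 (Pf.B 12 8 (Pf.C 1 0x2440a040008c) (Pf.C 1 0x808a1230404)) (Pf.B 12 8 (Pf.B 12 5 (Pf.C 1 0x10001101450c) (Pf.B 12 7 (Pf.B 12 6 (Pf.C 1 0x80870c30284) (Pf.C 0 82700)) (Pf.C 0 82828))) (Pf.C 0 0x2440c))))) (Pf.B 12 9 (Pf.B 12 8 (Pf.C 1 0x2440d040008c) (Pf.C 0 0x2840c)) (Pf.C 1 0x2460a1a08084))) (Pf.C 0 0x34288)) (Pf.C 0 0x3428b)))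 (Pf.B 11 6 (Pf.B 8 6 (Pf.B 12 10 (Pf.B 11 10 (Pf.C 1 0x3058d0428084) (Pf.B 10 6 (Pf.C 1 0x100011620506) (Pf.B 10 5 (Pf.B 12 9 (Pf.B 12 8 (Pf.C 1 0x2440a040008c) (Pf.C 1 0x808a1230404)) (Pf.B 12 8 (Pf.B 12 6 (Pf.C 1 0x10001101850c) (Pf.B 12 5 (Pf.C 1 0x808a0a30304) (Pf.C 0 98956))) (Pf.C 0 0x2440c))) (Pf.C 0 98954)))) (Pf.B 12 9 (Pf.B 12 8 (Pf.C 1 0x2440d040008c) (Pf.C 0 0x2840c)) (Pf.C 1 0x2460a1a08084))) (Pf.C 0 0x34308)) (Pf.C 0 0x3430b))) (Pf.C 0 0x3440b))) (Pf.B 13 8 (Pf.B 12 10 (Pf.B 12 9 (Pf.B 12 8 (Pf.C 1 0x2440a040008c) (Pf.C 1 0x808a1230404)) (Pf.C 1 0x3048d1408084)) (Pf.B 12 8 (Pf.B 12 9 (Pf.C 1 0x2048d040008c) (Pf.C 1 0x808d1030484)) (Pf.C 0 0x2840c))) (Pf.C 0 0x2440d))) (Pf.C 0 17293)) (Pf.C 0 17677)))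
 (Pq.cons (Pq.L [0,1,2,4] 511 (Pf.B 13 10 (Pf.B 13 7 (Pf.B 13 9 (Pf.B 13 8 (Pf.C 1 0x2440a0834002) (Pf.B 11 8 (Pf.B 13 6 (Pf.B 13 5 (Pf.C 1 0x182870834002) (Pf.B 11 5 (Pf.B 8 5 (Pf.B 12 10 (Pf.B 11 10 (Pf.C 1 0x3058d0828002) (Pf.B 10 5 (Pf.C 1 0x80801620505) (Pf.B 12 9 (Pf.B 12 8 (Pf.C 1 0x2440a080400c) (Pf.C 1 0x1000a1230402)) (Pf.B 12 8 (Pf.B 12 5 (Pf.C 1 0x8080101450c) (Pf.B 12 7 (Pf.B 12 6 (Pf.C 1 0x100070c30282) (Pf.C 0 82700)) (Pf.C 0 82828))) (Pf.C 0 0x2440c))))) (Pf.B 12 9 (Pf.B 12 8 (Pf.C 1 0x2440d080400c) (Pf.C 0 0x2840c)) (Pf.C 1 0x2460a1a10002))) (Pf.C 0 0x34288)) (Pf.C 0 0x3428b))) (Pf.B 11 6 (Pf.B 8 6 (Pf.B 12 10 (Pf.B 11 10 (Pf.C 1 0x3058d0828002) (Pf.B 10 6 (Pf.C 1 0x80801620506) (Pf.B 10 5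 (Pf.B 12 9 (Pf.B 12 8 (Pf.C 1 0x2440a080400c) (Pf.C 1 0x1000a1230402)) (Pf.B 12 8 (Pf.B 12 6 (Pf.C 1 0x8080101850c) (Pf.B 12 5 (Pf.C 1 0x1000a0a30302) (Pf.C 0 98956))) (Pf.C 0 0x2440c))) (Pf.C 0 98954)))) (Pf.B 12 9 (Pf.B 12 8 (Pf.C 1 0x2440d080400c) (Pf.C 0 0x2840c)) (Pf.C 1 0x2460a1a10002))) (Pf.C 0 0x34308)) (Pf.C 0 0x3430b))) (Pf.C 0 0x3440b))) (Pf.B 13 8 (Pf.B 12 10 (Pf.B 12 9 (Pf.B 12 8 (Pf.C 1 0x2440a080400c) (Pf.C 1 0x1000a1230402)) (Pf.C 1 0x3048d1410002)) (Pf.B 12 8 (Pf.B 12 9 (Pf.C 1 0x2048d080400c) (Pf.C 1 0x1000d1030482)) (Pf.C 0 0x2840c))) (Pf.C 0 0x2440d))) (Pf.C 0 909)) (Pf.C 0 1293)))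
 (Pq.cons (Pq.L [0,1,2,3,4] 511 (Pf.B 13 10 (Pf.B 13 7 (Pf.B 13 9 (Pf.B 13 8 (Pf.C 1 0x2440a0234003) (Pf.B 11 8 (Pf.B 13 6 (Pf.B 13 5 (Pf.C 1 0x182870234003) (Pf.B 11 5 (Pf.B 8 5 (Pf.B 12 10 (Pf.B 11 10 (Pf.C 1 0x3058d0228003) (Pf.B 10 5 (Pf.C 1 0x101821620505) (Pf.B 12 9 (Pf.B 12 8 (Pf.C 1 0x2440a080400c) (Pf.C 1 0x400a1230403)) (Pf.B 12 8 (Pf.B 12 5 (Pf.C 1 0xc200101450c) (Pf.B 12 7 (Pf.B 12 6 (Pf.C 1 0x40070c30283) (Pf.C 0 82700)) (Pf.C 0 82828))) (Pf.C 0 0x2440c))))) (Pf.B 12 9 (Pf.B 12 8 (Pf.C 1 0x2440d080400c) (Pf.C 0 0x2840c)) (Pf.C 1 0x2460a1a04003))) (Pf.C 0 0x34288)) (Pf.C 0 0x3428b))) (Pf.B 11 6 (Pf.B 8 6 (Pf.B 12 10 (Pf.B 11 10 (Pf.C 1 0x3058d0228003) (Pf.B 10 6 (Pf.C 1 0xc2001620506) (Pf.B 10 5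 (Pf.B 12 9 (Pf.B 12 8 (Pf.C 1 0x2440a080400c) (Pf.C 1 0x400a1230403)) (Pf.B 12 8 (Pf.B 12 6 (Pf.C 1 0xc200101850c) (Pf.B 12 5 (Pf.C 1 0x400a0a30303) (Pf.C 0 98956))) (Pf.C 0 0x2440c))) (Pf.C 0 98954)))) (Pf.B 12 9 (Pf.B 12 8 (Pf.C 1 0x2440d080400c) (Pf.C 0 0x2840c)) (Pf.C 1 0x2460a1a04003))) (Pf.C 0 0x34308)) (Pf.C 0 0x3430b))) (Pf.C 0 0x3440b))) (Pf.B 13 8 (Pf.B 12 10 (Pf.B 12 9 (Pf.B 12 8 (Pf.C 1 0x2440a080400c) (Pf.C 1 0x400a1230403)) (Pf.C 1 0x3048d1404003)) (Pf.B 12 8 (Pf.B 12 9 (Pf.C 1 0x2048d080400c) (Pf.C 1 0x400d1030483)) (Pf.C 0 0x2840c))) (Pf.C 0 0x2440d))) (Pf.C 0 909)) (Pf.C 0 1293)))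
 (Pq.cons (Pq.L [1,2,3,4] 0 (Pf.B 10 8 (Pf.C 38 1288) (Pf.B 10 7 (Pf.B 9 8 (Pf.C 36 1160) (Pf.B 10 9 (Pf.B 8 7 (Pf.C 38 904) (Pf.B 9 7 (Pf.C 1 0xc209141c401) (Pf.C 0 0x20389))) (Pf.C 0 0x2048a))) (Pf.C 0 33674))))
 (Pq.cons (Pq.L [0,2,3,4] 7 (Pf.B 9 7 (Pf.B 9 6 (Pf.B 9 5 (Pf.C 36 1157) (Pf.C 1 0xc1070c24280)) (Pf.C 0 66313)) (Pf.C 0 66441)))
 (Pq.cons (Pq.L [0,1,2,4] 0 (Pf.B 10 8 (Pf.C 39 1288) (Pf.B 10 7 (Pf.B 9 8 (Pf.C 36 1160) (Pf.B 10 9 (Pf.B 8 7 (Pf.C 39 904) (Pf.B 9 7 (Pf.C 1 0x209141c402) (Pf.C 0 0x20389))) (Pf.C 0 0x2048a))) (Pf.C 0 17290))))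
 (Pq.cons (Pq.L [0,1,3,4] 7 (Pf.B 9 7 (Pf.B 9 6 (Pf.B 9 5 (Pf.C 36 1157) (Pf.C 1 0x870c24283)) (Pf.C 0 66313)) (Pf.C 0 66441)))
 (Pq.cons (Pq.L [0,2,3,4] 7 (Pf.B 9 6 (Pf.B 9 5 (Pf.C 36 1157) (Pf.B 9 7 (Pf.C 1 0x81870c24280) (Pf.C 0 82825))) (Pf.C 0 66313)))
 (Pq.cons (Pq.L [0,1,2,3] 47 (Pf.B 10 7 (Pf.B 9 5 (Pf.C 36 1157) (Pf.B 10 5 (Pf.B 9 7 (Pf.C 1 0x1448a041c180) (Pf.B 8 7 (Pf.B 8 6 (Pf.C 36 776) (Pf.B 8 5 (Pf.C 1 0x81870a20300) (Pf.C 0 98952))) (Pf.C 0 0x24388))) (Pf.C 0 0x2428a))) (Pf.C 0 17290)))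
 (Pq.cons (Pq.L [0,1,3,4] 63 (Pf.B 10 7 (Pf.B 9 6 (Pf.B 9 5 (Pf.C 36 1157) (Pf.B 8 6 (Pf.C 36 776) (Pf.B 8 5 (Pf.B 10 5 (Pf.C 1 0x281841014481) (Pf.B 10 6 (Pf.B 9 7 (Pf.C 1 0x1c18a0c24281) (Pf.B 8 7 (Pf.C 1 0x1c1840a20301) (Pf.C 0 0x24388))) (Pf.C 0 82698))) (Pf.C 0 98952)))) (Pf.C 0 66313)) (Pf.C 0 906)))
 (Pq.cons (Pq.L [0,1,3,4] 7 (Pf.B 9 6 (Pf.B 9 5 (Pf.C 36 1157) (Pf.B 9 7 (Pf.C 1 0x40070c24283) (Pf.C 0 82825))) (Pf.C 0 66313)))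
 (Pq.cons (Pq.L [0,1,3] 47 (Pf.B 10 7 (Pf.B 9 5 (Pf.C 36 1157) (Pf.B 10 5 (Pf.B 9 7 (Pf.C 1 0x1448a021c003) (Pf.B 8 7 (Pf.B 8 6 (Pf.C 36 776) (Pf.B 8 5 (Pf.C 1 0x40070a20303) (Pf.C 0 98952))) (Pf.C 0 0x24388))) (Pf.C 0 0x2428a))) (Pf.C 0 906)))
 (Pq.cons (Pq.L [0,2,3] 63 (Pf.B 10 7 (Pf.B 9 6 (Pf.B 9 5 (Pf.C 37 1157) (Pf.B 8 6 (Pf.C 37 776) (Pf.B 8 5 (Pf.B 10 5 (Pf.C 1 0x281031014480) (Pf.B 10 6 (Pf.B 9 7 (Pf.C 1 0x1c10a0c24280) (Pf.B 8 7 (Pf.C 1 0x1c1030a20300) (Pf.C 0 0x24388))) (Pf.C 0 82698))) (Pf.C 0 98952)))) (Pf.C 0 49929)) (Pf.C 0 33674)))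
 (Pq.cons (Pq.L [0,1,2,3] 0 (Pf.B 10 8 (Pf.C 39 1288) (Pf.B 10 7 (Pf.B 9 8 (Pf.C 37 1160) (Pf.B 10 9 (Pf.B 8 7 (Pf.C 39 904) (Pf.B 9 7 (Pf.C 1 0x8189141c400) (Pf.C 0 0x20389))) (Pf.C 0 0x2048a))) (Pf.C 0 17290))))
 (Pq.cons (Pq.L [0,2,3,4] 7 (Pf.B 9 6 (Pf.B 9 5 (Pf.C 37 1157) (Pf.B 9 7 (Pf.C 1 0x2070c24282) (Pf.C 0 82825))) (Pf.C 0 49929)))
 (Pq.cons (Pq.L [0,1,2,4] 47 (Pf.B 10 7 (Pf.B 9 5 (Pf.C 37 1157) (Pf.B 10 5 (Pf.B 9 7 (Pf.C 1 0x1448a001c202) (Pf.B 8 7 (Pf.B 8 6 (Pf.C 37 776) (Pf.B 8 5 (Pf.C 1 0x2070a20302) (Pf.C 0 98952))) (Pf.C 0 0x24388))) (Pf.C 0 0x2428a))) (Pf.C 0 17290)))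
 (Pq.cons (Pq.L [1,2,3,4] 7 (Pf.B 9 7 (Pf.B 9 6 (Pf.B 9 5 (Pf.C 37 1157) (Pf.C 1 0x80870c24284)) (Pf.C 0 49929)) (Pf.C 0 50057)))
 (Pq.cons (Pq.L [0,1,3,4] 0 (Pf.B 10 8 (Pf.C 40 1288) (Pf.B 10 7 (Pf.B 9 8 (Pf.C 37 1160) (Pf.B 10 9 (Pf.B 8 7 (Pf.C 40 904) (Pf.B 9 7 (Pf.C 1 0x10189141c401) (Pf.C 0 0x20389))) (Pf.C 0 0x2048a))) (Pf.C 0 906))))
 (Pq.cons (Pq.L [0,2,3,4] 7 (Pf.B 9 7 (Pf.B 9 6 (Pf.B 9 5 (Pf.C 37 1157) (Pf.C 1 0x100070c24282)) (Pf.C 0 49929)) (Pf.C 0 50057)))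
 (Pq.cons (Pq.L [1,2,3,4] 7 (Pf.B 9 6 (Pf.B 9 5 (Pf.C 37 1157) (Pf.B 9 7 (Pf.C 1 0x41070c24284) (Pf.C 0 82825))) (Pf.C 0 49929)))
 (Pq.cons (Pq.L [0,1,2,4] 47 (Pf.B 10 7 (Pf.B 9 5 (Pf.C 37 1157) (Pf.B 10 5 (Pf.B 9 7 (Pf.C 1 0x1448a021c104) (Pf.B 8 7 (Pf.B 8 6 (Pf.C 37 776) (Pf.B 8 5 (Pf.C 1 0x41070a20304) (Pf.C 0 98952))) (Pf.C 0 0x24388))) (Pf.C 0 0x2428a))) (Pf.C 0 906)))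
 (Pq.cons (Pq.L [1,2,3,4] 7 (Pf.B 9 7 (Pf.B 9 6 (Pf.B 9 5 (Pf.C 38 1157) (Pf.C 1 0xc2070c24281)) (Pf.C 0 33545)) (Pf.C 0 33673)))
 (Pq.cons (Pq.L [0,1,2,3] 7 (Pf.B 9 6 (Pf.B 9 5 (Pf.C 38 1157) (Pf.B 9 7 (Pf.C 1 0x870c24283) (Pf.C 0 82825))) (Pf.C 0 33545)))
 (Pq.cons (Pq.L [0,1,3] 47 (Pf.B 10 7 (Pf.B 9 5 (Pf.C 38 1157) (Pf.B 10 5 (Pf.B 9 7 (Pf.C 1 0x1448a001c083) (Pf.B 8 7 (Pf.B 8 6 (Pf.C 38 776) (Pf.B 8 5 (Pf.C 1 0x870a20303) (Pf.C 0 98952))) (Pf.C 0 0x24388))) (Pf.C 0 0x2428a))) (Pf.C 0 17290)))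
 (Pq.cons (Pq.L [0,1,2,3] 63 (Pf.B 10 7 (Pf.B 9 6 (Pf.B 9 5 (Pf.C 38 1157) (Pf.B 8 6 (Pf.C 38 776) (Pf.B 8 5 (Pf.B 10 5 (Pf.C 1 0x281821014480) (Pf.B 10 6 (Pf.B 9 7 (Pf.C 1 0x1c18a0c24280) (Pf.B 8 7 (Pf.C 1 0x1c1820a20300) (Pf.C 0 0x24388))) (Pf.C 0 82698))) (Pf.C 0 98952)))) (Pf.C 0 33545)) (Pf.C 0 17290)))
 (Pq.cons (Pq.L [0,1,2,4] 0 (Pf.B 10 8 (Pf.C 40 1288) (Pf.B 10 7 (Pf.B 9 8 (Pf.C 38 1160) (Pf.B 10 9 (Pf.B 8 7 (Pf.C 40 904) (Pf.B 9 7 (Pf.C 1 0x4109141c404) (Pf.C 0 0x20389))) (Pf.C 0 0x2048a))) (Pf.C 0 906))))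
 (Pq.cons (Pq.L [1,2,3,4] 7 (Pf.B 9 6 (Pf.B 9 5 (Pf.C 38 1157) (Pf.B 9 7 (Pf.C 1 0x101870c24281) (Pf.C 0 82825))) (Pf.C 0 33545)))
 (Pq.cons (Pq.L [0,1,3,4] 47 (Pf.B 10 7 (Pf.B 9 5 (Pf.C 38 1157) (Pf.B 10 5 (Pf.B 9 7 (Pf.C 1 0x1448a081c181) (Pf.B 8 7 (Pf.B 8 6 (Pf.C 38 776) (Pf.B 8 5 (Pf.C 1 0x101870a20301) (Pf.C 0 98952))) (Pf.C 0 0x24388))) (Pf.C 0 0x2428a))) (Pf.C 0 906)))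
 (Pq.cons (Pq.L [0,1,2,3] 7 (Pf.B 9 7 (Pf.B 9 6 (Pf.B 9 5 (Pf.C 38 1157) (Pf.C 1 0x40070c24283)) (Pf.C 0 33545)) (Pf.C 0 33673)))
 (Pq.cons (Pq.L [0,1,2,3] 7 (Pf.B 10 7 (Pf.B 10 5 (Pf.C 39 1285) (Pf.B 10 6 (Pf.C 1 0xc1060e28280) (Pf.C 0 82698))) (Pf.C 0 17290)))
 (Pq.cons (Pq.L [0,2,3] 7 (Pf.B 8 7 (Pf.C 39 904) (Pf.B 8 6 (Pf.B 8 5 (Pf.C 1 0xc1060a20380) (Pf.C 0 0x1c288)) (Pf.C 0 0x1c308))))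
 (Pq.cons (Pq.L [0,1,2,3,4] 7 (Pf.B 10 7 (Pf.B 10 6 (Pf.B 10 5 (Pf.C 1 0x182870028083) (Pf.C 1 0xc1060e28280)) (Pf.C 0 66314)) (Pf.C 0 17290)))
 (Pq.cons (Pq.L [0,1,2,3,4] 63 (Pf.B 10 7 (Pf.B 9 6 (Pf.B 10 6 (Pf.B 10 5 (Pf.C 1 0x143020e28180) (Pf.B 9 7 (Pf.B 9 5 (Pf.C 1 0x1828a0e00089) (Pf.C 1 0x1c18a0c24280)) (Pf.B 8 7 (Pf.B 8 6 (Pf.C 1 0x10302141c088) (Pf.C 1 0x20302141c180)) (Pf.C 0 0x24388)))) (Pf.B 10 5 (Pf.B 9 7 (Pf.B 9 5 (Pf.C 1 0x1430a0e00089) (Pf.C 1 0x14482141c180)) (Pf.B 8 7 (Pf.B 8 6 (Pf.C 1 0x283020e20480) (Pf.B 8 5 (Pf.C 1 0x1c1820a20300) (Pf.C 0 98952))) (Pf.C 0 0x24388))) (Pf.C 0 98954))) (Pf.C 0 33545)) (Pf.C 0 17290)))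
 (Pq.cons (Pq.L [0,1,2,3,4] 63 (Pf.B 10 7 (Pf.B 9 6 (Pf.B 10 6 (Pf.B 10 5 (Pf.B 9 5 (Pf.C 1 0x280800c24205) (Pf.B 9 7 (Pf.C 1 0x1c2890c0020a) (Pf.C 0 82825))) (Pf.B 9 5 (Pf.C 1 0x145030c24100) (Pf.B 9 7 (Pf.C 1 0x18109141c280) (Pf.C 0 82825)))) (Pf.B 8 6 (Pf.B 10 5 (Pf.B 9 7 (Pf.B 8 7 (Pf.C 1 0x43831218208) (Pf.C 1 0x203831218100)) (Pf.B 9 5 (Pf.C 1 0x185030a24380) (Pf.C 0 0x1c289))) (Pf.B 8 5 (Pf.B 8 7 (Pf.C 1 0x182030a04388) (Pf.C 1 0x181030a20380)) (Pf.C 0 0x28288))) (Pf.C 0 0x28308))) (Pf.C 0 33545)) (Pf.C 0 17290)))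
 (Pq.cons (Pq.L [0,1,3,4] 7 (Pf.B 10 7 (Pf.B 10 5 (Pf.C 40 1285) (Pf.B 10 6 (Pf.C 1 0xc2060e28281) (Pf.C 0 82698))) (Pf.C 0 906)))
 (Pq.cons (Pq.L [1,3,4] 7 (Pf.B 8 7 (Pf.C 40 904) (Pf.B 8 6 (Pf.B 8 5 (Pf.C 1 0xc2060a20381) (Pf.C 0 0x1c288)) (Pf.C 0 0x1c308))))
 (Pq.cons (Pq.L [0,1,2,3,4] 63 (Pf.B 10 7 (Pf.B 9 6 (Pf.B 10 6 (Pf.B 10 5 (Pf.C 1 0x143040e28181) (Pf.B 9 7 (Pf.B 9 5 (Pf.C 1 0x1828a0e04009) (Pf.C 1 0x1c18a0c24281)) (Pf.B 8 7 (Pf.B 8 6 (Pf.C 1 0x8304141c008) (Pf.C 1 0x20304141c181)) (Pf.C 0 0x24388)))) (Pf.B 10 5 (Pf.B 9 7 (Pf.B 9 5 (Pf.C 1 0x1430a0e04009) (Pf.C 1 0x14484141c181)) (Pf.B 8 7 (Pf.B 8 6 (Pf.C 1 0x283040e20481) (Pf.B 8 5 (Pf.C 1 0x1c1840a20301) (Pf.C 0 98952))) (Pf.C 0 0x24388))) (Pf.C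 0 98954))) (Pf.C 0 33545)) (Pf.C 0 906)))
 (Pq.cons (Pq.L [0,1,2,3,4] 63 (Pf.B 10 7 (Pf.B 9 6 (Pf.B 10 6 (Pf.B 10 5 (Pf.B 9 5 (Pf.C 1 0x280010c24105) (Pf.B 9 7 (Pf.C 1 0x1c2890c0410a) (Pf.C 0 82825))) (Pf.B 9 5 (Pf.C 1 0x145030c24201) (Pf.B 9 7 (Pf.C 1 0x18209141c281) (Pf.C 0 82825)))) (Pf.B 8 6 (Pf.B 10 5 (Pf.B 9 7 (Pf.B 8 7 (Pf.C 1 0x3831218108) (Pf.C 1 0x203831218201)) (Pf.B 9 5 (Pf.C 1 0x185030a24381) (Pf.C 0 0x1c289))) (Pf.B 8 5 (Pf.B 8 7 (Pf.C 1 0x181030a00388) (Pf.C 1 0x182030a20381)) (Pf.C 0 0x28288))) (Pf.C 0 0x28308))) (Pf.C 0 33545)) (Pf.C 0 906)))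
 (Pq.cons (Pq.L [0,1,2,3,4] 7 (Pf.B 10 7 (Pf.B 10 6 (Pf.B 10 5 (Pf.C 1 0x182870228003) (Pf.C 1 0xc2060e28281)) (Pf.C 0 33546)) (Pf.C 0 906)))
 (Pq.cons (Pq.L [0,1,2,4] 7 (Pf.B 9 7 (Pf.B 9 6 (Pf.B 9 5 (Pf.C 39 1157) (Pf.C 1 0x2070c24282)) (Pf.C 0 17161)) (Pf.C 0 17289)))
 (Pq.cons (Pq.L [0,1,2,3] 7 (Pf.B 9 7 (Pf.B 9 6 (Pf.B 9 5 (Pf.C 39 1157) (Pf.C 1 0x81870c24280)) (Pf.C 0 17161)) (Pf.C 0 17289)))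
 (Pq.cons (Pq.L [0,1,2,4] 7 (Pf.B 9 6 (Pf.B 9 5 (Pf.C 39 1157) (Pf.B 9 7 (Pf.C 1 0x100070c24282) (Pf.C 0 82825))) (Pf.C 0 17161)))
 (Pq.cons (Pq.L [0,2,4] 47 (Pf.B 10 7 (Pf.B 9 5 (Pf.C 39 1157) (Pf.B 10 5 (Pf.B 9 7 (Pf.C 1 0x1448a081c002) (Pf.B 8 7 (Pf.B 8 6 (Pf.C 39 776) (Pf.B 8 5 (Pf.C 1 0x100070a20302) (Pf.C 0 98952))) (Pf.C 0 0x24388))) (Pf.C 0 0x2428a))) (Pf.C 0 906)))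
 (Pq.cons (Pq.L [0,1,3] 63 (Pf.B 10 7 (Pf.B 9 6 (Pf.B 9 5 (Pf.C 39 1157) (Pf.B 8 6 (Pf.C 39 776) (Pf.B 8 5 (Pf.B 10 5 (Pf.C 1 0x280011014483) (Pf.B 10 6 (Pf.B 9 7 (Pf.C 1 0x1c00a0c24283) (Pf.B 8 7 (Pf.C 1 0x1c0010a20303) (Pf.C 0 0x24388))) (Pf.C 0 82698))) (Pf.C 0 98952)))) (Pf.C 0 17161)) (Pf.C 0 906)))
 (Pq.cons (Pq.L [0,1,2,3,4] 7 (Pf.B 10 7 (Pf.B 10 6 (Pf.B 10 5 (Pf.C 1 0x182870428180) (Pf.C 1 0x2060e28282)) (Pf.C 0 17162)) (Pf.C 0 17290)))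
 (Pq.cons (Pq.L [0,1,2,4] 63 (Pf.B 10 7 (Pf.B 10 5 (Pf.C 40 1285) (Pf.B 9 6 (Pf.B 8 7 (Pf.C 40 904) (Pf.B 8 5 (Pf.B 9 5 (Pf.C 1 0x242001014502) (Pf.B 9 7 (Pf.B 10 6 (Pf.C 1 0x182090e28282) (Pf.B 8 6 (Pf.C 1 0x182000a20382) (Pf.C 0 0x28308))) (Pf.C 0 82825))) (Pf.C 0 0x1c288))) (Pf.C 0 17161))) (Pf.C 0 906)))
 (Pq.cons (Pq.L [0,1,2,3,4] 63 (Pf.B 10 7 (Pf.B 9 6 (Pf.B 10 6 (Pf.B 10 5 (Pf.C 1 0x143040e28002) (Pf.B 9 7 (Pf.B 9 5 (Pf.C 1 0x1828a0e08189) (Pf.C 1 0x1c00a0c24282)) (Pf.B 8 7 (Pf.B 8 6 (Pf.C 1 0x4304141c188) (Pf.C 1 0x20304141c002)) (Pf.C 0 0x24388)))) (Pf.B 10 5 (Pf.B 9 7 (Pf.B 9 5 (Pf.C 1 0x1430a0e08189) (Pf.C 1 0x14484141c002)) (Pf.B 8 7 (Pf.B 8 6 (Pf.C 1 0x283040e20482) (Pf.B 8 5 (Pf.C 1 0x1c0040a20302)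 (Pf.C 0 98952))) (Pf.C 0 0x24388))) (Pf.C 0 98954))) (Pf.C 0 17161)) (Pf.C 0 906)))
 (Pq.cons (Pq.L [0,1,2,3,4] 63 (Pf.B 10 7 (Pf.B 9 6 (Pf.B 10 6 (Pf.B 10 5 (Pf.B 9 5 (Pf.C 1 0x281820c24085) (Pf.B 9 7 (Pf.C 1 0x1c2890c0808a) (Pf.C 0 82825))) (Pf.B 9 5 (Pf.C 1 0x145000c24202) (Pf.B 9 7 (Pf.C 1 0x18209141c282) (Pf.C 0 82825)))) (Pf.B 8 6 (Pf.B 10 5 (Pf.B 9 7 (Pf.B 8 7 (Pf.C 1 0xc3801218088) (Pf.C 1 0x203801218202)) (Pf.B 9 5 (Pf.C 1 0x185000a24382) (Pf.C 0 0x1c289))) (Pf.B 8 5 (Pf.B 8 7 (Pf.C 1 0x180800a0c388) (Pf.C 1 0x182000a20382)) (Pf.C 0 0x28288))) (Pf.C 0 0x28308))) (Pf.C 0 17161)) (Pf.C 0 906)))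
 (Pq.cons (Pq.L [0,1,2,3,4] 63 (Pf.B 10 7 (Pf.B 9 6 (Pf.B 10 6 (Pf.B 10 5 (Pf.C 1 0x143010e28003) (Pf.B 9 7 (Pf.B 9 5 (Pf.C 1 0x1828a0e0c109) (Pf.C 1 0x1c00a0c24283)) (Pf.B 8 7 (Pf.B 8 6 (Pf.C 1 0x10301141c108) (Pf.C 1 0x20301141c003)) (Pf.C 0 0x24388)))) (Pf.B 10 5 (Pf.B 9 7 (Pf.B 9 5 (Pf.C 1 0x1430a0e0c109) (Pf.C 1 0x14481141c003)) (Pf.B 8 7 (Pf.B 8 6 (Pf.C 1 0x283010e20483) (Pf.B 8 5 (Pf.C 1 0x1c0010a20303) (Pf.C 0 98952))) (Pf.C 0 0x24388))) (Pf.C 0 98954))) (Pf.C 0 17161)) (Pf.C 0 906)))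
 (Pq.cons (Pq.L [0,1,2,3,4] 63 (Pf.B 10 7 (Pf.B 9 6 (Pf.B 10 6 (Pf.B 10 5 (Pf.B 9 5 (Pf.C 1 0x281030c24205) (Pf.B 9 7 (Pf.C 1 0x1c2890c0c20a) (Pf.C 0 82825))) (Pf.B 9 5 (Pf.C 1 0x145000c24083) (Pf.B 9 7 (Pf.C 1 0x18089141c283) (Pf.C 0 82825)))) (Pf.B 8 6 (Pf.B 10 5 (Pf.B 9 7 (Pf.B 8 7 (Pf.C 1 0x83801218208) (Pf.C 1 0x203801218083)) (Pf.B 9 5 (Pf.C 1 0x185000a24383) (Pf.C 0 0x1c289))) (Pf.B 8 5 (Pf.B 8 7 (Pf.C 1 0x182000a08388) (Pf.C 1 0x180800a20383)) (Pf.C 0 0x28288))) (Pf.C 0 0x28308))) (Pf.C 0 17161)) (Pf.C 0 906)))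
 (Pq.cons (Pq.L [0,1,2,4] 7 (Pf.B 10 7 (Pf.B 10 5 (Pf.C 40 1285) (Pf.B 10 6 (Pf.C 1 0x80860e28284) (Pf.C 0 82698))) (Pf.C 0 906)))
 (Pq.cons (Pq.L [1,2,4] 7 (Pf.B 8 7 (Pf.C 40 904) (Pf.B 8 6 (Pf.B 8 5 (Pf.C 1 0x80860a20384) (Pf.C 0 0x1c288)) (Pf.C 0 0x1c308))))
 (Pq.cons (Pq.L [0,1,2,3,4] 7 (Pf.B 10 7 (Pf.B 10 6 (Pf.B 10 5 (Pf.C 1 0x182870828002) (Pf.C 1 0x80860e28284)) (Pf.C 0 49930)) (Pf.C 0 906)))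
 (Pq.cons (Pq.L [0,1,2,3,4] 63 (Pf.B 10 7 (Pf.B 9 6 (Pf.B 10 6 (Pf.B 10 5 (Pf.C 1 0x143010e28104) (Pf.B 9 7 (Pf.B 9 5 (Pf.C 1 0x1828a0e10009) (Pf.C 1 0x1c10a0c24284)) (Pf.B 8 7 (Pf.B 8 6 (Pf.C 1 0xc301141c008) (Pf.C 1 0x20301141c104)) (Pf.C 0 0x24388)))) (Pf.B 10 5 (Pf.B 9 7 (Pf.B 9 5 (Pf.C 1 0x1430a0e10009) (Pf.C 1 0x14481141c104)) (Pf.B 8 7 (Pf.B 8 6 (Pf.C 1 0x283010e20484) (Pf.B 8 5 (Pf.C 1 0x1c1010a20304) (Pf.C 0 98952))) (Pf.C 0 0x24388))) (Pf.C 0 98954))) (Pf.C 0 17161)) (Pf.C 0 906)))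
 (Pq.cons (Pq.L [0,1,2,3,4] 63 (Pf.B 10 7 (Pf.B 9 6 (Pf.B 10 6 (Pf.B 10 5 (Pf.B 9 5 (Pf.C 1 0x280040c24185) (Pf.B 9 7 (Pf.C 1 0x1c2890c1018a) (Pf.C 0 82825))) (Pf.B 9 5 (Pf.C 1 0x145020c24084) (Pf.B 9 7 (Pf.C 1 0x18089141c284) (Pf.C 0 82825)))) (Pf.B 8 6 (Pf.B 10 5 (Pf.B 9 7 (Pf.B 8 7 (Pf.C 1 0x3821218188) (Pf.C 1 0x203821218084)) (Pf.B 9 5 (Pf.C 1 0x185020a24384) (Pf.C 0 0x1c289))) (Pf.B 8 5 (Pf.B 8 7 (Pf.C 1 0x181820a00388) (Pf.C 1 0x180820a20384)) (Pf.C 0 0x28288))) (Pf.C 0 0x28308))) (Pf.C 0 17161)) (Pf.C 0 906)))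
 (Pq.cons (Pq.L [0,1,3,4] 7 (Pf.B 9 7 (Pf.B 9 6 (Pf.B 9 5 (Pf.C 40 1157) (Pf.C 1 0x101870c24281)) (Pf.C 0 777)) (Pf.C 0 905)))
 (Pq.cons (Pq.L [0,1,2,4] 7 (Pf.B 9 7 (Pf.B 9 6 (Pf.B 9 5 (Pf.C 40 1157) (Pf.C 1 0x41070c24284)) (Pf.C 0 777)) (Pf.C 0 905)))
 (Pq.cons (Pq.L [0,1,2,3,4] 7 (Pf.B 10 7 (Pf.B 10 6 (Pf.B 10 5 (Pf.C 1 0x182870228104) (Pf.C 1 0x101860e28281)) (Pf.C 0 778)) (Pf.C 0 906)))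
 (Pq.cons (Pq.L [0,2,3,4] 7 (Pf.B 8 7 (Pf.B 8 6 (Pf.C 41 776) (Pf.B 8 5 (Pf.C 1 0x1c1030a20300) (Pf.C 0 66184))) (Pf.C 0 66440)))
 (Pq.cons (Pq.L [0,2,3,4] 7 (Pf.B 9 7 (Pf.B 9 6 (Pf.B 9 5 (Pf.C 41 1157) (Pf.C 1 0x1c0040c24282)) (Pf.C 0 49929)) (Pf.C 0 50057)))
 (Pq.cons (Pq.L [0,1,2,3,4] 511 (Pf.B 13 10 (Pf.B 13 7 (Pf.B 12 9 (Pf.B 12 6 (Pf.B 11 8 (Pf.B 11 5 (Pf.B 10 7 (Pf.B 9 6 (Pf.B 8 5 (Pf.B 13 9 (Pf.B 13 8 (Pf.C 1 0x202001434089) (Pf.B 12 8 (Pf.C 1 0x206831230100) (Pf.B 12 10 (Pf.C 1 0x2808d0830409) (Pf.B 12 5 (Pf.B 12 7 (Pf.B 11 7 (Pf.C 1 0x43830a2c20c) (Pf.B 11 10 (Pf.B 11 9 (Pf.C 1 0x30503002c209) (Pf.C 1 0x848b100020a)) (Pf.C 1 0x860a0e1058d))) (Pf.C 1 0x142030230386)) (Pf.C 1 0x82101460b))))) (Pf.B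 13 6 (Pf.B 13 5 (Pf.C 1 0x142000e34086) (Pf.B 12 5 (Pf.C 1 0x146830c30100) (Pf.B 12 8 (Pf.B 12 10 (Pf.B 12 7 (Pf.C 1 0x1c08d0830286) (Pf.B 11 10 (Pf.C 1 0x4503102c20c) (Pf.B 11 9 (Pf.C 1 0x24683002c20c) (Pf.B 11 7 (Pf.B 11 6 (Pf.C 1 0x30383002c206) (Pf.C 1 0x4689081858c)) (Pf.C 1 0x8607141058d))))) (Pf.C 1 0x202030230509)) (Pf.C 1 0x820a2060b)))) (Pf.C 1 0x10001121868c))) (Pf.C 0 66184)) (Pf.C 0 33545)) (Pf.C 0 17290)) (Pf.C 0 66187)) (Pf.C 0 66571)) (Pf.C 0 33548)) (Pf.C 0 33932)) (Pf.C 0 17293)) (Pf.C 0 17677)))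
 (Pq.cons (Pq.L [0,1,2,3,4] 63 (Pf.B 10 7 (Pf.B 9 6 (Pf.B 10 6 (Pf.B 10 5 (Pf.C 1 0x143020e28180) (Pf.B 9 7 (Pf.B 9 5 (Pf.C 1 0x1c08a0c10289) (Pf.C 1 0x1c18a0c24280)) (Pf.B 8 7 (Pf.C 1 0x208041c48a) (Pf.C 0 0x24388)))) (Pf.B 10 5 (Pf.C 1 0x2050428307) (Pf.C 0 98954))) (Pf.C 0 33545)) (Pf.C 0 17290)))
 (Pq.cons (Pq.L [0,1,2,3,4] 511 (Pf.B 13 10 (Pf.B 13 7 (Pf.B 12 9 (Pf.B 12 6 (Pf.B 11 8 (Pf.B 11 5 (Pf.B 10 7 (Pf.B 9 6 (Pf.B 8 5 (Pf.B 13 9 (Pf.B 11 9 (Pf.C 1 0x2c6831824100) (Pf.B 11 6 (Pf.B 11 7 (Pf.B 12 7 (Pf.B 12 5 (Pf.C 1 0x143830c30100) (Pf.B 12 8 (Pf.B 13 8 (Pf.B 12 10 (Pf.C 1 0x205031230100) (Pf.B 11 10 (Pf.C 1 0x2c6831820500) (Pf.C 1 0x860a1a10587))) (Pf.C 1 0x301031620680)) (Pf.C 1 0x820a2060b))) (Pf.C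 1 0x2c2030230386)) (Pf.C 1 0x181030a2c380)) (Pf.C 1 0x4004121858c))) (Pf.B 11 9 (Pf.B 11 10 (Pf.B 12 10 (Pf.B 12 8 (Pf.C 1 0x205031230100) (Pf.B 12 5 (Pf.B 13 5 (Pf.B 12 7 (Pf.C 1 0x143830c30100) (Pf.B 11 7 (Pf.C 1 0x2c6831814380) (Pf.C 1 0x86071a1058a))) (Pf.C 1 0x301031614680)) (Pf.C 1 0x82101460b))) (Pf.C 1 0x2c2030230509)) (Pf.C 1 0x24103102c500)) (Pf.C 0 0x3448b))) (Pf.C 0 66184)) (Pf.C 0 33545)) (Pf.C 0 17290)) (Pf.C 0 66187)) (Pf.C 0 66571)) (Pf.C 0 33548)) (Pf.C 0 33932)) (Pf.C 0 17293)) (Pf.C 0 17677)))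
 (Pq.cons (Pq.L [0,1,2,3,4] 511 (Pf.B 13 10 (Pf.B 13 7 (Pf.B 12 9 (Pf.B 12 6 (Pf.B 11 8 (Pf.B 11 5 (Pf.B 10 7 (Pf.B 9 6 (Pf.B 8 5 (Pf.B 13 9 (Pf.B 13 8 (Pf.C 1 0x241011434008) (Pf.B 11 9 (Pf.C 1 0x20683022410b) (Pf.C 1 0x10589180410d))) (Pf.B 13 8 (Pf.B 11 9 (Pf.C 1 0x24683102c201) (Pf.B 11 10 (Pf.C 1 0x2800d042c488) (Pf.B 11 6 (Pf.B 13 6 (Pf.C 1 0x683181810b) (Pf.B 13 5 (Pf.C 1 0x186831614201) (Pf.B 12 5 (Pf.C 1 0x14683023010b) (Pf.B 12 8 (Pf.B 12 10 (Pf.C 1 0x2c5030230108) (Pf.B 12 7 (Pf.C 1 0x1028c0c04107) (Pf.B 11 7 (Pf.C 1 0x1058a041c60d) (Pf.C 1 0x18103002c385)))) (Pf.C 1 0x685042060b))))) (Pf.C 1 0x4004121858c)))) (Pf.B 13 5 (Pf.B 12 8 (Pf.C 1 0x20683023010b) (Pf.B 12 10 (Pf.C 1 0x1040c120410a) (Pf.B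 12 5 (Pf.B 12 7 (Pf.C 1 0x3830c30105) (Pf.B 11 7 (Pf.C 1 0x303830a2c201) (Pf.B 11 10 (Pf.C 1 0x10587042860d) (Pf.B 11 9 (Pf.C 1 0x24683182c501) (Pf.B 11 6 (Pf.C 1 0x18103002c385) (Pf.C 1 0x4004121858c)))))) (Pf.C 1 0x688041460b)))) (Pf.C 1 0x8080101468b)))) (Pf.C 0 66184)) (Pf.C 0 33545)) (Pf.C 0 906)) (Pf.C 0 66187)) (Pf.C 0 66571)) (Pf.C 0 33548)) (Pf.C 0 33932)) (Pf.C 0 909)) (Pf.C 0 1293)))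
 (Pq.cons (Pq.L [0,1,2,3,4] 63 (Pf.B 10 7 (Pf.B 9 6 (Pf.B 8 5 (Pf.B 10 6 (Pf.B 10 5 (Pf.C 1 0x182840e28181) (Pf.C 1 0x41060828287)) (Pf.B 10 5 (Pf.B 9 7 (Pf.B 9 5 (Pf.C 1 0x182840e04009) (Pf.C 1 0x1c1840c24281)) (Pf.B 8 7 (Pf.B 9 5 (Pf.C 1 0x280071008485) (Pf.C 1 0x281871014481)) (Pf.C 0 0x24388))) (Pf.C 0 98954))) (Pf.C 0 66184)) (Pf.C 0 33545)) (Pf.C 0 906)))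
 (Pq.cons (Pq.L [0,1,2,3,4] 511 (Pf.B 13 10 (Pf.B 13 7 (Pf.B 12 9 (Pf.B 12 6 (Pf.B 11 8 (Pf.B 11 5 (Pf.B 10 7 (Pf.B 9 6 (Pf.B 8 5 (Pf.B 13 9 (Pf.B 13 8 (Pf.B 12 8 (Pf.C 1 0x306831620201) (Pf.B 12 5 (Pf.B 13 5 (Pf.C 1 0x306831614201) (Pf.B 12 7 (Pf.B 13 6 (Pf.C 1 0x183831814681) (Pf.B 11 7 (Pf.B 11 6 (Pf.C 1 0x183830a2c201) (Pf.B 11 9 (Pf.B 11 10 (Pf.C 1 0x24503102c201) (Pf.B 12 10 (Pf.C 1 0x306831624501) (Pf.C 1 0x1058a1a08607))) (Pf.C 1 0x306860824581))) (Pf.C 1 0x30103002c385))) (Pf.C 1 0x142030c30381))) (Pf.C 1 0x82101460b))) (Pf.B 12 8 (Pf.B 12 10 (Pf.C 1 0x245031030681) (Pf.C 1 0x202031230501)) (Pf.C 0 0x3440c))) (Pf.B 11 9 (Pf.C 1 0x2c2031824681) (Pf.B 11 10 (Pf.B 13 8 (Pf.C 1 0x2020b1434481) (Pf.B 12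 8 (Pf.B 12 10 (Pf.B 11 6 (Pf.B 13 6 (Pf.B 11 7 (Pf.C 1 0x183830a2c201) (Pf.B 12 7 (Pf.C 1 0x306831618381) (Pf.C 1 0x105871a0860a))) (Pf.C 1 0x2c2031818681)) (Pf.C 1 0x4004121858c)) (Pf.C 1 0x202031230501)) (Pf.C 0 0x3440c))) (Pf.C 0 0x2450b)))) (Pf.C 0 66184)) (Pf.C 0 33545)) (Pf.C 0 906)) (Pf.C 0 66187)) (Pf.C 0 66571)) (Pf.C 0 33548)) (Pf.C 0 33932)) (Pf.C 0 909)) (Pf.C 0 1293)))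
 (Pq.cons (Pq.L [0,1,2,3,4] 63 (Pf.B 10 7 (Pf.B 9 6 (Pf.B 9 5 (Pf.B 9 7 (Pf.C 1 0x143830c24100) (Pf.B 8 6 (Pf.B 10 6 (Pf.C 1 0x205031218100) (Pf.B 8 7 (Pf.C 1 0x243830c20500) (Pf.B 8 5 (Pf.C 1 0x181030a20380) (Pf.C 0 66184)))) (Pf.C 0 66312))) (Pf.C 0 66185)) (Pf.C 0 33545)) (Pf.C 0 17290)))
 (Pq.cons (Pq.L [0,1,2,3,4] 63 (Pf.B 10 7 (Pf.B 9 6 (Pf.B 9 5 (Pf.B 9 7 (Pf.C 1 0x3830c24105) (Pf.B 8 6 (Pf.B 10 6 (Pf.C 1 0x5031218108) (Pf.B 8 7 (Pf.B 8 5 (Pf.C 1 0x41060a20207) (Pf.C 0 66184)) (Pf.C 1 0x185031220381))) (Pf.C 0 66312))) (Pf.C 0 66185)) (Pf.C 0 33545)) (Pf.C 0 906)))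
 (Pq.cons (Pq.L [0,1,2,3,4] 511 (Pf.B 13 10 (Pf.B 13 7 (Pf.B 12 9 (Pf.B 12 6 (Pf.B 11 8 (Pf.B 11 5 (Pf.B 10 7 (Pf.B 9 6 (Pf.B 8 5 (Pf.B 13 9 (Pf.B 13 8 (Pf.C 1 0x240821434188) (Pf.B 11 9 (Pf.C 1 0x20680042408b) (Pf.C 1 0x10589180808d))) (Pf.B 13 8 (Pf.B 11 9 (Pf.C 1 0x24680102c202) (Pf.B 11 10 (Pf.C 1 0x2818d022c488) (Pf.B 11 6 (Pf.B 13 6 (Pf.C 1 0xc680181808b) (Pf.B 13 5 (Pf.C 1 0x186801614202) (Pf.B 12 5 (Pf.C 1 0x14680043008b) (Pf.B 12 8 (Pf.B 12 10 (Pf.C 1 0x2c5000430088) (Pf.B 12 7 (Pf.C 1 0x1028c0c08087) (Pf.B 11 7 (Pf.C 1 0x1058a021c60d) (Pf.C 1 0x18080062c385)))) (Pf.C 1 0xc685022060b))))) (Pf.C 1 0x8184121858c)))) (Pf.B 13 5 (Pf.B 12 8 (Pf.C 1 0x20680043008b) (Pf.B 12 10 (Pf.C 1 0x1040c120808a) (Pf.B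 12 5 (Pf.B 12 7 (Pf.C 1 0xc3800c30085) (Pf.B 11 7 (Pf.C 1 0x303800a2c202) (Pf.B 11 10 (Pf.C 1 0x10587022860d) (Pf.B 11 9 (Pf.C 1 0x24680182c502) (Pf.B 11 6 (Pf.C 1 0x18080062c385) (Pf.C 1 0x8184121858c)))))) (Pf.C 1 0xc688021460b)))) (Pf.C 1 0x8080101468b)))) (Pf.C 0 66184)) (Pf.C 0 17161)) (Pf.C 0 906)) (Pf.C 0 66187)) (Pf.C 0 66571)) (Pf.C 0 17164)) (Pf.C 0 17548)) (Pf.C 0 909)) (Pf.C 0 1293)))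
 (Pq.cons (Pq.L [0,1,2,3,4] 63 (Pf.B 10 7 (Pf.B 9 6 (Pf.B 8 5 (Pf.B 10 6 (Pf.B 10 5 (Pf.C 1 0x182840e28002) (Pf.C 1 0x80860828287)) (Pf.B 10 5 (Pf.B 9 7 (Pf.B 9 5 (Pf.C 1 0x182840e08189) (Pf.C 1 0x1c0040c24282)) (Pf.B 8 7 (Pf.B 9 5 (Pf.C 1 0x281871004485) (Pf.C 1 0x280071014482)) (Pf.C 0 0x24388))) (Pf.C 0 98954))) (Pf.C 0 66184)) (Pf.C 0 17161)) (Pf.C 0 906)))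
 Pq.nil))))))))))))))))))))))))))))))))))))))))))))))))))))))))))))))))))))))))
theorem d_o37 : AllRef d_T d_G26 (List.take 72 (hitObl [57,59,60,62,63,64,65,66,67,68,69] d_h46)) :=
  chkPq_sound d_o37c _ (by decide +kernel)
noncomputable def d_o38c : Pq := (Pq.cons (Pq.L [0,1,2,3,4] 511 (Pf.B 13 10 (Pf.B 13 7 (Pf.B 12 9 (Pf.B 12 6 (Pf.B 11 8 (Pf.B 11 5 (Pf.B 10 7 (Pf.B 9 6 (Pf.B 8 5 (Pf.B 13 9 (Pf.B 13 8 (Pf.B 12 8 (Pf.C 1 0x306801620202) (Pf.B 12 5 (Pf.B 13 5 (Pf.C 1 0x306801614202) (Pf.B 12 7 (Pf.B 13 6 (Pf.C 1 0x183801814682) (Pf.B 11 7 (Pf.B 11 6 (Pf.C 1 0x183800a2c202) (Pf.B 11 9 (Pf.B 11 10 (Pf.C 1 0x24500102c202) (Pf.B 12 10 (Pf.C 1 0x306801624502) (Pf.C 1 0x1058a1a04607))) (Pf.C 1 0x306860824582)))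 (Pf.C 1 0x30080062c385))) (Pf.C 1 0x142000c30382))) (Pf.C 1 0xc101101460b))) (Pf.B 12 8 (Pf.B 12 10 (Pf.C 1 0x245001030682) (Pf.C 1 0x202001230502)) (Pf.C 0 0x3440c))) (Pf.B 11 9 (Pf.C 1 0x2c2001824682) (Pf.B 11 10 (Pf.B 13 8 (Pf.C 1 0x2020b1434482) (Pf.B 12 8 (Pf.B 12 10 (Pf.B 11 6 (Pf.B 13 6 (Pf.B 11 7 (Pf.C 1 0x183800a2c202) (Pf.B 12 7 (Pf.C 1 0x306801618382) (Pf.C 1 0x105871a0460a))) (Pf.C 1 0x2c2001818682)) (Pf.C 1 0x8184121858c)) (Pf.C 1 0x202001230502)) (Pf.C 0 0x3440c))) (Pf.C 0 0x2450b)))) (Pf.C 0 66184)) (Pf.C 0 17161)) (Pf.C 0 906)) (Pf.C 0 66187)) (Pf.C 0 66571)) (Pf.C 0 17164)) (Pf.C 0 17548)) (Pf.C 0 909)) (Pf.C 0 1293)))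
 (Pq.cons (Pq.L [0,1,2,3,4] 511 (Pf.B 13 10 (Pf.B 13 7 (Pf.B 12 9 (Pf.B 12 6 (Pf.B 11 8 (Pf.B 11 5 (Pf.B 10 7 (Pf.B 9 6 (Pf.B 8 5 (Pf.B 13 9 (Pf.B 13 8 (Pf.C 1 0x202031434109) (Pf.B 12 8 (Pf.C 1 0x206801230083) (Pf.B 12 10 (Pf.C 1 0x2810d0830409) (Pf.B 12 5 (Pf.B 12 7 (Pf.B 11 7 (Pf.C 1 0x83800a2c20c) (Pf.B 11 10 (Pf.B 11 9 (Pf.C 1 0x30500062c209) (Pf.C 1 0x448b100c20a)) (Pf.C 1 0x460a0e1058d))) (Pf.C 1 0x142000430386)) (Pf.C 1 0xc101101460b))))) (Pf.B 13 6 (Pf.B 13 5 (Pf.C 1 0x142030e34106) (Pf.B 12 5 (Pf.C 1 0x146800c30083) (Pf.B 12 8 (Pf.B 12 10 (Pf.B 12 7 (Pf.C 1 0x1c10d0830286) (Pf.B 11 10 (Pf.C 1 0x8500102c20c) (Pf.B 11 9 (Pf.C 1 0x24680062c20c) (Pf.B 11 7 (Pf.B 11 6 (Pf.C 1 0x30380062c206) (Pf.C 1 0x8689081858c))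 (Pf.C 1 0x4607141058d))))) (Pf.C 1 0x202000430509)) (Pf.C 1 0xc1010a2060b)))) (Pf.C 1 0xc200121868c))) (Pf.C 0 66184)) (Pf.C 0 17161)) (Pf.C 0 906)) (Pf.C 0 66187)) (Pf.C 0 66571)) (Pf.C 0 17164)) (Pf.C 0 17548)) (Pf.C 0 909)) (Pf.C 0 1293)))
 (Pq.cons (Pq.L [0,1,2,3,4] 63 (Pf.B 10 7 (Pf.B 9 6 (Pf.B 10 6 (Pf.B 10 5 (Pf.C 1 0x143010e28003) (Pf.B 9 7 (Pf.B 9 5 (Pf.C 1 0x1c10a0c10289) (Pf.C 1 0x1c00a0c24283)) (Pf.B 8 7 (Pf.C 1 0xc208021c48a) (Pf.C 0 0x24388)))) (Pf.B 10 5 (Pf.C 1 0xc2050228307) (Pf.C 0 98954))) (Pf.C 0 17161)) (Pf.C 0 906)))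
 (Pq.cons (Pq.L [0,1,2,3,4] 511 (Pf.B 13 10 (Pf.B 13 7 (Pf.B 12 9 (Pf.B 12 6 (Pf.B 11 8 (Pf.B 11 5 (Pf.B 10 7 (Pf.B 9 6 (Pf.B 8 5 (Pf.B 13 9 (Pf.B 11 9 (Pf.C 1 0x2c6801824083) (Pf.B 11 6 (Pf.B 11 7 (Pf.B 12 7 (Pf.B 12 5 (Pf.C 1 0x143800c30083) (Pf.B 12 8 (Pf.B 13 8 (Pf.B 12 10 (Pf.C 1 0x205001230083) (Pf.B 11 10 (Pf.C 1 0x2c6801820503) (Pf.C 1 0x460a1a10587))) (Pf.C 1 0x300801620683)) (Pf.C 1 0xc1010a2060b))) (Pf.C 1 0x2c2000430386)) (Pf.C 1 0x180800a2c383)) (Pf.C 1 0x8184121858c))) (Pf.B 11 9 (Pf.B 11 10 (Pf.B 12 10 (Pf.B 12 8 (Pf.C 1 0x205001230083) (Pf.B 12 5 (Pf.B 13 5 (Pf.B 12 7 (Pf.C 1 0x143800c30083) (Pf.B 11 7 (Pf.C 1 0x2c6801814383) (Pf.C 1 0x46071a1058a))) (Pf.C 1 0x300801614683)) (Pf.C 1 0xc101101460b)))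 (Pf.C 1 0x2c2000430509)) (Pf.C 1 0x24080102c503)) (Pf.C 0 0x3448b))) (Pf.C 0 66184)) (Pf.C 0 17161)) (Pf.C 0 906)) (Pf.C 0 66187)) (Pf.C 0 66571)) (Pf.C 0 17164)) (Pf.C 0 17548)) (Pf.C 0 909)) (Pf.C 0 1293)))
 (Pq.cons (Pq.L [0,1,3,4] 7 (Pf.B 8 7 (Pf.C 42 904) (Pf.B 8 6 (Pf.B 8 5 (Pf.C 1 0x180800a20383) (Pf.C 0 66184)) (Pf.C 0 66312))))
 (Pq.cons (Pq.L [0,1,2,3,4] 63 (Pf.B 10 7 (Pf.B 9 6 (Pf.B 9 5 (Pf.B 9 7 (Pf.C 1 0xc3800c24085) (Pf.B 8 6 (Pf.B 10 6 (Pf.C 1 0xc5001218088) (Pf.B 8 7 (Pf.B 8 5 (Pf.C 1 0x80860a20207) (Pf.C 0 66184)) (Pf.C 1 0x185001220382))) (Pf.C 0 66312))) (Pf.C 0 66185)) (Pf.C 0 17161)) (Pf.C 0 906)))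
 (Pq.cons (Pq.L [0,1,3,4] 63 (Pf.B 10 7 (Pf.B 9 6 (Pf.B 9 5 (Pf.B 9 7 (Pf.C 1 0x143800c24083) (Pf.B 8 6 (Pf.B 10 6 (Pf.C 1 0x205001218083) (Pf.B 8 7 (Pf.C 1 0x243800c20503) (Pf.B 8 5 (Pf.C 1 0x180800a20383) (Pf.C 0 66184)))) (Pf.C 0 66312))) (Pf.C 0 66185)) (Pf.C 0 17161)) (Pf.C 0 906)))
 (Pq.cons (Pq.L [0,1,2,3,4] 7 (Pf.B 10 7 (Pf.B 10 6 (Pf.B 10 5 (Pf.C 1 0x182840e28002) (Pf.C 1 0x80860828287)) (Pf.C 0 49930)) (Pf.C 0 906)))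
 (Pq.cons (Pq.L [0,1,2,3,4] 511 (Pf.B 13 10 (Pf.B 13 7 (Pf.B 12 9 (Pf.B 12 6 (Pf.B 11 8 (Pf.B 11 5 (Pf.B 10 7 (Pf.B 9 6 (Pf.B 13 9 (Pf.B 11 9 (Pf.C 1 0x682182418b) (Pf.B 13 6 (Pf.B 11 6 (Pf.C 1 0x682181818b) (Pf.C 1 0x34004121858c)) (Pf.B 11 6 (Pf.C 1 0x2c200041868c) (Pf.C 1 0x8686121058c)))) (Pf.B 11 9 (Pf.C 1 0x2c200042468c) (Pf.B 11 10 (Pf.C 1 0x28001062c488) (Pf.B 13 6 (Pf.B 11 6 (Pf.C 1 0x682181818b) (Pf.C 1 0x8689081858c)) (Pf.B 11 6 (Pf.C 1 0x10589041868c) (Pf.B 11 7 (Pf.C 1 0x1c001062c305) (Pf.B 10 6 (Pf.B 12 10 (Pf.B 12 7 (Pf.C 1 0x30184141c58d) (Pf.C 1 0x28587060460d)) (Pf.C 1 0x305021218684)) (Pf.C 0 0x2c30a)))))))) (Pf.C 0 17161)) (Pf.C 0 906)) (Pf.C 0 66187)) (Pf.C 0 66571)) (Pf.C 0 17164)) (Pf.C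 0 17548)) (Pf.C 0 909)) (Pf.C 0 1293)))
 (Pq.cons (Pq.L [0,1,3,4] 7 (Pf.B 9 7 (Pf.B 9 6 (Pf.B 9 5 (Pf.C 42 1157) (Pf.C 1 0x1c1840c24281)) (Pf.C 0 777)) (Pf.C 0 905)))
 (Pq.cons (Pq.L [0,1,2,3,4] 7 (Pf.B 10 7 (Pf.B 10 6 (Pf.B 10 5 (Pf.C 1 0x102870228106) (Pf.C 1 0x181840e28281)) (Pf.C 0 778)) (Pf.C 0 906)))
 (Pq.cons (Pq.L [1,2,3,4] 7 (Pf.B 9 7 (Pf.B 9 6 (Pf.B 9 5 (Pf.C 43 1157) (Pf.C 1 0x1c2030c24281)) (Pf.C 0 33545)) (Pf.C 0 33673)))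
 (Pq.cons (Pq.L [1,2,3,4] 7 (Pf.B 8 7 (Pf.B 8 6 (Pf.C 43 776) (Pf.B 8 5 (Pf.C 1 0x1c0820a20304) (Pf.C 0 49800))) (Pf.C 0 50056)))
 (Pq.cons (Pq.L [0,1,2,3,4] 511 (Pf.B 13 10 (Pf.B 13 7 (Pf.B 12 9 (Pf.B 12 6 (Pf.B 11 8 (Pf.B 11 5 (Pf.B 10 7 (Pf.B 9 6 (Pf.B 8 5 (Pf.B 13 9 (Pf.B 13 8 (Pf.C 1 0x242001434088) (Pf.C 1 0xc40d1400089)) (Pf.B 13 8 (Pf.B 12 8 (Pf.B 12 10 (Pf.C 1 0x280801230208) (Pf.B 11 10 (Pf.C 1 0x28602102c180) (Pf.B 11 9 (Pf.C 1 0x34482102c180) (Pf.B 11 7 (Pf.B 12 7 (Pf.C 1 0x106021a1c08b) (Pf.B 12 5 (Pf.C 1 0x1c6021614180) (Pf.B 13 5 (Pf.C 1 0x146020034088) (Pf.B 13 6 (Pf.C 1 0xc28d0e00086) (Pf.B 11 6 (Pf.C 1 0xc589021868c) (Pf.C 1 0x1c082082c305)))))) (Pf.C 1 0x203141c58d))))) (Pf.C 1 0x34082082060b))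 (Pf.B 13 5 (Pf.B 13 6 (Pf.C 1 0x103020e34085) (Pf.B 12 5 (Pf.B 12 7 (Pf.C 1 0x1c0800c30205) (Pf.B 11 7 (Pf.C 1 0x1c6020a2c180) (Pf.B 11 10 (Pf.B 11 9 (Pf.B 11 6 (Pf.C 1 0x343020a2c180) (Pf.C 1 0xc586120468c)) (Pf.C 1 0x28082082c488)) (Pf.C 1 0x2030e2858d)))) (Pf.C 1 0x34082081460b))) (Pf.C 1 0x10001101468b)))) (Pf.C 0 49800)) (Pf.C 0 33545)) (Pf.C 0 17290)) (Pf.C 0 49803)) (Pf.C 0 50187)) (Pf.C 0 33548)) (Pf.C 0 33932)) (Pf.C 0 17293)) (Pf.C 0 17677)))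
 (Pq.cons (Pq.L [0,1,2,3,4] 63 (Pf.B 10 7 (Pf.B 9 6 (Pf.B 8 5 (Pf.B 10 6 (Pf.B 10 5 (Pf.C 1 0x1c2830c0020a) (Pf.C 1 0x181030e28280)) (Pf.B 8 6 (Pf.B 10 5 (Pf.B 9 5 (Pf.C 1 0x141880c04509) (Pf.B 9 7 (Pf.C 1 0x870624286) (Pf.C 0 82825))) (Pf.B 9 5 (Pf.C 1 0x241061014500) (Pf.B 9 7 (Pf.C 1 0x870624286) (Pf.C 0 82825)))) (Pf.C 0 0x28308))) (Pf.C 0 49800)) (Pf.C 0 33545)) (Pf.C 0 17290)))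
 (Pq.cons (Pq.L [0,1,2,3,4] 511 (Pf.B 13 10 (Pf.B 13 7 (Pf.B 12 9 (Pf.B 12 6 (Pf.B 11 8 (Pf.B 11 5 (Pf.B 10 7 (Pf.B 9 6 (Pf.B 8 5 (Pf.B 13 9 (Pf.B 13 8 (Pf.B 12 8 (Pf.C 1 0x346021620180) (Pf.B 12 10 (Pf.C 1 0x284821a20600) (Pf.B 11 10 (Pf.C 1 0x2c1821a28600) (Pf.B 11 9 (Pf.B 11 7 (Pf.B 12 7 (Pf.B 11 6 (Pf.C 1 0x1c3020a2c180) (Pf.B 13 6 (Pf.C 1 0x34602161c300) (Pf.C 1 0xc5861804689))) (Pf.C 1 0x2c1821a1c600)) (Pf.C 1 0x203141c58d)) (Pf.C 0 0x2848b))))) (Pf.B 12 8 (Pf.B 11 9 (Pf.C 1 0x2068c002420b) (Pf.B 11 10 (Pf.B 12 10 (Pf.C 1 0x346021628480) (Pf.C 1 0x2c1821a28600)) (Pf.C 0 0x2450b))) (Pf.C 0 0x3440c))) (Pf.B 13 8 (Pf.C 1 0x201821434480) (Pf.B 13 5 (Pf.B 13 6 (Pf.B 12 8 (Pf.B 12 5 (Pf.C 1 0x346021614180)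 (Pf.B 12 7 (Pf.C 1 0x1c3021a14600) (Pf.B 11 9 (Pf.C 1 0x2c1881824680) (Pf.B 11 7 (Pf.C 1 0x2c1821a1c600) (Pf.B 11 6 (Pf.C 1 0xc5891804686) (Pf.C 0 0x1c30b)))))) (Pf.C 0 0x3440c)) (Pf.C 1 0x141820e34300)) (Pf.C 1 0x10001101468b)))) (Pf.C 0 49800)) (Pf.C 0 33545)) (Pf.C 0 17290)) (Pf.C 0 49803)) (Pf.C 0 50187)) (Pf.C 0 33548)) (Pf.C 0 33932)) (Pf.C 0 17293)) (Pf.C 0 17677)))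
 (Pq.cons (Pq.L [0,1,2,3,4] 7 (Pf.B 10 7 (Pf.B 10 6 (Pf.B 10 5 (Pf.C 1 0xc2870028086) (Pf.C 1 0x181030e28280)) (Pf.C 0 66314)) (Pf.C 0 17290)))
 (Pq.cons (Pq.L [0,1,2,3,4] 63 (Pf.B 10 7 (Pf.B 10 5 (Pf.B 10 6 (Pf.C 1 0x103020e28085) (Pf.B 9 6 (Pf.B 8 7 (Pf.B 9 7 (Pf.C 1 0x10482141c088) (Pf.B 8 6 (Pf.B 8 5 (Pf.C 1 0x870a20186) (Pf.C 0 49800)) (Pf.C 1 0x1c4821420300))) (Pf.C 0 50056)) (Pf.C 0 33545))) (Pf.C 0 49802)) (Pf.C 0 17290)))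
 (Pq.cons (Pq.L [0,1,2,3,4] 511 (Pf.B 13 10 (Pf.B 13 7 (Pf.B 12 9 (Pf.B 12 6 (Pf.B 11 8 (Pf.B 11 5 (Pf.B 10 7 (Pf.B 9 6 (Pf.B 8 5 (Pf.B 13 9 (Pf.B 13 8 (Pf.C 1 0x241011434008) (Pf.C 1 0xc40d1404009)) (Pf.B 13 8 (Pf.B 12 8 (Pf.B 12 10 (Pf.C 1 0x280011230108) (Pf.B 11 10 (Pf.C 1 0x28604102c181) (Pf.B 11 9 (Pf.C 1 0x34484102c181) (Pf.B 11 7 (Pf.B 12 7 (Pf.C 1 0x86041a1c00b) (Pf.B 12 5 (Pf.C 1 0x1c6041614181) (Pf.B 13 5 (Pf.C 1 0x146040234008) (Pf.B 13 6 (Pf.C 1 0xc28d0e04006) (Pf.B 11 6 (Pf.C 1 0xc589001868c) (Pf.C 1 0x1c004042c305)))))) (Pf.C 1 0x4103141c58d))))) (Pf.C 1 0x34004042060b)) (Pf.B 13 5 (Pf.B 13 6 (Pf.C 1 0x83040e34005) (Pf.B 12 5 (Pf.B 12 7 (Pf.C 1 0x1c0010c30105) (Pf.B 11 7 (Pf.C 1 0x1c6040a2c181)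 (Pf.B 11 10 (Pf.B 11 9 (Pf.B 11 6 (Pf.C 1 0x343040a2c181) (Pf.C 1 0xc586120068c)) (Pf.C 1 0x28004042c488)) (Pf.C 1 0x41030e2858d)))) (Pf.C 1 0x34004041460b))) (Pf.C 1 0x8080101468b)))) (Pf.C 0 49800)) (Pf.C 0 33545)) (Pf.C 0 906)) (Pf.C 0 49803)) (Pf.C 0 50187)) (Pf.C 0 33548)) (Pf.C 0 33932)) (Pf.C 0 909)) (Pf.C 0 1293)))
 (Pq.cons (Pq.L [0,1,2,3,4] 63 (Pf.B 10 7 (Pf.B 9 6 (Pf.B 8 5 (Pf.B 10 6 (Pf.B 10 5 (Pf.C 1 0x1c2830c0410a) (Pf.C 1 0x182030e28281)) (Pf.B 8 6 (Pf.B 10 5 (Pf.B 9 5 (Pf.C 1 0x141880c00509) (Pf.B 9 7 (Pf.C 1 0x40070624286) (Pf.C 0 82825))) (Pf.B 9 5 (Pf.C 1 0x242061014501) (Pf.B 9 7 (Pf.C 1 0x40070624286) (Pf.C 0 82825)))) (Pf.C 0 0x28308))) (Pf.C 0 49800)) (Pf.C 0 33545)) (Pf.C 0 906)))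
 (Pq.cons (Pq.L [0,1,2,3,4] 511 (Pf.B 13 10 (Pf.B 13 7 (Pf.B 12 9 (Pf.B 12 6 (Pf.B 11 8 (Pf.B 11 5 (Pf.B 10 7 (Pf.B 9 6 (Pf.B 8 5 (Pf.B 13 9 (Pf.B 13 8 (Pf.B 12 8 (Pf.C 1 0x346041620181) (Pf.B 12 10 (Pf.C 1 0x284841a20601) (Pf.B 11 10 (Pf.C 1 0x2c1841a28601) (Pf.B 11 9 (Pf.B 11 7 (Pf.B 12 7 (Pf.B 11 6 (Pf.C 1 0x1c3040a2c181) (Pf.B 13 6 (Pf.C 1 0x34604161c301) (Pf.C 1 0xc5861800689))) (Pf.C 1 0x2c1841a1c601)) (Pf.C 1 0x4103141c58d)) (Pf.C 0 0x2848b))))) (Pf.B 12 8 (Pf.B 11 9 (Pf.C 1 0x2068c022410b) (Pf.B 11 10 (Pf.B 12 10 (Pf.C 1 0x346041628481) (Pf.C 1 0x2c1841a28601)) (Pf.C 0 0x2450b))) (Pf.C 0 0x3440c))) (Pf.B 13 8 (Pf.C 1 0x201841434481) (Pf.B 13 5 (Pf.B 13 6 (Pf.B 12 8 (Pf.B 12 5 (Pf.C 1 0x346041614181)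 (Pf.B 12 7 (Pf.C 1 0x1c3041a14601) (Pf.B 11 9 (Pf.C 1 0x2c1881824681) (Pf.B 11 7 (Pf.C 1 0x2c1841a1c601) (Pf.B 11 6 (Pf.C 1 0xc5891800686) (Pf.C 0 0x1c30b)))))) (Pf.C 0 0x3440c)) (Pf.C 1 0x141840e34301)) (Pf.C 1 0x8080101468b)))) (Pf.C 0 49800)) (Pf.C 0 33545)) (Pf.C 0 906)) (Pf.C 0 49803)) (Pf.C 0 50187)) (Pf.C 0 33548)) (Pf.C 0 33932)) (Pf.C 0 909)) (Pf.C 0 1293)))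
 (Pq.cons (Pq.L [0,1,2,3,4] 63 (Pf.B 10 7 (Pf.B 10 5 (Pf.B 10 6 (Pf.C 1 0x83040e28005) (Pf.B 9 6 (Pf.B 8 7 (Pf.B 9 7 (Pf.C 1 0x8484141c008) (Pf.B 8 6 (Pf.B 8 5 (Pf.C 1 0x40070a20186) (Pf.C 0 49800)) (Pf.C 1 0x1c4841420301))) (Pf.C 0 50056)) (Pf.C 0 33545))) (Pf.C 0 49802)) (Pf.C 0 906)))
 (Pq.cons (Pq.L [0,1,2,3,4] 7 (Pf.B 10 7 (Pf.B 10 6 (Pf.B 10 5 (Pf.C 1 0xc2870228006) (Pf.C 1 0x182030e28281)) (Pf.C 0 33546)) (Pf.C 0 906)))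
 (Pq.cons (Pq.L [0,1,2,3,4] 511 (Pf.B 13 10 (Pf.B 13 7 (Pf.B 12 9 (Pf.B 12 6 (Pf.B 11 8 (Pf.B 11 5 (Pf.B 10 7 (Pf.B 9 6 (Pf.B 8 5 (Pf.B 13 9 (Pf.B 13 8 (Pf.C 1 0x201841434009) (Pf.B 12 8 (Pf.C 1 0x206821230084) (Pf.B 12 10 (Pf.C 1 0x2800d0630409) (Pf.B 12 5 (Pf.B 12 7 (Pf.B 11 7 (Pf.C 1 0x3820a2c18c) (Pf.B 11 10 (Pf.B 11 9 (Pf.C 1 0x30502082c189) (Pf.C 1 0x448b101018a)) (Pf.C 1 0x460a0e0c58d))) (Pf.C 1 0x141820030386)) (Pf.C 1 0x10001101460b))))) (Pf.B 13 6 (Pf.B 13 5 (Pf.C 1 0x141840e34006) (Pf.B 12 5 (Pf.C 1 0x146820c30084) (Pf.B 12 8 (Pf.B 12 10 (Pf.B 12 7 (Pf.C 1 0x1c00d0630286) (Pf.B 11 10 (Pf.C 1 0x502102c18c) (Pf.B 11 9 (Pf.C 1 0x24682082c18c) (Pf.B 11 7 (Pf.B 11 6 (Pf.C 1 0x30382082c186) (Pf.C 1 0x689061858c))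 (Pf.C 1 0x4607140c58d))))) (Pf.C 1 0x201820030509)) (Pf.C 1 0x100010a2060b)))) (Pf.C 1 0xc200121868c))) (Pf.C 0 49800)) (Pf.C 0 17161)) (Pf.C 0 906)) (Pf.C 0 49803)) (Pf.C 0 50187)) (Pf.C 0 17164)) (Pf.C 0 17548)) (Pf.C 0 909)) (Pf.C 0 1293)))
 (Pq.cons (Pq.L [0,1,2,3,4] 63 (Pf.B 10 7 (Pf.B 9 6 (Pf.B 10 6 (Pf.B 10 5 (Pf.C 1 0x143010e28104) (Pf.B 9 7 (Pf.B 9 5 (Pf.C 1 0x1c00a0c0c289) (Pf.C 1 0x1c10a0c24284)) (Pf.B 8 7 (Pf.C 1 0x10188021c48a) (Pf.C 0 0x24388)))) (Pf.B 10 5 (Pf.C 1 0x101850228307) (Pf.C 0 98954))) (Pf.C 0 17161)) (Pf.C 0 906)))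
 (Pq.cons (Pq.L [0,1,2,3,4] 511 (Pf.B 13 10 (Pf.B 13 7 (Pf.B 12 9 (Pf.B 12 6 (Pf.B 11 8 (Pf.B 11 5 (Pf.B 10 7 (Pf.B 9 6 (Pf.B 8 5 (Pf.B 13 9 (Pf.B 11 9 (Pf.C 1 0x2c6821824084) (Pf.B 11 6 (Pf.B 11 7 (Pf.B 12 7 (Pf.B 12 5 (Pf.C 1 0x143820c30084) (Pf.B 12 8 (Pf.B 13 8 (Pf.B 12 10 (Pf.C 1 0x205021230084) (Pf.B 11 10 (Pf.C 1 0x2c6821820504) (Pf.C 1 0x460a1a0c587))) (Pf.C 1 0x300821620684)) (Pf.C 1 0x100010a2060b))) (Pf.C 1 0x2c1820030386)) (Pf.C 1 0x180820a2c384)) (Pf.C 1 0x203121858c))) (Pf.B 11 9 (Pf.B 11 10 (Pf.B 12 10 (Pf.B 12 8 (Pf.C 1 0x205021230084) (Pf.B 12 5 (Pf.B 13 5 (Pf.B 12 7 (Pf.C 1 0x143820c30084) (Pf.B 11 7 (Pf.C 1 0x2c6821814384) (Pf.C 1 0x46071a0c58a))) (Pf.C 1 0x300821614684)) (Pf.C 1 0x10001101460b)))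 (Pf.C 1 0x2c1820030509)) (Pf.C 1 0x24082102c504)) (Pf.C 0 0x3448b))) (Pf.C 0 49800)) (Pf.C 0 17161)) (Pf.C 0 906)) (Pf.C 0 49803)) (Pf.C 0 50187)) (Pf.C 0 17164)) (Pf.C 0 17548)) (Pf.C 0 909)) (Pf.C 0 1293)))
 (Pq.cons (Pq.L [0,1,2,3,4] 511 (Pf.B 13 10 (Pf.B 13 7 (Pf.B 12 9 (Pf.B 12 6 (Pf.B 11 8 (Pf.B 11 5 (Pf.B 10 7 (Pf.B 9 6 (Pf.B 8 5 (Pf.B 13 9 (Pf.B 11 9 (Pf.C 1 0x2c182182408d) (Pf.B 11 10 (Pf.C 1 0x2c4841a28002) (Pf.B 12 10 (Pf.C 1 0x3400a120c58c) (Pf.B 12 7 (Pf.B 12 5 (Pf.C 1 0x141820c30087) (Pf.B 13 5 (Pf.C 1 0x146040e34002) (Pf.B 13 6 (Pf.C 1 0x1808c0634287) (Pf.B 11 7 (Pf.B 11 6 (Pf.C 1 0x34304042c187) (Pf.C 1 0x686120c58c)) (Pf.C 1 0x460a061c58d))))) (Pf.C 1 0xc101141c60d))))) (Pf.B 13 8 (Pf.C 1 0x20184023448a)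 (Pf.B 13 5 (Pf.B 13 6 (Pf.B 12 5 (Pf.C 1 0x141820c3008d) (Pf.B 12 7 (Pf.C 1 0x146041a1c002) (Pf.B 12 10 (Pf.B 11 7 (Pf.C 1 0x1c604042c18d) (Pf.B 11 10 (Pf.B 11 9 (Pf.C 1 0x34484042c18a) (Pf.B 11 6 (Pf.C 1 0x43040a2c18d) (Pf.C 1 0x689061858c))) (Pf.C 1 0x4607062858d))) (Pf.C 1 0xc1010e2860d)))) (Pf.C 1 0x141840234307)) (Pf.C 1 0x8080101468b)))) (Pf.C 0 49800)) (Pf.C 0 17161)) (Pf.C 0 906)) (Pf.C 0 49803)) (Pf.C 0 50187)) (Pf.C 0 17164)) (Pf.C 0 17548)) (Pf.C 0 909)) (Pf.C 0 1293)))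
 (Pq.cons (Pq.L [0,1,2,3,4] 511 (Pf.B 13 10 (Pf.B 13 7 (Pf.B 12 9 (Pf.B 12 6 (Pf.B 11 8 (Pf.B 11 5 (Pf.B 10 7 (Pf.B 9 6 (Pf.B 8 5 (Pf.B 13 9 (Pf.B 13 8 (Pf.C 1 0x204841434002) (Pf.B 13 5 (Pf.B 13 6 (Pf.C 1 0x143040e34002) (Pf.B 12 5 (Pf.B 12 8 (Pf.C 1 0x6880a0818c) (Pf.B 12 10 (Pf.C 1 0x2800d1230402) (Pf.B 11 10 (Pf.B 11 9 (Pf.B 11 6 (Pf.C 1 0x2c6041a14302) (Pf.C 1 0x686180c589)) (Pf.C 1 0x28004102c482)) (Pf.C 0 0x3050b)))) (Pf.C 1 0x340041614602))) (Pf.C 1 0x8080101468b))) (Pf.B 13 8 (Pf.B 12 8 (Pf.B 12 10 (Pf.B 11 10 (Pf.C 1 0x2c6041a28002) (Pf.B 11 9 (Pf.C 1 0x2c6041a20482) (Pf.B 11 7 (Pf.B 11 6 (Pf.B 13 6 (Pf.C 1 0x689180c586) (Pf.C 1 0x305890018682)) (Pf.C 1 0x1c0040a2c302)) (Pf.C 1 0x4103141c58d)))) (Pf.C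 1 0x20184022860d)) (Pf.C 1 0x340041620602)) (Pf.C 0 0x2440d))) (Pf.C 0 49800)) (Pf.C 0 17161)) (Pf.C 0 906)) (Pf.C 0 49803)) (Pf.C 0 50187)) (Pf.C 0 17164)) (Pf.C 0 17548)) (Pf.C 0 909)) (Pf.C 0 1293)))
 (Pq.cons (Pq.L [0,1,2,3,4] 63 (Pf.B 10 7 (Pf.B 9 6 (Pf.B 8 5 (Pf.B 10 6 (Pf.B 10 5 (Pf.B 9 5 (Pf.C 1 0x5080414189) (Pf.B 9 7 (Pf.C 1 0x280070624286) (Pf.C 0 82825))) (Pf.B 9 5 (Pf.C 1 0x145000c24202) (Pf.B 9 7 (Pf.C 1 0x18209141c282) (Pf.C 0 82825)))) (Pf.B 8 6 (Pf.C 1 0x81880018509) (Pf.C 0 0x28308))) (Pf.C 0 49800)) (Pf.C 0 17161)) (Pf.C 0 906)))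
 (Pq.cons (Pq.L [0,1,2,3,4] 63 (Pf.B 10 7 (Pf.B 10 5 (Pf.B 10 6 (Pf.C 1 0x143040e28002) (Pf.B 9 6 (Pf.B 8 7 (Pf.B 9 7 (Pf.C 1 0x20484141c002) (Pf.B 8 6 (Pf.C 1 0x283040e20482) (Pf.B 8 5 (Pf.C 1 0x1c0040a20302) (Pf.C 0 49800)))) (Pf.C 0 50056)) (Pf.C 0 17161))) (Pf.C 0 49802)) (Pf.C 0 906)))
 (Pq.cons (Pq.L [0,1,2,3,4] 511 (Pf.B 13 10 (Pf.B 13 7 (Pf.B 12 9 (Pf.B 12 6 (Pf.B 11 8 (Pf.B 11 5 (Pf.B 10 7 (Pf.B 9 6 (Pf.B 13 9 (Pf.B 11 9 (Pf.C 1 0x8680182420b) (Pf.B 13 6 (Pf.B 11 6 (Pf.C 1 0x8680181820b) (Pf.C 1 0x34103121858c)) (Pf.B 11 6 (Pf.C 1 0x2c182001868c) (Pf.C 1 0x686120c58c)))) (Pf.B 11 9 (Pf.C 1 0x2c182002468c) (Pf.B 11 10 (Pf.C 1 0x28101082c488) (Pf.B 13 6 (Pf.B 11 6 (Pf.C 1 0x8680181820b) (Pf.C 1 0x689061858c))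 (Pf.B 11 6 (Pf.C 1 0xc589001868c) (Pf.B 11 7 (Pf.C 1 0x1c101082c305) (Pf.B 10 6 (Pf.B 12 10 (Pf.B 12 7 (Pf.C 1 0x30203141c58d) (Pf.C 1 0x28587080460d)) (Pf.C 1 0x305001218683)) (Pf.C 0 0x2c30a)))))))) (Pf.C 0 17161)) (Pf.C 0 906)) (Pf.C 0 49803)) (Pf.C 0 50187)) (Pf.C 0 17164)) (Pf.C 0 17548)) (Pf.C 0 909)) (Pf.C 0 1293)))
 (Pq.cons (Pq.L [0,1,2,3,4] 63 (Pf.B 10 7 (Pf.B 9 6 (Pf.B 9 5 (Pf.B 9 7 (Pf.C 1 0x143820c24084) (Pf.B 8 6 (Pf.B 10 6 (Pf.C 1 0x205021218084) (Pf.B 8 7 (Pf.C 1 0x243820c20504) (Pf.B 8 5 (Pf.C 1 0x180820a20384) (Pf.C 0 49800)))) (Pf.C 0 49928))) (Pf.C 0 49801)) (Pf.C 0 17161)) (Pf.C 0 906)))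
 (Pq.cons (Pq.L [0,1,2,3,4] 63 (Pf.B 10 7 (Pf.B 9 6 (Pf.B 9 5 (Pf.B 9 7 (Pf.C 1 0x43830c24205) (Pf.B 8 6 (Pf.B 10 6 (Pf.C 1 0x45031218208) (Pf.B 8 7 (Pf.B 8 5 (Pf.C 1 0x2060a20107) (Pf.C 0 33416)) (Pf.C 1 0x185031220380))) (Pf.C 0 33544))) (Pf.C 0 33417)) (Pf.C 0 33545)) (Pf.C 0 17290)))
 (Pq.cons (Pq.L [0,1,2,3,4] 63 (Pf.B 10 7 (Pf.B 9 6 (Pf.B 9 5 (Pf.B 9 7 (Pf.C 1 0x143830c24201) (Pf.B 8 6 (Pf.B 10 6 (Pf.C 1 0x205031218201) (Pf.B 8 7 (Pf.C 1 0x243830c20501) (Pf.B 8 5 (Pf.C 1 0x182030a20381) (Pf.C 0 33416)))) (Pf.C 0 33544))) (Pf.C 0 33417)) (Pf.C 0 33545)) (Pf.C 0 906)))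
 (Pq.cons (Pq.L [0,1,2,3] 7 (Pf.B 9 7 (Pf.B 9 6 (Pf.B 9 5 (Pf.C 44 1157) (Pf.C 1 0x1c1820c24280)) (Pf.C 0 17161)) (Pf.C 0 17289)))
 (Pq.cons (Pq.L [0,1,2,3] 7 (Pf.B 8 7 (Pf.B 8 6 (Pf.C 44 776) (Pf.B 8 5 (Pf.C 1 0x1c0010a20303) (Pf.C 0 33416))) (Pf.C 0 33672)))
 (Pq.cons (Pq.L [0,1,2,3,4] 7 (Pf.B 10 7 (Pf.B 10 6 (Pf.B 10 5 (Pf.C 1 0x182820e28180) (Pf.C 1 0x2060428287)) (Pf.C 0 17162)) (Pf.C 0 17290)))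
 (Pq.cons (Pq.L [0,1,2,3,4] 511 (Pf.B 13 10 (Pf.B 13 7 (Pf.B 12 9 (Pf.B 12 6 (Pf.B 11 8 (Pf.B 11 5 (Pf.B 10 7 (Pf.B 9 6 (Pf.B 8 5 (Pf.B 13 9 (Pf.B 11 9 (Pf.C 1 0x2c103182420d) (Pf.B 11 10 (Pf.C 1 0x2c4811a28003) (Pf.B 12 10 (Pf.C 1 0x3400a120858c) (Pf.B 12 7 (Pf.B 12 5 (Pf.C 1 0x141030c30207) (Pf.B 13 5 (Pf.C 1 0x146010e34003) (Pf.B 13 6 (Pf.C 1 0x1820c0434287) (Pf.B 11 7 (Pf.B 11 6 (Pf.C 1 0x34301062c107) (Pf.C 1 0x686120858c)) (Pf.C 1 0x1060a041c58d))))) (Pf.C 1 0xc101141c60d))))) (Pf.B 13 8 (Pf.C 1 0x20101083448a) (Pf.B 13 5 (Pf.B 13 6 (Pf.B 12 5 (Pf.C 1 0x141030c3020d) (Pf.B 12 7 (Pf.C 1 0x146011a1c003) (Pf.B 12 10 (Pf.B 11 7 (Pf.C 1 0x1c601062c10d) (Pf.B 11 10 (Pf.B 11 9 (Pf.C 1 0x34481062c10a) (Pf.B 11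 6 (Pf.C 1 0x103010a2c10d) (Pf.C 1 0x689041858c))) (Pf.C 1 0x10607042858d))) (Pf.C 1 0xc1010e2860d)))) (Pf.C 1 0x141010834307)) (Pf.C 1 0xc200101468b)))) (Pf.C 0 33416)) (Pf.C 0 17161)) (Pf.C 0 906)) (Pf.C 0 33419)) (Pf.C 0 33803)) (Pf.C 0 17164)) (Pf.C 0 17548)) (Pf.C 0 909)) (Pf.C 0 1293)))
 (Pq.cons (Pq.L [0,1,2,3,4] 511 (Pf.B 13 10 (Pf.B 13 7 (Pf.B 12 9 (Pf.B 12 6 (Pf.B 11 8 (Pf.B 11 5 (Pf.B 10 7 (Pf.B 9 6 (Pf.B 8 5 (Pf.B 13 9 (Pf.B 13 8 (Pf.C 1 0x204811434003) (Pf.B 13 5 (Pf.B 13 6 (Pf.C 1 0x143010e34003) (Pf.B 12 5 (Pf.B 12 8 (Pf.C 1 0x6880a0c10c) (Pf.B 12 10 (Pf.C 1 0x2800d1230403) (Pf.B 11 10 (Pf.B 11 9 (Pf.B 11 6 (Pf.C 1 0x2c6011a14303) (Pf.C 1 0x6861808589)) (Pf.C 1 0x28001102c483)) (Pf.C 0 0x3050b))))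 (Pf.C 1 0x340011614603))) (Pf.C 1 0xc200101468b))) (Pf.B 13 8 (Pf.B 12 8 (Pf.B 12 10 (Pf.B 11 10 (Pf.C 1 0x2c6011a28003) (Pf.B 11 9 (Pf.C 1 0x2c6011a20483) (Pf.B 11 7 (Pf.B 11 6 (Pf.B 13 6 (Pf.C 1 0x6891808586) (Pf.C 1 0x305890018683)) (Pf.C 1 0x1c0010a2c303)) (Pf.C 1 0x10182141c58d)))) (Pf.C 1 0x20101082860d)) (Pf.C 1 0x340011620603)) (Pf.C 0 0x2440d))) (Pf.C 0 33416)) (Pf.C 0 17161)) (Pf.C 0 906)) (Pf.C 0 33419)) (Pf.C 0 33803)) (Pf.C 0 17164)) (Pf.C 0 17548)) (Pf.C 0 909)) (Pf.C 0 1293)))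
 (Pq.cons (Pq.L [0,1,2,3] 63 (Pf.B 10 7 (Pf.B 9 6 (Pf.B 8 5 (Pf.B 10 6 (Pf.B 10 5 (Pf.B 9 5 (Pf.C 1 0x5080614109) (Pf.B 9 7 (Pf.C 1 0x280070424286) (Pf.C 0 82825))) (Pf.B 9 5 (Pf.C 1 0x145000c24083) (Pf.B 9 7 (Pf.C 1 0x18089141c283) (Pf.C 0 82825)))) (Pf.B 8 6 (Pf.C 1 0xc1080018509) (Pf.C 0 0x28308))) (Pf.C 0 33416)) (Pf.C 0 17161)) (Pf.C 0 906)))
 (Pq.cons (Pq.L [0,1,2,3,4] 511 (Pf.B 13 10 (Pf.B 13 7 (Pf.B 12 9 (Pf.B 12 6 (Pf.B 11 8 (Pf.B 11 5 (Pf.B 10 7 (Pf.B 9 6 (Pf.B 13 9 (Pf.B 11 9 (Pf.C 1 0xc680182408b) (Pf.B 13 6 (Pf.B 11 6 (Pf.C 1 0xc680181808b) (Pf.C 1 0x34182121858c)) (Pf.B 11 6 (Pf.C 1 0x2c103001868c) (Pf.C 1 0x686120858c)))) (Pf.B 11 9 (Pf.C 1 0x2c103002468c) (Pf.B 11 10 (Pf.C 1 0x28184022c488)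 (Pf.B 13 6 (Pf.B 11 6 (Pf.C 1 0xc680181808b) (Pf.C 1 0x689041858c)) (Pf.B 11 6 (Pf.C 1 0x8589001868c) (Pf.B 11 7 (Pf.C 1 0x1c184022c305) (Pf.B 10 6 (Pf.B 12 10 (Pf.B 12 7 (Pf.C 1 0x30082141c58d) (Pf.C 1 0x28587080460d)) (Pf.C 1 0x305001218682)) (Pf.C 0 0x2c30a)))))))) (Pf.C 0 17161)) (Pf.C 0 906)) (Pf.C 0 33419)) (Pf.C 0 33803)) (Pf.C 0 17164)) (Pf.C 0 17548)) (Pf.C 0 909)) (Pf.C 0 1293)))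
 (Pq.cons (Pq.L [0,1,2,3] 63 (Pf.B 10 7 (Pf.B 10 5 (Pf.B 10 6 (Pf.C 1 0x143010e28003) (Pf.B 9 6 (Pf.B 8 7 (Pf.B 9 7 (Pf.C 1 0x20481141c003) (Pf.B 8 6 (Pf.C 1 0x283010e20483) (Pf.B 8 5 (Pf.C 1 0x1c0010a20303) (Pf.C 0 33416)))) (Pf.C 0 33672)) (Pf.C 0 17161))) (Pf.C 0 33418)) (Pf.C 0 906)))
 (Pq.cons (Pq.L [0,1,2,3,4] 511 (Pf.B 13 10 (Pf.B 13 7 (Pf.B 12 9 (Pf.B 12 6 (Pf.B 11 8 (Pf.B 11 5 (Pf.B 10 7 (Pf.B 9 6 (Pf.B 8 5 (Pf.B 13 9 (Pf.B 13 8 (Pf.C 1 0xc4811434008) (Pf.C 1 0x840d1410009)) (Pf.B 13 8 (Pf.B 12 8 (Pf.B 12 10 (Pf.C 1 0x280041230188) (Pf.B 11 10 (Pf.C 1 0x28601102c104) (Pf.B 11 9 (Pf.C 1 0x34481102c104) (Pf.B 11 7 (Pf.B 12 7 (Pf.C 1 0xc6011a1c00b) (Pf.B 12 5 (Pf.C 1 0x1c6011614104) (Pf.B 13 5 (Pf.C 1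 0x146010834008) (Pf.B 13 6 (Pf.C 1 0x828d0e10006) (Pf.B 11 6 (Pf.C 1 0x8589001868c) (Pf.C 1 0x1c001062c305)))))) (Pf.C 1 0x10182141c58d))))) (Pf.C 1 0x34001062060b)) (Pf.B 13 5 (Pf.B 13 6 (Pf.C 1 0xc3010e34005) (Pf.B 12 5 (Pf.B 12 7 (Pf.C 1 0x1c0040c30185) (Pf.B 11 7 (Pf.C 1 0x1c6010a2c104) (Pf.B 11 10 (Pf.B 11 9 (Pf.B 11 6 (Pf.C 1 0x343010a2c104) (Pf.C 1 0x8586120068c)) (Pf.C 1 0x28001062c488)) (Pf.C 1 0x101820e2858d)))) (Pf.C 1 0x34001061460b))) (Pf.C 1 0xc200101468b)))) (Pf.C 0 33416)) (Pf.C 0 17161)) (Pf.C 0 906)) (Pf.C 0 33419)) (Pf.C 0 33803)) (Pf.C 0 17164)) (Pf.C 0 17548)) (Pf.C 0 909)) (Pf.C 0 1293)))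
 (Pq.cons (Pq.L [0,1,2,3,4] 63 (Pf.B 10 7 (Pf.B 9 6 (Pf.B 8 5 (Pf.B 10 6 (Pf.B 10 5 (Pf.C 1 0x1c2820c1018a) (Pf.C 1 0x180820e28284)) (Pf.B 8 6 (Pf.B 10 5 (Pf.B 9 5 (Pf.C 1 0x141080c00509) (Pf.B 9 7 (Pf.C 1 0x100070424286) (Pf.C 0 82825))) (Pf.B 9 5 (Pf.C 1 0x240861014504) (Pf.B 9 7 (Pf.C 1 0x100070424286) (Pf.C 0 82825)))) (Pf.C 0 0x28308))) (Pf.C 0 33416)) (Pf.C 0 17161)) (Pf.C 0 906)))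
 (Pq.cons (Pq.L [0,1,2,3,4] 511 (Pf.B 13 10 (Pf.B 13 7 (Pf.B 12 9 (Pf.B 12 6 (Pf.B 11 8 (Pf.B 11 5 (Pf.B 10 7 (Pf.B 9 6 (Pf.B 8 5 (Pf.B 13 9 (Pf.B 13 8 (Pf.B 12 8 (Pf.C 1 0x346011620104) (Pf.B 12 10 (Pf.C 1 0x284811a20604) (Pf.B 11 10 (Pf.C 1 0x2c1011a28604) (Pf.B 11 9 (Pf.B 11 7 (Pf.B 12 7 (Pf.B 11 6 (Pf.C 1 0x1c3010a2c104) (Pf.B 13 6 (Pf.C 1 0x34601161c304) (Pf.C 1 0x85861800689))) (Pf.C 1 0x2c1011a1c604)) (Pf.C 1 0x10182141c58d)) (Pf.C 0 0x2848b))))) (Pf.B 12 8 (Pf.B 11 9 (Pf.C 1 0x2068c082418b) (Pf.B 11 10 (Pf.B 12 10 (Pf.C 1 0x346011628484) (Pf.C 1 0x2c1011a28604)) (Pf.C 0 0x2450b))) (Pf.C 0 0x3440c))) (Pf.B 13 8 (Pf.C 1 0x201011434484) (Pf.B 13 5 (Pf.B 13 6 (Pf.B 12 8 (Pf.B 12 5 (Pf.C 1 0x346011614104)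 (Pf.B 12 7 (Pf.C 1 0x1c3011a14604) (Pf.B 11 9 (Pf.C 1 0x2c1081824684) (Pf.B 11 7 (Pf.C 1 0x2c1011a1c604) (Pf.B 11 6 (Pf.C 1 0x85891800686) (Pf.C 0 0x1c30b)))))) (Pf.C 0 0x3440c)) (Pf.C 1 0x141010e34304)) (Pf.C 1 0xc200101468b)))) (Pf.C 0 33416)) (Pf.C 0 17161)) (Pf.C 0 906)) (Pf.C 0 33419)) (Pf.C 0 33803)) (Pf.C 0 17164)) (Pf.C 0 17548)) (Pf.C 0 909)) (Pf.C 0 1293)))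
 (Pq.cons (Pq.L [0,1,2,3,4] 7 (Pf.B 10 7 (Pf.B 10 6 (Pf.B 10 5 (Pf.C 1 0x82870828006) (Pf.C 1 0x180820e28284)) (Pf.C 0 49930)) (Pf.C 0 906)))
 (Pq.cons (Pq.L [0,1,2,3,4] 63 (Pf.B 10 7 (Pf.B 10 5 (Pf.B 10 6 (Pf.C 1 0xc3010e28005) (Pf.B 9 6 (Pf.B 8 7 (Pf.B 9 7 (Pf.C 1 0xc481141c008) (Pf.B 8 6 (Pf.B 8 5 (Pf.C 1 0x100070a20106) (Pf.C 0 33416)) (Pf.C 1 0x1c4811420304))) (Pf.C 0 33672)) (Pf.C 0 17161))) (Pf.C 0 33418)) (Pf.C 0 906)))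
 (Pq.cons (Pq.L [0,1,2,3] 63 (Pf.B 10 7 (Pf.B 10 6 (Pf.B 9 7 (Pf.B 9 6 (Pf.B 9 5 (Pf.B 8 7 (Pf.C 1 0x24402141c180) (Pf.B 8 6 (Pf.B 8 5 (Pf.C 1 0x18282121c400) (Pf.C 0 33416)) (Pf.C 1 0x281821218400))) (Pf.C 1 0x1c1820c24280)) (Pf.C 0 17161)) (Pf.C 0 17289)) (Pf.C 0 17162)) (Pf.C 0 17290)))
 (Pq.cons (Pq.L [0,1,2,3,4] 511 (Pf.B 13 10 (Pf.B 13 7 (Pf.B 12 9 (Pf.B 12 6 (Pf.B 11 8 (Pf.B 9 6 (Pf.B 13 9 (Pf.B 13 8 (Pf.C 1 0x84041434009) (Pf.C 1 0x24082083440a)) (Pf.B 11 9 (Pf.C 1 0x2c103002468c) (Pf.B 13 8 (Pf.B 12 8 (Pf.C 1 0x683162010c) (Pf.B 12 10 (Pf.C 1 0x280040430409) (Pf.B 11 10 (Pf.C 1 0x3418a100460b) (Pf.B 13 6 (Pf.B 13 5 (Pf.C 1 0x82840e34006) (Pf.C 1 0x180820834287)) (Pf.B 11 6 (Pf.C 1 0x18689080858c) (Pf.B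 10 6 (Pf.C 1 0x305001218682) (Pf.C 0 0x2c30a))))))) (Pf.B 12 8 (Pf.C 1 0x30080062068b) (Pf.B 12 10 (Pf.C 1 0x280040430409) (Pf.B 13 6 (Pf.B 13 5 (Pf.C 1 0x82840e34006) (Pf.C 1 0x180820834287)) (Pf.B 11 6 (Pf.C 1 0x18689080858c) (Pf.B 10 6 (Pf.C 1 0x305001218682) (Pf.B 11 10 (Pf.B 8 6 (Pf.C 1 0x245860600508) (Pf.C 0 0x34308)) (Pf.C 0 99595)))))))))) (Pf.C 0 17161)) (Pf.C 0 33803)) (Pf.C 0 17164)) (Pf.C 0 17548)) (Pf.C 0 909)) (Pf.C 0 1293)))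
 (Pq.cons (Pq.L [0,1,2,3,4] 7 (Pf.B 10 7 (Pf.B 10 5 (Pf.B 10 6 (Pf.C 1 0x143010e28003) (Pf.C 1 0xc2050228307)) (Pf.C 0 33418)) (Pf.C 0 906)))
 (Pq.cons (Pq.L [0,1,2,3,4] 7 (Pf.B 9 6 (Pf.B 9 5 (Pf.B 9 7 (Pf.C 1 0x143800c24083) (Pf.C 1 0xc1050024386)) (Pf.C 0 66185)) (Pf.C 0 17161)))
 (Pq.cons (Pq.L [0,1,2,3,4] 7 (Pf.B 9 6 (Pf.B 9 5 (Pf.B 9 7 (Pf.C 1 0xc3800c24085) (Pf.C 1 0x141030024386)) (Pf.C 0 66185)) (Pf.C 0 17161)))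
 (Pq.cons (Pq.L [0,1,2,3,4] 63 (Pf.B 13 10 (Pf.B 13 7 (Pf.B 10 7 (Pf.B 9 6 (Pf.B 8 5 (Pf.B 13 9 (Pf.B 13 8 (Pf.C 1 0xc4811434008) (Pf.C 1 0x24082083440a)) (Pf.B 13 8 (Pf.C 1 0x20203023448a) (Pf.B 13 6 (Pf.B 13 5 (Pf.C 1 0xc3010e34005) (Pf.C 1 0x180820834287)) (Pf.B 13 5 (Pf.C 1 0x142030234307) (Pf.B 9 5 (Pf.B 10 5 (Pf.C 1 0x4483101420a) (Pf.B 10 6 (Pf.C 1 0x430d0828287) (Pf.B 8 6 (Pf.C 1 0x241860a00508) (Pf.C 0 0x34308)))) (Pf.C 0 0x34289)))))) (Pf.C 0 33416)) (Pf.C 0 17161)) (Pf.C 0 906)) (Pf.C 0 909)) (Pf.C 0 1293)))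
 (Pq.cons (Pq.L [0,1,2,3,4] 7 (Pf.B 10 7 (Pf.B 10 6 (Pf.B 10 5 (Pf.C 1 0x82840e28006) (Pf.C 1 0x180820828287)) (Pf.C 0 49930)) (Pf.C 0 906)))
 (Pq.cons (Pq.L [0,1,2,3,4] 7 (Pf.B 10 7 (Pf.B 10 5 (Pf.B 10 6 (Pf.C 1 0xc3010e28005) (Pf.C 1 0x142030228307)) (Pf.C 0 33418)) (Pf.C 0 906)))
 (Pq.cons (Pq.L [0,1,2,3,4] 63 (Pf.B 10 7 (Pf.B 10 6 (Pf.B 9 7 (Pf.B 9 6 (Pf.B 9 5 (Pf.B 8 7 (Pf.C 1 0x24404141c181) (Pf.B 8 6 (Pf.B 8 5 (Pf.C 1 0x18284121c401) (Pf.C 0 33416)) (Pf.C 1 0x281841218401))) (Pf.C 1 0x1c1840c24281)) (Pf.C 0 777)) (Pf.C 0 905)) (Pf.C 0 778)) (Pf.C 0 906)))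
 (Pq.cons (Pq.L [0,1,2,4] 7 (Pf.B 8 7 (Pf.C 45 904) (Pf.B 8 6 (Pf.B 8 5 (Pf.C 1 0x182000a20382) (Pf.C 0 17032)) (Pf.C 0 17160))))
 (Pq.cons (Pq.L [0,1,2,4] 63 (Pf.B 10 7 (Pf.B 9 6 (Pf.B 9 5 (Pf.B 9 7 (Pf.C 1 0x143800c24202) (Pf.B 8 6 (Pf.B 10 6 (Pf.C 1 0x205001218202) (Pf.B 8 7 (Pf.C 1 0x243800c20502) (Pf.B 8 5 (Pf.C 1 0x182000a20382) (Pf.C 0 17032)))) (Pf.C 0 17160))) (Pf.C 0 17033)) (Pf.C 0 17161)) (Pf.C 0 906)))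
 (Pq.cons (Pq.L [0,1,2,3,4] 63 (Pf.B 10 7 (Pf.B 9 6 (Pf.B 9 5 (Pf.B 9 7 (Pf.C 1 0x83800c24205) (Pf.B 8 6 (Pf.B 10 6 (Pf.C 1 0x85001218208) (Pf.B 8 7 (Pf.B 8 5 (Pf.C 1 0xc2060a20087) (Pf.C 0 17032)) (Pf.C 1 0x185001220383))) (Pf.C 0 17160))) (Pf.C 0 17033)) (Pf.C 0 17161)) (Pf.C 0 906)))
 (Pq.cons (Pq.L [0,1,2,3,4] 63 (Pf.B 10 7 (Pf.B 9 6 (Pf.B 9 5 (Pf.B 9 7 (Pf.C 1 0x3820c24185) (Pf.B 8 6 (Pf.B 10 6 (Pf.C 1 0x5021218188) (Pf.B 8 7 (Pf.B 8 5 (Pf.C 1 0x101860a20087) (Pf.C 0 17032)) (Pf.C 1 0x185021220384))) (Pf.C 0 17160))) (Pf.C 0 17033)) (Pf.C 0 17161)) (Pf.C 0 906)))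
 (Pq.cons (Pq.L [0,1,2,4] 7 (Pf.B 9 7 (Pf.B 9 6 (Pf.B 9 5 (Pf.C 45 1157) (Pf.C 1 0x1c1010c24284)) (Pf.C 0 777)) (Pf.C 0 905)))
 (Pq.cons (Pq.L [0,1,2,3,4] 7 (Pf.B 10 7 (Pf.B 10 6 (Pf.B 10 5 (Pf.C 1 0x182810e28104) (Pf.C 1 0x101860228287)) (Pf.C 0 778)) (Pf.C 0 906)))
 (Pq.cons (Pq.L [0,1,2,3,4] 7 (Pf.B 9 6 (Pf.B 9 5 (Pf.B 9 7 (Pf.C 1 0x3860424185) (Pf.C 1 0x142000c24382)) (Pf.C 0 17033)) (Pf.C 0 17161)))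
 (Pq.cons (Pq.L [0,1,2,3,4] 7 (Pf.B 9 6 (Pf.B 9 5 (Pf.B 9 7 (Pf.C 1 0x3820c24185) (Pf.C 1 0x142000424386)) (Pf.C 0 17033)) (Pf.C 0 17161)))
 (Pq.cons (Pq.L [0,1,2,3,4] 7 (Pf.B 9 7 (Pf.B 9 6 (Pf.B 9 5 (Pf.C 1 0x81870c24005) (Pf.C 1 0x1c1840224286)) (Pf.C 0 777)) (Pf.C 0 905)))
 (Pq.cons (Pq.L [0,1,2,3,4] 7 (Pf.B 9 7 (Pf.B 9 6 (Pf.B 9 5 (Pf.C 1 0xc1070c24005) (Pf.C 1 0x1c1010824286)) (Pf.C 0 777)) (Pf.C 0 905)))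
 (Pq.cons (Pq.L [0,1,2,3,4] 7 (Pf.B 10 7 (Pf.B 10 6 (Pf.B 10 5 (Pf.C 1 0x102810e28106) (Pf.C 1 0x181840228287)) (Pf.C 0 778)) (Pf.C 0 906)))
 (Pq.cons (Pq.L [0,1,2,4] 63 (Pf.B 10 7 (Pf.B 10 6 (Pf.B 9 7 (Pf.B 9 6 (Pf.B 9 5 (Pf.B 8 7 (Pf.C 1 0x24401141c104) (Pf.B 8 6 (Pf.B 8 5 (Pf.C 1 0x18281121c404) (Pf.C 0 17032)) (Pf.C 1 0x281011218404))) (Pf.C 1 0x1c1010c24284)) (Pf.C 0 777)) (Pf.C 0 905)) (Pf.C 0 778)) (Pf.C 0 906)))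
 Pq.nil))))))))))))))))))))))))))))))))))))))))))))))))))))))))))))))))))))
theorem d_o38 : AllRef d_T d_G26 (List.drop 72 (hitObl [57,59,60,62,63,64,65,66,67,68,69] d_h46)) :=
  chkPq_sound d_o38c _ (by decide +kernel)
noncomputable def d_o39c : Pq := (Pq.cons (Pq.L [] 0 (Pf.C 156 5))
 Pq.nil)
theorem d_o39 : AllRef d_T d_G28 (List.map pat1 [75]) :=
  chkPq_sound d_o39c _ (by decide +kernel)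
noncomputable def d_o40c : Pq := (Pq.cons (Pq.L [4] 1 (Pf.C 0 98821))
 (Pq.cons (Pq.L [] 2 (Pf.C 41 647))
 (Pq.cons (Pq.L [] 2 (Pf.W 166 7 [] [5] (Pf.cons (Pf.B 8 5 (Pf.C 89 0x20287) (Pf.C 91 0x20287)) Pf.nil)))
 (Pq.cons (Pq.L [4] 1 (Pf.C 0 98821))
 (Pq.cons (Pq.L [] 2 (Pf.W 166 7 [] [5] (Pf.cons (Pf.B 8 5 (Pf.C 94 0x20287) (Pf.C 96 0x20287)) Pf.nil)))
 (Pq.cons (Pq.L [4] 1 (Pf.C 0 98821))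
 (Pq.cons (Pq.L [3] 1 (Pf.W 166 6 [] [3,5] (Pf.cons (Pf.B 8 5 (Pf.C 102 0x20286) (Pf.C 0 49800)) Pf.nil)))
 (Pq.cons (Pq.L [] 2 (Pf.C 42 647))
 (Pq.cons (Pq.L [] 2 (Pf.C 177 901))
 (Pq.cons (Pq.L [0] 1 (Pf.W 166 6 [] [0,5] (Pf.cons (Pf.B 8 5 (Pf.C 104 82950) (Pf.C 0 648)) Pf.nil)))
 (Pq.cons (Pq.L [] 2 (Pf.C 41 647))
 (Pq.cons (Pq.L [4] 1 (Pf.C 0 98821))
 (Pq.cons (Pq.L [] 2 (Pf.W 162 5 [] [7] (Pf.cons (Pf.B 8 7 (Pf.C 86 0x20287) (Pf.C 88 0x20287)) Pf.nil)))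
 (Pq.cons (Pq.L [3] 1 (Pf.W 166 6 [] [3,5] (Pf.cons (Pf.B 8 5 (Pf.C 102 0x20286) (Pf.C 0 49800)) Pf.nil)))
 (Pq.cons (Pq.L [] 2 (Pf.W 160 5 [] [7] (Pf.cons (Pf.B 8 7 (Pf.C 97 0x20287) (Pf.C 99 0x20287)) Pf.nil)))
 (Pq.cons (Pq.L [0] 1 (Pf.W 166 6 [] [0,5] (Pf.cons (Pf.B 8 5 (Pf.C 104 82950) (Pf.C 0 648)) Pf.nil)))
 (Pq.cons (Pq.L [4] 1 (Pf.C 0 98821))
 (Pq.cons (Pq.L [] 2 (Pf.C 42 647))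
 (Pq.cons (Pq.L [] 2 (Pf.C 167 901))
 (Pq.cons (Pq.L [3] 1 (Pf.C 0 98693))
 (Pq.cons (Pq.L [] 2 (Pf.W 176 7 [] [5] (Pf.cons (Pf.B 8 5 (Pf.C 89 0x1c288) (Pf.C 90 0x1c288)) Pf.nil)))
 (Pq.cons (Pq.L [4] 2 (Pf.W 176 7 [] [4,5] (Pf.cons (Pf.B 8 5 (Pf.C 93 0x1c288) (Pf.C 0 66184)) Pf.nil)))
 (Pq.cons (Pq.L [] 2 (Pf.W 176 7 [] [5] (Pf.cons (Pf.B 8 5 (Pf.C 94 0x1c288) (Pf.C 95 0x1c288)) Pf.nil)))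
 (Pq.cons (Pq.L [4] 2 (Pf.W 176 7 [] [4,5] (Pf.cons (Pf.B 8 5 (Pf.C 100 0x1c288) (Pf.C 0 66184)) Pf.nil)))
 (Pq.cons (Pq.L [3] 1 (Pf.C 0 98693))
 (Pq.cons (Pq.L [0] 1 (Pf.C 0 98309))
 (Pq.cons (Pq.L [0] 1 (Pf.C 0 98309))
 (Pq.cons (Pq.L [0] 1 (Pf.C 0 98309))
 (Pq.cons (Pq.L [3] 1 (Pf.C 0 98693))
 (Pq.cons (Pq.L [3] 2 (Pf.W 174 5 [] [3,7] (Pf.cons (Pf.B 8 7 (Pf.C 113 0x1c288) (Pf.C 0 50056)) Pf.nil)))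
 (Pq.cons (Pq.L [3] 1 (Pf.W 162 5 [] [3,6] (Pf.cons (Pf.B 8 6 (Pf.C 135 99333) (Pf.C 0 49928)) Pf.nil)))
 (Pq.cons (Pq.L [3] 1 (Pf.C 0 98693))
 (Pq.cons (Pq.L [0] 1 (Pf.W 160 5 [] [0,6] (Pf.cons (Pf.B 8 6 (Pf.C 149 0x20305) (Pf.C 0 776)) Pf.nil)))
 (Pq.cons (Pq.L [0] 1 (Pf.C 0 98309))
 (Pq.cons (Pq.L [0] 2 (Pf.W 168 5 [] [0,7] (Pf.cons (Pf.B 8 7 (Pf.C 152 0x1c405) (Pf.C 0 904)) Pf.nil)))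
 (Pq.cons (Pq.L [0] 1 (Pf.C 0 98309))
 Pq.nil))))))))))))))))))))))))))))))))))))
theorem d_o40 : AllRef d_T d_G40 (splitObl [89,99] [90,88,86,98,84,92,96,82,100,94,87,97,85,95,83,93,91,81]) :=
  chkPq_sound d_o40c _ (by decide +kernel)
noncomputable def d_o41c : Pq := (Pq.cons (Pq.L [] 0x1fffff (Pf.C 1 0x2c509101c305))
 (Pq.cons (Pq.L [4] 1 (Pf.C 0 98821))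
 (Pq.cons (Pq.L [0] 1 (Pf.C 0 98309))
 Pq.nil)))
theorem d_o41 : AllRef d_T d_G40 (applyObl bD_T 3 [89,99] [1,2] []) :=
  chkPq_sound d_o41c _ (by decide +kernel)
noncomputable def d_o42c : Pq := (Pq.cons (Pq.L [] 2 (Pf.C 41 647))
 (Pq.cons (Pq.L [4] 1 (Pf.C 0 98821))
 (Pq.cons (Pq.L [] 2 (Pf.W 162 5 [] [7] (Pf.cons (Pf.B 8 7 (Pf.C 86 0x20287) (Pf.C 88 0x20287)) Pf.nil)))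
 (Pq.cons (Pq.L [] 2 (Pf.W 172 5 [] [7] (Pf.cons (Pf.B 8 7 (Pf.C 86 82951) (Pf.C 87 82951)) Pf.nil)))
 (Pq.cons (Pq.L [] 2 (Pf.W 160 5 [] [7] (Pf.cons (Pf.B 8 7 (Pf.C 97 0x20287) (Pf.C 99 0x20287)) Pf.nil)))
 (Pq.cons (Pq.L [] 2 (Pf.W 170 5 [] [7] (Pf.cons (Pf.B 8 7 (Pf.C 97 82951) (Pf.C 98 82951)) Pf.nil)))
 (Pq.cons (Pq.L [4] 1 (Pf.C 0 98821))
 (Pq.cons (Pq.L [] 2 (Pf.C 42 647))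
 (Pq.cons (Pq.L [3] 1 (Pf.C 0 98693))
 (Pq.cons (Pq.L [] 2 (Pf.C 165 647))
 (Pq.cons (Pq.L [] 2 (Pf.C 43 647))
 (Pq.cons (Pq.L [3] 1 (Pf.C 0 98693))
 (Pq.cons (Pq.L [] 2 (Pf.W 160 5 [] [7] (Pf.cons (Pf.B 8 7 (Pf.C 115 0x20287) (Pf.C 117 0x20287)) Pf.nil)))
 (Pq.cons (Pq.L [] 2 (Pf.W 170 5 [] [7] (Pf.cons (Pf.B 8 7 (Pf.C 115 82951) (Pf.C 116 82951)) Pf.nil)))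
 (Pq.cons (Pq.L [] 2 (Pf.W 168 5 [] [7] (Pf.cons (Pf.B 8 7 (Pf.C 118 0x20287) (Pf.C 120 0x20287)) Pf.nil)))
 (Pq.cons (Pq.L [] 2 (Pf.W 158 5 [] [7] (Pf.cons (Pf.B 8 7 (Pf.C 118 82951) (Pf.C 119 82951)) Pf.nil)))
 (Pq.cons (Pq.L [] 2 (Pf.C 43 901))
 (Pq.cons (Pq.L [2] 1 (Pf.C 0 98565))
 (Pq.cons (Pq.L [2] 1 (Pf.C 0 98565))
 (Pq.cons (Pq.L [] 2 (Pf.C 163 647))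
 (Pq.cons (Pq.L [] 2 (Pf.C 44 647))
 (Pq.cons (Pq.L [2] 1 (Pf.C 0 98565))
 (Pq.cons (Pq.L [] 2 (Pf.W 168 5 [] [7] (Pf.cons (Pf.B 8 7 (Pf.C 127 0x20287) (Pf.C 129 0x20287)) Pf.nil)))
 (Pq.cons (Pq.L [] 2 (Pf.W 158 5 [] [7] (Pf.cons (Pf.B 8 7 (Pf.C 127 82951) (Pf.C 128 82951)) Pf.nil)))
 (Pq.cons (Pq.L [] 2 (Pf.C 175 647))
 (Pq.cons (Pq.L [2] 1 (Pf.C 0 98565))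
 (Pq.cons (Pq.L [2] 1 (Pf.C 0 98565))
 (Pq.cons (Pq.L [2] 2 (Pf.W 172 5 [] [2,7] (Pf.cons (Pf.B 8 7 (Pf.C 124 82824) (Pf.C 0 33672)) Pf.nil)))
 (Pq.cons (Pq.L [2] 1 (Pf.W 160 5 [] [2,6] (Pf.cons (Pf.B 8 6 (Pf.C 139 0x20286) (Pf.C 0 33544)) Pf.nil)))
 (Pq.cons (Pq.L [2] 1 (Pf.C 0 98565))
 (Pq.cons (Pq.L [4] 1 (Pf.C 0 98821))
 (Pq.cons (Pq.L [4] 1 (Pf.W 158 5 [] [4,6] (Pf.cons (Pf.B 8 6 (Pf.C 140 82950) (Pf.C 0 66312)) Pf.nil)))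
 (Pq.cons (Pq.L [] 2 (Pf.W 164 5 [] [7] (Pf.cons (Pf.B 8 7 (Pf.C 105 0x1c405) (Pf.C 107 0x1c405)) Pf.nil)))
 (Pq.cons (Pq.L [] 2 (Pf.W 174 5 [] [7] (Pf.cons (Pf.B 8 7 (Pf.C 105 0x1c288) (Pf.C 106 0x1c288)) Pf.nil)))
 (Pq.cons (Pq.L [] 2 (Pf.C 44 901))
 (Pq.cons (Pq.L [1] 1 (Pf.C 0 98437))
 (Pq.cons (Pq.L [1] 1 (Pf.C 0 98437))
 (Pq.cons (Pq.L [] 2 (Pf.C 161 647))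
 (Pq.cons (Pq.L [1] 1 (Pf.C 0 98437))
 (Pq.cons (Pq.L [] 2 (Pf.C 45 647))
 (Pq.cons (Pq.L [4] 1 (Pf.W 164 5 [] [4,6] (Pf.cons (Pf.B 8 6 (Pf.C 108 99333) (Pf.C 0 66312)) Pf.nil)))
 (Pq.cons (Pq.L [4] 1 (Pf.C 0 98821))
 (Pq.cons (Pq.L [1] 1 (Pf.W 162 5 [] [1,6] (Pf.cons (Pf.B 8 6 (Pf.C 126 0x20305) (Pf.C 0 17160)) Pf.nil)))
 (Pq.cons (Pq.L [1] 1 (Pf.C 0 98437))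
 (Pq.cons (Pq.L [1] 1 (Pf.C 0 98437))
 (Pq.cons (Pq.L [1] 2 (Pf.W 170 5 [] [1,7] (Pf.cons (Pf.B 8 7 (Pf.C 147 82824) (Pf.C 0 17288)) Pf.nil)))
 (Pq.cons (Pq.L [1] 1 (Pf.C 0 98437))
 (Pq.cons (Pq.L [] 2 (Pf.C 169 647))
 (Pq.cons (Pq.L [3] 1 (Pf.C 0 98693))
 (Pq.cons (Pq.L [3] 2 (Pf.W 174 5 [] [3,7] (Pf.cons (Pf.B 8 7 (Pf.C 109 0x1c288) (Pf.C 0 50056)) Pf.nil)))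
 (Pq.cons (Pq.L [] 2 (Pf.C 173 647))
 (Pq.cons (Pq.L [1] 1 (Pf.C 0 98437))
 (Pq.cons (Pq.L [1] 1 (Pf.C 0 98437))
 (Pq.cons (Pq.L [1] 2 (Pf.W 170 5 [] [1,7] (Pf.cons (Pf.B 8 7 (Pf.C 148 82824) (Pf.C 0 17288)) Pf.nil)))
 (Pq.cons (Pq.L [1] 1 (Pf.C 0 98437))
 (Pq.cons (Pq.L [1] 1 (Pf.W 158 5 [] [1,6] (Pf.cons (Pf.B 8 6 (Pf.C 150 82696) (Pf.C 0 17160)) Pf.nil)))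
 (Pq.cons (Pq.L [] 2 (Pf.W 164 5 [] [7] (Pf.cons (Pf.B 8 7 (Pf.C 110 0x1c405) (Pf.C 112 0x1c405)) Pf.nil)))
 (Pq.cons (Pq.L [] 2 (Pf.W 174 5 [] [7] (Pf.cons (Pf.B 8 7 (Pf.C 110 0x1c288) (Pf.C 111 0x1c288)) Pf.nil)))
 (Pq.cons (Pq.L [] 2 (Pf.W 162 5 [] [7] (Pf.cons (Pf.B 8 7 (Pf.C 132 0x1c405) (Pf.C 134 0x1c405)) Pf.nil)))
 (Pq.cons (Pq.L [] 2 (Pf.W 172 5 [] [7] (Pf.cons (Pf.B 8 7 (Pf.C 132 0x1c288) (Pf.C 133 0x1c288)) Pf.nil)))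
 (Pq.cons (Pq.L [] 2 (Pf.C 45 901))
 (Pq.cons (Pq.L [0] 1 (Pf.C 0 98309))
 (Pq.cons (Pq.L [] 2 (Pf.C 159 647))
 (Pq.cons (Pq.L [0] 1 (Pf.C 0 98309))
 (Pq.cons (Pq.L [3] 1 (Pf.C 0 98693))
 (Pq.cons (Pq.L [3] 2 (Pf.W 174 5 [] [3,7] (Pf.cons (Pf.B 8 7 (Pf.C 113 0x1c288) (Pf.C 0 50056)) Pf.nil)))
 (Pq.cons (Pq.L [3] 1 (Pf.W 162 5 [] [3,6] (Pf.cons (Pf.B 8 6 (Pf.C 135 99333) (Pf.C 0 49928)) Pf.nil)))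
 (Pq.cons (Pq.L [3] 1 (Pf.C 0 98693))
 (Pq.cons (Pq.L [0] 1 (Pf.W 160 5 [] [0,6] (Pf.cons (Pf.B 8 6 (Pf.C 149 0x20305) (Pf.C 0 776)) Pf.nil)))
 (Pq.cons (Pq.L [0] 1 (Pf.C 0 98309))
 (Pq.cons (Pq.L [0] 2 (Pf.W 168 5 [] [0,7] (Pf.cons (Pf.B 8 7 (Pf.C 152 0x1c405) (Pf.C 0 904)) Pf.nil)))
 (Pq.cons (Pq.L [0] 1 (Pf.C 0 98309))
 (Pq.cons (Pq.L [2] 1 (Pf.W 164 5 [] [2,6] (Pf.cons (Pf.B 8 6 (Pf.C 114 99333) (Pf.C 0 33544)) Pf.nil)))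
 (Pq.cons (Pq.L [2] 1 (Pf.C 0 98565))
 (Pq.cons (Pq.L [2] 1 (Pf.C 0 98565))
 (Pq.cons (Pq.L [2] 2 (Pf.W 172 5 [] [2,7] (Pf.cons (Pf.B 8 7 (Pf.C 136 0x1c288) (Pf.C 0 33672)) Pf.nil)))
 (Pq.cons (Pq.L [] 2 (Pf.C 171 647))
 (Pq.cons (Pq.L [0] 1 (Pf.C 0 98309))
 (Pq.cons (Pq.L [0] 2 (Pf.W 168 5 [] [0,7] (Pf.cons (Pf.B 8 7 (Pf.C 153 0x1c405) (Pf.C 0 904)) Pf.nil)))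
 (Pq.cons (Pq.L [0] 1 (Pf.C 0 98309))
 Pq.nil))))))))))))))))))))))))))))))))))))))))))))))))))))))))))))))))))))))))))))))))
theorem d_o42 : AllRef d_T d_G40 (splitObl [90,88,86,98,84,92,96,82,100,94] [87,97,85,95,83,93,91,81]) :=
  chkPq_sound d_o42c _ (by decide +kernel)
noncomputable def d_o43c : Pq := (Pq.cons (Pq.L [4] 1 (Pf.C 0 98821))
 (Pq.cons (Pq.L [] 1 (Pf.C 179 646))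
 (Pq.cons (Pq.L [] 2 (Pf.C 41 901))
 (Pq.cons (Pq.L [] 2 (Pf.C 43 647))
 (Pq.cons (Pq.L [] 1 (Pf.C 181 646))
 (Pq.cons (Pq.L [2] 1 (Pf.C 0 98565))
 (Pq.cons (Pq.L [4] 1 (Pf.C 0 98821))
 (Pq.cons (Pq.L [2] 1 (Pf.C 0 98565))
 (Pq.cons (Pq.L [] 1 (Pf.W 178 5 [] [6] (Pf.cons (Pf.B 8 6 (Pf.C 44 776) (Pf.C 0 82696)) Pf.nil)))
 (Pq.cons (Pq.L [] 2 (Pf.C 44 901))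
 (Pq.cons (Pq.L [4] 1 (Pf.C 0 98821))
 (Pq.cons (Pq.L [0,1,3,4] 3 (Pf.B 7 6 (Pf.W 180 5 [] [0,1,3,4,6,7] (Pf.cons (Pf.B 8 7 (Pf.B 8 6 (Pf.C 1 0x202860e00083) (Pf.C 0 66312)) (Pf.C 0 66440)) Pf.nil)) (Pf.C 0 17159)))
 (Pq.cons (Pq.L [] 1 (Pf.W 178 5 [] [6] (Pf.cons (Pf.B 8 6 (Pf.C 163 776) (Pf.C 0 82696)) Pf.nil)))
 (Pq.cons (Pq.L [] 2 (Pf.C 163 901))
 (Pq.cons (Pq.L [] 2 (Pf.C 42 901))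
 (Pq.cons (Pq.L [] 1 (Pf.W 180 5 [] [6] (Pf.cons (Pf.B 8 6 (Pf.C 42 776) (Pf.C 0 82696)) Pf.nil)))
 (Pq.cons (Pq.L [] 2 (Pf.C 167 901))
 (Pq.cons (Pq.L [] 1 (Pf.W 180 5 [] [6] (Pf.cons (Pf.B 8 6 (Pf.C 167 776) (Pf.C 0 82696)) Pf.nil)))
 (Pq.cons (Pq.L [0,1,2,3] 3 (Pf.B 7 6 (Pf.W 178 5 [] [0,1,2,3,6,7] (Pf.cons (Pf.B 8 7 (Pf.B 8 6 (Pf.C 1 0x202860e04003) (Pf.C 0 33544)) (Pf.C 0 33672)) Pf.nil)) (Pf.C 0 775)))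
 (Pq.cons (Pq.L [2] 1 (Pf.C 0 98565))
 Pq.nil))))))))))))))))))))
theorem d_o43 : AllRef d_T d_G42 (splitObl [102,88,104,98,84,92,96,82,100,94] [101,103]) :=
  chkPq_sound d_o43c _ (by decide +kernel)
noncomputable def d_o44c : Pq := (Pq.cons (Pq.L [] 2 (Pf.C 41 647))
 (Pq.cons (Pq.L [] 2 (Pf.C 42 647))
 (Pq.cons (Pq.L [3] 1 (Pf.C 0 98693))
 (Pq.cons (Pq.L [] 1 (Pf.C 185 646))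
 (Pq.cons (Pq.L [] 2 (Pf.C 43 901))
 (Pq.cons (Pq.L [] 1 (Pf.W 182 5 [] [6] (Pf.cons (Pf.B 8 6 (Pf.C 43 776) (Pf.C 0 82696)) Pf.nil)))
 (Pq.cons (Pq.L [] 2 (Pf.C 165 901))
 (Pq.cons (Pq.L [] 1 (Pf.W 182 5 [] [6] (Pf.cons (Pf.B 8 6 (Pf.C 165 776) (Pf.C 0 82696)) Pf.nil)))
 (Pq.cons (Pq.L [] 1 (Pf.W 184 5 [] [6] (Pf.cons (Pf.B 8 6 (Pf.C 45 1030) (Pf.C 0 82696)) Pf.nil)))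
 (Pq.cons (Pq.L [] 2 (Pf.C 45 647))
 (Pq.cons (Pq.L [] 1 (Pf.W 184 5 [] [6] (Pf.cons (Pf.B 8 6 (Pf.C 159 776) (Pf.C 0 82696)) Pf.nil)))
 (Pq.cons (Pq.L [] 2 (Pf.C 159 901))
 (Pq.cons (Pq.L [3] 1 (Pf.C 0 98693))
 (Pq.cons (Pq.L [1,2,3,4] 3 (Pf.B 7 6 (Pf.W 182 5 [] [1,2,3,4,6,7] (Pf.cons (Pf.B 8 7 (Pf.B 8 6 (Pf.C 1 0x202860e08084) (Pf.C 0 49928)) (Pf.C 0 50056)) Pf.nil)) (Pf.C 0 17159)))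
 (Pq.cons (Pq.L [] 1 (Pf.C 183 646))
 (Pq.cons (Pq.L [0] 1 (Pf.C 0 98309))
 (Pq.cons (Pq.L [3] 1 (Pf.C 0 98693))
 (Pq.cons (Pq.L [0] 1 (Pf.C 0 98309))
 (Pq.cons (Pq.L [0,1,2,4] 3 (Pf.B 7 6 (Pf.W 184 5 [] [0,1,2,4,6,7] (Pf.cons (Pf.B 8 7 (Pf.B 8 6 (Pf.C 1 0x202860e04104) (Pf.C 0 776)) (Pf.C 0 904)) Pf.nil)) (Pf.C 0 775)))
 (Pq.cons (Pq.L [0] 1 (Pf.C 0 98309))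
 Pq.nil))))))))))))))))))))
theorem d_o44 : AllRef d_T d_G44 (splitObl [102,108,104,98,84,92,96,106,100,94] [107,105]) :=
  chkPq_sound d_o44c _ (by decide +kernel)
noncomputable def d_o45c : Pq := (Pq.cons (Pq.L [4] 1 (Pf.C 0 98821))
 (Pq.cons (Pq.L [] 1 (Pf.C 189 646))
 (Pq.cons (Pq.L [] 2 (Pf.C 41 901))
 (Pq.cons (Pq.L [] 1 (Pf.W 186 5 [] [6] (Pf.cons (Pf.B 8 6 (Pf.C 41 776) (Pf.C 0 82696)) Pf.nil)))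
 (Pq.cons (Pq.L [] 1 (Pf.C 179 773))
 (Pq.cons (Pq.L [] 2 (Pf.C 44 647))
 (Pq.cons (Pq.L [4] 1 (Pf.C 0 98821))
 (Pq.cons (Pq.L [0,2,3,4] 3 (Pf.B 7 6 (Pf.W 186 5 [] [0,2,3,4,6,7] (Pf.cons (Pf.B 8 7 (Pf.B 8 6 (Pf.C 1 0x202860e0c100) (Pf.C 0 66312)) (Pf.C 0 66440)) Pf.nil)) (Pf.C 0 33543)))
 (Pq.cons (Pq.L [] 1 (Pf.C 187 646))
 (Pq.cons (Pq.L [1] 1 (Pf.C 0 98437))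
 (Pq.cons (Pq.L [4] 1 (Pf.C 0 98821))
 (Pq.cons (Pq.L [1] 1 (Pf.C 0 98437))
 (Pq.cons (Pq.L [0,1,2,3] 3 (Pf.B 7 6 (Pf.W 188 5 [] [0,1,2,3,6,7] (Pf.cons (Pf.B 8 7 (Pf.B 8 6 (Pf.C 1 0x202860e08180) (Pf.C 0 17160)) (Pf.C 0 17288)) Pf.nil)) (Pf.C 0 17159)))
 (Pq.cons (Pq.L [1] 1 (Pf.C 0 98437))
 (Pq.cons (Pq.L [] 2 (Pf.C 42 901))
 (Pq.cons (Pq.L [] 2 (Pf.C 45 901))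
 (Pq.cons (Pq.L [] 2 (Pf.C 167 901))
 (Pq.cons (Pq.L [] 1 (Pf.W 186 5 [] [6] (Pf.cons (Pf.B 8 6 (Pf.C 167 776) (Pf.C 0 82696)) Pf.nil)))
 (Pq.cons (Pq.L [] 1 (Pf.W 188 5 [] [6] (Pf.cons (Pf.B 8 6 (Pf.C 161 776) (Pf.C 0 82696)) Pf.nil)))
 (Pq.cons (Pq.L [] 2 (Pf.C 161 901))
 Pq.nil))))))))))))))))))))
theorem d_o45 : AllRef d_T d_G46 (splitObl [112,108,104,98,110,92,96,106,100,94] [111,109]) :=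
  chkPq_sound d_o45c _ (by decide +kernel)
noncomputable def d_o46c : Pq := (Pq.cons (Pq.L [] 1 (Pf.C 179 646))
 (Pq.cons (Pq.L [] 2 (Pf.C 42 647))
 (Pq.cons (Pq.L [] 2 (Pf.C 43 647))
 (Pq.cons (Pq.L [] 1 (Pf.C 183 773))
 (Pq.cons (Pq.L [2] 1 (Pf.C 0 98565))
 (Pq.cons (Pq.L [] 1 (Pf.C 191 646))
 (Pq.cons (Pq.L [2] 1 (Pf.C 0 98565))
 (Pq.cons (Pq.L [1,2,3,4] 3 (Pf.B 7 6 (Pf.W 192 5 [] [1,2,3,4,6,7] (Pf.cons (Pf.B 8 7 (Pf.B 8 6 (Pf.C 1 0x202860e0c201) (Pf.C 0 33544)) (Pf.C 0 33672)) Pf.nil)) (Pf.C 0 33543)))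
 (Pq.cons (Pq.L [] 2 (Pf.C 44 901))
 (Pq.cons (Pq.L [] 2 (Pf.C 45 647))
 (Pq.cons (Pq.L [] 1 (Pf.W 190 5 [] [6] (Pf.cons (Pf.B 8 6 (Pf.C 159 776) (Pf.C 0 82696)) Pf.nil)))
 (Pq.cons (Pq.L [] 2 (Pf.C 159 901))
 (Pq.cons (Pq.L [] 2 (Pf.C 163 901))
 (Pq.cons (Pq.L [] 1 (Pf.W 192 5 [] [6] (Pf.cons (Pf.B 8 6 (Pf.C 163 776) (Pf.C 0 82696)) Pf.nil)))
 (Pq.cons (Pq.L [] 1 (Pf.C 193 646))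
 (Pq.cons (Pq.L [0] 1 (Pf.C 0 98309))
 (Pq.cons (Pq.L [0,1,3,4] 3 (Pf.B 7 6 (Pf.W 190 5 [] [0,1,3,4,6,7] (Pf.cons (Pf.B 8 7 (Pf.B 8 6 (Pf.C 1 0x202860e10181) (Pf.C 0 776)) (Pf.C 0 904)) Pf.nil)) (Pf.C 0 775)))
 (Pq.cons (Pq.L [0] 1 (Pf.C 0 98309))
 (Pq.cons (Pq.L [2] 1 (Pf.C 0 98565))
 (Pq.cons (Pq.L [0] 1 (Pf.C 0 98309))
 Pq.nil))))))))))))))))))))
theorem d_o46 : AllRef d_T d_G48 (splitObl [112,108,114,98,110,92,96,116,100,94] [113,115]) :=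
  chkPq_sound d_o46c _ (by decide +kernel)
noncomputable def d_o47c : Pq := (Pq.cons (Pq.L [] 2 (Pf.C 41 647))
 (Pq.cons (Pq.L [] 1 (Pf.C 187 773))
 (Pq.cons (Pq.L [3] 1 (Pf.C 0 98693))
 (Pq.cons (Pq.L [] 1 (Pf.C 195 646))
 (Pq.cons (Pq.L [] 2 (Pf.C 43 901))
 (Pq.cons (Pq.L [] 2 (Pf.C 44 647))
 (Pq.cons (Pq.L [] 2 (Pf.C 165 901))
 (Pq.cons (Pq.L [] 1 (Pf.W 196 5 [] [6] (Pf.cons (Pf.B 8 6 (Pf.C 165 776) (Pf.C 0 82696)) Pf.nil)))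
 (Pq.cons (Pq.L [] 1 (Pf.C 197 646))
 (Pq.cons (Pq.L [1] 1 (Pf.C 0 98437))
 (Pq.cons (Pq.L [0,1,2,4] 3 (Pf.B 7 6 (Pf.W 194 5 [] [0,1,2,4,6,7] (Pf.cons (Pf.B 8 7 (Pf.B 8 6 (Pf.C 1 0x202860e00202) (Pf.C 0 17160)) (Pf.C 0 17288)) Pf.nil)) (Pf.C 0 17159)))
 (Pq.cons (Pq.L [1] 1 (Pf.C 0 98437))
 (Pq.cons (Pq.L [3] 1 (Pf.C 0 98693))
 (Pq.cons (Pq.L [1] 1 (Pf.C 0 98437))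
 (Pq.cons (Pq.L [] 1 (Pf.C 183 646))
 (Pq.cons (Pq.L [] 2 (Pf.C 45 901))
 (Pq.cons (Pq.L [3] 1 (Pf.C 0 98693))
 (Pq.cons (Pq.L [0,2,3,4] 3 (Pf.B 7 6 (Pf.W 196 5 [] [0,2,3,4,6,7] (Pf.cons (Pf.B 8 7 (Pf.B 8 6 (Pf.C 1 0x202860e10002) (Pf.C 0 49928)) (Pf.C 0 50056)) Pf.nil)) (Pf.C 0 775)))
 (Pq.cons (Pq.L [] 1 (Pf.W 194 5 [] [6] (Pf.cons (Pf.B 8 6 (Pf.C 161 776) (Pf.C 0 82696)) Pf.nil)))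
 (Pq.cons (Pq.L [] 2 (Pf.C 161 901))
 Pq.nil))))))))))))))))))))
theorem d_o47 : AllRef d_T d_G50 (splitObl [112,118,114,98,120,92,96,116,100,94] [117,119]) :=
  chkPq_sound d_o47c _ (by decide +kernel)
noncomputable def d_o48c : Pq := (Pq.cons (Pq.L [] 2 (Pf.C 41 647))
 (Pq.cons (Pq.L [4] 1 (Pf.C 0 98821))
 (Pq.cons (Pq.L [] 1 (Pf.C 209 773))
 (Pq.cons (Pq.L [] 1 (Pf.C 179 646))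
 (Pq.cons (Pq.L [4] 1 (Pf.C 0 98821))
 (Pq.cons (Pq.L [] 2 (Pf.C 167 647))
 (Pq.cons (Pq.L [4] 1 (Pf.C 0 98821))
 (Pq.cons (Pq.L [] 1 (Pf.C 187 773))
 (Pq.cons (Pq.L [] 2 (Pf.C 167 647))
 (Pq.cons (Pq.L [4] 1 (Pf.C 0 98821))
 (Pq.cons (Pq.L [4] 1 (Pf.W 210 5 [] [4,6] (Pf.cons (Pf.B 8 6 (Pf.C 92 82950) (Pf.C 0 66312)) (Pf.cons (Pf.B 8 6 (Pf.C 42 1030) (Pf.C 0 82696)) Pf.nil))))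
 (Pq.cons (Pq.L [] 2 (Pf.C 42 647))
 (Pq.cons (Pq.L [3] 1 (Pf.C 0 98693))
 (Pq.cons (Pq.L [1] 1 (Pf.C 0 98437))
 (Pq.cons (Pq.L [] 2 (Pf.C 208 901))
 (Pq.cons (Pq.L [] 2 (Pf.C 163 901))
 (Pq.cons (Pq.L [1] 1 (Pf.C 0 98437))
 (Pq.cons (Pq.L [3] 1 (Pf.C 0 98693))
 (Pq.cons (Pq.L [1,3] 2 (Pf.W 198 5 [] [1,3,7] (Pf.cons (Pf.B 8 7 (Pf.C 143 0x20385) (Pf.C 0 50056)) (Pf.cons (Pf.B 8 7 (Pf.C 137 0x1c405) (Pf.C 0 17288)) Pf.nil))))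
 (Pq.cons (Pq.L [1] 1 (Pf.C 0 98437))
 (Pq.cons (Pq.L [3] 1 (Pf.C 0 98693))
 (Pq.cons (Pq.L [] 2 (Pf.C 211 647))
 (Pq.cons (Pq.L [1] 1 (Pf.C 0 98437))
 (Pq.cons (Pq.L [] 1 (Pf.C 212 646))
 (Pq.cons (Pq.L [0,3] 1 (Pf.B 7 6 (Pf.W 207 6 [] [3,5] (Pf.cons (Pf.B 8 5 (Pf.C 123 99333) (Pf.C 0 49800)) (Pf.cons (Pf.B 8 5 (Pf.C 41 648) (Pf.C 0 98952)) Pf.nil))) (Pf.C 0 775)))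
 (Pq.cons (Pq.L [0,1,4] 2 (Pf.B 7 6 (Pf.W 207 7 [] [1,4,5] (Pf.cons (Pf.B 8 5 (Pf.C 151 0x1c405) (Pf.C 0 17032)) (Pf.cons (Pf.B 8 5 (Pf.C 101 0x1c288) (Pf.C 0 66184)) Pf.nil))) (Pf.C 0 775)))
 (Pq.cons (Pq.L [0] 1 (Pf.C 0 98309))
 (Pq.cons (Pq.L [2] 1 (Pf.C 0 98565))
 (Pq.cons (Pq.L [] 2 (Pf.C 205 901))
 (Pq.cons (Pq.L [0] 1 (Pf.C 0 98309))
 (Pq.cons (Pq.L [2] 1 (Pf.C 0 98565))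
 (Pq.cons (Pq.L [] 2 (Pf.C 161 901))
 (Pq.cons (Pq.L [0] 1 (Pf.C 0 98309))
 (Pq.cons (Pq.L [2] 1 (Pf.C 0 98565))
 (Pq.cons (Pq.L [0,2] 2 (Pf.W 210 5 [] [0,2,7] (Pf.cons (Pf.B 8 7 (Pf.C 144 0x1c288) (Pf.C 0 33672)) (Pf.cons (Pf.B 8 7 (Pf.C 155 0x1c405) (Pf.C 0 904)) Pf.nil))))
 (Pq.cons (Pq.L [0] 1 (Pf.C 0 98309))
 Pq.nil))))))))))))))))))))))))))))))))))))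
theorem d_o48 : AllRef d_T d_G55 (splitObl [112,130,127] [118,125,128,114,126,123,121,120,124,122,129,116]) :=
  chkPq_sound d_o48c _ (by decide +kernel)
noncomputable def d_o49c : Pq := (Pq.cons (Pq.L [] 7 (Pf.C 0 0x1c305))
 (Pq.cons (Pq.L [] 0x1fffff (Pf.C 1 0x2c509101c305))
 (Pq.cons (Pq.L [0] 1 (Pf.C 0 98309))
 (Pq.cons (Pq.L [1] 1 (Pf.C 0 98437))
 (Pq.cons (Pq.L [4] 1 (Pf.C 0 98821))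
 (Pq.cons (Pq.L [] 7 (Pf.C 103 0x1c305))
 (Pq.cons (Pq.L [0,3] 1023 (Pf.C 1 0x244030e18280))
 (Pq.cons (Pq.L [0,3] 1023 (Pf.C 1 0x244000e18283))
 (Pq.cons (Pq.L [1,4] 1023 (Pf.C 1 0x244010e18284))
 (Pq.cons (Pq.L [2,4] 1023 (Pf.C 1 0x244020e18284))
 Pq.nil))))))))))
theorem d_o49 : AllRef d_T d_G55 (applyObl cur_T 10 [112,130,127] [1,2,3] []) :=
  chkPq_sound d_o49c _ (by decide +kernel)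
noncomputable def d_o50c : Pq := (Pq.cons (Pq.L [] 2 (Pf.C 43 647))
 (Pq.cons (Pq.L [] 1 (Pf.C 206 773))
 (Pq.cons (Pq.L [3] 1 (Pf.C 0 98693))
 (Pq.cons (Pq.L [] 2 (Pf.C 165 647))
 (Pq.cons (Pq.L [] 1 (Pf.C 195 646))
 (Pq.cons (Pq.L [3] 1 (Pf.C 0 98693))
 (Pq.cons (Pq.L [] 2 (Pf.C 165 647))
 (Pq.cons (Pq.L [3] 1 (Pf.C 0 98693))
 (Pq.cons (Pq.L [] 1 (Pf.C 183 773))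
 (Pq.cons (Pq.L [1,2] 1 (Pf.B 7 6 (Pf.W 204 6 [] [2,5] (Pf.cons (Pf.B 8 5 (Pf.C 131 0x20305) (Pf.C 0 33416)) (Pf.cons (Pf.B 8 5 (Pf.C 43 648) (Pf.C 0 98952)) Pf.nil))) (Pf.C 0 17159)))
 (Pq.cons (Pq.L [1] 1 (Pf.C 0 98437))
 (Pq.cons (Pq.L [0,1,3] 2 (Pf.B 7 6 (Pf.W 204 7 [] [0,3,5] (Pf.cons (Pf.B 8 5 (Pf.C 154 0x20287) (Pf.C 0 648)) (Pf.cons (Pf.B 8 5 (Pf.C 121 82824) (Pf.C 0 49800)) Pf.nil))) (Pf.C 0 17159)))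
 (Pq.cons (Pq.L [4] 1 (Pf.C 0 98821))
 (Pq.cons (Pq.L [1] 1 (Pf.C 0 98437))
 (Pq.cons (Pq.L [] 2 (Pf.C 202 901))
 (Pq.cons (Pq.L [4] 1 (Pf.C 0 98821))
 (Pq.cons (Pq.L [1] 1 (Pf.C 0 98437))
 (Pq.cons (Pq.L [] 2 (Pf.C 159 901))
 (Pq.cons (Pq.L [2] 1 (Pf.C 0 98565))
 (Pq.cons (Pq.L [] 2 (Pf.C 205 901))
 (Pq.cons (Pq.L [0] 1 (Pf.C 0 98309))
 (Pq.cons (Pq.L [2] 1 (Pf.C 0 98565))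
 (Pq.cons (Pq.L [] 2 (Pf.C 161 901))
 (Pq.cons (Pq.L [0] 1 (Pf.C 0 98309))
 (Pq.cons (Pq.L [2] 1 (Pf.C 0 98565))
 (Pq.cons (Pq.L [] 2 (Pf.C 208 647))
 (Pq.cons (Pq.L [0] 1 (Pf.C 0 98309))
 Pq.nil)))))))))))))))))))))))))))
theorem d_o50 : AllRef d_T d_G55 (splitObl [118,125,128] [114,126,123,121,120,124,122,129,116]) :=
  chkPq_sound d_o50c _ (by decide +kernel)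
noncomputable def d_o51c : Pq := (Pq.cons (Pq.L [] 7 (Pf.C 0 0x1c305))
 (Pq.cons (Pq.L [] 0x1fffff (Pf.C 1 0x2c509101c305))
 (Pq.cons (Pq.L [0] 1 (Pf.C 0 98309))
 (Pq.cons (Pq.L [1] 1 (Pf.C 0 98437))
 (Pq.cons (Pq.L [3] 1 (Pf.C 0 98693))
 (Pq.cons (Pq.L [] 7 (Pf.C 122 0x1c305))
 (Pq.cons (Pq.L [2,4] 1023 (Pf.C 1 0x244040e18282))
 (Pq.cons (Pq.L [2,4] 1023 (Pf.C 1 0x244020e18284))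
 (Pq.cons (Pq.L [1,3] 1023 (Pf.C 1 0x244010e18283))
 (Pq.cons (Pq.L [0,3] 1023 (Pf.C 1 0x244000e18283))
 Pq.nil))))))))))
theorem d_o51 : AllRef d_T d_G55 (applyObl cur_T 10 [118,125,128] [1,2,3] []) :=
  chkPq_sound d_o51c _ (by decide +kernel)
noncomputable def d_o52c : Pq := (Pq.cons (Pq.L [2] 1 (Pf.C 0 98565))
 (Pq.cons (Pq.L [] 2 (Pf.C 44 647))
 (Pq.cons (Pq.L [] 1 (Pf.C 203 773))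
 (Pq.cons (Pq.L [2] 1 (Pf.C 0 98565))
 (Pq.cons (Pq.L [] 2 (Pf.C 163 647))
 (Pq.cons (Pq.L [] 1 (Pf.C 191 646))
 (Pq.cons (Pq.L [4] 1 (Pf.C 0 98821))
 (Pq.cons (Pq.L [1] 1 (Pf.C 0 98437))
 (Pq.cons (Pq.L [] 2 (Pf.C 202 901))
 (Pq.cons (Pq.L [4] 1 (Pf.C 0 98821))
 (Pq.cons (Pq.L [1] 1 (Pf.C 0 98437))
 (Pq.cons (Pq.L [] 2 (Pf.C 159 901))
 (Pq.cons (Pq.L [0,2,4] 2 (Pf.B 7 6 (Pf.W 201 7 [] [2,4,5] (Pf.cons (Pf.B 8 5 (Pf.C 141 0x1c405) (Pf.C 0 66184)) (Pf.cons (Pf.B 8 5 (Pf.C 125 0x1c288) (Pf.C 0 33416)) Pf.nil))) (Pf.C 0 775)))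
 (Pq.cons (Pq.L [0,1] 1 (Pf.B 7 6 (Pf.W 201 6 [] [1,5] (Pf.cons (Pf.B 8 5 (Pf.C 146 99333) (Pf.C 0 17032)) (Pf.cons (Pf.B 8 5 (Pf.C 44 648) (Pf.C 0 98952)) Pf.nil))) (Pf.C 0 775)))
 (Pq.cons (Pq.L [0] 1 (Pf.C 0 98309))
 (Pq.cons (Pq.L [] 2 (Pf.C 199 901))
 (Pq.cons (Pq.L [3] 1 (Pf.C 0 98693))
 (Pq.cons (Pq.L [0] 1 (Pf.C 0 98309))
 Pq.nil))))))))))))))))))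
theorem d_o52 : AllRef d_T d_G55 (splitObl [114,126,123] [121,120,124,122,129,116]) :=
  chkPq_sound d_o52c _ (by decide +kernel)
noncomputable def d_o53c : Pq := (Pq.cons (Pq.L [] 7 (Pf.C 0 0x1c305))
 (Pq.cons (Pq.L [] 0x1fffff (Pf.C 1 0x2c509101c305))
 (Pq.cons (Pq.L [0] 1 (Pf.C 0 98309))
 (Pq.cons (Pq.L [1] 1 (Pf.C 0 98437))
 (Pq.cons (Pq.L [2] 1 (Pf.C 0 98565))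
 (Pq.cons (Pq.L [] 7 (Pf.C 130 0x1c305))
 (Pq.cons (Pq.L [1,3] 1023 (Pf.C 1 0x244010e18283))
 (Pq.cons (Pq.L [1,3] 1023 (Pf.C 1 0x244030e18281))
 (Pq.cons (Pq.L [2,4] 1023 (Pf.C 1 0x244040e18282))
 (Pq.cons (Pq.L [0,2] 1023 (Pf.C 1 0x244000e18282))
 Pq.nil))))))))))
theorem d_o53 : AllRef d_T d_G55 (applyObl cur_T 10 [114,126,123] [1,2,3] []) :=
  chkPq_sound d_o53c _ (by decide +kernel)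
noncomputable def d_o54c : Pq := (Pq.cons (Pq.L [2] 1 (Pf.C 0 98565))
 (Pq.cons (Pq.L [1,2,3] 2 (Pf.B 7 6 (Pf.W 198 7 [] [1,3,5] (Pf.cons (Pf.B 8 5 (Pf.C 143 0x20287) (Pf.C 0 49800)) (Pf.cons (Pf.B 8 5 (Pf.C 137 82951) (Pf.C 0 17032)) Pf.nil))) (Pf.C 0 33543)))
 (Pq.cons (Pq.L [0,2] 1 (Pf.B 7 6 (Pf.W 198 6 [] [0,5] (Pf.cons (Pf.B 8 5 (Pf.C 145 0x20286) (Pf.C 0 648)) (Pf.cons (Pf.B 8 5 (Pf.C 45 648) (Pf.C 0 98952)) Pf.nil))) (Pf.C 0 33543)))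
 (Pq.cons (Pq.L [] 1 (Pf.C 200 773))
 (Pq.cons (Pq.L [1] 1 (Pf.C 0 98437))
 (Pq.cons (Pq.L [] 2 (Pf.C 45 647))
 (Pq.cons (Pq.L [] 2 (Pf.C 199 901))
 (Pq.cons (Pq.L [3] 1 (Pf.C 0 98693))
 (Pq.cons (Pq.L [0] 1 (Pf.C 0 98309))
 Pq.nil)))))))))
theorem d_o54 : AllRef d_T d_G55 (splitObl [121,120,124] [122,129,116]) :=
  chkPq_sound d_o54c _ (by decide +kernel)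
noncomputable def d_o55c : Pq := (Pq.cons (Pq.L [] 7 (Pf.C 0 0x1c305))
 (Pq.cons (Pq.L [] 0x1fffff (Pf.C 1 0x2c509101c305))
 (Pq.cons (Pq.L [0] 1 (Pf.C 0 98309))
 (Pq.cons (Pq.L [1] 1 (Pf.C 0 98437))
 (Pq.cons (Pq.L [2] 1 (Pf.C 0 98565))
 (Pq.cons (Pq.L [] 7 (Pf.C 138 0x1c305))
 (Pq.cons (Pq.L [1,3] 1023 (Pf.C 1 0x244010e18283))
 (Pq.cons (Pq.L [1,3] 1023 (Pf.C 1 0x244030e18281))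
 (Pq.cons (Pq.L [1,4] 1023 (Pf.C 1 0x244010e18284))
 (Pq.cons (Pq.L [0,2] 1023 (Pf.C 1 0x244000e18282))
 Pq.nil))))))))))
theorem d_o55 : AllRef d_T d_G55 (applyObl cur_T 10 [121,120,124] [1,2,3] []) :=
  chkPq_sound d_o55c _ (by decide +kernel)
noncomputable def d_o56c : Pq := (Pq.cons (Pq.L [] 7 (Pf.C 0 0x1c305))
 (Pq.cons (Pq.L [] 0x1fffff (Pf.C 1 0x2c509101c305))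
 (Pq.cons (Pq.L [0] 1 (Pf.C 0 98309))
 (Pq.cons (Pq.L [1] 1 (Pf.C 0 98437))
 (Pq.cons (Pq.L [2] 1 (Pf.C 0 98565))
 (Pq.cons (Pq.L [] 7 (Pf.C 142 0x1c305))
 (Pq.cons (Pq.L [0,3] 1023 (Pf.C 1 0x244030e18280))
 (Pq.cons (Pq.L [0,3] 1023 (Pf.C 1 0x244000e18283))
 (Pq.cons (Pq.L [1,4] 1023 (Pf.C 1 0x244010e18284))
 (Pq.cons (Pq.L [0,2] 1023 (Pf.C 1 0x244000e18282))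
 Pq.nil))))))))))
theorem d_o56 : AllRef d_T d_G55 (applyObl cur_T 10 [122,129,116] [1,2,3] []) :=
  chkPq_sound d_o56c _ (by decide +kernel)
noncomputable def d_o57c : Pq := (Pq.cons (Pq.L [] 0x1fffff (Pf.C 1 0x2c509101c305))
 (Pq.cons (Pq.L [3] 1 (Pf.C 0 98693))
 (Pq.cons (Pq.L [1] 1 (Pf.C 0 98437))
 Pq.nil)))
theorem d_o57 : AllRef d_T d_G50 (applyObl bD_T 3 [117,119] [1,2] []) :=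
  chkPq_sound d_o57c _ (by decide +kernel)
noncomputable def d_o58c : Pq := (Pq.cons (Pq.L [] 0x1fffff (Pf.C 1 0x2c509101c305))
 (Pq.cons (Pq.L [2] 1 (Pf.C 0 98565))
 (Pq.cons (Pq.L [0] 1 (Pf.C 0 98309))
 Pq.nil)))
theorem d_o58 : AllRef d_T d_G48 (applyObl bD_T 3 [113,115] [1,2] []) :=
  chkPq_sound d_o58c _ (by decide +kernel)
noncomputable def d_o59c : Pq := (Pq.cons (Pq.L [] 0x1fffff (Pf.C 1 0x2c509101c305))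
 (Pq.cons (Pq.L [4] 1 (Pf.C 0 98821))
 (Pq.cons (Pq.L [1] 1 (Pf.C 0 98437))
 Pq.nil)))
theorem d_o59 : AllRef d_T d_G46 (applyObl bD_T 3 [111,109] [1,2] []) :=
  chkPq_sound d_o59c _ (by decide +kernel)
noncomputable def d_o60c : Pq := (Pq.cons (Pq.L [] 0x1fffff (Pf.C 1 0x2c509101c305))
 (Pq.cons (Pq.L [3] 1 (Pf.C 0 98693))
 (Pq.cons (Pq.L [0] 1 (Pf.C 0 98309))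
 Pq.nil)))
theorem d_o60 : AllRef d_T d_G44 (applyObl bD_T 3 [107,105] [1,2] []) :=
  chkPq_sound d_o60c _ (by decide +kernel)
noncomputable def d_o61c : Pq := (Pq.cons (Pq.L [] 0x1fffff (Pf.C 1 0x2c509101c305))
 (Pq.cons (Pq.L [4] 1 (Pf.C 0 98821))
 (Pq.cons (Pq.L [2] 1 (Pf.C 0 98565))
 Pq.nil)))
theorem d_o61 : AllRef d_T d_G42 (applyObl bD_T 3 [101,103] [1,2] []) :=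
  chkPq_sound d_o61c _ (by decide +kernel)
noncomputable def d_o62c : Pq := (Pq.cons (Pq.L [] 2 (Pf.C 43 647))
 (Pq.cons (Pq.L [3] 1 (Pf.C 0 98693))
 (Pq.cons (Pq.L [] 2 (Pf.W 160 5 [] [7] (Pf.cons (Pf.B 8 7 (Pf.C 115 0x20287) (Pf.C 117 0x20287)) Pf.nil)))
 (Pq.cons (Pq.L [2] 1 (Pf.W 164 6 [] [2,5] (Pf.cons (Pf.B 8 5 (Pf.C 114 82950) (Pf.C 0 33416)) Pf.nil)))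
 (Pq.cons (Pq.L [4] 1 (Pf.W 164 6 [] [4,5] (Pf.cons (Pf.B 8 5 (Pf.C 108 82950) (Pf.C 0 66184)) Pf.nil)))
 (Pq.cons (Pq.L [] 2 (Pf.W 158 5 [] [7] (Pf.cons (Pf.B 8 7 (Pf.C 118 82951) (Pf.C 119 82951)) Pf.nil)))
 (Pq.cons (Pq.L [2] 1 (Pf.C 0 98565))
 (Pq.cons (Pq.L [2] 2 (Pf.W 172 5 [] [2,7] (Pf.cons (Pf.B 8 7 (Pf.C 124 82824) (Pf.C 0 33672)) Pf.nil)))
 (Pq.cons (Pq.L [2] 1 (Pf.W 160 5 [] [2,6] (Pf.cons (Pf.B 8 6 (Pf.C 139 0x20286) (Pf.C 0 33544)) Pf.nil)))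
 (Pq.cons (Pq.L [2] 1 (Pf.C 0 98565))
 (Pq.cons (Pq.L [4] 1 (Pf.C 0 98821))
 (Pq.cons (Pq.L [4] 1 (Pf.W 158 5 [] [4,6] (Pf.cons (Pf.B 8 6 (Pf.C 140 82950) (Pf.C 0 66312)) Pf.nil)))
 Pq.nil))))))))))))
theorem d_o62 : AllRef d_T d_G40 (splitObl [87,97] [85,95,83,93,91,81]) :=
  chkPq_sound d_o62c _ (by decide +kernel)
noncomputable def d_o63c : Pq := (Pq.cons (Pq.L [] 0x1fffff (Pf.C 1 0x2c509101c305))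
 (Pq.cons (Pq.L [3] 1 (Pf.C 0 98693))
 (Pq.cons (Pq.L [2] 1 (Pf.C 0 98565))
 Pq.nil)))
theorem d_o63 : AllRef d_T d_G40 (applyObl bD_T 3 [87,97] [1,2] []) :=
  chkPq_sound d_o63c _ (by decide +kernel)
noncomputable def d_o64c : Pq := (Pq.cons (Pq.L [] 2 (Pf.C 44 647))
 (Pq.cons (Pq.L [2] 1 (Pf.C 0 98565))
 (Pq.cons (Pq.L [1] 1 (Pf.W 162 6 [] [1,5] (Pf.cons (Pf.B 8 5 (Pf.C 126 0x20286) (Pf.C 0 17032)) Pf.nil)))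
 (Pq.cons (Pq.L [] 2 (Pf.W 158 5 [] [7] (Pf.cons (Pf.B 8 7 (Pf.C 127 82951) (Pf.C 128 82951)) Pf.nil)))
 (Pq.cons (Pq.L [1] 1 (Pf.C 0 98437))
 (Pq.cons (Pq.L [1] 2 (Pf.W 170 5 [] [1,7] (Pf.cons (Pf.B 8 7 (Pf.C 148 82824) (Pf.C 0 17288)) Pf.nil)))
 (Pq.cons (Pq.L [1] 1 (Pf.C 0 98437))
 (Pq.cons (Pq.L [1] 1 (Pf.W 158 5 [] [1,6] (Pf.cons (Pf.B 8 6 (Pf.C 150 82696) (Pf.C 0 17160)) Pf.nil)))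
 Pq.nil))))))))
theorem d_o64 : AllRef d_T d_G40 (splitObl [85,95] [83,93,91,81]) :=
  chkPq_sound d_o64c _ (by decide +kernel)
noncomputable def d_o65c : Pq := (Pq.cons (Pq.L [] 0x1fffff (Pf.C 1 0x2c509101c305))
 (Pq.cons (Pq.L [2] 1 (Pf.C 0 98565))
 (Pq.cons (Pq.L [1] 1 (Pf.C 0 98437))
 Pq.nil)))
theorem d_o65 : AllRef d_T d_G40 (applyObl bD_T 3 [85,95] [1,2] []) :=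
  chkPq_sound d_o65c _ (by decide +kernel)
noncomputable def d_o66c : Pq := (Pq.cons (Pq.L [1] 1 (Pf.C 0 98437))
 (Pq.cons (Pq.L [] 2 (Pf.C 45 647))
 (Pq.cons (Pq.L [0] 2 (Pf.W 168 5 [] [0,7] (Pf.cons (Pf.B 8 7 (Pf.C 153 0x1c405) (Pf.C 0 904)) Pf.nil)))
 (Pq.cons (Pq.L [0] 1 (Pf.C 0 98309))
 Pq.nil))))
theorem d_o66 : AllRef d_T d_G40 (splitObl [83,93] [91,81]) :=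
  chkPq_sound d_o66c _ (by decide +kernel)
noncomputable def d_o67c : Pq := (Pq.cons (Pq.L [] 0x1fffff (Pf.C 1 0x2c509101c305))
 (Pq.cons (Pq.L [1] 1 (Pf.C 0 98437))
 (Pq.cons (Pq.L [0] 1 (Pf.C 0 98309))
 Pq.nil)))
theorem d_o67 : AllRef d_T d_G40 (applyObl bD_T 3 [83,93] [1,2] []) :=
  chkPq_sound d_o67c _ (by decide +kernel)
noncomputable def d_o68c : Pq := (Pq.cons (Pq.L [] 0x1fffff (Pf.C 1 0x2c509101c305))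
 (Pq.cons (Pq.L [1] 1 (Pf.C 0 98437))
 (Pq.cons (Pq.L [0] 1 (Pf.C 0 98309))
 Pq.nil)))
theorem d_o68 : AllRef d_T d_G40 (applyObl bD_T 3 [91,81] [1,2] []) :=
  chkPq_sound d_o68c _ (by decide +kernel)
noncomputable def d_o69c : Pq := (Pq.cons (Pq.L [] 2 (Pf.C 41 647))
 (Pq.cons (Pq.L [] 0 (Pf.W 157 0 [] [5,6] (Pf.cons (Pf.C 51 82696) Pf.nil)))
 (Pq.cons (Pq.L [] 0 (Pf.W 157 0 [] [5,6] (Pf.cons (Pf.C 52 82696) Pf.nil)))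
 (Pq.cons (Pq.L [] 2 (Pf.C 42 647))
 (Pq.cons (Pq.L [] 2 (Pf.C 36 901))
 (Pq.cons (Pq.L [4] 1 (Pf.C 0 98821))
 (Pq.cons (Pq.L [4] 1 (Pf.C 0 98821))
 (Pq.cons (Pq.L [] 1 (Pf.W 157 0 [] [5,6] (Pf.cons (Pf.B 8 6 (Pf.C 36 776) (Pf.B 8 5 (Pf.C 53 82696) (Pf.C 0 98952))) Pf.nil)))
 (Pq.cons (Pq.L [] 3 (Pf.W 157 0 [] [5,6,7] (Pf.cons (Pf.B 8 7 (Pf.C 36 904) (Pf.B 8 6 (Pf.C 36 776) (Pf.B 8 5 (Pf.C 54 82824) (Pf.C 0 98952)))) Pf.nil)))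
 (Pq.cons (Pq.L [] 1 (Pf.W 157 0 [] [5,6] (Pf.cons (Pf.B 8 6 (Pf.C 36 776) (Pf.B 8 5 (Pf.C 55 82696) (Pf.C 0 98952))) Pf.nil)))
 Pq.nil))))))))))
theorem d_o69 : AllRef d_T d_G29 (splitObl [76] [77,78,79,80,75,70,71,72,73,74]) :=
  chkPq_sound d_o69c _ (by decide +kernel)
noncomputable def d_o70c : Pq := (Pq.cons (Pq.L [4] 1 (Pf.C 0 98821))
 Pq.nil)
theorem d_o70 : AllRef d_T d_G29 (applyObl TD2 1 [76] [0] []) :=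
  chkPq_sound d_o70c _ (by decide +kernel)
noncomputable def d_o71c : Pq := (Pq.cons (Pq.L [] 2 (Pf.C 43 647))
 (Pq.cons (Pq.L [] 0 (Pf.W 157 0 [] [5,6] (Pf.cons (Pf.C 57 82696) Pf.nil)))
 (Pq.cons (Pq.L [] 0 (Pf.W 157 0 [] [5,6] (Pf.cons (Pf.C 59 82696) Pf.nil)))
 (Pq.cons (Pq.L [] 2 (Pf.C 37 901))
 (Pq.cons (Pq.L [] 3 (Pf.W 157 0 [] [5,6,7] (Pf.cons (Pf.B 8 7 (Pf.C 37 904) (Pf.B 8 6 (Pf.C 37 776) (Pf.B 8 5 (Pf.C 56 82824) (Pf.C 0 98952)))) Pf.nil)))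
 (Pq.cons (Pq.L [] 1 (Pf.W 157 0 [] [5,6] (Pf.cons (Pf.B 8 6 (Pf.C 37 776) (Pf.B 8 5 (Pf.C 58 82696) (Pf.C 0 98952))) Pf.nil)))
 (Pq.cons (Pq.L [3] 1 (Pf.C 0 98693))
 (Pq.cons (Pq.L [3] 1 (Pf.C 0 98693))
 (Pq.cons (Pq.L [] 1 (Pf.W 157 0 [] [5,6] (Pf.cons (Pf.B 8 6 (Pf.C 37 776) (Pf.B 8 5 (Pf.C 60 82696) (Pf.C 0 98952))) Pf.nil)))
 Pq.nil)))))))))
theorem d_o71 : AllRef d_T d_G29 (splitObl [77] [78,79,80,75,70,71,72,73,74]) :=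
  chkPq_sound d_o71c _ (by decide +kernel)
noncomputable def d_o72c : Pq := (Pq.cons (Pq.L [3] 1 (Pf.C 0 98693))
 Pq.nil)
theorem d_o72 : AllRef d_T d_G29 (applyObl TD2 1 [77] [0] []) :=
  chkPq_sound d_o72c _ (by decide +kernel)
noncomputable def d_o73c : Pq := (Pq.cons (Pq.L [] 2 (Pf.C 44 647))
 (Pq.cons (Pq.L [] 0 (Pf.W 157 0 [] [5,6] (Pf.cons (Pf.C 63 82696) Pf.nil)))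
 (Pq.cons (Pq.L [] 2 (Pf.C 38 901))
 (Pq.cons (Pq.L [2] 1 (Pf.C 0 98565))
 (Pq.cons (Pq.L [] 1 (Pf.W 157 0 [] [5,6] (Pf.cons (Pf.B 8 6 (Pf.C 38 776) (Pf.B 8 5 (Pf.C 61 82696) (Pf.C 0 98952))) Pf.nil)))
 (Pq.cons (Pq.L [] 3 (Pf.W 157 0 [] [5,6,7] (Pf.cons (Pf.B 8 7 (Pf.C 38 904) (Pf.B 8 6 (Pf.C 38 776) (Pf.B 8 5 (Pf.C 62 82824) (Pf.C 0 98952)))) Pf.nil)))
 (Pq.cons (Pq.L [] 1 (Pf.W 157 0 [] [5,6] (Pf.cons (Pf.B 8 6 (Pf.C 38 776) (Pf.B 8 5 (Pf.C 64 82696) (Pf.C 0 98952))) Pf.nil)))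
 (Pq.cons (Pq.L [2] 1 (Pf.C 0 98565))
 Pq.nil))))))))
theorem d_o73 : AllRef d_T d_G29 (splitObl [78] [79,80,75,70,71,72,73,74]) :=
  chkPq_sound d_o73c _ (by decide +kernel)
noncomputable def d_o74c : Pq := (Pq.cons (Pq.L [2] 1 (Pf.C 0 98565))
 Pq.nil)
theorem d_o74 : AllRef d_T d_G29 (applyObl TD2 1 [78] [0] []) :=
  chkPq_sound d_o74c _ (by decide +kernel)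
noncomputable def d_o75c : Pq := (Pq.cons (Pq.L [] 2 (Pf.C 45 647))
 (Pq.cons (Pq.L [] 2 (Pf.C 39 901))
 (Pq.cons (Pq.L [] 1 (Pf.W 157 0 [] [5,6] (Pf.cons (Pf.B 8 6 (Pf.C 39 776) (Pf.B 8 5 (Pf.C 65 98952) (Pf.C 0 98952))) Pf.nil)))
 (Pq.cons (Pq.L [1] 1 (Pf.C 0 98437))
 (Pq.cons (Pq.L [1] 1 (Pf.C 0 98437))
 (Pq.cons (Pq.L [] 1 (Pf.W 157 0 [] [5,6] (Pf.cons (Pf.B 8 6 (Pf.C 39 776) (Pf.B 8 5 (Pf.C 73 82696) (Pf.C 0 98952))) Pf.nil)))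
 (Pq.cons (Pq.L [] 3 (Pf.W 157 0 [] [5,6,7] (Pf.cons (Pf.B 8 7 (Pf.C 39 904) (Pf.B 8 6 (Pf.C 39 776) (Pf.B 8 5 (Pf.C 74 82824) (Pf.C 0 98952)))) Pf.nil)))
 Pq.nil)))))))
theorem d_o75 : AllRef d_T d_G29 (splitObl [79] [80,75,70,71,72,73,74]) :=
  chkPq_sound d_o75c _ (by decide +kernel)
noncomputable def d_o76c : Pq := (Pq.cons (Pq.L [1] 1 (Pf.C 0 98437))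
 Pq.nil)
theorem d_o76 : AllRef d_T d_G29 (applyObl TD2 1 [79] [0] []) :=
  chkPq_sound d_o76c _ (by decide +kernel)
noncomputable def d_o77c : Pq := (Pq.cons (Pq.L [] 2 (Pf.C 40 901))
 (Pq.cons (Pq.L [] 1 (Pf.W 157 0 [] [5,6] (Pf.cons (Pf.B 8 6 (Pf.C 40 776) (Pf.B 8 5 (Pf.C 69 98952) (Pf.C 0 98952))) Pf.nil)))
 (Pq.cons (Pq.L [] 3 (Pf.W 157 0 [] [5,6,7] (Pf.cons (Pf.B 8 7 (Pf.C 40 904) (Pf.B 8 6 (Pf.C 40 776) (Pf.B 8 5 (Pf.C 76 0x1c288) (Pf.C 0 98952)))) Pf.nil)))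
 (Pq.cons (Pq.L [] 1 (Pf.W 157 0 [] [5,6] (Pf.cons (Pf.B 8 6 (Pf.C 40 776) (Pf.B 8 5 (Pf.C 81 98952) (Pf.C 0 98952))) Pf.nil)))
 (Pq.cons (Pq.L [0] 1 (Pf.C 0 98309))
 (Pq.cons (Pq.L [0] 1 (Pf.C 0 98309))
 Pq.nil))))))
theorem d_o77 : AllRef d_T d_G29 (splitObl [80] [75,70,71,72,73,74]) :=
  chkPq_sound d_o77c _ (by decide +kernel)
noncomputable def d_o78c : Pq := (Pq.cons (Pq.L [0] 1 (Pf.C 0 98309))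
 Pq.nil)
theorem d_o78 : AllRef d_T d_G29 (applyObl TD2 1 [80] [0] []) :=
  chkPq_sound d_o78c _ (by decide +kernel)
noncomputable def d_o79c : Pq := (Pq.cons (Pq.L [] 1 (Pf.B 7 6 (Pf.W 213 6 [] [5] (Pf.cons (Pf.B 8 5 (Pf.C 46 0x20286) (Pf.C 214 1029)) (Pf.cons (Pf.B 8 5 (Pf.C 47 0x20286) (Pf.C 214 1029)) (Pf.cons (Pf.B 8 5 (Pf.C 48 0x20286) (Pf.C 214 1029)) (Pf.cons (Pf.B 8 5 (Pf.C 49 0x20286) (Pf.C 214 1029)) (Pf.cons (Pf.B 8 5 (Pf.C 50 0x20286) (Pf.C 214 1029)) Pf.nil)))))) (Pf.W 213 6 [] [7] (Pf.cons (Pf.B 8 7 (Pf.C 46 0x20386) (Pf.C 0 99208)) (Pf.cons (Pf.B 8 7 (Pf.C 47 0x20386) (Pf.C 0 99208)) (Pf.cons (Pf.B 8 7 (Pf.C 48 0x20386) (Pf.C 0 99208)) (Pf.cons (Pf.B 8 7 (Pf.C 49 0x20386) (Pf.C 0 99208)) (Pf.cons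 (Pf.B 8 7 (Pf.C 50 0x20386) (Pf.C 0 99208)) Pf.nil))))))))
 (Pq.cons (Pq.L [] 1 (Pf.C 216 773))
 (Pq.cons (Pq.L [] 1 (Pf.C 218 773))
 (Pq.cons (Pq.L [] 1 (Pf.C 220 773))
 (Pq.cons (Pq.L [] 1 (Pf.C 222 773))
 (Pq.cons (Pq.L [] 1 (Pf.C 224 773))
 (Pq.cons (Pq.L [] 1 (Pf.C 214 773))
 (Pq.cons (Pq.L [2] 1 (Pf.C 0 98565))
 (Pq.cons (Pq.L [4] 1 (Pf.C 0 98821))
 (Pq.cons (Pq.L [2] 2 (Pf.B 7 6 (Pf.W 215 7 [] [5] (Pf.cons (Pf.B 8 5 (Pf.C 67 82824) (Pf.C 220 1029)) Pf.nil)) (Pf.C 0 33543)))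
 (Pq.cons (Pq.L [2] 2 (Pf.B 7 6 (Pf.W 215 7 [] [5] (Pf.cons (Pf.B 8 5 (Pf.C 70 82824) (Pf.C 222 1029)) Pf.nil)) (Pf.C 0 33543)))
 (Pq.cons (Pq.L [2] 1 (Pf.C 0 98565))
 (Pq.cons (Pq.L [] 1 (Pf.C 214 773))
 (Pq.cons (Pq.L [4] 1 (Pf.C 0 98821))
 (Pq.cons (Pq.L [1] 1 (Pf.C 0 98437))
 (Pq.cons (Pq.L [1] 1 (Pf.C 0 98437))
 (Pq.cons (Pq.L [1] 2 (Pf.B 7 6 (Pf.W 217 7 [] [5] (Pf.cons (Pf.B 8 5 (Pf.C 77 82824) (Pf.C 222 1029)) Pf.nil)) (Pf.C 0 17159)))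
 (Pq.cons (Pq.L [1] 2 (Pf.B 7 6 (Pf.W 217 7 [] [5] (Pf.cons (Pf.B 8 5 (Pf.C 79 82824) (Pf.C 224 1029)) Pf.nil)) (Pf.C 0 17159)))
 (Pq.cons (Pq.L [] 1 (Pf.C 214 773))
 (Pq.cons (Pq.L [1] 2 (Pf.B 7 6 (Pf.W 219 7 [] [5] (Pf.cons (Pf.B 8 5 (Pf.C 68 0x1c288) (Pf.C 216 1029)) Pf.nil)) (Pf.C 0 17159)))
 (Pq.cons (Pq.L [1] 1 (Pf.C 0 98437))
 (Pq.cons (Pq.L [1] 1 (Pf.C 0 98437))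
 (Pq.cons (Pq.L [3] 1 (Pf.C 0 98693))
 (Pq.cons (Pq.L [1] 2 (Pf.B 7 6 (Pf.W 219 7 [] [5] (Pf.cons (Pf.B 8 5 (Pf.C 83 82824) (Pf.C 224 1029)) Pf.nil)) (Pf.C 0 17159)))
 (Pq.cons (Pq.L [] 1 (Pf.C 214 773))
 (Pq.cons (Pq.L [0] 2 (Pf.B 7 6 (Pf.W 221 7 [] [5] (Pf.cons (Pf.B 8 5 (Pf.C 71 0x1c288) (Pf.C 216 1029)) Pf.nil)) (Pf.C 0 775)))
 (Pq.cons (Pq.L [0] 2 (Pf.B 7 6 (Pf.W 221 7 [] [5] (Pf.cons (Pf.B 8 5 (Pf.C 78 0x1c288) (Pf.C 218 1029)) Pf.nil)) (Pf.C 0 775)))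
 (Pq.cons (Pq.L [3] 1 (Pf.C 0 98693))
 (Pq.cons (Pq.L [0] 1 (Pf.C 0 98309))
 (Pq.cons (Pq.L [0] 1 (Pf.C 0 98309))
 (Pq.cons (Pq.L [] 1 (Pf.C 214 773))
 (Pq.cons (Pq.L [2] 1 (Pf.C 0 98565))
 (Pq.cons (Pq.L [0] 2 (Pf.B 7 6 (Pf.W 223 7 [] [5] (Pf.cons (Pf.B 8 5 (Pf.C 80 0x1c288) (Pf.C 218 1029)) Pf.nil)) (Pf.C 0 775)))
 (Pq.cons (Pq.L [0] 2 (Pf.B 7 6 (Pf.W 223 7 [] [5] (Pf.cons (Pf.B 8 5 (Pf.C 84 0x1c288) (Pf.C 220 1029)) Pf.nil)) (Pf.C 0 775)))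
 (Pq.cons (Pq.L [0] 1 (Pf.C 0 98309))
 (Pq.cons (Pq.L [0] 1 (Pf.C 0 98309))
 Pq.nil))))))))))))))))))))))))))))))))))))
theorem d_o79 : AllRef d_T d_G61 (splitObl [131,133,135,137,139,141] [132,134,136,138,140,142]) :=
  chkPq_sound d_o79c _ (by decide +kernel)
noncomputable def d_o80c : Pq := (Pq.cons (Pq.L [] 7 (Pf.C 0 0x1c305))
 Pq.nil)
theorem d_o80 : AllRef d_T d_G61 (List.take 1 (applyObl dS_T 2 [131,133,135,137,139,141] [0,0,0,0,0,0] [])) :=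
  chkPq_sound d_o80c _ (by decide +kernel)
noncomputable def d_o81c : Pq := (Pq.cons (Pq.D 1 (Pq.cons (Pq.D 2 (Pq.cons (Pq.L [0,1,2,3,4] 32767 (Pf.T 8 9 (Pf.cons (Pf.T 9 9 (Pf.cons (Pf.B 10 4 (Pf.C 1 0x284880e18284) (Pf.B 10 3 (Pf.C 1 0x284880e18283) (Pf.C 0 65930))) (Pf.cons (Pf.C 1 0x104880e18281) (Pf.cons (Pf.C 1 0xc4880e18280) (Pf.cons (Pf.C 1 0x84880e18280) (Pf.cons (Pf.C 1 0x84880e18280) (Pf.cons (Pf.C 1 0x44880e18283) (Pf.cons (Pf.C 1 0x104880e18282) (Pf.cons (Pf.C 1 0xc4880e18280) (Pf.cons (Pf.C 1 0x4880e18282) (Pf.cons (Pf.C 1 0xc4880e18281) (Pf.cons (Pf.C 1 0x4880e18283) Pf.nil)))))))))))) (Pf.cons (Pf.C 1 0xc2080e18281) (Pf.cons (Pf.C 1 0x81880e18280) (Pf.cons (Pf.C 1 0xc1080e18280) (Pf.cons (Pf.C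 1 0xc1080e18280) (Pf.cons (Pf.C 1 0x880e18283) (Pf.cons (Pf.C 1 0x880e18283) (Pf.cons (Pf.C 1 0x80880e18284) (Pf.cons (Pf.C 1 0x100080e18282) (Pf.cons (Pf.C 1 0x100080e18282) (Pf.cons (Pf.C 1 0x40080e18283) Pf.nil)))))))))))))
 (Pq.cons (Pq.L [] 35 (Pf.C 46 0x1c305))
 (Pq.cons (Pq.L [] 35 (Pf.C 47 0x1c305))
 (Pq.cons (Pq.L [] 35 (Pf.C 48 0x1c305))
 (Pq.cons (Pq.L [] 35 (Pf.C 49 0x1c305))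
 (Pq.cons (Pq.L [] 35 (Pf.C 50 0x1c305))
 Pq.nil))))))) (Pq.cons (Pq.D 2 (Pq.cons (Pq.L [] 35 (Pf.C 46 99205))
 (Pq.cons (Pq.D 3 (Pq.cons (Pq.L [] 69 (Pf.C 46 99333))
 (Pq.cons (Pq.L [0,1,2,3,4] 32767 (Pf.B 9 4 (Pf.B 9 2 (Pf.T 9 9 (Pf.cons (Pf.B 10 3 (Pf.C 1 0x284880e18283) (Pf.B 10 4 (Pf.B 10 2 (Pf.B 10 1 (Pf.C 1 0x245030e18201) (Pf.B 10 0 (Pf.C 1 0x245030e18100) (Pf.C 0 16394))) (Pf.C 0 49418)) (Pf.C 0 49674))) (Pf.cons (Pf.C 1 0xc4880e18280) (Pf.cons (Pf.C 1 0x44880e18283) (Pf.cons (Pf.C 1 0xc4880e18280) (Pf.cons (Pf.C 1 0x4880e18283) (Pf.cons (Pf.C 1 0xc4880e18281) Pf.nil))))))) (Pf.C 0 0x20109)) (Pf.C 0 0x20209)))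
 (Pq.cons (Pq.L [] 69 (Pf.C 66 0x20305))
 (Pq.cons (Pq.D 4 (Pq.cons (Pq.L [] 4288 (Pf.C 68 0x20309))
 (Pq.cons (Pq.L [0,1,2,3,4] 32767 (Pf.B 10 4 (Pf.B 10 2 (Pf.B 10 0 (Pf.C 1 0x284880e18280) (Pf.B 10 1 (Pf.B 10 3 (Pf.C 1 0x44030e1820a) (Pf.T 10 9 (Pf.cons (Pf.W 215 9 [] [0,1,2,6,7,8,10] (Pf.cons (Pf.B 11 10 (Pf.B 11 8 (Pf.B 11 7 (Pf.B 11 6 (Pf.C 1 0x280010e1810b) (Pf.C 67 0x2030b)) (Pf.C 67 0x2038b)) (Pf.C 0 0x2440b)) (Pf.C 0 0x2450b)) Pf.nil)) Pf.nil))) (Pf.C 0 138))) (Pf.C 0 0x2410a)) (Pf.C 0 0x2420a)))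
 (Pq.cons (Pq.L [0,2,3] 5856 (Pf.C 1 0x244030e18100))
 (Pq.cons (Pq.L [] 137 (Pf.C 67 0x24305))
 (Pq.cons (Pq.L [] 137 (Pf.C 70 0x24305))
 (Pq.cons (Pq.L [0,1,4] 31607 (Pf.B 10 0 (Pf.B 10 1 (Pf.C 1 0x880e1828a) (Pf.W 223 9 [] [0,1,4,6,7,8] (Pf.cons (Pf.B 11 8 (Pf.B 11 7 (Pf.B 11 6 (Pf.C 1 0x200800e1820b) (Pf.C 67 0x2030b)) (Pf.C 67 0x2038b)) (Pf.C 0 0x2440b)) Pf.nil))) (Pf.C 0 0x2400a)))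
 Pq.nil))))))) (Pq.cons (Pq.D 4 (Pq.cons (Pq.L [] 4288 (Pf.C 71 0x20309))
 (Pq.cons (Pq.L [0,1,2,3] 32767 (Pf.B 10 2 (Pf.B 10 1 (Pf.C 1 0x284880e18281) (Pf.B 10 0 (Pf.B 10 3 (Pf.C 1 0x4030e1810a) (Pf.T 10 9 (Pf.cons (Pf.W 215 9 [] [0,1,2,6,7,8] (Pf.cons (Pf.B 11 8 (Pf.B 11 7 (Pf.B 11 6 (Pf.C 1 0x200010e1810b) (Pf.C 70 0x2030b)) (Pf.C 70 0x2038b)) (Pf.C 0 0x2440b)) Pf.nil)) Pf.nil))) (Pf.C 0 16394))) (Pf.C 0 0x2410a)))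
 (Pq.cons (Pq.L [0,1,2] 32759 (Pf.B 10 1 (Pf.B 10 0 (Pf.C 1 0x40080e1828a) (Pf.W 217 9 [] [0,1,2,6,7,8] (Pf.cons (Pf.B 11 8 (Pf.B 11 7 (Pf.B 11 6 (Pf.C 1 0x200010e1810b) (Pf.C 66 0x2430b)) (Pf.C 66 0x2438b)) (Pf.C 0 0x2440b)) Pf.nil))) (Pf.C 0 0x2408a)))
 (Pq.cons (Pq.L [] 137 (Pf.C 67 0x24305))
 (Pq.cons (Pq.L [] 137 (Pf.C 70 0x24305))
 (Pq.cons (Pq.L [1,3,4] 5856 (Pf.C 1 0x244030e18201))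
 Pq.nil))))))) (Pq.cons (Pq.L [] 69 (Pf.C 72 0x20305))
 Pq.nil))))))) (Pq.cons (Pq.L [] 35 (Pf.C 66 0x1c305))
 (Pq.cons (Pq.D 3 (Pq.cons (Pq.L [] 69 (Pf.C 46 99333))
 (Pq.cons (Pq.D 4 (Pq.cons (Pq.L [] 5632 (Pf.C 67 0x1c409))
 (Pq.cons (Pq.L [] 1034 (Pf.C 68 0x1c485))
 (Pq.cons (Pq.L [4] 4096 (Pf.C 0 0x24208))
 (Pq.cons (Pq.L [] 137 (Pf.C 67 0x24305))
 (Pq.cons (Pq.L [] 137 (Pf.C 70 0x24305))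
 (Pq.cons (Pq.L [] 1034 (Pf.C 83 0x24385))
 Pq.nil))))))) (Pq.cons (Pq.L [] 69 (Pf.C 66 0x20305))
 (Pq.cons (Pq.D 4 (Pq.cons (Pq.L [] 4288 (Pf.C 68 0x20309))
 (Pq.cons (Pq.L [] 1034 (Pf.C 68 0x1c485))
 (Pq.cons (Pq.L [1] 4096 (Pf.C 0 0x24088))
 (Pq.cons (Pq.L [] 137 (Pf.C 67 0x24305))
 (Pq.cons (Pq.L [] 137 (Pf.C 70 0x24305))
 (Pq.cons (Pq.L [] 1034 (Pf.C 83 0x24385))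
 Pq.nil))))))) (Pq.cons (Pq.L [] 518 (Pf.C 82 0x20385))
 (Pq.cons (Pq.L [] 69 (Pf.C 72 0x20305))
 Pq.nil))))))) (Pq.cons (Pq.D 3 (Pq.cons (Pq.L [] 69 (Pf.C 46 99333))
 (Pq.cons (Pq.D 4 (Pq.cons (Pq.L [] 5632 (Pf.C 70 0x1c409))
 (Pq.cons (Pq.L [] 1034 (Pf.C 71 0x1c485))
 (Pq.cons (Pq.L [] 1034 (Pf.C 78 0x1c485))
 (Pq.cons (Pq.L [] 137 (Pf.C 67 0x24305))
 (Pq.cons (Pq.L [] 137 (Pf.C 70 0x24305))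
 (Pq.cons (Pq.L [2] 4096 (Pf.C 0 0x24108))
 Pq.nil))))))) (Pq.cons (Pq.L [] 69 (Pf.C 66 0x20305))
 (Pq.cons (Pq.L [] 518 (Pf.C 82 0x1c405))
 (Pq.cons (Pq.D 4 (Pq.cons (Pq.L [] 4288 (Pf.C 71 0x20309))
 (Pq.cons (Pq.L [] 1034 (Pf.C 71 0x1c485))
 (Pq.cons (Pq.L [] 1034 (Pf.C 78 0x1c485))
 (Pq.cons (Pq.L [] 137 (Pf.C 67 0x24305))
 (Pq.cons (Pq.L [] 137 (Pf.C 70 0x24305))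
 (Pq.cons (Pq.L [0] 4096 (Pf.C 0 0x24008))
 Pq.nil))))))) (Pq.cons (Pq.L [] 69 (Pf.C 72 0x20305))
 Pq.nil))))))) (Pq.cons (Pq.L [] 35 (Pf.C 72 0x1c305))
 Pq.nil))))))) (Pq.cons (Pq.D 2 (Pq.cons (Pq.L [] 35 (Pf.C 47 99205))
 (Pq.cons (Pq.L [] 35 (Pf.C 66 99205))
 (Pq.cons (Pq.D 3 (Pq.cons (Pq.L [] 69 (Pf.C 47 99333))
 (Pq.cons (Pq.L [] 69 (Pf.C 66 99333))
 (Pq.cons (Pq.L [0,1,2,3,4] 32767 (Pf.B 9 4 (Pf.B 9 1 (Pf.T 9 9 (Pf.cons (Pf.B 10 3 (Pf.C 1 0x284880e18283) (Pf.B 10 4 (Pf.B 10 2 (Pf.C 1 0x284880e18202) (Pf.C 0 49418)) (Pf.C 0 49674))) (Pf.cons (Pf.C 1 0xc4880e18280) (Pf.cons (Pf.C 1 0x84880e18280) (Pf.cons (Pf.C 1 0x4880e18282) (Pf.cons (Pf.C 1 0x4880e18282) (Pf.cons (Pf.C 1 0x4880e18283) Pf.nil))))))) (Pf.C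 0 0x20089)) (Pf.C 0 0x20209)))
 (Pq.cons (Pq.L [] 69 (Pf.C 75 0x20305))
 (Pq.cons (Pq.D 4 (Pq.cons (Pq.L [] 4288 (Pf.C 78 0x20309))
 (Pq.cons (Pq.L [1,2,3] 32759 (Pf.B 10 2 (Pf.B 10 3 (Pf.C 1 0x81880e1828a) (Pf.W 215 9 [] [1,2,3,6,7,8] (Pf.cons (Pf.B 11 8 (Pf.B 11 7 (Pf.B 11 6 (Pf.C 1 0x201820e1808b) (Pf.C 66 99467)) (Pf.C 66 0x1c48b)) (Pf.C 0 0x2440b)) Pf.nil))) (Pf.C 0 0x2410a)))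
 (Pq.cons (Pq.L [0,1,2,3] 32767 (Pf.B 10 2 (Pf.C 1 0x284880e18282) (Pf.B 10 3 (Pf.B 10 1 (Pf.B 10 0 (Pf.C 1 0xc4000e1808a) (Pf.T 10 9 (Pf.cons (Pf.W 217 9 [] [0,1,3,6,7,8] (Pf.cons (Pf.B 11 8 (Pf.B 11 7 (Pf.B 11 6 (Pf.C 1 0xc4000e1808b) (Pf.C 77 0x2030b)) (Pf.C 77 0x2038b)) (Pf.C 0 0x2440b)) Pf.nil)) Pf.nil))) (Pf.C 0 32906)) (Pf.C 0 33162))))
 (Pq.cons (Pq.L [0,2,4] 5856 (Pf.C 1 0x244000e18202))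
 (Pq.cons (Pq.L [] 137 (Pf.C 77 0x24305))
 (Pq.cons (Pq.L [] 137 (Pf.C 79 0x24305))
 Pq.nil))))))) (Pq.cons (Pq.D 4 (Pq.cons (Pq.L [] 4288 (Pf.C 80 0x20309))
 (Pq.cons (Pq.L [0,1,3] 5856 (Pf.C 1 0x244000e18083))
 (Pq.cons (Pq.L [0,1,2,3,4] 32767 (Pf.B 10 4 (Pf.B 10 3 (Pf.C 1 0x284880e18283) (Pf.B 10 2 (Pf.B 10 1 (Pf.B 10 0 (Pf.C 1 0x84000e1820a) (Pf.T 10 9 (Pf.cons (Pf.W 217 9 [] [0,1,3,6,7,8,10] (Pf.cons (Pf.B 11 10 (Pf.B 11 8 (Pf.B 11 7 (Pf.B 11 6 (Pf.C 1 0xc5000e1808b) (Pf.C 79 0x2030b)) (Pf.C 79 0x2038b)) (Pf.C 0 0x2440b)) (Pf.C 0 0x2450b)) Pf.nil)) Pf.nil))) (Pf.C 0 0x2408a)) (Pf.C 0 49418))) (Pf.C 0 0x2420a)))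
 (Pq.cons (Pq.L [2,3,4] 32759 (Pf.B 10 3 (Pf.B 10 2 (Pf.C 1 0xc1080e1828a) (Pf.W 219 9 [] [2,3,4,6,7,8] (Pf.cons (Pf.B 11 8 (Pf.B 11 7 (Pf.B 11 6 (Pf.C 1 0x201030e1820b) (Pf.C 75 0x2430b)) (Pf.C 75 0x2438b)) (Pf.C 0 0x2440b)) Pf.nil))) (Pf.C 0 0x2418a)))
 (Pq.cons (Pq.L [] 137 (Pf.C 77 0x24305))
 (Pq.cons (Pq.L [] 137 (Pf.C 79 0x24305))
 Pq.nil))))))) Pq.nil))))))) (Pq.cons (Pq.L [] 35 (Pf.C 75 0x1c305))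
 (Pq.cons (Pq.D 3 (Pq.cons (Pq.L [] 69 (Pf.C 47 99333))
 (Pq.cons (Pq.L [] 69 (Pf.C 66 99333))
 (Pq.cons (Pq.D 4 (Pq.cons (Pq.L [] 5632 (Pf.C 77 0x1c409))
 (Pq.cons (Pq.L [] 1034 (Pf.C 71 0x1c485))
 (Pq.cons (Pq.L [] 1034 (Pf.C 78 0x1c485))
 (Pq.cons (Pq.L [1] 4096 (Pf.C 0 0x24088))
 (Pq.cons (Pq.L [] 137 (Pf.C 77 0x24305))
 (Pq.cons (Pq.L [] 137 (Pf.C 79 0x24305))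
 Pq.nil))))))) (Pq.cons (Pq.L [] 69 (Pf.C 75 0x20305))
 (Pq.cons (Pq.D 4 (Pq.cons (Pq.L [] 4288 (Pf.C 78 0x20309))
 (Pq.cons (Pq.L [] 1034 (Pf.C 71 0x1c485))
 (Pq.cons (Pq.L [] 1034 (Pf.C 78 0x1c485))
 (Pq.cons (Pq.L [3] 4096 (Pf.C 0 0x24188))
 (Pq.cons (Pq.L [] 137 (Pf.C 77 0x24305))
 (Pq.cons (Pq.L [] 137 (Pf.C 79 0x24305))
 Pq.nil))))))) (Pq.cons (Pq.L [] 518 (Pf.C 85 0x20385))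
 Pq.nil))))))) (Pq.cons (Pq.D 3 (Pq.cons (Pq.L [] 69 (Pf.C 47 99333))
 (Pq.cons (Pq.L [] 69 (Pf.C 66 99333))
 (Pq.cons (Pq.D 4 (Pq.cons (Pq.L [] 5632 (Pf.C 79 0x1c409))
 (Pq.cons (Pq.L [4] 4096 (Pf.C 0 0x24208))
 (Pq.cons (Pq.L [] 1034 (Pf.C 80 0x1c485))
 (Pq.cons (Pq.L [] 1034 (Pf.C 84 0x1c485))
 (Pq.cons (Pq.L [] 137 (Pf.C 77 0x24305))
 (Pq.cons (Pq.L [] 137 (Pf.C 79 0x24305))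
 Pq.nil))))))) (Pq.cons (Pq.L [] 69 (Pf.C 75 0x20305))
 (Pq.cons (Pq.L [] 518 (Pf.C 85 0x1c405))
 (Pq.cons (Pq.D 4 (Pq.cons (Pq.L [] 4288 (Pf.C 80 0x20309))
 (Pq.cons (Pq.L [2] 4096 (Pf.C 0 0x24108))
 (Pq.cons (Pq.L [] 1034 (Pf.C 80 0x1c485))
 (Pq.cons (Pq.L [] 1034 (Pf.C 84 0x1c485))
 (Pq.cons (Pq.L [] 137 (Pf.C 77 0x24305))
 (Pq.cons (Pq.L [] 137 (Pf.C 79 0x24305))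
 Pq.nil))))))) Pq.nil))))))) Pq.nil))))))) (Pq.cons (Pq.D 2 (Pq.cons (Pq.L [] 35 (Pf.C 48 99205))
 (Pq.cons (Pq.D 3 (Pq.cons (Pq.L [] 518 (Pf.C 46 0x1c405))
 (Pq.cons (Pq.D 4 (Pq.cons (Pq.L [] 4288 (Pf.C 67 99337))
 (Pq.cons (Pq.L [] 137 (Pf.C 68 99461))
 (Pq.cons (Pq.L [4] 4096 (Pf.C 0 0x24208))
 (Pq.cons (Pq.L [] 1034 (Pf.C 67 0x24385))
 (Pq.cons (Pq.L [] 1034 (Pf.C 70 0x24385))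
 (Pq.cons (Pq.L [] 137 (Pf.C 83 0x24305))
 Pq.nil))))))) (Pq.cons (Pq.L [] 518 (Pf.C 66 0x20385))
 (Pq.cons (Pq.D 4 (Pq.cons (Pq.L [] 5632 (Pf.C 68 0x20389))
 (Pq.cons (Pq.L [] 137 (Pf.C 68 99461))
 (Pq.cons (Pq.L [1] 4096 (Pf.C 0 0x24088))
 (Pq.cons (Pq.L [] 1034 (Pf.C 67 0x24385))
 (Pq.cons (Pq.L [] 1034 (Pf.C 70 0x24385))
 (Pq.cons (Pq.L [] 137 (Pf.C 83 0x24305))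
 Pq.nil))))))) (Pq.cons (Pq.L [] 69 (Pf.C 82 0x20305))
 (Pq.cons (Pq.L [] 518 (Pf.C 72 0x20385))
 Pq.nil))))))) (Pq.cons (Pq.L [] 35 (Pf.C 75 99205))
 (Pq.cons (Pq.D 3 (Pq.cons (Pq.L [] 69 (Pf.C 48 99333))
 (Pq.cons (Pq.D 4 (Pq.cons (Pq.L [] 4288 (Pf.C 67 99337))
 (Pq.cons (Pq.L [] 137 (Pf.C 68 99461))
 (Pq.cons (Pq.L [0,2,3] 5856 (Pf.C 1 0x244020e18180))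
 (Pq.cons (Pq.L [0,1,2,4] 32767 (Pf.B 10 1 (Pf.B 10 0 (Pf.C 1 0x284880e18280) (Pf.B 10 4 (Pf.B 10 2 (Pf.C 1 0x104020e1808a) (Pf.T 10 9 (Pf.cons (Pf.W 219 9 [] [0,1,4,6,7,8] (Pf.cons (Pf.B 11 8 (Pf.B 11 7 (Pf.B 11 6 (Pf.C 1 0x202000e1808b) (Pf.C 68 99339)) (Pf.C 68 0x1c40b)) (Pf.C 0 0x2440b)) Pf.nil)) Pf.nil))) (Pf.C 0 522))) (Pf.C 0 0x2408a)))
 (Pq.cons (Pq.L [0,1,4] 31607 (Pf.B 10 0 (Pf.B 10 4 (Pf.C 1 0x2080e1828a) (Pf.W 221 9 [] [0,1,4,6,7,8] (Pf.cons (Pf.B 11 8 (Pf.B 11 7 (Pf.B 11 6 (Pf.C 1 0x202000e1808b) (Pf.C 68 99339)) (Pf.C 68 0x1c40b)) (Pf.C 0 0x2440b)) Pf.nil))) (Pf.C 0 0x2400a)))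
 (Pq.cons (Pq.L [] 137 (Pf.C 83 0x24305))
 Pq.nil))))))) (Pq.cons (Pq.L [] 69 (Pf.C 75 99333))
 (Pq.cons (Pq.L [0,1,2,3,4] 32767 (Pf.B 9 3 (Pf.B 9 1 (Pf.T 9 9 (Pf.cons (Pf.B 10 4 (Pf.C 1 0x284880e18284) (Pf.B 10 3 (Pf.B 10 2 (Pf.C 1 0x284880e18282) (Pf.B 10 0 (Pf.C 1 0x245020e18180) (Pf.C 0 65546))) (Pf.C 0 65930))) (Pf.cons (Pf.C 1 0x104880e18282) (Pf.cons (Pf.C 1 0x84880e18280) (Pf.cons (Pf.C 1 0x84880e18280) (Pf.cons (Pf.C 1 0x4880e18282) (Pf.cons (Pf.C 1 0x84880e18284) Pf.nil))))))) (Pf.C 0 0x20089)) (Pf.C 0 0x20189)))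
 (Pq.cons (Pq.L [] 69 (Pf.C 82 0x20305))
 (Pq.cons (Pq.D 4 (Pq.cons (Pq.L [] 4288 (Pf.C 84 0x20309))
 (Pq.cons (Pq.L [] 137 (Pf.C 68 99461))
 (Pq.cons (Pq.L [0,3,4] 32759 (Pf.B 10 4 (Pf.B 10 0 (Pf.C 1 0x100080e1828a) (Pf.W 217 9 [] [0,3,4,6,7,8] (Pf.cons (Pf.B 11 8 (Pf.B 11 7 (Pf.B 11 6 (Pf.C 1 0x200040e1818b) (Pf.C 75 99467)) (Pf.C 75 0x1c48b)) (Pf.C 0 0x2440b)) Pf.nil))) (Pf.C 0 0x2420a)))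
 (Pq.cons (Pq.L [0,1,2,3,4] 32767 (Pf.B 10 4 (Pf.C 1 0x284880e18284) (Pf.B 10 3 (Pf.B 10 1 (Pf.B 10 0 (Pf.B 10 2 (Pf.C 1 0x4020e1818a) (Pf.T 10 9 (Pf.cons (Pf.W 219 9 [] [0,1,4,6,7,8,10] (Pf.cons (Pf.B 11 10 (Pf.B 11 8 (Pf.B 11 7 (Pf.B 11 6 (Pf.C 1 0x282000e1808b) (Pf.C 83 0x2030b)) (Pf.C 83 0x2038b)) (Pf.C 0 0x2440b)) (Pf.C 0 0x2450b)) Pf.nil)) Pf.nil))) (Pf.C 0 65546)) (Pf.C 0 0x2408a)) (Pf.C 0 65930))))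
 (Pq.cons (Pq.L [1,2,4] 5856 (Pf.C 1 0x244020e18084))
 (Pq.cons (Pq.L [] 137 (Pf.C 83 0x24305))
 Pq.nil))))))) Pq.nil))))))) (Pq.cons (Pq.L [] 35 (Pf.C 82 0x1c305))
 (Pq.cons (Pq.D 3 (Pq.cons (Pq.L [] 69 (Pf.C 48 99333))
 (Pq.cons (Pq.L [] 518 (Pf.C 72 0x1c405))
 (Pq.cons (Pq.L [] 69 (Pf.C 75 99333))
 (Pq.cons (Pq.D 4 (Pq.cons (Pq.L [] 5632 (Pf.C 83 0x1c409))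
 (Pq.cons (Pq.L [] 137 (Pf.C 68 99461))
 (Pq.cons (Pq.L [] 1034 (Pf.C 80 0x1c485))
 (Pq.cons (Pq.L [] 1034 (Pf.C 84 0x1c485))
 (Pq.cons (Pq.L [3] 4096 (Pf.C 0 0x24188))
 (Pq.cons (Pq.L [] 137 (Pf.C 83 0x24305))
 Pq.nil))))))) (Pq.cons (Pq.L [] 69 (Pf.C 82 0x20305))
 (Pq.cons (Pq.D 4 (Pq.cons (Pq.L [] 4288 (Pf.C 84 0x20309))
 (Pq.cons (Pq.L [] 137 (Pf.C 68 99461))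
 (Pq.cons (Pq.L [] 1034 (Pf.C 80 0x1c485))
 (Pq.cons (Pq.L [] 1034 (Pf.C 84 0x1c485))
 (Pq.cons (Pq.L [0] 4096 (Pf.C 0 0x24008))
 (Pq.cons (Pq.L [] 137 (Pf.C 83 0x24305))
 Pq.nil))))))) Pq.nil))))))) Pq.nil))))))) (Pq.cons (Pq.D 2 (Pq.cons (Pq.L [] 35 (Pf.C 49 99205))
 (Pq.cons (Pq.D 3 (Pq.cons (Pq.L [] 518 (Pf.C 46 0x1c405))
 (Pq.cons (Pq.D 4 (Pq.cons (Pq.L [] 4288 (Pf.C 70 99337))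
 (Pq.cons (Pq.L [] 137 (Pf.C 71 99461))
 (Pq.cons (Pq.L [] 137 (Pf.C 78 99461))
 (Pq.cons (Pq.L [] 1034 (Pf.C 67 0x24385))
 (Pq.cons (Pq.L [] 1034 (Pf.C 70 0x24385))
 (Pq.cons (Pq.L [2] 4096 (Pf.C 0 0x24108))
 Pq.nil))))))) (Pq.cons (Pq.L [] 518 (Pf.C 66 0x20385))
 (Pq.cons (Pq.L [] 69 (Pf.C 82 99333))
 (Pq.cons (Pq.D 4 (Pq.cons (Pq.L [] 5632 (Pf.C 71 0x20389))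
 (Pq.cons (Pq.L [] 137 (Pf.C 71 99461))
 (Pq.cons (Pq.L [] 137 (Pf.C 78 99461))
 (Pq.cons (Pq.L [] 1034 (Pf.C 67 0x24385))
 (Pq.cons (Pq.L [] 1034 (Pf.C 70 0x24385))
 (Pq.cons (Pq.L [0] 4096 (Pf.C 0 0x24008))
 Pq.nil))))))) (Pq.cons (Pq.L [] 518 (Pf.C 72 0x20385))
 Pq.nil))))))) (Pq.cons (Pq.D 3 (Pq.cons (Pq.L [] 518 (Pf.C 47 0x1c405))
 (Pq.cons (Pq.L [] 518 (Pf.C 66 0x1c405))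
 (Pq.cons (Pq.D 4 (Pq.cons (Pq.L [] 4288 (Pf.C 77 99337))
 (Pq.cons (Pq.L [] 137 (Pf.C 71 99461))
 (Pq.cons (Pq.L [] 137 (Pf.C 78 99461))
 (Pq.cons (Pq.L [1] 4096 (Pf.C 0 0x24088))
 (Pq.cons (Pq.L [] 1034 (Pf.C 77 0x24385))
 (Pq.cons (Pq.L [] 1034 (Pf.C 79 0x24385))
 Pq.nil))))))) (Pq.cons (Pq.L [] 518 (Pf.C 75 0x20385))
 (Pq.cons (Pq.D 4 (Pq.cons (Pq.L [] 5632 (Pf.C 78 0x20389))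
 (Pq.cons (Pq.L [] 137 (Pf.C 71 99461))
 (Pq.cons (Pq.L [] 137 (Pf.C 78 99461))
 (Pq.cons (Pq.L [3] 4096 (Pf.C 0 0x24188))
 (Pq.cons (Pq.L [] 1034 (Pf.C 77 0x24385))
 (Pq.cons (Pq.L [] 1034 (Pf.C 79 0x24385))
 Pq.nil))))))) (Pq.cons (Pq.L [] 69 (Pf.C 85 0x20305))
 Pq.nil))))))) (Pq.cons (Pq.L [] 35 (Pf.C 82 99205))
 (Pq.cons (Pq.D 3 (Pq.cons (Pq.L [] 69 (Pf.C 49 99333))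
 (Pq.cons (Pq.D 4 (Pq.cons (Pq.L [] 4288 (Pf.C 70 99337))
 (Pq.cons (Pq.L [] 137 (Pf.C 71 99461))
 (Pq.cons (Pq.L [] 137 (Pf.C 78 99461))
 (Pq.cons (Pq.L [0,1,2] 31607 (Pf.B 10 1 (Pf.B 10 2 (Pf.C 1 0x41080e1828a) (Pf.W 219 9 [] [0,1,2,6,7,8] (Pf.cons (Pf.B 11 8 (Pf.B 11 7 (Pf.B 11 6 (Pf.C 1 0x201010e1800b) (Pf.C 71 99339)) (Pf.C 71 0x1c40b)) (Pf.C 0 0x2440b)) Pf.nil))) (Pf.C 0 0x2408a)))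
 (Pq.cons (Pq.L [0,1,2,3,4] 32767 (Pf.B 10 3 (Pf.B 10 1 (Pf.C 1 0x284880e18281) (Pf.B 10 2 (Pf.B 10 0 (Pf.B 10 4 (Pf.C 1 0x84040e1800a) (Pf.T 10 9 (Pf.cons (Pf.W 221 9 [] [0,1,2,6,7,8] (Pf.cons (Pf.B 11 8 (Pf.B 11 7 (Pf.B 11 6 (Pf.C 1 0x201010e1800b) (Pf.C 71 99339)) (Pf.C 71 0x1c40b)) (Pf.C 0 0x2440b)) Pf.nil)) Pf.nil))) (Pf.C 0 16394)) (Pf.C 0 16650))) (Pf.C 0 0x2418a)))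
 (Pq.cons (Pq.L [1,3,4] 5856 (Pf.C 1 0x244040e18181))
 Pq.nil))))))) (Pq.cons (Pq.D 4 (Pq.cons (Pq.L [] 4288 (Pf.C 77 99337))
 (Pq.cons (Pq.L [] 137 (Pf.C 71 99461))
 (Pq.cons (Pq.L [] 137 (Pf.C 78 99461))
 (Pq.cons (Pq.L [0,2,4] 5856 (Pf.C 1 0x244040e18002))
 (Pq.cons (Pq.L [0,1,2,3,4] 32767 (Pf.B 10 3 (Pf.B 10 2 (Pf.C 1 0x284880e18282) (Pf.B 10 1 (Pf.B 10 4 (Pf.C 1 0x44040e1818a) (Pf.B 10 0 (Pf.T 10 9 (Pf.cons (Pf.W 221 9 [] [0,1,2,6,7,8,10] (Pf.cons (Pf.B 11 10 (Pf.B 11 8 (Pf.B 11 7 (Pf.B 11 6 (Pf.C 1 0x281010e1800b) (Pf.C 78 99339)) (Pf.C 78 0x1c40b)) (Pf.C 0 0x2440b)) (Pf.C 0 0x2450b)) Pf.nil)) Pf.nil)) (Pf.C 0 65546))) (Pf.C 0 32906))) (Pf.C 0 0x2418a)))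
 (Pq.cons (Pq.L [1,2,3] 31607 (Pf.B 10 2 (Pf.B 10 1 (Pf.C 1 0x80880e1828a) (Pf.W 223 9 [] [1,2,3,6,7,8] (Pf.cons (Pf.B 11 8 (Pf.B 11 7 (Pf.B 11 6 (Pf.C 1 0x200820e1818b) (Pf.C 78 99339)) (Pf.C 78 0x1c40b)) (Pf.C 0 0x2440b)) Pf.nil))) (Pf.C 0 0x2410a)))
 Pq.nil))))))) (Pq.cons (Pq.L [] 69 (Pf.C 82 99333))
 (Pq.cons (Pq.L [0,1,2,3,4] 32767 (Pf.B 9 3 (Pf.B 9 0 (Pf.T 9 9 (Pf.cons (Pf.B 10 4 (Pf.C 1 0x284880e18284) (Pf.B 10 3 (Pf.B 10 2 (Pf.C 1 0x284880e18282) (Pf.B 10 1 (Pf.C 1 0x245040e18181) (Pf.C 0 32906))) (Pf.C 0 65930))) (Pf.cons (Pf.C 1 0x104880e18281) (Pf.cons (Pf.C 1 0x84880e18284) (Pf.cons (Pf.C 1 0x104880e18281) (Pf.cons (Pf.C 1 0x44880e18284) (Pf.cons (Pf.C 1 0x104880e18282) Pf.nil))))))) (Pf.C 0 0x20009))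 (Pf.C 0 0x20189)))
 (Pq.cons (Pq.L [] 69 (Pf.C 85 0x20305))
 Pq.nil))))))) (Pq.cons (Pq.L [] 35 (Pf.C 85 0x1c305))
 Pq.nil))))))) (Pq.cons (Pq.D 2 (Pq.cons (Pq.L [] 35 (Pf.C 50 99205))
 (Pq.cons (Pq.L [] 35 (Pf.C 72 99205))
 (Pq.cons (Pq.D 3 (Pq.cons (Pq.L [] 518 (Pf.C 47 0x1c405))
 (Pq.cons (Pq.L [] 518 (Pf.C 66 0x1c405))
 (Pq.cons (Pq.D 4 (Pq.cons (Pq.L [] 4288 (Pf.C 79 99337))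
 (Pq.cons (Pq.L [4] 4096 (Pf.C 0 0x24208))
 (Pq.cons (Pq.L [] 137 (Pf.C 80 99461))
 (Pq.cons (Pq.L [] 137 (Pf.C 84 99461))
 (Pq.cons (Pq.L [] 1034 (Pf.C 77 0x24385))
 (Pq.cons (Pq.L [] 1034 (Pf.C 79 0x24385))
 Pq.nil))))))) (Pq.cons (Pq.L [] 518 (Pf.C 75 0x20385))
 (Pq.cons (Pq.L [] 69 (Pf.C 85 99333))
 (Pq.cons (Pq.D 4 (Pq.cons (Pq.L [] 5632 (Pf.C 80 0x20389))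
 (Pq.cons (Pq.L [2] 4096 (Pf.C 0 0x24108))
 (Pq.cons (Pq.L [] 137 (Pf.C 80 99461))
 (Pq.cons (Pq.L [] 137 (Pf.C 84 99461))
 (Pq.cons (Pq.L [] 1034 (Pf.C 77 0x24385))
 (Pq.cons (Pq.L [] 1034 (Pf.C 79 0x24385))
 Pq.nil))))))) Pq.nil))))))) (Pq.cons (Pq.D 3 (Pq.cons (Pq.L [] 518 (Pf.C 48 0x1c405))
 (Pq.cons (Pq.L [] 69 (Pf.C 72 99333))
 (Pq.cons (Pq.L [] 518 (Pf.C 75 0x1c405))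
 (Pq.cons (Pq.D 4 (Pq.cons (Pq.L [] 4288 (Pf.C 83 99337))
 (Pq.cons (Pq.L [] 1034 (Pf.C 68 0x1c485))
 (Pq.cons (Pq.L [] 137 (Pf.C 80 99461))
 (Pq.cons (Pq.L [] 137 (Pf.C 84 99461))
 (Pq.cons (Pq.L [3] 4096 (Pf.C 0 0x24188))
 (Pq.cons (Pq.L [] 1034 (Pf.C 83 0x24385))
 Pq.nil))))))) (Pq.cons (Pq.L [] 518 (Pf.C 82 0x20385))
 (Pq.cons (Pq.D 4 (Pq.cons (Pq.L [] 5632 (Pf.C 84 0x20389))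
 (Pq.cons (Pq.L [] 1034 (Pf.C 68 0x1c485))
 (Pq.cons (Pq.L [] 137 (Pf.C 80 99461))
 (Pq.cons (Pq.L [] 137 (Pf.C 84 99461))
 (Pq.cons (Pq.L [0] 4096 (Pf.C 0 0x24008))
 (Pq.cons (Pq.L [] 1034 (Pf.C 83 0x24385))
 Pq.nil))))))) Pq.nil))))))) (Pq.cons (Pq.L [] 35 (Pf.C 85 99205))
 (Pq.cons (Pq.D 3 (Pq.cons (Pq.L [] 69 (Pf.C 50 99333))
 (Pq.cons (Pq.L [] 69 (Pf.C 72 99333))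
 (Pq.cons (Pq.D 4 (Pq.cons (Pq.L [] 4288 (Pf.C 79 99337))
 (Pq.cons (Pq.L [0,1,3] 5856 (Pf.C 1 0x244010e18003))
 (Pq.cons (Pq.L [] 137 (Pf.C 80 99461))
 (Pq.cons (Pq.L [] 137 (Pf.C 84 99461))
 (Pq.cons (Pq.L [2,3,4] 31607 (Pf.B 10 3 (Pf.B 10 4 (Pf.C 1 0xc2080e1828a) (Pf.W 221 9 [] [2,3,4,6,7,8] (Pf.cons (Pf.B 11 8 (Pf.B 11 7 (Pf.B 11 6 (Pf.C 1 0x202030e1810b) (Pf.C 80 99339)) (Pf.C 80 0x1c40b)) (Pf.C 0 0x2440b)) Pf.nil))) (Pf.C 0 0x2418a)))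
 (Pq.cons (Pq.L [0,1,2,3,4] 32767 (Pf.B 10 3 (Pf.C 1 0x284880e18283) (Pf.B 10 4 (Pf.B 10 2 (Pf.B 10 1 (Pf.C 1 0x104010e1810a) (Pf.B 10 0 (Pf.T 10 9 (Pf.cons (Pf.W 223 9 [] [0,1,3,6,7,8,10] (Pf.cons (Pf.B 11 10 (Pf.B 11 8 (Pf.B 11 7 (Pf.B 11 6 (Pf.C 1 0xc5010e1800b) (Pf.C 80 99339)) (Pf.C 80 0x1c40b)) (Pf.C 0 0x2440b)) (Pf.C 0 0x2450b)) Pf.nil)) Pf.nil)) (Pf.C 0 16394))) (Pf.C 0 49418)) (Pf.C 0 49674))))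
 Pq.nil))))))) (Pq.cons (Pq.D 4 (Pq.cons (Pq.L [] 4288 (Pf.C 83 99337))
 (Pq.cons (Pq.L [0,3,4] 32759 (Pf.B 10 4 (Pf.B 10 3 (Pf.C 1 0x101880e1828a) (Pf.W 215 9 [] [0,3,4,6,7,8] (Pf.cons (Pf.B 11 8 (Pf.B 11 7 (Pf.B 11 6 (Pf.C 1 0x201840e1800b) (Pf.C 72 99467)) (Pf.C 72 0x1c48b)) (Pf.C 0 0x2440b)) Pf.nil))) (Pf.C 0 0x2420a)))
 (Pq.cons (Pq.L [] 137 (Pf.C 80 99461))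
 (Pq.cons (Pq.L [] 137 (Pf.C 84 99461))
 (Pq.cons (Pq.L [1,2,4] 5856 (Pf.C 1 0x244010e18104))
 (Pq.cons (Pq.L [0,1,3,4] 32767 (Pf.B 10 4 (Pf.C 1 0x284880e18284) (Pf.B 10 3 (Pf.B 10 0 (Pf.B 10 1 (Pf.C 1 0xc4010e1800a) (Pf.T 10 9 (Pf.cons (Pf.W 223 9 [] [0,1,3,6,7,8] (Pf.cons (Pf.B 11 8 (Pf.B 11 7 (Pf.B 11 6 (Pf.C 1 0xc4010e1800b) (Pf.C 84 99339)) (Pf.C 84 0x1c40b)) (Pf.C 0 0x2440b)) Pf.nil)) Pf.nil))) (Pf.C 0 65546)) (Pf.C 0 65930))))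
 Pq.nil))))))) (Pq.cons (Pq.L [] 69 (Pf.C 85 99333))
 (Pq.cons (Pq.L [0,1,2,3,4] 32767 (Pf.B 9 2 (Pf.B 9 0 (Pf.T 9 9 (Pf.cons (Pf.B 10 4 (Pf.C 1 0x284880e18284) (Pf.B 10 3 (Pf.C 1 0x284880e18283) (Pf.C 0 65930))) (Pf.cons (Pf.C 1 0x104880e18281) (Pf.cons (Pf.C 1 0xc4880e18281) (Pf.cons (Pf.C 1 0x44880e18283) (Pf.cons (Pf.C 1 0x44880e18283) (Pf.cons (Pf.C 1 0x44880e18284) Pf.nil))))))) (Pf.C 0 0x20009)) (Pf.C 0 0x20109)))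
 Pq.nil))))))) Pq.nil))))))) Pq.nil))))))) Pq.nil)
theorem d_o81 : AllRef d_T d_G61 (List.take 1 (List.take 2 (List.flatMap (splitP 0) (List.drop 1 (applyObl dS_T 2 [131,133,135,137,139,141] [0,0,0,0,0,0] []))))) :=
  chkPq_sound d_o81c _ (by decide +kernel)
noncomputable def d_o82c : Pq := (Pq.cons (Pq.D 1 (Pq.cons (Pq.D 2 (Pq.cons (Pq.D 3 (Pq.cons (Pq.L [0,1,2,3,4] 32767 (Pf.T 9 9 (Pf.cons (Pf.C 1 0x40040e18289) (Pf.cons (Pf.C 1 0x820e18289) (Pf.cons (Pf.C 1 0x40040e18289) (Pf.cons (Pf.C 1 0x40040e18289) (Pf.cons (Pf.B 10 4 (Pf.B 10 3 (Pf.C 1 0x284880e18283) (Pf.B 10 2 (Pf.B 10 1 (Pf.C 1 0x281840e18281) (Pf.B 10 0 (Pf.C 1 0x281820e18280) (Pf.C 0 16394))) (Pf.C 0 49418))) (Pf.C 0 0x2420a)) (Pf.cons (Pf.C 1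 0x44880e18283) (Pf.cons (Pf.C 1 0x44880e18283) (Pf.cons (Pf.C 1 0xc4880e18280) (Pf.cons (Pf.C 1 0x4880e18283) (Pf.cons (Pf.C 1 0xc4880e18281) (Pf.cons (Pf.C 1 0x4880e18283) Pf.nil)))))))))))))
 (Pq.cons (Pq.L [2] 4 (Pf.C 0 0x20105))
 (Pq.cons (Pq.L [4] 4 (Pf.C 0 0x20205))
 (Pq.cons (Pq.L [0,1,2] 4711 (Pf.B 9 1 (Pf.W 219 8 [] [0,1,2,5,6,7] (Pf.cons (Pf.B 11 7 (Pf.B 11 6 (Pf.B 11 5 (Pf.C 1 0x820e1828b) (Pf.C 0 0x2028b)) (Pf.C 48 0x2030b)) (Pf.C 48 0x2038b)) Pf.nil)) (Pf.C 0 0x20089)))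
 (Pq.cons (Pq.L [0,1,2] 4711 (Pf.B 9 0 (Pf.W 221 8 [] [0,1,2,5,6,7] (Pf.cons (Pf.B 11 7 (Pf.B 11 6 (Pf.B 11 5 (Pf.C 1 0x820e1828b) (Pf.C 0 0x2028b)) (Pf.C 49 0x2030b)) (Pf.C 49 0x2038b)) Pf.nil)) (Pf.C 0 0x20009)))
 (Pq.cons (Pq.L [2] 4 (Pf.C 0 0x20105))
 Pq.nil))))))) (Pq.cons (Pq.L [2] 2 (Pf.C 0 0x1c105))
 (Pq.cons (Pq.L [4] 2 (Pf.C 0 0x1c205))
 (Pq.cons (Pq.D 3 (Pq.cons (Pq.L [0,1,4] 615 (Pf.W 219 7 [] [0,1,4,5,6,8] (Pf.cons (Pf.B 11 8 (Pf.B 11 6 (Pf.B 11 5 (Pf.C 1 0x4004101828b) (Pf.C 0 0x1c28b)) (Pf.C 48 0x1c30b)) (Pf.C 48 0x1c40b)) Pf.nil)))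
 (Pq.cons (Pq.L [2] 4 (Pf.C 0 0x20105))
 (Pq.cons (Pq.L [4] 4 (Pf.C 0 0x20205))
 (Pq.cons (Pq.L [0,1,2,3,4] 32767 (Pf.B 9 3 (Pf.B 9 1 (Pf.T 9 9 (Pf.cons (Pf.B 10 0 (Pf.C 1 0x284880e18280) (Pf.B 10 4 (Pf.B 10 3 (Pf.C 1 0x28004101c186) (Pf.B 10 2 (Pf.B 10 1 (Pf.C 1 0x245000e08086) (Pf.C 0 138)) (Pf.C 0 49418))) (Pf.C 0 522))) (Pf.cons (Pf.C 1 0x104880e08086) (Pf.cons (Pf.B 10 2 (Pf.B 10 0 (Pf.C 1 0x284820e18280) (Pf.B 10 4 (Pf.C 1 0x1000a1008486) (Pf.C 0 522))) (Pf.C 0 0x2410a)) (Pf.cons (Pf.B 10 4 (Pf.B 10 2 (Pf.B 10 1 (Pf.C 1 0x1c0820828486) (Pf.B 10 0 (Pf.C 1 0x284820e18280) (Pf.C 0 16394))) (Pf.C 0 0x2410a)) (Pf.C 0 0x2420a)) (Pf.cons (Pf.C 1 0x4880e08186) (Pf.cons (Pf.W 219 8 [] [0,1,2,3,5,6,7,9] (Pf.cons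 (Pf.B 11 9 (Pf.B 11 6 (Pf.B 11 7 (Pf.B 11 5 (Pf.C 1 0x4820e1828b) (Pf.C 0 0x2028b)) (Pf.C 1 0x24001062c386)) (Pf.C 48 0x2030b)) (Pf.C 0 0x2048b)) Pf.nil)) Pf.nil))))))) (Pf.C 0 0x20089)) (Pf.C 0 0x20189)))
 (Pq.cons (Pq.L [0,1,4] 608 (Pf.W 219 7 [] [0,1,4,6,8] (Pf.cons (Pf.B 11 8 (Pf.B 11 6 (Pf.C 1 0x2c3811010006) (Pf.C 48 0x1c30b)) (Pf.C 82 0x2038b)) Pf.nil)))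
 (Pq.cons (Pq.L [2] 4 (Pf.C 0 0x20105))
 Pq.nil))))))) (Pq.cons (Pq.D 3 (Pq.cons (Pq.L [0,1,4] 615 (Pf.W 221 7 [] [0,1,4,5,6,8] (Pf.cons (Pf.B 11 8 (Pf.B 11 6 (Pf.B 11 5 (Pf.C 1 0x4004101828b) (Pf.C 0 0x1c28b)) (Pf.C 49 0x1c30b)) (Pf.C 49 0x1c40b)) Pf.nil)))
 (Pq.cons (Pq.L [2] 4 (Pf.C 0 0x20105))
 (Pq.cons (Pq.L [4] 4 (Pf.C 0 0x20205))
 (Pq.cons (Pq.L [0,1,4] 4704 (Pf.B 9 1 (Pf.W 219 8 [] [0,1,4,6,7] (Pf.cons (Pf.B 11 7 (Pf.B 11 6 (Pf.C 1 0x2c4010e10006) (Pf.C 48 0x2030b)) (Pf.C 82 0x1c40b)) Pf.nil)) (Pf.C 0 0x20089)))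
 (Pq.cons (Pq.L [0,1,2,3,4] 32767 (Pf.B 9 3 (Pf.B 9 0 (Pf.T 9 9 (Pf.cons (Pf.B 10 1 (Pf.C 1 0x284880e18281) (Pf.B 10 2 (Pf.B 10 3 (Pf.C 1 0x28082101c186) (Pf.B 10 4 (Pf.B 10 0 (Pf.C 1 0x245010e10006) (Pf.C 0 16394)) (Pf.C 0 49674))) (Pf.C 0 16650))) (Pf.cons (Pf.B 10 4 (Pf.B 10 1 (Pf.C 1 0x284840e18281) (Pf.B 10 2 (Pf.C 1 0x808a1010486) (Pf.C 0 16650))) (Pf.C 0 0x2420a)) (Pf.cons (Pf.C 1 0x84880e10006) (Pf.cons (Pf.B 10 4 (Pf.B 10 2 (Pf.B 10 1 (Pf.C 1 0x284840e18281) (Pf.B 10 0 (Pf.C 1 0x1c0040428486) (Pf.C 0 16394))) (Pf.C 0 0x2410a)) (Pf.C 0 0x2420a)) (Pf.cons (Pf.C 1 0x44880e10186) (Pf.cons (Pf.W 221 8 [] [0,1,2,3,5,6,7,9] (Pf.cons (Pf.B 11 9 (Pf.B 11 6 (Pf.B 11 7 (Pf.B 11 5 (Pf.C 1 0x240820e1828b) (Pf.C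 0 0x2028b)) (Pf.C 1 0x24080062c386)) (Pf.C 49 0x2030b)) (Pf.C 0 0x2048b)) Pf.nil)) Pf.nil))))))) (Pf.C 0 0x20009)) (Pf.C 0 0x20189)))
 (Pq.cons (Pq.L [2] 4 (Pf.C 0 0x20105))
 Pq.nil))))))) (Pq.cons (Pq.L [2] 2 (Pf.C 0 0x1c105))
 Pq.nil))))))) (Pq.cons (Pq.L [2] 1 (Pf.C 0 98565))
 (Pq.cons (Pq.L [4] 1 (Pf.C 0 98821))
 (Pq.cons (Pq.D 2 (Pq.cons (Pq.D 3 (Pq.cons (Pq.L [0,1,4] 615 (Pf.W 219 6 [] [0,1,4,5,7,8] (Pf.cons (Pf.B 11 8 (Pf.B 11 7 (Pf.B 11 5 (Pf.C 1 0x4004101c28b) (Pf.C 0 98955)) (Pf.C 48 99211)) (Pf.C 48 99339)) Pf.nil)))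
 (Pq.cons (Pq.L [2] 4 (Pf.C 0 0x20105))
 (Pq.cons (Pq.L [4] 4 (Pf.C 0 0x20205))
 (Pq.cons (Pq.L [0,1,2,3,4] 32767 (Pf.B 9 3 (Pf.B 9 1 (Pf.T 9 9 (Pf.cons (Pf.B 10 0 (Pf.C 1 0x284880e18280) (Pf.B 10 4 (Pf.B 10 3 (Pf.C 1 0x280041018187) (Pf.B 10 2 (Pf.B 10 1 (Pf.C 1 0x245000c08087) (Pf.C 0 138)) (Pf.C 0 49418))) (Pf.C 0 522))) (Pf.cons (Pf.C 1 0x104880c08087) (Pf.cons (Pf.B 10 2 (Pf.B 10 0 (Pf.C 1 0x284820e18280) (Pf.B 10 4 (Pf.C 1 0x1000a1008486) (Pf.C 0 522))) (Pf.C 0 0x2410a)) (Pf.cons (Pf.B 10 4 (Pf.B 10 2 (Pf.B 10 1 (Pf.C 1 0x180820828487) (Pf.B 10 0 (Pf.C 1 0x284820e18280) (Pf.C 0 16394))) (Pf.C 0 0x2410a)) (Pf.C 0 0x2420a)) (Pf.cons (Pf.C 1 0x4880c08187) (Pf.cons (Pf.W 219 8 [] [0,1,3,4,5,6,7,9] (Pf.cons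 (Pf.B 11 9 (Pf.B 11 7 (Pf.B 11 6 (Pf.B 11 5 (Pf.C 1 0x240040e1828b) (Pf.C 0 0x2028b)) (Pf.C 1 0x24001062c307)) (Pf.C 48 0x2038b)) (Pf.C 0 0x2048b)) Pf.nil)) Pf.nil))))))) (Pf.C 0 0x20089)) (Pf.C 0 0x20189)))
 (Pq.cons (Pq.L [0,1,4] 608 (Pf.W 219 6 [] [0,1,4,7,8] (Pf.cons (Pf.B 11 8 (Pf.B 11 7 (Pf.C 1 0x2c3011010007) (Pf.C 48 99211)) (Pf.C 82 0x2030b)) Pf.nil)))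
 (Pq.cons (Pq.L [2] 4 (Pf.C 0 0x20105))
 Pq.nil))))))) (Pq.cons (Pq.L [2] 2 (Pf.C 0 0x1c105))
 (Pq.cons (Pq.L [4] 2 (Pf.C 0 0x1c205))
 (Pq.cons (Pq.D 3 (Pq.cons (Pq.D 4 (Pq.cons (Pq.L [] 4108 (Pf.C 46 83080))
 (Pq.cons (Pq.L [] 4288 (Pf.C 67 99464))
 (Pq.cons (Pq.L [] 4108 (Pf.C 66 0x24288))
 (Pq.cons (Pq.L [0,3,4] 32767 (Pf.B 10 3 (Pf.B 10 0 (Pf.C 1 0x284880e18280) (Pf.B 10 4 (Pf.C 1 0x280040e18188) (Pf.C 0 522))) (Pf.C 0 0x2418a)))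
 (Pq.cons (Pq.L [0,1,2,3,4] 32736 (Pf.B 10 3 (Pf.B 10 0 (Pf.T 10 9 (Pf.cons (Pf.W 219 6 [] [0,1,2,8,9,10] (Pf.cons (Pf.B 11 9 (Pf.B 11 8 (Pf.B 11 10 (Pf.C 1 0x8080102848b) (Pf.C 1 0x1858a1000482)) (Pf.C 48 99339)) (Pf.C 82 0x2430b)) Pf.nil)) (Pf.cons (Pf.C 1 0x282000c08088) (Pf.cons (Pf.C 1 0x245020e18084) (Pf.cons (Pf.C 1 0x105020e18088) (Pf.cons (Pf.C 1 0x2048a0c08084) (Pf.cons (Pf.W 219 6 [] [0,2,3,4,8,9,10] (Pf.cons (Pf.B 11 9 (Pf.B 11 8 (Pf.B 11 10 (Pf.C 1 0x2c3030028208) (Pf.C 1 0x1858a1000482)) (Pf.C 48 99339)) (Pf.C 82 0x2430b)) Pf.nil)) Pf.nil))))))) (Pf.C 0 0x2400a)) (Pf.C 0 0x2418a)))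
 (Pq.cons (Pq.L [] 4108 (Pf.C 72 0x24288))
 Pq.nil))))))) (Pq.cons (Pq.L [2] 4 (Pf.C 0 0x20105))
 (Pq.cons (Pq.L [4] 4 (Pf.C 0 0x20205))
 (Pq.cons (Pq.D 4 (Pq.cons (Pq.L [0,1,4] 32767 (Pf.B 10 0 (Pf.C 1 0x284880e18280) (Pf.B 10 4 (Pf.B 10 1 (Pf.C 1 0x284880e18084) (Pf.C 0 138)) (Pf.C 0 522))))
 (Pq.cons (Pq.L [0,1,4] 1187 (Pf.W 215 5 [] [0,1,4,6,7,9] (Pf.cons (Pf.B 11 7 (Pf.B 11 9 (Pf.B 11 6 (Pf.C 1 0x242000e1808b) (Pf.C 0 82699)) (Pf.C 67 0x1c48b)) (Pf.C 0 82827)) Pf.nil)))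
 (Pq.cons (Pq.L [1] 4096 (Pf.C 0 0x24088))
 (Pq.cons (Pq.L [1] 4096 (Pf.C 0 0x24088))
 (Pq.cons (Pq.L [3] 4096 (Pf.C 0 0x24188))
 (Pq.cons (Pq.L [0,3,4] 1195 (Pf.W 215 5 [] [0,3,4,6,7,9] (Pf.cons (Pf.B 11 9 (Pf.B 11 7 (Pf.B 11 6 (Pf.C 1 0x240040e1818b) (Pf.C 0 82699)) (Pf.C 0 82827)) (Pf.C 72 0x2428b)) Pf.nil)))
 Pq.nil))))))) (Pq.cons (Pq.D 4 (Pq.cons (Pq.L [0,1,2] 5646 (Pf.W 215 5 [] [0,1,2,7,8,9] (Pf.cons (Pf.B 11 9 (Pf.B 11 8 (Pf.B 11 7 (Pf.C 1 0x24400041c08b) (Pf.C 0 82827)) (Pf.C 0 82955)) (Pf.C 46 83083)) Pf.nil)))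
 (Pq.cons (Pq.L [1,2,4] 5638 (Pf.W 215 5 [] [1,2,4,7,8,9] (Pf.cons (Pf.B 11 8 (Pf.B 11 7 (Pf.B 11 9 (Pf.C 1 0x1c082101048b) (Pf.C 67 0x1c48b)) (Pf.C 0 82827)) (Pf.C 0 82955)) Pf.nil)))
 (Pq.cons (Pq.L [0,1,2,3,4] 19899 (Pf.B 10 4 (Pf.B 10 1 (Pf.T 10 9 (Pf.cons (Pf.W 215 5 [] [0,2,3,4,7,9,10] (Pf.cons (Pf.B 11 9 (Pf.B 11 7 (Pf.B 11 10 (Pf.C 1 0x284840e0818b) (Pf.C 1 0x2450b0e08280)) (Pf.C 0 82827)) (Pf.C 66 0x2428b)) Pf.nil)) (Pf.cons (Pf.W 217 9 [] [0,2,3,7,10] (Pf.cons (Pf.B 11 10 (Pf.B 11 7 (Pf.C 1 0x2c48a041c180) (Pf.C 75 0x1c48b)) (Pf.C 0 0x2450b)) Pf.nil)) (Pf.cons (Pf.C 1 0x245020e18180) (Pf.cons (Pf.W 217 9 [] [0,2,3,4,7,10] (Pf.cons (Pf.B 11 10 (Pf.B 11 7 (Pf.C 1 0x28004041c18b) (Pf.C 75 0x1c48b)) (Pf.C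 0 0x2450b)) Pf.nil)) (Pf.cons (Pf.W 217 9 [] [0,2,4,5,6,10] (Pf.cons (Pf.B 11 10 (Pf.B 11 6 (Pf.B 11 5 (Pf.C 1 0x280040c0828b) (Pf.C 66 0x2428b)) (Pf.C 75 99467)) (Pf.C 0 0x2450b)) Pf.nil)) (Pf.cons (Pf.W 215 5 [] [0,1,2,3,4,6,7,9,10] (Pf.cons (Pf.B 11 9 (Pf.B 11 7 (Pf.B 11 10 (Pf.C 1 0x1c182120050b) (Pf.B 11 6 (Pf.C 1 0x2c5020e18084) (Pf.C 0 82699))) (Pf.C 0 82827)) (Pf.C 66 0x2428b)) Pf.nil)) Pf.nil))))))) (Pf.C 0 0x2408a)) (Pf.C 0 0x2420a)))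
 (Pq.cons (Pq.L [3] 4096 (Pf.C 0 0x24188))
 (Pq.cons (Pq.L [0] 4096 (Pf.C 0 0x24008))
 (Pq.cons (Pq.L [1,2,4] 5856 (Pf.C 1 0x204820e18084))
 Pq.nil))))))) (Pq.cons (Pq.L [2] 4 (Pf.C 0 0x20105))
 Pq.nil))))))) (Pq.cons (Pq.D 3 (Pq.cons (Pq.L [0,1,4] 608 (Pf.W 219 6 [] [0,1,4,7,8] (Pf.cons (Pf.B 11 8 (Pf.B 11 7 (Pf.C 1 0x2c301081c008) (Pf.C 82 0x1c30b)) (Pf.C 48 99339)) Pf.nil)))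
 (Pq.cons (Pq.L [2] 4 (Pf.C 0 0x20105))
 (Pq.cons (Pq.L [4] 4 (Pf.C 0 0x20205))
 (Pq.cons (Pq.D 4 (Pq.cons (Pq.L [0,1,4] 5646 (Pf.W 215 5 [] [0,1,4,7,8,9] (Pf.cons (Pf.B 11 9 (Pf.B 11 8 (Pf.B 11 7 (Pf.C 1 0x24401081c00b) (Pf.C 0 82827)) (Pf.C 0 82955)) (Pf.C 46 83083)) Pf.nil)))
 (Pq.cons (Pq.L [] 1184 (Pf.C 143 0x1c309))
 (Pq.cons (Pq.L [1] 4096 (Pf.C 0 0x24088))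
 (Pq.cons (Pq.L [1] 4096 (Pf.C 0 0x24088))
 (Pq.cons (Pq.L [3] 4096 (Pf.C 0 0x24188))
 (Pq.cons (Pq.L [0,4] 5856 (Pf.W 219 8 [] [0,4,6,7,9] (Pf.cons (Pf.B 11 9 (Pf.B 11 7 (Pf.B 11 6 (Pf.C 1 0x2c4090e10006) (Pf.C 83 0x2430b)) (Pf.C 82 0x1c40b)) (Pf.C 0 0x2048b)) Pf.nil)))
 Pq.nil))))))) (Pq.cons (Pq.D 4 (Pq.cons (Pq.L [0,1,2,3,4] 32766 (Pf.T 10 9 (Pf.cons (Pf.C 1 0x284880e10002) (Pf.cons (Pf.W 215 5 [] [0,1,2,4,7,9,10] (Pf.cons (Pf.B 11 9 (Pf.B 11 7 (Pf.B 11 10 (Pf.C 1 0x245040e0400b) (Pf.C 1 0x1c004122c502)) (Pf.C 0 82827)) (Pf.C 46 83083)) Pf.nil)) (Pf.cons (Pf.C 1 0x284880e10002) (Pf.cons (Pf.C 1 0x284880e10006) (Pf.cons (Pf.C 1 0x1c0041208506) (Pf.cons (Pf.C 1 0x2048a0c08084) (Pf.cons (Pf.C 1 0x2048a0c08087)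 (Pf.cons (Pf.C 1 0x2048a0c08084) (Pf.cons (Pf.C 1 0x284880e10181) (Pf.cons (Pf.C 1 0x284880e10281) (Pf.cons (Pf.C 1 0x284880e10181) Pf.nil)))))))))))))
 (Pq.cons (Pq.L [] 1184 (Pf.C 143 0x1c309))
 (Pq.cons (Pq.L [1,4] 5856 (Pf.W 219 6 [] [1,4,7,8,9] (Pf.cons (Pf.B 11 9 (Pf.B 11 8 (Pf.B 11 7 (Pf.C 1 0x2c3011010487) (Pf.C 78 0x1c48b)) (Pf.C 82 0x2030b)) (Pf.C 75 99467)) Pf.nil)))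
 (Pq.cons (Pq.L [3] 4096 (Pf.C 0 0x24188))
 (Pq.cons (Pq.L [0] 4096 (Pf.C 0 0x24008))
 (Pq.cons (Pq.L [0] 4096 (Pf.C 0 0x24008))
 Pq.nil))))))) (Pq.cons (Pq.L [2] 4 (Pf.C 0 0x20105))
 Pq.nil))))))) (Pq.cons (Pq.L [2] 2 (Pf.C 0 0x1c105))
 Pq.nil))))))) (Pq.cons (Pq.D 2 (Pq.cons (Pq.D 3 (Pq.cons (Pq.L [0,1,4] 615 (Pf.W 221 6 [] [0,1,4,5,7,8] (Pf.cons (Pf.B 11 8 (Pf.B 11 7 (Pf.B 11 5 (Pf.C 1 0x4004101c28b) (Pf.C 0 98955)) (Pf.C 49 99211)) (Pf.C 49 99339)) Pf.nil)))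
 (Pq.cons (Pq.L [2] 4 (Pf.C 0 0x20105))
 (Pq.cons (Pq.L [4] 4 (Pf.C 0 0x20205))
 (Pq.cons (Pq.L [0,1,4] 4704 (Pf.B 9 1 (Pf.W 219 8 [] [0,1,4,6,7] (Pf.cons (Pf.B 11 7 (Pf.B 11 6 (Pf.C 1 0x2c4010818007) (Pf.C 82 99339)) (Pf.C 48 0x2038b)) Pf.nil)) (Pf.C 0 0x20089)))
 (Pq.cons (Pq.L [0,1,2,3,4] 32767 (Pf.B 9 3 (Pf.B 9 0 (Pf.T 9 9 (Pf.cons (Pf.B 10 1 (Pf.C 1 0x284880e18281) (Pf.B 10 2 (Pf.B 10 3 (Pf.C 1 0x280821018187) (Pf.B 10 4 (Pf.B 10 0 (Pf.C 1 0x245010c10007) (Pf.C 0 16394)) (Pf.C 0 49674))) (Pf.C 0 16650))) (Pf.cons (Pf.B 10 4 (Pf.B 10 1 (Pf.C 1 0x284840e18281) (Pf.B 10 2 (Pf.C 1 0x808a1010486) (Pf.C 0 16650))) (Pf.C 0 0x2420a)) (Pf.cons (Pf.C 1 0x84880c10007) (Pf.cons (Pf.B 10 4 (Pf.B 10 2 (Pf.B 10 1 (Pf.C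 1 0x284840e18281) (Pf.B 10 0 (Pf.C 1 0x180040428487) (Pf.C 0 16394))) (Pf.C 0 0x2410a)) (Pf.C 0 0x2420a)) (Pf.cons (Pf.C 1 0x44880c10187) (Pf.cons (Pf.W 221 8 [] [0,1,2,3,5,6,7,9] (Pf.cons (Pf.B 11 9 (Pf.B 11 7 (Pf.B 11 6 (Pf.B 11 5 (Pf.C 1 0x240820e1828b) (Pf.C 0 0x2028b)) (Pf.C 1 0x24080062c307)) (Pf.C 49 0x2038b)) (Pf.C 0 0x2048b)) Pf.nil)) Pf.nil))))))) (Pf.C 0 0x20009)) (Pf.C 0 0x20189)))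
 (Pq.cons (Pq.L [2] 4 (Pf.C 0 0x20105))
 Pq.nil))))))) (Pq.cons (Pq.L [2] 2 (Pf.C 0 0x1c105))
 (Pq.cons (Pq.L [4] 2 (Pf.C 0 0x1c205))
 (Pq.cons (Pq.D 3 (Pq.cons (Pq.L [0,1,4] 608 (Pf.W 219 7 [] [0,1,4,6,8] (Pf.cons (Pf.B 11 8 (Pf.B 11 6 (Pf.C 1 0x2c3810818008) (Pf.C 82 99211)) (Pf.C 48 0x1c40b)) Pf.nil)))
 (Pq.cons (Pq.L [2] 4 (Pf.C 0 0x20105))
 (Pq.cons (Pq.L [4] 4 (Pf.C 0 0x20205))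
 (Pq.cons (Pq.D 4 (Pq.cons (Pq.L [0,1,2,3,4] 32766 (Pf.T 10 9 (Pf.cons (Pf.C 1 0x284880e08084) (Pf.cons (Pf.C 1 0x284880e08086) (Pf.cons (Pf.C 1 0x284880e08084) (Pf.cons (Pf.W 215 5 [] [0,1,2,4,7,9,10] (Pf.cons (Pf.B 11 9 (Pf.B 11 7 (Pf.B 11 10 (Pf.C 1 0x245020e0008b) (Pf.C 1 0x1c082122c504)) (Pf.C 0 82827)) (Pf.C 46 83083)) Pf.nil)) (Pf.cons (Pf.C 1 0x180041208507) (Pf.cons (Pf.C 1 0x284880e08180) (Pf.cons (Pf.C 1 0x284880e08180) (Pf.cons (Pf.C 1 0x284880e08280) (Pf.cons (Pf.C 1 0x2048a0c10002) (Pf.cons (Pf.C 1 0x2048a0c10002) (Pf.cons (Pf.C 1 0x2048a0c10007) Pf.nil)))))))))))))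
 (Pq.cons (Pq.L [] 1184 (Pf.C 143 99209))
 (Pq.cons (Pq.L [1] 4096 (Pf.C 0 0x24088))
 (Pq.cons (Pq.L [1] 4096 (Pf.C 0 0x24088))
 (Pq.cons (Pq.L [3] 4096 (Pf.C 0 0x24188))
 (Pq.cons (Pq.L [0,4] 5856 (Pf.W 219 8 [] [0,4,6,7,9] (Pf.cons (Pf.B 11 9 (Pf.B 11 7 (Pf.B 11 6 (Pf.C 1 0x2c4090818007) (Pf.C 82 99339)) (Pf.C 83 0x2438b)) (Pf.C 0 0x2048b)) Pf.nil)))
 Pq.nil))))))) (Pq.cons (Pq.D 4 (Pq.cons (Pq.L [0,1,2] 5646 (Pf.W 215 5 [] [0,1,2,7,8,9] (Pf.cons (Pf.B 11 9 (Pf.B 11 8 (Pf.B 11 7 (Pf.C 1 0x24400041c08b) (Pf.C 0 82827)) (Pf.C 0 82955)) (Pf.C 46 83083)) Pf.nil)))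
 (Pq.cons (Pq.L [] 1184 (Pf.C 143 99209))
 (Pq.cons (Pq.L [1,4] 5856 (Pf.W 219 7 [] [1,4,6,8,9] (Pf.cons (Pf.B 11 9 (Pf.B 11 8 (Pf.B 11 6 (Pf.C 1 0x2c3811010486) (Pf.C 78 99467)) (Pf.C 82 0x2038b)) (Pf.C 75 0x1c48b)) Pf.nil)))
 (Pq.cons (Pq.L [3] 4096 (Pf.C 0 0x24188))
 (Pq.cons (Pq.L [0] 4096 (Pf.C 0 0x24008))
 (Pq.cons (Pq.L [0] 4096 (Pf.C 0 0x24008))
 Pq.nil))))))) (Pq.cons (Pq.L [2] 4 (Pf.C 0 0x20105))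
 Pq.nil))))))) (Pq.cons (Pq.D 3 (Pq.cons (Pq.D 4 (Pq.cons (Pq.L [] 4108 (Pf.C 46 83080))
 (Pq.cons (Pq.L [] 4288 (Pf.C 70 99464))
 (Pq.cons (Pq.L [] 4108 (Pf.C 66 0x24288))
 (Pq.cons (Pq.L [0,1,2,3,4] 32736 (Pf.B 10 3 (Pf.B 10 1 (Pf.T 10 9 (Pf.cons (Pf.W 221 6 [] [0,1,4,8,9,10] (Pf.cons (Pf.B 11 9 (Pf.B 11 8 (Pf.B 11 10 (Pf.C 1 0x10001102848b) (Pf.C 1 0x1858a1004484)) (Pf.C 48 0x24588)) (Pf.C 82 99467)) Pf.nil)) (Pf.cons (Pf.C 1 0x245040e18002) (Pf.cons (Pf.C 1 0x281010c10008) (Pf.cons (Pf.C 1 0x85040e18008) (Pf.cons (Pf.C 1 0x2048a0c10002) (Pf.cons (Pf.W 221 6 [] [1,2,3,4,8,9,10] (Pf.cons (Pf.B 11 9 (Pf.B 11 8 (Pf.B 11 10 (Pf.C 1 0x2c3030228108) (Pf.C 1 0x1858a1004484)) (Pf.C 48 0x24588)) (Pf.C 82 99467))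 Pf.nil)) Pf.nil))))))) (Pf.C 0 0x2408a)) (Pf.C 0 0x2418a)))
 (Pq.cons (Pq.L [1,2,3,4] 32767 (Pf.B 10 3 (Pf.B 10 1 (Pf.C 1 0x284880e18281) (Pf.B 10 4 (Pf.B 10 2 (Pf.C 1 0x280820c10188) (Pf.C 0 16650)) (Pf.C 1 0x45040e18188))) (Pf.C 0 0x2418a)))
 (Pq.cons (Pq.L [] 4108 (Pf.C 72 0x24288))
 Pq.nil))))))) (Pq.cons (Pq.L [2] 4 (Pf.C 0 0x20105))
 (Pq.cons (Pq.L [4] 4 (Pf.C 0 0x20205))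
 (Pq.cons (Pq.D 4 (Pq.cons (Pq.L [0,1,4] 5646 (Pf.W 215 5 [] [0,1,4,7,8,9] (Pf.cons (Pf.B 11 9 (Pf.B 11 8 (Pf.B 11 7 (Pf.C 1 0x24401081c00b) (Pf.C 0 82827)) (Pf.C 0 82955)) (Pf.C 46 83083)) Pf.nil)))
 (Pq.cons (Pq.L [0,2,4] 5638 (Pf.W 215 5 [] [0,2,4,7,8,9] (Pf.cons (Pf.B 11 8 (Pf.B 11 7 (Pf.B 11 9 (Pf.C 1 0x1c004100848b) (Pf.C 70 0x1c48b)) (Pf.C 0 82827)) (Pf.C 0 82955)) Pf.nil)))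
 (Pq.cons (Pq.L [0,2,4] 5856 (Pf.C 1 0x204840e18002))
 (Pq.cons (Pq.L [1] 4096 (Pf.C 0 0x24088))
 (Pq.cons (Pq.L [3] 4096 (Pf.C 0 0x24188))
 (Pq.cons (Pq.D 5 (Pq.cons (Pq.L [2,3,4] 19482 (Pf.W 215 5 [] [2,3,4,7,9,10] (Pf.cons (Pf.B 11 10 (Pf.B 11 9 (Pf.B 11 7 (Pf.C 1 0x28482081c18b) (Pf.C 0 82827)) (Pf.C 72 0x2428b)) (Pf.C 46 83211)) Pf.nil)))
 (Pq.cons (Pq.L [1,4] 19899 (Pf.C 1 0x245040e18281))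
 (Pq.cons (Pq.L [1,3,4] 19482 (Pf.W 215 5 [] [1,3,4,7,9,10] (Pf.cons (Pf.B 11 10 (Pf.B 11 9 (Pf.B 11 7 (Pf.C 1 0x1c184120450b) (Pf.C 0 82827)) (Pf.C 72 0x2428b)) (Pf.C 66 0x2828b)) Pf.nil)))
 (Pq.cons (Pq.L [1,3,4] 20508 (Pf.W 219 8 [] [1,3,4,5,9,10] (Pf.cons (Pf.B 11 9 (Pf.B 11 5 (Pf.B 11 10 (Pf.C 1 0x14203120450b) (Pf.C 68 0x2828b)) (Pf.C 0 0x2028b)) (Pf.C 0 0x2048b)) Pf.nil)))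
 (Pq.cons (Pq.L [0] 16384 (Pf.C 0 0x28009))
 (Pq.cons (Pq.L [0] 16384 (Pf.C 0 0x28009))
 Pq.nil))))))) Pq.nil))))))) (Pq.cons (Pq.D 4 (Pq.cons (Pq.L [0,1,2] 32767 (Pf.B 10 1 (Pf.C 1 0x284880e18281) (Pf.B 10 2 (Pf.B 10 0 (Pf.C 1 0x284880e18002) (Pf.C 0 16394)) (Pf.C 0 16650))))
 (Pq.cons (Pq.L [0,1,2] 1187 (Pf.W 215 5 [] [0,1,2,6,7,9] (Pf.cons (Pf.B 11 7 (Pf.B 11 9 (Pf.B 11 6 (Pf.C 1 0x241010e1800b) (Pf.C 0 82699)) (Pf.C 70 0x1c48b)) (Pf.C 0 82827)) Pf.nil)))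
 (Pq.cons (Pq.L [1,2,3] 1195 (Pf.W 215 5 [] [1,2,3,6,7,9] (Pf.cons (Pf.B 11 9 (Pf.B 11 7 (Pf.B 11 6 (Pf.C 1 0x240820e1818b) (Pf.C 0 82699)) (Pf.C 0 82827)) (Pf.C 66 0x2428b)) Pf.nil)))
 (Pq.cons (Pq.L [3] 4096 (Pf.C 0 0x24188))
 (Pq.cons (Pq.L [0] 4096 (Pf.C 0 0x24008))
 (Pq.cons (Pq.L [0] 4096 (Pf.C 0 0x24008))
 Pq.nil))))))) (Pq.cons (Pq.L [2] 4 (Pf.C 0 0x20105))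
 Pq.nil))))))) (Pq.cons (Pq.L [2] 2 (Pf.C 0 0x1c105))
 Pq.nil))))))) (Pq.cons (Pq.L [2] 1 (Pf.C 0 98565))
 Pq.nil))))))) Pq.nil)
theorem d_o82 : AllRef d_T d_G61 (List.drop 1 (List.take 2 (List.flatMap (splitP 0) (List.drop 1 (applyObl dS_T 2 [131,133,135,137,139,141] [0,0,0,0,0,0] []))))) :=
  chkPq_sound d_o82c _ (by decide +kernel)
noncomputable def d_o83c : Pq := (Pq.cons (Pq.D 1 (Pq.cons (Pq.D 2 (Pq.cons (Pq.D 3 (Pq.cons (Pq.L [0,1,2,3,4] 32767 (Pf.T 9 9 (Pf.cons (Pf.C 1 0xc1010e18289) (Pf.cons (Pf.C 1 0xc1010e18289) (Pf.cons (Pf.C 1 0xc4880e18280) (Pf.cons (Pf.C 1 0x84880e18280) (Pf.cons (Pf.C 1 0x84880e18280) (Pf.cons (Pf.C 1 0x81840e18289) (Pf.cons (Pf.B 10 4 (Pf.B 10 3 (Pf.C 1 0x284880e18283) (Pf.B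 10 2 (Pf.C 1 0x284840e18282) (Pf.C 0 49418))) (Pf.C 0 0x2420a)) (Pf.cons (Pf.C 1 0xc4880e18280) (Pf.cons (Pf.C 1 0xc1010e18289) (Pf.cons (Pf.C 1 0x4880e18282) (Pf.cons (Pf.C 1 0x4880e18283) Pf.nil)))))))))))))
 (Pq.cons (Pq.L [4] 4 (Pf.C 0 0x20205))
 (Pq.cons (Pq.L [1] 4 (Pf.C 0 0x20085))
 (Pq.cons (Pq.L [1] 4 (Pf.C 0 0x20085))
 (Pq.cons (Pq.L [1,2,3] 4711 (Pf.B 9 3 (Pf.W 221 8 [] [1,2,3,5,6,7] (Pf.cons (Pf.B 11 7 (Pf.B 11 6 (Pf.B 11 5 (Pf.C 1 0xc1010e1828b) (Pf.C 0 0x2028b)) (Pf.C 49 0x2030b)) (Pf.C 49 0x2038b)) Pf.nil)) (Pf.C 0 0x20189)))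
 (Pq.cons (Pq.L [1,2,3] 4711 (Pf.B 9 2 (Pf.W 223 8 [] [1,2,3,5,6,7] (Pf.cons (Pf.B 11 7 (Pf.B 11 6 (Pf.B 11 5 (Pf.C 1 0xc1010e1828b) (Pf.C 0 0x2028b)) (Pf.C 50 0x2030b)) (Pf.C 50 0x2038b)) Pf.nil)) (Pf.C 0 0x20109)))
 Pq.nil))))))) (Pq.cons (Pq.L [4] 2 (Pf.C 0 0x1c205))
 (Pq.cons (Pq.L [1] 2 (Pf.C 0 0x1c085))
 (Pq.cons (Pq.L [1] 2 (Pf.C 0 0x1c085))
 (Pq.cons (Pq.D 3 (Pq.cons (Pq.L [1,2,3] 615 (Pf.W 221 7 [] [1,2,3,5,6,8] (Pf.cons (Pf.B 11 8 (Pf.B 11 6 (Pf.B 11 5 (Pf.C 1 0xc101101828b) (Pf.C 0 0x1c28b)) (Pf.C 49 0x1c30b)) (Pf.C 49 0x1c40b)) Pf.nil)))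
 (Pq.cons (Pq.L [4] 4 (Pf.C 0 0x20205))
 (Pq.cons (Pq.L [1] 4 (Pf.C 0 0x20085))
 (Pq.cons (Pq.L [1] 4 (Pf.C 0 0x20085))
 (Pq.cons (Pq.L [0,1,2,3,4] 32767 (Pf.B 9 3 (Pf.B 9 0 (Pf.T 9 9 (Pf.cons (Pf.B 10 2 (Pf.C 1 0x284880e18282) (Pf.B 10 3 (Pf.B 10 4 (Pf.C 1 0x245020e10186) (Pf.B 10 0 (Pf.C 1 0x1c0041208506) (Pf.C 0 65546))) (Pf.C 0 33162))) (Pf.cons (Pf.B 10 4 (Pf.B 10 2 (Pf.C 1 0x284840e18282) (Pf.B 10 1 (Pf.C 1 0x410a1010486) (Pf.C 0 32906))) (Pf.C 0 0x2420a)) (Pf.cons (Pf.C 1 0x84880e10006) (Pf.cons (Pf.W 221 8 [] [0,1,2,3,5,6,7,9] (Pf.cons (Pf.B 11 9 (Pf.B 11 6 (Pf.B 11 7 (Pf.B 11 5 (Pf.C 1 0x241010e1828b) (Pf.C 0 0x2028b)) (Pf.C 1 0x24103002c386)) (Pf.C 49 0x2030b)) (Pf.C 0 0x2048b)) Pf.nil)) (Pf.cons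 (Pf.C 1 0x44880e10186) (Pf.cons (Pf.B 10 4 (Pf.B 10 2 (Pf.C 1 0x284840e18282) (Pf.B 10 3 (Pf.B 10 1 (Pf.C 1 0x1c1840228486) (Pf.C 0 32906)) (Pf.C 0 33162))) (Pf.C 0 0x2420a)) Pf.nil))))))) (Pf.C 0 0x20009)) (Pf.C 0 0x20189)))
 (Pq.cons (Pq.L [1,2,3] 608 (Pf.W 221 7 [] [1,2,3,6,8] (Pf.cons (Pf.B 11 8 (Pf.B 11 6 (Pf.C 1 0x2c3831004106) (Pf.C 49 0x1c30b)) (Pf.C 85 0x2038b)) Pf.nil)))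
 Pq.nil))))))) (Pq.cons (Pq.D 3 (Pq.cons (Pq.L [1,2,3] 615 (Pf.W 223 7 [] [1,2,3,5,6,8] (Pf.cons (Pf.B 11 8 (Pf.B 11 6 (Pf.B 11 5 (Pf.C 1 0xc101101828b) (Pf.C 0 0x1c28b)) (Pf.C 50 0x1c30b)) (Pf.C 50 0x1c40b)) Pf.nil)))
 (Pq.cons (Pq.L [4] 4 (Pf.C 0 0x20205))
 (Pq.cons (Pq.L [1] 4 (Pf.C 0 0x20085))
 (Pq.cons (Pq.L [1] 4 (Pf.C 0 0x20085))
 (Pq.cons (Pq.L [1,2,3] 4704 (Pf.B 9 3 (Pf.W 221 8 [] [1,2,3,6,7] (Pf.cons (Pf.B 11 7 (Pf.B 11 6 (Pf.C 1 0x2c4030e04106) (Pf.C 49 0x2030b)) (Pf.C 85 0x1c40b)) Pf.nil)) (Pf.C 0 0x20189)))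
 (Pq.cons (Pq.L [0,1,2,3,4] 32767 (Pf.B 9 2 (Pf.B 9 0 (Pf.T 9 9 (Pf.cons (Pf.B 10 3 (Pf.C 1 0x284880e18283) (Pf.B 10 2 (Pf.B 10 1 (Pf.C 1 0x245030e04106) (Pf.B 10 0 (Pf.C 1 0x1c001120c506) (Pf.C 0 16394))) (Pf.C 0 49418))) (Pf.cons (Pf.C 1 0x104880e04106) (Pf.cons (Pf.C 1 0xc4880e04006) (Pf.cons (Pf.B 10 3 (Pf.C 1 0x284880e18283) (Pf.B 10 4 (Pf.B 10 1 (Pf.C 1 0x1018a1004486) (Pf.C 0 0x2408a)) (Pf.C 0 49674))) (Pf.cons (Pf.B 10 4 (Pf.B 10 3 (Pf.C 1 0x284880e18283) (Pf.B 10 2 (Pf.C 1 0x1c1080828486) (Pf.C 0 49418))) (Pf.C 0 0x2420a)) (Pf.cons (Pf.W 223 8 [] [0,1,2,3,5,6,7,9] (Pf.cons (Pf.B 11 9 (Pf.B 11 6 (Pf.B 11 7 (Pf.B 11 5 (Pf.C 1 0xc4810e1828b) (Pf.C 0 0x2028b)) (Pf.C 1 0x24182002c386)) (Pf.C 50 0x2030b))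 (Pf.C 0 0x2048b)) Pf.nil)) Pf.nil))))))) (Pf.C 0 0x20009)) (Pf.C 0 0x20109)))
 Pq.nil))))))) Pq.nil))))))) (Pq.cons (Pq.L [4] 1 (Pf.C 0 98821))
 (Pq.cons (Pq.L [1] 1 (Pf.C 0 98437))
 (Pq.cons (Pq.L [1] 1 (Pf.C 0 98437))
 (Pq.cons (Pq.D 2 (Pq.cons (Pq.D 3 (Pq.cons (Pq.L [1,2,3] 615 (Pf.W 221 6 [] [1,2,3,5,7,8] (Pf.cons (Pf.B 11 8 (Pf.B 11 7 (Pf.B 11 5 (Pf.C 1 0xc101101c28b) (Pf.C 0 98955)) (Pf.C 49 99211)) (Pf.C 49 99339)) Pf.nil)))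
 (Pq.cons (Pq.L [4] 4 (Pf.C 0 0x20205))
 (Pq.cons (Pq.L [1] 4 (Pf.C 0 0x20085))
 (Pq.cons (Pq.L [1] 4 (Pf.C 0 0x20085))
 (Pq.cons (Pq.L [0,1,2,3,4] 32767 (Pf.B 9 3 (Pf.B 9 0 (Pf.T 9 9 (Pf.cons (Pf.B 10 2 (Pf.C 1 0x284880e18282) (Pf.B 10 3 (Pf.B 10 4 (Pf.C 1 0x245020c10187) (Pf.B 10 0 (Pf.C 1 0x180041208507) (Pf.C 0 65546))) (Pf.C 0 33162))) (Pf.cons (Pf.B 10 4 (Pf.B 10 2 (Pf.C 1 0x284840e18282) (Pf.B 10 1 (Pf.C 1 0x410a1010486) (Pf.C 0 32906))) (Pf.C 0 0x2420a)) (Pf.cons (Pf.C 1 0x84880c10007) (Pf.cons (Pf.W 221 8 [] [0,1,2,3,5,6,7,9] (Pf.cons (Pf.B 11 9 (Pf.B 11 7 (Pf.B 11 6 (Pf.B 11 5 (Pf.C 1 0x241010e1828b) (Pf.C 0 0x2028b)) (Pf.C 1 0x24103002c307)) (Pf.C 49 0x2038b)) (Pf.C 0 0x2048b)) Pf.nil)) (Pf.cons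 (Pf.C 1 0x44880c10187) (Pf.cons (Pf.B 10 4 (Pf.B 10 2 (Pf.C 1 0x284840e18282) (Pf.B 10 3 (Pf.B 10 1 (Pf.C 1 0x181840228487) (Pf.C 0 32906)) (Pf.C 0 33162))) (Pf.C 0 0x2420a)) Pf.nil))))))) (Pf.C 0 0x20009)) (Pf.C 0 0x20189)))
 (Pq.cons (Pq.L [1,2,3] 608 (Pf.W 221 6 [] [1,2,3,7,8] (Pf.cons (Pf.B 11 8 (Pf.B 11 7 (Pf.C 1 0x2c3031004107) (Pf.C 49 99211)) (Pf.C 85 0x2030b)) Pf.nil)))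
 Pq.nil))))))) (Pq.cons (Pq.L [4] 2 (Pf.C 0 0x1c205))
 (Pq.cons (Pq.L [1] 2 (Pf.C 0 0x1c085))
 (Pq.cons (Pq.L [1] 2 (Pf.C 0 0x1c085))
 (Pq.cons (Pq.D 3 (Pq.cons (Pq.D 4 (Pq.cons (Pq.L [] 4108 (Pf.C 47 83080))
 (Pq.cons (Pq.L [] 4108 (Pf.C 66 83080))
 (Pq.cons (Pq.L [] 4288 (Pf.C 77 99464))
 (Pq.cons (Pq.L [] 4108 (Pf.C 75 0x24288))
 (Pq.cons (Pq.L [0,1,2] 32767 (Pf.B 10 2 (Pf.C 1 0x284880e18282) (Pf.B 10 1 (Pf.B 10 0 (Pf.C 1 0x281010e18008) (Pf.C 0 0x2400a)) (Pf.C 0 32906))))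
 (Pq.cons (Pq.L [0,1,2,3,4] 32736 (Pf.B 10 2 (Pf.B 10 0 (Pf.T 10 9 (Pf.cons (Pf.W 221 6 [] [0,2,3,4,8,9,10] (Pf.cons (Pf.B 11 9 (Pf.B 11 8 (Pf.B 11 10 (Pf.C 1 0xc200102848b) (Pf.C 1 0x1858a1008484)) (Pf.C 49 99339)) (Pf.C 85 0x2430b)) Pf.nil)) (Pf.cons (Pf.C 1 0x245040e18181) (Pf.cons (Pf.C 1 0x2048a0c10181) (Pf.cons (Pf.C 1 0x280820c10188) (Pf.cons (Pf.C 1 0x45040e18188) (Pf.cons (Pf.W 221 6 [] [0,1,2,4,8,9,10] (Pf.cons (Pf.B 11 9 (Pf.B 11 8 (Pf.B 11 10 (Pf.C 1 0x2c3000428088) (Pf.C 1 0x1858a1008484)) (Pf.C 49 99339)) (Pf.C 85 0x2430b)) Pf.nil)) Pf.nil))))))) (Pf.C 0 0x2400a)) (Pf.C 0 0x2410a)))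
 Pq.nil))))))) (Pq.cons (Pq.L [4] 4 (Pf.C 0 0x20205))
 (Pq.cons (Pq.L [1] 4 (Pf.C 0 0x20085))
 (Pq.cons (Pq.L [1] 4 (Pf.C 0 0x20085))
 (Pq.cons (Pq.D 4 (Pq.cons (Pq.L [1,2,3] 32767 (Pf.B 10 2 (Pf.C 1 0x284880e18282) (Pf.B 10 3 (Pf.B 10 1 (Pf.C 1 0x284880e18181) (Pf.C 0 32906)) (Pf.C 0 33162))))
 (Pq.cons (Pq.L [0,1,2] 1195 (Pf.W 217 5 [] [0,1,2,6,7,9] (Pf.cons (Pf.B 11 9 (Pf.B 11 7 (Pf.B 11 6 (Pf.C 1 0x241010e1800b) (Pf.C 0 82699)) (Pf.C 0 82827)) (Pf.C 66 83083)) Pf.nil)))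
 (Pq.cons (Pq.L [1,2,3] 1187 (Pf.W 217 5 [] [1,2,3,6,7,9] (Pf.cons (Pf.B 11 7 (Pf.B 11 9 (Pf.B 11 6 (Pf.C 1 0x240820e1818b) (Pf.C 0 82699)) (Pf.C 77 0x1c48b)) (Pf.C 0 82827)) Pf.nil)))
 (Pq.cons (Pq.L [3] 4096 (Pf.C 0 0x24188))
 (Pq.cons (Pq.L [0] 4096 (Pf.C 0 0x24008))
 (Pq.cons (Pq.L [0] 4096 (Pf.C 0 0x24008))
 Pq.nil))))))) (Pq.cons (Pq.D 4 (Pq.cons (Pq.L [2,3,4] 5646 (Pf.W 217 5 [] [2,3,4,7,8,9] (Pf.cons (Pf.B 11 9 (Pf.B 11 8 (Pf.B 11 7 (Pf.C 1 0x24402081c18b) (Pf.C 0 82827)) (Pf.C 0 82955)) (Pf.C 47 83083)) Pf.nil)))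
 (Pq.cons (Pq.L [1,3,4] 5856 (Pf.C 1 0x204840e18181))
 (Pq.cons (Pq.L [1,3,4] 5638 (Pf.W 217 5 [] [1,3,4,7,8,9] (Pf.cons (Pf.B 11 8 (Pf.B 11 7 (Pf.B 11 9 (Pf.C 1 0x1c184100448b) (Pf.C 77 0x1c48b)) (Pf.C 0 82827)) (Pf.C 0 82955)) Pf.nil)))
 (Pq.cons (Pq.L [0,1,2,3,4] 19899 (Pf.B 10 3 (Pf.B 10 1 (Pf.T 10 9 (Pf.cons (Pf.W 217 5 [] [0,1,2,4,7,9,10] (Pf.cons (Pf.B 11 9 (Pf.B 11 7 (Pf.B 11 10 (Pf.C 1 0x284810e1000b) (Pf.C 1 0x2450b0e10282)) (Pf.C 0 82827)) (Pf.C 75 0x2428b)) Pf.nil)) (Pf.cons (Pf.C 1 0x245040e18002) (Pf.cons (Pf.W 219 9 [] [0,1,2,4,7,10] (Pf.cons (Pf.B 11 10 (Pf.B 11 7 (Pf.C 1 0x28101081c00b) (Pf.C 82 0x1c48b)) (Pf.C 0 0x2450b)) Pf.nil)) (Pf.cons (Pf.W 217 5 [] [0,1,2,3,4,6,7,9,10] (Pf.cons (Pf.B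 11 9 (Pf.B 11 7 (Pf.B 11 10 (Pf.C 1 0x1c004120850b) (Pf.B 11 6 (Pf.C 1 0x2c5040e18181) (Pf.C 0 82699))) (Pf.C 0 82827)) (Pf.C 75 0x2428b)) Pf.nil)) (Pf.cons (Pf.W 219 9 [] [0,2,4,7,10] (Pf.cons (Pf.B 11 10 (Pf.B 11 7 (Pf.C 1 0x2c48a081c002) (Pf.C 82 0x1c48b)) (Pf.C 0 0x2450b)) Pf.nil)) (Pf.cons (Pf.W 219 9 [] [1,2,4,5,6,10] (Pf.cons (Pf.B 11 10 (Pf.B 11 6 (Pf.B 11 5 (Pf.C 1 0x281010c1028b) (Pf.C 75 0x2428b)) (Pf.C 82 99467)) (Pf.C 0 0x2450b)) Pf.nil)) Pf.nil))))))) (Pf.C 0 0x2408a)) (Pf.C 0 0x2418a)))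
 (Pq.cons (Pq.L [0] 4096 (Pf.C 0 0x24008))
 (Pq.cons (Pq.L [0] 4096 (Pf.C 0 0x24008))
 Pq.nil))))))) Pq.nil))))))) (Pq.cons (Pq.D 3 (Pq.cons (Pq.L [1,2,3] 608 (Pf.W 221 6 [] [1,2,3,7,8] (Pf.cons (Pf.B 11 8 (Pf.B 11 7 (Pf.C 1 0x2c303021c108) (Pf.C 85 0x1c30b)) (Pf.C 49 99339)) Pf.nil)))
 (Pq.cons (Pq.L [4] 4 (Pf.C 0 0x20205))
 (Pq.cons (Pq.L [1] 4 (Pf.C 0 0x20085))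
 (Pq.cons (Pq.L [1] 4 (Pf.C 0 0x20085))
 (Pq.cons (Pq.D 4 (Pq.cons (Pq.L [1,2,3] 5646 (Pf.W 217 5 [] [1,2,3,7,8,9] (Pf.cons (Pf.B 11 9 (Pf.B 11 8 (Pf.B 11 7 (Pf.C 1 0x24403021c10b) (Pf.C 0 82827)) (Pf.C 0 82955)) (Pf.C 47 83083)) Pf.nil)))
 (Pq.cons (Pq.L [0,1,2,3,4] 32179 (Pf.B 10 4 (Pf.B 10 2 (Pf.T 10 9 (Pf.cons (Pf.W 215 9 [] [1,2,3,6,7,10] (Pf.cons (Pf.C 70 99466) (Pf.cons (Pf.B 11 10 (Pf.B 11 7 (Pf.B 11 6 (Pf.C 70 99467) (Pf.C 1 0x2c3030e0410a)) (Pf.C 72 0x1c48b)) (Pf.C 0 0x2450b)) Pf.nil))) (Pf.cons (Pf.W 215 9 [] [0,1,3,4,7,10] (Pf.cons (Pf.B 11 10 (Pf.B 11 7 (Pf.C 1 0x28184021c00b) (Pf.C 72 0x1c48b)) (Pf.C 0 0x2450b)) Pf.nil)) (Pf.cons (Pf.W 215 9 [] [1,2,3,4,8,10] (Pf.cons (Pf.B 11 10 (Pf.B 11 8 (Pf.C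 1 0x28082082018b) (Pf.C 0 0x2440b)) (Pf.C 0 0x2450b)) Pf.nil)) (Pf.cons (Pf.W 215 9 [] [0,2,3,5,6,7,10] (Pf.cons (Pf.B 11 10 (Pf.B 11 7 (Pf.B 11 6 (Pf.C 70 99467) (Pf.B 11 5 (Pf.C 1 0x28182001438b) (Pf.C 0 98955))) (Pf.C 72 0x1c48b)) (Pf.C 0 0x2450b)) Pf.nil)) (Pf.cons (Pf.W 215 9 [] [0,1,3,7,10] (Pf.cons (Pf.B 11 10 (Pf.B 11 7 (Pf.C 1 0x2c48a021c003) (Pf.C 72 0x1c48b)) (Pf.C 0 0x2450b)) Pf.nil)) (Pf.cons (Pf.W 215 9 [] [1,3,4,5,6,7,10] (Pf.cons (Pf.B 11 10 (Pf.B 11 7 (Pf.B 11 6 (Pf.C 70 99467) (Pf.B 11 5 (Pf.C 1 0x281840e0428b) (Pf.C 0 98955))) (Pf.C 72 0x1c48b)) (Pf.C 0 0x2450b)) Pf.nil)) Pf.nil))))))) (Pf.C 0 0x2410a)) (Pf.C 0 0x2420a)))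
 (Pq.cons (Pq.L [] 1184 (Pf.C 154 0x1c309))
 (Pq.cons (Pq.L [3] 4096 (Pf.C 0 0x24188))
 (Pq.cons (Pq.L [0] 4096 (Pf.C 0 0x24008))
 (Pq.cons (Pq.L [0] 4096 (Pf.C 0 0x24008))
 Pq.nil))))))) (Pq.cons (Pq.D 4 (Pq.cons (Pq.L [0,1,2,3,4] 32766 (Pf.T 10 9 (Pf.cons (Pf.C 1 0x284880e04003) (Pf.cons (Pf.C 1 0x284880e04003) (Pf.cons (Pf.C 1 0x2048a0c10181) (Pf.cons (Pf.C 1 0x284880e04003) (Pf.cons (Pf.C 1 0x284880e04003) (Pf.cons (Pf.W 217 5 [] [0,1,3,4,7,9,10] (Pf.cons (Pf.B 11 9 (Pf.B 11 7 (Pf.B 11 10 (Pf.C 1 0x245010e1000b) (Pf.C 1 0x1c001122c503)) (Pf.C 0 82827)) (Pf.C 47 83083)) Pf.nil)) (Pf.cons (Pf.C 1 0x181841204507) (Pf.cons (Pf.C 1 0x2048a0c10187) (Pf.cons (Pf.C 1 0x284880e04104) (Pf.cons (Pf.C 1 0x2048a0c10181)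 (Pf.cons (Pf.C 1 0x284880e04283) Pf.nil)))))))))))))
 (Pq.cons (Pq.L [2] 4096 (Pf.C 0 0x24108))
 (Pq.cons (Pq.L [] 1184 (Pf.C 154 0x1c309))
 (Pq.cons (Pq.L [1,3] 5856 (Pf.W 221 6 [] [1,3,7,8,9] (Pf.cons (Pf.B 11 9 (Pf.B 11 8 (Pf.B 11 7 (Pf.C 1 0x2c3031004487) (Pf.C 84 0x1c48b)) (Pf.C 85 0x2030b)) (Pf.C 82 99467)) Pf.nil)))
 (Pq.cons (Pq.L [0] 4096 (Pf.C 0 0x24008))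
 (Pq.cons (Pq.L [0] 4096 (Pf.C 0 0x24008))
 Pq.nil))))))) Pq.nil))))))) Pq.nil))))))) (Pq.cons (Pq.D 2 (Pq.cons (Pq.D 3 (Pq.cons (Pq.L [1,2,3] 615 (Pf.W 223 6 [] [1,2,3,5,7,8] (Pf.cons (Pf.B 11 8 (Pf.B 11 7 (Pf.B 11 5 (Pf.C 1 0xc101101c28b) (Pf.C 0 98955)) (Pf.C 50 99211)) (Pf.C 50 99339)) Pf.nil)))
 (Pq.cons (Pq.L [4] 4 (Pf.C 0 0x20205))
 (Pq.cons (Pq.L [1] 4 (Pf.C 0 0x20085))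
 (Pq.cons (Pq.L [1] 4 (Pf.C 0 0x20085))
 (Pq.cons (Pq.L [1,2,3] 4704 (Pf.B 9 3 (Pf.W 221 8 [] [1,2,3,6,7] (Pf.cons (Pf.B 11 7 (Pf.B 11 6 (Pf.C 1 0x2c4030218107) (Pf.C 85 99339)) (Pf.C 49 0x2038b)) Pf.nil)) (Pf.C 0 0x20189)))
 (Pq.cons (Pq.L [0,1,2,3,4] 32767 (Pf.B 9 2 (Pf.B 9 0 (Pf.T 9 9 (Pf.cons (Pf.B 10 3 (Pf.C 1 0x284880e18283) (Pf.B 10 2 (Pf.B 10 1 (Pf.C 1 0x245030c04107) (Pf.B 10 0 (Pf.C 1 0x18001120c507) (Pf.C 0 16394))) (Pf.C 0 49418))) (Pf.cons (Pf.C 1 0x104880c04107) (Pf.cons (Pf.C 1 0xc4880c04007) (Pf.cons (Pf.B 10 3 (Pf.C 1 0x284880e18283) (Pf.B 10 4 (Pf.B 10 1 (Pf.C 1 0x1018a1004486) (Pf.C 0 0x2408a)) (Pf.C 0 49674))) (Pf.cons (Pf.B 10 4 (Pf.B 10 3 (Pf.C 1 0x284880e18283) (Pf.B 10 2 (Pf.C 1 0x181080828487)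 (Pf.C 0 49418))) (Pf.C 0 0x2420a)) (Pf.cons (Pf.W 223 8 [] [0,2,3,4,5,6,7,9] (Pf.cons (Pf.B 11 9 (Pf.B 11 7 (Pf.B 11 6 (Pf.B 11 5 (Pf.C 1 0x241840e1828b) (Pf.C 0 0x2028b)) (Pf.C 1 0x24182002c307)) (Pf.C 50 0x2038b)) (Pf.C 0 0x2048b)) Pf.nil)) Pf.nil))))))) (Pf.C 0 0x20009)) (Pf.C 0 0x20109)))
 Pq.nil))))))) (Pq.cons (Pq.L [4] 2 (Pf.C 0 0x1c205))
 (Pq.cons (Pq.L [1] 2 (Pf.C 0 0x1c085))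
 (Pq.cons (Pq.L [1] 2 (Pf.C 0 0x1c085))
 (Pq.cons (Pq.D 3 (Pq.cons (Pq.L [1,2,3] 608 (Pf.W 221 7 [] [1,2,3,6,8] (Pf.cons (Pf.B 11 8 (Pf.B 11 6 (Pf.C 1 0x2c3830218108) (Pf.C 85 99211)) (Pf.C 49 0x1c40b)) Pf.nil)))
 (Pq.cons (Pq.L [4] 4 (Pf.C 0 0x20205))
 (Pq.cons (Pq.L [1] 4 (Pf.C 0 0x20085))
 (Pq.cons (Pq.L [1] 4 (Pf.C 0 0x20085))
 (Pq.cons (Pq.D 4 (Pq.cons (Pq.L [0,1,2,3,4] 32766 (Pf.T 10 9 (Pf.cons (Pf.C 1 0x284880e10002) (Pf.cons (Pf.W 217 5 [] [0,1,2,4,7,9,10] (Pf.cons (Pf.B 11 9 (Pf.B 11 7 (Pf.B 11 10 (Pf.C 1 0x245040e0400b) (Pf.C 1 0x1c004122c502)) (Pf.C 0 82827)) (Pf.C 47 83083)) Pf.nil)) (Pf.cons (Pf.C 1 0x284880e10002) (Pf.cons (Pf.C 1 0x2048a0c04104) (Pf.cons (Pf.C 1 0x2048a0c04107) (Pf.cons (Pf.C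 1 0x284880e10002) (Pf.cons (Pf.C 1 0x1c1841204506) (Pf.cons (Pf.C 1 0x284880e10002) (Pf.cons (Pf.C 1 0x284880e10181) (Pf.cons (Pf.C 1 0x284880e10282) (Pf.cons (Pf.C 1 0x2048a0c04104) Pf.nil)))))))))))))
 (Pq.cons (Pq.L [0,1,2,3,4] 32179 (Pf.B 10 4 (Pf.B 10 2 (Pf.T 10 9 (Pf.cons (Pf.W 215 9 [] [1,2,3,6,7,10] (Pf.cons (Pf.C 70 0x1c48a) (Pf.cons (Pf.B 11 10 (Pf.B 11 7 (Pf.C 70 0x1c48b) (Pf.B 11 6 (Pf.C 1 0x2c383021810a) (Pf.C 72 99467))) (Pf.C 0 0x2450b)) Pf.nil))) (Pf.cons (Pf.W 215 9 [] [0,1,3,4,6,10] (Pf.cons (Pf.B 11 10 (Pf.B 11 6 (Pf.C 1 0x28184021800b) (Pf.C 72 99467)) (Pf.C 0 0x2450b)) Pf.nil)) (Pf.cons (Pf.W 215 9 [] [1,2,3,4,8,10] (Pf.cons (Pf.B 11 10 (Pf.B 11 8 (Pf.C 1 0x28082082018b) (Pf.C 0 0x2440b))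 (Pf.C 0 0x2450b)) Pf.nil)) (Pf.cons (Pf.W 215 9 [] [0,2,3,5,6,7,10] (Pf.cons (Pf.B 11 10 (Pf.B 11 7 (Pf.C 70 0x1c48b) (Pf.B 11 6 (Pf.B 11 5 (Pf.C 1 0x28182001430b) (Pf.C 0 0x1c28b)) (Pf.C 72 99467))) (Pf.C 0 0x2450b)) Pf.nil)) (Pf.cons (Pf.W 215 9 [] [0,1,3,6,10] (Pf.cons (Pf.B 11 10 (Pf.B 11 6 (Pf.C 1 0x2c48a0218003) (Pf.C 72 99467)) (Pf.C 0 0x2450b)) Pf.nil)) (Pf.cons (Pf.W 215 9 [] [1,3,4,5,6,7,10] (Pf.cons (Pf.B 11 10 (Pf.B 11 7 (Pf.C 70 0x1c48b) (Pf.B 11 6 (Pf.B 11 5 (Pf.C 1 0x281840c0428b) (Pf.C 0 0x1c28b)) (Pf.C 72 99467))) (Pf.C 0 0x2450b)) Pf.nil)) Pf.nil))))))) (Pf.C 0 0x2410a)) (Pf.C 0 0x2420a)))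
 (Pq.cons (Pq.L [] 1184 (Pf.C 154 99209))
 (Pq.cons (Pq.L [3] 4096 (Pf.C 0 0x24188))
 (Pq.cons (Pq.L [0] 4096 (Pf.C 0 0x24008))
 (Pq.cons (Pq.L [0] 4096 (Pf.C 0 0x24008))
 Pq.nil))))))) (Pq.cons (Pq.D 4 (Pq.cons (Pq.L [2,3,4] 5646 (Pf.W 217 5 [] [2,3,4,7,8,9] (Pf.cons (Pf.B 11 9 (Pf.B 11 8 (Pf.B 11 7 (Pf.C 1 0x24402081c18b) (Pf.C 0 82827)) (Pf.C 0 82955)) (Pf.C 47 83083)) Pf.nil)))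
 (Pq.cons (Pq.L [2] 4096 (Pf.C 0 0x24108))
 (Pq.cons (Pq.L [] 1184 (Pf.C 154 99209))
 (Pq.cons (Pq.L [1,3] 5856 (Pf.W 221 7 [] [1,3,6,8,9] (Pf.cons (Pf.B 11 9 (Pf.B 11 8 (Pf.B 11 6 (Pf.C 1 0x2c3831004486) (Pf.C 84 99467)) (Pf.C 85 0x2038b)) (Pf.C 82 0x1c48b)) Pf.nil)))
 (Pq.cons (Pq.L [0] 4096 (Pf.C 0 0x24008))
 (Pq.cons (Pq.L [0] 4096 (Pf.C 0 0x24008))
 Pq.nil))))))) Pq.nil))))))) (Pq.cons (Pq.D 3 (Pq.cons (Pq.D 4 (Pq.cons (Pq.L [] 4108 (Pf.C 47 83080))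
 (Pq.cons (Pq.L [] 4108 (Pf.C 66 83080))
 (Pq.cons (Pq.L [] 4288 (Pf.C 79 99464))
 (Pq.cons (Pq.L [] 4108 (Pf.C 75 0x24288))
 (Pq.cons (Pq.L [0,1,2,3,4] 32736 (Pf.B 10 3 (Pf.B 10 0 (Pf.T 10 9 (Pf.cons (Pf.W 223 6 [] [0,1,2,3,8,9,10] (Pf.cons (Pf.B 11 9 (Pf.B 11 8 (Pf.B 11 10 (Pf.C 1 0x8080102848b) (Pf.C 1 0x1858a100c481)) (Pf.C 49 0x24588)) (Pf.C 85 99467)) Pf.nil)) (Pf.cons (Pf.C 1 0x282030c04108) (Pf.cons (Pf.C 1 0x2048a0c04104) (Pf.cons (Pf.W 223 6 [] [0,1,3,4,8,9,10] (Pf.cons (Pf.B 11 9 (Pf.B 11 8 (Pf.B 11 10 (Pf.C 1 0x2c3000628208) (Pf.C 1 0x1858a100c481)) (Pf.C 49 0x24588)) (Pf.C 85 99467)) Pf.nil)) (Pf.cons (Pf.C 1 0x245010e18104) (Pf.cons (Pf.C 1 0x105010e18108) Pf.nil))))))) (Pf.C 0 0x2400a)) (Pf.C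 0 0x2418a)))
 (Pq.cons (Pq.L [0,3,4] 32767 (Pf.B 10 3 (Pf.C 1 0x284880e18283) (Pf.B 10 4 (Pf.B 10 0 (Pf.C 1 0x281840e18008) (Pf.C 0 0x2400a)) (Pf.C 0 49674))))
 Pq.nil))))))) (Pq.cons (Pq.L [4] 4 (Pf.C 0 0x20205))
 (Pq.cons (Pq.L [1] 4 (Pf.C 0 0x20085))
 (Pq.cons (Pq.L [1] 4 (Pf.C 0 0x20085))
 (Pq.cons (Pq.D 4 (Pq.cons (Pq.L [1,2,3] 5646 (Pf.W 217 5 [] [1,2,3,7,8,9] (Pf.cons (Pf.B 11 9 (Pf.B 11 8 (Pf.B 11 7 (Pf.C 1 0x24403021c10b) (Pf.C 0 82827)) (Pf.C 0 82955)) (Pf.C 47 83083)) Pf.nil)))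
 (Pq.cons (Pq.L [0,1,2,3,4] 19899 (Pf.B 10 4 (Pf.B 10 2 (Pf.T 10 9 (Pf.cons (Pf.W 217 5 [] [0,1,3,4,7,9,10] (Pf.cons (Pf.B 11 9 (Pf.B 11 7 (Pf.B 11 10 (Pf.C 1 0x284840e0400b) (Pf.C 1 0x2450b0e04283)) (Pf.C 0 82827)) (Pf.C 66 83083)) Pf.nil)) (Pf.cons (Pf.W 215 9 [] [0,1,3,4,7,10] (Pf.cons (Pf.B 11 10 (Pf.B 11 7 (Pf.C 1 0x28184021c00b) (Pf.C 72 0x1c48b)) (Pf.C 0 0x2450b)) Pf.nil)) (Pf.cons (Pf.C 1 0x245010e18003) (Pf.cons (Pf.W 215 9 [] [0,3,4,6,7,10] (Pf.cons (Pf.B 11 10 (Pf.B 11 7 (Pf.B 11 6 (Pf.C 1 0x281840e1800b) (Pf.C 72 99467)) (Pf.C 72 0x1c48b)) (Pf.C 0 0x2450b)) Pf.nil)) (Pf.cons (Pf.W 215 9 [] [0,1,3,7,10] (Pf.cons (Pf.B 11 10 (Pf.B 11 7 (Pf.C 1 0x2c48a021c003) (Pf.C 72 0x1c48b)) (Pf.C 0 0x2450b)) Pf.nil))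 (Pf.cons (Pf.W 215 9 [] [1,3,4,5,6,10] (Pf.cons (Pf.B 11 10 (Pf.B 11 6 (Pf.B 11 5 (Pf.C 1 0x281840c0428b) (Pf.C 66 83083)) (Pf.C 72 99467)) (Pf.C 0 0x2450b)) Pf.nil)) Pf.nil))))))) (Pf.C 0 0x2410a)) (Pf.C 0 0x2420a)))
 (Pq.cons (Pq.L [1,2,4] 5638 (Pf.W 217 5 [] [1,2,4,7,8,9] (Pf.cons (Pf.B 11 8 (Pf.B 11 7 (Pf.B 11 9 (Pf.C 1 0x1c101101048b) (Pf.C 79 0x1c48b)) (Pf.C 0 82827)) (Pf.C 0 82955)) Pf.nil)))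
 (Pq.cons (Pq.L [1,2,4] 5856 (Pf.C 1 0x204810e18104))
 (Pq.cons (Pq.L [0] 4096 (Pf.C 0 0x24008))
 (Pq.cons (Pq.L [0] 4096 (Pf.C 0 0x24008))
 Pq.nil))))))) (Pq.cons (Pq.D 4 (Pq.cons (Pq.L [2,3,4] 32767 (Pf.B 10 3 (Pf.C 1 0x284880e18283) (Pf.B 10 4 (Pf.B 10 2 (Pf.C 1 0x284880e18104) (Pf.C 0 49418)) (Pf.C 0 49674))))
 (Pq.cons (Pq.L [2] 4096 (Pf.C 0 0x24108))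
 (Pq.cons (Pq.L [2,3,4] 1187 (Pf.W 217 5 [] [2,3,4,6,7,9] (Pf.cons (Pf.B 11 7 (Pf.B 11 9 (Pf.B 11 6 (Pf.C 1 0x242030e1810b) (Pf.C 0 82699)) (Pf.C 79 0x1c48b)) (Pf.C 0 82827)) Pf.nil)))
 (Pq.cons (Pq.L [0,3,4] 1195 (Pf.W 217 5 [] [0,3,4,6,7,9] (Pf.cons (Pf.B 11 9 (Pf.B 11 7 (Pf.B 11 6 (Pf.C 1 0x241840e1800b) (Pf.C 0 82699)) (Pf.C 0 82827)) (Pf.C 75 0x2428b)) Pf.nil)))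
 (Pq.cons (Pq.L [0] 4096 (Pf.C 0 0x24008))
 (Pq.cons (Pq.L [0] 4096 (Pf.C 0 0x24008))
 Pq.nil))))))) Pq.nil))))))) Pq.nil))))))) Pq.nil))))))) Pq.nil)
theorem d_o83 : AllRef d_T d_G61 (List.take 1 (List.drop 2 (List.flatMap (splitP 0) (List.drop 1 (applyObl dS_T 2 [131,133,135,137,139,141] [0,0,0,0,0,0] []))))) :=
  chkPq_sound d_o83c _ (by decide +kernel)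
noncomputable def d_o84c : Pq := (Pq.cons (Pq.D 1 (Pq.cons (Pq.D 2 (Pq.cons (Pq.D 3 (Pq.cons (Pq.L [0,1,2,3,4] 32767 (Pf.T 9 9 (Pf.cons (Pf.C 1 0x100010e18289) (Pf.cons (Pf.C 1 0x104880e18282) (Pf.cons (Pf.C 1 0x100010e18289) (Pf.cons (Pf.C 1 0x100010e18289) (Pf.cons (Pf.C 1 0x84880e18280) (Pf.cons (Pf.C 1 0x2030e18289) (Pf.cons (Pf.C 1 0x104880e18282) (Pf.cons (Pf.B 10 4 (Pf.C 1 0x284880e18284) (Pf.B 10 3 (Pf.B 10 2 (Pf.C 1 0x284880e18282) (Pf.B 10 0 (Pf.C 1 0x281030e18280) (Pf.C 0 65546))) (Pf.C 0 65930))) (Pf.cons (Pf.C 1 0x4880e18282) (Pf.cons (Pf.C 1 0x4880e18282) (Pf.cons (Pf.C 1 0x84880e18284) Pf.nil)))))))))))))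
 (Pq.cons (Pq.L [0,1,4] 4711 (Pf.B 9 4 (Pf.W 215 8 [] [0,1,4,5,6,7] (Pf.cons (Pf.B 11 7 (Pf.B 11 6 (Pf.B 11 5 (Pf.C 1 0x100010e1828b) (Pf.C 0 0x2028b)) (Pf.C 46 0x2030b)) (Pf.C 46 0x2038b)) Pf.nil)) (Pf.C 0 0x20209)))
 (Pq.cons (Pq.L [1] 4 (Pf.C 0 0x20085))
 (Pq.cons (Pq.L [1] 4 (Pf.C 0 0x20085))
 (Pq.cons (Pq.L [3] 4 (Pf.C 0 0x20185))
 (Pq.cons (Pq.L [0,1,4] 4711 (Pf.B 9 0 (Pf.W 223 8 [] [0,1,4,5,6,7] (Pf.cons (Pf.B 11 7 (Pf.B 11 6 (Pf.B 11 5 (Pf.C 1 0x100010e1828b) (Pf.C 0 0x2028b)) (Pf.C 50 0x2030b)) (Pf.C 50 0x2038b)) Pf.nil)) (Pf.C 0 0x20009)))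
 Pq.nil))))))) (Pq.cons (Pq.D 3 (Pq.cons (Pq.L [0,1,4] 615 (Pf.W 215 7 [] [0,1,4,5,6,8] (Pf.cons (Pf.B 11 8 (Pf.B 11 6 (Pf.B 11 5 (Pf.C 1 0x10001101828b) (Pf.C 0 0x1c28b)) (Pf.C 46 0x1c30b)) (Pf.C 46 0x1c40b)) Pf.nil)))
 (Pq.cons (Pq.L [0,1,2,3,4] 32767 (Pf.B 9 4 (Pf.B 9 2 (Pf.T 9 9 (Pf.cons (Pf.B 10 0 (Pf.C 1 0x284880e18280) (Pf.B 10 4 (Pf.B 10 3 (Pf.C 1 0x245000e0c206) (Pf.B 10 2 (Pf.C 1 0x1c1031200506) (Pf.C 0 49418))) (Pf.C 0 522))) (Pf.cons (Pf.B 10 3 (Pf.B 10 0 (Pf.C 1 0x284830e18280) (Pf.B 10 1 (Pf.C 1 0x400a100c486) (Pf.C 0 138))) (Pf.C 0 0x2418a)) (Pf.cons (Pf.C 1 0x44880e0c206) (Pf.cons (Pf.B 10 3 (Pf.B 10 1 (Pf.B 10 4 (Pf.C 1 0x1c2030228486) (Pf.B 10 0 (Pf.C 1 0x284830e18280) (Pf.C 0 65546))) (Pf.C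 0 0x2408a)) (Pf.C 0 0x2418a)) (Pf.cons (Pf.C 1 0x4880e0c106) (Pf.cons (Pf.W 215 8 [] [0,1,2,4,5,6,7,9] (Pf.cons (Pf.B 11 9 (Pf.B 11 6 (Pf.B 11 7 (Pf.B 11 5 (Pf.C 1 0x240010e1828b) (Pf.C 0 0x2028b)) (Pf.C 1 0x24004042c386)) (Pf.C 46 0x2030b)) (Pf.C 0 0x2048b)) Pf.nil)) Pf.nil))))))) (Pf.C 0 0x20109)) (Pf.C 0 0x20209)))
 (Pq.cons (Pq.L [1] 4 (Pf.C 0 0x20085))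
 (Pq.cons (Pq.L [1] 4 (Pf.C 0 0x20085))
 (Pq.cons (Pq.L [3] 4 (Pf.C 0 0x20185))
 (Pq.cons (Pq.L [0,1,4] 608 (Pf.W 215 7 [] [0,1,4,6,8] (Pf.cons (Pf.B 11 8 (Pf.B 11 6 (Pf.C 1 0x2c3841004006) (Pf.C 46 0x1c30b)) (Pf.C 72 0x2038b)) Pf.nil)))
 Pq.nil))))))) (Pq.cons (Pq.L [1] 2 (Pf.C 0 0x1c085))
 (Pq.cons (Pq.L [1] 2 (Pf.C 0 0x1c085))
 (Pq.cons (Pq.L [3] 2 (Pf.C 0 0x1c185))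
 (Pq.cons (Pq.D 3 (Pq.cons (Pq.L [0,1,4] 615 (Pf.W 223 7 [] [0,1,4,5,6,8] (Pf.cons (Pf.B 11 8 (Pf.B 11 6 (Pf.B 11 5 (Pf.C 1 0x10001101828b) (Pf.C 0 0x1c28b)) (Pf.C 50 0x1c30b)) (Pf.C 50 0x1c40b)) Pf.nil)))
 (Pq.cons (Pq.L [0,1,4] 4704 (Pf.B 9 4 (Pf.W 215 8 [] [0,1,4,6,7] (Pf.cons (Pf.B 11 7 (Pf.B 11 6 (Pf.C 1 0x2c4040e04006) (Pf.C 46 0x2030b)) (Pf.C 72 0x1c40b)) Pf.nil)) (Pf.C 0 0x20209)))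
 (Pq.cons (Pq.L [1] 4 (Pf.C 0 0x20085))
 (Pq.cons (Pq.L [1] 4 (Pf.C 0 0x20085))
 (Pq.cons (Pq.L [3] 4 (Pf.C 0 0x20185))
 (Pq.cons (Pq.L [0,1,2,3,4] 32767 (Pf.B 9 2 (Pf.B 9 0 (Pf.T 9 9 (Pf.cons (Pf.B 10 4 (Pf.C 1 0x284880e18284) (Pf.B 10 3 (Pf.B 10 2 (Pf.C 1 0x28203101c106) (Pf.B 10 1 (Pf.B 10 0 (Pf.C 1 0x245040e04006) (Pf.C 0 65546)) (Pf.C 0 32906))) (Pf.C 0 65930))) (Pf.cons (Pf.C 1 0x104880e04106) (Pf.cons (Pf.C 1 0xc4880e04006) (Pf.cons (Pf.B 10 4 (Pf.C 1 0x284880e18284) (Pf.B 10 3 (Pf.B 10 2 (Pf.C 1 0x28203101c106) (Pf.B 10 1 (Pf.C 1 0xc20a1004486) (Pf.C 0 32906))) (Pf.C 0 65930))) (Pf.cons (Pf.W 223 8 [] [0,1,2,4,5,6,7,9] (Pf.cons (Pf.B 11 9 (Pf.B 11 6 (Pf.B 11 7 (Pf.B 11 5 (Pf.C 1 0x104810e1828b) (Pf.C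 0 0x2028b)) (Pf.C 1 0x24200042c386)) (Pf.C 50 0x2030b)) (Pf.C 0 0x2048b)) Pf.nil)) (Pf.cons (Pf.B 10 4 (Pf.C 1 0x284880e18284) (Pf.B 10 3 (Pf.B 10 2 (Pf.C 1 0x28203101c106) (Pf.B 10 1 (Pf.B 10 0 (Pf.C 1 0x1c0010628486) (Pf.C 0 65546)) (Pf.C 0 32906))) (Pf.C 0 65930))) Pf.nil))))))) (Pf.C 0 0x20009)) (Pf.C 0 0x20109)))
 Pq.nil))))))) Pq.nil))))))) (Pq.cons (Pq.D 2 (Pq.cons (Pq.D 3 (Pq.cons (Pq.L [0,1,4] 615 (Pf.W 215 6 [] [0,1,4,5,7,8] (Pf.cons (Pf.B 11 8 (Pf.B 11 7 (Pf.B 11 5 (Pf.C 1 0x10001101c28b) (Pf.C 0 98955)) (Pf.C 46 99211)) (Pf.C 46 99339)) Pf.nil)))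
 (Pq.cons (Pq.L [0,1,2,3,4] 32767 (Pf.B 9 4 (Pf.B 9 2 (Pf.T 9 9 (Pf.cons (Pf.B 10 0 (Pf.C 1 0x284880e18280) (Pf.B 10 4 (Pf.B 10 3 (Pf.C 1 0x245000c0c207) (Pf.B 10 2 (Pf.C 1 0x181031200507) (Pf.C 0 49418))) (Pf.C 0 522))) (Pf.cons (Pf.B 10 3 (Pf.B 10 0 (Pf.C 1 0x284830e18280) (Pf.B 10 1 (Pf.C 1 0x400a100c486) (Pf.C 0 138))) (Pf.C 0 0x2418a)) (Pf.cons (Pf.C 1 0x44880c0c207) (Pf.cons (Pf.B 10 3 (Pf.B 10 1 (Pf.B 10 4 (Pf.C 1 0x182030228487) (Pf.B 10 0 (Pf.C 1 0x284830e18280) (Pf.C 0 65546))) (Pf.C 0 0x2408a)) (Pf.C 0 0x2418a)) (Pf.cons (Pf.C 1 0x4880c0c107) (Pf.cons (Pf.W 215 8 [] [0,1,2,4,5,6,7,9] (Pf.cons (Pf.B 11 9 (Pf.B 11 7 (Pf.B 11 6 (Pf.B 11 5 (Pf.C 1 0x240010e1828b) (Pf.C 0 0x2028b)) (Pf.C 1 0x24004042c307))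 (Pf.C 46 0x2038b)) (Pf.C 0 0x2048b)) Pf.nil)) Pf.nil))))))) (Pf.C 0 0x20109)) (Pf.C 0 0x20209)))
 (Pq.cons (Pq.L [1] 4 (Pf.C 0 0x20085))
 (Pq.cons (Pq.L [1] 4 (Pf.C 0 0x20085))
 (Pq.cons (Pq.L [3] 4 (Pf.C 0 0x20185))
 (Pq.cons (Pq.L [0,1,4] 608 (Pf.W 215 6 [] [0,1,4,7,8] (Pf.cons (Pf.B 11 8 (Pf.B 11 7 (Pf.C 1 0x2c3041004007) (Pf.C 46 99211)) (Pf.C 72 0x2030b)) Pf.nil)))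
 Pq.nil))))))) (Pq.cons (Pq.D 3 (Pq.cons (Pq.D 4 (Pq.cons (Pq.L [] 4108 (Pf.C 48 83080))
 (Pq.cons (Pq.L [0,1,2,3] 32767 (Pf.B 10 2 (Pf.B 10 0 (Pf.C 1 0x284880e18280) (Pf.B 10 3 (Pf.B 10 1 (Pf.C 1 0x280010c0c108) (Pf.C 0 138)) (Pf.C 1 0x5030e18108))) (Pf.C 0 0x2410a)))
 (Pq.cons (Pq.L [] 4108 (Pf.C 75 83080))
 (Pq.cons (Pq.L [] 4288 (Pf.C 68 0x24308))
 (Pq.cons (Pq.L [] 4108 (Pf.C 82 0x24288))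
 (Pq.cons (Pq.L [0,1,2,3,4] 32736 (Pf.B 10 2 (Pf.B 10 0 (Pf.T 10 9 (Pf.cons (Pf.W 215 6 [] [0,3,4,8,9,10] (Pf.cons (Pf.B 11 9 (Pf.B 11 8 (Pf.B 11 10 (Pf.C 1 0xc200102848b) (Pf.C 1 0x1858a1000483)) (Pf.C 46 99339)) (Pf.C 72 0x2430b)) Pf.nil)) (Pf.cons (Pf.C 1 0x2048a0c0c201) (Pf.cons (Pf.C 1 0x245030e18201) (Pf.cons (Pf.C 1 0x280800c0c208) (Pf.cons (Pf.W 215 6 [] [0,1,2,3,8,9,10] (Pf.cons (Pf.B 11 9 (Pf.B 11 8 (Pf.B 11 10 (Pf.C 1 0x2c3020028088) (Pf.C 1 0x1858a1000483)) (Pf.C 46 99339)) (Pf.C 72 0x2430b)) Pf.nil)) (Pf.cons (Pf.C 1 0x45030e18208) Pf.nil))))))) (Pf.C 0 0x2400a)) (Pf.C 0 0x2410a)))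
 Pq.nil))))))) (Pq.cons (Pq.D 4 (Pq.cons (Pq.L [0,1,4] 32767 (Pf.B 10 0 (Pf.C 1 0x284880e18280) (Pf.B 10 4 (Pf.B 10 1 (Pf.C 1 0x284880e18201) (Pf.C 0 138)) (Pf.C 0 522))))
 (Pq.cons (Pq.L [2] 4096 (Pf.C 0 0x24108))
 (Pq.cons (Pq.L [4] 4096 (Pf.C 0 0x24208))
 (Pq.cons (Pq.L [0,1,3] 32191 (Pf.B 10 3 (Pf.B 10 1 (Pf.B 10 0 (Pf.C 1 0x284830e18280) (Pf.W 215 6 [] [0,1,3,5,8,9,10] (Pf.cons (Pf.B 11 9 (Pf.C 67 0x2430b) (Pf.B 11 10 (Pf.B 11 8 (Pf.B 11 5 (Pf.C 1 0x28001100c28b) (Pf.C 0 98955)) (Pf.C 0 0x2440b)) (Pf.C 0 0x2450b))) Pf.nil))) (Pf.C 0 0x2408a)) (Pf.C 0 0x2418a)))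
 (Pq.cons (Pq.L [0,1,2] 5280 (Pf.W 215 8 [] [0,1,2,6,7,9] (Pf.cons (Pf.B 11 9 (Pf.B 11 7 (Pf.B 11 6 (Pf.C 1 0x240010e1810b) (Pf.C 70 0x2430b)) (Pf.C 70 0x2438b)) (Pf.C 0 0x2048b)) Pf.nil)))
 (Pq.cons (Pq.L [2] 4096 (Pf.C 0 0x24108))
 Pq.nil))))))) (Pq.cons (Pq.L [1] 4 (Pf.C 0 0x20085))
 (Pq.cons (Pq.L [1] 4 (Pf.C 0 0x20085))
 (Pq.cons (Pq.L [3] 4 (Pf.C 0 0x20185))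
 (Pq.cons (Pq.D 4 (Pq.cons (Pq.L [0,3,4] 5646 (Pf.W 219 5 [] [0,3,4,7,8,9] (Pf.cons (Pf.B 11 9 (Pf.B 11 8 (Pf.B 11 7 (Pf.C 1 0x24400061c20b) (Pf.C 0 82827)) (Pf.C 0 82955)) (Pf.C 48 83083)) Pf.nil)))
 (Pq.cons (Pq.L [2] 4096 (Pf.C 0 0x24108))
 (Pq.cons (Pq.L [0,1,2,3,4] 32249 (Pf.B 10 4 (Pf.B 10 1 (Pf.T 10 9 (Pf.cons (Pf.W 215 6 [] [0,1,3,4,8,9,10] (Pf.cons (Pf.B 11 9 (Pf.B 11 8 (Pf.B 11 10 (Pf.C 1 0x2c304100400a) (Pf.C 1 0x1858a1004483)) (Pf.C 72 0x2030b)) (Pf.C 66 0x2430b)) Pf.nil)) (Pf.cons (Pf.C 1 0x245030e18100) (Pf.cons (Pf.W 215 6 [] [0,1,3,4,8,9,10] (Pf.cons (Pf.B 11 9 (Pf.B 11 8 (Pf.B 11 10 (Pf.C 1 0x2c304100400a) (Pf.C 1 0x1858a1004483)) (Pf.C 72 0x2030b)) (Pf.C 66 0x2430b)) Pf.nil)) (Pf.cons (Pf.W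 215 6 [] [0,1,2,3,4,5,8,10] (Pf.cons (Pf.B 11 8 (Pf.B 11 10 (Pf.B 11 5 (Pf.C 1 0x28004041418b) (Pf.C 0 98955)) (Pf.C 1 0x1858a1004003)) (Pf.C 72 0x2030b)) Pf.nil)) (Pf.cons (Pf.W 217 9 [] [0,1,2,6,7,10] (Pf.cons (Pf.B 11 10 (Pf.B 11 7 (Pf.B 11 6 (Pf.C 1 0x280010e1810b) (Pf.C 66 0x2430b)) (Pf.C 66 0x2438b)) (Pf.C 0 0x2450b)) Pf.nil)) (Pf.cons (Pf.W 215 6 [] [0,1,2,3,5,8,9,10] (Pf.cons (Pf.B 11 9 (Pf.B 11 8 (Pf.B 11 10 (Pf.B 11 5 (Pf.C 1 0x14182120050b) (Pf.C 0 98955)) (Pf.C 1 0x1858a1004003)) (Pf.C 72 0x2030b)) (Pf.C 66 0x2430b)) Pf.nil)) Pf.nil))))))) (Pf.C 0 0x2408a)) (Pf.C 0 0x2420a)))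
 (Pq.cons (Pq.L [1,3,4] 5638 (Pf.W 219 5 [] [1,3,4,7,8,9] (Pf.cons (Pf.B 11 8 (Pf.B 11 7 (Pf.B 11 9 (Pf.C 1 0x1c203100448b) (Pf.C 68 0x2438b)) (Pf.C 0 82827)) (Pf.C 0 82955)) Pf.nil)))
 (Pq.cons (Pq.L [1,3,4] 5856 (Pf.C 1 0x204830e18201))
 (Pq.cons (Pq.L [0] 4096 (Pf.C 0 0x24008))
 Pq.nil))))))) Pq.nil))))))) (Pq.cons (Pq.L [1] 2 (Pf.C 0 0x1c085))
 (Pq.cons (Pq.L [1] 2 (Pf.C 0 0x1c085))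
 (Pq.cons (Pq.L [3] 2 (Pf.C 0 0x1c185))
 (Pq.cons (Pq.D 3 (Pq.cons (Pq.L [0,1,4] 608 (Pf.W 215 6 [] [0,1,4,7,8] (Pf.cons (Pf.B 11 8 (Pf.B 11 7 (Pf.C 1 0x2c304021c008) (Pf.C 72 0x1c30b)) (Pf.C 46 99339)) Pf.nil)))
 (Pq.cons (Pq.D 4 (Pq.cons (Pq.L [0,1,4] 1184 (Pf.W 215 6 [] [0,1,4,7,9] (Pf.cons (Pf.B 11 9 (Pf.B 11 7 (Pf.C 1 0x2c304021c009) (Pf.C 72 0x1c30b)) (Pf.C 46 99467)) Pf.nil)))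
 (Pq.cons (Pq.L [2] 4096 (Pf.C 0 0x24108))
 (Pq.cons (Pq.L [4] 4096 (Pf.C 0 0x24208))
 (Pq.cons (Pq.L [] 1184 (Pf.C 144 0x1c486))
 (Pq.cons (Pq.L [0,1] 5856 (Pf.W 215 8 [] [0,1,6,7,9] (Pf.cons (Pf.B 11 9 (Pf.B 11 7 (Pf.B 11 6 (Pf.C 1 0x2c4090e04006) (Pf.C 70 0x2430b)) (Pf.C 72 0x1c40b)) (Pf.C 0 0x2048b)) Pf.nil)))
 (Pq.cons (Pq.L [2] 4096 (Pf.C 0 0x24108))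
 Pq.nil))))))) (Pq.cons (Pq.L [1] 4 (Pf.C 0 0x20085))
 (Pq.cons (Pq.L [1] 4 (Pf.C 0 0x20085))
 (Pq.cons (Pq.L [3] 4 (Pf.C 0 0x20185))
 (Pq.cons (Pq.D 4 (Pq.cons (Pq.L [0,1,4] 1184 (Pf.W 215 6 [] [0,1,4,7,9] (Pf.cons (Pf.B 11 9 (Pf.B 11 7 (Pf.C 1 0x2c304021c009) (Pf.C 72 0x1c30b)) (Pf.C 46 99467)) Pf.nil)))
 (Pq.cons (Pq.L [2] 4096 (Pf.C 0 0x24108))
 (Pq.cons (Pq.L [1,4] 5856 (Pf.W 215 6 [] [1,4,7,8,9] (Pf.cons (Pf.B 11 9 (Pf.B 11 8 (Pf.B 11 7 (Pf.C 1 0x2c3041004487) (Pf.C 72 0x1c30b)) (Pf.C 72 0x2030b)) (Pf.C 66 0x2430b)) Pf.nil)))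
 (Pq.cons (Pq.L [] 1184 (Pf.C 144 0x1c486))
 (Pq.cons (Pq.L [0] 4096 (Pf.C 0 0x24008))
 (Pq.cons (Pq.L [0] 4096 (Pf.C 0 0x24008))
 Pq.nil))))))) Pq.nil))))))) Pq.nil))))))) (Pq.cons (Pq.L [1] 1 (Pf.C 0 98437))
 (Pq.cons (Pq.L [1] 1 (Pf.C 0 98437))
 (Pq.cons (Pq.L [3] 1 (Pf.C 0 98693))
 (Pq.cons (Pq.D 2 (Pq.cons (Pq.D 3 (Pq.cons (Pq.L [0,1,4] 615 (Pf.W 223 6 [] [0,1,4,5,7,8] (Pf.cons (Pf.B 11 8 (Pf.B 11 7 (Pf.B 11 5 (Pf.C 1 0x10001101c28b) (Pf.C 0 98955)) (Pf.C 50 99211)) (Pf.C 50 99339)) Pf.nil)))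
 (Pq.cons (Pq.L [0,1,4] 4704 (Pf.B 9 4 (Pf.W 215 8 [] [0,1,4,6,7] (Pf.cons (Pf.B 11 7 (Pf.B 11 6 (Pf.C 1 0x2c4040218007) (Pf.C 72 99339)) (Pf.C 46 0x2038b)) Pf.nil)) (Pf.C 0 0x20209)))
 (Pq.cons (Pq.L [1] 4 (Pf.C 0 0x20085))
 (Pq.cons (Pq.L [1] 4 (Pf.C 0 0x20085))
 (Pq.cons (Pq.L [3] 4 (Pf.C 0 0x20185))
 (Pq.cons (Pq.L [0,1,2,3,4] 32767 (Pf.B 9 2 (Pf.B 9 0 (Pf.T 9 9 (Pf.cons (Pf.B 10 4 (Pf.C 1 0x284880e18284) (Pf.B 10 3 (Pf.B 10 2 (Pf.C 1 0x282031018107) (Pf.B 10 1 (Pf.B 10 0 (Pf.C 1 0x245040c04007) (Pf.C 0 65546)) (Pf.C 0 32906))) (Pf.C 0 65930))) (Pf.cons (Pf.C 1 0x104880c04107) (Pf.cons (Pf.C 1 0xc4880c04007) (Pf.cons (Pf.B 10 4 (Pf.C 1 0x284880e18284) (Pf.B 10 3 (Pf.B 10 2 (Pf.C 1 0x282031018107) (Pf.B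 10 1 (Pf.C 1 0xc20a1004486) (Pf.C 0 32906))) (Pf.C 0 65930))) (Pf.cons (Pf.W 223 8 [] [0,2,3,4,5,6,7,9] (Pf.cons (Pf.B 11 9 (Pf.B 11 7 (Pf.B 11 6 (Pf.B 11 5 (Pf.C 1 0x242030e1828b) (Pf.C 0 0x2028b)) (Pf.C 1 0x24200042c307)) (Pf.C 50 0x2038b)) (Pf.C 0 0x2048b)) Pf.nil)) (Pf.cons (Pf.B 10 4 (Pf.C 1 0x284880e18284) (Pf.B 10 3 (Pf.B 10 2 (Pf.C 1 0x282031018107) (Pf.B 10 1 (Pf.B 10 0 (Pf.C 1 0x180010628487) (Pf.C 0 65546)) (Pf.C 0 32906))) (Pf.C 0 65930))) Pf.nil))))))) (Pf.C 0 0x20009)) (Pf.C 0 0x20109)))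
 Pq.nil))))))) (Pq.cons (Pq.D 3 (Pq.cons (Pq.L [0,1,4] 608 (Pf.W 215 7 [] [0,1,4,6,8] (Pf.cons (Pf.B 11 8 (Pf.B 11 6 (Pf.C 1 0x2c3840218008) (Pf.C 72 99211)) (Pf.C 46 0x1c40b)) Pf.nil)))
 (Pq.cons (Pq.D 4 (Pq.cons (Pq.L [0,1,4] 1184 (Pf.W 215 7 [] [0,1,4,6,9] (Pf.cons (Pf.B 11 9 (Pf.B 11 6 (Pf.C 1 0x2c3840218009) (Pf.C 72 99211)) (Pf.C 46 0x1c48b)) Pf.nil)))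
 (Pq.cons (Pq.L [2] 4096 (Pf.C 0 0x24108))
 (Pq.cons (Pq.L [4] 4096 (Pf.C 0 0x24208))
 (Pq.cons (Pq.L [] 1184 (Pf.C 144 99463))
 (Pq.cons (Pq.L [0,1] 5856 (Pf.W 215 8 [] [0,1,6,7,9] (Pf.cons (Pf.B 11 9 (Pf.B 11 7 (Pf.B 11 6 (Pf.C 1 0x2c4090218007) (Pf.C 72 99339)) (Pf.C 70 0x2438b)) (Pf.C 0 0x2048b)) Pf.nil)))
 (Pq.cons (Pq.L [2] 4096 (Pf.C 0 0x24108))
 Pq.nil))))))) (Pq.cons (Pq.L [1] 4 (Pf.C 0 0x20085))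
 (Pq.cons (Pq.L [1] 4 (Pf.C 0 0x20085))
 (Pq.cons (Pq.L [3] 4 (Pf.C 0 0x20185))
 (Pq.cons (Pq.D 4 (Pq.cons (Pq.L [0,1,4] 1184 (Pf.W 215 7 [] [0,1,4,6,9] (Pf.cons (Pf.B 11 9 (Pf.B 11 6 (Pf.C 1 0x2c3840218009) (Pf.C 72 99211)) (Pf.C 46 0x1c48b)) Pf.nil)))
 (Pq.cons (Pq.L [2] 4096 (Pf.C 0 0x24108))
 (Pq.cons (Pq.L [1,4] 5856 (Pf.W 215 7 [] [1,4,6,8,9] (Pf.cons (Pf.B 11 9 (Pf.B 11 8 (Pf.B 11 6 (Pf.C 1 0x2c3841004486) (Pf.C 72 99211)) (Pf.C 72 0x2038b)) (Pf.C 66 0x2438b)) Pf.nil)))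
 (Pq.cons (Pq.L [] 1184 (Pf.C 144 99463))
 (Pq.cons (Pq.L [0] 4096 (Pf.C 0 0x24008))
 (Pq.cons (Pq.L [0] 4096 (Pf.C 0 0x24008))
 Pq.nil))))))) Pq.nil))))))) (Pq.cons (Pq.L [1] 2 (Pf.C 0 0x1c085))
 (Pq.cons (Pq.L [1] 2 (Pf.C 0 0x1c085))
 (Pq.cons (Pq.L [3] 2 (Pf.C 0 0x1c185))
 (Pq.cons (Pq.D 3 (Pq.cons (Pq.D 4 (Pq.cons (Pq.L [] 4108 (Pf.C 48 83080))
 (Pq.cons (Pq.L [0,1,2,3,4] 32736 (Pf.B 10 4 (Pf.B 10 2 (Pf.T 10 9 (Pf.cons (Pf.W 223 6 [] [0,1,2,4,8,9,10] (Pf.cons (Pf.B 11 9 (Pf.B 11 8 (Pf.B 11 10 (Pf.C 1 0x82102848b) (Pf.C 1 0x1858a1010481)) (Pf.C 46 0x24588)) (Pf.C 72 99467)) Pf.nil)) (Pf.cons (Pf.C 1 0x281840c04008) (Pf.cons (Pf.C 1 0x245010e18003) (Pf.cons (Pf.C 1 0xc5010e18008) (Pf.cons (Pf.C 1 0x2048a0c04003)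 (Pf.cons (Pf.W 223 6 [] [1,2,3,4,8,9,10] (Pf.cons (Pf.B 11 9 (Pf.B 11 8 (Pf.B 11 10 (Pf.C 1 0x2c3020828188) (Pf.C 1 0x1858a1010481)) (Pf.C 46 0x24588)) (Pf.C 72 99467)) Pf.nil)) Pf.nil))))))) (Pf.C 0 0x2410a)) (Pf.C 0 0x2420a)))
 (Pq.cons (Pq.L [] 4108 (Pf.C 75 83080))
 (Pq.cons (Pq.L [] 4288 (Pf.C 83 99464))
 (Pq.cons (Pq.L [] 4108 (Pf.C 82 0x24288))
 (Pq.cons (Pq.L [2,3,4] 32767 (Pf.B 10 4 (Pf.C 1 0x284880e18284) (Pf.B 10 3 (Pf.B 10 2 (Pf.C 1 0x282030e18108) (Pf.C 0 0x2410a)) (Pf.C 0 65930))))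
 Pq.nil))))))) (Pq.cons (Pq.D 4 (Pq.cons (Pq.L [0,1,4] 5646 (Pf.W 219 5 [] [0,1,4,7,8,9] (Pf.cons (Pf.B 11 9 (Pf.B 11 8 (Pf.B 11 7 (Pf.C 1 0x24404021c00b) (Pf.C 0 82827)) (Pf.C 0 82955)) (Pf.C 48 83083)) Pf.nil)))
 (Pq.cons (Pq.L [2] 4096 (Pf.C 0 0x24108))
 (Pq.cons (Pq.L [0,1,3] 5856 (Pf.C 1 0x204810e18003))
 (Pq.cons (Pq.L [0,3,4] 5856 (Pf.W 215 8 [] [0,3,4,6,7,9] (Pf.cons (Pf.B 11 9 (Pf.B 11 7 (Pf.B 11 6 (Pf.C 1 0x241840e1800b) (Pf.C 72 99339)) (Pf.C 72 0x1c40b)) (Pf.C 0 0x2048b)) Pf.nil)))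
 (Pq.cons (Pq.D 5 (Pq.cons (Pq.L [1,2,3] 32256 (Pf.W 215 8 [] [1,2,3,7,9,10] (Pf.cons (Pf.B 11 10 (Pf.B 11 9 (Pf.B 11 7 (Pf.C 1 0x28483021c10b) (Pf.C 72 0x1c40b)) (Pf.C 0 0x2048b)) (Pf.C 46 0x2050b)) Pf.nil)))
 (Pq.cons (Pq.L [1,2,4] 20508 (Pf.W 215 8 [] [1,2,4,5,9,10] (Pf.cons (Pf.B 11 9 (Pf.B 11 5 (Pf.B 11 10 (Pf.C 1 0x14082121050b) (Pf.C 67 83211)) (Pf.C 0 0x2028b)) (Pf.C 0 0x2048b)) Pf.nil)))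
 (Pq.cons (Pq.L [1,2,4] 32256 (Pf.W 215 8 [] [1,2,4,7,9,10] (Pf.cons (Pf.B 11 10 (Pf.B 11 9 (Pf.B 11 7 (Pf.C 1 0x1c101121050b) (Pf.C 72 0x1c40b)) (Pf.C 0 0x2048b)) (Pf.C 66 0x2840b)) Pf.nil)))
 (Pq.cons (Pq.L [1,4] 19899 (Pf.C 1 0x245010e18284))
 (Pq.cons (Pq.L [0] 16384 (Pf.C 0 0x28009))
 (Pq.cons (Pq.L [0] 16384 (Pf.C 0 0x28009))
 Pq.nil))))))) (Pq.cons (Pq.L [2] 4096 (Pf.C 0 0x24108))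
 Pq.nil))))))) (Pq.cons (Pq.L [1] 4 (Pf.C 0 0x20085))
 (Pq.cons (Pq.L [1] 4 (Pf.C 0 0x20085))
 (Pq.cons (Pq.L [3] 4 (Pf.C 0 0x20185))
 (Pq.cons (Pq.D 4 (Pq.cons (Pq.L [0,3,4] 32767 (Pf.B 10 4 (Pf.C 1 0x284880e18284) (Pf.B 10 3 (Pf.B 10 0 (Pf.C 1 0x284880e18003) (Pf.C 0 65546)) (Pf.C 0 65930))))
 (Pq.cons (Pq.L [2] 4096 (Pf.C 0 0x24108))
 (Pq.cons (Pq.L [2,3,4] 1195 (Pf.W 219 5 [] [2,3,4,6,7,9] (Pf.cons (Pf.B 11 9 (Pf.B 11 7 (Pf.B 11 6 (Pf.C 1 0x242030e1810b) (Pf.C 0 82699)) (Pf.C 0 82827)) (Pf.C 75 83083)) Pf.nil)))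
 (Pq.cons (Pq.L [0,3,4] 1187 (Pf.W 219 5 [] [0,3,4,6,7,9] (Pf.cons (Pf.B 11 7 (Pf.B 11 9 (Pf.B 11 6 (Pf.C 1 0x241840e1800b) (Pf.C 0 82699)) (Pf.C 83 0x1c48b)) (Pf.C 0 82827)) Pf.nil)))
 (Pq.cons (Pq.L [0] 4096 (Pf.C 0 0x24008))
 (Pq.cons (Pq.L [0] 4096 (Pf.C 0 0x24008))
 Pq.nil))))))) Pq.nil))))))) Pq.nil))))))) Pq.nil))))))) Pq.nil)
theorem d_o84 : AllRef d_T d_G61 (List.take 1 (List.drop 1 (List.drop 2 (List.flatMap (splitP 0) (List.drop 1 (applyObl dS_T 2 [131,133,135,137,139,141] [0,0,0,0,0,0] [])))))) :=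
  chkPq_sound d_o84c _ (by decide +kernel)
noncomputable def d_o85c : Pq := (Pq.cons (Pq.D 1 (Pq.cons (Pq.D 2 (Pq.cons (Pq.D 3 (Pq.cons (Pq.L [0,1,2,3,4] 32767 (Pf.T 9 9 (Pf.cons (Pf.C 1 0x80800e18289) (Pf.cons (Pf.C 1 0x80800e18289) (Pf.cons (Pf.C 1 0x80800e18289) (Pf.cons (Pf.C 1 0x84880e18284) (Pf.cons (Pf.C 1 0x104880e18281) (Pf.cons (Pf.C 1 0x44880e18284) (Pf.cons (Pf.C 1 0x104880e18282) (Pf.cons (Pf.C 1 0x44880e18284) (Pf.cons (Pf.C 1 0x41030e18289) (Pf.cons (Pf.B 10 4 (Pf.C 1 0x284880e18284) (Pf.B 10 3 (Pf.B 10 2 (Pf.C 1 0x284880e18282) (Pf.B 10 1 (Pf.C 1 0x282030e18281) (Pf.C 0 32906))) (Pf.C 0 65930))) (Pf.cons (Pf.C 1 0x84880e18284) Pf.nil)))))))))))))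
 (Pq.cons (Pq.L [0,1,2] 4711 (Pf.B 9 2 (Pf.W 215 8 [] [0,1,2,5,6,7] (Pf.cons (Pf.B 11 7 (Pf.B 11 6 (Pf.B 11 5 (Pf.C 1 0x80800e1828b) (Pf.C 0 0x2028b)) (Pf.C 46 0x2030b)) (Pf.C 46 0x2038b)) Pf.nil)) (Pf.C 0 0x20109)))
 (Pq.cons (Pq.L [0,1,2] 4711 (Pf.B 9 1 (Pf.W 217 8 [] [0,1,2,5,6,7] (Pf.cons (Pf.B 11 7 (Pf.B 11 6 (Pf.B 11 5 (Pf.C 1 0x80800e1828b) (Pf.C 0 0x2028b)) (Pf.C 47 0x2030b)) (Pf.C 47 0x2038b)) Pf.nil)) (Pf.C 0 0x20089)))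
 (Pq.cons (Pq.L [3] 4 (Pf.C 0 0x20185))
 (Pq.cons (Pq.L [0] 4 (Pf.C 0 0x20005))
 (Pq.cons (Pq.L [0] 4 (Pf.C 0 0x20005))
 Pq.nil))))))) (Pq.cons (Pq.D 3 (Pq.cons (Pq.L [0,1,2] 615 (Pf.W 215 7 [] [0,1,2,5,6,8] (Pf.cons (Pf.B 11 8 (Pf.B 11 6 (Pf.B 11 5 (Pf.C 1 0x8080101828b) (Pf.C 0 0x1c28b)) (Pf.C 46 0x1c30b)) (Pf.C 46 0x1c40b)) Pf.nil)))
 (Pq.cons (Pq.L [0,1,2,3,4] 32767 (Pf.B 9 4 (Pf.B 9 2 (Pf.T 9 9 (Pf.cons (Pf.B 10 1 (Pf.C 1 0x284880e18281) (Pf.B 10 2 (Pf.B 10 3 (Pf.C 1 0x245010e0c106) (Pf.B 10 4 (Pf.C 1 0x1c2031204506) (Pf.C 0 49674))) (Pf.C 0 16650))) (Pf.cons (Pf.B 10 3 (Pf.B 10 1 (Pf.C 1 0x284830e18281) (Pf.B 10 0 (Pf.C 1 0x8a100c486) (Pf.C 0 16394))) (Pf.C 0 0x2418a)) (Pf.cons (Pf.C 1 0x44880e0c206)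 (Pf.cons (Pf.W 215 8 [] [0,1,2,4,5,6,7,9] (Pf.cons (Pf.B 11 9 (Pf.B 11 6 (Pf.B 11 7 (Pf.B 11 5 (Pf.C 1 0x240800e1828b) (Pf.C 0 0x2028b)) (Pf.C 1 0x24082082c386)) (Pf.C 46 0x2030b)) (Pf.C 0 0x2048b)) Pf.nil)) (Pf.cons (Pf.C 1 0x4880e0c106) (Pf.cons (Pf.B 10 3 (Pf.B 10 1 (Pf.C 1 0x284830e18281) (Pf.B 10 2 (Pf.B 10 0 (Pf.C 1 0x1c1030028486) (Pf.C 0 16394)) (Pf.C 0 16650))) (Pf.C 0 0x2418a)) Pf.nil))))))) (Pf.C 0 0x20109)) (Pf.C 0 0x20209)))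
 (Pq.cons (Pq.L [0,1,2] 608 (Pf.W 215 7 [] [0,1,2,6,8] (Pf.cons (Pf.B 11 8 (Pf.B 11 6 (Pf.C 1 0x2c3821000086) (Pf.C 46 0x1c30b)) (Pf.C 66 0x2038b)) Pf.nil)))
 (Pq.cons (Pq.L [3] 4 (Pf.C 0 0x20185))
 (Pq.cons (Pq.L [0] 4 (Pf.C 0 0x20005))
 (Pq.cons (Pq.L [0] 4 (Pf.C 0 0x20005))
 Pq.nil))))))) (Pq.cons (Pq.D 3 (Pq.cons (Pq.L [0,1,2] 615 (Pf.W 217 7 [] [0,1,2,5,6,8] (Pf.cons (Pf.B 11 8 (Pf.B 11 6 (Pf.B 11 5 (Pf.C 1 0x8080101828b) (Pf.C 0 0x1c28b)) (Pf.C 47 0x1c30b)) (Pf.C 47 0x1c40b)) Pf.nil)))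
 (Pq.cons (Pq.L [0,1,2] 4704 (Pf.B 9 2 (Pf.W 215 8 [] [0,1,2,6,7] (Pf.cons (Pf.B 11 7 (Pf.B 11 6 (Pf.C 1 0x2c4020e00086) (Pf.C 46 0x2030b)) (Pf.C 66 0x1c40b)) Pf.nil)) (Pf.C 0 0x20109)))
 (Pq.cons (Pq.L [0,1,2,3,4] 32767 (Pf.B 9 4 (Pf.B 9 1 (Pf.T 9 9 (Pf.cons (Pf.B 10 2 (Pf.C 1 0x284880e18282) (Pf.B 10 3 (Pf.B 10 4 (Pf.C 1 0x28103101c206) (Pf.B 10 1 (Pf.B 10 0 (Pf.C 1 0x245020e00086) (Pf.C 0 65546)) (Pf.C 0 32906))) (Pf.C 0 33162))) (Pf.cons (Pf.C 1 0xc4880e00086) (Pf.cons (Pf.C 1 0x84880e00206) (Pf.cons (Pf.B 10 2 (Pf.C 1 0x284880e18282) (Pf.B 10 3 (Pf.B 10 4 (Pf.C 1 0x28103101c206) (Pf.B 10 0 (Pf.C 1 0xc10a1000486) (Pf.C 0 65546))) (Pf.C 0 33162))) (Pf.cons (Pf.B 10 3 (Pf.B 10 2 (Pf.C 1 0x284880e18282) (Pf.B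 10 1 (Pf.C 1 0x1c0880628486) (Pf.C 0 32906))) (Pf.C 0 0x2418a)) (Pf.cons (Pf.W 217 8 [] [0,1,2,4,5,6,7,9] (Pf.cons (Pf.B 11 9 (Pf.B 11 6 (Pf.B 11 7 (Pf.B 11 5 (Pf.C 1 0x84800e1828b) (Pf.C 0 0x2028b)) (Pf.C 1 0x24101082c386)) (Pf.C 47 0x2030b)) (Pf.C 0 0x2048b)) Pf.nil)) Pf.nil))))))) (Pf.C 0 0x20089)) (Pf.C 0 0x20209)))
 (Pq.cons (Pq.L [3] 4 (Pf.C 0 0x20185))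
 (Pq.cons (Pq.L [0] 4 (Pf.C 0 0x20005))
 (Pq.cons (Pq.L [0] 4 (Pf.C 0 0x20005))
 Pq.nil))))))) (Pq.cons (Pq.L [3] 2 (Pf.C 0 0x1c185))
 (Pq.cons (Pq.L [0] 2 (Pf.C 0 0x1c005))
 (Pq.cons (Pq.L [0] 2 (Pf.C 0 0x1c005))
 Pq.nil))))))) (Pq.cons (Pq.D 2 (Pq.cons (Pq.D 3 (Pq.cons (Pq.L [0,1,2] 615 (Pf.W 215 6 [] [0,1,2,5,7,8] (Pf.cons (Pf.B 11 8 (Pf.B 11 7 (Pf.B 11 5 (Pf.C 1 0x8080101c28b) (Pf.C 0 98955)) (Pf.C 46 99211)) (Pf.C 46 99339)) Pf.nil)))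
 (Pq.cons (Pq.L [0,1,2,3,4] 32767 (Pf.B 9 4 (Pf.B 9 2 (Pf.T 9 9 (Pf.cons (Pf.B 10 1 (Pf.C 1 0x284880e18281) (Pf.B 10 2 (Pf.B 10 3 (Pf.C 1 0x245010c0c107) (Pf.B 10 4 (Pf.C 1 0x182031204507) (Pf.C 0 49674))) (Pf.C 0 16650))) (Pf.cons (Pf.B 10 3 (Pf.B 10 1 (Pf.C 1 0x284830e18281) (Pf.B 10 0 (Pf.C 1 0x8a100c486) (Pf.C 0 16394))) (Pf.C 0 0x2418a)) (Pf.cons (Pf.C 1 0x44880c0c207) (Pf.cons (Pf.W 215 8 [] [0,1,2,4,5,6,7,9] (Pf.cons (Pf.B 11 9 (Pf.B 11 7 (Pf.B 11 6 (Pf.B 11 5 (Pf.C 1 0x240800e1828b) (Pf.C 0 0x2028b)) (Pf.C 1 0x24082082c307)) (Pf.C 46 0x2038b)) (Pf.C 0 0x2048b)) Pf.nil)) (Pf.cons (Pf.C 1 0x4880c0c107) (Pf.cons (Pf.B 10 3 (Pf.B 10 1 (Pf.C 1 0x284830e18281) (Pf.B 10 2 (Pf.B 10 0 (Pf.C 1 0x181030028487)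 (Pf.C 0 16394)) (Pf.C 0 16650))) (Pf.C 0 0x2418a)) Pf.nil))))))) (Pf.C 0 0x20109)) (Pf.C 0 0x20209)))
 (Pq.cons (Pq.L [0,1,2] 608 (Pf.W 215 6 [] [0,1,2,7,8] (Pf.cons (Pf.B 11 8 (Pf.B 11 7 (Pf.C 1 0x2c3021000087) (Pf.C 46 99211)) (Pf.C 66 0x2030b)) Pf.nil)))
 (Pq.cons (Pq.L [3] 4 (Pf.C 0 0x20185))
 (Pq.cons (Pq.L [0] 4 (Pf.C 0 0x20005))
 (Pq.cons (Pq.L [0] 4 (Pf.C 0 0x20005))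
 Pq.nil))))))) (Pq.cons (Pq.D 3 (Pq.cons (Pq.D 4 (Pq.cons (Pq.L [] 4108 (Pf.C 49 83080))
 (Pq.cons (Pq.L [0,1,3,4] 32767 (Pf.B 10 4 (Pf.B 10 1 (Pf.C 1 0x284880e18281) (Pf.B 10 3 (Pf.B 10 0 (Pf.C 1 0x280800c0c208) (Pf.C 0 16394)) (Pf.C 1 0x45030e18208))) (Pf.C 0 0x2420a)))
 (Pq.cons (Pq.L [0,1,2,3,4] 32736 (Pf.B 10 4 (Pf.B 10 1 (Pf.T 10 9 (Pf.cons (Pf.W 215 6 [] [1,2,3,8,9,10] (Pf.cons (Pf.B 11 9 (Pf.B 11 8 (Pf.B 11 10 (Pf.C 1 0xc101102848b) (Pf.C 1 0x1858a1004483)) (Pf.C 46 99339)) (Pf.C 66 0x2430b)) Pf.nil)) (Pf.cons (Pf.C 1 0x245030e18100) (Pf.cons (Pf.C 1 0x2048a0c0c100) (Pf.cons (Pf.C 1 0x280010c0c108) (Pf.cons (Pf.C 1 0x5030e18108) (Pf.cons (Pf.W 215 6 [] [0,1,3,4,8,9,10] (Pf.cons (Pf.B 11 9 (Pf.B 11 8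 (Pf.B 11 10 (Pf.C 1 0x2c3040228008) (Pf.C 1 0x1858a1004483)) (Pf.C 46 99339)) (Pf.C 66 0x2430b)) Pf.nil)) Pf.nil))))))) (Pf.C 0 0x2408a)) (Pf.C 0 0x2420a)))
 (Pq.cons (Pq.L [] 4108 (Pf.C 82 83080))
 (Pq.cons (Pq.L [] 4288 (Pf.C 71 0x24308))
 (Pq.cons (Pq.L [] 4108 (Pf.C 85 0x24288))
 Pq.nil))))))) (Pq.cons (Pq.D 4 (Pq.cons (Pq.L [0,1,2] 32767 (Pf.B 10 1 (Pf.C 1 0x284880e18281) (Pf.B 10 2 (Pf.B 10 0 (Pf.C 1 0x284880e18100) (Pf.C 0 16394)) (Pf.C 0 16650))))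
 (Pq.cons (Pq.L [2] 4096 (Pf.C 0 0x24108))
 (Pq.cons (Pq.L [4] 4096 (Pf.C 0 0x24208))
 (Pq.cons (Pq.L [0,1,4] 5280 (Pf.W 215 8 [] [0,1,4,6,7,9] (Pf.cons (Pf.B 11 9 (Pf.B 11 7 (Pf.B 11 6 (Pf.C 1 0x240800e1820b) (Pf.C 67 0x2430b)) (Pf.C 67 0x2438b)) (Pf.C 0 0x2048b)) Pf.nil)))
 (Pq.cons (Pq.L [0,1,3] 32191 (Pf.B 10 3 (Pf.B 10 1 (Pf.C 1 0x284830e18281) (Pf.B 10 0 (Pf.W 215 6 [] [0,1,3,5,8,9,10] (Pf.cons (Pf.B 11 9 (Pf.C 70 0x2430b) (Pf.B 11 10 (Pf.B 11 8 (Pf.B 11 5 (Pf.C 1 0x28080100c28b) (Pf.C 0 98955)) (Pf.C 0 0x2440b)) (Pf.C 0 0x2450b))) Pf.nil)) (Pf.C 0 16394))) (Pf.C 0 0x2418a)))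
 (Pq.cons (Pq.L [2] 4096 (Pf.C 0 0x24108))
 Pq.nil))))))) (Pq.cons (Pq.D 4 (Pq.cons (Pq.L [1,2,3] 5646 (Pf.W 221 5 [] [1,2,3,7,8,9] (Pf.cons (Pf.B 11 9 (Pf.B 11 8 (Pf.B 11 7 (Pf.C 1 0x24401061c10b) (Pf.C 0 82827)) (Pf.C 0 82955)) (Pf.C 49 83083)) Pf.nil)))
 (Pq.cons (Pq.L [4] 4096 (Pf.C 0 0x24208))
 (Pq.cons (Pq.L [1] 4096 (Pf.C 0 0x24088))
 (Pq.cons (Pq.L [0,2,3] 5856 (Pf.C 1 0x204830e18100))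
 (Pq.cons (Pq.L [0,1,2] 5856 (Pf.W 217 8 [] [0,1,2,6,7,9] (Pf.cons (Pf.B 11 9 (Pf.B 11 7 (Pf.B 11 6 (Pf.C 1 0x240010e1810b) (Pf.C 66 0x2030b)) (Pf.C 66 0x2038b)) (Pf.C 0 0x2048b)) Pf.nil)))
 (Pq.cons (Pq.L [0,1,2,3,4] 32761 (Pf.B 10 2 (Pf.B 10 0 (Pf.T 10 9 (Pf.cons (Pf.W 215 6 [] [0,1,2,3,8,9,10] (Pf.cons (Pf.B 11 9 (Pf.B 11 8 (Pf.B 11 10 (Pf.C 1 0x2c302100008a) (Pf.C 1 0x1858a1000483)) (Pf.C 66 0x2030b)) (Pf.C 72 0x2430b)) Pf.nil)) (Pf.cons (Pf.W 215 6 [] [0,1,2,3,8,9,10] (Pf.cons (Pf.B 11 9 (Pf.B 11 8 (Pf.B 11 10 (Pf.C 1 0x2c302100008a) (Pf.C 1 0x1858a1000483)) (Pf.C 66 0x2030b)) (Pf.C 72 0x2430b)) Pf.nil)) (Pf.cons (Pf.C 1 0x245030e18201) (Pf.cons (Pf.W 215 6 [] [0,1,2,3,4,5,8,10] (Pf.cons (Pf.B 11 8 (Pf.B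 11 10 (Pf.B 11 5 (Pf.C 1 0x28082081418b) (Pf.C 0 98955)) (Pf.C 1 0x1858a1000083)) (Pf.C 66 0x2030b)) Pf.nil)) (Pf.cons (Pf.W 215 6 [] [0,1,3,4,5,8,9,10] (Pf.cons (Pf.B 11 9 (Pf.B 11 8 (Pf.B 11 10 (Pf.B 11 5 (Pf.C 1 0x14184120450b) (Pf.C 0 98955)) (Pf.C 1 0x1858a1000083)) (Pf.C 66 0x2030b)) (Pf.C 72 0x2430b)) Pf.nil)) (Pf.cons (Pf.W 217 8 [] [0,1,2,3,4,6,7,9,10] (Pf.cons (Pf.B 11 9 (Pf.B 11 7 (Pf.B 11 10 (Pf.C 1 0x1c203120450b) (Pf.B 11 6 (Pf.C 1 0x2c5030e18100) (Pf.C 66 0x2030b))) (Pf.C 66 0x2038b)) (Pf.C 0 0x2048b)) Pf.nil)) Pf.nil))))))) (Pf.C 0 0x2400a)) (Pf.C 0 0x2410a)))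
 Pq.nil))))))) (Pq.cons (Pq.L [3] 4 (Pf.C 0 0x20185))
 (Pq.cons (Pq.L [0] 4 (Pf.C 0 0x20005))
 (Pq.cons (Pq.L [0] 4 (Pf.C 0 0x20005))
 Pq.nil))))))) (Pq.cons (Pq.D 3 (Pq.cons (Pq.L [0,1,2] 608 (Pf.W 215 6 [] [0,1,2,7,8] (Pf.cons (Pf.B 11 8 (Pf.B 11 7 (Pf.C 1 0x2c302001c088) (Pf.C 66 0x1c30b)) (Pf.C 46 99339)) Pf.nil)))
 (Pq.cons (Pq.D 4 (Pq.cons (Pq.L [0,1,2] 1184 (Pf.W 215 6 [] [0,1,2,7,9] (Pf.cons (Pf.B 11 9 (Pf.B 11 7 (Pf.C 1 0x2c302001c089) (Pf.C 66 0x1c30b)) (Pf.C 46 99467)) Pf.nil)))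
 (Pq.cons (Pq.L [2] 4096 (Pf.C 0 0x24108))
 (Pq.cons (Pq.L [4] 4096 (Pf.C 0 0x24208))
 (Pq.cons (Pq.L [0,1] 5856 (Pf.W 215 8 [] [0,1,6,7,9] (Pf.cons (Pf.B 11 9 (Pf.B 11 7 (Pf.B 11 6 (Pf.C 1 0x2c4090e00086) (Pf.C 67 0x2430b)) (Pf.C 66 0x1c40b)) (Pf.C 0 0x2048b)) Pf.nil)))
 (Pq.cons (Pq.L [] 1184 (Pf.C 141 0x24386))
 (Pq.cons (Pq.L [2] 4096 (Pf.C 0 0x24108))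
 Pq.nil))))))) (Pq.cons (Pq.D 4 (Pq.cons (Pq.L [0,1,2] 1184 (Pf.W 215 6 [] [0,1,2,7,9] (Pf.cons (Pf.B 11 9 (Pf.B 11 7 (Pf.C 1 0x2c302001c089) (Pf.C 66 0x1c30b)) (Pf.C 46 99467)) Pf.nil)))
 (Pq.cons (Pq.L [4] 4096 (Pf.C 0 0x24208))
 (Pq.cons (Pq.L [1] 4096 (Pf.C 0 0x24088))
 (Pq.cons (Pq.L [1] 4096 (Pf.C 0 0x24088))
 (Pq.cons (Pq.L [] 1184 (Pf.C 141 0x24386))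
 (Pq.cons (Pq.L [0,2] 5856 (Pf.W 215 6 [] [0,2,7,8,9] (Pf.cons (Pf.B 11 9 (Pf.B 11 8 (Pf.B 11 7 (Pf.C 1 0x2c3021000487) (Pf.C 66 0x1c30b)) (Pf.C 66 0x2030b)) (Pf.C 72 0x2430b)) Pf.nil)))
 Pq.nil))))))) (Pq.cons (Pq.L [3] 4 (Pf.C 0 0x20185))
 (Pq.cons (Pq.L [0] 4 (Pf.C 0 0x20005))
 (Pq.cons (Pq.L [0] 4 (Pf.C 0 0x20005))
 Pq.nil))))))) (Pq.cons (Pq.L [3] 2 (Pf.C 0 0x1c185))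
 (Pq.cons (Pq.L [0] 2 (Pf.C 0 0x1c005))
 (Pq.cons (Pq.L [0] 2 (Pf.C 0 0x1c005))
 Pq.nil))))))) (Pq.cons (Pq.D 2 (Pq.cons (Pq.D 3 (Pq.cons (Pq.L [0,1,2] 615 (Pf.W 217 6 [] [0,1,2,5,7,8] (Pf.cons (Pf.B 11 8 (Pf.B 11 7 (Pf.B 11 5 (Pf.C 1 0x8080101c28b) (Pf.C 0 98955)) (Pf.C 47 99211)) (Pf.C 47 99339)) Pf.nil)))
 (Pq.cons (Pq.L [0,1,2] 4704 (Pf.B 9 2 (Pf.W 215 8 [] [0,1,2,6,7] (Pf.cons (Pf.B 11 7 (Pf.B 11 6 (Pf.C 1 0x2c4020018087) (Pf.C 66 99339)) (Pf.C 46 0x2038b)) Pf.nil)) (Pf.C 0 0x20109)))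
 (Pq.cons (Pq.L [0,1,2,3,4] 32767 (Pf.B 9 4 (Pf.B 9 1 (Pf.T 9 9 (Pf.cons (Pf.B 10 2 (Pf.C 1 0x284880e18282) (Pf.B 10 3 (Pf.B 10 4 (Pf.C 1 0x281031018207) (Pf.B 10 1 (Pf.B 10 0 (Pf.C 1 0x245020c00087) (Pf.C 0 65546)) (Pf.C 0 32906))) (Pf.C 0 33162))) (Pf.cons (Pf.C 1 0xc4880c00087) (Pf.cons (Pf.C 1 0x84880c00207) (Pf.cons (Pf.B 10 2 (Pf.C 1 0x284880e18282) (Pf.B 10 3 (Pf.B 10 4 (Pf.C 1 0x281031018207) (Pf.B 10 0 (Pf.C 1 0xc10a1000486) (Pf.C 0 65546))) (Pf.C 0 33162))) (Pf.cons (Pf.B 10 3 (Pf.B 10 2 (Pf.C 1 0x284880e18282) (Pf.B 10 1 (Pf.C 1 0x180880628487) (Pf.C 0 32906))) (Pf.C 0 0x2418a)) (Pf.cons (Pf.W 217 8 [] [1,2,3,4,5,6,7,9] (Pf.cons (Pf.B 11 9 (Pf.B 11 7 (Pf.B 11 6 (Pf.B 11 5 (Pf.C 1 0x241030e1828b)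 (Pf.C 0 0x2028b)) (Pf.C 1 0x24101082c307)) (Pf.C 47 0x2038b)) (Pf.C 0 0x2048b)) Pf.nil)) Pf.nil))))))) (Pf.C 0 0x20089)) (Pf.C 0 0x20209)))
 (Pq.cons (Pq.L [3] 4 (Pf.C 0 0x20185))
 (Pq.cons (Pq.L [0] 4 (Pf.C 0 0x20005))
 (Pq.cons (Pq.L [0] 4 (Pf.C 0 0x20005))
 Pq.nil))))))) (Pq.cons (Pq.D 3 (Pq.cons (Pq.L [0,1,2] 608 (Pf.W 215 7 [] [0,1,2,6,8] (Pf.cons (Pf.B 11 8 (Pf.B 11 6 (Pf.C 1 0x2c3820018088) (Pf.C 66 99211)) (Pf.C 46 0x1c40b)) Pf.nil)))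
 (Pq.cons (Pq.D 4 (Pq.cons (Pq.L [0,1,2] 1184 (Pf.W 215 7 [] [0,1,2,6,9] (Pf.cons (Pf.B 11 9 (Pf.B 11 6 (Pf.C 1 0x2c3820018089) (Pf.C 66 99211)) (Pf.C 46 0x1c48b)) Pf.nil)))
 (Pq.cons (Pq.L [2] 4096 (Pf.C 0 0x24108))
 (Pq.cons (Pq.L [4] 4096 (Pf.C 0 0x24208))
 (Pq.cons (Pq.L [0,1] 5856 (Pf.W 215 8 [] [0,1,6,7,9] (Pf.cons (Pf.B 11 9 (Pf.B 11 7 (Pf.B 11 6 (Pf.C 1 0x2c4090018087) (Pf.C 66 99339)) (Pf.C 67 0x2438b)) (Pf.C 0 0x2048b)) Pf.nil)))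
 (Pq.cons (Pq.L [] 1184 (Pf.C 141 0x24307))
 (Pq.cons (Pq.L [2] 4096 (Pf.C 0 0x24108))
 Pq.nil))))))) (Pq.cons (Pq.D 4 (Pq.cons (Pq.L [0,1,2] 1184 (Pf.W 215 7 [] [0,1,2,6,9] (Pf.cons (Pf.B 11 9 (Pf.B 11 6 (Pf.C 1 0x2c3820018089) (Pf.C 66 99211)) (Pf.C 46 0x1c48b)) Pf.nil)))
 (Pq.cons (Pq.L [4] 4096 (Pf.C 0 0x24208))
 (Pq.cons (Pq.L [1] 4096 (Pf.C 0 0x24088))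
 (Pq.cons (Pq.L [1] 4096 (Pf.C 0 0x24088))
 (Pq.cons (Pq.L [] 1184 (Pf.C 141 0x24307))
 (Pq.cons (Pq.L [0,2] 5856 (Pf.W 215 7 [] [0,2,6,8,9] (Pf.cons (Pf.B 11 9 (Pf.B 11 8 (Pf.B 11 6 (Pf.C 1 0x2c3821000486) (Pf.C 66 99211)) (Pf.C 66 0x2038b)) (Pf.C 72 0x2438b)) Pf.nil)))
 Pq.nil))))))) (Pq.cons (Pq.L [3] 4 (Pf.C 0 0x20185))
 (Pq.cons (Pq.L [0] 4 (Pf.C 0 0x20005))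
 (Pq.cons (Pq.L [0] 4 (Pf.C 0 0x20005))
 Pq.nil))))))) (Pq.cons (Pq.D 3 (Pq.cons (Pq.D 4 (Pq.cons (Pq.L [] 4108 (Pf.C 49 83080))
 (Pq.cons (Pq.L [0,1,2,3,4] 32736 (Pf.B 10 4 (Pf.B 10 2 (Pf.T 10 9 (Pf.cons (Pf.W 217 6 [] [0,1,2,8,9,10] (Pf.cons (Pf.B 11 9 (Pf.B 11 8 (Pf.B 11 10 (Pf.C 1 0x82102848b) (Pf.C 1 0x1858a1008480)) (Pf.C 46 0x24588)) (Pf.C 66 99467)) Pf.nil)) (Pf.cons (Pf.C 1 0x281820c00088) (Pf.cons (Pf.C 1 0x2048a0c00083) (Pf.cons (Pf.W 217 6 [] [0,2,3,4,8,9,10] (Pf.cons (Pf.B 11 9 (Pf.B 11 8 (Pf.B 11 10 (Pf.C 1 0x2c3040428188) (Pf.C 1 0x1858a1008480)) (Pf.C 46 0x24588)) (Pf.C 66 99467)) Pf.nil)) (Pf.cons (Pf.C 1 0x245000e18083) (Pf.cons (Pf.C 1 0xc5000e18088) Pf.nil))))))) (Pf.C 0 0x2410a)) (Pf.C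 0 0x2420a)))
 (Pq.cons (Pq.L [2,3,4] 32767 (Pf.B 10 4 (Pf.B 10 2 (Pf.C 1 0x284880e18282) (Pf.B 10 3 (Pf.C 1 0x281030e18208) (Pf.C 0 33162))) (Pf.C 0 0x2420a)))
 (Pq.cons (Pq.L [] 4108 (Pf.C 82 83080))
 (Pq.cons (Pq.L [] 4288 (Pf.C 78 0x24308))
 (Pq.cons (Pq.L [] 4108 (Pf.C 85 0x24288))
 Pq.nil))))))) (Pq.cons (Pq.D 4 (Pq.cons (Pq.L [0,1,2] 5646 (Pf.W 221 5 [] [0,1,2,7,8,9] (Pf.cons (Pf.B 11 9 (Pf.B 11 8 (Pf.B 11 7 (Pf.C 1 0x24402001c08b) (Pf.C 0 82827)) (Pf.C 0 82955)) (Pf.C 49 83083)) Pf.nil)))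
 (Pq.cons (Pq.L [2] 4096 (Pf.C 0 0x24108))
 (Pq.cons (Pq.L [4] 4096 (Pf.C 0 0x24208))
 (Pq.cons (Pq.L [0,1,2,3,4] 32765 (Pf.B 10 3 (Pf.B 10 1 (Pf.T 10 9 (Pf.cons (Pf.W 217 6 [] [0,1,2,3,8,9,10] (Pf.cons (Pf.B 11 9 (Pf.B 11 8 (Pf.B 11 10 (Pf.C 1 0x2c301100c10a) (Pf.C 1 0x1858a100c480)) (Pf.C 66 99339)) (Pf.C 75 0x2430b)) Pf.nil)) (Pf.cons (Pf.W 215 8 [] [0,1,2,4,5,7,9,10] (Pf.cons (Pf.B 11 9 (Pf.B 11 7 (Pf.B 11 10 (Pf.C 1 0x2c4020e0008a) (Pf.B 11 5 (Pf.C 1 0x8089082c505) (Pf.C 0 0x2028b))) (Pf.C 66 0x1c40b)) (Pf.C 0 0x2048b)) Pf.nil)) (Pf.cons (Pf.W 217 6 [] [0,1,2,3,4,5,8,10] (Pf.cons (Pf.B 11 8 (Pf.B 11 10 (Pf.B 11 5 (Pf.C 1 0x28101081400b) (Pf.C 0 98955)) (Pf.C 1 0x1858a100c100)) (Pf.C 66 99339)) Pf.nil))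 (Pf.cons (Pf.W 217 6 [] [0,2,3,4,5,8,9,10] (Pf.cons (Pf.B 11 9 (Pf.B 11 8 (Pf.B 11 10 (Pf.B 11 5 (Pf.C 1 0x14004120850b) (Pf.C 0 98955)) (Pf.C 1 0x1858a100c100)) (Pf.C 66 99339)) (Pf.C 75 0x2430b)) Pf.nil)) (Pf.cons (Pf.C 1 0x245000e18202) (Pf.cons (Pf.W 215 8 [] [0,1,2,3,4,6,7,9,10] (Pf.cons (Pf.B 11 9 (Pf.B 11 7 (Pf.B 11 10 (Pf.C 1 0x1c200120850b) (Pf.B 11 6 (Pf.C 1 0x2c5000e18083) (Pf.C 66 99339))) (Pf.C 66 0x1c40b)) (Pf.C 0 0x2048b)) Pf.nil)) Pf.nil))))))) (Pf.C 0 0x2408a)) (Pf.C 0 0x2418a)))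
 (Pq.cons (Pq.L [1,2,3] 5856 (Pf.W 215 8 [] [1,2,3,6,7,9] (Pf.cons (Pf.B 11 9 (Pf.B 11 7 (Pf.B 11 6 (Pf.C 1 0x241820e1808b) (Pf.C 66 99339)) (Pf.C 66 0x1c40b)) (Pf.C 0 0x2048b)) Pf.nil)))
 (Pq.cons (Pq.L [0,1,3] 5856 (Pf.C 1 0x204800e18083))
 Pq.nil))))))) (Pq.cons (Pq.D 4 (Pq.cons (Pq.L [1,2,3] 32767 (Pf.B 10 2 (Pf.C 1 0x284880e18282) (Pf.B 10 3 (Pf.B 10 1 (Pf.C 1 0x284880e18083) (Pf.C 0 32906)) (Pf.C 0 33162))))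
 (Pq.cons (Pq.L [4] 4096 (Pf.C 0 0x24208))
 (Pq.cons (Pq.L [1] 4096 (Pf.C 0 0x24088))
 (Pq.cons (Pq.L [1] 4096 (Pf.C 0 0x24088))
 (Pq.cons (Pq.L [0,2,3] 32767 (Pf.B 10 3 (Pf.B 10 2 (Pf.C 1 0x284880e18282) (Pf.B 10 0 (Pf.W 217 6 [] [0,2,3,5,8,9,10] (Pf.cons (Pf.B 11 9 (Pf.C 77 0x2430b) (Pf.B 11 10 (Pf.B 11 8 (Pf.B 11 5 (Pf.C 1 0x28103100028b) (Pf.C 0 98955)) (Pf.C 0 0x2440b)) (Pf.C 0 0x2450b))) Pf.nil)) (Pf.C 0 0x2400a))) (Pf.C 0 0x2418a)))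
 (Pq.cons (Pq.L [2,3,4] 5280 (Pf.W 217 8 [] [2,3,4,6,7,9] (Pf.cons (Pf.B 11 9 (Pf.B 11 7 (Pf.B 11 6 (Pf.C 1 0x241030e1820b) (Pf.C 79 0x2430b)) (Pf.C 79 0x2438b)) (Pf.C 0 0x2048b)) Pf.nil)))
 Pq.nil))))))) (Pq.cons (Pq.L [3] 4 (Pf.C 0 0x20185))
 (Pq.cons (Pq.L [0] 4 (Pf.C 0 0x20005))
 (Pq.cons (Pq.L [0] 4 (Pf.C 0 0x20005))
 Pq.nil))))))) (Pq.cons (Pq.L [3] 2 (Pf.C 0 0x1c185))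
 (Pq.cons (Pq.L [0] 2 (Pf.C 0 0x1c005))
 (Pq.cons (Pq.L [0] 2 (Pf.C 0 0x1c005))
 Pq.nil))))))) (Pq.cons (Pq.L [3] 1 (Pf.C 0 98693))
 (Pq.cons (Pq.L [0] 1 (Pf.C 0 98309))
 (Pq.cons (Pq.L [0] 1 (Pf.C 0 98309))
 Pq.nil))))))) (Pq.cons (Pq.D 1 (Pq.cons (Pq.D 2 (Pq.cons (Pq.D 3 (Pq.cons (Pq.L [0,1,2,3,4] 32767 (Pf.T 9 9 (Pf.cons (Pf.C 1 0x101820e18289) (Pf.cons (Pf.C 1 0x104880e18281) (Pf.cons (Pf.C 1 0xc4880e18281) (Pf.cons (Pf.C 1 0xc2000e18289) (Pf.cons (Pf.C 1 0x104880e18281) (Pf.cons (Pf.C 1 0x101820e18289) (Pf.cons (Pf.C 1 0x44880e18283) (Pf.cons (Pf.C 1 0x44880e18284) (Pf.cons (Pf.C 1 0x101820e18289) (Pf.cons (Pf.C 1 0xc4880e18281) (Pf.cons (Pf.B 10 4 (Pf.C 1 0x284880e18284) (Pf.B 10 3 (Pf.C 1 0x284880e18283)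 (Pf.C 0 65930))) Pf.nil)))))))))))))
 (Pq.cons (Pq.L [2] 4 (Pf.C 0 0x20105))
 (Pq.cons (Pq.L [0,3,4] 4711 (Pf.B 9 4 (Pf.W 217 8 [] [0,3,4,5,6,7] (Pf.cons (Pf.B 11 7 (Pf.B 11 6 (Pf.B 11 5 (Pf.C 1 0xc2000e1828b) (Pf.C 0 0x2028b)) (Pf.C 47 0x2030b)) (Pf.C 47 0x2038b)) Pf.nil)) (Pf.C 0 0x20209)))
 (Pq.cons (Pq.L [0,3,4] 4711 (Pf.B 9 3 (Pf.W 219 8 [] [0,3,4,5,6,7] (Pf.cons (Pf.B 11 7 (Pf.B 11 6 (Pf.B 11 5 (Pf.C 1 0xc2000e1828b) (Pf.C 0 0x2028b)) (Pf.C 48 0x2030b)) (Pf.C 48 0x2038b)) Pf.nil)) (Pf.C 0 0x20189)))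
 (Pq.cons (Pq.L [0] 4 (Pf.C 0 0x20005))
 (Pq.cons (Pq.L [0] 4 (Pf.C 0 0x20005))
 Pq.nil))))))) (Pq.cons (Pq.L [2] 2 (Pf.C 0 0x1c105))
 (Pq.cons (Pq.D 3 (Pq.cons (Pq.L [2,3,4] 615 (Pf.W 217 7 [] [2,3,4,5,6,8] (Pf.cons (Pf.B 11 8 (Pf.B 11 6 (Pf.B 11 5 (Pf.C 1 0x10182101828b) (Pf.C 0 0x1c28b)) (Pf.C 47 0x1c30b)) (Pf.C 47 0x1c40b)) Pf.nil)))
 (Pq.cons (Pq.L [2] 4 (Pf.C 0 0x20105))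
 (Pq.cons (Pq.L [0,1,2,3,4] 32767 (Pf.B 9 4 (Pf.B 9 1 (Pf.T 9 9 (Pf.cons (Pf.B 10 3 (Pf.C 1 0x284880e18283) (Pf.B 10 4 (Pf.B 10 2 (Pf.B 10 1 (Pf.C 1 0x28182101c086) (Pf.B 10 0 (Pf.C 1 0x245030e00206) (Pf.C 0 16394))) (Pf.C 0 49418)) (Pf.C 0 49674))) (Pf.cons (Pf.C 1 0xc4880e00086) (Pf.cons (Pf.C 1 0x84880e00206) (Pf.cons (Pf.B 10 3 (Pf.C 1 0x284880e18283) (Pf.B 10 2 (Pf.B 10 1 (Pf.C 1 0x28182101c086) (Pf.B 10 0 (Pf.C 1 0x818a1000486) (Pf.C 0 16394))) (Pf.C 0 49418))) (Pf.cons (Pf.W 217 8 [] [0,1,3,4,5,6,7,9] (Pf.cons (Pf.B 11 9 (Pf.B 11 6 (Pf.B 11 7 (Pf.B 11 5 (Pf.C 1 0xc4800e1828b) (Pf.C 0 0x2028b)) (Pf.C 1 0x24184022c386)) (Pf.C 47 0x2030b)) (Pf.C 0 0x2048b)) Pf.nil)) (Pf.cons (Pf.B 10 3 (Pf.C 1 0x284880e18283)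 (Pf.B 10 4 (Pf.B 10 2 (Pf.C 1 0x1c2080428486) (Pf.C 0 49418)) (Pf.C 0 49674))) Pf.nil))))))) (Pf.C 0 0x20089)) (Pf.C 0 0x20209)))
 (Pq.cons (Pq.L [2,3,4] 608 (Pf.W 217 7 [] [2,3,4,6,8] (Pf.cons (Pf.B 11 8 (Pf.B 11 6 (Pf.C 1 0x2c3841008186) (Pf.C 47 0x1c30b)) (Pf.C 75 0x2038b)) Pf.nil)))
 (Pq.cons (Pq.L [0] 4 (Pf.C 0 0x20005))
 (Pq.cons (Pq.L [0] 4 (Pf.C 0 0x20005))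
 Pq.nil))))))) (Pq.cons (Pq.D 3 (Pq.cons (Pq.L [2,3,4] 615 (Pf.W 219 7 [] [2,3,4,5,6,8] (Pf.cons (Pf.B 11 8 (Pf.B 11 6 (Pf.B 11 5 (Pf.C 1 0x10182101828b) (Pf.C 0 0x1c28b)) (Pf.C 48 0x1c30b)) (Pf.C 48 0x1c40b)) Pf.nil)))
 (Pq.cons (Pq.L [2] 4 (Pf.C 0 0x20105))
 (Pq.cons (Pq.L [2,3,4] 4704 (Pf.B 9 4 (Pf.W 217 8 [] [2,3,4,6,7] (Pf.cons (Pf.B 11 7 (Pf.B 11 6 (Pf.C 1 0x2c4040e08186) (Pf.C 47 0x2030b)) (Pf.C 75 0x1c40b)) Pf.nil)) (Pf.C 0 0x20209)))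
 (Pq.cons (Pq.L [0,1,2,3,4] 32767 (Pf.B 9 3 (Pf.B 9 1 (Pf.T 9 9 (Pf.cons (Pf.B 10 4 (Pf.C 1 0x284880e18284) (Pf.B 10 3 (Pf.B 10 2 (Pf.C 1 0x245040e08186) (Pf.B 10 1 (Pf.C 1 0x1c0821210506) (Pf.C 0 32906))) (Pf.C 0 65930))) (Pf.cons (Pf.C 1 0x104880e08086) (Pf.cons (Pf.B 10 4 (Pf.C 1 0x284880e18284) (Pf.B 10 2 (Pf.B 10 0 (Pf.C 1 0x20a1008486) (Pf.C 0 65546)) (Pf.C 0 0x2410a))) (Pf.cons (Pf.W 219 8 [] [0,1,3,4,5,6,7,9] (Pf.cons (Pf.B 11 9 (Pf.B 11 6 (Pf.B 11 7 (Pf.B 11 5 (Pf.C 1 0x242000e1828b) (Pf.C 0 0x2028b)) (Pf.C 1 0x24203022c386)) (Pf.C 48 0x2030b)) (Pf.C 0 0x2048b)) Pf.nil)) (Pf.cons (Pf.C 1 0x4880e08186) (Pf.cons (Pf.B 10 4 (Pf.C 1 0x284880e18284) (Pf.B 10 3 (Pf.B 10 2 (Pf.B 10 0 (Pf.C 1 0x1c1820028486)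 (Pf.C 0 65546)) (Pf.C 0 0x2410a)) (Pf.C 0 65930))) Pf.nil))))))) (Pf.C 0 0x20089)) (Pf.C 0 0x20189)))
 (Pq.cons (Pq.L [0] 4 (Pf.C 0 0x20005))
 (Pq.cons (Pq.L [0] 4 (Pf.C 0 0x20005))
 Pq.nil))))))) (Pq.cons (Pq.L [0] 2 (Pf.C 0 0x1c005))
 (Pq.cons (Pq.L [0] 2 (Pf.C 0 0x1c005))
 Pq.nil))))))) (Pq.cons (Pq.L [2] 1 (Pf.C 0 98565))
 (Pq.cons (Pq.D 2 (Pq.cons (Pq.D 3 (Pq.cons (Pq.L [2,3,4] 615 (Pf.W 217 6 [] [2,3,4,5,7,8] (Pf.cons (Pf.B 11 8 (Pf.B 11 7 (Pf.B 11 5 (Pf.C 1 0x10182101c28b) (Pf.C 0 98955)) (Pf.C 47 99211)) (Pf.C 47 99339)) Pf.nil)))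
 (Pq.cons (Pq.L [2] 4 (Pf.C 0 0x20105))
 (Pq.cons (Pq.L [0,1,2,3,4] 32767 (Pf.B 9 4 (Pf.B 9 1 (Pf.T 9 9 (Pf.cons (Pf.B 10 3 (Pf.C 1 0x284880e18283) (Pf.B 10 4 (Pf.B 10 2 (Pf.B 10 1 (Pf.C 1 0x281821018087) (Pf.B 10 0 (Pf.C 1 0x245030c00207) (Pf.C 0 16394))) (Pf.C 0 49418)) (Pf.C 0 49674))) (Pf.cons (Pf.C 1 0xc4880c00087) (Pf.cons (Pf.C 1 0x84880c00207) (Pf.cons (Pf.B 10 3 (Pf.C 1 0x284880e18283) (Pf.B 10 2 (Pf.B 10 1 (Pf.C 1 0x281821018087) (Pf.B 10 0 (Pf.C 1 0x818a1000486) (Pf.C 0 16394))) (Pf.C 0 49418))) (Pf.cons (Pf.W 217 8 [] [1,2,3,4,5,6,7,9] (Pf.cons (Pf.B 11 9 (Pf.B 11 7 (Pf.B 11 6 (Pf.B 11 5 (Pf.C 1 0x241820e1828b) (Pf.C 0 0x2028b)) (Pf.C 1 0x24184022c307)) (Pf.C 47 0x2038b)) (Pf.C 0 0x2048b)) Pf.nil))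 (Pf.cons (Pf.B 10 3 (Pf.C 1 0x284880e18283) (Pf.B 10 4 (Pf.B 10 2 (Pf.C 1 0x182080428487) (Pf.C 0 49418)) (Pf.C 0 49674))) Pf.nil))))))) (Pf.C 0 0x20089)) (Pf.C 0 0x20209)))
 (Pq.cons (Pq.L [2,3,4] 608 (Pf.W 217 6 [] [2,3,4,7,8] (Pf.cons (Pf.B 11 8 (Pf.B 11 7 (Pf.C 1 0x2c3041008187) (Pf.C 47 99211)) (Pf.C 75 0x2030b)) Pf.nil)))
 (Pq.cons (Pq.L [0] 4 (Pf.C 0 0x20005))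
 (Pq.cons (Pq.L [0] 4 (Pf.C 0 0x20005))
 Pq.nil))))))) (Pq.cons (Pq.L [2] 2 (Pf.C 0 0x1c105))
 (Pq.cons (Pq.D 3 (Pq.cons (Pq.D 4 (Pq.cons (Pq.L [] 4108 (Pf.C 50 83080))
 (Pq.cons (Pq.L [] 4108 (Pf.C 72 83080))
 (Pq.cons (Pq.L [1,2,3] 32767 (Pf.B 10 3 (Pf.C 1 0x284880e18283) (Pf.B 10 2 (Pf.B 10 1 (Pf.C 1 0x281820e18088) (Pf.C 0 0x2408a)) (Pf.C 0 49418))))
 (Pq.cons (Pq.L [0,1,2,3,4] 32736 (Pf.B 10 3 (Pf.B 10 1 (Pf.T 10 9 (Pf.cons (Pf.W 217 6 [] [0,1,3,4,8,9,10] (Pf.cons (Pf.B 11 9 (Pf.B 11 8 (Pf.B 11 10 (Pf.C 1 0x10001102848b) (Pf.C 1 0x1858a100c480)) (Pf.C 47 99339)) (Pf.C 75 0x2430b)) Pf.nil)) (Pf.cons (Pf.C 1 0x2048a0c00202) (Pf.cons (Pf.C 1 0x281030c00208) (Pf.cons (Pf.W 217 6 [] [0,1,2,3,8,9,10] (Pf.cons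 (Pf.B 11 9 (Pf.B 11 8 (Pf.B 11 10 (Pf.C 1 0x2c3010628108) (Pf.C 1 0x1858a100c480)) (Pf.C 47 99339)) (Pf.C 75 0x2430b)) Pf.nil)) (Pf.cons (Pf.C 1 0x245000e18202) (Pf.cons (Pf.C 1 0x85000e18208) Pf.nil))))))) (Pf.C 0 0x2408a)) (Pf.C 0 0x2418a)))
 (Pq.cons (Pq.L [] 4108 (Pf.C 85 83080))
 (Pq.cons (Pq.L [] 4288 (Pf.C 80 0x24308))
 Pq.nil))))))) (Pq.cons (Pq.L [2] 4 (Pf.C 0 0x20105))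
 (Pq.cons (Pq.D 4 (Pq.cons (Pq.L [2,3,4] 32767 (Pf.B 10 3 (Pf.C 1 0x284880e18283) (Pf.B 10 4 (Pf.B 10 2 (Pf.C 1 0x284880e18202) (Pf.C 0 49418)) (Pf.C 0 49674))))
 (Pq.cons (Pq.L [4] 4096 (Pf.C 0 0x24208))
 (Pq.cons (Pq.L [1] 4096 (Pf.C 0 0x24088))
 (Pq.cons (Pq.L [1] 4096 (Pf.C 0 0x24088))
 (Pq.cons (Pq.L [1,2,3] 5280 (Pf.W 217 8 [] [1,2,3,6,7,9] (Pf.cons (Pf.B 11 9 (Pf.B 11 7 (Pf.B 11 6 (Pf.C 1 0x241820e1808b) (Pf.C 77 0x2430b)) (Pf.C 77 0x2438b)) (Pf.C 0 0x2048b)) Pf.nil)))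
 (Pq.cons (Pq.L [0,2,3] 32767 (Pf.B 10 3 (Pf.C 1 0x284880e18283) (Pf.B 10 2 (Pf.B 10 0 (Pf.W 217 6 [] [0,2,3,5,8,9,10] (Pf.cons (Pf.B 11 9 (Pf.C 79 0x2430b) (Pf.B 11 10 (Pf.B 11 8 (Pf.B 11 5 (Pf.C 1 0x28182100028b) (Pf.C 0 98955)) (Pf.C 0 0x2440b)) (Pf.C 0 0x2450b))) Pf.nil)) (Pf.C 0 0x2400a)) (Pf.C 0 49418))))
 Pq.nil))))))) (Pq.cons (Pq.D 4 (Pq.cons (Pq.L [0,3,4] 5646 (Pf.W 223 5 [] [0,3,4,7,8,9] (Pf.cons (Pf.B 11 9 (Pf.B 11 8 (Pf.B 11 7 (Pf.C 1 0x24403001c20b) (Pf.C 0 82827)) (Pf.C 0 82955)) (Pf.C 50 83083)) Pf.nil)))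
 (Pq.cons (Pq.L [0,1,2,3,4] 32249 (Pf.B 10 4 (Pf.B 10 2 (Pf.T 10 9 (Pf.cons (Pf.W 217 6 [] [0,2,3,4,8,9,10] (Pf.cons (Pf.B 11 9 (Pf.B 11 8 (Pf.B 11 10 (Pf.C 1 0x2c304100818a) (Pf.C 1 0x1858a1008480)) (Pf.C 75 0x2030b)) (Pf.C 66 99467)) Pf.nil)) (Pf.cons (Pf.W 215 9 [] [0,1,2,3,7,10] (Pf.cons (Pf.B 11 10 (Pf.B 11 7 (Pf.C 1 0x28182001c08b) (Pf.C 66 0x1c48b)) (Pf.C 0 0x2450b)) Pf.nil)) (Pf.cons (Pf.W 215 9 [] [0,1,3,7,10] (Pf.cons (Pf.B 11 10 (Pf.B 11 7 (Pf.C 1 0x2c48a001c083) (Pf.C 66 0x1c48b)) (Pf.C 0 0x2450b)) Pf.nil)) (Pf.cons (Pf.W 215 9 [] [0,2,3,5,6,10] (Pf.cons (Pf.B 11 10 (Pf.B 11 6 (Pf.B 11 5 (Pf.C 1 0x281820c0028b) (Pf.C 72 83083)) (Pf.C 66 99467)) (Pf.C 0 0x2450b)) Pf.nil)) (Pf.cons (Pf.C 1 0x245000e18083)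 (Pf.cons (Pf.W 215 9 [] [1,2,3,6,7,10] (Pf.cons (Pf.B 11 10 (Pf.B 11 7 (Pf.B 11 6 (Pf.C 1 0x281820e1808b) (Pf.C 66 99467)) (Pf.C 66 0x1c48b)) (Pf.C 0 0x2450b)) Pf.nil)) Pf.nil))))))) (Pf.C 0 0x2410a)) (Pf.C 0 0x2420a)))
 (Pq.cons (Pq.L [1] 4096 (Pf.C 0 0x24088))
 (Pq.cons (Pq.L [1] 4096 (Pf.C 0 0x24088))
 (Pq.cons (Pq.L [0,2,4] 5856 (Pf.C 1 0x204800e18202))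
 (Pq.cons (Pq.L [2,3,4] 5856 (Pf.W 219 8 [] [2,3,4,6,7,9] (Pf.cons (Pf.B 11 9 (Pf.B 11 7 (Pf.B 11 6 (Pf.C 1 0x241030e1820b) (Pf.C 75 0x2030b)) (Pf.C 75 0x2038b)) (Pf.C 0 0x2048b)) Pf.nil)))
 Pq.nil))))))) (Pq.cons (Pq.L [0] 4 (Pf.C 0 0x20005))
 (Pq.cons (Pq.L [0] 4 (Pf.C 0 0x20005))
 Pq.nil))))))) (Pq.cons (Pq.D 3 (Pq.cons (Pq.L [2,3,4] 608 (Pf.W 217 6 [] [2,3,4,7,8] (Pf.cons (Pf.B 11 8 (Pf.B 11 7 (Pf.C 1 0x2c304041c188) (Pf.C 75 0x1c30b)) (Pf.C 47 99339)) Pf.nil)))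
 (Pq.cons (Pq.L [2] 4 (Pf.C 0 0x20105))
 (Pq.cons (Pq.D 4 (Pq.cons (Pq.L [2,3,4] 1184 (Pf.W 217 6 [] [2,3,4,7,9] (Pf.cons (Pf.B 11 9 (Pf.B 11 7 (Pf.C 1 0x2c304041c189) (Pf.C 75 0x1c30b)) (Pf.C 47 99467)) Pf.nil)))
 (Pq.cons (Pq.L [4] 4096 (Pf.C 0 0x24208))
 (Pq.cons (Pq.L [1] 4096 (Pf.C 0 0x24088))
 (Pq.cons (Pq.L [1] 4096 (Pf.C 0 0x24088))
 (Pq.cons (Pq.L [2,3] 5856 (Pf.W 217 8 [] [2,3,6,7,9] (Pf.cons (Pf.B 11 9 (Pf.B 11 7 (Pf.B 11 6 (Pf.C 1 0x2c4090e08186) (Pf.C 77 0x2430b)) (Pf.C 75 0x1c40b)) (Pf.C 0 0x2048b)) Pf.nil)))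
 (Pq.cons (Pq.L [] 1184 (Pf.C 151 0x24386))
 Pq.nil))))))) (Pq.cons (Pq.D 4 (Pq.cons (Pq.L [2,3,4] 1184 (Pf.W 217 6 [] [2,3,4,7,9] (Pf.cons (Pf.B 11 9 (Pf.B 11 7 (Pf.C 1 0x2c304041c189) (Pf.C 75 0x1c30b)) (Pf.C 47 99467)) Pf.nil)))
 (Pq.cons (Pq.L [2,4] 5856 (Pf.W 217 6 [] [2,4,7,8,9] (Pf.cons (Pf.B 11 9 (Pf.B 11 8 (Pf.B 11 7 (Pf.C 1 0x2c3041008487) (Pf.C 68 0x1c48b)) (Pf.C 75 0x2030b)) (Pf.C 66 99467)) Pf.nil)))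
 (Pq.cons (Pq.L [1] 4096 (Pf.C 0 0x24088))
 (Pq.cons (Pq.L [1] 4096 (Pf.C 0 0x24088))
 (Pq.cons (Pq.L [3] 4096 (Pf.C 0 0x24188))
 (Pq.cons (Pq.L [] 1184 (Pf.C 151 0x24386))
 Pq.nil))))))) (Pq.cons (Pq.L [0] 4 (Pf.C 0 0x20005))
 (Pq.cons (Pq.L [0] 4 (Pf.C 0 0x20005))
 Pq.nil))))))) (Pq.cons (Pq.L [0] 2 (Pf.C 0 0x1c005))
 (Pq.cons (Pq.L [0] 2 (Pf.C 0 0x1c005))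
 Pq.nil))))))) (Pq.cons (Pq.D 2 (Pq.cons (Pq.D 3 (Pq.cons (Pq.L [2,3,4] 615 (Pf.W 219 6 [] [2,3,4,5,7,8] (Pf.cons (Pf.B 11 8 (Pf.B 11 7 (Pf.B 11 5 (Pf.C 1 0x10182101c28b) (Pf.C 0 98955)) (Pf.C 48 99211)) (Pf.C 48 99339)) Pf.nil)))
 (Pq.cons (Pq.L [2] 4 (Pf.C 0 0x20105))
 (Pq.cons (Pq.L [2,3,4] 4704 (Pf.B 9 4 (Pf.W 217 8 [] [2,3,4,6,7] (Pf.cons (Pf.B 11 7 (Pf.B 11 6 (Pf.C 1 0x2c4040418187) (Pf.C 75 99339)) (Pf.C 47 0x2038b)) Pf.nil)) (Pf.C 0 0x20209)))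
 (Pq.cons (Pq.L [0,1,2,3,4] 32767 (Pf.B 9 3 (Pf.B 9 1 (Pf.T 9 9 (Pf.cons (Pf.B 10 4 (Pf.C 1 0x284880e18284) (Pf.B 10 3 (Pf.B 10 2 (Pf.C 1 0x245040c08187) (Pf.B 10 1 (Pf.C 1 0x180821210507) (Pf.C 0 32906))) (Pf.C 0 65930))) (Pf.cons (Pf.C 1 0x104880c08087) (Pf.cons (Pf.B 10 4 (Pf.C 1 0x284880e18284) (Pf.B 10 2 (Pf.B 10 0 (Pf.C 1 0x20a1008486) (Pf.C 0 65546)) (Pf.C 0 0x2410a))) (Pf.cons (Pf.W 219 8 [] [0,1,3,4,5,6,7,9] (Pf.cons (Pf.B 11 9 (Pf.B 11 7 (Pf.B 11 6 (Pf.B 11 5 (Pf.C 1 0x242000e1828b) (Pf.C 0 0x2028b)) (Pf.C 1 0x24203022c307)) (Pf.C 48 0x2038b)) (Pf.C 0 0x2048b)) Pf.nil)) (Pf.cons (Pf.C 1 0x4880c08187) (Pf.cons (Pf.B 10 4 (Pf.C 1 0x284880e18284) (Pf.B 10 3 (Pf.B 10 2 (Pf.B 10 0 (Pf.C 1 0x181820028487)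 (Pf.C 0 65546)) (Pf.C 0 0x2410a)) (Pf.C 0 65930))) Pf.nil))))))) (Pf.C 0 0x20089)) (Pf.C 0 0x20189)))
 (Pq.cons (Pq.L [0] 4 (Pf.C 0 0x20005))
 (Pq.cons (Pq.L [0] 4 (Pf.C 0 0x20005))
 Pq.nil))))))) (Pq.cons (Pq.L [2] 2 (Pf.C 0 0x1c105))
 (Pq.cons (Pq.D 3 (Pq.cons (Pq.L [2,3,4] 608 (Pf.W 217 7 [] [2,3,4,6,8] (Pf.cons (Pf.B 11 8 (Pf.B 11 6 (Pf.C 1 0x2c3840418188) (Pf.C 75 99211)) (Pf.C 47 0x1c40b)) Pf.nil)))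
 (Pq.cons (Pq.L [2] 4 (Pf.C 0 0x20105))
 (Pq.cons (Pq.D 4 (Pq.cons (Pq.L [2,3,4] 1184 (Pf.W 217 7 [] [2,3,4,6,9] (Pf.cons (Pf.B 11 9 (Pf.B 11 6 (Pf.C 1 0x2c3840418189) (Pf.C 75 99211)) (Pf.C 47 0x1c48b)) Pf.nil)))
 (Pq.cons (Pq.L [4] 4096 (Pf.C 0 0x24208))
 (Pq.cons (Pq.L [1] 4096 (Pf.C 0 0x24088))
 (Pq.cons (Pq.L [1] 4096 (Pf.C 0 0x24088))
 (Pq.cons (Pq.L [2,3] 5856 (Pf.W 217 8 [] [2,3,6,7,9] (Pf.cons (Pf.B 11 9 (Pf.B 11 7 (Pf.B 11 6 (Pf.C 1 0x2c4090418187) (Pf.C 75 99339)) (Pf.C 77 0x2438b)) (Pf.C 0 0x2048b)) Pf.nil)))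
 (Pq.cons (Pq.L [] 1184 (Pf.C 151 0x24307))
 Pq.nil))))))) (Pq.cons (Pq.D 4 (Pq.cons (Pq.L [2,3,4] 1184 (Pf.W 217 7 [] [2,3,4,6,9] (Pf.cons (Pf.B 11 9 (Pf.B 11 6 (Pf.C 1 0x2c3840418189) (Pf.C 75 99211)) (Pf.C 47 0x1c48b)) Pf.nil)))
 (Pq.cons (Pq.L [2,4] 5856 (Pf.W 217 7 [] [2,4,6,8,9] (Pf.cons (Pf.B 11 9 (Pf.B 11 8 (Pf.B 11 6 (Pf.C 1 0x2c3841008486) (Pf.C 68 99467)) (Pf.C 75 0x2038b)) (Pf.C 66 0x1c48b)) Pf.nil)))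
 (Pq.cons (Pq.L [1] 4096 (Pf.C 0 0x24088))
 (Pq.cons (Pq.L [1] 4096 (Pf.C 0 0x24088))
 (Pq.cons (Pq.L [3] 4096 (Pf.C 0 0x24188))
 (Pq.cons (Pq.L [] 1184 (Pf.C 151 0x24307))
 Pq.nil))))))) (Pq.cons (Pq.L [0] 4 (Pf.C 0 0x20005))
 (Pq.cons (Pq.L [0] 4 (Pf.C 0 0x20005))
 Pq.nil))))))) (Pq.cons (Pq.D 3 (Pq.cons (Pq.D 4 (Pq.cons (Pq.L [] 4108 (Pf.C 50 83080))
 (Pq.cons (Pq.L [] 4108 (Pf.C 72 83080))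
 (Pq.cons (Pq.L [0,1,2,3,4] 32736 (Pf.B 10 4 (Pf.B 10 1 (Pf.T 10 9 (Pf.cons (Pf.W 219 6 [] [1,2,3,4,8,9,10] (Pf.cons (Pf.B 11 9 (Pf.B 11 8 (Pf.B 11 10 (Pf.C 1 0xc101102848b) (Pf.C 1 0x1858a1010482)) (Pf.C 47 0x24588)) (Pf.C 75 99467)) Pf.nil)) (Pf.cons (Pf.C 1 0x2048a0c08180) (Pf.cons (Pf.C 1 0x245020e18180) (Pf.cons (Pf.C 1 0x280040c08188) (Pf.cons (Pf.W 219 6 [] [0,1,2,4,8,9,10] (Pf.cons (Pf.B 11 9 (Pf.B 11 8 (Pf.B 11 10 (Pf.C 1 0x2c3010828008) (Pf.C 1 0x1858a1010482)) (Pf.C 47 0x24588)) (Pf.C 75 99467)) Pf.nil)) (Pf.cons (Pf.C 1 0x5020e18188) Pf.nil))))))) (Pf.C 0 0x2408a)) (Pf.C 0 0x2420a)))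
 (Pq.cons (Pq.L [0,1,2,4] 32767 (Pf.B 10 4 (Pf.C 1 0x284880e18284) (Pf.B 10 1 (Pf.B 10 2 (Pf.B 10 0 (Pf.C 1 0x282000c08088) (Pf.C 0 65546)) (Pf.C 1 0x105020e18088)) (Pf.C 0 0x2408a))))
 (Pq.cons (Pq.L [] 4108 (Pf.C 85 83080))
 (Pq.cons (Pq.L [] 4288 (Pf.C 84 0x24308))
 Pq.nil))))))) (Pq.cons (Pq.L [2] 4 (Pf.C 0 0x20105))
 (Pq.cons (Pq.D 4 (Pq.cons (Pq.L [2,3,4] 5646 (Pf.W 223 5 [] [2,3,4,7,8,9] (Pf.cons (Pf.B 11 9 (Pf.B 11 8 (Pf.B 11 7 (Pf.C 1 0x24404041c18b) (Pf.C 0 82827)) (Pf.C 0 82955)) (Pf.C 50 83083)) Pf.nil)))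
 (Pq.cons (Pq.L [0,2,3] 5856 (Pf.C 1 0x204820e18180))
 (Pq.cons (Pq.L [1] 4096 (Pf.C 0 0x24088))
 (Pq.cons (Pq.L [1] 4096 (Pf.C 0 0x24088))
 (Pq.cons (Pq.L [0,1,2,3,4] 32765 (Pf.B 10 3 (Pf.B 10 0 (Pf.T 10 9 (Pf.cons (Pf.W 219 6 [] [0,2,3,4,8,9,10] (Pf.cons (Pf.B 11 9 (Pf.B 11 8 (Pf.B 11 10 (Pf.C 1 0x2c303100020a) (Pf.C 1 0x1858a1000482)) (Pf.C 75 99339)) (Pf.C 82 0x2430b)) Pf.nil)) (Pf.cons (Pf.W 219 6 [] [0,1,2,3,4,5,8,10] (Pf.cons (Pf.B 11 8 (Pf.B 11 10 (Pf.B 11 5 (Pf.C 1 0x28203021410b) (Pf.C 0 98955)) (Pf.C 1 0x1858a1000202)) (Pf.C 75 99339)) Pf.nil)) (Pf.cons (Pf.C 1 0x245020e18084) (Pf.cons (Pf.W 217 8 [] [0,1,2,3,4,6,7,9,10] (Pf.cons (Pf.B 11 9 (Pf.B 11 7 (Pf.B 11 10 (Pf.C 1 0x1c082121050b) (Pf.B 11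 6 (Pf.C 1 0x2c5020e18180) (Pf.C 75 99339))) (Pf.C 75 0x1c40b)) (Pf.C 0 0x2048b)) Pf.nil)) (Pf.cons (Pf.W 217 8 [] [1,2,3,4,5,7,9,10] (Pf.cons (Pf.B 11 9 (Pf.B 11 7 (Pf.B 11 10 (Pf.C 1 0x2c4040e0818a) (Pf.B 11 5 (Pf.C 1 0x10189022c505) (Pf.C 0 0x2028b))) (Pf.C 75 0x1c40b)) (Pf.C 0 0x2048b)) Pf.nil)) (Pf.cons (Pf.W 219 6 [] [0,1,2,4,5,8,9,10] (Pf.cons (Pf.B 11 9 (Pf.B 11 8 (Pf.B 11 10 (Pf.B 11 5 (Pf.C 1 0x14101121050b) (Pf.C 0 98955)) (Pf.C 1 0x1858a1000202)) (Pf.C 75 99339)) (Pf.C 82 0x2430b)) Pf.nil)) Pf.nil))))))) (Pf.C 0 0x2400a)) (Pf.C 0 0x2418a)))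
 (Pq.cons (Pq.L [0,3,4] 5856 (Pf.W 217 8 [] [0,3,4,6,7,9] (Pf.cons (Pf.B 11 9 (Pf.B 11 7 (Pf.B 11 6 (Pf.C 1 0x240040e1818b) (Pf.C 75 99339)) (Pf.C 75 0x1c40b)) (Pf.C 0 0x2048b)) Pf.nil)))
 Pq.nil))))))) (Pq.cons (Pq.D 4 (Pq.cons (Pq.L [0,3,4] 32767 (Pf.B 10 4 (Pf.C 1 0x284880e18284) (Pf.B 10 3 (Pf.B 10 0 (Pf.C 1 0x284880e18180) (Pf.C 0 65546)) (Pf.C 0 65930))))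
 (Pq.cons (Pq.L [0,1,4] 5280 (Pf.W 219 8 [] [0,1,4,6,7,9] (Pf.cons (Pf.B 11 9 (Pf.B 11 7 (Pf.B 11 6 (Pf.C 1 0x242000e1808b) (Pf.C 68 99467)) (Pf.C 68 0x1c48b)) (Pf.C 0 0x2048b)) Pf.nil)))
 (Pq.cons (Pq.L [1] 4096 (Pf.C 0 0x24088))
 (Pq.cons (Pq.L [1] 4096 (Pf.C 0 0x24088))
 (Pq.cons (Pq.L [3] 4096 (Pf.C 0 0x24188))
 (Pq.cons (Pq.L [0,2,4] 32767 (Pf.B 10 4 (Pf.C 1 0x284880e18284) (Pf.B 10 2 (Pf.B 10 0 (Pf.W 219 6 [] [0,2,4,5,8,9,10] (Pf.cons (Pf.B 11 9 (Pf.C 83 0x2430b) (Pf.B 11 10 (Pf.B 11 8 (Pf.B 11 5 (Pf.C 1 0x28200100828b) (Pf.C 0 98955)) (Pf.C 0 0x2440b)) (Pf.C 0 0x2450b))) Pf.nil)) (Pf.C 0 65546)) (Pf.C 0 0x2410a))))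
 Pq.nil))))))) (Pq.cons (Pq.L [0] 4 (Pf.C 0 0x20005))
 (Pq.cons (Pq.L [0] 4 (Pf.C 0 0x20005))
 Pq.nil))))))) (Pq.cons (Pq.L [0] 2 (Pf.C 0 0x1c005))
 (Pq.cons (Pq.L [0] 2 (Pf.C 0 0x1c005))
 Pq.nil))))))) (Pq.cons (Pq.L [0] 1 (Pf.C 0 98309))
 (Pq.cons (Pq.L [0] 1 (Pf.C 0 98309))
 Pq.nil))))))) Pq.nil))
theorem d_o85 : AllRef d_T d_G61 (List.drop 1 (List.drop 1 (List.drop 2 (List.flatMap (splitP 0) (List.drop 1 (applyObl dS_T 2 [131,133,135,137,139,141] [0,0,0,0,0,0] [])))))) :=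
  chkPq_sound d_o85c _ (by decide +kernel)
noncomputable def d_o86c : Pq := (Pq.cons (Pq.L [] 1 (Pf.C 214 646))
 (Pq.cons (Pq.L [] 1 (Pf.C 214 646))
 (Pq.cons (Pq.L [] 1 (Pf.C 214 646))
 (Pq.cons (Pq.L [] 1 (Pf.C 214 646))
 (Pq.cons (Pq.L [] 1 (Pf.C 214 646))
 Pq.nil)))))
theorem d_o86 : AllRef d_T d_G61 (splitObl [132] [134,136,138,140,142]) :=
  chkPq_sound d_o86c _ (by decide +kernel)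
noncomputable def d_o87c : Pq := (Pq.cons (Pq.L [] 7 (Pf.C 0 0x1c305))
 (Pq.cons (Pq.L [0] 32767 (Pf.C 1 0x284880e18280))
 Pq.nil))
theorem d_o87 : AllRef d_T d_G61 (applyObl dS_T 2 [132] [0] []) :=
  chkPq_sound d_o87c _ (by decide +kernel)
noncomputable def d_o88c : Pq := (Pq.cons (Pq.D 0 (Pq.cons (Pq.D 1 (Pq.cons (Pq.L [2] 1 (Pf.C 0 98565))
 (Pq.cons (Pq.L [4] 1 (Pf.C 0 98821))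
 (Pq.cons (Pq.D 2 (Pq.cons (Pq.L [2] 2 (Pf.C 0 0x1c105))
 (Pq.cons (Pq.L [4] 2 (Pf.C 0 0x1c205))
 (Pq.cons (Pq.D 3 (Pq.cons (Pq.L [2] 4 (Pf.C 0 0x20105))
 (Pq.cons (Pq.L [4] 4 (Pf.C 0 0x20205))
 (Pq.cons (Pq.L [0,1,4] 6 (Pf.B 8 7 (Pf.W 157 0 [] [0,1,4,5,7,8] (Pf.cons (Pf.B 9 8 (Pf.B 9 5 (Pf.B 9 7 (Pf.C 1 0x14200101c089) (Pf.C 68 0x1c289)) (Pf.C 67 0x20289)) (Pf.B 9 5 (Pf.C 68 0x20289) (Pf.T 9 35 (Pf.cons (Pf.C 216 1157) (Pf.cons (Pf.C 214 649) Pf.nil))))) Pf.nil)) (Pf.C 0 17288)))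
 (Pq.cons (Pq.L [3] 6 (Pf.B 8 7 (Pf.C 143 0x20385) (Pf.C 0 50056)))
 (Pq.cons (Pq.L [2] 4 (Pf.C 0 0x20105))
 Pq.nil)))))) (Pq.cons (Pq.L [3] 3 (Pf.B 7 6 (Pf.C 143 0x1c305) (Pf.C 0 49927)))
 (Pq.cons (Pq.L [2] 2 (Pf.C 0 0x1c105))
 Pq.nil)))))) (Pq.cons (Pq.D 2 (Pq.cons (Pq.L [2] 2 (Pf.C 0 0x1c105))
 (Pq.cons (Pq.L [4] 2 (Pf.C 0 0x1c205))
 (Pq.cons (Pq.L [3] 3 (Pf.B 7 6 (Pf.C 143 99205) (Pf.C 0 49927)))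
 (Pq.cons (Pq.D 3 (Pq.cons (Pq.L [2] 4 (Pf.C 0 0x20105))
 (Pq.cons (Pq.L [4] 4 (Pf.C 0 0x20205))
 (Pq.cons (Pq.L [3] 6 (Pf.B 8 7 (Pf.C 143 0x1c405) (Pf.C 0 50056)))
 (Pq.cons (Pq.L [0,1,2] 6 (Pf.B 8 7 (Pf.W 157 0 [] [0,1,2,5,7,8] (Pf.cons (Pf.B 9 8 (Pf.B 9 5 (Pf.B 9 7 (Pf.C 1 0x14101101c009) (Pf.C 71 0x1c289)) (Pf.C 70 0x20289)) (Pf.B 9 5 (Pf.C 71 0x20289) (Pf.T 9 35 (Pf.cons (Pf.C 216 1157) (Pf.cons (Pf.C 214 649) Pf.nil))))) Pf.nil)) (Pf.C 0 904)))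
 (Pq.cons (Pq.L [2] 4 (Pf.C 0 0x20105))
 Pq.nil)))))) (Pq.cons (Pq.L [2] 2 (Pf.C 0 0x1c105))
 Pq.nil)))))) (Pq.cons (Pq.L [2] 1 (Pf.C 0 98565))
 Pq.nil)))))) (Pq.cons (Pq.D 1 (Pq.cons (Pq.L [4] 1 (Pf.C 0 98821))
 (Pq.cons (Pq.L [1] 1 (Pf.C 0 98437))
 (Pq.cons (Pq.L [1] 1 (Pf.C 0 98437))
 (Pq.cons (Pq.D 2 (Pq.cons (Pq.L [4] 2 (Pf.C 0 0x1c205))
 (Pq.cons (Pq.L [1] 2 (Pf.C 0 0x1c085))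
 (Pq.cons (Pq.L [1] 2 (Pf.C 0 0x1c085))
 (Pq.cons (Pq.D 3 (Pq.cons (Pq.L [4] 4 (Pf.C 0 0x20205))
 (Pq.cons (Pq.L [1] 4 (Pf.C 0 0x20085))
 (Pq.cons (Pq.L [1] 4 (Pf.C 0 0x20085))
 (Pq.cons (Pq.L [0,1,2,3] 6 (Pf.B 8 7 (Pf.W 157 0 [] [1,2,3,5,7,8] (Pf.cons (Pf.B 9 8 (Pf.B 9 5 (Pf.B 9 7 (Pf.C 1 0x14082101c189) (Pf.C 78 0x1c289)) (Pf.C 77 0x20289)) (Pf.B 9 5 (Pf.C 78 0x20289) (Pf.T 9 35 (Pf.cons (Pf.C 218 1157) (Pf.cons (Pf.C 214 649) Pf.nil))))) Pf.nil)) (Pf.C 0 904)))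
 (Pq.cons (Pq.L [0] 6 (Pf.B 8 7 (Pf.C 154 0x20385) (Pf.C 0 904)))
 Pq.nil)))))) (Pq.cons (Pq.L [0] 3 (Pf.B 7 6 (Pf.C 154 0x1c305) (Pf.C 0 775)))
 Pq.nil)))))) (Pq.cons (Pq.D 2 (Pq.cons (Pq.L [4] 2 (Pf.C 0 0x1c205))
 (Pq.cons (Pq.L [1] 2 (Pf.C 0 0x1c085))
 (Pq.cons (Pq.L [1] 2 (Pf.C 0 0x1c085))
 (Pq.cons (Pq.L [0] 3 (Pf.B 7 6 (Pf.C 154 99205) (Pf.C 0 775)))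
 (Pq.cons (Pq.D 3 (Pq.cons (Pq.L [4] 4 (Pf.C 0 0x20205))
 (Pq.cons (Pq.L [1] 4 (Pf.C 0 0x20085))
 (Pq.cons (Pq.L [1] 4 (Pf.C 0 0x20085))
 (Pq.cons (Pq.L [0] 6 (Pf.B 8 7 (Pf.C 154 0x1c405) (Pf.C 0 904)))
 (Pq.cons (Pq.L [0,2,3,4] 6 (Pf.B 8 7 (Pf.W 157 0 [] [2,3,4,5,7,8] (Pf.cons (Pf.B 9 8 (Pf.B 9 5 (Pf.B 9 7 (Pf.C 1 0x14203101c109) (Pf.C 80 0x1c289)) (Pf.C 79 0x20289)) (Pf.B 9 5 (Pf.C 80 0x20289) (Pf.T 9 35 (Pf.cons (Pf.C 218 1157) (Pf.cons (Pf.C 214 649) Pf.nil))))) Pf.nil)) (Pf.C 0 904)))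
 Pq.nil)))))) Pq.nil)))))) Pq.nil)))))) (Pq.cons (Pq.D 1 (Pq.cons (Pq.D 2 (Pq.cons (Pq.D 3 (Pq.cons (Pq.L [0,1,2,4] 7 (Pf.B 8 7 (Pf.W 157 0 [] [0,1,4,5,6,7,8] (Pf.cons (Pf.B 9 8 (Pf.B 9 5 (Pf.B 9 7 (Pf.C 1 0x14080101c209) (Pf.C 67 82825)) (Pf.C 68 82953)) (Pf.B 9 5 (Pf.C 67 82953) (Pf.B 9 6 (Pf.C 68 82697) (Pf.T 9 35 (Pf.cons (Pf.C 216 1158) (Pf.cons (Pf.C 214 649) Pf.nil)))))) Pf.nil)) (Pf.C 0 33672)))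
 (Pq.cons (Pq.L [1] 4 (Pf.C 0 0x20085))
 (Pq.cons (Pq.L [1] 4 (Pf.C 0 0x20085))
 (Pq.cons (Pq.L [3] 4 (Pf.C 0 0x20185))
 (Pq.cons (Pq.L [2] 6 (Pf.B 8 7 (Pf.C 144 0x20287) (Pf.C 0 33672)))
 Pq.nil)))))) (Pq.cons (Pq.L [1] 2 (Pf.C 0 0x1c085))
 (Pq.cons (Pq.L [1] 2 (Pf.C 0 0x1c085))
 (Pq.cons (Pq.L [3] 2 (Pf.C 0 0x1c185))
 (Pq.cons (Pq.L [2] 3 (Pf.B 7 6 (Pf.C 144 0x1c286) (Pf.C 0 33543)))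
 Pq.nil)))))) (Pq.cons (Pq.L [1] 1 (Pf.C 0 98437))
 (Pq.cons (Pq.L [1] 1 (Pf.C 0 98437))
 (Pq.cons (Pq.L [3] 1 (Pf.C 0 98693))
 (Pq.cons (Pq.D 2 (Pq.cons (Pq.L [2] 3 (Pf.B 7 6 (Pf.C 144 98951) (Pf.C 0 33543)))
 (Pq.cons (Pq.L [1] 2 (Pf.C 0 0x1c085))
 (Pq.cons (Pq.L [1] 2 (Pf.C 0 0x1c085))
 (Pq.cons (Pq.L [3] 2 (Pf.C 0 0x1c185))
 (Pq.cons (Pq.D 3 (Pq.cons (Pq.L [2] 6 (Pf.B 8 7 (Pf.C 144 0x1c288) (Pf.C 0 33672)))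
 (Pq.cons (Pq.L [1] 4 (Pf.C 0 0x20085))
 (Pq.cons (Pq.L [1] 4 (Pf.C 0 0x20085))
 (Pq.cons (Pq.L [3] 4 (Pf.C 0 0x20185))
 (Pq.cons (Pq.L [0,3,4] 6 (Pf.B 8 7 (Pf.W 157 0 [] [0,3,4,5,7,8] (Pf.cons (Pf.B 9 8 (Pf.B 9 5 (Pf.B 9 7 (Pf.C 1 0x14184101c009) (Pf.C 84 0x1c289)) (Pf.C 83 0x20289)) (Pf.B 9 5 (Pf.C 84 0x20289) (Pf.T 9 35 (Pf.cons (Pf.C 220 1157) (Pf.cons (Pf.C 214 649) Pf.nil))))) Pf.nil)) (Pf.C 0 904)))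
 Pq.nil)))))) Pq.nil)))))) Pq.nil)))))) (Pq.cons (Pq.D 1 (Pq.cons (Pq.D 2 (Pq.cons (Pq.D 3 (Pq.cons (Pq.L [0,1,2] 7 (Pf.B 8 7 (Pf.W 157 0 [] [0,1,2,5,6,7,8] (Pf.cons (Pf.B 9 8 (Pf.B 9 5 (Pf.B 9 7 (Pf.C 1 0x14001101c109) (Pf.C 70 82825)) (Pf.C 71 82953)) (Pf.B 9 5 (Pf.C 70 82953) (Pf.B 9 6 (Pf.C 71 82697) (Pf.T 9 35 (Pf.cons (Pf.C 216 1158) (Pf.cons (Pf.C 214 649) Pf.nil)))))) Pf.nil)) (Pf.C 0 33672)))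
 (Pq.cons (Pq.L [4] 6 (Pf.B 8 7 (Pf.C 141 82951) (Pf.C 0 66440)))
 (Pq.cons (Pq.L [3] 4 (Pf.C 0 0x20185))
 (Pq.cons (Pq.L [0] 4 (Pf.C 0 0x20005))
 (Pq.cons (Pq.L [0] 4 (Pf.C 0 0x20005))
 Pq.nil)))))) (Pq.cons (Pq.L [4] 3 (Pf.B 7 6 (Pf.C 141 82822) (Pf.C 0 66311)))
 (Pq.cons (Pq.L [3] 2 (Pf.C 0 0x1c185))
 (Pq.cons (Pq.L [0] 2 (Pf.C 0 0x1c005))
 (Pq.cons (Pq.L [0] 2 (Pf.C 0 0x1c005))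
 Pq.nil)))))) (Pq.cons (Pq.D 2 (Pq.cons (Pq.L [4] 3 (Pf.B 7 6 (Pf.C 141 82695) (Pf.C 0 66311)))
 (Pq.cons (Pq.D 3 (Pq.cons (Pq.L [4] 6 (Pf.B 8 7 (Pf.C 141 82824) (Pf.C 0 66440)))
 (Pq.cons (Pq.L [1,2,3] 7 (Pf.B 8 7 (Pf.W 157 0 [] [1,2,3,5,6,7,8] (Pf.cons (Pf.B 9 8 (Pf.B 9 5 (Pf.B 9 7 (Pf.C 1 0x14182101c089) (Pf.C 77 82825)) (Pf.C 78 82953)) (Pf.B 9 5 (Pf.C 77 82953) (Pf.B 9 6 (Pf.C 78 82697) (Pf.T 9 35 (Pf.cons (Pf.C 218 1158) (Pf.cons (Pf.C 214 649) Pf.nil)))))) Pf.nil)) (Pf.C 0 17288)))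
 (Pq.cons (Pq.L [3] 4 (Pf.C 0 0x20185))
 (Pq.cons (Pq.L [0] 4 (Pf.C 0 0x20005))
 (Pq.cons (Pq.L [0] 4 (Pf.C 0 0x20005))
 Pq.nil)))))) (Pq.cons (Pq.L [3] 2 (Pf.C 0 0x1c185))
 (Pq.cons (Pq.L [0] 2 (Pf.C 0 0x1c005))
 (Pq.cons (Pq.L [0] 2 (Pf.C 0 0x1c005))
 Pq.nil)))))) (Pq.cons (Pq.L [3] 1 (Pf.C 0 98693))
 (Pq.cons (Pq.L [0] 1 (Pf.C 0 98309))
 (Pq.cons (Pq.L [0] 1 (Pf.C 0 98309))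
 Pq.nil)))))) (Pq.cons (Pq.D 1 (Pq.cons (Pq.L [2] 1 (Pf.C 0 98565))
 (Pq.cons (Pq.D 2 (Pq.cons (Pq.L [2] 2 (Pf.C 0 0x1c105))
 (Pq.cons (Pq.D 3 (Pq.cons (Pq.L [2] 4 (Pf.C 0 0x20105))
 (Pq.cons (Pq.L [1,2,3,4] 7 (Pf.B 8 7 (Pf.W 157 0 [] [2,3,4,5,6,7,8] (Pf.cons (Pf.B 9 8 (Pf.B 9 5 (Pf.B 9 7 (Pf.C 1 0x14103101c209) (Pf.C 79 82825)) (Pf.C 80 82953)) (Pf.B 9 5 (Pf.C 79 82953) (Pf.B 9 6 (Pf.C 80 82697) (Pf.T 9 35 (Pf.cons (Pf.C 218 1158) (Pf.cons (Pf.C 214 649) Pf.nil)))))) Pf.nil)) (Pf.C 0 17288)))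
 (Pq.cons (Pq.L [1] 6 (Pf.B 8 7 (Pf.C 151 82951) (Pf.C 0 17288)))
 (Pq.cons (Pq.L [0] 4 (Pf.C 0 0x20005))
 (Pq.cons (Pq.L [0] 4 (Pf.C 0 0x20005))
 Pq.nil)))))) (Pq.cons (Pq.L [1] 3 (Pf.B 7 6 (Pf.C 151 82822) (Pf.C 0 17159)))
 (Pq.cons (Pq.L [0] 2 (Pf.C 0 0x1c005))
 (Pq.cons (Pq.L [0] 2 (Pf.C 0 0x1c005))
 Pq.nil)))))) (Pq.cons (Pq.D 2 (Pq.cons (Pq.L [2] 2 (Pf.C 0 0x1c105))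
 (Pq.cons (Pq.L [1] 3 (Pf.B 7 6 (Pf.C 151 82695) (Pf.C 0 17159)))
 (Pq.cons (Pq.D 3 (Pq.cons (Pq.L [2] 4 (Pf.C 0 0x20105))
 (Pq.cons (Pq.L [1] 6 (Pf.B 8 7 (Pf.C 151 82824) (Pf.C 0 17288)))
 (Pq.cons (Pq.L [0,1,3,4] 7 (Pf.B 8 7 (Pf.W 157 0 [] [0,3,4,5,6,7,8] (Pf.cons (Pf.B 9 8 (Pf.B 9 5 (Pf.B 9 7 (Pf.C 1 0x14004101c189) (Pf.C 83 82825)) (Pf.C 84 82953)) (Pf.B 9 5 (Pf.C 83 82953) (Pf.B 9 6 (Pf.C 84 82697) (Pf.T 9 35 (Pf.cons (Pf.C 220 1158) (Pf.cons (Pf.C 214 649) Pf.nil)))))) Pf.nil)) (Pf.C 0 17288)))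
 (Pq.cons (Pq.L [0] 4 (Pf.C 0 0x20005))
 (Pq.cons (Pq.L [0] 4 (Pf.C 0 0x20005))
 Pq.nil)))))) (Pq.cons (Pq.L [0] 2 (Pf.C 0 0x1c005))
 (Pq.cons (Pq.L [0] 2 (Pf.C 0 0x1c005))
 Pq.nil)))))) (Pq.cons (Pq.L [0] 1 (Pf.C 0 98309))
 (Pq.cons (Pq.L [0] 1 (Pf.C 0 98309))
 Pq.nil)))))) Pq.nil)))))) Pq.nil)
theorem d_o88 : AllRef d_T d_G61 (applyObl TD2 1 [134,136,138,140,142] [0,0,0,0,0] [(134,0x140000000000000000000000000000000000),(136,0x500000000000000000000000000000000000),(138,0x404000000000000000000000000000000000),(140,0x14000000000000000000000000000000000),(142,0x50000000000000000000000000000000000)]) :=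
  chkPq_sound d_o88c _ (by decide +kernel)

end Pool.Agent.Lib.MP_849b2e_co
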