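import Pool.Agent.Lib.MP_849b2e_co.AllR
import Pool.Agent.Lib.MP_849b2e_co.Td
import Pool.Agent.Lib.MP_849b2e_co.Od_0
import Pool.Agent.Lib.MP_849b2e_co.LbD
import Pool.Agent.Lib.MP_849b2e_co.Lcur
import Pool.Agent.Lib.MP_849b2e_co.LdS

set_option maxRecDepth 100000
set_option linter.all false
namespace Pool.Agent.Lib.MP_849b2e_co

theorem d_n150  : Bd d_T d_G61 [134,136,138,140,142] :=
  r_apply lem_D2 [0,0,0,0,0] [(134,0x140000000000000000000000000000000000),(136,0x500000000000000000000000000000000000),(138,0x404000000000000000000000000000000000),(140,0x14000000000000000000000000000000000),(142,0x50000000000000000000000000000000000)] (by decide +kernel) d_o88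
theorem d_n149  : Bd d_T d_G61 [132] :=
  r_apply lem_dS [0] [] (by decide +kernel) d_o87
theorem d_n148  : Bd d_T d_G61 [132,134,136,138,140,142] :=
  r_split [132] [134,136,138,140,142] (by decide +kernel) d_o86 d_n149 d_n150
theorem d_n147  : Bd d_T d_G61 [131,133,135,137,139,141] :=
  r_apply lem_dS [0,0,0,0,0,0] [] (by decide +kernel) (allRef_split 1 d_o80 (allRef_expand 0 (allRef_split 2 (allRef_split 1 d_o81 d_o82) (allRef_split 1 d_o83 (allRef_split 1 d_o84 d_o85)))))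
theorem d_n146  : Bd d_T d_G61 [131,132,133,134,135,136,137,138,139,140,141,142] :=
  r_split [131,133,135,137,139,141] [132,134,136,138,140,142] (by decide +kernel) d_o79 d_n147 d_n148
theorem d_n145  : Bd d_T d_G61 [131,132,70,71,72,73,74] :=
  r_act [36,37,38,39,40] [131,132,133,134,135,136,137,138,139,140,141,142] (by decide +kernel) d_n146
theorem d_n144  : Bd d_T d_G60 [131,132,70,71,72,73,74] :=
  r_def 74 0 [131] [] ⟨141,[41],[224,0,225],[]⟩ d_G61 [131,132,70,71,72,73,74] (by decide +kernel) d_n145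
theorem d_n143  : Bd d_T d_G59 [131,132,70,71,72,73,74] :=
  r_def 73 0 [131] [] ⟨139,[40],[222,0,223],[]⟩ d_G60 [131,132,70,71,72,73,74] (by decide +kernel) d_n144
theorem d_n142  : Bd d_T d_G58 [131,132,70,71,72,73,74] :=
  r_def 72 0 [131] [] ⟨137,[39],[220,0,221],[]⟩ d_G59 [131,132,70,71,72,73,74] (by decide +kernel) d_n143
theorem d_n141  : Bd d_T d_G57 [131,132,70,71,72,73,74] :=
  r_def 71 0 [131] [] ⟨135,[38],[218,0,219],[]⟩ d_G58 [131,132,70,71,72,73,74] (by decide +kernel) d_n142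
theorem d_n140  : Bd d_T d_G56 [131,132,70,71,72,73,74] :=
  r_def 70 0 [131] [] ⟨133,[37],[216,0,217],[]⟩ d_G57 [131,132,70,71,72,73,74] (by decide +kernel) d_n141
theorem d_n139  : Bd d_T d_G56 [75,70,71,72,73,74] :=
  r_act [35] [131,132,70,71,72,73,74] (by decide +kernel) d_n140
theorem d_n138  : Bd d_T d_G29 [75,70,71,72,73,74] :=
  r_def 75 0 [70,71,72,73,74] [] ⟨131,[36],[214,0,215],[]⟩ d_G56 [75,70,71,72,73,74] (by decide +kernel) d_n139
theorem d_n137  : Bd d_T d_G29 [80] :=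
  r_apply lem_D2 [0] [] (by decide +kernel) d_o78
theorem d_n136  : Bd d_T d_G29 [80,75,70,71,72,73,74] :=
  r_split [80] [75,70,71,72,73,74] (by decide +kernel) d_o77 d_n137 d_n138
theorem d_n135  : Bd d_T d_G29 [79] :=
  r_apply lem_D2 [0] [] (by decide +kernel) d_o76
theorem d_n134  : Bd d_T d_G29 [79,80,75,70,71,72,73,74] :=
  r_split [79] [80,75,70,71,72,73,74] (by decide +kernel) d_o75 d_n135 d_n136
theorem d_n133  : Bd d_T d_G29 [78] :=
  r_apply lem_D2 [0] [] (by decide +kernel) d_o74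
theorem d_n132  : Bd d_T d_G29 [78,79,80,75,70,71,72,73,74] :=
  r_split [78] [79,80,75,70,71,72,73,74] (by decide +kernel) d_o73 d_n133 d_n134
theorem d_n131  : Bd d_T d_G29 [77] :=
  r_apply lem_D2 [0] [] (by decide +kernel) d_o72
theorem d_n130  : Bd d_T d_G29 [77,78,79,80,75,70,71,72,73,74] :=
  r_split [77] [78,79,80,75,70,71,72,73,74] (by decide +kernel) d_o71 d_n131 d_n132
theorem d_n129  : Bd d_T d_G29 [76] :=
  r_apply lem_D2 [0] [] (by decide +kernel) d_o70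
theorem d_n128  : Bd d_T d_G29 [75,76,77,78,70,79,71,72,80,73,74] :=
  r_split [76] [77,78,79,80,75,70,71,72,73,74] (by decide +kernel) d_o69 d_n129 d_n130
theorem d_n127  : Bd d_T d_G40 [91,81] :=
  r_apply lem_bD [1,2] [] (by decide +kernel) d_o68
theorem d_n126  : Bd d_T d_G40 [83,93] :=
  r_apply lem_bD [1,2] [] (by decide +kernel) d_o67
theorem d_n125  : Bd d_T d_G40 [83,93,91,81] :=
  r_split [83,93] [91,81] (by decide +kernel) d_o66 d_n126 d_n127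
theorem d_n124  : Bd d_T d_G40 [85,95] :=
  r_apply lem_bD [1,2] [] (by decide +kernel) d_o65
theorem d_n123  : Bd d_T d_G40 [85,95,83,93,91,81] :=
  r_split [85,95] [83,93,91,81] (by decide +kernel) d_o64 d_n124 d_n125
theorem d_n122  : Bd d_T d_G40 [87,97] :=
  r_apply lem_bD [1,2] [] (by decide +kernel) d_o63
theorem d_n121  : Bd d_T d_G40 [87,97,85,95,83,93,91,81] :=
  r_split [87,97] [85,95,83,93,91,81] (by decide +kernel) d_o62 d_n122 d_n123
theorem d_n120  : Bd d_T d_G42 [101,103] :=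
  r_apply lem_bD [1,2] [] (by decide +kernel) d_o61
theorem d_n119  : Bd d_T d_G44 [107,105] :=
  r_apply lem_bD [1,2] [] (by decide +kernel) d_o60
theorem d_n118  : Bd d_T d_G46 [111,109] :=
  r_apply lem_bD [1,2] [] (by decide +kernel) d_o59
theorem d_n117  : Bd d_T d_G48 [113,115] :=
  r_apply lem_bD [1,2] [] (by decide +kernel) d_o58
theorem d_n116  : Bd d_T d_G50 [117,119] :=
  r_apply lem_bD [1,2] [] (by decide +kernel) d_o57
theorem d_n115  : Bd d_T d_G55 [122,129,116] :=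
  r_apply lem_cur [1,2,3] [] (by decide +kernel) d_o56
theorem d_n114  : Bd d_T d_G55 [121,120,124] :=
  r_apply lem_cur [1,2,3] [] (by decide +kernel) d_o55
theorem d_n113  : Bd d_T d_G55 [121,120,124,122,129,116] :=
  r_split [121,120,124] [122,129,116] (by decide +kernel) d_o54 d_n114 d_n115
theorem d_n112  : Bd d_T d_G55 [114,126,123] :=
  r_apply lem_cur [1,2,3] [] (by decide +kernel) d_o53
theorem d_n111  : Bd d_T d_G55 [114,126,123,121,120,124,122,129,116] :=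
  r_split [114,126,123] [121,120,124,122,129,116] (by decide +kernel) d_o52 d_n112 d_n113
theorem d_n110  : Bd d_T d_G55 [118,125,128] :=
  r_apply lem_cur [1,2,3] [] (by decide +kernel) d_o51
theorem d_n109  : Bd d_T d_G55 [118,125,128,114,126,123,121,120,124,122,129,116] :=
  r_split [118,125,128] [114,126,123,121,120,124,122,129,116] (by decide +kernel) d_o50 d_n110 d_n111
theorem d_n108  : Bd d_T d_G55 [112,130,127] :=
  r_apply lem_cur [1,2,3] [] (by decide +kernel) d_o49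
theorem d_n107  : Bd d_T d_G55 [112,118,114,121,122,120,125,126,129,130,116,123,124,127,128] :=
  r_split [112,130,127] [118,125,128,114,126,123,121,120,124,122,129,116] (by decide +kernel) d_o48 d_n108 d_n109
theorem d_n106  : Bd d_T d_G55 [112,118,114,121,122,120,125,126,96,116,123,124,127,128] :=
  r_act [34] [112,118,114,121,122,120,125,126,129,130,116,123,124,127,128] (by decide +kernel) d_n107
theorem d_n105  : Bd d_T d_G54 [112,118,114,121,122,120,125,126,96,116,123,124,127,128] :=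
  r_def 96 0 [116] [122] ⟨129,[35],[211,212,213],[]⟩ d_G55 [112,118,114,121,122,120,125,126,96,116,123,124,127,128] (by decide +kernel) d_n106
theorem d_n104  : Bd d_T d_G54 [112,118,114,121,122,120,125,126,96,116,123,124,94] :=
  r_act [33] [112,118,114,121,122,120,125,126,96,116,123,124,127,128] (by decide +kernel) d_n105
theorem d_n103  : Bd d_T d_G53 [112,118,114,121,122,120,125,126,96,116,123,124,94] :=
  r_def 94 0 [112] [96] ⟨127,[34],[208,209,210],[]⟩ d_G54 [112,118,114,121,122,120,125,126,96,116,123,124,94] (by decide +kernel) d_n104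
theorem d_n102  : Bd d_T d_G53 [112,118,114,121,122,120,92,96,116,123,124,94] :=
  r_act [32] [112,118,114,121,122,120,125,126,96,116,123,124,94] (by decide +kernel) d_n103
theorem d_n101  : Bd d_T d_G52 [112,118,114,121,122,120,92,96,116,123,124,94] :=
  r_def 92 0 [118] [94] ⟨125,[33],[205,206,207],[]⟩ d_G53 [112,118,114,121,122,120,92,96,116,123,124,94] (by decide +kernel) d_n102
theorem d_n100  : Bd d_T d_G52 [112,118,114,121,122,120,92,96,116,100,94] :=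
  r_act [31] [112,118,114,121,122,120,92,96,116,123,124,94] (by decide +kernel) d_n101
theorem d_n99  : Bd d_T d_G51 [112,118,114,121,122,120,92,96,116,100,94] :=
  r_def 100 0 [114] [92] ⟨123,[32],[202,203,204],[]⟩ d_G52 [112,118,114,121,122,120,92,96,116,100,94] (by decide +kernel) d_n100
theorem d_n98  : Bd d_T d_G51 [112,118,114,98,120,92,96,116,100,94] :=
  r_act [30] [112,118,114,121,122,120,92,96,116,100,94] (by decide +kernel) d_n99
theorem d_n97  : Bd d_T d_G50 [112,118,114,98,120,92,96,116,100,94] :=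
  r_def 98 0 [120] [100] ⟨121,[31],[199,200,201],[]⟩ d_G51 [112,118,114,98,120,92,96,116,100,94] (by decide +kernel) d_n98
theorem d_n96  : Bd d_T d_G50 [112,117,118,114,98,119,120,92,96,116,100,94] :=
  r_split [112,118,114,98,120,92,96,116,100,94] [117,119] (by decide +kernel) d_o47 d_n97 d_n116
theorem d_n95  : Bd d_T d_G50 [112,117,118,114,98,110,92,96,116,100,94] :=
  r_act [29] [112,117,118,114,98,119,120,92,96,116,100,94] (by decide +kernel) d_n96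
theorem d_n94  : Bd d_T d_G49 [112,117,118,114,98,110,92,96,116,100,94] :=
  r_def 110 0 [117] [] ⟨119,[30],[197,0,198],[]⟩ d_G50 [112,117,118,114,98,110,92,96,116,100,94] (by decide +kernel) d_n95
theorem d_n93  : Bd d_T d_G49 [112,108,114,98,110,92,96,116,100,94] :=
  r_act [28] [112,117,118,114,98,110,92,96,116,100,94] (by decide +kernel) d_n94
theorem d_n92  : Bd d_T d_G48 [112,108,114,98,110,92,96,116,100,94] :=
  r_def 108 0 [110] [] ⟨117,[29],[195,0,196],[]⟩ d_G49 [112,108,114,98,110,92,96,116,100,94] (by decide +kernel) d_n93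
theorem d_n91  : Bd d_T d_G48 [112,108,113,114,98,110,92,96,115,116,100,94] :=
  r_split [112,108,114,98,110,92,96,116,100,94] [113,115] (by decide +kernel) d_o46 d_n92 d_n117
theorem d_n90  : Bd d_T d_G48 [112,108,113,114,98,110,92,96,106,100,94] :=
  r_act [27] [112,108,113,114,98,110,92,96,115,116,100,94] (by decide +kernel) d_n91
theorem d_n89  : Bd d_T d_G47 [112,108,113,114,98,110,92,96,106,100,94] :=
  r_def 106 0 [113] [] ⟨115,[28],[193,0,194],[]⟩ d_G48 [112,108,113,114,98,110,92,96,106,100,94] (by decide +kernel) d_n90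
theorem d_n88  : Bd d_T d_G47 [112,108,104,98,110,92,96,106,100,94] :=
  r_act [26] [112,108,113,114,98,110,92,96,106,100,94] (by decide +kernel) d_n89
theorem d_n87  : Bd d_T d_G46 [112,108,104,98,110,92,96,106,100,94] :=
  r_def 104 0 [106] [] ⟨113,[27],[191,0,192],[]⟩ d_G47 [112,108,104,98,110,92,96,106,100,94] (by decide +kernel) d_n88
theorem d_n86  : Bd d_T d_G46 [111,112,108,104,98,109,110,92,96,106,100,94] :=
  r_split [112,108,104,98,110,92,96,106,100,94] [111,109] (by decide +kernel) d_o45 d_n87 d_n118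
theorem d_n85  : Bd d_T d_G46 [102,108,104,98,109,110,92,96,106,100,94] :=
  r_act [25] [111,112,108,104,98,109,110,92,96,106,100,94] (by decide +kernel) d_n86
theorem d_n84  : Bd d_T d_G45 [102,108,104,98,109,110,92,96,106,100,94] :=
  r_def 102 0 [109] [] ⟨111,[26],[189,0,190],[]⟩ d_G46 [102,108,104,98,109,110,92,96,106,100,94] (by decide +kernel) d_n85
theorem d_n83  : Bd d_T d_G45 [102,108,104,98,84,92,96,106,100,94] :=
  r_act [24] [102,108,104,98,109,110,92,96,106,100,94] (by decide +kernel) d_n84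
theorem d_n82  : Bd d_T d_G44 [102,108,104,98,84,92,96,106,100,94] :=
  r_def 84 0 [102] [] ⟨109,[25],[187,0,188],[]⟩ d_G45 [102,108,104,98,84,92,96,106,100,94] (by decide +kernel) d_n83
theorem d_n81  : Bd d_T d_G44 [102,107,108,104,98,84,92,96,105,106,100,94] :=
  r_split [102,108,104,98,84,92,96,106,100,94] [107,105] (by decide +kernel) d_o44 d_n82 d_n119
theorem d_n80  : Bd d_T d_G44 [102,88,104,98,84,92,96,105,106,100,94] :=
  r_act [23] [102,107,108,104,98,84,92,96,105,106,100,94] (by decide +kernel) d_n81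
theorem d_n79  : Bd d_T d_G43 [102,88,104,98,84,92,96,105,106,100,94] :=
  r_def 88 0 [105] [] ⟨107,[24],[185,0,186],[]⟩ d_G44 [102,88,104,98,84,92,96,105,106,100,94] (by decide +kernel) d_n80
theorem d_n78  : Bd d_T d_G43 [102,88,104,98,84,92,96,82,100,94] :=
  r_act [22] [102,88,104,98,84,92,96,105,106,100,94] (by decide +kernel) d_n79
theorem d_n77  : Bd d_T d_G42 [102,88,104,98,84,92,96,82,100,94] :=
  r_def 82 0 [88] [] ⟨105,[23],[183,0,184],[]⟩ d_G43 [102,88,104,98,84,92,96,82,100,94] (by decide +kernel) d_n78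
theorem d_n76  : Bd d_T d_G42 [101,102,88,103,104,98,84,92,96,82,100,94] :=
  r_split [102,88,104,98,84,92,96,82,100,94] [101,103] (by decide +kernel) d_o43 d_n77 d_n120
theorem d_n75  : Bd d_T d_G42 [101,102,88,86,98,84,92,96,82,100,94] :=
  r_act [21] [101,102,88,103,104,98,84,92,96,82,100,94] (by decide +kernel) d_n76
theorem d_n74  : Bd d_T d_G41 [101,102,88,86,98,84,92,96,82,100,94] :=
  r_def 86 0 [101] [] ⟨103,[22],[181,0,182],[]⟩ d_G42 [101,102,88,86,98,84,92,96,82,100,94] (by decide +kernel) d_n75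
theorem d_n73  : Bd d_T d_G41 [90,88,86,98,84,92,96,82,100,94] :=
  r_act [20] [101,102,88,86,98,84,92,96,82,100,94] (by decide +kernel) d_n74
theorem d_n72  : Bd d_T d_G40 [90,88,86,98,84,92,96,82,100,94] :=
  r_def 90 0 [86] [] ⟨101,[21],[179,0,180],[]⟩ d_G41 [90,88,86,98,84,92,96,82,100,94] (by decide +kernel) d_n73
theorem d_n71  : Bd d_T d_G40 [90,88,86,98,84,92,96,82,100,94,87,97,85,95,83,93,91,81] :=
  r_split [90,88,86,98,84,92,96,82,100,94] [87,97,85,95,83,93,91,81] (by decide +kernel) d_o42 d_n72 d_n121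
theorem d_n70  : Bd d_T d_G40 [89,99] :=
  r_apply lem_bD [1,2] [] (by decide +kernel) d_o41
theorem d_n69  : Bd d_T d_G40 [89,90,87,88,85,86,97,98,83,84,91,92,95,96,81,82,99,100,93,94] :=
  r_split [89,99] [90,88,86,98,84,92,96,82,100,94,87,97,85,95,83,93,91,81] (by decide +kernel) d_o40 d_n70 d_n71
theorem d_n68  : Bd d_T d_G40 [89,90,87,88,85,86,97,98,83,84,91,92,95,96,81,82,73,93,94] :=
  r_act [19] [89,90,87,88,85,86,97,98,83,84,91,92,95,96,81,82,99,100,93,94] (by decide +kernel) d_n69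
theorem d_n67  : Bd d_T d_G39 [89,90,87,88,85,86,97,98,83,84,91,92,95,96,81,82,73,93,94] :=
  r_def 73 0 [] [89] ⟨99,[20],[177,178],[]⟩ d_G40 [89,90,87,88,85,86,97,98,83,84,91,92,95,96,81,82,73,93,94] (by decide +kernel) d_n68
theorem d_n66  : Bd d_T d_G39 [89,90,87,88,85,86,70,83,84,91,92,95,96,81,82,73,93,94] :=
  r_act [18] [89,90,87,88,85,86,97,98,83,84,91,92,95,96,81,82,73,93,94] (by decide +kernel) d_n67
theorem d_n65  : Bd d_T d_G38 [89,90,87,88,85,86,70,83,84,91,92,95,96,81,82,73,93,94] :=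
  r_def 70 0 [] [87] ⟨97,[19],[175,176],[]⟩ d_G39 [89,90,87,88,85,86,70,83,84,91,92,95,96,81,82,73,93,94] (by decide +kernel) d_n66
theorem d_n64  : Bd d_T d_G38 [89,90,87,88,85,86,70,83,84,91,92,72,81,82,73,93,94] :=
  r_act [17] [89,90,87,88,85,86,70,83,84,91,92,95,96,81,82,73,93,94] (by decide +kernel) d_n65
theorem d_n63  : Bd d_T d_G37 [89,90,87,88,85,86,70,83,84,91,92,72,81,82,73,93,94] :=
  r_def 72 0 [] [85] ⟨95,[18],[173,174],[]⟩ d_G38 [89,90,87,88,85,86,70,83,84,91,92,72,81,82,73,93,94] (by decide +kernel) d_n64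
theorem d_n62  : Bd d_T d_G37 [89,90,87,88,85,86,70,83,84,91,92,72,81,82,73,74] :=
  r_act [16] [89,90,87,88,85,86,70,83,84,91,92,72,81,82,73,93,94] (by decide +kernel) d_n63
theorem d_n61  : Bd d_T d_G36 [89,90,87,88,85,86,70,83,84,91,92,72,81,82,73,74] :=
  r_def 74 0 [] [83] ⟨93,[17],[171,172],[]⟩ d_G37 [89,90,87,88,85,86,70,83,84,91,92,72,81,82,73,74] (by decide +kernel) d_n62
theorem d_n60  : Bd d_T d_G36 [89,90,87,88,85,86,70,83,84,71,72,81,82,73,74] :=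
  r_act [15] [89,90,87,88,85,86,70,83,84,91,92,72,81,82,73,74] (by decide +kernel) d_n61
theorem d_n59  : Bd d_T d_G35 [89,90,87,88,85,86,70,83,84,71,72,81,82,73,74] :=
  r_def 71 0 [] [81] ⟨91,[16],[169,170],[]⟩ d_G36 [89,90,87,88,85,86,70,83,84,71,72,81,82,73,74] (by decide +kernel) d_n60
theorem d_n58  : Bd d_T d_G35 [76,87,88,85,86,70,83,84,71,72,81,82,73,74] :=
  r_act [14] [89,90,87,88,85,86,70,83,84,71,72,81,82,73,74] (by decide +kernel) d_n59
theorem d_n57  : Bd d_T d_G34 [76,87,88,85,86,70,83,84,71,72,81,82,73,74] :=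
  r_def 76 0 [] [73] ⟨89,[15],[167,168],[]⟩ d_G35 [76,87,88,85,86,70,83,84,71,72,81,82,73,74] (by decide +kernel) d_n58
theorem d_n56  : Bd d_T d_G34 [76,77,85,86,70,83,84,71,72,81,82,73,74] :=
  r_act [13] [76,87,88,85,86,70,83,84,71,72,81,82,73,74] (by decide +kernel) d_n57
theorem d_n55  : Bd d_T d_G33 [76,77,85,86,70,83,84,71,72,81,82,73,74] :=
  r_def 77 0 [] [70] ⟨87,[14],[165,166],[]⟩ d_G34 [76,77,85,86,70,83,84,71,72,81,82,73,74] (by decide +kernel) d_n56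
theorem d_n54  : Bd d_T d_G33 [76,77,78,70,83,84,71,72,81,82,73,74] :=
  r_act [12] [76,77,85,86,70,83,84,71,72,81,82,73,74] (by decide +kernel) d_n55
theorem d_n53  : Bd d_T d_G32 [76,77,78,70,83,84,71,72,81,82,73,74] :=
  r_def 78 0 [] [72] ⟨85,[13],[163,164],[]⟩ d_G33 [76,77,78,70,83,84,71,72,81,82,73,74] (by decide +kernel) d_n54
theorem d_n52  : Bd d_T d_G32 [76,77,78,70,79,71,72,81,82,73,74] :=
  r_act [11] [76,77,78,70,83,84,71,72,81,82,73,74] (by decide +kernel) d_n53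
theorem d_n51  : Bd d_T d_G31 [76,77,78,70,79,71,72,81,82,73,74] :=
  r_def 79 0 [] [74] ⟨83,[12],[161,162],[]⟩ d_G32 [76,77,78,70,79,71,72,81,82,73,74] (by decide +kernel) d_n52
theorem d_n50  : Bd d_T d_G31 [76,77,78,70,79,71,72,80,73,74] :=
  r_act [10] [76,77,78,70,79,71,72,81,82,73,74] (by decide +kernel) d_n51
theorem d_n49  : Bd d_T d_G30 [76,77,78,70,79,71,72,80,73,74] :=
  r_def 80 0 [] [71] ⟨81,[11],[159,160],[]⟩ d_G31 [76,77,78,70,79,71,72,80,73,74] (by decide +kernel) d_n50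
theorem d_n48  : Bd d_T d_G28 [75,76,77,78,70,79,71,72,80,73,74] :=
  r_kill [75] ⟨81,[],[],[]⟩ d_G30 [76,77,78,70,79,71,72,80,73,74] (by decide +kernel) d_o39 d_n49
theorem d_n47  : Bd d_T d_G27 [75,76,77,78,70,79,71,72,80,73,74] :=
  r_ex 75 0 ⟨81,[],[157],[]⟩ d_G28 [75,76,77,78,70,79,71,72,80,73,74] ⟨81,[],[158],[]⟩ d_G29 [75,76,77,78,70,79,71,72,80,73,74] (by decide +kernel) d_n48 d_n128
theorem d_n46  : Bd d_T d_G26 [64,65,66,67,57,68,59,60,69,62,63] :=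
  r_hit [57,59,60,62,63,64,65,66,67,68,69] d_h46 ⟨70,[],[47,48,49,50,51,52,0,53,0,0,54,55,0,56,57,58,0,59,0,60,0,0,61,0,0,62,63,64,0,65,0,0,66,67,68,69,0,70,71,72,73,0,0,0,74,75,76,77,78,79,80,81,0,82,83,84,85,0,0,86,0,0,87,88,89,90,91,92,93,94,95,96,97,98,99,100,0,101,102,103,104,0,105,0,0,106,107,108,109,110,111,112,113,114,115,116,117,118,119,120,121,122,123,124,125,126,0,0,127,128,129,130,131,132,133,134,135,136,137,138,139,140,141,142,143,144,145,146,0,147,148,149,0,150,151,152,153,154,155,156],[]⟩ d_G27 [75,76,77,78,70,79,71,72,80,73,74] (by decide +kernel) (allRef_split 72 d_o37 d_o38) d_n47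
theorem d_n45  : Bd d_T d_G25 [53,54,55,56,57,58,59,60,61,62,63] :=
  r_hit [53,54,55,56,58,61] d_h45 ⟨64,[],[37,38,39,40,41,42,43,44,45,46],[]⟩ d_G26 [64,65,66,67,57,68,59,60,69,62,63] (by decide +kernel) d_o36 d_n46
theorem d_n44  : Bd d_T d_G25 [1] :=
  r_act [8,9] [53,54,55,56,57,58,59,60,61,62,63] (by decide +kernel) d_n45
theorem d_n43  : Bd d_T d_G24 [1] :=
  r_psplit 52 [] (PT.br 0 (PT.br 1 (PT.br 2 (PT.br 3 (PT.br 4 PT.kid PT.kid) (PT.br 4 PT.kid PT.ref)) (PT.br 3 (PT.br 4 PT.kid PT.kid) PT.ref)) (PT.br 2 (PT.br 3 (PT.br 4 PT.kid PT.kid) (PT.br 4 PT.kid PT.ref)) PT.ref)) (PT.br 1 (PT.br 2 (PT.br 3 (PT.br 4 PT.kid PT.ref) (PT.br 4 PT.kid PT.ref)) (PT.br 3 (PT.br 4 PT.kid PT.ref) PT.ref)) PT.ref)) ⟨53,[10],[],[]⟩ d_G25 [1] (by decide +kernel) d_o35 d_n44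
theorem d_n42  : Bd d_T d_G2 [1] :=
  r_psplit 1 [0,1,2,3,4] PT.kid ⟨52,[9],[],[]⟩ d_G24 [1] (by decide +kernel) d_o34 d_n43
theorem d_n41  : Bd d_T d_G23 [44] :=
  r_apply lem_D2 [0] [] (by decide +kernel) d_o33
theorem d_n40  : Bd d_T d_G23 [43] :=
  r_apply lem_D2 [0] [] (by decide +kernel) d_o32
theorem d_n39  : Bd d_T d_G23 [43,44] :=
  r_split [43] [44] (by decide +kernel) d_o31 d_n40 d_n41
theorem d_n38  : Bd d_T d_G23 [41] :=
  r_apply lem_D2 [0] [] (by decide +kernel) d_o30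
theorem d_n37  : Bd d_T d_G23 [41,43,44] :=
  r_split [41] [43,44] (by decide +kernel) d_o29 d_n38 d_n39
theorem d_n36  : Bd d_T d_G23 [40] :=
  r_apply lem_D2 [0] [] (by decide +kernel) d_o28
theorem d_n35  : Bd d_T d_G23 [40,41,43,44] :=
  r_split [40] [41,43,44] (by decide +kernel) d_o27 d_n36 d_n37
theorem d_n34  : Bd d_T d_G23 [38] :=
  r_apply lem_D2 [0] [] (by decide +kernel) d_o26
theorem d_n33  : Bd d_T d_G23 [38,40,41,43,44] :=
  r_split [38] [40,41,43,44] (by decide +kernel) d_o25 d_n34 d_n35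
theorem d_n32  : Bd d_T d_G23 [36] :=
  r_apply lem_D2 [0] [] (by decide +kernel) d_o24
theorem d_n31  : Bd d_T d_G23 [36,38,40,41,43,44] :=
  r_split [36] [38,40,41,43,44] (by decide +kernel) d_o23 d_n32 d_n33
theorem d_n30  : Bd d_T d_G23 [34] :=
  r_apply lem_D2 [0] [] (by decide +kernel) d_o22
theorem d_n29  : Bd d_T d_G23 [34,36,38,40,41,43,44] :=
  r_split [34] [36,38,40,41,43,44] (by decide +kernel) d_o21 d_n30 d_n31
theorem d_n28  : Bd d_T d_G23 [30] :=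
  r_apply lem_dS [0] [] (by decide +kernel) d_o20
theorem d_n27  : Bd d_T d_G23 [30,34,36,38,40,41,43,44] :=
  r_split [30] [34,36,38,40,41,43,44] (by decide +kernel) d_o19 d_n28 d_n29
theorem d_n26  : Bd d_T d_G22 [30,45,46,47,34,48,36,49,38,50,40,41,51,43,44] :=
  r_kill [45,46,47,48,49,50,51] ⟨52,[],[],[]⟩ d_G23 [30,34,36,38,40,41,43,44] (by decide +kernel) d_o18 d_n27
theorem d_n25  : Bd d_T d_G21 [30,31,32,33,34,35,36,37,38,39,40,41,42,43,44] :=
  r_hit [31,32,33,35,37,39,42] d_h25 ⟨45,[],[30,31,32,33,34,35,36],[]⟩ d_G22 [30,45,46,47,34,48,36,49,38,50,40,41,51,43,44] (by decide +kernel) d_o17 d_n26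
theorem d_n24  : Bd d_T d_G20 [15,16,17,18,19,20,21,22,23,24,25,26,27,28,29] :=
  r_hit [15,16,17,18,19,20,21,22,23,24,25,26,27,28,29] d_h24 ⟨30,[],[0,0,0,16,0,17,0,18,0,19,20,0,21,22,0,0,0,0,0,0,0,0,0,0,0,0,0,0,0,0,0,0,0,0,23,0,24,0,0,0,0,0,25,0,0,0,0,26,0,0,0,0,27,28,0,29],[]⟩ d_G21 [30,31,32,33,34,35,36,37,38,39,40,41,42,43,44] (by decide +kernel) d_o16 d_n25
theorem d_n23  : Bd d_T d_G19 [14,15,16,17,18,19,20,21,22,23,24,25,26,27,28,29] :=
  r_close false 0 [1,5,6,7] [14,15,16,17,18,19,20,21,22,23,24,25,26,27,28,29] [0,0,0,0,0,0,0,0,0,0,0,0,0,0,0,0] [0,1,2,3,4,5,6] [0,0,0,0,0,0,0] 65534 ⟨30,[],[],[]⟩ d_G20 [15,16,17,18,19,20,21,22,23,24,25,26,27,28,29] (by decide +kernel) d_o15 d_n24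
theorem d_n22  : Bd d_T d_G19 [6,7] :=
  r_act [5,6,7] [14,15,16,17,18,19,20,21,22,23,24,25,26,27,28,29] (by decide +kernel) d_n23
theorem d_n21  : Bd d_T d_G18 [6,7] :=
  r_psplit 7 [] (PT.br 0 (PT.br 1 (PT.br 2 (PT.br 3 (PT.br 4 (PT.br 5 (PT.br 6 PT.kid PT.kid) (PT.br 6 PT.kid PT.ref)) (PT.br 5 (PT.br 6 PT.kid PT.kid) PT.ref)) (PT.br 4 (PT.br 5 (PT.br 6 PT.kid PT.ref) (PT.br 6 PT.kid PT.ref)) PT.ref)) (PT.br 3 (PT.br 4 (PT.br 5 (PT.br 6 PT.kid PT.ref) PT.ref) (PT.br 5 (PT.br 6 PT.kid PT.ref) PT.ref)) PT.ref)) (PT.br 2 (PT.br 3 (PT.br 4 (PT.br 5 (PT.br 6 PT.kid PT.kid) PT.ref) PT.ref) (PT.br 4 (PT.br 5 (PT.br 6 PT.kid PT.ref) PT.ref) PT.ref)) PT.ref)) (PT.br 1 (PT.br 2 (PT.br 3 (PT.br 4 (PT.br 5 (PT.br 6 PT.kid PT.ref) (PT.br 6 PT.kid PT.ref)) PT.ref) PT.ref) (PT.br 3 (PT.br 4 (PT.br 5 (PT.br 6 PT.kid PT.ref) PT.ref) PT.ref) PT.ref)) PT.ref)) ⟨15,[8],[],[]⟩ d_G19 [6,7] (by decide +kernel) d_o14 d_n22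
theorem d_n20  : Bd d_T d_G17 [6,7] :=
  r_psplit 13 [] (PT.br 0 (PT.br 1 (PT.br 2 (PT.br 3 (PT.br 4 (PT.br 5 (PT.br 6 PT.kid PT.ref) PT.ref) PT.ref) PT.ref) PT.ref) PT.ref) PT.ref) ⟨14,[7],[],[]⟩ d_G18 [6,7] (by decide +kernel) d_o13 d_n21
theorem d_n19  : Bd d_T d_G6 [6,7] :=
  r_psplit 6 [0,1,2,3,4,5,6] PT.kid ⟨13,[6],[],[]⟩ d_G17 [6,7] (by decide +kernel) d_o12 d_n20
theorem d_n18  : Bd d_T d_G16 [9] :=
  r_apply lem_D2 [0] [] (by decide +kernel) d_o11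
theorem d_n17  : Bd d_T d_G15 [9,12] :=
  r_kill [12] ⟨13,[],[],[]⟩ d_G16 [9] (by decide +kernel) d_o10 d_n18
theorem d_n16  : Bd d_T d_G14 [9,10] :=
  r_hit [10] d_h16 ⟨12,[],[15],[]⟩ d_G15 [9,12] (by decide +kernel) d_o9 d_n17
theorem d_n15  : Bd d_T d_G13 [9,10,11] :=
  r_close false 0 [1,2,3,4] [9,10,11] [0,0,0] [0] [0] 3 ⟨12,[],[],[]⟩ d_G14 [9,10] (by decide +kernel) d_o8 d_n16
theorem d_n14  : Bd d_T d_G13 [6,7] :=
  r_act [2,3,4] [9,10,11] (by decide +kernel) d_n15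
theorem d_n13  : Bd d_T d_G12 [6,7] :=
  r_psplit 7 [] (PT.br 0 PT.kid PT.ref) ⟨11,[5],[],[]⟩ d_G13 [6,7] (by decide +kernel) d_o7 d_n14
theorem d_n12  : Bd d_T d_G11 [6,7] :=
  r_psplit 8 [] (PT.br 0 PT.kid PT.kid) ⟨9,[4],[],[]⟩ d_G12 [6,7] (by decide +kernel) d_o6 d_n13
theorem d_n11  : Bd d_T d_G9 [6,7] :=
  r_psplit 6 [0] PT.kid ⟨8,[3],[],[]⟩ d_G11 [6,7] (by decide +kernel) d_o5 d_n12
theorem d_n10  : Bd d_T d_G10 [] :=
  r_empty (by decide +kernel) 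
theorem d_n9  : Bd d_T d_G8 [6,7] :=
  r_kill [6,7] ⟨8,[],[],[]⟩ d_G10 [] (by decide +kernel) d_o4 d_n10
theorem d_n8  : Bd d_T d_G7 [6,7] :=
  r_case [6] [] [] ⟨8,[],[14],[]⟩ d_G8 [6,7] d_G9 [6,7] (by decide +kernel) d_n9 d_n11
theorem d_n7  : Bd d_T d_G5 [6,7] :=
  r_learn [[6],[6],[6],[6],[6],[6],[6]] [⟨0,1,true⟩,⟨1,2,true⟩,⟨2,3,true⟩,⟨3,4,true⟩,⟨4,5,true⟩,⟨5,6,true⟩,⟨0,6,true⟩] ⟨8,[],[13],[]⟩ d_G7 [6,7] (by decide +kernel) d_o3 d_n8
theorem d_n6  : Bd d_T d_G4 [6,7] :=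
  r_case [6,6,6,6,6,6,6] [⟨0,1,true⟩,⟨1,2,true⟩,⟨2,3,true⟩,⟨3,4,true⟩,⟨4,5,true⟩,⟨5,6,true⟩,⟨0,6,true⟩,⟨0,2,false⟩,⟨0,3,false⟩,⟨0,4,false⟩,⟨0,5,false⟩,⟨1,3,false⟩,⟨1,4,false⟩,⟨1,5,false⟩,⟨1,6,false⟩,⟨2,4,false⟩,⟨2,5,false⟩,⟨2,6,false⟩,⟨3,5,false⟩,⟨3,6,false⟩,⟨4,6,false⟩] [] ⟨8,[],[12],[]⟩ d_G5 [6,7] d_G6 [6,7] (by decide +kernel) d_n7 d_n19
theorem d_n5  : Bd d_T d_G4 [1] :=
  r_act [1] [6,7] (by decide +kernel) d_n6
theorem d_n4  : Bd d_T d_G3 [4,5] :=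
  r_apply lem_bD [1,2] [] (by decide +kernel) d_o2
theorem d_n3  : Bd d_T d_G3 [1] :=
  r_act [0] [4,5] (by decide +kernel) d_n4
theorem d_n2  : Bd d_T d_G1 [1] :=
  r_odd 1 ⟨4,[1],[4,5],[]⟩ d_G3 [1] ⟨6,[2],[6,7,8,9,10,11],[]⟩ d_G4 [1] (by decide +kernel) d_o1 d_n3 d_n5
theorem d_n1  : Bd d_T d_G0 [1] :=
  r_case [1,1,1,1,1] [⟨0,1,true⟩,⟨1,2,true⟩,⟨2,3,true⟩,⟨3,4,true⟩,⟨4,0,true⟩,⟨0,2,false⟩,⟨0,3,false⟩,⟨1,3,false⟩,⟨1,4,false⟩,⟨2,4,false⟩] [] ⟨4,[],[3],[]⟩ d_G1 [1] d_G2 [1] (by decide +kernel) d_n2 d_n42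
theorem d_n0  : Bd d_T (pureCtx 0 2) (pureAct 0) :=
  show Bd _ _ [0] from r_block [0] [1] [1] ⟨1,[],[],[1]⟩ d_G0 [1] (by decide +kernel) d_o0 d_n1
theorem lem_d  : Lem d_T 0 2 := ⟨by decide +kernel, d_n0⟩

end Pool.Agent.Lib.MP_849b2e_co
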