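import Pool.Agent.Lib.MP_849b2e_co.Fast
import Pool.Agent.Lib.MP_849b2e_co.Te1
import Pool.Agent.Lib.MP_849b2e_co.RApply
import Pool.Agent.Lib.MP_849b2e_co.Td

set_option maxRecDepth 100000
set_option linter.all false
namespace Pool.Agent.Lib.MP_849b2e_co

noncomputable def e1_o0c : Pq := (Pq.cons (Pq.L [] 4088 (Pf.B 10 8 (Pf.B 10 5 (Pf.B 10 2 (Pf.B 9 5 (Pf.B 9 2 (Pf.B 7 5 (Pf.B 7 2 (Pf.B 5 2 (Pf.C 2 261) (Pf.B 4 2 (Pf.B 10 7 (Pf.B 9 7 (Pf.B 10 4 (Pf.B 9 4 (Pf.B 7 4 (Pf.C 1 0x1050828487) (Pf.B 7 3 (Pf.C 5 49671) (Pf.C 0 0xa10187))) (Pf.C 5 0x28484)) (Pf.B 10 3 (Pf.C 5 49674) (Pf.C 0 0xa1018a))) (Pf.C 5 0x28487)) (Pf.B 10 6 (Pf.C 5 99210) (Pf.C 0 0x101c30a))) (Pf.C 3 82180))) (Pf.C 3 0x20107))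 (Pf.C 3 0x20287)) (Pf.C 3 0x2c109)) (Pf.C 3 0x2c289)) (Pf.C 3 0x2c10a)) (Pf.C 3 0x2c28a)) (Pf.C 3 0x2c40a)))
 Pq.nil)
theorem e1_o0 : AllRef e1_T e1_G0 (hitObl [1,2] e1_h1) :=
  chkPq_sound e1_o0c _ (by decide +kernel)
noncomputable def e1_o1c : Pq := (Pq.cons (Pq.L [] 4 (Pf.C 2 257))
 Pq.nil)
theorem e1_o1 : AllRef e1_T e1_G2 (twinObl [3,4] 2 [3,1]) :=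
  chkPq_sound e1_o1c _ (by decide +kernel)
noncomputable def e1_o2c : Pq := (Pq.cons (Pq.L [] 1 (Pf.C 2 128))
 (Pq.cons (Pq.L [] 1 (Pf.C 2 128))
 Pq.nil))
theorem e1_o2 : AllRef e1_T e1_G3 (blockObl [5,6] [0,2] [3,1] [3,1]) :=
  chkPq_sound e1_o2c _ (by decide +kernel)
noncomputable def e1_o3c : Pq := Pq.nil
theorem e1_o3 : AllRef e1_T e1_G6 (extObl 13 [] []) :=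
  chkPq_sound e1_o3c _ (by decide +kernel)
noncomputable def e1_o4c : Pq := Pq.nil
theorem e1_o4 : AllRef e1_T e1_G7 (extObl 15 [] []) :=
  chkPq_sound e1_o4c _ (by decide +kernel)
noncomputable def e1_o5c : Pq := (Pq.cons (Pq.D 0 (Pq.cons (Pq.D 1 (Pq.cons (Pq.D 2 (Pq.cons (Pq.D 3 (Pq.cons (Pq.L [] 7 (Pf.C 10 0x608080))
 (Pq.cons (Pq.L [] 7 (Pf.C 10 0x608080))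
 Pq.nil))) (Pq.cons (Pq.D 3 (Pq.cons (Pq.L [] 7 (Pf.C 10 0x608080))
 (Pq.cons (Pq.L [] 6 (Pf.C 3 49408))
 Pq.nil))) Pq.nil))) (Pq.cons (Pq.D 2 (Pq.cons (Pq.D 3 (Pq.cons (Pq.L [] 7 (Pf.C 10 0x608080))
 (Pq.cons (Pq.L [] 5 (Pf.C 3 49280))
 Pq.nil))) (Pq.cons (Pq.L [] 3 (Pf.C 3 32896))
 Pq.nil))) Pq.nil))) (Pq.cons (Pq.D 1 (Pq.cons (Pq.D 2 (Pq.cons (Pq.D 3 (Pq.cons (Pq.L [] 7 (Pf.C 12 0x608080))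
 (Pq.cons (Pq.L [] 4 (Pf.C 2 384))
 Pq.nil))) (Pq.cons (Pq.L [] 2 (Pf.C 2 256))
 Pq.nil))) (Pq.cons (Pq.L [] 1 (Pf.C 2 128))
 Pq.nil))) Pq.nil))) Pq.nil)
theorem e1_o5 : AllRef e1_T e1_G9 (applyObl TD2 1 [14,16] [0,0] [(16,65536)]) :=
  chkPq_sound e1_o5c _ (by decide +kernel)
noncomputable def e1_o6c : Pq := Pq.nil
theorem e1_o6 : AllRef e1_T e1_G10 (ptObl 14 (PT.br 0 PT.kid PT.kid) []) :=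
  chkPq_sound e1_o6c _ (by decide +kernel)
noncomputable def e1_o7c : Pq := Pq.nil
theorem e1_o7 : AllRef e1_T e1_G11 (ptObl 15 PT.kid []) :=
  chkPq_sound e1_o7c _ (by decide +kernel)
noncomputable def e1_o8c : Pq := (Pq.cons (Pq.L [0] 0 (Pf.C 2 1))
 Pq.nil)
theorem e1_o8 : AllRef e1_T e1_G12 (ptObl 21 (PT.br 0 PT.ref PT.kid) []) :=
  chkPq_sound e1_o8c _ (by decide +kernel)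
noncomputable def e1_o9c : Pq := (Pq.cons (Pq.L [0] 0 (Pf.C 2 1))
 Pq.nil)
theorem e1_o9 : AllRef e1_T e1_G13 (ptObl 16 (PT.br 0 PT.ref PT.kid) []) :=
  chkPq_sound e1_o9c _ (by decide +kernel)
noncomputable def e1_o10c : Pq := (Pq.cons (Pq.L [0] 0 (Pf.W 11 0 [] [1] (Pf.cons (Pf.B 2 1 (Pf.T 2 1 (Pf.cons (Pf.T 2 3 (Pf.cons (Pf.W 11 0 [2] [1] (Pf.cons (Pf.B 3 2 (Pf.B 3 1 (Pf.T 3 1 (Pf.cons (Pf.T 3 3 (Pf.cons (Pf.W 11 1 [] [0,2,3] (Pf.cons (Pf.B 4 0 (Pf.B 4 3 (Pf.B 4 2 (Pf.T 4 1 (Pf.cons (Pf.T 4 3 (Pf.cons (Pf.T 4 7 (Pf.cons (Pf.C 17 513) (Pf.cons (Pf.W 11 1 [4] [0,2,3] (Pf.cons (Pf.B 5 4 (Pf.B 5 0 (Pf.B 5 3 (Pf.B 5 2 (Pf.T 5 1 (Pf.cons (Pf.T 5 3 (Pf.cons (Pf.T 5 7 (Pf.cons (Pf.C 17 641) (Pf.cons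 (Pf.W 7 386 [] [0,1,4,5] (Pf.cons (Pf.B 6 5 (Pf.B 6 4 (Pf.B 6 1 (Pf.C 1 0x2810808303) (Pf.B 6 0 (Pf.T 6 0 (Pf.cons (Pf.T 6 1 (Pf.cons (Pf.T 6 3 (Pf.cons (Pf.T 6 7 (Pf.cons (Pf.C 17 769) (Pf.cons (Pf.C 15 262) Pf.nil))) Pf.nil)) Pf.nil)) (Pf.cons (Pf.C 8 134) Pf.nil))) (Pf.C 3 16390))) (Pf.C 5 33540)) (Pf.C 5 33541)) (Pf.cons (Pf.B 6 5 (Pf.B 6 4 (Pf.B 6 1 (Pf.C 1 0x281080c302) (Pf.B 6 0 (Pf.T 6 0 (Pf.cons (Pf.T 6 1 (Pf.cons (Pf.T 6 3 (Pf.cons (Pf.T 6 7 (Pf.cons (Pf.C 17 769) (Pf.cons (Pf.C 15 390) Pf.nil))) Pf.nil)) Pf.nil)) (Pf.cons (Pf.C 8 134) Pf.nil))) (Pf.C 3 16390))) (Pf.C 5 49924)) (Pf.C 5 49925)) (Pf.cons (Pf.C 3 770) (Pf.cons (Pf.C 3 771) Pf.nil))))) Pf.nil))) Pf.nil)) Pf.nil)) (Pf.T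 5 1 (Pf.cons (Pf.T 5 3 (Pf.cons (Pf.T 5 7 (Pf.cons (Pf.C 17 641) (Pf.cons (Pf.C 15 261) Pf.nil))) Pf.nil)) Pf.nil))) (Pf.T 5 1 (Pf.cons (Pf.T 5 3 (Pf.cons (Pf.T 5 7 (Pf.cons (Pf.C 17 641) (Pf.cons (Pf.C 15 389) Pf.nil))) Pf.nil)) Pf.nil))) (Pf.C 3 16389)) (Pf.C 6 16901)) Pf.nil)) Pf.nil))) Pf.nil)) Pf.nil)) (Pf.T 4 1 (Pf.cons (Pf.T 4 3 (Pf.cons (Pf.T 4 7 (Pf.cons (Pf.C 17 513) (Pf.cons (Pf.C 15 260) Pf.nil))) Pf.nil)) Pf.nil))) (Pf.T 4 1 (Pf.cons (Pf.T 4 3 (Pf.cons (Pf.T 4 7 (Pf.cons (Pf.C 17 513) (Pf.cons (Pf.C 15 388) Pf.nil))) Pf.nil)) Pf.nil))) (Pf.C 3 16388)) Pf.nil)) Pf.nil)) Pf.nil)) (Pf.C 3 131)) (Pf.C 6 259)) Pf.nil)) Pf.nil)) Pf.nil)) (Pf.C 3 130)) Pf.nil)))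
 Pq.nil)
theorem e1_o10 : AllRef e1_T e1_G17 (List.map pat1 [27]) :=
  chkPq_sound e1_o10c _ (by decide +kernel)
noncomputable def e1_o11c : Pq := (Pq.cons (Pq.L [] 0 (Pf.X 0 1))
 (Pq.cons (Pq.L [] 1 (Pf.W 14 1 [] [2] (Pf.cons (Pf.B 3 2 (Pf.C 5 32899) (Pf.C 15 386)) Pf.nil)))
 (Pq.cons (Pq.L [0] 1 (Pf.W 20 1 [] [0,2] (Pf.cons (Pf.B 3 2 (Pf.W 16 3 [] [0,1,2] (Pf.cons (Pf.B 4 1 (Pf.B 4 2 (Pf.W 14 4 [] [0,1,2,3] (Pf.cons (Pf.B 5 3 (Pf.B 5 2 (Pf.B 5 1 (Pf.W 11 3 [1,4] [0,2,5] (Pf.cons (Pf.B 6 5 (Pf.B 6 4 (Pf.B 6 1 (Pf.B 6 2 (Pf.B 6 0 (Pf.C 1 0x2050008086) (Pf.C 3 49158)) (Pf.C 5 16646)) (Pf.C 6 49286)) (Pf.C 5 82438)) (Pf.C 10 0x800305)) Pf.nil)) (Pf.C 15 641)) (Pf.C 15 642)) (Pf.C 3 389)) Pf.nil))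 (Pf.C 5 16644)) (Pf.C 6 49284)) Pf.nil)) (Pf.C 21 386)) Pf.nil)))
 (Pq.cons (Pq.L [] 1 (Pf.C 15 130))
 (Pq.cons (Pq.L [] 1 (Pf.C 21 130))
 (Pq.cons (Pq.L [0] 1 (Pf.W 18 1 [] [0,2] (Pf.cons (Pf.B 3 2 (Pf.W 14 3 [] [0,1,2] (Pf.cons (Pf.B 4 1 (Pf.W 11 0 [4] [1,2,3] (Pf.cons (Pf.B 5 4 (Pf.B 5 3 (Pf.B 5 1 (Pf.B 5 2 (Pf.T 5 1 (Pf.cons (Pf.T 5 3 (Pf.cons (Pf.W 11 0 [4,5] [1,2,3] (Pf.cons (Pf.B 6 5 (Pf.B 6 4 (Pf.B 6 3 (Pf.B 6 1 (Pf.B 6 2 (Pf.T 6 1 (Pf.cons (Pf.T 6 3 (Pf.cons (Pf.W 7 773 [] [0,1,2,3,4] (Pf.cons (Pf.B 7 4 (Pf.B 7 3 (Pf.B 7 1 (Pf.C 1 0x2030214386) (Pf.T 7 0 (Pf.cons (Pf.C 12 0x608381) (Pf.cons (Pf.C 8 135) Pf.nil)))) (Pf.C 5 65927)) (Pf.C 5 82820)) (Pf.cons (Pf.B 7 4 (Pf.B 7 3 (Pf.B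 7 1 (Pf.C 1 0x2030218385) (Pf.T 7 0 (Pf.cons (Pf.C 12 0x608381) (Pf.cons (Pf.C 8 135) Pf.nil)))) (Pf.C 5 65927)) (Pf.C 5 99204)) (Pf.cons (Pf.C 3 901) (Pf.cons (Pf.C 3 902) Pf.nil))))) Pf.nil)) Pf.nil)) (Pf.T 6 1 (Pf.cons (Pf.T 6 3 (Pf.cons (Pf.C 15 770) Pf.nil)) Pf.nil))) (Pf.C 3 134)) (Pf.C 5 65926)) (Pf.C 6 518)) (Pf.C 6 646)) Pf.nil)) Pf.nil)) Pf.nil)) (Pf.T 5 1 (Pf.cons (Pf.T 5 3 (Pf.cons (Pf.C 15 642) Pf.nil)) Pf.nil))) (Pf.C 3 133)) (Pf.C 5 65925)) (Pf.C 6 517)) Pf.nil)) (Pf.C 3 132)) Pf.nil)) (Pf.C 6 16643)) Pf.nil)))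
 (Pq.cons (Pq.L [] 0 (Pf.X 0 1))
 (Pq.cons (Pq.L [] 1 (Pf.C 19 130))
 (Pq.cons (Pq.L [] 1 (Pf.W 20 1 [] [2] (Pf.cons (Pf.C 3 33153) Pf.nil)))
 (Pq.cons (Pq.L [0] 1 (Pf.C 3 32769))
 (Pq.cons (Pq.L [] 1 (Pf.C 2 257))
 (Pq.cons (Pq.L [] 1 (Pf.C 2 257))
 Pq.nil))))))))))))
theorem e1_o11 : AllRef e1_T e1_G19 (closeObl (e1_T.sc.get 0) false [24,30,31,20,26,28,29] [0,0,0,0,1,1,1] [0] [1] 59) :=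
  chkPq_sound e1_o11c _ (by decide +kernel)
noncomputable def e1_o12c : Pq := (Pq.cons (Pq.L [] 1 (Pf.C 2 257))
 (Pq.cons (Pq.L [0] 0 (Pf.T 1 8 (Pf.cons (Pf.T 2 8 (Pf.cons (Pf.W 16 1 [] [0,2] (Pf.cons (Pf.B 3 2 (Pf.W 16 2 [] [0,1,3] (Pf.cons (Pf.B 4 1 (Pf.B 4 3 (Pf.W 14 3 [] [0,2,4] (Pf.cons (Pf.B 5 4 (Pf.B 5 2 (Pf.W 14 4 [] [0,2,3,5] (Pf.cons (Pf.B 6 5 (Pf.B 6 3 (Pf.B 6 2 (Pf.W 11 0 [5,6] [2,3,4] (Pf.cons (Pf.B 7 6 (Pf.B 7 5 (Pf.B 7 4 (Pf.B 7 3 (Pf.B 7 2 (Pf.C 1 0x3040414187) (Pf.C 3 263)) (Pf.C 5 82311)) (Pf.C 5 98823)) (Pf.C 6 647)) (Pf.C 6 775)) Pf.nil)) (Pf.C 3 262)) (Pf.C 5 82310)) (Pf.C 5 66309)) Pf.nil)) (Pf.C 3 261)) (Pf.C 5 49796)) Pf.nil)) (Pf.W 14 3 [] [1,4] (Pf.cons (Pf.C 10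 0x804283) Pf.nil))) (Pf.C 3 32900)) Pf.nil)) (Pf.C 3 16643)) Pf.nil)) Pf.nil)) Pf.nil)))
 (Pq.cons (Pq.L [] 1 (Pf.C 2 257))
 (Pq.cons (Pq.L [0] 0 (Pf.T 1 9 (Pf.cons (Pf.T 2 9 (Pf.cons (Pf.W 18 1 [] [0,2] (Pf.cons (Pf.B 3 2 (Pf.W 18 2 [] [0,1,3] (Pf.cons (Pf.B 4 1 (Pf.B 4 3 (Pf.W 14 3 [] [0,2,4] (Pf.cons (Pf.B 5 4 (Pf.B 5 2 (Pf.W 14 4 [] [0,2,3,5] (Pf.cons (Pf.B 6 5 (Pf.B 6 3 (Pf.B 6 2 (Pf.W 11 0 [5,6] [2,3,4] (Pf.cons (Pf.B 7 6 (Pf.B 7 5 (Pf.B 7 4 (Pf.B 7 3 (Pf.B 7 2 (Pf.C 1 0x3040414187) (Pf.C 3 263)) (Pf.C 5 82311)) (Pf.C 5 98823)) (Pf.C 6 647)) (Pf.C 6 775)) Pf.nil)) (Pf.C 3 262)) (Pf.C 5 82310)) (Pf.C 5 66309)) Pf.nil)) (Pf.C 3 261)) (Pf.C 5 49796)) Pf.nil)) (Pf.W 14 3 [] [1,4] (Pf.cons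 (Pf.C 10 0x804283) Pf.nil))) (Pf.C 3 32900)) Pf.nil)) (Pf.C 3 16643)) Pf.nil)) Pf.nil)) Pf.nil)))
 Pq.nil))))
theorem e1_o12 : AllRef e1_T e1_G20 (hitObl [22,23] e1_h25) :=
  chkPq_sound e1_o12c _ (by decide +kernel)
noncomputable def e1_o13c : Pq := (Pq.cons (Pq.L [] 0 (Pf.C 22 1))
 (Pq.cons (Pq.L [] 0 (Pf.C 23 1))
 Pq.nil))
theorem e1_o13 : AllRef e1_T e1_G21 (List.map pat1 [32,33]) :=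
  chkPq_sound e1_o13c _ (by decide +kernel)
noncomputable def e1_o14c : Pq := (Pq.cons (Pq.L [] 7 (Pf.C 10 0x80c101))
 Pq.nil)
theorem e1_o14 : AllRef e1_T e1_G22 (applyObl TD2 1 [19,20] [0,0] []) :=
  chkPq_sound e1_o14c _ (by decide +kernel)
noncomputable def e1_o15c : Pq := Pq.nil
theorem e1_o15 : AllRef e1_T e1_G8 (ptObl 13 PT.kid []) :=
  chkPq_sound e1_o15c _ (by decide +kernel)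
noncomputable def e1_o16c : Pq := Pq.nil
theorem e1_o16 : AllRef e1_T e1_G23 (ptObl 34 (PT.br 0 PT.kid PT.kid) []) :=
  chkPq_sound e1_o16c _ (by decide +kernel)
noncomputable def e1_o17c : Pq := Pq.nil
theorem e1_o17 : AllRef e1_T e1_G24 (ptObl 14 (PT.br 0 PT.kid PT.kid) []) :=
  chkPq_sound e1_o17c _ (by decide +kernel)
noncomputable def e1_o18c : Pq := Pq.nil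
theorem e1_o18 : AllRef e1_T e1_G25 (ptObl 15 (PT.br 0 PT.kid PT.kid) []) :=
  chkPq_sound e1_o18c _ (by decide +kernel)
noncomputable def e1_o19c : Pq := Pq.nil
theorem e1_o19 : AllRef e1_T e1_G26 (ptObl 16 (PT.br 0 PT.kid PT.kid) []) :=
  chkPq_sound e1_o19c _ (by decide +kernel)
noncomputable def e1_o20c : Pq := (Pq.cons (Pq.L [] 0 (Pf.X 0 1))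
 (Pq.cons (Pq.L [0] 1 (Pf.W 9 1 [2] [0] (Pf.cons (Pf.B 3 2 (Pf.B 3 0 (Pf.T 3 1 (Pf.cons (Pf.T 3 11 (Pf.cons (Pf.T 3 12 (Pf.cons (Pf.W 9 1 [2,3] [0] (Pf.cons (Pf.B 4 3 (Pf.C 5 49284) (Pf.B 4 2 (Pf.B 4 0 (Pf.T 4 1 (Pf.cons (Pf.T 4 11 (Pf.cons (Pf.T 4 12 (Pf.cons (Pf.W 11 2 [1] [0,3,4] (Pf.cons (Pf.B 5 1 (Pf.B 5 4 (Pf.B 5 3 (Pf.T 5 1 (Pf.cons (Pf.T 5 11 (Pf.cons (Pf.T 5 12 (Pf.cons (Pf.W 9 5 [2] [0,3,4] (Pf.cons (Pf.B 6 4 (Pf.B 6 3 (Pf.B 6 2 (Pf.B 6 0 (Pf.C 1 0x1050c10180) (Pf.C 5 82688)) (Pf.C 6 33414)) (Pf.C 5 65926)) (Pf.C 5 82692)) (Pf.cons (Pf.C 3 33541) Pf.nil))) (Pf.cons (Pf.W 11 2 [1,5] [0,3,4] (Pf.cons (Pf.B 6 5 (Pf.B 6 1 (Pf.B 6 4 (Pf.B 6 3 (Pf.B 6 0 (Pf.W 13 32773 [] [1,3,4,6] (Pf.cons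 (Pf.C 5 81927) (Pf.cons (Pf.C 5 81927) (Pf.cons (Pf.B 7 6 (Pf.B 7 1 (Pf.B 7 4 (Pf.C 1 0x2800e04206) (Pf.B 7 3 (Pf.C 1 0x2800e04186) (Pf.C 6 0x1c203))) (Pf.C 3 33665)) (Pf.C 3 33670)) (Pf.cons (Pf.B 7 6 (Pf.B 7 1 (Pf.B 7 4 (Pf.C 1 0x2800e04206) (Pf.B 7 3 (Pf.C 1 0x2800e04186) (Pf.C 6 0x1c203))) (Pf.C 3 33665)) (Pf.C 3 33670)) Pf.nil))))) (Pf.C 5 81926)) (Pf.C 5 16774)) (Pf.C 5 16902)) (Pf.C 6 32902)) (Pf.C 6 33414)) Pf.nil)) Pf.nil))) Pf.nil)) (Pf.cons (Pf.T 5 13 (Pf.cons (Pf.W 11 2 [1,5] [0,3,4] (Pf.cons (Pf.B 6 5 (Pf.B 6 1 (Pf.B 6 4 (Pf.B 6 3 (Pf.B 6 0 (Pf.C 1 0x2820c10180) (Pf.T 6 1 (Pf.cons (Pf.T 6 11 (Pf.cons (Pf.T 6 12 (Pf.cons (Pf.W 13 32774 [] [1,3,4,5] (Pf.cons (Pf.C 5 98311) (Pf.cons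 (Pf.C 5 98311) (Pf.cons (Pf.B 7 5 (Pf.B 7 1 (Pf.B 7 4 (Pf.C 1 0x3000e04205) (Pf.B 7 3 (Pf.C 1 0x3000e04185) (Pf.C 6 0x1c203))) (Pf.C 3 33665)) (Pf.C 3 33669)) (Pf.cons (Pf.B 7 5 (Pf.B 7 1 (Pf.B 7 4 (Pf.C 1 0x3000e04205) (Pf.B 7 3 (Pf.C 1 0x3000e04185) (Pf.C 6 0x1c203))) (Pf.C 3 33665)) (Pf.C 3 33669)) Pf.nil))))) Pf.nil)) Pf.nil)) (Pf.cons (Pf.T 6 13 (Pf.cons (Pf.W 9 0 [6] [1,2,3,4,5] (Pf.cons (Pf.B 7 6 (Pf.C 5 98311) (Pf.C 10 0x400386)) (Pf.cons (Pf.B 7 6 (Pf.B 7 5 (Pf.B 7 1 (Pf.B 7 4 (Pf.C 1 0x3000e04205) (Pf.B 7 3 (Pf.C 1 0x3000e04185) (Pf.C 6 0x1c203))) (Pf.C 3 33665)) (Pf.C 3 33669)) (Pf.C 3 33670)) Pf.nil))) Pf.nil)) Pf.nil)))) (Pf.C 5 16774)) (Pf.C 5 16902)) (Pf.C 6 32902)) (Pf.C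 6 33414)) Pf.nil)) (Pf.cons (Pf.W 9 0 [5] [2] (Pf.cons (Pf.B 6 5 (Pf.C 5 81926) (Pf.C 10 0x400305)) (Pf.cons (Pf.W 9 0 [5,6] [2] (Pf.cons (Pf.B 7 5 (Pf.C 5 81927) (Pf.C 10 0x400385)) (Pf.cons (Pf.C 3 99200) Pf.nil))) Pf.nil))) Pf.nil))) Pf.nil))) (Pf.C 5 16773)) (Pf.C 5 16901)) (Pf.C 6 32901)) Pf.nil)) Pf.nil)) Pf.nil)) (Pf.cons (Pf.T 4 13 (Pf.cons (Pf.W 11 2 [1] [0,3,4] (Pf.cons (Pf.B 5 4 (Pf.B 5 3 (Pf.B 5 1 (Pf.T 5 1 (Pf.cons (Pf.T 5 11 (Pf.cons (Pf.T 5 12 (Pf.cons (Pf.W 9 5 [2] [0,3,4] (Pf.cons (Pf.B 6 4 (Pf.B 6 3 (Pf.B 6 2 (Pf.B 6 0 (Pf.C 1 0x1050c10180) (Pf.C 5 82688)) (Pf.C 6 33414)) (Pf.C 5 65926)) (Pf.C 5 82692)) (Pf.cons (Pf.C 3 33541) Pf.nil))) (Pf.cons (Pf.W 11 2 [1,5] [0,3,4]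 (Pf.cons (Pf.B 6 5 (Pf.B 6 4 (Pf.B 6 3 (Pf.B 6 1 (Pf.B 6 0 (Pf.W 9 3 [1,4] [0,2,5,6] (Pf.cons (Pf.B 7 4 (Pf.C 5 65927) (Pf.C 10 0x604384)) (Pf.cons (Pf.B 7 6 (Pf.B 7 5 (Pf.B 7 4 (Pf.B 7 1 (Pf.B 7 0 (Pf.C 1 0x830e14006) (Pf.C 1 0x2800e10086)) (Pf.C 3 33665)) (Pf.C 6 0x1c184)) (Pf.C 3 33669)) (Pf.C 3 33670)) Pf.nil))) (Pf.C 5 81926)) (Pf.C 5 49286)) (Pf.C 5 65926)) (Pf.C 10 0x604304)) (Pf.C 6 33414)) Pf.nil)) Pf.nil))) Pf.nil)) (Pf.cons (Pf.T 5 13 (Pf.cons (Pf.W 11 2 [1,5] [0,3,4] (Pf.cons (Pf.B 6 5 (Pf.B 6 4 (Pf.B 6 3 (Pf.B 6 1 (Pf.B 6 0 (Pf.C 1 0x2820c10180) (Pf.W 9 3 [1,4] [0,2,5,6] (Pf.cons (Pf.B 7 4 (Pf.C 5 65927) (Pf.C 10 0x604384)) (Pf.cons (Pf.B 7 6 (Pf.B 7 5 (Pf.B 7 4 (Pf.B 7 1 (Pf.B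 7 0 (Pf.C 1 0x830e18005) (Pf.C 1 0x3000e10085)) (Pf.C 3 33665)) (Pf.C 6 0x1c184)) (Pf.C 3 33669)) (Pf.C 3 33670)) Pf.nil)))) (Pf.C 5 49286)) (Pf.C 5 65926)) (Pf.C 10 0x604304)) (Pf.C 6 33414)) Pf.nil)) (Pf.cons (Pf.W 9 0 [5] [2] (Pf.cons (Pf.B 6 5 (Pf.C 5 81926) (Pf.C 10 0x400305)) (Pf.cons (Pf.W 9 0 [5,6] [2] (Pf.cons (Pf.B 7 5 (Pf.C 5 81927) (Pf.C 10 0x400385)) (Pf.cons (Pf.C 3 99200) Pf.nil))) Pf.nil))) Pf.nil))) Pf.nil))) (Pf.C 5 49285)) (Pf.C 5 65925)) (Pf.C 10 0x604284)) Pf.nil)) Pf.nil)) Pf.nil))) (Pf.C 5 16896)) (Pf.C 6 32900))) (Pf.cons (Pf.C 3 33281) Pf.nil))) Pf.nil)) Pf.nil)) (Pf.cons (Pf.T 3 13 (Pf.cons (Pf.W 9 1 [2,3] [0] (Pf.cons (Pf.B 4 3 (Pf.C 5 49284) (Pf.B 4 2 (Pf.B 4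 0 (Pf.T 4 1 (Pf.cons (Pf.T 4 11 (Pf.cons (Pf.T 4 12 (Pf.cons (Pf.W 11 2 [1] [0,3,4] (Pf.cons (Pf.B 5 3 (Pf.B 5 4 (Pf.B 5 1 (Pf.T 5 1 (Pf.cons (Pf.T 5 11 (Pf.cons (Pf.T 5 12 (Pf.cons (Pf.W 9 5 [2] [0,3,4] (Pf.cons (Pf.B 6 4 (Pf.B 6 3 (Pf.B 6 2 (Pf.B 6 0 (Pf.C 1 0x1050c10180) (Pf.C 5 82688)) (Pf.C 6 33414)) (Pf.C 5 65926)) (Pf.C 5 82692)) (Pf.cons (Pf.C 3 33541) Pf.nil))) (Pf.cons (Pf.W 11 2 [1,5] [0,3,4] (Pf.cons (Pf.B 6 5 (Pf.B 6 3 (Pf.B 6 4 (Pf.B 6 1 (Pf.B 6 0 (Pf.W 9 4 [1,3] [0,2,5,6] (Pf.cons (Pf.B 7 3 (Pf.C 5 49671) (Pf.C 10 0x804383)) (Pf.cons (Pf.B 7 6 (Pf.B 7 5 (Pf.B 7 3 (Pf.B 7 1 (Pf.B 7 0 (Pf.C 1 0x840e14006) (Pf.C 1 0x2800e0c086)) (Pf.C 3 33665)) (Pf.C 6 0x1c203)) (Pf.C 3 33669))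 (Pf.C 3 33670)) Pf.nil))) (Pf.C 5 81926)) (Pf.C 5 49286)) (Pf.C 5 49670)) (Pf.C 10 0x804303)) (Pf.C 6 33414)) Pf.nil)) Pf.nil))) Pf.nil)) (Pf.cons (Pf.T 5 13 (Pf.cons (Pf.W 11 2 [1,5] [0,3,4] (Pf.cons (Pf.B 6 5 (Pf.B 6 3 (Pf.B 6 4 (Pf.B 6 1 (Pf.B 6 0 (Pf.C 1 0x2820c10180) (Pf.W 9 4 [1,3] [0,2,5,6] (Pf.cons (Pf.B 7 3 (Pf.C 5 49671) (Pf.C 10 0x804383)) (Pf.cons (Pf.B 7 6 (Pf.B 7 5 (Pf.B 7 3 (Pf.B 7 1 (Pf.B 7 0 (Pf.C 1 0x840e18005) (Pf.C 1 0x3000e0c085)) (Pf.C 3 33665)) (Pf.C 6 0x1c203)) (Pf.C 3 33669)) (Pf.C 3 33670)) Pf.nil)))) (Pf.C 5 49286)) (Pf.C 5 49670)) (Pf.C 10 0x804303)) (Pf.C 6 33414)) Pf.nil)) (Pf.cons (Pf.W 9 0 [5] [2] (Pf.cons (Pf.B 6 5 (Pf.C 5 81926) (Pf.C 10 0x400305)) (Pf.cons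 (Pf.W 9 0 [5,6] [2] (Pf.cons (Pf.B 7 5 (Pf.C 5 81927) (Pf.C 10 0x400385)) (Pf.cons (Pf.C 3 99200) Pf.nil))) Pf.nil))) Pf.nil))) Pf.nil))) (Pf.C 5 49285)) (Pf.C 5 49669)) (Pf.C 10 0x804283)) Pf.nil)) Pf.nil)) Pf.nil)) (Pf.cons (Pf.T 4 13 (Pf.cons (Pf.W 11 2 [1] [0,3,4] (Pf.cons (Pf.B 5 4 (Pf.B 5 3 (Pf.B 5 1 (Pf.T 5 1 (Pf.cons (Pf.T 5 11 (Pf.cons (Pf.T 5 12 (Pf.cons (Pf.W 9 5 [2] [0,3,4] (Pf.cons (Pf.B 6 4 (Pf.B 6 3 (Pf.B 6 2 (Pf.B 6 0 (Pf.C 1 0x1050c10180) (Pf.C 5 82688)) (Pf.C 6 33414)) (Pf.C 5 65926)) (Pf.C 5 82692)) (Pf.cons (Pf.C 3 33541) Pf.nil))) (Pf.cons (Pf.W 11 2 [1,5] [0,3,4] (Pf.cons (Pf.B 6 5 (Pf.B 6 4 (Pf.B 6 3 (Pf.B 6 0 (Pf.W 13 32773 [] [1,3,4,6] (Pf.cons (Pf.C 5 81927) (Pf.cons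 (Pf.C 5 81927) (Pf.cons (Pf.B 7 6 (Pf.B 7 4 (Pf.B 7 3 (Pf.C 1 0x2800e10186) (Pf.C 10 0x804383)) (Pf.C 10 0x604384)) (Pf.C 3 33670)) (Pf.cons (Pf.B 7 6 (Pf.B 7 4 (Pf.B 7 3 (Pf.C 1 0x2800e10186) (Pf.C 10 0x804383)) (Pf.C 10 0x604384)) (Pf.C 3 33670)) Pf.nil))))) (Pf.C 5 81926)) (Pf.C 5 65926)) (Pf.C 10 0x604304)) (Pf.C 6 33414)) Pf.nil)) Pf.nil))) Pf.nil)) (Pf.cons (Pf.T 5 13 (Pf.cons (Pf.W 11 2 [1,5] [0,3,4] (Pf.cons (Pf.B 6 5 (Pf.B 6 4 (Pf.B 6 3 (Pf.B 6 0 (Pf.C 1 0x2820c10180) (Pf.T 6 1 (Pf.cons (Pf.T 6 11 (Pf.cons (Pf.T 6 12 (Pf.cons (Pf.W 13 32774 [] [1,3,4,5] (Pf.cons (Pf.C 5 98311) (Pf.cons (Pf.C 5 98311) (Pf.cons (Pf.B 7 5 (Pf.B 7 4 (Pf.B 7 3 (Pf.C 1 0x3000e10185) (Pf.C 10 0x804383))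 (Pf.C 10 0x604384)) (Pf.C 3 33669)) (Pf.cons (Pf.B 7 5 (Pf.B 7 4 (Pf.B 7 3 (Pf.C 1 0x3000e10185) (Pf.C 10 0x804383)) (Pf.C 10 0x604384)) (Pf.C 3 33669)) Pf.nil))))) Pf.nil)) Pf.nil)) (Pf.cons (Pf.T 6 13 (Pf.cons (Pf.W 9 0 [6] [1,2,3,4,5] (Pf.cons (Pf.B 7 6 (Pf.C 5 98311) (Pf.C 10 0x400386)) (Pf.cons (Pf.B 7 6 (Pf.B 7 5 (Pf.B 7 4 (Pf.B 7 3 (Pf.C 1 0x3000e10185) (Pf.C 10 0x804383)) (Pf.C 10 0x604384)) (Pf.C 3 33669)) (Pf.C 3 33670)) Pf.nil))) Pf.nil)) Pf.nil)))) (Pf.C 5 65926)) (Pf.C 10 0x604304)) (Pf.C 6 33414)) Pf.nil)) (Pf.cons (Pf.W 9 0 [5] [2] (Pf.cons (Pf.B 6 5 (Pf.C 5 81926) (Pf.C 10 0x400305)) (Pf.cons (Pf.W 9 0 [5,6] [2] (Pf.cons (Pf.B 7 5 (Pf.C 5 81927) (Pf.C 10 0x400385)) (Pf.cons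 (Pf.C 3 99200) Pf.nil))) Pf.nil))) Pf.nil))) Pf.nil))) (Pf.C 5 49285)) (Pf.C 5 65925)) (Pf.C 10 0x604284)) Pf.nil)) Pf.nil)) Pf.nil))) (Pf.C 5 16896)) (Pf.C 6 32900))) (Pf.cons (Pf.C 3 33281) Pf.nil))) Pf.nil)) Pf.nil))) (Pf.C 5 16768)) (Pf.C 6 32899)) (Pf.cons (Pf.C 3 33153) Pf.nil))))
 (Pq.cons (Pq.L [0] 1 (Pf.W 9 1 [0,2] [] (Pf.cons (Pf.B 3 2 (Pf.B 3 0 (Pf.C 5 131) (Pf.T 3 1 (Pf.cons (Pf.T 3 11 (Pf.cons (Pf.T 3 12 (Pf.cons (Pf.W 11 2 [1] [0,3] (Pf.cons (Pf.B 4 1 (Pf.B 4 3 (Pf.B 4 0 (Pf.T 4 1 (Pf.cons (Pf.T 4 11 (Pf.cons (Pf.T 4 12 (Pf.cons (Pf.W 11 2 [1,4] [0,3] (Pf.cons (Pf.B 5 4 (Pf.B 5 1 (Pf.B 5 3 (Pf.B 5 0 (Pf.T 5 1 (Pf.cons (Pf.T 5 11 (Pf.cons (Pf.T 5 12 (Pf.cons (Pf.W 9 0 [1,3]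 [2,4,5] (Pf.cons (Pf.B 6 5 (Pf.B 6 4 (Pf.B 6 3 (Pf.C 5 49158) (Pf.B 6 1 (Pf.C 5 16390) (Pf.B 6 2 (Pf.T 6 1 (Pf.cons (Pf.T 6 11 (Pf.cons (Pf.T 6 12 (Pf.cons (Pf.W 13 32769 [] [3,4,5,6] (Pf.cons (Pf.C 5 16391) (Pf.cons (Pf.C 5 16391) (Pf.cons (Pf.B 7 6 (Pf.B 7 5 (Pf.B 7 4 (Pf.B 7 3 (Pf.B 7 2 (Pf.C 2 263) (Pf.T 7 14 (Pf.cons (Pf.W 9 4 [2] [3,5,6,7] (Pf.cons (Pf.B 8 6 (Pf.B 8 5 (Pf.B 8 3 (Pf.B 8 7 (Pf.B 8 2 (Pf.C 1 0x3820a18188) (Pf.C 6 33288)) (Pf.C 1 0x2080e18185)) (Pf.C 5 98696)) (Pf.C 5 66565)) (Pf.C 5 66566)) (Pf.cons (Pf.C 3 33796) Pf.nil))) Pf.nil))) (Pf.C 6 0x1c003)) (Pf.C 3 33668)) (Pf.C 3 33669)) (Pf.C 6 0x1c006)) (Pf.cons (Pf.B 7 6 (Pf.B 7 5 (Pf.B 7 4 (Pf.B 7 3 (Pf.B 7 2 (Pf.C 2 263)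 (Pf.T 7 15 (Pf.cons (Pf.W 9 4 [2] [3,5,6,7] (Pf.cons (Pf.B 8 6 (Pf.B 8 5 (Pf.B 8 3 (Pf.B 8 7 (Pf.B 8 2 (Pf.C 1 0x3820a18188) (Pf.C 6 33288)) (Pf.C 1 0x2080e18185)) (Pf.C 5 98696)) (Pf.C 5 66565)) (Pf.C 5 66566)) (Pf.cons (Pf.C 3 33796) Pf.nil))) Pf.nil))) (Pf.C 6 0x1c003)) (Pf.C 3 33668)) (Pf.C 3 33669)) (Pf.C 6 0x1c006)) Pf.nil))))) Pf.nil)) Pf.nil)) (Pf.cons (Pf.C 10 0x604006) Pf.nil))) (Pf.C 6 32902)))) (Pf.C 5 772)) (Pf.C 5 773)) (Pf.cons (Pf.B 6 5 (Pf.B 6 4 (Pf.B 6 3 (Pf.B 6 1 (Pf.W 13 32769 [] [6,3,4,5] (Pf.cons (Pf.C 5 16391) (Pf.cons (Pf.C 5 16391) (Pf.cons (Pf.T 6 14 (Pf.cons (Pf.W 9 4 [2] [0,1,3,5,6] (Pf.cons (Pf.B 7 5 (Pf.B 7 3 (Pf.B 7 1 (Pf.B 7 6 (Pf.B 7 0 (Pf.C 1 0x3000210385)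 (Pf.C 5 16391)) (Pf.C 1 0x2070c0c085)) (Pf.C 5 49287)) (Pf.C 5 66435)) (Pf.C 5 66437)) (Pf.cons (Pf.C 3 33668) Pf.nil))) Pf.nil)) (Pf.cons (Pf.C 3 99200) (Pf.cons (Pf.T 6 15 (Pf.cons (Pf.W 9 4 [2] [0,1,3,5,6] (Pf.cons (Pf.B 7 5 (Pf.B 7 3 (Pf.B 7 1 (Pf.B 7 6 (Pf.B 7 0 (Pf.C 1 0x3000210385) (Pf.C 5 16391)) (Pf.C 1 0x2070c0c085)) (Pf.C 5 49287)) (Pf.C 5 66435)) (Pf.C 5 66437)) (Pf.cons (Pf.C 3 33668) Pf.nil))) Pf.nil)) (Pf.cons (Pf.C 3 99200) Pf.nil))))))) (Pf.C 3 33537)) (Pf.C 6 98307)) (Pf.C 3 33540)) (Pf.C 3 33541)) Pf.nil))) Pf.nil)) Pf.nil)) (Pf.cons (Pf.T 5 13 (Pf.cons (Pf.W 9 0 [1,3] [2,4,5] (Pf.cons (Pf.B 6 5 (Pf.B 6 4 (Pf.B 6 3 (Pf.C 5 49158) (Pf.B 6 1 (Pf.C 5 16390) (Pf.B 6 2 (Pf.T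 6 1 (Pf.cons (Pf.T 6 11 (Pf.cons (Pf.T 6 12 (Pf.cons (Pf.W 13 32769 [] [3,4,5,6] (Pf.cons (Pf.C 5 16391) (Pf.cons (Pf.C 5 16391) (Pf.cons (Pf.B 7 6 (Pf.B 7 5 (Pf.B 7 4 (Pf.B 7 3 (Pf.B 7 2 (Pf.C 2 263) (Pf.T 7 14 (Pf.cons (Pf.W 9 4 [2] [3,5,6,7] (Pf.cons (Pf.B 8 6 (Pf.B 8 5 (Pf.B 8 3 (Pf.B 8 7 (Pf.B 8 2 (Pf.C 1 0x3820a18188) (Pf.C 6 33288)) (Pf.C 1 0x2080e18185)) (Pf.C 5 98696)) (Pf.C 5 66565)) (Pf.C 5 66566)) (Pf.cons (Pf.C 3 33796) Pf.nil))) Pf.nil))) (Pf.C 6 0x1c003)) (Pf.C 3 33668)) (Pf.C 3 33669)) (Pf.C 6 0x1c006)) (Pf.cons (Pf.B 7 6 (Pf.B 7 5 (Pf.B 7 4 (Pf.B 7 3 (Pf.B 7 2 (Pf.C 2 263) (Pf.T 7 15 (Pf.cons (Pf.W 9 4 [2] [3,5,6,7] (Pf.cons (Pf.B 8 6 (Pf.B 8 5 (Pf.B 8 3 (Pf.B 8 7 (Pf.B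 8 2 (Pf.C 1 0x3820a18188) (Pf.C 6 33288)) (Pf.C 1 0x2080e18185)) (Pf.C 5 98696)) (Pf.C 5 66565)) (Pf.C 5 66566)) (Pf.cons (Pf.C 3 33796) Pf.nil))) Pf.nil))) (Pf.C 6 0x1c003)) (Pf.C 3 33668)) (Pf.C 3 33669)) (Pf.C 6 0x1c006)) Pf.nil))))) Pf.nil)) Pf.nil)) (Pf.cons (Pf.C 10 0x604006) Pf.nil))) (Pf.C 6 32902)))) (Pf.C 5 772)) (Pf.C 5 773)) (Pf.cons (Pf.B 6 5 (Pf.B 6 4 (Pf.B 6 3 (Pf.B 6 1 (Pf.W 13 32769 [] [6,3,4,5] (Pf.cons (Pf.C 5 16391) (Pf.cons (Pf.C 5 16391) (Pf.cons (Pf.T 6 14 (Pf.cons (Pf.W 9 4 [2] [0,1,3,5,6] (Pf.cons (Pf.B 7 5 (Pf.B 7 3 (Pf.B 7 1 (Pf.B 7 6 (Pf.B 7 0 (Pf.C 1 0x3000210385) (Pf.C 5 16391)) (Pf.C 1 0x2070c0c085)) (Pf.C 5 49287)) (Pf.C 5 66435)) (Pf.C 5 66437)) (Pf.cons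 (Pf.C 3 33668) Pf.nil))) Pf.nil)) (Pf.cons (Pf.C 3 99200) (Pf.cons (Pf.T 6 15 (Pf.cons (Pf.W 9 4 [2] [0,1,3,5,6] (Pf.cons (Pf.B 7 5 (Pf.B 7 3 (Pf.B 7 1 (Pf.B 7 6 (Pf.B 7 0 (Pf.C 1 0x3000210385) (Pf.C 5 16391)) (Pf.C 1 0x2070c0c085)) (Pf.C 5 49287)) (Pf.C 5 66435)) (Pf.C 5 66437)) (Pf.cons (Pf.C 3 33668) Pf.nil))) Pf.nil)) (Pf.cons (Pf.C 3 99200) Pf.nil))))))) (Pf.C 3 33537)) (Pf.C 6 98307)) (Pf.C 3 33540)) (Pf.C 3 33541)) Pf.nil))) Pf.nil)) Pf.nil))) (Pf.C 5 16389)) (Pf.C 5 16773)) (Pf.C 6 32901)) (Pf.C 6 33285)) Pf.nil)) Pf.nil)) Pf.nil)) (Pf.cons (Pf.T 4 13 (Pf.cons (Pf.W 11 2 [1,4] [0,3] (Pf.cons (Pf.B 5 4 (Pf.B 5 1 (Pf.B 5 3 (Pf.B 5 0 (Pf.T 5 1 (Pf.cons (Pf.T 5 11 (Pf.cons (Pf.T 5 12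 (Pf.cons (Pf.W 9 0 [1,3] [2,4,5] (Pf.cons (Pf.B 6 5 (Pf.B 6 4 (Pf.B 6 3 (Pf.C 5 49158) (Pf.B 6 1 (Pf.C 5 16390) (Pf.B 6 2 (Pf.T 6 1 (Pf.cons (Pf.T 6 11 (Pf.cons (Pf.T 6 12 (Pf.cons (Pf.W 13 32769 [] [3,4,5,6] (Pf.cons (Pf.C 5 16391) (Pf.cons (Pf.C 5 16391) (Pf.cons (Pf.B 7 6 (Pf.B 7 5 (Pf.B 7 4 (Pf.B 7 3 (Pf.B 7 2 (Pf.C 2 263) (Pf.T 7 14 (Pf.cons (Pf.W 9 5 [2] [3,4,6,7] (Pf.cons (Pf.B 8 6 (Pf.B 8 4 (Pf.B 8 3 (Pf.B 8 7 (Pf.B 8 2 (Pf.C 1 0x3820818188) (Pf.C 6 33416)) (Pf.C 1 0x2880e18184)) (Pf.C 5 98696)) (Pf.C 5 82948)) (Pf.C 5 82950)) (Pf.cons (Pf.C 3 33797) Pf.nil))) Pf.nil))) (Pf.C 6 0x1c003)) (Pf.C 3 33668)) (Pf.C 3 33669)) (Pf.C 6 0x1c006)) (Pf.cons (Pf.B 7 6 (Pf.B 7 5 (Pf.B 7 4 (Pf.B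 7 3 (Pf.B 7 2 (Pf.C 2 263) (Pf.T 7 15 (Pf.cons (Pf.W 9 5 [2] [3,4,6,7] (Pf.cons (Pf.B 8 6 (Pf.B 8 4 (Pf.B 8 3 (Pf.B 8 7 (Pf.B 8 2 (Pf.C 1 0x3820818188) (Pf.C 6 33416)) (Pf.C 1 0x2880e18184)) (Pf.C 5 98696)) (Pf.C 5 82948)) (Pf.C 5 82950)) (Pf.cons (Pf.C 3 33797) Pf.nil))) Pf.nil))) (Pf.C 6 0x1c003)) (Pf.C 3 33668)) (Pf.C 3 33669)) (Pf.C 6 0x1c006)) Pf.nil))))) Pf.nil)) Pf.nil)) (Pf.cons (Pf.C 10 0x604006) Pf.nil))) (Pf.C 6 32902)))) (Pf.C 5 772)) (Pf.C 5 773)) (Pf.cons (Pf.B 6 5 (Pf.B 6 4 (Pf.B 6 3 (Pf.B 6 1 (Pf.W 13 32769 [] [6,3,4,5] (Pf.cons (Pf.C 5 16391) (Pf.cons (Pf.C 5 16391) (Pf.cons (Pf.T 6 14 (Pf.cons (Pf.W 9 5 [2] [0,1,3,4,6] (Pf.cons (Pf.B 7 4 (Pf.B 7 3 (Pf.B 7 1 (Pf.B 7 6 (Pf.B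 7 0 (Pf.C 1 0x3000214384) (Pf.C 5 16391)) (Pf.C 1 0x2870c0c084)) (Pf.C 5 49287)) (Pf.C 5 82819)) (Pf.C 5 82820)) (Pf.cons (Pf.C 3 33669) Pf.nil))) Pf.nil)) (Pf.cons (Pf.C 3 99200) (Pf.cons (Pf.T 6 15 (Pf.cons (Pf.W 9 5 [2] [0,1,3,4,6] (Pf.cons (Pf.B 7 4 (Pf.B 7 3 (Pf.B 7 1 (Pf.B 7 6 (Pf.B 7 0 (Pf.C 1 0x3000214384) (Pf.C 5 16391)) (Pf.C 1 0x2870c0c084)) (Pf.C 5 49287)) (Pf.C 5 82819)) (Pf.C 5 82820)) (Pf.cons (Pf.C 3 33669) Pf.nil))) Pf.nil)) (Pf.cons (Pf.C 3 99200) Pf.nil))))))) (Pf.C 3 33537)) (Pf.C 6 98307)) (Pf.C 3 33540)) (Pf.C 3 33541)) Pf.nil))) Pf.nil)) Pf.nil)) (Pf.cons (Pf.T 5 13 (Pf.cons (Pf.W 9 0 [1,3] [2,4,5] (Pf.cons (Pf.B 6 5 (Pf.B 6 4 (Pf.B 6 3 (Pf.C 5 49158) (Pf.B 6 1 (Pf.C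 5 16390) (Pf.B 6 2 (Pf.T 6 1 (Pf.cons (Pf.T 6 11 (Pf.cons (Pf.T 6 12 (Pf.cons (Pf.W 13 32769 [] [3,4,5,6] (Pf.cons (Pf.C 5 16391) (Pf.cons (Pf.C 5 16391) (Pf.cons (Pf.B 7 6 (Pf.B 7 5 (Pf.B 7 4 (Pf.B 7 3 (Pf.B 7 2 (Pf.C 2 263) (Pf.T 7 14 (Pf.cons (Pf.W 7 644 [] [2,3,6,7] (Pf.cons (Pf.B 8 6 (Pf.B 8 3 (Pf.B 8 7 (Pf.B 8 2 (Pf.C 1 0x3820a18188) (Pf.C 6 33288)) (Pf.C 1 0x2080e18185)) (Pf.C 5 98696)) (Pf.C 5 66566)) (Pf.cons (Pf.B 8 6 (Pf.B 8 3 (Pf.B 8 7 (Pf.B 8 2 (Pf.C 1 0x3820818188) (Pf.C 6 33416)) (Pf.C 1 0x2880e18184)) (Pf.C 5 98696)) (Pf.C 5 82950)) (Pf.cons (Pf.C 3 33796) (Pf.cons (Pf.C 3 33797) Pf.nil))))) Pf.nil))) (Pf.C 6 0x1c003)) (Pf.C 3 33668)) (Pf.C 3 33669)) (Pf.C 6 0x1c006)) (Pf.cons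 (Pf.B 7 6 (Pf.B 7 5 (Pf.B 7 4 (Pf.B 7 3 (Pf.B 7 2 (Pf.C 2 263) (Pf.T 7 15 (Pf.cons (Pf.W 7 644 [] [2,3,6,7] (Pf.cons (Pf.B 8 6 (Pf.B 8 3 (Pf.B 8 7 (Pf.B 8 2 (Pf.C 1 0x3820a18188) (Pf.C 6 33288)) (Pf.C 1 0x2080e18185)) (Pf.C 5 98696)) (Pf.C 5 66566)) (Pf.cons (Pf.B 8 6 (Pf.B 8 3 (Pf.B 8 7 (Pf.B 8 2 (Pf.C 1 0x3820818188) (Pf.C 6 33416)) (Pf.C 1 0x2880e18184)) (Pf.C 5 98696)) (Pf.C 5 82950)) (Pf.cons (Pf.C 3 33796) (Pf.cons (Pf.C 3 33797) Pf.nil))))) Pf.nil))) (Pf.C 6 0x1c003)) (Pf.C 3 33668)) (Pf.C 3 33669)) (Pf.C 6 0x1c006)) Pf.nil))))) Pf.nil)) Pf.nil)) (Pf.cons (Pf.C 10 0x604006) Pf.nil))) (Pf.C 6 32902)))) (Pf.C 5 772)) (Pf.C 5 773)) (Pf.cons (Pf.B 6 5 (Pf.B 6 4 (Pf.B 6 3 (Pf.B 6 1 (Pf.W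 13 32769 [] [6,3,4,5] (Pf.cons (Pf.C 5 16391) (Pf.cons (Pf.C 5 16391) (Pf.cons (Pf.T 6 14 (Pf.cons (Pf.W 7 644 [] [0,1,2,3,6] (Pf.cons (Pf.B 7 3 (Pf.B 7 1 (Pf.B 7 6 (Pf.B 7 0 (Pf.C 1 0x3000210385) (Pf.C 5 16391)) (Pf.C 1 0x2070c0c085)) (Pf.C 5 49287)) (Pf.C 5 66435)) (Pf.cons (Pf.B 7 3 (Pf.B 7 1 (Pf.B 7 6 (Pf.B 7 0 (Pf.C 1 0x3000214384) (Pf.C 5 16391)) (Pf.C 1 0x2870c0c084)) (Pf.C 5 49287)) (Pf.C 5 82819)) (Pf.cons (Pf.C 3 33668) (Pf.cons (Pf.C 3 33669) Pf.nil))))) Pf.nil)) (Pf.cons (Pf.C 3 99200) (Pf.cons (Pf.T 6 15 (Pf.cons (Pf.W 7 644 [] [0,1,2,3,6] (Pf.cons (Pf.B 7 3 (Pf.B 7 1 (Pf.B 7 6 (Pf.B 7 0 (Pf.C 1 0x3000210385) (Pf.C 5 16391)) (Pf.C 1 0x2070c0c085)) (Pf.C 5 49287)) (Pf.C 5 66435))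 (Pf.cons (Pf.B 7 3 (Pf.B 7 1 (Pf.B 7 6 (Pf.B 7 0 (Pf.C 1 0x3000214384) (Pf.C 5 16391)) (Pf.C 1 0x2870c0c084)) (Pf.C 5 49287)) (Pf.C 5 82819)) (Pf.cons (Pf.C 3 33668) (Pf.cons (Pf.C 3 33669) Pf.nil))))) Pf.nil)) (Pf.cons (Pf.C 3 99200) Pf.nil))))))) (Pf.C 3 33537)) (Pf.C 6 98307)) (Pf.C 3 33540)) (Pf.C 3 33541)) Pf.nil))) Pf.nil)) Pf.nil))) (Pf.C 5 16389)) (Pf.C 5 16773)) (Pf.C 6 32901)) (Pf.C 6 33285)) Pf.nil)) Pf.nil)) Pf.nil))) (Pf.C 5 16388)) (Pf.C 5 16772)) (Pf.C 6 32900)) Pf.nil)) Pf.nil)) Pf.nil)) (Pf.cons (Pf.T 3 13 (Pf.cons (Pf.W 9 0 [1,3] [2] (Pf.cons (Pf.B 4 3 (Pf.C 5 49156) (Pf.C 10 0x200203)) (Pf.cons (Pf.B 4 3 (Pf.B 4 1 (Pf.W 13 32769 [] [4,3] (Pf.cons (Pf.C 5 16389) (Pf.cons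 (Pf.C 5 16389) (Pf.cons (Pf.T 4 14 (Pf.cons (Pf.W 11 2 [1] [0,3,4] (Pf.cons (Pf.B 5 4 (Pf.B 5 3 (Pf.B 5 1 (Pf.B 5 0 (Pf.T 5 1 (Pf.cons (Pf.T 5 11 (Pf.cons (Pf.T 5 12 (Pf.cons (Pf.W 11 2 [1,5] [0,3,4] (Pf.cons (Pf.B 6 5 (Pf.B 6 4 (Pf.B 6 3 (Pf.B 6 1 (Pf.B 6 0 (Pf.W 9 5 [2] [0,1,3,4,6] (Pf.cons (Pf.B 7 6 (Pf.B 7 3 (Pf.B 7 1 (Pf.B 7 4 (Pf.B 7 0 (Pf.C 1 0x2000214386) (Pf.C 5 16391)) (Pf.C 1 0x287080c086)) (Pf.C 5 49287)) (Pf.C 5 82819)) (Pf.C 5 82822)) (Pf.cons (Pf.C 3 33669) Pf.nil))) (Pf.C 5 16390)) (Pf.C 5 49286)) (Pf.C 10 0x200303)) (Pf.C 3 33286)) (Pf.C 6 33414)) Pf.nil)) Pf.nil)) Pf.nil)) (Pf.cons (Pf.T 5 13 (Pf.cons (Pf.W 11 2 [1,5] [0,3,4] (Pf.cons (Pf.B 6 5 (Pf.B 6 4 (Pf.B 6 3 (Pf.B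 6 1 (Pf.B 6 0 (Pf.W 7 773 [] [0,1,2,3,4] (Pf.cons (Pf.B 7 3 (Pf.B 7 1 (Pf.B 7 4 (Pf.B 7 0 (Pf.C 1 0x2000214386) (Pf.C 5 16391)) (Pf.C 1 0x287080c086)) (Pf.C 5 49287)) (Pf.C 5 82819)) (Pf.cons (Pf.B 7 3 (Pf.B 7 1 (Pf.B 7 4 (Pf.B 7 0 (Pf.C 1 0x2000218385) (Pf.C 5 16391)) (Pf.C 1 0x307080c085)) (Pf.C 5 49287)) (Pf.C 5 99203)) (Pf.cons (Pf.C 3 33669) (Pf.cons (Pf.C 3 33670) Pf.nil))))) (Pf.C 5 16390)) (Pf.C 5 49286)) (Pf.C 10 0x200303)) (Pf.C 3 33286)) (Pf.C 6 33414)) Pf.nil)) Pf.nil)) Pf.nil))) (Pf.C 5 16389)) (Pf.C 5 49285)) (Pf.C 10 0x200283)) (Pf.C 3 33285)) Pf.nil)) Pf.nil)) (Pf.cons (Pf.C 3 66176) (Pf.cons (Pf.T 4 15 (Pf.cons (Pf.W 11 2 [1] [0,3,4] (Pf.cons (Pf.B 5 4 (Pf.B 5 3 (Pf.B 5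 1 (Pf.B 5 0 (Pf.T 5 1 (Pf.cons (Pf.T 5 11 (Pf.cons (Pf.T 5 12 (Pf.cons (Pf.W 11 2 [1,5] [0,3,4] (Pf.cons (Pf.B 6 5 (Pf.B 6 4 (Pf.B 6 3 (Pf.B 6 1 (Pf.B 6 0 (Pf.W 9 5 [2] [0,1,3,4,6] (Pf.cons (Pf.B 7 6 (Pf.B 7 3 (Pf.B 7 1 (Pf.B 7 4 (Pf.B 7 0 (Pf.C 1 0x2000214386) (Pf.C 5 16391)) (Pf.C 1 0x287080c086)) (Pf.C 5 49287)) (Pf.C 5 82819)) (Pf.C 5 82822)) (Pf.cons (Pf.C 3 33669) Pf.nil))) (Pf.C 5 16390)) (Pf.C 5 49286)) (Pf.C 10 0x200303)) (Pf.C 3 33286)) (Pf.C 6 33414)) Pf.nil)) Pf.nil)) Pf.nil)) (Pf.cons (Pf.T 5 13 (Pf.cons (Pf.W 11 2 [1,5] [0,3,4] (Pf.cons (Pf.B 6 5 (Pf.B 6 4 (Pf.B 6 3 (Pf.B 6 1 (Pf.B 6 0 (Pf.W 7 773 [] [0,1,2,3,4] (Pf.cons (Pf.B 7 3 (Pf.B 7 1 (Pf.B 7 4 (Pf.B 7 0 (Pf.C 1 0x2000214386)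 (Pf.C 5 16391)) (Pf.C 1 0x287080c086)) (Pf.C 5 49287)) (Pf.C 5 82819)) (Pf.cons (Pf.B 7 3 (Pf.B 7 1 (Pf.B 7 4 (Pf.B 7 0 (Pf.C 1 0x2000218385) (Pf.C 5 16391)) (Pf.C 1 0x307080c085)) (Pf.C 5 49287)) (Pf.C 5 99203)) (Pf.cons (Pf.C 3 33669) (Pf.cons (Pf.C 3 33670) Pf.nil))))) (Pf.C 5 16390)) (Pf.C 5 49286)) (Pf.C 10 0x200303)) (Pf.C 3 33286)) (Pf.C 6 33414)) Pf.nil)) Pf.nil)) Pf.nil))) (Pf.C 5 16389)) (Pf.C 5 49285)) (Pf.C 10 0x200283)) (Pf.C 3 33285)) Pf.nil)) Pf.nil)) (Pf.cons (Pf.C 3 66176) Pf.nil))))))) (Pf.C 3 33281)) (Pf.C 6 65539)) Pf.nil))) Pf.nil)) Pf.nil)))) (Pf.C 6 32899)) (Pf.cons (Pf.C 3 33153) Pf.nil))))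
 Pq.nil)))
theorem e1_o20 : AllRef e1_T e1_G27 (List.take 3 (closeObl (e1_T.sc.get 0) false [35,36,37,38,39,40,41,42] [0,0,0,0,1,1,1,1] [0] [0] 239)) :=
  chkPq_sound e1_o20c _ (by decide +kernel)
noncomputable def e1_o21c : Pq := (Pq.cons (Pq.L [0] 1 (Pf.W 11 2 [1] [0] (Pf.cons (Pf.B 3 1 (Pf.T 3 1 (Pf.cons (Pf.T 3 11 (Pf.cons (Pf.T 3 12 (Pf.cons (Pf.W 11 2 [1,3] [0] (Pf.cons (Pf.B 4 3 (Pf.B 4 1 (Pf.T 4 1 (Pf.cons (Pf.T 4 11 (Pf.cons (Pf.T 4 12 (Pf.cons (Pf.W 9 0 [] [1,2,3,4] (Pf.cons (Pf.B 5 4 (Pf.B 5 3 (Pf.B 5 1 (Pf.B 5 2 (Pf.W 9 3 [2] [0,1,4,5] (Pf.cons (Pf.B 6 5 (Pf.B 6 4 (Pf.B 6 2 (Pf.B 6 1 (Pf.B 6 0 (Pf.C 1 0x2020214006) (Pf.C 5 81926)) (Pf.C 5 49921)) (Pf.C 6 33158)) (Pf.C 5 49924))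 (Pf.C 5 49925)) (Pf.cons (Pf.C 3 33539) Pf.nil))) (Pf.T 5 1 (Pf.cons (Pf.T 5 11 (Pf.cons (Pf.T 5 12 (Pf.cons (Pf.W 9 0 [5] [1,2,3,4] (Pf.cons (Pf.B 6 5 (Pf.C 5 81926) (Pf.B 6 4 (Pf.B 6 3 (Pf.B 6 2 (Pf.B 6 1 (Pf.W 9 3 [2] [0,1,4,5,6] (Pf.cons (Pf.B 7 6 (Pf.B 7 5 (Pf.B 7 4 (Pf.B 7 2 (Pf.B 7 1 (Pf.B 7 0 (Pf.C 1 0x2020218007) (Pf.C 5 81927)) (Pf.C 5 50049)) (Pf.C 6 33159)) (Pf.C 5 50052)) (Pf.C 5 98951)) (Pf.C 5 50054)) (Pf.cons (Pf.C 3 33667) Pf.nil))) (Pf.C 5 769)) (Pf.C 6 33414)) (Pf.C 5 771)) (Pf.C 5 772))) (Pf.cons (Pf.W 13 32773 [] [6,1,3,4] (Pf.cons (Pf.C 5 81927) (Pf.cons (Pf.C 5 81927) (Pf.cons (Pf.T 6 14 (Pf.cons (Pf.W 9 0 [5,6] [1,2,3,4] (Pf.cons (Pf.B 7 5 (Pf.C 5 81927) (Pf.B 7 4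 (Pf.B 7 3 (Pf.B 7 2 (Pf.B 7 1 (Pf.W 9 3 [2] [0,1,4,5,7] (Pf.cons (Pf.B 8 7 (Pf.B 8 5 (Pf.B 8 4 (Pf.B 8 2 (Pf.B 8 1 (Pf.B 8 0 (Pf.C 1 0x202021c008) (Pf.C 5 81928)) (Pf.C 5 50177)) (Pf.C 6 33160)) (Pf.C 5 50180)) (Pf.C 5 0x1c288)) (Pf.C 5 50183)) (Pf.cons (Pf.C 3 33795) Pf.nil))) (Pf.C 5 897)) (Pf.C 6 33415)) (Pf.C 5 899)) (Pf.C 5 900))) (Pf.cons (Pf.C 3 99200) Pf.nil))) Pf.nil)) (Pf.cons (Pf.C 3 99200) (Pf.cons (Pf.T 6 15 (Pf.cons (Pf.W 9 0 [5,6] [1,2,3,4] (Pf.cons (Pf.B 7 5 (Pf.C 5 81927) (Pf.B 7 4 (Pf.B 7 3 (Pf.B 7 2 (Pf.B 7 1 (Pf.W 9 3 [2] [0,1,4,5,7] (Pf.cons (Pf.B 8 7 (Pf.B 8 5 (Pf.B 8 4 (Pf.B 8 2 (Pf.B 8 1 (Pf.B 8 0 (Pf.C 1 0x202021c008) (Pf.C 5 81928)) (Pf.C 5 50177)) (Pf.C 6 33160))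 (Pf.C 5 50180)) (Pf.C 5 0x1c288)) (Pf.C 5 50183)) (Pf.cons (Pf.C 3 33795) Pf.nil))) (Pf.C 5 897)) (Pf.C 6 33415)) (Pf.C 5 899)) (Pf.C 5 900))) (Pf.cons (Pf.C 3 99200) Pf.nil))) Pf.nil)) (Pf.cons (Pf.C 3 99200) Pf.nil))))))) Pf.nil))) Pf.nil)) Pf.nil)) (Pf.cons (Pf.T 5 13 (Pf.cons (Pf.W 9 0 [5] [2] (Pf.cons (Pf.B 6 5 (Pf.C 5 81926) (Pf.C 10 0x400305)) (Pf.cons (Pf.W 9 0 [5,6] [2] (Pf.cons (Pf.B 7 5 (Pf.C 5 81927) (Pf.C 10 0x400385)) (Pf.cons (Pf.C 3 99200) Pf.nil))) Pf.nil))) Pf.nil)) Pf.nil)))) (Pf.C 5 641)) (Pf.C 5 643)) (Pf.C 5 644)) (Pf.cons (Pf.T 5 2 (Pf.cons (Pf.T 5 14 (Pf.cons (Pf.W 9 0 [5] [1,2,3,4] (Pf.cons (Pf.B 6 4 (Pf.B 6 3 (Pf.B 6 1 (Pf.B 6 2 (Pf.W 9 3 [2] [0,1,4,6] (Pf.cons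 (Pf.B 7 6 (Pf.B 7 4 (Pf.B 7 2 (Pf.B 7 1 (Pf.B 7 0 (Pf.C 1 0x2020218007) (Pf.C 5 98311)) (Pf.C 5 50049)) (Pf.C 6 33159)) (Pf.C 5 50052)) (Pf.C 5 50054)) (Pf.cons (Pf.C 3 33667) Pf.nil))) (Pf.T 6 1 (Pf.cons (Pf.T 6 11 (Pf.cons (Pf.T 6 12 (Pf.cons (Pf.W 9 0 [5,6] [1,2,3,4] (Pf.cons (Pf.B 7 6 (Pf.C 5 98311) (Pf.B 7 4 (Pf.B 7 3 (Pf.B 7 2 (Pf.B 7 1 (Pf.W 9 3 [2] [0,1,4,6,7] (Pf.cons (Pf.B 8 7 (Pf.B 8 6 (Pf.B 8 4 (Pf.B 8 2 (Pf.B 8 1 (Pf.B 8 0 (Pf.C 1 0x202021c008) (Pf.C 5 98312)) (Pf.C 5 50177)) (Pf.C 6 33160)) (Pf.C 5 50180)) (Pf.C 5 0x1c308)) (Pf.C 5 50183)) (Pf.cons (Pf.C 3 33795) Pf.nil))) (Pf.C 5 897)) (Pf.C 6 33543)) (Pf.C 5 899)) (Pf.C 5 900))) (Pf.cons (Pf.C 3 82816) Pf.nil))) Pf.nil))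 Pf.nil)) (Pf.cons (Pf.T 6 13 (Pf.cons (Pf.W 9 0 [5,6] [2] (Pf.cons (Pf.B 7 6 (Pf.C 5 98311) (Pf.C 10 0x400386)) (Pf.cons (Pf.C 3 82816) Pf.nil))) Pf.nil)) Pf.nil)))) (Pf.C 5 769)) (Pf.C 5 771)) (Pf.C 5 772)) (Pf.cons (Pf.C 3 82688) Pf.nil))) Pf.nil)) (Pf.cons (Pf.T 5 15 (Pf.cons (Pf.W 9 0 [5] [1,2,3,4] (Pf.cons (Pf.B 6 4 (Pf.B 6 3 (Pf.B 6 1 (Pf.B 6 2 (Pf.W 9 3 [2] [0,1,4,6] (Pf.cons (Pf.B 7 6 (Pf.B 7 4 (Pf.B 7 2 (Pf.B 7 1 (Pf.B 7 0 (Pf.C 1 0x2020218007) (Pf.C 5 98311)) (Pf.C 5 50049)) (Pf.C 6 33159)) (Pf.C 5 50052)) (Pf.C 5 50054)) (Pf.cons (Pf.C 3 33667) Pf.nil))) (Pf.T 6 1 (Pf.cons (Pf.T 6 11 (Pf.cons (Pf.T 6 12 (Pf.cons (Pf.W 9 0 [5,6] [1,2,3,4] (Pf.cons (Pf.B 7 6 (Pf.C 5 98311) (Pf.B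 7 4 (Pf.B 7 3 (Pf.B 7 2 (Pf.B 7 1 (Pf.W 9 3 [2] [0,1,4,6,7] (Pf.cons (Pf.B 8 7 (Pf.B 8 6 (Pf.B 8 4 (Pf.B 8 2 (Pf.B 8 1 (Pf.B 8 0 (Pf.C 1 0x202021c008) (Pf.C 5 98312)) (Pf.C 5 50177)) (Pf.C 6 33160)) (Pf.C 5 50180)) (Pf.C 5 0x1c308)) (Pf.C 5 50183)) (Pf.cons (Pf.C 3 33795) Pf.nil))) (Pf.C 5 897)) (Pf.C 6 33543)) (Pf.C 5 899)) (Pf.C 5 900))) (Pf.cons (Pf.C 3 82816) Pf.nil))) Pf.nil)) Pf.nil)) (Pf.cons (Pf.T 6 13 (Pf.cons (Pf.W 9 0 [5,6] [2] (Pf.cons (Pf.B 7 6 (Pf.C 5 98311) (Pf.C 10 0x400386)) (Pf.cons (Pf.C 3 82816) Pf.nil))) Pf.nil)) Pf.nil)))) (Pf.C 5 769)) (Pf.C 5 771)) (Pf.C 5 772)) (Pf.cons (Pf.C 3 82688) Pf.nil))) Pf.nil)) Pf.nil))) Pf.nil))) (Pf.cons (Pf.W 9 0 [4] [1,2,3] (Pf.cons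 (Pf.B 5 4 (Pf.C 5 65541) (Pf.B 5 3 (Pf.B 5 2 (Pf.B 5 1 (Pf.T 5 1 (Pf.cons (Pf.T 5 11 (Pf.cons (Pf.T 5 12 (Pf.cons (Pf.W 9 0 [4,5] [1,2,3] (Pf.cons (Pf.B 6 5 (Pf.C 5 81926) (Pf.B 6 4 (Pf.C 5 65542) (Pf.B 6 3 (Pf.B 6 2 (Pf.B 6 1 (Pf.T 6 1 (Pf.cons (Pf.T 6 11 (Pf.cons (Pf.T 6 12 (Pf.cons (Pf.W 9 3 [2] [0,1,4,5,6] (Pf.cons (Pf.B 7 6 (Pf.B 7 5 (Pf.B 7 4 (Pf.B 7 2 (Pf.B 7 1 (Pf.B 7 0 (Pf.W 13 32772 [] [1,3,5,6,7] (Pf.cons (Pf.C 5 65544) (Pf.cons (Pf.C 5 65544) (Pf.cons (Pf.B 8 6 (Pf.B 8 5 (Pf.B 8 3 (Pf.B 8 2 (Pf.C 2 264) (Pf.B 8 1 (Pf.B 8 7 (Pf.C 1 0x821018287) (Pf.C 1 0x1871014201)) (Pf.C 3 33793))) (Pf.C 3 33795)) (Pf.C 6 0x20005)) (Pf.C 6 0x20006)) (Pf.cons (Pf.B 8 6 (Pf.B 8 5 (Pf.B 8 3 (Pf.B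 8 2 (Pf.C 2 264) (Pf.B 8 1 (Pf.B 8 7 (Pf.C 1 0x821018287) (Pf.C 1 0x1871014201)) (Pf.C 3 33793))) (Pf.C 3 33795)) (Pf.C 6 0x20005)) (Pf.C 6 0x20006)) Pf.nil))))) (Pf.C 5 65543)) (Pf.C 5 50049)) (Pf.C 6 33159)) (Pf.C 5 82439)) (Pf.C 5 98951)) (Pf.C 5 50054)) (Pf.cons (Pf.C 3 33667) Pf.nil))) Pf.nil)) Pf.nil)) (Pf.cons (Pf.C 10 0xa10006) Pf.nil))) (Pf.C 5 769)) (Pf.C 6 33286)) (Pf.C 5 771)))) (Pf.cons (Pf.B 6 5 (Pf.B 6 4 (Pf.B 6 3 (Pf.B 6 1 (Pf.W 9 3 [2] [0,1,4,5,6] (Pf.cons (Pf.B 7 5 (Pf.B 7 4 (Pf.B 7 1 (Pf.B 7 6 (Pf.B 7 0 (Pf.C 1 0x300080c381) (Pf.C 5 65543)) (Pf.C 1 0x1870c14201)) (Pf.C 5 50049)) (Pf.C 5 82439)) (Pf.C 5 50053)) (Pf.cons (Pf.C 3 33667) Pf.nil))) (Pf.C 3 33537)) (Pf.C 3 33539))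 (Pf.C 3 33540)) (Pf.C 6 98309)) Pf.nil))) Pf.nil)) Pf.nil)) (Pf.cons (Pf.T 5 13 (Pf.cons (Pf.W 9 0 [4,5] [1,2,3] (Pf.cons (Pf.B 6 5 (Pf.C 5 81926) (Pf.C 10 0x800305)) (Pf.cons (Pf.B 6 5 (Pf.B 6 4 (Pf.B 6 3 (Pf.B 6 1 (Pf.W 9 3 [2] [0,1,4,5,6] (Pf.cons (Pf.B 7 5 (Pf.B 7 4 (Pf.B 7 1 (Pf.B 7 6 (Pf.B 7 0 (Pf.C 1 0x300080c381) (Pf.C 5 65543)) (Pf.C 1 0x1870c14201)) (Pf.C 5 50049)) (Pf.C 5 82439)) (Pf.C 5 50053)) (Pf.cons (Pf.C 3 33667) Pf.nil))) (Pf.C 3 33537)) (Pf.C 3 33539)) (Pf.C 3 33540)) (Pf.C 6 98309)) Pf.nil))) Pf.nil)) Pf.nil))) (Pf.C 5 641)) (Pf.C 6 33285)) (Pf.C 5 643))) (Pf.cons (Pf.B 5 4 (Pf.B 5 3 (Pf.B 5 1 (Pf.W 13 32772 [] [5,1,3] (Pf.cons (Pf.C 5 65542) (Pf.cons (Pf.C 5 65542) (Pf.cons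 (Pf.T 5 14 (Pf.cons (Pf.W 9 0 [4,5] [1,2,3] (Pf.cons (Pf.B 6 5 (Pf.B 6 4 (Pf.C 5 65542) (Pf.B 6 3 (Pf.B 6 1 (Pf.W 9 3 [2] [0,1,4,5,6] (Pf.cons (Pf.B 7 6 (Pf.B 7 4 (Pf.B 7 1 (Pf.B 7 5 (Pf.B 7 0 (Pf.C 1 0x280080c381) (Pf.C 5 65543)) (Pf.C 1 0x1870a18201)) (Pf.C 5 50049)) (Pf.C 5 98823)) (Pf.C 5 50054)) (Pf.cons (Pf.C 3 33667) Pf.nil))) (Pf.C 5 769)) (Pf.C 5 771))) (Pf.C 6 81926)) (Pf.cons (Pf.C 3 82688) Pf.nil))) Pf.nil)) (Pf.cons (Pf.C 3 82688) (Pf.cons (Pf.T 5 15 (Pf.cons (Pf.W 9 0 [4,5] [1,2,3] (Pf.cons (Pf.B 6 5 (Pf.B 6 4 (Pf.C 5 65542) (Pf.B 6 3 (Pf.B 6 1 (Pf.W 9 3 [2] [0,1,4,5,6] (Pf.cons (Pf.B 7 6 (Pf.B 7 4 (Pf.B 7 1 (Pf.B 7 5 (Pf.B 7 0 (Pf.C 1 0x280080c381) (Pf.C 5 65543)) (Pf.C 1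 0x1870a18201)) (Pf.C 5 50049)) (Pf.C 5 98823)) (Pf.C 5 50054)) (Pf.cons (Pf.C 3 33667) Pf.nil))) (Pf.C 5 769)) (Pf.C 5 771))) (Pf.C 6 81926)) (Pf.cons (Pf.C 3 82688) Pf.nil))) Pf.nil)) (Pf.cons (Pf.C 3 82688) Pf.nil))))))) (Pf.C 3 33409)) (Pf.C 3 33411)) (Pf.C 3 33412)) Pf.nil))) Pf.nil))) Pf.nil)) (Pf.cons (Pf.T 4 13 (Pf.cons (Pf.W 9 0 [] [1,2,3,4] (Pf.cons (Pf.B 5 4 (Pf.B 5 3 (Pf.B 5 1 (Pf.B 5 2 (Pf.W 9 3 [2] [0,1,4,5] (Pf.cons (Pf.B 6 5 (Pf.B 6 4 (Pf.B 6 2 (Pf.B 6 1 (Pf.B 6 0 (Pf.C 1 0x2020214006) (Pf.C 5 81926)) (Pf.C 5 49921)) (Pf.C 6 33158)) (Pf.C 5 49924)) (Pf.C 5 49925)) (Pf.cons (Pf.C 3 33539) Pf.nil))) (Pf.T 5 1 (Pf.cons (Pf.T 5 11 (Pf.cons (Pf.T 5 12 (Pf.cons (Pf.W 9 0 [5] [1,2,3,4]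 (Pf.cons (Pf.B 6 5 (Pf.C 5 81926) (Pf.B 6 4 (Pf.B 6 3 (Pf.B 6 2 (Pf.B 6 1 (Pf.W 9 3 [2] [0,1,4,5,6] (Pf.cons (Pf.B 7 6 (Pf.B 7 5 (Pf.B 7 4 (Pf.B 7 2 (Pf.B 7 1 (Pf.B 7 0 (Pf.C 1 0x2020218007) (Pf.C 5 81927)) (Pf.C 5 50049)) (Pf.C 6 33159)) (Pf.C 5 50052)) (Pf.C 5 98951)) (Pf.C 5 50054)) (Pf.cons (Pf.C 3 33667) Pf.nil))) (Pf.C 5 769)) (Pf.C 6 33414)) (Pf.C 5 771)) (Pf.C 5 772))) (Pf.cons (Pf.W 13 32773 [] [6,1,3,4] (Pf.cons (Pf.C 5 81927) (Pf.cons (Pf.C 5 81927) (Pf.cons (Pf.T 6 14 (Pf.cons (Pf.W 9 0 [5,6] [1,2,3,4] (Pf.cons (Pf.B 7 5 (Pf.C 5 81927) (Pf.B 7 4 (Pf.B 7 3 (Pf.B 7 2 (Pf.B 7 1 (Pf.W 9 3 [2] [0,1,4,5,7] (Pf.cons (Pf.B 8 7 (Pf.B 8 5 (Pf.B 8 4 (Pf.B 8 2 (Pf.B 8 1 (Pf.B 8 0 (Pf.C 1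 0x202021c008) (Pf.C 5 81928)) (Pf.C 5 50177)) (Pf.C 6 33160)) (Pf.C 5 50180)) (Pf.C 5 0x1c288)) (Pf.C 5 50183)) (Pf.cons (Pf.C 3 33795) Pf.nil))) (Pf.C 5 897)) (Pf.C 6 33415)) (Pf.C 5 899)) (Pf.C 5 900))) (Pf.cons (Pf.C 3 99200) Pf.nil))) Pf.nil)) (Pf.cons (Pf.C 3 99200) (Pf.cons (Pf.T 6 15 (Pf.cons (Pf.W 9 0 [5,6] [1,2,3,4] (Pf.cons (Pf.B 7 5 (Pf.C 5 81927) (Pf.B 7 4 (Pf.B 7 3 (Pf.B 7 2 (Pf.B 7 1 (Pf.W 9 3 [2] [0,1,4,5,7] (Pf.cons (Pf.B 8 7 (Pf.B 8 5 (Pf.B 8 4 (Pf.B 8 2 (Pf.B 8 1 (Pf.B 8 0 (Pf.C 1 0x202021c008) (Pf.C 5 81928)) (Pf.C 5 50177)) (Pf.C 6 33160)) (Pf.C 5 50180)) (Pf.C 5 0x1c288)) (Pf.C 5 50183)) (Pf.cons (Pf.C 3 33795) Pf.nil))) (Pf.C 5 897)) (Pf.C 6 33415)) (Pf.C 5 899)) (Pf.C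 5 900))) (Pf.cons (Pf.C 3 99200) Pf.nil))) Pf.nil)) (Pf.cons (Pf.C 3 99200) Pf.nil))))))) Pf.nil))) Pf.nil)) Pf.nil)) (Pf.cons (Pf.T 5 13 (Pf.cons (Pf.W 9 0 [5] [2] (Pf.cons (Pf.B 6 5 (Pf.C 5 81926) (Pf.C 10 0x400305)) (Pf.cons (Pf.W 9 0 [5,6] [2] (Pf.cons (Pf.B 7 5 (Pf.C 5 81927) (Pf.C 10 0x400385)) (Pf.cons (Pf.C 3 99200) Pf.nil))) Pf.nil))) Pf.nil)) Pf.nil)))) (Pf.C 5 641)) (Pf.C 5 643)) (Pf.C 5 644)) (Pf.cons (Pf.T 5 2 (Pf.cons (Pf.T 5 14 (Pf.cons (Pf.W 9 0 [5] [1,2,3,4] (Pf.cons (Pf.B 6 4 (Pf.B 6 3 (Pf.B 6 1 (Pf.B 6 2 (Pf.W 9 3 [2] [0,1,4,6] (Pf.cons (Pf.B 7 6 (Pf.B 7 4 (Pf.B 7 2 (Pf.B 7 1 (Pf.B 7 0 (Pf.C 1 0x2020218007) (Pf.C 5 98311)) (Pf.C 5 50049)) (Pf.C 6 33159)) (Pf.C 5 50052))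 (Pf.C 5 50054)) (Pf.cons (Pf.C 3 33667) Pf.nil))) (Pf.T 6 1 (Pf.cons (Pf.T 6 11 (Pf.cons (Pf.T 6 12 (Pf.cons (Pf.W 9 0 [5,6] [1,2,3,4] (Pf.cons (Pf.B 7 6 (Pf.C 5 98311) (Pf.B 7 4 (Pf.B 7 3 (Pf.B 7 2 (Pf.B 7 1 (Pf.W 9 3 [2] [0,1,4,6,7] (Pf.cons (Pf.B 8 7 (Pf.B 8 6 (Pf.B 8 4 (Pf.B 8 2 (Pf.B 8 1 (Pf.B 8 0 (Pf.C 1 0x202021c008) (Pf.C 5 98312)) (Pf.C 5 50177)) (Pf.C 6 33160)) (Pf.C 5 50180)) (Pf.C 5 0x1c308)) (Pf.C 5 50183)) (Pf.cons (Pf.C 3 33795) Pf.nil))) (Pf.C 5 897)) (Pf.C 6 33543)) (Pf.C 5 899)) (Pf.C 5 900))) (Pf.cons (Pf.C 3 82816) Pf.nil))) Pf.nil)) Pf.nil)) (Pf.cons (Pf.T 6 13 (Pf.cons (Pf.W 9 0 [5,6] [2] (Pf.cons (Pf.B 7 6 (Pf.C 5 98311) (Pf.C 10 0x400386)) (Pf.cons (Pf.C 3 82816)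 Pf.nil))) Pf.nil)) Pf.nil)))) (Pf.C 5 769)) (Pf.C 5 771)) (Pf.C 5 772)) (Pf.cons (Pf.C 3 82688) Pf.nil))) Pf.nil)) (Pf.cons (Pf.T 5 15 (Pf.cons (Pf.W 9 0 [5] [1,2,3,4] (Pf.cons (Pf.B 6 4 (Pf.B 6 3 (Pf.B 6 1 (Pf.B 6 2 (Pf.W 9 3 [2] [0,1,4,6] (Pf.cons (Pf.B 7 6 (Pf.B 7 4 (Pf.B 7 2 (Pf.B 7 1 (Pf.B 7 0 (Pf.C 1 0x2020218007) (Pf.C 5 98311)) (Pf.C 5 50049)) (Pf.C 6 33159)) (Pf.C 5 50052)) (Pf.C 5 50054)) (Pf.cons (Pf.C 3 33667) Pf.nil))) (Pf.T 6 1 (Pf.cons (Pf.T 6 11 (Pf.cons (Pf.T 6 12 (Pf.cons (Pf.W 9 0 [5,6] [1,2,3,4] (Pf.cons (Pf.B 7 6 (Pf.C 5 98311) (Pf.B 7 4 (Pf.B 7 3 (Pf.B 7 2 (Pf.B 7 1 (Pf.W 9 3 [2] [0,1,4,6,7] (Pf.cons (Pf.B 8 7 (Pf.B 8 6 (Pf.B 8 4 (Pf.B 8 2 (Pf.B 8 1 (Pf.B 8 0 (Pf.C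 1 0x202021c008) (Pf.C 5 98312)) (Pf.C 5 50177)) (Pf.C 6 33160)) (Pf.C 5 50180)) (Pf.C 5 0x1c308)) (Pf.C 5 50183)) (Pf.cons (Pf.C 3 33795) Pf.nil))) (Pf.C 5 897)) (Pf.C 6 33543)) (Pf.C 5 899)) (Pf.C 5 900))) (Pf.cons (Pf.C 3 82816) Pf.nil))) Pf.nil)) Pf.nil)) (Pf.cons (Pf.T 6 13 (Pf.cons (Pf.W 9 0 [5,6] [2] (Pf.cons (Pf.B 7 6 (Pf.C 5 98311) (Pf.C 10 0x400386)) (Pf.cons (Pf.C 3 82816) Pf.nil))) Pf.nil)) Pf.nil)))) (Pf.C 5 769)) (Pf.C 5 771)) (Pf.C 5 772)) (Pf.cons (Pf.C 3 82688) Pf.nil))) Pf.nil)) Pf.nil))) Pf.nil))) (Pf.cons (Pf.W 9 0 [4] [2] (Pf.cons (Pf.B 5 4 (Pf.C 5 65541) (Pf.C 10 0x400284)) (Pf.cons (Pf.W 9 0 [4,5] [2] (Pf.cons (Pf.B 6 4 (Pf.C 5 65542) (Pf.C 10 0x400304)) (Pf.cons (Pf.C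 3 82688) Pf.nil))) Pf.nil))) Pf.nil))) Pf.nil))) (Pf.C 6 32900)) (Pf.C 6 33156)) Pf.nil)) (Pf.cons (Pf.W 11 2 [1,3] [0] (Pf.cons (Pf.B 4 3 (Pf.B 4 1 (Pf.B 4 0 (Pf.T 4 1 (Pf.cons (Pf.T 4 11 (Pf.cons (Pf.T 4 12 (Pf.cons (Pf.W 9 0 [3] [1,2,4] (Pf.cons (Pf.B 5 4 (Pf.B 5 3 (Pf.C 5 49157) (Pf.B 5 2 (Pf.B 5 1 (Pf.T 5 1 (Pf.cons (Pf.T 5 11 (Pf.cons (Pf.T 5 12 (Pf.cons (Pf.W 9 0 [3,5] [1,2,4] (Pf.cons (Pf.B 6 5 (Pf.C 5 81926) (Pf.B 6 4 (Pf.B 6 3 (Pf.C 5 49158) (Pf.B 6 2 (Pf.B 6 1 (Pf.T 6 1 (Pf.cons (Pf.T 6 11 (Pf.cons (Pf.T 6 12 (Pf.cons (Pf.W 9 4 [2] [0,1,3,5,6] (Pf.cons (Pf.B 7 6 (Pf.B 7 5 (Pf.B 7 3 (Pf.B 7 2 (Pf.B 7 1 (Pf.B 7 0 (Pf.W 13 32771 [] [1,4,5,6,7] (Pf.cons (Pf.C 5 49160) (Pf.cons (Pf.C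 5 49160) (Pf.cons (Pf.B 8 6 (Pf.B 8 5 (Pf.B 8 4 (Pf.B 8 2 (Pf.C 2 264) (Pf.B 8 1 (Pf.B 8 7 (Pf.C 1 0x821018287) (Pf.C 1 0x2071014181)) (Pf.C 3 33793))) (Pf.C 3 33796)) (Pf.C 6 0x20005)) (Pf.C 6 0x20006)) (Pf.cons (Pf.B 8 6 (Pf.B 8 5 (Pf.B 8 4 (Pf.B 8 2 (Pf.C 2 264) (Pf.B 8 1 (Pf.B 8 7 (Pf.C 1 0x821018287) (Pf.C 1 0x2071014181)) (Pf.C 3 33793))) (Pf.C 3 33796)) (Pf.C 6 0x20005)) (Pf.C 6 0x20006)) Pf.nil))))) (Pf.C 5 49159)) (Pf.C 5 66433)) (Pf.C 6 33287)) (Pf.C 5 82311)) (Pf.C 5 98951)) (Pf.C 5 66438)) (Pf.cons (Pf.C 3 33668) Pf.nil))) Pf.nil)) Pf.nil)) (Pf.cons (Pf.C 10 0xa0c006) Pf.nil))) (Pf.C 5 769)) (Pf.C 6 33158))) (Pf.C 5 772))) (Pf.cons (Pf.B 6 5 (Pf.B 6 4 (Pf.B 6 3 (Pf.B 6 1 (Pf.W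 9 4 [2] [0,1,3,5,6] (Pf.cons (Pf.B 7 5 (Pf.B 7 3 (Pf.B 7 1 (Pf.B 7 6 (Pf.B 7 0 (Pf.C 1 0x3000610381) (Pf.C 5 49159)) (Pf.C 1 0x2070c14181)) (Pf.C 5 66433)) (Pf.C 5 82311)) (Pf.C 5 66437)) (Pf.cons (Pf.C 3 33668) Pf.nil))) (Pf.C 3 33537)) (Pf.C 3 33539)) (Pf.C 3 33540)) (Pf.C 6 98309)) Pf.nil))) Pf.nil)) Pf.nil)) (Pf.cons (Pf.T 5 13 (Pf.cons (Pf.W 9 0 [3,5] [1,2,4] (Pf.cons (Pf.B 6 5 (Pf.C 5 81926) (Pf.C 10 0x600305)) (Pf.cons (Pf.B 6 5 (Pf.B 6 4 (Pf.B 6 3 (Pf.B 6 1 (Pf.W 9 4 [2] [0,1,3,5,6] (Pf.cons (Pf.B 7 5 (Pf.B 7 3 (Pf.B 7 1 (Pf.B 7 6 (Pf.B 7 0 (Pf.C 1 0x3000610381) (Pf.C 5 49159)) (Pf.C 1 0x2070c14181)) (Pf.C 5 66433)) (Pf.C 5 82311)) (Pf.C 5 66437)) (Pf.cons (Pf.C 3 33668) Pf.nil)))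 (Pf.C 3 33537)) (Pf.C 3 33539)) (Pf.C 3 33540)) (Pf.C 6 98309)) Pf.nil))) Pf.nil)) Pf.nil))) (Pf.C 5 641)) (Pf.C 6 33157))) (Pf.C 5 644)) (Pf.cons (Pf.B 5 4 (Pf.B 5 3 (Pf.B 5 1 (Pf.W 13 32771 [] [5,1,4] (Pf.cons (Pf.C 5 49158) (Pf.cons (Pf.C 5 49158) (Pf.cons (Pf.T 5 14 (Pf.cons (Pf.W 9 0 [3,5] [1,2,4] (Pf.cons (Pf.B 6 5 (Pf.B 6 4 (Pf.B 6 3 (Pf.C 5 49158) (Pf.B 6 1 (Pf.W 9 4 [2] [0,1,3,5,6] (Pf.cons (Pf.B 7 6 (Pf.B 7 3 (Pf.B 7 1 (Pf.B 7 5 (Pf.B 7 0 (Pf.C 1 0x2800610381) (Pf.C 5 49159)) (Pf.C 1 0x2070a18181)) (Pf.C 5 66433)) (Pf.C 5 98695)) (Pf.C 5 66438)) (Pf.cons (Pf.C 3 33668) Pf.nil))) (Pf.C 5 769))) (Pf.C 5 772)) (Pf.C 6 81926)) (Pf.cons (Pf.C 3 82688) Pf.nil))) Pf.nil)) (Pf.cons (Pf.C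 3 82688) (Pf.cons (Pf.T 5 15 (Pf.cons (Pf.W 9 0 [3,5] [1,2,4] (Pf.cons (Pf.B 6 5 (Pf.B 6 4 (Pf.B 6 3 (Pf.C 5 49158) (Pf.B 6 1 (Pf.W 9 4 [2] [0,1,3,5,6] (Pf.cons (Pf.B 7 6 (Pf.B 7 3 (Pf.B 7 1 (Pf.B 7 5 (Pf.B 7 0 (Pf.C 1 0x2800610381) (Pf.C 5 49159)) (Pf.C 1 0x2070a18181)) (Pf.C 5 66433)) (Pf.C 5 98695)) (Pf.C 5 66438)) (Pf.cons (Pf.C 3 33668) Pf.nil))) (Pf.C 5 769))) (Pf.C 5 772)) (Pf.C 6 81926)) (Pf.cons (Pf.C 3 82688) Pf.nil))) Pf.nil)) (Pf.cons (Pf.C 3 82688) Pf.nil))))))) (Pf.C 3 33409)) (Pf.C 3 33411)) (Pf.C 3 33412)) Pf.nil))) Pf.nil)) Pf.nil)) (Pf.cons (Pf.T 4 13 (Pf.cons (Pf.W 9 0 [3] [1,2,4] (Pf.cons (Pf.B 5 4 (Pf.B 5 3 (Pf.C 5 49157) (Pf.B 5 2 (Pf.B 5 1 (Pf.T 5 1 (Pf.cons (Pf.T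 5 11 (Pf.cons (Pf.T 5 12 (Pf.cons (Pf.W 9 0 [3,5] [1,2,4] (Pf.cons (Pf.B 6 5 (Pf.C 5 81926) (Pf.B 6 4 (Pf.B 6 3 (Pf.C 5 49158) (Pf.B 6 2 (Pf.B 6 1 (Pf.T 6 1 (Pf.cons (Pf.T 6 11 (Pf.cons (Pf.T 6 12 (Pf.cons (Pf.W 13 32771 [] [1,4,5,6] (Pf.cons (Pf.C 5 49159) (Pf.cons (Pf.C 5 49159) (Pf.cons (Pf.B 7 6 (Pf.B 7 5 (Pf.B 7 4 (Pf.B 7 2 (Pf.C 2 263) (Pf.B 7 1 (Pf.T 7 14 (Pf.cons (Pf.W 7 513 [] [2,5,6,7] (Pf.cons (Pf.B 8 6 (Pf.B 8 5 (Pf.B 8 7 (Pf.B 8 2 (Pf.C 1 0x3820818288) (Pf.C 6 32904)) (Pf.C 1 0x880e18284)) (Pf.C 5 98952)) (Pf.C 5 17414)) (Pf.cons (Pf.B 8 6 (Pf.B 8 5 (Pf.B 8 7 (Pf.B 8 2 (Pf.C 1 0x3820218288) (Pf.C 6 33288)) (Pf.C 1 0x2080e18281)) (Pf.C 5 98952)) (Pf.C 5 66566)) (Pf.cons (Pf.C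 3 33793) (Pf.cons (Pf.C 3 33796) Pf.nil))))) Pf.nil)) (Pf.C 3 33665))) (Pf.C 3 33668)) (Pf.C 6 0x1c005)) (Pf.C 6 0x1c006)) (Pf.cons (Pf.B 7 6 (Pf.B 7 5 (Pf.B 7 4 (Pf.B 7 2 (Pf.C 2 263) (Pf.B 7 1 (Pf.T 7 15 (Pf.cons (Pf.W 7 513 [] [2,5,6,7] (Pf.cons (Pf.B 8 6 (Pf.B 8 5 (Pf.B 8 7 (Pf.B 8 2 (Pf.C 1 0x3820818288) (Pf.C 6 32904)) (Pf.C 1 0x880e18284)) (Pf.C 5 98952)) (Pf.C 5 17414)) (Pf.cons (Pf.B 8 6 (Pf.B 8 5 (Pf.B 8 7 (Pf.B 8 2 (Pf.C 1 0x3820218288) (Pf.C 6 33288)) (Pf.C 1 0x2080e18281)) (Pf.C 5 98952)) (Pf.C 5 66566)) (Pf.cons (Pf.C 3 33793) (Pf.cons (Pf.C 3 33796) Pf.nil))))) Pf.nil)) (Pf.C 3 33665))) (Pf.C 3 33668)) (Pf.C 6 0x1c005)) (Pf.C 6 0x1c006)) Pf.nil))))) Pf.nil)) Pf.nil)) (Pf.cons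 (Pf.C 10 0xa0c006) Pf.nil))) (Pf.C 5 769)) (Pf.C 6 33158))) (Pf.C 5 772))) (Pf.cons (Pf.B 6 5 (Pf.B 6 4 (Pf.B 6 3 (Pf.B 6 1 (Pf.W 13 32771 [] [6,1,4,5] (Pf.cons (Pf.C 5 49159) (Pf.cons (Pf.C 5 49159) (Pf.cons (Pf.T 6 14 (Pf.cons (Pf.W 7 513 [] [0,2,3,5,6] (Pf.cons (Pf.B 7 5 (Pf.B 7 3 (Pf.B 7 6 (Pf.B 7 0 (Pf.C 1 0x3000604384) (Pf.C 5 49159)) (Pf.C 1 0x870c14184)) (Pf.C 5 82311)) (Pf.C 5 17285)) (Pf.cons (Pf.B 7 5 (Pf.B 7 3 (Pf.B 7 6 (Pf.B 7 0 (Pf.C 1 0x3000610381) (Pf.C 5 49159)) (Pf.C 1 0x2070c14181)) (Pf.C 5 82311)) (Pf.C 5 66437)) (Pf.cons (Pf.C 3 33665) (Pf.cons (Pf.C 3 33668) Pf.nil))))) Pf.nil)) (Pf.cons (Pf.C 3 99200) (Pf.cons (Pf.T 6 15 (Pf.cons (Pf.W 7 513 [] [0,2,3,5,6] (Pf.cons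 (Pf.B 7 5 (Pf.B 7 3 (Pf.B 7 6 (Pf.B 7 0 (Pf.C 1 0x3000604384) (Pf.C 5 49159)) (Pf.C 1 0x870c14184)) (Pf.C 5 82311)) (Pf.C 5 17285)) (Pf.cons (Pf.B 7 5 (Pf.B 7 3 (Pf.B 7 6 (Pf.B 7 0 (Pf.C 1 0x3000610381) (Pf.C 5 49159)) (Pf.C 1 0x2070c14181)) (Pf.C 5 82311)) (Pf.C 5 66437)) (Pf.cons (Pf.C 3 33665) (Pf.cons (Pf.C 3 33668) Pf.nil))))) Pf.nil)) (Pf.cons (Pf.C 3 99200) Pf.nil))))))) (Pf.C 3 33537)) (Pf.C 3 33539)) (Pf.C 3 33540)) (Pf.C 6 98309)) Pf.nil))) Pf.nil)) Pf.nil)) (Pf.cons (Pf.T 5 13 (Pf.cons (Pf.W 9 0 [3,5] [1,2,4] (Pf.cons (Pf.B 6 5 (Pf.C 5 81926) (Pf.C 10 0x600305)) (Pf.cons (Pf.B 6 5 (Pf.B 6 4 (Pf.B 6 3 (Pf.B 6 1 (Pf.W 13 32771 [] [6,1,4,5] (Pf.cons (Pf.C 5 49159) (Pf.cons (Pf.C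 5 49159) (Pf.cons (Pf.T 6 14 (Pf.cons (Pf.W 7 513 [] [0,2,3,5,6] (Pf.cons (Pf.B 7 5 (Pf.B 7 3 (Pf.B 7 6 (Pf.B 7 0 (Pf.C 1 0x3000604384) (Pf.C 5 49159)) (Pf.C 1 0x870c14184)) (Pf.C 5 82311)) (Pf.C 5 17285)) (Pf.cons (Pf.B 7 5 (Pf.B 7 3 (Pf.B 7 6 (Pf.B 7 0 (Pf.C 1 0x3000610381) (Pf.C 5 49159)) (Pf.C 1 0x2070c14181)) (Pf.C 5 82311)) (Pf.C 5 66437)) (Pf.cons (Pf.C 3 33665) (Pf.cons (Pf.C 3 33668) Pf.nil))))) Pf.nil)) (Pf.cons (Pf.C 3 99200) (Pf.cons (Pf.T 6 15 (Pf.cons (Pf.W 7 513 [] [0,2,3,5,6] (Pf.cons (Pf.B 7 5 (Pf.B 7 3 (Pf.B 7 6 (Pf.B 7 0 (Pf.C 1 0x3000604384) (Pf.C 5 49159)) (Pf.C 1 0x870c14184)) (Pf.C 5 82311)) (Pf.C 5 17285)) (Pf.cons (Pf.B 7 5 (Pf.B 7 3 (Pf.B 7 6 (Pf.B 7 0 (Pf.C 1 0x3000610381)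 (Pf.C 5 49159)) (Pf.C 1 0x2070c14181)) (Pf.C 5 82311)) (Pf.C 5 66437)) (Pf.cons (Pf.C 3 33665) (Pf.cons (Pf.C 3 33668) Pf.nil))))) Pf.nil)) (Pf.cons (Pf.C 3 99200) Pf.nil))))))) (Pf.C 3 33537)) (Pf.C 3 33539)) (Pf.C 3 33540)) (Pf.C 6 98309)) Pf.nil))) Pf.nil)) Pf.nil))) (Pf.C 5 641)) (Pf.C 6 33157))) (Pf.C 5 644)) (Pf.cons (Pf.B 5 4 (Pf.B 5 3 (Pf.B 5 1 (Pf.W 13 32771 [] [5,1,4] (Pf.cons (Pf.C 5 49158) (Pf.cons (Pf.C 5 49158) (Pf.cons (Pf.T 5 14 (Pf.cons (Pf.W 9 0 [3,5] [1,2,4] (Pf.cons (Pf.B 6 5 (Pf.B 6 4 (Pf.B 6 3 (Pf.C 5 49158) (Pf.B 6 1 (Pf.W 7 513 [] [0,2,3,5,6] (Pf.cons (Pf.B 7 6 (Pf.B 7 3 (Pf.B 7 5 (Pf.B 7 0 (Pf.C 1 0x2800604384) (Pf.C 5 49159)) (Pf.C 1 0x870a18184)) (Pf.C 5 98695))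 (Pf.C 5 17286)) (Pf.cons (Pf.B 7 6 (Pf.B 7 3 (Pf.B 7 5 (Pf.B 7 0 (Pf.C 1 0x2800610381) (Pf.C 5 49159)) (Pf.C 1 0x2070a18181)) (Pf.C 5 98695)) (Pf.C 5 66438)) (Pf.cons (Pf.C 3 33665) (Pf.cons (Pf.C 3 33668) Pf.nil))))) (Pf.C 5 769))) (Pf.C 5 772)) (Pf.C 6 81926)) (Pf.cons (Pf.C 3 82688) Pf.nil))) Pf.nil)) (Pf.cons (Pf.C 3 82688) (Pf.cons (Pf.T 5 15 (Pf.cons (Pf.W 9 0 [3,5] [1,2,4] (Pf.cons (Pf.B 6 5 (Pf.B 6 4 (Pf.B 6 3 (Pf.C 5 49158) (Pf.B 6 1 (Pf.W 7 513 [] [0,2,3,5,6] (Pf.cons (Pf.B 7 6 (Pf.B 7 3 (Pf.B 7 5 (Pf.B 7 0 (Pf.C 1 0x2800604384) (Pf.C 5 49159)) (Pf.C 1 0x870a18184)) (Pf.C 5 98695)) (Pf.C 5 17286)) (Pf.cons (Pf.B 7 6 (Pf.B 7 3 (Pf.B 7 5 (Pf.B 7 0 (Pf.C 1 0x2800610381) (Pf.C 5 49159))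 (Pf.C 1 0x2070a18181)) (Pf.C 5 98695)) (Pf.C 5 66438)) (Pf.cons (Pf.C 3 33665) (Pf.cons (Pf.C 3 33668) Pf.nil))))) (Pf.C 5 769))) (Pf.C 5 772)) (Pf.C 6 81926)) (Pf.cons (Pf.C 3 82688) Pf.nil))) Pf.nil)) (Pf.cons (Pf.C 3 82688) Pf.nil))))))) (Pf.C 3 33409)) (Pf.C 3 33411)) (Pf.C 3 33412)) Pf.nil))) Pf.nil)) Pf.nil))) (Pf.C 5 49156)) (Pf.C 6 32900)) (Pf.C 6 33156)) Pf.nil)) Pf.nil))) Pf.nil)) (Pf.cons (Pf.T 3 13 (Pf.cons (Pf.W 11 2 [1,3] [0] (Pf.cons (Pf.B 4 3 (Pf.B 4 1 (Pf.T 4 1 (Pf.cons (Pf.T 4 11 (Pf.cons (Pf.T 4 12 (Pf.cons (Pf.W 9 0 [] [1,2,3,4] (Pf.cons (Pf.B 5 4 (Pf.B 5 3 (Pf.B 5 1 (Pf.B 5 2 (Pf.W 9 4 [2] [0,1,3,5] (Pf.cons (Pf.B 6 5 (Pf.B 6 3 (Pf.B 6 2 (Pf.B 6 1 (Pf.B 6 0 (Pf.C 1 0x1820214006)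 (Pf.C 5 81926)) (Pf.C 5 66305)) (Pf.C 6 33286)) (Pf.C 5 66307)) (Pf.C 5 66309)) (Pf.cons (Pf.C 3 33540) Pf.nil))) (Pf.T 5 1 (Pf.cons (Pf.T 5 11 (Pf.cons (Pf.T 5 12 (Pf.cons (Pf.W 9 0 [5] [1,2,3,4] (Pf.cons (Pf.B 6 5 (Pf.C 5 81926) (Pf.B 6 4 (Pf.B 6 3 (Pf.B 6 2 (Pf.B 6 1 (Pf.W 9 4 [2] [0,1,3,5,6] (Pf.cons (Pf.B 7 6 (Pf.B 7 5 (Pf.B 7 3 (Pf.B 7 2 (Pf.B 7 1 (Pf.B 7 0 (Pf.C 1 0x1820218007) (Pf.C 5 81927)) (Pf.C 5 66433)) (Pf.C 6 33287)) (Pf.C 5 66435)) (Pf.C 5 98951)) (Pf.C 5 66438)) (Pf.cons (Pf.C 3 33668) Pf.nil))) (Pf.C 5 769)) (Pf.C 6 33414)) (Pf.C 5 771)) (Pf.C 5 772))) (Pf.cons (Pf.W 13 32773 [] [6,1,3,4] (Pf.cons (Pf.C 5 81927) (Pf.cons (Pf.C 5 81927) (Pf.cons (Pf.T 6 14 (Pf.cons (Pf.W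 9 0 [5,6] [1,2,3,4] (Pf.cons (Pf.B 7 5 (Pf.C 5 81927) (Pf.B 7 4 (Pf.B 7 3 (Pf.B 7 2 (Pf.B 7 1 (Pf.W 9 4 [2] [0,1,3,5,7] (Pf.cons (Pf.B 8 7 (Pf.B 8 5 (Pf.B 8 3 (Pf.B 8 2 (Pf.B 8 1 (Pf.B 8 0 (Pf.C 1 0x182021c008) (Pf.C 5 81928)) (Pf.C 5 66561)) (Pf.C 6 33288)) (Pf.C 5 66563)) (Pf.C 5 0x1c288)) (Pf.C 5 66567)) (Pf.cons (Pf.C 3 33796) Pf.nil))) (Pf.C 5 897)) (Pf.C 6 33415)) (Pf.C 5 899)) (Pf.C 5 900))) (Pf.cons (Pf.C 3 99200) Pf.nil))) Pf.nil)) (Pf.cons (Pf.C 3 99200) (Pf.cons (Pf.T 6 15 (Pf.cons (Pf.W 9 0 [5,6] [1,2,3,4] (Pf.cons (Pf.B 7 5 (Pf.C 5 81927) (Pf.B 7 4 (Pf.B 7 3 (Pf.B 7 2 (Pf.B 7 1 (Pf.W 9 4 [2] [0,1,3,5,7] (Pf.cons (Pf.B 8 7 (Pf.B 8 5 (Pf.B 8 3 (Pf.B 8 2 (Pf.B 8 1 (Pf.B 8 0 (Pf.C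 1 0x182021c008) (Pf.C 5 81928)) (Pf.C 5 66561)) (Pf.C 6 33288)) (Pf.C 5 66563)) (Pf.C 5 0x1c288)) (Pf.C 5 66567)) (Pf.cons (Pf.C 3 33796) Pf.nil))) (Pf.C 5 897)) (Pf.C 6 33415)) (Pf.C 5 899)) (Pf.C 5 900))) (Pf.cons (Pf.C 3 99200) Pf.nil))) Pf.nil)) (Pf.cons (Pf.C 3 99200) Pf.nil))))))) Pf.nil))) Pf.nil)) Pf.nil)) (Pf.cons (Pf.T 5 13 (Pf.cons (Pf.W 9 0 [5] [2] (Pf.cons (Pf.B 6 5 (Pf.C 5 81926) (Pf.C 10 0x400305)) (Pf.cons (Pf.W 9 0 [5,6] [2] (Pf.cons (Pf.B 7 5 (Pf.C 5 81927) (Pf.C 10 0x400385)) (Pf.cons (Pf.C 3 99200) Pf.nil))) Pf.nil))) Pf.nil)) Pf.nil)))) (Pf.C 5 641)) (Pf.C 5 643)) (Pf.C 5 644)) (Pf.cons (Pf.T 5 2 (Pf.cons (Pf.T 5 14 (Pf.cons (Pf.W 9 0 [5] [1,2,3,4] (Pf.cons (Pf.B 6 4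 (Pf.B 6 3 (Pf.B 6 1 (Pf.B 6 2 (Pf.W 9 4 [2] [0,1,3,6] (Pf.cons (Pf.B 7 6 (Pf.B 7 3 (Pf.B 7 2 (Pf.B 7 1 (Pf.B 7 0 (Pf.C 1 0x1820218007) (Pf.C 5 98311)) (Pf.C 5 66433)) (Pf.C 6 33287)) (Pf.C 5 66435)) (Pf.C 5 66438)) (Pf.cons (Pf.C 3 33668) Pf.nil))) (Pf.T 6 1 (Pf.cons (Pf.T 6 11 (Pf.cons (Pf.T 6 12 (Pf.cons (Pf.W 9 0 [5,6] [1,2,3,4] (Pf.cons (Pf.B 7 6 (Pf.C 5 98311) (Pf.B 7 4 (Pf.B 7 3 (Pf.B 7 2 (Pf.B 7 1 (Pf.W 9 4 [2] [0,1,3,6,7] (Pf.cons (Pf.B 8 7 (Pf.B 8 6 (Pf.B 8 3 (Pf.B 8 2 (Pf.B 8 1 (Pf.B 8 0 (Pf.C 1 0x182021c008) (Pf.C 5 98312)) (Pf.C 5 66561)) (Pf.C 6 33288)) (Pf.C 5 66563)) (Pf.C 5 0x1c308)) (Pf.C 5 66567)) (Pf.cons (Pf.C 3 33796) Pf.nil))) (Pf.C 5 897)) (Pf.C 6 33543)) (Pf.C 5 899))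 (Pf.C 5 900))) (Pf.cons (Pf.C 3 82816) Pf.nil))) Pf.nil)) Pf.nil)) (Pf.cons (Pf.T 6 13 (Pf.cons (Pf.W 9 0 [5,6] [2] (Pf.cons (Pf.B 7 6 (Pf.C 5 98311) (Pf.C 10 0x400386)) (Pf.cons (Pf.C 3 82816) Pf.nil))) Pf.nil)) Pf.nil)))) (Pf.C 5 769)) (Pf.C 5 771)) (Pf.C 5 772)) (Pf.cons (Pf.C 3 82688) Pf.nil))) Pf.nil)) (Pf.cons (Pf.T 5 15 (Pf.cons (Pf.W 9 0 [5] [1,2,3,4] (Pf.cons (Pf.B 6 4 (Pf.B 6 3 (Pf.B 6 1 (Pf.B 6 2 (Pf.W 9 4 [2] [0,1,3,6] (Pf.cons (Pf.B 7 6 (Pf.B 7 3 (Pf.B 7 2 (Pf.B 7 1 (Pf.B 7 0 (Pf.C 1 0x1820218007) (Pf.C 5 98311)) (Pf.C 5 66433)) (Pf.C 6 33287)) (Pf.C 5 66435)) (Pf.C 5 66438)) (Pf.cons (Pf.C 3 33668) Pf.nil))) (Pf.T 6 1 (Pf.cons (Pf.T 6 11 (Pf.cons (Pf.T 6 12 (Pf.cons (Pf.W 9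 0 [5,6] [1,2,3,4] (Pf.cons (Pf.B 7 6 (Pf.C 5 98311) (Pf.B 7 4 (Pf.B 7 3 (Pf.B 7 2 (Pf.B 7 1 (Pf.W 9 4 [2] [0,1,3,6,7] (Pf.cons (Pf.B 8 7 (Pf.B 8 6 (Pf.B 8 3 (Pf.B 8 2 (Pf.B 8 1 (Pf.B 8 0 (Pf.C 1 0x182021c008) (Pf.C 5 98312)) (Pf.C 5 66561)) (Pf.C 6 33288)) (Pf.C 5 66563)) (Pf.C 5 0x1c308)) (Pf.C 5 66567)) (Pf.cons (Pf.C 3 33796) Pf.nil))) (Pf.C 5 897)) (Pf.C 6 33543)) (Pf.C 5 899)) (Pf.C 5 900))) (Pf.cons (Pf.C 3 82816) Pf.nil))) Pf.nil)) Pf.nil)) (Pf.cons (Pf.T 6 13 (Pf.cons (Pf.W 9 0 [5,6] [2] (Pf.cons (Pf.B 7 6 (Pf.C 5 98311) (Pf.C 10 0x400386)) (Pf.cons (Pf.C 3 82816) Pf.nil))) Pf.nil)) Pf.nil)))) (Pf.C 5 769)) (Pf.C 5 771)) (Pf.C 5 772)) (Pf.cons (Pf.C 3 82688) Pf.nil))) Pf.nil)) Pf.nil)))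 Pf.nil))) (Pf.cons (Pf.W 9 0 [4] [1,2,3] (Pf.cons (Pf.B 5 4 (Pf.C 5 65541) (Pf.B 5 3 (Pf.B 5 2 (Pf.B 5 1 (Pf.T 5 1 (Pf.cons (Pf.T 5 11 (Pf.cons (Pf.T 5 12 (Pf.cons (Pf.W 9 0 [4,5] [1,2,3] (Pf.cons (Pf.B 6 5 (Pf.C 5 81926) (Pf.B 6 4 (Pf.C 5 65542) (Pf.B 6 3 (Pf.B 6 2 (Pf.B 6 1 (Pf.T 6 1 (Pf.cons (Pf.T 6 11 (Pf.cons (Pf.T 6 12 (Pf.cons (Pf.W 13 32772 [] [1,3,5,6] (Pf.cons (Pf.C 5 65543) (Pf.cons (Pf.C 5 65543) (Pf.cons (Pf.B 7 6 (Pf.B 7 5 (Pf.B 7 3 (Pf.B 7 2 (Pf.C 2 263) (Pf.B 7 1 (Pf.T 7 14 (Pf.cons (Pf.W 7 385 [] [2,5,6,7] (Pf.cons (Pf.B 8 6 (Pf.B 8 5 (Pf.B 8 7 (Pf.B 8 2 (Pf.C 1 0x3820618288) (Pf.C 6 32904)) (Pf.C 1 0x880e18283)) (Pf.C 5 98952)) (Pf.C 5 17414)) (Pf.cons (Pf.B 8 6 (Pf.B 8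 5 (Pf.B 8 7 (Pf.B 8 2 (Pf.C 1 0x3820218288) (Pf.C 6 33160)) (Pf.C 1 0x1880e18281)) (Pf.C 5 98952)) (Pf.C 5 50182)) (Pf.cons (Pf.C 3 33793) (Pf.cons (Pf.C 3 33795) Pf.nil))))) Pf.nil)) (Pf.C 3 33665))) (Pf.C 3 33667)) (Pf.C 6 0x1c005)) (Pf.C 6 0x1c006)) (Pf.cons (Pf.B 7 6 (Pf.B 7 5 (Pf.B 7 3 (Pf.B 7 2 (Pf.C 2 263) (Pf.B 7 1 (Pf.T 7 15 (Pf.cons (Pf.W 7 385 [] [2,5,6,7] (Pf.cons (Pf.B 8 6 (Pf.B 8 5 (Pf.B 8 7 (Pf.B 8 2 (Pf.C 1 0x3820618288) (Pf.C 6 32904)) (Pf.C 1 0x880e18283)) (Pf.C 5 98952)) (Pf.C 5 17414)) (Pf.cons (Pf.B 8 6 (Pf.B 8 5 (Pf.B 8 7 (Pf.B 8 2 (Pf.C 1 0x3820218288) (Pf.C 6 33160)) (Pf.C 1 0x1880e18281)) (Pf.C 5 98952)) (Pf.C 5 50182)) (Pf.cons (Pf.C 3 33793) (Pf.cons (Pf.C 3 33795)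 Pf.nil))))) Pf.nil)) (Pf.C 3 33665))) (Pf.C 3 33667)) (Pf.C 6 0x1c005)) (Pf.C 6 0x1c006)) Pf.nil))))) Pf.nil)) Pf.nil)) (Pf.cons (Pf.C 10 0xa10006) Pf.nil))) (Pf.C 5 769)) (Pf.C 6 33286)) (Pf.C 5 771)))) (Pf.cons (Pf.B 6 5 (Pf.B 6 4 (Pf.B 6 3 (Pf.B 6 1 (Pf.W 13 32772 [] [6,1,3,5] (Pf.cons (Pf.C 5 65543) (Pf.cons (Pf.C 5 65543) (Pf.cons (Pf.T 6 14 (Pf.cons (Pf.W 7 385 [] [0,2,4,5,6] (Pf.cons (Pf.B 7 5 (Pf.B 7 4 (Pf.B 7 6 (Pf.B 7 0 (Pf.C 1 0x3000804383) (Pf.C 5 65543)) (Pf.C 1 0x870c14203)) (Pf.C 5 82439)) (Pf.C 5 17285)) (Pf.cons (Pf.B 7 5 (Pf.B 7 4 (Pf.B 7 6 (Pf.B 7 0 (Pf.C 1 0x300080c381) (Pf.C 5 65543)) (Pf.C 1 0x1870c14201)) (Pf.C 5 82439)) (Pf.C 5 50053)) (Pf.cons (Pf.C 3 33665) (Pf.cons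 (Pf.C 3 33667) Pf.nil))))) Pf.nil)) (Pf.cons (Pf.C 3 99200) (Pf.cons (Pf.T 6 15 (Pf.cons (Pf.W 7 385 [] [0,2,4,5,6] (Pf.cons (Pf.B 7 5 (Pf.B 7 4 (Pf.B 7 6 (Pf.B 7 0 (Pf.C 1 0x3000804383) (Pf.C 5 65543)) (Pf.C 1 0x870c14203)) (Pf.C 5 82439)) (Pf.C 5 17285)) (Pf.cons (Pf.B 7 5 (Pf.B 7 4 (Pf.B 7 6 (Pf.B 7 0 (Pf.C 1 0x300080c381) (Pf.C 5 65543)) (Pf.C 1 0x1870c14201)) (Pf.C 5 82439)) (Pf.C 5 50053)) (Pf.cons (Pf.C 3 33665) (Pf.cons (Pf.C 3 33667) Pf.nil))))) Pf.nil)) (Pf.cons (Pf.C 3 99200) Pf.nil))))))) (Pf.C 3 33537)) (Pf.C 3 33539)) (Pf.C 3 33540)) (Pf.C 6 98309)) Pf.nil))) Pf.nil)) Pf.nil)) (Pf.cons (Pf.T 5 13 (Pf.cons (Pf.W 9 0 [4,5] [1,2,3] (Pf.cons (Pf.B 6 5 (Pf.C 5 81926) (Pf.C 10 0x800305))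 (Pf.cons (Pf.B 6 5 (Pf.B 6 4 (Pf.B 6 3 (Pf.B 6 1 (Pf.W 13 32772 [] [6,1,3,5] (Pf.cons (Pf.C 5 65543) (Pf.cons (Pf.C 5 65543) (Pf.cons (Pf.T 6 14 (Pf.cons (Pf.W 7 385 [] [0,2,4,5,6] (Pf.cons (Pf.B 7 5 (Pf.B 7 4 (Pf.B 7 6 (Pf.B 7 0 (Pf.C 1 0x3000804383) (Pf.C 5 65543)) (Pf.C 1 0x870c14203)) (Pf.C 5 82439)) (Pf.C 5 17285)) (Pf.cons (Pf.B 7 5 (Pf.B 7 4 (Pf.B 7 6 (Pf.B 7 0 (Pf.C 1 0x300080c381) (Pf.C 5 65543)) (Pf.C 1 0x1870c14201)) (Pf.C 5 82439)) (Pf.C 5 50053)) (Pf.cons (Pf.C 3 33665) (Pf.cons (Pf.C 3 33667) Pf.nil))))) Pf.nil)) (Pf.cons (Pf.C 3 99200) (Pf.cons (Pf.T 6 15 (Pf.cons (Pf.W 7 385 [] [0,2,4,5,6] (Pf.cons (Pf.B 7 5 (Pf.B 7 4 (Pf.B 7 6 (Pf.B 7 0 (Pf.C 1 0x3000804383) (Pf.C 5 65543))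 (Pf.C 1 0x870c14203)) (Pf.C 5 82439)) (Pf.C 5 17285)) (Pf.cons (Pf.B 7 5 (Pf.B 7 4 (Pf.B 7 6 (Pf.B 7 0 (Pf.C 1 0x300080c381) (Pf.C 5 65543)) (Pf.C 1 0x1870c14201)) (Pf.C 5 82439)) (Pf.C 5 50053)) (Pf.cons (Pf.C 3 33665) (Pf.cons (Pf.C 3 33667) Pf.nil))))) Pf.nil)) (Pf.cons (Pf.C 3 99200) Pf.nil))))))) (Pf.C 3 33537)) (Pf.C 3 33539)) (Pf.C 3 33540)) (Pf.C 6 98309)) Pf.nil))) Pf.nil)) Pf.nil))) (Pf.C 5 641)) (Pf.C 6 33285)) (Pf.C 5 643))) (Pf.cons (Pf.B 5 4 (Pf.B 5 3 (Pf.B 5 1 (Pf.W 13 32772 [] [5,1,3] (Pf.cons (Pf.C 5 65542) (Pf.cons (Pf.C 5 65542) (Pf.cons (Pf.T 5 14 (Pf.cons (Pf.W 9 0 [4,5] [1,2,3] (Pf.cons (Pf.B 6 5 (Pf.B 6 4 (Pf.C 5 65542) (Pf.B 6 3 (Pf.B 6 1 (Pf.W 7 385 [] [0,2,4,5,6]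 (Pf.cons (Pf.B 7 6 (Pf.B 7 4 (Pf.B 7 5 (Pf.B 7 0 (Pf.C 1 0x2800804383) (Pf.C 5 65543)) (Pf.C 1 0x870a18203)) (Pf.C 5 98823)) (Pf.C 5 17286)) (Pf.cons (Pf.B 7 6 (Pf.B 7 4 (Pf.B 7 5 (Pf.B 7 0 (Pf.C 1 0x280080c381) (Pf.C 5 65543)) (Pf.C 1 0x1870a18201)) (Pf.C 5 98823)) (Pf.C 5 50054)) (Pf.cons (Pf.C 3 33665) (Pf.cons (Pf.C 3 33667) Pf.nil))))) (Pf.C 5 769)) (Pf.C 5 771))) (Pf.C 6 81926)) (Pf.cons (Pf.C 3 82688) Pf.nil))) Pf.nil)) (Pf.cons (Pf.C 3 82688) (Pf.cons (Pf.T 5 15 (Pf.cons (Pf.W 9 0 [4,5] [1,2,3] (Pf.cons (Pf.B 6 5 (Pf.B 6 4 (Pf.C 5 65542) (Pf.B 6 3 (Pf.B 6 1 (Pf.W 7 385 [] [0,2,4,5,6] (Pf.cons (Pf.B 7 6 (Pf.B 7 4 (Pf.B 7 5 (Pf.B 7 0 (Pf.C 1 0x2800804383) (Pf.C 5 65543)) (Pf.C 1 0x870a18203))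 (Pf.C 5 98823)) (Pf.C 5 17286)) (Pf.cons (Pf.B 7 6 (Pf.B 7 4 (Pf.B 7 5 (Pf.B 7 0 (Pf.C 1 0x280080c381) (Pf.C 5 65543)) (Pf.C 1 0x1870a18201)) (Pf.C 5 98823)) (Pf.C 5 50054)) (Pf.cons (Pf.C 3 33665) (Pf.cons (Pf.C 3 33667) Pf.nil))))) (Pf.C 5 769)) (Pf.C 5 771))) (Pf.C 6 81926)) (Pf.cons (Pf.C 3 82688) Pf.nil))) Pf.nil)) (Pf.cons (Pf.C 3 82688) Pf.nil))))))) (Pf.C 3 33409)) (Pf.C 3 33411)) (Pf.C 3 33412)) Pf.nil))) Pf.nil))) Pf.nil)) (Pf.cons (Pf.T 4 13 (Pf.cons (Pf.W 9 0 [] [1,2,3,4] (Pf.cons (Pf.B 5 4 (Pf.B 5 3 (Pf.B 5 1 (Pf.B 5 2 (Pf.W 7 385 [] [0,2,4,5] (Pf.cons (Pf.B 6 5 (Pf.B 6 4 (Pf.B 6 2 (Pf.B 6 0 (Pf.C 1 0x2020614006) (Pf.C 5 81926)) (Pf.C 6 32902)) (Pf.C 5 17156)) (Pf.C 5 17157))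 (Pf.cons (Pf.B 6 5 (Pf.B 6 4 (Pf.B 6 2 (Pf.B 6 0 (Pf.C 1 0x2020214006) (Pf.C 5 81926)) (Pf.C 6 33158)) (Pf.C 5 49924)) (Pf.C 5 49925)) (Pf.cons (Pf.C 3 33537) (Pf.cons (Pf.C 3 33539) Pf.nil))))) (Pf.T 5 1 (Pf.cons (Pf.T 5 11 (Pf.cons (Pf.T 5 12 (Pf.cons (Pf.W 9 0 [5] [1,2,3,4] (Pf.cons (Pf.B 6 5 (Pf.C 5 81926) (Pf.B 6 4 (Pf.B 6 3 (Pf.B 6 2 (Pf.B 6 1 (Pf.W 7 385 [] [0,2,4,5,6] (Pf.cons (Pf.B 7 6 (Pf.B 7 5 (Pf.B 7 4 (Pf.B 7 2 (Pf.B 7 0 (Pf.C 1 0x2020618007) (Pf.C 5 81927)) (Pf.C 6 32903)) (Pf.C 5 17284)) (Pf.C 5 98951)) (Pf.C 5 17286)) (Pf.cons (Pf.B 7 6 (Pf.B 7 5 (Pf.B 7 4 (Pf.B 7 2 (Pf.B 7 0 (Pf.C 1 0x2020218007) (Pf.C 5 81927)) (Pf.C 6 33159)) (Pf.C 5 50052)) (Pf.C 5 98951)) (Pf.C 5 50054))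 (Pf.cons (Pf.C 3 33665) (Pf.cons (Pf.C 3 33667) Pf.nil))))) (Pf.C 5 769)) (Pf.C 6 33414)) (Pf.C 5 771)) (Pf.C 5 772))) (Pf.cons (Pf.W 13 32773 [] [6,1,3,4] (Pf.cons (Pf.C 5 81927) (Pf.cons (Pf.C 5 81927) (Pf.cons (Pf.T 6 14 (Pf.cons (Pf.W 9 0 [5,6] [1,2,3,4] (Pf.cons (Pf.B 7 5 (Pf.C 5 81927) (Pf.B 7 4 (Pf.B 7 3 (Pf.B 7 2 (Pf.B 7 1 (Pf.W 7 385 [] [0,2,4,5,7] (Pf.cons (Pf.B 8 7 (Pf.B 8 5 (Pf.B 8 4 (Pf.B 8 2 (Pf.B 8 0 (Pf.C 1 0x202061c008) (Pf.C 5 81928)) (Pf.C 6 32904)) (Pf.C 5 17412)) (Pf.C 5 0x1c288)) (Pf.C 5 17415)) (Pf.cons (Pf.B 8 7 (Pf.B 8 5 (Pf.B 8 4 (Pf.B 8 2 (Pf.B 8 0 (Pf.C 1 0x202021c008) (Pf.C 5 81928)) (Pf.C 6 33160)) (Pf.C 5 50180)) (Pf.C 5 0x1c288)) (Pf.C 5 50183)) (Pf.cons (Pf.C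 3 33793) (Pf.cons (Pf.C 3 33795) Pf.nil))))) (Pf.C 5 897)) (Pf.C 6 33415)) (Pf.C 5 899)) (Pf.C 5 900))) (Pf.cons (Pf.C 3 99200) Pf.nil))) Pf.nil)) (Pf.cons (Pf.C 3 99200) (Pf.cons (Pf.T 6 15 (Pf.cons (Pf.W 9 0 [5,6] [1,2,3,4] (Pf.cons (Pf.B 7 5 (Pf.C 5 81927) (Pf.B 7 4 (Pf.B 7 3 (Pf.B 7 2 (Pf.B 7 1 (Pf.W 7 385 [] [0,2,4,5,7] (Pf.cons (Pf.B 8 7 (Pf.B 8 5 (Pf.B 8 4 (Pf.B 8 2 (Pf.B 8 0 (Pf.C 1 0x202061c008) (Pf.C 5 81928)) (Pf.C 6 32904)) (Pf.C 5 17412)) (Pf.C 5 0x1c288)) (Pf.C 5 17415)) (Pf.cons (Pf.B 8 7 (Pf.B 8 5 (Pf.B 8 4 (Pf.B 8 2 (Pf.B 8 0 (Pf.C 1 0x202021c008) (Pf.C 5 81928)) (Pf.C 6 33160)) (Pf.C 5 50180)) (Pf.C 5 0x1c288)) (Pf.C 5 50183)) (Pf.cons (Pf.C 3 33793) (Pf.cons (Pf.C 3 33795)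 Pf.nil))))) (Pf.C 5 897)) (Pf.C 6 33415)) (Pf.C 5 899)) (Pf.C 5 900))) (Pf.cons (Pf.C 3 99200) Pf.nil))) Pf.nil)) (Pf.cons (Pf.C 3 99200) Pf.nil))))))) Pf.nil))) Pf.nil)) Pf.nil)) (Pf.cons (Pf.T 5 13 (Pf.cons (Pf.W 9 0 [5] [2] (Pf.cons (Pf.B 6 5 (Pf.C 5 81926) (Pf.C 10 0x400305)) (Pf.cons (Pf.W 9 0 [5,6] [2] (Pf.cons (Pf.B 7 5 (Pf.C 5 81927) (Pf.C 10 0x400385)) (Pf.cons (Pf.C 3 99200) Pf.nil))) Pf.nil))) Pf.nil)) Pf.nil)))) (Pf.C 5 641)) (Pf.C 5 643)) (Pf.C 5 644)) (Pf.cons (Pf.T 5 2 (Pf.cons (Pf.T 5 14 (Pf.cons (Pf.W 9 0 [5] [1,2,3,4] (Pf.cons (Pf.B 6 4 (Pf.B 6 3 (Pf.B 6 1 (Pf.B 6 2 (Pf.W 7 385 [] [0,2,4,6] (Pf.cons (Pf.B 7 6 (Pf.B 7 4 (Pf.B 7 2 (Pf.B 7 0 (Pf.C 1 0x2020618007) (Pf.C 5 98311))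 (Pf.C 6 32903)) (Pf.C 5 17284)) (Pf.C 5 17286)) (Pf.cons (Pf.B 7 6 (Pf.B 7 4 (Pf.B 7 2 (Pf.B 7 0 (Pf.C 1 0x2020218007) (Pf.C 5 98311)) (Pf.C 6 33159)) (Pf.C 5 50052)) (Pf.C 5 50054)) (Pf.cons (Pf.C 3 33665) (Pf.cons (Pf.C 3 33667) Pf.nil))))) (Pf.T 6 1 (Pf.cons (Pf.T 6 11 (Pf.cons (Pf.T 6 12 (Pf.cons (Pf.W 9 0 [5,6] [1,2,3,4] (Pf.cons (Pf.B 7 6 (Pf.C 5 98311) (Pf.B 7 4 (Pf.B 7 3 (Pf.B 7 2 (Pf.B 7 1 (Pf.W 7 385 [] [0,2,4,6,7] (Pf.cons (Pf.B 8 7 (Pf.B 8 6 (Pf.B 8 4 (Pf.B 8 2 (Pf.B 8 0 (Pf.C 1 0x202061c008) (Pf.C 5 98312)) (Pf.C 6 32904)) (Pf.C 5 17412)) (Pf.C 5 0x1c308)) (Pf.C 5 17415)) (Pf.cons (Pf.B 8 7 (Pf.B 8 6 (Pf.B 8 4 (Pf.B 8 2 (Pf.B 8 0 (Pf.C 1 0x202021c008) (Pf.C 5 98312)) (Pf.C 6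 33160)) (Pf.C 5 50180)) (Pf.C 5 0x1c308)) (Pf.C 5 50183)) (Pf.cons (Pf.C 3 33793) (Pf.cons (Pf.C 3 33795) Pf.nil))))) (Pf.C 5 897)) (Pf.C 6 33543)) (Pf.C 5 899)) (Pf.C 5 900))) (Pf.cons (Pf.C 3 82816) Pf.nil))) Pf.nil)) Pf.nil)) (Pf.cons (Pf.T 6 13 (Pf.cons (Pf.W 9 0 [5,6] [2] (Pf.cons (Pf.B 7 6 (Pf.C 5 98311) (Pf.C 10 0x400386)) (Pf.cons (Pf.C 3 82816) Pf.nil))) Pf.nil)) Pf.nil)))) (Pf.C 5 769)) (Pf.C 5 771)) (Pf.C 5 772)) (Pf.cons (Pf.C 3 82688) Pf.nil))) Pf.nil)) (Pf.cons (Pf.T 5 15 (Pf.cons (Pf.W 9 0 [5] [1,2,3,4] (Pf.cons (Pf.B 6 4 (Pf.B 6 3 (Pf.B 6 1 (Pf.B 6 2 (Pf.W 7 385 [] [0,2,4,6] (Pf.cons (Pf.B 7 6 (Pf.B 7 4 (Pf.B 7 2 (Pf.B 7 0 (Pf.C 1 0x2020618007) (Pf.C 5 98311)) (Pf.C 6 32903))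 (Pf.C 5 17284)) (Pf.C 5 17286)) (Pf.cons (Pf.B 7 6 (Pf.B 7 4 (Pf.B 7 2 (Pf.B 7 0 (Pf.C 1 0x2020218007) (Pf.C 5 98311)) (Pf.C 6 33159)) (Pf.C 5 50052)) (Pf.C 5 50054)) (Pf.cons (Pf.C 3 33665) (Pf.cons (Pf.C 3 33667) Pf.nil))))) (Pf.T 6 1 (Pf.cons (Pf.T 6 11 (Pf.cons (Pf.T 6 12 (Pf.cons (Pf.W 9 0 [5,6] [1,2,3,4] (Pf.cons (Pf.B 7 6 (Pf.C 5 98311) (Pf.B 7 4 (Pf.B 7 3 (Pf.B 7 2 (Pf.B 7 1 (Pf.W 7 385 [] [0,2,4,6,7] (Pf.cons (Pf.B 8 7 (Pf.B 8 6 (Pf.B 8 4 (Pf.B 8 2 (Pf.B 8 0 (Pf.C 1 0x202061c008) (Pf.C 5 98312)) (Pf.C 6 32904)) (Pf.C 5 17412)) (Pf.C 5 0x1c308)) (Pf.C 5 17415)) (Pf.cons (Pf.B 8 7 (Pf.B 8 6 (Pf.B 8 4 (Pf.B 8 2 (Pf.B 8 0 (Pf.C 1 0x202021c008) (Pf.C 5 98312)) (Pf.C 6 33160)) (Pf.C 5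 50180)) (Pf.C 5 0x1c308)) (Pf.C 5 50183)) (Pf.cons (Pf.C 3 33793) (Pf.cons (Pf.C 3 33795) Pf.nil))))) (Pf.C 5 897)) (Pf.C 6 33543)) (Pf.C 5 899)) (Pf.C 5 900))) (Pf.cons (Pf.C 3 82816) Pf.nil))) Pf.nil)) Pf.nil)) (Pf.cons (Pf.T 6 13 (Pf.cons (Pf.W 9 0 [5,6] [2] (Pf.cons (Pf.B 7 6 (Pf.C 5 98311) (Pf.C 10 0x400386)) (Pf.cons (Pf.C 3 82816) Pf.nil))) Pf.nil)) Pf.nil)))) (Pf.C 5 769)) (Pf.C 5 771)) (Pf.C 5 772)) (Pf.cons (Pf.C 3 82688) Pf.nil))) Pf.nil)) Pf.nil))) Pf.nil))) (Pf.cons (Pf.W 9 0 [4] [2] (Pf.cons (Pf.B 5 4 (Pf.C 5 65541) (Pf.C 10 0x400284)) (Pf.cons (Pf.W 9 0 [4,5] [2] (Pf.cons (Pf.B 6 4 (Pf.C 5 65542) (Pf.C 10 0x400304)) (Pf.cons (Pf.C 3 82688) Pf.nil))) Pf.nil))) Pf.nil))) Pf.nil)))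 (Pf.C 6 32900)) (Pf.C 6 33156)) Pf.nil)) (Pf.cons (Pf.W 9 0 [3] [2] (Pf.cons (Pf.B 4 3 (Pf.C 5 49156) (Pf.C 10 0x400203)) (Pf.cons (Pf.W 9 0 [3,4] [2] (Pf.cons (Pf.B 5 3 (Pf.C 5 49157) (Pf.C 10 0x400283)) (Pf.cons (Pf.C 3 66176) Pf.nil))) Pf.nil))) Pf.nil))) Pf.nil))) (Pf.C 6 32899)) Pf.nil)))
 (Pq.cons (Pq.L [0] 1 (Pf.W 9 0 [1] [2] (Pf.cons (Pf.B 3 1 (Pf.C 5 16387) (Pf.C 10 0x400181)) (Pf.cons (Pf.W 9 0 [1,3] [2] (Pf.cons (Pf.B 4 1 (Pf.C 5 16388) (Pf.C 10 0x400201)) (Pf.cons (Pf.C 3 49664) Pf.nil))) Pf.nil))))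
 (Pq.cons (Pq.L [] 1 (Pf.C 2 257))
 (Pq.cons (Pq.L [] 1 (Pf.C 2 257))
 (Pq.cons (Pq.L [] 1 (Pf.C 2 257))
 Pq.nil)))))
theorem e1_o21 : AllRef e1_T e1_G27 (List.drop 3 (closeObl (e1_T.sc.get 0) false [35,36,37,38,39,40,41,42] [0,0,0,0,1,1,1,1] [0] [0] 239)) :=
  chkPq_sound e1_o21c _ (by decide +kernel)
noncomputable def e1_o22c : Pq := (Pq.cons (Pq.L [] 0 (Pf.X 0 1))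
 (Pq.cons (Pq.L [] 1 (Pf.C 31 130))
 (Pq.cons (Pq.L [] 1 (Pf.C 35 130))
 (Pq.cons (Pq.L [] 1 (Pf.W 34 1 [] [2] (Pf.cons (Pf.B 3 2 (Pf.C 5 32899) (Pf.C 35 386)) Pf.nil)))
 (Pq.cons (Pq.L [0] 1 (Pf.C 5 32896))
 (Pq.cons (Pq.L [] 1 (Pf.W 26 1 [] [2] (Pf.cons (Pf.B 3 2 (Pf.W 9 2 [1] [3] (Pf.cons (Pf.B 4 1 (Pf.C 5 16644) (Pf.C 10 0x608201)) (Pf.cons (Pf.W 9 2 [1,4] [3] (Pf.cons (Pf.B 5 1 (Pf.C 5 16645) (Pf.C 10 0x608281)) (Pf.cons (Pf.C 3 66178) Pf.nil))) Pf.nil))) (Pf.C 25 386)) (Pf.cons (Pf.B 3 2 (Pf.W 9 2 [1] [3] (Pf.cons (Pf.B 4 1 (Pf.C 5 16644) (Pf.C 10 0x608201)) (Pf.cons (Pf.W 9 2 [1,4] [3] (Pf.cons (Pf.B 5 1 (Pf.C 5 16645) (Pf.C 10 0x608281)) (Pf.cons (Pf.C 3 66178) Pf.nil))) Pf.nil)))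 (Pf.C 25 386)) Pf.nil))))
 (Pq.cons (Pq.L [] 1 (Pf.W 32 1 [] [2] (Pf.cons (Pf.B 3 2 (Pf.C 5 32899) (Pf.C 31 386)) (Pf.cons (Pf.B 3 2 (Pf.C 5 32899) (Pf.W 26 3 [] [1,2] (Pf.cons (Pf.C 10 0x404203) (Pf.cons (Pf.C 10 0x404203) Pf.nil)))) (Pf.cons (Pf.B 3 2 (Pf.W 9 2 [1] [3] (Pf.cons (Pf.B 4 1 (Pf.C 5 16644) (Pf.C 10 0x608201)) (Pf.cons (Pf.W 9 2 [1,4] [3] (Pf.cons (Pf.B 5 1 (Pf.C 5 16645) (Pf.C 10 0x608281)) (Pf.cons (Pf.C 3 66178) Pf.nil))) Pf.nil))) (Pf.C 31 386)) Pf.nil)))))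
 (Pq.cons (Pq.L [] 1 (Pf.W 36 1 [] [2] (Pf.cons (Pf.B 3 2 (Pf.C 5 32899) (Pf.C 35 386)) (Pf.cons (Pf.B 3 2 (Pf.C 5 32899) (Pf.W 32 3 [] [1,2] (Pf.cons (Pf.C 10 0x404203) (Pf.cons (Pf.C 10 0x404203) (Pf.cons (Pf.C 10 0x404203) Pf.nil))))) Pf.nil))))
 (Pq.cons (Pq.L [0] 1 (Pf.C 5 32896))
 (Pq.cons (Pq.L [] 1 (Pf.C 25 130))
 (Pq.cons (Pq.L [] 1 (Pf.C 31 130))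
 (Pq.cons (Pq.L [0] 1 (Pf.W 38 1 [] [0,2] (Pf.cons (Pf.B 3 2 (Pf.W 30 3 [] [0,1,2] (Pf.cons (Pf.B 4 2 (Pf.B 4 1 (Pf.W 24 4 [] [0,2,3] (Pf.cons (Pf.B 5 3 (Pf.B 5 2 (Pf.W 9 0 [5] [2,3,4] (Pf.cons (Pf.B 6 5 (Pf.B 6 4 (Pf.B 6 3 (Pf.B 6 2 (Pf.W 9 0 [5,6] [2,3,4] (Pf.cons (Pf.B 7 6 (Pf.C 5 98311) (Pf.B 7 5 (Pf.B 7 4 (Pf.B 7 3 (Pf.B 7 2 (Pf.C 1 0x2840618382) (Pf.C 5 898)) (Pf.C 5 65927)) (Pf.C 5 900)) (Pf.C 6 81927))) (Pf.cons (Pf.C 3 82816) Pf.nil))) (Pf.C 5 770)) (Pf.C 5 65926)) (Pf.C 5 772)) (Pf.C 6 81926)) (Pf.cons (Pf.C 3 82688) Pf.nil))) (Pf.C 25 642)) (Pf.C 25 643)) (Pf.cons (Pf.B 5 3 (Pf.B 5 2 (Pf.W 9 0 [5] [2,3,4] (Pf.cons (Pf.B 6 5 (Pf.B 6 4 (Pf.B 6 3 (Pf.B 6 2 (Pf.W 9 0 [5,6] [2,3,4]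 (Pf.cons (Pf.B 7 6 (Pf.C 5 98311) (Pf.B 7 5 (Pf.B 7 4 (Pf.B 7 3 (Pf.B 7 2 (Pf.C 1 0x2840618382) (Pf.C 5 898)) (Pf.C 5 65927)) (Pf.C 5 900)) (Pf.C 6 81927))) (Pf.cons (Pf.C 3 82816) Pf.nil))) (Pf.C 5 770)) (Pf.C 5 65926)) (Pf.C 5 772)) (Pf.C 6 81926)) (Pf.cons (Pf.C 3 82688) Pf.nil))) (Pf.C 25 642)) (Pf.C 25 643)) Pf.nil))) (Pf.C 6 16772)) (Pf.C 31 514)) (Pf.cons (Pf.C 3 16899) Pf.nil))) (Pf.C 35 386)) (Pf.cons (Pf.B 3 2 (Pf.W 32 3 [] [0,1,2] (Pf.cons (Pf.B 4 2 (Pf.B 4 1 (Pf.W 24 4 [] [1,3] (Pf.cons (Pf.W 9 4 [3,5] [1] (Pf.cons (Pf.B 6 3 (Pf.C 5 49670) (Pf.C 10 0x804303)) (Pf.cons (Pf.C 3 82692) Pf.nil))) (Pf.cons (Pf.W 9 4 [3,5] [1] (Pf.cons (Pf.B 6 3 (Pf.C 5 49670) (Pf.C 10 0x804303)) (Pf.cons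 (Pf.C 3 82692) Pf.nil))) Pf.nil))) (Pf.C 6 16772)) (Pf.C 31 514)) (Pf.cons (Pf.B 4 2 (Pf.B 4 1 (Pf.W 26 4 [] [0,2,3] (Pf.cons (Pf.B 5 3 (Pf.B 5 2 (Pf.W 9 0 [5] [2,3,4] (Pf.cons (Pf.B 6 5 (Pf.B 6 4 (Pf.B 6 3 (Pf.B 6 2 (Pf.W 9 0 [5,6] [2,3,4] (Pf.cons (Pf.B 7 6 (Pf.C 5 98311) (Pf.B 7 5 (Pf.B 7 4 (Pf.B 7 3 (Pf.B 7 2 (Pf.C 1 0x2840618382) (Pf.C 5 898)) (Pf.C 5 65927)) (Pf.C 5 900)) (Pf.C 6 81927))) (Pf.cons (Pf.C 3 82816) Pf.nil))) (Pf.C 5 770)) (Pf.C 5 65926)) (Pf.C 5 772)) (Pf.C 6 81926)) (Pf.cons (Pf.C 3 82688) Pf.nil))) (Pf.C 25 642)) (Pf.C 27 643)) (Pf.cons (Pf.B 5 3 (Pf.B 5 2 (Pf.W 9 0 [5] [2,3,4] (Pf.cons (Pf.B 6 5 (Pf.B 6 4 (Pf.B 6 3 (Pf.B 6 2 (Pf.W 9 0 [5,6] [2,3,4] (Pf.cons (Pf.B 7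 6 (Pf.C 5 98311) (Pf.B 7 5 (Pf.B 7 4 (Pf.B 7 3 (Pf.B 7 2 (Pf.C 1 0x2840618382) (Pf.C 5 898)) (Pf.C 5 65927)) (Pf.C 5 900)) (Pf.C 6 81927))) (Pf.cons (Pf.C 3 82816) Pf.nil))) (Pf.C 5 770)) (Pf.C 5 65926)) (Pf.C 5 772)) (Pf.C 6 81926)) (Pf.cons (Pf.C 3 82688) Pf.nil))) (Pf.C 25 642)) (Pf.C 27 643)) Pf.nil))) (Pf.C 6 16772)) (Pf.C 5 49666)) (Pf.cons (Pf.C 3 16899) Pf.nil)))) (Pf.C 6 16643)) Pf.nil))))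
 (Pq.cons (Pq.L [0] 1 (Pf.W 40 1 [] [0,2] (Pf.cons (Pf.B 3 2 (Pf.W 34 3 [] [0,1,2] (Pf.cons (Pf.B 4 2 (Pf.B 4 1 (Pf.W 30 4 [] [0,1,2,3] (Pf.cons (Pf.B 5 3 (Pf.C 5 49669) (Pf.C 31 643)) (Pf.cons (Pf.B 5 3 (Pf.B 5 2 (Pf.W 28 5 [] [0,1,2,3,4] (Pf.cons (Pf.B 6 4 (Pf.B 6 3 (Pf.B 6 2 (Pf.W 9 0 [6] [1,2,3,4,5] (Pf.cons (Pf.B 7 6 (Pf.C 5 98311) (Pf.B 7 5 (Pf.B 7 4 (Pf.B 7 3 (Pf.B 7 2 (Pf.C 1 0x2840600382) (Pf.C 5 898)) (Pf.C 5 65927)) (Pf.C 5 900)) (Pf.C 6 82695))) (Pf.cons (Pf.B 7 6 (Pf.B 7 4 (Pf.B 7 3 (Pf.B 7 2 (Pf.C 1 0x3000e10182) (Pf.C 3 17282)) (Pf.C 3 17283)) (Pf.C 3 82820)) (Pf.C 3 82822)) Pf.nil))) (Pf.C 5 770)) (Pf.C 5 65926)) (Pf.C 5 772)) Pf.nil)) (Pf.C 31 642)) (Pf.C 31 643)) Pf.nil)))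 (Pf.C 39 513)) (Pf.C 35 514)) Pf.nil)) (Pf.C 6 16643)) (Pf.cons (Pf.B 3 2 (Pf.W 36 3 [] [0,1,2] (Pf.cons (Pf.B 4 2 (Pf.B 4 1 (Pf.W 30 4 [] [1,3] (Pf.cons (Pf.B 5 3 (Pf.C 5 49669) (Pf.C 33 643)) (Pf.cons (Pf.W 9 4 [3,5] [1] (Pf.cons (Pf.B 6 3 (Pf.C 5 49670) (Pf.C 10 0x804303)) (Pf.cons (Pf.C 3 82692) Pf.nil))) Pf.nil))) (Pf.C 39 513)) (Pf.C 35 514)) (Pf.cons (Pf.B 4 2 (Pf.B 4 1 (Pf.W 32 4 [] [0,1,2,3] (Pf.cons (Pf.B 5 3 (Pf.C 5 49669) (Pf.C 33 643)) (Pf.cons (Pf.B 5 3 (Pf.C 5 49669) (Pf.C 33 643)) (Pf.cons (Pf.B 5 3 (Pf.B 5 2 (Pf.W 28 5 [] [0,1,2,3,4] (Pf.cons (Pf.B 6 4 (Pf.B 6 3 (Pf.B 6 2 (Pf.W 9 0 [6] [1,2,3,4,5] (Pf.cons (Pf.B 7 6 (Pf.C 5 98311) (Pf.B 7 5 (Pf.B 7 4 (Pf.B 7 3 (Pf.B 7 2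 (Pf.C 1 0x2840600382) (Pf.C 5 898)) (Pf.C 5 65927)) (Pf.C 5 900)) (Pf.C 6 82695))) (Pf.cons (Pf.B 7 6 (Pf.B 7 4 (Pf.B 7 3 (Pf.B 7 2 (Pf.C 1 0x3000e10182) (Pf.C 3 17282)) (Pf.C 3 17283)) (Pf.C 3 82820)) (Pf.C 3 82822)) Pf.nil))) (Pf.C 5 770)) (Pf.C 5 65926)) (Pf.C 5 772)) Pf.nil)) (Pf.C 31 642)) (Pf.C 33 643)) Pf.nil)))) (Pf.C 39 513)) (Pf.C 5 49666)) Pf.nil))) (Pf.C 6 16643)) Pf.nil))))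
 (Pq.cons (Pq.L [] 1 (Pf.C 25 130))
 (Pq.cons (Pq.L [] 0 (Pf.X 0 1))
 (Pq.cons (Pq.L [] 1 (Pf.C 33 130))
 (Pq.cons (Pq.L [] 1 (Pf.C 37 130))
 (Pq.cons (Pq.L [] 1 (Pf.W 34 1 [] [2] (Pf.cons (Pf.B 3 2 (Pf.C 5 32899) (Pf.C 37 386)) Pf.nil)))
 (Pq.cons (Pq.L [0] 1 (Pf.C 5 32896))
 (Pq.cons (Pq.L [] 1 (Pf.C 33 130))
 (Pq.cons (Pq.L [] 1 (Pf.C 37 130))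
 (Pq.cons (Pq.L [] 1 (Pf.W 36 1 [] [2] (Pf.cons (Pf.B 3 2 (Pf.C 5 32899) (Pf.C 37 386)) (Pf.cons (Pf.B 3 2 (Pf.C 5 32899) (Pf.C 37 386)) Pf.nil))))
 (Pq.cons (Pq.L [0] 1 (Pf.C 5 32896))
 (Pq.cons (Pq.L [] 1 (Pf.C 27 130))
 (Pq.cons (Pq.L [] 1 (Pf.C 33 130))
 (Pq.cons (Pq.L [0] 0 (Pf.W 38 1 [] [0,2] (Pf.cons (Pf.B 3 2 (Pf.W 30 3 [] [0,1,2] (Pf.cons (Pf.B 4 2 (Pf.B 4 1 (Pf.W 24 4 [] [0,2,3] (Pf.cons (Pf.B 5 3 (Pf.B 5 2 (Pf.W 9 0 [5] [2,3,4] (Pf.cons (Pf.B 6 5 (Pf.B 6 4 (Pf.B 6 3 (Pf.B 6 2 (Pf.W 9 0 [5,6] [2,3,4] (Pf.cons (Pf.B 7 6 (Pf.C 5 98311) (Pf.B 7 5 (Pf.B 7 4 (Pf.B 7 3 (Pf.B 7 2 (Pf.C 1 0x2840618382) (Pf.C 5 898)) (Pf.C 5 65927)) (Pf.C 5 900)) (Pf.C 6 81927))) (Pf.cons (Pf.C 3 82816)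 Pf.nil))) (Pf.C 5 770)) (Pf.C 5 65926)) (Pf.C 5 772)) (Pf.C 6 81926)) (Pf.cons (Pf.C 3 82688) Pf.nil))) (Pf.C 27 642)) (Pf.C 25 643)) (Pf.cons (Pf.B 5 3 (Pf.B 5 2 (Pf.W 9 0 [5] [2,3,4] (Pf.cons (Pf.B 6 5 (Pf.B 6 4 (Pf.B 6 3 (Pf.B 6 2 (Pf.W 9 0 [5,6] [2,3,4] (Pf.cons (Pf.B 7 6 (Pf.C 5 98311) (Pf.B 7 5 (Pf.B 7 4 (Pf.B 7 3 (Pf.B 7 2 (Pf.C 1 0x2840618382) (Pf.C 5 898)) (Pf.C 5 65927)) (Pf.C 5 900)) (Pf.C 6 81927))) (Pf.cons (Pf.C 3 82816) Pf.nil))) (Pf.C 5 770)) (Pf.C 5 65926)) (Pf.C 5 772)) (Pf.C 6 81926)) (Pf.cons (Pf.C 3 82688) Pf.nil))) (Pf.C 27 642)) (Pf.C 25 643)) Pf.nil))) (Pf.C 6 16772)) (Pf.C 33 514)) (Pf.cons (Pf.C 3 16899) Pf.nil))) (Pf.C 37 386)) (Pf.cons (Pf.B 3 2 (Pf.W 32 3 []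 [0,1,2] (Pf.cons (Pf.B 4 2 (Pf.B 4 1 (Pf.W 24 4 [] [1,3] (Pf.cons (Pf.W 9 4 [3,5] [1] (Pf.cons (Pf.B 6 3 (Pf.C 5 49670) (Pf.C 10 0x804303)) (Pf.cons (Pf.C 3 82692) Pf.nil))) (Pf.cons (Pf.W 9 4 [3,5] [1] (Pf.cons (Pf.B 6 3 (Pf.C 5 49670) (Pf.C 10 0x804303)) (Pf.cons (Pf.C 3 82692) Pf.nil))) Pf.nil))) (Pf.C 6 16772)) (Pf.C 33 514)) (Pf.cons (Pf.B 4 2 (Pf.B 4 1 (Pf.W 26 4 [] [0,2,3] (Pf.cons (Pf.B 5 3 (Pf.B 5 2 (Pf.W 9 0 [5] [2,3,4] (Pf.cons (Pf.B 6 5 (Pf.B 6 4 (Pf.B 6 3 (Pf.B 6 2 (Pf.W 9 0 [5,6] [2,3,4] (Pf.cons (Pf.B 7 6 (Pf.C 5 98311) (Pf.B 7 5 (Pf.B 7 4 (Pf.B 7 3 (Pf.B 7 2 (Pf.C 1 0x2840618382) (Pf.C 5 898)) (Pf.C 5 65927)) (Pf.C 5 900)) (Pf.C 6 81927))) (Pf.cons (Pf.C 3 82816) Pf.nil)))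 (Pf.C 5 770)) (Pf.C 5 65926)) (Pf.C 5 772)) (Pf.C 6 81926)) (Pf.cons (Pf.C 3 82688) Pf.nil))) (Pf.C 27 642)) (Pf.C 27 643)) (Pf.cons (Pf.B 5 3 (Pf.B 5 2 (Pf.W 9 0 [5] [2,3,4] (Pf.cons (Pf.B 6 5 (Pf.B 6 4 (Pf.B 6 3 (Pf.B 6 2 (Pf.W 9 0 [5,6] [2,3,4] (Pf.cons (Pf.B 7 6 (Pf.C 5 98311) (Pf.B 7 5 (Pf.B 7 4 (Pf.B 7 3 (Pf.B 7 2 (Pf.C 1 0x2840618382) (Pf.C 5 898)) (Pf.C 5 65927)) (Pf.C 5 900)) (Pf.C 6 81927))) (Pf.cons (Pf.C 3 82816) Pf.nil))) (Pf.C 5 770)) (Pf.C 5 65926)) (Pf.C 5 772)) (Pf.C 6 81926)) (Pf.cons (Pf.C 3 82688) Pf.nil))) (Pf.C 27 642)) (Pf.C 27 643)) Pf.nil))) (Pf.C 6 16772)) (Pf.C 33 514)) (Pf.cons (Pf.C 3 16899) Pf.nil)))) (Pf.C 37 386)) Pf.nil))))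
 (Pq.cons (Pq.L [0] 1 (Pf.W 40 1 [] [0,2] (Pf.cons (Pf.B 3 2 (Pf.W 34 3 [] [0,1,2] (Pf.cons (Pf.B 4 2 (Pf.B 4 1 (Pf.W 30 4 [] [0,1,2,3] (Pf.cons (Pf.B 5 3 (Pf.C 5 49669) (Pf.C 31 643)) (Pf.cons (Pf.B 5 3 (Pf.B 5 2 (Pf.W 28 5 [] [0,1,2,3,4] (Pf.cons (Pf.B 6 4 (Pf.B 6 3 (Pf.B 6 2 (Pf.W 9 0 [6] [1,2,3,4,5] (Pf.cons (Pf.B 7 6 (Pf.C 5 98311) (Pf.B 7 5 (Pf.B 7 4 (Pf.B 7 3 (Pf.B 7 2 (Pf.C 1 0x2840600382) (Pf.C 5 898)) (Pf.C 5 65927)) (Pf.C 5 900)) (Pf.C 6 82695))) (Pf.cons (Pf.B 7 6 (Pf.B 7 4 (Pf.B 7 3 (Pf.B 7 2 (Pf.C 1 0x3000e10182) (Pf.C 3 17282)) (Pf.C 3 17283)) (Pf.C 3 82820)) (Pf.C 3 82822)) Pf.nil))) (Pf.C 5 770)) (Pf.C 5 65926)) (Pf.C 5 772)) Pf.nil)) (Pf.C 33 642)) (Pf.C 31 643)) Pf.nil)))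 (Pf.C 39 513)) (Pf.C 37 514)) Pf.nil)) (Pf.C 6 16643)) (Pf.cons (Pf.B 3 2 (Pf.W 36 3 [] [0,1,2] (Pf.cons (Pf.B 4 2 (Pf.B 4 1 (Pf.W 30 4 [] [1,3] (Pf.cons (Pf.B 5 3 (Pf.C 5 49669) (Pf.C 33 643)) (Pf.cons (Pf.W 9 4 [3,5] [1] (Pf.cons (Pf.B 6 3 (Pf.C 5 49670) (Pf.C 10 0x804303)) (Pf.cons (Pf.C 3 82692) Pf.nil))) Pf.nil))) (Pf.C 39 513)) (Pf.C 37 514)) (Pf.cons (Pf.B 4 2 (Pf.B 4 1 (Pf.W 32 4 [] [0,1,2,3] (Pf.cons (Pf.B 5 3 (Pf.C 5 49669) (Pf.C 33 643)) (Pf.cons (Pf.B 5 3 (Pf.C 5 49669) (Pf.C 33 643)) (Pf.cons (Pf.B 5 3 (Pf.B 5 2 (Pf.W 28 5 [] [0,1,2,3,4] (Pf.cons (Pf.B 6 4 (Pf.B 6 3 (Pf.B 6 2 (Pf.W 9 0 [6] [1,2,3,4,5] (Pf.cons (Pf.B 7 6 (Pf.C 5 98311) (Pf.B 7 5 (Pf.B 7 4 (Pf.B 7 3 (Pf.B 7 2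 (Pf.C 1 0x2840600382) (Pf.C 5 898)) (Pf.C 5 65927)) (Pf.C 5 900)) (Pf.C 6 82695))) (Pf.cons (Pf.B 7 6 (Pf.B 7 4 (Pf.B 7 3 (Pf.B 7 2 (Pf.C 1 0x3000e10182) (Pf.C 3 17282)) (Pf.C 3 17283)) (Pf.C 3 82820)) (Pf.C 3 82822)) Pf.nil))) (Pf.C 5 770)) (Pf.C 5 65926)) (Pf.C 5 772)) Pf.nil)) (Pf.C 33 642)) (Pf.C 33 643)) Pf.nil)))) (Pf.C 39 513)) (Pf.C 37 514)) Pf.nil))) (Pf.C 6 16643)) Pf.nil))))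
 (Pq.cons (Pq.L [] 1 (Pf.C 27 130))
 (Pq.cons (Pq.L [] 0 (Pf.X 0 1))
 (Pq.cons (Pq.L [] 1 (Pf.W 24 1 [] [2] (Pf.cons (Pf.C 3 33153) (Pf.cons (Pf.C 3 33153) Pf.nil))))
 (Pq.cons (Pq.L [] 1 (Pf.C 39 130))
 (Pq.cons (Pq.L [] 1 (Pf.C 41 130))
 (Pq.cons (Pq.L [] 1 (Pf.C 29 130))
 (Pq.cons (Pq.L [] 1 (Pf.W 26 1 [] [2] (Pf.cons (Pf.C 3 33153) (Pf.cons (Pf.C 3 33153) Pf.nil))))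
 (Pq.cons (Pq.L [] 1 (Pf.C 39 130))
 (Pq.cons (Pq.L [] 1 (Pf.C 41 130))
 (Pq.cons (Pq.L [0] 1 (Pf.W 9 0 [1] [2] (Pf.cons (Pf.B 3 1 (Pf.C 5 16387) (Pf.C 10 0x400181)) (Pf.cons (Pf.W 9 0 [1,3] [2] (Pf.cons (Pf.B 4 1 (Pf.C 5 16388) (Pf.C 10 0x400201)) (Pf.cons (Pf.C 3 49664) Pf.nil))) Pf.nil))))
 (Pq.cons (Pq.L [] 1 (Pf.C 2 257))
 (Pq.cons (Pq.L [] 1 (Pf.C 2 257))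
 (Pq.cons (Pq.L [] 1 (Pf.C 2 257))
 (Pq.cons (Pq.L [] 1 (Pf.C 2 257))
 (Pq.cons (Pq.L [] 1 (Pf.C 2 257))
 Pq.nil))))))))))))))))))))))))))))))))))))))))))
theorem e1_o22 : AllRef e1_T e1_G37 (closeObl (e1_T.sc.get 0) false [43,49,53,54,36,45,51,55,56,38,40,47,57,59,60,42] [0,0,0,0,0,0,0,0,0,0,1,1,1,1,1,1] [0] [0] 48887) :=
  chkPq_sound e1_o22c _ (by decide +kernel)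
noncomputable def e1_o23c : Pq := (Pq.cons (Pq.L [0] 0 (Pf.B 3 2 (Pf.C 5 32771) (Pf.B 3 1 (Pf.C 5 16387) (Pf.C 10 0x400083))))
 (Pq.cons (Pq.L [0] 0 (Pf.C 3 32896))
 (Pq.cons (Pq.L [0] 0 (Pf.C 3 32896))
 Pq.nil)))
theorem e1_o23 : AllRef e1_T e1_G38 (hitObl [38,40,42] e1_h50) :=
  chkPq_sound e1_o23c _ (by decide +kernel)
noncomputable def e1_o24c : Pq := (Pq.cons (Pq.L [] 0 (Pf.C 42 1))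
 (Pq.cons (Pq.L [] 0 (Pf.C 43 1))
 (Pq.cons (Pq.L [] 0 (Pf.C 44 1))
 Pq.nil)))
theorem e1_o24 : AllRef e1_T e1_G39 (List.map pat1 [61,62,63]) :=
  chkPq_sound e1_o24c _ (by decide +kernel)
noncomputable def e1_o25c : Pq := (Pq.cons (Pq.D 2 (Pq.cons (Pq.L [0] 7 (Pf.T 3 16 (Pf.cons (Pf.W 24 3 [] [0,1,2] (Pf.cons (Pf.B 4 2 (Pf.B 4 1 (Pf.T 1 16 (Pf.cons (Pf.W 24 1 [] [0,4] (Pf.cons (Pf.C 3 66176) (Pf.cons (Pf.C 3 66176) Pf.nil))) (Pf.cons (Pf.T 1 19 (Pf.cons (Pf.W 30 1 [] [0,2,3,4] (Pf.cons (Pf.B 5 3 (Pf.B 5 2 (Pf.B 5 4 (Pf.C 1 0x1840004282) (Pf.T 2 16 (Pf.cons (Pf.W 24 2 [] [0,4] (Pf.cons (Pf.C 3 66304) (Pf.cons (Pf.C 3 66304) Pf.nil))) (Pf.cons (Pf.T 2 19 (Pf.cons (Pf.W 30 2 [] [0,1,3,4,5]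 (Pf.cons (Pf.B 6 5 (Pf.W 9 5 [1,4] [0,2,3,6] (Pf.cons (Pf.B 7 6 (Pf.B 7 4 (Pf.B 7 3 (Pf.B 7 2 (Pf.B 7 1 (Pf.C 5 17031) (Pf.B 7 0 (Pf.C 1 0x1840004382) (Pf.C 5 17280))) (Pf.C 5 98567)) (Pf.C 5 82819)) (Pf.C 6 66183)) (Pf.C 5 82822)) (Pf.cons (Pf.C 3 66437) Pf.nil))) (Pf.C 5 33541)) (Pf.cons (Pf.B 6 5 (Pf.B 6 3 (Pf.B 6 1 (Pf.W 28 6 [] [0,1,2,3,5] (Pf.cons (Pf.B 7 5 (Pf.B 7 3 (Pf.B 7 2 (Pf.B 7 1 (Pf.C 1 0x1060e14083) (Pf.C 5 82055)) (Pf.C 5 898)) (Pf.C 5 899)) (Pf.C 5 901)) Pf.nil)) (Pf.W 28 6 [] [1,2] (Pf.cons (Pf.C 12 0x404386) Pf.nil))) (Pf.C 3 66307)) (Pf.C 3 66309)) Pf.nil))) (Pf.cons (Pf.T 2 21 (Pf.cons (Pf.W 34 2 [] [0,1,3,4,5] (Pf.cons (Pf.B 6 5 (Pf.B 6 4 (Pf.B 6 3 (Pf.B 6 1 (Pf.C 1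 0x1840008301) (Pf.C 5 82054)) (Pf.C 5 33539)) (Pf.C 25 518)) (Pf.C 5 33541)) Pf.nil)) Pf.nil)) Pf.nil))) Pf.nil)))) (Pf.C 5 17026)) (Pf.C 5 17027)) (Pf.cons (Pf.B 5 3 (Pf.B 5 2 (Pf.W 28 5 [] [0,1,2,3,4] (Pf.cons (Pf.B 6 3 (Pf.B 6 2 (Pf.B 6 1 (Pf.W 9 3 [4] [1,2,5,6] (Pf.cons (Pf.B 7 6 (Pf.B 7 5 (Pf.B 7 2 (Pf.B 7 1 (Pf.C 1 0x305020c382) (Pf.C 5 50049)) (Pf.C 5 50050)) (Pf.C 12 0xc04385)) (Pf.C 5 50054)) (Pf.cons (Pf.C 3 66435) Pf.nil))) (Pf.C 5 769)) (Pf.C 5 770)) (Pf.C 5 771)) Pf.nil)) (Pf.W 28 5 [] [1,2] (Pf.cons (Pf.C 12 0x404305) Pf.nil))) (Pf.C 3 66179)) Pf.nil))) (Pf.cons (Pf.T 1 21 (Pf.cons (Pf.W 34 1 [] [0,2,3,4] (Pf.cons (Pf.B 5 4 (Pf.B 5 3 (Pf.B 5 2 (Pf.C 1 0x1840004282) (Pf.C 5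 17026)) (Pf.C 5 17027)) (Pf.C 25 517)) Pf.nil)) Pf.nil)) Pf.nil))) Pf.nil))) (Pf.T 1 16 (Pf.cons (Pf.T 2 16 (Pf.cons (Pf.W 24 2 [] [0,4] (Pf.cons (Pf.C 3 66176) (Pf.cons (Pf.C 3 66176) Pf.nil))) (Pf.cons (Pf.T 2 19 (Pf.cons (Pf.W 30 2 [] [0,1,3,4] (Pf.cons (Pf.W 9 0 [4] [1,2,3,5] (Pf.cons (Pf.B 6 5 (Pf.B 6 4 (Pf.B 6 3 (Pf.B 6 2 (Pf.B 6 1 (Pf.W 9 0 [4,6] [1,2,3,5] (Pf.cons (Pf.B 7 6 (Pf.C 5 98311) (Pf.B 7 5 (Pf.B 7 4 (Pf.B 7 3 (Pf.B 7 2 (Pf.B 7 1 (Pf.C 1 0x1840218382) (Pf.C 5 897)) (Pf.C 5 82183)) (Pf.C 5 899)) (Pf.C 6 65543)) (Pf.C 5 901))) (Pf.cons (Pf.C 3 66432) Pf.nil))) (Pf.C 5 769)) (Pf.C 5 82182)) (Pf.C 5 771)) (Pf.C 6 65542)) (Pf.C 5 773)) (Pf.cons (Pf.C 3 66304) Pf.nil))) (Pf.cons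 (Pf.B 5 3 (Pf.B 5 1 (Pf.W 28 5 [] [0,1,2,3,4] (Pf.cons (Pf.B 6 4 (Pf.B 6 3 (Pf.B 6 2 (Pf.B 6 1 (Pf.W 9 0 [4,6] [1,2,3] (Pf.cons (Pf.B 7 6 (Pf.C 5 98311) (Pf.B 7 4 (Pf.B 7 3 (Pf.B 7 2 (Pf.B 7 1 (Pf.C 1 0x1840218382) (Pf.C 5 897)) (Pf.C 5 898)) (Pf.C 5 899)) (Pf.C 6 65543))) (Pf.cons (Pf.C 3 66432) Pf.nil))) (Pf.C 5 769)) (Pf.C 5 770)) (Pf.C 5 771)) (Pf.C 3 82438)) Pf.nil)) (Pf.C 3 66177)) (Pf.C 3 66179)) Pf.nil))) (Pf.cons (Pf.T 2 21 (Pf.cons (Pf.W 34 2 [] [0,1,3,4] (Pf.cons (Pf.B 5 4 (Pf.B 5 3 (Pf.B 5 1 (Pf.W 9 0 [4] [1,2,3,5] (Pf.cons (Pf.B 6 5 (Pf.B 6 4 (Pf.B 6 3 (Pf.B 6 2 (Pf.B 6 1 (Pf.C 1 0x1840214106) (Pf.C 5 769)) (Pf.C 5 82182)) (Pf.C 5 771)) (Pf.C 6 65542)) (Pf.C 5 773)) (Pf.cons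 (Pf.C 3 66304) Pf.nil))) (Pf.C 5 33409)) (Pf.C 5 33411)) (Pf.C 25 517)) Pf.nil)) Pf.nil)) Pf.nil))) Pf.nil))) (Pf.cons (Pf.C 25 513) Pf.nil)))) (Pf.B 4 1 (Pf.T 2 16 (Pf.cons (Pf.T 1 16 (Pf.cons (Pf.W 24 1 [] [0,4] (Pf.cons (Pf.C 3 66176) (Pf.cons (Pf.C 3 66176) Pf.nil))) (Pf.cons (Pf.T 1 19 (Pf.cons (Pf.W 30 1 [] [0,2,3,4] (Pf.cons (Pf.W 9 0 [4] [1,2,3,5] (Pf.cons (Pf.B 6 5 (Pf.B 6 4 (Pf.B 6 3 (Pf.B 6 2 (Pf.B 6 1 (Pf.W 9 0 [4,6] [1,2,3,5] (Pf.cons (Pf.B 7 6 (Pf.C 5 98311) (Pf.B 7 5 (Pf.B 7 4 (Pf.B 7 3 (Pf.B 7 2 (Pf.B 7 1 (Pf.C 1 0x1840418381) (Pf.C 5 82055)) (Pf.C 5 898)) (Pf.C 5 899)) (Pf.C 6 65543)) (Pf.C 5 901))) (Pf.cons (Pf.C 3 66432) Pf.nil))) (Pf.C 5 82054)) (Pf.C 5 770)) (Pf.C 5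 771)) (Pf.C 6 65542)) (Pf.C 5 773)) (Pf.cons (Pf.C 3 66304) Pf.nil))) (Pf.cons (Pf.B 5 3 (Pf.B 5 2 (Pf.W 28 5 [] [0,1,2,3,4] (Pf.cons (Pf.B 6 4 (Pf.B 6 3 (Pf.B 6 2 (Pf.B 6 1 (Pf.W 9 0 [4,6] [1,2,3] (Pf.cons (Pf.B 7 6 (Pf.C 5 98311) (Pf.B 7 4 (Pf.B 7 3 (Pf.B 7 2 (Pf.B 7 1 (Pf.C 1 0x1840418381) (Pf.C 5 897)) (Pf.C 5 898)) (Pf.C 5 899)) (Pf.C 6 65543))) (Pf.cons (Pf.C 3 66432) Pf.nil))) (Pf.C 5 769)) (Pf.C 5 770)) (Pf.C 5 771)) (Pf.C 3 82438)) Pf.nil)) (Pf.C 3 66178)) (Pf.C 3 66179)) Pf.nil))) (Pf.cons (Pf.T 1 21 (Pf.cons (Pf.W 34 1 [] [0,2,3,4] (Pf.cons (Pf.B 5 4 (Pf.B 5 3 (Pf.B 5 2 (Pf.W 9 0 [4] [1,2,3,5] (Pf.cons (Pf.B 6 5 (Pf.B 6 4 (Pf.B 6 3 (Pf.B 6 2 (Pf.B 6 1 (Pf.C 1 0x1840414086) (Pf.C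 5 82054)) (Pf.C 5 770)) (Pf.C 5 771)) (Pf.C 6 65542)) (Pf.C 5 773)) (Pf.cons (Pf.C 3 66304) Pf.nil))) (Pf.C 5 17026)) (Pf.C 5 17027)) (Pf.C 25 517)) Pf.nil)) Pf.nil)) Pf.nil))) Pf.nil))) (Pf.cons (Pf.C 25 514) Pf.nil))) (Pf.T 1 16 (Pf.cons (Pf.T 2 16 (Pf.cons (Pf.W 9 0 [4] [1,2,3] (Pf.cons (Pf.B 5 4 (Pf.B 5 3 (Pf.B 5 2 (Pf.B 5 1 (Pf.T 5 1 (Pf.cons (Pf.T 5 11 (Pf.cons (Pf.T 5 12 (Pf.cons (Pf.W 9 0 [4,5] [1,2,3] (Pf.cons (Pf.B 6 5 (Pf.C 5 81926) (Pf.B 6 4 (Pf.B 6 3 (Pf.B 6 2 (Pf.B 6 1 (Pf.W 9 1 [4] [2,3,5,6] (Pf.cons (Pf.B 7 6 (Pf.B 7 5 (Pf.B 7 4 (Pf.B 7 3 (Pf.B 7 2 (Pf.C 1 0x1840418287) (Pf.C 5 17282)) (Pf.C 5 17283)) (Pf.C 6 65671)) (Pf.C 5 98951)) (Pf.C 5 17286)) (Pf.cons (Pf.C 3 66433)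 Pf.nil))) (Pf.C 5 769)) (Pf.C 5 770)) (Pf.C 5 771)) (Pf.C 6 65542))) (Pf.cons (Pf.C 3 66304) Pf.nil))) Pf.nil)) Pf.nil)) (Pf.cons (Pf.T 5 13 (Pf.cons (Pf.W 9 0 [4,5] [1,2,3] (Pf.cons (Pf.B 6 5 (Pf.C 5 81926) (Pf.B 6 4 (Pf.B 6 3 (Pf.B 6 2 (Pf.B 6 1 (Pf.W 9 1 [4] [2,3,5,6] (Pf.cons (Pf.B 7 6 (Pf.B 7 5 (Pf.B 7 4 (Pf.B 7 3 (Pf.B 7 2 (Pf.C 1 0x1840418287) (Pf.C 5 17282)) (Pf.C 5 17283)) (Pf.C 6 65671)) (Pf.C 5 98951)) (Pf.C 5 17286)) (Pf.cons (Pf.C 3 66433) Pf.nil))) (Pf.C 5 769)) (Pf.C 5 770)) (Pf.C 5 771)) (Pf.C 6 65542))) (Pf.cons (Pf.C 3 66304) Pf.nil))) Pf.nil)) Pf.nil))) (Pf.C 5 641)) (Pf.C 5 642)) (Pf.C 5 643)) (Pf.C 6 65541)) (Pf.cons (Pf.C 3 66176) Pf.nil))) (Pf.cons (Pf.C 25 514) Pf.nil)))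 (Pf.cons (Pf.C 25 513) Pf.nil))))) (Pf.cons (Pf.B 4 2 (Pf.B 4 1 (Pf.T 1 16 (Pf.cons (Pf.W 24 1 [] [0,4] (Pf.cons (Pf.C 3 66176) (Pf.cons (Pf.C 3 66176) Pf.nil))) (Pf.cons (Pf.T 1 19 (Pf.cons (Pf.W 30 1 [] [0,2,3,4] (Pf.cons (Pf.B 5 4 (Pf.B 5 3 (Pf.B 5 2 (Pf.C 1 0x1840004282) (Pf.C 5 17026)) (Pf.C 5 17027)) (Pf.C 12 0x600284)) (Pf.cons (Pf.W 9 1 [5] [0,2,3,4] (Pf.cons (Pf.B 6 4 (Pf.B 6 3 (Pf.B 6 2 (Pf.B 6 0 (Pf.C 1 0x1840004302) (Pf.C 5 17152)) (Pf.C 5 17154)) (Pf.C 5 17155)) (Pf.C 12 0x600304)) (Pf.cons (Pf.C 3 82689) Pf.nil))) Pf.nil))) (Pf.cons (Pf.T 1 21 (Pf.cons (Pf.W 34 1 [] [0,2,3,4] (Pf.cons (Pf.B 5 4 (Pf.B 5 3 (Pf.B 5 2 (Pf.C 1 0x1840004282) (Pf.C 5 17026)) (Pf.C 5 17027)) (Pf.C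 25 517)) Pf.nil)) Pf.nil)) Pf.nil))) Pf.nil))) (Pf.C 12 0x600084)) (Pf.C 12 0x600104)) Pf.nil))) (Pf.cons (Pf.T 3 19 (Pf.cons (Pf.W 30 3 [] [0,1,2] (Pf.cons (Pf.B 4 2 (Pf.B 4 1 (Pf.W 24 4 [] [0,1,2,3] (Pf.cons (Pf.B 5 3 (Pf.B 5 2 (Pf.B 5 1 (Pf.T 1 16 (Pf.cons (Pf.W 24 1 [] [0,5] (Pf.cons (Pf.C 3 82688) (Pf.cons (Pf.C 3 82688) Pf.nil))) (Pf.cons (Pf.T 1 19 (Pf.cons (Pf.W 30 1 [] [0,2,3,4,5] (Pf.cons (Pf.B 6 4 (Pf.B 6 3 (Pf.B 6 2 (Pf.B 6 5 (Pf.C 1 0x1840a04302) (Pf.W 9 4 [3,5] [1,2,6] (Pf.cons (Pf.B 7 6 (Pf.B 7 5 (Pf.B 7 3 (Pf.C 5 49671) (Pf.B 7 2 (Pf.B 7 1 (Pf.C 1 0x286020c382) (Pf.C 5 98439)) (Pf.C 5 50050))) (Pf.C 6 82439)) (Pf.C 5 66438)) (Pf.cons (Pf.C 3 82820) Pf.nil)))) (Pf.C 5 17154))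 (Pf.C 5 65926)) (Pf.C 5 17156)) (Pf.cons (Pf.B 6 4 (Pf.B 6 3 (Pf.B 6 2 (Pf.W 28 6 [] [0,2,3,4] (Pf.cons (Pf.B 7 4 (Pf.B 7 3 (Pf.B 7 2 (Pf.C 1 0x3070010182) (Pf.C 5 898)) (Pf.C 5 65927)) (Pf.C 5 900)) Pf.nil)) (Pf.C 1 0x860410180)) (Pf.B 6 2 (Pf.W 28 6 [] [1,3] (Pf.cons (Pf.C 12 0x604386) Pf.nil)) (Pf.C 12 0x604106))) (Pf.C 3 82692)) Pf.nil))) (Pf.cons (Pf.T 1 21 (Pf.cons (Pf.W 34 1 [] [0,2,4,5] (Pf.cons (Pf.B 6 5 (Pf.B 6 4 (Pf.B 6 2 (Pf.C 1 0x2050004302) (Pf.C 5 17154)) (Pf.C 5 17156)) (Pf.C 25 646)) Pf.nil)) Pf.nil)) Pf.nil))) Pf.nil))) (Pf.T 1 16 (Pf.cons (Pf.T 2 16 (Pf.cons (Pf.W 24 2 [] [0,5] (Pf.cons (Pf.C 3 82688) (Pf.cons (Pf.C 3 82688) Pf.nil))) (Pf.cons (Pf.T 2 19 (Pf.cons (Pf.W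 30 2 [] [0,1,3,4,5] (Pf.cons (Pf.B 6 4 (Pf.W 9 4 [3,5] [0,1,2,6] (Pf.cons (Pf.B 7 6 (Pf.B 7 5 (Pf.B 7 3 (Pf.C 5 49671) (Pf.B 7 2 (Pf.B 7 1 (Pf.B 7 0 (Pf.C 1 0x85000c382) (Pf.C 5 50048)) (Pf.C 5 50049)) (Pf.C 5 98567))) (Pf.C 6 82439)) (Pf.C 5 66438)) (Pf.cons (Pf.C 3 82820) Pf.nil))) (Pf.C 5 33540)) (Pf.cons (Pf.B 6 4 (Pf.B 6 1 (Pf.B 6 3 (Pf.W 28 6 [] [0,1,2,3,4] (Pf.cons (Pf.B 7 4 (Pf.B 7 3 (Pf.B 7 2 (Pf.B 7 1 (Pf.C 1 0x1060e10181) (Pf.C 5 897)) (Pf.C 5 898)) (Pf.C 5 65927)) (Pf.C 5 900)) Pf.nil)) (Pf.W 28 6 [] [2,3] (Pf.cons (Pf.C 12 0x608386) Pf.nil))) (Pf.C 3 82689)) (Pf.C 3 82692)) Pf.nil))) (Pf.cons (Pf.T 2 21 (Pf.cons (Pf.W 34 2 [] [0,1,3,4,5] (Pf.cons (Pf.B 6 5 (Pf.B 6 4 (Pf.B 6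 3 (Pf.B 6 1 (Pf.C 1 0x50208303) (Pf.C 5 33537)) (Pf.C 5 65926)) (Pf.C 5 33540)) (Pf.C 25 646)) Pf.nil)) Pf.nil)) Pf.nil))) Pf.nil))) (Pf.cons (Pf.C 25 641) Pf.nil)))) (Pf.B 5 1 (Pf.T 2 16 (Pf.cons (Pf.T 1 16 (Pf.cons (Pf.W 24 1 [] [0,5] (Pf.cons (Pf.C 3 82688) (Pf.cons (Pf.C 3 82688) Pf.nil))) (Pf.cons (Pf.T 1 19 (Pf.cons (Pf.W 30 1 [] [0,2,3,4,5] (Pf.cons (Pf.B 6 4 (Pf.W 9 4 [3,5] [0,1,2,6] (Pf.cons (Pf.B 7 6 (Pf.B 7 5 (Pf.B 7 3 (Pf.C 5 49671) (Pf.B 7 2 (Pf.B 7 1 (Pf.B 7 0 (Pf.C 1 0x105000c381) (Pf.C 5 50048)) (Pf.C 5 98439)) (Pf.C 5 50050))) (Pf.C 6 82439)) (Pf.C 5 66438)) (Pf.cons (Pf.C 3 82820) Pf.nil))) (Pf.C 5 17156)) (Pf.cons (Pf.B 6 4 (Pf.B 6 2 (Pf.B 6 3 (Pf.W 28 6 [] [0,2,3,4] (Pf.cons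 (Pf.B 7 4 (Pf.B 7 3 (Pf.B 7 2 (Pf.C 1 0x3070010182) (Pf.C 5 898)) (Pf.C 5 65927)) (Pf.C 5 900)) Pf.nil)) (Pf.W 28 6 [] [1,3] (Pf.cons (Pf.C 12 0x604386) Pf.nil))) (Pf.C 3 82690)) (Pf.C 3 82692)) Pf.nil))) (Pf.cons (Pf.T 1 21 (Pf.cons (Pf.W 34 1 [] [0,2,3,4,5] (Pf.cons (Pf.B 6 5 (Pf.B 6 4 (Pf.B 6 3 (Pf.B 6 2 (Pf.C 1 0x50404303) (Pf.C 5 17154)) (Pf.C 5 65926)) (Pf.C 5 17156)) (Pf.C 25 646)) Pf.nil)) Pf.nil)) Pf.nil))) Pf.nil))) (Pf.cons (Pf.C 25 642) Pf.nil))) (Pf.T 1 16 (Pf.cons (Pf.T 2 16 (Pf.cons (Pf.W 9 0 [5] [1,2,3,4] (Pf.cons (Pf.B 6 5 (Pf.B 6 4 (Pf.B 6 3 (Pf.B 6 2 (Pf.B 6 1 (Pf.W 9 0 [5,6] [1,2,3,4] (Pf.cons (Pf.B 7 6 (Pf.C 5 98311) (Pf.B 7 5 (Pf.B 7 4 (Pf.B 7 3 (Pf.B 7 2 (Pf.B 7 1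 (Pf.C 1 0x1050218383) (Pf.C 5 897)) (Pf.C 5 898)) (Pf.C 5 65927)) (Pf.C 5 900)) (Pf.C 6 81927))) (Pf.cons (Pf.C 3 82816) Pf.nil))) (Pf.C 5 769)) (Pf.C 5 770)) (Pf.C 5 65926)) (Pf.C 5 772)) (Pf.C 6 81926)) (Pf.cons (Pf.C 3 82688) Pf.nil))) (Pf.cons (Pf.C 25 642) Pf.nil))) (Pf.cons (Pf.C 25 641) Pf.nil))))) (Pf.C 25 643)) (Pf.cons (Pf.B 5 2 (Pf.B 5 1 (Pf.T 1 16 (Pf.cons (Pf.W 24 1 [] [0,5] (Pf.cons (Pf.C 3 82688) (Pf.cons (Pf.C 3 82688) Pf.nil))) (Pf.cons (Pf.T 1 19 (Pf.cons (Pf.W 30 1 [] [0,2,3,4,5] (Pf.cons (Pf.B 6 5 (Pf.B 6 4 (Pf.B 6 2 (Pf.C 1 0x2050004302) (Pf.C 5 17154)) (Pf.C 5 17156)) (Pf.C 12 0x800305)) (Pf.cons (Pf.B 6 4 (Pf.B 6 3 (Pf.B 6 2 (Pf.W 28 6 [] [0,2,3,4] (Pf.cons (Pf.B 7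 4 (Pf.B 7 3 (Pf.B 7 2 (Pf.C 1 0x3070010182) (Pf.C 5 898)) (Pf.C 5 65927)) (Pf.C 5 900)) Pf.nil)) (Pf.C 1 0x860410180)) (Pf.B 6 2 (Pf.W 28 6 [] [1,3] (Pf.cons (Pf.C 12 0x604386) Pf.nil)) (Pf.C 12 0x604106))) (Pf.C 3 82692)) Pf.nil))) (Pf.cons (Pf.T 1 21 (Pf.cons (Pf.W 34 1 [] [0,2,4,5] (Pf.cons (Pf.B 6 5 (Pf.B 6 4 (Pf.B 6 2 (Pf.C 1 0x2050004302) (Pf.C 5 17154)) (Pf.C 5 17156)) (Pf.C 25 646)) Pf.nil)) Pf.nil)) Pf.nil))) Pf.nil))) (Pf.C 12 0x800085)) (Pf.C 12 0x800105)) Pf.nil))) (Pf.C 5 49665)) (Pf.C 5 49666)) (Pf.cons (Pf.B 4 2 (Pf.B 4 1 (Pf.W 28 4 [] [0,1,2,3] (Pf.cons (Pf.B 5 3 (Pf.B 5 2 (Pf.B 5 1 (Pf.T 1 16 (Pf.cons (Pf.W 24 1 [] [2,3,4,5] (Pf.cons (Pf.W 9 1 [6] [2,3,4,5] (Pf.cons (Pf.B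 7 5 (Pf.B 7 4 (Pf.B 7 3 (Pf.B 7 2 (Pf.C 1 0x2840604382) (Pf.C 5 17282)) (Pf.C 5 17283)) (Pf.C 12 0xa0c384)) (Pf.C 5 17285)) (Pf.cons (Pf.C 3 99201) Pf.nil))) (Pf.cons (Pf.W 9 1 [6] [2,3,4,5] (Pf.cons (Pf.B 7 5 (Pf.B 7 4 (Pf.B 7 3 (Pf.B 7 2 (Pf.C 1 0x2840604382) (Pf.C 5 17282)) (Pf.C 5 17283)) (Pf.C 12 0xa0c384)) (Pf.C 5 17285)) (Pf.cons (Pf.C 3 99201) Pf.nil))) Pf.nil))) (Pf.cons (Pf.T 1 19 (Pf.cons (Pf.W 30 1 [] [0,2,3,4,5] (Pf.cons (Pf.B 6 5 (Pf.B 6 4 (Pf.B 6 2 (Pf.C 1 0x2050004302) (Pf.C 5 17154)) (Pf.C 12 0xa0c304)) (Pf.C 5 646)) (Pf.cons (Pf.W 9 1 [6] [2,3,4,5] (Pf.cons (Pf.B 7 5 (Pf.B 7 4 (Pf.B 7 3 (Pf.B 7 2 (Pf.C 1 0x2840604382) (Pf.C 5 17282)) (Pf.C 5 17283)) (Pf.C 12 0xa0c384))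 (Pf.C 5 17285)) (Pf.cons (Pf.C 3 99201) Pf.nil))) Pf.nil))) (Pf.cons (Pf.T 1 21 (Pf.cons (Pf.W 34 1 [] [0,2,3,4,5] (Pf.cons (Pf.B 6 5 (Pf.B 6 4 (Pf.B 6 2 (Pf.C 1 0x2050004302) (Pf.C 5 17154)) (Pf.C 12 0xa0c304)) (Pf.C 5 646)) Pf.nil)) Pf.nil)) Pf.nil))) Pf.nil))) (Pf.C 5 641)) (Pf.C 5 642)) (Pf.C 5 643)) Pf.nil)) (Pf.W 28 4 [] [1,3] (Pf.cons (Pf.C 12 0x604284) Pf.nil))) (Pf.B 4 1 (Pf.W 28 4 [] [2,3] (Pf.cons (Pf.C 12 0x608284) Pf.nil)) (Pf.C 12 0x608084))) Pf.nil))) (Pf.cons (Pf.T 3 21 (Pf.cons (Pf.W 34 3 [] [0,1,2] (Pf.cons (Pf.B 4 2 (Pf.B 4 1 (Pf.W 30 4 [] [0,1,2,3] (Pf.cons (Pf.B 5 3 (Pf.C 5 49669) (Pf.C 31 643)) (Pf.cons (Pf.B 5 3 (Pf.B 5 2 (Pf.B 5 1 (Pf.W 28 5 [] [0,1,2,3,4] (Pf.cons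 (Pf.B 6 4 (Pf.B 6 3 (Pf.B 6 2 (Pf.B 6 1 (Pf.T 1 16 (Pf.cons (Pf.W 24 1 [] [0,2,3,4,5,6] (Pf.cons (Pf.B 7 6 (Pf.B 7 4 (Pf.B 7 3 (Pf.B 7 2 (Pf.C 1 0x3000e10182) (Pf.C 1 0x870410186)) (Pf.C 25 899)) (Pf.C 25 900)) (Pf.C 3 82822)) (Pf.cons (Pf.B 7 6 (Pf.B 7 4 (Pf.B 7 3 (Pf.B 7 2 (Pf.C 1 0x3000e10182) (Pf.C 12 0x200107)) (Pf.C 25 899)) (Pf.C 25 900)) (Pf.C 3 82822)) Pf.nil))) (Pf.cons (Pf.T 1 19 (Pf.cons (Pf.W 30 1 [] [0,2,3,4,5,6] (Pf.cons (Pf.B 7 6 (Pf.B 7 5 (Pf.B 7 3 (Pf.C 1 0x2860004383) (Pf.C 31 899)) (Pf.C 12 0xc10385)) (Pf.C 5 775)) (Pf.cons (Pf.B 7 4 (Pf.B 7 3 (Pf.B 7 2 (Pf.W 28 7 [] [0,2,3,4,5] (Pf.cons (Pf.B 8 5 (Pf.B 8 4 (Pf.B 8 3 (Pf.B 8 2 (Pf.C 1 0x2840600402) (Pf.C 5 1026)) (Pf.C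 5 65928)) (Pf.C 5 1028)) (Pf.C 3 0x1c288)) Pf.nil)) (Pf.C 1 0x870410180)) (Pf.C 31 899)) (Pf.C 3 82820)) Pf.nil))) (Pf.cons (Pf.T 1 21 (Pf.cons (Pf.W 34 1 [] [0,3,4,5,6] (Pf.cons (Pf.B 7 6 (Pf.B 7 5 (Pf.B 7 4 (Pf.B 7 3 (Pf.C 1 0x2860004383) (Pf.C 5 65927)) (Pf.C 5 17284)) (Pf.C 12 0xc10385)) (Pf.C 5 775)) Pf.nil)) Pf.nil)) Pf.nil))) Pf.nil))) (Pf.C 5 769)) (Pf.C 5 770)) (Pf.C 5 65926)) (Pf.C 5 772)) Pf.nil)) (Pf.W 28 5 [] [1,4] (Pf.cons (Pf.C 12 0x804305) Pf.nil))) (Pf.B 5 1 (Pf.W 28 5 [] [2,4] (Pf.cons (Pf.C 12 0x808305) Pf.nil)) (Pf.C 12 0x808085))) (Pf.C 31 643)) Pf.nil))) (Pf.C 5 49665)) (Pf.C 5 49666)) Pf.nil)) Pf.nil)) Pf.nil))) Pf.nil))))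
 (Pq.cons (Pq.L [0] 2 (Pf.C 5 385))
 (Pq.cons (Pq.L [0] 7 (Pf.T 3 17 (Pf.cons (Pf.W 26 3 [] [0,1,2] (Pf.cons (Pf.B 4 2 (Pf.B 4 1 (Pf.T 1 16 (Pf.cons (Pf.W 24 1 [] [0,4] (Pf.cons (Pf.C 3 66176) (Pf.cons (Pf.C 3 66176) Pf.nil))) (Pf.cons (Pf.T 1 19 (Pf.cons (Pf.W 30 1 [] [0,2,3,4] (Pf.cons (Pf.B 5 3 (Pf.B 5 2 (Pf.B 5 4 (Pf.C 1 0x1840004282) (Pf.W 9 5 [1,4] [0,2,3] (Pf.cons (Pf.B 6 4 (Pf.B 6 3 (Pf.B 6 2 (Pf.B 6 1 (Pf.C 5 17030) (Pf.B 6 0 (Pf.C 1 0x1840004302) (Pf.C 5 17152))) (Pf.C 5 82690)) (Pf.C 5 82691)) (Pf.C 6 66182)) (Pf.cons (Pf.C 3 66309) Pf.nil)))) (Pf.C 5 17026)) (Pf.C 5 17027)) (Pf.cons (Pf.B 5 3 (Pf.B 5 2 (Pf.W 28 5 [] [0,1,2,3,4] (Pf.cons (Pf.B 6 3 (Pf.B 6 2 (Pf.B 6 1 (Pf.T 2 16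 (Pf.cons (Pf.W 24 2 [] [0,4] (Pf.cons (Pf.C 3 66432) (Pf.cons (Pf.C 3 66432) Pf.nil))) (Pf.cons (Pf.T 2 19 (Pf.cons (Pf.W 30 2 [] [0,1,3,5,6] (Pf.cons (Pf.B 7 6 (Pf.B 7 5 (Pf.B 7 3 (Pf.C 1 0x2860008383) (Pf.C 5 33667)) (Pf.C 12 0xc04385)) (Pf.C 5 775)) (Pf.cons (Pf.W 9 2 [7] [1,3,5,6] (Pf.cons (Pf.B 8 6 (Pf.B 8 5 (Pf.B 8 3 (Pf.B 8 1 (Pf.C 1 0x3050208403) (Pf.C 5 33793)) (Pf.C 5 33795)) (Pf.C 12 0xc04405)) (Pf.C 5 33798)) (Pf.cons (Pf.C 3 0x1c402) Pf.nil))) Pf.nil))) (Pf.cons (Pf.T 2 21 (Pf.cons (Pf.W 34 2 [] [0,1,3,5,6] (Pf.cons (Pf.B 7 6 (Pf.B 7 5 (Pf.B 7 3 (Pf.C 1 0x2860008383) (Pf.C 5 33667)) (Pf.C 12 0xc04385)) (Pf.C 5 775)) Pf.nil)) Pf.nil)) Pf.nil))) Pf.nil))) (Pf.C 5 769)) (Pf.C 5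 770)) (Pf.C 5 771)) Pf.nil)) (Pf.W 28 5 [] [1,2] (Pf.cons (Pf.C 12 0x404305) Pf.nil))) (Pf.C 3 66179)) Pf.nil))) (Pf.cons (Pf.T 1 21 (Pf.cons (Pf.W 34 1 [] [0,2,3,4] (Pf.cons (Pf.B 5 4 (Pf.B 5 3 (Pf.B 5 2 (Pf.C 1 0x1840004282) (Pf.C 5 17026)) (Pf.C 5 17027)) (Pf.C 25 517)) Pf.nil)) Pf.nil)) Pf.nil))) Pf.nil))) (Pf.T 1 16 (Pf.cons (Pf.T 2 16 (Pf.cons (Pf.W 24 2 [] [0,4] (Pf.cons (Pf.C 3 66176) (Pf.cons (Pf.C 3 66176) Pf.nil))) (Pf.cons (Pf.T 2 19 (Pf.cons (Pf.W 30 2 [] [0,1,3,4] (Pf.cons (Pf.W 9 0 [4] [1,2,3,5] (Pf.cons (Pf.B 6 5 (Pf.B 6 4 (Pf.B 6 3 (Pf.B 6 2 (Pf.B 6 1 (Pf.W 9 0 [4,6] [1,2,3,5] (Pf.cons (Pf.B 7 6 (Pf.C 5 98311) (Pf.B 7 5 (Pf.B 7 4 (Pf.B 7 3 (Pf.B 7 2 (Pf.B 7 1 (Pf.C 1 0x1840218382)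 (Pf.C 5 897)) (Pf.C 5 82183)) (Pf.C 5 899)) (Pf.C 6 65543)) (Pf.C 5 901))) (Pf.cons (Pf.C 3 66432) Pf.nil))) (Pf.C 5 769)) (Pf.C 5 82182)) (Pf.C 5 771)) (Pf.C 6 65542)) (Pf.C 5 773)) (Pf.cons (Pf.C 3 66304) Pf.nil))) (Pf.cons (Pf.B 5 3 (Pf.B 5 1 (Pf.W 28 5 [] [0,1,2,3,4] (Pf.cons (Pf.B 6 4 (Pf.B 6 3 (Pf.B 6 2 (Pf.B 6 1 (Pf.W 9 0 [4,6] [1,2,3] (Pf.cons (Pf.B 7 6 (Pf.C 5 98311) (Pf.B 7 4 (Pf.B 7 3 (Pf.B 7 2 (Pf.B 7 1 (Pf.C 1 0x1840218382) (Pf.C 5 897)) (Pf.C 5 898)) (Pf.C 5 899)) (Pf.C 6 65543))) (Pf.cons (Pf.C 3 66432) Pf.nil))) (Pf.C 5 769)) (Pf.C 5 770)) (Pf.C 5 771)) (Pf.C 3 82438)) Pf.nil)) (Pf.C 3 66177)) (Pf.C 3 66179)) Pf.nil))) (Pf.cons (Pf.T 2 21 (Pf.cons (Pf.W 34 2 [] [0,1,3,4]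 (Pf.cons (Pf.B 5 4 (Pf.B 5 3 (Pf.B 5 1 (Pf.W 9 0 [4] [1,2,3,5] (Pf.cons (Pf.B 6 5 (Pf.B 6 4 (Pf.B 6 3 (Pf.B 6 2 (Pf.B 6 1 (Pf.C 1 0x1840214106) (Pf.C 5 769)) (Pf.C 5 82182)) (Pf.C 5 771)) (Pf.C 6 65542)) (Pf.C 5 773)) (Pf.cons (Pf.C 3 66304) Pf.nil))) (Pf.C 5 33409)) (Pf.C 5 33411)) (Pf.C 25 517)) Pf.nil)) Pf.nil)) Pf.nil))) Pf.nil))) (Pf.cons (Pf.C 25 513) Pf.nil)))) (Pf.B 4 1 (Pf.T 2 16 (Pf.cons (Pf.T 1 16 (Pf.cons (Pf.W 24 1 [] [0,4] (Pf.cons (Pf.C 3 66176) (Pf.cons (Pf.C 3 66176) Pf.nil))) (Pf.cons (Pf.T 1 19 (Pf.cons (Pf.W 30 1 [] [0,2,3,4] (Pf.cons (Pf.W 9 0 [4] [1,2,3,5] (Pf.cons (Pf.B 6 5 (Pf.B 6 4 (Pf.B 6 3 (Pf.B 6 2 (Pf.B 6 1 (Pf.W 9 0 [4,6] [1,2,3,5] (Pf.cons (Pf.B 7 6 (Pf.C 5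 98311) (Pf.B 7 5 (Pf.B 7 4 (Pf.B 7 3 (Pf.B 7 2 (Pf.B 7 1 (Pf.C 1 0x1840418381) (Pf.C 5 82055)) (Pf.C 5 898)) (Pf.C 5 899)) (Pf.C 6 65543)) (Pf.C 5 901))) (Pf.cons (Pf.C 3 66432) Pf.nil))) (Pf.C 5 82054)) (Pf.C 5 770)) (Pf.C 5 771)) (Pf.C 6 65542)) (Pf.C 5 773)) (Pf.cons (Pf.C 3 66304) Pf.nil))) (Pf.cons (Pf.B 5 3 (Pf.B 5 2 (Pf.W 28 5 [] [0,1,2,3,4] (Pf.cons (Pf.B 6 4 (Pf.B 6 3 (Pf.B 6 2 (Pf.B 6 1 (Pf.W 9 0 [4,6] [1,2,3] (Pf.cons (Pf.B 7 6 (Pf.C 5 98311) (Pf.B 7 4 (Pf.B 7 3 (Pf.B 7 2 (Pf.B 7 1 (Pf.C 1 0x1840418381) (Pf.C 5 897)) (Pf.C 5 898)) (Pf.C 5 899)) (Pf.C 6 65543))) (Pf.cons (Pf.C 3 66432) Pf.nil))) (Pf.C 5 769)) (Pf.C 5 770)) (Pf.C 5 771)) (Pf.C 3 82438)) Pf.nil)) (Pf.C 3 66178))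 (Pf.C 3 66179)) Pf.nil))) (Pf.cons (Pf.T 1 21 (Pf.cons (Pf.W 34 1 [] [0,2,3,4] (Pf.cons (Pf.B 5 4 (Pf.B 5 3 (Pf.B 5 2 (Pf.W 9 0 [4] [1,2,3,5] (Pf.cons (Pf.B 6 5 (Pf.B 6 4 (Pf.B 6 3 (Pf.B 6 2 (Pf.B 6 1 (Pf.C 1 0x1840414086) (Pf.C 5 82054)) (Pf.C 5 770)) (Pf.C 5 771)) (Pf.C 6 65542)) (Pf.C 5 773)) (Pf.cons (Pf.C 3 66304) Pf.nil))) (Pf.C 5 17026)) (Pf.C 5 17027)) (Pf.C 25 517)) Pf.nil)) Pf.nil)) Pf.nil))) Pf.nil))) (Pf.cons (Pf.C 25 514) Pf.nil))) (Pf.T 1 16 (Pf.cons (Pf.T 2 16 (Pf.cons (Pf.W 9 0 [4] [1,2,3] (Pf.cons (Pf.B 5 4 (Pf.B 5 3 (Pf.B 5 2 (Pf.B 5 1 (Pf.T 5 1 (Pf.cons (Pf.T 5 11 (Pf.cons (Pf.T 5 12 (Pf.cons (Pf.W 9 0 [4,5] [1,2,3] (Pf.cons (Pf.B 6 5 (Pf.C 5 81926) (Pf.B 6 4 (Pf.B 6 3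 (Pf.B 6 2 (Pf.B 6 1 (Pf.W 9 1 [4] [2,3,5,6] (Pf.cons (Pf.B 7 6 (Pf.B 7 5 (Pf.B 7 4 (Pf.B 7 3 (Pf.B 7 2 (Pf.C 1 0x1840418287) (Pf.C 5 17282)) (Pf.C 5 17283)) (Pf.C 6 65671)) (Pf.C 5 98951)) (Pf.C 5 17286)) (Pf.cons (Pf.C 3 66433) Pf.nil))) (Pf.C 5 769)) (Pf.C 5 770)) (Pf.C 5 771)) (Pf.C 6 65542))) (Pf.cons (Pf.C 3 66304) Pf.nil))) Pf.nil)) Pf.nil)) (Pf.cons (Pf.T 5 13 (Pf.cons (Pf.W 9 0 [4,5] [1,2,3] (Pf.cons (Pf.B 6 5 (Pf.C 5 81926) (Pf.B 6 4 (Pf.B 6 3 (Pf.B 6 2 (Pf.B 6 1 (Pf.W 9 1 [4] [2,3,5,6] (Pf.cons (Pf.B 7 6 (Pf.B 7 5 (Pf.B 7 4 (Pf.B 7 3 (Pf.B 7 2 (Pf.C 1 0x1840418287) (Pf.C 5 17282)) (Pf.C 5 17283)) (Pf.C 6 65671)) (Pf.C 5 98951)) (Pf.C 5 17286)) (Pf.cons (Pf.C 3 66433) Pf.nil)))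 (Pf.C 5 769)) (Pf.C 5 770)) (Pf.C 5 771)) (Pf.C 6 65542))) (Pf.cons (Pf.C 3 66304) Pf.nil))) Pf.nil)) Pf.nil))) (Pf.C 5 641)) (Pf.C 5 642)) (Pf.C 5 643)) (Pf.C 6 65541)) (Pf.cons (Pf.C 3 66176) Pf.nil))) (Pf.cons (Pf.C 25 514) Pf.nil))) (Pf.cons (Pf.C 25 513) Pf.nil))))) (Pf.cons (Pf.B 4 2 (Pf.B 4 1 (Pf.T 1 16 (Pf.cons (Pf.W 24 1 [] [0,4] (Pf.cons (Pf.C 3 66176) (Pf.cons (Pf.C 3 66176) Pf.nil))) (Pf.cons (Pf.T 1 19 (Pf.cons (Pf.W 30 1 [] [0,2,3,4] (Pf.cons (Pf.B 5 4 (Pf.B 5 3 (Pf.B 5 2 (Pf.C 1 0x1840004282) (Pf.C 5 17026)) (Pf.C 5 17027)) (Pf.C 12 0x600284)) (Pf.cons (Pf.W 9 1 [5] [0,2,3,4] (Pf.cons (Pf.B 6 4 (Pf.B 6 3 (Pf.B 6 2 (Pf.B 6 0 (Pf.C 1 0x1840004302) (Pf.C 5 17152)) (Pf.C 5 17154))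 (Pf.C 5 17155)) (Pf.C 12 0x600304)) (Pf.cons (Pf.C 3 82689) Pf.nil))) Pf.nil))) (Pf.cons (Pf.T 1 21 (Pf.cons (Pf.W 34 1 [] [0,2,3,4] (Pf.cons (Pf.B 5 4 (Pf.B 5 3 (Pf.B 5 2 (Pf.C 1 0x1840004282) (Pf.C 5 17026)) (Pf.C 5 17027)) (Pf.C 25 517)) Pf.nil)) Pf.nil)) Pf.nil))) Pf.nil))) (Pf.C 12 0x600084)) (Pf.C 12 0x600104)) Pf.nil))) (Pf.cons (Pf.T 3 20 (Pf.cons (Pf.W 32 3 [] [0,1,2] (Pf.cons (Pf.B 4 2 (Pf.B 4 1 (Pf.W 24 4 [] [0,1,2,3] (Pf.cons (Pf.B 5 3 (Pf.B 5 2 (Pf.B 5 1 (Pf.T 1 16 (Pf.cons (Pf.W 24 1 [] [0,5] (Pf.cons (Pf.C 3 82688) (Pf.cons (Pf.C 3 82688) Pf.nil))) (Pf.cons (Pf.T 1 19 (Pf.cons (Pf.W 30 1 [] [0,2,3,4,5] (Pf.cons (Pf.B 6 4 (Pf.B 6 3 (Pf.B 6 2 (Pf.B 6 5 (Pf.C 1 0x1840a04302)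 (Pf.W 9 4 [3,5] [1,2,6] (Pf.cons (Pf.B 7 6 (Pf.B 7 5 (Pf.B 7 3 (Pf.C 5 49671) (Pf.B 7 2 (Pf.B 7 1 (Pf.C 1 0x286020c382) (Pf.C 5 98439)) (Pf.C 5 50050))) (Pf.C 6 82439)) (Pf.C 5 66438)) (Pf.cons (Pf.C 3 82820) Pf.nil)))) (Pf.C 5 17154)) (Pf.C 5 65926)) (Pf.C 5 17156)) (Pf.cons (Pf.B 6 4 (Pf.B 6 3 (Pf.B 6 2 (Pf.W 28 6 [] [0,2,3,4] (Pf.cons (Pf.B 7 4 (Pf.B 7 3 (Pf.B 7 2 (Pf.C 1 0x3070010182) (Pf.C 5 898)) (Pf.C 5 65927)) (Pf.C 5 900)) Pf.nil)) (Pf.C 1 0x860410180)) (Pf.B 6 2 (Pf.W 28 6 [] [1,3] (Pf.cons (Pf.C 12 0x604386) Pf.nil)) (Pf.C 12 0x604106))) (Pf.C 3 82692)) Pf.nil))) (Pf.cons (Pf.T 1 21 (Pf.cons (Pf.W 34 1 [] [0,2,4,5] (Pf.cons (Pf.B 6 5 (Pf.B 6 4 (Pf.B 6 2 (Pf.C 1 0x2050004302) (Pf.C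 5 17154)) (Pf.C 5 17156)) (Pf.C 25 646)) Pf.nil)) Pf.nil)) Pf.nil))) Pf.nil))) (Pf.T 1 16 (Pf.cons (Pf.W 9 4 [3,5] [0,1,2] (Pf.cons (Pf.B 6 5 (Pf.B 6 3 (Pf.C 5 49670) (Pf.B 6 2 (Pf.B 6 1 (Pf.B 6 0 (Pf.C 1 0x85000c302) (Pf.C 5 49920)) (Pf.C 5 49921)) (Pf.C 5 49922))) (Pf.C 6 82438)) (Pf.cons (Pf.C 3 82692) Pf.nil))) (Pf.cons (Pf.C 25 641) Pf.nil)))) (Pf.B 5 1 (Pf.T 2 16 (Pf.cons (Pf.W 9 4 [3,5] [0,1,2] (Pf.cons (Pf.B 6 5 (Pf.B 6 3 (Pf.C 5 49670) (Pf.B 6 2 (Pf.B 6 1 (Pf.B 6 0 (Pf.C 1 0x105000c301) (Pf.C 5 49920)) (Pf.C 5 49921)) (Pf.C 5 49922))) (Pf.C 6 82438)) (Pf.cons (Pf.C 3 82692) Pf.nil))) (Pf.cons (Pf.C 25 642) Pf.nil))) (Pf.T 1 16 (Pf.cons (Pf.T 2 16 (Pf.cons (Pf.W 9 0 [5] [1,2,3,4]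 (Pf.cons (Pf.B 6 5 (Pf.B 6 4 (Pf.B 6 3 (Pf.B 6 2 (Pf.B 6 1 (Pf.W 9 0 [5,6] [1,2,3,4] (Pf.cons (Pf.B 7 6 (Pf.C 5 98311) (Pf.B 7 5 (Pf.B 7 4 (Pf.B 7 3 (Pf.B 7 2 (Pf.B 7 1 (Pf.C 1 0x1050218383) (Pf.C 5 897)) (Pf.C 5 898)) (Pf.C 5 65927)) (Pf.C 5 900)) (Pf.C 6 81927))) (Pf.cons (Pf.C 3 82816) Pf.nil))) (Pf.C 5 769)) (Pf.C 5 770)) (Pf.C 5 65926)) (Pf.C 5 772)) (Pf.C 6 81926)) (Pf.cons (Pf.C 3 82688) Pf.nil))) (Pf.cons (Pf.C 25 642) Pf.nil))) (Pf.cons (Pf.C 25 641) Pf.nil))))) (Pf.C 27 643)) (Pf.cons (Pf.B 5 2 (Pf.B 5 1 (Pf.T 1 16 (Pf.cons (Pf.W 24 1 [] [0,5] (Pf.cons (Pf.C 3 82688) (Pf.cons (Pf.C 3 82688) Pf.nil))) (Pf.cons (Pf.T 1 19 (Pf.cons (Pf.W 30 1 [] [0,2,3,4,5] (Pf.cons (Pf.B 6 5 (Pf.B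 6 4 (Pf.B 6 2 (Pf.C 1 0x2050004302) (Pf.C 5 17154)) (Pf.C 5 17156)) (Pf.C 12 0x800305)) (Pf.cons (Pf.B 6 4 (Pf.B 6 3 (Pf.B 6 2 (Pf.W 28 6 [] [0,2,3,4] (Pf.cons (Pf.B 7 4 (Pf.B 7 3 (Pf.B 7 2 (Pf.C 1 0x3070010182) (Pf.C 5 898)) (Pf.C 5 65927)) (Pf.C 5 900)) Pf.nil)) (Pf.C 1 0x860410180)) (Pf.B 6 2 (Pf.W 28 6 [] [1,3] (Pf.cons (Pf.C 12 0x604386) Pf.nil)) (Pf.C 12 0x604106))) (Pf.C 3 82692)) Pf.nil))) (Pf.cons (Pf.T 1 21 (Pf.cons (Pf.W 34 1 [] [0,2,4,5] (Pf.cons (Pf.B 6 5 (Pf.B 6 4 (Pf.B 6 2 (Pf.C 1 0x2050004302) (Pf.C 5 17154)) (Pf.C 5 17156)) (Pf.C 25 646)) Pf.nil)) Pf.nil)) Pf.nil))) Pf.nil))) (Pf.C 12 0x800085)) (Pf.C 12 0x800105)) Pf.nil))) (Pf.C 5 49665)) (Pf.C 5 49666)) (Pf.cons (Pf.B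 4 2 (Pf.B 4 1 (Pf.W 26 4 [] [0,1,2,3] (Pf.cons (Pf.B 5 3 (Pf.B 5 2 (Pf.B 5 1 (Pf.T 1 16 (Pf.cons (Pf.W 24 1 [] [0,5] (Pf.cons (Pf.C 3 82688) (Pf.cons (Pf.C 3 82688) Pf.nil))) (Pf.cons (Pf.T 1 19 (Pf.cons (Pf.W 30 1 [] [0,2,3,4,5] (Pf.cons (Pf.B 6 4 (Pf.B 6 3 (Pf.B 6 2 (Pf.B 6 5 (Pf.C 1 0x1840a04302) (Pf.W 9 6 [1,5] [2,3,4] (Pf.cons (Pf.B 7 5 (Pf.B 7 4 (Pf.B 7 3 (Pf.B 7 2 (Pf.B 7 1 (Pf.C 5 17159) (Pf.C 1 0x2840604382)) (Pf.C 5 99202)) (Pf.C 5 65927)) (Pf.C 5 99204)) (Pf.C 6 82695)) (Pf.cons (Pf.C 3 82822) Pf.nil)))) (Pf.C 5 17154)) (Pf.C 5 65926)) (Pf.C 5 17156)) (Pf.cons (Pf.B 6 4 (Pf.B 6 3 (Pf.B 6 2 (Pf.W 28 6 [] [0,2,3,4] (Pf.cons (Pf.B 7 4 (Pf.B 7 3 (Pf.B 7 2 (Pf.C 1 0x3070010182) (Pf.C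 5 898)) (Pf.C 5 65927)) (Pf.C 5 900)) Pf.nil)) (Pf.C 1 0x860410180)) (Pf.B 6 2 (Pf.W 28 6 [] [1,3] (Pf.cons (Pf.C 12 0x604386) Pf.nil)) (Pf.C 12 0x604106))) (Pf.C 3 82692)) Pf.nil))) (Pf.cons (Pf.T 1 21 (Pf.cons (Pf.W 34 1 [] [0,2,4,5] (Pf.cons (Pf.B 6 5 (Pf.B 6 4 (Pf.B 6 2 (Pf.C 1 0x2050004302) (Pf.C 5 17154)) (Pf.C 5 17156)) (Pf.C 25 646)) Pf.nil)) Pf.nil)) Pf.nil))) Pf.nil))) (Pf.T 1 16 (Pf.cons (Pf.T 2 16 (Pf.cons (Pf.W 24 2 [] [0,5] (Pf.cons (Pf.C 3 82688) (Pf.cons (Pf.C 3 82688) Pf.nil))) (Pf.cons (Pf.T 2 19 (Pf.cons (Pf.W 30 2 [] [0,1,3,4,5] (Pf.cons (Pf.B 6 4 (Pf.B 6 3 (Pf.B 6 1 (Pf.B 6 5 (Pf.C 1 0x850008303) (Pf.W 9 6 [2,5] [0,1,3,4] (Pf.cons (Pf.B 7 5 (Pf.B 7 4 (Pf.B 7 3 (Pf.B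 7 2 (Pf.C 5 33543) (Pf.B 7 1 (Pf.B 7 0 (Pf.C 1 0x850008383) (Pf.C 5 33664)) (Pf.C 5 33665))) (Pf.C 5 65927)) (Pf.C 5 99204)) (Pf.C 6 82695)) (Pf.cons (Pf.C 3 82822) Pf.nil)))) (Pf.C 5 33537)) (Pf.C 5 65926)) (Pf.C 5 33540)) (Pf.cons (Pf.B 6 4 (Pf.B 6 1 (Pf.B 6 3 (Pf.W 28 6 [] [0,1,2,3,4] (Pf.cons (Pf.B 7 4 (Pf.B 7 3 (Pf.B 7 2 (Pf.B 7 1 (Pf.C 1 0x1060e10181) (Pf.C 5 897)) (Pf.C 5 898)) (Pf.C 5 65927)) (Pf.C 5 900)) Pf.nil)) (Pf.W 28 6 [] [2,3] (Pf.cons (Pf.C 12 0x608386) Pf.nil))) (Pf.C 3 82689)) (Pf.C 3 82692)) Pf.nil))) (Pf.cons (Pf.T 2 21 (Pf.cons (Pf.W 34 2 [] [0,1,3,4,5] (Pf.cons (Pf.B 6 5 (Pf.B 6 4 (Pf.B 6 3 (Pf.B 6 1 (Pf.C 1 0x50208303) (Pf.C 5 33537)) (Pf.C 5 65926)) (Pf.C 5 33540))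 (Pf.C 25 646)) Pf.nil)) Pf.nil)) Pf.nil))) Pf.nil))) (Pf.cons (Pf.C 25 641) Pf.nil)))) (Pf.B 5 1 (Pf.T 2 16 (Pf.cons (Pf.T 1 16 (Pf.cons (Pf.W 24 1 [] [0,5] (Pf.cons (Pf.C 3 82688) (Pf.cons (Pf.C 3 82688) Pf.nil))) (Pf.cons (Pf.T 1 19 (Pf.cons (Pf.W 30 1 [] [0,2,3,4,5] (Pf.cons (Pf.B 6 4 (Pf.B 6 3 (Pf.B 6 2 (Pf.B 6 5 (Pf.C 1 0x1050004303) (Pf.W 9 6 [1,5] [0,2,3,4] (Pf.cons (Pf.B 7 5 (Pf.B 7 4 (Pf.B 7 3 (Pf.B 7 2 (Pf.B 7 1 (Pf.C 5 17159) (Pf.B 7 0 (Pf.C 1 0x1050004383) (Pf.C 5 17280))) (Pf.C 5 99202)) (Pf.C 5 65927)) (Pf.C 5 99204)) (Pf.C 6 82695)) (Pf.cons (Pf.C 3 82822) Pf.nil)))) (Pf.C 5 17154)) (Pf.C 5 65926)) (Pf.C 5 17156)) (Pf.cons (Pf.B 6 4 (Pf.B 6 2 (Pf.B 6 3 (Pf.W 28 6 [] [0,2,3,4]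 (Pf.cons (Pf.B 7 4 (Pf.B 7 3 (Pf.B 7 2 (Pf.C 1 0x3070010182) (Pf.C 5 898)) (Pf.C 5 65927)) (Pf.C 5 900)) Pf.nil)) (Pf.W 28 6 [] [1,3] (Pf.cons (Pf.C 12 0x604386) Pf.nil))) (Pf.C 3 82690)) (Pf.C 3 82692)) Pf.nil))) (Pf.cons (Pf.T 1 21 (Pf.cons (Pf.W 34 1 [] [0,2,3,4,5] (Pf.cons (Pf.B 6 5 (Pf.B 6 4 (Pf.B 6 3 (Pf.B 6 2 (Pf.C 1 0x50404303) (Pf.C 5 17154)) (Pf.C 5 65926)) (Pf.C 5 17156)) (Pf.C 25 646)) Pf.nil)) Pf.nil)) Pf.nil))) Pf.nil))) (Pf.cons (Pf.C 25 642) Pf.nil))) (Pf.T 1 16 (Pf.cons (Pf.T 2 16 (Pf.cons (Pf.W 9 0 [5] [1,2,3,4] (Pf.cons (Pf.B 6 5 (Pf.B 6 4 (Pf.B 6 3 (Pf.B 6 2 (Pf.B 6 1 (Pf.W 9 0 [5,6] [1,2,3,4] (Pf.cons (Pf.B 7 6 (Pf.C 5 98311) (Pf.B 7 5 (Pf.B 7 4 (Pf.B 7 3 (Pf.B 7 2 (Pf.B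 7 1 (Pf.C 1 0x1050218383) (Pf.C 5 897)) (Pf.C 5 898)) (Pf.C 5 65927)) (Pf.C 5 900)) (Pf.C 6 81927))) (Pf.cons (Pf.C 3 82816) Pf.nil))) (Pf.C 5 769)) (Pf.C 5 770)) (Pf.C 5 65926)) (Pf.C 5 772)) (Pf.C 6 81926)) (Pf.cons (Pf.C 3 82688) Pf.nil))) (Pf.cons (Pf.C 25 642) Pf.nil))) (Pf.cons (Pf.C 25 641) Pf.nil))))) (Pf.C 27 643)) (Pf.cons (Pf.B 5 2 (Pf.B 5 1 (Pf.T 1 16 (Pf.cons (Pf.W 24 1 [] [0,5] (Pf.cons (Pf.C 3 82688) (Pf.cons (Pf.C 3 82688) Pf.nil))) (Pf.cons (Pf.T 1 19 (Pf.cons (Pf.W 30 1 [] [0,2,3,4,5] (Pf.cons (Pf.B 6 5 (Pf.B 6 4 (Pf.B 6 2 (Pf.C 1 0x2050004302) (Pf.C 5 17154)) (Pf.C 5 17156)) (Pf.C 12 0x800305)) (Pf.cons (Pf.B 6 4 (Pf.B 6 3 (Pf.B 6 2 (Pf.W 28 6 [] [0,2,3,4] (Pf.cons (Pf.B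 7 4 (Pf.B 7 3 (Pf.B 7 2 (Pf.C 1 0x3070010182) (Pf.C 5 898)) (Pf.C 5 65927)) (Pf.C 5 900)) Pf.nil)) (Pf.C 1 0x860410180)) (Pf.B 6 2 (Pf.W 28 6 [] [1,3] (Pf.cons (Pf.C 12 0x604386) Pf.nil)) (Pf.C 12 0x604106))) (Pf.C 3 82692)) Pf.nil))) (Pf.cons (Pf.T 1 21 (Pf.cons (Pf.W 34 1 [] [0,2,4,5] (Pf.cons (Pf.B 6 5 (Pf.B 6 4 (Pf.B 6 2 (Pf.C 1 0x2050004302) (Pf.C 5 17154)) (Pf.C 5 17156)) (Pf.C 25 646)) Pf.nil)) Pf.nil)) Pf.nil))) Pf.nil))) (Pf.C 12 0x800085)) (Pf.C 12 0x800105)) Pf.nil))) (Pf.C 5 49665)) (Pf.C 5 49666)) (Pf.cons (Pf.B 4 2 (Pf.B 4 1 (Pf.W 28 4 [] [0,1,2,3] (Pf.cons (Pf.B 5 3 (Pf.B 5 2 (Pf.B 5 1 (Pf.T 1 16 (Pf.cons (Pf.W 24 1 [] [2,3,4,5] (Pf.cons (Pf.W 9 1 [6] [2,3,4,5] (Pf.cons (Pf.B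 7 5 (Pf.B 7 4 (Pf.B 7 3 (Pf.B 7 2 (Pf.C 1 0x2840604382) (Pf.C 5 17282)) (Pf.C 5 17283)) (Pf.C 12 0xa0c384)) (Pf.C 5 17285)) (Pf.cons (Pf.C 3 99201) Pf.nil))) (Pf.cons (Pf.W 9 1 [6] [2,3,4,5] (Pf.cons (Pf.B 7 5 (Pf.B 7 4 (Pf.B 7 3 (Pf.B 7 2 (Pf.C 1 0x2840604382) (Pf.C 5 17282)) (Pf.C 5 17283)) (Pf.C 12 0xa0c384)) (Pf.C 5 17285)) (Pf.cons (Pf.C 3 99201) Pf.nil))) Pf.nil))) (Pf.cons (Pf.T 1 19 (Pf.cons (Pf.W 30 1 [] [0,2,3,4,5] (Pf.cons (Pf.B 6 5 (Pf.B 6 4 (Pf.B 6 2 (Pf.C 1 0x2050004302) (Pf.C 5 17154)) (Pf.C 12 0xa0c304)) (Pf.C 5 646)) (Pf.cons (Pf.W 9 1 [6] [2,3,4,5] (Pf.cons (Pf.B 7 5 (Pf.B 7 4 (Pf.B 7 3 (Pf.B 7 2 (Pf.C 1 0x2840604382) (Pf.C 5 17282)) (Pf.C 5 17283)) (Pf.C 12 0xa0c384))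 (Pf.C 5 17285)) (Pf.cons (Pf.C 3 99201) Pf.nil))) Pf.nil))) (Pf.cons (Pf.T 1 21 (Pf.cons (Pf.W 34 1 [] [0,2,3,4,5] (Pf.cons (Pf.B 6 5 (Pf.B 6 4 (Pf.B 6 2 (Pf.C 1 0x2050004302) (Pf.C 5 17154)) (Pf.C 12 0xa0c304)) (Pf.C 5 646)) Pf.nil)) Pf.nil)) Pf.nil))) Pf.nil))) (Pf.C 5 641)) (Pf.C 5 642)) (Pf.C 5 643)) Pf.nil)) (Pf.W 28 4 [] [1,3] (Pf.cons (Pf.C 12 0x604284) Pf.nil))) (Pf.B 4 1 (Pf.W 28 4 [] [2,3] (Pf.cons (Pf.C 12 0x608284) Pf.nil)) (Pf.C 12 0x608084))) Pf.nil)))) (Pf.cons (Pf.T 3 22 (Pf.cons (Pf.W 36 3 [] [0,1,2] (Pf.cons (Pf.B 4 2 (Pf.B 4 1 (Pf.W 30 4 [] [0,1,2,3] (Pf.cons (Pf.B 5 3 (Pf.C 5 49669) (Pf.C 33 643)) (Pf.cons (Pf.B 5 3 (Pf.B 5 2 (Pf.B 5 1 (Pf.W 28 5 [] [0,1,2,3,4] (Pf.cons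 (Pf.B 6 4 (Pf.B 6 3 (Pf.B 6 2 (Pf.B 6 1 (Pf.T 1 16 (Pf.cons (Pf.W 24 1 [] [0,2,3,4,5,6] (Pf.cons (Pf.B 7 6 (Pf.B 7 4 (Pf.B 7 3 (Pf.B 7 2 (Pf.C 1 0x3000e10182) (Pf.C 1 0x870410186)) (Pf.C 27 899)) (Pf.C 25 900)) (Pf.C 3 82822)) (Pf.cons (Pf.B 7 6 (Pf.B 7 4 (Pf.B 7 3 (Pf.B 7 2 (Pf.C 1 0x3000e10182) (Pf.C 12 0x200107)) (Pf.C 27 899)) (Pf.C 25 900)) (Pf.C 3 82822)) Pf.nil))) (Pf.cons (Pf.T 1 19 (Pf.cons (Pf.W 30 1 [] [0,2,3,4,5,6] (Pf.cons (Pf.B 7 6 (Pf.B 7 5 (Pf.B 7 3 (Pf.C 1 0x2860004383) (Pf.C 33 899)) (Pf.C 12 0xc10385)) (Pf.C 5 775)) (Pf.cons (Pf.B 7 4 (Pf.B 7 3 (Pf.B 7 2 (Pf.W 28 7 [] [0,2,3,4,5] (Pf.cons (Pf.B 8 5 (Pf.B 8 4 (Pf.B 8 3 (Pf.B 8 2 (Pf.C 1 0x2840600402) (Pf.C 5 1026)) (Pf.C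 5 65928)) (Pf.C 5 1028)) (Pf.C 3 0x1c288)) Pf.nil)) (Pf.C 1 0x870410180)) (Pf.C 33 899)) (Pf.C 3 82820)) Pf.nil))) (Pf.cons (Pf.T 1 21 (Pf.cons (Pf.W 34 1 [] [0,3,4,5,6] (Pf.cons (Pf.B 7 6 (Pf.B 7 5 (Pf.B 7 4 (Pf.B 7 3 (Pf.C 1 0x2860004383) (Pf.C 5 65927)) (Pf.C 5 17284)) (Pf.C 12 0xc10385)) (Pf.C 5 775)) Pf.nil)) Pf.nil)) Pf.nil))) Pf.nil))) (Pf.C 5 769)) (Pf.C 5 770)) (Pf.C 5 65926)) (Pf.C 5 772)) Pf.nil)) (Pf.W 28 5 [] [1,4] (Pf.cons (Pf.C 12 0x804305) Pf.nil))) (Pf.B 5 1 (Pf.W 28 5 [] [2,4] (Pf.cons (Pf.C 12 0x808305) Pf.nil)) (Pf.C 12 0x808085))) (Pf.C 33 643)) Pf.nil))) (Pf.C 5 49665)) (Pf.C 5 49666)) (Pf.cons (Pf.B 4 2 (Pf.B 4 1 (Pf.W 32 4 [] [0,1,2,3] (Pf.cons (Pf.B 5 3 (Pf.C 5 49669)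 (Pf.C 33 643)) (Pf.cons (Pf.B 5 3 (Pf.C 5 49669) (Pf.C 33 643)) (Pf.cons (Pf.B 5 3 (Pf.B 5 2 (Pf.B 5 1 (Pf.W 28 5 [] [0,1,2,3,4] (Pf.cons (Pf.B 6 4 (Pf.B 6 3 (Pf.B 6 2 (Pf.B 6 1 (Pf.T 1 16 (Pf.cons (Pf.W 24 1 [] [0,2,3,4,5,6] (Pf.cons (Pf.B 7 6 (Pf.B 7 4 (Pf.B 7 3 (Pf.B 7 2 (Pf.C 1 0x3000e10182) (Pf.C 1 0x870410186)) (Pf.C 27 899)) (Pf.C 27 900)) (Pf.C 3 82822)) (Pf.cons (Pf.B 7 6 (Pf.B 7 4 (Pf.B 7 3 (Pf.B 7 2 (Pf.C 1 0x3000e10182) (Pf.C 12 0x200107)) (Pf.C 27 899)) (Pf.C 27 900)) (Pf.C 3 82822)) Pf.nil))) (Pf.cons (Pf.T 1 19 (Pf.cons (Pf.W 30 1 [] [0,2,3,4,5,6] (Pf.cons (Pf.B 7 6 (Pf.B 7 5 (Pf.B 7 3 (Pf.C 1 0x2860004383) (Pf.C 33 899)) (Pf.C 12 0xc10385)) (Pf.C 5 775)) (Pf.cons (Pf.B 7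 4 (Pf.B 7 3 (Pf.B 7 2 (Pf.W 28 7 [] [0,2,3,4,5] (Pf.cons (Pf.B 8 5 (Pf.B 8 4 (Pf.B 8 3 (Pf.B 8 2 (Pf.C 1 0x2840600402) (Pf.C 5 1026)) (Pf.C 5 65928)) (Pf.C 5 1028)) (Pf.C 3 0x1c288)) Pf.nil)) (Pf.C 1 0x870410180)) (Pf.C 33 899)) (Pf.C 3 82820)) Pf.nil))) (Pf.cons (Pf.T 1 21 (Pf.cons (Pf.W 34 1 [] [0,3,4,5,6] (Pf.cons (Pf.B 7 6 (Pf.B 7 5 (Pf.B 7 4 (Pf.B 7 3 (Pf.C 1 0x2860004383) (Pf.C 5 65927)) (Pf.C 5 17284)) (Pf.C 12 0xc10385)) (Pf.C 5 775)) Pf.nil)) Pf.nil)) Pf.nil))) Pf.nil))) (Pf.C 5 769)) (Pf.C 5 770)) (Pf.C 5 65926)) (Pf.C 5 772)) Pf.nil)) (Pf.W 28 5 [] [1,4] (Pf.cons (Pf.C 12 0x804305) Pf.nil))) (Pf.B 5 1 (Pf.W 28 5 [] [2,4] (Pf.cons (Pf.C 12 0x808305) Pf.nil)) (Pf.C 12 0x808085)))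 (Pf.C 33 643)) Pf.nil)))) (Pf.C 5 49665)) (Pf.C 5 49666)) Pf.nil))) Pf.nil)) Pf.nil))) Pf.nil))))
 (Pq.cons (Pq.L [0] 7 (Pf.T 1 16 (Pf.cons (Pf.W 24 1 [] [3] (Pf.cons (Pf.C 3 49665) (Pf.cons (Pf.C 3 49665) Pf.nil))) (Pf.cons (Pf.T 1 19 (Pf.cons (Pf.W 30 1 [] [0,2,3] (Pf.cons (Pf.B 4 3 (Pf.B 4 2 (Pf.W 24 4 [] [0,1,2,3] (Pf.cons (Pf.B 5 2 (Pf.T 2 16 (Pf.cons (Pf.W 24 2 [] [0,5] (Pf.cons (Pf.C 3 82688) (Pf.cons (Pf.C 3 82688) Pf.nil))) (Pf.cons (Pf.T 2 19 (Pf.cons (Pf.W 30 2 [] [0,1,3,4,5] (Pf.cons (Pf.B 6 4 (Pf.B 6 3 (Pf.W 9 0 [5] [1,2,3,4,6] (Pf.cons (Pf.B 7 6 (Pf.B 7 4 (Pf.B 7 3 (Pf.B 7 2 (Pf.C 1 0x3020600384) (Pf.C 5 98567)) (Pf.C 12 0x404383)) (Pf.C 5 900)) (Pf.C 5 902)) (Pf.cons (Pf.C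 3 82816) Pf.nil))) (Pf.C 6 49414)) (Pf.C 5 33540)) (Pf.cons (Pf.W 28 3 [] [1,2] (Pf.cons (Pf.C 12 0x404303) Pf.nil)) (Pf.cons (Pf.C 3 49922) Pf.nil)))) (Pf.cons (Pf.T 2 21 (Pf.cons (Pf.T 3 18 (Pf.cons (Pf.C 31 386) (Pf.cons (Pf.T 3 23 (Pf.cons (Pf.W 34 2 [] [0,1,3,4,5] (Pf.cons (Pf.B 6 5 (Pf.B 6 4 (Pf.B 6 3 (Pf.B 6 1 (Pf.W 30 6 [] [0,1,2,3,4,5] (Pf.cons (Pf.B 7 2 (Pf.C 5 33543) (Pf.C 31 898)) (Pf.cons (Pf.B 7 4 (Pf.B 7 2 (Pf.B 7 1 (Pf.C 1 0x1060e10080) (Pf.C 3 50049)) (Pf.C 31 898)) (Pf.C 3 82820)) Pf.nil))) (Pf.C 5 65670)) (Pf.C 6 49414)) (Pf.C 5 33540)) (Pf.C 25 646)) Pf.nil)) (Pf.cons (Pf.C 39 131) Pf.nil))) Pf.nil))) Pf.nil)) Pf.nil))) Pf.nil))) (Pf.C 3 49794)) (Pf.cons (Pf.B 5 2 (Pf.T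 2 16 (Pf.cons (Pf.W 24 2 [] [0,5] (Pf.cons (Pf.C 3 82688) (Pf.cons (Pf.C 3 82688) Pf.nil))) (Pf.cons (Pf.T 2 19 (Pf.cons (Pf.W 30 2 [] [0,1,3,4,5] (Pf.cons (Pf.B 6 5 (Pf.B 6 4 (Pf.B 6 3 (Pf.B 6 1 (Pf.W 24 6 [] [0,5] (Pf.cons (Pf.C 3 82816) (Pf.cons (Pf.C 3 82816) Pf.nil))) (Pf.C 5 65670)) (Pf.C 6 49414)) (Pf.C 5 33540)) (Pf.C 12 0x800305)) (Pf.cons (Pf.W 28 3 [] [1,2] (Pf.cons (Pf.C 12 0x404303) Pf.nil)) (Pf.cons (Pf.C 3 49922) Pf.nil)))) (Pf.cons (Pf.T 2 21 (Pf.cons (Pf.T 3 18 (Pf.cons (Pf.C 31 386) (Pf.cons (Pf.T 3 23 (Pf.cons (Pf.W 34 2 [] [0,1,3,4,5] (Pf.cons (Pf.B 6 5 (Pf.B 6 4 (Pf.B 6 3 (Pf.B 6 1 (Pf.W 30 6 [] [0,1,2,3,4,5] (Pf.cons (Pf.B 7 2 (Pf.C 5 33543) (Pf.C 31 898)) (Pf.cons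 (Pf.B 7 4 (Pf.B 7 2 (Pf.B 7 1 (Pf.C 1 0x1060e10080) (Pf.C 3 50049)) (Pf.C 31 898)) (Pf.C 3 82820)) Pf.nil))) (Pf.C 5 65670)) (Pf.C 6 49414)) (Pf.C 5 33540)) (Pf.C 25 646)) Pf.nil)) (Pf.cons (Pf.C 39 131) Pf.nil))) Pf.nil))) Pf.nil)) Pf.nil))) Pf.nil))) (Pf.C 3 49794)) Pf.nil))) (Pf.C 5 16898)) (Pf.C 6 49284)) (Pf.cons (Pf.W 28 3 [] [1,2] (Pf.cons (Pf.C 12 0x404203) Pf.nil)) (Pf.cons (Pf.C 3 49665) Pf.nil)))) (Pf.cons (Pf.T 1 21 (Pf.cons (Pf.T 3 18 (Pf.cons (Pf.C 31 385) (Pf.cons (Pf.W 34 1 [] [0,2,3] (Pf.cons (Pf.B 4 3 (Pf.B 4 2 (Pf.W 30 4 [] [0,1,2,3] (Pf.cons (Pf.B 5 1 (Pf.C 5 16901) (Pf.C 31 641)) (Pf.cons (Pf.B 5 2 (Pf.B 5 1 (Pf.W 28 5 [] [0,1,2,3,4] (Pf.cons (Pf.B 6 4 (Pf.B 6 2 (Pf.B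 6 1 (Pf.W 9 0 [6] [1,2,3,4,5] (Pf.cons (Pf.B 7 6 (Pf.C 5 98311) (Pf.B 7 5 (Pf.B 7 4 (Pf.B 7 2 (Pf.B 7 1 (Pf.C 1 0x2840200382) (Pf.C 5 65671)) (Pf.C 5 898)) (Pf.C 5 900)) (Pf.C 6 82695))) (Pf.cons (Pf.B 7 6 (Pf.B 7 4 (Pf.B 7 2 (Pf.B 7 1 (Pf.C 1 0x3000e10082) (Pf.C 3 50049)) (Pf.C 3 50050)) (Pf.C 3 82820)) (Pf.C 3 82822)) Pf.nil))) (Pf.C 5 65670)) (Pf.C 5 770)) (Pf.C 5 772)) Pf.nil)) (Pf.C 31 641)) (Pf.C 3 49794)) Pf.nil))) (Pf.C 5 16898)) (Pf.C 6 49284)) Pf.nil)) Pf.nil))) Pf.nil)) Pf.nil))) Pf.nil))))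
 Pq.nil))))) Pq.nil)
theorem e1_o25 : AllRef e1_T e1_G40 (List.take 1 (List.flatMap (splitP 1) (List.take 1 (List.flatMap (splitP 0) (List.take 1 (applyObl d_T 2 [35,36,37,41] [0,0,0,0] [(35,0x2800000000),(36,0x1000000000),(37,0x800000000),(41,0x20000000000)])))))) :=
  chkPq_sound e1_o25c _ (by decide +kernel)
noncomputable def e1_o26c : Pq := (Pq.cons (Pq.L [0] 1 (Pf.C 5 257))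
 (Pq.cons (Pq.D 2 (Pq.cons (Pq.L [0] 7 (Pf.T 3 16 (Pf.cons (Pf.W 24 3 [] [0,1,2] (Pf.cons (Pf.B 4 2 (Pf.B 4 1 (Pf.T 1 16 (Pf.cons (Pf.W 24 1 [] [0,4] (Pf.cons (Pf.C 3 66176) (Pf.cons (Pf.C 3 66176) Pf.nil))) (Pf.cons (Pf.T 1 19 (Pf.cons (Pf.W 30 1 [] [0,2,3,4] (Pf.cons (Pf.B 5 3 (Pf.B 5 2 (Pf.B 5 4 (Pf.C 1 0x1840004282) (Pf.W 9 5 [1,4] [0,2,3] (Pf.cons (Pf.B 6 4 (Pf.B 6 3 (Pf.B 6 2 (Pf.B 6 1 (Pf.C 5 17030) (Pf.B 6 0 (Pf.C 1 0x1840004302) (Pf.C 5 17152))) (Pf.C 5 82690)) (Pf.C 5 82691)) (Pf.C 6 66182)) (Pf.cons (Pf.C 3 66309) Pf.nil)))) (Pf.C 5 17026)) (Pf.C 5 17027)) (Pf.cons (Pf.B 5 3 (Pf.B 5 2 (Pf.W 28 5 [] [0,1,2,3,4] (Pf.cons (Pf.B 6 3 (Pf.B 6 2 (Pf.B 6 1 (Pf.W 9 3 [4] [1,2,5,6] (Pf.cons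 (Pf.B 7 6 (Pf.B 7 5 (Pf.B 7 2 (Pf.B 7 1 (Pf.C 1 0x305020c382) (Pf.C 5 50049)) (Pf.C 5 50050)) (Pf.C 12 0xc04385)) (Pf.C 5 50054)) (Pf.cons (Pf.C 3 66435) Pf.nil))) (Pf.C 5 769)) (Pf.C 5 770)) (Pf.C 5 771)) Pf.nil)) (Pf.W 28 5 [] [1,2] (Pf.cons (Pf.C 12 0x404305) Pf.nil))) (Pf.C 3 66179)) Pf.nil))) (Pf.cons (Pf.T 1 21 (Pf.cons (Pf.W 34 1 [] [0,2,3,4] (Pf.cons (Pf.B 5 4 (Pf.B 5 3 (Pf.B 5 2 (Pf.C 1 0x1840004282) (Pf.C 5 17026)) (Pf.C 5 17027)) (Pf.C 25 517)) Pf.nil)) Pf.nil)) Pf.nil))) Pf.nil))) (Pf.T 1 16 (Pf.cons (Pf.T 2 17 (Pf.cons (Pf.W 26 2 [] [0,4] (Pf.cons (Pf.C 3 66176) (Pf.cons (Pf.C 3 66176) Pf.nil))) (Pf.cons (Pf.T 2 20 (Pf.cons (Pf.W 32 2 [] [0,1,3,4] (Pf.cons (Pf.W 9 0 [4] [1,2,3,5]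 (Pf.cons (Pf.B 6 5 (Pf.B 6 4 (Pf.B 6 3 (Pf.B 6 2 (Pf.B 6 1 (Pf.W 9 0 [4,6] [1,2,3,5] (Pf.cons (Pf.B 7 6 (Pf.C 5 98311) (Pf.B 7 5 (Pf.B 7 4 (Pf.B 7 3 (Pf.B 7 2 (Pf.B 7 1 (Pf.C 1 0x1840218382) (Pf.C 5 897)) (Pf.C 5 82183)) (Pf.C 5 899)) (Pf.C 6 65543)) (Pf.C 5 901))) (Pf.cons (Pf.C 3 66432) Pf.nil))) (Pf.C 5 769)) (Pf.C 5 82182)) (Pf.C 5 771)) (Pf.C 6 65542)) (Pf.C 5 773)) (Pf.cons (Pf.C 3 66304) Pf.nil))) (Pf.cons (Pf.W 9 0 [4] [1,2,3,5] (Pf.cons (Pf.B 6 5 (Pf.B 6 4 (Pf.B 6 3 (Pf.B 6 2 (Pf.B 6 1 (Pf.W 9 0 [4,6] [1,2,3,5] (Pf.cons (Pf.B 7 6 (Pf.C 5 98311) (Pf.B 7 5 (Pf.B 7 4 (Pf.B 7 3 (Pf.B 7 2 (Pf.B 7 1 (Pf.C 1 0x1840218382) (Pf.C 5 897)) (Pf.C 5 82183)) (Pf.C 5 899)) (Pf.C 6 65543)) (Pf.C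 5 901))) (Pf.cons (Pf.C 3 66432) Pf.nil))) (Pf.C 5 769)) (Pf.C 5 82182)) (Pf.C 5 771)) (Pf.C 6 65542)) (Pf.C 5 773)) (Pf.cons (Pf.C 3 66304) Pf.nil))) (Pf.cons (Pf.B 5 3 (Pf.B 5 1 (Pf.W 28 5 [] [0,1,2,3,4] (Pf.cons (Pf.B 6 4 (Pf.B 6 3 (Pf.B 6 2 (Pf.B 6 1 (Pf.W 9 0 [4,6] [1,2,3] (Pf.cons (Pf.B 7 6 (Pf.C 5 98311) (Pf.B 7 4 (Pf.B 7 3 (Pf.B 7 2 (Pf.B 7 1 (Pf.C 1 0x1840218382) (Pf.C 5 897)) (Pf.C 5 898)) (Pf.C 5 899)) (Pf.C 6 65543))) (Pf.cons (Pf.C 3 66432) Pf.nil))) (Pf.C 5 769)) (Pf.C 5 770)) (Pf.C 5 771)) (Pf.C 3 82438)) Pf.nil)) (Pf.C 3 66177)) (Pf.C 3 66179)) Pf.nil)))) (Pf.cons (Pf.T 2 22 (Pf.cons (Pf.W 36 2 [] [0,1,3,4] (Pf.cons (Pf.B 5 4 (Pf.B 5 3 (Pf.B 5 1 (Pf.W 9 0 [4] [1,2,3,5] (Pf.cons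 (Pf.B 6 5 (Pf.B 6 4 (Pf.B 6 3 (Pf.B 6 2 (Pf.B 6 1 (Pf.C 1 0x1840214106) (Pf.C 5 769)) (Pf.C 5 82182)) (Pf.C 5 771)) (Pf.C 6 65542)) (Pf.C 5 773)) (Pf.cons (Pf.C 3 66304) Pf.nil))) (Pf.C 5 33409)) (Pf.C 5 33411)) (Pf.C 25 517)) (Pf.cons (Pf.B 5 4 (Pf.B 5 3 (Pf.B 5 1 (Pf.W 9 0 [4] [1,2,3,5] (Pf.cons (Pf.B 6 5 (Pf.B 6 4 (Pf.B 6 3 (Pf.B 6 2 (Pf.B 6 1 (Pf.C 1 0x1840214106) (Pf.C 5 769)) (Pf.C 5 82182)) (Pf.C 5 771)) (Pf.C 6 65542)) (Pf.C 5 773)) (Pf.cons (Pf.C 3 66304) Pf.nil))) (Pf.C 5 33409)) (Pf.C 5 33411)) (Pf.C 27 517)) Pf.nil))) Pf.nil)) Pf.nil))) Pf.nil))) (Pf.cons (Pf.C 25 513) Pf.nil)))) (Pf.B 4 1 (Pf.T 2 17 (Pf.cons (Pf.T 1 16 (Pf.cons (Pf.W 24 1 [] [0,4] (Pf.cons (Pf.C 3 66176) (Pf.cons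 (Pf.C 3 66176) Pf.nil))) (Pf.cons (Pf.T 1 19 (Pf.cons (Pf.W 30 1 [] [0,2,3,4] (Pf.cons (Pf.W 9 0 [4] [1,2,3,5] (Pf.cons (Pf.B 6 5 (Pf.B 6 4 (Pf.B 6 3 (Pf.B 6 2 (Pf.B 6 1 (Pf.W 9 0 [4,6] [1,2,3,5] (Pf.cons (Pf.B 7 6 (Pf.C 5 98311) (Pf.B 7 5 (Pf.B 7 4 (Pf.B 7 3 (Pf.B 7 2 (Pf.B 7 1 (Pf.C 1 0x1840418381) (Pf.C 5 82055)) (Pf.C 5 898)) (Pf.C 5 899)) (Pf.C 6 65543)) (Pf.C 5 901))) (Pf.cons (Pf.C 3 66432) Pf.nil))) (Pf.C 5 82054)) (Pf.C 5 770)) (Pf.C 5 771)) (Pf.C 6 65542)) (Pf.C 5 773)) (Pf.cons (Pf.C 3 66304) Pf.nil))) (Pf.cons (Pf.B 5 3 (Pf.B 5 2 (Pf.W 28 5 [] [0,1,2,3,4] (Pf.cons (Pf.B 6 4 (Pf.B 6 3 (Pf.B 6 2 (Pf.B 6 1 (Pf.W 9 0 [4,6] [1,2,3] (Pf.cons (Pf.B 7 6 (Pf.C 5 98311) (Pf.B 7 4 (Pf.B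 7 3 (Pf.B 7 2 (Pf.B 7 1 (Pf.C 1 0x1840418381) (Pf.C 5 897)) (Pf.C 5 898)) (Pf.C 5 899)) (Pf.C 6 65543))) (Pf.cons (Pf.C 3 66432) Pf.nil))) (Pf.C 5 769)) (Pf.C 5 770)) (Pf.C 5 771)) (Pf.C 3 82438)) Pf.nil)) (Pf.C 3 66178)) (Pf.C 3 66179)) Pf.nil))) (Pf.cons (Pf.T 1 21 (Pf.cons (Pf.W 34 1 [] [0,2,3,4] (Pf.cons (Pf.B 5 4 (Pf.B 5 3 (Pf.B 5 2 (Pf.W 9 0 [4] [1,2,3,5] (Pf.cons (Pf.B 6 5 (Pf.B 6 4 (Pf.B 6 3 (Pf.B 6 2 (Pf.B 6 1 (Pf.C 1 0x1840414086) (Pf.C 5 82054)) (Pf.C 5 770)) (Pf.C 5 771)) (Pf.C 6 65542)) (Pf.C 5 773)) (Pf.cons (Pf.C 3 66304) Pf.nil))) (Pf.C 5 17026)) (Pf.C 5 17027)) (Pf.C 25 517)) Pf.nil)) Pf.nil)) Pf.nil))) Pf.nil))) (Pf.cons (Pf.C 27 514) Pf.nil))) (Pf.T 1 16 (Pf.cons (Pf.T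 2 17 (Pf.cons (Pf.W 9 0 [4] [1,2,3] (Pf.cons (Pf.B 5 4 (Pf.B 5 3 (Pf.B 5 2 (Pf.B 5 1 (Pf.T 5 1 (Pf.cons (Pf.T 5 11 (Pf.cons (Pf.T 5 12 (Pf.cons (Pf.W 9 0 [4,5] [1,2,3] (Pf.cons (Pf.B 6 5 (Pf.C 5 81926) (Pf.B 6 4 (Pf.B 6 3 (Pf.B 6 2 (Pf.B 6 1 (Pf.W 9 1 [4] [2,3,5,6] (Pf.cons (Pf.B 7 6 (Pf.B 7 5 (Pf.B 7 4 (Pf.B 7 3 (Pf.B 7 2 (Pf.C 1 0x1840418287) (Pf.C 5 17282)) (Pf.C 5 17283)) (Pf.C 6 65671)) (Pf.C 5 98951)) (Pf.C 5 17286)) (Pf.cons (Pf.C 3 66433) Pf.nil))) (Pf.C 5 769)) (Pf.C 5 770)) (Pf.C 5 771)) (Pf.C 6 65542))) (Pf.cons (Pf.C 3 66304) Pf.nil))) Pf.nil)) Pf.nil)) (Pf.cons (Pf.T 5 13 (Pf.cons (Pf.W 9 0 [4,5] [1,2,3] (Pf.cons (Pf.B 6 5 (Pf.C 5 81926) (Pf.B 6 4 (Pf.B 6 3 (Pf.B 6 2 (Pf.B 6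 1 (Pf.W 9 1 [4] [2,3,5,6] (Pf.cons (Pf.B 7 6 (Pf.B 7 5 (Pf.B 7 4 (Pf.B 7 3 (Pf.B 7 2 (Pf.C 1 0x1840418287) (Pf.C 5 17282)) (Pf.C 5 17283)) (Pf.C 6 65671)) (Pf.C 5 98951)) (Pf.C 5 17286)) (Pf.cons (Pf.C 3 66433) Pf.nil))) (Pf.C 5 769)) (Pf.C 5 770)) (Pf.C 5 771)) (Pf.C 6 65542))) (Pf.cons (Pf.C 3 66304) Pf.nil))) Pf.nil)) Pf.nil))) (Pf.C 5 641)) (Pf.C 5 642)) (Pf.C 5 643)) (Pf.C 6 65541)) (Pf.cons (Pf.C 3 66176) Pf.nil))) (Pf.cons (Pf.C 27 514) Pf.nil))) (Pf.cons (Pf.C 25 513) Pf.nil))))) (Pf.cons (Pf.B 4 2 (Pf.B 4 1 (Pf.T 1 16 (Pf.cons (Pf.W 24 1 [] [0,4] (Pf.cons (Pf.C 3 66176) (Pf.cons (Pf.C 3 66176) Pf.nil))) (Pf.cons (Pf.T 1 19 (Pf.cons (Pf.W 30 1 [] [0,2,3,4] (Pf.cons (Pf.B 5 4 (Pf.B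 5 3 (Pf.B 5 2 (Pf.C 1 0x1840004282) (Pf.C 5 17026)) (Pf.C 5 17027)) (Pf.C 12 0x600284)) (Pf.cons (Pf.W 9 1 [5] [0,2,3,4] (Pf.cons (Pf.B 6 4 (Pf.B 6 3 (Pf.B 6 2 (Pf.B 6 0 (Pf.C 1 0x1840004302) (Pf.C 5 17152)) (Pf.C 5 17154)) (Pf.C 5 17155)) (Pf.C 12 0x600304)) (Pf.cons (Pf.C 3 82689) Pf.nil))) Pf.nil))) (Pf.cons (Pf.T 1 21 (Pf.cons (Pf.W 34 1 [] [0,2,3,4] (Pf.cons (Pf.B 5 4 (Pf.B 5 3 (Pf.B 5 2 (Pf.C 1 0x1840004282) (Pf.C 5 17026)) (Pf.C 5 17027)) (Pf.C 25 517)) Pf.nil)) Pf.nil)) Pf.nil))) Pf.nil))) (Pf.C 12 0x600084)) (Pf.C 12 0x600104)) Pf.nil))) (Pf.cons (Pf.T 3 19 (Pf.cons (Pf.W 30 3 [] [0,1,2] (Pf.cons (Pf.B 4 2 (Pf.B 4 1 (Pf.W 24 4 [] [0,1,2,3] (Pf.cons (Pf.B 5 3 (Pf.B 5 2 (Pf.B 5 1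 (Pf.T 1 16 (Pf.cons (Pf.W 24 1 [] [0,5] (Pf.cons (Pf.C 3 82688) (Pf.cons (Pf.C 3 82688) Pf.nil))) (Pf.cons (Pf.T 1 19 (Pf.cons (Pf.W 30 1 [] [0,2,3,4,5] (Pf.cons (Pf.B 6 4 (Pf.B 6 3 (Pf.B 6 2 (Pf.B 6 5 (Pf.C 1 0x1840a04302) (Pf.W 9 4 [3,5] [1,2,6] (Pf.cons (Pf.B 7 6 (Pf.B 7 5 (Pf.B 7 3 (Pf.C 5 49671) (Pf.B 7 2 (Pf.B 7 1 (Pf.C 1 0x286020c382) (Pf.C 5 98439)) (Pf.C 5 50050))) (Pf.C 6 82439)) (Pf.C 5 66438)) (Pf.cons (Pf.C 3 82820) Pf.nil)))) (Pf.C 5 17154)) (Pf.C 5 65926)) (Pf.C 5 17156)) (Pf.cons (Pf.B 6 4 (Pf.B 6 3 (Pf.B 6 2 (Pf.W 28 6 [] [0,2,3,4] (Pf.cons (Pf.B 7 4 (Pf.B 7 3 (Pf.B 7 2 (Pf.C 1 0x3070010182) (Pf.C 5 898)) (Pf.C 5 65927)) (Pf.C 5 900)) Pf.nil)) (Pf.C 1 0x860410180)) (Pf.B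 6 2 (Pf.W 28 6 [] [1,3] (Pf.cons (Pf.C 12 0x604386) Pf.nil)) (Pf.C 12 0x604106))) (Pf.C 3 82692)) Pf.nil))) (Pf.cons (Pf.T 1 21 (Pf.cons (Pf.W 34 1 [] [0,2,4,5] (Pf.cons (Pf.B 6 5 (Pf.B 6 4 (Pf.B 6 2 (Pf.C 1 0x2050004302) (Pf.C 5 17154)) (Pf.C 5 17156)) (Pf.C 25 646)) Pf.nil)) Pf.nil)) Pf.nil))) Pf.nil))) (Pf.T 1 16 (Pf.cons (Pf.W 9 4 [3,5] [0,1,2] (Pf.cons (Pf.B 6 5 (Pf.B 6 3 (Pf.C 5 49670) (Pf.B 6 2 (Pf.B 6 1 (Pf.B 6 0 (Pf.C 1 0x85000c302) (Pf.C 5 49920)) (Pf.C 5 49921)) (Pf.C 5 49922))) (Pf.C 6 82438)) (Pf.cons (Pf.C 3 82692) Pf.nil))) (Pf.cons (Pf.C 25 641) Pf.nil)))) (Pf.B 5 1 (Pf.T 2 17 (Pf.cons (Pf.W 9 4 [3,5] [0,1,2] (Pf.cons (Pf.B 6 5 (Pf.B 6 3 (Pf.C 5 49670) (Pf.B 6 2 (Pf.B 6 1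 (Pf.B 6 0 (Pf.C 1 0x105000c301) (Pf.C 5 49920)) (Pf.C 5 49921)) (Pf.C 5 49922))) (Pf.C 6 82438)) (Pf.cons (Pf.C 3 82692) Pf.nil))) (Pf.cons (Pf.C 27 642) Pf.nil))) (Pf.T 1 16 (Pf.cons (Pf.T 2 17 (Pf.cons (Pf.W 9 0 [5] [1,2,3,4] (Pf.cons (Pf.B 6 5 (Pf.B 6 4 (Pf.B 6 3 (Pf.B 6 2 (Pf.B 6 1 (Pf.W 9 0 [5,6] [1,2,3,4] (Pf.cons (Pf.B 7 6 (Pf.C 5 98311) (Pf.B 7 5 (Pf.B 7 4 (Pf.B 7 3 (Pf.B 7 2 (Pf.B 7 1 (Pf.C 1 0x1050218383) (Pf.C 5 897)) (Pf.C 5 898)) (Pf.C 5 65927)) (Pf.C 5 900)) (Pf.C 6 81927))) (Pf.cons (Pf.C 3 82816) Pf.nil))) (Pf.C 5 769)) (Pf.C 5 770)) (Pf.C 5 65926)) (Pf.C 5 772)) (Pf.C 6 81926)) (Pf.cons (Pf.C 3 82688) Pf.nil))) (Pf.cons (Pf.C 27 642) Pf.nil))) (Pf.cons (Pf.C 25 641) Pf.nil)))))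 (Pf.C 25 643)) (Pf.cons (Pf.B 5 2 (Pf.B 5 1 (Pf.T 1 16 (Pf.cons (Pf.W 24 1 [] [0,5] (Pf.cons (Pf.C 3 82688) (Pf.cons (Pf.C 3 82688) Pf.nil))) (Pf.cons (Pf.T 1 19 (Pf.cons (Pf.W 30 1 [] [0,2,3,4,5] (Pf.cons (Pf.B 6 5 (Pf.B 6 4 (Pf.B 6 2 (Pf.C 1 0x2050004302) (Pf.C 5 17154)) (Pf.C 5 17156)) (Pf.C 12 0x800305)) (Pf.cons (Pf.B 6 4 (Pf.B 6 3 (Pf.B 6 2 (Pf.W 28 6 [] [0,2,3,4] (Pf.cons (Pf.B 7 4 (Pf.B 7 3 (Pf.B 7 2 (Pf.C 1 0x3070010182) (Pf.C 5 898)) (Pf.C 5 65927)) (Pf.C 5 900)) Pf.nil)) (Pf.C 1 0x860410180)) (Pf.B 6 2 (Pf.W 28 6 [] [1,3] (Pf.cons (Pf.C 12 0x604386) Pf.nil)) (Pf.C 12 0x604106))) (Pf.C 3 82692)) Pf.nil))) (Pf.cons (Pf.T 1 21 (Pf.cons (Pf.W 34 1 [] [0,2,4,5] (Pf.cons (Pf.B 6 5 (Pf.B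 6 4 (Pf.B 6 2 (Pf.C 1 0x2050004302) (Pf.C 5 17154)) (Pf.C 5 17156)) (Pf.C 25 646)) Pf.nil)) Pf.nil)) Pf.nil))) Pf.nil))) (Pf.C 12 0x800085)) (Pf.C 12 0x800105)) Pf.nil))) (Pf.C 5 49665)) (Pf.C 5 49666)) (Pf.cons (Pf.B 4 2 (Pf.B 4 1 (Pf.W 28 4 [] [0,1,2,3] (Pf.cons (Pf.B 5 3 (Pf.B 5 2 (Pf.B 5 1 (Pf.T 1 16 (Pf.cons (Pf.W 24 1 [] [2,3,4,5] (Pf.cons (Pf.W 9 1 [6] [2,3,4,5] (Pf.cons (Pf.B 7 5 (Pf.B 7 4 (Pf.B 7 3 (Pf.B 7 2 (Pf.C 1 0x2840604382) (Pf.C 5 17282)) (Pf.C 5 17283)) (Pf.C 12 0xa0c384)) (Pf.C 5 17285)) (Pf.cons (Pf.C 3 99201) Pf.nil))) (Pf.cons (Pf.W 9 1 [6] [2,3,4,5] (Pf.cons (Pf.B 7 5 (Pf.B 7 4 (Pf.B 7 3 (Pf.B 7 2 (Pf.C 1 0x2840604382) (Pf.C 5 17282)) (Pf.C 5 17283)) (Pf.C 12 0xa0c384))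 (Pf.C 5 17285)) (Pf.cons (Pf.C 3 99201) Pf.nil))) Pf.nil))) (Pf.cons (Pf.T 1 19 (Pf.cons (Pf.W 30 1 [] [0,2,3,4,5] (Pf.cons (Pf.B 6 5 (Pf.B 6 4 (Pf.B 6 2 (Pf.C 1 0x2050004302) (Pf.C 5 17154)) (Pf.C 12 0xa0c304)) (Pf.C 5 646)) (Pf.cons (Pf.W 9 1 [6] [2,3,4,5] (Pf.cons (Pf.B 7 5 (Pf.B 7 4 (Pf.B 7 3 (Pf.B 7 2 (Pf.C 1 0x2840604382) (Pf.C 5 17282)) (Pf.C 5 17283)) (Pf.C 12 0xa0c384)) (Pf.C 5 17285)) (Pf.cons (Pf.C 3 99201) Pf.nil))) Pf.nil))) (Pf.cons (Pf.T 1 21 (Pf.cons (Pf.W 34 1 [] [0,2,3,4,5] (Pf.cons (Pf.B 6 5 (Pf.B 6 4 (Pf.B 6 2 (Pf.C 1 0x2050004302) (Pf.C 5 17154)) (Pf.C 12 0xa0c304)) (Pf.C 5 646)) Pf.nil)) Pf.nil)) Pf.nil))) Pf.nil))) (Pf.C 5 641)) (Pf.C 5 642)) (Pf.C 5 643)) Pf.nil))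 (Pf.W 28 4 [] [1,3] (Pf.cons (Pf.C 12 0x604284) Pf.nil))) (Pf.B 4 1 (Pf.W 28 4 [] [2,3] (Pf.cons (Pf.C 12 0x608284) Pf.nil)) (Pf.C 12 0x608084))) Pf.nil))) (Pf.cons (Pf.T 3 21 (Pf.cons (Pf.W 34 3 [] [0,1,2] (Pf.cons (Pf.B 4 2 (Pf.B 4 1 (Pf.W 30 4 [] [0,1,2,3] (Pf.cons (Pf.B 5 3 (Pf.C 5 49669) (Pf.C 31 643)) (Pf.cons (Pf.B 5 3 (Pf.B 5 2 (Pf.B 5 1 (Pf.W 28 5 [] [0,1,2,3,4] (Pf.cons (Pf.B 6 4 (Pf.B 6 3 (Pf.B 6 2 (Pf.B 6 1 (Pf.T 1 16 (Pf.cons (Pf.W 24 1 [] [0,2,3,4,5,6] (Pf.cons (Pf.B 7 6 (Pf.B 7 4 (Pf.B 7 3 (Pf.B 7 2 (Pf.C 1 0x3000e10182) (Pf.C 1 0x870410186)) (Pf.C 25 899)) (Pf.C 25 900)) (Pf.C 3 82822)) (Pf.cons (Pf.B 7 6 (Pf.B 7 4 (Pf.B 7 3 (Pf.B 7 2 (Pf.C 1 0x3000e10182) (Pf.C 12 0x200107))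 (Pf.C 25 899)) (Pf.C 25 900)) (Pf.C 3 82822)) Pf.nil))) (Pf.cons (Pf.T 1 19 (Pf.cons (Pf.W 30 1 [] [0,2,3,4,5,6] (Pf.cons (Pf.B 7 6 (Pf.B 7 5 (Pf.B 7 3 (Pf.C 1 0x2860004383) (Pf.C 31 899)) (Pf.C 12 0xc10385)) (Pf.C 5 775)) (Pf.cons (Pf.B 7 4 (Pf.B 7 3 (Pf.B 7 2 (Pf.W 28 7 [] [0,2,3,4,5] (Pf.cons (Pf.B 8 5 (Pf.B 8 4 (Pf.B 8 3 (Pf.B 8 2 (Pf.C 1 0x2840600402) (Pf.C 5 1026)) (Pf.C 5 65928)) (Pf.C 5 1028)) (Pf.C 3 0x1c288)) Pf.nil)) (Pf.C 1 0x870410180)) (Pf.C 31 899)) (Pf.C 3 82820)) Pf.nil))) (Pf.cons (Pf.T 1 21 (Pf.cons (Pf.W 34 1 [] [0,3,4,5,6] (Pf.cons (Pf.B 7 6 (Pf.B 7 5 (Pf.B 7 4 (Pf.B 7 3 (Pf.C 1 0x2860004383) (Pf.C 5 65927)) (Pf.C 5 17284)) (Pf.C 12 0xc10385)) (Pf.C 5 775)) Pf.nil))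 Pf.nil)) Pf.nil))) Pf.nil))) (Pf.C 5 769)) (Pf.C 5 770)) (Pf.C 5 65926)) (Pf.C 5 772)) Pf.nil)) (Pf.W 28 5 [] [1,4] (Pf.cons (Pf.C 12 0x804305) Pf.nil))) (Pf.B 5 1 (Pf.W 28 5 [] [2,4] (Pf.cons (Pf.C 12 0x808305) Pf.nil)) (Pf.C 12 0x808085))) (Pf.C 31 643)) Pf.nil))) (Pf.C 5 49665)) (Pf.C 5 49666)) Pf.nil)) Pf.nil)) Pf.nil))) Pf.nil))))
 (Pq.cons (Pq.L [0] 2 (Pf.C 5 385))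
 (Pq.cons (Pq.L [0] 7 (Pf.T 1 16 (Pf.cons (Pf.W 24 1 [] [0,2,3] (Pf.cons (Pf.B 4 3 (Pf.B 4 2 (Pf.T 2 17 (Pf.cons (Pf.W 26 2 [] [0,4] (Pf.cons (Pf.C 3 66176) (Pf.cons (Pf.C 3 66176) Pf.nil))) (Pf.cons (Pf.T 2 20 (Pf.cons (Pf.W 32 2 [] [0,1,3,4] (Pf.cons (Pf.B 5 3 (Pf.C 5 49413) (Pf.B 5 1 (Pf.T 3 17 (Pf.cons (Pf.W 26 3 [] [0,4] (Pf.cons (Pf.C 3 66304) (Pf.cons (Pf.C 3 66304) Pf.nil))) (Pf.cons (Pf.T 3 20 (Pf.cons (Pf.W 9 0 [4] [1,2,3,5] (Pf.cons (Pf.B 6 5 (Pf.B 6 4 (Pf.B 6 3 (Pf.B 6 2 (Pf.B 6 1 (Pf.W 9 1 [4] [2,3,5,6] (Pf.cons (Pf.B 7 6 (Pf.B 7 5 (Pf.B 7 4 (Pf.B 7 3 (Pf.B 7 2 (Pf.C 1 0x2010e0c106) (Pf.C 5 49415)) (Pf.C 5 82311)) (Pf.C 6 65671)) (Pf.C 5 17285)) (Pf.C 5 17286)) (Pf.cons (Pf.C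 3 66433) Pf.nil))) (Pf.C 5 769)) (Pf.C 5 49414)) (Pf.C 5 82310)) (Pf.C 6 65542)) (Pf.C 5 773)) (Pf.cons (Pf.C 3 66304) Pf.nil))) (Pf.cons (Pf.C 33 643) Pf.nil))) Pf.nil))) (Pf.C 5 33409))) (Pf.cons (Pf.W 26 3 [] [0,4] (Pf.cons (Pf.C 3 66176) (Pf.cons (Pf.C 3 66176) Pf.nil))) (Pf.cons (Pf.B 5 3 (Pf.C 5 49413) (Pf.B 5 4 (Pf.B 5 1 (Pf.W 26 5 [] [0,4] (Pf.cons (Pf.C 3 66304) (Pf.cons (Pf.C 3 66304) Pf.nil))) (Pf.C 5 33409)) (Pf.C 10 0x608205))) (Pf.cons (Pf.B 5 3 (Pf.B 5 1 (Pf.W 28 5 [] [0,1,2,3,4] (Pf.cons (Pf.W 9 0 [4,6] [1,2,3,5] (Pf.cons (Pf.B 7 6 (Pf.C 5 98311) (Pf.B 7 5 (Pf.B 7 3 (Pf.B 7 2 (Pf.B 7 1 (Pf.C 1 0x2820600381) (Pf.C 5 897)) (Pf.C 5 49415)) (Pf.C 5 899)) (Pf.C 6 82695))) (Pf.cons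 (Pf.C 3 66432) Pf.nil))) Pf.nil)) (Pf.C 3 66177)) (Pf.C 6 82179)) Pf.nil))))) (Pf.cons (Pf.T 2 22 (Pf.cons (Pf.T 3 17 (Pf.cons (Pf.C 33 386) (Pf.cons (Pf.W 36 2 [] [0,1,3,4] (Pf.cons (Pf.B 5 4 (Pf.B 5 3 (Pf.C 5 49413) (Pf.B 5 1 (Pf.W 30 5 [] [0,1,2,3,4] (Pf.cons (Pf.B 6 3 (Pf.C 5 49798) (Pf.C 10 0xa08303)) (Pf.cons (Pf.B 6 3 (Pf.B 6 2 (Pf.B 6 1 (Pf.W 28 6 [] [0,1,2,3,5] (Pf.cons (Pf.B 7 5 (Pf.B 7 3 (Pf.B 7 2 (Pf.B 7 1 (Pf.C 1 0x307000c101) (Pf.C 5 897)) (Pf.C 5 49415)) (Pf.C 5 82311)) (Pf.C 5 901)) Pf.nil)) (Pf.C 3 66305)) (Pf.C 33 770)) (Pf.C 6 98947)) Pf.nil))) (Pf.C 5 33409))) (Pf.C 25 517)) (Pf.cons (Pf.W 32 3 [] [0,1,2,4] (Pf.cons (Pf.B 5 2 (Pf.C 5 33157) (Pf.C 33 642)) (Pf.cons (Pf.B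 5 2 (Pf.C 5 33157) (Pf.C 33 642)) (Pf.cons (Pf.B 5 2 (Pf.B 5 1 (Pf.W 28 5 [] [0,1,2,3,4] (Pf.cons (Pf.W 9 0 [4,6] [1,2,3,5] (Pf.cons (Pf.B 7 6 (Pf.C 5 98311) (Pf.B 7 5 (Pf.B 7 3 (Pf.B 7 2 (Pf.B 7 1 (Pf.C 1 0x2830400381) (Pf.C 5 897)) (Pf.C 5 49415)) (Pf.C 5 899)) (Pf.C 6 82695))) (Pf.cons (Pf.C 3 66432) Pf.nil))) Pf.nil)) (Pf.C 3 66177)) (Pf.C 33 642)) Pf.nil)))) (Pf.cons (Pf.B 5 3 (Pf.C 5 49413) (Pf.B 5 1 (Pf.W 32 5 [] [2,3] (Pf.cons (Pf.C 10 0x608305) (Pf.cons (Pf.C 10 0x608305) (Pf.cons (Pf.C 10 0x608305) Pf.nil)))) (Pf.C 5 33409))) Pf.nil)))) Pf.nil))) Pf.nil)) Pf.nil))) Pf.nil))) (Pf.T 2 17 (Pf.cons (Pf.T 3 17 (Pf.cons (Pf.W 26 3 [] [0,4] (Pf.cons (Pf.C 3 66176) (Pf.cons (Pf.C 3 66176)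 Pf.nil))) (Pf.cons (Pf.T 3 20 (Pf.cons (Pf.W 9 0 [4] [1,3] (Pf.cons (Pf.B 5 4 (Pf.B 5 3 (Pf.B 5 1 (Pf.T 5 1 (Pf.cons (Pf.T 5 11 (Pf.cons (Pf.T 5 12 (Pf.cons (Pf.W 9 0 [4,5] [1,3] (Pf.cons (Pf.B 6 5 (Pf.C 5 81926) (Pf.B 6 4 (Pf.B 6 3 (Pf.B 6 1 (Pf.W 9 1 [4] [3,5,6] (Pf.cons (Pf.B 7 6 (Pf.B 7 5 (Pf.B 7 4 (Pf.B 7 3 (Pf.C 1 0x2010e18283) (Pf.C 5 17283)) (Pf.C 6 65671)) (Pf.C 5 98951)) (Pf.C 5 17286)) (Pf.cons (Pf.C 3 66433) Pf.nil))) (Pf.C 5 769)) (Pf.C 5 771)) (Pf.C 6 65542))) (Pf.cons (Pf.C 3 66304) Pf.nil))) Pf.nil)) Pf.nil)) (Pf.cons (Pf.T 5 13 (Pf.cons (Pf.W 9 0 [4,5] [1,3] (Pf.cons (Pf.B 6 5 (Pf.C 5 81926) (Pf.B 6 4 (Pf.B 6 3 (Pf.B 6 1 (Pf.W 9 1 [4] [3,5,6] (Pf.cons (Pf.B 7 6 (Pf.B 7 5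 (Pf.B 7 4 (Pf.B 7 3 (Pf.C 1 0x2010e18283) (Pf.C 5 17283)) (Pf.C 6 65671)) (Pf.C 5 98951)) (Pf.C 5 17286)) (Pf.cons (Pf.C 3 66433) Pf.nil))) (Pf.C 5 769)) (Pf.C 5 771)) (Pf.C 6 65542))) (Pf.cons (Pf.C 3 66304) Pf.nil))) Pf.nil)) Pf.nil))) (Pf.C 5 641)) (Pf.C 5 643)) (Pf.C 6 65541)) (Pf.cons (Pf.C 3 66176) Pf.nil))) (Pf.cons (Pf.C 33 259) Pf.nil))) Pf.nil))) (Pf.cons (Pf.C 27 514) Pf.nil)))) (Pf.B 4 2 (Pf.T 3 17 (Pf.cons (Pf.T 2 17 (Pf.cons (Pf.W 26 2 [] [0,4] (Pf.cons (Pf.C 3 66176) (Pf.cons (Pf.C 3 66176) Pf.nil))) (Pf.cons (Pf.T 2 20 (Pf.cons (Pf.W 9 0 [4] [1,2,3] (Pf.cons (Pf.B 5 4 (Pf.B 5 3 (Pf.B 5 2 (Pf.B 5 1 (Pf.T 5 1 (Pf.cons (Pf.T 5 11 (Pf.cons (Pf.T 5 12 (Pf.cons (Pf.W 9 0 [4,5]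 [1,2,3] (Pf.cons (Pf.B 6 5 (Pf.C 5 81926) (Pf.B 6 4 (Pf.B 6 3 (Pf.B 6 2 (Pf.B 6 1 (Pf.W 9 1 [4] [2,3,5,6] (Pf.cons (Pf.B 7 6 (Pf.B 7 5 (Pf.B 7 4 (Pf.B 7 3 (Pf.B 7 2 (Pf.C 1 0x2030418287) (Pf.C 5 49415)) (Pf.C 5 17283)) (Pf.C 6 65671)) (Pf.C 5 98951)) (Pf.C 5 17286)) (Pf.cons (Pf.C 3 66433) Pf.nil))) (Pf.C 5 769)) (Pf.C 5 49414)) (Pf.C 5 771)) (Pf.C 6 65542))) (Pf.cons (Pf.C 3 66304) Pf.nil))) Pf.nil)) Pf.nil)) (Pf.cons (Pf.T 5 13 (Pf.cons (Pf.W 9 0 [4,5] [1,2,3] (Pf.cons (Pf.B 6 5 (Pf.C 5 81926) (Pf.B 6 4 (Pf.B 6 3 (Pf.B 6 2 (Pf.B 6 1 (Pf.W 9 1 [4] [2,3,5,6] (Pf.cons (Pf.B 7 6 (Pf.B 7 5 (Pf.B 7 4 (Pf.B 7 3 (Pf.B 7 2 (Pf.C 1 0x2030418287) (Pf.C 5 49415)) (Pf.C 5 17283)) (Pf.C 6 65671)) (Pf.C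 5 98951)) (Pf.C 5 17286)) (Pf.cons (Pf.C 3 66433) Pf.nil))) (Pf.C 5 769)) (Pf.C 5 49414)) (Pf.C 5 771)) (Pf.C 6 65542))) (Pf.cons (Pf.C 3 66304) Pf.nil))) Pf.nil)) Pf.nil))) (Pf.C 5 641)) (Pf.C 5 49413)) (Pf.C 5 643)) (Pf.C 6 65541)) (Pf.cons (Pf.C 3 66176) Pf.nil))) (Pf.cons (Pf.C 33 386) Pf.nil))) Pf.nil))) (Pf.cons (Pf.C 27 515) Pf.nil))) (Pf.C 6 65922))) (Pf.cons (Pf.B 4 3 (Pf.B 4 2 (Pf.T 2 17 (Pf.cons (Pf.W 26 2 [] [0,4] (Pf.cons (Pf.C 3 66176) (Pf.cons (Pf.C 3 66176) Pf.nil))) (Pf.cons (Pf.T 2 20 (Pf.cons (Pf.W 32 2 [] [0,1,3,4] (Pf.cons (Pf.B 5 4 (Pf.B 5 1 (Pf.W 24 5 [] [0,4] (Pf.cons (Pf.C 3 66304) (Pf.cons (Pf.C 3 66304) Pf.nil))) (Pf.C 5 33409)) (Pf.C 12 0x200284)) (Pf.cons (Pf.W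 26 3 [] [0,4] (Pf.cons (Pf.C 3 66176) (Pf.cons (Pf.C 3 66176) Pf.nil))) (Pf.cons (Pf.B 5 4 (Pf.B 5 1 (Pf.W 26 5 [] [0,4] (Pf.cons (Pf.C 3 66304) (Pf.cons (Pf.C 3 66304) Pf.nil))) (Pf.C 5 33409)) (Pf.C 12 0x200284)) (Pf.cons (Pf.B 5 3 (Pf.B 5 1 (Pf.W 28 5 [] [0,1,2,3,4] (Pf.cons (Pf.W 9 0 [4,6] [1,2,3,5] (Pf.cons (Pf.B 7 6 (Pf.C 5 98311) (Pf.B 7 5 (Pf.B 7 3 (Pf.B 7 2 (Pf.B 7 1 (Pf.C 1 0x2820600381) (Pf.C 5 897)) (Pf.C 5 49415)) (Pf.C 5 899)) (Pf.C 6 82695))) (Pf.cons (Pf.C 3 66432) Pf.nil))) Pf.nil)) (Pf.C 3 66177)) (Pf.C 6 82179)) Pf.nil))))) (Pf.cons (Pf.T 2 22 (Pf.cons (Pf.T 3 17 (Pf.cons (Pf.C 33 386) (Pf.cons (Pf.W 36 2 [] [0,1,3,4] (Pf.cons (Pf.B 5 4 (Pf.B 5 3 (Pf.C 5 49413) (Pf.B 5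 1 (Pf.W 30 5 [] [0,1,2,3,4] (Pf.cons (Pf.B 6 3 (Pf.C 5 49798) (Pf.C 10 0xa08303)) (Pf.cons (Pf.B 6 3 (Pf.B 6 2 (Pf.B 6 1 (Pf.W 28 6 [] [0,1,2,3,5] (Pf.cons (Pf.B 7 5 (Pf.B 7 3 (Pf.B 7 2 (Pf.B 7 1 (Pf.C 1 0x307000c101) (Pf.C 5 897)) (Pf.C 5 49415)) (Pf.C 5 82311)) (Pf.C 5 901)) Pf.nil)) (Pf.C 3 66305)) (Pf.C 33 770)) (Pf.C 6 98947)) Pf.nil))) (Pf.C 5 33409))) (Pf.C 25 517)) (Pf.cons (Pf.W 32 3 [] [0,1,2,4] (Pf.cons (Pf.B 5 2 (Pf.C 5 33157) (Pf.C 33 642)) (Pf.cons (Pf.B 5 2 (Pf.C 5 33157) (Pf.C 33 642)) (Pf.cons (Pf.B 5 2 (Pf.B 5 1 (Pf.W 28 5 [] [0,1,2,3,4] (Pf.cons (Pf.W 9 0 [4,6] [1,2,3,5] (Pf.cons (Pf.B 7 6 (Pf.C 5 98311) (Pf.B 7 5 (Pf.B 7 3 (Pf.B 7 2 (Pf.B 7 1 (Pf.C 1 0x2830400381) (Pf.C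 5 897)) (Pf.C 5 49415)) (Pf.C 5 899)) (Pf.C 6 82695))) (Pf.cons (Pf.C 3 66432) Pf.nil))) Pf.nil)) (Pf.C 3 66177)) (Pf.C 33 642)) Pf.nil)))) (Pf.cons (Pf.B 5 3 (Pf.C 5 49413) (Pf.B 5 1 (Pf.W 32 5 [] [2,3] (Pf.cons (Pf.C 10 0x608305) (Pf.cons (Pf.C 10 0x608305) (Pf.cons (Pf.C 10 0x608305) Pf.nil)))) (Pf.C 5 33409))) Pf.nil)))) Pf.nil))) Pf.nil)) Pf.nil))) Pf.nil))) (Pf.C 12 0x200104)) (Pf.C 12 0x200184)) Pf.nil))) (Pf.cons (Pf.T 1 19 (Pf.cons (Pf.W 30 1 [] [0,2,3] (Pf.cons (Pf.B 4 3 (Pf.B 4 2 (Pf.W 24 4 [] [0,1,2,3] (Pf.cons (Pf.B 5 1 (Pf.B 5 3 (Pf.B 5 2 (Pf.W 9 0 [5] [1,2,3,4] (Pf.cons (Pf.B 6 5 (Pf.B 6 4 (Pf.B 6 3 (Pf.B 6 2 (Pf.B 6 1 (Pf.C 1 0x284020c106) (Pf.C 5 65670)) (Pf.C 5 49414))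 (Pf.C 5 771)) (Pf.C 5 772)) (Pf.C 6 81926)) (Pf.cons (Pf.C 3 82688) Pf.nil))) (Pf.T 2 17 (Pf.cons (Pf.T 3 17 (Pf.cons (Pf.W 26 3 [] [0,5] (Pf.cons (Pf.C 3 82688) (Pf.cons (Pf.C 3 82688) Pf.nil))) (Pf.cons (Pf.T 3 20 (Pf.cons (Pf.W 9 0 [5] [1,2,3,4] (Pf.cons (Pf.B 6 5 (Pf.B 6 4 (Pf.B 6 3 (Pf.B 6 2 (Pf.B 6 1 (Pf.W 9 0 [5,6] [1,2,3,4] (Pf.cons (Pf.B 7 6 (Pf.C 5 98311) (Pf.B 7 5 (Pf.B 7 4 (Pf.B 7 3 (Pf.B 7 2 (Pf.B 7 1 (Pf.C 1 0x2820618381) (Pf.C 5 65671)) (Pf.C 5 49415)) (Pf.C 5 899)) (Pf.C 5 900)) (Pf.C 6 81927))) (Pf.cons (Pf.C 3 82816) Pf.nil))) (Pf.C 5 65670)) (Pf.C 5 49414)) (Pf.C 5 771)) (Pf.C 5 772)) (Pf.C 6 81926)) (Pf.cons (Pf.C 3 82688) Pf.nil))) (Pf.cons (Pf.C 33 259) Pf.nil))) Pf.nil)))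 (Pf.cons (Pf.C 27 642) Pf.nil)))) (Pf.B 5 2 (Pf.T 3 17 (Pf.cons (Pf.T 2 17 (Pf.cons (Pf.W 26 2 [] [0,5] (Pf.cons (Pf.C 3 82688) (Pf.cons (Pf.C 3 82688) Pf.nil))) (Pf.cons (Pf.T 2 20 (Pf.cons (Pf.W 9 0 [5] [1,2,3,4] (Pf.cons (Pf.B 6 5 (Pf.B 6 4 (Pf.B 6 3 (Pf.B 6 2 (Pf.B 6 1 (Pf.W 9 0 [5,6] [1,2,3,4] (Pf.cons (Pf.B 7 6 (Pf.C 5 98311) (Pf.B 7 5 (Pf.B 7 4 (Pf.B 7 3 (Pf.B 7 2 (Pf.B 7 1 (Pf.C 1 0x2830418381) (Pf.C 5 65671)) (Pf.C 5 49415)) (Pf.C 5 899)) (Pf.C 5 900)) (Pf.C 6 81927))) (Pf.cons (Pf.C 3 82816) Pf.nil))) (Pf.C 5 65670)) (Pf.C 5 49414)) (Pf.C 5 771)) (Pf.C 5 772)) (Pf.C 6 81926)) (Pf.cons (Pf.C 3 82688) Pf.nil))) (Pf.cons (Pf.C 33 386) Pf.nil))) Pf.nil))) (Pf.cons (Pf.C 27 643) Pf.nil)))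 (Pf.C 6 82306))) (Pf.C 25 641)) (Pf.cons (Pf.B 5 3 (Pf.B 5 2 (Pf.B 5 1 (Pf.W 9 0 [5] [1,2,3,4] (Pf.cons (Pf.B 6 5 (Pf.B 6 4 (Pf.B 6 3 (Pf.B 6 2 (Pf.B 6 1 (Pf.C 1 0x284020c106) (Pf.C 5 65670)) (Pf.C 5 49414)) (Pf.C 5 771)) (Pf.C 5 772)) (Pf.C 6 81926)) (Pf.cons (Pf.C 3 82688) Pf.nil))) (Pf.C 25 641)) (Pf.C 12 0x800105)) (Pf.C 12 0x800185)) Pf.nil))) (Pf.C 5 49412)) (Pf.C 5 16899)) (Pf.cons (Pf.B 4 3 (Pf.B 4 2 (Pf.W 9 1 [4] [0,2,3] (Pf.cons (Pf.B 5 4 (Pf.B 5 3 (Pf.B 5 2 (Pf.B 5 0 (Pf.C 1 0x2010a0c100) (Pf.C 5 17024)) (Pf.C 5 49413)) (Pf.C 5 17027)) (Pf.C 6 65669)) (Pf.cons (Pf.C 3 66177) Pf.nil))) (Pf.W 28 4 [] [1,2] (Pf.cons (Pf.C 12 0x404284) Pf.nil))) (Pf.B 4 2 (Pf.W 28 4 [] [1,3] (Pf.cons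 (Pf.C 12 0x604284) Pf.nil)) (Pf.C 6 65922))) Pf.nil))) (Pf.cons (Pf.T 1 21 (Pf.cons (Pf.W 34 1 [] [0,2,3] (Pf.cons (Pf.B 4 3 (Pf.B 4 2 (Pf.W 30 4 [] [0,1,2,3] (Pf.cons (Pf.B 5 1 (Pf.C 5 16901) (Pf.C 31 641)) (Pf.cons (Pf.B 5 1 (Pf.B 5 3 (Pf.B 5 2 (Pf.C 1 0x840a0c100) (Pf.W 28 5 [] [2,4] (Pf.cons (Pf.C 12 0x808305) Pf.nil))) (Pf.B 5 2 (Pf.W 28 5 [] [3,4] (Pf.cons (Pf.C 12 0x80c305) Pf.nil)) (Pf.C 6 82306))) (Pf.C 31 641)) Pf.nil))) (Pf.C 5 49412)) (Pf.C 5 16899)) Pf.nil)) Pf.nil)) Pf.nil))) Pf.nil))))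
 (Pq.cons (Pq.L [0] 7 (Pf.T 1 16 (Pf.cons (Pf.W 24 1 [] [3] (Pf.cons (Pf.C 3 49665) (Pf.cons (Pf.C 3 49665) Pf.nil))) (Pf.cons (Pf.T 1 19 (Pf.cons (Pf.W 30 1 [] [0,2,3] (Pf.cons (Pf.B 4 3 (Pf.B 4 2 (Pf.W 24 4 [] [0,1,2,3] (Pf.cons (Pf.B 5 2 (Pf.T 2 17 (Pf.cons (Pf.W 26 2 [] [0,5] (Pf.cons (Pf.C 3 82688) (Pf.cons (Pf.C 3 82688) Pf.nil))) (Pf.cons (Pf.T 2 20 (Pf.cons (Pf.W 32 2 [] [0,1,3,4,5] (Pf.cons (Pf.B 6 4 (Pf.B 6 3 (Pf.W 9 0 [5] [1,2,3,4,6] (Pf.cons (Pf.B 7 6 (Pf.B 7 4 (Pf.B 7 3 (Pf.B 7 2 (Pf.C 1 0x3020600384) (Pf.C 5 98567)) (Pf.C 12 0x404383)) (Pf.C 5 900)) (Pf.C 5 902)) (Pf.cons (Pf.C 3 82816) Pf.nil))) (Pf.C 6 49414)) (Pf.C 5 33540)) (Pf.cons (Pf.B 6 4 (Pf.B 6 3 (Pf.W 9 0 [5] [1,2,3,4,6]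 (Pf.cons (Pf.B 7 6 (Pf.B 7 4 (Pf.B 7 3 (Pf.B 7 2 (Pf.C 1 0x3020600384) (Pf.C 5 98567)) (Pf.C 12 0x404383)) (Pf.C 5 900)) (Pf.C 5 902)) (Pf.cons (Pf.C 3 82816) Pf.nil))) (Pf.C 6 49414)) (Pf.C 5 33540)) (Pf.cons (Pf.W 28 3 [] [1,2] (Pf.cons (Pf.C 12 0x404303) Pf.nil)) (Pf.cons (Pf.C 3 49922) Pf.nil))))) (Pf.cons (Pf.T 2 22 (Pf.cons (Pf.T 3 18 (Pf.cons (Pf.C 33 386) (Pf.cons (Pf.T 3 23 (Pf.cons (Pf.W 36 2 [] [0,1,3,4,5] (Pf.cons (Pf.B 6 5 (Pf.B 6 4 (Pf.B 6 3 (Pf.B 6 1 (Pf.W 30 6 [] [0,1,2,3,4,5] (Pf.cons (Pf.B 7 2 (Pf.C 5 33543) (Pf.C 33 898)) (Pf.cons (Pf.B 7 4 (Pf.B 7 2 (Pf.B 7 1 (Pf.C 1 0x1060e10080) (Pf.C 3 50049)) (Pf.C 33 898)) (Pf.C 3 82820)) Pf.nil))) (Pf.C 5 65670)) (Pf.C 6 49414))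 (Pf.C 5 33540)) (Pf.C 25 646)) (Pf.cons (Pf.B 6 5 (Pf.B 6 4 (Pf.B 6 3 (Pf.B 6 1 (Pf.W 32 6 [] [0,1,2,3,4,5] (Pf.cons (Pf.B 7 2 (Pf.C 5 33543) (Pf.C 33 898)) (Pf.cons (Pf.B 7 2 (Pf.C 5 33543) (Pf.C 33 898)) (Pf.cons (Pf.B 7 4 (Pf.B 7 2 (Pf.B 7 1 (Pf.C 1 0x1060e10080) (Pf.C 3 50049)) (Pf.C 33 898)) (Pf.C 3 82820)) Pf.nil)))) (Pf.C 5 65670)) (Pf.C 6 49414)) (Pf.C 5 33540)) (Pf.C 27 646)) Pf.nil))) (Pf.cons (Pf.C 39 131) Pf.nil))) Pf.nil))) Pf.nil)) Pf.nil))) Pf.nil))) (Pf.C 3 49794)) (Pf.cons (Pf.B 5 2 (Pf.T 2 17 (Pf.cons (Pf.W 26 2 [] [0,5] (Pf.cons (Pf.C 3 82688) (Pf.cons (Pf.C 3 82688) Pf.nil))) (Pf.cons (Pf.T 2 20 (Pf.cons (Pf.W 32 2 [] [0,1,3,4,5] (Pf.cons (Pf.B 6 5 (Pf.B 6 4 (Pf.B 6 3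 (Pf.B 6 1 (Pf.W 24 6 [] [0,5] (Pf.cons (Pf.C 3 82816) (Pf.cons (Pf.C 3 82816) Pf.nil))) (Pf.C 5 65670)) (Pf.C 6 49414)) (Pf.C 5 33540)) (Pf.C 12 0x800305)) (Pf.cons (Pf.B 6 5 (Pf.B 6 4 (Pf.B 6 3 (Pf.B 6 1 (Pf.W 26 6 [] [0,5] (Pf.cons (Pf.C 3 82816) (Pf.cons (Pf.C 3 82816) Pf.nil))) (Pf.C 5 65670)) (Pf.C 6 49414)) (Pf.C 5 33540)) (Pf.C 12 0x800305)) (Pf.cons (Pf.W 28 3 [] [1,2] (Pf.cons (Pf.C 12 0x404303) Pf.nil)) (Pf.cons (Pf.C 3 49922) Pf.nil))))) (Pf.cons (Pf.T 2 22 (Pf.cons (Pf.T 3 18 (Pf.cons (Pf.C 33 386) (Pf.cons (Pf.T 3 23 (Pf.cons (Pf.W 36 2 [] [0,1,3,4,5] (Pf.cons (Pf.B 6 5 (Pf.B 6 4 (Pf.B 6 3 (Pf.B 6 1 (Pf.W 30 6 [] [0,1,2,3,4,5] (Pf.cons (Pf.B 7 2 (Pf.C 5 33543) (Pf.C 33 898))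 (Pf.cons (Pf.B 7 4 (Pf.B 7 2 (Pf.B 7 1 (Pf.C 1 0x1060e10080) (Pf.C 3 50049)) (Pf.C 33 898)) (Pf.C 3 82820)) Pf.nil))) (Pf.C 5 65670)) (Pf.C 6 49414)) (Pf.C 5 33540)) (Pf.C 25 646)) (Pf.cons (Pf.B 6 5 (Pf.B 6 4 (Pf.B 6 3 (Pf.B 6 1 (Pf.W 32 6 [] [0,1,2,3,4,5] (Pf.cons (Pf.B 7 2 (Pf.C 5 33543) (Pf.C 33 898)) (Pf.cons (Pf.B 7 2 (Pf.C 5 33543) (Pf.C 33 898)) (Pf.cons (Pf.B 7 4 (Pf.B 7 2 (Pf.B 7 1 (Pf.C 1 0x1060e10080) (Pf.C 3 50049)) (Pf.C 33 898)) (Pf.C 3 82820)) Pf.nil)))) (Pf.C 5 65670)) (Pf.C 6 49414)) (Pf.C 5 33540)) (Pf.C 27 646)) Pf.nil))) (Pf.cons (Pf.C 39 131) Pf.nil))) Pf.nil))) Pf.nil)) Pf.nil))) Pf.nil))) (Pf.C 3 49794)) Pf.nil))) (Pf.C 5 16898)) (Pf.C 6 49284)) (Pf.cons (Pf.W 28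 3 [] [1,2] (Pf.cons (Pf.C 12 0x404203) Pf.nil)) (Pf.cons (Pf.C 3 49665) Pf.nil)))) (Pf.cons (Pf.T 1 21 (Pf.cons (Pf.T 3 18 (Pf.cons (Pf.C 31 385) (Pf.cons (Pf.W 34 1 [] [0,2,3] (Pf.cons (Pf.B 4 3 (Pf.B 4 2 (Pf.W 30 4 [] [0,1,2,3] (Pf.cons (Pf.B 5 1 (Pf.C 5 16901) (Pf.C 31 641)) (Pf.cons (Pf.B 5 2 (Pf.B 5 1 (Pf.W 28 5 [] [0,1,2,3,4] (Pf.cons (Pf.B 6 4 (Pf.B 6 2 (Pf.B 6 1 (Pf.W 9 0 [6] [1,2,3,4,5] (Pf.cons (Pf.B 7 6 (Pf.C 5 98311) (Pf.B 7 5 (Pf.B 7 4 (Pf.B 7 2 (Pf.B 7 1 (Pf.C 1 0x2840200382) (Pf.C 5 65671)) (Pf.C 5 898)) (Pf.C 5 900)) (Pf.C 6 82695))) (Pf.cons (Pf.B 7 6 (Pf.B 7 4 (Pf.B 7 2 (Pf.B 7 1 (Pf.C 1 0x3000e10082) (Pf.C 3 50049)) (Pf.C 3 50050)) (Pf.C 3 82820)) (Pf.C 3 82822)) Pf.nil)))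 (Pf.C 5 65670)) (Pf.C 5 770)) (Pf.C 5 772)) Pf.nil)) (Pf.C 31 641)) (Pf.C 3 49794)) Pf.nil))) (Pf.C 5 16898)) (Pf.C 6 49284)) Pf.nil)) Pf.nil))) Pf.nil)) Pf.nil))) Pf.nil))))
 Pq.nil))))) (Pq.cons (Pq.D 2 (Pq.cons (Pq.L [0] 7 (Pf.T 1 16 (Pf.cons (Pf.W 24 1 [] [2] (Pf.cons (Pf.C 3 33281) (Pf.cons (Pf.C 3 33281) Pf.nil))) (Pf.cons (Pf.T 1 19 (Pf.cons (Pf.W 30 1 [] [0,2,3] (Pf.cons (Pf.B 4 3 (Pf.B 4 2 (Pf.W 24 4 [] [0,1,2,3] (Pf.cons (Pf.B 5 3 (Pf.T 2 18 (Pf.cons (Pf.W 28 2 [] [1,3] (Pf.cons (Pf.C 12 0x604302) Pf.nil)) (Pf.cons (Pf.T 2 23 (Pf.cons (Pf.T 3 16 (Pf.cons (Pf.W 24 3 [] [0,5] (Pf.cons (Pf.C 3 82688) (Pf.cons (Pf.C 3 82688) Pf.nil))) (Pf.cons (Pf.T 3 19 (Pf.cons (Pf.W 30 3 [] [0,1,2,4,5]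 (Pf.cons (Pf.B 6 4 (Pf.B 6 2 (Pf.W 9 0 [5] [1,2,3,4,6] (Pf.cons (Pf.B 7 6 (Pf.B 7 4 (Pf.B 7 3 (Pf.B 7 2 (Pf.C 1 0x3030400384) (Pf.C 12 0x604382)) (Pf.C 5 98695)) (Pf.C 5 900)) (Pf.C 5 902)) (Pf.cons (Pf.C 3 82816) Pf.nil))) (Pf.C 6 33158)) (Pf.C 5 49924)) (Pf.cons (Pf.C 3 33539) Pf.nil))) (Pf.cons (Pf.T 3 21 (Pf.cons (Pf.W 34 3 [] [0,1,2,4,5] (Pf.cons (Pf.B 6 5 (Pf.B 6 4 (Pf.B 6 2 (Pf.B 6 1 (Pf.W 30 6 [] [0,1,2,3,4,5] (Pf.cons (Pf.B 7 3 (Pf.C 5 49927) (Pf.C 31 899)) (Pf.cons (Pf.B 7 4 (Pf.B 7 3 (Pf.B 7 1 (Pf.C 1 0x1860e10080) (Pf.C 3 33665)) (Pf.C 31 899)) (Pf.C 3 82820)) Pf.nil))) (Pf.C 5 65670)) (Pf.C 6 33158)) (Pf.C 5 49924)) (Pf.C 25 646)) Pf.nil)) Pf.nil)) Pf.nil))) Pf.nil))) (Pf.cons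 (Pf.C 39 130) Pf.nil))) Pf.nil))) (Pf.C 3 33411)) (Pf.cons (Pf.B 5 3 (Pf.T 2 18 (Pf.cons (Pf.W 28 2 [] [1,3] (Pf.cons (Pf.C 12 0x604302) Pf.nil)) (Pf.cons (Pf.T 2 23 (Pf.cons (Pf.T 3 16 (Pf.cons (Pf.W 24 3 [] [0,5] (Pf.cons (Pf.C 3 82688) (Pf.cons (Pf.C 3 82688) Pf.nil))) (Pf.cons (Pf.T 3 19 (Pf.cons (Pf.W 30 3 [] [0,1,2,4,5] (Pf.cons (Pf.B 6 5 (Pf.B 6 4 (Pf.B 6 2 (Pf.B 6 1 (Pf.W 24 6 [] [0,5] (Pf.cons (Pf.C 3 82816) (Pf.cons (Pf.C 3 82816) Pf.nil))) (Pf.C 5 65670)) (Pf.C 6 33158)) (Pf.C 5 49924)) (Pf.C 12 0x800305)) (Pf.cons (Pf.C 3 33539) Pf.nil))) (Pf.cons (Pf.T 3 21 (Pf.cons (Pf.W 34 3 [] [0,1,2,4,5] (Pf.cons (Pf.B 6 5 (Pf.B 6 4 (Pf.B 6 2 (Pf.B 6 1 (Pf.W 30 6 [] [0,1,2,3,4,5] (Pf.cons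 (Pf.B 7 3 (Pf.C 5 49927) (Pf.C 31 899)) (Pf.cons (Pf.B 7 4 (Pf.B 7 3 (Pf.B 7 1 (Pf.C 1 0x1860e10080) (Pf.C 3 33665)) (Pf.C 31 899)) (Pf.C 3 82820)) Pf.nil))) (Pf.C 5 65670)) (Pf.C 6 33158)) (Pf.C 5 49924)) (Pf.C 25 646)) Pf.nil)) Pf.nil)) Pf.nil))) Pf.nil))) (Pf.cons (Pf.C 39 130) Pf.nil))) Pf.nil))) (Pf.C 3 33411)) Pf.nil))) (Pf.C 6 32900)) (Pf.C 5 16899)) (Pf.cons (Pf.W 28 2 [] [1,3] (Pf.cons (Pf.C 12 0x604202) Pf.nil)) (Pf.cons (Pf.C 3 33281) Pf.nil)))) (Pf.cons (Pf.T 1 21 (Pf.cons (Pf.T 2 18 (Pf.cons (Pf.C 31 257) (Pf.cons (Pf.W 34 1 [] [0,2,3] (Pf.cons (Pf.B 4 3 (Pf.B 4 2 (Pf.W 30 4 [] [0,1,2,3] (Pf.cons (Pf.B 5 1 (Pf.C 5 16901) (Pf.C 31 641)) (Pf.cons (Pf.B 5 3 (Pf.B 5 1 (Pf.W 28 5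 [] [0,1,2,3,4] (Pf.cons (Pf.B 6 4 (Pf.B 6 3 (Pf.B 6 1 (Pf.W 9 0 [6] [1,2,3,4,5] (Pf.cons (Pf.B 7 6 (Pf.C 5 98311) (Pf.B 7 5 (Pf.B 7 4 (Pf.B 7 3 (Pf.B 7 1 (Pf.C 1 0x2840200383) (Pf.C 5 65671)) (Pf.C 5 899)) (Pf.C 5 900)) (Pf.C 6 82695))) (Pf.cons (Pf.B 7 6 (Pf.B 7 4 (Pf.B 7 3 (Pf.B 7 1 (Pf.C 1 0x3000e10083) (Pf.C 3 33665)) (Pf.C 3 33667)) (Pf.C 3 82820)) (Pf.C 3 82822)) Pf.nil))) (Pf.C 5 65670)) (Pf.C 5 771)) (Pf.C 5 772)) Pf.nil)) (Pf.C 31 641)) (Pf.C 3 33411)) Pf.nil))) (Pf.C 6 32900)) (Pf.C 5 16899)) Pf.nil)) Pf.nil))) Pf.nil)) Pf.nil))) Pf.nil))))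
 (Pq.cons (Pq.L [0] 2 (Pf.C 5 385))
 (Pq.cons (Pq.L [0] 7 (Pf.T 1 16 (Pf.cons (Pf.W 24 1 [] [2] (Pf.cons (Pf.C 3 33281) (Pf.cons (Pf.C 3 33281) Pf.nil))) (Pf.cons (Pf.T 1 19 (Pf.cons (Pf.W 30 1 [] [0,2,3] (Pf.cons (Pf.B 4 3 (Pf.B 4 2 (Pf.W 24 4 [] [0,1,2,3] (Pf.cons (Pf.B 5 3 (Pf.T 2 18 (Pf.cons (Pf.W 28 2 [] [1,3] (Pf.cons (Pf.C 12 0x604302) Pf.nil)) (Pf.cons (Pf.T 2 23 (Pf.cons (Pf.T 3 17 (Pf.cons (Pf.W 26 3 [] [0,5] (Pf.cons (Pf.C 3 82688) (Pf.cons (Pf.C 3 82688) Pf.nil))) (Pf.cons (Pf.T 3 20 (Pf.cons (Pf.W 32 3 [] [0,1,2,4,5] (Pf.cons (Pf.B 6 4 (Pf.B 6 2 (Pf.W 9 0 [5] [1,2,3,4,6] (Pf.cons (Pf.B 7 6 (Pf.B 7 4 (Pf.B 7 3 (Pf.B 7 2 (Pf.C 1 0x3030400384) (Pf.C 12 0x604382)) (Pf.C 5 98695))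 (Pf.C 5 900)) (Pf.C 5 902)) (Pf.cons (Pf.C 3 82816) Pf.nil))) (Pf.C 6 33158)) (Pf.C 5 49924)) (Pf.cons (Pf.B 6 4 (Pf.B 6 2 (Pf.W 9 0 [5] [1,2,3,4,6] (Pf.cons (Pf.B 7 6 (Pf.B 7 4 (Pf.B 7 3 (Pf.B 7 2 (Pf.C 1 0x3030400384) (Pf.C 12 0x604382)) (Pf.C 5 98695)) (Pf.C 5 900)) (Pf.C 5 902)) (Pf.cons (Pf.C 3 82816) Pf.nil))) (Pf.C 6 33158)) (Pf.C 5 49924)) (Pf.cons (Pf.C 3 33539) Pf.nil)))) (Pf.cons (Pf.T 3 22 (Pf.cons (Pf.W 36 3 [] [0,1,2,4,5] (Pf.cons (Pf.B 6 5 (Pf.B 6 4 (Pf.B 6 2 (Pf.B 6 1 (Pf.W 30 6 [] [0,1,2,3,4,5] (Pf.cons (Pf.B 7 3 (Pf.C 5 49927) (Pf.C 33 899)) (Pf.cons (Pf.B 7 4 (Pf.B 7 3 (Pf.B 7 1 (Pf.C 1 0x1860e10080) (Pf.C 3 33665)) (Pf.C 33 899)) (Pf.C 3 82820)) Pf.nil))) (Pf.C 5 65670))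 (Pf.C 6 33158)) (Pf.C 5 49924)) (Pf.C 25 646)) (Pf.cons (Pf.B 6 5 (Pf.B 6 4 (Pf.B 6 2 (Pf.B 6 1 (Pf.W 32 6 [] [0,1,2,3,4,5] (Pf.cons (Pf.B 7 3 (Pf.C 5 49927) (Pf.C 33 899)) (Pf.cons (Pf.B 7 3 (Pf.C 5 49927) (Pf.C 33 899)) (Pf.cons (Pf.B 7 4 (Pf.B 7 3 (Pf.B 7 1 (Pf.C 1 0x1860e10080) (Pf.C 3 33665)) (Pf.C 33 899)) (Pf.C 3 82820)) Pf.nil)))) (Pf.C 5 65670)) (Pf.C 6 33158)) (Pf.C 5 49924)) (Pf.C 27 646)) Pf.nil))) Pf.nil)) Pf.nil))) Pf.nil))) (Pf.cons (Pf.C 39 130) Pf.nil))) Pf.nil))) (Pf.C 3 33411)) (Pf.cons (Pf.B 5 3 (Pf.T 2 18 (Pf.cons (Pf.W 28 2 [] [1,3] (Pf.cons (Pf.C 12 0x604302) Pf.nil)) (Pf.cons (Pf.T 2 23 (Pf.cons (Pf.T 3 17 (Pf.cons (Pf.W 26 3 [] [0,5] (Pf.cons (Pf.C 3 82688) (Pf.cons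 (Pf.C 3 82688) Pf.nil))) (Pf.cons (Pf.T 3 20 (Pf.cons (Pf.W 32 3 [] [0,1,2,4,5] (Pf.cons (Pf.B 6 5 (Pf.B 6 4 (Pf.B 6 2 (Pf.B 6 1 (Pf.W 24 6 [] [0,5] (Pf.cons (Pf.C 3 82816) (Pf.cons (Pf.C 3 82816) Pf.nil))) (Pf.C 5 65670)) (Pf.C 6 33158)) (Pf.C 5 49924)) (Pf.C 12 0x800305)) (Pf.cons (Pf.B 6 5 (Pf.B 6 4 (Pf.B 6 2 (Pf.B 6 1 (Pf.W 26 6 [] [0,5] (Pf.cons (Pf.C 3 82816) (Pf.cons (Pf.C 3 82816) Pf.nil))) (Pf.C 5 65670)) (Pf.C 6 33158)) (Pf.C 5 49924)) (Pf.C 12 0x800305)) (Pf.cons (Pf.C 3 33539) Pf.nil)))) (Pf.cons (Pf.T 3 22 (Pf.cons (Pf.W 36 3 [] [0,1,2,4,5] (Pf.cons (Pf.B 6 5 (Pf.B 6 4 (Pf.B 6 2 (Pf.B 6 1 (Pf.W 30 6 [] [0,1,2,3,4,5] (Pf.cons (Pf.B 7 3 (Pf.C 5 49927) (Pf.C 33 899)) (Pf.cons (Pf.B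 7 4 (Pf.B 7 3 (Pf.B 7 1 (Pf.C 1 0x1860e10080) (Pf.C 3 33665)) (Pf.C 33 899)) (Pf.C 3 82820)) Pf.nil))) (Pf.C 5 65670)) (Pf.C 6 33158)) (Pf.C 5 49924)) (Pf.C 25 646)) (Pf.cons (Pf.B 6 5 (Pf.B 6 4 (Pf.B 6 2 (Pf.B 6 1 (Pf.W 32 6 [] [0,1,2,3,4,5] (Pf.cons (Pf.B 7 3 (Pf.C 5 49927) (Pf.C 33 899)) (Pf.cons (Pf.B 7 3 (Pf.C 5 49927) (Pf.C 33 899)) (Pf.cons (Pf.B 7 4 (Pf.B 7 3 (Pf.B 7 1 (Pf.C 1 0x1860e10080) (Pf.C 3 33665)) (Pf.C 33 899)) (Pf.C 3 82820)) Pf.nil)))) (Pf.C 5 65670)) (Pf.C 6 33158)) (Pf.C 5 49924)) (Pf.C 27 646)) Pf.nil))) Pf.nil)) Pf.nil))) Pf.nil))) (Pf.cons (Pf.C 39 130) Pf.nil))) Pf.nil))) (Pf.C 3 33411)) Pf.nil))) (Pf.C 6 32900)) (Pf.C 5 16899)) (Pf.cons (Pf.W 28 2 [] [1,3] (Pf.cons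 (Pf.C 12 0x604202) Pf.nil)) (Pf.cons (Pf.C 3 33281) Pf.nil)))) (Pf.cons (Pf.T 1 21 (Pf.cons (Pf.T 2 18 (Pf.cons (Pf.C 31 257) (Pf.cons (Pf.W 34 1 [] [0,2,3] (Pf.cons (Pf.B 4 3 (Pf.B 4 2 (Pf.W 30 4 [] [0,1,2,3] (Pf.cons (Pf.B 5 1 (Pf.C 5 16901) (Pf.C 31 641)) (Pf.cons (Pf.B 5 3 (Pf.B 5 1 (Pf.W 28 5 [] [0,1,2,3,4] (Pf.cons (Pf.B 6 4 (Pf.B 6 3 (Pf.B 6 1 (Pf.W 9 0 [6] [1,2,3,4,5] (Pf.cons (Pf.B 7 6 (Pf.C 5 98311) (Pf.B 7 5 (Pf.B 7 4 (Pf.B 7 3 (Pf.B 7 1 (Pf.C 1 0x2840200383) (Pf.C 5 65671)) (Pf.C 5 899)) (Pf.C 5 900)) (Pf.C 6 82695))) (Pf.cons (Pf.B 7 6 (Pf.B 7 4 (Pf.B 7 3 (Pf.B 7 1 (Pf.C 1 0x3000e10083) (Pf.C 3 33665)) (Pf.C 3 33667)) (Pf.C 3 82820)) (Pf.C 3 82822)) Pf.nil))) (Pf.C 5 65670))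 (Pf.C 5 771)) (Pf.C 5 772)) Pf.nil)) (Pf.C 31 641)) (Pf.C 3 33411)) Pf.nil))) (Pf.C 6 32900)) (Pf.C 5 16899)) Pf.nil)) Pf.nil))) Pf.nil)) Pf.nil))) Pf.nil))))
 (Pq.cons (Pq.L [] 3 (Pf.C 3 49409))
 Pq.nil))))) Pq.nil)))
theorem e1_o26 : AllRef e1_T e1_G40 (List.drop 1 (List.flatMap (splitP 1) (List.take 1 (List.flatMap (splitP 0) (List.take 1 (applyObl d_T 2 [35,36,37,41] [0,0,0,0] [(35,0x2800000000),(36,0x1000000000),(37,0x800000000),(41,0x20000000000)])))))) :=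
  chkPq_sound e1_o26c _ (by decide +kernel)
noncomputable def e1_o27c : Pq := (Pq.cons (Pq.D 1 (Pq.cons (Pq.L [0] 1 (Pf.C 5 32896))
 (Pq.cons (Pq.L [0] 1 (Pf.C 5 32769))
 (Pq.cons (Pq.L [0] 1 (Pf.C 5 32896))
 (Pq.cons (Pq.D 2 (Pq.cons (Pq.L [0] 2 (Pf.C 5 49280))
 (Pq.cons (Pq.L [0] 2 (Pf.C 5 49153))
 (Pq.cons (Pq.L [0] 2 (Pf.C 5 49280))
 (Pq.cons (Pq.L [] 3 (Pf.C 3 49409))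
 Pq.nil))))) Pq.nil))))) Pq.nil)
theorem e1_o27 : AllRef e1_T e1_G40 (List.take 1 (List.drop 1 (List.flatMap (splitP 0) (List.take 1 (applyObl d_T 2 [35,36,37,41] [0,0,0,0] [(35,0x2800000000),(36,0x1000000000),(37,0x800000000),(41,0x20000000000)]))))) :=
  chkPq_sound e1_o27c _ (by decide +kernel)
noncomputable def e1_o28c : Pq := (Pq.cons (Pq.D 2 (Pq.cons (Pq.L [0] 7 (Pf.T 3 16 (Pf.cons (Pf.W 24 3 [] [0,1,2] (Pf.cons (Pf.B 4 2 (Pf.B 4 1 (Pf.T 1 17 (Pf.cons (Pf.W 26 1 [] [0,4] (Pf.cons (Pf.C 3 66176) (Pf.cons (Pf.C 3 66176) Pf.nil))) (Pf.cons (Pf.T 1 20 (Pf.cons (Pf.W 32 1 [] [0,2,3,4] (Pf.cons (Pf.B 5 3 (Pf.B 5 2 (Pf.B 5 4 (Pf.C 1 0x1840004282) (Pf.W 9 5 [1,4] [0,2,3] (Pf.cons (Pf.B 6 4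 (Pf.B 6 3 (Pf.B 6 2 (Pf.B 6 1 (Pf.C 5 17030) (Pf.B 6 0 (Pf.C 1 0x1840004302) (Pf.C 5 17152))) (Pf.C 5 82690)) (Pf.C 5 82691)) (Pf.C 6 66182)) (Pf.cons (Pf.C 3 66309) Pf.nil)))) (Pf.C 5 17026)) (Pf.C 5 17027)) (Pf.cons (Pf.B 5 3 (Pf.B 5 2 (Pf.B 5 4 (Pf.C 1 0x1840004282) (Pf.T 2 16 (Pf.cons (Pf.W 24 2 [] [0,4] (Pf.cons (Pf.C 3 66304) (Pf.cons (Pf.C 3 66304) Pf.nil))) (Pf.cons (Pf.T 2 19 (Pf.cons (Pf.W 30 2 [] [0,1,3,4,5] (Pf.cons (Pf.B 6 5 (Pf.B 6 3 (Pf.B 6 1 (Pf.B 6 4 (Pf.C 1 0x1840008301) (Pf.W 9 6 [2,4] [0,1,3,5] (Pf.cons (Pf.B 7 5 (Pf.B 7 4 (Pf.B 7 3 (Pf.B 7 2 (Pf.C 5 33543) (Pf.B 7 1 (Pf.B 7 0 (Pf.C 1 0x1840008381) (Pf.C 5 33664)) (Pf.C 5 82055))) (Pf.C 5 99203)) (Pf.C 6 66311)) (Pf.C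 5 99205)) (Pf.cons (Pf.C 3 66438) Pf.nil)))) (Pf.C 5 82054)) (Pf.C 5 33539)) (Pf.C 5 33541)) (Pf.cons (Pf.B 6 5 (Pf.B 6 3 (Pf.B 6 1 (Pf.W 28 6 [] [0,1,2,3,5] (Pf.cons (Pf.B 7 5 (Pf.B 7 3 (Pf.B 7 2 (Pf.B 7 1 (Pf.C 1 0x1060e14083) (Pf.C 5 82055)) (Pf.C 5 898)) (Pf.C 5 899)) (Pf.C 5 901)) Pf.nil)) (Pf.W 28 6 [] [1,2] (Pf.cons (Pf.C 12 0x404386) Pf.nil))) (Pf.C 3 66307)) (Pf.C 3 66309)) Pf.nil))) (Pf.cons (Pf.T 2 21 (Pf.cons (Pf.W 34 2 [] [0,1,3,4,5] (Pf.cons (Pf.B 6 5 (Pf.B 6 4 (Pf.B 6 3 (Pf.B 6 1 (Pf.C 1 0x1840008301) (Pf.C 5 82054)) (Pf.C 5 33539)) (Pf.C 25 518)) (Pf.C 5 33541)) Pf.nil)) Pf.nil)) Pf.nil))) Pf.nil)))) (Pf.C 5 17026)) (Pf.C 5 17027)) (Pf.cons (Pf.B 5 3 (Pf.B 5 2 (Pf.W 28 5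 [] [0,1,2,3,4] (Pf.cons (Pf.B 6 3 (Pf.B 6 2 (Pf.B 6 1 (Pf.W 9 3 [4] [1,2,5,6] (Pf.cons (Pf.B 7 6 (Pf.B 7 5 (Pf.B 7 2 (Pf.B 7 1 (Pf.C 1 0x305020c382) (Pf.C 5 50049)) (Pf.C 5 50050)) (Pf.C 12 0xc04385)) (Pf.C 5 50054)) (Pf.cons (Pf.C 3 66435) Pf.nil))) (Pf.C 5 769)) (Pf.C 5 770)) (Pf.C 5 771)) Pf.nil)) (Pf.W 28 5 [] [1,2] (Pf.cons (Pf.C 12 0x404305) Pf.nil))) (Pf.C 3 66179)) Pf.nil)))) (Pf.cons (Pf.T 1 22 (Pf.cons (Pf.W 36 1 [] [0,2,3,4] (Pf.cons (Pf.B 5 4 (Pf.B 5 3 (Pf.B 5 2 (Pf.C 1 0x1840004282) (Pf.C 5 17026)) (Pf.C 5 17027)) (Pf.C 25 517)) (Pf.cons (Pf.B 5 4 (Pf.B 5 3 (Pf.B 5 2 (Pf.C 1 0x1840004282) (Pf.C 5 17026)) (Pf.C 5 17027)) (Pf.C 27 517)) Pf.nil))) Pf.nil)) Pf.nil))) Pf.nil))) (Pf.T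 1 17 (Pf.cons (Pf.T 2 16 (Pf.cons (Pf.W 24 2 [] [0,4] (Pf.cons (Pf.C 3 66176) (Pf.cons (Pf.C 3 66176) Pf.nil))) (Pf.cons (Pf.T 2 19 (Pf.cons (Pf.W 30 2 [] [0,1,3,4] (Pf.cons (Pf.W 9 0 [4] [1,2,3,5] (Pf.cons (Pf.B 6 5 (Pf.B 6 4 (Pf.B 6 3 (Pf.B 6 2 (Pf.B 6 1 (Pf.W 9 0 [4,6] [1,2,3,5] (Pf.cons (Pf.B 7 6 (Pf.C 5 98311) (Pf.B 7 5 (Pf.B 7 4 (Pf.B 7 3 (Pf.B 7 2 (Pf.B 7 1 (Pf.C 1 0x1840218382) (Pf.C 5 897)) (Pf.C 5 82183)) (Pf.C 5 899)) (Pf.C 6 65543)) (Pf.C 5 901))) (Pf.cons (Pf.C 3 66432) Pf.nil))) (Pf.C 5 769)) (Pf.C 5 82182)) (Pf.C 5 771)) (Pf.C 6 65542)) (Pf.C 5 773)) (Pf.cons (Pf.C 3 66304) Pf.nil))) (Pf.cons (Pf.B 5 3 (Pf.B 5 1 (Pf.W 28 5 [] [0,1,2,3,4] (Pf.cons (Pf.B 6 4 (Pf.B 6 3 (Pf.B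 6 2 (Pf.B 6 1 (Pf.W 9 0 [4,6] [1,2,3] (Pf.cons (Pf.B 7 6 (Pf.C 5 98311) (Pf.B 7 4 (Pf.B 7 3 (Pf.B 7 2 (Pf.B 7 1 (Pf.C 1 0x1840218382) (Pf.C 5 897)) (Pf.C 5 898)) (Pf.C 5 899)) (Pf.C 6 65543))) (Pf.cons (Pf.C 3 66432) Pf.nil))) (Pf.C 5 769)) (Pf.C 5 770)) (Pf.C 5 771)) (Pf.C 3 82438)) Pf.nil)) (Pf.C 3 66177)) (Pf.C 3 66179)) Pf.nil))) (Pf.cons (Pf.T 2 21 (Pf.cons (Pf.W 34 2 [] [0,1,3,4] (Pf.cons (Pf.B 5 4 (Pf.B 5 3 (Pf.B 5 1 (Pf.W 9 0 [4] [1,2,3,5] (Pf.cons (Pf.B 6 5 (Pf.B 6 4 (Pf.B 6 3 (Pf.B 6 2 (Pf.B 6 1 (Pf.C 1 0x1840214106) (Pf.C 5 769)) (Pf.C 5 82182)) (Pf.C 5 771)) (Pf.C 6 65542)) (Pf.C 5 773)) (Pf.cons (Pf.C 3 66304) Pf.nil))) (Pf.C 5 33409)) (Pf.C 5 33411)) (Pf.C 25 517)) Pf.nil))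 Pf.nil)) Pf.nil))) Pf.nil))) (Pf.cons (Pf.C 27 513) Pf.nil)))) (Pf.B 4 1 (Pf.T 2 16 (Pf.cons (Pf.T 1 17 (Pf.cons (Pf.W 26 1 [] [0,4] (Pf.cons (Pf.C 3 66176) (Pf.cons (Pf.C 3 66176) Pf.nil))) (Pf.cons (Pf.T 1 20 (Pf.cons (Pf.W 32 1 [] [0,2,3,4] (Pf.cons (Pf.W 9 0 [4] [1,2,3,5] (Pf.cons (Pf.B 6 5 (Pf.B 6 4 (Pf.B 6 3 (Pf.B 6 2 (Pf.B 6 1 (Pf.W 9 0 [4,6] [1,2,3,5] (Pf.cons (Pf.B 7 6 (Pf.C 5 98311) (Pf.B 7 5 (Pf.B 7 4 (Pf.B 7 3 (Pf.B 7 2 (Pf.B 7 1 (Pf.C 1 0x1840418381) (Pf.C 5 82055)) (Pf.C 5 898)) (Pf.C 5 899)) (Pf.C 6 65543)) (Pf.C 5 901))) (Pf.cons (Pf.C 3 66432) Pf.nil))) (Pf.C 5 82054)) (Pf.C 5 770)) (Pf.C 5 771)) (Pf.C 6 65542)) (Pf.C 5 773)) (Pf.cons (Pf.C 3 66304) Pf.nil))) (Pf.cons (Pf.W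 9 0 [4] [1,2,3,5] (Pf.cons (Pf.B 6 5 (Pf.B 6 4 (Pf.B 6 3 (Pf.B 6 2 (Pf.B 6 1 (Pf.W 9 0 [4,6] [1,2,3,5] (Pf.cons (Pf.B 7 6 (Pf.C 5 98311) (Pf.B 7 5 (Pf.B 7 4 (Pf.B 7 3 (Pf.B 7 2 (Pf.B 7 1 (Pf.C 1 0x1840418381) (Pf.C 5 82055)) (Pf.C 5 898)) (Pf.C 5 899)) (Pf.C 6 65543)) (Pf.C 5 901))) (Pf.cons (Pf.C 3 66432) Pf.nil))) (Pf.C 5 82054)) (Pf.C 5 770)) (Pf.C 5 771)) (Pf.C 6 65542)) (Pf.C 5 773)) (Pf.cons (Pf.C 3 66304) Pf.nil))) (Pf.cons (Pf.B 5 3 (Pf.B 5 2 (Pf.W 28 5 [] [0,1,2,3,4] (Pf.cons (Pf.B 6 4 (Pf.B 6 3 (Pf.B 6 2 (Pf.B 6 1 (Pf.W 9 0 [4,6] [1,2,3] (Pf.cons (Pf.B 7 6 (Pf.C 5 98311) (Pf.B 7 4 (Pf.B 7 3 (Pf.B 7 2 (Pf.B 7 1 (Pf.C 1 0x1840418381) (Pf.C 5 897)) (Pf.C 5 898)) (Pf.C 5 899)) (Pf.C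 6 65543))) (Pf.cons (Pf.C 3 66432) Pf.nil))) (Pf.C 5 769)) (Pf.C 5 770)) (Pf.C 5 771)) (Pf.C 3 82438)) Pf.nil)) (Pf.C 3 66178)) (Pf.C 3 66179)) Pf.nil)))) (Pf.cons (Pf.T 1 22 (Pf.cons (Pf.W 36 1 [] [0,2,3,4] (Pf.cons (Pf.B 5 4 (Pf.B 5 3 (Pf.B 5 2 (Pf.W 9 0 [4] [1,2,3,5] (Pf.cons (Pf.B 6 5 (Pf.B 6 4 (Pf.B 6 3 (Pf.B 6 2 (Pf.B 6 1 (Pf.C 1 0x1840414086) (Pf.C 5 82054)) (Pf.C 5 770)) (Pf.C 5 771)) (Pf.C 6 65542)) (Pf.C 5 773)) (Pf.cons (Pf.C 3 66304) Pf.nil))) (Pf.C 5 17026)) (Pf.C 5 17027)) (Pf.C 25 517)) (Pf.cons (Pf.B 5 4 (Pf.B 5 3 (Pf.B 5 2 (Pf.W 9 0 [4] [1,2,3,5] (Pf.cons (Pf.B 6 5 (Pf.B 6 4 (Pf.B 6 3 (Pf.B 6 2 (Pf.B 6 1 (Pf.C 1 0x1840414086) (Pf.C 5 82054)) (Pf.C 5 770)) (Pf.C 5 771)) (Pf.C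 6 65542)) (Pf.C 5 773)) (Pf.cons (Pf.C 3 66304) Pf.nil))) (Pf.C 5 17026)) (Pf.C 5 17027)) (Pf.C 27 517)) Pf.nil))) Pf.nil)) Pf.nil))) Pf.nil))) (Pf.cons (Pf.C 25 514) Pf.nil))) (Pf.T 1 17 (Pf.cons (Pf.T 2 16 (Pf.cons (Pf.W 9 0 [4] [1,2,3] (Pf.cons (Pf.B 5 4 (Pf.B 5 3 (Pf.B 5 2 (Pf.B 5 1 (Pf.T 5 1 (Pf.cons (Pf.T 5 11 (Pf.cons (Pf.T 5 12 (Pf.cons (Pf.W 9 0 [4,5] [1,2,3] (Pf.cons (Pf.B 6 5 (Pf.C 5 81926) (Pf.B 6 4 (Pf.B 6 3 (Pf.B 6 2 (Pf.B 6 1 (Pf.W 9 2 [4] [1,3,5,6] (Pf.cons (Pf.B 7 6 (Pf.B 7 5 (Pf.B 7 4 (Pf.B 7 3 (Pf.B 7 1 (Pf.C 1 0x1840218287) (Pf.C 5 33665)) (Pf.C 5 33667)) (Pf.C 6 65799)) (Pf.C 5 98951)) (Pf.C 5 33670)) (Pf.cons (Pf.C 3 66434) Pf.nil))) (Pf.C 5 769)) (Pf.C 5 770)) (Pf.C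 5 771)) (Pf.C 6 65542))) (Pf.cons (Pf.C 3 66304) Pf.nil))) Pf.nil)) Pf.nil)) (Pf.cons (Pf.T 5 13 (Pf.cons (Pf.W 9 0 [4,5] [1,2,3] (Pf.cons (Pf.B 6 5 (Pf.C 5 81926) (Pf.B 6 4 (Pf.B 6 3 (Pf.B 6 2 (Pf.B 6 1 (Pf.W 9 2 [4] [1,3,5,6] (Pf.cons (Pf.B 7 6 (Pf.B 7 5 (Pf.B 7 4 (Pf.B 7 3 (Pf.B 7 1 (Pf.C 1 0x1840218287) (Pf.C 5 33665)) (Pf.C 5 33667)) (Pf.C 6 65799)) (Pf.C 5 98951)) (Pf.C 5 33670)) (Pf.cons (Pf.C 3 66434) Pf.nil))) (Pf.C 5 769)) (Pf.C 5 770)) (Pf.C 5 771)) (Pf.C 6 65542))) (Pf.cons (Pf.C 3 66304) Pf.nil))) Pf.nil)) Pf.nil))) (Pf.C 5 641)) (Pf.C 5 642)) (Pf.C 5 643)) (Pf.C 6 65541)) (Pf.cons (Pf.C 3 66176) Pf.nil))) (Pf.cons (Pf.C 25 514) Pf.nil))) (Pf.cons (Pf.C 27 513) Pf.nil))))) (Pf.cons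 (Pf.B 4 2 (Pf.B 4 1 (Pf.T 1 17 (Pf.cons (Pf.W 26 1 [] [0,4] (Pf.cons (Pf.C 3 66176) (Pf.cons (Pf.C 3 66176) Pf.nil))) (Pf.cons (Pf.T 1 20 (Pf.cons (Pf.W 32 1 [] [0,2,3,4] (Pf.cons (Pf.B 5 4 (Pf.B 5 3 (Pf.B 5 2 (Pf.C 1 0x1840004282) (Pf.C 5 17026)) (Pf.C 5 17027)) (Pf.C 12 0x600284)) (Pf.cons (Pf.B 5 4 (Pf.B 5 3 (Pf.B 5 2 (Pf.C 1 0x1840004282) (Pf.C 5 17026)) (Pf.C 5 17027)) (Pf.C 12 0x600284)) (Pf.cons (Pf.B 5 3 (Pf.B 5 2 (Pf.W 28 5 [] [0,1,2,3,4] (Pf.cons (Pf.B 6 3 (Pf.B 6 2 (Pf.B 6 1 (Pf.W 9 3 [4] [1,2,5,6] (Pf.cons (Pf.B 7 6 (Pf.B 7 5 (Pf.B 7 2 (Pf.B 7 1 (Pf.C 1 0x305020c382) (Pf.C 5 50049)) (Pf.C 5 50050)) (Pf.C 12 0xc04385)) (Pf.C 5 50054)) (Pf.cons (Pf.C 3 66435) Pf.nil))) (Pf.C 5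 769)) (Pf.C 5 770)) (Pf.C 5 771)) Pf.nil)) (Pf.W 28 5 [] [1,2] (Pf.cons (Pf.C 12 0x404305) Pf.nil))) (Pf.C 3 66179)) Pf.nil)))) (Pf.cons (Pf.T 1 22 (Pf.cons (Pf.W 36 1 [] [0,2,3,4] (Pf.cons (Pf.B 5 4 (Pf.B 5 3 (Pf.B 5 2 (Pf.C 1 0x1840004282) (Pf.C 5 17026)) (Pf.C 5 17027)) (Pf.C 25 517)) (Pf.cons (Pf.B 5 4 (Pf.B 5 3 (Pf.B 5 2 (Pf.C 1 0x1840004282) (Pf.C 5 17026)) (Pf.C 5 17027)) (Pf.C 27 517)) Pf.nil))) Pf.nil)) Pf.nil))) Pf.nil))) (Pf.C 12 0x600084)) (Pf.C 12 0x600104)) Pf.nil))) (Pf.cons (Pf.T 3 19 (Pf.cons (Pf.W 30 3 [] [0,1,2] (Pf.cons (Pf.B 4 2 (Pf.B 4 1 (Pf.W 24 4 [] [0,1,2,3] (Pf.cons (Pf.B 5 3 (Pf.B 5 2 (Pf.B 5 1 (Pf.T 1 17 (Pf.cons (Pf.W 26 1 [] [0,5] (Pf.cons (Pf.C 3 82688) (Pf.cons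 (Pf.C 3 82688) Pf.nil))) (Pf.cons (Pf.T 1 20 (Pf.cons (Pf.W 32 1 [] [0,2,3,4,5] (Pf.cons (Pf.B 6 4 (Pf.B 6 3 (Pf.B 6 2 (Pf.B 6 5 (Pf.C 1 0x1840a04302) (Pf.W 9 4 [3,5] [1,2,6] (Pf.cons (Pf.B 7 6 (Pf.B 7 5 (Pf.B 7 3 (Pf.C 5 49671) (Pf.B 7 2 (Pf.B 7 1 (Pf.C 1 0x286020c382) (Pf.C 5 98439)) (Pf.C 5 50050))) (Pf.C 6 82439)) (Pf.C 5 66438)) (Pf.cons (Pf.C 3 82820) Pf.nil)))) (Pf.C 5 17154)) (Pf.C 5 65926)) (Pf.C 5 17156)) (Pf.cons (Pf.B 6 4 (Pf.B 6 3 (Pf.B 6 2 (Pf.B 6 5 (Pf.C 1 0x1840a04302) (Pf.W 9 4 [3,5] [1,2,6] (Pf.cons (Pf.B 7 6 (Pf.B 7 5 (Pf.B 7 3 (Pf.C 5 49671) (Pf.B 7 2 (Pf.B 7 1 (Pf.C 1 0x286020c382) (Pf.C 5 98439)) (Pf.C 5 50050))) (Pf.C 6 82439)) (Pf.C 5 66438)) (Pf.cons (Pf.C 3 82820)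 Pf.nil)))) (Pf.C 5 17154)) (Pf.C 5 65926)) (Pf.C 5 17156)) (Pf.cons (Pf.B 6 4 (Pf.B 6 3 (Pf.B 6 2 (Pf.W 28 6 [] [0,2,3,4] (Pf.cons (Pf.B 7 4 (Pf.B 7 3 (Pf.B 7 2 (Pf.C 1 0x3070010182) (Pf.C 5 898)) (Pf.C 5 65927)) (Pf.C 5 900)) Pf.nil)) (Pf.C 1 0x860410180)) (Pf.B 6 2 (Pf.W 28 6 [] [1,3] (Pf.cons (Pf.C 12 0x604386) Pf.nil)) (Pf.C 12 0x604106))) (Pf.C 3 82692)) Pf.nil)))) (Pf.cons (Pf.T 1 22 (Pf.cons (Pf.W 36 1 [] [0,2,4,5] (Pf.cons (Pf.B 6 5 (Pf.B 6 4 (Pf.B 6 2 (Pf.C 1 0x2050004302) (Pf.C 5 17154)) (Pf.C 5 17156)) (Pf.C 25 646)) (Pf.cons (Pf.B 6 5 (Pf.B 6 4 (Pf.B 6 2 (Pf.C 1 0x2050004302) (Pf.C 5 17154)) (Pf.C 5 17156)) (Pf.C 27 646)) Pf.nil))) Pf.nil)) Pf.nil))) Pf.nil))) (Pf.T 1 17 (Pf.cons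 (Pf.W 9 4 [3,5] [0,1,2] (Pf.cons (Pf.B 6 5 (Pf.B 6 3 (Pf.C 5 49670) (Pf.B 6 2 (Pf.B 6 1 (Pf.B 6 0 (Pf.C 1 0x85000c302) (Pf.C 5 49920)) (Pf.C 5 49921)) (Pf.C 5 49922))) (Pf.C 6 82438)) (Pf.cons (Pf.C 3 82692) Pf.nil))) (Pf.cons (Pf.C 27 641) Pf.nil)))) (Pf.B 5 1 (Pf.T 2 16 (Pf.cons (Pf.W 9 4 [3,5] [0,1,2] (Pf.cons (Pf.B 6 5 (Pf.B 6 3 (Pf.C 5 49670) (Pf.B 6 2 (Pf.B 6 1 (Pf.B 6 0 (Pf.C 1 0x105000c301) (Pf.C 5 49920)) (Pf.C 5 49921)) (Pf.C 5 49922))) (Pf.C 6 82438)) (Pf.cons (Pf.C 3 82692) Pf.nil))) (Pf.cons (Pf.C 25 642) Pf.nil))) (Pf.T 1 17 (Pf.cons (Pf.T 2 16 (Pf.cons (Pf.W 9 0 [5] [1,2,3,4] (Pf.cons (Pf.B 6 5 (Pf.B 6 4 (Pf.B 6 3 (Pf.B 6 2 (Pf.B 6 1 (Pf.W 9 0 [5,6] [1,2,3,4] (Pf.cons (Pf.B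 7 6 (Pf.C 5 98311) (Pf.B 7 5 (Pf.B 7 4 (Pf.B 7 3 (Pf.B 7 2 (Pf.B 7 1 (Pf.C 1 0x1050218383) (Pf.C 5 897)) (Pf.C 5 898)) (Pf.C 5 65927)) (Pf.C 5 900)) (Pf.C 6 81927))) (Pf.cons (Pf.C 3 82816) Pf.nil))) (Pf.C 5 769)) (Pf.C 5 770)) (Pf.C 5 65926)) (Pf.C 5 772)) (Pf.C 6 81926)) (Pf.cons (Pf.C 3 82688) Pf.nil))) (Pf.cons (Pf.C 25 642) Pf.nil))) (Pf.cons (Pf.C 27 641) Pf.nil))))) (Pf.C 25 643)) (Pf.cons (Pf.B 5 2 (Pf.B 5 1 (Pf.T 1 17 (Pf.cons (Pf.W 26 1 [] [0,5] (Pf.cons (Pf.C 3 82688) (Pf.cons (Pf.C 3 82688) Pf.nil))) (Pf.cons (Pf.T 1 20 (Pf.cons (Pf.W 32 1 [] [0,2,3,4,5] (Pf.cons (Pf.B 6 5 (Pf.B 6 4 (Pf.B 6 2 (Pf.C 1 0x2050004302) (Pf.C 5 17154)) (Pf.C 5 17156)) (Pf.C 12 0x800305)) (Pf.cons (Pf.B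 6 5 (Pf.B 6 4 (Pf.B 6 2 (Pf.C 1 0x2050004302) (Pf.C 5 17154)) (Pf.C 5 17156)) (Pf.C 12 0x800305)) (Pf.cons (Pf.B 6 4 (Pf.B 6 3 (Pf.B 6 2 (Pf.W 28 6 [] [0,2,3,4] (Pf.cons (Pf.B 7 4 (Pf.B 7 3 (Pf.B 7 2 (Pf.C 1 0x3070010182) (Pf.C 5 898)) (Pf.C 5 65927)) (Pf.C 5 900)) Pf.nil)) (Pf.C 1 0x860410180)) (Pf.B 6 2 (Pf.W 28 6 [] [1,3] (Pf.cons (Pf.C 12 0x604386) Pf.nil)) (Pf.C 12 0x604106))) (Pf.C 3 82692)) Pf.nil)))) (Pf.cons (Pf.T 1 22 (Pf.cons (Pf.W 36 1 [] [0,2,4,5] (Pf.cons (Pf.B 6 5 (Pf.B 6 4 (Pf.B 6 2 (Pf.C 1 0x2050004302) (Pf.C 5 17154)) (Pf.C 5 17156)) (Pf.C 25 646)) (Pf.cons (Pf.B 6 5 (Pf.B 6 4 (Pf.B 6 2 (Pf.C 1 0x2050004302) (Pf.C 5 17154)) (Pf.C 5 17156)) (Pf.C 27 646)) Pf.nil))) Pf.nil))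 Pf.nil))) Pf.nil))) (Pf.C 12 0x800085)) (Pf.C 12 0x800105)) Pf.nil))) (Pf.C 5 49665)) (Pf.C 5 49666)) (Pf.cons (Pf.B 4 2 (Pf.B 4 1 (Pf.W 28 4 [] [0,1,2,3] (Pf.cons (Pf.B 5 3 (Pf.B 5 2 (Pf.B 5 1 (Pf.T 1 17 (Pf.cons (Pf.W 26 1 [] [0,2,3,4,5] (Pf.cons (Pf.B 6 5 (Pf.B 6 3 (Pf.B 6 2 (Pf.T 2 16 (Pf.cons (Pf.W 24 2 [] [0,6] (Pf.cons (Pf.C 3 99200) (Pf.cons (Pf.C 3 99200) Pf.nil))) (Pf.cons (Pf.T 2 19 (Pf.cons (Pf.W 30 2 [] [0,1,3,4,5] (Pf.cons (Pf.B 7 5 (Pf.B 7 4 (Pf.B 7 1 (Pf.C 1 0x2050008381) (Pf.C 5 33665)) (Pf.C 12 0xa0c384)) (Pf.C 5 647)) (Pf.cons (Pf.W 9 2 [7] [1,3,4,5] (Pf.cons (Pf.B 8 5 (Pf.B 8 4 (Pf.B 8 3 (Pf.B 8 1 (Pf.C 1 0x2840608401) (Pf.C 5 33793)) (Pf.C 5 33795)) (Pf.C 12 0xa0c404))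 (Pf.C 5 33797)) (Pf.cons (Pf.C 3 0x1c402) Pf.nil))) Pf.nil))) (Pf.cons (Pf.T 2 21 (Pf.cons (Pf.W 34 2 [] [0,3,5,6] (Pf.cons (Pf.B 7 6 (Pf.B 7 5 (Pf.B 7 3 (Pf.C 1 0x3000a08383) (Pf.C 5 33667)) (Pf.C 5 647)) (Pf.C 25 775)) Pf.nil)) Pf.nil)) Pf.nil))) Pf.nil))) (Pf.T 2 16 (Pf.cons (Pf.W 9 0 [5,6] [1,2,3] (Pf.cons (Pf.B 7 6 (Pf.B 7 5 (Pf.C 5 81927) (Pf.B 7 3 (Pf.B 7 2 (Pf.B 7 1 (Pf.C 1 0x1060214383) (Pf.C 5 897)) (Pf.C 5 898)) (Pf.C 5 899))) (Pf.C 6 98311)) (Pf.cons (Pf.C 3 99200) Pf.nil))) (Pf.cons (Pf.C 25 770) Pf.nil)))) (Pf.C 25 771)) (Pf.C 3 66309)) (Pf.cons (Pf.B 6 3 (Pf.B 6 2 (Pf.W 9 3 [4] [0,1,2,5,6] (Pf.cons (Pf.B 7 6 (Pf.B 7 5 (Pf.B 7 2 (Pf.B 7 1 (Pf.B 7 0 (Pf.C 1 0x86000c382) (Pf.C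 5 81927)) (Pf.C 5 50049)) (Pf.C 5 50050)) (Pf.C 5 50053)) (Pf.C 12 0x200386)) (Pf.cons (Pf.C 3 66435) Pf.nil))) (Pf.C 12 0x200106)) (Pf.C 25 771)) Pf.nil))) (Pf.cons (Pf.T 1 20 (Pf.cons (Pf.W 32 1 [] [0,2,3,4,5] (Pf.cons (Pf.B 6 5 (Pf.B 6 4 (Pf.B 6 2 (Pf.C 1 0x2050004302) (Pf.C 5 17154)) (Pf.C 12 0xa0c304)) (Pf.C 5 646)) (Pf.cons (Pf.B 6 5 (Pf.B 6 4 (Pf.B 6 2 (Pf.C 1 0x2050004302) (Pf.C 5 17154)) (Pf.C 12 0xa0c304)) (Pf.C 5 646)) (Pf.cons (Pf.B 6 5 (Pf.B 6 3 (Pf.B 6 2 (Pf.W 28 6 [] [0,1,2,3,4,5] (Pf.cons (Pf.B 7 5 (Pf.C 5 81927) (Pf.B 7 3 (Pf.B 7 2 (Pf.W 9 3 [4] [1,2,5,6,7] (Pf.cons (Pf.B 8 7 (Pf.B 8 6 (Pf.B 8 5 (Pf.B 8 2 (Pf.C 1 0x3070a0c402) (Pf.C 5 50178)) (Pf.C 5 0x1c288)) (Pf.C 12 0xe04406))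 (Pf.C 5 50183)) (Pf.cons (Pf.C 3 66563) Pf.nil))) (Pf.C 5 898)) (Pf.C 5 899))) Pf.nil)) (Pf.C 1 0x860414003)) (Pf.C 3 66307)) (Pf.C 3 66309)) Pf.nil)))) (Pf.cons (Pf.T 1 22 (Pf.cons (Pf.W 36 1 [] [0,2,3,4,5] (Pf.cons (Pf.B 6 5 (Pf.B 6 4 (Pf.B 6 2 (Pf.C 1 0x2050004302) (Pf.C 5 17154)) (Pf.C 12 0xa0c304)) (Pf.C 5 646)) (Pf.cons (Pf.B 6 5 (Pf.B 6 4 (Pf.B 6 2 (Pf.C 1 0x2050004302) (Pf.C 5 17154)) (Pf.C 12 0xa0c304)) (Pf.C 5 646)) Pf.nil))) Pf.nil)) Pf.nil))) Pf.nil))) (Pf.C 5 641)) (Pf.C 5 642)) (Pf.C 5 643)) Pf.nil)) (Pf.W 28 4 [] [1,3] (Pf.cons (Pf.C 12 0x604284) Pf.nil))) (Pf.B 4 1 (Pf.W 28 4 [] [2,3] (Pf.cons (Pf.C 12 0x608284) Pf.nil)) (Pf.C 12 0x608084))) Pf.nil))) (Pf.cons (Pf.T 3 21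 (Pf.cons (Pf.W 34 3 [] [0,1,2] (Pf.cons (Pf.B 4 2 (Pf.B 4 1 (Pf.W 30 4 [] [0,1,2,3] (Pf.cons (Pf.B 5 3 (Pf.C 5 49669) (Pf.C 31 643)) (Pf.cons (Pf.B 5 3 (Pf.B 5 2 (Pf.B 5 1 (Pf.W 28 5 [] [0,1,2,3,4] (Pf.cons (Pf.B 6 4 (Pf.B 6 3 (Pf.B 6 2 (Pf.B 6 1 (Pf.T 1 17 (Pf.cons (Pf.W 26 1 [] [0,2,3,4,5,6] (Pf.cons (Pf.B 7 6 (Pf.B 7 4 (Pf.B 7 3 (Pf.B 7 2 (Pf.C 1 0x3000e10182) (Pf.C 1 0x870410186)) (Pf.C 25 899)) (Pf.C 25 900)) (Pf.C 3 82822)) (Pf.cons (Pf.B 7 6 (Pf.B 7 4 (Pf.B 7 3 (Pf.B 7 2 (Pf.C 1 0x3000e10182) (Pf.C 12 0x200107)) (Pf.C 25 899)) (Pf.C 25 900)) (Pf.C 3 82822)) Pf.nil))) (Pf.cons (Pf.T 1 20 (Pf.cons (Pf.W 32 1 [] [0,2,3,4,5,6] (Pf.cons (Pf.B 7 6 (Pf.B 7 5 (Pf.B 7 3 (Pf.C 1 0x2860004383)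 (Pf.C 31 899)) (Pf.C 12 0xc10385)) (Pf.C 5 775)) (Pf.cons (Pf.B 7 6 (Pf.B 7 5 (Pf.B 7 4 (Pf.B 7 3 (Pf.C 1 0x2860004383) (Pf.C 5 65927)) (Pf.C 5 17284)) (Pf.C 12 0xc10385)) (Pf.C 5 775)) (Pf.cons (Pf.B 7 4 (Pf.B 7 3 (Pf.B 7 2 (Pf.W 28 7 [] [0,2,3,4,5] (Pf.cons (Pf.B 8 5 (Pf.B 8 4 (Pf.B 8 3 (Pf.B 8 2 (Pf.C 1 0x2840600402) (Pf.C 5 1026)) (Pf.C 5 65928)) (Pf.C 5 1028)) (Pf.C 3 0x1c288)) Pf.nil)) (Pf.C 1 0x870410180)) (Pf.C 31 899)) (Pf.C 3 82820)) Pf.nil)))) (Pf.cons (Pf.T 1 22 (Pf.cons (Pf.W 36 1 [] [0,3,4,5,6] (Pf.cons (Pf.B 7 6 (Pf.B 7 5 (Pf.B 7 4 (Pf.B 7 3 (Pf.C 1 0x2860004383) (Pf.C 5 65927)) (Pf.C 5 17284)) (Pf.C 12 0xc10385)) (Pf.C 5 775)) (Pf.cons (Pf.B 7 6 (Pf.B 7 5 (Pf.B 7 4 (Pf.B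 7 3 (Pf.C 1 0x2860004383) (Pf.C 5 65927)) (Pf.C 5 17284)) (Pf.C 12 0xc10385)) (Pf.C 5 775)) Pf.nil))) Pf.nil)) Pf.nil))) Pf.nil))) (Pf.C 5 769)) (Pf.C 5 770)) (Pf.C 5 65926)) (Pf.C 5 772)) Pf.nil)) (Pf.W 28 5 [] [1,4] (Pf.cons (Pf.C 12 0x804305) Pf.nil))) (Pf.B 5 1 (Pf.W 28 5 [] [2,4] (Pf.cons (Pf.C 12 0x808305) Pf.nil)) (Pf.C 12 0x808085))) (Pf.C 31 643)) Pf.nil))) (Pf.C 5 49665)) (Pf.C 5 49666)) Pf.nil)) Pf.nil)) Pf.nil))) Pf.nil))))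
 (Pq.cons (Pq.L [0] 2 (Pf.C 5 385))
 (Pq.cons (Pq.L [0] 7 (Pf.T 1 17 (Pf.cons (Pf.W 26 1 [] [0,2,3] (Pf.cons (Pf.B 4 3 (Pf.B 4 2 (Pf.T 2 16 (Pf.cons (Pf.W 24 2 [] [0,4] (Pf.cons (Pf.C 3 66176) (Pf.cons (Pf.C 3 66176) Pf.nil))) (Pf.cons (Pf.T 2 19 (Pf.cons (Pf.W 30 2 [] [0,1,3,4] (Pf.cons (Pf.B 5 3 (Pf.B 5 1 (Pf.B 5 4 (Pf.W 24 5 [] [0,4] (Pf.cons (Pf.C 3 66304) (Pf.cons (Pf.C 3 66304) Pf.nil))) (Pf.T 3 17 (Pf.cons (Pf.W 26 3 [] [0,4] (Pf.cons (Pf.C 3 66304) (Pf.cons (Pf.C 3 66304) Pf.nil))) (Pf.cons (Pf.T 3 20 (Pf.cons (Pf.W 9 0 [4] [2,3,5] (Pf.cons (Pf.B 6 5 (Pf.B 6 4 (Pf.B 6 3 (Pf.B 6 2 (Pf.W 9 0 [4,6] [2,3,5] (Pf.cons (Pf.B 7 6 (Pf.C 5 98311) (Pf.B 7 5 (Pf.B 7 4 (Pf.B 7 3 (Pf.B 7 2 (Pf.C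 1 0x2050418383) (Pf.C 5 82183)) (Pf.C 5 899)) (Pf.C 6 65543)) (Pf.C 5 901))) (Pf.cons (Pf.C 3 66432) Pf.nil))) (Pf.C 5 82182)) (Pf.C 5 771)) (Pf.C 6 65542)) (Pf.C 5 773)) (Pf.cons (Pf.C 3 66304) Pf.nil))) (Pf.cons (Pf.C 33 131) Pf.nil))) Pf.nil)))) (Pf.C 5 49285)) (Pf.C 5 33411)) (Pf.cons (Pf.B 5 1 (Pf.B 5 3 (Pf.W 9 2 [5] [0,1,3] (Pf.cons (Pf.B 6 5 (Pf.B 6 3 (Pf.B 6 1 (Pf.B 6 0 (Pf.C 1 0x2820c0c080) (Pf.C 5 33536)) (Pf.C 5 49286)) (Pf.C 5 33539)) (Pf.C 6 82182)) (Pf.cons (Pf.C 3 82690) Pf.nil))) (Pf.W 28 5 [] [2,3] (Pf.cons (Pf.C 12 0x608305) Pf.nil))) (Pf.C 3 66177)) Pf.nil))) (Pf.cons (Pf.T 2 21 (Pf.cons (Pf.W 34 2 [] [0,3,4] (Pf.cons (Pf.B 5 4 (Pf.B 5 3 (Pf.W 9 0 [4] [2,3,5] (Pf.cons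 (Pf.B 6 5 (Pf.B 6 4 (Pf.B 6 3 (Pf.B 6 2 (Pf.C 1 0x2000c14103) (Pf.C 5 82182)) (Pf.C 5 771)) (Pf.C 6 65542)) (Pf.C 5 773)) (Pf.cons (Pf.C 3 66304) Pf.nil))) (Pf.C 5 33411)) (Pf.C 25 517)) Pf.nil)) Pf.nil)) Pf.nil))) Pf.nil))) (Pf.T 2 16 (Pf.cons (Pf.T 3 17 (Pf.cons (Pf.W 26 3 [] [0,4] (Pf.cons (Pf.C 3 66176) (Pf.cons (Pf.C 3 66176) Pf.nil))) (Pf.cons (Pf.T 3 20 (Pf.cons (Pf.W 9 0 [4] [2,3] (Pf.cons (Pf.B 5 4 (Pf.B 5 3 (Pf.B 5 2 (Pf.T 5 1 (Pf.cons (Pf.T 5 11 (Pf.cons (Pf.T 5 12 (Pf.cons (Pf.W 9 0 [4,5] [2,3] (Pf.cons (Pf.B 6 5 (Pf.C 5 81926) (Pf.B 6 4 (Pf.B 6 3 (Pf.B 6 2 (Pf.W 9 2 [4] [3,5,6] (Pf.cons (Pf.B 7 6 (Pf.B 7 5 (Pf.B 7 4 (Pf.B 7 3 (Pf.C 1 0x2020e18283) (Pf.C 5 33667)) (Pf.C 6 65799))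 (Pf.C 5 98951)) (Pf.C 5 33670)) (Pf.cons (Pf.C 3 66434) Pf.nil))) (Pf.C 5 770)) (Pf.C 5 771)) (Pf.C 6 65542))) (Pf.cons (Pf.C 3 66304) Pf.nil))) Pf.nil)) Pf.nil)) (Pf.cons (Pf.T 5 13 (Pf.cons (Pf.W 9 0 [4,5] [2,3] (Pf.cons (Pf.B 6 5 (Pf.C 5 81926) (Pf.B 6 4 (Pf.B 6 3 (Pf.B 6 2 (Pf.W 9 2 [4] [3,5,6] (Pf.cons (Pf.B 7 6 (Pf.B 7 5 (Pf.B 7 4 (Pf.B 7 3 (Pf.C 1 0x2020e18283) (Pf.C 5 33667)) (Pf.C 6 65799)) (Pf.C 5 98951)) (Pf.C 5 33670)) (Pf.cons (Pf.C 3 66434) Pf.nil))) (Pf.C 5 770)) (Pf.C 5 771)) (Pf.C 6 65542))) (Pf.cons (Pf.C 3 66304) Pf.nil))) Pf.nil)) Pf.nil))) (Pf.C 5 642)) (Pf.C 5 643)) (Pf.C 6 65541)) (Pf.cons (Pf.C 3 66176) Pf.nil))) (Pf.cons (Pf.C 33 131) Pf.nil))) Pf.nil))) (Pf.cons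 (Pf.C 25 514) Pf.nil)))) (Pf.C 6 65667)) (Pf.cons (Pf.B 4 3 (Pf.B 4 2 (Pf.T 2 16 (Pf.cons (Pf.W 24 2 [] [0,4] (Pf.cons (Pf.C 3 66176) (Pf.cons (Pf.C 3 66176) Pf.nil))) (Pf.cons (Pf.T 2 19 (Pf.cons (Pf.W 30 2 [] [0,1,3,4] (Pf.cons (Pf.B 5 4 (Pf.B 5 3 (Pf.B 5 1 (Pf.W 24 5 [] [0,4] (Pf.cons (Pf.C 3 66304) (Pf.cons (Pf.C 3 66304) Pf.nil))) (Pf.C 5 49285)) (Pf.C 5 33411)) (Pf.C 12 0x200284)) (Pf.cons (Pf.B 5 1 (Pf.B 5 3 (Pf.W 9 2 [5] [0,1,3] (Pf.cons (Pf.B 6 5 (Pf.B 6 3 (Pf.B 6 1 (Pf.B 6 0 (Pf.C 1 0x2820c0c080) (Pf.C 5 33536)) (Pf.C 5 49286)) (Pf.C 5 33539)) (Pf.C 6 82182)) (Pf.cons (Pf.C 3 82690) Pf.nil))) (Pf.W 28 5 [] [2,3] (Pf.cons (Pf.C 12 0x608305) Pf.nil))) (Pf.C 3 66177)) Pf.nil))) (Pf.cons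 (Pf.T 2 21 (Pf.cons (Pf.W 34 2 [] [0,3,4] (Pf.cons (Pf.B 5 4 (Pf.B 5 3 (Pf.W 9 0 [4] [2,3,5] (Pf.cons (Pf.B 6 5 (Pf.B 6 4 (Pf.B 6 3 (Pf.B 6 2 (Pf.C 1 0x2000c14103) (Pf.C 5 82182)) (Pf.C 5 771)) (Pf.C 6 65542)) (Pf.C 5 773)) (Pf.cons (Pf.C 3 66304) Pf.nil))) (Pf.C 5 33411)) (Pf.C 25 517)) Pf.nil)) Pf.nil)) Pf.nil))) Pf.nil))) (Pf.C 12 0x200104)) (Pf.C 6 65667)) Pf.nil))) (Pf.cons (Pf.T 1 20 (Pf.cons (Pf.W 32 1 [] [0,2,3] (Pf.cons (Pf.B 4 3 (Pf.C 5 49284) (Pf.B 4 2 (Pf.W 24 4 [] [0,1,2,3] (Pf.cons (Pf.B 5 3 (Pf.B 5 1 (Pf.B 5 2 (Pf.W 9 0 [5] [1,2,3,4] (Pf.cons (Pf.B 6 5 (Pf.B 6 4 (Pf.B 6 3 (Pf.B 6 2 (Pf.B 6 1 (Pf.C 1 0x2800c0c082) (Pf.C 5 49286)) (Pf.C 5 770)) (Pf.C 5 65926)) (Pf.C 5 772))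 (Pf.C 6 81926)) (Pf.cons (Pf.C 3 82688) Pf.nil))) (Pf.T 2 16 (Pf.cons (Pf.T 3 17 (Pf.cons (Pf.W 26 3 [] [0,5] (Pf.cons (Pf.C 3 82688) (Pf.cons (Pf.C 3 82688) Pf.nil))) (Pf.cons (Pf.T 3 20 (Pf.cons (Pf.W 9 0 [5] [1,2,3,4] (Pf.cons (Pf.B 6 5 (Pf.B 6 4 (Pf.B 6 3 (Pf.B 6 2 (Pf.B 6 1 (Pf.W 9 2 [5] [1,3,4,6] (Pf.cons (Pf.B 7 6 (Pf.B 7 5 (Pf.B 7 4 (Pf.B 7 3 (Pf.B 7 1 (Pf.C 1 0x2820e0c086) (Pf.C 5 49287)) (Pf.C 5 65927)) (Pf.C 5 33668)) (Pf.C 6 82183)) (Pf.C 5 33670)) (Pf.cons (Pf.C 3 82818) Pf.nil))) (Pf.C 5 49286)) (Pf.C 5 770)) (Pf.C 5 65926)) (Pf.C 5 772)) (Pf.C 6 81926)) (Pf.cons (Pf.C 3 82688) Pf.nil))) (Pf.cons (Pf.C 33 515) Pf.nil))) Pf.nil))) (Pf.cons (Pf.C 25 642) Pf.nil)))) (Pf.C 27 641))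 (Pf.C 6 82435)) (Pf.cons (Pf.B 5 3 (Pf.B 5 2 (Pf.B 5 1 (Pf.W 9 0 [5] [1,2,3,4] (Pf.cons (Pf.B 6 5 (Pf.B 6 4 (Pf.B 6 3 (Pf.B 6 2 (Pf.B 6 1 (Pf.C 1 0x2800c0c082) (Pf.C 5 49286)) (Pf.C 5 770)) (Pf.C 5 65926)) (Pf.C 5 772)) (Pf.C 6 81926)) (Pf.cons (Pf.C 3 82688) Pf.nil))) (Pf.C 27 641)) (Pf.C 12 0x800105)) (Pf.C 6 82435)) Pf.nil))) (Pf.C 5 16898))) (Pf.cons (Pf.W 26 3 [] [0,1,2] (Pf.cons (Pf.B 4 1 (Pf.B 4 2 (Pf.T 2 16 (Pf.cons (Pf.W 24 2 [] [0,4] (Pf.cons (Pf.C 3 66176) (Pf.cons (Pf.C 3 66176) Pf.nil))) (Pf.cons (Pf.T 2 19 (Pf.cons (Pf.W 30 2 [] [0,1,3,4] (Pf.cons (Pf.B 5 3 (Pf.B 5 1 (Pf.B 5 4 (Pf.W 24 5 [] [0,4] (Pf.cons (Pf.C 3 66304) (Pf.cons (Pf.C 3 66304) Pf.nil))) (Pf.W 9 0 [4] [1,2,3,5]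 (Pf.cons (Pf.B 6 5 (Pf.B 6 4 (Pf.B 6 3 (Pf.B 6 2 (Pf.B 6 1 (Pf.W 9 0 [4,6] [1,2,3,5] (Pf.cons (Pf.B 7 6 (Pf.C 5 98311) (Pf.B 7 5 (Pf.B 7 4 (Pf.B 7 3 (Pf.B 7 2 (Pf.B 7 1 (Pf.C 1 0x2050418381) (Pf.C 5 49287)) (Pf.C 5 82183)) (Pf.C 5 899)) (Pf.C 6 65543)) (Pf.C 5 901))) (Pf.cons (Pf.C 3 66432) Pf.nil))) (Pf.C 5 49286)) (Pf.C 5 82182)) (Pf.C 5 771)) (Pf.C 6 65542)) (Pf.C 5 773)) (Pf.cons (Pf.C 3 66304) Pf.nil)))) (Pf.C 5 49285)) (Pf.C 5 33411)) (Pf.cons (Pf.B 5 3 (Pf.B 5 1 (Pf.W 9 2 [5] [0,1,3] (Pf.cons (Pf.B 6 5 (Pf.B 6 3 (Pf.B 6 1 (Pf.B 6 0 (Pf.C 1 0x2820c0c080) (Pf.C 5 33536)) (Pf.C 5 49286)) (Pf.C 5 33539)) (Pf.C 6 82182)) (Pf.cons (Pf.C 3 82690) Pf.nil))) (Pf.W 28 5 [] [1,2] (Pf.cons (Pf.C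 12 0x404305) Pf.nil))) (Pf.C 3 66179)) Pf.nil))) (Pf.cons (Pf.T 2 21 (Pf.cons (Pf.W 34 2 [] [0,1,3,4] (Pf.cons (Pf.B 5 4 (Pf.B 5 3 (Pf.B 5 1 (Pf.W 9 0 [4] [1,2,3,5] (Pf.cons (Pf.B 6 5 (Pf.B 6 4 (Pf.B 6 3 (Pf.B 6 2 (Pf.B 6 1 (Pf.C 1 0x2030214106) (Pf.C 5 49286)) (Pf.C 5 82182)) (Pf.C 5 771)) (Pf.C 6 65542)) (Pf.C 5 773)) (Pf.cons (Pf.C 3 66304) Pf.nil))) (Pf.C 5 49285)) (Pf.C 5 33411)) (Pf.C 25 517)) Pf.nil)) Pf.nil)) Pf.nil))) Pf.nil))) (Pf.T 2 16 (Pf.cons (Pf.W 9 0 [4] [1,2,3] (Pf.cons (Pf.B 5 4 (Pf.B 5 3 (Pf.B 5 2 (Pf.B 5 1 (Pf.T 5 1 (Pf.cons (Pf.T 5 11 (Pf.cons (Pf.T 5 12 (Pf.cons (Pf.W 9 0 [4,5] [1,2,3] (Pf.cons (Pf.B 6 5 (Pf.C 5 81926) (Pf.B 6 4 (Pf.B 6 3 (Pf.B 6 2 (Pf.B 6 1 (Pf.W 9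 2 [4] [1,3,5,6] (Pf.cons (Pf.B 7 6 (Pf.B 7 5 (Pf.B 7 4 (Pf.B 7 3 (Pf.B 7 1 (Pf.C 1 0x2030218287) (Pf.C 5 49287)) (Pf.C 5 33667)) (Pf.C 6 65799)) (Pf.C 5 98951)) (Pf.C 5 33670)) (Pf.cons (Pf.C 3 66434) Pf.nil))) (Pf.C 5 49286)) (Pf.C 5 770)) (Pf.C 5 771)) (Pf.C 6 65542))) (Pf.cons (Pf.C 3 66304) Pf.nil))) Pf.nil)) Pf.nil)) (Pf.cons (Pf.T 5 13 (Pf.cons (Pf.W 9 0 [4,5] [1,2,3] (Pf.cons (Pf.B 6 5 (Pf.C 5 81926) (Pf.B 6 4 (Pf.B 6 3 (Pf.B 6 2 (Pf.B 6 1 (Pf.W 9 2 [4] [1,3,5,6] (Pf.cons (Pf.B 7 6 (Pf.B 7 5 (Pf.B 7 4 (Pf.B 7 3 (Pf.B 7 1 (Pf.C 1 0x2030218287) (Pf.C 5 49287)) (Pf.C 5 33667)) (Pf.C 6 65799)) (Pf.C 5 98951)) (Pf.C 5 33670)) (Pf.cons (Pf.C 3 66434) Pf.nil))) (Pf.C 5 49286)) (Pf.C 5 770))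 (Pf.C 5 771)) (Pf.C 6 65542))) (Pf.cons (Pf.C 3 66304) Pf.nil))) Pf.nil)) Pf.nil))) (Pf.C 5 49285)) (Pf.C 5 642)) (Pf.C 5 643)) (Pf.C 6 65541)) (Pf.cons (Pf.C 3 66176) Pf.nil))) (Pf.cons (Pf.C 25 514) Pf.nil)))) (Pf.C 27 513)) (Pf.cons (Pf.B 4 2 (Pf.B 4 1 (Pf.T 2 16 (Pf.cons (Pf.W 24 2 [] [0,4] (Pf.cons (Pf.C 3 66176) (Pf.cons (Pf.C 3 66176) Pf.nil))) (Pf.cons (Pf.T 2 19 (Pf.cons (Pf.W 30 2 [] [0,1,3,4] (Pf.cons (Pf.B 5 4 (Pf.B 5 3 (Pf.B 5 1 (Pf.W 24 5 [] [0,4] (Pf.cons (Pf.C 3 66304) (Pf.cons (Pf.C 3 66304) Pf.nil))) (Pf.C 5 49285)) (Pf.C 5 33411)) (Pf.C 12 0x600284)) (Pf.cons (Pf.B 5 3 (Pf.B 5 1 (Pf.W 9 2 [5] [0,1,3] (Pf.cons (Pf.B 6 5 (Pf.B 6 3 (Pf.B 6 1 (Pf.B 6 0 (Pf.C 1 0x2820c0c080)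 (Pf.C 5 33536)) (Pf.C 5 49286)) (Pf.C 5 33539)) (Pf.C 6 82182)) (Pf.cons (Pf.C 3 82690) Pf.nil))) (Pf.W 28 5 [] [1,2] (Pf.cons (Pf.C 12 0x404305) Pf.nil))) (Pf.C 3 66179)) Pf.nil))) (Pf.cons (Pf.T 2 21 (Pf.cons (Pf.W 34 2 [] [0,1,3,4] (Pf.cons (Pf.B 5 4 (Pf.B 5 3 (Pf.B 5 1 (Pf.W 9 0 [4] [1,2,3,5] (Pf.cons (Pf.B 6 5 (Pf.B 6 4 (Pf.B 6 3 (Pf.B 6 2 (Pf.B 6 1 (Pf.C 1 0x2030214106) (Pf.C 5 49286)) (Pf.C 5 82182)) (Pf.C 5 771)) (Pf.C 6 65542)) (Pf.C 5 773)) (Pf.cons (Pf.C 3 66304) Pf.nil))) (Pf.C 5 49285)) (Pf.C 5 33411)) (Pf.C 25 517)) Pf.nil)) Pf.nil)) Pf.nil))) Pf.nil))) (Pf.C 27 513)) (Pf.C 12 0x600104)) Pf.nil))) (Pf.cons (Pf.B 4 3 (Pf.C 5 49284) (Pf.B 4 2 (Pf.W 26 4 [] [1,3] (Pf.cons (Pf.C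 10 0x604284) (Pf.cons (Pf.C 10 0x604284) Pf.nil))) (Pf.C 5 16898))) (Pf.cons (Pf.B 4 3 (Pf.B 4 2 (Pf.W 28 4 [] [0,1,2,3] (Pf.cons (Pf.B 5 3 (Pf.B 5 2 (Pf.B 5 1 (Pf.W 9 5 [0,4] [1,2,3] (Pf.cons (Pf.B 6 4 (Pf.B 6 3 (Pf.B 6 2 (Pf.B 6 1 (Pf.B 6 0 (Pf.C 5 646) (Pf.C 1 0x2010600302)) (Pf.C 5 49286)) (Pf.C 5 82690)) (Pf.C 5 82691)) (Pf.C 6 66182)) (Pf.cons (Pf.C 3 66309) Pf.nil))) (Pf.C 5 49285)) (Pf.C 5 642)) (Pf.C 5 643)) Pf.nil)) (Pf.W 28 4 [] [1,2] (Pf.cons (Pf.C 12 0x404284) Pf.nil))) (Pf.C 6 65667)) Pf.nil))))) (Pf.cons (Pf.T 1 22 (Pf.cons (Pf.T 3 17 (Pf.cons (Pf.C 33 385) (Pf.cons (Pf.W 36 1 [] [0,2,3] (Pf.cons (Pf.B 4 3 (Pf.C 5 49284) (Pf.B 4 2 (Pf.W 30 4 [] [0,1,2,3] (Pf.cons (Pf.B 5 3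 (Pf.C 5 49669) (Pf.C 10 0x804283)) (Pf.cons (Pf.B 5 3 (Pf.B 5 1 (Pf.B 5 2 (Pf.W 28 5 [] [0,1,2,3,4] (Pf.cons (Pf.B 6 4 (Pf.B 6 3 (Pf.B 6 2 (Pf.B 6 1 (Pf.C 1 0x286000c082) (Pf.C 5 49286)) (Pf.C 5 770)) (Pf.C 5 65926)) (Pf.C 5 772)) Pf.nil)) (Pf.W 28 5 [] [2,4] (Pf.cons (Pf.C 12 0x808305) Pf.nil))) (Pf.C 33 641)) (Pf.C 6 82435)) Pf.nil))) (Pf.C 5 16898))) (Pf.cons (Pf.W 32 3 [] [0,1,2] (Pf.cons (Pf.B 4 1 (Pf.C 5 16772) (Pf.C 33 513)) (Pf.cons (Pf.B 4 1 (Pf.C 5 16772) (Pf.C 33 513)) (Pf.cons (Pf.B 4 1 (Pf.B 4 2 (Pf.W 28 4 [] [0,1,2,3] (Pf.cons (Pf.B 5 3 (Pf.B 5 2 (Pf.B 5 1 (Pf.W 9 5 [0,4] [1,2,3] (Pf.cons (Pf.B 6 4 (Pf.B 6 3 (Pf.B 6 2 (Pf.B 6 1 (Pf.B 6 0 (Pf.C 5 646) (Pf.C 1 0x2030200302))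 (Pf.C 5 49286)) (Pf.C 5 82690)) (Pf.C 5 82691)) (Pf.C 6 66182)) (Pf.cons (Pf.C 3 66309) Pf.nil))) (Pf.C 5 49285)) (Pf.C 5 642)) (Pf.C 5 643)) Pf.nil)) (Pf.W 28 4 [] [2,3] (Pf.cons (Pf.C 12 0x608284) Pf.nil))) (Pf.C 33 513)) Pf.nil)))) (Pf.cons (Pf.B 4 3 (Pf.C 5 49284) (Pf.B 4 2 (Pf.W 32 4 [] [1,3] (Pf.cons (Pf.C 10 0x604284) (Pf.cons (Pf.C 10 0x604284) (Pf.cons (Pf.C 10 0x604284) Pf.nil)))) (Pf.C 5 16898))) Pf.nil)))) Pf.nil))) Pf.nil)) Pf.nil))) Pf.nil))))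
 (Pq.cons (Pq.L [0] 7 (Pf.T 1 17 (Pf.cons (Pf.W 26 1 [] [3] (Pf.cons (Pf.C 3 49665) (Pf.cons (Pf.C 3 49665) Pf.nil))) (Pf.cons (Pf.T 1 20 (Pf.cons (Pf.W 32 1 [] [0,2,3] (Pf.cons (Pf.B 4 3 (Pf.B 4 2 (Pf.W 24 4 [] [1,3] (Pf.cons (Pf.W 9 4 [1,5] [3] (Pf.cons (Pf.B 6 1 (Pf.C 5 16902) (Pf.C 10 0x80c301)) (Pf.cons (Pf.C 3 82692) Pf.nil))) (Pf.cons (Pf.W 9 4 [1,5] [3] (Pf.cons (Pf.B 6 1 (Pf.C 5 16902) (Pf.C 10 0x80c301)) (Pf.cons (Pf.C 3 82692) Pf.nil))) Pf.nil))) (Pf.C 5 16898)) (Pf.C 6 49284)) (Pf.cons (Pf.B 4 3 (Pf.B 4 2 (Pf.W 26 4 [] [0,1,2,3] (Pf.cons (Pf.B 5 2 (Pf.T 2 16 (Pf.cons (Pf.W 24 2 [] [0,5] (Pf.cons (Pf.C 3 82688) (Pf.cons (Pf.C 3 82688) Pf.nil))) (Pf.cons (Pf.T 2 19 (Pf.cons (Pf.W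 30 2 [] [0,1,3,4,5] (Pf.cons (Pf.B 6 4 (Pf.B 6 3 (Pf.W 9 0 [5] [1,2,3,4,6] (Pf.cons (Pf.B 7 6 (Pf.B 7 4 (Pf.B 7 3 (Pf.B 7 2 (Pf.C 1 0x3020600384) (Pf.C 5 98567)) (Pf.C 12 0x404383)) (Pf.C 5 900)) (Pf.C 5 902)) (Pf.cons (Pf.C 3 82816) Pf.nil))) (Pf.C 6 49414)) (Pf.C 5 33540)) (Pf.cons (Pf.W 28 3 [] [1,2] (Pf.cons (Pf.C 12 0x404303) Pf.nil)) (Pf.cons (Pf.C 3 49922) Pf.nil)))) (Pf.cons (Pf.T 2 21 (Pf.cons (Pf.T 3 18 (Pf.cons (Pf.C 31 386) (Pf.cons (Pf.T 3 23 (Pf.cons (Pf.W 34 2 [] [0,1,3,4,5] (Pf.cons (Pf.B 6 5 (Pf.B 6 4 (Pf.B 6 3 (Pf.B 6 1 (Pf.W 30 6 [] [0,1,2,3,4,5] (Pf.cons (Pf.B 7 2 (Pf.C 5 33543) (Pf.C 31 898)) (Pf.cons (Pf.B 7 4 (Pf.B 7 2 (Pf.B 7 1 (Pf.C 1 0x1060e10080) (Pf.C 3 50049))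 (Pf.C 31 898)) (Pf.C 3 82820)) Pf.nil))) (Pf.C 5 65670)) (Pf.C 6 49414)) (Pf.C 5 33540)) (Pf.C 25 646)) Pf.nil)) (Pf.cons (Pf.C 39 131) Pf.nil))) Pf.nil))) Pf.nil)) Pf.nil))) Pf.nil))) (Pf.C 3 49794)) (Pf.cons (Pf.B 5 2 (Pf.T 2 16 (Pf.cons (Pf.W 24 2 [] [0,5] (Pf.cons (Pf.C 3 82688) (Pf.cons (Pf.C 3 82688) Pf.nil))) (Pf.cons (Pf.T 2 19 (Pf.cons (Pf.W 30 2 [] [0,1,3,4,5] (Pf.cons (Pf.B 6 5 (Pf.B 6 4 (Pf.B 6 3 (Pf.B 6 1 (Pf.W 24 6 [] [0,5] (Pf.cons (Pf.C 3 82816) (Pf.cons (Pf.C 3 82816) Pf.nil))) (Pf.C 5 65670)) (Pf.C 6 49414)) (Pf.C 5 33540)) (Pf.C 12 0x800305)) (Pf.cons (Pf.W 28 3 [] [1,2] (Pf.cons (Pf.C 12 0x404303) Pf.nil)) (Pf.cons (Pf.C 3 49922) Pf.nil)))) (Pf.cons (Pf.T 2 21 (Pf.cons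 (Pf.T 3 18 (Pf.cons (Pf.C 31 386) (Pf.cons (Pf.T 3 23 (Pf.cons (Pf.W 34 2 [] [0,1,3,4,5] (Pf.cons (Pf.B 6 5 (Pf.B 6 4 (Pf.B 6 3 (Pf.B 6 1 (Pf.W 30 6 [] [0,1,2,3,4,5] (Pf.cons (Pf.B 7 2 (Pf.C 5 33543) (Pf.C 31 898)) (Pf.cons (Pf.B 7 4 (Pf.B 7 2 (Pf.B 7 1 (Pf.C 1 0x1060e10080) (Pf.C 3 50049)) (Pf.C 31 898)) (Pf.C 3 82820)) Pf.nil))) (Pf.C 5 65670)) (Pf.C 6 49414)) (Pf.C 5 33540)) (Pf.C 25 646)) Pf.nil)) (Pf.cons (Pf.C 39 131) Pf.nil))) Pf.nil))) Pf.nil)) Pf.nil))) Pf.nil))) (Pf.C 3 49794)) Pf.nil))) (Pf.C 5 16898)) (Pf.C 6 49284)) (Pf.cons (Pf.W 28 3 [] [1,2] (Pf.cons (Pf.C 12 0x404203) Pf.nil)) (Pf.cons (Pf.C 3 49665) Pf.nil))))) (Pf.cons (Pf.T 1 22 (Pf.cons (Pf.T 3 18 (Pf.cons (Pf.C 33 385)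 (Pf.cons (Pf.W 36 1 [] [0,2,3] (Pf.cons (Pf.B 4 3 (Pf.B 4 2 (Pf.W 30 4 [] [0,1,2,3] (Pf.cons (Pf.B 5 1 (Pf.C 5 16901) (Pf.C 33 641)) (Pf.cons (Pf.B 5 2 (Pf.B 5 1 (Pf.W 28 5 [] [0,1,2,3,4] (Pf.cons (Pf.B 6 4 (Pf.B 6 2 (Pf.B 6 1 (Pf.W 9 0 [6] [1,2,3,4,5] (Pf.cons (Pf.B 7 6 (Pf.C 5 98311) (Pf.B 7 5 (Pf.B 7 4 (Pf.B 7 2 (Pf.B 7 1 (Pf.C 1 0x2840200382) (Pf.C 5 65671)) (Pf.C 5 898)) (Pf.C 5 900)) (Pf.C 6 82695))) (Pf.cons (Pf.B 7 6 (Pf.B 7 4 (Pf.B 7 2 (Pf.B 7 1 (Pf.C 1 0x3000e10082) (Pf.C 3 50049)) (Pf.C 3 50050)) (Pf.C 3 82820)) (Pf.C 3 82822)) Pf.nil))) (Pf.C 5 65670)) (Pf.C 5 770)) (Pf.C 5 772)) Pf.nil)) (Pf.C 33 641)) (Pf.C 3 49794)) Pf.nil))) (Pf.C 5 16898)) (Pf.C 6 49284)) (Pf.cons (Pf.B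 4 3 (Pf.B 4 2 (Pf.W 32 4 [] [0,1,2,3] (Pf.cons (Pf.B 5 1 (Pf.C 5 16901) (Pf.C 33 641)) (Pf.cons (Pf.B 5 1 (Pf.C 5 16901) (Pf.C 33 641)) (Pf.cons (Pf.B 5 2 (Pf.B 5 1 (Pf.W 28 5 [] [0,1,2,3,4] (Pf.cons (Pf.B 6 4 (Pf.B 6 2 (Pf.B 6 1 (Pf.W 9 0 [6] [1,2,3,4,5] (Pf.cons (Pf.B 7 6 (Pf.C 5 98311) (Pf.B 7 5 (Pf.B 7 4 (Pf.B 7 2 (Pf.B 7 1 (Pf.C 1 0x2840200382) (Pf.C 5 65671)) (Pf.C 5 898)) (Pf.C 5 900)) (Pf.C 6 82695))) (Pf.cons (Pf.B 7 6 (Pf.B 7 4 (Pf.B 7 2 (Pf.B 7 1 (Pf.C 1 0x3000e10082) (Pf.C 3 50049)) (Pf.C 3 50050)) (Pf.C 3 82820)) (Pf.C 3 82822)) Pf.nil))) (Pf.C 5 65670)) (Pf.C 5 770)) (Pf.C 5 772)) Pf.nil)) (Pf.C 33 641)) (Pf.C 3 49794)) Pf.nil)))) (Pf.C 5 16898)) (Pf.C 6 49284)) Pf.nil))) Pf.nil)))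 Pf.nil)) Pf.nil))) Pf.nil))))
 Pq.nil))))) Pq.nil)
theorem e1_o28 : AllRef e1_T e1_G40 (List.take 1 (List.flatMap (splitP 1) (List.take 1 (List.drop 1 (List.drop 1 (List.flatMap (splitP 0) (List.take 1 (applyObl d_T 2 [35,36,37,41] [0,0,0,0] [(35,0x2800000000),(36,0x1000000000),(37,0x800000000),(41,0x20000000000)])))))))) :=
  chkPq_sound e1_o28c _ (by decide +kernel)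
noncomputable def e1_o29c : Pq := (Pq.cons (Pq.L [0] 1 (Pf.C 5 257))
 (Pq.cons (Pq.D 2 (Pq.cons (Pq.L [0] 7 (Pf.T 1 17 (Pf.cons (Pf.W 26 1 [] [0,2,3] (Pf.cons (Pf.B 4 2 (Pf.B 4 3 (Pf.T 2 17 (Pf.cons (Pf.W 26 2 [] [0,4] (Pf.cons (Pf.C 3 66176) (Pf.cons (Pf.C 3 66176) Pf.nil))) (Pf.cons (Pf.T 2 20 (Pf.cons (Pf.T 3 16 (Pf.cons (Pf.W 24 3 [] [0,4] (Pf.cons (Pf.C 3 66176) (Pf.cons (Pf.C 3 66176) Pf.nil))) (Pf.cons (Pf.T 3 19 (Pf.cons (Pf.W 30 3 [] [0,1,2,4] (Pf.cons (Pf.B 5 2 (Pf.B 5 1 (Pf.B 5 4 (Pf.W 24 5 [] [0,4] (Pf.cons (Pf.C 3 66304) (Pf.cons (Pf.C 3 66304) Pf.nil))) (Pf.W 9 0 [4] [2,3,5] (Pf.cons (Pf.B 6 5 (Pf.B 6 4 (Pf.B 6 3 (Pf.B 6 2 (Pf.W 9 0 [4,6] [2,3,5] (Pf.cons (Pf.B 7 6 (Pf.C 5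 98311) (Pf.B 7 5 (Pf.B 7 4 (Pf.B 7 3 (Pf.B 7 2 (Pf.C 1 0x2050618382) (Pf.C 5 898)) (Pf.C 5 82311)) (Pf.C 6 65543)) (Pf.C 5 901))) (Pf.cons (Pf.C 3 66432) Pf.nil))) (Pf.C 5 770)) (Pf.C 5 82310)) (Pf.C 6 65542)) (Pf.C 5 773)) (Pf.cons (Pf.C 3 66304) Pf.nil)))) (Pf.C 5 32901)) (Pf.C 5 49794)) (Pf.cons (Pf.B 5 1 (Pf.B 5 2 (Pf.W 9 3 [5] [0,1,2] (Pf.cons (Pf.B 6 5 (Pf.B 6 2 (Pf.B 6 1 (Pf.B 6 0 (Pf.C 1 0x2830c08080) (Pf.C 5 49920)) (Pf.C 5 32902)) (Pf.C 5 49922)) (Pf.C 6 82310)) (Pf.cons (Pf.C 3 82691) Pf.nil))) (Pf.W 28 5 [] [2,3] (Pf.cons (Pf.C 12 0x608305) Pf.nil))) (Pf.C 3 66177)) Pf.nil))) (Pf.cons (Pf.T 3 21 (Pf.cons (Pf.W 34 3 [] [0,2,4] (Pf.cons (Pf.B 5 4 (Pf.B 5 2 (Pf.W 9 0 [4] [2,3,5]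 (Pf.cons (Pf.B 6 5 (Pf.B 6 4 (Pf.B 6 3 (Pf.B 6 2 (Pf.C 1 0x2000c14182) (Pf.C 5 770)) (Pf.C 5 82310)) (Pf.C 6 65542)) (Pf.C 5 773)) (Pf.cons (Pf.C 3 66304) Pf.nil))) (Pf.C 5 49794)) (Pf.C 25 517)) Pf.nil)) Pf.nil)) Pf.nil))) Pf.nil))) (Pf.cons (Pf.C 33 130) Pf.nil))) Pf.nil))) (Pf.T 3 16 (Pf.cons (Pf.T 2 17 (Pf.cons (Pf.W 26 2 [] [0,4] (Pf.cons (Pf.C 3 66176) (Pf.cons (Pf.C 3 66176) Pf.nil))) (Pf.cons (Pf.T 2 20 (Pf.cons (Pf.W 9 0 [4] [2,3] (Pf.cons (Pf.B 5 4 (Pf.B 5 3 (Pf.B 5 2 (Pf.T 5 1 (Pf.cons (Pf.T 5 11 (Pf.cons (Pf.T 5 12 (Pf.cons (Pf.W 9 0 [4,5] [2,3] (Pf.cons (Pf.B 6 5 (Pf.C 5 81926) (Pf.B 6 4 (Pf.B 6 3 (Pf.B 6 2 (Pf.W 9 3 [4] [2,5,6] (Pf.cons (Pf.B 7 6 (Pf.B 7 5 (Pf.B 7 4 (Pf.B 7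 2 (Pf.C 1 0x2030e18282) (Pf.C 5 50050)) (Pf.C 6 65927)) (Pf.C 5 98951)) (Pf.C 5 50054)) (Pf.cons (Pf.C 3 66435) Pf.nil))) (Pf.C 5 770)) (Pf.C 5 771)) (Pf.C 6 65542))) (Pf.cons (Pf.C 3 66304) Pf.nil))) Pf.nil)) Pf.nil)) (Pf.cons (Pf.T 5 13 (Pf.cons (Pf.W 9 0 [4,5] [2,3] (Pf.cons (Pf.B 6 5 (Pf.C 5 81926) (Pf.B 6 4 (Pf.B 6 3 (Pf.B 6 2 (Pf.W 9 3 [4] [2,5,6] (Pf.cons (Pf.B 7 6 (Pf.B 7 5 (Pf.B 7 4 (Pf.B 7 2 (Pf.C 1 0x2030e18282) (Pf.C 5 50050)) (Pf.C 6 65927)) (Pf.C 5 98951)) (Pf.C 5 50054)) (Pf.cons (Pf.C 3 66435) Pf.nil))) (Pf.C 5 770)) (Pf.C 5 771)) (Pf.C 6 65542))) (Pf.cons (Pf.C 3 66304) Pf.nil))) Pf.nil)) Pf.nil))) (Pf.C 5 642)) (Pf.C 5 643)) (Pf.C 6 65541)) (Pf.cons (Pf.C 3 66176) Pf.nil)))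 (Pf.cons (Pf.C 33 130) Pf.nil))) Pf.nil))) (Pf.cons (Pf.C 25 515) Pf.nil)))) (Pf.C 6 65666)) (Pf.cons (Pf.B 4 3 (Pf.B 4 2 (Pf.T 2 17 (Pf.cons (Pf.W 26 2 [] [0,4] (Pf.cons (Pf.C 3 66176) (Pf.cons (Pf.C 3 66176) Pf.nil))) (Pf.cons (Pf.T 2 20 (Pf.cons (Pf.T 3 16 (Pf.cons (Pf.W 24 3 [] [0,4] (Pf.cons (Pf.C 3 66176) (Pf.cons (Pf.C 3 66176) Pf.nil))) (Pf.cons (Pf.T 3 19 (Pf.cons (Pf.W 30 3 [] [0,1,2,4] (Pf.cons (Pf.B 5 4 (Pf.B 5 2 (Pf.B 5 1 (Pf.W 24 5 [] [0,4] (Pf.cons (Pf.C 3 66304) (Pf.cons (Pf.C 3 66304) Pf.nil))) (Pf.C 5 32901)) (Pf.C 5 49794)) (Pf.C 12 0x200284)) (Pf.cons (Pf.B 5 1 (Pf.B 5 2 (Pf.W 9 3 [5] [0,1,2] (Pf.cons (Pf.B 6 5 (Pf.B 6 2 (Pf.B 6 1 (Pf.B 6 0 (Pf.C 1 0x2830c08080) (Pf.C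 5 49920)) (Pf.C 5 32902)) (Pf.C 5 49922)) (Pf.C 6 82310)) (Pf.cons (Pf.C 3 82691) Pf.nil))) (Pf.W 28 5 [] [2,3] (Pf.cons (Pf.C 12 0x608305) Pf.nil))) (Pf.C 3 66177)) Pf.nil))) (Pf.cons (Pf.T 3 21 (Pf.cons (Pf.W 34 3 [] [0,2,4] (Pf.cons (Pf.B 5 4 (Pf.B 5 2 (Pf.W 9 0 [4] [2,3,5] (Pf.cons (Pf.B 6 5 (Pf.B 6 4 (Pf.B 6 3 (Pf.B 6 2 (Pf.C 1 0x2000c14182) (Pf.C 5 770)) (Pf.C 5 82310)) (Pf.C 6 65542)) (Pf.C 5 773)) (Pf.cons (Pf.C 3 66304) Pf.nil))) (Pf.C 5 49794)) (Pf.C 25 517)) Pf.nil)) Pf.nil)) Pf.nil))) Pf.nil))) (Pf.cons (Pf.C 33 130) Pf.nil))) Pf.nil))) (Pf.C 6 65666)) (Pf.C 12 0x200184)) Pf.nil))) (Pf.cons (Pf.T 1 20 (Pf.cons (Pf.W 32 1 [] [0,2,3] (Pf.cons (Pf.B 4 3 (Pf.B 4 2 (Pf.C 5 32900)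 (Pf.W 24 4 [] [0,1,2,3] (Pf.cons (Pf.B 5 2 (Pf.B 5 1 (Pf.B 5 3 (Pf.W 9 0 [5] [1,2,3,4] (Pf.cons (Pf.B 6 5 (Pf.B 6 4 (Pf.B 6 3 (Pf.B 6 2 (Pf.B 6 1 (Pf.C 1 0x2800c08083) (Pf.C 5 32902)) (Pf.C 5 65798)) (Pf.C 5 771)) (Pf.C 5 772)) (Pf.C 6 81926)) (Pf.cons (Pf.C 3 82688) Pf.nil))) (Pf.T 3 16 (Pf.cons (Pf.T 2 17 (Pf.cons (Pf.W 26 2 [] [0,5] (Pf.cons (Pf.C 3 82688) (Pf.cons (Pf.C 3 82688) Pf.nil))) (Pf.cons (Pf.T 2 20 (Pf.cons (Pf.W 9 0 [5] [1,2,3,4] (Pf.cons (Pf.B 6 5 (Pf.B 6 4 (Pf.B 6 3 (Pf.B 6 2 (Pf.B 6 1 (Pf.W 9 3 [5] [1,2,4,6] (Pf.cons (Pf.B 7 6 (Pf.B 7 5 (Pf.B 7 4 (Pf.B 7 2 (Pf.B 7 1 (Pf.C 1 0x2830e08086) (Pf.C 5 32903)) (Pf.C 5 65799)) (Pf.C 5 50052)) (Pf.C 6 82311)) (Pf.C 5 50054)) (Pf.cons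 (Pf.C 3 82819) Pf.nil))) (Pf.C 5 32902)) (Pf.C 5 65798)) (Pf.C 5 771)) (Pf.C 5 772)) (Pf.C 6 81926)) (Pf.cons (Pf.C 3 82688) Pf.nil))) (Pf.cons (Pf.C 33 514) Pf.nil))) Pf.nil))) (Pf.cons (Pf.C 25 643) Pf.nil)))) (Pf.C 27 641)) (Pf.C 6 82434)) (Pf.cons (Pf.B 5 3 (Pf.B 5 2 (Pf.B 5 1 (Pf.W 9 0 [5] [1,2,3,4] (Pf.cons (Pf.B 6 5 (Pf.B 6 4 (Pf.B 6 3 (Pf.B 6 2 (Pf.B 6 1 (Pf.C 1 0x2800c08083) (Pf.C 5 32902)) (Pf.C 5 65798)) (Pf.C 5 771)) (Pf.C 5 772)) (Pf.C 6 81926)) (Pf.cons (Pf.C 3 82688) Pf.nil))) (Pf.C 27 641)) (Pf.C 6 82434)) (Pf.C 12 0x800185)) Pf.nil)))) (Pf.C 5 16899)) (Pf.cons (Pf.W 26 2 [] [0,1,3] (Pf.cons (Pf.B 4 1 (Pf.B 4 3 (Pf.T 3 16 (Pf.cons (Pf.W 24 3 [] [0,4] (Pf.cons (Pf.C 3 66176)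 (Pf.cons (Pf.C 3 66176) Pf.nil))) (Pf.cons (Pf.T 3 19 (Pf.cons (Pf.W 30 3 [] [0,1,2,4] (Pf.cons (Pf.B 5 2 (Pf.B 5 1 (Pf.B 5 4 (Pf.W 24 5 [] [0,4] (Pf.cons (Pf.C 3 66304) (Pf.cons (Pf.C 3 66304) Pf.nil))) (Pf.W 9 0 [4] [1,2,3,5] (Pf.cons (Pf.B 6 5 (Pf.B 6 4 (Pf.B 6 3 (Pf.B 6 2 (Pf.B 6 1 (Pf.W 9 0 [4,6] [1,2,3,5] (Pf.cons (Pf.B 7 6 (Pf.C 5 98311) (Pf.B 7 5 (Pf.B 7 4 (Pf.B 7 3 (Pf.B 7 2 (Pf.B 7 1 (Pf.C 1 0x2050618381) (Pf.C 5 32903)) (Pf.C 5 898)) (Pf.C 5 82311)) (Pf.C 6 65543)) (Pf.C 5 901))) (Pf.cons (Pf.C 3 66432) Pf.nil))) (Pf.C 5 32902)) (Pf.C 5 770)) (Pf.C 5 82310)) (Pf.C 6 65542)) (Pf.C 5 773)) (Pf.cons (Pf.C 3 66304) Pf.nil)))) (Pf.C 5 32901)) (Pf.C 5 49794)) (Pf.cons (Pf.B 5 2 (Pf.B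 5 1 (Pf.W 9 3 [5] [0,1,2] (Pf.cons (Pf.B 6 5 (Pf.B 6 2 (Pf.B 6 1 (Pf.B 6 0 (Pf.C 1 0x2830c08080) (Pf.C 5 49920)) (Pf.C 5 32902)) (Pf.C 5 49922)) (Pf.C 6 82310)) (Pf.cons (Pf.C 3 82691) Pf.nil))) (Pf.W 28 5 [] [1,3] (Pf.cons (Pf.C 12 0x604305) Pf.nil))) (Pf.C 3 66178)) Pf.nil))) (Pf.cons (Pf.T 3 21 (Pf.cons (Pf.W 34 3 [] [0,1,2,4] (Pf.cons (Pf.B 5 4 (Pf.B 5 2 (Pf.B 5 1 (Pf.W 9 0 [4] [1,2,3,5] (Pf.cons (Pf.B 6 5 (Pf.B 6 4 (Pf.B 6 3 (Pf.B 6 2 (Pf.B 6 1 (Pf.C 1 0x2020214186) (Pf.C 5 32902)) (Pf.C 5 770)) (Pf.C 5 82310)) (Pf.C 6 65542)) (Pf.C 5 773)) (Pf.cons (Pf.C 3 66304) Pf.nil))) (Pf.C 5 32901)) (Pf.C 5 49794)) (Pf.C 25 517)) Pf.nil)) Pf.nil)) Pf.nil))) Pf.nil))) (Pf.T 3 16 (Pf.cons (Pf.W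 9 0 [4] [1,2,3] (Pf.cons (Pf.B 5 4 (Pf.B 5 3 (Pf.B 5 2 (Pf.B 5 1 (Pf.T 5 1 (Pf.cons (Pf.T 5 11 (Pf.cons (Pf.T 5 12 (Pf.cons (Pf.W 9 0 [4,5] [1,2,3] (Pf.cons (Pf.B 6 5 (Pf.C 5 81926) (Pf.B 6 4 (Pf.B 6 3 (Pf.B 6 2 (Pf.B 6 1 (Pf.W 9 3 [4] [1,2,5,6] (Pf.cons (Pf.B 7 6 (Pf.B 7 5 (Pf.B 7 4 (Pf.B 7 2 (Pf.B 7 1 (Pf.C 1 0x2020218287) (Pf.C 5 32903)) (Pf.C 5 50050)) (Pf.C 6 65927)) (Pf.C 5 98951)) (Pf.C 5 50054)) (Pf.cons (Pf.C 3 66435) Pf.nil))) (Pf.C 5 32902)) (Pf.C 5 770)) (Pf.C 5 771)) (Pf.C 6 65542))) (Pf.cons (Pf.C 3 66304) Pf.nil))) Pf.nil)) Pf.nil)) (Pf.cons (Pf.T 5 13 (Pf.cons (Pf.W 9 0 [4,5] [1,2,3] (Pf.cons (Pf.B 6 5 (Pf.C 5 81926) (Pf.B 6 4 (Pf.B 6 3 (Pf.B 6 2 (Pf.B 6 1 (Pf.W 9 3 [4] [1,2,5,6]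 (Pf.cons (Pf.B 7 6 (Pf.B 7 5 (Pf.B 7 4 (Pf.B 7 2 (Pf.B 7 1 (Pf.C 1 0x2020218287) (Pf.C 5 32903)) (Pf.C 5 50050)) (Pf.C 6 65927)) (Pf.C 5 98951)) (Pf.C 5 50054)) (Pf.cons (Pf.C 3 66435) Pf.nil))) (Pf.C 5 32902)) (Pf.C 5 770)) (Pf.C 5 771)) (Pf.C 6 65542))) (Pf.cons (Pf.C 3 66304) Pf.nil))) Pf.nil)) Pf.nil))) (Pf.C 5 32901)) (Pf.C 5 642)) (Pf.C 5 643)) (Pf.C 6 65541)) (Pf.cons (Pf.C 3 66176) Pf.nil))) (Pf.cons (Pf.C 25 515) Pf.nil)))) (Pf.C 27 513)) (Pf.cons (Pf.B 4 3 (Pf.B 4 1 (Pf.T 3 16 (Pf.cons (Pf.W 24 3 [] [0,4] (Pf.cons (Pf.C 3 66176) (Pf.cons (Pf.C 3 66176) Pf.nil))) (Pf.cons (Pf.T 3 19 (Pf.cons (Pf.W 30 3 [] [0,1,2,4] (Pf.cons (Pf.B 5 4 (Pf.B 5 2 (Pf.B 5 1 (Pf.W 24 5 [] [0,4] (Pf.cons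 (Pf.C 3 66304) (Pf.cons (Pf.C 3 66304) Pf.nil))) (Pf.C 5 32901)) (Pf.C 5 49794)) (Pf.C 12 0x400284)) (Pf.cons (Pf.B 5 2 (Pf.B 5 1 (Pf.W 9 3 [5] [0,1,2] (Pf.cons (Pf.B 6 5 (Pf.B 6 2 (Pf.B 6 1 (Pf.B 6 0 (Pf.C 1 0x2830c08080) (Pf.C 5 49920)) (Pf.C 5 32902)) (Pf.C 5 49922)) (Pf.C 6 82310)) (Pf.cons (Pf.C 3 82691) Pf.nil))) (Pf.W 28 5 [] [1,3] (Pf.cons (Pf.C 12 0x604305) Pf.nil))) (Pf.C 3 66178)) Pf.nil))) (Pf.cons (Pf.T 3 21 (Pf.cons (Pf.W 34 3 [] [0,1,2,4] (Pf.cons (Pf.B 5 4 (Pf.B 5 2 (Pf.B 5 1 (Pf.W 9 0 [4] [1,2,3,5] (Pf.cons (Pf.B 6 5 (Pf.B 6 4 (Pf.B 6 3 (Pf.B 6 2 (Pf.B 6 1 (Pf.C 1 0x2020214186) (Pf.C 5 32902)) (Pf.C 5 770)) (Pf.C 5 82310)) (Pf.C 6 65542)) (Pf.C 5 773)) (Pf.cons (Pf.C 3 66304)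 Pf.nil))) (Pf.C 5 32901)) (Pf.C 5 49794)) (Pf.C 25 517)) Pf.nil)) Pf.nil)) Pf.nil))) Pf.nil))) (Pf.C 27 513)) (Pf.C 12 0x400184)) Pf.nil))) (Pf.cons (Pf.B 4 3 (Pf.B 4 2 (Pf.C 5 32900) (Pf.W 26 4 [] [1,2] (Pf.cons (Pf.C 10 0x404284) (Pf.cons (Pf.C 10 0x404284) Pf.nil)))) (Pf.C 5 16899)) (Pf.cons (Pf.B 4 2 (Pf.B 4 3 (Pf.W 28 4 [] [0,1,2,3] (Pf.cons (Pf.B 5 3 (Pf.B 5 2 (Pf.B 5 1 (Pf.W 9 5 [0,4] [1,2,3] (Pf.cons (Pf.B 6 4 (Pf.B 6 3 (Pf.B 6 2 (Pf.B 6 1 (Pf.B 6 0 (Pf.C 5 646) (Pf.C 1 0x2010400303)) (Pf.C 5 32902)) (Pf.C 5 82690)) (Pf.C 5 82691)) (Pf.C 6 66182)) (Pf.cons (Pf.C 3 66309) Pf.nil))) (Pf.C 5 32901)) (Pf.C 5 642)) (Pf.C 5 643)) Pf.nil)) (Pf.W 28 4 [] [1,3] (Pf.cons (Pf.C 12 0x604284)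 Pf.nil))) (Pf.C 6 65666)) Pf.nil))))) (Pf.cons (Pf.T 1 22 (Pf.cons (Pf.T 2 17 (Pf.cons (Pf.C 33 257) (Pf.cons (Pf.W 36 1 [] [0,2,3] (Pf.cons (Pf.B 4 3 (Pf.B 4 2 (Pf.C 5 32900) (Pf.W 30 4 [] [0,1,2,3] (Pf.cons (Pf.B 5 2 (Pf.C 5 33285) (Pf.C 10 0x804282)) (Pf.cons (Pf.B 5 2 (Pf.B 5 1 (Pf.B 5 3 (Pf.W 28 5 [] [0,1,2,3,4] (Pf.cons (Pf.B 6 4 (Pf.B 6 3 (Pf.B 6 2 (Pf.B 6 1 (Pf.C 1 0x2860008083) (Pf.C 5 32902)) (Pf.C 5 65798)) (Pf.C 5 771)) (Pf.C 5 772)) Pf.nil)) (Pf.W 28 5 [] [3,4] (Pf.cons (Pf.C 12 0x80c305) Pf.nil))) (Pf.C 33 641)) (Pf.C 6 82434)) Pf.nil)))) (Pf.C 5 16899)) (Pf.cons (Pf.W 32 2 [] [0,1,3] (Pf.cons (Pf.B 4 1 (Pf.C 5 16644) (Pf.C 33 513)) (Pf.cons (Pf.B 4 1 (Pf.C 5 16644) (Pf.C 33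 513)) (Pf.cons (Pf.B 4 1 (Pf.B 4 3 (Pf.W 28 4 [] [0,1,2,3] (Pf.cons (Pf.B 5 3 (Pf.B 5 2 (Pf.B 5 1 (Pf.W 9 5 [0,4] [1,2,3] (Pf.cons (Pf.B 6 4 (Pf.B 6 3 (Pf.B 6 2 (Pf.B 6 1 (Pf.B 6 0 (Pf.C 5 646) (Pf.C 1 0x2020200303)) (Pf.C 5 32902)) (Pf.C 5 82690)) (Pf.C 5 82691)) (Pf.C 6 66182)) (Pf.cons (Pf.C 3 66309) Pf.nil))) (Pf.C 5 32901)) (Pf.C 5 642)) (Pf.C 5 643)) Pf.nil)) (Pf.W 28 4 [] [2,3] (Pf.cons (Pf.C 12 0x608284) Pf.nil))) (Pf.C 33 513)) Pf.nil)))) (Pf.cons (Pf.B 4 3 (Pf.B 4 2 (Pf.C 5 32900) (Pf.W 32 4 [] [1,2] (Pf.cons (Pf.C 10 0x404284) (Pf.cons (Pf.C 10 0x404284) (Pf.cons (Pf.C 10 0x404284) Pf.nil))))) (Pf.C 5 16899)) Pf.nil)))) Pf.nil))) Pf.nil)) Pf.nil))) Pf.nil))))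
 (Pq.cons (Pq.L [0] 2 (Pf.C 5 385))
 (Pq.cons (Pq.L [] 7 (Pf.T 1 17 (Pf.cons (Pf.W 26 1 [] [2,3] (Pf.cons (Pf.C 10 0x608201) (Pf.cons (Pf.C 10 0x608201) Pf.nil))) (Pf.cons (Pf.T 1 20 (Pf.cons (Pf.W 32 1 [] [2,3] (Pf.cons (Pf.C 10 0x608201) (Pf.cons (Pf.W 26 2 [] [1,3] (Pf.cons (Pf.C 10 0x604202) (Pf.cons (Pf.C 10 0x604202) Pf.nil))) (Pf.cons (Pf.W 26 3 [] [1,2] (Pf.cons (Pf.C 10 0x404203) (Pf.cons (Pf.C 10 0x404203) Pf.nil))) (Pf.cons (Pf.C 10 0x608201) (Pf.cons (Pf.C 10 0x608201) Pf.nil)))))) (Pf.cons (Pf.T 1 22 (Pf.cons (Pf.W 36 1 [] [2,3] (Pf.cons (Pf.C 10 0x608201) (Pf.cons (Pf.W 32 2 [] [1,3] (Pf.cons (Pf.C 10 0x604202) (Pf.cons (Pf.C 33 385) (Pf.cons (Pf.C 10 0x604202) (Pf.cons (Pf.C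 10 0x604202) Pf.nil))))) (Pf.cons (Pf.W 32 3 [] [1,2] (Pf.cons (Pf.C 10 0x404203) (Pf.cons (Pf.C 33 257) (Pf.cons (Pf.C 10 0x404203) (Pf.cons (Pf.C 10 0x404203) Pf.nil))))) (Pf.cons (Pf.C 10 0x608201) Pf.nil))))) Pf.nil)) Pf.nil))) Pf.nil))))
 (Pq.cons (Pq.L [] 7 (Pf.C 6 49409))
 Pq.nil))))) (Pq.cons (Pq.D 2 (Pq.cons (Pq.L [0] 7 (Pf.T 1 17 (Pf.cons (Pf.W 26 1 [] [2] (Pf.cons (Pf.C 3 33281) (Pf.cons (Pf.C 3 33281) Pf.nil))) (Pf.cons (Pf.T 1 20 (Pf.cons (Pf.W 32 1 [] [0,2,3] (Pf.cons (Pf.B 4 3 (Pf.B 4 2 (Pf.W 24 4 [] [1,2] (Pf.cons (Pf.W 9 4 [1,5] [2] (Pf.cons (Pf.B 6 1 (Pf.C 5 16902) (Pf.C 10 0x808301)) (Pf.cons (Pf.C 3 82692) Pf.nil))) (Pf.cons (Pf.W 9 4 [1,5] [2] (Pf.cons (Pf.B 6 1 (Pf.C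 5 16902) (Pf.C 10 0x808301)) (Pf.cons (Pf.C 3 82692) Pf.nil))) Pf.nil))) (Pf.C 6 32900)) (Pf.C 5 16899)) (Pf.cons (Pf.B 4 3 (Pf.B 4 2 (Pf.W 26 4 [] [0,1,2,3] (Pf.cons (Pf.B 5 3 (Pf.T 2 18 (Pf.cons (Pf.W 28 2 [] [1,3] (Pf.cons (Pf.C 12 0x604302) Pf.nil)) (Pf.cons (Pf.T 2 23 (Pf.cons (Pf.T 3 16 (Pf.cons (Pf.W 24 3 [] [0,5] (Pf.cons (Pf.C 3 82688) (Pf.cons (Pf.C 3 82688) Pf.nil))) (Pf.cons (Pf.T 3 19 (Pf.cons (Pf.W 30 3 [] [0,1,2,4,5] (Pf.cons (Pf.B 6 4 (Pf.B 6 2 (Pf.W 9 0 [5] [1,2,3,4,6] (Pf.cons (Pf.B 7 6 (Pf.B 7 4 (Pf.B 7 3 (Pf.B 7 2 (Pf.C 1 0x3030400384) (Pf.C 12 0x604382)) (Pf.C 5 98695)) (Pf.C 5 900)) (Pf.C 5 902)) (Pf.cons (Pf.C 3 82816) Pf.nil))) (Pf.C 6 33158)) (Pf.C 5 49924)) (Pf.cons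 (Pf.C 3 33539) Pf.nil))) (Pf.cons (Pf.T 3 21 (Pf.cons (Pf.W 34 3 [] [0,1,2,4,5] (Pf.cons (Pf.B 6 5 (Pf.B 6 4 (Pf.B 6 2 (Pf.B 6 1 (Pf.W 30 6 [] [0,1,2,3,4,5] (Pf.cons (Pf.B 7 3 (Pf.C 5 49927) (Pf.C 31 899)) (Pf.cons (Pf.B 7 4 (Pf.B 7 3 (Pf.B 7 1 (Pf.C 1 0x1860e10080) (Pf.C 3 33665)) (Pf.C 31 899)) (Pf.C 3 82820)) Pf.nil))) (Pf.C 5 65670)) (Pf.C 6 33158)) (Pf.C 5 49924)) (Pf.C 25 646)) Pf.nil)) Pf.nil)) Pf.nil))) Pf.nil))) (Pf.cons (Pf.C 39 130) Pf.nil))) Pf.nil))) (Pf.C 3 33411)) (Pf.cons (Pf.B 5 3 (Pf.T 2 18 (Pf.cons (Pf.W 28 2 [] [1,3] (Pf.cons (Pf.C 12 0x604302) Pf.nil)) (Pf.cons (Pf.T 2 23 (Pf.cons (Pf.T 3 16 (Pf.cons (Pf.W 24 3 [] [0,5] (Pf.cons (Pf.C 3 82688) (Pf.cons (Pf.C 3 82688)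 Pf.nil))) (Pf.cons (Pf.T 3 19 (Pf.cons (Pf.W 30 3 [] [0,1,2,4,5] (Pf.cons (Pf.B 6 5 (Pf.B 6 4 (Pf.B 6 2 (Pf.B 6 1 (Pf.W 24 6 [] [0,5] (Pf.cons (Pf.C 3 82816) (Pf.cons (Pf.C 3 82816) Pf.nil))) (Pf.C 5 65670)) (Pf.C 6 33158)) (Pf.C 5 49924)) (Pf.C 12 0x800305)) (Pf.cons (Pf.C 3 33539) Pf.nil))) (Pf.cons (Pf.T 3 21 (Pf.cons (Pf.W 34 3 [] [0,1,2,4,5] (Pf.cons (Pf.B 6 5 (Pf.B 6 4 (Pf.B 6 2 (Pf.B 6 1 (Pf.W 30 6 [] [0,1,2,3,4,5] (Pf.cons (Pf.B 7 3 (Pf.C 5 49927) (Pf.C 31 899)) (Pf.cons (Pf.B 7 4 (Pf.B 7 3 (Pf.B 7 1 (Pf.C 1 0x1860e10080) (Pf.C 3 33665)) (Pf.C 31 899)) (Pf.C 3 82820)) Pf.nil))) (Pf.C 5 65670)) (Pf.C 6 33158)) (Pf.C 5 49924)) (Pf.C 25 646)) Pf.nil)) Pf.nil)) Pf.nil))) Pf.nil))) (Pf.cons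 (Pf.C 39 130) Pf.nil))) Pf.nil))) (Pf.C 3 33411)) Pf.nil))) (Pf.C 6 32900)) (Pf.C 5 16899)) (Pf.cons (Pf.W 28 2 [] [1,3] (Pf.cons (Pf.C 12 0x604202) Pf.nil)) (Pf.cons (Pf.C 3 33281) Pf.nil))))) (Pf.cons (Pf.T 1 22 (Pf.cons (Pf.T 2 18 (Pf.cons (Pf.C 33 257) (Pf.cons (Pf.W 36 1 [] [0,2,3] (Pf.cons (Pf.B 4 3 (Pf.B 4 2 (Pf.W 30 4 [] [0,1,2,3] (Pf.cons (Pf.B 5 1 (Pf.C 5 16901) (Pf.C 33 641)) (Pf.cons (Pf.B 5 3 (Pf.B 5 1 (Pf.W 28 5 [] [0,1,2,3,4] (Pf.cons (Pf.B 6 4 (Pf.B 6 3 (Pf.B 6 1 (Pf.W 9 0 [6] [1,2,3,4,5] (Pf.cons (Pf.B 7 6 (Pf.C 5 98311) (Pf.B 7 5 (Pf.B 7 4 (Pf.B 7 3 (Pf.B 7 1 (Pf.C 1 0x2840200383) (Pf.C 5 65671)) (Pf.C 5 899)) (Pf.C 5 900)) (Pf.C 6 82695))) (Pf.cons (Pf.B 7 6 (Pf.B 7 4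 (Pf.B 7 3 (Pf.B 7 1 (Pf.C 1 0x3000e10083) (Pf.C 3 33665)) (Pf.C 3 33667)) (Pf.C 3 82820)) (Pf.C 3 82822)) Pf.nil))) (Pf.C 5 65670)) (Pf.C 5 771)) (Pf.C 5 772)) Pf.nil)) (Pf.C 33 641)) (Pf.C 3 33411)) Pf.nil))) (Pf.C 6 32900)) (Pf.C 5 16899)) (Pf.cons (Pf.B 4 3 (Pf.B 4 2 (Pf.W 32 4 [] [0,1,2,3] (Pf.cons (Pf.B 5 1 (Pf.C 5 16901) (Pf.C 33 641)) (Pf.cons (Pf.B 5 1 (Pf.C 5 16901) (Pf.C 33 641)) (Pf.cons (Pf.B 5 3 (Pf.B 5 1 (Pf.W 28 5 [] [0,1,2,3,4] (Pf.cons (Pf.B 6 4 (Pf.B 6 3 (Pf.B 6 1 (Pf.W 9 0 [6] [1,2,3,4,5] (Pf.cons (Pf.B 7 6 (Pf.C 5 98311) (Pf.B 7 5 (Pf.B 7 4 (Pf.B 7 3 (Pf.B 7 1 (Pf.C 1 0x2840200383) (Pf.C 5 65671)) (Pf.C 5 899)) (Pf.C 5 900)) (Pf.C 6 82695))) (Pf.cons (Pf.B 7 6 (Pf.B 7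 4 (Pf.B 7 3 (Pf.B 7 1 (Pf.C 1 0x3000e10083) (Pf.C 3 33665)) (Pf.C 3 33667)) (Pf.C 3 82820)) (Pf.C 3 82822)) Pf.nil))) (Pf.C 5 65670)) (Pf.C 5 771)) (Pf.C 5 772)) Pf.nil)) (Pf.C 33 641)) (Pf.C 3 33411)) Pf.nil)))) (Pf.C 6 32900)) (Pf.C 5 16899)) Pf.nil))) Pf.nil))) Pf.nil)) Pf.nil))) Pf.nil))))
 (Pq.cons (Pq.L [0] 2 (Pf.C 5 385))
 (Pq.cons (Pq.L [] 7 (Pf.C 6 33153))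
 (Pq.cons (Pq.L [] 3 (Pf.C 3 49409))
 Pq.nil))))) Pq.nil)))
theorem e1_o29 : AllRef e1_T e1_G40 (List.drop 1 (List.flatMap (splitP 1) (List.take 1 (List.drop 1 (List.drop 1 (List.flatMap (splitP 0) (List.take 1 (applyObl d_T 2 [35,36,37,41] [0,0,0,0] [(35,0x2800000000),(36,0x1000000000),(37,0x800000000),(41,0x20000000000)])))))))) :=
  chkPq_sound e1_o29c _ (by decide +kernel)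
noncomputable def e1_o30c : Pq := (Pq.cons (Pq.D 1 (Pq.cons (Pq.D 2 (Pq.cons (Pq.L [0] 7 (Pf.T 1 18 (Pf.cons (Pf.W 28 1 [] [2,3] (Pf.cons (Pf.C 12 0x608201) Pf.nil)) (Pf.cons (Pf.T 1 23 (Pf.cons (Pf.W 38 1 [] [2,0,3] (Pf.cons (Pf.W 30 2 [] [0,1,3] (Pf.cons (Pf.B 4 3 (Pf.B 4 1 (Pf.W 24 4 [] [0,1,2,3] (Pf.cons (Pf.B 5 3 (Pf.T 3 16 (Pf.cons (Pf.W 24 3 [] [0,5] (Pf.cons (Pf.C 3 82688) (Pf.cons (Pf.C 3 82688) Pf.nil))) (Pf.cons (Pf.T 3 19 (Pf.cons (Pf.W 30 3 [] [0,1,2,4,5] (Pf.cons (Pf.B 6 4 (Pf.B 6 1 (Pf.W 9 0 [5] [1,2,3,4,6] (Pf.cons (Pf.B 7 6 (Pf.B 7 4 (Pf.B 7 3 (Pf.B 7 1 (Pf.C 1 0x3030200384) (Pf.C 12 0x608381)) (Pf.C 5 98695)) (Pf.C 5 900)) (Pf.C 5 902)) (Pf.cons (Pf.C 3 82816) Pf.nil)))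 (Pf.C 6 16774)) (Pf.C 5 49924)) (Pf.cons (Pf.C 3 17155) Pf.nil))) (Pf.cons (Pf.T 3 21 (Pf.cons (Pf.W 34 3 [] [0,1,2,4,5] (Pf.cons (Pf.B 6 5 (Pf.B 6 4 (Pf.B 6 2 (Pf.B 6 1 (Pf.W 30 6 [] [0,1,2,3,4,5] (Pf.cons (Pf.B 7 3 (Pf.C 5 49927) (Pf.C 31 899)) (Pf.cons (Pf.B 7 4 (Pf.B 7 3 (Pf.B 7 2 (Pf.C 1 0x1860e10100) (Pf.C 3 17282)) (Pf.C 31 899)) (Pf.C 3 82820)) Pf.nil))) (Pf.C 6 16774)) (Pf.C 5 65798)) (Pf.C 5 49924)) (Pf.C 25 646)) Pf.nil)) Pf.nil)) Pf.nil))) Pf.nil))) (Pf.C 3 17027)) (Pf.cons (Pf.B 5 3 (Pf.T 3 16 (Pf.cons (Pf.W 24 3 [] [0,5] (Pf.cons (Pf.C 3 82688) (Pf.cons (Pf.C 3 82688) Pf.nil))) (Pf.cons (Pf.T 3 19 (Pf.cons (Pf.W 30 3 [] [0,1,2,4,5] (Pf.cons (Pf.B 6 5 (Pf.B 6 4 (Pf.B 6 2 (Pf.B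 6 1 (Pf.W 24 6 [] [0,5] (Pf.cons (Pf.C 3 82816) (Pf.cons (Pf.C 3 82816) Pf.nil))) (Pf.C 6 16774)) (Pf.C 5 65798)) (Pf.C 5 49924)) (Pf.C 12 0x800305)) (Pf.cons (Pf.C 3 17155) Pf.nil))) (Pf.cons (Pf.T 3 21 (Pf.cons (Pf.W 34 3 [] [0,1,2,4,5] (Pf.cons (Pf.B 6 5 (Pf.B 6 4 (Pf.B 6 2 (Pf.B 6 1 (Pf.W 30 6 [] [0,1,2,3,4,5] (Pf.cons (Pf.B 7 3 (Pf.C 5 49927) (Pf.C 31 899)) (Pf.cons (Pf.B 7 4 (Pf.B 7 3 (Pf.B 7 2 (Pf.C 1 0x1860e10100) (Pf.C 3 17282)) (Pf.C 31 899)) (Pf.C 3 82820)) Pf.nil))) (Pf.C 6 16774)) (Pf.C 5 65798)) (Pf.C 5 49924)) (Pf.C 25 646)) Pf.nil)) Pf.nil)) Pf.nil))) Pf.nil))) (Pf.C 3 17027)) Pf.nil))) (Pf.C 6 16644)) (Pf.C 5 33283)) (Pf.cons (Pf.C 3 16898) Pf.nil))) (Pf.cons (Pf.W 30 3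 [] [0,1,2] (Pf.cons (Pf.B 4 2 (Pf.B 4 1 (Pf.W 24 4 [] [0,1,2,3] (Pf.cons (Pf.B 5 2 (Pf.T 2 16 (Pf.cons (Pf.W 24 2 [] [0,5] (Pf.cons (Pf.C 3 82688) (Pf.cons (Pf.C 3 82688) Pf.nil))) (Pf.cons (Pf.T 2 19 (Pf.cons (Pf.W 30 2 [] [0,1,3,4,5] (Pf.cons (Pf.B 6 4 (Pf.B 6 1 (Pf.W 9 0 [5] [1,2,3,4,6] (Pf.cons (Pf.B 7 6 (Pf.B 7 4 (Pf.B 7 2 (Pf.B 7 1 (Pf.C 1 0x3020200384) (Pf.C 12 0x608381)) (Pf.C 5 98567)) (Pf.C 5 900)) (Pf.C 5 902)) (Pf.cons (Pf.C 3 82816) Pf.nil))) (Pf.C 6 16646)) (Pf.C 5 33540)) (Pf.cons (Pf.C 3 17154) Pf.nil))) (Pf.cons (Pf.T 2 21 (Pf.cons (Pf.W 34 2 [] [0,1,3,4,5] (Pf.cons (Pf.B 6 5 (Pf.B 6 4 (Pf.B 6 3 (Pf.B 6 1 (Pf.W 30 6 [] [0,1,2,3,4,5] (Pf.cons (Pf.B 7 2 (Pf.C 5 33543) (Pf.C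 31 898)) (Pf.cons (Pf.B 7 4 (Pf.B 7 3 (Pf.B 7 2 (Pf.C 1 0x1060e10180) (Pf.C 31 898)) (Pf.C 3 17283)) (Pf.C 3 82820)) Pf.nil))) (Pf.C 6 16646)) (Pf.C 5 65926)) (Pf.C 5 33540)) (Pf.C 25 646)) Pf.nil)) Pf.nil)) Pf.nil))) Pf.nil))) (Pf.C 3 17026)) (Pf.cons (Pf.B 5 2 (Pf.T 2 16 (Pf.cons (Pf.W 24 2 [] [0,5] (Pf.cons (Pf.C 3 82688) (Pf.cons (Pf.C 3 82688) Pf.nil))) (Pf.cons (Pf.T 2 19 (Pf.cons (Pf.W 30 2 [] [0,1,3,4,5] (Pf.cons (Pf.B 6 5 (Pf.B 6 4 (Pf.B 6 3 (Pf.B 6 1 (Pf.W 24 6 [] [0,5] (Pf.cons (Pf.C 3 82816) (Pf.cons (Pf.C 3 82816) Pf.nil))) (Pf.C 6 16646)) (Pf.C 5 65926)) (Pf.C 5 33540)) (Pf.C 12 0x800305)) (Pf.cons (Pf.C 3 17154) Pf.nil))) (Pf.cons (Pf.T 2 21 (Pf.cons (Pf.W 34 2 [] [0,1,3,4,5]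 (Pf.cons (Pf.B 6 5 (Pf.B 6 4 (Pf.B 6 3 (Pf.B 6 1 (Pf.W 30 6 [] [0,1,2,3,4,5] (Pf.cons (Pf.B 7 2 (Pf.C 5 33543) (Pf.C 31 898)) (Pf.cons (Pf.B 7 4 (Pf.B 7 3 (Pf.B 7 2 (Pf.C 1 0x1060e10180) (Pf.C 31 898)) (Pf.C 3 17283)) (Pf.C 3 82820)) Pf.nil))) (Pf.C 6 16646)) (Pf.C 5 65926)) (Pf.C 5 33540)) (Pf.C 25 646)) Pf.nil)) Pf.nil)) Pf.nil))) Pf.nil))) (Pf.C 3 17026)) Pf.nil))) (Pf.C 6 16772)) (Pf.C 5 49666)) (Pf.cons (Pf.C 3 16899) Pf.nil))) (Pf.cons (Pf.C 12 0x608201) (Pf.cons (Pf.C 12 0x608201) Pf.nil))))) (Pf.cons (Pf.T 1 24 (Pf.cons (Pf.W 40 1 [] [2,0,3] (Pf.cons (Pf.W 34 2 [] [0,1,3] (Pf.cons (Pf.B 4 3 (Pf.B 4 1 (Pf.W 30 4 [] [0,1,2,3] (Pf.cons (Pf.B 5 2 (Pf.C 5 33285) (Pf.C 31 642)) (Pf.cons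 (Pf.B 5 3 (Pf.B 5 2 (Pf.W 28 5 [] [0,1,2,3,4] (Pf.cons (Pf.B 6 4 (Pf.B 6 3 (Pf.B 6 2 (Pf.W 9 0 [6] [1,2,3,4,5] (Pf.cons (Pf.B 7 6 (Pf.C 5 98311) (Pf.B 7 5 (Pf.B 7 4 (Pf.B 7 3 (Pf.B 7 2 (Pf.C 1 0x2840400383) (Pf.C 5 65799)) (Pf.C 5 899)) (Pf.C 5 900)) (Pf.C 6 82695))) (Pf.cons (Pf.B 7 6 (Pf.B 7 4 (Pf.B 7 3 (Pf.B 7 2 (Pf.C 1 0x3000e10103) (Pf.C 3 17282)) (Pf.C 3 17283)) (Pf.C 3 82820)) (Pf.C 3 82822)) Pf.nil))) (Pf.C 5 65798)) (Pf.C 5 771)) (Pf.C 5 772)) Pf.nil)) (Pf.C 31 642)) (Pf.C 3 17027)) Pf.nil))) (Pf.C 39 513)) (Pf.C 5 33283)) Pf.nil)) (Pf.cons (Pf.W 34 3 [] [0,1,2] (Pf.cons (Pf.B 4 2 (Pf.B 4 1 (Pf.W 30 4 [] [0,1,2,3] (Pf.cons (Pf.B 5 3 (Pf.C 5 49669) (Pf.C 31 643)) (Pf.cons (Pf.B 5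 3 (Pf.B 5 2 (Pf.W 28 5 [] [0,1,2,3,4] (Pf.cons (Pf.B 6 4 (Pf.B 6 3 (Pf.B 6 2 (Pf.W 9 0 [6] [1,2,3,4,5] (Pf.cons (Pf.B 7 6 (Pf.C 5 98311) (Pf.B 7 5 (Pf.B 7 4 (Pf.B 7 3 (Pf.B 7 2 (Pf.C 1 0x2840600382) (Pf.C 5 898)) (Pf.C 5 65927)) (Pf.C 5 900)) (Pf.C 6 82695))) (Pf.cons (Pf.B 7 6 (Pf.B 7 4 (Pf.B 7 3 (Pf.B 7 2 (Pf.C 1 0x3000e10182) (Pf.C 3 17282)) (Pf.C 3 17283)) (Pf.C 3 82820)) (Pf.C 3 82822)) Pf.nil))) (Pf.C 5 770)) (Pf.C 5 65926)) (Pf.C 5 772)) Pf.nil)) (Pf.C 3 17026)) (Pf.C 31 643)) Pf.nil))) (Pf.C 39 513)) (Pf.C 5 49666)) Pf.nil)) (Pf.cons (Pf.C 12 0x608201) (Pf.cons (Pf.C 12 0x608201) Pf.nil))))) Pf.nil)) Pf.nil))) Pf.nil))))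
 (Pq.cons (Pq.L [] 7 (Pf.C 6 16770))
 (Pq.cons (Pq.L [0] 7 (Pf.T 1 18 (Pf.cons (Pf.W 28 1 [] [2,3] (Pf.cons (Pf.C 12 0x608201) Pf.nil)) (Pf.cons (Pf.T 1 23 (Pf.cons (Pf.W 38 1 [] [2,0,3] (Pf.cons (Pf.W 30 2 [] [0,1,3] (Pf.cons (Pf.B 4 3 (Pf.B 4 1 (Pf.W 24 4 [] [0,1,2,3] (Pf.cons (Pf.B 5 3 (Pf.T 3 17 (Pf.cons (Pf.W 26 3 [] [0,5] (Pf.cons (Pf.C 3 82688) (Pf.cons (Pf.C 3 82688) Pf.nil))) (Pf.cons (Pf.T 3 20 (Pf.cons (Pf.W 32 3 [] [0,1,2,4,5] (Pf.cons (Pf.B 6 4 (Pf.B 6 1 (Pf.W 9 0 [5] [1,2,3,4,6] (Pf.cons (Pf.B 7 6 (Pf.B 7 4 (Pf.B 7 3 (Pf.B 7 1 (Pf.C 1 0x3030200384) (Pf.C 12 0x608381)) (Pf.C 5 98695)) (Pf.C 5 900)) (Pf.C 5 902)) (Pf.cons (Pf.C 3 82816) Pf.nil))) (Pf.C 6 16774)) (Pf.C 5 49924))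 (Pf.cons (Pf.B 6 4 (Pf.B 6 1 (Pf.W 9 0 [5] [1,2,3,4,6] (Pf.cons (Pf.B 7 6 (Pf.B 7 4 (Pf.B 7 3 (Pf.B 7 1 (Pf.C 1 0x3030200384) (Pf.C 12 0x608381)) (Pf.C 5 98695)) (Pf.C 5 900)) (Pf.C 5 902)) (Pf.cons (Pf.C 3 82816) Pf.nil))) (Pf.C 6 16774)) (Pf.C 5 49924)) (Pf.cons (Pf.C 3 17155) Pf.nil)))) (Pf.cons (Pf.T 3 22 (Pf.cons (Pf.W 36 3 [] [0,1,2,4,5] (Pf.cons (Pf.B 6 5 (Pf.B 6 4 (Pf.B 6 2 (Pf.B 6 1 (Pf.W 30 6 [] [0,1,2,3,4,5] (Pf.cons (Pf.B 7 3 (Pf.C 5 49927) (Pf.C 33 899)) (Pf.cons (Pf.B 7 4 (Pf.B 7 3 (Pf.B 7 2 (Pf.C 1 0x1860e10100) (Pf.C 3 17282)) (Pf.C 33 899)) (Pf.C 3 82820)) Pf.nil))) (Pf.C 6 16774)) (Pf.C 5 65798)) (Pf.C 5 49924)) (Pf.C 25 646)) (Pf.cons (Pf.B 6 5 (Pf.B 6 4 (Pf.B 6 2 (Pf.B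 6 1 (Pf.W 32 6 [] [0,1,2,3,4,5] (Pf.cons (Pf.B 7 3 (Pf.C 5 49927) (Pf.C 33 899)) (Pf.cons (Pf.B 7 3 (Pf.C 5 49927) (Pf.C 33 899)) (Pf.cons (Pf.B 7 4 (Pf.B 7 3 (Pf.B 7 2 (Pf.C 1 0x1860e10100) (Pf.C 3 17282)) (Pf.C 33 899)) (Pf.C 3 82820)) Pf.nil)))) (Pf.C 6 16774)) (Pf.C 5 65798)) (Pf.C 5 49924)) (Pf.C 27 646)) Pf.nil))) Pf.nil)) Pf.nil))) Pf.nil))) (Pf.C 3 17027)) (Pf.cons (Pf.B 5 3 (Pf.T 3 17 (Pf.cons (Pf.W 26 3 [] [0,5] (Pf.cons (Pf.C 3 82688) (Pf.cons (Pf.C 3 82688) Pf.nil))) (Pf.cons (Pf.T 3 20 (Pf.cons (Pf.W 32 3 [] [0,1,2,4,5] (Pf.cons (Pf.B 6 5 (Pf.B 6 4 (Pf.B 6 2 (Pf.B 6 1 (Pf.W 24 6 [] [0,5] (Pf.cons (Pf.C 3 82816) (Pf.cons (Pf.C 3 82816) Pf.nil))) (Pf.C 6 16774)) (Pf.C 5 65798))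 (Pf.C 5 49924)) (Pf.C 12 0x800305)) (Pf.cons (Pf.B 6 5 (Pf.B 6 4 (Pf.B 6 2 (Pf.B 6 1 (Pf.W 26 6 [] [0,5] (Pf.cons (Pf.C 3 82816) (Pf.cons (Pf.C 3 82816) Pf.nil))) (Pf.C 6 16774)) (Pf.C 5 65798)) (Pf.C 5 49924)) (Pf.C 12 0x800305)) (Pf.cons (Pf.C 3 17155) Pf.nil)))) (Pf.cons (Pf.T 3 22 (Pf.cons (Pf.W 36 3 [] [0,1,2,4,5] (Pf.cons (Pf.B 6 5 (Pf.B 6 4 (Pf.B 6 2 (Pf.B 6 1 (Pf.W 30 6 [] [0,1,2,3,4,5] (Pf.cons (Pf.B 7 3 (Pf.C 5 49927) (Pf.C 33 899)) (Pf.cons (Pf.B 7 4 (Pf.B 7 3 (Pf.B 7 2 (Pf.C 1 0x1860e10100) (Pf.C 3 17282)) (Pf.C 33 899)) (Pf.C 3 82820)) Pf.nil))) (Pf.C 6 16774)) (Pf.C 5 65798)) (Pf.C 5 49924)) (Pf.C 25 646)) (Pf.cons (Pf.B 6 5 (Pf.B 6 4 (Pf.B 6 2 (Pf.B 6 1 (Pf.W 32 6 [] [0,1,2,3,4,5]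 (Pf.cons (Pf.B 7 3 (Pf.C 5 49927) (Pf.C 33 899)) (Pf.cons (Pf.B 7 3 (Pf.C 5 49927) (Pf.C 33 899)) (Pf.cons (Pf.B 7 4 (Pf.B 7 3 (Pf.B 7 2 (Pf.C 1 0x1860e10100) (Pf.C 3 17282)) (Pf.C 33 899)) (Pf.C 3 82820)) Pf.nil)))) (Pf.C 6 16774)) (Pf.C 5 65798)) (Pf.C 5 49924)) (Pf.C 27 646)) Pf.nil))) Pf.nil)) Pf.nil))) Pf.nil))) (Pf.C 3 17027)) Pf.nil))) (Pf.C 6 16644)) (Pf.C 5 33283)) (Pf.cons (Pf.C 3 16898) Pf.nil))) (Pf.cons (Pf.C 12 0x608201) (Pf.cons (Pf.W 32 3 [] [0,1,2] (Pf.cons (Pf.B 4 2 (Pf.B 4 1 (Pf.W 24 4 [] [1,3] (Pf.cons (Pf.W 9 4 [3,5] [1] (Pf.cons (Pf.B 6 3 (Pf.C 5 49670) (Pf.C 10 0x804303)) (Pf.cons (Pf.C 3 82692) Pf.nil))) (Pf.cons (Pf.W 9 4 [3,5] [1] (Pf.cons (Pf.B 6 3 (Pf.C 5 49670)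 (Pf.C 10 0x804303)) (Pf.cons (Pf.C 3 82692) Pf.nil))) Pf.nil))) (Pf.C 6 16772)) (Pf.C 5 49666)) (Pf.cons (Pf.B 4 2 (Pf.B 4 1 (Pf.W 26 4 [] [0,1,2,3] (Pf.cons (Pf.B 5 2 (Pf.T 2 16 (Pf.cons (Pf.W 24 2 [] [0,5] (Pf.cons (Pf.C 3 82688) (Pf.cons (Pf.C 3 82688) Pf.nil))) (Pf.cons (Pf.T 2 19 (Pf.cons (Pf.W 30 2 [] [0,1,3,4,5] (Pf.cons (Pf.B 6 4 (Pf.B 6 1 (Pf.W 9 0 [5] [1,2,3,4,6] (Pf.cons (Pf.B 7 6 (Pf.B 7 4 (Pf.B 7 2 (Pf.B 7 1 (Pf.C 1 0x3020200384) (Pf.C 12 0x608381)) (Pf.C 5 98567)) (Pf.C 5 900)) (Pf.C 5 902)) (Pf.cons (Pf.C 3 82816) Pf.nil))) (Pf.C 6 16646)) (Pf.C 5 33540)) (Pf.cons (Pf.C 3 17154) Pf.nil))) (Pf.cons (Pf.T 2 21 (Pf.cons (Pf.W 34 2 [] [0,1,3,4,5] (Pf.cons (Pf.B 6 5 (Pf.B 6 4 (Pf.B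 6 3 (Pf.B 6 1 (Pf.W 30 6 [] [0,1,2,3,4,5] (Pf.cons (Pf.B 7 2 (Pf.C 5 33543) (Pf.C 31 898)) (Pf.cons (Pf.B 7 4 (Pf.B 7 3 (Pf.B 7 2 (Pf.C 1 0x1060e10180) (Pf.C 31 898)) (Pf.C 3 17283)) (Pf.C 3 82820)) Pf.nil))) (Pf.C 6 16646)) (Pf.C 5 65926)) (Pf.C 5 33540)) (Pf.C 25 646)) Pf.nil)) Pf.nil)) Pf.nil))) Pf.nil))) (Pf.C 3 17026)) (Pf.cons (Pf.B 5 2 (Pf.T 2 16 (Pf.cons (Pf.W 24 2 [] [0,5] (Pf.cons (Pf.C 3 82688) (Pf.cons (Pf.C 3 82688) Pf.nil))) (Pf.cons (Pf.T 2 19 (Pf.cons (Pf.W 30 2 [] [0,1,3,4,5] (Pf.cons (Pf.B 6 5 (Pf.B 6 4 (Pf.B 6 3 (Pf.B 6 1 (Pf.W 24 6 [] [0,5] (Pf.cons (Pf.C 3 82816) (Pf.cons (Pf.C 3 82816) Pf.nil))) (Pf.C 6 16646)) (Pf.C 5 65926)) (Pf.C 5 33540)) (Pf.C 12 0x800305)) (Pf.cons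 (Pf.C 3 17154) Pf.nil))) (Pf.cons (Pf.T 2 21 (Pf.cons (Pf.W 34 2 [] [0,1,3,4,5] (Pf.cons (Pf.B 6 5 (Pf.B 6 4 (Pf.B 6 3 (Pf.B 6 1 (Pf.W 30 6 [] [0,1,2,3,4,5] (Pf.cons (Pf.B 7 2 (Pf.C 5 33543) (Pf.C 31 898)) (Pf.cons (Pf.B 7 4 (Pf.B 7 3 (Pf.B 7 2 (Pf.C 1 0x1060e10180) (Pf.C 31 898)) (Pf.C 3 17283)) (Pf.C 3 82820)) Pf.nil))) (Pf.C 6 16646)) (Pf.C 5 65926)) (Pf.C 5 33540)) (Pf.C 25 646)) Pf.nil)) Pf.nil)) Pf.nil))) Pf.nil))) (Pf.C 3 17026)) Pf.nil))) (Pf.C 6 16772)) (Pf.C 5 49666)) (Pf.cons (Pf.C 3 16899) Pf.nil)))) (Pf.cons (Pf.C 12 0x608201) Pf.nil))))) (Pf.cons (Pf.T 1 24 (Pf.cons (Pf.W 40 1 [] [2,0,3] (Pf.cons (Pf.W 34 2 [] [0,1,3] (Pf.cons (Pf.B 4 3 (Pf.B 4 1 (Pf.W 30 4 [] [0,1,2,3] (Pf.cons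 (Pf.B 5 2 (Pf.C 5 33285) (Pf.C 31 642)) (Pf.cons (Pf.B 5 3 (Pf.B 5 2 (Pf.W 28 5 [] [0,1,2,3,4] (Pf.cons (Pf.B 6 4 (Pf.B 6 3 (Pf.B 6 2 (Pf.W 9 0 [6] [1,2,3,4,5] (Pf.cons (Pf.B 7 6 (Pf.C 5 98311) (Pf.B 7 5 (Pf.B 7 4 (Pf.B 7 3 (Pf.B 7 2 (Pf.C 1 0x2840400383) (Pf.C 5 65799)) (Pf.C 5 899)) (Pf.C 5 900)) (Pf.C 6 82695))) (Pf.cons (Pf.B 7 6 (Pf.B 7 4 (Pf.B 7 3 (Pf.B 7 2 (Pf.C 1 0x3000e10103) (Pf.C 3 17282)) (Pf.C 3 17283)) (Pf.C 3 82820)) (Pf.C 3 82822)) Pf.nil))) (Pf.C 5 65798)) (Pf.C 5 771)) (Pf.C 5 772)) Pf.nil)) (Pf.C 31 642)) (Pf.C 3 17027)) Pf.nil))) (Pf.C 39 513)) (Pf.C 5 33283)) Pf.nil)) (Pf.cons (Pf.C 12 0x608201) (Pf.cons (Pf.W 36 3 [] [0,1,2] (Pf.cons (Pf.B 4 2 (Pf.B 4 1 (Pf.W 30 4 []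 [1,3] (Pf.cons (Pf.B 5 3 (Pf.C 5 49669) (Pf.C 33 643)) (Pf.cons (Pf.W 9 4 [3,5] [1] (Pf.cons (Pf.B 6 3 (Pf.C 5 49670) (Pf.C 10 0x804303)) (Pf.cons (Pf.C 3 82692) Pf.nil))) Pf.nil))) (Pf.C 39 513)) (Pf.C 5 49666)) (Pf.cons (Pf.B 4 2 (Pf.B 4 1 (Pf.W 32 4 [] [0,1,2,3] (Pf.cons (Pf.B 5 3 (Pf.C 5 49669) (Pf.C 33 643)) (Pf.cons (Pf.B 5 3 (Pf.C 5 49669) (Pf.C 33 643)) (Pf.cons (Pf.B 5 3 (Pf.B 5 2 (Pf.W 28 5 [] [0,1,2,3,4] (Pf.cons (Pf.B 6 4 (Pf.B 6 3 (Pf.B 6 2 (Pf.W 9 0 [6] [1,2,3,4,5] (Pf.cons (Pf.B 7 6 (Pf.C 5 98311) (Pf.B 7 5 (Pf.B 7 4 (Pf.B 7 3 (Pf.B 7 2 (Pf.C 1 0x2840600382) (Pf.C 5 898)) (Pf.C 5 65927)) (Pf.C 5 900)) (Pf.C 6 82695))) (Pf.cons (Pf.B 7 6 (Pf.B 7 4 (Pf.B 7 3 (Pf.B 7 2 (Pf.C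 1 0x3000e10182) (Pf.C 3 17282)) (Pf.C 3 17283)) (Pf.C 3 82820)) (Pf.C 3 82822)) Pf.nil))) (Pf.C 5 770)) (Pf.C 5 65926)) (Pf.C 5 772)) Pf.nil)) (Pf.C 3 17026)) (Pf.C 33 643)) Pf.nil)))) (Pf.C 39 513)) (Pf.C 5 49666)) Pf.nil))) (Pf.cons (Pf.C 12 0x608201) Pf.nil))))) Pf.nil)) Pf.nil))) Pf.nil))))
 (Pq.cons (Pq.L [] 2 (Pf.C 2 385))
 Pq.nil))))) (Pq.cons (Pq.D 2 (Pq.cons (Pq.L [] 7 (Pf.C 6 16770))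
 (Pq.cons (Pq.L [0] 4 (Pf.C 5 49154))
 (Pq.cons (Pq.L [] 7 (Pf.C 6 16770))
 (Pq.cons (Pq.L [] 2 (Pf.C 2 385))
 Pq.nil))))) (Pq.cons (Pq.D 2 (Pq.cons (Pq.L [0] 7 (Pf.T 1 18 (Pf.cons (Pf.W 28 1 [] [2,3] (Pf.cons (Pf.C 12 0x608201) Pf.nil)) (Pf.cons (Pf.T 1 23 (Pf.cons (Pf.W 38 1 [] [2,0,3] (Pf.cons (Pf.W 30 3 [] [0,1,2] (Pf.cons (Pf.B 4 2 (Pf.B 4 1 (Pf.W 24 4 [] [0,1,2,3] (Pf.cons (Pf.B 5 2 (Pf.T 2 17 (Pf.cons (Pf.W 26 2 [] [0,5] (Pf.cons (Pf.C 3 82688) (Pf.cons (Pf.C 3 82688) Pf.nil))) (Pf.cons (Pf.T 2 20 (Pf.cons (Pf.W 32 2 [] [0,1,3,4,5] (Pf.cons (Pf.B 6 4 (Pf.B 6 1 (Pf.W 9 0 [5] [1,2,3,4,6] (Pf.cons (Pf.B 7 6 (Pf.B 7 4 (Pf.B 7 2 (Pf.B 7 1 (Pf.C 1 0x3020200384) (Pf.C 12 0x608381)) (Pf.C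 5 98567)) (Pf.C 5 900)) (Pf.C 5 902)) (Pf.cons (Pf.C 3 82816) Pf.nil))) (Pf.C 6 16646)) (Pf.C 5 33540)) (Pf.cons (Pf.B 6 4 (Pf.B 6 1 (Pf.W 9 0 [5] [1,2,3,4,6] (Pf.cons (Pf.B 7 6 (Pf.B 7 4 (Pf.B 7 2 (Pf.B 7 1 (Pf.C 1 0x3020200384) (Pf.C 12 0x608381)) (Pf.C 5 98567)) (Pf.C 5 900)) (Pf.C 5 902)) (Pf.cons (Pf.C 3 82816) Pf.nil))) (Pf.C 6 16646)) (Pf.C 5 33540)) (Pf.cons (Pf.C 3 17154) Pf.nil)))) (Pf.cons (Pf.T 2 22 (Pf.cons (Pf.W 36 2 [] [0,1,3,4,5] (Pf.cons (Pf.B 6 5 (Pf.B 6 4 (Pf.B 6 3 (Pf.B 6 1 (Pf.W 30 6 [] [0,1,2,3,4,5] (Pf.cons (Pf.B 7 2 (Pf.C 5 33543) (Pf.C 33 898)) (Pf.cons (Pf.B 7 4 (Pf.B 7 3 (Pf.B 7 2 (Pf.C 1 0x1060e10180) (Pf.C 33 898)) (Pf.C 3 17283)) (Pf.C 3 82820)) Pf.nil))) (Pf.C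 6 16646)) (Pf.C 5 65926)) (Pf.C 5 33540)) (Pf.C 25 646)) (Pf.cons (Pf.B 6 5 (Pf.B 6 4 (Pf.B 6 3 (Pf.B 6 1 (Pf.W 32 6 [] [0,1,2,3,4,5] (Pf.cons (Pf.B 7 2 (Pf.C 5 33543) (Pf.C 33 898)) (Pf.cons (Pf.B 7 2 (Pf.C 5 33543) (Pf.C 33 898)) (Pf.cons (Pf.B 7 4 (Pf.B 7 3 (Pf.B 7 2 (Pf.C 1 0x1060e10180) (Pf.C 33 898)) (Pf.C 3 17283)) (Pf.C 3 82820)) Pf.nil)))) (Pf.C 6 16646)) (Pf.C 5 65926)) (Pf.C 5 33540)) (Pf.C 27 646)) Pf.nil))) Pf.nil)) Pf.nil))) Pf.nil))) (Pf.C 3 17026)) (Pf.cons (Pf.B 5 2 (Pf.T 2 17 (Pf.cons (Pf.W 26 2 [] [0,5] (Pf.cons (Pf.C 3 82688) (Pf.cons (Pf.C 3 82688) Pf.nil))) (Pf.cons (Pf.T 2 20 (Pf.cons (Pf.W 32 2 [] [0,1,3,4,5] (Pf.cons (Pf.B 6 5 (Pf.B 6 4 (Pf.B 6 3 (Pf.B 6 1 (Pf.W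 24 6 [] [0,5] (Pf.cons (Pf.C 3 82816) (Pf.cons (Pf.C 3 82816) Pf.nil))) (Pf.C 6 16646)) (Pf.C 5 65926)) (Pf.C 5 33540)) (Pf.C 12 0x800305)) (Pf.cons (Pf.B 6 5 (Pf.B 6 4 (Pf.B 6 3 (Pf.B 6 1 (Pf.W 26 6 [] [0,5] (Pf.cons (Pf.C 3 82816) (Pf.cons (Pf.C 3 82816) Pf.nil))) (Pf.C 6 16646)) (Pf.C 5 65926)) (Pf.C 5 33540)) (Pf.C 12 0x800305)) (Pf.cons (Pf.C 3 17154) Pf.nil)))) (Pf.cons (Pf.T 2 22 (Pf.cons (Pf.W 36 2 [] [0,1,3,4,5] (Pf.cons (Pf.B 6 5 (Pf.B 6 4 (Pf.B 6 3 (Pf.B 6 1 (Pf.W 30 6 [] [0,1,2,3,4,5] (Pf.cons (Pf.B 7 2 (Pf.C 5 33543) (Pf.C 33 898)) (Pf.cons (Pf.B 7 4 (Pf.B 7 3 (Pf.B 7 2 (Pf.C 1 0x1060e10180) (Pf.C 33 898)) (Pf.C 3 17283)) (Pf.C 3 82820)) Pf.nil))) (Pf.C 6 16646)) (Pf.C 5 65926))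 (Pf.C 5 33540)) (Pf.C 25 646)) (Pf.cons (Pf.B 6 5 (Pf.B 6 4 (Pf.B 6 3 (Pf.B 6 1 (Pf.W 32 6 [] [0,1,2,3,4,5] (Pf.cons (Pf.B 7 2 (Pf.C 5 33543) (Pf.C 33 898)) (Pf.cons (Pf.B 7 2 (Pf.C 5 33543) (Pf.C 33 898)) (Pf.cons (Pf.B 7 4 (Pf.B 7 3 (Pf.B 7 2 (Pf.C 1 0x1060e10180) (Pf.C 33 898)) (Pf.C 3 17283)) (Pf.C 3 82820)) Pf.nil)))) (Pf.C 6 16646)) (Pf.C 5 65926)) (Pf.C 5 33540)) (Pf.C 27 646)) Pf.nil))) Pf.nil)) Pf.nil))) Pf.nil))) (Pf.C 3 17026)) Pf.nil))) (Pf.C 6 16772)) (Pf.C 5 49666)) (Pf.cons (Pf.C 3 16899) Pf.nil))) (Pf.cons (Pf.C 12 0x608201) (Pf.cons (Pf.W 32 2 [] [0,1,3] (Pf.cons (Pf.B 4 3 (Pf.B 4 1 (Pf.W 24 4 [] [1,2] (Pf.cons (Pf.W 9 4 [2,5] [1] (Pf.cons (Pf.B 6 2 (Pf.C 5 33286) (Pf.C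 10 0x804302)) (Pf.cons (Pf.C 3 82692) Pf.nil))) (Pf.cons (Pf.W 9 4 [2,5] [1] (Pf.cons (Pf.B 6 2 (Pf.C 5 33286) (Pf.C 10 0x804302)) (Pf.cons (Pf.C 3 82692) Pf.nil))) Pf.nil))) (Pf.C 6 16644)) (Pf.C 5 33283)) (Pf.cons (Pf.B 4 3 (Pf.B 4 1 (Pf.W 26 4 [] [0,1,2,3] (Pf.cons (Pf.B 5 3 (Pf.T 3 16 (Pf.cons (Pf.W 24 3 [] [0,5] (Pf.cons (Pf.C 3 82688) (Pf.cons (Pf.C 3 82688) Pf.nil))) (Pf.cons (Pf.T 3 19 (Pf.cons (Pf.W 30 3 [] [0,1,2,4,5] (Pf.cons (Pf.B 6 4 (Pf.B 6 1 (Pf.W 9 0 [5] [1,2,3,4,6] (Pf.cons (Pf.B 7 6 (Pf.B 7 4 (Pf.B 7 3 (Pf.B 7 1 (Pf.C 1 0x3030200384) (Pf.C 12 0x608381)) (Pf.C 5 98695)) (Pf.C 5 900)) (Pf.C 5 902)) (Pf.cons (Pf.C 3 82816) Pf.nil))) (Pf.C 6 16774)) (Pf.C 5 49924)) (Pf.cons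 (Pf.C 3 17155) Pf.nil))) (Pf.cons (Pf.T 3 21 (Pf.cons (Pf.W 34 3 [] [0,1,2,4,5] (Pf.cons (Pf.B 6 5 (Pf.B 6 4 (Pf.B 6 2 (Pf.B 6 1 (Pf.W 30 6 [] [0,1,2,3,4,5] (Pf.cons (Pf.B 7 3 (Pf.C 5 49927) (Pf.C 31 899)) (Pf.cons (Pf.B 7 4 (Pf.B 7 3 (Pf.B 7 2 (Pf.C 1 0x1860e10100) (Pf.C 3 17282)) (Pf.C 31 899)) (Pf.C 3 82820)) Pf.nil))) (Pf.C 6 16774)) (Pf.C 5 65798)) (Pf.C 5 49924)) (Pf.C 25 646)) Pf.nil)) Pf.nil)) Pf.nil))) Pf.nil))) (Pf.C 3 17027)) (Pf.cons (Pf.B 5 3 (Pf.T 3 16 (Pf.cons (Pf.W 24 3 [] [0,5] (Pf.cons (Pf.C 3 82688) (Pf.cons (Pf.C 3 82688) Pf.nil))) (Pf.cons (Pf.T 3 19 (Pf.cons (Pf.W 30 3 [] [0,1,2,4,5] (Pf.cons (Pf.B 6 5 (Pf.B 6 4 (Pf.B 6 2 (Pf.B 6 1 (Pf.W 24 6 [] [0,5] (Pf.cons (Pf.C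 3 82816) (Pf.cons (Pf.C 3 82816) Pf.nil))) (Pf.C 6 16774)) (Pf.C 5 65798)) (Pf.C 5 49924)) (Pf.C 12 0x800305)) (Pf.cons (Pf.C 3 17155) Pf.nil))) (Pf.cons (Pf.T 3 21 (Pf.cons (Pf.W 34 3 [] [0,1,2,4,5] (Pf.cons (Pf.B 6 5 (Pf.B 6 4 (Pf.B 6 2 (Pf.B 6 1 (Pf.W 30 6 [] [0,1,2,3,4,5] (Pf.cons (Pf.B 7 3 (Pf.C 5 49927) (Pf.C 31 899)) (Pf.cons (Pf.B 7 4 (Pf.B 7 3 (Pf.B 7 2 (Pf.C 1 0x1860e10100) (Pf.C 3 17282)) (Pf.C 31 899)) (Pf.C 3 82820)) Pf.nil))) (Pf.C 6 16774)) (Pf.C 5 65798)) (Pf.C 5 49924)) (Pf.C 25 646)) Pf.nil)) Pf.nil)) Pf.nil))) Pf.nil))) (Pf.C 3 17027)) Pf.nil))) (Pf.C 6 16644)) (Pf.C 5 33283)) (Pf.cons (Pf.C 3 16898) Pf.nil)))) (Pf.cons (Pf.C 12 0x608201) Pf.nil))))) (Pf.cons (Pf.T 1 24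 (Pf.cons (Pf.W 40 1 [] [2,0,3] (Pf.cons (Pf.W 34 3 [] [0,1,2] (Pf.cons (Pf.B 4 2 (Pf.B 4 1 (Pf.W 30 4 [] [0,1,2,3] (Pf.cons (Pf.B 5 3 (Pf.C 5 49669) (Pf.C 31 643)) (Pf.cons (Pf.B 5 3 (Pf.B 5 2 (Pf.W 28 5 [] [0,1,2,3,4] (Pf.cons (Pf.B 6 4 (Pf.B 6 3 (Pf.B 6 2 (Pf.W 9 0 [6] [1,2,3,4,5] (Pf.cons (Pf.B 7 6 (Pf.C 5 98311) (Pf.B 7 5 (Pf.B 7 4 (Pf.B 7 3 (Pf.B 7 2 (Pf.C 1 0x2840600382) (Pf.C 5 898)) (Pf.C 5 65927)) (Pf.C 5 900)) (Pf.C 6 82695))) (Pf.cons (Pf.B 7 6 (Pf.B 7 4 (Pf.B 7 3 (Pf.B 7 2 (Pf.C 1 0x3000e10182) (Pf.C 3 17282)) (Pf.C 3 17283)) (Pf.C 3 82820)) (Pf.C 3 82822)) Pf.nil))) (Pf.C 5 770)) (Pf.C 5 65926)) (Pf.C 5 772)) Pf.nil)) (Pf.C 3 17026)) (Pf.C 31 643)) Pf.nil))) (Pf.C 39 513)) (Pf.C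 5 49666)) Pf.nil)) (Pf.cons (Pf.C 12 0x608201) (Pf.cons (Pf.W 36 2 [] [0,1,3] (Pf.cons (Pf.B 4 3 (Pf.B 4 1 (Pf.W 30 4 [] [1,2] (Pf.cons (Pf.B 5 2 (Pf.C 5 33285) (Pf.C 33 642)) (Pf.cons (Pf.W 9 4 [2,5] [1] (Pf.cons (Pf.B 6 2 (Pf.C 5 33286) (Pf.C 10 0x804302)) (Pf.cons (Pf.C 3 82692) Pf.nil))) Pf.nil))) (Pf.C 39 513)) (Pf.C 5 33283)) (Pf.cons (Pf.B 4 3 (Pf.B 4 1 (Pf.W 32 4 [] [0,1,2,3] (Pf.cons (Pf.B 5 2 (Pf.C 5 33285) (Pf.C 33 642)) (Pf.cons (Pf.B 5 2 (Pf.C 5 33285) (Pf.C 33 642)) (Pf.cons (Pf.B 5 3 (Pf.B 5 2 (Pf.W 28 5 [] [0,1,2,3,4] (Pf.cons (Pf.B 6 4 (Pf.B 6 3 (Pf.B 6 2 (Pf.W 9 0 [6] [1,2,3,4,5] (Pf.cons (Pf.B 7 6 (Pf.C 5 98311) (Pf.B 7 5 (Pf.B 7 4 (Pf.B 7 3 (Pf.B 7 2 (Pf.C 1 0x2840400383)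 (Pf.C 5 65799)) (Pf.C 5 899)) (Pf.C 5 900)) (Pf.C 6 82695))) (Pf.cons (Pf.B 7 6 (Pf.B 7 4 (Pf.B 7 3 (Pf.B 7 2 (Pf.C 1 0x3000e10103) (Pf.C 3 17282)) (Pf.C 3 17283)) (Pf.C 3 82820)) (Pf.C 3 82822)) Pf.nil))) (Pf.C 5 65798)) (Pf.C 5 771)) (Pf.C 5 772)) Pf.nil)) (Pf.C 33 642)) (Pf.C 3 17027)) Pf.nil)))) (Pf.C 39 513)) (Pf.C 5 33283)) Pf.nil))) (Pf.cons (Pf.C 12 0x608201) Pf.nil))))) Pf.nil)) Pf.nil))) Pf.nil))))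
 (Pq.cons (Pq.L [] 7 (Pf.C 6 16770))
 (Pq.cons (Pq.L [] 7 (Pf.C 6 16770))
 (Pq.cons (Pq.L [] 2 (Pf.C 2 385))
 Pq.nil))))) (Pq.cons (Pq.L [] 1 (Pf.C 2 257))
 Pq.nil))))) Pq.nil)
theorem e1_o30 : AllRef e1_T e1_G40 (List.drop 1 (List.drop 1 (List.drop 1 (List.flatMap (splitP 0) (List.take 1 (applyObl d_T 2 [35,36,37,41] [0,0,0,0] [(35,0x2800000000),(36,0x1000000000),(37,0x800000000),(41,0x20000000000)])))))) :=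
  chkPq_sound e1_o30c _ (by decide +kernel)
noncomputable def e1_o31c : Pq := (Pq.cons (Pq.D 1 (Pq.cons (Pq.D 2 (Pq.cons (Pq.L [] 67 (Pf.C 5 49282))
 (Pq.cons (Pq.L [] 67 (Pf.C 5 49409))
 (Pq.cons (Pq.L [] 67 (Pf.C 5 49282))
 (Pq.cons (Pq.D 3 (Pq.cons (Pq.L [] 133 (Pf.C 5 65666))
 (Pq.cons (Pq.L [] 133 (Pf.C 5 65793))
 (Pq.cons (Pq.L [] 133 (Pf.C 5 65666))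
 (Pq.cons (Pq.L [] 192 (Pf.C 3 65922))
 Pq.nil))))) Pq.nil))))) (Pq.cons (Pq.D 2 (Pq.cons (Pq.L [] 67 (Pf.C 5 33153))
 (Pq.cons (Pq.L [0] 67 (Pf.C 4 0x20c100))
 (Pq.cons (Pq.L [] 67 (Pf.C 5 33153))
 (Pq.cons (Pq.D 3 (Pq.cons (Pq.L [] 133 (Pf.C 5 33281))
 (Pq.cons (Pq.L [0] 133 (Pf.C 4 0x210100))
 (Pq.cons (Pq.L [] 133 (Pf.C 5 33281))
 (Pq.cons (Pq.L [] 192 (Pf.C 3 65922))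
 Pq.nil))))) Pq.nil))))) (Pq.cons (Pq.D 2 (Pq.cons (Pq.L [] 67 (Pf.C 5 49282))
 (Pq.cons (Pq.L [] 67 (Pf.C 5 49409))
 (Pq.cons (Pq.D 3 (Pq.cons (Pq.L [] 133 (Pf.C 5 65666))
 (Pq.cons (Pq.L [] 133 (Pf.C 5 65793))
 (Pq.cons (Pq.L [] 2054 (Pf.C 5 65667))
 (Pq.cons (Pq.L [] 193 (Pf.C 10 0x80c082))
 Pq.nil))))) (Pq.cons (Pq.D 3 (Pq.cons (Pq.L [] 133 (Pf.C 5 65666))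
 (Pq.cons (Pq.L [] 133 (Pf.C 5 65793))
 (Pq.cons (Pq.L [] 193 (Pf.C 10 0x80c082))
 (Pq.cons (Pq.L [] 193 (Pf.C 10 0x80c082))
 Pq.nil))))) Pq.nil))))) (Pq.cons (Pq.D 2 (Pq.cons (Pq.D 3 (Pq.cons (Pq.L [] 2247 (Pf.C 0 0x410181))
 (Pq.cons (Pq.D 4 (Pq.cons (Pq.L [] 4427 (Pf.C 0 0x414181))
 (Pq.cons (Pq.L [] 33152 (Pf.C 6 33412))
 (Pq.cons (Pq.L [] 4427 (Pf.C 0 0x414181))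
 (Pq.cons (Pq.L [] 256 (Pf.C 2 642))
 Pq.nil))))) (Pq.cons (Pq.L [] 2247 (Pf.C 0 0x410181))
 (Pq.cons (Pq.L [] 128 (Pf.C 2 514))
 Pq.nil))))) (Pq.cons (Pq.D 3 (Pq.cons (Pq.D 4 (Pq.cons (Pq.L [] 33165 (Pf.C 0 0x414201))
 (Pq.cons (Pq.L [] 4416 (Pf.C 6 33411))
 (Pq.cons (Pq.L [] 33165 (Pf.C 0 0x414201))
 (Pq.cons (Pq.L [] 256 (Pf.C 2 642))
 Pq.nil))))) (Pq.cons (Pq.L [] 2240 (Pf.C 6 33283))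
 (Pq.cons (Pq.D 4 (Pq.cons (Pq.L [] 33165 (Pf.C 0 0x414201))
 (Pq.cons (Pq.L [] 4416 (Pf.C 6 33411))
 (Pq.cons (Pq.L [] 32780 (Pf.C 5 82052))
 (Pq.cons (Pq.L [] 256 (Pf.C 2 642))
 Pq.nil))))) (Pq.cons (Pq.L [] 128 (Pf.C 2 514))
 Pq.nil))))) (Pq.cons (Pq.D 3 (Pq.cons (Pq.L [] 2247 (Pf.C 0 0x410181))
 (Pq.cons (Pq.D 4 (Pq.cons (Pq.L [] 4427 (Pf.C 0 0x414181))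
 (Pq.cons (Pq.L [] 33152 (Pf.C 6 33412))
 (Pq.cons (Pq.L [] 4106 (Pf.C 5 82051))
 (Pq.cons (Pq.L [] 256 (Pf.C 2 642))
 Pq.nil))))) (Pq.cons (Pq.L [] 2054 (Pf.C 5 65667))
 (Pq.cons (Pq.L [] 128 (Pf.C 2 514))
 Pq.nil))))) (Pq.cons (Pq.L [] 64 (Pf.C 2 386))
 Pq.nil))))) Pq.nil))))) (Pq.cons (Pq.D 1 (Pq.cons (Pq.D 2 (Pq.cons (Pq.D 3 (Pq.cons (Pq.D 4 (Pq.cons (Pq.D 5 (Pq.cons (Pq.L [] 0x4301a (Pf.C 4 0x218283))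
 (Pq.cons (Pq.L [] 0x40018 (Pf.C 5 82689))
 (Pq.cons (Pq.L [] 0x4301a (Pf.C 4 0x218283))
 (Pq.cons (Pq.L [0] 0x4335b (Pf.C 1 0x3050600082))
 Pq.nil))))) (Pq.cons (Pq.L [] 265 (Pf.C 5 33409))
 (Pq.cons (Pq.D 5 (Pq.cons (Pq.L [] 0x4301a (Pf.C 4 0x218283))
 (Pq.cons (Pq.L [] 0x40018 (Pf.C 5 82689))
 (Pq.cons (Pq.L [] 8787 (Pf.C 4 0x20c106))
 (Pq.cons (Pq.L [0] 0x4335b (Pf.C 1 0x3050600082))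
 Pq.nil))))) (Pq.cons (Pq.D 5 (Pq.cons (Pq.L [] 8787 (Pf.C 4 0x20c106))
 (Pq.cons (Pq.D 6 (Pq.cons (Pq.L [] 0x100030 (Pf.C 5 0x1c301))
 (Pq.cons (Pq.L [] 0x100030 (Pf.C 5 0x1c086))
 (Pq.cons (Pq.L [] 0x100030 (Pf.C 5 0x1c301))
 (Pq.cons (Pq.L [] 0xaddef (Pf.C 1 0x3850410181))
 Pq.nil))))) (Pq.cons (Pq.L [] 8787 (Pf.C 4 0x20c106))
 (Pq.cons (Pq.L [] 0x40000 (Pf.C 2 773))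
 Pq.nil))))) Pq.nil))))) (Pq.cons (Pq.L [] 133 (Pf.C 5 33281))
 (Pq.cons (Pq.D 4 (Pq.cons (Pq.D 5 (Pq.cons (Pq.L [] 0x4301a (Pf.C 4 0x218283))
 (Pq.cons (Pq.L [] 0x40018 (Pf.C 5 82689))
 (Pq.cons (Pq.L [] 75798 (Pf.C 4 0x218203))
 (Pq.cons (Pq.L [0] 0x4335b (Pf.C 1 0x3050600082))
 Pq.nil))))) (Pq.cons (Pq.L [] 265 (Pf.C 5 33409))
 (Pq.cons (Pq.L [] 38926 (Pf.C 4 0x214203))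
 (Pq.cons (Pq.D 5 (Pq.cons (Pq.L [] 8787 (Pf.C 4 0x20c106))
 (Pq.cons (Pq.D 6 (Pq.cons (Pq.L [] 0x100030 (Pf.C 5 0x1c301))
 (Pq.cons (Pq.L [] 0x100030 (Pf.C 5 0x1c086))
 (Pq.cons (Pq.L [] 0x100030 (Pf.C 5 0x1c301))
 (Pq.cons (Pq.L [] 0xaddef (Pf.C 1 0x3850410181))
 Pq.nil))))) (Pq.cons (Pq.L [] 75798 (Pf.C 4 0x218203))
 (Pq.cons (Pq.L [] 0x40000 (Pf.C 2 773))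
 Pq.nil))))) Pq.nil))))) (Pq.cons (Pq.D 4 (Pq.cons (Pq.D 5 (Pq.cons (Pq.L [] 0x4301a (Pf.C 4 0x218283))
 (Pq.cons (Pq.L [] 0x40018 (Pf.C 5 82689))
 (Pq.cons (Pq.L [] 0x4301a (Pf.C 4 0x218283))
 (Pq.cons (Pq.L [0] 0x4335b (Pf.C 1 0x3050600082))
 Pq.nil))))) (Pq.cons (Pq.L [] 265 (Pf.C 5 33409))
 (Pq.cons (Pq.D 5 (Pq.cons (Pq.L [] 0x4301a (Pf.C 4 0x218283))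
 (Pq.cons (Pq.L [] 0x40018 (Pf.C 5 82689))
 (Pq.cons (Pq.L [] 8787 (Pf.C 4 0x20c106))
 (Pq.cons (Pq.L [0] 0x4335b (Pf.C 1 0x3050600082))
 Pq.nil))))) (Pq.cons (Pq.L [] 384 (Pf.C 3 82434))
 Pq.nil))))) Pq.nil))))) (Pq.cons (Pq.L [] 67 (Pf.C 5 33153))
 (Pq.cons (Pq.D 3 (Pq.cons (Pq.D 4 (Pq.cons (Pq.D 5 (Pq.cons (Pq.L [] 0x4301a (Pf.C 4 0x218283))
 (Pq.cons (Pq.L [] 0x40018 (Pf.C 5 82689))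
 (Pq.cons (Pq.L [] 75798 (Pf.C 4 0x218184))
 (Pq.cons (Pq.L [0] 0x4335b (Pf.C 1 0x3050600082))
 Pq.nil))))) (Pq.cons (Pq.L [] 265 (Pf.C 5 33409))
 (Pq.cons (Pq.L [] 38926 (Pf.C 4 0x214184))
 (Pq.cons (Pq.D 5 (Pq.cons (Pq.L [] 8787 (Pf.C 4 0x20c106))
 (Pq.cons (Pq.D 6 (Pq.cons (Pq.L [] 0x100030 (Pf.C 5 0x1c301))
 (Pq.cons (Pq.L [] 0x100030 (Pf.C 5 0x1c086))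
 (Pq.cons (Pq.L [] 0x100030 (Pf.C 5 0x1c301))
 (Pq.cons (Pq.L [] 0xaddef (Pf.C 1 0x3850410181))
 Pq.nil))))) (Pq.cons (Pq.L [] 75798 (Pf.C 4 0x218184))
 (Pq.cons (Pq.L [] 0x40000 (Pf.C 2 773))
 Pq.nil))))) Pq.nil))))) (Pq.cons (Pq.L [] 133 (Pf.C 5 33281))
 (Pq.cons (Pq.D 4 (Pq.cons (Pq.L [] 38926 (Pf.C 4 0x210185))
 (Pq.cons (Pq.L [] 265 (Pf.C 5 33409))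
 (Pq.cons (Pq.D 5 (Pq.cons (Pq.L [] 8787 (Pf.C 4 0x20c106))
 (Pq.cons (Pq.L [] 0x40018 (Pf.C 5 82689))
 (Pq.cons (Pq.L [] 0x40319 (Pf.C 4 0x214106))
 (Pq.cons (Pq.D 6 (Pq.cons (Pq.L [] 17507 (Pf.C 4 0x20c107))
 (Pq.cons (Pq.L [0] 0x1f8780 (Pf.T 6 18 (Pf.cons (Pf.T 5 17 (Pf.cons (Pf.W 26 5 [] [6] (Pf.cons (Pf.C 3 99333) (Pf.cons (Pf.C 3 99333) Pf.nil))) (Pf.cons (Pf.T 5 20 (Pf.cons (Pf.T 2 16 (Pf.cons (Pf.W 24 2 [] [4,5,6,7] (Pf.cons (Pf.W 9 2 [8] [4,5,6,7] (Pf.cons (Pf.B 9 7 (Pf.B 9 6 (Pf.B 9 5 (Pf.B 9 4 (Pf.C 1 0x3860a08484) (Pf.C 5 33924)) (Pf.C 5 33925)) (Pf.C 12 0xe14486)) (Pf.C 5 33927)) (Pf.cons (Pf.C 3 0x20482) Pf.nil))) (Pf.cons (Pf.W 9 2 [8] [4,5,6,7] (Pf.cons (Pf.B 9 7 (Pf.B 9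 6 (Pf.B 9 5 (Pf.B 9 4 (Pf.C 1 0x3860a08484) (Pf.C 5 33924)) (Pf.C 5 33925)) (Pf.C 12 0xe14486)) (Pf.C 5 33927)) (Pf.cons (Pf.C 3 0x20482) Pf.nil))) Pf.nil))) (Pf.cons (Pf.T 2 19 (Pf.cons (Pf.W 30 2 [] [0,4,5,6,7] (Pf.cons (Pf.B 8 7 (Pf.B 8 6 (Pf.B 8 4 (Pf.C 1 0x3070008404) (Pf.C 5 33796)) (Pf.C 12 0xe14406)) (Pf.C 5 904)) (Pf.cons (Pf.W 9 2 [8] [4,5,6,7] (Pf.cons (Pf.B 9 7 (Pf.B 9 6 (Pf.B 9 5 (Pf.B 9 4 (Pf.C 1 0x3860a08484) (Pf.C 5 33924)) (Pf.C 5 33925)) (Pf.C 12 0xe14486)) (Pf.C 5 33927)) (Pf.cons (Pf.C 3 0x20482) Pf.nil))) Pf.nil))) (Pf.cons (Pf.T 2 21 (Pf.cons (Pf.W 34 2 [] [0,4,5,6,7] (Pf.cons (Pf.B 8 7 (Pf.B 8 6 (Pf.B 8 4 (Pf.C 1 0x3070008404) (Pf.C 5 33796)) (Pf.C 12 0xe14406)) (Pf.C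 5 904)) Pf.nil)) Pf.nil)) Pf.nil))) Pf.nil))) (Pf.cons (Pf.C 33 773) Pf.nil))) Pf.nil))) (Pf.cons (Pf.C 29 902) Pf.nil))))
 (Pq.cons (Pq.L [0] 0x106673 (Pf.C 1 0x3070400083))
 (Pq.cons (Pq.L [] 0x100000 (Pf.C 2 902))
 Pq.nil))))) Pq.nil))))) (Pq.cons (Pq.D 5 (Pq.cons (Pq.L [] 8787 (Pf.C 4 0x20c106))
 (Pq.cons (Pq.D 6 (Pq.cons (Pq.L [] 0x100030 (Pf.C 5 0x1c301))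
 (Pq.cons (Pq.L [] 0x100030 (Pf.C 5 0x1c086))
 (Pq.cons (Pq.L [] 0x100030 (Pf.C 5 0x1c301))
 (Pq.cons (Pq.L [0] 0x8556b (Pf.C 1 0x3850400083))
 Pq.nil))))) (Pq.cons (Pq.L [] 0x40300 (Pf.C 6 82690))
 (Pq.cons (Pq.L [] 0x40000 (Pf.C 2 773))
 Pq.nil))))) Pq.nil))))) (Pq.cons (Pq.D 4 (Pq.cons (Pq.D 5 (Pq.cons (Pq.L [] 0x4301a (Pf.C 4 0x218283))
 (Pq.cons (Pq.L [] 0x40018 (Pf.C 5 82689))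
 (Pq.cons (Pq.L [] 0x5bbdf (Pf.C 1 0x3020814181))
 (Pq.cons (Pq.L [0] 0x4335b (Pf.C 1 0x3050600082))
 Pq.nil))))) (Pq.cons (Pq.L [] 265 (Pf.C 5 33409))
 (Pq.cons (Pq.D 5 (Pq.cons (Pq.L [] 8787 (Pf.C 4 0x20c106))
 (Pq.cons (Pq.L [] 0x40018 (Pf.C 5 82689))
 (Pq.cons (Pq.L [] 0x40319 (Pf.C 4 0x214106))
 (Pq.cons (Pq.L [0] 76503 (Pf.C 1 0x3040400083))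
 Pq.nil))))) (Pq.cons (Pq.L [] 384 (Pf.C 3 82434))
 Pq.nil))))) Pq.nil))))) (Pq.cons (Pq.D 3 (Pq.cons (Pq.D 4 (Pq.cons (Pq.D 5 (Pq.cons (Pq.L [] 0x5801c (Pf.C 4 0x218284))
 (Pq.cons (Pq.L [] 0x40018 (Pf.C 5 82689))
 (Pq.cons (Pq.L [] 0x5801c (Pf.C 4 0x218284))
 (Pq.cons (Pq.L [0] 0x5839d (Pf.C 1 0x3050800082))
 Pq.nil))))) (Pq.cons (Pq.L [] 265 (Pf.C 5 33409))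
 (Pq.cons (Pq.D 5 (Pq.cons (Pq.L [] 0x5801c (Pf.C 4 0x218284))
 (Pq.cons (Pq.L [] 0x40018 (Pf.C 5 82689))
 (Pq.cons (Pq.L [] 66197 (Pf.C 4 0x210106))
 (Pq.cons (Pq.L [0] 0x5839d (Pf.C 1 0x3050800082))
 Pq.nil))))) (Pq.cons (Pq.L [] 320 (Pf.C 3 82306))
 Pq.nil))))) (Pq.cons (Pq.L [] 133 (Pf.C 5 33281))
 (Pq.cons (Pq.D 4 (Pq.cons (Pq.D 5 (Pq.cons (Pq.L [] 0x5801c (Pf.C 4 0x218284))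
 (Pq.cons (Pq.L [] 0x40018 (Pf.C 5 82689))
 (Pq.cons (Pq.L [] 0x5bbdf (Pf.C 1 0x3020614201))
 (Pq.cons (Pq.L [0] 0x5839d (Pf.C 1 0x3050800082))
 Pq.nil))))) (Pq.cons (Pq.L [] 265 (Pf.C 5 33409))
 (Pq.cons (Pq.D 5 (Pq.cons (Pq.L [] 66197 (Pf.C 4 0x210106))
 (Pq.cons (Pq.L [] 0x40018 (Pf.C 5 82689))
 (Pq.cons (Pq.L [] 0x40319 (Pf.C 4 0x214106))
 (Pq.cons (Pq.L [0] 76503 (Pf.C 1 0x3030400084))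
 Pq.nil))))) (Pq.cons (Pq.L [] 320 (Pf.C 3 82306))
 Pq.nil))))) (Pq.cons (Pq.L [] 192 (Pf.C 3 65922))
 Pq.nil))))) Pq.nil))))) (Pq.cons (Pq.D 2 (Pq.cons (Pq.L [] 67 (Pf.C 5 49409))
 (Pq.cons (Pq.L [] 67 (Pf.C 5 49282))
 (Pq.cons (Pq.L [] 67 (Pf.C 5 49409))
 (Pq.cons (Pq.D 3 (Pq.cons (Pq.L [] 133 (Pf.C 5 65793))
 (Pq.cons (Pq.L [] 133 (Pf.C 5 65666))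
 (Pq.cons (Pq.L [] 133 (Pf.C 5 65793))
 (Pq.cons (Pq.L [] 192 (Pf.C 3 65922))
 Pq.nil))))) Pq.nil))))) (Pq.cons (Pq.D 2 (Pq.cons (Pq.D 3 (Pq.cons (Pq.D 4 (Pq.cons (Pq.D 5 (Pq.cons (Pq.L [] 0x4301a (Pf.C 4 0x218283))
 (Pq.cons (Pq.L [] 0x40018 (Pf.C 5 82689))
 (Pq.cons (Pq.L [] 0x4301a (Pf.C 4 0x218283))
 (Pq.cons (Pq.L [0] 0x4335b (Pf.C 1 0x3050600082))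
 Pq.nil))))) (Pq.cons (Pq.L [] 265 (Pf.C 5 33409))
 (Pq.cons (Pq.L [] 4427 (Pf.C 4 0x20c105))
 (Pq.cons (Pq.D 5 (Pq.cons (Pq.L [] 8787 (Pf.C 4 0x20c106))
 (Pq.cons (Pq.D 6 (Pq.cons (Pq.L [] 0x100030 (Pf.C 5 0x1c301))
 (Pq.cons (Pq.L [] 0x100030 (Pf.C 5 0x1c086))
 (Pq.cons (Pq.L [] 0x100030 (Pf.C 5 0x1c301))
 (Pq.cons (Pq.L [] 0xaddef (Pf.C 1 0x3850410181))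
 Pq.nil))))) (Pq.cons (Pq.L [] 0x52000 (Pf.C 10 0xa10186))
 (Pq.cons (Pq.L [] 0x40000 (Pf.C 2 773))
 Pq.nil))))) Pq.nil))))) (Pq.cons (Pq.L [] 133 (Pf.C 5 33281))
 (Pq.cons (Pq.L [] 2247 (Pf.C 4 0x20c104))
 (Pq.cons (Pq.D 4 (Pq.cons (Pq.D 5 (Pq.cons (Pq.L [] 0x4301a (Pf.C 4 0x218283))
 (Pq.cons (Pq.L [] 0x40018 (Pf.C 5 82689))
 (Pq.cons (Pq.L [] 0x4301a (Pf.C 4 0x218283))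
 (Pq.cons (Pq.L [0] 0x4335b (Pf.C 1 0x3050600082))
 Pq.nil))))) (Pq.cons (Pq.L [] 265 (Pf.C 5 33409))
 (Pq.cons (Pq.L [] 4427 (Pf.C 4 0x20c105))
 (Pq.cons (Pq.L [] 384 (Pf.C 3 82434))
 Pq.nil))))) Pq.nil))))) (Pq.cons (Pq.L [] 67 (Pf.C 5 33153))
 (Pq.cons (Pq.D 3 (Pq.cons (Pq.L [] 2247 (Pf.C 4 0x210103))
 (Pq.cons (Pq.L [] 133 (Pf.C 5 33281))
 (Pq.cons (Pq.L [] 2247 (Pf.C 4 0x210182))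
 (Pq.cons (Pq.D 4 (Pq.cons (Pq.L [] 4427 (Pf.C 4 0x214103))
 (Pq.cons (Pq.L [] 265 (Pf.C 5 33409))
 (Pq.cons (Pq.L [] 4427 (Pf.C 4 0x214182))
 (Pq.cons (Pq.L [] 384 (Pf.C 3 82434))
 Pq.nil))))) Pq.nil))))) (Pq.cons (Pq.D 3 (Pq.cons (Pq.D 4 (Pq.cons (Pq.D 5 (Pq.cons (Pq.L [] 0x5801c (Pf.C 4 0x218284))
 (Pq.cons (Pq.L [] 0x40018 (Pf.C 5 82689))
 (Pq.cons (Pq.L [] 0x5801c (Pf.C 4 0x218284))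
 (Pq.cons (Pq.L [0] 0x5839d (Pf.C 1 0x3050800082))
 Pq.nil))))) (Pq.cons (Pq.L [] 265 (Pf.C 5 33409))
 (Pq.cons (Pq.L [] 33165 (Pf.C 4 0x210105))
 (Pq.cons (Pq.L [] 320 (Pf.C 3 82306))
 Pq.nil))))) (Pq.cons (Pq.L [] 133 (Pf.C 5 33281))
 (Pq.cons (Pq.D 4 (Pq.cons (Pq.L [] 33165 (Pf.C 4 0x214104))
 (Pq.cons (Pq.L [] 265 (Pf.C 5 33409))
 (Pq.cons (Pq.L [] 33165 (Pf.C 4 0x214202))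
 (Pq.cons (Pq.L [] 320 (Pf.C 3 82306))
 Pq.nil))))) (Pq.cons (Pq.L [] 192 (Pf.C 3 65922))
 Pq.nil))))) Pq.nil))))) (Pq.cons (Pq.D 2 (Pq.cons (Pq.D 3 (Pq.cons (Pq.L [] 2240 (Pf.C 6 33283))
 (Pq.cons (Pq.D 4 (Pq.cons (Pq.L [] 4416 (Pf.C 6 33411))
 (Pq.cons (Pq.L [] 33165 (Pf.C 0 0x414201))
 (Pq.cons (Pq.L [] 4416 (Pf.C 6 33411))
 (Pq.cons (Pq.L [] 256 (Pf.C 2 642))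
 Pq.nil))))) (Pq.cons (Pq.L [] 2240 (Pf.C 6 33283))
 (Pq.cons (Pq.L [] 128 (Pf.C 2 514))
 Pq.nil))))) (Pq.cons (Pq.D 3 (Pq.cons (Pq.D 4 (Pq.cons (Pq.L [] 33152 (Pf.C 6 33412))
 (Pq.cons (Pq.L [] 4427 (Pf.C 0 0x414181))
 (Pq.cons (Pq.L [] 33152 (Pf.C 6 33412))
 (Pq.cons (Pq.L [] 256 (Pf.C 2 642))
 Pq.nil))))) (Pq.cons (Pq.L [] 2247 (Pf.C 0 0x410181))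
 (Pq.cons (Pq.D 4 (Pq.cons (Pq.L [] 33152 (Pf.C 6 33412))
 (Pq.cons (Pq.L [] 4427 (Pf.C 0 0x414181))
 (Pq.cons (Pq.L [] 448 (Pf.C 12 0xa10182))
 (Pq.cons (Pq.L [] 256 (Pf.C 2 642))
 Pq.nil))))) (Pq.cons (Pq.L [] 128 (Pf.C 2 514))
 Pq.nil))))) (Pq.cons (Pq.D 3 (Pq.cons (Pq.L [] 2240 (Pf.C 6 33283))
 (Pq.cons (Pq.D 4 (Pq.cons (Pq.L [] 4416 (Pf.C 6 33411))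
 (Pq.cons (Pq.L [] 33165 (Pf.C 0 0x414201))
 (Pq.cons (Pq.L [] 448 (Pf.C 12 0xa10182))
 (Pq.cons (Pq.L [] 256 (Pf.C 2 642))
 Pq.nil))))) (Pq.cons (Pq.D 4 (Pq.cons (Pq.L [] 38926 (Pf.C 4 0x210185))
 (Pq.cons (Pq.L [] 448 (Pf.C 12 0xa10182))
 (Pq.cons (Pq.L [] 448 (Pf.C 12 0xa10182))
 (Pq.cons (Pq.L [0] 39375 (Pf.C 1 0x2020600085))
 Pq.nil))))) (Pq.cons (Pq.L [] 128 (Pf.C 2 514))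
 Pq.nil))))) (Pq.cons (Pq.L [] 64 (Pf.C 2 386))
 Pq.nil))))) Pq.nil))))) Pq.nil))
theorem e1_o31 : AllRef e1_T e1_G40 (List.take 2 (List.flatMap (splitP 0) (List.drop 1 (applyObl d_T 2 [35,36,37,41] [0,0,0,0] [(35,0x2800000000),(36,0x1000000000),(37,0x800000000),(41,0x20000000000)])))) :=
  chkPq_sound e1_o31c _ (by decide +kernel)
noncomputable def e1_o32c : Pq := (Pq.cons (Pq.D 1 (Pq.cons (Pq.D 2 (Pq.cons (Pq.L [] 67 (Pf.C 5 49282))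
 (Pq.cons (Pq.L [] 67 (Pf.C 5 49409))
 (Pq.cons (Pq.D 3 (Pq.cons (Pq.L [] 2054 (Pf.C 5 49665))
 (Pq.cons (Pq.L [] 133 (Pf.C 5 65793))
 (Pq.cons (Pq.D 4 (Pq.cons (Pq.L [] 4106 (Pf.C 5 49793))
 (Pq.cons (Pq.L [] 265 (Pf.C 5 82177))
 (Pq.cons (Pq.D 5 (Pq.cons (Pq.L [] 8210 (Pf.C 5 49921))
 (Pq.cons (Pq.L [0] 0x40018 (Pf.C 4 0x214006))
 (Pq.cons (Pq.L [] 529 (Pf.C 5 98561))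
 (Pq.cons (Pq.D 6 (Pq.cons (Pq.L [] 16418 (Pf.C 5 50049))
 (Pq.cons (Pq.L [0] 0x106673 (Pf.C 1 0x3070008083))
 (Pq.cons (Pq.L [] 1057 (Pf.C 5 0x1c101))
 (Pq.cons (Pq.L [] 0x100000 (Pf.C 2 902))
 Pq.nil))))) Pq.nil))))) (Pq.cons (Pq.D 5 (Pq.cons (Pq.L [] 8210 (Pf.C 5 49921))
 (Pq.cons (Pq.D 6 (Pq.cons (Pq.L [] 16418 (Pf.C 5 50049))
 (Pq.cons (Pq.L [0] 0x100030 (Pf.C 4 0x21c300))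
 (Pq.cons (Pq.L [] 1057 (Pf.C 5 0x1c101))
 (Pq.cons (Pq.L [0] 0x106673 (Pf.C 1 0x3860008083))
 Pq.nil))))) (Pq.cons (Pq.L [] 529 (Pf.C 5 98561))
 (Pq.cons (Pq.L [] 0x40000 (Pf.C 2 773))
 Pq.nil))))) Pq.nil))))) (Pq.cons (Pq.D 4 (Pq.cons (Pq.L [] 4106 (Pf.C 5 49793))
 (Pq.cons (Pq.L [] 265 (Pf.C 5 82177))
 (Pq.cons (Pq.D 5 (Pq.cons (Pq.L [] 8210 (Pf.C 5 49921))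
 (Pq.cons (Pq.L [0] 0x40018 (Pf.C 4 0x214006))
 (Pq.cons (Pq.L [] 529 (Pf.C 5 98561))
 (Pq.cons (Pq.D 6 (Pq.cons (Pq.L [] 16418 (Pf.C 5 50049))
 (Pq.cons (Pq.L [0] 0x106673 (Pf.C 1 0x3070008083))
 (Pq.cons (Pq.L [] 1057 (Pf.C 5 0x1c101))
 (Pq.cons (Pq.L [] 0x100000 (Pf.C 2 902))
 Pq.nil))))) Pq.nil))))) (Pq.cons (Pq.L [] 384 (Pf.C 3 82434))
 Pq.nil))))) Pq.nil))))) (Pq.cons (Pq.D 3 (Pq.cons (Pq.L [] 133 (Pf.C 5 65666))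
 (Pq.cons (Pq.L [] 133 (Pf.C 5 65793))
 (Pq.cons (Pq.D 4 (Pq.cons (Pq.L [] 32780 (Pf.C 5 66177))
 (Pq.cons (Pq.L [] 265 (Pf.C 5 82177))
 (Pq.cons (Pq.D 5 (Pq.cons (Pq.L [] 65556 (Pf.C 5 66305))
 (Pq.cons (Pq.L [0] 0x40018 (Pf.C 4 0x214006))
 (Pq.cons (Pq.L [] 529 (Pf.C 5 98561))
 (Pq.cons (Pq.D 6 (Pq.cons (Pq.L [] 0x20024 (Pf.C 5 66433))
 (Pq.cons (Pq.L [0] 0x1306b5 (Pf.C 1 0x3070008084))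
 (Pq.cons (Pq.L [] 1057 (Pf.C 5 0x1c101))
 (Pq.cons (Pq.L [] 0x100000 (Pf.C 2 902))
 Pq.nil))))) Pq.nil))))) (Pq.cons (Pq.L [] 320 (Pf.C 3 82306))
 Pq.nil))))) (Pq.cons (Pq.L [] 192 (Pf.C 3 65922))
 Pq.nil))))) Pq.nil))))) (Pq.cons (Pq.D 2 (Pq.cons (Pq.L [] 67 (Pf.C 5 33153))
 (Pq.cons (Pq.L [0] 67 (Pf.C 4 0x20c100))
 (Pq.cons (Pq.L [0] 67 (Pf.C 4 0x20c002))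
 (Pq.cons (Pq.D 3 (Pq.cons (Pq.L [] 133 (Pf.C 5 33281))
 (Pq.cons (Pq.L [0] 133 (Pf.C 4 0x210100))
 (Pq.cons (Pq.L [0] 133 (Pf.C 4 0x210002))
 (Pq.cons (Pq.L [] 192 (Pf.C 3 65922))
 Pq.nil))))) Pq.nil))))) (Pq.cons (Pq.D 2 (Pq.cons (Pq.D 3 (Pq.cons (Pq.D 4 (Pq.cons (Pq.L [] 14 (Pf.C 10 0xa10181))
 (Pq.cons (Pq.L [0] 265 (Pf.C 4 0x208005))
 (Pq.cons (Pq.L [] 4106 (Pf.C 5 82305))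
 (Pq.cons (Pq.D 5 (Pq.cons (Pq.L [] 529 (Pf.C 5 33537))
 (Pq.cons (Pq.D 6 (Pq.cons (Pq.L [] 1057 (Pf.C 5 33665))
 (Pq.cons (Pq.L [0] 0x100030 (Pf.C 4 0x21c300))
 (Pq.cons (Pq.L [] 16418 (Pf.C 5 0x1c181))
 (Pq.cons (Pq.L [0] 0x8556b (Pf.C 1 0x385040c080))
 Pq.nil))))) (Pq.cons (Pq.L [] 8210 (Pf.C 5 98689))
 (Pq.cons (Pq.L [] 0x40000 (Pf.C 2 773))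
 Pq.nil))))) Pq.nil))))) (Pq.cons (Pq.L [0] 133 (Pf.C 4 0x208004))
 (Pq.cons (Pq.L [] 2054 (Pf.C 5 65921))
 (Pq.cons (Pq.D 4 (Pq.cons (Pq.D 5 (Pq.cons (Pq.L [] 529 (Pf.C 5 33537))
 (Pq.cons (Pq.L [] 0x40018 (Pf.C 5 98945))
 (Pq.cons (Pq.L [] 8210 (Pf.C 5 98689))
 (Pq.cons (Pq.L [0] 76503 (Pf.C 1 0x304040c080))
 Pq.nil))))) (Pq.cons (Pq.L [0] 265 (Pf.C 4 0x208005))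
 (Pq.cons (Pq.L [] 4106 (Pf.C 5 82305))
 (Pq.cons (Pq.L [] 384 (Pf.C 3 82434))
 Pq.nil))))) Pq.nil))))) (Pq.cons (Pq.L [0] 67 (Pf.C 4 0x208003))
 (Pq.cons (Pq.D 3 (Pq.cons (Pq.L [] 2054 (Pf.C 5 49665))
 (Pq.cons (Pq.L [] 2247 (Pf.C 4 0x210182))
 (Pq.cons (Pq.L [] 2247 (Pf.C 4 0x210182))
 (Pq.cons (Pq.D 4 (Pq.cons (Pq.L [] 4106 (Pf.C 5 49793))
 (Pq.cons (Pq.L [] 4427 (Pf.C 4 0x214182))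
 (Pq.cons (Pq.L [] 4427 (Pf.C 4 0x214182))
 (Pq.cons (Pq.L [] 384 (Pf.C 3 82434))
 Pq.nil))))) Pq.nil))))) (Pq.cons (Pq.D 3 (Pq.cons (Pq.D 4 (Pq.cons (Pq.D 5 (Pq.cons (Pq.L [] 529 (Pf.C 5 33537))
 (Pq.cons (Pq.L [] 0x40018 (Pf.C 5 98945))
 (Pq.cons (Pq.L [] 65556 (Pf.C 5 98817))
 (Pq.cons (Pq.L [0] 76503 (Pf.C 1 0x3030410080))
 Pq.nil))))) (Pq.cons (Pq.L [0] 265 (Pf.C 4 0x208005))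
 (Pq.cons (Pq.L [] 32780 (Pf.C 5 82433))
 (Pq.cons (Pq.L [] 320 (Pf.C 3 82306))
 Pq.nil))))) (Pq.cons (Pq.L [0] 133 (Pf.C 4 0x208004))
 (Pq.cons (Pq.D 4 (Pq.cons (Pq.L [] 32780 (Pf.C 5 66177))
 (Pq.cons (Pq.L [] 33165 (Pf.C 4 0x214202))
 (Pq.cons (Pq.L [] 33165 (Pf.C 4 0x214202))
 (Pq.cons (Pq.L [] 320 (Pf.C 3 82306))
 Pq.nil))))) (Pq.cons (Pq.L [] 192 (Pf.C 3 65922))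
 Pq.nil))))) Pq.nil))))) (Pq.cons (Pq.D 2 (Pq.cons (Pq.D 3 (Pq.cons (Pq.L [] 2247 (Pf.C 0 0x410181))
 (Pq.cons (Pq.D 4 (Pq.cons (Pq.L [] 4427 (Pf.C 0 0x414181))
 (Pq.cons (Pq.L [] 33152 (Pf.C 6 33412))
 (Pq.cons (Pq.L [] 4106 (Pf.C 5 82305))
 (Pq.cons (Pq.L [] 256 (Pf.C 2 642))
 Pq.nil))))) (Pq.cons (Pq.L [] 2054 (Pf.C 5 65921))
 (Pq.cons (Pq.L [] 128 (Pf.C 2 514))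
 Pq.nil))))) (Pq.cons (Pq.D 3 (Pq.cons (Pq.D 4 (Pq.cons (Pq.L [] 33165 (Pf.C 0 0x414201))
 (Pq.cons (Pq.L [] 4416 (Pf.C 6 33411))
 (Pq.cons (Pq.L [] 32780 (Pf.C 5 82433))
 (Pq.cons (Pq.L [] 256 (Pf.C 2 642))
 Pq.nil))))) (Pq.cons (Pq.L [] 2240 (Pf.C 6 33283))
 (Pq.cons (Pq.D 4 (Pq.cons (Pq.L [] 32780 (Pf.C 5 66177))
 (Pq.cons (Pq.L [] 4416 (Pf.C 6 33411))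
 (Pq.cons (Pq.L [] 448 (Pf.C 12 0xa10182))
 (Pq.cons (Pq.L [] 256 (Pf.C 2 642))
 Pq.nil))))) (Pq.cons (Pq.L [] 128 (Pf.C 2 514))
 Pq.nil))))) (Pq.cons (Pq.D 3 (Pq.cons (Pq.L [] 2054 (Pf.C 5 49665))
 (Pq.cons (Pq.D 4 (Pq.cons (Pq.L [] 4106 (Pf.C 5 49793))
 (Pq.cons (Pq.L [] 33152 (Pf.C 6 33412))
 (Pq.cons (Pq.L [] 448 (Pf.C 12 0xa10182))
 (Pq.cons (Pq.L [] 256 (Pf.C 2 642))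
 Pq.nil))))) (Pq.cons (Pq.D 4 (Pq.cons (Pq.L [] 4106 (Pf.C 5 49793))
 (Pq.cons (Pq.L [] 448 (Pf.C 12 0xa10182))
 (Pq.cons (Pq.L [] 448 (Pf.C 12 0xa10182))
 (Pq.cons (Pq.L [] 256 (Pf.C 2 642))
 Pq.nil))))) (Pq.cons (Pq.L [] 128 (Pf.C 2 514))
 Pq.nil))))) (Pq.cons (Pq.L [] 64 (Pf.C 2 386))
 Pq.nil))))) Pq.nil))))) (Pq.cons (Pq.D 1 (Pq.cons (Pq.D 2 (Pq.cons (Pq.D 3 (Pq.cons (Pq.D 4 (Pq.cons (Pq.D 5 (Pq.cons (Pq.L [] 8768 (Pf.C 5 49922))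
 (Pq.cons (Pq.L [] 0x43340 (Pf.C 4 0x418185))
 (Pq.cons (Pq.L [] 8768 (Pf.C 5 49922))
 (Pq.cons (Pq.D 6 (Pq.cons (Pq.L [] 17472 (Pf.C 5 50050))
 (Pq.cons (Pq.L [] 0x136ef7 (Pf.C 1 0x3860210182))
 (Pq.cons (Pq.L [] 17472 (Pf.C 5 50050))
 (Pq.cons (Pq.L [0] 0x136836 (Pf.C 1 0x3810c10180))
 Pq.nil))))) Pq.nil))))) (Pq.cons (Pq.L [0] 39375 (Pf.C 1 0x1050010181))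
 (Pq.cons (Pq.D 5 (Pq.cons (Pq.L [] 8768 (Pf.C 5 49922))
 (Pq.cons (Pq.L [] 0x43340 (Pf.C 4 0x418185))
 (Pq.cons (Pq.L [] 8768 (Pf.C 5 49922))
 (Pq.cons (Pq.L [] 0x49000 (Pf.C 10 0xc10185))
 Pq.nil))))) (Pq.cons (Pq.L [0] 39375 (Pf.C 1 0x1050210180))
 Pq.nil))))) (Pq.cons (Pq.L [0] 128 (Pf.C 5 514))
 (Pq.cons (Pq.D 4 (Pq.cons (Pq.D 5 (Pq.cons (Pq.L [] 8768 (Pf.C 5 49922))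
 (Pq.cons (Pq.L [] 0x43340 (Pf.C 4 0x418185))
 (Pq.cons (Pq.L [] 8768 (Pf.C 5 49922))
 (Pq.cons (Pq.D 6 (Pq.cons (Pq.L [] 17472 (Pf.C 5 50050))
 (Pq.cons (Pq.L [] 0x136ef7 (Pf.C 1 0x3860210182))
 (Pq.cons (Pq.L [] 17472 (Pf.C 5 50050))
 (Pq.cons (Pq.L [0] 0x136836 (Pf.C 1 0x3810c10180))
 Pq.nil))))) Pq.nil))))) (Pq.cons (Pq.L [0] 39375 (Pf.C 1 0x1050010181))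
 (Pq.cons (Pq.L [] 39360 (Pf.C 4 0x414203))
 (Pq.cons (Pq.L [0] 39375 (Pf.C 1 0x1050210180))
 Pq.nil))))) (Pq.cons (Pq.D 4 (Pq.cons (Pq.L [0] 39375 (Pf.C 1 0x1040214180))
 (Pq.cons (Pq.L [0] 256 (Pf.C 5 642))
 (Pq.cons (Pq.L [0] 39375 (Pf.C 1 0x1040214180))
 (Pq.cons (Pq.L [] 33165 (Pf.C 0 0x414201))
 Pq.nil))))) Pq.nil))))) (Pq.cons (Pq.L [0] 64 (Pf.C 5 386))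
 (Pq.cons (Pq.D 3 (Pq.cons (Pq.D 4 (Pq.cons (Pq.D 5 (Pq.cons (Pq.L [] 8768 (Pf.C 5 49922))
 (Pq.cons (Pq.L [] 0x43340 (Pf.C 4 0x418185))
 (Pq.cons (Pq.L [] 66176 (Pf.C 5 66306))
 (Pq.cons (Pq.D 6 (Pq.cons (Pq.L [] 17472 (Pf.C 5 50050))
 (Pq.cons (Pq.L [] 0x136ef7 (Pf.C 1 0x3860210182))
 (Pq.cons (Pq.L [] 0x20480 (Pf.C 5 66434))
 (Pq.cons (Pq.L [0] 0x136836 (Pf.C 1 0x3810c10180))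
 Pq.nil))))) Pq.nil))))) (Pq.cons (Pq.L [0] 39375 (Pf.C 1 0x1050010181))
 (Pq.cons (Pq.L [] 39360 (Pf.C 4 0x414184))
 (Pq.cons (Pq.L [0] 39375 (Pf.C 1 0x1050210180))
 Pq.nil))))) (Pq.cons (Pq.L [0] 128 (Pf.C 5 514))
 (Pq.cons (Pq.D 4 (Pq.cons (Pq.L [] 39360 (Pf.C 4 0x410185))
 (Pq.cons (Pq.L [0] 256 (Pf.C 5 642))
 (Pq.cons (Pq.D 5 (Pq.cons (Pq.L [] 8768 (Pf.C 5 49922))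
 (Pq.cons (Pq.L [0] 0x40300 (Pf.C 4 0x414006))
 (Pq.cons (Pq.L [] 0x40300 (Pf.C 5 82690))
 (Pq.cons (Pq.D 6 (Pq.cons (Pq.L [] 17472 (Pf.C 5 50050))
 (Pq.cons (Pq.L [0] 0x1fffe5 (Pf.T 6 18 (Pf.cons (Pf.T 5 17 (Pf.cons (Pf.W 26 5 [] [6] (Pf.cons (Pf.C 3 99333) (Pf.cons (Pf.C 3 99333) Pf.nil))) (Pf.cons (Pf.T 5 20 (Pf.cons (Pf.T 4 17 (Pf.cons (Pf.W 26 4 [] [0,1,2,3,5,6,7] (Pf.cons (Pf.B 8 7 (Pf.B 8 5 (Pf.B 8 3 (Pf.B 8 2 (Pf.W 9 2 [] [0,1,4,5,6,7,8] (Pf.cons (Pf.B 9 7 (Pf.B 9 6 (Pf.B 9 5 (Pf.B 9 4 (Pf.C 1 0x3860a08484) (Pf.C 5 33924)) (Pf.C 5 33925)) (Pf.C 12 0xe14486)) (Pf.C 5 33927)) (Pf.cons (Pf.B 9 7 (Pf.B 9 4 (Pf.B 9 1 (Pf.C 2 137) (Pf.B 9 0 (Pf.C 1 0x109021c004) (Pf.C 3 0x20480))) (Pf.C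 3 0x20484)) (Pf.C 3 99463)) Pf.nil))) (Pf.T 2 16 (Pf.cons (Pf.W 9 0 [7,8] [2,3,4] (Pf.cons (Pf.B 9 8 (Pf.B 9 7 (Pf.C 5 0x1c009) (Pf.B 9 4 (Pf.B 9 3 (Pf.B 9 2 (Pf.C 1 0x208041c483) (Pf.C 5 1154)) (Pf.C 5 1155)) (Pf.C 5 1156))) (Pf.C 6 0x20009)) (Pf.cons (Pf.C 3 0x20480) Pf.nil))) (Pf.cons (Pf.C 25 1026) Pf.nil)))) (Pf.T 3 17 (Pf.cons (Pf.W 9 0 [7,8] [3,4,5] (Pf.cons (Pf.B 9 8 (Pf.B 9 7 (Pf.C 5 0x1c009) (Pf.B 9 5 (Pf.B 9 4 (Pf.B 9 3 (Pf.C 1 0x208061c485) (Pf.C 5 1155)) (Pf.C 5 1156)) (Pf.C 5 1157))) (Pf.C 6 0x20009)) (Pf.cons (Pf.C 3 0x20480) Pf.nil))) (Pf.cons (Pf.C 27 1027) Pf.nil)))) (Pf.C 27 1029)) (Pf.C 3 99335)) (Pf.cons (Pf.B 8 2 (Pf.W 9 2 [] [0,1,4,5,6,7,8] (Pf.cons (Pf.B 9 7 (Pf.B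 9 6 (Pf.B 9 5 (Pf.B 9 4 (Pf.C 1 0x3860a08484) (Pf.C 5 33924)) (Pf.C 5 33925)) (Pf.C 12 0xe14486)) (Pf.C 5 33927)) (Pf.cons (Pf.B 9 7 (Pf.B 9 4 (Pf.B 9 1 (Pf.C 2 137) (Pf.B 9 0 (Pf.C 1 0x109021c004) (Pf.C 3 0x20480))) (Pf.C 3 0x20484)) (Pf.C 3 99463)) Pf.nil))) (Pf.C 12 0x800108)) Pf.nil))) (Pf.cons (Pf.T 4 20 (Pf.cons (Pf.W 32 4 [] [0,1,2,3,5,6,7] (Pf.cons (Pf.B 8 7 (Pf.B 8 6 (Pf.B 8 3 (Pf.C 1 0x3070010403) (Pf.C 5 66563)) (Pf.C 12 0xe14406)) (Pf.C 5 904)) (Pf.cons (Pf.B 8 7 (Pf.B 8 6 (Pf.B 8 3 (Pf.C 1 0x3070010403) (Pf.C 5 66563)) (Pf.C 12 0xe14406)) (Pf.C 5 904)) (Pf.cons (Pf.B 8 7 (Pf.B 8 5 (Pf.B 8 3 (Pf.B 8 2 (Pf.B 8 1 (Pf.C 2 136) (Pf.C 1 0x208021c002)) (Pf.C 1 0x208041c003)) (Pf.C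 1 0x208061c005)) (Pf.C 3 99333)) (Pf.C 3 99335)) Pf.nil)))) (Pf.cons (Pf.T 4 22 (Pf.cons (Pf.W 36 4 [] [0,3,5,6,7] (Pf.cons (Pf.B 8 7 (Pf.B 8 6 (Pf.B 8 3 (Pf.C 1 0x3070010403) (Pf.C 5 66563)) (Pf.C 12 0xe14406)) (Pf.C 5 904)) (Pf.cons (Pf.B 8 7 (Pf.B 8 6 (Pf.B 8 3 (Pf.C 1 0x3070010403) (Pf.C 5 66563)) (Pf.C 12 0xe14406)) (Pf.C 5 904)) Pf.nil))) Pf.nil)) Pf.nil))) Pf.nil))) (Pf.cons (Pf.C 33 773) Pf.nil))) Pf.nil))) (Pf.cons (Pf.C 29 902) Pf.nil))))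
 (Pq.cons (Pq.L [0] 0x1fc400 (Pf.T 7 17 (Pf.cons (Pf.W 26 7 [] [6] (Pf.cons (Pf.C 3 99335) (Pf.cons (Pf.C 3 99335) Pf.nil))) (Pf.cons (Pf.T 7 20 (Pf.cons (Pf.W 32 7 [] [2,0,4,5,6] (Pf.cons (Pf.W 24 2 [] [0,4,5,6,7] (Pf.cons (Pf.W 9 0 [8] [4,5,6,7] (Pf.cons (Pf.B 9 7 (Pf.B 9 6 (Pf.B 9 5 (Pf.B 9 4 (Pf.C 1 0x3860a00484) (Pf.C 5 1156)) (Pf.C 5 1157)) (Pf.C 12 0xe14486)) (Pf.C 5 1159)) (Pf.cons (Pf.C 3 0x20480) Pf.nil))) (Pf.cons (Pf.W 9 0 [8] [4,5,6,7] (Pf.cons (Pf.B 9 7 (Pf.B 9 6 (Pf.B 9 5 (Pf.B 9 4 (Pf.C 1 0x3860a00484) (Pf.C 5 1156)) (Pf.C 5 1157)) (Pf.C 12 0xe14486)) (Pf.C 5 1159)) (Pf.cons (Pf.C 3 0x20480) Pf.nil))) Pf.nil))) (Pf.cons (Pf.C 10 0xc08407) (Pf.cons (Pf.C 10 0xc08407) (Pf.cons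 (Pf.W 28 6 [] [5,7] (Pf.cons (Pf.C 12 0xe14406) Pf.nil)) (Pf.cons (Pf.C 3 99335) Pf.nil)))))) (Pf.cons (Pf.T 7 22 (Pf.cons (Pf.W 36 7 [] [2,0,3,4,5,6] (Pf.cons (Pf.T 6 18 (Pf.cons (Pf.C 33 775) (Pf.cons (Pf.W 30 2 [] [0,3,4,5,6,7] (Pf.cons (Pf.B 8 7 (Pf.C 5 0x1c108) (Pf.C 33 1031)) (Pf.cons (Pf.B 8 7 (Pf.B 8 5 (Pf.B 8 4 (Pf.B 8 3 (Pf.W 28 8 [] [0,4,5,6,7] (Pf.cons (Pf.B 9 7 (Pf.B 9 6 (Pf.B 9 5 (Pf.B 9 4 (Pf.C 1 0x3860a00484) (Pf.C 5 1156)) (Pf.C 5 1157)) (Pf.C 29 1158)) (Pf.C 5 1159)) Pf.nil)) (Pf.W 28 8 [] [2,3] (Pf.cons (Pf.C 12 0x608488) Pf.nil))) (Pf.B 8 3 (Pf.W 28 8 [] [2,4] (Pf.cons (Pf.C 12 0x808488) Pf.nil)) (Pf.C 12 0x808188))) (Pf.C 3 99333)) (Pf.C 33 1031)) Pf.nil))) Pf.nil)))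 (Pf.cons (Pf.C 10 0xc08407) (Pf.cons (Pf.C 10 0xc08407) Pf.nil)))) Pf.nil)) Pf.nil))) Pf.nil))))
 (Pq.cons (Pq.L [] 0x100000 (Pf.C 2 902))
 Pq.nil))))) Pq.nil))))) (Pq.cons (Pq.D 5 (Pq.cons (Pq.L [] 8768 (Pf.C 5 49922))
 (Pq.cons (Pq.D 6 (Pq.cons (Pq.L [0] 0xad82e (Pf.C 1 0x2070614080))
 (Pq.cons (Pq.L [0] 0x8556b (Pf.C 1 0x105021c003))
 (Pq.cons (Pq.L [] 0x100600 (Pf.C 5 99202))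
 (Pq.cons (Pq.L [] 0x1c0038 (Pf.C 0 0xc1c281))
 Pq.nil))))) (Pq.cons (Pq.L [] 0x40300 (Pf.C 6 82690))
 (Pq.cons (Pq.L [] 0x40000 (Pf.C 2 773))
 Pq.nil))))) Pq.nil))))) (Pq.cons (Pq.D 4 (Pq.cons (Pq.L [0] 39375 (Pf.C 1 0x1040214180))
 (Pq.cons (Pq.L [0] 256 (Pf.C 5 642))
 (Pq.cons (Pq.D 5 (Pq.cons (Pq.L [] 8768 (Pf.C 5 49922))
 (Pq.cons (Pq.L [0] 0x5b81e (Pf.C 1 0x2860010083))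
 (Pq.cons (Pq.L [] 0x40300 (Pf.C 5 82690))
 (Pq.cons (Pq.D 6 (Pq.cons (Pq.L [0] 0xad82e (Pf.C 1 0x2870610080))
 (Pq.cons (Pq.L [0] 0x24ce7 (Pf.C 1 0x104021c003))
 (Pq.cons (Pq.L [0] 0x1e7680 (Pf.T 7 17 (Pf.cons (Pf.W 26 7 [] [6] (Pf.cons (Pf.C 3 99335) (Pf.cons (Pf.C 3 99335) Pf.nil))) (Pf.cons (Pf.T 7 20 (Pf.cons (Pf.W 32 7 [] [2,4,6,5] (Pf.cons (Pf.W 24 2 [] [4] (Pf.cons (Pf.C 3 66562) (Pf.cons (Pf.C 3 66562) Pf.nil))) (Pf.cons (Pf.C 10 0xc08407) (Pf.cons (Pf.C 10 0xc08407) (Pf.cons (Pf.W 28 6 [] [5,7] (Pf.cons (Pf.C 12 0xe14406) Pf.nil)) (Pf.cons (Pf.C 3 99335) Pf.nil)))))) (Pf.cons (Pf.T 7 22 (Pf.cons (Pf.W 36 7 [] [2,0,3,4,5,6] (Pf.cons (Pf.W 30 2 [] [4,0,3,5,6,7] (Pf.cons (Pf.B 8 7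 (Pf.C 5 0x1c108) (Pf.C 33 1031)) (Pf.cons (Pf.W 28 4 [] [0,3,5,6,7] (Pf.cons (Pf.B 8 7 (Pf.B 8 6 (Pf.B 8 5 (Pf.B 8 3 (Pf.C 1 0x3860a00403) (Pf.C 5 1027)) (Pf.C 5 1029)) (Pf.C 3 66312)) (Pf.C 5 1031)) Pf.nil)) (Pf.cons (Pf.C 3 66562) Pf.nil)))) (Pf.cons (Pf.C 10 0xc08407) (Pf.cons (Pf.C 10 0xc08407) Pf.nil)))) Pf.nil)) Pf.nil))) Pf.nil))))
 (Pq.cons (Pq.L [] 0x130034 (Pf.C 0 0xe10086))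
 Pq.nil))))) Pq.nil))))) (Pq.cons (Pq.L [] 33165 (Pf.C 0 0x414201))
 Pq.nil))))) Pq.nil))))) (Pq.cons (Pq.D 3 (Pq.cons (Pq.D 4 (Pq.cons (Pq.L [0] 39375 (Pf.C 1 0x1030214200))
 (Pq.cons (Pq.L [0] 256 (Pf.C 5 642))
 (Pq.cons (Pq.L [0] 39375 (Pf.C 1 0x1030214200))
 (Pq.cons (Pq.L [] 4427 (Pf.C 0 0x414181))
 Pq.nil))))) (Pq.cons (Pq.L [0] 128 (Pf.C 5 514))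
 (Pq.cons (Pq.D 4 (Pq.cons (Pq.L [0] 39375 (Pf.C 1 0x1030214200))
 (Pq.cons (Pq.L [0] 256 (Pf.C 5 642))
 (Pq.cons (Pq.D 5 (Pq.cons (Pq.L [] 66176 (Pf.C 5 66306))
 (Pq.cons (Pq.L [0] 0x5b81e (Pf.C 1 0x286000c084))
 (Pq.cons (Pq.L [] 0x40300 (Pf.C 5 82690))
 (Pq.cons (Pq.D 6 (Pq.cons (Pq.L [0] 0xad82e (Pf.C 1 0x287080c080))
 (Pq.cons (Pq.L [0] 0x24ce7 (Pf.C 1 0x103021c004))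
 (Pq.cons (Pq.L [0] 0x1fc640 (Pf.T 7 17 (Pf.cons (Pf.W 26 7 [] [6] (Pf.cons (Pf.C 3 99335) (Pf.cons (Pf.C 3 99335) Pf.nil))) (Pf.cons (Pf.T 7 20 (Pf.cons (Pf.W 32 7 [] [2,3,6,5] (Pf.cons (Pf.W 24 2 [] [3] (Pf.cons (Pf.C 3 50178) (Pf.cons (Pf.C 3 50178) Pf.nil))) (Pf.cons (Pf.C 10 0xc08407) (Pf.cons (Pf.C 10 0xc08407) (Pf.cons (Pf.W 28 6 [] [5,7] (Pf.cons (Pf.C 12 0xe14406) Pf.nil)) (Pf.cons (Pf.C 3 99335) Pf.nil)))))) (Pf.cons (Pf.T 7 22 (Pf.cons (Pf.W 36 7 [] [2,0,3,4,5,6] (Pf.cons (Pf.W 30 2 [] [3,0,4,5,6,7] (Pf.cons (Pf.B 8 7 (Pf.C 5 0x1c108) (Pf.C 33 1031)) (Pf.cons (Pf.W 28 3 [] [0,4,5,6,7] (Pf.cons (Pf.B 8 7 (Pf.B 8 6 (Pf.B 8 5 (Pf.B 8 4 (Pf.C 1 0x3860a00404) (Pf.C 5 1028)) (Pf.C 5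 1029)) (Pf.C 3 49928)) (Pf.C 5 1031)) Pf.nil)) (Pf.cons (Pf.C 3 50178) Pf.nil)))) (Pf.cons (Pf.C 10 0xc08407) (Pf.cons (Pf.C 10 0xc08407) Pf.nil)))) Pf.nil)) Pf.nil))) Pf.nil))))
 (Pq.cons (Pq.L [] 0x106032 (Pf.C 0 0xe0c086))
 Pq.nil))))) Pq.nil))))) (Pq.cons (Pq.L [] 4427 (Pf.C 0 0x414181))
 Pq.nil))))) (Pq.cons (Pq.L [] 2247 (Pf.C 0 0x410181))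
 Pq.nil))))) Pq.nil))))) (Pq.cons (Pq.D 2 (Pq.cons (Pq.L [0] 64 (Pf.C 5 49408))
 (Pq.cons (Pq.L [0] 64 (Pf.C 5 49154))
 (Pq.cons (Pq.L [0] 64 (Pf.C 5 49408))
 (Pq.cons (Pq.D 3 (Pq.cons (Pq.L [0] 128 (Pf.C 5 65792))
 (Pq.cons (Pq.L [0] 128 (Pf.C 5 65538))
 (Pq.cons (Pq.L [0] 128 (Pf.C 5 65792))
 (Pq.cons (Pq.L [] 2247 (Pf.C 0 0x410181))
 Pq.nil))))) Pq.nil))))) (Pq.cons (Pq.D 2 (Pq.cons (Pq.D 3 (Pq.cons (Pq.D 4 (Pq.cons (Pq.D 5 (Pq.cons (Pq.L [] 8768 (Pf.C 5 49922))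
 (Pq.cons (Pq.L [] 0x43340 (Pf.C 4 0x418185))
 (Pq.cons (Pq.L [] 0x43340 (Pf.C 4 0x418283))
 (Pq.cons (Pq.D 6 (Pq.cons (Pq.L [] 17472 (Pf.C 5 50050))
 (Pq.cons (Pq.L [] 0x136ef7 (Pf.C 1 0x3860210182))
 (Pq.cons (Pq.L [] 0x1c7000 (Pf.C 0 0xc1c283))
 (Pq.cons (Pq.L [0] 0x136836 (Pf.C 1 0x3810c10180))
 Pq.nil))))) Pq.nil))))) (Pq.cons (Pq.L [0] 39375 (Pf.C 1 0x1050010181))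
 (Pq.cons (Pq.L [] 4416 (Pf.C 5 49794))
 (Pq.cons (Pq.L [0] 39375 (Pf.C 1 0x1050210180))
 Pq.nil))))) (Pq.cons (Pq.L [0] 128 (Pf.C 5 514))
 (Pq.cons (Pq.L [] 2240 (Pf.C 5 49666))
 (Pq.cons (Pq.D 4 (Pq.cons (Pq.L [0] 39375 (Pf.C 1 0x1040214180))
 (Pq.cons (Pq.L [0] 256 (Pf.C 5 642))
 (Pq.cons (Pq.L [] 4416 (Pf.C 5 49794))
 (Pq.cons (Pq.L [] 33165 (Pf.C 0 0x414201))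
 Pq.nil))))) Pq.nil))))) (Pq.cons (Pq.L [0] 64 (Pf.C 5 386))
 (Pq.cons (Pq.D 3 (Pq.cons (Pq.L [] 2240 (Pf.C 5 65922))
 (Pq.cons (Pq.L [0] 128 (Pf.C 5 514))
 (Pq.cons (Pq.L [] 2240 (Pf.C 5 65795))
 (Pq.cons (Pq.D 4 (Pq.cons (Pq.L [] 4416 (Pf.C 5 82306))
 (Pq.cons (Pq.L [0] 256 (Pf.C 5 642))
 (Pq.cons (Pq.L [] 4416 (Pf.C 5 82179))
 (Pq.cons (Pq.L [] 33165 (Pf.C 0 0x414201))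
 Pq.nil))))) Pq.nil))))) (Pq.cons (Pq.D 3 (Pq.cons (Pq.D 4 (Pq.cons (Pq.L [0] 39375 (Pf.C 1 0x1030214200))
 (Pq.cons (Pq.L [0] 256 (Pf.C 5 642))
 (Pq.cons (Pq.L [] 33152 (Pf.C 5 66178))
 (Pq.cons (Pq.L [] 4427 (Pf.C 0 0x414181))
 Pq.nil))))) (Pq.cons (Pq.L [0] 128 (Pf.C 5 514))
 (Pq.cons (Pq.D 4 (Pq.cons (Pq.L [] 33152 (Pf.C 5 82434))
 (Pq.cons (Pq.L [0] 256 (Pf.C 5 642))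
 (Pq.cons (Pq.L [] 33152 (Pf.C 5 82180))
 (Pq.cons (Pq.L [] 4427 (Pf.C 0 0x414181))
 Pq.nil))))) (Pq.cons (Pq.L [] 2247 (Pf.C 0 0x410181))
 Pq.nil))))) Pq.nil))))) (Pq.cons (Pq.D 2 (Pq.cons (Pq.D 3 (Pq.cons (Pq.L [] 2240 (Pf.C 6 33283))
 (Pq.cons (Pq.D 4 (Pq.cons (Pq.L [] 4416 (Pf.C 6 33411))
 (Pq.cons (Pq.L [] 33152 (Pf.C 6 33412))
 (Pq.cons (Pq.L [] 4416 (Pf.C 6 33411))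
 (Pq.cons (Pq.L [] 256 (Pf.C 2 642))
 Pq.nil))))) (Pq.cons (Pq.L [] 2240 (Pf.C 6 33283))
 (Pq.cons (Pq.L [] 128 (Pf.C 2 514))
 Pq.nil))))) (Pq.cons (Pq.D 3 (Pq.cons (Pq.D 4 (Pq.cons (Pq.L [] 33152 (Pf.C 6 33412))
 (Pq.cons (Pq.L [] 4416 (Pf.C 6 33411))
 (Pq.cons (Pq.L [] 33152 (Pf.C 6 33412))
 (Pq.cons (Pq.L [] 256 (Pf.C 2 642))
 Pq.nil))))) (Pq.cons (Pq.L [] 2240 (Pf.C 6 33283))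
 (Pq.cons (Pq.D 4 (Pq.cons (Pq.L [] 33152 (Pf.C 6 33412))
 (Pq.cons (Pq.L [] 4416 (Pf.C 6 33411))
 (Pq.cons (Pq.L [] 448 (Pf.C 12 0xa10182))
 (Pq.cons (Pq.L [] 256 (Pf.C 2 642))
 Pq.nil))))) (Pq.cons (Pq.L [] 128 (Pf.C 2 514))
 Pq.nil))))) (Pq.cons (Pq.D 3 (Pq.cons (Pq.L [] 2240 (Pf.C 6 33283))
 (Pq.cons (Pq.D 4 (Pq.cons (Pq.L [] 4416 (Pf.C 6 33411))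
 (Pq.cons (Pq.L [] 33152 (Pf.C 6 33412))
 (Pq.cons (Pq.L [] 448 (Pf.C 12 0xa10182))
 (Pq.cons (Pq.L [] 256 (Pf.C 2 642))
 Pq.nil))))) (Pq.cons (Pq.D 4 (Pq.cons (Pq.L [] 4416 (Pf.C 6 33411))
 (Pq.cons (Pq.L [] 448 (Pf.C 12 0xa10182))
 (Pq.cons (Pq.L [] 448 (Pf.C 12 0xa10182))
 (Pq.cons (Pq.L [] 256 (Pf.C 2 642))
 Pq.nil))))) (Pq.cons (Pq.L [] 128 (Pf.C 2 514))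
 Pq.nil))))) (Pq.cons (Pq.L [] 64 (Pf.C 2 386))
 Pq.nil))))) Pq.nil))))) Pq.nil))
theorem e1_o32 : AllRef e1_T e1_G40 (List.drop 2 (List.flatMap (splitP 0) (List.drop 1 (applyObl d_T 2 [35,36,37,41] [0,0,0,0] [(35,0x2800000000),(36,0x1000000000),(37,0x800000000),(41,0x20000000000)])))) :=
  chkPq_sound e1_o32c _ (by decide +kernel)
noncomputable def e1_o33c : Pq := Pq.nil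
theorem e1_o33 : AllRef e1_T e1_G1 (ptObl 1 PT.kid []) :=
  chkPq_sound e1_o33c _ (by decide +kernel)
noncomputable def e1_o34c : Pq := (Pq.cons (Pq.L [0,1,2] 0 (Pf.C 4 0x608001))
 (Pq.cons (Pq.L [0,1,2] 0 (Pf.C 0 0x404180))
 Pq.nil))
theorem e1_o34 : AllRef e1_T e1_G41 (ptObl 64 (PT.br 0 (PT.br 1 (PT.br 2 PT.ref PT.kid) (PT.br 2 PT.kid PT.kid)) (PT.br 1 (PT.br 2 PT.kid PT.kid) (PT.br 2 PT.kid PT.ref))) []) :=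
  chkPq_sound e1_o34c _ (by decide +kernel)
noncomputable def e1_o35c : Pq := (Pq.cons (Pq.L [0,1,2] 0 (Pf.B 6 5 (Pf.C 4 0xa04300) (Pf.B 6 4 (Pf.C 4 0x410300) (Pf.B 5 4 (Pf.C 4 0x210286) (Pf.C 0 98821)))))
 (Pq.cons (Pq.L [0,1,2] 0 (Pf.B 6 5 (Pf.C 4 0xa04300) (Pf.B 6 4 (Pf.B 5 4 (Pf.C 4 0xa04200) (Pf.C 0 0xc08284)) (Pf.C 0 0x410300))))
 (Pq.cons (Pq.L [0,1,2] 0 (Pf.B 6 5 (Pf.B 6 4 (Pf.B 5 4 (Pf.C 4 0xa18200) (Pf.C 0 0x208284)) (Pf.C 0 0x410300)) (Pf.C 0 0x208286)))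
 (Pq.cons (Pq.L [0,1,2] 0 (Pf.B 6 5 (Pf.C 4 0xa04302) (Pf.B 6 4 (Pf.B 5 4 (Pf.C 4 0xa04202) (Pf.C 0 0xc00284)) (Pf.C 0 0x410300))))
 (Pq.cons (Pq.L [0,1,2] 0 (Pf.B 6 5 (Pf.B 6 3 (Pf.B 5 3 (Pf.C 4 0xc0c282) (Pf.C 0 0x40c280)) (Pf.C 0 0x200303)) (Pf.C 0 0x200305)))
 Pq.nil)))))
theorem e1_o35 : AllRef e1_T e1_G42 (hitObl [65,67,68,69,70] e1_h56) :=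
  chkPq_sound e1_o35c _ (by decide +kernel)
noncomputable def e1_o36c : Pq := (Pq.cons (Pq.L [0,2] 60 (Pf.B 8 4 (Pf.B 8 2 (Pf.C 0 0x41c308) (Pf.B 7 4 (Pf.C 4 66434) (Pf.C 0 0x1008384))) (Pf.C 3 82948)))
 (Pq.cons (Pq.L [1] 63 (Pf.B 8 1 (Pf.C 0 0x21c308) (Pf.B 5 1 (Pf.C 0 0x210185) (Pf.C 3 0x20281))))
 (Pq.cons (Pq.L [0,1,2] 511 (Pf.B 11 8 (Pf.C 2 1035) (Pf.B 11 6 (Pf.B 11 5 (Pf.C 2 651) (Pf.B 11 3 (Pf.B 10 7 (Pf.C 0 0xe0808a) (Pf.B 10 6 (Pf.B 10 4 (Pf.C 0 0x80808a) (Pf.B 10 3 (Pf.B 9 8 (Pf.B 9 7 (Pf.B 9 5 (Pf.B 9 4 (Pf.B 8 5 (Pf.C 2 648) (Pf.B 8 3 (Pf.B 7 4 (Pf.C 0 0x808087) (Pf.B 7 3 (Pf.B 6 5 (Pf.B 6 4 (Pf.B 11 7 (Pf.B 11 4 (Pf.B 10 8 (Pf.B 9 3 (Pf.C 1 0x40b1228383) (Pf.B 11 0 (Pf.C 1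 0x189161c200) (Pf.B 9 6 (Pf.C 1 0xb121c206) (Pf.B 8 0 (Pf.C 1 0x4861028380) (Pf.C 3 0x2c400))))) (Pf.B 10 5 (Pf.B 9 6 (Pf.C 1 0x28b1228206) (Pf.B 11 0 (Pf.C 1 0x309161c200) (Pf.B 8 4 (Pf.B 8 2 (Pf.B 8 0 (Pf.C 1 0x4861010100) (Pf.C 3 0x2c400)) (Pf.C 0 0x828108)) (Pf.C 0 0xe28208)))) (Pf.C 3 0x2028a))) (Pf.B 11 2 (Pf.B 8 4 (Pf.B 10 8 (Pf.B 9 3 (Pf.C 1 0x40b1228383) (Pf.B 11 0 (Pf.C 1 0x189161c100) (Pf.B 9 6 (Pf.C 1 0xb121c106) (Pf.B 8 0 (Pf.C 1 0x486101c200) (Pf.C 3 0x2c400))))) (Pf.B 8 2 (Pf.B 9 3 (Pf.C 1 0x40b121c103) (Pf.B 11 0 (Pf.C 1 0x189161c100) (Pf.B 9 6 (Pf.C 1 0xb121c106) (Pf.B 8 0 (Pf.C 1 0x4861010100) (Pf.C 3 0x2c400))))) (Pf.C 0 0x828108))) (Pf.C 3 0x2c404)) (Pf.C 0 0xe1010b)))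 (Pf.B 11 4 (Pf.B 11 2 (Pf.B 7 5 (Pf.B 10 8 (Pf.B 10 5 (Pf.B 9 6 (Pf.C 1 0x2880c28389) (Pf.B 11 0 (Pf.C 1 0x3091610100) (Pf.B 8 0 (Pf.C 1 0x4861028380) (Pf.C 3 0x2c400)))) (Pf.B 5 2 (Pf.B 9 6 (Pf.C 1 0x28b1210106) (Pf.B 11 0 (Pf.C 1 0x3091610100) (Pf.B 8 0 (Pf.C 1 0x4861028380) (Pf.C 3 0x2c400)))) (Pf.C 0 0x828105))) (Pf.B 10 5 (Pf.B 9 6 (Pf.C 1 0x28b1228206) (Pf.B 11 0 (Pf.C 1 0x3091610100) (Pf.B 8 4 (Pf.B 8 2 (Pf.B 8 0 (Pf.C 1 0x4861010100) (Pf.C 3 0x2c400)) (Pf.C 0 0x828108)) (Pf.C 0 0xe28208)))) (Pf.C 3 0x2028a))) (Pf.C 3 0x2c287)) (Pf.C 0 0x81c10b)) (Pf.C 0 0x141c20b))) (Pf.C 0 0x404206)) (Pf.C 3 0x20286)) (Pf.C 0 0x404383))) (Pf.C 3 82947))) (Pf.C 0 0x404209)) (Pf.C 3 0x2c289)) (Pf.C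 0 0x404389)) (Pf.C 3 0x2c409)) (Pf.C 0 0x404503))) (Pf.C 0 0x404506))) (Pf.C 3 83331))) (Pf.C 3 0x20586))))
 (Pq.cons (Pq.L [0,1,2] 511 (Pf.B 11 8 (Pf.C 2 1035) (Pf.B 11 7 (Pf.B 11 6 (Pf.B 11 4 (Pf.B 11 3 (Pf.B 11 1 (Pf.B 11 2 (Pf.B 10 8 (Pf.B 10 7 (Pf.C 0 0xe0808a) (Pf.B 10 6 (Pf.B 9 8 (Pf.B 9 7 (Pf.B 9 4 (Pf.B 8 4 (Pf.B 8 3 (Pf.B 8 2 (Pf.B 9 3 (Pf.C 1 0x40b1210103) (Pf.B 11 0 (Pf.C 1 0x1891610100) (Pf.B 9 6 (Pf.C 1 0xb121c106) (Pf.B 8 0 (Pf.C 1 0x4861028100) (Pf.C 3 0x2c400))))) (Pf.C 0 0x141c108)) (Pf.C 3 82947)) (Pf.C 3 82948)) (Pf.C 0 0x404209)) (Pf.C 0 0x404389)) (Pf.C 3 0x2c409)) (Pf.C 0 0x404506))) (Pf.C 3 0x2c40a)) (Pf.C 0 0x22810b)) (Pf.C 0 0x1404589)) (Pf.C 3 83331)) (Pf.C 3 83332))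 (Pf.C 3 0x20586)) (Pf.C 3 0x20587))))
 (Pq.cons (Pq.L [0,1,2] 511 (Pf.B 11 8 (Pf.C 2 1035) (Pf.B 11 6 (Pf.B 11 5 (Pf.C 2 651) (Pf.B 11 3 (Pf.B 10 7 (Pf.C 0 0xe0400a) (Pf.B 10 6 (Pf.B 10 4 (Pf.C 0 0x80400a) (Pf.B 10 3 (Pf.B 9 8 (Pf.B 9 7 (Pf.B 9 5 (Pf.B 9 4 (Pf.B 8 5 (Pf.C 2 648) (Pf.B 8 3 (Pf.B 7 4 (Pf.C 0 0x804007) (Pf.B 7 3 (Pf.B 6 5 (Pf.B 6 4 (Pf.B 11 7 (Pf.B 11 4 (Pf.B 10 8 (Pf.B 9 3 (Pf.C 1 0x40b1228383) (Pf.B 11 2 (Pf.C 1 0x189161c202) (Pf.B 9 6 (Pf.C 1 0x10b121c206) (Pf.B 8 2 (Pf.C 1 0x4861028382) (Pf.C 3 0x2c402))))) (Pf.B 10 5 (Pf.B 9 6 (Pf.C 1 0x28b1228206) (Pf.B 11 2 (Pf.C 1 0x309161c202) (Pf.B 8 4 (Pf.B 8 2 (Pf.C 1 0x486101c202) (Pf.C 3 0x2c402)) (Pf.C 0 0xe28208)))) (Pf.C 3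 0x2028a))) (Pf.B 11 1 (Pf.B 11 0 (Pf.B 8 4 (Pf.B 10 8 (Pf.B 9 3 (Pf.C 1 0x40b1228383) (Pf.B 11 2 (Pf.C 1 0x189161c002) (Pf.B 9 6 (Pf.C 1 0x10b121c006) (Pf.B 8 2 (Pf.C 1 0x486101c202) (Pf.C 3 0x2c402))))) (Pf.B 8 1 (Pf.B 8 0 (Pf.B 9 3 (Pf.C 1 0x40b121c003) (Pf.B 11 2 (Pf.C 1 0x189161c002) (Pf.B 9 6 (Pf.C 1 0x10b121c006) (Pf.B 8 2 (Pf.C 1 0x4861010002) (Pf.C 3 0x2c402))))) (Pf.C 0 0x228008)) (Pf.C 0 0x828088))) (Pf.C 3 0x2c404)) (Pf.C 0 0x21000b)) (Pf.C 0 0xe1008b))) (Pf.B 11 4 (Pf.B 11 1 (Pf.B 11 0 (Pf.B 7 5 (Pf.B 10 8 (Pf.B 10 5 (Pf.B 9 6 (Pf.C 1 0x2880c28389) (Pf.B 11 2 (Pf.C 1 0x3091610002) (Pf.B 8 2 (Pf.C 1 0x4861028382) (Pf.C 3 0x2c402)))) (Pf.B 5 1 (Pf.B 5 0 (Pf.B 9 6 (Pf.C 1 0x28b1210006)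 (Pf.B 11 2 (Pf.C 1 0x3091610002) (Pf.B 8 2 (Pf.C 1 0x4861028382) (Pf.C 3 0x2c402)))) (Pf.C 0 0x228005)) (Pf.C 0 0x828085))) (Pf.B 10 5 (Pf.B 9 6 (Pf.C 1 0x28b1228206) (Pf.B 11 2 (Pf.C 1 0x3091610002) (Pf.B 8 4 (Pf.B 8 2 (Pf.C 1 0x486101c202) (Pf.C 3 0x2c402)) (Pf.C 0 0xe28208)))) (Pf.C 3 0x2028a))) (Pf.C 3 0x2c287)) (Pf.C 0 0x21c00b)) (Pf.C 0 0x81c08b)) (Pf.C 0 0x141c20b))) (Pf.C 0 16902)) (Pf.C 3 0x20286)) (Pf.C 0 17283))) (Pf.C 3 82947))) (Pf.C 0 16905)) (Pf.C 3 0x2c289)) (Pf.C 0 17289)) (Pf.C 3 0x2c409)) (Pf.C 0 17667))) (Pf.C 0 17670))) (Pf.C 3 83331))) (Pf.C 3 0x20586))))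
 (Pq.cons (Pq.L [0,1,2] 511 (Pf.B 11 8 (Pf.C 2 1035) (Pf.B 11 7 (Pf.B 11 6 (Pf.B 11 4 (Pf.B 11 3 (Pf.B 11 1 (Pf.B 11 0 (Pf.B 10 8 (Pf.B 10 7 (Pf.C 0 0xe0400a) (Pf.B 10 6 (Pf.B 9 8 (Pf.B 9 7 (Pf.B 9 4 (Pf.B 8 4 (Pf.B 8 3 (Pf.B 8 1 (Pf.B 8 0 (Pf.B 9 3 (Pf.C 1 0x40b1210003) (Pf.B 11 2 (Pf.C 1 0x1891610002) (Pf.B 9 6 (Pf.C 1 0x10b121c006) (Pf.B 8 2 (Pf.C 1 0x4861028002) (Pf.C 3 0x2c402))))) (Pf.C 0 0x21c008)) (Pf.C 0 0x141c088)) (Pf.C 3 82947)) (Pf.C 3 82948)) (Pf.C 0 16905)) (Pf.C 0 17289)) (Pf.C 3 0x2c409)) (Pf.C 0 17670))) (Pf.C 3 0x2c40a)) (Pf.C 0 0x22800b)) (Pf.C 0 0x1404589)) (Pf.C 3 83331)) (Pf.C 3 83332)) (Pf.C 3 0x20586)) (Pf.C 3 0x20587))))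
 (Pq.cons (Pq.L [1,2] 58 (Pf.B 8 3 (Pf.B 8 2 (Pf.C 0 0x41c308) (Pf.B 8 1 (Pf.C 0 0x218108) (Pf.C 0 0x608088))) (Pf.C 3 82947)))
 (Pq.cons (Pq.L [0,2] 60 (Pf.B 8 4 (Pf.B 8 0 (Pf.C 0 0x1c308) (Pf.B 7 4 (Pf.C 4 0x410380) (Pf.C 0 0x1000384))) (Pf.C 3 82948)))
 (Pq.cons (Pq.L [0,1] 58 (Pf.B 8 3 (Pf.B 8 1 (Pf.C 0 0x21c308) (Pf.B 8 0 (Pf.C 0 98440) (Pf.C 0 0x604008))) (Pf.C 3 82947)))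
 Pq.nil)))))))))
theorem e1_o36 : AllRef e1_T e1_G43 (hitObl [2,66,71,72,73,75] e1_h57) :=
  chkPq_sound e1_o36c _ (by decide +kernel)
noncomputable def e1_o37c : Pq := (Pq.cons (Pq.L [] 0 (Pf.C 59 3))
 Pq.nil)
theorem e1_o37 : AllRef e1_T e1_G45 (List.map pat1 [78]) :=
  chkPq_sound e1_o37c _ (by decide +kernel)
noncomputable def e1_o38c : Pq := (Pq.cons (Pq.L [] 0 (Pf.C 61 3))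
 Pq.nil)
theorem e1_o38 : AllRef e1_T e1_G48 (List.map pat1 [80]) :=
  chkPq_sound e1_o38c _ (by decide +kernel)
noncomputable def e1_o39c : Pq := (Pq.cons (Pq.L [] 0 (Pf.C 63 3))
 Pq.nil)
theorem e1_o39 : AllRef e1_T e1_G51 (List.map pat1 [74]) :=
  chkPq_sound e1_o39c _ (by decide +kernel)
noncomputable def e1_o40c : Pq := (Pq.cons (Pq.L [1,2] 2 (Pf.C 0 0x414083))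
 (Pq.cons (Pq.L [0,1] 2 (Pf.C 0 82051))
 (Pq.cons (Pq.L [1,2] 2 (Pf.C 0 0xa04182))
 (Pq.cons (Pq.L [1] 7 (Pf.C 0 0xa04184))
 (Pq.cons (Pq.L [0,1] 2 (Pf.C 0 82051))
 (Pq.cons (Pq.L [0,1] 2 (Pf.C 0 0xa04180))
 (Pq.cons (Pq.L [1,2] 2 (Pf.C 0 0x414083))
 (Pq.cons (Pq.L [0] 7 (Pf.C 0 0xa00184))
 (Pq.cons (Pq.L [] 4 (Pf.C 2 644))
 Pq.nil)))))))))
theorem e1_o40 : AllRef e1_T e1_G53 (twinObl [77,79,81,76] 14 [9,8,8,7]) :=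
  chkPq_sound e1_o40c _ (by decide +kernel)
noncomputable def e1_o41c : Pq := (Pq.cons (Pq.L [1,2] 1 (Pf.C 0 0x410083))
 (Pq.cons (Pq.L [0,1] 1 (Pf.C 0 65667))
 (Pq.cons (Pq.L [1,2] 1 (Pf.C 0 0x804182))
 (Pq.cons (Pq.L [1,2] 1 (Pf.C 0 0x808083))
 (Pq.cons (Pq.L [0,1] 1 (Pf.C 0 65667))
 (Pq.cons (Pq.L [0,1] 1 (Pf.C 0 0x804180))
 (Pq.cons (Pq.L [1,2] 1 (Pf.C 0 0x410083))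
 (Pq.cons (Pq.L [0,1] 1 (Pf.C 0 0x804003))
 (Pq.cons (Pq.L [] 1 (Pf.C 2 515))
 (Pq.cons (Pq.L [1,2] 1 (Pf.C 0 0x410083))
 (Pq.cons (Pq.L [0,1] 1 (Pf.C 0 65667))
 (Pq.cons (Pq.L [1,2] 1 (Pf.C 0 0x804182))
 (Pq.cons (Pq.L [1,2] 1 (Pf.C 0 0x808083))
 (Pq.cons (Pq.L [0,1] 1 (Pf.C 0 65667))
 (Pq.cons (Pq.L [0,1] 1 (Pf.C 0 0x804180))
 (Pq.cons (Pq.L [1,2] 1 (Pf.C 0 0x410083))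
 (Pq.cons (Pq.L [0,1] 1 (Pf.C 0 0x804003))
 (Pq.cons (Pq.L [] 1 (Pf.C 2 515))
 Pq.nil))))))))))))))))))
theorem e1_o41 : AllRef e1_T e1_G54 (blockObl [82,83,84,85] [0,2,4,8] [9,8,8,7] [9,8,8,7]) :=
  chkPq_sound e1_o41c _ (by decide +kernel)
noncomputable def e1_o42c : Pq := (Pq.cons (Pq.L [] 0 (Pf.W 70 3 [] [] (Pf.cons (Pf.W 70 3 [4] [] (Pf.cons (Pf.C 3 66179) Pf.nil)) Pf.nil)))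
 (Pq.cons (Pq.L [] 0 (Pf.W 71 3 [] [] (Pf.cons (Pf.W 71 3 [4] [] (Pf.cons (Pf.C 3 66179) Pf.nil)) Pf.nil)))
 Pq.nil))
theorem e1_o42 : AllRef e1_T e1_G59 (List.map pat1 [100,102]) :=
  chkPq_sound e1_o42c _ (by decide +kernel)
noncomputable def e1_o43c : Pq := Pq.nil
theorem e1_o43 : AllRef e1_T e1_G60 (extObl 98 [] []) :=
  chkPq_sound e1_o43c _ (by decide +kernel)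
noncomputable def e1_o44c : Pq := Pq.nil
theorem e1_o44 : AllRef e1_T e1_G61 (extObl 104 [] []) :=
  chkPq_sound e1_o44c _ (by decide +kernel)
noncomputable def e1_o45c : Pq := (Pq.cons (Pq.D 0 (Pq.cons (Pq.D 1 (Pq.cons (Pq.D 2 (Pq.cons (Pq.D 3 (Pq.cons (Pq.L [] 7 (Pf.C 69 0xc14203))
 (Pq.cons (Pq.L [1,2] 4 (Pf.C 0 0x418083))
 (Pq.cons (Pq.L [0,1] 4 (Pf.C 0 98435))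
 (Pq.cons (Pq.L [] 7 (Pf.C 69 0xc14203))
 Pq.nil))))) (Pq.cons (Pq.L [1,2] 2 (Pf.C 0 0x414083))
 (Pq.cons (Pq.L [0,1] 2 (Pf.C 0 82051))
 (Pq.cons (Pq.D 3 (Pq.cons (Pq.L [] 7 (Pf.C 69 0xc14203))
 (Pq.cons (Pq.L [1,2] 4 (Pf.C 0 0x418083))
 (Pq.cons (Pq.L [0,1] 4 (Pf.C 0 98435))
 (Pq.cons (Pq.L [] 6 (Pf.C 3 98947))
 Pq.nil))))) Pq.nil))))) (Pq.cons (Pq.L [1,2] 1 (Pf.C 0 0x410083))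
 (Pq.cons (Pq.L [0,1] 1 (Pf.C 0 65667))
 (Pq.cons (Pq.D 2 (Pq.cons (Pq.D 3 (Pq.cons (Pq.L [] 7 (Pf.C 69 0xc14203))
 (Pq.cons (Pq.L [1,2] 4 (Pf.C 0 0x418083))
 (Pq.cons (Pq.L [0,1] 4 (Pf.C 0 98435))
 (Pq.cons (Pq.L [] 5 (Pf.C 3 98819))
 Pq.nil))))) (Pq.cons (Pq.L [1,2] 2 (Pf.C 0 0x414083))
 (Pq.cons (Pq.L [0,1] 2 (Pf.C 0 82051))
 (Pq.cons (Pq.L [] 3 (Pf.C 3 82435))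
 Pq.nil))))) Pq.nil))))) (Pq.cons (Pq.D 1 (Pq.cons (Pq.L [1,2] 1 (Pf.C 0 0x804182))
 (Pq.cons (Pq.L [1,2] 1 (Pf.C 0 0x808083))
 (Pq.cons (Pq.L [0,1] 1 (Pf.C 0 65667))
 (Pq.cons (Pq.D 2 (Pq.cons (Pq.L [1,2] 2 (Pf.C 0 0xa04182))
 (Pq.cons (Pq.L [1,2] 2 (Pf.C 0 0xa08083))
 (Pq.cons (Pq.L [0,1] 2 (Pf.C 0 82051))
 (Pq.cons (Pq.L [] 3 (Pf.C 3 82435))
 Pq.nil))))) Pq.nil))))) (Pq.cons (Pq.D 1 (Pq.cons (Pq.L [0,1] 1 (Pf.C 0 0x804180))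
 (Pq.cons (Pq.L [1,2] 1 (Pf.C 0 0x410083))
 (Pq.cons (Pq.L [0,1] 1 (Pf.C 0 0x804003))
 (Pq.cons (Pq.D 2 (Pq.cons (Pq.L [0,1] 2 (Pf.C 0 0xa04180))
 (Pq.cons (Pq.L [1,2] 2 (Pf.C 0 0x414083))
 (Pq.cons (Pq.L [0,1] 2 (Pf.C 0 0xa04003))
 (Pq.cons (Pq.L [] 3 (Pf.C 3 82435))
 Pq.nil))))) Pq.nil))))) (Pq.cons (Pq.D 1 (Pq.cons (Pq.D 2 (Pq.cons (Pq.D 3 (Pq.cons (Pq.L [] 7 (Pf.C 73 0xc14203))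
 (Pq.cons (Pq.L [] 7 (Pf.C 73 0xc14203))
 (Pq.cons (Pq.L [] 7 (Pf.C 73 0xc14203))
 (Pq.cons (Pq.L [] 4 (Pf.C 2 771))
 Pq.nil))))) (Pq.cons (Pq.L [1,2] 3 (Pf.B 5 4 (Pf.C 53 49796) (Pf.C 0 0x404284)))
 (Pq.cons (Pq.L [0,1] 3 (Pf.B 5 4 (Pf.C 55 49796) (Pf.C 0 17028)))
 (Pq.cons (Pq.L [] 2 (Pf.C 2 643))
 Pq.nil))))) (Pq.cons (Pq.D 2 (Pq.cons (Pq.L [1,2] 3 (Pf.B 5 4 (Pf.C 53 49669) (Pf.C 0 0x404205)))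
 (Pq.cons (Pq.L [1,2] 3 (Pf.B 5 4 (Pf.C 0 0x808085) (Pf.C 56 49669)))
 (Pq.cons (Pq.D 3 (Pq.cons (Pq.L [] 7 (Pf.C 73 0xc14203))
 (Pq.cons (Pq.L [] 7 (Pf.C 73 0xc14203))
 (Pq.cons (Pq.L [] 7 (Pf.C 73 0xc14203))
 (Pq.cons (Pq.L [] 4 (Pf.C 2 771))
 Pq.nil))))) (Pq.cons (Pq.L [] 2 (Pf.C 2 643))
 Pq.nil))))) (Pq.cons (Pq.D 2 (Pq.cons (Pq.L [0,1] 3 (Pf.B 5 4 (Pf.C 55 49669) (Pf.C 0 16901)))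
 (Pq.cons (Pq.D 3 (Pq.cons (Pq.L [] 7 (Pf.C 73 0xc14203))
 (Pq.cons (Pq.L [] 7 (Pf.C 73 0xc14203))
 (Pq.cons (Pq.L [] 7 (Pf.C 73 0xc14203))
 (Pq.cons (Pq.L [] 4 (Pf.C 2 771))
 Pq.nil))))) (Pq.cons (Pq.L [0,1] 3 (Pf.B 5 4 (Pf.C 0 0x804005) (Pf.C 58 49669)))
 (Pq.cons (Pq.L [] 2 (Pf.C 2 643))
 Pq.nil))))) (Pq.cons (Pq.L [] 1 (Pf.C 2 515))
 Pq.nil))))) Pq.nil))))) Pq.nil)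
theorem e1_o45 : AllRef e1_T e1_G63 (applyObl TD2 1 [99,101,103,105] [0,0,0,0] [(101,0x20000000000000000000000000),(103,0x80000000000000000000000000),(105,0x200000000000000000000000000)]) :=
  chkPq_sound e1_o45c _ (by decide +kernel)
noncomputable def e1_o46c : Pq := Pq.nil
theorem e1_o46 : AllRef e1_T e1_G64 (ptObl 99 (PT.br 3 PT.kid PT.kid) []) :=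
  chkPq_sound e1_o46c _ (by decide +kernel)
noncomputable def e1_o47c : Pq := (Pq.cons (Pq.L [0,1,2,3] 0 (Pf.W 72 3 [4] [0,1,2] (Pf.cons (Pf.B 5 4 (Pf.C 53 49669) (Pf.C 0 0x404205)) (Pf.cons (Pf.B 5 4 (Pf.C 0 0x808085) (Pf.C 56 49669)) (Pf.cons (Pf.T 5 30 (Pf.cons (Pf.W 72 3 [4,5] [0,1,2] (Pf.cons (Pf.B 6 5 (Pf.C 55 49798) (Pf.C 0 17030)) (Pf.cons (Pf.B 6 4 (Pf.C 0 0x808086) (Pf.C 56 49670)) (Pf.cons (Pf.B 6 5 (Pf.C 0 0xa04006) (Pf.C 58 49798)) Pf.nil)))) Pf.nil)) Pf.nil)))))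
 Pq.nil)
theorem e1_o47 : AllRef e1_T e1_G65 (ptObl 101 (PT.br 3 PT.kid PT.ref) []) :=
  chkPq_sound e1_o47c _ (by decide +kernel)
noncomputable def e1_o48c : Pq := (Pq.cons (Pq.L [0,1,2,3] 0 (Pf.W 72 3 [4] [0,1,2] (Pf.cons (Pf.B 5 4 (Pf.C 55 49669) (Pf.C 0 16901)) (Pf.cons (Pf.T 5 29 (Pf.cons (Pf.W 72 3 [4,5] [0,1,2] (Pf.cons (Pf.B 6 5 (Pf.C 53 49798) (Pf.C 0 0x404286)) (Pf.cons (Pf.B 6 5 (Pf.C 0 0xa08086) (Pf.C 56 49798)) (Pf.cons (Pf.B 6 4 (Pf.C 0 0x804006) (Pf.C 58 49670)) Pf.nil)))) Pf.nil)) (Pf.cons (Pf.B 5 4 (Pf.C 0 0x804005) (Pf.C 58 49669)) Pf.nil)))))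
 Pq.nil)
theorem e1_o48 : AllRef e1_T e1_G66 (ptObl 103 (PT.br 3 PT.kid PT.ref) []) :=
  chkPq_sound e1_o48c _ (by decide +kernel)
noncomputable def e1_o49c : Pq := Pq.nil
theorem e1_o49 : AllRef e1_T e1_G67 (ptObl 104 PT.kid []) :=
  chkPq_sound e1_o49c _ (by decide +kernel)
noncomputable def e1_o50c : Pq := (Pq.cons (Pq.L [3] 0 (Pf.C 2 388))
 Pq.nil)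
theorem e1_o50 : AllRef e1_T e1_G68 (ptObl 112 (PT.br 3 PT.ref PT.kid) []) :=
  chkPq_sound e1_o50c _ (by decide +kernel)
noncomputable def e1_o51c : Pq := (Pq.cons (Pq.L [3] 0 (Pf.C 2 388))
 Pq.nil)
theorem e1_o51 : AllRef e1_T e1_G69 (ptObl 105 (PT.br 3 PT.ref PT.kid) []) :=
  chkPq_sound e1_o51c _ (by decide +kernel)
noncomputable def e1_o52c : Pq := (Pq.cons (Pq.L [1,2,3] 0 (Pf.W 72 3 [] [1,2,4] (Pf.cons (Pf.B 5 4 (Pf.C 52 49669) (Pf.C 0 0x404205)) (Pf.cons (Pf.T 5 29 (Pf.cons (Pf.T 5 33 Pf.nil) Pf.nil)) (Pf.cons (Pf.T 5 30 (Pf.cons (Pf.T 5 34 Pf.nil) Pf.nil)) Pf.nil)))))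
 (Pq.cons (Pq.L [0,1,3] 0 (Pf.W 72 3 [] [0,1,4] (Pf.cons (Pf.B 5 4 (Pf.C 54 49669) (Pf.C 0 16901)) (Pf.cons (Pf.T 5 29 (Pf.cons (Pf.T 5 33 Pf.nil) Pf.nil)) (Pf.cons (Pf.T 5 30 (Pf.cons (Pf.T 5 34 Pf.nil) Pf.nil)) Pf.nil)))))
 Pq.nil))
theorem e1_o52 : AllRef e1_T e1_G70 (List.map pat1 [110,111]) :=
  chkPq_sound e1_o52c _ (by decide +kernel)
noncomputable def e1_o53c : Pq := (Pq.cons (Pq.L [0,1,2,3] 0 (Pf.W 72 3 [] [0,1,2,4] (Pf.cons (Pf.B 5 4 (Pf.T 5 28 (Pf.cons (Pf.T 5 32 (Pf.cons (Pf.W 72 3 [5] [0,1,2,4] (Pf.cons (Pf.B 6 5 (Pf.B 6 4 (Pf.T 6 28 (Pf.cons (Pf.T 6 32 (Pf.cons (Pf.W 72 4 [] [0,1,2,3,5,6] (Pf.cons (Pf.B 7 3 (Pf.B 7 6 (Pf.B 7 5 (Pf.T 7 28 (Pf.cons (Pf.T 7 32 (Pf.cons (Pf.T 7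 38 (Pf.cons (Pf.C 78 900) (Pf.cons (Pf.W 72 4 [7] [0,1,2,3,5,6] (Pf.cons (Pf.B 8 7 (Pf.B 8 3 (Pf.B 8 6 (Pf.B 8 5 (Pf.T 8 28 (Pf.cons (Pf.T 8 32 (Pf.cons (Pf.T 8 38 (Pf.cons (Pf.C 78 1028) (Pf.cons (Pf.W 65 773 [] [1,3,4,7,8] (Pf.cons (Pf.B 9 8 (Pf.B 9 7 (Pf.B 9 4 (Pf.C 1 0x4040e14486) (Pf.B 9 3 (Pf.T 9 27 (Pf.cons (Pf.T 9 28 (Pf.cons (Pf.T 9 32 (Pf.cons (Pf.T 9 38 (Pf.cons (Pf.C 78 1156) (Pf.cons (Pf.C 76 649) Pf.nil))) Pf.nil)) Pf.nil)) (Pf.cons (Pf.C 66 521) Pf.nil))) (Pf.C 3 65929))) (Pf.C 0 0xa04487)) (Pf.C 0 0xa04488)) (Pf.cons (Pf.B 9 8 (Pf.B 9 7 (Pf.B 9 4 (Pf.C 1 0x4040e18485) (Pf.B 9 3 (Pf.T 9 27 (Pf.cons (Pf.T 9 28 (Pf.cons (Pf.T 9 32 (Pf.cons (Pf.T 9 38 (Pf.cons (Pf.C 78 1156)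 (Pf.cons (Pf.C 76 777) Pf.nil))) Pf.nil)) Pf.nil)) (Pf.cons (Pf.C 66 521) Pf.nil))) (Pf.C 3 65929))) (Pf.C 0 0xc04487)) (Pf.C 0 0xc04488)) (Pf.cons (Pf.C 3 50309) (Pf.cons (Pf.C 3 50310) Pf.nil))))) Pf.nil))) Pf.nil)) Pf.nil)) (Pf.T 8 28 (Pf.cons (Pf.T 8 32 (Pf.cons (Pf.T 8 38 (Pf.cons (Pf.C 78 1028) (Pf.cons (Pf.C 76 648) Pf.nil))) Pf.nil)) Pf.nil))) (Pf.T 8 28 (Pf.cons (Pf.T 8 32 (Pf.cons (Pf.T 8 38 (Pf.cons (Pf.C 78 1028) (Pf.cons (Pf.C 76 776) Pf.nil))) Pf.nil)) Pf.nil))) (Pf.C 3 65928)) (Pf.C 51 66440)) (Pf.cons (Pf.B 8 7 (Pf.C 53 66567) (Pf.C 0 0x404407)) (Pf.cons (Pf.B 8 7 (Pf.C 55 66567) (Pf.C 0 17415)) Pf.nil)))) Pf.nil))) Pf.nil)) Pf.nil)) (Pf.T 7 28 (Pf.cons (Pf.T 7 32 (Pf.cons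 (Pf.T 7 38 (Pf.cons (Pf.C 78 900) (Pf.cons (Pf.C 76 647) Pf.nil))) Pf.nil)) Pf.nil))) (Pf.T 7 28 (Pf.cons (Pf.T 7 32 (Pf.cons (Pf.T 7 38 (Pf.cons (Pf.C 78 900) (Pf.cons (Pf.C 76 775) Pf.nil))) Pf.nil)) Pf.nil))) (Pf.C 3 65927)) (Pf.cons (Pf.B 7 5 (Pf.B 7 3 (Pf.C 52 50053) (Pf.C 3 65927)) (Pf.C 0 0x404385)) (Pf.cons (Pf.B 7 5 (Pf.B 7 3 (Pf.C 54 50053) (Pf.C 3 65927)) (Pf.C 0 17285)) Pf.nil)))) Pf.nil)) Pf.nil)) (Pf.C 3 49670)) (Pf.C 51 49798)) (Pf.cons (Pf.B 6 5 (Pf.C 53 49925) (Pf.C 0 0x404305)) (Pf.cons (Pf.B 6 5 (Pf.C 55 49925) (Pf.C 0 17157)) Pf.nil)))) Pf.nil)) Pf.nil)) (Pf.C 3 49669)) (Pf.cons (Pf.T 5 29 (Pf.cons (Pf.T 5 33 Pf.nil) Pf.nil)) (Pf.cons (Pf.T 5 30 (Pf.cons (Pf.T 5 34 Pf.nil)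 Pf.nil)) Pf.nil)))))
 Pq.nil)
theorem e1_o53 : AllRef e1_T e1_G74 (List.map pat1 [118]) :=
  chkPq_sound e1_o53c _ (by decide +kernel)
noncomputable def e1_o54c : Pq := (Pq.cons (Pq.L [] 0 (Pf.X 3 4))
 (Pq.cons (Pq.L [1] 1 (Pf.W 75 4 [] [1,5] (Pf.cons (Pf.B 6 5 (Pf.C 0 0xa10086) (Pf.C 76 773)) Pf.nil)))
 (Pq.cons (Pq.L [0,1,2,3] 1 (Pf.W 81 4 [] [0,1,2,3,5] (Pf.cons (Pf.B 6 5 (Pf.B 6 1 (Pf.W 77 6 [] [0,1,2,3,4,5] (Pf.cons (Pf.B 7 4 (Pf.B 7 5 (Pf.W 75 7 [] [0,1,2,3,4,5,6] (Pf.cons (Pf.B 8 6 (Pf.B 8 5 (Pf.B 8 4 (Pf.W 72 6 [4,7] [0,1,2,3,5,8] (Pf.cons (Pf.B 9 8 (Pf.B 9 7 (Pf.B 9 4 (Pf.B 9 5 (Pf.B 9 3 (Pf.C 1 0x3880614209) (Pf.C 3 98697)) (Pf.C 0 0x804289)) (Pf.C 51 98825)) (Pf.C 51 99209)) (Pf.C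 69 0xe0c488)) (Pf.cons (Pf.B 9 8 (Pf.B 9 7 (Pf.C 53 99463) (Pf.C 0 0x1004389)) (Pf.C 0 0x404488)) (Pf.cons (Pf.B 9 8 (Pf.B 9 7 (Pf.C 55 99463) (Pf.C 0 0x1004389)) (Pf.C 0 17544)) Pf.nil)))) (Pf.C 76 1028)) (Pf.C 76 1029)) (Pf.C 3 49928)) Pf.nil)) (Pf.C 0 0x804287)) (Pf.C 51 98823)) Pf.nil)) (Pf.C 0 0xa10086)) (Pf.C 82 773)) Pf.nil)))
 (Pq.cons (Pq.L [] 1 (Pf.C 76 517))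
 (Pq.cons (Pq.L [] 1 (Pf.C 82 517))
 (Pq.cons (Pq.L [0,1,2,3] 1 (Pf.W 79 4 [] [0,1,2,3,5] (Pf.cons (Pf.B 6 5 (Pf.W 75 6 [] [0,1,2,3,4,5] (Pf.cons (Pf.B 7 4 (Pf.W 72 3 [7] [0,1,2,4,5,6] (Pf.cons (Pf.B 8 7 (Pf.B 8 6 (Pf.B 8 4 (Pf.B 8 5 (Pf.T 8 28 (Pf.cons (Pf.T 8 32 (Pf.cons (Pf.W 72 3 [7,8] [0,1,2,4,5,6] (Pf.cons (Pf.B 9 8 (Pf.B 9 7 (Pf.B 9 6 (Pf.B 9 4 (Pf.B 9 5 (Pf.T 9 28 (Pf.cons (Pf.T 9 32 (Pf.cons (Pf.W 65 1160 [] [1,3,4,5,6,7] (Pf.cons (Pf.B 10 7 (Pf.B 10 6 (Pf.B 10 4 (Pf.C 1 0x3860820509) (Pf.T 10 27 (Pf.cons (Pf.C 73 0xc14504) (Pf.cons (Pf.C 66 522) Pf.nil)))) (Pf.C 0 0xe0430a)) (Pf.C 0 0x1004507)) (Pf.cons (Pf.B 10 7 (Pf.B 10 6 (Pf.B 10 4 (Pf.C 1 0x3860824508) (Pf.T 10 27 (Pf.cons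 (Pf.C 73 0xc14504) (Pf.cons (Pf.C 66 522) Pf.nil)))) (Pf.C 0 0xe0430a)) (Pf.C 0 0x1204507)) (Pf.cons (Pf.C 3 50440) (Pf.cons (Pf.C 3 50441) Pf.nil))))) Pf.nil)) Pf.nil)) (Pf.T 9 28 (Pf.cons (Pf.T 9 32 (Pf.cons (Pf.C 76 1157) Pf.nil)) Pf.nil))) (Pf.C 3 49673)) (Pf.C 0 0xe04309)) (Pf.C 51 50057)) (Pf.C 51 50185)) (Pf.cons (Pf.B 9 8 (Pf.C 53 50312) (Pf.C 0 0x404488)) (Pf.cons (Pf.B 9 8 (Pf.C 55 50312) (Pf.C 0 17544)) Pf.nil)))) Pf.nil)) Pf.nil)) (Pf.T 8 28 (Pf.cons (Pf.T 8 32 (Pf.cons (Pf.C 76 1029) Pf.nil)) Pf.nil))) (Pf.C 3 49672)) (Pf.C 0 0xe04308)) (Pf.C 51 50056)) (Pf.cons (Pf.B 8 7 (Pf.C 53 50183) (Pf.C 0 0x404407)) (Pf.cons (Pf.B 8 7 (Pf.C 55 50183) (Pf.C 0 17415)) Pf.nil)))) (Pf.C 3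 49671)) Pf.nil)) (Pf.C 51 66182)) Pf.nil)))
 (Pq.cons (Pq.L [] 0 (Pf.X 3 4))
 (Pq.cons (Pq.L [] 1 (Pf.C 80 517))
 (Pq.cons (Pq.L [] 1 (Pf.W 81 4 [] [5] (Pf.cons (Pf.C 3 82692) Pf.nil)))
 (Pq.cons (Pq.L [3] 1 (Pf.C 3 82308))
 (Pq.cons (Pq.L [] 1 (Pf.C 2 644))
 (Pq.cons (Pq.L [] 1 (Pf.C 2 644))
 Pq.nil))))))))))))
theorem e1_o54 : AllRef e1_T e1_G76 (closeObl (e1_T.sc.get 1) false [115,121,122,109,117,119,120] [0,0,0,0,3,3,3] [3] [3] 59) :=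
  chkPq_sound e1_o54c _ (by decide +kernel)
noncomputable def e1_o55c : Pq := (Pq.cons (Pq.L [] 1 (Pf.C 2 644))
 (Pq.cons (Pq.L [0,1,2,3] 0 (Pf.T 4 39 (Pf.cons (Pf.T 5 39 (Pf.cons (Pf.W 77 4 [] [0,1,2,3,5] (Pf.cons (Pf.B 6 5 (Pf.W 77 5 [] [0,1,2,3,4,6] (Pf.cons (Pf.B 7 4 (Pf.B 7 6 (Pf.W 75 6 [] [0,1,2,3,5,7] (Pf.cons (Pf.B 8 7 (Pf.B 8 5 (Pf.W 75 7 [] [0,1,2,3,5,6,8] (Pf.cons (Pf.B 9 8 (Pf.B 9 6 (Pf.B 9 5 (Pf.B 5 2 (Pf.C 1 0x4870a20302) (Pf.B 5 0 (Pf.C 1 0x4870a20300) (Pf.C 1 0x1050020309))) (Pf.C 3 49801)) (Pf.C 0 0x1004309)) (Pf.C 51 50185)) Pf.nil)) (Pf.C 3 49800)) (Pf.C 0 0xc04407)) Pf.nil)) (Pf.W 75 6 [] [4,7] (Pf.cons (Pf.C 69 0xe10406) Pf.nil))) (Pf.C 3 82439)) Pf.nil)) (Pf.C 3 66182))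 Pf.nil)) Pf.nil)) Pf.nil)))
 (Pq.cons (Pq.L [] 1 (Pf.C 2 644))
 (Pq.cons (Pq.L [0,1,2,3] 0 (Pf.T 4 40 (Pf.cons (Pf.T 5 40 (Pf.cons (Pf.W 79 4 [] [0,1,2,3,5] (Pf.cons (Pf.B 6 5 (Pf.W 79 5 [] [0,1,2,3,4,6] (Pf.cons (Pf.B 7 4 (Pf.B 7 6 (Pf.W 75 6 [] [0,1,2,3,5,7] (Pf.cons (Pf.B 8 7 (Pf.B 8 5 (Pf.W 75 7 [] [0,1,2,3,5,6,8] (Pf.cons (Pf.B 9 8 (Pf.B 9 6 (Pf.B 9 5 (Pf.B 5 2 (Pf.C 1 0x4870a20302) (Pf.B 5 0 (Pf.C 1 0x4870a20300) (Pf.C 1 0x1050020309))) (Pf.C 3 49801)) (Pf.C 0 0x1004309)) (Pf.C 51 50185)) Pf.nil)) (Pf.C 3 49800)) (Pf.C 0 0xc04407)) Pf.nil)) (Pf.W 75 6 [] [4,7] (Pf.cons (Pf.C 69 0xe10406) Pf.nil))) (Pf.C 3 82439)) Pf.nil)) (Pf.C 3 66182)) Pf.nil)) Pf.nil)) Pf.nil)))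
 Pq.nil))))
theorem e1_o55 : AllRef e1_T e1_G77 (hitObl [113,114] e1_h93) :=
  chkPq_sound e1_o55c _ (by decide +kernel)
noncomputable def e1_o56c : Pq := (Pq.cons (Pq.L [] 0 (Pf.C 83 4))
 (Pq.cons (Pq.L [] 0 (Pf.C 84 4))
 Pq.nil))
theorem e1_o56 : AllRef e1_T e1_G78 (List.map pat1 [123,124]) :=
  chkPq_sound e1_o56c _ (by decide +kernel)
noncomputable def e1_o57c : Pq := (Pq.cons (Pq.L [] 7 (Pf.C 69 0xe18284))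
 Pq.nil)
theorem e1_o57 : AllRef e1_T e1_G79 (applyObl TD2 1 [108,109] [0,0] []) :=
  chkPq_sound e1_o57c _ (by decide +kernel)
noncomputable def e1_o58c : Pq := Pq.nil
theorem e1_o58 : AllRef e1_T e1_G62 (ptObl 98 PT.kid []) :=
  chkPq_sound e1_o58c _ (by decide +kernel)
noncomputable def e1_o59c : Pq := Pq.nil
theorem e1_o59 : AllRef e1_T e1_G80 (ptObl 125 (PT.br 3 PT.kid PT.kid) []) :=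
  chkPq_sound e1_o59c _ (by decide +kernel)
noncomputable def e1_o60c : Pq := Pq.nil
theorem e1_o60 : AllRef e1_T e1_G81 (ptObl 99 (PT.br 3 PT.kid PT.kid) []) :=
  chkPq_sound e1_o60c _ (by decide +kernel)
noncomputable def e1_o61c : Pq := (Pq.cons (Pq.L [1,2,3] 0 (Pf.C 0 0x604202))
 Pq.nil)
theorem e1_o61 : AllRef e1_T e1_G82 (ptObl 101 (PT.br 3 PT.kid PT.ref) []) :=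
  chkPq_sound e1_o61c _ (by decide +kernel)
noncomputable def e1_o62c : Pq := (Pq.cons (Pq.L [0,1,3] 0 (Pf.C 0 0x604200))
 Pq.nil)
theorem e1_o62 : AllRef e1_T e1_G83 (ptObl 103 (PT.br 3 PT.kid PT.ref) []) :=
  chkPq_sound e1_o62c _ (by decide +kernel)
noncomputable def e1_o63c : Pq := (Pq.cons (Pq.L [0,1,2,3] 0 (Pf.W 68 3 [4] [0,1,2] (Pf.cons (Pf.B 5 4 (Pf.B 4 1 (Pf.T 5 28 (Pf.cons (Pf.W 68 3 [4,5] [0,1,2] (Pf.cons (Pf.B 6 5 (Pf.C 0 0xa0c086) (Pf.B 6 4 (Pf.T 6 28 (Pf.cons (Pf.W 72 4 [3] [0,1,2,5,6] (Pf.cons (Pf.B 7 3 (Pf.B 7 6 (Pf.B 7 5 (Pf.T 7 28 (Pf.cons (Pf.W 72 4 [3,7] [0,1,2,5,6] (Pf.cons (Pf.B 8 7 (Pf.B 8 3 (Pf.B 8 6 (Pf.B 8 5 (Pf.B 4 2 (Pf.C 1 0x4040e18282) (Pf.B 4 0 (Pf.C 1 0x3840418280)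 (Pf.W 68 7 [4] [0,1,2,5,6] (Pf.cons (Pf.B 9 6 (Pf.B 9 5 (Pf.B 9 4 (Pf.C 1 0x1040018289) (Pf.C 51 66441)) (Pf.C 0 0xc04289)) (Pf.C 0 0xe04486)) (Pf.cons (Pf.C 3 66695) Pf.nil))))) (Pf.C 0 0x604288)) (Pf.C 0 0x604308)) (Pf.C 51 65928)) (Pf.C 51 66440)) (Pf.cons (Pf.B 8 7 (Pf.C 53 66567) (Pf.C 0 0x404407)) (Pf.cons (Pf.B 8 7 (Pf.C 55 66567) (Pf.C 0 17415)) Pf.nil)))) (Pf.cons (Pf.W 72 4 [3,7] [0,1,2,5,6] (Pf.cons (Pf.B 8 7 (Pf.B 8 3 (Pf.B 8 6 (Pf.B 8 5 (Pf.B 4 2 (Pf.C 1 0x4040e18282) (Pf.B 4 0 (Pf.C 1 0x3840418280) (Pf.W 65 1031 [] [0,1,2,4,5,6] (Pf.cons (Pf.B 9 6 (Pf.B 9 5 (Pf.B 9 4 (Pf.C 1 0x1040018289) (Pf.C 51 66441)) (Pf.C 0 0xc04289)) (Pf.C 0 0xe04486)) (Pf.cons (Pf.B 9 6 (Pf.B 9 5 (Pf.B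 9 4 (Pf.C 1 0x1040018289) (Pf.C 51 66569)) (Pf.C 0 0xc04289)) (Pf.C 0 0x1004486)) (Pf.cons (Pf.C 3 66695) (Pf.cons (Pf.C 3 66696) Pf.nil))))))) (Pf.C 0 0x604288)) (Pf.C 0 0x604308)) (Pf.C 51 65928)) (Pf.C 51 66440)) (Pf.cons (Pf.B 8 7 (Pf.C 53 66567) (Pf.C 0 0x404407)) (Pf.cons (Pf.B 8 7 (Pf.C 55 66567) (Pf.C 0 17415)) Pf.nil)))) Pf.nil))) (Pf.C 0 0x604287)) (Pf.C 0 0x604307)) (Pf.C 51 65927)) (Pf.cons (Pf.B 7 6 (Pf.B 7 5 (Pf.B 7 3 (Pf.C 53 66435) (Pf.C 0 0xa04187)) (Pf.C 0 0xc04287)) (Pf.C 0 0x404386)) (Pf.cons (Pf.B 7 6 (Pf.B 7 5 (Pf.B 7 3 (Pf.C 55 66435) (Pf.C 0 0xa04187)) (Pf.C 0 0xc04287)) (Pf.C 0 17286)) Pf.nil)))) (Pf.cons (Pf.W 72 4 [3] [0,1,2,5,6] (Pf.cons (Pf.B 7 6 (Pf.B 7 5 (Pf.T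 7 28 (Pf.cons (Pf.W 72 4 [3,7] [0,1,2,5,6] (Pf.cons (Pf.B 8 7 (Pf.B 8 6 (Pf.B 8 5 (Pf.B 4 2 (Pf.C 1 0x4040e18282) (Pf.B 4 0 (Pf.C 1 0x3840418280) (Pf.W 68 7 [4] [0,1,2,5,6] (Pf.cons (Pf.B 9 6 (Pf.B 9 5 (Pf.B 9 4 (Pf.C 1 0x1040018289) (Pf.C 51 66441)) (Pf.C 0 0xc04289)) (Pf.C 0 0xe04486)) (Pf.cons (Pf.C 3 66695) Pf.nil))))) (Pf.C 0 0xc04288)) (Pf.C 69 0xa0c406)) (Pf.C 51 66440)) (Pf.cons (Pf.B 8 7 (Pf.C 53 66567) (Pf.C 0 0x404407)) (Pf.cons (Pf.B 8 7 (Pf.C 55 66567) (Pf.C 0 17415)) Pf.nil)))) (Pf.cons (Pf.W 72 4 [3,7] [0,1,2,5,6] (Pf.cons (Pf.B 8 7 (Pf.B 8 6 (Pf.B 8 5 (Pf.B 4 2 (Pf.C 1 0x4040e18282) (Pf.B 4 0 (Pf.C 1 0x3840418280) (Pf.W 65 1031 [] [0,1,2,4,5,6] (Pf.cons (Pf.B 9 6 (Pf.B 9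 5 (Pf.B 9 4 (Pf.C 1 0x1040018289) (Pf.C 51 66441)) (Pf.C 0 0xc04289)) (Pf.C 0 0xe04486)) (Pf.cons (Pf.B 9 6 (Pf.B 9 5 (Pf.B 9 4 (Pf.C 1 0x1040018289) (Pf.C 51 66569)) (Pf.C 0 0xc04289)) (Pf.C 0 0x1004486)) (Pf.cons (Pf.C 3 66695) (Pf.cons (Pf.C 3 66696) Pf.nil))))))) (Pf.C 0 0xc04288)) (Pf.C 69 0xa0c406)) (Pf.C 51 66440)) (Pf.cons (Pf.B 8 7 (Pf.C 53 66567) (Pf.C 0 0x404407)) (Pf.cons (Pf.B 8 7 (Pf.C 55 66567) (Pf.C 0 17415)) Pf.nil)))) Pf.nil))) (Pf.C 0 0xc04287)) (Pf.C 69 0xa0c386)) (Pf.cons (Pf.B 7 6 (Pf.B 7 5 (Pf.B 7 3 (Pf.C 53 66435) (Pf.C 0 0xa04187)) (Pf.C 0 0xc04287)) (Pf.C 0 0x404386)) (Pf.cons (Pf.B 7 6 (Pf.B 7 5 (Pf.B 7 3 (Pf.C 55 66435) (Pf.C 0 0xa04187)) (Pf.C 0 0xc04287)) (Pf.C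 0 17286)) Pf.nil)))) Pf.nil))) (Pf.C 51 65926))) (Pf.cons (Pf.C 3 66307) Pf.nil))) (Pf.cons (Pf.W 68 3 [4,5] [0,1,2] (Pf.cons (Pf.B 6 5 (Pf.C 0 0xa0c086) (Pf.B 6 4 (Pf.T 6 28 (Pf.cons (Pf.W 72 4 [3] [0,1,2,5,6] (Pf.cons (Pf.B 7 5 (Pf.B 7 6 (Pf.T 7 28 (Pf.cons (Pf.W 72 4 [3,7] [0,1,2,5,6] (Pf.cons (Pf.B 8 7 (Pf.B 8 5 (Pf.B 8 6 (Pf.B 4 2 (Pf.C 1 0x4040e18282) (Pf.B 4 0 (Pf.C 1 0x3840418280) (Pf.W 68 7 [4] [0,1,2,5,6] (Pf.cons (Pf.B 9 6 (Pf.B 9 5 (Pf.B 9 4 (Pf.C 1 0x1040018289) (Pf.C 51 66441)) (Pf.C 0 0xc04289)) (Pf.C 0 0xe04486)) (Pf.cons (Pf.C 3 66695) Pf.nil))))) (Pf.C 0 0xa04308)) (Pf.C 69 0xc0c405)) (Pf.C 51 66440)) (Pf.cons (Pf.B 8 7 (Pf.C 53 66567) (Pf.C 0 0x404407)) (Pf.cons (Pf.B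 8 7 (Pf.C 55 66567) (Pf.C 0 17415)) Pf.nil)))) (Pf.cons (Pf.W 72 4 [3,7] [0,1,2,5,6] (Pf.cons (Pf.B 8 7 (Pf.B 8 5 (Pf.B 8 6 (Pf.B 4 2 (Pf.C 1 0x4040e18282) (Pf.B 4 0 (Pf.C 1 0x3840418280) (Pf.W 65 1031 [] [0,1,2,4,5,6] (Pf.cons (Pf.B 9 6 (Pf.B 9 5 (Pf.B 9 4 (Pf.C 1 0x1040018289) (Pf.C 51 66441)) (Pf.C 0 0xc04289)) (Pf.C 0 0xe04486)) (Pf.cons (Pf.B 9 6 (Pf.B 9 5 (Pf.B 9 4 (Pf.C 1 0x1040018289) (Pf.C 51 66569)) (Pf.C 0 0xc04289)) (Pf.C 0 0x1004486)) (Pf.cons (Pf.C 3 66695) (Pf.cons (Pf.C 3 66696) Pf.nil))))))) (Pf.C 0 0xa04308)) (Pf.C 69 0xc0c405)) (Pf.C 51 66440)) (Pf.cons (Pf.B 8 7 (Pf.C 53 66567) (Pf.C 0 0x404407)) (Pf.cons (Pf.B 8 7 (Pf.C 55 66567) (Pf.C 0 17415)) Pf.nil)))) Pf.nil)))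 (Pf.C 0 0xa04307)) (Pf.C 69 0xc0c385)) (Pf.cons (Pf.B 7 6 (Pf.B 7 5 (Pf.B 7 3 (Pf.C 53 66435) (Pf.C 0 0xa04187)) (Pf.C 0 0xc04287)) (Pf.C 0 0x404386)) (Pf.cons (Pf.B 7 6 (Pf.B 7 5 (Pf.B 7 3 (Pf.C 55 66435) (Pf.C 0 0xa04187)) (Pf.C 0 0xc04287)) (Pf.C 0 17286)) Pf.nil)))) (Pf.cons (Pf.W 72 4 [3] [0,1,2,5,6] (Pf.cons (Pf.B 7 6 (Pf.B 7 5 (Pf.T 7 28 (Pf.cons (Pf.W 72 4 [3,7] [0,1,2,5,6] (Pf.cons (Pf.B 8 7 (Pf.B 8 6 (Pf.B 8 5 (Pf.B 4 2 (Pf.C 1 0x4040e18282) (Pf.B 4 0 (Pf.C 1 0x3840418280) (Pf.W 68 7 [4] [0,1,2,5,6] (Pf.cons (Pf.B 9 6 (Pf.B 9 5 (Pf.B 9 4 (Pf.C 1 0x1040018289) (Pf.C 51 66441)) (Pf.C 0 0xc04289)) (Pf.C 0 0xe04486)) (Pf.cons (Pf.C 3 66695) Pf.nil))))) (Pf.C 0 0xc04288)) (Pf.C 69 0xa0c406))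 (Pf.C 51 66440)) (Pf.cons (Pf.B 8 7 (Pf.C 53 66567) (Pf.C 0 0x404407)) (Pf.cons (Pf.B 8 7 (Pf.C 55 66567) (Pf.C 0 17415)) Pf.nil)))) (Pf.cons (Pf.W 72 4 [3,7] [0,1,2,5,6] (Pf.cons (Pf.B 8 7 (Pf.B 8 6 (Pf.B 8 5 (Pf.B 4 2 (Pf.C 1 0x4040e18282) (Pf.B 4 0 (Pf.C 1 0x3840418280) (Pf.W 65 1031 [] [0,1,2,4,5,6] (Pf.cons (Pf.B 9 6 (Pf.B 9 5 (Pf.B 9 4 (Pf.C 1 0x1040018289) (Pf.C 51 66441)) (Pf.C 0 0xc04289)) (Pf.C 0 0xe04486)) (Pf.cons (Pf.B 9 6 (Pf.B 9 5 (Pf.B 9 4 (Pf.C 1 0x1040018289) (Pf.C 51 66569)) (Pf.C 0 0xc04289)) (Pf.C 0 0x1004486)) (Pf.cons (Pf.C 3 66695) (Pf.cons (Pf.C 3 66696) Pf.nil))))))) (Pf.C 0 0xc04288)) (Pf.C 69 0xa0c406)) (Pf.C 51 66440)) (Pf.cons (Pf.B 8 7 (Pf.C 53 66567) (Pf.C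 0 0x404407)) (Pf.cons (Pf.B 8 7 (Pf.C 55 66567) (Pf.C 0 17415)) Pf.nil)))) Pf.nil))) (Pf.C 0 0xc04287)) (Pf.C 69 0xa0c386)) (Pf.cons (Pf.B 7 6 (Pf.B 7 5 (Pf.B 7 3 (Pf.C 53 66435) (Pf.C 0 0xa04187)) (Pf.C 0 0xc04287)) (Pf.C 0 0x404386)) (Pf.cons (Pf.B 7 6 (Pf.B 7 5 (Pf.B 7 3 (Pf.C 55 66435) (Pf.C 0 0xa04187)) (Pf.C 0 0xc04287)) (Pf.C 0 17286)) Pf.nil)))) Pf.nil))) (Pf.C 51 65926))) (Pf.cons (Pf.C 3 66307) Pf.nil))) Pf.nil))) (Pf.C 0 0xa0c084)) (Pf.C 51 65925)) (Pf.cons (Pf.C 3 66179) Pf.nil))))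
 Pq.nil)
theorem e1_o63 : AllRef e1_T e1_G84 (ptObl 104 (PT.br 3 PT.kid PT.ref) []) :=
  chkPq_sound e1_o63c _ (by decide +kernel)
noncomputable def e1_o64c : Pq := Pq.nil
theorem e1_o64 : AllRef e1_T e1_G85 (ptObl 105 (PT.br 3 PT.kid PT.kid) []) :=
  chkPq_sound e1_o64c _ (by decide +kernel)
noncomputable def e1_o65c : Pq := (Pq.cons (Pq.L [0,1,2,3] 0 (Pf.W 68 3 [] [0,1,2,4] (Pf.cons (Pf.B 5 4 (Pf.T 5 28 (Pf.cons (Pf.T 5 42 (Pf.cons (Pf.T 5 43 (Pf.cons (Pf.W 68 3 [5] [0,1,2,4] (Pf.cons (Pf.B 6 5 (Pf.C 0 0xa0c086) (Pf.B 6 4 (Pf.T 6 28 (Pf.cons (Pf.T 6 42 (Pf.cons (Pf.T 6 43 (Pf.cons (Pf.W 68 3 [5,6] [0,1,2,4] (Pf.cons (Pf.B 7 6 (Pf.C 0 0xc0c087) (Pf.B 7 5 (Pf.C 0 0xa0c087) (Pf.B 7 4 (Pf.T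 7 28 (Pf.cons (Pf.T 7 42 (Pf.cons (Pf.T 7 43 (Pf.cons (Pf.W 72 4 [] [0,1,2,3,5,6,7] (Pf.cons (Pf.B 8 7 (Pf.B 8 6 (Pf.B 8 5 (Pf.B 8 3 (Pf.T 8 28 (Pf.cons (Pf.T 8 42 (Pf.cons (Pf.T 8 43 (Pf.cons (Pf.W 72 4 [8] [0,1,2,3,5,6,7] (Pf.cons (Pf.B 9 8 (Pf.B 4 1 (Pf.B 9 7 (Pf.B 9 6 (Pf.B 9 5 (Pf.B 9 3 (Pf.B 4 2 (Pf.C 1 0x4841014182) (Pf.B 4 0 (Pf.C 1 0x4040414180) (Pf.W 68 8 [4] [0,1,2,5,6,7] (Pf.cons (Pf.B 10 7 (Pf.B 10 6 (Pf.B 10 5 (Pf.B 10 4 (Pf.C 1 0x104001828a) (Pf.C 51 66570)) (Pf.C 0 0xc0428a)) (Pf.C 0 0xe0430a)) (Pf.C 0 0x1004507)) (Pf.cons (Pf.C 3 66824) Pf.nil))))) (Pf.C 0 0xa04189)) (Pf.C 0 0xc04289)) (Pf.C 0 0xe04309)) (Pf.B 9 6 (Pf.C 0 0xc1c089) (Pf.B 9 5 (Pf.C 0 0xa18089) (Pf.B 9 3 (Pf.C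 0 0x614089) (Pf.T 9 28 (Pf.cons (Pf.T 9 42 (Pf.cons (Pf.T 9 43 (Pf.cons (Pf.W 72 4 [8,9] [0,1,2,3,5,6,7] (Pf.cons (Pf.B 10 9 (Pf.B 10 8 (Pf.B 10 7 (Pf.B 10 6 (Pf.B 10 5 (Pf.B 10 3 (Pf.B 4 2 (Pf.C 1 0x5041014182) (Pf.B 4 0 (Pf.C 1 0x4040414180) (Pf.W 68 8 [4] [0,1,2,5,6,7,9] (Pf.cons (Pf.B 11 9 (Pf.B 11 7 (Pf.B 11 6 (Pf.B 11 5 (Pf.B 11 4 (Pf.C 1 0x104001828b) (Pf.C 51 66571)) (Pf.C 0 0xc0428b)) (Pf.C 0 0xe0430b)) (Pf.C 0 0x120438b)) (Pf.C 0 0x1004589)) (Pf.cons (Pf.C 3 66952) Pf.nil))))) (Pf.C 0 0xa0418a)) (Pf.C 0 0xc0428a)) (Pf.C 0 0xe0430a)) (Pf.C 0 0x120438a)) (Pf.C 51 66570)) (Pf.C 51 66698)) (Pf.cons (Pf.B 10 9 (Pf.C 53 66825) (Pf.C 0 0x404509)) (Pf.cons (Pf.B 10 9 (Pf.C 55 66825) (Pf.C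 0 17673)) Pf.nil)))) Pf.nil)) Pf.nil)) (Pf.cons (Pf.C 69 0xa10189) Pf.nil))))))) (Pf.C 0 0x1204208)) (Pf.C 51 66569)) (Pf.cons (Pf.B 9 8 (Pf.C 53 66696) (Pf.C 0 0x404488)) (Pf.cons (Pf.B 9 8 (Pf.C 55 66696) (Pf.C 0 17544)) Pf.nil)))) Pf.nil)) Pf.nil)) (Pf.cons (Pf.T 8 44 (Pf.cons (Pf.W 72 4 [8] [0,1,2,3,5,6,7] (Pf.cons (Pf.B 9 8 (Pf.B 4 1 (Pf.B 9 7 (Pf.B 9 6 (Pf.B 9 5 (Pf.B 9 3 (Pf.B 4 2 (Pf.C 1 0x4841014182) (Pf.B 4 0 (Pf.C 1 0x4040414180) (Pf.W 65 1160 [] [0,1,2,4,5,6,7] (Pf.cons (Pf.B 10 7 (Pf.B 10 6 (Pf.B 10 5 (Pf.B 10 4 (Pf.C 1 0x104001828a) (Pf.C 51 66570)) (Pf.C 0 0xc0428a)) (Pf.C 0 0xe0430a)) (Pf.C 0 0x1004507)) (Pf.cons (Pf.B 10 7 (Pf.B 10 6 (Pf.B 10 5 (Pf.B 10 4 (Pf.C 1 0x104001828a)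 (Pf.C 51 66698)) (Pf.C 0 0xc0428a)) (Pf.C 0 0xe0430a)) (Pf.C 0 0x1204507)) (Pf.cons (Pf.C 3 66824) (Pf.cons (Pf.C 3 66825) Pf.nil))))))) (Pf.C 0 0xa04189)) (Pf.C 0 0xc04289)) (Pf.C 0 0xe04309)) (Pf.B 9 6 (Pf.C 0 0xc1c089) (Pf.B 9 5 (Pf.C 0 0xa18089) (Pf.B 9 3 (Pf.C 0 0x614089) (Pf.T 9 28 (Pf.cons (Pf.T 9 42 (Pf.cons (Pf.T 9 43 (Pf.cons (Pf.W 72 4 [8,9] [0,1,2,3,5,6,7] (Pf.cons (Pf.B 10 9 (Pf.B 10 8 (Pf.B 10 7 (Pf.B 10 6 (Pf.B 10 5 (Pf.B 10 3 (Pf.B 4 2 (Pf.C 1 0x5041014182) (Pf.B 4 0 (Pf.C 1 0x4040414180) (Pf.W 65 1288 [] [0,1,2,4,5,6,7,9] (Pf.cons (Pf.B 11 9 (Pf.B 11 7 (Pf.B 11 6 (Pf.B 11 5 (Pf.B 11 4 (Pf.C 1 0x104001828b) (Pf.C 51 66571)) (Pf.C 0 0xc0428b)) (Pf.C 0 0xe0430b)) (Pf.C 0 0x120438b))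 (Pf.C 0 0x1004589)) (Pf.cons (Pf.B 11 9 (Pf.B 11 7 (Pf.B 11 6 (Pf.B 11 5 (Pf.B 11 4 (Pf.C 1 0x104001828b) (Pf.C 51 66827)) (Pf.C 0 0xc0428b)) (Pf.C 0 0xe0430b)) (Pf.C 0 0x120438b)) (Pf.C 0 0x1404589)) (Pf.cons (Pf.C 3 66952) (Pf.cons (Pf.C 3 66954) Pf.nil))))))) (Pf.C 0 0xa0418a)) (Pf.C 0 0xc0428a)) (Pf.C 0 0xe0430a)) (Pf.C 0 0x120438a)) (Pf.C 51 66570)) (Pf.C 51 66698)) (Pf.cons (Pf.B 10 9 (Pf.C 53 66825) (Pf.C 0 0x404509)) (Pf.cons (Pf.B 10 9 (Pf.C 55 66825) (Pf.C 0 17673)) Pf.nil)))) Pf.nil)) Pf.nil)) (Pf.cons (Pf.C 69 0xa10189) Pf.nil))))))) (Pf.C 0 0x1204208)) (Pf.C 51 66569)) (Pf.cons (Pf.B 9 8 (Pf.C 53 66696) (Pf.C 0 0x404488)) (Pf.cons (Pf.B 9 8 (Pf.C 55 66696) (Pf.C 0 17544)) Pf.nil))))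 Pf.nil)) Pf.nil))) (Pf.C 0 0xa04188)) (Pf.C 0 0xc04288)) (Pf.C 0 0xe04308)) (Pf.B 8 6 (Pf.C 0 0xc1c088) (Pf.B 8 5 (Pf.C 0 0xa18088) (Pf.B 8 3 (Pf.C 0 0x614088) (Pf.B 4 1 (Pf.T 8 28 (Pf.cons (Pf.T 8 42 (Pf.cons (Pf.T 8 43 (Pf.cons (Pf.W 72 4 [8] [0,1,2,3,5,6,7] (Pf.cons (Pf.B 9 8 (Pf.B 9 7 (Pf.B 9 6 (Pf.B 9 5 (Pf.B 9 3 (Pf.T 9 28 (Pf.cons (Pf.T 9 42 (Pf.cons (Pf.T 9 43 (Pf.cons (Pf.W 72 4 [8,9] [0,1,2,3,5,6,7] (Pf.cons (Pf.B 10 9 (Pf.B 10 8 (Pf.B 10 7 (Pf.B 10 6 (Pf.B 10 5 (Pf.B 10 3 (Pf.B 4 2 (Pf.C 1 0x5041214182) (Pf.B 4 0 (Pf.C 1 0x4840414180) (Pf.W 68 9 [4] [0,1,2,5,6,7,8] (Pf.cons (Pf.B 11 8 (Pf.B 11 7 (Pf.B 11 6 (Pf.B 11 5 (Pf.B 11 4 (Pf.C 1 0x104001828b) (Pf.C 51 66699)) (Pf.C 0 0xc0428b))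 (Pf.C 0 0xe0430b)) (Pf.C 0 0x100438b)) (Pf.C 0 0x1204588)) (Pf.cons (Pf.C 3 66953) Pf.nil))))) (Pf.C 0 0xa0418a)) (Pf.C 0 0xc0428a)) (Pf.C 0 0xe0430a)) (Pf.C 0 0x100438a)) (Pf.C 51 66570)) (Pf.C 51 66698)) (Pf.cons (Pf.B 10 9 (Pf.C 53 66825) (Pf.C 0 0x404509)) (Pf.cons (Pf.B 10 9 (Pf.C 55 66825) (Pf.C 0 17673)) Pf.nil)))) Pf.nil)) Pf.nil)) (Pf.cons (Pf.T 9 44 (Pf.cons (Pf.W 72 4 [8,9] [0,1,2,3,5,6,7] (Pf.cons (Pf.B 10 9 (Pf.B 10 8 (Pf.B 10 7 (Pf.B 10 6 (Pf.B 10 5 (Pf.B 10 3 (Pf.B 4 2 (Pf.C 1 0x5041214182) (Pf.B 4 0 (Pf.C 1 0x4840414180) (Pf.W 65 1289 [] [0,1,2,4,5,6,7,8] (Pf.cons (Pf.B 11 8 (Pf.B 11 7 (Pf.B 11 6 (Pf.B 11 5 (Pf.B 11 4 (Pf.C 1 0x104001828b) (Pf.C 51 66699)) (Pf.C 0 0xc0428b))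 (Pf.C 0 0xe0430b)) (Pf.C 0 0x100438b)) (Pf.C 0 0x1204588)) (Pf.cons (Pf.B 11 8 (Pf.B 11 7 (Pf.B 11 6 (Pf.B 11 5 (Pf.B 11 4 (Pf.C 1 0x104001828b) (Pf.C 51 66827)) (Pf.C 0 0xc0428b)) (Pf.C 0 0xe0430b)) (Pf.C 0 0x100438b)) (Pf.C 0 0x1404588)) (Pf.cons (Pf.C 3 66953) (Pf.cons (Pf.C 3 66954) Pf.nil))))))) (Pf.C 0 0xa0418a)) (Pf.C 0 0xc0428a)) (Pf.C 0 0xe0430a)) (Pf.C 0 0x100438a)) (Pf.C 51 66570)) (Pf.C 51 66698)) (Pf.cons (Pf.B 10 9 (Pf.C 53 66825) (Pf.C 0 0x404509)) (Pf.cons (Pf.B 10 9 (Pf.C 55 66825) (Pf.C 0 17673)) Pf.nil)))) Pf.nil)) Pf.nil))) (Pf.C 0 0xa04189)) (Pf.C 0 0xc04289)) (Pf.C 0 0xe04309)) (Pf.C 0 0x1004389)) (Pf.C 51 66569)) (Pf.cons (Pf.B 9 8 (Pf.C 53 66696) (Pf.C 0 0x404488))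 (Pf.cons (Pf.B 9 8 (Pf.C 55 66696) (Pf.C 0 17544)) Pf.nil)))) Pf.nil)) Pf.nil)) (Pf.cons (Pf.C 69 0xa10188) Pf.nil))) (Pf.C 0 0x620084)))))) (Pf.cons (Pf.B 8 7 (Pf.B 8 6 (Pf.B 8 5 (Pf.B 8 3 (Pf.T 8 29 (Pf.cons (Pf.T 8 45 (Pf.cons (Pf.W 72 4 [8] [0,1,2,3,5] (Pf.cons (Pf.B 9 8 (Pf.C 53 66569) (Pf.C 0 0x404409)) (Pf.cons (Pf.B 9 8 (Pf.C 0 0x1008089) (Pf.C 56 66569)) (Pf.cons (Pf.B 9 8 (Pf.B 4 1 (Pf.B 4 2 (Pf.B 4 0 (Pf.C 1 0x1080814180) (Pf.C 0 0x224004)) (Pf.C 0 0x220104)) (Pf.C 0 0x1204208)) (Pf.C 0 0x404409)) Pf.nil)))) Pf.nil)) Pf.nil)) (Pf.C 0 0xa04188)) (Pf.C 0 0xc04288)) (Pf.C 0 0xe04308)) (Pf.C 0 0x404407)) (Pf.cons (Pf.T 8 30 (Pf.cons (Pf.T 8 46 (Pf.cons (Pf.W 72 4 [8] [0,1,2,3,5,6,7]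 (Pf.cons (Pf.B 9 8 (Pf.C 55 66569) (Pf.C 0 17417)) (Pf.cons (Pf.B 9 8 (Pf.B 9 7 (Pf.B 9 6 (Pf.B 9 5 (Pf.B 9 3 (Pf.B 4 1 (Pf.B 4 2 (Pf.B 4 0 (Pf.C 1 0x1090814180) (Pf.C 0 0x220004)) (Pf.C 0 0x224104)) (Pf.C 0 0x1204208)) (Pf.C 0 0xa04189)) (Pf.C 0 0xc04289)) (Pf.C 0 0xe04309)) (Pf.C 0 0x404487)) (Pf.C 0 17417)) (Pf.cons (Pf.B 9 8 (Pf.C 0 0x1004009) (Pf.C 58 66569)) Pf.nil)))) Pf.nil)) Pf.nil)) Pf.nil)))) Pf.nil)) Pf.nil)) (Pf.cons (Pf.C 69 0xc14187) Pf.nil))) (Pf.B 4 1 (Pf.T 7 28 (Pf.cons (Pf.T 7 42 (Pf.cons (Pf.T 7 43 (Pf.cons (Pf.W 72 4 [7] [0,1,2,3,5,6] (Pf.cons (Pf.B 8 7 (Pf.B 8 6 (Pf.B 8 5 (Pf.B 8 3 (Pf.T 8 28 (Pf.cons (Pf.T 8 42 (Pf.cons (Pf.T 8 43 (Pf.cons (Pf.W 72 4 [7,8] [0,1,2,3,5,6]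 (Pf.cons (Pf.B 9 8 (Pf.B 9 7 (Pf.B 9 6 (Pf.B 9 5 (Pf.B 9 3 (Pf.B 4 2 (Pf.C 1 0x4841014182) (Pf.B 4 0 (Pf.C 1 0x4040414180) (Pf.W 68 8 [4] [0,1,2,5,6,7] (Pf.cons (Pf.B 10 7 (Pf.B 10 6 (Pf.B 10 5 (Pf.B 10 4 (Pf.C 1 0x104001828a) (Pf.C 51 66570)) (Pf.C 0 0xc0428a)) (Pf.C 0 0xe0430a)) (Pf.C 0 0x1004507)) (Pf.cons (Pf.C 3 66824) Pf.nil))))) (Pf.C 0 0xa04189)) (Pf.C 0 0xc04289)) (Pf.C 0 0xe04309)) (Pf.C 51 66441)) (Pf.C 51 66569)) (Pf.cons (Pf.B 9 8 (Pf.C 53 66696) (Pf.C 0 0x404488)) (Pf.cons (Pf.B 9 8 (Pf.C 55 66696) (Pf.C 0 17544)) Pf.nil)))) Pf.nil)) Pf.nil)) (Pf.cons (Pf.T 8 44 (Pf.cons (Pf.W 72 4 [7,8] [0,1,2,3,5,6] (Pf.cons (Pf.B 9 8 (Pf.B 9 7 (Pf.B 9 6 (Pf.B 9 5 (Pf.B 9 3 (Pf.B 4 2 (Pf.C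 1 0x4841014182) (Pf.B 4 0 (Pf.C 1 0x4040414180) (Pf.W 65 1160 [] [0,1,2,4,5,6,7] (Pf.cons (Pf.B 10 7 (Pf.B 10 6 (Pf.B 10 5 (Pf.B 10 4 (Pf.C 1 0x104001828a) (Pf.C 51 66570)) (Pf.C 0 0xc0428a)) (Pf.C 0 0xe0430a)) (Pf.C 0 0x1004507)) (Pf.cons (Pf.B 10 7 (Pf.B 10 6 (Pf.B 10 5 (Pf.B 10 4 (Pf.C 1 0x104001828a) (Pf.C 51 66698)) (Pf.C 0 0xc0428a)) (Pf.C 0 0xe0430a)) (Pf.C 0 0x1204507)) (Pf.cons (Pf.C 3 66824) (Pf.cons (Pf.C 3 66825) Pf.nil))))))) (Pf.C 0 0xa04189)) (Pf.C 0 0xc04289)) (Pf.C 0 0xe04309)) (Pf.C 51 66441)) (Pf.C 51 66569)) (Pf.cons (Pf.B 9 8 (Pf.C 53 66696) (Pf.C 0 0x404488)) (Pf.cons (Pf.B 9 8 (Pf.C 55 66696) (Pf.C 0 17544)) Pf.nil)))) Pf.nil)) Pf.nil))) (Pf.C 0 0xa04188)) (Pf.C 0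 0xc04288)) (Pf.C 0 0xe04308)) (Pf.C 51 66440)) (Pf.cons (Pf.B 8 7 (Pf.C 53 66567) (Pf.C 0 0x404407)) (Pf.cons (Pf.B 8 7 (Pf.C 55 66567) (Pf.C 0 17415)) Pf.nil)))) Pf.nil)) Pf.nil)) (Pf.cons (Pf.C 69 0xa10187) Pf.nil))) (Pf.C 0 0x61c084))))) (Pf.cons (Pf.T 7 31 (Pf.cons (Pf.T 7 47 Pf.nil) (Pf.cons (Pf.T 7 48 (Pf.cons (Pf.W 72 4 [] [0,1,2,3,5,6,7] (Pf.cons (Pf.B 8 6 (Pf.B 8 5 (Pf.B 8 3 (Pf.T 8 28 (Pf.cons (Pf.T 8 42 (Pf.cons (Pf.T 8 43 (Pf.cons (Pf.W 72 4 [8] [0,1,2,3,5,6] (Pf.cons (Pf.B 9 8 (Pf.B 4 1 (Pf.B 9 6 (Pf.B 9 5 (Pf.B 9 3 (Pf.B 4 2 (Pf.C 1 0x4841014182) (Pf.B 4 0 (Pf.C 1 0x4040414180) (Pf.W 68 8 [4] [0,1,2,5,6] (Pf.cons (Pf.B 10 6 (Pf.B 10 5 (Pf.B 10 4 (Pf.C 1 0x104001828a) (Pf.C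 51 66570)) (Pf.C 0 0xc0428a)) (Pf.C 0 0x1004506)) (Pf.cons (Pf.C 3 66824) Pf.nil))))) (Pf.C 0 0xa04189)) (Pf.C 0 0xc04289)) (Pf.B 9 5 (Pf.C 0 0xa18089) (Pf.B 9 3 (Pf.C 0 0x614089) (Pf.T 9 28 (Pf.cons (Pf.T 9 42 (Pf.cons (Pf.T 9 43 (Pf.cons (Pf.W 72 4 [8,9] [0,1,2,3,5,6] (Pf.cons (Pf.B 10 9 (Pf.B 10 8 (Pf.B 10 6 (Pf.B 10 5 (Pf.B 10 3 (Pf.B 4 2 (Pf.C 1 0x5041014182) (Pf.B 4 0 (Pf.C 1 0x4040414180) (Pf.W 68 8 [4] [0,1,2,5,6,9] (Pf.cons (Pf.B 11 9 (Pf.B 11 6 (Pf.B 11 5 (Pf.B 11 4 (Pf.C 1 0x104001828b) (Pf.C 51 66571)) (Pf.C 0 0xc0428b)) (Pf.C 0 0x120430b)) (Pf.C 0 0x1004589)) (Pf.cons (Pf.C 3 66952) Pf.nil))))) (Pf.C 0 0xa0418a)) (Pf.C 0 0xc0428a)) (Pf.C 0 0x120430a)) (Pf.C 51 66570)) (Pf.C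 51 66698)) (Pf.cons (Pf.B 10 9 (Pf.C 53 66825) (Pf.C 0 0x404509)) (Pf.cons (Pf.B 10 9 (Pf.C 55 66825) (Pf.C 0 17673)) Pf.nil)))) Pf.nil)) Pf.nil)) (Pf.cons (Pf.C 69 0xa10189) Pf.nil)))))) (Pf.C 0 0x1204208)) (Pf.C 51 66569)) (Pf.cons (Pf.B 9 8 (Pf.C 53 66696) (Pf.C 0 0x404488)) (Pf.cons (Pf.B 9 8 (Pf.C 55 66696) (Pf.C 0 17544)) Pf.nil)))) Pf.nil)) Pf.nil)) (Pf.cons (Pf.T 8 44 (Pf.cons (Pf.W 72 4 [8] [0,1,2,3,5,6] (Pf.cons (Pf.B 9 8 (Pf.B 4 1 (Pf.B 9 6 (Pf.B 9 5 (Pf.B 9 3 (Pf.B 4 2 (Pf.C 1 0x4841014182) (Pf.B 4 0 (Pf.C 1 0x4040414180) (Pf.W 65 1160 [] [0,1,2,4,5,6] (Pf.cons (Pf.B 10 6 (Pf.B 10 5 (Pf.B 10 4 (Pf.C 1 0x104001828a) (Pf.C 51 66570)) (Pf.C 0 0xc0428a)) (Pf.C 0 0x1004506)) (Pf.cons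 (Pf.B 10 6 (Pf.B 10 5 (Pf.B 10 4 (Pf.C 1 0x104001828a) (Pf.C 51 66698)) (Pf.C 0 0xc0428a)) (Pf.C 0 0x1204506)) (Pf.cons (Pf.C 3 66824) (Pf.cons (Pf.C 3 66825) Pf.nil))))))) (Pf.C 0 0xa04189)) (Pf.C 0 0xc04289)) (Pf.B 9 5 (Pf.C 0 0xa18089) (Pf.B 9 3 (Pf.C 0 0x614089) (Pf.T 9 28 (Pf.cons (Pf.T 9 42 (Pf.cons (Pf.T 9 43 (Pf.cons (Pf.W 72 4 [8,9] [0,1,2,3,5,6] (Pf.cons (Pf.B 10 9 (Pf.B 10 8 (Pf.B 10 6 (Pf.B 10 5 (Pf.B 10 3 (Pf.B 4 2 (Pf.C 1 0x5041014182) (Pf.B 4 0 (Pf.C 1 0x4040414180) (Pf.W 65 1288 [] [0,1,2,4,5,6,9] (Pf.cons (Pf.B 11 9 (Pf.B 11 6 (Pf.B 11 5 (Pf.B 11 4 (Pf.C 1 0x104001828b) (Pf.C 51 66571)) (Pf.C 0 0xc0428b)) (Pf.C 0 0x120430b)) (Pf.C 0 0x1004589)) (Pf.cons (Pf.B 11 9 (Pf.B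 11 6 (Pf.B 11 5 (Pf.B 11 4 (Pf.C 1 0x104001828b) (Pf.C 51 66827)) (Pf.C 0 0xc0428b)) (Pf.C 0 0x120430b)) (Pf.C 0 0x1404589)) (Pf.cons (Pf.C 3 66952) (Pf.cons (Pf.C 3 66954) Pf.nil))))))) (Pf.C 0 0xa0418a)) (Pf.C 0 0xc0428a)) (Pf.C 0 0x120430a)) (Pf.C 51 66570)) (Pf.C 51 66698)) (Pf.cons (Pf.B 10 9 (Pf.C 53 66825) (Pf.C 0 0x404509)) (Pf.cons (Pf.B 10 9 (Pf.C 55 66825) (Pf.C 0 17673)) Pf.nil)))) Pf.nil)) Pf.nil)) (Pf.cons (Pf.C 69 0xa10189) Pf.nil)))))) (Pf.C 0 0x1204208)) (Pf.C 51 66569)) (Pf.cons (Pf.B 9 8 (Pf.C 53 66696) (Pf.C 0 0x404488)) (Pf.cons (Pf.B 9 8 (Pf.C 55 66696) (Pf.C 0 17544)) Pf.nil)))) Pf.nil)) Pf.nil))) (Pf.C 0 0xa04188)) (Pf.C 0 0xc04288)) (Pf.B 8 5 (Pf.C 0 0xa18088) (Pf.B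 8 3 (Pf.C 0 0x614088) (Pf.B 4 1 (Pf.T 8 28 (Pf.cons (Pf.T 8 42 (Pf.cons (Pf.T 8 43 (Pf.cons (Pf.W 72 4 [8] [0,1,2,3,5,6] (Pf.cons (Pf.B 9 8 (Pf.B 9 6 (Pf.B 9 5 (Pf.B 9 3 (Pf.T 9 28 (Pf.cons (Pf.T 9 42 (Pf.cons (Pf.T 9 43 (Pf.cons (Pf.W 72 4 [8,9] [0,1,2,3,5,6] (Pf.cons (Pf.B 10 9 (Pf.B 10 8 (Pf.B 10 6 (Pf.B 10 5 (Pf.B 10 3 (Pf.B 4 2 (Pf.C 1 0x5041214182) (Pf.B 4 0 (Pf.C 1 0x4840414180) (Pf.W 68 9 [4] [0,1,2,5,6,8] (Pf.cons (Pf.B 11 8 (Pf.B 11 6 (Pf.B 11 5 (Pf.B 11 4 (Pf.C 1 0x104001828b) (Pf.C 51 66699)) (Pf.C 0 0xc0428b)) (Pf.C 0 0x100430b)) (Pf.C 0 0x1204588)) (Pf.cons (Pf.C 3 66953) Pf.nil))))) (Pf.C 0 0xa0418a)) (Pf.C 0 0xc0428a)) (Pf.C 0 0x100430a)) (Pf.C 51 66570)) (Pf.C 51 66698))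 (Pf.cons (Pf.B 10 9 (Pf.C 53 66825) (Pf.C 0 0x404509)) (Pf.cons (Pf.B 10 9 (Pf.C 55 66825) (Pf.C 0 17673)) Pf.nil)))) Pf.nil)) Pf.nil)) (Pf.cons (Pf.T 9 44 (Pf.cons (Pf.W 72 4 [8,9] [0,1,2,3,5,6] (Pf.cons (Pf.B 10 9 (Pf.B 10 8 (Pf.B 10 6 (Pf.B 10 5 (Pf.B 10 3 (Pf.B 4 2 (Pf.C 1 0x5041214182) (Pf.B 4 0 (Pf.C 1 0x4840414180) (Pf.W 65 1289 [] [0,1,2,4,5,6,8] (Pf.cons (Pf.B 11 8 (Pf.B 11 6 (Pf.B 11 5 (Pf.B 11 4 (Pf.C 1 0x104001828b) (Pf.C 51 66699)) (Pf.C 0 0xc0428b)) (Pf.C 0 0x100430b)) (Pf.C 0 0x1204588)) (Pf.cons (Pf.B 11 8 (Pf.B 11 6 (Pf.B 11 5 (Pf.B 11 4 (Pf.C 1 0x104001828b) (Pf.C 51 66827)) (Pf.C 0 0xc0428b)) (Pf.C 0 0x100430b)) (Pf.C 0 0x1404588)) (Pf.cons (Pf.C 3 66953) (Pf.cons (Pf.C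 3 66954) Pf.nil))))))) (Pf.C 0 0xa0418a)) (Pf.C 0 0xc0428a)) (Pf.C 0 0x100430a)) (Pf.C 51 66570)) (Pf.C 51 66698)) (Pf.cons (Pf.B 10 9 (Pf.C 53 66825) (Pf.C 0 0x404509)) (Pf.cons (Pf.B 10 9 (Pf.C 55 66825) (Pf.C 0 17673)) Pf.nil)))) Pf.nil)) Pf.nil))) (Pf.C 0 0xa04189)) (Pf.C 0 0xc04289)) (Pf.C 0 0x1004309)) (Pf.C 51 66569)) (Pf.cons (Pf.B 9 8 (Pf.C 53 66696) (Pf.C 0 0x404488)) (Pf.cons (Pf.B 9 8 (Pf.C 55 66696) (Pf.C 0 17544)) Pf.nil)))) Pf.nil)) Pf.nil)) (Pf.cons (Pf.C 69 0xa10188) Pf.nil))) (Pf.C 0 0x620084))))) (Pf.cons (Pf.B 8 7 (Pf.B 8 6 (Pf.B 8 5 (Pf.B 8 3 (Pf.C 52 0x1c403) (Pf.C 0 0xa04188)) (Pf.C 0 0xc04288)) (Pf.C 0 0x404406)) (Pf.C 3 66440)) (Pf.cons (Pf.B 8 7 (Pf.B 8 6 (Pf.B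 8 5 (Pf.B 8 3 (Pf.C 54 0x1c403) (Pf.C 0 0xa04188)) (Pf.C 0 0xc04288)) (Pf.C 0 17414)) (Pf.C 3 66440)) Pf.nil)))) Pf.nil)) Pf.nil))) Pf.nil))) Pf.nil)) Pf.nil)) (Pf.cons (Pf.T 6 44 (Pf.cons (Pf.W 68 3 [5,6] [0,1,2,4] (Pf.cons (Pf.B 7 6 (Pf.C 0 0xc0c087) (Pf.C 69 0xa0c386)) (Pf.cons (Pf.T 7 31 (Pf.cons (Pf.T 7 47 Pf.nil) (Pf.cons (Pf.T 7 48 (Pf.cons (Pf.W 72 4 [] [0,1,2,3,5,6,7] (Pf.cons (Pf.B 8 6 (Pf.B 8 5 (Pf.B 8 3 (Pf.T 8 28 (Pf.cons (Pf.T 8 42 (Pf.cons (Pf.T 8 43 (Pf.cons (Pf.W 72 4 [8] [0,1,2,3,5,6] (Pf.cons (Pf.B 9 8 (Pf.B 9 6 (Pf.B 9 5 (Pf.B 9 3 (Pf.B 4 2 (Pf.C 1 0x4841014182) (Pf.B 4 0 (Pf.C 1 0x4040414180) (Pf.W 68 8 [4] [0,1,2,5,6] (Pf.cons (Pf.B 10 6 (Pf.B 10 5 (Pf.B 10 4 (Pf.C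 1 0x104001828a) (Pf.C 51 66570)) (Pf.C 0 0xc0428a)) (Pf.C 0 0x1004506)) (Pf.cons (Pf.C 3 66824) Pf.nil))))) (Pf.C 0 0xa04189)) (Pf.C 0 0xc04289)) (Pf.C 69 0xa0c486)) (Pf.C 51 66569)) (Pf.cons (Pf.B 9 8 (Pf.C 53 66696) (Pf.C 0 0x404488)) (Pf.cons (Pf.B 9 8 (Pf.C 55 66696) (Pf.C 0 17544)) Pf.nil)))) Pf.nil)) Pf.nil)) (Pf.cons (Pf.T 8 44 (Pf.cons (Pf.W 72 4 [8] [0,1,2,3,5,6] (Pf.cons (Pf.B 9 8 (Pf.B 9 6 (Pf.B 9 5 (Pf.B 9 3 (Pf.B 4 2 (Pf.C 1 0x4841014182) (Pf.B 4 0 (Pf.C 1 0x4040414180) (Pf.W 65 1160 [] [0,1,2,4,5,6] (Pf.cons (Pf.B 10 6 (Pf.B 10 5 (Pf.B 10 4 (Pf.C 1 0x104001828a) (Pf.C 51 66570)) (Pf.C 0 0xc0428a)) (Pf.C 0 0x1004506)) (Pf.cons (Pf.B 10 6 (Pf.B 10 5 (Pf.B 10 4 (Pf.C 1 0x104001828a)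 (Pf.C 51 66698)) (Pf.C 0 0xc0428a)) (Pf.C 0 0x1204506)) (Pf.cons (Pf.C 3 66824) (Pf.cons (Pf.C 3 66825) Pf.nil))))))) (Pf.C 0 0xa04189)) (Pf.C 0 0xc04289)) (Pf.C 69 0xa0c486)) (Pf.C 51 66569)) (Pf.cons (Pf.B 9 8 (Pf.C 53 66696) (Pf.C 0 0x404488)) (Pf.cons (Pf.B 9 8 (Pf.C 55 66696) (Pf.C 0 17544)) Pf.nil)))) Pf.nil)) Pf.nil))) (Pf.C 0 0xa04188)) (Pf.C 0 0xc04288)) (Pf.C 69 0xa0c406)) (Pf.cons (Pf.B 8 7 (Pf.B 8 6 (Pf.B 8 5 (Pf.B 8 3 (Pf.C 52 0x1c403) (Pf.C 0 0xa04188)) (Pf.C 0 0xc04288)) (Pf.C 0 0x404406)) (Pf.C 3 66440)) (Pf.cons (Pf.B 8 7 (Pf.B 8 6 (Pf.B 8 5 (Pf.B 8 3 (Pf.C 54 0x1c403) (Pf.C 0 0xa04188)) (Pf.C 0 0xc04288)) (Pf.C 0 17414)) (Pf.C 3 66440)) Pf.nil)))) Pf.nil)) Pf.nil))) Pf.nil)))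 Pf.nil)) Pf.nil))) (Pf.B 4 1 (Pf.T 6 28 (Pf.cons (Pf.T 6 42 (Pf.cons (Pf.T 6 43 (Pf.cons (Pf.W 72 4 [6] [0,1,2,3,5] (Pf.cons (Pf.B 7 6 (Pf.B 7 5 (Pf.B 7 3 (Pf.T 7 28 (Pf.cons (Pf.T 7 42 (Pf.cons (Pf.T 7 43 (Pf.cons (Pf.W 72 4 [6,7] [0,1,2,3,5] (Pf.cons (Pf.B 8 7 (Pf.B 8 6 (Pf.B 8 5 (Pf.B 8 3 (Pf.B 4 2 (Pf.C 1 0x4040e14182) (Pf.B 4 0 (Pf.C 1 0x3840414180) (Pf.W 68 7 [4] [0,1,2,3,5,6] (Pf.cons (Pf.B 9 6 (Pf.B 9 5 (Pf.B 9 4 (Pf.B 9 3 (Pf.C 1 0x1040014189) (Pf.C 0 0xa04189)) (Pf.C 51 66441)) (Pf.C 0 0xc04289)) (Pf.C 0 0xe04486)) (Pf.cons (Pf.C 3 66695) Pf.nil))))) (Pf.C 0 0xa04188)) (Pf.C 0 0xc04288)) (Pf.C 51 66312)) (Pf.C 51 66440)) (Pf.cons (Pf.B 8 7 (Pf.C 53 66567) (Pf.C 0 0x404407)) (Pf.cons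 (Pf.B 8 7 (Pf.C 55 66567) (Pf.C 0 17415)) Pf.nil)))) Pf.nil)) Pf.nil)) (Pf.cons (Pf.T 7 44 (Pf.cons (Pf.W 72 4 [6,7] [0,1,2,3,5] (Pf.cons (Pf.B 8 7 (Pf.B 8 6 (Pf.B 8 5 (Pf.B 8 3 (Pf.B 4 2 (Pf.C 1 0x4040e14182) (Pf.B 4 0 (Pf.C 1 0x3840414180) (Pf.W 65 1031 [] [0,1,2,3,4,5,6] (Pf.cons (Pf.B 9 6 (Pf.B 9 5 (Pf.B 9 4 (Pf.B 9 3 (Pf.C 1 0x1040014189) (Pf.C 0 0xa04189)) (Pf.C 51 66441)) (Pf.C 0 0xc04289)) (Pf.C 0 0xe04486)) (Pf.cons (Pf.B 9 6 (Pf.B 9 5 (Pf.B 9 4 (Pf.B 9 3 (Pf.C 1 0x1040014189) (Pf.C 0 0xa04189)) (Pf.C 51 66569)) (Pf.C 0 0xc04289)) (Pf.C 0 0x1004486)) (Pf.cons (Pf.C 3 66695) (Pf.cons (Pf.C 3 66696) Pf.nil))))))) (Pf.C 0 0xa04188)) (Pf.C 0 0xc04288)) (Pf.C 51 66312)) (Pf.C 51 66440))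 (Pf.cons (Pf.B 8 7 (Pf.C 53 66567) (Pf.C 0 0x404407)) (Pf.cons (Pf.B 8 7 (Pf.C 55 66567) (Pf.C 0 17415)) Pf.nil)))) Pf.nil)) Pf.nil))) (Pf.C 0 0xa04187)) (Pf.C 0 0xc04287)) (Pf.C 51 66311)) (Pf.cons (Pf.B 7 6 (Pf.C 53 66438) (Pf.C 0 0x404386)) (Pf.cons (Pf.B 7 6 (Pf.C 55 66438) (Pf.C 0 17286)) Pf.nil)))) Pf.nil)) Pf.nil)) (Pf.cons (Pf.C 69 0xa10186) Pf.nil))) (Pf.C 0 0x618084)))) (Pf.cons (Pf.T 6 31 (Pf.cons (Pf.T 6 47 Pf.nil) (Pf.cons (Pf.T 6 48 (Pf.cons (Pf.W 68 3 [5,6] [0,1,2,4] (Pf.cons (Pf.B 7 5 (Pf.C 0 0xa0c087) (Pf.B 7 4 (Pf.T 7 28 (Pf.cons (Pf.T 7 42 (Pf.cons (Pf.T 7 43 (Pf.cons (Pf.W 72 4 [] [0,1,2,3,5,6,7] (Pf.cons (Pf.B 8 7 (Pf.B 8 5 (Pf.B 8 3 (Pf.T 8 28 (Pf.cons (Pf.T 8 42 (Pf.cons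 (Pf.T 8 43 (Pf.cons (Pf.W 72 4 [8] [0,1,2,3,5,7] (Pf.cons (Pf.B 9 8 (Pf.B 4 1 (Pf.B 9 7 (Pf.B 9 5 (Pf.B 9 3 (Pf.B 4 2 (Pf.C 1 0x4841014182) (Pf.B 4 0 (Pf.C 1 0x4040414180) (Pf.W 68 8 [4] [0,1,2,5,7] (Pf.cons (Pf.B 10 7 (Pf.B 10 5 (Pf.B 10 4 (Pf.C 1 0x104001c28a) (Pf.C 51 66570)) (Pf.C 0 0xe0428a)) (Pf.C 0 0x1004507)) (Pf.cons (Pf.C 3 66824) Pf.nil))))) (Pf.C 0 0xa04189)) (Pf.C 0 0xe04289)) (Pf.B 9 5 (Pf.C 0 0xa1c089) (Pf.B 9 3 (Pf.C 0 0x614089) (Pf.T 9 28 (Pf.cons (Pf.T 9 42 (Pf.cons (Pf.T 9 43 (Pf.cons (Pf.W 72 4 [8,9] [0,1,2,3,5,7] (Pf.cons (Pf.B 10 9 (Pf.B 10 8 (Pf.B 10 7 (Pf.B 10 5 (Pf.B 10 3 (Pf.B 4 2 (Pf.C 1 0x5041014182) (Pf.B 4 0 (Pf.C 1 0x4040414180) (Pf.W 68 8 [4] [0,1,2,5,7,9]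 (Pf.cons (Pf.B 11 9 (Pf.B 11 7 (Pf.B 11 5 (Pf.B 11 4 (Pf.C 1 0x104001c28b) (Pf.C 51 66571)) (Pf.C 0 0xe0428b)) (Pf.C 0 0x120438b)) (Pf.C 0 0x1004589)) (Pf.cons (Pf.C 3 66952) Pf.nil))))) (Pf.C 0 0xa0418a)) (Pf.C 0 0xe0428a)) (Pf.C 0 0x120438a)) (Pf.C 51 66570)) (Pf.C 51 66698)) (Pf.cons (Pf.B 10 9 (Pf.C 53 66825) (Pf.C 0 0x404509)) (Pf.cons (Pf.B 10 9 (Pf.C 55 66825) (Pf.C 0 17673)) Pf.nil)))) Pf.nil)) Pf.nil)) (Pf.cons (Pf.C 69 0xa10189) Pf.nil)))))) (Pf.C 0 0x1204208)) (Pf.C 51 66569)) (Pf.cons (Pf.B 9 8 (Pf.C 53 66696) (Pf.C 0 0x404488)) (Pf.cons (Pf.B 9 8 (Pf.C 55 66696) (Pf.C 0 17544)) Pf.nil)))) Pf.nil)) Pf.nil)) (Pf.cons (Pf.T 8 44 (Pf.cons (Pf.W 72 4 [8] [0,1,2,3,5,7] (Pf.cons (Pf.B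 9 8 (Pf.B 4 1 (Pf.B 9 7 (Pf.B 9 5 (Pf.B 9 3 (Pf.B 4 2 (Pf.C 1 0x4841014182) (Pf.B 4 0 (Pf.C 1 0x4040414180) (Pf.W 65 1160 [] [0,1,2,4,5,7] (Pf.cons (Pf.B 10 7 (Pf.B 10 5 (Pf.B 10 4 (Pf.C 1 0x104001c28a) (Pf.C 51 66570)) (Pf.C 0 0xe0428a)) (Pf.C 0 0x1004507)) (Pf.cons (Pf.B 10 7 (Pf.B 10 5 (Pf.B 10 4 (Pf.C 1 0x104001c28a) (Pf.C 51 66698)) (Pf.C 0 0xe0428a)) (Pf.C 0 0x1204507)) (Pf.cons (Pf.C 3 66824) (Pf.cons (Pf.C 3 66825) Pf.nil))))))) (Pf.C 0 0xa04189)) (Pf.C 0 0xe04289)) (Pf.B 9 5 (Pf.C 0 0xa1c089) (Pf.B 9 3 (Pf.C 0 0x614089) (Pf.T 9 28 (Pf.cons (Pf.T 9 42 (Pf.cons (Pf.T 9 43 (Pf.cons (Pf.W 72 4 [8,9] [0,1,2,3,5,7] (Pf.cons (Pf.B 10 9 (Pf.B 10 8 (Pf.B 10 7 (Pf.B 10 5 (Pf.B 10 3 (Pf.B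 4 2 (Pf.C 1 0x5041014182) (Pf.B 4 0 (Pf.C 1 0x4040414180) (Pf.W 65 1288 [] [0,1,2,4,5,7,9] (Pf.cons (Pf.B 11 9 (Pf.B 11 7 (Pf.B 11 5 (Pf.B 11 4 (Pf.C 1 0x104001c28b) (Pf.C 51 66571)) (Pf.C 0 0xe0428b)) (Pf.C 0 0x120438b)) (Pf.C 0 0x1004589)) (Pf.cons (Pf.B 11 9 (Pf.B 11 7 (Pf.B 11 5 (Pf.B 11 4 (Pf.C 1 0x104001c28b) (Pf.C 51 66827)) (Pf.C 0 0xe0428b)) (Pf.C 0 0x120438b)) (Pf.C 0 0x1404589)) (Pf.cons (Pf.C 3 66952) (Pf.cons (Pf.C 3 66954) Pf.nil))))))) (Pf.C 0 0xa0418a)) (Pf.C 0 0xe0428a)) (Pf.C 0 0x120438a)) (Pf.C 51 66570)) (Pf.C 51 66698)) (Pf.cons (Pf.B 10 9 (Pf.C 53 66825) (Pf.C 0 0x404509)) (Pf.cons (Pf.B 10 9 (Pf.C 55 66825) (Pf.C 0 17673)) Pf.nil)))) Pf.nil)) Pf.nil)) (Pf.cons (Pf.C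 69 0xa10189) Pf.nil)))))) (Pf.C 0 0x1204208)) (Pf.C 51 66569)) (Pf.cons (Pf.B 9 8 (Pf.C 53 66696) (Pf.C 0 0x404488)) (Pf.cons (Pf.B 9 8 (Pf.C 55 66696) (Pf.C 0 17544)) Pf.nil)))) Pf.nil)) Pf.nil))) (Pf.C 0 0xa04188)) (Pf.C 0 0xe04288)) (Pf.B 8 5 (Pf.C 0 0xa1c088) (Pf.B 8 3 (Pf.C 0 0x614088) (Pf.B 4 1 (Pf.T 8 28 (Pf.cons (Pf.T 8 42 (Pf.cons (Pf.T 8 43 (Pf.cons (Pf.W 72 4 [8] [0,1,2,3,5,7] (Pf.cons (Pf.B 9 8 (Pf.B 9 7 (Pf.B 9 5 (Pf.B 9 3 (Pf.T 9 28 (Pf.cons (Pf.T 9 42 (Pf.cons (Pf.T 9 43 (Pf.cons (Pf.W 72 4 [8,9] [0,1,2,3,5,7] (Pf.cons (Pf.B 10 9 (Pf.B 10 8 (Pf.B 10 7 (Pf.B 10 5 (Pf.B 10 3 (Pf.B 4 2 (Pf.C 1 0x5041214182) (Pf.B 4 0 (Pf.C 1 0x4840414180) (Pf.W 68 9 [4] [0,1,2,5,7,8] (Pf.cons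 (Pf.B 11 8 (Pf.B 11 7 (Pf.B 11 5 (Pf.B 11 4 (Pf.C 1 0x104001c28b) (Pf.C 51 66699)) (Pf.C 0 0xe0428b)) (Pf.C 0 0x100438b)) (Pf.C 0 0x1204588)) (Pf.cons (Pf.C 3 66953) Pf.nil))))) (Pf.C 0 0xa0418a)) (Pf.C 0 0xe0428a)) (Pf.C 0 0x100438a)) (Pf.C 51 66570)) (Pf.C 51 66698)) (Pf.cons (Pf.B 10 9 (Pf.C 53 66825) (Pf.C 0 0x404509)) (Pf.cons (Pf.B 10 9 (Pf.C 55 66825) (Pf.C 0 17673)) Pf.nil)))) Pf.nil)) Pf.nil)) (Pf.cons (Pf.T 9 44 (Pf.cons (Pf.W 72 4 [8,9] [0,1,2,3,5,7] (Pf.cons (Pf.B 10 9 (Pf.B 10 8 (Pf.B 10 7 (Pf.B 10 5 (Pf.B 10 3 (Pf.B 4 2 (Pf.C 1 0x5041214182) (Pf.B 4 0 (Pf.C 1 0x4840414180) (Pf.W 65 1289 [] [0,1,2,4,5,7,8] (Pf.cons (Pf.B 11 8 (Pf.B 11 7 (Pf.B 11 5 (Pf.B 11 4 (Pf.C 1 0x104001c28b)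 (Pf.C 51 66699)) (Pf.C 0 0xe0428b)) (Pf.C 0 0x100438b)) (Pf.C 0 0x1204588)) (Pf.cons (Pf.B 11 8 (Pf.B 11 7 (Pf.B 11 5 (Pf.B 11 4 (Pf.C 1 0x104001c28b) (Pf.C 51 66827)) (Pf.C 0 0xe0428b)) (Pf.C 0 0x100438b)) (Pf.C 0 0x1404588)) (Pf.cons (Pf.C 3 66953) (Pf.cons (Pf.C 3 66954) Pf.nil))))))) (Pf.C 0 0xa0418a)) (Pf.C 0 0xe0428a)) (Pf.C 0 0x100438a)) (Pf.C 51 66570)) (Pf.C 51 66698)) (Pf.cons (Pf.B 10 9 (Pf.C 53 66825) (Pf.C 0 0x404509)) (Pf.cons (Pf.B 10 9 (Pf.C 55 66825) (Pf.C 0 17673)) Pf.nil)))) Pf.nil)) Pf.nil))) (Pf.C 0 0xa04189)) (Pf.C 0 0xe04289)) (Pf.C 0 0x1004389)) (Pf.C 51 66569)) (Pf.cons (Pf.B 9 8 (Pf.C 53 66696) (Pf.C 0 0x404488)) (Pf.cons (Pf.B 9 8 (Pf.C 55 66696) (Pf.C 0 17544))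 Pf.nil)))) Pf.nil)) Pf.nil)) (Pf.cons (Pf.C 69 0xa10188) Pf.nil))) (Pf.C 0 0x620084))))) (Pf.cons (Pf.B 8 7 (Pf.B 8 6 (Pf.B 8 5 (Pf.B 8 3 (Pf.C 52 99331) (Pf.C 0 0xa04188)) (Pf.C 0 0xe04288)) (Pf.C 3 66312)) (Pf.C 0 0x404407)) (Pf.cons (Pf.B 8 7 (Pf.B 8 6 (Pf.B 8 5 (Pf.B 8 3 (Pf.C 54 99331) (Pf.C 0 0xa04188)) (Pf.C 0 0xe04288)) (Pf.C 3 66312)) (Pf.C 0 17415)) Pf.nil)))) Pf.nil)) Pf.nil)) (Pf.cons (Pf.T 7 44 (Pf.cons (Pf.W 72 4 [] [0,1,2,3,5,6,7] (Pf.cons (Pf.B 8 7 (Pf.B 8 5 (Pf.B 8 3 (Pf.T 8 28 (Pf.cons (Pf.T 8 42 (Pf.cons (Pf.T 8 43 (Pf.cons (Pf.W 72 4 [8] [0,1,2,3,5,7] (Pf.cons (Pf.B 9 8 (Pf.B 9 7 (Pf.B 9 5 (Pf.B 9 3 (Pf.B 4 2 (Pf.C 1 0x4841014182) (Pf.B 4 0 (Pf.C 1 0x4040414180) (Pf.W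 68 8 [4] [0,1,2,5,7] (Pf.cons (Pf.B 10 7 (Pf.B 10 5 (Pf.B 10 4 (Pf.C 1 0x104001c28a) (Pf.C 51 66570)) (Pf.C 0 0xe0428a)) (Pf.C 0 0x1004507)) (Pf.cons (Pf.C 3 66824) Pf.nil))))) (Pf.C 0 0xa04189)) (Pf.C 0 0xe04289)) (Pf.C 69 0xa0c487)) (Pf.C 51 66569)) (Pf.cons (Pf.B 9 8 (Pf.C 53 66696) (Pf.C 0 0x404488)) (Pf.cons (Pf.B 9 8 (Pf.C 55 66696) (Pf.C 0 17544)) Pf.nil)))) Pf.nil)) Pf.nil)) (Pf.cons (Pf.T 8 44 (Pf.cons (Pf.W 72 4 [8] [0,1,2,3,5,7] (Pf.cons (Pf.B 9 8 (Pf.B 9 7 (Pf.B 9 5 (Pf.B 9 3 (Pf.B 4 2 (Pf.C 1 0x4841014182) (Pf.B 4 0 (Pf.C 1 0x4040414180) (Pf.W 65 1160 [] [0,1,2,4,5,7] (Pf.cons (Pf.B 10 7 (Pf.B 10 5 (Pf.B 10 4 (Pf.C 1 0x104001c28a) (Pf.C 51 66570)) (Pf.C 0 0xe0428a)) (Pf.C 0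 0x1004507)) (Pf.cons (Pf.B 10 7 (Pf.B 10 5 (Pf.B 10 4 (Pf.C 1 0x104001c28a) (Pf.C 51 66698)) (Pf.C 0 0xe0428a)) (Pf.C 0 0x1204507)) (Pf.cons (Pf.C 3 66824) (Pf.cons (Pf.C 3 66825) Pf.nil))))))) (Pf.C 0 0xa04189)) (Pf.C 0 0xe04289)) (Pf.C 69 0xa0c487)) (Pf.C 51 66569)) (Pf.cons (Pf.B 9 8 (Pf.C 53 66696) (Pf.C 0 0x404488)) (Pf.cons (Pf.B 9 8 (Pf.C 55 66696) (Pf.C 0 17544)) Pf.nil)))) Pf.nil)) Pf.nil))) (Pf.C 0 0xa04188)) (Pf.C 0 0xe04288)) (Pf.C 69 0xa0c407)) (Pf.cons (Pf.B 8 7 (Pf.B 8 6 (Pf.B 8 5 (Pf.B 8 3 (Pf.C 52 99331) (Pf.C 0 0xa04188)) (Pf.C 0 0xe04288)) (Pf.C 3 66312)) (Pf.C 0 0x404407)) (Pf.cons (Pf.B 8 7 (Pf.B 8 6 (Pf.B 8 5 (Pf.B 8 3 (Pf.C 54 99331) (Pf.C 0 0xa04188)) (Pf.C 0 0xe04288))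 (Pf.C 3 66312)) (Pf.C 0 17415)) Pf.nil)))) Pf.nil)) Pf.nil))) (Pf.B 4 1 (Pf.T 7 28 (Pf.cons (Pf.T 7 42 (Pf.cons (Pf.T 7 43 (Pf.cons (Pf.W 72 4 [7] [0,1,2,3,5] (Pf.cons (Pf.B 8 7 (Pf.B 8 5 (Pf.B 8 3 (Pf.T 8 28 (Pf.cons (Pf.T 8 42 (Pf.cons (Pf.T 8 43 (Pf.cons (Pf.W 72 4 [7,8] [0,1,2,3,5] (Pf.cons (Pf.B 9 8 (Pf.B 9 7 (Pf.B 9 5 (Pf.B 9 3 (Pf.B 4 2 (Pf.C 1 0x4841014182) (Pf.B 4 0 (Pf.C 1 0x4040414180) (Pf.W 68 8 [4] [0,1,2,3,5,7] (Pf.cons (Pf.B 10 7 (Pf.B 10 5 (Pf.B 10 4 (Pf.B 10 3 (Pf.C 1 0x104001418a) (Pf.C 0 0xa0418a)) (Pf.C 51 66570)) (Pf.C 0 0xe0428a)) (Pf.C 0 0x1004507)) (Pf.cons (Pf.C 3 66824) Pf.nil))))) (Pf.C 0 0xa04189)) (Pf.C 0 0xe04289)) (Pf.C 51 66441)) (Pf.C 51 66569)) (Pf.cons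 (Pf.B 9 8 (Pf.C 53 66696) (Pf.C 0 0x404488)) (Pf.cons (Pf.B 9 8 (Pf.C 55 66696) (Pf.C 0 17544)) Pf.nil)))) Pf.nil)) Pf.nil)) (Pf.cons (Pf.T 8 44 (Pf.cons (Pf.W 72 4 [7,8] [0,1,2,3,5] (Pf.cons (Pf.B 9 8 (Pf.B 9 7 (Pf.B 9 5 (Pf.B 9 3 (Pf.B 4 2 (Pf.C 1 0x4841014182) (Pf.B 4 0 (Pf.C 1 0x4040414180) (Pf.W 65 1160 [] [0,1,2,3,4,5,7] (Pf.cons (Pf.B 10 7 (Pf.B 10 5 (Pf.B 10 4 (Pf.B 10 3 (Pf.C 1 0x104001418a) (Pf.C 0 0xa0418a)) (Pf.C 51 66570)) (Pf.C 0 0xe0428a)) (Pf.C 0 0x1004507)) (Pf.cons (Pf.B 10 7 (Pf.B 10 5 (Pf.B 10 4 (Pf.B 10 3 (Pf.C 1 0x104001418a) (Pf.C 0 0xa0418a)) (Pf.C 51 66698)) (Pf.C 0 0xe0428a)) (Pf.C 0 0x1204507)) (Pf.cons (Pf.C 3 66824) (Pf.cons (Pf.C 3 66825) Pf.nil))))))) (Pf.C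 0 0xa04189)) (Pf.C 0 0xe04289)) (Pf.C 51 66441)) (Pf.C 51 66569)) (Pf.cons (Pf.B 9 8 (Pf.C 53 66696) (Pf.C 0 0x404488)) (Pf.cons (Pf.B 9 8 (Pf.C 55 66696) (Pf.C 0 17544)) Pf.nil)))) Pf.nil)) Pf.nil))) (Pf.C 0 0xa04188)) (Pf.C 0 0xe04288)) (Pf.C 51 66440)) (Pf.cons (Pf.B 8 7 (Pf.C 53 66567) (Pf.C 0 0x404407)) (Pf.cons (Pf.B 8 7 (Pf.C 55 66567) (Pf.C 0 17415)) Pf.nil)))) Pf.nil)) Pf.nil)) (Pf.cons (Pf.C 69 0xa10187) Pf.nil))) (Pf.C 0 0x61c084)))) (Pf.cons (Pf.C 3 99203) Pf.nil))) Pf.nil)) Pf.nil))) Pf.nil))) Pf.nil)) Pf.nil)) (Pf.cons (Pf.T 5 44 (Pf.cons (Pf.W 68 3 [5] [0,1,2,4] (Pf.cons (Pf.B 6 5 (Pf.C 0 0xa0c086) (Pf.B 6 4 (Pf.T 6 28 (Pf.cons (Pf.T 6 42 (Pf.cons (Pf.T 6 43 (Pf.cons (Pf.W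 68 3 [5,6] [0,1,2,4] (Pf.cons (Pf.B 7 5 (Pf.C 0 0xa0c087) (Pf.C 69 0xc0c385)) (Pf.cons (Pf.T 7 31 (Pf.cons (Pf.T 7 47 Pf.nil) (Pf.cons (Pf.T 7 48 (Pf.cons (Pf.W 72 4 [] [0,1,2,3,5,6,7] (Pf.cons (Pf.B 8 5 (Pf.B 8 6 (Pf.B 8 3 (Pf.T 8 28 (Pf.cons (Pf.T 8 42 (Pf.cons (Pf.T 8 43 (Pf.cons (Pf.W 72 4 [8] [0,1,2,3,5,6] (Pf.cons (Pf.B 9 8 (Pf.B 9 5 (Pf.B 9 3 (Pf.B 4 2 (Pf.C 1 0x4841014182) (Pf.B 4 0 (Pf.C 1 0x4040414180) (Pf.W 68 8 [4] [0,1,2,5,6] (Pf.cons (Pf.B 10 6 (Pf.B 10 5 (Pf.B 10 4 (Pf.C 1 0x104001828a) (Pf.C 51 66570)) (Pf.C 0 0xc0428a)) (Pf.C 0 0x1004506)) (Pf.cons (Pf.C 3 66824) Pf.nil))))) (Pf.C 0 0xa04189)) (Pf.C 69 0xc0c485)) (Pf.C 51 66569)) (Pf.cons (Pf.B 9 8 (Pf.C 53 66696) (Pf.C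 0 0x404488)) (Pf.cons (Pf.B 9 8 (Pf.C 55 66696) (Pf.C 0 17544)) Pf.nil)))) Pf.nil)) Pf.nil)) (Pf.cons (Pf.T 8 44 (Pf.cons (Pf.W 72 4 [8] [0,1,2,3,5,6] (Pf.cons (Pf.B 9 8 (Pf.B 9 5 (Pf.B 9 6 (Pf.B 9 3 (Pf.B 4 2 (Pf.C 1 0x4841014182) (Pf.B 4 0 (Pf.C 1 0x4040414180) (Pf.W 65 1160 [] [0,1,2,4,5,6] (Pf.cons (Pf.B 10 6 (Pf.B 10 5 (Pf.B 10 4 (Pf.C 1 0x104001828a) (Pf.C 51 66570)) (Pf.C 0 0xc0428a)) (Pf.C 0 0x1004506)) (Pf.cons (Pf.B 10 6 (Pf.B 10 5 (Pf.B 10 4 (Pf.C 1 0x104001828a) (Pf.C 51 66698)) (Pf.C 0 0xc0428a)) (Pf.C 0 0x1204506)) (Pf.cons (Pf.C 3 66824) (Pf.cons (Pf.C 3 66825) Pf.nil))))))) (Pf.C 0 0xa04189)) (Pf.C 0 0xa04309)) (Pf.C 69 0xc0c485)) (Pf.C 51 66569)) (Pf.cons (Pf.B 9 8 (Pf.C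 53 66696) (Pf.C 0 0x404488)) (Pf.cons (Pf.B 9 8 (Pf.C 55 66696) (Pf.C 0 17544)) Pf.nil)))) Pf.nil)) Pf.nil))) (Pf.C 0 0xa04188)) (Pf.C 0 0xa04308)) (Pf.C 69 0xc0c405)) (Pf.cons (Pf.B 8 7 (Pf.B 8 6 (Pf.B 8 5 (Pf.B 8 3 (Pf.C 52 0x1c403) (Pf.C 0 0xa04188)) (Pf.C 0 0xc04288)) (Pf.C 0 0x404406)) (Pf.C 3 66440)) (Pf.cons (Pf.B 8 7 (Pf.B 8 6 (Pf.B 8 5 (Pf.B 8 3 (Pf.C 54 0x1c403) (Pf.C 0 0xa04188)) (Pf.C 0 0xc04288)) (Pf.C 0 17414)) (Pf.C 3 66440)) Pf.nil)))) Pf.nil)) Pf.nil))) Pf.nil))) Pf.nil)) Pf.nil)) (Pf.cons (Pf.T 6 44 (Pf.cons (Pf.W 68 3 [5,6] [0,1,2,4] (Pf.cons (Pf.B 7 6 (Pf.C 0 0xc0c087) (Pf.C 69 0xa0c386)) (Pf.cons (Pf.T 7 31 (Pf.cons (Pf.T 7 47 Pf.nil) (Pf.cons (Pf.T 7 48 (Pf.cons (Pf.W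 72 4 [] [0,1,2,3,5,6,7] (Pf.cons (Pf.B 8 6 (Pf.B 8 5 (Pf.B 8 3 (Pf.T 8 28 (Pf.cons (Pf.T 8 42 (Pf.cons (Pf.T 8 43 (Pf.cons (Pf.W 72 4 [8] [0,1,2,3,5,6] (Pf.cons (Pf.B 9 8 (Pf.B 9 6 (Pf.B 9 5 (Pf.B 9 3 (Pf.B 4 2 (Pf.C 1 0x4841014182) (Pf.B 4 0 (Pf.C 1 0x4040414180) (Pf.W 68 8 [4] [0,1,2,5,6] (Pf.cons (Pf.B 10 6 (Pf.B 10 5 (Pf.B 10 4 (Pf.C 1 0x104001828a) (Pf.C 51 66570)) (Pf.C 0 0xc0428a)) (Pf.C 0 0x1004506)) (Pf.cons (Pf.C 3 66824) Pf.nil))))) (Pf.C 0 0xa04189)) (Pf.C 0 0xc04289)) (Pf.C 69 0xa0c486)) (Pf.C 51 66569)) (Pf.cons (Pf.B 9 8 (Pf.C 53 66696) (Pf.C 0 0x404488)) (Pf.cons (Pf.B 9 8 (Pf.C 55 66696) (Pf.C 0 17544)) Pf.nil)))) Pf.nil)) Pf.nil)) (Pf.cons (Pf.T 8 44 (Pf.cons (Pf.W 72 4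 [8] [0,1,2,3,5,6] (Pf.cons (Pf.B 9 8 (Pf.B 9 6 (Pf.B 9 5 (Pf.B 9 3 (Pf.B 4 2 (Pf.C 1 0x4841014182) (Pf.B 4 0 (Pf.C 1 0x4040414180) (Pf.W 65 1160 [] [0,1,2,4,5,6] (Pf.cons (Pf.B 10 6 (Pf.B 10 5 (Pf.B 10 4 (Pf.C 1 0x104001828a) (Pf.C 51 66570)) (Pf.C 0 0xc0428a)) (Pf.C 0 0x1004506)) (Pf.cons (Pf.B 10 6 (Pf.B 10 5 (Pf.B 10 4 (Pf.C 1 0x104001828a) (Pf.C 51 66698)) (Pf.C 0 0xc0428a)) (Pf.C 0 0x1204506)) (Pf.cons (Pf.C 3 66824) (Pf.cons (Pf.C 3 66825) Pf.nil))))))) (Pf.C 0 0xa04189)) (Pf.C 0 0xc04289)) (Pf.C 69 0xa0c486)) (Pf.C 51 66569)) (Pf.cons (Pf.B 9 8 (Pf.C 53 66696) (Pf.C 0 0x404488)) (Pf.cons (Pf.B 9 8 (Pf.C 55 66696) (Pf.C 0 17544)) Pf.nil)))) Pf.nil)) Pf.nil))) (Pf.C 0 0xa04188)) (Pf.C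 0 0xc04288)) (Pf.C 69 0xa0c406)) (Pf.cons (Pf.B 8 7 (Pf.B 8 6 (Pf.B 8 5 (Pf.B 8 3 (Pf.C 52 0x1c403) (Pf.C 0 0xa04188)) (Pf.C 0 0xc04288)) (Pf.C 0 0x404406)) (Pf.C 3 66440)) (Pf.cons (Pf.B 8 7 (Pf.B 8 6 (Pf.B 8 5 (Pf.B 8 3 (Pf.C 54 0x1c403) (Pf.C 0 0xa04188)) (Pf.C 0 0xc04288)) (Pf.C 0 17414)) (Pf.C 3 66440)) Pf.nil)))) Pf.nil)) Pf.nil))) Pf.nil))) Pf.nil)) Pf.nil))) (Pf.B 4 1 (Pf.T 6 28 (Pf.cons (Pf.T 6 42 (Pf.cons (Pf.T 6 43 (Pf.cons (Pf.W 72 4 [6] [0,1,2,3,5] (Pf.cons (Pf.B 7 6 (Pf.B 7 5 (Pf.B 7 3 (Pf.T 7 28 (Pf.cons (Pf.T 7 42 (Pf.cons (Pf.T 7 43 (Pf.cons (Pf.W 72 4 [6,7] [0,1,2,3,5] (Pf.cons (Pf.B 8 7 (Pf.B 8 6 (Pf.B 8 5 (Pf.B 8 3 (Pf.B 4 2 (Pf.C 1 0x4040e14182) (Pf.B 4 0 (Pf.C 1 0x3840414180)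 (Pf.W 68 7 [4] [0,1,2,3,5,6] (Pf.cons (Pf.B 9 6 (Pf.B 9 5 (Pf.B 9 4 (Pf.B 9 3 (Pf.C 1 0x1040014189) (Pf.C 0 0xa04189)) (Pf.C 51 66441)) (Pf.C 0 0xc04289)) (Pf.C 0 0xe04486)) (Pf.cons (Pf.C 3 66695) Pf.nil))))) (Pf.C 0 0xa04188)) (Pf.C 0 0xc04288)) (Pf.C 51 66312)) (Pf.C 51 66440)) (Pf.cons (Pf.B 8 7 (Pf.C 53 66567) (Pf.C 0 0x404407)) (Pf.cons (Pf.B 8 7 (Pf.C 55 66567) (Pf.C 0 17415)) Pf.nil)))) Pf.nil)) Pf.nil)) (Pf.cons (Pf.T 7 44 (Pf.cons (Pf.W 72 4 [6,7] [0,1,2,3,5] (Pf.cons (Pf.B 8 7 (Pf.B 8 6 (Pf.B 8 5 (Pf.B 8 3 (Pf.B 4 2 (Pf.C 1 0x4040e14182) (Pf.B 4 0 (Pf.C 1 0x3840414180) (Pf.W 65 1031 [] [0,1,2,3,4,5,6] (Pf.cons (Pf.B 9 6 (Pf.B 9 5 (Pf.B 9 4 (Pf.B 9 3 (Pf.C 1 0x1040014189) (Pf.C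 0 0xa04189)) (Pf.C 51 66441)) (Pf.C 0 0xc04289)) (Pf.C 0 0xe04486)) (Pf.cons (Pf.B 9 6 (Pf.B 9 5 (Pf.B 9 4 (Pf.B 9 3 (Pf.C 1 0x1040014189) (Pf.C 0 0xa04189)) (Pf.C 51 66569)) (Pf.C 0 0xc04289)) (Pf.C 0 0x1004486)) (Pf.cons (Pf.C 3 66695) (Pf.cons (Pf.C 3 66696) Pf.nil))))))) (Pf.C 0 0xa04188)) (Pf.C 0 0xc04288)) (Pf.C 51 66312)) (Pf.C 51 66440)) (Pf.cons (Pf.B 8 7 (Pf.C 53 66567) (Pf.C 0 0x404407)) (Pf.cons (Pf.B 8 7 (Pf.C 55 66567) (Pf.C 0 17415)) Pf.nil)))) Pf.nil)) Pf.nil))) (Pf.C 0 0xa04187)) (Pf.C 0 0xc04287)) (Pf.C 51 66311)) (Pf.cons (Pf.B 7 6 (Pf.C 53 66438) (Pf.C 0 0x404386)) (Pf.cons (Pf.B 7 6 (Pf.C 55 66438) (Pf.C 0 17286)) Pf.nil)))) Pf.nil)) Pf.nil)) (Pf.cons (Pf.C 69 0xa10186)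 Pf.nil))) (Pf.C 0 0x618084)))) (Pf.cons (Pf.T 6 31 (Pf.cons (Pf.T 6 47 Pf.nil) (Pf.cons (Pf.T 6 48 (Pf.cons (Pf.W 68 3 [5,6] [0,1,2,4] (Pf.cons (Pf.B 7 5 (Pf.C 0 0xa0c087) (Pf.B 7 4 (Pf.T 7 28 (Pf.cons (Pf.T 7 42 (Pf.cons (Pf.T 7 43 (Pf.cons (Pf.W 72 4 [] [0,1,2,3,5,6,7] (Pf.cons (Pf.B 8 5 (Pf.B 8 7 (Pf.B 8 3 (Pf.T 8 28 (Pf.cons (Pf.T 8 42 (Pf.cons (Pf.T 8 43 (Pf.cons (Pf.W 72 4 [8] [0,1,2,3,5,7] (Pf.cons (Pf.B 9 8 (Pf.B 9 5 (Pf.B 9 3 (Pf.B 4 2 (Pf.C 1 0x4841014182) (Pf.B 4 0 (Pf.C 1 0x4040414180) (Pf.W 68 8 [4] [0,1,2,5,7] (Pf.cons (Pf.B 10 7 (Pf.B 10 5 (Pf.B 10 4 (Pf.C 1 0x104001c28a) (Pf.C 51 66570)) (Pf.C 0 0xe0428a)) (Pf.C 0 0x1004507)) (Pf.cons (Pf.C 3 66824) Pf.nil))))) (Pf.C 0 0xa04189))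 (Pf.C 69 0xe0c485)) (Pf.C 51 66569)) (Pf.cons (Pf.B 9 8 (Pf.C 53 66696) (Pf.C 0 0x404488)) (Pf.cons (Pf.B 9 8 (Pf.C 55 66696) (Pf.C 0 17544)) Pf.nil)))) Pf.nil)) Pf.nil)) (Pf.cons (Pf.T 8 44 (Pf.cons (Pf.W 72 4 [8] [0,1,2,3,5,7] (Pf.cons (Pf.B 9 8 (Pf.B 9 5 (Pf.B 9 7 (Pf.B 9 3 (Pf.B 4 2 (Pf.C 1 0x4841014182) (Pf.B 4 0 (Pf.C 1 0x4040414180) (Pf.W 65 1160 [] [0,1,2,4,5,7] (Pf.cons (Pf.B 10 7 (Pf.B 10 5 (Pf.B 10 4 (Pf.C 1 0x104001c28a) (Pf.C 51 66570)) (Pf.C 0 0xe0428a)) (Pf.C 0 0x1004507)) (Pf.cons (Pf.B 10 7 (Pf.B 10 5 (Pf.B 10 4 (Pf.C 1 0x104001c28a) (Pf.C 51 66698)) (Pf.C 0 0xe0428a)) (Pf.C 0 0x1204507)) (Pf.cons (Pf.C 3 66824) (Pf.cons (Pf.C 3 66825) Pf.nil))))))) (Pf.C 0 0xa04189)) (Pf.C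 0 0xa04389)) (Pf.C 69 0xe0c485)) (Pf.C 51 66569)) (Pf.cons (Pf.B 9 8 (Pf.C 53 66696) (Pf.C 0 0x404488)) (Pf.cons (Pf.B 9 8 (Pf.C 55 66696) (Pf.C 0 17544)) Pf.nil)))) Pf.nil)) Pf.nil))) (Pf.C 0 0xa04188)) (Pf.C 0 0xa04388)) (Pf.C 69 0xe0c405)) (Pf.cons (Pf.B 8 7 (Pf.B 8 6 (Pf.B 8 5 (Pf.B 8 3 (Pf.C 52 99331) (Pf.C 0 0xa04188)) (Pf.C 0 0xe04288)) (Pf.C 3 66312)) (Pf.C 0 0x404407)) (Pf.cons (Pf.B 8 7 (Pf.B 8 6 (Pf.B 8 5 (Pf.B 8 3 (Pf.C 54 99331) (Pf.C 0 0xa04188)) (Pf.C 0 0xe04288)) (Pf.C 3 66312)) (Pf.C 0 17415)) Pf.nil)))) Pf.nil)) Pf.nil)) (Pf.cons (Pf.T 7 44 (Pf.cons (Pf.W 72 4 [] [0,1,2,3,5,6,7] (Pf.cons (Pf.B 8 7 (Pf.B 8 5 (Pf.B 8 3 (Pf.T 8 28 (Pf.cons (Pf.T 8 42 (Pf.cons (Pf.T 8 43 (Pf.cons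 (Pf.W 72 4 [8] [0,1,2,3,5,7] (Pf.cons (Pf.B 9 8 (Pf.B 9 7 (Pf.B 9 5 (Pf.B 9 3 (Pf.B 4 2 (Pf.C 1 0x4841014182) (Pf.B 4 0 (Pf.C 1 0x4040414180) (Pf.W 68 8 [4] [0,1,2,5,7] (Pf.cons (Pf.B 10 7 (Pf.B 10 5 (Pf.B 10 4 (Pf.C 1 0x104001c28a) (Pf.C 51 66570)) (Pf.C 0 0xe0428a)) (Pf.C 0 0x1004507)) (Pf.cons (Pf.C 3 66824) Pf.nil))))) (Pf.C 0 0xa04189)) (Pf.C 0 0xe04289)) (Pf.C 69 0xa0c487)) (Pf.C 51 66569)) (Pf.cons (Pf.B 9 8 (Pf.C 53 66696) (Pf.C 0 0x404488)) (Pf.cons (Pf.B 9 8 (Pf.C 55 66696) (Pf.C 0 17544)) Pf.nil)))) Pf.nil)) Pf.nil)) (Pf.cons (Pf.T 8 44 (Pf.cons (Pf.W 72 4 [8] [0,1,2,3,5,7] (Pf.cons (Pf.B 9 8 (Pf.B 9 7 (Pf.B 9 5 (Pf.B 9 3 (Pf.B 4 2 (Pf.C 1 0x4841014182) (Pf.B 4 0 (Pf.C 1 0x4040414180)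 (Pf.W 65 1160 [] [0,1,2,4,5,7] (Pf.cons (Pf.B 10 7 (Pf.B 10 5 (Pf.B 10 4 (Pf.C 1 0x104001c28a) (Pf.C 51 66570)) (Pf.C 0 0xe0428a)) (Pf.C 0 0x1004507)) (Pf.cons (Pf.B 10 7 (Pf.B 10 5 (Pf.B 10 4 (Pf.C 1 0x104001c28a) (Pf.C 51 66698)) (Pf.C 0 0xe0428a)) (Pf.C 0 0x1204507)) (Pf.cons (Pf.C 3 66824) (Pf.cons (Pf.C 3 66825) Pf.nil))))))) (Pf.C 0 0xa04189)) (Pf.C 0 0xe04289)) (Pf.C 69 0xa0c487)) (Pf.C 51 66569)) (Pf.cons (Pf.B 9 8 (Pf.C 53 66696) (Pf.C 0 0x404488)) (Pf.cons (Pf.B 9 8 (Pf.C 55 66696) (Pf.C 0 17544)) Pf.nil)))) Pf.nil)) Pf.nil))) (Pf.C 0 0xa04188)) (Pf.C 0 0xe04288)) (Pf.C 69 0xa0c407)) (Pf.cons (Pf.B 8 7 (Pf.B 8 6 (Pf.B 8 5 (Pf.B 8 3 (Pf.C 52 99331) (Pf.C 0 0xa04188)) (Pf.C 0 0xe04288))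 (Pf.C 3 66312)) (Pf.C 0 0x404407)) (Pf.cons (Pf.B 8 7 (Pf.B 8 6 (Pf.B 8 5 (Pf.B 8 3 (Pf.C 54 99331) (Pf.C 0 0xa04188)) (Pf.C 0 0xe04288)) (Pf.C 3 66312)) (Pf.C 0 17415)) Pf.nil)))) Pf.nil)) Pf.nil))) (Pf.B 4 1 (Pf.T 7 28 (Pf.cons (Pf.T 7 42 (Pf.cons (Pf.T 7 43 (Pf.cons (Pf.W 72 4 [7] [0,1,2,3,5] (Pf.cons (Pf.B 8 7 (Pf.B 8 5 (Pf.B 8 3 (Pf.T 8 28 (Pf.cons (Pf.T 8 42 (Pf.cons (Pf.T 8 43 (Pf.cons (Pf.W 72 4 [7,8] [0,1,2,3,5] (Pf.cons (Pf.B 9 8 (Pf.B 9 7 (Pf.B 9 5 (Pf.B 9 3 (Pf.B 4 2 (Pf.C 1 0x4841014182) (Pf.B 4 0 (Pf.C 1 0x4040414180) (Pf.W 68 8 [4] [0,1,2,3,5,7] (Pf.cons (Pf.B 10 7 (Pf.B 10 5 (Pf.B 10 4 (Pf.B 10 3 (Pf.C 1 0x104001418a) (Pf.C 0 0xa0418a)) (Pf.C 51 66570)) (Pf.C 0 0xe0428a))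 (Pf.C 0 0x1004507)) (Pf.cons (Pf.C 3 66824) Pf.nil))))) (Pf.C 0 0xa04189)) (Pf.C 0 0xe04289)) (Pf.C 51 66441)) (Pf.C 51 66569)) (Pf.cons (Pf.B 9 8 (Pf.C 53 66696) (Pf.C 0 0x404488)) (Pf.cons (Pf.B 9 8 (Pf.C 55 66696) (Pf.C 0 17544)) Pf.nil)))) Pf.nil)) Pf.nil)) (Pf.cons (Pf.T 8 44 (Pf.cons (Pf.W 72 4 [7,8] [0,1,2,3,5] (Pf.cons (Pf.B 9 8 (Pf.B 9 7 (Pf.B 9 5 (Pf.B 9 3 (Pf.B 4 2 (Pf.C 1 0x4841014182) (Pf.B 4 0 (Pf.C 1 0x4040414180) (Pf.W 65 1160 [] [0,1,2,3,4,5,7] (Pf.cons (Pf.B 10 7 (Pf.B 10 5 (Pf.B 10 4 (Pf.B 10 3 (Pf.C 1 0x104001418a) (Pf.C 0 0xa0418a)) (Pf.C 51 66570)) (Pf.C 0 0xe0428a)) (Pf.C 0 0x1004507)) (Pf.cons (Pf.B 10 7 (Pf.B 10 5 (Pf.B 10 4 (Pf.B 10 3 (Pf.C 1 0x104001418a) (Pf.C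 0 0xa0418a)) (Pf.C 51 66698)) (Pf.C 0 0xe0428a)) (Pf.C 0 0x1204507)) (Pf.cons (Pf.C 3 66824) (Pf.cons (Pf.C 3 66825) Pf.nil))))))) (Pf.C 0 0xa04189)) (Pf.C 0 0xe04289)) (Pf.C 51 66441)) (Pf.C 51 66569)) (Pf.cons (Pf.B 9 8 (Pf.C 53 66696) (Pf.C 0 0x404488)) (Pf.cons (Pf.B 9 8 (Pf.C 55 66696) (Pf.C 0 17544)) Pf.nil)))) Pf.nil)) Pf.nil))) (Pf.C 0 0xa04188)) (Pf.C 0 0xe04288)) (Pf.C 51 66440)) (Pf.cons (Pf.B 8 7 (Pf.C 53 66567) (Pf.C 0 0x404407)) (Pf.cons (Pf.B 8 7 (Pf.C 55 66567) (Pf.C 0 17415)) Pf.nil)))) Pf.nil)) Pf.nil)) (Pf.cons (Pf.C 69 0xa10187) Pf.nil))) (Pf.C 0 0x61c084)))) (Pf.cons (Pf.C 3 99203) Pf.nil))) Pf.nil)) Pf.nil))) Pf.nil))) Pf.nil)) Pf.nil))) (Pf.B 4 1 (Pf.T 5 28 (Pf.cons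 (Pf.T 5 42 (Pf.cons (Pf.T 5 43 (Pf.cons (Pf.W 72 4 [5] [0,1,2,3] (Pf.cons (Pf.B 6 5 (Pf.B 6 3 (Pf.T 6 28 (Pf.cons (Pf.T 6 42 (Pf.cons (Pf.T 6 43 (Pf.cons (Pf.W 72 4 [5,6] [0,1,2,3] (Pf.cons (Pf.B 7 6 (Pf.B 7 5 (Pf.B 7 3 (Pf.T 7 28 (Pf.cons (Pf.T 7 42 (Pf.cons (Pf.T 7 43 (Pf.cons (Pf.W 68 3 [5] [0,1,2,4,6,7] (Pf.cons (Pf.B 8 7 (Pf.B 8 6 (Pf.B 8 5 (Pf.C 0 0xa0c088) (Pf.B 8 4 (Pf.B 4 2 (Pf.C 1 0x3840c20182) (Pf.B 4 0 (Pf.C 1 0x3040420180) (Pf.W 68 6 [4] [0,1,2,3,5,8] (Pf.cons (Pf.B 9 8 (Pf.B 9 5 (Pf.B 9 4 (Pf.B 9 3 (Pf.C 1 0x1040020189) (Pf.C 0 0xa04189)) (Pf.C 51 66313)) (Pf.C 0 0x1004289)) (Pf.C 0 0xc04488)) (Pf.cons (Pf.C 3 66694) Pf.nil))))) (Pf.C 51 66184))) (Pf.C 0 0x604406)) (Pf.C 0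 0x604407)) (Pf.cons (Pf.T 8 31 (Pf.cons (Pf.T 8 47 Pf.nil) (Pf.cons (Pf.T 8 48 (Pf.cons (Pf.W 68 3 [5,8] [0,1,2,4,6,7] (Pf.cons (Pf.B 9 7 (Pf.B 9 6 (Pf.B 9 5 (Pf.C 0 0xa0c089) (Pf.B 9 4 (Pf.B 4 2 (Pf.C 1 0x3840c24182) (Pf.B 4 0 (Pf.C 1 0x3040424180) (Pf.W 68 6 [4] [0,1,2,3,5,9] (Pf.cons (Pf.B 10 9 (Pf.B 10 5 (Pf.B 10 4 (Pf.B 10 3 (Pf.C 1 0x104002418a) (Pf.C 0 0xa0418a)) (Pf.C 51 66314)) (Pf.C 0 0x120428a)) (Pf.C 0 0xc04509)) (Pf.cons (Pf.C 3 66822) Pf.nil))))) (Pf.C 51 66185))) (Pf.C 0 0x604486)) (Pf.C 0 0x604487)) (Pf.cons (Pf.C 3 0x20483) Pf.nil))) Pf.nil)) Pf.nil))) Pf.nil))) Pf.nil)) Pf.nil)) (Pf.cons (Pf.T 7 44 (Pf.cons (Pf.W 68 3 [5] [0,1,2,4,6,7] (Pf.cons (Pf.B 8 7 (Pf.B 8 6 (Pf.B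 8 5 (Pf.C 0 0xa0c088) (Pf.B 8 4 (Pf.B 4 2 (Pf.C 1 0x3840c20182) (Pf.B 4 0 (Pf.C 1 0x3040420180) (Pf.W 68 6 [4] [0,1,2,3,5,8] (Pf.cons (Pf.B 9 8 (Pf.B 9 5 (Pf.B 9 4 (Pf.B 9 3 (Pf.C 1 0x1040020189) (Pf.C 0 0xa04189)) (Pf.C 51 66313)) (Pf.C 0 0x1004289)) (Pf.C 0 0xc04488)) (Pf.cons (Pf.C 3 66694) Pf.nil))))) (Pf.C 51 66184))) (Pf.C 0 0x604406)) (Pf.C 0 0x604407)) (Pf.cons (Pf.T 8 31 (Pf.cons (Pf.T 8 47 Pf.nil) (Pf.cons (Pf.T 8 48 (Pf.cons (Pf.W 68 3 [5,8] [0,1,2,4,6,7] (Pf.cons (Pf.B 9 7 (Pf.B 9 6 (Pf.B 9 5 (Pf.C 0 0xa0c089) (Pf.B 9 4 (Pf.B 4 2 (Pf.C 1 0x3840c24182) (Pf.B 4 0 (Pf.C 1 0x3040424180) (Pf.W 68 6 [4] [0,1,2,3,5,9] (Pf.cons (Pf.B 10 9 (Pf.B 10 5 (Pf.B 10 4 (Pf.B 10 3 (Pf.C 1 0x104002418a)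 (Pf.C 0 0xa0418a)) (Pf.C 51 66314)) (Pf.C 0 0x120428a)) (Pf.C 0 0xc04509)) (Pf.cons (Pf.C 3 66822) Pf.nil))))) (Pf.C 51 66185))) (Pf.C 0 0x604486)) (Pf.C 0 0x604487)) (Pf.cons (Pf.C 3 0x20483) Pf.nil))) Pf.nil)) Pf.nil))) Pf.nil))) Pf.nil)) Pf.nil))) (Pf.C 0 0xa04187)) (Pf.C 51 66183)) (Pf.C 51 66311)) (Pf.cons (Pf.B 7 6 (Pf.C 53 66438) (Pf.C 0 0x404386)) (Pf.cons (Pf.B 7 6 (Pf.C 55 66438) (Pf.C 0 17286)) Pf.nil)))) Pf.nil)) Pf.nil)) (Pf.cons (Pf.T 6 44 (Pf.cons (Pf.W 72 4 [5,6] [0,1,2,3] (Pf.cons (Pf.B 7 6 (Pf.B 7 5 (Pf.B 7 3 (Pf.T 7 28 (Pf.cons (Pf.T 7 42 (Pf.cons (Pf.T 7 43 (Pf.cons (Pf.W 68 3 [5] [0,1,2,4,6,7] (Pf.cons (Pf.B 8 7 (Pf.B 8 6 (Pf.B 8 5 (Pf.C 0 0xa0c088) (Pf.B 8 4 (Pf.B 4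 2 (Pf.C 1 0x3840c20182) (Pf.B 4 0 (Pf.C 1 0x3040420180) (Pf.W 68 7 [4] [0,1,2,3,5,8] (Pf.cons (Pf.B 9 8 (Pf.B 9 5 (Pf.B 9 4 (Pf.B 9 3 (Pf.C 1 0x1040020189) (Pf.C 0 0xa04189)) (Pf.C 51 66441)) (Pf.C 0 0x1004289)) (Pf.C 0 0xe04488)) (Pf.cons (Pf.C 3 66695) Pf.nil))))) (Pf.C 51 66184))) (Pf.C 0 0x604406)) (Pf.C 0 0x604407)) (Pf.cons (Pf.T 8 31 (Pf.cons (Pf.T 8 47 Pf.nil) (Pf.cons (Pf.T 8 48 (Pf.cons (Pf.W 68 3 [5,8] [0,1,2,4,6,7] (Pf.cons (Pf.B 9 7 (Pf.B 9 6 (Pf.B 9 5 (Pf.C 0 0xa0c089) (Pf.B 9 4 (Pf.B 4 2 (Pf.C 1 0x3840c24182) (Pf.B 4 0 (Pf.C 1 0x3040424180) (Pf.W 68 7 [4] [0,1,2,3,5,9] (Pf.cons (Pf.B 10 9 (Pf.B 10 5 (Pf.B 10 4 (Pf.B 10 3 (Pf.C 1 0x104002418a) (Pf.C 0 0xa0418a)) (Pf.C 51 66442))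 (Pf.C 0 0x120428a)) (Pf.C 0 0xe04509)) (Pf.cons (Pf.C 3 66823) Pf.nil))))) (Pf.C 51 66185))) (Pf.C 0 0x604486)) (Pf.C 0 0x604487)) (Pf.cons (Pf.C 3 0x20483) Pf.nil))) Pf.nil)) Pf.nil))) Pf.nil))) Pf.nil)) Pf.nil)) (Pf.cons (Pf.T 7 44 (Pf.cons (Pf.W 68 3 [5] [0,1,2,4,6,7] (Pf.cons (Pf.B 8 7 (Pf.B 8 6 (Pf.B 8 5 (Pf.C 0 0xa0c088) (Pf.B 8 4 (Pf.B 4 2 (Pf.C 1 0x3840c20182) (Pf.B 4 0 (Pf.C 1 0x3040420180) (Pf.W 65 902 [] [0,1,2,3,4,5,8] (Pf.cons (Pf.B 9 8 (Pf.B 9 5 (Pf.B 9 4 (Pf.B 9 3 (Pf.C 1 0x1040020189) (Pf.C 0 0xa04189)) (Pf.C 51 66313)) (Pf.C 0 0x1004289)) (Pf.C 0 0xc04488)) (Pf.cons (Pf.B 9 8 (Pf.B 9 5 (Pf.B 9 4 (Pf.B 9 3 (Pf.C 1 0x1040020189) (Pf.C 0 0xa04189)) (Pf.C 51 66441)) (Pf.C 0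 0x1004289)) (Pf.C 0 0xe04488)) (Pf.cons (Pf.C 3 66694) (Pf.cons (Pf.C 3 66695) Pf.nil))))))) (Pf.C 51 66184))) (Pf.C 0 0x604406)) (Pf.C 0 0x604407)) (Pf.cons (Pf.T 8 31 (Pf.cons (Pf.T 8 47 Pf.nil) (Pf.cons (Pf.T 8 48 (Pf.cons (Pf.W 68 3 [5,8] [0,1,2,4,6,7] (Pf.cons (Pf.B 9 7 (Pf.B 9 6 (Pf.B 9 5 (Pf.C 0 0xa0c089) (Pf.B 9 4 (Pf.B 4 2 (Pf.C 1 0x3840c24182) (Pf.B 4 0 (Pf.C 1 0x3040424180) (Pf.W 65 902 [] [0,1,2,3,4,5,9] (Pf.cons (Pf.B 10 9 (Pf.B 10 5 (Pf.B 10 4 (Pf.B 10 3 (Pf.C 1 0x104002418a) (Pf.C 0 0xa0418a)) (Pf.C 51 66314)) (Pf.C 0 0x120428a)) (Pf.C 0 0xc04509)) (Pf.cons (Pf.B 10 9 (Pf.B 10 5 (Pf.B 10 4 (Pf.B 10 3 (Pf.C 1 0x104002418a) (Pf.C 0 0xa0418a)) (Pf.C 51 66442)) (Pf.C 0 0x120428a))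 (Pf.C 0 0xe04509)) (Pf.cons (Pf.C 3 66822) (Pf.cons (Pf.C 3 66823) Pf.nil))))))) (Pf.C 51 66185))) (Pf.C 0 0x604486)) (Pf.C 0 0x604487)) (Pf.cons (Pf.C 3 0x20483) Pf.nil))) Pf.nil)) Pf.nil))) Pf.nil))) Pf.nil)) Pf.nil))) (Pf.C 0 0xa04187)) (Pf.C 51 66183)) (Pf.C 51 66311)) (Pf.cons (Pf.B 7 6 (Pf.C 53 66438) (Pf.C 0 0x404386)) (Pf.cons (Pf.B 7 6 (Pf.C 55 66438) (Pf.C 0 17286)) Pf.nil)))) Pf.nil)) Pf.nil))) (Pf.C 0 0xa04186)) (Pf.C 51 66182)) (Pf.cons (Pf.B 6 5 (Pf.C 53 66309) (Pf.C 0 0x404305)) (Pf.cons (Pf.B 6 5 (Pf.C 55 66309) (Pf.C 0 17157)) Pf.nil)))) Pf.nil)) Pf.nil)) (Pf.cons (Pf.T 5 44 (Pf.cons (Pf.W 68 3 [5] [1,4] (Pf.cons (Pf.B 6 5 (Pf.C 0 0xa0c086) (Pf.C 69 0x80c305)) (Pf.cons (Pf.W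 68 3 [5,6] [1,4] (Pf.cons (Pf.B 7 5 (Pf.C 0 0xa0c087) (Pf.C 69 0x80c385)) (Pf.cons (Pf.C 3 99203) Pf.nil))) Pf.nil))) Pf.nil)) Pf.nil))) (Pf.C 0 0x614084))) (Pf.cons (Pf.T 5 31 (Pf.cons (Pf.T 5 47 Pf.nil) (Pf.cons (Pf.T 5 48 (Pf.cons (Pf.W 68 3 [5] [0,1,2,4] (Pf.cons (Pf.B 6 4 (Pf.T 6 28 (Pf.cons (Pf.T 6 42 (Pf.cons (Pf.T 6 43 (Pf.cons (Pf.W 68 3 [5,6] [0,1,2,4] (Pf.cons (Pf.B 7 6 (Pf.C 0 0xc0c087) (Pf.B 7 4 (Pf.T 7 28 (Pf.cons (Pf.T 7 42 (Pf.cons (Pf.T 7 43 (Pf.cons (Pf.W 72 4 [] [0,1,2,3,5,6,7] (Pf.cons (Pf.B 8 7 (Pf.B 8 6 (Pf.B 8 3 (Pf.T 8 28 (Pf.cons (Pf.T 8 42 (Pf.cons (Pf.T 8 43 (Pf.cons (Pf.W 72 4 [8] [0,1,2,3,6,7] (Pf.cons (Pf.B 9 8 (Pf.B 4 1 (Pf.B 9 7 (Pf.B 9 6 (Pf.B 9 3 (Pf.B 4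 2 (Pf.C 1 0x4841018182) (Pf.B 4 0 (Pf.C 1 0x4040418180) (Pf.W 68 8 [4] [0,1,2,6,7] (Pf.cons (Pf.B 10 7 (Pf.B 10 6 (Pf.B 10 4 (Pf.C 1 0x104001c30a) (Pf.C 51 66570)) (Pf.C 0 0xe0430a)) (Pf.C 0 0x1004507)) (Pf.cons (Pf.C 3 66824) Pf.nil))))) (Pf.C 0 0xc04189)) (Pf.C 0 0xe04309)) (Pf.B 9 6 (Pf.C 0 0xc1c089) (Pf.B 9 3 (Pf.C 0 0x618089) (Pf.T 9 28 (Pf.cons (Pf.T 9 42 (Pf.cons (Pf.T 9 43 (Pf.cons (Pf.W 72 4 [8,9] [0,1,2,3,6,7] (Pf.cons (Pf.B 10 9 (Pf.B 10 8 (Pf.B 10 7 (Pf.B 10 6 (Pf.B 10 3 (Pf.B 4 2 (Pf.C 1 0x5041018182) (Pf.B 4 0 (Pf.C 1 0x4040418180) (Pf.W 68 8 [4] [0,1,2,6,7,9] (Pf.cons (Pf.B 11 9 (Pf.B 11 7 (Pf.B 11 6 (Pf.B 11 4 (Pf.C 1 0x104001c30b) (Pf.C 51 66571)) (Pf.C 0 0xe0430b)) (Pf.C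 0 0x120438b)) (Pf.C 0 0x1004589)) (Pf.cons (Pf.C 3 66952) Pf.nil))))) (Pf.C 0 0xc0418a)) (Pf.C 0 0xe0430a)) (Pf.C 0 0x120438a)) (Pf.C 51 66570)) (Pf.C 51 66698)) (Pf.cons (Pf.B 10 9 (Pf.C 53 66825) (Pf.C 0 0x404509)) (Pf.cons (Pf.B 10 9 (Pf.C 55 66825) (Pf.C 0 17673)) Pf.nil)))) Pf.nil)) Pf.nil)) (Pf.cons (Pf.C 69 0xc10189) Pf.nil)))))) (Pf.C 0 0x1204208)) (Pf.C 51 66569)) (Pf.cons (Pf.B 9 8 (Pf.C 53 66696) (Pf.C 0 0x404488)) (Pf.cons (Pf.B 9 8 (Pf.C 55 66696) (Pf.C 0 17544)) Pf.nil)))) Pf.nil)) Pf.nil)) (Pf.cons (Pf.T 8 44 (Pf.cons (Pf.W 72 4 [8] [0,1,2,3,6,7] (Pf.cons (Pf.B 9 8 (Pf.B 4 1 (Pf.B 9 7 (Pf.B 9 6 (Pf.B 9 3 (Pf.B 4 2 (Pf.C 1 0x4841018182) (Pf.B 4 0 (Pf.C 1 0x4040418180) (Pf.W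 65 1160 [] [0,1,2,4,6,7] (Pf.cons (Pf.B 10 7 (Pf.B 10 6 (Pf.B 10 4 (Pf.C 1 0x104001c30a) (Pf.C 51 66570)) (Pf.C 0 0xe0430a)) (Pf.C 0 0x1004507)) (Pf.cons (Pf.B 10 7 (Pf.B 10 6 (Pf.B 10 4 (Pf.C 1 0x104001c30a) (Pf.C 51 66698)) (Pf.C 0 0xe0430a)) (Pf.C 0 0x1204507)) (Pf.cons (Pf.C 3 66824) (Pf.cons (Pf.C 3 66825) Pf.nil))))))) (Pf.C 0 0xc04189)) (Pf.C 0 0xe04309)) (Pf.B 9 6 (Pf.C 0 0xc1c089) (Pf.B 9 3 (Pf.C 0 0x618089) (Pf.T 9 28 (Pf.cons (Pf.T 9 42 (Pf.cons (Pf.T 9 43 (Pf.cons (Pf.W 72 4 [8,9] [0,1,2,3,6,7] (Pf.cons (Pf.B 10 9 (Pf.B 10 8 (Pf.B 10 7 (Pf.B 10 6 (Pf.B 10 3 (Pf.B 4 2 (Pf.C 1 0x5041018182) (Pf.B 4 0 (Pf.C 1 0x4040418180) (Pf.W 65 1288 [] [0,1,2,4,6,7,9] (Pf.cons (Pf.B 11 9 (Pf.B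 11 7 (Pf.B 11 6 (Pf.B 11 4 (Pf.C 1 0x104001c30b) (Pf.C 51 66571)) (Pf.C 0 0xe0430b)) (Pf.C 0 0x120438b)) (Pf.C 0 0x1004589)) (Pf.cons (Pf.B 11 9 (Pf.B 11 7 (Pf.B 11 6 (Pf.B 11 4 (Pf.C 1 0x104001c30b) (Pf.C 51 66827)) (Pf.C 0 0xe0430b)) (Pf.C 0 0x120438b)) (Pf.C 0 0x1404589)) (Pf.cons (Pf.C 3 66952) (Pf.cons (Pf.C 3 66954) Pf.nil))))))) (Pf.C 0 0xc0418a)) (Pf.C 0 0xe0430a)) (Pf.C 0 0x120438a)) (Pf.C 51 66570)) (Pf.C 51 66698)) (Pf.cons (Pf.B 10 9 (Pf.C 53 66825) (Pf.C 0 0x404509)) (Pf.cons (Pf.B 10 9 (Pf.C 55 66825) (Pf.C 0 17673)) Pf.nil)))) Pf.nil)) Pf.nil)) (Pf.cons (Pf.C 69 0xc10189) Pf.nil)))))) (Pf.C 0 0x1204208)) (Pf.C 51 66569)) (Pf.cons (Pf.B 9 8 (Pf.C 53 66696) (Pf.C 0 0x404488))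 (Pf.cons (Pf.B 9 8 (Pf.C 55 66696) (Pf.C 0 17544)) Pf.nil)))) Pf.nil)) Pf.nil))) (Pf.C 0 0xc04188)) (Pf.C 0 0xe04308)) (Pf.B 8 6 (Pf.C 0 0xc1c088) (Pf.B 8 3 (Pf.C 0 0x618088) (Pf.B 4 1 (Pf.T 8 28 (Pf.cons (Pf.T 8 42 (Pf.cons (Pf.T 8 43 (Pf.cons (Pf.W 72 4 [8] [0,1,2,3,6,7] (Pf.cons (Pf.B 9 8 (Pf.B 9 7 (Pf.B 9 6 (Pf.B 9 3 (Pf.T 9 28 (Pf.cons (Pf.T 9 42 (Pf.cons (Pf.T 9 43 (Pf.cons (Pf.W 72 4 [8,9] [0,1,2,3,6,7] (Pf.cons (Pf.B 10 9 (Pf.B 10 8 (Pf.B 10 7 (Pf.B 10 6 (Pf.B 10 3 (Pf.B 4 2 (Pf.C 1 0x5041218182) (Pf.B 4 0 (Pf.C 1 0x4840418180) (Pf.W 68 9 [4] [0,1,2,6,7,8] (Pf.cons (Pf.B 11 8 (Pf.B 11 7 (Pf.B 11 6 (Pf.B 11 4 (Pf.C 1 0x104001c30b) (Pf.C 51 66699)) (Pf.C 0 0xe0430b)) (Pf.C 0 0x100438b))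 (Pf.C 0 0x1204588)) (Pf.cons (Pf.C 3 66953) Pf.nil))))) (Pf.C 0 0xc0418a)) (Pf.C 0 0xe0430a)) (Pf.C 0 0x100438a)) (Pf.C 51 66570)) (Pf.C 51 66698)) (Pf.cons (Pf.B 10 9 (Pf.C 53 66825) (Pf.C 0 0x404509)) (Pf.cons (Pf.B 10 9 (Pf.C 55 66825) (Pf.C 0 17673)) Pf.nil)))) Pf.nil)) Pf.nil)) (Pf.cons (Pf.T 9 44 (Pf.cons (Pf.W 72 4 [8,9] [0,1,2,3,6,7] (Pf.cons (Pf.B 10 9 (Pf.B 10 8 (Pf.B 10 7 (Pf.B 10 6 (Pf.B 10 3 (Pf.B 4 2 (Pf.C 1 0x5041218182) (Pf.B 4 0 (Pf.C 1 0x4840418180) (Pf.W 65 1289 [] [0,1,2,4,6,7,8] (Pf.cons (Pf.B 11 8 (Pf.B 11 7 (Pf.B 11 6 (Pf.B 11 4 (Pf.C 1 0x104001c30b) (Pf.C 51 66699)) (Pf.C 0 0xe0430b)) (Pf.C 0 0x100438b)) (Pf.C 0 0x1204588)) (Pf.cons (Pf.B 11 8 (Pf.B 11 7 (Pf.B 11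 6 (Pf.B 11 4 (Pf.C 1 0x104001c30b) (Pf.C 51 66827)) (Pf.C 0 0xe0430b)) (Pf.C 0 0x100438b)) (Pf.C 0 0x1404588)) (Pf.cons (Pf.C 3 66953) (Pf.cons (Pf.C 3 66954) Pf.nil))))))) (Pf.C 0 0xc0418a)) (Pf.C 0 0xe0430a)) (Pf.C 0 0x100438a)) (Pf.C 51 66570)) (Pf.C 51 66698)) (Pf.cons (Pf.B 10 9 (Pf.C 53 66825) (Pf.C 0 0x404509)) (Pf.cons (Pf.B 10 9 (Pf.C 55 66825) (Pf.C 0 17673)) Pf.nil)))) Pf.nil)) Pf.nil))) (Pf.C 0 0xc04189)) (Pf.C 0 0xe04309)) (Pf.C 0 0x1004389)) (Pf.C 51 66569)) (Pf.cons (Pf.B 9 8 (Pf.C 53 66696) (Pf.C 0 0x404488)) (Pf.cons (Pf.B 9 8 (Pf.C 55 66696) (Pf.C 0 17544)) Pf.nil)))) Pf.nil)) Pf.nil)) (Pf.cons (Pf.C 69 0xc10188) Pf.nil))) (Pf.C 0 0x620084))))) (Pf.cons (Pf.B 8 7 (Pf.B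 8 6 (Pf.B 8 5 (Pf.B 8 3 (Pf.C 52 82947) (Pf.C 0 0xc04188)) (Pf.C 3 66184)) (Pf.C 0 0xe04308)) (Pf.C 0 0x404407)) (Pf.cons (Pf.B 8 7 (Pf.B 8 6 (Pf.B 8 5 (Pf.B 8 3 (Pf.C 54 82947) (Pf.C 0 0xc04188)) (Pf.C 3 66184)) (Pf.C 0 0xe04308)) (Pf.C 0 17415)) Pf.nil)))) Pf.nil)) Pf.nil)) (Pf.cons (Pf.T 7 44 (Pf.cons (Pf.W 72 4 [] [0,1,2,3,5,6,7] (Pf.cons (Pf.B 8 7 (Pf.B 8 6 (Pf.B 8 3 (Pf.T 8 28 (Pf.cons (Pf.T 8 42 (Pf.cons (Pf.T 8 43 (Pf.cons (Pf.W 72 4 [8] [0,1,2,3,6,7] (Pf.cons (Pf.B 9 8 (Pf.B 9 7 (Pf.B 9 6 (Pf.B 9 3 (Pf.B 4 2 (Pf.C 1 0x4841018182) (Pf.B 4 0 (Pf.C 1 0x4040418180) (Pf.W 68 8 [4] [0,1,2,6,7] (Pf.cons (Pf.B 10 7 (Pf.B 10 6 (Pf.B 10 4 (Pf.C 1 0x104001c30a) (Pf.C 51 66570)) (Pf.C 0 0xe0430a))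 (Pf.C 0 0x1004507)) (Pf.cons (Pf.C 3 66824) Pf.nil))))) (Pf.C 0 0xc04189)) (Pf.C 0 0xe04309)) (Pf.C 69 0xc0c487)) (Pf.C 51 66569)) (Pf.cons (Pf.B 9 8 (Pf.C 53 66696) (Pf.C 0 0x404488)) (Pf.cons (Pf.B 9 8 (Pf.C 55 66696) (Pf.C 0 17544)) Pf.nil)))) Pf.nil)) Pf.nil)) (Pf.cons (Pf.T 8 44 (Pf.cons (Pf.W 72 4 [8] [0,1,2,3,6,7] (Pf.cons (Pf.B 9 8 (Pf.B 9 7 (Pf.B 9 6 (Pf.B 9 3 (Pf.B 4 2 (Pf.C 1 0x4841018182) (Pf.B 4 0 (Pf.C 1 0x4040418180) (Pf.W 65 1160 [] [0,1,2,4,6,7] (Pf.cons (Pf.B 10 7 (Pf.B 10 6 (Pf.B 10 4 (Pf.C 1 0x104001c30a) (Pf.C 51 66570)) (Pf.C 0 0xe0430a)) (Pf.C 0 0x1004507)) (Pf.cons (Pf.B 10 7 (Pf.B 10 6 (Pf.B 10 4 (Pf.C 1 0x104001c30a) (Pf.C 51 66698)) (Pf.C 0 0xe0430a)) (Pf.C 0 0x1204507))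 (Pf.cons (Pf.C 3 66824) (Pf.cons (Pf.C 3 66825) Pf.nil))))))) (Pf.C 0 0xc04189)) (Pf.C 0 0xe04309)) (Pf.C 69 0xc0c487)) (Pf.C 51 66569)) (Pf.cons (Pf.B 9 8 (Pf.C 53 66696) (Pf.C 0 0x404488)) (Pf.cons (Pf.B 9 8 (Pf.C 55 66696) (Pf.C 0 17544)) Pf.nil)))) Pf.nil)) Pf.nil))) (Pf.C 0 0xc04188)) (Pf.C 0 0xe04308)) (Pf.C 69 0xc0c407)) (Pf.cons (Pf.B 8 7 (Pf.B 8 6 (Pf.B 8 5 (Pf.B 8 3 (Pf.C 52 82947) (Pf.C 0 0xc04188)) (Pf.C 3 66184)) (Pf.C 0 0xe04308)) (Pf.C 0 0x404407)) (Pf.cons (Pf.B 8 7 (Pf.B 8 6 (Pf.B 8 5 (Pf.B 8 3 (Pf.C 54 82947) (Pf.C 0 0xc04188)) (Pf.C 3 66184)) (Pf.C 0 0xe04308)) (Pf.C 0 17415)) Pf.nil)))) Pf.nil)) Pf.nil))) (Pf.B 4 1 (Pf.T 7 28 (Pf.cons (Pf.T 7 42 (Pf.cons (Pf.T 7 43 (Pf.cons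 (Pf.W 72 4 [7] [0,1,2,3,6] (Pf.cons (Pf.B 8 7 (Pf.B 8 6 (Pf.B 8 3 (Pf.T 8 28 (Pf.cons (Pf.T 8 42 (Pf.cons (Pf.T 8 43 (Pf.cons (Pf.W 72 4 [7,8] [0,1,2,3,6] (Pf.cons (Pf.B 9 8 (Pf.B 9 7 (Pf.B 9 6 (Pf.B 9 3 (Pf.B 4 2 (Pf.C 1 0x4841018182) (Pf.B 4 0 (Pf.C 1 0x4040418180) (Pf.W 68 8 [4] [0,1,2,3,6,7] (Pf.cons (Pf.B 10 7 (Pf.B 10 6 (Pf.B 10 4 (Pf.B 10 3 (Pf.C 1 0x104001818a) (Pf.C 0 0xc0418a)) (Pf.C 51 66570)) (Pf.C 0 0xe0430a)) (Pf.C 0 0x1004507)) (Pf.cons (Pf.C 3 66824) Pf.nil))))) (Pf.C 0 0xc04189)) (Pf.C 0 0xe04309)) (Pf.C 51 66441)) (Pf.C 51 66569)) (Pf.cons (Pf.B 9 8 (Pf.C 53 66696) (Pf.C 0 0x404488)) (Pf.cons (Pf.B 9 8 (Pf.C 55 66696) (Pf.C 0 17544)) Pf.nil)))) Pf.nil)) Pf.nil)) (Pf.cons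 (Pf.T 8 44 (Pf.cons (Pf.W 72 4 [7,8] [0,1,2,3,6] (Pf.cons (Pf.B 9 8 (Pf.B 9 7 (Pf.B 9 6 (Pf.B 9 3 (Pf.B 4 2 (Pf.C 1 0x4841018182) (Pf.B 4 0 (Pf.C 1 0x4040418180) (Pf.W 65 1160 [] [0,1,2,3,4,6,7] (Pf.cons (Pf.B 10 7 (Pf.B 10 6 (Pf.B 10 4 (Pf.B 10 3 (Pf.C 1 0x104001818a) (Pf.C 0 0xc0418a)) (Pf.C 51 66570)) (Pf.C 0 0xe0430a)) (Pf.C 0 0x1004507)) (Pf.cons (Pf.B 10 7 (Pf.B 10 6 (Pf.B 10 4 (Pf.B 10 3 (Pf.C 1 0x104001818a) (Pf.C 0 0xc0418a)) (Pf.C 51 66698)) (Pf.C 0 0xe0430a)) (Pf.C 0 0x1204507)) (Pf.cons (Pf.C 3 66824) (Pf.cons (Pf.C 3 66825) Pf.nil))))))) (Pf.C 0 0xc04189)) (Pf.C 0 0xe04309)) (Pf.C 51 66441)) (Pf.C 51 66569)) (Pf.cons (Pf.B 9 8 (Pf.C 53 66696) (Pf.C 0 0x404488)) (Pf.cons (Pf.B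 9 8 (Pf.C 55 66696) (Pf.C 0 17544)) Pf.nil)))) Pf.nil)) Pf.nil))) (Pf.C 0 0xc04188)) (Pf.C 0 0xe04308)) (Pf.C 51 66440)) (Pf.cons (Pf.B 8 7 (Pf.C 53 66567) (Pf.C 0 0x404407)) (Pf.cons (Pf.B 8 7 (Pf.C 55 66567) (Pf.C 0 17415)) Pf.nil)))) Pf.nil)) Pf.nil)) (Pf.cons (Pf.C 69 0xc10187) Pf.nil))) (Pf.C 0 0x61c084)))) (Pf.cons (Pf.C 3 82819) Pf.nil))) Pf.nil)) Pf.nil)) (Pf.cons (Pf.T 6 44 (Pf.cons (Pf.W 68 3 [5,6] [0,1,2,4] (Pf.cons (Pf.B 7 6 (Pf.C 0 0xc0c087) (Pf.B 7 4 (Pf.T 7 28 (Pf.cons (Pf.T 7 42 (Pf.cons (Pf.T 7 43 (Pf.cons (Pf.W 72 4 [] [0,1,2,3,5,6,7] (Pf.cons (Pf.B 8 6 (Pf.B 8 7 (Pf.B 8 3 (Pf.T 8 28 (Pf.cons (Pf.T 8 42 (Pf.cons (Pf.T 8 43 (Pf.cons (Pf.W 72 4 [8] [0,1,2,3,6,7] (Pf.cons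 (Pf.B 9 8 (Pf.B 9 6 (Pf.B 9 3 (Pf.B 4 2 (Pf.C 1 0x4841018182) (Pf.B 4 0 (Pf.C 1 0x4040418180) (Pf.W 68 8 [4] [0,1,2,6,7] (Pf.cons (Pf.B 10 7 (Pf.B 10 6 (Pf.B 10 4 (Pf.C 1 0x104001c30a) (Pf.C 51 66570)) (Pf.C 0 0xe0430a)) (Pf.C 0 0x1004507)) (Pf.cons (Pf.C 3 66824) Pf.nil))))) (Pf.C 0 0xc04189)) (Pf.C 69 0xe0c486)) (Pf.C 51 66569)) (Pf.cons (Pf.B 9 8 (Pf.C 53 66696) (Pf.C 0 0x404488)) (Pf.cons (Pf.B 9 8 (Pf.C 55 66696) (Pf.C 0 17544)) Pf.nil)))) Pf.nil)) Pf.nil)) (Pf.cons (Pf.T 8 44 (Pf.cons (Pf.W 72 4 [8] [0,1,2,3,6,7] (Pf.cons (Pf.B 9 8 (Pf.B 9 6 (Pf.B 9 7 (Pf.B 9 3 (Pf.B 4 2 (Pf.C 1 0x4841018182) (Pf.B 4 0 (Pf.C 1 0x4040418180) (Pf.W 65 1160 [] [0,1,2,4,6,7] (Pf.cons (Pf.B 10 7 (Pf.B 10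 6 (Pf.B 10 4 (Pf.C 1 0x104001c30a) (Pf.C 51 66570)) (Pf.C 0 0xe0430a)) (Pf.C 0 0x1004507)) (Pf.cons (Pf.B 10 7 (Pf.B 10 6 (Pf.B 10 4 (Pf.C 1 0x104001c30a) (Pf.C 51 66698)) (Pf.C 0 0xe0430a)) (Pf.C 0 0x1204507)) (Pf.cons (Pf.C 3 66824) (Pf.cons (Pf.C 3 66825) Pf.nil))))))) (Pf.C 0 0xc04189)) (Pf.C 0 0xc04389)) (Pf.C 69 0xe0c486)) (Pf.C 51 66569)) (Pf.cons (Pf.B 9 8 (Pf.C 53 66696) (Pf.C 0 0x404488)) (Pf.cons (Pf.B 9 8 (Pf.C 55 66696) (Pf.C 0 17544)) Pf.nil)))) Pf.nil)) Pf.nil))) (Pf.C 0 0xc04188)) (Pf.C 0 0xc04388)) (Pf.C 69 0xe0c406)) (Pf.cons (Pf.B 8 7 (Pf.B 8 6 (Pf.B 8 5 (Pf.B 8 3 (Pf.C 52 82947) (Pf.C 0 0xc04188)) (Pf.C 3 66184)) (Pf.C 0 0xe04308)) (Pf.C 0 0x404407)) (Pf.cons (Pf.B 8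 7 (Pf.B 8 6 (Pf.B 8 5 (Pf.B 8 3 (Pf.C 54 82947) (Pf.C 0 0xc04188)) (Pf.C 3 66184)) (Pf.C 0 0xe04308)) (Pf.C 0 17415)) Pf.nil)))) Pf.nil)) Pf.nil)) (Pf.cons (Pf.T 7 44 (Pf.cons (Pf.W 72 4 [] [0,1,2,3,5,6,7] (Pf.cons (Pf.B 8 7 (Pf.B 8 6 (Pf.B 8 3 (Pf.T 8 28 (Pf.cons (Pf.T 8 42 (Pf.cons (Pf.T 8 43 (Pf.cons (Pf.W 72 4 [8] [0,1,2,3,6,7] (Pf.cons (Pf.B 9 8 (Pf.B 9 7 (Pf.B 9 6 (Pf.B 9 3 (Pf.B 4 2 (Pf.C 1 0x4841018182) (Pf.B 4 0 (Pf.C 1 0x4040418180) (Pf.W 68 8 [4] [0,1,2,6,7] (Pf.cons (Pf.B 10 7 (Pf.B 10 6 (Pf.B 10 4 (Pf.C 1 0x104001c30a) (Pf.C 51 66570)) (Pf.C 0 0xe0430a)) (Pf.C 0 0x1004507)) (Pf.cons (Pf.C 3 66824) Pf.nil))))) (Pf.C 0 0xc04189)) (Pf.C 0 0xe04309)) (Pf.C 69 0xc0c487)) (Pf.C 51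 66569)) (Pf.cons (Pf.B 9 8 (Pf.C 53 66696) (Pf.C 0 0x404488)) (Pf.cons (Pf.B 9 8 (Pf.C 55 66696) (Pf.C 0 17544)) Pf.nil)))) Pf.nil)) Pf.nil)) (Pf.cons (Pf.T 8 44 (Pf.cons (Pf.W 72 4 [8] [0,1,2,3,6,7] (Pf.cons (Pf.B 9 8 (Pf.B 9 7 (Pf.B 9 6 (Pf.B 9 3 (Pf.B 4 2 (Pf.C 1 0x4841018182) (Pf.B 4 0 (Pf.C 1 0x4040418180) (Pf.W 65 1160 [] [0,1,2,4,6,7] (Pf.cons (Pf.B 10 7 (Pf.B 10 6 (Pf.B 10 4 (Pf.C 1 0x104001c30a) (Pf.C 51 66570)) (Pf.C 0 0xe0430a)) (Pf.C 0 0x1004507)) (Pf.cons (Pf.B 10 7 (Pf.B 10 6 (Pf.B 10 4 (Pf.C 1 0x104001c30a) (Pf.C 51 66698)) (Pf.C 0 0xe0430a)) (Pf.C 0 0x1204507)) (Pf.cons (Pf.C 3 66824) (Pf.cons (Pf.C 3 66825) Pf.nil))))))) (Pf.C 0 0xc04189)) (Pf.C 0 0xe04309)) (Pf.C 69 0xc0c487))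 (Pf.C 51 66569)) (Pf.cons (Pf.B 9 8 (Pf.C 53 66696) (Pf.C 0 0x404488)) (Pf.cons (Pf.B 9 8 (Pf.C 55 66696) (Pf.C 0 17544)) Pf.nil)))) Pf.nil)) Pf.nil))) (Pf.C 0 0xc04188)) (Pf.C 0 0xe04308)) (Pf.C 69 0xc0c407)) (Pf.cons (Pf.B 8 7 (Pf.B 8 6 (Pf.B 8 5 (Pf.B 8 3 (Pf.C 52 82947) (Pf.C 0 0xc04188)) (Pf.C 3 66184)) (Pf.C 0 0xe04308)) (Pf.C 0 0x404407)) (Pf.cons (Pf.B 8 7 (Pf.B 8 6 (Pf.B 8 5 (Pf.B 8 3 (Pf.C 54 82947) (Pf.C 0 0xc04188)) (Pf.C 3 66184)) (Pf.C 0 0xe04308)) (Pf.C 0 17415)) Pf.nil)))) Pf.nil)) Pf.nil))) (Pf.B 4 1 (Pf.T 7 28 (Pf.cons (Pf.T 7 42 (Pf.cons (Pf.T 7 43 (Pf.cons (Pf.W 72 4 [7] [0,1,2,3,6] (Pf.cons (Pf.B 8 7 (Pf.B 8 6 (Pf.B 8 3 (Pf.T 8 28 (Pf.cons (Pf.T 8 42 (Pf.cons (Pf.T 8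 43 (Pf.cons (Pf.W 72 4 [7,8] [0,1,2,3,6] (Pf.cons (Pf.B 9 8 (Pf.B 9 7 (Pf.B 9 6 (Pf.B 9 3 (Pf.B 4 2 (Pf.C 1 0x4841018182) (Pf.B 4 0 (Pf.C 1 0x4040418180) (Pf.W 68 8 [4] [0,1,2,3,6,7] (Pf.cons (Pf.B 10 7 (Pf.B 10 6 (Pf.B 10 4 (Pf.B 10 3 (Pf.C 1 0x104001818a) (Pf.C 0 0xc0418a)) (Pf.C 51 66570)) (Pf.C 0 0xe0430a)) (Pf.C 0 0x1004507)) (Pf.cons (Pf.C 3 66824) Pf.nil))))) (Pf.C 0 0xc04189)) (Pf.C 0 0xe04309)) (Pf.C 51 66441)) (Pf.C 51 66569)) (Pf.cons (Pf.B 9 8 (Pf.C 53 66696) (Pf.C 0 0x404488)) (Pf.cons (Pf.B 9 8 (Pf.C 55 66696) (Pf.C 0 17544)) Pf.nil)))) Pf.nil)) Pf.nil)) (Pf.cons (Pf.T 8 44 (Pf.cons (Pf.W 72 4 [7,8] [0,1,2,3,6] (Pf.cons (Pf.B 9 8 (Pf.B 9 7 (Pf.B 9 6 (Pf.B 9 3 (Pf.B 4 2 (Pf.C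 1 0x4841018182) (Pf.B 4 0 (Pf.C 1 0x4040418180) (Pf.W 65 1160 [] [0,1,2,3,4,6,7] (Pf.cons (Pf.B 10 7 (Pf.B 10 6 (Pf.B 10 4 (Pf.B 10 3 (Pf.C 1 0x104001818a) (Pf.C 0 0xc0418a)) (Pf.C 51 66570)) (Pf.C 0 0xe0430a)) (Pf.C 0 0x1004507)) (Pf.cons (Pf.B 10 7 (Pf.B 10 6 (Pf.B 10 4 (Pf.B 10 3 (Pf.C 1 0x104001818a) (Pf.C 0 0xc0418a)) (Pf.C 51 66698)) (Pf.C 0 0xe0430a)) (Pf.C 0 0x1204507)) (Pf.cons (Pf.C 3 66824) (Pf.cons (Pf.C 3 66825) Pf.nil))))))) (Pf.C 0 0xc04189)) (Pf.C 0 0xe04309)) (Pf.C 51 66441)) (Pf.C 51 66569)) (Pf.cons (Pf.B 9 8 (Pf.C 53 66696) (Pf.C 0 0x404488)) (Pf.cons (Pf.B 9 8 (Pf.C 55 66696) (Pf.C 0 17544)) Pf.nil)))) Pf.nil)) Pf.nil))) (Pf.C 0 0xc04188)) (Pf.C 0 0xe04308)) (Pf.C 51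 66440)) (Pf.cons (Pf.B 8 7 (Pf.C 53 66567) (Pf.C 0 0x404407)) (Pf.cons (Pf.B 8 7 (Pf.C 55 66567) (Pf.C 0 17415)) Pf.nil)))) Pf.nil)) Pf.nil)) (Pf.cons (Pf.C 69 0xc10187) Pf.nil))) (Pf.C 0 0x61c084)))) (Pf.cons (Pf.C 3 82819) Pf.nil))) Pf.nil)) Pf.nil))) (Pf.B 4 1 (Pf.T 6 28 (Pf.cons (Pf.T 6 42 (Pf.cons (Pf.T 6 43 (Pf.cons (Pf.W 68 3 [5,6] [0,1,2,4] (Pf.cons (Pf.B 7 6 (Pf.C 0 0xc0c087) (Pf.B 7 4 (Pf.T 7 28 (Pf.cons (Pf.T 7 42 (Pf.cons (Pf.T 7 43 (Pf.cons (Pf.W 72 4 [6] [0,1,2,3,7] (Pf.cons (Pf.B 8 6 (Pf.B 8 7 (Pf.B 8 3 (Pf.T 8 28 (Pf.cons (Pf.T 8 42 (Pf.cons (Pf.T 8 43 (Pf.cons (Pf.W 72 4 [6,8] [0,1,2,3,7] (Pf.cons (Pf.B 9 8 (Pf.B 9 6 (Pf.B 9 7 (Pf.B 9 3 (Pf.B 4 2 (Pf.C 1 0x484101c182) (Pf.B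 4 0 (Pf.C 1 0x404041c180) (Pf.W 68 8 [4] [0,1,2,3,6,7] (Pf.cons (Pf.B 10 7 (Pf.B 10 6 (Pf.B 10 4 (Pf.B 10 3 (Pf.C 1 0x104001c18a) (Pf.C 0 0xc0418a)) (Pf.C 51 66570)) (Pf.C 0 0xe0430a)) (Pf.C 0 0x1004507)) (Pf.cons (Pf.C 3 66824) Pf.nil))))) (Pf.C 0 0xc04189)) (Pf.C 0 0xc04389)) (Pf.C 51 66313)) (Pf.C 51 66569)) (Pf.cons (Pf.B 9 8 (Pf.C 53 66696) (Pf.C 0 0x404488)) (Pf.cons (Pf.B 9 8 (Pf.C 55 66696) (Pf.C 0 17544)) Pf.nil)))) Pf.nil)) Pf.nil)) (Pf.cons (Pf.T 8 44 (Pf.cons (Pf.W 72 4 [6,8] [0,1,2,3,7] (Pf.cons (Pf.B 9 8 (Pf.B 9 6 (Pf.B 9 7 (Pf.B 9 3 (Pf.B 4 2 (Pf.C 1 0x484101c182) (Pf.B 4 0 (Pf.C 1 0x404041c180) (Pf.W 65 1160 [] [0,1,2,3,4,6,7] (Pf.cons (Pf.B 10 7 (Pf.B 10 6 (Pf.B 10 4 (Pf.B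 10 3 (Pf.C 1 0x104001c18a) (Pf.C 0 0xc0418a)) (Pf.C 51 66570)) (Pf.C 0 0xe0430a)) (Pf.C 0 0x1004507)) (Pf.cons (Pf.B 10 7 (Pf.B 10 6 (Pf.B 10 4 (Pf.B 10 3 (Pf.C 1 0x104001c18a) (Pf.C 0 0xc0418a)) (Pf.C 51 66698)) (Pf.C 0 0xe0430a)) (Pf.C 0 0x1204507)) (Pf.cons (Pf.C 3 66824) (Pf.cons (Pf.C 3 66825) Pf.nil))))))) (Pf.C 0 0xc04189)) (Pf.C 0 0xc04389)) (Pf.C 51 66313)) (Pf.C 51 66569)) (Pf.cons (Pf.B 9 8 (Pf.C 53 66696) (Pf.C 0 0x404488)) (Pf.cons (Pf.B 9 8 (Pf.C 55 66696) (Pf.C 0 17544)) Pf.nil)))) Pf.nil)) Pf.nil))) (Pf.C 0 0xc04188)) (Pf.C 0 0xc04388)) (Pf.C 51 66312)) (Pf.cons (Pf.B 8 7 (Pf.B 8 6 (Pf.C 53 66566) (Pf.C 0 0xe04308)) (Pf.C 0 0x404407)) (Pf.cons (Pf.B 8 7 (Pf.B 8 6 (Pf.C 55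 66566) (Pf.C 0 0xe04308)) (Pf.C 0 17415)) Pf.nil)))) Pf.nil)) Pf.nil)) (Pf.cons (Pf.T 7 44 (Pf.cons (Pf.W 72 4 [6] [0,1,2,3,7] (Pf.cons (Pf.B 8 7 (Pf.B 8 6 (Pf.B 8 3 (Pf.T 8 28 (Pf.cons (Pf.T 8 42 (Pf.cons (Pf.T 8 43 (Pf.cons (Pf.W 72 4 [6,8] [0,1,2,3,7] (Pf.cons (Pf.B 9 8 (Pf.B 9 7 (Pf.B 9 6 (Pf.B 9 3 (Pf.B 4 2 (Pf.C 1 0x484101c182) (Pf.B 4 0 (Pf.C 1 0x404041c180) (Pf.W 68 8 [4] [0,1,2,3,6,7] (Pf.cons (Pf.B 10 7 (Pf.B 10 6 (Pf.B 10 4 (Pf.B 10 3 (Pf.C 1 0x104001c18a) (Pf.C 0 0xc0418a)) (Pf.C 51 66570)) (Pf.C 0 0xe0430a)) (Pf.C 0 0x1004507)) (Pf.cons (Pf.C 3 66824) Pf.nil))))) (Pf.C 0 0xc04189)) (Pf.C 51 66313)) (Pf.C 69 0xc0c487)) (Pf.C 51 66569)) (Pf.cons (Pf.B 9 8 (Pf.C 53 66696) (Pf.C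 0 0x404488)) (Pf.cons (Pf.B 9 8 (Pf.C 55 66696) (Pf.C 0 17544)) Pf.nil)))) Pf.nil)) Pf.nil)) (Pf.cons (Pf.T 8 44 (Pf.cons (Pf.W 72 4 [6,8] [0,1,2,3,7] (Pf.cons (Pf.B 9 8 (Pf.B 9 7 (Pf.B 9 6 (Pf.B 9 3 (Pf.B 4 2 (Pf.C 1 0x484101c182) (Pf.B 4 0 (Pf.C 1 0x404041c180) (Pf.W 65 1160 [] [0,1,2,3,4,6,7] (Pf.cons (Pf.B 10 7 (Pf.B 10 6 (Pf.B 10 4 (Pf.B 10 3 (Pf.C 1 0x104001c18a) (Pf.C 0 0xc0418a)) (Pf.C 51 66570)) (Pf.C 0 0xe0430a)) (Pf.C 0 0x1004507)) (Pf.cons (Pf.B 10 7 (Pf.B 10 6 (Pf.B 10 4 (Pf.B 10 3 (Pf.C 1 0x104001c18a) (Pf.C 0 0xc0418a)) (Pf.C 51 66698)) (Pf.C 0 0xe0430a)) (Pf.C 0 0x1204507)) (Pf.cons (Pf.C 3 66824) (Pf.cons (Pf.C 3 66825) Pf.nil))))))) (Pf.C 0 0xc04189)) (Pf.C 51 66313)) (Pf.C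 69 0xc0c487)) (Pf.C 51 66569)) (Pf.cons (Pf.B 9 8 (Pf.C 53 66696) (Pf.C 0 0x404488)) (Pf.cons (Pf.B 9 8 (Pf.C 55 66696) (Pf.C 0 17544)) Pf.nil)))) Pf.nil)) Pf.nil))) (Pf.C 0 0xc04188)) (Pf.C 51 66312)) (Pf.C 69 0xc0c407)) (Pf.cons (Pf.B 8 7 (Pf.B 8 6 (Pf.C 53 66566) (Pf.C 0 0xe04308)) (Pf.C 0 0x404407)) (Pf.cons (Pf.B 8 7 (Pf.B 8 6 (Pf.C 55 66566) (Pf.C 0 0xe04308)) (Pf.C 0 17415)) Pf.nil)))) Pf.nil)) Pf.nil))) (Pf.C 51 66311))) (Pf.cons (Pf.C 3 82819) Pf.nil))) Pf.nil)) Pf.nil)) (Pf.cons (Pf.T 6 44 (Pf.cons (Pf.W 68 3 [5,6] [1,4] (Pf.cons (Pf.B 7 6 (Pf.C 0 0xc0c087) (Pf.C 69 0x80c386)) (Pf.cons (Pf.C 3 82819) Pf.nil))) Pf.nil)) Pf.nil))) (Pf.C 0 0x618084))) (Pf.cons (Pf.C 3 82691) Pf.nil)))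 Pf.nil)) Pf.nil))) Pf.nil))))
 Pq.nil)
theorem e1_o65 : AllRef e1_T e1_G86 (List.map pat1 [132]) :=
  chkPq_sound e1_o65c _ (by decide +kernel)
noncomputable def e1_o66c : Pq := (Pq.cons (Pq.L [] 0 (Pf.X 3 4))
 (Pq.cons (Pq.L [1,3] 1 (Pf.C 0 0xa04203))
 (Pq.cons (Pq.L [0,1,2,3] 1 (Pf.W 68 3 [] [0,1,2,4,5] (Pf.cons (Pf.B 6 5 (Pf.B 6 4 (Pf.T 6 28 (Pf.cons (Pf.T 6 42 (Pf.cons (Pf.T 6 43 (Pf.cons (Pf.W 68 3 [6] [0,1,2,4,5] (Pf.cons (Pf.B 7 6 (Pf.C 0 0xc0c087) (Pf.B 7 5 (Pf.B 7 4 (Pf.T 7 28 (Pf.cons (Pf.T 7 42 (Pf.cons (Pf.T 7 43 (Pf.cons (Pf.W 68 3 [6,7] [0,1,2,4,5] (Pf.cons (Pf.B 8 7 (Pf.C 0 0xe0c088) (Pf.B 8 6 (Pf.C 0 0xc0c088) (Pf.B 8 5 (Pf.B 8 4 (Pf.T 8 28 (Pf.cons (Pf.T 8 42 (Pf.cons (Pf.T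 8 43 (Pf.cons (Pf.W 68 5 [4] [0,1,2,3,6,7,8] (Pf.cons (Pf.B 9 8 (Pf.B 9 7 (Pf.B 9 6 (Pf.B 9 4 (Pf.C 0 0x814089) (Pf.B 9 3 (Pf.T 9 28 (Pf.cons (Pf.T 9 42 (Pf.cons (Pf.T 9 43 (Pf.cons (Pf.W 68 5 [4,9] [0,1,2,3,6,7,8] (Pf.cons (Pf.B 10 4 (Pf.C 0 0x81408a) (Pf.C 69 0x1214504)) (Pf.cons (Pf.B 10 9 (Pf.B 10 4 (Pf.B 10 8 (Pf.B 10 7 (Pf.B 10 2 (Pf.C 1 0x2051420382) (Pf.B 10 0 (Pf.C 1 0x2051420380) (Pf.C 1 0x10a0020384))) (Pf.B 10 6 (Pf.B 10 3 (Pf.B 10 2 (Pf.C 1 0x2051418182) (Pf.B 10 0 (Pf.C 1 0x2051418180) (Pf.C 1 0x10a0024203))) (Pf.C 51 0x28383)) (Pf.C 51 0x28386))) (Pf.B 10 6 (Pf.B 10 3 (Pf.B 10 2 (Pf.C 1 0x2051418182) (Pf.B 10 0 (Pf.C 1 0x2051418180) (Pf.C 1 0x10a0024203))) (Pf.C 51 0x28403))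 (Pf.C 51 0x28406))) (Pf.C 51 0x28284)) (Pf.C 51 0x28289)) Pf.nil))) Pf.nil)) Pf.nil)) (Pf.cons (Pf.T 9 44 (Pf.cons (Pf.W 68 5 [4,9] [0,1,2,3,6,7,8] (Pf.cons (Pf.B 10 9 (Pf.C 0 0x121408a) (Pf.C 69 0xa10509)) (Pf.cons (Pf.B 10 9 (Pf.B 10 4 (Pf.B 10 8 (Pf.B 10 7 (Pf.B 10 2 (Pf.C 1 0x2051420382) (Pf.B 10 0 (Pf.C 1 0x2051420380) (Pf.C 1 0x10a0020384))) (Pf.B 10 6 (Pf.B 10 3 (Pf.B 10 2 (Pf.C 1 0x2051418182) (Pf.B 10 0 (Pf.C 1 0x2051418180) (Pf.C 1 0x10a0024203))) (Pf.C 51 0x28383)) (Pf.C 51 0x28386))) (Pf.B 10 6 (Pf.B 10 3 (Pf.B 10 2 (Pf.C 1 0x2051418182) (Pf.B 10 0 (Pf.C 1 0x2051418180) (Pf.C 1 0x10a0024203))) (Pf.C 51 0x28403)) (Pf.C 51 0x28406))) (Pf.C 51 0x28284)) (Pf.C 51 0x28289)) Pf.nil)))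 Pf.nil)) Pf.nil))) (Pf.C 0 0xc04189))) (Pf.C 0 0xe04309)) (Pf.C 0 0x1004389)) (Pf.C 0 0xa04488)) (Pf.cons (Pf.B 9 4 (Pf.B 9 8 (Pf.B 9 7 (Pf.B 9 2 (Pf.C 1 0x2051220382) (Pf.B 9 0 (Pf.C 1 0x2051220380) (Pf.C 1 0x1090020384))) (Pf.B 9 6 (Pf.B 9 3 (Pf.B 9 2 (Pf.C 1 0x2051218182) (Pf.B 9 0 (Pf.C 1 0x2051218180) (Pf.C 1 0x1090018184))) (Pf.C 51 0x24383)) (Pf.C 51 0x24386))) (Pf.B 9 6 (Pf.B 9 3 (Pf.B 9 2 (Pf.C 1 0x2051218182) (Pf.B 9 0 (Pf.C 1 0x2051218180) (Pf.C 1 0x1090018184))) (Pf.C 51 0x24403)) (Pf.C 51 0x24406))) (Pf.C 51 0x24284)) Pf.nil))) Pf.nil)) Pf.nil)) (Pf.cons (Pf.C 69 0xe18188) Pf.nil))) (Pf.C 0 0xa04208)) (Pf.C 0 0x604405)))) (Pf.cons (Pf.B 8 7 (Pf.B 8 6 (Pf.B 8 5 (Pf.B 8 4 (Pf.B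 8 2 (Pf.C 1 0x3031014202) (Pf.B 8 0 (Pf.C 1 0x3031014200) (Pf.C 1 0x108001c304))) (Pf.B 8 2 (Pf.C 1 0x284101c302) (Pf.B 8 0 (Pf.C 1 0x284101c300) (Pf.C 1 0x108001c305)))) (Pf.B 8 4 (Pf.B 8 2 (Pf.C 1 0x205101c302) (Pf.B 8 0 (Pf.C 1 0x205101c300) (Pf.C 1 0x108001c304))) (Pf.C 51 0x20284))) (Pf.C 51 0x20186)) (Pf.C 51 0x20187)) Pf.nil))) Pf.nil)) Pf.nil)) (Pf.cons (Pf.T 7 44 (Pf.cons (Pf.W 68 3 [6,7] [0,1,2,4,5] (Pf.cons (Pf.B 8 7 (Pf.C 0 0xe0c088) (Pf.C 69 0xc0c407)) (Pf.cons (Pf.B 8 7 (Pf.B 8 6 (Pf.B 8 5 (Pf.B 8 4 (Pf.B 8 2 (Pf.C 1 0x3031014202) (Pf.B 8 0 (Pf.C 1 0x3031014200) (Pf.C 1 0x108001c304))) (Pf.B 8 2 (Pf.C 1 0x284101c302) (Pf.B 8 0 (Pf.C 1 0x284101c300) (Pf.C 1 0x108001c305))))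 (Pf.B 8 4 (Pf.B 8 2 (Pf.C 1 0x205101c302) (Pf.B 8 0 (Pf.C 1 0x205101c300) (Pf.C 1 0x108001c304))) (Pf.C 51 0x20284))) (Pf.C 51 0x20186)) (Pf.C 51 0x20187)) Pf.nil))) Pf.nil)) Pf.nil))) (Pf.C 0 0xa04207)) (Pf.C 0 0x604385))) (Pf.cons (Pf.B 7 6 (Pf.B 7 5 (Pf.B 7 4 (Pf.B 7 2 (Pf.C 1 0x3030e14202) (Pf.B 7 0 (Pf.C 1 0x3030e14200) (Pf.C 1 0x1070014206))) (Pf.T 7 31 (Pf.cons (Pf.T 7 47 Pf.nil) (Pf.cons (Pf.T 7 48 (Pf.cons (Pf.W 68 3 [6,7] [0,1,2,4,5] (Pf.cons (Pf.B 8 7 (Pf.B 8 6 (Pf.C 0 0xc0c088) (Pf.B 8 5 (Pf.B 8 4 (Pf.B 7 2 (Pf.C 1 0x2840e20302) (Pf.B 7 0 (Pf.C 1 0x2840e20300) (Pf.C 1 0x1070020305))) (Pf.C 0 0xa04208)) (Pf.C 0 0x604405))) (Pf.C 51 0x1c188)) (Pf.cons (Pf.C 3 0x1c403) Pf.nil)))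 Pf.nil)) Pf.nil)))) (Pf.B 7 4 (Pf.T 7 31 (Pf.cons (Pf.T 7 47 Pf.nil) (Pf.cons (Pf.T 7 48 (Pf.cons (Pf.W 68 3 [6,7] [0,1,2,4,5] (Pf.cons (Pf.B 8 7 (Pf.B 8 6 (Pf.C 0 0xc0c088) (Pf.B 8 5 (Pf.B 8 4 (Pf.B 7 2 (Pf.C 1 0x2050e20302) (Pf.B 7 0 (Pf.C 1 0x2050e20300) (Pf.C 1 0x1070020304))) (Pf.C 0 0xa04208)) (Pf.C 0 0x604405))) (Pf.C 51 0x1c188)) (Pf.cons (Pf.C 3 0x1c403) Pf.nil))) Pf.nil)) Pf.nil))) (Pf.C 51 0x1c284))) (Pf.C 51 0x1c186)) Pf.nil))) Pf.nil)) Pf.nil)) (Pf.cons (Pf.T 6 44 (Pf.cons (Pf.W 68 3 [6] [0,1,2,4,5] (Pf.cons (Pf.B 7 6 (Pf.C 0 0xc0c087) (Pf.B 7 5 (Pf.B 7 4 (Pf.T 7 28 (Pf.cons (Pf.T 7 42 (Pf.cons (Pf.T 7 43 (Pf.cons (Pf.W 68 3 [6,7] [0,1,2,4,5] (Pf.cons (Pf.B 8 6 (Pf.C 0 0xc0c088)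 (Pf.C 69 0xe0c406)) (Pf.cons (Pf.B 8 7 (Pf.B 8 6 (Pf.B 8 5 (Pf.B 8 4 (Pf.B 8 2 (Pf.C 1 0x3031014202) (Pf.B 8 0 (Pf.C 1 0x3031014200) (Pf.C 1 0x108001c304))) (Pf.B 8 2 (Pf.C 1 0x284101c302) (Pf.B 8 0 (Pf.C 1 0x284101c300) (Pf.C 1 0x108001c305)))) (Pf.B 8 4 (Pf.B 8 2 (Pf.C 1 0x205101c302) (Pf.B 8 0 (Pf.C 1 0x205101c300) (Pf.C 1 0x108001c304))) (Pf.C 51 0x20284))) (Pf.C 51 0x20186)) (Pf.C 51 0x20187)) Pf.nil))) Pf.nil)) Pf.nil)) (Pf.cons (Pf.T 7 44 (Pf.cons (Pf.W 68 3 [6,7] [0,1,2,4,5] (Pf.cons (Pf.B 8 7 (Pf.C 0 0xe0c088) (Pf.C 69 0xc0c407)) (Pf.cons (Pf.B 8 7 (Pf.B 8 6 (Pf.B 8 5 (Pf.B 8 4 (Pf.B 8 2 (Pf.C 1 0x3031014202) (Pf.B 8 0 (Pf.C 1 0x3031014200) (Pf.C 1 0x108001c304))) (Pf.B 8 2 (Pf.C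 1 0x284101c302) (Pf.B 8 0 (Pf.C 1 0x284101c300) (Pf.C 1 0x108001c305)))) (Pf.B 8 4 (Pf.B 8 2 (Pf.C 1 0x205101c302) (Pf.B 8 0 (Pf.C 1 0x205101c300) (Pf.C 1 0x108001c304))) (Pf.C 51 0x20284))) (Pf.C 51 0x20186)) (Pf.C 51 0x20187)) Pf.nil))) Pf.nil)) Pf.nil))) (Pf.C 0 0xa04207)) (Pf.C 0 0x604385))) (Pf.cons (Pf.B 7 6 (Pf.B 7 5 (Pf.B 7 4 (Pf.B 7 2 (Pf.C 1 0x3030e14202) (Pf.B 7 0 (Pf.C 1 0x3030e14200) (Pf.C 1 0x1070014206))) (Pf.T 7 31 (Pf.cons (Pf.T 7 47 Pf.nil) (Pf.cons (Pf.T 7 48 (Pf.cons (Pf.W 68 3 [6,7] [0,1,2,4,5] (Pf.cons (Pf.B 8 7 (Pf.B 8 6 (Pf.C 0 0xc0c088) (Pf.B 8 5 (Pf.B 8 4 (Pf.B 7 2 (Pf.C 1 0x2840e20302) (Pf.B 7 0 (Pf.C 1 0x2840e20300) (Pf.C 1 0x1070020305))) (Pf.C 0 0xa04208)) (Pf.C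 0 0x604405))) (Pf.C 51 0x1c188)) (Pf.cons (Pf.C 3 0x1c403) Pf.nil))) Pf.nil)) Pf.nil)))) (Pf.B 7 4 (Pf.T 7 31 (Pf.cons (Pf.T 7 47 Pf.nil) (Pf.cons (Pf.T 7 48 (Pf.cons (Pf.W 68 3 [6,7] [0,1,2,4,5] (Pf.cons (Pf.B 8 7 (Pf.B 8 6 (Pf.C 0 0xc0c088) (Pf.B 8 5 (Pf.B 8 4 (Pf.B 7 2 (Pf.C 1 0x2050e20302) (Pf.B 7 0 (Pf.C 1 0x2050e20300) (Pf.C 1 0x1070020304))) (Pf.C 0 0xa04208)) (Pf.C 0 0x604405))) (Pf.C 51 0x1c188)) (Pf.cons (Pf.C 3 0x1c403) Pf.nil))) Pf.nil)) Pf.nil))) (Pf.C 51 0x1c284))) (Pf.C 51 0x1c186)) Pf.nil))) Pf.nil)) Pf.nil))) (Pf.C 0 0xa04206)) (Pf.C 0 0x604305)) (Pf.cons (Pf.B 6 5 (Pf.B 6 4 (Pf.T 6 31 (Pf.cons (Pf.T 6 47 Pf.nil) (Pf.cons (Pf.T 6 48 (Pf.cons (Pf.W 68 3 [6] [0,1,2,4,5] (Pf.cons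 (Pf.B 7 6 (Pf.B 7 5 (Pf.B 7 4 (Pf.B 6 2 (Pf.C 1 0x3830c14202) (Pf.B 6 0 (Pf.C 1 0x3830c14200) (Pf.C 1 0x1060014207))) (Pf.C 0 0xa04207)) (Pf.C 0 0x604385)) (Pf.C 51 98695)) (Pf.cons (Pf.C 3 99203) Pf.nil))) Pf.nil)) Pf.nil))) (Pf.T 6 31 (Pf.cons (Pf.T 6 47 Pf.nil) (Pf.cons (Pf.T 6 48 (Pf.cons (Pf.W 68 3 [6] [0,1,2,4,5] (Pf.cons (Pf.B 7 6 (Pf.B 7 5 (Pf.B 7 4 (Pf.T 7 28 (Pf.cons (Pf.T 7 42 (Pf.cons (Pf.T 7 43 (Pf.cons (Pf.W 68 3 [6,7] [0,1,2,4,5] (Pf.cons (Pf.B 8 7 (Pf.C 0 0xe0c088) (Pf.B 8 6 (Pf.B 8 5 (Pf.B 8 4 (Pf.B 6 2 (Pf.C 1 0x2840c20382) (Pf.B 6 0 (Pf.C 1 0x2840c20380) (Pf.C 1 0x1060020385))) (Pf.C 0 0xa04208)) (Pf.C 0 0x604405)) (Pf.C 51 98696))) (Pf.cons (Pf.C 3 99331) Pf.nil))) Pf.nil))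 Pf.nil)) (Pf.cons (Pf.T 7 44 (Pf.cons (Pf.W 68 3 [6,7] [0,1,2,4,5] (Pf.cons (Pf.B 8 7 (Pf.C 0 0xe0c088) (Pf.B 8 6 (Pf.B 8 5 (Pf.B 8 4 (Pf.B 6 2 (Pf.C 1 0x2840c20382) (Pf.B 6 0 (Pf.C 1 0x2840c20380) (Pf.C 1 0x1060020385))) (Pf.C 0 0xa04208)) (Pf.C 0 0x604405)) (Pf.C 51 98696))) (Pf.cons (Pf.C 3 99331) Pf.nil))) Pf.nil)) Pf.nil))) (Pf.C 0 0xa04207)) (Pf.C 0 0x604385)) (Pf.C 51 98695)) (Pf.cons (Pf.C 3 99203) Pf.nil))) Pf.nil)) Pf.nil)))) (Pf.B 6 4 (Pf.T 6 31 (Pf.cons (Pf.T 6 47 Pf.nil) (Pf.cons (Pf.T 6 48 (Pf.cons (Pf.W 68 3 [6] [0,1,2,4,5] (Pf.cons (Pf.B 7 6 (Pf.B 7 5 (Pf.B 7 4 (Pf.T 7 28 (Pf.cons (Pf.T 7 42 (Pf.cons (Pf.T 7 43 (Pf.cons (Pf.W 68 3 [6,7] [0,1,2,4,5] (Pf.cons (Pf.B 8 7 (Pf.C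 0 0xe0c088) (Pf.B 8 6 (Pf.B 8 5 (Pf.B 8 4 (Pf.B 6 2 (Pf.C 1 0x2050c20382) (Pf.B 6 0 (Pf.C 1 0x2050c20380) (Pf.C 1 0x1060020384))) (Pf.C 0 0xa04208)) (Pf.C 0 0x604405)) (Pf.C 51 98696))) (Pf.cons (Pf.C 3 99331) Pf.nil))) Pf.nil)) Pf.nil)) (Pf.cons (Pf.T 7 44 (Pf.cons (Pf.W 68 3 [6,7] [0,1,2,4,5] (Pf.cons (Pf.B 8 7 (Pf.C 0 0xe0c088) (Pf.B 8 6 (Pf.B 8 5 (Pf.B 8 4 (Pf.B 6 2 (Pf.C 1 0x2050c20382) (Pf.B 6 0 (Pf.C 1 0x2050c20380) (Pf.C 1 0x1060020384))) (Pf.C 0 0xa04208)) (Pf.C 0 0x604405)) (Pf.C 51 98696))) (Pf.cons (Pf.C 3 99331) Pf.nil))) Pf.nil)) Pf.nil))) (Pf.C 0 0xa04207)) (Pf.C 0 0x604385)) (Pf.C 51 98695)) (Pf.cons (Pf.C 3 99203) Pf.nil))) Pf.nil)) Pf.nil))) (Pf.C 51 98948))) Pf.nil))))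
 (Pq.cons (Pq.L [1,3] 1 (Pf.C 0 0xa04203))
 (Pq.cons (Pq.L [1,2] 1 (Pf.C 0 0xa04202))
 (Pq.cons (Pq.L [0,1] 1 (Pf.C 0 0xa04200))
 (Pq.cons (Pq.L [0,1,2,3] 1 (Pf.W 68 5 [4] [0,1,2,3] (Pf.cons (Pf.B 6 4 (Pf.B 6 3 (Pf.T 6 28 (Pf.cons (Pf.T 6 42 (Pf.cons (Pf.T 6 43 (Pf.cons (Pf.W 68 5 [4,6] [0,1,2,3] (Pf.cons (Pf.B 7 6 (Pf.C 0 0xc14087) (Pf.B 7 4 (Pf.B 7 3 (Pf.T 7 28 (Pf.cons (Pf.T 7 42 (Pf.cons (Pf.T 7 43 (Pf.cons (Pf.W 68 3 [] [0,1,2,4,5,6,7] (Pf.cons (Pf.B 8 7 (Pf.B 8 6 (Pf.B 8 5 (Pf.B 8 4 (Pf.B 4 2 (Pf.C 1 0x3050820182) (Pf.B 4 0 (Pf.C 1 0x3050820180) (Pf.C 1 0x104001c303))) (Pf.B 4 2 (Pf.C 1 0x188081c302) (Pf.B 4 0 (Pf.C 1 0x188081c300) (Pf.C 1 0x104001c303)))) (Pf.C 0 0xc04288)) (Pf.C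 0 0xe04308)) (Pf.C 0 0x604407)) (Pf.cons (Pf.B 8 5 (Pf.B 8 7 (Pf.T 8 31 (Pf.cons (Pf.T 8 47 Pf.nil) (Pf.cons (Pf.T 8 48 (Pf.cons (Pf.W 68 3 [8] [0,1,2,5,6,7] (Pf.cons (Pf.B 9 8 (Pf.B 9 7 (Pf.B 9 6 (Pf.B 9 5 (Pf.B 8 2 (Pf.C 1 0x483101c282) (Pf.B 8 0 (Pf.C 1 0x483101c280) (Pf.C 1 0x108001c289))) (Pf.C 0 0xc04289)) (Pf.C 0 0xe04309)) (Pf.C 0 0x604487)) (Pf.C 51 0x20189)) (Pf.cons (Pf.C 3 0x20483) Pf.nil))) Pf.nil)) Pf.nil))) (Pf.B 8 6 (Pf.T 8 31 (Pf.cons (Pf.T 8 47 Pf.nil) (Pf.cons (Pf.T 8 48 (Pf.cons (Pf.W 68 3 [8] [0,1,2,5,6,7] (Pf.cons (Pf.B 9 8 (Pf.B 9 7 (Pf.B 9 6 (Pf.B 9 5 (Pf.B 8 2 (Pf.C 1 0x4831018282) (Pf.B 8 0 (Pf.C 1 0x4831018280) (Pf.C 1 0x1080018289))) (Pf.C 0 0xc04289)) (Pf.C 0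 0xe04309)) (Pf.C 0 0x604487)) (Pf.C 51 0x20189)) (Pf.cons (Pf.C 3 0x20483) Pf.nil))) Pf.nil)) Pf.nil))) (Pf.C 51 0x20386))) (Pf.C 3 66565)) Pf.nil))) Pf.nil)) Pf.nil)) (Pf.cons (Pf.T 7 44 (Pf.cons (Pf.W 68 3 [] [0,1,2,4,5,6,7] (Pf.cons (Pf.B 8 7 (Pf.B 8 6 (Pf.B 8 5 (Pf.B 8 4 (Pf.B 4 2 (Pf.C 1 0x3050820182) (Pf.B 4 0 (Pf.C 1 0x3050820180) (Pf.C 1 0x104001c303))) (Pf.B 4 2 (Pf.C 1 0x188081c302) (Pf.B 4 0 (Pf.C 1 0x188081c300) (Pf.C 1 0x104001c303)))) (Pf.C 0 0xc04288)) (Pf.C 0 0xe04308)) (Pf.C 0 0x604407)) (Pf.cons (Pf.B 8 7 (Pf.B 8 5 (Pf.T 8 31 (Pf.cons (Pf.T 8 47 Pf.nil) (Pf.cons (Pf.T 8 48 (Pf.cons (Pf.W 68 3 [8] [0,1,2,5,6,7] (Pf.cons (Pf.B 9 8 (Pf.B 9 7 (Pf.B 9 6 (Pf.B 9 5 (Pf.B 8 2 (Pf.C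 1 0x483101c282) (Pf.B 8 0 (Pf.C 1 0x483101c280) (Pf.C 1 0x108001c289))) (Pf.C 0 0xc04289)) (Pf.C 0 0xe04309)) (Pf.C 0 0x604487)) (Pf.C 51 0x20189)) (Pf.cons (Pf.C 3 0x20483) Pf.nil))) Pf.nil)) Pf.nil))) (Pf.C 3 66565)) (Pf.C 69 0xc14407)) Pf.nil))) Pf.nil)) Pf.nil))) (Pf.C 0 0xa04383)) (Pf.C 51 66183))) (Pf.cons (Pf.C 3 66437) Pf.nil))) Pf.nil)) Pf.nil)) (Pf.cons (Pf.T 6 44 (Pf.cons (Pf.W 68 5 [4,6] [0,1,2,3] (Pf.cons (Pf.B 7 6 (Pf.C 0 0xc14087) (Pf.B 7 4 (Pf.B 7 3 (Pf.T 7 28 (Pf.cons (Pf.T 7 42 (Pf.cons (Pf.T 7 43 (Pf.cons (Pf.W 68 3 [] [0,1,2,4,5,6,7] (Pf.cons (Pf.B 8 7 (Pf.B 8 6 (Pf.B 8 5 (Pf.B 8 4 (Pf.B 4 2 (Pf.C 1 0x3050820182) (Pf.B 4 0 (Pf.C 1 0x3050820180) (Pf.C 1 0x104001c303)))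 (Pf.B 4 2 (Pf.C 1 0x188081c302) (Pf.B 4 0 (Pf.C 1 0x188081c300) (Pf.C 1 0x104001c303)))) (Pf.C 0 0xc04288)) (Pf.C 0 0xe04308)) (Pf.C 0 0x604407)) (Pf.cons (Pf.B 8 6 (Pf.B 8 5 (Pf.T 8 31 (Pf.cons (Pf.T 8 47 Pf.nil) (Pf.cons (Pf.T 8 48 (Pf.cons (Pf.W 68 3 [8] [0,1,2,5,6,7] (Pf.cons (Pf.B 9 8 (Pf.B 9 7 (Pf.B 9 6 (Pf.B 9 5 (Pf.B 8 2 (Pf.C 1 0x4831018282) (Pf.B 8 0 (Pf.C 1 0x4831018280) (Pf.C 1 0x1080018289))) (Pf.C 0 0xc04289)) (Pf.C 0 0xe04309)) (Pf.C 0 0x604487)) (Pf.C 51 0x20189)) (Pf.cons (Pf.C 3 0x20483) Pf.nil))) Pf.nil)) Pf.nil))) (Pf.C 3 66565)) (Pf.C 69 0xe14406)) Pf.nil))) Pf.nil)) Pf.nil)) (Pf.cons (Pf.T 7 44 (Pf.cons (Pf.W 68 3 [] [0,1,2,4,5,6,7] (Pf.cons (Pf.B 8 7 (Pf.B 8 6 (Pf.B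 8 5 (Pf.B 8 4 (Pf.B 4 2 (Pf.C 1 0x3050820182) (Pf.B 4 0 (Pf.C 1 0x3050820180) (Pf.C 1 0x104001c303))) (Pf.B 4 2 (Pf.C 1 0x188081c302) (Pf.B 4 0 (Pf.C 1 0x188081c300) (Pf.C 1 0x104001c303)))) (Pf.C 0 0xc04288)) (Pf.C 0 0xe04308)) (Pf.C 0 0x604407)) (Pf.cons (Pf.B 8 6 (Pf.B 8 5 (Pf.T 8 31 (Pf.cons (Pf.T 8 47 Pf.nil) (Pf.cons (Pf.T 8 48 (Pf.cons (Pf.W 68 3 [8] [0,1,2,5,6,7] (Pf.cons (Pf.B 9 8 (Pf.B 9 7 (Pf.B 9 6 (Pf.B 9 5 (Pf.B 8 2 (Pf.C 1 0x4831018282) (Pf.B 8 0 (Pf.C 1 0x4831018280) (Pf.C 1 0x1080018289))) (Pf.C 0 0xc04289)) (Pf.C 0 0xe04309)) (Pf.C 0 0x604487)) (Pf.C 51 0x20189)) (Pf.cons (Pf.C 3 0x20483) Pf.nil))) Pf.nil)) Pf.nil))) (Pf.C 3 66565)) (Pf.C 69 0xe14406)) Pf.nil))) Pf.nil))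 Pf.nil))) (Pf.C 0 0xa04383)) (Pf.C 51 66183))) (Pf.cons (Pf.C 3 66437) Pf.nil))) Pf.nil)) Pf.nil))) (Pf.C 0 0xa04303)) (Pf.C 51 66182)) (Pf.cons (Pf.C 3 66309) Pf.nil))))
 (Pq.cons (Pq.L [0,1,2,3] 1 (Pf.W 68 3 [4] [0,1,2,5] (Pf.cons (Pf.B 6 5 (Pf.B 6 4 (Pf.T 6 28 (Pf.cons (Pf.T 6 42 (Pf.cons (Pf.T 6 43 (Pf.cons (Pf.W 68 3 [4,6] [0,1,2,5] (Pf.cons (Pf.B 7 6 (Pf.C 0 0xc0c087) (Pf.B 7 5 (Pf.B 7 4 (Pf.T 7 28 (Pf.cons (Pf.T 7 42 (Pf.cons (Pf.T 7 43 (Pf.cons (Pf.W 68 5 [4] [0,1,2,6,7] (Pf.cons (Pf.B 8 7 (Pf.B 8 6 (Pf.B 8 4 (Pf.B 4 2 (Pf.C 1 0x405081c302) (Pf.B 4 0 (Pf.C 1 0x405081c300) (Pf.C 1 0x104001c308))) (Pf.C 51 66184)) (Pf.C 0 0xe04308)) (Pf.C 0 0xa04407)) (Pf.cons (Pf.C 3 66565) Pf.nil)))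 Pf.nil)) Pf.nil)) (Pf.cons (Pf.T 7 44 (Pf.cons (Pf.W 68 5 [4] [0,1,2,6,7] (Pf.cons (Pf.B 8 7 (Pf.B 8 6 (Pf.B 8 4 (Pf.B 4 2 (Pf.C 1 0x405081c302) (Pf.B 4 0 (Pf.C 1 0x405081c300) (Pf.C 1 0x104001c308))) (Pf.C 51 66184)) (Pf.C 0 0xe04308)) (Pf.C 0 0xa04407)) (Pf.cons (Pf.C 3 66565) Pf.nil))) Pf.nil)) Pf.nil))) (Pf.C 51 65927)) (Pf.C 0 0x604385))) (Pf.cons (Pf.C 3 66435) Pf.nil))) Pf.nil)) Pf.nil)) (Pf.cons (Pf.T 6 44 (Pf.cons (Pf.W 68 3 [4,6] [0,1,2,5] (Pf.cons (Pf.B 7 6 (Pf.C 0 0xc0c087) (Pf.B 7 5 (Pf.B 7 4 (Pf.T 7 28 (Pf.cons (Pf.T 7 42 (Pf.cons (Pf.T 7 43 (Pf.cons (Pf.W 68 5 [4] [0,1,2,6,7] (Pf.cons (Pf.B 8 7 (Pf.B 8 6 (Pf.B 8 4 (Pf.B 4 2 (Pf.C 1 0x405081c302) (Pf.B 4 0 (Pf.C 1 0x405081c300)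 (Pf.C 1 0x104001c308))) (Pf.C 51 66184)) (Pf.C 0 0xe04308)) (Pf.C 0 0xa04407)) (Pf.cons (Pf.C 3 66565) Pf.nil))) Pf.nil)) Pf.nil)) (Pf.cons (Pf.T 7 44 (Pf.cons (Pf.W 68 5 [4] [0,1,2,6,7] (Pf.cons (Pf.B 8 7 (Pf.B 8 6 (Pf.B 8 4 (Pf.B 4 2 (Pf.C 1 0x405081c302) (Pf.B 4 0 (Pf.C 1 0x405081c300) (Pf.C 1 0x104001c308))) (Pf.C 51 66184)) (Pf.C 0 0xe04308)) (Pf.C 0 0xa04407)) (Pf.cons (Pf.C 3 66565) Pf.nil))) Pf.nil)) Pf.nil))) (Pf.C 51 65927)) (Pf.C 0 0x604385))) (Pf.cons (Pf.C 3 66435) Pf.nil))) Pf.nil)) Pf.nil))) (Pf.C 51 65926)) (Pf.C 0 0x604305)) (Pf.cons (Pf.C 3 66307) Pf.nil))))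
 Pq.nil))))))))
theorem e1_o66 : AllRef e1_T e1_G87 (closeObl (e1_T.sc.get 1) false [126,127,128,129,130,131,133,134] [0,0,0,0,1,2,3,3] [3] [0] 254) :=
  chkPq_sound e1_o66c _ (by decide +kernel)
noncomputable def e1_o67c : Pq := (Pq.cons (Pq.L [] 0 (Pf.X 3 4))
 (Pq.cons (Pq.L [1,3] 1 (Pf.C 0 0xa04203))
 (Pq.cons (Pq.L [0,1,2,3] 1 (Pf.W 85 4 [] [0,1,2,3,5] (Pf.cons (Pf.B 6 5 (Pf.W 68 3 [6] [0,1,2,4,5] (Pf.cons (Pf.B 7 6 (Pf.B 7 5 (Pf.B 7 4 (Pf.T 7 28 (Pf.cons (Pf.T 7 42 (Pf.cons (Pf.T 7 43 (Pf.cons (Pf.W 68 3 [6,7] [0,1,2,4,5] (Pf.cons (Pf.B 8 7 (Pf.C 0 0xe0c088) (Pf.B 8 6 (Pf.B 8 5 (Pf.B 8 4 (Pf.B 6 2 (Pf.C 1 0x2840c20382) (Pf.B 6 0 (Pf.C 1 0x2840c20380) (Pf.C 1 0x1060020385))) (Pf.C 0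 0xa04208)) (Pf.C 0 0x604405)) (Pf.C 51 98696))) (Pf.cons (Pf.C 3 99331) Pf.nil))) Pf.nil)) Pf.nil)) (Pf.cons (Pf.T 7 44 (Pf.cons (Pf.W 68 3 [6,7] [0,1,2,4,5] (Pf.cons (Pf.B 8 7 (Pf.C 0 0xe0c088) (Pf.B 8 6 (Pf.B 8 5 (Pf.B 8 4 (Pf.B 6 2 (Pf.C 1 0x2840c20382) (Pf.B 6 0 (Pf.C 1 0x2840c20380) (Pf.C 1 0x1060020385))) (Pf.C 0 0xa04208)) (Pf.C 0 0x604405)) (Pf.C 51 98696))) (Pf.cons (Pf.C 3 99331) Pf.nil))) Pf.nil)) Pf.nil))) (Pf.C 0 0xa04207)) (Pf.C 0 0x604385)) (Pf.C 51 98695)) (Pf.cons (Pf.C 3 99203) Pf.nil))) (Pf.C 86 773)) Pf.nil)))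
 (Pq.cons (Pq.L [0,1,2,3] 1 (Pf.W 89 4 [] [0,1,2,3,5] (Pf.cons (Pf.B 6 5 (Pf.B 6 1 (Pf.W 87 6 [] [0,1,2,3,4,5] (Pf.cons (Pf.B 7 5 (Pf.B 7 4 (Pf.W 68 3 [7] [0,1,2,4,5,6] (Pf.cons (Pf.B 8 7 (Pf.C 0 0xe0c088) (Pf.B 8 6 (Pf.B 8 5 (Pf.B 8 4 (Pf.B 6 2 (Pf.C 1 0x2840c20182) (Pf.B 6 0 (Pf.C 1 0x2840c20180) (Pf.C 1 0x1060020185))) (Pf.C 0 0xa04208)) (Pf.C 0 0x604405)) (Pf.C 51 99208))) (Pf.cons (Pf.B 8 7 (Pf.B 8 4 (Pf.B 8 5 (Pf.B 8 2 (Pf.C 1 0x3831014202) (Pf.B 8 0 (Pf.C 1 0x3831014200) (Pf.C 1 0x1080014207))) (Pf.W 74 98695 [] [1,8,5] (Pf.cons (Pf.C 0 0xe0c089) (Pf.cons (Pf.C 0 0xe0c089) (Pf.cons (Pf.T 8 48 (Pf.cons (Pf.C 86 1029) Pf.nil)) (Pf.cons (Pf.C 3 0x20483) Pf.nil)))))) (Pf.C 3 99332)) (Pf.C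 3 99335)) Pf.nil))) (Pf.C 51 98823)) (Pf.C 0 0x604385)) Pf.nil)) (Pf.C 0 0xa10086)) (Pf.C 90 773)) Pf.nil)))
 (Pq.cons (Pq.L [1,3] 1 (Pf.C 0 0xa04203))
 (Pq.cons (Pq.L [] 1 (Pf.C 90 517))
 (Pq.cons (Pq.L [] 1 (Pf.C 86 517))
 (Pq.cons (Pq.L [] 0 (Pf.X 3 4))
 (Pq.cons (Pq.L [1,2] 1 (Pf.C 0 0x414084))
 (Pq.cons (Pq.L [1,2] 1 (Pf.C 0 0x414084))
 (Pq.cons (Pq.L [1,2] 1 (Pf.C 0 0x414084))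
 (Pq.cons (Pq.L [1,2] 1 (Pf.C 0 0x414084))
 (Pq.cons (Pq.L [1,2] 1 (Pf.W 87 4 [] [1,2,5] (Pf.cons (Pf.B 6 5 (Pf.C 53 66182) (Pf.C 0 0x404286)) Pf.nil)))
 (Pq.cons (Pq.L [3] 1 (Pf.C 53 66179))
 (Pq.cons (Pq.L [] 0 (Pf.X 3 4))
 (Pq.cons (Pq.L [0,1] 1 (Pf.C 0 82052))
 (Pq.cons (Pq.L [0,1] 1 (Pf.C 0 82052))
 (Pq.cons (Pq.L [0,1] 1 (Pf.C 0 82052))
 (Pq.cons (Pq.L [0,1] 1 (Pf.C 0 82052))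
 (Pq.cons (Pq.L [0,1] 1 (Pf.W 87 4 [] [0,1,5] (Pf.cons (Pf.B 6 5 (Pf.C 55 66182) (Pf.C 0 17030)) Pf.nil)))
 (Pq.cons (Pq.L [3] 1 (Pf.C 55 66179))
 (Pq.cons (Pq.L [] 0 (Pf.X 3 4))
 (Pq.cons (Pq.L [] 1 (Pf.C 88 517))
 (Pq.cons (Pq.L [] 1 (Pf.W 85 4 [] [5] (Pf.cons (Pf.C 3 82692) Pf.nil)))
 (Pq.cons (Pq.L [] 1 (Pf.W 89 4 [] [5] (Pf.cons (Pf.C 3 82692) Pf.nil)))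
 (Pq.cons (Pq.L [1,3] 1 (Pf.W 68 3 [4] [1,5] (Pf.cons (Pf.B 6 4 (Pf.C 0 0x80c086) (Pf.C 69 0xa0c304)) (Pf.cons (Pf.W 68 3 [4,6] [1,5] (Pf.cons (Pf.B 7 4 (Pf.C 0 0x80c087) (Pf.C 69 0xa0c384)) (Pf.cons (Pf.C 3 99203) Pf.nil))) Pf.nil))))
 (Pq.cons (Pq.L [] 1 (Pf.C 2 644))
 (Pq.cons (Pq.L [] 1 (Pf.C 2 644))
 Pq.nil))))))))))))))))))))))))))))
theorem e1_o67 : AllRef e1_T e1_G91 (closeObl (e1_T.sc.get 1) false [127,135,139,140,129,130,131,137,138,134] [0,0,0,0,0,1,2,3,3,3] [3] [0] 663) :=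
  chkPq_sound e1_o67c _ (by decide +kernel)
noncomputable def e1_o68c : Pq := (Pq.cons (Pq.L [0,1,2,3] 63 (Pf.T 7 49 (Pf.cons (Pf.W 85 7 [] [1,3,4,5,6] (Pf.cons (Pf.B 8 6 (Pf.B 8 5 (Pf.B 8 4 (Pf.T 4 49 (Pf.cons (Pf.W 85 4 [] [3,8] (Pf.cons (Pf.C 3 0x20483) Pf.nil)) (Pf.cons (Pf.T 4 51 (Pf.cons (Pf.W 89 4 [] [1,3,5,6,7,8] (Pf.cons (Pf.B 9 8 (Pf.C 2 1033) (Pf.B 9 7 (Pf.B 9 6 (Pf.B 9 5 (Pf.W 87 9 [] [1,3,4,5,6,7,8] (Pf.cons (Pf.B 10 8 (Pf.B 10 7 (Pf.B 10 6 (Pf.B 10 5 (Pf.B 10 4 (Pf.T 5 49 (Pf.cons (Pf.W 85 5 [] [3,8] (Pf.cons (Pf.C 3 0x20583) Pf.nil)) (Pf.cons (Pf.T 5 51 (Pf.cons (Pf.W 89 5 [] [1,3,4,6,7,8,9,10] (Pf.cons (Pf.B 11 10 (Pf.B 11 8 (Pf.C 2 1035) (Pf.B 11 7 (Pf.B 11 6 (Pf.B 11 4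 (Pf.W 67 6 [] [1,3,4,5,7,8,9,10,11] (Pf.cons (Pf.B 12 10 (Pf.B 12 9 (Pf.B 12 8 (Pf.B 12 7 (Pf.B 12 11 (Pf.C 1 0x388161860a) (Pf.B 12 5 (Pf.C 1 0x4880e18605) (Pf.C 51 0x2c28c))) (Pf.C 0 0xc04607)) (Pf.C 73 0xe0c608)) (Pf.C 73 0x1410609)) (Pf.C 0 0xc0460a)) (Pf.cons (Pf.B 12 11 (Pf.C 2 1420) (Pf.B 12 10 (Pf.B 12 5 (Pf.B 12 4 (Pf.B 12 3 (Pf.C 1 0x28b1828184) (Pf.C 3 0x20603)) (Pf.C 3 0x24604)) (Pf.C 3 0x2c605)) (Pf.C 3 0x2460a))) Pf.nil))) (Pf.C 3 0x24584)) (Pf.C 1 0x28b0c28187)) (Pf.C 3 0x20587))) (Pf.C 3 0x2458a)) Pf.nil)) Pf.nil)) Pf.nil))) (Pf.C 51 0x2420a)) (Pf.C 0 0x604505)) (Pf.C 0 0x604506)) (Pf.C 0 0x604507)) (Pf.C 3 0x2440a)) Pf.nil)) (Pf.W 87 9 [] [4,5] (Pf.cons (Pf.C 73 0xa10509)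 Pf.nil))) (Pf.B 9 5 (Pf.W 87 9 [] [4,6] (Pf.cons (Pf.C 73 0xc10509) Pf.nil)) (Pf.C 73 0xc10289))) (Pf.C 3 0x20487))) Pf.nil)) Pf.nil)) Pf.nil))) (Pf.C 73 0xe0c208)) (Pf.C 73 0xe0c288)) (Pf.C 73 0xe0c308)) Pf.nil)) (Pf.cons (Pf.T 7 51 (Pf.cons (Pf.W 89 7 [] [0,1,2,3,4,5,6] (Pf.cons (Pf.B 8 6 (Pf.B 8 5 (Pf.B 8 4 (Pf.W 87 8 [] [0,1,2,3,4,5,6,7] (Pf.cons (Pf.B 9 7 (Pf.B 9 6 (Pf.B 9 5 (Pf.B 9 4 (Pf.T 4 49 (Pf.cons (Pf.W 85 4 [] [1,3,5,6,7,8,9] (Pf.cons (Pf.B 10 6 (Pf.B 10 5 (Pf.T 5 49 (Pf.cons (Pf.W 85 5 [] [3,10] (Pf.cons (Pf.C 3 0x28583) Pf.nil)) (Pf.cons (Pf.T 5 51 (Pf.cons (Pf.W 89 5 [] [1,3,4,6,7,8,9,10] (Pf.cons (Pf.B 11 9 (Pf.B 11 7 (Pf.B 11 6 (Pf.B 11 4 (Pf.W 67 6 [] [1,3,4,5,7,8,9,10,11]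 (Pf.cons (Pf.B 12 9 (Pf.B 12 8 (Pf.B 12 7 (Pf.B 12 5 (Pf.C 1 0x4880e18605) (Pf.C 0 0xc04605)) (Pf.C 0 0xc04607)) (Pf.C 73 0x121c608)) (Pf.C 0 0xc04609)) (Pf.cons (Pf.B 12 11 (Pf.C 2 1420) (Pf.B 12 9 (Pf.B 12 5 (Pf.B 12 4 (Pf.B 12 3 (Pf.C 1 0x28b1824184) (Pf.C 3 0x28603)) (Pf.C 3 0x28604)) (Pf.C 3 0x2c605)) (Pf.C 3 0x20609))) Pf.nil))) (Pf.C 3 0x28584)) (Pf.C 1 0x28b0c24187)) (Pf.C 3 0x20587)) (Pf.C 3 0x20589)) Pf.nil)) Pf.nil)) Pf.nil))) (Pf.C 73 0x80c28a)) (Pf.C 73 0x80c30a)) Pf.nil)) (Pf.cons (Pf.T 4 51 (Pf.cons (Pf.W 89 4 [] [0,1,2,3,5,6,7,8,9] (Pf.cons (Pf.B 10 9 (Pf.B 10 7 (Pf.B 10 6 (Pf.B 10 5 (Pf.B 10 2 (Pf.B 10 0 (Pf.W 87 10 [] [0,1,2,3,4,5,6,7,8,9] (Pf.cons (Pf.B 11 9 (Pf.C 0 0x120c08b)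 (Pf.B 11 7 (Pf.B 11 6 (Pf.B 11 5 (Pf.B 11 4 (Pf.T 5 49 (Pf.cons (Pf.W 85 5 [] [0,1,2,3,4,6,7,8,9,10,11] (Pf.cons (Pf.B 12 11 (Pf.B 12 10 (Pf.C 2 1292) (Pf.B 12 9 (Pf.B 12 7 (Pf.B 12 6 (Pf.B 12 4 (Pf.B 12 2 (Pf.B 12 0 (Pf.W 67 6 [] [0,1,3,4,5,7,8,9,10,11,12] (Pf.cons (Pf.B 13 12 (Pf.B 13 11 (Pf.B 13 10 (Pf.C 1 0x60a1618680) (Pf.C 73 0x161068a)) (Pf.C 0 0xc0468b)) (Pf.C 73 0xa0c68c)) (Pf.cons (Pf.B 13 12 (Pf.C 2 1549) (Pf.B 13 11 (Pf.B 13 9 (Pf.B 13 7 (Pf.C 1 0x60d0c2c487) (Pf.C 3 0x20687)) (Pf.C 3 0x20689)) (Pf.C 3 0x2868b))) Pf.nil))) (Pf.C 1 0x28c002c482)) (Pf.C 1 0x28c042c484)) (Pf.C 86 1540)) (Pf.C 73 0xa0c30c)) (Pf.C 86 1543)) (Pf.C 3 0x20609))) (Pf.C 3 0x2860b)) Pf.nil)) (Pf.cons (Pf.T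 5 51 (Pf.cons (Pf.W 89 5 [] [3,7,8,9,10] (Pf.cons (Pf.B 12 10 (Pf.C 2 1292) (Pf.B 12 9 (Pf.B 12 7 (Pf.C 1 0x50c0a24187) (Pf.C 3 0x20607)) (Pf.C 3 0x20609))) Pf.nil)) Pf.nil)) Pf.nil))) (Pf.C 51 0x2820b)) (Pf.C 0 0x604585)) (Pf.C 0 0x604586)) (Pf.C 0 0x604587))) Pf.nil)) (Pf.C 1 0x20a0024182)) (Pf.C 1 0x20a0424185)) (Pf.C 1 0x20a0a24186)) (Pf.C 1 0x20a0c24187)) (Pf.C 3 0x20507)) (Pf.C 3 0x20509)) Pf.nil)) Pf.nil)) Pf.nil))) (Pf.C 0 0x604484)) (Pf.C 0 0x604485)) (Pf.C 0 0x604486)) (Pf.C 51 0x20389)) Pf.nil)) (Pf.W 87 8 [] [4,7] (Pf.cons (Pf.C 73 0xe10488) Pf.nil))) (Pf.B 8 4 (Pf.W 87 8 [] [5,7] (Pf.cons (Pf.C 73 0xe14488) Pf.nil)) (Pf.C 73 0xe14208))) (Pf.B 8 5 (Pf.B 8 4 (Pf.W 87 8 [] [6,7]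 (Pf.cons (Pf.C 73 0xe18488) Pf.nil)) (Pf.C 73 0xe18208)) (Pf.C 73 0xe18288))) Pf.nil)) Pf.nil)) Pf.nil))))
 (Pq.cons (Pq.L [0,1,2,3] 1 (Pf.T 4 49 (Pf.cons (Pf.W 85 4 [] [0,1,2,3,5] (Pf.cons (Pf.B 6 5 (Pf.T 5 49 (Pf.cons (Pf.W 85 5 [] [3,6] (Pf.cons (Pf.C 3 99203) Pf.nil)) (Pf.cons (Pf.T 5 51 (Pf.cons (Pf.W 89 5 [] [0,1,2,3,4,6] (Pf.cons (Pf.B 7 4 (Pf.B 7 1 (Pf.W 87 7 [] [0,1,2,3,4,5,6] (Pf.cons (Pf.W 68 3 [6,8] [0,1,2,4,5,7] (Pf.cons (Pf.B 9 8 (Pf.C 0 0x100c089) (Pf.B 9 7 (Pf.B 9 5 (Pf.B 9 4 (Pf.B 7 2 (Pf.C 1 0x2050e24182) (Pf.B 7 0 (Pf.C 1 0x2050e24180) (Pf.C 1 0x1070024184))) (Pf.C 0 0xa04209)) (Pf.C 0 0x604485)) (Pf.C 51 0x1c409))) (Pf.cons (Pf.C 3 99459) Pf.nil))) Pf.nil)) (Pf.C 0 0x814087))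 (Pf.C 3 99204)) Pf.nil)) Pf.nil)) Pf.nil))) (Pf.C 51 98821)) Pf.nil)) (Pf.cons (Pf.T 4 51 (Pf.cons (Pf.W 89 4 [] [0,1,2,3,5] (Pf.cons (Pf.B 6 5 (Pf.B 6 1 (Pf.W 87 6 [] [0,1,2,3,4,5] (Pf.cons (Pf.B 7 5 (Pf.B 7 4 (Pf.T 5 49 (Pf.cons (Pf.W 85 5 [] [0,1,2,3,4,6,7] (Pf.cons (Pf.B 8 7 (Pf.B 8 4 (Pf.W 68 3 [7,8] [0,1,2,4,5] (Pf.cons (Pf.B 9 8 (Pf.B 9 7 (Pf.C 0 0xe0c089) (Pf.B 9 5 (Pf.B 9 4 (Pf.B 8 2 (Pf.C 1 0x2051024382) (Pf.B 8 0 (Pf.C 1 0x2051024380) (Pf.C 1 0x1080024384))) (Pf.C 0 0xa04209)) (Pf.C 0 0x604485))) (Pf.C 51 0x20189)) (Pf.cons (Pf.C 3 0x20483) Pf.nil))) (Pf.C 86 1028)) (Pf.C 3 99335)) Pf.nil)) (Pf.cons (Pf.T 5 51 (Pf.cons (Pf.W 89 5 [] [0,2,3,4,6,7] (Pf.cons (Pf.B 8 7 (Pf.B 8 4 (Pf.B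 8 2 (Pf.C 1 0x205101c182) (Pf.B 8 0 (Pf.C 1 0x205101c180) (Pf.C 1 0x108001c184))) (Pf.C 3 99332)) (Pf.C 3 99335)) Pf.nil)) Pf.nil)) Pf.nil))) (Pf.C 51 98823)) (Pf.C 0 0x604385)) Pf.nil)) (Pf.C 0 0xa10086)) (Pf.C 51 98821)) Pf.nil)) Pf.nil)) Pf.nil))))
 (Pq.cons (Pq.L [1,3] 0 (Pf.B 6 5 (Pf.C 0 0xa0c086) (Pf.B 6 4 (Pf.C 0 0x80c086) (Pf.C 69 0xa0c206))))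
 (Pq.cons (Pq.L [3] 0 (Pf.C 3 82435))
 Pq.nil))))
theorem e1_o68 : AllRef e1_T e1_G92 (hitObl [128,129,134] e1_h113) :=
  chkPq_sound e1_o68c _ (by decide +kernel)
noncomputable def e1_o69c : Pq := (Pq.cons (Pq.L [] 0 (Pf.C 91 4))
 (Pq.cons (Pq.L [] 0 (Pf.C 92 4))
 (Pq.cons (Pq.L [] 0 (Pf.C 93 4))
 Pq.nil)))
theorem e1_o69 : AllRef e1_T e1_G93 (List.map pat1 [141,142,143]) :=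
  chkPq_sound e1_o69c _ (by decide +kernel)
noncomputable def e1_o70c : Pq := (Pq.cons (Pq.D 0 (Pq.cons (Pq.D 1 (Pq.cons (Pq.L [1,3] 1 (Pf.C 0 0xa0c084))
 (Pq.cons (Pq.D 2 (Pq.cons (Pq.L [1,3] 2 (Pf.C 0 0xc0c084))
 (Pq.cons (Pq.L [] 3 (Pf.C 3 98948))
 Pq.nil))) Pq.nil))) (Pq.cons (Pq.D 1 (Pq.cons (Pq.D 2 (Pq.cons (Pq.L [1,3] 3 (Pf.B 6 5 (Pf.C 0 0xa0c086) (Pf.C 51 66182)))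
 (Pq.cons (Pq.L [] 2 (Pf.C 2 772))
 Pq.nil))) (Pq.cons (Pq.L [] 1 (Pf.C 2 644))
 Pq.nil))) Pq.nil))) Pq.nil)
theorem e1_o70 : AllRef e1_T e1_G94 (applyObl TD2 1 [127,133] [0,0] [(127,0x80000000000000000000000000000000),(133,0x2000000000000000000000000000000000)]) :=
  chkPq_sound e1_o70c _ (by decide +kernel)
noncomputable def e1_o71c : Pq := (Pq.cons (Pq.L [] 0 (Pf.W 64 0 [] [3] (Pf.cons (Pf.C 47 515) Pf.nil)))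
 (Pq.cons (Pq.L [] 0 (Pf.W 64 0 [] [3] (Pf.cons (Pf.C 49 388) Pf.nil)))
 Pq.nil))
theorem e1_o71 : AllRef e1_T e1_G52 (List.map pat1 [79,81]) :=
  chkPq_sound e1_o71c _ (by decide +kernel)
noncomputable def e1_o72c : Pq := (Pq.cons (Pq.D 0 (Pq.cons (Pq.D 1 (Pq.cons (Pq.L [0,1,2] 7 (Pf.B 5 4 (Pf.W 64 0 [] [0,1,2,3,4] (Pf.cons (Pf.B 6 4 (Pf.C 4 0x808006) (Pf.B 6 3 (Pf.C 4 0x608006) (Pf.C 0 0x210186))) Pf.nil)) (Pf.B 5 3 (Pf.W 64 0 [] [0,1,2,3,4] (Pf.cons (Pf.B 6 4 (Pf.C 4 0x808006) (Pf.B 6 3 (Pf.C 4 0x608006) (Pf.C 0 0x210186))) Pf.nil)) (Pf.B 5 1 (Pf.C 0 0x210185) (Pf.B 5 0 (Pf.W 64 0 [] [0,1,2,3,4] (Pf.cons (Pf.B 6 4 (Pf.C 4 0x808006) (Pf.B 6 3 (Pf.C 4 0x608006) (Pf.C 0 0x210186))) Pf.nil))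 (Pf.C 0 0x604280))))))
 (Pq.cons (Pq.L [0,2] 1 (Pf.C 4 0x608004))
 (Pq.cons (Pq.D 2 (Pq.cons (Pq.L [] 7 (Pf.C 51 66179))
 (Pq.cons (Pq.L [0,2] 2 (Pf.C 4 0x608005))
 (Pq.cons (Pq.L [] 3 (Pf.C 3 82435))
 Pq.nil)))) Pq.nil)))) (Pq.cons (Pq.D 1 (Pq.cons (Pq.L [0,2] 1 (Pf.C 4 0x808003))
 (Pq.cons (Pq.L [0,2] 1 (Pf.C 0 0x410180))
 (Pq.cons (Pq.D 2 (Pq.cons (Pq.L [0,2] 2 (Pf.C 4 0xa08003))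
 (Pq.cons (Pq.L [0,2] 2 (Pf.C 0 0x414180))
 (Pq.cons (Pq.L [] 3 (Pf.C 3 82435))
 Pq.nil)))) Pq.nil)))) (Pq.cons (Pq.D 1 (Pq.cons (Pq.D 2 (Pq.cons (Pq.L [] 7 (Pf.C 51 49796))
 (Pq.cons (Pq.L [0,2] 4 (Pf.C 4 0x808005))
 (Pq.cons (Pq.L [] 2 (Pf.C 2 643))
 Pq.nil)))) (Pq.cons (Pq.D 2 (Pq.cons (Pq.L [0,2] 4 (Pf.C 4 0xa08004))
 (Pq.cons (Pq.L [0,2] 4 (Pf.C 0 0x414200))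
 (Pq.cons (Pq.L [] 2 (Pf.C 2 643))
 Pq.nil)))) (Pq.cons (Pq.L [] 1 (Pf.C 2 515))
 Pq.nil)))) Pq.nil)))) (Pq.cons (Pq.D 0 (Pq.cons (Pq.D 1 (Pq.cons (Pq.D 2 (Pq.cons (Pq.D 3 (Pq.cons (Pq.L [] 2247 (Pf.C 4 0x618284))
 (Pq.cons (Pq.L [0] 133 (Pf.C 4 0x800186))
 (Pq.cons (Pq.D 4 (Pq.cons (Pq.L [] 4427 (Pf.C 4 0x61c284))
 (Pq.cons (Pq.L [0] 265 (Pf.C 4 0x800187))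
 (Pq.cons (Pq.L [] 384 (Pf.C 3 0x1c304))
 Pq.nil)))) Pq.nil)))) (Pq.cons (Pq.L [0] 67 (Pf.C 4 0x800185))
 (Pq.cons (Pq.D 3 (Pq.cons (Pq.D 4 (Pq.cons (Pq.L [] 33165 (Pf.C 4 0x61c304))
 (Pq.cons (Pq.L [0] 265 (Pf.C 4 0x800187))
 (Pq.cons (Pq.L [] 320 (Pf.C 3 0x1c284))
 Pq.nil)))) (Pq.cons (Pq.L [0] 133 (Pf.C 4 0x800186))
 (Pq.cons (Pq.L [] 192 (Pf.C 3 98948))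
 Pq.nil)))) Pq.nil)))) (Pq.cons (Pq.D 2 (Pq.cons (Pq.L [0] 67 (Pf.C 4 0xa00184))
 (Pq.cons (Pq.L [0] 67 (Pf.C 0 82435))
 (Pq.cons (Pq.D 3 (Pq.cons (Pq.L [0] 133 (Pf.C 4 0xc00184))
 (Pq.cons (Pq.L [0] 133 (Pf.C 0 98819))
 (Pq.cons (Pq.L [] 192 (Pf.C 3 98948))
 Pq.nil)))) Pq.nil)))) (Pq.cons (Pq.D 2 (Pq.cons (Pq.D 3 (Pq.cons (Pq.D 4 (Pq.cons (Pq.D 5 (Pq.cons (Pq.D 6 (Pq.cons (Pq.L [] 0x1c0038 (Pf.C 4 0x624388))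
 (Pq.cons (Pq.L [0] 0x100030 (Pf.C 4 0x1000189))
 (Pq.cons (Pq.L [0,1,2] 0x40000 (Pf.W 64 0 [] [0,1,2,7,8] (Pf.cons (Pf.B 10 8 (Pf.C 4 0x100800a) (Pf.B 10 7 (Pf.C 4 0xe0800a) (Pf.C 0 0x22038a))) Pf.nil)))
 Pq.nil)))) (Pq.cons (Pq.L [0] 0x40018 (Pf.C 4 0xe00188))
 (Pq.cons (Pq.L [] 0x40100 (Pf.C 3 0x20207))
 Pq.nil)))) (Pq.cons (Pq.L [] 39360 (Pf.C 0 0xc1c205))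
 (Pq.cons (Pq.L [] 256 (Pf.C 2 900))
 Pq.nil)))) (Pq.cons (Pq.D 4 (Pq.cons (Pq.L [] 39360 (Pf.C 0 0xe18205))
 (Pq.cons (Pq.L [] 39360 (Pf.C 0 0xe14206))
 (Pq.cons (Pq.L [] 256 (Pf.C 2 900))
 Pq.nil)))) (Pq.cons (Pq.L [] 128 (Pf.C 2 772))
 Pq.nil)))) (Pq.cons (Pq.D 3 (Pq.cons (Pq.D 4 (Pq.cons (Pq.L [] 39360 (Pf.C 0 0xe14206))
 (Pq.cons (Pq.L [] 39360 (Pf.C 0 0xe18205))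
 (Pq.cons (Pq.L [] 256 (Pf.C 2 900))
 Pq.nil)))) (Pq.cons (Pq.D 4 (Pq.cons (Pq.L [] 39360 (Pf.C 0 0xc1c205))
 (Pq.cons (Pq.D 5 (Pq.cons (Pq.L [0] 0x40018 (Pf.C 4 0x1000187))
 (Pq.cons (Pq.L [0] 0x40018 (Pf.C 0 0x20383))
 (Pq.cons (Pq.L [] 0x40100 (Pf.C 3 0x20207))
 Pq.nil)))) (Pq.cons (Pq.L [] 256 (Pf.C 2 900))
 Pq.nil)))) (Pq.cons (Pq.L [] 128 (Pf.C 2 772))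
 Pq.nil)))) (Pq.cons (Pq.L [] 64 (Pf.C 2 644))
 Pq.nil)))) Pq.nil)))) (Pq.cons (Pq.D 1 (Pq.cons (Pq.D 2 (Pq.cons (Pq.L [1] 67 (Pf.C 0 0x214203))
 (Pq.cons (Pq.L [1] 67 (Pf.C 4 0xa04184))
 (Pq.cons (Pq.D 3 (Pq.cons (Pq.L [1] 133 (Pf.C 0 0x218203))
 (Pq.cons (Pq.L [1] 133 (Pf.C 4 0xc04184))
 (Pq.cons (Pq.L [] 192 (Pf.C 3 98948))
 Pq.nil)))) Pq.nil)))) (Pq.cons (Pq.D 2 (Pq.cons (Pq.L [1] 67 (Pf.C 4 0x804185))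
 (Pq.cons (Pq.L [0,2] 64 (Pf.C 0 0x414200))
 (Pq.cons (Pq.D 3 (Pq.cons (Pq.L [1] 133 (Pf.C 4 0x804186))
 (Pq.cons (Pq.L [0,2] 128 (Pf.C 0 0x418200))
 (Pq.cons (Pq.L [] 192 (Pf.C 3 98948))
 Pq.nil)))) Pq.nil)))) (Pq.cons (Pq.D 2 (Pq.cons (Pq.D 3 (Pq.cons (Pq.D 4 (Pq.cons (Pq.D 5 (Pq.cons (Pq.L [1] 0x40018 (Pf.C 0 0x220383))
 (Pq.cons (Pq.L [1] 0x40018 (Pf.C 4 0x1004187))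
 (Pq.cons (Pq.L [] 0x40100 (Pf.C 3 0x20207))
 Pq.nil)))) (Pq.cons (Pq.L [] 39360 (Pf.C 0 0xc1c205))
 (Pq.cons (Pq.L [] 256 (Pf.C 2 900))
 Pq.nil)))) (Pq.cons (Pq.D 4 (Pq.cons (Pq.L [] 39360 (Pf.C 0 0xe18205))
 (Pq.cons (Pq.L [] 39360 (Pf.C 0 0xe14206))
 (Pq.cons (Pq.L [] 256 (Pf.C 2 900))
 Pq.nil)))) (Pq.cons (Pq.L [] 128 (Pf.C 2 772))
 Pq.nil)))) (Pq.cons (Pq.D 3 (Pq.cons (Pq.D 4 (Pq.cons (Pq.L [] 39360 (Pf.C 0 0xe14206))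
 (Pq.cons (Pq.L [] 39360 (Pf.C 0 0xe18205))
 (Pq.cons (Pq.L [] 256 (Pf.C 2 900))
 Pq.nil)))) (Pq.cons (Pq.D 4 (Pq.cons (Pq.L [] 39360 (Pf.C 0 0xc1c205))
 (Pq.cons (Pq.D 5 (Pq.cons (Pq.L [1] 0x40018 (Pf.C 4 0xe04188))
 (Pq.cons (Pq.L [0,2] 0x40000 (Pf.C 0 0x420380))
 (Pq.cons (Pq.L [] 0x40100 (Pf.C 3 0x20207))
 Pq.nil)))) (Pq.cons (Pq.L [] 256 (Pf.C 2 900))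
 Pq.nil)))) (Pq.cons (Pq.L [] 128 (Pf.C 2 772))
 Pq.nil)))) (Pq.cons (Pq.L [] 64 (Pf.C 2 644))
 Pq.nil)))) Pq.nil)))) (Pq.cons (Pq.D 1 (Pq.cons (Pq.D 2 (Pq.cons (Pq.D 3 (Pq.cons (Pq.L [1] 2240 (Pf.C 0 0xc04205))
 (Pq.cons (Pq.L [0,2] 128 (Pf.C 4 0x808006))
 (Pq.cons (Pq.D 4 (Pq.cons (Pq.L [1] 4416 (Pf.C 0 0xe04205))
 (Pq.cons (Pq.L [0,2] 256 (Pf.C 4 0x808007))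
 (Pq.cons (Pq.L [] 33165 (Pf.C 0 0x81c303))
 Pq.nil)))) Pq.nil)))) (Pq.cons (Pq.L [0,2] 64 (Pf.C 4 0x808005))
 (Pq.cons (Pq.D 3 (Pq.cons (Pq.D 4 (Pq.cons (Pq.L [1] 33152 (Pf.C 0 0xe04206))
 (Pq.cons (Pq.L [0,2] 256 (Pf.C 4 0x808007))
 (Pq.cons (Pq.L [] 4427 (Pf.C 0 0x81c283))
 Pq.nil)))) (Pq.cons (Pq.L [0,2] 128 (Pf.C 4 0x808006))
 (Pq.cons (Pq.L [] 2247 (Pf.C 0 0x818283))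
 Pq.nil)))) Pq.nil)))) (Pq.cons (Pq.D 2 (Pq.cons (Pq.L [0,2] 64 (Pf.C 4 0xa08004))
 (Pq.cons (Pq.L [0,2] 64 (Pf.C 0 0x414200))
 (Pq.cons (Pq.D 3 (Pq.cons (Pq.L [0,2] 128 (Pf.C 4 0xc08004))
 (Pq.cons (Pq.L [0,2] 128 (Pf.C 0 0x418200))
 (Pq.cons (Pq.L [] 2247 (Pf.C 0 0x818283))
 Pq.nil)))) Pq.nil)))) (Pq.cons (Pq.D 2 (Pq.cons (Pq.D 3 (Pq.cons (Pq.D 4 (Pq.cons (Pq.D 5 (Pq.cons (Pq.D 6 (Pq.cons (Pq.L [] 0x1c7000 (Pf.C 4 0xa24388))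
 (Pq.cons (Pq.L [0] 0x106000 (Pf.C 4 0x1000289))
 (Pq.cons (Pq.L [0,1,2] 0x40000 (Pf.W 64 0 [] [0,1,2,7,8] (Pf.cons (Pf.B 10 8 (Pf.C 4 0x100800a) (Pf.B 10 7 (Pf.C 4 0xe0800a) (Pf.C 0 0x22038a))) Pf.nil)))
 Pq.nil)))) (Pq.cons (Pq.L [0] 0x43000 (Pf.C 4 0xe00288))
 (Pq.cons (Pq.L [] 0x40319 (Pf.C 0 0xe20203))
 Pq.nil)))) (Pq.cons (Pq.L [] 39360 (Pf.C 0 0xc1c205))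
 (Pq.cons (Pq.L [] 256 (Pf.C 2 900))
 Pq.nil)))) (Pq.cons (Pq.D 4 (Pq.cons (Pq.L [] 39360 (Pf.C 0 0xe18205))
 (Pq.cons (Pq.L [] 39360 (Pf.C 0 0xe14206))
 (Pq.cons (Pq.L [] 256 (Pf.C 2 900))
 Pq.nil)))) (Pq.cons (Pq.L [] 128 (Pf.C 2 772))
 Pq.nil)))) (Pq.cons (Pq.D 3 (Pq.cons (Pq.D 4 (Pq.cons (Pq.L [] 39360 (Pf.C 0 0xe14206))
 (Pq.cons (Pq.L [] 39360 (Pf.C 0 0xe18205))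
 (Pq.cons (Pq.L [] 256 (Pf.C 2 900))
 Pq.nil)))) (Pq.cons (Pq.D 4 (Pq.cons (Pq.L [] 39360 (Pf.C 0 0xc1c205))
 (Pq.cons (Pq.D 5 (Pq.cons (Pq.L [1] 0x43000 (Pf.C 4 0xe04288))
 (Pq.cons (Pq.L [0,2] 0x40000 (Pf.C 0 0x420380))
 (Pq.cons (Pq.L [] 0x40319 (Pf.C 0 0xe20203))
 Pq.nil)))) (Pq.cons (Pq.L [] 256 (Pf.C 2 900))
 Pq.nil)))) (Pq.cons (Pq.L [] 128 (Pf.C 2 772))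
 Pq.nil)))) (Pq.cons (Pq.L [] 64 (Pf.C 2 644))
 Pq.nil)))) Pq.nil)))) Pq.nil)))) Pq.nil))
theorem e1_o72 : AllRef e1_T e1_G95 (applyObl d_T 2 [77,74,76] [0,0,0] [(77,0x4000000000000000000),(74,0x20000000000000000000),(76,0x10000000000000000000)]) :=
  chkPq_sound e1_o72c _ (by decide +kernel)
noncomputable def e1_o73c : Pq := (Pq.cons (Pq.L [0,1,2] 0 (Pf.W 62 0 [] [0,1,2,3] (Pf.cons (Pf.B 4 3 (Pf.C 4 0x808181) (Pf.C 4 0x400184)) Pf.nil)))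
 (Pq.cons (Pq.L [] 0 (Pf.W 62 0 [] [3] (Pf.cons (Pf.C 48 388) Pf.nil)))
 (Pq.cons (Pq.L [0,1,2] 0 (Pf.W 62 0 [] [0,1,2,3] (Pf.cons (Pf.B 4 3 (Pf.C 4 0x40c200) (Pf.C 0 0x200184)) Pf.nil)))
 Pq.nil)))
theorem e1_o73 : AllRef e1_T e1_G49 (List.map pat1 [77,74,81]) :=
  chkPq_sound e1_o73c _ (by decide +kernel)
noncomputable def e1_o74c : Pq := (Pq.cons (Pq.D 0 (Pq.cons (Pq.D 1 (Pq.cons (Pq.L [1,2] 1 (Pf.C 0 0x808083))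
 (Pq.cons (Pq.D 2 (Pq.cons (Pq.L [1,2] 2 (Pf.C 0 0xa08083))
 (Pq.cons (Pq.L [0,2] 3 (Pf.B 5 4 (Pf.C 4 0x410280) (Pf.C 0 0x610280)))
 (Pq.cons (Pq.D 3 (Pq.cons (Pq.L [1,2] 4 (Pf.C 0 0xc08083))
 (Pq.cons (Pq.L [0,2] 5 (Pf.B 6 4 (Pf.C 4 0x410300) (Pf.C 0 0x610300)))
 (Pq.cons (Pq.L [] 6 (Pf.C 3 98947))
 Pq.nil)))) Pq.nil)))) (Pq.cons (Pq.D 2 (Pq.cons (Pq.L [1,2] 2 (Pf.C 0 0xa08083))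
 (Pq.cons (Pq.D 3 (Pq.cons (Pq.L [1,2] 4 (Pf.C 0 0xc08083))
 (Pq.cons (Pq.L [0,2] 6 (Pf.B 6 5 (Pf.C 4 0x414300) (Pf.C 0 0x614300)))
 (Pq.cons (Pq.L [] 5 (Pf.C 3 98819))
 Pq.nil)))) (Pq.cons (Pq.L [] 3 (Pf.C 3 82435))
 Pq.nil)))) Pq.nil)))) (Pq.cons (Pq.D 1 (Pq.cons (Pq.D 2 (Pq.cons (Pq.L [1,2] 3 (Pf.B 5 4 (Pf.C 0 0x808085) (Pf.C 0 0x610281)))
 (Pq.cons (Pq.L [0,2] 2 (Pf.C 4 0x414180))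
 (Pq.cons (Pq.D 3 (Pq.cons (Pq.L [1,2] 5 (Pf.B 6 4 (Pf.C 0 0x808086) (Pf.C 0 0x610301)))
 (Pq.cons (Pq.L [0,2] 4 (Pf.C 4 0x418180))
 (Pq.cons (Pq.L [] 6 (Pf.C 3 98947))
 Pq.nil)))) Pq.nil)))) (Pq.cons (Pq.L [0,2] 1 (Pf.C 4 0x410180))
 (Pq.cons (Pq.D 2 (Pq.cons (Pq.D 3 (Pq.cons (Pq.L [1,2] 6 (Pf.B 6 5 (Pf.C 0 0xa08086) (Pf.C 0 0x614301)))
 (Pq.cons (Pq.L [0,2] 4 (Pf.C 4 0x418180))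
 (Pq.cons (Pq.L [] 5 (Pf.C 3 98819))
 Pq.nil)))) (Pq.cons (Pq.L [0,2] 2 (Pf.C 4 0x414180))
 (Pq.cons (Pq.L [] 3 (Pf.C 3 82435))
 Pq.nil)))) Pq.nil)))) (Pq.cons (Pq.D 1 (Pq.cons (Pq.D 2 (Pq.cons (Pq.L [1,2] 3 (Pf.B 5 4 (Pf.C 0 0x808085) (Pf.C 56 49669)))
 (Pq.cons (Pq.D 3 (Pq.cons (Pq.L [1,2] 5 (Pf.B 6 4 (Pf.C 0 0x808086) (Pf.C 56 49670)))
 (Pq.cons (Pq.L [0,2] 6 (Pf.B 6 5 (Pf.C 4 0x414300) (Pf.C 57 49798)))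
 (Pq.cons (Pq.L [] 4 (Pf.C 2 771))
 Pq.nil)))) (Pq.cons (Pq.L [] 2 (Pf.C 2 643))
 Pq.nil)))) (Pq.cons (Pq.D 2 (Pq.cons (Pq.D 3 (Pq.cons (Pq.L [1,2] 6 (Pf.B 6 5 (Pf.C 0 0xa08086) (Pf.C 56 49798)))
 (Pq.cons (Pq.L [0,2] 5 (Pf.B 6 4 (Pf.C 4 0x410300) (Pf.C 57 49670)))
 (Pq.cons (Pq.L [] 4 (Pf.C 2 771))
 Pq.nil)))) (Pq.cons (Pq.L [0,2] 3 (Pf.B 5 4 (Pf.C 4 0x410280) (Pf.C 57 49669)))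
 (Pq.cons (Pq.L [] 2 (Pf.C 2 643))
 Pq.nil)))) (Pq.cons (Pq.L [] 1 (Pf.C 2 515))
 Pq.nil)))) Pq.nil)))) Pq.nil)
theorem e1_o74 : AllRef e1_T e1_G96 (applyObl TD2 1 [79,80,76] [0,0,0] [(79,0x80000000000000000000),(80,0x100000000000000000000),(76,0x10000000000000000000)]) :=
  chkPq_sound e1_o74c _ (by decide +kernel)
noncomputable def e1_o75c : Pq := (Pq.cons (Pq.L [0,1,2] 0 (Pf.W 60 0 [] [0,1,2,3] (Pf.cons (Pf.B 4 3 (Pf.C 4 0x800181) (Pf.C 4 33156)) Pf.nil)))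
 (Pq.cons (Pq.L [0,1,2] 0 (Pf.W 60 0 [] [0,1,2,3] (Pf.cons (Pf.B 4 3 (Pf.C 4 49666) (Pf.C 0 0x208184)) Pf.nil)))
 (Pq.cons (Pq.L [] 0 (Pf.W 60 0 [] [3] (Pf.cons (Pf.C 45 388) Pf.nil)))
 (Pq.cons (Pq.L [] 0 (Pf.W 60 0 [] [3] (Pf.cons (Pf.C 46 388) Pf.nil)))
 Pq.nil))))
theorem e1_o75 : AllRef e1_T e1_G46 (List.map pat1 [77,79,80,74]) :=
  chkPq_sound e1_o75c _ (by decide +kernel)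
noncomputable def e1_o76c : Pq := (Pq.cons (Pq.D 0 (Pq.cons (Pq.D 1 (Pq.cons (Pq.L [0,2] 1 (Pf.C 4 65922))
 (Pq.cons (Pq.D 2 (Pq.cons (Pq.L [0,2] 2 (Pf.C 4 82306))
 (Pq.cons (Pq.L [0,1] 3 (Pf.B 5 4 (Pf.C 0 0x804005) (Pf.C 0 0x610280)))
 (Pq.cons (Pq.D 3 (Pq.cons (Pq.L [0,2] 4 (Pf.C 4 98690))
 (Pq.cons (Pq.L [0,1] 5 (Pf.B 6 4 (Pf.C 0 0x804006) (Pf.C 0 0x610300)))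
 (Pq.cons (Pq.L [] 6 (Pf.C 3 98947))
 Pq.nil)))) Pq.nil)))) (Pq.cons (Pq.D 2 (Pq.cons (Pq.L [0,2] 2 (Pf.C 4 82306))
 (Pq.cons (Pq.D 3 (Pq.cons (Pq.L [0,2] 4 (Pf.C 4 98690))
 (Pq.cons (Pq.L [0,1] 6 (Pf.B 6 5 (Pf.C 0 0xa04006) (Pf.C 0 0x614300)))
 (Pq.cons (Pq.L [] 5 (Pf.C 3 98819))
 Pq.nil)))) (Pq.cons (Pq.L [] 3 (Pf.C 3 82435))
 Pq.nil)))) Pq.nil)))) (Pq.cons (Pq.D 1 (Pq.cons (Pq.D 2 (Pq.cons (Pq.L [0,2] 3 (Pf.B 5 4 (Pf.C 4 66178) (Pf.C 0 0x610282)))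
 (Pq.cons (Pq.L [0,1] 2 (Pf.C 0 0xa04003))
 (Pq.cons (Pq.D 3 (Pq.cons (Pq.L [0,2] 5 (Pf.B 6 4 (Pf.C 4 66306) (Pf.C 0 0x610302)))
 (Pq.cons (Pq.L [0,1] 4 (Pf.C 0 0xc04003))
 (Pq.cons (Pq.L [] 6 (Pf.C 3 98947))
 Pq.nil)))) Pq.nil)))) (Pq.cons (Pq.L [0,1] 1 (Pf.C 0 0x804003))
 (Pq.cons (Pq.D 2 (Pq.cons (Pq.D 3 (Pq.cons (Pq.L [0,2] 6 (Pf.B 6 5 (Pf.C 4 82690) (Pf.C 0 0x614302)))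
 (Pq.cons (Pq.L [0,1] 4 (Pf.C 0 0xc04003))
 (Pq.cons (Pq.L [] 5 (Pf.C 3 98819))
 Pq.nil)))) (Pq.cons (Pq.L [0,1] 2 (Pf.C 0 0xa04003))
 (Pq.cons (Pq.L [] 3 (Pf.C 3 82435))
 Pq.nil)))) Pq.nil)))) (Pq.cons (Pq.D 1 (Pq.cons (Pq.D 2 (Pq.cons (Pq.L [0,2] 3 (Pf.B 5 4 (Pf.C 4 66178) (Pf.C 50 49669)))
 (Pq.cons (Pq.D 3 (Pq.cons (Pq.L [0,2] 5 (Pf.B 6 4 (Pf.C 4 66306) (Pf.C 50 49670)))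
 (Pq.cons (Pq.L [0,1] 6 (Pf.B 6 5 (Pf.C 0 0xa04006) (Pf.C 58 49798)))
 (Pq.cons (Pq.L [] 4 (Pf.C 2 771))
 Pq.nil)))) (Pq.cons (Pq.L [] 2 (Pf.C 2 643))
 Pq.nil)))) (Pq.cons (Pq.D 2 (Pq.cons (Pq.D 3 (Pq.cons (Pq.L [0,2] 6 (Pf.B 6 5 (Pf.C 4 82690) (Pf.C 50 49798)))
 (Pq.cons (Pq.L [0,1] 5 (Pf.B 6 4 (Pf.C 0 0x804006) (Pf.C 58 49670)))
 (Pq.cons (Pq.L [] 4 (Pf.C 2 771))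
 Pq.nil)))) (Pq.cons (Pq.L [0,1] 3 (Pf.B 5 4 (Pf.C 0 0x804005) (Pf.C 58 49669)))
 (Pq.cons (Pq.L [] 2 (Pf.C 2 643))
 Pq.nil)))) (Pq.cons (Pq.L [] 1 (Pf.C 2 515))
 Pq.nil)))) Pq.nil)))) Pq.nil)
theorem e1_o76 : AllRef e1_T e1_G97 (applyObl TD2 1 [78,81,76] [0,0,0] [(78,0x40000000000000000000),(81,0x200000000000000000000),(76,0x10000000000000000000)]) :=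
  chkPq_sound e1_o76c _ (by decide +kernel)

end Pool.Agent.Lib.MP_849b2e_co
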