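import Pool.Agent.Lib.MP_849b2e_co.AllR
import Pool.Agent.Lib.MP_849b2e_co.Te1
import Pool.Agent.Lib.MP_849b2e_co.Oe1_0
import Pool.Agent.Lib.MP_849b2e_co.Ld

set_option maxRecDepth 100000
set_option linter.all false
namespace Pool.Agent.Lib.MP_849b2e_co

theorem e1_n121  : Bd e1_T e1_G97 [78,81,76] :=
  r_apply lem_D2 [0,0,0] [(78,0x40000000000000000000),(81,0x200000000000000000000),(76,0x10000000000000000000)] (by decide +kernel) e1_o76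
theorem e1_n120  : Bd e1_T e1_G46 [78,77,79,80,74,81,76] :=
  r_kill [77,79,80,74] ⟨82,[],[],[]⟩ e1_G97 [78,81,76] (by decide +kernel) e1_o75 e1_n121
theorem e1_n119  : Bd e1_T e1_G96 [79,80,76] :=
  r_apply lem_D2 [0,0,0] [(79,0x80000000000000000000),(80,0x100000000000000000000),(76,0x10000000000000000000)] (by decide +kernel) e1_o74
theorem e1_n118  : Bd e1_T e1_G49 [77,79,80,74,81,76] :=
  r_kill [77,74,81] ⟨82,[],[],[]⟩ e1_G96 [79,80,76] (by decide +kernel) e1_o73 e1_n119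
theorem e1_n117  : Bd e1_T e1_G95 [77,74,76] :=
  r_apply lem_d [0,0,0] [(77,0x4000000000000000000),(74,0x20000000000000000000),(76,0x10000000000000000000)] (by decide +kernel) e1_o72
theorem e1_n116  : Bd e1_T e1_G52 [77,79,74,81,76] :=
  r_kill [79,81] ⟨82,[],[],[]⟩ e1_G95 [77,74,76] (by decide +kernel) e1_o71 e1_n117
theorem e1_n115  : Bd e1_T e1_G94 [127,133] :=
  r_apply lem_D2 [0,0] [(127,0x80000000000000000000000000000000),(133,0x2000000000000000000000000000000000)] (by decide +kernel) e1_o70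
theorem e1_n114  : Bd e1_T e1_G93 [127,141,142,133,143] :=
  r_kill [141,142,143] ⟨144,[],[],[]⟩ e1_G94 [127,133] (by decide +kernel) e1_o69 e1_n115
theorem e1_n113  : Bd e1_T e1_G92 [127,128,129,133,134] :=
  r_hit [128,129,134] e1_h113 ⟨141,[],[92,93,94],[]⟩ e1_G93 [127,141,142,133,143] (by decide +kernel) e1_o68 e1_n114
theorem e1_n112  : Bd e1_T e1_G92 [127,135,139,129,137,134] :=
  r_act [] [127,128,129,133,134] (by decide +kernel) e1_n113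
theorem e1_n111  : Bd e1_T e1_G91 [127,135,139,140,129,130,131,137,138,134] :=
  r_close false 1 [28,42,43,44,49,51,29,45,30,46,31,47,48,50] [127,135,139,140,129,130,131,137,138,134] [0,0,0,0,0,1,2,3,3,3] [3] [0] 663 ⟨141,[],[],[]⟩ e1_G92 [127,135,139,129,137,134] (by decide +kernel) e1_o67 e1_n112
theorem e1_n110  : Bd e1_T e1_G91 [127,135,136,129,130,131,137,138,134] :=
  r_act [51] [127,135,139,140,129,130,131,137,138,134] (by decide +kernel) e1_n111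
theorem e1_n109  : Bd e1_T e1_G90 [127,135,136,129,130,131,137,138,134] :=
  r_def 136 0 [137] [] ⟨139,[52],[90,0,91],[]⟩ e1_G91 [127,135,136,129,130,131,137,138,134] (by decide +kernel) e1_n110
theorem e1_n108  : Bd e1_T e1_G90 [127,128,129,130,131,133,134] :=
  r_act [49,50] [127,135,136,129,130,131,137,138,134] (by decide +kernel) e1_n109
theorem e1_n107  : Bd e1_T e1_G89 [127,128,129,130,131,133,134] :=
  r_def 133 0 [127] [] ⟨137,[51],[88,0,89],[]⟩ e1_G90 [127,128,129,130,131,133,134] (by decide +kernel) e1_n108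
theorem e1_n106  : Bd e1_T e1_G88 [127,128,129,130,131,133,134] :=
  r_def 128 0 [134] [] ⟨135,[50],[86,0,87],[]⟩ e1_G89 [127,128,129,130,131,133,134] (by decide +kernel) e1_n107
theorem e1_n105  : Bd e1_T e1_G87 [126,127,128,129,130,131,133,134] :=
  r_close false 1 [28,42,43,44,29,45,30,46,31,47,48] [126,127,128,129,130,131,133,134] [0,0,0,0,1,2,3,3] [3] [0] 254 ⟨135,[],[],[]⟩ e1_G88 [127,128,129,130,131,133,134] (by decide +kernel) e1_o66 e1_n106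
theorem e1_n104  : Bd e1_T e1_G86 [126,127,128,129,130,131,132,133,134] :=
  r_kill [132] ⟨135,[],[],[]⟩ e1_G87 [126,127,128,129,130,131,133,134] (by decide +kernel) e1_o65 e1_n105
theorem e1_n103  : Bd e1_T e1_G86 [98,99,101,103,104,105] :=
  r_act [42,43,44,45,46,47,48] [126,127,128,129,130,131,132,133,134] (by decide +kernel) e1_n104
theorem e1_n102  : Bd e1_T e1_G85 [98,99,101,103,104,105] :=
  r_psplit 105 [] (PT.br 3 PT.kid PT.kid) ⟨133,[49],[],[]⟩ e1_G86 [98,99,101,103,104,105] (by decide +kernel) e1_o64 e1_n103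
theorem e1_n101  : Bd e1_T e1_G84 [98,99,101,103,104,105] :=
  r_psplit 104 [] (PT.br 3 PT.kid PT.ref) ⟨132,[48],[],[]⟩ e1_G85 [98,99,101,103,104,105] (by decide +kernel) e1_o63 e1_n102
theorem e1_n100  : Bd e1_T e1_G83 [98,99,101,103,104,105] :=
  r_psplit 103 [] (PT.br 3 PT.kid PT.ref) ⟨131,[47],[],[]⟩ e1_G84 [98,99,101,103,104,105] (by decide +kernel) e1_o62 e1_n101
theorem e1_n99  : Bd e1_T e1_G82 [98,99,101,103,104,105] :=
  r_psplit 101 [] (PT.br 3 PT.kid PT.ref) ⟨130,[46],[],[]⟩ e1_G83 [98,99,101,103,104,105] (by decide +kernel) e1_o61 e1_n100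
theorem e1_n98  : Bd e1_T e1_G81 [98,99,101,103,104,105] :=
  r_psplit 99 [] (PT.br 3 PT.kid PT.kid) ⟨128,[45],[],[]⟩ e1_G82 [98,99,101,103,104,105] (by decide +kernel) e1_o60 e1_n99
theorem e1_n97  : Bd e1_T e1_G80 [98,99,101,103,104,105] :=
  r_psplit 125 [] (PT.br 3 PT.kid PT.kid) ⟨126,[44],[],[]⟩ e1_G81 [98,99,101,103,104,105] (by decide +kernel) e1_o59 e1_n98
theorem e1_n96  : Bd e1_T e1_G62 [98,99,101,103,104,105] :=
  r_psplit 98 [3] PT.kid ⟨125,[43],[],[]⟩ e1_G80 [98,99,101,103,104,105] (by decide +kernel) e1_o58 e1_n97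
theorem e1_n95  : Bd e1_T e1_G79 [108,109] :=
  r_apply lem_D2 [0,0] [] (by decide +kernel) e1_o57
theorem e1_n94  : Bd e1_T e1_G78 [108,109,123,124] :=
  r_kill [123,124] ⟨125,[],[],[]⟩ e1_G79 [108,109] (by decide +kernel) e1_o56 e1_n95
theorem e1_n93  : Bd e1_T e1_G77 [108,109,113,114] :=
  r_hit [113,114] e1_h93 ⟨123,[],[84,85],[]⟩ e1_G78 [108,109,123,124] (by decide +kernel) e1_o55 e1_n94
theorem e1_n92  : Bd e1_T e1_G77 [115,121,109,117,119] :=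
  r_act [] [108,109,113,114] (by decide +kernel) e1_n93
theorem e1_n91  : Bd e1_T e1_G76 [115,121,122,109,117,119,120] :=
  r_close false 1 [28,32,38,41,29,33,30,34,31,35,36,39,37,40] [115,121,122,109,117,119,120] [0,0,0,0,3,3,3] [3] [3] 59 ⟨123,[],[],[]⟩ e1_G77 [115,121,109,117,119] (by decide +kernel) e1_o54 e1_n92
theorem e1_n90  : Bd e1_T e1_G76 [115,116,109,117,119,120] :=
  r_act [41] [115,121,122,109,117,119,120] (by decide +kernel) e1_n91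
theorem e1_n89  : Bd e1_T e1_G75 [115,116,109,117,119,120] :=
  r_def 116 0 [117] [] ⟨121,[42],[82,0,83],[]⟩ e1_G76 [115,116,109,117,119,120] (by decide +kernel) e1_n90
theorem e1_n88  : Bd e1_T e1_G74 [115,116,109,117,118,119,120] :=
  r_kill [118] ⟨121,[],[],[]⟩ e1_G75 [115,116,109,117,119,120] (by decide +kernel) e1_o53 e1_n89
theorem e1_n87  : Bd e1_T e1_G74 [115,116,109,113,114] :=
  r_act [39,40] [115,116,109,117,118,119,120] (by decide +kernel) e1_n88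
theorem e1_n86  : Bd e1_T e1_G73 [115,116,109,113,114] :=
  r_def 114 0 [115] [] ⟨119,[41],[80,0,81],[]⟩ e1_G74 [115,116,109,113,114] (by decide +kernel) e1_n87
theorem e1_n85  : Bd e1_T e1_G72 [115,116,109,113,114] :=
  r_def 113 0 [115] [] ⟨117,[40],[78,0,79],[]⟩ e1_G73 [115,116,109,113,114] (by decide +kernel) e1_n86
theorem e1_n84  : Bd e1_T e1_G72 [108,109,113,114] :=
  r_act [38] [115,116,109,113,114] (by decide +kernel) e1_n85
theorem e1_n83  : Bd e1_T e1_G71 [108,109,113,114] :=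
  r_def 108 0 [109] [] ⟨115,[39],[76,0,77],[]⟩ e1_G72 [108,109,113,114] (by decide +kernel) e1_n84
theorem e1_n82  : Bd e1_T e1_G70 [108,109,110,111,113,114] :=
  r_kill [110,111] ⟨115,[],[],[]⟩ e1_G71 [108,109,113,114] (by decide +kernel) e1_o52 e1_n83
theorem e1_n81  : Bd e1_T e1_G70 [99,101,103,104,105] :=
  r_act [32,33,34,35,36,37] [108,109,110,111,113,114] (by decide +kernel) e1_n82
theorem e1_n80  : Bd e1_T e1_G69 [99,101,103,104,105] :=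
  r_psplit 105 [] (PT.br 3 PT.ref PT.kid) ⟨114,[38],[],[]⟩ e1_G70 [99,101,103,104,105] (by decide +kernel) e1_o51 e1_n81
theorem e1_n79  : Bd e1_T e1_G68 [99,101,103,104,105] :=
  r_psplit 112 [] (PT.br 3 PT.ref PT.kid) ⟨113,[37],[],[]⟩ e1_G69 [99,101,103,104,105] (by decide +kernel) e1_o50 e1_n80
theorem e1_n78  : Bd e1_T e1_G67 [99,101,103,104,105] :=
  r_psplit 104 [3] PT.kid ⟨112,[36],[],[]⟩ e1_G68 [99,101,103,104,105] (by decide +kernel) e1_o49 e1_n79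
theorem e1_n77  : Bd e1_T e1_G66 [99,101,103,104,105] :=
  r_psplit 103 [] (PT.br 3 PT.kid PT.ref) ⟨111,[35],[],[]⟩ e1_G67 [99,101,103,104,105] (by decide +kernel) e1_o48 e1_n78
theorem e1_n76  : Bd e1_T e1_G65 [99,101,103,104,105] :=
  r_psplit 101 [] (PT.br 3 PT.kid PT.ref) ⟨110,[34],[],[]⟩ e1_G66 [99,101,103,104,105] (by decide +kernel) e1_o47 e1_n77
theorem e1_n75  : Bd e1_T e1_G64 [99,101,103,104,105] :=
  r_psplit 99 [] (PT.br 3 PT.kid PT.kid) ⟨108,[33],[],[]⟩ e1_G65 [99,101,103,104,105] (by decide +kernel) e1_o46 e1_n76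
theorem e1_n74  : Bd e1_T e1_G63 [99,101,103,105] :=
  r_apply lem_D2 [0,0,0,0] [(101,0x20000000000000000000000000),(103,0x80000000000000000000000000),(105,0x200000000000000000000000000)] (by decide +kernel) e1_o45
theorem e1_n73  : Bd e1_T e1_G61 [99,101,103,104,105] :=
  r_ext 104 2 [99] [] [] [] [0,1,2] ⟨106,[],[],[]⟩ e1_G63 [99,101,103,105] ⟨107,[],[],[]⟩ e1_G64 [99,101,103,104,105] (by decide +kernel) e1_o44 e1_n74 e1_n75
theorem e1_n72  : Bd e1_T e1_G60 [98,99,101,103,104,105] :=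
  r_ext 98 2 [98,99,105] [] [] [] [0,1,2] ⟨106,[],[],[]⟩ e1_G61 [99,101,103,104,105] ⟨106,[],[0,75],[]⟩ e1_G62 [98,99,101,103,104,105] (by decide +kernel) e1_o43 e1_n73 e1_n96
theorem e1_n71  : Bd e1_T e1_G59 [98,99,100,101,102,103,104,105] :=
  r_kill [100,102] ⟨106,[],[],[]⟩ e1_G60 [98,99,101,103,104,105] (by decide +kernel) e1_o42 e1_n72
theorem e1_n70  : Bd e1_T e1_G59 [86,89,92,95] :=
  r_act [28,29,30,31] [98,99,100,101,102,103,104,105] (by decide +kernel) e1_n71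
theorem e1_n69  : Bd e1_T e1_G58 [86,89,92,95] :=
  r_def 95 2 [86,89,92] [] ⟨104,[32],[73,0,0,0,74],[]⟩ e1_G59 [86,89,92,95] (by decide +kernel) e1_n70
theorem e1_n68  : Bd e1_T e1_G57 [86,89,92,95] :=
  r_def 92 2 [95] [] ⟨102,[31],[72],[]⟩ e1_G58 [86,89,92,95] (by decide +kernel) e1_n69
theorem e1_n67  : Bd e1_T e1_G56 [86,89,92,95] :=
  r_def 89 2 [95] [] ⟨100,[30],[71],[]⟩ e1_G57 [86,89,92,95] (by decide +kernel) e1_n68
theorem e1_n66  : Bd e1_T e1_G55 [86,89,92,95] :=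
  r_def 86 2 [86,95] [] ⟨98,[29],[69,0,0,0,70],[]⟩ e1_G56 [86,89,92,95] (by decide +kernel) e1_n67
theorem e1_n65  : Bd e1_T e1_G54 [82,83,84,85] :=
  r_block [0,2,4,8] [9,8,8,7] [9,8,8,7] ⟨86,[28],[67,0,0,0,0,0,0,0,0,0,0,0,0,0,0,0,68],[2]⟩ e1_G55 [86,89,92,95] (by decide +kernel) e1_o41 e1_n66
theorem e1_n64  : Bd e1_T e1_G53 [77,79,81,76] :=
  r_twin 14 [9,8,8,7] ⟨82,[],[66],[]⟩ e1_G54 [82,83,84,85] (by decide +kernel) e1_o40 e1_n65
theorem e1_n63  : Bd e1_T e1_G51 [77,79,74,81,76] :=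
  r_kill [74] ⟨82,[],[],[]⟩ e1_G53 [77,79,81,76] (by decide +kernel) e1_o39 e1_n64
theorem e1_n62  : Bd e1_T e1_G50 [77,79,74,81,76] :=
  r_ex 74 0 ⟨82,[],[64],[]⟩ e1_G51 [77,79,74,81,76] ⟨82,[],[65],[]⟩ e1_G52 [77,79,74,81,76] (by decide +kernel) e1_n63 e1_n116
theorem e1_n61  : Bd e1_T e1_G48 [77,79,80,74,81,76] :=
  r_kill [80] ⟨82,[],[],[]⟩ e1_G50 [77,79,74,81,76] (by decide +kernel) e1_o38 e1_n62
theorem e1_n60  : Bd e1_T e1_G47 [77,79,80,74,81,76] :=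
  r_ex 80 0 ⟨82,[],[62],[]⟩ e1_G48 [77,79,80,74,81,76] ⟨82,[],[63],[]⟩ e1_G49 [77,79,80,74,81,76] (by decide +kernel) e1_n61 e1_n118
theorem e1_n59  : Bd e1_T e1_G45 [78,77,79,80,74,81,76] :=
  r_kill [78] ⟨82,[],[],[]⟩ e1_G47 [77,79,80,74,81,76] (by decide +kernel) e1_o37 e1_n60
theorem e1_n58  : Bd e1_T e1_G44 [78,77,79,80,74,81,76] :=
  r_ex 78 0 ⟨82,[],[60],[]⟩ e1_G45 [78,77,79,80,74,81,76] ⟨82,[],[61],[]⟩ e1_G46 [78,77,79,80,74,81,76] (by decide +kernel) e1_n59 e1_n120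
theorem e1_n57  : Bd e1_T e1_G43 [71,66,72,73,74,75,2] :=
  r_hit [2,66,71,72,73,75] e1_h57 ⟨76,[],[51,52,53,54,55,56,57,58,59],[]⟩ e1_G44 [78,77,79,80,74,81,76] (by decide +kernel) e1_o36 e1_n58
theorem e1_n56  : Bd e1_T e1_G42 [65,66,67,68,69,70,2] :=
  r_hit [65,67,68,69,70] e1_h56 ⟨71,[],[46,47,48,49,50],[]⟩ e1_G43 [71,66,72,73,74,75,2] (by decide +kernel) e1_o35 e1_n57
theorem e1_n55  : Bd e1_T e1_G42 [1,2] :=
  r_act [25,26] [65,66,67,68,69,70,2] (by decide +kernel) e1_n56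
theorem e1_n54  : Bd e1_T e1_G41 [1,2] :=
  r_psplit 64 [] (PT.br 0 (PT.br 1 (PT.br 2 PT.ref PT.kid) (PT.br 2 PT.kid PT.kid)) (PT.br 1 (PT.br 2 PT.kid PT.kid) (PT.br 2 PT.kid PT.ref))) ⟨65,[27],[],[]⟩ e1_G42 [1,2] (by decide +kernel) e1_o34 e1_n55
theorem e1_n53  : Bd e1_T e1_G1 [1,2] :=
  r_psplit 1 [0,1,2] PT.kid ⟨64,[26],[],[]⟩ e1_G41 [1,2] (by decide +kernel) e1_o33 e1_n54
theorem e1_n52  : Bd e1_T e1_G40 [35,36,37,41] :=
  r_apply lem_d [0,0,0,0] [(35,0x2800000000),(36,0x1000000000),(37,0x800000000),(41,0x20000000000)] (by decide +kernel) (allRef_split 1 (allRef_expand 0 (allRef_split 1 (allRef_expand 1 (allRef_split 1 e1_o25 e1_o26)) (allRef_split 1 e1_o27 (allRef_split 1 (allRef_expand 1 (allRef_split 1 e1_o28 e1_o29)) e1_o30)))) (allRef_expand 0 (allRef_split 2 e1_o31 e1_o32)))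
theorem e1_n51  : Bd e1_T e1_G39 [35,36,37,61,62,41,63] :=
  r_kill [61,62,63] ⟨64,[],[],[]⟩ e1_G40 [35,36,37,41] (by decide +kernel) e1_o24 e1_n52
theorem e1_n50  : Bd e1_T e1_G38 [35,36,37,38,40,41,42] :=
  r_hit [38,40,42] e1_h50 ⟨61,[],[43,44,45],[]⟩ e1_G39 [35,36,37,61,62,41,63] (by decide +kernel) e1_o23 e1_n51
theorem e1_n49  : Bd e1_T e1_G38 [43,49,53,36,45,51,55,38,40,47,57,59,42] :=
  r_act [] [35,36,37,38,40,41,42] (by decide +kernel) e1_n50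
theorem e1_n48  : Bd e1_T e1_G37 [43,49,53,54,36,45,51,55,56,38,40,47,57,59,60,42] :=
  r_close false 0 [1,11,12,16,19,21,13,17,20,22,2,14,15,18,23,24] [43,49,53,54,36,45,51,55,56,38,40,47,57,59,60,42] [0,0,0,0,0,0,0,0,0,0,1,1,1,1,1,1] [0] [0] 48887 ⟨61,[],[],[]⟩ e1_G38 [43,49,53,36,45,51,55,38,40,47,57,59,42] (by decide +kernel) e1_o22 e1_n49
theorem e1_n47  : Bd e1_T e1_G37 [43,49,53,54,36,45,51,55,56,38,40,47,57,58,42] :=
  r_act [24] [43,49,53,54,36,45,51,55,56,38,40,47,57,59,60,42] (by decide +kernel) e1_n48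
theorem e1_n46  : Bd e1_T e1_G36 [43,49,53,54,36,45,51,55,56,38,40,47,57,58,42] :=
  r_def 58 0 [53,55] [] ⟨59,[25],[41,0,42],[]⟩ e1_G37 [43,49,53,54,36,45,51,55,56,38,40,47,57,58,42] (by decide +kernel) e1_n47
theorem e1_n45  : Bd e1_T e1_G36 [43,49,50,36,45,51,52,38,40,47,48,42] :=
  r_act [21,22,23] [43,49,53,54,36,45,51,55,56,38,40,47,57,58,42] (by decide +kernel) e1_n46
theorem e1_n44  : Bd e1_T e1_G35 [43,49,50,36,45,51,52,38,40,47,48,42] :=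
  r_def 48 0 [49,51] [] ⟨57,[24],[39,0,40],[]⟩ e1_G36 [43,49,50,36,45,51,52,38,40,47,48,42] (by decide +kernel) e1_n45
theorem e1_n43  : Bd e1_T e1_G34 [43,49,50,36,45,51,52,38,40,47,48,42] :=
  r_def 52 0 [49,51] [] ⟨55,[23],[37,0,38],[]⟩ e1_G35 [43,49,50,36,45,51,52,38,40,47,48,42] (by decide +kernel) e1_n44
theorem e1_n42  : Bd e1_T e1_G33 [43,49,50,36,45,51,52,38,40,47,48,42] :=
  r_def 50 0 [49] [] ⟨53,[22],[35,0,36],[]⟩ e1_G34 [43,49,50,36,45,51,52,38,40,47,48,42] (by decide +kernel) e1_n43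
theorem e1_n41  : Bd e1_T e1_G33 [43,44,36,45,46,38,40,47,48,42] :=
  r_act [19,20] [43,49,50,36,45,51,52,38,40,47,48,42] (by decide +kernel) e1_n42
theorem e1_n40  : Bd e1_T e1_G32 [43,44,36,45,46,38,40,47,48,42] :=
  r_def 46 0 [43,45,47] [] ⟨51,[21],[33,0,34],[]⟩ e1_G33 [43,44,36,45,46,38,40,47,48,42] (by decide +kernel) e1_n41
theorem e1_n39  : Bd e1_T e1_G31 [43,44,36,45,46,38,40,47,48,42] :=
  r_def 44 0 [43,47] [] ⟨49,[20],[31,0,32],[]⟩ e1_G32 [43,44,36,45,46,38,40,47,48,42] (by decide +kernel) e1_n40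
theorem e1_n38  : Bd e1_T e1_G31 [35,36,37,38,40,41,42] :=
  r_act [16,17,18] [43,44,36,45,46,38,40,47,48,42] (by decide +kernel) e1_n39
theorem e1_n37  : Bd e1_T e1_G30 [35,36,37,38,40,41,42] :=
  r_def 41 0 [36] [] ⟨47,[19],[29,0,30],[]⟩ e1_G31 [35,36,37,38,40,41,42] (by decide +kernel) e1_n38
theorem e1_n36  : Bd e1_T e1_G29 [35,36,37,38,40,41,42] :=
  r_def 37 0 [40,42] [] ⟨45,[18],[27,0,28],[]⟩ e1_G30 [35,36,37,38,40,41,42] (by decide +kernel) e1_n37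
theorem e1_n35  : Bd e1_T e1_G28 [35,36,37,38,40,41,42] :=
  r_def 35 0 [40,42] [] ⟨43,[17],[25,0,26],[]⟩ e1_G29 [35,36,37,38,40,41,42] (by decide +kernel) e1_n36
theorem e1_n34  : Bd e1_T e1_G27 [35,36,37,38,39,40,41,42] :=
  r_close false 0 [1,11,12,13,2,14,15] [35,36,37,38,39,40,41,42] [0,0,0,0,1,1,1,1] [0] [0] 239 ⟨43,[],[],[]⟩ e1_G28 [35,36,37,38,40,41,42] (by decide +kernel) (allRef_split 3 e1_o20 e1_o21) e1_n35
theorem e1_n33  : Bd e1_T e1_G27 [13,14,15,16] :=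
  r_act [11,12,13,14,15] [35,36,37,38,39,40,41,42] (by decide +kernel) e1_n34
theorem e1_n32  : Bd e1_T e1_G26 [13,14,15,16] :=
  r_psplit 16 [] (PT.br 0 PT.kid PT.kid) ⟨41,[16],[],[]⟩ e1_G27 [13,14,15,16] (by decide +kernel) e1_o19 e1_n33
theorem e1_n31  : Bd e1_T e1_G25 [13,14,15,16] :=
  r_psplit 15 [] (PT.br 0 PT.kid PT.kid) ⟨39,[15],[],[]⟩ e1_G26 [13,14,15,16] (by decide +kernel) e1_o18 e1_n32
theorem e1_n30  : Bd e1_T e1_G24 [13,14,15,16] :=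
  r_psplit 14 [] (PT.br 0 PT.kid PT.kid) ⟨37,[14],[],[]⟩ e1_G25 [13,14,15,16] (by decide +kernel) e1_o17 e1_n31
theorem e1_n29  : Bd e1_T e1_G23 [13,14,15,16] :=
  r_psplit 34 [] (PT.br 0 PT.kid PT.kid) ⟨35,[13],[],[]⟩ e1_G24 [13,14,15,16] (by decide +kernel) e1_o16 e1_n30
theorem e1_n28  : Bd e1_T e1_G8 [13,14,15,16] :=
  r_psplit 13 [0] PT.kid ⟨34,[12],[],[]⟩ e1_G23 [13,14,15,16] (by decide +kernel) e1_o15 e1_n29
theorem e1_n27  : Bd e1_T e1_G22 [19,20] :=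
  r_apply lem_D2 [0,0] [] (by decide +kernel) e1_o14
theorem e1_n26  : Bd e1_T e1_G21 [19,20,32,33] :=
  r_kill [32,33] ⟨34,[],[],[]⟩ e1_G22 [19,20] (by decide +kernel) e1_o13 e1_n27
theorem e1_n25  : Bd e1_T e1_G20 [19,20,22,23] :=
  r_hit [22,23] e1_h25 ⟨32,[],[23,24],[]⟩ e1_G21 [19,20,32,33] (by decide +kernel) e1_o12 e1_n26
theorem e1_n24  : Bd e1_T e1_G20 [24,30,20,26,28] :=
  r_act [] [19,20,22,23] (by decide +kernel) e1_n25
theorem e1_n23  : Bd e1_T e1_G19 [24,30,31,20,26,28,29] :=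
  r_close false 0 [1,3,7,10,2,4,5,8,6,9] [24,30,31,20,26,28,29] [0,0,0,0,1,1,1] [0] [1] 59 ⟨32,[],[],[]⟩ e1_G20 [24,30,20,26,28] (by decide +kernel) e1_o11 e1_n24
theorem e1_n22  : Bd e1_T e1_G19 [24,25,20,26,28,29] :=
  r_act [10] [24,30,31,20,26,28,29] (by decide +kernel) e1_n23
theorem e1_n21  : Bd e1_T e1_G18 [24,25,20,26,28,29] :=
  r_def 25 0 [26] [] ⟨30,[11],[21,0,22],[]⟩ e1_G19 [24,25,20,26,28,29] (by decide +kernel) e1_n22
theorem e1_n20  : Bd e1_T e1_G17 [24,25,20,26,27,28,29] :=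
  r_kill [27] ⟨30,[],[],[]⟩ e1_G18 [24,25,20,26,28,29] (by decide +kernel) e1_o10 e1_n21
theorem e1_n19  : Bd e1_T e1_G17 [24,25,20,22,23] :=
  r_act [8,9] [24,25,20,26,27,28,29] (by decide +kernel) e1_n20
theorem e1_n18  : Bd e1_T e1_G16 [24,25,20,22,23] :=
  r_def 23 0 [24] [] ⟨28,[10],[19,0,20],[]⟩ e1_G17 [24,25,20,22,23] (by decide +kernel) e1_n19
theorem e1_n17  : Bd e1_T e1_G15 [24,25,20,22,23] :=
  r_def 22 0 [24] [] ⟨26,[9],[17,0,18],[]⟩ e1_G16 [24,25,20,22,23] (by decide +kernel) e1_n18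
theorem e1_n16  : Bd e1_T e1_G15 [19,20,22,23] :=
  r_act [7] [24,25,20,22,23] (by decide +kernel) e1_n17
theorem e1_n15  : Bd e1_T e1_G14 [19,20,22,23] :=
  r_def 19 0 [20] [] ⟨24,[8],[15,0,16],[]⟩ e1_G15 [19,20,22,23] (by decide +kernel) e1_n16
theorem e1_n14  : Bd e1_T e1_G14 [14,15,16] :=
  r_act [3,4,5,6] [19,20,22,23] (by decide +kernel) e1_n15
theorem e1_n13  : Bd e1_T e1_G13 [14,15,16] :=
  r_psplit 16 [] (PT.br 0 PT.ref PT.kid) ⟨23,[7],[],[]⟩ e1_G14 [14,15,16] (by decide +kernel) e1_o9 e1_n14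
theorem e1_n12  : Bd e1_T e1_G12 [14,15,16] :=
  r_psplit 21 [] (PT.br 0 PT.ref PT.kid) ⟨22,[6],[],[]⟩ e1_G13 [14,15,16] (by decide +kernel) e1_o8 e1_n13
theorem e1_n11  : Bd e1_T e1_G11 [14,15,16] :=
  r_psplit 15 [0] PT.kid ⟨21,[5],[],[]⟩ e1_G12 [14,15,16] (by decide +kernel) e1_o7 e1_n12
theorem e1_n10  : Bd e1_T e1_G10 [14,15,16] :=
  r_psplit 14 [] (PT.br 0 PT.kid PT.kid) ⟨19,[4],[],[]⟩ e1_G11 [14,15,16] (by decide +kernel) e1_o6 e1_n11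
theorem e1_n9  : Bd e1_T e1_G9 [14,16] :=
  r_apply lem_D2 [0,0] [(16,65536)] (by decide +kernel) e1_o5
theorem e1_n8  : Bd e1_T e1_G7 [14,15,16] :=
  r_ext 15 2 [14] [] [] [] [] ⟨17,[],[],[]⟩ e1_G9 [14,16] ⟨18,[],[],[]⟩ e1_G10 [14,15,16] (by decide +kernel) e1_o4 e1_n9 e1_n10
theorem e1_n7  : Bd e1_T e1_G6 [13,14,15,16] :=
  r_ext 13 2 [13,14,15,16] [] [] [] [] ⟨17,[],[],[]⟩ e1_G7 [14,15,16] ⟨17,[],[0,14],[]⟩ e1_G8 [13,14,15,16] (by decide +kernel) e1_o3 e1_n8 e1_n28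
theorem e1_n6  : Bd e1_T e1_G6 [7,10] :=
  r_act [1,2] [13,14,15,16] (by decide +kernel) e1_n7
theorem e1_n5  : Bd e1_T e1_G5 [7,10] :=
  r_def 10 2 [7] [] ⟨15,[3],[12,0,0,0,13],[]⟩ e1_G6 [7,10] (by decide +kernel) e1_n6
theorem e1_n4  : Bd e1_T e1_G4 [7,10] :=
  r_def 7 2 [7,10] [] ⟨13,[2],[10,0,0,0,11],[]⟩ e1_G5 [7,10] (by decide +kernel) e1_n5
theorem e1_n3  : Bd e1_T e1_G3 [5,6] :=
  r_block [0,2] [3,1] [3,1] ⟨7,[1],[9],[1]⟩ e1_G4 [7,10] (by decide +kernel) e1_o2 e1_n4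
theorem e1_n2  : Bd e1_T e1_G2 [3,4] :=
  r_twin 2 [3,1] ⟨5,[],[8],[]⟩ e1_G3 [5,6] (by decide +kernel) e1_o1 e1_n3
theorem e1_n1  : Bd e1_T e1_G0 [1,2] :=
  r_hit [1,2] e1_h1 ⟨3,[],[7],[]⟩ e1_G2 [3,4] (by decide +kernel) e1_o0 e1_n2
theorem e1_n0  : Bd e1_T (pureCtx 2 5) (pureAct 2) :=
  show Bd _ _ [1,2] from r_case [1,1,1] [⟨0,1,true⟩,⟨1,2,true⟩,⟨0,2,false⟩] [] ⟨3,[],[6],[]⟩ e1_G0 [1,2] e1_G1 [1,2] (by decide +kernel) e1_n1 e1_n53
theorem lem_e1  : Lem e1_T 2 5 := ⟨by decide +kernel, e1_n0⟩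

end Pool.Agent.Lib.MP_849b2e_co
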