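import Pool.Agent.Lib.MP_849b2e_co.Fast
import Pool.Agent.Lib.MP_849b2e_co.Te4
import Pool.Agent.Lib.MP_849b2e_co.RApply
import Pool.Agent.Lib.MP_849b2e_co.Td

set_option maxRecDepth 100000
set_option linter.all false
namespace Pool.Agent.Lib.MP_849b2e_co

noncomputable def e4_o0c : Pq := (Pq.cons (Pq.L [] 2 (Pf.C 2 256))
 (Pq.cons (Pq.L [] 2 (Pf.C 3 256))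
 (Pq.cons (Pq.L [] 2 (Pf.C 4 256))
 Pq.nil)))
theorem e4_o0 : AllRef e4_T (pureCtx 3 9) (twinObl [1,2,3] 0 [6,5,3]) :=
  chkPq_sound e4_o0c _ (by decide +kernel)
noncomputable def e4_o1c : Pq := (Pq.cons (Pq.L [] 1 (Pf.C 2 128))
 (Pq.cons (Pq.L [] 1 (Pf.C 3 128))
 (Pq.cons (Pq.L [] 1 (Pf.C 4 128))
 (Pq.cons (Pq.L [] 1 (Pf.C 2 128))
 (Pq.cons (Pq.L [] 1 (Pf.C 3 128))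
 (Pq.cons (Pq.L [] 1 (Pf.C 4 128))
 Pq.nil))))))
theorem e4_o1 : AllRef e4_T e4_G0 (blockObl [4,5,6] [2,4,1] [6,5,3] [6,5,3]) :=
  chkPq_sound e4_o1c _ (by decide +kernel)
noncomputable def e4_o2c : Pq := Pq.nil
theorem e4_o2 : AllRef e4_T e4_G1 (extObl 7 [] []) :=
  chkPq_sound e4_o2c _ (by decide +kernel)
noncomputable def e4_o3c : Pq := (Pq.cons (Pq.D 0 (Pq.cons (Pq.D 1 (Pq.cons (Pq.L [] 1 (Pf.C 3 128))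
 (Pq.cons (Pq.D 2 (Pq.cons (Pq.L [] 2 (Pf.C 3 256))
 (Pq.cons (Pq.L [] 4 (Pf.C 4 257))
 Pq.nil))) Pq.nil))) (Pq.cons (Pq.D 1 (Pq.cons (Pq.D 2 (Pq.cons (Pq.L [] 4 (Pf.C 3 257))
 (Pq.cons (Pq.L [] 2 (Pf.C 4 256))
 Pq.nil))) (Pq.cons (Pq.L [] 1 (Pf.C 4 128))
 Pq.nil))) Pq.nil))) (Pq.cons (Pq.L [] 0x136ef7 (Pf.C 1 0x1810418280))
 Pq.nil))
theorem e4_o3 : AllRef e4_T e4_G2 (applyObl d_T 2 [10,13] [0,0] []) :=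
  chkPq_sound e4_o3c _ (by decide +kernel)
noncomputable def e4_o4c : Pq := Pq.nil
theorem e4_o4 : AllRef e4_T e4_G3 (ptObl 7 PT.kid []) :=
  chkPq_sound e4_o4c _ (by decide +kernel)
noncomputable def e4_o5c : Pq := (Pq.cons (Pq.L [] 1 (Pf.C 2 257))
 (Pq.cons (Pq.L [] 1 (Pf.C 3 257))
 (Pq.cons (Pq.L [] 1 (Pf.C 4 257))
 Pq.nil)))
theorem e4_o5 : AllRef e4_T e4_G4 (winObl (e4_T.sc.get 0) false [17,10,13] [0,1,2] [6,5,3]) :=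
  chkPq_sound e4_o5c _ (by decide +kernel)
noncomputable def e4_o6c : Pq := (Pq.cons (Pq.L [] 63 (Pf.W 50 1 [] [2,3,4] (Pf.cons (Pf.B 5 4 (Pf.C 5 66177) (Pf.B 5 3 (Pf.B 5 2 (Pf.C 5 33411) (Pf.W 54 5 [] [2,3,4] (Pf.cons (Pf.B 6 4 (Pf.C 16 518) (Pf.B 6 2 (Pf.C 16 262) (Pf.C 0 0x814302))) (Pf.cons (Pf.B 6 3 (Pf.C 5 98947) (Pf.C 41 390)) Pf.nil)))) (Pf.B 5 2 (Pf.W 54 5 [] [1,3,4] (Pf.cons (Pf.B 6 4 (Pf.C 16 518) (Pf.B 6 3 (Pf.C 0 0x614206) (Pf.C 2 390))) (Pf.cons (Pf.B 6 1 (Pf.C 5 98945) (Pf.C 41 134)) Pf.nil))) (Pf.W 54 5 [] [1,3,4] (Pf.cons (Pf.B 6 4 (Pf.C 16 518) (Pf.B 6 3 (Pf.C 0 0x614206) (Pf.C 2 390))) (Pf.cons (Pf.B 6 1 (Pf.C 5 98945) (Pf.C 41 134)) Pf.nil)))))) (Pf.cons (Pf.B 5 4 (Pf.B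 5 2 (Pf.B 5 3 (Pf.C 7 0x20214203) (Pf.W 59 5 [] [1,2,3,4] (Pf.cons (Pf.B 6 4 (Pf.C 16 518) (Pf.B 6 3 (Pf.B 6 2 (Pf.C 16 262) (Pf.B 6 1 (Pf.W 48 6 [] [2,3,5] (Pf.cons (Pf.B 7 5 (Pf.C 5 82822) (Pf.C 27 647)) (Pf.cons (Pf.B 7 5 (Pf.B 7 3 (Pf.B 7 2 (Pf.C 7 0x20c1c283) (Pf.C 4 263)) (Pf.C 39 391)) (Pf.C 4 647)) Pf.nil))) (Pf.C 2 134))) (Pf.C 2 390))) (Pf.cons (Pf.B 6 3 (Pf.C 28 390) (Pf.B 6 1 (Pf.C 28 134) (Pf.C 0 0x614301))) Pf.nil)))) (Pf.C 4 261)) (Pf.C 4 517)) Pf.nil))))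
 (Pq.cons (Pq.L [] 32126 (Pf.W 50 1 [] [2,3,4,5,6] (Pf.cons (Pf.B 7 6 (Pf.C 5 99201) (Pf.B 7 4 (Pf.C 5 66433) (Pf.B 7 5 (Pf.B 7 3 (Pf.B 7 2 (Pf.W 54 7 [] [4,5,6] (Pf.cons (Pf.B 8 6 (Pf.C 16 776) (Pf.B 8 4 (Pf.C 16 520) (Pf.C 0 0xc1c404))) (Pf.cons (Pf.B 8 5 (Pf.C 5 0x20385) (Pf.C 41 648)) Pf.nil))) (Pf.W 54 7 [] [4,5,6] (Pf.cons (Pf.B 8 6 (Pf.C 16 776) (Pf.B 8 4 (Pf.C 16 520) (Pf.C 0 0xc1c404))) (Pf.cons (Pf.B 8 5 (Pf.C 5 0x20385) (Pf.C 41 648)) Pf.nil)))) (Pf.B 7 2 (Pf.W 54 7 [] [4,5,6] (Pf.cons (Pf.B 8 6 (Pf.C 16 776) (Pf.B 8 4 (Pf.C 16 520) (Pf.C 0 0xc1c404))) (Pf.cons (Pf.B 8 5 (Pf.C 5 0x20385) (Pf.C 41 648)) Pf.nil))) (Pf.C 0 0x80c382))) (Pf.C 0 0xc14384)))) (Pf.cons (Pf.B 7 6 (Pf.B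 7 4 (Pf.B 7 5 (Pf.C 7 0x60a10087) (Pf.B 7 2 (Pf.B 7 3 (Pf.W 59 7 [] [1,3,4,5] (Pf.cons (Pf.B 8 4 (Pf.C 16 520) (Pf.B 8 3 (Pf.B 8 1 (Pf.C 7 0x30820381) (Pf.C 2 136)) (Pf.C 2 392))) (Pf.cons (Pf.B 8 5 (Pf.C 28 648) (Pf.B 8 1 (Pf.C 28 136) (Pf.C 0 0xa1c401))) Pf.nil))) (Pf.W 59 7 [] [1,3,5,6] (Pf.cons (Pf.B 8 6 (Pf.C 16 776) (Pf.B 8 3 (Pf.B 8 1 (Pf.C 7 0x30e04308) (Pf.C 2 136)) (Pf.C 2 392))) (Pf.cons (Pf.B 8 5 (Pf.C 28 648) (Pf.B 8 3 (Pf.C 28 392) (Pf.C 0 0xa1c403))) Pf.nil)))) (Pf.C 4 263))) (Pf.C 4 519)) (Pf.C 4 775)) Pf.nil))))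
 (Pq.cons (Pq.L [] 31983 (Pf.W 50 1 [] [2,3,4,5,6] (Pf.cons (Pf.B 7 6 (Pf.B 7 5 (Pf.B 7 4 (Pf.C 5 66437) (Pf.B 7 2 (Pf.C 5 33669) (Pf.B 7 3 (Pf.W 54 7 [] [2,4,5] (Pf.cons (Pf.B 8 4 (Pf.C 16 520) (Pf.B 8 2 (Pf.C 16 264) (Pf.C 0 0x81c402))) (Pf.cons (Pf.B 8 5 (Pf.C 5 0x20385) (Pf.C 41 648)) Pf.nil))) (Pf.W 54 7 [] [3,4,5] (Pf.cons (Pf.B 8 4 (Pf.C 16 520) (Pf.B 8 3 (Pf.C 0 0x61c208) (Pf.C 2 392))) (Pf.cons (Pf.B 8 5 (Pf.C 5 0x20385) (Pf.C 41 648)) Pf.nil)))))) (Pf.B 7 4 (Pf.B 7 3 (Pf.B 7 2 (Pf.C 5 33667) (Pf.W 54 7 [] [1,2,3,4,5,6] (Pf.cons (Pf.B 8 6 (Pf.C 16 776) (Pf.B 8 5 (Pf.B 8 4 (Pf.C 16 520) (Pf.B 8 3 (Pf.B 8 2 (Pf.C 16 264) (Pf.B 8 1 (Pf.W 48 8 [] [1,2,3,7] (Pf.cons (Pf.B 9 7 (Pf.B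 9 3 (Pf.C 26 393) (Pf.B 9 1 (Pf.C 26 137) (Pf.C 6 0x31204407))) (Pf.C 3 905)) (Pf.cons (Pf.B 9 7 (Pf.C 38 905) (Pf.B 9 2 (Pf.C 0 0x420389) (Pf.C 4 265))) Pf.nil))) (Pf.C 2 136))) (Pf.C 2 392))) (Pf.C 2 648))) (Pf.cons (Pf.B 8 3 (Pf.C 5 0x20383) (Pf.C 41 392)) Pf.nil)))) (Pf.B 7 2 (Pf.W 54 7 [] [1,2,3,4,5,6] (Pf.cons (Pf.B 8 6 (Pf.C 16 776) (Pf.B 8 5 (Pf.B 8 4 (Pf.C 16 520) (Pf.B 8 3 (Pf.B 8 2 (Pf.C 16 264) (Pf.B 8 1 (Pf.W 50 3 [] [1,2,4,5,6,7,8] (Pf.cons (Pf.B 9 7 (Pf.B 9 2 (Pf.C 5 33923) (Pf.B 9 8 (Pf.B 9 1 (Pf.B 9 6 (Pf.B 9 5 (Pf.B 9 4 (Pf.C 5 66693) (Pf.W 54 9 [] [2,4,5] (Pf.cons (Pf.B 10 4 (Pf.C 16 522) (Pf.B 10 2 (Pf.C 16 266) (Pf.C 0 0x824502))) (Pf.cons (Pf.B 10 5 (Pf.C 5 0x28485)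 (Pf.C 41 650)) Pf.nil)))) (Pf.B 9 4 (Pf.W 54 9 [] [1,2,3,4,5,6,7,8] (Pf.cons (Pf.B 10 8 (Pf.B 10 6 (Pf.C 16 778) (Pf.B 10 5 (Pf.B 10 4 (Pf.C 16 522) (Pf.B 10 3 (Pf.B 10 7 (Pf.C 6 0x80e0c48a) (Pf.B 10 2 (Pf.C 16 266) (Pf.B 10 1 (Pf.W 48 10 [] [1,7,9] (Pf.cons (Pf.B 11 9 (Pf.B 11 7 (Pf.B 11 1 (Pf.C 26 139) (Pf.C 6 0x9141c08b)) (Pf.C 3 907)) (Pf.C 3 1163)) (Pf.cons (Pf.B 11 9 (Pf.C 38 1163) (Pf.B 11 7 (Pf.C 38 907) (Pf.C 0 0x1228587))) Pf.nil))) (Pf.C 2 138)))) (Pf.C 2 394))) (Pf.C 2 650))) (Pf.C 2 1034)) (Pf.cons (Pf.B 10 3 (Pf.C 5 0x28483) (Pf.C 41 394)) Pf.nil))) (Pf.W 54 9 [] [2,3,4] (Pf.cons (Pf.B 10 4 (Pf.C 16 522) (Pf.B 10 2 (Pf.C 16 266) (Pf.C 0 0x824502))) (Pf.cons (Pf.B 10 3 (Pf.C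 5 0x28483) (Pf.C 41 394)) Pf.nil))))) (Pf.B 9 5 (Pf.B 9 4 (Pf.C 5 66693) (Pf.W 54 9 [] [4,5,6] (Pf.cons (Pf.B 10 6 (Pf.C 16 778) (Pf.B 10 4 (Pf.C 16 522) (Pf.C 0 0xc24504))) (Pf.cons (Pf.B 10 5 (Pf.C 5 0x28485) (Pf.C 41 650)) Pf.nil)))) (Pf.B 9 4 (Pf.W 54 9 [] [3,5,6] (Pf.cons (Pf.B 10 6 (Pf.C 16 778) (Pf.B 10 5 (Pf.C 0 0xa2430a) (Pf.C 2 650))) (Pf.cons (Pf.B 10 3 (Pf.C 5 0x28483) (Pf.C 41 394)) Pf.nil))) (Pf.W 54 9 [] [3,5,6] (Pf.cons (Pf.B 10 6 (Pf.C 16 778) (Pf.B 10 5 (Pf.C 0 0xa2430a) (Pf.C 2 650))) (Pf.cons (Pf.B 10 3 (Pf.C 5 0x28483) (Pf.C 41 394)) Pf.nil)))))) (Pf.C 6 0x80e0c089)) (Pf.B 9 1 (Pf.W 48 8 [] [1,7,9] (Pf.cons (Pf.B 10 9 (Pf.B 10 7 (Pf.B 10 1 (Pf.C 26 138) (Pf.C 6 0x9101c08a))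 (Pf.C 3 906)) (Pf.C 3 1162)) (Pf.cons (Pf.B 10 9 (Pf.C 38 1162) (Pf.B 10 7 (Pf.C 38 906) (Pf.C 0 0x1220507))) Pf.nil))) (Pf.C 0 0x1008481)))) (Pf.C 3 905)) (Pf.cons (Pf.B 9 6 (Pf.B 9 4 (Pf.B 9 2 (Pf.B 9 8 (Pf.W 48 8 [] [2,3,9] (Pf.cons (Pf.B 10 9 (Pf.C 5 0x24508) (Pf.C 27 1162)) (Pf.cons (Pf.B 10 9 (Pf.B 10 3 (Pf.B 10 2 (Pf.C 7 0x21028483) (Pf.C 4 266)) (Pf.C 39 394)) (Pf.C 4 1162)) Pf.nil))) (Pf.B 9 7 (Pf.B 9 1 (Pf.C 5 0x24381) (Pf.B 9 5 (Pf.W 59 9 [] [1,2,3,4,5,6,7,8] (Pf.cons (Pf.B 10 8 (Pf.B 10 7 (Pf.C 5 0x2438a) (Pf.B 10 6 (Pf.C 16 778) (Pf.B 10 5 (Pf.B 10 4 (Pf.C 16 522) (Pf.B 10 3 (Pf.B 10 2 (Pf.C 16 266) (Pf.B 10 1 (Pf.W 48 10 [] [3,7,8,9] (Pf.cons (Pf.B 11 9 (Pf.C 5 0x2458a) (Pf.C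 27 1163)) (Pf.cons (Pf.B 11 9 (Pf.B 11 7 (Pf.C 38 907) (Pf.B 11 8 (Pf.B 11 3 (Pf.C 7 0x8120c50b) (Pf.C 39 395)) (Pf.C 0 0x141c588))) (Pf.C 4 1163)) Pf.nil))) (Pf.C 2 138))) (Pf.C 2 394))) (Pf.C 2 650)))) (Pf.C 2 1034)) (Pf.cons (Pf.B 10 3 (Pf.C 28 394) (Pf.B 10 1 (Pf.C 28 138) (Pf.C 0 0x624501))) Pf.nil))) (Pf.W 59 9 [] [2,3,5] (Pf.cons (Pf.B 10 5 (Pf.B 10 3 (Pf.B 10 2 (Pf.C 16 266) (Pf.C 7 0x5120c10a)) (Pf.C 2 394)) (Pf.C 2 650)) (Pf.cons (Pf.B 10 5 (Pf.C 28 650) (Pf.B 10 3 (Pf.C 28 394) (Pf.C 0 0xa24503))) Pf.nil))))) (Pf.C 0 0x101c483))) (Pf.C 4 265)) (Pf.C 4 521)) (Pf.C 4 777)) Pf.nil))) (Pf.C 2 136))) (Pf.C 2 392))) (Pf.C 2 648))) (Pf.cons (Pf.B 8 1 (Pf.C 5 0x20381) (Pf.C 41 136))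 Pf.nil))) (Pf.W 54 7 [] [1,2,3,4,5,6] (Pf.cons (Pf.B 8 6 (Pf.C 16 776) (Pf.B 8 5 (Pf.B 8 4 (Pf.C 16 520) (Pf.B 8 3 (Pf.B 8 2 (Pf.C 16 264) (Pf.B 8 1 (Pf.W 48 8 [] [1,2,3,4,5,6,7] (Pf.cons (Pf.B 9 3 (Pf.C 26 393) (Pf.W 50 3 [] [1,2,4,5,6,7,8,9] (Pf.cons (Pf.B 10 7 (Pf.B 10 2 (Pf.C 5 34051) (Pf.B 10 8 (Pf.B 10 1 (Pf.B 10 6 (Pf.B 10 5 (Pf.B 10 4 (Pf.C 5 66821) (Pf.W 54 10 [] [2,5,7,8] (Pf.cons (Pf.B 11 8 (Pf.B 11 5 (Pf.B 11 7 (Pf.C 6 0x80e1450b) (Pf.B 11 2 (Pf.C 16 267) (Pf.C 0 0x101c10b))) (Pf.C 2 651)) (Pf.C 2 1035)) (Pf.cons (Pf.B 11 5 (Pf.C 5 0x2c505) (Pf.C 41 651)) Pf.nil)))) (Pf.B 10 4 (Pf.W 54 10 [] [2,3,7,8] (Pf.cons (Pf.B 11 8 (Pf.B 11 3 (Pf.B 11 7 (Pf.C 6 0x80e0c50b) (Pf.B 11 2 (Pf.C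 16 267) (Pf.C 0 0x101c10b))) (Pf.C 2 395)) (Pf.C 2 1035)) (Pf.cons (Pf.B 11 3 (Pf.C 5 0x2c503) (Pf.C 41 395)) Pf.nil))) (Pf.W 54 10 [] [2,3,7,8] (Pf.cons (Pf.B 11 8 (Pf.B 11 3 (Pf.B 11 7 (Pf.C 6 0x80e0c50b) (Pf.B 11 2 (Pf.C 16 267) (Pf.C 0 0x101c10b))) (Pf.C 2 395)) (Pf.C 2 1035)) (Pf.cons (Pf.B 11 3 (Pf.C 5 0x2c503) (Pf.C 41 395)) Pf.nil))))) (Pf.B 10 5 (Pf.B 10 4 (Pf.C 5 66821) (Pf.W 54 10 [] [4,5,6] (Pf.cons (Pf.B 11 6 (Pf.C 16 779) (Pf.B 11 4 (Pf.C 16 523) (Pf.C 0 0xc28584))) (Pf.cons (Pf.B 11 5 (Pf.C 5 0x2c505) (Pf.C 41 651)) Pf.nil)))) (Pf.B 10 4 (Pf.W 54 10 [] [3,5,6] (Pf.cons (Pf.B 11 6 (Pf.C 16 779) (Pf.B 11 5 (Pf.C 0 0xa2830b) (Pf.C 2 651))) (Pf.cons (Pf.B 11 3 (Pf.C 5 0x2c503)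 (Pf.C 41 395)) Pf.nil))) (Pf.W 54 10 [] [3,5,6] (Pf.cons (Pf.B 11 6 (Pf.C 16 779) (Pf.B 11 5 (Pf.C 0 0xa2830b) (Pf.C 2 651))) (Pf.cons (Pf.B 11 3 (Pf.C 5 0x2c503) (Pf.C 41 395)) Pf.nil)))))) (Pf.C 6 0x80e0c08a)) (Pf.C 0 0xe0840a))) (Pf.C 3 906)) (Pf.cons (Pf.B 10 9 (Pf.B 10 8 (Pf.C 5 0x28488) (Pf.B 10 7 (Pf.B 10 6 (Pf.B 10 4 (Pf.B 10 2 (Pf.B 10 1 (Pf.C 5 0x28381) (Pf.B 10 5 (Pf.W 59 10 [] [1,2,3,7,8] (Pf.cons (Pf.B 11 8 (Pf.B 11 7 (Pf.C 5 0x2838b) (Pf.B 11 2 (Pf.C 16 267) (Pf.C 0 0x101c10b))) (Pf.C 2 1035)) (Pf.cons (Pf.B 11 3 (Pf.C 28 395) (Pf.B 11 1 (Pf.C 28 139) (Pf.C 0 0x628581))) Pf.nil))) (Pf.W 59 10 [] [2,3,5,7,8] (Pf.cons (Pf.B 11 8 (Pf.B 11 7 (Pf.C 5 0x2838b) (Pf.B 11 2 (Pf.C 16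 267) (Pf.C 0 0x101c10b))) (Pf.C 2 1035)) (Pf.cons (Pf.B 11 5 (Pf.C 28 651) (Pf.B 11 3 (Pf.C 28 395) (Pf.C 0 0xa28583))) Pf.nil))))) (Pf.C 4 266)) (Pf.C 4 522)) (Pf.C 4 778)) (Pf.C 0 0x101c503))) (Pf.C 27 1289)) Pf.nil)))) (Pf.cons (Pf.B 9 7 (Pf.C 38 905) (Pf.B 9 2 (Pf.C 0 0x420389) (Pf.C 4 265))) Pf.nil))) (Pf.C 2 136))) (Pf.C 2 392))) (Pf.C 2 648))) (Pf.cons (Pf.B 8 1 (Pf.C 5 0x20381) (Pf.C 41 136)) Pf.nil))))) (Pf.B 7 3 (Pf.B 7 2 (Pf.C 5 33667) (Pf.W 54 7 [] [2,3,4] (Pf.cons (Pf.B 8 4 (Pf.C 16 520) (Pf.B 8 2 (Pf.C 16 264) (Pf.C 0 0x81c402))) (Pf.cons (Pf.B 8 3 (Pf.C 5 0x20383) (Pf.C 41 392)) Pf.nil)))) (Pf.B 7 2 (Pf.W 54 7 [] [1,3,4] (Pf.cons (Pf.B 8 4 (Pf.C 16 520) (Pf.B 8 3 (Pf.C 0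 0x61c208) (Pf.C 2 392))) (Pf.cons (Pf.B 8 1 (Pf.C 5 0x20381) (Pf.C 41 136)) Pf.nil))) (Pf.W 54 7 [] [1,3,4] (Pf.cons (Pf.B 8 4 (Pf.C 16 520) (Pf.B 8 3 (Pf.C 0 0x61c208) (Pf.C 2 392))) (Pf.cons (Pf.B 8 1 (Pf.C 5 0x20381) (Pf.C 41 136)) Pf.nil))))))) (Pf.B 7 5 (Pf.B 7 4 (Pf.C 5 66437) (Pf.B 7 3 (Pf.B 7 2 (Pf.C 5 33667) (Pf.W 54 7 [] [4,5,6] (Pf.cons (Pf.B 8 6 (Pf.C 16 776) (Pf.B 8 4 (Pf.C 16 520) (Pf.C 0 0xc1c404))) (Pf.cons (Pf.B 8 5 (Pf.C 5 0x20385) (Pf.C 41 648)) Pf.nil)))) (Pf.C 0 0xc0c384))) (Pf.B 7 3 (Pf.B 7 2 (Pf.C 5 33667) (Pf.B 7 4 (Pf.W 54 7 [] [3,5,6] (Pf.cons (Pf.B 8 6 (Pf.C 16 776) (Pf.B 8 5 (Pf.C 0 0xa1c308) (Pf.C 2 648))) (Pf.cons (Pf.B 8 3 (Pf.C 5 0x20383) (Pf.C 41 392)) Pf.nil)))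 (Pf.W 54 7 [] [3,5,6] (Pf.cons (Pf.B 8 6 (Pf.C 16 776) (Pf.B 8 5 (Pf.C 0 0xa1c308) (Pf.C 2 648))) (Pf.cons (Pf.B 8 3 (Pf.C 5 0x20383) (Pf.C 41 392)) Pf.nil))))) (Pf.C 0 0xa18383)))) (Pf.cons (Pf.B 7 6 (Pf.B 7 4 (Pf.B 7 2 (Pf.B 7 5 (Pf.B 7 3 (Pf.W 50 3 [] [1,2,4,5,6,7] (Pf.cons (Pf.B 8 7 (Pf.C 5 0x1c403) (Pf.B 8 2 (Pf.C 5 33795) (Pf.B 8 1 (Pf.B 8 6 (Pf.B 8 5 (Pf.B 8 4 (Pf.C 5 66565) (Pf.W 54 8 [] [2,4,5] (Pf.cons (Pf.B 9 4 (Pf.C 16 521) (Pf.B 9 2 (Pf.C 16 265) (Pf.C 0 0x820482))) (Pf.cons (Pf.B 9 5 (Pf.C 5 0x24405) (Pf.C 41 649)) Pf.nil)))) (Pf.B 8 4 (Pf.W 54 8 [] [1,2,3,4,5,6,7] (Pf.cons (Pf.B 9 6 (Pf.C 16 777) (Pf.B 9 5 (Pf.B 9 4 (Pf.C 16 521) (Pf.B 9 3 (Pf.B 9 2 (Pf.C 16 265) (Pf.B 9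 7 (Pf.B 9 1 (Pf.W 48 9 [] [2,7,8] (Pf.cons (Pf.B 10 7 (Pf.C 5 0x1c509) (Pf.C 27 906)) (Pf.cons (Pf.B 10 8 (Pf.C 38 1034) (Pf.B 10 2 (Pf.C 0 0x42440a) (Pf.C 4 266))) Pf.nil))) (Pf.C 2 137)) (Pf.C 0 0x420487))) (Pf.C 2 393))) (Pf.C 2 649))) (Pf.cons (Pf.B 9 3 (Pf.C 5 0x24403) (Pf.C 41 393)) Pf.nil))) (Pf.W 54 8 [] [2,3,4] (Pf.cons (Pf.B 9 4 (Pf.C 16 521) (Pf.B 9 2 (Pf.C 16 265) (Pf.C 0 0x820482))) (Pf.cons (Pf.B 9 3 (Pf.C 5 0x24403) (Pf.C 41 393)) Pf.nil))))) (Pf.B 8 5 (Pf.B 8 4 (Pf.C 5 66565) (Pf.W 54 8 [] [4,5,6] (Pf.cons (Pf.B 9 6 (Pf.C 16 777) (Pf.B 9 4 (Pf.C 16 521) (Pf.C 0 0xc20484))) (Pf.cons (Pf.B 9 5 (Pf.C 5 0x24405) (Pf.C 41 649)) Pf.nil)))) (Pf.B 8 4 (Pf.W 54 8 [] [3,5,6] (Pf.cons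 (Pf.B 9 6 (Pf.C 16 777) (Pf.B 9 5 (Pf.C 0 0xa20309) (Pf.C 2 649))) (Pf.cons (Pf.B 9 3 (Pf.C 5 0x24403) (Pf.C 41 393)) Pf.nil))) (Pf.W 54 8 [] [3,5,6] (Pf.cons (Pf.B 9 6 (Pf.C 16 777) (Pf.B 9 5 (Pf.C 0 0xa20309) (Pf.C 2 649))) (Pf.cons (Pf.B 9 3 (Pf.C 5 0x24403) (Pf.C 41 393)) Pf.nil)))))) (Pf.C 0 0xe04402)))) (Pf.cons (Pf.B 8 7 (Pf.B 8 6 (Pf.B 8 4 (Pf.B 8 2 (Pf.B 8 1 (Pf.C 7 0x70208188) (Pf.B 8 5 (Pf.W 59 8 [] [1,2,3,4,5,6] (Pf.cons (Pf.B 9 6 (Pf.C 16 777) (Pf.B 9 5 (Pf.B 9 4 (Pf.C 16 521) (Pf.B 9 3 (Pf.B 9 2 (Pf.C 16 265) (Pf.B 9 1 (Pf.W 48 9 [] [2,3,8] (Pf.cons (Pf.B 10 8 (Pf.C 5 0x20509) (Pf.C 27 1034)) (Pf.cons (Pf.B 10 8 (Pf.B 10 3 (Pf.B 10 2 (Pf.C 7 0x21228403) (Pf.C 4 266)) (Pf.C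 39 394)) (Pf.C 4 1034)) Pf.nil))) (Pf.C 2 137))) (Pf.C 2 393))) (Pf.C 2 649))) (Pf.cons (Pf.B 9 3 (Pf.C 28 393) (Pf.B 9 1 (Pf.C 28 137) (Pf.C 0 0x620481))) Pf.nil))) (Pf.W 59 8 [] [2,3,5] (Pf.cons (Pf.B 9 5 (Pf.B 9 3 (Pf.B 9 2 (Pf.C 16 265) (Pf.C 7 0x5100c109)) (Pf.C 2 393)) (Pf.C 2 649)) (Pf.cons (Pf.B 9 5 (Pf.C 28 649) (Pf.B 9 3 (Pf.C 28 393) (Pf.C 0 0xa20483))) Pf.nil))))) (Pf.C 4 264)) (Pf.C 4 520)) (Pf.C 4 776)) (Pf.C 4 904)) Pf.nil))) (Pf.W 59 7 [] [1,2,3,4,5,6] (Pf.cons (Pf.B 8 6 (Pf.C 16 776) (Pf.B 8 5 (Pf.B 8 4 (Pf.C 16 520) (Pf.B 8 3 (Pf.B 8 2 (Pf.C 16 264) (Pf.B 8 1 (Pf.W 48 8 [] [2,3,7] (Pf.cons (Pf.B 9 7 (Pf.C 5 0x1c488) (Pf.C 27 905)) (Pf.cons (Pf.B 9 7 (Pf.B 9 3 (Pf.B 9 2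 (Pf.C 7 0x21024383) (Pf.C 4 265)) (Pf.C 39 393)) (Pf.C 4 905)) Pf.nil))) (Pf.C 2 136))) (Pf.C 2 392))) (Pf.C 2 648))) (Pf.cons (Pf.B 8 3 (Pf.C 28 392) (Pf.B 8 1 (Pf.C 28 136) (Pf.C 0 0x61c401))) Pf.nil)))) (Pf.B 7 3 (Pf.W 59 7 [] [1,3,4,5] (Pf.cons (Pf.B 8 5 (Pf.B 8 4 (Pf.C 16 520) (Pf.B 8 3 (Pf.C 7 0x30820385) (Pf.C 2 392))) (Pf.C 2 648)) (Pf.cons (Pf.B 8 5 (Pf.C 28 648) (Pf.B 8 1 (Pf.C 28 136) (Pf.C 0 0xa1c401))) Pf.nil))) (Pf.W 59 7 [] [2,3,5] (Pf.cons (Pf.B 8 5 (Pf.B 8 3 (Pf.B 8 2 (Pf.C 16 264) (Pf.C 7 0x50e0c108)) (Pf.C 2 392)) (Pf.C 2 648)) (Pf.cons (Pf.B 8 5 (Pf.C 28 648) (Pf.B 8 3 (Pf.C 28 392) (Pf.C 0 0xa1c403))) Pf.nil))))) (Pf.C 4 263)) (Pf.C 4 519)) (Pf.C 4 775)) Pf.nil))))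
 (Pq.cons (Pq.L [] 32735 (Pf.W 60 6 [] [1,2,3,4,5] (Pf.cons (Pf.B 7 5 (Pf.B 7 3 (Pf.B 7 1 (Pf.B 7 4 (Pf.B 7 2 (Pf.W 49 7 [] [4,5,6] (Pf.cons (Pf.B 8 6 (Pf.C 5 99335) (Pf.C 29 776)) (Pf.cons (Pf.B 8 6 (Pf.B 8 5 (Pf.B 8 4 (Pf.C 7 0x60a10388) (Pf.C 4 520)) (Pf.C 41 648)) (Pf.C 4 776)) Pf.nil))) (Pf.W 49 7 [] [4,5,6] (Pf.cons (Pf.B 8 6 (Pf.C 5 99335) (Pf.C 29 776)) (Pf.cons (Pf.B 8 6 (Pf.B 8 5 (Pf.B 8 4 (Pf.C 7 0x60a10388) (Pf.C 4 520)) (Pf.C 41 648)) (Pf.C 4 776)) Pf.nil)))) (Pf.B 7 2 (Pf.W 49 7 [] [3,5,6] (Pf.cons (Pf.B 8 6 (Pf.C 5 99335) (Pf.C 29 776)) (Pf.cons (Pf.B 8 6 (Pf.B 8 5 (Pf.B 8 3 (Pf.C 7 0x50c0c388) (Pf.C 41 392)) (Pf.C 41 648)) (Pf.C 4 776)) Pf.nil))) (Pf.W 49 7 [] [3,5,6] (Pf.cons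 (Pf.B 8 6 (Pf.C 5 99335) (Pf.C 29 776)) (Pf.cons (Pf.B 8 6 (Pf.B 8 5 (Pf.B 8 3 (Pf.C 7 0x50c0c388) (Pf.C 41 392)) (Pf.C 41 648)) (Pf.C 4 776)) Pf.nil))))) (Pf.C 2 135)) (Pf.C 2 391)) (Pf.C 2 647)) (Pf.cons (Pf.B 7 5 (Pf.B 7 4 (Pf.B 7 3 (Pf.B 7 2 (Pf.B 7 1 (Pf.W 54 7 [] [1,2,3,4,5,6] (Pf.cons (Pf.B 8 6 (Pf.C 16 776) (Pf.B 8 5 (Pf.B 8 4 (Pf.C 16 520) (Pf.B 8 3 (Pf.B 8 2 (Pf.C 16 264) (Pf.B 8 1 (Pf.W 48 8 [] [3,5,6,7] (Pf.cons (Pf.B 9 7 (Pf.B 9 5 (Pf.C 26 649) (Pf.B 9 3 (Pf.C 26 393) (Pf.C 6 0x5120c407))) (Pf.C 3 905)) (Pf.cons (Pf.B 9 7 (Pf.C 38 905) (Pf.B 9 6 (Pf.C 0 0xc20389) (Pf.C 4 777))) Pf.nil))) (Pf.C 2 136))) (Pf.C 2 392))) (Pf.C 2 648))) (Pf.cons (Pf.B 8 5 (Pf.C 5 0x20385) (Pf.C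 41 648)) Pf.nil))) (Pf.W 54 7 [] [1,5,6] (Pf.cons (Pf.B 8 6 (Pf.C 16 776) (Pf.B 8 1 (Pf.C 0 0x21c308) (Pf.C 2 136))) (Pf.cons (Pf.B 8 5 (Pf.C 5 0x20385) (Pf.C 41 648)) Pf.nil)))) (Pf.B 7 1 (Pf.W 54 7 [] [2,5,6] (Pf.cons (Pf.B 8 6 (Pf.C 16 776) (Pf.B 8 2 (Pf.C 16 264) (Pf.C 0 0xc1c402))) (Pf.cons (Pf.B 8 5 (Pf.C 5 0x20385) (Pf.C 41 648)) Pf.nil))) (Pf.C 0 0xc04382))) (Pf.B 7 2 (Pf.B 7 1 (Pf.W 54 7 [] [3,5,6] (Pf.cons (Pf.B 8 6 (Pf.C 16 776) (Pf.B 8 3 (Pf.C 0 0x61c308) (Pf.C 2 392))) (Pf.cons (Pf.B 8 5 (Pf.C 5 0x20385) (Pf.C 41 648)) Pf.nil))) (Pf.C 0 0x618381)) (Pf.C 0 0xc0c382))) (Pf.B 7 3 (Pf.B 7 1 (Pf.B 7 2 (Pf.W 54 7 [] [4,5,6] (Pf.cons (Pf.B 8 6 (Pf.C 16 776) (Pf.B 8 4 (Pf.C 16 520)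 (Pf.C 0 0xc1c404))) (Pf.cons (Pf.B 8 5 (Pf.C 5 0x20385) (Pf.C 41 648)) Pf.nil))) (Pf.W 54 7 [] [4,5,6] (Pf.cons (Pf.B 8 6 (Pf.C 16 776) (Pf.B 8 4 (Pf.C 16 520) (Pf.C 0 0xc1c404))) (Pf.cons (Pf.B 8 5 (Pf.C 5 0x20385) (Pf.C 41 648)) Pf.nil)))) (Pf.C 0 0xc04384)) (Pf.C 0 0xc0c384))) (Pf.B 7 4 (Pf.B 7 3 (Pf.B 7 2 (Pf.B 7 1 (Pf.W 54 7 [] [3,5,6] (Pf.cons (Pf.B 8 6 (Pf.C 16 776) (Pf.B 8 5 (Pf.C 0 0xa1c308) (Pf.C 2 648))) (Pf.cons (Pf.B 8 3 (Pf.C 5 0x20383) (Pf.C 41 392)) Pf.nil))) (Pf.C 0 0xa18381)) (Pf.C 0 0xc14382)) (Pf.C 0 0xa18383)) (Pf.C 0 0xc14384))) Pf.nil))))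
 (Pq.cons (Pq.L [] 4 (Pf.C 4 514))
 (Pq.cons (Pq.L [] 4 (Pf.C 2 385))
 (Pq.cons (Pq.L [] 31 (Pf.B 3 2 (Pf.W 50 1 [] [2,3,4] (Pf.cons (Pf.B 5 4 (Pf.C 5 66177) (Pf.C 31 517)) (Pf.cons (Pf.B 5 4 (Pf.B 5 2 (Pf.B 5 3 (Pf.C 7 0x20214203) (Pf.W 59 5 [] [1,2,3,4] (Pf.cons (Pf.B 6 4 (Pf.C 16 518) (Pf.B 6 3 (Pf.B 6 2 (Pf.C 16 262) (Pf.B 6 1 (Pf.W 48 6 [] [2,3,5] (Pf.cons (Pf.B 7 5 (Pf.C 5 82822) (Pf.C 27 647)) (Pf.cons (Pf.B 7 5 (Pf.B 7 3 (Pf.B 7 2 (Pf.C 7 0x20c1c283) (Pf.C 4 263)) (Pf.C 39 391)) (Pf.C 4 647)) Pf.nil))) (Pf.C 2 134))) (Pf.C 2 390))) (Pf.cons (Pf.B 6 3 (Pf.C 28 390) (Pf.B 6 1 (Pf.C 28 134) (Pf.C 0 0x614301))) Pf.nil)))) (Pf.C 4 261)) (Pf.C 4 517)) Pf.nil))) (Pf.W 50 1 [] [2,3,4] (Pf.cons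 (Pf.B 5 4 (Pf.C 5 66177) (Pf.C 31 517)) (Pf.cons (Pf.B 5 4 (Pf.B 5 2 (Pf.B 5 3 (Pf.W 59 5 [] [1,2,3,4] (Pf.cons (Pf.B 6 4 (Pf.C 16 518) (Pf.B 6 3 (Pf.B 6 1 (Pf.C 7 0x30818281) (Pf.C 2 134)) (Pf.C 2 390))) (Pf.cons (Pf.B 6 3 (Pf.C 28 390) (Pf.B 6 1 (Pf.C 28 134) (Pf.W 50 3 [] [1,2,4,5,6] (Pf.cons (Pf.B 7 6 (Pf.B 7 5 (Pf.C 5 82819) (Pf.B 7 4 (Pf.B 7 1 (Pf.C 5 66433) (Pf.C 0 0xc14087)) (Pf.C 31 519))) (Pf.C 3 775)) (Pf.cons (Pf.B 7 5 (Pf.B 7 4 (Pf.B 7 2 (Pf.B 7 1 (Pf.C 7 0x4061c281) (Pf.B 7 6 (Pf.W 59 7 [] [1,3,4,5,6] (Pf.cons (Pf.B 8 6 (Pf.C 5 0x1c308) (Pf.B 8 4 (Pf.C 16 520) (Pf.B 8 1 (Pf.B 8 5 (Pf.C 7 0x70214208) (Pf.C 0 0x218288)) (Pf.C 2 136)))) (Pf.cons (Pf.B 8 3 (Pf.C 28 392) (Pf.B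 8 1 (Pf.C 28 136) (Pf.C 0 0x61c401))) Pf.nil))) (Pf.C 0 0xa04307))) (Pf.C 4 263)) (Pf.C 4 519)) (Pf.C 4 647)) Pf.nil))))) Pf.nil))) (Pf.W 59 5 [] [1,2,3,4] (Pf.cons (Pf.B 6 4 (Pf.C 16 518) (Pf.B 6 3 (Pf.B 6 2 (Pf.C 16 262) (Pf.B 6 1 (Pf.W 48 6 [] [1,3,5] (Pf.cons (Pf.B 7 5 (Pf.C 5 82822) (Pf.C 27 647)) (Pf.cons (Pf.B 7 5 (Pf.B 7 3 (Pf.B 7 1 (Pf.C 7 0x30a04307) (Pf.C 39 135)) (Pf.C 39 391)) (Pf.C 4 647)) Pf.nil))) (Pf.C 2 134))) (Pf.C 2 390))) (Pf.cons (Pf.B 6 3 (Pf.C 28 390) (Pf.B 6 1 (Pf.C 28 134) (Pf.C 0 0x614301))) Pf.nil)))) (Pf.C 4 261)) (Pf.C 4 517)) Pf.nil)))))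
 (Pq.cons (Pq.L [] 37 (Pf.W 50 3 [] [1,2,4] (Pf.cons (Pf.B 5 2 (Pf.C 5 33411) (Pf.C 31 261)) (Pf.cons (Pf.B 5 4 (Pf.B 5 2 (Pf.B 5 1 (Pf.W 59 5 [] [1,2,3,4] (Pf.cons (Pf.B 6 3 (Pf.B 6 2 (Pf.C 16 262) (Pf.B 6 1 (Pf.C 7 0x10418283) (Pf.C 2 134))) (Pf.C 2 390)) (Pf.cons (Pf.B 6 3 (Pf.C 28 390) (Pf.B 6 1 (Pf.C 28 134) (Pf.W 50 1 [] [2,3,4,5,6] (Pf.cons (Pf.B 7 6 (Pf.B 7 5 (Pf.C 5 82817) (Pf.B 7 3 (Pf.B 7 2 (Pf.C 5 33667) (Pf.C 31 263)) (Pf.C 0 0xc14187))) (Pf.C 3 775)) (Pf.cons (Pf.B 7 5 (Pf.B 7 4 (Pf.B 7 2 (Pf.B 7 3 (Pf.C 7 0x2021c283) (Pf.B 7 6 (Pf.W 59 7 [] [1,2,3,5,6] (Pf.cons (Pf.B 8 6 (Pf.C 5 0x1c308) (Pf.B 8 3 (Pf.B 8 5 (Pf.B 8 2 (Pf.C 16 264) (Pf.C 7 0x70614108)) (Pf.C 0 0x618288)) (Pf.C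 2 392))) (Pf.cons (Pf.B 8 3 (Pf.C 28 392) (Pf.B 8 1 (Pf.C 28 136) (Pf.C 0 0x61c401))) Pf.nil))) (Pf.C 0 0xa0c307))) (Pf.C 4 263)) (Pf.C 4 519)) (Pf.C 4 647)) Pf.nil))))) Pf.nil))) (Pf.W 59 5 [] [1,2,3,4] (Pf.cons (Pf.B 6 4 (Pf.C 16 518) (Pf.B 6 3 (Pf.B 6 2 (Pf.C 16 262) (Pf.B 6 1 (Pf.W 48 6 [] [2,3,5] (Pf.cons (Pf.B 7 5 (Pf.C 5 82822) (Pf.C 27 647)) (Pf.cons (Pf.B 7 5 (Pf.B 7 3 (Pf.B 7 2 (Pf.C 7 0x20c1c283) (Pf.C 4 263)) (Pf.C 39 391)) (Pf.C 4 647)) Pf.nil))) (Pf.C 2 134))) (Pf.C 2 390))) (Pf.cons (Pf.B 6 3 (Pf.C 28 390) (Pf.B 6 1 (Pf.C 28 134) (Pf.C 0 0x614301))) Pf.nil)))) (Pf.C 4 261)) (Pf.C 4 517)) Pf.nil))))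
 (Pq.cons (Pq.L [] 32767 (Pf.W 61 6 [] [1,2,3,4,5] (Pf.cons (Pf.B 7 5 (Pf.B 7 3 (Pf.B 7 1 (Pf.B 7 4 (Pf.B 7 2 (Pf.W 50 7 [] [1,2,3,4,5,6] (Pf.cons (Pf.B 8 6 (Pf.C 5 99335) (Pf.C 31 776)) (Pf.cons (Pf.B 8 6 (Pf.B 8 4 (Pf.B 8 5 (Pf.C 7 0x60a10388) (Pf.B 8 3 (Pf.C 7 0x60610388) (Pf.B 8 2 (Pf.B 8 1 (Pf.C 7 0x40208388) (Pf.W 59 8 [] [4,5,6,7] (Pf.cons (Pf.B 9 7 (Pf.B 9 6 (Pf.C 16 777) (Pf.B 9 4 (Pf.C 16 521) (Pf.C 7 0x61210407))) (Pf.C 2 905)) (Pf.cons (Pf.B 9 7 (Pf.C 28 905) (Pf.B 9 5 (Pf.C 28 649) (Pf.C 0 0xe20485))) Pf.nil)))) (Pf.C 4 264)))) (Pf.C 4 520)) (Pf.C 4 776)) Pf.nil))) (Pf.W 50 7 [] [1,2,3,4,5,6] (Pf.cons (Pf.B 8 6 (Pf.C 5 99335) (Pf.C 31 776)) (Pf.cons (Pf.B 8 6 (Pf.B 8 4 (Pf.B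 8 5 (Pf.C 7 0x60a10388) (Pf.B 8 3 (Pf.C 7 0x60610388) (Pf.B 8 2 (Pf.B 8 1 (Pf.C 7 0x60210388) (Pf.W 59 8 [] [4,5,6,7] (Pf.cons (Pf.B 9 7 (Pf.B 9 6 (Pf.C 16 777) (Pf.B 9 4 (Pf.C 16 521) (Pf.C 7 0x61210407))) (Pf.C 2 905)) (Pf.cons (Pf.B 9 7 (Pf.C 28 905) (Pf.B 9 5 (Pf.C 28 649) (Pf.C 0 0xe20485))) Pf.nil)))) (Pf.C 4 264)))) (Pf.C 4 520)) (Pf.C 4 776)) Pf.nil)))) (Pf.B 7 2 (Pf.W 50 7 [] [1,2,3,4,5,6] (Pf.cons (Pf.B 8 6 (Pf.C 5 99335) (Pf.C 31 776)) (Pf.cons (Pf.B 8 6 (Pf.B 8 4 (Pf.B 8 2 (Pf.B 8 5 (Pf.C 7 0x60a08388) (Pf.B 8 3 (Pf.C 7 0x60608388) (Pf.B 8 1 (Pf.C 7 0x60208388) (Pf.W 59 8 [] [2,5,6,7] (Pf.cons (Pf.B 9 7 (Pf.B 9 6 (Pf.C 16 777) (Pf.B 9 2 (Pf.C 16 265) (Pf.C 7 0x61208407))) (Pf.C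 2 905)) (Pf.cons (Pf.B 9 7 (Pf.C 28 905) (Pf.B 9 5 (Pf.C 28 649) (Pf.C 0 0xe20485))) Pf.nil)))))) (Pf.C 4 264)) (Pf.C 4 520)) (Pf.C 4 776)) Pf.nil))) (Pf.W 50 7 [] [1,2,3,4,5,6] (Pf.cons (Pf.B 8 6 (Pf.C 5 99335) (Pf.C 31 776)) (Pf.cons (Pf.B 8 6 (Pf.B 8 4 (Pf.B 8 2 (Pf.B 8 5 (Pf.B 8 3 (Pf.C 7 0x50c0c388) (Pf.B 8 1 (Pf.C 7 0x50c04388) (Pf.W 59 8 [] [3,5,6,7] (Pf.cons (Pf.B 9 7 (Pf.B 9 6 (Pf.C 16 777) (Pf.B 9 5 (Pf.C 7 0x50c24407) (Pf.C 2 649))) (Pf.C 2 905)) (Pf.cons (Pf.B 9 7 (Pf.C 28 905) (Pf.B 9 3 (Pf.C 28 393) (Pf.C 0 0xe20483))) Pf.nil))))) (Pf.B 8 3 (Pf.B 8 1 (Pf.C 7 0x30c04388) (Pf.W 59 8 [] [3,5,6,7] (Pf.cons (Pf.B 9 7 (Pf.B 9 6 (Pf.C 16 777) (Pf.B 9 3 (Pf.C 7 0x30c24407) (Pf.C 2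 393))) (Pf.C 2 905)) (Pf.cons (Pf.B 9 7 (Pf.C 28 905) (Pf.B 9 5 (Pf.C 28 649) (Pf.C 0 0xe20485))) Pf.nil)))) (Pf.B 8 1 (Pf.W 59 8 [] [1,5,6,7] (Pf.cons (Pf.B 9 7 (Pf.B 9 6 (Pf.C 16 777) (Pf.B 9 1 (Pf.C 7 0x10c24407) (Pf.C 2 137))) (Pf.C 2 905)) (Pf.cons (Pf.B 9 7 (Pf.C 28 905) (Pf.B 9 5 (Pf.C 28 649) (Pf.C 0 0xe20485))) Pf.nil))) (Pf.W 59 8 [] [1,2,3,4,5,6,7] (Pf.cons (Pf.B 9 7 (Pf.B 9 6 (Pf.C 16 777) (Pf.B 9 5 (Pf.B 9 4 (Pf.C 16 521) (Pf.B 9 3 (Pf.B 9 2 (Pf.C 16 265) (Pf.B 9 1 (Pf.W 48 9 [] [6,7,8] (Pf.cons (Pf.B 10 8 (Pf.C 5 0x20509) (Pf.C 27 1034)) (Pf.cons (Pf.B 10 8 (Pf.B 10 7 (Pf.B 10 6 (Pf.C 7 0x61228407) (Pf.C 4 778)) (Pf.C 39 906)) (Pf.C 4 1034)) Pf.nil))) (Pf.C 2 137))) (Pf.C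 2 393))) (Pf.C 2 649))) (Pf.C 2 905)) (Pf.cons (Pf.B 9 7 (Pf.C 28 905) (Pf.B 9 5 (Pf.C 28 649) (Pf.C 0 0xe20485))) Pf.nil)))))) (Pf.C 4 264)) (Pf.C 4 520)) (Pf.C 4 776)) Pf.nil))))) (Pf.C 2 135)) (Pf.C 2 391)) (Pf.C 2 647)) (Pf.cons (Pf.B 7 5 (Pf.B 7 4 (Pf.B 7 3 (Pf.B 7 2 (Pf.B 7 1 (Pf.W 61 4 [] [1,2,3,5,6,7] (Pf.cons (Pf.B 8 7 (Pf.C 5 66440) (Pf.B 8 5 (Pf.B 8 3 (Pf.B 8 1 (Pf.B 8 6 (Pf.B 8 2 (Pf.W 50 8 [] [1,2,3,4,5,6,7] (Pf.cons (Pf.B 9 6 (Pf.C 5 99464) (Pf.C 31 777)) (Pf.cons (Pf.B 9 6 (Pf.B 9 4 (Pf.B 9 5 (Pf.C 7 0x60a10409) (Pf.B 9 3 (Pf.C 7 0x60610409) (Pf.B 9 2 (Pf.B 9 1 (Pf.C 7 0x40208409) (Pf.B 9 7 (Pf.W 59 9 [] [5,7,8] (Pf.cons (Pf.B 10 7 (Pf.C 5 0x2438a) (Pf.C 17 906)) (Pf.cons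 (Pf.B 10 8 (Pf.C 28 1034) (Pf.B 10 5 (Pf.C 28 650) (Pf.C 0 0x1024505))) Pf.nil))) (Pf.W 59 9 [] [4,6,7,8] (Pf.cons (Pf.B 10 8 (Pf.B 10 6 (Pf.C 16 778) (Pf.B 10 4 (Pf.C 16 522) (Pf.C 7 0x61410488))) (Pf.C 2 1034)) (Pf.cons (Pf.B 10 8 (Pf.C 28 1034) (Pf.B 10 7 (Pf.C 0 0xe2440a) (Pf.C 3 906))) Pf.nil))))) (Pf.C 4 265)))) (Pf.C 4 521)) (Pf.C 4 777)) Pf.nil))) (Pf.W 50 8 [] [1,2,3,4,5,6,7] (Pf.cons (Pf.B 9 6 (Pf.C 5 99464) (Pf.C 31 777)) (Pf.cons (Pf.B 9 6 (Pf.B 9 4 (Pf.B 9 5 (Pf.C 7 0x60a10409) (Pf.B 9 3 (Pf.C 7 0x60610409) (Pf.B 9 2 (Pf.B 9 1 (Pf.C 7 0x60210409) (Pf.B 9 7 (Pf.W 59 9 [] [5,7,8] (Pf.cons (Pf.B 10 7 (Pf.C 5 0x2438a) (Pf.C 17 906)) (Pf.cons (Pf.B 10 8 (Pf.C 28 1034) (Pf.B 10 5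 (Pf.C 28 650) (Pf.C 0 0x1024505))) Pf.nil))) (Pf.W 59 9 [] [4,6,7,8] (Pf.cons (Pf.B 10 8 (Pf.B 10 6 (Pf.C 16 778) (Pf.B 10 4 (Pf.C 16 522) (Pf.C 7 0x61410488))) (Pf.C 2 1034)) (Pf.cons (Pf.B 10 8 (Pf.C 28 1034) (Pf.B 10 7 (Pf.C 0 0xe2440a) (Pf.C 3 906))) Pf.nil))))) (Pf.C 4 265)))) (Pf.C 4 521)) (Pf.C 4 777)) Pf.nil)))) (Pf.W 55 7 [] [1,2,3,4,5,6,8] (Pf.cons (Pf.B 9 8 (Pf.B 9 6 (Pf.C 18 777) (Pf.C 0 0x101c309)) (Pf.C 2 1033)) (Pf.cons (Pf.B 9 6 (Pf.B 9 5 (Pf.C 5 0x24385) (Pf.B 9 4 (Pf.B 9 3 (Pf.C 5 0x24383) (Pf.B 9 2 (Pf.B 9 1 (Pf.C 5 0x24381) (Pf.W 59 9 [] [3,5,7] (Pf.cons (Pf.B 10 7 (Pf.C 5 0x2438a) (Pf.C 17 906)) (Pf.cons (Pf.B 10 5 (Pf.C 28 650) (Pf.B 10 3 (Pf.C 28 394) (Pf.C 0 0xa24503)))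 Pf.nil)))) (Pf.C 4 265))) (Pf.C 4 521))) (Pf.C 4 777)) Pf.nil)))) (Pf.C 2 136)) (Pf.C 2 392)) (Pf.C 2 648))) (Pf.cons (Pf.B 8 7 (Pf.B 8 6 (Pf.B 8 2 (Pf.W 61 2 [] [1,3,4,5,6,7,8] (Pf.cons (Pf.B 9 8 (Pf.C 5 33801) (Pf.B 9 7 (Pf.C 5 33673) (Pf.B 9 5 (Pf.B 9 3 (Pf.B 9 1 (Pf.B 9 6 (Pf.B 9 4 (Pf.W 50 9 [] [1,2,3,4,5,6,7,8] (Pf.cons (Pf.B 10 6 (Pf.C 5 99593) (Pf.C 31 778)) (Pf.cons (Pf.B 10 6 (Pf.B 10 4 (Pf.B 10 5 (Pf.C 7 0x60a1048a) (Pf.B 10 3 (Pf.C 7 0x6061048a) (Pf.B 10 2 (Pf.B 10 1 (Pf.C 7 0x4020848a) (Pf.B 10 8 (Pf.W 59 10 [] [5,8,9] (Pf.cons (Pf.B 11 8 (Pf.C 5 0x2840b) (Pf.C 17 1035)) (Pf.cons (Pf.B 11 9 (Pf.C 28 1163) (Pf.B 11 5 (Pf.C 28 651) (Pf.C 0 0x1228585))) Pf.nil))) (Pf.B 10 7 (Pf.C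 8 0x41028307) (Pf.C 0 0x1024507)))) (Pf.C 4 266)))) (Pf.C 4 522)) (Pf.C 4 778)) Pf.nil))) (Pf.W 50 9 [] [1,2,3,4,5,6,7,8] (Pf.cons (Pf.B 10 6 (Pf.C 5 99593) (Pf.C 31 778)) (Pf.cons (Pf.B 10 6 (Pf.B 10 4 (Pf.B 10 8 (Pf.B 10 7 (Pf.B 10 5 (Pf.C 5 0x28385) (Pf.B 10 3 (Pf.C 5 0x28383) (Pf.B 10 2 (Pf.B 10 1 (Pf.C 5 0x28381) (Pf.W 59 10 [] [5,8,9] (Pf.cons (Pf.B 11 8 (Pf.C 5 0x2840b) (Pf.C 17 1035)) (Pf.cons (Pf.B 11 9 (Pf.C 28 1163) (Pf.B 11 5 (Pf.C 28 651) (Pf.C 0 0x1228585))) Pf.nil)))) (Pf.C 4 266)))) (Pf.C 8 0x60e28404)) (Pf.C 0 0x82440a)) (Pf.C 4 522)) (Pf.C 4 778)) Pf.nil)))) (Pf.B 9 4 (Pf.W 50 9 [] [1,2,3,4,5,6,7,8] (Pf.cons (Pf.B 10 4 (Pf.C 5 66825) (Pf.C 31 522)) (Pf.cons (Pf.B 10 6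 (Pf.B 10 7 (Pf.B 10 5 (Pf.C 5 0x28385) (Pf.B 10 4 (Pf.B 10 8 (Pf.B 10 3 (Pf.C 5 0x28383) (Pf.B 10 2 (Pf.B 10 1 (Pf.C 5 0x28381) (Pf.W 59 10 [] [5,8,9] (Pf.cons (Pf.B 11 8 (Pf.C 5 0x2840b) (Pf.C 17 1035)) (Pf.cons (Pf.B 11 9 (Pf.C 28 1163) (Pf.B 11 5 (Pf.C 28 651) (Pf.C 0 0x1228585))) Pf.nil)))) (Pf.C 4 266))) (Pf.C 8 0x41028386)) (Pf.C 4 522))) (Pf.C 0 0xc2438a)) (Pf.C 4 778)) Pf.nil))) (Pf.W 50 9 [] [1,2,3,4,5,6,7,8] (Pf.cons (Pf.B 10 2 (Pf.C 5 34057) (Pf.C 31 266)) (Pf.cons (Pf.B 10 6 (Pf.B 10 7 (Pf.B 10 5 (Pf.C 5 0x28385) (Pf.B 10 4 (Pf.B 10 8 (Pf.B 10 3 (Pf.C 5 0x28383) (Pf.B 10 2 (Pf.B 10 1 (Pf.C 5 0x28381) (Pf.W 59 10 [] [5,8,9] (Pf.cons (Pf.B 11 8 (Pf.C 5 0x2840b) (Pf.C 17 1035))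 (Pf.cons (Pf.B 11 9 (Pf.C 28 1163) (Pf.B 11 5 (Pf.C 28 651) (Pf.C 0 0x1228585))) Pf.nil)))) (Pf.C 4 266))) (Pf.C 0 0x82440a)) (Pf.C 4 522))) (Pf.C 0 0xc2438a)) (Pf.C 4 778)) Pf.nil))))) (Pf.C 2 137)) (Pf.C 2 393)) (Pf.C 2 649)))) (Pf.cons (Pf.B 9 8 (Pf.B 9 7 (Pf.B 9 6 (Pf.B 9 4 (Pf.W 55 7 [] [1,2,3,4,5,6,8,9] (Pf.cons (Pf.B 10 6 (Pf.C 18 778) (Pf.B 10 5 (Pf.B 10 4 (Pf.C 18 522) (Pf.B 10 3 (Pf.B 10 2 (Pf.C 18 266) (Pf.B 10 1 (Pf.W 49 10 [] [3,5,6,7] (Pf.cons (Pf.B 11 7 (Pf.B 11 5 (Pf.C 28 651) (Pf.B 11 3 (Pf.C 28 395) (Pf.C 6 0x5160c507))) (Pf.C 3 907)) (Pf.cons (Pf.B 11 7 (Pf.C 40 907) (Pf.B 11 6 (Pf.C 0 0xc2838b) (Pf.C 4 779))) Pf.nil))) (Pf.C 2 138))) (Pf.C 2 394))) (Pf.C 2 650))) (Pf.cons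 (Pf.B 10 6 (Pf.B 10 5 (Pf.C 5 0x28385) (Pf.B 10 4 (Pf.B 10 8 (Pf.B 10 3 (Pf.C 5 0x28383) (Pf.B 10 2 (Pf.B 10 9 (Pf.B 10 1 (Pf.C 5 0x28381) (Pf.W 59 10 [] [3,5,9] (Pf.cons (Pf.B 11 9 (Pf.C 5 0x2848b) (Pf.C 17 1163)) (Pf.cons (Pf.B 11 5 (Pf.C 28 651) (Pf.B 11 3 (Pf.C 28 395) (Pf.C 0 0xa28583))) Pf.nil)))) (Pf.C 8 0x21228404)) (Pf.C 4 266))) (Pf.C 8 0x41028386)) (Pf.C 4 522))) (Pf.C 4 778)) Pf.nil))) (Pf.C 8 0x80824386)) (Pf.B 9 5 (Pf.B 9 4 (Pf.C 8 0x70c24404) (Pf.B 9 3 (Pf.B 9 1 (Pf.W 55 9 [] [1,2,3,4,5,6,7] (Pf.cons (Pf.B 10 6 (Pf.C 18 778) (Pf.B 10 4 (Pf.C 18 522) (Pf.C 0 0xc24504))) (Pf.cons (Pf.B 10 6 (Pf.B 10 5 (Pf.C 5 0x28485) (Pf.B 10 4 (Pf.B 10 3 (Pf.C 5 0x28483) (Pf.B 10 2 (Pf.B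 10 7 (Pf.B 10 1 (Pf.C 5 0x28381) (Pf.W 59 10 [] [6,7,9] (Pf.cons (Pf.B 11 9 (Pf.C 5 0x2848b) (Pf.C 17 1163)) (Pf.cons (Pf.B 11 9 (Pf.B 11 7 (Pf.B 11 6 (Pf.C 8 0x90c1c50b) (Pf.C 29 779)) (Pf.C 3 907)) (Pf.C 3 1163)) Pf.nil)))) (Pf.C 8 0x4120838a)) (Pf.C 4 266))) (Pf.C 4 522))) (Pf.C 4 778)) Pf.nil))) (Pf.C 0 0x804482)) (Pf.C 0 0x80c482))) (Pf.C 0 0xc14482))) (Pf.C 3 905)) (Pf.C 3 1033)) Pf.nil))) (Pf.C 8 0x41008386)) (Pf.B 8 5 (Pf.B 8 3 (Pf.B 8 1 (Pf.B 8 2 (Pf.W 55 8 [] [1,2,3,4,5,6] (Pf.cons (Pf.B 9 6 (Pf.C 18 777) (Pf.B 9 4 (Pf.C 18 521) (Pf.C 0 0xc20484))) (Pf.cons (Pf.B 9 6 (Pf.B 9 5 (Pf.C 5 0x24405) (Pf.B 9 4 (Pf.B 9 3 (Pf.C 5 0x24403) (Pf.B 9 2 (Pf.B 9 1 (Pf.C 5 0x24401) (Pf.W 59 9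 [] [4,6,8] (Pf.cons (Pf.B 10 8 (Pf.C 5 0x2440a) (Pf.C 17 1034)) (Pf.cons (Pf.B 10 8 (Pf.B 10 6 (Pf.B 10 4 (Pf.C 8 0x6101048a) (Pf.C 29 522)) (Pf.C 29 778)) (Pf.C 3 1034)) Pf.nil)))) (Pf.C 4 265))) (Pf.C 4 521))) (Pf.C 4 777)) Pf.nil))) (Pf.W 55 8 [] [1,2,3,4,5,6,7] (Pf.cons (Pf.B 9 6 (Pf.C 18 777) (Pf.B 9 4 (Pf.C 18 521) (Pf.C 0 0xc20484))) (Pf.cons (Pf.B 9 6 (Pf.B 9 5 (Pf.C 5 0x24405) (Pf.B 9 4 (Pf.B 9 3 (Pf.C 5 0x24403) (Pf.B 9 2 (Pf.B 9 7 (Pf.B 9 1 (Pf.C 5 0x24381) (Pf.W 59 9 [] [6,7,8] (Pf.cons (Pf.B 10 8 (Pf.C 5 0x2440a) (Pf.C 17 1034)) (Pf.cons (Pf.B 10 8 (Pf.B 10 7 (Pf.B 10 6 (Pf.C 8 0x80c1c48a) (Pf.C 29 778)) (Pf.C 3 906)) (Pf.C 3 1034)) Pf.nil)))) (Pf.C 8 0x41008389)) (Pf.C 4 265)))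 (Pf.C 4 521))) (Pf.C 4 777)) Pf.nil)))) (Pf.C 0 0xc04404)) (Pf.C 0 0xc0c404)) (Pf.C 0 0xc14404))) (Pf.C 3 904)) Pf.nil))) (Pf.W 55 7 [] [1,2,3,4,5,6] (Pf.cons (Pf.B 8 6 (Pf.C 18 776) (Pf.B 8 1 (Pf.C 0 0x21c308) (Pf.C 2 136))) (Pf.cons (Pf.B 8 6 (Pf.B 8 5 (Pf.C 5 0x20385) (Pf.B 8 4 (Pf.B 8 3 (Pf.C 5 0x20383) (Pf.B 8 2 (Pf.B 8 1 (Pf.W 59 8 [] [3,5,7] (Pf.cons (Pf.B 9 7 (Pf.C 5 0x20389) (Pf.C 17 905)) (Pf.cons (Pf.B 9 5 (Pf.C 28 649) (Pf.B 9 3 (Pf.C 28 393) (Pf.C 0 0xa20483))) Pf.nil))) (Pf.W 59 8 [] [3,5,7] (Pf.cons (Pf.B 9 7 (Pf.C 5 0x20389) (Pf.C 17 905)) (Pf.cons (Pf.B 9 5 (Pf.C 28 649) (Pf.B 9 3 (Pf.C 28 393) (Pf.C 0 0xa20483))) Pf.nil)))) (Pf.C 4 264))) (Pf.C 4 520))) (Pf.C 4 776)) Pf.nil))))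 (Pf.B 7 1 (Pf.W 55 7 [] [1,2,3,4,5,6] (Pf.cons (Pf.B 8 6 (Pf.C 18 776) (Pf.B 8 2 (Pf.C 18 264) (Pf.C 0 0xc1c402))) (Pf.cons (Pf.B 8 6 (Pf.B 8 5 (Pf.C 5 0x20385) (Pf.B 8 4 (Pf.B 8 3 (Pf.C 5 0x20383) (Pf.B 8 2 (Pf.B 8 1 (Pf.C 5 0x20381) (Pf.W 59 8 [] [3,5,7] (Pf.cons (Pf.B 9 7 (Pf.C 5 0x20389) (Pf.C 17 905)) (Pf.cons (Pf.B 9 5 (Pf.C 28 649) (Pf.B 9 3 (Pf.C 28 393) (Pf.C 0 0xa20483))) Pf.nil)))) (Pf.C 4 264))) (Pf.C 4 520))) (Pf.C 4 776)) Pf.nil))) (Pf.C 0 0xc04382))) (Pf.B 7 2 (Pf.B 7 1 (Pf.W 55 7 [] [1,2,3,4,5,6] (Pf.cons (Pf.B 8 6 (Pf.C 18 776) (Pf.B 8 3 (Pf.C 0 0x61c308) (Pf.C 2 392))) (Pf.cons (Pf.B 8 6 (Pf.B 8 5 (Pf.C 5 0x20385) (Pf.B 8 4 (Pf.B 8 2 (Pf.B 8 1 (Pf.C 5 0x20381) (Pf.B 8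 3 (Pf.W 59 8 [] [1,5,7] (Pf.cons (Pf.B 9 7 (Pf.C 5 0x20389) (Pf.C 17 905)) (Pf.cons (Pf.B 9 5 (Pf.C 28 649) (Pf.B 9 1 (Pf.C 28 137) (Pf.C 0 0xa20481))) Pf.nil))) (Pf.W 59 8 [] [3,5,7] (Pf.cons (Pf.B 9 7 (Pf.C 5 0x20389) (Pf.C 17 905)) (Pf.cons (Pf.B 9 5 (Pf.C 28 649) (Pf.B 9 3 (Pf.C 28 393) (Pf.C 0 0xa20483))) Pf.nil))))) (Pf.C 4 264)) (Pf.C 4 520))) (Pf.C 4 776)) Pf.nil))) (Pf.C 0 0x618381)) (Pf.C 0 0xc0c382))) (Pf.B 7 3 (Pf.B 7 1 (Pf.B 7 2 (Pf.W 55 7 [] [1,2,3,4,5,6] (Pf.cons (Pf.B 8 6 (Pf.C 18 776) (Pf.B 8 4 (Pf.C 18 520) (Pf.C 0 0xc1c404))) (Pf.cons (Pf.B 8 6 (Pf.B 8 5 (Pf.C 5 0x20385) (Pf.B 8 4 (Pf.B 8 3 (Pf.C 5 0x20383) (Pf.B 8 2 (Pf.B 8 1 (Pf.C 5 0x20381) (Pf.W 59 8 [] [4,6,7] (Pf.cons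 (Pf.B 9 7 (Pf.C 5 0x20389) (Pf.C 17 905)) (Pf.cons (Pf.B 9 7 (Pf.B 9 6 (Pf.B 9 4 (Pf.C 8 0x60e10409) (Pf.C 29 521)) (Pf.C 29 777)) (Pf.C 3 905)) Pf.nil)))) (Pf.C 4 264))) (Pf.C 4 520))) (Pf.C 4 776)) Pf.nil))) (Pf.W 55 7 [] [1,2,3,4,5,6] (Pf.cons (Pf.B 8 6 (Pf.C 18 776) (Pf.B 8 4 (Pf.C 18 520) (Pf.C 0 0xc1c404))) (Pf.cons (Pf.B 8 6 (Pf.B 8 5 (Pf.C 5 0x20385) (Pf.B 8 4 (Pf.B 8 3 (Pf.C 5 0x20383) (Pf.B 8 2 (Pf.B 8 1 (Pf.C 5 0x20381) (Pf.W 59 8 [] [4,6,7] (Pf.cons (Pf.B 9 7 (Pf.C 5 0x20389) (Pf.C 17 905)) (Pf.cons (Pf.B 9 7 (Pf.B 9 6 (Pf.B 9 4 (Pf.C 8 0x60e10409) (Pf.C 29 521)) (Pf.C 29 777)) (Pf.C 3 905)) Pf.nil)))) (Pf.C 4 264))) (Pf.C 4 520))) (Pf.C 4 776)) Pf.nil)))) (Pf.C 0 0xc04384))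 (Pf.C 0 0xc0c384))) (Pf.B 7 4 (Pf.B 7 3 (Pf.B 7 2 (Pf.B 7 1 (Pf.W 55 7 [] [1,2,3,4,5,6] (Pf.cons (Pf.B 8 6 (Pf.C 18 776) (Pf.B 8 5 (Pf.C 0 0xa1c308) (Pf.C 2 648))) (Pf.cons (Pf.B 8 6 (Pf.B 8 4 (Pf.B 8 3 (Pf.C 5 0x20383) (Pf.B 8 2 (Pf.B 8 1 (Pf.C 5 0x20381) (Pf.B 8 5 (Pf.W 59 8 [] [1,3,7] (Pf.cons (Pf.B 9 7 (Pf.C 5 0x20389) (Pf.C 17 905)) (Pf.cons (Pf.B 9 3 (Pf.C 28 393) (Pf.B 9 1 (Pf.C 28 137) (Pf.C 0 0x620481))) Pf.nil))) (Pf.W 59 8 [] [3,5,7] (Pf.cons (Pf.B 9 7 (Pf.C 5 0x20389) (Pf.C 17 905)) (Pf.cons (Pf.B 9 5 (Pf.C 28 649) (Pf.B 9 3 (Pf.C 28 393) (Pf.C 0 0xa20483))) Pf.nil))))) (Pf.C 4 264))) (Pf.C 4 520)) (Pf.C 4 776)) Pf.nil))) (Pf.C 0 0xa18381)) (Pf.C 0 0xc14382)) (Pf.C 0 0xa18383))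 (Pf.C 0 0xc14384))) Pf.nil))))
 (Pq.cons (Pq.L [] 4 (Pf.C 4 514))
 (Pq.cons (Pq.L [] 4 (Pf.C 2 385))
 Pq.nil)))))))))))
theorem e4_o6 : AllRef e4_T e4_G5 (hitObl [22,38,39] e4_h7) :=
  chkPq_sound e4_o6c _ (by decide +kernel)
noncomputable def e4_o7c : Pq := (Pq.cons (Pq.L [] 1 (Pf.C 2 257))
 (Pq.cons (Pq.L [] 1 (Pf.C 13 130))
 (Pq.cons (Pq.L [] 2 (Pf.C 12 131))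
 (Pq.cons (Pq.L [] 1 (Pf.C 2 257))
 (Pq.cons (Pq.L [] 1 (Pf.C 13 130))
 (Pq.cons (Pq.L [] 2 (Pf.C 12 131))
 (Pq.cons (Pq.L [] 1 (Pf.C 2 257))
 (Pq.cons (Pq.L [] 1 (Pf.C 13 130))
 (Pq.cons (Pq.L [] 2 (Pf.C 12 131))
 (Pq.cons (Pq.L [] 2 (Pf.C 24 131))
 (Pq.cons (Pq.L [] 1 (Pf.C 3 257))
 (Pq.cons (Pq.L [] 1 (Pf.C 25 130))
 (Pq.cons (Pq.L [] 2 (Pf.C 24 131))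
 (Pq.cons (Pq.L [] 1 (Pf.C 3 257))
 (Pq.cons (Pq.L [] 1 (Pf.C 25 130))
 (Pq.cons (Pq.L [] 2 (Pf.C 24 131))
 (Pq.cons (Pq.L [] 1 (Pf.C 3 257))
 (Pq.cons (Pq.L [] 1 (Pf.C 25 130))
 (Pq.cons (Pq.L [] 1 (Pf.C 37 130))
 (Pq.cons (Pq.L [] 2 (Pf.C 36 131))
 (Pq.cons (Pq.L [] 1 (Pf.C 4 257))
 (Pq.cons (Pq.L [] 1 (Pf.C 37 130))
 (Pq.cons (Pq.L [] 2 (Pf.C 36 131))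
 (Pq.cons (Pq.L [] 1 (Pf.C 4 257))
 (Pq.cons (Pq.L [] 1 (Pf.C 37 130))
 (Pq.cons (Pq.L [] 2 (Pf.C 36 131))
 (Pq.cons (Pq.L [] 1 (Pf.C 4 257))
 (Pq.cons (Pq.L [] 1 (Pf.C 2 257))
 (Pq.cons (Pq.L [] 1 (Pf.C 15 130))
 (Pq.cons (Pq.L [] 2 (Pf.C 14 131))
 (Pq.cons (Pq.L [] 1 (Pf.C 2 257))
 (Pq.cons (Pq.L [] 1 (Pf.C 15 130))
 (Pq.cons (Pq.L [] 2 (Pf.C 14 131))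
 (Pq.cons (Pq.L [] 1 (Pf.C 2 257))
 (Pq.cons (Pq.L [] 1 (Pf.C 15 130))
 (Pq.cons (Pq.L [] 2 (Pf.C 14 131))
 (Pq.cons (Pq.L [] 2 (Pf.C 26 131))
 (Pq.cons (Pq.L [] 1 (Pf.C 3 257))
 (Pq.cons (Pq.L [] 1 (Pf.C 27 130))
 (Pq.cons (Pq.L [] 2 (Pf.C 26 131))
 (Pq.cons (Pq.L [] 1 (Pf.C 3 257))
 (Pq.cons (Pq.L [] 1 (Pf.C 27 130))
 (Pq.cons (Pq.L [] 2 (Pf.C 26 131))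
 (Pq.cons (Pq.L [] 1 (Pf.C 3 257))
 (Pq.cons (Pq.L [] 1 (Pf.C 27 130))
 (Pq.cons (Pq.L [] 1 (Pf.C 39 130))
 (Pq.cons (Pq.L [] 2 (Pf.C 38 131))
 (Pq.cons (Pq.L [] 1 (Pf.C 4 257))
 (Pq.cons (Pq.L [] 1 (Pf.C 39 130))
 (Pq.cons (Pq.L [] 2 (Pf.C 38 131))
 (Pq.cons (Pq.L [] 1 (Pf.C 4 257))
 (Pq.cons (Pq.L [] 1 (Pf.C 39 130))
 (Pq.cons (Pq.L [] 2 (Pf.C 38 131))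
 (Pq.cons (Pq.L [] 1 (Pf.C 4 257))
 (Pq.cons (Pq.L [] 1 (Pf.C 2 257))
 (Pq.cons (Pq.L [] 1 (Pf.C 17 130))
 (Pq.cons (Pq.L [] 2 (Pf.C 16 131))
 (Pq.cons (Pq.L [] 1 (Pf.C 2 257))
 (Pq.cons (Pq.L [] 1 (Pf.C 17 130))
 (Pq.cons (Pq.L [] 2 (Pf.C 16 131))
 (Pq.cons (Pq.L [] 1 (Pf.C 2 257))
 (Pq.cons (Pq.L [] 1 (Pf.C 17 130))
 (Pq.cons (Pq.L [] 2 (Pf.C 16 131))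
 (Pq.cons (Pq.L [] 2 (Pf.C 28 131))
 (Pq.cons (Pq.L [] 1 (Pf.C 3 257))
 (Pq.cons (Pq.L [] 1 (Pf.C 29 130))
 (Pq.cons (Pq.L [] 2 (Pf.C 28 131))
 (Pq.cons (Pq.L [] 1 (Pf.C 3 257))
 (Pq.cons (Pq.L [] 1 (Pf.C 29 130))
 (Pq.cons (Pq.L [] 2 (Pf.C 28 131))
 (Pq.cons (Pq.L [] 1 (Pf.C 3 257))
 (Pq.cons (Pq.L [] 1 (Pf.C 29 130))
 (Pq.cons (Pq.L [] 1 (Pf.C 41 130))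
 (Pq.cons (Pq.L [] 2 (Pf.C 40 131))
 (Pq.cons (Pq.L [] 1 (Pf.C 4 257))
 (Pq.cons (Pq.L [] 1 (Pf.C 41 130))
 (Pq.cons (Pq.L [] 2 (Pf.C 40 131))
 (Pq.cons (Pq.L [] 1 (Pf.C 4 257))
 (Pq.cons (Pq.L [] 1 (Pf.C 41 130))
 (Pq.cons (Pq.L [] 2 (Pf.C 40 131))
 (Pq.cons (Pq.L [] 1 (Pf.C 4 257))
 (Pq.cons (Pq.L [] 1 (Pf.C 2 257))
 (Pq.cons (Pq.L [] 1 (Pf.C 19 130))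
 (Pq.cons (Pq.L [] 2 (Pf.C 18 131))
 (Pq.cons (Pq.L [] 1 (Pf.C 2 257))
 (Pq.cons (Pq.L [] 1 (Pf.C 19 130))
 (Pq.cons (Pq.L [] 2 (Pf.C 18 131))
 (Pq.cons (Pq.L [] 1 (Pf.C 2 257))
 (Pq.cons (Pq.L [] 1 (Pf.C 19 130))
 (Pq.cons (Pq.L [] 2 (Pf.C 18 131))
 (Pq.cons (Pq.L [] 2 (Pf.C 30 131))
 (Pq.cons (Pq.L [] 1 (Pf.C 3 257))
 (Pq.cons (Pq.L [] 1 (Pf.C 31 130))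
 (Pq.cons (Pq.L [] 2 (Pf.C 30 131))
 (Pq.cons (Pq.L [] 1 (Pf.C 3 257))
 (Pq.cons (Pq.L [] 1 (Pf.C 31 130))
 (Pq.cons (Pq.L [] 2 (Pf.C 30 131))
 (Pq.cons (Pq.L [] 1 (Pf.C 3 257))
 (Pq.cons (Pq.L [] 1 (Pf.C 31 130))
 (Pq.cons (Pq.L [] 1 (Pf.C 43 130))
 (Pq.cons (Pq.L [] 2 (Pf.C 42 131))
 (Pq.cons (Pq.L [] 1 (Pf.C 4 257))
 (Pq.cons (Pq.L [] 1 (Pf.C 43 130))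
 (Pq.cons (Pq.L [] 2 (Pf.C 42 131))
 (Pq.cons (Pq.L [] 1 (Pf.C 4 257))
 (Pq.cons (Pq.L [] 1 (Pf.C 43 130))
 (Pq.cons (Pq.L [] 2 (Pf.C 42 131))
 (Pq.cons (Pq.L [] 1 (Pf.C 4 257))
 (Pq.cons (Pq.L [] 1 (Pf.C 2 257))
 (Pq.cons (Pq.L [] 1 (Pf.C 158 257))
 (Pq.cons (Pq.L [] 1 (Pf.C 154 130))
 (Pq.cons (Pq.L [] 1 (Pf.C 2 257))
 (Pq.cons (Pq.L [] 1 (Pf.C 21 130))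
 (Pq.cons (Pq.L [] 2 (Pf.C 20 131))
 (Pq.cons (Pq.L [] 1 (Pf.C 2 257))
 (Pq.cons (Pq.L [] 1 (Pf.C 21 130))
 (Pq.cons (Pq.L [] 2 (Pf.C 20 131))
 (Pq.cons (Pq.L [] 3 (Pf.B 3 2 (Pf.W 55 3 [] [1,2] (Pf.cons (Pf.B 4 1 (Pf.B 4 2 (Pf.W 49 4 [] [1,2,3] (Pf.cons (Pf.B 5 3 (Pf.B 5 2 (Pf.B 5 1 (Pf.C 28 133) (Pf.C 6 0x20214203)) (Pf.C 3 261)) (Pf.C 3 389)) (Pf.cons (Pf.B 5 3 (Pf.C 40 389) (Pf.B 5 2 (Pf.C 40 261) (Pf.W 55 2 [] [1,3,4,5] (Pf.cons (Pf.B 6 4 (Pf.B 6 1 (Pf.B 6 3 (Pf.C 6 0x10418203) (Pf.B 6 5 (Pf.W 49 6 [] [1,2,3,4,5] (Pf.cons (Pf.B 7 5 (Pf.C 5 82822) (Pf.B 7 3 (Pf.B 7 4 (Pf.B 7 1 (Pf.C 28 135) (Pf.C 6 0x60610087)) (Pf.C 0 0x614207)) (Pf.C 3 391))) (Pf.cons (Pf.B 7 3 (Pf.C 40 391) (Pf.B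 7 2 (Pf.C 40 263) (Pf.C 0 0x618382))) Pf.nil))) (Pf.C 0 0x80c286))) (Pf.C 2 134)) (Pf.C 2 518)) (Pf.cons (Pf.B 6 5 (Pf.B 6 4 (Pf.C 5 98564) (Pf.B 6 3 (Pf.B 6 1 (Pf.C 5 98689) (Pf.C 43 134)) (Pf.C 0 0xa10186))) (Pf.C 4 646)) Pf.nil))))) Pf.nil))) (Pf.W 49 4 [] [1,2,3] (Pf.cons (Pf.B 5 3 (Pf.B 5 2 (Pf.B 5 1 (Pf.C 28 133) (Pf.W 53 5 [] [2,3,4] (Pf.cons (Pf.B 6 4 (Pf.B 6 3 (Pf.B 6 2 (Pf.C 6 0x30808286) (Pf.C 15 262)) (Pf.C 15 390)) (Pf.C 2 518)) (Pf.cons (Pf.B 6 4 (Pf.C 5 98948) (Pf.C 39 518)) Pf.nil)))) (Pf.C 3 261)) (Pf.C 3 389)) (Pf.cons (Pf.B 5 3 (Pf.C 40 389) (Pf.B 5 2 (Pf.C 40 261) (Pf.C 0 0x610282))) Pf.nil)))) (Pf.C 2 132)) (Pf.cons (Pf.B 4 1 (Pf.C 5 65921) (Pf.C 43 132)) Pf.nil)))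 (Pf.C 3 259)))
 (Pq.cons (Pq.L [] 1 (Pf.C 3 257))
 (Pq.cons (Pq.L [] 1 (Pf.C 160 257))
 (Pq.cons (Pq.L [] 2 (Pf.C 32 131))
 (Pq.cons (Pq.L [] 1 (Pf.C 3 257))
 (Pq.cons (Pq.L [] 1 (Pf.C 33 130))
 (Pq.cons (Pq.L [] 2 (Pf.C 32 131))
 (Pq.cons (Pq.L [] 1 (Pf.C 3 257))
 (Pq.cons (Pq.L [] 1 (Pf.C 33 130))
 (Pq.cons (Pq.L [] 1 (Pf.C 156 257))
 (Pq.cons (Pq.L [] 3 (Pf.B 3 2 (Pf.W 60 3 [] [1,2] (Pf.cons (Pf.B 4 1 (Pf.C 5 49284) (Pf.C 19 132)) (Pf.cons (Pf.B 4 1 (Pf.B 4 2 (Pf.W 54 4 [] [1,2,3] (Pf.cons (Pf.B 5 3 (Pf.C 16 389) (Pf.B 5 2 (Pf.C 16 261) (Pf.W 60 2 [] [1,3,4,5] (Pf.cons (Pf.B 6 5 (Pf.B 6 4 (Pf.C 5 33286) (Pf.B 6 3 (Pf.B 6 1 (Pf.C 5 49286) (Pf.C 19 134)) (Pf.C 0 0xa10186))) (Pf.C 2 646))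 (Pf.cons (Pf.B 6 4 (Pf.B 6 1 (Pf.B 6 3 (Pf.C 8 0x10418203) (Pf.B 6 5 (Pf.W 54 6 [] [1,2,3,4,5] (Pf.cons (Pf.B 7 3 (Pf.C 16 391) (Pf.B 7 2 (Pf.C 16 263) (Pf.C 0 0x618382))) (Pf.cons (Pf.B 7 5 (Pf.C 5 0x1c305) (Pf.B 7 3 (Pf.B 7 4 (Pf.B 7 1 (Pf.C 40 135) (Pf.C 8 0x60610087)) (Pf.C 0 0x614207)) (Pf.C 4 391))) Pf.nil))) (Pf.C 0 0x80c286))) (Pf.C 3 134)) (Pf.C 3 518)) Pf.nil))))) (Pf.cons (Pf.B 5 3 (Pf.B 5 2 (Pf.B 5 1 (Pf.C 40 133) (Pf.C 8 0x20214203)) (Pf.C 4 261)) (Pf.C 4 389)) Pf.nil))) (Pf.W 54 4 [] [1,2,3] (Pf.cons (Pf.B 5 3 (Pf.C 16 389) (Pf.B 5 2 (Pf.C 16 261) (Pf.C 0 0x610282))) (Pf.cons (Pf.B 5 3 (Pf.B 5 2 (Pf.B 5 1 (Pf.C 40 133) (Pf.W 58 5 [] [2,3,4] (Pf.cons (Pf.B 6 4 (Pf.C 5 82438)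 (Pf.C 15 518)) (Pf.cons (Pf.B 6 4 (Pf.B 6 3 (Pf.B 6 2 (Pf.C 8 0x30808286) (Pf.C 27 262)) (Pf.C 27 390)) (Pf.C 3 518)) Pf.nil)))) (Pf.C 4 261)) (Pf.C 4 389)) Pf.nil)))) (Pf.C 3 132)) Pf.nil))) (Pf.C 4 259)))
 (Pq.cons (Pq.L [] 1 (Pf.C 4 257))
 (Pq.cons (Pq.L [] 1 (Pf.C 45 130))
 (Pq.cons (Pq.L [] 2 (Pf.C 44 131))
 (Pq.cons (Pq.L [] 1 (Pf.C 4 257))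
 (Pq.cons (Pq.L [] 1 (Pf.C 45 130))
 (Pq.cons (Pq.L [] 2 (Pf.C 44 131))
 (Pq.cons (Pq.L [] 1 (Pf.C 4 257))
 (Pq.cons (Pq.L [] 1 (Pf.C 2 257))
 (Pq.cons (Pq.L [] 3 (Pf.B 3 2 (Pf.W 51 2 [] [1,3] (Pf.cons (Pf.B 4 1 (Pf.B 4 3 (Pf.W 55 4 [] [1,2,3] (Pf.cons (Pf.B 5 3 (Pf.B 5 2 (Pf.B 5 1 (Pf.W 49 5 [] [1,2,3,4] (Pf.cons (Pf.B 6 4 (Pf.B 6 3 (Pf.C 28 390) (Pf.B 6 2 (Pf.C 28 262) (Pf.C 6 0x30c08284))) (Pf.C 3 518)) (Pf.cons (Pf.B 6 4 (Pf.C 40 518) (Pf.B 6 1 (Pf.C 40 134) (Pf.W 56 1 [] [2,3,4,5,6] (Pf.cons (Pf.B 7 6 (Pf.B 7 5 (Pf.B 7 3 (Pf.B 7 2 (Pf.B 7 4 (Pf.C 6 0x2021c284) (Pf.W 50 7 [] [1,3,4,5,6] (Pf.cons (Pf.B 8 6 (Pf.C 5 99335) (Pf.B 8 4 (Pf.B 8 5 (Pf.B 8 3 (Pf.C 30 392) (Pf.C 6 0x70814188))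 (Pf.C 0 0x818288)) (Pf.C 3 520))) (Pf.cons (Pf.B 8 3 (Pf.B 8 4 (Pf.C 5 0x20203) (Pf.B 8 1 (Pf.C 42 136) (Pf.C 0 0x81c401))) (Pf.C 43 392)) Pf.nil)))) (Pf.C 2 263)) (Pf.C 2 391)) (Pf.C 2 647)) (Pf.C 41 902)) (Pf.cons (Pf.B 7 6 (Pf.B 7 5 (Pf.C 5 0x1c085) (Pf.B 7 4 (Pf.B 7 3 (Pf.C 5 0x1c083) (Pf.B 7 2 (Pf.C 5 0x1c202) (Pf.W 60 7 [] [1,2,3] (Pf.cons (Pf.B 8 1 (Pf.C 5 0x1c088) (Pf.C 19 136)) (Pf.cons (Pf.B 8 3 (Pf.C 30 392) (Pf.B 8 2 (Pf.C 30 264) (Pf.C 0 0x61c402))) Pf.nil))))) (Pf.C 0 0xc14207))) (Pf.C 4 775)) Pf.nil))))) Pf.nil))) (Pf.C 19 133)) (Pf.C 2 261)) (Pf.C 2 389)) (Pf.cons (Pf.B 5 3 (Pf.C 5 82435) (Pf.C 43 389)) Pf.nil))) (Pf.W 55 4 [] [1,2,3] (Pf.cons (Pf.B 5 3 (Pf.B 5 2 (Pf.B 5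 1 (Pf.C 6 0x30814101) (Pf.C 19 133)) (Pf.C 2 261)) (Pf.C 2 389)) (Pf.cons (Pf.B 5 2 (Pf.C 5 82434) (Pf.C 43 261)) Pf.nil)))) (Pf.C 3 132)) (Pf.cons (Pf.B 4 3 (Pf.B 4 1 (Pf.C 5 65667) (Pf.W 60 4 [] [1,2,3] (Pf.cons (Pf.B 5 3 (Pf.B 5 2 (Pf.B 5 1 (Pf.W 49 5 [] [1,2,3,4] (Pf.cons (Pf.B 6 4 (Pf.C 5 66309) (Pf.C 29 518)) (Pf.cons (Pf.B 6 4 (Pf.B 6 3 (Pf.B 6 2 (Pf.B 6 1 (Pf.C 40 134) (Pf.W 51 3 [] [1,2,4,5,6] (Pf.cons (Pf.B 7 6 (Pf.C 40 902) (Pf.B 7 4 (Pf.C 5 66435) (Pf.B 7 1 (Pf.B 7 2 (Pf.B 7 5 (Pf.W 55 7 [] [1,2,3,4,5,6] (Pf.cons (Pf.B 8 5 (Pf.B 8 3 (Pf.B 8 2 (Pf.B 8 1 (Pf.B 8 6 (Pf.B 8 4 (Pf.W 49 8 [] [1,2,3,4,5,6,7] (Pf.cons (Pf.B 9 4 (Pf.C 5 66696) (Pf.C 29 521)) (Pf.cons (Pf.B 9 7 (Pf.C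 40 905) (Pf.B 9 6 (Pf.B 9 4 (Pf.B 9 3 (Pf.B 9 2 (Pf.B 9 5 (Pf.B 9 1 (Pf.C 40 137) (Pf.W 58 9 [] [2,4,5,6,7,8] (Pf.cons (Pf.B 10 8 (Pf.B 10 5 (Pf.B 10 6 (Pf.B 10 4 (Pf.C 14 522) (Pf.B 10 2 (Pf.C 7 0x20828305) (Pf.C 2 266))) (Pf.C 7 0x50c28488)) (Pf.C 2 650)) (Pf.C 2 1034)) (Pf.cons (Pf.B 10 8 (Pf.C 26 1034) (Pf.B 10 7 (Pf.C 0 0xe2440a) (Pf.C 3 906))) Pf.nil)))) (Pf.C 7 0x60a24202)) (Pf.C 41 265)) (Pf.C 41 393)) (Pf.C 4 521)) (Pf.C 4 777))) Pf.nil))) (Pf.C 7 0x20820305)) (Pf.B 8 4 (Pf.C 7 0x50c20104) (Pf.C 0 0xc1c404))) (Pf.C 19 136)) (Pf.C 2 264)) (Pf.C 2 392)) (Pf.C 2 648)) (Pf.cons (Pf.B 8 3 (Pf.C 5 0x20383) (Pf.C 43 392)) Pf.nil))) (Pf.W 58 6 [] [2,4,5,7] (Pf.cons (Pf.B 8 5 (Pf.B 8 4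 (Pf.C 14 520) (Pf.B 8 2 (Pf.C 7 0x20820305) (Pf.C 2 264))) (Pf.C 2 648)) (Pf.cons (Pf.B 8 7 (Pf.B 8 5 (Pf.C 26 648) (Pf.C 0 0xe18288)) (Pf.C 3 904)) Pf.nil)))) (Pf.C 0 0x210107)) (Pf.C 3 135)))) (Pf.cons (Pf.B 7 6 (Pf.B 7 4 (Pf.B 7 5 (Pf.B 7 2 (Pf.B 7 1 (Pf.C 5 0x1c085) (Pf.W 56 1 [] [2,3,4,5,6,7] (Pf.cons (Pf.B 8 6 (Pf.B 8 5 (Pf.B 8 3 (Pf.B 8 7 (Pf.B 8 2 (Pf.B 8 4 (Pf.W 50 8 [] [1,2,3,4,5,6,7] (Pf.cons (Pf.B 9 4 (Pf.C 5 66696) (Pf.B 9 2 (Pf.C 30 265) (Pf.B 9 1 (Pf.C 0 0x210109) (Pf.C 3 137)))) (Pf.cons (Pf.B 9 7 (Pf.B 9 6 (Pf.B 9 4 (Pf.B 9 3 (Pf.B 9 5 (Pf.B 9 2 (Pf.B 9 1 (Pf.C 42 137) (Pf.W 59 9 [] [1,4,5,6,7,8] (Pf.cons (Pf.B 10 8 (Pf.B 10 7 (Pf.C 16 906) (Pf.B 10 6 (Pf.B 10 5 (Pf.B 10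 4 (Pf.C 16 522) (Pf.C 7 0x71410305)) (Pf.C 2 650)) (Pf.C 7 0x71418488))) (Pf.C 2 1034)) (Pf.cons (Pf.B 10 8 (Pf.C 28 1034) (Pf.B 10 1 (Pf.C 0 0x22440a) (Pf.C 3 138))) Pf.nil)))) (Pf.C 43 265)) (Pf.C 7 0x60a24383)) (Pf.C 43 393)) (Pf.C 4 521)) (Pf.C 4 777)) (Pf.C 4 905)) Pf.nil))) (Pf.C 0 0x404208)) (Pf.C 2 264)) (Pf.C 7 0x30e20305)) (Pf.C 2 392)) (Pf.C 2 648)) (Pf.C 41 1030)) (Pf.cons (Pf.B 8 7 (Pf.B 8 5 (Pf.C 5 0x20085) (Pf.B 8 4 (Pf.B 8 3 (Pf.C 5 0x20083) (Pf.B 8 2 (Pf.C 7 0x70620202) (Pf.W 60 8 [] [1,3,5,7] (Pf.cons (Pf.B 9 1 (Pf.C 5 0x20089) (Pf.C 19 137)) (Pf.cons (Pf.B 9 3 (Pf.C 30 393) (Pf.B 9 7 (Pf.B 9 5 (Pf.C 5 0x1c485) (Pf.C 0 0x620485)) (Pf.C 0 0x100c487))) Pf.nil))))) (Pf.C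 4 520))) (Pf.C 4 904)) Pf.nil)))) (Pf.C 7 0x4041c305)) (Pf.B 7 2 (Pf.C 7 0x60a1c202) (Pf.B 7 1 (Pf.W 60 7 [] [1,2,3] (Pf.cons (Pf.B 8 1 (Pf.C 5 0x1c088) (Pf.C 19 136)) (Pf.cons (Pf.B 8 3 (Pf.C 30 392) (Pf.B 8 2 (Pf.C 30 264) (Pf.C 0 0x61c402))) Pf.nil))) (Pf.C 0 0x808087)))) (Pf.C 4 519)) (Pf.C 4 775)) Pf.nil)))) (Pf.C 41 262)) (Pf.C 41 390)) (Pf.C 4 518)) Pf.nil))) (Pf.C 19 133)) (Pf.C 2 261)) (Pf.C 2 389)) (Pf.cons (Pf.B 5 2 (Pf.C 30 261) (Pf.B 5 1 (Pf.C 0 0x210105) (Pf.C 3 133))) Pf.nil)))) (Pf.B 4 1 (Pf.W 60 4 [] [1,2,3] (Pf.cons (Pf.B 5 1 (Pf.C 5 65669) (Pf.C 19 133)) (Pf.cons (Pf.B 5 3 (Pf.C 30 389) (Pf.B 5 2 (Pf.C 30 261) (Pf.C 0 0x610282))) Pf.nil))) (Pf.W 60 4 [] [1,2,3] (Pf.cons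 (Pf.B 5 3 (Pf.B 5 2 (Pf.B 5 1 (Pf.W 49 5 [] [2,3,4] (Pf.cons (Pf.B 6 4 (Pf.C 5 66309) (Pf.C 29 518)) (Pf.cons (Pf.B 6 4 (Pf.B 6 3 (Pf.B 6 2 (Pf.C 7 0x30808286) (Pf.C 41 262)) (Pf.C 41 390)) (Pf.C 4 518)) Pf.nil))) (Pf.C 19 133)) (Pf.C 2 261)) (Pf.C 2 389)) (Pf.cons (Pf.B 5 3 (Pf.C 30 389) (Pf.B 5 2 (Pf.C 30 261) (Pf.C 0 0x610282))) Pf.nil))))) Pf.nil))) (Pf.C 2 259)))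
 (Pq.cons (Pq.L [] 3 (Pf.B 3 2 (Pf.W 51 2 [] [1,3] (Pf.cons (Pf.B 4 3 (Pf.B 4 1 (Pf.C 5 16899) (Pf.W 55 4 [] [1,2,3] (Pf.cons (Pf.B 5 3 (Pf.B 5 2 (Pf.B 5 1 (Pf.C 18 133) (Pf.W 49 5 [] [1,2,3,4] (Pf.cons (Pf.B 6 4 (Pf.B 6 3 (Pf.C 28 390) (Pf.B 6 2 (Pf.C 28 262) (Pf.C 6 0x30c08284))) (Pf.C 3 518)) (Pf.cons (Pf.B 6 4 (Pf.C 40 518) (Pf.B 6 1 (Pf.C 0 0x214206) (Pf.C 4 134))) Pf.nil)))) (Pf.C 2 261)) (Pf.C 2 389)) (Pf.cons (Pf.B 5 3 (Pf.C 5 82435) (Pf.C 43 389)) Pf.nil)))) (Pf.B 4 1 (Pf.W 55 4 [] [1,2,3] (Pf.cons (Pf.B 5 3 (Pf.B 5 2 (Pf.B 5 1 (Pf.C 18 133) (Pf.W 51 3 [] [1,2,4,5] (Pf.cons (Pf.B 6 4 (Pf.B 6 1 (Pf.C 5 17155) (Pf.B 6 5 (Pf.B 6 2 (Pf.W 55 6 [] [1,2,3,4,5] (Pf.cons (Pf.B 7 5 (Pf.B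 7 3 (Pf.B 7 4 (Pf.C 6 0x5080c307) (Pf.B 7 2 (Pf.B 7 1 (Pf.C 18 135) (Pf.W 49 7 [] [2,4,6] (Pf.cons (Pf.B 8 6 (Pf.B 8 4 (Pf.B 8 2 (Pf.C 28 264) (Pf.C 6 0x60e10108)) (Pf.C 3 520)) (Pf.C 3 776)) (Pf.cons (Pf.B 8 6 (Pf.C 40 776) (Pf.B 8 4 (Pf.C 40 520) (Pf.C 0 0xc1c404))) Pf.nil)))) (Pf.C 2 263))) (Pf.C 2 391)) (Pf.C 2 647)) (Pf.cons (Pf.B 7 3 (Pf.C 5 0x1c303) (Pf.C 43 391)) Pf.nil))) (Pf.C 6 0x5080c106)) (Pf.B 6 2 (Pf.W 49 5 [] [2,4,6] (Pf.cons (Pf.B 7 6 (Pf.B 7 4 (Pf.B 7 2 (Pf.C 28 263) (Pf.C 6 0x60a10107)) (Pf.C 3 519)) (Pf.C 3 775)) (Pf.cons (Pf.B 7 6 (Pf.C 40 775) (Pf.B 7 4 (Pf.C 40 519) (Pf.C 0 0xc14384))) Pf.nil))) (Pf.C 0 0xa04302)))) (Pf.C 3 518)) (Pf.cons (Pf.B 6 1 (Pf.B 6 5 (Pf.B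 6 2 (Pf.C 7 0x50208186) (Pf.W 49 5 [] [2,3,6] (Pf.cons (Pf.B 7 6 (Pf.C 5 99205) (Pf.C 29 775)) (Pf.cons (Pf.B 7 6 (Pf.B 7 3 (Pf.B 7 2 (Pf.C 7 0x30c08287) (Pf.C 41 263)) (Pf.C 41 391)) (Pf.C 4 775)) Pf.nil)))) (Pf.B 6 4 (Pf.B 6 2 (Pf.C 5 98818) (Pf.W 60 6 [] [1,2,3,4,5] (Pf.cons (Pf.B 7 5 (Pf.B 7 4 (Pf.C 5 98823) (Pf.B 7 3 (Pf.B 7 2 (Pf.B 7 1 (Pf.C 18 135) (Pf.W 49 7 [] [3,4,5,6] (Pf.cons (Pf.B 8 6 (Pf.C 5 99335) (Pf.C 29 776)) (Pf.cons (Pf.B 8 6 (Pf.B 8 4 (Pf.C 40 520) (Pf.B 8 5 (Pf.B 8 3 (Pf.C 7 0x50c0c388) (Pf.C 41 392)) (Pf.C 0 0xe10405))) (Pf.C 4 776)) Pf.nil)))) (Pf.C 2 263)) (Pf.C 2 391))) (Pf.C 2 647)) (Pf.cons (Pf.B 7 3 (Pf.C 30 391) (Pf.B 7 2 (Pf.C 30 263) (Pf.C 0 0x618382))) Pf.nil))))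 (Pf.C 0 0xa10303))) (Pf.C 4 134)) Pf.nil)))) (Pf.C 2 261)) (Pf.C 2 389)) (Pf.cons (Pf.B 5 2 (Pf.C 5 82434) (Pf.C 43 261)) Pf.nil))) (Pf.W 55 4 [] [1,2,3] (Pf.cons (Pf.B 5 3 (Pf.B 5 2 (Pf.B 5 1 (Pf.C 18 133) (Pf.W 49 5 [] [1,2,3,4] (Pf.cons (Pf.B 6 4 (Pf.B 6 3 (Pf.C 28 390) (Pf.B 6 2 (Pf.C 28 262) (Pf.B 6 1 (Pf.W 53 6 [] [2,4,5] (Pf.cons (Pf.B 7 5 (Pf.B 7 4 (Pf.B 7 2 (Pf.C 6 0x20c1c284) (Pf.C 2 263)) (Pf.C 15 519)) (Pf.C 2 647)) (Pf.cons (Pf.B 7 5 (Pf.C 5 0x1c305) (Pf.C 39 647)) Pf.nil))) (Pf.C 29 134)))) (Pf.C 3 518)) (Pf.cons (Pf.B 6 4 (Pf.C 40 518) (Pf.B 6 1 (Pf.C 0 0x214206) (Pf.C 4 134))) Pf.nil)))) (Pf.C 2 261)) (Pf.C 2 389)) (Pf.cons (Pf.B 5 2 (Pf.C 5 82434) (Pf.C 43 261)) Pf.nil)))))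 (Pf.cons (Pf.B 4 1 (Pf.B 4 3 (Pf.W 51 3 [] [1,2,4] (Pf.cons (Pf.B 5 4 (Pf.C 5 66179) (Pf.B 5 1 (Pf.C 5 17027) (Pf.B 5 2 (Pf.W 55 5 [] [1,2,3,4] (Pf.cons (Pf.B 6 3 (Pf.B 6 2 (Pf.B 6 1 (Pf.C 18 134) (Pf.B 6 4 (Pf.W 49 6 [] [1,4,5] (Pf.cons (Pf.B 7 4 (Pf.C 5 66438) (Pf.C 29 519)) (Pf.cons (Pf.B 7 5 (Pf.C 40 647) (Pf.B 7 1 (Pf.C 0 0x218287) (Pf.C 4 135))) Pf.nil))) (Pf.C 0 0x214304))) (Pf.C 2 262)) (Pf.C 2 390)) (Pf.cons (Pf.B 6 3 (Pf.C 5 98947) (Pf.C 43 390)) Pf.nil))) (Pf.C 0 0x808281)))) (Pf.cons (Pf.B 5 4 (Pf.B 5 1 (Pf.B 5 2 (Pf.C 7 0x40404185) (Pf.W 60 5 [] [1,2,3] (Pf.cons (Pf.B 6 3 (Pf.B 6 2 (Pf.B 6 1 (Pf.C 18 134) (Pf.W 49 6 [] [2,3,5] (Pf.cons (Pf.B 7 5 (Pf.C 5 82822) (Pf.C 29 647))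 (Pf.cons (Pf.B 7 5 (Pf.B 7 3 (Pf.B 7 2 (Pf.C 7 0x30a08307) (Pf.C 41 263)) (Pf.C 41 391)) (Pf.C 4 647)) Pf.nil)))) (Pf.C 2 262)) (Pf.C 2 390)) (Pf.cons (Pf.B 6 3 (Pf.C 30 390) (Pf.B 6 2 (Pf.C 30 262) (Pf.C 0 0x614302))) Pf.nil)))) (Pf.C 4 133)) (Pf.C 4 517)) Pf.nil))) (Pf.W 60 4 [] [1,2,3] (Pf.cons (Pf.B 5 3 (Pf.B 5 2 (Pf.B 5 1 (Pf.C 18 133) (Pf.W 49 5 [] [2,3,4] (Pf.cons (Pf.B 6 4 (Pf.C 5 66309) (Pf.C 29 518)) (Pf.cons (Pf.B 6 4 (Pf.B 6 3 (Pf.B 6 2 (Pf.C 7 0x30808286) (Pf.C 41 262)) (Pf.C 41 390)) (Pf.C 4 518)) Pf.nil)))) (Pf.C 2 261)) (Pf.C 2 389)) (Pf.cons (Pf.B 5 3 (Pf.C 30 389) (Pf.B 5 2 (Pf.C 30 261) (Pf.C 0 0x610282))) Pf.nil)))) (Pf.C 4 132)) Pf.nil))) (Pf.C 2 259)))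
 (Pq.cons (Pq.L [] 1 (Pf.C 2 257))
 (Pq.cons (Pq.L [] 1 (Pf.C 164 257))
 (Pq.cons (Pq.L [] 3 (Pf.B 3 2 (Pf.W 51 3 [] [1,2] (Pf.cons (Pf.B 4 1 (Pf.C 5 16899) (Pf.C 33 132)) (Pf.cons (Pf.B 4 1 (Pf.B 4 2 (Pf.W 60 4 [] [1,2,3] (Pf.cons (Pf.B 5 3 (Pf.B 5 2 (Pf.B 5 1 (Pf.C 18 133) (Pf.C 7 0x20214203)) (Pf.C 2 261)) (Pf.C 2 389)) (Pf.cons (Pf.B 5 3 (Pf.C 30 389) (Pf.B 5 2 (Pf.C 30 261) (Pf.W 51 2 [] [1,3,4,5] (Pf.cons (Pf.B 6 5 (Pf.B 6 4 (Pf.C 5 66306) (Pf.B 6 3 (Pf.B 6 1 (Pf.C 5 17155) (Pf.C 33 134)) (Pf.C 0 0xa10186))) (Pf.C 3 646)) (Pf.cons (Pf.B 6 4 (Pf.B 6 1 (Pf.B 6 3 (Pf.C 7 0x10418203) (Pf.B 6 5 (Pf.W 60 6 [] [1,2,3,4,5] (Pf.cons (Pf.B 7 5 (Pf.C 5 98951) (Pf.B 7 3 (Pf.B 7 4 (Pf.B 7 1 (Pf.C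 18 135) (Pf.C 7 0x60610087)) (Pf.C 0 0x614207)) (Pf.C 2 391))) (Pf.cons (Pf.B 7 3 (Pf.C 30 391) (Pf.B 7 2 (Pf.C 30 263) (Pf.C 0 0x618382))) Pf.nil))) (Pf.C 0 0x80c286))) (Pf.C 4 134)) (Pf.C 4 518)) Pf.nil))))) Pf.nil))) (Pf.W 60 4 [] [1,2,3] (Pf.cons (Pf.B 5 3 (Pf.B 5 2 (Pf.B 5 1 (Pf.C 18 133) (Pf.W 49 5 [] [2,3,4] (Pf.cons (Pf.B 6 4 (Pf.C 5 66309) (Pf.C 29 518)) (Pf.cons (Pf.B 6 4 (Pf.B 6 3 (Pf.B 6 2 (Pf.C 7 0x30808286) (Pf.C 41 262)) (Pf.C 41 390)) (Pf.C 4 518)) Pf.nil)))) (Pf.C 2 261)) (Pf.C 2 389)) (Pf.cons (Pf.B 5 3 (Pf.C 30 389) (Pf.B 5 2 (Pf.C 30 261) (Pf.C 0 0x610282))) Pf.nil)))) (Pf.C 4 132)) Pf.nil))) (Pf.C 2 259)))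
 (Pq.cons (Pq.L [] 1 (Pf.C 2 257))
 (Pq.cons (Pq.L [] 1 (Pf.C 23 130))
 (Pq.cons (Pq.L [] 2 (Pf.C 22 131))
 (Pq.cons (Pq.L [] 3 (Pf.B 3 2 (Pf.W 157 2 [] [1,3] (Pf.cons (Pf.B 4 1 (Pf.B 4 3 (Pf.W 157 3 [] [1,2,4] (Pf.cons (Pf.B 5 4 (Pf.B 5 1 (Pf.B 5 2 (Pf.C 6 0x40404185) (Pf.W 50 5 [] [1,2,3] (Pf.cons (Pf.B 6 3 (Pf.B 6 2 (Pf.B 6 1 (Pf.C 30 134) (Pf.W 54 6 [] [2,3,5] (Pf.cons (Pf.B 7 5 (Pf.B 7 3 (Pf.B 7 2 (Pf.C 6 0x30a08307) (Pf.C 17 263)) (Pf.C 17 391)) (Pf.C 2 647)) (Pf.cons (Pf.B 7 5 (Pf.C 5 0x1c305) (Pf.C 41 647)) Pf.nil)))) (Pf.C 3 262)) (Pf.C 3 390)) (Pf.cons (Pf.B 6 3 (Pf.C 42 390) (Pf.B 6 2 (Pf.C 42 262) (Pf.C 0 0x614302))) Pf.nil)))) (Pf.C 2 133)) (Pf.C 2 517)) Pf.nil)) (Pf.W 50 4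 [] [1,2,3] (Pf.cons (Pf.B 5 3 (Pf.B 5 2 (Pf.B 5 1 (Pf.C 30 133) (Pf.W 54 5 [] [2,3,4] (Pf.cons (Pf.B 6 4 (Pf.B 6 3 (Pf.B 6 2 (Pf.C 6 0x30808286) (Pf.C 17 262)) (Pf.C 17 390)) (Pf.C 2 518)) (Pf.cons (Pf.B 6 4 (Pf.C 5 98948) (Pf.C 41 518)) Pf.nil)))) (Pf.C 3 261)) (Pf.C 3 389)) (Pf.cons (Pf.B 5 3 (Pf.C 42 389) (Pf.B 5 2 (Pf.C 42 261) (Pf.C 0 0x610282))) Pf.nil)))) (Pf.C 2 132)) Pf.nil)) (Pf.C 3 259)))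
 (Pq.cons (Pq.L [] 1 (Pf.C 3 257))
 (Pq.cons (Pq.L [] 2 (Pf.B 3 2 (Pf.W 157 2 [] [1,3] (Pf.cons (Pf.B 4 1 (Pf.B 4 3 (Pf.C 5 16772) (Pf.W 50 4 [] [1,2,3] (Pf.cons (Pf.B 5 1 (Pf.C 5 17028) (Pf.C 31 133)) (Pf.cons (Pf.B 5 3 (Pf.C 42 389) (Pf.B 5 2 (Pf.C 42 261) (Pf.C 0 0x610282))) Pf.nil)))) (Pf.C 154 132)) Pf.nil)) (Pf.C 3 259)))
 (Pq.cons (Pq.L [] 3 (Pf.B 3 2 (Pf.W 56 3 [] [1,2] (Pf.cons (Pf.B 4 1 (Pf.B 4 2 (Pf.W 157 2 [] [1,3,4] (Pf.cons (Pf.B 5 4 (Pf.B 5 1 (Pf.B 5 3 (Pf.C 6 0x10414203) (Pf.W 50 4 [] [1,2,3,5] (Pf.cons (Pf.B 6 3 (Pf.B 6 2 (Pf.B 6 1 (Pf.C 30 134) (Pf.C 6 0x20218203)) (Pf.C 3 262)) (Pf.C 3 390)) (Pf.cons (Pf.B 6 3 (Pf.C 42 390) (Pf.B 6 5 (Pf.W 50 5 [] [1,2,3,4,6] (Pf.cons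 (Pf.B 7 6 (Pf.C 5 99205) (Pf.B 7 3 (Pf.B 7 4 (Pf.B 7 1 (Pf.C 30 135) (Pf.C 6 0x50610087)) (Pf.C 0 0x618207)) (Pf.C 3 391))) (Pf.cons (Pf.B 7 3 (Pf.C 42 391) (Pf.B 7 2 (Pf.C 42 263) (Pf.C 0 0x614382))) Pf.nil))) (Pf.C 0 0x80c305))) Pf.nil)))) (Pf.C 2 133)) (Pf.C 2 517)) Pf.nil)) (Pf.W 50 4 [] [1,2,3] (Pf.cons (Pf.B 5 3 (Pf.B 5 2 (Pf.B 5 1 (Pf.C 30 133) (Pf.W 54 5 [] [2,3,4] (Pf.cons (Pf.B 6 4 (Pf.B 6 3 (Pf.B 6 2 (Pf.C 6 0x30808286) (Pf.C 17 262)) (Pf.C 17 390)) (Pf.C 2 518)) (Pf.cons (Pf.B 6 4 (Pf.C 5 98948) (Pf.C 41 518)) Pf.nil)))) (Pf.C 3 261)) (Pf.C 3 389)) (Pf.cons (Pf.B 5 3 (Pf.C 42 389) (Pf.B 5 2 (Pf.C 42 261) (Pf.C 0 0x610282))) Pf.nil)))) (Pf.C 2 132)) (Pf.cons (Pf.B 4 1 (Pf.C 5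 65921) (Pf.C 45 132)) Pf.nil))) (Pf.C 3 259)))
 (Pq.cons (Pq.L [] 1 (Pf.C 3 257))
 (Pq.cons (Pq.L [] 1 (Pf.C 166 257))
 (Pq.cons (Pq.L [] 2 (Pf.C 34 131))
 (Pq.cons (Pq.L [] 1 (Pf.C 3 257))
 (Pq.cons (Pq.L [] 1 (Pf.C 35 130))
 Pq.nil)))))))))))))))))))))))))))))))))))))))))))))))))))))))))))))))))))))))))))))))))))))))))))))))))))))))))))))))))))))))))))))))))))))))))))))))))))))))))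
theorem e4_o7 : AllRef e4_T e4_G14 (List.take 153 (splitObl [18,26,34,19,27,35,20,28,36,21,29,37,96,30,97,99,101,103,105,107,109] [100,102,104,106,108,110,25,33,41])) :=
  chkPq_sound e4_o7c _ (by decide +kernel)
noncomputable def e4_o8c : Pq := (Pq.cons (Pq.L [] 3 (Pf.B 3 2 (Pf.W 159 2 [] [1,3] (Pf.cons (Pf.B 4 3 (Pf.B 4 1 (Pf.C 5 49665) (Pf.W 159 3 [] [1,2,4] (Pf.cons (Pf.B 5 4 (Pf.B 5 2 (Pf.B 5 1 (Pf.W 55 4 [] [1,2,3,5] (Pf.cons (Pf.B 6 2 (Pf.C 18 262) (Pf.B 6 1 (Pf.C 0 0x210106) (Pf.C 2 134))) (Pf.cons (Pf.B 6 3 (Pf.B 6 2 (Pf.B 6 5 (Pf.B 6 1 (Pf.C 5 98945) (Pf.C 43 134)) (Pf.C 8 0x30a18202)) (Pf.C 4 262)) (Pf.C 4 390)) Pf.nil))) (Pf.W 55 4 [] [1,2,3,5] (Pf.cons (Pf.B 6 2 (Pf.C 18 262)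 (Pf.B 6 1 (Pf.C 0 0x210106) (Pf.C 2 134))) (Pf.cons (Pf.B 6 3 (Pf.B 6 2 (Pf.B 6 5 (Pf.B 6 1 (Pf.W 59 6 [] [1,2,3,4,5] (Pf.cons (Pf.B 7 5 (Pf.C 5 98951) (Pf.C 17 647)) (Pf.cons (Pf.B 7 5 (Pf.B 7 4 (Pf.B 7 3 (Pf.B 7 1 (Pf.C 28 135) (Pf.W 51 1 [] [2,3,4,5,6,7] (Pf.cons (Pf.B 8 6 (Pf.C 5 99329) (Pf.B 8 5 (Pf.B 8 4 (Pf.B 8 3 (Pf.C 5 50177) (Pf.B 8 2 (Pf.C 8 0x50620202) (Pf.W 55 8 [] [1,3,5,6] (Pf.cons (Pf.B 9 3 (Pf.C 18 393) (Pf.B 9 6 (Pf.B 9 5 (Pf.C 5 98953) (Pf.C 0 0x100c485)) (Pf.C 0 0x620486))) (Pf.cons (Pf.B 9 1 (Pf.C 5 0x24401) (Pf.C 43 137)) Pf.nil))))) (Pf.C 3 520)) (Pf.C 3 648))) (Pf.cons (Pf.B 8 7 (Pf.B 8 6 (Pf.B 8 3 (Pf.B 8 5 (Pf.B 8 2 (Pf.B 8 4 (Pf.W 60 8 [] [1,2,3,4,5,6,7] (Pf.cons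 (Pf.B 9 4 (Pf.C 5 0x20209) (Pf.B 9 2 (Pf.C 18 265) (Pf.B 9 1 (Pf.C 0 0x210109) (Pf.C 2 137)))) (Pf.cons (Pf.B 9 7 (Pf.B 9 5 (Pf.B 9 4 (Pf.B 9 3 (Pf.B 9 6 (Pf.B 9 2 (Pf.B 9 1 (Pf.C 30 137) (Pf.W 54 9 [] [1,4,5,6,7,8] (Pf.cons (Pf.B 10 8 (Pf.C 16 1034) (Pf.B 10 1 (Pf.C 0 0x22440a) (Pf.C 2 138))) (Pf.cons (Pf.B 10 8 (Pf.B 10 6 (Pf.B 10 7 (Pf.B 10 5 (Pf.C 40 650) (Pf.B 10 4 (Pf.C 40 522) (Pf.C 8 0x51410386))) (Pf.C 8 0x60e28488)) (Pf.C 4 778)) (Pf.C 4 1034)) Pf.nil)))) (Pf.C 31 265)) (Pf.C 8 0x70c24283)) (Pf.C 31 393)) (Pf.C 3 521)) (Pf.C 3 649)) (Pf.C 3 905)) Pf.nil))) (Pf.C 0 0x404208)) (Pf.C 4 264)) (Pf.C 8 0x30a20386)) (Pf.C 4 392)) (Pf.C 4 776)) (Pf.C 29 1031)) Pf.nil)))) (Pf.C 29 391))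 (Pf.C 3 519)) (Pf.C 3 647)) Pf.nil))) (Pf.C 43 134)) (Pf.C 8 0x30a18202)) (Pf.C 4 262)) (Pf.C 4 390)) Pf.nil)))) (Pf.B 5 1 (Pf.W 55 5 [] [1,2,3] (Pf.cons (Pf.B 6 3 (Pf.C 18 390) (Pf.B 6 2 (Pf.C 18 262) (Pf.C 0 0x614302))) (Pf.cons (Pf.B 6 1 (Pf.C 5 98945) (Pf.C 43 134)) Pf.nil))) (Pf.C 0 0x808085))) (Pf.C 3 517)) Pf.nil))) (Pf.B 4 1 (Pf.W 55 4 [] [1,2,3] (Pf.cons (Pf.B 5 3 (Pf.C 18 389) (Pf.B 5 2 (Pf.C 18 261) (Pf.C 0 0x610282))) (Pf.cons (Pf.B 5 1 (Pf.C 5 82433) (Pf.C 43 133)) Pf.nil))) (Pf.W 55 4 [] [1,2,3] (Pf.cons (Pf.B 5 3 (Pf.C 18 389) (Pf.B 5 2 (Pf.C 18 261) (Pf.C 0 0x610282))) (Pf.cons (Pf.B 5 3 (Pf.B 5 2 (Pf.B 5 1 (Pf.W 59 5 [] [2,3,4] (Pf.cons (Pf.B 6 4 (Pf.C 5 82438) (Pf.C 17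 518)) (Pf.cons (Pf.B 6 4 (Pf.B 6 3 (Pf.B 6 2 (Pf.C 8 0x30808286) (Pf.C 29 262)) (Pf.C 29 390)) (Pf.C 3 518)) Pf.nil))) (Pf.C 43 133)) (Pf.C 4 261)) (Pf.C 4 389)) Pf.nil))))) Pf.nil)) (Pf.C 4 259)))
 (Pq.cons (Pq.L [] 3 (Pf.B 3 2 (Pf.W 159 2 [] [1,3] (Pf.cons (Pf.B 4 1 (Pf.B 4 3 (Pf.W 159 3 [] [1,2,4] (Pf.cons (Pf.B 5 4 (Pf.B 5 1 (Pf.B 5 2 (Pf.C 8 0x40404185) (Pf.W 55 5 [] [1,2,3] (Pf.cons (Pf.B 6 3 (Pf.C 18 390) (Pf.B 6 2 (Pf.C 18 262) (Pf.C 0 0x614302))) (Pf.cons (Pf.B 6 3 (Pf.B 6 2 (Pf.B 6 1 (Pf.C 42 134) (Pf.W 59 6 [] [2,3,5] (Pf.cons (Pf.B 7 5 (Pf.C 5 98951) (Pf.C 17 647)) (Pf.cons (Pf.B 7 5 (Pf.B 7 3 (Pf.B 7 2 (Pf.C 8 0x30a08307) (Pf.C 29 263)) (Pf.C 29 391)) (Pf.C 3 647)) Pf.nil))))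 (Pf.C 4 262)) (Pf.C 4 390)) Pf.nil)))) (Pf.C 3 133)) (Pf.C 3 517)) Pf.nil)) (Pf.W 55 4 [] [1,2,3] (Pf.cons (Pf.B 5 3 (Pf.C 18 389) (Pf.B 5 2 (Pf.C 18 261) (Pf.C 0 0x610282))) (Pf.cons (Pf.B 5 3 (Pf.B 5 2 (Pf.B 5 1 (Pf.C 42 133) (Pf.W 59 5 [] [2,3,4] (Pf.cons (Pf.B 6 4 (Pf.C 5 82438) (Pf.C 17 518)) (Pf.cons (Pf.B 6 4 (Pf.B 6 3 (Pf.B 6 2 (Pf.C 8 0x30808286) (Pf.C 29 262)) (Pf.C 29 390)) (Pf.C 3 518)) Pf.nil)))) (Pf.C 4 261)) (Pf.C 4 389)) Pf.nil)))) (Pf.C 3 132)) Pf.nil)) (Pf.C 4 259)))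
 (Pq.cons (Pq.L [] 1 (Pf.C 4 257))
 (Pq.cons (Pq.L [] 1 (Pf.C 162 257))
 (Pq.cons (Pq.L [] 3 (Pf.B 3 2 (Pf.W 61 3 [] [1,2] (Pf.cons (Pf.B 4 1 (Pf.C 5 49284) (Pf.C 21 132)) (Pf.cons (Pf.B 4 1 (Pf.B 4 2 (Pf.W 159 2 [] [1,3,4] (Pf.cons (Pf.B 5 4 (Pf.B 5 1 (Pf.B 5 3 (Pf.C 8 0x10414203) (Pf.W 55 4 [] [1,2,3,5] (Pf.cons (Pf.B 6 3 (Pf.C 18 390) (Pf.B 6 5 (Pf.W 55 5 [] [1,2,3,4,6] (Pf.cons (Pf.B 7 3 (Pf.C 18 391) (Pf.B 7 2 (Pf.C 18 263) (Pf.C 0 0x614382))) (Pf.cons (Pf.B 7 6 (Pf.C 5 0x1c286) (Pf.B 7 3 (Pf.B 7 4 (Pf.B 7 1 (Pf.C 42 135) (Pf.C 8 0x50610087)) (Pf.C 0 0x618207)) (Pf.C 4 391))) Pf.nil))) (Pf.C 0 0x80c305))) (Pf.cons (Pf.B 6 3 (Pf.B 6 2 (Pf.B 6 1 (Pf.C 42 134) (Pf.C 8 0x20218203)) (Pf.C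 4 262)) (Pf.C 4 390)) Pf.nil)))) (Pf.C 3 133)) (Pf.C 3 517)) Pf.nil)) (Pf.W 55 4 [] [1,2,3] (Pf.cons (Pf.B 5 3 (Pf.C 18 389) (Pf.B 5 2 (Pf.C 18 261) (Pf.C 0 0x610282))) (Pf.cons (Pf.B 5 3 (Pf.B 5 2 (Pf.B 5 1 (Pf.C 42 133) (Pf.W 59 5 [] [2,3,4] (Pf.cons (Pf.B 6 4 (Pf.C 5 82438) (Pf.C 17 518)) (Pf.cons (Pf.B 6 4 (Pf.B 6 3 (Pf.B 6 2 (Pf.C 8 0x30808286) (Pf.C 29 262)) (Pf.C 29 390)) (Pf.C 3 518)) Pf.nil)))) (Pf.C 4 261)) (Pf.C 4 389)) Pf.nil)))) (Pf.C 3 132)) Pf.nil))) (Pf.C 4 259)))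
 (Pq.cons (Pq.L [] 1 (Pf.C 4 257))
 (Pq.cons (Pq.L [] 1 (Pf.C 47 130))
 (Pq.cons (Pq.L [] 2 (Pf.C 46 131))
 (Pq.cons (Pq.L [] 1 (Pf.C 4 257))
 (Pq.cons (Pq.L [] 1 (Pf.C 2 257))
 (Pq.cons (Pq.L [] 3 (Pf.B 3 2 (Pf.W 56 1 [] [2,3] (Pf.cons (Pf.B 4 3 (Pf.B 4 2 (Pf.W 161 2 [] [1,3,4] (Pf.cons (Pf.B 5 4 (Pf.B 5 3 (Pf.B 5 1 (Pf.C 5 82051) (Pf.W 159 5 [] [1,2] (Pf.cons (Pf.B 6 2 (Pf.C 32 262) (Pf.B 6 1 (Pf.C 0 0x214106) (Pf.C 3 134))) Pf.nil))) (Pf.W 50 4 [] [2,3,5] (Pf.cons (Pf.B 6 5 (Pf.C 5 82692) (Pf.C 31 646)) (Pf.cons (Pf.B 6 5 (Pf.B 6 3 (Pf.B 6 2 (Pf.C 7 0x30a08206) (Pf.C 43 262)) (Pf.C 43 390)) (Pf.C 4 646)) Pf.nil)))) (Pf.B 5 1 (Pf.B 5 3 (Pf.C 5 82051) (Pf.W 159 5 [] [2,3] (Pf.cons (Pf.B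 6 3 (Pf.C 32 390) (Pf.B 6 2 (Pf.C 32 262) (Pf.C 0 0x614302))) Pf.nil))) (Pf.C 0 0x804282))) Pf.nil)) (Pf.C 2 260)) (Pf.C 2 388)) (Pf.cons (Pf.B 4 3 (Pf.C 5 65667) (Pf.C 45 388)) Pf.nil))) (Pf.C 2 259)))
 (Pq.cons (Pq.L [] 1 (Pf.B 3 2 (Pf.W 61 1 [] [2,3] (Pf.cons (Pf.B 4 3 (Pf.B 4 2 (Pf.W 161 2 [] [1,3,4] (Pf.cons (Pf.B 5 1 (Pf.B 5 4 (Pf.W 50 4 [] [1,2,5] (Pf.cons (Pf.B 6 5 (Pf.C 5 82692) (Pf.C 31 646)) (Pf.cons (Pf.B 6 5 (Pf.B 6 2 (Pf.B 6 1 (Pf.C 7 0x50404206) (Pf.C 4 134)) (Pf.C 43 262)) (Pf.C 4 646)) Pf.nil))) (Pf.B 5 3 (Pf.W 159 5 [] [1,2,4] (Pf.cons (Pf.B 6 2 (Pf.C 32 262) (Pf.B 6 4 (Pf.B 6 1 (Pf.C 5 17156) (Pf.C 160 769)) (Pf.C 0 0x414304))) Pf.nil)) (Pf.W 159 5 [] [2,3] (Pf.cons (Pf.B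 6 3 (Pf.C 32 390) (Pf.B 6 2 (Pf.C 32 262) (Pf.C 0 0x614302))) Pf.nil)))) (Pf.C 4 133)) Pf.nil)) (Pf.C 2 260)) (Pf.C 2 388)) (Pf.cons (Pf.C 160 513) Pf.nil))) (Pf.C 2 259)))
 (Pq.cons (Pq.L [] 1 (Pf.C 2 257))
 (Pq.cons (Pq.L [] 3 (Pf.B 3 2 (Pf.W 161 2 [] [1,3] (Pf.cons (Pf.B 4 3 (Pf.B 4 1 (Pf.C 5 65667) (Pf.W 159 4 [] [1,2] (Pf.cons (Pf.B 5 2 (Pf.C 32 261) (Pf.B 5 1 (Pf.C 0 0x210105) (Pf.C 3 133))) Pf.nil))) (Pf.W 159 4 [] [2,3] (Pf.cons (Pf.B 5 3 (Pf.C 32 389) (Pf.B 5 2 (Pf.C 32 261) (Pf.C 0 0x610282))) Pf.nil))) Pf.nil)) (Pf.C 2 259)))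
 (Pq.cons (Pq.L [] 3 (Pf.B 3 2 (Pf.W 161 2 [] [1,3] (Pf.cons (Pf.B 4 1 (Pf.B 4 3 (Pf.W 161 3 [] [1,2,4] (Pf.cons (Pf.B 5 4 (Pf.B 5 1 (Pf.B 5 2 (Pf.C 7 0x40404185) (Pf.W 159 5 [] [2,3] (Pf.cons (Pf.B 6 3 (Pf.C 32 390) (Pf.B 6 2 (Pf.C 32 262) (Pf.C 0 0x614302))) Pf.nil))) (Pf.C 4 133)) (Pf.C 4 517)) Pf.nil)) (Pf.W 159 4 [] [2,3] (Pf.cons (Pf.B 5 3 (Pf.C 32 389) (Pf.B 5 2 (Pf.C 32 261) (Pf.C 0 0x610282))) Pf.nil))) (Pf.C 4 132)) Pf.nil)) (Pf.C 2 259)))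
 (Pq.cons (Pq.L [] 1 (Pf.C 2 257))
 (Pq.cons (Pq.L [] 1 (Pf.B 3 2 (Pf.W 161 2 [] [1,3] (Pf.cons (Pf.B 4 1 (Pf.C 46 132) (Pf.B 4 3 (Pf.W 159 4 [] [1,2] (Pf.cons (Pf.B 5 2 (Pf.C 32 261) (Pf.B 5 1 (Pf.C 0 0x210105) (Pf.C 3 133))) Pf.nil)) (Pf.W 159 4 [] [2,3] (Pf.cons (Pf.B 5 3 (Pf.C 32 389) (Pf.B 5 2 (Pf.C 32 261) (Pf.C 0 0x610282))) Pf.nil)))) Pf.nil)) (Pf.C 2 259)))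
 (Pq.cons (Pq.L [] 3 (Pf.B 3 2 (Pf.W 161 2 [] [1,3] (Pf.cons (Pf.B 4 1 (Pf.B 4 3 (Pf.W 161 3 [] [1,2,4] (Pf.cons (Pf.B 5 4 (Pf.B 5 1 (Pf.B 5 2 (Pf.C 7 0x40404185) (Pf.W 159 5 [] [2,3] (Pf.cons (Pf.B 6 3 (Pf.C 32 390) (Pf.B 6 2 (Pf.C 32 262) (Pf.C 0 0x614302))) Pf.nil))) (Pf.C 4 133)) (Pf.C 4 517)) Pf.nil)) (Pf.W 159 4 [] [2,3] (Pf.cons (Pf.B 5 3 (Pf.C 32 389) (Pf.B 5 2 (Pf.C 32 261) (Pf.C 0 0x610282))) Pf.nil))) (Pf.C 4 132)) Pf.nil)) (Pf.C 2 259)))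
 (Pq.cons (Pq.L [] 3 (Pf.B 3 2 (Pf.W 163 2 [] [1,3] (Pf.cons (Pf.B 4 1 (Pf.B 4 3 (Pf.W 163 3 [] [1,2,4] (Pf.cons (Pf.B 5 4 (Pf.B 5 1 (Pf.B 5 2 (Pf.C 6 0x40404185) (Pf.W 155 5 [] [2,3] (Pf.cons (Pf.B 6 3 (Pf.C 44 390) (Pf.B 6 2 (Pf.C 44 262) (Pf.C 0 0x614302))) Pf.nil))) (Pf.C 2 133)) (Pf.C 2 517)) Pf.nil)) (Pf.W 155 4 [] [2,3] (Pf.cons (Pf.B 5 3 (Pf.C 44 389) (Pf.B 5 2 (Pf.C 44 261) (Pf.C 0 0x610282))) Pf.nil))) (Pf.C 2 132)) Pf.nil)) (Pf.C 3 259)))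
 (Pq.cons (Pq.L [] 1 (Pf.C 3 257))
 (Pq.cons (Pq.L [] 3 (Pf.B 3 2 (Pf.W 61 1 [] [2,3] (Pf.cons (Pf.B 4 3 (Pf.C 5 16772) (Pf.C 21 388)) (Pf.cons (Pf.B 4 3 (Pf.B 4 2 (Pf.W 57 2 [] [1,3,4] (Pf.cons (Pf.B 5 4 (Pf.W 55 4 [] [1,2,3,5] (Pf.cons (Pf.B 6 5 (Pf.B 6 3 (Pf.B 6 2 (Pf.B 6 1 (Pf.C 18 134) (Pf.W 49 6 [] [1,2,4,5] (Pf.cons (Pf.B 7 5 (Pf.C 28 647) (Pf.B 7 4 (Pf.B 7 2 (Pf.C 6 0x20a1c304) (Pf.C 3 263)) (Pf.C 3 519))) (Pf.cons (Pf.B 7 4 (Pf.C 40 519) (Pf.B 7 1 (Pf.C 0 0x218207) (Pf.C 4 135))) Pf.nil)))) (Pf.C 19 262)) (Pf.C 19 390)) (Pf.C 2 646)) (Pf.cons (Pf.B 6 5 (Pf.C 5 98821) (Pf.C 43 646)) Pf.nil))) (Pf.B 5 1 (Pf.B 5 3 (Pf.C 5 16773) (Pf.W 51 5 [] [1,2,3] (Pf.cons (Pf.B 6 3 (Pf.B 6 2 (Pf.B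 6 1 (Pf.C 5 17157) (Pf.W 55 6 [] [2,3,5] (Pf.cons (Pf.B 7 5 (Pf.B 7 3 (Pf.B 7 2 (Pf.C 6 0x30a08307) (Pf.C 19 263)) (Pf.C 19 391)) (Pf.C 2 647)) (Pf.cons (Pf.B 7 5 (Pf.C 5 0x1c305) (Pf.C 43 647)) Pf.nil)))) (Pf.C 3 262)) (Pf.C 3 390)) (Pf.cons (Pf.B 6 3 (Pf.C 44 390) (Pf.B 6 2 (Pf.C 44 262) (Pf.C 0 0x614302))) Pf.nil)))) (Pf.C 0 0x804282))) (Pf.cons (Pf.B 5 1 (Pf.B 5 4 (Pf.B 5 3 (Pf.W 61 5 [] [1,2,3,4] (Pf.cons (Pf.B 6 3 (Pf.C 5 82310) (Pf.C 21 390)) (Pf.cons (Pf.B 6 4 (Pf.B 6 3 (Pf.B 6 2 (Pf.B 6 1 (Pf.C 8 0x40208286) (Pf.W 55 6 [] [1,2,3,5] (Pf.cons (Pf.B 7 5 (Pf.C 18 647) (Pf.B 7 1 (Pf.C 18 135) (Pf.C 0 0xa18381))) (Pf.cons (Pf.B 7 5 (Pf.B 7 3 (Pf.C 42 391) (Pf.B 7 2 (Pf.C 42 263) (Pf.C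 8 0x30e08305))) (Pf.C 4 647)) Pf.nil)))) (Pf.C 3 262)) (Pf.C 3 390)) (Pf.C 3 518)) Pf.nil))) (Pf.C 8 0x40208185)) (Pf.W 55 4 [] [1,2,3,5] (Pf.cons (Pf.B 6 5 (Pf.C 18 646) (Pf.B 6 1 (Pf.C 18 134) (Pf.C 0 0xa10301))) (Pf.cons (Pf.B 6 5 (Pf.B 6 3 (Pf.C 42 390) (Pf.B 6 2 (Pf.C 42 262) (Pf.B 6 1 (Pf.W 59 6 [] [2,4,5] (Pf.cons (Pf.B 7 4 (Pf.C 5 98823) (Pf.C 17 519)) (Pf.cons (Pf.B 7 5 (Pf.B 7 4 (Pf.B 7 2 (Pf.C 8 0x20c1c284) (Pf.C 3 263)) (Pf.C 3 519)) (Pf.C 29 647)) Pf.nil))) (Pf.C 4 134)))) (Pf.C 4 646)) Pf.nil)))) (Pf.C 4 133)) Pf.nil))) (Pf.C 3 260)) (Pf.C 3 388)) Pf.nil))) (Pf.C 3 259)))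
 (Pq.cons (Pq.L [] 3 (Pf.B 3 2 (Pf.W 52 1 [] [2,3] (Pf.cons (Pf.B 4 3 (Pf.B 4 2 (Pf.W 56 4 [] [1,2,3] (Pf.cons (Pf.B 5 3 (Pf.B 5 2 (Pf.B 5 1 (Pf.W 50 5 [] [1,2,3,4] (Pf.cons (Pf.B 6 4 (Pf.B 6 2 (Pf.B 6 1 (Pf.C 30 134) (Pf.C 6 0x20218284)) (Pf.C 3 262)) (Pf.C 3 518)) (Pf.cons (Pf.B 6 4 (Pf.C 42 518) (Pf.B 6 3 (Pf.C 42 390) (Pf.B 6 2 (Pf.C 42 262) (Pf.W 57 2 [] [1,3,4,5,6] (Pf.cons (Pf.B 7 6 (Pf.B 7 5 (Pf.B 7 1 (Pf.B 7 4 (Pf.C 6 0x1041c284) (Pf.B 7 3 (Pf.W 51 7 [] [1,2,4,5,6] (Pf.cons (Pf.B 8 6 (Pf.C 5 99335) (Pf.B 8 4 (Pf.B 8 5 (Pf.B 8 1 (Pf.C 32 136) (Pf.C 6 0x70814088)) (Pf.C 0 0x818288)) (Pf.C 3 520))) (Pf.cons (Pf.B 8 2 (Pf.C 44 264) (Pf.B 8 4 (Pf.B 8 1 (Pf.C 5 0x20201) (Pf.C 45 136))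 (Pf.C 0 0x41c404))) Pf.nil))) (Pf.W 51 7 [] [1,2,3,4] (Pf.cons (Pf.B 8 4 (Pf.B 8 3 (Pf.B 8 1 (Pf.C 32 136) (Pf.C 6 0x40e0c088)) (Pf.C 3 392)) (Pf.C 3 520)) (Pf.cons (Pf.B 8 3 (Pf.C 44 392) (Pf.B 8 2 (Pf.C 44 264) (Pf.C 0 0x61c402))) Pf.nil))))) (Pf.C 2 135)) (Pf.C 2 647)) (Pf.C 43 902)) (Pf.cons (Pf.B 7 6 (Pf.B 7 5 (Pf.C 5 0x1c105) (Pf.B 7 4 (Pf.B 7 1 (Pf.C 5 0x1c201) (Pf.B 7 3 (Pf.W 61 7 [] [1,2,3,4,5,6] (Pf.cons (Pf.B 8 3 (Pf.C 5 0x1c188) (Pf.C 21 392)) (Pf.cons (Pf.B 8 4 (Pf.B 8 3 (Pf.B 8 6 (Pf.C 8 0x40c0c388) (Pf.B 8 5 (Pf.B 8 2 (Pf.B 8 1 (Pf.C 32 136) (Pf.C 6 0x20220284)) (Pf.C 3 264)) (Pf.C 0 0x818288))) (Pf.C 3 392)) (Pf.C 3 520)) Pf.nil))) (Pf.W 61 7 [] [1,2,4,5,6] (Pf.cons (Pf.B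 8 2 (Pf.C 5 0x1c108) (Pf.C 21 264)) (Pf.cons (Pf.B 8 4 (Pf.B 8 2 (Pf.B 8 6 (Pf.C 8 0x40c08388) (Pf.B 8 5 (Pf.B 8 1 (Pf.C 32 136) (Pf.C 6 0x20220284)) (Pf.C 0 0x818288))) (Pf.C 3 264)) (Pf.C 3 520)) Pf.nil))))) (Pf.C 0 0xc14207))) (Pf.C 4 775)) Pf.nil)))))) Pf.nil))) (Pf.C 2 133)) (Pf.C 21 261)) (Pf.C 21 389)) (Pf.cons (Pf.B 5 1 (Pf.C 5 82433) (Pf.C 45 133)) Pf.nil))) (Pf.C 3 260)) (Pf.C 3 388)) (Pf.cons (Pf.B 4 3 (Pf.B 4 2 (Pf.W 61 4 [] [1,2,3] (Pf.cons (Pf.B 5 3 (Pf.C 5 65925) (Pf.C 21 389)) (Pf.cons (Pf.B 5 3 (Pf.B 5 2 (Pf.B 5 1 (Pf.C 32 133) (Pf.W 55 5 [] [1,2,3,4] (Pf.cons (Pf.B 6 4 (Pf.C 18 518) (Pf.B 6 1 (Pf.C 0 0x214206) (Pf.C 2 134))) (Pf.cons (Pf.B 6 4 (Pf.B 6 3 (Pf.C 42 390) (Pf.B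 6 2 (Pf.C 42 262) (Pf.C 8 0x30c08284))) (Pf.C 4 518)) Pf.nil)))) (Pf.C 3 261)) (Pf.C 3 389)) Pf.nil))) (Pf.W 61 4 [] [1,2,3] (Pf.cons (Pf.B 5 3 (Pf.C 5 65925) (Pf.C 21 389)) (Pf.cons (Pf.B 5 2 (Pf.B 5 1 (Pf.C 32 133) (Pf.C 0 0x410085)) (Pf.C 3 261)) Pf.nil)))) (Pf.B 4 2 (Pf.W 61 4 [] [1,2,3] (Pf.cons (Pf.B 5 2 (Pf.C 5 65797) (Pf.C 21 261)) (Pf.cons (Pf.B 5 3 (Pf.B 5 2 (Pf.B 5 1 (Pf.C 32 133) (Pf.W 55 5 [] [1,2,3,4] (Pf.cons (Pf.B 6 4 (Pf.C 18 518) (Pf.B 6 1 (Pf.C 0 0x214206) (Pf.C 2 134))) (Pf.cons (Pf.B 6 4 (Pf.B 6 3 (Pf.C 42 390) (Pf.B 6 2 (Pf.C 42 262) (Pf.B 6 1 (Pf.W 59 6 [] [2,4,5] (Pf.cons (Pf.B 7 5 (Pf.C 5 98951) (Pf.C 17 647)) (Pf.cons (Pf.B 7 5 (Pf.B 7 4 (Pf.B 7 2 (Pf.C 8 0x20c1c284)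 (Pf.C 3 263)) (Pf.C 29 519)) (Pf.C 3 647)) Pf.nil))) (Pf.C 43 134)))) (Pf.C 4 518)) Pf.nil)))) (Pf.C 3 261)) (Pf.C 3 389)) Pf.nil))) (Pf.W 61 4 [] [1,2,3] (Pf.cons (Pf.B 5 3 (Pf.B 5 2 (Pf.B 5 1 (Pf.W 50 5 [] [1,2,3,4] (Pf.cons (Pf.B 6 4 (Pf.C 5 66309) (Pf.C 31 518)) (Pf.cons (Pf.B 6 4 (Pf.B 6 3 (Pf.C 42 390) (Pf.B 6 2 (Pf.C 42 262) (Pf.B 6 1 (Pf.W 57 2 [] [1,3,4,5,6] (Pf.cons (Pf.B 7 6 (Pf.B 7 5 (Pf.B 7 1 (Pf.B 7 4 (Pf.B 7 3 (Pf.W 51 7 [] [1,2,3,4,5,6] (Pf.cons (Pf.B 8 4 (Pf.C 5 66567) (Pf.B 8 2 (Pf.B 8 1 (Pf.C 32 136) (Pf.C 0 0x410088)) (Pf.C 3 264))) (Pf.cons (Pf.B 8 6 (Pf.B 8 4 (Pf.B 8 3 (Pf.C 44 392) (Pf.B 8 2 (Pf.C 44 264) (Pf.B 8 1 (Pf.B 8 5 (Pf.W 60 8 [] [1,2,4,5,6,7] (Pf.cons (Pf.B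 9 7 (Pf.B 9 5 (Pf.B 9 6 (Pf.B 9 4 (Pf.C 18 521) (Pf.B 9 1 (Pf.C 7 0x10824305) (Pf.C 2 137))) (Pf.C 7 0x50c24407)) (Pf.C 2 649)) (Pf.C 2 905)) (Pf.cons (Pf.B 9 7 (Pf.C 30 905) (Pf.B 9 2 (Pf.C 0 0x420389) (Pf.C 3 265))) Pf.nil))) (Pf.C 7 0x60a20201)) (Pf.C 45 136)))) (Pf.C 4 520)) (Pf.C 4 776)) Pf.nil))) (Pf.W 51 7 [] [1,2,3,4] (Pf.cons (Pf.B 8 4 (Pf.C 5 66567) (Pf.B 8 2 (Pf.B 8 1 (Pf.C 32 136) (Pf.C 0 0x410088)) (Pf.C 3 264))) (Pf.cons (Pf.B 8 3 (Pf.C 44 392) (Pf.B 8 2 (Pf.C 44 264) (Pf.C 0 0x61c402))) Pf.nil)))) (Pf.C 0 0x208207)) (Pf.C 2 135)) (Pf.C 2 647)) (Pf.C 43 902)) (Pf.cons (Pf.B 7 6 (Pf.B 7 5 (Pf.C 5 0x1c105) (Pf.B 7 4 (Pf.B 7 1 (Pf.C 7 0x60a1c201) (Pf.B 7 3 (Pf.W 61 7 [] [1,2,3,4,5,6]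 (Pf.cons (Pf.B 8 3 (Pf.C 5 0x1c188) (Pf.C 21 392)) (Pf.cons (Pf.B 8 3 (Pf.B 8 2 (Pf.B 8 6 (Pf.C 8 0x30c08388) (Pf.B 8 5 (Pf.B 8 4 (Pf.C 5 66565) (Pf.B 8 1 (Pf.C 32 136) (Pf.C 0 0x410088))) (Pf.C 0 0xe14406))) (Pf.C 3 264)) (Pf.C 3 392)) Pf.nil))) (Pf.W 61 7 [] [1,2,4,5] (Pf.cons (Pf.B 8 2 (Pf.C 5 0x1c108) (Pf.C 21 264)) (Pf.cons (Pf.B 8 2 (Pf.B 8 1 (Pf.C 32 136) (Pf.B 8 5 (Pf.B 8 4 (Pf.C 5 66565) (Pf.C 0 0x404208)) (Pf.C 0 0x21c405))) (Pf.C 3 264)) Pf.nil))))) (Pf.C 4 519))) (Pf.C 4 775)) Pf.nil))) (Pf.C 43 134)))) (Pf.C 4 518)) Pf.nil))) (Pf.C 2 133)) (Pf.C 21 261)) (Pf.C 21 389)) (Pf.cons (Pf.B 5 2 (Pf.B 5 1 (Pf.C 32 133) (Pf.C 0 0x410085)) (Pf.C 3 261)) Pf.nil))))) Pf.nil))) (Pf.C 3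 259)))
 (Pq.cons (Pq.L [] 1 (Pf.C 3 257))
 (Pq.cons (Pq.L [] 3 (Pf.B 3 2 (Pf.W 57 2 [] [1,3] (Pf.cons (Pf.B 4 3 (Pf.B 4 1 (Pf.C 5 16772) (Pf.W 51 4 [] [1,2,3] (Pf.cons (Pf.B 5 3 (Pf.B 5 2 (Pf.B 5 1 (Pf.W 55 5 [] [1,2,3,4] (Pf.cons (Pf.B 6 4 (Pf.B 6 3 (Pf.B 6 2 (Pf.B 6 1 (Pf.C 18 134) (Pf.W 57 3 [] [1,2,4,5,6] (Pf.cons (Pf.B 7 6 (Pf.B 7 4 (Pf.B 7 5 (Pf.B 7 2 (Pf.B 7 1 (Pf.C 5 17031) (Pf.W 62 1 [] [2,3,4,5,6,7] (Pf.cons (Pf.B 8 7 (Pf.B 8 5 (Pf.C 5 17032) (Pf.B 8 4 (Pf.B 8 3 (Pf.C 5 16776) (Pf.B 8 2 (Pf.C 6 0x70620202) (Pf.W 51 8 [] [1,3,5,7] (Pf.cons (Pf.B 9 1 (Pf.C 5 17544) (Pf.C 33 137)) (Pf.cons (Pf.B 9 3 (Pf.C 44 393) (Pf.B 9 7 (Pf.B 9 5 (Pf.C 5 0x24287) (Pf.C 0 0x620485)) (Pf.C 0 0x100c487)))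 Pf.nil))))) (Pf.C 2 520))) (Pf.C 2 904)) (Pf.cons (Pf.B 8 6 (Pf.B 8 5 (Pf.B 8 3 (Pf.B 8 7 (Pf.B 8 2 (Pf.B 8 4 (Pf.W 56 8 [] [1,2,3,4,5,6,7] (Pf.cons (Pf.B 9 7 (Pf.B 9 6 (Pf.B 9 4 (Pf.B 9 3 (Pf.B 9 5 (Pf.B 9 2 (Pf.B 9 1 (Pf.C 20 137) (Pf.W 50 9 [] [1,4,5,6,7,8] (Pf.cons (Pf.B 10 8 (Pf.B 10 7 (Pf.C 30 906) (Pf.B 10 6 (Pf.B 10 5 (Pf.B 10 4 (Pf.C 30 522) (Pf.C 6 0x71410305)) (Pf.C 3 650)) (Pf.C 6 0x71418488))) (Pf.C 3 1034)) (Pf.cons (Pf.B 10 8 (Pf.C 42 1034) (Pf.B 10 1 (Pf.C 0 0x22440a) (Pf.C 4 138))) Pf.nil)))) (Pf.C 21 265)) (Pf.C 6 0x60a24383)) (Pf.C 21 393)) (Pf.C 2 521)) (Pf.C 2 777)) (Pf.C 2 905)) (Pf.cons (Pf.B 9 4 (Pf.C 5 0x24404) (Pf.B 9 2 (Pf.C 44 265) (Pf.B 9 1 (Pf.C 0 0x210109)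 (Pf.C 4 137)))) Pf.nil))) (Pf.C 0 0x404208)) (Pf.C 3 264)) (Pf.C 6 0x30e20305)) (Pf.C 3 392)) (Pf.C 3 648)) (Pf.C 19 1030)) Pf.nil)))) (Pf.C 6 0x4041c305)) (Pf.B 7 2 (Pf.C 6 0x60a1c202) (Pf.B 7 1 (Pf.W 51 7 [] [1,2,3] (Pf.cons (Pf.B 8 1 (Pf.C 5 17415) (Pf.C 33 136)) (Pf.cons (Pf.B 8 3 (Pf.C 44 392) (Pf.B 8 2 (Pf.C 44 264) (Pf.C 0 0x61c402))) Pf.nil))) (Pf.C 0 0x808087)))) (Pf.C 2 519)) (Pf.C 2 775)) (Pf.cons (Pf.B 7 6 (Pf.C 18 902) (Pf.B 7 4 (Pf.C 5 0x1c184) (Pf.B 7 1 (Pf.B 7 2 (Pf.B 7 5 (Pf.W 61 7 [] [1,2,3,4,5,6] (Pf.cons (Pf.B 8 3 (Pf.C 5 0x1c188) (Pf.C 21 392)) (Pf.cons (Pf.B 8 5 (Pf.B 8 3 (Pf.B 8 2 (Pf.B 8 1 (Pf.B 8 6 (Pf.B 8 4 (Pf.W 55 8 [] [1,2,3,4,5,6,7] (Pf.cons (Pf.B 9 7 (Pf.C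 18 905) (Pf.B 9 6 (Pf.B 9 4 (Pf.B 9 3 (Pf.B 9 2 (Pf.B 9 5 (Pf.B 9 1 (Pf.C 18 137) (Pf.W 49 9 [] [2,4,5,6,7,8] (Pf.cons (Pf.B 10 8 (Pf.B 10 5 (Pf.B 10 6 (Pf.B 10 4 (Pf.C 28 522) (Pf.B 10 2 (Pf.C 6 0x20828305) (Pf.C 3 266))) (Pf.C 6 0x50c28488)) (Pf.C 3 650)) (Pf.C 3 1034)) (Pf.cons (Pf.B 10 8 (Pf.C 40 1034) (Pf.B 10 7 (Pf.C 0 0xe2440a) (Pf.C 4 906))) Pf.nil)))) (Pf.C 6 0x60a24202)) (Pf.C 19 265)) (Pf.C 19 393)) (Pf.C 2 521)) (Pf.C 2 777))) (Pf.cons (Pf.B 9 4 (Pf.C 5 0x24404) (Pf.C 43 521)) Pf.nil))) (Pf.C 6 0x20820305)) (Pf.B 8 4 (Pf.C 6 0x50c20104) (Pf.C 0 0xc1c404))) (Pf.C 33 136)) (Pf.C 3 264)) (Pf.C 3 392)) (Pf.C 3 648)) Pf.nil))) (Pf.W 49 6 [] [2,4,5,7] (Pf.cons (Pf.B 8 5 (Pf.B 8 4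 (Pf.C 28 520) (Pf.B 8 2 (Pf.C 6 0x20820305) (Pf.C 3 264))) (Pf.C 3 648)) (Pf.cons (Pf.B 8 7 (Pf.B 8 5 (Pf.C 40 648) (Pf.C 0 0xe18288)) (Pf.C 4 904)) Pf.nil)))) (Pf.C 0 0x210107)) (Pf.C 4 135)))) Pf.nil)))) (Pf.C 19 262)) (Pf.C 19 390)) (Pf.C 2 518)) (Pf.cons (Pf.B 6 4 (Pf.C 5 98948) (Pf.C 43 518)) Pf.nil))) (Pf.C 33 133)) (Pf.C 3 261)) (Pf.C 3 389)) (Pf.cons (Pf.B 5 2 (Pf.C 44 261) (Pf.B 5 1 (Pf.C 0 0x210105) (Pf.C 4 133))) Pf.nil)))) (Pf.B 4 1 (Pf.W 51 4 [] [1,2,3] (Pf.cons (Pf.B 5 1 (Pf.C 5 17028) (Pf.C 33 133)) (Pf.cons (Pf.B 5 3 (Pf.C 44 389) (Pf.B 5 2 (Pf.C 44 261) (Pf.C 0 0x610282))) Pf.nil))) (Pf.W 51 4 [] [1,2,3] (Pf.cons (Pf.B 5 3 (Pf.B 5 2 (Pf.B 5 1 (Pf.W 55 5 [] [2,3,4] (Pf.cons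 (Pf.B 6 4 (Pf.B 6 3 (Pf.B 6 2 (Pf.C 6 0x30808286) (Pf.C 19 262)) (Pf.C 19 390)) (Pf.C 2 518)) (Pf.cons (Pf.B 6 4 (Pf.C 5 98948) (Pf.C 43 518)) Pf.nil))) (Pf.C 33 133)) (Pf.C 3 261)) (Pf.C 3 389)) (Pf.cons (Pf.B 5 3 (Pf.C 44 389) (Pf.B 5 2 (Pf.C 44 261) (Pf.C 0 0x610282))) Pf.nil))))) (Pf.cons (Pf.B 4 1 (Pf.B 4 3 (Pf.W 61 4 [] [1,2,3] (Pf.cons (Pf.B 5 3 (Pf.C 5 65925) (Pf.C 21 389)) (Pf.cons (Pf.B 5 3 (Pf.B 5 2 (Pf.B 5 1 (Pf.W 55 5 [] [1,2,3,4] (Pf.cons (Pf.B 6 4 (Pf.C 18 518) (Pf.B 6 1 (Pf.C 18 134) (Pf.W 62 1 [] [2,3,4,5,6] (Pf.cons (Pf.B 7 6 (Pf.B 7 5 (Pf.C 5 17031) (Pf.B 7 4 (Pf.B 7 3 (Pf.C 5 16775) (Pf.B 7 2 (Pf.C 5 65799) (Pf.W 51 7 [] [1,2,3] (Pf.cons (Pf.B 8 1 (Pf.C 5 17415) (Pf.C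 33 136)) (Pf.cons (Pf.B 8 3 (Pf.C 44 392) (Pf.B 8 2 (Pf.C 44 264) (Pf.C 0 0x61c402))) Pf.nil))))) (Pf.C 0 0xc14207))) (Pf.C 2 775)) (Pf.cons (Pf.B 7 6 (Pf.B 7 5 (Pf.B 7 3 (Pf.B 7 2 (Pf.B 7 4 (Pf.C 8 0x2021c284) (Pf.W 56 7 [] [1,3,4,5,6] (Pf.cons (Pf.B 8 3 (Pf.B 8 4 (Pf.C 5 65928) (Pf.B 8 1 (Pf.C 20 136) (Pf.C 0 0x81c401))) (Pf.C 21 392)) (Pf.cons (Pf.B 8 6 (Pf.C 5 0x20386) (Pf.B 8 4 (Pf.B 8 5 (Pf.B 8 3 (Pf.C 44 392) (Pf.C 8 0x70814188)) (Pf.C 0 0x818288)) (Pf.C 4 520))) Pf.nil)))) (Pf.C 3 263)) (Pf.C 3 391)) (Pf.C 3 647)) (Pf.C 19 902)) Pf.nil))))) (Pf.cons (Pf.B 6 4 (Pf.B 6 3 (Pf.C 42 390) (Pf.B 6 2 (Pf.C 42 262) (Pf.C 8 0x30c08284))) (Pf.C 4 518)) Pf.nil))) (Pf.C 33 133)) (Pf.C 3 261))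 (Pf.C 3 389)) Pf.nil))) (Pf.W 61 4 [] [1,2,3] (Pf.cons (Pf.B 5 2 (Pf.C 5 65797) (Pf.C 21 261)) (Pf.cons (Pf.B 5 3 (Pf.B 5 2 (Pf.B 5 1 (Pf.C 8 0x30814101) (Pf.C 33 133)) (Pf.C 3 261)) (Pf.C 3 389)) Pf.nil)))) (Pf.C 4 132)) Pf.nil))) (Pf.C 3 259)))
 (Pq.cons (Pq.L [] 3 (Pf.B 3 2 (Pf.W 57 3 [] [1,2] (Pf.cons (Pf.B 4 1 (Pf.B 4 2 (Pf.W 51 4 [] [1,2,3] (Pf.cons (Pf.B 5 3 (Pf.B 5 2 (Pf.B 5 1 (Pf.C 32 133) (Pf.C 6 0x20214203)) (Pf.C 3 261)) (Pf.C 3 389)) (Pf.cons (Pf.B 5 3 (Pf.C 44 389) (Pf.B 5 2 (Pf.C 44 261) (Pf.W 57 2 [] [1,3,4,5] (Pf.cons (Pf.B 6 4 (Pf.B 6 1 (Pf.B 6 3 (Pf.C 6 0x10418203) (Pf.B 6 5 (Pf.W 51 6 [] [1,2,3,4,5] (Pf.cons (Pf.B 7 5 (Pf.C 5 82822) (Pf.B 7 3 (Pf.B 7 4 (Pf.B 7 1 (Pf.C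 32 135) (Pf.C 6 0x60610087)) (Pf.C 0 0x614207)) (Pf.C 3 391))) (Pf.cons (Pf.B 7 3 (Pf.C 44 391) (Pf.B 7 2 (Pf.C 44 263) (Pf.C 0 0x618382))) Pf.nil))) (Pf.C 0 0x80c286))) (Pf.C 2 134)) (Pf.C 2 518)) (Pf.cons (Pf.B 6 5 (Pf.B 6 4 (Pf.C 5 98564) (Pf.B 6 3 (Pf.B 6 1 (Pf.C 5 98689) (Pf.C 47 134)) (Pf.C 0 0xa10186))) (Pf.C 4 646)) Pf.nil))))) Pf.nil))) (Pf.W 51 4 [] [1,2,3] (Pf.cons (Pf.B 5 3 (Pf.B 5 2 (Pf.B 5 1 (Pf.C 32 133) (Pf.W 55 5 [] [2,3,4] (Pf.cons (Pf.B 6 4 (Pf.B 6 3 (Pf.B 6 2 (Pf.C 6 0x30808286) (Pf.C 19 262)) (Pf.C 19 390)) (Pf.C 2 518)) (Pf.cons (Pf.B 6 4 (Pf.C 5 98948) (Pf.C 43 518)) Pf.nil)))) (Pf.C 3 261)) (Pf.C 3 389)) (Pf.cons (Pf.B 5 3 (Pf.C 44 389) (Pf.B 5 2 (Pf.C 44 261) (Pf.C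 0 0x610282))) Pf.nil)))) (Pf.C 2 132)) (Pf.cons (Pf.B 4 1 (Pf.C 5 65921) (Pf.C 47 132)) Pf.nil))) (Pf.C 3 259)))
 (Pq.cons (Pq.L [] 1 (Pf.C 3 257))
 (Pq.cons (Pq.L [] 1 (Pf.B 3 2 (Pf.W 163 2 [] [1,3] (Pf.cons (Pf.B 4 1 (Pf.C 22 132) (Pf.B 4 3 (Pf.W 155 4 [] [1,2] (Pf.cons (Pf.B 5 2 (Pf.C 44 261) (Pf.B 5 1 (Pf.C 0 0x210105) (Pf.C 4 133))) Pf.nil)) (Pf.W 155 4 [] [2,3] (Pf.cons (Pf.B 5 3 (Pf.C 44 389) (Pf.B 5 2 (Pf.C 44 261) (Pf.C 0 0x610282))) Pf.nil)))) Pf.nil)) (Pf.C 3 259)))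
 (Pq.cons (Pq.L [] 3 (Pf.B 3 2 (Pf.W 51 1 [] [2,3] (Pf.cons (Pf.B 4 3 (Pf.C 5 49665) (Pf.C 33 388)) (Pf.cons (Pf.B 4 3 (Pf.B 4 2 (Pf.W 165 2 [] [1,3,4] (Pf.cons (Pf.B 5 4 (Pf.B 5 3 (Pf.B 5 1 (Pf.C 5 49793) (Pf.W 157 5 [] [1,2] (Pf.cons (Pf.B 6 2 (Pf.C 20 262) (Pf.B 6 1 (Pf.C 0 0x214106) (Pf.C 2 134))) Pf.nil))) (Pf.W 60 4 [] [2,3,5] (Pf.cons (Pf.B 6 5 (Pf.C 5 66182) (Pf.C 19 646)) (Pf.cons (Pf.B 6 5 (Pf.B 6 3 (Pf.B 6 2 (Pf.C 8 0x30a08206) (Pf.C 31 262)) (Pf.C 31 390)) (Pf.C 3 646)) Pf.nil)))) (Pf.B 5 1 (Pf.B 5 3 (Pf.C 5 49793) (Pf.W 157 5 [] [2,3] (Pf.cons (Pf.B 6 3 (Pf.C 20 390) (Pf.B 6 2 (Pf.C 20 262) (Pf.C 0 0x614302))) Pf.nil))) (Pf.C 0 0x804282))) Pf.nil)) (Pf.C 4 260)) (Pf.C 4 388))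 Pf.nil))) (Pf.C 4 259)))
 (Pq.cons (Pq.L [] 3 (Pf.B 3 2 (Pf.W 165 2 [] [1,3] (Pf.cons (Pf.B 4 1 (Pf.B 4 3 (Pf.W 165 3 [] [1,2,4] (Pf.cons (Pf.B 5 4 (Pf.B 5 1 (Pf.B 5 2 (Pf.C 8 0x40404185) (Pf.W 157 5 [] [2,3] (Pf.cons (Pf.B 6 3 (Pf.C 20 390) (Pf.B 6 2 (Pf.C 20 262) (Pf.C 0 0x614302))) Pf.nil))) (Pf.C 3 133)) (Pf.C 3 517)) Pf.nil)) (Pf.W 157 4 [] [2,3] (Pf.cons (Pf.B 5 3 (Pf.C 20 389) (Pf.B 5 2 (Pf.C 20 261) (Pf.C 0 0x610282))) Pf.nil))) (Pf.C 3 132)) Pf.nil)) (Pf.C 4 259)))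
 (Pq.cons (Pq.L [] 1 (Pf.C 4 257))
 (Pq.cons (Pq.L [] 3 (Pf.B 3 2 (Pf.W 165 2 [] [1,3] (Pf.cons (Pf.B 4 3 (Pf.B 4 1 (Pf.C 5 49665) (Pf.W 157 4 [] [1,2] (Pf.cons (Pf.B 5 2 (Pf.C 20 261) (Pf.B 5 1 (Pf.C 0 0x210105) (Pf.C 2 133))) Pf.nil))) (Pf.W 157 4 [] [2,3] (Pf.cons (Pf.B 5 3 (Pf.C 20 389) (Pf.B 5 2 (Pf.C 20 261) (Pf.C 0 0x610282))) Pf.nil))) Pf.nil)) (Pf.C 4 259)))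
 (Pq.cons (Pq.L [] 3 (Pf.B 3 2 (Pf.W 165 2 [] [1,3] (Pf.cons (Pf.B 4 1 (Pf.B 4 3 (Pf.W 165 3 [] [1,2,4] (Pf.cons (Pf.B 5 4 (Pf.B 5 1 (Pf.B 5 2 (Pf.C 8 0x40404185) (Pf.W 157 5 [] [2,3] (Pf.cons (Pf.B 6 3 (Pf.C 20 390) (Pf.B 6 2 (Pf.C 20 262) (Pf.C 0 0x614302))) Pf.nil))) (Pf.C 3 133)) (Pf.C 3 517)) Pf.nil)) (Pf.W 157 4 [] [2,3] (Pf.cons (Pf.B 5 3 (Pf.C 20 389) (Pf.B 5 2 (Pf.C 20 261) (Pf.C 0 0x610282))) Pf.nil))) (Pf.C 3 132)) Pf.nil)) (Pf.C 4 259)))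
 (Pq.cons (Pq.L [] 1 (Pf.C 4 257))
 (Pq.cons (Pq.L [] 1 (Pf.B 3 2 (Pf.W 165 2 [] [1,3] (Pf.cons (Pf.B 4 1 (Pf.C 34 132) (Pf.B 4 3 (Pf.W 157 4 [] [1,2] (Pf.cons (Pf.B 5 2 (Pf.C 20 261) (Pf.B 5 1 (Pf.C 0 0x210105) (Pf.C 2 133))) Pf.nil)) (Pf.W 157 4 [] [2,3] (Pf.cons (Pf.B 5 3 (Pf.C 20 389) (Pf.B 5 2 (Pf.C 20 261) (Pf.C 0 0x610282))) Pf.nil)))) Pf.nil)) (Pf.C 4 259)))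
 (Pq.cons (Pq.L [] 3 (Pf.B 3 2 (Pf.W 165 2 [] [1,3] (Pf.cons (Pf.B 4 1 (Pf.B 4 3 (Pf.W 165 3 [] [1,2,4] (Pf.cons (Pf.B 5 4 (Pf.B 5 1 (Pf.B 5 2 (Pf.C 8 0x40404185) (Pf.W 157 5 [] [2,3] (Pf.cons (Pf.B 6 3 (Pf.C 20 390) (Pf.B 6 2 (Pf.C 20 262) (Pf.C 0 0x614302))) Pf.nil))) (Pf.C 3 133)) (Pf.C 3 517)) Pf.nil)) (Pf.W 157 4 [] [2,3] (Pf.cons (Pf.B 5 3 (Pf.C 20 389) (Pf.B 5 2 (Pf.C 20 261) (Pf.C 0 0x610282))) Pf.nil))) (Pf.C 3 132)) Pf.nil)) (Pf.C 4 259)))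
 (Pq.cons (Pq.L [] 1 (Pf.C 4 257))
 Pq.nil))))))))))))))))))))))))))))))))))))
theorem e4_o8 : AllRef e4_T e4_G14 (List.drop 153 (splitObl [18,26,34,19,27,35,20,28,36,21,29,37,96,30,97,99,101,103,105,107,109] [100,102,104,106,108,110,25,33,41])) :=
  chkPq_sound e4_o8c _ (by decide +kernel)
noncomputable def e4_o9c : Pq := (Pq.cons (Pq.L [] 3 (Pf.B 3 2 (Pf.W 101 2 [] [1,3] (Pf.cons (Pf.B 4 1 (Pf.B 4 3 (Pf.W 107 4 [] [1,2,3] (Pf.cons (Pf.B 5 3 (Pf.B 5 2 (Pf.B 5 1 (Pf.W 99 5 [] [1,2,3,4] (Pf.cons (Pf.B 6 4 (Pf.B 6 3 (Pf.C 76 390) (Pf.B 6 2 (Pf.C 76 262) (Pf.C 6 0x30c08284))) (Pf.C 3 518)) (Pf.cons (Pf.B 6 4 (Pf.C 88 518) (Pf.B 6 1 (Pf.C 88 134) (Pf.W 108 1 [] [2,3,4,5,6] (Pf.cons (Pf.B 7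 6 (Pf.B 7 5 (Pf.B 7 3 (Pf.B 7 2 (Pf.B 7 4 (Pf.C 6 0x2021c284) (Pf.W 100 7 [] [1,3,4,5,6] (Pf.cons (Pf.B 8 6 (Pf.C 5 99335) (Pf.B 8 4 (Pf.B 8 5 (Pf.B 8 3 (Pf.C 78 392) (Pf.C 6 0x70814188)) (Pf.C 0 0x818288)) (Pf.C 3 520))) (Pf.cons (Pf.B 8 3 (Pf.B 8 4 (Pf.C 5 0x20203) (Pf.B 8 1 (Pf.C 90 136) (Pf.C 0 0x81c401))) (Pf.C 91 392)) Pf.nil)))) (Pf.C 2 263)) (Pf.C 2 391)) (Pf.C 2 647)) (Pf.C 89 902)) (Pf.cons (Pf.B 7 6 (Pf.B 7 5 (Pf.C 5 0x1c085) (Pf.B 7 4 (Pf.B 7 3 (Pf.C 5 0x1c083) (Pf.B 7 2 (Pf.C 5 0x1c202) (Pf.W 114 7 [] [1,2,3] (Pf.cons (Pf.B 8 1 (Pf.C 5 0x1c088) (Pf.C 68 136)) (Pf.cons (Pf.B 8 3 (Pf.C 78 392) (Pf.B 8 2 (Pf.C 78 264) (Pf.C 0 0x61c402))) Pf.nil))))) (Pf.C 0 0xc14207))) (Pf.C 4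 775)) Pf.nil))))) Pf.nil))) (Pf.C 68 133)) (Pf.C 2 261)) (Pf.C 2 389)) (Pf.cons (Pf.B 5 3 (Pf.C 5 82435) (Pf.C 91 389)) Pf.nil))) (Pf.W 107 4 [] [1,2,3] (Pf.cons (Pf.B 5 3 (Pf.B 5 2 (Pf.B 5 1 (Pf.C 6 0x30814101) (Pf.C 68 133)) (Pf.C 2 261)) (Pf.C 2 389)) (Pf.cons (Pf.B 5 2 (Pf.C 5 82434) (Pf.C 91 261)) Pf.nil)))) (Pf.C 3 132)) (Pf.cons (Pf.B 4 3 (Pf.B 4 1 (Pf.C 5 65667) (Pf.W 114 4 [] [1,2,3] (Pf.cons (Pf.B 5 3 (Pf.B 5 2 (Pf.B 5 1 (Pf.W 99 5 [] [1,2,3,4] (Pf.cons (Pf.B 6 4 (Pf.C 5 66309) (Pf.C 77 518)) (Pf.cons (Pf.B 6 4 (Pf.B 6 3 (Pf.B 6 2 (Pf.B 6 1 (Pf.C 88 134) (Pf.W 101 3 [] [1,2,4,5,6] (Pf.cons (Pf.B 7 6 (Pf.C 88 902) (Pf.B 7 4 (Pf.C 5 66435) (Pf.B 7 1 (Pf.B 7 2 (Pf.B 7 5 (Pf.W 107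 7 [] [1,2,3,4,5,6] (Pf.cons (Pf.B 8 5 (Pf.B 8 3 (Pf.B 8 2 (Pf.B 8 1 (Pf.B 8 6 (Pf.B 8 4 (Pf.W 99 8 [] [1,2,3,4,5,6,7] (Pf.cons (Pf.B 9 4 (Pf.C 5 66696) (Pf.C 77 521)) (Pf.cons (Pf.B 9 7 (Pf.C 88 905) (Pf.B 9 6 (Pf.B 9 4 (Pf.B 9 3 (Pf.B 9 2 (Pf.B 9 5 (Pf.B 9 1 (Pf.C 88 137) (Pf.W 112 9 [] [2,4,5,6,7,8] (Pf.cons (Pf.B 10 8 (Pf.B 10 5 (Pf.B 10 6 (Pf.B 10 4 (Pf.C 63 522) (Pf.B 10 2 (Pf.C 7 0x20828305) (Pf.C 2 266))) (Pf.C 7 0x50c28488)) (Pf.C 2 650)) (Pf.C 2 1034)) (Pf.cons (Pf.B 10 8 (Pf.C 75 1034) (Pf.B 10 7 (Pf.C 0 0xe2440a) (Pf.C 3 906))) Pf.nil)))) (Pf.C 7 0x60a24202)) (Pf.C 89 265)) (Pf.C 89 393)) (Pf.C 4 521)) (Pf.C 4 777))) Pf.nil))) (Pf.C 7 0x20820305)) (Pf.B 8 4 (Pf.C 7 0x50c20104)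 (Pf.C 0 0xc1c404))) (Pf.C 68 136)) (Pf.C 2 264)) (Pf.C 2 392)) (Pf.C 2 648)) (Pf.cons (Pf.B 8 3 (Pf.C 5 0x20383) (Pf.C 91 392)) Pf.nil))) (Pf.W 112 6 [] [2,4,5,7] (Pf.cons (Pf.B 8 5 (Pf.B 8 4 (Pf.C 63 520) (Pf.B 8 2 (Pf.C 7 0x20820305) (Pf.C 2 264))) (Pf.C 2 648)) (Pf.cons (Pf.B 8 7 (Pf.B 8 5 (Pf.C 75 648) (Pf.C 0 0xe18288)) (Pf.C 3 904)) Pf.nil)))) (Pf.C 0 0x210107)) (Pf.C 3 135)))) (Pf.cons (Pf.B 7 6 (Pf.B 7 4 (Pf.B 7 5 (Pf.B 7 2 (Pf.B 7 1 (Pf.C 5 0x1c085) (Pf.W 108 1 [] [2,3,4,5,6,7] (Pf.cons (Pf.B 8 6 (Pf.B 8 5 (Pf.B 8 3 (Pf.B 8 7 (Pf.B 8 2 (Pf.B 8 4 (Pf.W 100 8 [] [1,2,3,4,5,6,7] (Pf.cons (Pf.B 9 4 (Pf.C 5 66696) (Pf.B 9 2 (Pf.C 78 265) (Pf.B 9 1 (Pf.C 0 0x210109) (Pf.C 3 137)))) (Pf.cons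 (Pf.B 9 7 (Pf.B 9 6 (Pf.B 9 4 (Pf.B 9 3 (Pf.B 9 5 (Pf.B 9 2 (Pf.B 9 1 (Pf.C 90 137) (Pf.W 113 9 [] [1,4,5,6,7,8] (Pf.cons (Pf.B 10 8 (Pf.B 10 7 (Pf.C 65 906) (Pf.B 10 6 (Pf.B 10 5 (Pf.B 10 4 (Pf.C 65 522) (Pf.C 7 0x71410305)) (Pf.C 2 650)) (Pf.C 7 0x71418488))) (Pf.C 2 1034)) (Pf.cons (Pf.B 10 8 (Pf.C 76 1034) (Pf.B 10 1 (Pf.C 0 0x22440a) (Pf.C 3 138))) Pf.nil)))) (Pf.C 91 265)) (Pf.C 7 0x60a24383)) (Pf.C 91 393)) (Pf.C 4 521)) (Pf.C 4 777)) (Pf.C 4 905)) Pf.nil))) (Pf.C 0 0x404208)) (Pf.C 2 264)) (Pf.C 7 0x30e20305)) (Pf.C 2 392)) (Pf.C 2 648)) (Pf.C 89 1030)) (Pf.cons (Pf.B 8 7 (Pf.B 8 5 (Pf.C 5 0x20085) (Pf.B 8 4 (Pf.B 8 3 (Pf.C 5 0x20083) (Pf.B 8 2 (Pf.C 7 0x70620202) (Pf.W 114 8 []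 [1,3,5,7] (Pf.cons (Pf.B 9 1 (Pf.C 5 0x20089) (Pf.C 68 137)) (Pf.cons (Pf.B 9 3 (Pf.C 78 393) (Pf.B 9 7 (Pf.B 9 5 (Pf.C 5 0x1c485) (Pf.C 0 0x620485)) (Pf.C 0 0x100c487))) Pf.nil))))) (Pf.C 4 520))) (Pf.C 4 904)) Pf.nil)))) (Pf.C 7 0x4041c305)) (Pf.B 7 2 (Pf.C 7 0x60a1c202) (Pf.B 7 1 (Pf.W 114 7 [] [1,2,3] (Pf.cons (Pf.B 8 1 (Pf.C 5 0x1c088) (Pf.C 68 136)) (Pf.cons (Pf.B 8 3 (Pf.C 78 392) (Pf.B 8 2 (Pf.C 78 264) (Pf.C 0 0x61c402))) Pf.nil))) (Pf.C 0 0x808087)))) (Pf.C 4 519)) (Pf.C 4 775)) Pf.nil)))) (Pf.C 89 262)) (Pf.C 89 390)) (Pf.C 4 518)) Pf.nil))) (Pf.C 68 133)) (Pf.C 2 261)) (Pf.C 2 389)) (Pf.cons (Pf.B 5 2 (Pf.C 78 261) (Pf.B 5 1 (Pf.C 0 0x210105) (Pf.C 3 133))) Pf.nil)))) (Pf.B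 4 1 (Pf.W 114 4 [] [1,2,3] (Pf.cons (Pf.B 5 1 (Pf.C 5 65669) (Pf.C 68 133)) (Pf.cons (Pf.B 5 3 (Pf.C 78 389) (Pf.B 5 2 (Pf.C 78 261) (Pf.C 0 0x610282))) Pf.nil))) (Pf.W 114 4 [] [1,2,3] (Pf.cons (Pf.B 5 3 (Pf.B 5 2 (Pf.B 5 1 (Pf.W 99 5 [] [2,3,4] (Pf.cons (Pf.B 6 4 (Pf.C 5 66309) (Pf.C 77 518)) (Pf.cons (Pf.B 6 4 (Pf.B 6 3 (Pf.B 6 2 (Pf.C 7 0x30808286) (Pf.C 89 262)) (Pf.C 89 390)) (Pf.C 4 518)) Pf.nil))) (Pf.C 68 133)) (Pf.C 2 261)) (Pf.C 2 389)) (Pf.cons (Pf.B 5 3 (Pf.C 78 389) (Pf.B 5 2 (Pf.C 78 261) (Pf.C 0 0x610282))) Pf.nil))))) Pf.nil))) (Pf.C 2 259)))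
 (Pq.cons (Pq.L [] 3 (Pf.B 3 2 (Pf.W 101 3 [] [1,2] (Pf.cons (Pf.B 4 1 (Pf.C 5 16899) (Pf.C 81 132)) (Pf.cons (Pf.B 4 1 (Pf.B 4 2 (Pf.W 114 4 [] [1,2,3] (Pf.cons (Pf.B 5 3 (Pf.B 5 2 (Pf.B 5 1 (Pf.C 67 133) (Pf.C 7 0x20214203)) (Pf.C 2 261)) (Pf.C 2 389)) (Pf.cons (Pf.B 5 3 (Pf.C 78 389) (Pf.B 5 2 (Pf.C 78 261) (Pf.W 101 2 [] [1,3,4,5] (Pf.cons (Pf.B 6 5 (Pf.B 6 4 (Pf.C 5 66306) (Pf.B 6 3 (Pf.B 6 1 (Pf.C 5 17155) (Pf.C 81 134)) (Pf.C 0 0xa10186))) (Pf.C 3 646)) (Pf.cons (Pf.B 6 4 (Pf.B 6 1 (Pf.B 6 3 (Pf.C 7 0x10418203) (Pf.B 6 5 (Pf.W 114 6 [] [1,2,3,4,5] (Pf.cons (Pf.B 7 5 (Pf.C 5 98951) (Pf.B 7 3 (Pf.B 7 4 (Pf.B 7 1 (Pf.C 67 135) (Pf.C 7 0x60610087)) (Pf.C 0 0x614207)) (Pf.C 2 391))) (Pf.cons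 (Pf.B 7 3 (Pf.C 78 391) (Pf.B 7 2 (Pf.C 78 263) (Pf.C 0 0x618382))) Pf.nil))) (Pf.C 0 0x80c286))) (Pf.C 4 134)) (Pf.C 4 518)) Pf.nil))))) Pf.nil))) (Pf.W 114 4 [] [1,2,3] (Pf.cons (Pf.B 5 3 (Pf.B 5 2 (Pf.B 5 1 (Pf.C 67 133) (Pf.W 99 5 [] [2,3,4] (Pf.cons (Pf.B 6 4 (Pf.C 5 66309) (Pf.C 77 518)) (Pf.cons (Pf.B 6 4 (Pf.B 6 3 (Pf.B 6 2 (Pf.C 7 0x30808286) (Pf.C 89 262)) (Pf.C 89 390)) (Pf.C 4 518)) Pf.nil)))) (Pf.C 2 261)) (Pf.C 2 389)) (Pf.cons (Pf.B 5 3 (Pf.C 78 389) (Pf.B 5 2 (Pf.C 78 261) (Pf.C 0 0x610282))) Pf.nil)))) (Pf.C 4 132)) Pf.nil))) (Pf.C 2 259)))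
 (Pq.cons (Pq.L [] 1 (Pf.C 2 257))
 (Pq.cons (Pq.L [] 1 (Pf.C 72 130))
 (Pq.cons (Pq.L [] 3 (Pf.B 3 2 (Pf.W 101 2 [] [1,3] (Pf.cons (Pf.B 4 3 (Pf.B 4 1 (Pf.C 5 16899) (Pf.W 107 4 [] [1,2,3] (Pf.cons (Pf.B 5 3 (Pf.B 5 2 (Pf.B 5 1 (Pf.C 67 133) (Pf.W 99 5 [] [1,2,3,4] (Pf.cons (Pf.B 6 4 (Pf.B 6 3 (Pf.C 76 390) (Pf.B 6 2 (Pf.C 76 262) (Pf.C 6 0x30c08284))) (Pf.C 3 518)) (Pf.cons (Pf.B 6 4 (Pf.C 88 518) (Pf.B 6 1 (Pf.C 0 0x214206) (Pf.C 4 134))) Pf.nil)))) (Pf.C 2 261)) (Pf.C 2 389)) (Pf.cons (Pf.B 5 3 (Pf.C 5 82435) (Pf.C 91 389)) Pf.nil)))) (Pf.B 4 1 (Pf.W 107 4 [] [1,2,3] (Pf.cons (Pf.B 5 3 (Pf.B 5 2 (Pf.B 5 1 (Pf.C 67 133) (Pf.W 101 3 [] [1,2,4,5] (Pf.cons (Pf.B 6 4 (Pf.B 6 1 (Pf.C 5 17155)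 (Pf.B 6 5 (Pf.B 6 2 (Pf.W 107 6 [] [1,2,3,4,5] (Pf.cons (Pf.B 7 5 (Pf.B 7 3 (Pf.B 7 4 (Pf.C 6 0x5080c307) (Pf.B 7 2 (Pf.B 7 1 (Pf.C 67 135) (Pf.W 99 7 [] [2,4,6] (Pf.cons (Pf.B 8 6 (Pf.B 8 4 (Pf.B 8 2 (Pf.C 76 264) (Pf.C 6 0x60e10108)) (Pf.C 3 520)) (Pf.C 3 776)) (Pf.cons (Pf.B 8 6 (Pf.C 88 776) (Pf.B 8 4 (Pf.C 88 520) (Pf.C 0 0xc1c404))) Pf.nil)))) (Pf.C 2 263))) (Pf.C 2 391)) (Pf.C 2 647)) (Pf.cons (Pf.B 7 3 (Pf.C 5 0x1c303) (Pf.C 91 391)) Pf.nil))) (Pf.C 6 0x5080c106)) (Pf.B 6 2 (Pf.W 99 5 [] [2,4,6] (Pf.cons (Pf.B 7 6 (Pf.B 7 4 (Pf.B 7 2 (Pf.C 76 263) (Pf.C 6 0x60a10107)) (Pf.C 3 519)) (Pf.C 3 775)) (Pf.cons (Pf.B 7 6 (Pf.C 88 775) (Pf.B 7 4 (Pf.C 88 519) (Pf.C 0 0xc14384))) Pf.nil)))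 (Pf.C 0 0xa04302)))) (Pf.C 3 518)) (Pf.cons (Pf.B 6 1 (Pf.B 6 5 (Pf.B 6 2 (Pf.C 7 0x50208186) (Pf.W 99 5 [] [2,3,6] (Pf.cons (Pf.B 7 6 (Pf.C 5 99205) (Pf.C 77 775)) (Pf.cons (Pf.B 7 6 (Pf.B 7 3 (Pf.B 7 2 (Pf.C 7 0x30c08287) (Pf.C 89 263)) (Pf.C 89 391)) (Pf.C 4 775)) Pf.nil)))) (Pf.B 6 4 (Pf.B 6 2 (Pf.C 5 98818) (Pf.W 114 6 [] [1,2,3,4,5] (Pf.cons (Pf.B 7 5 (Pf.B 7 4 (Pf.C 5 98823) (Pf.B 7 3 (Pf.B 7 2 (Pf.B 7 1 (Pf.C 67 135) (Pf.W 99 7 [] [3,4,5,6] (Pf.cons (Pf.B 8 6 (Pf.C 5 99335) (Pf.C 77 776)) (Pf.cons (Pf.B 8 6 (Pf.B 8 4 (Pf.C 88 520) (Pf.B 8 5 (Pf.B 8 3 (Pf.C 7 0x50c0c388) (Pf.C 89 392)) (Pf.C 0 0xe10405))) (Pf.C 4 776)) Pf.nil)))) (Pf.C 2 263)) (Pf.C 2 391))) (Pf.C 2 647)) (Pf.cons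 (Pf.B 7 3 (Pf.C 78 391) (Pf.B 7 2 (Pf.C 78 263) (Pf.C 0 0x618382))) Pf.nil)))) (Pf.C 0 0xa10303))) (Pf.C 4 134)) Pf.nil)))) (Pf.C 2 261)) (Pf.C 2 389)) (Pf.cons (Pf.B 5 2 (Pf.C 5 82434) (Pf.C 91 261)) Pf.nil))) (Pf.W 107 4 [] [1,2,3] (Pf.cons (Pf.B 5 3 (Pf.B 5 2 (Pf.B 5 1 (Pf.C 67 133) (Pf.W 99 5 [] [1,2,3,4] (Pf.cons (Pf.B 6 4 (Pf.B 6 3 (Pf.C 76 390) (Pf.B 6 2 (Pf.C 76 262) (Pf.B 6 1 (Pf.W 105 6 [] [2,4,5] (Pf.cons (Pf.B 7 5 (Pf.B 7 4 (Pf.B 7 2 (Pf.C 6 0x20c1c284) (Pf.C 2 263)) (Pf.C 64 519)) (Pf.C 2 647)) (Pf.cons (Pf.B 7 5 (Pf.C 5 0x1c305) (Pf.C 87 647)) Pf.nil))) (Pf.C 77 134)))) (Pf.C 3 518)) (Pf.cons (Pf.B 6 4 (Pf.C 88 518) (Pf.B 6 1 (Pf.C 0 0x214206) (Pf.C 4 134))) Pf.nil)))) (Pf.C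 2 261)) (Pf.C 2 389)) (Pf.cons (Pf.B 5 2 (Pf.C 5 82434) (Pf.C 91 261)) Pf.nil))))) (Pf.cons (Pf.B 4 1 (Pf.B 4 3 (Pf.W 101 3 [] [1,2,4] (Pf.cons (Pf.B 5 4 (Pf.C 5 66179) (Pf.B 5 1 (Pf.C 5 17027) (Pf.B 5 2 (Pf.W 107 5 [] [1,2,3,4] (Pf.cons (Pf.B 6 3 (Pf.B 6 2 (Pf.B 6 1 (Pf.C 67 134) (Pf.B 6 4 (Pf.W 99 6 [] [1,4,5] (Pf.cons (Pf.B 7 4 (Pf.C 5 66438) (Pf.C 77 519)) (Pf.cons (Pf.B 7 5 (Pf.C 88 647) (Pf.B 7 1 (Pf.C 0 0x218287) (Pf.C 4 135))) Pf.nil))) (Pf.C 0 0x214304))) (Pf.C 2 262)) (Pf.C 2 390)) (Pf.cons (Pf.B 6 3 (Pf.C 5 98947) (Pf.C 91 390)) Pf.nil))) (Pf.C 0 0x808281)))) (Pf.cons (Pf.B 5 4 (Pf.B 5 1 (Pf.B 5 2 (Pf.C 7 0x40404185) (Pf.W 114 5 [] [1,2,3] (Pf.cons (Pf.B 6 3 (Pf.B 6 2 (Pf.B 6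 1 (Pf.C 67 134) (Pf.W 99 6 [] [2,3,5] (Pf.cons (Pf.B 7 5 (Pf.C 5 82822) (Pf.C 77 647)) (Pf.cons (Pf.B 7 5 (Pf.B 7 3 (Pf.B 7 2 (Pf.C 7 0x30a08307) (Pf.C 89 263)) (Pf.C 89 391)) (Pf.C 4 647)) Pf.nil)))) (Pf.C 2 262)) (Pf.C 2 390)) (Pf.cons (Pf.B 6 3 (Pf.C 78 390) (Pf.B 6 2 (Pf.C 78 262) (Pf.C 0 0x614302))) Pf.nil)))) (Pf.C 4 133)) (Pf.C 4 517)) Pf.nil))) (Pf.W 114 4 [] [1,2,3] (Pf.cons (Pf.B 5 3 (Pf.B 5 2 (Pf.B 5 1 (Pf.C 67 133) (Pf.W 99 5 [] [2,3,4] (Pf.cons (Pf.B 6 4 (Pf.C 5 66309) (Pf.C 77 518)) (Pf.cons (Pf.B 6 4 (Pf.B 6 3 (Pf.B 6 2 (Pf.C 7 0x30808286) (Pf.C 89 262)) (Pf.C 89 390)) (Pf.C 4 518)) Pf.nil)))) (Pf.C 2 261)) (Pf.C 2 389)) (Pf.cons (Pf.B 5 3 (Pf.C 78 389) (Pf.B 5 2 (Pf.C 78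 261) (Pf.C 0 0x610282))) Pf.nil)))) (Pf.C 4 132)) Pf.nil))) (Pf.C 2 259)))
 (Pq.cons (Pq.L [] 1 (Pf.C 2 257))
 (Pq.cons (Pq.L [] 1 (Pf.C 72 130))
 (Pq.cons (Pq.L [] 2 (Pf.C 71 131))
 (Pq.cons (Pq.L [] 1 (Pf.C 3 257))
 (Pq.cons (Pq.L [] 3 (Pf.B 3 2 (Pf.W 109 2 [] [1,3] (Pf.cons (Pf.B 4 3 (Pf.B 4 1 (Pf.C 5 16772) (Pf.W 101 4 [] [1,2,3] (Pf.cons (Pf.B 5 3 (Pf.B 5 2 (Pf.B 5 1 (Pf.W 107 5 [] [1,2,3,4] (Pf.cons (Pf.B 6 4 (Pf.B 6 3 (Pf.B 6 2 (Pf.B 6 1 (Pf.C 67 134) (Pf.W 109 3 [] [1,2,4,5,6] (Pf.cons (Pf.B 7 6 (Pf.B 7 4 (Pf.B 7 5 (Pf.B 7 2 (Pf.B 7 1 (Pf.C 5 17031) (Pf.W 116 1 [] [2,3,4,5,6,7] (Pf.cons (Pf.B 8 7 (Pf.B 8 5 (Pf.C 5 17032) (Pf.B 8 4 (Pf.B 8 3 (Pf.C 5 16776) (Pf.B 8 2 (Pf.C 6 0x70620202)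 (Pf.W 101 8 [] [1,3,5,7] (Pf.cons (Pf.B 9 1 (Pf.C 5 17544) (Pf.C 81 137)) (Pf.cons (Pf.B 9 3 (Pf.C 92 393) (Pf.B 9 7 (Pf.B 9 5 (Pf.C 5 0x24287) (Pf.C 0 0x620485)) (Pf.C 0 0x100c487))) Pf.nil))))) (Pf.C 2 520))) (Pf.C 2 904)) (Pf.cons (Pf.B 8 6 (Pf.B 8 5 (Pf.B 8 3 (Pf.B 8 7 (Pf.B 8 2 (Pf.B 8 4 (Pf.W 108 8 [] [1,2,3,4,5,6,7] (Pf.cons (Pf.B 9 7 (Pf.B 9 6 (Pf.B 9 4 (Pf.B 9 3 (Pf.B 9 5 (Pf.B 9 2 (Pf.B 9 1 (Pf.C 69 137) (Pf.W 100 9 [] [1,4,5,6,7,8] (Pf.cons (Pf.B 10 8 (Pf.B 10 7 (Pf.C 78 906) (Pf.B 10 6 (Pf.B 10 5 (Pf.B 10 4 (Pf.C 78 522) (Pf.C 6 0x71410305)) (Pf.C 3 650)) (Pf.C 6 0x71418488))) (Pf.C 3 1034)) (Pf.cons (Pf.B 10 8 (Pf.C 90 1034) (Pf.B 10 1 (Pf.C 0 0x22440a) (Pf.C 4 138))) Pf.nil))))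 (Pf.C 70 265)) (Pf.C 6 0x60a24383)) (Pf.C 70 393)) (Pf.C 2 521)) (Pf.C 2 777)) (Pf.C 2 905)) (Pf.cons (Pf.B 9 4 (Pf.C 5 0x24404) (Pf.B 9 2 (Pf.C 92 265) (Pf.B 9 1 (Pf.C 0 0x210109) (Pf.C 4 137)))) Pf.nil))) (Pf.C 0 0x404208)) (Pf.C 3 264)) (Pf.C 6 0x30e20305)) (Pf.C 3 392)) (Pf.C 3 648)) (Pf.C 68 1030)) Pf.nil)))) (Pf.C 6 0x4041c305)) (Pf.B 7 2 (Pf.C 6 0x60a1c202) (Pf.B 7 1 (Pf.W 101 7 [] [1,2,3] (Pf.cons (Pf.B 8 1 (Pf.C 5 17415) (Pf.C 81 136)) (Pf.cons (Pf.B 8 3 (Pf.C 92 392) (Pf.B 8 2 (Pf.C 92 264) (Pf.C 0 0x61c402))) Pf.nil))) (Pf.C 0 0x808087)))) (Pf.C 2 519)) (Pf.C 2 775)) (Pf.cons (Pf.B 7 6 (Pf.C 67 902) (Pf.B 7 4 (Pf.C 5 0x1c184) (Pf.B 7 1 (Pf.B 7 2 (Pf.B 7 5 (Pf.W 115 7 [] [1,2,3,4,5,6]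 (Pf.cons (Pf.B 8 3 (Pf.C 5 0x1c188) (Pf.C 70 392)) (Pf.cons (Pf.B 8 5 (Pf.B 8 3 (Pf.B 8 2 (Pf.B 8 1 (Pf.B 8 6 (Pf.B 8 4 (Pf.W 107 8 [] [1,2,3,4,5,6,7] (Pf.cons (Pf.B 9 7 (Pf.C 67 905) (Pf.B 9 6 (Pf.B 9 4 (Pf.B 9 3 (Pf.B 9 2 (Pf.B 9 5 (Pf.B 9 1 (Pf.C 67 137) (Pf.W 99 9 [] [2,4,5,6,7,8] (Pf.cons (Pf.B 10 8 (Pf.B 10 5 (Pf.B 10 6 (Pf.B 10 4 (Pf.C 76 522) (Pf.B 10 2 (Pf.C 6 0x20828305) (Pf.C 3 266))) (Pf.C 6 0x50c28488)) (Pf.C 3 650)) (Pf.C 3 1034)) (Pf.cons (Pf.B 10 8 (Pf.C 88 1034) (Pf.B 10 7 (Pf.C 0 0xe2440a) (Pf.C 4 906))) Pf.nil)))) (Pf.C 6 0x60a24202)) (Pf.C 68 265)) (Pf.C 68 393)) (Pf.C 2 521)) (Pf.C 2 777))) (Pf.cons (Pf.B 9 4 (Pf.C 5 0x24404) (Pf.C 91 521)) Pf.nil))) (Pf.C 6 0x20820305))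 (Pf.B 8 4 (Pf.C 6 0x50c20104) (Pf.C 0 0xc1c404))) (Pf.C 81 136)) (Pf.C 3 264)) (Pf.C 3 392)) (Pf.C 3 648)) Pf.nil))) (Pf.W 99 6 [] [2,4,5,7] (Pf.cons (Pf.B 8 5 (Pf.B 8 4 (Pf.C 76 520) (Pf.B 8 2 (Pf.C 6 0x20820305) (Pf.C 3 264))) (Pf.C 3 648)) (Pf.cons (Pf.B 8 7 (Pf.B 8 5 (Pf.C 88 648) (Pf.C 0 0xe18288)) (Pf.C 4 904)) Pf.nil)))) (Pf.C 0 0x210107)) (Pf.C 4 135)))) Pf.nil)))) (Pf.C 68 262)) (Pf.C 68 390)) (Pf.C 2 518)) (Pf.cons (Pf.B 6 4 (Pf.C 5 98948) (Pf.C 91 518)) Pf.nil))) (Pf.C 81 133)) (Pf.C 3 261)) (Pf.C 3 389)) (Pf.cons (Pf.B 5 2 (Pf.C 92 261) (Pf.B 5 1 (Pf.C 0 0x210105) (Pf.C 4 133))) Pf.nil)))) (Pf.B 4 1 (Pf.W 101 4 [] [1,2,3] (Pf.cons (Pf.B 5 1 (Pf.C 5 17028) (Pf.C 81 133)) (Pf.cons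 (Pf.B 5 3 (Pf.C 92 389) (Pf.B 5 2 (Pf.C 92 261) (Pf.C 0 0x610282))) Pf.nil))) (Pf.W 101 4 [] [1,2,3] (Pf.cons (Pf.B 5 3 (Pf.B 5 2 (Pf.B 5 1 (Pf.W 107 5 [] [2,3,4] (Pf.cons (Pf.B 6 4 (Pf.B 6 3 (Pf.B 6 2 (Pf.C 6 0x30808286) (Pf.C 68 262)) (Pf.C 68 390)) (Pf.C 2 518)) (Pf.cons (Pf.B 6 4 (Pf.C 5 98948) (Pf.C 91 518)) Pf.nil))) (Pf.C 81 133)) (Pf.C 3 261)) (Pf.C 3 389)) (Pf.cons (Pf.B 5 3 (Pf.C 92 389) (Pf.B 5 2 (Pf.C 92 261) (Pf.C 0 0x610282))) Pf.nil))))) (Pf.cons (Pf.B 4 1 (Pf.B 4 3 (Pf.W 115 4 [] [1,2,3] (Pf.cons (Pf.B 5 3 (Pf.C 5 65925) (Pf.C 70 389)) (Pf.cons (Pf.B 5 3 (Pf.B 5 2 (Pf.B 5 1 (Pf.W 107 5 [] [1,2,3,4] (Pf.cons (Pf.B 6 4 (Pf.C 67 518) (Pf.B 6 1 (Pf.C 67 134) (Pf.W 116 1 [] [2,3,4,5,6]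 (Pf.cons (Pf.B 7 6 (Pf.B 7 5 (Pf.C 5 17031) (Pf.B 7 4 (Pf.B 7 3 (Pf.C 5 16775) (Pf.B 7 2 (Pf.C 5 65799) (Pf.W 101 7 [] [1,2,3] (Pf.cons (Pf.B 8 1 (Pf.C 5 17415) (Pf.C 81 136)) (Pf.cons (Pf.B 8 3 (Pf.C 92 392) (Pf.B 8 2 (Pf.C 92 264) (Pf.C 0 0x61c402))) Pf.nil))))) (Pf.C 0 0xc14207))) (Pf.C 2 775)) (Pf.cons (Pf.B 7 6 (Pf.B 7 5 (Pf.B 7 3 (Pf.B 7 2 (Pf.B 7 4 (Pf.C 8 0x2021c284) (Pf.W 108 7 [] [1,3,4,5,6] (Pf.cons (Pf.B 8 3 (Pf.B 8 4 (Pf.C 5 65928) (Pf.B 8 1 (Pf.C 69 136) (Pf.C 0 0x81c401))) (Pf.C 70 392)) (Pf.cons (Pf.B 8 6 (Pf.C 5 0x20386) (Pf.B 8 4 (Pf.B 8 5 (Pf.B 8 3 (Pf.C 92 392) (Pf.C 8 0x70814188)) (Pf.C 0 0x818288)) (Pf.C 4 520))) Pf.nil)))) (Pf.C 3 263)) (Pf.C 3 391)) (Pf.C 3 647))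 (Pf.C 68 902)) Pf.nil))))) (Pf.cons (Pf.B 6 4 (Pf.B 6 3 (Pf.C 90 390) (Pf.B 6 2 (Pf.C 90 262) (Pf.C 8 0x30c08284))) (Pf.C 4 518)) Pf.nil))) (Pf.C 81 133)) (Pf.C 3 261)) (Pf.C 3 389)) Pf.nil))) (Pf.W 115 4 [] [1,2,3] (Pf.cons (Pf.B 5 2 (Pf.C 5 65797) (Pf.C 70 261)) (Pf.cons (Pf.B 5 3 (Pf.B 5 2 (Pf.B 5 1 (Pf.C 8 0x30814101) (Pf.C 81 133)) (Pf.C 3 261)) (Pf.C 3 389)) Pf.nil)))) (Pf.C 4 132)) Pf.nil))) (Pf.C 3 259)))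
 (Pq.cons (Pq.L [] 3 (Pf.B 3 2 (Pf.W 109 3 [] [1,2] (Pf.cons (Pf.B 4 1 (Pf.B 4 2 (Pf.W 101 4 [] [1,2,3] (Pf.cons (Pf.B 5 3 (Pf.B 5 2 (Pf.B 5 1 (Pf.C 80 133) (Pf.C 6 0x20214203)) (Pf.C 3 261)) (Pf.C 3 389)) (Pf.cons (Pf.B 5 3 (Pf.C 92 389) (Pf.B 5 2 (Pf.C 92 261) (Pf.W 109 2 [] [1,3,4,5] (Pf.cons (Pf.B 6 4 (Pf.B 6 1 (Pf.B 6 3 (Pf.C 6 0x10418203) (Pf.B 6 5 (Pf.W 101 6 [] [1,2,3,4,5] (Pf.cons (Pf.B 7 5 (Pf.C 5 82822) (Pf.B 7 3 (Pf.B 7 4 (Pf.B 7 1 (Pf.C 80 135) (Pf.C 6 0x60610087)) (Pf.C 0 0x614207)) (Pf.C 3 391))) (Pf.cons (Pf.B 7 3 (Pf.C 92 391) (Pf.B 7 2 (Pf.C 92 263) (Pf.C 0 0x618382))) Pf.nil))) (Pf.C 0 0x80c286))) (Pf.C 2 134)) (Pf.C 2 518)) (Pf.cons (Pf.B 6 5 (Pf.B 6 4 (Pf.C 5 98564)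 (Pf.B 6 3 (Pf.B 6 1 (Pf.C 5 98689) (Pf.C 95 134)) (Pf.C 0 0xa10186))) (Pf.C 4 646)) Pf.nil))))) Pf.nil))) (Pf.W 101 4 [] [1,2,3] (Pf.cons (Pf.B 5 3 (Pf.B 5 2 (Pf.B 5 1 (Pf.C 80 133) (Pf.W 107 5 [] [2,3,4] (Pf.cons (Pf.B 6 4 (Pf.B 6 3 (Pf.B 6 2 (Pf.C 6 0x30808286) (Pf.C 68 262)) (Pf.C 68 390)) (Pf.C 2 518)) (Pf.cons (Pf.B 6 4 (Pf.C 5 98948) (Pf.C 91 518)) Pf.nil)))) (Pf.C 3 261)) (Pf.C 3 389)) (Pf.cons (Pf.B 5 3 (Pf.C 92 389) (Pf.B 5 2 (Pf.C 92 261) (Pf.C 0 0x610282))) Pf.nil)))) (Pf.C 2 132)) (Pf.cons (Pf.B 4 1 (Pf.C 5 65921) (Pf.C 95 132)) Pf.nil))) (Pf.C 3 259)))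
 (Pq.cons (Pq.L [] 1 (Pf.C 3 257))
 (Pq.cons (Pq.L [] 3 (Pf.B 3 2 (Pf.W 115 1 [] [2,3] (Pf.cons (Pf.B 4 3 (Pf.C 5 16772) (Pf.C 70 388)) (Pf.cons (Pf.B 4 3 (Pf.B 4 2 (Pf.W 109 2 [] [1,3,4] (Pf.cons (Pf.B 5 4 (Pf.W 107 4 [] [1,2,3,5] (Pf.cons (Pf.B 6 5 (Pf.B 6 3 (Pf.B 6 2 (Pf.B 6 1 (Pf.C 67 134) (Pf.W 99 6 [] [1,2,4,5] (Pf.cons (Pf.B 7 5 (Pf.C 76 647) (Pf.B 7 4 (Pf.B 7 2 (Pf.C 6 0x20a1c304) (Pf.C 3 263)) (Pf.C 3 519))) (Pf.cons (Pf.B 7 4 (Pf.C 88 519) (Pf.B 7 1 (Pf.C 0 0x218207) (Pf.C 4 135))) Pf.nil)))) (Pf.C 68 262)) (Pf.C 68 390)) (Pf.C 2 646)) (Pf.cons (Pf.B 6 5 (Pf.C 5 98821) (Pf.C 91 646)) Pf.nil))) (Pf.B 5 1 (Pf.B 5 3 (Pf.C 5 16773) (Pf.W 101 5 [] [1,2,3] (Pf.cons (Pf.B 6 3 (Pf.B 6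 2 (Pf.B 6 1 (Pf.C 5 17157) (Pf.W 107 6 [] [2,3,5] (Pf.cons (Pf.B 7 5 (Pf.B 7 3 (Pf.B 7 2 (Pf.C 6 0x30a08307) (Pf.C 68 263)) (Pf.C 68 391)) (Pf.C 2 647)) (Pf.cons (Pf.B 7 5 (Pf.C 5 0x1c305) (Pf.C 91 647)) Pf.nil)))) (Pf.C 3 262)) (Pf.C 3 390)) (Pf.cons (Pf.B 6 3 (Pf.C 92 390) (Pf.B 6 2 (Pf.C 92 262) (Pf.C 0 0x614302))) Pf.nil)))) (Pf.C 0 0x804282))) (Pf.cons (Pf.B 5 1 (Pf.B 5 4 (Pf.B 5 3 (Pf.W 115 5 [] [1,2,3,4] (Pf.cons (Pf.B 6 3 (Pf.C 5 82310) (Pf.C 70 390)) (Pf.cons (Pf.B 6 4 (Pf.B 6 3 (Pf.B 6 2 (Pf.B 6 1 (Pf.C 8 0x40208286) (Pf.W 107 6 [] [1,2,3,5] (Pf.cons (Pf.B 7 5 (Pf.C 67 647) (Pf.B 7 1 (Pf.C 67 135) (Pf.C 0 0xa18381))) (Pf.cons (Pf.B 7 5 (Pf.B 7 3 (Pf.C 90 391) (Pf.B 7 2 (Pf.C 90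 263) (Pf.C 8 0x30e08305))) (Pf.C 4 647)) Pf.nil)))) (Pf.C 3 262)) (Pf.C 3 390)) (Pf.C 3 518)) Pf.nil))) (Pf.C 8 0x40208185)) (Pf.W 107 4 [] [1,2,3,5] (Pf.cons (Pf.B 6 5 (Pf.C 67 646) (Pf.B 6 1 (Pf.C 67 134) (Pf.C 0 0xa10301))) (Pf.cons (Pf.B 6 5 (Pf.B 6 3 (Pf.C 90 390) (Pf.B 6 2 (Pf.C 90 262) (Pf.B 6 1 (Pf.W 113 6 [] [2,4,5] (Pf.cons (Pf.B 7 4 (Pf.C 5 98823) (Pf.C 66 519)) (Pf.cons (Pf.B 7 5 (Pf.B 7 4 (Pf.B 7 2 (Pf.C 8 0x20c1c284) (Pf.C 3 263)) (Pf.C 3 519)) (Pf.C 77 647)) Pf.nil))) (Pf.C 4 134)))) (Pf.C 4 646)) Pf.nil)))) (Pf.C 4 133)) Pf.nil))) (Pf.C 3 260)) (Pf.C 3 388)) Pf.nil))) (Pf.C 3 259)))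
 Pq.nil)))))))))))))
theorem e4_o9 : AllRef e4_T e4_G6 (List.take 13 (splitObl [47,58,69,50] [57,68,49,60,67,48,59,70])) :=
  chkPq_sound e4_o9c _ (by decide +kernel)
noncomputable def e4_o10c : Pq := (Pq.cons (Pq.L [] 3 (Pf.B 3 2 (Pf.W 102 1 [] [2,3] (Pf.cons (Pf.B 4 3 (Pf.B 4 2 (Pf.W 108 4 [] [1,2,3] (Pf.cons (Pf.B 5 3 (Pf.B 5 2 (Pf.B 5 1 (Pf.W 100 5 [] [1,2,3,4] (Pf.cons (Pf.B 6 4 (Pf.B 6 2 (Pf.B 6 1 (Pf.C 78 134) (Pf.C 6 0x20218284)) (Pf.C 3 262)) (Pf.C 3 518)) (Pf.cons (Pf.B 6 4 (Pf.C 90 518) (Pf.B 6 3 (Pf.C 90 390) (Pf.B 6 2 (Pf.C 90 262) (Pf.W 109 2 [] [1,3,4,5,6] (Pf.cons (Pf.B 7 6 (Pf.B 7 5 (Pf.B 7 1 (Pf.B 7 4 (Pf.C 6 0x1041c284) (Pf.B 7 3 (Pf.W 101 7 [] [1,2,4,5,6] (Pf.cons (Pf.B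 8 6 (Pf.C 5 99335) (Pf.B 8 4 (Pf.B 8 5 (Pf.B 8 1 (Pf.C 80 136) (Pf.C 6 0x70814088)) (Pf.C 0 0x818288)) (Pf.C 3 520))) (Pf.cons (Pf.B 8 2 (Pf.C 92 264) (Pf.B 8 4 (Pf.B 8 1 (Pf.C 5 0x20201) (Pf.C 93 136)) (Pf.C 0 0x41c404))) Pf.nil))) (Pf.W 101 7 [] [1,2,3,4] (Pf.cons (Pf.B 8 4 (Pf.B 8 3 (Pf.B 8 1 (Pf.C 80 136) (Pf.C 6 0x40e0c088)) (Pf.C 3 392)) (Pf.C 3 520)) (Pf.cons (Pf.B 8 3 (Pf.C 92 392) (Pf.B 8 2 (Pf.C 92 264) (Pf.C 0 0x61c402))) Pf.nil))))) (Pf.C 2 135)) (Pf.C 2 647)) (Pf.C 91 902)) (Pf.cons (Pf.B 7 6 (Pf.B 7 5 (Pf.C 5 0x1c105) (Pf.B 7 4 (Pf.B 7 1 (Pf.C 5 0x1c201) (Pf.B 7 3 (Pf.W 115 7 [] [1,2,3,4,5,6] (Pf.cons (Pf.B 8 3 (Pf.C 5 0x1c188) (Pf.C 70 392)) (Pf.cons (Pf.B 8 4 (Pf.B 8 3 (Pf.B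 8 6 (Pf.C 8 0x40c0c388) (Pf.B 8 5 (Pf.B 8 2 (Pf.B 8 1 (Pf.C 80 136) (Pf.C 6 0x20220284)) (Pf.C 3 264)) (Pf.C 0 0x818288))) (Pf.C 3 392)) (Pf.C 3 520)) Pf.nil))) (Pf.W 115 7 [] [1,2,4,5,6] (Pf.cons (Pf.B 8 2 (Pf.C 5 0x1c108) (Pf.C 70 264)) (Pf.cons (Pf.B 8 4 (Pf.B 8 2 (Pf.B 8 6 (Pf.C 8 0x40c08388) (Pf.B 8 5 (Pf.B 8 1 (Pf.C 80 136) (Pf.C 6 0x20220284)) (Pf.C 0 0x818288))) (Pf.C 3 264)) (Pf.C 3 520)) Pf.nil))))) (Pf.C 0 0xc14207))) (Pf.C 4 775)) Pf.nil)))))) Pf.nil))) (Pf.C 2 133)) (Pf.C 70 261)) (Pf.C 70 389)) (Pf.cons (Pf.B 5 1 (Pf.C 5 82433) (Pf.C 93 133)) Pf.nil))) (Pf.C 3 260)) (Pf.C 3 388)) (Pf.cons (Pf.B 4 3 (Pf.B 4 2 (Pf.W 115 4 [] [1,2,3] (Pf.cons (Pf.B 5 3 (Pf.C 5 65925) (Pf.C 70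 389)) (Pf.cons (Pf.B 5 3 (Pf.B 5 2 (Pf.B 5 1 (Pf.C 80 133) (Pf.W 107 5 [] [1,2,3,4] (Pf.cons (Pf.B 6 4 (Pf.C 67 518) (Pf.B 6 1 (Pf.C 0 0x214206) (Pf.C 2 134))) (Pf.cons (Pf.B 6 4 (Pf.B 6 3 (Pf.C 90 390) (Pf.B 6 2 (Pf.C 90 262) (Pf.C 8 0x30c08284))) (Pf.C 4 518)) Pf.nil)))) (Pf.C 3 261)) (Pf.C 3 389)) Pf.nil))) (Pf.W 115 4 [] [1,2,3] (Pf.cons (Pf.B 5 3 (Pf.C 5 65925) (Pf.C 70 389)) (Pf.cons (Pf.B 5 2 (Pf.B 5 1 (Pf.C 80 133) (Pf.C 0 0x410085)) (Pf.C 3 261)) Pf.nil)))) (Pf.B 4 2 (Pf.W 115 4 [] [1,2,3] (Pf.cons (Pf.B 5 2 (Pf.C 5 65797) (Pf.C 70 261)) (Pf.cons (Pf.B 5 3 (Pf.B 5 2 (Pf.B 5 1 (Pf.C 80 133) (Pf.W 107 5 [] [1,2,3,4] (Pf.cons (Pf.B 6 4 (Pf.C 67 518) (Pf.B 6 1 (Pf.C 0 0x214206) (Pf.C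 2 134))) (Pf.cons (Pf.B 6 4 (Pf.B 6 3 (Pf.C 90 390) (Pf.B 6 2 (Pf.C 90 262) (Pf.B 6 1 (Pf.W 113 6 [] [2,4,5] (Pf.cons (Pf.B 7 5 (Pf.C 5 98951) (Pf.C 66 647)) (Pf.cons (Pf.B 7 5 (Pf.B 7 4 (Pf.B 7 2 (Pf.C 8 0x20c1c284) (Pf.C 3 263)) (Pf.C 77 519)) (Pf.C 3 647)) Pf.nil))) (Pf.C 91 134)))) (Pf.C 4 518)) Pf.nil)))) (Pf.C 3 261)) (Pf.C 3 389)) Pf.nil))) (Pf.W 115 4 [] [1,2,3] (Pf.cons (Pf.B 5 3 (Pf.B 5 2 (Pf.B 5 1 (Pf.W 100 5 [] [1,2,3,4] (Pf.cons (Pf.B 6 4 (Pf.C 5 66309) (Pf.C 79 518)) (Pf.cons (Pf.B 6 4 (Pf.B 6 3 (Pf.C 90 390) (Pf.B 6 2 (Pf.C 90 262) (Pf.B 6 1 (Pf.W 109 2 [] [1,3,4,5,6] (Pf.cons (Pf.B 7 6 (Pf.B 7 5 (Pf.B 7 1 (Pf.B 7 4 (Pf.B 7 3 (Pf.W 101 7 [] [1,2,3,4,5,6] (Pf.cons (Pf.B 8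 4 (Pf.C 5 66567) (Pf.B 8 2 (Pf.B 8 1 (Pf.C 80 136) (Pf.C 0 0x410088)) (Pf.C 3 264))) (Pf.cons (Pf.B 8 6 (Pf.B 8 4 (Pf.B 8 3 (Pf.C 92 392) (Pf.B 8 2 (Pf.C 92 264) (Pf.B 8 1 (Pf.B 8 5 (Pf.W 114 8 [] [1,2,4,5,6,7] (Pf.cons (Pf.B 9 7 (Pf.B 9 5 (Pf.B 9 6 (Pf.B 9 4 (Pf.C 67 521) (Pf.B 9 1 (Pf.C 7 0x10824305) (Pf.C 2 137))) (Pf.C 7 0x50c24407)) (Pf.C 2 649)) (Pf.C 2 905)) (Pf.cons (Pf.B 9 7 (Pf.C 78 905) (Pf.B 9 2 (Pf.C 0 0x420389) (Pf.C 3 265))) Pf.nil))) (Pf.C 7 0x60a20201)) (Pf.C 93 136)))) (Pf.C 4 520)) (Pf.C 4 776)) Pf.nil))) (Pf.W 101 7 [] [1,2,3,4] (Pf.cons (Pf.B 8 4 (Pf.C 5 66567) (Pf.B 8 2 (Pf.B 8 1 (Pf.C 80 136) (Pf.C 0 0x410088)) (Pf.C 3 264))) (Pf.cons (Pf.B 8 3 (Pf.C 92 392) (Pf.B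 8 2 (Pf.C 92 264) (Pf.C 0 0x61c402))) Pf.nil)))) (Pf.C 0 0x208207)) (Pf.C 2 135)) (Pf.C 2 647)) (Pf.C 91 902)) (Pf.cons (Pf.B 7 6 (Pf.B 7 5 (Pf.C 5 0x1c105) (Pf.B 7 4 (Pf.B 7 1 (Pf.C 7 0x60a1c201) (Pf.B 7 3 (Pf.W 115 7 [] [1,2,3,4,5,6] (Pf.cons (Pf.B 8 3 (Pf.C 5 0x1c188) (Pf.C 70 392)) (Pf.cons (Pf.B 8 3 (Pf.B 8 2 (Pf.B 8 6 (Pf.C 8 0x30c08388) (Pf.B 8 5 (Pf.B 8 4 (Pf.C 5 66565) (Pf.B 8 1 (Pf.C 80 136) (Pf.C 0 0x410088))) (Pf.C 0 0xe14406))) (Pf.C 3 264)) (Pf.C 3 392)) Pf.nil))) (Pf.W 115 7 [] [1,2,4,5] (Pf.cons (Pf.B 8 2 (Pf.C 5 0x1c108) (Pf.C 70 264)) (Pf.cons (Pf.B 8 2 (Pf.B 8 1 (Pf.C 80 136) (Pf.B 8 5 (Pf.B 8 4 (Pf.C 5 66565) (Pf.C 0 0x404208)) (Pf.C 0 0x21c405))) (Pf.C 3 264)) Pf.nil)))))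 (Pf.C 4 519))) (Pf.C 4 775)) Pf.nil))) (Pf.C 91 134)))) (Pf.C 4 518)) Pf.nil))) (Pf.C 2 133)) (Pf.C 70 261)) (Pf.C 70 389)) (Pf.cons (Pf.B 5 2 (Pf.B 5 1 (Pf.C 80 133) (Pf.C 0 0x410085)) (Pf.C 3 261)) Pf.nil))))) Pf.nil))) (Pf.C 3 259)))
 (Pq.cons (Pq.L [] 1 (Pf.C 3 257))
 (Pq.cons (Pq.L [] 1 (Pf.C 85 130))
 (Pq.cons (Pq.L [] 1 (Pf.C 83 257))
 (Pq.cons (Pq.L [] 1 (Pf.C 4 257))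
 (Pq.cons (Pq.L [] 3 (Pf.B 3 2 (Pf.W 103 1 [] [2,3] (Pf.cons (Pf.B 4 3 (Pf.C 5 49665) (Pf.B 4 2 (Pf.W 109 4 [] [1,2,3] (Pf.cons (Pf.B 5 3 (Pf.C 71 389) (Pf.B 5 2 (Pf.C 71 261) (Pf.B 5 1 (Pf.W 101 5 [] [1,2,3,4] (Pf.cons (Pf.B 6 4 (Pf.B 6 3 (Pf.B 6 2 (Pf.B 6 1 (Pf.C 80 134) (Pf.W 107 6 [] [1,4,5] (Pf.cons (Pf.B 7 5 (Pf.B 7 4 (Pf.B 7 1 (Pf.C 6 0x10c1c284) (Pf.C 2 135)) (Pf.C 68 519)) (Pf.C 2 647)) (Pf.cons (Pf.B 7 5 (Pf.C 5 0x1c305) (Pf.C 91 647)) Pf.nil)))) (Pf.C 81 262)) (Pf.C 81 390)) (Pf.C 3 518)) (Pf.cons (Pf.B 6 4 (Pf.C 92 518) (Pf.B 6 3 (Pf.C 0 0x614206) (Pf.C 4 390))) Pf.nil))) (Pf.C 2 133)))) (Pf.cons (Pf.B 5 1 (Pf.C 5 82433) (Pf.C 95 133)) Pf.nil))) (Pf.W 109 4 [] [1,2,3] (Pf.cons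 (Pf.B 5 3 (Pf.C 71 389) (Pf.B 5 2 (Pf.C 71 261) (Pf.C 0 0x610282))) (Pf.cons (Pf.B 5 1 (Pf.C 5 82433) (Pf.C 95 133)) Pf.nil))))) (Pf.cons (Pf.B 4 3 (Pf.B 4 2 (Pf.W 117 2 [] [1,3,4] (Pf.cons (Pf.B 5 1 (Pf.B 5 4 (Pf.B 5 3 (Pf.W 102 5 [] [1,2,3,4] (Pf.cons (Pf.B 6 3 (Pf.C 5 49925) (Pf.C 83 390)) (Pf.cons (Pf.B 6 4 (Pf.B 6 2 (Pf.B 6 1 (Pf.C 7 0x40208286) (Pf.C 95 134)) (Pf.C 4 262)) (Pf.C 4 518)) Pf.nil))) (Pf.C 7 0x40208185)) (Pf.B 5 3 (Pf.W 116 4 [] [1,2,3,5] (Pf.cons (Pf.B 6 5 (Pf.B 6 3 (Pf.C 71 390) (Pf.B 6 2 (Pf.C 71 262) (Pf.C 7 0x30c08284))) (Pf.C 2 646)) (Pf.cons (Pf.B 6 3 (Pf.B 6 5 (Pf.C 5 49925) (Pf.B 6 1 (Pf.C 82 134) (Pf.C 0 0xa10301))) (Pf.C 83 390)) Pf.nil))) (Pf.W 102 5 [] [1,2,3]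 (Pf.cons (Pf.B 6 2 (Pf.C 5 33541) (Pf.C 83 262)) (Pf.cons (Pf.B 6 3 (Pf.B 6 2 (Pf.B 6 1 (Pf.C 7 0x30a18101) (Pf.C 95 134)) (Pf.C 4 262)) (Pf.C 4 390)) Pf.nil))))) (Pf.C 2 133)) (Pf.cons (Pf.B 5 4 (Pf.B 5 3 (Pf.B 5 1 (Pf.C 5 49793) (Pf.W 116 4 [] [1,2,3,5] (Pf.cons (Pf.B 6 5 (Pf.C 5 66182) (Pf.B 6 2 (Pf.C 71 262) (Pf.B 6 1 (Pf.C 0 0x214106) (Pf.C 2 134)))) (Pf.cons (Pf.B 6 5 (Pf.B 6 3 (Pf.B 6 2 (Pf.B 6 1 (Pf.C 82 134) (Pf.W 108 6 [] [1,2,4,5] (Pf.cons (Pf.B 7 4 (Pf.C 69 519) (Pf.B 7 1 (Pf.C 0 0x218207) (Pf.C 2 135))) (Pf.cons (Pf.B 7 5 (Pf.C 92 647) (Pf.B 7 4 (Pf.B 7 2 (Pf.C 8 0x20a1c304) (Pf.C 4 263)) (Pf.C 4 519))) Pf.nil)))) (Pf.C 83 262)) (Pf.C 83 390)) (Pf.C 3 646)) Pf.nil)))) (Pf.W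 116 4 [] [2,3,5] (Pf.cons (Pf.B 6 5 (Pf.C 5 66182) (Pf.B 6 3 (Pf.C 71 390) (Pf.B 6 2 (Pf.C 71 262) (Pf.C 0 0x614302)))) (Pf.cons (Pf.B 6 5 (Pf.B 6 3 (Pf.B 6 2 (Pf.C 8 0x30a08206) (Pf.C 83 262)) (Pf.C 83 390)) (Pf.C 3 646)) Pf.nil)))) (Pf.B 5 1 (Pf.B 5 3 (Pf.C 5 49793) (Pf.W 109 5 [] [1,2,3] (Pf.cons (Pf.B 6 3 (Pf.C 71 390) (Pf.B 6 2 (Pf.C 71 262) (Pf.C 0 0x614302))) (Pf.cons (Pf.B 6 1 (Pf.C 5 98945) (Pf.C 95 134)) Pf.nil)))) (Pf.C 0 0x804282))) Pf.nil))) (Pf.C 4 260)) (Pf.C 4 388)) Pf.nil))) (Pf.C 4 259)))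
 (Pq.cons (Pq.L [] 3 (Pf.B 3 2 (Pf.W 117 3 [] [1,2] (Pf.cons (Pf.B 4 1 (Pf.C 5 49284) (Pf.C 74 132)) (Pf.cons (Pf.B 4 1 (Pf.B 4 2 (Pf.W 109 4 [] [1,2,3] (Pf.cons (Pf.B 5 3 (Pf.C 71 389) (Pf.B 5 2 (Pf.C 71 261) (Pf.W 117 2 [] [1,3,4,5] (Pf.cons (Pf.B 6 5 (Pf.B 6 4 (Pf.C 5 33286) (Pf.B 6 3 (Pf.B 6 1 (Pf.C 5 49286) (Pf.C 74 134)) (Pf.C 0 0xa10186))) (Pf.C 2 646)) (Pf.cons (Pf.B 6 4 (Pf.B 6 1 (Pf.B 6 3 (Pf.C 8 0x10418203) (Pf.B 6 5 (Pf.W 109 6 [] [1,2,3,4,5] (Pf.cons (Pf.B 7 3 (Pf.C 71 391) (Pf.B 7 2 (Pf.C 71 263) (Pf.C 0 0x618382))) (Pf.cons (Pf.B 7 5 (Pf.C 5 0x1c305) (Pf.B 7 3 (Pf.B 7 4 (Pf.B 7 1 (Pf.C 94 135) (Pf.C 8 0x60610087)) (Pf.C 0 0x614207)) (Pf.C 4 391))) Pf.nil))) (Pf.C 0 0x80c286)))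 (Pf.C 3 134)) (Pf.C 3 518)) Pf.nil))))) (Pf.cons (Pf.B 5 3 (Pf.B 5 2 (Pf.B 5 1 (Pf.C 94 133) (Pf.C 8 0x20214203)) (Pf.C 4 261)) (Pf.C 4 389)) Pf.nil))) (Pf.W 109 4 [] [1,2,3] (Pf.cons (Pf.B 5 3 (Pf.C 71 389) (Pf.B 5 2 (Pf.C 71 261) (Pf.C 0 0x610282))) (Pf.cons (Pf.B 5 3 (Pf.B 5 2 (Pf.B 5 1 (Pf.C 94 133) (Pf.W 115 5 [] [2,3,4] (Pf.cons (Pf.B 6 4 (Pf.C 5 82438) (Pf.C 70 518)) (Pf.cons (Pf.B 6 4 (Pf.B 6 3 (Pf.B 6 2 (Pf.C 8 0x30808286) (Pf.C 81 262)) (Pf.C 81 390)) (Pf.C 3 518)) Pf.nil)))) (Pf.C 4 261)) (Pf.C 4 389)) Pf.nil)))) (Pf.C 3 132)) Pf.nil))) (Pf.C 4 259)))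
 (Pq.cons (Pq.L [] 1 (Pf.C 4 257))
 (Pq.cons (Pq.L [] 3 (Pf.B 3 2 (Pf.W 102 1 [] [2,3] (Pf.cons (Pf.B 4 3 (Pf.C 5 49665) (Pf.C 83 388)) (Pf.cons (Pf.B 4 3 (Pf.B 4 2 (Pf.W 117 2 [] [1,3,4] (Pf.cons (Pf.B 5 1 (Pf.B 5 4 (Pf.B 5 3 (Pf.W 102 5 [] [1,2,3,4] (Pf.cons (Pf.B 6 3 (Pf.C 5 49925) (Pf.C 83 390)) (Pf.cons (Pf.B 6 4 (Pf.B 6 3 (Pf.B 6 2 (Pf.B 6 1 (Pf.C 7 0x40208286) (Pf.W 115 6 [] [1,2,3,5] (Pf.cons (Pf.B 7 5 (Pf.B 7 3 (Pf.C 69 391) (Pf.B 7 2 (Pf.C 69 263) (Pf.C 7 0x30e08305))) (Pf.C 2 647)) (Pf.cons (Pf.B 7 5 (Pf.C 80 647) (Pf.B 7 1 (Pf.C 80 135) (Pf.C 0 0xa18381))) Pf.nil)))) (Pf.C 4 262)) (Pf.C 4 390)) (Pf.C 4 518)) Pf.nil))) (Pf.C 7 0x40208185)) (Pf.W 115 4 [] [1,2,3,5] (Pf.cons (Pf.B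 6 5 (Pf.B 6 3 (Pf.C 69 390) (Pf.B 6 2 (Pf.C 69 262) (Pf.B 6 1 (Pf.W 100 6 [] [2,4,5] (Pf.cons (Pf.B 7 4 (Pf.C 5 66438) (Pf.C 79 519)) (Pf.cons (Pf.B 7 5 (Pf.B 7 4 (Pf.B 7 2 (Pf.C 7 0x20c1c284) (Pf.C 4 263)) (Pf.C 4 519)) (Pf.C 91 647)) Pf.nil))) (Pf.C 2 134)))) (Pf.C 2 646)) (Pf.cons (Pf.B 6 5 (Pf.C 80 646) (Pf.B 6 1 (Pf.C 80 134) (Pf.C 0 0xa10301))) Pf.nil)))) (Pf.C 2 133)) (Pf.cons (Pf.B 5 4 (Pf.W 115 4 [] [1,2,3,5] (Pf.cons (Pf.B 6 5 (Pf.C 5 66182) (Pf.C 70 646)) (Pf.cons (Pf.B 6 5 (Pf.B 6 3 (Pf.B 6 2 (Pf.B 6 1 (Pf.C 80 134) (Pf.W 107 6 [] [1,2,4,5] (Pf.cons (Pf.B 7 4 (Pf.C 67 519) (Pf.B 7 1 (Pf.C 0 0x218207) (Pf.C 2 135))) (Pf.cons (Pf.B 7 5 (Pf.C 90 647) (Pf.B 7 4 (Pf.B 7 2 (Pf.C 8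 0x20a1c304) (Pf.C 4 263)) (Pf.C 4 519))) Pf.nil)))) (Pf.C 81 262)) (Pf.C 81 390)) (Pf.C 3 646)) Pf.nil))) (Pf.B 5 1 (Pf.B 5 3 (Pf.C 5 49793) (Pf.W 109 5 [] [1,2,3] (Pf.cons (Pf.B 6 3 (Pf.C 71 390) (Pf.B 6 2 (Pf.C 71 262) (Pf.C 0 0x614302))) (Pf.cons (Pf.B 6 3 (Pf.B 6 2 (Pf.B 6 1 (Pf.C 5 98945) (Pf.W 115 6 [] [2,3,5] (Pf.cons (Pf.B 7 5 (Pf.C 5 98951) (Pf.C 70 647)) (Pf.cons (Pf.B 7 5 (Pf.B 7 3 (Pf.B 7 2 (Pf.C 8 0x30a08307) (Pf.C 81 263)) (Pf.C 81 391)) (Pf.C 3 647)) Pf.nil)))) (Pf.C 4 262)) (Pf.C 4 390)) Pf.nil)))) (Pf.C 0 0x804282))) Pf.nil))) (Pf.C 4 260)) (Pf.C 4 388)) Pf.nil))) (Pf.C 4 259)))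
 (Pq.cons (Pq.L [] 3 (Pf.B 3 2 (Pf.W 110 1 [] [2,3] (Pf.cons (Pf.B 4 3 (Pf.B 4 2 (Pf.W 102 4 [] [1,2,3] (Pf.cons (Pf.B 5 3 (Pf.C 5 49796) (Pf.C 83 389)) (Pf.cons (Pf.B 5 3 (Pf.B 5 2 (Pf.B 5 1 (Pf.C 94 133) (Pf.W 115 5 [] [1,2,3,4] (Pf.cons (Pf.B 6 4 (Pf.B 6 3 (Pf.C 69 390) (Pf.B 6 2 (Pf.C 69 262) (Pf.C 7 0x30c08284))) (Pf.C 2 518)) (Pf.cons (Pf.B 6 4 (Pf.C 80 518) (Pf.B 6 1 (Pf.C 0 0x214206) (Pf.C 3 134))) Pf.nil)))) (Pf.C 4 261)) (Pf.C 4 389)) Pf.nil))) (Pf.W 102 4 [] [1,2,3] (Pf.cons (Pf.B 5 3 (Pf.C 5 49796) (Pf.C 83 389)) (Pf.cons (Pf.B 5 2 (Pf.B 5 1 (Pf.C 94 133) (Pf.C 0 0x410085)) (Pf.C 4 261)) Pf.nil)))) (Pf.B 4 2 (Pf.W 102 4 [] [1,2,3] (Pf.cons (Pf.B 5 2 (Pf.C 5 33412) (Pf.C 83 261))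 (Pf.cons (Pf.B 5 3 (Pf.B 5 2 (Pf.B 5 1 (Pf.C 94 133) (Pf.W 115 5 [] [1,2,3,4] (Pf.cons (Pf.B 6 4 (Pf.B 6 3 (Pf.C 69 390) (Pf.B 6 2 (Pf.C 69 262) (Pf.B 6 1 (Pf.W 100 6 [] [2,4,5] (Pf.cons (Pf.B 7 5 (Pf.C 5 82822) (Pf.C 79 647)) (Pf.cons (Pf.B 7 5 (Pf.B 7 4 (Pf.B 7 2 (Pf.C 7 0x20c1c284) (Pf.C 4 263)) (Pf.C 91 519)) (Pf.C 4 647)) Pf.nil))) (Pf.C 70 134)))) (Pf.C 2 518)) (Pf.cons (Pf.B 6 4 (Pf.C 80 518) (Pf.B 6 1 (Pf.C 0 0x214206) (Pf.C 3 134))) Pf.nil)))) (Pf.C 4 261)) (Pf.C 4 389)) Pf.nil))) (Pf.W 102 4 [] [1,2,3] (Pf.cons (Pf.B 5 3 (Pf.B 5 2 (Pf.B 5 1 (Pf.W 108 5 [] [1,2,3,4] (Pf.cons (Pf.B 6 4 (Pf.B 6 3 (Pf.C 69 390) (Pf.B 6 2 (Pf.C 69 262) (Pf.B 6 1 (Pf.W 117 2 [] [1,3,4,5,6] (Pf.cons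 (Pf.B 7 6 (Pf.B 7 5 (Pf.C 5 33415) (Pf.B 7 4 (Pf.B 7 1 (Pf.C 6 0x60a1c201) (Pf.B 7 3 (Pf.W 102 7 [] [1,2,3,4,5,6] (Pf.cons (Pf.B 8 3 (Pf.C 5 50183) (Pf.C 83 392)) (Pf.cons (Pf.B 8 3 (Pf.B 8 2 (Pf.B 8 6 (Pf.C 7 0x30c08388) (Pf.B 8 5 (Pf.B 8 4 (Pf.C 5 0x20284) (Pf.B 8 1 (Pf.C 94 136) (Pf.C 0 0x410088))) (Pf.C 0 0xe14406))) (Pf.C 4 264)) (Pf.C 4 392)) Pf.nil))) (Pf.W 102 7 [] [1,2,4,5] (Pf.cons (Pf.B 8 2 (Pf.C 5 33799) (Pf.C 83 264)) (Pf.cons (Pf.B 8 2 (Pf.B 8 1 (Pf.C 94 136) (Pf.B 8 5 (Pf.B 8 4 (Pf.C 5 0x20284) (Pf.C 0 0x404208)) (Pf.C 0 0x21c405))) (Pf.C 4 264)) Pf.nil))))) (Pf.C 2 519))) (Pf.C 2 775)) (Pf.cons (Pf.B 7 6 (Pf.B 7 5 (Pf.B 7 1 (Pf.B 7 4 (Pf.B 7 3 (Pf.W 109 7 [] [1,2,3,4,5,6]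 (Pf.cons (Pf.B 8 6 (Pf.B 8 4 (Pf.B 8 3 (Pf.C 71 392) (Pf.B 8 2 (Pf.C 71 264) (Pf.B 8 1 (Pf.B 8 5 (Pf.W 101 8 [] [1,2,4,5,6,7] (Pf.cons (Pf.B 9 7 (Pf.B 9 5 (Pf.B 9 6 (Pf.B 9 4 (Pf.C 80 521) (Pf.B 9 1 (Pf.C 6 0x10824305) (Pf.C 3 137))) (Pf.C 6 0x50c24407)) (Pf.C 3 649)) (Pf.C 3 905)) (Pf.cons (Pf.B 9 7 (Pf.C 92 905) (Pf.B 9 2 (Pf.C 0 0x420389) (Pf.C 4 265))) Pf.nil))) (Pf.C 6 0x60a20201)) (Pf.C 72 136)))) (Pf.C 2 520)) (Pf.C 2 776)) (Pf.cons (Pf.B 8 4 (Pf.C 5 0x20384) (Pf.B 8 2 (Pf.B 8 1 (Pf.C 94 136) (Pf.C 0 0x410088)) (Pf.C 4 264))) Pf.nil))) (Pf.W 109 7 [] [1,2,3,4] (Pf.cons (Pf.B 8 3 (Pf.C 71 392) (Pf.B 8 2 (Pf.C 71 264) (Pf.C 0 0x61c402))) (Pf.cons (Pf.B 8 4 (Pf.C 5 0x20384) (Pf.B 8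 2 (Pf.B 8 1 (Pf.C 94 136) (Pf.C 0 0x410088)) (Pf.C 4 264))) Pf.nil)))) (Pf.C 0 0x208207)) (Pf.C 3 135)) (Pf.C 3 647)) (Pf.C 70 902)) Pf.nil))) (Pf.C 70 134)))) (Pf.C 2 518)) (Pf.cons (Pf.B 6 4 (Pf.C 5 98948) (Pf.C 93 518)) Pf.nil))) (Pf.C 3 133)) (Pf.C 83 261)) (Pf.C 83 389)) (Pf.cons (Pf.B 5 2 (Pf.B 5 1 (Pf.C 94 133) (Pf.C 0 0x410085)) (Pf.C 4 261)) Pf.nil))))) (Pf.cons (Pf.B 4 3 (Pf.B 4 2 (Pf.W 116 4 [] [1,2,3] (Pf.cons (Pf.B 5 1 (Pf.C 5 65669) (Pf.C 72 133)) (Pf.cons (Pf.B 5 3 (Pf.B 5 2 (Pf.B 5 1 (Pf.W 108 5 [] [1,2,3,4] (Pf.cons (Pf.B 6 4 (Pf.C 69 518) (Pf.B 6 3 (Pf.C 69 390) (Pf.B 6 2 (Pf.C 69 262) (Pf.W 117 2 [] [1,3,4,5,6] (Pf.cons (Pf.B 7 6 (Pf.B 7 5 (Pf.C 5 33415) (Pf.B 7 4 (Pf.B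 7 1 (Pf.C 5 65671) (Pf.B 7 3 (Pf.W 102 7 [] [1,2,3,4,5,6] (Pf.cons (Pf.B 8 3 (Pf.C 5 50183) (Pf.C 83 392)) (Pf.cons (Pf.B 8 4 (Pf.B 8 3 (Pf.B 8 6 (Pf.C 7 0x40c0c388) (Pf.B 8 5 (Pf.B 8 2 (Pf.B 8 1 (Pf.C 94 136) (Pf.C 8 0x20220284)) (Pf.C 4 264)) (Pf.C 0 0x818288))) (Pf.C 4 392)) (Pf.C 4 520)) Pf.nil))) (Pf.W 102 7 [] [1,2,4,5,6] (Pf.cons (Pf.B 8 2 (Pf.C 5 33799) (Pf.C 83 264)) (Pf.cons (Pf.B 8 4 (Pf.B 8 2 (Pf.B 8 6 (Pf.C 7 0x40c08388) (Pf.B 8 5 (Pf.B 8 1 (Pf.C 94 136) (Pf.C 8 0x20220284)) (Pf.C 0 0x818288))) (Pf.C 4 264)) (Pf.C 4 520)) Pf.nil))))) (Pf.C 0 0xc14207))) (Pf.C 2 775)) (Pf.cons (Pf.B 7 6 (Pf.B 7 5 (Pf.B 7 1 (Pf.B 7 4 (Pf.C 8 0x1041c284) (Pf.B 7 3 (Pf.W 109 7 [] [1,2,4,5,6] (Pf.cons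 (Pf.B 8 2 (Pf.C 71 264) (Pf.B 8 4 (Pf.B 8 1 (Pf.C 5 65672) (Pf.C 72 136)) (Pf.C 0 0x41c404))) (Pf.cons (Pf.B 8 6 (Pf.C 5 0x20386) (Pf.B 8 4 (Pf.B 8 5 (Pf.B 8 1 (Pf.C 94 136) (Pf.C 8 0x70814088)) (Pf.C 0 0x818288)) (Pf.C 4 520))) Pf.nil))) (Pf.W 109 7 [] [1,2,3,4] (Pf.cons (Pf.B 8 3 (Pf.C 71 392) (Pf.B 8 2 (Pf.C 71 264) (Pf.C 0 0x61c402))) (Pf.cons (Pf.B 8 4 (Pf.B 8 3 (Pf.B 8 1 (Pf.C 94 136) (Pf.C 8 0x40e0c088)) (Pf.C 4 392)) (Pf.C 4 520)) Pf.nil))))) (Pf.C 3 135)) (Pf.C 3 647)) (Pf.C 70 902)) Pf.nil)))))) (Pf.cons (Pf.B 6 4 (Pf.B 6 2 (Pf.B 6 1 (Pf.C 92 134) (Pf.C 8 0x20218284)) (Pf.C 4 262)) (Pf.C 4 518)) Pf.nil))) (Pf.C 3 133)) (Pf.C 83 261)) (Pf.C 83 389)) Pf.nil))) (Pf.C 4 260)) (Pf.C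 4 388)) Pf.nil))) (Pf.C 4 259)))
 (Pq.cons (Pq.L [] 1 (Pf.C 4 257))
 (Pq.cons (Pq.L [] 2 (Pf.C 82 385))
 (Pq.cons (Pq.L [] 1 (Pf.C 97 257))
 (Pq.cons (Pq.L [] 1 (Pf.C 2 257))
 (Pq.cons (Pq.L [] 3 (Pf.B 3 2 (Pf.W 104 2 [] [1,3] (Pf.cons (Pf.B 4 1 (Pf.B 4 3 (Pf.W 110 4 [] [1,2,3] (Pf.cons (Pf.B 5 3 (Pf.B 5 2 (Pf.B 5 1 (Pf.W 102 5 [] [1,2,3,4] (Pf.cons (Pf.B 6 4 (Pf.B 6 3 (Pf.C 82 390) (Pf.B 6 2 (Pf.C 82 262) (Pf.C 6 0x30c08284))) (Pf.C 3 518)) (Pf.cons (Pf.B 6 4 (Pf.C 94 518) (Pf.B 6 1 (Pf.C 94 134) (Pf.W 111 1 [] [2,3,4,5,6] (Pf.cons (Pf.B 7 6 (Pf.B 7 5 (Pf.B 7 3 (Pf.B 7 2 (Pf.B 7 4 (Pf.C 6 0x2021c284) (Pf.W 103 7 [] [1,3,4,5,6] (Pf.cons (Pf.B 8 6 (Pf.C 5 99335) (Pf.B 8 4 (Pf.B 8 5 (Pf.B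 8 3 (Pf.C 84 392) (Pf.C 6 0x70814188)) (Pf.C 0 0x818288)) (Pf.C 3 520))) (Pf.cons (Pf.B 8 3 (Pf.B 8 4 (Pf.C 5 0x20203) (Pf.B 8 1 (Pf.C 96 136) (Pf.C 0 0x81c401))) (Pf.C 97 392)) Pf.nil)))) (Pf.C 2 263)) (Pf.C 2 391)) (Pf.C 2 647)) (Pf.C 95 902)) (Pf.cons (Pf.B 7 6 (Pf.B 7 5 (Pf.C 5 0x1c085) (Pf.B 7 4 (Pf.B 7 3 (Pf.C 5 0x1c083) (Pf.B 7 2 (Pf.C 5 0x1c202) (Pf.W 117 7 [] [1,2,3] (Pf.cons (Pf.B 8 1 (Pf.C 5 0x1c088) (Pf.C 74 136)) (Pf.cons (Pf.B 8 3 (Pf.C 84 392) (Pf.B 8 2 (Pf.C 84 264) (Pf.C 0 0x61c402))) Pf.nil))))) (Pf.C 0 0xc14207))) (Pf.C 4 775)) Pf.nil))))) Pf.nil))) (Pf.C 74 133)) (Pf.C 2 261)) (Pf.C 2 389)) (Pf.cons (Pf.B 5 3 (Pf.C 5 82435) (Pf.C 97 389)) Pf.nil))) (Pf.W 110 4 [] [1,2,3]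 (Pf.cons (Pf.B 5 3 (Pf.B 5 2 (Pf.B 5 1 (Pf.C 6 0x30814101) (Pf.C 74 133)) (Pf.C 2 261)) (Pf.C 2 389)) (Pf.cons (Pf.B 5 2 (Pf.C 5 82434) (Pf.C 97 261)) Pf.nil)))) (Pf.C 3 132)) (Pf.cons (Pf.B 4 3 (Pf.B 4 1 (Pf.C 5 65667) (Pf.W 117 4 [] [1,2,3] (Pf.cons (Pf.B 5 3 (Pf.B 5 2 (Pf.B 5 1 (Pf.W 102 5 [] [1,2,3,4] (Pf.cons (Pf.B 6 4 (Pf.C 5 66309) (Pf.C 83 518)) (Pf.cons (Pf.B 6 4 (Pf.B 6 3 (Pf.B 6 2 (Pf.B 6 1 (Pf.C 94 134) (Pf.W 104 3 [] [1,2,4,5,6] (Pf.cons (Pf.B 7 6 (Pf.C 94 902) (Pf.B 7 4 (Pf.C 5 66435) (Pf.B 7 1 (Pf.B 7 2 (Pf.B 7 5 (Pf.W 110 7 [] [1,2,3,4,5,6] (Pf.cons (Pf.B 8 5 (Pf.B 8 3 (Pf.B 8 2 (Pf.B 8 1 (Pf.B 8 6 (Pf.B 8 4 (Pf.W 102 8 [] [1,2,3,4,5,6,7] (Pf.cons (Pf.B 9 4 (Pf.C 5 66696)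 (Pf.C 83 521)) (Pf.cons (Pf.B 9 7 (Pf.C 94 905) (Pf.B 9 6 (Pf.B 9 4 (Pf.B 9 3 (Pf.B 9 2 (Pf.B 9 5 (Pf.B 9 1 (Pf.C 94 137) (Pf.W 115 9 [] [2,4,5,6,7,8] (Pf.cons (Pf.B 10 8 (Pf.B 10 5 (Pf.B 10 6 (Pf.B 10 4 (Pf.C 69 522) (Pf.B 10 2 (Pf.C 7 0x20828305) (Pf.C 2 266))) (Pf.C 7 0x50c28488)) (Pf.C 2 650)) (Pf.C 2 1034)) (Pf.cons (Pf.B 10 8 (Pf.C 80 1034) (Pf.B 10 7 (Pf.C 0 0xe2440a) (Pf.C 3 906))) Pf.nil)))) (Pf.C 7 0x60a24202)) (Pf.C 95 265)) (Pf.C 95 393)) (Pf.C 4 521)) (Pf.C 4 777))) Pf.nil))) (Pf.C 7 0x20820305)) (Pf.B 8 4 (Pf.C 7 0x50c20104) (Pf.C 0 0xc1c404))) (Pf.C 74 136)) (Pf.C 2 264)) (Pf.C 2 392)) (Pf.C 2 648)) (Pf.cons (Pf.B 8 3 (Pf.C 5 0x20383) (Pf.C 97 392)) Pf.nil))) (Pf.W 115 6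 [] [2,4,5,7] (Pf.cons (Pf.B 8 5 (Pf.B 8 4 (Pf.C 69 520) (Pf.B 8 2 (Pf.C 7 0x20820305) (Pf.C 2 264))) (Pf.C 2 648)) (Pf.cons (Pf.B 8 7 (Pf.B 8 5 (Pf.C 80 648) (Pf.C 0 0xe18288)) (Pf.C 3 904)) Pf.nil)))) (Pf.C 0 0x210107)) (Pf.C 3 135)))) (Pf.cons (Pf.B 7 6 (Pf.B 7 4 (Pf.B 7 5 (Pf.B 7 2 (Pf.B 7 1 (Pf.C 5 0x1c085) (Pf.W 111 1 [] [2,3,4,5,6,7] (Pf.cons (Pf.B 8 6 (Pf.B 8 5 (Pf.B 8 3 (Pf.B 8 7 (Pf.B 8 2 (Pf.B 8 4 (Pf.W 103 8 [] [1,2,3,4,5,6,7] (Pf.cons (Pf.B 9 4 (Pf.C 5 66696) (Pf.B 9 2 (Pf.C 84 265) (Pf.B 9 1 (Pf.C 0 0x210109) (Pf.C 3 137)))) (Pf.cons (Pf.B 9 7 (Pf.B 9 6 (Pf.B 9 4 (Pf.B 9 3 (Pf.B 9 5 (Pf.B 9 2 (Pf.B 9 1 (Pf.C 96 137) (Pf.W 116 9 [] [1,4,5,6,7,8] (Pf.cons (Pf.B 10 8 (Pf.B 10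 7 (Pf.C 71 906) (Pf.B 10 6 (Pf.B 10 5 (Pf.B 10 4 (Pf.C 71 522) (Pf.C 7 0x71410305)) (Pf.C 2 650)) (Pf.C 7 0x71418488))) (Pf.C 2 1034)) (Pf.cons (Pf.B 10 8 (Pf.C 82 1034) (Pf.B 10 1 (Pf.C 0 0x22440a) (Pf.C 3 138))) Pf.nil)))) (Pf.C 97 265)) (Pf.C 7 0x60a24383)) (Pf.C 97 393)) (Pf.C 4 521)) (Pf.C 4 777)) (Pf.C 4 905)) Pf.nil))) (Pf.C 0 0x404208)) (Pf.C 2 264)) (Pf.C 7 0x30e20305)) (Pf.C 2 392)) (Pf.C 2 648)) (Pf.C 95 1030)) (Pf.cons (Pf.B 8 7 (Pf.B 8 5 (Pf.C 5 0x20085) (Pf.B 8 4 (Pf.B 8 3 (Pf.C 5 0x20083) (Pf.B 8 2 (Pf.C 7 0x70620202) (Pf.W 117 8 [] [1,3,5,7] (Pf.cons (Pf.B 9 1 (Pf.C 5 0x20089) (Pf.C 74 137)) (Pf.cons (Pf.B 9 3 (Pf.C 84 393) (Pf.B 9 7 (Pf.B 9 5 (Pf.C 5 0x1c485) (Pf.C 0 0x620485))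 (Pf.C 0 0x100c487))) Pf.nil))))) (Pf.C 4 520))) (Pf.C 4 904)) Pf.nil)))) (Pf.C 7 0x4041c305)) (Pf.B 7 2 (Pf.C 7 0x60a1c202) (Pf.B 7 1 (Pf.W 117 7 [] [1,2,3] (Pf.cons (Pf.B 8 1 (Pf.C 5 0x1c088) (Pf.C 74 136)) (Pf.cons (Pf.B 8 3 (Pf.C 84 392) (Pf.B 8 2 (Pf.C 84 264) (Pf.C 0 0x61c402))) Pf.nil))) (Pf.C 0 0x808087)))) (Pf.C 4 519)) (Pf.C 4 775)) Pf.nil)))) (Pf.C 95 262)) (Pf.C 95 390)) (Pf.C 4 518)) Pf.nil))) (Pf.C 74 133)) (Pf.C 2 261)) (Pf.C 2 389)) (Pf.cons (Pf.B 5 2 (Pf.C 84 261) (Pf.B 5 1 (Pf.C 0 0x210105) (Pf.C 3 133))) Pf.nil)))) (Pf.B 4 1 (Pf.W 117 4 [] [1,2,3] (Pf.cons (Pf.B 5 1 (Pf.C 5 65669) (Pf.C 74 133)) (Pf.cons (Pf.B 5 3 (Pf.C 84 389) (Pf.B 5 2 (Pf.C 84 261) (Pf.C 0 0x610282)))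 Pf.nil))) (Pf.W 117 4 [] [1,2,3] (Pf.cons (Pf.B 5 3 (Pf.B 5 2 (Pf.B 5 1 (Pf.W 102 5 [] [2,3,4] (Pf.cons (Pf.B 6 4 (Pf.C 5 66309) (Pf.C 83 518)) (Pf.cons (Pf.B 6 4 (Pf.B 6 3 (Pf.B 6 2 (Pf.C 7 0x30808286) (Pf.C 95 262)) (Pf.C 95 390)) (Pf.C 4 518)) Pf.nil))) (Pf.C 74 133)) (Pf.C 2 261)) (Pf.C 2 389)) (Pf.cons (Pf.B 5 3 (Pf.C 84 389) (Pf.B 5 2 (Pf.C 84 261) (Pf.C 0 0x610282))) Pf.nil))))) Pf.nil))) (Pf.C 2 259)))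
 (Pq.cons (Pq.L [] 1 (Pf.C 95 257))
 (Pq.cons (Pq.L [] 1 (Pf.C 2 257))
 (Pq.cons (Pq.L [] 3 (Pf.B 3 2 (Pf.W 110 1 [] [2,3] (Pf.cons (Pf.B 4 3 (Pf.B 4 2 (Pf.W 104 2 [] [1,3,4] (Pf.cons (Pf.B 5 1 (Pf.B 5 4 (Pf.B 5 3 (Pf.W 110 5 [] [1,2,3,4] (Pf.cons (Pf.B 6 4 (Pf.B 6 3 (Pf.B 6 2 (Pf.B 6 1 (Pf.C 6 0x40208286) (Pf.W 102 6 [] [1,2,3,5] (Pf.cons (Pf.B 7 5 (Pf.B 7 3 (Pf.C 82 391) (Pf.B 7 2 (Pf.C 82 263) (Pf.C 6 0x30e08305))) (Pf.C 3 647)) (Pf.cons (Pf.B 7 5 (Pf.C 94 647) (Pf.B 7 1 (Pf.C 94 135) (Pf.C 0 0xa18381))) Pf.nil)))) (Pf.C 2 262)) (Pf.C 2 390)) (Pf.C 2 518)) (Pf.cons (Pf.B 6 3 (Pf.C 5 98947) (Pf.C 97 390)) Pf.nil))) (Pf.C 6 0x40208185)) (Pf.W 102 4 [] [1,2,3,5] (Pf.cons (Pf.B 6 5 (Pf.B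 6 3 (Pf.C 82 390) (Pf.B 6 2 (Pf.C 82 262) (Pf.B 6 1 (Pf.W 108 6 [] [2,4,5] (Pf.cons (Pf.B 7 5 (Pf.B 7 4 (Pf.B 7 2 (Pf.C 6 0x20c1c284) (Pf.C 2 263)) (Pf.C 2 519)) (Pf.C 70 647)) (Pf.cons (Pf.B 7 4 (Pf.C 5 0x1c304) (Pf.C 93 519)) Pf.nil))) (Pf.C 3 134)))) (Pf.C 3 646)) (Pf.cons (Pf.B 6 5 (Pf.C 94 646) (Pf.B 6 1 (Pf.C 94 134) (Pf.C 0 0xa10301))) Pf.nil)))) (Pf.C 3 133)) (Pf.cons (Pf.B 5 4 (Pf.W 102 4 [] [1,2,3,5] (Pf.cons (Pf.B 6 5 (Pf.C 5 82692) (Pf.C 83 646)) (Pf.cons (Pf.B 6 5 (Pf.B 6 3 (Pf.B 6 2 (Pf.B 6 1 (Pf.C 94 134) (Pf.W 115 6 [] [1,2,4,5] (Pf.cons (Pf.B 7 5 (Pf.C 69 647) (Pf.B 7 4 (Pf.B 7 2 (Pf.C 7 0x20a1c304) (Pf.C 2 263)) (Pf.C 2 519))) (Pf.cons (Pf.B 7 4 (Pf.C 80 519) (Pf.B 7 1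 (Pf.C 0 0x218207) (Pf.C 3 135))) Pf.nil)))) (Pf.C 95 262)) (Pf.C 95 390)) (Pf.C 4 646)) Pf.nil))) (Pf.B 5 1 (Pf.B 5 3 (Pf.C 5 82051) (Pf.W 117 5 [] [1,2,3] (Pf.cons (Pf.B 6 3 (Pf.B 6 2 (Pf.B 6 1 (Pf.C 5 82054) (Pf.W 102 6 [] [2,3,5] (Pf.cons (Pf.B 7 5 (Pf.C 5 82822) (Pf.C 83 647)) (Pf.cons (Pf.B 7 5 (Pf.B 7 3 (Pf.B 7 2 (Pf.C 7 0x30a08307) (Pf.C 95 263)) (Pf.C 95 391)) (Pf.C 4 647)) Pf.nil)))) (Pf.C 2 262)) (Pf.C 2 390)) (Pf.cons (Pf.B 6 3 (Pf.C 84 390) (Pf.B 6 2 (Pf.C 84 262) (Pf.C 0 0x614302))) Pf.nil)))) (Pf.C 0 0x804282))) Pf.nil))) (Pf.C 2 260)) (Pf.C 2 388)) (Pf.cons (Pf.B 4 3 (Pf.C 5 65667) (Pf.C 97 388)) Pf.nil))) (Pf.C 2 259)))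
 (Pq.cons (Pq.L [] 3 (Pf.B 3 2 (Pf.W 104 2 [] [1,3] (Pf.cons (Pf.B 4 3 (Pf.B 4 1 (Pf.C 5 16899) (Pf.W 110 4 [] [1,2,3] (Pf.cons (Pf.B 5 3 (Pf.B 5 2 (Pf.B 5 1 (Pf.C 73 133) (Pf.W 102 5 [] [1,2,3,4] (Pf.cons (Pf.B 6 4 (Pf.B 6 3 (Pf.C 82 390) (Pf.B 6 2 (Pf.C 82 262) (Pf.C 6 0x30c08284))) (Pf.C 3 518)) (Pf.cons (Pf.B 6 4 (Pf.C 94 518) (Pf.B 6 1 (Pf.C 0 0x214206) (Pf.C 4 134))) Pf.nil)))) (Pf.C 2 261)) (Pf.C 2 389)) (Pf.cons (Pf.B 5 3 (Pf.C 5 82435) (Pf.C 97 389)) Pf.nil)))) (Pf.B 4 1 (Pf.W 110 4 [] [1,2,3] (Pf.cons (Pf.B 5 3 (Pf.B 5 2 (Pf.B 5 1 (Pf.C 73 133) (Pf.W 104 3 [] [1,2,4,5] (Pf.cons (Pf.B 6 4 (Pf.B 6 1 (Pf.C 5 17155) (Pf.B 6 5 (Pf.B 6 2 (Pf.W 110 6 [] [1,2,3,4,5] (Pf.cons (Pf.B 7 5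 (Pf.B 7 3 (Pf.B 7 4 (Pf.C 6 0x5080c307) (Pf.B 7 2 (Pf.B 7 1 (Pf.C 73 135) (Pf.W 102 7 [] [2,4,6] (Pf.cons (Pf.B 8 6 (Pf.B 8 4 (Pf.B 8 2 (Pf.C 82 264) (Pf.C 6 0x60e10108)) (Pf.C 3 520)) (Pf.C 3 776)) (Pf.cons (Pf.B 8 6 (Pf.C 94 776) (Pf.B 8 4 (Pf.C 94 520) (Pf.C 0 0xc1c404))) Pf.nil)))) (Pf.C 2 263))) (Pf.C 2 391)) (Pf.C 2 647)) (Pf.cons (Pf.B 7 3 (Pf.C 5 0x1c303) (Pf.C 97 391)) Pf.nil))) (Pf.C 6 0x5080c106)) (Pf.B 6 2 (Pf.W 102 5 [] [2,4,6] (Pf.cons (Pf.B 7 6 (Pf.B 7 4 (Pf.B 7 2 (Pf.C 82 263) (Pf.C 6 0x60a10107)) (Pf.C 3 519)) (Pf.C 3 775)) (Pf.cons (Pf.B 7 6 (Pf.C 94 775) (Pf.B 7 4 (Pf.C 94 519) (Pf.C 0 0xc14384))) Pf.nil))) (Pf.C 0 0xa04302)))) (Pf.C 3 518)) (Pf.cons (Pf.B 6 1 (Pf.B 6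 5 (Pf.B 6 2 (Pf.C 7 0x50208186) (Pf.W 102 5 [] [2,3,6] (Pf.cons (Pf.B 7 6 (Pf.C 5 99205) (Pf.C 83 775)) (Pf.cons (Pf.B 7 6 (Pf.B 7 3 (Pf.B 7 2 (Pf.C 7 0x30c08287) (Pf.C 95 263)) (Pf.C 95 391)) (Pf.C 4 775)) Pf.nil)))) (Pf.B 6 4 (Pf.B 6 2 (Pf.C 5 98818) (Pf.W 117 6 [] [1,2,3,4,5] (Pf.cons (Pf.B 7 5 (Pf.B 7 4 (Pf.C 5 98823) (Pf.B 7 3 (Pf.B 7 2 (Pf.B 7 1 (Pf.C 73 135) (Pf.W 102 7 [] [3,4,5,6] (Pf.cons (Pf.B 8 6 (Pf.C 5 99335) (Pf.C 83 776)) (Pf.cons (Pf.B 8 6 (Pf.B 8 4 (Pf.C 94 520) (Pf.B 8 5 (Pf.B 8 3 (Pf.C 7 0x50c0c388) (Pf.C 95 392)) (Pf.C 0 0xe10405))) (Pf.C 4 776)) Pf.nil)))) (Pf.C 2 263)) (Pf.C 2 391))) (Pf.C 2 647)) (Pf.cons (Pf.B 7 3 (Pf.C 84 391) (Pf.B 7 2 (Pf.C 84 263) (Pf.C 0 0x618382)))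 Pf.nil)))) (Pf.C 0 0xa10303))) (Pf.C 4 134)) Pf.nil)))) (Pf.C 2 261)) (Pf.C 2 389)) (Pf.cons (Pf.B 5 2 (Pf.C 5 82434) (Pf.C 97 261)) Pf.nil))) (Pf.W 110 4 [] [1,2,3] (Pf.cons (Pf.B 5 3 (Pf.B 5 2 (Pf.B 5 1 (Pf.C 73 133) (Pf.W 102 5 [] [1,2,3,4] (Pf.cons (Pf.B 6 4 (Pf.B 6 3 (Pf.C 82 390) (Pf.B 6 2 (Pf.C 82 262) (Pf.B 6 1 (Pf.W 108 6 [] [2,4,5] (Pf.cons (Pf.B 7 5 (Pf.B 7 4 (Pf.B 7 2 (Pf.C 6 0x20c1c284) (Pf.C 2 263)) (Pf.C 70 519)) (Pf.C 2 647)) (Pf.cons (Pf.B 7 5 (Pf.C 5 0x1c305) (Pf.C 93 647)) Pf.nil))) (Pf.C 83 134)))) (Pf.C 3 518)) (Pf.cons (Pf.B 6 4 (Pf.C 94 518) (Pf.B 6 1 (Pf.C 0 0x214206) (Pf.C 4 134))) Pf.nil)))) (Pf.C 2 261)) (Pf.C 2 389)) (Pf.cons (Pf.B 5 2 (Pf.C 5 82434) (Pf.C 97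 261)) Pf.nil))))) (Pf.cons (Pf.B 4 1 (Pf.B 4 3 (Pf.W 104 3 [] [1,2,4] (Pf.cons (Pf.B 5 4 (Pf.C 5 66179) (Pf.B 5 1 (Pf.C 5 17027) (Pf.B 5 2 (Pf.W 110 5 [] [1,2,3,4] (Pf.cons (Pf.B 6 3 (Pf.B 6 2 (Pf.B 6 1 (Pf.C 73 134) (Pf.B 6 4 (Pf.W 102 6 [] [1,4,5] (Pf.cons (Pf.B 7 4 (Pf.C 5 66438) (Pf.C 83 519)) (Pf.cons (Pf.B 7 5 (Pf.C 94 647) (Pf.B 7 1 (Pf.C 0 0x218287) (Pf.C 4 135))) Pf.nil))) (Pf.C 0 0x214304))) (Pf.C 2 262)) (Pf.C 2 390)) (Pf.cons (Pf.B 6 3 (Pf.C 5 98947) (Pf.C 97 390)) Pf.nil))) (Pf.C 0 0x808281)))) (Pf.cons (Pf.B 5 4 (Pf.B 5 1 (Pf.B 5 2 (Pf.C 7 0x40404185) (Pf.W 117 5 [] [1,2,3] (Pf.cons (Pf.B 6 3 (Pf.B 6 2 (Pf.B 6 1 (Pf.C 73 134) (Pf.W 102 6 [] [2,3,5] (Pf.cons (Pf.B 7 5 (Pf.C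 5 82822) (Pf.C 83 647)) (Pf.cons (Pf.B 7 5 (Pf.B 7 3 (Pf.B 7 2 (Pf.C 7 0x30a08307) (Pf.C 95 263)) (Pf.C 95 391)) (Pf.C 4 647)) Pf.nil)))) (Pf.C 2 262)) (Pf.C 2 390)) (Pf.cons (Pf.B 6 3 (Pf.C 84 390) (Pf.B 6 2 (Pf.C 84 262) (Pf.C 0 0x614302))) Pf.nil)))) (Pf.C 4 133)) (Pf.C 4 517)) Pf.nil))) (Pf.W 117 4 [] [1,2,3] (Pf.cons (Pf.B 5 3 (Pf.B 5 2 (Pf.B 5 1 (Pf.C 73 133) (Pf.W 102 5 [] [2,3,4] (Pf.cons (Pf.B 6 4 (Pf.C 5 66309) (Pf.C 83 518)) (Pf.cons (Pf.B 6 4 (Pf.B 6 3 (Pf.B 6 2 (Pf.C 7 0x30808286) (Pf.C 95 262)) (Pf.C 95 390)) (Pf.C 4 518)) Pf.nil)))) (Pf.C 2 261)) (Pf.C 2 389)) (Pf.cons (Pf.B 5 3 (Pf.C 84 389) (Pf.B 5 2 (Pf.C 84 261) (Pf.C 0 0x610282))) Pf.nil)))) (Pf.C 4 132)) Pf.nil))) (Pf.C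 2 259)))
 Pq.nil)))))))))))))))))))
theorem e4_o10 : AllRef e4_T e4_G6 (List.drop 13 (splitObl [47,58,69,50] [57,68,49,60,67,48,59,70])) :=
  chkPq_sound e4_o10c _ (by decide +kernel)
noncomputable def e4_o11c : Pq := (Pq.cons (Pq.D 0 (Pq.cons (Pq.D 1 (Pq.cons (Pq.L [] 1 (Pf.C 2 257))
 (Pq.cons (Pq.D 2 (Pq.cons (Pq.L [] 2 (Pf.C 2 385))
 (Pq.cons (Pq.L [] 4 (Pf.C 3 386))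
 (Pq.cons (Pq.L [] 2 (Pf.C 71 385))
 (Pq.cons (Pq.L [] 2 (Pf.C 2 385))
 Pq.nil))))) (Pq.cons (Pq.L [] 1 (Pf.C 71 257))
 (Pq.cons (Pq.L [] 1 (Pf.C 2 257))
 Pq.nil))))) (Pq.cons (Pq.D 1 (Pq.cons (Pq.D 2 (Pq.cons (Pq.L [] 4 (Pf.C 2 386))
 (Pq.cons (Pq.L [] 2 (Pf.C 3 385))
 (Pq.cons (Pq.L [] 4 (Pf.C 71 386))
 (Pq.cons (Pq.L [] 2 (Pf.C 84 385))
 Pq.nil))))) (Pq.cons (Pq.L [] 1 (Pf.C 3 257))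
 (Pq.cons (Pq.D 2 (Pq.cons (Pq.L [] 4 (Pf.C 71 259))
 (Pq.cons (Pq.L [] 2 (Pf.C 3 385))
 (Pq.cons (Pq.L [0] 7 (Pf.C 0 49409))
 (Pq.cons (Pq.L [] 2 (Pf.C 84 385))
 Pq.nil))))) (Pq.cons (Pq.L [] 1 (Pf.C 84 257))
 Pq.nil))))) (Pq.cons (Pq.D 1 (Pq.cons (Pq.L [] 1 (Pf.C 71 130))
 (Pq.cons (Pq.D 2 (Pq.cons (Pq.L [] 2 (Pf.C 71 131))
 (Pq.cons (Pq.L [] 4 (Pf.C 3 386))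
 (Pq.cons (Pq.L [] 2 (Pf.C 4 385))
 (Pq.cons (Pq.L [] 4 (Pf.C 84 386))
 Pq.nil))))) (Pq.cons (Pq.L [] 1 (Pf.C 4 257))
 (Pq.cons (Pq.D 2 (Pq.cons (Pq.L [] 2 (Pf.C 71 131))
 (Pq.cons (Pq.L [] 4 (Pf.C 84 259))
 (Pq.cons (Pq.L [] 2 (Pf.C 4 385))
 (Pq.cons (Pq.L [] 4 (Pf.C 2 386))
 Pq.nil))))) Pq.nil))))) (Pq.cons (Pq.D 1 (Pq.cons (Pq.L [] 1 (Pf.C 2 257))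
 (Pq.cons (Pq.L [] 1 (Pf.C 84 130))
 (Pq.cons (Pq.D 2 (Pq.cons (Pq.L [] 2 (Pf.C 2 385))
 (Pq.cons (Pq.L [] 2 (Pf.C 84 131))
 (Pq.cons (Pq.L [0] 7 (Pf.C 0 49409))
 (Pq.cons (Pq.L [] 2 (Pf.C 2 385))
 Pq.nil))))) (Pq.cons (Pq.L [] 1 (Pf.C 2 257))
 Pq.nil))))) Pq.nil))))) Pq.nil)
theorem e4_o11 : AllRef e4_T e4_G6 (List.take 1 (applyObl d_T 2 [47,58,69,50] [0,0,0,0] [(47,0x200000000000000000),(58,0x4000000000000),(69,0x800000000000),(50,0x400000000000000)])) :=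
  chkPq_sound e4_o11c _ (by decide +kernel)
noncomputable def e4_o12c : Pq := (Pq.cons (Pq.D 1 (Pq.cons (Pq.D 2 (Pq.cons (Pq.L [] 64 (Pf.C 2 386))
 (Pq.cons (Pq.D 3 (Pq.cons (Pq.L [] 128 (Pf.C 2 514))
 (Pq.cons (Pq.D 4 (Pq.cons (Pq.L [] 256 (Pf.C 2 642))
 (Pq.cons (Pq.D 5 (Pq.cons (Pq.D 6 (Pq.cons (Pq.L [] 0x136ef7 (Pf.C 1 0x202061c301))
 (Pq.cons (Pq.L [] 0x136ef7 (Pf.C 1 0x202061c301))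
 (Pq.cons (Pq.L [0] 0x1c703a (Pf.C 1 0x70218283))
 (Pq.cons (Pq.L [] 0x100000 (Pf.C 2 902))
 Pq.nil))))) (Pq.cons (Pq.L [] 0x40000 (Pf.C 3 773))
 (Pq.cons (Pq.D 6 (Pq.cons (Pq.L [] 0x106000 (Pf.C 5 98695))
 (Pq.cons (Pq.L [] 0x40bc7 (Pf.W 101 2 [] [1,3,4,5,6,7] (Pf.cons (Pf.B 8 7 (Pf.B 8 6 (Pf.B 8 5 (Pf.B 8 4 (Pf.B 8 3 (Pf.B 8 1 (Pf.W 107 8 [] [2,3,4] (Pf.cons (Pf.B 9 4 (Pf.B 9 3 (Pf.B 9 2 (Pf.C 6 0x4040c409) (Pf.C 2 265)) (Pf.C 68 393)) (Pf.C 68 521)) (Pf.cons (Pf.B 9 2 (Pf.C 5 0x24402) (Pf.C 91 265)) Pf.nil))) (Pf.C 6 0x4040c088)) (Pf.C 3 392)) (Pf.C 3 520)) (Pf.C 3 648)) (Pf.C 81 776)) (Pf.C 3 904)) (Pf.cons (Pf.B 8 6 (Pf.B 8 5 (Pf.C 92 648) (Pf.C 0 0xc08288)) (Pf.C 4 776)) Pf.nil))))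
 (Pq.cons (Pq.L [0] 0x100030 (Pf.C 0 0x1c301))
 (Pq.cons (Pq.L [] 0x1c0700 (Pf.C 0 0xe18282))
 Pq.nil))))) (Pq.cons (Pq.L [] 0x40000 (Pf.C 84 773))
 Pq.nil))))) (Pq.cons (Pq.L [] 256 (Pf.C 71 642))
 (Pq.cons (Pq.L [] 256 (Pf.C 2 642))
 Pq.nil))))) (Pq.cons (Pq.L [] 128 (Pf.C 71 514))
 (Pq.cons (Pq.L [] 128 (Pf.C 2 514))
 Pq.nil))))) (Pq.cons (Pq.L [] 64 (Pf.C 71 386))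
 (Pq.cons (Pq.L [] 64 (Pf.C 2 386))
 Pq.nil))))) (Pq.cons (Pq.D 2 (Pq.cons (Pq.D 3 (Pq.cons (Pq.D 4 (Pq.cons (Pq.D 5 (Pq.cons (Pq.L [] 0x40000 (Pf.C 2 773))
 (Pq.cons (Pq.D 6 (Pq.cons (Pq.L [] 0x136ef7 (Pf.C 1 0x202061c301))
 (Pq.cons (Pq.L [] 0x136ef7 (Pf.C 1 0x202061c301))
 (Pq.cons (Pq.L [] 0x1dbb19 (Pf.W 101 5 [] [1,2,3,4,6,7] (Pf.cons (Pf.B 8 7 (Pf.B 8 6 (Pf.B 8 2 (Pf.B 8 1 (Pf.B 8 4 (Pf.B 8 3 (Pf.W 107 8 [] [2,5,6] (Pf.cons (Pf.B 9 6 (Pf.B 9 5 (Pf.B 9 2 (Pf.C 6 0x60a08409) (Pf.C 68 265)) (Pf.C 2 649)) (Pf.C 68 777)) (Pf.cons (Pf.B 9 5 (Pf.C 5 0x24405) (Pf.C 91 649)) Pf.nil))) (Pf.W 107 8 [] [3,5,6] (Pf.cons (Pf.B 9 6 (Pf.B 9 5 (Pf.B 9 3 (Pf.C 6 0x31024305) (Pf.C 2 393)) (Pf.C 2 649))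 (Pf.C 68 777)) (Pf.cons (Pf.B 9 5 (Pf.C 5 0x24405) (Pf.C 91 649)) Pf.nil)))) (Pf.B 8 3 (Pf.W 107 8 [] [4,5,6] (Pf.cons (Pf.B 9 6 (Pf.B 9 5 (Pf.B 9 4 (Pf.C 6 0x41024305) (Pf.C 2 521)) (Pf.C 2 649)) (Pf.C 68 777)) (Pf.cons (Pf.B 9 5 (Pf.C 5 0x24405) (Pf.C 91 649)) Pf.nil))) (Pf.C 6 0x4100c305))) (Pf.C 6 0x60a08088)) (Pf.C 3 264)) (Pf.C 3 776)) (Pf.C 81 904)) (Pf.cons (Pf.B 8 7 (Pf.B 8 6 (Pf.C 92 776) (Pf.C 0 0xe14308)) (Pf.C 4 904)) Pf.nil))))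
 (Pq.cons (Pq.L [] 0x100000 (Pf.C 84 902))
 Pq.nil))))) (Pq.cons (Pq.L [] 0x40000 (Pf.C 71 773))
 (Pq.cons (Pq.L [] 0x40000 (Pf.C 2 773))
 Pq.nil))))) (Pq.cons (Pq.L [] 256 (Pf.C 3 642))
 (Pq.cons (Pq.L [] 39360 (Pf.C 0 0x814103))
 (Pq.cons (Pq.L [] 256 (Pf.C 84 642))
 Pq.nil))))) (Pq.cons (Pq.L [] 128 (Pf.C 3 514))
 (Pq.cons (Pq.D 4 (Pq.cons (Pq.L [] 39360 (Pf.C 0 0xa10103))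
 (Pq.cons (Pq.L [] 256 (Pf.C 3 642))
 (Pq.cons (Pq.L [] 39360 (Pf.C 0 0xa0c104))
 (Pq.cons (Pq.L [] 256 (Pf.C 84 642))
 Pq.nil))))) (Pq.cons (Pq.L [] 128 (Pf.C 84 514))
 Pq.nil))))) (Pq.cons (Pq.L [] 64 (Pf.C 3 386))
 (Pq.cons (Pq.D 3 (Pq.cons (Pq.D 4 (Pq.cons (Pq.L [] 39360 (Pf.C 0 0xa0c104))
 (Pq.cons (Pq.L [] 256 (Pf.C 3 642))
 (Pq.cons (Pq.L [] 39360 (Pf.C 0 0xa10103))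
 (Pq.cons (Pq.L [] 256 (Pf.C 84 642))
 Pq.nil))))) (Pq.cons (Pq.L [] 128 (Pf.C 3 514))
 (Pq.cons (Pq.D 4 (Pq.cons (Pq.L [] 39360 (Pf.C 0 0x814103))
 (Pq.cons (Pq.L [] 256 (Pf.C 3 642))
 (Pq.cons (Pq.D 5 (Pq.cons (Pq.L [] 0x40000 (Pf.C 71 646))
 (Pq.cons (Pq.D 6 (Pq.cons (Pq.L [] 0x1c8781 (Pf.W 109 2 [] [1,3,4,5,6,7] (Pf.cons (Pf.B 8 5 (Pf.C 71 648) (Pf.B 8 4 (Pf.C 71 520) (Pf.C 0 0xa08404))) (Pf.cons (Pf.B 8 7 (Pf.C 5 0x20107) (Pf.B 8 5 (Pf.B 8 6 (Pf.B 8 4 (Pf.B 8 3 (Pf.B 8 1 (Pf.C 5 0x20101) (Pf.W 115 8 [] [2,5,6] (Pf.cons (Pf.B 9 6 (Pf.C 5 0x20309) (Pf.C 70 777)) (Pf.cons (Pf.B 9 6 (Pf.B 9 5 (Pf.B 9 2 (Pf.C 8 0x60a08409) (Pf.C 3 265)) (Pf.C 81 649)) (Pf.C 3 777)) Pf.nil)))) (Pf.C 4 392))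 (Pf.C 4 520)) (Pf.C 0 0xa1c308)) (Pf.C 4 648))) Pf.nil))))
 (Pq.cons (Pq.L [] 0x136ec0 (Pf.C 8 0x4040c386))
 (Pq.cons (Pq.L [] 0x136ec0 (Pf.C 8 0x4040c386))
 (Pq.cons (Pq.L [] 0x106000 (Pf.C 5 49927))
 Pq.nil))))) (Pq.cons (Pq.L [0] 0x40018 (Pf.C 0 98945))
 (Pq.cons (Pq.D 6 (Pq.cons (Pq.L [] 0x1c0700 (Pf.C 0 0xe18282))
 (Pq.cons (Pq.L [] 0x106000 (Pf.C 5 50054))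
 (Pq.cons (Pq.L [] 0x40bc1 (Pf.W 109 2 [] [1,3,4,5,6,7] (Pf.cons (Pf.B 8 6 (Pf.B 8 5 (Pf.C 71 648) (Pf.C 0 0xc08288)) (Pf.C 2 776)) (Pf.cons (Pf.B 8 7 (Pf.B 8 6 (Pf.B 8 5 (Pf.B 8 4 (Pf.B 8 3 (Pf.B 8 1 (Pf.C 5 0x20101) (Pf.W 115 8 [] [2,3,4] (Pf.cons (Pf.B 9 2 (Pf.C 5 0x20109) (Pf.C 70 265)) (Pf.cons (Pf.B 9 4 (Pf.B 9 3 (Pf.B 9 2 (Pf.C 8 0x4040c409) (Pf.C 3 265)) (Pf.C 81 393)) (Pf.C 81 521)) Pf.nil)))) (Pf.C 4 392)) (Pf.C 4 520)) (Pf.C 4 648)) (Pf.C 95 776)) (Pf.C 4 904)) Pf.nil))))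
 (Pq.cons (Pq.L [0] 0x106032 (Pf.C 7 0x604386))
 Pq.nil))))) Pq.nil))))) (Pq.cons (Pq.L [] 256 (Pf.C 84 642))
 Pq.nil))))) (Pq.cons (Pq.L [] 128 (Pf.C 84 514))
 Pq.nil))))) (Pq.cons (Pq.L [] 64 (Pf.C 84 386))
 Pq.nil))))) (Pq.cons (Pq.D 2 (Pq.cons (Pq.L [] 64 (Pf.C 71 259))
 (Pq.cons (Pq.D 3 (Pq.cons (Pq.L [] 128 (Pf.C 71 260))
 (Pq.cons (Pq.D 4 (Pq.cons (Pq.L [] 256 (Pf.C 71 261))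
 (Pq.cons (Pq.D 5 (Pq.cons (Pq.D 6 (Pq.cons (Pq.L [] 0x1c0700 (Pf.C 0 0xe18105))
 (Pq.cons (Pq.L [] 0x1c0038 (Pf.W 101 6 [] [1,2,3,4,5,7] (Pf.cons (Pf.B 8 7 (Pf.B 8 5 (Pf.B 8 4 (Pf.B 8 3 (Pf.B 8 2 (Pf.B 8 1 (Pf.W 107 8 [] [5,6,7] (Pf.cons (Pf.B 9 7 (Pf.B 9 6 (Pf.B 9 5 (Pf.C 6 0x70c14409) (Pf.C 68 649)) (Pf.C 2 777)) (Pf.C 68 905)) (Pf.cons (Pf.B 9 6 (Pf.C 5 0x24406) (Pf.C 91 777)) Pf.nil))) (Pf.C 6 0x70c14088)) (Pf.C 81 264)) (Pf.C 3 392)) (Pf.C 3 520)) (Pf.C 3 648)) (Pf.C 3 904)) (Pf.cons (Pf.B 8 7 (Pf.C 92 904) (Pf.B 8 5 (Pf.C 92 648) (Pf.C 0 0xe18405))) Pf.nil))))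
 (Pq.cons (Pq.L [0] 0x1c703a (Pf.C 1 0x70218283))
 (Pq.cons (Pq.L [] 0x1c0700 (Pf.C 0 0xe18282))
 Pq.nil))))) (Pq.cons (Pq.L [] 0x40000 (Pf.C 3 773))
 (Pq.cons (Pq.D 6 (Pq.cons (Pq.L [] 0x106000 (Pf.C 5 98695))
 (Pq.cons (Pq.L [] 0x136ec0 (Pf.C 8 0x4040c386))
 (Pq.cons (Pq.L [0] 0x100030 (Pf.C 0 0x1c301))
 (Pq.cons (Pq.L [] 0x1dbb08 (Pf.W 109 5 [] [1,2,3,4,6,7] (Pf.cons (Pf.B 8 7 (Pf.B 8 6 (Pf.C 71 776) (Pf.C 0 0xe14308)) (Pf.C 2 904)) (Pf.cons (Pf.B 8 7 (Pf.B 8 6 (Pf.B 8 2 (Pf.B 8 1 (Pf.C 5 0x20281) (Pf.B 8 4 (Pf.B 8 3 (Pf.W 115 8 [] [2,5,6] (Pf.cons (Pf.B 9 5 (Pf.C 5 0x20289) (Pf.C 70 649)) (Pf.cons (Pf.B 9 6 (Pf.B 9 5 (Pf.B 9 2 (Pf.C 8 0x60a08409) (Pf.C 81 265)) (Pf.C 3 649)) (Pf.C 81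 777)) Pf.nil))) (Pf.W 115 8 [] [3,5,6] (Pf.cons (Pf.B 9 5 (Pf.C 5 0x20289) (Pf.C 70 649)) (Pf.cons (Pf.B 9 6 (Pf.B 9 5 (Pf.B 9 3 (Pf.C 8 0x31024305) (Pf.C 3 393)) (Pf.C 3 649)) (Pf.C 81 777)) Pf.nil)))) (Pf.B 8 3 (Pf.W 115 8 [] [4,5,6] (Pf.cons (Pf.B 9 5 (Pf.C 5 0x20289) (Pf.C 70 649)) (Pf.cons (Pf.B 9 6 (Pf.B 9 5 (Pf.B 9 4 (Pf.C 8 0x41024305) (Pf.C 3 521)) (Pf.C 3 649)) (Pf.C 81 777)) Pf.nil))) (Pf.C 8 0x4100c305)))) (Pf.C 4 264)) (Pf.C 4 776)) (Pf.C 95 904)) Pf.nil))))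
 Pq.nil))))) (Pq.cons (Pq.L [] 0x40000 (Pf.C 84 773))
 Pq.nil))))) (Pq.cons (Pq.L [0] 265 (Pf.C 0 82177))
 (Pq.cons (Pq.L [] 39360 (Pf.C 0 0x814103))
 Pq.nil))))) (Pq.cons (Pq.L [0] 133 (Pf.C 0 65793))
 (Pq.cons (Pq.D 4 (Pq.cons (Pq.L [] 256 (Pf.C 71 261))
 (Pq.cons (Pq.L [] 39360 (Pf.C 0 0xa10103))
 (Pq.cons (Pq.L [0] 265 (Pf.C 0 82177))
 (Pq.cons (Pq.L [] 39360 (Pf.C 0 0xa0c104))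
 Pq.nil))))) Pq.nil))))) (Pq.cons (Pq.L [0] 67 (Pf.C 0 49409))
 (Pq.cons (Pq.D 3 (Pq.cons (Pq.L [] 128 (Pf.C 71 260))
 (Pq.cons (Pq.D 4 (Pq.cons (Pq.L [] 256 (Pf.C 71 261))
 (Pq.cons (Pq.L [] 39360 (Pf.C 0 0xa0c104))
 (Pq.cons (Pq.L [0] 265 (Pf.C 0 82177))
 (Pq.cons (Pq.L [] 39360 (Pf.C 0 0xa10103))
 Pq.nil))))) (Pq.cons (Pq.L [0] 133 (Pf.C 0 65793))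
 (Pq.cons (Pq.D 4 (Pq.cons (Pq.L [] 256 (Pf.C 71 261))
 (Pq.cons (Pq.L [] 39360 (Pf.C 0 0x814103))
 (Pq.cons (Pq.L [0] 265 (Pf.C 0 82177))
 (Pq.cons (Pq.D 5 (Pq.cons (Pq.L [] 0x40000 (Pf.C 2 773))
 (Pq.cons (Pq.L [] 0x40000 (Pf.C 84 646))
 (Pq.cons (Pq.D 6 (Pq.cons (Pq.L [] 0x100000 (Pf.C 71 775))
 (Pq.cons (Pq.L [] 0x1c8780 (Pf.W 117 2 [] [1,3,4,5,6,7] (Pf.cons (Pf.B 8 7 (Pf.C 5 33672) (Pf.B 8 5 (Pf.B 8 6 (Pf.B 8 4 (Pf.B 8 3 (Pf.B 8 1 (Pf.W 102 8 [] [2,5,6] (Pf.cons (Pf.B 9 6 (Pf.C 5 99464) (Pf.C 83 777)) (Pf.cons (Pf.B 9 6 (Pf.B 9 5 (Pf.B 9 2 (Pf.C 7 0x60a08409) (Pf.C 4 265)) (Pf.C 95 649)) (Pf.C 4 777)) Pf.nil))) (Pf.C 2 136)) (Pf.C 2 392)) (Pf.C 2 520)) (Pf.C 0 0xa1c308)) (Pf.C 2 648)))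 (Pf.cons (Pf.B 8 5 (Pf.C 84 648) (Pf.B 8 4 (Pf.C 84 520) (Pf.C 0 0xa08404))) Pf.nil))))
 (Pq.cons (Pq.L [0] 0x100030 (Pf.C 0 0x1c301))
 (Pq.cons (Pq.L [] 0x136ec0 (Pf.C 7 0x4040c386))
 Pq.nil))))) (Pq.cons (Pq.L [] 0x40000 (Pf.C 2 773))
 Pq.nil))))) Pq.nil))))) Pq.nil))))) Pq.nil))))) (Pq.cons (Pq.D 2 (Pq.cons (Pq.L [] 64 (Pf.C 2 386))
 (Pq.cons (Pq.L [] 64 (Pf.C 84 259))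
 (Pq.cons (Pq.D 3 (Pq.cons (Pq.L [] 128 (Pf.C 2 514))
 (Pq.cons (Pq.L [] 128 (Pf.C 84 260))
 (Pq.cons (Pq.D 4 (Pq.cons (Pq.L [] 256 (Pf.C 2 642))
 (Pq.cons (Pq.L [] 256 (Pf.C 84 261))
 (Pq.cons (Pq.D 5 (Pq.cons (Pq.L [] 0x40000 (Pf.C 71 646))
 (Pq.cons (Pq.D 6 (Pq.cons (Pq.L [] 0x1c0700 (Pf.C 0 0xe18282))
 (Pq.cons (Pq.L [] 0x1c0700 (Pf.C 0 0xe18105))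
 (Pq.cons (Pq.L [] 0x1c0010 (Pf.W 109 6 [] [1,2,3,4,5,7] (Pf.cons (Pf.B 8 7 (Pf.C 71 904) (Pf.B 8 5 (Pf.C 71 648) (Pf.C 0 0xe18405))) (Pf.cons (Pf.B 8 7 (Pf.B 8 5 (Pf.B 8 4 (Pf.B 8 3 (Pf.B 8 2 (Pf.B 8 1 (Pf.C 5 0x20301) (Pf.W 115 8 [] [5,6,7] (Pf.cons (Pf.B 9 6 (Pf.C 5 0x20309) (Pf.C 70 777)) (Pf.cons (Pf.B 9 7 (Pf.B 9 6 (Pf.B 9 5 (Pf.C 8 0x70c14409) (Pf.C 81 649)) (Pf.C 3 777)) (Pf.C 81 905)) Pf.nil)))) (Pf.C 95 264)) (Pf.C 4 392)) (Pf.C 4 520)) (Pf.C 4 648)) (Pf.C 4 904)) Pf.nil))))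
 (Pq.cons (Pq.L [] 0x106000 (Pf.C 5 49927))
 Pq.nil))))) (Pq.cons (Pq.L [0] 0x40018 (Pf.C 0 98945))
 (Pq.cons (Pq.D 6 (Pq.cons (Pq.L [] 0x100000 (Pf.C 2 902))
 (Pq.cons (Pq.L [] 0x106000 (Pf.C 5 50054))
 (Pq.cons (Pq.L [] 0x136ec0 (Pf.C 7 0x4040c386))
 (Pq.cons (Pq.L [0] 0x106032 (Pf.C 7 0x604386))
 Pq.nil))))) Pq.nil))))) (Pq.cons (Pq.L [] 256 (Pf.C 2 642))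
 Pq.nil))))) (Pq.cons (Pq.L [] 128 (Pf.C 2 514))
 Pq.nil))))) (Pq.cons (Pq.L [] 64 (Pf.C 2 386))
 Pq.nil))))) Pq.nil))))) (Pq.cons (Pq.D 1 (Pq.cons (Pq.D 2 (Pq.cons (Pq.L [] 64 (Pf.C 2 386))
 (Pq.cons (Pq.D 3 (Pq.cons (Pq.L [] 128 (Pf.C 2 514))
 (Pq.cons (Pq.D 4 (Pq.cons (Pq.L [] 256 (Pf.C 2 642))
 (Pq.cons (Pq.D 5 (Pq.cons (Pq.D 6 (Pq.cons (Pq.L [] 0x136ef7 (Pf.C 1 0x202061c301))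
 (Pq.cons (Pq.L [] 0x136ef7 (Pf.C 1 0x202061c301))
 (Pq.cons (Pq.L [] 0x100030 (Pf.C 5 0x1c086))
 (Pq.cons (Pq.L [] 0x100000 (Pf.C 2 902))
 Pq.nil))))) (Pq.cons (Pq.L [] 0x40000 (Pf.C 3 773))
 (Pq.cons (Pq.D 6 (Pq.cons (Pq.L [] 0x100030 (Pf.C 5 98439))
 (Pq.cons (Pq.L [] 0x40bc0 (Pf.W 101 2 [] [1,3,4,5,6,7] (Pf.cons (Pf.B 8 7 (Pf.B 8 6 (Pf.B 8 5 (Pf.B 8 4 (Pf.B 8 3 (Pf.B 8 1 (Pf.W 107 8 [] [2,3,4] (Pf.cons (Pf.B 9 4 (Pf.B 9 3 (Pf.B 9 2 (Pf.C 6 0x4040c409) (Pf.C 2 265)) (Pf.C 68 393)) (Pf.C 68 521)) (Pf.cons (Pf.B 9 2 (Pf.C 5 0x24402) (Pf.C 91 265)) Pf.nil))) (Pf.C 3 136)) (Pf.C 3 392)) (Pf.C 3 520)) (Pf.C 3 648)) (Pf.C 81 776)) (Pf.C 3 904)) (Pf.cons (Pf.B 8 6 (Pf.B 8 5 (Pf.C 92 648) (Pf.C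 0 0xc08288)) (Pf.C 4 776)) Pf.nil))))
 (Pq.cons (Pq.L [0] 0x100600 (Pf.C 0 0x1c302))
 (Pq.cons (Pq.L [] 0x1c0700 (Pf.C 0 0xe18282))
 Pq.nil))))) (Pq.cons (Pq.L [] 0x40000 (Pf.C 84 773))
 Pq.nil))))) (Pq.cons (Pq.L [] 265 (Pf.C 5 82050))
 (Pq.cons (Pq.L [] 256 (Pf.C 2 642))
 Pq.nil))))) (Pq.cons (Pq.L [] 133 (Pf.C 5 65666))
 (Pq.cons (Pq.L [] 128 (Pf.C 2 514))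
 Pq.nil))))) (Pq.cons (Pq.L [] 67 (Pf.C 5 49282))
 (Pq.cons (Pq.L [] 64 (Pf.C 2 386))
 Pq.nil))))) (Pq.cons (Pq.D 2 (Pq.cons (Pq.D 3 (Pq.cons (Pq.D 4 (Pq.cons (Pq.D 5 (Pq.cons (Pq.L [] 0x40000 (Pf.C 2 773))
 (Pq.cons (Pq.D 6 (Pq.cons (Pq.L [] 0x136ef7 (Pf.C 1 0x202061c301))
 (Pq.cons (Pq.L [] 0x136ef7 (Pf.C 1 0x202061c301))
 (Pq.cons (Pq.L [] 0x1dbb00 (Pf.W 101 5 [] [1,2,3,4,6,7] (Pf.cons (Pf.B 8 7 (Pf.B 8 6 (Pf.B 8 2 (Pf.B 8 1 (Pf.B 8 4 (Pf.B 8 3 (Pf.W 107 8 [] [2,5,6] (Pf.cons (Pf.B 9 6 (Pf.B 9 5 (Pf.B 9 2 (Pf.C 6 0x60a08409) (Pf.C 68 265)) (Pf.C 2 649)) (Pf.C 68 777)) (Pf.cons (Pf.B 9 5 (Pf.C 5 0x24405) (Pf.C 91 649)) Pf.nil))) (Pf.W 107 8 [] [3,5,6] (Pf.cons (Pf.B 9 6 (Pf.B 9 5 (Pf.B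 9 3 (Pf.C 6 0x31024305) (Pf.C 2 393)) (Pf.C 2 649)) (Pf.C 68 777)) (Pf.cons (Pf.B 9 5 (Pf.C 5 0x24405) (Pf.C 91 649)) Pf.nil)))) (Pf.B 8 3 (Pf.W 107 8 [] [4,5,6] (Pf.cons (Pf.B 9 6 (Pf.B 9 5 (Pf.B 9 4 (Pf.C 6 0x41024305) (Pf.C 2 521)) (Pf.C 2 649)) (Pf.C 68 777)) (Pf.cons (Pf.B 9 5 (Pf.C 5 0x24405) (Pf.C 91 649)) Pf.nil))) (Pf.C 6 0x4100c305))) (Pf.C 3 136)) (Pf.C 3 264)) (Pf.C 3 776)) (Pf.C 81 904)) (Pf.cons (Pf.B 8 7 (Pf.B 8 6 (Pf.C 92 776) (Pf.C 0 0xe14308)) (Pf.C 4 904)) Pf.nil))))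
 (Pq.cons (Pq.L [] 0x100000 (Pf.C 84 902))
 Pq.nil))))) (Pq.cons (Pq.L [] 0x40018 (Pf.C 5 98437))
 (Pq.cons (Pq.L [] 0x40000 (Pf.C 2 773))
 Pq.nil))))) (Pq.cons (Pq.L [] 256 (Pf.C 3 642))
 (Pq.cons (Pq.L [] 39360 (Pf.C 0 0x814103))
 (Pq.cons (Pq.L [] 39375 (Pf.C 6 0x4040c281))
 Pq.nil))))) (Pq.cons (Pq.L [] 128 (Pf.C 3 514))
 (Pq.cons (Pq.D 4 (Pq.cons (Pq.L [] 39360 (Pf.C 0 0xa10103))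
 (Pq.cons (Pq.L [] 256 (Pf.C 3 642))
 (Pq.cons (Pq.L [] 39360 (Pf.C 0 0xa0c104))
 (Pq.cons (Pq.L [] 256 (Pf.C 84 642))
 Pq.nil))))) (Pq.cons (Pq.L [] 128 (Pf.C 84 514))
 Pq.nil))))) (Pq.cons (Pq.L [] 64 (Pf.C 3 386))
 (Pq.cons (Pq.D 3 (Pq.cons (Pq.D 4 (Pq.cons (Pq.L [] 39360 (Pf.C 0 0xa0c104))
 (Pq.cons (Pq.L [] 256 (Pf.C 3 642))
 (Pq.cons (Pq.L [] 39360 (Pf.C 0 0xa10103))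
 (Pq.cons (Pq.L [] 256 (Pf.C 84 642))
 Pq.nil))))) (Pq.cons (Pq.L [] 128 (Pf.C 3 514))
 (Pq.cons (Pq.D 4 (Pq.cons (Pq.L [] 39360 (Pf.C 0 0x814103))
 (Pq.cons (Pq.L [] 256 (Pf.C 3 642))
 (Pq.cons (Pq.D 5 (Pq.cons (Pq.L [] 0x40018 (Pf.C 5 82054))
 (Pq.cons (Pq.D 6 (Pq.cons (Pq.L [] 0x1c8799 (Pf.W 109 2 [] [1,3,4,5,6,7] (Pf.cons (Pf.B 8 5 (Pf.C 71 648) (Pf.B 8 4 (Pf.C 71 520) (Pf.C 0 0xa08404))) (Pf.cons (Pf.B 8 7 (Pf.C 5 0x20107) (Pf.B 8 5 (Pf.B 8 6 (Pf.B 8 4 (Pf.B 8 3 (Pf.B 8 1 (Pf.W 115 8 [] [2,5,6] (Pf.cons (Pf.B 9 6 (Pf.C 5 0x20309) (Pf.C 70 777)) (Pf.cons (Pf.B 9 6 (Pf.B 9 5 (Pf.B 9 2 (Pf.C 8 0x60a08409) (Pf.C 3 265)) (Pf.C 81 649)) (Pf.C 3 777)) Pf.nil))) (Pf.C 8 0x60a08088)) (Pf.C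 4 392)) (Pf.C 4 520)) (Pf.C 0 0xa1c308)) (Pf.C 4 648))) Pf.nil))))
 (Pq.cons (Pq.L [0] 0x106673 (Pf.C 1 0x103001c301))
 (Pq.cons (Pq.L [] 0x136ef7 (Pf.C 1 0x202061c301))
 (Pq.cons (Pq.L [0] 0x136836 (Pf.C 1 0x200061c086))
 Pq.nil))))) (Pq.cons (Pq.L [] 0x40000 (Pf.C 4 773))
 (Pq.cons (Pq.D 6 (Pq.cons (Pq.L [] 0x1c0700 (Pf.C 0 0xe18282))
 (Pq.cons (Pq.L [0] 0x136836 (Pf.C 1 0x2000618087))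
 (Pq.cons (Pq.L [] 0x40bc7 (Pf.W 109 2 [] [1,3,4,5,6,7] (Pf.cons (Pf.B 8 6 (Pf.B 8 5 (Pf.C 71 648) (Pf.C 0 0xc08288)) (Pf.C 2 776)) (Pf.cons (Pf.B 8 7 (Pf.B 8 6 (Pf.B 8 5 (Pf.B 8 4 (Pf.B 8 3 (Pf.B 8 1 (Pf.W 115 8 [] [2,3,4] (Pf.cons (Pf.B 9 2 (Pf.C 5 0x20109) (Pf.C 70 265)) (Pf.cons (Pf.B 9 4 (Pf.B 9 3 (Pf.B 9 2 (Pf.C 8 0x4040c409) (Pf.C 3 265)) (Pf.C 81 393)) (Pf.C 81 521)) Pf.nil))) (Pf.C 8 0x4040c088)) (Pf.C 4 392)) (Pf.C 4 520)) (Pf.C 4 648)) (Pf.C 95 776)) (Pf.C 4 904)) Pf.nil))))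
 (Pq.cons (Pq.L [] 0x100631 (Pf.C 0 0x41c301))
 Pq.nil))))) Pq.nil))))) (Pq.cons (Pq.L [] 256 (Pf.C 84 642))
 Pq.nil))))) (Pq.cons (Pq.L [] 128 (Pf.C 84 514))
 Pq.nil))))) (Pq.cons (Pq.L [] 64 (Pf.C 84 386))
 Pq.nil))))) (Pq.cons (Pq.D 2 (Pq.cons (Pq.L [] 67 (Pf.C 5 32899))
 (Pq.cons (Pq.D 3 (Pq.cons (Pq.L [] 133 (Pf.C 5 32900))
 (Pq.cons (Pq.D 4 (Pq.cons (Pq.L [] 265 (Pf.C 5 32901))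
 (Pq.cons (Pq.D 5 (Pq.cons (Pq.D 6 (Pq.cons (Pq.L [] 0x1c0700 (Pf.C 0 0xe18105))
 (Pq.cons (Pq.L [] 0x1c0000 (Pf.W 101 6 [] [1,2,3,4,5,7] (Pf.cons (Pf.B 8 7 (Pf.B 8 5 (Pf.B 8 4 (Pf.B 8 3 (Pf.B 8 2 (Pf.B 8 1 (Pf.W 107 8 [] [5,6,7] (Pf.cons (Pf.B 9 7 (Pf.B 9 6 (Pf.B 9 5 (Pf.C 6 0x70c14409) (Pf.C 68 649)) (Pf.C 2 777)) (Pf.C 68 905)) (Pf.cons (Pf.B 9 6 (Pf.C 5 0x24406) (Pf.C 91 777)) Pf.nil))) (Pf.C 3 136)) (Pf.C 81 264)) (Pf.C 3 392)) (Pf.C 3 520)) (Pf.C 3 648)) (Pf.C 3 904)) (Pf.cons (Pf.B 8 7 (Pf.C 92 904) (Pf.B 8 5 (Pf.C 92 648) (Pf.C 0 0xe18405))) Pf.nil))))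
 (Pq.cons (Pq.L [] 0x100030 (Pf.C 5 0x1c086))
 (Pq.cons (Pq.L [] 0x1c0700 (Pf.C 0 0xe18282))
 Pq.nil))))) (Pq.cons (Pq.L [] 0x40000 (Pf.C 3 773))
 (Pq.cons (Pq.D 6 (Pq.cons (Pq.L [] 0x100030 (Pf.C 5 98439))
 (Pq.cons (Pq.L [] 0x136ef7 (Pf.C 1 0x202061c301))
 (Pq.cons (Pq.L [] 0x136ef7 (Pf.C 1 0x202061c301))
 (Pq.cons (Pq.L [] 0x1dbb19 (Pf.W 109 5 [] [1,2,3,4,6,7] (Pf.cons (Pf.B 8 7 (Pf.B 8 6 (Pf.C 71 776) (Pf.C 0 0xe14308)) (Pf.C 2 904)) (Pf.cons (Pf.B 8 7 (Pf.B 8 6 (Pf.B 8 2 (Pf.B 8 1 (Pf.B 8 4 (Pf.B 8 3 (Pf.W 115 8 [] [2,5,6] (Pf.cons (Pf.B 9 5 (Pf.C 5 0x20289) (Pf.C 70 649)) (Pf.cons (Pf.B 9 6 (Pf.B 9 5 (Pf.B 9 2 (Pf.C 8 0x60a08409) (Pf.C 81 265)) (Pf.C 3 649)) (Pf.C 81 777)) Pf.nil)))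 (Pf.W 115 8 [] [3,5,6] (Pf.cons (Pf.B 9 5 (Pf.C 5 0x20289) (Pf.C 70 649)) (Pf.cons (Pf.B 9 6 (Pf.B 9 5 (Pf.B 9 3 (Pf.C 8 0x31024305) (Pf.C 3 393)) (Pf.C 3 649)) (Pf.C 81 777)) Pf.nil)))) (Pf.B 8 3 (Pf.W 115 8 [] [4,5,6] (Pf.cons (Pf.B 9 5 (Pf.C 5 0x20289) (Pf.C 70 649)) (Pf.cons (Pf.B 9 6 (Pf.B 9 5 (Pf.B 9 4 (Pf.C 8 0x41024305) (Pf.C 3 521)) (Pf.C 3 649)) (Pf.C 81 777)) Pf.nil))) (Pf.C 8 0x4100c305))) (Pf.C 8 0x60a08088)) (Pf.C 4 264)) (Pf.C 4 776)) (Pf.C 95 904)) Pf.nil))))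
 Pq.nil))))) (Pq.cons (Pq.L [] 0x40000 (Pf.C 84 773))
 Pq.nil))))) (Pq.cons (Pq.L [] 256 (Pf.C 4 642))
 (Pq.cons (Pq.L [] 39360 (Pf.C 0 0x814103))
 Pq.nil))))) (Pq.cons (Pq.L [] 128 (Pf.C 4 514))
 (Pq.cons (Pq.D 4 (Pq.cons (Pq.L [] 265 (Pf.C 5 32901))
 (Pq.cons (Pq.L [] 39360 (Pf.C 0 0xa10103))
 (Pq.cons (Pq.L [] 256 (Pf.C 4 642))
 (Pq.cons (Pq.L [] 39360 (Pf.C 0 0xa0c104))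
 Pq.nil))))) Pq.nil))))) (Pq.cons (Pq.L [] 64 (Pf.C 4 386))
 (Pq.cons (Pq.D 3 (Pq.cons (Pq.L [] 133 (Pf.C 5 32900))
 (Pq.cons (Pq.D 4 (Pq.cons (Pq.L [] 265 (Pf.C 5 32901))
 (Pq.cons (Pq.L [] 39360 (Pf.C 0 0xa0c104))
 (Pq.cons (Pq.L [] 256 (Pf.C 4 642))
 (Pq.cons (Pq.L [] 39360 (Pf.C 0 0xa10103))
 Pq.nil))))) (Pq.cons (Pq.L [] 128 (Pf.C 4 514))
 (Pq.cons (Pq.D 4 (Pq.cons (Pq.L [] 265 (Pf.C 5 32901))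
 (Pq.cons (Pq.L [] 39360 (Pf.C 0 0x814103))
 (Pq.cons (Pq.L [] 256 (Pf.C 4 642))
 (Pq.cons (Pq.D 5 (Pq.cons (Pq.L [] 0x40000 (Pf.C 2 773))
 (Pq.cons (Pq.L [] 0x40000 (Pf.C 84 646))
 (Pq.cons (Pq.D 6 (Pq.cons (Pq.L [] 0x100030 (Pf.C 5 98439))
 (Pq.cons (Pq.L [] 0x1c8781 (Pf.W 117 2 [] [1,3,4,5,6,7] (Pf.cons (Pf.B 8 7 (Pf.C 5 33672) (Pf.B 8 5 (Pf.B 8 6 (Pf.B 8 4 (Pf.B 8 3 (Pf.B 8 1 (Pf.C 5 32904) (Pf.W 102 8 [] [2,5,6] (Pf.cons (Pf.B 9 6 (Pf.C 5 99464) (Pf.C 83 777)) (Pf.cons (Pf.B 9 6 (Pf.B 9 5 (Pf.B 9 2 (Pf.C 7 0x60a08409) (Pf.C 4 265)) (Pf.C 95 649)) (Pf.C 4 777)) Pf.nil)))) (Pf.C 2 392)) (Pf.C 2 520)) (Pf.C 0 0xa1c308)) (Pf.C 2 648))) (Pf.cons (Pf.B 8 5 (Pf.C 84 648) (Pf.B 8 4 (Pf.C 84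 520) (Pf.C 0 0xa08404))) Pf.nil))))
 (Pq.cons (Pq.L [] 0x136ec0 (Pf.C 7 0x4040c386))
 (Pq.cons (Pq.L [] 0x136ec0 (Pf.C 7 0x4040c386))
 Pq.nil))))) (Pq.cons (Pq.L [] 0x40000 (Pf.C 2 773))
 Pq.nil))))) Pq.nil))))) Pq.nil))))) Pq.nil))))) (Pq.cons (Pq.D 2 (Pq.cons (Pq.L [] 64 (Pf.C 2 386))
 (Pq.cons (Pq.L [] 64 (Pf.C 84 259))
 (Pq.cons (Pq.D 3 (Pq.cons (Pq.L [] 128 (Pf.C 2 514))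
 (Pq.cons (Pq.L [] 128 (Pf.C 84 260))
 (Pq.cons (Pq.D 4 (Pq.cons (Pq.L [] 256 (Pf.C 2 642))
 (Pq.cons (Pq.L [] 256 (Pf.C 84 261))
 (Pq.cons (Pq.D 5 (Pq.cons (Pq.L [] 0x40018 (Pf.C 5 82054))
 (Pq.cons (Pq.D 6 (Pq.cons (Pq.L [] 0x1c0700 (Pf.C 0 0xe18282))
 (Pq.cons (Pq.L [0] 0x136836 (Pf.C 1 0x200061c301))
 (Pq.cons (Pq.L [] 0x1c0038 (Pf.W 109 6 [] [1,2,3,4,5,7] (Pf.cons (Pf.B 8 7 (Pf.C 71 904) (Pf.B 8 5 (Pf.C 71 648) (Pf.C 0 0xe18405))) (Pf.cons (Pf.B 8 7 (Pf.B 8 5 (Pf.B 8 4 (Pf.B 8 3 (Pf.B 8 2 (Pf.B 8 1 (Pf.W 115 8 [] [5,6,7] (Pf.cons (Pf.B 9 6 (Pf.C 5 0x20309) (Pf.C 70 777)) (Pf.cons (Pf.B 9 7 (Pf.B 9 6 (Pf.B 9 5 (Pf.C 8 0x70c14409) (Pf.C 81 649)) (Pf.C 3 777)) (Pf.C 81 905)) Pf.nil)))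 (Pf.C 8 0x70c14088)) (Pf.C 95 264)) (Pf.C 4 392)) (Pf.C 4 520)) (Pf.C 4 648)) (Pf.C 4 904)) Pf.nil))))
 (Pq.cons (Pq.L [0] 0x136836 (Pf.C 1 0x200061c086))
 Pq.nil))))) (Pq.cons (Pq.L [] 0x40000 (Pf.C 4 773))
 (Pq.cons (Pq.D 6 (Pq.cons (Pq.L [] 0x100000 (Pf.C 2 902))
 (Pq.cons (Pq.L [0] 0x136836 (Pf.C 1 0x2000618087))
 (Pq.cons (Pq.L [] 0x136ec0 (Pf.C 7 0x4040c386))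
 (Pq.cons (Pq.L [0] 0x106640 (Pf.C 7 0x608386))
 Pq.nil))))) Pq.nil))))) (Pq.cons (Pq.L [] 256 (Pf.C 2 642))
 Pq.nil))))) (Pq.cons (Pq.L [] 128 (Pf.C 2 514))
 Pq.nil))))) (Pq.cons (Pq.L [] 64 (Pf.C 2 386))
 Pq.nil))))) Pq.nil))))) Pq.nil))
theorem e4_o12 : AllRef e4_T e4_G6 (List.take 2 (List.flatMap (splitP 0) (List.drop 1 (applyObl d_T 2 [47,58,69,50] [0,0,0,0] [(47,0x200000000000000000),(58,0x4000000000000),(69,0x800000000000),(50,0x400000000000000)])))) :=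
  chkPq_sound e4_o12c _ (by decide +kernel)
noncomputable def e4_o13c : Pq := (Pq.cons (Pq.D 1 (Pq.cons (Pq.D 2 (Pq.cons (Pq.L [] 64 (Pf.C 2 386))
 (Pq.cons (Pq.D 3 (Pq.cons (Pq.L [] 128 (Pf.C 2 514))
 (Pq.cons (Pq.D 4 (Pq.cons (Pq.L [] 256 (Pf.C 2 642))
 (Pq.cons (Pq.D 5 (Pq.cons (Pq.D 6 (Pq.cons (Pq.L [] 0x136ec0 (Pf.C 6 0x4040c386))
 (Pq.cons (Pq.L [] 0x136ec0 (Pf.C 6 0x4040c386))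
 (Pq.cons (Pq.L [] 0x106000 (Pf.C 5 0x1c186))
 (Pq.cons (Pq.L [] 0x100000 (Pf.C 2 902))
 Pq.nil))))) (Pq.cons (Pq.L [] 0x40000 (Pf.C 3 773))
 (Pq.cons (Pq.D 6 (Pq.cons (Pq.L [] 0x106000 (Pf.C 5 98695))
 (Pq.cons (Pq.L [] 0x40bc0 (Pf.W 101 2 [] [1,3,4,5,6,7] (Pf.cons (Pf.B 8 7 (Pf.B 8 6 (Pf.B 8 5 (Pf.B 8 4 (Pf.B 8 3 (Pf.B 8 1 (Pf.W 107 8 [] [2,3,4] (Pf.cons (Pf.B 9 4 (Pf.B 9 3 (Pf.B 9 2 (Pf.C 6 0x4040c409) (Pf.C 2 265)) (Pf.C 68 393)) (Pf.C 68 521)) (Pf.cons (Pf.B 9 2 (Pf.C 5 0x24402) (Pf.C 91 265)) Pf.nil))) (Pf.C 81 136)) (Pf.C 3 392)) (Pf.C 3 520)) (Pf.C 3 648)) (Pf.C 81 776)) (Pf.C 3 904)) (Pf.cons (Pf.B 8 6 (Pf.B 8 5 (Pf.C 92 648) (Pf.C 0 0xc08288)) (Pf.C 4 776)) Pf.nil))))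
 (Pq.cons (Pq.L [0] 0x100600 (Pf.C 0 0x1c302))
 (Pq.cons (Pq.L [] 0x1c0700 (Pf.C 0 0xe18282))
 Pq.nil))))) (Pq.cons (Pq.L [] 0x40018 (Pf.C 5 17030))
 Pq.nil))))) (Pq.cons (Pq.L [] 256 (Pf.C 71 642))
 (Pq.cons (Pq.L [] 256 (Pf.C 2 642))
 Pq.nil))))) (Pq.cons (Pq.L [] 128 (Pf.C 71 514))
 (Pq.cons (Pq.L [] 128 (Pf.C 2 514))
 Pq.nil))))) (Pq.cons (Pq.L [] 64 (Pf.C 71 386))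
 (Pq.cons (Pq.L [] 64 (Pf.C 2 386))
 Pq.nil))))) (Pq.cons (Pq.D 2 (Pq.cons (Pq.D 3 (Pq.cons (Pq.D 4 (Pq.cons (Pq.D 5 (Pq.cons (Pq.L [] 0x40000 (Pf.C 2 773))
 (Pq.cons (Pq.D 6 (Pq.cons (Pq.L [] 0x136ec0 (Pf.C 6 0x4040c386))
 (Pq.cons (Pq.L [] 0x136ec0 (Pf.C 6 0x4040c386))
 (Pq.cons (Pq.L [] 0x1dbb00 (Pf.W 101 5 [] [1,2,3,4,6,7] (Pf.cons (Pf.B 8 7 (Pf.B 8 6 (Pf.B 8 2 (Pf.B 8 1 (Pf.B 8 4 (Pf.B 8 3 (Pf.W 107 8 [] [2,5,6] (Pf.cons (Pf.B 9 6 (Pf.B 9 5 (Pf.B 9 2 (Pf.C 6 0x60a08409) (Pf.C 68 265)) (Pf.C 2 649)) (Pf.C 68 777)) (Pf.cons (Pf.B 9 5 (Pf.C 5 0x24405) (Pf.C 91 649)) Pf.nil))) (Pf.W 107 8 [] [3,5,6] (Pf.cons (Pf.B 9 6 (Pf.B 9 5 (Pf.B 9 3 (Pf.C 6 0x31024305) (Pf.C 2 393)) (Pf.C 2 649))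 (Pf.C 68 777)) (Pf.cons (Pf.B 9 5 (Pf.C 5 0x24405) (Pf.C 91 649)) Pf.nil)))) (Pf.B 8 3 (Pf.W 107 8 [] [4,5,6] (Pf.cons (Pf.B 9 6 (Pf.B 9 5 (Pf.B 9 4 (Pf.C 6 0x41024305) (Pf.C 2 521)) (Pf.C 2 649)) (Pf.C 68 777)) (Pf.cons (Pf.B 9 5 (Pf.C 5 0x24405) (Pf.C 91 649)) Pf.nil))) (Pf.C 6 0x4100c305))) (Pf.C 81 136)) (Pf.C 3 264)) (Pf.C 3 776)) (Pf.C 81 904)) (Pf.cons (Pf.B 8 7 (Pf.B 8 6 (Pf.C 92 776) (Pf.C 0 0xe14308)) (Pf.C 4 904)) Pf.nil))))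
 (Pq.cons (Pq.L [] 0x100030 (Pf.C 5 17159))
 Pq.nil))))) (Pq.cons (Pq.L [] 0x40000 (Pf.C 71 773))
 (Pq.cons (Pq.L [] 0x40000 (Pf.C 2 773))
 Pq.nil))))) (Pq.cons (Pq.L [] 256 (Pf.C 3 642))
 (Pq.cons (Pq.L [] 39360 (Pf.C 0 0x814103))
 (Pq.cons (Pq.L [] 265 (Pf.C 5 16645))
 Pq.nil))))) (Pq.cons (Pq.L [] 128 (Pf.C 3 514))
 (Pq.cons (Pq.D 4 (Pq.cons (Pq.L [] 39360 (Pf.C 0 0xa10103))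
 (Pq.cons (Pq.L [] 256 (Pf.C 3 642))
 (Pq.cons (Pq.L [] 39360 (Pf.C 0 0xa0c104))
 (Pq.cons (Pq.L [] 265 (Pf.C 5 16645))
 Pq.nil))))) (Pq.cons (Pq.L [] 133 (Pf.C 5 16644))
 Pq.nil))))) (Pq.cons (Pq.L [] 64 (Pf.C 3 386))
 (Pq.cons (Pq.D 3 (Pq.cons (Pq.D 4 (Pq.cons (Pq.L [] 39360 (Pf.C 0 0xa0c104))
 (Pq.cons (Pq.L [] 256 (Pf.C 3 642))
 (Pq.cons (Pq.L [] 39360 (Pf.C 0 0xa10103))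
 (Pq.cons (Pq.L [] 265 (Pf.C 5 16645))
 Pq.nil))))) (Pq.cons (Pq.L [] 128 (Pf.C 3 514))
 (Pq.cons (Pq.D 4 (Pq.cons (Pq.L [] 39360 (Pf.C 0 0x814103))
 (Pq.cons (Pq.L [] 256 (Pf.C 3 642))
 (Pq.cons (Pq.D 5 (Pq.cons (Pq.L [] 0x40000 (Pf.C 71 646))
 (Pq.cons (Pq.D 6 (Pq.cons (Pq.L [] 0x1c8780 (Pf.W 109 2 [] [1,3,4,5,6,7] (Pf.cons (Pf.B 8 5 (Pf.C 71 648) (Pf.B 8 4 (Pf.C 71 520) (Pf.C 0 0xa08404))) (Pf.cons (Pf.B 8 7 (Pf.C 5 0x20107) (Pf.B 8 5 (Pf.B 8 6 (Pf.B 8 4 (Pf.B 8 3 (Pf.B 8 1 (Pf.W 115 8 [] [2,5,6] (Pf.cons (Pf.B 9 6 (Pf.C 5 0x20309) (Pf.C 70 777)) (Pf.cons (Pf.B 9 6 (Pf.B 9 5 (Pf.B 9 2 (Pf.C 8 0x60a08409) (Pf.C 3 265)) (Pf.C 81 649)) (Pf.C 3 777)) Pf.nil))) (Pf.C 4 136)) (Pf.C 4 392))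 (Pf.C 4 520)) (Pf.C 0 0xa1c308)) (Pf.C 4 648))) Pf.nil))))
 (Pq.cons (Pq.L [] 0x136ef7 (Pf.C 1 0x202061c301))
 (Pq.cons (Pq.L [] 0x136ef7 (Pf.C 1 0x202061c301))
 (Pq.cons (Pq.L [] 0x100030 (Pf.C 5 17159))
 Pq.nil))))) (Pq.cons (Pq.L [] 0x40000 (Pf.C 4 773))
 (Pq.cons (Pq.D 6 (Pq.cons (Pq.L [] 0x1c0700 (Pf.C 0 0xe18282))
 (Pq.cons (Pq.L [] 0x100030 (Pf.C 5 17286))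
 (Pq.cons (Pq.L [] 0x40bc0 (Pf.W 109 2 [] [1,3,4,5,6,7] (Pf.cons (Pf.B 8 6 (Pf.B 8 5 (Pf.C 71 648) (Pf.C 0 0xc08288)) (Pf.C 2 776)) (Pf.cons (Pf.B 8 7 (Pf.B 8 6 (Pf.B 8 5 (Pf.B 8 4 (Pf.B 8 3 (Pf.B 8 1 (Pf.W 115 8 [] [2,3,4] (Pf.cons (Pf.B 9 2 (Pf.C 5 0x20109) (Pf.C 70 265)) (Pf.cons (Pf.B 9 4 (Pf.B 9 3 (Pf.B 9 2 (Pf.C 8 0x4040c409) (Pf.C 3 265)) (Pf.C 81 393)) (Pf.C 81 521)) Pf.nil))) (Pf.C 4 136)) (Pf.C 4 392)) (Pf.C 4 520)) (Pf.C 4 648)) (Pf.C 95 776)) (Pf.C 4 904)) Pf.nil))))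
 (Pq.cons (Pq.L [0] 0x106032 (Pf.C 7 0x30004386))
 Pq.nil))))) Pq.nil))))) (Pq.cons (Pq.L [] 265 (Pf.C 5 16645))
 Pq.nil))))) (Pq.cons (Pq.L [] 133 (Pf.C 5 16644))
 Pq.nil))))) (Pq.cons (Pq.L [] 67 (Pf.C 5 16643))
 Pq.nil))))) (Pq.cons (Pq.D 2 (Pq.cons (Pq.L [] 64 (Pf.C 71 259))
 (Pq.cons (Pq.D 3 (Pq.cons (Pq.L [] 128 (Pf.C 71 260))
 (Pq.cons (Pq.D 4 (Pq.cons (Pq.L [] 256 (Pf.C 71 261))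
 (Pq.cons (Pq.D 5 (Pq.cons (Pq.D 6 (Pq.cons (Pq.L [] 0x100631 (Pf.C 0 0x41c301))
 (Pq.cons (Pq.L [] 0x1c0000 (Pf.W 101 6 [] [1,2,3,4,5,7] (Pf.cons (Pf.B 8 7 (Pf.B 8 5 (Pf.B 8 4 (Pf.B 8 3 (Pf.B 8 2 (Pf.B 8 1 (Pf.W 107 8 [] [5,6,7] (Pf.cons (Pf.B 9 7 (Pf.B 9 6 (Pf.B 9 5 (Pf.C 6 0x70c14409) (Pf.C 68 649)) (Pf.C 2 777)) (Pf.C 68 905)) (Pf.cons (Pf.B 9 6 (Pf.C 5 0x24406) (Pf.C 91 777)) Pf.nil))) (Pf.C 81 136)) (Pf.C 81 264)) (Pf.C 3 392)) (Pf.C 3 520)) (Pf.C 3 648)) (Pf.C 3 904)) (Pf.cons (Pf.B 8 7 (Pf.C 92 904) (Pf.B 8 5 (Pf.C 92 648) (Pf.C 0 0xe18405))) Pf.nil))))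
 (Pq.cons (Pq.L [] 0x106000 (Pf.C 5 0x1c186))
 (Pq.cons (Pq.L [] 0x1c0700 (Pf.C 0 0xe18282))
 Pq.nil))))) (Pq.cons (Pq.L [] 0x40000 (Pf.C 3 773))
 (Pq.cons (Pq.D 6 (Pq.cons (Pq.L [] 0x106000 (Pf.C 5 98695))
 (Pq.cons (Pq.L [] 0x136ef7 (Pf.C 1 0x202061c301))
 (Pq.cons (Pq.L [] 0x136ef7 (Pf.C 1 0x202061c301))
 (Pq.cons (Pq.L [] 0x1dbb00 (Pf.W 109 5 [] [1,2,3,4,6,7] (Pf.cons (Pf.B 8 7 (Pf.B 8 6 (Pf.C 71 776) (Pf.C 0 0xe14308)) (Pf.C 2 904)) (Pf.cons (Pf.B 8 7 (Pf.B 8 6 (Pf.B 8 2 (Pf.B 8 1 (Pf.B 8 4 (Pf.B 8 3 (Pf.W 115 8 [] [2,5,6] (Pf.cons (Pf.B 9 5 (Pf.C 5 0x20289) (Pf.C 70 649)) (Pf.cons (Pf.B 9 6 (Pf.B 9 5 (Pf.B 9 2 (Pf.C 8 0x60a08409) (Pf.C 81 265)) (Pf.C 3 649)) (Pf.C 81 777)) Pf.nil)))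 (Pf.W 115 8 [] [3,5,6] (Pf.cons (Pf.B 9 5 (Pf.C 5 0x20289) (Pf.C 70 649)) (Pf.cons (Pf.B 9 6 (Pf.B 9 5 (Pf.B 9 3 (Pf.C 8 0x31024305) (Pf.C 3 393)) (Pf.C 3 649)) (Pf.C 81 777)) Pf.nil)))) (Pf.B 8 3 (Pf.W 115 8 [] [4,5,6] (Pf.cons (Pf.B 9 5 (Pf.C 5 0x20289) (Pf.C 70 649)) (Pf.cons (Pf.B 9 6 (Pf.B 9 5 (Pf.B 9 4 (Pf.C 8 0x41024305) (Pf.C 3 521)) (Pf.C 3 649)) (Pf.C 81 777)) Pf.nil))) (Pf.C 8 0x4100c305))) (Pf.C 4 136)) (Pf.C 4 264)) (Pf.C 4 776)) (Pf.C 95 904)) Pf.nil))))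
 Pq.nil))))) (Pq.cons (Pq.L [] 0x40018 (Pf.C 5 17030))
 Pq.nil))))) (Pq.cons (Pq.L [] 256 (Pf.C 4 642))
 (Pq.cons (Pq.L [] 39360 (Pf.C 0 0x814103))
 Pq.nil))))) (Pq.cons (Pq.L [] 128 (Pf.C 4 514))
 (Pq.cons (Pq.D 4 (Pq.cons (Pq.L [] 256 (Pf.C 71 261))
 (Pq.cons (Pq.L [] 39360 (Pf.C 0 0xa10103))
 (Pq.cons (Pq.L [] 256 (Pf.C 4 642))
 (Pq.cons (Pq.L [] 39360 (Pf.C 0 0xa0c104))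
 Pq.nil))))) Pq.nil))))) (Pq.cons (Pq.L [] 64 (Pf.C 4 386))
 (Pq.cons (Pq.D 3 (Pq.cons (Pq.L [] 128 (Pf.C 71 260))
 (Pq.cons (Pq.D 4 (Pq.cons (Pq.L [] 256 (Pf.C 71 261))
 (Pq.cons (Pq.L [] 39360 (Pf.C 0 0xa0c104))
 (Pq.cons (Pq.L [] 256 (Pf.C 4 642))
 (Pq.cons (Pq.L [] 39360 (Pf.C 0 0xa10103))
 Pq.nil))))) (Pq.cons (Pq.L [] 128 (Pf.C 4 514))
 (Pq.cons (Pq.D 4 (Pq.cons (Pq.L [] 39375 (Pf.C 7 0x4040c281))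
 (Pq.cons (Pq.L [] 39360 (Pf.C 0 0x814103))
 (Pq.cons (Pq.L [] 256 (Pf.C 4 642))
 (Pq.cons (Pq.D 5 (Pq.cons (Pq.L [] 0x40000 (Pf.C 2 773))
 (Pq.cons (Pq.L [] 0x40018 (Pf.C 5 17157))
 (Pq.cons (Pq.D 6 (Pq.cons (Pq.L [] 0x100000 (Pf.C 71 775))
 (Pq.cons (Pq.L [] 0x1c8799 (Pf.W 117 2 [] [1,3,4,5,6,7] (Pf.cons (Pf.B 8 7 (Pf.C 5 33672) (Pf.B 8 5 (Pf.B 8 6 (Pf.B 8 4 (Pf.B 8 3 (Pf.B 8 1 (Pf.W 102 8 [] [2,5,6] (Pf.cons (Pf.B 9 6 (Pf.C 5 99464) (Pf.C 83 777)) (Pf.cons (Pf.B 9 6 (Pf.B 9 5 (Pf.B 9 2 (Pf.C 7 0x60a08409) (Pf.C 4 265)) (Pf.C 95 649)) (Pf.C 4 777)) Pf.nil))) (Pf.C 7 0x60a08088)) (Pf.C 2 392)) (Pf.C 2 520)) (Pf.C 0 0xa1c308)) (Pf.C 2 648))) (Pf.cons (Pf.B 8 5 (Pf.C 84 648) (Pf.B 8 4 (Pf.C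 84 520) (Pf.C 0 0xa08404))) Pf.nil))))
 (Pq.cons (Pq.L [] 0x136ef7 (Pf.C 1 0x202061c301))
 (Pq.cons (Pq.L [] 0x136ef7 (Pf.C 1 0x202061c301))
 Pq.nil))))) (Pq.cons (Pq.L [] 0x40000 (Pf.C 2 773))
 Pq.nil))))) Pq.nil))))) Pq.nil))))) Pq.nil))))) (Pq.cons (Pq.D 2 (Pq.cons (Pq.L [] 64 (Pf.C 2 386))
 (Pq.cons (Pq.L [] 67 (Pf.C 5 16770))
 (Pq.cons (Pq.D 3 (Pq.cons (Pq.L [] 128 (Pf.C 2 514))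
 (Pq.cons (Pq.L [] 133 (Pf.C 5 16898))
 (Pq.cons (Pq.D 4 (Pq.cons (Pq.L [] 256 (Pf.C 2 642))
 (Pq.cons (Pq.L [] 265 (Pf.C 5 17026))
 (Pq.cons (Pq.D 5 (Pq.cons (Pq.L [] 0x40000 (Pf.C 71 646))
 (Pq.cons (Pq.D 6 (Pq.cons (Pq.L [] 0x1c0700 (Pf.C 0 0xe18282))
 (Pq.cons (Pq.L [] 0x1c0700 (Pf.C 0 0xe18105))
 (Pq.cons (Pq.L [] 0x1c0000 (Pf.W 109 6 [] [1,2,3,4,5,7] (Pf.cons (Pf.B 8 7 (Pf.C 71 904) (Pf.B 8 5 (Pf.C 71 648) (Pf.C 0 0xe18405))) (Pf.cons (Pf.B 8 7 (Pf.B 8 5 (Pf.B 8 4 (Pf.B 8 3 (Pf.B 8 2 (Pf.B 8 1 (Pf.W 115 8 [] [5,6,7] (Pf.cons (Pf.B 9 6 (Pf.C 5 0x20309) (Pf.C 70 777)) (Pf.cons (Pf.B 9 7 (Pf.B 9 6 (Pf.B 9 5 (Pf.C 8 0x70c14409) (Pf.C 81 649)) (Pf.C 3 777)) (Pf.C 81 905)) Pf.nil))) (Pf.C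 4 136)) (Pf.C 95 264)) (Pf.C 4 392)) (Pf.C 4 520)) (Pf.C 4 648)) (Pf.C 4 904)) Pf.nil))))
 (Pq.cons (Pq.L [] 0x100030 (Pf.C 5 17159))
 Pq.nil))))) (Pq.cons (Pq.L [] 0x40000 (Pf.C 4 773))
 (Pq.cons (Pq.D 6 (Pq.cons (Pq.L [] 0x100000 (Pf.C 2 902))
 (Pq.cons (Pq.L [] 0x100030 (Pf.C 5 17286))
 (Pq.cons (Pq.L [] 0x136ef7 (Pf.C 1 0x202061c301))
 (Pq.cons (Pq.L [0] 0x106032 (Pf.C 7 0x30004386))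
 Pq.nil))))) Pq.nil))))) (Pq.cons (Pq.L [] 256 (Pf.C 2 642))
 Pq.nil))))) (Pq.cons (Pq.L [] 128 (Pf.C 2 514))
 Pq.nil))))) (Pq.cons (Pq.L [] 64 (Pf.C 2 386))
 Pq.nil))))) Pq.nil))))) (Pq.cons (Pq.D 1 (Pq.cons (Pq.D 2 (Pq.cons (Pq.L [] 64 (Pf.C 2 386))
 (Pq.cons (Pq.D 3 (Pq.cons (Pq.L [] 128 (Pf.C 2 514))
 (Pq.cons (Pq.D 4 (Pq.cons (Pq.L [] 256 (Pf.C 2 642))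
 (Pq.cons (Pq.D 5 (Pq.cons (Pq.D 6 (Pq.cons (Pq.L [] 0x106673 (Pf.C 6 0x20604386))
 (Pq.cons (Pq.L [] 0x136ec0 (Pf.C 6 0x4040c386))
 (Pq.cons (Pq.L [0] 0x136836 (Pf.C 1 0x201061c006))
 (Pq.cons (Pq.L [] 0x100000 (Pf.C 2 902))
 Pq.nil))))) (Pq.cons (Pq.L [] 0x40000 (Pf.C 3 773))
 (Pq.cons (Pq.D 6 (Pq.cons (Pq.L [0] 0x136836 (Pf.C 1 0x2010618007))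
 (Pq.cons (Pq.L [] 0x40bc0 (Pf.W 101 2 [] [1,3,4,5,6,7] (Pf.cons (Pf.B 8 7 (Pf.B 8 6 (Pf.B 8 5 (Pf.B 8 4 (Pf.B 8 3 (Pf.B 8 1 (Pf.C 80 136) (Pf.W 107 8 [] [2,3,4] (Pf.cons (Pf.B 9 4 (Pf.B 9 3 (Pf.B 9 2 (Pf.C 6 0x4040c409) (Pf.C 2 265)) (Pf.C 68 393)) (Pf.C 68 521)) (Pf.cons (Pf.B 9 2 (Pf.C 5 0x24402) (Pf.C 91 265)) Pf.nil)))) (Pf.C 3 392)) (Pf.C 3 520)) (Pf.C 3 648)) (Pf.C 81 776)) (Pf.C 3 904)) (Pf.cons (Pf.B 8 6 (Pf.B 8 5 (Pf.C 92 648) (Pf.C 0 0xc08288)) (Pf.C 4 776)) Pf.nil))))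
 (Pq.cons (Pq.L [0] 0x100600 (Pf.C 0 0x1c302))
 (Pq.cons (Pq.L [] 0x1c0700 (Pf.C 0 0xe18282))
 Pq.nil))))) (Pq.cons (Pq.L [] 0x40000 (Pf.C 84 773))
 Pq.nil))))) (Pq.cons (Pq.L [] 256 (Pf.C 71 642))
 (Pq.cons (Pq.L [] 256 (Pf.C 2 642))
 Pq.nil))))) (Pq.cons (Pq.L [] 128 (Pf.C 71 514))
 (Pq.cons (Pq.L [] 128 (Pf.C 2 514))
 Pq.nil))))) (Pq.cons (Pq.L [] 64 (Pf.C 71 386))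
 (Pq.cons (Pq.L [] 64 (Pf.C 2 386))
 Pq.nil))))) (Pq.cons (Pq.D 2 (Pq.cons (Pq.D 3 (Pq.cons (Pq.D 4 (Pq.cons (Pq.D 5 (Pq.cons (Pq.L [] 0x40000 (Pf.C 2 773))
 (Pq.cons (Pq.D 6 (Pq.cons (Pq.L [] 0x136ec0 (Pf.C 6 0x4040c386))
 (Pq.cons (Pq.L [] 0x136ec0 (Pf.C 6 0x4040c386))
 (Pq.cons (Pq.L [] 0x1dbb00 (Pf.W 101 5 [] [1,2,3,4,6,7] (Pf.cons (Pf.B 8 7 (Pf.B 8 6 (Pf.B 8 2 (Pf.B 8 1 (Pf.C 80 136) (Pf.B 8 4 (Pf.B 8 3 (Pf.W 107 8 [] [2,5,6] (Pf.cons (Pf.B 9 6 (Pf.B 9 5 (Pf.B 9 2 (Pf.C 6 0x60a08409) (Pf.C 68 265)) (Pf.C 2 649)) (Pf.C 68 777)) (Pf.cons (Pf.B 9 5 (Pf.C 5 0x24405) (Pf.C 91 649)) Pf.nil))) (Pf.W 107 8 [] [3,5,6] (Pf.cons (Pf.B 9 6 (Pf.B 9 5 (Pf.B 9 3 (Pf.C 6 0x31024305) (Pf.C 2 393))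 (Pf.C 2 649)) (Pf.C 68 777)) (Pf.cons (Pf.B 9 5 (Pf.C 5 0x24405) (Pf.C 91 649)) Pf.nil)))) (Pf.B 8 3 (Pf.W 107 8 [] [4,5,6] (Pf.cons (Pf.B 9 6 (Pf.B 9 5 (Pf.B 9 4 (Pf.C 6 0x41024305) (Pf.C 2 521)) (Pf.C 2 649)) (Pf.C 68 777)) (Pf.cons (Pf.B 9 5 (Pf.C 5 0x24405) (Pf.C 91 649)) Pf.nil))) (Pf.C 6 0x4100c305)))) (Pf.C 3 264)) (Pf.C 3 776)) (Pf.C 81 904)) (Pf.cons (Pf.B 8 7 (Pf.B 8 6 (Pf.C 92 776) (Pf.C 0 0xe14308)) (Pf.C 4 904)) Pf.nil))))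
 (Pq.cons (Pq.L [] 0x100000 (Pf.C 84 902))
 Pq.nil))))) (Pq.cons (Pq.L [] 0x40000 (Pf.C 71 773))
 (Pq.cons (Pq.L [] 0x40000 (Pf.C 2 773))
 Pq.nil))))) (Pq.cons (Pq.L [] 256 (Pf.C 3 642))
 (Pq.cons (Pq.L [] 39360 (Pf.C 0 0x814103))
 (Pq.cons (Pq.L [] 256 (Pf.C 84 642))
 Pq.nil))))) (Pq.cons (Pq.L [] 128 (Pf.C 3 514))
 (Pq.cons (Pq.D 4 (Pq.cons (Pq.L [] 39360 (Pf.C 0 0xa10103))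
 (Pq.cons (Pq.L [] 256 (Pf.C 3 642))
 (Pq.cons (Pq.L [] 39360 (Pf.C 0 0xa0c104))
 (Pq.cons (Pq.L [] 256 (Pf.C 84 642))
 Pq.nil))))) (Pq.cons (Pq.L [] 128 (Pf.C 84 514))
 Pq.nil))))) (Pq.cons (Pq.L [] 64 (Pf.C 3 386))
 (Pq.cons (Pq.D 3 (Pq.cons (Pq.D 4 (Pq.cons (Pq.L [] 39360 (Pf.C 0 0xa0c104))
 (Pq.cons (Pq.L [] 256 (Pf.C 3 642))
 (Pq.cons (Pq.L [] 39360 (Pf.C 0 0xa10103))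
 (Pq.cons (Pq.L [] 256 (Pf.C 84 642))
 Pq.nil))))) (Pq.cons (Pq.L [] 128 (Pf.C 3 514))
 (Pq.cons (Pq.D 4 (Pq.cons (Pq.L [] 39360 (Pf.C 0 0x814103))
 (Pq.cons (Pq.L [] 256 (Pf.C 3 642))
 (Pq.cons (Pq.D 5 (Pq.cons (Pq.L [] 0x40000 (Pf.C 71 646))
 (Pq.cons (Pq.D 6 (Pq.cons (Pq.L [] 0x1c8780 (Pf.W 109 2 [] [1,3,4,5,6,7] (Pf.cons (Pf.B 8 5 (Pf.C 71 648) (Pf.B 8 4 (Pf.C 71 520) (Pf.C 0 0xa08404))) (Pf.cons (Pf.B 8 7 (Pf.C 5 0x20107) (Pf.B 8 5 (Pf.B 8 6 (Pf.B 8 4 (Pf.B 8 3 (Pf.B 8 1 (Pf.W 115 8 [] [2,5,6] (Pf.cons (Pf.B 9 6 (Pf.C 5 0x20309) (Pf.C 70 777)) (Pf.cons (Pf.B 9 6 (Pf.B 9 5 (Pf.B 9 2 (Pf.C 8 0x60a08409) (Pf.C 3 265)) (Pf.C 81 649)) (Pf.C 3 777)) Pf.nil))) (Pf.C 95 136)) (Pf.C 4 392))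 (Pf.C 4 520)) (Pf.C 0 0xa1c308)) (Pf.C 4 648))) Pf.nil))))
 (Pq.cons (Pq.L [] 0x136ec0 (Pf.C 8 0x4040c386))
 (Pq.cons (Pq.L [] 0x136ec0 (Pf.C 8 0x4040c386))
 (Pq.cons (Pq.L [0] 0x136836 (Pf.C 1 0x2000618087))
 Pq.nil))))) (Pq.cons (Pq.L [] 0x40000 (Pf.C 4 773))
 (Pq.cons (Pq.D 6 (Pq.cons (Pq.L [] 0x1c0700 (Pf.C 0 0xe18282))
 (Pq.cons (Pq.L [0] 0x136836 (Pf.C 1 0x200061c086))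
 (Pq.cons (Pq.L [] 0x40bc0 (Pf.W 109 2 [] [1,3,4,5,6,7] (Pf.cons (Pf.B 8 6 (Pf.B 8 5 (Pf.C 71 648) (Pf.C 0 0xc08288)) (Pf.C 2 776)) (Pf.cons (Pf.B 8 7 (Pf.B 8 6 (Pf.B 8 5 (Pf.B 8 4 (Pf.B 8 3 (Pf.B 8 1 (Pf.W 115 8 [] [2,3,4] (Pf.cons (Pf.B 9 2 (Pf.C 5 0x20109) (Pf.C 70 265)) (Pf.cons (Pf.B 9 4 (Pf.B 9 3 (Pf.B 9 2 (Pf.C 8 0x4040c409) (Pf.C 3 265)) (Pf.C 81 393)) (Pf.C 81 521)) Pf.nil))) (Pf.C 95 136)) (Pf.C 4 392)) (Pf.C 4 520)) (Pf.C 4 648)) (Pf.C 95 776)) (Pf.C 4 904)) Pf.nil))))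
 (Pq.cons (Pq.L [0] 0x136836 (Pf.C 1 0x200061c301))
 Pq.nil))))) Pq.nil))))) (Pq.cons (Pq.L [] 256 (Pf.C 84 642))
 Pq.nil))))) (Pq.cons (Pq.L [] 128 (Pf.C 84 514))
 Pq.nil))))) (Pq.cons (Pq.L [] 64 (Pf.C 84 386))
 Pq.nil))))) (Pq.cons (Pq.D 2 (Pq.cons (Pq.L [] 64 (Pf.C 71 259))
 (Pq.cons (Pq.D 3 (Pq.cons (Pq.L [] 128 (Pf.C 71 260))
 (Pq.cons (Pq.D 4 (Pq.cons (Pq.L [] 256 (Pf.C 71 261))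
 (Pq.cons (Pq.D 5 (Pq.cons (Pq.D 6 (Pq.cons (Pq.L [] 0x136836 (Pf.C 6 0x4020c386))
 (Pq.cons (Pq.L [] 0x1c0000 (Pf.W 101 6 [] [1,2,3,4,5,7] (Pf.cons (Pf.B 8 7 (Pf.B 8 5 (Pf.B 8 4 (Pf.B 8 3 (Pf.B 8 2 (Pf.B 8 1 (Pf.C 80 136) (Pf.W 107 8 [] [5,6,7] (Pf.cons (Pf.B 9 7 (Pf.B 9 6 (Pf.B 9 5 (Pf.C 6 0x70c14409) (Pf.C 68 649)) (Pf.C 2 777)) (Pf.C 68 905)) (Pf.cons (Pf.B 9 6 (Pf.C 5 0x24406) (Pf.C 91 777)) Pf.nil)))) (Pf.C 81 264)) (Pf.C 3 392)) (Pf.C 3 520)) (Pf.C 3 648)) (Pf.C 3 904)) (Pf.cons (Pf.B 8 7 (Pf.C 92 904) (Pf.B 8 5 (Pf.C 92 648) (Pf.C 0 0xe18405))) Pf.nil))))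
 (Pq.cons (Pq.L [0] 0x136836 (Pf.C 1 0x201061c006))
 (Pq.cons (Pq.L [] 0x1c0700 (Pf.C 0 0xe18282))
 Pq.nil))))) (Pq.cons (Pq.L [] 0x40000 (Pf.C 3 773))
 (Pq.cons (Pq.D 6 (Pq.cons (Pq.L [0] 0x136836 (Pf.C 1 0x2010618007))
 (Pq.cons (Pq.L [] 0x136ec0 (Pf.C 8 0x4040c386))
 (Pq.cons (Pq.L [] 0x136ec0 (Pf.C 8 0x4040c386))
 (Pq.cons (Pq.L [] 0x1dbb00 (Pf.W 109 5 [] [1,2,3,4,6,7] (Pf.cons (Pf.B 8 7 (Pf.B 8 6 (Pf.C 71 776) (Pf.C 0 0xe14308)) (Pf.C 2 904)) (Pf.cons (Pf.B 8 7 (Pf.B 8 6 (Pf.B 8 2 (Pf.B 8 1 (Pf.B 8 4 (Pf.B 8 3 (Pf.W 115 8 [] [2,5,6] (Pf.cons (Pf.B 9 5 (Pf.C 5 0x20289) (Pf.C 70 649)) (Pf.cons (Pf.B 9 6 (Pf.B 9 5 (Pf.B 9 2 (Pf.C 8 0x60a08409) (Pf.C 81 265)) (Pf.C 3 649)) (Pf.C 81 777))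 Pf.nil))) (Pf.W 115 8 [] [3,5,6] (Pf.cons (Pf.B 9 5 (Pf.C 5 0x20289) (Pf.C 70 649)) (Pf.cons (Pf.B 9 6 (Pf.B 9 5 (Pf.B 9 3 (Pf.C 8 0x31024305) (Pf.C 3 393)) (Pf.C 3 649)) (Pf.C 81 777)) Pf.nil)))) (Pf.B 8 3 (Pf.W 115 8 [] [4,5,6] (Pf.cons (Pf.B 9 5 (Pf.C 5 0x20289) (Pf.C 70 649)) (Pf.cons (Pf.B 9 6 (Pf.B 9 5 (Pf.B 9 4 (Pf.C 8 0x41024305) (Pf.C 3 521)) (Pf.C 3 649)) (Pf.C 81 777)) Pf.nil))) (Pf.C 8 0x4100c305))) (Pf.C 95 136)) (Pf.C 4 264)) (Pf.C 4 776)) (Pf.C 95 904)) Pf.nil))))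
 Pq.nil))))) (Pq.cons (Pq.L [] 0x40000 (Pf.C 84 773))
 Pq.nil))))) (Pq.cons (Pq.L [] 256 (Pf.C 4 642))
 (Pq.cons (Pq.L [] 39360 (Pf.C 0 0x814103))
 Pq.nil))))) (Pq.cons (Pq.L [] 128 (Pf.C 4 514))
 (Pq.cons (Pq.D 4 (Pq.cons (Pq.L [] 256 (Pf.C 71 261))
 (Pq.cons (Pq.L [] 39360 (Pf.C 0 0xa10103))
 (Pq.cons (Pq.L [] 256 (Pf.C 4 642))
 (Pq.cons (Pq.L [] 39360 (Pf.C 0 0xa0c104))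
 Pq.nil))))) Pq.nil))))) (Pq.cons (Pq.L [] 64 (Pf.C 4 386))
 (Pq.cons (Pq.D 3 (Pq.cons (Pq.L [] 128 (Pf.C 71 260))
 (Pq.cons (Pq.D 4 (Pq.cons (Pq.L [] 256 (Pf.C 71 261))
 (Pq.cons (Pq.L [] 39360 (Pf.C 0 0xa0c104))
 (Pq.cons (Pq.L [] 256 (Pf.C 4 642))
 (Pq.cons (Pq.L [] 39360 (Pf.C 0 0xa10103))
 Pq.nil))))) (Pq.cons (Pq.L [] 128 (Pf.C 4 514))
 (Pq.cons (Pq.D 4 (Pq.cons (Pq.L [] 256 (Pf.C 71 261))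
 (Pq.cons (Pq.L [] 39360 (Pf.C 0 0x814103))
 (Pq.cons (Pq.L [] 256 (Pf.C 4 642))
 (Pq.cons (Pq.D 5 (Pq.cons (Pq.L [] 0x40000 (Pf.C 2 773))
 (Pq.cons (Pq.L [] 0x40000 (Pf.C 84 646))
 (Pq.cons (Pq.D 6 (Pq.cons (Pq.L [] 0x100000 (Pf.C 71 775))
 (Pq.cons (Pq.L [] 0x1c8780 (Pf.W 117 2 [] [1,3,4,5,6,7] (Pf.cons (Pf.B 8 7 (Pf.C 5 33672) (Pf.B 8 5 (Pf.B 8 6 (Pf.B 8 4 (Pf.B 8 3 (Pf.B 8 1 (Pf.W 102 8 [] [2,5,6] (Pf.cons (Pf.B 9 6 (Pf.C 5 99464) (Pf.C 83 777)) (Pf.cons (Pf.B 9 6 (Pf.B 9 5 (Pf.B 9 2 (Pf.C 7 0x60a08409) (Pf.C 4 265)) (Pf.C 95 649)) (Pf.C 4 777)) Pf.nil))) (Pf.C 2 136)) (Pf.C 2 392)) (Pf.C 2 520)) (Pf.C 0 0xa1c308)) (Pf.C 2 648))) (Pf.cons (Pf.B 8 5 (Pf.C 84 648) (Pf.B 8 4 (Pf.C 84 520)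 (Pf.C 0 0xa08404))) Pf.nil))))
 (Pq.cons (Pq.L [] 0x136ef7 (Pf.C 1 0x202061c301))
 (Pq.cons (Pq.L [] 0x136ef7 (Pf.C 1 0x202061c301))
 Pq.nil))))) (Pq.cons (Pq.L [] 0x40000 (Pf.C 2 773))
 Pq.nil))))) Pq.nil))))) Pq.nil))))) Pq.nil))))) (Pq.cons (Pq.D 2 (Pq.cons (Pq.L [] 64 (Pf.C 2 386))
 (Pq.cons (Pq.L [] 64 (Pf.C 84 259))
 (Pq.cons (Pq.D 3 (Pq.cons (Pq.L [] 128 (Pf.C 2 514))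
 (Pq.cons (Pq.L [] 128 (Pf.C 84 260))
 (Pq.cons (Pq.D 4 (Pq.cons (Pq.L [] 256 (Pf.C 2 642))
 (Pq.cons (Pq.L [] 256 (Pf.C 84 261))
 (Pq.cons (Pq.D 5 (Pq.cons (Pq.L [] 0x40000 (Pf.C 71 646))
 (Pq.cons (Pq.D 6 (Pq.cons (Pq.L [] 0x1c0700 (Pf.C 0 0xe18282))
 (Pq.cons (Pq.L [] 0x100631 (Pf.C 0 0x41c301))
 (Pq.cons (Pq.L [] 0x1c0000 (Pf.W 109 6 [] [1,2,3,4,5,7] (Pf.cons (Pf.B 8 7 (Pf.C 71 904) (Pf.B 8 5 (Pf.C 71 648) (Pf.C 0 0xe18405))) (Pf.cons (Pf.B 8 7 (Pf.B 8 5 (Pf.B 8 4 (Pf.B 8 3 (Pf.B 8 2 (Pf.B 8 1 (Pf.W 115 8 [] [5,6,7] (Pf.cons (Pf.B 9 6 (Pf.C 5 0x20309) (Pf.C 70 777)) (Pf.cons (Pf.B 9 7 (Pf.B 9 6 (Pf.B 9 5 (Pf.C 8 0x70c14409) (Pf.C 81 649)) (Pf.C 3 777)) (Pf.C 81 905)) Pf.nil))) (Pf.C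 95 136)) (Pf.C 95 264)) (Pf.C 4 392)) (Pf.C 4 520)) (Pf.C 4 648)) (Pf.C 4 904)) Pf.nil))))
 (Pq.cons (Pq.L [0] 0x136836 (Pf.C 1 0x2000618087))
 Pq.nil))))) (Pq.cons (Pq.L [] 0x40000 (Pf.C 4 773))
 (Pq.cons (Pq.D 6 (Pq.cons (Pq.L [] 0x100000 (Pf.C 2 902))
 (Pq.cons (Pq.L [0] 0x136836 (Pf.C 1 0x200061c086))
 (Pq.cons (Pq.L [] 0x136ef7 (Pf.C 1 0x202061c301))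
 (Pq.cons (Pq.L [0] 0x106673 (Pf.C 1 0x103001c301))
 Pq.nil))))) Pq.nil))))) (Pq.cons (Pq.L [] 256 (Pf.C 2 642))
 Pq.nil))))) (Pq.cons (Pq.L [] 128 (Pf.C 2 514))
 Pq.nil))))) (Pq.cons (Pq.L [] 64 (Pf.C 2 386))
 Pq.nil))))) Pq.nil))))) Pq.nil))
theorem e4_o13 : AllRef e4_T e4_G6 (List.drop 2 (List.flatMap (splitP 0) (List.drop 1 (applyObl d_T 2 [47,58,69,50] [0,0,0,0] [(47,0x200000000000000000),(58,0x4000000000000),(69,0x800000000000),(50,0x400000000000000)])))) :=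
  chkPq_sound e4_o13c _ (by decide +kernel)
noncomputable def e4_o14c : Pq := (Pq.cons (Pq.L [] 3 (Pf.B 3 2 (Pf.W 108 2 [] [1,3] (Pf.cons (Pf.B 4 3 (Pf.B 4 1 (Pf.C 5 16772) (Pf.W 100 4 [] [1,2,3] (Pf.cons (Pf.B 5 3 (Pf.B 5 2 (Pf.B 5 1 (Pf.W 106 5 [] [1,2,3,4] (Pf.cons (Pf.B 6 4 (Pf.B 6 3 (Pf.B 6 2 (Pf.B 6 1 (Pf.C 65 134) (Pf.W 108 3 [] [1,2,4,5,6] (Pf.cons (Pf.B 7 6 (Pf.B 7 4 (Pf.B 7 5 (Pf.B 7 2 (Pf.B 7 1 (Pf.C 5 17031) (Pf.W 115 1 [] [2,3,4,5,6,7] (Pf.cons (Pf.B 8 7 (Pf.B 8 5 (Pf.C 5 17032) (Pf.B 8 4 (Pf.B 8 3 (Pf.C 5 16776) (Pf.B 8 2 (Pf.C 6 0x70620202) (Pf.W 100 8 [] [1,3,5,7] (Pf.cons (Pf.B 9 1 (Pf.C 5 17544) (Pf.C 79 137)) (Pf.cons (Pf.B 9 3 (Pf.C 90 393) (Pf.B 9 7 (Pf.B 9 5 (Pf.C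 5 0x24287) (Pf.C 0 0x620485)) (Pf.C 0 0x100c487))) Pf.nil))))) (Pf.C 2 520))) (Pf.C 2 904)) (Pf.cons (Pf.B 8 6 (Pf.B 8 5 (Pf.B 8 3 (Pf.B 8 7 (Pf.B 8 2 (Pf.B 8 4 (Pf.W 107 8 [] [1,2,3,4,5,6,7] (Pf.cons (Pf.B 9 7 (Pf.B 9 6 (Pf.B 9 4 (Pf.B 9 3 (Pf.B 9 5 (Pf.B 9 2 (Pf.B 9 1 (Pf.C 67 137) (Pf.W 99 9 [] [1,4,5,6,7,8] (Pf.cons (Pf.B 10 8 (Pf.B 10 7 (Pf.C 76 906) (Pf.B 10 6 (Pf.B 10 5 (Pf.B 10 4 (Pf.C 76 522) (Pf.C 6 0x71410305)) (Pf.C 3 650)) (Pf.C 6 0x71418488))) (Pf.C 3 1034)) (Pf.cons (Pf.B 10 8 (Pf.C 88 1034) (Pf.B 10 1 (Pf.C 0 0x22440a) (Pf.C 4 138))) Pf.nil)))) (Pf.C 68 265)) (Pf.C 6 0x60a24383)) (Pf.C 68 393)) (Pf.C 2 521)) (Pf.C 2 777)) (Pf.C 2 905)) (Pf.cons (Pf.B 9 4 (Pf.C 5 0x24404)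 (Pf.B 9 2 (Pf.C 90 265) (Pf.B 9 1 (Pf.C 0 0x210109) (Pf.C 4 137)))) Pf.nil))) (Pf.C 0 0x404208)) (Pf.C 3 264)) (Pf.C 6 0x30e20305)) (Pf.C 3 392)) (Pf.C 3 648)) (Pf.C 66 1030)) Pf.nil)))) (Pf.C 6 0x4041c305)) (Pf.B 7 2 (Pf.C 6 0x60a1c202) (Pf.B 7 1 (Pf.W 100 7 [] [1,2,3] (Pf.cons (Pf.B 8 1 (Pf.C 5 17415) (Pf.C 79 136)) (Pf.cons (Pf.B 8 3 (Pf.C 90 392) (Pf.B 8 2 (Pf.C 90 264) (Pf.C 0 0x61c402))) Pf.nil))) (Pf.C 0 0x808087)))) (Pf.C 2 519)) (Pf.C 2 775)) (Pf.cons (Pf.B 7 6 (Pf.C 65 902) (Pf.B 7 4 (Pf.C 5 0x1c184) (Pf.B 7 1 (Pf.B 7 2 (Pf.B 7 5 (Pf.W 114 7 [] [1,2,3,4,5,6] (Pf.cons (Pf.B 8 3 (Pf.C 5 0x1c188) (Pf.C 68 392)) (Pf.cons (Pf.B 8 5 (Pf.B 8 3 (Pf.B 8 2 (Pf.B 8 1 (Pf.B 8 6 (Pf.B 8 4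 (Pf.W 106 8 [] [1,2,3,4,5,6,7] (Pf.cons (Pf.B 9 7 (Pf.C 65 905) (Pf.B 9 6 (Pf.B 9 4 (Pf.B 9 3 (Pf.B 9 2 (Pf.B 9 5 (Pf.B 9 1 (Pf.C 65 137) (Pf.W 98 9 [] [2,4,5,6,7,8] (Pf.cons (Pf.B 10 8 (Pf.B 10 5 (Pf.B 10 6 (Pf.B 10 4 (Pf.C 75 522) (Pf.B 10 2 (Pf.C 6 0x20828305) (Pf.C 3 266))) (Pf.C 6 0x50c28488)) (Pf.C 3 650)) (Pf.C 3 1034)) (Pf.cons (Pf.B 10 8 (Pf.C 86 1034) (Pf.B 10 7 (Pf.C 0 0xe2440a) (Pf.C 4 906))) Pf.nil)))) (Pf.C 6 0x60a24202)) (Pf.C 66 265)) (Pf.C 66 393)) (Pf.C 2 521)) (Pf.C 2 777))) (Pf.cons (Pf.B 9 4 (Pf.C 5 0x24404) (Pf.C 89 521)) Pf.nil))) (Pf.C 6 0x20820305)) (Pf.B 8 4 (Pf.C 6 0x50c20104) (Pf.C 0 0xc1c404))) (Pf.C 79 136)) (Pf.C 3 264)) (Pf.C 3 392)) (Pf.C 3 648)) Pf.nil)))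 (Pf.W 98 6 [] [2,4,5,7] (Pf.cons (Pf.B 8 5 (Pf.B 8 4 (Pf.C 75 520) (Pf.B 8 2 (Pf.C 6 0x20820305) (Pf.C 3 264))) (Pf.C 3 648)) (Pf.cons (Pf.B 8 7 (Pf.B 8 5 (Pf.C 86 648) (Pf.C 0 0xe18288)) (Pf.C 4 904)) Pf.nil)))) (Pf.C 0 0x210107)) (Pf.C 4 135)))) Pf.nil)))) (Pf.C 66 262)) (Pf.C 66 390)) (Pf.C 2 518)) (Pf.cons (Pf.B 6 4 (Pf.C 5 98948) (Pf.C 89 518)) Pf.nil))) (Pf.C 79 133)) (Pf.C 3 261)) (Pf.C 3 389)) (Pf.cons (Pf.B 5 2 (Pf.C 90 261) (Pf.B 5 1 (Pf.C 0 0x210105) (Pf.C 4 133))) Pf.nil)))) (Pf.B 4 1 (Pf.W 100 4 [] [1,2,3] (Pf.cons (Pf.B 5 1 (Pf.C 5 17028) (Pf.C 79 133)) (Pf.cons (Pf.B 5 3 (Pf.C 90 389) (Pf.B 5 2 (Pf.C 90 261) (Pf.C 0 0x610282))) Pf.nil))) (Pf.W 100 4 [] [1,2,3] (Pf.cons (Pf.B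 5 3 (Pf.B 5 2 (Pf.B 5 1 (Pf.W 106 5 [] [2,3,4] (Pf.cons (Pf.B 6 4 (Pf.B 6 3 (Pf.B 6 2 (Pf.C 6 0x30808286) (Pf.C 66 262)) (Pf.C 66 390)) (Pf.C 2 518)) (Pf.cons (Pf.B 6 4 (Pf.C 5 98948) (Pf.C 89 518)) Pf.nil))) (Pf.C 79 133)) (Pf.C 3 261)) (Pf.C 3 389)) (Pf.cons (Pf.B 5 3 (Pf.C 90 389) (Pf.B 5 2 (Pf.C 90 261) (Pf.C 0 0x610282))) Pf.nil))))) (Pf.cons (Pf.B 4 1 (Pf.B 4 3 (Pf.W 114 4 [] [1,2,3] (Pf.cons (Pf.B 5 3 (Pf.C 5 65925) (Pf.C 68 389)) (Pf.cons (Pf.B 5 3 (Pf.B 5 2 (Pf.B 5 1 (Pf.W 106 5 [] [1,2,3,4] (Pf.cons (Pf.B 6 4 (Pf.C 65 518) (Pf.B 6 1 (Pf.C 65 134) (Pf.W 115 1 [] [2,3,4,5,6] (Pf.cons (Pf.B 7 6 (Pf.B 7 5 (Pf.C 5 17031) (Pf.B 7 4 (Pf.B 7 3 (Pf.C 5 16775) (Pf.B 7 2 (Pf.C 5 65799) (Pf.W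 100 7 [] [1,2,3] (Pf.cons (Pf.B 8 1 (Pf.C 5 17415) (Pf.C 79 136)) (Pf.cons (Pf.B 8 3 (Pf.C 90 392) (Pf.B 8 2 (Pf.C 90 264) (Pf.C 0 0x61c402))) Pf.nil))))) (Pf.C 0 0xc14207))) (Pf.C 2 775)) (Pf.cons (Pf.B 7 6 (Pf.B 7 5 (Pf.B 7 3 (Pf.B 7 2 (Pf.B 7 4 (Pf.C 8 0x2021c284) (Pf.W 107 7 [] [1,3,4,5,6] (Pf.cons (Pf.B 8 3 (Pf.B 8 4 (Pf.C 5 65928) (Pf.B 8 1 (Pf.C 67 136) (Pf.C 0 0x81c401))) (Pf.C 68 392)) (Pf.cons (Pf.B 8 6 (Pf.C 5 0x20386) (Pf.B 8 4 (Pf.B 8 5 (Pf.B 8 3 (Pf.C 90 392) (Pf.C 8 0x70814188)) (Pf.C 0 0x818288)) (Pf.C 4 520))) Pf.nil)))) (Pf.C 3 263)) (Pf.C 3 391)) (Pf.C 3 647)) (Pf.C 66 902)) Pf.nil))))) (Pf.cons (Pf.B 6 4 (Pf.B 6 3 (Pf.C 88 390) (Pf.B 6 2 (Pf.C 88 262) (Pf.C 8 0x30c08284)))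 (Pf.C 4 518)) Pf.nil))) (Pf.C 79 133)) (Pf.C 3 261)) (Pf.C 3 389)) Pf.nil))) (Pf.W 114 4 [] [1,2,3] (Pf.cons (Pf.B 5 2 (Pf.C 5 65797) (Pf.C 68 261)) (Pf.cons (Pf.B 5 3 (Pf.B 5 2 (Pf.B 5 1 (Pf.C 8 0x30814101) (Pf.C 79 133)) (Pf.C 3 261)) (Pf.C 3 389)) Pf.nil)))) (Pf.C 4 132)) Pf.nil))) (Pf.C 3 259)))
 (Pq.cons (Pq.L [] 3 (Pf.B 3 2 (Pf.W 108 3 [] [1,2] (Pf.cons (Pf.B 4 1 (Pf.B 4 2 (Pf.W 100 4 [] [1,2,3] (Pf.cons (Pf.B 5 3 (Pf.B 5 2 (Pf.B 5 1 (Pf.C 78 133) (Pf.C 6 0x20214203)) (Pf.C 3 261)) (Pf.C 3 389)) (Pf.cons (Pf.B 5 3 (Pf.C 90 389) (Pf.B 5 2 (Pf.C 90 261) (Pf.W 108 2 [] [1,3,4,5] (Pf.cons (Pf.B 6 4 (Pf.B 6 1 (Pf.B 6 3 (Pf.C 6 0x10418203) (Pf.B 6 5 (Pf.W 100 6 [] [1,2,3,4,5] (Pf.cons (Pf.B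 7 5 (Pf.C 5 82822) (Pf.B 7 3 (Pf.B 7 4 (Pf.B 7 1 (Pf.C 78 135) (Pf.C 6 0x60610087)) (Pf.C 0 0x614207)) (Pf.C 3 391))) (Pf.cons (Pf.B 7 3 (Pf.C 90 391) (Pf.B 7 2 (Pf.C 90 263) (Pf.C 0 0x618382))) Pf.nil))) (Pf.C 0 0x80c286))) (Pf.C 2 134)) (Pf.C 2 518)) (Pf.cons (Pf.B 6 5 (Pf.B 6 4 (Pf.C 5 98564) (Pf.B 6 3 (Pf.B 6 1 (Pf.C 5 98689) (Pf.C 93 134)) (Pf.C 0 0xa10186))) (Pf.C 4 646)) Pf.nil))))) Pf.nil))) (Pf.W 100 4 [] [1,2,3] (Pf.cons (Pf.B 5 3 (Pf.B 5 2 (Pf.B 5 1 (Pf.C 78 133) (Pf.W 106 5 [] [2,3,4] (Pf.cons (Pf.B 6 4 (Pf.B 6 3 (Pf.B 6 2 (Pf.C 6 0x30808286) (Pf.C 66 262)) (Pf.C 66 390)) (Pf.C 2 518)) (Pf.cons (Pf.B 6 4 (Pf.C 5 98948) (Pf.C 89 518)) Pf.nil)))) (Pf.C 3 261)) (Pf.C 3 389)) (Pf.cons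 (Pf.B 5 3 (Pf.C 90 389) (Pf.B 5 2 (Pf.C 90 261) (Pf.C 0 0x610282))) Pf.nil)))) (Pf.C 2 132)) (Pf.cons (Pf.B 4 1 (Pf.C 5 65921) (Pf.C 93 132)) Pf.nil))) (Pf.C 3 259)))
 (Pq.cons (Pq.L [] 1 (Pf.C 3 257))
 (Pq.cons (Pq.L [] 1 (Pf.C 83 130))
 (Pq.cons (Pq.L [] 1 (Pf.C 4 257))
 (Pq.cons (Pq.L [] 3 (Pf.B 3 2 (Pf.W 102 1 [] [2,3] (Pf.cons (Pf.B 4 3 (Pf.C 5 49665) (Pf.B 4 2 (Pf.W 108 4 [] [1,2,3] (Pf.cons (Pf.B 5 3 (Pf.C 69 389) (Pf.B 5 2 (Pf.C 69 261) (Pf.B 5 1 (Pf.W 100 5 [] [1,2,3,4] (Pf.cons (Pf.B 6 4 (Pf.B 6 3 (Pf.B 6 2 (Pf.B 6 1 (Pf.C 78 134) (Pf.W 106 6 [] [1,4,5] (Pf.cons (Pf.B 7 5 (Pf.B 7 4 (Pf.B 7 1 (Pf.C 6 0x10c1c284) (Pf.C 2 135)) (Pf.C 66 519)) (Pf.C 2 647)) (Pf.cons (Pf.B 7 5 (Pf.C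 5 0x1c305) (Pf.C 89 647)) Pf.nil)))) (Pf.C 79 262)) (Pf.C 79 390)) (Pf.C 3 518)) (Pf.cons (Pf.B 6 4 (Pf.C 90 518) (Pf.B 6 3 (Pf.C 0 0x614206) (Pf.C 4 390))) Pf.nil))) (Pf.C 2 133)))) (Pf.cons (Pf.B 5 1 (Pf.C 5 82433) (Pf.C 93 133)) Pf.nil))) (Pf.W 108 4 [] [1,2,3] (Pf.cons (Pf.B 5 3 (Pf.C 69 389) (Pf.B 5 2 (Pf.C 69 261) (Pf.C 0 0x610282))) (Pf.cons (Pf.B 5 1 (Pf.C 5 82433) (Pf.C 93 133)) Pf.nil))))) (Pf.cons (Pf.B 4 3 (Pf.B 4 2 (Pf.W 116 2 [] [1,3,4] (Pf.cons (Pf.B 5 1 (Pf.B 5 4 (Pf.B 5 3 (Pf.W 101 5 [] [1,2,3,4] (Pf.cons (Pf.B 6 3 (Pf.C 5 49925) (Pf.C 81 390)) (Pf.cons (Pf.B 6 4 (Pf.B 6 2 (Pf.B 6 1 (Pf.C 7 0x40208286) (Pf.C 93 134)) (Pf.C 4 262)) (Pf.C 4 518)) Pf.nil))) (Pf.C 7 0x40208185))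 (Pf.B 5 3 (Pf.W 115 4 [] [1,2,3,5] (Pf.cons (Pf.B 6 5 (Pf.B 6 3 (Pf.C 69 390) (Pf.B 6 2 (Pf.C 69 262) (Pf.C 7 0x30c08284))) (Pf.C 2 646)) (Pf.cons (Pf.B 6 3 (Pf.B 6 5 (Pf.C 5 49925) (Pf.B 6 1 (Pf.C 80 134) (Pf.C 0 0xa10301))) (Pf.C 81 390)) Pf.nil))) (Pf.W 101 5 [] [1,2,3] (Pf.cons (Pf.B 6 2 (Pf.C 5 33541) (Pf.C 81 262)) (Pf.cons (Pf.B 6 3 (Pf.B 6 2 (Pf.B 6 1 (Pf.C 7 0x30a18101) (Pf.C 93 134)) (Pf.C 4 262)) (Pf.C 4 390)) Pf.nil))))) (Pf.C 2 133)) (Pf.cons (Pf.B 5 4 (Pf.B 5 3 (Pf.B 5 1 (Pf.C 5 49793) (Pf.W 115 4 [] [1,2,3,5] (Pf.cons (Pf.B 6 5 (Pf.C 5 66182) (Pf.B 6 2 (Pf.C 69 262) (Pf.B 6 1 (Pf.C 0 0x214106) (Pf.C 2 134)))) (Pf.cons (Pf.B 6 5 (Pf.B 6 3 (Pf.B 6 2 (Pf.B 6 1 (Pf.C 80 134)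 (Pf.W 107 6 [] [1,2,4,5] (Pf.cons (Pf.B 7 4 (Pf.C 67 519) (Pf.B 7 1 (Pf.C 0 0x218207) (Pf.C 2 135))) (Pf.cons (Pf.B 7 5 (Pf.C 90 647) (Pf.B 7 4 (Pf.B 7 2 (Pf.C 8 0x20a1c304) (Pf.C 4 263)) (Pf.C 4 519))) Pf.nil)))) (Pf.C 81 262)) (Pf.C 81 390)) (Pf.C 3 646)) Pf.nil)))) (Pf.W 115 4 [] [2,3,5] (Pf.cons (Pf.B 6 5 (Pf.C 5 66182) (Pf.B 6 3 (Pf.C 69 390) (Pf.B 6 2 (Pf.C 69 262) (Pf.C 0 0x614302)))) (Pf.cons (Pf.B 6 5 (Pf.B 6 3 (Pf.B 6 2 (Pf.C 8 0x30a08206) (Pf.C 81 262)) (Pf.C 81 390)) (Pf.C 3 646)) Pf.nil)))) (Pf.B 5 1 (Pf.B 5 3 (Pf.C 5 49793) (Pf.W 108 5 [] [1,2,3] (Pf.cons (Pf.B 6 3 (Pf.C 69 390) (Pf.B 6 2 (Pf.C 69 262) (Pf.C 0 0x614302))) (Pf.cons (Pf.B 6 1 (Pf.C 5 98945) (Pf.C 93 134)) Pf.nil))))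 (Pf.C 0 0x804282))) Pf.nil))) (Pf.C 4 260)) (Pf.C 4 388)) Pf.nil))) (Pf.C 4 259)))
 (Pq.cons (Pq.L [] 3 (Pf.B 3 2 (Pf.W 116 3 [] [1,2] (Pf.cons (Pf.B 4 1 (Pf.C 5 49284) (Pf.C 72 132)) (Pf.cons (Pf.B 4 1 (Pf.B 4 2 (Pf.W 108 4 [] [1,2,3] (Pf.cons (Pf.B 5 3 (Pf.C 69 389) (Pf.B 5 2 (Pf.C 69 261) (Pf.W 116 2 [] [1,3,4,5] (Pf.cons (Pf.B 6 5 (Pf.B 6 4 (Pf.C 5 33286) (Pf.B 6 3 (Pf.B 6 1 (Pf.C 5 49286) (Pf.C 72 134)) (Pf.C 0 0xa10186))) (Pf.C 2 646)) (Pf.cons (Pf.B 6 4 (Pf.B 6 1 (Pf.B 6 3 (Pf.C 8 0x10418203) (Pf.B 6 5 (Pf.W 108 6 [] [1,2,3,4,5] (Pf.cons (Pf.B 7 3 (Pf.C 69 391) (Pf.B 7 2 (Pf.C 69 263) (Pf.C 0 0x618382))) (Pf.cons (Pf.B 7 5 (Pf.C 5 0x1c305) (Pf.B 7 3 (Pf.B 7 4 (Pf.B 7 1 (Pf.C 92 135)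 (Pf.C 8 0x60610087)) (Pf.C 0 0x614207)) (Pf.C 4 391))) Pf.nil))) (Pf.C 0 0x80c286))) (Pf.C 3 134)) (Pf.C 3 518)) Pf.nil))))) (Pf.cons (Pf.B 5 3 (Pf.B 5 2 (Pf.B 5 1 (Pf.C 92 133) (Pf.C 8 0x20214203)) (Pf.C 4 261)) (Pf.C 4 389)) Pf.nil))) (Pf.W 108 4 [] [1,2,3] (Pf.cons (Pf.B 5 3 (Pf.C 69 389) (Pf.B 5 2 (Pf.C 69 261) (Pf.C 0 0x610282))) (Pf.cons (Pf.B 5 3 (Pf.B 5 2 (Pf.B 5 1 (Pf.C 92 133) (Pf.W 114 5 [] [2,3,4] (Pf.cons (Pf.B 6 4 (Pf.C 5 82438) (Pf.C 68 518)) (Pf.cons (Pf.B 6 4 (Pf.B 6 3 (Pf.B 6 2 (Pf.C 8 0x30808286) (Pf.C 79 262)) (Pf.C 79 390)) (Pf.C 3 518)) Pf.nil)))) (Pf.C 4 261)) (Pf.C 4 389)) Pf.nil)))) (Pf.C 3 132)) Pf.nil))) (Pf.C 4 259)))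
 (Pq.cons (Pq.L [] 1 (Pf.C 4 257))
 (Pq.cons (Pq.L [] 1 (Pf.C 95 257))
 (Pq.cons (Pq.L [] 1 (Pf.C 2 257))
 (Pq.cons (Pq.L [] 3 (Pf.B 3 2 (Pf.W 103 2 [] [1,3] (Pf.cons (Pf.B 4 1 (Pf.B 4 3 (Pf.W 109 4 [] [1,2,3] (Pf.cons (Pf.B 5 3 (Pf.B 5 2 (Pf.B 5 1 (Pf.W 101 5 [] [1,2,3,4] (Pf.cons (Pf.B 6 4 (Pf.B 6 3 (Pf.C 80 390) (Pf.B 6 2 (Pf.C 80 262) (Pf.C 6 0x30c08284))) (Pf.C 3 518)) (Pf.cons (Pf.B 6 4 (Pf.C 92 518) (Pf.B 6 1 (Pf.C 92 134) (Pf.W 110 1 [] [2,3,4,5,6] (Pf.cons (Pf.B 7 6 (Pf.B 7 5 (Pf.B 7 3 (Pf.B 7 2 (Pf.B 7 4 (Pf.C 6 0x2021c284) (Pf.W 102 7 [] [1,3,4,5,6] (Pf.cons (Pf.B 8 6 (Pf.C 5 99335) (Pf.B 8 4 (Pf.B 8 5 (Pf.B 8 3 (Pf.C 82 392) (Pf.C 6 0x70814188)) (Pf.C 0 0x818288)) (Pf.C 3 520)))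 (Pf.cons (Pf.B 8 3 (Pf.B 8 4 (Pf.C 5 0x20203) (Pf.B 8 1 (Pf.C 94 136) (Pf.C 0 0x81c401))) (Pf.C 95 392)) Pf.nil)))) (Pf.C 2 263)) (Pf.C 2 391)) (Pf.C 2 647)) (Pf.C 93 902)) (Pf.cons (Pf.B 7 6 (Pf.B 7 5 (Pf.C 5 0x1c085) (Pf.B 7 4 (Pf.B 7 3 (Pf.C 5 0x1c083) (Pf.B 7 2 (Pf.C 5 0x1c202) (Pf.W 116 7 [] [1,2,3] (Pf.cons (Pf.B 8 1 (Pf.C 5 0x1c088) (Pf.C 72 136)) (Pf.cons (Pf.B 8 3 (Pf.C 82 392) (Pf.B 8 2 (Pf.C 82 264) (Pf.C 0 0x61c402))) Pf.nil))))) (Pf.C 0 0xc14207))) (Pf.C 4 775)) Pf.nil))))) Pf.nil))) (Pf.C 72 133)) (Pf.C 2 261)) (Pf.C 2 389)) (Pf.cons (Pf.B 5 3 (Pf.C 5 82435) (Pf.C 95 389)) Pf.nil))) (Pf.W 109 4 [] [1,2,3] (Pf.cons (Pf.B 5 3 (Pf.B 5 2 (Pf.B 5 1 (Pf.C 6 0x30814101) (Pf.C 72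 133)) (Pf.C 2 261)) (Pf.C 2 389)) (Pf.cons (Pf.B 5 2 (Pf.C 5 82434) (Pf.C 95 261)) Pf.nil)))) (Pf.C 3 132)) (Pf.cons (Pf.B 4 3 (Pf.B 4 1 (Pf.C 5 65667) (Pf.W 116 4 [] [1,2,3] (Pf.cons (Pf.B 5 3 (Pf.B 5 2 (Pf.B 5 1 (Pf.W 101 5 [] [1,2,3,4] (Pf.cons (Pf.B 6 4 (Pf.C 5 66309) (Pf.C 81 518)) (Pf.cons (Pf.B 6 4 (Pf.B 6 3 (Pf.B 6 2 (Pf.B 6 1 (Pf.C 92 134) (Pf.W 103 3 [] [1,2,4,5,6] (Pf.cons (Pf.B 7 6 (Pf.C 92 902) (Pf.B 7 4 (Pf.C 5 66435) (Pf.B 7 1 (Pf.B 7 2 (Pf.B 7 5 (Pf.W 109 7 [] [1,2,3,4,5,6] (Pf.cons (Pf.B 8 5 (Pf.B 8 3 (Pf.B 8 2 (Pf.B 8 1 (Pf.B 8 6 (Pf.B 8 4 (Pf.W 101 8 [] [1,2,3,4,5,6,7] (Pf.cons (Pf.B 9 4 (Pf.C 5 66696) (Pf.C 81 521)) (Pf.cons (Pf.B 9 7 (Pf.C 92 905) (Pf.B 9 6 (Pf.B 9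 4 (Pf.B 9 3 (Pf.B 9 2 (Pf.B 9 5 (Pf.B 9 1 (Pf.C 92 137) (Pf.W 114 9 [] [2,4,5,6,7,8] (Pf.cons (Pf.B 10 8 (Pf.B 10 5 (Pf.B 10 6 (Pf.B 10 4 (Pf.C 67 522) (Pf.B 10 2 (Pf.C 7 0x20828305) (Pf.C 2 266))) (Pf.C 7 0x50c28488)) (Pf.C 2 650)) (Pf.C 2 1034)) (Pf.cons (Pf.B 10 8 (Pf.C 78 1034) (Pf.B 10 7 (Pf.C 0 0xe2440a) (Pf.C 3 906))) Pf.nil)))) (Pf.C 7 0x60a24202)) (Pf.C 93 265)) (Pf.C 93 393)) (Pf.C 4 521)) (Pf.C 4 777))) Pf.nil))) (Pf.C 7 0x20820305)) (Pf.B 8 4 (Pf.C 7 0x50c20104) (Pf.C 0 0xc1c404))) (Pf.C 72 136)) (Pf.C 2 264)) (Pf.C 2 392)) (Pf.C 2 648)) (Pf.cons (Pf.B 8 3 (Pf.C 5 0x20383) (Pf.C 95 392)) Pf.nil))) (Pf.W 114 6 [] [2,4,5,7] (Pf.cons (Pf.B 8 5 (Pf.B 8 4 (Pf.C 67 520) (Pf.B 8 2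 (Pf.C 7 0x20820305) (Pf.C 2 264))) (Pf.C 2 648)) (Pf.cons (Pf.B 8 7 (Pf.B 8 5 (Pf.C 78 648) (Pf.C 0 0xe18288)) (Pf.C 3 904)) Pf.nil)))) (Pf.C 0 0x210107)) (Pf.C 3 135)))) (Pf.cons (Pf.B 7 6 (Pf.B 7 4 (Pf.B 7 5 (Pf.B 7 2 (Pf.B 7 1 (Pf.C 5 0x1c085) (Pf.W 110 1 [] [2,3,4,5,6,7] (Pf.cons (Pf.B 8 6 (Pf.B 8 5 (Pf.B 8 3 (Pf.B 8 7 (Pf.B 8 2 (Pf.B 8 4 (Pf.W 102 8 [] [1,2,3,4,5,6,7] (Pf.cons (Pf.B 9 4 (Pf.C 5 66696) (Pf.B 9 2 (Pf.C 82 265) (Pf.B 9 1 (Pf.C 0 0x210109) (Pf.C 3 137)))) (Pf.cons (Pf.B 9 7 (Pf.B 9 6 (Pf.B 9 4 (Pf.B 9 3 (Pf.B 9 5 (Pf.B 9 2 (Pf.B 9 1 (Pf.C 94 137) (Pf.W 115 9 [] [1,4,5,6,7,8] (Pf.cons (Pf.B 10 8 (Pf.B 10 7 (Pf.C 69 906) (Pf.B 10 6 (Pf.B 10 5 (Pf.B 10 4 (Pf.C 69 522) (Pf.C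 7 0x71410305)) (Pf.C 2 650)) (Pf.C 7 0x71418488))) (Pf.C 2 1034)) (Pf.cons (Pf.B 10 8 (Pf.C 80 1034) (Pf.B 10 1 (Pf.C 0 0x22440a) (Pf.C 3 138))) Pf.nil)))) (Pf.C 95 265)) (Pf.C 7 0x60a24383)) (Pf.C 95 393)) (Pf.C 4 521)) (Pf.C 4 777)) (Pf.C 4 905)) Pf.nil))) (Pf.C 0 0x404208)) (Pf.C 2 264)) (Pf.C 7 0x30e20305)) (Pf.C 2 392)) (Pf.C 2 648)) (Pf.C 93 1030)) (Pf.cons (Pf.B 8 7 (Pf.B 8 5 (Pf.C 5 0x20085) (Pf.B 8 4 (Pf.B 8 3 (Pf.C 5 0x20083) (Pf.B 8 2 (Pf.C 7 0x70620202) (Pf.W 116 8 [] [1,3,5,7] (Pf.cons (Pf.B 9 1 (Pf.C 5 0x20089) (Pf.C 72 137)) (Pf.cons (Pf.B 9 3 (Pf.C 82 393) (Pf.B 9 7 (Pf.B 9 5 (Pf.C 5 0x1c485) (Pf.C 0 0x620485)) (Pf.C 0 0x100c487))) Pf.nil))))) (Pf.C 4 520))) (Pf.C 4 904))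 Pf.nil)))) (Pf.C 7 0x4041c305)) (Pf.B 7 2 (Pf.C 7 0x60a1c202) (Pf.B 7 1 (Pf.W 116 7 [] [1,2,3] (Pf.cons (Pf.B 8 1 (Pf.C 5 0x1c088) (Pf.C 72 136)) (Pf.cons (Pf.B 8 3 (Pf.C 82 392) (Pf.B 8 2 (Pf.C 82 264) (Pf.C 0 0x61c402))) Pf.nil))) (Pf.C 0 0x808087)))) (Pf.C 4 519)) (Pf.C 4 775)) Pf.nil)))) (Pf.C 93 262)) (Pf.C 93 390)) (Pf.C 4 518)) Pf.nil))) (Pf.C 72 133)) (Pf.C 2 261)) (Pf.C 2 389)) (Pf.cons (Pf.B 5 2 (Pf.C 82 261) (Pf.B 5 1 (Pf.C 0 0x210105) (Pf.C 3 133))) Pf.nil)))) (Pf.B 4 1 (Pf.W 116 4 [] [1,2,3] (Pf.cons (Pf.B 5 1 (Pf.C 5 65669) (Pf.C 72 133)) (Pf.cons (Pf.B 5 3 (Pf.C 82 389) (Pf.B 5 2 (Pf.C 82 261) (Pf.C 0 0x610282))) Pf.nil))) (Pf.W 116 4 [] [1,2,3] (Pf.cons (Pf.B 5 3 (Pf.B 5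 2 (Pf.B 5 1 (Pf.W 101 5 [] [2,3,4] (Pf.cons (Pf.B 6 4 (Pf.C 5 66309) (Pf.C 81 518)) (Pf.cons (Pf.B 6 4 (Pf.B 6 3 (Pf.B 6 2 (Pf.C 7 0x30808286) (Pf.C 93 262)) (Pf.C 93 390)) (Pf.C 4 518)) Pf.nil))) (Pf.C 72 133)) (Pf.C 2 261)) (Pf.C 2 389)) (Pf.cons (Pf.B 5 3 (Pf.C 82 389) (Pf.B 5 2 (Pf.C 82 261) (Pf.C 0 0x610282))) Pf.nil))))) Pf.nil))) (Pf.C 2 259)))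
 (Pq.cons (Pq.L [] 3 (Pf.B 3 2 (Pf.W 103 3 [] [1,2] (Pf.cons (Pf.B 4 1 (Pf.C 5 16899) (Pf.C 85 132)) (Pf.cons (Pf.B 4 1 (Pf.B 4 2 (Pf.W 116 4 [] [1,2,3] (Pf.cons (Pf.B 5 3 (Pf.B 5 2 (Pf.B 5 1 (Pf.C 71 133) (Pf.C 7 0x20214203)) (Pf.C 2 261)) (Pf.C 2 389)) (Pf.cons (Pf.B 5 3 (Pf.C 82 389) (Pf.B 5 2 (Pf.C 82 261) (Pf.W 103 2 [] [1,3,4,5] (Pf.cons (Pf.B 6 5 (Pf.B 6 4 (Pf.C 5 66306) (Pf.B 6 3 (Pf.B 6 1 (Pf.C 5 17155) (Pf.C 85 134)) (Pf.C 0 0xa10186))) (Pf.C 3 646)) (Pf.cons (Pf.B 6 4 (Pf.B 6 1 (Pf.B 6 3 (Pf.C 7 0x10418203) (Pf.B 6 5 (Pf.W 116 6 [] [1,2,3,4,5] (Pf.cons (Pf.B 7 5 (Pf.C 5 98951) (Pf.B 7 3 (Pf.B 7 4 (Pf.B 7 1 (Pf.C 71 135) (Pf.C 7 0x60610087)) (Pf.C 0 0x614207)) (Pf.C 2 391))) (Pf.cons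 (Pf.B 7 3 (Pf.C 82 391) (Pf.B 7 2 (Pf.C 82 263) (Pf.C 0 0x618382))) Pf.nil))) (Pf.C 0 0x80c286))) (Pf.C 4 134)) (Pf.C 4 518)) Pf.nil))))) Pf.nil))) (Pf.W 116 4 [] [1,2,3] (Pf.cons (Pf.B 5 3 (Pf.B 5 2 (Pf.B 5 1 (Pf.C 71 133) (Pf.W 101 5 [] [2,3,4] (Pf.cons (Pf.B 6 4 (Pf.C 5 66309) (Pf.C 81 518)) (Pf.cons (Pf.B 6 4 (Pf.B 6 3 (Pf.B 6 2 (Pf.C 7 0x30808286) (Pf.C 93 262)) (Pf.C 93 390)) (Pf.C 4 518)) Pf.nil)))) (Pf.C 2 261)) (Pf.C 2 389)) (Pf.cons (Pf.B 5 3 (Pf.C 82 389) (Pf.B 5 2 (Pf.C 82 261) (Pf.C 0 0x610282))) Pf.nil)))) (Pf.C 4 132)) Pf.nil))) (Pf.C 2 259)))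
 (Pq.cons (Pq.L [] 2 (Pf.C 94 385))
 (Pq.cons (Pq.L [] 1 (Pf.C 74 257))
 (Pq.cons (Pq.L [] 1 (Pf.C 3 257))
 (Pq.cons (Pq.L [] 3 (Pf.B 3 2 (Pf.W 111 2 [] [1,3] (Pf.cons (Pf.B 4 3 (Pf.B 4 1 (Pf.C 5 16772) (Pf.W 103 4 [] [1,2,3] (Pf.cons (Pf.B 5 3 (Pf.B 5 2 (Pf.B 5 1 (Pf.W 109 5 [] [1,2,3,4] (Pf.cons (Pf.B 6 4 (Pf.B 6 3 (Pf.B 6 2 (Pf.B 6 1 (Pf.C 71 134) (Pf.W 111 3 [] [1,2,4,5,6] (Pf.cons (Pf.B 7 6 (Pf.B 7 4 (Pf.B 7 5 (Pf.B 7 2 (Pf.B 7 1 (Pf.C 5 17031) (Pf.W 118 1 [] [2,3,4,5,6,7] (Pf.cons (Pf.B 8 7 (Pf.B 8 5 (Pf.C 5 17032) (Pf.B 8 4 (Pf.B 8 3 (Pf.C 5 16776) (Pf.B 8 2 (Pf.C 6 0x70620202) (Pf.W 103 8 [] [1,3,5,7] (Pf.cons (Pf.B 9 1 (Pf.C 5 17544) (Pf.C 85 137)) (Pf.cons (Pf.B 9 3 (Pf.C 96 393)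 (Pf.B 9 7 (Pf.B 9 5 (Pf.C 5 0x24287) (Pf.C 0 0x620485)) (Pf.C 0 0x100c487))) Pf.nil))))) (Pf.C 2 520))) (Pf.C 2 904)) (Pf.cons (Pf.B 8 6 (Pf.B 8 5 (Pf.B 8 3 (Pf.B 8 7 (Pf.B 8 2 (Pf.B 8 4 (Pf.W 110 8 [] [1,2,3,4,5,6,7] (Pf.cons (Pf.B 9 7 (Pf.B 9 6 (Pf.B 9 4 (Pf.B 9 3 (Pf.B 9 5 (Pf.B 9 2 (Pf.B 9 1 (Pf.C 73 137) (Pf.W 102 9 [] [1,4,5,6,7,8] (Pf.cons (Pf.B 10 8 (Pf.B 10 7 (Pf.C 82 906) (Pf.B 10 6 (Pf.B 10 5 (Pf.B 10 4 (Pf.C 82 522) (Pf.C 6 0x71410305)) (Pf.C 3 650)) (Pf.C 6 0x71418488))) (Pf.C 3 1034)) (Pf.cons (Pf.B 10 8 (Pf.C 94 1034) (Pf.B 10 1 (Pf.C 0 0x22440a) (Pf.C 4 138))) Pf.nil)))) (Pf.C 74 265)) (Pf.C 6 0x60a24383)) (Pf.C 74 393)) (Pf.C 2 521)) (Pf.C 2 777)) (Pf.C 2 905)) (Pf.cons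 (Pf.B 9 4 (Pf.C 5 0x24404) (Pf.B 9 2 (Pf.C 96 265) (Pf.B 9 1 (Pf.C 0 0x210109) (Pf.C 4 137)))) Pf.nil))) (Pf.C 0 0x404208)) (Pf.C 3 264)) (Pf.C 6 0x30e20305)) (Pf.C 3 392)) (Pf.C 3 648)) (Pf.C 72 1030)) Pf.nil)))) (Pf.C 6 0x4041c305)) (Pf.B 7 2 (Pf.C 6 0x60a1c202) (Pf.B 7 1 (Pf.W 103 7 [] [1,2,3] (Pf.cons (Pf.B 8 1 (Pf.C 5 17415) (Pf.C 85 136)) (Pf.cons (Pf.B 8 3 (Pf.C 96 392) (Pf.B 8 2 (Pf.C 96 264) (Pf.C 0 0x61c402))) Pf.nil))) (Pf.C 0 0x808087)))) (Pf.C 2 519)) (Pf.C 2 775)) (Pf.cons (Pf.B 7 6 (Pf.C 71 902) (Pf.B 7 4 (Pf.C 5 0x1c184) (Pf.B 7 1 (Pf.B 7 2 (Pf.B 7 5 (Pf.W 117 7 [] [1,2,3,4,5,6] (Pf.cons (Pf.B 8 3 (Pf.C 5 0x1c188) (Pf.C 74 392)) (Pf.cons (Pf.B 8 5 (Pf.B 8 3 (Pf.B 8 2 (Pf.B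 8 1 (Pf.B 8 6 (Pf.B 8 4 (Pf.W 109 8 [] [1,2,3,4,5,6,7] (Pf.cons (Pf.B 9 7 (Pf.C 71 905) (Pf.B 9 6 (Pf.B 9 4 (Pf.B 9 3 (Pf.B 9 2 (Pf.B 9 5 (Pf.B 9 1 (Pf.C 71 137) (Pf.W 101 9 [] [2,4,5,6,7,8] (Pf.cons (Pf.B 10 8 (Pf.B 10 5 (Pf.B 10 6 (Pf.B 10 4 (Pf.C 80 522) (Pf.B 10 2 (Pf.C 6 0x20828305) (Pf.C 3 266))) (Pf.C 6 0x50c28488)) (Pf.C 3 650)) (Pf.C 3 1034)) (Pf.cons (Pf.B 10 8 (Pf.C 92 1034) (Pf.B 10 7 (Pf.C 0 0xe2440a) (Pf.C 4 906))) Pf.nil)))) (Pf.C 6 0x60a24202)) (Pf.C 72 265)) (Pf.C 72 393)) (Pf.C 2 521)) (Pf.C 2 777))) (Pf.cons (Pf.B 9 4 (Pf.C 5 0x24404) (Pf.C 95 521)) Pf.nil))) (Pf.C 6 0x20820305)) (Pf.B 8 4 (Pf.C 6 0x50c20104) (Pf.C 0 0xc1c404))) (Pf.C 85 136)) (Pf.C 3 264)) (Pf.C 3 392))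 (Pf.C 3 648)) Pf.nil))) (Pf.W 101 6 [] [2,4,5,7] (Pf.cons (Pf.B 8 5 (Pf.B 8 4 (Pf.C 80 520) (Pf.B 8 2 (Pf.C 6 0x20820305) (Pf.C 3 264))) (Pf.C 3 648)) (Pf.cons (Pf.B 8 7 (Pf.B 8 5 (Pf.C 92 648) (Pf.C 0 0xe18288)) (Pf.C 4 904)) Pf.nil)))) (Pf.C 0 0x210107)) (Pf.C 4 135)))) Pf.nil)))) (Pf.C 72 262)) (Pf.C 72 390)) (Pf.C 2 518)) (Pf.cons (Pf.B 6 4 (Pf.C 5 98948) (Pf.C 95 518)) Pf.nil))) (Pf.C 85 133)) (Pf.C 3 261)) (Pf.C 3 389)) (Pf.cons (Pf.B 5 2 (Pf.C 96 261) (Pf.B 5 1 (Pf.C 0 0x210105) (Pf.C 4 133))) Pf.nil)))) (Pf.B 4 1 (Pf.W 103 4 [] [1,2,3] (Pf.cons (Pf.B 5 1 (Pf.C 5 17028) (Pf.C 85 133)) (Pf.cons (Pf.B 5 3 (Pf.C 96 389) (Pf.B 5 2 (Pf.C 96 261) (Pf.C 0 0x610282))) Pf.nil))) (Pf.W 103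 4 [] [1,2,3] (Pf.cons (Pf.B 5 3 (Pf.B 5 2 (Pf.B 5 1 (Pf.W 109 5 [] [2,3,4] (Pf.cons (Pf.B 6 4 (Pf.B 6 3 (Pf.B 6 2 (Pf.C 6 0x30808286) (Pf.C 72 262)) (Pf.C 72 390)) (Pf.C 2 518)) (Pf.cons (Pf.B 6 4 (Pf.C 5 98948) (Pf.C 95 518)) Pf.nil))) (Pf.C 85 133)) (Pf.C 3 261)) (Pf.C 3 389)) (Pf.cons (Pf.B 5 3 (Pf.C 96 389) (Pf.B 5 2 (Pf.C 96 261) (Pf.C 0 0x610282))) Pf.nil))))) (Pf.cons (Pf.B 4 1 (Pf.B 4 3 (Pf.W 117 4 [] [1,2,3] (Pf.cons (Pf.B 5 3 (Pf.C 5 65925) (Pf.C 74 389)) (Pf.cons (Pf.B 5 3 (Pf.B 5 2 (Pf.B 5 1 (Pf.W 109 5 [] [1,2,3,4] (Pf.cons (Pf.B 6 4 (Pf.C 71 518) (Pf.B 6 1 (Pf.C 71 134) (Pf.W 118 1 [] [2,3,4,5,6] (Pf.cons (Pf.B 7 6 (Pf.B 7 5 (Pf.C 5 17031) (Pf.B 7 4 (Pf.B 7 3 (Pf.C 5 16775)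 (Pf.B 7 2 (Pf.C 5 65799) (Pf.W 103 7 [] [1,2,3] (Pf.cons (Pf.B 8 1 (Pf.C 5 17415) (Pf.C 85 136)) (Pf.cons (Pf.B 8 3 (Pf.C 96 392) (Pf.B 8 2 (Pf.C 96 264) (Pf.C 0 0x61c402))) Pf.nil))))) (Pf.C 0 0xc14207))) (Pf.C 2 775)) (Pf.cons (Pf.B 7 6 (Pf.B 7 5 (Pf.B 7 3 (Pf.B 7 2 (Pf.B 7 4 (Pf.C 8 0x2021c284) (Pf.W 110 7 [] [1,3,4,5,6] (Pf.cons (Pf.B 8 3 (Pf.B 8 4 (Pf.C 5 65928) (Pf.B 8 1 (Pf.C 73 136) (Pf.C 0 0x81c401))) (Pf.C 74 392)) (Pf.cons (Pf.B 8 6 (Pf.C 5 0x20386) (Pf.B 8 4 (Pf.B 8 5 (Pf.B 8 3 (Pf.C 96 392) (Pf.C 8 0x70814188)) (Pf.C 0 0x818288)) (Pf.C 4 520))) Pf.nil)))) (Pf.C 3 263)) (Pf.C 3 391)) (Pf.C 3 647)) (Pf.C 72 902)) Pf.nil))))) (Pf.cons (Pf.B 6 4 (Pf.B 6 3 (Pf.C 94 390) (Pf.B 6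 2 (Pf.C 94 262) (Pf.C 8 0x30c08284))) (Pf.C 4 518)) Pf.nil))) (Pf.C 85 133)) (Pf.C 3 261)) (Pf.C 3 389)) Pf.nil))) (Pf.W 117 4 [] [1,2,3] (Pf.cons (Pf.B 5 2 (Pf.C 5 65797) (Pf.C 74 261)) (Pf.cons (Pf.B 5 3 (Pf.B 5 2 (Pf.B 5 1 (Pf.C 8 0x30814101) (Pf.C 85 133)) (Pf.C 3 261)) (Pf.C 3 389)) Pf.nil)))) (Pf.C 4 132)) Pf.nil))) (Pf.C 3 259)))
 Pq.nil))))))))))))))))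
theorem e4_o14 : AllRef e4_T e4_G6 (splitObl [57,68,49,60] [67,48,59,70]) :=
  chkPq_sound e4_o14c _ (by decide +kernel)
noncomputable def e4_o15c : Pq := (Pq.cons (Pq.D 0 (Pq.cons (Pq.D 1 (Pq.cons (Pq.L [] 1 (Pf.C 3 257))
 (Pq.cons (Pq.D 2 (Pq.cons (Pq.L [] 2 (Pf.C 3 385))
 (Pq.cons (Pq.L [0] 7 (Pf.C 0 49409))
 (Pq.cons (Pq.L [] 2 (Pf.C 82 385))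
 (Pq.cons (Pq.L [] 2 (Pf.C 3 385))
 Pq.nil))))) (Pq.cons (Pq.L [] 1 (Pf.C 82 257))
 (Pq.cons (Pq.L [] 1 (Pf.C 3 257))
 Pq.nil))))) (Pq.cons (Pq.D 1 (Pq.cons (Pq.D 2 (Pq.cons (Pq.L [] 4 (Pf.C 3 386))
 (Pq.cons (Pq.L [] 2 (Pf.C 4 385))
 (Pq.cons (Pq.L [] 4 (Pf.C 82 386))
 (Pq.cons (Pq.L [] 2 (Pf.C 96 385))
 Pq.nil))))) (Pq.cons (Pq.L [] 1 (Pf.C 4 257))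
 (Pq.cons (Pq.D 2 (Pq.cons (Pq.L [] 4 (Pf.C 82 259))
 (Pq.cons (Pq.L [] 2 (Pf.C 4 385))
 (Pq.cons (Pq.L [] 4 (Pf.C 2 386))
 (Pq.cons (Pq.L [] 2 (Pf.C 96 385))
 Pq.nil))))) (Pq.cons (Pq.L [] 1 (Pf.C 96 257))
 Pq.nil))))) (Pq.cons (Pq.D 1 (Pq.cons (Pq.L [] 1 (Pf.C 82 130))
 (Pq.cons (Pq.D 2 (Pq.cons (Pq.L [] 2 (Pf.C 82 131))
 (Pq.cons (Pq.L [0] 7 (Pf.C 0 49409))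
 (Pq.cons (Pq.L [] 2 (Pf.C 2 385))
 (Pq.cons (Pq.L [] 4 (Pf.C 96 386))
 Pq.nil))))) (Pq.cons (Pq.L [] 1 (Pf.C 2 257))
 (Pq.cons (Pq.D 2 (Pq.cons (Pq.L [] 2 (Pf.C 82 131))
 (Pq.cons (Pq.L [] 4 (Pf.C 96 259))
 (Pq.cons (Pq.L [] 2 (Pf.C 2 385))
 (Pq.cons (Pq.L [] 4 (Pf.C 3 386))
 Pq.nil))))) Pq.nil))))) (Pq.cons (Pq.D 1 (Pq.cons (Pq.L [] 1 (Pf.C 3 257))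
 (Pq.cons (Pq.L [] 1 (Pf.C 96 130))
 (Pq.cons (Pq.D 2 (Pq.cons (Pq.L [] 2 (Pf.C 3 385))
 (Pq.cons (Pq.L [] 2 (Pf.C 96 131))
 (Pq.cons (Pq.L [] 4 (Pf.C 2 386))
 (Pq.cons (Pq.L [] 2 (Pf.C 3 385))
 Pq.nil))))) (Pq.cons (Pq.L [] 1 (Pf.C 3 257))
 Pq.nil))))) Pq.nil))))) Pq.nil)
theorem e4_o15 : AllRef e4_T e4_G6 (List.take 1 (applyObl d_T 2 [57,68,49,60] [0,0,0,0] [(57,0x2000000000000),(68,0x1000000000000000),(49,0x200000000000000),(60,0x100000000000000000)])) :=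
  chkPq_sound e4_o15c _ (by decide +kernel)
noncomputable def e4_o16c : Pq := (Pq.cons (Pq.D 1 (Pq.cons (Pq.D 2 (Pq.cons (Pq.L [] 64 (Pf.C 3 386))
 (Pq.cons (Pq.D 3 (Pq.cons (Pq.L [] 128 (Pf.C 3 514))
 (Pq.cons (Pq.D 4 (Pq.cons (Pq.L [] 256 (Pf.C 3 642))
 (Pq.cons (Pq.D 5 (Pq.cons (Pq.D 6 (Pq.cons (Pq.L [0] 0x106673 (Pf.C 1 0x103001c301))
 (Pq.cons (Pq.L [] 0x136ef7 (Pf.C 1 0x202061c301))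
 (Pq.cons (Pq.L [0] 0x136836 (Pf.C 1 0x200061c086))
 (Pq.cons (Pq.L [] 0x100000 (Pf.C 3 902))
 Pq.nil))))) (Pq.cons (Pq.L [] 0x40000 (Pf.C 4 773))
 (Pq.cons (Pq.D 6 (Pq.cons (Pq.L [0] 0x136836 (Pf.C 1 0x2000618087))
 (Pq.cons (Pq.L [] 0x40bc7 (Pf.W 108 2 [] [1,3,4,5,6,7] (Pf.cons (Pf.B 8 6 (Pf.B 8 5 (Pf.C 69 648) (Pf.C 0 0xc08288)) (Pf.C 2 776)) (Pf.cons (Pf.B 8 7 (Pf.B 8 6 (Pf.B 8 5 (Pf.B 8 4 (Pf.B 8 3 (Pf.B 8 1 (Pf.W 114 8 [] [2,3,4] (Pf.cons (Pf.B 9 2 (Pf.C 5 0x20109) (Pf.C 68 265)) (Pf.cons (Pf.B 9 4 (Pf.B 9 3 (Pf.B 9 2 (Pf.C 8 0x4040c409) (Pf.C 3 265)) (Pf.C 79 393)) (Pf.C 79 521)) Pf.nil))) (Pf.C 8 0x4040c088)) (Pf.C 4 392)) (Pf.C 4 520)) (Pf.C 4 648)) (Pf.C 93 776)) (Pf.C 4 904))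 Pf.nil))))
 (Pq.cons (Pq.L [] 0x100631 (Pf.C 0 0x41c301))
 (Pq.cons (Pq.L [] 0x1c0700 (Pf.C 0 0xe18282))
 Pq.nil))))) (Pq.cons (Pq.L [] 0x40000 (Pf.C 96 773))
 Pq.nil))))) (Pq.cons (Pq.L [] 256 (Pf.C 82 642))
 (Pq.cons (Pq.L [] 256 (Pf.C 3 642))
 Pq.nil))))) (Pq.cons (Pq.L [] 128 (Pf.C 82 514))
 (Pq.cons (Pq.L [] 128 (Pf.C 3 514))
 Pq.nil))))) (Pq.cons (Pq.L [] 64 (Pf.C 82 386))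
 (Pq.cons (Pq.L [] 64 (Pf.C 3 386))
 Pq.nil))))) (Pq.cons (Pq.D 2 (Pq.cons (Pq.D 3 (Pq.cons (Pq.D 4 (Pq.cons (Pq.D 5 (Pq.cons (Pq.L [] 0x40000 (Pf.C 3 773))
 (Pq.cons (Pq.D 6 (Pq.cons (Pq.L [] 0x136ef7 (Pf.C 1 0x202061c301))
 (Pq.cons (Pq.L [] 0x136ef7 (Pf.C 1 0x202061c301))
 (Pq.cons (Pq.L [] 0x1dbb19 (Pf.W 108 5 [] [1,2,3,4,6,7] (Pf.cons (Pf.B 8 7 (Pf.B 8 6 (Pf.C 69 776) (Pf.C 0 0xe14308)) (Pf.C 2 904)) (Pf.cons (Pf.B 8 7 (Pf.B 8 6 (Pf.B 8 2 (Pf.B 8 1 (Pf.B 8 4 (Pf.B 8 3 (Pf.W 114 8 [] [2,5,6] (Pf.cons (Pf.B 9 5 (Pf.C 5 0x20289) (Pf.C 68 649)) (Pf.cons (Pf.B 9 6 (Pf.B 9 5 (Pf.B 9 2 (Pf.C 8 0x60a08409) (Pf.C 79 265)) (Pf.C 3 649)) (Pf.C 79 777)) Pf.nil))) (Pf.W 114 8 [] [3,5,6] (Pf.cons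 (Pf.B 9 5 (Pf.C 5 0x20289) (Pf.C 68 649)) (Pf.cons (Pf.B 9 6 (Pf.B 9 5 (Pf.B 9 3 (Pf.C 8 0x31024305) (Pf.C 3 393)) (Pf.C 3 649)) (Pf.C 79 777)) Pf.nil)))) (Pf.B 8 3 (Pf.W 114 8 [] [4,5,6] (Pf.cons (Pf.B 9 5 (Pf.C 5 0x20289) (Pf.C 68 649)) (Pf.cons (Pf.B 9 6 (Pf.B 9 5 (Pf.B 9 4 (Pf.C 8 0x41024305) (Pf.C 3 521)) (Pf.C 3 649)) (Pf.C 79 777)) Pf.nil))) (Pf.C 8 0x4100c305))) (Pf.C 8 0x60a08088)) (Pf.C 4 264)) (Pf.C 4 776)) (Pf.C 93 904)) Pf.nil))))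
 (Pq.cons (Pq.L [] 0x100000 (Pf.C 96 902))
 Pq.nil))))) (Pq.cons (Pq.L [] 0x40000 (Pf.C 82 773))
 (Pq.cons (Pq.L [] 0x40000 (Pf.C 3 773))
 Pq.nil))))) (Pq.cons (Pq.L [] 256 (Pf.C 4 642))
 (Pq.cons (Pq.L [] 39360 (Pf.C 0 0x814103))
 (Pq.cons (Pq.L [] 256 (Pf.C 96 642))
 Pq.nil))))) (Pq.cons (Pq.L [] 128 (Pf.C 4 514))
 (Pq.cons (Pq.D 4 (Pq.cons (Pq.L [] 39360 (Pf.C 0 0xa10103))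
 (Pq.cons (Pq.L [] 256 (Pf.C 4 642))
 (Pq.cons (Pq.L [] 39360 (Pf.C 0 0xa0c104))
 (Pq.cons (Pq.L [] 256 (Pf.C 96 642))
 Pq.nil))))) (Pq.cons (Pq.L [] 128 (Pf.C 96 514))
 Pq.nil))))) (Pq.cons (Pq.L [] 64 (Pf.C 4 386))
 (Pq.cons (Pq.D 3 (Pq.cons (Pq.D 4 (Pq.cons (Pq.L [] 39360 (Pf.C 0 0xa0c104))
 (Pq.cons (Pq.L [] 256 (Pf.C 4 642))
 (Pq.cons (Pq.L [] 39360 (Pf.C 0 0xa10103))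
 (Pq.cons (Pq.L [] 256 (Pf.C 96 642))
 Pq.nil))))) (Pq.cons (Pq.L [] 128 (Pf.C 4 514))
 (Pq.cons (Pq.D 4 (Pq.cons (Pq.L [] 39360 (Pf.C 0 0x814103))
 (Pq.cons (Pq.L [] 256 (Pf.C 4 642))
 (Pq.cons (Pq.D 5 (Pq.cons (Pq.L [] 0x40000 (Pf.C 82 646))
 (Pq.cons (Pq.D 6 (Pq.cons (Pq.L [] 0x1c8781 (Pf.W 116 2 [] [1,3,4,5,6,7] (Pf.cons (Pf.B 8 7 (Pf.C 5 33672) (Pf.B 8 5 (Pf.B 8 6 (Pf.B 8 4 (Pf.B 8 3 (Pf.B 8 1 (Pf.C 5 32904) (Pf.W 101 8 [] [2,5,6] (Pf.cons (Pf.B 9 6 (Pf.C 5 99464) (Pf.C 81 777)) (Pf.cons (Pf.B 9 6 (Pf.B 9 5 (Pf.B 9 2 (Pf.C 7 0x60a08409) (Pf.C 4 265)) (Pf.C 93 649)) (Pf.C 4 777)) Pf.nil)))) (Pf.C 2 392)) (Pf.C 2 520)) (Pf.C 0 0xa1c308)) (Pf.C 2 648))) (Pf.cons (Pf.B 8 5 (Pf.C 82 648)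 (Pf.B 8 4 (Pf.C 82 520) (Pf.C 0 0xa08404))) Pf.nil))))
 (Pq.cons (Pq.L [] 0x136ec0 (Pf.C 7 0x4040c386))
 (Pq.cons (Pq.L [] 0x136ec0 (Pf.C 7 0x4040c386))
 (Pq.cons (Pq.L [0] 0x136836 (Pf.C 1 0x2010618007))
 Pq.nil))))) (Pq.cons (Pq.L [] 0x40000 (Pf.C 2 773))
 (Pq.cons (Pq.D 6 (Pq.cons (Pq.L [] 0x1c0700 (Pf.C 0 0xe18282))
 (Pq.cons (Pq.L [0] 0x136836 (Pf.C 1 0x201061c006))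
 (Pq.cons (Pq.L [] 0x40bc1 (Pf.W 116 2 [] [1,3,4,5,6,7] (Pf.cons (Pf.B 8 7 (Pf.B 8 6 (Pf.B 8 5 (Pf.B 8 4 (Pf.B 8 3 (Pf.B 8 1 (Pf.C 5 32904) (Pf.W 101 8 [] [2,3,4] (Pf.cons (Pf.B 9 2 (Pf.C 5 33928) (Pf.C 81 265)) (Pf.cons (Pf.B 9 4 (Pf.B 9 3 (Pf.B 9 2 (Pf.C 7 0x4040c409) (Pf.C 4 265)) (Pf.C 93 393)) (Pf.C 93 521)) Pf.nil)))) (Pf.C 2 392)) (Pf.C 2 520)) (Pf.C 2 648)) (Pf.C 72 776)) (Pf.C 2 904)) (Pf.cons (Pf.B 8 6 (Pf.B 8 5 (Pf.C 82 648) (Pf.C 0 0xc08288)) (Pf.C 3 776)) Pf.nil))))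
 (Pq.cons (Pq.L [] 0x136836 (Pf.C 6 0x4020c386))
 Pq.nil))))) Pq.nil))))) (Pq.cons (Pq.L [] 256 (Pf.C 96 642))
 Pq.nil))))) (Pq.cons (Pq.L [] 128 (Pf.C 96 514))
 Pq.nil))))) (Pq.cons (Pq.L [] 64 (Pf.C 96 386))
 Pq.nil))))) (Pq.cons (Pq.D 2 (Pq.cons (Pq.L [] 64 (Pf.C 82 259))
 (Pq.cons (Pq.D 3 (Pq.cons (Pq.L [] 128 (Pf.C 82 260))
 (Pq.cons (Pq.D 4 (Pq.cons (Pq.L [] 256 (Pf.C 82 261))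
 (Pq.cons (Pq.D 5 (Pq.cons (Pq.D 6 (Pq.cons (Pq.L [0] 0x136836 (Pf.C 1 0x200061c301))
 (Pq.cons (Pq.L [] 0x1c0038 (Pf.W 108 6 [] [1,2,3,4,5,7] (Pf.cons (Pf.B 8 7 (Pf.C 69 904) (Pf.B 8 5 (Pf.C 69 648) (Pf.C 0 0xe18405))) (Pf.cons (Pf.B 8 7 (Pf.B 8 5 (Pf.B 8 4 (Pf.B 8 3 (Pf.B 8 2 (Pf.B 8 1 (Pf.W 114 8 [] [5,6,7] (Pf.cons (Pf.B 9 6 (Pf.C 5 0x20309) (Pf.C 68 777)) (Pf.cons (Pf.B 9 7 (Pf.B 9 6 (Pf.B 9 5 (Pf.C 8 0x70c14409) (Pf.C 79 649)) (Pf.C 3 777)) (Pf.C 79 905)) Pf.nil))) (Pf.C 8 0x70c14088)) (Pf.C 93 264)) (Pf.C 4 392)) (Pf.C 4 520)) (Pf.C 4 648)) (Pf.C 4 904)) Pf.nil))))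
 (Pq.cons (Pq.L [0] 0x136836 (Pf.C 1 0x200061c086))
 (Pq.cons (Pq.L [] 0x1c0700 (Pf.C 0 0xe18282))
 Pq.nil))))) (Pq.cons (Pq.L [] 0x40000 (Pf.C 4 773))
 (Pq.cons (Pq.D 6 (Pq.cons (Pq.L [0] 0x136836 (Pf.C 1 0x2000618087))
 (Pq.cons (Pq.L [] 0x136ec0 (Pf.C 7 0x4040c386))
 (Pq.cons (Pq.L [0] 0x106640 (Pf.C 7 0x608386))
 (Pq.cons (Pq.L [] 0x1dbb08 (Pf.W 116 5 [] [1,2,3,4,6,7] (Pf.cons (Pf.B 8 7 (Pf.B 8 6 (Pf.B 8 2 (Pf.B 8 1 (Pf.C 5 82056) (Pf.B 8 4 (Pf.B 8 3 (Pf.W 101 8 [] [2,5,6] (Pf.cons (Pf.B 9 5 (Pf.C 5 83080) (Pf.C 81 649)) (Pf.cons (Pf.B 9 6 (Pf.B 9 5 (Pf.B 9 2 (Pf.C 7 0x60a08409) (Pf.C 93 265)) (Pf.C 4 649)) (Pf.C 93 777)) Pf.nil))) (Pf.W 101 8 [] [3,5,6] (Pf.cons (Pf.B 9 5 (Pf.C 5 83080)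 (Pf.C 81 649)) (Pf.cons (Pf.B 9 6 (Pf.B 9 5 (Pf.B 9 3 (Pf.C 7 0x31024305) (Pf.C 4 393)) (Pf.C 4 649)) (Pf.C 93 777)) Pf.nil)))) (Pf.B 8 3 (Pf.W 101 8 [] [4,5,6] (Pf.cons (Pf.B 9 5 (Pf.C 5 83080) (Pf.C 81 649)) (Pf.cons (Pf.B 9 6 (Pf.B 9 5 (Pf.B 9 4 (Pf.C 7 0x41024305) (Pf.C 4 521)) (Pf.C 4 649)) (Pf.C 93 777)) Pf.nil))) (Pf.C 7 0x4100c305)))) (Pf.C 2 264)) (Pf.C 2 776)) (Pf.C 72 904)) (Pf.cons (Pf.B 8 7 (Pf.B 8 6 (Pf.C 82 776) (Pf.C 0 0xe14308)) (Pf.C 3 904)) Pf.nil))))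
 Pq.nil))))) (Pq.cons (Pq.L [] 0x40000 (Pf.C 96 773))
 Pq.nil))))) (Pq.cons (Pq.L [] 256 (Pf.C 2 642))
 (Pq.cons (Pq.L [] 39360 (Pf.C 0 0x814103))
 Pq.nil))))) (Pq.cons (Pq.L [] 128 (Pf.C 2 514))
 (Pq.cons (Pq.D 4 (Pq.cons (Pq.L [] 256 (Pf.C 82 261))
 (Pq.cons (Pq.L [] 39360 (Pf.C 0 0xa10103))
 (Pq.cons (Pq.L [] 256 (Pf.C 2 642))
 (Pq.cons (Pq.L [] 39360 (Pf.C 0 0xa0c104))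
 Pq.nil))))) Pq.nil))))) (Pq.cons (Pq.L [] 64 (Pf.C 2 386))
 (Pq.cons (Pq.D 3 (Pq.cons (Pq.L [] 128 (Pf.C 82 260))
 (Pq.cons (Pq.D 4 (Pq.cons (Pq.L [] 256 (Pf.C 82 261))
 (Pq.cons (Pq.L [] 39360 (Pf.C 0 0xa0c104))
 (Pq.cons (Pq.L [] 256 (Pf.C 2 642))
 (Pq.cons (Pq.L [] 39360 (Pf.C 0 0xa10103))
 Pq.nil))))) (Pq.cons (Pq.L [] 128 (Pf.C 2 514))
 (Pq.cons (Pq.D 4 (Pq.cons (Pq.L [] 256 (Pf.C 82 261))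
 (Pq.cons (Pq.L [] 39360 (Pf.C 0 0x814103))
 (Pq.cons (Pq.L [] 256 (Pf.C 2 642))
 (Pq.cons (Pq.D 5 (Pq.cons (Pq.L [] 0x40000 (Pf.C 3 773))
 (Pq.cons (Pq.L [] 0x40000 (Pf.C 96 646))
 (Pq.cons (Pq.D 6 (Pq.cons (Pq.L [] 0x100000 (Pf.C 82 775))
 (Pq.cons (Pq.L [] 0x1c8780 (Pf.W 103 2 [] [1,3,4,5,6,7] (Pf.cons (Pf.B 8 7 (Pf.C 5 0x1c402) (Pf.B 8 5 (Pf.B 8 6 (Pf.B 8 4 (Pf.B 8 3 (Pf.B 8 1 (Pf.W 109 8 [] [2,5,6] (Pf.cons (Pf.B 9 6 (Pf.B 9 5 (Pf.B 9 2 (Pf.C 6 0x60a08409) (Pf.C 2 265)) (Pf.C 72 649)) (Pf.C 2 777)) (Pf.cons (Pf.B 9 6 (Pf.C 5 0x24406) (Pf.C 95 777)) Pf.nil))) (Pf.C 3 136)) (Pf.C 3 392)) (Pf.C 3 520)) (Pf.C 0 0xa1c308)) (Pf.C 3 648))) (Pf.cons (Pf.B 8 5 (Pf.C 96 648) (Pf.B 8 4 (Pf.C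 96 520) (Pf.C 0 0xa08404))) Pf.nil))))
 (Pq.cons (Pq.L [] 0x136ec0 (Pf.C 6 0x4040c386))
 (Pq.cons (Pq.L [] 0x136ec0 (Pf.C 6 0x4040c386))
 Pq.nil))))) (Pq.cons (Pq.L [] 0x40000 (Pf.C 3 773))
 Pq.nil))))) Pq.nil))))) Pq.nil))))) Pq.nil))))) (Pq.cons (Pq.D 2 (Pq.cons (Pq.L [] 64 (Pf.C 3 386))
 (Pq.cons (Pq.L [] 64 (Pf.C 96 259))
 (Pq.cons (Pq.D 3 (Pq.cons (Pq.L [] 128 (Pf.C 3 514))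
 (Pq.cons (Pq.L [] 128 (Pf.C 96 260))
 (Pq.cons (Pq.D 4 (Pq.cons (Pq.L [] 256 (Pf.C 3 642))
 (Pq.cons (Pq.L [] 256 (Pf.C 96 261))
 (Pq.cons (Pq.D 5 (Pq.cons (Pq.L [] 0x40000 (Pf.C 82 646))
 (Pq.cons (Pq.D 6 (Pq.cons (Pq.L [] 0x1c0700 (Pf.C 0 0xe18282))
 (Pq.cons (Pq.L [0] 0x100600 (Pf.C 0 0x1c302))
 (Pq.cons (Pq.L [] 0x1c0010 (Pf.W 116 6 [] [1,2,3,4,5,7] (Pf.cons (Pf.B 8 7 (Pf.B 8 5 (Pf.B 8 4 (Pf.B 8 3 (Pf.B 8 2 (Pf.B 8 1 (Pf.C 5 98440) (Pf.W 101 8 [] [5,6,7] (Pf.cons (Pf.B 9 6 (Pf.C 5 99464) (Pf.C 81 777)) (Pf.cons (Pf.B 9 7 (Pf.B 9 6 (Pf.B 9 5 (Pf.C 7 0x70c14409) (Pf.C 93 649)) (Pf.C 4 777)) (Pf.C 93 905)) Pf.nil)))) (Pf.C 72 264)) (Pf.C 2 392)) (Pf.C 2 520)) (Pf.C 2 648)) (Pf.C 2 904))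 (Pf.cons (Pf.B 8 7 (Pf.C 82 904) (Pf.B 8 5 (Pf.C 82 648) (Pf.C 0 0xe18405))) Pf.nil))))
 (Pq.cons (Pq.L [0] 0x136836 (Pf.C 1 0x2010618007))
 Pq.nil))))) (Pq.cons (Pq.L [] 0x40000 (Pf.C 2 773))
 (Pq.cons (Pq.D 6 (Pq.cons (Pq.L [] 0x100000 (Pf.C 3 902))
 (Pq.cons (Pq.L [0] 0x136836 (Pf.C 1 0x201061c006))
 (Pq.cons (Pq.L [] 0x136ec0 (Pf.C 6 0x4040c386))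
 (Pq.cons (Pq.L [] 0x106673 (Pf.C 6 0x20604386))
 Pq.nil))))) Pq.nil))))) (Pq.cons (Pq.L [] 256 (Pf.C 3 642))
 Pq.nil))))) (Pq.cons (Pq.L [] 128 (Pf.C 3 514))
 Pq.nil))))) (Pq.cons (Pq.L [] 64 (Pf.C 3 386))
 Pq.nil))))) Pq.nil))))) Pq.nil)
theorem e4_o16 : AllRef e4_T e4_G6 (List.take 1 (List.flatMap (splitP 0) (List.drop 1 (applyObl d_T 2 [57,68,49,60] [0,0,0,0] [(57,0x2000000000000),(68,0x1000000000000000),(49,0x200000000000000),(60,0x100000000000000000)])))) :=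
  chkPq_sound e4_o16c _ (by decide +kernel)
noncomputable def e4_o17c : Pq := (Pq.cons (Pq.D 1 (Pq.cons (Pq.D 2 (Pq.cons (Pq.L [] 64 (Pf.C 3 386))
 (Pq.cons (Pq.D 3 (Pq.cons (Pq.L [] 128 (Pf.C 3 514))
 (Pq.cons (Pq.D 4 (Pq.cons (Pq.L [] 256 (Pf.C 3 642))
 (Pq.cons (Pq.D 5 (Pq.cons (Pq.D 6 (Pq.cons (Pq.L [] 0x136ef7 (Pf.C 1 0x202061c301))
 (Pq.cons (Pq.L [] 0x136ef7 (Pf.C 1 0x202061c301))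
 (Pq.cons (Pq.L [] 0x100030 (Pf.C 5 17159))
 (Pq.cons (Pq.L [] 0x100000 (Pf.C 3 902))
 Pq.nil))))) (Pq.cons (Pq.L [] 0x40000 (Pf.C 4 773))
 (Pq.cons (Pq.D 6 (Pq.cons (Pq.L [] 0x100030 (Pf.C 5 17286))
 (Pq.cons (Pq.L [] 0x40bc0 (Pf.W 108 2 [] [1,3,4,5,6,7] (Pf.cons (Pf.B 8 6 (Pf.B 8 5 (Pf.C 69 648) (Pf.C 0 0xc08288)) (Pf.C 2 776)) (Pf.cons (Pf.B 8 7 (Pf.B 8 6 (Pf.B 8 5 (Pf.B 8 4 (Pf.B 8 3 (Pf.B 8 1 (Pf.W 114 8 [] [2,3,4] (Pf.cons (Pf.B 9 2 (Pf.C 5 0x20109) (Pf.C 68 265)) (Pf.cons (Pf.B 9 4 (Pf.B 9 3 (Pf.B 9 2 (Pf.C 8 0x4040c409) (Pf.C 3 265)) (Pf.C 79 393)) (Pf.C 79 521)) Pf.nil))) (Pf.C 4 136)) (Pf.C 4 392)) (Pf.C 4 520)) (Pf.C 4 648)) (Pf.C 93 776)) (Pf.C 4 904)) Pf.nil))))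
 (Pq.cons (Pq.L [0] 0x106032 (Pf.C 7 0x30004386))
 (Pq.cons (Pq.L [] 0x1c0700 (Pf.C 0 0xe18282))
 Pq.nil))))) (Pq.cons (Pq.L [] 0x40000 (Pf.C 96 773))
 Pq.nil))))) (Pq.cons (Pq.L [] 265 (Pf.C 5 16645))
 (Pq.cons (Pq.L [] 256 (Pf.C 3 642))
 Pq.nil))))) (Pq.cons (Pq.L [] 133 (Pf.C 5 16644))
 (Pq.cons (Pq.L [] 128 (Pf.C 3 514))
 Pq.nil))))) (Pq.cons (Pq.L [] 67 (Pf.C 5 16643))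
 (Pq.cons (Pq.L [] 64 (Pf.C 3 386))
 Pq.nil))))) (Pq.cons (Pq.D 2 (Pq.cons (Pq.D 3 (Pq.cons (Pq.D 4 (Pq.cons (Pq.D 5 (Pq.cons (Pq.L [] 0x40000 (Pf.C 3 773))
 (Pq.cons (Pq.D 6 (Pq.cons (Pq.L [] 0x136ef7 (Pf.C 1 0x202061c301))
 (Pq.cons (Pq.L [] 0x136ef7 (Pf.C 1 0x202061c301))
 (Pq.cons (Pq.L [] 0x1dbb00 (Pf.W 108 5 [] [1,2,3,4,6,7] (Pf.cons (Pf.B 8 7 (Pf.B 8 6 (Pf.C 69 776) (Pf.C 0 0xe14308)) (Pf.C 2 904)) (Pf.cons (Pf.B 8 7 (Pf.B 8 6 (Pf.B 8 2 (Pf.B 8 1 (Pf.B 8 4 (Pf.B 8 3 (Pf.W 114 8 [] [2,5,6] (Pf.cons (Pf.B 9 5 (Pf.C 5 0x20289) (Pf.C 68 649)) (Pf.cons (Pf.B 9 6 (Pf.B 9 5 (Pf.B 9 2 (Pf.C 8 0x60a08409) (Pf.C 79 265)) (Pf.C 3 649)) (Pf.C 79 777)) Pf.nil))) (Pf.W 114 8 [] [3,5,6] (Pf.cons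 (Pf.B 9 5 (Pf.C 5 0x20289) (Pf.C 68 649)) (Pf.cons (Pf.B 9 6 (Pf.B 9 5 (Pf.B 9 3 (Pf.C 8 0x31024305) (Pf.C 3 393)) (Pf.C 3 649)) (Pf.C 79 777)) Pf.nil)))) (Pf.B 8 3 (Pf.W 114 8 [] [4,5,6] (Pf.cons (Pf.B 9 5 (Pf.C 5 0x20289) (Pf.C 68 649)) (Pf.cons (Pf.B 9 6 (Pf.B 9 5 (Pf.B 9 4 (Pf.C 8 0x41024305) (Pf.C 3 521)) (Pf.C 3 649)) (Pf.C 79 777)) Pf.nil))) (Pf.C 8 0x4100c305))) (Pf.C 4 136)) (Pf.C 4 264)) (Pf.C 4 776)) (Pf.C 93 904)) Pf.nil))))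
 (Pq.cons (Pq.L [] 0x100000 (Pf.C 96 902))
 Pq.nil))))) (Pq.cons (Pq.L [] 0x40018 (Pf.C 5 17030))
 (Pq.cons (Pq.L [] 0x40000 (Pf.C 3 773))
 Pq.nil))))) (Pq.cons (Pq.L [] 256 (Pf.C 4 642))
 (Pq.cons (Pq.L [] 39360 (Pf.C 0 0x814103))
 (Pq.cons (Pq.L [] 39375 (Pf.C 8 0x4040c281))
 Pq.nil))))) (Pq.cons (Pq.L [] 128 (Pf.C 4 514))
 (Pq.cons (Pq.D 4 (Pq.cons (Pq.L [] 39360 (Pf.C 0 0xa10103))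
 (Pq.cons (Pq.L [] 256 (Pf.C 4 642))
 (Pq.cons (Pq.L [] 39360 (Pf.C 0 0xa0c104))
 (Pq.cons (Pq.L [] 256 (Pf.C 96 642))
 Pq.nil))))) (Pq.cons (Pq.L [] 128 (Pf.C 96 514))
 Pq.nil))))) (Pq.cons (Pq.L [] 64 (Pf.C 4 386))
 (Pq.cons (Pq.D 3 (Pq.cons (Pq.D 4 (Pq.cons (Pq.L [] 39360 (Pf.C 0 0xa0c104))
 (Pq.cons (Pq.L [] 256 (Pf.C 4 642))
 (Pq.cons (Pq.L [] 39360 (Pf.C 0 0xa10103))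
 (Pq.cons (Pq.L [] 256 (Pf.C 96 642))
 Pq.nil))))) (Pq.cons (Pq.L [] 128 (Pf.C 4 514))
 (Pq.cons (Pq.D 4 (Pq.cons (Pq.L [] 39360 (Pf.C 0 0x814103))
 (Pq.cons (Pq.L [] 256 (Pf.C 4 642))
 (Pq.cons (Pq.D 5 (Pq.cons (Pq.L [] 0x40018 (Pf.C 5 17157))
 (Pq.cons (Pq.D 6 (Pq.cons (Pq.L [] 0x1c8799 (Pf.W 116 2 [] [1,3,4,5,6,7] (Pf.cons (Pf.B 8 7 (Pf.C 5 33672) (Pf.B 8 5 (Pf.B 8 6 (Pf.B 8 4 (Pf.B 8 3 (Pf.B 8 1 (Pf.W 101 8 [] [2,5,6] (Pf.cons (Pf.B 9 6 (Pf.C 5 99464) (Pf.C 81 777)) (Pf.cons (Pf.B 9 6 (Pf.B 9 5 (Pf.B 9 2 (Pf.C 7 0x60a08409) (Pf.C 4 265)) (Pf.C 93 649)) (Pf.C 4 777)) Pf.nil))) (Pf.C 7 0x60a08088)) (Pf.C 2 392)) (Pf.C 2 520)) (Pf.C 0 0xa1c308)) (Pf.C 2 648))) (Pf.cons (Pf.B 8 5 (Pf.C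 82 648) (Pf.B 8 4 (Pf.C 82 520) (Pf.C 0 0xa08404))) Pf.nil))))
 (Pq.cons (Pq.L [] 0x136ef7 (Pf.C 1 0x202061c301))
 (Pq.cons (Pq.L [] 0x136ef7 (Pf.C 1 0x202061c301))
 (Pq.cons (Pq.L [] 0x106000 (Pf.C 5 99203))
 Pq.nil))))) (Pq.cons (Pq.L [] 0x40000 (Pf.C 2 773))
 (Pq.cons (Pq.D 6 (Pq.cons (Pq.L [] 0x1c0700 (Pf.C 0 0xe18282))
 (Pq.cons (Pq.L [] 0x106000 (Pf.C 5 0x1c303))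
 (Pq.cons (Pq.L [] 0x40bc7 (Pf.W 116 2 [] [1,3,4,5,6,7] (Pf.cons (Pf.B 8 7 (Pf.B 8 6 (Pf.B 8 5 (Pf.B 8 4 (Pf.B 8 3 (Pf.B 8 1 (Pf.W 101 8 [] [2,3,4] (Pf.cons (Pf.B 9 2 (Pf.C 5 33928) (Pf.C 81 265)) (Pf.cons (Pf.B 9 4 (Pf.B 9 3 (Pf.B 9 2 (Pf.C 7 0x4040c409) (Pf.C 4 265)) (Pf.C 93 393)) (Pf.C 93 521)) Pf.nil))) (Pf.C 7 0x4040c088)) (Pf.C 2 392)) (Pf.C 2 520)) (Pf.C 2 648)) (Pf.C 72 776)) (Pf.C 2 904)) (Pf.cons (Pf.B 8 6 (Pf.B 8 5 (Pf.C 82 648) (Pf.C 0 0xc08288)) (Pf.C 3 776)) Pf.nil))))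
 (Pq.cons (Pq.L [] 0x100631 (Pf.C 0 0x41c301))
 Pq.nil))))) Pq.nil))))) (Pq.cons (Pq.L [] 256 (Pf.C 96 642))
 Pq.nil))))) (Pq.cons (Pq.L [] 128 (Pf.C 96 514))
 Pq.nil))))) (Pq.cons (Pq.L [] 64 (Pf.C 96 386))
 Pq.nil))))) (Pq.cons (Pq.D 2 (Pq.cons (Pq.L [] 67 (Pf.C 5 16770))
 (Pq.cons (Pq.D 3 (Pq.cons (Pq.L [] 133 (Pf.C 5 16898))
 (Pq.cons (Pq.D 4 (Pq.cons (Pq.L [] 265 (Pf.C 5 17026))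
 (Pq.cons (Pq.D 5 (Pq.cons (Pq.D 6 (Pq.cons (Pq.L [] 0x1c0700 (Pf.C 0 0xe18105))
 (Pq.cons (Pq.L [] 0x1c0000 (Pf.W 108 6 [] [1,2,3,4,5,7] (Pf.cons (Pf.B 8 7 (Pf.C 69 904) (Pf.B 8 5 (Pf.C 69 648) (Pf.C 0 0xe18405))) (Pf.cons (Pf.B 8 7 (Pf.B 8 5 (Pf.B 8 4 (Pf.B 8 3 (Pf.B 8 2 (Pf.B 8 1 (Pf.W 114 8 [] [5,6,7] (Pf.cons (Pf.B 9 6 (Pf.C 5 0x20309) (Pf.C 68 777)) (Pf.cons (Pf.B 9 7 (Pf.B 9 6 (Pf.B 9 5 (Pf.C 8 0x70c14409) (Pf.C 79 649)) (Pf.C 3 777)) (Pf.C 79 905)) Pf.nil))) (Pf.C 4 136)) (Pf.C 93 264)) (Pf.C 4 392)) (Pf.C 4 520)) (Pf.C 4 648)) (Pf.C 4 904)) Pf.nil))))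
 (Pq.cons (Pq.L [] 0x100030 (Pf.C 5 17159))
 (Pq.cons (Pq.L [] 0x1c0700 (Pf.C 0 0xe18282))
 Pq.nil))))) (Pq.cons (Pq.L [] 0x40000 (Pf.C 4 773))
 (Pq.cons (Pq.D 6 (Pq.cons (Pq.L [] 0x100030 (Pf.C 5 17286))
 (Pq.cons (Pq.L [] 0x136ef7 (Pf.C 1 0x202061c301))
 (Pq.cons (Pq.L [0] 0x106032 (Pf.C 7 0x30004386))
 (Pq.cons (Pq.L [] 0x1dbb19 (Pf.W 116 5 [] [1,2,3,4,6,7] (Pf.cons (Pf.B 8 7 (Pf.B 8 6 (Pf.B 8 2 (Pf.B 8 1 (Pf.B 8 4 (Pf.B 8 3 (Pf.W 101 8 [] [2,5,6] (Pf.cons (Pf.B 9 5 (Pf.C 5 83080) (Pf.C 81 649)) (Pf.cons (Pf.B 9 6 (Pf.B 9 5 (Pf.B 9 2 (Pf.C 7 0x60a08409) (Pf.C 93 265)) (Pf.C 4 649)) (Pf.C 93 777)) Pf.nil))) (Pf.W 101 8 [] [3,5,6] (Pf.cons (Pf.B 9 5 (Pf.C 5 83080) (Pf.C 81 649)) (Pf.cons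 (Pf.B 9 6 (Pf.B 9 5 (Pf.B 9 3 (Pf.C 7 0x31024305) (Pf.C 4 393)) (Pf.C 4 649)) (Pf.C 93 777)) Pf.nil)))) (Pf.B 8 3 (Pf.W 101 8 [] [4,5,6] (Pf.cons (Pf.B 9 5 (Pf.C 5 83080) (Pf.C 81 649)) (Pf.cons (Pf.B 9 6 (Pf.B 9 5 (Pf.B 9 4 (Pf.C 7 0x41024305) (Pf.C 4 521)) (Pf.C 4 649)) (Pf.C 93 777)) Pf.nil))) (Pf.C 7 0x4100c305))) (Pf.C 7 0x60a08088)) (Pf.C 2 264)) (Pf.C 2 776)) (Pf.C 72 904)) (Pf.cons (Pf.B 8 7 (Pf.B 8 6 (Pf.C 82 776) (Pf.C 0 0xe14308)) (Pf.C 3 904)) Pf.nil))))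
 Pq.nil))))) (Pq.cons (Pq.L [] 0x40000 (Pf.C 96 773))
 Pq.nil))))) (Pq.cons (Pq.L [] 256 (Pf.C 2 642))
 (Pq.cons (Pq.L [] 39360 (Pf.C 0 0x814103))
 Pq.nil))))) (Pq.cons (Pq.L [] 128 (Pf.C 2 514))
 (Pq.cons (Pq.D 4 (Pq.cons (Pq.L [] 265 (Pf.C 5 17026))
 (Pq.cons (Pq.L [] 39360 (Pf.C 0 0xa10103))
 (Pq.cons (Pq.L [] 256 (Pf.C 2 642))
 (Pq.cons (Pq.L [] 39360 (Pf.C 0 0xa0c104))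
 Pq.nil))))) Pq.nil))))) (Pq.cons (Pq.L [] 64 (Pf.C 2 386))
 (Pq.cons (Pq.D 3 (Pq.cons (Pq.L [] 133 (Pf.C 5 16898))
 (Pq.cons (Pq.D 4 (Pq.cons (Pq.L [] 265 (Pf.C 5 17026))
 (Pq.cons (Pq.L [] 39360 (Pf.C 0 0xa0c104))
 (Pq.cons (Pq.L [] 256 (Pf.C 2 642))
 (Pq.cons (Pq.L [] 39360 (Pf.C 0 0xa10103))
 Pq.nil))))) (Pq.cons (Pq.L [] 128 (Pf.C 2 514))
 (Pq.cons (Pq.D 4 (Pq.cons (Pq.L [] 265 (Pf.C 5 17026))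
 (Pq.cons (Pq.L [] 39360 (Pf.C 0 0x814103))
 (Pq.cons (Pq.L [] 256 (Pf.C 2 642))
 (Pq.cons (Pq.D 5 (Pq.cons (Pq.L [] 0x40000 (Pf.C 3 773))
 (Pq.cons (Pq.L [] 0x40000 (Pf.C 96 646))
 (Pq.cons (Pq.D 6 (Pq.cons (Pq.L [] 0x100030 (Pf.C 5 17286))
 (Pq.cons (Pq.L [] 0x1c8781 (Pf.W 103 2 [] [1,3,4,5,6,7] (Pf.cons (Pf.B 8 7 (Pf.C 5 0x1c402) (Pf.B 8 5 (Pf.B 8 6 (Pf.B 8 4 (Pf.B 8 3 (Pf.B 8 1 (Pf.C 5 17410) (Pf.W 109 8 [] [2,5,6] (Pf.cons (Pf.B 9 6 (Pf.B 9 5 (Pf.B 9 2 (Pf.C 6 0x60a08409) (Pf.C 2 265)) (Pf.C 72 649)) (Pf.C 2 777)) (Pf.cons (Pf.B 9 6 (Pf.C 5 0x24406) (Pf.C 95 777)) Pf.nil)))) (Pf.C 3 392)) (Pf.C 3 520)) (Pf.C 0 0xa1c308)) (Pf.C 3 648))) (Pf.cons (Pf.B 8 5 (Pf.C 96 648) (Pf.B 8 4 (Pf.C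 96 520) (Pf.C 0 0xa08404))) Pf.nil))))
 (Pq.cons (Pq.L [] 0x136ec0 (Pf.C 6 0x4040c386))
 (Pq.cons (Pq.L [] 0x136ec0 (Pf.C 6 0x4040c386))
 Pq.nil))))) (Pq.cons (Pq.L [] 0x40000 (Pf.C 3 773))
 Pq.nil))))) Pq.nil))))) Pq.nil))))) Pq.nil))))) (Pq.cons (Pq.D 2 (Pq.cons (Pq.L [] 64 (Pf.C 3 386))
 (Pq.cons (Pq.L [] 64 (Pf.C 96 259))
 (Pq.cons (Pq.D 3 (Pq.cons (Pq.L [] 128 (Pf.C 3 514))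
 (Pq.cons (Pq.L [] 128 (Pf.C 96 260))
 (Pq.cons (Pq.D 4 (Pq.cons (Pq.L [] 256 (Pf.C 3 642))
 (Pq.cons (Pq.L [] 256 (Pf.C 96 261))
 (Pq.cons (Pq.D 5 (Pq.cons (Pq.L [] 0x40018 (Pf.C 5 17157))
 (Pq.cons (Pq.D 6 (Pq.cons (Pq.L [] 0x1c0700 (Pf.C 0 0xe18282))
 (Pq.cons (Pq.L [0] 0x100600 (Pf.C 0 0x1c302))
 (Pq.cons (Pq.L [] 0x1c0038 (Pf.W 116 6 [] [1,2,3,4,5,7] (Pf.cons (Pf.B 8 7 (Pf.B 8 5 (Pf.B 8 4 (Pf.B 8 3 (Pf.B 8 2 (Pf.B 8 1 (Pf.W 101 8 [] [5,6,7] (Pf.cons (Pf.B 9 6 (Pf.C 5 99464) (Pf.C 81 777)) (Pf.cons (Pf.B 9 7 (Pf.B 9 6 (Pf.B 9 5 (Pf.C 7 0x70c14409) (Pf.C 93 649)) (Pf.C 4 777)) (Pf.C 93 905)) Pf.nil))) (Pf.C 7 0x70c14088)) (Pf.C 72 264)) (Pf.C 2 392)) (Pf.C 2 520)) (Pf.C 2 648)) (Pf.C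 2 904)) (Pf.cons (Pf.B 8 7 (Pf.C 82 904) (Pf.B 8 5 (Pf.C 82 648) (Pf.C 0 0xe18405))) Pf.nil))))
 (Pq.cons (Pq.L [] 0x106000 (Pf.C 5 99203))
 Pq.nil))))) (Pq.cons (Pq.L [] 0x40000 (Pf.C 2 773))
 (Pq.cons (Pq.D 6 (Pq.cons (Pq.L [] 0x100000 (Pf.C 3 902))
 (Pq.cons (Pq.L [] 0x106000 (Pf.C 5 0x1c303))
 (Pq.cons (Pq.L [] 0x136ec0 (Pf.C 6 0x4040c386))
 (Pq.cons (Pq.L [] 0x136ec0 (Pf.C 6 0x4040c386))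
 Pq.nil))))) Pq.nil))))) (Pq.cons (Pq.L [] 256 (Pf.C 3 642))
 Pq.nil))))) (Pq.cons (Pq.L [] 128 (Pf.C 3 514))
 Pq.nil))))) (Pq.cons (Pq.L [] 64 (Pf.C 3 386))
 Pq.nil))))) Pq.nil))))) Pq.nil)
theorem e4_o17 : AllRef e4_T e4_G6 (List.take 1 (List.drop 1 (List.flatMap (splitP 0) (List.drop 1 (applyObl d_T 2 [57,68,49,60] [0,0,0,0] [(57,0x2000000000000),(68,0x1000000000000000),(49,0x200000000000000),(60,0x100000000000000000)]))))) :=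
  chkPq_sound e4_o17c _ (by decide +kernel)
noncomputable def e4_o18c : Pq := (Pq.cons (Pq.D 1 (Pq.cons (Pq.D 2 (Pq.cons (Pq.L [] 64 (Pf.C 3 386))
 (Pq.cons (Pq.D 3 (Pq.cons (Pq.L [] 128 (Pf.C 3 514))
 (Pq.cons (Pq.D 4 (Pq.cons (Pq.L [] 256 (Pf.C 3 642))
 (Pq.cons (Pq.D 5 (Pq.cons (Pq.D 6 (Pq.cons (Pq.L [] 0x136ec0 (Pf.C 8 0x4040c386))
 (Pq.cons (Pq.L [] 0x136ec0 (Pf.C 8 0x4040c386))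
 (Pq.cons (Pq.L [0] 0x136836 (Pf.C 1 0x2000618087))
 (Pq.cons (Pq.L [] 0x100000 (Pf.C 3 902))
 Pq.nil))))) (Pq.cons (Pq.L [] 0x40000 (Pf.C 4 773))
 (Pq.cons (Pq.D 6 (Pq.cons (Pq.L [0] 0x136836 (Pf.C 1 0x200061c086))
 (Pq.cons (Pq.L [] 0x40bc0 (Pf.W 108 2 [] [1,3,4,5,6,7] (Pf.cons (Pf.B 8 6 (Pf.B 8 5 (Pf.C 69 648) (Pf.C 0 0xc08288)) (Pf.C 2 776)) (Pf.cons (Pf.B 8 7 (Pf.B 8 6 (Pf.B 8 5 (Pf.B 8 4 (Pf.B 8 3 (Pf.B 8 1 (Pf.W 114 8 [] [2,3,4] (Pf.cons (Pf.B 9 2 (Pf.C 5 0x20109) (Pf.C 68 265)) (Pf.cons (Pf.B 9 4 (Pf.B 9 3 (Pf.B 9 2 (Pf.C 8 0x4040c409) (Pf.C 3 265)) (Pf.C 79 393)) (Pf.C 79 521)) Pf.nil))) (Pf.C 93 136)) (Pf.C 4 392)) (Pf.C 4 520)) (Pf.C 4 648)) (Pf.C 93 776)) (Pf.C 4 904)) Pf.nil))))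
 (Pq.cons (Pq.L [0] 0x136836 (Pf.C 1 0x200061c301))
 (Pq.cons (Pq.L [] 0x1c0700 (Pf.C 0 0xe18282))
 Pq.nil))))) (Pq.cons (Pq.L [] 0x40018 (Pf.C 5 82689))
 Pq.nil))))) (Pq.cons (Pq.L [] 256 (Pf.C 82 642))
 (Pq.cons (Pq.L [] 256 (Pf.C 3 642))
 Pq.nil))))) (Pq.cons (Pq.L [] 128 (Pf.C 82 514))
 (Pq.cons (Pq.L [] 128 (Pf.C 3 514))
 Pq.nil))))) (Pq.cons (Pq.L [] 64 (Pf.C 82 386))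
 (Pq.cons (Pq.L [] 64 (Pf.C 3 386))
 Pq.nil))))) (Pq.cons (Pq.D 2 (Pq.cons (Pq.D 3 (Pq.cons (Pq.D 4 (Pq.cons (Pq.D 5 (Pq.cons (Pq.L [] 0x40000 (Pf.C 3 773))
 (Pq.cons (Pq.D 6 (Pq.cons (Pq.L [] 0x136ec0 (Pf.C 8 0x4040c386))
 (Pq.cons (Pq.L [] 0x136ec0 (Pf.C 8 0x4040c386))
 (Pq.cons (Pq.L [] 0x1dbb00 (Pf.W 108 5 [] [1,2,3,4,6,7] (Pf.cons (Pf.B 8 7 (Pf.B 8 6 (Pf.C 69 776) (Pf.C 0 0xe14308)) (Pf.C 2 904)) (Pf.cons (Pf.B 8 7 (Pf.B 8 6 (Pf.B 8 2 (Pf.B 8 1 (Pf.B 8 4 (Pf.B 8 3 (Pf.W 114 8 [] [2,5,6] (Pf.cons (Pf.B 9 5 (Pf.C 5 0x20289) (Pf.C 68 649)) (Pf.cons (Pf.B 9 6 (Pf.B 9 5 (Pf.B 9 2 (Pf.C 8 0x60a08409) (Pf.C 79 265)) (Pf.C 3 649)) (Pf.C 79 777)) Pf.nil))) (Pf.W 114 8 [] [3,5,6] (Pf.cons (Pf.B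 9 5 (Pf.C 5 0x20289) (Pf.C 68 649)) (Pf.cons (Pf.B 9 6 (Pf.B 9 5 (Pf.B 9 3 (Pf.C 8 0x31024305) (Pf.C 3 393)) (Pf.C 3 649)) (Pf.C 79 777)) Pf.nil)))) (Pf.B 8 3 (Pf.W 114 8 [] [4,5,6] (Pf.cons (Pf.B 9 5 (Pf.C 5 0x20289) (Pf.C 68 649)) (Pf.cons (Pf.B 9 6 (Pf.B 9 5 (Pf.B 9 4 (Pf.C 8 0x41024305) (Pf.C 3 521)) (Pf.C 3 649)) (Pf.C 79 777)) Pf.nil))) (Pf.C 8 0x4100c305))) (Pf.C 93 136)) (Pf.C 4 264)) (Pf.C 4 776)) (Pf.C 93 904)) Pf.nil))))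
 (Pq.cons (Pq.L [] 0x100030 (Pf.C 5 99201))
 Pq.nil))))) (Pq.cons (Pq.L [] 0x40000 (Pf.C 82 773))
 (Pq.cons (Pq.L [] 0x40000 (Pf.C 3 773))
 Pq.nil))))) (Pq.cons (Pq.L [] 256 (Pf.C 4 642))
 (Pq.cons (Pq.L [] 39360 (Pf.C 0 0x814103))
 (Pq.cons (Pq.L [] 265 (Pf.C 5 33409))
 Pq.nil))))) (Pq.cons (Pq.L [] 128 (Pf.C 4 514))
 (Pq.cons (Pq.D 4 (Pq.cons (Pq.L [] 39360 (Pf.C 0 0xa10103))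
 (Pq.cons (Pq.L [] 256 (Pf.C 4 642))
 (Pq.cons (Pq.L [] 39360 (Pf.C 0 0xa0c104))
 (Pq.cons (Pq.L [] 265 (Pf.C 5 33409))
 Pq.nil))))) (Pq.cons (Pq.L [] 133 (Pf.C 5 33281))
 Pq.nil))))) (Pq.cons (Pq.L [] 64 (Pf.C 4 386))
 (Pq.cons (Pq.D 3 (Pq.cons (Pq.D 4 (Pq.cons (Pq.L [] 39360 (Pf.C 0 0xa0c104))
 (Pq.cons (Pq.L [] 256 (Pf.C 4 642))
 (Pq.cons (Pq.L [] 39360 (Pf.C 0 0xa10103))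
 (Pq.cons (Pq.L [] 265 (Pf.C 5 33409))
 Pq.nil))))) (Pq.cons (Pq.L [] 128 (Pf.C 4 514))
 (Pq.cons (Pq.D 4 (Pq.cons (Pq.L [] 39360 (Pf.C 0 0x814103))
 (Pq.cons (Pq.L [] 256 (Pf.C 4 642))
 (Pq.cons (Pq.D 5 (Pq.cons (Pq.L [] 0x40000 (Pf.C 82 646))
 (Pq.cons (Pq.D 6 (Pq.cons (Pq.L [] 0x1c8780 (Pf.W 116 2 [] [1,3,4,5,6,7] (Pf.cons (Pf.B 8 7 (Pf.C 5 33672) (Pf.B 8 5 (Pf.B 8 6 (Pf.B 8 4 (Pf.B 8 3 (Pf.B 8 1 (Pf.W 101 8 [] [2,5,6] (Pf.cons (Pf.B 9 6 (Pf.C 5 99464) (Pf.C 81 777)) (Pf.cons (Pf.B 9 6 (Pf.B 9 5 (Pf.B 9 2 (Pf.C 7 0x60a08409) (Pf.C 4 265)) (Pf.C 93 649)) (Pf.C 4 777)) Pf.nil))) (Pf.C 2 136)) (Pf.C 2 392)) (Pf.C 2 520)) (Pf.C 0 0xa1c308)) (Pf.C 2 648))) (Pf.cons (Pf.B 8 5 (Pf.C 82 648)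 (Pf.B 8 4 (Pf.C 82 520) (Pf.C 0 0xa08404))) Pf.nil))))
 (Pq.cons (Pq.L [] 0x136ef7 (Pf.C 1 0x202061c301))
 (Pq.cons (Pq.L [] 0x136ef7 (Pf.C 1 0x202061c301))
 (Pq.cons (Pq.L [] 0x100030 (Pf.C 5 99201))
 Pq.nil))))) (Pq.cons (Pq.L [] 0x40000 (Pf.C 2 773))
 (Pq.cons (Pq.D 6 (Pq.cons (Pq.L [] 0x1c0700 (Pf.C 0 0xe18282))
 (Pq.cons (Pq.L [] 0x100030 (Pf.C 5 0x1c301))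
 (Pq.cons (Pq.L [] 0x40bc0 (Pf.W 116 2 [] [1,3,4,5,6,7] (Pf.cons (Pf.B 8 7 (Pf.B 8 6 (Pf.B 8 5 (Pf.B 8 4 (Pf.B 8 3 (Pf.B 8 1 (Pf.W 101 8 [] [2,3,4] (Pf.cons (Pf.B 9 2 (Pf.C 5 33928) (Pf.C 81 265)) (Pf.cons (Pf.B 9 4 (Pf.B 9 3 (Pf.B 9 2 (Pf.C 7 0x4040c409) (Pf.C 4 265)) (Pf.C 93 393)) (Pf.C 93 521)) Pf.nil))) (Pf.C 2 136)) (Pf.C 2 392)) (Pf.C 2 520)) (Pf.C 2 648)) (Pf.C 72 776)) (Pf.C 2 904)) (Pf.cons (Pf.B 8 6 (Pf.B 8 5 (Pf.C 82 648) (Pf.C 0 0xc08288)) (Pf.C 3 776)) Pf.nil))))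
 (Pq.cons (Pq.L [] 0x1c0700 (Pf.C 0 0xe18105))
 Pq.nil))))) Pq.nil))))) (Pq.cons (Pq.L [] 265 (Pf.C 5 33409))
 Pq.nil))))) (Pq.cons (Pq.L [] 133 (Pf.C 5 33281))
 Pq.nil))))) (Pq.cons (Pq.L [] 67 (Pf.C 5 33153))
 Pq.nil))))) (Pq.cons (Pq.D 2 (Pq.cons (Pq.L [] 64 (Pf.C 82 259))
 (Pq.cons (Pq.D 3 (Pq.cons (Pq.L [] 128 (Pf.C 82 260))
 (Pq.cons (Pq.D 4 (Pq.cons (Pq.L [] 256 (Pf.C 82 261))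
 (Pq.cons (Pq.D 5 (Pq.cons (Pq.D 6 (Pq.cons (Pq.L [] 0x100631 (Pf.C 0 0x41c301))
 (Pq.cons (Pq.L [] 0x1c0000 (Pf.W 108 6 [] [1,2,3,4,5,7] (Pf.cons (Pf.B 8 7 (Pf.C 69 904) (Pf.B 8 5 (Pf.C 69 648) (Pf.C 0 0xe18405))) (Pf.cons (Pf.B 8 7 (Pf.B 8 5 (Pf.B 8 4 (Pf.B 8 3 (Pf.B 8 2 (Pf.B 8 1 (Pf.W 114 8 [] [5,6,7] (Pf.cons (Pf.B 9 6 (Pf.C 5 0x20309) (Pf.C 68 777)) (Pf.cons (Pf.B 9 7 (Pf.B 9 6 (Pf.B 9 5 (Pf.C 8 0x70c14409) (Pf.C 79 649)) (Pf.C 3 777)) (Pf.C 79 905)) Pf.nil))) (Pf.C 93 136)) (Pf.C 93 264)) (Pf.C 4 392)) (Pf.C 4 520)) (Pf.C 4 648)) (Pf.C 4 904)) Pf.nil))))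
 (Pq.cons (Pq.L [0] 0x136836 (Pf.C 1 0x2000618087))
 (Pq.cons (Pq.L [] 0x1c0700 (Pf.C 0 0xe18282))
 Pq.nil))))) (Pq.cons (Pq.L [] 0x40000 (Pf.C 4 773))
 (Pq.cons (Pq.D 6 (Pq.cons (Pq.L [0] 0x136836 (Pf.C 1 0x200061c086))
 (Pq.cons (Pq.L [] 0x136ef7 (Pf.C 1 0x202061c301))
 (Pq.cons (Pq.L [0] 0x106673 (Pf.C 1 0x103001c301))
 (Pq.cons (Pq.L [] 0x1dbb00 (Pf.W 116 5 [] [1,2,3,4,6,7] (Pf.cons (Pf.B 8 7 (Pf.B 8 6 (Pf.B 8 2 (Pf.B 8 1 (Pf.B 8 4 (Pf.B 8 3 (Pf.W 101 8 [] [2,5,6] (Pf.cons (Pf.B 9 5 (Pf.C 5 83080) (Pf.C 81 649)) (Pf.cons (Pf.B 9 6 (Pf.B 9 5 (Pf.B 9 2 (Pf.C 7 0x60a08409) (Pf.C 93 265)) (Pf.C 4 649)) (Pf.C 93 777)) Pf.nil))) (Pf.W 101 8 [] [3,5,6] (Pf.cons (Pf.B 9 5 (Pf.C 5 83080) (Pf.C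 81 649)) (Pf.cons (Pf.B 9 6 (Pf.B 9 5 (Pf.B 9 3 (Pf.C 7 0x31024305) (Pf.C 4 393)) (Pf.C 4 649)) (Pf.C 93 777)) Pf.nil)))) (Pf.B 8 3 (Pf.W 101 8 [] [4,5,6] (Pf.cons (Pf.B 9 5 (Pf.C 5 83080) (Pf.C 81 649)) (Pf.cons (Pf.B 9 6 (Pf.B 9 5 (Pf.B 9 4 (Pf.C 7 0x41024305) (Pf.C 4 521)) (Pf.C 4 649)) (Pf.C 93 777)) Pf.nil))) (Pf.C 7 0x4100c305))) (Pf.C 2 136)) (Pf.C 2 264)) (Pf.C 2 776)) (Pf.C 72 904)) (Pf.cons (Pf.B 8 7 (Pf.B 8 6 (Pf.C 82 776) (Pf.C 0 0xe14308)) (Pf.C 3 904)) Pf.nil))))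
 Pq.nil))))) (Pq.cons (Pq.L [] 0x40018 (Pf.C 5 82689))
 Pq.nil))))) (Pq.cons (Pq.L [] 256 (Pf.C 2 642))
 (Pq.cons (Pq.L [] 39360 (Pf.C 0 0x814103))
 Pq.nil))))) (Pq.cons (Pq.L [] 128 (Pf.C 2 514))
 (Pq.cons (Pq.D 4 (Pq.cons (Pq.L [] 256 (Pf.C 82 261))
 (Pq.cons (Pq.L [] 39360 (Pf.C 0 0xa10103))
 (Pq.cons (Pq.L [] 256 (Pf.C 2 642))
 (Pq.cons (Pq.L [] 39360 (Pf.C 0 0xa0c104))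
 Pq.nil))))) Pq.nil))))) (Pq.cons (Pq.L [] 64 (Pf.C 2 386))
 (Pq.cons (Pq.D 3 (Pq.cons (Pq.L [] 128 (Pf.C 82 260))
 (Pq.cons (Pq.D 4 (Pq.cons (Pq.L [] 256 (Pf.C 82 261))
 (Pq.cons (Pq.L [] 39360 (Pf.C 0 0xa0c104))
 (Pq.cons (Pq.L [] 256 (Pf.C 2 642))
 (Pq.cons (Pq.L [] 39360 (Pf.C 0 0xa10103))
 Pq.nil))))) (Pq.cons (Pq.L [] 128 (Pf.C 2 514))
 (Pq.cons (Pq.D 4 (Pq.cons (Pq.L [] 39375 (Pf.C 6 0x4040c281))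
 (Pq.cons (Pq.L [] 39360 (Pf.C 0 0x814103))
 (Pq.cons (Pq.L [] 256 (Pf.C 2 642))
 (Pq.cons (Pq.D 5 (Pq.cons (Pq.L [] 0x40000 (Pf.C 3 773))
 (Pq.cons (Pq.L [] 0x40018 (Pf.C 5 98945))
 (Pq.cons (Pq.D 6 (Pq.cons (Pq.L [] 0x100000 (Pf.C 82 775))
 (Pq.cons (Pq.L [] 0x1c8799 (Pf.W 103 2 [] [1,3,4,5,6,7] (Pf.cons (Pf.B 8 7 (Pf.C 5 0x1c402) (Pf.B 8 5 (Pf.B 8 6 (Pf.B 8 4 (Pf.B 8 3 (Pf.B 8 1 (Pf.W 109 8 [] [2,5,6] (Pf.cons (Pf.B 9 6 (Pf.B 9 5 (Pf.B 9 2 (Pf.C 6 0x60a08409) (Pf.C 2 265)) (Pf.C 72 649)) (Pf.C 2 777)) (Pf.cons (Pf.B 9 6 (Pf.C 5 0x24406) (Pf.C 95 777)) Pf.nil))) (Pf.C 6 0x60a08088)) (Pf.C 3 392)) (Pf.C 3 520)) (Pf.C 0 0xa1c308)) (Pf.C 3 648))) (Pf.cons (Pf.B 8 5 (Pf.C 96 648) (Pf.B 8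 4 (Pf.C 96 520) (Pf.C 0 0xa08404))) Pf.nil))))
 (Pq.cons (Pq.L [] 0x136ef7 (Pf.C 1 0x202061c301))
 (Pq.cons (Pq.L [] 0x136ef7 (Pf.C 1 0x202061c301))
 Pq.nil))))) (Pq.cons (Pq.L [] 0x40000 (Pf.C 3 773))
 Pq.nil))))) Pq.nil))))) Pq.nil))))) Pq.nil))))) (Pq.cons (Pq.D 2 (Pq.cons (Pq.L [] 64 (Pf.C 3 386))
 (Pq.cons (Pq.L [] 67 (Pf.C 5 49409))
 (Pq.cons (Pq.D 3 (Pq.cons (Pq.L [] 128 (Pf.C 3 514))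
 (Pq.cons (Pq.L [] 133 (Pf.C 5 65793))
 (Pq.cons (Pq.D 4 (Pq.cons (Pq.L [] 256 (Pf.C 3 642))
 (Pq.cons (Pq.L [] 265 (Pf.C 5 82177))
 (Pq.cons (Pq.D 5 (Pq.cons (Pq.L [] 0x40000 (Pf.C 82 646))
 (Pq.cons (Pq.D 6 (Pq.cons (Pq.L [] 0x1c0700 (Pf.C 0 0xe18282))
 (Pq.cons (Pq.L [0] 0x100600 (Pf.C 0 0x1c302))
 (Pq.cons (Pq.L [] 0x1c0000 (Pf.W 116 6 [] [1,2,3,4,5,7] (Pf.cons (Pf.B 8 7 (Pf.B 8 5 (Pf.B 8 4 (Pf.B 8 3 (Pf.B 8 2 (Pf.B 8 1 (Pf.W 101 8 [] [5,6,7] (Pf.cons (Pf.B 9 6 (Pf.C 5 99464) (Pf.C 81 777)) (Pf.cons (Pf.B 9 7 (Pf.B 9 6 (Pf.B 9 5 (Pf.C 7 0x70c14409) (Pf.C 93 649)) (Pf.C 4 777)) (Pf.C 93 905)) Pf.nil))) (Pf.C 2 136)) (Pf.C 72 264)) (Pf.C 2 392)) (Pf.C 2 520)) (Pf.C 2 648)) (Pf.C 2 904))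 (Pf.cons (Pf.B 8 7 (Pf.C 82 904) (Pf.B 8 5 (Pf.C 82 648) (Pf.C 0 0xe18405))) Pf.nil))))
 (Pq.cons (Pq.L [] 0x100030 (Pf.C 5 99201))
 Pq.nil))))) (Pq.cons (Pq.L [] 0x40000 (Pf.C 2 773))
 (Pq.cons (Pq.D 6 (Pq.cons (Pq.L [] 0x100000 (Pf.C 3 902))
 (Pq.cons (Pq.L [] 0x100030 (Pf.C 5 0x1c301))
 (Pq.cons (Pq.L [] 0x136ef7 (Pf.C 1 0x202061c301))
 (Pq.cons (Pq.L [] 0x136ef7 (Pf.C 1 0x202061c301))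
 Pq.nil))))) Pq.nil))))) (Pq.cons (Pq.L [] 256 (Pf.C 3 642))
 Pq.nil))))) (Pq.cons (Pq.L [] 128 (Pf.C 3 514))
 Pq.nil))))) (Pq.cons (Pq.L [] 64 (Pf.C 3 386))
 Pq.nil))))) Pq.nil))))) (Pq.cons (Pq.D 1 (Pq.cons (Pq.D 2 (Pq.cons (Pq.L [] 64 (Pf.C 3 386))
 (Pq.cons (Pq.D 3 (Pq.cons (Pq.L [] 128 (Pf.C 3 514))
 (Pq.cons (Pq.D 4 (Pq.cons (Pq.L [] 256 (Pf.C 3 642))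
 (Pq.cons (Pq.D 5 (Pq.cons (Pq.D 6 (Pq.cons (Pq.L [] 0x106673 (Pf.C 8 0x20604386))
 (Pq.cons (Pq.L [] 0x136ec0 (Pf.C 8 0x4040c386))
 (Pq.cons (Pq.L [] 0x106000 (Pf.C 5 49927))
 (Pq.cons (Pq.L [] 0x100000 (Pf.C 3 902))
 Pq.nil))))) (Pq.cons (Pq.L [0] 0x40018 (Pf.C 0 98945))
 (Pq.cons (Pq.D 6 (Pq.cons (Pq.L [] 0x106000 (Pf.C 5 50054))
 (Pq.cons (Pq.L [] 0x40bc0 (Pf.W 108 2 [] [1,3,4,5,6,7] (Pf.cons (Pf.B 8 6 (Pf.B 8 5 (Pf.C 69 648) (Pf.C 0 0xc08288)) (Pf.C 2 776)) (Pf.cons (Pf.B 8 7 (Pf.B 8 6 (Pf.B 8 5 (Pf.B 8 4 (Pf.B 8 3 (Pf.B 8 1 (Pf.C 92 136) (Pf.W 114 8 [] [2,3,4] (Pf.cons (Pf.B 9 2 (Pf.C 5 0x20109) (Pf.C 68 265)) (Pf.cons (Pf.B 9 4 (Pf.B 9 3 (Pf.B 9 2 (Pf.C 8 0x4040c409) (Pf.C 3 265))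 (Pf.C 79 393)) (Pf.C 79 521)) Pf.nil)))) (Pf.C 4 392)) (Pf.C 4 520)) (Pf.C 4 648)) (Pf.C 93 776)) (Pf.C 4 904)) Pf.nil))))
 (Pq.cons (Pq.L [] 0x1c0700 (Pf.C 0 0xe18105))
 (Pq.cons (Pq.L [] 0x1c0700 (Pf.C 0 0xe18282))
 Pq.nil))))) (Pq.cons (Pq.L [] 0x40000 (Pf.C 96 773))
 Pq.nil))))) (Pq.cons (Pq.L [] 256 (Pf.C 82 642))
 (Pq.cons (Pq.L [] 256 (Pf.C 3 642))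
 Pq.nil))))) (Pq.cons (Pq.L [] 128 (Pf.C 82 514))
 (Pq.cons (Pq.L [] 128 (Pf.C 3 514))
 Pq.nil))))) (Pq.cons (Pq.L [] 64 (Pf.C 82 386))
 (Pq.cons (Pq.L [] 64 (Pf.C 3 386))
 Pq.nil))))) (Pq.cons (Pq.D 2 (Pq.cons (Pq.D 3 (Pq.cons (Pq.D 4 (Pq.cons (Pq.D 5 (Pq.cons (Pq.L [] 0x40000 (Pf.C 3 773))
 (Pq.cons (Pq.D 6 (Pq.cons (Pq.L [] 0x136ec0 (Pf.C 8 0x4040c386))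
 (Pq.cons (Pq.L [0] 0x100030 (Pf.C 0 0x1c301))
 (Pq.cons (Pq.L [] 0x1dbb00 (Pf.W 108 5 [] [1,2,3,4,6,7] (Pf.cons (Pf.B 8 7 (Pf.B 8 6 (Pf.C 69 776) (Pf.C 0 0xe14308)) (Pf.C 2 904)) (Pf.cons (Pf.B 8 7 (Pf.B 8 6 (Pf.B 8 2 (Pf.B 8 1 (Pf.C 92 136) (Pf.B 8 4 (Pf.B 8 3 (Pf.W 114 8 [] [2,5,6] (Pf.cons (Pf.B 9 5 (Pf.C 5 0x20289) (Pf.C 68 649)) (Pf.cons (Pf.B 9 6 (Pf.B 9 5 (Pf.B 9 2 (Pf.C 8 0x60a08409) (Pf.C 79 265)) (Pf.C 3 649)) (Pf.C 79 777)) Pf.nil))) (Pf.W 114 8 [] [3,5,6] (Pf.cons (Pf.B 9 5 (Pf.C 5 0x20289) (Pf.C 68 649)) (Pf.cons (Pf.B 9 6 (Pf.B 9 5 (Pf.B 9 3 (Pf.C 8 0x31024305) (Pf.C 3 393)) (Pf.C 3 649)) (Pf.C 79 777)) Pf.nil)))) (Pf.B 8 3 (Pf.W 114 8 [] [4,5,6] (Pf.cons (Pf.B 9 5 (Pf.C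 5 0x20289) (Pf.C 68 649)) (Pf.cons (Pf.B 9 6 (Pf.B 9 5 (Pf.B 9 4 (Pf.C 8 0x41024305) (Pf.C 3 521)) (Pf.C 3 649)) (Pf.C 79 777)) Pf.nil))) (Pf.C 8 0x4100c305)))) (Pf.C 4 264)) (Pf.C 4 776)) (Pf.C 93 904)) Pf.nil))))
 (Pq.cons (Pq.L [] 0x100000 (Pf.C 96 902))
 Pq.nil))))) (Pq.cons (Pq.L [] 0x40000 (Pf.C 82 773))
 (Pq.cons (Pq.L [] 0x40000 (Pf.C 3 773))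
 Pq.nil))))) (Pq.cons (Pq.L [0] 265 (Pf.C 0 82177))
 (Pq.cons (Pq.L [] 39360 (Pf.C 0 0x814103))
 (Pq.cons (Pq.L [] 256 (Pf.C 96 642))
 Pq.nil))))) (Pq.cons (Pq.L [0] 133 (Pf.C 0 65793))
 (Pq.cons (Pq.D 4 (Pq.cons (Pq.L [] 39360 (Pf.C 0 0xa10103))
 (Pq.cons (Pq.L [0] 265 (Pf.C 0 82177))
 (Pq.cons (Pq.L [] 39360 (Pf.C 0 0xa0c104))
 (Pq.cons (Pq.L [] 256 (Pf.C 96 642))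
 Pq.nil))))) (Pq.cons (Pq.L [] 128 (Pf.C 96 514))
 Pq.nil))))) (Pq.cons (Pq.L [0] 67 (Pf.C 0 49409))
 (Pq.cons (Pq.D 3 (Pq.cons (Pq.D 4 (Pq.cons (Pq.L [] 39360 (Pf.C 0 0xa0c104))
 (Pq.cons (Pq.L [0] 265 (Pf.C 0 82177))
 (Pq.cons (Pq.L [] 39360 (Pf.C 0 0xa10103))
 (Pq.cons (Pq.L [] 256 (Pf.C 96 642))
 Pq.nil))))) (Pq.cons (Pq.L [0] 133 (Pf.C 0 65793))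
 (Pq.cons (Pq.D 4 (Pq.cons (Pq.L [] 39360 (Pf.C 0 0x814103))
 (Pq.cons (Pq.L [0] 265 (Pf.C 0 82177))
 (Pq.cons (Pq.D 5 (Pq.cons (Pq.L [] 0x40000 (Pf.C 82 646))
 (Pq.cons (Pq.D 6 (Pq.cons (Pq.L [] 0x1c8780 (Pf.W 116 2 [] [1,3,4,5,6,7] (Pf.cons (Pf.B 8 7 (Pf.C 5 33672) (Pf.B 8 5 (Pf.B 8 6 (Pf.B 8 4 (Pf.B 8 3 (Pf.B 8 1 (Pf.W 101 8 [] [2,5,6] (Pf.cons (Pf.B 9 6 (Pf.C 5 99464) (Pf.C 81 777)) (Pf.cons (Pf.B 9 6 (Pf.B 9 5 (Pf.B 9 2 (Pf.C 7 0x60a08409) (Pf.C 4 265)) (Pf.C 93 649)) (Pf.C 4 777)) Pf.nil))) (Pf.C 72 136)) (Pf.C 2 392)) (Pf.C 2 520)) (Pf.C 0 0xa1c308)) (Pf.C 2 648))) (Pf.cons (Pf.B 8 5 (Pf.C 82 648) (Pf.B 8 4 (Pf.C 82 520) (Pf.C 0 0xa08404))) Pf.nil))))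
 (Pq.cons (Pq.L [0] 0x100030 (Pf.C 0 0x1c301))
 (Pq.cons (Pq.L [] 0x136ec0 (Pf.C 7 0x4040c386))
 (Pq.cons (Pq.L [] 0x106000 (Pf.C 5 99203))
 Pq.nil))))) (Pq.cons (Pq.L [] 0x40000 (Pf.C 2 773))
 (Pq.cons (Pq.D 6 (Pq.cons (Pq.L [] 0x1c0700 (Pf.C 0 0xe18282))
 (Pq.cons (Pq.L [0] 0x1c703a (Pf.C 1 0x70218283))
 (Pq.cons (Pq.L [] 0x40bc0 (Pf.W 116 2 [] [1,3,4,5,6,7] (Pf.cons (Pf.B 8 7 (Pf.B 8 6 (Pf.B 8 5 (Pf.B 8 4 (Pf.B 8 3 (Pf.B 8 1 (Pf.W 101 8 [] [2,3,4] (Pf.cons (Pf.B 9 2 (Pf.C 5 33928) (Pf.C 81 265)) (Pf.cons (Pf.B 9 4 (Pf.B 9 3 (Pf.B 9 2 (Pf.C 7 0x4040c409) (Pf.C 4 265)) (Pf.C 93 393)) (Pf.C 93 521)) Pf.nil))) (Pf.C 72 136)) (Pf.C 2 392)) (Pf.C 2 520)) (Pf.C 2 648)) (Pf.C 72 776)) (Pf.C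 2 904)) (Pf.cons (Pf.B 8 6 (Pf.B 8 5 (Pf.C 82 648) (Pf.C 0 0xc08288)) (Pf.C 3 776)) Pf.nil))))
 (Pq.cons (Pq.L [] 0x1c0700 (Pf.C 0 0xe18105))
 Pq.nil))))) Pq.nil))))) (Pq.cons (Pq.L [] 256 (Pf.C 96 642))
 Pq.nil))))) (Pq.cons (Pq.L [] 128 (Pf.C 96 514))
 Pq.nil))))) (Pq.cons (Pq.L [] 64 (Pf.C 96 386))
 Pq.nil))))) (Pq.cons (Pq.D 2 (Pq.cons (Pq.L [] 64 (Pf.C 82 259))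
 (Pq.cons (Pq.D 3 (Pq.cons (Pq.L [] 128 (Pf.C 82 260))
 (Pq.cons (Pq.D 4 (Pq.cons (Pq.L [] 256 (Pf.C 82 261))
 (Pq.cons (Pq.D 5 (Pq.cons (Pq.D 6 (Pq.cons (Pq.L [] 0x136836 (Pf.C 8 0x4020c386))
 (Pq.cons (Pq.L [] 0x1c0000 (Pf.W 108 6 [] [1,2,3,4,5,7] (Pf.cons (Pf.B 8 7 (Pf.C 69 904) (Pf.B 8 5 (Pf.C 69 648) (Pf.C 0 0xe18405))) (Pf.cons (Pf.B 8 7 (Pf.B 8 5 (Pf.B 8 4 (Pf.B 8 3 (Pf.B 8 2 (Pf.B 8 1 (Pf.C 92 136) (Pf.W 114 8 [] [5,6,7] (Pf.cons (Pf.B 9 6 (Pf.C 5 0x20309) (Pf.C 68 777)) (Pf.cons (Pf.B 9 7 (Pf.B 9 6 (Pf.B 9 5 (Pf.C 8 0x70c14409) (Pf.C 79 649)) (Pf.C 3 777)) (Pf.C 79 905)) Pf.nil)))) (Pf.C 93 264)) (Pf.C 4 392)) (Pf.C 4 520)) (Pf.C 4 648)) (Pf.C 4 904)) Pf.nil))))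
 (Pq.cons (Pq.L [] 0x106000 (Pf.C 5 49927))
 (Pq.cons (Pq.L [] 0x1c0700 (Pf.C 0 0xe18282))
 Pq.nil))))) (Pq.cons (Pq.L [0] 0x40018 (Pf.C 0 98945))
 (Pq.cons (Pq.D 6 (Pq.cons (Pq.L [] 0x106000 (Pf.C 5 50054))
 (Pq.cons (Pq.L [] 0x136ec0 (Pf.C 7 0x4040c386))
 (Pq.cons (Pq.L [0] 0x106640 (Pf.C 7 0x608386))
 (Pq.cons (Pq.L [] 0x1dbb00 (Pf.W 116 5 [] [1,2,3,4,6,7] (Pf.cons (Pf.B 8 7 (Pf.B 8 6 (Pf.B 8 2 (Pf.B 8 1 (Pf.B 8 4 (Pf.B 8 3 (Pf.W 101 8 [] [2,5,6] (Pf.cons (Pf.B 9 5 (Pf.C 5 83080) (Pf.C 81 649)) (Pf.cons (Pf.B 9 6 (Pf.B 9 5 (Pf.B 9 2 (Pf.C 7 0x60a08409) (Pf.C 93 265)) (Pf.C 4 649)) (Pf.C 93 777)) Pf.nil))) (Pf.W 101 8 [] [3,5,6] (Pf.cons (Pf.B 9 5 (Pf.C 5 83080) (Pf.C 81 649)) (Pf.cons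 (Pf.B 9 6 (Pf.B 9 5 (Pf.B 9 3 (Pf.C 7 0x31024305) (Pf.C 4 393)) (Pf.C 4 649)) (Pf.C 93 777)) Pf.nil)))) (Pf.B 8 3 (Pf.W 101 8 [] [4,5,6] (Pf.cons (Pf.B 9 5 (Pf.C 5 83080) (Pf.C 81 649)) (Pf.cons (Pf.B 9 6 (Pf.B 9 5 (Pf.B 9 4 (Pf.C 7 0x41024305) (Pf.C 4 521)) (Pf.C 4 649)) (Pf.C 93 777)) Pf.nil))) (Pf.C 7 0x4100c305))) (Pf.C 72 136)) (Pf.C 2 264)) (Pf.C 2 776)) (Pf.C 72 904)) (Pf.cons (Pf.B 8 7 (Pf.B 8 6 (Pf.C 82 776) (Pf.C 0 0xe14308)) (Pf.C 3 904)) Pf.nil))))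
 Pq.nil))))) (Pq.cons (Pq.L [] 0x40000 (Pf.C 96 773))
 Pq.nil))))) (Pq.cons (Pq.L [] 256 (Pf.C 2 642))
 (Pq.cons (Pq.L [] 39360 (Pf.C 0 0x814103))
 Pq.nil))))) (Pq.cons (Pq.L [] 128 (Pf.C 2 514))
 (Pq.cons (Pq.D 4 (Pq.cons (Pq.L [] 256 (Pf.C 82 261))
 (Pq.cons (Pq.L [] 39360 (Pf.C 0 0xa10103))
 (Pq.cons (Pq.L [] 256 (Pf.C 2 642))
 (Pq.cons (Pq.L [] 39360 (Pf.C 0 0xa0c104))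
 Pq.nil))))) Pq.nil))))) (Pq.cons (Pq.L [] 64 (Pf.C 2 386))
 (Pq.cons (Pq.D 3 (Pq.cons (Pq.L [] 128 (Pf.C 82 260))
 (Pq.cons (Pq.D 4 (Pq.cons (Pq.L [] 256 (Pf.C 82 261))
 (Pq.cons (Pq.L [] 39360 (Pf.C 0 0xa0c104))
 (Pq.cons (Pq.L [] 256 (Pf.C 2 642))
 (Pq.cons (Pq.L [] 39360 (Pf.C 0 0xa10103))
 Pq.nil))))) (Pq.cons (Pq.L [] 128 (Pf.C 2 514))
 (Pq.cons (Pq.D 4 (Pq.cons (Pq.L [] 256 (Pf.C 82 261))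
 (Pq.cons (Pq.L [] 39360 (Pf.C 0 0x814103))
 (Pq.cons (Pq.L [] 256 (Pf.C 2 642))
 (Pq.cons (Pq.D 5 (Pq.cons (Pq.L [] 0x40000 (Pf.C 3 773))
 (Pq.cons (Pq.L [] 0x40000 (Pf.C 96 646))
 (Pq.cons (Pq.D 6 (Pq.cons (Pq.L [] 0x100000 (Pf.C 82 775))
 (Pq.cons (Pq.L [] 0x1c8780 (Pf.W 103 2 [] [1,3,4,5,6,7] (Pf.cons (Pf.B 8 7 (Pf.C 5 0x1c402) (Pf.B 8 5 (Pf.B 8 6 (Pf.B 8 4 (Pf.B 8 3 (Pf.B 8 1 (Pf.W 109 8 [] [2,5,6] (Pf.cons (Pf.B 9 6 (Pf.B 9 5 (Pf.B 9 2 (Pf.C 6 0x60a08409) (Pf.C 2 265)) (Pf.C 72 649)) (Pf.C 2 777)) (Pf.cons (Pf.B 9 6 (Pf.C 5 0x24406) (Pf.C 95 777)) Pf.nil))) (Pf.C 3 136)) (Pf.C 3 392)) (Pf.C 3 520)) (Pf.C 0 0xa1c308)) (Pf.C 3 648))) (Pf.cons (Pf.B 8 5 (Pf.C 96 648) (Pf.B 8 4 (Pf.C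 96 520) (Pf.C 0 0xa08404))) Pf.nil))))
 (Pq.cons (Pq.L [] 0x136ef7 (Pf.C 1 0x202061c301))
 (Pq.cons (Pq.L [] 0x136ef7 (Pf.C 1 0x202061c301))
 Pq.nil))))) (Pq.cons (Pq.L [] 0x40000 (Pf.C 3 773))
 Pq.nil))))) Pq.nil))))) Pq.nil))))) Pq.nil))))) (Pq.cons (Pq.D 2 (Pq.cons (Pq.L [] 64 (Pf.C 3 386))
 (Pq.cons (Pq.L [] 64 (Pf.C 96 259))
 (Pq.cons (Pq.D 3 (Pq.cons (Pq.L [] 128 (Pf.C 3 514))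
 (Pq.cons (Pq.L [] 128 (Pf.C 96 260))
 (Pq.cons (Pq.D 4 (Pq.cons (Pq.L [] 256 (Pf.C 3 642))
 (Pq.cons (Pq.L [] 256 (Pf.C 96 261))
 (Pq.cons (Pq.D 5 (Pq.cons (Pq.L [] 0x40000 (Pf.C 82 646))
 (Pq.cons (Pq.D 6 (Pq.cons (Pq.L [] 0x1c0700 (Pf.C 0 0xe18282))
 (Pq.cons (Pq.L [0] 0x100030 (Pf.C 0 0x1c301))
 (Pq.cons (Pq.L [] 0x1c0000 (Pf.W 116 6 [] [1,2,3,4,5,7] (Pf.cons (Pf.B 8 7 (Pf.B 8 5 (Pf.B 8 4 (Pf.B 8 3 (Pf.B 8 2 (Pf.B 8 1 (Pf.W 101 8 [] [5,6,7] (Pf.cons (Pf.B 9 6 (Pf.C 5 99464) (Pf.C 81 777)) (Pf.cons (Pf.B 9 7 (Pf.B 9 6 (Pf.B 9 5 (Pf.C 7 0x70c14409) (Pf.C 93 649)) (Pf.C 4 777)) (Pf.C 93 905)) Pf.nil))) (Pf.C 72 136)) (Pf.C 72 264)) (Pf.C 2 392)) (Pf.C 2 520)) (Pf.C 2 648)) (Pf.C 2 904))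 (Pf.cons (Pf.B 8 7 (Pf.C 82 904) (Pf.B 8 5 (Pf.C 82 648) (Pf.C 0 0xe18405))) Pf.nil))))
 (Pq.cons (Pq.L [] 0x106000 (Pf.C 5 99203))
 Pq.nil))))) (Pq.cons (Pq.L [] 0x40000 (Pf.C 2 773))
 (Pq.cons (Pq.D 6 (Pq.cons (Pq.L [] 0x100000 (Pf.C 3 902))
 (Pq.cons (Pq.L [0] 0x1c703a (Pf.C 1 0x70218283))
 (Pq.cons (Pq.L [] 0x136ef7 (Pf.C 1 0x202061c301))
 (Pq.cons (Pq.L [] 0x136ef7 (Pf.C 1 0x202061c301))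
 Pq.nil))))) Pq.nil))))) (Pq.cons (Pq.L [] 256 (Pf.C 3 642))
 Pq.nil))))) (Pq.cons (Pq.L [] 128 (Pf.C 3 514))
 Pq.nil))))) (Pq.cons (Pq.L [] 64 (Pf.C 3 386))
 Pq.nil))))) Pq.nil))))) Pq.nil))
theorem e4_o18 : AllRef e4_T e4_G6 (List.drop 1 (List.drop 1 (List.flatMap (splitP 0) (List.drop 1 (applyObl d_T 2 [57,68,49,60] [0,0,0,0] [(57,0x2000000000000),(68,0x1000000000000000),(49,0x200000000000000),(60,0x100000000000000000)]))))) :=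
  chkPq_sound e4_o18c _ (by decide +kernel)
noncomputable def e4_o19c : Pq := (Pq.cons (Pq.D 0 (Pq.cons (Pq.D 1 (Pq.cons (Pq.L [] 1 (Pf.C 4 257))
 (Pq.cons (Pq.D 2 (Pq.cons (Pq.L [] 2 (Pf.C 4 385))
 (Pq.cons (Pq.L [] 4 (Pf.C 2 386))
 (Pq.cons (Pq.L [] 2 (Pf.C 94 385))
 (Pq.cons (Pq.L [] 2 (Pf.C 4 385))
 Pq.nil))))) (Pq.cons (Pq.L [] 1 (Pf.C 94 257))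
 (Pq.cons (Pq.L [] 1 (Pf.C 4 257))
 Pq.nil))))) (Pq.cons (Pq.D 1 (Pq.cons (Pq.D 2 (Pq.cons (Pq.L [0] 7 (Pf.C 0 49409))
 (Pq.cons (Pq.L [] 2 (Pf.C 2 385))
 (Pq.cons (Pq.L [] 4 (Pf.C 94 386))
 (Pq.cons (Pq.L [] 2 (Pf.C 73 385))
 Pq.nil))))) (Pq.cons (Pq.L [] 1 (Pf.C 2 257))
 (Pq.cons (Pq.D 2 (Pq.cons (Pq.L [] 4 (Pf.C 94 259))
 (Pq.cons (Pq.L [] 2 (Pf.C 2 385))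
 (Pq.cons (Pq.L [] 4 (Pf.C 3 386))
 (Pq.cons (Pq.L [] 2 (Pf.C 73 385))
 Pq.nil))))) (Pq.cons (Pq.L [] 1 (Pf.C 73 257))
 Pq.nil))))) (Pq.cons (Pq.D 1 (Pq.cons (Pq.L [] 1 (Pf.C 94 130))
 (Pq.cons (Pq.D 2 (Pq.cons (Pq.L [] 2 (Pf.C 94 131))
 (Pq.cons (Pq.L [] 4 (Pf.C 2 386))
 (Pq.cons (Pq.L [] 2 (Pf.C 3 385))
 (Pq.cons (Pq.L [] 4 (Pf.C 73 386))
 Pq.nil))))) (Pq.cons (Pq.L [] 1 (Pf.C 3 257))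
 (Pq.cons (Pq.D 2 (Pq.cons (Pq.L [] 2 (Pf.C 94 131))
 (Pq.cons (Pq.L [] 4 (Pf.C 73 259))
 (Pq.cons (Pq.L [] 2 (Pf.C 3 385))
 (Pq.cons (Pq.L [0] 7 (Pf.C 0 49409))
 Pq.nil))))) Pq.nil))))) (Pq.cons (Pq.D 1 (Pq.cons (Pq.L [] 1 (Pf.C 4 257))
 (Pq.cons (Pq.L [] 1 (Pf.C 73 130))
 (Pq.cons (Pq.D 2 (Pq.cons (Pq.L [] 2 (Pf.C 4 385))
 (Pq.cons (Pq.L [] 2 (Pf.C 73 131))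
 (Pq.cons (Pq.L [] 4 (Pf.C 3 386))
 (Pq.cons (Pq.L [] 2 (Pf.C 4 385))
 Pq.nil))))) (Pq.cons (Pq.L [] 1 (Pf.C 4 257))
 Pq.nil))))) Pq.nil))))) Pq.nil)
theorem e4_o19 : AllRef e4_T e4_G6 (List.take 1 (applyObl d_T 2 [67,48,59,70] [0,0,0,0] [(67,0x800000000000000),(48,0x400000000000000000),(59,0x80000000000000000),(70,0x1000000000000)])) :=
  chkPq_sound e4_o19c _ (by decide +kernel)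
noncomputable def e4_o20c : Pq := (Pq.cons (Pq.D 1 (Pq.cons (Pq.D 2 (Pq.cons (Pq.L [] 64 (Pf.C 4 386))
 (Pq.cons (Pq.D 3 (Pq.cons (Pq.L [] 128 (Pf.C 4 514))
 (Pq.cons (Pq.D 4 (Pq.cons (Pq.L [] 256 (Pf.C 4 642))
 (Pq.cons (Pq.D 5 (Pq.cons (Pq.D 6 (Pq.cons (Pq.L [] 0x136ef7 (Pf.C 1 0x202061c301))
 (Pq.cons (Pq.L [] 0x136ef7 (Pf.C 1 0x202061c301))
 (Pq.cons (Pq.L [] 0x106000 (Pf.C 5 99203))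
 (Pq.cons (Pq.L [0] 0x1c0000 (Pf.C 0 0x1c305))
 Pq.nil))))) (Pq.cons (Pq.L [] 0x40000 (Pf.C 2 773))
 (Pq.cons (Pq.D 6 (Pq.cons (Pq.L [] 0x106000 (Pf.C 5 0x1c303))
 (Pq.cons (Pq.L [] 0x40bc7 (Pf.W 115 2 [] [1,3,4,5,6,7] (Pf.cons (Pf.B 8 7 (Pf.B 8 6 (Pf.B 8 5 (Pf.B 8 4 (Pf.B 8 3 (Pf.B 8 1 (Pf.W 100 8 [] [2,3,4] (Pf.cons (Pf.B 9 2 (Pf.C 5 33928) (Pf.C 79 265)) (Pf.cons (Pf.B 9 4 (Pf.B 9 3 (Pf.B 9 2 (Pf.C 7 0x4040c409) (Pf.C 4 265)) (Pf.C 91 393)) (Pf.C 91 521)) Pf.nil))) (Pf.C 7 0x4040c088)) (Pf.C 2 392)) (Pf.C 2 520)) (Pf.C 2 648)) (Pf.C 70 776)) (Pf.C 2 904)) (Pf.cons (Pf.B 8 6 (Pf.B 8 5 (Pf.C 80 648) (Pf.C 0 0xc08288)) (Pf.C 3 776)) Pf.nil))))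
 (Pq.cons (Pq.L [] 0x100631 (Pf.C 0 0x41c301))
 (Pq.cons (Pq.L [] 0x1c0700 (Pf.C 0 0xe18282))
 Pq.nil))))) (Pq.cons (Pq.L [] 0x40000 (Pf.C 73 773))
 Pq.nil))))) (Pq.cons (Pq.L [] 256 (Pf.C 94 642))
 (Pq.cons (Pq.L [] 256 (Pf.C 4 642))
 Pq.nil))))) (Pq.cons (Pq.L [] 128 (Pf.C 94 514))
 (Pq.cons (Pq.L [] 128 (Pf.C 4 514))
 Pq.nil))))) (Pq.cons (Pq.L [] 64 (Pf.C 94 386))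
 (Pq.cons (Pq.L [] 64 (Pf.C 4 386))
 Pq.nil))))) (Pq.cons (Pq.D 2 (Pq.cons (Pq.D 3 (Pq.cons (Pq.D 4 (Pq.cons (Pq.D 5 (Pq.cons (Pq.L [] 0x40000 (Pf.C 4 773))
 (Pq.cons (Pq.D 6 (Pq.cons (Pq.L [] 0x136ef7 (Pf.C 1 0x202061c301))
 (Pq.cons (Pq.L [0] 0x106032 (Pf.C 7 0x30004386))
 (Pq.cons (Pq.L [] 0x1dbb19 (Pf.W 115 5 [] [1,2,3,4,6,7] (Pf.cons (Pf.B 8 7 (Pf.B 8 6 (Pf.B 8 2 (Pf.B 8 1 (Pf.B 8 4 (Pf.B 8 3 (Pf.W 100 8 [] [2,5,6] (Pf.cons (Pf.B 9 5 (Pf.C 5 83080) (Pf.C 79 649)) (Pf.cons (Pf.B 9 6 (Pf.B 9 5 (Pf.B 9 2 (Pf.C 7 0x60a08409) (Pf.C 91 265)) (Pf.C 4 649)) (Pf.C 91 777)) Pf.nil))) (Pf.W 100 8 [] [3,5,6] (Pf.cons (Pf.B 9 5 (Pf.C 5 83080) (Pf.C 79 649)) (Pf.cons (Pf.B 9 6 (Pf.B 9 5 (Pf.B 9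 3 (Pf.C 7 0x31024305) (Pf.C 4 393)) (Pf.C 4 649)) (Pf.C 91 777)) Pf.nil)))) (Pf.B 8 3 (Pf.W 100 8 [] [4,5,6] (Pf.cons (Pf.B 9 5 (Pf.C 5 83080) (Pf.C 79 649)) (Pf.cons (Pf.B 9 6 (Pf.B 9 5 (Pf.B 9 4 (Pf.C 7 0x41024305) (Pf.C 4 521)) (Pf.C 4 649)) (Pf.C 91 777)) Pf.nil))) (Pf.C 7 0x4100c305))) (Pf.C 7 0x60a08088)) (Pf.C 2 264)) (Pf.C 2 776)) (Pf.C 70 904)) (Pf.cons (Pf.B 8 7 (Pf.B 8 6 (Pf.C 80 776) (Pf.C 0 0xe14308)) (Pf.C 3 904)) Pf.nil))))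
 (Pq.cons (Pq.L [] 0x100000 (Pf.C 73 902))
 Pq.nil))))) (Pq.cons (Pq.L [] 0x40000 (Pf.C 94 773))
 (Pq.cons (Pq.L [0] 0x40300 (Pf.C 0 98946))
 Pq.nil))))) (Pq.cons (Pq.L [] 256 (Pf.C 2 642))
 (Pq.cons (Pq.L [] 39360 (Pf.C 0 0x814103))
 (Pq.cons (Pq.L [] 256 (Pf.C 73 642))
 Pq.nil))))) (Pq.cons (Pq.L [] 128 (Pf.C 2 514))
 (Pq.cons (Pq.D 4 (Pq.cons (Pq.L [] 39360 (Pf.C 0 0xa10103))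
 (Pq.cons (Pq.L [] 256 (Pf.C 2 642))
 (Pq.cons (Pq.L [] 39360 (Pf.C 0 0xa0c104))
 (Pq.cons (Pq.L [] 256 (Pf.C 73 642))
 Pq.nil))))) (Pq.cons (Pq.L [] 128 (Pf.C 73 514))
 Pq.nil))))) (Pq.cons (Pq.L [] 64 (Pf.C 2 386))
 (Pq.cons (Pq.D 3 (Pq.cons (Pq.D 4 (Pq.cons (Pq.L [] 39360 (Pf.C 0 0xa0c104))
 (Pq.cons (Pq.L [] 256 (Pf.C 2 642))
 (Pq.cons (Pq.L [] 39360 (Pf.C 0 0xa10103))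
 (Pq.cons (Pq.L [] 256 (Pf.C 73 642))
 Pq.nil))))) (Pq.cons (Pq.L [] 128 (Pf.C 2 514))
 (Pq.cons (Pq.D 4 (Pq.cons (Pq.L [] 39360 (Pf.C 0 0x814103))
 (Pq.cons (Pq.L [] 256 (Pf.C 2 642))
 (Pq.cons (Pq.D 5 (Pq.cons (Pq.L [] 0x40000 (Pf.C 94 646))
 (Pq.cons (Pq.D 6 (Pq.cons (Pq.L [] 0x1c8781 (Pf.W 102 2 [] [1,3,4,5,6,7] (Pf.cons (Pf.B 8 7 (Pf.C 5 0x1c402) (Pf.B 8 5 (Pf.B 8 6 (Pf.B 8 4 (Pf.B 8 3 (Pf.B 8 1 (Pf.C 5 17410) (Pf.W 108 8 [] [2,5,6] (Pf.cons (Pf.B 9 6 (Pf.B 9 5 (Pf.B 9 2 (Pf.C 6 0x60a08409) (Pf.C 2 265)) (Pf.C 70 649)) (Pf.C 2 777)) (Pf.cons (Pf.B 9 6 (Pf.C 5 0x24406) (Pf.C 93 777)) Pf.nil)))) (Pf.C 3 392)) (Pf.C 3 520)) (Pf.C 0 0xa1c308)) (Pf.C 3 648))) (Pf.cons (Pf.B 8 5 (Pf.C 94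 648) (Pf.B 8 4 (Pf.C 94 520) (Pf.C 0 0xa08404))) Pf.nil))))
 (Pq.cons (Pq.L [] 0x136ec0 (Pf.C 6 0x4040c386))
 (Pq.cons (Pq.L [] 0x136ec0 (Pf.C 6 0x4040c386))
 (Pq.cons (Pq.L [] 0x106000 (Pf.C 5 0x1c186))
 Pq.nil))))) (Pq.cons (Pq.L [] 0x40000 (Pf.C 3 773))
 (Pq.cons (Pq.D 6 (Pq.cons (Pq.L [] 0x1c0700 (Pf.C 0 0xe18282))
 (Pq.cons (Pq.L [] 0x106000 (Pf.C 5 98695))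
 (Pq.cons (Pq.L [] 0x40bc1 (Pf.W 102 2 [] [1,3,4,5,6,7] (Pf.cons (Pf.B 8 7 (Pf.B 8 6 (Pf.B 8 5 (Pf.B 8 4 (Pf.B 8 3 (Pf.B 8 1 (Pf.C 5 17410) (Pf.W 108 8 [] [2,3,4] (Pf.cons (Pf.B 9 4 (Pf.B 9 3 (Pf.B 9 2 (Pf.C 6 0x4040c409) (Pf.C 2 265)) (Pf.C 70 393)) (Pf.C 70 521)) (Pf.cons (Pf.B 9 2 (Pf.C 5 0x24402) (Pf.C 93 265)) Pf.nil)))) (Pf.C 3 392)) (Pf.C 3 520)) (Pf.C 3 648)) (Pf.C 83 776)) (Pf.C 3 904)) (Pf.cons (Pf.B 8 6 (Pf.B 8 5 (Pf.C 94 648) (Pf.C 0 0xc08288)) (Pf.C 4 776)) Pf.nil))))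
 (Pq.cons (Pq.L [] 0x136836 (Pf.C 8 0x4020c386))
 Pq.nil))))) Pq.nil))))) (Pq.cons (Pq.L [] 256 (Pf.C 73 642))
 Pq.nil))))) (Pq.cons (Pq.L [] 128 (Pf.C 73 514))
 Pq.nil))))) (Pq.cons (Pq.L [] 64 (Pf.C 73 386))
 Pq.nil))))) (Pq.cons (Pq.D 2 (Pq.cons (Pq.L [] 64 (Pf.C 94 259))
 (Pq.cons (Pq.D 3 (Pq.cons (Pq.L [] 128 (Pf.C 94 260))
 (Pq.cons (Pq.D 4 (Pq.cons (Pq.L [] 256 (Pf.C 94 261))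
 (Pq.cons (Pq.D 5 (Pq.cons (Pq.D 6 (Pq.cons (Pq.L [0] 0x100600 (Pf.C 0 0x1c302))
 (Pq.cons (Pq.L [] 0x1c0038 (Pf.W 115 6 [] [1,2,3,4,5,7] (Pf.cons (Pf.B 8 7 (Pf.B 8 5 (Pf.B 8 4 (Pf.B 8 3 (Pf.B 8 2 (Pf.B 8 1 (Pf.W 100 8 [] [5,6,7] (Pf.cons (Pf.B 9 6 (Pf.C 5 99464) (Pf.C 79 777)) (Pf.cons (Pf.B 9 7 (Pf.B 9 6 (Pf.B 9 5 (Pf.C 7 0x70c14409) (Pf.C 91 649)) (Pf.C 4 777)) (Pf.C 91 905)) Pf.nil))) (Pf.C 7 0x70c14088)) (Pf.C 70 264)) (Pf.C 2 392)) (Pf.C 2 520)) (Pf.C 2 648)) (Pf.C 2 904)) (Pf.cons (Pf.B 8 7 (Pf.C 80 904) (Pf.B 8 5 (Pf.C 80 648) (Pf.C 0 0xe18405))) Pf.nil))))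
 (Pq.cons (Pq.L [] 0x106000 (Pf.C 5 99203))
 (Pq.cons (Pq.L [] 0x1c0700 (Pf.C 0 0xe18282))
 Pq.nil))))) (Pq.cons (Pq.L [] 0x40000 (Pf.C 2 773))
 (Pq.cons (Pq.D 6 (Pq.cons (Pq.L [] 0x106000 (Pf.C 5 0x1c303))
 (Pq.cons (Pq.L [] 0x136ec0 (Pf.C 6 0x4040c386))
 (Pq.cons (Pq.L [] 0x136ec0 (Pf.C 6 0x4040c386))
 (Pq.cons (Pq.L [] 0x1dbb08 (Pf.W 102 5 [] [1,2,3,4,6,7] (Pf.cons (Pf.B 8 7 (Pf.B 8 6 (Pf.B 8 2 (Pf.B 8 1 (Pf.C 5 17413) (Pf.B 8 4 (Pf.B 8 3 (Pf.W 108 8 [] [2,5,6] (Pf.cons (Pf.B 9 6 (Pf.B 9 5 (Pf.B 9 2 (Pf.C 6 0x60a08409) (Pf.C 70 265)) (Pf.C 2 649)) (Pf.C 70 777)) (Pf.cons (Pf.B 9 5 (Pf.C 5 0x24405) (Pf.C 93 649)) Pf.nil))) (Pf.W 108 8 [] [3,5,6] (Pf.cons (Pf.B 9 6 (Pf.B 9 5 (Pf.B 9 3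 (Pf.C 6 0x31024305) (Pf.C 2 393)) (Pf.C 2 649)) (Pf.C 70 777)) (Pf.cons (Pf.B 9 5 (Pf.C 5 0x24405) (Pf.C 93 649)) Pf.nil)))) (Pf.B 8 3 (Pf.W 108 8 [] [4,5,6] (Pf.cons (Pf.B 9 6 (Pf.B 9 5 (Pf.B 9 4 (Pf.C 6 0x41024305) (Pf.C 2 521)) (Pf.C 2 649)) (Pf.C 70 777)) (Pf.cons (Pf.B 9 5 (Pf.C 5 0x24405) (Pf.C 93 649)) Pf.nil))) (Pf.C 6 0x4100c305)))) (Pf.C 3 264)) (Pf.C 3 776)) (Pf.C 83 904)) (Pf.cons (Pf.B 8 7 (Pf.B 8 6 (Pf.C 94 776) (Pf.C 0 0xe14308)) (Pf.C 4 904)) Pf.nil))))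
 Pq.nil))))) (Pq.cons (Pq.L [] 0x40000 (Pf.C 73 773))
 Pq.nil))))) (Pq.cons (Pq.L [] 256 (Pf.C 3 642))
 (Pq.cons (Pq.L [] 39360 (Pf.C 0 0x814103))
 Pq.nil))))) (Pq.cons (Pq.L [] 128 (Pf.C 3 514))
 (Pq.cons (Pq.D 4 (Pq.cons (Pq.L [] 256 (Pf.C 94 261))
 (Pq.cons (Pq.L [] 39360 (Pf.C 0 0xa10103))
 (Pq.cons (Pq.L [] 256 (Pf.C 3 642))
 (Pq.cons (Pq.L [] 39360 (Pf.C 0 0xa0c104))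
 Pq.nil))))) Pq.nil))))) (Pq.cons (Pq.L [] 64 (Pf.C 3 386))
 (Pq.cons (Pq.D 3 (Pq.cons (Pq.L [] 128 (Pf.C 94 260))
 (Pq.cons (Pq.D 4 (Pq.cons (Pq.L [] 256 (Pf.C 94 261))
 (Pq.cons (Pq.L [] 39360 (Pf.C 0 0xa0c104))
 (Pq.cons (Pq.L [] 256 (Pf.C 3 642))
 (Pq.cons (Pq.L [] 39360 (Pf.C 0 0xa10103))
 Pq.nil))))) (Pq.cons (Pq.L [] 128 (Pf.C 3 514))
 (Pq.cons (Pq.D 4 (Pq.cons (Pq.L [] 256 (Pf.C 94 261))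
 (Pq.cons (Pq.L [] 39360 (Pf.C 0 0x814103))
 (Pq.cons (Pq.L [] 256 (Pf.C 3 642))
 (Pq.cons (Pq.D 5 (Pq.cons (Pq.L [0] 0x40300 (Pf.C 0 98946))
 (Pq.cons (Pq.L [] 0x40000 (Pf.C 73 646))
 (Pq.cons (Pq.D 6 (Pq.cons (Pq.L [] 0x100000 (Pf.C 94 775))
 (Pq.cons (Pq.L [] 0x1c8780 (Pf.W 110 2 [] [1,3,4,5,6,7] (Pf.cons (Pf.B 8 5 (Pf.C 73 648) (Pf.B 8 4 (Pf.C 73 520) (Pf.C 0 0xa08404))) (Pf.cons (Pf.B 8 7 (Pf.C 5 0x20107) (Pf.B 8 5 (Pf.B 8 6 (Pf.B 8 4 (Pf.B 8 3 (Pf.B 8 1 (Pf.W 116 8 [] [2,5,6] (Pf.cons (Pf.B 9 6 (Pf.C 5 0x20309) (Pf.C 72 777)) (Pf.cons (Pf.B 9 6 (Pf.B 9 5 (Pf.B 9 2 (Pf.C 8 0x60a08409) (Pf.C 3 265)) (Pf.C 83 649)) (Pf.C 3 777)) Pf.nil))) (Pf.C 4 136)) (Pf.C 4 392)) (Pf.C 4 520)) (Pf.C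 0 0xa1c308)) (Pf.C 4 648))) Pf.nil))))
 (Pq.cons (Pq.L [] 0x136ec0 (Pf.C 8 0x4040c386))
 (Pq.cons (Pq.L [] 0x136ec0 (Pf.C 8 0x4040c386))
 Pq.nil))))) (Pq.cons (Pq.L [] 0x40000 (Pf.C 4 773))
 Pq.nil))))) Pq.nil))))) Pq.nil))))) Pq.nil))))) (Pq.cons (Pq.D 2 (Pq.cons (Pq.L [] 64 (Pf.C 4 386))
 (Pq.cons (Pq.L [] 64 (Pf.C 73 259))
 (Pq.cons (Pq.D 3 (Pq.cons (Pq.L [] 128 (Pf.C 4 514))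
 (Pq.cons (Pq.L [] 128 (Pf.C 73 260))
 (Pq.cons (Pq.D 4 (Pq.cons (Pq.L [] 256 (Pf.C 4 642))
 (Pq.cons (Pq.L [] 256 (Pf.C 73 261))
 (Pq.cons (Pq.D 5 (Pq.cons (Pq.L [] 0x40000 (Pf.C 94 646))
 (Pq.cons (Pq.D 6 (Pq.cons (Pq.L [] 0x1c0700 (Pf.C 0 0xe18282))
 (Pq.cons (Pq.L [] 0x1c0700 (Pf.C 0 0xe18105))
 (Pq.cons (Pq.L [] 0x1c0010 (Pf.W 102 6 [] [1,2,3,4,5,7] (Pf.cons (Pf.B 8 7 (Pf.B 8 5 (Pf.B 8 4 (Pf.B 8 3 (Pf.B 8 2 (Pf.B 8 1 (Pf.C 5 17414) (Pf.W 108 8 [] [5,6,7] (Pf.cons (Pf.B 9 7 (Pf.B 9 6 (Pf.B 9 5 (Pf.C 6 0x70c14409) (Pf.C 70 649)) (Pf.C 2 777)) (Pf.C 70 905)) (Pf.cons (Pf.B 9 6 (Pf.C 5 0x24406) (Pf.C 93 777)) Pf.nil)))) (Pf.C 83 264)) (Pf.C 3 392)) (Pf.C 3 520)) (Pf.C 3 648)) (Pf.C 3 904))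 (Pf.cons (Pf.B 8 7 (Pf.C 94 904) (Pf.B 8 5 (Pf.C 94 648) (Pf.C 0 0xe18405))) Pf.nil))))
 (Pq.cons (Pq.L [] 0x106000 (Pf.C 5 0x1c186))
 Pq.nil))))) (Pq.cons (Pq.L [] 0x40000 (Pf.C 3 773))
 (Pq.cons (Pq.D 6 (Pq.cons (Pq.L [0] 0x1c0000 (Pf.C 0 0x1c305))
 (Pq.cons (Pq.L [] 0x106000 (Pf.C 5 98695))
 (Pq.cons (Pq.L [] 0x136ec0 (Pf.C 8 0x4040c386))
 (Pq.cons (Pq.L [] 0x106673 (Pf.C 8 0x20604386))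
 Pq.nil))))) Pq.nil))))) (Pq.cons (Pq.L [] 256 (Pf.C 4 642))
 Pq.nil))))) (Pq.cons (Pq.L [] 128 (Pf.C 4 514))
 Pq.nil))))) (Pq.cons (Pq.L [] 64 (Pf.C 4 386))
 Pq.nil))))) Pq.nil))))) Pq.nil)
theorem e4_o20 : AllRef e4_T e4_G6 (List.take 1 (List.flatMap (splitP 0) (List.drop 1 (applyObl d_T 2 [67,48,59,70] [0,0,0,0] [(67,0x800000000000000),(48,0x400000000000000000),(59,0x80000000000000000),(70,0x1000000000000)])))) :=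
  chkPq_sound e4_o20c _ (by decide +kernel)
noncomputable def e4_o21c : Pq := (Pq.cons (Pq.D 1 (Pq.cons (Pq.D 2 (Pq.cons (Pq.L [] 64 (Pf.C 4 386))
 (Pq.cons (Pq.D 3 (Pq.cons (Pq.L [] 128 (Pf.C 4 514))
 (Pq.cons (Pq.D 4 (Pq.cons (Pq.L [] 256 (Pf.C 4 642))
 (Pq.cons (Pq.D 5 (Pq.cons (Pq.D 6 (Pq.cons (Pq.L [] 0x136ef7 (Pf.C 1 0x202061c301))
 (Pq.cons (Pq.L [] 0x136ef7 (Pf.C 1 0x202061c301))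
 (Pq.cons (Pq.L [] 0x100030 (Pf.C 5 99201))
 (Pq.cons (Pq.L [0] 0x1c0000 (Pf.C 0 0x1c305))
 Pq.nil))))) (Pq.cons (Pq.L [] 0x40000 (Pf.C 2 773))
 (Pq.cons (Pq.D 6 (Pq.cons (Pq.L [] 0x100030 (Pf.C 5 0x1c301))
 (Pq.cons (Pq.L [] 0x40bc0 (Pf.W 115 2 [] [1,3,4,5,6,7] (Pf.cons (Pf.B 8 7 (Pf.B 8 6 (Pf.B 8 5 (Pf.B 8 4 (Pf.B 8 3 (Pf.B 8 1 (Pf.W 100 8 [] [2,3,4] (Pf.cons (Pf.B 9 2 (Pf.C 5 33928) (Pf.C 79 265)) (Pf.cons (Pf.B 9 4 (Pf.B 9 3 (Pf.B 9 2 (Pf.C 7 0x4040c409) (Pf.C 4 265)) (Pf.C 91 393)) (Pf.C 91 521)) Pf.nil))) (Pf.C 2 136)) (Pf.C 2 392)) (Pf.C 2 520)) (Pf.C 2 648)) (Pf.C 70 776)) (Pf.C 2 904)) (Pf.cons (Pf.B 8 6 (Pf.B 8 5 (Pf.C 80 648) (Pf.C 0 0xc08288)) (Pf.C 3 776)) Pf.nil))))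
 (Pq.cons (Pq.L [] 0x1c0700 (Pf.C 0 0xe18105))
 (Pq.cons (Pq.L [] 0x1c0700 (Pf.C 0 0xe18282))
 Pq.nil))))) (Pq.cons (Pq.L [] 0x40000 (Pf.C 73 773))
 Pq.nil))))) (Pq.cons (Pq.L [] 265 (Pf.C 5 33409))
 (Pq.cons (Pq.L [] 256 (Pf.C 4 642))
 Pq.nil))))) (Pq.cons (Pq.L [] 133 (Pf.C 5 33281))
 (Pq.cons (Pq.L [] 128 (Pf.C 4 514))
 Pq.nil))))) (Pq.cons (Pq.L [] 67 (Pf.C 5 33153))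
 (Pq.cons (Pq.L [] 64 (Pf.C 4 386))
 Pq.nil))))) (Pq.cons (Pq.D 2 (Pq.cons (Pq.D 3 (Pq.cons (Pq.D 4 (Pq.cons (Pq.D 5 (Pq.cons (Pq.L [] 0x40000 (Pf.C 4 773))
 (Pq.cons (Pq.D 6 (Pq.cons (Pq.L [] 0x136ef7 (Pf.C 1 0x202061c301))
 (Pq.cons (Pq.L [0] 0x106673 (Pf.C 1 0x103001c301))
 (Pq.cons (Pq.L [] 0x1dbb00 (Pf.W 115 5 [] [1,2,3,4,6,7] (Pf.cons (Pf.B 8 7 (Pf.B 8 6 (Pf.B 8 2 (Pf.B 8 1 (Pf.B 8 4 (Pf.B 8 3 (Pf.W 100 8 [] [2,5,6] (Pf.cons (Pf.B 9 5 (Pf.C 5 83080) (Pf.C 79 649)) (Pf.cons (Pf.B 9 6 (Pf.B 9 5 (Pf.B 9 2 (Pf.C 7 0x60a08409) (Pf.C 91 265)) (Pf.C 4 649)) (Pf.C 91 777)) Pf.nil))) (Pf.W 100 8 [] [3,5,6] (Pf.cons (Pf.B 9 5 (Pf.C 5 83080) (Pf.C 79 649)) (Pf.cons (Pf.B 9 6 (Pf.B 9 5 (Pf.B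 9 3 (Pf.C 7 0x31024305) (Pf.C 4 393)) (Pf.C 4 649)) (Pf.C 91 777)) Pf.nil)))) (Pf.B 8 3 (Pf.W 100 8 [] [4,5,6] (Pf.cons (Pf.B 9 5 (Pf.C 5 83080) (Pf.C 79 649)) (Pf.cons (Pf.B 9 6 (Pf.B 9 5 (Pf.B 9 4 (Pf.C 7 0x41024305) (Pf.C 4 521)) (Pf.C 4 649)) (Pf.C 91 777)) Pf.nil))) (Pf.C 7 0x4100c305))) (Pf.C 2 136)) (Pf.C 2 264)) (Pf.C 2 776)) (Pf.C 70 904)) (Pf.cons (Pf.B 8 7 (Pf.B 8 6 (Pf.C 80 776) (Pf.C 0 0xe14308)) (Pf.C 3 904)) Pf.nil))))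
 (Pq.cons (Pq.L [] 0x100000 (Pf.C 73 902))
 Pq.nil))))) (Pq.cons (Pq.L [] 0x40018 (Pf.C 5 82689))
 (Pq.cons (Pq.L [0] 0x40300 (Pf.C 0 98946))
 Pq.nil))))) (Pq.cons (Pq.L [] 256 (Pf.C 2 642))
 (Pq.cons (Pq.L [] 39360 (Pf.C 0 0x814103))
 (Pq.cons (Pq.L [] 39375 (Pf.C 7 0x4040c281))
 Pq.nil))))) (Pq.cons (Pq.L [] 128 (Pf.C 2 514))
 (Pq.cons (Pq.D 4 (Pq.cons (Pq.L [] 39360 (Pf.C 0 0xa10103))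
 (Pq.cons (Pq.L [] 256 (Pf.C 2 642))
 (Pq.cons (Pq.L [] 39360 (Pf.C 0 0xa0c104))
 (Pq.cons (Pq.L [] 256 (Pf.C 73 642))
 Pq.nil))))) (Pq.cons (Pq.L [] 128 (Pf.C 73 514))
 Pq.nil))))) (Pq.cons (Pq.L [] 64 (Pf.C 2 386))
 (Pq.cons (Pq.D 3 (Pq.cons (Pq.D 4 (Pq.cons (Pq.L [] 39360 (Pf.C 0 0xa0c104))
 (Pq.cons (Pq.L [] 256 (Pf.C 2 642))
 (Pq.cons (Pq.L [] 39360 (Pf.C 0 0xa10103))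
 (Pq.cons (Pq.L [] 256 (Pf.C 73 642))
 Pq.nil))))) (Pq.cons (Pq.L [] 128 (Pf.C 2 514))
 (Pq.cons (Pq.D 4 (Pq.cons (Pq.L [] 39360 (Pf.C 0 0x814103))
 (Pq.cons (Pq.L [] 256 (Pf.C 2 642))
 (Pq.cons (Pq.D 5 (Pq.cons (Pq.L [] 0x40018 (Pf.C 5 98945))
 (Pq.cons (Pq.D 6 (Pq.cons (Pq.L [] 0x1c8799 (Pf.W 102 2 [] [1,3,4,5,6,7] (Pf.cons (Pf.B 8 7 (Pf.C 5 0x1c402) (Pf.B 8 5 (Pf.B 8 6 (Pf.B 8 4 (Pf.B 8 3 (Pf.B 8 1 (Pf.W 108 8 [] [2,5,6] (Pf.cons (Pf.B 9 6 (Pf.B 9 5 (Pf.B 9 2 (Pf.C 6 0x60a08409) (Pf.C 2 265)) (Pf.C 70 649)) (Pf.C 2 777)) (Pf.cons (Pf.B 9 6 (Pf.C 5 0x24406) (Pf.C 93 777)) Pf.nil))) (Pf.C 6 0x60a08088)) (Pf.C 3 392)) (Pf.C 3 520)) (Pf.C 0 0xa1c308)) (Pf.C 3 648))) (Pf.cons (Pf.B 8 5 (Pf.C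 94 648) (Pf.B 8 4 (Pf.C 94 520) (Pf.C 0 0xa08404))) Pf.nil))))
 (Pq.cons (Pq.L [] 0x136ef7 (Pf.C 1 0x202061c301))
 (Pq.cons (Pq.L [] 0x136ef7 (Pf.C 1 0x202061c301))
 (Pq.cons (Pq.L [0] 0x1c703a (Pf.C 1 0x70218283))
 Pq.nil))))) (Pq.cons (Pq.L [] 0x40000 (Pf.C 3 773))
 (Pq.cons (Pq.D 6 (Pq.cons (Pq.L [] 0x1c0700 (Pf.C 0 0xe18282))
 (Pq.cons (Pq.L [] 0x106000 (Pf.C 5 98695))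
 (Pq.cons (Pq.L [] 0x40bc7 (Pf.W 102 2 [] [1,3,4,5,6,7] (Pf.cons (Pf.B 8 7 (Pf.B 8 6 (Pf.B 8 5 (Pf.B 8 4 (Pf.B 8 3 (Pf.B 8 1 (Pf.W 108 8 [] [2,3,4] (Pf.cons (Pf.B 9 4 (Pf.B 9 3 (Pf.B 9 2 (Pf.C 6 0x4040c409) (Pf.C 2 265)) (Pf.C 70 393)) (Pf.C 70 521)) (Pf.cons (Pf.B 9 2 (Pf.C 5 0x24402) (Pf.C 93 265)) Pf.nil))) (Pf.C 6 0x4040c088)) (Pf.C 3 392)) (Pf.C 3 520)) (Pf.C 3 648)) (Pf.C 83 776)) (Pf.C 3 904)) (Pf.cons (Pf.B 8 6 (Pf.B 8 5 (Pf.C 94 648) (Pf.C 0 0xc08288)) (Pf.C 4 776)) Pf.nil))))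
 (Pq.cons (Pq.L [0] 0x100030 (Pf.C 0 0x1c301))
 Pq.nil))))) Pq.nil))))) (Pq.cons (Pq.L [] 256 (Pf.C 73 642))
 Pq.nil))))) (Pq.cons (Pq.L [] 128 (Pf.C 73 514))
 Pq.nil))))) (Pq.cons (Pq.L [] 64 (Pf.C 73 386))
 Pq.nil))))) (Pq.cons (Pq.D 2 (Pq.cons (Pq.L [] 67 (Pf.C 5 49409))
 (Pq.cons (Pq.D 3 (Pq.cons (Pq.L [] 133 (Pf.C 5 65793))
 (Pq.cons (Pq.D 4 (Pq.cons (Pq.L [] 265 (Pf.C 5 82177))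
 (Pq.cons (Pq.D 5 (Pq.cons (Pq.D 6 (Pq.cons (Pq.L [0] 0x100600 (Pf.C 0 0x1c302))
 (Pq.cons (Pq.L [] 0x1c0000 (Pf.W 115 6 [] [1,2,3,4,5,7] (Pf.cons (Pf.B 8 7 (Pf.B 8 5 (Pf.B 8 4 (Pf.B 8 3 (Pf.B 8 2 (Pf.B 8 1 (Pf.W 100 8 [] [5,6,7] (Pf.cons (Pf.B 9 6 (Pf.C 5 99464) (Pf.C 79 777)) (Pf.cons (Pf.B 9 7 (Pf.B 9 6 (Pf.B 9 5 (Pf.C 7 0x70c14409) (Pf.C 91 649)) (Pf.C 4 777)) (Pf.C 91 905)) Pf.nil))) (Pf.C 2 136)) (Pf.C 70 264)) (Pf.C 2 392)) (Pf.C 2 520)) (Pf.C 2 648)) (Pf.C 2 904)) (Pf.cons (Pf.B 8 7 (Pf.C 80 904) (Pf.B 8 5 (Pf.C 80 648) (Pf.C 0 0xe18405))) Pf.nil))))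
 (Pq.cons (Pq.L [] 0x100030 (Pf.C 5 99201))
 (Pq.cons (Pq.L [] 0x1c0700 (Pf.C 0 0xe18282))
 Pq.nil))))) (Pq.cons (Pq.L [] 0x40000 (Pf.C 2 773))
 (Pq.cons (Pq.D 6 (Pq.cons (Pq.L [] 0x100030 (Pf.C 5 0x1c301))
 (Pq.cons (Pq.L [] 0x136ef7 (Pf.C 1 0x202061c301))
 (Pq.cons (Pq.L [] 0x136ef7 (Pf.C 1 0x202061c301))
 (Pq.cons (Pq.L [] 0x1dbb19 (Pf.W 102 5 [] [1,2,3,4,6,7] (Pf.cons (Pf.B 8 7 (Pf.B 8 6 (Pf.B 8 2 (Pf.B 8 1 (Pf.B 8 4 (Pf.B 8 3 (Pf.W 108 8 [] [2,5,6] (Pf.cons (Pf.B 9 6 (Pf.B 9 5 (Pf.B 9 2 (Pf.C 6 0x60a08409) (Pf.C 70 265)) (Pf.C 2 649)) (Pf.C 70 777)) (Pf.cons (Pf.B 9 5 (Pf.C 5 0x24405) (Pf.C 93 649)) Pf.nil))) (Pf.W 108 8 [] [3,5,6] (Pf.cons (Pf.B 9 6 (Pf.B 9 5 (Pf.B 9 3 (Pf.C 6 0x31024305)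 (Pf.C 2 393)) (Pf.C 2 649)) (Pf.C 70 777)) (Pf.cons (Pf.B 9 5 (Pf.C 5 0x24405) (Pf.C 93 649)) Pf.nil)))) (Pf.B 8 3 (Pf.W 108 8 [] [4,5,6] (Pf.cons (Pf.B 9 6 (Pf.B 9 5 (Pf.B 9 4 (Pf.C 6 0x41024305) (Pf.C 2 521)) (Pf.C 2 649)) (Pf.C 70 777)) (Pf.cons (Pf.B 9 5 (Pf.C 5 0x24405) (Pf.C 93 649)) Pf.nil))) (Pf.C 6 0x4100c305))) (Pf.C 6 0x60a08088)) (Pf.C 3 264)) (Pf.C 3 776)) (Pf.C 83 904)) (Pf.cons (Pf.B 8 7 (Pf.B 8 6 (Pf.C 94 776) (Pf.C 0 0xe14308)) (Pf.C 4 904)) Pf.nil))))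
 Pq.nil))))) (Pq.cons (Pq.L [] 0x40000 (Pf.C 73 773))
 Pq.nil))))) (Pq.cons (Pq.L [] 256 (Pf.C 3 642))
 (Pq.cons (Pq.L [] 39360 (Pf.C 0 0x814103))
 Pq.nil))))) (Pq.cons (Pq.L [] 128 (Pf.C 3 514))
 (Pq.cons (Pq.D 4 (Pq.cons (Pq.L [] 265 (Pf.C 5 82177))
 (Pq.cons (Pq.L [] 39360 (Pf.C 0 0xa10103))
 (Pq.cons (Pq.L [] 256 (Pf.C 3 642))
 (Pq.cons (Pq.L [] 39360 (Pf.C 0 0xa0c104))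
 Pq.nil))))) Pq.nil))))) (Pq.cons (Pq.L [] 64 (Pf.C 3 386))
 (Pq.cons (Pq.D 3 (Pq.cons (Pq.L [] 133 (Pf.C 5 65793))
 (Pq.cons (Pq.D 4 (Pq.cons (Pq.L [] 265 (Pf.C 5 82177))
 (Pq.cons (Pq.L [] 39360 (Pf.C 0 0xa0c104))
 (Pq.cons (Pq.L [] 256 (Pf.C 3 642))
 (Pq.cons (Pq.L [] 39360 (Pf.C 0 0xa10103))
 Pq.nil))))) (Pq.cons (Pq.L [] 128 (Pf.C 3 514))
 (Pq.cons (Pq.D 4 (Pq.cons (Pq.L [] 265 (Pf.C 5 82177))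
 (Pq.cons (Pq.L [] 39360 (Pf.C 0 0x814103))
 (Pq.cons (Pq.L [] 256 (Pf.C 3 642))
 (Pq.cons (Pq.D 5 (Pq.cons (Pq.L [0] 0x40300 (Pf.C 0 98946))
 (Pq.cons (Pq.L [] 0x40000 (Pf.C 73 646))
 (Pq.cons (Pq.D 6 (Pq.cons (Pq.L [] 0x100030 (Pf.C 5 0x1c301))
 (Pq.cons (Pq.L [] 0x1c8781 (Pf.W 110 2 [] [1,3,4,5,6,7] (Pf.cons (Pf.B 8 5 (Pf.C 73 648) (Pf.B 8 4 (Pf.C 73 520) (Pf.C 0 0xa08404))) (Pf.cons (Pf.B 8 7 (Pf.C 5 0x20107) (Pf.B 8 5 (Pf.B 8 6 (Pf.B 8 4 (Pf.B 8 3 (Pf.B 8 1 (Pf.C 5 0x20101) (Pf.W 116 8 [] [2,5,6] (Pf.cons (Pf.B 9 6 (Pf.C 5 0x20309) (Pf.C 72 777)) (Pf.cons (Pf.B 9 6 (Pf.B 9 5 (Pf.B 9 2 (Pf.C 8 0x60a08409) (Pf.C 3 265)) (Pf.C 83 649)) (Pf.C 3 777)) Pf.nil)))) (Pf.C 4 392)) (Pf.C 4 520))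 (Pf.C 0 0xa1c308)) (Pf.C 4 648))) Pf.nil))))
 (Pq.cons (Pq.L [] 0x136ec0 (Pf.C 8 0x4040c386))
 (Pq.cons (Pq.L [] 0x136ec0 (Pf.C 8 0x4040c386))
 Pq.nil))))) (Pq.cons (Pq.L [0] 0x40018 (Pf.C 0 98945))
 Pq.nil))))) Pq.nil))))) Pq.nil))))) Pq.nil))))) (Pq.cons (Pq.D 2 (Pq.cons (Pq.L [] 64 (Pf.C 4 386))
 (Pq.cons (Pq.L [] 64 (Pf.C 73 259))
 (Pq.cons (Pq.D 3 (Pq.cons (Pq.L [] 128 (Pf.C 4 514))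
 (Pq.cons (Pq.L [] 128 (Pf.C 73 260))
 (Pq.cons (Pq.D 4 (Pq.cons (Pq.L [] 256 (Pf.C 4 642))
 (Pq.cons (Pq.L [] 256 (Pf.C 73 261))
 (Pq.cons (Pq.D 5 (Pq.cons (Pq.L [] 0x40018 (Pf.C 5 98945))
 (Pq.cons (Pq.D 6 (Pq.cons (Pq.L [] 0x1c0700 (Pf.C 0 0xe18282))
 (Pq.cons (Pq.L [] 0x1c0700 (Pf.C 0 0xe18105))
 (Pq.cons (Pq.L [] 0x1c0038 (Pf.W 102 6 [] [1,2,3,4,5,7] (Pf.cons (Pf.B 8 7 (Pf.B 8 5 (Pf.B 8 4 (Pf.B 8 3 (Pf.B 8 2 (Pf.B 8 1 (Pf.W 108 8 [] [5,6,7] (Pf.cons (Pf.B 9 7 (Pf.B 9 6 (Pf.B 9 5 (Pf.C 6 0x70c14409) (Pf.C 70 649)) (Pf.C 2 777)) (Pf.C 70 905)) (Pf.cons (Pf.B 9 6 (Pf.C 5 0x24406) (Pf.C 93 777)) Pf.nil))) (Pf.C 6 0x70c14088)) (Pf.C 83 264)) (Pf.C 3 392)) (Pf.C 3 520)) (Pf.C 3 648)) (Pf.C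 3 904)) (Pf.cons (Pf.B 8 7 (Pf.C 94 904) (Pf.B 8 5 (Pf.C 94 648) (Pf.C 0 0xe18405))) Pf.nil))))
 (Pq.cons (Pq.L [0] 0x1c703a (Pf.C 1 0x70218283))
 Pq.nil))))) (Pq.cons (Pq.L [] 0x40000 (Pf.C 3 773))
 (Pq.cons (Pq.D 6 (Pq.cons (Pq.L [0] 0x1c0000 (Pf.C 0 0x1c305))
 (Pq.cons (Pq.L [] 0x106000 (Pf.C 5 98695))
 (Pq.cons (Pq.L [] 0x136ec0 (Pf.C 8 0x4040c386))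
 (Pq.cons (Pq.L [0] 0x100030 (Pf.C 0 0x1c301))
 Pq.nil))))) Pq.nil))))) (Pq.cons (Pq.L [0] 265 (Pf.C 0 82177))
 Pq.nil))))) (Pq.cons (Pq.L [0] 133 (Pf.C 0 65793))
 Pq.nil))))) (Pq.cons (Pq.L [0] 67 (Pf.C 0 49409))
 Pq.nil))))) Pq.nil))))) Pq.nil)
theorem e4_o21 : AllRef e4_T e4_G6 (List.take 1 (List.drop 1 (List.flatMap (splitP 0) (List.drop 1 (applyObl d_T 2 [67,48,59,70] [0,0,0,0] [(67,0x800000000000000),(48,0x400000000000000000),(59,0x80000000000000000),(70,0x1000000000000)]))))) :=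
  chkPq_sound e4_o21c _ (by decide +kernel)
noncomputable def e4_o22c : Pq := (Pq.cons (Pq.D 1 (Pq.cons (Pq.D 2 (Pq.cons (Pq.L [0] 67 (Pf.C 0 49409))
 (Pq.cons (Pq.D 3 (Pq.cons (Pq.L [0] 133 (Pf.C 0 65793))
 (Pq.cons (Pq.D 4 (Pq.cons (Pq.L [0] 265 (Pf.C 0 82177))
 (Pq.cons (Pq.D 5 (Pq.cons (Pq.D 6 (Pq.cons (Pq.L [0] 0x100030 (Pf.C 0 0x1c301))
 (Pq.cons (Pq.L [] 0x136ec0 (Pf.C 7 0x4040c386))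
 (Pq.cons (Pq.L [] 0x106000 (Pf.C 5 99203))
 (Pq.cons (Pq.L [0] 0x1c0000 (Pf.C 0 0x1c305))
 Pq.nil))))) (Pq.cons (Pq.L [] 0x40000 (Pf.C 2 773))
 (Pq.cons (Pq.D 6 (Pq.cons (Pq.L [0] 0x1c703a (Pf.C 1 0x70218283))
 (Pq.cons (Pq.L [] 0x40bc0 (Pf.W 115 2 [] [1,3,4,5,6,7] (Pf.cons (Pf.B 8 7 (Pf.B 8 6 (Pf.B 8 5 (Pf.B 8 4 (Pf.B 8 3 (Pf.B 8 1 (Pf.W 100 8 [] [2,3,4] (Pf.cons (Pf.B 9 2 (Pf.C 5 33928) (Pf.C 79 265)) (Pf.cons (Pf.B 9 4 (Pf.B 9 3 (Pf.B 9 2 (Pf.C 7 0x4040c409) (Pf.C 4 265)) (Pf.C 91 393)) (Pf.C 91 521)) Pf.nil))) (Pf.C 70 136)) (Pf.C 2 392)) (Pf.C 2 520)) (Pf.C 2 648)) (Pf.C 70 776)) (Pf.C 2 904)) (Pf.cons (Pf.B 8 6 (Pf.B 8 5 (Pf.C 80 648) (Pf.C 0 0xc08288)) (Pf.C 3 776)) Pf.nil))))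
 (Pq.cons (Pq.L [] 0x1c0700 (Pf.C 0 0xe18105))
 (Pq.cons (Pq.L [] 0x1c0700 (Pf.C 0 0xe18282))
 Pq.nil))))) (Pq.cons (Pq.L [] 0x40018 (Pf.C 5 98437))
 Pq.nil))))) (Pq.cons (Pq.L [] 256 (Pf.C 94 642))
 (Pq.cons (Pq.L [] 256 (Pf.C 4 642))
 Pq.nil))))) (Pq.cons (Pq.L [] 128 (Pf.C 94 514))
 (Pq.cons (Pq.L [] 128 (Pf.C 4 514))
 Pq.nil))))) (Pq.cons (Pq.L [] 64 (Pf.C 94 386))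
 (Pq.cons (Pq.L [] 64 (Pf.C 4 386))
 Pq.nil))))) (Pq.cons (Pq.D 2 (Pq.cons (Pq.D 3 (Pq.cons (Pq.D 4 (Pq.cons (Pq.D 5 (Pq.cons (Pq.L [0] 0x40018 (Pf.C 0 98945))
 (Pq.cons (Pq.D 6 (Pq.cons (Pq.L [] 0x136ec0 (Pf.C 7 0x4040c386))
 (Pq.cons (Pq.L [0] 0x106640 (Pf.C 7 0x608386))
 (Pq.cons (Pq.L [] 0x1dbb00 (Pf.W 115 5 [] [1,2,3,4,6,7] (Pf.cons (Pf.B 8 7 (Pf.B 8 6 (Pf.B 8 2 (Pf.B 8 1 (Pf.B 8 4 (Pf.B 8 3 (Pf.W 100 8 [] [2,5,6] (Pf.cons (Pf.B 9 5 (Pf.C 5 83080) (Pf.C 79 649)) (Pf.cons (Pf.B 9 6 (Pf.B 9 5 (Pf.B 9 2 (Pf.C 7 0x60a08409) (Pf.C 91 265)) (Pf.C 4 649)) (Pf.C 91 777)) Pf.nil))) (Pf.W 100 8 [] [3,5,6] (Pf.cons (Pf.B 9 5 (Pf.C 5 83080) (Pf.C 79 649)) (Pf.cons (Pf.B 9 6 (Pf.B 9 5 (Pf.B 9 3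 (Pf.C 7 0x31024305) (Pf.C 4 393)) (Pf.C 4 649)) (Pf.C 91 777)) Pf.nil)))) (Pf.B 8 3 (Pf.W 100 8 [] [4,5,6] (Pf.cons (Pf.B 9 5 (Pf.C 5 83080) (Pf.C 79 649)) (Pf.cons (Pf.B 9 6 (Pf.B 9 5 (Pf.B 9 4 (Pf.C 7 0x41024305) (Pf.C 4 521)) (Pf.C 4 649)) (Pf.C 91 777)) Pf.nil))) (Pf.C 7 0x4100c305))) (Pf.C 70 136)) (Pf.C 2 264)) (Pf.C 2 776)) (Pf.C 70 904)) (Pf.cons (Pf.B 8 7 (Pf.B 8 6 (Pf.C 80 776) (Pf.C 0 0xe14308)) (Pf.C 3 904)) Pf.nil))))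
 (Pq.cons (Pq.L [] 0x100030 (Pf.C 5 0x1c086))
 Pq.nil))))) (Pq.cons (Pq.L [] 0x40000 (Pf.C 94 773))
 (Pq.cons (Pq.L [0] 0x40300 (Pf.C 0 98946))
 Pq.nil))))) (Pq.cons (Pq.L [] 256 (Pf.C 2 642))
 (Pq.cons (Pq.L [] 39360 (Pf.C 0 0x814103))
 (Pq.cons (Pq.L [] 265 (Pf.C 5 82050))
 Pq.nil))))) (Pq.cons (Pq.L [] 128 (Pf.C 2 514))
 (Pq.cons (Pq.D 4 (Pq.cons (Pq.L [] 39360 (Pf.C 0 0xa10103))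
 (Pq.cons (Pq.L [] 256 (Pf.C 2 642))
 (Pq.cons (Pq.L [] 39360 (Pf.C 0 0xa0c104))
 (Pq.cons (Pq.L [] 265 (Pf.C 5 82050))
 Pq.nil))))) (Pq.cons (Pq.L [] 133 (Pf.C 5 65666))
 Pq.nil))))) (Pq.cons (Pq.L [] 64 (Pf.C 2 386))
 (Pq.cons (Pq.D 3 (Pq.cons (Pq.D 4 (Pq.cons (Pq.L [] 39360 (Pf.C 0 0xa0c104))
 (Pq.cons (Pq.L [] 256 (Pf.C 2 642))
 (Pq.cons (Pq.L [] 39360 (Pf.C 0 0xa10103))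
 (Pq.cons (Pq.L [] 265 (Pf.C 5 82050))
 Pq.nil))))) (Pq.cons (Pq.L [] 128 (Pf.C 2 514))
 (Pq.cons (Pq.D 4 (Pq.cons (Pq.L [] 39360 (Pf.C 0 0x814103))
 (Pq.cons (Pq.L [] 256 (Pf.C 2 642))
 (Pq.cons (Pq.D 5 (Pq.cons (Pq.L [] 0x40000 (Pf.C 94 646))
 (Pq.cons (Pq.D 6 (Pq.cons (Pq.L [] 0x1c8780 (Pf.W 102 2 [] [1,3,4,5,6,7] (Pf.cons (Pf.B 8 7 (Pf.C 5 0x1c402) (Pf.B 8 5 (Pf.B 8 6 (Pf.B 8 4 (Pf.B 8 3 (Pf.B 8 1 (Pf.W 108 8 [] [2,5,6] (Pf.cons (Pf.B 9 6 (Pf.B 9 5 (Pf.B 9 2 (Pf.C 6 0x60a08409) (Pf.C 2 265)) (Pf.C 70 649)) (Pf.C 2 777)) (Pf.cons (Pf.B 9 6 (Pf.C 5 0x24406) (Pf.C 93 777)) Pf.nil))) (Pf.C 3 136)) (Pf.C 3 392)) (Pf.C 3 520)) (Pf.C 0 0xa1c308)) (Pf.C 3 648))) (Pf.cons (Pf.B 8 5 (Pf.C 94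 648) (Pf.B 8 4 (Pf.C 94 520) (Pf.C 0 0xa08404))) Pf.nil))))
 (Pq.cons (Pq.L [] 0x136ef7 (Pf.C 1 0x202061c301))
 (Pq.cons (Pq.L [] 0x136ef7 (Pf.C 1 0x202061c301))
 (Pq.cons (Pq.L [] 0x100030 (Pf.C 5 0x1c086))
 Pq.nil))))) (Pq.cons (Pq.L [] 0x40000 (Pf.C 3 773))
 (Pq.cons (Pq.D 6 (Pq.cons (Pq.L [] 0x1c0700 (Pf.C 0 0xe18282))
 (Pq.cons (Pq.L [] 0x100030 (Pf.C 5 98439))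
 (Pq.cons (Pq.L [] 0x40bc0 (Pf.W 102 2 [] [1,3,4,5,6,7] (Pf.cons (Pf.B 8 7 (Pf.B 8 6 (Pf.B 8 5 (Pf.B 8 4 (Pf.B 8 3 (Pf.B 8 1 (Pf.W 108 8 [] [2,3,4] (Pf.cons (Pf.B 9 4 (Pf.B 9 3 (Pf.B 9 2 (Pf.C 6 0x4040c409) (Pf.C 2 265)) (Pf.C 70 393)) (Pf.C 70 521)) (Pf.cons (Pf.B 9 2 (Pf.C 5 0x24402) (Pf.C 93 265)) Pf.nil))) (Pf.C 3 136)) (Pf.C 3 392)) (Pf.C 3 520)) (Pf.C 3 648)) (Pf.C 83 776)) (Pf.C 3 904)) (Pf.cons (Pf.B 8 6 (Pf.B 8 5 (Pf.C 94 648) (Pf.C 0 0xc08288)) (Pf.C 4 776)) Pf.nil))))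
 (Pq.cons (Pq.L [0] 0x100600 (Pf.C 0 0x1c302))
 Pq.nil))))) Pq.nil))))) (Pq.cons (Pq.L [] 265 (Pf.C 5 82050))
 Pq.nil))))) (Pq.cons (Pq.L [] 133 (Pf.C 5 65666))
 Pq.nil))))) (Pq.cons (Pq.L [] 67 (Pf.C 5 49282))
 Pq.nil))))) (Pq.cons (Pq.D 2 (Pq.cons (Pq.L [] 64 (Pf.C 94 259))
 (Pq.cons (Pq.D 3 (Pq.cons (Pq.L [] 128 (Pf.C 94 260))
 (Pq.cons (Pq.D 4 (Pq.cons (Pq.L [] 256 (Pf.C 94 261))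
 (Pq.cons (Pq.D 5 (Pq.cons (Pq.D 6 (Pq.cons (Pq.L [0] 0x100030 (Pf.C 0 0x1c301))
 (Pq.cons (Pq.L [] 0x1c0000 (Pf.W 115 6 [] [1,2,3,4,5,7] (Pf.cons (Pf.B 8 7 (Pf.B 8 5 (Pf.B 8 4 (Pf.B 8 3 (Pf.B 8 2 (Pf.B 8 1 (Pf.W 100 8 [] [5,6,7] (Pf.cons (Pf.B 9 6 (Pf.C 5 99464) (Pf.C 79 777)) (Pf.cons (Pf.B 9 7 (Pf.B 9 6 (Pf.B 9 5 (Pf.C 7 0x70c14409) (Pf.C 91 649)) (Pf.C 4 777)) (Pf.C 91 905)) Pf.nil))) (Pf.C 70 136)) (Pf.C 70 264)) (Pf.C 2 392)) (Pf.C 2 520)) (Pf.C 2 648)) (Pf.C 2 904)) (Pf.cons (Pf.B 8 7 (Pf.C 80 904) (Pf.B 8 5 (Pf.C 80 648) (Pf.C 0 0xe18405))) Pf.nil))))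
 (Pq.cons (Pq.L [] 0x106000 (Pf.C 5 99203))
 (Pq.cons (Pq.L [] 0x1c0700 (Pf.C 0 0xe18282))
 Pq.nil))))) (Pq.cons (Pq.L [] 0x40000 (Pf.C 2 773))
 (Pq.cons (Pq.D 6 (Pq.cons (Pq.L [0] 0x1c703a (Pf.C 1 0x70218283))
 (Pq.cons (Pq.L [] 0x136ef7 (Pf.C 1 0x202061c301))
 (Pq.cons (Pq.L [] 0x136ef7 (Pf.C 1 0x202061c301))
 (Pq.cons (Pq.L [] 0x1dbb00 (Pf.W 102 5 [] [1,2,3,4,6,7] (Pf.cons (Pf.B 8 7 (Pf.B 8 6 (Pf.B 8 2 (Pf.B 8 1 (Pf.B 8 4 (Pf.B 8 3 (Pf.W 108 8 [] [2,5,6] (Pf.cons (Pf.B 9 6 (Pf.B 9 5 (Pf.B 9 2 (Pf.C 6 0x60a08409) (Pf.C 70 265)) (Pf.C 2 649)) (Pf.C 70 777)) (Pf.cons (Pf.B 9 5 (Pf.C 5 0x24405) (Pf.C 93 649)) Pf.nil))) (Pf.W 108 8 [] [3,5,6] (Pf.cons (Pf.B 9 6 (Pf.B 9 5 (Pf.B 9 3 (Pf.C 6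 0x31024305) (Pf.C 2 393)) (Pf.C 2 649)) (Pf.C 70 777)) (Pf.cons (Pf.B 9 5 (Pf.C 5 0x24405) (Pf.C 93 649)) Pf.nil)))) (Pf.B 8 3 (Pf.W 108 8 [] [4,5,6] (Pf.cons (Pf.B 9 6 (Pf.B 9 5 (Pf.B 9 4 (Pf.C 6 0x41024305) (Pf.C 2 521)) (Pf.C 2 649)) (Pf.C 70 777)) (Pf.cons (Pf.B 9 5 (Pf.C 5 0x24405) (Pf.C 93 649)) Pf.nil))) (Pf.C 6 0x4100c305))) (Pf.C 3 136)) (Pf.C 3 264)) (Pf.C 3 776)) (Pf.C 83 904)) (Pf.cons (Pf.B 8 7 (Pf.B 8 6 (Pf.C 94 776) (Pf.C 0 0xe14308)) (Pf.C 4 904)) Pf.nil))))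
 Pq.nil))))) (Pq.cons (Pq.L [] 0x40018 (Pf.C 5 98437))
 Pq.nil))))) (Pq.cons (Pq.L [] 256 (Pf.C 3 642))
 (Pq.cons (Pq.L [] 39360 (Pf.C 0 0x814103))
 Pq.nil))))) (Pq.cons (Pq.L [] 128 (Pf.C 3 514))
 (Pq.cons (Pq.D 4 (Pq.cons (Pq.L [] 256 (Pf.C 94 261))
 (Pq.cons (Pq.L [] 39360 (Pf.C 0 0xa10103))
 (Pq.cons (Pq.L [] 256 (Pf.C 3 642))
 (Pq.cons (Pq.L [] 39360 (Pf.C 0 0xa0c104))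
 Pq.nil))))) Pq.nil))))) (Pq.cons (Pq.L [] 64 (Pf.C 3 386))
 (Pq.cons (Pq.D 3 (Pq.cons (Pq.L [] 128 (Pf.C 94 260))
 (Pq.cons (Pq.D 4 (Pq.cons (Pq.L [] 256 (Pf.C 94 261))
 (Pq.cons (Pq.L [] 39360 (Pf.C 0 0xa0c104))
 (Pq.cons (Pq.L [] 256 (Pf.C 3 642))
 (Pq.cons (Pq.L [] 39360 (Pf.C 0 0xa10103))
 Pq.nil))))) (Pq.cons (Pq.L [] 128 (Pf.C 3 514))
 (Pq.cons (Pq.D 4 (Pq.cons (Pq.L [] 39375 (Pf.C 8 0x4040c281))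
 (Pq.cons (Pq.L [] 39360 (Pf.C 0 0x814103))
 (Pq.cons (Pq.L [] 256 (Pf.C 3 642))
 (Pq.cons (Pq.D 5 (Pq.cons (Pq.L [0] 0x40300 (Pf.C 0 98946))
 (Pq.cons (Pq.L [] 0x40018 (Pf.C 5 82054))
 (Pq.cons (Pq.D 6 (Pq.cons (Pq.L [] 0x100000 (Pf.C 94 775))
 (Pq.cons (Pq.L [] 0x1c8799 (Pf.W 110 2 [] [1,3,4,5,6,7] (Pf.cons (Pf.B 8 5 (Pf.C 73 648) (Pf.B 8 4 (Pf.C 73 520) (Pf.C 0 0xa08404))) (Pf.cons (Pf.B 8 7 (Pf.C 5 0x20107) (Pf.B 8 5 (Pf.B 8 6 (Pf.B 8 4 (Pf.B 8 3 (Pf.B 8 1 (Pf.W 116 8 [] [2,5,6] (Pf.cons (Pf.B 9 6 (Pf.C 5 0x20309) (Pf.C 72 777)) (Pf.cons (Pf.B 9 6 (Pf.B 9 5 (Pf.B 9 2 (Pf.C 8 0x60a08409) (Pf.C 3 265)) (Pf.C 83 649)) (Pf.C 3 777)) Pf.nil))) (Pf.C 8 0x60a08088)) (Pf.C 4 392)) (Pf.C 4 520))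 (Pf.C 0 0xa1c308)) (Pf.C 4 648))) Pf.nil))))
 (Pq.cons (Pq.L [0] 0x106673 (Pf.C 1 0x103001c301))
 (Pq.cons (Pq.L [] 0x136ef7 (Pf.C 1 0x202061c301))
 Pq.nil))))) (Pq.cons (Pq.L [] 0x40000 (Pf.C 4 773))
 Pq.nil))))) Pq.nil))))) Pq.nil))))) Pq.nil))))) (Pq.cons (Pq.D 2 (Pq.cons (Pq.L [] 64 (Pf.C 4 386))
 (Pq.cons (Pq.L [] 67 (Pf.C 5 32899))
 (Pq.cons (Pq.D 3 (Pq.cons (Pq.L [] 128 (Pf.C 4 514))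
 (Pq.cons (Pq.L [] 133 (Pf.C 5 32900))
 (Pq.cons (Pq.D 4 (Pq.cons (Pq.L [] 256 (Pf.C 4 642))
 (Pq.cons (Pq.L [] 265 (Pf.C 5 32901))
 (Pq.cons (Pq.D 5 (Pq.cons (Pq.L [] 0x40000 (Pf.C 94 646))
 (Pq.cons (Pq.D 6 (Pq.cons (Pq.L [] 0x1c0700 (Pf.C 0 0xe18282))
 (Pq.cons (Pq.L [] 0x1c0700 (Pf.C 0 0xe18105))
 (Pq.cons (Pq.L [] 0x1c0000 (Pf.W 102 6 [] [1,2,3,4,5,7] (Pf.cons (Pf.B 8 7 (Pf.B 8 5 (Pf.B 8 4 (Pf.B 8 3 (Pf.B 8 2 (Pf.B 8 1 (Pf.W 108 8 [] [5,6,7] (Pf.cons (Pf.B 9 7 (Pf.B 9 6 (Pf.B 9 5 (Pf.C 6 0x70c14409) (Pf.C 70 649)) (Pf.C 2 777)) (Pf.C 70 905)) (Pf.cons (Pf.B 9 6 (Pf.C 5 0x24406) (Pf.C 93 777)) Pf.nil))) (Pf.C 3 136)) (Pf.C 83 264)) (Pf.C 3 392)) (Pf.C 3 520)) (Pf.C 3 648)) (Pf.C 3 904))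 (Pf.cons (Pf.B 8 7 (Pf.C 94 904) (Pf.B 8 5 (Pf.C 94 648) (Pf.C 0 0xe18405))) Pf.nil))))
 (Pq.cons (Pq.L [] 0x100030 (Pf.C 5 0x1c086))
 Pq.nil))))) (Pq.cons (Pq.L [] 0x40000 (Pf.C 3 773))
 (Pq.cons (Pq.D 6 (Pq.cons (Pq.L [0] 0x1c0000 (Pf.C 0 0x1c305))
 (Pq.cons (Pq.L [] 0x100030 (Pf.C 5 98439))
 (Pq.cons (Pq.L [] 0x136ef7 (Pf.C 1 0x202061c301))
 (Pq.cons (Pq.L [] 0x136ef7 (Pf.C 1 0x202061c301))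
 Pq.nil))))) Pq.nil))))) (Pq.cons (Pq.L [] 256 (Pf.C 4 642))
 Pq.nil))))) (Pq.cons (Pq.L [] 128 (Pf.C 4 514))
 Pq.nil))))) (Pq.cons (Pq.L [] 64 (Pf.C 4 386))
 Pq.nil))))) Pq.nil))))) (Pq.cons (Pq.D 1 (Pq.cons (Pq.D 2 (Pq.cons (Pq.L [] 64 (Pf.C 4 386))
 (Pq.cons (Pq.D 3 (Pq.cons (Pq.L [] 128 (Pf.C 4 514))
 (Pq.cons (Pq.D 4 (Pq.cons (Pq.L [] 256 (Pf.C 4 642))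
 (Pq.cons (Pq.D 5 (Pq.cons (Pq.D 6 (Pq.cons (Pq.L [] 0x106673 (Pf.C 7 0x20604386))
 (Pq.cons (Pq.L [] 0x136ec0 (Pf.C 7 0x4040c386))
 (Pq.cons (Pq.L [] 0x106000 (Pf.C 5 99203))
 (Pq.cons (Pq.L [0] 0x1c0000 (Pf.C 0 0x1c305))
 Pq.nil))))) (Pq.cons (Pq.L [] 0x40000 (Pf.C 2 773))
 (Pq.cons (Pq.D 6 (Pq.cons (Pq.L [] 0x106000 (Pf.C 5 0x1c303))
 (Pq.cons (Pq.L [] 0x40bc0 (Pf.W 115 2 [] [1,3,4,5,6,7] (Pf.cons (Pf.B 8 7 (Pf.B 8 6 (Pf.B 8 5 (Pf.B 8 4 (Pf.B 8 3 (Pf.B 8 1 (Pf.C 69 136) (Pf.W 100 8 [] [2,3,4] (Pf.cons (Pf.B 9 2 (Pf.C 5 33928) (Pf.C 79 265)) (Pf.cons (Pf.B 9 4 (Pf.B 9 3 (Pf.B 9 2 (Pf.C 7 0x4040c409) (Pf.C 4 265)) (Pf.C 91 393)) (Pf.C 91 521)) Pf.nil)))) (Pf.C 2 392)) (Pf.C 2 520)) (Pf.C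 2 648)) (Pf.C 70 776)) (Pf.C 2 904)) (Pf.cons (Pf.B 8 6 (Pf.B 8 5 (Pf.C 80 648) (Pf.C 0 0xc08288)) (Pf.C 3 776)) Pf.nil))))
 (Pq.cons (Pq.L [] 0x1c0700 (Pf.C 0 0xe18105))
 (Pq.cons (Pq.L [] 0x1c0700 (Pf.C 0 0xe18282))
 Pq.nil))))) (Pq.cons (Pq.L [] 0x40000 (Pf.C 73 773))
 Pq.nil))))) (Pq.cons (Pq.L [] 256 (Pf.C 94 642))
 (Pq.cons (Pq.L [] 256 (Pf.C 4 642))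
 Pq.nil))))) (Pq.cons (Pq.L [] 128 (Pf.C 94 514))
 (Pq.cons (Pq.L [] 128 (Pf.C 4 514))
 Pq.nil))))) (Pq.cons (Pq.L [] 64 (Pf.C 94 386))
 (Pq.cons (Pq.L [] 64 (Pf.C 4 386))
 Pq.nil))))) (Pq.cons (Pq.D 2 (Pq.cons (Pq.D 3 (Pq.cons (Pq.D 4 (Pq.cons (Pq.D 5 (Pq.cons (Pq.L [] 0x40000 (Pf.C 4 773))
 (Pq.cons (Pq.D 6 (Pq.cons (Pq.L [] 0x136ec0 (Pf.C 7 0x4040c386))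
 (Pq.cons (Pq.L [0] 0x106640 (Pf.C 7 0x608386))
 (Pq.cons (Pq.L [] 0x1dbb00 (Pf.W 115 5 [] [1,2,3,4,6,7] (Pf.cons (Pf.B 8 7 (Pf.B 8 6 (Pf.B 8 2 (Pf.B 8 1 (Pf.C 69 136) (Pf.B 8 4 (Pf.B 8 3 (Pf.W 100 8 [] [2,5,6] (Pf.cons (Pf.B 9 5 (Pf.C 5 83080) (Pf.C 79 649)) (Pf.cons (Pf.B 9 6 (Pf.B 9 5 (Pf.B 9 2 (Pf.C 7 0x60a08409) (Pf.C 91 265)) (Pf.C 4 649)) (Pf.C 91 777)) Pf.nil))) (Pf.W 100 8 [] [3,5,6] (Pf.cons (Pf.B 9 5 (Pf.C 5 83080) (Pf.C 79 649)) (Pf.cons (Pf.B 9 6 (Pf.B 9 5 (Pf.B 9 3 (Pf.C 7 0x31024305) (Pf.C 4 393)) (Pf.C 4 649)) (Pf.C 91 777)) Pf.nil)))) (Pf.B 8 3 (Pf.W 100 8 [] [4,5,6] (Pf.cons (Pf.B 9 5 (Pf.C 5 83080) (Pf.C 79 649)) (Pf.cons (Pf.B 9 6 (Pf.B 9 5 (Pf.B 9 4 (Pf.C 7 0x41024305)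 (Pf.C 4 521)) (Pf.C 4 649)) (Pf.C 91 777)) Pf.nil))) (Pf.C 7 0x4100c305)))) (Pf.C 2 264)) (Pf.C 2 776)) (Pf.C 70 904)) (Pf.cons (Pf.B 8 7 (Pf.B 8 6 (Pf.C 80 776) (Pf.C 0 0xe14308)) (Pf.C 3 904)) Pf.nil))))
 (Pq.cons (Pq.L [] 0x100000 (Pf.C 73 902))
 Pq.nil))))) (Pq.cons (Pq.L [] 0x40000 (Pf.C 94 773))
 (Pq.cons (Pq.L [0] 0x40300 (Pf.C 0 98946))
 Pq.nil))))) (Pq.cons (Pq.L [] 256 (Pf.C 2 642))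
 (Pq.cons (Pq.L [] 39360 (Pf.C 0 0x814103))
 (Pq.cons (Pq.L [] 256 (Pf.C 73 642))
 Pq.nil))))) (Pq.cons (Pq.L [] 128 (Pf.C 2 514))
 (Pq.cons (Pq.D 4 (Pq.cons (Pq.L [] 39360 (Pf.C 0 0xa10103))
 (Pq.cons (Pq.L [] 256 (Pf.C 2 642))
 (Pq.cons (Pq.L [] 39360 (Pf.C 0 0xa0c104))
 (Pq.cons (Pq.L [] 256 (Pf.C 73 642))
 Pq.nil))))) (Pq.cons (Pq.L [] 128 (Pf.C 73 514))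
 Pq.nil))))) (Pq.cons (Pq.L [] 64 (Pf.C 2 386))
 (Pq.cons (Pq.D 3 (Pq.cons (Pq.D 4 (Pq.cons (Pq.L [] 39360 (Pf.C 0 0xa0c104))
 (Pq.cons (Pq.L [] 256 (Pf.C 2 642))
 (Pq.cons (Pq.L [] 39360 (Pf.C 0 0xa10103))
 (Pq.cons (Pq.L [] 256 (Pf.C 73 642))
 Pq.nil))))) (Pq.cons (Pq.L [] 128 (Pf.C 2 514))
 (Pq.cons (Pq.D 4 (Pq.cons (Pq.L [] 39360 (Pf.C 0 0x814103))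
 (Pq.cons (Pq.L [] 256 (Pf.C 2 642))
 (Pq.cons (Pq.D 5 (Pq.cons (Pq.L [] 0x40000 (Pf.C 94 646))
 (Pq.cons (Pq.D 6 (Pq.cons (Pq.L [] 0x1c8780 (Pf.W 102 2 [] [1,3,4,5,6,7] (Pf.cons (Pf.B 8 7 (Pf.C 5 0x1c402) (Pf.B 8 5 (Pf.B 8 6 (Pf.B 8 4 (Pf.B 8 3 (Pf.B 8 1 (Pf.W 108 8 [] [2,5,6] (Pf.cons (Pf.B 9 6 (Pf.B 9 5 (Pf.B 9 2 (Pf.C 6 0x60a08409) (Pf.C 2 265)) (Pf.C 70 649)) (Pf.C 2 777)) (Pf.cons (Pf.B 9 6 (Pf.C 5 0x24406) (Pf.C 93 777)) Pf.nil))) (Pf.C 83 136)) (Pf.C 3 392)) (Pf.C 3 520)) (Pf.C 0 0xa1c308)) (Pf.C 3 648))) (Pf.cons (Pf.B 8 5 (Pf.C 94 648) (Pf.B 8 4 (Pf.C 94 520) (Pf.C 0 0xa08404))) Pf.nil))))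
 (Pq.cons (Pq.L [] 0x136ec0 (Pf.C 6 0x4040c386))
 (Pq.cons (Pq.L [] 0x136ec0 (Pf.C 6 0x4040c386))
 (Pq.cons (Pq.L [] 0x106000 (Pf.C 5 0x1c186))
 Pq.nil))))) (Pq.cons (Pq.L [] 0x40000 (Pf.C 3 773))
 (Pq.cons (Pq.D 6 (Pq.cons (Pq.L [] 0x1c0700 (Pf.C 0 0xe18282))
 (Pq.cons (Pq.L [] 0x106000 (Pf.C 5 98695))
 (Pq.cons (Pq.L [] 0x40bc0 (Pf.W 102 2 [] [1,3,4,5,6,7] (Pf.cons (Pf.B 8 7 (Pf.B 8 6 (Pf.B 8 5 (Pf.B 8 4 (Pf.B 8 3 (Pf.B 8 1 (Pf.W 108 8 [] [2,3,4] (Pf.cons (Pf.B 9 4 (Pf.B 9 3 (Pf.B 9 2 (Pf.C 6 0x4040c409) (Pf.C 2 265)) (Pf.C 70 393)) (Pf.C 70 521)) (Pf.cons (Pf.B 9 2 (Pf.C 5 0x24402) (Pf.C 93 265)) Pf.nil))) (Pf.C 83 136)) (Pf.C 3 392)) (Pf.C 3 520)) (Pf.C 3 648)) (Pf.C 83 776)) (Pf.C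 3 904)) (Pf.cons (Pf.B 8 6 (Pf.B 8 5 (Pf.C 94 648) (Pf.C 0 0xc08288)) (Pf.C 4 776)) Pf.nil))))
 (Pq.cons (Pq.L [0] 0x100600 (Pf.C 0 0x1c302))
 Pq.nil))))) Pq.nil))))) (Pq.cons (Pq.L [] 256 (Pf.C 73 642))
 Pq.nil))))) (Pq.cons (Pq.L [] 128 (Pf.C 73 514))
 Pq.nil))))) (Pq.cons (Pq.L [] 64 (Pf.C 73 386))
 Pq.nil))))) (Pq.cons (Pq.D 2 (Pq.cons (Pq.L [] 64 (Pf.C 94 259))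
 (Pq.cons (Pq.D 3 (Pq.cons (Pq.L [] 128 (Pf.C 94 260))
 (Pq.cons (Pq.D 4 (Pq.cons (Pq.L [] 256 (Pf.C 94 261))
 (Pq.cons (Pq.D 5 (Pq.cons (Pq.D 6 (Pq.cons (Pq.L [] 0x136836 (Pf.C 7 0x4020c386))
 (Pq.cons (Pq.L [] 0x1c0000 (Pf.W 115 6 [] [1,2,3,4,5,7] (Pf.cons (Pf.B 8 7 (Pf.B 8 5 (Pf.B 8 4 (Pf.B 8 3 (Pf.B 8 2 (Pf.B 8 1 (Pf.C 69 136) (Pf.W 100 8 [] [5,6,7] (Pf.cons (Pf.B 9 6 (Pf.C 5 99464) (Pf.C 79 777)) (Pf.cons (Pf.B 9 7 (Pf.B 9 6 (Pf.B 9 5 (Pf.C 7 0x70c14409) (Pf.C 91 649)) (Pf.C 4 777)) (Pf.C 91 905)) Pf.nil)))) (Pf.C 70 264)) (Pf.C 2 392)) (Pf.C 2 520)) (Pf.C 2 648)) (Pf.C 2 904)) (Pf.cons (Pf.B 8 7 (Pf.C 80 904) (Pf.B 8 5 (Pf.C 80 648) (Pf.C 0 0xe18405))) Pf.nil))))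
 (Pq.cons (Pq.L [] 0x106000 (Pf.C 5 99203))
 (Pq.cons (Pq.L [] 0x1c0700 (Pf.C 0 0xe18282))
 Pq.nil))))) (Pq.cons (Pq.L [] 0x40000 (Pf.C 2 773))
 (Pq.cons (Pq.D 6 (Pq.cons (Pq.L [] 0x106000 (Pf.C 5 0x1c303))
 (Pq.cons (Pq.L [] 0x136ec0 (Pf.C 6 0x4040c386))
 (Pq.cons (Pq.L [] 0x136ec0 (Pf.C 6 0x4040c386))
 (Pq.cons (Pq.L [] 0x1dbb00 (Pf.W 102 5 [] [1,2,3,4,6,7] (Pf.cons (Pf.B 8 7 (Pf.B 8 6 (Pf.B 8 2 (Pf.B 8 1 (Pf.B 8 4 (Pf.B 8 3 (Pf.W 108 8 [] [2,5,6] (Pf.cons (Pf.B 9 6 (Pf.B 9 5 (Pf.B 9 2 (Pf.C 6 0x60a08409) (Pf.C 70 265)) (Pf.C 2 649)) (Pf.C 70 777)) (Pf.cons (Pf.B 9 5 (Pf.C 5 0x24405) (Pf.C 93 649)) Pf.nil))) (Pf.W 108 8 [] [3,5,6] (Pf.cons (Pf.B 9 6 (Pf.B 9 5 (Pf.B 9 3 (Pf.C 6 0x31024305)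 (Pf.C 2 393)) (Pf.C 2 649)) (Pf.C 70 777)) (Pf.cons (Pf.B 9 5 (Pf.C 5 0x24405) (Pf.C 93 649)) Pf.nil)))) (Pf.B 8 3 (Pf.W 108 8 [] [4,5,6] (Pf.cons (Pf.B 9 6 (Pf.B 9 5 (Pf.B 9 4 (Pf.C 6 0x41024305) (Pf.C 2 521)) (Pf.C 2 649)) (Pf.C 70 777)) (Pf.cons (Pf.B 9 5 (Pf.C 5 0x24405) (Pf.C 93 649)) Pf.nil))) (Pf.C 6 0x4100c305))) (Pf.C 83 136)) (Pf.C 3 264)) (Pf.C 3 776)) (Pf.C 83 904)) (Pf.cons (Pf.B 8 7 (Pf.B 8 6 (Pf.C 94 776) (Pf.C 0 0xe14308)) (Pf.C 4 904)) Pf.nil))))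
 Pq.nil))))) (Pq.cons (Pq.L [] 0x40000 (Pf.C 73 773))
 Pq.nil))))) (Pq.cons (Pq.L [] 256 (Pf.C 3 642))
 (Pq.cons (Pq.L [] 39360 (Pf.C 0 0x814103))
 Pq.nil))))) (Pq.cons (Pq.L [] 128 (Pf.C 3 514))
 (Pq.cons (Pq.D 4 (Pq.cons (Pq.L [] 256 (Pf.C 94 261))
 (Pq.cons (Pq.L [] 39360 (Pf.C 0 0xa10103))
 (Pq.cons (Pq.L [] 256 (Pf.C 3 642))
 (Pq.cons (Pq.L [] 39360 (Pf.C 0 0xa0c104))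
 Pq.nil))))) Pq.nil))))) (Pq.cons (Pq.L [] 64 (Pf.C 3 386))
 (Pq.cons (Pq.D 3 (Pq.cons (Pq.L [] 128 (Pf.C 94 260))
 (Pq.cons (Pq.D 4 (Pq.cons (Pq.L [] 256 (Pf.C 94 261))
 (Pq.cons (Pq.L [] 39360 (Pf.C 0 0xa0c104))
 (Pq.cons (Pq.L [] 256 (Pf.C 3 642))
 (Pq.cons (Pq.L [] 39360 (Pf.C 0 0xa10103))
 Pq.nil))))) (Pq.cons (Pq.L [] 128 (Pf.C 3 514))
 (Pq.cons (Pq.D 4 (Pq.cons (Pq.L [] 256 (Pf.C 94 261))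
 (Pq.cons (Pq.L [] 39360 (Pf.C 0 0x814103))
 (Pq.cons (Pq.L [] 256 (Pf.C 3 642))
 (Pq.cons (Pq.D 5 (Pq.cons (Pq.L [0] 0x40300 (Pf.C 0 98946))
 (Pq.cons (Pq.L [] 0x40000 (Pf.C 73 646))
 (Pq.cons (Pq.D 6 (Pq.cons (Pq.L [] 0x100000 (Pf.C 94 775))
 (Pq.cons (Pq.L [] 0x1c8780 (Pf.W 110 2 [] [1,3,4,5,6,7] (Pf.cons (Pf.B 8 5 (Pf.C 73 648) (Pf.B 8 4 (Pf.C 73 520) (Pf.C 0 0xa08404))) (Pf.cons (Pf.B 8 7 (Pf.C 5 0x20107) (Pf.B 8 5 (Pf.B 8 6 (Pf.B 8 4 (Pf.B 8 3 (Pf.B 8 1 (Pf.W 116 8 [] [2,5,6] (Pf.cons (Pf.B 9 6 (Pf.C 5 0x20309) (Pf.C 72 777)) (Pf.cons (Pf.B 9 6 (Pf.B 9 5 (Pf.B 9 2 (Pf.C 8 0x60a08409) (Pf.C 3 265)) (Pf.C 83 649)) (Pf.C 3 777)) Pf.nil))) (Pf.C 4 136)) (Pf.C 4 392)) (Pf.C 4 520)) (Pf.C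 0 0xa1c308)) (Pf.C 4 648))) Pf.nil))))
 (Pq.cons (Pq.L [] 0x136ef7 (Pf.C 1 0x202061c301))
 (Pq.cons (Pq.L [] 0x136ef7 (Pf.C 1 0x202061c301))
 Pq.nil))))) (Pq.cons (Pq.L [] 0x40000 (Pf.C 4 773))
 Pq.nil))))) Pq.nil))))) Pq.nil))))) Pq.nil))))) (Pq.cons (Pq.D 2 (Pq.cons (Pq.L [] 64 (Pf.C 4 386))
 (Pq.cons (Pq.L [] 64 (Pf.C 73 259))
 (Pq.cons (Pq.D 3 (Pq.cons (Pq.L [] 128 (Pf.C 4 514))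
 (Pq.cons (Pq.L [] 128 (Pf.C 73 260))
 (Pq.cons (Pq.D 4 (Pq.cons (Pq.L [] 256 (Pf.C 4 642))
 (Pq.cons (Pq.L [] 256 (Pf.C 73 261))
 (Pq.cons (Pq.D 5 (Pq.cons (Pq.L [] 0x40000 (Pf.C 94 646))
 (Pq.cons (Pq.D 6 (Pq.cons (Pq.L [] 0x1c0700 (Pf.C 0 0xe18282))
 (Pq.cons (Pq.L [] 0x100631 (Pf.C 0 0x41c301))
 (Pq.cons (Pq.L [] 0x1c0000 (Pf.W 102 6 [] [1,2,3,4,5,7] (Pf.cons (Pf.B 8 7 (Pf.B 8 5 (Pf.B 8 4 (Pf.B 8 3 (Pf.B 8 2 (Pf.B 8 1 (Pf.W 108 8 [] [5,6,7] (Pf.cons (Pf.B 9 7 (Pf.B 9 6 (Pf.B 9 5 (Pf.C 6 0x70c14409) (Pf.C 70 649)) (Pf.C 2 777)) (Pf.C 70 905)) (Pf.cons (Pf.B 9 6 (Pf.C 5 0x24406) (Pf.C 93 777)) Pf.nil))) (Pf.C 83 136)) (Pf.C 83 264)) (Pf.C 3 392)) (Pf.C 3 520)) (Pf.C 3 648)) (Pf.C 3 904))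 (Pf.cons (Pf.B 8 7 (Pf.C 94 904) (Pf.B 8 5 (Pf.C 94 648) (Pf.C 0 0xe18405))) Pf.nil))))
 (Pq.cons (Pq.L [] 0x106000 (Pf.C 5 0x1c186))
 Pq.nil))))) (Pq.cons (Pq.L [] 0x40000 (Pf.C 3 773))
 (Pq.cons (Pq.D 6 (Pq.cons (Pq.L [0] 0x1c0000 (Pf.C 0 0x1c305))
 (Pq.cons (Pq.L [] 0x106000 (Pf.C 5 98695))
 (Pq.cons (Pq.L [] 0x136ef7 (Pf.C 1 0x202061c301))
 (Pq.cons (Pq.L [] 0x136ef7 (Pf.C 1 0x202061c301))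
 Pq.nil))))) Pq.nil))))) (Pq.cons (Pq.L [] 256 (Pf.C 4 642))
 Pq.nil))))) (Pq.cons (Pq.L [] 128 (Pf.C 4 514))
 Pq.nil))))) (Pq.cons (Pq.L [] 64 (Pf.C 4 386))
 Pq.nil))))) Pq.nil))))) Pq.nil))
theorem e4_o22 : AllRef e4_T e4_G6 (List.drop 1 (List.drop 1 (List.flatMap (splitP 0) (List.drop 1 (applyObl d_T 2 [67,48,59,70] [0,0,0,0] [(67,0x800000000000000),(48,0x400000000000000000),(59,0x80000000000000000),(70,0x1000000000000)]))))) :=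
  chkPq_sound e4_o22c _ (by decide +kernel)
noncomputable def e4_o23c : Pq := (Pq.cons (Pq.L [0] 0 (Pf.B 4 2 (Pf.B 3 1 (Pf.B 4 3 (Pf.B 3 2 (Pf.W 140 3 [] [0,2,4] (Pf.cons (Pf.B 5 4 (Pf.C 5 66179) (Pf.B 5 2 (Pf.C 5 33411) (Pf.C 0 0x800282))) (Pf.cons (Pf.B 5 4 (Pf.B 5 2 (Pf.C 7 0x40008185) (Pf.C 4 261)) (Pf.C 4 517)) Pf.nil))) (Pf.B 2 1 (Pf.W 150 2 [] [0,3,4] (Pf.cons (Pf.C 2 5) (Pf.cons (Pf.B 5 4 (Pf.B 5 3 (Pf.C 5 66179) (Pf.C 0 33411)) (Pf.C 0 0x400284)) Pf.nil))) (Pf.W 150 2 [] [0,3,4] (Pf.cons (Pf.C 2 5) (Pf.cons (Pf.B 5 4 (Pf.B 5 3 (Pf.C 5 66179) (Pf.C 0 33411)) (Pf.C 0 0x400284)) Pf.nil))))) (Pf.B 4 1 (Pf.B 3 2 (Pf.B 2 1 (Pf.W 140 1 [] [0,2,4] (Pf.cons (Pf.B 5 4 (Pf.C 5 66177) (Pf.B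 5 2 (Pf.C 5 33409) (Pf.C 0 0x800282))) (Pf.cons (Pf.B 5 4 (Pf.B 5 2 (Pf.C 7 0x40008085) (Pf.C 4 261)) (Pf.C 4 517)) Pf.nil))) (Pf.W 150 2 [] [0,1,4] (Pf.cons (Pf.C 2 5) (Pf.cons (Pf.B 5 4 (Pf.B 5 1 (Pf.C 5 66177) (Pf.C 0 33409)) (Pf.C 0 0x400284)) Pf.nil)))) (Pf.B 2 1 (Pf.W 140 1 [] [0,2,4] (Pf.cons (Pf.B 5 4 (Pf.C 5 66177) (Pf.B 5 2 (Pf.C 5 33409) (Pf.C 0 0x800282))) (Pf.cons (Pf.B 5 4 (Pf.B 5 2 (Pf.C 7 0x40008085) (Pf.C 4 261)) (Pf.C 4 517)) Pf.nil))) (Pf.W 150 2 [] [0,1,4] (Pf.cons (Pf.C 2 5) (Pf.cons (Pf.B 5 4 (Pf.B 5 1 (Pf.C 5 66177) (Pf.C 0 33409)) (Pf.C 0 0x400284)) Pf.nil))))) (Pf.B 3 2 (Pf.W 150 4 [] [0,2,3] (Pf.cons (Pf.C 2 5) (Pf.cons (Pf.B 5 3 (Pf.B 5 2 (Pf.C 5 33411) (Pf.C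 0 0x800282)) (Pf.C 0 66179)) Pf.nil))) (Pf.B 2 1 (Pf.W 150 4 [] [0,1,2] (Pf.cons (Pf.C 2 5) (Pf.cons (Pf.B 5 2 (Pf.B 5 1 (Pf.C 5 33409) (Pf.C 0 66177)) (Pf.C 0 0x800282)) Pf.nil))) (Pf.W 150 2 [] [0,1,4] (Pf.cons (Pf.C 2 5) (Pf.cons (Pf.B 5 4 (Pf.B 5 1 (Pf.W 150 4 [] [0,1,5] (Pf.cons (Pf.C 2 6) (Pf.cons (Pf.B 6 5 (Pf.B 6 1 (Pf.W 9 81921 [] [6] (Pf.cons (Pf.B 7 6 (Pf.C 5 0x1c301) (Pf.B 7 5 (Pf.C 5 0x1c281) (Pf.C 0 0xc00385))) (Pf.cons (Pf.B 7 6 (Pf.B 7 5 (Pf.C 6 0x60014087) (Pf.C 3 647)) (Pf.C 3 775)) Pf.nil))) (Pf.C 0 66305)) (Pf.C 3 646)) Pf.nil))) (Pf.C 0 33409)) (Pf.C 0 0x400284)) Pf.nil))))))) (Pf.C 2 131)) (Pf.C 4 260)))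
 (Pq.cons (Pq.L [0] 3 (Pf.B 4 2 (Pf.B 3 1 (Pf.B 4 1 (Pf.B 3 2 (Pf.W 150 1 [] [0,2,3,4] (Pf.cons (Pf.C 2 5) (Pf.cons (Pf.B 5 4 (Pf.B 5 3 (Pf.B 5 2 (Pf.C 8 0x20214203) (Pf.C 3 261)) (Pf.C 0 0x200283)) (Pf.C 3 517)) Pf.nil))) (Pf.W 150 1 [] [0,3,4] (Pf.cons (Pf.C 2 5) (Pf.cons (Pf.B 5 4 (Pf.B 5 3 (Pf.W 150 3 [] [0,1,4,5] (Pf.cons (Pf.C 2 6) (Pf.cons (Pf.B 6 5 (Pf.B 6 4 (Pf.B 6 1 (Pf.C 8 0x40618281) (Pf.C 0 0xa00086)) (Pf.C 3 518)) (Pf.C 3 646)) Pf.nil))) (Pf.C 0 0x200283)) (Pf.C 3 517)) Pf.nil)))) (Pf.B 3 2 (Pf.W 150 1 [] [0,2,3] (Pf.cons (Pf.C 2 5) (Pf.cons (Pf.B 5 3 (Pf.B 5 2 (Pf.W 150 3 [] [0,1,2,5] (Pf.cons (Pf.C 2 6) (Pf.cons (Pf.B 6 5 (Pf.B 6 2 (Pf.B 6 1 (Pf.C 8 0x50208186) (Pf.C 0 0xa00086))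 (Pf.C 3 262)) (Pf.C 3 646)) Pf.nil))) (Pf.C 3 261)) (Pf.C 0 0x200283)) Pf.nil))) (Pf.W 150 1 [] [0,2,3,4] (Pf.cons (Pf.C 2 5) (Pf.cons (Pf.B 5 3 (Pf.B 5 2 (Pf.W 150 3 [] [0,1,2,4,5] (Pf.cons (Pf.C 2 6) (Pf.cons (Pf.B 6 5 (Pf.B 6 4 (Pf.B 6 2 (Pf.B 6 1 (Pf.W 146 2 [] [0,1,3,4,5,6] (Pf.cons (Pf.B 7 6 (Pf.B 7 5 (Pf.C 6 0x60014107) (Pf.B 7 1 (Pf.C 5 17159) (Pf.C 0 82055))) (Pf.B 7 3 (Pf.B 7 5 (Pf.C 5 49799) (Pf.B 7 1 (Pf.B 7 4 (Pf.W 140 7 [] [0,1,3,6] (Pf.cons (Pf.B 8 6 (Pf.B 8 3 (Pf.C 5 50183) (Pf.C 0 0xc00188)) (Pf.C 3 776)) (Pf.cons (Pf.B 8 3 (Pf.B 8 1 (Pf.C 7 0x30004388) (Pf.C 4 136)) (Pf.C 4 392)) Pf.nil))) (Pf.W 140 7 [] [0,2,3,4,6] (Pf.cons (Pf.B 8 6 (Pf.B 8 3 (Pf.C 5 50183) (Pf.C 0 0xc00188))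 (Pf.C 3 776)) (Pf.cons (Pf.B 8 4 (Pf.C 132 520) (Pf.B 8 2 (Pf.C 132 264) (Pf.C 0 0x81c402))) Pf.nil)))) (Pf.C 0 82055))) (Pf.C 0 98695))) (Pf.cons (Pf.B 7 3 (Pf.B 7 6 (Pf.B 7 1 (Pf.B 7 4 (Pf.W 150 7 [] [0,3,4,6] (Pf.cons (Pf.C 2 8) (Pf.cons (Pf.B 8 6 (Pf.B 8 4 (Pf.B 8 3 (Pf.C 8 0x60610388) (Pf.C 0 0xc00188)) (Pf.C 3 520)) (Pf.C 3 776)) Pf.nil))) (Pf.W 150 7 [] [0,2,3,6] (Pf.cons (Pf.C 2 8) (Pf.cons (Pf.B 8 6 (Pf.B 8 3 (Pf.B 8 2 (Pf.C 8 0x60608388) (Pf.C 3 264)) (Pf.C 0 0xc00188)) (Pf.C 3 776)) Pf.nil)))) (Pf.C 4 135)) (Pf.C 0 0x600307)) (Pf.C 4 391)) Pf.nil))) (Pf.C 0 0xa00086)) (Pf.C 3 262)) (Pf.C 3 518)) (Pf.C 3 646)) Pf.nil))) (Pf.C 3 261)) (Pf.C 0 0x200283)) Pf.nil))))) (Pf.C 4 131))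 (Pf.C 3 260)))
 (Pq.cons (Pq.L [0] 0 (Pf.B 4 3 (Pf.B 4 2 (Pf.B 4 1 (Pf.B 3 2 (Pf.B 3 1 (Pf.B 2 1 (Pf.W 150 1 [] [0,2,3,4] (Pf.cons (Pf.C 2 5) (Pf.cons (Pf.B 5 4 (Pf.C 125 517) (Pf.B 5 3 (Pf.B 5 2 (Pf.C 125 261) (Pf.W 150 3 [] [0,1,2,4,5] (Pf.cons (Pf.C 2 6) (Pf.cons (Pf.B 6 5 (Pf.B 6 4 (Pf.C 125 518) (Pf.B 6 2 (Pf.C 125 262) (Pf.B 6 1 (Pf.W 142 2 [] [0,1,3,4,5,6] (Pf.cons (Pf.B 7 6 (Pf.B 7 5 (Pf.B 7 3 (Pf.C 5 50050) (Pf.B 7 1 (Pf.C 5 17282) (Pf.B 7 4 (Pf.W 146 7 [] [0,1,2,3,4,5,6] (Pf.cons (Pf.B 8 4 (Pf.B 8 6 (Pf.C 6 0x40c00388) (Pf.B 8 5 (Pf.C 6 0x40a00388) (Pf.B 8 3 (Pf.B 8 2 (Pf.B 8 1 (Pf.W 140 8 [] [0,1,3,4,7] (Pf.cons (Pf.B 9 7 (Pf.B 9 4 (Pf.C 125 521) (Pf.C 6 0x1210407)) (Pf.C 3 905))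 (Pf.cons (Pf.B 9 3 (Pf.B 9 1 (Pf.C 7 0x30004409) (Pf.C 4 137)) (Pf.C 4 393)) Pf.nil))) (Pf.C 0 82056)) (Pf.C 2 264)) (Pf.C 0 98696)))) (Pf.C 2 520)) (Pf.cons (Pf.B 8 4 (Pf.C 5 0x20384) (Pf.C 135 520)) Pf.nil))) (Pf.W 146 7 [] [0,1,2,3,4,5,6] (Pf.cons (Pf.B 8 4 (Pf.B 8 2 (Pf.B 8 6 (Pf.C 6 0x20c00388) (Pf.B 8 5 (Pf.C 6 0x20a00388) (Pf.B 8 3 (Pf.B 8 1 (Pf.W 140 8 [] [0,1,3,6] (Pf.cons (Pf.B 9 6 (Pf.B 9 3 (Pf.C 5 50312) (Pf.C 0 0xc00189)) (Pf.C 3 777)) (Pf.cons (Pf.B 9 3 (Pf.B 9 1 (Pf.C 7 0x30004409) (Pf.C 4 137)) (Pf.C 4 393)) Pf.nil))) (Pf.C 0 82056)) (Pf.C 0 98696)))) (Pf.C 2 264)) (Pf.C 2 520)) (Pf.cons (Pf.B 8 2 (Pf.C 5 0x20382) (Pf.C 135 264)) Pf.nil)))))) (Pf.C 3 647)) (Pf.C 3 775))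 (Pf.cons (Pf.B 7 6 (Pf.B 7 5 (Pf.B 7 3 (Pf.B 7 1 (Pf.B 7 4 (Pf.W 142 4 [] [0,1,2,3,5,6,7] (Pf.cons (Pf.B 8 7 (Pf.C 5 0x1c404) (Pf.B 8 6 (Pf.B 8 5 (Pf.B 8 3 (Pf.C 5 50180) (Pf.B 8 1 (Pf.C 5 17412) (Pf.B 8 2 (Pf.W 146 8 [] [0,1,2,3,4,5,6,7] (Pf.cons (Pf.B 9 4 (Pf.B 9 6 (Pf.C 6 0x40c00409) (Pf.B 9 5 (Pf.C 6 0x40a00409) (Pf.B 9 3 (Pf.B 9 2 (Pf.B 9 1 (Pf.B 9 7 (Pf.W 140 9 [] [0,3,7] (Pf.cons (Pf.B 10 7 (Pf.C 5 0x1c509) (Pf.C 126 906)) (Pf.cons (Pf.B 10 7 (Pf.B 10 3 (Pf.C 7 0x7000c48a) (Pf.C 4 394)) (Pf.C 4 906)) Pf.nil))) (Pf.W 140 9 [] [0,4,7,8] (Pf.cons (Pf.B 10 8 (Pf.B 10 4 (Pf.C 125 522) (Pf.C 6 0x1410488)) (Pf.C 3 1034)) (Pf.cons (Pf.B 10 8 (Pf.C 132 1034) (Pf.B 10 7 (Pf.C 0 0xe2440a) (Pf.C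 4 906))) Pf.nil)))) (Pf.C 0 82057)) (Pf.C 2 265)) (Pf.C 0 98697)))) (Pf.C 2 521)) (Pf.cons (Pf.B 9 4 (Pf.C 5 0x24404) (Pf.C 135 521)) Pf.nil))) (Pf.W 146 8 [] [0,1,2,3,4,5,6,7] (Pf.cons (Pf.B 9 4 (Pf.B 9 6 (Pf.C 6 0x40c00409) (Pf.B 9 5 (Pf.C 6 0x40a00409) (Pf.B 9 3 (Pf.B 9 2 (Pf.B 9 7 (Pf.B 9 1 (Pf.W 140 9 [] [0,3,7] (Pf.cons (Pf.B 10 7 (Pf.C 5 0x1c509) (Pf.C 126 906)) (Pf.cons (Pf.B 10 7 (Pf.B 10 3 (Pf.C 7 0x7000c48a) (Pf.C 4 394)) (Pf.C 4 906)) Pf.nil))) (Pf.C 0 82057)) (Pf.C 0 0x420389)) (Pf.C 2 265)) (Pf.C 0 98697)))) (Pf.C 2 521)) (Pf.cons (Pf.B 9 4 (Pf.C 5 0x24404) (Pf.C 135 521)) Pf.nil)))))) (Pf.C 3 648)) (Pf.C 3 776))) (Pf.cons (Pf.B 8 7 (Pf.B 8 6 (Pf.B 8 5 (Pf.B 8 3 (Pf.B 8 1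 (Pf.B 8 2 (Pf.W 151 7 [] [0,1,2,3,4,5,6,8] (Pf.cons (Pf.B 9 6 (Pf.C 5 0x1c309) (Pf.B 9 5 (Pf.C 5 0x1c289) (Pf.B 9 4 (Pf.B 9 3 (Pf.B 9 2 (Pf.B 9 8 (Pf.B 9 1 (Pf.W 140 9 [] [0,7,8] (Pf.cons (Pf.B 10 8 (Pf.C 5 0x20509) (Pf.C 126 1034)) (Pf.cons (Pf.B 10 8 (Pf.B 10 7 (Pf.C 7 0x8001c48a) (Pf.C 4 906)) (Pf.C 4 1034)) Pf.nil))) (Pf.C 0 82057)) (Pf.C 7 0x41024382)) (Pf.C 2 265)) (Pf.C 0 98697)) (Pf.C 2 521)))) (Pf.cons (Pf.B 9 6 (Pf.B 9 5 (Pf.B 9 4 (Pf.C 127 521) (Pf.B 9 2 (Pf.C 127 265) (Pf.B 9 3 (Pf.B 9 1 (Pf.W 145 9 [] [0] (Pf.cons (Pf.C 2 10) (Pf.cons (Pf.C 5 0x28480) Pf.nil))) (Pf.C 8 0x50224303)) (Pf.B 9 1 (Pf.C 8 0x60624281) (Pf.W 145 9 [] [0] (Pf.cons (Pf.C 2 10) (Pf.cons (Pf.C 5 0x28480)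 Pf.nil))))))) (Pf.C 3 649)) (Pf.C 3 777)) Pf.nil))) (Pf.W 151 8 [] [0,1,2,3,4,5,6] (Pf.cons (Pf.B 9 6 (Pf.C 5 0x20309) (Pf.B 9 5 (Pf.C 5 0x20289) (Pf.B 9 4 (Pf.B 9 3 (Pf.B 9 2 (Pf.B 9 1 (Pf.W 140 9 [] [0,4,8] (Pf.cons (Pf.B 10 8 (Pf.C 5 0x20509) (Pf.C 126 1034)) (Pf.cons (Pf.B 10 8 (Pf.B 10 4 (Pf.C 7 0x101048a) (Pf.C 133 522)) (Pf.C 4 1034)) Pf.nil))) (Pf.C 0 82057)) (Pf.C 2 265)) (Pf.C 0 98697)) (Pf.C 2 521)))) (Pf.cons (Pf.B 9 4 (Pf.C 127 521) (Pf.B 9 2 (Pf.C 127 265) (Pf.C 0 0x820482))) Pf.nil)))) (Pf.C 4 136)) (Pf.C 4 392)) (Pf.C 126 1029)) (Pf.C 126 1030)) (Pf.C 4 904)) Pf.nil))) (Pf.W 151 7 [] [0,1,2,3,4,5,6] (Pf.cons (Pf.B 8 6 (Pf.C 5 0x1c308) (Pf.B 8 5 (Pf.C 5 0x1c288) (Pf.B 8 4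 (Pf.B 8 3 (Pf.B 8 2 (Pf.B 8 1 (Pf.W 140 8 [] [0,4,7] (Pf.cons (Pf.B 9 7 (Pf.C 5 0x1c488) (Pf.C 126 905)) (Pf.cons (Pf.B 9 7 (Pf.B 9 4 (Pf.C 7 0xe10409) (Pf.C 133 521)) (Pf.C 4 905)) Pf.nil))) (Pf.C 0 82056)) (Pf.C 2 264)) (Pf.C 0 98696)) (Pf.C 2 520)))) (Pf.cons (Pf.B 8 4 (Pf.C 127 520) (Pf.B 8 2 (Pf.C 127 264) (Pf.C 0 0x81c402))) Pf.nil)))) (Pf.C 4 135)) (Pf.C 4 391)) (Pf.C 126 901)) (Pf.C 126 902)) Pf.nil))) (Pf.C 0 0xa00086)))) (Pf.C 3 646)) Pf.nil)))) (Pf.C 0 0x200283))) Pf.nil))) (Pf.C 135 257)) (Pf.C 4 131)) (Pf.C 135 259)) (Pf.C 135 513)) (Pf.C 2 260)) (Pf.C 135 515)))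
 (Pq.cons (Pq.L [0] 0x392008 (Pf.W 151 8 [] [0,1,3,5,6,7] (Pf.cons (Pf.B 9 7 (Pf.C 5 0x20389) (Pf.B 9 5 (Pf.C 5 0x20289) (Pf.B 9 3 (Pf.C 5 0x20189) (Pf.B 9 1 (Pf.C 5 0x20089) (Pf.B 9 6 (Pf.B 9 4 (Pf.B 9 2 (Pf.W 140 9 [] [0,6,8] (Pf.cons (Pf.B 10 8 (Pf.C 5 0x20509) (Pf.C 126 1034)) (Pf.cons (Pf.B 10 8 (Pf.B 10 6 (Pf.C 7 0x8001848a) (Pf.C 4 778)) (Pf.C 4 1034)) Pf.nil))) (Pf.W 140 9 [] [0,6,8] (Pf.cons (Pf.B 10 8 (Pf.C 5 0x20509) (Pf.C 126 1034)) (Pf.cons (Pf.B 10 8 (Pf.B 10 6 (Pf.C 7 0x8001848a) (Pf.C 4 778)) (Pf.C 4 1034)) Pf.nil)))) (Pf.B 9 2 (Pf.W 140 9 [] [0,6,8] (Pf.cons (Pf.B 10 8 (Pf.C 5 0x20509) (Pf.C 126 1034)) (Pf.cons (Pf.B 10 8 (Pf.B 10 6 (Pf.C 7 0x8001848a) (Pf.C 4 778)) (Pf.C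 4 1034)) Pf.nil))) (Pf.W 140 9 [] [0,6,8] (Pf.cons (Pf.B 10 8 (Pf.C 5 0x20509) (Pf.C 126 1034)) (Pf.cons (Pf.B 10 8 (Pf.B 10 6 (Pf.C 7 0x8001848a) (Pf.C 4 778)) (Pf.C 4 1034)) Pf.nil))))) (Pf.B 9 4 (Pf.B 9 2 (Pf.W 140 9 [] [5,7,8] (Pf.cons (Pf.B 10 8 (Pf.C 5 0x20509) (Pf.C 126 1034)) (Pf.cons (Pf.B 10 7 (Pf.C 132 906) (Pf.B 10 5 (Pf.C 132 650) (Pf.C 0 0xe24505))) Pf.nil))) (Pf.W 140 9 [] [5,7,8] (Pf.cons (Pf.B 10 8 (Pf.C 5 0x20509) (Pf.C 126 1034)) (Pf.cons (Pf.B 10 7 (Pf.C 132 906) (Pf.B 10 5 (Pf.C 132 650) (Pf.C 0 0xe24505))) Pf.nil)))) (Pf.B 9 2 (Pf.W 140 9 [] [5,7,8] (Pf.cons (Pf.B 10 8 (Pf.C 5 0x20509) (Pf.C 126 1034)) (Pf.cons (Pf.B 10 7 (Pf.C 132 906) (Pf.B 10 5 (Pf.C 132 650) (Pf.C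 0 0xe24505))) Pf.nil))) (Pf.W 140 9 [] [5,7,8] (Pf.cons (Pf.B 10 8 (Pf.C 5 0x20509) (Pf.C 126 1034)) (Pf.cons (Pf.B 10 7 (Pf.C 132 906) (Pf.B 10 5 (Pf.C 132 650) (Pf.C 0 0xe24505))) Pf.nil)))))))))) (Pf.cons (Pf.B 9 7 (Pf.B 9 5 (Pf.B 9 3 (Pf.B 9 1 (Pf.B 9 6 (Pf.B 9 4 (Pf.B 9 2 (Pf.W 145 9 [] [0] (Pf.cons (Pf.C 2 10) (Pf.cons (Pf.C 5 0x28480) Pf.nil))) (Pf.W 145 9 [] [0] (Pf.cons (Pf.C 2 10) (Pf.cons (Pf.C 5 0x28480) Pf.nil)))) (Pf.B 9 2 (Pf.W 145 9 [] [0] (Pf.cons (Pf.C 2 10) (Pf.cons (Pf.C 5 0x28480) Pf.nil))) (Pf.W 145 9 [] [0] (Pf.cons (Pf.C 2 10) (Pf.cons (Pf.C 5 0x28480) Pf.nil))))) (Pf.B 9 4 (Pf.B 9 2 (Pf.W 145 9 [] [0] (Pf.cons (Pf.C 2 10) (Pf.cons (Pf.C 5 0x28480) Pf.nil))) (Pf.W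 145 9 [] [0] (Pf.cons (Pf.C 2 10) (Pf.cons (Pf.C 5 0x28480) Pf.nil)))) (Pf.B 9 2 (Pf.W 145 9 [] [0] (Pf.cons (Pf.C 2 10) (Pf.cons (Pf.C 5 0x28480) Pf.nil))) (Pf.W 145 9 [] [0] (Pf.cons (Pf.C 2 10) (Pf.cons (Pf.C 5 0x28480) Pf.nil)))))) (Pf.C 3 137)) (Pf.C 3 393)) (Pf.C 3 649)) (Pf.C 3 905)) Pf.nil))))
 (Pq.cons (Pq.L [0] 4095 (Pf.B 5 4 (Pf.B 3 2 (Pf.W 146 1 [] [0,2,3,4,5,6] (Pf.cons (Pf.B 7 6 (Pf.B 7 5 (Pf.C 5 98951) (Pf.B 7 4 (Pf.B 7 3 (Pf.C 5 65927) (Pf.B 7 2 (Pf.W 140 7 [] [0,4,6] (Pf.cons (Pf.B 8 6 (Pf.C 5 99335) (Pf.C 126 776)) (Pf.cons (Pf.B 8 6 (Pf.B 8 4 (Pf.C 7 0x60010388) (Pf.C 4 520)) (Pf.C 4 776)) Pf.nil))) (Pf.W 140 7 [] [0,4,6] (Pf.cons (Pf.B 8 6 (Pf.C 5 99335) (Pf.C 126 776))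 (Pf.cons (Pf.B 8 6 (Pf.B 8 4 (Pf.C 7 0x60010388) (Pf.C 4 520)) (Pf.C 4 776)) Pf.nil))))) (Pf.B 7 3 (Pf.B 7 2 (Pf.C 5 33159) (Pf.W 140 7 [] [1,4,6] (Pf.cons (Pf.B 8 6 (Pf.C 5 99335) (Pf.C 126 776)) (Pf.cons (Pf.B 8 4 (Pf.B 8 1 (Pf.C 132 136) (Pf.C 0 0x81c088)) (Pf.C 4 520)) Pf.nil)))) (Pf.B 7 2 (Pf.W 140 7 [] [3,5,6] (Pf.cons (Pf.B 8 6 (Pf.C 5 99335) (Pf.C 126 776)) (Pf.cons (Pf.B 8 5 (Pf.C 132 648) (Pf.B 8 3 (Pf.C 132 392) (Pf.C 0 0xa1c403))) Pf.nil))) (Pf.W 140 7 [] [3,5,6] (Pf.cons (Pf.B 8 6 (Pf.C 5 99335) (Pf.C 126 776)) (Pf.cons (Pf.B 8 5 (Pf.C 132 648) (Pf.B 8 3 (Pf.C 132 392) (Pf.C 0 0xa1c403))) Pf.nil))))))) (Pf.B 7 4 (Pf.B 7 3 (Pf.C 5 65927) (Pf.C 0 0x218383)) (Pf.C 0 0xc04384)))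 (Pf.cons (Pf.B 7 6 (Pf.B 7 4 (Pf.B 7 5 (Pf.B 7 2 (Pf.B 7 3 (Pf.W 150 7 [] [0,1,3,6] (Pf.cons (Pf.C 2 8) (Pf.cons (Pf.B 8 6 (Pf.B 8 3 (Pf.B 8 1 (Pf.C 8 0x30c04388) (Pf.C 3 136)) (Pf.C 3 392)) (Pf.C 126 776)) Pf.nil))) (Pf.W 150 7 [] [0,1,4,6] (Pf.cons (Pf.C 2 8) (Pf.cons (Pf.B 8 6 (Pf.B 8 4 (Pf.B 8 1 (Pf.C 8 0x60210388) (Pf.C 3 136)) (Pf.C 126 520)) (Pf.C 126 776)) Pf.nil)))) (Pf.C 4 263)) (Pf.C 8 0x60210287)) (Pf.C 4 519)) (Pf.C 4 775)) Pf.nil))) (Pf.W 146 1 [] [0,2,3,4,5,6] (Pf.cons (Pf.B 7 6 (Pf.B 7 5 (Pf.C 5 98951) (Pf.B 7 4 (Pf.B 7 3 (Pf.C 5 65927) (Pf.B 7 2 (Pf.W 140 7 [] [0,4,6] (Pf.cons (Pf.B 8 6 (Pf.C 5 99335) (Pf.C 126 776)) (Pf.cons (Pf.B 8 6 (Pf.B 8 4 (Pf.C 7 0x60010388) (Pf.C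 4 520)) (Pf.C 4 776)) Pf.nil))) (Pf.W 140 7 [] [0,4,6] (Pf.cons (Pf.B 8 6 (Pf.C 5 99335) (Pf.C 126 776)) (Pf.cons (Pf.B 8 6 (Pf.B 8 4 (Pf.C 7 0x60010388) (Pf.C 4 520)) (Pf.C 4 776)) Pf.nil))))) (Pf.B 7 3 (Pf.B 7 2 (Pf.W 140 7 [] [0,2,6] (Pf.cons (Pf.B 8 6 (Pf.C 5 99335) (Pf.C 126 776)) (Pf.cons (Pf.B 8 6 (Pf.B 8 2 (Pf.C 7 0x60008388) (Pf.C 4 264)) (Pf.C 4 776)) Pf.nil))) (Pf.W 140 7 [] [1,4,6] (Pf.cons (Pf.B 8 6 (Pf.C 5 99335) (Pf.C 126 776)) (Pf.cons (Pf.B 8 4 (Pf.B 8 1 (Pf.C 132 136) (Pf.C 0 0x81c088)) (Pf.C 4 520)) Pf.nil)))) (Pf.B 7 2 (Pf.W 140 7 [] [3,5,6] (Pf.cons (Pf.B 8 6 (Pf.C 5 99335) (Pf.C 126 776)) (Pf.cons (Pf.B 8 5 (Pf.C 132 648) (Pf.B 8 3 (Pf.C 132 392) (Pf.C 0 0xa1c403)))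 Pf.nil))) (Pf.W 140 7 [] [3,5,6] (Pf.cons (Pf.B 8 6 (Pf.C 5 99335) (Pf.C 126 776)) (Pf.cons (Pf.B 8 5 (Pf.C 132 648) (Pf.B 8 3 (Pf.C 132 392) (Pf.C 0 0xa1c403))) Pf.nil))))))) (Pf.B 7 4 (Pf.B 7 3 (Pf.C 5 65927) (Pf.C 0 0x218383)) (Pf.C 0 0xc04384))) (Pf.cons (Pf.B 7 6 (Pf.B 7 4 (Pf.B 7 5 (Pf.B 7 2 (Pf.B 7 3 (Pf.W 150 7 [] [0,2,3,6] (Pf.cons (Pf.C 2 8) (Pf.cons (Pf.B 8 6 (Pf.B 8 3 (Pf.B 8 2 (Pf.C 8 0x60608388) (Pf.C 126 264)) (Pf.C 3 392)) (Pf.C 126 776)) Pf.nil))) (Pf.C 8 0x2061c201)) (Pf.C 4 263)) (Pf.C 8 0x60210287)) (Pf.C 4 519)) (Pf.C 4 775)) Pf.nil)))) (Pf.W 146 1 [] [0,2,3,4,5,6] (Pf.cons (Pf.B 7 6 (Pf.B 7 5 (Pf.C 5 98951) (Pf.B 7 4 (Pf.B 7 3 (Pf.C 5 65927) (Pf.B 7 2 (Pf.W 140 7 []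 [0,4,6] (Pf.cons (Pf.B 8 6 (Pf.C 5 99335) (Pf.C 126 776)) (Pf.cons (Pf.B 8 6 (Pf.B 8 4 (Pf.C 7 0x60010388) (Pf.C 4 520)) (Pf.C 4 776)) Pf.nil))) (Pf.W 140 7 [] [0,4,6] (Pf.cons (Pf.B 8 6 (Pf.C 5 99335) (Pf.C 126 776)) (Pf.cons (Pf.B 8 6 (Pf.B 8 4 (Pf.C 7 0x60010388) (Pf.C 4 520)) (Pf.C 4 776)) Pf.nil))))) (Pf.C 0 0xa10381))) (Pf.B 7 4 (Pf.B 7 3 (Pf.C 5 65927) (Pf.C 0 0x218383)) (Pf.C 0 0xc04384))) (Pf.cons (Pf.B 7 6 (Pf.B 7 4 (Pf.B 7 2 (Pf.B 7 5 (Pf.B 7 3 (Pf.W 150 7 [] [0,1,4,5] (Pf.cons (Pf.C 2 8) (Pf.cons (Pf.B 8 5 (Pf.B 8 4 (Pf.B 8 1 (Pf.C 8 0x50804388) (Pf.C 3 136)) (Pf.C 126 520)) (Pf.C 3 648)) Pf.nil))) (Pf.C 8 0x50804187)) (Pf.B 7 3 (Pf.C 8 0x10c0c287) (Pf.W 150 7 [] [0,1,4,6] (Pf.cons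 (Pf.C 2 8) (Pf.cons (Pf.B 8 6 (Pf.B 8 4 (Pf.B 8 1 (Pf.C 8 0x60210388) (Pf.C 3 136)) (Pf.C 126 520)) (Pf.C 126 776)) Pf.nil))))) (Pf.C 4 263)) (Pf.C 4 519)) (Pf.C 4 775)) Pf.nil)))))
 (Pq.cons (Pq.L [] 4 (Pf.C 4 514))
 (Pq.cons (Pq.L [] 4 (Pf.C 3 385))
 Pq.nil)))))))
theorem e4_o23 : AllRef e4_T e4_G7 (hitObl [74,76,83,90,91] e4_h22) :=
  chkPq_sound e4_o23c _ (by decide +kernel)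
noncomputable def e4_o24c : Pq := (Pq.cons (Pq.L [0] 0 (Pf.C 2 1))
 (Pq.cons (Pq.L [0] 0 (Pf.W 145 1 [] [0] (Pf.cons (Pf.C 2 2) (Pf.cons (Pf.C 5 32896) Pf.nil))))
 (Pq.cons (Pq.L [0] 0 (Pf.W 141 1 [] [0] (Pf.cons (Pf.W 145 2 [] [0] (Pf.cons (Pf.C 2 3) (Pf.cons (Pf.C 5 49408) Pf.nil))) (Pf.cons (Pf.W 150 2 [] [0,1] (Pf.cons (Pf.C 2 3) (Pf.cons (Pf.B 3 1 (Pf.C 125 131) (Pf.C 0 33153)) Pf.nil))) Pf.nil))))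
 (Pq.cons (Pq.L [0] 0 (Pf.W 147 1 [] [0] (Pf.cons (Pf.W 141 2 [] [0,1] (Pf.cons (Pf.B 3 1 (Pf.W 145 3 [] [0] (Pf.cons (Pf.C 2 4) (Pf.cons (Pf.C 5 65920) Pf.nil))) (Pf.C 3 131)) (Pf.cons (Pf.B 3 1 (Pf.C 134 131) (Pf.W 150 3 [] [0,2] (Pf.cons (Pf.C 2 4) (Pf.cons (Pf.B 4 2 (Pf.C 125 260) (Pf.C 0 49666)) Pf.nil)))) Pf.nil))) (Pf.cons (Pf.W 151 2 [] [0,1] (Pf.cons (Pf.B 3 1 (Pf.C 5 32899) (Pf.C 120 131)) (Pf.cons (Pf.B 3 1 (Pf.W 145 3 [] [0] (Pf.cons (Pf.C 2 4) (Pf.cons (Pf.C 5 65920) Pf.nil))) (Pf.C 3 131)) Pf.nil))) Pf.nil))))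
 (Pq.cons (Pq.L [0] 0 (Pf.W 153 1 [] [0] (Pf.cons (Pf.W 142 2 [] [0,1] (Pf.cons (Pf.B 3 1 (Pf.C 5 16770) (Pf.C 130 131)) (Pf.cons (Pf.B 3 1 (Pf.W 151 3 [] [0,1,2] (Pf.cons (Pf.B 4 2 (Pf.B 4 1 (Pf.C 119 132) (Pf.W 140 4 [] [0,2,3] (Pf.cons (Pf.B 5 3 (Pf.C 5 49796) (Pf.C 126 389)) (Pf.cons (Pf.B 5 3 (Pf.B 5 2 (Pf.C 7 0x608205) (Pf.C 133 261)) (Pf.C 4 389)) Pf.nil)))) (Pf.C 2 260)) (Pf.cons (Pf.B 4 1 (Pf.W 145 4 [] [0] (Pf.cons (Pf.C 2 5) (Pf.cons (Pf.C 5 82432) Pf.nil))) (Pf.C 128 132)) Pf.nil))) (Pf.C 4 131)) Pf.nil))) (Pf.cons (Pf.W 147 2 [] [0,1] (Pf.cons (Pf.B 3 1 (Pf.C 121 131) (Pf.W 141 3 [] [0,1,2] (Pf.cons (Pf.B 4 1 (Pf.W 145 4 [] [0] (Pf.cons (Pf.C 2 5) (Pf.cons (Pf.C 5 82432) Pf.nil)))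 (Pf.C 128 132)) (Pf.cons (Pf.B 4 2 (Pf.C 134 260) (Pf.B 4 1 (Pf.C 0 0x20c104) (Pf.C 4 132))) Pf.nil)))) (Pf.cons (Pf.B 3 1 (Pf.W 151 3 [] [0,1,2] (Pf.cons (Pf.B 4 2 (Pf.C 5 49412) (Pf.C 120 260)) (Pf.cons (Pf.B 4 1 (Pf.W 145 4 [] [0] (Pf.cons (Pf.C 2 5) (Pf.cons (Pf.C 5 82432) Pf.nil))) (Pf.C 128 132)) Pf.nil))) (Pf.C 4 131)) Pf.nil))) Pf.nil))))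
 (Pq.cons (Pq.L [0] 0 (Pf.W 144 1 [] [0] (Pf.cons (Pf.W 148 2 [] [0,1] (Pf.cons (Pf.B 3 1 (Pf.W 142 3 [] [0,1,2] (Pf.cons (Pf.B 4 2 (Pf.B 4 1 (Pf.C 129 132) (Pf.W 146 4 [] [1,2,3] (Pf.cons (Pf.B 5 3 (Pf.B 5 2 (Pf.B 5 1 (Pf.C 6 0x10814182) (Pf.C 2 133)) (Pf.C 120 261)) (Pf.C 2 389)) (Pf.cons (Pf.B 5 3 (Pf.C 5 82435) (Pf.C 135 389)) Pf.nil)))) (Pf.C 3 260)) (Pf.cons (Pf.B 4 2 (Pf.C 136 260) (Pf.B 4 1 (Pf.W 151 4 [] [0,1,2,3] (Pf.cons (Pf.B 5 3 (Pf.B 5 1 (Pf.W 140 5 [] [0,3,4] (Pf.cons (Pf.B 6 4 (Pf.C 5 66309) (Pf.C 126 518)) (Pf.cons (Pf.B 6 4 (Pf.B 6 3 (Pf.C 7 0x80c286) (Pf.C 133 390)) (Pf.C 4 518)) Pf.nil))) (Pf.C 2 133)) (Pf.C 2 389)) (Pf.cons (Pf.B 5 3 (Pf.C 127 389) (Pf.B 5 2 (Pf.C 0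 0x410185) (Pf.C 3 261))) Pf.nil))) (Pf.C 137 132))) Pf.nil))) (Pf.C 2 131)) (Pf.cons (Pf.B 3 1 (Pf.C 5 49409) (Pf.C 139 131)) Pf.nil))) (Pf.cons (Pf.W 153 2 [] [0,1] (Pf.cons (Pf.B 3 1 (Pf.W 142 3 [] [0,1,2] (Pf.cons (Pf.B 4 2 (Pf.C 5 33283) (Pf.C 130 260)) (Pf.cons (Pf.B 4 2 (Pf.B 4 1 (Pf.W 151 4 [] [0,1,2,3] (Pf.cons (Pf.B 5 3 (Pf.B 5 2 (Pf.C 119 261) (Pf.B 5 1 (Pf.C 7 0x10414203) (Pf.C 2 133))) (Pf.C 2 389)) (Pf.cons (Pf.B 5 1 (Pf.C 127 133) (Pf.W 145 5 [] [0] (Pf.cons (Pf.C 2 6) (Pf.cons (Pf.C 5 98944) Pf.nil)))) Pf.nil))) (Pf.C 137 132)) (Pf.C 4 260)) Pf.nil))) (Pf.C 2 131)) (Pf.cons (Pf.B 3 1 (Pf.C 131 131) (Pf.W 147 3 [] [0,1,2] (Pf.cons (Pf.B 4 2 (Pf.C 121 260) (Pf.B 4 1 (Pf.C 0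 0x20c104) (Pf.C 2 132))) (Pf.cons (Pf.B 4 1 (Pf.W 151 4 [] [0,1,3] (Pf.cons (Pf.B 5 3 (Pf.C 5 65925) (Pf.C 120 389)) (Pf.cons (Pf.B 5 1 (Pf.C 127 133) (Pf.W 145 5 [] [0] (Pf.cons (Pf.C 2 6) (Pf.cons (Pf.C 5 98944) Pf.nil)))) Pf.nil))) (Pf.C 137 132)) Pf.nil)))) Pf.nil))) Pf.nil))))
 (Pq.cons (Pq.L [0] 0 (Pf.W 149 1 [] [0] (Pf.cons (Pf.W 143 2 [] [0,1] (Pf.cons (Pf.B 3 1 (Pf.W 147 3 [] [0,1,2] (Pf.cons (Pf.B 4 2 (Pf.B 4 1 (Pf.W 141 4 [] [0,1,2,3] (Pf.cons (Pf.B 5 3 (Pf.B 5 2 (Pf.C 127 261) (Pf.B 5 1 (Pf.C 6 0x10414203) (Pf.C 3 133))) (Pf.C 3 389)) (Pf.cons (Pf.B 5 1 (Pf.C 134 133) (Pf.W 150 5 [] [0,4] (Pf.cons (Pf.C 2 6) (Pf.cons (Pf.B 6 4 (Pf.C 125 518) (Pf.C 0 82692)) Pf.nil)))) Pf.nil)))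 (Pf.C 122 132)) (Pf.C 2 260)) (Pf.cons (Pf.B 4 2 (Pf.C 5 65922) (Pf.C 137 260)) Pf.nil))) (Pf.C 3 131)) (Pf.cons (Pf.B 3 1 (Pf.C 138 131) (Pf.W 152 3 [] [0,1,2] (Pf.cons (Pf.B 4 1 (Pf.W 141 4 [] [0,1,3] (Pf.cons (Pf.B 5 3 (Pf.C 5 49796) (Pf.C 128 389)) (Pf.cons (Pf.B 5 1 (Pf.C 134 133) (Pf.W 150 5 [] [0,4] (Pf.cons (Pf.C 2 6) (Pf.cons (Pf.B 6 4 (Pf.C 125 518) (Pf.C 0 82692)) Pf.nil)))) Pf.nil))) (Pf.C 122 132)) (Pf.cons (Pf.B 4 2 (Pf.C 129 260) (Pf.B 4 1 (Pf.C 0 0x20c104) (Pf.C 3 132))) Pf.nil)))) Pf.nil))) (Pf.cons (Pf.W 153 2 [] [0,1] (Pf.cons (Pf.B 3 1 (Pf.C 5 32899) (Pf.C 124 131)) (Pf.cons (Pf.B 3 1 (Pf.W 147 3 [] [0,1,2] (Pf.cons (Pf.B 4 2 (Pf.C 121 260) (Pf.B 4 1 (Pf.W 141 4 [] [0,1,2,3]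 (Pf.cons (Pf.B 5 1 (Pf.W 145 5 [] [0] (Pf.cons (Pf.C 2 6) (Pf.cons (Pf.C 5 98944) Pf.nil))) (Pf.C 3 133)) (Pf.cons (Pf.B 5 3 (Pf.C 134 389) (Pf.B 5 2 (Pf.C 0 0x410185) (Pf.C 4 261))) Pf.nil))) (Pf.C 122 132))) (Pf.cons (Pf.B 4 2 (Pf.B 4 1 (Pf.C 136 132) (Pf.W 151 4 [] [1,2,3] (Pf.cons (Pf.B 5 3 (Pf.C 5 65925) (Pf.C 120 389)) (Pf.cons (Pf.B 5 3 (Pf.B 5 2 (Pf.B 5 1 (Pf.C 8 0x10814182) (Pf.C 3 133)) (Pf.C 128 261)) (Pf.C 3 389)) Pf.nil)))) (Pf.C 4 260)) Pf.nil))) (Pf.C 3 131)) Pf.nil))) Pf.nil))))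
 Pq.nil)))))))
theorem e4_o24 : AllRef e4_T e4_G15 (List.map pat1 [73,82,75,84,93,78,86]) :=
  chkPq_sound e4_o24c _ (by decide +kernel)
noncomputable def e4_o25c : Pq := (Pq.cons (Pq.L [] 2 (Pf.C 125 131))
 (Pq.cons (Pq.L [] 1 (Pf.C 3 257))
 (Pq.cons (Pq.L [] 1 (Pf.C 126 130))
 (Pq.cons (Pq.L [] 1 (Pf.C 133 130))
 (Pq.cons (Pq.L [] 2 (Pf.C 132 131))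
 (Pq.cons (Pq.L [] 1 (Pf.C 4 257))
 (Pq.cons (Pq.L [] 1 (Pf.C 2 257))
 (Pq.cons (Pq.L [] 1 (Pf.C 120 130))
 (Pq.cons (Pq.L [] 2 (Pf.C 119 131))
 (Pq.cons (Pq.L [] 1 (Pf.C 135 130))
 (Pq.cons (Pq.L [] 2 (Pf.C 134 131))
 (Pq.cons (Pq.L [] 1 (Pf.C 4 257))
 (Pq.cons (Pq.L [0] 3 (Pf.B 3 2 (Pf.W 146 3 [] [0,1,2] (Pf.cons (Pf.B 4 1 (Pf.B 4 2 (Pf.W 140 4 [] [0,1,2,3] (Pf.cons (Pf.B 5 3 (Pf.B 5 2 (Pf.B 5 1 (Pf.C 125 133) (Pf.C 6 0x20214203)) (Pf.C 3 261)) (Pf.C 3 389)) (Pf.cons (Pf.B 5 3 (Pf.C 132 389) (Pf.B 5 2 (Pf.C 132 261) (Pf.W 146 2 [] [0,1,3,4,5] (Pf.cons (Pf.B 6 4 (Pf.B 6 1 (Pf.B 6 3 (Pf.C 6 0x10418203) (Pf.B 6 5 (Pf.W 140 6 [] [0,2,3,4,5] (Pf.cons (Pf.B 7 5 (Pf.C 5 82822) (Pf.B 7 3 (Pf.B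 7 4 (Pf.C 6 0x60610007) (Pf.C 0 0x614207)) (Pf.C 3 391))) (Pf.cons (Pf.B 7 3 (Pf.C 132 391) (Pf.B 7 2 (Pf.C 132 263) (Pf.C 0 0x618382))) Pf.nil))) (Pf.C 0 0x80c286))) (Pf.C 2 134)) (Pf.C 2 518)) (Pf.cons (Pf.B 6 5 (Pf.B 6 4 (Pf.C 5 98564) (Pf.B 6 3 (Pf.B 6 1 (Pf.C 5 98689) (Pf.C 135 134)) (Pf.C 0 0xa10186))) (Pf.C 4 646)) Pf.nil))))) Pf.nil))) (Pf.W 140 4 [] [0,2,3] (Pf.cons (Pf.B 5 3 (Pf.B 5 2 (Pf.C 6 0x30808005) (Pf.C 3 261)) (Pf.C 3 389)) (Pf.cons (Pf.B 5 3 (Pf.C 132 389) (Pf.B 5 2 (Pf.C 132 261) (Pf.C 0 0x610282))) Pf.nil)))) (Pf.C 2 132)) (Pf.cons (Pf.B 4 1 (Pf.C 5 65921) (Pf.C 135 132)) Pf.nil))) (Pf.C 3 259)))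
 (Pq.cons (Pq.L [] 1 (Pf.C 3 257))
 (Pq.cons (Pq.L [] 1 (Pf.C 130 130))
 (Pq.cons (Pq.L [0] 1 (Pf.B 3 2 (Pf.W 151 2 [] [0,1,3] (Pf.cons (Pf.B 4 1 (Pf.B 4 3 (Pf.W 140 4 [] [0,2,3] (Pf.cons (Pf.B 5 3 (Pf.C 5 49796) (Pf.C 126 389)) (Pf.cons (Pf.B 5 3 (Pf.B 5 2 (Pf.C 7 0x30008205) (Pf.C 4 261)) (Pf.C 4 389)) Pf.nil))) (Pf.W 140 4 [] [0,1,2] (Pf.cons (Pf.B 5 2 (Pf.C 5 33412) (Pf.C 126 261)) (Pf.cons (Pf.B 5 2 (Pf.B 5 1 (Pf.C 7 0x404205) (Pf.C 133 133)) (Pf.C 4 261)) Pf.nil)))) (Pf.C 2 132)) Pf.nil)) (Pf.C 4 259)))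
 (Pq.cons (Pq.L [] 2 (Pf.C 136 131))
 (Pq.cons (Pq.L [] 1 (Pf.C 4 257))
 (Pq.cons (Pq.L [0] 3 (Pf.B 3 2 (Pf.W 152 2 [] [0,1,3] (Pf.cons (Pf.B 4 3 (Pf.B 4 1 (Pf.C 5 49665) (Pf.W 152 3 [] [0,1,2,4] (Pf.cons (Pf.B 5 4 (Pf.B 5 2 (Pf.B 5 1 (Pf.W 146 4 [] [1,2,3,5] (Pf.cons (Pf.B 6 2 (Pf.C 119 262) (Pf.B 6 1 (Pf.C 0 0x210106) (Pf.C 2 134))) (Pf.cons (Pf.B 6 3 (Pf.B 6 2 (Pf.B 6 5 (Pf.B 6 1 (Pf.C 5 98945) (Pf.C 135 134)) (Pf.C 8 0x30a18202)) (Pf.C 4 262)) (Pf.C 4 390)) Pf.nil))) (Pf.W 146 4 [] [0,1,2,3,5] (Pf.cons (Pf.B 6 2 (Pf.C 119 262) (Pf.B 6 1 (Pf.C 0 0x210106) (Pf.C 2 134))) (Pf.cons (Pf.B 6 3 (Pf.B 6 2 (Pf.B 6 5 (Pf.B 6 1 (Pf.W 150 6 [] [0,1,2,3,4,5] (Pf.cons (Pf.B 7 1 (Pf.C 125 135) (Pf.W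 142 1 [] [0,2,3,4,5,6,7] (Pf.cons (Pf.B 8 6 (Pf.C 5 99329) (Pf.B 8 5 (Pf.B 8 4 (Pf.B 8 3 (Pf.C 5 50177) (Pf.B 8 2 (Pf.C 8 0x50620202) (Pf.W 146 8 [] [1,3,5,6] (Pf.cons (Pf.B 9 3 (Pf.C 119 393) (Pf.B 9 6 (Pf.B 9 5 (Pf.C 5 98953) (Pf.C 0 0x100c485)) (Pf.C 0 0x620486))) (Pf.cons (Pf.B 9 1 (Pf.C 5 0x24401) (Pf.C 135 137)) Pf.nil))))) (Pf.C 3 520)) (Pf.C 3 648))) (Pf.cons (Pf.B 8 7 (Pf.B 8 6 (Pf.B 8 3 (Pf.B 8 2 (Pf.B 8 4 (Pf.W 151 8 [] [0,1,2,4,6,7] (Pf.cons (Pf.B 9 7 (Pf.C 5 0x20389) (Pf.B 9 6 (Pf.B 9 4 (Pf.C 5 98825) (Pf.B 9 2 (Pf.C 119 265) (Pf.B 9 1 (Pf.C 0 0x210109) (Pf.C 2 137)))) (Pf.C 0 0x1c309))) Pf.nil)) (Pf.C 0 0x404208)) (Pf.C 4 264)) (Pf.C 4 392)) (Pf.C 4 776)) (Pf.C 126 1031))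 Pf.nil)))) Pf.nil)) (Pf.C 135 134)) (Pf.C 8 0x30a18202)) (Pf.C 4 262)) (Pf.C 4 390)) Pf.nil)))) (Pf.B 5 1 (Pf.W 146 5 [] [1,2,3] (Pf.cons (Pf.B 6 3 (Pf.C 119 390) (Pf.B 6 2 (Pf.C 119 262) (Pf.C 0 0x614302))) (Pf.cons (Pf.B 6 1 (Pf.C 5 98945) (Pf.C 135 134)) Pf.nil))) (Pf.C 0 0x808085))) (Pf.C 3 517)) Pf.nil))) (Pf.B 4 1 (Pf.W 146 4 [] [1,2,3] (Pf.cons (Pf.B 5 3 (Pf.C 119 389) (Pf.B 5 2 (Pf.C 119 261) (Pf.C 0 0x610282))) (Pf.cons (Pf.B 5 1 (Pf.C 5 82433) (Pf.C 135 133)) Pf.nil))) (Pf.W 146 4 [] [1,2,3] (Pf.cons (Pf.B 5 3 (Pf.C 119 389) (Pf.B 5 2 (Pf.C 119 261) (Pf.C 0 0x610282))) (Pf.cons (Pf.B 5 3 (Pf.B 5 2 (Pf.B 5 1 (Pf.W 150 5 [] [2,3,4] (Pf.cons (Pf.B 6 4 (Pf.B 6 3 (Pf.B 6 2 (Pf.C 8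 0x30808286) (Pf.C 126 262)) (Pf.C 126 390)) (Pf.C 3 518)) Pf.nil)) (Pf.C 135 133)) (Pf.C 4 261)) (Pf.C 4 389)) Pf.nil))))) Pf.nil)) (Pf.C 4 259)))
 (Pq.cons (Pq.L [] 3 (Pf.B 3 2 (Pf.W 152 2 [] [1,3] (Pf.cons (Pf.B 4 1 (Pf.B 4 3 (Pf.W 152 3 [] [1,2,4] (Pf.cons (Pf.B 5 4 (Pf.B 5 1 (Pf.B 5 2 (Pf.C 8 0x40404185) (Pf.W 146 5 [] [1,2,3] (Pf.cons (Pf.B 6 3 (Pf.C 119 390) (Pf.B 6 2 (Pf.C 119 262) (Pf.C 0 0x614302))) (Pf.cons (Pf.B 6 3 (Pf.B 6 2 (Pf.B 6 1 (Pf.C 134 134) (Pf.W 150 6 [] [2,3,5] (Pf.cons (Pf.B 7 5 (Pf.B 7 3 (Pf.B 7 2 (Pf.C 8 0x30a08307) (Pf.C 126 263)) (Pf.C 126 391)) (Pf.C 3 647)) Pf.nil))) (Pf.C 4 262)) (Pf.C 4 390)) Pf.nil)))) (Pf.C 3 133)) (Pf.C 3 517)) Pf.nil)) (Pf.W 146 4 []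 [1,2,3] (Pf.cons (Pf.B 5 3 (Pf.C 119 389) (Pf.B 5 2 (Pf.C 119 261) (Pf.C 0 0x610282))) (Pf.cons (Pf.B 5 3 (Pf.B 5 2 (Pf.B 5 1 (Pf.C 134 133) (Pf.W 150 5 [] [2,3,4] (Pf.cons (Pf.B 6 4 (Pf.B 6 3 (Pf.B 6 2 (Pf.C 8 0x30808286) (Pf.C 126 262)) (Pf.C 126 390)) (Pf.C 3 518)) Pf.nil))) (Pf.C 4 261)) (Pf.C 4 389)) Pf.nil)))) (Pf.C 3 132)) Pf.nil)) (Pf.C 4 259)))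
 (Pq.cons (Pq.L [] 1 (Pf.C 4 257))
 (Pq.cons (Pq.L [] 1 (Pf.C 2 257))
 (Pq.cons (Pq.L [] 3 (Pf.B 3 2 (Pf.W 143 2 [] [1,3] (Pf.cons (Pf.B 4 3 (Pf.B 4 1 (Pf.C 5 65667) (Pf.W 152 4 [] [1,2] (Pf.cons (Pf.B 5 2 (Pf.C 129 261) (Pf.B 5 1 (Pf.C 0 0x210105) (Pf.C 3 133))) Pf.nil))) (Pf.B 4 1 (Pf.W 152 4 [] [2,3] (Pf.cons (Pf.B 5 3 (Pf.C 129 389) (Pf.B 5 2 (Pf.C 129 261) (Pf.C 0 0x610282))) Pf.nil)) (Pf.W 152 4 [] [2,3] (Pf.cons (Pf.B 5 3 (Pf.C 129 389) (Pf.B 5 2 (Pf.C 129 261) (Pf.C 0 0x610282))) Pf.nil)))) Pf.nil)) (Pf.C 2 259)))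
 (Pq.cons (Pq.L [] 3 (Pf.B 3 2 (Pf.W 143 2 [] [1,3] (Pf.cons (Pf.B 4 1 (Pf.B 4 3 (Pf.W 143 3 [] [1,2,4] (Pf.cons (Pf.B 5 4 (Pf.B 5 1 (Pf.B 5 2 (Pf.C 7 0x40404185) (Pf.W 152 5 [] [2,3] (Pf.cons (Pf.B 6 3 (Pf.C 129 390) (Pf.B 6 2 (Pf.C 129 262) (Pf.C 0 0x614302))) Pf.nil))) (Pf.C 4 133)) (Pf.C 4 517)) Pf.nil)) (Pf.W 152 4 [] [2,3] (Pf.cons (Pf.B 5 3 (Pf.C 129 389) (Pf.B 5 2 (Pf.C 129 261) (Pf.C 0 0x610282))) Pf.nil))) (Pf.C 4 132)) Pf.nil)) (Pf.C 2 259)))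
 Pq.nil))))))))))))))))))))))))
theorem e4_o25 : AllRef e4_T e4_G16 (splitObl [81,89,111,114,113,115,92,77] [112,85,94]) :=
  chkPq_sound e4_o25c _ (by decide +kernel)
noncomputable def e4_o26c : Pq := (Pq.cons (Pq.L [] 0 (Pf.C 175 1))
 Pq.nil)
theorem e4_o26 : AllRef e4_T e4_G19 (List.map pat1 [115]) :=
  chkPq_sound e4_o26c _ (by decide +kernel)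
noncomputable def e4_o27c : Pq := (Pq.cons (Pq.L [] 0 (Pf.C 177 1))
 Pq.nil)
theorem e4_o27 : AllRef e4_T e4_G22 (List.map pat1 [118]) :=
  chkPq_sound e4_o27c _ (by decide +kernel)
noncomputable def e4_o28c : Pq := (Pq.cons (Pq.L [] 1 (Pf.C 3 257))
 (Pq.cons (Pq.L [0] 3 (Pf.B 3 2 (Pf.W 170 3 [] [0,1,2] (Pf.cons (Pf.B 4 1 (Pf.C 5 16772) (Pf.C 174 513)) (Pf.cons (Pf.B 4 2 (Pf.B 4 1 (Pf.W 170 2 [] [0,1,3,4] (Pf.cons (Pf.C 167 517) (Pf.cons (Pf.B 5 4 (Pf.B 5 3 (Pf.B 5 1 (Pf.C 8 0x10414203) (Pf.C 4 133)) (Pf.C 0 0x800185)) (Pf.C 4 517)) Pf.nil))) (Pf.C 4 132)) (Pf.C 0 0x600202)) Pf.nil))) (Pf.C 3 259)))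
 (Pq.cons (Pq.L [] 2 (Pf.C 171 385))
 (Pq.cons (Pq.L [] 1 (Pf.C 174 257))
 (Pq.cons (Pq.L [] 1 (Pf.C 172 257))
 (Pq.cons (Pq.L [] 1 (Pf.C 4 257))
 (Pq.cons (Pq.L [] 1 (Pf.C 3 257))
 (Pq.cons (Pq.L [] 2 (Pf.C 132 385))
 (Pq.cons (Pq.L [] 1 (Pf.C 126 257))
 (Pq.cons (Pq.L [] 1 (Pf.C 4 257))
 (Pq.cons (Pq.L [] 2 (Pf.C 125 385))
 (Pq.cons (Pq.L [] 1 (Pf.C 133 257))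
 Pq.nil))))))))))))
theorem e4_o28 : AllRef e4_T e4_G24 (splitObl [116,111,114,113,92,77] [117,119]) :=
  chkPq_sound e4_o28c _ (by decide +kernel)
noncomputable def e4_o29c : Pq := (Pq.cons (Pq.D 0 (Pq.cons (Pq.D 1 (Pq.cons (Pq.L [] 1 (Pf.C 3 257))
 (Pq.cons (Pq.D 2 (Pq.cons (Pq.L [] 2 (Pf.C 3 385))
 (Pq.cons (Pq.L [] 4 (Pf.C 2 386))
 (Pq.cons (Pq.L [0] 7 (Pf.C 0 0x40c080))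
 (Pq.cons (Pq.L [] 2 (Pf.C 3 385))
 (Pq.cons (Pq.L [] 2 (Pf.C 126 385))
 (Pq.cons (Pq.L [] 2 (Pf.C 125 385))
 Pq.nil))))))) (Pq.cons (Pq.D 2 (Pq.cons (Pq.L [] 2 (Pf.C 3 385))
 (Pq.cons (Pq.L [0] 7 (Pf.C 0 0x608080))
 (Pq.cons (Pq.L [] 4 (Pf.C 4 386))
 (Pq.cons (Pq.L [] 2 (Pf.C 3 385))
 (Pq.cons (Pq.L [] 2 (Pf.C 126 385))
 (Pq.cons (Pq.L [] 2 (Pf.C 125 385))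
 Pq.nil))))))) (Pq.cons (Pq.L [] 1 (Pf.C 3 257))
 (Pq.cons (Pq.L [] 1 (Pf.C 126 257))
 (Pq.cons (Pq.L [] 1 (Pf.C 125 257))
 Pq.nil))))))) (Pq.cons (Pq.D 1 (Pq.cons (Pq.D 2 (Pq.cons (Pq.L [0] 7 (Pf.C 0 49409))
 (Pq.cons (Pq.L [] 2 (Pf.C 2 385))
 (Pq.cons (Pq.L [] 0 (Pf.C 167 385))
 (Pq.cons (Pq.L [] 4 (Pf.C 3 386))
 (Pq.cons (Pq.L [] 2 (Pf.C 119 385))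
 (Pq.cons (Pq.L [] 2 (Pf.C 2 385))
 Pq.nil))))))) (Pq.cons (Pq.L [] 1 (Pf.C 2 257))
 (Pq.cons (Pq.L [] 0 (Pf.C 167 257))
 (Pq.cons (Pq.D 2 (Pq.cons (Pq.L [] 4 (Pf.C 3 386))
 (Pq.cons (Pq.L [] 2 (Pf.C 2 385))
 (Pq.cons (Pq.L [] 0 (Pf.C 167 385))
 (Pq.cons (Pq.L [] 4 (Pf.C 3 386))
 (Pq.cons (Pq.L [] 2 (Pf.C 119 385))
 (Pq.cons (Pq.L [] 2 (Pf.C 2 385))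
 Pq.nil))))))) (Pq.cons (Pq.L [] 1 (Pf.C 119 257))
 (Pq.cons (Pq.L [] 1 (Pf.C 2 257))
 Pq.nil))))))) (Pq.cons (Pq.D 1 (Pq.cons (Pq.D 2 (Pq.cons (Pq.L [] 4 (Pf.C 3 386))
 (Pq.cons (Pq.L [] 0 (Pf.C 167 131))
 (Pq.cons (Pq.L [] 2 (Pf.C 4 385))
 (Pq.cons (Pq.L [] 2 (Pf.C 168 385))
 (Pq.cons (Pq.L [] 2 (Pf.C 4 385))
 (Pq.cons (Pq.L [] 2 (Pf.C 135 385))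
 Pq.nil))))))) (Pq.cons (Pq.L [] 0 (Pf.C 167 130))
 (Pq.cons (Pq.L [] 1 (Pf.C 4 257))
 (Pq.cons (Pq.L [] 1 (Pf.C 168 257))
 (Pq.cons (Pq.L [] 1 (Pf.C 4 257))
 (Pq.cons (Pq.L [] 1 (Pf.C 135 257))
 Pq.nil))))))) (Pq.cons (Pq.D 1 (Pq.cons (Pq.L [] 1 (Pf.C 3 257))
 (Pq.cons (Pq.D 2 (Pq.cons (Pq.L [] 2 (Pf.C 3 385))
 (Pq.cons (Pq.L [] 4 (Pf.C 2 386))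
 (Pq.cons (Pq.L [] 2 (Pf.C 168 131))
 (Pq.cons (Pq.L [] 2 (Pf.C 3 385))
 (Pq.cons (Pq.L [] 4 (Pf.C 119 386))
 (Pq.cons (Pq.L [] 2 (Pf.C 129 385))
 Pq.nil))))))) (Pq.cons (Pq.L [] 1 (Pf.C 168 130))
 (Pq.cons (Pq.L [] 1 (Pf.C 3 257))
 (Pq.cons (Pq.D 2 (Pq.cons (Pq.L [] 2 (Pf.C 3 385))
 (Pq.cons (Pq.L [] 4 (Pf.C 119 259))
 (Pq.cons (Pq.L [] 2 (Pf.C 168 131))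
 (Pq.cons (Pq.L [] 2 (Pf.C 3 385))
 (Pq.cons (Pq.L [0] 7 (Pf.C 0 49409))
 (Pq.cons (Pq.L [] 2 (Pf.C 129 385))
 Pq.nil))))))) (Pq.cons (Pq.L [] 1 (Pf.C 129 257))
 Pq.nil))))))) (Pq.cons (Pq.D 1 (Pq.cons (Pq.L [] 1 (Pf.C 126 130))
 (Pq.cons (Pq.L [] 1 (Pf.C 119 130))
 (Pq.cons (Pq.L [] 1 (Pf.C 4 257))
 (Pq.cons (Pq.D 2 (Pq.cons (Pq.L [] 2 (Pf.C 126 131))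
 (Pq.cons (Pq.L [] 2 (Pf.C 119 131))
 (Pq.cons (Pq.L [] 2 (Pf.C 4 385))
 (Pq.cons (Pq.L [] 4 (Pf.C 3 386))
 (Pq.cons (Pq.L [] 2 (Pf.C 4 385))
 (Pq.cons (Pq.L [] 4 (Pf.C 129 386))
 Pq.nil))))))) (Pq.cons (Pq.L [] 1 (Pf.C 4 257))
 (Pq.cons (Pq.D 2 (Pq.cons (Pq.L [] 2 (Pf.C 126 131))
 (Pq.cons (Pq.L [] 2 (Pf.C 119 131))
 (Pq.cons (Pq.L [] 2 (Pf.C 4 385))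
 (Pq.cons (Pq.L [] 4 (Pf.C 129 259))
 (Pq.cons (Pq.L [] 2 (Pf.C 4 385))
 (Pq.cons (Pq.L [] 4 (Pf.C 2 386))
 Pq.nil))))))) Pq.nil))))))) (Pq.cons (Pq.D 1 (Pq.cons (Pq.L [] 1 (Pf.C 125 130))
 (Pq.cons (Pq.L [] 1 (Pf.C 2 257))
 (Pq.cons (Pq.L [] 1 (Pf.C 135 130))
 (Pq.cons (Pq.L [] 1 (Pf.C 129 130))
 (Pq.cons (Pq.D 2 (Pq.cons (Pq.L [] 2 (Pf.C 125 131))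
 (Pq.cons (Pq.L [] 2 (Pf.C 2 385))
 (Pq.cons (Pq.L [] 2 (Pf.C 135 131))
 (Pq.cons (Pq.L [] 2 (Pf.C 129 131))
 (Pq.cons (Pq.L [0] 7 (Pf.C 0 49409))
 (Pq.cons (Pq.L [] 2 (Pf.C 2 385))
 Pq.nil))))))) (Pq.cons (Pq.L [] 1 (Pf.C 2 257))
 Pq.nil))))))) Pq.nil))))))) Pq.nil)
theorem e4_o29 : AllRef e4_T e4_G24 (List.take 1 (applyObl d_T 2 [116,111,114,113,92,77] [0,0,0,0,0,0] [(116,0x20000000000000000000),(111,0x100000000000000000000000),(113,0x20000000000000000000),(92,0x8000000000000000000000000000),(77,0x120000000000000000000000000000)])) :=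
  chkPq_sound e4_o29c _ (by decide +kernel)
noncomputable def e4_o30c : Pq := (Pq.cons (Pq.D 1 (Pq.cons (Pq.D 2 (Pq.cons (Pq.L [] 64 (Pf.C 3 386))
 (Pq.cons (Pq.D 3 (Pq.cons (Pq.L [] 128 (Pf.C 3 514))
 (Pq.cons (Pq.D 4 (Pq.cons (Pq.L [] 256 (Pf.C 3 642))
 (Pq.cons (Pq.D 5 (Pq.cons (Pq.D 6 (Pq.cons (Pq.L [] 0x136ef7 (Pf.C 1 0x202061c301))
 (Pq.cons (Pq.L [] 0x136ef7 (Pf.C 1 0x202061c301))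
 (Pq.cons (Pq.L [] 16418 (Pf.C 5 0x1c083))
 (Pq.cons (Pq.L [] 0x136ef7 (Pf.C 1 0x202061c301))
 (Pq.cons (Pq.L [0] 0x1c0000 (Pf.C 0 0x1c305))
 (Pq.cons (Pq.L [] 0x100000 (Pf.C 125 902))
 Pq.nil))))))) (Pq.cons (Pq.L [] 0x40000 (Pf.C 2 773))
 (Pq.cons (Pq.L [] 8210 (Pf.C 5 98435))
 (Pq.cons (Pq.D 6 (Pq.cons (Pq.L [] 0x136ef7 (Pf.C 1 0x202061c301))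
 (Pq.cons (Pq.L [0] 0x1c0038 (Pf.C 6 0x70c14001))
 (Pq.cons (Pq.L [] 16418 (Pf.C 5 0x1c083))
 (Pq.cons (Pq.L [0] 0x1c0038 (Pf.C 6 0x70c14001))
 (Pq.cons (Pq.L [0] 0x1c03db (Pf.W 170 2 [] [0,1,3,4,5,6,7] (Pf.cons (Pf.B 8 7 (Pf.C 119 904) (Pf.B 8 5 (Pf.B 8 6 (Pf.B 8 4 (Pf.B 8 3 (Pf.B 8 1 (Pf.W 9 16392 [] [2,3] (Pf.cons (Pf.B 9 2 (Pf.C 5 0x24108) (Pf.B 9 3 (Pf.B 9 1 (Pf.C 5 0x24083) (Pf.C 0 0x400481)) (Pf.C 0 33923))) (Pf.cons (Pf.B 9 2 (Pf.B 9 1 (Pf.C 6 0x20004409) (Pf.C 3 137)) (Pf.C 3 265)) Pf.nil))) (Pf.C 6 0x60a08088)) (Pf.C 2 392)) (Pf.C 2 520)) (Pf.C 0 0xa1c308)) (Pf.C 2 648))) (Pf.cons (Pf.C 167 1027) Pf.nil))))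
 (Pq.cons (Pq.L [0] 0x1c0038 (Pf.C 6 0x70200305))
 Pq.nil))))))) (Pq.cons (Pq.L [] 0x40018 (Pf.C 5 98437))
 (Pq.cons (Pq.L [] 0x40000 (Pf.C 2 773))
 Pq.nil))))))) (Pq.cons (Pq.L [] 4106 (Pf.C 5 82051))
 (Pq.cons (Pq.L [] 256 (Pf.C 3 642))
 (Pq.cons (Pq.L [] 256 (Pf.C 126 642))
 (Pq.cons (Pq.L [] 39375 (Pf.C 6 0x4040c281))
 Pq.nil))))))) (Pq.cons (Pq.L [] 2054 (Pf.C 5 65667))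
 (Pq.cons (Pq.L [] 128 (Pf.C 3 514))
 (Pq.cons (Pq.L [] 128 (Pf.C 126 514))
 (Pq.cons (Pq.L [] 128 (Pf.C 125 514))
 Pq.nil))))))) (Pq.cons (Pq.D 3 (Pq.cons (Pq.L [] 128 (Pf.C 3 514))
 (Pq.cons (Pq.L [] 2054 (Pf.C 5 49284))
 (Pq.cons (Pq.L [0] 2240 (Pf.C 0 0x800103))
 (Pq.cons (Pq.L [] 128 (Pf.C 3 514))
 (Pq.cons (Pq.L [] 128 (Pf.C 126 514))
 (Pq.cons (Pq.L [] 128 (Pf.C 125 514))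
 Pq.nil))))))) (Pq.cons (Pq.L [] 64 (Pf.C 3 386))
 (Pq.cons (Pq.L [] 64 (Pf.C 126 386))
 (Pq.cons (Pq.L [] 64 (Pf.C 125 386))
 Pq.nil))))))) (Pq.cons (Pq.D 2 (Pq.cons (Pq.D 3 (Pq.cons (Pq.D 4 (Pq.cons (Pq.D 5 (Pq.cons (Pq.L [] 0x40000 (Pf.C 3 773))
 (Pq.cons (Pq.D 6 (Pq.cons (Pq.L [] 0x136ef7 (Pf.C 1 0x202061c301))
 (Pq.cons (Pq.L [0] 0x106032 (Pf.C 6 0x30004386))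
 (Pq.cons (Pq.L [] 1057 (Pf.C 5 0x1c082))
 (Pq.cons (Pq.L [0] 0x106032 (Pf.C 6 0x30004386))
 (Pq.cons (Pq.L [] 0x100030 (Pf.C 5 0x1c086))
 (Pq.cons (Pq.L [] 0x100000 (Pf.C 2 902))
 Pq.nil))))))) (Pq.cons (Pq.L [] 529 (Pf.C 5 98434))
 (Pq.cons (Pq.L [] 0x40000 (Pf.C 3 773))
 (Pq.cons (Pq.L [0] 0x40300 (Pf.C 0 98946))
 (Pq.cons (Pq.L [] 0x40000 (Pf.C 125 773))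
 Pq.nil))))))) (Pq.cons (Pq.L [] 256 (Pf.C 2 642))
 (Pq.cons (Pq.L [] 0 (Pf.C 167 642))
 (Pq.cons (Pq.D 5 (Pq.cons (Pq.L [] 0x40000 (Pf.C 3 773))
 (Pq.cons (Pq.L [0] 0x40319 (Pf.C 6 0x60a08001))
 (Pq.cons (Pq.L [] 529 (Pf.C 5 98434))
 (Pq.cons (Pq.L [0] 0x40319 (Pf.C 6 0x60a08001))
 (Pq.cons (Pq.D 6 (Pq.cons (Pq.L [0] 0x80529 (Pf.C 6 0x70004282))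
 (Pq.cons (Pq.L [] 0x100030 (Pf.C 5 98439))
 (Pq.cons (Pq.L [] 1057 (Pf.C 5 0x1c082))
 (Pq.cons (Pq.L [0] 0x1c5ffb (Pf.W 146 7 [] [0,1,2,3,4,5,6] (Pf.cons (Pf.B 8 6 (Pf.C 119 776) (Pf.B 8 5 (Pf.B 8 2 (Pf.B 8 3 (Pf.C 6 0x5040c388) (Pf.B 8 1 (Pf.W 170 3 [] [0,1,2,4,5,6,7,8] (Pf.cons (Pf.B 9 8 (Pf.B 9 6 (Pf.C 119 777) (Pf.B 9 7 (Pf.B 9 5 (Pf.B 9 2 (Pf.B 9 1 (Pf.B 9 4 (Pf.W 9 16393 [] [3,4] (Pf.cons (Pf.B 10 4 (Pf.C 5 0x28209) (Pf.B 10 3 (Pf.C 5 0x28189) (Pf.C 0 0x800503))) (Pf.cons (Pf.B 10 4 (Pf.B 10 3 (Pf.C 6 0x4000c48a) (Pf.C 3 394)) (Pf.C 3 522)) Pf.nil))) (Pf.W 9 16393 [] [2,3,5,6,7,8] (Pf.cons (Pf.B 10 7 (Pf.C 5 0x28389) (Pf.B 10 6 (Pf.B 10 8 (Pf.B 10 5 (Pf.C 5 0x28288) (Pf.B 10 3 (Pf.C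 5 0x28189) (Pf.B 10 2 (Pf.B 10 1 (Pf.C 5 0x28082) (Pf.C 0 0x600501)) (Pf.C 0 0xc1410a)))) (Pf.C 0 0xc1c40a)) (Pf.C 4 778))) (Pf.cons (Pf.B 10 3 (Pf.B 10 1 (Pf.C 6 0x3000448a) (Pf.C 3 138)) (Pf.C 3 394)) Pf.nil)))) (Pf.C 6 0x80608089)) (Pf.C 2 265)) (Pf.C 6 0x80600289)) (Pf.C 0 0x1018389))) (Pf.C 2 1033)) (Pf.cons (Pf.C 167 1154) Pf.nil))) (Pf.C 6 0x220282))) (Pf.C 2 264)) (Pf.C 0 0xe18405))) (Pf.cons (Pf.B 8 6 (Pf.B 8 2 (Pf.C 5 0x20382) (Pf.B 8 5 (Pf.B 8 4 (Pf.B 8 3 (Pf.B 8 1 (Pf.W 150 8 [] [5,6,7] (Pf.cons (Pf.B 9 7 (Pf.B 9 6 (Pf.B 9 5 (Pf.C 8 0x70c14409) (Pf.C 3 649)) (Pf.C 126 777)) (Pf.C 3 905)) Pf.nil)) (Pf.C 8 0x70c14088)) (Pf.C 0 0x40c400)) (Pf.C 0 0x410400)) (Pf.C 0 0xc08288)))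 (Pf.C 4 776)) Pf.nil))))
 (Pq.cons (Pq.L [0] 0x100600 (Pf.C 0 0x1c302))
 (Pq.cons (Pq.L [] 0x1c0700 (Pf.C 0 0xe18282))
 Pq.nil))))))) (Pq.cons (Pq.L [0] 0x40319 (Pf.C 6 0x60200282))
 Pq.nil))))))) (Pq.cons (Pq.L [] 265 (Pf.C 5 82050))
 (Pq.cons (Pq.L [] 256 (Pf.C 2 642))
 Pq.nil))))))) (Pq.cons (Pq.L [] 128 (Pf.C 2 514))
 (Pq.cons (Pq.L [] 0 (Pf.C 167 514))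
 (Pq.cons (Pq.D 4 (Pq.cons (Pq.D 5 (Pq.cons (Pq.L [0] 66197 (Pf.C 6 0x60004202))
 (Pq.cons (Pq.D 6 (Pq.cons (Pq.L [0] 0x204a5 (Pf.C 6 0x70004202))
 (Pq.cons (Pq.L [0] 0x106032 (Pf.C 6 0x30004386))
 (Pq.cons (Pq.L [] 1057 (Pf.C 5 0x1c082))
 (Pq.cons (Pq.L [0] 0x106032 (Pf.C 6 0x30004386))
 (Pq.cons (Pq.L [] 0x100030 (Pf.C 5 0x1c086))
 (Pq.cons (Pq.L [] 0x100000 (Pf.C 2 902))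
 Pq.nil))))))) (Pq.cons (Pq.L [] 529 (Pf.C 5 98434))
 (Pq.cons (Pq.L [] 0x40000 (Pf.C 3 773))
 (Pq.cons (Pq.L [0] 0x40300 (Pf.C 0 98946))
 (Pq.cons (Pq.L [] 0x40000 (Pf.C 125 773))
 Pq.nil))))))) (Pq.cons (Pq.L [0] 33165 (Pf.C 6 0x50410001))
 (Pq.cons (Pq.L [] 0 (Pf.C 167 642))
 (Pq.cons (Pq.L [0] 33165 (Pf.C 6 0x50410001))
 (Pq.cons (Pq.L [] 265 (Pf.C 5 82050))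
 (Pq.cons (Pq.L [] 256 (Pf.C 2 642))
 Pq.nil))))))) (Pq.cons (Pq.L [] 133 (Pf.C 5 65666))
 (Pq.cons (Pq.L [] 128 (Pf.C 2 514))
 Pq.nil))))))) (Pq.cons (Pq.L [] 64 (Pf.C 2 386))
 (Pq.cons (Pq.L [] 0 (Pf.C 167 386))
 (Pq.cons (Pq.D 3 (Pq.cons (Pq.D 4 (Pq.cons (Pq.D 5 (Pq.cons (Pq.L [0] 8787 (Pf.C 6 0x60004182))
 (Pq.cons (Pq.D 6 (Pq.cons (Pq.L [0] 17507 (Pf.C 6 0x70004182))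
 (Pq.cons (Pq.L [0] 0x130034 (Pf.C 6 0x40004386))
 (Pq.cons (Pq.L [] 1057 (Pf.C 5 0x1c082))
 (Pq.cons (Pq.L [0] 0x130034 (Pf.C 6 0x40004386))
 (Pq.cons (Pq.L [] 0x100030 (Pf.C 5 0x1c086))
 (Pq.cons (Pq.L [] 0x100000 (Pf.C 2 902))
 Pq.nil))))))) (Pq.cons (Pq.L [] 529 (Pf.C 5 98434))
 (Pq.cons (Pq.L [] 0x40000 (Pf.C 3 773))
 (Pq.cons (Pq.L [0] 0x40300 (Pf.C 0 98946))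
 (Pq.cons (Pq.L [] 0x40000 (Pf.C 125 773))
 Pq.nil))))))) (Pq.cons (Pq.L [0] 4427 (Pf.C 6 0x5040c001))
 (Pq.cons (Pq.L [] 0 (Pf.C 167 642))
 (Pq.cons (Pq.L [0] 4427 (Pf.C 6 0x5040c001))
 (Pq.cons (Pq.L [] 265 (Pf.C 5 82050))
 (Pq.cons (Pq.L [] 256 (Pf.C 2 642))
 Pq.nil))))))) (Pq.cons (Pq.L [0] 2247 (Pf.C 6 0x4040c001))
 (Pq.cons (Pq.L [] 0 (Pf.C 167 514))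
 (Pq.cons (Pq.L [0] 2247 (Pf.C 6 0x4040c001))
 (Pq.cons (Pq.L [] 133 (Pf.C 5 65666))
 (Pq.cons (Pq.L [] 128 (Pf.C 2 514))
 Pq.nil))))))) (Pq.cons (Pq.L [] 67 (Pf.C 5 49282))
 (Pq.cons (Pq.L [] 64 (Pf.C 2 386))
 Pq.nil))))))) (Pq.cons (Pq.D 2 (Pq.cons (Pq.D 3 (Pq.cons (Pq.L [0] 2240 (Pf.C 0 0x800103))
 (Pq.cons (Pq.L [] 0 (Pf.C 167 260))
 (Pq.cons (Pq.L [] 128 (Pf.C 4 514))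
 (Pq.cons (Pq.L [] 128 (Pf.C 168 514))
 (Pq.cons (Pq.L [] 128 (Pf.C 4 514))
 (Pq.cons (Pq.L [] 128 (Pf.C 135 514))
 Pq.nil))))))) (Pq.cons (Pq.L [] 0 (Pf.C 167 259))
 (Pq.cons (Pq.L [] 64 (Pf.C 4 386))
 (Pq.cons (Pq.L [] 64 (Pf.C 168 386))
 (Pq.cons (Pq.L [] 64 (Pf.C 4 386))
 (Pq.cons (Pq.L [] 64 (Pf.C 135 386))
 Pq.nil))))))) (Pq.cons (Pq.D 2 (Pq.cons (Pq.L [] 64 (Pf.C 3 386))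
 (Pq.cons (Pq.D 3 (Pq.cons (Pq.L [] 128 (Pf.C 3 514))
 (Pq.cons (Pq.L [0] 2247 (Pf.C 6 0x4040c001))
 (Pq.cons (Pq.L [] 2054 (Pf.C 5 65667))
 (Pq.cons (Pq.L [0] 2247 (Pf.C 6 0x4040c001))
 (Pq.cons (Pq.D 4 (Pq.cons (Pq.L [] 256 (Pf.C 3 642))
 (Pq.cons (Pq.L [0] 4427 (Pf.C 6 0x5040c001))
 (Pq.cons (Pq.L [] 4106 (Pf.C 5 82051))
 (Pq.cons (Pq.L [0] 4427 (Pf.C 6 0x5040c001))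
 (Pq.cons (Pq.L [] 39360 (Pf.C 0 0xa0c104))
 (Pq.cons (Pq.L [0] 4427 (Pf.C 6 0x50200182))
 Pq.nil))))))) (Pq.cons (Pq.L [0] 2247 (Pf.C 6 0x40200182))
 Pq.nil))))))) (Pq.cons (Pq.L [] 64 (Pf.C 168 259))
 (Pq.cons (Pq.L [] 64 (Pf.C 3 386))
 (Pq.cons (Pq.D 3 (Pq.cons (Pq.L [] 128 (Pf.C 3 514))
 (Pq.cons (Pq.D 4 (Pq.cons (Pq.L [] 256 (Pf.C 3 642))
 (Pq.cons (Pq.L [0] 33165 (Pf.C 6 0x50410001))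
 (Pq.cons (Pq.L [] 32780 (Pf.C 5 82052))
 (Pq.cons (Pq.L [0] 33165 (Pf.C 6 0x50410001))
 (Pq.cons (Pq.L [] 39360 (Pf.C 0 0xa10103))
 (Pq.cons (Pq.L [0] 33165 (Pf.C 6 0x50200202))
 Pq.nil))))))) (Pq.cons (Pq.L [] 128 (Pf.C 168 260))
 (Pq.cons (Pq.L [] 128 (Pf.C 3 514))
 (Pq.cons (Pq.D 4 (Pq.cons (Pq.L [] 256 (Pf.C 3 642))
 (Pq.cons (Pq.L [] 39360 (Pf.C 0 0x814103))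
 (Pq.cons (Pq.L [] 256 (Pf.C 168 261))
 (Pq.cons (Pq.L [] 256 (Pf.C 3 642))
 (Pq.cons (Pq.D 5 (Pq.cons (Pq.L [] 0x40000 (Pf.C 126 646))
 (Pq.cons (Pq.L [] 0x40018 (Pf.C 5 82054))
 (Pq.cons (Pq.L [] 0x40000 (Pf.C 4 773))
 (Pq.cons (Pq.D 6 (Pq.cons (Pq.L [] 0x136ef7 (Pf.C 1 0x202061c301))
 (Pq.cons (Pq.L [] 0x1c8799 (Pf.W 146 2 [] [1,3,4,5,6,7] (Pf.cons (Pf.B 8 5 (Pf.C 119 648) (Pf.B 8 4 (Pf.C 119 520) (Pf.C 0 0xa08404))) (Pf.cons (Pf.B 8 7 (Pf.C 5 0x20107) (Pf.B 8 5 (Pf.B 8 6 (Pf.B 8 4 (Pf.B 8 3 (Pf.B 8 1 (Pf.W 150 8 [] [2,5,6] (Pf.cons (Pf.B 9 6 (Pf.B 9 5 (Pf.B 9 2 (Pf.C 8 0x60a08409) (Pf.C 3 265)) (Pf.C 126 649)) (Pf.C 3 777)) Pf.nil)) (Pf.C 8 0x60a08088)) (Pf.C 4 392)) (Pf.C 4 520)) (Pf.C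 0 0xa1c308)) (Pf.C 4 648))) Pf.nil))))
 (Pq.cons (Pq.L [] 0x136ef7 (Pf.C 1 0x202061c301))
 (Pq.cons (Pq.L [] 0x136ef7 (Pf.C 1 0x202061c301))
 (Pq.cons (Pq.L [] 0x136ef7 (Pf.C 1 0x202061c301))
 (Pq.cons (Pq.L [] 0x106000 (Pf.C 5 49927))
 Pq.nil))))))) (Pq.cons (Pq.L [] 0x40000 (Pf.C 4 773))
 (Pq.cons (Pq.D 6 (Pq.cons (Pq.L [] 0x106000 (Pf.C 5 50054))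
 (Pq.cons (Pq.L [] 0x1c0700 (Pf.C 0 0xe18282))
 (Pq.cons (Pq.L [] 0x100000 (Pf.C 135 775))
 (Pq.cons (Pq.L [] 0x106000 (Pf.C 5 50054))
 (Pq.cons (Pq.L [] 0x40bc7 (Pf.W 146 2 [] [1,3,4,5,6,7] (Pf.cons (Pf.B 8 6 (Pf.B 8 5 (Pf.C 119 648) (Pf.C 0 0xc08288)) (Pf.C 2 776)) (Pf.cons (Pf.B 8 7 (Pf.B 8 6 (Pf.B 8 5 (Pf.B 8 4 (Pf.B 8 3 (Pf.B 8 1 (Pf.W 150 8 [] [2,3,4] (Pf.cons (Pf.B 9 4 (Pf.B 9 3 (Pf.B 9 2 (Pf.C 8 0x4040c409) (Pf.C 3 265)) (Pf.C 126 393)) (Pf.C 126 521)) Pf.nil)) (Pf.C 8 0x4040c088)) (Pf.C 4 392)) (Pf.C 4 520)) (Pf.C 4 648)) (Pf.C 135 776)) (Pf.C 4 904)) Pf.nil))))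
 (Pq.cons (Pq.L [] 0x100631 (Pf.C 0 0x41c301))
 Pq.nil))))))) Pq.nil))))))) (Pq.cons (Pq.L [] 256 (Pf.C 129 642))
 Pq.nil))))))) (Pq.cons (Pq.L [] 128 (Pf.C 129 514))
 Pq.nil))))))) (Pq.cons (Pq.L [] 64 (Pf.C 129 386))
 Pq.nil))))))) (Pq.cons (Pq.D 2 (Pq.cons (Pq.L [] 64 (Pf.C 126 259))
 (Pq.cons (Pq.L [] 67 (Pf.C 5 32899))
 (Pq.cons (Pq.L [] 64 (Pf.C 4 386))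
 (Pq.cons (Pq.D 3 (Pq.cons (Pq.L [] 128 (Pf.C 126 260))
 (Pq.cons (Pq.L [] 133 (Pf.C 5 32900))
 (Pq.cons (Pq.L [] 128 (Pf.C 4 514))
 (Pq.cons (Pq.D 4 (Pq.cons (Pq.L [] 256 (Pf.C 126 261))
 (Pq.cons (Pq.L [] 265 (Pf.C 5 32901))
 (Pq.cons (Pq.L [] 256 (Pf.C 4 642))
 (Pq.cons (Pq.D 5 (Pq.cons (Pq.L [] 0x40000 (Pf.C 3 773))
 (Pq.cons (Pq.D 6 (Pq.cons (Pq.L [0] 0x1f7bfb (Pf.W 146 3 [] [0,1,2,4,5,6,7] (Pf.cons (Pf.B 8 6 (Pf.B 8 7 (Pf.C 6 0x60e00188) (Pf.B 8 2 (Pf.C 119 264) (Pf.B 8 5 (Pf.B 8 1 (Pf.W 170 7 [] [0,1,2,3,4,5,6,8] (Pf.cons (Pf.B 9 8 (Pf.B 9 6 (Pf.B 9 5 (Pf.B 9 4 (Pf.B 9 3 (Pf.B 9 2 (Pf.C 119 265) (Pf.B 9 1 (Pf.W 9 16393 [] [6,7] (Pf.cons (Pf.B 10 7 (Pf.C 5 0x28389) (Pf.B 10 6 (Pf.B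 10 1 (Pf.C 5 0x28086) (Pf.C 0 0xe00501)) (Pf.C 0 0x1c506))) (Pf.cons (Pf.B 10 7 (Pf.B 10 1 (Pf.C 6 0x7000448a) (Pf.C 3 138)) (Pf.C 3 906)) Pf.nil))) (Pf.C 6 0x7100c089))) (Pf.C 6 0x60e00189)) (Pf.C 6 0x60e00209)) (Pf.C 6 0x80e00289)) (Pf.C 2 777)) (Pf.C 2 1033)) (Pf.cons (Pf.C 167 1158) Pf.nil))) (Pf.C 6 0x220305)) (Pf.C 0 0xc08288)))) (Pf.C 2 776)) (Pf.cons (Pf.B 8 6 (Pf.C 5 0x20186) (Pf.B 8 7 (Pf.B 8 2 (Pf.B 8 5 (Pf.B 8 1 (Pf.B 8 4 (Pf.W 150 8 [] [2,3,4] (Pf.cons (Pf.B 9 4 (Pf.B 9 3 (Pf.B 9 2 (Pf.C 8 0x4040c409) (Pf.C 126 265)) (Pf.C 3 393)) (Pf.C 3 521)) Pf.nil)) (Pf.W 150 8 [] [2,3,5] (Pf.cons (Pf.B 9 5 (Pf.B 9 3 (Pf.B 9 2 (Pf.C 8 0x5040c409) (Pf.C 126 265)) (Pf.C 3 393)) (Pf.C 3 649))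 Pf.nil))) (Pf.C 8 0x5040c088)) (Pf.C 0 0x418288)) (Pf.C 4 264)) (Pf.C 0 0xc1c400))) Pf.nil))))
 (Pq.cons (Pq.L [0] 0x1c0038 (Pf.C 6 0x70c14001))
 (Pq.cons (Pq.L [] 0 (Pf.C 167 902))
 (Pq.cons (Pq.L [0] 0x1c0038 (Pf.C 6 0x70c14001))
 (Pq.cons (Pq.L [] 0x100030 (Pf.C 5 0x1c086))
 (Pq.cons (Pq.L [] 0x1c0700 (Pf.C 0 0xe18282))
 Pq.nil))))))) (Pq.cons (Pq.L [] 0x40000 (Pf.C 168 646))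
 (Pq.cons (Pq.L [] 0x40000 (Pf.C 3 773))
 (Pq.cons (Pq.D 6 (Pq.cons (Pq.L [] 0x136ef7 (Pf.C 1 0x202061c301))
 (Pq.cons (Pq.L [] 0x100030 (Pf.C 5 98439))
 (Pq.cons (Pq.L [] 0x136ef7 (Pf.C 1 0x202061c301))
 (Pq.cons (Pq.L [] 0x136ef7 (Pf.C 1 0x202061c301))
 (Pq.cons (Pq.L [] 0x136ef7 (Pf.C 1 0x202061c301))
 (Pq.cons (Pq.L [] 0x1dbb19 (Pf.W 146 5 [] [1,2,3,4,6,7] (Pf.cons (Pf.B 8 7 (Pf.B 8 6 (Pf.C 119 776) (Pf.C 0 0xe14308)) (Pf.C 2 904)) (Pf.cons (Pf.B 8 7 (Pf.B 8 6 (Pf.B 8 2 (Pf.B 8 1 (Pf.B 8 4 (Pf.B 8 3 (Pf.W 150 8 [] [2,5,6] (Pf.cons (Pf.B 9 6 (Pf.B 9 5 (Pf.B 9 2 (Pf.C 8 0x60a08409) (Pf.C 126 265)) (Pf.C 3 649)) (Pf.C 126 777)) Pf.nil)) (Pf.W 150 8 [] [3,5,6] (Pf.cons (Pf.B 9 6 (Pf.B 9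 5 (Pf.B 9 3 (Pf.C 8 0x31024305) (Pf.C 3 393)) (Pf.C 3 649)) (Pf.C 126 777)) Pf.nil))) (Pf.B 8 3 (Pf.W 150 8 [] [4,5,6] (Pf.cons (Pf.B 9 6 (Pf.B 9 5 (Pf.B 9 4 (Pf.C 8 0x41024305) (Pf.C 3 521)) (Pf.C 3 649)) (Pf.C 126 777)) Pf.nil)) (Pf.C 8 0x4100c305))) (Pf.C 8 0x60a08088)) (Pf.C 4 264)) (Pf.C 4 776)) (Pf.C 135 904)) Pf.nil))))
 Pq.nil))))))) (Pq.cons (Pq.L [] 0x40000 (Pf.C 129 773))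
 Pq.nil))))))) (Pq.cons (Pq.L [] 256 (Pf.C 4 642))
 (Pq.cons (Pq.L [] 39360 (Pf.C 0 0x814103))
 Pq.nil))))))) (Pq.cons (Pq.L [] 128 (Pf.C 4 514))
 (Pq.cons (Pq.D 4 (Pq.cons (Pq.L [] 256 (Pf.C 126 261))
 (Pq.cons (Pq.L [] 265 (Pf.C 5 32901))
 (Pq.cons (Pq.L [] 256 (Pf.C 4 642))
 (Pq.cons (Pq.L [] 39360 (Pf.C 0 0xa10103))
 (Pq.cons (Pq.L [] 256 (Pf.C 4 642))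
 (Pq.cons (Pq.L [] 39360 (Pf.C 0 0xa0c104))
 Pq.nil))))))) Pq.nil))))))) (Pq.cons (Pq.L [] 64 (Pf.C 4 386))
 (Pq.cons (Pq.D 3 (Pq.cons (Pq.L [] 128 (Pf.C 126 260))
 (Pq.cons (Pq.L [] 133 (Pf.C 5 32900))
 (Pq.cons (Pq.L [] 128 (Pf.C 4 514))
 (Pq.cons (Pq.D 4 (Pq.cons (Pq.L [] 256 (Pf.C 126 261))
 (Pq.cons (Pq.L [] 265 (Pf.C 5 32901))
 (Pq.cons (Pq.L [] 256 (Pf.C 4 642))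
 (Pq.cons (Pq.L [] 39360 (Pf.C 0 0xa0c104))
 (Pq.cons (Pq.L [] 256 (Pf.C 4 642))
 (Pq.cons (Pq.L [] 39360 (Pf.C 0 0xa10103))
 Pq.nil))))))) (Pq.cons (Pq.L [] 128 (Pf.C 4 514))
 (Pq.cons (Pq.D 4 (Pq.cons (Pq.L [] 256 (Pf.C 126 261))
 (Pq.cons (Pq.L [] 265 (Pf.C 5 32901))
 (Pq.cons (Pq.L [] 256 (Pf.C 4 642))
 (Pq.cons (Pq.L [] 39360 (Pf.C 0 0x814103))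
 (Pq.cons (Pq.L [] 256 (Pf.C 4 642))
 (Pq.cons (Pq.D 5 (Pq.cons (Pq.L [] 0x40000 (Pf.C 125 646))
 (Pq.cons (Pq.L [] 0x40000 (Pf.C 2 773))
 (Pq.cons (Pq.L [] 0x40000 (Pf.C 135 646))
 (Pq.cons (Pq.L [] 0x40000 (Pf.C 129 646))
 (Pq.cons (Pq.D 6 (Pq.cons (Pq.L [0] 0x1c0000 (Pf.C 0 0x1c305))
 (Pq.cons (Pq.L [] 0x100030 (Pf.C 5 98439))
 (Pq.cons (Pq.L [] 0x136ec0 (Pf.C 7 0x4040c386))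
 (Pq.cons (Pq.L [] 33152 (Pf.W 152 2 [] [4,5] (Pf.cons (Pf.B 8 5 (Pf.C 129 648) (Pf.B 8 4 (Pf.C 129 520) (Pf.C 0 0xa08404))) Pf.nil)))
 (Pq.cons (Pq.L [] 0x136ec0 (Pf.C 7 0x4040c386))
 (Pq.cons (Pq.L [] 0x136ec0 (Pf.C 7 0x4040c386))
 Pq.nil))))))) (Pq.cons (Pq.L [] 0x40000 (Pf.C 2 773))
 Pq.nil))))))) Pq.nil))))))) Pq.nil))))))) Pq.nil))))))) (Pq.cons (Pq.D 2 (Pq.cons (Pq.L [] 64 (Pf.C 125 259))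
 (Pq.cons (Pq.L [] 64 (Pf.C 2 386))
 (Pq.cons (Pq.L [] 64 (Pf.C 135 259))
 (Pq.cons (Pq.L [] 64 (Pf.C 129 259))
 (Pq.cons (Pq.D 3 (Pq.cons (Pq.L [] 128 (Pf.C 125 260))
 (Pq.cons (Pq.L [] 128 (Pf.C 2 514))
 (Pq.cons (Pq.L [] 128 (Pf.C 135 260))
 (Pq.cons (Pq.L [] 128 (Pf.C 129 260))
 (Pq.cons (Pq.D 4 (Pq.cons (Pq.L [] 256 (Pf.C 125 261))
 (Pq.cons (Pq.L [] 256 (Pf.C 2 642))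
 (Pq.cons (Pq.L [] 256 (Pf.C 135 261))
 (Pq.cons (Pq.L [] 256 (Pf.C 129 261))
 (Pq.cons (Pq.D 5 (Pq.cons (Pq.L [0] 0x40300 (Pf.C 0 98946))
 (Pq.cons (Pq.L [] 0x40018 (Pf.C 5 82054))
 (Pq.cons (Pq.L [] 0x40000 (Pf.C 4 773))
 (Pq.cons (Pq.D 6 (Pq.cons (Pq.L [] 0x1c0700 (Pf.C 0 0xe18105))
 (Pq.cons (Pq.L [] 0x1c0700 (Pf.C 0 0xe18282))
 (Pq.cons (Pq.L [] 0x100000 (Pf.C 168 775))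
 (Pq.cons (Pq.L [] 0x1c0700 (Pf.C 0 0xe18105))
 (Pq.cons (Pq.L [] 0x1c0038 (Pf.W 146 6 [] [1,2,3,4,5,7] (Pf.cons (Pf.B 8 7 (Pf.C 119 904) (Pf.B 8 5 (Pf.C 119 648) (Pf.C 0 0xe18405))) (Pf.cons (Pf.B 8 7 (Pf.B 8 5 (Pf.B 8 4 (Pf.B 8 3 (Pf.B 8 2 (Pf.B 8 1 (Pf.W 150 8 [] [5,6,7] (Pf.cons (Pf.B 9 7 (Pf.B 9 6 (Pf.B 9 5 (Pf.C 8 0x70c14409) (Pf.C 126 649)) (Pf.C 3 777)) (Pf.C 126 905)) Pf.nil)) (Pf.C 8 0x70c14088)) (Pf.C 135 264)) (Pf.C 4 392)) (Pf.C 4 520)) (Pf.C 4 648)) (Pf.C 4 904)) Pf.nil))))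
 (Pq.cons (Pq.L [] 0x106000 (Pf.C 5 49927))
 Pq.nil))))))) (Pq.cons (Pq.L [] 0x40000 (Pf.C 4 773))
 (Pq.cons (Pq.D 6 (Pq.cons (Pq.L [] 0x106000 (Pf.C 5 50054))
 (Pq.cons (Pq.L [] 0x100000 (Pf.C 2 902))
 (Pq.cons (Pq.L [] 0x136ec0 (Pf.C 7 0x4040c386))
 (Pq.cons (Pq.L [] 0x106000 (Pf.C 5 50054))
 (Pq.cons (Pq.L [] 0x136ec0 (Pf.C 7 0x4040c386))
 (Pq.cons (Pq.L [0] 0x106640 (Pf.C 7 0x608386))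
 Pq.nil))))))) Pq.nil))))))) (Pq.cons (Pq.L [] 256 (Pf.C 2 642))
 Pq.nil))))))) (Pq.cons (Pq.L [] 128 (Pf.C 2 514))
 Pq.nil))))))) (Pq.cons (Pq.L [] 64 (Pf.C 2 386))
 Pq.nil))))))) Pq.nil))))))) Pq.nil)
theorem e4_o30 : AllRef e4_T e4_G24 (List.take 1 (List.take 3 (List.flatMap (splitP 0) (List.drop 1 (applyObl d_T 2 [116,111,114,113,92,77] [0,0,0,0,0,0] [(116,0x20000000000000000000),(111,0x100000000000000000000000),(113,0x20000000000000000000),(92,0x8000000000000000000000000000),(77,0x120000000000000000000000000000)]))))) :=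
  chkPq_sound e4_o30c _ (by decide +kernel)
noncomputable def e4_o31c : Pq := (Pq.cons (Pq.D 1 (Pq.cons (Pq.D 2 (Pq.cons (Pq.L [] 64 (Pf.C 3 386))
 (Pq.cons (Pq.D 3 (Pq.cons (Pq.L [] 128 (Pf.C 3 514))
 (Pq.cons (Pq.D 4 (Pq.cons (Pq.L [] 256 (Pf.C 3 642))
 (Pq.cons (Pq.D 5 (Pq.cons (Pq.D 6 (Pq.cons (Pq.L [] 0x136ef7 (Pf.C 1 0x202061c301))
 (Pq.cons (Pq.L [] 0x136ef7 (Pf.C 1 0x202061c301))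
 (Pq.cons (Pq.L [] 0 (Pf.C 167 897))
 (Pq.cons (Pq.L [] 0x136ef7 (Pf.C 1 0x202061c301))
 (Pq.cons (Pq.L [0] 0x1c0000 (Pf.C 0 0x1c305))
 (Pq.cons (Pq.L [] 0x100000 (Pf.C 125 902))
 Pq.nil))))))) (Pq.cons (Pq.L [] 0x40000 (Pf.C 2 773))
 (Pq.cons (Pq.L [] 0 (Pf.C 167 769))
 (Pq.cons (Pq.D 6 (Pq.cons (Pq.L [] 0x136ef7 (Pf.C 1 0x202061c301))
 (Pq.cons (Pq.L [0] 0x106673 (Pf.C 1 0x182001c301))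
 (Pq.cons (Pq.L [] 0 (Pf.C 167 897))
 (Pq.cons (Pq.L [0] 0x106673 (Pf.C 1 0x182001c301))
 (Pq.cons (Pq.L [0] 0x1c0319 (Pf.W 140 5 [] [0,1,2,6,7] (Pf.cons (Pf.B 8 6 (Pf.B 8 2 (Pf.B 8 1 (Pf.T 8 9 (Pf.cons (Pf.W 9 32769 [] [5,6,8] (Pf.cons (Pf.B 9 8 (Pf.C 5 0x24401) (Pf.B 9 2 (Pf.C 5 0x24101) (Pf.C 0 0x1000482))) (Pf.cons (Pf.B 9 8 (Pf.B 9 6 (Pf.B 9 5 (Pf.B 9 2 (Pf.C 6 0x60a08089) (Pf.C 3 265)) (Pf.C 6 0x60a24400)) (Pf.C 3 777)) (Pf.C 3 1033)) Pf.nil))) (Pf.cons (Pf.C 171 136) Pf.nil))) (Pf.C 6 0x60a08088)) (Pf.C 3 264)) (Pf.C 3 776)) (Pf.cons (Pf.B 8 7 (Pf.B 8 6 (Pf.C 132 776) (Pf.C 0 0xe14308)) (Pf.C 4 904)) Pf.nil))))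
 (Pq.cons (Pq.L [] 0x100000 (Pf.C 129 902))
 Pq.nil))))))) (Pq.cons (Pq.L [] 0x40000 (Pf.C 119 773))
 (Pq.cons (Pq.L [] 0x40000 (Pf.C 2 773))
 Pq.nil))))))) (Pq.cons (Pq.L [] 0 (Pf.C 167 641))
 (Pq.cons (Pq.L [] 256 (Pf.C 3 642))
 (Pq.cons (Pq.L [] 256 (Pf.C 126 642))
 (Pq.cons (Pq.L [] 256 (Pf.C 125 642))
 Pq.nil))))))) (Pq.cons (Pq.L [] 0 (Pf.C 167 513))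
 (Pq.cons (Pq.L [] 128 (Pf.C 3 514))
 (Pq.cons (Pq.L [] 128 (Pf.C 126 514))
 (Pq.cons (Pq.L [] 128 (Pf.C 125 514))
 Pq.nil))))))) (Pq.cons (Pq.L [] 0 (Pf.C 167 385))
 (Pq.cons (Pq.L [] 64 (Pf.C 3 386))
 (Pq.cons (Pq.L [] 64 (Pf.C 126 386))
 (Pq.cons (Pq.L [] 64 (Pf.C 125 386))
 Pq.nil))))))) (Pq.cons (Pq.D 2 (Pq.cons (Pq.D 3 (Pq.cons (Pq.D 4 (Pq.cons (Pq.D 5 (Pq.cons (Pq.L [] 0x40000 (Pf.C 3 773))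
 (Pq.cons (Pq.D 6 (Pq.cons (Pq.L [] 0x136ef7 (Pf.C 1 0x202061c301))
 (Pq.cons (Pq.L [0] 0x106673 (Pf.C 1 0x103001c301))
 (Pq.cons (Pq.L [] 0 (Pf.C 167 897))
 (Pq.cons (Pq.L [0] 0x106673 (Pf.C 1 0x103001c301))
 (Pq.cons (Pq.L [] 0x106000 (Pf.C 5 0x1c186))
 (Pq.cons (Pq.L [] 0x100000 (Pf.C 2 902))
 Pq.nil))))))) (Pq.cons (Pq.L [] 0 (Pf.C 167 769))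
 (Pq.cons (Pq.L [] 0x40000 (Pf.C 3 773))
 (Pq.cons (Pq.L [0] 0x40300 (Pf.C 0 98946))
 (Pq.cons (Pq.L [] 0x40000 (Pf.C 125 773))
 Pq.nil))))))) (Pq.cons (Pq.L [] 256 (Pf.C 2 642))
 (Pq.cons (Pq.L [] 0 (Pf.C 167 641))
 (Pq.cons (Pq.D 5 (Pq.cons (Pq.L [] 0x40000 (Pf.C 3 773))
 (Pq.cons (Pq.L [0] 0x5b81e (Pf.C 1 0x2000618281))
 (Pq.cons (Pq.L [] 0 (Pf.C 167 769))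
 (Pq.cons (Pq.L [0] 0x5b81e (Pf.C 1 0x2000618281))
 (Pq.cons (Pq.D 6 (Pq.cons (Pq.L [] 0x100000 (Pf.C 126 775))
 (Pq.cons (Pq.L [] 0x106000 (Pf.C 5 98695))
 (Pq.cons (Pq.L [] 0 (Pf.C 167 897))
 (Pq.cons (Pq.L [0] 2054 (Pf.W 9 49153 [] [4] (Pf.cons (Pf.B 8 4 (Pf.C 5 0x20201) (Pf.B 8 3 (Pf.C 5 0x20181) (Pf.C 0 0x800403))) (Pf.cons (Pf.B 8 4 (Pf.B 8 3 (Pf.C 6 0x4000c088) (Pf.C 3 392)) (Pf.C 3 520)) Pf.nil))))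
 (Pq.cons (Pq.L [0] 0x100030 (Pf.C 0 0x1c301))
 (Pq.cons (Pq.L [] 0x1c0700 (Pf.C 0 0xe18282))
 Pq.nil))))))) (Pq.cons (Pq.L [] 0x40000 (Pf.C 129 773))
 Pq.nil))))))) (Pq.cons (Pq.L [] 256 (Pf.C 119 642))
 (Pq.cons (Pq.L [] 256 (Pf.C 2 642))
 Pq.nil))))))) (Pq.cons (Pq.L [] 128 (Pf.C 2 514))
 (Pq.cons (Pq.L [] 0 (Pf.C 167 513))
 (Pq.cons (Pq.D 4 (Pq.cons (Pq.D 5 (Pq.cons (Pq.L [] 0x40000 (Pf.C 3 773))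
 (Pq.cons (Pq.D 6 (Pq.cons (Pq.L [0] 0x1306b5 (Pf.C 1 0x3070010101))
 (Pq.cons (Pq.L [0] 0x106673 (Pf.C 1 0x103001c301))
 (Pq.cons (Pq.L [] 0 (Pf.C 167 897))
 (Pq.cons (Pq.L [0] 0x106673 (Pf.C 1 0x103001c301))
 (Pq.cons (Pq.L [] 0x106000 (Pf.C 5 0x1c186))
 (Pq.cons (Pq.L [] 0x100000 (Pf.C 2 902))
 Pq.nil))))))) (Pq.cons (Pq.L [] 0 (Pf.C 167 769))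
 (Pq.cons (Pq.L [] 0x40000 (Pf.C 3 773))
 (Pq.cons (Pq.L [0] 0x40300 (Pf.C 0 98946))
 (Pq.cons (Pq.L [] 0x40000 (Pf.C 125 773))
 Pq.nil))))))) (Pq.cons (Pq.L [] 256 (Pf.C 2 642))
 (Pq.cons (Pq.L [] 0 (Pf.C 167 641))
 (Pq.cons (Pq.D 5 (Pq.cons (Pq.L [] 0x40000 (Pf.C 3 773))
 (Pq.cons (Pq.D 6 (Pq.cons (Pq.L [0] 0xa85ad (Pf.C 1 0x282081c001))
 (Pq.cons (Pq.L [0] 0x1c703a (Pf.C 1 0x3860a0c001))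
 (Pq.cons (Pq.L [] 0 (Pf.C 167 897))
 (Pq.cons (Pq.L [0] 0x1c703a (Pf.C 1 0x3860a0c001))
 (Pq.cons (Pq.L [0] 0x1f803c (Pf.C 1 0x70218284))
 (Pq.cons (Pq.L [] 0x100000 (Pf.C 2 902))
 Pq.nil))))))) (Pq.cons (Pq.L [] 0 (Pf.C 167 769))
 (Pq.cons (Pq.L [] 0x40000 (Pf.C 3 773))
 (Pq.cons (Pq.D 6 (Pq.cons (Pq.L [0] 0xa85ad (Pf.C 1 0x282081c001))
 (Pq.cons (Pq.L [] 0x106000 (Pf.C 5 98695))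
 (Pq.cons (Pq.L [] 0 (Pf.C 167 897))
 (Pq.cons (Pq.L [0] 0x48380 (Pf.W 140 2 [] [0,4,5,6] (Pf.cons (Pf.B 8 5 (Pf.B 8 4 (Pf.C 6 0x50410008) (Pf.C 3 520)) (Pf.C 3 648)) (Pf.cons (Pf.B 8 6 (Pf.B 8 5 (Pf.C 132 648) (Pf.C 0 0xc08288)) (Pf.C 4 776)) Pf.nil))))
 (Pq.cons (Pq.L [0] 0x100030 (Pf.C 0 0x1c301))
 (Pq.cons (Pq.L [] 0x1c0700 (Pf.C 0 0xe18282))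
 Pq.nil))))))) (Pq.cons (Pq.L [] 0x40000 (Pf.C 129 773))
 Pq.nil))))))) (Pq.cons (Pq.L [] 256 (Pf.C 119 642))
 (Pq.cons (Pq.L [] 256 (Pf.C 2 642))
 Pq.nil))))))) (Pq.cons (Pq.L [] 128 (Pf.C 119 514))
 (Pq.cons (Pq.L [] 128 (Pf.C 2 514))
 Pq.nil))))))) (Pq.cons (Pq.L [] 64 (Pf.C 2 386))
 (Pq.cons (Pq.L [] 0 (Pf.C 167 385))
 (Pq.cons (Pq.D 3 (Pq.cons (Pq.D 4 (Pq.cons (Pq.D 5 (Pq.cons (Pq.L [] 0x40000 (Pf.C 3 773))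
 (Pq.cons (Pq.D 6 (Pq.cons (Pq.L [0] 0x106673 (Pf.C 1 0x307000c101))
 (Pq.cons (Pq.L [0] 0x1306b5 (Pf.C 1 0x104001c301))
 (Pq.cons (Pq.L [] 0 (Pf.C 167 897))
 (Pq.cons (Pq.L [0] 0x1306b5 (Pf.C 1 0x104001c301))
 (Pq.cons (Pq.L [] 0x106000 (Pf.C 5 0x1c186))
 (Pq.cons (Pq.L [] 0x100000 (Pf.C 2 902))
 Pq.nil))))))) (Pq.cons (Pq.L [] 0 (Pf.C 167 769))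
 (Pq.cons (Pq.L [] 0x40000 (Pf.C 3 773))
 (Pq.cons (Pq.L [0] 0x40300 (Pf.C 0 98946))
 (Pq.cons (Pq.L [] 0x40000 (Pf.C 125 773))
 Pq.nil))))))) (Pq.cons (Pq.L [] 256 (Pf.C 2 642))
 (Pq.cons (Pq.L [] 0 (Pf.C 167 641))
 (Pq.cons (Pq.D 5 (Pq.cons (Pq.L [] 0x40000 (Pf.C 3 773))
 (Pq.cons (Pq.D 6 (Pq.cons (Pq.L [0] 0x8556b (Pf.C 1 0x282061c001))
 (Pq.cons (Pq.L [0] 0x1f803c (Pf.C 1 0x3860a10001))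
 (Pq.cons (Pq.L [] 0 (Pf.C 167 897))
 (Pq.cons (Pq.L [0] 0x1f803c (Pf.C 1 0x3860a10001))
 (Pq.cons (Pq.L [0] 0x1c703a (Pf.C 1 0x70218283))
 (Pq.cons (Pq.L [] 0x100000 (Pf.C 2 902))
 Pq.nil))))))) (Pq.cons (Pq.L [] 0 (Pf.C 167 769))
 (Pq.cons (Pq.L [] 0x40000 (Pf.C 3 773))
 (Pq.cons (Pq.D 6 (Pq.cons (Pq.L [0] 0x8556b (Pf.C 1 0x282061c001))
 (Pq.cons (Pq.L [] 0x106000 (Pf.C 5 98695))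
 (Pq.cons (Pq.L [] 0 (Pf.C 167 897))
 (Pq.cons (Pq.L [0] 0x41340 (Pf.W 140 2 [] [0,3,5,6] (Pf.cons (Pf.B 8 5 (Pf.B 8 3 (Pf.C 6 0x5040c008) (Pf.C 3 392)) (Pf.C 3 648)) (Pf.cons (Pf.B 8 6 (Pf.B 8 5 (Pf.C 132 648) (Pf.C 0 0xc08288)) (Pf.C 4 776)) Pf.nil))))
 (Pq.cons (Pq.L [0] 0x100030 (Pf.C 0 0x1c301))
 (Pq.cons (Pq.L [] 0x1c0700 (Pf.C 0 0xe18282))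
 Pq.nil))))))) (Pq.cons (Pq.L [] 0x40000 (Pf.C 129 773))
 Pq.nil))))))) (Pq.cons (Pq.L [] 256 (Pf.C 119 642))
 (Pq.cons (Pq.L [] 256 (Pf.C 2 642))
 Pq.nil))))))) (Pq.cons (Pq.L [] 128 (Pf.C 2 514))
 (Pq.cons (Pq.L [] 0 (Pf.C 167 513))
 (Pq.cons (Pq.D 4 (Pq.cons (Pq.D 5 (Pq.cons (Pq.L [0] 76503 (Pf.C 1 0x2020618001))
 (Pq.cons (Pq.D 6 (Pq.cons (Pq.L [0] 0x24ce7 (Pf.C 1 0x202061c001))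
 (Pq.cons (Pq.L [] 0x136ef7 (Pf.C 1 0x202061c301))
 (Pq.cons (Pq.L [] 0 (Pf.C 167 897))
 (Pq.cons (Pq.L [] 0x136ef7 (Pf.C 1 0x202061c301))
 (Pq.cons (Pq.L [] 0x106000 (Pf.C 5 0x1c186))
 (Pq.cons (Pq.L [] 0x100000 (Pf.C 2 902))
 Pq.nil))))))) (Pq.cons (Pq.L [] 0 (Pf.C 167 769))
 (Pq.cons (Pq.L [] 0x40000 (Pf.C 3 773))
 (Pq.cons (Pq.L [0] 0x40300 (Pf.C 0 98946))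
 (Pq.cons (Pq.L [0] 0x5b81e (Pf.C 1 0x2060614001))
 Pq.nil))))))) (Pq.cons (Pq.L [] 256 (Pf.C 2 642))
 (Pq.cons (Pq.L [] 0 (Pf.C 167 641))
 (Pq.cons (Pq.D 5 (Pq.cons (Pq.L [0] 76503 (Pf.C 1 0x2020618001))
 (Pq.cons (Pq.D 6 (Pq.cons (Pq.L [0] 0x24ce7 (Pf.C 1 0x202061c001))
 (Pq.cons (Pq.L [] 0x136ef7 (Pf.C 1 0x202061c301))
 (Pq.cons (Pq.L [] 0 (Pf.C 167 897))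
 (Pq.cons (Pq.L [] 0x136ef7 (Pf.C 1 0x202061c301))
 (Pq.cons (Pq.L [0] 0x1c703a (Pf.C 1 0x70218283))
 (Pq.cons (Pq.L [] 0x100000 (Pf.C 2 902))
 Pq.nil))))))) (Pq.cons (Pq.L [] 0 (Pf.C 167 769))
 (Pq.cons (Pq.L [] 0x40000 (Pf.C 3 773))
 (Pq.cons (Pq.D 6 (Pq.cons (Pq.L [0] 0x24ce7 (Pf.C 1 0x202061c001))
 (Pq.cons (Pq.L [] 0x106000 (Pf.C 5 98695))
 (Pq.cons (Pq.L [] 0 (Pf.C 167 897))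
 (Pq.cons (Pq.L [0] 0x48380 (Pf.W 140 2 [] [0,4,5,6] (Pf.cons (Pf.B 8 5 (Pf.B 8 4 (Pf.C 6 0x50410008) (Pf.C 3 520)) (Pf.C 3 648)) (Pf.cons (Pf.B 8 6 (Pf.B 8 5 (Pf.C 132 648) (Pf.C 0 0xc08288)) (Pf.C 4 776)) Pf.nil))))
 (Pq.cons (Pq.L [0] 0x100030 (Pf.C 0 0x1c301))
 (Pq.cons (Pq.L [] 0x1c0700 (Pf.C 0 0xe18282))
 Pq.nil))))))) (Pq.cons (Pq.L [] 0x40000 (Pf.C 129 773))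
 Pq.nil))))))) (Pq.cons (Pq.L [] 256 (Pf.C 119 642))
 (Pq.cons (Pq.L [] 256 (Pf.C 2 642))
 Pq.nil))))))) (Pq.cons (Pq.L [] 128 (Pf.C 119 514))
 (Pq.cons (Pq.L [] 128 (Pf.C 2 514))
 Pq.nil))))))) (Pq.cons (Pq.L [] 64 (Pf.C 119 386))
 (Pq.cons (Pq.L [] 64 (Pf.C 2 386))
 Pq.nil))))))) (Pq.cons (Pq.L [] 0 (Pf.C 167 257))
 (Pq.cons (Pq.D 2 (Pq.cons (Pq.L [] 64 (Pf.C 3 386))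
 (Pq.cons (Pq.D 3 (Pq.cons (Pq.L [] 128 (Pf.C 3 514))
 (Pq.cons (Pq.D 4 (Pq.cons (Pq.L [] 256 (Pf.C 3 642))
 (Pq.cons (Pq.D 5 (Pq.cons (Pq.L [0] 76503 (Pf.C 1 0x2020618001))
 (Pq.cons (Pq.L [] 0x40000 (Pf.C 2 773))
 (Pq.cons (Pq.L [] 0 (Pf.C 167 769))
 (Pq.cons (Pq.D 6 (Pq.cons (Pq.L [0] 0x24ce7 (Pf.C 1 0x202061c001))
 (Pq.cons (Pq.L [] 0x136ef7 (Pf.C 1 0x202061c301))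
 (Pq.cons (Pq.L [] 0 (Pf.C 167 897))
 (Pq.cons (Pq.L [] 0x136ef7 (Pf.C 1 0x202061c301))
 (Pq.cons (Pq.L [0] 0x1c0300 (Pf.W 140 5 [] [0,2,6,7] (Pf.cons (Pf.B 8 6 (Pf.B 8 2 (Pf.C 6 0x60a08008) (Pf.C 3 264)) (Pf.C 3 776)) (Pf.cons (Pf.B 8 7 (Pf.B 8 6 (Pf.C 132 776) (Pf.C 0 0xe14308)) (Pf.C 4 904)) Pf.nil))))
 (Pq.cons (Pq.L [] 0x100000 (Pf.C 129 902))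
 Pq.nil))))))) (Pq.cons (Pq.L [] 0x40000 (Pf.C 119 773))
 (Pq.cons (Pq.L [] 0x40000 (Pf.C 2 773))
 Pq.nil))))))) (Pq.cons (Pq.L [] 0 (Pf.C 167 641))
 (Pq.cons (Pq.L [] 256 (Pf.C 3 642))
 (Pq.cons (Pq.L [] 39360 (Pf.C 0 0x814103))
 (Pq.cons (Pq.L [] 256 (Pf.C 129 642))
 Pq.nil))))))) (Pq.cons (Pq.L [] 0 (Pf.C 167 513))
 (Pq.cons (Pq.L [] 128 (Pf.C 3 514))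
 (Pq.cons (Pq.D 4 (Pq.cons (Pq.L [] 256 (Pf.C 3 642))
 (Pq.cons (Pq.L [] 39360 (Pf.C 0 0xa10103))
 (Pq.cons (Pq.L [] 0 (Pf.C 167 641))
 (Pq.cons (Pq.L [] 256 (Pf.C 3 642))
 (Pq.cons (Pq.L [] 39360 (Pf.C 0 0xa0c104))
 (Pq.cons (Pq.L [] 256 (Pf.C 129 642))
 Pq.nil))))))) (Pq.cons (Pq.L [] 128 (Pf.C 129 514))
 Pq.nil))))))) (Pq.cons (Pq.L [] 0 (Pf.C 167 385))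
 (Pq.cons (Pq.L [] 64 (Pf.C 3 386))
 (Pq.cons (Pq.D 3 (Pq.cons (Pq.L [] 128 (Pf.C 3 514))
 (Pq.cons (Pq.D 4 (Pq.cons (Pq.L [] 256 (Pf.C 3 642))
 (Pq.cons (Pq.L [] 39360 (Pf.C 0 0xa0c104))
 (Pq.cons (Pq.L [] 0 (Pf.C 167 641))
 (Pq.cons (Pq.L [] 256 (Pf.C 3 642))
 (Pq.cons (Pq.L [] 39360 (Pf.C 0 0xa10103))
 (Pq.cons (Pq.L [] 256 (Pf.C 129 642))
 Pq.nil))))))) (Pq.cons (Pq.L [] 0 (Pf.C 167 513))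
 (Pq.cons (Pq.L [] 128 (Pf.C 3 514))
 (Pq.cons (Pq.D 4 (Pq.cons (Pq.L [] 256 (Pf.C 3 642))
 (Pq.cons (Pq.L [] 39360 (Pf.C 0 0x814103))
 (Pq.cons (Pq.L [] 0 (Pf.C 167 641))
 (Pq.cons (Pq.L [] 256 (Pf.C 3 642))
 (Pq.cons (Pq.D 5 (Pq.cons (Pq.L [] 0x40000 (Pf.C 126 646))
 (Pq.cons (Pq.L [] 0x40000 (Pf.C 119 646))
 (Pq.cons (Pq.L [] 0 (Pf.C 167 769))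
 (Pq.cons (Pq.D 6 (Pq.cons (Pq.L [] 0x136ec0 (Pf.C 8 0x4040c386))
 (Pq.cons (Pq.L [0] 0x1c87b1 (Pf.W 140 7 [] [0,1,2,3,4,5,6] (Pf.cons (Pf.B 8 6 (Pf.B 8 5 (Pf.B 8 2 (Pf.B 8 1 (Pf.T 8 9 (Pf.cons (Pf.W 146 2 [] [0,1,3,4,5,6,7,8] (Pf.cons (Pf.B 9 5 (Pf.C 119 649) (Pf.B 9 4 (Pf.C 119 521) (Pf.C 0 0xa08484))) (Pf.cons (Pf.B 9 7 (Pf.C 5 0x24107) (Pf.B 9 5 (Pf.B 9 6 (Pf.B 9 8 (Pf.B 9 4 (Pf.B 9 3 (Pf.B 9 1 (Pf.C 5 0x24101) (Pf.W 150 9 [] [0,6,7,8] (Pf.cons (Pf.B 10 8 (Pf.B 10 7 (Pf.B 10 6 (Pf.C 6 0x80028386) (Pf.C 3 778)) (Pf.C 0 0x24507)) (Pf.C 3 1034)) Pf.nil))) (Pf.C 4 393)) (Pf.C 4 521)) (Pf.C 8 0x60a08409)) (Pf.C 0 0xa1c309)) (Pf.C 4 649))) Pf.nil))) (Pf.cons (Pf.C 171 136) Pf.nil))) (Pf.C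 6 0x1004386)) (Pf.C 3 264)) (Pf.C 126 648)) (Pf.C 3 776)) (Pf.cons (Pf.B 8 6 (Pf.C 132 776) (Pf.B 8 5 (Pf.C 0 0xa1c308) (Pf.C 4 648))) Pf.nil))))
 (Pq.cons (Pq.L [] 0 (Pf.C 167 897))
 (Pq.cons (Pq.L [] 0x136ec0 (Pf.C 8 0x4040c386))
 (Pq.cons (Pq.L [] 0x136ec0 (Pf.C 8 0x4040c386))
 (Pq.cons (Pq.L [] 0x106000 (Pf.C 5 49927))
 Pq.nil))))))) (Pq.cons (Pq.L [0] 0x40018 (Pf.C 0 98945))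
 (Pq.cons (Pq.D 6 (Pq.cons (Pq.L [] 0x106000 (Pf.C 5 50054))
 (Pq.cons (Pq.L [] 0x1c0700 (Pf.C 0 0xe18282))
 (Pq.cons (Pq.L [] 0 (Pf.C 167 897))
 (Pq.cons (Pq.L [] 0x106000 (Pf.C 5 50054))
 (Pq.cons (Pq.L [] 0x40bc1 (Pf.W 146 2 [] [1,3,4,5,6,7] (Pf.cons (Pf.B 8 6 (Pf.B 8 5 (Pf.C 119 648) (Pf.C 0 0xc08288)) (Pf.C 2 776)) (Pf.cons (Pf.B 8 7 (Pf.B 8 6 (Pf.B 8 5 (Pf.B 8 4 (Pf.B 8 3 (Pf.B 8 1 (Pf.C 5 0x20101) (Pf.W 150 8 [] [2,3,4] (Pf.cons (Pf.B 9 4 (Pf.B 9 3 (Pf.B 9 2 (Pf.C 8 0x4040c409) (Pf.C 3 265)) (Pf.C 126 393)) (Pf.C 126 521)) Pf.nil))) (Pf.C 4 392)) (Pf.C 4 520)) (Pf.C 4 648)) (Pf.C 135 776)) (Pf.C 4 904)) Pf.nil))))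
 (Pq.cons (Pq.L [0] 0x106032 (Pf.C 7 0x604386))
 Pq.nil))))))) Pq.nil))))))) (Pq.cons (Pq.L [] 256 (Pf.C 129 642))
 Pq.nil))))))) (Pq.cons (Pq.L [] 128 (Pf.C 129 514))
 Pq.nil))))))) (Pq.cons (Pq.L [] 64 (Pf.C 129 386))
 Pq.nil))))))) (Pq.cons (Pq.D 2 (Pq.cons (Pq.L [] 64 (Pf.C 126 259))
 (Pq.cons (Pq.L [] 64 (Pf.C 119 259))
 (Pq.cons (Pq.L [] 0 (Pf.C 167 385))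
 (Pq.cons (Pq.D 3 (Pq.cons (Pq.L [] 128 (Pf.C 126 260))
 (Pq.cons (Pq.L [] 128 (Pf.C 119 260))
 (Pq.cons (Pq.L [] 0 (Pf.C 167 513))
 (Pq.cons (Pq.D 4 (Pq.cons (Pq.L [] 256 (Pf.C 126 261))
 (Pq.cons (Pq.L [] 256 (Pf.C 119 261))
 (Pq.cons (Pq.L [] 0 (Pf.C 167 641))
 (Pq.cons (Pq.D 5 (Pq.cons (Pq.L [] 0x40000 (Pf.C 3 773))
 (Pq.cons (Pq.D 6 (Pq.cons (Pq.L [0] 0x1c0338 (Pf.W 140 6 [] [0,1,2,5,7] (Pf.cons (Pf.B 8 7 (Pf.B 8 5 (Pf.B 8 1 (Pf.T 8 9 (Pf.cons (Pf.W 9 0x1c001 [] [8] (Pf.cons (Pf.B 9 8 (Pf.C 5 0x24401) (Pf.B 9 7 (Pf.C 5 0x24381) (Pf.C 0 0x1000487))) (Pf.cons (Pf.B 9 8 (Pf.B 9 7 (Pf.C 6 0x8001c089) (Pf.C 3 905)) (Pf.C 3 1033)) Pf.nil))) (Pf.cons (Pf.C 171 136) Pf.nil))) (Pf.C 6 0x70c14088))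 (Pf.C 3 648)) (Pf.C 3 904)) (Pf.cons (Pf.B 8 5 (Pf.C 132 648) (Pf.B 8 2 (Pf.C 0 0x418288) (Pf.C 4 264))) Pf.nil))))
 (Pq.cons (Pq.L [] 0x1c0700 (Pf.C 0 0xe18105))
 (Pq.cons (Pq.L [] 0 (Pf.C 167 897))
 (Pq.cons (Pq.L [0] 0x1c0000 (Pf.W 140 6 [] [0,5,7] (Pf.cons (Pf.B 8 7 (Pf.B 8 5 (Pf.C 6 0x70c14008) (Pf.C 3 648)) (Pf.C 3 904)) (Pf.cons (Pf.B 8 7 (Pf.C 132 904) (Pf.B 8 5 (Pf.C 132 648) (Pf.C 0 0xe18405))) Pf.nil))))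
 (Pq.cons (Pq.L [0] 0x1c703a (Pf.C 1 0x70218283))
 (Pq.cons (Pq.L [] 0x1c0700 (Pf.C 0 0xe18282))
 Pq.nil))))))) (Pq.cons (Pq.L [] 0 (Pf.C 167 769))
 (Pq.cons (Pq.L [] 0x40000 (Pf.C 3 773))
 (Pq.cons (Pq.D 6 (Pq.cons (Pq.L [] 0x136ec0 (Pf.C 8 0x4040c386))
 (Pq.cons (Pq.L [] 0x106000 (Pf.C 5 98695))
 (Pq.cons (Pq.L [] 0 (Pf.C 167 897))
 (Pq.cons (Pq.L [] 0x136ec0 (Pf.C 8 0x4040c386))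
 (Pq.cons (Pq.L [0] 0x100030 (Pf.C 0 0x1c301))
 (Pq.cons (Pq.L [] 0x1dbb08 (Pf.W 146 5 [] [1,2,3,4,6,7] (Pf.cons (Pf.B 8 7 (Pf.B 8 6 (Pf.C 119 776) (Pf.C 0 0xe14308)) (Pf.C 2 904)) (Pf.cons (Pf.B 8 7 (Pf.B 8 6 (Pf.B 8 2 (Pf.B 8 1 (Pf.C 5 0x20281) (Pf.B 8 4 (Pf.B 8 3 (Pf.W 150 8 [] [2,5,6] (Pf.cons (Pf.B 9 6 (Pf.B 9 5 (Pf.B 9 2 (Pf.C 8 0x60a08409) (Pf.C 126 265)) (Pf.C 3 649)) (Pf.C 126 777)) Pf.nil)) (Pf.W 150 8 [] [3,5,6] (Pf.cons (Pf.B 9 6 (Pf.B 9 5 (Pf.B 9 3 (Pf.C 8 0x31024305) (Pf.C 3 393)) (Pf.C 3 649)) (Pf.C 126 777)) Pf.nil))) (Pf.B 8 3 (Pf.W 150 8 [] [4,5,6] (Pf.cons (Pf.B 9 6 (Pf.B 9 5 (Pf.B 9 4 (Pf.C 8 0x41024305) (Pf.C 3 521)) (Pf.C 3 649)) (Pf.C 126 777)) Pf.nil)) (Pf.C 8 0x4100c305))))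 (Pf.C 4 264)) (Pf.C 4 776)) (Pf.C 135 904)) Pf.nil))))
 Pq.nil))))))) (Pq.cons (Pq.L [] 0x40000 (Pf.C 129 773))
 Pq.nil))))))) (Pq.cons (Pq.L [0] 265 (Pf.C 0 82177))
 (Pq.cons (Pq.L [] 39360 (Pf.C 0 0x814103))
 Pq.nil))))))) (Pq.cons (Pq.L [0] 133 (Pf.C 0 65793))
 (Pq.cons (Pq.D 4 (Pq.cons (Pq.L [] 256 (Pf.C 126 261))
 (Pq.cons (Pq.L [] 256 (Pf.C 119 261))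
 (Pq.cons (Pq.L [] 0 (Pf.C 167 641))
 (Pq.cons (Pq.L [] 39360 (Pf.C 0 0xa10103))
 (Pq.cons (Pq.L [0] 265 (Pf.C 0 82177))
 (Pq.cons (Pq.L [] 39360 (Pf.C 0 0xa0c104))
 Pq.nil))))))) Pq.nil))))))) (Pq.cons (Pq.L [0] 67 (Pf.C 0 49409))
 (Pq.cons (Pq.D 3 (Pq.cons (Pq.L [] 128 (Pf.C 126 260))
 (Pq.cons (Pq.L [] 128 (Pf.C 119 260))
 (Pq.cons (Pq.L [] 0 (Pf.C 167 513))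
 (Pq.cons (Pq.D 4 (Pq.cons (Pq.L [] 256 (Pf.C 126 261))
 (Pq.cons (Pq.L [] 256 (Pf.C 119 261))
 (Pq.cons (Pq.L [] 0 (Pf.C 167 641))
 (Pq.cons (Pq.L [] 39360 (Pf.C 0 0xa0c104))
 (Pq.cons (Pq.L [0] 265 (Pf.C 0 82177))
 (Pq.cons (Pq.L [] 39360 (Pf.C 0 0xa10103))
 Pq.nil))))))) (Pq.cons (Pq.L [0] 133 (Pf.C 0 65793))
 (Pq.cons (Pq.D 4 (Pq.cons (Pq.L [] 256 (Pf.C 126 261))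
 (Pq.cons (Pq.L [] 256 (Pf.C 119 261))
 (Pq.cons (Pq.L [] 0 (Pf.C 167 641))
 (Pq.cons (Pq.L [] 39360 (Pf.C 0 0x814103))
 (Pq.cons (Pq.L [0] 265 (Pf.C 0 82177))
 (Pq.cons (Pq.D 5 (Pq.cons (Pq.L [] 0x40000 (Pf.C 125 646))
 (Pq.cons (Pq.L [] 0x40000 (Pf.C 2 773))
 (Pq.cons (Pq.L [] 0 (Pf.C 167 769))
 (Pq.cons (Pq.L [] 0x40000 (Pf.C 129 646))
 (Pq.cons (Pq.D 6 (Pq.cons (Pq.L [0] 0x1c0000 (Pf.C 0 0x1c305))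
 (Pq.cons (Pq.L [] 0x100000 (Pf.C 119 775))
 (Pq.cons (Pq.L [] 0 (Pf.C 167 897))
 (Pq.cons (Pq.L [] 33152 (Pf.W 152 2 [] [4,5] (Pf.cons (Pf.B 8 5 (Pf.C 129 648) (Pf.B 8 4 (Pf.C 129 520) (Pf.C 0 0xa08404))) Pf.nil)))
 (Pq.cons (Pq.L [0] 0x100030 (Pf.C 0 0x1c301))
 (Pq.cons (Pq.L [] 0x136ec0 (Pf.C 7 0x4040c386))
 Pq.nil))))))) (Pq.cons (Pq.L [] 0x40000 (Pf.C 2 773))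
 Pq.nil))))))) Pq.nil))))))) Pq.nil))))))) Pq.nil))))))) (Pq.cons (Pq.D 2 (Pq.cons (Pq.L [] 64 (Pf.C 125 259))
 (Pq.cons (Pq.L [] 64 (Pf.C 2 386))
 (Pq.cons (Pq.L [] 0 (Pf.C 167 385))
 (Pq.cons (Pq.L [] 64 (Pf.C 129 259))
 (Pq.cons (Pq.D 3 (Pq.cons (Pq.L [] 128 (Pf.C 125 260))
 (Pq.cons (Pq.L [] 128 (Pf.C 2 514))
 (Pq.cons (Pq.L [] 0 (Pf.C 167 513))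
 (Pq.cons (Pq.L [] 128 (Pf.C 129 260))
 (Pq.cons (Pq.D 4 (Pq.cons (Pq.L [] 256 (Pf.C 125 261))
 (Pq.cons (Pq.L [] 256 (Pf.C 2 642))
 (Pq.cons (Pq.L [] 0 (Pf.C 167 641))
 (Pq.cons (Pq.L [] 256 (Pf.C 129 261))
 (Pq.cons (Pq.D 5 (Pq.cons (Pq.L [0] 0x40300 (Pf.C 0 98946))
 (Pq.cons (Pq.L [] 0x40000 (Pf.C 119 646))
 (Pq.cons (Pq.L [] 0 (Pf.C 167 769))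
 (Pq.cons (Pq.D 6 (Pq.cons (Pq.L [] 0x1c0700 (Pf.C 0 0xe18105))
 (Pq.cons (Pq.L [] 0x1c0700 (Pf.C 0 0xe18282))
 (Pq.cons (Pq.L [] 0 (Pf.C 167 897))
 (Pq.cons (Pq.L [] 0x1c0700 (Pf.C 0 0xe18105))
 (Pq.cons (Pq.L [] 0x1c0010 (Pf.W 146 6 [] [1,2,3,4,5,7] (Pf.cons (Pf.B 8 7 (Pf.C 119 904) (Pf.B 8 5 (Pf.C 119 648) (Pf.C 0 0xe18405))) (Pf.cons (Pf.B 8 7 (Pf.B 8 5 (Pf.B 8 4 (Pf.B 8 3 (Pf.B 8 2 (Pf.B 8 1 (Pf.C 5 0x20301) (Pf.W 150 8 [] [5,6,7] (Pf.cons (Pf.B 9 7 (Pf.B 9 6 (Pf.B 9 5 (Pf.C 8 0x70c14409) (Pf.C 126 649)) (Pf.C 3 777)) (Pf.C 126 905)) Pf.nil))) (Pf.C 135 264)) (Pf.C 4 392)) (Pf.C 4 520)) (Pf.C 4 648)) (Pf.C 4 904)) Pf.nil))))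
 (Pq.cons (Pq.L [] 0x106000 (Pf.C 5 49927))
 Pq.nil))))))) (Pq.cons (Pq.L [0] 0x40018 (Pf.C 0 98945))
 (Pq.cons (Pq.D 6 (Pq.cons (Pq.L [] 0x106000 (Pf.C 5 50054))
 (Pq.cons (Pq.L [] 0x100000 (Pf.C 2 902))
 (Pq.cons (Pq.L [] 0 (Pf.C 167 897))
 (Pq.cons (Pq.L [] 0x106000 (Pf.C 5 50054))
 (Pq.cons (Pq.L [] 0x136ec0 (Pf.C 7 0x4040c386))
 (Pq.cons (Pq.L [0] 0x106032 (Pf.C 7 0x604386))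
 Pq.nil))))))) Pq.nil))))))) (Pq.cons (Pq.L [] 256 (Pf.C 2 642))
 Pq.nil))))))) (Pq.cons (Pq.L [] 128 (Pf.C 2 514))
 Pq.nil))))))) (Pq.cons (Pq.L [] 64 (Pf.C 2 386))
 Pq.nil))))))) Pq.nil))))))) (Pq.cons (Pq.D 1 (Pq.cons (Pq.D 2 (Pq.cons (Pq.L [] 64 (Pf.C 3 386))
 (Pq.cons (Pq.L [] 0 (Pf.C 167 131))
 (Pq.cons (Pq.D 3 (Pq.cons (Pq.L [] 128 (Pf.C 3 514))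
 (Pq.cons (Pq.L [] 0 (Pf.C 167 132))
 (Pq.cons (Pq.L [0] 2240 (Pf.C 0 0x800103))
 (Pq.cons (Pq.L [] 128 (Pf.C 3 514))
 (Pq.cons (Pq.L [] 128 (Pf.C 126 514))
 (Pq.cons (Pq.L [] 133 (Pf.C 5 16644))
 Pq.nil))))))) (Pq.cons (Pq.L [] 64 (Pf.C 3 386))
 (Pq.cons (Pq.L [] 64 (Pf.C 126 386))
 (Pq.cons (Pq.L [] 67 (Pf.C 5 16643))
 Pq.nil))))))) (Pq.cons (Pq.L [] 0 (Pf.C 167 130))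
 (Pq.cons (Pq.D 2 (Pq.cons (Pq.D 3 (Pq.cons (Pq.L [0] 2240 (Pf.C 0 0x800103))
 (Pq.cons (Pq.L [] 0 (Pf.C 167 132))
 (Pq.cons (Pq.L [] 128 (Pf.C 4 514))
 (Pq.cons (Pq.L [] 128 (Pf.C 168 514))
 (Pq.cons (Pq.L [] 128 (Pf.C 4 514))
 (Pq.cons (Pq.L [] 128 (Pf.C 135 514))
 Pq.nil))))))) (Pq.cons (Pq.L [] 0 (Pf.C 167 131))
 (Pq.cons (Pq.L [] 64 (Pf.C 4 386))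
 (Pq.cons (Pq.L [] 64 (Pf.C 168 386))
 (Pq.cons (Pq.L [] 64 (Pf.C 4 386))
 (Pq.cons (Pq.L [] 64 (Pf.C 135 386))
 Pq.nil))))))) (Pq.cons (Pq.D 2 (Pq.cons (Pq.L [] 64 (Pf.C 3 386))
 (Pq.cons (Pq.L [] 0 (Pf.C 167 131))
 (Pq.cons (Pq.L [] 64 (Pf.C 168 259))
 (Pq.cons (Pq.L [] 64 (Pf.C 3 386))
 (Pq.cons (Pq.D 3 (Pq.cons (Pq.L [] 128 (Pf.C 3 514))
 (Pq.cons (Pq.L [] 0 (Pf.C 167 132))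
 (Pq.cons (Pq.L [] 128 (Pf.C 168 260))
 (Pq.cons (Pq.L [] 128 (Pf.C 3 514))
 (Pq.cons (Pq.L [] 2247 (Pf.W 150 1 [] [2,3,4] (Pf.cons (Pf.B 8 4 (Pf.B 8 3 (Pf.B 8 2 (Pf.C 8 0x4040c088) (Pf.C 3 264)) (Pf.C 126 392)) (Pf.C 126 520)) Pf.nil)))
 (Pq.cons (Pq.L [] 133 (Pf.C 5 16644))
 Pq.nil))))))) (Pq.cons (Pq.L [] 67 (Pf.C 5 16643))
 Pq.nil))))))) (Pq.cons (Pq.D 2 (Pq.cons (Pq.L [] 64 (Pf.C 126 259))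
 (Pq.cons (Pq.L [] 0 (Pf.C 167 131))
 (Pq.cons (Pq.L [] 64 (Pf.C 4 386))
 (Pq.cons (Pq.D 3 (Pq.cons (Pq.L [] 128 (Pf.C 126 260))
 (Pq.cons (Pq.L [] 0 (Pf.C 167 132))
 (Pq.cons (Pq.L [] 128 (Pf.C 4 514))
 (Pq.cons (Pq.L [] 2247 (Pf.W 150 1 [] [2,3,4] (Pf.cons (Pf.B 8 4 (Pf.B 8 3 (Pf.B 8 2 (Pf.C 8 0x4040c088) (Pf.C 126 264)) (Pf.C 3 392)) (Pf.C 3 520)) Pf.nil)))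
 (Pq.cons (Pq.L [] 128 (Pf.C 4 514))
 (Pq.cons (Pq.D 4 (Pq.cons (Pq.L [] 256 (Pf.C 126 261))
 (Pq.cons (Pq.L [] 0 (Pf.C 167 133))
 (Pq.cons (Pq.L [] 256 (Pf.C 4 642))
 (Pq.cons (Pq.L [] 39360 (Pf.C 0 0xa10103))
 (Pq.cons (Pq.L [] 256 (Pf.C 4 642))
 (Pq.cons (Pq.L [] 39360 (Pf.C 0 0xa0c104))
 Pq.nil))))))) Pq.nil))))))) (Pq.cons (Pq.L [] 64 (Pf.C 4 386))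
 (Pq.cons (Pq.D 3 (Pq.cons (Pq.L [] 128 (Pf.C 126 260))
 (Pq.cons (Pq.L [] 0 (Pf.C 167 132))
 (Pq.cons (Pq.L [] 128 (Pf.C 4 514))
 (Pq.cons (Pq.D 4 (Pq.cons (Pq.L [] 256 (Pf.C 126 261))
 (Pq.cons (Pq.L [] 0 (Pf.C 167 133))
 (Pq.cons (Pq.L [] 256 (Pf.C 4 642))
 (Pq.cons (Pq.L [] 39360 (Pf.C 0 0xa0c104))
 (Pq.cons (Pq.L [] 256 (Pf.C 4 642))
 (Pq.cons (Pq.L [] 39360 (Pf.C 0 0xa10103))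
 Pq.nil))))))) (Pq.cons (Pq.L [] 128 (Pf.C 4 514))
 (Pq.cons (Pq.D 4 (Pq.cons (Pq.L [] 256 (Pf.C 126 261))
 (Pq.cons (Pq.L [] 0 (Pf.C 167 133))
 (Pq.cons (Pq.L [] 256 (Pf.C 4 642))
 (Pq.cons (Pq.L [] 39360 (Pf.C 0 0x814103))
 (Pq.cons (Pq.L [] 256 (Pf.C 4 642))
 (Pq.cons (Pq.D 5 (Pq.cons (Pq.L [] 0x40018 (Pf.C 5 17157))
 (Pq.cons (Pq.L [] 0 (Pf.C 167 134))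
 (Pq.cons (Pq.L [] 0x40000 (Pf.C 135 646))
 (Pq.cons (Pq.L [] 0x40018 (Pf.C 5 17157))
 (Pq.cons (Pq.D 6 (Pq.cons (Pq.L [0] 0x1c0000 (Pf.C 0 0x1c305))
 (Pq.cons (Pq.L [] 0 (Pf.C 167 135))
 (Pq.cons (Pq.L [] 0x136ef7 (Pf.C 1 0x202061c301))
 (Pq.cons (Pq.L [] 33152 (Pf.W 152 2 [] [4,5] (Pf.cons (Pf.B 8 5 (Pf.C 129 648) (Pf.B 8 4 (Pf.C 129 520) (Pf.C 0 0xa08404))) Pf.nil)))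
 (Pq.cons (Pq.L [] 0x136ef7 (Pf.C 1 0x202061c301))
 (Pq.cons (Pq.L [] 0x136ef7 (Pf.C 1 0x202061c301))
 Pq.nil))))))) (Pq.cons (Pq.L [] 0x40000 (Pf.C 2 773))
 Pq.nil))))))) Pq.nil))))))) Pq.nil))))))) Pq.nil))))))) (Pq.cons (Pq.D 2 (Pq.cons (Pq.L [] 67 (Pf.C 5 16770))
 (Pq.cons (Pq.L [] 0 (Pf.C 167 131))
 (Pq.cons (Pq.L [] 64 (Pf.C 135 259))
 (Pq.cons (Pq.L [] 67 (Pf.C 5 16770))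
 (Pq.cons (Pq.D 3 (Pq.cons (Pq.L [] 133 (Pf.C 5 16898))
 (Pq.cons (Pq.L [] 0 (Pf.C 167 132))
 (Pq.cons (Pq.L [] 128 (Pf.C 135 260))
 (Pq.cons (Pq.L [] 133 (Pf.C 5 16898))
 (Pq.cons (Pq.D 4 (Pq.cons (Pq.L [] 265 (Pf.C 5 17026))
 (Pq.cons (Pq.L [] 0 (Pf.C 167 133))
 (Pq.cons (Pq.L [] 256 (Pf.C 135 261))
 (Pq.cons (Pq.L [] 265 (Pf.C 5 17026))
 (Pq.cons (Pq.D 5 (Pq.cons (Pq.L [0] 0x40300 (Pf.C 0 98946))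
 (Pq.cons (Pq.L [] 0 (Pf.C 167 134))
 (Pq.cons (Pq.L [] 0x40000 (Pf.C 4 773))
 (Pq.cons (Pq.D 6 (Pq.cons (Pq.L [] 0x1c0700 (Pf.C 0 0xe18105))
 (Pq.cons (Pq.L [] 0 (Pf.C 167 135))
 (Pq.cons (Pq.L [] 0x100000 (Pf.C 168 775))
 (Pq.cons (Pq.L [] 0x1c0700 (Pf.C 0 0xe18105))
 (Pq.cons (Pq.L [] 0x1c0038 (Pf.W 150 1 [] [5,6,7] (Pf.cons (Pf.B 8 7 (Pf.B 8 6 (Pf.B 8 5 (Pf.C 8 0x70c14088) (Pf.C 126 648)) (Pf.C 3 776)) (Pf.C 126 904)) Pf.nil)))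
 (Pq.cons (Pq.L [] 0x100030 (Pf.C 5 17159))
 Pq.nil))))))) (Pq.cons (Pq.L [] 0x40000 (Pf.C 4 773))
 (Pq.cons (Pq.D 6 (Pq.cons (Pq.L [] 0x100030 (Pf.C 5 17286))
 (Pq.cons (Pq.L [] 0 (Pf.C 167 135))
 (Pq.cons (Pq.L [] 0x136ef7 (Pf.C 1 0x202061c301))
 (Pq.cons (Pq.L [] 0x100030 (Pf.C 5 17286))
 (Pq.cons (Pq.L [] 0x136ef7 (Pf.C 1 0x202061c301))
 (Pq.cons (Pq.L [0] 0x106032 (Pf.C 7 0x30004386))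
 Pq.nil))))))) Pq.nil))))))) (Pq.cons (Pq.L [] 256 (Pf.C 2 642))
 Pq.nil))))))) (Pq.cons (Pq.L [] 128 (Pf.C 2 514))
 Pq.nil))))))) (Pq.cons (Pq.L [] 64 (Pf.C 2 386))
 Pq.nil))))))) Pq.nil))))))) Pq.nil))
theorem e4_o31 : AllRef e4_T e4_G24 (List.drop 1 (List.take 3 (List.flatMap (splitP 0) (List.drop 1 (applyObl d_T 2 [116,111,114,113,92,77] [0,0,0,0,0,0] [(116,0x20000000000000000000),(111,0x100000000000000000000000),(113,0x20000000000000000000),(92,0x8000000000000000000000000000),(77,0x120000000000000000000000000000)]))))) :=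
  chkPq_sound e4_o31c _ (by decide +kernel)

end Pool.Agent.Lib.MP_849b2e_co
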