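import Pool.Agent.Lib.MP_849b2e_co.Fast
import Pool.Agent.Lib.MP_849b2e_co.Te4
import Pool.Agent.Lib.MP_849b2e_co.RApply
import Pool.Agent.Lib.MP_849b2e_co.Td

set_option maxRecDepth 100000
set_option linter.all false
namespace Pool.Agent.Lib.MP_849b2e_co

noncomputable def e4_o32c : Pq := (Pq.cons (Pq.D 1 (Pq.cons (Pq.D 2 (Pq.cons (Pq.L [] 64 (Pf.C 3 386))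
 (Pq.cons (Pq.D 3 (Pq.cons (Pq.L [] 128 (Pf.C 3 514))
 (Pq.cons (Pq.D 4 (Pq.cons (Pq.L [] 256 (Pf.C 3 642))
 (Pq.cons (Pq.D 5 (Pq.cons (Pq.D 6 (Pq.cons (Pq.L [] 0x136ef7 (Pf.C 1 0x202061c301))
 (Pq.cons (Pq.L [] 0x136ef7 (Pf.C 1 0x202061c301))
 (Pq.cons (Pq.L [] 16418 (Pf.C 5 0x1c083))
 (Pq.cons (Pq.L [] 0x136ef7 (Pf.C 1 0x202061c301))
 (Pq.cons (Pq.L [0] 0x1c0000 (Pf.C 0 0x1c305))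
 (Pq.cons (Pq.L [0] 0x1c0038 (Pf.C 6 0x50c00381))
 Pq.nil))))))) (Pq.cons (Pq.L [] 0x40000 (Pf.C 2 773))
 (Pq.cons (Pq.L [] 8210 (Pf.C 5 98435))
 (Pq.cons (Pq.D 6 (Pq.cons (Pq.L [] 0x136ef7 (Pf.C 1 0x202061c301))
 (Pq.cons (Pq.L [0] 0x106673 (Pf.C 1 0x182001c301))
 (Pq.cons (Pq.L [] 16418 (Pf.C 5 0x1c083))
 (Pq.cons (Pq.L [0] 0x106673 (Pf.C 1 0x182001c301))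
 (Pq.cons (Pq.L [0] 0x1c33df (Pf.W 140 5 [] [0,1,2,3,4,6,7] (Pf.cons (Pf.B 8 6 (Pf.B 8 3 (Pf.B 8 2 (Pf.B 8 1 (Pf.T 8 9 (Pf.cons (Pf.W 146 1 [] [0,2,3,4,5,6,7,8] (Pf.cons (Pf.B 9 7 (Pf.C 119 905) (Pf.B 9 5 (Pf.B 9 6 (Pf.B 9 2 (Pf.C 6 0x60a08089) (Pf.W 170 2 [] [0,1,3,4,5,6,7,8,9] (Pf.cons (Pf.B 10 9 (Pf.B 10 7 (Pf.C 119 906) (Pf.B 10 6 (Pf.B 10 5 (Pf.B 10 8 (Pf.B 10 4 (Pf.B 10 3 (Pf.B 10 1 (Pf.W 9 32778 [] [5,6,8] (Pf.cons (Pf.B 11 8 (Pf.C 5 0x2c40a) (Pf.B 11 2 (Pf.C 5 0x2c10a) (Pf.C 0 0x1000582))) (Pf.cons (Pf.B 11 8 (Pf.B 11 6 (Pf.B 11 5 (Pf.B 11 2 (Pf.C 6 0x60a0850b) (Pf.C 3 267)) (Pf.C 6 0x60a2c400)) (Pf.C 3 779)) (Pf.C 3 1035)) Pf.nil))) (Pf.C 6 0x3040008a)) (Pf.C 2 394)) (Pf.C 2 522)) (Pf.C 6 0x60a0840a))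 (Pf.C 2 650)) (Pf.C 6 0x9040030a))) (Pf.C 2 1162)) (Pf.cons (Pf.C 167 1283) Pf.nil)))) (Pf.C 0 0xa1c309)) (Pf.C 2 649))) (Pf.cons (Pf.B 9 7 (Pf.B 9 5 (Pf.C 5 0x24085) (Pf.B 9 6 (Pf.B 9 4 (Pf.C 5 0x24084) (Pf.B 9 3 (Pf.C 5 0x24083) (Pf.B 9 2 (Pf.B 9 8 (Pf.W 150 9 [] [0,5,6,8] (Pf.cons (Pf.B 10 8 (Pf.B 10 6 (Pf.B 10 5 (Pf.C 6 0x80028305) (Pf.C 0 0x24505)) (Pf.C 3 778)) (Pf.C 3 1034)) Pf.nil)) (Pf.W 170 2 [] [0,1,3,4,5,6,7,8,9] (Pf.cons (Pf.B 10 9 (Pf.C 5 0x2410a) (Pf.B 10 8 (Pf.B 10 7 (Pf.C 119 906) (Pf.B 10 6 (Pf.B 10 5 (Pf.B 10 4 (Pf.B 10 3 (Pf.B 10 1 (Pf.W 9 32778 [] [5,6,8,9] (Pf.cons (Pf.B 11 9 (Pf.B 11 8 (Pf.C 5 0x2c40a) (Pf.C 0 0x120040b)) (Pf.C 4 1163)) (Pf.cons (Pf.B 11 8 (Pf.B 11 6 (Pf.B 11 5 (Pf.B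 11 2 (Pf.C 6 0x60a0850b) (Pf.C 3 267)) (Pf.C 6 0x60a2c400)) (Pf.C 3 779)) (Pf.C 3 1035)) Pf.nil))) (Pf.C 6 0x3040008a)) (Pf.C 2 394)) (Pf.C 2 522)) (Pf.C 2 650)) (Pf.C 6 0x8000830a))) (Pf.C 0 0x2440a))) (Pf.cons (Pf.C 167 1283) Pf.nil)))) (Pf.C 0 0x608480)))) (Pf.C 0 0xe14309))) (Pf.C 4 905)) Pf.nil))) (Pf.cons (Pf.C 171 392) Pf.nil))) (Pf.C 3 136)) (Pf.C 3 264)) (Pf.C 6 0x100c305)) (Pf.C 3 776)) (Pf.cons (Pf.B 8 7 (Pf.B 8 6 (Pf.C 132 776) (Pf.C 0 0xe14308)) (Pf.C 4 904)) Pf.nil))))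
 (Pq.cons (Pq.L [] 0x100000 (Pf.C 129 902))
 Pq.nil))))))) (Pq.cons (Pq.L [] 0x40018 (Pf.C 5 98437))
 (Pq.cons (Pq.L [] 0x40000 (Pf.C 2 773))
 Pq.nil))))))) (Pq.cons (Pq.L [] 4106 (Pf.C 5 82051))
 (Pq.cons (Pq.L [] 256 (Pf.C 3 642))
 (Pq.cons (Pq.L [] 256 (Pf.C 126 642))
 (Pq.cons (Pq.L [0] 4427 (Pf.C 6 0x30400281))
 Pq.nil))))))) (Pq.cons (Pq.L [] 2054 (Pf.C 5 65667))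
 (Pq.cons (Pq.L [] 128 (Pf.C 3 514))
 (Pq.cons (Pq.L [] 128 (Pf.C 126 514))
 (Pq.cons (Pq.L [0] 2247 (Pf.C 6 0x30400201))
 Pq.nil))))))) (Pq.cons (Pq.D 3 (Pq.cons (Pq.L [] 128 (Pf.C 3 514))
 (Pq.cons (Pq.L [] 2054 (Pf.C 5 49284))
 (Pq.cons (Pq.L [0] 2240 (Pf.C 0 0x800103))
 (Pq.cons (Pq.L [] 128 (Pf.C 3 514))
 (Pq.cons (Pq.L [] 128 (Pf.C 126 514))
 (Pq.cons (Pq.L [] 128 (Pf.C 125 514))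
 Pq.nil))))))) (Pq.cons (Pq.L [] 64 (Pf.C 3 386))
 (Pq.cons (Pq.L [] 64 (Pf.C 126 386))
 (Pq.cons (Pq.L [] 64 (Pf.C 125 386))
 Pq.nil))))))) (Pq.cons (Pq.D 2 (Pq.cons (Pq.D 3 (Pq.cons (Pq.D 4 (Pq.cons (Pq.D 5 (Pq.cons (Pq.L [] 0x40000 (Pf.C 3 773))
 (Pq.cons (Pq.D 6 (Pq.cons (Pq.L [] 0x136ef7 (Pf.C 1 0x202061c301))
 (Pq.cons (Pq.L [0] 0x106673 (Pf.C 1 0x103001c301))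
 (Pq.cons (Pq.L [] 1057 (Pf.C 5 0x1c082))
 (Pq.cons (Pq.L [0] 0x106673 (Pf.C 1 0x103001c301))
 (Pq.cons (Pq.L [] 0x100030 (Pf.C 5 0x1c086))
 (Pq.cons (Pq.L [] 0x100000 (Pf.C 2 902))
 Pq.nil))))))) (Pq.cons (Pq.L [] 529 (Pf.C 5 98434))
 (Pq.cons (Pq.L [] 0x40000 (Pf.C 3 773))
 (Pq.cons (Pq.L [0] 0x40300 (Pf.C 0 98946))
 (Pq.cons (Pq.L [0] 0x40319 (Pf.C 6 0x20a00301))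
 Pq.nil))))))) (Pq.cons (Pq.L [] 256 (Pf.C 2 642))
 (Pq.cons (Pq.L [] 0 (Pf.C 167 642))
 (Pq.cons (Pq.D 5 (Pq.cons (Pq.L [] 0x40000 (Pf.C 3 773))
 (Pq.cons (Pq.L [0] 0x5b81e (Pf.C 1 0x2000618281))
 (Pq.cons (Pq.L [] 529 (Pf.C 5 98434))
 (Pq.cons (Pq.L [0] 0x5b81e (Pf.C 1 0x2000618281))
 (Pq.cons (Pq.D 6 (Pq.cons (Pq.L [] 0x100000 (Pf.C 126 775))
 (Pq.cons (Pq.L [] 0x100030 (Pf.C 5 98439))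
 (Pq.cons (Pq.L [] 1057 (Pf.C 5 0x1c082))
 (Pq.cons (Pq.L [0] 0x1ff7ff (Pf.W 140 2 [] [0,1,3,4,5,6,7] (Pf.cons (Pf.B 8 7 (Pf.B 8 6 (Pf.B 8 5 (Pf.B 8 4 (Pf.B 8 3 (Pf.B 8 1 (Pf.T 8 9 (Pf.cons (Pf.W 146 1 [] [0,2,3,4,5,6,7,8] (Pf.cons (Pf.B 9 6 (Pf.C 119 777) (Pf.B 9 2 (Pf.B 9 5 (Pf.B 9 8 (Pf.B 9 7 (Pf.B 9 4 (Pf.C 6 0x80010089) (Pf.B 9 3 (Pf.C 6 0x8000c089) (Pf.W 146 7 [] [0,1,2,3,4,5,6,8,9] (Pf.cons (Pf.B 10 9 (Pf.B 10 6 (Pf.C 119 778) (Pf.B 10 5 (Pf.B 10 3 (Pf.C 6 0x9060038a) (Pf.B 10 2 (Pf.B 10 8 (Pf.W 170 3 [] [0,1,2,4,5,6,7,8,9,10] (Pf.cons (Pf.B 11 10 (Pf.B 11 9 (Pf.B 11 8 (Pf.B 11 7 (Pf.B 11 6 (Pf.C 119 779) (Pf.B 11 5 (Pf.B 11 2 (Pf.B 11 1 (Pf.B 11 4 (Pf.W 9 49163 [] [4,8] (Pf.cons (Pf.B 12 8 (Pf.C 5 0x3040b)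 (Pf.B 12 4 (Pf.C 5 0x3020b) (Pf.C 0 0x1000604))) (Pf.cons (Pf.B 12 8 (Pf.B 12 4 (Pf.C 6 0x8001058c) (Pf.C 3 524)) (Pf.C 3 1036)) Pf.nil))) (Pf.W 9 49163 [] [8] (Pf.cons (Pf.B 12 8 (Pf.C 5 0x3040b) (Pf.B 12 3 (Pf.C 5 0x3018b) (Pf.C 0 0x1000603))) (Pf.cons (Pf.B 12 8 (Pf.B 12 3 (Pf.C 6 0x8000c58c) (Pf.C 3 396)) (Pf.C 3 1036)) Pf.nil)))) (Pf.C 6 0x2060008b)) (Pf.C 2 267)) (Pf.C 6 0x9060028b))) (Pf.C 6 0x9060038b)) (Pf.C 6 0xa062440b)) (Pf.C 2 1163)) (Pf.C 2 1291)) (Pf.cons (Pf.C 167 1410) Pf.nil))) (Pf.C 6 0x1028282)) (Pf.C 2 266))) (Pf.C 0 0xe18505))) (Pf.C 2 1162)) (Pf.cons (Pf.B 10 9 (Pf.C 5 0x28389) (Pf.B 10 6 (Pf.B 10 4 (Pf.B 10 3 (Pf.B 10 2 (Pf.C 5 0x28382) (Pf.B 10 5 (Pf.B 10 1 (Pf.W 150 10 [] [5,6,7] (Pf.cons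 (Pf.B 11 7 (Pf.B 11 6 (Pf.B 11 5 (Pf.C 8 0x70c1450b) (Pf.C 3 651)) (Pf.C 126 779)) (Pf.C 3 907)) Pf.nil)) (Pf.C 8 0x70c1408a)) (Pf.C 0 0xc0828a))) (Pf.C 0 0x120c500)) (Pf.C 0 0x1210500)) (Pf.C 4 778))) Pf.nil))))) (Pf.C 6 0x1121c400)) (Pf.C 6 0x1024282)) (Pf.C 0 0x418289)) (Pf.C 2 265))) (Pf.cons (Pf.B 9 6 (Pf.B 9 2 (Pf.C 5 0x24082) (Pf.B 9 5 (Pf.B 9 4 (Pf.B 9 3 (Pf.B 9 8 (Pf.B 9 7 (Pf.W 150 9 [] [5,6,7] (Pf.cons (Pf.B 10 7 (Pf.B 10 6 (Pf.B 10 5 (Pf.C 8 0x70c1448a) (Pf.C 3 650)) (Pf.C 126 778)) (Pf.C 3 906)) Pf.nil)) (Pf.W 150 9 [] [0,2,5,8] (Pf.cons (Pf.B 10 8 (Pf.B 10 5 (Pf.B 10 2 (Pf.C 6 0x80028282) (Pf.C 0 0x24502)) (Pf.C 3 650)) (Pf.C 3 1034)) Pf.nil))) (Pf.B 9 7 (Pf.C 8 0x50c1c409) (Pf.W 146 7 [] [0,1,2,3,4,5,6,8,9]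 (Pf.cons (Pf.B 10 6 (Pf.C 119 778) (Pf.B 10 9 (Pf.B 10 5 (Pf.C 5 0x2428a) (Pf.C 0 0xe18505)) (Pf.C 0 0xc1c509))) (Pf.cons (Pf.B 10 9 (Pf.B 10 8 (Pf.B 10 6 (Pf.B 10 5 (Pf.B 10 4 (Pf.B 10 3 (Pf.B 10 2 (Pf.C 5 0x28382) (Pf.B 10 1 (Pf.W 150 10 [] [0,7,8,9] (Pf.cons (Pf.B 11 9 (Pf.B 11 8 (Pf.B 11 7 (Pf.C 8 0x8121c50b) (Pf.C 3 907)) (Pf.C 3 1035)) (Pf.C 0 0x1400589)) Pf.nil)) (Pf.C 8 0x70c1408a))) (Pf.C 8 0x70c1418a)) (Pf.C 8 0x70c1420a)) (Pf.C 8 0x8121c28a)) (Pf.C 4 778)) (Pf.C 0 0x120040a)) (Pf.C 4 1162)) Pf.nil))))) (Pf.C 0 0x40c480)) (Pf.C 0 0x410480)) (Pf.C 0 0xc08289))) (Pf.C 4 777)) Pf.nil))) (Pf.cons (Pf.C 171 264) Pf.nil))) (Pf.C 3 136)) (Pf.C 3 392)) (Pf.C 3 520)) (Pf.C 3 648)) (Pf.C 126 776)) (Pf.C 3 904))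 (Pf.cons (Pf.B 8 6 (Pf.B 8 5 (Pf.C 132 648) (Pf.C 0 0xc08288)) (Pf.C 4 776)) Pf.nil))))
 (Pq.cons (Pq.L [0] 0x100600 (Pf.C 0 0x1c302))
 (Pq.cons (Pq.L [] 0x1c0700 (Pf.C 0 0xe18282))
 Pq.nil))))))) (Pq.cons (Pq.L [] 0x40000 (Pf.C 129 773))
 Pq.nil))))))) (Pq.cons (Pq.L [] 265 (Pf.C 5 82050))
 (Pq.cons (Pq.L [] 256 (Pf.C 2 642))
 Pq.nil))))))) (Pq.cons (Pq.L [] 128 (Pf.C 2 514))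
 (Pq.cons (Pq.L [] 0 (Pf.C 167 514))
 (Pq.cons (Pq.D 4 (Pq.cons (Pq.D 5 (Pq.cons (Pq.L [] 0x40000 (Pf.C 3 773))
 (Pq.cons (Pq.D 6 (Pq.cons (Pq.L [0] 0x1306b5 (Pf.C 1 0x3070010101))
 (Pq.cons (Pq.L [0] 0x106673 (Pf.C 1 0x103001c301))
 (Pq.cons (Pq.L [] 1057 (Pf.C 5 0x1c082))
 (Pq.cons (Pq.L [0] 0x106673 (Pf.C 1 0x103001c301))
 (Pq.cons (Pq.L [] 0x100030 (Pf.C 5 0x1c086))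
 (Pq.cons (Pq.L [] 0x100000 (Pf.C 2 902))
 Pq.nil))))))) (Pq.cons (Pq.L [] 529 (Pf.C 5 98434))
 (Pq.cons (Pq.L [] 0x40000 (Pf.C 3 773))
 (Pq.cons (Pq.L [0] 0x40300 (Pf.C 0 98946))
 (Pq.cons (Pq.L [0] 0x40319 (Pf.C 6 0x20a00301))
 Pq.nil))))))) (Pq.cons (Pq.L [] 256 (Pf.C 2 642))
 (Pq.cons (Pq.L [] 0 (Pf.C 167 642))
 (Pq.cons (Pq.D 5 (Pq.cons (Pq.L [] 0x40000 (Pf.C 3 773))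
 (Pq.cons (Pq.D 6 (Pq.cons (Pq.L [0] 0xa85ad (Pf.C 1 0x282081c001))
 (Pq.cons (Pq.L [0] 0x1c703a (Pf.C 1 0x3860a0c001))
 (Pq.cons (Pq.L [] 1057 (Pf.C 5 0x1c082))
 (Pq.cons (Pq.L [0] 0x1c703a (Pf.C 1 0x3860a0c001))
 (Pq.cons (Pq.L [] 0x100030 (Pf.C 5 0x1c086))
 (Pq.cons (Pq.L [] 0x100000 (Pf.C 2 902))
 Pq.nil))))))) (Pq.cons (Pq.L [] 529 (Pf.C 5 98434))
 (Pq.cons (Pq.L [] 0x40000 (Pf.C 3 773))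
 (Pq.cons (Pq.D 6 (Pq.cons (Pq.L [0] 0xa85ad (Pf.C 1 0x282081c001))
 (Pq.cons (Pq.L [] 0x100030 (Pf.C 5 98439))
 (Pq.cons (Pq.L [] 1057 (Pf.C 5 0x1c082))
 (Pq.cons (Pq.L [0] 0x48380 (Pf.W 140 2 [] [0,4,5,6] (Pf.cons (Pf.B 8 5 (Pf.B 8 4 (Pf.C 6 0x50410008) (Pf.C 3 520)) (Pf.C 3 648)) (Pf.cons (Pf.B 8 6 (Pf.B 8 5 (Pf.C 132 648) (Pf.C 0 0xc08288)) (Pf.C 4 776)) Pf.nil))))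
 (Pq.cons (Pq.L [0] 0x100600 (Pf.C 0 0x1c302))
 (Pq.cons (Pq.L [] 0x1c0700 (Pf.C 0 0xe18282))
 Pq.nil))))))) (Pq.cons (Pq.L [] 0x40000 (Pf.C 129 773))
 Pq.nil))))))) (Pq.cons (Pq.L [] 265 (Pf.C 5 82050))
 (Pq.cons (Pq.L [] 256 (Pf.C 2 642))
 Pq.nil))))))) (Pq.cons (Pq.L [] 133 (Pf.C 5 65666))
 (Pq.cons (Pq.L [] 128 (Pf.C 2 514))
 Pq.nil))))))) (Pq.cons (Pq.L [] 64 (Pf.C 2 386))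
 (Pq.cons (Pq.L [] 0 (Pf.C 167 386))
 (Pq.cons (Pq.D 3 (Pq.cons (Pq.D 4 (Pq.cons (Pq.D 5 (Pq.cons (Pq.L [] 0x40000 (Pf.C 3 773))
 (Pq.cons (Pq.D 6 (Pq.cons (Pq.L [0] 0x106673 (Pf.C 1 0x307000c101))
 (Pq.cons (Pq.L [0] 0x1306b5 (Pf.C 1 0x104001c301))
 (Pq.cons (Pq.L [] 1057 (Pf.C 5 0x1c082))
 (Pq.cons (Pq.L [0] 0x1306b5 (Pf.C 1 0x104001c301))
 (Pq.cons (Pq.L [] 0x100030 (Pf.C 5 0x1c086))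
 (Pq.cons (Pq.L [] 0x100000 (Pf.C 2 902))
 Pq.nil))))))) (Pq.cons (Pq.L [] 529 (Pf.C 5 98434))
 (Pq.cons (Pq.L [] 0x40000 (Pf.C 3 773))
 (Pq.cons (Pq.L [0] 0x40300 (Pf.C 0 98946))
 (Pq.cons (Pq.L [0] 0x40319 (Pf.C 6 0x20a00301))
 Pq.nil))))))) (Pq.cons (Pq.L [] 256 (Pf.C 2 642))
 (Pq.cons (Pq.L [] 0 (Pf.C 167 642))
 (Pq.cons (Pq.D 5 (Pq.cons (Pq.L [] 0x40000 (Pf.C 3 773))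
 (Pq.cons (Pq.D 6 (Pq.cons (Pq.L [0] 0x8556b (Pf.C 1 0x282061c001))
 (Pq.cons (Pq.L [0] 0x1f803c (Pf.C 1 0x3860a10001))
 (Pq.cons (Pq.L [] 1057 (Pf.C 5 0x1c082))
 (Pq.cons (Pq.L [0] 0x1f803c (Pf.C 1 0x3860a10001))
 (Pq.cons (Pq.L [] 0x100030 (Pf.C 5 0x1c086))
 (Pq.cons (Pq.L [] 0x100000 (Pf.C 2 902))
 Pq.nil))))))) (Pq.cons (Pq.L [] 529 (Pf.C 5 98434))
 (Pq.cons (Pq.L [] 0x40000 (Pf.C 3 773))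
 (Pq.cons (Pq.D 6 (Pq.cons (Pq.L [0] 0x8556b (Pf.C 1 0x282061c001))
 (Pq.cons (Pq.L [] 0x100030 (Pf.C 5 98439))
 (Pq.cons (Pq.L [] 1057 (Pf.C 5 0x1c082))
 (Pq.cons (Pq.L [0] 0x41340 (Pf.W 140 2 [] [0,3,5,6] (Pf.cons (Pf.B 8 5 (Pf.B 8 3 (Pf.C 6 0x5040c008) (Pf.C 3 392)) (Pf.C 3 648)) (Pf.cons (Pf.B 8 6 (Pf.B 8 5 (Pf.C 132 648) (Pf.C 0 0xc08288)) (Pf.C 4 776)) Pf.nil))))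
 (Pq.cons (Pq.L [0] 0x100600 (Pf.C 0 0x1c302))
 (Pq.cons (Pq.L [] 0x1c0700 (Pf.C 0 0xe18282))
 Pq.nil))))))) (Pq.cons (Pq.L [] 0x40000 (Pf.C 129 773))
 Pq.nil))))))) (Pq.cons (Pq.L [] 265 (Pf.C 5 82050))
 (Pq.cons (Pq.L [] 256 (Pf.C 2 642))
 Pq.nil))))))) (Pq.cons (Pq.L [] 128 (Pf.C 2 514))
 (Pq.cons (Pq.L [] 0 (Pf.C 167 514))
 (Pq.cons (Pq.D 4 (Pq.cons (Pq.D 5 (Pq.cons (Pq.L [0] 76503 (Pf.C 1 0x2020618001))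
 (Pq.cons (Pq.D 6 (Pq.cons (Pq.L [0] 0x24ce7 (Pf.C 1 0x202061c001))
 (Pq.cons (Pq.L [] 0x136ef7 (Pf.C 1 0x202061c301))
 (Pq.cons (Pq.L [] 1057 (Pf.C 5 0x1c082))
 (Pq.cons (Pq.L [] 0x136ef7 (Pf.C 1 0x202061c301))
 (Pq.cons (Pq.L [] 0x100030 (Pf.C 5 0x1c086))
 (Pq.cons (Pq.L [] 0x100000 (Pf.C 2 902))
 Pq.nil))))))) (Pq.cons (Pq.L [] 529 (Pf.C 5 98434))
 (Pq.cons (Pq.L [] 0x40000 (Pf.C 3 773))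
 (Pq.cons (Pq.L [0] 0x40300 (Pf.C 0 98946))
 (Pq.cons (Pq.L [0] 0x40319 (Pf.C 6 0x20a00301))
 Pq.nil))))))) (Pq.cons (Pq.L [] 256 (Pf.C 2 642))
 (Pq.cons (Pq.L [] 0 (Pf.C 167 642))
 (Pq.cons (Pq.D 5 (Pq.cons (Pq.L [0] 76503 (Pf.C 1 0x2020618001))
 (Pq.cons (Pq.D 6 (Pq.cons (Pq.L [0] 0x24ce7 (Pf.C 1 0x202061c001))
 (Pq.cons (Pq.L [] 0x136ef7 (Pf.C 1 0x202061c301))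
 (Pq.cons (Pq.L [] 1057 (Pf.C 5 0x1c082))
 (Pq.cons (Pq.L [] 0x136ef7 (Pf.C 1 0x202061c301))
 (Pq.cons (Pq.L [] 0x100030 (Pf.C 5 0x1c086))
 (Pq.cons (Pq.L [] 0x100000 (Pf.C 2 902))
 Pq.nil))))))) (Pq.cons (Pq.L [] 529 (Pf.C 5 98434))
 (Pq.cons (Pq.L [] 0x40000 (Pf.C 3 773))
 (Pq.cons (Pq.D 6 (Pq.cons (Pq.L [0] 0x24ce7 (Pf.C 1 0x202061c001))
 (Pq.cons (Pq.L [] 0x100030 (Pf.C 5 98439))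
 (Pq.cons (Pq.L [] 1057 (Pf.C 5 0x1c082))
 (Pq.cons (Pq.L [0] 0x48380 (Pf.W 140 2 [] [0,4,5,6] (Pf.cons (Pf.B 8 5 (Pf.B 8 4 (Pf.C 6 0x50410008) (Pf.C 3 520)) (Pf.C 3 648)) (Pf.cons (Pf.B 8 6 (Pf.B 8 5 (Pf.C 132 648) (Pf.C 0 0xc08288)) (Pf.C 4 776)) Pf.nil))))
 (Pq.cons (Pq.L [0] 0x100600 (Pf.C 0 0x1c302))
 (Pq.cons (Pq.L [] 0x1c0700 (Pf.C 0 0xe18282))
 Pq.nil))))))) (Pq.cons (Pq.L [] 0x40000 (Pf.C 129 773))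
 Pq.nil))))))) (Pq.cons (Pq.L [] 265 (Pf.C 5 82050))
 (Pq.cons (Pq.L [] 256 (Pf.C 2 642))
 Pq.nil))))))) (Pq.cons (Pq.L [] 133 (Pf.C 5 65666))
 (Pq.cons (Pq.L [] 128 (Pf.C 2 514))
 Pq.nil))))))) (Pq.cons (Pq.L [] 67 (Pf.C 5 49282))
 (Pq.cons (Pq.L [] 64 (Pf.C 2 386))
 Pq.nil))))))) (Pq.cons (Pq.D 2 (Pq.cons (Pq.D 3 (Pq.cons (Pq.L [0] 2240 (Pf.C 0 0x800103))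
 (Pq.cons (Pq.L [] 0 (Pf.C 167 260))
 (Pq.cons (Pq.L [] 128 (Pf.C 4 514))
 (Pq.cons (Pq.L [] 128 (Pf.C 168 514))
 (Pq.cons (Pq.L [] 128 (Pf.C 4 514))
 (Pq.cons (Pq.L [] 128 (Pf.C 135 514))
 Pq.nil))))))) (Pq.cons (Pq.L [] 0 (Pf.C 167 259))
 (Pq.cons (Pq.L [] 64 (Pf.C 4 386))
 (Pq.cons (Pq.L [] 64 (Pf.C 168 386))
 (Pq.cons (Pq.L [] 64 (Pf.C 4 386))
 (Pq.cons (Pq.L [] 64 (Pf.C 135 386))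
 Pq.nil))))))) (Pq.cons (Pq.D 2 (Pq.cons (Pq.L [] 64 (Pf.C 3 386))
 (Pq.cons (Pq.D 3 (Pq.cons (Pq.L [] 128 (Pf.C 3 514))
 (Pq.cons (Pq.D 4 (Pq.cons (Pq.L [] 256 (Pf.C 3 642))
 (Pq.cons (Pq.D 5 (Pq.cons (Pq.L [0] 76503 (Pf.C 1 0x2020618001))
 (Pq.cons (Pq.L [] 0x40000 (Pf.C 2 773))
 (Pq.cons (Pq.L [] 8210 (Pf.C 5 98435))
 (Pq.cons (Pq.D 6 (Pq.cons (Pq.L [0] 0x24ce7 (Pf.C 1 0x202061c001))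
 (Pq.cons (Pq.L [] 0x136ef7 (Pf.C 1 0x202061c301))
 (Pq.cons (Pq.L [] 16418 (Pf.C 5 0x1c083))
 (Pq.cons (Pq.L [] 0x136ef7 (Pf.C 1 0x202061c301))
 (Pq.cons (Pq.L [0] 0x1c0300 (Pf.W 140 5 [] [0,2,6,7] (Pf.cons (Pf.B 8 6 (Pf.B 8 2 (Pf.C 6 0x60a08008) (Pf.C 3 264)) (Pf.C 3 776)) (Pf.cons (Pf.B 8 7 (Pf.B 8 6 (Pf.C 132 776) (Pf.C 0 0xe14308)) (Pf.C 4 904)) Pf.nil))))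
 (Pq.cons (Pq.L [] 0x100000 (Pf.C 129 902))
 Pq.nil))))))) (Pq.cons (Pq.L [] 0x40018 (Pf.C 5 98437))
 (Pq.cons (Pq.L [] 0x40000 (Pf.C 2 773))
 Pq.nil))))))) (Pq.cons (Pq.L [] 4106 (Pf.C 5 82051))
 (Pq.cons (Pq.L [] 256 (Pf.C 3 642))
 (Pq.cons (Pq.L [] 39360 (Pf.C 0 0x814103))
 (Pq.cons (Pq.L [] 39375 (Pf.C 6 0x4040c281))
 Pq.nil))))))) (Pq.cons (Pq.L [] 2054 (Pf.C 5 65667))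
 (Pq.cons (Pq.L [] 128 (Pf.C 3 514))
 (Pq.cons (Pq.D 4 (Pq.cons (Pq.L [] 256 (Pf.C 3 642))
 (Pq.cons (Pq.L [] 39360 (Pf.C 0 0xa10103))
 (Pq.cons (Pq.L [] 4106 (Pf.C 5 82051))
 (Pq.cons (Pq.L [] 256 (Pf.C 3 642))
 (Pq.cons (Pq.L [] 39360 (Pf.C 0 0xa0c104))
 (Pq.cons (Pq.L [] 256 (Pf.C 129 642))
 Pq.nil))))))) (Pq.cons (Pq.L [] 128 (Pf.C 129 514))
 Pq.nil))))))) (Pq.cons (Pq.L [] 64 (Pf.C 168 259))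
 (Pq.cons (Pq.L [] 64 (Pf.C 3 386))
 (Pq.cons (Pq.D 3 (Pq.cons (Pq.L [] 128 (Pf.C 3 514))
 (Pq.cons (Pq.D 4 (Pq.cons (Pq.L [] 256 (Pf.C 3 642))
 (Pq.cons (Pq.L [] 39360 (Pf.C 0 0xa0c104))
 (Pq.cons (Pq.L [] 32780 (Pf.C 5 82052))
 (Pq.cons (Pq.L [] 256 (Pf.C 3 642))
 (Pq.cons (Pq.L [] 39360 (Pf.C 0 0xa10103))
 (Pq.cons (Pq.L [] 256 (Pf.C 129 642))
 Pq.nil))))))) (Pq.cons (Pq.L [] 128 (Pf.C 168 260))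
 (Pq.cons (Pq.L [] 128 (Pf.C 3 514))
 (Pq.cons (Pq.D 4 (Pq.cons (Pq.L [] 256 (Pf.C 3 642))
 (Pq.cons (Pq.L [] 39360 (Pf.C 0 0x814103))
 (Pq.cons (Pq.L [] 256 (Pf.C 168 261))
 (Pq.cons (Pq.L [] 256 (Pf.C 3 642))
 (Pq.cons (Pq.D 5 (Pq.cons (Pq.L [] 0x40000 (Pf.C 126 646))
 (Pq.cons (Pq.L [] 0x40018 (Pf.C 5 82054))
 (Pq.cons (Pq.L [] 0x40000 (Pf.C 4 773))
 (Pq.cons (Pq.D 6 (Pq.cons (Pq.L [] 0x136ef7 (Pf.C 1 0x202061c301))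
 (Pq.cons (Pq.L [0] 0x1c8799 (Pf.W 140 7 [] [0,1,2,3,4,5,6] (Pf.cons (Pf.B 8 6 (Pf.B 8 5 (Pf.B 8 2 (Pf.T 8 9 (Pf.cons (Pf.W 146 2 [] [0,1,3,4,5,6,7,8] (Pf.cons (Pf.B 9 5 (Pf.C 119 649) (Pf.B 9 4 (Pf.C 119 521) (Pf.C 0 0xa08484))) (Pf.cons (Pf.B 9 7 (Pf.C 5 0x24107) (Pf.B 9 5 (Pf.B 9 6 (Pf.B 9 8 (Pf.B 9 4 (Pf.B 9 3 (Pf.B 9 1 (Pf.W 150 9 [] [0,6,7,8] (Pf.cons (Pf.B 10 8 (Pf.B 10 7 (Pf.B 10 6 (Pf.C 6 0x80028386) (Pf.C 3 778)) (Pf.C 0 0x24507)) (Pf.C 3 1034)) Pf.nil)) (Pf.C 8 0x60a08089)) (Pf.C 4 393)) (Pf.C 4 521)) (Pf.C 8 0x60a08409)) (Pf.C 0 0xa1c309)) (Pf.C 4 649))) Pf.nil))) (Pf.cons (Pf.C 171 904) Pf.nil))) (Pf.C 3 264)) (Pf.C 126 648)) (Pf.C 3 776)) (Pf.cons (Pf.B 8 6 (Pf.C 132 776) (Pf.B 8 5 (Pf.C 0 0xa1c308)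 (Pf.C 4 648))) Pf.nil))))
 (Pq.cons (Pq.L [] 0x136ef7 (Pf.C 1 0x202061c301))
 (Pq.cons (Pq.L [0] 0x106673 (Pf.C 1 0x103001c301))
 (Pq.cons (Pq.L [] 0x136ef7 (Pf.C 1 0x202061c301))
 (Pq.cons (Pq.L [0] 0x136836 (Pf.C 1 0x200061c086))
 Pq.nil))))))) (Pq.cons (Pq.L [] 0x40000 (Pf.C 4 773))
 (Pq.cons (Pq.D 6 (Pq.cons (Pq.L [0] 0x100631 (Pf.C 6 0x20c04380))
 (Pq.cons (Pq.L [] 0x1c0700 (Pf.C 0 0xe18282))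
 (Pq.cons (Pq.L [] 0x100000 (Pf.C 135 775))
 (Pq.cons (Pq.L [0] 0x136836 (Pf.C 1 0x2000618087))
 (Pq.cons (Pq.L [] 0x40bc7 (Pf.W 146 2 [] [1,3,4,5,6,7] (Pf.cons (Pf.B 8 6 (Pf.B 8 5 (Pf.C 119 648) (Pf.C 0 0xc08288)) (Pf.C 2 776)) (Pf.cons (Pf.B 8 7 (Pf.B 8 6 (Pf.B 8 5 (Pf.B 8 4 (Pf.B 8 3 (Pf.B 8 1 (Pf.W 150 8 [] [2,3,4] (Pf.cons (Pf.B 9 4 (Pf.B 9 3 (Pf.B 9 2 (Pf.C 8 0x4040c409) (Pf.C 3 265)) (Pf.C 126 393)) (Pf.C 126 521)) Pf.nil)) (Pf.C 8 0x4040c088)) (Pf.C 4 392)) (Pf.C 4 520)) (Pf.C 4 648)) (Pf.C 135 776)) (Pf.C 4 904)) Pf.nil))))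
 (Pq.cons (Pq.L [] 0x100631 (Pf.C 0 0x41c301))
 Pq.nil))))))) Pq.nil))))))) (Pq.cons (Pq.L [] 256 (Pf.C 129 642))
 Pq.nil))))))) (Pq.cons (Pq.L [] 128 (Pf.C 129 514))
 Pq.nil))))))) (Pq.cons (Pq.L [] 64 (Pf.C 129 386))
 Pq.nil))))))) (Pq.cons (Pq.D 2 (Pq.cons (Pq.L [] 64 (Pf.C 126 259))
 (Pq.cons (Pq.L [] 67 (Pf.C 5 32899))
 (Pq.cons (Pq.L [] 64 (Pf.C 4 386))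
 (Pq.cons (Pq.D 3 (Pq.cons (Pq.L [] 128 (Pf.C 126 260))
 (Pq.cons (Pq.L [] 133 (Pf.C 5 32900))
 (Pq.cons (Pq.L [] 128 (Pf.C 4 514))
 (Pq.cons (Pq.D 4 (Pq.cons (Pq.L [] 256 (Pf.C 126 261))
 (Pq.cons (Pq.L [] 265 (Pf.C 5 32901))
 (Pq.cons (Pq.L [] 256 (Pf.C 4 642))
 (Pq.cons (Pq.D 5 (Pq.cons (Pq.L [] 0x40000 (Pf.C 3 773))
 (Pq.cons (Pq.D 6 (Pq.cons (Pq.L [0] 0x1f737b (Pf.W 140 6 [] [0,1,2,3,4,5,7] (Pf.cons (Pf.B 8 7 (Pf.B 8 5 (Pf.B 8 3 (Pf.B 8 2 (Pf.B 8 1 (Pf.T 8 9 (Pf.cons (Pf.W 146 1 [] [0,2,3,4,5,6,7,8] (Pf.cons (Pf.B 9 6 (Pf.B 9 7 (Pf.C 6 0x60e00089) (Pf.B 9 2 (Pf.C 119 265) (Pf.B 9 5 (Pf.B 9 8 (Pf.B 9 3 (Pf.W 146 3 [] [0,1,2,4,5,6,7,8,9] (Pf.cons (Pf.B 10 9 (Pf.B 10 7 (Pf.C 6 0x90e0018a) (Pf.B 10 6 (Pf.B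 10 2 (Pf.C 119 266) (Pf.B 10 5 (Pf.B 10 8 (Pf.W 170 7 [] [0,1,2,3,4,5,6,8,9,10] (Pf.cons (Pf.B 11 10 (Pf.B 11 9 (Pf.B 11 8 (Pf.B 11 6 (Pf.B 11 5 (Pf.B 11 4 (Pf.B 11 3 (Pf.B 11 2 (Pf.C 119 267) (Pf.B 11 1 (Pf.W 9 0x1c00b [] [8] (Pf.cons (Pf.B 12 8 (Pf.C 5 0x3040b) (Pf.B 12 7 (Pf.C 5 0x3038b) (Pf.C 0 0x1000607))) (Pf.cons (Pf.B 12 8 (Pf.B 12 7 (Pf.C 6 0x8001c58c) (Pf.C 3 908)) (Pf.C 3 1036)) Pf.nil))) (Pf.C 6 0x60e0008b))) (Pf.C 6 0x60e0018b)) (Pf.C 6 0x60e0020b)) (Pf.C 6 0x90e0028b)) (Pf.C 2 779)) (Pf.C 6 0xa0e2440b)) (Pf.C 2 1163)) (Pf.C 2 1291)) (Pf.cons (Pf.C 167 1414) Pf.nil))) (Pf.C 6 0x1028305)) (Pf.C 0 0xc0828a))) (Pf.C 2 778))) (Pf.C 2 1162)) (Pf.cons (Pf.B 10 9 (Pf.C 5 0x28189) (Pf.B 10 7 (Pf.B 10 6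 (Pf.C 5 0x28186) (Pf.B 10 2 (Pf.B 10 5 (Pf.B 10 8 (Pf.B 10 1 (Pf.B 10 4 (Pf.W 150 10 [] [0,5,6,8] (Pf.cons (Pf.B 11 8 (Pf.B 11 6 (Pf.B 11 5 (Pf.C 6 0x8002c305) (Pf.C 3 651)) (Pf.C 0 0x28586)) (Pf.C 3 1035)) Pf.nil)) (Pf.W 150 10 [] [0,5,6,8] (Pf.cons (Pf.B 11 8 (Pf.B 11 6 (Pf.B 11 5 (Pf.C 6 0x8002c305) (Pf.C 3 651)) (Pf.C 0 0x28586)) (Pf.C 3 1035)) Pf.nil))) (Pf.C 8 0x5040c08a)) (Pf.C 8 0x5040c40a)) (Pf.C 0 0x41828a)) (Pf.C 4 266))) (Pf.C 0 0x121c500))) Pf.nil))) (Pf.C 6 0x1120c400)) (Pf.C 6 0x1024305)) (Pf.C 0 0xc08289)))) (Pf.C 2 777)) (Pf.cons (Pf.B 9 6 (Pf.C 5 0x24086) (Pf.B 9 7 (Pf.B 9 2 (Pf.B 9 5 (Pf.B 9 8 (Pf.B 9 4 (Pf.B 9 3 (Pf.W 150 9 [] [0,5,6,8] (Pf.cons (Pf.B 10 8 (Pf.B 10 6 (Pf.B 10 5 (Pf.C 6 0x80028305)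 (Pf.C 3 650)) (Pf.C 0 0x24506)) (Pf.C 3 1034)) Pf.nil)) (Pf.W 150 9 [] [0,5,6,8] (Pf.cons (Pf.B 10 8 (Pf.B 10 6 (Pf.B 10 5 (Pf.C 6 0x80028305) (Pf.C 3 650)) (Pf.C 0 0x24506)) (Pf.C 3 1034)) Pf.nil))) (Pf.B 9 3 (Pf.W 150 9 [] [0,5,6,8] (Pf.cons (Pf.B 10 8 (Pf.B 10 6 (Pf.B 10 5 (Pf.C 6 0x80028305) (Pf.C 3 650)) (Pf.C 0 0x24506)) (Pf.C 3 1034)) Pf.nil)) (Pf.W 150 9 [] [0,5,6,8] (Pf.cons (Pf.B 10 8 (Pf.B 10 6 (Pf.B 10 5 (Pf.C 6 0x80028305) (Pf.C 3 650)) (Pf.C 0 0x24506)) (Pf.C 3 1034)) Pf.nil)))) (Pf.B 9 3 (Pf.C 8 0x5040c409) (Pf.W 146 3 [] [0,1,2,5,6,7,8,9] (Pf.cons (Pf.B 10 6 (Pf.B 10 2 (Pf.C 119 266) (Pf.B 10 9 (Pf.B 10 5 (Pf.C 5 0x2428a) (Pf.C 0 0xc0828a)) (Pf.C 0 0x40c509))) (Pf.C 2 778)) (Pf.cons (Pf.B 10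 9 (Pf.B 10 8 (Pf.B 10 7 (Pf.B 10 6 (Pf.C 5 0x28186) (Pf.B 10 5 (Pf.B 10 2 (Pf.B 10 1 (Pf.B 10 4 (Pf.W 150 10 [] [0,5,6,8] (Pf.cons (Pf.B 11 8 (Pf.B 11 6 (Pf.B 11 5 (Pf.C 6 0x8002c305) (Pf.C 3 651)) (Pf.C 0 0x28586)) (Pf.C 3 1035)) Pf.nil)) (Pf.W 150 10 [] [0,5,6,8] (Pf.cons (Pf.B 11 8 (Pf.B 11 6 (Pf.B 11 5 (Pf.C 6 0x8002c305) (Pf.C 3 651)) (Pf.C 0 0x28586)) (Pf.C 3 1035)) Pf.nil))) (Pf.C 8 0x9060808a)) (Pf.C 4 266)) (Pf.C 8 0x8120c28a))) (Pf.C 8 0x8120c38a)) (Pf.C 0 0x120040a)) (Pf.C 4 1162)) Pf.nil))))) (Pf.C 0 0x418289)) (Pf.C 4 265)) (Pf.C 0 0xc1c480))) Pf.nil))) (Pf.cons (Pf.C 171 776) Pf.nil))) (Pf.C 3 136)) (Pf.C 126 264)) (Pf.C 3 392)) (Pf.C 3 648)) (Pf.C 3 904)) (Pf.cons (Pf.B 8 5 (Pf.C 132 648) (Pf.B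 8 2 (Pf.C 0 0x418288) (Pf.C 4 264))) Pf.nil))))
 (Pq.cons (Pq.L [] 0x1c0700 (Pf.C 0 0xe18105))
 (Pq.cons (Pq.L [] 0 (Pf.C 167 902))
 (Pq.cons (Pq.L [0] 0x1c0000 (Pf.W 140 6 [] [0,5,7] (Pf.cons (Pf.B 8 7 (Pf.B 8 5 (Pf.C 6 0x70c14008) (Pf.C 3 648)) (Pf.C 3 904)) (Pf.cons (Pf.B 8 7 (Pf.C 132 904) (Pf.B 8 5 (Pf.C 132 648) (Pf.C 0 0xe18405))) Pf.nil))))
 (Pq.cons (Pq.L [] 0x100030 (Pf.C 5 0x1c086))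
 (Pq.cons (Pq.L [] 0x1c0700 (Pf.C 0 0xe18282))
 Pq.nil))))))) (Pq.cons (Pq.L [] 0x40000 (Pf.C 168 646))
 (Pq.cons (Pq.L [] 0x40000 (Pf.C 3 773))
 (Pq.cons (Pq.D 6 (Pq.cons (Pq.L [] 0x136ef7 (Pf.C 1 0x202061c301))
 (Pq.cons (Pq.L [] 0x100030 (Pf.C 5 98439))
 (Pq.cons (Pq.L [] 0x136ef7 (Pf.C 1 0x202061c301))
 (Pq.cons (Pq.L [] 0x136ef7 (Pf.C 1 0x202061c301))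
 (Pq.cons (Pq.L [] 0x136ef7 (Pf.C 1 0x202061c301))
 (Pq.cons (Pq.L [] 0x1dbb19 (Pf.W 146 5 [] [1,2,3,4,6,7] (Pf.cons (Pf.B 8 7 (Pf.B 8 6 (Pf.C 119 776) (Pf.C 0 0xe14308)) (Pf.C 2 904)) (Pf.cons (Pf.B 8 7 (Pf.B 8 6 (Pf.B 8 2 (Pf.B 8 1 (Pf.B 8 4 (Pf.B 8 3 (Pf.W 150 8 [] [2,5,6] (Pf.cons (Pf.B 9 6 (Pf.B 9 5 (Pf.B 9 2 (Pf.C 8 0x60a08409) (Pf.C 126 265)) (Pf.C 3 649)) (Pf.C 126 777)) Pf.nil)) (Pf.W 150 8 [] [3,5,6] (Pf.cons (Pf.B 9 6 (Pf.B 9 5 (Pf.B 9 3 (Pf.C 8 0x31024305) (Pf.C 3 393)) (Pf.C 3 649)) (Pf.C 126 777)) Pf.nil))) (Pf.B 8 3 (Pf.W 150 8 [] [4,5,6] (Pf.cons (Pf.B 9 6 (Pf.B 9 5 (Pf.B 9 4 (Pf.C 8 0x41024305) (Pf.C 3 521)) (Pf.C 3 649)) (Pf.C 126 777)) Pf.nil)) (Pf.C 8 0x4100c305))) (Pf.C 8 0x60a08088)) (Pf.C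 4 264)) (Pf.C 4 776)) (Pf.C 135 904)) Pf.nil))))
 Pq.nil))))))) (Pq.cons (Pq.L [] 0x40000 (Pf.C 129 773))
 Pq.nil))))))) (Pq.cons (Pq.L [] 256 (Pf.C 4 642))
 (Pq.cons (Pq.L [] 39360 (Pf.C 0 0x814103))
 Pq.nil))))))) (Pq.cons (Pq.L [] 128 (Pf.C 4 514))
 (Pq.cons (Pq.D 4 (Pq.cons (Pq.L [] 256 (Pf.C 126 261))
 (Pq.cons (Pq.L [] 265 (Pf.C 5 32901))
 (Pq.cons (Pq.L [] 256 (Pf.C 4 642))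
 (Pq.cons (Pq.L [] 39360 (Pf.C 0 0xa10103))
 (Pq.cons (Pq.L [] 256 (Pf.C 4 642))
 (Pq.cons (Pq.L [] 39360 (Pf.C 0 0xa0c104))
 Pq.nil))))))) Pq.nil))))))) (Pq.cons (Pq.L [] 64 (Pf.C 4 386))
 (Pq.cons (Pq.D 3 (Pq.cons (Pq.L [] 128 (Pf.C 126 260))
 (Pq.cons (Pq.L [] 133 (Pf.C 5 32900))
 (Pq.cons (Pq.L [] 128 (Pf.C 4 514))
 (Pq.cons (Pq.D 4 (Pq.cons (Pq.L [] 256 (Pf.C 126 261))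
 (Pq.cons (Pq.L [] 265 (Pf.C 5 32901))
 (Pq.cons (Pq.L [] 256 (Pf.C 4 642))
 (Pq.cons (Pq.L [] 39360 (Pf.C 0 0xa0c104))
 (Pq.cons (Pq.L [] 256 (Pf.C 4 642))
 (Pq.cons (Pq.L [] 39360 (Pf.C 0 0xa10103))
 Pq.nil))))))) (Pq.cons (Pq.L [] 128 (Pf.C 4 514))
 (Pq.cons (Pq.D 4 (Pq.cons (Pq.L [] 256 (Pf.C 126 261))
 (Pq.cons (Pq.L [] 265 (Pf.C 5 32901))
 (Pq.cons (Pq.L [] 256 (Pf.C 4 642))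
 (Pq.cons (Pq.L [] 39360 (Pf.C 0 0x814103))
 (Pq.cons (Pq.L [] 256 (Pf.C 4 642))
 (Pq.cons (Pq.D 5 (Pq.cons (Pq.L [] 0x40000 (Pf.C 125 646))
 (Pq.cons (Pq.L [] 0x40000 (Pf.C 2 773))
 (Pq.cons (Pq.L [] 0x40000 (Pf.C 135 646))
 (Pq.cons (Pq.L [] 0x40000 (Pf.C 129 646))
 (Pq.cons (Pq.D 6 (Pq.cons (Pq.L [0] 0x1c0000 (Pf.C 0 0x1c305))
 (Pq.cons (Pq.L [] 0x100030 (Pf.C 5 98439))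
 (Pq.cons (Pq.L [] 0x136ec0 (Pf.C 7 0x4040c386))
 (Pq.cons (Pq.L [] 33152 (Pf.W 152 2 [] [4,5] (Pf.cons (Pf.B 8 5 (Pf.C 129 648) (Pf.B 8 4 (Pf.C 129 520) (Pf.C 0 0xa08404))) Pf.nil)))
 (Pq.cons (Pq.L [] 0x136ec0 (Pf.C 7 0x4040c386))
 (Pq.cons (Pq.L [] 0x136ec0 (Pf.C 7 0x4040c386))
 Pq.nil))))))) (Pq.cons (Pq.L [] 0x40000 (Pf.C 2 773))
 Pq.nil))))))) Pq.nil))))))) Pq.nil))))))) Pq.nil))))))) (Pq.cons (Pq.D 2 (Pq.cons (Pq.L [] 64 (Pf.C 125 259))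
 (Pq.cons (Pq.L [] 64 (Pf.C 2 386))
 (Pq.cons (Pq.L [] 64 (Pf.C 135 259))
 (Pq.cons (Pq.L [] 64 (Pf.C 129 259))
 (Pq.cons (Pq.D 3 (Pq.cons (Pq.L [] 128 (Pf.C 125 260))
 (Pq.cons (Pq.L [] 128 (Pf.C 2 514))
 (Pq.cons (Pq.L [] 128 (Pf.C 135 260))
 (Pq.cons (Pq.L [] 128 (Pf.C 129 260))
 (Pq.cons (Pq.D 4 (Pq.cons (Pq.L [] 256 (Pf.C 125 261))
 (Pq.cons (Pq.L [] 256 (Pf.C 2 642))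
 (Pq.cons (Pq.L [] 256 (Pf.C 135 261))
 (Pq.cons (Pq.L [] 256 (Pf.C 129 261))
 (Pq.cons (Pq.D 5 (Pq.cons (Pq.L [0] 0x40300 (Pf.C 0 98946))
 (Pq.cons (Pq.L [] 0x40018 (Pf.C 5 82054))
 (Pq.cons (Pq.L [] 0x40000 (Pf.C 4 773))
 (Pq.cons (Pq.D 6 (Pq.cons (Pq.L [] 0x1c0700 (Pf.C 0 0xe18105))
 (Pq.cons (Pq.L [] 0x1c0700 (Pf.C 0 0xe18282))
 (Pq.cons (Pq.L [] 0x100000 (Pf.C 168 775))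
 (Pq.cons (Pq.L [0] 0x136836 (Pf.C 1 0x200061c301))
 (Pq.cons (Pq.L [] 0x1c0038 (Pf.W 146 6 [] [1,2,3,4,5,7] (Pf.cons (Pf.B 8 7 (Pf.C 119 904) (Pf.B 8 5 (Pf.C 119 648) (Pf.C 0 0xe18405))) (Pf.cons (Pf.B 8 7 (Pf.B 8 5 (Pf.B 8 4 (Pf.B 8 3 (Pf.B 8 2 (Pf.B 8 1 (Pf.W 150 8 [] [5,6,7] (Pf.cons (Pf.B 9 7 (Pf.B 9 6 (Pf.B 9 5 (Pf.C 8 0x70c14409) (Pf.C 126 649)) (Pf.C 3 777)) (Pf.C 126 905)) Pf.nil)) (Pf.C 8 0x70c14088)) (Pf.C 135 264)) (Pf.C 4 392)) (Pf.C 4 520)) (Pf.C 4 648)) (Pf.C 4 904)) Pf.nil))))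
 (Pq.cons (Pq.L [0] 0x136836 (Pf.C 1 0x200061c086))
 Pq.nil))))))) (Pq.cons (Pq.L [] 0x40000 (Pf.C 4 773))
 (Pq.cons (Pq.D 6 (Pq.cons (Pq.L [] 0x106000 (Pf.C 5 50054))
 (Pq.cons (Pq.L [] 0x100000 (Pf.C 2 902))
 (Pq.cons (Pq.L [] 0x136ec0 (Pf.C 7 0x4040c386))
 (Pq.cons (Pq.L [0] 0x136836 (Pf.C 1 0x2000618087))
 (Pq.cons (Pq.L [] 0x136ec0 (Pf.C 7 0x4040c386))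
 (Pq.cons (Pq.L [0] 0x106640 (Pf.C 7 0x608386))
 Pq.nil))))))) Pq.nil))))))) (Pq.cons (Pq.L [] 256 (Pf.C 2 642))
 Pq.nil))))))) (Pq.cons (Pq.L [] 128 (Pf.C 2 514))
 Pq.nil))))))) (Pq.cons (Pq.L [] 64 (Pf.C 2 386))
 Pq.nil))))))) Pq.nil))))))) Pq.nil)
theorem e4_o32 : AllRef e4_T e4_G24 (List.take 1 (List.drop 3 (List.flatMap (splitP 0) (List.drop 1 (applyObl d_T 2 [116,111,114,113,92,77] [0,0,0,0,0,0] [(116,0x20000000000000000000),(111,0x100000000000000000000000),(113,0x20000000000000000000),(92,0x8000000000000000000000000000),(77,0x120000000000000000000000000000)]))))) :=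
  chkPq_sound e4_o32c _ (by decide +kernel)
noncomputable def e4_o33c : Pq := (Pq.cons (Pq.D 1 (Pq.cons (Pq.D 2 (Pq.cons (Pq.L [] 64 (Pf.C 3 386))
 (Pq.cons (Pq.D 3 (Pq.cons (Pq.L [] 128 (Pf.C 3 514))
 (Pq.cons (Pq.D 4 (Pq.cons (Pq.L [] 256 (Pf.C 3 642))
 (Pq.cons (Pq.D 5 (Pq.cons (Pq.D 6 (Pq.cons (Pq.L [] 0x136ec0 (Pf.C 6 0x4040c386))
 (Pq.cons (Pq.L [] 0x136ec0 (Pf.C 6 0x4040c386))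
 (Pq.cons (Pq.L [] 0 (Pf.C 167 899))
 (Pq.cons (Pq.L [] 0x136ec0 (Pf.C 6 0x4040c386))
 (Pq.cons (Pq.L [0] 0x1c0000 (Pf.C 0 0x1c305))
 (Pq.cons (Pq.L [] 0x100030 (Pf.C 5 17159))
 Pq.nil))))))) (Pq.cons (Pq.L [] 0x40000 (Pf.C 2 773))
 (Pq.cons (Pq.L [] 0 (Pf.C 167 771))
 (Pq.cons (Pq.D 6 (Pq.cons (Pq.L [] 0x136ec0 (Pf.C 6 0x4040c386))
 (Pq.cons (Pq.L [0] 0x106640 (Pf.C 6 0x30400386))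
 (Pq.cons (Pq.L [] 0 (Pf.C 167 899))
 (Pq.cons (Pq.L [0] 0x106640 (Pf.C 6 0x30400386))
 (Pq.cons (Pq.L [0] 0x1c33c0 (Pf.W 140 5 [] [0,1,2,3,4,6,7] (Pf.cons (Pf.B 8 6 (Pf.B 8 3 (Pf.B 8 2 (Pf.T 8 9 (Pf.cons (Pf.W 170 2 [] [0,1,3,4,5,6,7,8] (Pf.cons (Pf.B 9 7 (Pf.C 119 905) (Pf.B 9 5 (Pf.B 9 6 (Pf.B 9 8 (Pf.B 9 4 (Pf.B 9 3 (Pf.B 9 1 (Pf.C 119 137) (Pf.W 9 32777 [] [5,6,8] (Pf.cons (Pf.B 10 8 (Pf.C 5 0x28409) (Pf.B 10 2 (Pf.C 5 0x28109) (Pf.C 0 0x1000502))) (Pf.cons (Pf.B 10 8 (Pf.B 10 6 (Pf.B 10 5 (Pf.B 10 2 (Pf.C 6 0x60a0848a) (Pf.C 3 266)) (Pf.C 6 0x60a28400)) (Pf.C 3 778)) (Pf.C 3 1034)) Pf.nil)))) (Pf.C 2 393)) (Pf.C 2 521)) (Pf.C 6 0x60a08409)) (Pf.C 0 0xa1c309)) (Pf.C 2 649))) (Pf.cons (Pf.C 167 1155) Pf.nil)))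 (Pf.cons (Pf.C 171 392) Pf.nil))) (Pf.C 3 264)) (Pf.C 6 0x100c305)) (Pf.C 3 776)) (Pf.cons (Pf.B 8 7 (Pf.B 8 6 (Pf.C 132 776) (Pf.C 0 0xe14308)) (Pf.C 4 904)) Pf.nil))))
 (Pq.cons (Pq.L [] 0x100030 (Pf.C 5 17159))
 Pq.nil))))))) (Pq.cons (Pq.L [] 0x40000 (Pf.C 119 773))
 (Pq.cons (Pq.L [] 0x40000 (Pf.C 2 773))
 Pq.nil))))))) (Pq.cons (Pq.L [] 0 (Pf.C 167 643))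
 (Pq.cons (Pq.L [] 256 (Pf.C 3 642))
 (Pq.cons (Pq.L [] 256 (Pf.C 126 642))
 (Pq.cons (Pq.L [] 265 (Pf.C 5 16645))
 Pq.nil))))))) (Pq.cons (Pq.L [] 0 (Pf.C 167 515))
 (Pq.cons (Pq.L [] 128 (Pf.C 3 514))
 (Pq.cons (Pq.L [] 128 (Pf.C 126 514))
 (Pq.cons (Pq.L [] 133 (Pf.C 5 16644))
 Pq.nil))))))) (Pq.cons (Pq.D 3 (Pq.cons (Pq.L [] 128 (Pf.C 3 514))
 (Pq.cons (Pq.L [] 0 (Pf.C 167 388))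
 (Pq.cons (Pq.L [0] 2240 (Pf.C 0 0x800103))
 (Pq.cons (Pq.L [] 128 (Pf.C 3 514))
 (Pq.cons (Pq.L [] 128 (Pf.C 126 514))
 (Pq.cons (Pq.L [] 133 (Pf.C 5 16644))
 Pq.nil))))))) (Pq.cons (Pq.L [] 64 (Pf.C 3 386))
 (Pq.cons (Pq.L [] 64 (Pf.C 126 386))
 (Pq.cons (Pq.L [] 67 (Pf.C 5 16643))
 Pq.nil))))))) (Pq.cons (Pq.D 2 (Pq.cons (Pq.D 3 (Pq.cons (Pq.D 4 (Pq.cons (Pq.D 5 (Pq.cons (Pq.L [] 0x40000 (Pf.C 3 773))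
 (Pq.cons (Pq.D 6 (Pq.cons (Pq.L [] 0x136ec0 (Pf.C 6 0x4040c386))
 (Pq.cons (Pq.L [0] 0x106640 (Pf.C 6 0x608386))
 (Pq.cons (Pq.L [] 0 (Pf.C 167 898))
 (Pq.cons (Pq.L [0] 0x106640 (Pf.C 6 0x608386))
 (Pq.cons (Pq.L [] 0x106000 (Pf.C 5 0x1c186))
 (Pq.cons (Pq.L [] 0x100000 (Pf.C 2 902))
 Pq.nil))))))) (Pq.cons (Pq.L [] 0 (Pf.C 167 770))
 (Pq.cons (Pq.L [] 0x40000 (Pf.C 3 773))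
 (Pq.cons (Pq.L [0] 0x40300 (Pf.C 0 98946))
 (Pq.cons (Pq.L [] 0x40018 (Pf.C 5 17030))
 Pq.nil))))))) (Pq.cons (Pq.L [] 256 (Pf.C 2 642))
 (Pq.cons (Pq.L [] 0 (Pf.C 167 642))
 (Pq.cons (Pq.D 5 (Pq.cons (Pq.L [] 0x40000 (Pf.C 3 773))
 (Pq.cons (Pq.L [0] 0x5b800 (Pf.C 6 0x4000c305))
 (Pq.cons (Pq.L [] 0 (Pf.C 167 770))
 (Pq.cons (Pq.L [0] 0x5b800 (Pf.C 6 0x4000c305))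
 (Pq.cons (Pq.D 6 (Pq.cons (Pq.L [] 0x100000 (Pf.C 126 775))
 (Pq.cons (Pq.L [] 0x106000 (Pf.C 5 98695))
 (Pq.cons (Pq.L [] 0 (Pf.C 167 898))
 (Pq.cons (Pq.L [0] 0x1c03f8 (Pf.W 152 1 [] [0,2,3,4,5,6,7] (Pf.cons (Pf.B 8 7 (Pf.B 8 5 (Pf.B 8 6 (Pf.C 8 0x70c14088) (Pf.B 8 4 (Pf.B 8 3 (Pf.B 8 2 (Pf.W 146 8 [] [0,1,2,3,4,5,6,7] (Pf.cons (Pf.B 9 6 (Pf.C 119 777) (Pf.B 9 1 (Pf.C 119 137) (Pf.C 0 0xc20481))) (Pf.cons (Pf.B 9 6 (Pf.B 9 2 (Pf.C 5 0x24402) (Pf.B 9 5 (Pf.B 9 4 (Pf.B 9 3 (Pf.B 9 1 (Pf.B 9 7 (Pf.W 150 9 [] [6,7,8] (Pf.cons (Pf.B 10 8 (Pf.B 10 7 (Pf.B 10 6 (Pf.C 8 0x80c1c48a) (Pf.C 126 778)) (Pf.C 3 906)) (Pf.C 3 1034)) Pf.nil)) (Pf.W 150 9 [] [5,6,8] (Pf.cons (Pf.B 10 8 (Pf.B 10 6 (Pf.B 10 5 (Pf.C 8 0x80c1448a)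 (Pf.C 3 650)) (Pf.C 126 778)) (Pf.C 3 1034)) Pf.nil))) (Pf.C 4 137)) (Pf.C 0 0x40c480)) (Pf.C 0 0x410480)) (Pf.C 0 0xc08289))) (Pf.C 4 777)) Pf.nil))) (Pf.C 0 0xa18108)) (Pf.C 3 392)) (Pf.C 3 520))) (Pf.C 3 648)) (Pf.C 3 904)) Pf.nil)))
 (Pq.cons (Pq.L [0] 0x100600 (Pf.C 0 0x1c302))
 (Pq.cons (Pq.L [] 0x1c0700 (Pf.C 0 0xe18282))
 Pq.nil))))))) (Pq.cons (Pq.L [] 0x40018 (Pf.C 5 17030))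
 Pq.nil))))))) (Pq.cons (Pq.L [] 256 (Pf.C 119 642))
 (Pq.cons (Pq.L [] 256 (Pf.C 2 642))
 Pq.nil))))))) (Pq.cons (Pq.L [] 128 (Pf.C 2 514))
 (Pq.cons (Pq.L [] 0 (Pf.C 167 514))
 (Pq.cons (Pq.D 4 (Pq.cons (Pq.D 5 (Pq.cons (Pq.L [] 0x40000 (Pf.C 3 773))
 (Pq.cons (Pq.D 6 (Pq.cons (Pq.L [0] 0x130680 (Pf.C 6 0x60e00202))
 (Pq.cons (Pq.L [0] 0x106640 (Pf.C 6 0x608386))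
 (Pq.cons (Pq.L [] 0 (Pf.C 167 898))
 (Pq.cons (Pq.L [0] 0x106640 (Pf.C 6 0x608386))
 (Pq.cons (Pq.L [] 0x106000 (Pf.C 5 0x1c186))
 (Pq.cons (Pq.L [] 0x100000 (Pf.C 2 902))
 Pq.nil))))))) (Pq.cons (Pq.L [] 0 (Pf.C 167 770))
 (Pq.cons (Pq.L [] 0x40000 (Pf.C 3 773))
 (Pq.cons (Pq.L [0] 0x40300 (Pf.C 0 98946))
 (Pq.cons (Pq.L [] 0x40018 (Pf.C 5 17030))
 Pq.nil))))))) (Pq.cons (Pq.L [] 256 (Pf.C 2 642))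
 (Pq.cons (Pq.L [] 0 (Pf.C 167 642))
 (Pq.cons (Pq.D 5 (Pq.cons (Pq.L [] 0x40000 (Pf.C 3 773))
 (Pq.cons (Pq.D 6 (Pq.cons (Pq.L [0] 0x130680 (Pf.C 6 0x60e00202))
 (Pq.cons (Pq.L [0] 0x106640 (Pf.C 6 0x608386))
 (Pq.cons (Pq.L [] 0 (Pf.C 167 898))
 (Pq.cons (Pq.L [0] 0x106640 (Pf.C 6 0x608386))
 (Pq.cons (Pq.L [] 0x106000 (Pf.C 5 0x1c186))
 (Pq.cons (Pq.L [] 0x100000 (Pf.C 2 902))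
 Pq.nil))))))) (Pq.cons (Pq.L [] 0 (Pf.C 167 770))
 (Pq.cons (Pq.L [0] 0x5b81e (Pf.C 1 0x1800218284))
 (Pq.cons (Pq.D 6 (Pq.cons (Pq.L [0] 0xa8580 (Pf.C 6 0x50410380))
 (Pq.cons (Pq.L [] 0x106000 (Pf.C 5 98695))
 (Pq.cons (Pq.L [] 0 (Pf.C 167 898))
 (Pq.cons (Pq.L [0] 0x48380 (Pf.W 140 2 [] [0,4,5,6] (Pf.cons (Pf.B 8 5 (Pf.B 8 4 (Pf.C 6 0x50410008) (Pf.C 3 520)) (Pf.C 3 648)) (Pf.cons (Pf.B 8 6 (Pf.B 8 5 (Pf.C 132 648) (Pf.C 0 0xc08288)) (Pf.C 4 776)) Pf.nil))))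
 (Pq.cons (Pq.L [0] 0x100600 (Pf.C 0 0x1c302))
 (Pq.cons (Pq.L [] 0x1c0700 (Pf.C 0 0xe18282))
 Pq.nil))))))) (Pq.cons (Pq.L [] 0x40018 (Pf.C 5 17030))
 Pq.nil))))))) (Pq.cons (Pq.L [] 256 (Pf.C 119 642))
 (Pq.cons (Pq.L [] 256 (Pf.C 2 642))
 Pq.nil))))))) (Pq.cons (Pq.L [] 128 (Pf.C 119 514))
 (Pq.cons (Pq.L [] 128 (Pf.C 2 514))
 Pq.nil))))))) (Pq.cons (Pq.L [] 64 (Pf.C 2 386))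
 (Pq.cons (Pq.L [] 0 (Pf.C 167 386))
 (Pq.cons (Pq.D 3 (Pq.cons (Pq.D 4 (Pq.cons (Pq.D 5 (Pq.cons (Pq.L [] 0x40000 (Pf.C 3 773))
 (Pq.cons (Pq.D 6 (Pq.cons (Pq.L [0] 0x106640 (Pf.C 6 0x60e00182))
 (Pq.cons (Pq.L [0] 0x130680 (Pf.C 6 0x808386))
 (Pq.cons (Pq.L [] 0 (Pf.C 167 898))
 (Pq.cons (Pq.L [0] 0x130680 (Pf.C 6 0x808386))
 (Pq.cons (Pq.L [] 0x106000 (Pf.C 5 0x1c186))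
 (Pq.cons (Pq.L [] 0x100000 (Pf.C 2 902))
 Pq.nil))))))) (Pq.cons (Pq.L [] 0 (Pf.C 167 770))
 (Pq.cons (Pq.L [] 0x40000 (Pf.C 3 773))
 (Pq.cons (Pq.L [0] 0x40300 (Pf.C 0 98946))
 (Pq.cons (Pq.L [] 0x40018 (Pf.C 5 17030))
 Pq.nil))))))) (Pq.cons (Pq.L [] 256 (Pf.C 2 642))
 (Pq.cons (Pq.L [] 0 (Pf.C 167 642))
 (Pq.cons (Pq.D 5 (Pq.cons (Pq.L [] 0x40000 (Pf.C 3 773))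
 (Pq.cons (Pq.D 6 (Pq.cons (Pq.L [0] 0x106640 (Pf.C 6 0x60e00182))
 (Pq.cons (Pq.L [0] 0x130680 (Pf.C 6 0x808386))
 (Pq.cons (Pq.L [] 0 (Pf.C 167 898))
 (Pq.cons (Pq.L [0] 0x130680 (Pf.C 6 0x808386))
 (Pq.cons (Pq.L [] 0x106000 (Pf.C 5 0x1c186))
 (Pq.cons (Pq.L [] 0x100000 (Pf.C 2 902))
 Pq.nil))))))) (Pq.cons (Pq.L [] 0 (Pf.C 167 770))
 (Pq.cons (Pq.L [0] 0x5b81e (Pf.C 1 0x2000218283))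
 (Pq.cons (Pq.D 6 (Pq.cons (Pq.L [0] 0x85540 (Pf.C 6 0x5040c380))
 (Pq.cons (Pq.L [] 0x106000 (Pf.C 5 98695))
 (Pq.cons (Pq.L [] 0 (Pf.C 167 898))
 (Pq.cons (Pq.L [0] 0x41340 (Pf.W 140 2 [] [0,3,5,6] (Pf.cons (Pf.B 8 5 (Pf.B 8 3 (Pf.C 6 0x5040c008) (Pf.C 3 392)) (Pf.C 3 648)) (Pf.cons (Pf.B 8 6 (Pf.B 8 5 (Pf.C 132 648) (Pf.C 0 0xc08288)) (Pf.C 4 776)) Pf.nil))))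
 (Pq.cons (Pq.L [0] 0x100600 (Pf.C 0 0x1c302))
 (Pq.cons (Pq.L [] 0x1c0700 (Pf.C 0 0xe18282))
 Pq.nil))))))) (Pq.cons (Pq.L [] 0x40018 (Pf.C 5 17030))
 Pq.nil))))))) (Pq.cons (Pq.L [] 256 (Pf.C 119 642))
 (Pq.cons (Pq.L [] 256 (Pf.C 2 642))
 Pq.nil))))))) (Pq.cons (Pq.L [] 128 (Pf.C 2 514))
 (Pq.cons (Pq.L [] 0 (Pf.C 167 514))
 (Pq.cons (Pq.D 4 (Pq.cons (Pq.D 5 (Pq.cons (Pq.L [0] 76480 (Pf.C 6 0x4040c300))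
 (Pq.cons (Pq.D 6 (Pq.cons (Pq.L [0] 0x106640 (Pf.C 6 0x60e00182))
 (Pq.cons (Pq.L [] 0x136ec0 (Pf.C 6 0x4040c386))
 (Pq.cons (Pq.L [] 0 (Pf.C 167 898))
 (Pq.cons (Pq.L [] 0x136ec0 (Pf.C 6 0x4040c386))
 (Pq.cons (Pq.L [] 0x106000 (Pf.C 5 0x1c186))
 (Pq.cons (Pq.L [] 0x100000 (Pf.C 2 902))
 Pq.nil))))))) (Pq.cons (Pq.L [] 0 (Pf.C 167 770))
 (Pq.cons (Pq.L [] 0x40000 (Pf.C 3 773))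
 (Pq.cons (Pq.L [0] 0x40300 (Pf.C 0 98946))
 (Pq.cons (Pq.L [] 0x40018 (Pf.C 5 17030))
 Pq.nil))))))) (Pq.cons (Pq.L [] 256 (Pf.C 2 642))
 (Pq.cons (Pq.L [] 0 (Pf.C 167 642))
 (Pq.cons (Pq.D 5 (Pq.cons (Pq.L [0] 76480 (Pf.C 6 0x4040c300))
 (Pq.cons (Pq.D 6 (Pq.cons (Pq.L [0] 0x106640 (Pf.C 6 0x60e00182))
 (Pq.cons (Pq.L [] 0x136ec0 (Pf.C 6 0x4040c386))
 (Pq.cons (Pq.L [] 0 (Pf.C 167 898))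
 (Pq.cons (Pq.L [] 0x136ec0 (Pf.C 6 0x4040c386))
 (Pq.cons (Pq.L [] 0x106000 (Pf.C 5 0x1c186))
 (Pq.cons (Pq.L [] 0x100000 (Pf.C 2 902))
 Pq.nil))))))) (Pq.cons (Pq.L [] 0 (Pf.C 167 770))
 (Pq.cons (Pq.L [] 0x40000 (Pf.C 3 773))
 (Pq.cons (Pq.D 6 (Pq.cons (Pq.L [0] 0x24cc0 (Pf.C 6 0x4040c380))
 (Pq.cons (Pq.L [] 0x106000 (Pf.C 5 98695))
 (Pq.cons (Pq.L [] 0 (Pf.C 167 898))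
 (Pq.cons (Pq.L [0] 0x48380 (Pf.W 140 2 [] [0,4,5,6] (Pf.cons (Pf.B 8 5 (Pf.B 8 4 (Pf.C 6 0x50410008) (Pf.C 3 520)) (Pf.C 3 648)) (Pf.cons (Pf.B 8 6 (Pf.B 8 5 (Pf.C 132 648) (Pf.C 0 0xc08288)) (Pf.C 4 776)) Pf.nil))))
 (Pq.cons (Pq.L [0] 0x100600 (Pf.C 0 0x1c302))
 (Pq.cons (Pq.L [] 0x1c0700 (Pf.C 0 0xe18282))
 Pq.nil))))))) (Pq.cons (Pq.L [] 0x40018 (Pf.C 5 17030))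
 Pq.nil))))))) (Pq.cons (Pq.L [] 256 (Pf.C 119 642))
 (Pq.cons (Pq.L [] 256 (Pf.C 2 642))
 Pq.nil))))))) (Pq.cons (Pq.L [] 128 (Pf.C 119 514))
 (Pq.cons (Pq.L [] 128 (Pf.C 2 514))
 Pq.nil))))))) (Pq.cons (Pq.L [] 64 (Pf.C 119 386))
 (Pq.cons (Pq.L [] 64 (Pf.C 2 386))
 Pq.nil))))))) (Pq.cons (Pq.D 2 (Pq.cons (Pq.D 3 (Pq.cons (Pq.L [0] 2240 (Pf.C 0 0x800103))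
 (Pq.cons (Pq.L [] 0 (Pf.C 167 260))
 (Pq.cons (Pq.L [] 128 (Pf.C 4 514))
 (Pq.cons (Pq.L [] 128 (Pf.C 168 514))
 (Pq.cons (Pq.L [] 128 (Pf.C 4 514))
 (Pq.cons (Pq.L [] 128 (Pf.C 135 514))
 Pq.nil))))))) (Pq.cons (Pq.L [] 0 (Pf.C 167 259))
 (Pq.cons (Pq.L [] 64 (Pf.C 4 386))
 (Pq.cons (Pq.L [] 64 (Pf.C 168 386))
 (Pq.cons (Pq.L [] 64 (Pf.C 4 386))
 (Pq.cons (Pq.L [] 64 (Pf.C 135 386))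
 Pq.nil))))))) (Pq.cons (Pq.D 2 (Pq.cons (Pq.L [] 64 (Pf.C 3 386))
 (Pq.cons (Pq.D 3 (Pq.cons (Pq.L [] 128 (Pf.C 3 514))
 (Pq.cons (Pq.D 4 (Pq.cons (Pq.L [] 256 (Pf.C 3 642))
 (Pq.cons (Pq.D 5 (Pq.cons (Pq.L [0] 76480 (Pf.C 6 0x4040c300))
 (Pq.cons (Pq.L [] 0x40000 (Pf.C 2 773))
 (Pq.cons (Pq.L [] 0 (Pf.C 167 771))
 (Pq.cons (Pq.D 6 (Pq.cons (Pq.L [0] 0x106640 (Pf.C 6 0x60e00182))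
 (Pq.cons (Pq.L [] 0x136ec0 (Pf.C 6 0x4040c386))
 (Pq.cons (Pq.L [] 0 (Pf.C 167 899))
 (Pq.cons (Pq.L [] 0x136ec0 (Pf.C 6 0x4040c386))
 (Pq.cons (Pq.L [0] 0x1c0300 (Pf.W 140 5 [] [0,2,6,7] (Pf.cons (Pf.B 8 6 (Pf.B 8 2 (Pf.C 6 0x60a08008) (Pf.C 3 264)) (Pf.C 3 776)) (Pf.cons (Pf.B 8 7 (Pf.B 8 6 (Pf.C 132 776) (Pf.C 0 0xe14308)) (Pf.C 4 904)) Pf.nil))))
 (Pq.cons (Pq.L [] 0x100030 (Pf.C 5 17159))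
 Pq.nil))))))) (Pq.cons (Pq.L [] 0x40000 (Pf.C 119 773))
 (Pq.cons (Pq.L [] 0x40000 (Pf.C 2 773))
 Pq.nil))))))) (Pq.cons (Pq.L [] 256 (Pf.C 168 261))
 (Pq.cons (Pq.L [] 256 (Pf.C 3 642))
 (Pq.cons (Pq.L [] 39360 (Pf.C 0 0x814103))
 (Pq.cons (Pq.L [] 265 (Pf.C 5 16645))
 Pq.nil))))))) (Pq.cons (Pq.L [] 128 (Pf.C 168 260))
 (Pq.cons (Pq.L [] 128 (Pf.C 3 514))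
 (Pq.cons (Pq.D 4 (Pq.cons (Pq.L [] 256 (Pf.C 3 642))
 (Pq.cons (Pq.L [] 39360 (Pf.C 0 0xa10103))
 (Pq.cons (Pq.L [] 256 (Pf.C 168 261))
 (Pq.cons (Pq.L [] 256 (Pf.C 3 642))
 (Pq.cons (Pq.L [] 39360 (Pf.C 0 0xa0c104))
 (Pq.cons (Pq.L [] 265 (Pf.C 5 16645))
 Pq.nil))))))) (Pq.cons (Pq.L [] 133 (Pf.C 5 16644))
 Pq.nil))))))) (Pq.cons (Pq.L [] 64 (Pf.C 168 259))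
 (Pq.cons (Pq.L [] 64 (Pf.C 3 386))
 (Pq.cons (Pq.D 3 (Pq.cons (Pq.L [] 128 (Pf.C 3 514))
 (Pq.cons (Pq.D 4 (Pq.cons (Pq.L [] 256 (Pf.C 3 642))
 (Pq.cons (Pq.L [] 39360 (Pf.C 0 0xa0c104))
 (Pq.cons (Pq.L [] 256 (Pf.C 168 261))
 (Pq.cons (Pq.L [] 256 (Pf.C 3 642))
 (Pq.cons (Pq.L [] 39360 (Pf.C 0 0xa10103))
 (Pq.cons (Pq.L [] 265 (Pf.C 5 16645))
 Pq.nil))))))) (Pq.cons (Pq.L [] 128 (Pf.C 168 260))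
 (Pq.cons (Pq.L [] 128 (Pf.C 3 514))
 (Pq.cons (Pq.D 4 (Pq.cons (Pq.L [] 256 (Pf.C 3 642))
 (Pq.cons (Pq.L [] 39360 (Pf.C 0 0x814103))
 (Pq.cons (Pq.L [] 256 (Pf.C 168 261))
 (Pq.cons (Pq.L [] 256 (Pf.C 3 642))
 (Pq.cons (Pq.D 5 (Pq.cons (Pq.L [] 0x40000 (Pf.C 126 646))
 (Pq.cons (Pq.L [] 0x40000 (Pf.C 119 646))
 (Pq.cons (Pq.L [] 0x40000 (Pf.C 4 773))
 (Pq.cons (Pq.D 6 (Pq.cons (Pq.L [] 0x136ef7 (Pf.C 1 0x202061c301))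
 (Pq.cons (Pq.L [0] 0x1c8780 (Pf.W 140 7 [] [0,1,2,3,4,5,6] (Pf.cons (Pf.B 8 6 (Pf.B 8 5 (Pf.B 8 2 (Pf.T 8 9 (Pf.cons (Pf.W 146 2 [] [0,1,3,4,5,6,7,8] (Pf.cons (Pf.B 9 5 (Pf.C 119 649) (Pf.B 9 4 (Pf.C 119 521) (Pf.C 0 0xa08484))) (Pf.cons (Pf.B 9 7 (Pf.C 5 0x24107) (Pf.B 9 5 (Pf.B 9 6 (Pf.B 9 8 (Pf.B 9 4 (Pf.B 9 3 (Pf.B 9 1 (Pf.W 150 9 [] [0,6,7,8] (Pf.cons (Pf.B 10 8 (Pf.B 10 7 (Pf.B 10 6 (Pf.C 6 0x80028386) (Pf.C 3 778)) (Pf.C 0 0x24507)) (Pf.C 3 1034)) Pf.nil)) (Pf.C 4 137)) (Pf.C 4 393)) (Pf.C 4 521)) (Pf.C 8 0x60a08409)) (Pf.C 0 0xa1c309)) (Pf.C 4 649))) Pf.nil))) (Pf.cons (Pf.C 171 904) Pf.nil))) (Pf.C 3 264)) (Pf.C 126 648)) (Pf.C 3 776)) (Pf.cons (Pf.B 8 6 (Pf.C 132 776) (Pf.B 8 5 (Pf.C 0 0xa1c308)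 (Pf.C 4 648))) Pf.nil))))
 (Pq.cons (Pq.L [] 0x136ef7 (Pf.C 1 0x202061c301))
 (Pq.cons (Pq.L [] 0x136ef7 (Pf.C 1 0x202061c301))
 (Pq.cons (Pq.L [] 0x136ef7 (Pf.C 1 0x202061c301))
 (Pq.cons (Pq.L [] 0x100030 (Pf.C 5 17159))
 Pq.nil))))))) (Pq.cons (Pq.L [] 0x40000 (Pf.C 4 773))
 (Pq.cons (Pq.D 6 (Pq.cons (Pq.L [] 0x100030 (Pf.C 5 17286))
 (Pq.cons (Pq.L [] 0x1c0700 (Pf.C 0 0xe18282))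
 (Pq.cons (Pq.L [] 0x100000 (Pf.C 135 775))
 (Pq.cons (Pq.L [] 0x100030 (Pf.C 5 17286))
 (Pq.cons (Pq.L [] 0x40bc0 (Pf.W 146 2 [] [1,3,4,5,6,7] (Pf.cons (Pf.B 8 6 (Pf.B 8 5 (Pf.C 119 648) (Pf.C 0 0xc08288)) (Pf.C 2 776)) (Pf.cons (Pf.B 8 7 (Pf.B 8 6 (Pf.B 8 5 (Pf.B 8 4 (Pf.B 8 3 (Pf.B 8 1 (Pf.W 150 8 [] [2,3,4] (Pf.cons (Pf.B 9 4 (Pf.B 9 3 (Pf.B 9 2 (Pf.C 8 0x4040c409) (Pf.C 3 265)) (Pf.C 126 393)) (Pf.C 126 521)) Pf.nil)) (Pf.C 4 136)) (Pf.C 4 392)) (Pf.C 4 520)) (Pf.C 4 648)) (Pf.C 135 776)) (Pf.C 4 904)) Pf.nil))))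
 (Pq.cons (Pq.L [0] 0x106032 (Pf.C 7 0x30004386))
 Pq.nil))))))) Pq.nil))))))) (Pq.cons (Pq.L [] 265 (Pf.C 5 16645))
 Pq.nil))))))) (Pq.cons (Pq.L [] 133 (Pf.C 5 16644))
 Pq.nil))))))) (Pq.cons (Pq.L [] 67 (Pf.C 5 16643))
 Pq.nil))))))) (Pq.cons (Pq.D 2 (Pq.cons (Pq.L [] 64 (Pf.C 126 259))
 (Pq.cons (Pq.L [] 64 (Pf.C 119 259))
 (Pq.cons (Pq.L [] 64 (Pf.C 4 386))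
 (Pq.cons (Pq.D 3 (Pq.cons (Pq.L [] 128 (Pf.C 126 260))
 (Pq.cons (Pq.L [] 128 (Pf.C 119 260))
 (Pq.cons (Pq.L [] 128 (Pf.C 4 514))
 (Pq.cons (Pq.D 4 (Pq.cons (Pq.L [] 256 (Pf.C 126 261))
 (Pq.cons (Pq.L [] 256 (Pf.C 119 261))
 (Pq.cons (Pq.L [] 256 (Pf.C 4 642))
 (Pq.cons (Pq.D 5 (Pq.cons (Pq.L [] 0x40000 (Pf.C 3 773))
 (Pq.cons (Pq.D 6 (Pq.cons (Pq.L [0] 0x140bcf (Pf.W 140 6 [] [0,1,2,3,4,5,7] (Pf.cons (Pf.B 8 5 (Pf.B 8 2 (Pf.B 8 1 (Pf.T 8 9 (Pf.cons (Pf.W 152 1 [] [0,2,3,4,5,6,7,8] (Pf.cons (Pf.B 9 8 (Pf.B 9 7 (Pf.B 9 5 (Pf.B 9 6 (Pf.B 9 4 (Pf.B 9 3 (Pf.B 9 2 (Pf.C 8 0x4040c089) (Pf.W 146 9 [] [0,1,2,3,4,5,6,7,8] (Pf.cons (Pf.B 10 2 (Pf.C 119 266) (Pf.B 10 1 (Pf.C 119 138) (Pf.C 0 0x424501))) (Pf.cons (Pf.B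 10 6 (Pf.C 5 0x28486) (Pf.B 10 7 (Pf.B 10 2 (Pf.B 10 5 (Pf.B 10 8 (Pf.B 10 1 (Pf.B 10 4 (Pf.B 10 3 (Pf.W 150 10 [] [0,5,6,8] (Pf.cons (Pf.B 11 8 (Pf.B 11 6 (Pf.B 11 5 (Pf.C 6 0x8002c305) (Pf.C 3 651)) (Pf.C 0 0x28586)) (Pf.C 3 1035)) Pf.nil)) (Pf.W 150 10 [] [0,5,6,8] (Pf.cons (Pf.B 11 8 (Pf.B 11 6 (Pf.B 11 5 (Pf.C 6 0x8002c305) (Pf.C 3 651)) (Pf.C 0 0x28586)) (Pf.C 3 1035)) Pf.nil))) (Pf.B 10 3 (Pf.W 150 10 [] [0,5,6,8] (Pf.cons (Pf.B 11 8 (Pf.B 11 6 (Pf.B 11 5 (Pf.C 6 0x8002c305) (Pf.C 3 651)) (Pf.C 0 0x28586)) (Pf.C 3 1035)) Pf.nil)) (Pf.C 8 0x4140c481))) (Pf.C 4 138)) (Pf.C 8 0x9041440a)) (Pf.C 0 0x41828a)) (Pf.C 4 266)) (Pf.C 0 0xc1c500))) Pf.nil)))) (Pf.C 3 393)) (Pf.C 3 521)) (Pf.C 6 0x50c24400)) (Pf.C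 3 649)) (Pf.C 3 905)) (Pf.C 3 1033)) Pf.nil)) (Pf.cons (Pf.C 171 776) Pf.nil))) (Pf.C 126 136)) (Pf.C 126 264)) (Pf.C 3 648)) (Pf.cons (Pf.B 8 5 (Pf.C 132 648) (Pf.B 8 2 (Pf.C 0 0x418288) (Pf.C 4 264))) Pf.nil))))
 (Pq.cons (Pq.L [] 0x100631 (Pf.C 0 0x41c301))
 (Pq.cons (Pq.L [] 0 (Pf.C 167 902))
 (Pq.cons (Pq.L [0] 0x1c0000 (Pf.W 140 6 [] [0,5,7] (Pf.cons (Pf.B 8 7 (Pf.B 8 5 (Pf.C 6 0x70c14008) (Pf.C 3 648)) (Pf.C 3 904)) (Pf.cons (Pf.B 8 7 (Pf.C 132 904) (Pf.B 8 5 (Pf.C 132 648) (Pf.C 0 0xe18405))) Pf.nil))))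
 (Pq.cons (Pq.L [] 0x106000 (Pf.C 5 0x1c186))
 (Pq.cons (Pq.L [] 0x1c0700 (Pf.C 0 0xe18282))
 Pq.nil))))))) (Pq.cons (Pq.L [] 0x40000 (Pf.C 168 646))
 (Pq.cons (Pq.L [] 0x40000 (Pf.C 3 773))
 (Pq.cons (Pq.D 6 (Pq.cons (Pq.L [] 0x136ef7 (Pf.C 1 0x202061c301))
 (Pq.cons (Pq.L [] 0x106000 (Pf.C 5 98695))
 (Pq.cons (Pq.L [] 0x136ef7 (Pf.C 1 0x202061c301))
 (Pq.cons (Pq.L [] 0x136ef7 (Pf.C 1 0x202061c301))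
 (Pq.cons (Pq.L [] 0x136ef7 (Pf.C 1 0x202061c301))
 (Pq.cons (Pq.L [] 0x1dbb00 (Pf.W 146 5 [] [1,2,3,4,6,7] (Pf.cons (Pf.B 8 7 (Pf.B 8 6 (Pf.C 119 776) (Pf.C 0 0xe14308)) (Pf.C 2 904)) (Pf.cons (Pf.B 8 7 (Pf.B 8 6 (Pf.B 8 2 (Pf.B 8 1 (Pf.B 8 4 (Pf.B 8 3 (Pf.W 150 8 [] [2,5,6] (Pf.cons (Pf.B 9 6 (Pf.B 9 5 (Pf.B 9 2 (Pf.C 8 0x60a08409) (Pf.C 126 265)) (Pf.C 3 649)) (Pf.C 126 777)) Pf.nil)) (Pf.W 150 8 [] [3,5,6] (Pf.cons (Pf.B 9 6 (Pf.B 9 5 (Pf.B 9 3 (Pf.C 8 0x31024305) (Pf.C 3 393)) (Pf.C 3 649)) (Pf.C 126 777)) Pf.nil))) (Pf.B 8 3 (Pf.W 150 8 [] [4,5,6] (Pf.cons (Pf.B 9 6 (Pf.B 9 5 (Pf.B 9 4 (Pf.C 8 0x41024305) (Pf.C 3 521)) (Pf.C 3 649)) (Pf.C 126 777)) Pf.nil)) (Pf.C 8 0x4100c305))) (Pf.C 4 136)) (Pf.C 4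 264)) (Pf.C 4 776)) (Pf.C 135 904)) Pf.nil))))
 Pq.nil))))))) (Pq.cons (Pq.L [] 0x40018 (Pf.C 5 17030))
 Pq.nil))))))) (Pq.cons (Pq.L [] 256 (Pf.C 4 642))
 (Pq.cons (Pq.L [] 39360 (Pf.C 0 0x814103))
 Pq.nil))))))) (Pq.cons (Pq.L [] 128 (Pf.C 4 514))
 (Pq.cons (Pq.D 4 (Pq.cons (Pq.L [] 256 (Pf.C 126 261))
 (Pq.cons (Pq.L [] 256 (Pf.C 119 261))
 (Pq.cons (Pq.L [] 256 (Pf.C 4 642))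
 (Pq.cons (Pq.L [] 39360 (Pf.C 0 0xa10103))
 (Pq.cons (Pq.L [] 256 (Pf.C 4 642))
 (Pq.cons (Pq.L [] 39360 (Pf.C 0 0xa0c104))
 Pq.nil))))))) Pq.nil))))))) (Pq.cons (Pq.L [] 64 (Pf.C 4 386))
 (Pq.cons (Pq.D 3 (Pq.cons (Pq.L [] 128 (Pf.C 126 260))
 (Pq.cons (Pq.L [] 128 (Pf.C 119 260))
 (Pq.cons (Pq.L [] 128 (Pf.C 4 514))
 (Pq.cons (Pq.D 4 (Pq.cons (Pq.L [] 256 (Pf.C 126 261))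
 (Pq.cons (Pq.L [] 256 (Pf.C 119 261))
 (Pq.cons (Pq.L [] 256 (Pf.C 4 642))
 (Pq.cons (Pq.L [] 39360 (Pf.C 0 0xa0c104))
 (Pq.cons (Pq.L [] 256 (Pf.C 4 642))
 (Pq.cons (Pq.L [] 39360 (Pf.C 0 0xa10103))
 Pq.nil))))))) (Pq.cons (Pq.L [] 128 (Pf.C 4 514))
 (Pq.cons (Pq.D 4 (Pq.cons (Pq.L [] 256 (Pf.C 126 261))
 (Pq.cons (Pq.L [] 39375 (Pf.C 7 0x4040c281))
 (Pq.cons (Pq.L [] 256 (Pf.C 4 642))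
 (Pq.cons (Pq.L [] 39360 (Pf.C 0 0x814103))
 (Pq.cons (Pq.L [] 256 (Pf.C 4 642))
 (Pq.cons (Pq.D 5 (Pq.cons (Pq.L [] 0x40018 (Pf.C 5 17157))
 (Pq.cons (Pq.L [] 0x40000 (Pf.C 2 773))
 (Pq.cons (Pq.L [] 0x40000 (Pf.C 135 646))
 (Pq.cons (Pq.L [] 0x40018 (Pf.C 5 17157))
 (Pq.cons (Pq.D 6 (Pq.cons (Pq.L [0] 0x1c0000 (Pf.C 0 0x1c305))
 (Pq.cons (Pq.L [] 0x100000 (Pf.C 119 775))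
 (Pq.cons (Pq.L [] 0x136ef7 (Pf.C 1 0x202061c301))
 (Pq.cons (Pq.L [] 33152 (Pf.W 152 2 [] [4,5] (Pf.cons (Pf.B 8 5 (Pf.C 129 648) (Pf.B 8 4 (Pf.C 129 520) (Pf.C 0 0xa08404))) Pf.nil)))
 (Pq.cons (Pq.L [] 0x136ef7 (Pf.C 1 0x202061c301))
 (Pq.cons (Pq.L [] 0x136ef7 (Pf.C 1 0x202061c301))
 Pq.nil))))))) (Pq.cons (Pq.L [] 0x40000 (Pf.C 2 773))
 Pq.nil))))))) Pq.nil))))))) Pq.nil))))))) Pq.nil))))))) (Pq.cons (Pq.D 2 (Pq.cons (Pq.L [] 67 (Pf.C 5 16770))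
 (Pq.cons (Pq.L [] 64 (Pf.C 2 386))
 (Pq.cons (Pq.L [] 64 (Pf.C 135 259))
 (Pq.cons (Pq.L [] 67 (Pf.C 5 16770))
 (Pq.cons (Pq.D 3 (Pq.cons (Pq.L [] 133 (Pf.C 5 16898))
 (Pq.cons (Pq.L [] 128 (Pf.C 2 514))
 (Pq.cons (Pq.L [] 128 (Pf.C 135 260))
 (Pq.cons (Pq.L [] 133 (Pf.C 5 16898))
 (Pq.cons (Pq.D 4 (Pq.cons (Pq.L [] 265 (Pf.C 5 17026))
 (Pq.cons (Pq.L [] 256 (Pf.C 2 642))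
 (Pq.cons (Pq.L [] 256 (Pf.C 135 261))
 (Pq.cons (Pq.L [] 265 (Pf.C 5 17026))
 (Pq.cons (Pq.D 5 (Pq.cons (Pq.L [0] 0x40300 (Pf.C 0 98946))
 (Pq.cons (Pq.L [] 0x40000 (Pf.C 119 646))
 (Pq.cons (Pq.L [] 0x40000 (Pf.C 4 773))
 (Pq.cons (Pq.D 6 (Pq.cons (Pq.L [] 0x1c0700 (Pf.C 0 0xe18105))
 (Pq.cons (Pq.L [] 0x1c0700 (Pf.C 0 0xe18282))
 (Pq.cons (Pq.L [] 0x100000 (Pf.C 168 775))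
 (Pq.cons (Pq.L [] 0x1c0700 (Pf.C 0 0xe18105))
 (Pq.cons (Pq.L [] 0x1c0000 (Pf.W 146 6 [] [1,2,3,4,5,7] (Pf.cons (Pf.B 8 7 (Pf.C 119 904) (Pf.B 8 5 (Pf.C 119 648) (Pf.C 0 0xe18405))) (Pf.cons (Pf.B 8 7 (Pf.B 8 5 (Pf.B 8 4 (Pf.B 8 3 (Pf.B 8 2 (Pf.B 8 1 (Pf.W 150 8 [] [5,6,7] (Pf.cons (Pf.B 9 7 (Pf.B 9 6 (Pf.B 9 5 (Pf.C 8 0x70c14409) (Pf.C 126 649)) (Pf.C 3 777)) (Pf.C 126 905)) Pf.nil)) (Pf.C 4 136)) (Pf.C 135 264)) (Pf.C 4 392)) (Pf.C 4 520)) (Pf.C 4 648)) (Pf.C 4 904)) Pf.nil))))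
 (Pq.cons (Pq.L [] 0x100030 (Pf.C 5 17159))
 Pq.nil))))))) (Pq.cons (Pq.L [] 0x40000 (Pf.C 4 773))
 (Pq.cons (Pq.D 6 (Pq.cons (Pq.L [] 0x100030 (Pf.C 5 17286))
 (Pq.cons (Pq.L [] 0x100000 (Pf.C 2 902))
 (Pq.cons (Pq.L [] 0x136ef7 (Pf.C 1 0x202061c301))
 (Pq.cons (Pq.L [] 0x100030 (Pf.C 5 17286))
 (Pq.cons (Pq.L [] 0x136ef7 (Pf.C 1 0x202061c301))
 (Pq.cons (Pq.L [0] 0x106032 (Pf.C 7 0x30004386))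
 Pq.nil))))))) Pq.nil))))))) (Pq.cons (Pq.L [] 256 (Pf.C 2 642))
 Pq.nil))))))) (Pq.cons (Pq.L [] 128 (Pf.C 2 514))
 Pq.nil))))))) (Pq.cons (Pq.L [] 64 (Pf.C 2 386))
 Pq.nil))))))) Pq.nil))))))) Pq.nil)
theorem e4_o33 : AllRef e4_T e4_G24 (List.take 1 (List.drop 1 (List.drop 3 (List.flatMap (splitP 0) (List.drop 1 (applyObl d_T 2 [116,111,114,113,92,77] [0,0,0,0,0,0] [(116,0x20000000000000000000),(111,0x100000000000000000000000),(113,0x20000000000000000000),(92,0x8000000000000000000000000000),(77,0x120000000000000000000000000000)])))))) :=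
  chkPq_sound e4_o33c _ (by decide +kernel)
noncomputable def e4_o34c : Pq := (Pq.cons (Pq.D 1 (Pq.cons (Pq.D 2 (Pq.cons (Pq.L [0] 67 (Pf.C 0 49409))
 (Pq.cons (Pq.D 3 (Pq.cons (Pq.L [0] 133 (Pf.C 0 65793))
 (Pq.cons (Pq.D 4 (Pq.cons (Pq.L [0] 265 (Pf.C 0 82177))
 (Pq.cons (Pq.D 5 (Pq.cons (Pq.D 6 (Pq.cons (Pq.L [0] 0x100030 (Pf.C 0 0x1c301))
 (Pq.cons (Pq.L [] 0x136ec0 (Pf.C 6 0x4040c386))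
 (Pq.cons (Pq.L [] 0 (Pf.C 167 899))
 (Pq.cons (Pq.L [] 0x136ec0 (Pf.C 6 0x4040c386))
 (Pq.cons (Pq.L [0] 0x1c0000 (Pf.C 0 0x1c305))
 (Pq.cons (Pq.L [] 0x100000 (Pf.C 125 902))
 Pq.nil))))))) (Pq.cons (Pq.L [] 0x40000 (Pf.C 2 773))
 (Pq.cons (Pq.L [] 0 (Pf.C 167 771))
 (Pq.cons (Pq.D 6 (Pq.cons (Pq.L [] 0x136ec0 (Pf.C 6 0x4040c386))
 (Pq.cons (Pq.L [0] 0x106640 (Pf.C 6 0x30400386))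
 (Pq.cons (Pq.L [] 0 (Pf.C 167 899))
 (Pq.cons (Pq.L [0] 0x106640 (Pf.C 6 0x30400386))
 (Pq.cons (Pq.L [0] 0x1d33e6 (Pf.W 140 5 [] [0,1,2,3,4,6,7] (Pf.cons (Pf.B 8 7 (Pf.B 8 6 (Pf.B 8 3 (Pf.B 8 2 (Pf.B 8 1 (Pf.C 125 136) (Pf.T 8 9 (Pf.cons (Pf.W 143 1 [] [0,2,3,4,5,6,7,8] (Pf.cons (Pf.B 9 8 (Pf.B 9 7 (Pf.B 9 5 (Pf.C 119 1157) (Pf.B 9 6 (Pf.B 9 4 (Pf.C 119 1156) (Pf.B 9 3 (Pf.C 119 1155) (Pf.B 9 2 (Pf.W 152 9 [] [0,1,2,3,4,5,6,7,8] (Pf.cons (Pf.B 10 8 (Pf.B 10 6 (Pf.B 10 5 (Pf.B 10 2 (Pf.B 10 1 (Pf.C 129 138) (Pf.B 10 4 (Pf.B 10 3 (Pf.B 10 7 (Pf.W 146 10 [] [0,1,2,3,4,5,6,7,8,9] (Pf.cons (Pf.B 11 9 (Pf.C 119 1163) (Pf.B 11 1 (Pf.C 0 0x22848b) (Pf.C 2 139))) (Pf.cons (Pf.B 11 9 (Pf.B 11 7 (Pf.B 11 6 (Pf.B 11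 5 (Pf.C 5 0x2c505) (Pf.B 11 4 (Pf.C 5 0x2c304) (Pf.B 11 3 (Pf.C 5 0x2c303) (Pf.B 11 2 (Pf.B 11 1 (Pf.B 11 8 (Pf.W 150 11 [] [0,5,6,8] (Pf.cons (Pf.B 12 8 (Pf.B 12 6 (Pf.B 12 5 (Pf.C 6 0x80030305) (Pf.C 0 0x2c605)) (Pf.C 3 780)) (Pf.C 3 1036)) Pf.nil)) (Pf.W 170 2 [] [0,1,3,4,5,6,7,8,11] (Pf.cons (Pf.B 12 11 (Pf.C 5 0x2c10c) (Pf.B 12 8 (Pf.B 12 7 (Pf.C 119 908) (Pf.B 12 6 (Pf.B 12 5 (Pf.B 12 4 (Pf.B 12 3 (Pf.B 12 1 (Pf.W 9 32780 [] [5,6,8,11] (Pf.cons (Pf.B 13 11 (Pf.B 13 8 (Pf.C 5 0x3440c) (Pf.C 0 0x160040d)) (Pf.C 4 1421)) (Pf.cons (Pf.B 13 8 (Pf.B 13 6 (Pf.B 13 5 (Pf.B 13 2 (Pf.C 6 0x60a0860d) (Pf.C 3 269)) (Pf.C 6 0x60a34400)) (Pf.C 3 781)) (Pf.C 3 1037)) Pf.nil))) (Pf.C 2 140)) (Pf.C 2 396)) (Pf.C 2 524))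 (Pf.C 2 652)) (Pf.C 6 0x8000830c))) (Pf.C 0 0x2c40c))) (Pf.cons (Pf.C 167 1539) Pf.nil)))) (Pf.C 135 139)) (Pf.C 0 0x608580))))) (Pf.C 8 0x70c2c509)) (Pf.C 4 907)) (Pf.C 4 1163)) Pf.nil))) (Pf.W 146 10 [] [0,1,2,3,4,5,6,7,8,9] (Pf.cons (Pf.B 11 9 (Pf.C 119 1163) (Pf.B 11 7 (Pf.C 119 907) (Pf.C 0 0x1228587))) (Pf.cons (Pf.B 11 9 (Pf.B 11 7 (Pf.B 11 8 (Pf.B 11 5 (Pf.C 5 0x2c405) (Pf.B 11 6 (Pf.B 11 4 (Pf.C 5 0x2c304) (Pf.B 11 3 (Pf.C 5 0x2c303) (Pf.B 11 2 (Pf.B 11 1 (Pf.W 150 11 [] [7,9,10] (Pf.cons (Pf.B 12 10 (Pf.B 12 9 (Pf.B 12 7 (Pf.C 8 0x9141c58c) (Pf.C 126 908)) (Pf.C 126 1164)) (Pf.C 3 1292)) Pf.nil)) (Pf.C 135 139)) (Pf.C 0 0x608580)))) (Pf.C 0 0xe1430b))) (Pf.C 8 0x9141c40b)) (Pf.C 4 907)) (Pf.C 4 1163))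 Pf.nil)))) (Pf.C 0 0x224503)) (Pf.C 0 0x224504))) (Pf.C 3 266)) (Pf.C 6 0x60a28400)) (Pf.C 3 778)) (Pf.C 3 1034)) Pf.nil)) (Pf.C 126 1154)))) (Pf.C 0 0xe14309))) (Pf.C 4 905)) (Pf.C 126 1160)) Pf.nil)) (Pf.cons (Pf.C 171 392) Pf.nil)))) (Pf.C 3 264)) (Pf.C 6 0x100c305)) (Pf.C 3 776)) (Pf.C 126 904)) (Pf.cons (Pf.B 8 7 (Pf.B 8 6 (Pf.C 132 776) (Pf.C 0 0xe14308)) (Pf.C 4 904)) Pf.nil))))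
 (Pq.cons (Pq.L [] 0x100000 (Pf.C 129 902))
 Pq.nil))))))) (Pq.cons (Pq.L [] 0x40000 (Pf.C 119 773))
 (Pq.cons (Pq.L [] 0x40000 (Pf.C 2 773))
 Pq.nil))))))) (Pq.cons (Pq.L [] 0 (Pf.C 167 643))
 (Pq.cons (Pq.L [] 256 (Pf.C 3 642))
 (Pq.cons (Pq.L [] 256 (Pf.C 126 642))
 (Pq.cons (Pq.L [] 256 (Pf.C 125 642))
 Pq.nil))))))) (Pq.cons (Pq.L [] 0 (Pf.C 167 515))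
 (Pq.cons (Pq.L [] 128 (Pf.C 3 514))
 (Pq.cons (Pq.L [] 128 (Pf.C 126 514))
 (Pq.cons (Pq.L [] 128 (Pf.C 125 514))
 Pq.nil))))))) (Pq.cons (Pq.D 3 (Pq.cons (Pq.L [0] 133 (Pf.C 0 65793))
 (Pq.cons (Pq.L [] 0 (Pf.C 167 388))
 (Pq.cons (Pq.L [0] 2240 (Pf.C 0 0x800103))
 (Pq.cons (Pq.L [] 128 (Pf.C 3 514))
 (Pq.cons (Pq.L [] 128 (Pf.C 126 514))
 (Pq.cons (Pq.L [] 128 (Pf.C 125 514))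
 Pq.nil))))))) (Pq.cons (Pq.L [] 64 (Pf.C 3 386))
 (Pq.cons (Pq.L [] 64 (Pf.C 126 386))
 (Pq.cons (Pq.L [] 64 (Pf.C 125 386))
 Pq.nil))))))) (Pq.cons (Pq.D 2 (Pq.cons (Pq.D 3 (Pq.cons (Pq.D 4 (Pq.cons (Pq.D 5 (Pq.cons (Pq.L [0] 0x40018 (Pf.C 0 98945))
 (Pq.cons (Pq.D 6 (Pq.cons (Pq.L [] 0x136ec0 (Pf.C 6 0x4040c386))
 (Pq.cons (Pq.L [0] 0x106032 (Pf.C 6 0x604386))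
 (Pq.cons (Pq.L [] 0 (Pf.C 167 898))
 (Pq.cons (Pq.L [0] 0x106640 (Pf.C 6 0x608386))
 (Pq.cons (Pq.L [] 0x106000 (Pf.C 5 0x1c186))
 (Pq.cons (Pq.L [] 0x100000 (Pf.C 2 902))
 Pq.nil))))))) (Pq.cons (Pq.L [] 0 (Pf.C 167 770))
 (Pq.cons (Pq.L [] 0x40000 (Pf.C 3 773))
 (Pq.cons (Pq.L [0] 0x40300 (Pf.C 0 98946))
 (Pq.cons (Pq.L [] 0x40000 (Pf.C 125 773))
 Pq.nil))))))) (Pq.cons (Pq.L [] 256 (Pf.C 2 642))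
 (Pq.cons (Pq.L [] 0 (Pf.C 167 642))
 (Pq.cons (Pq.D 5 (Pq.cons (Pq.L [] 0x40000 (Pf.C 3 773))
 (Pq.cons (Pq.L [0] 0x5b800 (Pf.C 6 0x4000c305))
 (Pq.cons (Pq.L [] 0 (Pf.C 167 770))
 (Pq.cons (Pq.L [0] 0x5b800 (Pf.C 6 0x4000c305))
 (Pq.cons (Pq.D 6 (Pq.cons (Pq.L [] 0x100000 (Pf.C 126 775))
 (Pq.cons (Pq.L [] 0x106000 (Pf.C 5 98695))
 (Pq.cons (Pq.L [] 0 (Pf.C 167 898))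
 (Pq.cons (Pq.L [] 0x1f67d0 (Pf.W 140 2 [] [1,3,4,5,6,7] (Pf.cons (Pf.B 8 6 (Pf.B 8 1 (Pf.C 125 136) (Pf.T 8 9 (Pf.cons (Pf.W 143 1 [] [2,3,4,5,6,7,8] (Pf.cons (Pf.B 9 8 (Pf.B 9 6 (Pf.B 9 4 (Pf.B 9 3 (Pf.B 9 2 (Pf.C 119 1154) (Pf.B 9 5 (Pf.B 9 7 (Pf.W 152 9 [] [1,2,3,4,5,6,7,8] (Pf.cons (Pf.B 10 8 (Pf.B 10 7 (Pf.B 10 5 (Pf.B 10 6 (Pf.C 8 0x70c1448a) (Pf.B 10 4 (Pf.B 10 3 (Pf.B 10 2 (Pf.B 10 1 (Pf.C 129 138) (Pf.W 146 10 [] [1,2,3,4,5,6,7,8,9] (Pf.cons (Pf.B 11 9 (Pf.C 119 1163) (Pf.B 11 6 (Pf.C 119 779) (Pf.C 0 0x1228586))) (Pf.cons (Pf.B 11 9 (Pf.B 11 6 (Pf.B 11 8 (Pf.B 11 4 (Pf.B 11 3 (Pf.B 11 2 (Pf.C 5 0x2c402) (Pf.B 11 5 (Pf.B 11 1 (Pf.B 11 7 (Pf.W 150 11 [] [6,9,10] (Pf.cons (Pf.B 12 10 (Pf.B 12 9 (Pf.B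 12 6 (Pf.C 8 0x9141858c) (Pf.C 126 780)) (Pf.C 126 1164)) (Pf.C 3 1292)) Pf.nil)) (Pf.W 150 11 [] [7,9,10] (Pf.cons (Pf.B 12 10 (Pf.B 12 9 (Pf.B 12 7 (Pf.C 8 0x71630509) (Pf.C 3 908)) (Pf.C 126 1164)) (Pf.C 3 1292)) Pf.nil))) (Pf.C 135 139)) (Pf.C 0 0xc0828b))) (Pf.C 8 0x9141818b)) (Pf.C 8 0x9141820b)) (Pf.C 8 0x9141840b)) (Pf.C 4 779)) (Pf.C 4 1163)) Pf.nil)))) (Pf.C 0 0xa1810a)) (Pf.C 3 394)) (Pf.C 3 522))) (Pf.C 3 650)) (Pf.C 3 906)) (Pf.C 3 1034)) Pf.nil)) (Pf.W 146 7 [] [1,2,3,4,5,6,9] (Pf.cons (Pf.B 10 9 (Pf.C 119 1162) (Pf.B 10 6 (Pf.C 119 778) (Pf.C 0 0x121c506))) (Pf.cons (Pf.B 10 9 (Pf.B 10 6 (Pf.B 10 4 (Pf.B 10 3 (Pf.B 10 2 (Pf.C 5 0x28382) (Pf.B 10 5 (Pf.B 10 1 (Pf.W 150 10 [] [6,7,9] (Pf.cons (Pf.B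 11 9 (Pf.B 11 7 (Pf.B 11 6 (Pf.C 8 0x90e1850b) (Pf.C 126 779)) (Pf.C 3 907)) (Pf.C 126 1163)) Pf.nil)) (Pf.C 135 138)) (Pf.C 0 0xc0828a))) (Pf.C 8 0x90e1818a)) (Pf.C 8 0x90e1820a)) (Pf.C 4 778)) (Pf.C 4 1162)) Pf.nil)))) (Pf.C 0 0xc08289))) (Pf.C 126 1155)) (Pf.C 126 1156)) (Pf.C 4 777)) (Pf.C 126 1160)) Pf.nil)) (Pf.cons (Pf.C 171 264) Pf.nil)))) (Pf.C 126 776)) (Pf.cons (Pf.B 8 6 (Pf.B 8 5 (Pf.C 132 648) (Pf.C 0 0xc08288)) (Pf.C 4 776)) Pf.nil))))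
 (Pq.cons (Pq.L [0] 0x100600 (Pf.C 0 0x1c302))
 (Pq.cons (Pq.L [] 0x1c0700 (Pf.C 0 0xe18282))
 Pq.nil))))))) (Pq.cons (Pq.L [] 0x40000 (Pf.C 129 773))
 Pq.nil))))))) (Pq.cons (Pq.L [] 256 (Pf.C 119 642))
 (Pq.cons (Pq.L [] 256 (Pf.C 2 642))
 Pq.nil))))))) (Pq.cons (Pq.L [] 128 (Pf.C 2 514))
 (Pq.cons (Pq.L [] 0 (Pf.C 167 514))
 (Pq.cons (Pq.D 4 (Pq.cons (Pq.D 5 (Pq.cons (Pq.L [0] 0x40018 (Pf.C 0 98945))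
 (Pq.cons (Pq.D 6 (Pq.cons (Pq.L [0] 0x130680 (Pf.C 6 0x60e00202))
 (Pq.cons (Pq.L [0] 0x106032 (Pf.C 6 0x604386))
 (Pq.cons (Pq.L [] 0 (Pf.C 167 898))
 (Pq.cons (Pq.L [0] 0x106640 (Pf.C 6 0x608386))
 (Pq.cons (Pq.L [] 0x106000 (Pf.C 5 0x1c186))
 (Pq.cons (Pq.L [] 0x100000 (Pf.C 2 902))
 Pq.nil))))))) (Pq.cons (Pq.L [] 0 (Pf.C 167 770))
 (Pq.cons (Pq.L [] 0x40000 (Pf.C 3 773))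
 (Pq.cons (Pq.L [0] 0x40300 (Pf.C 0 98946))
 (Pq.cons (Pq.L [] 0x40000 (Pf.C 125 773))
 Pq.nil))))))) (Pq.cons (Pq.L [] 256 (Pf.C 2 642))
 (Pq.cons (Pq.L [] 0 (Pf.C 167 642))
 (Pq.cons (Pq.D 5 (Pq.cons (Pq.L [] 0x40000 (Pf.C 3 773))
 (Pq.cons (Pq.D 6 (Pq.cons (Pq.L [0] 0x130680 (Pf.C 6 0x60e00202))
 (Pq.cons (Pq.L [0] 0x106032 (Pf.C 6 0x604386))
 (Pq.cons (Pq.L [] 0 (Pf.C 167 898))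
 (Pq.cons (Pq.L [0] 0x106640 (Pf.C 6 0x608386))
 (Pq.cons (Pq.L [] 0x106000 (Pf.C 5 0x1c186))
 (Pq.cons (Pq.L [] 0x100000 (Pf.C 2 902))
 Pq.nil))))))) (Pq.cons (Pq.L [] 0 (Pf.C 167 770))
 (Pq.cons (Pq.L [] 0x40000 (Pf.C 3 773))
 (Pq.cons (Pq.D 6 (Pq.cons (Pq.L [0] 0xa8580 (Pf.C 6 0x50410380))
 (Pq.cons (Pq.L [] 0x106000 (Pf.C 5 98695))
 (Pq.cons (Pq.L [] 0 (Pf.C 167 898))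
 (Pq.cons (Pq.L [0] 0x48380 (Pf.W 140 2 [] [0,4,5,6] (Pf.cons (Pf.B 8 5 (Pf.B 8 4 (Pf.C 6 0x50410008) (Pf.C 3 520)) (Pf.C 3 648)) (Pf.cons (Pf.B 8 6 (Pf.B 8 5 (Pf.C 132 648) (Pf.C 0 0xc08288)) (Pf.C 4 776)) Pf.nil))))
 (Pq.cons (Pq.L [0] 0x100600 (Pf.C 0 0x1c302))
 (Pq.cons (Pq.L [] 0x1c0700 (Pf.C 0 0xe18282))
 Pq.nil))))))) (Pq.cons (Pq.L [] 0x40000 (Pf.C 129 773))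
 Pq.nil))))))) (Pq.cons (Pq.L [] 256 (Pf.C 119 642))
 (Pq.cons (Pq.L [] 256 (Pf.C 2 642))
 Pq.nil))))))) (Pq.cons (Pq.L [] 128 (Pf.C 119 514))
 (Pq.cons (Pq.L [] 128 (Pf.C 2 514))
 Pq.nil))))))) (Pq.cons (Pq.L [] 64 (Pf.C 2 386))
 (Pq.cons (Pq.L [] 0 (Pf.C 167 386))
 (Pq.cons (Pq.D 3 (Pq.cons (Pq.D 4 (Pq.cons (Pq.D 5 (Pq.cons (Pq.L [0] 0x40018 (Pf.C 0 98945))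
 (Pq.cons (Pq.D 6 (Pq.cons (Pq.L [0] 0x106640 (Pf.C 6 0x60e00182))
 (Pq.cons (Pq.L [] 0x106673 (Pf.C 6 0x20604386))
 (Pq.cons (Pq.L [] 0 (Pf.C 167 898))
 (Pq.cons (Pq.L [0] 0x130680 (Pf.C 6 0x808386))
 (Pq.cons (Pq.L [] 0x106000 (Pf.C 5 0x1c186))
 (Pq.cons (Pq.L [] 0x100000 (Pf.C 2 902))
 Pq.nil))))))) (Pq.cons (Pq.L [] 0 (Pf.C 167 770))
 (Pq.cons (Pq.L [] 0x40000 (Pf.C 3 773))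
 (Pq.cons (Pq.L [0] 0x40300 (Pf.C 0 98946))
 (Pq.cons (Pq.L [] 0x40000 (Pf.C 125 773))
 Pq.nil))))))) (Pq.cons (Pq.L [] 256 (Pf.C 2 642))
 (Pq.cons (Pq.L [] 0 (Pf.C 167 642))
 (Pq.cons (Pq.D 5 (Pq.cons (Pq.L [] 0x40000 (Pf.C 3 773))
 (Pq.cons (Pq.D 6 (Pq.cons (Pq.L [0] 0x106640 (Pf.C 6 0x60e00182))
 (Pq.cons (Pq.L [] 0x106673 (Pf.C 6 0x20604386))
 (Pq.cons (Pq.L [] 0 (Pf.C 167 898))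
 (Pq.cons (Pq.L [0] 0x130680 (Pf.C 6 0x808386))
 (Pq.cons (Pq.L [] 0x106000 (Pf.C 5 0x1c186))
 (Pq.cons (Pq.L [] 0x100000 (Pf.C 2 902))
 Pq.nil))))))) (Pq.cons (Pq.L [] 0 (Pf.C 167 770))
 (Pq.cons (Pq.L [] 0x40000 (Pf.C 3 773))
 (Pq.cons (Pq.D 6 (Pq.cons (Pq.L [0] 0x85540 (Pf.C 6 0x5040c380))
 (Pq.cons (Pq.L [] 0x106000 (Pf.C 5 98695))
 (Pq.cons (Pq.L [] 0 (Pf.C 167 898))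
 (Pq.cons (Pq.L [0] 0x41340 (Pf.W 140 2 [] [0,3,5,6] (Pf.cons (Pf.B 8 5 (Pf.B 8 3 (Pf.C 6 0x5040c008) (Pf.C 3 392)) (Pf.C 3 648)) (Pf.cons (Pf.B 8 6 (Pf.B 8 5 (Pf.C 132 648) (Pf.C 0 0xc08288)) (Pf.C 4 776)) Pf.nil))))
 (Pq.cons (Pq.L [0] 0x100600 (Pf.C 0 0x1c302))
 (Pq.cons (Pq.L [] 0x1c0700 (Pf.C 0 0xe18282))
 Pq.nil))))))) (Pq.cons (Pq.L [] 0x40000 (Pf.C 129 773))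
 Pq.nil))))))) (Pq.cons (Pq.L [] 256 (Pf.C 119 642))
 (Pq.cons (Pq.L [] 256 (Pf.C 2 642))
 Pq.nil))))))) (Pq.cons (Pq.L [] 128 (Pf.C 2 514))
 (Pq.cons (Pq.L [] 0 (Pf.C 167 514))
 (Pq.cons (Pq.D 4 (Pq.cons (Pq.D 5 (Pq.cons (Pq.L [0] 0x40018 (Pf.C 0 98945))
 (Pq.cons (Pq.D 6 (Pq.cons (Pq.L [0] 0x106640 (Pf.C 6 0x60e00182))
 (Pq.cons (Pq.L [] 0x106673 (Pf.C 6 0x20604386))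
 (Pq.cons (Pq.L [] 0 (Pf.C 167 898))
 (Pq.cons (Pq.L [] 0x136ec0 (Pf.C 6 0x4040c386))
 (Pq.cons (Pq.L [0] 0x136836 (Pf.C 1 0x201061c006))
 (Pq.cons (Pq.L [] 0x100000 (Pf.C 2 902))
 Pq.nil))))))) (Pq.cons (Pq.L [] 0 (Pf.C 167 770))
 (Pq.cons (Pq.L [] 0x40000 (Pf.C 3 773))
 (Pq.cons (Pq.L [0] 0x40300 (Pf.C 0 98946))
 (Pq.cons (Pq.L [0] 0x5b800 (Pf.C 6 0x40c0c280))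
 Pq.nil))))))) (Pq.cons (Pq.L [] 256 (Pf.C 2 642))
 (Pq.cons (Pq.L [] 0 (Pf.C 167 642))
 (Pq.cons (Pq.D 5 (Pq.cons (Pq.L [0] 76480 (Pf.C 6 0x4040c300))
 (Pq.cons (Pq.D 6 (Pq.cons (Pq.L [0] 0x106640 (Pf.C 6 0x60e00182))
 (Pq.cons (Pq.L [] 0x106673 (Pf.C 6 0x20604386))
 (Pq.cons (Pq.L [] 0 (Pf.C 167 898))
 (Pq.cons (Pq.L [] 0x136ec0 (Pf.C 6 0x4040c386))
 (Pq.cons (Pq.L [0] 0x136836 (Pf.C 1 0x201061c006))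
 (Pq.cons (Pq.L [] 0x100000 (Pf.C 2 902))
 Pq.nil))))))) (Pq.cons (Pq.L [] 0 (Pf.C 167 770))
 (Pq.cons (Pq.L [] 0x40000 (Pf.C 3 773))
 (Pq.cons (Pq.D 6 (Pq.cons (Pq.L [0] 0x24cc0 (Pf.C 6 0x4040c380))
 (Pq.cons (Pq.L [0] 0x136836 (Pf.C 1 0x2010618007))
 (Pq.cons (Pq.L [] 0 (Pf.C 167 898))
 (Pq.cons (Pq.L [0] 0x48380 (Pf.W 140 2 [] [0,4,5,6] (Pf.cons (Pf.B 8 5 (Pf.B 8 4 (Pf.C 6 0x50410008) (Pf.C 3 520)) (Pf.C 3 648)) (Pf.cons (Pf.B 8 6 (Pf.B 8 5 (Pf.C 132 648) (Pf.C 0 0xc08288)) (Pf.C 4 776)) Pf.nil))))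
 (Pq.cons (Pq.L [0] 0x100600 (Pf.C 0 0x1c302))
 (Pq.cons (Pq.L [] 0x1c0700 (Pf.C 0 0xe18282))
 Pq.nil))))))) (Pq.cons (Pq.L [] 0x40000 (Pf.C 129 773))
 Pq.nil))))))) (Pq.cons (Pq.L [] 256 (Pf.C 119 642))
 (Pq.cons (Pq.L [] 256 (Pf.C 2 642))
 Pq.nil))))))) (Pq.cons (Pq.L [] 128 (Pf.C 119 514))
 (Pq.cons (Pq.L [] 128 (Pf.C 2 514))
 Pq.nil))))))) (Pq.cons (Pq.L [] 64 (Pf.C 119 386))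
 (Pq.cons (Pq.L [] 64 (Pf.C 2 386))
 Pq.nil))))))) (Pq.cons (Pq.D 2 (Pq.cons (Pq.D 3 (Pq.cons (Pq.L [0] 2240 (Pf.C 0 0x800103))
 (Pq.cons (Pq.L [] 0 (Pf.C 167 260))
 (Pq.cons (Pq.L [] 128 (Pf.C 4 514))
 (Pq.cons (Pq.L [] 128 (Pf.C 168 514))
 (Pq.cons (Pq.L [] 128 (Pf.C 4 514))
 (Pq.cons (Pq.L [] 128 (Pf.C 135 514))
 Pq.nil))))))) (Pq.cons (Pq.L [] 0 (Pf.C 167 259))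
 (Pq.cons (Pq.L [] 64 (Pf.C 4 386))
 (Pq.cons (Pq.L [] 64 (Pf.C 168 386))
 (Pq.cons (Pq.L [] 64 (Pf.C 4 386))
 (Pq.cons (Pq.L [] 64 (Pf.C 135 386))
 Pq.nil))))))) (Pq.cons (Pq.D 2 (Pq.cons (Pq.L [] 64 (Pf.C 3 386))
 (Pq.cons (Pq.D 3 (Pq.cons (Pq.L [] 128 (Pf.C 3 514))
 (Pq.cons (Pq.D 4 (Pq.cons (Pq.L [] 256 (Pf.C 3 642))
 (Pq.cons (Pq.D 5 (Pq.cons (Pq.L [0] 76480 (Pf.C 6 0x4040c300))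
 (Pq.cons (Pq.L [] 0x40000 (Pf.C 2 773))
 (Pq.cons (Pq.L [] 0 (Pf.C 167 771))
 (Pq.cons (Pq.D 6 (Pq.cons (Pq.L [0] 0x106640 (Pf.C 6 0x60e00182))
 (Pq.cons (Pq.L [] 0x136ec0 (Pf.C 6 0x4040c386))
 (Pq.cons (Pq.L [] 0 (Pf.C 167 899))
 (Pq.cons (Pq.L [] 0x136ec0 (Pf.C 6 0x4040c386))
 (Pq.cons (Pq.L [0] 0x1c0300 (Pf.W 140 5 [] [0,2,6,7] (Pf.cons (Pf.B 8 6 (Pf.B 8 2 (Pf.C 6 0x60a08008) (Pf.C 3 264)) (Pf.C 3 776)) (Pf.cons (Pf.B 8 7 (Pf.B 8 6 (Pf.C 132 776) (Pf.C 0 0xe14308)) (Pf.C 4 904)) Pf.nil))))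
 (Pq.cons (Pq.L [] 0x100000 (Pf.C 129 902))
 Pq.nil))))))) (Pq.cons (Pq.L [] 0x40000 (Pf.C 119 773))
 (Pq.cons (Pq.L [] 0x40000 (Pf.C 2 773))
 Pq.nil))))))) (Pq.cons (Pq.L [] 256 (Pf.C 168 261))
 (Pq.cons (Pq.L [] 256 (Pf.C 3 642))
 (Pq.cons (Pq.L [] 39360 (Pf.C 0 0x814103))
 (Pq.cons (Pq.L [] 256 (Pf.C 129 642))
 Pq.nil))))))) (Pq.cons (Pq.L [] 128 (Pf.C 168 260))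
 (Pq.cons (Pq.L [] 128 (Pf.C 3 514))
 (Pq.cons (Pq.D 4 (Pq.cons (Pq.L [] 256 (Pf.C 3 642))
 (Pq.cons (Pq.L [] 39360 (Pf.C 0 0xa10103))
 (Pq.cons (Pq.L [] 256 (Pf.C 168 261))
 (Pq.cons (Pq.L [] 256 (Pf.C 3 642))
 (Pq.cons (Pq.L [] 39360 (Pf.C 0 0xa0c104))
 (Pq.cons (Pq.L [] 256 (Pf.C 129 642))
 Pq.nil))))))) (Pq.cons (Pq.L [] 128 (Pf.C 129 514))
 Pq.nil))))))) (Pq.cons (Pq.L [] 64 (Pf.C 168 259))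
 (Pq.cons (Pq.L [] 64 (Pf.C 3 386))
 (Pq.cons (Pq.D 3 (Pq.cons (Pq.L [] 128 (Pf.C 3 514))
 (Pq.cons (Pq.D 4 (Pq.cons (Pq.L [] 256 (Pf.C 3 642))
 (Pq.cons (Pq.L [] 39360 (Pf.C 0 0xa0c104))
 (Pq.cons (Pq.L [] 256 (Pf.C 168 261))
 (Pq.cons (Pq.L [] 256 (Pf.C 3 642))
 (Pq.cons (Pq.L [] 39360 (Pf.C 0 0xa10103))
 (Pq.cons (Pq.L [] 256 (Pf.C 129 642))
 Pq.nil))))))) (Pq.cons (Pq.L [] 128 (Pf.C 168 260))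
 (Pq.cons (Pq.L [] 128 (Pf.C 3 514))
 (Pq.cons (Pq.D 4 (Pq.cons (Pq.L [] 256 (Pf.C 3 642))
 (Pq.cons (Pq.L [] 39360 (Pf.C 0 0x814103))
 (Pq.cons (Pq.L [] 256 (Pf.C 168 261))
 (Pq.cons (Pq.L [] 256 (Pf.C 3 642))
 (Pq.cons (Pq.D 5 (Pq.cons (Pq.L [] 0x40000 (Pf.C 126 646))
 (Pq.cons (Pq.L [] 0x40000 (Pf.C 119 646))
 (Pq.cons (Pq.L [] 0x40000 (Pf.C 4 773))
 (Pq.cons (Pq.D 6 (Pq.cons (Pq.L [] 0x136ec0 (Pf.C 8 0x4040c386))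
 (Pq.cons (Pq.L [0] 0x1c8780 (Pf.W 140 7 [] [0,1,2,3,4,5,6] (Pf.cons (Pf.B 8 6 (Pf.B 8 5 (Pf.B 8 2 (Pf.T 8 9 (Pf.cons (Pf.W 146 2 [] [0,1,3,4,5,6,7,8] (Pf.cons (Pf.B 9 5 (Pf.C 119 649) (Pf.B 9 4 (Pf.C 119 521) (Pf.C 0 0xa08484))) (Pf.cons (Pf.B 9 7 (Pf.C 5 0x24107) (Pf.B 9 5 (Pf.B 9 6 (Pf.B 9 8 (Pf.B 9 4 (Pf.B 9 3 (Pf.B 9 1 (Pf.W 150 9 [] [0,6,7,8] (Pf.cons (Pf.B 10 8 (Pf.B 10 7 (Pf.B 10 6 (Pf.C 6 0x80028386) (Pf.C 3 778)) (Pf.C 0 0x24507)) (Pf.C 3 1034)) Pf.nil)) (Pf.C 135 137)) (Pf.C 4 393)) (Pf.C 4 521)) (Pf.C 8 0x60a08409)) (Pf.C 0 0xa1c309)) (Pf.C 4 649))) Pf.nil))) (Pf.cons (Pf.C 171 904) Pf.nil))) (Pf.C 3 264)) (Pf.C 126 648)) (Pf.C 3 776)) (Pf.cons (Pf.B 8 6 (Pf.C 132 776) (Pf.B 8 5 (Pf.C 0 0xa1c308)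 (Pf.C 4 648))) Pf.nil))))
 (Pq.cons (Pq.L [] 0x136ec0 (Pf.C 8 0x4040c386))
 (Pq.cons (Pq.L [] 0x136ec0 (Pf.C 8 0x4040c386))
 (Pq.cons (Pq.L [] 0x136ec0 (Pf.C 8 0x4040c386))
 (Pq.cons (Pq.L [0] 0x136836 (Pf.C 1 0x2000618087))
 Pq.nil))))))) (Pq.cons (Pq.L [] 0x40000 (Pf.C 4 773))
 (Pq.cons (Pq.D 6 (Pq.cons (Pq.L [] 0x106000 (Pf.C 5 50054))
 (Pq.cons (Pq.L [] 0x1c0700 (Pf.C 0 0xe18282))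
 (Pq.cons (Pq.L [] 0x100000 (Pf.C 135 775))
 (Pq.cons (Pq.L [0] 0x136836 (Pf.C 1 0x200061c086))
 (Pq.cons (Pq.L [] 0x1c033e (Pf.W 143 1 [] [2,3,4,5,6,7] (Pf.cons (Pf.B 8 7 (Pf.B 8 5 (Pf.B 8 6 (Pf.C 7 0x70c14088) (Pf.B 8 4 (Pf.B 8 3 (Pf.B 8 2 (Pf.W 152 8 [] [1,6] (Pf.cons (Pf.B 9 6 (Pf.C 129 777) (Pf.B 9 1 (Pf.C 129 137) (Pf.C 0 0xc20481))) Pf.nil)) (Pf.C 0 0xa18108)) (Pf.C 4 392)) (Pf.C 4 520))) (Pf.C 4 648)) (Pf.C 4 904)) Pf.nil)))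
 (Pq.cons (Pq.L [0] 0x136836 (Pf.C 1 0x200061c301))
 Pq.nil))))))) Pq.nil))))))) (Pq.cons (Pq.L [] 256 (Pf.C 129 642))
 Pq.nil))))))) (Pq.cons (Pq.L [] 128 (Pf.C 129 514))
 Pq.nil))))))) (Pq.cons (Pq.L [] 64 (Pf.C 129 386))
 Pq.nil))))))) (Pq.cons (Pq.D 2 (Pq.cons (Pq.L [] 64 (Pf.C 126 259))
 (Pq.cons (Pq.L [] 64 (Pf.C 119 259))
 (Pq.cons (Pq.L [] 64 (Pf.C 4 386))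
 (Pq.cons (Pq.D 3 (Pq.cons (Pq.L [] 128 (Pf.C 126 260))
 (Pq.cons (Pq.L [] 128 (Pf.C 119 260))
 (Pq.cons (Pq.L [] 128 (Pf.C 4 514))
 (Pq.cons (Pq.D 4 (Pq.cons (Pq.L [] 256 (Pf.C 126 261))
 (Pq.cons (Pq.L [] 256 (Pf.C 119 261))
 (Pq.cons (Pq.L [] 256 (Pf.C 4 642))
 (Pq.cons (Pq.D 5 (Pq.cons (Pq.L [] 0x40000 (Pf.C 3 773))
 (Pq.cons (Pq.D 6 (Pq.cons (Pq.L [0] 0x152bd9 (Pf.W 140 6 [] [0,1,2,3,4,5,7] (Pf.cons (Pf.B 8 5 (Pf.B 8 4 (Pf.B 8 3 (Pf.B 8 2 (Pf.B 8 1 (Pf.C 125 136) (Pf.T 8 9 (Pf.cons (Pf.W 143 1 [] [0,2,3,4,5,6,7,8] (Pf.cons (Pf.B 9 8 (Pf.B 9 7 (Pf.B 9 6 (Pf.C 119 1158) (Pf.B 9 5 (Pf.B 9 2 (Pf.B 9 4 (Pf.B 9 3 (Pf.W 152 9 [] [0,1,2,3,4,5,6,7,8] (Pf.cons (Pf.B 10 8 (Pf.B 10 7 (Pf.B 10 5 (Pf.B 10 6 (Pf.B 10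 4 (Pf.B 10 3 (Pf.B 10 2 (Pf.C 8 0x4040c48a) (Pf.B 10 1 (Pf.C 129 138) (Pf.W 146 10 [] [0,1,2,3,4,5,6,7,8,9] (Pf.cons (Pf.B 11 9 (Pf.C 119 1163) (Pf.B 11 2 (Pf.C 119 267) (Pf.C 0 0x1228582))) (Pf.cons (Pf.B 11 9 (Pf.B 11 6 (Pf.C 5 0x2c506) (Pf.B 11 7 (Pf.B 11 2 (Pf.B 11 8 (Pf.B 11 5 (Pf.B 11 1 (Pf.B 11 4 (Pf.B 11 3 (Pf.W 150 11 [] [0,5,6,8] (Pf.cons (Pf.B 12 8 (Pf.B 12 6 (Pf.B 12 5 (Pf.C 6 0x80030305) (Pf.C 3 652)) (Pf.C 0 0x2c606)) (Pf.C 3 1036)) Pf.nil)) (Pf.W 150 11 [] [0,5,6,8] (Pf.cons (Pf.B 12 8 (Pf.B 12 6 (Pf.B 12 5 (Pf.C 6 0x80030305) (Pf.C 3 652)) (Pf.C 0 0x2c606)) (Pf.C 3 1036)) Pf.nil))) (Pf.B 11 3 (Pf.W 150 11 [] [0,5,6,8] (Pf.cons (Pf.B 12 8 (Pf.B 12 6 (Pf.B 12 5 (Pf.C 6 0x80030305) (Pf.C 3 652))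 (Pf.C 0 0x2c606)) (Pf.C 3 1036)) Pf.nil)) (Pf.C 8 0x4160c509))) (Pf.C 135 139)) (Pf.C 0 0x41828b)) (Pf.C 8 0x9140840b)) (Pf.C 4 267)) (Pf.C 0 0xc1c580))) (Pf.C 4 1163)) Pf.nil))))) (Pf.C 3 394)) (Pf.C 3 522)) (Pf.C 6 0x50c28400)) (Pf.C 3 650)) (Pf.C 3 906)) (Pf.C 3 1034)) Pf.nil)) (Pf.W 146 3 [] [0,1,2,5,6,7,8,9] (Pf.cons (Pf.B 10 9 (Pf.C 119 1162) (Pf.B 10 2 (Pf.C 119 266) (Pf.C 0 0x120c502))) (Pf.cons (Pf.B 10 9 (Pf.B 10 6 (Pf.C 5 0x28186) (Pf.B 10 7 (Pf.B 10 2 (Pf.B 10 8 (Pf.B 10 5 (Pf.B 10 1 (Pf.B 10 4 (Pf.W 150 10 [] [0,5,6,8] (Pf.cons (Pf.B 11 8 (Pf.B 11 6 (Pf.B 11 5 (Pf.C 6 0x8002c305) (Pf.C 3 651)) (Pf.C 0 0x28586)) (Pf.C 3 1035)) Pf.nil)) (Pf.W 150 10 [] [0,5,6,8] (Pf.cons (Pf.B 11 8 (Pf.B 11 6 (Pf.B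 11 5 (Pf.C 6 0x8002c305) (Pf.C 3 651)) (Pf.C 0 0x28586)) (Pf.C 3 1035)) Pf.nil))) (Pf.C 135 138)) (Pf.C 0 0x41828a)) (Pf.C 8 0x9060840a)) (Pf.C 4 266)) (Pf.C 0 0xc1c500))) (Pf.C 4 1162)) Pf.nil)))) (Pf.W 146 4 [] [0,1,2,5,6,7,8,9] (Pf.cons (Pf.B 10 9 (Pf.C 119 1162) (Pf.B 10 2 (Pf.C 119 266) (Pf.C 0 0x1210502))) (Pf.cons (Pf.B 10 9 (Pf.B 10 6 (Pf.C 5 0x28206) (Pf.B 10 7 (Pf.B 10 2 (Pf.B 10 8 (Pf.B 10 5 (Pf.B 10 1 (Pf.B 10 3 (Pf.W 150 10 [] [0,5,6,8] (Pf.cons (Pf.B 11 8 (Pf.B 11 6 (Pf.B 11 5 (Pf.C 6 0x8002c305) (Pf.C 3 651)) (Pf.C 0 0x28586)) (Pf.C 3 1035)) Pf.nil)) (Pf.W 150 10 [] [0,5,6,8] (Pf.cons (Pf.B 11 8 (Pf.B 11 6 (Pf.B 11 5 (Pf.C 6 0x8002c305) (Pf.C 3 651)) (Pf.C 0 0x28586)) (Pf.C 3 1035)) Pf.nil)))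 (Pf.C 135 138)) (Pf.C 0 0x41828a)) (Pf.C 8 0x9080840a)) (Pf.C 4 266)) (Pf.C 0 0xc1c500))) (Pf.C 4 1162)) Pf.nil)))) (Pf.C 4 265)) (Pf.C 0 0xc14481))) (Pf.C 126 1159)) (Pf.C 126 1160)) Pf.nil)) (Pf.cons (Pf.C 171 776) Pf.nil)))) (Pf.C 126 264)) (Pf.C 3 392)) (Pf.C 3 520)) (Pf.C 3 648)) (Pf.cons (Pf.B 8 5 (Pf.C 132 648) (Pf.B 8 2 (Pf.C 0 0x418288) (Pf.C 4 264))) Pf.nil))))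
 (Pq.cons (Pq.L [] 0x136836 (Pf.C 6 0x4020c386))
 (Pq.cons (Pq.L [] 0 (Pf.C 167 902))
 (Pq.cons (Pq.L [0] 0x1c0000 (Pf.W 140 6 [] [0,5,7] (Pf.cons (Pf.B 8 7 (Pf.B 8 5 (Pf.C 6 0x70c14008) (Pf.C 3 648)) (Pf.C 3 904)) (Pf.cons (Pf.B 8 7 (Pf.C 132 904) (Pf.B 8 5 (Pf.C 132 648) (Pf.C 0 0xe18405))) Pf.nil))))
 (Pq.cons (Pq.L [0] 0x136836 (Pf.C 1 0x201061c006))
 (Pq.cons (Pq.L [] 0x1c0700 (Pf.C 0 0xe18282))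
 Pq.nil))))))) (Pq.cons (Pq.L [] 0x40000 (Pf.C 168 646))
 (Pq.cons (Pq.L [] 0x40000 (Pf.C 3 773))
 (Pq.cons (Pq.D 6 (Pq.cons (Pq.L [] 0x136ec0 (Pf.C 8 0x4040c386))
 (Pq.cons (Pq.L [0] 0x136836 (Pf.C 1 0x2010618007))
 (Pq.cons (Pq.L [] 0x136ec0 (Pf.C 8 0x4040c386))
 (Pq.cons (Pq.L [] 0x136ec0 (Pf.C 8 0x4040c386))
 (Pq.cons (Pq.L [] 0x136ec0 (Pf.C 8 0x4040c386))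
 (Pq.cons (Pq.L [] 0x1dbb00 (Pf.W 146 5 [] [1,2,3,4,6,7] (Pf.cons (Pf.B 8 7 (Pf.B 8 6 (Pf.C 119 776) (Pf.C 0 0xe14308)) (Pf.C 2 904)) (Pf.cons (Pf.B 8 7 (Pf.B 8 6 (Pf.B 8 2 (Pf.B 8 1 (Pf.B 8 4 (Pf.B 8 3 (Pf.W 150 8 [] [2,5,6] (Pf.cons (Pf.B 9 6 (Pf.B 9 5 (Pf.B 9 2 (Pf.C 8 0x60a08409) (Pf.C 126 265)) (Pf.C 3 649)) (Pf.C 126 777)) Pf.nil)) (Pf.W 150 8 [] [3,5,6] (Pf.cons (Pf.B 9 6 (Pf.B 9 5 (Pf.B 9 3 (Pf.C 8 0x31024305) (Pf.C 3 393)) (Pf.C 3 649)) (Pf.C 126 777)) Pf.nil))) (Pf.B 8 3 (Pf.W 150 8 [] [4,5,6] (Pf.cons (Pf.B 9 6 (Pf.B 9 5 (Pf.B 9 4 (Pf.C 8 0x41024305) (Pf.C 3 521)) (Pf.C 3 649)) (Pf.C 126 777)) Pf.nil)) (Pf.C 8 0x4100c305))) (Pf.C 135 136)) (Pf.C 4 264)) (Pf.C 4 776)) (Pf.C 135 904)) Pf.nil))))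
 Pq.nil))))))) (Pq.cons (Pq.L [] 0x40000 (Pf.C 129 773))
 Pq.nil))))))) (Pq.cons (Pq.L [] 256 (Pf.C 4 642))
 (Pq.cons (Pq.L [] 39360 (Pf.C 0 0x814103))
 Pq.nil))))))) (Pq.cons (Pq.L [] 128 (Pf.C 4 514))
 (Pq.cons (Pq.D 4 (Pq.cons (Pq.L [] 256 (Pf.C 126 261))
 (Pq.cons (Pq.L [] 256 (Pf.C 119 261))
 (Pq.cons (Pq.L [] 256 (Pf.C 4 642))
 (Pq.cons (Pq.L [] 39360 (Pf.C 0 0xa10103))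
 (Pq.cons (Pq.L [] 256 (Pf.C 4 642))
 (Pq.cons (Pq.L [] 39360 (Pf.C 0 0xa0c104))
 Pq.nil))))))) Pq.nil))))))) (Pq.cons (Pq.L [] 64 (Pf.C 4 386))
 (Pq.cons (Pq.D 3 (Pq.cons (Pq.L [] 128 (Pf.C 126 260))
 (Pq.cons (Pq.L [] 128 (Pf.C 119 260))
 (Pq.cons (Pq.L [] 128 (Pf.C 4 514))
 (Pq.cons (Pq.D 4 (Pq.cons (Pq.L [] 256 (Pf.C 126 261))
 (Pq.cons (Pq.L [] 256 (Pf.C 119 261))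
 (Pq.cons (Pq.L [] 256 (Pf.C 4 642))
 (Pq.cons (Pq.L [] 39360 (Pf.C 0 0xa0c104))
 (Pq.cons (Pq.L [] 256 (Pf.C 4 642))
 (Pq.cons (Pq.L [] 39360 (Pf.C 0 0xa10103))
 Pq.nil))))))) (Pq.cons (Pq.L [] 128 (Pf.C 4 514))
 (Pq.cons (Pq.D 4 (Pq.cons (Pq.L [] 256 (Pf.C 126 261))
 (Pq.cons (Pq.L [] 256 (Pf.C 119 261))
 (Pq.cons (Pq.L [] 256 (Pf.C 4 642))
 (Pq.cons (Pq.L [] 39360 (Pf.C 0 0x814103))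
 (Pq.cons (Pq.L [] 256 (Pf.C 4 642))
 (Pq.cons (Pq.D 5 (Pq.cons (Pq.L [] 0x40000 (Pf.C 125 646))
 (Pq.cons (Pq.L [] 0x40000 (Pf.C 2 773))
 (Pq.cons (Pq.L [] 0x40000 (Pf.C 135 646))
 (Pq.cons (Pq.L [] 0x40000 (Pf.C 129 646))
 (Pq.cons (Pq.D 6 (Pq.cons (Pq.L [0] 0x1c0000 (Pf.C 0 0x1c305))
 (Pq.cons (Pq.L [] 0x100000 (Pf.C 119 775))
 (Pq.cons (Pq.L [] 0x136ef7 (Pf.C 1 0x202061c301))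
 (Pq.cons (Pq.L [] 33152 (Pf.W 152 2 [] [4,5] (Pf.cons (Pf.B 8 5 (Pf.C 129 648) (Pf.B 8 4 (Pf.C 129 520) (Pf.C 0 0xa08404))) Pf.nil)))
 (Pq.cons (Pq.L [] 0x136ef7 (Pf.C 1 0x202061c301))
 (Pq.cons (Pq.L [] 0x136ef7 (Pf.C 1 0x202061c301))
 Pq.nil))))))) (Pq.cons (Pq.L [] 0x40000 (Pf.C 2 773))
 Pq.nil))))))) Pq.nil))))))) Pq.nil))))))) Pq.nil))))))) (Pq.cons (Pq.D 2 (Pq.cons (Pq.L [] 64 (Pf.C 125 259))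
 (Pq.cons (Pq.L [] 64 (Pf.C 2 386))
 (Pq.cons (Pq.L [] 64 (Pf.C 135 259))
 (Pq.cons (Pq.L [] 64 (Pf.C 129 259))
 (Pq.cons (Pq.D 3 (Pq.cons (Pq.L [] 128 (Pf.C 125 260))
 (Pq.cons (Pq.L [] 128 (Pf.C 2 514))
 (Pq.cons (Pq.L [] 128 (Pf.C 135 260))
 (Pq.cons (Pq.L [] 128 (Pf.C 129 260))
 (Pq.cons (Pq.D 4 (Pq.cons (Pq.L [] 256 (Pf.C 125 261))
 (Pq.cons (Pq.L [] 256 (Pf.C 2 642))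
 (Pq.cons (Pq.L [] 256 (Pf.C 135 261))
 (Pq.cons (Pq.L [] 256 (Pf.C 129 261))
 (Pq.cons (Pq.D 5 (Pq.cons (Pq.L [0] 0x40300 (Pf.C 0 98946))
 (Pq.cons (Pq.L [] 0x40000 (Pf.C 119 646))
 (Pq.cons (Pq.L [] 0x40000 (Pf.C 4 773))
 (Pq.cons (Pq.D 6 (Pq.cons (Pq.L [] 0x100631 (Pf.C 0 0x41c301))
 (Pq.cons (Pq.L [] 0x1c0700 (Pf.C 0 0xe18282))
 (Pq.cons (Pq.L [] 0x100000 (Pf.C 168 775))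
 (Pq.cons (Pq.L [] 0x100631 (Pf.C 0 0x41c301))
 (Pq.cons (Pq.L [] 0x40bef (Pf.W 143 1 [] [2,3,4,5,6,7] (Pf.cons (Pf.B 8 7 (Pf.B 8 5 (Pf.B 8 4 (Pf.B 8 3 (Pf.B 8 2 (Pf.C 7 0x4040c088) (Pf.B 8 6 (Pf.W 152 8 [] [1,2] (Pf.cons (Pf.B 9 2 (Pf.C 129 265) (Pf.B 9 1 (Pf.C 129 137) (Pf.C 0 0x420481))) Pf.nil)) (Pf.C 0 0xa08308))) (Pf.C 4 392)) (Pf.C 4 520)) (Pf.C 4 648)) (Pf.C 4 904)) Pf.nil)))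
 (Pq.cons (Pq.L [0] 0x136836 (Pf.C 1 0x2000618087))
 Pq.nil))))))) (Pq.cons (Pq.L [] 0x40000 (Pf.C 4 773))
 (Pq.cons (Pq.D 6 (Pq.cons (Pq.L [] 0x106000 (Pf.C 5 50054))
 (Pq.cons (Pq.L [] 0x100000 (Pf.C 2 902))
 (Pq.cons (Pq.L [] 0x136ef7 (Pf.C 1 0x202061c301))
 (Pq.cons (Pq.L [0] 0x136836 (Pf.C 1 0x200061c086))
 (Pq.cons (Pq.L [] 0x136ef7 (Pf.C 1 0x202061c301))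
 (Pq.cons (Pq.L [0] 0x106673 (Pf.C 1 0x103001c301))
 Pq.nil))))))) Pq.nil))))))) (Pq.cons (Pq.L [] 256 (Pf.C 2 642))
 Pq.nil))))))) (Pq.cons (Pq.L [] 128 (Pf.C 2 514))
 Pq.nil))))))) (Pq.cons (Pq.L [] 64 (Pf.C 2 386))
 Pq.nil))))))) Pq.nil))))))) Pq.nil)
theorem e4_o34 : AllRef e4_T e4_G24 (List.drop 1 (List.drop 1 (List.drop 3 (List.flatMap (splitP 0) (List.drop 1 (applyObl d_T 2 [116,111,114,113,92,77] [0,0,0,0,0,0] [(116,0x20000000000000000000),(111,0x100000000000000000000000),(113,0x20000000000000000000),(92,0x8000000000000000000000000000),(77,0x120000000000000000000000000000)])))))) :=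
  chkPq_sound e4_o34c _ (by decide +kernel)
noncomputable def e4_o35c : Pq := (Pq.cons (Pq.D 0 (Pq.cons (Pq.D 1 (Pq.cons (Pq.L [] 1 (Pf.C 3 257))
 (Pq.cons (Pq.D 2 (Pq.cons (Pq.L [] 2 (Pf.C 3 385))
 (Pq.cons (Pq.L [] 4 (Pf.C 4 386))
 Pq.nil))) Pq.nil))) (Pq.cons (Pq.D 1 (Pq.cons (Pq.D 2 (Pq.cons (Pq.L [0] 7 (Pf.C 0 49409))
 (Pq.cons (Pq.L [] 2 (Pf.C 4 385))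
 Pq.nil))) (Pq.cons (Pq.L [] 1 (Pf.C 4 257))
 Pq.nil))) Pq.nil))) (Pq.cons (Pq.L [] 0x136ef7 (Pf.C 1 0x202061c301))
 Pq.nil))
theorem e4_o35 : AllRef e4_T e4_G24 (applyObl d_T 2 [117,119] [0,0] []) :=
  chkPq_sound e4_o35c _ (by decide +kernel)
noncomputable def e4_o36c : Pq := (Pq.cons (Pq.L [] 0 (Pf.W 178 0 [] [1] (Pf.cons (Pf.B 2 1 (Pf.W 173 2 [] [1] (Pf.cons (Pf.C 167 131) Pf.nil)) (Pf.C 4 130)) Pf.nil)))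
 (Pq.cons (Pq.L [0] 0 (Pf.W 143 1 [] [0] (Pf.cons (Pf.W 152 2 [] [0,1] (Pf.cons (Pf.B 3 1 (Pf.C 129 131) (Pf.W 146 3 [] [0,1,2] (Pf.cons (Pf.B 4 2 (Pf.C 119 260) (Pf.B 4 1 (Pf.C 0 0x20c104) (Pf.C 2 132))) (Pf.cons (Pf.B 4 2 (Pf.B 4 1 (Pf.W 150 4 [] [0,1,2,3] (Pf.cons (Pf.W 178 0 [] [0,1,2,3,4,5] (Pf.cons (Pf.B 6 4 (Pf.B 6 3 (Pf.C 132 390) (Pf.B 6 2 (Pf.B 6 1 (Pf.W 173 6 [] [0,1,2,3,4,5] (Pf.cons (Pf.B 7 2 (Pf.C 119 263) (Pf.B 7 3 (Pf.B 7 4 (Pf.C 5 65927) (Pf.B 7 5 (Pf.B 7 1 (Pf.T 5 9 (Pf.cons (Pf.W 10 98311 [] [4,5] (Pf.cons (Pf.B 8 5 (Pf.C 5 0x20287) (Pf.B 8 4 (Pf.C 0 0x814008) (Pf.C 4 520))) (Pf.cons (Pf.B 8 6 (Pf.C 5 99328) (Pf.T 8 1 (Pf.cons (Pf.W 11 0xa18007 [8] [4] (Pf.cons (Pf.B 9 5 (Pf.C 5 0x24287)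 (Pf.B 9 4 (Pf.C 0 0x814009) (Pf.C 4 521))) (Pf.cons (Pf.B 9 8 (Pf.B 9 6 (Pf.C 5 99456) (Pf.C 0 0x101c309)) (Pf.C 3 1033)) Pf.nil))) (Pf.cons (Pf.C 120 1031) (Pf.cons (Pf.C 120 1031) Pf.nil))))) Pf.nil))) (Pf.cons (Pf.C 171 901) Pf.nil))) (Pf.C 2 135)) (Pf.C 0 66183))) (Pf.C 0 0xc0c382))) Pf.nil)) (Pf.C 133 134)) (Pf.C 4 262))) (Pf.C 4 518)) Pf.nil)) Pf.nil)) (Pf.C 135 132)) (Pf.C 4 260)) Pf.nil)))) Pf.nil)) Pf.nil)))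
 Pq.nil))
theorem e4_o36 : AllRef e4_T e4_G23 (List.map pat1 [114,77]) :=
  chkPq_sound e4_o36c _ (by decide +kernel)
noncomputable def e4_o37c : Pq := (Pq.cons (Pq.L [] 1 (Pf.C 3 257))
 (Pq.cons (Pq.L [0] 3 (Pf.B 3 2 (Pf.W 173 1 [] [0,2,3] (Pf.cons (Pf.B 4 3 (Pf.B 4 2 (Pf.W 9 32772 [] [3] (Pf.cons (Pf.B 5 3 (Pf.C 5 82308) (Pf.B 5 2 (Pf.C 5 82180) (Pf.C 0 0x600282))) (Pf.cons (Pf.B 5 3 (Pf.B 5 2 (Pf.C 6 0x30008205) (Pf.C 3 261)) (Pf.C 3 389)) Pf.nil))) (Pf.W 170 2 [] [0,1,3,4] (Pf.cons (Pf.B 5 4 (Pf.B 5 3 (Pf.B 5 1 (Pf.C 5 16773) (Pf.W 9 32773 [] [3] (Pf.cons (Pf.B 6 3 (Pf.C 5 98693) (Pf.B 6 2 (Pf.C 5 98565) (Pf.C 0 0x600302))) (Pf.cons (Pf.B 6 3 (Pf.B 6 2 (Pf.C 6 0x30008286) (Pf.C 3 262)) (Pf.C 3 390)) Pf.nil))))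 (Pf.W 9 49156 [] [1,2,5] (Pf.cons (Pf.B 6 3 (Pf.C 5 98692) (Pf.B 6 5 (Pf.B 6 2 (Pf.C 5 98565) (Pf.C 0 0x600302)) (Pf.C 0 49925))) (Pf.cons (Pf.B 6 2 (Pf.B 6 1 (Pf.C 5 17152) (Pf.C 0 0x410086)) (Pf.C 3 262)) Pf.nil)))) (Pf.C 2 517)) Pf.nil))) (Pf.B 4 2 (Pf.W 170 3 [] [0,1,2,4] (Pf.cons (Pf.B 5 4 (Pf.B 5 1 (Pf.C 5 16773) (Pf.B 5 2 (Pf.W 9 32773 [] [3,4] (Pf.cons (Pf.B 6 3 (Pf.C 5 98693) (Pf.B 6 4 (Pf.B 6 2 (Pf.C 5 98564) (Pf.C 0 0x600302)) (Pf.C 0 49924))) (Pf.cons (Pf.B 6 3 (Pf.B 6 2 (Pf.C 6 0x30008286) (Pf.C 3 262)) (Pf.C 3 390)) Pf.nil))) (Pf.W 9 32772 [] [1,3,5] (Pf.cons (Pf.B 6 2 (Pf.C 5 98564) (Pf.B 6 5 (Pf.B 6 3 (Pf.C 5 98693) (Pf.C 0 0x400303)) (Pf.C 0 33541))) (Pf.cons (Pf.B 6 2 (Pf.B 6 5 (Pf.C 6 0x414206)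 (Pf.B 6 1 (Pf.C 5 17152) (Pf.C 0 0x414086))) (Pf.C 3 262)) Pf.nil))))) (Pf.C 2 517)) Pf.nil)) (Pf.W 170 2 [] [0,1,3,4] (Pf.cons (Pf.B 5 3 (Pf.B 5 1 (Pf.C 5 16773) (Pf.W 9 32773 [] [3] (Pf.cons (Pf.B 6 3 (Pf.C 5 98693) (Pf.B 6 2 (Pf.C 5 98565) (Pf.C 0 0x600302))) (Pf.cons (Pf.B 6 3 (Pf.B 6 2 (Pf.C 6 0x30008286) (Pf.C 3 262)) (Pf.C 3 390)) Pf.nil)))) (Pf.W 170 3 [] [0,1,2,4,5] (Pf.cons (Pf.B 6 5 (Pf.B 6 4 (Pf.B 6 1 (Pf.C 5 16774) (Pf.B 6 2 (Pf.W 9 32774 [] [3,5] (Pf.cons (Pf.B 7 3 (Pf.C 5 0x1c186) (Pf.B 7 5 (Pf.B 7 2 (Pf.C 5 0x1c105) (Pf.C 0 0x600382)) (Pf.C 0 50053))) (Pf.cons (Pf.B 7 3 (Pf.B 7 2 (Pf.C 6 0x30008307) (Pf.C 3 263)) (Pf.C 3 391)) Pf.nil))) (Pf.C 0 0x804106))) (Pf.C 2 518)) (Pf.C 2 646)) Pf.nil)))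 Pf.nil)))) Pf.nil)) (Pf.C 3 259)))
 (Pq.cons (Pq.L [] 2 (Pf.B 3 2 (Pf.W 170 3 [] [1] (Pf.cons (Pf.B 4 1 (Pf.C 5 16772) (Pf.C 174 513)) Pf.nil)) (Pf.C 3 259)))
 (Pq.cons (Pq.L [0] 3 (Pf.B 3 2 (Pf.W 170 2 [] [0,1,3] (Pf.cons (Pf.B 4 1 (Pf.B 4 3 (Pf.W 9 32772 [] [3] (Pf.cons (Pf.B 5 3 (Pf.C 5 82308) (Pf.B 5 2 (Pf.C 5 82180) (Pf.C 0 0x600282))) (Pf.cons (Pf.B 5 3 (Pf.B 5 2 (Pf.C 6 0x30008205) (Pf.C 3 261)) (Pf.C 3 389)) Pf.nil))) (Pf.W 9 49153 [] [2,4] (Pf.cons (Pf.B 5 3 (Pf.C 5 82305) (Pf.B 5 4 (Pf.B 5 2 (Pf.C 5 82180) (Pf.C 0 0x600282)) (Pf.C 0 49796))) (Pf.cons (Pf.B 5 3 (Pf.B 5 4 (Pf.C 6 0x610085) (Pf.B 5 2 (Pf.T 5 1 (Pf.cons (Pf.W 178 0 [] [0,1,2,3,4,5] (Pf.cons (Pf.B 6 5 (Pf.C 132 646) (Pf.B 6 4 (Pf.B 6 2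 (Pf.C 5 98564) (Pf.B 6 1 (Pf.B 6 3 (Pf.C 5 98689) (Pf.W 173 6 [] [0,1,2,3,4,5] (Pf.cons (Pf.B 7 4 (Pf.B 7 1 (Pf.B 7 5 (Pf.B 7 3 (Pf.B 7 2 (Pf.W 9 32775 [] [3,4,6] (Pf.cons (Pf.B 8 6 (Pf.B 8 4 (Pf.B 8 3 (Pf.C 5 0x20187) (Pf.B 8 2 (Pf.C 5 0x20104) (Pf.C 0 0x600402))) (Pf.C 7 0x1010386)) (Pf.C 4 776)) (Pf.cons (Pf.B 8 3 (Pf.B 8 2 (Pf.C 6 0x30008388) (Pf.C 3 264)) (Pf.C 3 392)) Pf.nil))) (Pf.C 6 0x5080c107)) (Pf.C 6 0x61c281)) (Pf.B 7 3 (Pf.C 6 0x10a1c003) (Pf.C 0 0xa18383))) (Pf.C 2 135)) (Pf.C 2 519)) Pf.nil))) (Pf.C 0 0xa04302))) (Pf.B 6 3 (Pf.B 6 1 (Pf.C 5 98689) (Pf.C 0 0x814301)) (Pf.C 0 0xa10303)))) Pf.nil)) (Pf.cons (Pf.C 120 641) (Pf.cons (Pf.C 120 641) Pf.nil)))) (Pf.C 3 261))) (Pf.C 3 389)) Pf.nil))))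 (Pf.C 2 132)) Pf.nil)) (Pf.C 3 259)))
 (Pq.cons (Pq.L [] 1 (Pf.C 3 257))
 (Pq.cons (Pq.L [] 1 (Pf.C 126 130))
 Pq.nil))))))
theorem e4_o37 : AllRef e4_T e4_G25 (splitObl [116] [117,118,119,111,113,92]) :=
  chkPq_sound e4_o37c _ (by decide +kernel)
noncomputable def e4_o38c : Pq := (Pq.cons (Pq.L [] 1 (Pf.C 3 257))
 Pq.nil)
theorem e4_o38 : AllRef e4_T e4_G25 (applyObl TD2 1 [116] [0] []) :=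
  chkPq_sound e4_o38c _ (by decide +kernel)
noncomputable def e4_o39c : Pq := (Pq.cons (Pq.L [] 2 (Pf.C 3 385))
 (Pq.cons (Pq.L [] 4 (Pf.C 171 386))
 (Pq.cons (Pq.L [] 2 (Pf.C 3 385))
 (Pq.cons (Pq.L [] 2 (Pf.C 126 385))
 (Pq.cons (Pq.L [] 2 (Pf.C 4 385))
 (Pq.cons (Pq.L [] 2 (Pf.C 4 385))
 (Pq.cons (Pq.L [] 4 (Pf.C 132 386))
 (Pq.cons (Pq.L [] 2 (Pf.C 4 385))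
 (Pq.cons (Pq.L [] 2 (Pf.C 4 385))
 (Pq.cons (Pq.L [] 2 (Pf.C 4 385))
 (Pq.cons (Pq.L [] 2 (Pf.C 174 385))
 (Pq.cons (Pq.L [] 4 (Pf.C 132 386))
 (Pq.cons (Pq.L [] 2 (Pf.C 4 385))
 (Pq.cons (Pq.L [] 4 (Pf.C 171 259))
 (Pq.cons (Pq.L [] 2 (Pf.C 174 131))
 (Pq.cons (Pq.L [] 2 (Pf.C 2 385))
 (Pq.cons (Pq.L [] 4 (Pf.C 119 386))
 (Pq.cons (Pq.L [] 2 (Pf.C 3 385))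
 (Pq.cons (Pq.L [] 4 (Pf.C 132 259))
 (Pq.cons (Pq.L [] 4 (Pf.C 132 259))
 (Pq.cons (Pq.L [] 2 (Pf.C 3 385))
 (Pq.cons (Pq.L [] 2 (Pf.C 126 131))
 (Pq.cons (Pq.L [] 2 (Pf.C 4 385))
 (Pq.cons (Pq.L [] 2 (Pf.C 4 385))
 (Pq.cons (Pq.L [] 4 (Pf.C 119 259))
 (Pq.cons (Pq.L [] 2 (Pf.C 4 385))
 Pq.nil))))))))))))))))))))))))))
theorem e4_o39 : AllRef e4_T e4_G25 (twinObl [117,118,119,111,113,92] 0 [6,9,1,18,40,16]) :=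
  chkPq_sound e4_o39c _ (by decide +kernel)
noncomputable def e4_o40c : Pq := (Pq.cons (Pq.L [] 1 (Pf.C 3 257))
 (Pq.cons (Pq.L [] 1 (Pf.C 171 257))
 (Pq.cons (Pq.L [] 1 (Pf.C 3 257))
 (Pq.cons (Pq.L [] 1 (Pf.C 126 257))
 (Pq.cons (Pq.L [] 1 (Pf.C 4 257))
 (Pq.cons (Pq.L [] 1 (Pf.C 4 257))
 (Pq.cons (Pq.L [] 1 (Pf.C 132 257))
 (Pq.cons (Pq.L [] 1 (Pf.C 4 257))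
 (Pq.cons (Pq.L [] 1 (Pf.C 4 257))
 (Pq.cons (Pq.L [] 1 (Pf.C 4 257))
 (Pq.cons (Pq.L [] 1 (Pf.C 174 257))
 (Pq.cons (Pq.L [] 1 (Pf.C 132 257))
 (Pq.cons (Pq.L [] 1 (Pf.C 4 257))
 (Pq.cons (Pq.L [] 1 (Pf.C 171 130))
 (Pq.cons (Pq.L [] 1 (Pf.C 174 130))
 (Pq.cons (Pq.L [] 1 (Pf.C 2 257))
 (Pq.cons (Pq.L [] 1 (Pf.C 119 257))
 (Pq.cons (Pq.L [] 1 (Pf.C 3 257))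
 (Pq.cons (Pq.L [] 1 (Pf.C 132 130))
 (Pq.cons (Pq.L [] 1 (Pf.C 132 130))
 (Pq.cons (Pq.L [] 1 (Pf.C 3 257))
 (Pq.cons (Pq.L [] 1 (Pf.C 126 130))
 (Pq.cons (Pq.L [] 1 (Pf.C 4 257))
 (Pq.cons (Pq.L [] 1 (Pf.C 4 257))
 (Pq.cons (Pq.L [] 1 (Pf.C 119 130))
 (Pq.cons (Pq.L [] 1 (Pf.C 4 257))
 (Pq.cons (Pq.L [] 1 (Pf.C 3 257))
 (Pq.cons (Pq.L [] 1 (Pf.C 171 257))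
 (Pq.cons (Pq.L [] 1 (Pf.C 3 257))
 (Pq.cons (Pq.L [] 1 (Pf.C 126 257))
 (Pq.cons (Pq.L [] 1 (Pf.C 4 257))
 (Pq.cons (Pq.L [] 1 (Pf.C 4 257))
 (Pq.cons (Pq.L [] 1 (Pf.C 132 257))
 (Pq.cons (Pq.L [] 1 (Pf.C 4 257))
 (Pq.cons (Pq.L [] 1 (Pf.C 4 257))
 (Pq.cons (Pq.L [] 1 (Pf.C 4 257))
 (Pq.cons (Pq.L [] 1 (Pf.C 174 257))
 (Pq.cons (Pq.L [] 1 (Pf.C 132 257))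
 (Pq.cons (Pq.L [] 1 (Pf.C 4 257))
 (Pq.cons (Pq.L [] 1 (Pf.C 171 130))
 (Pq.cons (Pq.L [] 1 (Pf.C 174 130))
 (Pq.cons (Pq.L [] 1 (Pf.C 2 257))
 (Pq.cons (Pq.L [] 1 (Pf.C 119 257))
 (Pq.cons (Pq.L [] 1 (Pf.C 3 257))
 (Pq.cons (Pq.L [] 1 (Pf.C 132 130))
 (Pq.cons (Pq.L [] 1 (Pf.C 132 130))
 (Pq.cons (Pq.L [] 1 (Pf.C 3 257))
 (Pq.cons (Pq.L [] 1 (Pf.C 126 130))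
 (Pq.cons (Pq.L [] 1 (Pf.C 4 257))
 (Pq.cons (Pq.L [] 1 (Pf.C 4 257))
 (Pq.cons (Pq.L [] 1 (Pf.C 119 130))
 (Pq.cons (Pq.L [] 1 (Pf.C 4 257))
 Pq.nil))))))))))))))))))))))))))))))))))))))))))))))))))))
theorem e4_o40 : AllRef e4_T e4_G26 (blockObl [120,121,122,123,124,125] [12,16,16,33,6,8] [6,9,1,18,40,16] [6,9,1,18,40,16]) :=
  chkPq_sound e4_o40c _ (by decide +kernel)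
noncomputable def e4_o41c : Pq := Pq.nil
theorem e4_o41 : AllRef e4_T e4_G27 (extObl 132 [] []) :=
  chkPq_sound e4_o41c _ (by decide +kernel)
noncomputable def e4_o42c : Pq := Pq.nil
theorem e4_o42 : AllRef e4_T e4_G28 (extObl 126 [] []) :=
  chkPq_sound e4_o42c _ (by decide +kernel)
noncomputable def e4_o43c : Pq := (Pq.cons (Pq.D 0 (Pq.cons (Pq.D 1 (Pq.cons (Pq.L [] 1 (Pf.C 4 257))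
 (Pq.cons (Pq.D 2 (Pq.cons (Pq.L [] 2 (Pf.C 4 385))
 (Pq.cons (Pq.L [] 4 (Pf.C 2 386))
 (Pq.cons (Pq.L [] 2 (Pf.C 132 385))
 (Pq.cons (Pq.L [] 2 (Pf.C 4 385))
 Pq.nil))))) (Pq.cons (Pq.L [] 1 (Pf.C 132 257))
 (Pq.cons (Pq.L [] 1 (Pf.C 4 257))
 Pq.nil))))) (Pq.cons (Pq.D 1 (Pq.cons (Pq.D 2 (Pq.cons (Pq.L [] 4 (Pf.C 4 386))
 (Pq.cons (Pq.L [] 2 (Pf.C 2 385))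
 (Pq.cons (Pq.L [] 4 (Pf.C 132 386))
 (Pq.cons (Pq.L [] 2 (Pf.C 119 385))
 Pq.nil))))) (Pq.cons (Pq.L [] 1 (Pf.C 2 257))
 (Pq.cons (Pq.D 2 (Pq.cons (Pq.L [] 4 (Pf.C 132 259))
 (Pq.cons (Pq.L [] 2 (Pf.C 2 385))
 (Pq.cons (Pq.L [] 4 (Pf.C 3 386))
 (Pq.cons (Pq.L [] 2 (Pf.C 119 385))
 Pq.nil))))) (Pq.cons (Pq.L [] 1 (Pf.C 119 257))
 Pq.nil))))) (Pq.cons (Pq.D 1 (Pq.cons (Pq.L [] 1 (Pf.C 132 130))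
 (Pq.cons (Pq.D 2 (Pq.cons (Pq.L [] 2 (Pf.C 132 131))
 (Pq.cons (Pq.L [] 4 (Pf.C 2 386))
 (Pq.cons (Pq.L [] 2 (Pf.C 3 385))
 (Pq.cons (Pq.L [] 4 (Pf.C 119 386))
 Pq.nil))))) (Pq.cons (Pq.L [] 1 (Pf.C 3 257))
 (Pq.cons (Pq.D 2 (Pq.cons (Pq.L [] 2 (Pf.C 132 131))
 (Pq.cons (Pq.L [] 4 (Pf.C 119 259))
 (Pq.cons (Pq.L [] 2 (Pf.C 3 385))
 (Pq.cons (Pq.L [0] 7 (Pf.C 0 49409))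
 Pq.nil))))) Pq.nil))))) (Pq.cons (Pq.D 1 (Pq.cons (Pq.L [] 1 (Pf.C 4 257))
 (Pq.cons (Pq.L [] 1 (Pf.C 119 130))
 (Pq.cons (Pq.D 2 (Pq.cons (Pq.L [] 2 (Pf.C 4 385))
 (Pq.cons (Pq.L [] 2 (Pf.C 119 131))
 (Pq.cons (Pq.L [] 4 (Pf.C 3 386))
 (Pq.cons (Pq.L [] 2 (Pf.C 4 385))
 Pq.nil))))) (Pq.cons (Pq.L [] 1 (Pf.C 4 257))
 Pq.nil))))) Pq.nil))))) Pq.nil)
theorem e4_o43 : AllRef e4_T e4_G30 (List.take 1 (applyObl d_T 2 [129,135,138,141] [0,0,0,0] [(129,0x40000000000000000000000000000000000),(135,0x200000000000000000000000000000000000),(138,0x200000000000000000000000000000000),(141,0x8000000000000000000000000000000000)])) :=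
  chkPq_sound e4_o43c _ (by decide +kernel)
noncomputable def e4_o44c : Pq := (Pq.cons (Pq.D 1 (Pq.cons (Pq.D 2 (Pq.cons (Pq.L [] 64 (Pf.C 4 386))
 (Pq.cons (Pq.D 3 (Pq.cons (Pq.L [] 128 (Pf.C 4 514))
 (Pq.cons (Pq.D 4 (Pq.cons (Pq.L [] 256 (Pf.C 4 642))
 (Pq.cons (Pq.D 5 (Pq.cons (Pq.D 6 (Pq.cons (Pq.L [] 0x136ef7 (Pf.C 1 0x202061c301))
 (Pq.cons (Pq.L [] 0x136ef7 (Pf.C 1 0x202061c301))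
 (Pq.cons (Pq.L [] 0x106000 (Pf.C 5 99203))
 (Pq.cons (Pq.L [] 0x100000 (Pf.C 4 902))
 Pq.nil))))) (Pq.cons (Pq.L [] 0x40000 (Pf.C 2 773))
 (Pq.cons (Pq.D 6 (Pq.cons (Pq.L [] 0x106000 (Pf.C 5 0x1c303))
 (Pq.cons (Pq.L [0] 0x1c7740 (Pf.W 140 7 [] [0,2,3,5,6] (Pf.cons (Pf.B 8 6 (Pf.B 8 5 (Pf.C 6 0x70c14008) (Pf.B 8 2 (Pf.C 5 33799) (Pf.C 0 0xc14108))) (Pf.C 3 776)) (Pf.cons (Pf.B 8 6 (Pf.C 132 776) (Pf.B 8 5 (Pf.B 8 2 (Pf.B 8 3 (Pf.C 7 0x5040c388) (Pf.T 8 10 (Pf.cons (Pf.W 10 32771 [] [5,6,7,8] (Pf.cons (Pf.B 9 8 (Pf.B 9 7 (Pf.C 7 0x3101c009) (Pf.B 9 6 (Pf.C 5 0x24303) (Pf.C 0 0x101c309))) (Pf.C 4 1033)) (Pf.cons (Pf.B 9 8 (Pf.C 5 0x20480) (Pf.B 9 7 (Pf.B 9 6 (Pf.B 9 5 (Pf.C 6 0x70c14189) (Pf.B 9 2 (Pf.C 5 33920)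 (Pf.C 0 0xc14109))) (Pf.C 3 777)) (Pf.C 0 0x620487))) Pf.nil))) (Pf.cons (Pf.C 174 392) Pf.nil)))) (Pf.C 4 264)) (Pf.C 0 0xe18405))) Pf.nil))))
 (Pq.cons (Pq.L [] 0x100631 (Pf.C 0 0x41c301))
 (Pq.cons (Pq.L [] 0x1c0700 (Pf.C 0 0xe18282))
 Pq.nil))))) (Pq.cons (Pq.L [] 0x40000 (Pf.C 119 773))
 Pq.nil))))) (Pq.cons (Pq.L [0] 39375 (Pf.C 1 0x2020614080))
 (Pq.cons (Pq.L [] 256 (Pf.C 4 642))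
 Pq.nil))))) (Pq.cons (Pq.L [] 128 (Pf.C 132 514))
 (Pq.cons (Pq.L [] 128 (Pf.C 4 514))
 Pq.nil))))) (Pq.cons (Pq.L [] 64 (Pf.C 132 386))
 (Pq.cons (Pq.L [] 64 (Pf.C 4 386))
 Pq.nil))))) (Pq.cons (Pq.D 2 (Pq.cons (Pq.D 3 (Pq.cons (Pq.D 4 (Pq.cons (Pq.D 5 (Pq.cons (Pq.L [] 0x40000 (Pf.C 4 773))
 (Pq.cons (Pq.D 6 (Pq.cons (Pq.L [] 0x136ef7 (Pf.C 1 0x202061c301))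
 (Pq.cons (Pq.L [] 0x136ef7 (Pf.C 1 0x202061c301))
 (Pq.cons (Pq.L [0] 0x1c87c0 (Pf.W 10 49154 [] [4,5,6,7] (Pf.cons (Pf.B 8 7 (Pf.C 5 0x20382) (Pf.B 8 5 (Pf.B 8 6 (Pf.C 7 0x20a18008) (Pf.C 0 0xa1c308)) (Pf.C 4 648))) (Pf.cons (Pf.B 8 5 (Pf.C 5 82944) (Pf.B 8 4 (Pf.C 5 66560) (Pf.C 0 0xa08404))) Pf.nil))))
 (Pq.cons (Pq.L [] 0x100000 (Pf.C 119 902))
 Pq.nil))))) (Pq.cons (Pq.L [] 0x40000 (Pf.C 132 773))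
 (Pq.cons (Pq.L [] 0x40000 (Pf.C 4 773))
 Pq.nil))))) (Pq.cons (Pq.L [] 256 (Pf.C 2 642))
 (Pq.cons (Pq.L [] 39360 (Pf.C 0 0x814103))
 (Pq.cons (Pq.L [0] 39375 (Pf.C 1 0x2020614001))
 Pq.nil))))) (Pq.cons (Pq.L [] 128 (Pf.C 2 514))
 (Pq.cons (Pq.D 4 (Pq.cons (Pq.L [] 39360 (Pf.C 0 0xa10103))
 (Pq.cons (Pq.L [] 256 (Pf.C 2 642))
 (Pq.cons (Pq.L [] 39360 (Pf.C 0 0xa0c104))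
 (Pq.cons (Pq.L [] 256 (Pf.C 119 642))
 Pq.nil))))) (Pq.cons (Pq.L [] 128 (Pf.C 119 514))
 Pq.nil))))) (Pq.cons (Pq.L [] 64 (Pf.C 2 386))
 (Pq.cons (Pq.D 3 (Pq.cons (Pq.D 4 (Pq.cons (Pq.L [] 39360 (Pf.C 0 0xa0c104))
 (Pq.cons (Pq.L [] 256 (Pf.C 2 642))
 (Pq.cons (Pq.L [] 39360 (Pf.C 0 0xa10103))
 (Pq.cons (Pq.L [] 256 (Pf.C 119 642))
 Pq.nil))))) (Pq.cons (Pq.L [] 128 (Pf.C 2 514))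
 (Pq.cons (Pq.D 4 (Pq.cons (Pq.L [] 39360 (Pf.C 0 0x814103))
 (Pq.cons (Pq.L [] 256 (Pf.C 2 642))
 (Pq.cons (Pq.D 5 (Pq.cons (Pq.L [] 0x40000 (Pf.C 132 646))
 (Pq.cons (Pq.D 6 (Pq.cons (Pq.L [0] 0x1c8780 (Pf.W 140 2 [] [0,4,5,6,7] (Pf.cons (Pf.B 8 7 (Pf.C 5 0x1c402) (Pf.B 8 5 (Pf.B 8 6 (Pf.C 6 0x20a18008) (Pf.C 0 0xa1c308)) (Pf.C 3 648))) (Pf.cons (Pf.B 8 5 (Pf.C 132 648) (Pf.B 8 4 (Pf.C 132 520) (Pf.C 0 0xa08404))) Pf.nil))))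
 (Pq.cons (Pq.L [0] 0x106673 (Pf.C 1 0x103021c300))
 (Pq.cons (Pq.L [] 0x136ec0 (Pf.C 6 0x4040c386))
 (Pq.cons (Pq.L [0] 0x136836 (Pf.C 1 0x201061c006))
 Pq.nil))))) (Pq.cons (Pq.L [] 0x40000 (Pf.C 3 773))
 (Pq.cons (Pq.D 6 (Pq.cons (Pq.L [] 0x1c0700 (Pf.C 0 0xe18282))
 (Pq.cons (Pq.L [0] 0x136836 (Pf.C 1 0x2010618007))
 (Pq.cons (Pq.L [0] 0x48380 (Pf.W 140 2 [] [0,4,5,6] (Pf.cons (Pf.B 8 5 (Pf.B 8 4 (Pf.C 6 0x50410008) (Pf.C 3 520)) (Pf.C 3 648)) (Pf.cons (Pf.B 8 6 (Pf.B 8 5 (Pf.C 132 648) (Pf.C 0 0xc08288)) (Pf.C 4 776)) Pf.nil))))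
 (Pq.cons (Pq.L [] 0x136836 (Pf.C 8 0x4020c386))
 Pq.nil))))) Pq.nil))))) (Pq.cons (Pq.L [] 256 (Pf.C 119 642))
 Pq.nil))))) (Pq.cons (Pq.L [] 128 (Pf.C 119 514))
 Pq.nil))))) (Pq.cons (Pq.L [] 64 (Pf.C 119 386))
 Pq.nil))))) (Pq.cons (Pq.D 2 (Pq.cons (Pq.L [] 64 (Pf.C 132 259))
 (Pq.cons (Pq.D 3 (Pq.cons (Pq.L [] 128 (Pf.C 132 260))
 (Pq.cons (Pq.D 4 (Pq.cons (Pq.L [] 256 (Pf.C 132 261))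
 (Pq.cons (Pq.D 5 (Pq.cons (Pq.D 6 (Pq.cons (Pq.L [] 0x1c0700 (Pf.C 0 0xe18105))
 (Pq.cons (Pq.L [0] 0x1c7340 (Pf.W 140 3 [] [0,2,5,6,7] (Pf.cons (Pf.B 8 6 (Pf.C 5 99331) (Pf.B 8 2 (Pf.B 8 5 (Pf.C 6 0x30414008) (Pf.C 0 0x418288)) (Pf.C 3 264))) (Pf.cons (Pf.B 8 6 (Pf.B 8 2 (Pf.C 132 264) (Pf.B 8 5 (Pf.B 8 7 (Pf.C 7 0x50c1c188) (Pf.T 8 10 (Pf.cons (Pf.W 10 98311 [] [8] (Pf.cons (Pf.B 9 8 (Pf.B 9 6 (Pf.C 7 0x80e18009) (Pf.C 4 777)) (Pf.C 4 1033)) (Pf.cons (Pf.B 9 8 (Pf.C 5 0x20480) (Pf.B 9 6 (Pf.C 5 99456) (Pf.C 0 0x101c486))) Pf.nil))) (Pf.cons (Pf.C 174 392) Pf.nil)))) (Pf.C 0 0xc08288))) (Pf.C 4 776)) Pf.nil))))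
 (Pq.cons (Pq.L [] 0x106000 (Pf.C 5 99203))
 (Pq.cons (Pq.L [] 0x1c0700 (Pf.C 0 0xe18282))
 Pq.nil))))) (Pq.cons (Pq.L [] 0x40000 (Pf.C 2 773))
 (Pq.cons (Pq.D 6 (Pq.cons (Pq.L [] 0x106000 (Pf.C 5 0x1c303))
 (Pq.cons (Pq.L [] 0x136ec0 (Pf.C 6 0x4040c386))
 (Pq.cons (Pq.L [] 0x136ec0 (Pf.C 6 0x4040c386))
 (Pq.cons (Pq.L [0] 0x1c0300 (Pf.W 140 5 [] [0,2,6,7] (Pf.cons (Pf.B 8 6 (Pf.B 8 2 (Pf.C 6 0x60a08008) (Pf.C 3 264)) (Pf.C 3 776)) (Pf.cons (Pf.B 8 7 (Pf.B 8 6 (Pf.C 132 776) (Pf.C 0 0xe14308)) (Pf.C 4 904)) Pf.nil))))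
 Pq.nil))))) (Pq.cons (Pq.L [] 0x40000 (Pf.C 119 773))
 Pq.nil))))) (Pq.cons (Pq.L [] 256 (Pf.C 3 642))
 (Pq.cons (Pq.L [] 39360 (Pf.C 0 0x814103))
 Pq.nil))))) (Pq.cons (Pq.L [] 128 (Pf.C 3 514))
 (Pq.cons (Pq.D 4 (Pq.cons (Pq.L [] 256 (Pf.C 132 261))
 (Pq.cons (Pq.L [] 39360 (Pf.C 0 0xa10103))
 (Pq.cons (Pq.L [] 256 (Pf.C 3 642))
 (Pq.cons (Pq.L [] 39360 (Pf.C 0 0xa0c104))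
 Pq.nil))))) Pq.nil))))) (Pq.cons (Pq.L [] 64 (Pf.C 3 386))
 (Pq.cons (Pq.D 3 (Pq.cons (Pq.L [] 128 (Pf.C 132 260))
 (Pq.cons (Pq.D 4 (Pq.cons (Pq.L [] 256 (Pf.C 132 261))
 (Pq.cons (Pq.L [] 39360 (Pf.C 0 0xa0c104))
 (Pq.cons (Pq.L [] 256 (Pf.C 3 642))
 (Pq.cons (Pq.L [] 39360 (Pf.C 0 0xa10103))
 Pq.nil))))) (Pq.cons (Pq.L [] 128 (Pf.C 3 514))
 (Pq.cons (Pq.D 4 (Pq.cons (Pq.L [] 256 (Pf.C 132 261))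
 (Pq.cons (Pq.L [] 39360 (Pf.C 0 0x814103))
 (Pq.cons (Pq.L [] 256 (Pf.C 3 642))
 (Pq.cons (Pq.D 5 (Pq.cons (Pq.L [] 0x40000 (Pf.C 4 773))
 (Pq.cons (Pq.L [] 0x40000 (Pf.C 119 646))
 (Pq.cons (Pq.D 6 (Pq.cons (Pq.L [0] 0x136836 (Pf.C 1 0x2000618087))
 (Pq.cons (Pq.L [0] 0x1c87a0 (Pf.W 140 7 [] [0,1,2,3,4,5,6] (Pf.cons (Pf.B 8 6 (Pf.B 8 5 (Pf.B 8 2 (Pf.T 8 9 (Pf.cons (Pf.W 146 2 [] [0,1,3,4,5,6,7,8] (Pf.cons (Pf.B 9 5 (Pf.C 119 649) (Pf.B 9 4 (Pf.C 119 521) (Pf.C 0 0xa08484))) (Pf.cons (Pf.B 9 7 (Pf.C 5 0x24107) (Pf.B 9 5 (Pf.B 9 6 (Pf.B 9 8 (Pf.B 9 4 (Pf.B 9 3 (Pf.B 9 1 (Pf.W 150 9 [] [0,6,7,8] (Pf.cons (Pf.B 10 8 (Pf.B 10 7 (Pf.B 10 6 (Pf.C 6 0x80028386) (Pf.C 3 778)) (Pf.C 0 0x24507)) (Pf.C 3 1034)) Pf.nil))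 (Pf.C 4 137)) (Pf.C 4 393)) (Pf.C 4 521)) (Pf.C 8 0x60a08409)) (Pf.C 0 0xa1c309)) (Pf.C 4 649))) Pf.nil))) (Pf.cons (Pf.C 171 904) Pf.nil))) (Pf.C 3 264)) (Pf.C 126 648)) (Pf.C 3 776)) (Pf.cons (Pf.B 8 6 (Pf.C 132 776) (Pf.B 8 5 (Pf.C 0 0xa1c308) (Pf.C 4 648))) Pf.nil))))
 (Pq.cons (Pq.L [] 0x136ec0 (Pf.C 8 0x4040c386))
 (Pq.cons (Pq.L [] 0x136ec0 (Pf.C 8 0x4040c386))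
 Pq.nil))))) (Pq.cons (Pq.L [] 0x40000 (Pf.C 4 773))
 Pq.nil))))) Pq.nil))))) Pq.nil))))) Pq.nil))))) (Pq.cons (Pq.D 2 (Pq.cons (Pq.L [] 64 (Pf.C 4 386))
 (Pq.cons (Pq.L [] 64 (Pf.C 119 259))
 (Pq.cons (Pq.D 3 (Pq.cons (Pq.L [] 128 (Pf.C 4 514))
 (Pq.cons (Pq.L [] 128 (Pf.C 119 260))
 (Pq.cons (Pq.D 4 (Pq.cons (Pq.L [] 256 (Pf.C 4 642))
 (Pq.cons (Pq.L [] 256 (Pf.C 119 261))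
 (Pq.cons (Pq.D 5 (Pq.cons (Pq.L [] 0x40000 (Pf.C 132 646))
 (Pq.cons (Pq.D 6 (Pq.cons (Pq.L [] 0x1c0700 (Pf.C 0 0xe18282))
 (Pq.cons (Pq.L [0] 0x136836 (Pf.C 1 0x201061c300))
 (Pq.cons (Pq.L [0] 0x1c0000 (Pf.W 140 6 [] [0,5,7] (Pf.cons (Pf.B 8 7 (Pf.B 8 5 (Pf.C 6 0x70c14008) (Pf.C 3 648)) (Pf.C 3 904)) (Pf.cons (Pf.B 8 7 (Pf.C 132 904) (Pf.B 8 5 (Pf.C 132 648) (Pf.C 0 0xe18405))) Pf.nil))))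
 (Pq.cons (Pq.L [0] 0x136836 (Pf.C 1 0x201061c006))
 Pq.nil))))) (Pq.cons (Pq.L [] 0x40000 (Pf.C 3 773))
 (Pq.cons (Pq.D 6 (Pq.cons (Pq.L [] 0x100000 (Pf.C 4 902))
 (Pq.cons (Pq.L [0] 0x136836 (Pf.C 1 0x2010618007))
 (Pq.cons (Pq.L [] 0x136ec0 (Pf.C 8 0x4040c386))
 (Pq.cons (Pq.L [] 0x106673 (Pf.C 8 0x20604386))
 Pq.nil))))) Pq.nil))))) (Pq.cons (Pq.L [] 256 (Pf.C 4 642))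
 Pq.nil))))) (Pq.cons (Pq.L [] 128 (Pf.C 4 514))
 Pq.nil))))) (Pq.cons (Pq.L [] 64 (Pf.C 4 386))
 Pq.nil))))) Pq.nil))))) Pq.nil)
theorem e4_o44 : AllRef e4_T e4_G30 (List.take 1 (List.flatMap (splitP 0) (List.drop 1 (applyObl d_T 2 [129,135,138,141] [0,0,0,0] [(129,0x40000000000000000000000000000000000),(135,0x200000000000000000000000000000000000),(138,0x200000000000000000000000000000000),(141,0x8000000000000000000000000000000000)])))) :=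
  chkPq_sound e4_o44c _ (by decide +kernel)
noncomputable def e4_o45c : Pq := (Pq.cons (Pq.D 1 (Pq.cons (Pq.D 2 (Pq.cons (Pq.L [] 64 (Pf.C 4 386))
 (Pq.cons (Pq.D 3 (Pq.cons (Pq.L [] 128 (Pf.C 4 514))
 (Pq.cons (Pq.D 4 (Pq.cons (Pq.L [] 256 (Pf.C 4 642))
 (Pq.cons (Pq.D 5 (Pq.cons (Pq.D 6 (Pq.cons (Pq.L [] 0x136ef7 (Pf.C 1 0x202061c301))
 (Pq.cons (Pq.L [] 0x136ef7 (Pf.C 1 0x202061c301))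
 (Pq.cons (Pq.L [] 0x100030 (Pf.C 5 99201))
 (Pq.cons (Pq.L [] 0x100000 (Pf.C 4 902))
 Pq.nil))))) (Pq.cons (Pq.L [] 0x40000 (Pf.C 2 773))
 (Pq.cons (Pq.D 6 (Pq.cons (Pq.L [] 0x100030 (Pf.C 5 0x1c301))
 (Pq.cons (Pq.L [0] 0x1c7740 (Pf.W 140 7 [] [0,2,3,5,6] (Pf.cons (Pf.B 8 6 (Pf.B 8 5 (Pf.C 6 0x70c14008) (Pf.B 8 2 (Pf.C 5 33799) (Pf.C 0 0xc14108))) (Pf.C 3 776)) (Pf.cons (Pf.B 8 6 (Pf.C 132 776) (Pf.B 8 5 (Pf.B 8 2 (Pf.B 8 3 (Pf.C 7 0x5040c388) (Pf.T 8 10 (Pf.cons (Pf.W 10 32771 [] [5,6,7,8] (Pf.cons (Pf.B 9 8 (Pf.B 9 7 (Pf.C 7 0x3101c009) (Pf.B 9 6 (Pf.C 5 0x24303) (Pf.C 0 0x101c309))) (Pf.C 4 1033)) (Pf.cons (Pf.B 9 8 (Pf.C 5 0x20480) (Pf.B 9 7 (Pf.B 9 6 (Pf.B 9 5 (Pf.C 6 0x70c14189) (Pf.B 9 2 (Pf.C 5 33920)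 (Pf.C 0 0xc14109))) (Pf.C 3 777)) (Pf.C 0 0x620487))) Pf.nil))) (Pf.cons (Pf.C 174 392) Pf.nil)))) (Pf.C 4 264)) (Pf.C 0 0xe18405))) Pf.nil))))
 (Pq.cons (Pq.L [] 0x1c0700 (Pf.C 0 0xe18105))
 (Pq.cons (Pq.L [] 0x1c0700 (Pf.C 0 0xe18282))
 Pq.nil))))) (Pq.cons (Pq.L [0] 0x40319 (Pf.C 7 0xc04282))
 Pq.nil))))) (Pq.cons (Pq.L [] 265 (Pf.C 5 33409))
 (Pq.cons (Pq.L [] 256 (Pf.C 4 642))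
 Pq.nil))))) (Pq.cons (Pq.L [] 133 (Pf.C 5 33281))
 (Pq.cons (Pq.L [] 128 (Pf.C 4 514))
 Pq.nil))))) (Pq.cons (Pq.L [] 67 (Pf.C 5 33153))
 (Pq.cons (Pq.L [] 64 (Pf.C 4 386))
 Pq.nil))))) (Pq.cons (Pq.D 2 (Pq.cons (Pq.D 3 (Pq.cons (Pq.D 4 (Pq.cons (Pq.D 5 (Pq.cons (Pq.L [] 0x40000 (Pf.C 4 773))
 (Pq.cons (Pq.D 6 (Pq.cons (Pq.L [] 0x136ef7 (Pf.C 1 0x202061c301))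
 (Pq.cons (Pq.L [] 0x136ef7 (Pf.C 1 0x202061c301))
 (Pq.cons (Pq.L [0] 0x1c87c0 (Pf.W 10 49154 [] [4,5,6,7] (Pf.cons (Pf.B 8 7 (Pf.C 5 0x20382) (Pf.B 8 5 (Pf.B 8 6 (Pf.C 7 0x20a18008) (Pf.C 0 0xa1c308)) (Pf.C 4 648))) (Pf.cons (Pf.B 8 5 (Pf.C 5 82944) (Pf.B 8 4 (Pf.C 5 66560) (Pf.C 0 0xa08404))) Pf.nil))))
 (Pq.cons (Pq.L [0] 0x1c0038 (Pf.C 7 0xe04305))
 Pq.nil))))) (Pq.cons (Pq.L [] 0x40018 (Pf.C 5 82689))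
 (Pq.cons (Pq.L [] 0x40000 (Pf.C 4 773))
 Pq.nil))))) (Pq.cons (Pq.L [] 256 (Pf.C 2 642))
 (Pq.cons (Pq.L [] 39360 (Pf.C 0 0x814103))
 (Pq.cons (Pq.L [] 39375 (Pf.C 7 0x4040c281))
 Pq.nil))))) (Pq.cons (Pq.L [] 128 (Pf.C 2 514))
 (Pq.cons (Pq.D 4 (Pq.cons (Pq.L [] 39360 (Pf.C 0 0xa10103))
 (Pq.cons (Pq.L [] 256 (Pf.C 2 642))
 (Pq.cons (Pq.L [] 39360 (Pf.C 0 0xa0c104))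
 (Pq.cons (Pq.L [0] 4427 (Pf.C 7 0xa04182))
 Pq.nil))))) (Pq.cons (Pq.L [0] 2247 (Pf.C 7 0x804182))
 Pq.nil))))) (Pq.cons (Pq.L [] 64 (Pf.C 2 386))
 (Pq.cons (Pq.D 3 (Pq.cons (Pq.D 4 (Pq.cons (Pq.L [] 39360 (Pf.C 0 0xa0c104))
 (Pq.cons (Pq.L [] 256 (Pf.C 2 642))
 (Pq.cons (Pq.L [] 39360 (Pf.C 0 0xa10103))
 (Pq.cons (Pq.L [0] 33165 (Pf.C 7 0xa04202))
 Pq.nil))))) (Pq.cons (Pq.L [] 128 (Pf.C 2 514))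
 (Pq.cons (Pq.D 4 (Pq.cons (Pq.L [] 39360 (Pf.C 0 0x814103))
 (Pq.cons (Pq.L [] 256 (Pf.C 2 642))
 (Pq.cons (Pq.D 5 (Pq.cons (Pq.L [] 0x40018 (Pf.C 5 98945))
 (Pq.cons (Pq.D 6 (Pq.cons (Pq.L [0] 0x1c8780 (Pf.W 140 2 [] [0,4,5,6,7] (Pf.cons (Pf.B 8 7 (Pf.C 5 0x1c402) (Pf.B 8 5 (Pf.B 8 6 (Pf.C 6 0x20a18008) (Pf.C 0 0xa1c308)) (Pf.C 3 648))) (Pf.cons (Pf.B 8 5 (Pf.C 132 648) (Pf.B 8 4 (Pf.C 132 520) (Pf.C 0 0xa08404))) Pf.nil))))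
 (Pq.cons (Pq.L [] 0x136ef7 (Pf.C 1 0x202061c301))
 (Pq.cons (Pq.L [] 0x136ef7 (Pf.C 1 0x202061c301))
 (Pq.cons (Pq.L [0] 0x1c703a (Pf.C 1 0x70218283))
 Pq.nil))))) (Pq.cons (Pq.L [] 0x40000 (Pf.C 3 773))
 (Pq.cons (Pq.D 6 (Pq.cons (Pq.L [] 0x1c0700 (Pf.C 0 0xe18282))
 (Pq.cons (Pq.L [] 0x106000 (Pf.C 5 98695))
 (Pq.cons (Pq.L [0] 0x48380 (Pf.W 140 2 [] [0,4,5,6] (Pf.cons (Pf.B 8 5 (Pf.B 8 4 (Pf.C 6 0x50410008) (Pf.C 3 520)) (Pf.C 3 648)) (Pf.cons (Pf.B 8 6 (Pf.B 8 5 (Pf.C 132 648) (Pf.C 0 0xc08288)) (Pf.C 4 776)) Pf.nil))))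
 (Pq.cons (Pq.L [0] 0x100030 (Pf.C 0 0x1c301))
 Pq.nil))))) Pq.nil))))) (Pq.cons (Pq.L [] 256 (Pf.C 119 642))
 Pq.nil))))) (Pq.cons (Pq.L [] 128 (Pf.C 119 514))
 Pq.nil))))) (Pq.cons (Pq.L [] 64 (Pf.C 119 386))
 Pq.nil))))) (Pq.cons (Pq.D 2 (Pq.cons (Pq.L [] 67 (Pf.C 5 49409))
 (Pq.cons (Pq.D 3 (Pq.cons (Pq.L [] 133 (Pf.C 5 65793))
 (Pq.cons (Pq.D 4 (Pq.cons (Pq.L [] 265 (Pf.C 5 82177))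
 (Pq.cons (Pq.D 5 (Pq.cons (Pq.D 6 (Pq.cons (Pq.L [] 0x1c0700 (Pf.C 0 0xe18105))
 (Pq.cons (Pq.L [0] 0x1c7340 (Pf.W 140 3 [] [0,2,5,6,7] (Pf.cons (Pf.B 8 6 (Pf.C 5 99331) (Pf.B 8 2 (Pf.B 8 5 (Pf.C 6 0x30414008) (Pf.C 0 0x418288)) (Pf.C 3 264))) (Pf.cons (Pf.B 8 6 (Pf.B 8 2 (Pf.C 132 264) (Pf.B 8 5 (Pf.B 8 7 (Pf.C 7 0x50c1c188) (Pf.T 8 10 (Pf.cons (Pf.W 10 98311 [] [8] (Pf.cons (Pf.B 9 8 (Pf.B 9 6 (Pf.C 7 0x80e18009) (Pf.C 4 777)) (Pf.C 4 1033)) (Pf.cons (Pf.B 9 8 (Pf.C 5 0x20480) (Pf.B 9 6 (Pf.C 5 99456) (Pf.C 0 0x101c486))) Pf.nil))) (Pf.cons (Pf.C 174 392) Pf.nil)))) (Pf.C 0 0xc08288))) (Pf.C 4 776)) Pf.nil))))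
 (Pq.cons (Pq.L [] 0x100030 (Pf.C 5 99201))
 (Pq.cons (Pq.L [] 0x1c0700 (Pf.C 0 0xe18282))
 Pq.nil))))) (Pq.cons (Pq.L [] 0x40000 (Pf.C 2 773))
 (Pq.cons (Pq.D 6 (Pq.cons (Pq.L [] 0x100030 (Pf.C 5 0x1c301))
 (Pq.cons (Pq.L [] 0x136ef7 (Pf.C 1 0x202061c301))
 (Pq.cons (Pq.L [] 0x136ef7 (Pf.C 1 0x202061c301))
 (Pq.cons (Pq.L [0] 0x1c0300 (Pf.W 140 5 [] [0,2,6,7] (Pf.cons (Pf.B 8 6 (Pf.B 8 2 (Pf.C 6 0x60a08008) (Pf.C 3 264)) (Pf.C 3 776)) (Pf.cons (Pf.B 8 7 (Pf.B 8 6 (Pf.C 132 776) (Pf.C 0 0xe14308)) (Pf.C 4 904)) Pf.nil))))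
 Pq.nil))))) (Pq.cons (Pq.L [] 0x40000 (Pf.C 119 773))
 Pq.nil))))) (Pq.cons (Pq.L [] 256 (Pf.C 3 642))
 (Pq.cons (Pq.L [] 39360 (Pf.C 0 0x814103))
 Pq.nil))))) (Pq.cons (Pq.L [] 128 (Pf.C 3 514))
 (Pq.cons (Pq.D 4 (Pq.cons (Pq.L [] 265 (Pf.C 5 82177))
 (Pq.cons (Pq.L [] 39360 (Pf.C 0 0xa10103))
 (Pq.cons (Pq.L [] 256 (Pf.C 3 642))
 (Pq.cons (Pq.L [] 39360 (Pf.C 0 0xa0c104))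
 Pq.nil))))) Pq.nil))))) (Pq.cons (Pq.L [] 64 (Pf.C 3 386))
 (Pq.cons (Pq.D 3 (Pq.cons (Pq.L [] 133 (Pf.C 5 65793))
 (Pq.cons (Pq.D 4 (Pq.cons (Pq.L [] 265 (Pf.C 5 82177))
 (Pq.cons (Pq.L [] 39360 (Pf.C 0 0xa0c104))
 (Pq.cons (Pq.L [] 256 (Pf.C 3 642))
 (Pq.cons (Pq.L [] 39360 (Pf.C 0 0xa10103))
 Pq.nil))))) (Pq.cons (Pq.L [] 128 (Pf.C 3 514))
 (Pq.cons (Pq.D 4 (Pq.cons (Pq.L [] 265 (Pf.C 5 82177))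
 (Pq.cons (Pq.L [] 39360 (Pf.C 0 0x814103))
 (Pq.cons (Pq.L [] 256 (Pf.C 3 642))
 (Pq.cons (Pq.D 5 (Pq.cons (Pq.L [] 0x40000 (Pf.C 4 773))
 (Pq.cons (Pq.L [] 0x40000 (Pf.C 119 646))
 (Pq.cons (Pq.D 6 (Pq.cons (Pq.L [] 0x100030 (Pf.C 5 0x1c301))
 (Pq.cons (Pq.L [0] 0x1c87b1 (Pf.W 140 7 [] [0,1,2,3,4,5,6] (Pf.cons (Pf.B 8 6 (Pf.B 8 5 (Pf.B 8 2 (Pf.B 8 1 (Pf.T 8 9 (Pf.cons (Pf.W 146 2 [] [0,1,3,4,5,6,7,8] (Pf.cons (Pf.B 9 5 (Pf.C 119 649) (Pf.B 9 4 (Pf.C 119 521) (Pf.C 0 0xa08484))) (Pf.cons (Pf.B 9 7 (Pf.C 5 0x24107) (Pf.B 9 5 (Pf.B 9 6 (Pf.B 9 8 (Pf.B 9 4 (Pf.B 9 3 (Pf.B 9 1 (Pf.C 5 0x24101) (Pf.W 150 9 [] [0,6,7,8] (Pf.cons (Pf.B 10 8 (Pf.B 10 7 (Pf.B 10 6 (Pf.C 6 0x80028386) (Pf.C 3 778)) (Pf.C 0 0x24507))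 (Pf.C 3 1034)) Pf.nil))) (Pf.C 4 393)) (Pf.C 4 521)) (Pf.C 8 0x60a08409)) (Pf.C 0 0xa1c309)) (Pf.C 4 649))) Pf.nil))) (Pf.cons (Pf.C 171 136) Pf.nil))) (Pf.C 6 0x1004386)) (Pf.C 3 264)) (Pf.C 126 648)) (Pf.C 3 776)) (Pf.cons (Pf.B 8 6 (Pf.C 132 776) (Pf.B 8 5 (Pf.C 0 0xa1c308) (Pf.C 4 648))) Pf.nil))))
 (Pq.cons (Pq.L [] 0x136ec0 (Pf.C 8 0x4040c386))
 (Pq.cons (Pq.L [] 0x136ec0 (Pf.C 8 0x4040c386))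
 Pq.nil))))) (Pq.cons (Pq.L [0] 0x40018 (Pf.C 0 98945))
 Pq.nil))))) Pq.nil))))) Pq.nil))))) Pq.nil))))) (Pq.cons (Pq.D 2 (Pq.cons (Pq.L [] 64 (Pf.C 4 386))
 (Pq.cons (Pq.L [] 64 (Pf.C 119 259))
 (Pq.cons (Pq.D 3 (Pq.cons (Pq.L [] 128 (Pf.C 4 514))
 (Pq.cons (Pq.L [] 128 (Pf.C 119 260))
 (Pq.cons (Pq.D 4 (Pq.cons (Pq.L [] 256 (Pf.C 4 642))
 (Pq.cons (Pq.L [] 256 (Pf.C 119 261))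
 (Pq.cons (Pq.D 5 (Pq.cons (Pq.L [] 0x40018 (Pf.C 5 98945))
 (Pq.cons (Pq.D 6 (Pq.cons (Pq.L [] 0x1c0700 (Pf.C 0 0xe18282))
 (Pq.cons (Pq.L [] 0x1c0700 (Pf.C 0 0xe18105))
 (Pq.cons (Pq.L [0] 0x1c0000 (Pf.W 140 6 [] [0,5,7] (Pf.cons (Pf.B 8 7 (Pf.B 8 5 (Pf.C 6 0x70c14008) (Pf.C 3 648)) (Pf.C 3 904)) (Pf.cons (Pf.B 8 7 (Pf.C 132 904) (Pf.B 8 5 (Pf.C 132 648) (Pf.C 0 0xe18405))) Pf.nil))))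
 (Pq.cons (Pq.L [0] 0x1c703a (Pf.C 1 0x70218283))
 Pq.nil))))) (Pq.cons (Pq.L [] 0x40000 (Pf.C 3 773))
 (Pq.cons (Pq.D 6 (Pq.cons (Pq.L [] 0x100000 (Pf.C 4 902))
 (Pq.cons (Pq.L [] 0x106000 (Pf.C 5 98695))
 (Pq.cons (Pq.L [] 0x136ec0 (Pf.C 8 0x4040c386))
 (Pq.cons (Pq.L [0] 0x100030 (Pf.C 0 0x1c301))
 Pq.nil))))) Pq.nil))))) (Pq.cons (Pq.L [0] 265 (Pf.C 0 82177))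
 Pq.nil))))) (Pq.cons (Pq.L [0] 133 (Pf.C 0 65793))
 Pq.nil))))) (Pq.cons (Pq.L [0] 67 (Pf.C 0 49409))
 Pq.nil))))) Pq.nil))))) (Pq.cons (Pq.D 1 (Pq.cons (Pq.D 2 (Pq.cons (Pq.L [] 64 (Pf.C 4 386))
 (Pq.cons (Pq.D 3 (Pq.cons (Pq.L [] 128 (Pf.C 4 514))
 (Pq.cons (Pq.D 4 (Pq.cons (Pq.L [] 256 (Pf.C 4 642))
 (Pq.cons (Pq.D 5 (Pq.cons (Pq.D 6 (Pq.cons (Pq.L [] 0x136ec0 (Pf.C 7 0x4040c386))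
 (Pq.cons (Pq.L [] 0x136ec0 (Pf.C 7 0x4040c386))
 (Pq.cons (Pq.L [] 0x106000 (Pf.C 5 99203))
 (Pq.cons (Pq.L [] 0x100000 (Pf.C 4 902))
 Pq.nil))))) (Pq.cons (Pq.L [] 0x40000 (Pf.C 2 773))
 (Pq.cons (Pq.D 6 (Pq.cons (Pq.L [] 0x106000 (Pf.C 5 0x1c303))
 (Pq.cons (Pq.L [0] 0x1c7740 (Pf.W 140 7 [] [0,2,3,5,6] (Pf.cons (Pf.B 8 6 (Pf.B 8 5 (Pf.C 6 0x70c14008) (Pf.B 8 2 (Pf.C 5 33799) (Pf.C 0 0xc14108))) (Pf.C 3 776)) (Pf.cons (Pf.B 8 6 (Pf.C 132 776) (Pf.B 8 5 (Pf.B 8 2 (Pf.B 8 3 (Pf.C 7 0x5040c388) (Pf.T 8 10 (Pf.cons (Pf.W 10 32771 [] [5,6,7,8] (Pf.cons (Pf.B 9 8 (Pf.B 9 7 (Pf.C 7 0x3101c009) (Pf.B 9 6 (Pf.C 5 0x24303) (Pf.C 0 0x101c309))) (Pf.C 4 1033)) (Pf.cons (Pf.B 9 8 (Pf.C 5 0x20480) (Pf.B 9 7 (Pf.B 9 6 (Pf.B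 9 5 (Pf.C 6 0x70c14189) (Pf.B 9 2 (Pf.C 5 33920) (Pf.C 0 0xc14109))) (Pf.C 3 777)) (Pf.C 0 0x620487))) Pf.nil))) (Pf.cons (Pf.C 174 392) Pf.nil)))) (Pf.C 4 264)) (Pf.C 0 0xe18405))) Pf.nil))))
 (Pq.cons (Pq.L [] 0x1c0700 (Pf.C 0 0xe18105))
 (Pq.cons (Pq.L [] 0x1c0700 (Pf.C 0 0xe18282))
 Pq.nil))))) (Pq.cons (Pq.L [] 0x40018 (Pf.C 5 98437))
 Pq.nil))))) (Pq.cons (Pq.L [] 256 (Pf.C 132 642))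
 (Pq.cons (Pq.L [] 256 (Pf.C 4 642))
 Pq.nil))))) (Pq.cons (Pq.L [] 128 (Pf.C 132 514))
 (Pq.cons (Pq.L [] 128 (Pf.C 4 514))
 Pq.nil))))) (Pq.cons (Pq.L [] 64 (Pf.C 132 386))
 (Pq.cons (Pq.L [] 64 (Pf.C 4 386))
 Pq.nil))))) (Pq.cons (Pq.D 2 (Pq.cons (Pq.D 3 (Pq.cons (Pq.D 4 (Pq.cons (Pq.D 5 (Pq.cons (Pq.L [] 0x40000 (Pf.C 4 773))
 (Pq.cons (Pq.D 6 (Pq.cons (Pq.L [] 0x136ec0 (Pf.C 7 0x4040c386))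
 (Pq.cons (Pq.L [0] 0x106673 (Pf.C 1 0x103021c300))
 (Pq.cons (Pq.L [0] 0x1c87c0 (Pf.W 10 49154 [] [4,5,6,7] (Pf.cons (Pf.B 8 7 (Pf.C 5 0x20382) (Pf.B 8 5 (Pf.B 8 6 (Pf.C 7 0x20a18008) (Pf.C 0 0xa1c308)) (Pf.C 4 648))) (Pf.cons (Pf.B 8 5 (Pf.C 5 82944) (Pf.B 8 4 (Pf.C 5 66560) (Pf.C 0 0xa08404))) Pf.nil))))
 (Pq.cons (Pq.L [] 0x100030 (Pf.C 5 0x1c086))
 Pq.nil))))) (Pq.cons (Pq.L [] 0x40000 (Pf.C 132 773))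
 (Pq.cons (Pq.L [] 0x40000 (Pf.C 4 773))
 Pq.nil))))) (Pq.cons (Pq.L [] 256 (Pf.C 2 642))
 (Pq.cons (Pq.L [] 39360 (Pf.C 0 0x814103))
 (Pq.cons (Pq.L [] 265 (Pf.C 5 82050))
 Pq.nil))))) (Pq.cons (Pq.L [] 128 (Pf.C 2 514))
 (Pq.cons (Pq.D 4 (Pq.cons (Pq.L [] 39360 (Pf.C 0 0xa10103))
 (Pq.cons (Pq.L [] 256 (Pf.C 2 642))
 (Pq.cons (Pq.L [] 39360 (Pf.C 0 0xa0c104))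
 (Pq.cons (Pq.L [] 265 (Pf.C 5 82050))
 Pq.nil))))) (Pq.cons (Pq.L [] 133 (Pf.C 5 65666))
 Pq.nil))))) (Pq.cons (Pq.L [] 64 (Pf.C 2 386))
 (Pq.cons (Pq.D 3 (Pq.cons (Pq.D 4 (Pq.cons (Pq.L [] 39360 (Pf.C 0 0xa0c104))
 (Pq.cons (Pq.L [] 256 (Pf.C 2 642))
 (Pq.cons (Pq.L [] 39360 (Pf.C 0 0xa10103))
 (Pq.cons (Pq.L [] 265 (Pf.C 5 82050))
 Pq.nil))))) (Pq.cons (Pq.L [] 128 (Pf.C 2 514))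
 (Pq.cons (Pq.D 4 (Pq.cons (Pq.L [] 39360 (Pf.C 0 0x814103))
 (Pq.cons (Pq.L [] 256 (Pf.C 2 642))
 (Pq.cons (Pq.D 5 (Pq.cons (Pq.L [] 0x40000 (Pf.C 132 646))
 (Pq.cons (Pq.D 6 (Pq.cons (Pq.L [0] 0x1c8780 (Pf.W 140 2 [] [0,4,5,6,7] (Pf.cons (Pf.B 8 7 (Pf.C 5 0x1c402) (Pf.B 8 5 (Pf.B 8 6 (Pf.C 6 0x20a18008) (Pf.C 0 0xa1c308)) (Pf.C 3 648))) (Pf.cons (Pf.B 8 5 (Pf.C 132 648) (Pf.B 8 4 (Pf.C 132 520) (Pf.C 0 0xa08404))) Pf.nil))))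
 (Pq.cons (Pq.L [] 0x136ef7 (Pf.C 1 0x202061c301))
 (Pq.cons (Pq.L [] 0x136ef7 (Pf.C 1 0x202061c301))
 (Pq.cons (Pq.L [] 0x100030 (Pf.C 5 0x1c086))
 Pq.nil))))) (Pq.cons (Pq.L [] 0x40000 (Pf.C 3 773))
 (Pq.cons (Pq.D 6 (Pq.cons (Pq.L [] 0x1c0700 (Pf.C 0 0xe18282))
 (Pq.cons (Pq.L [] 0x100030 (Pf.C 5 98439))
 (Pq.cons (Pq.L [0] 0x48380 (Pf.W 140 2 [] [0,4,5,6] (Pf.cons (Pf.B 8 5 (Pf.B 8 4 (Pf.C 6 0x50410008) (Pf.C 3 520)) (Pf.C 3 648)) (Pf.cons (Pf.B 8 6 (Pf.B 8 5 (Pf.C 132 648) (Pf.C 0 0xc08288)) (Pf.C 4 776)) Pf.nil))))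
 (Pq.cons (Pq.L [0] 0x100600 (Pf.C 0 0x1c302))
 Pq.nil))))) Pq.nil))))) (Pq.cons (Pq.L [] 265 (Pf.C 5 82050))
 Pq.nil))))) (Pq.cons (Pq.L [] 133 (Pf.C 5 65666))
 Pq.nil))))) (Pq.cons (Pq.L [] 67 (Pf.C 5 49282))
 Pq.nil))))) (Pq.cons (Pq.D 2 (Pq.cons (Pq.L [] 64 (Pf.C 132 259))
 (Pq.cons (Pq.D 3 (Pq.cons (Pq.L [] 128 (Pf.C 132 260))
 (Pq.cons (Pq.D 4 (Pq.cons (Pq.L [0] 39375 (Pf.C 1 0x2020614080))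
 (Pq.cons (Pq.D 5 (Pq.cons (Pq.D 6 (Pq.cons (Pq.L [] 0x100631 (Pf.C 0 0x41c301))
 (Pq.cons (Pq.L [0] 0x1c7340 (Pf.W 140 3 [] [0,2,5,6,7] (Pf.cons (Pf.B 8 6 (Pf.C 5 99331) (Pf.B 8 2 (Pf.B 8 5 (Pf.C 6 0x30414008) (Pf.C 0 0x418288)) (Pf.C 3 264))) (Pf.cons (Pf.B 8 6 (Pf.B 8 2 (Pf.C 132 264) (Pf.B 8 5 (Pf.B 8 7 (Pf.C 7 0x50c1c188) (Pf.T 8 10 (Pf.cons (Pf.W 10 98311 [] [8] (Pf.cons (Pf.B 9 8 (Pf.B 9 6 (Pf.C 7 0x80e18009) (Pf.C 4 777)) (Pf.C 4 1033)) (Pf.cons (Pf.B 9 8 (Pf.C 5 0x20480) (Pf.B 9 6 (Pf.C 5 99456) (Pf.C 0 0x101c486))) Pf.nil))) (Pf.cons (Pf.C 174 392) Pf.nil)))) (Pf.C 0 0xc08288))) (Pf.C 4 776)) Pf.nil))))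
 (Pq.cons (Pq.L [] 0x106000 (Pf.C 5 99203))
 (Pq.cons (Pq.L [] 0x1c0700 (Pf.C 0 0xe18282))
 Pq.nil))))) (Pq.cons (Pq.L [] 0x40000 (Pf.C 2 773))
 (Pq.cons (Pq.D 6 (Pq.cons (Pq.L [] 0x106000 (Pf.C 5 0x1c303))
 (Pq.cons (Pq.L [] 0x136ef7 (Pf.C 1 0x202061c301))
 (Pq.cons (Pq.L [] 0x136ef7 (Pf.C 1 0x202061c301))
 (Pq.cons (Pq.L [0] 0x1c0300 (Pf.W 140 5 [] [0,2,6,7] (Pf.cons (Pf.B 8 6 (Pf.B 8 2 (Pf.C 6 0x60a08008) (Pf.C 3 264)) (Pf.C 3 776)) (Pf.cons (Pf.B 8 7 (Pf.B 8 6 (Pf.C 132 776) (Pf.C 0 0xe14308)) (Pf.C 4 904)) Pf.nil))))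
 Pq.nil))))) (Pq.cons (Pq.L [] 0x40018 (Pf.C 5 98437))
 Pq.nil))))) (Pq.cons (Pq.L [] 256 (Pf.C 3 642))
 (Pq.cons (Pq.L [] 39360 (Pf.C 0 0x814103))
 Pq.nil))))) (Pq.cons (Pq.L [] 128 (Pf.C 3 514))
 (Pq.cons (Pq.D 4 (Pq.cons (Pq.L [] 256 (Pf.C 132 261))
 (Pq.cons (Pq.L [] 39360 (Pf.C 0 0xa10103))
 (Pq.cons (Pq.L [] 256 (Pf.C 3 642))
 (Pq.cons (Pq.L [] 39360 (Pf.C 0 0xa0c104))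
 Pq.nil))))) Pq.nil))))) (Pq.cons (Pq.L [] 64 (Pf.C 3 386))
 (Pq.cons (Pq.D 3 (Pq.cons (Pq.L [] 128 (Pf.C 132 260))
 (Pq.cons (Pq.D 4 (Pq.cons (Pq.L [] 256 (Pf.C 132 261))
 (Pq.cons (Pq.L [] 39360 (Pf.C 0 0xa0c104))
 (Pq.cons (Pq.L [] 256 (Pf.C 3 642))
 (Pq.cons (Pq.L [] 39360 (Pf.C 0 0xa10103))
 Pq.nil))))) (Pq.cons (Pq.L [] 128 (Pf.C 3 514))
 (Pq.cons (Pq.D 4 (Pq.cons (Pq.L [] 39375 (Pf.C 8 0x4040c281))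
 (Pq.cons (Pq.L [] 39360 (Pf.C 0 0x814103))
 (Pq.cons (Pq.L [] 256 (Pf.C 3 642))
 (Pq.cons (Pq.D 5 (Pq.cons (Pq.L [] 0x40000 (Pf.C 4 773))
 (Pq.cons (Pq.L [] 0x40018 (Pf.C 5 82054))
 (Pq.cons (Pq.D 6 (Pq.cons (Pq.L [0] 0x136836 (Pf.C 1 0x200061c086))
 (Pq.cons (Pq.L [0] 0x1c8799 (Pf.W 140 7 [] [0,1,2,3,4,5,6] (Pf.cons (Pf.B 8 6 (Pf.B 8 5 (Pf.B 8 2 (Pf.T 8 9 (Pf.cons (Pf.W 146 2 [] [0,1,3,4,5,6,7,8] (Pf.cons (Pf.B 9 5 (Pf.C 119 649) (Pf.B 9 4 (Pf.C 119 521) (Pf.C 0 0xa08484))) (Pf.cons (Pf.B 9 7 (Pf.C 5 0x24107) (Pf.B 9 5 (Pf.B 9 6 (Pf.B 9 8 (Pf.B 9 4 (Pf.B 9 3 (Pf.B 9 1 (Pf.W 150 9 [] [0,6,7,8] (Pf.cons (Pf.B 10 8 (Pf.B 10 7 (Pf.B 10 6 (Pf.C 6 0x80028386) (Pf.C 3 778)) (Pf.C 0 0x24507)) (Pf.C 3 1034)) Pf.nil))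 (Pf.C 8 0x60a08089)) (Pf.C 4 393)) (Pf.C 4 521)) (Pf.C 8 0x60a08409)) (Pf.C 0 0xa1c309)) (Pf.C 4 649))) Pf.nil))) (Pf.cons (Pf.C 171 904) Pf.nil))) (Pf.C 3 264)) (Pf.C 126 648)) (Pf.C 3 776)) (Pf.cons (Pf.B 8 6 (Pf.C 132 776) (Pf.B 8 5 (Pf.C 0 0xa1c308) (Pf.C 4 648))) Pf.nil))))
 (Pq.cons (Pq.L [0] 0x106673 (Pf.C 1 0x103001c301))
 (Pq.cons (Pq.L [] 0x136ef7 (Pf.C 1 0x202061c301))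
 Pq.nil))))) (Pq.cons (Pq.L [] 0x40000 (Pf.C 4 773))
 Pq.nil))))) Pq.nil))))) Pq.nil))))) Pq.nil))))) (Pq.cons (Pq.D 2 (Pq.cons (Pq.L [] 64 (Pf.C 4 386))
 (Pq.cons (Pq.L [] 67 (Pf.C 5 32899))
 (Pq.cons (Pq.D 3 (Pq.cons (Pq.L [] 128 (Pf.C 4 514))
 (Pq.cons (Pq.L [] 133 (Pf.C 5 32900))
 (Pq.cons (Pq.D 4 (Pq.cons (Pq.L [] 256 (Pf.C 4 642))
 (Pq.cons (Pq.L [] 265 (Pf.C 5 32901))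
 (Pq.cons (Pq.D 5 (Pq.cons (Pq.L [] 0x40000 (Pf.C 132 646))
 (Pq.cons (Pq.D 6 (Pq.cons (Pq.L [] 0x1c0700 (Pf.C 0 0xe18282))
 (Pq.cons (Pq.L [] 0x1c0700 (Pf.C 0 0xe18105))
 (Pq.cons (Pq.L [0] 0x1c0000 (Pf.W 140 6 [] [0,5,7] (Pf.cons (Pf.B 8 7 (Pf.B 8 5 (Pf.C 6 0x70c14008) (Pf.C 3 648)) (Pf.C 3 904)) (Pf.cons (Pf.B 8 7 (Pf.C 132 904) (Pf.B 8 5 (Pf.C 132 648) (Pf.C 0 0xe18405))) Pf.nil))))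
 (Pq.cons (Pq.L [] 0x100030 (Pf.C 5 0x1c086))
 Pq.nil))))) (Pq.cons (Pq.L [] 0x40000 (Pf.C 3 773))
 (Pq.cons (Pq.D 6 (Pq.cons (Pq.L [] 0x100000 (Pf.C 4 902))
 (Pq.cons (Pq.L [] 0x100030 (Pf.C 5 98439))
 (Pq.cons (Pq.L [] 0x136ef7 (Pf.C 1 0x202061c301))
 (Pq.cons (Pq.L [] 0x136ef7 (Pf.C 1 0x202061c301))
 Pq.nil))))) Pq.nil))))) (Pq.cons (Pq.L [] 256 (Pf.C 4 642))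
 Pq.nil))))) (Pq.cons (Pq.L [] 128 (Pf.C 4 514))
 Pq.nil))))) (Pq.cons (Pq.L [] 64 (Pf.C 4 386))
 Pq.nil))))) Pq.nil))))) (Pq.cons (Pq.D 1 (Pq.cons (Pq.D 2 (Pq.cons (Pq.L [] 64 (Pf.C 4 386))
 (Pq.cons (Pq.D 3 (Pq.cons (Pq.L [] 128 (Pf.C 4 514))
 (Pq.cons (Pq.D 4 (Pq.cons (Pq.L [] 256 (Pf.C 4 642))
 (Pq.cons (Pq.D 5 (Pq.cons (Pq.D 6 (Pq.cons (Pq.L [] 0x106673 (Pf.C 7 0x20604386))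
 (Pq.cons (Pq.L [] 0x136ec0 (Pf.C 7 0x4040c386))
 (Pq.cons (Pq.L [] 0x106000 (Pf.C 5 99203))
 (Pq.cons (Pq.L [] 0x100000 (Pf.C 4 902))
 Pq.nil))))) (Pq.cons (Pq.L [] 0x40000 (Pf.C 2 773))
 (Pq.cons (Pq.D 6 (Pq.cons (Pq.L [] 0x106000 (Pf.C 5 0x1c303))
 (Pq.cons (Pq.L [0] 0x1c7740 (Pf.W 140 7 [] [0,2,3,5,6] (Pf.cons (Pf.B 8 6 (Pf.B 8 5 (Pf.C 6 0x70c14008) (Pf.B 8 2 (Pf.C 5 33799) (Pf.C 0 0xc14108))) (Pf.C 3 776)) (Pf.cons (Pf.B 8 6 (Pf.C 132 776) (Pf.B 8 5 (Pf.B 8 2 (Pf.B 8 3 (Pf.C 7 0x5040c388) (Pf.T 8 10 (Pf.cons (Pf.W 10 32771 [] [5,6,7,8] (Pf.cons (Pf.B 9 8 (Pf.B 9 7 (Pf.C 7 0x3101c009) (Pf.B 9 6 (Pf.C 5 0x24303) (Pf.C 0 0x101c309))) (Pf.C 4 1033)) (Pf.cons (Pf.B 9 8 (Pf.C 5 0x20480) (Pf.B 9 7 (Pf.B 9 6 (Pf.B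 9 5 (Pf.C 6 0x70c14189) (Pf.B 9 2 (Pf.C 5 33920) (Pf.C 0 0xc14109))) (Pf.C 3 777)) (Pf.C 0 0x620487))) Pf.nil))) (Pf.cons (Pf.C 174 392) Pf.nil)))) (Pf.C 4 264)) (Pf.C 0 0xe18405))) Pf.nil))))
 (Pq.cons (Pq.L [] 0x1c0700 (Pf.C 0 0xe18105))
 (Pq.cons (Pq.L [] 0x1c0700 (Pf.C 0 0xe18282))
 Pq.nil))))) (Pq.cons (Pq.L [] 0x40000 (Pf.C 119 773))
 Pq.nil))))) (Pq.cons (Pq.L [] 256 (Pf.C 132 642))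
 (Pq.cons (Pq.L [] 256 (Pf.C 4 642))
 Pq.nil))))) (Pq.cons (Pq.L [] 128 (Pf.C 132 514))
 (Pq.cons (Pq.L [] 128 (Pf.C 4 514))
 Pq.nil))))) (Pq.cons (Pq.L [] 64 (Pf.C 132 386))
 (Pq.cons (Pq.L [] 64 (Pf.C 4 386))
 Pq.nil))))) (Pq.cons (Pq.D 2 (Pq.cons (Pq.D 3 (Pq.cons (Pq.D 4 (Pq.cons (Pq.D 5 (Pq.cons (Pq.L [] 0x40000 (Pf.C 4 773))
 (Pq.cons (Pq.D 6 (Pq.cons (Pq.L [] 0x136ec0 (Pf.C 7 0x4040c386))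
 (Pq.cons (Pq.L [] 0x136ec0 (Pf.C 7 0x4040c386))
 (Pq.cons (Pq.L [0] 0x1c87c0 (Pf.W 10 49154 [] [4,5,6,7] (Pf.cons (Pf.B 8 7 (Pf.C 5 0x20382) (Pf.B 8 5 (Pf.B 8 6 (Pf.C 7 0x20a18008) (Pf.C 0 0xa1c308)) (Pf.C 4 648))) (Pf.cons (Pf.B 8 5 (Pf.C 5 82944) (Pf.B 8 4 (Pf.C 5 66560) (Pf.C 0 0xa08404))) Pf.nil))))
 (Pq.cons (Pq.L [] 0x100000 (Pf.C 119 902))
 Pq.nil))))) (Pq.cons (Pq.L [0] 0x5b81e (Pf.C 1 0x2060600085))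
 (Pq.cons (Pq.L [] 0x40000 (Pf.C 4 773))
 Pq.nil))))) (Pq.cons (Pq.L [] 256 (Pf.C 2 642))
 (Pq.cons (Pq.L [] 39360 (Pf.C 0 0x814103))
 (Pq.cons (Pq.L [] 256 (Pf.C 119 642))
 Pq.nil))))) (Pq.cons (Pq.L [] 128 (Pf.C 2 514))
 (Pq.cons (Pq.D 4 (Pq.cons (Pq.L [] 39360 (Pf.C 0 0xa10103))
 (Pq.cons (Pq.L [] 256 (Pf.C 2 642))
 (Pq.cons (Pq.L [] 39360 (Pf.C 0 0xa0c104))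
 (Pq.cons (Pq.L [] 256 (Pf.C 119 642))
 Pq.nil))))) (Pq.cons (Pq.L [] 128 (Pf.C 119 514))
 Pq.nil))))) (Pq.cons (Pq.L [] 64 (Pf.C 2 386))
 (Pq.cons (Pq.D 3 (Pq.cons (Pq.D 4 (Pq.cons (Pq.L [] 39360 (Pf.C 0 0xa0c104))
 (Pq.cons (Pq.L [] 256 (Pf.C 2 642))
 (Pq.cons (Pq.L [] 39360 (Pf.C 0 0xa10103))
 (Pq.cons (Pq.L [] 256 (Pf.C 119 642))
 Pq.nil))))) (Pq.cons (Pq.L [] 128 (Pf.C 2 514))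
 (Pq.cons (Pq.D 4 (Pq.cons (Pq.L [] 39360 (Pf.C 0 0x814103))
 (Pq.cons (Pq.L [] 256 (Pf.C 2 642))
 (Pq.cons (Pq.D 5 (Pq.cons (Pq.L [0] 0x5b81e (Pf.C 1 0x2060600085))
 (Pq.cons (Pq.D 6 (Pq.cons (Pq.L [0] 0x1c8780 (Pf.W 140 2 [] [0,4,5,6,7] (Pf.cons (Pf.B 8 7 (Pf.C 5 0x1c402) (Pf.B 8 5 (Pf.B 8 6 (Pf.C 6 0x20a18008) (Pf.C 0 0xa1c308)) (Pf.C 3 648))) (Pf.cons (Pf.B 8 5 (Pf.C 132 648) (Pf.B 8 4 (Pf.C 132 520) (Pf.C 0 0xa08404))) Pf.nil))))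
 (Pq.cons (Pq.L [] 0x136ec0 (Pf.C 6 0x4040c386))
 (Pq.cons (Pq.L [] 0x136ec0 (Pf.C 6 0x4040c386))
 (Pq.cons (Pq.L [] 0x106000 (Pf.C 5 0x1c186))
 Pq.nil))))) (Pq.cons (Pq.L [] 0x40000 (Pf.C 3 773))
 (Pq.cons (Pq.D 6 (Pq.cons (Pq.L [] 0x1c0700 (Pf.C 0 0xe18282))
 (Pq.cons (Pq.L [] 0x106000 (Pf.C 5 98695))
 (Pq.cons (Pq.L [0] 0x48380 (Pf.W 140 2 [] [0,4,5,6] (Pf.cons (Pf.B 8 5 (Pf.B 8 4 (Pf.C 6 0x50410008) (Pf.C 3 520)) (Pf.C 3 648)) (Pf.cons (Pf.B 8 6 (Pf.B 8 5 (Pf.C 132 648) (Pf.C 0 0xc08288)) (Pf.C 4 776)) Pf.nil))))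
 (Pq.cons (Pq.L [0] 0x100600 (Pf.C 0 0x1c302))
 Pq.nil))))) Pq.nil))))) (Pq.cons (Pq.L [] 256 (Pf.C 119 642))
 Pq.nil))))) (Pq.cons (Pq.L [] 128 (Pf.C 119 514))
 Pq.nil))))) (Pq.cons (Pq.L [] 64 (Pf.C 119 386))
 Pq.nil))))) (Pq.cons (Pq.D 2 (Pq.cons (Pq.L [] 64 (Pf.C 132 259))
 (Pq.cons (Pq.D 3 (Pq.cons (Pq.L [] 128 (Pf.C 132 260))
 (Pq.cons (Pq.D 4 (Pq.cons (Pq.L [] 256 (Pf.C 132 261))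
 (Pq.cons (Pq.D 5 (Pq.cons (Pq.D 6 (Pq.cons (Pq.L [0] 0x106032 (Pf.C 7 0x30200386))
 (Pq.cons (Pq.L [0] 0x1c7340 (Pf.W 140 3 [] [0,2,5,6,7] (Pf.cons (Pf.B 8 6 (Pf.C 5 99331) (Pf.B 8 2 (Pf.B 8 5 (Pf.C 6 0x30414008) (Pf.C 0 0x418288)) (Pf.C 3 264))) (Pf.cons (Pf.B 8 6 (Pf.B 8 2 (Pf.C 132 264) (Pf.B 8 5 (Pf.B 8 7 (Pf.C 7 0x50c1c188) (Pf.T 8 10 (Pf.cons (Pf.W 10 98311 [] [8] (Pf.cons (Pf.B 9 8 (Pf.B 9 6 (Pf.C 7 0x80e18009) (Pf.C 4 777)) (Pf.C 4 1033)) (Pf.cons (Pf.B 9 8 (Pf.C 5 0x20480) (Pf.B 9 6 (Pf.C 5 99456) (Pf.C 0 0x101c486))) Pf.nil))) (Pf.cons (Pf.C 174 392) Pf.nil)))) (Pf.C 0 0xc08288))) (Pf.C 4 776)) Pf.nil))))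
 (Pq.cons (Pq.L [] 0x106000 (Pf.C 5 99203))
 (Pq.cons (Pq.L [] 0x1c0700 (Pf.C 0 0xe18282))
 Pq.nil))))) (Pq.cons (Pq.L [] 0x40000 (Pf.C 2 773))
 (Pq.cons (Pq.D 6 (Pq.cons (Pq.L [] 0x106000 (Pf.C 5 0x1c303))
 (Pq.cons (Pq.L [] 0x136ec0 (Pf.C 6 0x4040c386))
 (Pq.cons (Pq.L [] 0x136ec0 (Pf.C 6 0x4040c386))
 (Pq.cons (Pq.L [0] 0x1c0300 (Pf.W 140 5 [] [0,2,6,7] (Pf.cons (Pf.B 8 6 (Pf.B 8 2 (Pf.C 6 0x60a08008) (Pf.C 3 264)) (Pf.C 3 776)) (Pf.cons (Pf.B 8 7 (Pf.B 8 6 (Pf.C 132 776) (Pf.C 0 0xe14308)) (Pf.C 4 904)) Pf.nil))))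
 Pq.nil))))) (Pq.cons (Pq.L [] 0x40000 (Pf.C 119 773))
 Pq.nil))))) (Pq.cons (Pq.L [] 256 (Pf.C 3 642))
 (Pq.cons (Pq.L [] 39360 (Pf.C 0 0x814103))
 Pq.nil))))) (Pq.cons (Pq.L [] 128 (Pf.C 3 514))
 (Pq.cons (Pq.D 4 (Pq.cons (Pq.L [] 256 (Pf.C 132 261))
 (Pq.cons (Pq.L [] 39360 (Pf.C 0 0xa10103))
 (Pq.cons (Pq.L [] 256 (Pf.C 3 642))
 (Pq.cons (Pq.L [] 39360 (Pf.C 0 0xa0c104))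
 Pq.nil))))) Pq.nil))))) (Pq.cons (Pq.L [] 64 (Pf.C 3 386))
 (Pq.cons (Pq.D 3 (Pq.cons (Pq.L [] 128 (Pf.C 132 260))
 (Pq.cons (Pq.D 4 (Pq.cons (Pq.L [] 256 (Pf.C 132 261))
 (Pq.cons (Pq.L [] 39360 (Pf.C 0 0xa0c104))
 (Pq.cons (Pq.L [] 256 (Pf.C 3 642))
 (Pq.cons (Pq.L [] 39360 (Pf.C 0 0xa10103))
 Pq.nil))))) (Pq.cons (Pq.L [] 128 (Pf.C 3 514))
 (Pq.cons (Pq.D 4 (Pq.cons (Pq.L [] 256 (Pf.C 132 261))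
 (Pq.cons (Pq.L [] 39360 (Pf.C 0 0x814103))
 (Pq.cons (Pq.L [] 256 (Pf.C 3 642))
 (Pq.cons (Pq.D 5 (Pq.cons (Pq.L [] 0x40000 (Pf.C 4 773))
 (Pq.cons (Pq.L [] 0x40000 (Pf.C 119 646))
 (Pq.cons (Pq.D 6 (Pq.cons (Pq.L [] 0x100000 (Pf.C 132 775))
 (Pq.cons (Pq.L [0] 0x1c8780 (Pf.W 140 7 [] [0,1,2,3,4,5,6] (Pf.cons (Pf.B 8 6 (Pf.B 8 5 (Pf.B 8 2 (Pf.T 8 9 (Pf.cons (Pf.W 146 2 [] [0,1,3,4,5,6,7,8] (Pf.cons (Pf.B 9 5 (Pf.C 119 649) (Pf.B 9 4 (Pf.C 119 521) (Pf.C 0 0xa08484))) (Pf.cons (Pf.B 9 7 (Pf.C 5 0x24107) (Pf.B 9 5 (Pf.B 9 6 (Pf.B 9 8 (Pf.B 9 4 (Pf.B 9 3 (Pf.B 9 1 (Pf.W 150 9 [] [0,6,7,8] (Pf.cons (Pf.B 10 8 (Pf.B 10 7 (Pf.B 10 6 (Pf.C 6 0x80028386) (Pf.C 3 778)) (Pf.C 0 0x24507)) (Pf.C 3 1034)) Pf.nil)) (Pf.C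 4 137)) (Pf.C 4 393)) (Pf.C 4 521)) (Pf.C 8 0x60a08409)) (Pf.C 0 0xa1c309)) (Pf.C 4 649))) Pf.nil))) (Pf.cons (Pf.C 171 904) Pf.nil))) (Pf.C 3 264)) (Pf.C 126 648)) (Pf.C 3 776)) (Pf.cons (Pf.B 8 6 (Pf.C 132 776) (Pf.B 8 5 (Pf.C 0 0xa1c308) (Pf.C 4 648))) Pf.nil))))
 (Pq.cons (Pq.L [] 0x136ef7 (Pf.C 1 0x202061c301))
 (Pq.cons (Pq.L [] 0x136ef7 (Pf.C 1 0x202061c301))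
 Pq.nil))))) (Pq.cons (Pq.L [] 0x40000 (Pf.C 4 773))
 Pq.nil))))) Pq.nil))))) Pq.nil))))) Pq.nil))))) (Pq.cons (Pq.D 2 (Pq.cons (Pq.L [] 64 (Pf.C 4 386))
 (Pq.cons (Pq.L [] 64 (Pf.C 119 259))
 (Pq.cons (Pq.D 3 (Pq.cons (Pq.L [] 128 (Pf.C 4 514))
 (Pq.cons (Pq.L [] 128 (Pf.C 119 260))
 (Pq.cons (Pq.D 4 (Pq.cons (Pq.L [] 256 (Pf.C 4 642))
 (Pq.cons (Pq.L [] 256 (Pf.C 119 261))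
 (Pq.cons (Pq.D 5 (Pq.cons (Pq.L [0] 0x5b81e (Pf.C 1 0x2060600085))
 (Pq.cons (Pq.D 6 (Pq.cons (Pq.L [] 0x1c0700 (Pf.C 0 0xe18282))
 (Pq.cons (Pq.L [] 0x100631 (Pf.C 0 0x41c301))
 (Pq.cons (Pq.L [0] 0x1c0000 (Pf.W 140 6 [] [0,5,7] (Pf.cons (Pf.B 8 7 (Pf.B 8 5 (Pf.C 6 0x70c14008) (Pf.C 3 648)) (Pf.C 3 904)) (Pf.cons (Pf.B 8 7 (Pf.C 132 904) (Pf.B 8 5 (Pf.C 132 648) (Pf.C 0 0xe18405))) Pf.nil))))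
 (Pq.cons (Pq.L [] 0x106000 (Pf.C 5 0x1c186))
 Pq.nil))))) (Pq.cons (Pq.L [] 0x40000 (Pf.C 3 773))
 (Pq.cons (Pq.D 6 (Pq.cons (Pq.L [] 0x100000 (Pf.C 4 902))
 (Pq.cons (Pq.L [] 0x106000 (Pf.C 5 98695))
 (Pq.cons (Pq.L [] 0x136ef7 (Pf.C 1 0x202061c301))
 (Pq.cons (Pq.L [] 0x136ef7 (Pf.C 1 0x202061c301))
 Pq.nil))))) Pq.nil))))) (Pq.cons (Pq.L [] 256 (Pf.C 4 642))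
 Pq.nil))))) (Pq.cons (Pq.L [] 128 (Pf.C 4 514))
 Pq.nil))))) (Pq.cons (Pq.L [] 64 (Pf.C 4 386))
 Pq.nil))))) Pq.nil))))) Pq.nil)))
theorem e4_o45 : AllRef e4_T e4_G30 (List.drop 1 (List.flatMap (splitP 0) (List.drop 1 (applyObl d_T 2 [129,135,138,141] [0,0,0,0] [(129,0x40000000000000000000000000000000000),(135,0x200000000000000000000000000000000000),(138,0x200000000000000000000000000000000),(141,0x8000000000000000000000000000000000)])))) :=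
  chkPq_sound e4_o45c _ (by decide +kernel)
noncomputable def e4_o46c : Pq := Pq.nil
theorem e4_o46 : AllRef e4_T e4_G31 (ptObl 126 PT.kid []) :=
  chkPq_sound e4_o46c _ (by decide +kernel)
noncomputable def e4_o47c : Pq := (Pq.cons (Pq.L [1] 0 (Pf.C 3 130))
 Pq.nil)
theorem e4_o47 : AllRef e4_T e4_G32 (ptObl 146 (PT.br 1 PT.kid PT.ref) []) :=
  chkPq_sound e4_o47c _ (by decide +kernel)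
noncomputable def e4_o48c : Pq := Pq.nil
theorem e4_o48 : AllRef e4_T e4_G33 (ptObl 129 (PT.br 1 PT.kid PT.kid) []) :=
  chkPq_sound e4_o48c _ (by decide +kernel)
noncomputable def e4_o49c : Pq := (Pq.cons (Pq.L [1] 0 (Pf.C 171 257))
 Pq.nil)
theorem e4_o49 : AllRef e4_T e4_G34 (ptObl 135 (PT.br 1 PT.ref PT.kid) []) :=
  chkPq_sound e4_o49c _ (by decide +kernel)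
noncomputable def e4_o50c : Pq := (Pq.cons (Pq.L [1] 0 (Pf.C 3 130))
 Pq.nil)
theorem e4_o50 : AllRef e4_T e4_G35 (ptObl 138 (PT.br 1 PT.kid PT.ref) []) :=
  chkPq_sound e4_o50c _ (by decide +kernel)
noncomputable def e4_o51c : Pq := (Pq.cons (Pq.L [1] 0 (Pf.C 126 257))
 Pq.nil)
theorem e4_o51 : AllRef e4_T e4_G36 (ptObl 141 (PT.br 1 PT.kid PT.ref) []) :=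
  chkPq_sound e4_o51c _ (by decide +kernel)
noncomputable def e4_o52c : Pq := (Pq.cons (Pq.L [] 0 (Pf.X 1 2))
 (Pq.cons (Pq.L [] 1 (Pf.C 126 386))
 (Pq.cons (Pq.L [] 1 (Pf.C 4 386))
 (Pq.cons (Pq.L [] 1 (Pf.C 4 386))
 (Pq.cons (Pq.L [] 1 (Pf.C 119 386))
 (Pq.cons (Pq.L [0,1] 1 (Pf.W 146 2 [] [0,1,3] (Pf.cons (Pf.B 4 3 (Pf.C 119 388) (Pf.W 140 4 [] [0,1,2,3] (Pf.cons (Pf.W 179 1 [] [0,2,3,4] (Pf.cons (Pf.B 5 3 (Pf.B 5 2 (Pf.C 132 261) (Pf.B 5 4 (Pf.T 5 13 (Pf.cons (Pf.W 173 5 [] [0,1,2,3,4] (Pf.cons (Pf.B 6 4 (Pf.B 6 3 (Pf.C 119 390) (Pf.B 6 2 (Pf.B 6 1 (Pf.C 171 769) (Pf.C 6 0x218202)) (Pf.C 0 0x80c106))) (Pf.C 2 518)) Pf.nil)) Pf.nil)) (Pf.C 0 0x608205))) (Pf.C 4 389)) Pf.nil)) (Pf.cons (Pf.B 5 2 (Pf.B 5 1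 (Pf.W 179 1 [] [0,2,3,4,5] (Pf.cons (Pf.B 6 3 (Pf.B 6 2 (Pf.C 132 262) (Pf.B 6 4 (Pf.T 6 13 (Pf.cons (Pf.T 5 9 (Pf.cons (Pf.W 173 6 [] [0,1,2,3,4,5] (Pf.cons (Pf.B 7 4 (Pf.B 7 3 (Pf.C 119 391) (Pf.B 7 2 (Pf.B 7 5 (Pf.B 7 1 (Pf.C 171 897) (Pf.W 9 81927 [] [1,4,6] (Pf.cons (Pf.B 8 6 (Pf.B 8 5 (Pf.C 5 0x20287) (Pf.B 8 4 (Pf.T 8 2 (Pf.cons (Pf.W 11 0xa18007 [8] [1] (Pf.cons (Pf.B 9 8 (Pf.B 9 6 (Pf.C 7 0x80024386) (Pf.C 4 777)) (Pf.C 4 1033)) (Pf.cons (Pf.B 9 6 (Pf.C 5 99456) (Pf.B 9 1 (Pf.C 0 0x21c309) (Pf.C 3 137))) Pf.nil))) (Pf.cons (Pf.C 126 1029) (Pf.cons (Pf.C 119 1028) (Pf.cons (Pf.C 119 1028) (Pf.cons (Pf.C 119 1028) Pf.nil)))))) (Pf.C 7 0x1010386))) (Pf.C 4 776)) (Pf.cons (Pf.B 8 6 (Pf.C 5 99328) (Pf.B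 8 1 (Pf.C 0 0x21c308) (Pf.C 3 136))) Pf.nil)))) (Pf.C 6 0xa1c202)) (Pf.C 0 0x80c107))) (Pf.C 2 519)) Pf.nil)) (Pf.cons (Pf.W 173 6 [] [0,2,3,4,5] (Pf.cons (Pf.B 7 5 (Pf.C 171 901) (Pf.B 7 4 (Pf.B 7 3 (Pf.C 119 391) (Pf.B 7 2 (Pf.C 6 0xa1c202) (Pf.C 0 0x80c107))) (Pf.C 2 519))) Pf.nil)) Pf.nil))) Pf.nil)) (Pf.C 0 0x608206))) (Pf.C 4 390)) Pf.nil)) (Pf.C 3 133)) (Pf.C 3 261)) (Pf.cons (Pf.B 5 3 (Pf.B 5 2 (Pf.C 132 261) (Pf.C 0 0x610105)) (Pf.C 4 389)) Pf.nil))))) (Pf.cons (Pf.B 4 3 (Pf.W 150 4 [] [0,1,2,3] (Pf.cons (Pf.W 179 1 [] [0,2,3,4] (Pf.cons (Pf.B 5 4 (Pf.B 5 3 (Pf.B 5 2 (Pf.C 132 261) (Pf.T 5 13 (Pf.cons (Pf.W 173 5 [] [0,1,2,3,4] (Pf.cons (Pf.B 6 3 (Pf.C 119 390) (Pf.B 6 2 (Pf.B 6 4 (Pf.C 5 65798) (Pf.B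 6 1 (Pf.C 171 769) (Pf.C 0 65670))) (Pf.C 0 0xa08303))) Pf.nil)) Pf.nil))) (Pf.C 4 389)) (Pf.C 4 517)) Pf.nil)) (Pf.cons (Pf.B 5 3 (Pf.B 5 2 (Pf.B 5 1 (Pf.B 4 1 (Pf.W 179 1 [] [0,2,3,4,5] (Pf.cons (Pf.B 6 4 (Pf.B 6 3 (Pf.B 6 2 (Pf.C 132 262) (Pf.B 6 5 (Pf.C 8 0x30418205) (Pf.T 6 13 (Pf.cons (Pf.T 5 9 (Pf.cons (Pf.W 173 6 [] [0,1,2,3,4,5] (Pf.cons (Pf.B 7 3 (Pf.C 119 391) (Pf.B 7 2 (Pf.B 7 4 (Pf.C 5 65799) (Pf.B 7 5 (Pf.B 7 1 (Pf.C 171 897) (Pf.W 9 81927 [] [1,4,6] (Pf.cons (Pf.B 8 5 (Pf.C 5 0x20287) (Pf.B 8 4 (Pf.C 0 0x814008) (Pf.C 4 520))) (Pf.cons (Pf.B 8 6 (Pf.C 5 99328) (Pf.B 8 1 (Pf.C 0 0x21c308) (Pf.C 3 136))) Pf.nil)))) (Pf.C 0 66183))) (Pf.C 0 0xc08383))) Pf.nil)) (Pf.cons (Pf.W 173 6 [] [0,2,4,5]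 (Pf.cons (Pf.B 7 5 (Pf.C 171 901) (Pf.B 7 4 (Pf.B 7 2 (Pf.C 5 65799) (Pf.C 0 0xa18382)) (Pf.C 0 82439))) Pf.nil)) Pf.nil))) Pf.nil)))) (Pf.C 4 390)) (Pf.C 4 518)) Pf.nil)) (Pf.C 0 0xa00201)) (Pf.C 3 133)) (Pf.C 3 261)) (Pf.C 126 389)) Pf.nil))) (Pf.C 4 388)) Pf.nil))))
 Pq.nil))))))
theorem e4_o52 : AllRef e4_T e4_G37 (closeObl (e4_T.sc.get 1) false [147,148,149,150,151,152] [0,1,1,3,4,5] [1] [0] 31) :=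
  chkPq_sound e4_o52c _ (by decide +kernel)
noncomputable def e4_o53c : Pq := (Pq.cons (Pq.L [] 0 (Pf.X 1 2))
 (Pq.cons (Pq.L [1] 1 (Pf.W 173 2 [] [1,3] (Pf.cons (Pf.B 4 3 (Pf.C 171 515) (Pf.B 4 1 (Pf.C 171 513) (Pf.C 0 0x608201))) Pf.nil)))
 (Pq.cons (Pq.L [] 1 (Pf.C 171 259))
 (Pq.cons (Pq.L [] 0 (Pf.X 1 2))
 (Pq.cons (Pq.L [] 1 (Pf.C 4 386))
 (Pq.cons (Pq.L [0] 1 (Pf.W 180 2 [] [0,3] (Pf.cons (Pf.B 4 3 (Pf.W 10 49154 [] [4] (Pf.cons (Pf.B 5 4 (Pf.B 5 3 (Pf.C 7 0x4040c005) (Pf.C 4 389)) (Pf.C 4 517)) (Pf.cons (Pf.B 5 4 (Pf.C 5 66176) (Pf.B 5 3 (Pf.C 5 49792) (Pf.C 0 0x808283))) Pf.nil))) (Pf.C 4 388)) Pf.nil)))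
 (Pq.cons (Pq.L [] 0 (Pf.X 1 2))
 (Pq.cons (Pq.L [] 1 (Pf.C 181 259))
 (Pq.cons (Pq.L [] 1 (Pf.C 2 386))
 (Pq.cons (Pq.L [] 0 (Pf.X 1 2))
 (Pq.cons (Pq.L [] 1 (Pf.C 132 386))
 (Pq.cons (Pq.L [1] 1 (Pf.W 180 2 [] [1,3] (Pf.cons (Pf.B 4 3 (Pf.C 132 388) (Pf.C 0 0x208203)) Pf.nil)))
 Pq.nil))))))))))))
theorem e4_o53 : AllRef e4_T e4_G39 (closeObl (e4_T.sc.get 1) false [147,148,149,153,154,151] [0,1,1,3,3,4] [1] [0] 12) :=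
  chkPq_sound e4_o53c _ (by decide +kernel)
noncomputable def e4_o54c : Pq := (Pq.cons (Pq.L [] 0 (Pf.T 2 17 (Pf.cons (Pf.W 180 2 [] [] (Pf.cons (Pf.C 182 386) Pf.nil)) Pf.nil)))
 Pq.nil)
theorem e4_o54 : AllRef e4_T e4_G41 (List.map pat1 [156]) :=
  chkPq_sound e4_o54c _ (by decide +kernel)
noncomputable def e4_o55c : Pq := (Pq.cons (Pq.D 0 (Pq.cons (Pq.D 1 (Pq.cons (Pq.L [] 1 (Pf.C 4 386))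
 (Pq.cons (Pq.D 2 (Pq.cons (Pq.L [] 2 (Pf.C 4 514))
 (Pq.cons (Pq.L [1] 3 (Pf.B 4 3 (Pf.C 0 0x608084) (Pf.C 2 388)))
 Pq.nil))) Pq.nil))) (Pq.cons (Pq.D 1 (Pq.cons (Pq.D 2 (Pq.cons (Pq.L [1] 3 (Pf.B 4 3 (Pf.C 0 0x608084) (Pf.C 4 388)))
 (Pq.cons (Pq.L [] 2 (Pf.C 2 514))
 Pq.nil))) (Pq.cons (Pq.L [] 1 (Pf.C 2 386))
 Pq.nil))) Pq.nil))) Pq.nil)
theorem e4_o55 : AllRef e4_T e4_G42 (applyObl TD2 1 [149,150] [0,0] []) :=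
  chkPq_sound e4_o55c _ (by decide +kernel)
noncomputable def e4_o56c : Pq := Pq.nil
theorem e4_o56 : AllRef e4_T e4_G29 (ptObl 126 (PT.br 1 PT.kid PT.kid) []) :=
  chkPq_sound e4_o56c _ (by decide +kernel)
noncomputable def e4_o57c : Pq := (Pq.cons (Pq.L [1] 0 (Pf.C 4 130))
 Pq.nil)
theorem e4_o57 : AllRef e4_T e4_G43 (ptObl 129 (PT.br 1 PT.kid PT.ref) []) :=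
  chkPq_sound e4_o57c _ (by decide +kernel)
noncomputable def e4_o58c : Pq := Pq.nil
theorem e4_o58 : AllRef e4_T e4_G44 (ptObl 132 PT.kid []) :=
  chkPq_sound e4_o58c _ (by decide +kernel)
noncomputable def e4_o59c : Pq := (Pq.cons (Pq.L [1] 0 (Pf.C 4 130))
 Pq.nil)
theorem e4_o59 : AllRef e4_T e4_G45 (ptObl 160 (PT.br 1 PT.kid PT.ref) []) :=
  chkPq_sound e4_o59c _ (by decide +kernel)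
noncomputable def e4_o60c : Pq := (Pq.cons (Pq.L [1] 0 (Pf.C 174 257))
 Pq.nil)
theorem e4_o60 : AllRef e4_T e4_G46 (ptObl 135 (PT.br 1 PT.kid PT.ref) []) :=
  chkPq_sound e4_o60c _ (by decide +kernel)
noncomputable def e4_o61c : Pq := (Pq.cons (Pq.L [1] 0 (Pf.C 132 257))
 Pq.nil)
theorem e4_o61 : AllRef e4_T e4_G47 (ptObl 138 (PT.br 1 PT.ref PT.kid) []) :=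
  chkPq_sound e4_o61c _ (by decide +kernel)
noncomputable def e4_o62c : Pq := (Pq.cons (Pq.L [1] 0 (Pf.C 4 130))
 Pq.nil)
theorem e4_o62 : AllRef e4_T e4_G48 (ptObl 141 (PT.br 1 PT.kid PT.ref) []) :=
  chkPq_sound e4_o62c _ (by decide +kernel)
noncomputable def e4_o63c : Pq := (Pq.cons (Pq.L [] 0 (Pf.X 1 2))
 (Pq.cons (Pq.L [] 1 (Pf.C 3 386))
 (Pq.cons (Pq.L [] 1 (Pf.C 3 386))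
 (Pq.cons (Pq.L [] 1 (Pf.W 183 2 [] [3] (Pf.cons (Pf.B 4 3 (Pf.W 173 2 [] [3,4] (Pf.cons (Pf.B 5 4 (Pf.C 171 644) (Pf.B 5 3 (Pf.C 171 643) (Pf.C 0 0x808283))) Pf.nil)) (Pf.C 3 388)) Pf.nil)))
 (Pq.cons (Pq.L [] 1 (Pf.C 188 259))
 (Pq.cons (Pq.L [] 1 (Pf.C 171 259))
 (Pq.cons (Pq.L [] 0 (Pf.X 1 2))
 (Pq.cons (Pq.L [] 1 (Pf.C 184 259))
 (Pq.cons (Pq.L [1] 1 (Pf.W 187 2 [] [1,3] (Pf.cons (Pf.B 4 3 (Pf.W 185 4 [] [1,2,3] (Pf.cons (Pf.B 5 3 (Pf.B 5 2 (Pf.C 8 0x30404205) (Pf.C 3 261)) (Pf.C 184 643)) Pf.nil)) (Pf.C 4 388)) Pf.nil)))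
 (Pq.cons (Pq.L [] 1 (Pf.C 4 386))
 (Pq.cons (Pq.L [] 1 (Pf.C 4 386))
 (Pq.cons (Pq.L [0] 1 (Pf.W 189 2 [] [0,3] (Pf.cons (Pf.B 4 3 (Pf.W 10 49154 [] [4] (Pf.cons (Pf.B 5 4 (Pf.B 5 3 (Pf.C 7 0x4040c005) (Pf.C 4 389)) (Pf.C 4 517)) (Pf.cons (Pf.B 5 4 (Pf.C 5 66176) (Pf.B 5 3 (Pf.C 5 49792) (Pf.C 0 0x808283))) Pf.nil))) (Pf.C 4 388)) Pf.nil)))
 (Pq.cons (Pq.L [] 0 (Pf.X 1 2))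
 (Pq.cons (Pq.L [] 1 (Pf.C 186 259))
 (Pq.cons (Pq.L [1] 1 (Pf.W 187 2 [] [1,3] (Pf.cons (Pf.B 4 3 (Pf.W 185 4 [] [1,2,3] (Pf.cons (Pf.B 5 3 (Pf.B 5 2 (Pf.C 8 0x30404205) (Pf.C 3 261)) (Pf.C 186 643)) Pf.nil)) (Pf.C 4 388)) Pf.nil)))
 (Pq.cons (Pq.L [] 1 (Pf.C 4 386))
 (Pq.cons (Pq.L [] 1 (Pf.C 4 386))
 (Pq.cons (Pq.L [] 1 (Pf.C 174 259))
 (Pq.cons (Pq.L [] 0 (Pf.X 1 2))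
 (Pq.cons (Pq.L [] 1 (Pf.C 171 386))
 (Pq.cons (Pq.L [] 1 (Pf.C 171 386))
 (Pq.cons (Pq.L [] 1 (Pf.C 190 259))
 (Pq.cons (Pq.L [] 1 (Pf.C 174 386))
 (Pq.cons (Pq.L [] 1 (Pf.C 2 386))
 (Pq.cons (Pq.L [] 0 (Pf.X 1 2))
 (Pq.cons (Pq.L [] 1 (Pf.C 3 386))
 (Pq.cons (Pq.L [] 1 (Pf.C 3 386))
 (Pq.cons (Pq.L [] 1 (Pf.C 132 386))
 (Pq.cons (Pq.L [] 1 (Pf.C 132 386))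
 (Pq.cons (Pq.L [] 1 (Pf.W 189 2 [] [3] (Pf.cons (Pf.B 4 3 (Pf.C 132 388) (Pf.W 183 4 [] [2,3] (Pf.cons (Pf.B 5 3 (Pf.B 5 2 (Pf.C 171 261) (Pf.C 0 0x610105)) (Pf.C 3 389)) Pf.nil))) Pf.nil)))
 (Pq.cons (Pq.L [] 0 (Pf.X 1 2))
 (Pq.cons (Pq.L [] 1 (Pf.C 126 386))
 (Pq.cons (Pq.L [] 1 (Pf.C 126 386))
 (Pq.cons (Pq.L [] 1 (Pf.C 4 386))
 (Pq.cons (Pq.L [] 1 (Pf.C 4 386))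
 (Pq.cons (Pq.L [] 1 (Pf.C 119 386))
 Pq.nil))))))))))))))))))))))))))))))))))))
theorem e4_o63 : AllRef e4_T e4_G53 (closeObl (e4_T.sc.get 1) false [157,169,170,165,166,167,168,171,172,163,164] [0,0,0,1,1,2,2,3,3,4,5] [1] [2] 171) :=
  chkPq_sound e4_o63c _ (by decide +kernel)
noncomputable def e4_o64c : Pq := (Pq.cons (Pq.L [] 0 (Pf.X 1 2))
 (Pq.cons (Pq.L [] 1 (Pf.C 3 386))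
 (Pq.cons (Pq.L [] 1 (Pf.C 3 386))
 (Pq.cons (Pq.L [] 1 (Pf.C 194 259))
 (Pq.cons (Pq.L [] 0 (Pf.X 1 2))
 (Pq.cons (Pq.L [1] 1 (Pf.T 3 26 (Pf.cons (Pf.W 193 2 [] [1,3] (Pf.cons (Pf.B 4 3 (Pf.T 4 27 (Pf.cons (Pf.W 191 4 [] [1,2,3] (Pf.cons (Pf.B 5 2 (Pf.B 5 3 (Pf.C 8 0x4040c085) (Pf.W 173 3 [] [2,5] (Pf.cons (Pf.B 6 5 (Pf.C 171 773) (Pf.B 6 2 (Pf.C 171 770) (Pf.C 0 0xa0c302))) Pf.nil))) (Pf.C 3 261)) Pf.nil)) Pf.nil)) (Pf.C 4 388)) Pf.nil)) Pf.nil)))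
 (Pq.cons (Pq.L [] 1 (Pf.T 2 28 (Pf.cons (Pf.T 3 26 (Pf.cons (Pf.W 183 3 [] [2] (Pf.cons (Pf.B 4 2 (Pf.W 173 3 [] [2,4] (Pf.cons (Pf.B 5 4 (Pf.C 171 644) (Pf.B 5 2 (Pf.C 171 642) (Pf.C 0 0x80c282))) Pf.nil)) (Pf.C 3 260)) Pf.nil)) Pf.nil)) Pf.nil)))
 (Pq.cons (Pq.L [] 1 (Pf.C 4 386))
 (Pq.cons (Pq.L [] 0 (Pf.X 1 2))
 (Pq.cons (Pq.L [1] 1 (Pf.T 3 27 (Pf.cons (Pf.W 185 3 [] [1,2] (Pf.cons (Pf.B 4 2 (Pf.W 193 2 [] [1,3,4] (Pf.cons (Pf.B 5 3 (Pf.B 5 4 (Pf.W 191 5 [] [2,3,4] (Pf.cons (Pf.B 6 4 (Pf.B 6 3 (Pf.C 192 771) (Pf.B 6 2 (Pf.C 8 0x40618282) (Pf.C 3 262))) (Pf.C 3 518)) Pf.nil)) (Pf.W 191 5 [] [1,2,4] (Pf.cons (Pf.B 6 4 (Pf.B 6 2 (Pf.C 8 0x40a08086) (Pf.C 3 262)) (Pf.C 3 518)) Pf.nil))) (Pf.C 4 389)) Pf.nil))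 (Pf.C 3 260)) Pf.nil)) Pf.nil)))
 (Pq.cons (Pq.L [] 1 (Pf.C 192 259))
 (Pq.cons (Pq.L [] 1 (Pf.C 4 386))
 (Pq.cons (Pq.L [] 0 (Pf.X 1 2))
 (Pq.cons (Pq.L [] 1 (Pf.C 171 386))
 (Pq.cons (Pq.L [] 1 (Pf.C 171 386))
 (Pq.cons (Pq.L [] 1 (Pf.C 174 386))
 Pq.nil))))))))))))))))
theorem e4_o64 : AllRef e4_T e4_G56 (closeObl (e4_T.sc.get 1) true [175,176,158,159,173,174,162] [0,0,0,1,2,2,3] [1] [2] 21) :=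
  chkPq_sound e4_o64c _ (by decide +kernel)
noncomputable def e4_o65c : Pq := (Pq.cons (Pq.D 0 (Pq.cons (Pq.D 1 (Pq.cons (Pq.L [] 1 (Pf.C 3 386))
 (Pq.cons (Pq.L [] 1 (Pf.C 3 386))
 (Pq.cons (Pq.D 2 (Pq.cons (Pq.L [] 2 (Pf.C 3 514))
 (Pq.cons (Pq.L [] 2 (Pf.C 3 514))
 (Pq.cons (Pq.L [] 4 (Pf.C 4 515))
 Pq.nil)))) Pq.nil)))) (Pq.cons (Pq.D 1 (Pq.cons (Pq.L [] 1 (Pf.C 3 386))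
 (Pq.cons (Pq.L [] 1 (Pf.C 3 386))
 (Pq.cons (Pq.D 2 (Pq.cons (Pq.L [] 2 (Pf.C 3 514))
 (Pq.cons (Pq.L [] 2 (Pf.C 3 514))
 (Pq.cons (Pq.L [] 4 (Pf.C 4 515))
 Pq.nil)))) Pq.nil)))) (Pq.cons (Pq.D 1 (Pq.cons (Pq.D 2 (Pq.cons (Pq.L [0] 7 (Pf.C 0 65922))
 (Pq.cons (Pq.L [0] 7 (Pf.C 0 65922))
 (Pq.cons (Pq.L [] 2 (Pf.C 4 514))
 Pq.nil)))) (Pq.cons (Pq.D 2 (Pq.cons (Pq.L [0] 7 (Pf.C 0 65922))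
 (Pq.cons (Pq.L [0] 7 (Pf.C 0 65922))
 (Pq.cons (Pq.L [] 2 (Pf.C 4 514))
 Pq.nil)))) (Pq.cons (Pq.L [] 1 (Pf.C 4 386))
 Pq.nil)))) Pq.nil)))) (Pq.cons (Pq.L [] 0x136ef7 (Pf.C 1 0x2830820382))
 Pq.nil))
theorem e4_o65 : AllRef e4_T e4_G57 (applyObl d_T 2 [157,158,161] [0,0,0] []) :=
  chkPq_sound e4_o65c _ (by decide +kernel)
noncomputable def e4_o66c : Pq := (Pq.cons (Pq.L [0] 0 (Pf.W 150 1 [] [0] (Pf.cons (Pf.T 2 9 (Pf.cons (Pf.W 176 0 [] [0,1,2] (Pf.cons (Pf.B 3 2 (Pf.B 3 1 (Pf.W 151 3 [] [0,1,2] (Pf.cons (Pf.B 4 2 (Pf.C 5 49412) (Pf.B 4 1 (Pf.W 140 4 [] [0,1,3] (Pf.cons (Pf.B 5 3 (Pf.C 5 49796) (Pf.C 126 389)) (Pf.cons (Pf.B 5 3 (Pf.B 5 1 (Pf.C 7 0x30004205) (Pf.C 4 133)) (Pf.C 4 389)) Pf.nil))) (Pf.C 0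 32900))) Pf.nil)) (Pf.C 4 131)) (Pf.C 126 386)) Pf.nil)) (Pf.cons (Pf.C 172 130) Pf.nil))) Pf.nil)))
 (Pq.cons (Pq.L [0] 0 (Pf.W 152 1 [] [0] (Pf.cons (Pf.W 146 2 [] [0,1] (Pf.cons (Pf.B 3 1 (Pf.C 119 131) (Pf.W 140 3 [] [1,2] (Pf.cons (Pf.W 176 0 [] [1,2,3,4] (Pf.cons (Pf.B 5 4 (Pf.B 5 3 (Pf.C 5 82435) (Pf.B 5 1 (Pf.B 5 2 (Pf.W 151 5 [] [1,2,3] (Pf.cons (Pf.B 6 3 (Pf.B 6 2 (Pf.C 5 82182) (Pf.B 6 1 (Pf.C 119 134) (Pf.C 0 0x608086))) (Pf.C 2 390)) Pf.nil)) (Pf.C 0 0x20c105)) (Pf.C 4 133))) (Pf.C 126 644)) Pf.nil)) (Pf.cons (Pf.B 4 2 (Pf.C 132 260) (Pf.B 4 1 (Pf.C 0 0x20c104) (Pf.C 4 132))) Pf.nil)))) (Pf.cons (Pf.B 3 1 (Pf.W 150 3 [] [0,1] (Pf.cons (Pf.W 176 0 [] [0,1,3,4] (Pf.cons (Pf.B 5 4 (Pf.B 5 3 (Pf.B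 5 1 (Pf.W 151 5 [] [0,1,3,4] (Pf.cons (Pf.B 6 4 (Pf.C 5 82438) (Pf.B 6 3 (Pf.B 6 1 (Pf.C 119 134) (Pf.W 140 6 [] [0,3,5] (Pf.cons (Pf.B 7 5 (Pf.C 5 82822) (Pf.C 126 647)) (Pf.cons (Pf.B 7 5 (Pf.B 7 3 (Pf.C 7 0x5000c307) (Pf.C 4 391)) (Pf.C 4 647)) Pf.nil)))) (Pf.C 0 65926))) Pf.nil)) (Pf.C 4 133)) (Pf.C 4 389)) (Pf.C 126 644)) Pf.nil)) Pf.nil)) (Pf.C 4 131)) Pf.nil))) Pf.nil)))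
 (Pq.cons (Pq.L [0] 0 (Pf.W 143 1 [] [0] (Pf.cons (Pf.W 152 2 [] [0,1] (Pf.cons (Pf.B 3 1 (Pf.C 129 131) (Pf.W 146 3 [] [0,1,2] (Pf.cons (Pf.B 4 2 (Pf.C 119 260) (Pf.B 4 1 (Pf.C 0 0x20c104) (Pf.C 2 132))) (Pf.cons (Pf.B 4 2 (Pf.B 4 1 (Pf.W 150 4 [] [0,1,2,3] (Pf.cons (Pf.B 5 3 (Pf.B 5 2 (Pf.W 176 0 [] [0,1,2,3,4,5] (Pf.cons (Pf.B 6 5 (Pf.B 6 4 (Pf.B 6 2 (Pf.B 6 3 (Pf.B 6 1 (Pf.W 151 6 [] [0,1,2,3,4,5] (Pf.cons (Pf.B 7 5 (Pf.C 5 98951) (Pf.B 7 4 (Pf.B 7 3 (Pf.C 5 65927) (Pf.B 7 2 (Pf.C 119 263) (Pf.B 7 1 (Pf.C 0 0x20c107) (Pf.C 2 135)))) (Pf.C 0 82439))) Pf.nil)) (Pf.C 137 134)) (Pf.C 8 0x20618284)) (Pf.C 4 262)) (Pf.C 4 518)) (Pf.C 126 773)) Pf.nil)) (Pf.C 126 261)) (Pf.C 3 389)) Pf.nil)) (Pf.C 135 132)) (Pf.C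 4 260)) Pf.nil)))) Pf.nil)) Pf.nil)))
 Pq.nil)))
theorem e4_o66 : AllRef e4_T e4_G20 (List.map pat1 [114,92,77]) :=
  chkPq_sound e4_o66c _ (by decide +kernel)
noncomputable def e4_o67c : Pq := (Pq.cons (Pq.L [] 1 (Pf.C 3 257))
 (Pq.cons (Pq.L [0] 3 (Pf.B 3 2 (Pf.W 173 1 [] [0,2,3] (Pf.cons (Pf.B 4 3 (Pf.B 4 2 (Pf.W 9 32772 [] [3] (Pf.cons (Pf.B 5 3 (Pf.C 5 82308) (Pf.B 5 2 (Pf.C 5 82180) (Pf.C 0 0x600282))) (Pf.cons (Pf.B 5 3 (Pf.B 5 2 (Pf.C 6 0x30008205) (Pf.C 3 261)) (Pf.C 3 389)) Pf.nil))) (Pf.W 170 2 [] [0,1,3,4] (Pf.cons (Pf.B 5 4 (Pf.B 5 3 (Pf.B 5 1 (Pf.C 5 16773) (Pf.W 9 32773 [] [3] (Pf.cons (Pf.B 6 3 (Pf.C 5 98693) (Pf.B 6 2 (Pf.C 5 98565) (Pf.C 0 0x600302))) (Pf.cons (Pf.B 6 3 (Pf.B 6 2 (Pf.C 6 0x30008286)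 (Pf.C 3 262)) (Pf.C 3 390)) Pf.nil)))) (Pf.W 9 49156 [] [1,2,5] (Pf.cons (Pf.B 6 3 (Pf.C 5 98692) (Pf.B 6 5 (Pf.B 6 2 (Pf.C 5 98565) (Pf.C 0 0x600302)) (Pf.C 0 49925))) (Pf.cons (Pf.B 6 2 (Pf.B 6 1 (Pf.C 5 17152) (Pf.C 0 0x410086)) (Pf.C 3 262)) Pf.nil)))) (Pf.C 2 517)) Pf.nil))) (Pf.B 4 2 (Pf.W 170 3 [] [0,1,2,4] (Pf.cons (Pf.B 5 4 (Pf.B 5 1 (Pf.C 5 16773) (Pf.B 5 2 (Pf.W 9 32773 [] [3,4] (Pf.cons (Pf.B 6 3 (Pf.C 5 98693) (Pf.B 6 4 (Pf.B 6 2 (Pf.C 5 98564) (Pf.C 0 0x600302)) (Pf.C 0 49924))) (Pf.cons (Pf.B 6 3 (Pf.B 6 2 (Pf.C 6 0x30008286) (Pf.C 3 262)) (Pf.C 3 390)) Pf.nil))) (Pf.W 9 32772 [] [1,3,5] (Pf.cons (Pf.B 6 2 (Pf.C 5 98564) (Pf.B 6 5 (Pf.B 6 3 (Pf.C 5 98693) (Pf.C 0 0x400303)) (Pf.C 0 33541))) (Pf.cons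 (Pf.B 6 2 (Pf.B 6 5 (Pf.C 6 0x414206) (Pf.B 6 1 (Pf.C 5 17152) (Pf.C 0 0x414086))) (Pf.C 3 262)) Pf.nil))))) (Pf.C 2 517)) Pf.nil)) (Pf.W 170 2 [] [0,1,3,4] (Pf.cons (Pf.B 5 3 (Pf.B 5 1 (Pf.C 5 16773) (Pf.W 9 32773 [] [3] (Pf.cons (Pf.B 6 3 (Pf.C 5 98693) (Pf.B 6 2 (Pf.C 5 98565) (Pf.C 0 0x600302))) (Pf.cons (Pf.B 6 3 (Pf.B 6 2 (Pf.C 6 0x30008286) (Pf.C 3 262)) (Pf.C 3 390)) Pf.nil)))) (Pf.W 170 3 [] [0,1,2,4,5] (Pf.cons (Pf.B 6 5 (Pf.B 6 4 (Pf.B 6 1 (Pf.C 5 16774) (Pf.B 6 2 (Pf.W 9 32774 [] [3,5] (Pf.cons (Pf.B 7 3 (Pf.C 5 0x1c186) (Pf.B 7 5 (Pf.B 7 2 (Pf.C 5 0x1c105) (Pf.C 0 0x600382)) (Pf.C 0 50053))) (Pf.cons (Pf.B 7 3 (Pf.B 7 2 (Pf.C 6 0x30008307) (Pf.C 3 263)) (Pf.C 3 391)) Pf.nil))) (Pf.C 0 0x804106)))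 (Pf.C 2 518)) (Pf.C 2 646)) Pf.nil))) Pf.nil)))) Pf.nil)) (Pf.C 3 259)))
 (Pq.cons (Pq.L [] 2 (Pf.B 3 2 (Pf.W 170 3 [] [1] (Pf.cons (Pf.B 4 1 (Pf.C 5 16772) (Pf.C 174 513)) Pf.nil)) (Pf.C 3 259)))
 (Pq.cons (Pq.L [0] 3 (Pf.B 3 2 (Pf.W 170 2 [] [0,1,3] (Pf.cons (Pf.B 4 1 (Pf.B 4 3 (Pf.W 9 32772 [] [3] (Pf.cons (Pf.B 5 3 (Pf.C 5 82308) (Pf.B 5 2 (Pf.C 5 82180) (Pf.C 0 0x600282))) (Pf.cons (Pf.B 5 3 (Pf.B 5 2 (Pf.C 6 0x30008205) (Pf.C 3 261)) (Pf.C 3 389)) Pf.nil))) (Pf.W 9 49153 [] [2,4] (Pf.cons (Pf.B 5 3 (Pf.C 5 82305) (Pf.B 5 4 (Pf.B 5 2 (Pf.C 5 82180) (Pf.C 0 0x600282)) (Pf.C 0 49796))) (Pf.cons (Pf.B 5 3 (Pf.B 5 4 (Pf.C 6 0x610085) (Pf.T 5 1 (Pf.cons (Pf.W 176 0 [] [0,1,2,3,4,5] (Pf.cons (Pf.B 6 3 (Pf.B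 6 2 (Pf.B 6 4 (Pf.C 5 98564) (Pf.B 6 1 (Pf.C 5 98689) (Pf.B 6 5 (Pf.W 151 6 [] [0,1,2,3,4,5] (Pf.cons (Pf.B 7 5 (Pf.C 5 98951) (Pf.B 7 4 (Pf.B 7 3 (Pf.C 5 98695) (Pf.B 7 2 (Pf.C 5 98567) (Pf.B 7 1 (Pf.W 140 7 [] [0,4,5,6] (Pf.cons (Pf.B 8 6 (Pf.C 5 99335) (Pf.C 126 776)) (Pf.cons (Pf.B 8 6 (Pf.B 8 5 (Pf.C 132 648) (Pf.B 8 4 (Pf.C 7 0xc10388) (Pf.C 0 0xe14404))) (Pf.C 4 776)) Pf.nil))) (Pf.C 2 135)))) (Pf.C 2 519))) Pf.nil)) (Pf.C 0 0x814301)))) (Pf.C 126 770)) (Pf.C 126 771)) Pf.nil)) (Pf.cons (Pf.C 120 641) (Pf.cons (Pf.C 120 641) Pf.nil))))) (Pf.C 3 389)) Pf.nil)))) (Pf.C 2 132)) Pf.nil)) (Pf.C 3 259)))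
 (Pq.cons (Pq.L [] 1 (Pf.C 3 257))
 (Pq.cons (Pq.L [] 1 (Pf.C 126 130))
 Pq.nil))))))
theorem e4_o67 : AllRef e4_T e4_G58 (splitObl [116] [117,118,119,111,113,115]) :=
  chkPq_sound e4_o67c _ (by decide +kernel)
noncomputable def e4_o68c : Pq := (Pq.cons (Pq.L [] 1 (Pf.C 3 257))
 Pq.nil)
theorem e4_o68 : AllRef e4_T e4_G58 (applyObl TD2 1 [116] [0] []) :=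
  chkPq_sound e4_o68c _ (by decide +kernel)
noncomputable def e4_o69c : Pq := (Pq.cons (Pq.L [] 1 (Pf.C 126 130))
 (Pq.cons (Pq.L [] 1 (Pf.C 4 257))
 (Pq.cons (Pq.L [] 1 (Pf.C 4 257))
 (Pq.cons (Pq.L [] 1 (Pf.C 196 257))
 (Pq.cons (Pq.L [] 2 (Pf.C 169 131))
 (Pq.cons (Pq.L [] 1 (Pf.C 4 257))
 Pq.nil))))))
theorem e4_o69 : AllRef e4_T e4_G59 (splitObl [117,118,119,111,113,177] [178]) :=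
  chkPq_sound e4_o69c _ (by decide +kernel)
noncomputable def e4_o70c : Pq := (Pq.cons (Pq.L [] 2 (Pf.C 3 385))
 (Pq.cons (Pq.L [] 4 (Pf.C 171 386))
 (Pq.cons (Pq.L [] 2 (Pf.C 3 385))
 (Pq.cons (Pq.L [] 2 (Pf.C 126 385))
 (Pq.cons (Pq.L [] 2 (Pf.C 4 385))
 (Pq.cons (Pq.L [] 2 (Pf.C 4 385))
 (Pq.cons (Pq.L [] 4 (Pf.C 132 386))
 (Pq.cons (Pq.L [] 2 (Pf.C 4 385))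
 (Pq.cons (Pq.L [] 2 (Pf.C 4 385))
 (Pq.cons (Pq.L [] 2 (Pf.C 4 385))
 (Pq.cons (Pq.L [] 2 (Pf.C 174 385))
 (Pq.cons (Pq.L [] 4 (Pf.C 132 386))
 (Pq.cons (Pq.L [] 2 (Pf.C 4 385))
 (Pq.cons (Pq.L [] 4 (Pf.C 171 259))
 (Pq.cons (Pq.L [] 2 (Pf.C 174 131))
 (Pq.cons (Pq.L [] 2 (Pf.C 2 385))
 (Pq.cons (Pq.L [] 2 (Pf.C 3 385))
 (Pq.cons (Pq.L [] 4 (Pf.C 132 259))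
 (Pq.cons (Pq.L [] 4 (Pf.C 132 259))
 (Pq.cons (Pq.L [] 2 (Pf.C 3 385))
 (Pq.cons (Pq.L [] 4 (Pf.C 169 386))
 (Pq.cons (Pq.L [] 2 (Pf.C 126 131))
 (Pq.cons (Pq.L [] 2 (Pf.C 4 385))
 (Pq.cons (Pq.L [] 2 (Pf.C 4 385))
 (Pq.cons (Pq.L [] 4 (Pf.C 169 259))
 (Pq.cons (Pq.L [] 2 (Pf.C 4 385))
 Pq.nil))))))))))))))))))))))))))
theorem e4_o70 : AllRef e4_T e4_G59 (twinObl [117,118,119,111,113,177] 0 [6,9,1,50,8,8]) :=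
  chkPq_sound e4_o70c _ (by decide +kernel)
noncomputable def e4_o71c : Pq := (Pq.cons (Pq.L [] 1 (Pf.C 3 257))
 (Pq.cons (Pq.L [] 1 (Pf.C 171 257))
 (Pq.cons (Pq.L [] 1 (Pf.C 3 257))
 (Pq.cons (Pq.L [] 1 (Pf.C 126 257))
 (Pq.cons (Pq.L [] 1 (Pf.C 4 257))
 (Pq.cons (Pq.L [] 1 (Pf.C 4 257))
 (Pq.cons (Pq.L [] 1 (Pf.C 132 257))
 (Pq.cons (Pq.L [] 1 (Pf.C 4 257))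
 (Pq.cons (Pq.L [] 1 (Pf.C 4 257))
 (Pq.cons (Pq.L [] 1 (Pf.C 4 257))
 (Pq.cons (Pq.L [] 1 (Pf.C 174 257))
 (Pq.cons (Pq.L [] 1 (Pf.C 132 257))
 (Pq.cons (Pq.L [] 1 (Pf.C 4 257))
 (Pq.cons (Pq.L [] 1 (Pf.C 171 130))
 (Pq.cons (Pq.L [] 1 (Pf.C 174 130))
 (Pq.cons (Pq.L [] 1 (Pf.C 2 257))
 (Pq.cons (Pq.L [] 1 (Pf.C 3 257))
 (Pq.cons (Pq.L [] 1 (Pf.C 132 130))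
 (Pq.cons (Pq.L [] 1 (Pf.C 132 130))
 (Pq.cons (Pq.L [] 1 (Pf.C 3 257))
 (Pq.cons (Pq.L [] 1 (Pf.C 169 257))
 (Pq.cons (Pq.L [] 1 (Pf.C 126 130))
 (Pq.cons (Pq.L [] 1 (Pf.C 4 257))
 (Pq.cons (Pq.L [] 1 (Pf.C 4 257))
 (Pq.cons (Pq.L [] 1 (Pf.C 169 130))
 (Pq.cons (Pq.L [] 1 (Pf.C 4 257))
 (Pq.cons (Pq.L [] 1 (Pf.C 3 257))
 (Pq.cons (Pq.L [] 1 (Pf.C 171 257))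
 (Pq.cons (Pq.L [] 1 (Pf.C 3 257))
 (Pq.cons (Pq.L [] 1 (Pf.C 126 257))
 (Pq.cons (Pq.L [] 1 (Pf.C 4 257))
 (Pq.cons (Pq.L [] 1 (Pf.C 4 257))
 (Pq.cons (Pq.L [] 1 (Pf.C 132 257))
 (Pq.cons (Pq.L [] 1 (Pf.C 4 257))
 (Pq.cons (Pq.L [] 1 (Pf.C 4 257))
 (Pq.cons (Pq.L [] 1 (Pf.C 4 257))
 (Pq.cons (Pq.L [] 1 (Pf.C 174 257))
 (Pq.cons (Pq.L [] 1 (Pf.C 132 257))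
 (Pq.cons (Pq.L [] 1 (Pf.C 4 257))
 (Pq.cons (Pq.L [] 1 (Pf.C 171 130))
 (Pq.cons (Pq.L [] 1 (Pf.C 174 130))
 (Pq.cons (Pq.L [] 1 (Pf.C 2 257))
 (Pq.cons (Pq.L [] 1 (Pf.C 3 257))
 (Pq.cons (Pq.L [] 1 (Pf.C 132 130))
 (Pq.cons (Pq.L [] 1 (Pf.C 132 130))
 (Pq.cons (Pq.L [] 1 (Pf.C 3 257))
 (Pq.cons (Pq.L [] 1 (Pf.C 169 257))
 (Pq.cons (Pq.L [] 1 (Pf.C 126 130))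
 (Pq.cons (Pq.L [] 1 (Pf.C 4 257))
 (Pq.cons (Pq.L [] 1 (Pf.C 4 257))
 (Pq.cons (Pq.L [] 1 (Pf.C 169 130))
 (Pq.cons (Pq.L [] 1 (Pf.C 4 257))
 Pq.nil))))))))))))))))))))))))))))))))))))))))))))))))))))
theorem e4_o71 : AllRef e4_T e4_G60 (blockObl [179,180,181,182,183,184] [12,16,16,33,38,24] [6,9,1,50,8,8] [6,9,1,50,8,8]) :=
  chkPq_sound e4_o71c _ (by decide +kernel)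
noncomputable def e4_o72c : Pq := Pq.nil
theorem e4_o72 : AllRef e4_T e4_G61 (extObl 191 [] []) :=
  chkPq_sound e4_o72c _ (by decide +kernel)
noncomputable def e4_o73c : Pq := Pq.nil
theorem e4_o73 : AllRef e4_T e4_G62 (extObl 185 [] []) :=
  chkPq_sound e4_o73c _ (by decide +kernel)
noncomputable def e4_o74c : Pq := (Pq.cons (Pq.D 0 (Pq.cons (Pq.D 1 (Pq.cons (Pq.L [] 1 (Pf.C 4 257))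
 (Pq.cons (Pq.D 2 (Pq.cons (Pq.L [] 2 (Pf.C 4 385))
 (Pq.cons (Pq.L [] 4 (Pf.C 2 386))
 (Pq.cons (Pq.L [] 2 (Pf.C 132 385))
 (Pq.cons (Pq.L [] 2 (Pf.C 4 385))
 Pq.nil))))) (Pq.cons (Pq.L [] 1 (Pf.C 132 257))
 (Pq.cons (Pq.L [] 1 (Pf.C 4 257))
 Pq.nil))))) (Pq.cons (Pq.D 1 (Pq.cons (Pq.D 2 (Pq.cons (Pq.L [] 4 (Pf.C 4 386))
 (Pq.cons (Pq.L [] 2 (Pf.C 2 385))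
 (Pq.cons (Pq.L [] 4 (Pf.C 132 386))
 (Pq.cons (Pq.L [] 4 (Pf.C 4 386))
 Pq.nil))))) (Pq.cons (Pq.L [] 1 (Pf.C 2 257))
 (Pq.cons (Pq.D 2 (Pq.cons (Pq.L [] 4 (Pf.C 132 259))
 (Pq.cons (Pq.L [] 2 (Pf.C 2 385))
 (Pq.cons (Pq.L [] 4 (Pf.C 3 386))
 (Pq.cons (Pq.L [0] 7 (Pf.W 140 1 [] [0,2,3] (Pf.cons (Pf.B 4 3 (Pf.B 4 2 (Pf.T 4 9 (Pf.cons (Pf.W 151 3 [] [0,1,2,4] (Pf.cons (Pf.B 5 4 (Pf.C 5 49669) (Pf.B 5 1 (Pf.B 5 2 (Pf.C 6 0x814082) (Pf.W 140 5 [] [1,2,3,4] (Pf.cons (Pf.B 6 3 (Pf.C 5 49925) (Pf.C 126 390)) (Pf.cons (Pf.B 6 3 (Pf.B 6 2 (Pf.C 132 262) (Pf.B 6 4 (Pf.B 6 1 (Pf.C 5 98817) (Pf.C 0 0x608086)) (Pf.C 0 0x414304))) (Pf.C 4 390)) Pf.nil)))) (Pf.C 2 133))) Pf.nil)) (Pf.cons (Pf.C 171 132) Pf.nil))) (Pf.C 3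 260)) (Pf.C 126 388)) (Pf.cons (Pf.B 4 3 (Pf.B 4 2 (Pf.C 132 260) (Pf.C 0 0x604104)) (Pf.C 4 388)) Pf.nil))))
 Pq.nil))))) (Pq.cons (Pq.D 2 (Pq.cons (Pq.L [] 4 (Pf.C 4 386))
 (Pq.cons (Pq.L [] 2 (Pf.C 2 385))
 (Pq.cons (Pq.L [0] 7 (Pf.W 140 1 [] [0,2,3] (Pf.cons (Pf.B 4 3 (Pf.B 4 2 (Pf.T 4 9 (Pf.cons (Pf.W 151 2 [] [0,1,3,4] (Pf.cons (Pf.B 5 4 (Pf.C 5 33285) (Pf.B 5 1 (Pf.B 5 3 (Pf.C 6 0x814083) (Pf.W 140 5 [] [1,2,3,4] (Pf.cons (Pf.B 6 2 (Pf.C 5 33541) (Pf.C 126 262)) (Pf.cons (Pf.B 6 3 (Pf.C 132 390) (Pf.B 6 4 (Pf.B 6 2 (Pf.B 6 1 (Pf.C 5 98817) (Pf.C 0 0x40c086)) (Pf.C 4 262)) (Pf.C 0 0x614304))) Pf.nil)))) (Pf.C 2 133))) Pf.nil)) (Pf.cons (Pf.C 171 132) Pf.nil))) (Pf.C 126 260)) (Pf.C 3 388)) (Pf.cons (Pf.B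 4 3 (Pf.C 132 388) (Pf.B 4 2 (Pf.C 0 0x40c084) (Pf.C 4 260))) Pf.nil))))
 (Pq.cons (Pq.L [0] 7 (Pf.C 0 49409))
 Pq.nil))))) Pq.nil))))) (Pq.cons (Pq.D 1 (Pq.cons (Pq.L [] 1 (Pf.C 132 130))
 (Pq.cons (Pq.D 2 (Pq.cons (Pq.L [] 2 (Pf.C 132 131))
 (Pq.cons (Pq.L [] 4 (Pf.C 2 386))
 (Pq.cons (Pq.L [] 2 (Pf.C 3 385))
 (Pq.cons (Pq.L [0] 7 (Pf.W 140 2 [] [0,1,3] (Pf.cons (Pf.B 4 3 (Pf.B 4 1 (Pf.T 4 9 (Pf.cons (Pf.W 151 3 [] [0,1,2,4] (Pf.cons (Pf.B 5 4 (Pf.C 5 49669) (Pf.B 5 2 (Pf.B 5 1 (Pf.C 6 0x814101) (Pf.W 140 5 [] [0,1,2,3] (Pf.cons (Pf.B 6 3 (Pf.C 5 49925) (Pf.C 126 390)) (Pf.cons (Pf.B 6 3 (Pf.B 6 2 (Pf.C 7 0x608286) (Pf.B 6 1 (Pf.C 132 134) (Pf.C 0 0x608086))) (Pf.C 4 390)) Pf.nil)))) (Pf.C 2 261))) Pf.nil))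 (Pf.cons (Pf.C 171 260) Pf.nil))) (Pf.C 3 132)) (Pf.C 126 388)) (Pf.cons (Pf.B 4 3 (Pf.B 4 1 (Pf.C 132 132) (Pf.C 0 0x608084)) (Pf.C 4 388)) Pf.nil))))
 Pq.nil))))) (Pq.cons (Pq.L [] 1 (Pf.C 3 257))
 (Pq.cons (Pq.D 2 (Pq.cons (Pq.L [] 2 (Pf.C 132 131))
 (Pq.cons (Pq.L [0] 7 (Pf.W 140 3 [] [0,1,2] (Pf.cons (Pf.B 4 2 (Pf.B 4 1 (Pf.T 4 9 (Pf.cons (Pf.W 151 2 [] [0,1,3,4] (Pf.cons (Pf.B 5 4 (Pf.C 5 33285) (Pf.B 5 3 (Pf.B 5 1 (Pf.C 6 0x814181) (Pf.W 140 5 [] [0,1,2,3] (Pf.cons (Pf.B 6 2 (Pf.C 5 33541) (Pf.C 126 262)) (Pf.cons (Pf.B 6 2 (Pf.B 6 3 (Pf.C 7 0x40c286) (Pf.B 6 1 (Pf.C 132 134) (Pf.C 0 0x40c086))) (Pf.C 4 262)) Pf.nil)))) (Pf.C 2 389))) Pf.nil)) (Pf.cons (Pf.C 171 388) Pf.nil))) (Pf.C 3 132)) (Pf.C 126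 260)) (Pf.cons (Pf.B 4 2 (Pf.B 4 1 (Pf.C 132 132) (Pf.C 0 0x40c084)) (Pf.C 4 260)) Pf.nil))))
 (Pq.cons (Pq.L [] 2 (Pf.C 3 385))
 (Pq.cons (Pq.L [0] 7 (Pf.C 0 49409))
 Pq.nil))))) Pq.nil))))) (Pq.cons (Pq.D 1 (Pq.cons (Pq.L [] 1 (Pf.C 4 257))
 (Pq.cons (Pq.D 2 (Pq.cons (Pq.L [] 2 (Pf.C 4 385))
 (Pq.cons (Pq.L [] 4 (Pf.C 2 386))
 (Pq.cons (Pq.L [0] 7 (Pf.W 140 2 [] [0,1,3] (Pf.cons (Pf.B 4 3 (Pf.B 4 1 (Pf.T 4 9 (Pf.cons (Pf.W 151 1 [] [0,2,3,4] (Pf.cons (Pf.B 5 4 (Pf.C 5 16901) (Pf.B 5 2 (Pf.B 5 3 (Pf.C 6 0x814103) (Pf.W 140 5 [] [1,2,3,4] (Pf.cons (Pf.B 6 1 (Pf.C 5 17157) (Pf.C 126 134)) (Pf.cons (Pf.B 6 3 (Pf.C 132 390) (Pf.B 6 4 (Pf.B 6 2 (Pf.C 5 98818) (Pf.C 0 0xa0c302)) (Pf.C 0 0x614304))) Pf.nil)))) (Pf.C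 2 261))) Pf.nil)) (Pf.cons (Pf.C 171 260) Pf.nil))) (Pf.C 126 132)) (Pf.C 3 388)) (Pf.cons (Pf.B 4 3 (Pf.C 132 388) (Pf.B 4 1 (Pf.C 0 0x20c104) (Pf.C 4 132))) Pf.nil))))
 (Pq.cons (Pq.L [] 2 (Pf.C 4 385))
 Pq.nil))))) (Pq.cons (Pq.D 2 (Pq.cons (Pq.L [] 2 (Pf.C 4 385))
 (Pq.cons (Pq.L [0] 7 (Pf.W 140 3 [] [0,1,2] (Pf.cons (Pf.B 4 2 (Pf.B 4 1 (Pf.T 4 9 (Pf.cons (Pf.W 151 1 [] [0,2,3,4] (Pf.cons (Pf.B 5 4 (Pf.C 5 16901) (Pf.B 5 3 (Pf.B 5 2 (Pf.C 6 0x814182) (Pf.W 140 5 [] [1,2,3,4] (Pf.cons (Pf.B 6 1 (Pf.C 5 17157) (Pf.C 126 134)) (Pf.cons (Pf.B 6 2 (Pf.C 132 262) (Pf.B 6 4 (Pf.B 6 3 (Pf.C 5 98819) (Pf.C 0 0xa08303)) (Pf.C 0 0x414304))) Pf.nil)))) (Pf.C 2 389))) Pf.nil)) (Pf.cons (Pf.C 171 388) Pf.nil))) (Pf.C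 126 132)) (Pf.C 3 260)) (Pf.cons (Pf.B 4 2 (Pf.C 132 260) (Pf.B 4 1 (Pf.C 0 0x20c104) (Pf.C 4 132))) Pf.nil))))
 (Pq.cons (Pq.L [] 4 (Pf.C 3 386))
 (Pq.cons (Pq.L [] 2 (Pf.C 4 385))
 Pq.nil))))) (Pq.cons (Pq.L [] 1 (Pf.C 4 257))
 Pq.nil))))) Pq.nil))))) Pq.nil)
theorem e4_o74 : AllRef e4_T e4_G64 (List.take 1 (applyObl d_T 2 [188,194,197,200] [0,0,0,0] [(188,0x20000000000000000000000000000000000000000000000000),(197,0x100000000000000000000000000000000000000000000000)])) :=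
  chkPq_sound e4_o74c _ (by decide +kernel)
noncomputable def e4_o75c : Pq := (Pq.cons (Pq.D 1 (Pq.cons (Pq.D 2 (Pq.cons (Pq.L [] 64 (Pf.C 4 386))
 (Pq.cons (Pq.D 3 (Pq.cons (Pq.L [] 128 (Pf.C 4 514))
 (Pq.cons (Pq.D 4 (Pq.cons (Pq.L [] 256 (Pf.C 4 642))
 (Pq.cons (Pq.D 5 (Pq.cons (Pq.D 6 (Pq.cons (Pq.L [] 0x136ef7 (Pf.C 1 0x202061c301))
 (Pq.cons (Pq.L [] 0x136ef7 (Pf.C 1 0x202061c301))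
 (Pq.cons (Pq.L [] 0x106000 (Pf.C 5 99203))
 (Pq.cons (Pq.L [0] 0x24ce7 (Pf.C 1 0x202061c001))
 Pq.nil))))) (Pq.cons (Pq.L [] 0x40000 (Pf.C 2 773))
 (Pq.cons (Pq.D 6 (Pq.cons (Pq.L [] 0x106000 (Pf.C 5 0x1c303))
 (Pq.cons (Pq.L [0] 0x1c7740 (Pf.W 140 7 [] [0,2,3,5,6] (Pf.cons (Pf.B 8 6 (Pf.B 8 5 (Pf.C 6 0x70c14008) (Pf.B 8 2 (Pf.C 5 33799) (Pf.C 0 0xc14108))) (Pf.C 3 776)) (Pf.cons (Pf.B 8 6 (Pf.C 132 776) (Pf.B 8 5 (Pf.B 8 2 (Pf.B 8 3 (Pf.C 7 0x5040c388) (Pf.T 8 10 (Pf.cons (Pf.W 10 32771 [] [5,6,7,8] (Pf.cons (Pf.B 9 8 (Pf.B 9 7 (Pf.C 7 0x3101c009) (Pf.B 9 6 (Pf.C 5 0x24303) (Pf.C 0 0x101c309))) (Pf.C 4 1033)) (Pf.cons (Pf.B 9 8 (Pf.C 5 0x20480) (Pf.B 9 7 (Pf.B 9 6 (Pf.B 9 5 (Pf.C 6 0x70c14189) (Pf.B 9 2 (Pf.C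 5 33920) (Pf.C 0 0xc14109))) (Pf.C 3 777)) (Pf.C 0 0x620487))) Pf.nil))) (Pf.cons (Pf.C 174 392) Pf.nil)))) (Pf.C 4 264)) (Pf.C 0 0xe18405))) Pf.nil))))
 (Pq.cons (Pq.L [] 0x100631 (Pf.C 0 0x41c301))
 (Pq.cons (Pq.L [0] 0x24ce7 (Pf.C 1 0x202061c001))
 Pq.nil))))) (Pq.cons (Pq.L [0] 76503 (Pf.C 1 0x2020618001))
 Pq.nil))))) (Pq.cons (Pq.L [0] 39375 (Pf.C 1 0x2020614080))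
 (Pq.cons (Pq.L [] 256 (Pf.C 4 642))
 Pq.nil))))) (Pq.cons (Pq.L [] 128 (Pf.C 132 514))
 (Pq.cons (Pq.L [] 128 (Pf.C 4 514))
 Pq.nil))))) (Pq.cons (Pq.L [] 64 (Pf.C 132 386))
 (Pq.cons (Pq.L [] 64 (Pf.C 4 386))
 Pq.nil))))) (Pq.cons (Pq.D 2 (Pq.cons (Pq.D 3 (Pq.cons (Pq.D 4 (Pq.cons (Pq.D 5 (Pq.cons (Pq.L [] 0x40000 (Pf.C 4 773))
 (Pq.cons (Pq.D 6 (Pq.cons (Pq.L [] 0x136ef7 (Pf.C 1 0x202061c301))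
 (Pq.cons (Pq.L [] 0x136ef7 (Pf.C 1 0x202061c301))
 (Pq.cons (Pq.L [0] 0x1c87c0 (Pf.W 10 49154 [] [4,5,6,7] (Pf.cons (Pf.B 8 7 (Pf.C 5 0x20382) (Pf.B 8 5 (Pf.B 8 6 (Pf.C 7 0x20a18008) (Pf.C 0 0xa1c308)) (Pf.C 4 648))) (Pf.cons (Pf.B 8 5 (Pf.C 5 82944) (Pf.B 8 4 (Pf.C 5 66560) (Pf.C 0 0xa08404))) Pf.nil))))
 (Pq.cons (Pq.L [0] 0x24ce7 (Pf.C 1 0x202061c001))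
 Pq.nil))))) (Pq.cons (Pq.L [] 0x40000 (Pf.C 132 773))
 (Pq.cons (Pq.L [0] 76503 (Pf.C 1 0x2020618001))
 Pq.nil))))) (Pq.cons (Pq.L [] 256 (Pf.C 2 642))
 (Pq.cons (Pq.L [] 39360 (Pf.C 0 0x814103))
 (Pq.cons (Pq.D 5 (Pq.cons (Pq.L [] 0x40000 (Pf.C 4 773))
 (Pq.cons (Pq.D 6 (Pq.cons (Pq.L [] 0x136ef7 (Pf.C 1 0x202061c301))
 (Pq.cons (Pq.L [] 0x136ef7 (Pf.C 1 0x202061c301))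
 (Pq.cons (Pq.L [] 0x80000 (Pf.C 169 647))
 (Pq.cons (Pq.L [0] 0x24ce7 (Pf.C 1 0x202061c001))
 Pq.nil))))) (Pq.cons (Pq.D 6 (Pq.cons (Pq.L [] 0x100600 (Pf.C 5 0x1c302))
 (Pq.cons (Pq.L [0] 2240 (Pf.W 10 49154 [] [4] (Pf.cons (Pf.B 8 4 (Pf.B 8 3 (Pf.C 7 0x4040c008) (Pf.C 4 392)) (Pf.C 4 520)) (Pf.cons (Pf.B 8 4 (Pf.C 5 66560) (Pf.B 8 3 (Pf.C 5 50176) (Pf.C 0 0x808403))) Pf.nil))))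
 (Pq.cons (Pq.L [] 0x106032 (Pf.C 0 0x61c301))
 (Pq.cons (Pq.L [0] 0x24ce7 (Pf.C 1 0x202061c001))
 Pq.nil))))) (Pq.cons (Pq.L [0] 76503 (Pf.C 1 0x2020618001))
 Pq.nil))))) Pq.nil))))) (Pq.cons (Pq.L [] 128 (Pf.C 2 514))
 (Pq.cons (Pq.D 4 (Pq.cons (Pq.L [] 39360 (Pf.C 0 0xa10103))
 (Pq.cons (Pq.L [] 256 (Pf.C 2 642))
 (Pq.cons (Pq.L [] 39360 (Pf.C 0 0xa0c104))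
 (Pq.cons (Pq.L [] 32768 (Pf.C 169 644))
 Pq.nil))))) (Pq.cons (Pq.D 4 (Pq.cons (Pq.D 5 (Pq.cons (Pq.L [] 0x40000 (Pf.C 4 773))
 (Pq.cons (Pq.L [0] 0x17fff7 (Pf.B 7 3 (Pf.B 7 1 (Pf.C 1 0x2020618381) (Pf.W 10 49154 [] [4,5,6] (Pf.cons (Pf.B 8 5 (Pf.B 8 3 (Pf.C 7 0x5040c008) (Pf.C 4 392)) (Pf.C 4 648)) (Pf.cons (Pf.B 8 5 (Pf.C 5 82944) (Pf.B 8 6 (Pf.B 8 4 (Pf.C 5 66566) (Pf.C 0 0xa08404)) (Pf.C 0 0x414406))) Pf.nil)))) (Pf.W 10 49154 [] [4,5,6] (Pf.cons (Pf.B 8 5 (Pf.B 8 3 (Pf.C 7 0x5040c008) (Pf.C 4 392)) (Pf.C 4 648)) (Pf.cons (Pf.B 8 5 (Pf.C 5 82944) (Pf.B 8 6 (Pf.B 8 4 (Pf.C 5 66566) (Pf.C 0 0xa08404)) (Pf.C 0 0x414406))) Pf.nil)))))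
 (Pq.cons (Pq.L [0] 0x5b81e (Pf.C 1 0x1860210005))
 (Pq.cons (Pq.L [] 0x40000 (Pf.C 4 773))
 Pq.nil))))) (Pq.cons (Pq.L [] 256 (Pf.C 2 642))
 (Pq.cons (Pq.L [] 32768 (Pf.C 169 517))
 (Pq.cons (Pq.D 5 (Pq.cons (Pq.L [] 0x40000 (Pf.C 4 773))
 (Pq.cons (Pq.D 6 (Pq.cons (Pq.L [0] 0x1306b5 (Pf.C 1 0x104001c301))
 (Pq.cons (Pq.L [0] 0x1306b5 (Pf.C 1 0x104001c301))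
 (Pq.cons (Pq.L [] 0x20000 (Pf.C 169 519))
 (Pq.cons (Pq.L [0] 0x106673 (Pf.C 1 0x307000c101))
 Pq.nil))))) (Pq.cons (Pq.L [] 65536 (Pf.C 169 518))
 (Pq.cons (Pq.L [] 0x40000 (Pf.C 4 773))
 Pq.nil))))) Pq.nil))))) Pq.nil))))) (Pq.cons (Pq.L [] 64 (Pf.C 2 386))
 (Pq.cons (Pq.D 3 (Pq.cons (Pq.D 4 (Pq.cons (Pq.L [] 39360 (Pf.C 0 0xa0c104))
 (Pq.cons (Pq.L [] 256 (Pf.C 2 642))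
 (Pq.cons (Pq.L [] 39360 (Pf.C 0 0xa10103))
 (Pq.cons (Pq.L [] 4096 (Pf.C 169 643))
 Pq.nil))))) (Pq.cons (Pq.L [] 128 (Pf.C 2 514))
 (Pq.cons (Pq.D 4 (Pq.cons (Pq.L [] 39360 (Pf.C 0 0x814103))
 (Pq.cons (Pq.L [] 256 (Pf.C 2 642))
 (Pq.cons (Pq.D 5 (Pq.cons (Pq.L [] 0x40000 (Pf.C 132 646))
 (Pq.cons (Pq.L [0] 0x13efc0 (Pf.B 7 4 (Pf.B 7 3 (Pf.B 7 0 (Pf.C 1 0x2020618380) (Pf.W 140 2 [] [0,4,5] (Pf.cons (Pf.B 8 5 (Pf.B 8 4 (Pf.C 6 0x50410008) (Pf.C 3 520)) (Pf.C 3 648)) (Pf.cons (Pf.B 8 5 (Pf.C 132 648) (Pf.B 8 4 (Pf.C 132 520) (Pf.C 0 0xa08404))) Pf.nil)))) (Pf.W 140 2 [] [0,4,5] (Pf.cons (Pf.B 8 5 (Pf.B 8 4 (Pf.C 6 0x50410008) (Pf.C 3 520)) (Pf.C 3 648)) (Pf.cons (Pf.B 8 5 (Pf.C 132 648) (Pf.B 8 4 (Pf.C 132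 520) (Pf.C 0 0xa08404))) Pf.nil)))) (Pf.W 140 2 [] [0,4,5] (Pf.cons (Pf.B 8 5 (Pf.B 8 4 (Pf.C 6 0x50410008) (Pf.C 3 520)) (Pf.C 3 648)) (Pf.cons (Pf.B 8 5 (Pf.C 132 648) (Pf.B 8 4 (Pf.C 132 520) (Pf.C 0 0xa08404))) Pf.nil)))))
 (Pq.cons (Pq.L [] 0x40000 (Pf.C 3 773))
 (Pq.cons (Pq.L [] 8192 (Pf.C 169 771))
 Pq.nil))))) (Pq.cons (Pq.L [] 4096 (Pf.C 169 643))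
 Pq.nil))))) (Pq.cons (Pq.L [] 2048 (Pf.C 169 515))
 Pq.nil))))) (Pq.cons (Pq.D 3 (Pq.cons (Pq.D 4 (Pq.cons (Pq.D 5 (Pq.cons (Pq.L [] 0x40000 (Pf.C 4 773))
 (Pq.cons (Pq.L [0] 0x13eff7 (Pf.B 7 4 (Pf.B 7 1 (Pf.C 1 0x2020618381) (Pf.W 10 65538 [] [5] (Pf.cons (Pf.B 8 5 (Pf.B 8 4 (Pf.C 7 0x50410008) (Pf.C 4 520)) (Pf.C 4 648)) (Pf.cons (Pf.B 8 5 (Pf.C 5 82944) (Pf.B 8 4 (Pf.C 5 66560) (Pf.C 0 0xa08404))) Pf.nil)))) (Pf.W 10 65538 [] [5] (Pf.cons (Pf.B 8 5 (Pf.B 8 4 (Pf.C 7 0x50410008) (Pf.C 4 520)) (Pf.C 4 648)) (Pf.cons (Pf.B 8 5 (Pf.C 5 82944) (Pf.B 8 4 (Pf.C 5 66560) (Pf.C 0 0xa08404))) Pf.nil)))))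
 (Pq.cons (Pq.L [0] 0x5b81e (Pf.C 1 0x206020c005))
 (Pq.cons (Pq.L [] 0x40000 (Pf.C 4 773))
 Pq.nil))))) (Pq.cons (Pq.L [] 256 (Pf.C 2 642))
 (Pq.cons (Pq.L [] 4096 (Pf.C 169 389))
 (Pq.cons (Pq.D 5 (Pq.cons (Pq.L [] 0x40000 (Pf.C 4 773))
 (Pq.cons (Pq.D 6 (Pq.cons (Pq.L [0] 0x106673 (Pf.C 1 0x103001c301))
 (Pq.cons (Pq.L [0] 0x106673 (Pf.C 1 0x103001c301))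
 (Pq.cons (Pq.L [] 16384 (Pf.C 169 391))
 (Pq.cons (Pq.L [0] 0x1306b5 (Pf.C 1 0x3070010101))
 Pq.nil))))) (Pq.cons (Pq.L [] 8192 (Pf.C 169 390))
 (Pq.cons (Pq.L [] 0x40000 (Pf.C 4 773))
 Pq.nil))))) Pq.nil))))) (Pq.cons (Pq.L [] 128 (Pf.C 2 514))
 (Pq.cons (Pq.L [] 2048 (Pf.C 169 388))
 (Pq.cons (Pq.D 4 (Pq.cons (Pq.D 5 (Pq.cons (Pq.L [0] 0x5b81e (Pf.C 1 0x2000618281))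
 (Pq.cons (Pq.L [0] 0x5b81e (Pf.C 1 0x2000618281))
 (Pq.cons (Pq.L [0] 0x5b81e (Pf.C 1 0x2000618085))
 (Pq.cons (Pq.L [] 0x40000 (Pf.C 4 773))
 Pq.nil))))) (Pq.cons (Pq.L [] 256 (Pf.C 2 642))
 (Pq.cons (Pq.L [] 4096 (Pf.C 169 389))
 (Pq.cons (Pq.D 5 (Pq.cons (Pq.L [] 0x40000 (Pf.C 4 773))
 (Pq.cons (Pq.L [0] 0x136ef7 (Pf.B 7 1 (Pf.C 1 0x2020618381) (Pf.W 140 6 [] [0,3,4] (Pf.cons (Pf.B 8 4 (Pf.C 5 66566) (Pf.C 126 520)) (Pf.cons (Pf.B 8 4 (Pf.B 8 3 (Pf.C 7 0x4000c308) (Pf.C 4 392)) (Pf.C 4 520)) Pf.nil)))))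
 (Pq.cons (Pq.L [] 8192 (Pf.C 169 390))
 (Pq.cons (Pq.L [] 0x40000 (Pf.C 4 773))
 Pq.nil))))) Pq.nil))))) Pq.nil))))) Pq.nil))))) (Pq.cons (Pq.D 2 (Pq.cons (Pq.L [] 64 (Pf.C 132 259))
 (Pq.cons (Pq.D 3 (Pq.cons (Pq.L [] 128 (Pf.C 132 260))
 (Pq.cons (Pq.D 4 (Pq.cons (Pq.L [] 256 (Pf.C 132 261))
 (Pq.cons (Pq.D 5 (Pq.cons (Pq.D 6 (Pq.cons (Pq.L [] 0x1c0700 (Pf.C 0 0xe18105))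
 (Pq.cons (Pq.L [0] 0x1c7340 (Pf.W 140 3 [] [0,2,5,6,7] (Pf.cons (Pf.B 8 6 (Pf.C 5 99331) (Pf.B 8 2 (Pf.B 8 5 (Pf.C 6 0x30414008) (Pf.C 0 0x418288)) (Pf.C 3 264))) (Pf.cons (Pf.B 8 6 (Pf.B 8 2 (Pf.C 132 264) (Pf.B 8 5 (Pf.B 8 7 (Pf.C 7 0x50c1c188) (Pf.T 8 10 (Pf.cons (Pf.W 10 98311 [] [8] (Pf.cons (Pf.B 9 8 (Pf.B 9 6 (Pf.C 7 0x80e18009) (Pf.C 4 777)) (Pf.C 4 1033)) (Pf.cons (Pf.B 9 8 (Pf.C 5 0x20480) (Pf.B 9 6 (Pf.C 5 99456) (Pf.C 0 0x101c486))) Pf.nil))) (Pf.cons (Pf.C 174 392) Pf.nil)))) (Pf.C 0 0xc08288))) (Pf.C 4 776)) Pf.nil))))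
 (Pq.cons (Pq.L [] 0x106000 (Pf.C 5 99203))
 (Pq.cons (Pq.L [] 1024 (Pf.C 169 898))
 Pq.nil))))) (Pq.cons (Pq.L [] 0x40000 (Pf.C 2 773))
 (Pq.cons (Pq.D 6 (Pq.cons (Pq.L [] 0x106000 (Pf.C 5 0x1c303))
 (Pq.cons (Pq.L [] 0x136ec0 (Pf.C 6 0x4040c386))
 (Pq.cons (Pq.L [] 0x136ec0 (Pf.C 6 0x4040c386))
 (Pq.cons (Pq.L [] 1024 (Pf.C 169 898))
 Pq.nil))))) (Pq.cons (Pq.L [] 512 (Pf.C 169 770))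
 Pq.nil))))) (Pq.cons (Pq.L [] 256 (Pf.C 3 642))
 (Pq.cons (Pq.D 5 (Pq.cons (Pq.L [] 0x40000 (Pf.C 4 773))
 (Pq.cons (Pq.D 6 (Pq.cons (Pq.L [0] 0x147000 (Pf.W 140 3 [] [0,5,6,7] (Pf.cons (Pf.B 8 5 (Pf.C 5 82947) (Pf.C 126 648)) (Pf.cons (Pf.B 8 7 (Pf.B 8 5 (Pf.B 8 6 (Pf.C 7 0xa18188) (Pf.T 8 10 (Pf.cons (Pf.W 10 0x1c006 [] [8] (Pf.cons (Pf.B 9 8 (Pf.B 9 7 (Pf.C 7 0x80c1c009) (Pf.C 4 905)) (Pf.C 4 1033)) (Pf.cons (Pf.B 9 8 (Pf.C 5 0x20480) (Pf.B 9 7 (Pf.C 5 0x1c480) (Pf.C 0 0x1018487))) Pf.nil))) (Pf.cons (Pf.C 174 392) Pf.nil)))) (Pf.C 4 648)) (Pf.C 4 904)) Pf.nil))))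
 (Pq.cons (Pq.L [0] 0x106673 (Pf.C 1 0x182021c300))
 (Pq.cons (Pq.L [] 0x136ec0 (Pf.C 6 0x4040c386))
 (Pq.cons (Pq.L [] 1024 (Pf.C 169 898))
 Pq.nil))))) (Pq.cons (Pq.D 6 (Pq.cons (Pq.L [] 0x106000 (Pf.C 5 0x1c303))
 (Pq.cons (Pq.L [] 0x136ec0 (Pf.C 6 0x4040c386))
 (Pq.cons (Pq.L [] 0x136ec0 (Pf.C 6 0x4040c386))
 (Pq.cons (Pq.L [] 1024 (Pf.C 169 898))
 Pq.nil))))) (Pq.cons (Pq.L [] 512 (Pf.C 169 770))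
 Pq.nil))))) Pq.nil))))) (Pq.cons (Pq.L [] 128 (Pf.C 3 514))
 (Pq.cons (Pq.D 4 (Pq.cons (Pq.L [] 256 (Pf.C 132 261))
 (Pq.cons (Pq.D 5 (Pq.cons (Pq.D 6 (Pq.cons (Pq.L [0] 0x1f803c (Pf.C 1 0x3860a10001))
 (Pq.cons (Pq.L [0] 0x1f803c (Pf.C 1 0x3860a10001))
 (Pq.cons (Pq.L [] 0x24800 (Pf.C 5 66435))
 (Pq.cons (Pq.L [] 1024 (Pf.C 169 898))
 Pq.nil))))) (Pq.cons (Pq.L [] 0x40000 (Pf.C 2 773))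
 (Pq.cons (Pq.L [0] 0x5b81e (Pf.C 1 0x2860210003))
 (Pq.cons (Pq.L [] 512 (Pf.C 169 770))
 Pq.nil))))) (Pq.cons (Pq.L [] 256 (Pf.C 3 642))
 (Pq.cons (Pq.L [0] 38912 (Pf.W 140 3 [] [0,4,5] (Pf.cons (Pf.B 8 5 (Pf.C 5 82947) (Pf.C 126 648)) (Pf.cons (Pf.B 8 5 (Pf.B 8 4 (Pf.C 7 0x50010188) (Pf.C 4 520)) (Pf.C 4 648)) Pf.nil))))
 Pq.nil))))) Pq.nil))))) (Pq.cons (Pq.L [] 64 (Pf.C 3 386))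
 (Pq.cons (Pq.D 3 (Pq.cons (Pq.L [] 128 (Pf.C 132 260))
 (Pq.cons (Pq.D 4 (Pq.cons (Pq.L [] 256 (Pf.C 132 261))
 (Pq.cons (Pq.D 5 (Pq.cons (Pq.D 6 (Pq.cons (Pq.L [0] 0x1c703a (Pf.C 1 0x3860a0c001))
 (Pq.cons (Pq.L [0] 0x1c703a (Pf.C 1 0x3860a0c001))
 (Pq.cons (Pq.L [] 16384 (Pf.C 169 391))
 (Pq.cons (Pq.L [] 1024 (Pf.C 169 898))
 Pq.nil))))) (Pq.cons (Pq.L [] 0x40000 (Pf.C 2 773))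
 (Pq.cons (Pq.L [0] 0x5b81e (Pf.C 1 0x286020c004))
 (Pq.cons (Pq.L [] 512 (Pf.C 169 770))
 Pq.nil))))) (Pq.cons (Pq.L [] 256 (Pf.C 3 642))
 (Pq.cons (Pq.L [0] 38912 (Pf.W 140 4 [] [0,3,5] (Pf.cons (Pf.B 8 5 (Pf.C 5 82948) (Pf.C 126 648)) (Pf.cons (Pf.B 8 5 (Pf.B 8 3 (Pf.C 7 0x5000c208) (Pf.C 4 392)) (Pf.C 4 648)) Pf.nil))))
 Pq.nil))))) (Pq.cons (Pq.L [] 128 (Pf.C 3 514))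
 (Pq.cons (Pq.D 4 (Pq.cons (Pq.L [] 256 (Pf.C 132 261))
 (Pq.cons (Pq.L [0] 0x5b81e (Pf.B 6 1 (Pf.B 6 0 (Pf.C 1 0x2000614301) (Pf.W 140 5 [] [0,3,4] (Pf.cons (Pf.B 8 4 (Pf.C 5 66565) (Pf.C 126 520)) (Pf.cons (Pf.B 8 4 (Pf.B 8 3 (Pf.C 7 0x4000c288) (Pf.C 4 392)) (Pf.C 4 520)) Pf.nil)))) (Pf.W 140 5 [] [0,3,4] (Pf.cons (Pf.B 8 4 (Pf.C 5 66565) (Pf.C 126 520)) (Pf.cons (Pf.B 8 4 (Pf.B 8 3 (Pf.C 7 0x4000c288) (Pf.C 4 392)) (Pf.C 4 520)) Pf.nil)))))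
 (Pq.cons (Pq.L [] 256 (Pf.C 3 642))
 (Pq.cons (Pq.D 5 (Pq.cons (Pq.L [] 0x40000 (Pf.C 4 773))
 (Pq.cons (Pq.L [0] 0x136836 (Pf.B 7 1 (Pf.B 7 0 (Pf.C 1 0x2000618381) (Pf.W 140 6 [] [0,3,4] (Pf.cons (Pf.B 8 4 (Pf.C 5 66566) (Pf.C 126 520)) (Pf.cons (Pf.B 8 4 (Pf.B 8 3 (Pf.C 7 0x4000c308) (Pf.C 4 392)) (Pf.C 4 520)) Pf.nil)))) (Pf.W 140 6 [] [0,3,4] (Pf.cons (Pf.B 8 4 (Pf.C 5 66566) (Pf.C 126 520)) (Pf.cons (Pf.B 8 4 (Pf.B 8 3 (Pf.C 7 0x4000c308) (Pf.C 4 392)) (Pf.C 4 520)) Pf.nil)))))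
 (Pq.cons (Pq.L [] 8192 (Pf.C 169 390))
 (Pq.cons (Pq.L [] 512 (Pf.C 169 770))
 Pq.nil))))) Pq.nil))))) Pq.nil))))) Pq.nil))))) (Pq.cons (Pq.D 2 (Pq.cons (Pq.L [] 64 (Pf.C 4 386))
 (Pq.cons (Pq.D 3 (Pq.cons (Pq.L [] 128 (Pf.C 4 514))
 (Pq.cons (Pq.D 4 (Pq.cons (Pq.L [] 256 (Pf.C 4 642))
 (Pq.cons (Pq.D 5 (Pq.cons (Pq.D 6 (Pq.cons (Pq.L [0] 0x106673 (Pf.C 1 0x182001c301))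
 (Pq.cons (Pq.L [0] 0x106673 (Pf.C 1 0x182001c301))
 (Pq.cons (Pq.L [0] 0x106673 (Pf.C 1 0x182001c086))
 (Pq.cons (Pq.L [] 0x136ef7 (Pf.C 1 0x202061c301))
 Pq.nil))))) (Pq.cons (Pq.L [] 0x40000 (Pf.C 2 773))
 (Pq.cons (Pq.L [] 512 (Pf.C 169 262))
 (Pq.cons (Pq.D 6 (Pq.cons (Pq.L [] 0x136ef7 (Pf.C 1 0x202061c301))
 (Pq.cons (Pq.L [] 0x136ef7 (Pf.C 1 0x202061c301))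
 (Pq.cons (Pq.L [] 1024 (Pf.C 169 263))
 (Pq.cons (Pq.L [] 0x136ef7 (Pf.C 1 0x202061c301))
 Pq.nil))))) Pq.nil))))) (Pq.cons (Pq.D 5 (Pq.cons (Pq.L [] 0x43000 (Pf.C 5 98947))
 (Pq.cons (Pq.D 6 (Pq.cons (Pq.L [0] 0x106673 (Pf.C 1 0x182001c301))
 (Pq.cons (Pq.L [0] 0x106673 (Pf.C 1 0x182001c301))
 (Pq.cons (Pq.L [] 1024 (Pf.C 169 263))
 (Pq.cons (Pq.L [] 0x136ef7 (Pf.C 1 0x202061c301))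
 Pq.nil))))) (Pq.cons (Pq.L [] 512 (Pf.C 169 262))
 (Pq.cons (Pq.D 6 (Pq.cons (Pq.L [] 0x136ef7 (Pf.C 1 0x202061c301))
 (Pq.cons (Pq.L [] 0x136ef7 (Pf.C 1 0x202061c301))
 (Pq.cons (Pq.L [] 1024 (Pf.C 169 263))
 (Pq.cons (Pq.L [] 0x136ef7 (Pf.C 1 0x202061c301))
 Pq.nil))))) Pq.nil))))) (Pq.cons (Pq.L [] 256 (Pf.C 4 642))
 Pq.nil))))) (Pq.cons (Pq.D 4 (Pq.cons (Pq.L [] 256 (Pf.C 4 642))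
 (Pq.cons (Pq.D 5 (Pq.cons (Pq.D 6 (Pq.cons (Pq.L [0] 0x106673 (Pf.C 1 0x182001c301))
 (Pq.cons (Pq.L [0] 0x106673 (Pf.C 1 0x182001c301))
 (Pq.cons (Pq.L [0] 0x106673 (Pf.C 1 0x182001c086))
 (Pq.cons (Pq.L [] 0x24800 (Pf.C 5 0x1c203))
 Pq.nil))))) (Pq.cons (Pq.L [] 0x40000 (Pf.C 2 773))
 (Pq.cons (Pq.L [] 512 (Pf.C 169 262))
 (Pq.cons (Pq.L [0] 0x5b81e (Pf.C 1 0x2860010083))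
 Pq.nil))))) (Pq.cons (Pq.D 5 (Pq.cons (Pq.L [] 0x43000 (Pf.C 5 98947))
 (Pq.cons (Pq.D 6 (Pq.cons (Pq.L [0] 0x106673 (Pf.C 1 0x182001c301))
 (Pq.cons (Pq.L [0] 0x106673 (Pf.C 1 0x182001c301))
 (Pq.cons (Pq.L [] 1024 (Pf.C 169 263))
 (Pq.cons (Pq.L [0] 0x136836 (Pf.C 1 0x3070010083))
 Pq.nil))))) (Pq.cons (Pq.L [] 512 (Pf.C 169 262))
 (Pq.cons (Pq.L [] 75776 (Pf.C 5 98819))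
 Pq.nil))))) (Pq.cons (Pq.L [] 256 (Pf.C 4 642))
 Pq.nil))))) (Pq.cons (Pq.L [] 128 (Pf.C 4 514))
 Pq.nil))))) (Pq.cons (Pq.D 3 (Pq.cons (Pq.L [] 128 (Pf.C 4 514))
 (Pq.cons (Pq.D 4 (Pq.cons (Pq.L [] 256 (Pf.C 4 642))
 (Pq.cons (Pq.D 5 (Pq.cons (Pq.D 6 (Pq.cons (Pq.L [0] 0x1306b5 (Pf.C 1 0x202001c301))
 (Pq.cons (Pq.L [0] 0x1306b5 (Pf.C 1 0x202001c301))
 (Pq.cons (Pq.L [0] 0x1306b5 (Pf.C 1 0x202001c086))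
 (Pq.cons (Pq.L [] 16384 (Pf.C 169 899))
 Pq.nil))))) (Pq.cons (Pq.L [] 0x40000 (Pf.C 2 773))
 (Pq.cons (Pq.L [] 512 (Pf.C 169 262))
 (Pq.cons (Pq.L [0] 0x5b81e (Pf.C 1 0x286000c084))
 Pq.nil))))) (Pq.cons (Pq.D 5 (Pq.cons (Pq.L [] 0x58000 (Pf.C 5 98948))
 (Pq.cons (Pq.D 6 (Pq.cons (Pq.L [0] 0x1306b5 (Pf.C 1 0x202001c301))
 (Pq.cons (Pq.L [0] 0x1306b5 (Pf.C 1 0x202001c301))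
 (Pq.cons (Pq.L [] 1024 (Pf.C 169 263))
 (Pq.cons (Pq.L [0] 0x136836 (Pf.C 1 0x307000c084))
 Pq.nil))))) (Pq.cons (Pq.L [] 512 (Pf.C 169 262))
 (Pq.cons (Pq.L [] 8192 (Pf.C 169 771))
 Pq.nil))))) (Pq.cons (Pq.L [] 256 (Pf.C 4 642))
 Pq.nil))))) (Pq.cons (Pq.D 4 (Pq.cons (Pq.L [] 256 (Pf.C 4 642))
 (Pq.cons (Pq.D 5 (Pq.cons (Pq.D 6 (Pq.cons (Pq.L [] 0x136800 (Pf.C 0 0x81c303))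
 (Pq.cons (Pq.L [0] 0x147f49 (Pf.W 146 3 [] [0,1,2,4,5,6,7] (Pf.cons (Pf.B 8 7 (Pf.B 8 5 (Pf.B 8 6 (Pf.B 8 2 (Pf.B 8 1 (Pf.B 8 4 (Pf.W 140 8 [] [0,2,3,5,6,7] (Pf.cons (Pf.B 9 3 (Pf.B 9 7 (Pf.B 9 2 (Pf.C 5 33927) (Pf.C 126 265)) (Pf.C 6 0x121c403)) (Pf.C 3 393)) (Pf.cons (Pf.B 9 6 (Pf.B 9 2 (Pf.B 9 5 (Pf.C 7 0x414409) (Pf.W 10 98309 [] [9] (Pf.cons (Pf.B 10 9 (Pf.B 10 6 (Pf.C 7 0x90a1800a) (Pf.C 4 778)) (Pf.C 4 1162)) (Pf.cons (Pf.B 10 9 (Pf.C 5 0x24500) (Pf.B 10 6 (Pf.C 5 99584) (Pf.C 0 0x1214506))) Pf.nil)))) (Pf.C 4 265)) (Pf.C 4 777)) Pf.nil))) (Pf.W 140 8 [] [0,3,4] (Pf.cons (Pf.B 9 4 (Pf.B 9 3 (Pf.C 6 0x4100c009) (Pf.C 3 393)) (Pf.C 3 521)) (Pf.cons (Pf.B 9 4 (Pf.C 132 521) (Pf.B 9 3 (Pf.C 132 393) (Pf.C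 0 0x820483))) Pf.nil)))) (Pf.C 7 0x50400088)) (Pf.C 7 0x420386)) (Pf.B 8 2 (Pf.C 7 0x70c20002) (Pf.C 0 0xc0c402))) (Pf.C 2 648)) (Pf.C 2 904)) (Pf.cons (Pf.B 8 7 (Pf.C 5 0x20187) (Pf.B 8 6 (Pf.B 8 5 (Pf.C 5 0x20185) (Pf.B 8 2 (Pf.B 8 1 (Pf.B 8 4 (Pf.W 150 8 [] [0,2,7] (Pf.cons (Pf.B 9 7 (Pf.B 9 2 (Pf.C 5 33927) (Pf.C 126 265)) (Pf.C 0 0x20487)) Pf.nil)) (Pf.W 150 8 [] [0,2,7] (Pf.cons (Pf.B 9 7 (Pf.B 9 2 (Pf.C 5 33927) (Pf.C 126 265)) (Pf.C 0 0x20487)) Pf.nil))) (Pf.C 4 136)) (Pf.C 4 264))) (Pf.C 4 776))) Pf.nil))))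
 (Pq.cons (Pq.L [] 1024 (Pf.C 169 263))
 (Pq.cons (Pq.L [0] 0xad82e (Pf.C 1 0x201061c005))
 Pq.nil))))) (Pq.cons (Pq.L [0] 0x5b81e (Pf.C 1 0x2010618280))
 (Pq.cons (Pq.L [] 512 (Pf.C 169 262))
 (Pq.cons (Pq.L [] 8192 (Pf.C 169 771))
 Pq.nil))))) (Pq.cons (Pq.D 5 (Pq.cons (Pq.L [] 0x40000 (Pf.C 132 646))
 (Pq.cons (Pq.D 6 (Pq.cons (Pq.L [0] 0x1ffeff (Pf.W 146 3 [] [0,1,2,4,5,6,7] (Pf.cons (Pf.B 8 6 (Pf.B 8 7 (Pf.B 8 2 (Pf.B 8 5 (Pf.B 8 4 (Pf.B 8 1 (Pf.W 140 8 [] [0,1,2,3,4,5,6,7] (Pf.cons (Pf.B 9 7 (Pf.C 5 0x1c488) (Pf.B 9 5 (Pf.B 9 6 (Pf.B 9 2 (Pf.C 5 33926) (Pf.C 126 265)) (Pf.C 0 0xa1c309)) (Pf.C 3 649))) (Pf.cons (Pf.B 9 7 (Pf.B 9 5 (Pf.C 132 649) (Pf.B 9 6 (Pf.B 9 4 (Pf.C 132 521) (Pf.B 9 3 (Pf.C 132 393)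 (Pf.B 9 2 (Pf.B 9 1 (Pf.W 146 4 [] [0,1,2,3,5,6,7,8,9] (Pf.cons (Pf.B 10 8 (Pf.B 10 6 (Pf.B 10 9 (Pf.B 10 7 (Pf.B 10 2 (Pf.B 10 5 (Pf.B 10 3 (Pf.B 10 1 (Pf.W 140 10 [] [0,1,2,3,4,5,6,7,8,9] (Pf.cons (Pf.B 11 7 (Pf.C 5 0x1c58a) (Pf.B 11 5 (Pf.B 11 6 (Pf.B 11 2 (Pf.C 5 34182) (Pf.C 126 267)) (Pf.C 0 0xa1c30b)) (Pf.C 3 651))) (Pf.cons (Pf.B 11 9 (Pf.B 11 7 (Pf.B 11 5 (Pf.C 132 651) (Pf.B 11 6 (Pf.B 11 8 (Pf.B 11 4 (Pf.C 132 523) (Pf.B 11 3 (Pf.C 132 395) (Pf.B 11 2 (Pf.B 11 1 (Pf.W 173 1 [] [0,2,3,4,5,6,7,8,9,10,11] (Pf.cons (Pf.B 12 10 (Pf.B 12 8 (Pf.B 12 6 (Pf.B 12 11 (Pf.B 12 9 (Pf.B 12 7 (Pf.B 12 2 (Pf.B 12 5 (Pf.B 12 4 (Pf.B 12 3 (Pf.W 197 515 [] [8,0,1,2,5,6,7,9,10,11,12] (Pf.cons (Pf.T 8 33 (Pf.cons (Pf.T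 9 10 (Pf.cons (Pf.W 195 2 [] [0,1,3,4,5,6,7,8,9,10,11,12] (Pf.cons (Pf.B 13 12 (Pf.B 13 10 (Pf.B 13 11 (Pf.C 7 0x43450b) (Pf.B 13 8 (Pf.B 13 9 (Pf.C 7 0x434409) (Pf.B 13 6 (Pf.B 13 7 (Pf.C 7 0x434307) (Pf.B 13 5 (Pf.B 13 4 (Pf.B 13 3 (Pf.B 13 1 (Pf.C 7 0x434601) (Pf.T 11 10 (Pf.cons (Pf.W 10 16397 [] [9,11] (Pf.cons (Pf.B 14 11 (Pf.B 14 9 (Pf.C 7 0xb1a2400e) (Pf.C 4 1166)) (Pf.C 4 1422)) (Pf.cons (Pf.B 14 11 (Pf.C 5 0x2c700) (Pf.B 14 9 (Pf.C 5 0x24700) (Pf.C 0 0x1634709))) Pf.nil))) (Pf.cons (Pf.C 174 1675) Pf.nil)))) (Pf.C 0 0x102418d)) (Pf.C 0 0x142c20d)) (Pf.C 0 0xc1c28d))) (Pf.C 2 781))) (Pf.C 2 1037))) (Pf.C 2 1293)) (Pf.C 2 1549)) Pf.nil)) (Pf.cons (Pf.C 174 1033) Pf.nil))) (Pf.cons (Pf.C 198 392) Pf.nil)))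 (Pf.cons (Pf.B 13 10 (Pf.B 13 8 (Pf.C 6 0x80634504) (Pf.C 2 1037)) (Pf.C 2 1293)) (Pf.cons (Pf.T 10 33 (Pf.cons (Pf.T 11 10 (Pf.cons (Pf.W 195 2 [] [0,1,3,4,5,6,7,8,9,10,11,12] (Pf.cons (Pf.B 13 12 (Pf.B 13 10 (Pf.B 13 11 (Pf.C 7 0x43450b) (Pf.B 13 8 (Pf.B 13 9 (Pf.C 7 0x434409) (Pf.B 13 6 (Pf.B 13 7 (Pf.C 7 0x434307) (Pf.B 13 5 (Pf.B 13 4 (Pf.B 13 3 (Pf.B 13 1 (Pf.C 7 0x434601) (Pf.T 9 10 (Pf.cons (Pf.W 10 16397 [] [9,11] (Pf.cons (Pf.B 14 11 (Pf.B 14 9 (Pf.C 7 0xb1a2400e) (Pf.C 4 1166)) (Pf.C 4 1422)) (Pf.cons (Pf.B 14 11 (Pf.C 5 0x2c700) (Pf.B 14 9 (Pf.C 5 0x24700) (Pf.C 0 0x1634709))) Pf.nil))) (Pf.cons (Pf.C 174 1673) Pf.nil)))) (Pf.C 0 0x102418d)) (Pf.C 0 0x142c20d)) (Pf.C 0 0xc1c28d))) (Pf.C 2 781)))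 (Pf.C 2 1037))) (Pf.C 2 1293)) (Pf.C 2 1549)) Pf.nil)) (Pf.cons (Pf.C 174 1291) Pf.nil))) (Pf.cons (Pf.C 198 522) Pf.nil))) (Pf.cons (Pf.B 13 10 (Pf.B 13 8 (Pf.C 6 0xa0834188) (Pf.C 2 1037)) (Pf.C 2 1293)) Pf.nil))))) (Pf.C 6 0x80630504)) (Pf.C 6 0xa0830305)) (Pf.B 12 4 (Pf.C 6 0x60a30504) (Pf.C 0 0xa04604))) (Pf.C 7 0x430386)) (Pf.C 7 0x60e30488)) (Pf.C 7 0x8123058a)) (Pf.B 12 9 (Pf.C 7 0xa1630409) (Pf.B 12 7 (Pf.C 7 0x81230307) (Pf.B 12 5 (Pf.B 12 4 (Pf.B 12 3 (Pf.B 12 2 (Pf.C 7 0x60e30002) (Pf.T 11 10 (Pf.cons (Pf.T 9 10 (Pf.cons (Pf.W 10 16396 [] [9,11] (Pf.cons (Pf.B 13 11 (Pf.B 13 9 (Pf.C 7 0xb182400d) (Pf.C 4 1165)) (Pf.C 4 1421)) (Pf.cons (Pf.B 13 11 (Pf.C 5 0x2c680) (Pf.B 13 9 (Pf.C 5 0x24680) (Pf.C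 0 0x1630689))) Pf.nil))) (Pf.cons (Pf.C 174 1545) Pf.nil))) (Pf.cons (Pf.C 174 1547) Pf.nil)))) (Pf.C 0 0x102418c)) (Pf.C 0 0x142c20c)) (Pf.C 0 0xc1c28c))))) (Pf.C 2 780)) (Pf.C 2 1036)) (Pf.C 2 1292)) Pf.nil)) (Pf.C 4 139)) (Pf.C 4 267)))) (Pf.C 7 0x9102c386)) (Pf.C 0 0xe1430b))) (Pf.C 4 907)) (Pf.C 4 1163)) Pf.nil))) (Pf.W 173 1 [] [0,2,3,4,5,6,7,8,9,10] (Pf.cons (Pf.W 197 515 [] [8,0,1,2,5,6,7,9,10] (Pf.cons (Pf.T 8 33 (Pf.cons (Pf.T 9 10 (Pf.cons (Pf.W 195 2 [] [0,1,3,4,5,6,7,8,9,10] (Pf.cons (Pf.B 11 10 (Pf.B 11 8 (Pf.B 11 9 (Pf.C 7 0x42c409) (Pf.B 11 6 (Pf.B 11 7 (Pf.C 7 0x42c307) (Pf.B 11 5 (Pf.B 11 4 (Pf.B 11 3 (Pf.B 11 1 (Pf.C 7 0x42c501) (Pf.W 10 16395 [] [7,9] (Pf.cons (Pf.B 12 9 (Pf.B 12 7 (Pf.C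 7 0x9161c00c) (Pf.C 4 908)) (Pf.C 4 1164)) (Pf.cons (Pf.B 12 9 (Pf.C 5 0x24600) (Pf.B 12 7 (Pf.C 5 0x1c600) (Pf.C 0 0x122c607))) Pf.nil)))) (Pf.C 0 0x102418b)) (Pf.C 0 0xe10582)) (Pf.C 0 0xc1c28b))) (Pf.C 2 779))) (Pf.C 2 1035)) (Pf.C 2 1291)) Pf.nil)) (Pf.cons (Pf.C 174 1033) Pf.nil))) (Pf.cons (Pf.C 198 392) Pf.nil))) (Pf.cons (Pf.B 11 10 (Pf.B 11 8 (Pf.C 6 0x8062c504) (Pf.C 2 1035)) (Pf.C 2 1291)) (Pf.cons (Pf.T 10 33 (Pf.cons (Pf.W 195 2 [] [0,1,3,4,5,6,7,8,9,10] (Pf.cons (Pf.B 11 10 (Pf.B 11 8 (Pf.B 11 9 (Pf.C 7 0x42c409) (Pf.B 11 6 (Pf.B 11 7 (Pf.C 7 0x42c307) (Pf.B 11 5 (Pf.B 11 4 (Pf.B 11 3 (Pf.B 11 1 (Pf.C 7 0x42c501) (Pf.T 9 10 (Pf.cons (Pf.W 10 16395 [] [7,9] (Pf.cons (Pf.B 12 9 (Pf.B 12 7 (Pf.C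 7 0x9161c00c) (Pf.C 4 908)) (Pf.C 4 1164)) (Pf.cons (Pf.B 12 9 (Pf.C 5 0x24600) (Pf.B 12 7 (Pf.C 5 0x1c600) (Pf.C 0 0x122c607))) Pf.nil))) (Pf.cons (Pf.C 174 1417) Pf.nil)))) (Pf.C 0 0x102418b)) (Pf.C 0 0xe10582)) (Pf.C 0 0xc1c28b))) (Pf.C 2 779))) (Pf.C 2 1035)) (Pf.C 2 1291)) Pf.nil)) (Pf.cons (Pf.C 198 138) Pf.nil))) (Pf.cons (Pf.B 11 10 (Pf.B 11 8 (Pf.C 6 0xa082c188) (Pf.C 2 1035)) (Pf.C 2 1291)) Pf.nil))))) (Pf.cons (Pf.B 11 10 (Pf.B 11 8 (Pf.B 11 9 (Pf.C 7 0xa022c409) (Pf.B 11 6 (Pf.B 11 7 (Pf.C 7 0xa022c307) (Pf.B 11 5 (Pf.B 11 4 (Pf.B 11 3 (Pf.B 11 2 (Pf.C 7 0xa022c002) (Pf.T 9 10 (Pf.cons (Pf.W 10 16395 [] [7,9] (Pf.cons (Pf.B 12 9 (Pf.B 12 7 (Pf.C 7 0x9161c00c) (Pf.C 4 908)) (Pf.C 4 1164)) (Pf.cons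 (Pf.B 12 9 (Pf.C 5 0x24600) (Pf.B 12 7 (Pf.C 5 0x1c600) (Pf.C 0 0x122c607))) Pf.nil))) (Pf.cons (Pf.C 174 1417) Pf.nil)))) (Pf.C 0 0x102418b)) (Pf.C 0 0x140420b)) (Pf.C 0 0xc1c28b))) (Pf.C 2 779))) (Pf.C 2 1035)) (Pf.C 2 1291)) Pf.nil)))) (Pf.C 6 0x80628305)) (Pf.B 10 3 (Pf.C 6 0x60a28403) (Pf.B 10 1 (Pf.W 140 10 [] [0,4,5,6,7] (Pf.cons (Pf.B 11 7 (Pf.C 5 0x1c58a) (Pf.B 11 5 (Pf.B 11 6 (Pf.C 6 0xa0a1800b) (Pf.C 0 0xa1c30b)) (Pf.C 3 651))) (Pf.cons (Pf.B 11 5 (Pf.C 132 651) (Pf.B 11 4 (Pf.C 132 523) (Pf.C 0 0xa28584))) Pf.nil))) (Pf.C 0 0x804503)))) (Pf.C 7 0x428386)) (Pf.C 7 0x60e28488)) (Pf.B 10 7 (Pf.C 7 0x81228307) (Pf.C 0 0x1210507))) (Pf.C 2 778)) (Pf.C 2 1034)) (Pf.cons (Pf.B 10 9 (Pf.B 10 8 (Pf.C 5 0x28208)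 (Pf.B 10 7 (Pf.B 10 6 (Pf.C 5 0x28206) (Pf.B 10 5 (Pf.B 10 3 (Pf.B 10 2 (Pf.B 10 1 (Pf.W 150 10 [] [0,2,6] (Pf.cons (Pf.B 11 6 (Pf.B 11 2 (Pf.C 5 34182) (Pf.C 126 267)) (Pf.C 0 0x28586)) Pf.nil)) (Pf.C 4 138)) (Pf.C 4 266)) (Pf.C 0 0x122018a)) (Pf.C 0 0xe1828a))) (Pf.C 4 906))) (Pf.C 4 1162)) Pf.nil))) (Pf.C 4 137)) (Pf.C 4 265)))) (Pf.C 0 0xe14309))) (Pf.C 4 905)) Pf.nil))) (Pf.W 146 4 [] [0,1,2,3,5,6,7,8] (Pf.cons (Pf.B 9 8 (Pf.B 9 6 (Pf.B 9 7 (Pf.B 9 2 (Pf.B 9 1 (Pf.B 9 5 (Pf.B 9 3 (Pf.W 140 9 [] [0,1,2,3,4,5,6,7,8] (Pf.cons (Pf.B 10 7 (Pf.C 5 0x1c509) (Pf.B 10 5 (Pf.B 10 6 (Pf.B 10 2 (Pf.C 5 34054) (Pf.C 126 266)) (Pf.C 0 0xa1c30a)) (Pf.C 3 650))) (Pf.cons (Pf.B 10 7 (Pf.B 10 5 (Pf.C 132 650) (Pf.B 10 6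 (Pf.B 10 8 (Pf.B 10 4 (Pf.C 132 522) (Pf.B 10 3 (Pf.C 132 394) (Pf.B 10 2 (Pf.B 10 1 (Pf.W 173 1 [] [0,2,3,4,5,6,7,8,9,10] (Pf.cons (Pf.W 197 515 [] [8,0,1,2,5,6,7,9,10] (Pf.cons (Pf.T 8 33 (Pf.cons (Pf.W 195 2 [] [0,1,3,4,5,6,7,8,9,10] (Pf.cons (Pf.B 11 9 (Pf.B 11 10 (Pf.C 7 0x42c48a) (Pf.B 11 8 (Pf.B 11 6 (Pf.B 11 7 (Pf.C 7 0x42c307) (Pf.B 11 5 (Pf.B 11 4 (Pf.B 11 3 (Pf.B 11 1 (Pf.C 7 0x42c401) (Pf.T 10 10 (Pf.cons (Pf.W 10 16395 [] [7,10] (Pf.cons (Pf.B 12 10 (Pf.B 12 7 (Pf.C 7 0xa161c00c) (Pf.C 4 908)) (Pf.C 4 1292)) (Pf.cons (Pf.B 12 10 (Pf.C 5 0x28600) (Pf.B 12 7 (Pf.C 5 0x1c600) (Pf.C 0 0x142c607))) Pf.nil))) (Pf.cons (Pf.C 174 1418) Pf.nil)))) (Pf.C 0 0xe0c582)) (Pf.C 0 0x122820b)) (Pf.C 0 0xc1c28b)))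 (Pf.C 2 779)) (Pf.C 2 1035))) (Pf.C 2 1163)) Pf.nil)) (Pf.cons (Pf.C 198 136) Pf.nil))) (Pf.cons (Pf.B 11 9 (Pf.B 11 8 (Pf.C 6 0x8062c484) (Pf.C 2 1035)) (Pf.C 2 1163)) (Pf.cons (Pf.T 9 33 (Pf.cons (Pf.T 10 10 (Pf.cons (Pf.W 195 2 [] [0,1,3,4,5,6,7,8,9,10] (Pf.cons (Pf.B 11 9 (Pf.B 11 10 (Pf.C 7 0x42c48a) (Pf.B 11 8 (Pf.B 11 6 (Pf.B 11 7 (Pf.C 7 0x42c307) (Pf.B 11 5 (Pf.B 11 4 (Pf.B 11 3 (Pf.B 11 1 (Pf.C 7 0x42c401) (Pf.W 10 16395 [] [7,10] (Pf.cons (Pf.B 12 10 (Pf.B 12 7 (Pf.C 7 0xa161c00c) (Pf.C 4 908)) (Pf.C 4 1292)) (Pf.cons (Pf.B 12 10 (Pf.C 5 0x28600) (Pf.B 12 7 (Pf.C 5 0x1c600) (Pf.C 0 0x142c607))) Pf.nil)))) (Pf.C 0 0xe0c582)) (Pf.C 0 0x122820b)) (Pf.C 0 0xc1c28b))) (Pf.C 2 779)) (Pf.C 2 1035))) (Pf.C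 2 1163)) Pf.nil)) (Pf.cons (Pf.C 174 1162) Pf.nil))) (Pf.cons (Pf.C 198 521) Pf.nil))) (Pf.cons (Pf.B 11 9 (Pf.B 11 8 (Pf.C 6 0x9082c188) (Pf.C 2 1035)) (Pf.C 2 1163)) Pf.nil))))) (Pf.cons (Pf.B 11 9 (Pf.B 11 8 (Pf.B 11 10 (Pf.C 7 0x8022c48a) (Pf.B 11 6 (Pf.B 11 7 (Pf.C 7 0x8022c307) (Pf.B 11 5 (Pf.B 11 4 (Pf.B 11 3 (Pf.B 11 2 (Pf.C 7 0x8022c002) (Pf.T 10 10 (Pf.cons (Pf.W 10 16395 [] [7,10] (Pf.cons (Pf.B 12 10 (Pf.B 12 7 (Pf.C 7 0xa161c00c) (Pf.C 4 908)) (Pf.C 4 1292)) (Pf.cons (Pf.B 12 10 (Pf.C 5 0x28600) (Pf.B 12 7 (Pf.C 5 0x1c600) (Pf.C 0 0x142c607))) Pf.nil))) (Pf.cons (Pf.C 174 1418) Pf.nil)))) (Pf.C 0 0x100418b)) (Pf.C 0 0x122820b)) (Pf.C 0 0xc1c28b))) (Pf.C 2 779))) (Pf.C 2 1035)) (Pf.C 2 1163)) Pf.nil)))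 (Pf.C 4 138)) (Pf.C 4 266)))) (Pf.C 7 0x91420386)) (Pf.C 0 0xe1430a))) (Pf.C 4 906)) Pf.nil))) (Pf.C 6 0x80624305)) (Pf.B 9 3 (Pf.C 6 0x60a24403) (Pf.W 140 9 [] [0,4,5,6,7] (Pf.cons (Pf.B 10 7 (Pf.C 5 0x1c509) (Pf.B 10 5 (Pf.B 10 6 (Pf.C 6 0x90a1800a) (Pf.C 0 0xa1c30a)) (Pf.C 3 650))) (Pf.cons (Pf.B 10 5 (Pf.C 132 650) (Pf.B 10 4 (Pf.C 132 522) (Pf.C 0 0xa24504))) Pf.nil))))) (Pf.C 7 0x80224100)) (Pf.C 7 0x424386)) (Pf.B 9 2 (Pf.C 7 0x60e24002) (Pf.C 0 0xe10482))) (Pf.C 2 777)) (Pf.C 2 1033)) (Pf.cons (Pf.B 9 8 (Pf.C 5 0x24208) (Pf.B 9 7 (Pf.B 9 6 (Pf.C 5 0x24206) (Pf.B 9 5 (Pf.B 9 2 (Pf.B 9 1 (Pf.B 9 3 (Pf.W 150 9 [] [0,2,6] (Pf.cons (Pf.B 10 6 (Pf.B 10 2 (Pf.C 5 34054) (Pf.C 126 266)) (Pf.C 0 0x24506)) Pf.nil))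 (Pf.C 0 0x220189)) (Pf.C 4 137)) (Pf.C 4 265)) (Pf.C 0 0xe18289))) (Pf.C 4 905))) Pf.nil)))) (Pf.C 6 0x31010305)) (Pf.B 8 1 (Pf.B 8 4 (Pf.W 140 8 [] [0,3,5,6,7] (Pf.cons (Pf.B 9 7 (Pf.C 5 0x1c488) (Pf.B 9 5 (Pf.B 9 6 (Pf.C 6 0x80a18009) (Pf.C 0 0xa1c309)) (Pf.C 3 649))) (Pf.cons (Pf.B 9 5 (Pf.C 132 649) (Pf.B 9 3 (Pf.C 132 393) (Pf.C 0 0xa20483))) Pf.nil))) (Pf.W 140 8 [] [0,4,5,6,7] (Pf.cons (Pf.B 9 7 (Pf.C 5 0x1c488) (Pf.B 9 5 (Pf.B 9 6 (Pf.C 6 0x80a18009) (Pf.C 0 0xa1c309)) (Pf.C 3 649))) (Pf.cons (Pf.B 9 5 (Pf.C 132 649) (Pf.B 9 4 (Pf.C 132 521) (Pf.C 0 0xa20484))) Pf.nil)))) (Pf.C 0 0xa04403))) (Pf.C 7 0x420386)) (Pf.B 8 2 (Pf.C 7 0x60e20002) (Pf.C 0 0xe0c402))) (Pf.C 2 776)) (Pf.cons (Pf.B 8 7 (Pf.B 8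 6 (Pf.C 5 0x20186) (Pf.B 8 5 (Pf.B 8 2 (Pf.B 8 1 (Pf.B 8 4 (Pf.W 150 8 [] [0,2,6] (Pf.cons (Pf.B 9 6 (Pf.B 9 2 (Pf.C 5 33926) (Pf.C 126 265)) (Pf.C 0 0x20486)) Pf.nil)) (Pf.W 150 8 [] [0,2,6] (Pf.cons (Pf.B 9 6 (Pf.B 9 2 (Pf.C 5 33926) (Pf.C 126 265)) (Pf.C 0 0x20486)) Pf.nil))) (Pf.C 4 136)) (Pf.C 4 264)) (Pf.C 0 0xe18288))) (Pf.C 4 904)) Pf.nil))))
 (Pq.cons (Pq.L [0] 0x136836 (Pf.C 1 0x201061c300))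
 (Pq.cons (Pq.L [] 1024 (Pf.C 169 263))
 (Pq.cons (Pq.L [] 16384 (Pf.C 169 899))
 Pq.nil))))) (Pq.cons (Pq.L [] 512 (Pf.C 169 262))
 (Pq.cons (Pq.L [] 8192 (Pf.C 169 771))
 Pq.nil))))) (Pq.cons (Pq.L [] 256 (Pf.C 4 642))
 Pq.nil))))) (Pq.cons (Pq.L [] 128 (Pf.C 4 514))
 Pq.nil))))) (Pq.cons (Pq.L [] 64 (Pf.C 4 386))
 Pq.nil))))) Pq.nil))))) Pq.nil)
theorem e4_o75 : AllRef e4_T e4_G64 (List.take 1 (List.flatMap (splitP 0) (List.drop 1 (applyObl d_T 2 [188,194,197,200] [0,0,0,0] [(188,0x20000000000000000000000000000000000000000000000000),(197,0x100000000000000000000000000000000000000000000000)])))) :=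
  chkPq_sound e4_o75c _ (by decide +kernel)
noncomputable def e4_o76c : Pq := (Pq.cons (Pq.D 1 (Pq.cons (Pq.D 2 (Pq.cons (Pq.L [] 64 (Pf.C 4 386))
 (Pq.cons (Pq.D 3 (Pq.cons (Pq.L [] 128 (Pf.C 4 514))
 (Pq.cons (Pq.D 4 (Pq.cons (Pq.L [] 256 (Pf.C 4 642))
 (Pq.cons (Pq.D 5 (Pq.cons (Pq.D 6 (Pq.cons (Pq.L [] 0x136ef7 (Pf.C 1 0x202061c301))
 (Pq.cons (Pq.L [] 0x136ef7 (Pf.C 1 0x202061c301))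
 (Pq.cons (Pq.L [] 0x100030 (Pf.C 5 99201))
 (Pq.cons (Pq.L [0] 0x24ce7 (Pf.C 1 0x202061c001))
 Pq.nil))))) (Pq.cons (Pq.L [] 0x40000 (Pf.C 2 773))
 (Pq.cons (Pq.D 6 (Pq.cons (Pq.L [] 0x100030 (Pf.C 5 0x1c301))
 (Pq.cons (Pq.L [0] 0x1c7740 (Pf.W 140 7 [] [0,2,3,5,6] (Pf.cons (Pf.B 8 6 (Pf.B 8 5 (Pf.C 6 0x70c14008) (Pf.B 8 2 (Pf.C 5 33799) (Pf.C 0 0xc14108))) (Pf.C 3 776)) (Pf.cons (Pf.B 8 6 (Pf.C 132 776) (Pf.B 8 5 (Pf.B 8 2 (Pf.B 8 3 (Pf.C 7 0x5040c388) (Pf.T 8 10 (Pf.cons (Pf.W 10 32771 [] [5,6,7,8] (Pf.cons (Pf.B 9 8 (Pf.B 9 7 (Pf.C 7 0x3101c009) (Pf.B 9 6 (Pf.C 5 0x24303) (Pf.C 0 0x101c309))) (Pf.C 4 1033)) (Pf.cons (Pf.B 9 8 (Pf.C 5 0x20480) (Pf.B 9 7 (Pf.B 9 6 (Pf.B 9 5 (Pf.C 6 0x70c14189) (Pf.B 9 2 (Pf.C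 5 33920) (Pf.C 0 0xc14109))) (Pf.C 3 777)) (Pf.C 0 0x620487))) Pf.nil))) (Pf.cons (Pf.C 174 392) Pf.nil)))) (Pf.C 4 264)) (Pf.C 0 0xe18405))) Pf.nil))))
 (Pq.cons (Pq.L [] 0x1c0700 (Pf.C 0 0xe18105))
 (Pq.cons (Pq.L [0] 0x24ce7 (Pf.C 1 0x202061c001))
 Pq.nil))))) (Pq.cons (Pq.L [0] 76503 (Pf.C 1 0x2020618001))
 Pq.nil))))) (Pq.cons (Pq.L [] 265 (Pf.C 5 33409))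
 (Pq.cons (Pq.L [] 256 (Pf.C 4 642))
 Pq.nil))))) (Pq.cons (Pq.L [] 133 (Pf.C 5 33281))
 (Pq.cons (Pq.L [] 128 (Pf.C 4 514))
 Pq.nil))))) (Pq.cons (Pq.L [] 67 (Pf.C 5 33153))
 (Pq.cons (Pq.L [] 64 (Pf.C 4 386))
 Pq.nil))))) (Pq.cons (Pq.D 2 (Pq.cons (Pq.D 3 (Pq.cons (Pq.D 4 (Pq.cons (Pq.D 5 (Pq.cons (Pq.L [] 0x40000 (Pf.C 4 773))
 (Pq.cons (Pq.D 6 (Pq.cons (Pq.L [] 0x136ef7 (Pf.C 1 0x202061c301))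
 (Pq.cons (Pq.L [] 0x136ef7 (Pf.C 1 0x202061c301))
 (Pq.cons (Pq.L [0] 0x1c87c0 (Pf.W 10 49154 [] [4,5,6,7] (Pf.cons (Pf.B 8 7 (Pf.C 5 0x20382) (Pf.B 8 5 (Pf.B 8 6 (Pf.C 7 0x20a18008) (Pf.C 0 0xa1c308)) (Pf.C 4 648))) (Pf.cons (Pf.B 8 5 (Pf.C 5 82944) (Pf.B 8 4 (Pf.C 5 66560) (Pf.C 0 0xa08404))) Pf.nil))))
 (Pq.cons (Pq.L [0] 0x24ce7 (Pf.C 1 0x202061c001))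
 Pq.nil))))) (Pq.cons (Pq.L [] 0x40018 (Pf.C 5 82689))
 (Pq.cons (Pq.L [0] 76503 (Pf.C 1 0x2020618001))
 Pq.nil))))) (Pq.cons (Pq.L [] 256 (Pf.C 2 642))
 (Pq.cons (Pq.L [] 39360 (Pf.C 0 0x814103))
 (Pq.cons (Pq.D 5 (Pq.cons (Pq.L [] 0x40000 (Pf.C 4 773))
 (Pq.cons (Pq.D 6 (Pq.cons (Pq.L [] 0x136ef7 (Pf.C 1 0x202061c301))
 (Pq.cons (Pq.L [] 0x136ef7 (Pf.C 1 0x202061c301))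
 (Pq.cons (Pq.L [] 0x80028 (Pf.C 5 82817))
 (Pq.cons (Pq.L [0] 0x24ce7 (Pf.C 1 0x202061c001))
 Pq.nil))))) (Pq.cons (Pq.D 6 (Pq.cons (Pq.L [] 0x100030 (Pf.C 5 0x1c301))
 (Pq.cons (Pq.L [0] 2240 (Pf.W 10 49154 [] [4] (Pf.cons (Pf.B 8 4 (Pf.B 8 3 (Pf.C 7 0x4040c008) (Pf.C 4 392)) (Pf.C 4 520)) (Pf.cons (Pf.B 8 4 (Pf.C 5 66560) (Pf.B 8 3 (Pf.C 5 50176) (Pf.C 0 0x808403))) Pf.nil))))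
 (Pq.cons (Pq.L [] 0x80028 (Pf.C 5 82817))
 (Pq.cons (Pq.L [0] 0x24ce7 (Pf.C 1 0x202061c001))
 Pq.nil))))) (Pq.cons (Pq.L [0] 76503 (Pf.C 1 0x2020618001))
 Pq.nil))))) Pq.nil))))) (Pq.cons (Pq.L [] 128 (Pf.C 2 514))
 (Pq.cons (Pq.D 4 (Pq.cons (Pq.L [] 39360 (Pf.C 0 0xa10103))
 (Pq.cons (Pq.L [] 256 (Pf.C 2 642))
 (Pq.cons (Pq.L [] 39360 (Pf.C 0 0xa0c104))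
 (Pq.cons (Pq.L [] 32780 (Pf.C 5 82433))
 Pq.nil))))) (Pq.cons (Pq.D 4 (Pq.cons (Pq.D 5 (Pq.cons (Pq.L [] 0x40000 (Pf.C 4 773))
 (Pq.cons (Pq.L [0] 0x17fff7 (Pf.B 7 3 (Pf.C 1 0x2020618381) (Pf.W 10 49154 [] [4,5,6] (Pf.cons (Pf.B 8 5 (Pf.B 8 3 (Pf.C 7 0x5040c008) (Pf.C 4 392)) (Pf.C 4 648)) (Pf.cons (Pf.B 8 5 (Pf.C 5 82944) (Pf.B 8 6 (Pf.B 8 4 (Pf.C 5 66566) (Pf.C 0 0xa08404)) (Pf.C 0 0x414406))) Pf.nil)))))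
 (Pq.cons (Pq.L [] 65556 (Pf.C 5 66305))
 (Pq.cons (Pq.L [] 0x40000 (Pf.C 4 773))
 Pq.nil))))) (Pq.cons (Pq.L [] 256 (Pf.C 2 642))
 (Pq.cons (Pq.L [] 32780 (Pf.C 5 66177))
 (Pq.cons (Pq.L [0] 32780 (Pf.W 140 1 [] [0,4,5] (Pf.cons (Pf.B 8 5 (Pf.C 5 82945) (Pf.C 126 648)) (Pf.cons (Pf.B 8 5 (Pf.B 8 4 (Pf.C 7 0x50010088) (Pf.C 4 520)) (Pf.C 4 648)) Pf.nil))))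
 Pq.nil))))) Pq.nil))))) (Pq.cons (Pq.L [] 64 (Pf.C 2 386))
 (Pq.cons (Pq.D 3 (Pq.cons (Pq.D 4 (Pq.cons (Pq.L [] 39360 (Pf.C 0 0xa0c104))
 (Pq.cons (Pq.L [] 256 (Pf.C 2 642))
 (Pq.cons (Pq.L [] 39360 (Pf.C 0 0xa10103))
 (Pq.cons (Pq.L [] 4106 (Pf.C 5 82305))
 Pq.nil))))) (Pq.cons (Pq.L [] 128 (Pf.C 2 514))
 (Pq.cons (Pq.D 4 (Pq.cons (Pq.L [] 39360 (Pf.C 0 0x814103))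
 (Pq.cons (Pq.L [] 256 (Pf.C 2 642))
 (Pq.cons (Pq.D 5 (Pq.cons (Pq.L [] 0x40018 (Pf.C 5 98945))
 (Pq.cons (Pq.D 6 (Pq.cons (Pq.L [0] 0x1c8780 (Pf.W 140 2 [] [0,4,5,6,7] (Pf.cons (Pf.B 8 7 (Pf.C 5 0x1c402) (Pf.B 8 5 (Pf.B 8 6 (Pf.C 6 0x20a18008) (Pf.C 0 0xa1c308)) (Pf.C 3 648))) (Pf.cons (Pf.B 8 5 (Pf.C 132 648) (Pf.B 8 4 (Pf.C 132 520) (Pf.C 0 0xa08404))) Pf.nil))))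
 (Pq.cons (Pq.L [] 0x136ef7 (Pf.C 1 0x202061c301))
 (Pq.cons (Pq.L [] 0x136ef7 (Pf.C 1 0x202061c301))
 (Pq.cons (Pq.L [] 16418 (Pf.C 5 0x1c181))
 Pq.nil))))) (Pq.cons (Pq.L [] 0x40000 (Pf.C 3 773))
 (Pq.cons (Pq.L [] 8210 (Pf.C 5 98689))
 Pq.nil))))) (Pq.cons (Pq.L [] 4106 (Pf.C 5 82305))
 Pq.nil))))) (Pq.cons (Pq.L [] 2054 (Pf.C 5 65921))
 Pq.nil))))) (Pq.cons (Pq.D 3 (Pq.cons (Pq.D 4 (Pq.cons (Pq.D 5 (Pq.cons (Pq.L [] 0x40000 (Pf.C 4 773))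
 (Pq.cons (Pq.L [0] 0x13eff7 (Pf.B 7 4 (Pf.C 1 0x1820818381) (Pf.W 10 65538 [] [5] (Pf.cons (Pf.B 8 5 (Pf.B 8 4 (Pf.C 7 0x50410008) (Pf.C 4 520)) (Pf.C 4 648)) (Pf.cons (Pf.B 8 5 (Pf.C 5 82944) (Pf.B 8 4 (Pf.C 5 66560) (Pf.C 0 0xa08404))) Pf.nil)))))
 (Pq.cons (Pq.L [] 8210 (Pf.C 5 49921))
 (Pq.cons (Pq.L [] 0x40000 (Pf.C 4 773))
 Pq.nil))))) (Pq.cons (Pq.L [] 256 (Pf.C 2 642))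
 (Pq.cons (Pq.L [] 4106 (Pf.C 5 49793))
 (Pq.cons (Pq.L [0] 4106 (Pf.W 140 1 [] [0,3,5] (Pf.cons (Pf.B 8 5 (Pf.C 5 82945) (Pf.C 126 648)) (Pf.cons (Pf.B 8 5 (Pf.B 8 3 (Pf.C 7 0x5000c088) (Pf.C 4 392)) (Pf.C 4 648)) Pf.nil))))
 Pq.nil))))) (Pq.cons (Pq.L [] 128 (Pf.C 2 514))
 (Pq.cons (Pq.L [] 2054 (Pf.C 5 49665))
 (Pq.cons (Pq.L [0] 2054 (Pf.W 140 1 [] [0,3,4] (Pf.cons (Pf.B 8 4 (Pf.C 5 66561) (Pf.C 126 520)) (Pf.cons (Pf.B 8 4 (Pf.B 8 3 (Pf.C 7 0x4000c088) (Pf.C 4 392)) (Pf.C 4 520)) Pf.nil))))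
 Pq.nil))))) Pq.nil))))) (Pq.cons (Pq.D 2 (Pq.cons (Pq.L [] 67 (Pf.C 5 49409))
 (Pq.cons (Pq.D 3 (Pq.cons (Pq.L [] 133 (Pf.C 5 65793))
 (Pq.cons (Pq.D 4 (Pq.cons (Pq.L [] 265 (Pf.C 5 82177))
 (Pq.cons (Pq.D 5 (Pq.cons (Pq.D 6 (Pq.cons (Pq.L [] 0x1c0700 (Pf.C 0 0xe18105))
 (Pq.cons (Pq.L [0] 0x1c7340 (Pf.W 140 3 [] [0,2,5,6,7] (Pf.cons (Pf.B 8 6 (Pf.C 5 99331) (Pf.B 8 2 (Pf.B 8 5 (Pf.C 6 0x30414008) (Pf.C 0 0x418288)) (Pf.C 3 264))) (Pf.cons (Pf.B 8 6 (Pf.B 8 2 (Pf.C 132 264) (Pf.B 8 5 (Pf.B 8 7 (Pf.C 7 0x50c1c188) (Pf.T 8 10 (Pf.cons (Pf.W 10 98311 [] [8] (Pf.cons (Pf.B 9 8 (Pf.B 9 6 (Pf.C 7 0x80e18009) (Pf.C 4 777)) (Pf.C 4 1033)) (Pf.cons (Pf.B 9 8 (Pf.C 5 0x20480) (Pf.B 9 6 (Pf.C 5 99456) (Pf.C 0 0x101c486)))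 Pf.nil))) (Pf.cons (Pf.C 174 392) Pf.nil)))) (Pf.C 0 0xc08288))) (Pf.C 4 776)) Pf.nil))))
 (Pq.cons (Pq.L [] 0x100030 (Pf.C 5 99201))
 (Pq.cons (Pq.L [] 1057 (Pf.C 5 0x1c101))
 Pq.nil))))) (Pq.cons (Pq.L [] 0x40000 (Pf.C 2 773))
 (Pq.cons (Pq.D 6 (Pq.cons (Pq.L [] 0x100030 (Pf.C 5 0x1c301))
 (Pq.cons (Pq.L [] 0x136ef7 (Pf.C 1 0x202061c301))
 (Pq.cons (Pq.L [] 0x136ef7 (Pf.C 1 0x202061c301))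
 (Pq.cons (Pq.L [] 1057 (Pf.C 5 0x1c101))
 Pq.nil))))) (Pq.cons (Pq.L [] 529 (Pf.C 5 98561))
 Pq.nil))))) (Pq.cons (Pq.L [] 256 (Pf.C 3 642))
 (Pq.cons (Pq.D 5 (Pq.cons (Pq.L [] 0x40000 (Pf.C 4 773))
 (Pq.cons (Pq.D 6 (Pq.cons (Pq.L [0] 0x140038 (Pf.W 140 1 [] [0,5,6,7] (Pf.cons (Pf.B 8 5 (Pf.C 5 82945) (Pf.C 126 648)) (Pf.cons (Pf.B 8 7 (Pf.B 8 5 (Pf.B 8 6 (Pf.C 7 0xa18088) (Pf.T 8 10 (Pf.cons (Pf.W 10 0x1c006 [] [8] (Pf.cons (Pf.B 9 8 (Pf.B 9 7 (Pf.C 7 0x80c1c009) (Pf.C 4 905)) (Pf.C 4 1033)) (Pf.cons (Pf.B 9 8 (Pf.C 5 0x20480) (Pf.B 9 7 (Pf.C 5 0x1c480) (Pf.C 0 0x1018487))) Pf.nil))) (Pf.cons (Pf.C 174 136) Pf.nil)))) (Pf.C 4 648)) (Pf.C 4 904)) Pf.nil))))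
 (Pq.cons (Pq.L [] 0x136ef7 (Pf.C 1 0x202061c301))
 (Pq.cons (Pq.L [] 0x80028 (Pf.C 5 82817))
 (Pq.cons (Pq.L [] 1057 (Pf.C 5 0x1c101))
 Pq.nil))))) (Pq.cons (Pq.D 6 (Pq.cons (Pq.L [] 0x100030 (Pf.C 5 0x1c301))
 (Pq.cons (Pq.L [] 0x136ef7 (Pf.C 1 0x202061c301))
 (Pq.cons (Pq.L [] 0x80028 (Pf.C 5 82817))
 (Pq.cons (Pq.L [] 1057 (Pf.C 5 0x1c101))
 Pq.nil))))) (Pq.cons (Pq.L [] 529 (Pf.C 5 98561))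
 Pq.nil))))) Pq.nil))))) (Pq.cons (Pq.L [] 128 (Pf.C 3 514))
 (Pq.cons (Pq.D 4 (Pq.cons (Pq.L [] 265 (Pf.C 5 82177))
 (Pq.cons (Pq.D 5 (Pq.cons (Pq.D 6 (Pq.cons (Pq.L [0] 0x1f803c (Pf.C 1 0x3860a10001))
 (Pq.cons (Pq.L [0] 0x1f803c (Pf.C 1 0x3860a10001))
 (Pq.cons (Pq.L [] 0x20024 (Pf.C 5 66433))
 (Pq.cons (Pq.L [] 1057 (Pf.C 5 0x1c101))
 Pq.nil))))) (Pq.cons (Pq.L [] 0x40000 (Pf.C 2 773))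
 (Pq.cons (Pq.L [] 65556 (Pf.C 5 66305))
 (Pq.cons (Pq.L [] 529 (Pf.C 5 98561))
 Pq.nil))))) (Pq.cons (Pq.L [] 32780 (Pf.C 5 66177))
 (Pq.cons (Pq.L [0] 32780 (Pf.W 140 1 [] [0,4,5] (Pf.cons (Pf.B 8 5 (Pf.C 5 82945) (Pf.C 126 648)) (Pf.cons (Pf.B 8 5 (Pf.B 8 4 (Pf.C 7 0x50010088) (Pf.C 4 520)) (Pf.C 4 648)) Pf.nil))))
 Pq.nil))))) Pq.nil))))) (Pq.cons (Pq.L [] 64 (Pf.C 3 386))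
 (Pq.cons (Pq.D 3 (Pq.cons (Pq.L [] 133 (Pf.C 5 65793))
 (Pq.cons (Pq.D 4 (Pq.cons (Pq.L [] 265 (Pf.C 5 82177))
 (Pq.cons (Pq.D 5 (Pq.cons (Pq.D 6 (Pq.cons (Pq.L [0] 0x1c703a (Pf.C 1 0x3860a0c001))
 (Pq.cons (Pq.L [0] 0x1c703a (Pf.C 1 0x3860a0c001))
 (Pq.cons (Pq.L [] 16418 (Pf.C 5 50049))
 (Pq.cons (Pq.L [] 1057 (Pf.C 5 0x1c101))
 Pq.nil))))) (Pq.cons (Pq.L [] 0x40000 (Pf.C 2 773))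
 (Pq.cons (Pq.L [] 8210 (Pf.C 5 49921))
 (Pq.cons (Pq.L [] 529 (Pf.C 5 98561))
 Pq.nil))))) (Pq.cons (Pq.L [] 4106 (Pf.C 5 49793))
 (Pq.cons (Pq.L [0] 4106 (Pf.W 140 1 [] [0,3,5] (Pf.cons (Pf.B 8 5 (Pf.C 5 82945) (Pf.C 126 648)) (Pf.cons (Pf.B 8 5 (Pf.B 8 3 (Pf.C 7 0x5000c088) (Pf.C 4 392)) (Pf.C 4 648)) Pf.nil))))
 Pq.nil))))) (Pq.cons (Pq.L [] 2054 (Pf.C 5 49665))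
 (Pq.cons (Pq.L [0] 2054 (Pf.W 140 1 [] [0,3,4] (Pf.cons (Pf.B 8 4 (Pf.C 5 66561) (Pf.C 126 520)) (Pf.cons (Pf.B 8 4 (Pf.B 8 3 (Pf.C 7 0x4000c088) (Pf.C 4 392)) (Pf.C 4 520)) Pf.nil))))
 Pq.nil))))) Pq.nil))))) (Pq.cons (Pq.D 2 (Pq.cons (Pq.L [] 64 (Pf.C 4 386))
 (Pq.cons (Pq.D 3 (Pq.cons (Pq.L [] 128 (Pf.C 4 514))
 (Pq.cons (Pq.D 4 (Pq.cons (Pq.L [] 256 (Pf.C 4 642))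
 (Pq.cons (Pq.D 5 (Pq.cons (Pq.D 6 (Pq.cons (Pq.L [0] 0x106673 (Pf.C 1 0x182001c301))
 (Pq.cons (Pq.L [0] 0x106673 (Pf.C 1 0x182001c301))
 (Pq.cons (Pq.L [] 1057 (Pf.C 5 33665))
 (Pq.cons (Pq.L [] 0x136ef7 (Pf.C 1 0x202061c301))
 Pq.nil))))) (Pq.cons (Pq.L [] 0x136ef7 (Pf.C 1 0x202061c301))
 (Pq.cons (Pq.L [] 529 (Pf.C 5 33537))
 (Pq.cons (Pq.L [] 0x136ef7 (Pf.C 1 0x202061c301))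
 Pq.nil))))) (Pq.cons (Pq.D 5 (Pq.cons (Pq.L [] 0x40018 (Pf.C 5 98945))
 (Pq.cons (Pq.L [] 0x136ef7 (Pf.C 1 0x202061c301))
 (Pq.cons (Pq.L [] 529 (Pf.C 5 33537))
 (Pq.cons (Pq.L [] 0x136ef7 (Pf.C 1 0x202061c301))
 Pq.nil))))) (Pq.cons (Pq.L [] 256 (Pf.C 4 642))
 Pq.nil))))) (Pq.cons (Pq.D 4 (Pq.cons (Pq.L [] 256 (Pf.C 4 642))
 (Pq.cons (Pq.D 5 (Pq.cons (Pq.D 6 (Pq.cons (Pq.L [0] 0x106673 (Pf.C 1 0x182001c301))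
 (Pq.cons (Pq.L [0] 0x106673 (Pf.C 1 0x182001c301))
 (Pq.cons (Pq.L [] 1057 (Pf.C 5 33665))
 (Pq.cons (Pq.L [] 0x20024 (Pf.C 5 0x1c201))
 Pq.nil))))) (Pq.cons (Pq.L [] 0x40000 (Pf.C 2 773))
 (Pq.cons (Pq.L [] 529 (Pf.C 5 33537))
 (Pq.cons (Pq.L [] 65556 (Pf.C 5 98817))
 Pq.nil))))) (Pq.cons (Pq.D 5 (Pq.cons (Pq.L [] 0x40018 (Pf.C 5 98945))
 (Pq.cons (Pq.L [0] 0x1ffeff (Pf.B 7 4 (Pf.C 1 0x1820818381) (Pf.B 7 0 (Pf.C 1 0x1820018381) (Pf.B 7 5 (Pf.W 140 6 [] [0,1,2,3,5,7] (Pf.cons (Pf.B 8 2 (Pf.C 5 33798) (Pf.C 126 264)) (Pf.cons (Pf.B 8 5 (Pf.C 132 648) (Pf.B 8 7 (Pf.B 8 2 (Pf.B 8 3 (Pf.C 7 0x40c308) (Pf.B 8 1 (Pf.C 1 0x288061c001) (Pf.C 7 0x61004100))) (Pf.C 4 264)) (Pf.C 0 0xa18407))) Pf.nil))) (Pf.W 140 6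 [] [2,4,5,7] (Pf.cons (Pf.B 8 2 (Pf.C 5 33798) (Pf.C 126 264)) (Pf.cons (Pf.B 8 5 (Pf.C 132 648) (Pf.B 8 7 (Pf.C 0 0xe18288) (Pf.B 8 4 (Pf.C 132 520) (Pf.C 0 0xa1c404)))) Pf.nil)))))))
 (Pq.cons (Pq.L [] 529 (Pf.C 5 33537))
 (Pq.cons (Pq.L [] 65556 (Pf.C 5 98817))
 Pq.nil))))) (Pq.cons (Pq.L [] 32780 (Pf.C 5 82433))
 Pq.nil))))) (Pq.cons (Pq.L [] 128 (Pf.C 4 514))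
 Pq.nil))))) (Pq.cons (Pq.D 3 (Pq.cons (Pq.L [] 128 (Pf.C 4 514))
 (Pq.cons (Pq.D 4 (Pq.cons (Pq.L [] 256 (Pf.C 4 642))
 (Pq.cons (Pq.D 5 (Pq.cons (Pq.D 6 (Pq.cons (Pq.L [0] 0x1306b5 (Pf.C 1 0x202001c301))
 (Pq.cons (Pq.L [0] 0x1306b5 (Pf.C 1 0x202001c301))
 (Pq.cons (Pq.L [] 1057 (Pf.C 5 33665))
 (Pq.cons (Pq.L [] 16418 (Pf.C 5 0x1c181))
 Pq.nil))))) (Pq.cons (Pq.L [] 0x40000 (Pf.C 2 773))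
 (Pq.cons (Pq.L [] 529 (Pf.C 5 33537))
 (Pq.cons (Pq.L [] 8210 (Pf.C 5 98689))
 Pq.nil))))) (Pq.cons (Pq.D 5 (Pq.cons (Pq.L [] 0x40018 (Pf.C 5 98945))
 (Pq.cons (Pq.L [0] 0x1ffeff (Pf.B 7 3 (Pf.C 1 0x2020618381) (Pf.B 7 0 (Pf.C 1 0x2020018381) (Pf.B 7 5 (Pf.W 140 6 [] [0,1,2,4,5,7] (Pf.cons (Pf.B 8 2 (Pf.C 5 33798) (Pf.C 126 264)) (Pf.cons (Pf.B 8 5 (Pf.C 132 648) (Pf.B 8 7 (Pf.B 8 2 (Pf.B 8 4 (Pf.C 7 0x410308) (Pf.B 8 1 (Pf.C 1 0x288081c001) (Pf.C 7 0x61004100))) (Pf.C 4 264)) (Pf.C 0 0xa18407))) Pf.nil))) (Pf.W 140 6 [] [2,3,5,7] (Pf.cons (Pf.B 8 2 (Pf.C 5 33798) (Pf.C 126 264)) (Pf.cons (Pf.B 8 5 (Pf.C 132 648) (Pf.B 8 7 (Pf.C 0 0xe18288) (Pf.B 8 3 (Pf.C 132 392) (Pf.C 0 0xa1c403)))) Pf.nil)))))))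
 (Pq.cons (Pq.L [] 529 (Pf.C 5 33537))
 (Pq.cons (Pq.L [] 8210 (Pf.C 5 98689))
 Pq.nil))))) (Pq.cons (Pq.L [] 4106 (Pf.C 5 82305))
 Pq.nil))))) (Pq.cons (Pq.D 4 (Pq.cons (Pq.L [] 256 (Pf.C 4 642))
 (Pq.cons (Pq.D 5 (Pq.cons (Pq.D 6 (Pq.cons (Pq.L [] 0x136800 (Pf.C 0 0x81c303))
 (Pq.cons (Pq.L [0] 0x40119 (Pf.W 140 1 [] [0,2,5,6] (Pf.cons (Pf.B 8 2 (Pf.C 5 33793) (Pf.C 126 264)) (Pf.cons (Pf.B 8 6 (Pf.B 8 2 (Pf.B 8 5 (Pf.C 7 0x414088) (Pf.T 8 10 (Pf.cons (Pf.W 10 98309 [] [8] (Pf.cons (Pf.B 9 8 (Pf.B 9 6 (Pf.C 7 0x80a18009) (Pf.C 4 777)) (Pf.C 4 1033)) (Pf.cons (Pf.B 9 8 (Pf.C 5 0x20480) (Pf.B 9 6 (Pf.C 5 99456) (Pf.C 0 0x1014486))) Pf.nil))) (Pf.cons (Pf.C 174 136) Pf.nil)))) (Pf.C 4 264)) (Pf.C 4 776)) Pf.nil))))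
 (Pq.cons (Pq.L [] 1057 (Pf.C 5 33665))
 (Pq.cons (Pq.L [] 16418 (Pf.C 5 0x1c181))
 Pq.nil))))) (Pq.cons (Pq.L [] 0x40000 (Pf.C 2 773))
 (Pq.cons (Pq.L [] 529 (Pf.C 5 33537))
 (Pq.cons (Pq.L [] 8210 (Pf.C 5 98689))
 Pq.nil))))) (Pq.cons (Pq.D 5 (Pq.cons (Pq.L [] 0x40018 (Pf.C 5 98945))
 (Pq.cons (Pq.D 6 (Pq.cons (Pq.L [0] 0x1dfe37 (Pf.W 140 1 [] [0,2,3,4,5,6,7] (Pf.cons (Pf.B 8 2 (Pf.C 5 33793) (Pf.C 126 264)) (Pf.cons (Pf.B 8 7 (Pf.B 8 5 (Pf.C 132 648) (Pf.B 8 6 (Pf.B 8 4 (Pf.C 132 520) (Pf.B 8 3 (Pf.C 132 392) (Pf.B 8 2 (Pf.T 8 10 (Pf.cons (Pf.W 146 3 [] [0,1,2,4,5,6,7,8] (Pf.cons (Pf.B 9 6 (Pf.B 9 1 (Pf.B 9 8 (Pf.B 9 7 (Pf.B 9 2 (Pf.B 9 5 (Pf.B 9 4 (Pf.W 140 9 [] [0,1,2,3,4,5,6,7,8] (Pf.cons (Pf.B 10 7 (Pf.C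 5 0x1c509) (Pf.B 10 5 (Pf.B 10 6 (Pf.B 10 2 (Pf.C 5 34054) (Pf.C 126 266)) (Pf.C 0 0xa1c30a)) (Pf.C 3 650))) (Pf.cons (Pf.B 10 8 (Pf.B 10 4 (Pf.C 132 522) (Pf.B 10 3 (Pf.C 132 394) (Pf.B 10 2 (Pf.B 10 1 (Pf.W 146 4 [] [0,1,2,3,5,6,7,8,9,10] (Pf.cons (Pf.B 11 9 (Pf.B 11 6 (Pf.B 11 1 (Pf.B 11 10 (Pf.B 11 8 (Pf.B 11 7 (Pf.B 11 2 (Pf.B 11 5 (Pf.B 11 3 (Pf.W 197 515 [] [9,0,1,2,5,6,7,10,11] (Pf.cons (Pf.T 9 33 (Pf.cons (Pf.T 10 10 (Pf.cons (Pf.W 140 11 [] [0,1,2,3,4,5,6,7,9,10] (Pf.cons (Pf.B 12 7 (Pf.C 5 0x1c60b) (Pf.B 12 5 (Pf.B 12 6 (Pf.B 12 2 (Pf.C 5 34310) (Pf.C 126 268)) (Pf.C 0 0xa1c30c)) (Pf.C 3 652))) (Pf.cons (Pf.B 12 10 (Pf.B 12 4 (Pf.C 132 524) (Pf.B 12 2 (Pf.W 195 2 [] [0,1,3,4,5,6,7,9,10,11,12] (Pf.cons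 (Pf.B 13 11 (Pf.B 13 12 (Pf.C 7 0x43458c) (Pf.B 13 9 (Pf.B 13 10 (Pf.C 7 0x43448a) (Pf.B 13 6 (Pf.B 13 7 (Pf.C 7 0x434307) (Pf.B 13 5 (Pf.B 13 4 (Pf.B 13 3 (Pf.B 13 1 (Pf.T 12 10 (Pf.cons (Pf.W 10 0x1c00d [] [10,12] (Pf.cons (Pf.B 14 12 (Pf.B 14 10 (Pf.C 7 0xc1a2800e) (Pf.C 4 1294)) (Pf.C 4 1550)) (Pf.cons (Pf.B 14 12 (Pf.C 5 0x30700) (Pf.B 14 10 (Pf.C 5 0x28700) (Pf.C 0 0x183470a))) Pf.nil))) (Pf.cons (Pf.C 174 1676) Pf.nil))) (Pf.C 2 141)) (Pf.C 0 0x122818d)) (Pf.C 0 0x163020d)) (Pf.C 0 0xc1c28d))) (Pf.C 2 781))) (Pf.C 2 1165))) (Pf.C 2 1421)) Pf.nil)) (Pf.C 4 268))) (Pf.C 4 1292)) Pf.nil))) (Pf.cons (Pf.C 174 1162) Pf.nil))) (Pf.cons (Pf.C 198 393) Pf.nil))) (Pf.cons (Pf.B 12 11 (Pf.B 12 9 (Pf.C 6 0x90630584)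 (Pf.C 2 1164)) (Pf.C 2 1420)) (Pf.cons (Pf.T 11 33 (Pf.cons (Pf.W 140 11 [] [0,1,2,3,4,5,6,7,9,10] (Pf.cons (Pf.B 12 7 (Pf.C 5 0x1c60b) (Pf.B 12 5 (Pf.B 12 6 (Pf.B 12 2 (Pf.C 5 34310) (Pf.C 126 268)) (Pf.C 0 0xa1c30c)) (Pf.C 3 652))) (Pf.cons (Pf.B 12 10 (Pf.B 12 4 (Pf.C 132 524) (Pf.B 12 2 (Pf.T 12 10 (Pf.cons (Pf.W 195 2 [] [0,1,3,4,5,6,7,9,10,11,12] (Pf.cons (Pf.B 13 11 (Pf.B 13 12 (Pf.C 7 0x43458c) (Pf.B 13 9 (Pf.B 13 10 (Pf.C 7 0x43448a) (Pf.B 13 6 (Pf.B 13 7 (Pf.C 7 0x434307) (Pf.B 13 5 (Pf.B 13 4 (Pf.B 13 3 (Pf.B 13 1 (Pf.T 10 10 (Pf.cons (Pf.W 10 0x1c00d [] [10,12] (Pf.cons (Pf.B 14 12 (Pf.B 14 10 (Pf.C 7 0xc1a2800e) (Pf.C 4 1294)) (Pf.C 4 1550)) (Pf.cons (Pf.B 14 12 (Pf.C 5 0x30700) (Pf.B 14 10 (Pf.C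 5 0x28700) (Pf.C 0 0x183470a))) Pf.nil))) (Pf.cons (Pf.C 174 1674) Pf.nil))) (Pf.C 2 141)) (Pf.C 0 0x122818d)) (Pf.C 0 0x163020d)) (Pf.C 0 0xc1c28d))) (Pf.C 2 781))) (Pf.C 2 1165))) (Pf.C 2 1421)) Pf.nil)) (Pf.cons (Pf.C 174 1420) Pf.nil))) (Pf.C 4 268))) (Pf.C 4 1292)) Pf.nil))) (Pf.cons (Pf.C 198 523) Pf.nil))) (Pf.cons (Pf.B 12 11 (Pf.B 12 9 (Pf.C 6 0xb0830189) (Pf.C 2 1164)) (Pf.C 2 1420)) Pf.nil))))) (Pf.C 6 0x9062c305)) (Pf.B 11 3 (Pf.C 6 0x60a2c483) (Pf.W 140 11 [] [0,4,5,6,7] (Pf.cons (Pf.B 12 7 (Pf.C 5 0x1c60b) (Pf.B 12 5 (Pf.B 12 6 (Pf.C 6 0xb0a1800c) (Pf.C 0 0xa1c30c)) (Pf.C 3 652))) (Pf.cons (Pf.B 12 5 (Pf.C 132 652) (Pf.B 12 4 (Pf.C 132 524) (Pf.C 0 0xa2c604))) Pf.nil))))) (Pf.C 7 0x42c401)) (Pf.C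 7 0x60e2c401)) (Pf.C 7 0x1102c509)) (Pf.B 11 8 (Pf.C 7 0x9142c088) (Pf.C 0 0x1410588))) (Pf.C 2 139)) (Pf.C 2 779)) (Pf.C 2 1163)) (Pf.cons (Pf.B 11 10 (Pf.B 11 9 (Pf.C 5 0x2c209) (Pf.B 11 7 (Pf.B 11 6 (Pf.C 5 0x2c206) (Pf.B 11 5 (Pf.B 11 3 (Pf.B 11 2 (Pf.B 11 1 (Pf.C 5 0x2c181) (Pf.W 150 11 [] [0,2,6] (Pf.cons (Pf.B 12 6 (Pf.B 12 2 (Pf.C 5 34310) (Pf.C 126 268)) (Pf.C 0 0x2c606)) Pf.nil))) (Pf.C 4 267)) (Pf.C 0 0x142418b)) (Pf.C 0 0xe1828b))) (Pf.C 4 907))) (Pf.C 4 1291)) Pf.nil))) (Pf.C 7 0x80228100)) (Pf.C 4 266)))) (Pf.C 4 1034)) Pf.nil))) (Pf.C 6 0x31210305)) (Pf.B 9 4 (Pf.W 140 9 [] [0,3,5,6,7] (Pf.cons (Pf.B 10 7 (Pf.C 5 0x1c509) (Pf.B 10 5 (Pf.B 10 6 (Pf.C 6 0x90a1800a) (Pf.C 0 0xa1c30a)) (Pf.C 3 650)))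 (Pf.cons (Pf.B 10 5 (Pf.C 132 650) (Pf.B 10 3 (Pf.C 132 394) (Pf.C 0 0xa24503))) Pf.nil))) (Pf.W 140 9 [] [0,4,5,6,7] (Pf.cons (Pf.B 10 7 (Pf.C 5 0x1c509) (Pf.B 10 5 (Pf.B 10 6 (Pf.C 6 0x90a1800a) (Pf.C 0 0xa1c30a)) (Pf.C 3 650))) (Pf.cons (Pf.B 10 5 (Pf.C 132 650) (Pf.B 10 4 (Pf.C 132 522) (Pf.C 0 0xa24504))) Pf.nil))))) (Pf.C 7 0x424401)) (Pf.C 7 0x60e24401)) (Pf.B 9 7 (Pf.C 7 0x11024307) (Pf.C 0 0x100c487))) (Pf.C 2 137)) (Pf.C 2 777)) (Pf.cons (Pf.B 9 7 (Pf.B 9 6 (Pf.C 5 0x24186) (Pf.B 9 5 (Pf.B 9 2 (Pf.B 9 1 (Pf.C 5 0x24181) (Pf.B 9 4 (Pf.W 150 9 [] [0,2,6] (Pf.cons (Pf.B 10 6 (Pf.B 10 2 (Pf.C 5 34054) (Pf.C 126 266)) (Pf.C 0 0x24506)) Pf.nil)) (Pf.W 150 9 [] [0,2,6] (Pf.cons (Pf.B 10 6 (Pf.B 10 2 (Pf.C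 5 34054) (Pf.C 126 266)) (Pf.C 0 0x24506)) Pf.nil)))) (Pf.C 4 265)) (Pf.C 0 0xe18289))) (Pf.C 4 905)) Pf.nil))) (Pf.cons (Pf.C 174 136) Pf.nil))) (Pf.C 4 264)))) (Pf.C 0 0xe14308))) (Pf.C 4 904)) Pf.nil))))
 (Pq.cons (Pq.L [0] 0x106673 (Pf.C 1 0x182001c301))
 (Pq.cons (Pq.L [] 1057 (Pf.C 5 33665))
 (Pq.cons (Pq.L [] 16418 (Pf.C 5 0x1c181))
 Pq.nil))))) (Pq.cons (Pq.L [] 529 (Pf.C 5 33537))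
 (Pq.cons (Pq.L [] 8210 (Pf.C 5 98689))
 Pq.nil))))) (Pq.cons (Pq.L [] 4106 (Pf.C 5 82305))
 Pq.nil))))) (Pq.cons (Pq.L [] 2054 (Pf.C 5 65921))
 Pq.nil))))) (Pq.cons (Pq.L [] 64 (Pf.C 4 386))
 Pq.nil))))) Pq.nil))))) (Pq.cons (Pq.D 1 (Pq.cons (Pq.D 2 (Pq.cons (Pq.L [] 64 (Pf.C 4 386))
 (Pq.cons (Pq.D 3 (Pq.cons (Pq.L [] 128 (Pf.C 4 514))
 (Pq.cons (Pq.D 4 (Pq.cons (Pq.L [] 256 (Pf.C 4 642))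
 (Pq.cons (Pq.D 5 (Pq.cons (Pq.D 6 (Pq.cons (Pq.L [] 0x136ec0 (Pf.C 7 0x4040c386))
 (Pq.cons (Pq.L [] 0x136ec0 (Pf.C 7 0x4040c386))
 (Pq.cons (Pq.L [] 0x106000 (Pf.C 5 99203))
 (Pq.cons (Pq.L [] 32 (Pf.C 169 897))
 Pq.nil))))) (Pq.cons (Pq.L [] 0x40000 (Pf.C 2 773))
 (Pq.cons (Pq.D 6 (Pq.cons (Pq.L [] 0x106000 (Pf.C 5 0x1c303))
 (Pq.cons (Pq.L [0] 0x1c7740 (Pf.W 140 7 [] [0,2,3,5,6] (Pf.cons (Pf.B 8 6 (Pf.B 8 5 (Pf.C 6 0x70c14008) (Pf.B 8 2 (Pf.C 5 33799) (Pf.C 0 0xc14108))) (Pf.C 3 776)) (Pf.cons (Pf.B 8 6 (Pf.C 132 776) (Pf.B 8 5 (Pf.B 8 2 (Pf.B 8 3 (Pf.C 7 0x5040c388) (Pf.T 8 10 (Pf.cons (Pf.W 10 32771 [] [5,6,7,8] (Pf.cons (Pf.B 9 8 (Pf.B 9 7 (Pf.C 7 0x3101c009) (Pf.B 9 6 (Pf.C 5 0x24303) (Pf.C 0 0x101c309)))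 (Pf.C 4 1033)) (Pf.cons (Pf.B 9 8 (Pf.C 5 0x20480) (Pf.B 9 7 (Pf.B 9 6 (Pf.B 9 5 (Pf.C 6 0x70c14189) (Pf.B 9 2 (Pf.C 5 33920) (Pf.C 0 0xc14109))) (Pf.C 3 777)) (Pf.C 0 0x620487))) Pf.nil))) (Pf.cons (Pf.C 174 392) Pf.nil)))) (Pf.C 4 264)) (Pf.C 0 0xe18405))) Pf.nil))))
 (Pq.cons (Pq.L [] 0x1c0700 (Pf.C 0 0xe18105))
 (Pq.cons (Pq.L [] 32 (Pf.C 169 897))
 Pq.nil))))) (Pq.cons (Pq.L [] 16 (Pf.C 169 769))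
 Pq.nil))))) (Pq.cons (Pq.L [] 256 (Pf.C 132 642))
 (Pq.cons (Pq.L [] 8 (Pf.C 169 641))
 Pq.nil))))) (Pq.cons (Pq.L [] 128 (Pf.C 132 514))
 (Pq.cons (Pq.L [] 4 (Pf.C 169 513))
 Pq.nil))))) (Pq.cons (Pq.L [] 64 (Pf.C 132 386))
 (Pq.cons (Pq.L [] 2 (Pf.C 169 385))
 Pq.nil))))) (Pq.cons (Pq.D 2 (Pq.cons (Pq.D 3 (Pq.cons (Pq.D 4 (Pq.cons (Pq.D 5 (Pq.cons (Pq.L [] 0x40000 (Pf.C 4 773))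
 (Pq.cons (Pq.D 6 (Pq.cons (Pq.L [] 0x136ec0 (Pf.C 7 0x4040c386))
 (Pq.cons (Pq.L [0] 0x106673 (Pf.C 1 0x103021c300))
 (Pq.cons (Pq.L [0] 0x1c87c0 (Pf.W 10 49154 [] [4,5,6,7] (Pf.cons (Pf.B 8 7 (Pf.C 5 0x20382) (Pf.B 8 5 (Pf.B 8 6 (Pf.C 7 0x20a18008) (Pf.C 0 0xa1c308)) (Pf.C 4 648))) (Pf.cons (Pf.B 8 5 (Pf.C 5 82944) (Pf.B 8 4 (Pf.C 5 66560) (Pf.C 0 0xa08404))) Pf.nil))))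
 (Pq.cons (Pq.L [] 32 (Pf.C 169 897))
 Pq.nil))))) (Pq.cons (Pq.L [] 0x40000 (Pf.C 132 773))
 (Pq.cons (Pq.L [] 16 (Pf.C 169 769))
 Pq.nil))))) (Pq.cons (Pq.L [] 256 (Pf.C 2 642))
 (Pq.cons (Pq.L [] 39360 (Pf.C 0 0x814103))
 (Pq.cons (Pq.L [] 8 (Pf.C 169 641))
 Pq.nil))))) (Pq.cons (Pq.L [] 128 (Pf.C 2 514))
 (Pq.cons (Pq.D 4 (Pq.cons (Pq.L [] 39360 (Pf.C 0 0xa10103))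
 (Pq.cons (Pq.L [] 256 (Pf.C 2 642))
 (Pq.cons (Pq.L [] 39360 (Pf.C 0 0xa0c104))
 (Pq.cons (Pq.L [] 8 (Pf.C 169 641))
 Pq.nil))))) (Pq.cons (Pq.L [] 4 (Pf.C 169 513))
 Pq.nil))))) (Pq.cons (Pq.L [] 64 (Pf.C 2 386))
 (Pq.cons (Pq.D 3 (Pq.cons (Pq.D 4 (Pq.cons (Pq.L [] 39360 (Pf.C 0 0xa0c104))
 (Pq.cons (Pq.L [] 256 (Pf.C 2 642))
 (Pq.cons (Pq.L [] 39360 (Pf.C 0 0xa10103))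
 (Pq.cons (Pq.L [] 8 (Pf.C 169 641))
 Pq.nil))))) (Pq.cons (Pq.L [] 128 (Pf.C 2 514))
 (Pq.cons (Pq.D 4 (Pq.cons (Pq.L [] 39360 (Pf.C 0 0x814103))
 (Pq.cons (Pq.L [] 256 (Pf.C 2 642))
 (Pq.cons (Pq.D 5 (Pq.cons (Pq.L [] 0x40000 (Pf.C 132 646))
 (Pq.cons (Pq.D 6 (Pq.cons (Pq.L [0] 0x1c8780 (Pf.W 140 2 [] [0,4,5,6,7] (Pf.cons (Pf.B 8 7 (Pf.C 5 0x1c402) (Pf.B 8 5 (Pf.B 8 6 (Pf.C 6 0x20a18008) (Pf.C 0 0xa1c308)) (Pf.C 3 648))) (Pf.cons (Pf.B 8 5 (Pf.C 132 648) (Pf.B 8 4 (Pf.C 132 520) (Pf.C 0 0xa08404))) Pf.nil))))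
 (Pq.cons (Pq.L [] 0x136ef7 (Pf.C 1 0x202061c301))
 (Pq.cons (Pq.L [] 0x136ef7 (Pf.C 1 0x202061c301))
 (Pq.cons (Pq.L [] 32 (Pf.C 169 897))
 Pq.nil))))) (Pq.cons (Pq.L [] 0x40000 (Pf.C 3 773))
 (Pq.cons (Pq.L [] 16 (Pf.C 169 769))
 Pq.nil))))) (Pq.cons (Pq.L [] 8 (Pf.C 169 641))
 Pq.nil))))) (Pq.cons (Pq.L [] 4 (Pf.C 169 513))
 Pq.nil))))) (Pq.cons (Pq.L [] 2 (Pf.C 169 385))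
 Pq.nil))))) (Pq.cons (Pq.D 2 (Pq.cons (Pq.L [] 64 (Pf.C 132 259))
 (Pq.cons (Pq.D 3 (Pq.cons (Pq.L [] 128 (Pf.C 132 260))
 (Pq.cons (Pq.D 4 (Pq.cons (Pq.L [0] 39375 (Pf.C 1 0x2020614080))
 (Pq.cons (Pq.D 5 (Pq.cons (Pq.D 6 (Pq.cons (Pq.L [] 0x100631 (Pf.C 0 0x41c301))
 (Pq.cons (Pq.L [0] 0x1c7340 (Pf.W 140 3 [] [0,2,5,6,7] (Pf.cons (Pf.B 8 6 (Pf.C 5 99331) (Pf.B 8 2 (Pf.B 8 5 (Pf.C 6 0x30414008) (Pf.C 0 0x418288)) (Pf.C 3 264))) (Pf.cons (Pf.B 8 6 (Pf.B 8 2 (Pf.C 132 264) (Pf.B 8 5 (Pf.B 8 7 (Pf.C 7 0x50c1c188) (Pf.T 8 10 (Pf.cons (Pf.W 10 98311 [] [8] (Pf.cons (Pf.B 9 8 (Pf.B 9 6 (Pf.C 7 0x80e18009) (Pf.C 4 777)) (Pf.C 4 1033)) (Pf.cons (Pf.B 9 8 (Pf.C 5 0x20480) (Pf.B 9 6 (Pf.C 5 99456) (Pf.C 0 0x101c486)))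 Pf.nil))) (Pf.cons (Pf.C 174 392) Pf.nil)))) (Pf.C 0 0xc08288))) (Pf.C 4 776)) Pf.nil))))
 (Pq.cons (Pq.L [] 0x106000 (Pf.C 5 99203))
 (Pq.cons (Pq.L [] 32 (Pf.C 169 897))
 Pq.nil))))) (Pq.cons (Pq.L [] 0x40000 (Pf.C 2 773))
 (Pq.cons (Pq.D 6 (Pq.cons (Pq.L [] 0x106000 (Pf.C 5 0x1c303))
 (Pq.cons (Pq.L [] 0x136ef7 (Pf.C 1 0x202061c301))
 (Pq.cons (Pq.L [] 0x136ef7 (Pf.C 1 0x202061c301))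
 (Pq.cons (Pq.L [] 32 (Pf.C 169 897))
 Pq.nil))))) (Pq.cons (Pq.L [] 16 (Pf.C 169 769))
 Pq.nil))))) (Pq.cons (Pq.L [] 256 (Pf.C 3 642))
 (Pq.cons (Pq.L [] 8 (Pf.C 169 641))
 Pq.nil))))) (Pq.cons (Pq.L [] 128 (Pf.C 3 514))
 (Pq.cons (Pq.L [] 4 (Pf.C 169 513))
 Pq.nil))))) (Pq.cons (Pq.L [] 64 (Pf.C 3 386))
 (Pq.cons (Pq.L [] 2 (Pf.C 169 385))
 Pq.nil))))) (Pq.cons (Pq.L [] 1 (Pf.C 169 257))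
 Pq.nil))))) (Pq.cons (Pq.D 1 (Pq.cons (Pq.D 2 (Pq.cons (Pq.L [] 64 (Pf.C 4 386))
 (Pq.cons (Pq.D 3 (Pq.cons (Pq.L [0] 2247 (Pf.C 7 0x4040c001))
 (Pq.cons (Pq.L [0] 2247 (Pf.C 7 0x4040c001))
 (Pq.cons (Pq.L [] 4 (Pf.C 169 132))
 (Pq.cons (Pq.L [] 128 (Pf.C 4 514))
 Pq.nil))))) (Pq.cons (Pq.L [] 2 (Pf.C 169 131))
 (Pq.cons (Pq.L [] 64 (Pf.C 4 386))
 Pq.nil))))) (Pq.cons (Pq.D 2 (Pq.cons (Pq.D 3 (Pq.cons (Pq.L [0] 2247 (Pf.C 7 0x4040c001))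
 (Pq.cons (Pq.L [0] 2247 (Pf.C 7 0x4040c001))
 (Pq.cons (Pq.L [] 4 (Pf.C 169 132))
 (Pq.cons (Pq.D 4 (Pq.cons (Pq.L [0] 4427 (Pf.C 7 0x5040c001))
 (Pq.cons (Pq.L [0] 4427 (Pf.C 7 0x5040c001))
 (Pq.cons (Pq.L [] 8 (Pf.C 169 133))
 (Pq.cons (Pq.D 5 (Pq.cons (Pq.L [] 0x40000 (Pf.C 4 773))
 (Pq.cons (Pq.L [0] 0x136ef7 (Pf.B 7 3 (Pf.C 1 0x2020618381) (Pf.W 140 6 [] [0,1,4] (Pf.cons (Pf.B 8 4 (Pf.C 5 66566) (Pf.C 126 520)) (Pf.cons (Pf.B 8 4 (Pf.B 8 1 (Pf.C 7 0x40004308) (Pf.C 4 136)) (Pf.C 4 520)) Pf.nil)))))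
 (Pq.cons (Pq.L [] 16 (Pf.C 169 134))
 (Pq.cons (Pq.L [0] 8787 (Pf.C 7 0x60004182))
 Pq.nil))))) Pq.nil))))) Pq.nil))))) (Pq.cons (Pq.L [] 64 (Pf.C 2 386))
 (Pq.cons (Pq.L [] 2 (Pf.C 169 131))
 (Pq.cons (Pq.D 3 (Pq.cons (Pq.D 4 (Pq.cons (Pq.L [0] 33165 (Pf.C 7 0x50410001))
 (Pq.cons (Pq.L [0] 33165 (Pf.C 7 0x50410001))
 (Pq.cons (Pq.L [] 8 (Pf.C 169 133))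
 (Pq.cons (Pq.D 5 (Pq.cons (Pq.L [] 0x40000 (Pf.C 4 773))
 (Pq.cons (Pq.L [0] 0x136ef7 (Pf.B 7 4 (Pf.C 1 0x1820818381) (Pf.W 140 6 [] [0,1,3] (Pf.cons (Pf.B 8 3 (Pf.C 5 50182) (Pf.C 126 392)) (Pf.cons (Pf.B 8 3 (Pf.B 8 1 (Pf.C 7 0x30004308) (Pf.C 4 136)) (Pf.C 4 392)) Pf.nil)))))
 (Pq.cons (Pq.L [] 16 (Pf.C 169 134))
 (Pq.cons (Pq.L [0] 66197 (Pf.C 7 0x60004202))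
 Pq.nil))))) Pq.nil))))) (Pq.cons (Pq.L [] 128 (Pf.C 2 514))
 (Pq.cons (Pq.L [] 4 (Pf.C 169 132))
 (Pq.cons (Pq.D 4 (Pq.cons (Pq.D 5 (Pq.cons (Pq.L [0] 0x40319 (Pf.C 7 0x60a08001))
 (Pq.cons (Pq.L [0] 0x40319 (Pf.C 7 0x60a08001))
 (Pq.cons (Pq.L [] 16 (Pf.C 169 134))
 (Pq.cons (Pq.L [] 0x136ef7 (Pf.C 1 0x202061c301))
 Pq.nil))))) (Pq.cons (Pq.L [] 256 (Pf.C 2 642))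
 (Pq.cons (Pq.L [] 8 (Pf.C 169 133))
 (Pq.cons (Pq.D 5 (Pq.cons (Pq.L [] 0x40000 (Pf.C 4 773))
 (Pq.cons (Pq.L [] 0x136ef7 (Pf.C 1 0x202061c301))
 (Pq.cons (Pq.L [] 16 (Pf.C 169 134))
 (Pq.cons (Pq.L [] 0x136ef7 (Pf.C 1 0x202061c301))
 Pq.nil))))) Pq.nil))))) Pq.nil))))) Pq.nil))))) (Pq.cons (Pq.L [] 1 (Pf.C 169 130))
 (Pq.cons (Pq.D 2 (Pq.cons (Pq.L [] 64 (Pf.C 4 386))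
 (Pq.cons (Pq.D 3 (Pq.cons (Pq.L [] 128 (Pf.C 4 514))
 (Pq.cons (Pq.D 4 (Pq.cons (Pq.L [] 256 (Pf.C 4 642))
 (Pq.cons (Pq.D 5 (Pq.cons (Pq.D 6 (Pq.cons (Pq.L [0] 0x1c0038 (Pf.C 7 0x70c14001))
 (Pq.cons (Pq.L [0] 0x1c0038 (Pf.C 7 0x70c14001))
 (Pq.cons (Pq.L [] 32 (Pf.C 169 135))
 (Pq.cons (Pq.L [] 0x136ef7 (Pf.C 1 0x202061c301))
 Pq.nil))))) (Pq.cons (Pq.L [] 0x136ef7 (Pf.C 1 0x202061c301))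
 (Pq.cons (Pq.L [] 16 (Pf.C 169 134))
 (Pq.cons (Pq.L [] 0x136ef7 (Pf.C 1 0x202061c301))
 Pq.nil))))) (Pq.cons (Pq.L [] 8 (Pf.C 169 133))
 (Pq.cons (Pq.L [] 256 (Pf.C 4 642))
 Pq.nil))))) (Pq.cons (Pq.L [] 4 (Pf.C 169 132))
 (Pq.cons (Pq.L [] 128 (Pf.C 4 514))
 Pq.nil))))) (Pq.cons (Pq.L [] 2 (Pf.C 169 131))
 (Pq.cons (Pq.L [] 64 (Pf.C 4 386))
 Pq.nil))))) Pq.nil))))) Pq.nil)))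
theorem e4_o76 : AllRef e4_T e4_G64 (List.drop 1 (List.flatMap (splitP 0) (List.drop 1 (applyObl d_T 2 [188,194,197,200] [0,0,0,0] [(188,0x20000000000000000000000000000000000000000000000000),(197,0x100000000000000000000000000000000000000000000000)])))) :=
  chkPq_sound e4_o76c _ (by decide +kernel)
noncomputable def e4_o77c : Pq := Pq.nil
theorem e4_o77 : AllRef e4_T e4_G65 (ptObl 185 PT.kid []) :=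
  chkPq_sound e4_o77c _ (by decide +kernel)
noncomputable def e4_o78c : Pq := (Pq.cons (Pq.L [1] 0 (Pf.C 3 130))
 Pq.nil)
theorem e4_o78 : AllRef e4_T e4_G66 (ptObl 205 (PT.br 1 PT.kid PT.ref) []) :=
  chkPq_sound e4_o78c _ (by decide +kernel)
noncomputable def e4_o79c : Pq := Pq.nil
theorem e4_o79 : AllRef e4_T e4_G67 (ptObl 188 (PT.br 1 PT.kid PT.kid) []) :=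
  chkPq_sound e4_o79c _ (by decide +kernel)
noncomputable def e4_o80c : Pq := (Pq.cons (Pq.L [1] 0 (Pf.C 171 257))
 Pq.nil)
theorem e4_o80 : AllRef e4_T e4_G68 (ptObl 194 (PT.br 1 PT.ref PT.kid) []) :=
  chkPq_sound e4_o80c _ (by decide +kernel)
noncomputable def e4_o81c : Pq := (Pq.cons (Pq.L [1] 0 (Pf.C 3 130))
 Pq.nil)
theorem e4_o81 : AllRef e4_T e4_G69 (ptObl 197 (PT.br 1 PT.kid PT.ref) []) :=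
  chkPq_sound e4_o81c _ (by decide +kernel)
noncomputable def e4_o82c : Pq := (Pq.cons (Pq.L [1] 0 (Pf.C 126 257))
 Pq.nil)
theorem e4_o82 : AllRef e4_T e4_G70 (ptObl 200 (PT.br 1 PT.kid PT.ref) []) :=
  chkPq_sound e4_o82c _ (by decide +kernel)
noncomputable def e4_o83c : Pq := (Pq.cons (Pq.L [0,1] 0 (Pf.W 151 2 [] [0,1] (Pf.cons (Pf.B 3 1 (Pf.C 5 32899) (Pf.W 140 3 [] [0,1,2] (Pf.cons (Pf.B 4 2 (Pf.C 5 33283) (Pf.C 126 260)) (Pf.cons (Pf.B 4 2 (Pf.W 195 2 [] [0,1,3,4] (Pf.cons (Pf.B 5 3 (Pf.B 5 4 (Pf.C 7 0x414184) (Pf.B 5 1 (Pf.C 171 641) (Pf.B 4 1 (Pf.T 4 10 (Pf.cons (Pf.W 199 1 [] [0,2,3,4,5] (Pf.cons (Pf.B 6 4 (Pf.B 6 2 (Pf.B 6 3 (Pf.B 6 5 (Pf.T 6 36 (Pf.cons (Pf.W 200 2 [] [0,3,4,5,6] (Pf.cons (Pf.T 3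 37 (Pf.cons (Pf.W 173 6 [] [0,2,3,4,5] (Pf.cons (Pf.B 7 5 (Pf.B 7 3 (Pf.B 7 4 (Pf.C 7 0x5080c307) (Pf.B 7 2 (Pf.C 7 0x50400307) (Pf.W 10 65543 [] [6] (Pf.cons (Pf.B 8 6 (Pf.B 8 4 (Pf.C 7 0x60e10008) (Pf.C 4 520)) (Pf.C 4 776)) (Pf.cons (Pf.B 8 6 (Pf.C 5 99328) (Pf.B 8 4 (Pf.C 5 66560) (Pf.C 0 0xc1c404))) Pf.nil))))) (Pf.C 2 391)) (Pf.C 2 647)) Pf.nil)) Pf.nil)) (Pf.cons (Pf.B 7 5 (Pf.B 7 3 (Pf.B 7 4 (Pf.T 7 37 (Pf.cons (Pf.W 140 7 [] [0,2,4,5] (Pf.cons (Pf.B 8 2 (Pf.C 5 33799) (Pf.C 126 264)) (Pf.cons (Pf.B 8 4 (Pf.B 8 2 (Pf.B 8 5 (Pf.C 7 0x414388) (Pf.T 8 10 (Pf.cons (Pf.W 10 65541 [] [8] (Pf.cons (Pf.B 9 8 (Pf.B 9 4 (Pf.C 7 0x80a10009) (Pf.C 4 521)) (Pf.C 4 1033)) (Pf.cons (Pf.B 9 8 (Pf.C 5 0x20480) (Pf.B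 9 4 (Pf.C 5 66688) (Pf.C 0 0x1014484))) Pf.nil))) (Pf.cons (Pf.C 174 648) Pf.nil)))) (Pf.C 4 264)) (Pf.C 4 520)) Pf.nil))) Pf.nil)) (Pf.C 7 0x3081c100)) (Pf.C 2 391)) (Pf.C 2 647)) Pf.nil))) Pf.nil)) (Pf.T 6 36 (Pf.cons (Pf.W 10 98309 [] [4] (Pf.cons (Pf.B 7 6 (Pf.B 7 4 (Pf.C 7 0x60a10007) (Pf.C 4 519)) (Pf.C 4 775)) (Pf.cons (Pf.B 7 6 (Pf.C 5 99200) (Pf.B 7 4 (Pf.C 5 66432) (Pf.C 0 0xc14384))) Pf.nil))) Pf.nil))) (Pf.C 7 0x40618100)) (Pf.C 4 262)) (Pf.C 4 518)) Pf.nil)) (Pf.cons (Pf.C 174 644) Pf.nil))) (Pf.C 0 0xa04203)))) (Pf.C 2 389)) Pf.nil)) (Pf.C 4 260)) Pf.nil)))) Pf.nil)))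
 Pq.nil)
theorem e4_o83 : AllRef e4_T e4_G71 (List.map pat1 [211]) :=
  chkPq_sound e4_o83c _ (by decide +kernel)
noncomputable def e4_o84c : Pq := (Pq.cons (Pq.L [] 0 (Pf.X 1 2))
 (Pq.cons (Pq.L [1] 1 (Pf.W 173 2 [] [1,3] (Pf.cons (Pf.B 4 3 (Pf.C 171 515) (Pf.B 4 1 (Pf.C 171 513) (Pf.C 0 0x608201))) Pf.nil)))
 (Pq.cons (Pq.L [] 1 (Pf.C 171 259))
 (Pq.cons (Pq.L [] 0 (Pf.X 1 2))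
 (Pq.cons (Pq.L [] 1 (Pf.C 4 386))
 (Pq.cons (Pq.L [0] 1 (Pf.W 201 2 [] [0,3] (Pf.cons (Pf.B 4 3 (Pf.W 10 49154 [] [4] (Pf.cons (Pf.B 5 4 (Pf.B 5 3 (Pf.C 7 0x4040c005) (Pf.C 4 389)) (Pf.C 4 517)) (Pf.cons (Pf.B 5 4 (Pf.C 5 66176) (Pf.B 5 3 (Pf.C 5 49792) (Pf.C 0 0x808283))) Pf.nil))) (Pf.C 4 388)) Pf.nil)))
 (Pq.cons (Pq.L [] 0 (Pf.X 1 2))
 (Pq.cons (Pq.L [] 1 (Pf.C 202 259))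
 (Pq.cons (Pq.L [] 1 (Pf.C 2 386))
 (Pq.cons (Pq.L [] 0 (Pf.X 1 2))
 (Pq.cons (Pq.L [] 1 (Pf.C 132 386))
 (Pq.cons (Pq.L [1] 1 (Pf.W 201 2 [] [1,3] (Pf.cons (Pf.B 4 3 (Pf.C 132 388) (Pf.C 0 0x208203)) Pf.nil)))
 Pq.nil))))))))))))
theorem e4_o84 : AllRef e4_T e4_G73 (closeObl (e4_T.sc.get 2) false [206,207,208,212,213,210] [0,1,1,3,3,4] [1] [0] 12) :=
  chkPq_sound e4_o84c _ (by decide +kernel)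
noncomputable def e4_o85c : Pq := (Pq.cons (Pq.L [] 0 (Pf.T 2 40 (Pf.cons (Pf.W 201 2 [] [] (Pf.cons (Pf.C 203 386) Pf.nil)) Pf.nil)))
 Pq.nil)
theorem e4_o85 : AllRef e4_T e4_G75 (List.map pat1 [215]) :=
  chkPq_sound e4_o85c _ (by decide +kernel)
noncomputable def e4_o86c : Pq := (Pq.cons (Pq.D 0 (Pq.cons (Pq.D 1 (Pq.cons (Pq.L [] 1 (Pf.C 4 386))
 (Pq.cons (Pq.D 2 (Pq.cons (Pq.L [] 2 (Pf.C 4 514))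
 (Pq.cons (Pq.L [1] 3 (Pf.B 4 3 (Pf.C 0 0x608084) (Pf.C 2 388)))
 Pq.nil))) Pq.nil))) (Pq.cons (Pq.D 1 (Pq.cons (Pq.D 2 (Pq.cons (Pq.L [1] 3 (Pf.B 4 3 (Pf.C 0 0x608084) (Pf.C 4 388)))
 (Pq.cons (Pq.L [] 2 (Pf.C 2 514))
 Pq.nil))) (Pq.cons (Pq.L [] 1 (Pf.C 2 386))
 Pq.nil))) Pq.nil))) Pq.nil)
theorem e4_o86 : AllRef e4_T e4_G76 (applyObl TD2 1 [208,209] [0,0] []) :=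
  chkPq_sound e4_o86c _ (by decide +kernel)
noncomputable def e4_o87c : Pq := Pq.nil
theorem e4_o87 : AllRef e4_T e4_G63 (ptObl 185 (PT.br 1 PT.kid PT.kid) []) :=
  chkPq_sound e4_o87c _ (by decide +kernel)
noncomputable def e4_o88c : Pq := (Pq.cons (Pq.L [1] 0 (Pf.C 4 130))
 Pq.nil)
theorem e4_o88 : AllRef e4_T e4_G77 (ptObl 188 (PT.br 1 PT.kid PT.ref) []) :=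
  chkPq_sound e4_o88c _ (by decide +kernel)
noncomputable def e4_o89c : Pq := Pq.nil
theorem e4_o89 : AllRef e4_T e4_G78 (ptObl 191 PT.kid []) :=
  chkPq_sound e4_o89c _ (by decide +kernel)
noncomputable def e4_o90c : Pq := (Pq.cons (Pq.L [1] 0 (Pf.C 4 130))
 Pq.nil)
theorem e4_o90 : AllRef e4_T e4_G79 (ptObl 219 (PT.br 1 PT.kid PT.ref) []) :=
  chkPq_sound e4_o90c _ (by decide +kernel)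
noncomputable def e4_o91c : Pq := (Pq.cons (Pq.L [1] 0 (Pf.C 174 257))
 Pq.nil)
theorem e4_o91 : AllRef e4_T e4_G80 (ptObl 194 (PT.br 1 PT.kid PT.ref) []) :=
  chkPq_sound e4_o91c _ (by decide +kernel)
noncomputable def e4_o92c : Pq := (Pq.cons (Pq.L [1] 0 (Pf.C 132 257))
 Pq.nil)
theorem e4_o92 : AllRef e4_T e4_G81 (ptObl 197 (PT.br 1 PT.ref PT.kid) []) :=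
  chkPq_sound e4_o92c _ (by decide +kernel)
noncomputable def e4_o93c : Pq := (Pq.cons (Pq.L [1] 0 (Pf.C 4 130))
 Pq.nil)
theorem e4_o93 : AllRef e4_T e4_G82 (ptObl 200 (PT.br 1 PT.kid PT.ref) []) :=
  chkPq_sound e4_o93c _ (by decide +kernel)
noncomputable def e4_o94c : Pq := (Pq.cons (Pq.L [] 0 (Pf.X 1 2))
 (Pq.cons (Pq.L [] 1 (Pf.C 3 386))
 (Pq.cons (Pq.L [] 1 (Pf.C 3 386))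
 (Pq.cons (Pq.L [] 1 (Pf.W 204 2 [] [3] (Pf.cons (Pf.B 4 3 (Pf.W 173 2 [] [3,4] (Pf.cons (Pf.B 5 4 (Pf.C 171 644) (Pf.B 5 3 (Pf.C 171 643) (Pf.C 0 0x808283))) Pf.nil)) (Pf.C 3 388)) Pf.nil)))
 (Pq.cons (Pq.L [] 1 (Pf.C 209 259))
 (Pq.cons (Pq.L [] 1 (Pf.C 171 259))
 (Pq.cons (Pq.L [] 0 (Pf.X 1 2))
 (Pq.cons (Pq.L [] 1 (Pf.C 205 259))
 (Pq.cons (Pq.L [1] 1 (Pf.W 208 2 [] [1,3] (Pf.cons (Pf.B 4 3 (Pf.W 206 4 [] [1,2,3] (Pf.cons (Pf.B 5 3 (Pf.B 5 2 (Pf.C 8 0x30404205) (Pf.C 3 261)) (Pf.C 205 643)) Pf.nil)) (Pf.C 4 388)) Pf.nil)))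
 (Pq.cons (Pq.L [] 1 (Pf.C 4 386))
 (Pq.cons (Pq.L [] 1 (Pf.C 4 386))
 (Pq.cons (Pq.L [0] 1 (Pf.W 210 2 [] [0,3] (Pf.cons (Pf.B 4 3 (Pf.W 10 49154 [] [4] (Pf.cons (Pf.B 5 4 (Pf.B 5 3 (Pf.C 7 0x4040c005) (Pf.C 4 389)) (Pf.C 4 517)) (Pf.cons (Pf.B 5 4 (Pf.C 5 66176) (Pf.B 5 3 (Pf.C 5 49792) (Pf.C 0 0x808283))) Pf.nil))) (Pf.C 4 388)) Pf.nil)))
 (Pq.cons (Pq.L [] 0 (Pf.X 1 2))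
 (Pq.cons (Pq.L [] 1 (Pf.C 207 259))
 (Pq.cons (Pq.L [1] 1 (Pf.W 208 2 [] [1,3] (Pf.cons (Pf.B 4 3 (Pf.W 206 4 [] [1,2,3] (Pf.cons (Pf.B 5 3 (Pf.B 5 2 (Pf.C 8 0x30404205) (Pf.C 3 261)) (Pf.C 207 643)) Pf.nil)) (Pf.C 4 388)) Pf.nil)))
 (Pq.cons (Pq.L [] 1 (Pf.C 4 386))
 (Pq.cons (Pq.L [] 1 (Pf.C 4 386))
 (Pq.cons (Pq.L [] 1 (Pf.C 174 259))
 (Pq.cons (Pq.L [] 0 (Pf.X 1 2))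
 (Pq.cons (Pq.L [] 1 (Pf.C 171 386))
 (Pq.cons (Pq.L [] 1 (Pf.C 171 386))
 (Pq.cons (Pq.L [] 1 (Pf.C 211 259))
 (Pq.cons (Pq.L [] 1 (Pf.C 174 386))
 (Pq.cons (Pq.L [] 1 (Pf.C 2 386))
 (Pq.cons (Pq.L [] 0 (Pf.X 1 2))
 (Pq.cons (Pq.L [] 1 (Pf.C 3 386))
 (Pq.cons (Pq.L [] 1 (Pf.C 3 386))
 (Pq.cons (Pq.L [] 1 (Pf.C 132 386))
 (Pq.cons (Pq.L [] 1 (Pf.C 132 386))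
 (Pq.cons (Pq.L [] 1 (Pf.W 210 2 [] [3] (Pf.cons (Pf.B 4 3 (Pf.C 132 388) (Pf.W 204 4 [] [2,3] (Pf.cons (Pf.B 5 3 (Pf.B 5 2 (Pf.C 171 261) (Pf.C 0 0x610105)) (Pf.C 3 389)) Pf.nil))) Pf.nil)))
 (Pq.cons (Pq.L [] 0 (Pf.X 1 2))
 (Pq.cons (Pq.L [] 1 (Pf.C 126 386))
 (Pq.cons (Pq.L [] 1 (Pf.C 126 386))
 (Pq.cons (Pq.L [] 1 (Pf.C 4 386))
 (Pq.cons (Pq.L [] 1 (Pf.C 4 386))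
 (Pq.cons (Pq.L [0] 1 (Pf.W 140 2 [] [0,3] (Pf.cons (Pf.B 4 3 (Pf.C 5 49666) (Pf.C 126 388)) (Pf.cons (Pf.B 4 3 (Pf.W 210 2 [] [0,3,4] (Pf.cons (Pf.W 204 4 [] [0,2,3] (Pf.cons (Pf.B 5 3 (Pf.B 5 2 (Pf.C 171 261) (Pf.W 195 3 [] [0,2,4,5] (Pf.cons (Pf.B 6 5 (Pf.C 171 773) (Pf.B 6 2 (Pf.B 6 4 (Pf.C 7 0x618104) (Pf.C 0 0x414206)) (Pf.C 2 262))) Pf.nil))) (Pf.C 126 389)) Pf.nil)) (Pf.cons (Pf.B 5 4 (Pf.B 5 3 (Pf.C 7 0x40414003) (Pf.C 4 389)) (Pf.C 4 517)) Pf.nil))) (Pf.C 4 388)) Pf.nil))))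
 Pq.nil))))))))))))))))))))))))))))))))))))
theorem e4_o94 : AllRef e4_T e4_G87 (closeObl (e4_T.sc.get 2) false [216,228,229,224,225,226,227,230,231,222,223] [0,0,0,1,1,2,2,3,3,4,5] [1] [2] 171) :=
  chkPq_sound e4_o94c _ (by decide +kernel)
noncomputable def e4_o95c : Pq := (Pq.cons (Pq.L [] 0 (Pf.X 1 2))
 (Pq.cons (Pq.L [] 1 (Pf.C 3 386))
 (Pq.cons (Pq.L [] 1 (Pf.C 3 386))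
 (Pq.cons (Pq.L [] 1 (Pf.C 215 259))
 (Pq.cons (Pq.L [] 0 (Pf.X 1 2))
 (Pq.cons (Pq.L [1] 1 (Pf.T 3 49 (Pf.cons (Pf.W 214 2 [] [1,3] (Pf.cons (Pf.B 4 3 (Pf.T 4 50 (Pf.cons (Pf.W 212 4 [] [1,2,3] (Pf.cons (Pf.B 5 2 (Pf.B 5 3 (Pf.C 8 0x4040c085) (Pf.W 173 3 [] [2,5] (Pf.cons (Pf.B 6 5 (Pf.C 171 773) (Pf.B 6 2 (Pf.C 171 770) (Pf.C 0 0xa0c302))) Pf.nil))) (Pf.C 3 261)) Pf.nil)) Pf.nil)) (Pf.C 4 388)) Pf.nil)) Pf.nil)))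
 (Pq.cons (Pq.L [] 1 (Pf.T 2 51 (Pf.cons (Pf.T 3 49 (Pf.cons (Pf.W 204 3 [] [2] (Pf.cons (Pf.B 4 2 (Pf.W 173 3 [] [2,4] (Pf.cons (Pf.B 5 4 (Pf.C 171 644) (Pf.B 5 2 (Pf.C 171 642) (Pf.C 0 0x80c282))) Pf.nil)) (Pf.C 3 260)) Pf.nil)) Pf.nil)) Pf.nil)))
 (Pq.cons (Pq.L [] 1 (Pf.C 4 386))
 (Pq.cons (Pq.L [] 0 (Pf.X 1 2))
 (Pq.cons (Pq.L [1] 1 (Pf.T 3 50 (Pf.cons (Pf.W 206 3 [] [1,2] (Pf.cons (Pf.B 4 2 (Pf.W 214 2 [] [1,3,4] (Pf.cons (Pf.B 5 3 (Pf.B 5 4 (Pf.W 212 5 [] [2,3,4] (Pf.cons (Pf.B 6 4 (Pf.B 6 3 (Pf.C 213 771) (Pf.B 6 2 (Pf.C 8 0x40618282) (Pf.C 3 262))) (Pf.C 3 518)) Pf.nil)) (Pf.W 212 5 [] [1,2,4] (Pf.cons (Pf.B 6 4 (Pf.B 6 2 (Pf.C 8 0x40a08086) (Pf.C 3 262)) (Pf.C 3 518)) Pf.nil))) (Pf.C 4 389)) Pf.nil))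 (Pf.C 3 260)) Pf.nil)) Pf.nil)))
 (Pq.cons (Pq.L [] 1 (Pf.C 213 259))
 (Pq.cons (Pq.L [] 1 (Pf.C 4 386))
 (Pq.cons (Pq.L [] 0 (Pf.X 1 2))
 (Pq.cons (Pq.L [] 1 (Pf.C 171 386))
 (Pq.cons (Pq.L [] 1 (Pf.C 171 386))
 (Pq.cons (Pq.L [] 1 (Pf.C 174 386))
 Pq.nil))))))))))))))))
theorem e4_o95 : AllRef e4_T e4_G90 (closeObl (e4_T.sc.get 2) true [234,235,217,218,232,233,221] [0,0,0,1,2,2,3] [1] [2] 21) :=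
  chkPq_sound e4_o95c _ (by decide +kernel)
noncomputable def e4_o96c : Pq := (Pq.cons (Pq.D 0 (Pq.cons (Pq.D 1 (Pq.cons (Pq.L [] 1 (Pf.C 3 386))
 (Pq.cons (Pq.L [] 1 (Pf.C 3 386))
 (Pq.cons (Pq.D 2 (Pq.cons (Pq.L [] 2 (Pf.C 3 514))
 (Pq.cons (Pq.L [] 2 (Pf.C 3 514))
 (Pq.cons (Pq.L [] 4 (Pf.C 4 515))
 Pq.nil)))) Pq.nil)))) (Pq.cons (Pq.D 1 (Pq.cons (Pq.L [] 1 (Pf.C 3 386))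
 (Pq.cons (Pq.L [] 1 (Pf.C 3 386))
 (Pq.cons (Pq.D 2 (Pq.cons (Pq.L [] 2 (Pf.C 3 514))
 (Pq.cons (Pq.L [] 2 (Pf.C 3 514))
 (Pq.cons (Pq.L [] 4 (Pf.C 4 515))
 Pq.nil)))) Pq.nil)))) (Pq.cons (Pq.D 1 (Pq.cons (Pq.D 2 (Pq.cons (Pq.L [0] 7 (Pf.C 0 65922))
 (Pq.cons (Pq.L [0] 7 (Pf.C 0 65922))
 (Pq.cons (Pq.L [] 2 (Pf.C 4 514))
 Pq.nil)))) (Pq.cons (Pq.D 2 (Pq.cons (Pq.L [0] 7 (Pf.C 0 65922))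
 (Pq.cons (Pq.L [0] 7 (Pf.C 0 65922))
 (Pq.cons (Pq.L [] 2 (Pf.C 4 514))
 Pq.nil)))) (Pq.cons (Pq.L [] 1 (Pf.C 4 386))
 Pq.nil)))) Pq.nil)))) (Pq.cons (Pq.L [] 0x136ef7 (Pf.C 1 0x2830820382))
 Pq.nil))
theorem e4_o96 : AllRef e4_T e4_G91 (applyObl d_T 2 [216,217,220] [0,0,0] []) :=
  chkPq_sound e4_o96c _ (by decide +kernel)
noncomputable def e4_o97c : Pq := (Pq.cons (Pq.L [] 1 (Pf.C 4 257))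
 Pq.nil)
theorem e4_o97 : AllRef e4_T e4_G59 (applyObl TD2 1 [178] [0] []) :=
  chkPq_sound e4_o97c _ (by decide +kernel)
noncomputable def e4_o98c : Pq := (Pq.cons (Pq.D 0 (Pq.cons (Pq.D 1 (Pq.cons (Pq.L [] 1 (Pf.C 2 257))
 (Pq.cons (Pq.D 2 (Pq.cons (Pq.L [] 2 (Pf.C 2 385))
 (Pq.cons (Pq.L [] 4 (Pf.C 3 386))
 (Pq.cons (Pq.L [] 2 (Pf.C 123 385))
 Pq.nil)))) (Pq.cons (Pq.L [] 1 (Pf.C 123 257))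
 Pq.nil)))) (Pq.cons (Pq.D 1 (Pq.cons (Pq.D 2 (Pq.cons (Pq.L [] 4 (Pf.C 2 386))
 (Pq.cons (Pq.L [] 2 (Pf.C 3 385))
 (Pq.cons (Pq.L [] 4 (Pf.C 123 386))
 Pq.nil)))) (Pq.cons (Pq.L [] 1 (Pf.C 3 257))
 (Pq.cons (Pq.D 2 (Pq.cons (Pq.L [] 4 (Pf.C 123 259))
 (Pq.cons (Pq.L [] 2 (Pf.C 3 385))
 (Pq.cons (Pq.L [0] 7 (Pf.C 0 49409))
 Pq.nil)))) Pq.nil)))) (Pq.cons (Pq.D 1 (Pq.cons (Pq.L [] 1 (Pf.C 123 130))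
 (Pq.cons (Pq.D 2 (Pq.cons (Pq.L [] 2 (Pf.C 123 131))
 (Pq.cons (Pq.L [] 4 (Pf.C 3 386))
 (Pq.cons (Pq.L [] 2 (Pf.C 4 385))
 Pq.nil)))) (Pq.cons (Pq.L [] 1 (Pf.C 4 257))
 Pq.nil)))) Pq.nil)))) (Pq.cons (Pq.D 0 (Pq.cons (Pq.D 1 (Pq.cons (Pq.D 2 (Pq.cons (Pq.L [] 64 (Pf.C 2 386))
 (Pq.cons (Pq.D 3 (Pq.cons (Pq.L [] 128 (Pf.C 2 514))
 (Pq.cons (Pq.D 4 (Pq.cons (Pq.L [] 256 (Pf.C 2 642))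
 (Pq.cons (Pq.D 5 (Pq.cons (Pq.D 6 (Pq.cons (Pq.L [] 0x136ef7 (Pf.C 1 0x202061c301))
 (Pq.cons (Pq.L [] 0x136ef7 (Pf.C 1 0x202061c301))
 (Pq.cons (Pq.L [0] 0x1c703a (Pf.C 1 0x70218283))
 Pq.nil)))) (Pq.cons (Pq.L [] 0x40000 (Pf.C 3 773))
 (Pq.cons (Pq.D 6 (Pq.cons (Pq.L [] 0x106000 (Pf.C 5 98695))
 (Pq.cons (Pq.L [] 0x40bc7 (Pf.W 142 2 [] [1,3,4,5,6,7] (Pf.cons (Pf.B 8 7 (Pf.B 8 6 (Pf.B 8 5 (Pf.B 8 4 (Pf.B 8 3 (Pf.B 8 1 (Pf.W 146 8 [] [2,3,4] (Pf.cons (Pf.B 9 4 (Pf.B 9 3 (Pf.B 9 2 (Pf.C 6 0x4040c409) (Pf.C 2 265)) (Pf.C 120 393)) (Pf.C 120 521)) (Pf.cons (Pf.B 9 2 (Pf.C 5 0x24402) (Pf.C 135 265)) Pf.nil))) (Pf.C 6 0x4040c088)) (Pf.C 3 392)) (Pf.C 3 520)) (Pf.C 3 648)) (Pf.C 130 776)) (Pf.C 3 904)) (Pf.cons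 (Pf.B 8 6 (Pf.B 8 5 (Pf.C 136 648) (Pf.C 0 0xc08288)) (Pf.C 4 776)) Pf.nil))))
 (Pq.cons (Pq.L [0] 0x100030 (Pf.C 0 0x1c301))
 Pq.nil)))) Pq.nil)))) (Pq.cons (Pq.L [] 256 (Pf.C 123 642))
 Pq.nil)))) (Pq.cons (Pq.L [] 128 (Pf.C 123 514))
 Pq.nil)))) (Pq.cons (Pq.L [] 64 (Pf.C 123 386))
 Pq.nil)))) (Pq.cons (Pq.D 2 (Pq.cons (Pq.D 3 (Pq.cons (Pq.D 4 (Pq.cons (Pq.D 5 (Pq.cons (Pq.L [] 0x40000 (Pf.C 2 773))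
 (Pq.cons (Pq.D 6 (Pq.cons (Pq.L [] 0x136ef7 (Pf.C 1 0x202061c301))
 (Pq.cons (Pq.L [] 0x136ef7 (Pf.C 1 0x202061c301))
 (Pq.cons (Pq.L [] 0x1dbb19 (Pf.W 142 5 [] [1,2,3,4,6,7] (Pf.cons (Pf.B 8 7 (Pf.B 8 6 (Pf.B 8 2 (Pf.B 8 1 (Pf.B 8 4 (Pf.B 8 3 (Pf.W 146 8 [] [2,5,6] (Pf.cons (Pf.B 9 6 (Pf.B 9 5 (Pf.B 9 2 (Pf.C 6 0x60a08409) (Pf.C 120 265)) (Pf.C 2 649)) (Pf.C 120 777)) (Pf.cons (Pf.B 9 5 (Pf.C 5 0x24405) (Pf.C 135 649)) Pf.nil))) (Pf.W 146 8 [] [3,5,6] (Pf.cons (Pf.B 9 6 (Pf.B 9 5 (Pf.B 9 3 (Pf.C 6 0x31024305) (Pf.C 2 393)) (Pf.C 2 649)) (Pf.C 120 777)) (Pf.cons (Pf.B 9 5 (Pf.C 5 0x24405) (Pf.C 135 649)) Pf.nil)))) (Pf.B 8 3 (Pf.W 146 8 [] [4,5,6] (Pf.cons (Pf.B 9 6 (Pf.B 9 5 (Pf.B 9 4 (Pf.C 6 0x41024305)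 (Pf.C 2 521)) (Pf.C 2 649)) (Pf.C 120 777)) (Pf.cons (Pf.B 9 5 (Pf.C 5 0x24405) (Pf.C 135 649)) Pf.nil))) (Pf.C 6 0x4100c305))) (Pf.C 6 0x60a08088)) (Pf.C 3 264)) (Pf.C 3 776)) (Pf.C 130 904)) (Pf.cons (Pf.B 8 7 (Pf.B 8 6 (Pf.C 136 776) (Pf.C 0 0xe14308)) (Pf.C 4 904)) Pf.nil))))
 Pq.nil)))) (Pq.cons (Pq.L [] 0x40000 (Pf.C 123 773))
 Pq.nil)))) (Pq.cons (Pq.L [] 256 (Pf.C 3 642))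
 (Pq.cons (Pq.L [] 39360 (Pf.C 0 0x814103))
 Pq.nil)))) (Pq.cons (Pq.L [] 128 (Pf.C 3 514))
 (Pq.cons (Pq.D 4 (Pq.cons (Pq.L [] 39360 (Pf.C 0 0xa10103))
 (Pq.cons (Pq.L [] 256 (Pf.C 3 642))
 (Pq.cons (Pq.L [] 39360 (Pf.C 0 0xa0c104))
 Pq.nil)))) Pq.nil)))) (Pq.cons (Pq.L [] 64 (Pf.C 3 386))
 (Pq.cons (Pq.D 3 (Pq.cons (Pq.D 4 (Pq.cons (Pq.L [] 39360 (Pf.C 0 0xa0c104))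
 (Pq.cons (Pq.L [] 256 (Pf.C 3 642))
 (Pq.cons (Pq.L [] 39360 (Pf.C 0 0xa10103))
 Pq.nil)))) (Pq.cons (Pq.L [] 128 (Pf.C 3 514))
 (Pq.cons (Pq.D 4 (Pq.cons (Pq.L [] 39360 (Pf.C 0 0x814103))
 (Pq.cons (Pq.L [] 256 (Pf.C 3 642))
 (Pq.cons (Pq.D 5 (Pq.cons (Pq.L [] 0x40000 (Pf.C 123 646))
 (Pq.cons (Pq.D 6 (Pq.cons (Pq.L [] 0x1c8781 (Pf.W 148 2 [] [1,3,4,5,6,7] (Pf.cons (Pf.B 8 5 (Pf.C 123 648) (Pf.B 8 4 (Pf.C 123 520) (Pf.C 0 0xa08404))) (Pf.cons (Pf.B 8 7 (Pf.C 5 0x20107) (Pf.B 8 5 (Pf.B 8 6 (Pf.B 8 4 (Pf.B 8 3 (Pf.B 8 1 (Pf.C 5 0x20101) (Pf.W 152 8 [] [2,5,6] (Pf.cons (Pf.B 9 6 (Pf.B 9 5 (Pf.B 9 2 (Pf.C 8 0x60a08409) (Pf.C 3 265)) (Pf.C 130 649)) (Pf.C 3 777)) Pf.nil))) (Pf.C 4 392)) (Pf.C 4 520)) (Pf.C 0 0xa1c308))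 (Pf.C 4 648))) Pf.nil))))
 (Pq.cons (Pq.L [] 0x136ec0 (Pf.C 8 0x4040c386))
 (Pq.cons (Pq.L [] 0x136ec0 (Pf.C 8 0x4040c386))
 Pq.nil)))) (Pq.cons (Pq.L [0] 0x40018 (Pf.C 0 98945))
 Pq.nil)))) Pq.nil)))) Pq.nil)))) Pq.nil)))) (Pq.cons (Pq.D 2 (Pq.cons (Pq.L [] 64 (Pf.C 123 259))
 (Pq.cons (Pq.D 3 (Pq.cons (Pq.L [] 128 (Pf.C 123 260))
 (Pq.cons (Pq.D 4 (Pq.cons (Pq.L [] 256 (Pf.C 123 261))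
 (Pq.cons (Pq.D 5 (Pq.cons (Pq.D 6 (Pq.cons (Pq.L [] 0x1c0700 (Pf.C 0 0xe18105))
 (Pq.cons (Pq.L [] 0x1c0038 (Pf.W 142 6 [] [1,2,3,4,5,7] (Pf.cons (Pf.B 8 7 (Pf.B 8 5 (Pf.B 8 4 (Pf.B 8 3 (Pf.B 8 2 (Pf.B 8 1 (Pf.W 146 8 [] [5,6,7] (Pf.cons (Pf.B 9 7 (Pf.B 9 6 (Pf.B 9 5 (Pf.C 6 0x70c14409) (Pf.C 120 649)) (Pf.C 2 777)) (Pf.C 120 905)) (Pf.cons (Pf.B 9 6 (Pf.C 5 0x24406) (Pf.C 135 777)) Pf.nil))) (Pf.C 6 0x70c14088)) (Pf.C 130 264)) (Pf.C 3 392)) (Pf.C 3 520)) (Pf.C 3 648)) (Pf.C 3 904)) (Pf.cons (Pf.B 8 7 (Pf.C 136 904) (Pf.B 8 5 (Pf.C 136 648) (Pf.C 0 0xe18405))) Pf.nil))))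
 (Pq.cons (Pq.L [0] 0x1c703a (Pf.C 1 0x70218283))
 Pq.nil)))) (Pq.cons (Pq.L [] 0x40000 (Pf.C 3 773))
 (Pq.cons (Pq.D 6 (Pq.cons (Pq.L [] 0x106000 (Pf.C 5 98695))
 (Pq.cons (Pq.L [] 0x136ec0 (Pf.C 8 0x4040c386))
 (Pq.cons (Pq.L [0] 0x100030 (Pf.C 0 0x1c301))
 Pq.nil)))) Pq.nil)))) (Pq.cons (Pq.L [0] 265 (Pf.C 0 82177))
 Pq.nil)))) (Pq.cons (Pq.L [0] 133 (Pf.C 0 65793))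
 Pq.nil)))) (Pq.cons (Pq.L [0] 67 (Pf.C 0 49409))
 Pq.nil)))) Pq.nil)))) (Pq.cons (Pq.D 1 (Pq.cons (Pq.D 2 (Pq.cons (Pq.L [] 64 (Pf.C 2 386))
 (Pq.cons (Pq.D 3 (Pq.cons (Pq.L [] 128 (Pf.C 2 514))
 (Pq.cons (Pq.D 4 (Pq.cons (Pq.L [] 256 (Pf.C 2 642))
 (Pq.cons (Pq.D 5 (Pq.cons (Pq.D 6 (Pq.cons (Pq.L [] 0x136ef7 (Pf.C 1 0x202061c301))
 (Pq.cons (Pq.L [] 0x136ef7 (Pf.C 1 0x202061c301))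
 (Pq.cons (Pq.L [] 0x100030 (Pf.C 5 0x1c086))
 Pq.nil)))) (Pq.cons (Pq.L [] 0x40000 (Pf.C 3 773))
 (Pq.cons (Pq.D 6 (Pq.cons (Pq.L [] 0x100030 (Pf.C 5 98439))
 (Pq.cons (Pq.L [] 0x40bc0 (Pf.W 142 2 [] [1,3,4,5,6,7] (Pf.cons (Pf.B 8 7 (Pf.B 8 6 (Pf.B 8 5 (Pf.B 8 4 (Pf.B 8 3 (Pf.B 8 1 (Pf.W 146 8 [] [2,3,4] (Pf.cons (Pf.B 9 4 (Pf.B 9 3 (Pf.B 9 2 (Pf.C 6 0x4040c409) (Pf.C 2 265)) (Pf.C 120 393)) (Pf.C 120 521)) (Pf.cons (Pf.B 9 2 (Pf.C 5 0x24402) (Pf.C 135 265)) Pf.nil))) (Pf.C 3 136)) (Pf.C 3 392)) (Pf.C 3 520)) (Pf.C 3 648)) (Pf.C 130 776)) (Pf.C 3 904)) (Pf.cons (Pf.B 8 6 (Pf.B 8 5 (Pf.C 136 648) (Pf.C 0 0xc08288)) (Pf.C 4 776)) Pf.nil))))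
 (Pq.cons (Pq.L [0] 0x100600 (Pf.C 0 0x1c302))
 Pq.nil)))) Pq.nil)))) (Pq.cons (Pq.L [] 265 (Pf.C 5 82050))
 Pq.nil)))) (Pq.cons (Pq.L [] 133 (Pf.C 5 65666))
 Pq.nil)))) (Pq.cons (Pq.L [] 67 (Pf.C 5 49282))
 Pq.nil)))) (Pq.cons (Pq.D 2 (Pq.cons (Pq.D 3 (Pq.cons (Pq.D 4 (Pq.cons (Pq.D 5 (Pq.cons (Pq.L [] 0x40000 (Pf.C 2 773))
 (Pq.cons (Pq.D 6 (Pq.cons (Pq.L [] 0x136ef7 (Pf.C 1 0x202061c301))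
 (Pq.cons (Pq.L [] 0x136ef7 (Pf.C 1 0x202061c301))
 (Pq.cons (Pq.L [] 0x1dbb00 (Pf.W 142 5 [] [1,2,3,4,6,7] (Pf.cons (Pf.B 8 7 (Pf.B 8 6 (Pf.B 8 2 (Pf.B 8 1 (Pf.B 8 4 (Pf.B 8 3 (Pf.W 146 8 [] [2,5,6] (Pf.cons (Pf.B 9 6 (Pf.B 9 5 (Pf.B 9 2 (Pf.C 6 0x60a08409) (Pf.C 120 265)) (Pf.C 2 649)) (Pf.C 120 777)) (Pf.cons (Pf.B 9 5 (Pf.C 5 0x24405) (Pf.C 135 649)) Pf.nil))) (Pf.W 146 8 [] [3,5,6] (Pf.cons (Pf.B 9 6 (Pf.B 9 5 (Pf.B 9 3 (Pf.C 6 0x31024305) (Pf.C 2 393)) (Pf.C 2 649)) (Pf.C 120 777)) (Pf.cons (Pf.B 9 5 (Pf.C 5 0x24405) (Pf.C 135 649)) Pf.nil)))) (Pf.B 8 3 (Pf.W 146 8 [] [4,5,6] (Pf.cons (Pf.B 9 6 (Pf.B 9 5 (Pf.B 9 4 (Pf.C 6 0x41024305) (Pf.C 2 521)) (Pf.C 2 649)) (Pf.C 120 777)) (Pf.cons (Pf.B 9 5 (Pf.C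 5 0x24405) (Pf.C 135 649)) Pf.nil))) (Pf.C 6 0x4100c305))) (Pf.C 3 136)) (Pf.C 3 264)) (Pf.C 3 776)) (Pf.C 130 904)) (Pf.cons (Pf.B 8 7 (Pf.B 8 6 (Pf.C 136 776) (Pf.C 0 0xe14308)) (Pf.C 4 904)) Pf.nil))))
 Pq.nil)))) (Pq.cons (Pq.L [] 0x40018 (Pf.C 5 98437))
 Pq.nil)))) (Pq.cons (Pq.L [] 256 (Pf.C 3 642))
 (Pq.cons (Pq.L [] 39360 (Pf.C 0 0x814103))
 Pq.nil)))) (Pq.cons (Pq.L [] 128 (Pf.C 3 514))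
 (Pq.cons (Pq.D 4 (Pq.cons (Pq.L [] 39360 (Pf.C 0 0xa10103))
 (Pq.cons (Pq.L [] 256 (Pf.C 3 642))
 (Pq.cons (Pq.L [] 39360 (Pf.C 0 0xa0c104))
 Pq.nil)))) Pq.nil)))) (Pq.cons (Pq.L [] 64 (Pf.C 3 386))
 (Pq.cons (Pq.D 3 (Pq.cons (Pq.D 4 (Pq.cons (Pq.L [] 39360 (Pf.C 0 0xa0c104))
 (Pq.cons (Pq.L [] 256 (Pf.C 3 642))
 (Pq.cons (Pq.L [] 39360 (Pf.C 0 0xa10103))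
 Pq.nil)))) (Pq.cons (Pq.L [] 128 (Pf.C 3 514))
 (Pq.cons (Pq.D 4 (Pq.cons (Pq.L [] 39360 (Pf.C 0 0x814103))
 (Pq.cons (Pq.L [] 256 (Pf.C 3 642))
 (Pq.cons (Pq.D 5 (Pq.cons (Pq.L [] 0x40018 (Pf.C 5 82054))
 (Pq.cons (Pq.D 6 (Pq.cons (Pq.L [] 0x1c8799 (Pf.W 148 2 [] [1,3,4,5,6,7] (Pf.cons (Pf.B 8 5 (Pf.C 123 648) (Pf.B 8 4 (Pf.C 123 520) (Pf.C 0 0xa08404))) (Pf.cons (Pf.B 8 7 (Pf.C 5 0x20107) (Pf.B 8 5 (Pf.B 8 6 (Pf.B 8 4 (Pf.B 8 3 (Pf.B 8 1 (Pf.W 152 8 [] [2,5,6] (Pf.cons (Pf.B 9 6 (Pf.B 9 5 (Pf.B 9 2 (Pf.C 8 0x60a08409) (Pf.C 3 265)) (Pf.C 130 649)) (Pf.C 3 777)) Pf.nil)) (Pf.C 8 0x60a08088)) (Pf.C 4 392)) (Pf.C 4 520)) (Pf.C 0 0xa1c308)) (Pf.C 4 648))) Pf.nil))))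
 (Pq.cons (Pq.L [0] 0x106673 (Pf.C 1 0x103001c301))
 (Pq.cons (Pq.L [] 0x136ef7 (Pf.C 1 0x202061c301))
 Pq.nil)))) (Pq.cons (Pq.L [] 0x40000 (Pf.C 4 773))
 Pq.nil)))) Pq.nil)))) Pq.nil)))) Pq.nil)))) (Pq.cons (Pq.D 2 (Pq.cons (Pq.L [] 67 (Pf.C 5 32899))
 (Pq.cons (Pq.D 3 (Pq.cons (Pq.L [] 133 (Pf.C 5 32900))
 (Pq.cons (Pq.D 4 (Pq.cons (Pq.L [] 265 (Pf.C 5 32901))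
 (Pq.cons (Pq.D 5 (Pq.cons (Pq.D 6 (Pq.cons (Pq.L [] 0x1c0700 (Pf.C 0 0xe18105))
 (Pq.cons (Pq.L [] 0x1c0000 (Pf.W 142 6 [] [1,2,3,4,5,7] (Pf.cons (Pf.B 8 7 (Pf.B 8 5 (Pf.B 8 4 (Pf.B 8 3 (Pf.B 8 2 (Pf.B 8 1 (Pf.W 146 8 [] [5,6,7] (Pf.cons (Pf.B 9 7 (Pf.B 9 6 (Pf.B 9 5 (Pf.C 6 0x70c14409) (Pf.C 120 649)) (Pf.C 2 777)) (Pf.C 120 905)) (Pf.cons (Pf.B 9 6 (Pf.C 5 0x24406) (Pf.C 135 777)) Pf.nil))) (Pf.C 3 136)) (Pf.C 130 264)) (Pf.C 3 392)) (Pf.C 3 520)) (Pf.C 3 648)) (Pf.C 3 904)) (Pf.cons (Pf.B 8 7 (Pf.C 136 904) (Pf.B 8 5 (Pf.C 136 648) (Pf.C 0 0xe18405))) Pf.nil))))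
 (Pq.cons (Pq.L [] 0x100030 (Pf.C 5 0x1c086))
 Pq.nil)))) (Pq.cons (Pq.L [] 0x40000 (Pf.C 3 773))
 (Pq.cons (Pq.D 6 (Pq.cons (Pq.L [] 0x100030 (Pf.C 5 98439))
 (Pq.cons (Pq.L [] 0x136ef7 (Pf.C 1 0x202061c301))
 (Pq.cons (Pq.L [] 0x136ef7 (Pf.C 1 0x202061c301))
 Pq.nil)))) Pq.nil)))) (Pq.cons (Pq.L [] 256 (Pf.C 4 642))
 Pq.nil)))) (Pq.cons (Pq.L [] 128 (Pf.C 4 514))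
 Pq.nil)))) (Pq.cons (Pq.L [] 64 (Pf.C 4 386))
 Pq.nil)))) Pq.nil)))) (Pq.cons (Pq.D 1 (Pq.cons (Pq.D 2 (Pq.cons (Pq.L [] 64 (Pf.C 2 386))
 (Pq.cons (Pq.D 3 (Pq.cons (Pq.L [] 128 (Pf.C 2 514))
 (Pq.cons (Pq.D 4 (Pq.cons (Pq.L [] 256 (Pf.C 2 642))
 (Pq.cons (Pq.D 5 (Pq.cons (Pq.D 6 (Pq.cons (Pq.L [] 0x136ec0 (Pf.C 6 0x4040c386))
 (Pq.cons (Pq.L [] 0x136ec0 (Pf.C 6 0x4040c386))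
 (Pq.cons (Pq.L [] 0x106000 (Pf.C 5 0x1c186))
 Pq.nil)))) (Pq.cons (Pq.L [] 0x40000 (Pf.C 3 773))
 (Pq.cons (Pq.D 6 (Pq.cons (Pq.L [] 0x106000 (Pf.C 5 98695))
 (Pq.cons (Pq.L [] 0x40bc0 (Pf.W 142 2 [] [1,3,4,5,6,7] (Pf.cons (Pf.B 8 7 (Pf.B 8 6 (Pf.B 8 5 (Pf.B 8 4 (Pf.B 8 3 (Pf.B 8 1 (Pf.W 146 8 [] [2,3,4] (Pf.cons (Pf.B 9 4 (Pf.B 9 3 (Pf.B 9 2 (Pf.C 6 0x4040c409) (Pf.C 2 265)) (Pf.C 120 393)) (Pf.C 120 521)) (Pf.cons (Pf.B 9 2 (Pf.C 5 0x24402) (Pf.C 135 265)) Pf.nil))) (Pf.C 130 136)) (Pf.C 3 392)) (Pf.C 3 520)) (Pf.C 3 648)) (Pf.C 130 776)) (Pf.C 3 904)) (Pf.cons (Pf.B 8 6 (Pf.B 8 5 (Pf.C 136 648) (Pf.C 0 0xc08288)) (Pf.C 4 776)) Pf.nil))))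
 (Pq.cons (Pq.L [0] 0x100600 (Pf.C 0 0x1c302))
 Pq.nil)))) Pq.nil)))) (Pq.cons (Pq.L [] 256 (Pf.C 123 642))
 Pq.nil)))) (Pq.cons (Pq.L [] 128 (Pf.C 123 514))
 Pq.nil)))) (Pq.cons (Pq.L [] 64 (Pf.C 123 386))
 Pq.nil)))) (Pq.cons (Pq.D 2 (Pq.cons (Pq.D 3 (Pq.cons (Pq.D 4 (Pq.cons (Pq.D 5 (Pq.cons (Pq.L [] 0x40000 (Pf.C 2 773))
 (Pq.cons (Pq.D 6 (Pq.cons (Pq.L [] 0x136ec0 (Pf.C 6 0x4040c386))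
 (Pq.cons (Pq.L [] 0x136ec0 (Pf.C 6 0x4040c386))
 (Pq.cons (Pq.L [] 0x1dbb00 (Pf.W 142 5 [] [1,2,3,4,6,7] (Pf.cons (Pf.B 8 7 (Pf.B 8 6 (Pf.B 8 2 (Pf.B 8 1 (Pf.B 8 4 (Pf.B 8 3 (Pf.W 146 8 [] [2,5,6] (Pf.cons (Pf.B 9 6 (Pf.B 9 5 (Pf.B 9 2 (Pf.C 6 0x60a08409) (Pf.C 120 265)) (Pf.C 2 649)) (Pf.C 120 777)) (Pf.cons (Pf.B 9 5 (Pf.C 5 0x24405) (Pf.C 135 649)) Pf.nil))) (Pf.W 146 8 [] [3,5,6] (Pf.cons (Pf.B 9 6 (Pf.B 9 5 (Pf.B 9 3 (Pf.C 6 0x31024305) (Pf.C 2 393)) (Pf.C 2 649)) (Pf.C 120 777)) (Pf.cons (Pf.B 9 5 (Pf.C 5 0x24405) (Pf.C 135 649)) Pf.nil)))) (Pf.B 8 3 (Pf.W 146 8 [] [4,5,6] (Pf.cons (Pf.B 9 6 (Pf.B 9 5 (Pf.B 9 4 (Pf.C 6 0x41024305) (Pf.C 2 521)) (Pf.C 2 649)) (Pf.C 120 777)) (Pf.cons (Pf.B 9 5 (Pf.C 5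 0x24405) (Pf.C 135 649)) Pf.nil))) (Pf.C 6 0x4100c305))) (Pf.C 130 136)) (Pf.C 3 264)) (Pf.C 3 776)) (Pf.C 130 904)) (Pf.cons (Pf.B 8 7 (Pf.B 8 6 (Pf.C 136 776) (Pf.C 0 0xe14308)) (Pf.C 4 904)) Pf.nil))))
 Pq.nil)))) (Pq.cons (Pq.L [] 0x40000 (Pf.C 123 773))
 Pq.nil)))) (Pq.cons (Pq.L [] 256 (Pf.C 3 642))
 (Pq.cons (Pq.L [] 39360 (Pf.C 0 0x814103))
 Pq.nil)))) (Pq.cons (Pq.L [] 128 (Pf.C 3 514))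
 (Pq.cons (Pq.D 4 (Pq.cons (Pq.L [] 39360 (Pf.C 0 0xa10103))
 (Pq.cons (Pq.L [] 256 (Pf.C 3 642))
 (Pq.cons (Pq.L [] 39360 (Pf.C 0 0xa0c104))
 Pq.nil)))) Pq.nil)))) (Pq.cons (Pq.L [] 64 (Pf.C 3 386))
 (Pq.cons (Pq.D 3 (Pq.cons (Pq.D 4 (Pq.cons (Pq.L [] 39360 (Pf.C 0 0xa0c104))
 (Pq.cons (Pq.L [] 256 (Pf.C 3 642))
 (Pq.cons (Pq.L [] 39360 (Pf.C 0 0xa10103))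
 Pq.nil)))) (Pq.cons (Pq.L [] 128 (Pf.C 3 514))
 (Pq.cons (Pq.D 4 (Pq.cons (Pq.L [] 39360 (Pf.C 0 0x814103))
 (Pq.cons (Pq.L [] 256 (Pf.C 3 642))
 (Pq.cons (Pq.D 5 (Pq.cons (Pq.L [] 0x40000 (Pf.C 123 646))
 (Pq.cons (Pq.D 6 (Pq.cons (Pq.L [] 0x1c8780 (Pf.W 148 2 [] [1,3,4,5,6,7] (Pf.cons (Pf.B 8 5 (Pf.C 123 648) (Pf.B 8 4 (Pf.C 123 520) (Pf.C 0 0xa08404))) (Pf.cons (Pf.B 8 7 (Pf.C 5 0x20107) (Pf.B 8 5 (Pf.B 8 6 (Pf.B 8 4 (Pf.B 8 3 (Pf.B 8 1 (Pf.W 152 8 [] [2,5,6] (Pf.cons (Pf.B 9 6 (Pf.B 9 5 (Pf.B 9 2 (Pf.C 8 0x60a08409) (Pf.C 3 265)) (Pf.C 130 649)) (Pf.C 3 777)) Pf.nil)) (Pf.C 4 136)) (Pf.C 4 392)) (Pf.C 4 520)) (Pf.C 0 0xa1c308)) (Pf.C 4 648))) Pf.nil))))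
 (Pq.cons (Pq.L [] 0x136ef7 (Pf.C 1 0x202061c301))
 (Pq.cons (Pq.L [] 0x136ef7 (Pf.C 1 0x202061c301))
 Pq.nil)))) (Pq.cons (Pq.L [] 0x40000 (Pf.C 4 773))
 Pq.nil)))) Pq.nil)))) Pq.nil)))) Pq.nil)))) (Pq.cons (Pq.D 2 (Pq.cons (Pq.L [] 64 (Pf.C 123 259))
 (Pq.cons (Pq.D 3 (Pq.cons (Pq.L [] 128 (Pf.C 123 260))
 (Pq.cons (Pq.D 4 (Pq.cons (Pq.L [] 256 (Pf.C 123 261))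
 (Pq.cons (Pq.D 5 (Pq.cons (Pq.D 6 (Pq.cons (Pq.L [] 0x100631 (Pf.C 0 0x41c301))
 (Pq.cons (Pq.L [] 0x1c0000 (Pf.W 142 6 [] [1,2,3,4,5,7] (Pf.cons (Pf.B 8 7 (Pf.B 8 5 (Pf.B 8 4 (Pf.B 8 3 (Pf.B 8 2 (Pf.B 8 1 (Pf.W 146 8 [] [5,6,7] (Pf.cons (Pf.B 9 7 (Pf.B 9 6 (Pf.B 9 5 (Pf.C 6 0x70c14409) (Pf.C 120 649)) (Pf.C 2 777)) (Pf.C 120 905)) (Pf.cons (Pf.B 9 6 (Pf.C 5 0x24406) (Pf.C 135 777)) Pf.nil))) (Pf.C 130 136)) (Pf.C 130 264)) (Pf.C 3 392)) (Pf.C 3 520)) (Pf.C 3 648)) (Pf.C 3 904)) (Pf.cons (Pf.B 8 7 (Pf.C 136 904) (Pf.B 8 5 (Pf.C 136 648) (Pf.C 0 0xe18405))) Pf.nil))))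
 (Pq.cons (Pq.L [] 0x106000 (Pf.C 5 0x1c186))
 Pq.nil)))) (Pq.cons (Pq.L [] 0x40000 (Pf.C 3 773))
 (Pq.cons (Pq.D 6 (Pq.cons (Pq.L [] 0x106000 (Pf.C 5 98695))
 (Pq.cons (Pq.L [] 0x136ef7 (Pf.C 1 0x202061c301))
 (Pq.cons (Pq.L [] 0x136ef7 (Pf.C 1 0x202061c301))
 Pq.nil)))) Pq.nil)))) (Pq.cons (Pq.L [] 256 (Pf.C 4 642))
 Pq.nil)))) (Pq.cons (Pq.L [] 128 (Pf.C 4 514))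
 Pq.nil)))) (Pq.cons (Pq.L [] 64 (Pf.C 4 386))
 Pq.nil)))) Pq.nil)))) Pq.nil)))) Pq.nil))
theorem e4_o98 : AllRef e4_T e4_G16 (applyObl d_T 2 [112,85,94] [0,0,0] [(112,0x400000000000000000000000),(94,0x10000000000000000000000000000)]) :=
  chkPq_sound e4_o98c _ (by decide +kernel)

end Pool.Agent.Lib.MP_849b2e_co
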