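import Pool.Agent.Lib.MP_849b2e_co.AllR
import Pool.Agent.Lib.MP_849b2e_co.Te4
import Pool.Agent.Lib.MP_849b2e_co.Oe4_0
import Pool.Agent.Lib.MP_849b2e_co.Oe4_1
import Pool.Agent.Lib.MP_849b2e_co.Ld

set_option maxRecDepth 100000
set_option linter.all false
namespace Pool.Agent.Lib.MP_849b2e_co

theorem e4_n136  : Bd e4_T e4_G16 [112,85,94] :=
  r_apply lem_d [0,0,0] [(112,0x400000000000000000000000),(94,0x10000000000000000000000000000)] (by decide +kernel) e4_o98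
theorem e4_n135  : Bd e4_T e4_G59 [178] :=
  r_apply lem_D2 [0] [] (by decide +kernel) e4_o97
theorem e4_n134  : Bd e4_T e4_G91 [216,217,220] :=
  r_apply lem_d [0,0,0] [] (by decide +kernel) e4_o96
theorem e4_n133  : Bd e4_T e4_G91 [234,217,232] :=
  r_act [] [216,217,220] (by decide +kernel) e4_n134
theorem e4_n132  : Bd e4_T e4_G90 [234,235,217,218,232,233,221] :=
  r_close true 2 [42,54,43,44,45,53,46,47,48] [234,235,217,218,232,233,221] [0,0,0,1,2,2,3] [1] [2] 21 ⟨236,[],[],[]⟩ e4_G91 [234,217,232] (by decide +kernel) e4_o95 e4_n133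
theorem e4_n131  : Bd e4_T e4_G90 [216,217,218,232,233,221] :=
  r_act [54] [234,235,217,218,232,233,221] (by decide +kernel) e4_n132
theorem e4_n130  : Bd e4_T e4_G89 [216,217,218,232,233,221] :=
  r_def 216 0 [232] [] ⟨234,[55],[215,0,216],[]⟩ e4_G90 [216,217,218,232,233,221] (by decide +kernel) e4_n131
theorem e4_n129  : Bd e4_T e4_G89 [216,217,218,220,221] :=
  r_act [53] [216,217,218,232,233,221] (by decide +kernel) e4_n130
theorem e4_n128  : Bd e4_T e4_G88 [216,217,218,220,221] :=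
  r_def 220 0 [] [217] ⟨232,[54],[213,214],[]⟩ e4_G89 [216,217,218,220,221] (by decide +kernel) e4_n129
theorem e4_n127  : Bd e4_T e4_G88 [216,228,224,226,230] :=
  r_act [] [216,217,218,220,221] (by decide +kernel) e4_n128
theorem e4_n126  : Bd e4_T e4_G87 [216,228,229,224,225,226,227,230,231,222,223] :=
  r_close false 2 [42,51,43,49,44,45,50,46,52,47,48] [216,228,229,224,225,226,227,230,231,222,223] [0,0,0,1,1,2,2,3,3,4,5] [1] [2] 171 ⟨232,[],[],[]⟩ e4_G88 [216,228,224,226,230] (by decide +kernel) e4_o94 e4_n127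
theorem e4_n125  : Bd e4_T e4_G87 [216,217,224,225,226,227,221,222,223] :=
  r_act [51,52] [216,228,229,224,225,226,227,230,231,222,223] (by decide +kernel) e4_n126
theorem e4_n124  : Bd e4_T e4_G86 [216,217,224,225,226,227,221,222,223] :=
  r_def 221 0 [224] [] ⟨230,[53],[211,0,212],[]⟩ e4_G87 [216,217,224,225,226,227,221,222,223] (by decide +kernel) e4_n125
theorem e4_n123  : Bd e4_T e4_G85 [216,217,224,225,226,227,221,222,223] :=
  r_def 217 0 [] [226] ⟨228,[52],[209,210],[]⟩ e4_G86 [216,217,224,225,226,227,221,222,223] (by decide +kernel) e4_n124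
theorem e4_n122  : Bd e4_T e4_G85 [216,217,218,220,221,222,223] :=
  r_act [49,50] [216,217,224,225,226,227,221,222,223] (by decide +kernel) e4_n123
theorem e4_n121  : Bd e4_T e4_G84 [216,217,218,220,221,222,223] :=
  r_def 220 0 [216] [] ⟨226,[51],[207,0,208],[]⟩ e4_G85 [216,217,218,220,221,222,223] (by decide +kernel) e4_n122
theorem e4_n120  : Bd e4_T e4_G83 [216,217,218,220,221,222,223] :=
  r_def 218 0 [216] [] ⟨224,[50],[205,0,206],[]⟩ e4_G84 [216,217,218,220,221,222,223] (by decide +kernel) e4_n121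
theorem e4_n119  : Bd e4_T e4_G83 [185,188,191,194,197,200] :=
  r_act [42,43,44,45,46,47,48] [216,217,218,220,221,222,223] (by decide +kernel) e4_n120
theorem e4_n118  : Bd e4_T e4_G82 [185,188,191,194,197,200] :=
  r_psplit 200 [] (PT.br 1 PT.kid PT.ref) ⟨223,[49],[],[]⟩ e4_G83 [185,188,191,194,197,200] (by decide +kernel) e4_o93 e4_n119
theorem e4_n117  : Bd e4_T e4_G81 [185,188,191,194,197,200] :=
  r_psplit 197 [] (PT.br 1 PT.ref PT.kid) ⟨222,[48],[],[]⟩ e4_G82 [185,188,191,194,197,200] (by decide +kernel) e4_o92 e4_n118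
theorem e4_n116  : Bd e4_T e4_G80 [185,188,191,194,197,200] :=
  r_psplit 194 [] (PT.br 1 PT.kid PT.ref) ⟨221,[47],[],[]⟩ e4_G81 [185,188,191,194,197,200] (by decide +kernel) e4_o91 e4_n117
theorem e4_n115  : Bd e4_T e4_G79 [185,188,191,194,197,200] :=
  r_psplit 219 [] (PT.br 1 PT.kid PT.ref) ⟨220,[46],[],[]⟩ e4_G80 [185,188,191,194,197,200] (by decide +kernel) e4_o90 e4_n116
theorem e4_n114  : Bd e4_T e4_G78 [185,188,191,194,197,200] :=
  r_psplit 191 [1] PT.kid ⟨219,[45],[],[]⟩ e4_G79 [185,188,191,194,197,200] (by decide +kernel) e4_o89 e4_n115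
theorem e4_n113  : Bd e4_T e4_G77 [185,188,191,194,197,200] :=
  r_psplit 188 [] (PT.br 1 PT.kid PT.ref) ⟨218,[44],[],[]⟩ e4_G78 [185,188,191,194,197,200] (by decide +kernel) e4_o88 e4_n114
theorem e4_n112  : Bd e4_T e4_G63 [185,188,191,194,197,200] :=
  r_psplit 185 [] (PT.br 1 PT.kid PT.kid) ⟨216,[43],[],[]⟩ e4_G77 [185,188,191,194,197,200] (by decide +kernel) e4_o87 e4_n113
theorem e4_n111  : Bd e4_T e4_G76 [208,209] :=
  r_apply lem_D2 [0,0] [] (by decide +kernel) e4_o86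
theorem e4_n110  : Bd e4_T e4_G76 [208,214] :=
  r_act [] [208,209] (by decide +kernel) e4_n111
theorem e4_n109  : Bd e4_T e4_G75 [208,214,215] :=
  r_kill [215] ⟨216,[],[],[]⟩ e4_G76 [208,214] (by decide +kernel) e4_o85 e4_n110
theorem e4_n108  : Bd e4_T e4_G75 [208,209] :=
  r_act [41] [208,214,215] (by decide +kernel) e4_n109
theorem e4_n107  : Bd e4_T e4_G74 [208,209] :=
  r_def 209 0 [208] [] ⟨214,[42],[0,0,204],[]⟩ e4_G75 [208,209] (by decide +kernel) e4_n108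
theorem e4_n106  : Bd e4_T e4_G74 [208,212] :=
  r_act [] [208,209] (by decide +kernel) e4_n107
theorem e4_n105  : Bd e4_T e4_G73 [206,207,208,212,213,210] :=
  r_close false 2 [34,35,36,37,40,38,39] [206,207,208,212,213,210] [0,1,1,3,3,4] [1] [0] 12 ⟨214,[],[],[]⟩ e4_G74 [208,212] (by decide +kernel) e4_o84 e4_n106
theorem e4_n104  : Bd e4_T e4_G73 [206,207,208,209,210] :=
  r_act [40] [206,207,208,212,213,210] (by decide +kernel) e4_n105
theorem e4_n103  : Bd e4_T e4_G72 [206,207,208,209,210] :=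
  r_def 209 0 [208] [] ⟨212,[41],[202,0,203],[]⟩ e4_G73 [206,207,208,209,210] (by decide +kernel) e4_n104
theorem e4_n102  : Bd e4_T e4_G71 [206,207,208,209,210,211] :=
  r_kill [211] ⟨212,[],[],[]⟩ e4_G72 [206,207,208,209,210] (by decide +kernel) e4_o83 e4_n103
theorem e4_n101  : Bd e4_T e4_G71 [185,188,194,197,200] :=
  r_act [34,35,36,37,38,39] [206,207,208,209,210,211] (by decide +kernel) e4_n102
theorem e4_n100  : Bd e4_T e4_G70 [185,188,194,197,200] :=
  r_psplit 200 [] (PT.br 1 PT.kid PT.ref) ⟨211,[40],[],[]⟩ e4_G71 [185,188,194,197,200] (by decide +kernel) e4_o82 e4_n101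
theorem e4_n99  : Bd e4_T e4_G69 [185,188,194,197,200] :=
  r_psplit 197 [] (PT.br 1 PT.kid PT.ref) ⟨210,[39],[],[]⟩ e4_G70 [185,188,194,197,200] (by decide +kernel) e4_o81 e4_n100
theorem e4_n98  : Bd e4_T e4_G68 [185,188,194,197,200] :=
  r_psplit 194 [] (PT.br 1 PT.ref PT.kid) ⟨209,[38],[],[]⟩ e4_G69 [185,188,194,197,200] (by decide +kernel) e4_o80 e4_n99
theorem e4_n97  : Bd e4_T e4_G67 [185,188,194,197,200] :=
  r_psplit 188 [] (PT.br 1 PT.kid PT.kid) ⟨207,[37],[],[]⟩ e4_G68 [185,188,194,197,200] (by decide +kernel) e4_o79 e4_n98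
theorem e4_n96  : Bd e4_T e4_G66 [185,188,194,197,200] :=
  r_psplit 205 [] (PT.br 1 PT.kid PT.ref) ⟨206,[36],[],[]⟩ e4_G67 [185,188,194,197,200] (by decide +kernel) e4_o78 e4_n97
theorem e4_n95  : Bd e4_T e4_G65 [185,188,194,197,200] :=
  r_psplit 185 [1] PT.kid ⟨205,[35],[],[]⟩ e4_G66 [185,188,194,197,200] (by decide +kernel) e4_o77 e4_n96
theorem e4_n94  : Bd e4_T e4_G64 [188,194,197,200] :=
  r_apply lem_d [0,0,0,0] [(188,0x20000000000000000000000000000000000000000000000000),(197,0x100000000000000000000000000000000000000000000000)] (by decide +kernel) (allRef_split 1 e4_o74 (allRef_expand 0 (allRef_split 1 e4_o75 e4_o76)))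
theorem e4_n93  : Bd e4_T e4_G62 [185,188,194,197,200] :=
  r_ext 185 2 [188] [] [] [] [0] ⟨203,[],[],[]⟩ e4_G64 [188,194,197,200] ⟨204,[],[],[]⟩ e4_G65 [185,188,194,197,200] (by decide +kernel) e4_o73 e4_n94 e4_n95
theorem e4_n92  : Bd e4_T e4_G61 [185,188,191,194,197,200] :=
  r_ext 191 2 [185] [] [] [] [0] ⟨203,[],[],[]⟩ e4_G62 [185,188,194,197,200] ⟨203,[],[],[]⟩ e4_G63 [185,188,191,194,197,200] (by decide +kernel) e4_o72 e4_n93 e4_n112
theorem e4_n91  : Bd e4_T e4_G60 [179,180,181,182,183,184] :=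
  r_block [12,16,16,33,38,24] [6,9,1,50,8,8] [6,9,1,50,8,8] ⟨185,[0,0,0,34],[0,0,0,0,0,0,0,0,0,0,0,0,199,0,0,0,0,0,0,0,0,0,0,0,200,0,0,0,0,201],[3]⟩ e4_G61 [185,188,191,194,197,200] (by decide +kernel) e4_o71 e4_n92
theorem e4_n90  : Bd e4_T e4_G59 [117,118,119,111,113,177] :=
  r_twin 0 [6,9,1,50,8,8] ⟨179,[],[0,0,0,0,198],[]⟩ e4_G60 [179,180,181,182,183,184] (by decide +kernel) e4_o70 e4_n91
theorem e4_n89  : Bd e4_T e4_G59 [117,118,119,111,113,177,178] :=
  r_split [117,118,119,111,113,177] [178] (by decide +kernel) e4_o69 e4_n90 e4_n135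
theorem e4_n88  : Bd e4_T e4_G59 [117,118,119,111,113,115] :=
  r_act [32] [117,118,119,111,113,177,178] (by decide +kernel) e4_n89
theorem e4_n87  : Bd e4_T e4_G58 [117,118,119,111,113,115] :=
  r_def 115 0 [111] [] ⟨177,[33],[196,0,197],[]⟩ e4_G59 [117,118,119,111,113,115] (by decide +kernel) e4_n88
theorem e4_n86  : Bd e4_T e4_G58 [116] :=
  r_apply lem_D2 [0] [] (by decide +kernel) e4_o68
theorem e4_n85  : Bd e4_T e4_G58 [116,117,118,119,111,113,115] :=
  r_split [116] [117,118,119,111,113,115] (by decide +kernel) e4_o67 e4_n86 e4_n87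
theorem e4_n84  : Bd e4_T e4_G20 [116,117,118,119,111,114,113,115,92,77] :=
  r_kill [114,92,77] ⟨120,[],[],[]⟩ e4_G58 [116,117,118,119,111,113,115] (by decide +kernel) e4_o66 e4_n85
theorem e4_n83  : Bd e4_T e4_G57 [157,158,161] :=
  r_apply lem_d [0,0,0] [] (by decide +kernel) e4_o65
theorem e4_n82  : Bd e4_T e4_G57 [175,158,173] :=
  r_act [] [157,158,161] (by decide +kernel) e4_n83
theorem e4_n81  : Bd e4_T e4_G56 [175,176,158,159,173,174,162] :=
  r_close true 1 [19,31,20,21,22,30,23,24,25] [175,176,158,159,173,174,162] [0,0,0,1,2,2,3] [1] [2] 21 ⟨177,[],[],[]⟩ e4_G57 [175,158,173] (by decide +kernel) e4_o64 e4_n82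
theorem e4_n80  : Bd e4_T e4_G56 [157,158,159,173,174,162] :=
  r_act [31] [175,176,158,159,173,174,162] (by decide +kernel) e4_n81
theorem e4_n79  : Bd e4_T e4_G55 [157,158,159,173,174,162] :=
  r_def 157 0 [173] [] ⟨175,[32],[194,0,195],[]⟩ e4_G56 [157,158,159,173,174,162] (by decide +kernel) e4_n80
theorem e4_n78  : Bd e4_T e4_G55 [157,158,159,161,162] :=
  r_act [30] [157,158,159,173,174,162] (by decide +kernel) e4_n79
theorem e4_n77  : Bd e4_T e4_G54 [157,158,159,161,162] :=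
  r_def 161 0 [] [158] ⟨173,[31],[192,193],[]⟩ e4_G55 [157,158,159,161,162] (by decide +kernel) e4_n78
theorem e4_n76  : Bd e4_T e4_G54 [157,169,165,167,171] :=
  r_act [] [157,158,159,161,162] (by decide +kernel) e4_n77
theorem e4_n75  : Bd e4_T e4_G53 [157,169,170,165,166,167,168,171,172,163,164] :=
  r_close false 1 [19,28,20,26,21,22,27,23,29,24,25] [157,169,170,165,166,167,168,171,172,163,164] [0,0,0,1,1,2,2,3,3,4,5] [1] [2] 171 ⟨173,[],[],[]⟩ e4_G54 [157,169,165,167,171] (by decide +kernel) e4_o63 e4_n76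
theorem e4_n74  : Bd e4_T e4_G53 [157,158,165,166,167,168,162,163,164] :=
  r_act [28,29] [157,169,170,165,166,167,168,171,172,163,164] (by decide +kernel) e4_n75
theorem e4_n73  : Bd e4_T e4_G52 [157,158,165,166,167,168,162,163,164] :=
  r_def 162 0 [165] [] ⟨171,[30],[190,0,191],[]⟩ e4_G53 [157,158,165,166,167,168,162,163,164] (by decide +kernel) e4_n74
theorem e4_n72  : Bd e4_T e4_G51 [157,158,165,166,167,168,162,163,164] :=
  r_def 158 0 [] [167] ⟨169,[29],[188,189],[]⟩ e4_G52 [157,158,165,166,167,168,162,163,164] (by decide +kernel) e4_n73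
theorem e4_n71  : Bd e4_T e4_G51 [157,158,159,161,162,163,164] :=
  r_act [26,27] [157,158,165,166,167,168,162,163,164] (by decide +kernel) e4_n72
theorem e4_n70  : Bd e4_T e4_G50 [157,158,159,161,162,163,164] :=
  r_def 161 0 [157] [] ⟨167,[28],[186,0,187],[]⟩ e4_G51 [157,158,159,161,162,163,164] (by decide +kernel) e4_n71
theorem e4_n69  : Bd e4_T e4_G49 [157,158,159,161,162,163,164] :=
  r_def 159 0 [157] [] ⟨165,[27],[184,0,185],[]⟩ e4_G50 [157,158,159,161,162,163,164] (by decide +kernel) e4_n70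
theorem e4_n68  : Bd e4_T e4_G49 [126,129,132,135,138,141] :=
  r_act [19,20,21,22,23,24,25] [157,158,159,161,162,163,164] (by decide +kernel) e4_n69
theorem e4_n67  : Bd e4_T e4_G48 [126,129,132,135,138,141] :=
  r_psplit 141 [] (PT.br 1 PT.kid PT.ref) ⟨164,[26],[],[]⟩ e4_G49 [126,129,132,135,138,141] (by decide +kernel) e4_o62 e4_n68
theorem e4_n66  : Bd e4_T e4_G47 [126,129,132,135,138,141] :=
  r_psplit 138 [] (PT.br 1 PT.ref PT.kid) ⟨163,[25],[],[]⟩ e4_G48 [126,129,132,135,138,141] (by decide +kernel) e4_o61 e4_n67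
theorem e4_n65  : Bd e4_T e4_G46 [126,129,132,135,138,141] :=
  r_psplit 135 [] (PT.br 1 PT.kid PT.ref) ⟨162,[24],[],[]⟩ e4_G47 [126,129,132,135,138,141] (by decide +kernel) e4_o60 e4_n66
theorem e4_n64  : Bd e4_T e4_G45 [126,129,132,135,138,141] :=
  r_psplit 160 [] (PT.br 1 PT.kid PT.ref) ⟨161,[23],[],[]⟩ e4_G46 [126,129,132,135,138,141] (by decide +kernel) e4_o59 e4_n65
theorem e4_n63  : Bd e4_T e4_G44 [126,129,132,135,138,141] :=
  r_psplit 132 [1] PT.kid ⟨160,[22],[],[]⟩ e4_G45 [126,129,132,135,138,141] (by decide +kernel) e4_o58 e4_n64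
theorem e4_n62  : Bd e4_T e4_G43 [126,129,132,135,138,141] :=
  r_psplit 129 [] (PT.br 1 PT.kid PT.ref) ⟨159,[21],[],[]⟩ e4_G44 [126,129,132,135,138,141] (by decide +kernel) e4_o57 e4_n63
theorem e4_n61  : Bd e4_T e4_G29 [126,129,132,135,138,141] :=
  r_psplit 126 [] (PT.br 1 PT.kid PT.kid) ⟨157,[20],[],[]⟩ e4_G43 [126,129,132,135,138,141] (by decide +kernel) e4_o56 e4_n62
theorem e4_n60  : Bd e4_T e4_G42 [149,150] :=
  r_apply lem_D2 [0,0] [] (by decide +kernel) e4_o55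
theorem e4_n59  : Bd e4_T e4_G42 [149,155] :=
  r_act [] [149,150] (by decide +kernel) e4_n60
theorem e4_n58  : Bd e4_T e4_G41 [149,155,156] :=
  r_kill [156] ⟨157,[],[],[]⟩ e4_G42 [149,155] (by decide +kernel) e4_o54 e4_n59
theorem e4_n57  : Bd e4_T e4_G41 [149,150] :=
  r_act [18] [149,155,156] (by decide +kernel) e4_n58
theorem e4_n56  : Bd e4_T e4_G40 [149,150] :=
  r_def 150 0 [149] [] ⟨155,[19],[0,0,183],[]⟩ e4_G41 [149,150] (by decide +kernel) e4_n57
theorem e4_n55  : Bd e4_T e4_G40 [149,153] :=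
  r_act [] [149,150] (by decide +kernel) e4_n56
theorem e4_n54  : Bd e4_T e4_G39 [147,148,149,153,154,151] :=
  r_close false 1 [11,12,13,14,17,15,16] [147,148,149,153,154,151] [0,1,1,3,3,4] [1] [0] 12 ⟨155,[],[],[]⟩ e4_G40 [149,153] (by decide +kernel) e4_o53 e4_n55
theorem e4_n53  : Bd e4_T e4_G39 [147,148,149,150,151] :=
  r_act [17] [147,148,149,153,154,151] (by decide +kernel) e4_n54
theorem e4_n52  : Bd e4_T e4_G38 [147,148,149,150,151] :=
  r_def 150 0 [149] [] ⟨153,[18],[181,0,182],[]⟩ e4_G39 [147,148,149,150,151] (by decide +kernel) e4_n53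
theorem e4_n51  : Bd e4_T e4_G37 [147,148,149,150,151,152] :=
  r_close false 1 [11,12,13,14,15,16] [147,148,149,150,151,152] [0,1,1,3,4,5] [1] [0] 31 ⟨153,[],[],[]⟩ e4_G38 [147,148,149,150,151] (by decide +kernel) e4_o52 e4_n52
theorem e4_n50  : Bd e4_T e4_G37 [126,129,135,138,141] :=
  r_act [11,12,13,14,15,16] [147,148,149,150,151,152] (by decide +kernel) e4_n51
theorem e4_n49  : Bd e4_T e4_G36 [126,129,135,138,141] :=
  r_psplit 141 [] (PT.br 1 PT.kid PT.ref) ⟨152,[17],[],[]⟩ e4_G37 [126,129,135,138,141] (by decide +kernel) e4_o51 e4_n50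
theorem e4_n48  : Bd e4_T e4_G35 [126,129,135,138,141] :=
  r_psplit 138 [] (PT.br 1 PT.kid PT.ref) ⟨151,[16],[],[]⟩ e4_G36 [126,129,135,138,141] (by decide +kernel) e4_o50 e4_n49
theorem e4_n47  : Bd e4_T e4_G34 [126,129,135,138,141] :=
  r_psplit 135 [] (PT.br 1 PT.ref PT.kid) ⟨150,[15],[],[]⟩ e4_G35 [126,129,135,138,141] (by decide +kernel) e4_o49 e4_n48
theorem e4_n46  : Bd e4_T e4_G33 [126,129,135,138,141] :=
  r_psplit 129 [] (PT.br 1 PT.kid PT.kid) ⟨148,[14],[],[]⟩ e4_G34 [126,129,135,138,141] (by decide +kernel) e4_o48 e4_n47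
theorem e4_n45  : Bd e4_T e4_G32 [126,129,135,138,141] :=
  r_psplit 146 [] (PT.br 1 PT.kid PT.ref) ⟨147,[13],[],[]⟩ e4_G33 [126,129,135,138,141] (by decide +kernel) e4_o47 e4_n46
theorem e4_n44  : Bd e4_T e4_G31 [126,129,135,138,141] :=
  r_psplit 126 [1] PT.kid ⟨146,[12],[],[]⟩ e4_G32 [126,129,135,138,141] (by decide +kernel) e4_o46 e4_n45
theorem e4_n43  : Bd e4_T e4_G30 [129,135,138,141] :=
  r_apply lem_d [0,0,0,0] [(129,0x40000000000000000000000000000000000),(135,0x200000000000000000000000000000000000),(138,0x200000000000000000000000000000000),(141,0x8000000000000000000000000000000000)] (by decide +kernel) (allRef_split 1 e4_o43 (allRef_expand 0 (allRef_split 1 e4_o44 e4_o45)))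
theorem e4_n42  : Bd e4_T e4_G28 [126,129,135,138,141] :=
  r_ext 126 2 [129] [] [] [] [0] ⟨144,[],[],[]⟩ e4_G30 [129,135,138,141] ⟨145,[],[],[]⟩ e4_G31 [126,129,135,138,141] (by decide +kernel) e4_o42 e4_n43 e4_n44
theorem e4_n41  : Bd e4_T e4_G27 [126,129,132,135,138,141] :=
  r_ext 132 2 [126] [] [] [] [0] ⟨144,[],[],[]⟩ e4_G28 [126,129,135,138,141] ⟨144,[],[],[]⟩ e4_G29 [126,129,132,135,138,141] (by decide +kernel) e4_o41 e4_n42 e4_n61
theorem e4_n40  : Bd e4_T e4_G26 [120,121,122,123,124,125] :=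
  r_block [12,16,16,33,6,8] [6,9,1,18,40,16] [6,9,1,18,40,16] ⟨126,[],[0,0,0,0,0,0,0,0,0,0,0,0,0,0,0,0,0,0,0,0,0,0,0,0,180],[2]⟩ e4_G27 [126,129,132,135,138,141] (by decide +kernel) e4_o40 e4_n41
theorem e4_n39  : Bd e4_T e4_G25 [117,118,119,111,113,92] :=
  r_twin 0 [6,9,1,18,40,16] ⟨120,[],[],[]⟩ e4_G26 [120,121,122,123,124,125] (by decide +kernel) e4_o39 e4_n40
theorem e4_n38  : Bd e4_T e4_G25 [116] :=
  r_apply lem_D2 [0] [] (by decide +kernel) e4_o38
theorem e4_n37  : Bd e4_T e4_G25 [116,117,118,119,111,113,92] :=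
  r_split [116] [117,118,119,111,113,92] (by decide +kernel) e4_o37 e4_n38 e4_n39
theorem e4_n36  : Bd e4_T e4_G23 [116,117,118,119,111,114,113,92,77] :=
  r_kill [114,77] ⟨120,[],[],[]⟩ e4_G25 [116,117,118,119,111,113,92] (by decide +kernel) e4_o36 e4_n37
theorem e4_n35  : Bd e4_T e4_G24 [117,119] :=
  r_apply lem_d [0,0] [] (by decide +kernel) e4_o35
theorem e4_n34  : Bd e4_T e4_G24 [116,111,114,113,92,77] :=
  r_apply lem_d [0,0,0,0,0,0] [(116,0x20000000000000000000),(111,0x100000000000000000000000),(113,0x20000000000000000000),(92,0x8000000000000000000000000000),(77,0x120000000000000000000000000000)] (by decide +kernel) (allRef_split 1 e4_o29 (allRef_expand 0 (allRef_split 3 (allRef_split 1 e4_o30 e4_o31) (allRef_split 1 e4_o32 (allRef_split 1 e4_o33 e4_o34)))))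
theorem e4_n33  : Bd e4_T e4_G24 [116,117,119,111,114,113,92,77] :=
  r_split [116,111,114,113,92,77] [117,119] (by decide +kernel) e4_o28 e4_n34 e4_n35
theorem e4_n32  : Bd e4_T e4_G22 [116,117,118,119,111,114,113,92,77] :=
  r_kill [118] ⟨120,[],[],[]⟩ e4_G24 [116,117,119,111,114,113,92,77] (by decide +kernel) e4_o27 e4_n33
theorem e4_n31  : Bd e4_T e4_G21 [116,117,118,119,111,114,113,92,77] :=
  r_ex 118 0 ⟨120,[],[178],[]⟩ e4_G22 [116,117,118,119,111,114,113,92,77] ⟨120,[],[179],[]⟩ e4_G23 [116,117,118,119,111,114,113,92,77] (by decide +kernel) e4_n32 e4_n36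
theorem e4_n30  : Bd e4_T e4_G19 [116,117,118,119,111,114,113,115,92,77] :=
  r_kill [115] ⟨120,[],[],[]⟩ e4_G21 [116,117,118,119,111,114,113,92,77] (by decide +kernel) e4_o26 e4_n31
theorem e4_n29  : Bd e4_T e4_G18 [116,117,118,119,111,114,113,115,92,77] :=
  r_ex 115 0 ⟨120,[],[176],[]⟩ e4_G19 [116,117,118,119,111,114,113,115,92,77] ⟨120,[],[177],[]⟩ e4_G20 [116,117,118,119,111,114,113,115,92,77] (by decide +kernel) e4_n30 e4_n84
theorem e4_n28  : Bd e4_T e4_G18 [116,117,89,111,114,113,115,92,77] :=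
  r_act [10] [116,117,118,119,111,114,113,115,92,77] (by decide +kernel) e4_n29
theorem e4_n27  : Bd e4_T e4_G17 [116,117,89,111,114,113,115,92,77] :=
  r_def 89 0 [111] [] ⟨118,[11],[174,0,175],[]⟩ e4_G18 [116,117,89,111,114,113,115,92,77] (by decide +kernel) e4_n28
theorem e4_n26  : Bd e4_T e4_G17 [81,89,111,114,113,115,92,77] :=
  r_act [9] [116,117,89,111,114,113,115,92,77] (by decide +kernel) e4_n27
theorem e4_n25  : Bd e4_T e4_G16 [81,89,111,114,113,115,92,77] :=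
  r_def 81 0 [114] [111] ⟨116,[10],[171,172,173],[]⟩ e4_G17 [81,89,111,114,113,115,92,77] (by decide +kernel) e4_n26
theorem e4_n24  : Bd e4_T e4_G16 [81,89,111,114,113,115,112,92,77,85,94] :=
  r_split [81,89,111,114,113,115,92,77] [112,85,94] (by decide +kernel) e4_o25 e4_n25 e4_n136
theorem e4_n23  : Bd e4_T e4_G15 [73,81,89,111,82,114,75,113,115,112,84,92,77,85,93,78,86,94] :=
  r_kill [73,82,75,84,93,78,86] ⟨116,[],[],[]⟩ e4_G16 [81,89,111,114,113,115,112,92,77,85,94] (by decide +kernel) e4_o24 e4_n24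
theorem e4_n22  : Bd e4_T e4_G7 [73,81,89,74,82,90,75,83,91,76,84,92,77,85,93,78,86,94] :=
  r_hit [74,76,83,90,91] e4_h22 ⟨111,[],[168,169,0,170],[]⟩ e4_G15 [73,81,89,111,82,114,75,113,115,112,84,92,77,85,93,78,86,94] (by decide +kernel) e4_o23 e4_n23
theorem e4_n21  : Bd e4_T e4_G6 [67,48,59,70] :=
  r_apply lem_d [0,0,0,0] [(67,0x800000000000000),(48,0x400000000000000000),(59,0x80000000000000000),(70,0x1000000000000)] (by decide +kernel) (allRef_split 1 e4_o19 (allRef_expand 0 (allRef_split 1 e4_o20 (allRef_split 1 e4_o21 e4_o22))))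
theorem e4_n20  : Bd e4_T e4_G6 [57,68,49,60] :=
  r_apply lem_d [0,0,0,0] [(57,0x2000000000000),(68,0x1000000000000000),(49,0x200000000000000),(60,0x100000000000000000)] (by decide +kernel) (allRef_split 1 e4_o15 (allRef_expand 0 (allRef_split 1 e4_o16 (allRef_split 1 e4_o17 e4_o18))))
theorem e4_n19  : Bd e4_T e4_G6 [57,68,49,60,67,48,59,70] :=
  r_split [57,68,49,60] [67,48,59,70] (by decide +kernel) e4_o14 e4_n20 e4_n21
theorem e4_n18  : Bd e4_T e4_G6 [47,58,69,50] :=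
  r_apply lem_d [0,0,0,0] [(47,0x200000000000000000),(58,0x4000000000000),(69,0x800000000000),(50,0x400000000000000)] (by decide +kernel) (allRef_split 1 e4_o11 (allRef_expand 0 (allRef_split 2 e4_o12 e4_o13)))
theorem e4_n17  : Bd e4_T e4_G6 [47,57,67,48,58,68,49,59,69,50,60,70] :=
  r_split [47,58,69,50] [57,68,49,60,67,48,59,70] (by decide +kernel) (allRef_split 13 e4_o9 e4_o10) e4_n18 e4_n19
theorem e4_n16  : Bd e4_T e4_G14 [18,26,34,19,27,35,20,28,36,21,29,37,96,30,97,99,100,101,102,103,104,105,106,107,108,109,110,25,33,41] :=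
  r_sepend [18,26,34,19,27,35,20,28,36,21,29,37,96,30,97,99,101,103,105,107,109] [100,102,104,106,108,110,25,33,41] (by decide +kernel) (allRef_split 153 e4_o7 e4_o8)
theorem e4_n15  : Bd e4_T e4_G14 [18,26,34,19,27,35,20,28,36,21,29,37,96,30,97,99,100,101,102,103,104,24,32,40,25,33,41] :=
  r_act [6,7,8] [18,26,34,19,27,35,20,28,36,21,29,37,96,30,97,99,100,101,102,103,104,105,106,107,108,109,110,25,33,41] (by decide +kernel) e4_n16
theorem e4_n14  : Bd e4_T e4_G13 [18,26,34,19,27,35,20,28,36,21,29,37,96,30,97,99,100,101,102,103,104,24,32,40,25,33,41] :=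
  r_def 40 0 [101] [] ⟨109,[9],[166,0,167],[]⟩ e4_G14 [18,26,34,19,27,35,20,28,36,21,29,37,96,30,97,99,100,101,102,103,104,24,32,40,25,33,41] (by decide +kernel) e4_n15
theorem e4_n13  : Bd e4_T e4_G12 [18,26,34,19,27,35,20,28,36,21,29,37,96,30,97,99,100,101,102,103,104,24,32,40,25,33,41] :=
  r_def 32 0 [99] [] ⟨107,[8],[164,0,165],[]⟩ e4_G13 [18,26,34,19,27,35,20,28,36,21,29,37,96,30,97,99,100,101,102,103,104,24,32,40,25,33,41] (by decide +kernel) e4_n14
theorem e4_n12  : Bd e4_T e4_G11 [18,26,34,19,27,35,20,28,36,21,29,37,96,30,97,99,100,101,102,103,104,24,32,40,25,33,41] :=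
  r_def 24 0 [103] [] ⟨105,[7],[162,0,163],[]⟩ e4_G12 [18,26,34,19,27,35,20,28,36,21,29,37,96,30,97,99,100,101,102,103,104,24,32,40,25,33,41] (by decide +kernel) e4_n13
theorem e4_n11  : Bd e4_T e4_G11 [18,26,34,19,27,35,20,28,36,21,29,37,96,30,97,23,31,98,24,32,40,25,33,41] :=
  r_act [3,4,5] [18,26,34,19,27,35,20,28,36,21,29,37,96,30,97,99,100,101,102,103,104,24,32,40,25,33,41] (by decide +kernel) e4_n12
theorem e4_n10  : Bd e4_T e4_G10 [18,26,34,19,27,35,20,28,36,21,29,37,96,30,97,23,31,98,24,32,40,25,33,41] :=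
  r_def 98 0 [30] [] ⟨103,[6],[160,0,161],[]⟩ e4_G11 [18,26,34,19,27,35,20,28,36,21,29,37,96,30,97,23,31,98,24,32,40,25,33,41] (by decide +kernel) e4_n11
theorem e4_n9  : Bd e4_T e4_G9 [18,26,34,19,27,35,20,28,36,21,29,37,96,30,97,23,31,98,24,32,40,25,33,41] :=
  r_def 31 0 [96] [] ⟨101,[5],[158,0,159],[]⟩ e4_G10 [18,26,34,19,27,35,20,28,36,21,29,37,96,30,97,23,31,98,24,32,40,25,33,41] (by decide +kernel) e4_n10
theorem e4_n8  : Bd e4_T e4_G8 [18,26,34,19,27,35,20,28,36,21,29,37,96,30,97,23,31,98,24,32,40,25,33,41] :=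
  r_def 23 0 [97] [] ⟨99,[4],[156,0,157],[]⟩ e4_G9 [18,26,34,19,27,35,20,28,36,21,29,37,96,30,97,23,31,98,24,32,40,25,33,41] (by decide +kernel) e4_n9
theorem e4_n7  : Bd e4_T e4_G5 [18,26,34,19,27,35,20,28,36,21,29,37,22,30,38,23,31,39,24,32,40,25,33,41] :=
  r_hit [22,38,39] e4_h7 ⟨96,[],[0,155],[]⟩ e4_G8 [18,26,34,19,27,35,20,28,36,21,29,37,96,30,97,23,31,98,24,32,40,25,33,41] (by decide +kernel) e4_o6 e4_n8
theorem e4_n6  : Bd e4_T e4_G4 [17,10,13] :=
  r_window false 4 2 0 0 0 [0] [0,1,2] [6,5,3] ⟨18,[],[13,14,15,16,17,18,19,20,21,22,23,24,25,26,27,28,29,30,31,32,33,34,35,36,37,38,39,40,41,42,43,44,45,46,47,48,49,50,51,52,53,0,54,55,56,57,58,0,59,60,61,62,63],[]⟩ e4_G5 [18,26,34,19,27,35,20,28,36,21,29,37,22,30,38,23,31,39,24,32,40,25,33,41] ⟨42,[],[0,0,64,65,66,67,68,69,70,71,72,73,74,75,0,0,0,0,76,0,77,78,79,80,81,82,83,84,85,86,0,0,0,0,87,88,89,90,91,92,93,94,95,96,97,98,0,0,99,100,101,102,103,104,105,0,106,107,108,109,110,111,112,0,113,114,115,116,117,118,119],[]⟩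 e4_G6 [47,57,67,48,58,68,49,59,69,50,60,70] ⟨72,[0,2,3],[0,0,0,0,120,121,122,123,124,125,0,0,0,0,126,127,128,129,130,131,132,0,0,0,0,0,133,134,135,136,137,138,139,140,0,0,141,142,143,144,145,0,146,147,148,149,150,0,151,152,153,154],[]⟩ e4_G7 [73,81,89,74,82,90,75,83,91,76,84,92,77,85,93,78,86,94] (by decide +kernel) e4_o5 e4_n7 e4_n17 e4_n22
theorem e4_n5  : Bd e4_T e4_G4 [7,10,13] :=
  r_act [0] [17,10,13] (by decide +kernel) e4_n6
theorem e4_n4  : Bd e4_T e4_G3 [7,10,13] :=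
  r_psplit 7 [0] PT.kid ⟨17,[1],[],[]⟩ e4_G4 [7,10,13] (by decide +kernel) e4_o4 e4_n5
theorem e4_n3  : Bd e4_T e4_G2 [10,13] :=
  r_apply lem_d [0,0] [] (by decide +kernel) e4_o3
theorem e4_n2  : Bd e4_T e4_G1 [7,10,13] :=
  r_ext 7 2 [13] [] [10] [] [] ⟨16,[],[],[]⟩ e4_G2 [10,13] ⟨16,[],[10,11,0,12],[]⟩ e4_G3 [7,10,13] (by decide +kernel) e4_o2 e4_n3 e4_n4
theorem e4_n1  : Bd e4_T e4_G0 [4,5,6] :=
  r_block [2,4,1] [6,5,3] [6,5,3] ⟨7,[],[],[1]⟩ e4_G1 [7,10,13] (by decide +kernel) e4_o1 e4_n2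
theorem e4_n0  : Bd e4_T (pureCtx 3 9) (pureAct 3) :=
  show Bd _ _ [1,2,3] from r_twin 0 [6,5,3] ⟨4,[],[],[]⟩ e4_G0 [4,5,6] (by decide +kernel) e4_o0 e4_n1
theorem lem_e4  : Lem e4_T 3 9 := ⟨by decide +kernel, e4_n0⟩

end Pool.Agent.Lib.MP_849b2e_co
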