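import Pool.Agent.Lib.MP_849b2e_co.Rules

set_option maxRecDepth 100000
set_option linter.all false
namespace Pool.Agent.Lib.MP_849b2e_co

noncomputable def e3_ty : Tr Ty := (Tr.br (Tr.br (Tr.br (Tr.br (Tr.br (Tr.br (Tr.br (Tr.leaf ⟨1,0,0,0,0⟩) (Tr.leaf ⟨0x10080002010000011,0x10000000000000e,0,0,0⟩)) (Tr.br (Tr.leaf ⟨0x100404123,8412,0,0,0⟩) (Tr.leaf ⟨0x1000000000000000010000011,0x80000000000000000000000e,0,0,0⟩))) (Tr.br (Tr.br (Tr.leaf ⟨66115,33852,0,0,0⟩) (Tr.leaf ⟨0x100000000000008000009,0x80000000000000000016,0,0,0⟩)) (Tr.br (Tr.leaf ⟨0x1001004000005,0x200000000001a,0,0,0⟩) (Tr.leaf ⟨0x10000000000000000000010000011,0x2000000000000000000000000000e,0,0,0⟩)))) (Tr.br (Tr.br (Tr.br (Tr.leaf ⟨291,220,0,0,0⟩) (Tr.leaf ⟨0x1000000000010000011,0x200000000000000000e,0,0,0⟩))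 (Tr.br (Tr.leaf ⟨0x12010000011,0x2000000000e,0,0,0⟩) (Tr.leaf ⟨0x100200000000000000008000009,0x400000000000000000000016,0,0,0⟩))) (Tr.br (Tr.br (Tr.leaf ⟨0x1010243,33852,0,0,0⟩) (Tr.leaf ⟨0x10480000000000008000009,0x300000000000000000016,0,0,0⟩)) (Tr.br (Tr.leaf ⟨0x100002010000011,0x8000000000000e,0,0,0⟩) (Tr.leaf ⟨0x1110000000000000000000010000011,0x2000000000000000000000000000e,0,0,0⟩)))))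
 (Tr.br (Tr.br (Tr.br (Tr.br (Tr.leaf ⟨17,14,0,0,0⟩) (Tr.leaf ⟨0x100000000004000005,0x20000000000000001a,0,0,0⟩)) (Tr.br (Tr.leaf ⟨0x1004000005,26,0,0,0⟩) (Tr.leaf ⟨0x12800000000000000010000011,0xd00000000000000000000000e,0,0,0⟩))) (Tr.br (Tr.br (Tr.leaf ⟨0x1010a3,2396,0,0,0⟩) (Tr.leaf ⟨0x1100000000000008000009,0x880000000000000000016,0,0,0⟩)) (Tr.br (Tr.leaf ⟨0x10008401010243,33852,0,0,0⟩) (Tr.leaf ⟨0x110000000000000000000010000011,0x2000000000000000000000000000e,0,0,0⟩)))) (Tr.br (Tr.br (Tr.br (Tr.leaf ⟨4259,2396,0,0,0⟩) (Tr.leaf ⟨0x10000000000004000005,0x800000000000000001a,0,0,0⟩)) (Tr.br (Tr.leaf ⟨0x100008000009,0x200000000016,0,0,0⟩) (Tr.leaf ⟨0x1000000000000000000004000005,0x200000000000000000000000001a,0,0,0⟩))) (Tr.br (Tr.br (Tr.leaf ⟨0x10000011,14,0,0,0⟩)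 (Tr.leaf ⟨0x100000000000000004000005,0x8000000000000000000001a,0,0,0⟩)) (Tr.br (Tr.leaf ⟨0x1200001004000005,0xc0000000000001a,0,0,0⟩) (Tr.leaf ⟨0x10884000000000000000000008000009,0x68008000000000000000000000000016,5,2,0⟩)))))
)
 (Tr.br (Tr.br (Tr.br (Tr.br (Tr.br (Tr.leaf ⟨5,26,0,0,0⟩) (Tr.leaf ⟨0x41200001004000005,0xc0000000000001a,0,0,0⟩)) (Tr.br (Tr.leaf ⟨0x401010243,33852,0,0,0⟩) (Tr.leaf ⟨0x4800000000000000010000011,0x300000000000000000000000e,0,0,0⟩))) (Tr.br (Tr.br (Tr.leaf ⟨0x40443,0x2023c,0,0,0⟩) (Tr.leaf ⟨0x480000000000008000009,0x300000000000000000016,0,0,0⟩)) (Tr.br (Tr.leaf ⟨0x4002010000011,0x800000000000e,0,0,0⟩) (Tr.leaf ⟨0x41000000000000000000004000005,0x200000000000000000000000001a,0,0,0⟩)))) (Tr.br (Tr.br (Tr.br (Tr.leaf ⟨1091,572,0,0,0⟩) (Tr.leaf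 ⟨0x4000000000100404123,8412,0,0,0⟩)) (Tr.br (Tr.leaf ⟨0x41004000005,0x8000000001a,0,0,0⟩) (Tr.leaf ⟨0x412800000000000000010000011,0xd00000000000000000000000e,0,0,0⟩))) (Tr.br (Tr.br (Tr.leaf ⟨0x4000005,26,0,0,0⟩) (Tr.leaf ⟨0x40000000000000100404123,8412,0,0,0⟩)) (Tr.br (Tr.leaf ⟨0x400001004000005,0x20000000000001a,0,0,0⟩) (Tr.leaf ⟨0x4441000000000000000000004000005,0x200000000000000000000000001a,0,0,7⟩)))))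
 (Tr.br (Tr.br (Tr.br (Tr.br (Tr.leaf ⟨67,60,0,0,0⟩) (Tr.leaf ⟨0x400000000008000009,0x800000000000000016,0,0,0⟩)) (Tr.br (Tr.leaf ⟨0x4200808243,66620,0,0,0⟩) (Tr.leaf ⟨0x44800000000000000010000011,0x2300000000000000000000000e,0,0,0⟩))) (Tr.br (Tr.br (Tr.leaf ⟨0x404123,8412,0,0,0⟩) (Tr.leaf ⟨0x4020000000000010000011,0x4000000000000000000e,0,0,0⟩)) (Tr.br (Tr.leaf ⟨0x40000008000009,0x20000000000016,0,0,0⟩) (Tr.leaf ⟨0x441000000000000000000004000005,0x200000000000000000000000001a,0,0,0⟩)))) (Tr.br (Tr.br (Tr.br (Tr.leaf ⟨16675,8412,0,0,0⟩) (Tr.leaf ⟨0x40000000000010000011,0x2000000000000000000e,0,0,0⟩)) (Tr.br (Tr.leaf ⟨0x400008000009,0x800000000016,0,0,0⟩) (Tr.leaf ⟨0x4000000000000000000008000009,0x8000000000000000000000000016,0,0,0⟩))) (Tr.br (Tr.br (Tr.leaf ⟨0x401010a3,2396,0,0,0⟩)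 (Tr.leaf ⟨0x400000000000000008000009,0x200000000000000000000016,0,0,0⟩)) (Tr.br (Tr.leaf ⟨0x4400001004000005,0x220000000000001a,0,0,0⟩) (Tr.leaf ⟨0x40884000000000000000000008000009,0x38008000000000000000000000000016,7,0,0⟩)))))
)
)
 (Tr.br (Tr.br (Tr.br (Tr.br (Tr.br (Tr.br (Tr.leaf ⟨3,28,0,0,0⟩) (Tr.leaf ⟨0x20a00001004000005,0x140000000000001a,0,0,0⟩)) (Tr.br (Tr.leaf ⟨0x200808243,66620,0,0,0⟩) (Tr.leaf ⟨0x2800000000000000010000011,0x500000000000000000000000e,0,0,0⟩))) (Tr.br (Tr.br (Tr.leaf ⟨0x20443,0x4023c,0,0,0⟩) (Tr.leaf ⟨0x280000000000008000009,0x500000000000000000016,0,0,0⟩)) (Tr.br (Tr.leaf ⟨0x2001004000005,0x100000000001a,0,0,0⟩) (Tr.leaf ⟨0x20000000000000000000010000011,0x1000000000000000000000000000e,0,0,0⟩)))) (Tr.br (Tr.br (Tr.br (Tr.leaf ⟨579,1084,0,0,0⟩)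 (Tr.leaf ⟨0x2000000000010000011,0x100000000000000000e,0,0,0⟩)) (Tr.br (Tr.leaf ⟨0x22010000011,0x1000000000e,0,0,0⟩) (Tr.leaf ⟨0x20a800000000000000010000011,0x1500000000000000000000000e,0,0,0⟩))) (Tr.br (Tr.br (Tr.leaf ⟨0x2020443,0x4023c,0,0,0⟩) (Tr.leaf ⟨0x20900000000000008000009,0x1080000000000000000016,0,0,0⟩)) (Tr.br (Tr.leaf ⟨0x200001004000005,0x40000000000001a,0,0,0⟩) (Tr.leaf ⟨0x2441000000000000000000004000005,0x200000000000000000000000001a,0,0,0⟩)))))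
 (Tr.br (Tr.br (Tr.br (Tr.br (Tr.leaf ⟨35,92,0,0,0⟩) (Tr.leaf ⟨0x200000000004000005,0x10000000000000001a,0,0,0⟩)) (Tr.br (Tr.leaf ⟨0x2010000011,14,0,0,0⟩) (Tr.leaf ⟨0x24800000000000000010000011,0x4300000000000000000000000e,0,0,0⟩))) (Tr.br (Tr.br (Tr.leaf ⟨0x202123,16604,0,0,0⟩) (Tr.leaf ⟨0x2008000000000004000005,0x1000000000000000001a,0,0,0⟩)) (Tr.br (Tr.leaf ⟨0x20000008000009,0x40000000000016,0,0,0⟩) (Tr.leaf ⟨0x2000000000000000000000200808a3,4444,0,0,0⟩)))) (Tr.br (Tr.br (Tr.br (Tr.leaf ⟨8483,16604,0,0,0⟩) (Tr.leaf ⟨0x20000000000010000011,0x4000000000000000000e,0,0,0⟩)) (Tr.br (Tr.leaf ⟨0x200008000009,0x100000000016,0,0,0⟩) (Tr.leaf ⟨0x2000000000000000000004000005,0x100000000000000000000000001a,0,0,0⟩))) (Tr.br (Tr.br (Tr.leaf ⟨0x200808a3,4444,0,0,0⟩) (Tr.leaf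 ⟨0x200000000000000008000009,0x400000000000000000000016,0,0,0⟩)) (Tr.br (Tr.leaf ⟨0x2400001004000005,0x420000000000001a,0,0,0⟩) (Tr.leaf ⟨0x20884000000000000000000008000009,0x58008000000000000000000000000016,3,4,0⟩)))))
)
 (Tr.br (Tr.br (Tr.br (Tr.br (Tr.br (Tr.leaf ⟨9,22,0,0,0⟩) (Tr.leaf ⟨0x82400001004000005,0x420000000000001a,0,0,0⟩)) (Tr.br (Tr.leaf ⟨0x802020443,0x4023c,0,0,0⟩) (Tr.leaf ⟨0xa800000000000000010000011,0x1500000000000000000000000e,0,0,0⟩))) (Tr.br (Tr.br (Tr.leaf ⟨0x808a3,4444,0,0,0⟩) (Tr.leaf ⟨0x900000000000008000009,0x1080000000000000000016,0,0,0⟩)) (Tr.br (Tr.leaf ⟨0x8002010000011,0x400000000000e,0,0,0⟩) (Tr.leaf ⟨0x84000000000000000000008000009,0x8000000000000000000000000016,0,0,0⟩)))) (Tr.br (Tr.br (Tr.br (Tr.leaf ⟨2211,4444,0,0,0⟩) (Tr.leaf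 ⟨0x8000000000004000005,0x1000000000000000001a,0,0,0⟩)) (Tr.br (Tr.leaf ⟨0x81004000005,0x4000000001a,0,0,0⟩) (Tr.leaf ⟨0x824800000000000000010000011,0x4300000000000000000000000e,0,0,0⟩))) (Tr.br (Tr.br (Tr.leaf ⟨0x8000009,22,0,0,0⟩) (Tr.leaf ⟨0x80000000000000004000005,0x10000000000000000000001a,0,0,0⟩)) (Tr.br (Tr.leaf ⟨0xa00001004000005,0x140000000000001a,0,0,0⟩) (Tr.leaf ⟨0x8884000000000000000000008000009,0x70008000000000000000000000000016,6,1,0⟩)))))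
 (Tr.br (Tr.br (Tr.br (Tr.br (Tr.leaf ⟨163,348,0,0,0⟩) (Tr.leaf ⟨0x800000000008000009,0x400000000000000016,0,0,0⟩)) (Tr.br (Tr.leaf ⟨0x8401010243,33852,0,0,0⟩) (Tr.leaf ⟨0x80080000000000000004000005,0x10000000000000000000001a,0,0,0⟩))) (Tr.br (Tr.br (Tr.leaf ⟨0x808243,66620,0,0,0⟩) (Tr.leaf ⟨0x8280000000000008000009,0x500000000000000000016,0,0,0⟩)) (Tr.br (Tr.leaf ⟨0x80002010000011,0x10000000000000e,0,0,0⟩) (Tr.leaf ⟨0x884000000000000000000008000009,0x8000000000000000000000000016,0,0,0⟩)))) (Tr.br (Tr.br (Tr.br (Tr.leaf ⟨33347,66620,0,0,0⟩) (Tr.leaf ⟨0x80000000000008000009,0x100000000000000000016,0,0,0⟩)) (Tr.br (Tr.leaf ⟨0x800008000009,0x400000000016,0,0,0⟩) (Tr.leaf ⟨0x8000000000000000000008000009,0x4000000000000000000000000016,0,0,0⟩))) (Tr.br (Tr.br (Tr.leaf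 ⟨0x80202123,16604,0,0,0⟩) (Tr.leaf ⟨0x800000000000000010000011,0x100000000000000000000000e,0,0,0⟩)) (Tr.leaf ⟨0x8020000008000009,0x40000000000016,0,0,0⟩))))
)
)
)

noncomputable def e3_ev : Tr Ev := (Tr.br (Tr.br (Tr.br (Tr.br (Tr.br (Tr.br (Tr.leaf ⟨1,[5,6],0⟩) (Tr.leaf ⟨26,[108,109],0⟩)) (Tr.leaf ⟨57,[59,60],0⟩)) (Tr.br (Tr.leaf ⟨36,[42,43],0⟩) (Tr.leaf ⟨79,[81,82],0⟩)))
 (Tr.br (Tr.br (Tr.br (Tr.leaf ⟨8,[13,14],0⟩) (Tr.leaf ⟨119,[123,124,125,126],0⟩)) (Tr.leaf ⟨28,[72,73],0⟩)) (Tr.br (Tr.leaf ⟨37,[50,51],0⟩) (Tr.leaf ⟨28,[95,96],0⟩)))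
)
 (Tr.br (Tr.br (Tr.br (Tr.br (Tr.leaf ⟨6,[9,10],0⟩) (Tr.leaf ⟨28,[112,113],0⟩)) (Tr.leaf ⟨26,[68,69],0⟩)) (Tr.br (Tr.leaf ⟨27,[46,47],0⟩) (Tr.leaf ⟨26,[91,92],0⟩)))
 (Tr.br (Tr.br (Tr.leaf ⟨10,[17,18],0⟩) (Tr.leaf ⟨28,[77,78],0⟩)) (Tr.br (Tr.leaf ⟨37,[55,56],0⟩) (Tr.leaf ⟨97,[99,100],0⟩)))
)
)
 (Tr.br (Tr.br (Tr.br (Tr.br (Tr.br (Tr.leaf ⟨5,[7,8],0⟩) (Tr.leaf ⟨27,[110,111],0⟩)) (Tr.leaf ⟨58,[61,62],0⟩)) (Tr.br (Tr.leaf ⟨27,[44,45],0⟩) (Tr.leaf ⟨80,[83,84],0⟩)))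
 (Tr.br (Tr.br (Tr.leaf ⟨9,[15,16],0⟩) (Tr.leaf ⟨26,[75,76],0⟩)) (Tr.br (Tr.leaf ⟨27,[53,54],0⟩) (Tr.leaf ⟨95,[97,98],0⟩)))
)
 (Tr.br (Tr.br (Tr.br (Tr.br (Tr.leaf ⟨7,[11,12],0⟩) (Tr.leaf ⟨118,[122],7⟩)) (Tr.leaf ⟨27,[70,71],0⟩)) (Tr.br (Tr.leaf ⟨36,[48,49],0⟩) (Tr.leaf ⟨27,[93,94],0⟩)))
 (Tr.br (Tr.br (Tr.leaf ⟨37,[40,41],0⟩) (Tr.leaf ⟨27,[79,80],0⟩)) (Tr.br (Tr.leaf ⟨36,[57,58],0⟩) (Tr.leaf ⟨98,[101,102],0⟩)))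
)
)
)

noncomputable def e3_ax : Tr Ax := (Tr.br (Tr.br (Tr.br (Tr.br (Tr.br (Tr.br (Tr.br (Tr.br (Tr.leaf ⟨[1,1,1,1],[⟨0,1,true⟩,⟨0,2,true⟩,⟨0,3,false⟩,⟨1,2,true⟩,⟨1,3,true⟩,⟨2,3,true⟩],[],0⟩) (Tr.leaf ⟨[0x20000000000000000000],[],[⟨31,[(0,true)]⟩],0⟩)) (Tr.leaf ⟨[0x100000000,0x8000000,0x10000000],[⟨0,1,true⟩,⟨0,2,true⟩,⟨1,2,true⟩],[],0⟩)) (Tr.br (Tr.br (Tr.leaf ⟨[65536,16],[⟨0,1,false⟩],[],0⟩) (Tr.leaf ⟨[0x80000000000000000000000000,0x80000000000000000000000000,0x100000000000000000000000000],[⟨0,1,false⟩,⟨0,2,false⟩,⟨1,2,false⟩],[],0⟩)) (Tr.leaf ⟨[0x20000000000000],[],[⟨38,[(0,true)]⟩],0⟩))) (Tr.br (Tr.br (Tr.br (Tr.leaf ⟨[14,14,14,14,14],[⟨0,1,true⟩,⟨0,2,false⟩,⟨0,3,false⟩,⟨0,4,false⟩,⟨1,2,false⟩,⟨1,3,false⟩,⟨1,4,false⟩,⟨2,3,true⟩,⟨2,4,false⟩,⟨3,4,true⟩],[],0⟩)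 (Tr.leaf ⟨[0x2000000000000000000000,0x4000000000000000000000,0x4000000000000000000000],[⟨0,1,false⟩,⟨0,2,false⟩,⟨1,2,false⟩],[],0⟩)) (Tr.leaf ⟨[],[],[⟨38,[]⟩],0⟩)) (Tr.br (Tr.br (Tr.leaf ⟨[0x400000,0x800000],[],[],0⟩) (Tr.leaf ⟨[0x40000000000000000000000000000,0x40000000000000000000000000000,0x80000000000000000000000000000],[⟨0,1,false⟩,⟨0,2,false⟩,⟨1,2,false⟩],[],0⟩)) (Tr.leaf ⟨[0x40000000000000000,0x8000000000000000,0x8000000000000000],[⟨0,1,true⟩,⟨0,2,true⟩,⟨1,2,false⟩],[],0⟩)))) (Tr.br (Tr.br (Tr.br (Tr.br (Tr.leaf ⟨[10,10,10,10],[⟨0,1,false⟩,⟨0,2,false⟩,⟨0,3,false⟩,⟨1,2,true⟩,⟨1,3,false⟩,⟨2,3,true⟩],[],0⟩) (Tr.leaf ⟨[0x2000000000000000000000,0x2000000000000000000000,0x10000000000000000000000],[⟨0,1,false⟩,⟨0,2,true⟩,⟨1,2,true⟩],[],0⟩)) (Tr.leaf ⟨[],[],[⟨29,[]⟩],0⟩))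 (Tr.br (Tr.br (Tr.leaf ⟨[0x80000,0x2000000],[],[],0⟩) (Tr.leaf ⟨[0x100000000000000000000000000,0x100000000000000000000000000,0x200000000000000000000000000],[⟨0,1,false⟩,⟨0,2,true⟩,⟨1,2,true⟩],[],0⟩)) (Tr.leaf ⟨[0x4000000000000000,0x80000000000000],[⟨0,1,true⟩],[],0⟩))) (Tr.br (Tr.br (Tr.br (Tr.leaf ⟨[256,8],[⟨0,1,false⟩],[],0⟩) (Tr.leaf ⟨[0x200000000000000000000000],[],[⟨30,[(0,true)]⟩],0⟩)) (Tr.leaf ⟨[0x200000000000,0x10000000000],[⟨0,1,true⟩],[],0⟩)) (Tr.br (Tr.leaf ⟨[0x20000000,0x4000000,0x10000000],[⟨0,1,true⟩,⟨0,2,false⟩,⟨1,2,false⟩],[],0⟩) (Tr.leaf ⟨[0x200000000000000000,0x100000000],[⟨0,1,true⟩],[],0⟩)))))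
 (Tr.br (Tr.br (Tr.br (Tr.br (Tr.br (Tr.leaf ⟨[8,8],[⟨0,1,true⟩],[],0⟩) (Tr.leaf ⟨[0x400000000000000000000,0x20000000000000000000],[⟨0,1,true⟩],[],0⟩)) (Tr.leaf ⟨[0x200000000,0x10000000,0x10000000],[⟨0,1,true⟩,⟨0,2,true⟩,⟨1,2,false⟩],[],0⟩)) (Tr.br (Tr.br (Tr.leaf ⟨[0x80000,0x200000],[],[],0⟩) (Tr.leaf ⟨[0x80000000000000000000000000,0x100000000000000000000000000,0x200000000000000000000000000],[⟨0,1,false⟩,⟨0,2,true⟩,⟨1,2,false⟩],[],0⟩)) (Tr.leaf ⟨[0x200000000000000],[],[⟨53,[(0,true)]⟩],0⟩))) (Tr.br (Tr.br (Tr.br (Tr.leaf ⟨[2],[],[],0⟩) (Tr.leaf ⟨[0x20000000000000000000000,0x4000000000000000000000,0x4000000000000000000000],[⟨0,1,true⟩,⟨0,2,true⟩,⟨1,2,false⟩],[],0⟩)) (Tr.leaf ⟨[0x20000000000,0x800000000],[⟨0,1,true⟩],[],0⟩)) (Tr.br (Tr.br (Tr.leaf ⟨[0x1000000,0x2000000],[],[],0⟩)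 (Tr.leaf ⟨[0x400000000000000000000000000000,0x400000000000000000000000000000],[⟨0,1,false⟩],[⟨117,[(0,true),(1,false)]⟩,⟨117,[(0,false),(1,true)]⟩,⟨119,[(0,true),(1,false)]⟩,⟨119,[(0,false),(1,true)]⟩,⟨120,[(0,true),(1,false)]⟩,⟨120,[(0,false),(1,true)]⟩],0⟩)) (Tr.leaf ⟨[0x80000000000000000,0x10000000000000000,0x10000000000000000],[⟨0,1,true⟩,⟨0,2,true⟩,⟨1,2,false⟩],[],0⟩)))) (Tr.br (Tr.br (Tr.br (Tr.br (Tr.leaf ⟨[6,6,6,8],[⟨0,1,false⟩,⟨0,2,false⟩,⟨0,3,false⟩,⟨1,2,true⟩,⟨1,3,false⟩,⟨2,3,false⟩],[],0⟩) (Tr.leaf ⟨[0x2000000000000000000000,0x8000000000000000000000,0x4000000000000000000000],[⟨0,1,false⟩,⟨0,2,false⟩,⟨1,2,true⟩],[],0⟩)) (Tr.leaf ⟨[],[],[⟨31,[]⟩],0⟩)) (Tr.br (Tr.br (Tr.leaf ⟨[0x100000,0x2000000],[],[],0⟩) (Tr.leaf ⟨[0x4000000000000000000000000000],[],[⟨29,[(0,true)]⟩],0⟩))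 (Tr.leaf ⟨[0x20000000000000000,0x8000000000000000,0x10000000000000000],[⟨0,1,true⟩,⟨0,2,false⟩,⟨1,2,false⟩],[],0⟩))) (Tr.br (Tr.br (Tr.br (Tr.leaf ⟨[4096,16],[⟨0,1,false⟩],[],0⟩) (Tr.leaf ⟨[0x4000000000000000000000000,0x80000000000000000000000],[⟨0,1,true⟩],[],0⟩)) (Tr.leaf ⟨[0x2000000000000,0x400000000000],[⟨0,1,true⟩],[],0⟩)) (Tr.br (Tr.leaf ⟨[0x40000000,0x8000000,0x8000000],[⟨0,1,true⟩,⟨0,2,true⟩,⟨1,2,false⟩],[],0⟩) (Tr.leaf ⟨[0x2000000000000000000,0x100000000000000000],[⟨0,1,true⟩],[],0⟩)))))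
)
 (Tr.br (Tr.br (Tr.br (Tr.br (Tr.br (Tr.br (Tr.leaf ⟨[2,2],[⟨0,1,true⟩],[],0⟩) (Tr.leaf ⟨[0x80000000000000000000],[],[⟨75,[(0,true)]⟩],0⟩)) (Tr.leaf ⟨[0x200000000,0x8000000,0x10000000],[⟨0,1,true⟩,⟨0,2,false⟩,⟨1,2,false⟩],[],0⟩)) (Tr.br (Tr.br (Tr.leaf ⟨[0x40000,16],[⟨0,1,false⟩],[],0⟩) (Tr.leaf ⟨[0x80000000000000000000000000,0x80000000000000000000000000,0x400000000000000000000000000],[⟨0,1,false⟩,⟨0,2,true⟩,⟨1,2,true⟩],[],0⟩)) (Tr.leaf ⟨[0x80000000000000],[],[⟨38,[(0,true)]⟩],0⟩))) (Tr.br (Tr.br (Tr.br (Tr.leaf ⟨[26,26,26,26,26],[⟨0,1,true⟩,⟨0,2,false⟩,⟨0,3,false⟩,⟨0,4,false⟩,⟨1,2,false⟩,⟨1,3,false⟩,⟨1,4,false⟩,⟨2,3,true⟩,⟨2,4,false⟩,⟨3,4,true⟩],[],0⟩) (Tr.leaf ⟨[0x8000000000000000000000,0x4000000000000000000000,0x4000000000000000000000],[⟨0,1,true⟩,⟨0,2,true⟩,⟨1,2,false⟩],[],0⟩))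 (Tr.leaf ⟨[],[],[⟨39,[]⟩],0⟩)) (Tr.br (Tr.br (Tr.leaf ⟨[0x400000,0x2000000],[],[],0⟩) (Tr.leaf ⟨[0x40000000000000000000000000000,0x80000000000000000000000000000,0x100000000000000000000000000000],[⟨0,1,false⟩,⟨0,2,true⟩,⟨1,2,true⟩],[],0⟩)) (Tr.leaf ⟨[0x80000000000000000,0x80000000000000000,0x10000000000000000],[⟨0,1,false⟩,⟨0,2,true⟩,⟨1,2,true⟩],[],0⟩)))) (Tr.br (Tr.br (Tr.br (Tr.br (Tr.leaf ⟨[6,6,6,16],[⟨0,1,false⟩,⟨0,2,false⟩,⟨0,3,false⟩,⟨1,2,true⟩,⟨1,3,false⟩,⟨2,3,false⟩],[],0⟩) (Tr.leaf ⟨[0x2000000000000000000000,0x8000000000000000000000,0x8000000000000000000000],[⟨0,1,true⟩,⟨0,2,true⟩,⟨1,2,false⟩],[],0⟩)) (Tr.leaf ⟨[],[],[⟨30,[]⟩],0⟩)) (Tr.br (Tr.br (Tr.leaf ⟨[0x100000,0x800000],[],[],0⟩) (Tr.leaf ⟨[0x1000000000000000000000000000],[],[⟨29,[(0,true)]⟩],0⟩))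 (Tr.leaf ⟨[0x20000000000000000,0x20000000000000000,0x10000000000000000],[⟨0,1,false⟩,⟨0,2,true⟩,⟨1,2,true⟩],[],0⟩))) (Tr.br (Tr.br (Tr.br (Tr.leaf ⟨[1024,8],[⟨0,1,false⟩],[],0⟩) (Tr.leaf ⟨[0x1000000000000000000000000,0x40000000],[⟨0,1,true⟩],[],0⟩)) (Tr.leaf ⟨[0x800000000000,0x8000000000],[⟨0,1,true⟩],[],0⟩)) (Tr.br (Tr.leaf ⟨[0x40000000,0x4000000,0x8000000],[⟨0,1,true⟩,⟨0,2,false⟩,⟨1,2,false⟩],[],0⟩) (Tr.leaf ⟨[0x800000000000000000,0x100000000000000000],[⟨0,1,true⟩],[],0⟩)))))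
 (Tr.br (Tr.br (Tr.br (Tr.br (Tr.br (Tr.leaf ⟨[4,8,16],[⟨0,1,false⟩,⟨0,2,false⟩,⟨1,2,false⟩],[],0⟩) (Tr.leaf ⟨[0x1000000000000000000000,0x20000000000000000000],[⟨0,1,true⟩],[],0⟩)) (Tr.leaf ⟨[0x800000000,0x4000000,0x8000000],[⟨0,1,true⟩,⟨0,2,true⟩,⟨1,2,true⟩],[],0⟩)) (Tr.br (Tr.br (Tr.leaf ⟨[0x80000,0x800000],[],[],0⟩) (Tr.leaf ⟨[0x80000000000000000000000000,0x100000000000000000000000000,0x400000000000000000000000000],[⟨0,1,false⟩,⟨0,2,true⟩,⟨1,2,false⟩],[],0⟩)) (Tr.leaf ⟨[0x1000000000000000,0x80000000000000],[⟨0,1,true⟩],[],0⟩))) (Tr.br (Tr.br (Tr.br (Tr.leaf ⟨[64,4],[⟨0,1,false⟩],[],0⟩) (Tr.leaf ⟨[0x80000000000000000000000],[],[⟨30,[(0,true)]⟩],0⟩)) (Tr.leaf ⟨[0x80000000000,0x10000000000],[⟨0,1,true⟩],[],0⟩)) (Tr.br (Tr.br (Tr.leaf ⟨[0x20000000,0x4000000,0x8000000],[⟨0,1,true⟩,⟨0,2,false⟩,⟨1,2,false⟩],[],0⟩)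 (Tr.leaf ⟨[0x2000000000000000000000000000000],[],[],0⟩)) (Tr.leaf ⟨[0x8000000000000000,0x10000000000000000,0x10000000000000000],[⟨0,1,false⟩,⟨0,2,false⟩,⟨1,2,false⟩],[],0⟩)))) (Tr.br (Tr.br (Tr.br (Tr.br (Tr.leaf ⟨[10,10,10,4],[⟨0,1,false⟩,⟨0,2,false⟩,⟨0,3,false⟩,⟨1,2,true⟩,⟨1,3,false⟩,⟨2,3,false⟩],[],0⟩) (Tr.leaf ⟨[0x2000000000000000000000,0x10000000000000000000000,0x4000000000000000000000],[⟨0,1,true⟩,⟨0,2,false⟩,⟨1,2,false⟩],[],0⟩)) (Tr.leaf ⟨[],[],[⟨32,[]⟩],0⟩)) (Tr.br (Tr.br (Tr.leaf ⟨[0x200000,0x1000000],[],[],0⟩) (Tr.leaf ⟨[0x10000000000000000000000000000],[],[⟨29,[(0,true)]⟩],0⟩)) (Tr.leaf ⟨[0x20000000000000000,0x10000000000000000,0x10000000000000000],[⟨0,1,true⟩,⟨0,2,true⟩,⟨1,2,false⟩],[],0⟩))) (Tr.br (Tr.br (Tr.br (Tr.leaf ⟨[16384,16],[⟨0,1,false⟩],[],0⟩)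 (Tr.leaf ⟨[0x20000000000000000000000000],[],[⟨93,[(0,true)]⟩],0⟩)) (Tr.leaf ⟨[0x8000000000000,0x400000000000],[⟨0,1,true⟩],[],0⟩)) (Tr.br (Tr.leaf ⟨[0x80000000,0x4000000,0x10000000],[⟨0,1,false⟩,⟨0,2,true⟩,⟨1,2,false⟩],[],0⟩) (Tr.leaf ⟨[0x8000000000000000000],[],[⟨31,[(0,true)]⟩],0⟩)))))
)
)
 (Tr.br (Tr.br (Tr.br (Tr.br (Tr.br (Tr.br (Tr.br (Tr.leaf ⟨[1,1,1,1,1,1],[⟨0,1,false⟩,⟨0,2,false⟩,⟨0,3,false⟩,⟨0,4,false⟩,⟨0,5,false⟩,⟨1,2,true⟩,⟨1,3,false⟩,⟨1,4,false⟩,⟨1,5,false⟩,⟨2,3,false⟩,⟨2,4,false⟩,⟨2,5,false⟩,⟨3,4,true⟩,⟨3,5,false⟩,⟨4,5,true⟩],[],0⟩) (Tr.leaf ⟨[0x40000000000000000000,0x80000000],[⟨0,1,true⟩],[],0⟩)) (Tr.leaf ⟨[0x200000000,0x200000000,0x400000000],[],[],0⟩)) (Tr.br (Tr.br (Tr.leaf ⟨[0x20000],[],[⟨4,[(0,false)]⟩],0⟩) (Tr.leaf ⟨[0x80000000000000000000000000,0x80000000000000000000000000,0x200000000000000000000000000],[⟨0,1,false⟩,⟨0,2,true⟩,⟨1,2,true⟩],[],0⟩))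 (Tr.leaf ⟨[0x40000000000000,0x4000000000],[⟨0,1,true⟩],[],0⟩))) (Tr.br (Tr.br (Tr.br (Tr.leaf ⟨[22,22,22,22,22],[⟨0,1,true⟩,⟨0,2,false⟩,⟨0,3,false⟩,⟨0,4,false⟩,⟨1,2,false⟩,⟨1,3,false⟩,⟨1,4,false⟩,⟨2,3,true⟩,⟨2,4,false⟩,⟨3,4,true⟩],[],0⟩) (Tr.leaf ⟨[0x8000000000000000000000,0x8000000000000000000000,0x4000000000000000000000],[⟨0,1,false⟩,⟨0,2,true⟩,⟨1,2,true⟩],[],0⟩)) (Tr.leaf ⟨[0x8000000000],[],[],0⟩)) (Tr.br (Tr.br (Tr.leaf ⟨[0x400000,0x1000000],[],[],0⟩) (Tr.leaf ⟨[0x40000000000000000000000000000,0x80000000000000000000000000000,0x100000000000000000000000000000],[⟨0,1,false⟩,⟨0,2,true⟩,⟨1,2,false⟩],[],0⟩)) (Tr.leaf ⟨[0x40000000000000000,0x8000000000000000,0x10000000000000000],[⟨0,1,true⟩,⟨0,2,false⟩,⟨1,2,false⟩],[],0⟩)))) (Tr.br (Tr.br (Tr.br (Tr.br (Tr.leaf ⟨[18,18,18,18],[⟨0,1,false⟩,⟨0,2,false⟩,⟨0,3,false⟩,⟨1,2,true⟩,⟨1,3,false⟩,⟨2,3,true⟩],[],0⟩)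 (Tr.leaf ⟨[0x2000000000000000000000,0x2000000000000000000000,0x4000000000000000000000],[⟨0,1,false⟩,⟨0,2,false⟩,⟨1,2,false⟩],[],0⟩)) (Tr.leaf ⟨[0x40000000],[],[],0⟩)) (Tr.br (Tr.br (Tr.leaf ⟨[0x100000,0x200000],[],[],0⟩) (Tr.leaf ⟨[0x100000000000000000000000000,0x100000000000000000000000000,0x800000000000000000000000000],[⟨0,1,false⟩,⟨0,2,true⟩,⟨1,2,true⟩],[],0⟩)) (Tr.leaf ⟨[0x20000000000000000,0x20000000000000000,0x8000000000000000],[⟨0,1,false⟩,⟨0,2,true⟩,⟨1,2,true⟩],[],0⟩))) (Tr.br (Tr.br (Tr.br (Tr.leaf ⟨[512],[],[⟨3,[(0,false)]⟩],0⟩) (Tr.leaf ⟨[0x400000000000000000000000,0x40000000],[⟨0,1,true⟩],[],0⟩)) (Tr.leaf ⟨[0x400000000000],[],[⟨39,[(0,true)]⟩],0⟩)) (Tr.br (Tr.leaf ⟨[0x20000000,0x8000000,0x10000000],[⟨0,1,false⟩,⟨0,2,true⟩,⟨1,2,false⟩],[],0⟩) (Tr.leaf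 ⟨[0x400000000000000000],[],[⟨68,[(0,true)]⟩],0⟩)))))
 (Tr.br (Tr.br (Tr.br (Tr.br (Tr.br (Tr.leaf ⟨[16,16],[⟨0,1,true⟩],[],0⟩) (Tr.leaf ⟨[0x800000000000000000000],[],[⟨77,[(0,true)]⟩],0⟩)) (Tr.leaf ⟨[0x400000000,0x4000000,0x10000000],[⟨0,1,true⟩,⟨0,2,true⟩,⟨1,2,true⟩],[],0⟩)) (Tr.br (Tr.br (Tr.leaf ⟨[0x80000,0x400000],[],[],0⟩) (Tr.leaf ⟨[0x80000000000000000000000000,0x100000000000000000000000000,0x200000000000000000000000000],[⟨0,1,false⟩,⟨0,2,false⟩,⟨1,2,true⟩],[],0⟩)) (Tr.leaf ⟨[0x400000000000000,0x20000000000000],[⟨0,1,true⟩],[],0⟩))) (Tr.br (Tr.br (Tr.br (Tr.leaf ⟨[32],[],[⟨2,[(0,false)]⟩],0⟩) (Tr.leaf ⟨[0x40000000000000000000000],[],[],0⟩)) (Tr.leaf ⟨[0x40000000000],[],[⟨40,[(0,true)]⟩],0⟩)) (Tr.br (Tr.br (Tr.leaf ⟨[0x20000000,0x4000000,0x4000000],[⟨0,1,true⟩,⟨0,2,true⟩,⟨1,2,false⟩],[],0⟩)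 (Tr.leaf ⟨[0x400000000000000000000000000000,0x400000000000000000000000000000,0x400000000000000000000000000000],[⟨0,1,false⟩,⟨0,2,false⟩,⟨1,2,false⟩],[],0⟩)) (Tr.leaf ⟨[0x8000000000000000,0x8000000000000000,0x10000000000000000],[⟨0,1,false⟩,⟨0,2,false⟩,⟨1,2,false⟩],[],0⟩)))) (Tr.br (Tr.br (Tr.br (Tr.br (Tr.leaf ⟨[18,18,18,8],[⟨0,1,false⟩,⟨0,2,false⟩,⟨0,3,false⟩,⟨1,2,true⟩,⟨1,3,false⟩,⟨2,3,false⟩],[],0⟩) (Tr.leaf ⟨[0x2000000000000000000000,0x10000000000000000000000,0x10000000000000000000000],[⟨0,1,true⟩,⟨0,2,true⟩,⟨1,2,false⟩],[],0⟩)) (Tr.leaf ⟨[0x100000000],[],[],0⟩)) (Tr.br (Tr.br (Tr.leaf ⟨[0x200000,0x800000],[],[],0⟩) (Tr.leaf ⟨[0x8000000000000000000000000000,0x20000000],[⟨0,1,true⟩],[],0⟩)) (Tr.leaf ⟨[0x20000000000000000,0x8000000000000000,0x10000000000000000],[⟨0,1,false⟩,⟨0,2,true⟩,⟨1,2,false⟩],[],0⟩)))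 (Tr.br (Tr.br (Tr.br (Tr.leaf ⟨[8192],[],[⟨4,[(0,false)]⟩],0⟩) (Tr.leaf ⟨[0x10000000000000000000000000,0x200000000000000000000000],[⟨0,1,true⟩],[],0⟩)) (Tr.leaf ⟨[0x4000000000000],[],[⟨46,[(0,true)]⟩],0⟩)) (Tr.br (Tr.leaf ⟨[0x80000000,0x4000000,0x10000000],[⟨0,1,true⟩,⟨0,2,false⟩,⟨1,2,false⟩],[],0⟩) (Tr.leaf ⟨[0x4000000000000000000],[],[],0⟩)))))
)
 (Tr.br (Tr.br (Tr.br (Tr.br (Tr.br (Tr.br (Tr.leaf ⟨[4,4],[⟨0,1,true⟩],[],0⟩) (Tr.leaf ⟨[0x100000000000000000000,0x8000000000000000000],[⟨0,1,true⟩],[],0⟩)) (Tr.leaf ⟨[0x200000000,0x8000000,0x10000000],[⟨0,1,false⟩,⟨0,2,true⟩,⟨1,2,false⟩],[],0⟩)) (Tr.br (Tr.br (Tr.leaf ⟨[0x80000,0x100000],[],[],0⟩) (Tr.leaf ⟨[0x80000000000000000000000000,0x100000000000000000000000000,0x100000000000000000000000000],[⟨0,1,false⟩,⟨0,2,false⟩,⟨1,2,false⟩],[],0⟩))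 (Tr.leaf ⟨[0x100000000000000,0x4000000000],[⟨0,1,true⟩],[],0⟩))) (Tr.br (Tr.br (Tr.br (Tr.leaf ⟨[22,8,22,22,22],[⟨0,1,false⟩,⟨0,2,false⟩,⟨0,3,false⟩,⟨0,4,false⟩,⟨1,2,false⟩,⟨1,3,false⟩,⟨1,4,false⟩,⟨2,3,true⟩,⟨2,4,false⟩,⟨3,4,true⟩],[],0⟩) (Tr.leaf ⟨[0x20000000000000000000000,0x20000000000000000000000,0x4000000000000000000000],[⟨0,1,false⟩,⟨0,2,true⟩,⟨1,2,true⟩],[],0⟩)) (Tr.leaf ⟨[0x10000000000],[],[⟨35,[(0,true)]⟩],0⟩)) (Tr.br (Tr.br (Tr.leaf ⟨[0x800000,0x2000000],[],[],0⟩) (Tr.leaf ⟨[0x40000000000000000000000000000,0x80000000000000000000000000000,0x100000000000000000000000000000],[⟨0,1,true⟩,⟨0,2,true⟩,⟨1,2,true⟩],[],0⟩)) (Tr.leaf ⟨[0x80000000000000000,0x8000000000000000,0x10000000000000000],[⟨0,1,false⟩,⟨0,2,true⟩,⟨1,2,false⟩],[],0⟩)))) (Tr.br (Tr.br (Tr.br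 (Tr.br (Tr.leaf ⟨[10,10,10,16],[⟨0,1,false⟩,⟨0,2,false⟩,⟨0,3,false⟩,⟨1,2,true⟩,⟨1,3,false⟩,⟨2,3,false⟩],[],0⟩) (Tr.leaf ⟨[0x2000000000000000000000,0x8000000000000000000000,0x4000000000000000000000],[⟨0,1,true⟩,⟨0,2,false⟩,⟨1,2,false⟩],[],0⟩)) (Tr.leaf ⟨[0x80000000],[],[],0⟩)) (Tr.br (Tr.br (Tr.leaf ⟨[0x100000,0x1000000],[],[],0⟩) (Tr.leaf ⟨[0x2000000000000000000000000000,0x20000000],[⟨0,1,true⟩],[],0⟩)) (Tr.leaf ⟨[0x20000000000000000,0x8000000000000000,0x8000000000000000],[⟨0,1,true⟩,⟨0,2,true⟩,⟨1,2,false⟩],[],0⟩))) (Tr.br (Tr.br (Tr.br (Tr.leaf ⟨[2048],[],[⟨4,[(0,false)]⟩],0⟩) (Tr.leaf ⟨[0x2000000000000000000000000],[],[⟨91,[(0,true)]⟩],0⟩)) (Tr.leaf ⟨[0x1000000000000],[],[⟨46,[(0,true)]⟩],0⟩)) (Tr.br (Tr.leaf ⟨[0x40000000,0x4000000,0x8000000],[⟨0,1,false⟩,⟨0,2,true⟩,⟨1,2,false⟩],[],0⟩)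 (Tr.leaf ⟨[0x1000000000000000000],[],[⟨68,[(0,true)]⟩],0⟩)))))
 (Tr.br (Tr.br (Tr.br (Tr.br (Tr.br (Tr.leaf ⟨[6,6,6,6],[⟨0,1,false⟩,⟨0,2,false⟩,⟨0,3,false⟩,⟨1,2,true⟩,⟨1,3,false⟩,⟨2,3,true⟩],[],0⟩) (Tr.leaf ⟨[0x2000000000000000000000,0x2000000000000000000000,0x8000000000000000000000],[⟨0,1,false⟩,⟨0,2,true⟩,⟨1,2,true⟩],[],0⟩)) (Tr.leaf ⟨[0x20000000],[],[],0⟩)) (Tr.br (Tr.br (Tr.leaf ⟨[0x80000,0x1000000],[],[],0⟩) (Tr.leaf ⟨[0x80000000000000000000000000,0x100000000000000000000000000,0x800000000000000000000000000],[⟨0,1,false⟩,⟨0,2,false⟩,⟨1,2,true⟩],[],0⟩)) (Tr.leaf ⟨[0x2000000000000000],[],[⟨55,[(0,true)]⟩],0⟩))) (Tr.br (Tr.br (Tr.br (Tr.leaf ⟨[128],[],[⟨3,[(0,false)]⟩],0⟩) (Tr.leaf ⟨[0x100000000000000000000000,0x40000000],[⟨0,1,true⟩],[],0⟩)) (Tr.leaf ⟨[0x100000000000],[],[⟨40,[(0,true)]⟩],0⟩))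 (Tr.br (Tr.leaf ⟨[0x20000000,0x4000000,0x8000000],[⟨0,1,false⟩,⟨0,2,true⟩,⟨1,2,false⟩],[],0⟩) (Tr.leaf ⟨[0x100000000000000000],[],[⟨32,[(0,true)]⟩],0⟩)))) (Tr.br (Tr.br (Tr.br (Tr.br (Tr.leaf ⟨[18,18,18,4],[⟨0,1,false⟩,⟨0,2,false⟩,⟨0,3,false⟩,⟨1,2,true⟩,⟨1,3,false⟩,⟨2,3,false⟩],[],0⟩) (Tr.leaf ⟨[0x2000000000000000000000,0x20000000000000000000000,0x4000000000000000000000],[⟨0,1,false⟩,⟨0,2,false⟩,⟨1,2,true⟩],[],0⟩)) (Tr.leaf ⟨[0x4000000000],[],[],0⟩)) (Tr.br (Tr.br (Tr.leaf ⟨[0x200000,0x2000000],[],[],0⟩) (Tr.leaf ⟨[0x20000000000000000000000000000,0x20000000],[⟨0,1,true⟩],[],0⟩)) (Tr.leaf ⟨[0x40000000000000000,0x40000000000000000,0x8000000000000000],[⟨0,1,false⟩,⟨0,2,true⟩,⟨1,2,true⟩],[],0⟩))) (Tr.br (Tr.br (Tr.br (Tr.leaf ⟨[32768],[],[⟨4,[(0,false)]⟩],0⟩) (Tr.leaf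 ⟨[0x40000000000000000000000000,0x200000000000000000000000],[⟨0,1,true⟩],[],0⟩)) (Tr.leaf ⟨[0x10000000000000],[],[],0⟩)) (Tr.br (Tr.leaf ⟨[0x80000000,0x10000000,0x10000000],[⟨0,1,true⟩,⟨0,2,true⟩,⟨1,2,false⟩],[],0⟩) (Tr.leaf ⟨[0x10000000000000000000,0x80000000],[⟨0,1,true⟩],[],0⟩)))))
)
)
)

noncomputable def e3_sc : Tr Sc := (Tr.leaf ⟨[],[]⟩)
noncomputable def e3_T : Tab := ⟨127,e3_ty,e3_ev,e3_ax,e3_sc⟩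
def e3_S0 : St := ⟨0,0,0,0,0⟩
def e3_G0 : Ctx := ⟨5,0,0x1fffff,0,0,e3_S0,none⟩
def e3_G1 : Ctx := ⟨5,0,0xfffff,0,0,e3_S0,none⟩
def e3_G2 : Ctx := ⟨5,0,0x1fffff,0,2,e3_S0,none⟩
def e3_G3 : Ctx := ⟨7,1,0x6fffff,0,0,e3_S0,none⟩
def e3_G4 : Ctx := ⟨9,3,0x1efffff,0,0,e3_S0,none⟩
def e3_G5 : Ctx := ⟨11,7,0x7efffff,0,0,e3_S0,none⟩
def e3_G6 : Ctx := ⟨13,15,0x1fefffff,0,0,e3_S0,none⟩
def e3_G7 : Ctx := ⟨15,31,0x7fefffff,0,0,e3_S0,none⟩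
def e3_G8 : Ctx := ⟨17,63,0x1ffefffff,0,0,e3_S0,none⟩
def e3_G9 : Ctx := ⟨19,127,0x7ffefffff,0,0,e3_S0,none⟩
def e3_G10 : Ctx := ⟨26,127,0x1fffffffefffff,0,0,e3_S0,none⟩
def e3_G11 : Ctx := ⟨36,127,0x7fffffffffffefffff,0,0,e3_S0,none⟩
def e3_G12 : Ctx := ⟨36,127,0xffffffffffffefffff,0,0,e3_S0,none⟩
def e3_G13 : Ctx := ⟨36,127,0x17fffffffffffefffff,0,0,e3_S0,none⟩
def e3_G14 : Ctx := ⟨36,127,0xffffffffffffefffff,0,0x20000000,e3_S0,none⟩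
def e3_G15 : Ctx := ⟨36,127,0x2ffffffffffffefffff,0,0x20000000,e3_S0,none⟩
def e3_G16 : Ctx := ⟨36,127,0x4ffffffffffffefffff,0,0x20000000,e3_S0,none⟩
def e3_G17 : Ctx := ⟨36,127,0x2ffffffffffffefffff,0,0x60000000,e3_S0,none⟩
def e3_G18 : Ctx := ⟨36,127,0xaffffffffffffefffff,0,0x60000000,e3_S0,none⟩
def e3_G19 : Ctx := ⟨36,127,0x12ffffffffffffefffff,0,0x60000000,e3_S0,none⟩
def e3_G20 : Ctx := ⟨36,127,0xaffffffffffffefffff,0,0xe0000000,e3_S0,none⟩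
def e3_G21 : Ctx := ⟨36,127,0x2affffffffffffefffff,0,0xe0000000,e3_S0,none⟩
def e3_G22 : Ctx := ⟨36,127,0x4affffffffffffefffff,0,0xe0000000,e3_S0,none⟩
def e3_G23 : Ctx := ⟨40,127,0x2affffffffffffefffff,0,0xe0000000,e3_S0,none⟩
def e3_G24 : Ctx := ⟨40,127,0x2affffffffffffefffff,0,0x1e0000000,e3_S0,none⟩
def e3_G25 : Ctx := ⟨40,127,0xaaffffffffffffefffff,0,0x1e0000000,e3_S0,none⟩
def e3_G26 : Ctx := ⟨40,127,0x12affffffffffffefffff,0,0x1e0000000,e3_S0,none⟩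
def e3_G27 : Ctx := ⟨40,127,0xaaffffffffffffefffff,0,0x41e0000000,e3_S0,none⟩
def e3_G28 : Ctx := ⟨40,127,0x2aaffffffffffffefffff,0,0x41e0000000,e3_S0,none⟩
def e3_G29 : Ctx := ⟨40,127,0x4aaffffffffffffefffff,0,0x41e0000000,e3_S0,none⟩
def e3_G30 : Ctx := ⟨40,127,0x2aaffffffffffffefffff,0,0xc1e0000000,e3_S0,none⟩
def e3_G31 : Ctx := ⟨42,255,0x1aaaffffffffffffefffff,0,0xc1e0000000,e3_S0,none⟩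
def e3_G32 : Ctx := ⟨44,511,0x7aaaffffffffffffefffff,0,0xc1e0000000,e3_S0,none⟩
def e3_G33 : Ctx := ⟨46,1023,0x1faaaffffffffffffefffff,0,0xc1e0000000,e3_S0,none⟩
def e3_G34 : Ctx := ⟨40,127,0x4aaffffffffffffefffff,0,0x49e0000000,e3_S0,none⟩
def e3_G35 : Ctx := ⟨48,1151,0x604aaffffffffffffefffff,0,0x49e0000000,e3_S0,none⟩
def e3_G36 : Ctx := ⟨50,3199,0x1e04aaffffffffffffefffff,0,0x49e0000000,e3_S0,none⟩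
def e3_G37 : Ctx := ⟨52,7295,0x7e04aaffffffffffffefffff,0,0x49e0000000,e3_S0,none⟩
def e3_G38 : Ctx := ⟨40,127,0x12affffffffffffefffff,0,0x9e0000000,e3_S0,none⟩
def e3_G39 : Ctx := ⟨53,127,0x80012affffffffffffefffff,0,0x9e0000000,e3_S0,none⟩
def e3_G40 : Ctx := ⟨53,127,0x80012affffffffffffefffff,0,0x100009e0000000,e3_S0,none⟩
def e3_G41 : Ctx := ⟨55,8319,0x380012affffffffffffefffff,0,0x100009e0000000,e3_S0,none⟩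
def e3_G42 : Ctx := ⟨57,24703,0xf80012affffffffffffefffff,0,0x100009e0000000,e3_S0,none⟩
def e3_G43 : Ctx := ⟨59,57471,0x3f80012affffffffffffefffff,0,0x100009e0000000,e3_S0,none⟩
def e3_G44 : Ctx := ⟨61,0x1e07f,0x7f80012affffffffffffefffff,0,0x100009e0000000,e3_S0,none⟩
def e3_G45 : Ctx := ⟨63,0x3e07f,0x1ff80012affffffffffffefffff,0,0x100009e0000000,e3_S0,none⟩
def e3_G46 : Ctx := ⟨68,0x3e07f,0x7fffff80012affffffffffffefffff,0,0x100009e0000000,e3_S0,none⟩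
def e3_G47 : Ctx := ⟨36,127,0x4affffffffffffefffff,0,0xee0000000,e3_S0,none⟩
def e3_G48 : Ctx := ⟨70,0x4007f,0x180000000004affffffffffffefffff,0,0xee0000000,e3_S0,none⟩
def e3_G49 : Ctx := ⟨72,0xc007f,0x780000000004affffffffffffefffff,0,0xee0000000,e3_S0,none⟩
def e3_G50 : Ctx := ⟨74,0x1c007f,0x1f80000000004affffffffffffefffff,0,0xee0000000,e3_S0,none⟩
def e3_G51 : Ctx := ⟨36,127,0x12ffffffffffffefffff,0,0xe60000000,e3_S0,none⟩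
def e3_G52 : Ctx := ⟨75,127,0x20000000000012ffffffffffffefffff,0,0xe60000000,e3_S0,none⟩
def e3_G53 : Ctx := ⟨75,127,0x20000000000012ffffffffffffefffff,0,0x4000000000e60000000,e3_S0,none⟩
def e3_G54 : Ctx := ⟨77,0x20007f,0xe0000000000012ffffffffffffefffff,0,0x4000000000e60000000,e3_S0,none⟩
def e3_G55 : Ctx := ⟨79,0x60007f,0x3e0000000000012ffffffffffffefffff,0,0x4000000000e60000000,e3_S0,none⟩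
def e3_G56 : Ctx := ⟨81,0xe0007f,0xfe0000000000012ffffffffffffefffff,0,0x4000000000e60000000,e3_S0,none⟩
def e3_G57 : Ctx := ⟨83,0x1e0007f,0x1fe0000000000012ffffffffffffefffff,0,0x4000000000e60000000,e3_S0,none⟩
def e3_G58 : Ctx := ⟨85,0x3e0007f,0x7fe0000000000012ffffffffffffefffff,0,0x4000000000e60000000,e3_S0,none⟩
def e3_G59 : Ctx := ⟨90,0x3e0007f,0x1fffffe0000000000012ffffffffffffefffff,0,0x4000000000e60000000,e3_S0,none⟩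
def e3_G60 : Ctx := ⟨36,127,0x4ffffffffffffefffff,0,0xea0000000,e3_S0,none⟩
def e3_G61 : Ctx := ⟨91,127,0x20000000000000000004ffffffffffffefffff,0,0xea0000000,e3_S0,none⟩
def e3_G62 : Ctx := ⟨91,127,0x20000000000000000004ffffffffffffefffff,0,0x40000000000000ea0000000,e3_S0,none⟩
def e3_G63 : Ctx := ⟨93,0x400007f,0xe0000000000000000004ffffffffffffefffff,0,0x40000000000000ea0000000,e3_S0,none⟩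
def e3_G64 : Ctx := ⟨95,0xc00007f,0x3e0000000000000000004ffffffffffffefffff,0,0x40000000000000ea0000000,e3_S0,none⟩
def e3_G65 : Ctx := ⟨97,0x1c00007f,0x7e0000000000000000004ffffffffffffefffff,0,0x40000000000000ea0000000,e3_S0,none⟩
def e3_G66 : Ctx := ⟨97,0x1c00007f,0x7e0000000000000000004ffffffffffffefffff,0,0x1040000000000000ea0000000,e3_S0,none⟩
def e3_G67 : Ctx := ⟨99,0x3c00007f,0x1fe0000000000000000004ffffffffffffefffff,0,0x1040000000000000ea0000000,e3_S0,none⟩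
def e3_G68 : Ctx := ⟨101,0x7c00007f,0x3fe0000000000000000004ffffffffffffefffff,0,0x1040000000000000ea0000000,e3_S0,none⟩
def e3_G69 : Ctx := ⟨103,0xfc00007f,0xffe0000000000000000004ffffffffffffefffff,0,0x1040000000000000ea0000000,e3_S0,none⟩
def e3_G70 : Ctx := ⟨108,0xfc00007f,0x3ffffe0000000000000000004ffffffffffffefffff,0,0x1040000000000000ea0000000,e3_S0,none⟩
def e3_G71 : Ctx := ⟨36,127,0x17fffffffffffefffff,0,0xfc0000000,e3_S0,none⟩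
def e3_G72 : Ctx := ⟨110,0x10000007f,0xc0000000000000000000000017fffffffffffefffff,0,0xfc0000000,e3_S0,none⟩
def e3_G73 : Ctx := ⟨112,0x30000007f,0x3c0000000000000000000000017fffffffffffefffff,0,0xfc0000000,e3_S0,none⟩
def e3_G74 : Ctx := ⟨114,0x70000007f,0xfc0000000000000000000000017fffffffffffefffff,0,0xfc0000000,e3_S0,none⟩
def e3_G75 : Ctx := ⟨117,0x70000007f,0xffc0000000000000000000000017fffffffffffefffff,0,0xfc0000000,e3_S0,none⟩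
def e3_G76 : Ctx := ⟨121,0x70000007f,0x1ffc0000000000000000000000017fffffffffffefffff,0,0xfc0000000,e3_S0,none⟩
def e3_G77 : Ctx := ⟨121,0x70000007f,0x3ffc0000000000000000000000017fffffffffffefffff,0,0xfc0000000,e3_S0,none⟩
def e3_S1 : St := ⟨3,0x1104000000000000000000010000014022080000000000000000000200000280441000000000000000000004000005,0,0x30000000000000000000000000000000500000000000000000000000000000006,7⟩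
def e3_G78 : Ctx := ⟨121,0x70000007f,0x1ffc0000000000000000000000017fffffffffffefffff,0,0xfc0000000,e3_S1,none⟩
def e3_G79 : Ctx := ⟨122,0x70000007f,0x7ffc0000000000000000000000017fffffffffffefffff,0,0xfc0000000,e3_S0,none⟩
def e3_G80 : Ctx := ⟨122,0x70000007f,0x7ffc0000000000000000000000017fffffffffffefffff,0,0x2000000000000000000000fc0000000,e3_S0,none⟩
def e3_G81 : Ctx := ⟨123,0xf0000007f,0x1ffc0000000000000000000000017fffffffffffefffff,0,0xfc0000000,e3_S1,none⟩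
def e3_G82 : Ctx := ⟨127,0x1f0000007f,0x1ffc0000000000000000000000017fffffffffffefffff,0,0xfc0000000,e3_S1,none⟩
def e3_G83 : Ctx := ⟨127,0x1f0000007f,0x1ffc0000000000000000000000017fffffffffffefffff,0,0x39000000000000000000000fc0000000,e3_S1,none⟩
def e3_G84 : Ctx := ⟨127,0x1f0000007f,0x1ffc0000000000000000000000017fffffffffffefffff,0,0x79000000000000000000000fc0000000,e3_S1,none⟩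
def e3_h14 : List HP := [⟨[0,1],[],(HT.leaf 4)⟩,⟨[0,2],[],(HT.leaf 4)⟩,⟨[0,3],[],(HT.leaf 5)⟩,⟨[0,4],[],(HT.leaf 2)⟩,⟨[0,5],[],(HT.leaf 2)⟩,⟨[0,6],[],(HT.leaf 2)⟩,⟨[1,2],[],(HT.leaf 5)⟩,⟨[1,4],[],(HT.leaf 2)⟩,⟨[1,5],[],(HT.leaf 2)⟩,⟨[1,6],[],(HT.leaf 2)⟩,⟨[2,4],[],(HT.leaf 2)⟩,⟨[2,5],[],(HT.leaf 2)⟩,⟨[2,6],[],(HT.leaf 2)⟩,⟨[3,4],[],(HT.leaf 2)⟩,⟨[3,5],[],(HT.leaf 2)⟩,⟨[3,6],[],(HT.leaf 2)⟩,⟨[4,6],[],(HT.leaf 2)⟩,⟨[5,6],[],(HT.leaf 2)⟩]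
def e3_h15 : List HP := [⟨[3,0,0],[⟨0,1,true⟩,⟨0,2,true⟩,⟨1,2,false⟩],(HT.leaf 3)⟩,⟨[3,0,1],[⟨0,1,true⟩,⟨0,2,false⟩,⟨1,2,false⟩],(HT.leaf 3)⟩,⟨[3,0,1],[⟨0,1,false⟩,⟨0,2,true⟩,⟨1,2,false⟩],(HT.leaf 3)⟩,⟨[3,0,2],[⟨0,1,true⟩,⟨0,2,false⟩,⟨1,2,false⟩],(HT.leaf 3)⟩,⟨[3,1,2],[⟨0,1,false⟩,⟨0,2,true⟩,⟨1,2,false⟩],(HT.leaf 3)⟩,⟨[4,4,6],[],(HT.leaf 4)⟩,⟨[4,6,0],[],(HT.leaf 2)⟩,⟨[4,6,1],[⟨0,1,false⟩,⟨0,2,false⟩,⟨1,2,true⟩],(HT.leaf 2)⟩,⟨[4,0,1],[⟨0,1,true⟩,⟨0,2,false⟩,⟨1,2,false⟩],(HT.leaf 3)⟩,⟨[4,0,1],[⟨0,1,false⟩,⟨0,2,true⟩,⟨1,2,false⟩],(HT.leaf 3)⟩,⟨[4,1,1],[⟨0,1,true⟩,⟨0,2,true⟩,⟨1,2,false⟩],(HT.leaf 3)⟩,⟨[5,5,6],[],(HT.leaf 4)⟩,⟨[5,6,0],[],(HT.leaf 2)⟩,⟨[5,6,2],[⟨0,1,false⟩,⟨0,2,false⟩,⟨1,2,true⟩],(HT.leaf 2)⟩,⟨[5,0,2],[⟨0,1,true⟩,⟨0,2,false⟩,⟨1,2,false⟩],(HT.leaf 3)⟩,⟨[5,0,2],[⟨0,1,false⟩,⟨0,2,true⟩,⟨1,2,false⟩],(HT.leaf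 3)⟩,⟨[5,2,2],[⟨0,1,true⟩,⟨0,2,true⟩,⟨1,2,false⟩],(HT.leaf 3)⟩,⟨[6,1,2],[⟨0,1,true⟩,⟨0,2,true⟩,⟨1,2,true⟩],(HT.leaf 2)⟩,⟨[7,7,8],[],(HT.leaf 4)⟩,⟨[7,8,1],[],(HT.leaf 2)⟩,⟨[7,8,2],[⟨0,1,false⟩,⟨0,2,false⟩,⟨1,2,true⟩],(HT.leaf 2)⟩,⟨[7,1,2],[⟨0,1,true⟩,⟨0,2,false⟩,⟨1,2,false⟩],(HT.leaf 3)⟩,⟨[7,1,2],[⟨0,1,false⟩,⟨0,2,true⟩,⟨1,2,false⟩],(HT.leaf 3)⟩,⟨[7,2,2],[⟨0,1,true⟩,⟨0,2,true⟩,⟨1,2,false⟩],(HT.leaf 3)⟩,⟨[8,0,2],[⟨0,1,true⟩,⟨0,2,true⟩,⟨1,2,true⟩],(HT.leaf 2)⟩,⟨[9,0,1],[⟨0,1,true⟩,⟨0,2,true⟩,⟨1,2,true⟩],(HT.leaf 2)⟩]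
def e3_h23 : List HP := [⟨[2,3,0],[],(HT.leaf 2)⟩,⟨[2,3,1],[],(HT.leaf 2)⟩]
def e3_h49 : List HP := [⟨[0],[],(HT.br true 0 0 (HT.leaf 2) (HT.leaf 2))⟩]
def e3_h61 : List HP := [⟨[2,2,0],[⟨0,1,false⟩,⟨0,2,true⟩,⟨1,2,true⟩],(HT.br true 0 0 (HT.br true 1 1 (HT.br true 2 2 (HT.br true 0 1 (HT.br true 0 2 (HT.leaf 3) (HT.br true 1 0 (HT.br true 1 2 (HT.leaf 3) (HT.leaf 3)) (HT.leaf 2))) (HT.leaf 2)) (HT.leaf 2)) (HT.leaf 2)) (HT.leaf 2))⟩,⟨[2,2,1],[⟨0,1,false⟩,⟨0,2,true⟩,⟨1,2,true⟩],(HT.br true 0 0 (HT.br true 1 1 (HT.br true 2 2 (HT.br true 0 1 (HT.br true 0 2 (HT.leaf 3) (HT.leaf 3)) (HT.leaf 2)) (HT.leaf 2)) (HT.leaf 2)) (HT.leaf 2))⟩,⟨[2,0,0],[⟨0,1,true⟩,⟨0,2,true⟩,⟨1,2,false⟩],(HT.br true 0 0 (HT.br true 1 1 (HT.br true 2 2 (HT.br true 0 1 (HT.leaf 3) (HT.leaf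 3)) (HT.leaf 2)) (HT.leaf 2)) (HT.leaf 2))⟩,⟨[2,0,1],[⟨0,1,true⟩,⟨0,2,false⟩,⟨1,2,false⟩],(HT.leaf 2)⟩,⟨[2,0,1],[⟨0,1,false⟩,⟨0,2,true⟩,⟨1,2,false⟩],(HT.leaf 2)⟩,⟨[2,1,1],[⟨0,1,true⟩,⟨0,2,true⟩,⟨1,2,false⟩],(HT.br true 0 0 (HT.br true 1 1 (HT.br true 2 2 (HT.br true 0 1 (HT.leaf 3) (HT.leaf 3)) (HT.leaf 2)) (HT.leaf 2)) (HT.leaf 2))⟩,⟨[3,3,0],[⟨0,1,false⟩,⟨0,2,true⟩,⟨1,2,true⟩],(HT.br true 0 0 (HT.br true 1 1 (HT.br true 2 2 (HT.br true 0 1 (HT.br true 0 2 (HT.leaf 3) (HT.br true 1 0 (HT.br true 1 2 (HT.leaf 3) (HT.leaf 3)) (HT.leaf 2))) (HT.leaf 2)) (HT.leaf 2)) (HT.leaf 2)) (HT.leaf 2))⟩,⟨[3,0,0],[⟨0,1,true⟩,⟨0,2,true⟩,⟨1,2,false⟩],(HT.br true 0 0 (HT.br true 1 1 (HT.br true 2 2 (HT.br true 0 1 (HT.leaf 3) (HT.leaf 3)) (HT.leaf 2)) (HT.leaf 2)) (HT.leaf 2))⟩,⟨[3,0,1],[⟨0,1,true⟩,⟨0,2,false⟩,⟨1,2,false⟩],(HT.leaf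 2)⟩,⟨[4,4,1],[⟨0,1,false⟩,⟨0,2,true⟩,⟨1,2,true⟩],(HT.br true 0 0 (HT.br true 1 1 (HT.br true 2 2 (HT.br true 0 1 (HT.br true 0 2 (HT.leaf 3) (HT.leaf 3)) (HT.leaf 2)) (HT.leaf 2)) (HT.leaf 2)) (HT.leaf 2))⟩,⟨[4,0,1],[⟨0,1,false⟩,⟨0,2,true⟩,⟨1,2,false⟩],(HT.leaf 2)⟩,⟨[4,1,1],[⟨0,1,true⟩,⟨0,2,true⟩,⟨1,2,false⟩],(HT.br true 0 0 (HT.br true 1 1 (HT.br true 2 2 (HT.br true 0 1 (HT.leaf 3) (HT.leaf 3)) (HT.leaf 2)) (HT.leaf 2)) (HT.leaf 2))⟩,⟨[0,0,1],[⟨0,1,false⟩,⟨0,2,false⟩,⟨1,2,false⟩],(HT.leaf 3)⟩,⟨[0,1,1],[⟨0,1,false⟩,⟨0,2,false⟩,⟨1,2,false⟩],(HT.leaf 3)⟩]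
def e3_h75 : List HP := [⟨[0],[],(HT.br true 0 0 (HT.leaf 2) (HT.leaf 2))⟩]
def e3_h87 : List HP := [⟨[0,0,2],[⟨0,1,false⟩,⟨0,2,true⟩,⟨1,2,true⟩],(HT.leaf 3)⟩,⟨[0,0,3],[⟨0,1,false⟩,⟨0,2,true⟩,⟨1,2,true⟩],(HT.leaf 3)⟩,⟨[0,0,1],[⟨0,1,false⟩,⟨0,2,false⟩,⟨1,2,false⟩],(HT.leaf 3)⟩,⟨[0,2,2],[⟨0,1,true⟩,⟨0,2,true⟩,⟨1,2,false⟩],(HT.br true 0 0 (HT.br true 1 1 (HT.br true 2 2 (HT.br true 0 1 (HT.leaf 3) (HT.leaf 3)) (HT.leaf 2)) (HT.leaf 2)) (HT.leaf 2))⟩,⟨[0,2,1],[⟨0,1,true⟩,⟨0,2,false⟩,⟨1,2,false⟩],(HT.leaf 2)⟩,⟨[0,2,1],[⟨0,1,false⟩,⟨0,2,false⟩,⟨1,2,true⟩],(HT.leaf 2)⟩,⟨[0,3,3],[⟨0,1,true⟩,⟨0,2,true⟩,⟨1,2,false⟩],(HT.br true 0 0 (HT.br true 1 1 (HT.br true 2 2 (HT.br true 0 1 (HT.leaf 3) (HT.leaf 3)) (HT.leaf 2)) (HT.leaf 2)) (HT.leaf 2))⟩,⟨[0,3,1],[⟨0,1,true⟩,⟨0,2,false⟩,⟨1,2,false⟩],(HT.leaf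 2)⟩,⟨[0,4,1],[⟨0,1,false⟩,⟨0,2,false⟩,⟨1,2,true⟩],(HT.leaf 2)⟩,⟨[0,1,1],[⟨0,1,false⟩,⟨0,2,false⟩,⟨1,2,false⟩],(HT.leaf 3)⟩,⟨[2,2,1],[⟨0,1,false⟩,⟨0,2,true⟩,⟨1,2,true⟩],(HT.br true 0 0 (HT.br true 1 1 (HT.br true 2 2 (HT.br true 0 1 (HT.br true 0 2 (HT.leaf 3) (HT.leaf 3)) (HT.leaf 2)) (HT.leaf 2)) (HT.leaf 2)) (HT.leaf 2))⟩,⟨[2,1,1],[⟨0,1,true⟩,⟨0,2,true⟩,⟨1,2,false⟩],(HT.br true 0 0 (HT.br true 1 1 (HT.br true 2 2 (HT.br true 0 1 (HT.leaf 3) (HT.leaf 3)) (HT.leaf 2)) (HT.leaf 2)) (HT.leaf 2))⟩,⟨[4,4,1],[⟨0,1,false⟩,⟨0,2,true⟩,⟨1,2,true⟩],(HT.br true 0 0 (HT.br true 1 1 (HT.br true 2 2 (HT.br true 0 1 (HT.br true 0 2 (HT.leaf 3) (HT.leaf 3)) (HT.leaf 2)) (HT.leaf 2)) (HT.leaf 2)) (HT.leaf 2))⟩,⟨[4,1,1],[⟨0,1,true⟩,⟨0,2,true⟩,⟨1,2,false⟩],(HT.br true 0 0 (HT.br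 true 1 1 (HT.br true 2 2 (HT.br true 0 1 (HT.leaf 3) (HT.leaf 3)) (HT.leaf 2)) (HT.leaf 2)) (HT.leaf 2))⟩]
def e3_h91 : List HP := [⟨[0],[],(HT.br true 0 0 (HT.leaf 2) (HT.leaf 2))⟩]
def e3_h106 : List HP := [⟨[0,0,1],[⟨0,1,false⟩,⟨0,2,false⟩,⟨1,2,false⟩],(HT.leaf 3)⟩,⟨[0,0,2],[⟨0,1,false⟩,⟨0,2,true⟩,⟨1,2,true⟩],(HT.leaf 3)⟩,⟨[0,0,3],[⟨0,1,false⟩,⟨0,2,true⟩,⟨1,2,true⟩],(HT.leaf 3)⟩,⟨[0,1,1],[⟨0,1,false⟩,⟨0,2,false⟩,⟨1,2,false⟩],(HT.leaf 3)⟩,⟨[0,1,2],[⟨0,1,false⟩,⟨0,2,true⟩,⟨1,2,false⟩],(HT.leaf 2)⟩,⟨[0,1,2],[⟨0,1,false⟩,⟨0,2,false⟩,⟨1,2,true⟩],(HT.leaf 2)⟩,⟨[0,1,3],[⟨0,1,false⟩,⟨0,2,true⟩,⟨1,2,false⟩],(HT.leaf 2)⟩,⟨[0,1,4],[⟨0,1,false⟩,⟨0,2,false⟩,⟨1,2,true⟩],(HT.leaf 2)⟩,⟨[1,1,2],[⟨0,1,false⟩,⟨0,2,true⟩,⟨1,2,true⟩],(HT.leaf 3)⟩,⟨[1,1,4],[⟨0,1,false⟩,⟨0,2,true⟩,⟨1,2,true⟩],(HT.leaf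 3)⟩]
def e3_h117 : List HP := [⟨[0,0,1],[⟨0,1,false⟩,⟨0,2,false⟩,⟨1,2,false⟩],(HT.leaf 3)⟩,⟨[0,1,2],[⟨0,1,true⟩,⟨0,2,false⟩,⟨1,2,false⟩],(HT.leaf 2)⟩,⟨[0,1,2],[⟨0,1,false⟩,⟨0,2,true⟩,⟨1,2,false⟩],(HT.leaf 2)⟩,⟨[0,1,2],[⟨0,1,false⟩,⟨0,2,false⟩,⟨1,2,true⟩],(HT.leaf 2)⟩,⟨[0,1,2],[⟨0,1,false⟩,⟨0,2,true⟩,⟨1,2,true⟩],(HT.leaf 2)⟩,⟨[0,1,2],[⟨0,1,true⟩,⟨0,2,true⟩,⟨1,2,true⟩],(HT.br true 0 0 (HT.br true 1 1 (HT.br true 2 2 (HT.br true 0 1 (HT.leaf 3) (HT.leaf 3)) (HT.leaf 2)) (HT.leaf 2)) (HT.leaf 2))⟩]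
def e3_h120 : List HP := [⟨[0],[],(HT.leaf 3)⟩]

end Pool.Agent.Lib.MP_849b2e_co
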