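import Pool.Agent.Lib.MP_849b2e_co.Fast
import Pool.Agent.Lib.MP_849b2e_co.Te3
import Pool.Agent.Lib.MP_849b2e_co.RApply
import Pool.Agent.Lib.MP_849b2e_co.Td
import Pool.Agent.Lib.MP_849b2e_co.Te4

set_option maxRecDepth 100000
set_option linter.all false
namespace Pool.Agent.Lib.MP_849b2e_co

noncomputable def e3_o0c : Pq := (Pq.cons (Pq.L [] 0 (Pf.C 20 0))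
 Pq.nil)
theorem e3_o0 : AllRef e3_T e3_G0 (List.map pat1 [1]) :=
  chkPq_sound e3_o0c _ (by decide +kernel)
noncomputable def e3_o1c : Pq := (Pq.cons (Pq.L [] 63 (Pf.C 0 0x608080))
 (Pq.cons (Pq.L [] 32767 (Pf.C 1 0x2840608080))
 (Pq.cons (Pq.L [] 1 (Pf.C 3 128))
 (Pq.cons (Pq.L [] 1 (Pf.C 4 128))
 (Pq.cons (Pq.L [] 1 (Pf.C 5 128))
 (Pq.cons (Pq.L [] 7 (Pf.C 6 32896))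
 (Pq.cons (Pq.D 0 (Pq.cons (Pq.D 1 (Pq.cons (Pq.L [] 1 (Pf.C 3 128))
 (Pq.cons (Pq.D 2 (Pq.cons (Pq.D 3 (Pq.cons (Pq.L [] 128 (Pf.C 3 386))
 (Pq.cons (Pq.D 4 (Pq.cons (Pq.L [] 1023 (Pf.C 16 0x40608080))
 (Pq.cons (Pq.L [] 1023 (Pf.C 16 0x40608080))
 Pq.nil))) Pq.nil))) (Pq.cons (Pq.D 3 (Pq.cons (Pq.D 4 (Pq.cons (Pq.L [] 1023 (Pf.C 16 0x40608080))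
 (Pq.cons (Pq.L [] 1023 (Pf.C 16 0x40608080))
 Pq.nil))) (Pq.cons (Pq.L [] 128 (Pf.C 4 386))
 Pq.nil))) Pq.nil))) Pq.nil))) (Pq.cons (Pq.D 1 (Pq.cons (Pq.D 2 (Pq.cons (Pq.D 3 (Pq.cons (Pq.L [] 128 (Pf.C 3 386))
 (Pq.cons (Pq.D 4 (Pq.cons (Pq.L [] 1023 (Pf.C 16 0x40608080))
 (Pq.cons (Pq.L [] 1023 (Pf.C 16 0x40608080))
 Pq.nil))) Pq.nil))) (Pq.cons (Pq.D 3 (Pq.cons (Pq.D 4 (Pq.cons (Pq.L [] 1023 (Pf.C 16 0x40608080))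
 (Pq.cons (Pq.L [] 1023 (Pf.C 16 0x40608080))
 Pq.nil))) (Pq.cons (Pq.L [] 128 (Pf.C 4 386))
 Pq.nil))) Pq.nil))) (Pq.cons (Pq.L [] 1 (Pf.C 4 128))
 Pq.nil))) Pq.nil))) (Pq.cons (Pq.D 0 (Pq.cons (Pq.D 1 (Pq.cons (Pq.L [] 1 (Pf.C 3 128))
 (Pq.cons (Pq.D 2 (Pq.cons (Pq.D 3 (Pq.cons (Pq.L [] 128 (Pf.C 3 386))
 (Pq.cons (Pq.D 4 (Pq.cons (Pq.L [] 1023 (Pf.C 17 0x40608080))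
 (Pq.cons (Pq.L [] 1023 (Pf.C 17 0x40608080))
 Pq.nil))) Pq.nil))) (Pq.cons (Pq.D 3 (Pq.cons (Pq.D 4 (Pq.cons (Pq.L [] 1023 (Pf.C 17 0x40608080))
 (Pq.cons (Pq.L [] 1023 (Pf.C 17 0x40608080))
 Pq.nil))) (Pq.cons (Pq.L [] 128 (Pf.C 5 386))
 Pq.nil))) Pq.nil))) Pq.nil))) (Pq.cons (Pq.D 1 (Pq.cons (Pq.D 2 (Pq.cons (Pq.D 3 (Pq.cons (Pq.L [] 128 (Pf.C 3 386))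
 (Pq.cons (Pq.D 4 (Pq.cons (Pq.L [] 1023 (Pf.C 17 0x40608080))
 (Pq.cons (Pq.L [] 1023 (Pf.C 17 0x40608080))
 Pq.nil))) Pq.nil))) (Pq.cons (Pq.D 3 (Pq.cons (Pq.D 4 (Pq.cons (Pq.L [] 1023 (Pf.C 17 0x40608080))
 (Pq.cons (Pq.L [] 1023 (Pf.C 17 0x40608080))
 Pq.nil))) (Pq.cons (Pq.L [] 128 (Pf.C 5 386))
 Pq.nil))) Pq.nil))) (Pq.cons (Pq.L [] 1 (Pf.C 5 128))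
 Pq.nil))) Pq.nil))) (Pq.cons (Pq.D 0 (Pq.cons (Pq.D 1 (Pq.cons (Pq.L [] 1 (Pf.C 4 128))
 (Pq.cons (Pq.D 2 (Pq.cons (Pq.D 3 (Pq.cons (Pq.L [] 128 (Pf.C 4 386))
 (Pq.cons (Pq.D 4 (Pq.cons (Pq.L [] 1023 (Pf.C 18 0x40608080))
 (Pq.cons (Pq.L [] 1023 (Pf.C 18 0x40608080))
 Pq.nil))) Pq.nil))) (Pq.cons (Pq.D 3 (Pq.cons (Pq.D 4 (Pq.cons (Pq.L [] 1023 (Pf.C 18 0x40608080))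
 (Pq.cons (Pq.L [] 1023 (Pf.C 18 0x40608080))
 Pq.nil))) (Pq.cons (Pq.L [] 128 (Pf.C 5 386))
 Pq.nil))) Pq.nil))) Pq.nil))) (Pq.cons (Pq.D 1 (Pq.cons (Pq.D 2 (Pq.cons (Pq.D 3 (Pq.cons (Pq.L [] 128 (Pf.C 4 386))
 (Pq.cons (Pq.D 4 (Pq.cons (Pq.L [] 1023 (Pf.C 18 0x40608080))
 (Pq.cons (Pq.L [] 1023 (Pf.C 18 0x40608080))
 Pq.nil))) Pq.nil))) (Pq.cons (Pq.D 3 (Pq.cons (Pq.D 4 (Pq.cons (Pq.L [] 1023 (Pf.C 18 0x40608080))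
 (Pq.cons (Pq.L [] 1023 (Pf.C 18 0x40608080))
 Pq.nil))) (Pq.cons (Pq.L [] 128 (Pf.C 5 386))
 Pq.nil))) Pq.nil))) (Pq.cons (Pq.L [] 1 (Pf.C 5 128))
 Pq.nil))) Pq.nil))) Pq.nil)))))))))
theorem e3_o1 : AllRef e3_T e3_G2 (applyObl e4_T 9 [2,3,4] [1,2,3] []) :=
  chkPq_sound e3_o1c _ (by decide +kernel)
noncomputable def e3_o2c : Pq := (Pq.cons (Pq.L [] 1 (Pf.C 2 128))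
 (Pq.cons (Pq.L [] 1 (Pf.C 2 128))
 (Pq.cons (Pq.L [] 1 (Pf.C 2 128))
 (Pq.cons (Pq.L [] 1 (Pf.C 2 128))
 (Pq.cons (Pq.L [] 1 (Pf.C 2 128))
 (Pq.cons (Pq.L [] 1 (Pf.C 2 128))
 (Pq.cons (Pq.L [] 1 (Pf.C 2 128))
 (Pq.cons (Pq.L [] 2 (Pf.C 22 256))
 (Pq.cons (Pq.L [] 2 (Pf.C 26 256))
 (Pq.cons (Pq.L [] 2 (Pf.C 34 256))
 Pq.nil))))))))))
theorem e3_o2 : AllRef e3_T e3_G9 (splitObl [11,12,13,14,15,16,17,2,3,4] [18]) :=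
  chkPq_sound e3_o2c _ (by decide +kernel)
noncomputable def e3_o3c : Pq := (Pq.cons (Pq.L [] 0 (Pf.B 7 6 (Pf.B 7 5 (Pf.B 6 5 (Pf.W 27 6 [] [5,7] (Pf.cons (Pf.B 8 7 (Pf.C 28 1031) (Pf.B 8 5 (Pf.C 28 1029) (Pf.C 9 0xe20286))) Pf.nil)) (Pf.C 2 646)) (Pf.C 2 647)) (Pf.C 2 775)))
 (Pq.cons (Pq.L [] 0 (Pf.B 7 5 (Pf.B 7 4 (Pf.B 5 4 (Pf.W 23 4 [] [5,7] (Pf.cons (Pf.B 8 7 (Pf.C 24 1031) (Pf.B 8 5 (Pf.C 24 1029) (Pf.C 8 0xe20284))) Pf.nil)) (Pf.C 2 517)) (Pf.C 2 519)) (Pf.C 2 647)))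
 (Pq.cons (Pq.L [] 0 (Pf.B 9 7 (Pf.B 9 0 (Pf.B 7 0 (Pf.W 23 0 [] [7,9] (Pf.cons (Pf.B 10 9 (Pf.C 24 1289) (Pf.B 10 7 (Pf.C 24 1287) (Pf.C 8 0x1228380))) Pf.nil)) (Pf.C 2 7)) (Pf.C 2 9)) (Pf.C 2 905)))
 (Pq.cons (Pq.L [] 0 (Pf.B 3 1 (Pf.B 3 0 (Pf.B 1 0 (Pf.W 21 0 [] [1,3] (Pf.cons (Pf.B 4 3 (Pf.C 22 515) (Pf.B 4 1 (Pf.C 22 513) (Pf.C 7 0x610080))) Pf.nil)) (Pf.C 2 1)) (Pf.C 2 3)) (Pf.C 2 131)))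
 (Pq.cons (Pq.L [] 0 (Pf.B 3 1 (Pf.B 3 0 (Pf.B 1 0 (Pf.W 21 0 [] [1,3] (Pf.cons (Pf.B 4 3 (Pf.C 22 515) (Pf.B 4 1 (Pf.C 22 513) (Pf.C 7 0x610080))) Pf.nil)) (Pf.C 2 1)) (Pf.C 2 3)) (Pf.C 2 131)))
 (Pq.cons (Pq.L [] 0 (Pf.B 3 1 (Pf.B 3 0 (Pf.B 1 0 (Pf.W 21 0 [] [1,3] (Pf.cons (Pf.B 4 3 (Pf.C 22 515) (Pf.B 4 1 (Pf.C 22 513) (Pf.C 7 0x610080))) Pf.nil)) (Pf.C 2 1)) (Pf.C 2 3)) (Pf.C 2 131)))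
 (Pq.cons (Pq.L [] 0 (Pf.B 9 7 (Pf.B 9 0 (Pf.B 7 0 (Pf.W 23 0 [] [7,9] (Pf.cons (Pf.B 10 9 (Pf.C 24 1289) (Pf.B 10 7 (Pf.C 24 1287) (Pf.C 8 0x1228380))) Pf.nil)) (Pf.C 2 7)) (Pf.C 2 9)) (Pf.C 2 905)))
 (Pq.cons (Pq.L [] 0 (Pf.B 3 1 (Pf.B 3 0 (Pf.B 1 0 (Pf.W 21 0 [] [1,3] (Pf.cons (Pf.B 4 3 (Pf.C 22 515) (Pf.B 4 1 (Pf.C 22 513) (Pf.C 7 0x610080))) Pf.nil)) (Pf.C 2 1)) (Pf.C 2 3)) (Pf.C 2 131)))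
 (Pq.cons (Pq.L [] 0 (Pf.B 3 1 (Pf.B 3 0 (Pf.B 1 0 (Pf.W 21 0 [] [1,3] (Pf.cons (Pf.B 4 3 (Pf.C 22 515) (Pf.B 4 1 (Pf.C 22 513) (Pf.C 7 0x610080))) Pf.nil)) (Pf.C 2 1)) (Pf.C 2 3)) (Pf.C 2 131)))
 (Pq.cons (Pq.L [] 0 (Pf.B 3 1 (Pf.B 3 0 (Pf.B 1 0 (Pf.W 21 0 [] [1,3] (Pf.cons (Pf.B 4 3 (Pf.C 22 515) (Pf.B 4 1 (Pf.C 22 513) (Pf.C 7 0x610080))) Pf.nil)) (Pf.C 2 1)) (Pf.C 2 3)) (Pf.C 2 131)))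
 (Pq.cons (Pq.L [] 0 (Pf.B 3 1 (Pf.B 3 0 (Pf.B 1 0 (Pf.W 21 0 [] [1,3] (Pf.cons (Pf.B 4 3 (Pf.C 22 515) (Pf.B 4 1 (Pf.C 22 513) (Pf.C 7 0x610080))) Pf.nil)) (Pf.C 2 1)) (Pf.C 2 3)) (Pf.C 2 131)))
 (Pq.cons (Pq.L [] 0 (Pf.B 3 1 (Pf.B 3 0 (Pf.B 1 0 (Pf.W 21 0 [] [1,3] (Pf.cons (Pf.B 4 3 (Pf.C 22 515) (Pf.B 4 1 (Pf.C 22 513) (Pf.C 7 0x610080))) Pf.nil)) (Pf.C 2 1)) (Pf.C 2 3)) (Pf.C 2 131)))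
 (Pq.cons (Pq.L [] 0 (Pf.B 3 1 (Pf.B 3 0 (Pf.B 1 0 (Pf.W 21 0 [] [1,3] (Pf.cons (Pf.B 4 3 (Pf.C 22 515) (Pf.B 4 1 (Pf.C 22 513) (Pf.C 7 0x610080))) Pf.nil)) (Pf.C 2 1)) (Pf.C 2 3)) (Pf.C 2 131)))
 (Pq.cons (Pq.L [] 0 (Pf.B 3 1 (Pf.B 3 0 (Pf.B 1 0 (Pf.W 21 0 [] [1,3] (Pf.cons (Pf.B 4 3 (Pf.C 22 515) (Pf.B 4 1 (Pf.C 22 513) (Pf.C 7 0x610080))) Pf.nil)) (Pf.C 2 1)) (Pf.C 2 3)) (Pf.C 2 131)))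
 (Pq.cons (Pq.L [] 0 (Pf.B 3 1 (Pf.B 3 0 (Pf.B 1 0 (Pf.W 21 0 [] [1,3] (Pf.cons (Pf.B 4 3 (Pf.C 22 515) (Pf.B 4 1 (Pf.C 22 513) (Pf.C 7 0x610080))) Pf.nil)) (Pf.C 2 1)) (Pf.C 2 3)) (Pf.C 2 131)))
 (Pq.cons (Pq.L [] 0 (Pf.B 3 1 (Pf.B 3 0 (Pf.B 1 0 (Pf.W 21 0 [] [1,3] (Pf.cons (Pf.B 4 3 (Pf.C 22 515) (Pf.B 4 1 (Pf.C 22 513) (Pf.C 7 0x610080))) Pf.nil)) (Pf.C 2 1)) (Pf.C 2 3)) (Pf.C 2 131)))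
 (Pq.cons (Pq.L [] 0 (Pf.B 3 1 (Pf.B 3 0 (Pf.B 1 0 (Pf.W 25 0 [] [1,3] (Pf.cons (Pf.B 4 3 (Pf.C 26 515) (Pf.B 4 1 (Pf.C 26 513) (Pf.C 8 0x610080))) Pf.nil)) (Pf.C 2 1)) (Pf.C 2 3)) (Pf.C 2 131)))
 (Pq.cons (Pq.L [] 0 (Pf.B 3 1 (Pf.B 3 0 (Pf.B 1 0 (Pf.W 25 0 [] [1,3] (Pf.cons (Pf.B 4 3 (Pf.C 26 515) (Pf.B 4 1 (Pf.C 26 513) (Pf.C 8 0x610080))) Pf.nil)) (Pf.C 2 1)) (Pf.C 2 3)) (Pf.C 2 131)))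
 Pq.nil))))))))))))))))))
theorem e3_o3 : AllRef e3_T e3_G9 (hitObl [11,12,13,14,15,16,17] e3_h14) :=
  chkPq_sound e3_o3c _ (by decide +kernel)
noncomputable def e3_o4c : Pq := (Pq.cons (Pq.L [] 263 (Pf.B 8 2 (Pf.B 8 1 (Pf.B 8 0 (Pf.C 7 0x400088) (Pf.B 7 2 (Pf.B 7 1 (Pf.B 7 0 (Pf.C 7 0x400087) (Pf.B 5 2 (Pf.B 5 1 (Pf.B 5 0 (Pf.C 7 0x400085) (Pf.B 4 2 (Pf.B 4 1 (Pf.B 4 0 (Pf.C 7 0x400084) (Pf.W 21 0 [] [7,8] (Pf.cons (Pf.B 9 8 (Pf.B 9 7 (Pf.C 7 0x1000389) (Pf.C 3 905)) (Pf.C 3 1033)) Pf.nil))) (Pf.C 3 132)) (Pf.C 3 260))) (Pf.C 3 133)) (Pf.C 3 261))) (Pf.C 3 135)) (Pf.C 3 263))) (Pf.C 3 136)) (Pf.C 3 264)))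
 (Pq.cons (Pq.L [] 449 (Pf.B 7 4 (Pf.B 7 1 (Pf.B 6 3 (Pf.B 6 0 (Pf.B 4 1 (Pf.B 3 0 (Pf.B 8 3 (Pf.B 7 3 (Pf.C 12 0x1018383) (Pf.B 7 0 (Pf.C 7 0xc1c180) (Pf.B 4 0 (Pf.C 7 0xe00084) (Pf.W 21 0 [] [4,7] (Pf.cons (Pf.B 9 7 (Pf.B 9 4 (Pf.C 7 0xe00209) (Pf.C 3 521)) (Pf.C 3 905)) Pf.nil))))) (Pf.B 8 0 (Pf.B 7 0 (Pf.C 12 0x1018380) (Pf.B 4 0 (Pf.C 7 0xe00084) (Pf.W 21 0 [] [4,7] (Pf.cons (Pf.B 9 7 (Pf.B 9 4 (Pf.C 7 0xe00209) (Pf.C 3 521)) (Pf.C 3 905)) Pf.nil)))) (Pf.C 8 0x620006))) (Pf.C 2 3)) (Pf.C 3 132)) (Pf.C 2 6)) (Pf.C 2 390)) (Pf.C 3 135)) (Pf.C 3 519)))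
 (Pq.cons (Pq.L [] 450 (Pf.B 8 5 (Pf.B 8 2 (Pf.B 6 3 (Pf.B 6 0 (Pf.B 5 2 (Pf.B 3 0 (Pf.B 8 3 (Pf.B 8 0 (Pf.B 7 3 (Pf.C 14 0xe20303) (Pf.B 7 0 (Pf.C 12 0x100c380) (Pf.C 7 0x61c006))) (Pf.C 8 0xc20003)) (Pf.B 8 0 (Pf.C 8 0xc20180) (Pf.B 5 0 (Pf.C 8 0x1000105) (Pf.W 23 0 [] [5,8] (Pf.cons (Pf.B 9 8 (Pf.B 9 5 (Pf.C 8 0x1000289) (Pf.C 4 649)) (Pf.C 4 1033)) Pf.nil))))) (Pf.C 2 3)) (Pf.C 4 261)) (Pf.C 2 6)) (Pf.C 2 390)) (Pf.C 4 264)) (Pf.C 4 648)))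
 (Pq.cons (Pq.L [] 449 (Pf.B 7 4 (Pf.B 7 1 (Pf.B 6 3 (Pf.B 6 0 (Pf.B 4 1 (Pf.B 3 0 (Pf.B 8 3 (Pf.B 7 3 (Pf.C 10 0x1018383) (Pf.B 7 0 (Pf.C 7 0xc1c180) (Pf.B 4 0 (Pf.C 7 0xe00084) (Pf.W 21 0 [] [4,7] (Pf.cons (Pf.B 9 7 (Pf.B 9 4 (Pf.C 7 0xe00209) (Pf.C 3 521)) (Pf.C 3 905)) Pf.nil))))) (Pf.B 8 0 (Pf.B 7 0 (Pf.C 10 0x1018380) (Pf.B 4 0 (Pf.C 7 0xe00084) (Pf.W 21 0 [] [4,7] (Pf.cons (Pf.B 9 7 (Pf.B 9 4 (Pf.C 7 0xe00209) (Pf.C 3 521)) (Pf.C 3 905)) Pf.nil)))) (Pf.C 9 0x620006))) (Pf.C 2 3)) (Pf.C 3 132)) (Pf.C 2 6)) (Pf.C 2 390)) (Pf.C 3 135)) (Pf.C 3 519)))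
 (Pq.cons (Pq.L [] 450 (Pf.B 8 5 (Pf.B 8 2 (Pf.B 6 3 (Pf.B 6 0 (Pf.B 5 2 (Pf.B 3 0 (Pf.B 8 3 (Pf.B 8 0 (Pf.B 7 3 (Pf.C 13 0xe20303) (Pf.B 7 0 (Pf.C 11 0x100c380) (Pf.C 8 0x61c006))) (Pf.C 9 0xc20003)) (Pf.B 8 0 (Pf.C 9 0xc20180) (Pf.B 5 0 (Pf.C 9 0x1000105) (Pf.W 27 0 [] [5,8] (Pf.cons (Pf.B 9 8 (Pf.B 9 5 (Pf.C 9 0x1000289) (Pf.C 5 649)) (Pf.C 5 1033)) Pf.nil))))) (Pf.C 2 3)) (Pf.C 5 261)) (Pf.C 2 6)) (Pf.C 2 390)) (Pf.C 5 264)) (Pf.C 5 648)))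
 (Pq.cons (Pq.L [] 0 (Pf.B 11 10 (Pf.B 11 9 (Pf.B 11 8 (Pf.B 10 9 (Pf.B 9 8 (Pf.W 23 10 [] [8,9,11] (Pf.cons (Pf.B 12 11 (Pf.C 24 1547) (Pf.B 12 9 (Pf.B 12 8 (Pf.C 24 1544) (Pf.C 8 0x1630409)) (Pf.C 8 0x163048a))) Pf.nil)) (Pf.C 2 1033)) (Pf.C 2 1162)) (Pf.C 2 1035)) (Pf.C 2 1163)) (Pf.C 2 1291)))
 (Pq.cons (Pq.L [] 0 (Pf.B 4 1 (Pf.B 4 0 (Pf.B 1 0 (Pf.W 23 0 [] [1,4] (Pf.cons (Pf.B 6 4 (Pf.C 24 772) (Pf.B 6 1 (Pf.C 24 769) (Pf.C 8 0x818080))) Pf.nil)) (Pf.C 2 1)) (Pf.C 2 4)) (Pf.C 2 132)))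
 (Pq.cons (Pq.L [] 7 (Pf.B 4 2 (Pf.C 24 260) (Pf.B 4 1 (Pf.B 4 0 (Pf.C 8 0x208200) (Pf.C 2 4)) (Pf.C 2 132))))
 (Pq.cons (Pq.L [] 449 (Pf.B 7 4 (Pf.B 7 1 (Pf.B 6 3 (Pf.B 6 0 (Pf.B 4 1 (Pf.B 3 0 (Pf.B 8 3 (Pf.B 7 3 (Pf.C 12 0x1018383) (Pf.B 7 0 (Pf.C 7 0xc1c180) (Pf.B 4 0 (Pf.C 7 0xe00084) (Pf.W 21 0 [] [4,7] (Pf.cons (Pf.B 9 7 (Pf.B 9 4 (Pf.C 7 0xe00209) (Pf.C 3 521)) (Pf.C 3 905)) Pf.nil))))) (Pf.B 8 0 (Pf.B 7 0 (Pf.C 12 0x1018380) (Pf.B 4 0 (Pf.C 7 0xe00084) (Pf.W 21 0 [] [4,7] (Pf.cons (Pf.B 9 7 (Pf.B 9 4 (Pf.C 7 0xe00209) (Pf.C 3 521)) (Pf.C 3 905)) Pf.nil)))) (Pf.C 8 0x620006))) (Pf.C 2 3)) (Pf.C 3 132)) (Pf.C 2 6)) (Pf.C 2 390)) (Pf.C 3 135)) (Pf.C 3 519)))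
 (Pq.cons (Pq.L [] 450 (Pf.B 8 5 (Pf.B 8 2 (Pf.B 6 3 (Pf.B 6 0 (Pf.B 5 2 (Pf.B 3 0 (Pf.B 8 3 (Pf.B 8 0 (Pf.B 7 3 (Pf.C 14 0xe20303) (Pf.B 7 0 (Pf.C 12 0x100c380) (Pf.C 7 0x61c006))) (Pf.C 8 0xc20003)) (Pf.B 8 0 (Pf.C 8 0xc20180) (Pf.B 5 0 (Pf.C 8 0x1000105) (Pf.W 23 0 [] [5,8] (Pf.cons (Pf.B 9 8 (Pf.B 9 5 (Pf.C 8 0x1000289) (Pf.C 4 649)) (Pf.C 4 1033)) Pf.nil))))) (Pf.C 2 3)) (Pf.C 4 261)) (Pf.C 2 6)) (Pf.C 2 390)) (Pf.C 4 264)) (Pf.C 4 648)))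
 (Pq.cons (Pq.L [] 263 (Pf.B 8 2 (Pf.B 8 1 (Pf.B 8 0 (Pf.C 8 0x400088) (Pf.B 7 2 (Pf.B 7 1 (Pf.B 7 0 (Pf.C 8 0x400087) (Pf.B 5 2 (Pf.B 5 1 (Pf.B 5 0 (Pf.C 8 0x400085) (Pf.B 4 2 (Pf.B 4 1 (Pf.B 4 0 (Pf.C 8 0x400084) (Pf.W 23 0 [] [7,8] (Pf.cons (Pf.B 9 8 (Pf.B 9 7 (Pf.C 8 0x1000389) (Pf.C 4 905)) (Pf.C 4 1033)) Pf.nil))) (Pf.C 4 132)) (Pf.C 4 260))) (Pf.C 4 133)) (Pf.C 4 261))) (Pf.C 4 135)) (Pf.C 4 263))) (Pf.C 4 136)) (Pf.C 4 264)))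
 (Pq.cons (Pq.L [] 0 (Pf.B 11 10 (Pf.B 11 9 (Pf.B 11 8 (Pf.B 10 9 (Pf.B 9 8 (Pf.W 29 10 [] [8,9,11] (Pf.cons (Pf.B 12 11 (Pf.C 30 1547) (Pf.B 12 9 (Pf.B 12 8 (Pf.C 30 1544) (Pf.C 9 0x1630409)) (Pf.C 9 0x163048a))) Pf.nil)) (Pf.C 2 1033)) (Pf.C 2 1162)) (Pf.C 2 1035)) (Pf.C 2 1163)) (Pf.C 2 1291)))
 (Pq.cons (Pq.L [] 0 (Pf.B 4 1 (Pf.B 4 0 (Pf.B 1 0 (Pf.W 29 0 [] [1,4] (Pf.cons (Pf.B 6 4 (Pf.C 30 772) (Pf.B 6 1 (Pf.C 30 769) (Pf.C 9 0x818080))) Pf.nil)) (Pf.C 2 1)) (Pf.C 2 4)) (Pf.C 2 132)))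
 (Pq.cons (Pq.L [] 7 (Pf.B 4 2 (Pf.C 30 260) (Pf.B 4 1 (Pf.B 4 0 (Pf.C 9 0x208200) (Pf.C 2 4)) (Pf.C 2 132))))
 (Pq.cons (Pq.L [] 449 (Pf.B 7 4 (Pf.B 7 1 (Pf.B 6 3 (Pf.B 6 0 (Pf.B 4 1 (Pf.B 3 0 (Pf.B 8 3 (Pf.B 7 3 (Pf.C 10 0x1018383) (Pf.B 7 0 (Pf.C 7 0xc1c180) (Pf.B 4 0 (Pf.C 7 0xe00084) (Pf.W 21 0 [] [4,7] (Pf.cons (Pf.B 9 7 (Pf.B 9 4 (Pf.C 7 0xe00209) (Pf.C 3 521)) (Pf.C 3 905)) Pf.nil))))) (Pf.B 8 0 (Pf.B 7 0 (Pf.C 10 0x1018380) (Pf.B 4 0 (Pf.C 7 0xe00084) (Pf.W 21 0 [] [4,7] (Pf.cons (Pf.B 9 7 (Pf.B 9 4 (Pf.C 7 0xe00209) (Pf.C 3 521)) (Pf.C 3 905)) Pf.nil)))) (Pf.C 9 0x620006))) (Pf.C 2 3)) (Pf.C 3 132)) (Pf.C 2 6)) (Pf.C 2 390)) (Pf.C 3 135)) (Pf.C 3 519)))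
 (Pq.cons (Pq.L [] 450 (Pf.B 8 5 (Pf.B 8 2 (Pf.B 6 3 (Pf.B 6 0 (Pf.B 5 2 (Pf.B 3 0 (Pf.B 8 3 (Pf.B 8 0 (Pf.B 7 3 (Pf.C 15 0xe20303) (Pf.B 7 0 (Pf.C 10 0x100c380) (Pf.C 7 0x61c006))) (Pf.C 9 0xc20003)) (Pf.B 8 0 (Pf.C 9 0xc20180) (Pf.B 5 0 (Pf.C 9 0x1000105) (Pf.W 29 0 [] [5,8] (Pf.cons (Pf.B 9 8 (Pf.B 9 5 (Pf.C 9 0x1000289) (Pf.C 5 649)) (Pf.C 5 1033)) Pf.nil))))) (Pf.C 2 3)) (Pf.C 5 261)) (Pf.C 2 6)) (Pf.C 2 390)) (Pf.C 5 264)) (Pf.C 5 648)))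
 (Pq.cons (Pq.L [] 263 (Pf.B 8 2 (Pf.B 8 1 (Pf.B 8 0 (Pf.C 9 0x400088) (Pf.B 7 2 (Pf.B 7 1 (Pf.B 7 0 (Pf.C 9 0x400087) (Pf.B 5 2 (Pf.B 5 1 (Pf.B 5 0 (Pf.C 9 0x400085) (Pf.B 4 2 (Pf.B 4 1 (Pf.B 4 0 (Pf.C 9 0x400084) (Pf.W 29 0 [] [7,8] (Pf.cons (Pf.B 9 8 (Pf.B 9 7 (Pf.C 9 0x1000389) (Pf.C 5 905)) (Pf.C 5 1033)) Pf.nil))) (Pf.C 5 132)) (Pf.C 5 260))) (Pf.C 5 133)) (Pf.C 5 261))) (Pf.C 5 135)) (Pf.C 5 263))) (Pf.C 5 136)) (Pf.C 5 264)))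
 (Pq.cons (Pq.L [] 7 (Pf.B 3 2 (Pf.C 30 259) (Pf.B 3 1 (Pf.C 24 131) (Pf.B 3 0 (Pf.C 0 32899) (Pf.C 2 3)))))
 (Pq.cons (Pq.L [] 0 (Pf.B 11 10 (Pf.B 11 9 (Pf.B 11 8 (Pf.B 10 9 (Pf.B 9 8 (Pf.W 31 10 [] [8,9,11] (Pf.cons (Pf.B 12 11 (Pf.C 32 1547) (Pf.B 12 9 (Pf.B 12 8 (Pf.C 32 1544) (Pf.C 9 0x1630409)) (Pf.C 9 0x163048a))) Pf.nil)) (Pf.C 2 1033)) (Pf.C 2 1162)) (Pf.C 2 1035)) (Pf.C 2 1163)) (Pf.C 2 1291)))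
 (Pq.cons (Pq.L [] 0 (Pf.B 4 1 (Pf.B 4 0 (Pf.B 1 0 (Pf.W 31 0 [] [1,4] (Pf.cons (Pf.B 6 4 (Pf.C 32 772) (Pf.B 6 1 (Pf.C 32 769) (Pf.C 9 0x818080))) Pf.nil)) (Pf.C 2 1)) (Pf.C 2 4)) (Pf.C 2 132)))
 (Pq.cons (Pq.L [] 7 (Pf.B 4 2 (Pf.C 32 260) (Pf.B 4 1 (Pf.B 4 0 (Pf.C 9 0x208200) (Pf.C 2 4)) (Pf.C 2 132))))
 (Pq.cons (Pq.L [] 449 (Pf.B 7 4 (Pf.B 7 1 (Pf.B 6 3 (Pf.B 6 0 (Pf.B 4 1 (Pf.B 3 0 (Pf.B 8 3 (Pf.B 7 3 (Pf.C 11 0x1018383) (Pf.B 7 0 (Pf.C 8 0xc1c180) (Pf.B 4 0 (Pf.C 8 0xe00084) (Pf.W 25 0 [] [4,7] (Pf.cons (Pf.B 9 7 (Pf.B 9 4 (Pf.C 8 0xe00209) (Pf.C 4 521)) (Pf.C 4 905)) Pf.nil))))) (Pf.B 8 0 (Pf.B 7 0 (Pf.C 11 0x1018380) (Pf.B 4 0 (Pf.C 8 0xe00084) (Pf.W 25 0 [] [4,7] (Pf.cons (Pf.B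 9 7 (Pf.B 9 4 (Pf.C 8 0xe00209) (Pf.C 4 521)) (Pf.C 4 905)) Pf.nil)))) (Pf.C 9 0x620006))) (Pf.C 2 3)) (Pf.C 4 132)) (Pf.C 2 6)) (Pf.C 2 390)) (Pf.C 4 135)) (Pf.C 4 519)))
 (Pq.cons (Pq.L [] 450 (Pf.B 8 5 (Pf.B 8 2 (Pf.B 6 3 (Pf.B 6 0 (Pf.B 5 2 (Pf.B 3 0 (Pf.B 8 3 (Pf.B 8 0 (Pf.B 7 3 (Pf.C 13 0xe20303) (Pf.B 7 0 (Pf.C 11 0x100c380) (Pf.C 8 0x61c006))) (Pf.C 9 0xc20003)) (Pf.B 8 0 (Pf.C 9 0xc20180) (Pf.B 5 0 (Pf.C 9 0x1000105) (Pf.W 31 0 [] [5,8] (Pf.cons (Pf.B 9 8 (Pf.B 9 5 (Pf.C 9 0x1000289) (Pf.C 5 649)) (Pf.C 5 1033)) Pf.nil))))) (Pf.C 2 3)) (Pf.C 5 261)) (Pf.C 2 6)) (Pf.C 2 390)) (Pf.C 5 264)) (Pf.C 5 648)))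
 (Pq.cons (Pq.L [] 263 (Pf.B 8 2 (Pf.B 8 1 (Pf.B 8 0 (Pf.C 9 0x400088) (Pf.B 7 2 (Pf.B 7 1 (Pf.B 7 0 (Pf.C 9 0x400087) (Pf.B 5 2 (Pf.B 5 1 (Pf.B 5 0 (Pf.C 9 0x400085) (Pf.B 4 2 (Pf.B 4 1 (Pf.B 4 0 (Pf.C 9 0x400084) (Pf.W 31 0 [] [7,8] (Pf.cons (Pf.B 9 8 (Pf.B 9 7 (Pf.C 9 0x1000389) (Pf.C 5 905)) (Pf.C 5 1033)) Pf.nil))) (Pf.C 5 132)) (Pf.C 5 260))) (Pf.C 5 133)) (Pf.C 5 261))) (Pf.C 5 135)) (Pf.C 5 263))) (Pf.C 5 136)) (Pf.C 5 264)))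
 (Pq.cons (Pq.L [] 7 (Pf.B 3 2 (Pf.C 32 259) (Pf.B 3 1 (Pf.C 22 131) (Pf.B 3 0 (Pf.C 0 32899) (Pf.C 2 3)))))
 (Pq.cons (Pq.L [] 7 (Pf.B 3 2 (Pf.C 26 259) (Pf.B 3 1 (Pf.C 22 131) (Pf.B 3 0 (Pf.C 0 32899) (Pf.C 2 3)))))
 Pq.nil))))))))))))))))))))))))))
theorem e3_o4 : AllRef e3_T e3_G10 (hitObl [2,3,4,19,20,21,22,23,24,25] e3_h15) :=
  chkPq_sound e3_o4c _ (by decide +kernel)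
noncomputable def e3_o5c : Pq := (Pq.cons (Pq.L [] 0 (Pf.C 71 0))
 Pq.nil)
theorem e3_o5 : AllRef e3_T e3_G12 (List.map pat1 [29]) :=
  chkPq_sound e3_o5c _ (by decide +kernel)
noncomputable def e3_o6c : Pq := (Pq.cons (Pq.L [] 0 (Pf.C 73 0))
 Pq.nil)
theorem e3_o6 : AllRef e3_T e3_G15 (List.map pat1 [30]) :=
  chkPq_sound e3_o6c _ (by decide +kernel)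
noncomputable def e3_o7c : Pq := (Pq.cons (Pq.L [] 0 (Pf.C 75 0))
 Pq.nil)
theorem e3_o7 : AllRef e3_T e3_G18 (List.map pat1 [31]) :=
  chkPq_sound e3_o7c _ (by decide +kernel)
noncomputable def e3_o8c : Pq := (Pq.cons (Pq.L [] 0 (Pf.C 65 16768))
 (Pq.cons (Pq.L [] 0 (Pf.C 65 16768))
 Pq.nil))
theorem e3_o8 : AllRef e3_T e3_G21 (hitObl [26,28,33,34] e3_h23) :=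
  chkPq_sound e3_o8c _ (by decide +kernel)
noncomputable def e3_o9c : Pq := (Pq.cons (Pq.L [] 0 (Pf.C 77 0))
 Pq.nil)
theorem e3_o9 : AllRef e3_T e3_G23 (List.map pat1 [32]) :=
  chkPq_sound e3_o9c _ (by decide +kernel)
noncomputable def e3_o10c : Pq := (Pq.cons (Pq.L [] 0 (Pf.C 79 0))
 Pq.nil)
theorem e3_o10 : AllRef e3_T e3_G25 (List.map pat1 [38]) :=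
  chkPq_sound e3_o10c _ (by decide +kernel)
noncomputable def e3_o11c : Pq := (Pq.cons (Pq.L [] 0 (Pf.C 81 0))
 Pq.nil)
theorem e3_o11 : AllRef e3_T e3_G28 (List.map pat1 [39]) :=
  chkPq_sound e3_o11c _ (by decide +kernel)
noncomputable def e3_o12c : Pq := (Pq.cons (Pq.L [] 2 (Pf.C 22 2))
 (Pq.cons (Pq.L [] 2 (Pf.C 26 2))
 (Pq.cons (Pq.L [] 1 (Pf.C 84 128))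
 (Pq.cons (Pq.L [] 1 (Pf.C 3 128))
 (Pq.cons (Pq.L [] 2 (Pf.B 2 1 (Pf.W 85 1 [] [0,2] (Pf.cons (Pf.B 3 0 (Pf.B 3 2 (Pf.C 6 49154) (Pf.W 83 3 [] [1,2] (Pf.cons (Pf.B 4 2 (Pf.C 22 260) (Pf.B 4 1 (Pf.C 22 132) (Pf.C 0 0x40c201))) Pf.nil))) (Pf.C 88 384)) Pf.nil)) (Pf.C 3 130)))
 (Pq.cons (Pq.L [] 3 (Pf.B 2 1 (Pf.W 85 1 [] [0,2] (Pf.cons (Pf.B 3 0 (Pf.B 3 2 (Pf.W 85 2 [] [0,1,3] (Pf.cons (Pf.B 4 3 (Pf.B 4 0 (Pf.B 4 1 (Pf.C 17 0x30200104) (Pf.W 83 4 [] [1,2] (Pf.cons (Pf.B 5 2 (Pf.C 22 261) (Pf.B 5 1 (Pf.C 22 133) (Pf.C 0 0x410281))) Pf.nil))) (Pf.C 5 4)) (Pf.C 5 388)) Pf.nil)) (Pf.W 83 3 [] [1,2] (Pf.cons (Pf.B 4 2 (Pf.C 22 260) (Pf.B 4 1 (Pf.C 22 132) (Pf.C 0 0x40c201))) Pf.nil))) (Pf.C 5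 3)) Pf.nil)) (Pf.C 3 130)))
 (Pq.cons (Pq.L [] 2 (Pf.B 2 1 (Pf.W 87 1 [] [0,2] (Pf.cons (Pf.B 3 0 (Pf.B 3 2 (Pf.C 6 49408) (Pf.W 83 3 [] [1,2] (Pf.cons (Pf.B 4 2 (Pf.C 26 260) (Pf.B 4 1 (Pf.C 26 132) (Pf.C 0 0x40c201))) Pf.nil))) (Pf.C 86 384)) Pf.nil)) (Pf.C 4 130)))
 (Pq.cons (Pq.L [] 1 (Pf.C 4 128))
 (Pq.cons (Pq.L [] 3 (Pf.B 2 1 (Pf.W 87 1 [] [0,2] (Pf.cons (Pf.B 3 0 (Pf.B 3 2 (Pf.W 87 2 [] [0,1,3] (Pf.cons (Pf.B 4 3 (Pf.B 4 0 (Pf.B 4 1 (Pf.C 18 0x30200104) (Pf.W 83 4 [] [1,2] (Pf.cons (Pf.B 5 2 (Pf.C 26 261) (Pf.B 5 1 (Pf.C 26 133) (Pf.C 0 0x410281))) Pf.nil))) (Pf.C 5 4)) (Pf.C 5 388)) Pf.nil)) (Pf.W 83 3 [] [1,2] (Pf.cons (Pf.B 4 2 (Pf.C 26 260) (Pf.B 4 1 (Pf.C 26 132) (Pf.C 0 0x40c201)))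 Pf.nil))) (Pf.C 5 3)) Pf.nil)) (Pf.C 4 130)))
 (Pq.cons (Pq.L [] 1 (Pf.C 86 128))
 (Pq.cons (Pq.L [] 1 (Pf.C 88 128))
 (Pq.cons (Pq.L [] 1 (Pf.C 5 128))
 Pq.nil))))))))))))
theorem e3_o12 : AllRef e3_T e3_G33 (splitObl [35,42,44,40] [43,45,41]) :=
  chkPq_sound e3_o12c _ (by decide +kernel)
noncomputable def e3_o13c : Pq := (Pq.cons (Pq.D 0 (Pq.cons (Pq.D 1 (Pq.cons (Pq.L [] 1 (Pf.C 2 128))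
 (Pq.cons (Pq.L [] 1 (Pf.C 22 128))
 (Pq.cons (Pq.L [] 1 (Pf.C 26 128))
 (Pq.cons (Pq.D 2 (Pq.cons (Pq.L [] 2 (Pf.C 2 256))
 (Pq.cons (Pq.L [] 2 (Pf.C 22 256))
 (Pq.cons (Pq.L [] 2 (Pf.C 26 256))
 (Pq.cons (Pq.L [] 4 (Pf.C 5 257))
 Pq.nil))))) Pq.nil))))) (Pq.cons (Pq.D 1 (Pq.cons (Pq.L [] 1 (Pf.C 22 1))
 (Pq.cons (Pq.L [] 1 (Pf.C 3 128))
 (Pq.cons (Pq.D 2 (Pq.cons (Pq.L [] 2 (Pf.C 22 2))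
 (Pq.cons (Pq.L [] 2 (Pf.C 3 256))
 (Pq.cons (Pq.L [] 4 (Pf.C 4 257))
 (Pq.cons (Pq.L [] 1 (Pf.W 83 2 [] [0,1] (Pf.cons (Pf.B 3 1 (Pf.C 26 131) (Pf.B 3 0 (Pf.C 22 3) (Pf.C 70 16387))) Pf.nil)))
 Pq.nil))))) (Pq.cons (Pq.D 2 (Pq.cons (Pq.L [] 2 (Pf.C 22 2))
 (Pq.cons (Pq.L [] 2 (Pf.C 3 256))
 (Pq.cons (Pq.L [] 2 (Pf.W 83 1 [] [0,2] (Pf.cons (Pf.B 3 2 (Pf.C 26 259) (Pf.B 3 0 (Pf.C 22 3) (Pf.C 70 32771))) Pf.nil)))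
 (Pq.cons (Pq.L [] 4 (Pf.C 5 257))
 Pq.nil))))) Pq.nil))))) (Pq.cons (Pq.D 1 (Pq.cons (Pq.L [] 1 (Pf.C 26 1))
 (Pq.cons (Pq.D 2 (Pq.cons (Pq.L [] 2 (Pf.C 26 2))
 (Pq.cons (Pq.L [] 4 (Pf.C 3 257))
 (Pq.cons (Pq.L [] 2 (Pf.C 4 256))
 (Pq.cons (Pq.L [] 1 (Pf.W 83 2 [] [0,1] (Pf.cons (Pf.B 3 1 (Pf.C 22 131) (Pf.B 3 0 (Pf.C 26 3) (Pf.C 70 131))) Pf.nil)))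
 Pq.nil))))) (Pq.cons (Pq.L [] 1 (Pf.C 4 128))
 (Pq.cons (Pq.D 2 (Pq.cons (Pq.L [] 2 (Pf.C 26 2))
 (Pq.cons (Pq.L [] 2 (Pf.W 83 1 [] [0,2] (Pf.cons (Pf.B 3 2 (Pf.C 22 259) (Pf.B 3 0 (Pf.C 26 3) (Pf.C 70 259))) Pf.nil)))
 (Pq.cons (Pq.L [] 2 (Pf.C 4 256))
 (Pq.cons (Pq.L [] 4 (Pf.C 5 257))
 Pq.nil))))) Pq.nil))))) (Pq.cons (Pq.D 1 (Pq.cons (Pq.D 2 (Pq.cons (Pq.L [] 4 (Pf.C 2 257))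
 (Pq.cons (Pq.L [] 4 (Pf.C 22 257))
 (Pq.cons (Pq.L [] 4 (Pf.C 26 257))
 (Pq.cons (Pq.L [] 2 (Pf.C 5 256))
 Pq.nil))))) (Pq.cons (Pq.D 2 (Pq.cons (Pq.L [] 4 (Pf.C 22 130))
 (Pq.cons (Pq.L [] 4 (Pf.C 3 257))
 (Pq.cons (Pq.L [] 4 (Pf.W 83 0 [] [1,2] (Pf.cons (Pf.B 3 2 (Pf.C 26 259) (Pf.B 3 1 (Pf.C 22 131) (Pf.C 70 32899))) Pf.nil)))
 (Pq.cons (Pq.L [] 2 (Pf.C 5 256))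
 Pq.nil))))) (Pq.cons (Pq.D 2 (Pq.cons (Pq.L [] 4 (Pf.C 26 130))
 (Pq.cons (Pq.L [] 4 (Pf.W 83 0 [] [1,2] (Pf.cons (Pf.B 3 2 (Pf.C 22 259) (Pf.B 3 1 (Pf.C 26 131) (Pf.C 70 16643))) Pf.nil)))
 (Pq.cons (Pq.L [] 4 (Pf.C 4 257))
 (Pq.cons (Pq.L [] 2 (Pf.C 5 256))
 Pq.nil))))) (Pq.cons (Pq.L [] 1 (Pf.C 5 128))
 Pq.nil))))) Pq.nil))))) (Pq.cons (Pq.D 0 (Pq.cons (Pq.D 1 (Pq.cons (Pq.D 2 (Pq.cons (Pq.L [] 64 (Pf.C 2 257))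
 (Pq.cons (Pq.L [] 64 (Pf.C 22 257))
 (Pq.cons (Pq.L [] 64 (Pf.C 26 257))
 (Pq.cons (Pq.D 3 (Pq.cons (Pq.L [] 2247 (Pf.C 9 0x604100))
 (Pq.cons (Pq.L [] 128 (Pf.C 22 385))
 (Pq.cons (Pq.L [] 128 (Pf.C 26 385))
 (Pq.cons (Pq.L [] 2247 (Pf.C 9 0x604100))
 Pq.nil))))) Pq.nil))))) (Pq.cons (Pq.D 2 (Pq.cons (Pq.L [] 64 (Pf.C 22 130))
 (Pq.cons (Pq.L [] 64 (Pf.C 3 257))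
 (Pq.cons (Pq.L [] 67 (Pf.C 70 32896))
 (Pq.cons (Pq.D 3 (Pq.cons (Pq.L [] 128 (Pf.C 22 131))
 (Pq.cons (Pq.L [] 128 (Pf.C 3 385))
 (Pq.cons (Pq.L [] 133 (Pf.C 70 49280))
 (Pq.cons (Pq.D 4 (Pq.cons (Pq.L [] 256 (Pf.C 22 132))
 (Pq.cons (Pq.L [] 256 (Pf.C 3 513))
 (Pq.cons (Pq.L [] 265 (Pf.C 70 65664))
 (Pq.cons (Pq.D 5 (Pq.cons (Pq.D 6 (Pq.cons (Pq.L [] 0x1c0038 (Pf.C 9 0xc14200))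
 (Pq.cons (Pq.L [] 0x106032 (Pf.C 10 0x418005))
 (Pq.cons (Pq.L [] 0x106032 (Pf.C 11 0x418005))
 (Pq.cons (Pq.L [] 0x1c0038 (Pf.C 9 0xc14200))
 Pq.nil))))) (Pq.cons (Pq.L [] 0x40300 (Pf.W 83 4 [] [1,5] (Pf.cons (Pf.B 7 5 (Pf.C 22 647) (Pf.B 7 1 (Pf.C 22 135) (Pf.C 0 0xa10381))) Pf.nil)))
 (Pq.cons (Pq.L [] 0x40300 (Pf.W 83 4 [] [1,5] (Pf.cons (Pf.B 7 5 (Pf.C 26 647) (Pf.B 7 1 (Pf.C 22 135) (Pf.C 0 0xa10381))) Pf.nil)))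
 (Pq.cons (Pq.L [] 0x40000 (Pf.C 5 644))
 Pq.nil))))) Pq.nil))))) Pq.nil))))) Pq.nil))))) (Pq.cons (Pq.D 2 (Pq.cons (Pq.L [] 64 (Pf.C 26 130))
 (Pq.cons (Pq.L [] 67 (Pf.C 70 16640))
 (Pq.cons (Pq.L [] 64 (Pf.C 4 257))
 (Pq.cons (Pq.D 3 (Pq.cons (Pq.L [] 128 (Pf.C 26 131))
 (Pq.cons (Pq.L [] 133 (Pf.C 70 16768))
 (Pq.cons (Pq.L [] 128 (Pf.C 4 385))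
 (Pq.cons (Pq.D 4 (Pq.cons (Pq.L [] 256 (Pf.C 26 132))
 (Pq.cons (Pq.L [] 265 (Pf.C 70 16896))
 (Pq.cons (Pq.L [] 256 (Pf.C 4 513))
 (Pq.cons (Pq.D 5 (Pq.cons (Pq.D 6 (Pq.cons (Pq.L [] 0x1c0038 (Pf.C 9 0xc14200))
 (Pq.cons (Pq.L [] 0x106032 (Pf.C 10 0x418005))
 (Pq.cons (Pq.L [] 0x106032 (Pf.C 11 0x418005))
 (Pq.cons (Pq.L [] 0x1c0038 (Pf.C 9 0xc14200))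
 Pq.nil))))) (Pq.cons (Pq.L [] 0x40300 (Pf.W 83 4 [] [1,5] (Pf.cons (Pf.B 7 5 (Pf.C 22 647) (Pf.B 7 1 (Pf.C 26 135) (Pf.C 0 0xa10381))) Pf.nil)))
 (Pq.cons (Pq.L [] 0x40300 (Pf.W 83 4 [] [1,5] (Pf.cons (Pf.B 7 5 (Pf.C 26 647) (Pf.B 7 1 (Pf.C 26 135) (Pf.C 0 0xa10381))) Pf.nil)))
 (Pq.cons (Pq.L [] 0x40000 (Pf.C 5 644))
 Pq.nil))))) Pq.nil))))) Pq.nil))))) Pq.nil))))) (Pq.cons (Pq.D 2 (Pq.cons (Pq.D 3 (Pq.cons (Pq.L [] 2247 (Pf.C 9 0x604100))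
 (Pq.cons (Pq.D 4 (Pq.cons (Pq.L [] 4427 (Pf.C 9 0x804100))
 (Pq.cons (Pq.L [] 39360 (Pf.C 0 0x808083))
 (Pq.cons (Pq.L [] 39360 (Pf.C 0 0x808083))
 (Pq.cons (Pq.L [] 4427 (Pf.C 9 0x804100))
 Pq.nil))))) (Pq.cons (Pq.D 4 (Pq.cons (Pq.L [] 4427 (Pf.C 9 0x804100))
 (Pq.cons (Pq.L [] 39360 (Pf.C 0 0x808083))
 (Pq.cons (Pq.L [] 39360 (Pf.C 0 0x808083))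
 (Pq.cons (Pq.L [] 4427 (Pf.C 9 0x804100))
 Pq.nil))))) (Pq.cons (Pq.L [] 2247 (Pf.C 9 0x604100))
 Pq.nil))))) (Pq.cons (Pq.D 3 (Pq.cons (Pq.D 4 (Pq.cons (Pq.L [] 33165 (Pf.C 9 0x804180))
 (Pq.cons (Pq.L [] 39360 (Pf.C 0 0x80c082))
 (Pq.cons (Pq.L [] 39360 (Pf.C 0 0x80c082))
 (Pq.cons (Pq.L [] 33165 (Pf.C 9 0x804180))
 Pq.nil))))) (Pq.cons (Pq.L [] 39360 (Pf.B 4 3 (Pf.B 4 2 (Pf.W 83 1 [] [2,3] (Pf.cons (Pf.B 7 3 (Pf.C 22 391) (Pf.B 7 2 (Pf.C 22 263) (Pf.C 0 0x604382))) Pf.nil)) (Pf.W 83 1 [] [2,3,4] (Pf.cons (Pf.C 22 388) (Pf.cons (Pf.B 7 3 (Pf.C 22 391) (Pf.B 7 4 (Pf.B 7 2 (Pf.C 22 263) (Pf.C 0 0x804107)) (Pf.C 0 0x604384))) Pf.nil)))) (Pf.B 4 2 (Pf.W 83 1 [] [2,3] (Pf.cons (Pf.B 7 3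 (Pf.C 22 391) (Pf.B 7 2 (Pf.C 22 263) (Pf.C 0 0x604382))) Pf.nil)) (Pf.C 0 0x604202))))
 (Pq.cons (Pq.L [] 39360 (Pf.B 4 3 (Pf.B 4 2 (Pf.W 83 1 [] [2,3] (Pf.cons (Pf.B 7 3 (Pf.C 26 391) (Pf.B 7 2 (Pf.C 22 263) (Pf.C 0 0x604382))) Pf.nil)) (Pf.W 83 1 [] [2,3,4] (Pf.cons (Pf.C 26 388) (Pf.cons (Pf.B 7 3 (Pf.C 26 391) (Pf.B 7 4 (Pf.B 7 2 (Pf.C 22 263) (Pf.C 0 0x804107)) (Pf.C 0 0x604384))) Pf.nil)))) (Pf.B 4 2 (Pf.W 83 1 [] [2,3] (Pf.cons (Pf.B 7 3 (Pf.C 26 391) (Pf.B 7 2 (Pf.C 22 263) (Pf.C 0 0x604382))) Pf.nil)) (Pf.C 0 0x604202))))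
 (Pq.cons (Pq.L [] 128 (Pf.C 5 385))
 Pq.nil))))) (Pq.cons (Pq.D 3 (Pq.cons (Pq.D 4 (Pq.cons (Pq.L [] 33165 (Pf.C 9 0x804180))
 (Pq.cons (Pq.L [] 39360 (Pf.C 0 0x80c082))
 (Pq.cons (Pq.L [] 39360 (Pf.C 0 0x80c082))
 (Pq.cons (Pq.L [] 33165 (Pf.C 9 0x804180))
 Pq.nil))))) (Pq.cons (Pq.L [] 39360 (Pf.B 4 3 (Pf.W 83 1 [] [2,3] (Pf.cons (Pf.B 7 3 (Pf.C 22 391) (Pf.B 7 2 (Pf.C 26 263) (Pf.C 0 0x604382))) Pf.nil)) (Pf.B 4 2 (Pf.W 83 1 [] [2,3] (Pf.cons (Pf.B 7 3 (Pf.C 22 391) (Pf.B 7 2 (Pf.C 26 263) (Pf.C 0 0x604382))) Pf.nil)) (Pf.C 0 0x604202))))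
 (Pq.cons (Pq.L [] 39360 (Pf.B 4 3 (Pf.B 4 2 (Pf.W 83 1 [] [2,3] (Pf.cons (Pf.B 7 3 (Pf.C 26 391) (Pf.B 7 2 (Pf.C 26 263) (Pf.C 0 0x604382))) Pf.nil)) (Pf.W 83 1 [] [2,3,4] (Pf.cons (Pf.C 26 388) (Pf.cons (Pf.B 7 3 (Pf.C 26 391) (Pf.B 7 4 (Pf.B 7 2 (Pf.C 26 263) (Pf.C 0 0x804107)) (Pf.C 0 0x604384))) Pf.nil)))) (Pf.B 4 2 (Pf.W 83 1 [] [2,3] (Pf.cons (Pf.B 7 3 (Pf.C 26 391) (Pf.B 7 2 (Pf.C 26 263) (Pf.C 0 0x604382))) Pf.nil)) (Pf.C 0 0x604202))))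
 (Pq.cons (Pq.L [] 128 (Pf.C 5 385))
 Pq.nil))))) (Pq.cons (Pq.L [] 64 (Pf.C 5 257))
 Pq.nil))))) Pq.nil))))) (Pq.cons (Pq.D 1 (Pq.cons (Pq.D 2 (Pq.cons (Pq.L [] 64 (Pf.C 2 257))
 (Pq.cons (Pq.L [] 64 (Pf.C 22 257))
 (Pq.cons (Pq.L [] 64 (Pf.C 26 257))
 (Pq.cons (Pq.D 3 (Pq.cons (Pq.L [] 128 (Pf.C 2 385))
 (Pq.cons (Pq.L [] 128 (Pf.C 22 385))
 (Pq.cons (Pq.L [] 2054 (Pf.C 6 33152))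
 (Pq.cons (Pq.D 4 (Pq.cons (Pq.L [] 256 (Pf.C 2 513))
 (Pq.cons (Pq.L [] 256 (Pf.C 22 513))
 (Pq.cons (Pq.L [] 4106 (Pf.C 6 33280))
 (Pq.cons (Pq.L [] 33152 (Pf.B 6 1 (Pf.W 33 1 [] [3,4] (Pf.cons (Pf.B 7 4 (Pf.B 7 3 (Pf.C 9 0x804187) (Pf.C 5 391)) (Pf.C 5 519)) Pf.nil)) (Pf.W 33 1 [] [3,4] (Pf.cons (Pf.B 7 4 (Pf.B 7 3 (Pf.C 9 0x804187) (Pf.C 5 391)) (Pf.C 5 519)) Pf.nil))))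
 Pq.nil))))) Pq.nil))))) Pq.nil))))) (Pq.cons (Pq.D 2 (Pq.cons (Pq.L [] 64 (Pf.C 22 130))
 (Pq.cons (Pq.L [] 64 (Pf.C 3 257))
 (Pq.cons (Pq.D 3 (Pq.cons (Pq.L [] 128 (Pf.C 22 131))
 (Pq.cons (Pq.L [] 128 (Pf.C 3 385))
 (Pq.cons (Pq.D 4 (Pq.cons (Pq.L [] 256 (Pf.C 22 132))
 (Pq.cons (Pq.L [] 256 (Pf.C 3 513))
 (Pq.cons (Pq.D 5 (Pq.cons (Pq.L [] 8768 (Pf.C 70 32901))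
 (Pq.cons (Pq.D 6 (Pq.cons (Pq.L [] 0x100631 (Pf.C 7 0x218005))
 (Pq.cons (Pq.L [] 0x106032 (Pf.C 12 0x418280))
 (Pq.cons (Pq.L [] 0x136ef7 (Pf.C 1 0x1810418280))
 (Pq.cons (Pq.L [] 16418 (Pf.C 6 98560))
 Pq.nil))))) (Pq.cons (Pq.L [] 0x4301a (Pf.C 14 82434))
 (Pq.cons (Pq.L [] 8210 (Pf.C 6 82176))
 Pq.nil))))) (Pq.cons (Pq.L [] 4106 (Pf.C 6 65792))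
 Pq.nil))))) (Pq.cons (Pq.L [] 2054 (Pf.C 6 49408))
 Pq.nil))))) (Pq.cons (Pq.D 3 (Pq.cons (Pq.L [] 128 (Pf.C 22 131))
 (Pq.cons (Pq.L [] 128 (Pf.C 3 385))
 (Pq.cons (Pq.L [] 2054 (Pf.C 6 33152))
 (Pq.cons (Pq.D 4 (Pq.cons (Pq.L [] 39375 (Pf.C 17 0x30208200))
 (Pq.cons (Pq.L [] 256 (Pf.C 3 513))
 (Pq.cons (Pq.L [] 4106 (Pf.C 6 33280))
 (Pq.cons (Pq.D 5 (Pq.cons (Pq.D 6 (Pq.cons (Pq.L [] 0x100631 (Pf.C 0 0x218280))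
 (Pq.cons (Pq.L [] 0x100631 (Pf.C 7 0x214006))
 (Pq.cons (Pq.L [] 16418 (Pf.C 6 33536))
 (Pq.cons (Pq.L [] 0x1c7000 (Pf.C 9 0xc14202))
 Pq.nil))))) (Pq.cons (Pq.L [] 0x40300 (Pf.W 83 4 [] [1,5] (Pf.cons (Pf.B 7 5 (Pf.C 22 647) (Pf.B 7 1 (Pf.C 22 135) (Pf.C 0 0xa10381))) Pf.nil)))
 (Pq.cons (Pq.L [] 8210 (Pf.C 6 33408))
 (Pq.cons (Pq.L [] 0x4301a (Pf.C 15 82434))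
 Pq.nil))))) Pq.nil))))) Pq.nil))))) Pq.nil))))) (Pq.cons (Pq.D 2 (Pq.cons (Pq.L [] 64 (Pf.C 26 130))
 (Pq.cons (Pq.D 3 (Pq.cons (Pq.L [] 128 (Pf.C 26 131))
 (Pq.cons (Pq.D 4 (Pq.cons (Pq.L [] 256 (Pf.C 26 132))
 (Pq.cons (Pq.D 5 (Pq.cons (Pq.L [] 0x4301a (Pf.C 7 0x414004))
 (Pq.cons (Pq.L [] 0x40000 (Pf.C 3 644))
 (Pq.cons (Pq.D 6 (Pq.cons (Pq.L [] 17472 (Pf.C 70 16646))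
 (Pq.cons (Pq.L [] 0x136ef7 (Pf.C 1 0x1810418280))
 (Pq.cons (Pq.L [] 0x100631 (Pf.C 14 98945))
 (Pq.cons (Pq.L [] 1057 (Pf.C 6 98432))
 Pq.nil))))) (Pq.cons (Pq.L [] 529 (Pf.C 6 82048))
 Pq.nil))))) (Pq.cons (Pq.L [] 256 (Pf.C 4 513))
 (Pq.cons (Pq.D 5 (Pq.cons (Pq.L [] 8768 (Pf.C 70 16645))
 (Pq.cons (Pq.L [] 64 (Pf.W 83 4 [] [1,2] (Pf.cons (Pf.B 7 2 (Pf.C 22 263) (Pf.B 7 1 (Pf.C 26 135) (Pf.C 70 16647))) Pf.nil)))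
 (Pq.cons (Pq.L [] 64 (Pf.W 83 4 [] [1,2] (Pf.cons (Pf.B 7 2 (Pf.C 22 263) (Pf.B 7 1 (Pf.C 26 135) (Pf.C 70 16647))) Pf.nil)))
 (Pq.cons (Pq.L [] 529 (Pf.C 6 82048))
 Pq.nil))))) Pq.nil))))) (Pq.cons (Pq.L [] 128 (Pf.C 4 385))
 (Pq.cons (Pq.L [] 64 (Pf.W 83 3 [] [1,2] (Pf.cons (Pf.B 7 2 (Pf.C 22 263) (Pf.B 7 1 (Pf.C 26 135) (Pf.C 70 16647))) Pf.nil)))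
 Pq.nil))))) (Pq.cons (Pq.L [] 64 (Pf.C 4 257))
 (Pq.cons (Pq.D 3 (Pq.cons (Pq.L [] 128 (Pf.C 26 131))
 (Pq.cons (Pq.L [] 128 (Pf.W 83 2 [] [1,3] (Pf.cons (Pf.B 7 3 (Pf.C 22 391) (Pf.B 7 1 (Pf.C 26 135) (Pf.C 70 16775))) Pf.nil)))
 (Pq.cons (Pq.L [] 2054 (Pf.C 6 33152))
 (Pq.cons (Pq.D 4 (Pq.cons (Pq.L [] 256 (Pf.C 26 132))
 (Pq.cons (Pq.L [] 256 (Pf.W 83 2 [] [1,4] (Pf.cons (Pf.B 7 4 (Pf.C 22 519) (Pf.B 7 1 (Pf.C 26 135) (Pf.C 70 16903))) Pf.nil)))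
 (Pq.cons (Pq.L [] 4106 (Pf.C 6 33280))
 (Pq.cons (Pq.D 5 (Pq.cons (Pq.D 6 (Pq.cons (Pq.L [] 0x100631 (Pf.C 0 0x218280))
 (Pq.cons (Pq.L [] 0x106032 (Pf.C 10 0x414006))
 (Pq.cons (Pq.L [] 16418 (Pf.C 6 33536))
 (Pq.cons (Pq.L [] 1057 (Pf.C 6 98432))
 Pq.nil))))) (Pq.cons (Pq.L [] 0x40300 (Pf.W 83 4 [] [1,5] (Pf.cons (Pf.B 7 5 (Pf.C 22 647) (Pf.B 7 1 (Pf.C 26 135) (Pf.C 0 0xa10381))) Pf.nil)))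
 (Pq.cons (Pq.L [] 8210 (Pf.C 6 33408))
 (Pq.cons (Pq.L [] 529 (Pf.C 6 82048))
 Pq.nil))))) Pq.nil))))) Pq.nil))))) Pq.nil))))) (Pq.cons (Pq.D 2 (Pq.cons (Pq.D 3 (Pq.cons (Pq.D 4 (Pq.cons (Pq.D 5 (Pq.cons (Pq.L [] 76480 (Pf.C 9 0x604105))
 (Pq.cons (Pq.L [] 0x5b800 (Pf.C 7 0x614104))
 (Pq.cons (Pq.L [] 529 (Pf.C 6 17024))
 (Pq.cons (Pq.L [] 76480 (Pf.C 9 0x604105))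
 Pq.nil))))) (Pq.cons (Pq.L [] 39360 (Pf.C 0 0x610082))
 (Pq.cons (Pq.L [] 39360 (Pf.C 0 0x610082))
 (Pq.cons (Pq.L [] 256 (Pf.C 5 513))
 Pq.nil))))) (Pq.cons (Pq.D 4 (Pq.cons (Pq.L [] 39360 (Pf.C 0 0x80c082))
 (Pq.cons (Pq.L [] 39360 (Pf.C 0 0x808083))
 (Pq.cons (Pq.L [] 39360 (Pf.C 0 0x808083))
 (Pq.cons (Pq.L [] 256 (Pf.C 5 513))
 Pq.nil))))) (Pq.cons (Pq.D 4 (Pq.cons (Pq.L [] 39360 (Pf.C 0 0x80c082))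
 (Pq.cons (Pq.L [] 39360 (Pf.C 0 0x808083))
 (Pq.cons (Pq.L [] 39360 (Pf.C 0 0x808083))
 (Pq.cons (Pq.L [] 32780 (Pf.C 6 65920))
 Pq.nil))))) (Pq.cons (Pq.L [] 128 (Pf.C 5 385))
 Pq.nil))))) (Pq.cons (Pq.D 3 (Pq.cons (Pq.D 4 (Pq.cons (Pq.L [] 39360 (Pf.C 0 0x808083))
 (Pq.cons (Pq.L [] 39360 (Pf.C 0 0x80c082))
 (Pq.cons (Pq.L [] 39360 (Pf.C 0 0x80c082))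
 (Pq.cons (Pq.L [] 256 (Pf.C 5 513))
 Pq.nil))))) (Pq.cons (Pq.D 4 (Pq.cons (Pq.L [] 39360 (Pf.C 0 0x610082))
 (Pq.cons (Pq.L [] 33152 (Pf.W 83 1 [] [3,4] (Pf.cons (Pf.B 7 4 (Pf.C 22 519) (Pf.B 7 3 (Pf.C 22 391) (Pf.C 0 0x804383))) Pf.nil)))
 (Pq.cons (Pq.L [] 33152 (Pf.W 83 1 [] [3,4] (Pf.cons (Pf.B 7 4 (Pf.C 26 519) (Pf.B 7 3 (Pf.C 22 391) (Pf.C 0 0x804383))) Pf.nil)))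
 (Pq.cons (Pq.L [] 256 (Pf.C 5 513))
 Pq.nil))))) (Pq.cons (Pq.D 4 (Pq.cons (Pq.L [] 39360 (Pf.C 0 0x610082))
 (Pq.cons (Pq.L [] 33152 (Pf.W 83 1 [] [3,4] (Pf.cons (Pf.B 7 4 (Pf.C 22 519) (Pf.B 7 3 (Pf.C 26 391) (Pf.C 0 0x804383))) Pf.nil)))
 (Pq.cons (Pq.L [] 33152 (Pf.W 83 1 [] [3,4] (Pf.cons (Pf.B 7 4 (Pf.C 26 519) (Pf.B 7 3 (Pf.C 26 391) (Pf.C 0 0x804383))) Pf.nil)))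
 (Pq.cons (Pq.L [] 32780 (Pf.C 6 65920))
 Pq.nil))))) (Pq.cons (Pq.L [] 128 (Pf.C 5 385))
 Pq.nil))))) (Pq.cons (Pq.D 3 (Pq.cons (Pq.D 4 (Pq.cons (Pq.L [] 39360 (Pf.C 0 0x808083))
 (Pq.cons (Pq.L [] 39360 (Pf.C 0 0x80c082))
 (Pq.cons (Pq.L [] 39360 (Pf.C 0 0x80c082))
 (Pq.cons (Pq.L [] 4106 (Pf.C 6 65792))
 Pq.nil))))) (Pq.cons (Pq.D 4 (Pq.cons (Pq.L [] 39360 (Pf.C 0 0x610082))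
 (Pq.cons (Pq.L [] 33152 (Pf.W 83 1 [] [3,4] (Pf.cons (Pf.B 7 4 (Pf.C 22 519) (Pf.B 7 3 (Pf.C 22 391) (Pf.C 0 0x804383))) Pf.nil)))
 (Pq.cons (Pq.L [] 33152 (Pf.W 83 1 [] [3,4] (Pf.cons (Pf.B 7 4 (Pf.C 26 519) (Pf.B 7 3 (Pf.C 22 391) (Pf.C 0 0x804383))) Pf.nil)))
 (Pq.cons (Pq.L [] 4106 (Pf.C 6 65792))
 Pq.nil))))) (Pq.cons (Pq.D 4 (Pq.cons (Pq.L [] 39360 (Pf.C 0 0x610082))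
 (Pq.cons (Pq.L [] 33152 (Pf.W 83 1 [] [3,4] (Pf.cons (Pf.B 7 4 (Pf.C 22 519) (Pf.B 7 3 (Pf.C 26 391) (Pf.C 0 0x804383))) Pf.nil)))
 (Pq.cons (Pq.L [] 33152 (Pf.W 83 1 [] [3,4] (Pf.cons (Pf.B 7 4 (Pf.C 26 519) (Pf.B 7 3 (Pf.C 26 391) (Pf.C 0 0x804383))) Pf.nil)))
 (Pq.cons (Pq.L [] 4106 (Pf.C 6 65792))
 Pq.nil))))) (Pq.cons (Pq.L [] 2054 (Pf.C 6 49408))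
 Pq.nil))))) (Pq.cons (Pq.L [] 64 (Pf.C 5 257))
 Pq.nil))))) Pq.nil))))) (Pq.cons (Pq.D 1 (Pq.cons (Pq.D 2 (Pq.cons (Pq.L [] 64 (Pf.C 2 257))
 (Pq.cons (Pq.L [] 64 (Pf.C 22 257))
 (Pq.cons (Pq.L [] 64 (Pf.C 26 257))
 (Pq.cons (Pq.D 3 (Pq.cons (Pq.L [] 128 (Pf.C 2 385))
 (Pq.cons (Pq.L [] 2054 (Pf.C 6 32771))
 (Pq.cons (Pq.L [] 128 (Pf.C 26 385))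
 (Pq.cons (Pq.D 4 (Pq.cons (Pq.L [] 256 (Pf.C 2 513))
 (Pq.cons (Pq.L [] 4106 (Pf.C 6 32772))
 (Pq.cons (Pq.L [] 256 (Pf.C 26 513))
 (Pq.cons (Pq.L [] 33152 (Pf.B 6 1 (Pf.W 33 1 [] [3,4] (Pf.cons (Pf.B 7 4 (Pf.B 7 3 (Pf.C 9 0x804187) (Pf.C 5 391)) (Pf.C 5 519)) Pf.nil)) (Pf.W 33 1 [] [3,4] (Pf.cons (Pf.B 7 4 (Pf.B 7 3 (Pf.C 9 0x804187) (Pf.C 5 391)) (Pf.C 5 519)) Pf.nil))))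
 Pq.nil))))) Pq.nil))))) Pq.nil))))) (Pq.cons (Pq.D 2 (Pq.cons (Pq.L [] 64 (Pf.C 22 130))
 (Pq.cons (Pq.L [] 64 (Pf.C 3 257))
 (Pq.cons (Pq.D 3 (Pq.cons (Pq.L [] 128 (Pf.C 22 131))
 (Pq.cons (Pq.L [] 128 (Pf.C 3 385))
 (Pq.cons (Pq.D 4 (Pq.cons (Pq.L [] 256 (Pf.C 22 132))
 (Pq.cons (Pq.L [] 256 (Pf.C 3 513))
 (Pq.cons (Pq.D 5 (Pq.cons (Pq.L [] 0x4301a (Pf.C 8 0x414004))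
 (Pq.cons (Pq.D 6 (Pq.cons (Pq.L [] 17472 (Pf.C 70 32902))
 (Pq.cons (Pq.L [] 0x100631 (Pf.C 12 98945))
 (Pq.cons (Pq.L [] 0x136ef7 (Pf.C 1 0x1810418280))
 (Pq.cons (Pq.L [] 1057 (Pf.C 6 98305))
 Pq.nil))))) (Pq.cons (Pq.L [] 0x40000 (Pf.C 4 644))
 (Pq.cons (Pq.L [] 529 (Pf.C 6 81921))
 Pq.nil))))) (Pq.cons (Pq.L [] 0x43340 (Pf.B 5 2 (Pf.W 83 4 [] [1,2] (Pf.cons (Pf.B 7 2 (Pf.C 26 263) (Pf.B 7 1 (Pf.C 22 135) (Pf.C 70 32903))) Pf.nil)) (Pf.B 5 1 (Pf.W 83 4 [] [1,2] (Pf.cons (Pf.B 7 2 (Pf.C 26 263) (Pf.B 7 1 (Pf.C 22 135) (Pf.C 70 32903))) Pf.nil)) (Pf.C 0 0x804282))))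
 Pq.nil))))) (Pq.cons (Pq.L [] 64 (Pf.W 83 3 [] [1,2] (Pf.cons (Pf.B 7 2 (Pf.C 26 263) (Pf.B 7 1 (Pf.C 22 135) (Pf.C 70 32903))) Pf.nil)))
 Pq.nil))))) (Pq.cons (Pq.D 3 (Pq.cons (Pq.L [] 128 (Pf.C 22 131))
 (Pq.cons (Pq.L [] 2054 (Pf.C 6 32771))
 (Pq.cons (Pq.L [] 128 (Pf.W 83 2 [] [1,3] (Pf.cons (Pf.B 7 3 (Pf.C 26 391) (Pf.B 7 1 (Pf.C 22 135) (Pf.C 70 49287))) Pf.nil)))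
 (Pq.cons (Pq.D 4 (Pq.cons (Pq.L [] 256 (Pf.C 22 132))
 (Pq.cons (Pq.L [] 4106 (Pf.C 6 32772))
 (Pq.cons (Pq.L [] 256 (Pf.W 83 2 [] [1,4] (Pf.cons (Pf.B 7 4 (Pf.C 26 519) (Pf.B 7 1 (Pf.C 22 135) (Pf.C 70 65671))) Pf.nil)))
 (Pq.cons (Pq.D 5 (Pq.cons (Pq.D 6 (Pq.cons (Pq.L [] 0x100631 (Pf.C 0 0x218280))
 (Pq.cons (Pq.L [] 16418 (Pf.C 6 32774))
 (Pq.cons (Pq.L [] 0x106032 (Pf.C 11 0x414006))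
 (Pq.cons (Pq.L [] 1057 (Pf.C 6 98305))
 Pq.nil))))) (Pq.cons (Pq.L [] 8210 (Pf.C 6 32773))
 (Pq.cons (Pq.L [] 0x40300 (Pf.W 83 4 [] [1,5] (Pf.cons (Pf.B 7 5 (Pf.C 26 647) (Pf.B 7 1 (Pf.C 22 135) (Pf.C 0 0xa10381))) Pf.nil)))
 (Pq.cons (Pq.L [] 529 (Pf.C 6 81921))
 Pq.nil))))) Pq.nil))))) Pq.nil))))) Pq.nil))))) (Pq.cons (Pq.D 2 (Pq.cons (Pq.L [] 64 (Pf.C 26 130))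
 (Pq.cons (Pq.D 3 (Pq.cons (Pq.L [] 128 (Pf.C 26 131))
 (Pq.cons (Pq.D 4 (Pq.cons (Pq.L [] 256 (Pf.C 26 132))
 (Pq.cons (Pq.D 5 (Pq.cons (Pq.L [] 8768 (Pf.C 70 16645))
 (Pq.cons (Pq.L [] 0x4301a (Pf.C 12 82434))
 (Pq.cons (Pq.D 6 (Pq.cons (Pq.L [] 0x100631 (Pf.C 8 0x218005))
 (Pq.cons (Pq.L [] 0x136ef7 (Pf.C 1 0x1810418280))
 (Pq.cons (Pq.L [] 0x106032 (Pf.C 14 0x418280))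
 (Pq.cons (Pq.L [] 16418 (Pf.C 6 98306))
 Pq.nil))))) (Pq.cons (Pq.L [] 8210 (Pf.C 6 81922))
 Pq.nil))))) (Pq.cons (Pq.L [] 256 (Pf.C 4 513))
 (Pq.cons (Pq.L [] 4106 (Pf.C 6 65538))
 Pq.nil))))) (Pq.cons (Pq.L [] 128 (Pf.C 4 385))
 (Pq.cons (Pq.L [] 2054 (Pf.C 6 49154))
 Pq.nil))))) (Pq.cons (Pq.L [] 64 (Pf.C 4 257))
 (Pq.cons (Pq.D 3 (Pq.cons (Pq.L [] 128 (Pf.C 26 131))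
 (Pq.cons (Pq.L [] 2054 (Pf.C 6 32771))
 (Pq.cons (Pq.L [] 128 (Pf.C 4 385))
 (Pq.cons (Pq.D 4 (Pq.cons (Pq.L [] 39375 (Pf.C 18 0x30208200))
 (Pq.cons (Pq.L [] 4106 (Pf.C 6 32772))
 (Pq.cons (Pq.L [] 256 (Pf.C 4 513))
 (Pq.cons (Pq.D 5 (Pq.cons (Pq.D 6 (Pq.cons (Pq.L [] 0x100631 (Pf.C 0 0x218280))
 (Pq.cons (Pq.L [] 16418 (Pf.C 6 32774))
 (Pq.cons (Pq.L [] 0x100631 (Pf.C 8 0x214006))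
 (Pq.cons (Pq.L [] 0x1c7000 (Pf.C 9 0xc14202))
 Pq.nil))))) (Pq.cons (Pq.L [] 8210 (Pf.C 6 32773))
 (Pq.cons (Pq.L [] 0x40300 (Pf.W 83 4 [] [1,5] (Pf.cons (Pf.B 7 5 (Pf.C 26 647) (Pf.B 7 1 (Pf.C 26 135) (Pf.C 0 0xa10381))) Pf.nil)))
 (Pq.cons (Pq.L [] 0x4301a (Pf.C 13 82434))
 Pq.nil))))) Pq.nil))))) Pq.nil))))) Pq.nil))))) (Pq.cons (Pq.D 2 (Pq.cons (Pq.D 3 (Pq.cons (Pq.D 4 (Pq.cons (Pq.D 5 (Pq.cons (Pq.L [] 76480 (Pf.C 9 0x604105))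
 (Pq.cons (Pq.L [] 529 (Pf.C 6 16389))
 (Pq.cons (Pq.L [] 0x5b800 (Pf.C 8 0x614104))
 (Pq.cons (Pq.L [] 76480 (Pf.C 9 0x604105))
 Pq.nil))))) (Pq.cons (Pq.L [] 39360 (Pf.C 0 0x610082))
 (Pq.cons (Pq.L [] 39360 (Pf.C 0 0x610082))
 (Pq.cons (Pq.L [] 256 (Pf.C 5 513))
 Pq.nil))))) (Pq.cons (Pq.D 4 (Pq.cons (Pq.L [] 39360 (Pf.C 0 0x80c082))
 (Pq.cons (Pq.L [] 39360 (Pf.C 0 0x808083))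
 (Pq.cons (Pq.L [] 39360 (Pf.C 0 0x808083))
 (Pq.cons (Pq.L [] 32780 (Pf.C 6 65539))
 Pq.nil))))) (Pq.cons (Pq.D 4 (Pq.cons (Pq.L [] 39360 (Pf.C 0 0x80c082))
 (Pq.cons (Pq.L [] 39360 (Pf.C 0 0x808083))
 (Pq.cons (Pq.L [] 39360 (Pf.C 0 0x808083))
 (Pq.cons (Pq.L [] 256 (Pf.C 5 513))
 Pq.nil))))) (Pq.cons (Pq.L [] 128 (Pf.C 5 385))
 Pq.nil))))) (Pq.cons (Pq.D 3 (Pq.cons (Pq.D 4 (Pq.cons (Pq.L [] 39360 (Pf.C 0 0x808083))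
 (Pq.cons (Pq.L [] 39360 (Pf.C 0 0x80c082))
 (Pq.cons (Pq.L [] 39360 (Pf.C 0 0x80c082))
 (Pq.cons (Pq.L [] 4106 (Pf.C 6 65538))
 Pq.nil))))) (Pq.cons (Pq.L [] 39360 (Pf.B 4 3 (Pf.B 4 2 (Pf.W 83 1 [] [2,3] (Pf.cons (Pf.B 7 3 (Pf.C 22 391) (Pf.B 7 2 (Pf.C 22 263) (Pf.C 0 0x604382))) Pf.nil)) (Pf.W 83 1 [] [2,3,4] (Pf.cons (Pf.C 22 388) (Pf.cons (Pf.B 7 3 (Pf.C 22 391) (Pf.B 7 4 (Pf.B 7 2 (Pf.C 22 263) (Pf.C 0 0x804107)) (Pf.C 0 0x604384))) Pf.nil)))) (Pf.B 4 2 (Pf.W 83 1 [] [2,3] (Pf.cons (Pf.B 7 3 (Pf.C 22 391) (Pf.B 7 2 (Pf.C 22 263) (Pf.C 0 0x604382))) Pf.nil)) (Pf.C 0 0x604202))))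
 (Pq.cons (Pq.D 4 (Pq.cons (Pq.L [] 39360 (Pf.C 0 0x610082))
 (Pq.cons (Pq.L [] 33152 (Pf.W 83 1 [] [3,4] (Pf.cons (Pf.B 7 4 (Pf.C 22 519) (Pf.B 7 3 (Pf.C 26 391) (Pf.C 0 0x804383))) Pf.nil)))
 (Pq.cons (Pq.L [] 33152 (Pf.W 83 1 [] [3,4] (Pf.cons (Pf.B 7 4 (Pf.C 26 519) (Pf.B 7 3 (Pf.C 26 391) (Pf.C 0 0x804383))) Pf.nil)))
 (Pq.cons (Pq.L [] 4106 (Pf.C 6 65538))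
 Pq.nil))))) (Pq.cons (Pq.L [] 2054 (Pf.C 6 49154))
 Pq.nil))))) (Pq.cons (Pq.D 3 (Pq.cons (Pq.D 4 (Pq.cons (Pq.L [] 39360 (Pf.C 0 0x808083))
 (Pq.cons (Pq.L [] 39360 (Pf.C 0 0x80c082))
 (Pq.cons (Pq.L [] 39360 (Pf.C 0 0x80c082))
 (Pq.cons (Pq.L [] 256 (Pf.C 5 513))
 Pq.nil))))) (Pq.cons (Pq.L [] 39360 (Pf.B 4 3 (Pf.W 83 1 [] [2,3] (Pf.cons (Pf.B 7 3 (Pf.C 22 391) (Pf.B 7 2 (Pf.C 26 263) (Pf.C 0 0x604382))) Pf.nil)) (Pf.B 4 2 (Pf.W 83 1 [] [2,3] (Pf.cons (Pf.B 7 3 (Pf.C 22 391) (Pf.B 7 2 (Pf.C 26 263) (Pf.C 0 0x604382))) Pf.nil)) (Pf.C 0 0x604202))))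
 (Pq.cons (Pq.D 4 (Pq.cons (Pq.L [] 39360 (Pf.C 0 0x610082))
 (Pq.cons (Pq.L [] 33152 (Pf.W 83 1 [] [3,4] (Pf.cons (Pf.B 7 4 (Pf.C 22 519) (Pf.B 7 3 (Pf.C 26 391) (Pf.C 0 0x804383))) Pf.nil)))
 (Pq.cons (Pq.L [] 33152 (Pf.W 83 1 [] [3,4] (Pf.cons (Pf.B 7 4 (Pf.C 26 519) (Pf.B 7 3 (Pf.C 26 391) (Pf.C 0 0x804383))) Pf.nil)))
 (Pq.cons (Pq.L [] 256 (Pf.C 5 513))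
 Pq.nil))))) (Pq.cons (Pq.L [] 128 (Pf.C 5 385))
 Pq.nil))))) (Pq.cons (Pq.L [] 64 (Pf.C 5 257))
 Pq.nil))))) Pq.nil))))) (Pq.cons (Pq.D 1 (Pq.cons (Pq.D 2 (Pq.cons (Pq.L [] 64 (Pf.C 2 257))
 (Pq.cons (Pq.L [] 64 (Pf.C 22 257))
 (Pq.cons (Pq.L [] 64 (Pf.C 26 257))
 (Pq.cons (Pq.D 3 (Pq.cons (Pq.L [] 2247 (Pf.C 9 0x604100))
 (Pq.cons (Pq.L [] 2247 (Pf.C 15 0x608080))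
 (Pq.cons (Pq.L [] 2247 (Pf.C 13 0x608080))
 (Pq.cons (Pq.L [] 2247 (Pf.C 9 0x604100))
 Pq.nil))))) Pq.nil))))) (Pq.cons (Pq.D 2 (Pq.cons (Pq.L [] 64 (Pf.C 22 130))
 (Pq.cons (Pq.L [] 64 (Pf.C 3 257))
 (Pq.cons (Pq.L [] 64 (Pf.W 83 0 [] [1,2] (Pf.cons (Pf.B 7 2 (Pf.C 26 263) (Pf.B 7 1 (Pf.C 22 135) (Pf.C 70 32903))) Pf.nil)))
 (Pq.cons (Pq.D 3 (Pq.cons (Pq.L [] 128 (Pf.C 22 131))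
 (Pq.cons (Pq.L [] 128 (Pf.C 3 385))
 (Pq.cons (Pq.L [] 128 (Pf.W 83 0 [] [1,3] (Pf.cons (Pf.B 7 3 (Pf.C 26 391) (Pf.B 7 1 (Pf.C 22 135) (Pf.C 70 49287))) Pf.nil)))
 (Pq.cons (Pq.D 4 (Pq.cons (Pq.L [] 256 (Pf.C 22 132))
 (Pq.cons (Pq.L [] 256 (Pf.C 3 513))
 (Pq.cons (Pq.L [] 256 (Pf.W 83 0 [] [1,4] (Pf.cons (Pf.B 7 4 (Pf.C 26 519) (Pf.B 7 1 (Pf.C 22 135) (Pf.C 70 65671))) Pf.nil)))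
 (Pq.cons (Pq.D 5 (Pq.cons (Pq.D 6 (Pq.cons (Pq.L [] 0x1c0038 (Pf.C 9 0xc14200))
 (Pq.cons (Pq.L [] 0x100631 (Pf.C 10 82054))
 (Pq.cons (Pq.L [] 1057 (Pf.C 6 769))
 (Pq.cons (Pq.L [] 0x1c0038 (Pf.C 9 0xc14200))
 Pq.nil))))) (Pq.cons (Pq.L [] 0x40300 (Pf.W 83 4 [] [1,5] (Pf.cons (Pf.B 7 5 (Pf.C 22 647) (Pf.B 7 1 (Pf.C 22 135) (Pf.C 0 0xa10381))) Pf.nil)))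
 (Pq.cons (Pq.L [] 529 (Pf.C 6 641))
 (Pq.cons (Pq.L [] 0x40000 (Pf.C 5 644))
 Pq.nil))))) Pq.nil))))) Pq.nil))))) Pq.nil))))) (Pq.cons (Pq.D 2 (Pq.cons (Pq.L [] 64 (Pf.C 26 130))
 (Pq.cons (Pq.L [] 64 (Pf.W 83 0 [] [1,2] (Pf.cons (Pf.B 7 2 (Pf.C 22 263) (Pf.B 7 1 (Pf.C 26 135) (Pf.C 70 16647))) Pf.nil)))
 (Pq.cons (Pq.L [] 64 (Pf.C 4 257))
 (Pq.cons (Pq.D 3 (Pq.cons (Pq.L [] 128 (Pf.C 26 131))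
 (Pq.cons (Pq.L [] 128 (Pf.W 83 0 [] [1,3] (Pf.cons (Pf.B 7 3 (Pf.C 22 391) (Pf.B 7 1 (Pf.C 26 135) (Pf.C 70 16775))) Pf.nil)))
 (Pq.cons (Pq.L [] 128 (Pf.C 4 385))
 (Pq.cons (Pq.D 4 (Pq.cons (Pq.L [] 256 (Pf.C 26 132))
 (Pq.cons (Pq.L [] 256 (Pf.W 83 0 [] [1,4] (Pf.cons (Pf.B 7 4 (Pf.C 22 519) (Pf.B 7 1 (Pf.C 26 135) (Pf.C 70 16903))) Pf.nil)))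
 (Pq.cons (Pq.L [] 256 (Pf.C 4 513))
 (Pq.cons (Pq.D 5 (Pq.cons (Pq.D 6 (Pq.cons (Pq.L [] 0x1c0038 (Pf.C 9 0xc14200))
 (Pq.cons (Pq.L [] 1057 (Pf.C 6 134))
 (Pq.cons (Pq.L [] 0x100631 (Pf.C 11 82054))
 (Pq.cons (Pq.L [] 0x1c0038 (Pf.C 9 0xc14200))
 Pq.nil))))) (Pq.cons (Pq.L [] 529 (Pf.C 6 133))
 (Pq.cons (Pq.L [] 0x40300 (Pf.W 83 4 [] [1,5] (Pf.cons (Pf.B 7 5 (Pf.C 26 647) (Pf.B 7 1 (Pf.C 26 135) (Pf.C 0 0xa10381))) Pf.nil)))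
 (Pq.cons (Pq.L [] 0x40000 (Pf.C 5 644))
 Pq.nil))))) Pq.nil))))) Pq.nil))))) Pq.nil))))) (Pq.cons (Pq.D 2 (Pq.cons (Pq.D 3 (Pq.cons (Pq.L [] 2247 (Pf.C 9 0x604100))
 (Pq.cons (Pq.D 4 (Pq.cons (Pq.L [] 4427 (Pf.C 9 0x804100))
 (Pq.cons (Pq.L [] 39360 (Pf.C 0 0x808083))
 (Pq.cons (Pq.L [] 32780 (Pf.C 6 515))
 (Pq.cons (Pq.L [] 4427 (Pf.C 9 0x804100))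
 Pq.nil))))) (Pq.cons (Pq.D 4 (Pq.cons (Pq.L [] 4427 (Pf.C 9 0x804100))
 (Pq.cons (Pq.L [] 32780 (Pf.C 6 388))
 (Pq.cons (Pq.L [] 39360 (Pf.C 0 0x808083))
 (Pq.cons (Pq.L [] 4427 (Pf.C 9 0x804100))
 Pq.nil))))) (Pq.cons (Pq.L [] 2247 (Pf.C 9 0x604100))
 Pq.nil))))) (Pq.cons (Pq.D 3 (Pq.cons (Pq.D 4 (Pq.cons (Pq.L [] 33165 (Pf.C 9 0x804180))
 (Pq.cons (Pq.L [] 39360 (Pf.C 0 0x80c082))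
 (Pq.cons (Pq.L [] 4106 (Pf.C 6 514))
 (Pq.cons (Pq.L [] 33165 (Pf.C 9 0x804180))
 Pq.nil))))) (Pq.cons (Pq.L [] 39360 (Pf.B 4 3 (Pf.B 4 2 (Pf.W 83 1 [] [2,3] (Pf.cons (Pf.B 7 3 (Pf.C 22 391) (Pf.B 7 2 (Pf.C 22 263) (Pf.C 0 0x604382))) Pf.nil)) (Pf.W 83 1 [] [2,3,4] (Pf.cons (Pf.C 22 388) (Pf.cons (Pf.B 7 3 (Pf.C 22 391) (Pf.B 7 4 (Pf.B 7 2 (Pf.C 22 263) (Pf.C 0 0x804107)) (Pf.C 0 0x604384))) Pf.nil)))) (Pf.B 4 2 (Pf.W 83 1 [] [2,3] (Pf.cons (Pf.B 7 3 (Pf.C 22 391) (Pf.B 7 2 (Pf.C 22 263) (Pf.C 0 0x604382))) Pf.nil)) (Pf.C 0 0x604202))))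
 (Pq.cons (Pq.L [] 2054 (Pf.C 6 386))
 (Pq.cons (Pq.L [] 128 (Pf.C 5 385))
 Pq.nil))))) (Pq.cons (Pq.D 3 (Pq.cons (Pq.D 4 (Pq.cons (Pq.L [] 33165 (Pf.C 9 0x804180))
 (Pq.cons (Pq.L [] 4106 (Pf.C 6 260))
 (Pq.cons (Pq.L [] 39360 (Pf.C 0 0x80c082))
 (Pq.cons (Pq.L [] 33165 (Pf.C 9 0x804180))
 Pq.nil))))) (Pq.cons (Pq.L [] 2054 (Pf.C 6 259))
 (Pq.cons (Pq.L [] 39360 (Pf.B 4 3 (Pf.B 4 2 (Pf.W 83 1 [] [2,3] (Pf.cons (Pf.B 7 3 (Pf.C 26 391) (Pf.B 7 2 (Pf.C 26 263) (Pf.C 0 0x604382))) Pf.nil)) (Pf.W 83 1 [] [2,3,4] (Pf.cons (Pf.C 26 388) (Pf.cons (Pf.B 7 3 (Pf.C 26 391) (Pf.B 7 4 (Pf.B 7 2 (Pf.C 26 263) (Pf.C 0 0x804107)) (Pf.C 0 0x604384))) Pf.nil)))) (Pf.B 4 2 (Pf.W 83 1 [] [2,3] (Pf.cons (Pf.B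 7 3 (Pf.C 26 391) (Pf.B 7 2 (Pf.C 26 263) (Pf.C 0 0x604382))) Pf.nil)) (Pf.C 0 0x604202))))
 (Pq.cons (Pq.L [] 128 (Pf.C 5 385))
 Pq.nil))))) (Pq.cons (Pq.L [] 64 (Pf.C 5 257))
 Pq.nil))))) Pq.nil))))) Pq.nil))))) Pq.nil))
theorem e3_o13 : AllRef e3_T e3_G33 (applyObl d_T 2 [35,42,44,40] [0,0,0,0] [(35,0x140000000000),(42,0x800000000),(44,0x800000000)]) :=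
  chkPq_sound e3_o13c _ (by decide +kernel)
noncomputable def e3_o14c : Pq := (Pq.cons (Pq.L [] 63 (Pf.C 0 0x608080))
 (Pq.cons (Pq.L [] 32767 (Pf.C 1 0x2840608080))
 (Pq.cons (Pq.L [] 1 (Pf.C 3 128))
 (Pq.cons (Pq.L [] 1 (Pf.C 4 128))
 (Pq.cons (Pq.L [] 1 (Pf.C 5 128))
 (Pq.cons (Pq.L [] 7 (Pf.C 6 32896))
 (Pq.cons (Pq.D 0 (Pq.cons (Pq.D 1 (Pq.cons (Pq.L [] 1 (Pf.C 3 128))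
 (Pq.cons (Pq.D 2 (Pq.cons (Pq.D 3 (Pq.cons (Pq.L [] 128 (Pf.C 3 386))
 (Pq.cons (Pq.D 4 (Pq.cons (Pq.L [] 1023 (Pf.C 16 0x40608080))
 (Pq.cons (Pq.L [] 1023 (Pf.C 16 0x40608080))
 Pq.nil))) Pq.nil))) (Pq.cons (Pq.D 3 (Pq.cons (Pq.D 4 (Pq.cons (Pq.L [] 1023 (Pf.C 16 0x40608080))
 (Pq.cons (Pq.L [] 1023 (Pf.C 16 0x40608080))
 Pq.nil))) (Pq.cons (Pq.L [] 128 (Pf.C 4 386))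
 Pq.nil))) Pq.nil))) Pq.nil))) (Pq.cons (Pq.D 1 (Pq.cons (Pq.D 2 (Pq.cons (Pq.D 3 (Pq.cons (Pq.L [] 128 (Pf.C 3 386))
 (Pq.cons (Pq.D 4 (Pq.cons (Pq.L [] 1023 (Pf.C 16 0x40608080))
 (Pq.cons (Pq.L [] 1023 (Pf.C 16 0x40608080))
 Pq.nil))) Pq.nil))) (Pq.cons (Pq.D 3 (Pq.cons (Pq.D 4 (Pq.cons (Pq.L [] 1023 (Pf.C 16 0x40608080))
 (Pq.cons (Pq.L [] 1023 (Pf.C 16 0x40608080))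
 Pq.nil))) (Pq.cons (Pq.L [] 128 (Pf.C 4 386))
 Pq.nil))) Pq.nil))) (Pq.cons (Pq.L [] 1 (Pf.C 4 128))
 Pq.nil))) Pq.nil))) (Pq.cons (Pq.D 0 (Pq.cons (Pq.D 1 (Pq.cons (Pq.L [] 1 (Pf.C 3 128))
 (Pq.cons (Pq.D 2 (Pq.cons (Pq.D 3 (Pq.cons (Pq.L [] 128 (Pf.C 3 386))
 (Pq.cons (Pq.D 4 (Pq.cons (Pq.L [] 1023 (Pf.C 17 0x40608080))
 (Pq.cons (Pq.L [] 1023 (Pf.C 17 0x40608080))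
 Pq.nil))) Pq.nil))) (Pq.cons (Pq.D 3 (Pq.cons (Pq.D 4 (Pq.cons (Pq.L [] 1023 (Pf.C 17 0x40608080))
 (Pq.cons (Pq.L [] 1023 (Pf.C 17 0x40608080))
 Pq.nil))) (Pq.cons (Pq.L [] 128 (Pf.C 5 386))
 Pq.nil))) Pq.nil))) Pq.nil))) (Pq.cons (Pq.D 1 (Pq.cons (Pq.D 2 (Pq.cons (Pq.D 3 (Pq.cons (Pq.L [] 128 (Pf.C 3 386))
 (Pq.cons (Pq.D 4 (Pq.cons (Pq.L [] 1023 (Pf.C 17 0x40608080))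
 (Pq.cons (Pq.L [] 1023 (Pf.C 17 0x40608080))
 Pq.nil))) Pq.nil))) (Pq.cons (Pq.D 3 (Pq.cons (Pq.D 4 (Pq.cons (Pq.L [] 1023 (Pf.C 17 0x40608080))
 (Pq.cons (Pq.L [] 1023 (Pf.C 17 0x40608080))
 Pq.nil))) (Pq.cons (Pq.L [] 128 (Pf.C 5 386))
 Pq.nil))) Pq.nil))) (Pq.cons (Pq.L [] 1 (Pf.C 5 128))
 Pq.nil))) Pq.nil))) (Pq.cons (Pq.D 0 (Pq.cons (Pq.D 1 (Pq.cons (Pq.L [] 1 (Pf.C 4 128))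
 (Pq.cons (Pq.D 2 (Pq.cons (Pq.D 3 (Pq.cons (Pq.L [] 128 (Pf.C 4 386))
 (Pq.cons (Pq.D 4 (Pq.cons (Pq.L [] 1023 (Pf.C 18 0x40608080))
 (Pq.cons (Pq.L [] 1023 (Pf.C 18 0x40608080))
 Pq.nil))) Pq.nil))) (Pq.cons (Pq.D 3 (Pq.cons (Pq.D 4 (Pq.cons (Pq.L [] 1023 (Pf.C 18 0x40608080))
 (Pq.cons (Pq.L [] 1023 (Pf.C 18 0x40608080))
 Pq.nil))) (Pq.cons (Pq.L [] 128 (Pf.C 5 386))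
 Pq.nil))) Pq.nil))) Pq.nil))) (Pq.cons (Pq.D 1 (Pq.cons (Pq.D 2 (Pq.cons (Pq.D 3 (Pq.cons (Pq.L [] 128 (Pf.C 4 386))
 (Pq.cons (Pq.D 4 (Pq.cons (Pq.L [] 1023 (Pf.C 18 0x40608080))
 (Pq.cons (Pq.L [] 1023 (Pf.C 18 0x40608080))
 Pq.nil))) Pq.nil))) (Pq.cons (Pq.D 3 (Pq.cons (Pq.D 4 (Pq.cons (Pq.L [] 1023 (Pf.C 18 0x40608080))
 (Pq.cons (Pq.L [] 1023 (Pf.C 18 0x40608080))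
 Pq.nil))) (Pq.cons (Pq.L [] 128 (Pf.C 5 386))
 Pq.nil))) Pq.nil))) (Pq.cons (Pq.L [] 1 (Pf.C 5 128))
 Pq.nil))) Pq.nil))) Pq.nil)))))))))
theorem e3_o14 : AllRef e3_T e3_G33 (applyObl e4_T 9 [43,45,41] [1,2,3] []) :=
  chkPq_sound e3_o14c _ (by decide +kernel)
noncomputable def e3_o15c : Pq := (Pq.cons (Pq.L [] 0 (Pf.W 82 0 [] [0] (Pf.cons (Pf.C 52 1) Pf.nil)))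
 Pq.nil)
theorem e3_o15 : AllRef e3_T e3_G29 (List.map pat1 [35]) :=
  chkPq_sound e3_o15c _ (by decide +kernel)
noncomputable def e3_o16c : Pq := (Pq.cons (Pq.L [] 2 (Pf.C 22 2))
 (Pq.cons (Pq.L [] 1 (Pf.C 90 128))
 (Pq.cons (Pq.L [] 2 (Pf.C 32 2))
 (Pq.cons (Pq.L [] 1 (Pf.C 3 128))
 (Pq.cons (Pq.L [] 3 (Pf.B 2 1 (Pf.W 91 1 [] [0,2] (Pf.cons (Pf.B 3 0 (Pf.B 3 2 (Pf.W 91 2 [] [0,1,3] (Pf.cons (Pf.B 4 3 (Pf.B 4 0 (Pf.B 4 1 (Pf.C 16 0x30200104) (Pf.W 89 4 [] [1,2] (Pf.cons (Pf.B 5 2 (Pf.C 22 261) (Pf.B 5 1 (Pf.C 22 133) (Pf.C 0 0x410281))) Pf.nil))) (Pf.C 4 4)) (Pf.C 4 388)) Pf.nil)) (Pf.W 89 3 [] [1,2] (Pf.cons (Pf.B 4 2 (Pf.C 22 260) (Pf.B 4 1 (Pf.C 22 132) (Pf.C 0 0x40c201))) Pf.nil)))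 (Pf.C 4 3)) Pf.nil)) (Pf.C 3 130)))
 (Pq.cons (Pq.L [] 1 (Pf.W 82 0 [] [0,1] (Pf.cons (Pf.B 3 1 (Pf.C 22 131) (Pf.B 3 0 (Pf.C 32 3) (Pf.C 69 131))) Pf.nil)))
 (Pq.cons (Pq.L [] 1 (Pf.C 92 128))
 (Pq.cons (Pq.L [] 1 (Pf.C 4 128))
 (Pq.cons (Pq.L [] 1 (Pf.C 94 128))
 (Pq.cons (Pq.L [] 1 (Pf.W 82 0 [] [0,1] (Pf.cons (Pf.B 3 1 (Pf.C 32 131) (Pf.B 3 0 (Pf.C 22 3) (Pf.C 69 16387))) Pf.nil)))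
 (Pq.cons (Pq.L [] 3 (Pf.B 2 1 (Pf.W 93 1 [] [0,2] (Pf.cons (Pf.B 3 0 (Pf.B 3 2 (Pf.W 93 2 [] [0,1,3] (Pf.cons (Pf.B 4 3 (Pf.B 4 0 (Pf.B 4 1 (Pf.C 18 0x30200104) (Pf.W 89 4 [] [1,2] (Pf.cons (Pf.B 5 2 (Pf.C 32 261) (Pf.B 5 1 (Pf.C 32 133) (Pf.C 0 0x410281))) Pf.nil))) (Pf.C 4 4)) (Pf.C 4 388)) Pf.nil)) (Pf.W 89 3 [] [1,2] (Pf.cons (Pf.B 4 2 (Pf.C 32 260) (Pf.B 4 1 (Pf.C 32 132) (Pf.C 0 0x40c201))) Pf.nil))) (Pf.C 4 3)) Pf.nil)) (Pf.C 5 130)))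
 (Pq.cons (Pq.L [] 1 (Pf.C 5 128))
 Pq.nil))))))))))))
theorem e3_o16 : AllRef e3_T e3_G37 (splitObl [39,48,46,50] [49,47,51]) :=
  chkPq_sound e3_o16c _ (by decide +kernel)
noncomputable def e3_o17c : Pq := (Pq.cons (Pq.D 0 (Pq.cons (Pq.D 1 (Pq.cons (Pq.L [] 1 (Pf.C 2 128))
 (Pq.cons (Pq.L [] 1 (Pf.C 22 128))
 (Pq.cons (Pq.D 2 (Pq.cons (Pq.L [] 2 (Pf.C 2 256))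
 (Pq.cons (Pq.L [] 2 (Pf.C 22 256))
 (Pq.cons (Pq.L [] 4 (Pf.C 4 257))
 (Pq.cons (Pq.L [] 2 (Pf.C 32 256))
 Pq.nil))))) (Pq.cons (Pq.L [] 1 (Pf.C 32 128))
 Pq.nil))))) (Pq.cons (Pq.D 1 (Pq.cons (Pq.L [] 1 (Pf.C 22 1))
 (Pq.cons (Pq.L [] 1 (Pf.C 3 128))
 (Pq.cons (Pq.D 2 (Pq.cons (Pq.L [] 2 (Pf.C 22 2))
 (Pq.cons (Pq.L [] 2 (Pf.C 3 256))
 (Pq.cons (Pq.L [] 4 (Pf.C 4 257))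
 (Pq.cons (Pq.L [] 2 (Pf.W 82 0 [] [0,2] (Pf.cons (Pf.B 3 2 (Pf.C 32 259) (Pf.B 3 0 (Pf.C 22 3) (Pf.C 69 32771))) Pf.nil)))
 Pq.nil))))) (Pq.cons (Pq.L [] 1 (Pf.B 2 1 (Pf.W 82 0 [] [0,1] (Pf.cons (Pf.B 3 1 (Pf.C 32 131) (Pf.B 3 0 (Pf.C 22 3) (Pf.C 69 16387))) Pf.nil)) (Pf.B 2 0 (Pf.W 82 0 [] [0,1] (Pf.cons (Pf.B 3 1 (Pf.C 32 131) (Pf.B 3 0 (Pf.C 22 3) (Pf.C 69 16387))) Pf.nil)) (Pf.W 82 0 [] [0,1] (Pf.cons (Pf.B 3 1 (Pf.C 32 131) (Pf.B 3 0 (Pf.C 22 3) (Pf.C 69 16387))) Pf.nil)))))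
 Pq.nil))))) (Pq.cons (Pq.D 1 (Pq.cons (Pq.D 2 (Pq.cons (Pq.L [] 4 (Pf.C 2 257))
 (Pq.cons (Pq.L [] 4 (Pf.C 22 257))
 (Pq.cons (Pq.L [] 2 (Pf.C 4 256))
 (Pq.cons (Pq.L [] 4 (Pf.C 32 257))
 Pq.nil))))) (Pq.cons (Pq.D 2 (Pq.cons (Pq.L [] 4 (Pf.C 22 130))
 (Pq.cons (Pq.L [] 4 (Pf.C 3 257))
 (Pq.cons (Pq.L [] 2 (Pf.C 4 256))
 (Pq.cons (Pq.L [] 4 (Pf.W 82 0 [] [1,2] (Pf.cons (Pf.B 3 2 (Pf.C 32 259) (Pf.B 3 1 (Pf.C 22 131) (Pf.C 69 32899))) Pf.nil)))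
 Pq.nil))))) (Pq.cons (Pq.L [] 1 (Pf.C 4 128))
 (Pq.cons (Pq.D 2 (Pq.cons (Pq.L [] 4 (Pf.C 32 130))
 (Pq.cons (Pq.L [] 4 (Pf.W 82 0 [] [1,2] (Pf.cons (Pf.B 3 2 (Pf.C 22 259) (Pf.B 3 1 (Pf.C 32 131) (Pf.C 69 16643))) Pf.nil)))
 (Pq.cons (Pq.L [] 2 (Pf.C 4 256))
 (Pq.cons (Pq.L [] 4 (Pf.C 5 257))
 Pq.nil))))) Pq.nil))))) (Pq.cons (Pq.D 1 (Pq.cons (Pq.L [] 1 (Pf.C 32 1))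
 (Pq.cons (Pq.L [] 1 (Pf.B 2 1 (Pf.W 82 0 [] [0,1] (Pf.cons (Pf.B 3 1 (Pf.C 22 131) (Pf.B 3 0 (Pf.C 32 3) (Pf.C 69 131))) Pf.nil)) (Pf.B 2 0 (Pf.W 82 0 [] [0,1] (Pf.cons (Pf.B 3 1 (Pf.C 22 131) (Pf.B 3 0 (Pf.C 32 3) (Pf.C 69 131))) Pf.nil)) (Pf.W 82 0 [] [0,1] (Pf.cons (Pf.B 3 1 (Pf.C 22 131) (Pf.B 3 0 (Pf.C 32 3) (Pf.C 69 131))) Pf.nil)))))
 (Pq.cons (Pq.D 2 (Pq.cons (Pq.L [] 2 (Pf.C 32 2))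
 (Pq.cons (Pq.L [] 2 (Pf.W 82 0 [] [0,2] (Pf.cons (Pf.B 3 2 (Pf.C 22 259) (Pf.B 3 0 (Pf.C 32 3) (Pf.C 69 259))) Pf.nil)))
 (Pq.cons (Pq.L [] 4 (Pf.C 4 257))
 (Pq.cons (Pq.L [] 2 (Pf.C 5 256))
 Pq.nil))))) (Pq.cons (Pq.L [] 1 (Pf.C 5 128))
 Pq.nil))))) Pq.nil))))) (Pq.cons (Pq.D 0 (Pq.cons (Pq.D 1 (Pq.cons (Pq.D 2 (Pq.cons (Pq.L [] 64 (Pf.C 2 257))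
 (Pq.cons (Pq.L [] 64 (Pf.C 22 257))
 (Pq.cons (Pq.D 3 (Pq.cons (Pq.L [] 2247 (Pf.C 8 0x604100))
 (Pq.cons (Pq.L [] 128 (Pf.C 22 385))
 (Pq.cons (Pq.L [] 2247 (Pf.C 8 0x604100))
 (Pq.cons (Pq.L [] 128 (Pf.C 32 385))
 Pq.nil))))) (Pq.cons (Pq.L [] 64 (Pf.C 32 257))
 Pq.nil))))) (Pq.cons (Pq.D 2 (Pq.cons (Pq.L [] 64 (Pf.C 22 130))
 (Pq.cons (Pq.L [] 64 (Pf.C 3 257))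
 (Pq.cons (Pq.D 3 (Pq.cons (Pq.L [] 128 (Pf.C 22 131))
 (Pq.cons (Pq.L [] 128 (Pf.C 3 385))
 (Pq.cons (Pq.D 4 (Pq.cons (Pq.L [] 256 (Pf.C 22 132))
 (Pq.cons (Pq.L [] 256 (Pf.C 3 513))
 (Pq.cons (Pq.D 5 (Pq.cons (Pq.D 6 (Pq.cons (Pq.L [] 0x1c0038 (Pf.C 8 0xc14200))
 (Pq.cons (Pq.L [] 0x106032 (Pf.C 12 0x418005))
 (Pq.cons (Pq.L [] 0x1c0038 (Pf.C 8 0xc14200))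
 (Pq.cons (Pq.L [] 0x106032 (Pf.C 13 0x418005))
 Pq.nil))))) (Pq.cons (Pq.L [] 0x40300 (Pf.W 89 4 [] [1,5] (Pf.cons (Pf.B 7 5 (Pf.C 22 647) (Pf.B 7 1 (Pf.C 22 135) (Pf.C 0 0xa10381))) Pf.nil)))
 (Pq.cons (Pq.L [] 0x40000 (Pf.C 4 644))
 (Pq.cons (Pq.L [] 0x40300 (Pf.W 89 4 [] [1,5] (Pf.cons (Pf.B 7 5 (Pf.C 32 647) (Pf.B 7 1 (Pf.C 22 135) (Pf.C 0 0xa10381))) Pf.nil)))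
 Pq.nil))))) (Pq.cons (Pq.L [] 265 (Pf.C 69 65664))
 Pq.nil))))) (Pq.cons (Pq.L [] 133 (Pf.C 69 49280))
 Pq.nil))))) (Pq.cons (Pq.L [] 67 (Pf.C 69 32896))
 Pq.nil))))) (Pq.cons (Pq.D 2 (Pq.cons (Pq.D 3 (Pq.cons (Pq.L [] 2247 (Pf.C 8 0x604100))
 (Pq.cons (Pq.D 4 (Pq.cons (Pq.L [] 4427 (Pf.C 8 0x804100))
 (Pq.cons (Pq.L [] 39360 (Pf.C 0 0x808083))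
 (Pq.cons (Pq.L [] 4427 (Pf.C 8 0x804100))
 (Pq.cons (Pq.L [] 39360 (Pf.C 0 0x808083))
 Pq.nil))))) (Pq.cons (Pq.L [] 2247 (Pf.C 8 0x604100))
 (Pq.cons (Pq.D 4 (Pq.cons (Pq.L [] 4427 (Pf.C 8 0x804100))
 (Pq.cons (Pq.L [] 39360 (Pf.C 0 0x808083))
 (Pq.cons (Pq.L [] 4427 (Pf.C 8 0x804100))
 (Pq.cons (Pq.L [] 39360 (Pf.C 0 0x808083))
 Pq.nil))))) Pq.nil))))) (Pq.cons (Pq.D 3 (Pq.cons (Pq.D 4 (Pq.cons (Pq.L [] 33165 (Pf.C 8 0x804180))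
 (Pq.cons (Pq.L [] 39360 (Pf.C 0 0x80c082))
 (Pq.cons (Pq.L [] 33165 (Pf.C 8 0x804180))
 (Pq.cons (Pq.L [] 39360 (Pf.C 0 0x80c082))
 Pq.nil))))) (Pq.cons (Pq.L [] 39360 (Pf.B 4 3 (Pf.B 4 2 (Pf.W 89 1 [] [2,3] (Pf.cons (Pf.B 7 3 (Pf.C 22 391) (Pf.B 7 2 (Pf.C 22 263) (Pf.C 0 0x604382))) Pf.nil)) (Pf.W 89 1 [] [2,3,4] (Pf.cons (Pf.C 22 388) (Pf.cons (Pf.B 7 3 (Pf.C 22 391) (Pf.B 7 4 (Pf.B 7 2 (Pf.C 22 263) (Pf.C 0 0x804107)) (Pf.C 0 0x604384))) Pf.nil)))) (Pf.B 4 2 (Pf.W 89 1 [] [2,3] (Pf.cons (Pf.B 7 3 (Pf.C 22 391) (Pf.B 7 2 (Pf.C 22 263) (Pf.C 0 0x604382))) Pf.nil)) (Pf.C 0 0x604202))))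
 (Pq.cons (Pq.L [] 128 (Pf.C 4 385))
 (Pq.cons (Pq.L [] 39360 (Pf.B 4 3 (Pf.B 4 2 (Pf.W 89 1 [] [2,3] (Pf.cons (Pf.B 7 3 (Pf.C 32 391) (Pf.B 7 2 (Pf.C 22 263) (Pf.C 0 0x604382))) Pf.nil)) (Pf.W 89 1 [] [2,3,4] (Pf.cons (Pf.C 32 388) (Pf.cons (Pf.B 7 3 (Pf.C 32 391) (Pf.B 7 4 (Pf.B 7 2 (Pf.C 22 263) (Pf.C 0 0x804107)) (Pf.C 0 0x604384))) Pf.nil)))) (Pf.B 4 2 (Pf.W 89 1 [] [2,3] (Pf.cons (Pf.B 7 3 (Pf.C 32 391) (Pf.B 7 2 (Pf.C 22 263) (Pf.C 0 0x604382))) Pf.nil)) (Pf.C 0 0x604202))))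
 Pq.nil))))) (Pq.cons (Pq.L [] 64 (Pf.C 4 257))
 (Pq.cons (Pq.D 3 (Pq.cons (Pq.D 4 (Pq.cons (Pq.L [] 33165 (Pf.C 8 0x804180))
 (Pq.cons (Pq.L [] 39360 (Pf.C 0 0x80c082))
 (Pq.cons (Pq.L [] 33165 (Pf.C 8 0x804180))
 (Pq.cons (Pq.L [] 39360 (Pf.C 0 0x80c082))
 Pq.nil))))) (Pq.cons (Pq.L [] 39360 (Pf.B 4 3 (Pf.W 89 1 [] [2,3] (Pf.cons (Pf.B 7 3 (Pf.C 22 391) (Pf.B 7 2 (Pf.C 32 263) (Pf.C 0 0x604382))) Pf.nil)) (Pf.B 4 2 (Pf.W 89 1 [] [2,3] (Pf.cons (Pf.B 7 3 (Pf.C 22 391) (Pf.B 7 2 (Pf.C 32 263) (Pf.C 0 0x604382))) Pf.nil)) (Pf.C 0 0x604202))))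
 (Pq.cons (Pq.L [] 128 (Pf.C 4 385))
 (Pq.cons (Pq.L [] 39360 (Pf.B 4 3 (Pf.B 4 2 (Pf.W 89 1 [] [2,3] (Pf.cons (Pf.B 7 3 (Pf.C 32 391) (Pf.B 7 2 (Pf.C 32 263) (Pf.C 0 0x604382))) Pf.nil)) (Pf.W 89 1 [] [2,3,4] (Pf.cons (Pf.C 32 388) (Pf.cons (Pf.B 7 3 (Pf.C 32 391) (Pf.B 7 4 (Pf.B 7 2 (Pf.C 32 263) (Pf.C 0 0x804107)) (Pf.C 0 0x604384))) Pf.nil)))) (Pf.B 4 2 (Pf.W 89 1 [] [2,3] (Pf.cons (Pf.B 7 3 (Pf.C 32 391) (Pf.B 7 2 (Pf.C 32 263) (Pf.C 0 0x604382))) Pf.nil)) (Pf.C 0 0x604202))))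
 Pq.nil))))) Pq.nil))))) (Pq.cons (Pq.D 2 (Pq.cons (Pq.L [] 64 (Pf.C 32 130))
 (Pq.cons (Pq.L [] 67 (Pf.C 69 16640))
 (Pq.cons (Pq.D 3 (Pq.cons (Pq.L [] 128 (Pf.C 32 131))
 (Pq.cons (Pq.L [] 133 (Pf.C 69 16768))
 (Pq.cons (Pq.D 4 (Pq.cons (Pq.L [] 256 (Pf.C 32 132))
 (Pq.cons (Pq.L [] 265 (Pf.C 69 16896))
 (Pq.cons (Pq.D 5 (Pq.cons (Pq.D 6 (Pq.cons (Pq.L [] 0x1c0038 (Pf.C 8 0xc14200))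
 (Pq.cons (Pq.L [] 0x106032 (Pf.C 12 0x418005))
 (Pq.cons (Pq.L [] 0x1c0038 (Pf.C 8 0xc14200))
 (Pq.cons (Pq.L [] 0x106032 (Pf.C 13 0x418005))
 Pq.nil))))) (Pq.cons (Pq.L [] 0x40300 (Pf.W 89 4 [] [1,5] (Pf.cons (Pf.B 7 5 (Pf.C 22 647) (Pf.B 7 1 (Pf.C 32 135) (Pf.C 0 0xa10381))) Pf.nil)))
 (Pq.cons (Pq.L [] 0x40000 (Pf.C 4 644))
 (Pq.cons (Pq.L [] 0x40300 (Pf.W 89 4 [] [1,5] (Pf.cons (Pf.B 7 5 (Pf.C 32 647) (Pf.B 7 1 (Pf.C 32 135) (Pf.C 0 0xa10381))) Pf.nil)))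
 Pq.nil))))) (Pq.cons (Pq.L [] 256 (Pf.C 5 513))
 Pq.nil))))) (Pq.cons (Pq.L [] 128 (Pf.C 5 385))
 Pq.nil))))) (Pq.cons (Pq.L [] 64 (Pf.C 5 257))
 Pq.nil))))) Pq.nil))))) (Pq.cons (Pq.D 1 (Pq.cons (Pq.D 2 (Pq.cons (Pq.L [] 64 (Pf.C 2 257))
 (Pq.cons (Pq.L [] 64 (Pf.C 22 257))
 (Pq.cons (Pq.D 3 (Pq.cons (Pq.L [] 128 (Pf.C 2 385))
 (Pq.cons (Pq.L [] 128 (Pf.C 22 385))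
 (Pq.cons (Pq.D 4 (Pq.cons (Pq.L [] 256 (Pf.C 2 513))
 (Pq.cons (Pq.L [] 256 (Pf.C 22 513))
 (Pq.cons (Pq.L [] 33152 (Pf.B 6 1 (Pf.W 25 1 [] [3,4] (Pf.cons (Pf.B 7 4 (Pf.B 7 3 (Pf.C 8 0x804187) (Pf.C 4 391)) (Pf.C 4 519)) Pf.nil)) (Pf.W 25 1 [] [3,4] (Pf.cons (Pf.B 7 4 (Pf.B 7 3 (Pf.C 8 0x804187) (Pf.C 4 391)) (Pf.C 4 519)) Pf.nil))))
 (Pq.cons (Pq.L [] 4106 (Pf.C 6 65792))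
 Pq.nil))))) (Pq.cons (Pq.L [] 2054 (Pf.C 6 49408))
 Pq.nil))))) (Pq.cons (Pq.L [] 64 (Pf.C 32 257))
 Pq.nil))))) (Pq.cons (Pq.D 2 (Pq.cons (Pq.L [] 64 (Pf.C 22 130))
 (Pq.cons (Pq.L [] 64 (Pf.C 3 257))
 (Pq.cons (Pq.D 3 (Pq.cons (Pq.L [] 128 (Pf.C 22 131))
 (Pq.cons (Pq.L [] 128 (Pf.C 3 385))
 (Pq.cons (Pq.D 4 (Pq.cons (Pq.L [] 39375 (Pf.C 16 0x30208200))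
 (Pq.cons (Pq.L [] 256 (Pf.C 3 513))
 (Pq.cons (Pq.D 5 (Pq.cons (Pq.D 6 (Pq.cons (Pq.L [] 0x100631 (Pf.C 0 0x218280))
 (Pq.cons (Pq.L [] 0x100631 (Pf.C 7 0x214006))
 (Pq.cons (Pq.L [] 0x1c7000 (Pf.C 8 0xc14202))
 (Pq.cons (Pq.L [] 16418 (Pf.C 6 98560))
 Pq.nil))))) (Pq.cons (Pq.L [] 0x40300 (Pf.W 89 4 [] [1,5] (Pf.cons (Pf.B 7 5 (Pf.C 22 647) (Pf.B 7 1 (Pf.C 22 135) (Pf.C 0 0xa10381))) Pf.nil)))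
 (Pq.cons (Pq.L [] 0x4301a (Pf.C 14 82434))
 (Pq.cons (Pq.L [] 8210 (Pf.C 6 82176))
 Pq.nil))))) (Pq.cons (Pq.L [] 4106 (Pf.C 6 65792))
 Pq.nil))))) (Pq.cons (Pq.L [] 2054 (Pf.C 6 49408))
 Pq.nil))))) (Pq.cons (Pq.D 3 (Pq.cons (Pq.L [] 128 (Pf.C 22 131))
 (Pq.cons (Pq.L [] 128 (Pf.C 3 385))
 (Pq.cons (Pq.L [] 2054 (Pf.C 6 33152))
 (Pq.cons (Pq.D 4 (Pq.cons (Pq.L [] 256 (Pf.C 22 132))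
 (Pq.cons (Pq.L [] 256 (Pf.C 3 513))
 (Pq.cons (Pq.L [] 4106 (Pf.C 6 33280))
 (Pq.cons (Pq.D 5 (Pq.cons (Pq.L [] 8768 (Pf.C 69 32901))
 (Pq.cons (Pq.D 6 (Pq.cons (Pq.L [] 0x100631 (Pf.C 7 0x218005))
 (Pq.cons (Pq.L [] 0x106032 (Pf.C 10 0x418280))
 (Pq.cons (Pq.L [] 16418 (Pf.C 6 33536))
 (Pq.cons (Pq.L [] 0x136ef7 (Pf.C 1 0x1810418280))
 Pq.nil))))) (Pq.cons (Pq.L [] 8210 (Pf.C 6 33408))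
 (Pq.cons (Pq.L [] 0x4301a (Pf.C 15 82434))
 Pq.nil))))) Pq.nil))))) Pq.nil))))) Pq.nil))))) (Pq.cons (Pq.D 2 (Pq.cons (Pq.D 3 (Pq.cons (Pq.D 4 (Pq.cons (Pq.D 5 (Pq.cons (Pq.L [] 76480 (Pf.C 8 0x604105))
 (Pq.cons (Pq.L [] 0x5b800 (Pf.C 7 0x614104))
 (Pq.cons (Pq.L [] 76480 (Pf.C 8 0x604105))
 (Pq.cons (Pq.L [] 529 (Pf.C 6 82048))
 Pq.nil))))) (Pq.cons (Pq.L [] 39360 (Pf.C 0 0x610082))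
 (Pq.cons (Pq.L [] 256 (Pf.C 4 513))
 (Pq.cons (Pq.L [] 39360 (Pf.C 0 0x610082))
 Pq.nil))))) (Pq.cons (Pq.D 4 (Pq.cons (Pq.L [] 39360 (Pf.C 0 0x80c082))
 (Pq.cons (Pq.L [] 39360 (Pf.C 0 0x808083))
 (Pq.cons (Pq.L [] 256 (Pf.C 4 513))
 (Pq.cons (Pq.L [] 39360 (Pf.C 0 0x808083))
 Pq.nil))))) (Pq.cons (Pq.L [] 128 (Pf.C 4 385))
 (Pq.cons (Pq.D 4 (Pq.cons (Pq.L [] 39360 (Pf.C 0 0x80c082))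
 (Pq.cons (Pq.L [] 39360 (Pf.C 0 0x808083))
 (Pq.cons (Pq.L [] 32780 (Pf.C 6 49664))
 (Pq.cons (Pq.L [] 39360 (Pf.C 0 0x808083))
 Pq.nil))))) Pq.nil))))) (Pq.cons (Pq.D 3 (Pq.cons (Pq.D 4 (Pq.cons (Pq.L [] 39360 (Pf.C 0 0x808083))
 (Pq.cons (Pq.L [] 39360 (Pf.C 0 0x80c082))
 (Pq.cons (Pq.L [] 256 (Pf.C 4 513))
 (Pq.cons (Pq.L [] 39360 (Pf.C 0 0x80c082))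
 Pq.nil))))) (Pq.cons (Pq.D 4 (Pq.cons (Pq.L [] 39360 (Pf.C 0 0x610082))
 (Pq.cons (Pq.L [] 33152 (Pf.W 89 1 [] [3,4] (Pf.cons (Pf.B 7 4 (Pf.C 22 519) (Pf.B 7 3 (Pf.C 22 391) (Pf.C 0 0x804383))) Pf.nil)))
 (Pq.cons (Pq.L [] 256 (Pf.C 4 513))
 (Pq.cons (Pq.L [] 33152 (Pf.W 89 1 [] [3,4] (Pf.cons (Pf.B 7 4 (Pf.C 32 519) (Pf.B 7 3 (Pf.C 22 391) (Pf.C 0 0x804383))) Pf.nil)))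
 Pq.nil))))) (Pq.cons (Pq.L [] 128 (Pf.C 4 385))
 (Pq.cons (Pq.D 4 (Pq.cons (Pq.L [] 39360 (Pf.C 0 0x610082))
 (Pq.cons (Pq.L [] 33152 (Pf.W 89 1 [] [3,4] (Pf.cons (Pf.B 7 4 (Pf.C 22 519) (Pf.B 7 3 (Pf.C 32 391) (Pf.C 0 0x804383))) Pf.nil)))
 (Pq.cons (Pq.L [] 32780 (Pf.C 6 49664))
 (Pq.cons (Pq.L [] 33152 (Pf.W 89 1 [] [3,4] (Pf.cons (Pf.B 7 4 (Pf.C 32 519) (Pf.B 7 3 (Pf.C 32 391) (Pf.C 0 0x804383))) Pf.nil)))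
 Pq.nil))))) Pq.nil))))) (Pq.cons (Pq.L [] 64 (Pf.C 4 257))
 (Pq.cons (Pq.D 3 (Pq.cons (Pq.D 4 (Pq.cons (Pq.L [] 39360 (Pf.C 0 0x808083))
 (Pq.cons (Pq.L [] 39360 (Pf.C 0 0x80c082))
 (Pq.cons (Pq.L [] 4106 (Pf.C 6 33280))
 (Pq.cons (Pq.L [] 39360 (Pf.C 0 0x80c082))
 Pq.nil))))) (Pq.cons (Pq.D 4 (Pq.cons (Pq.L [] 39360 (Pf.C 0 0x610082))
 (Pq.cons (Pq.L [] 33152 (Pf.W 89 1 [] [3,4] (Pf.cons (Pf.B 7 4 (Pf.C 22 519) (Pf.B 7 3 (Pf.C 22 391) (Pf.C 0 0x804383))) Pf.nil)))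
 (Pq.cons (Pq.L [] 4106 (Pf.C 6 33280))
 (Pq.cons (Pq.L [] 33152 (Pf.W 89 1 [] [3,4] (Pf.cons (Pf.B 7 4 (Pf.C 32 519) (Pf.B 7 3 (Pf.C 22 391) (Pf.C 0 0x804383))) Pf.nil)))
 Pq.nil))))) (Pq.cons (Pq.L [] 2054 (Pf.C 6 33152))
 (Pq.cons (Pq.D 4 (Pq.cons (Pq.L [] 39360 (Pf.C 0 0x610082))
 (Pq.cons (Pq.L [] 33152 (Pf.W 89 1 [] [3,4] (Pf.cons (Pf.B 7 4 (Pf.C 22 519) (Pf.B 7 3 (Pf.C 32 391) (Pf.C 0 0x804383))) Pf.nil)))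
 (Pq.cons (Pq.L [] 4106 (Pf.C 6 33280))
 (Pq.cons (Pq.L [] 33152 (Pf.W 89 1 [] [3,4] (Pf.cons (Pf.B 7 4 (Pf.C 32 519) (Pf.B 7 3 (Pf.C 32 391) (Pf.C 0 0x804383))) Pf.nil)))
 Pq.nil))))) Pq.nil))))) Pq.nil))))) (Pq.cons (Pq.D 2 (Pq.cons (Pq.L [] 64 (Pf.C 32 130))
 (Pq.cons (Pq.D 3 (Pq.cons (Pq.L [] 128 (Pf.C 32 131))
 (Pq.cons (Pq.D 4 (Pq.cons (Pq.L [] 256 (Pf.C 32 132))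
 (Pq.cons (Pq.D 5 (Pq.cons (Pq.L [] 0x4301a (Pf.C 7 0x414004))
 (Pq.cons (Pq.L [] 0x40000 (Pf.C 3 644))
 (Pq.cons (Pq.L [] 529 (Pf.C 6 17024))
 (Pq.cons (Pq.D 6 (Pq.cons (Pq.L [] 17472 (Pf.C 69 16646))
 (Pq.cons (Pq.L [] 0x136ef7 (Pf.C 1 0x1810418280))
 (Pq.cons (Pq.L [] 1057 (Pf.C 6 17152))
 (Pq.cons (Pq.L [] 0x100631 (Pf.C 15 98945))
 Pq.nil))))) Pq.nil))))) (Pq.cons (Pq.D 5 (Pq.cons (Pq.L [] 8768 (Pf.C 69 16645))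
 (Pq.cons (Pq.L [] 64 (Pf.W 89 4 [] [1,2] (Pf.cons (Pf.B 7 2 (Pf.C 22 263) (Pf.B 7 1 (Pf.C 32 135) (Pf.C 69 16647))) Pf.nil)))
 (Pq.cons (Pq.L [] 529 (Pf.C 6 17024))
 (Pq.cons (Pq.L [] 64 (Pf.W 89 4 [] [1,2] (Pf.cons (Pf.B 7 2 (Pf.C 22 263) (Pf.B 7 1 (Pf.C 32 135) (Pf.C 69 16647))) Pf.nil)))
 Pq.nil))))) (Pq.cons (Pq.L [] 256 (Pf.C 5 513))
 Pq.nil))))) (Pq.cons (Pq.L [] 64 (Pf.W 89 3 [] [1,2] (Pf.cons (Pf.B 7 2 (Pf.C 22 263) (Pf.B 7 1 (Pf.C 32 135) (Pf.C 69 16647))) Pf.nil)))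
 (Pq.cons (Pq.L [] 128 (Pf.C 5 385))
 Pq.nil))))) (Pq.cons (Pq.D 3 (Pq.cons (Pq.L [] 128 (Pf.C 32 131))
 (Pq.cons (Pq.L [] 128 (Pf.W 89 2 [] [1,3] (Pf.cons (Pf.B 7 3 (Pf.C 22 391) (Pf.B 7 1 (Pf.C 32 135) (Pf.C 69 16775))) Pf.nil)))
 (Pq.cons (Pq.D 4 (Pq.cons (Pq.L [] 256 (Pf.C 32 132))
 (Pq.cons (Pq.L [] 256 (Pf.W 89 2 [] [1,4] (Pf.cons (Pf.B 7 4 (Pf.C 22 519) (Pf.B 7 1 (Pf.C 32 135) (Pf.C 69 16903))) Pf.nil)))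
 (Pq.cons (Pq.D 5 (Pq.cons (Pq.D 6 (Pq.cons (Pq.L [] 0x100631 (Pf.C 0 0x218280))
 (Pq.cons (Pq.L [] 0x106032 (Pf.C 12 0x414006))
 (Pq.cons (Pq.L [] 1057 (Pf.C 6 17152))
 (Pq.cons (Pq.L [] 16418 (Pf.C 6 98560))
 Pq.nil))))) (Pq.cons (Pq.L [] 0x40300 (Pf.W 89 4 [] [1,5] (Pf.cons (Pf.B 7 5 (Pf.C 22 647) (Pf.B 7 1 (Pf.C 32 135) (Pf.C 0 0xa10381))) Pf.nil)))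
 (Pq.cons (Pq.L [] 529 (Pf.C 6 17024))
 (Pq.cons (Pq.L [] 8210 (Pf.C 6 82176))
 Pq.nil))))) (Pq.cons (Pq.L [] 4106 (Pf.C 6 65792))
 Pq.nil))))) (Pq.cons (Pq.L [] 2054 (Pf.C 6 49408))
 Pq.nil))))) (Pq.cons (Pq.L [] 64 (Pf.C 5 257))
 Pq.nil))))) Pq.nil))))) (Pq.cons (Pq.D 1 (Pq.cons (Pq.D 2 (Pq.cons (Pq.L [] 64 (Pf.C 2 257))
 (Pq.cons (Pq.L [] 64 (Pf.C 22 257))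
 (Pq.cons (Pq.D 3 (Pq.cons (Pq.L [] 2247 (Pf.C 8 0x604100))
 (Pq.cons (Pq.L [] 2247 (Pf.C 14 0x608080))
 (Pq.cons (Pq.L [] 2247 (Pf.C 8 0x604100))
 (Pq.cons (Pq.L [] 2247 (Pf.C 11 0x608080))
 Pq.nil))))) (Pq.cons (Pq.L [] 64 (Pf.C 32 257))
 Pq.nil))))) (Pq.cons (Pq.D 2 (Pq.cons (Pq.L [] 64 (Pf.C 22 130))
 (Pq.cons (Pq.L [] 64 (Pf.C 3 257))
 (Pq.cons (Pq.D 3 (Pq.cons (Pq.L [] 128 (Pf.C 22 131))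
 (Pq.cons (Pq.L [] 128 (Pf.C 3 385))
 (Pq.cons (Pq.D 4 (Pq.cons (Pq.L [] 256 (Pf.C 22 132))
 (Pq.cons (Pq.L [] 256 (Pf.C 3 513))
 (Pq.cons (Pq.D 5 (Pq.cons (Pq.D 6 (Pq.cons (Pq.L [] 0x1c0038 (Pf.C 8 0xc14200))
 (Pq.cons (Pq.L [] 0x100631 (Pf.C 12 82054))
 (Pq.cons (Pq.L [] 0x1c0038 (Pf.C 8 0xc14200))
 (Pq.cons (Pq.L [] 1057 (Pf.C 6 98305))
 Pq.nil))))) (Pq.cons (Pq.L [] 0x40300 (Pf.W 89 4 [] [1,5] (Pf.cons (Pf.B 7 5 (Pf.C 22 647) (Pf.B 7 1 (Pf.C 22 135) (Pf.C 0 0xa10381))) Pf.nil)))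
 (Pq.cons (Pq.L [] 0x40000 (Pf.C 4 644))
 (Pq.cons (Pq.L [] 529 (Pf.C 6 81921))
 Pq.nil))))) (Pq.cons (Pq.L [] 256 (Pf.W 89 0 [] [1,4] (Pf.cons (Pf.B 7 4 (Pf.C 32 519) (Pf.B 7 1 (Pf.C 22 135) (Pf.C 69 65671))) Pf.nil)))
 Pq.nil))))) (Pq.cons (Pq.L [] 128 (Pf.W 89 0 [] [1,3] (Pf.cons (Pf.B 7 3 (Pf.C 32 391) (Pf.B 7 1 (Pf.C 22 135) (Pf.C 69 49287))) Pf.nil)))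
 Pq.nil))))) (Pq.cons (Pq.L [] 64 (Pf.W 89 0 [] [1,2] (Pf.cons (Pf.B 7 2 (Pf.C 32 263) (Pf.B 7 1 (Pf.C 22 135) (Pf.C 69 32903))) Pf.nil)))
 Pq.nil))))) (Pq.cons (Pq.D 2 (Pq.cons (Pq.D 3 (Pq.cons (Pq.L [] 2247 (Pf.C 8 0x604100))
 (Pq.cons (Pq.D 4 (Pq.cons (Pq.L [] 4427 (Pf.C 8 0x804100))
 (Pq.cons (Pq.L [] 39360 (Pf.C 0 0x808083))
 (Pq.cons (Pq.L [] 4427 (Pf.C 8 0x804100))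
 (Pq.cons (Pq.L [] 32780 (Pf.C 6 65539))
 Pq.nil))))) (Pq.cons (Pq.L [] 2247 (Pf.C 8 0x604100))
 (Pq.cons (Pq.D 4 (Pq.cons (Pq.L [] 4427 (Pf.C 8 0x804100))
 (Pq.cons (Pq.L [] 32780 (Pf.C 6 49156))
 (Pq.cons (Pq.L [] 4427 (Pf.C 8 0x804100))
 (Pq.cons (Pq.L [] 39360 (Pf.C 0 0x808083))
 Pq.nil))))) Pq.nil))))) (Pq.cons (Pq.D 3 (Pq.cons (Pq.D 4 (Pq.cons (Pq.L [] 33165 (Pf.C 8 0x804180))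
 (Pq.cons (Pq.L [] 39360 (Pf.C 0 0x80c082))
 (Pq.cons (Pq.L [] 33165 (Pf.C 8 0x804180))
 (Pq.cons (Pq.L [] 4106 (Pf.C 6 65538))
 Pq.nil))))) (Pq.cons (Pq.L [] 39360 (Pf.B 4 3 (Pf.B 4 2 (Pf.W 89 1 [] [2,3] (Pf.cons (Pf.B 7 3 (Pf.C 22 391) (Pf.B 7 2 (Pf.C 22 263) (Pf.C 0 0x604382))) Pf.nil)) (Pf.W 89 1 [] [2,3,4] (Pf.cons (Pf.C 22 388) (Pf.cons (Pf.B 7 3 (Pf.C 22 391) (Pf.B 7 4 (Pf.B 7 2 (Pf.C 22 263) (Pf.C 0 0x804107)) (Pf.C 0 0x604384))) Pf.nil)))) (Pf.B 4 2 (Pf.W 89 1 [] [2,3] (Pf.cons (Pf.B 7 3 (Pf.C 22 391) (Pf.B 7 2 (Pf.C 22 263) (Pf.C 0 0x604382))) Pf.nil)) (Pf.C 0 0x604202))))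
 (Pq.cons (Pq.L [] 128 (Pf.C 4 385))
 (Pq.cons (Pq.L [] 2054 (Pf.C 6 49154))
 Pq.nil))))) (Pq.cons (Pq.L [] 64 (Pf.C 4 257))
 (Pq.cons (Pq.D 3 (Pq.cons (Pq.D 4 (Pq.cons (Pq.L [] 33165 (Pf.C 8 0x804180))
 (Pq.cons (Pq.L [] 4106 (Pf.C 6 32772))
 (Pq.cons (Pq.L [] 33165 (Pf.C 8 0x804180))
 (Pq.cons (Pq.L [] 39360 (Pf.C 0 0x80c082))
 Pq.nil))))) (Pq.cons (Pq.L [] 2054 (Pf.C 6 32771))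
 (Pq.cons (Pq.L [] 128 (Pf.C 4 385))
 (Pq.cons (Pq.L [] 39360 (Pf.B 4 3 (Pf.B 4 2 (Pf.W 89 1 [] [2,3] (Pf.cons (Pf.B 7 3 (Pf.C 32 391) (Pf.B 7 2 (Pf.C 32 263) (Pf.C 0 0x604382))) Pf.nil)) (Pf.W 89 1 [] [2,3,4] (Pf.cons (Pf.C 32 388) (Pf.cons (Pf.B 7 3 (Pf.C 32 391) (Pf.B 7 4 (Pf.B 7 2 (Pf.C 32 263) (Pf.C 0 0x804107)) (Pf.C 0 0x604384))) Pf.nil)))) (Pf.B 4 2 (Pf.W 89 1 [] [2,3] (Pf.cons (Pf.B 7 3 (Pf.C 32 391) (Pf.B 7 2 (Pf.C 32 263) (Pf.C 0 0x604382))) Pf.nil)) (Pf.C 0 0x604202))))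
 Pq.nil))))) Pq.nil))))) (Pq.cons (Pq.D 2 (Pq.cons (Pq.L [] 64 (Pf.C 32 130))
 (Pq.cons (Pq.L [] 64 (Pf.W 89 0 [] [1,2] (Pf.cons (Pf.B 7 2 (Pf.C 22 263) (Pf.B 7 1 (Pf.C 32 135) (Pf.C 69 16647))) Pf.nil)))
 (Pq.cons (Pq.D 3 (Pq.cons (Pq.L [] 128 (Pf.C 32 131))
 (Pq.cons (Pq.L [] 128 (Pf.W 89 0 [] [1,3] (Pf.cons (Pf.B 7 3 (Pf.C 22 391) (Pf.B 7 1 (Pf.C 32 135) (Pf.C 69 16775))) Pf.nil)))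
 (Pq.cons (Pq.D 4 (Pq.cons (Pq.L [] 256 (Pf.C 32 132))
 (Pq.cons (Pq.L [] 256 (Pf.W 89 0 [] [1,4] (Pf.cons (Pf.B 7 4 (Pf.C 22 519) (Pf.B 7 1 (Pf.C 32 135) (Pf.C 69 16903))) Pf.nil)))
 (Pq.cons (Pq.D 5 (Pq.cons (Pq.D 6 (Pq.cons (Pq.L [] 0x1c0038 (Pf.C 8 0xc14200))
 (Pq.cons (Pq.L [] 1057 (Pf.C 6 16390))
 (Pq.cons (Pq.L [] 0x1c0038 (Pf.C 8 0xc14200))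
 (Pq.cons (Pq.L [] 0x1c0038 (Pf.C 11 0xc14200))
 Pq.nil))))) (Pq.cons (Pq.L [] 529 (Pf.C 6 16389))
 (Pq.cons (Pq.L [] 0x40000 (Pf.C 4 644))
 (Pq.cons (Pq.L [] 0x40300 (Pf.W 89 4 [] [1,5] (Pf.cons (Pf.B 7 5 (Pf.C 32 647) (Pf.B 7 1 (Pf.C 32 135) (Pf.C 0 0xa10381))) Pf.nil)))
 Pq.nil))))) (Pq.cons (Pq.L [] 256 (Pf.C 5 513))
 Pq.nil))))) (Pq.cons (Pq.L [] 128 (Pf.C 5 385))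
 Pq.nil))))) (Pq.cons (Pq.L [] 64 (Pf.C 5 257))
 Pq.nil))))) Pq.nil))))) (Pq.cons (Pq.D 1 (Pq.cons (Pq.D 2 (Pq.cons (Pq.L [] 64 (Pf.C 2 257))
 (Pq.cons (Pq.L [] 64 (Pf.C 22 257))
 (Pq.cons (Pq.D 3 (Pq.cons (Pq.L [] 128 (Pf.C 2 385))
 (Pq.cons (Pq.L [] 2054 (Pf.C 6 259))
 (Pq.cons (Pq.D 4 (Pq.cons (Pq.L [] 256 (Pf.C 2 513))
 (Pq.cons (Pq.L [] 4106 (Pf.C 6 260))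
 (Pq.cons (Pq.L [] 33152 (Pf.B 6 1 (Pf.W 25 1 [] [3,4] (Pf.cons (Pf.B 7 4 (Pf.B 7 3 (Pf.C 8 0x804187) (Pf.C 4 391)) (Pf.C 4 519)) Pf.nil)) (Pf.W 25 1 [] [3,4] (Pf.cons (Pf.B 7 4 (Pf.B 7 3 (Pf.C 8 0x804187) (Pf.C 4 391)) (Pf.C 4 519)) Pf.nil))))
 (Pq.cons (Pq.L [] 256 (Pf.C 32 513))
 Pq.nil))))) (Pq.cons (Pq.L [] 128 (Pf.C 32 385))
 Pq.nil))))) (Pq.cons (Pq.L [] 64 (Pf.C 32 257))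
 Pq.nil))))) (Pq.cons (Pq.D 2 (Pq.cons (Pq.L [] 64 (Pf.C 22 130))
 (Pq.cons (Pq.L [] 64 (Pf.C 3 257))
 (Pq.cons (Pq.D 3 (Pq.cons (Pq.L [] 128 (Pf.C 22 131))
 (Pq.cons (Pq.L [] 2054 (Pf.C 6 259))
 (Pq.cons (Pq.D 4 (Pq.cons (Pq.L [] 256 (Pf.C 22 132))
 (Pq.cons (Pq.L [] 4106 (Pf.C 6 260))
 (Pq.cons (Pq.D 5 (Pq.cons (Pq.D 6 (Pq.cons (Pq.L [] 0x100631 (Pf.C 0 0x218280))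
 (Pq.cons (Pq.L [] 16418 (Pf.C 6 262))
 (Pq.cons (Pq.L [] 1057 (Pf.C 6 769))
 (Pq.cons (Pq.L [] 0x106032 (Pf.C 13 0x414006))
 Pq.nil))))) (Pq.cons (Pq.L [] 8210 (Pf.C 6 261))
 (Pq.cons (Pq.L [] 529 (Pf.C 6 641))
 (Pq.cons (Pq.L [] 0x40300 (Pf.W 89 4 [] [1,5] (Pf.cons (Pf.B 7 5 (Pf.C 32 647) (Pf.B 7 1 (Pf.C 22 135) (Pf.C 0 0xa10381))) Pf.nil)))
 Pq.nil))))) (Pq.cons (Pq.L [] 256 (Pf.W 89 2 [] [1,4] (Pf.cons (Pf.B 7 4 (Pf.C 32 519) (Pf.B 7 1 (Pf.C 22 135) (Pf.C 69 65671))) Pf.nil)))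
 Pq.nil))))) (Pq.cons (Pq.L [] 128 (Pf.W 89 2 [] [1,3] (Pf.cons (Pf.B 7 3 (Pf.C 32 391) (Pf.B 7 1 (Pf.C 22 135) (Pf.C 69 49287))) Pf.nil)))
 Pq.nil))))) (Pq.cons (Pq.D 3 (Pq.cons (Pq.L [] 128 (Pf.C 22 131))
 (Pq.cons (Pq.L [] 128 (Pf.C 3 385))
 (Pq.cons (Pq.L [] 64 (Pf.W 89 3 [] [1,2] (Pf.cons (Pf.B 7 2 (Pf.C 32 263) (Pf.B 7 1 (Pf.C 22 135) (Pf.C 69 32903))) Pf.nil)))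
 (Pq.cons (Pq.D 4 (Pq.cons (Pq.L [] 256 (Pf.C 22 132))
 (Pq.cons (Pq.L [] 256 (Pf.C 3 513))
 (Pq.cons (Pq.L [] 0x43340 (Pf.B 5 2 (Pf.W 89 4 [] [1,2] (Pf.cons (Pf.B 7 2 (Pf.C 32 263) (Pf.B 7 1 (Pf.C 22 135) (Pf.C 69 32903))) Pf.nil)) (Pf.B 5 1 (Pf.W 89 4 [] [1,2] (Pf.cons (Pf.B 7 2 (Pf.C 32 263) (Pf.B 7 1 (Pf.C 22 135) (Pf.C 69 32903))) Pf.nil)) (Pf.C 0 0x804282))))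
 (Pq.cons (Pq.D 5 (Pq.cons (Pq.L [] 0x4301a (Pf.C 9 0x414004))
 (Pq.cons (Pq.D 6 (Pq.cons (Pq.L [] 17472 (Pf.C 69 32902))
 (Pq.cons (Pq.L [] 0x100631 (Pf.C 10 98945))
 (Pq.cons (Pq.L [] 1057 (Pf.C 6 769))
 (Pq.cons (Pq.L [] 0x136ef7 (Pf.C 1 0x1810418280))
 Pq.nil))))) (Pq.cons (Pq.L [] 529 (Pf.C 6 641))
 (Pq.cons (Pq.L [] 0x40000 (Pf.C 5 644))
 Pq.nil))))) Pq.nil))))) Pq.nil))))) Pq.nil))))) (Pq.cons (Pq.D 2 (Pq.cons (Pq.D 3 (Pq.cons (Pq.D 4 (Pq.cons (Pq.D 5 (Pq.cons (Pq.L [] 76480 (Pf.C 8 0x604105))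
 (Pq.cons (Pq.L [] 529 (Pf.C 6 133))
 (Pq.cons (Pq.L [] 76480 (Pf.C 8 0x604105))
 (Pq.cons (Pq.L [] 0x5b800 (Pf.C 9 0x614104))
 Pq.nil))))) (Pq.cons (Pq.L [] 39360 (Pf.C 0 0x610082))
 (Pq.cons (Pq.L [] 256 (Pf.C 4 513))
 (Pq.cons (Pq.L [] 39360 (Pf.C 0 0x610082))
 Pq.nil))))) (Pq.cons (Pq.D 4 (Pq.cons (Pq.L [] 39360 (Pf.C 0 0x80c082))
 (Pq.cons (Pq.L [] 39360 (Pf.C 0 0x808083))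
 (Pq.cons (Pq.L [] 32780 (Pf.C 6 515))
 (Pq.cons (Pq.L [] 39360 (Pf.C 0 0x808083))
 Pq.nil))))) (Pq.cons (Pq.L [] 128 (Pf.C 4 385))
 (Pq.cons (Pq.D 4 (Pq.cons (Pq.L [] 39360 (Pf.C 0 0x80c082))
 (Pq.cons (Pq.L [] 39360 (Pf.C 0 0x808083))
 (Pq.cons (Pq.L [] 256 (Pf.C 4 513))
 (Pq.cons (Pq.L [] 39360 (Pf.C 0 0x808083))
 Pq.nil))))) Pq.nil))))) (Pq.cons (Pq.D 3 (Pq.cons (Pq.D 4 (Pq.cons (Pq.L [] 39360 (Pf.C 0 0x808083))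
 (Pq.cons (Pq.L [] 39360 (Pf.C 0 0x80c082))
 (Pq.cons (Pq.L [] 4106 (Pf.C 6 514))
 (Pq.cons (Pq.L [] 39360 (Pf.C 0 0x80c082))
 Pq.nil))))) (Pq.cons (Pq.L [] 39360 (Pf.B 4 3 (Pf.B 4 2 (Pf.W 89 1 [] [2,3] (Pf.cons (Pf.B 7 3 (Pf.C 22 391) (Pf.B 7 2 (Pf.C 22 263) (Pf.C 0 0x604382))) Pf.nil)) (Pf.W 89 1 [] [2,3,4] (Pf.cons (Pf.C 22 388) (Pf.cons (Pf.B 7 3 (Pf.C 22 391) (Pf.B 7 4 (Pf.B 7 2 (Pf.C 22 263) (Pf.C 0 0x804107)) (Pf.C 0 0x604384))) Pf.nil)))) (Pf.B 4 2 (Pf.W 89 1 [] [2,3] (Pf.cons (Pf.B 7 3 (Pf.C 22 391) (Pf.B 7 2 (Pf.C 22 263) (Pf.C 0 0x604382))) Pf.nil)) (Pf.C 0 0x604202))))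
 (Pq.cons (Pq.L [] 2054 (Pf.C 6 386))
 (Pq.cons (Pq.D 4 (Pq.cons (Pq.L [] 39360 (Pf.C 0 0x610082))
 (Pq.cons (Pq.L [] 33152 (Pf.W 89 1 [] [3,4] (Pf.cons (Pf.B 7 4 (Pf.C 22 519) (Pf.B 7 3 (Pf.C 32 391) (Pf.C 0 0x804383))) Pf.nil)))
 (Pq.cons (Pq.L [] 4106 (Pf.C 6 514))
 (Pq.cons (Pq.L [] 33152 (Pf.W 89 1 [] [3,4] (Pf.cons (Pf.B 7 4 (Pf.C 32 519) (Pf.B 7 3 (Pf.C 32 391) (Pf.C 0 0x804383))) Pf.nil)))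
 Pq.nil))))) Pq.nil))))) (Pq.cons (Pq.L [] 64 (Pf.C 4 257))
 (Pq.cons (Pq.D 3 (Pq.cons (Pq.D 4 (Pq.cons (Pq.L [] 39360 (Pf.C 0 0x808083))
 (Pq.cons (Pq.L [] 39360 (Pf.C 0 0x80c082))
 (Pq.cons (Pq.L [] 256 (Pf.C 4 513))
 (Pq.cons (Pq.L [] 39360 (Pf.C 0 0x80c082))
 Pq.nil))))) (Pq.cons (Pq.L [] 39360 (Pf.B 4 3 (Pf.W 89 1 [] [2,3] (Pf.cons (Pf.B 7 3 (Pf.C 22 391) (Pf.B 7 2 (Pf.C 32 263) (Pf.C 0 0x604382))) Pf.nil)) (Pf.B 4 2 (Pf.W 89 1 [] [2,3] (Pf.cons (Pf.B 7 3 (Pf.C 22 391) (Pf.B 7 2 (Pf.C 32 263) (Pf.C 0 0x604382))) Pf.nil)) (Pf.C 0 0x604202))))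
 (Pq.cons (Pq.L [] 128 (Pf.C 4 385))
 (Pq.cons (Pq.D 4 (Pq.cons (Pq.L [] 39360 (Pf.C 0 0x610082))
 (Pq.cons (Pq.L [] 33152 (Pf.W 89 1 [] [3,4] (Pf.cons (Pf.B 7 4 (Pf.C 22 519) (Pf.B 7 3 (Pf.C 32 391) (Pf.C 0 0x804383))) Pf.nil)))
 (Pq.cons (Pq.L [] 256 (Pf.C 4 513))
 (Pq.cons (Pq.L [] 33152 (Pf.W 89 1 [] [3,4] (Pf.cons (Pf.B 7 4 (Pf.C 32 519) (Pf.B 7 3 (Pf.C 32 391) (Pf.C 0 0x804383))) Pf.nil)))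
 Pq.nil))))) Pq.nil))))) Pq.nil))))) (Pq.cons (Pq.D 2 (Pq.cons (Pq.L [] 64 (Pf.C 32 130))
 (Pq.cons (Pq.D 3 (Pq.cons (Pq.L [] 128 (Pf.C 32 131))
 (Pq.cons (Pq.D 4 (Pq.cons (Pq.L [] 256 (Pf.C 32 132))
 (Pq.cons (Pq.D 5 (Pq.cons (Pq.L [] 8768 (Pf.C 69 16645))
 (Pq.cons (Pq.L [] 0x4301a (Pf.C 10 82434))
 (Pq.cons (Pq.L [] 8210 (Pf.C 6 642))
 (Pq.cons (Pq.D 6 (Pq.cons (Pq.L [] 0x100631 (Pf.C 9 0x218005))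
 (Pq.cons (Pq.L [] 0x136ef7 (Pf.C 1 0x1810418280))
 (Pq.cons (Pq.L [] 16418 (Pf.C 6 770))
 (Pq.cons (Pq.L [] 0x106032 (Pf.C 15 0x418280))
 Pq.nil))))) Pq.nil))))) (Pq.cons (Pq.L [] 4106 (Pf.C 6 514))
 (Pq.cons (Pq.L [] 256 (Pf.C 5 513))
 Pq.nil))))) (Pq.cons (Pq.L [] 2054 (Pf.C 6 386))
 (Pq.cons (Pq.L [] 128 (Pf.C 5 385))
 Pq.nil))))) (Pq.cons (Pq.D 3 (Pq.cons (Pq.L [] 128 (Pf.C 32 131))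
 (Pq.cons (Pq.L [] 2054 (Pf.C 6 259))
 (Pq.cons (Pq.D 4 (Pq.cons (Pq.L [] 39375 (Pf.C 18 0x30208200))
 (Pq.cons (Pq.L [] 4106 (Pf.C 6 260))
 (Pq.cons (Pq.D 5 (Pq.cons (Pq.D 6 (Pq.cons (Pq.L [] 0x100631 (Pf.C 0 0x218280))
 (Pq.cons (Pq.L [] 16418 (Pf.C 6 262))
 (Pq.cons (Pq.L [] 0x1c7000 (Pf.C 8 0xc14202))
 (Pq.cons (Pq.L [] 0x100631 (Pf.C 9 0x214006))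
 Pq.nil))))) (Pq.cons (Pq.L [] 8210 (Pf.C 6 261))
 (Pq.cons (Pq.L [] 0x4301a (Pf.C 11 82434))
 (Pq.cons (Pq.L [] 0x40300 (Pf.W 89 4 [] [1,5] (Pf.cons (Pf.B 7 5 (Pf.C 32 647) (Pf.B 7 1 (Pf.C 32 135) (Pf.C 0 0xa10381))) Pf.nil)))
 Pq.nil))))) (Pq.cons (Pq.L [] 256 (Pf.C 5 513))
 Pq.nil))))) (Pq.cons (Pq.L [] 128 (Pf.C 5 385))
 Pq.nil))))) (Pq.cons (Pq.L [] 64 (Pf.C 5 257))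
 Pq.nil))))) Pq.nil))))) Pq.nil))))) Pq.nil))
theorem e3_o17 : AllRef e3_T e3_G37 (applyObl d_T 2 [39,48,46,50] [0,0,0,0] [(39,0x5000000000000),(48,0x8000000000),(50,0x8000000000)]) :=
  chkPq_sound e3_o17c _ (by decide +kernel)
noncomputable def e3_o18c : Pq := (Pq.cons (Pq.D 0 (Pq.cons (Pq.D 1 (Pq.cons (Pq.L [] 1 (Pf.C 3 128))
 (Pq.cons (Pq.D 2 (Pq.cons (Pq.L [] 2 (Pf.C 3 256))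
 (Pq.cons (Pq.L [] 4 (Pf.C 4 257))
 (Pq.cons (Pq.L [] 2 (Pf.W 82 0 [] [0,2] (Pf.cons (Pf.B 3 2 (Pf.C 32 259) (Pf.B 3 0 (Pf.C 22 3) (Pf.C 69 32771))) Pf.nil)))
 Pq.nil)))) (Pq.cons (Pq.L [] 1 (Pf.W 82 0 [] [0,1] (Pf.cons (Pf.B 3 1 (Pf.C 32 131) (Pf.B 3 0 (Pf.C 22 3) (Pf.C 69 16387))) Pf.nil)))
 Pq.nil)))) (Pq.cons (Pq.D 1 (Pq.cons (Pq.D 2 (Pq.cons (Pq.L [] 4 (Pf.C 3 257))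
 (Pq.cons (Pq.L [] 2 (Pf.C 4 256))
 (Pq.cons (Pq.L [] 4 (Pf.W 82 0 [] [1,2] (Pf.cons (Pf.B 3 2 (Pf.C 32 259) (Pf.B 3 1 (Pf.C 22 131) (Pf.C 69 32899))) Pf.nil)))
 Pq.nil)))) (Pq.cons (Pq.L [] 1 (Pf.C 4 128))
 (Pq.cons (Pq.D 2 (Pq.cons (Pq.L [] 4 (Pf.W 82 0 [] [1,2] (Pf.cons (Pf.B 3 2 (Pf.C 22 259) (Pf.B 3 1 (Pf.C 32 131) (Pf.C 69 16643))) Pf.nil)))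
 (Pq.cons (Pq.L [] 2 (Pf.C 4 256))
 (Pq.cons (Pq.L [] 4 (Pf.C 5 257))
 Pq.nil)))) Pq.nil)))) (Pq.cons (Pq.D 1 (Pq.cons (Pq.L [] 1 (Pf.W 82 0 [] [0,1] (Pf.cons (Pf.B 3 1 (Pf.C 22 131) (Pf.B 3 0 (Pf.C 32 3) (Pf.C 69 131))) Pf.nil)))
 (Pq.cons (Pq.D 2 (Pq.cons (Pq.L [] 2 (Pf.W 82 0 [] [0,2] (Pf.cons (Pf.B 3 2 (Pf.C 22 259) (Pf.B 3 0 (Pf.C 32 3) (Pf.C 69 259))) Pf.nil)))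
 (Pq.cons (Pq.L [] 4 (Pf.C 4 257))
 (Pq.cons (Pq.L [] 2 (Pf.C 5 256))
 Pq.nil)))) (Pq.cons (Pq.L [] 1 (Pf.C 5 128))
 Pq.nil)))) Pq.nil)))) (Pq.cons (Pq.L [] 0x136ef7 (Pf.C 1 0x1810418280))
 Pq.nil))
theorem e3_o18 : AllRef e3_T e3_G37 (applyObl d_T 2 [49,47,51] [0,0,0] []) :=
  chkPq_sound e3_o18c _ (by decide +kernel)
noncomputable def e3_o19c : Pq := (Pq.cons (Pq.L [] 0 (Pf.W 80 0 [] [0] (Pf.cons (Pf.C 51 1) Pf.nil)))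
 Pq.nil)
theorem e3_o19 : AllRef e3_T e3_G26 (List.map pat1 [35]) :=
  chkPq_sound e3_o19c _ (by decide +kernel)
noncomputable def e3_o20c : Pq := (Pq.cons (Pq.L [] 1 (Pf.W 80 0 [] [0,1] (Pf.cons (Pf.B 2 1 (Pf.B 2 0 (Pf.W 31 2 [] [0,1] (Pf.cons (Pf.B 3 1 (Pf.C 32 385) (Pf.B 3 0 (Pf.C 32 384) (Pf.C 9 0x20c002))) Pf.nil)) (Pf.C 2 2)) (Pf.C 2 130)) Pf.nil)))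
 (Pq.cons (Pq.L [] 1 (Pf.C 2 128))
 Pq.nil))
theorem e3_o20 : AllRef e3_T e3_G38 (hitObl [39] e3_h49) :=
  chkPq_sound e3_o20c _ (by decide +kernel)
noncomputable def e3_o21c : Pq := (Pq.cons (Pq.L [] 0 (Pf.C 95 0))
 Pq.nil)
theorem e3_o21 : AllRef e3_T e3_G39 (List.map pat1 [52]) :=
  chkPq_sound e3_o21c _ (by decide +kernel)
noncomputable def e3_o22c : Pq := (Pq.cons (Pq.L [] 2 (Pf.C 22 2))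
 (Pq.cons (Pq.L [] 1 (Pf.C 97 128))
 (Pq.cons (Pq.L [] 1 (Pf.C 99 128))
 (Pq.cons (Pq.L [] 1 (Pf.C 3 128))
 (Pq.cons (Pq.L [] 3 (Pf.B 2 1 (Pf.W 100 1 [] [0,2] (Pf.cons (Pf.B 3 0 (Pf.B 3 2 (Pf.W 100 2 [] [0,1,3] (Pf.cons (Pf.B 4 3 (Pf.B 4 0 (Pf.B 4 1 (Pf.C 16 0x30200104) (Pf.W 96 4 [] [1,2] (Pf.cons (Pf.B 5 2 (Pf.C 22 261) (Pf.B 5 1 (Pf.C 22 133) (Pf.C 0 0x410281))) Pf.nil))) (Pf.C 4 4)) (Pf.C 4 388)) Pf.nil)) (Pf.W 96 3 [] [1,2] (Pf.cons (Pf.B 4 2 (Pf.C 22 260) (Pf.B 4 1 (Pf.C 22 132) (Pf.C 0 0x40c201))) Pf.nil))) (Pf.C 4 3)) Pf.nil)) (Pf.C 3 130)))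
 (Pq.cons (Pq.L [] 3 (Pf.B 2 1 (Pf.W 100 1 [] [0,2] (Pf.cons (Pf.B 3 2 (Pf.B 3 0 (Pf.C 6 386) (Pf.W 96 3 [] [0,1] (Pf.cons (Pf.B 4 1 (Pf.C 22 132) (Pf.B 4 0 (Pf.C 0 49284) (Pf.C 99 512))) Pf.nil))) (Pf.W 96 3 [] [1,2] (Pf.cons (Pf.B 4 2 (Pf.C 22 260) (Pf.B 4 1 (Pf.C 22 132) (Pf.C 0 0x40c201))) Pf.nil))) Pf.nil)) (Pf.C 3 130)))
 (Pq.cons (Pq.L [] 1 (Pf.C 3 128))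
 (Pq.cons (Pq.L [] 3 (Pf.B 2 1 (Pf.W 100 1 [] [0,2] (Pf.cons (Pf.B 3 0 (Pf.B 3 2 (Pf.W 100 2 [] [0,1,3] (Pf.cons (Pf.B 4 3 (Pf.B 4 0 (Pf.B 4 1 (Pf.C 16 0x30200104) (Pf.W 96 4 [] [1,2] (Pf.cons (Pf.B 5 2 (Pf.C 22 261) (Pf.B 5 1 (Pf.C 22 133) (Pf.C 0 0x410281))) Pf.nil))) (Pf.C 4 4)) (Pf.C 4 388)) Pf.nil)) (Pf.W 96 3 [] [1,2] (Pf.cons (Pf.B 4 2 (Pf.C 22 260) (Pf.B 4 1 (Pf.C 22 132) (Pf.C 0 0x40c201))) Pf.nil))) (Pf.C 4 3)) Pf.nil)) (Pf.C 3 130)))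
 (Pq.cons (Pq.L [] 3 (Pf.B 2 1 (Pf.W 100 1 [] [0,2] (Pf.cons (Pf.B 3 2 (Pf.B 3 0 (Pf.C 6 386) (Pf.W 96 3 [] [0,1] (Pf.cons (Pf.B 4 1 (Pf.C 22 132) (Pf.B 4 0 (Pf.C 0 49284) (Pf.C 99 512))) Pf.nil))) (Pf.W 96 3 [] [1,2] (Pf.cons (Pf.B 4 2 (Pf.C 22 260) (Pf.B 4 1 (Pf.C 22 132) (Pf.C 0 0x40c201))) Pf.nil))) Pf.nil)) (Pf.C 3 130)))
 (Pq.cons (Pq.L [] 1 (Pf.C 3 128))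
 (Pq.cons (Pq.L [] 3 (Pf.B 2 1 (Pf.W 103 1 [] [0,2] (Pf.cons (Pf.B 3 2 (Pf.B 3 0 (Pf.C 6 49154) (Pf.W 98 3 [] [0,1] (Pf.cons (Pf.B 4 1 (Pf.C 22 132) (Pf.B 4 0 (Pf.C 0 49284) (Pf.C 97 512))) Pf.nil))) (Pf.W 98 3 [] [1,2] (Pf.cons (Pf.B 4 2 (Pf.C 22 260) (Pf.B 4 1 (Pf.C 22 132) (Pf.C 0 0x40c201))) Pf.nil))) Pf.nil)) (Pf.C 3 130)))
 (Pq.cons (Pq.L [] 3 (Pf.B 2 1 (Pf.W 103 1 [] [0,2] (Pf.cons (Pf.B 3 0 (Pf.B 3 2 (Pf.W 103 2 [] [0,1,3] (Pf.cons (Pf.B 4 3 (Pf.B 4 0 (Pf.B 4 1 (Pf.C 17 0x30200104) (Pf.W 98 4 [] [1,2] (Pf.cons (Pf.B 5 2 (Pf.C 22 261) (Pf.B 5 1 (Pf.C 22 133) (Pf.C 0 0x410281))) Pf.nil))) (Pf.C 5 4)) (Pf.C 5 388)) Pf.nil)) (Pf.W 98 3 [] [1,2] (Pf.cons (Pf.B 4 2 (Pf.C 22 260) (Pf.B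 4 1 (Pf.C 22 132) (Pf.C 0 0x40c201))) Pf.nil))) (Pf.C 5 3)) Pf.nil)) (Pf.C 3 130)))
 (Pq.cons (Pq.L [] 1 (Pf.C 101 128))
 (Pq.cons (Pq.L [] 1 (Pf.C 4 128))
 (Pq.cons (Pq.L [] 2 (Pf.B 2 1 (Pf.W 96 2 [] [0] (Pf.cons (Pf.B 3 0 (Pf.C 66 259) (Pf.C 99 384)) Pf.nil)) (Pf.C 4 130)))
 (Pq.cons (Pq.L [] 1 (Pf.C 104 128))
 (Pq.cons (Pq.L [] 2 (Pf.B 2 1 (Pf.W 98 2 [] [0] (Pf.cons (Pf.B 3 0 (Pf.C 67 32771) (Pf.C 97 384)) Pf.nil)) (Pf.C 5 130)))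
 (Pq.cons (Pq.L [] 1 (Pf.C 5 128))
 Pq.nil))))))))))))))))))
theorem e3_o22 : AllRef e3_T e3_G45 (splitObl [38,59,60,61,53,55] [62,54,56]) :=
  chkPq_sound e3_o22c _ (by decide +kernel)
noncomputable def e3_o23c : Pq := (Pq.cons (Pq.L [] 0xfdeffa (Pf.B 6 4 (Pf.B 8 4 (Pf.B 7 5 (Pf.C 16 0x40a0c407) (Pf.B 7 2 (Pf.C 16 0x80e14002) (Pf.B 6 5 (Pf.C 16 0x40a0c406) (Pf.B 6 2 (Pf.C 16 0x80c14002) (Pf.W 96 2 [] [6,7] (Pf.cons (Pf.B 9 7 (Pf.C 22 905) (Pf.B 9 6 (Pf.C 22 777) (Pf.C 0 0xe08486))) Pf.nil)))))) (Pf.B 4 2 (Pf.C 16 0x80814002) (Pf.B 7 5 (Pf.B 6 5 (Pf.C 16 0x71018185) (Pf.B 6 2 (Pf.C 16 0x80c14002) (Pf.B 7 2 (Pf.B 3 2 (Pf.W 96 2 [] [4,6] (Pf.cons (Pf.B 9 6 (Pf.C 22 777) (Pf.B 9 4 (Pf.C 22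 521) (Pf.C 0 0xc08484))) Pf.nil)) (Pf.C 16 0x40c407)) (Pf.W 96 2 [] [6,7] (Pf.cons (Pf.B 9 7 (Pf.C 22 905) (Pf.B 9 6 (Pf.C 22 777) (Pf.C 0 0xe08486))) Pf.nil))))) (Pf.B 7 2 (Pf.C 16 0x80e14002) (Pf.B 6 2 (Pf.B 3 2 (Pf.W 96 2 [] [4,7] (Pf.cons (Pf.B 9 7 (Pf.C 22 905) (Pf.B 9 4 (Pf.C 22 521) (Pf.C 0 0xe08484))) Pf.nil)) (Pf.C 16 0x40c406)) (Pf.W 96 2 [] [6,7] (Pf.cons (Pf.B 9 7 (Pf.C 22 905) (Pf.B 9 6 (Pf.C 22 777) (Pf.C 0 0xe08486))) Pf.nil))))))) (Pf.C 3 518)))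
 (Pq.cons (Pq.L [] 0x3fb367f4 (Pf.B 3 2 (Pf.C 16 0x80614082) (Pf.B 7 5 (Pf.B 6 5 (Pf.C 16 0x71018205) (Pf.B 6 2 (Pf.C 16 0x80c14082) (Pf.B 7 2 (Pf.B 4 2 (Pf.W 96 2 [] [3,6] (Pf.cons (Pf.B 9 6 (Pf.C 22 777) (Pf.B 9 3 (Pf.C 22 393) (Pf.C 0 0xc08483))) Pf.nil)) (Pf.C 16 0x10410407)) (Pf.W 96 2 [] [6,7] (Pf.cons (Pf.B 9 7 (Pf.C 22 905) (Pf.B 9 6 (Pf.C 22 777) (Pf.C 0 0xe08486))) Pf.nil))))) (Pf.B 7 2 (Pf.C 16 0x80e14082) (Pf.B 6 2 (Pf.B 4 2 (Pf.W 96 2 [] [3,7] (Pf.cons (Pf.B 9 7 (Pf.C 22 905) (Pf.B 9 3 (Pf.C 22 393) (Pf.C 0 0xe08483))) Pf.nil)) (Pf.C 16 0x10410406)) (Pf.W 96 2 [] [6,7] (Pf.cons (Pf.B 9 7 (Pf.C 22 905) (Pf.B 9 6 (Pf.C 22 777) (Pf.C 0 0xe08486))) Pf.nil)))))))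
 (Pq.cons (Pq.L [] 0x3522444f (Pf.B 7 2 (Pf.B 6 2 (Pf.B 4 2 (Pf.B 3 2 (Pf.W 96 2 [] [0,1] (Pf.cons (Pf.B 9 1 (Pf.C 22 137) (Pf.B 9 0 (Pf.C 22 9) (Pf.C 0 0x208480))) Pf.nil)) (Pf.W 96 2 [] [1,3] (Pf.cons (Pf.B 9 3 (Pf.C 22 393) (Pf.B 9 1 (Pf.C 22 137) (Pf.C 0 0x608481))) Pf.nil))) (Pf.B 3 2 (Pf.W 96 2 [] [1,4] (Pf.cons (Pf.B 9 4 (Pf.C 22 521) (Pf.B 9 1 (Pf.C 22 137) (Pf.C 0 0x808481))) Pf.nil)) (Pf.W 96 2 [] [3,4] (Pf.cons (Pf.B 9 4 (Pf.C 22 521) (Pf.B 9 3 (Pf.C 22 393) (Pf.C 0 0x808483))) Pf.nil)))) (Pf.B 4 2 (Pf.B 3 2 (Pf.W 96 2 [] [1,6] (Pf.cons (Pf.B 9 6 (Pf.C 22 777) (Pf.B 9 1 (Pf.C 22 137) (Pf.C 0 0xc08481))) Pf.nil)) (Pf.W 96 2 [] [3,6] (Pf.cons (Pf.B 9 6 (Pf.C 22 777) (Pf.B 9 3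 (Pf.C 22 393) (Pf.C 0 0xc08483))) Pf.nil))) (Pf.W 96 2 [] [4,6] (Pf.cons (Pf.B 9 6 (Pf.C 22 777) (Pf.B 9 4 (Pf.C 22 521) (Pf.C 0 0xc08484))) Pf.nil)))) (Pf.B 6 2 (Pf.B 4 2 (Pf.B 3 2 (Pf.W 96 2 [] [1,7] (Pf.cons (Pf.B 9 7 (Pf.C 22 905) (Pf.B 9 1 (Pf.C 22 137) (Pf.C 0 0xe08481))) Pf.nil)) (Pf.W 96 2 [] [3,7] (Pf.cons (Pf.B 9 7 (Pf.C 22 905) (Pf.B 9 3 (Pf.C 22 393) (Pf.C 0 0xe08483))) Pf.nil))) (Pf.W 96 2 [] [4,7] (Pf.cons (Pf.B 9 7 (Pf.C 22 905) (Pf.B 9 4 (Pf.C 22 521) (Pf.C 0 0xe08484))) Pf.nil))) (Pf.W 96 2 [] [6,7] (Pf.cons (Pf.B 9 7 (Pf.C 22 905) (Pf.B 9 6 (Pf.C 22 777) (Pf.C 0 0xe08486))) Pf.nil)))))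
 (Pq.cons (Pq.L [] 64 (Pf.C 3 385))
 (Pq.cons (Pq.L [] 64 (Pf.C 3 512))
 (Pq.cons (Pq.L [] 64 (Pf.C 4 642))
 (Pq.cons (Pq.L [] 64 (Pf.C 3 513))
 (Pq.cons (Pq.L [] 64 (Pf.C 3 384))
 (Pq.cons (Pq.L [] 0xfdeffa (Pf.B 6 4 (Pf.B 8 4 (Pf.B 7 5 (Pf.C 17 0x40a0c407) (Pf.B 7 2 (Pf.C 17 0x80e14002) (Pf.B 6 5 (Pf.C 17 0x40a0c406) (Pf.B 6 2 (Pf.C 17 0x80c14002) (Pf.W 98 2 [] [6,7] (Pf.cons (Pf.B 9 7 (Pf.C 22 905) (Pf.B 9 6 (Pf.C 22 777) (Pf.C 0 0xe08486))) Pf.nil)))))) (Pf.B 4 2 (Pf.C 17 0x80814002) (Pf.B 7 5 (Pf.B 6 5 (Pf.C 17 0x71018185) (Pf.B 6 2 (Pf.C 17 0x80c14002) (Pf.B 7 2 (Pf.B 3 2 (Pf.W 98 2 [] [4,6] (Pf.cons (Pf.B 9 6 (Pf.C 22 777) (Pf.B 9 4 (Pf.C 22 521) (Pf.C 0 0xc08484))) Pf.nil)) (Pf.C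 17 0x40c407)) (Pf.W 98 2 [] [6,7] (Pf.cons (Pf.B 9 7 (Pf.C 22 905) (Pf.B 9 6 (Pf.C 22 777) (Pf.C 0 0xe08486))) Pf.nil))))) (Pf.B 7 2 (Pf.C 17 0x80e14002) (Pf.B 6 2 (Pf.B 3 2 (Pf.W 98 2 [] [4,7] (Pf.cons (Pf.B 9 7 (Pf.C 22 905) (Pf.B 9 4 (Pf.C 22 521) (Pf.C 0 0xe08484))) Pf.nil)) (Pf.C 17 0x40c406)) (Pf.W 98 2 [] [6,7] (Pf.cons (Pf.B 9 7 (Pf.C 22 905) (Pf.B 9 6 (Pf.C 22 777) (Pf.C 0 0xe08486))) Pf.nil))))))) (Pf.C 3 518)))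
 (Pq.cons (Pq.L [] 0xd2104f (Pf.B 6 4 (Pf.B 6 1 (Pf.B 3 1 (Pf.B 7 2 (Pf.B 6 2 (Pf.B 4 2 (Pf.B 3 2 (Pf.W 98 2 [] [0,1] (Pf.cons (Pf.B 9 1 (Pf.C 22 137) (Pf.B 9 0 (Pf.C 22 9) (Pf.C 0 0x208480))) Pf.nil)) (Pf.W 98 2 [] [1,3] (Pf.cons (Pf.B 9 3 (Pf.C 22 393) (Pf.B 9 1 (Pf.C 22 137) (Pf.C 0 0x608481))) Pf.nil))) (Pf.B 3 2 (Pf.W 98 2 [] [1,4] (Pf.cons (Pf.B 9 4 (Pf.C 22 521) (Pf.B 9 1 (Pf.C 22 137) (Pf.C 0 0x808481))) Pf.nil)) (Pf.W 98 2 [] [3,4] (Pf.cons (Pf.B 9 4 (Pf.C 22 521) (Pf.B 9 3 (Pf.C 22 393) (Pf.C 0 0x808483))) Pf.nil)))) (Pf.B 4 2 (Pf.B 3 2 (Pf.W 98 2 [] [1,6] (Pf.cons (Pf.B 9 6 (Pf.C 22 777) (Pf.B 9 1 (Pf.C 22 137) (Pf.C 0 0xc08481))) Pf.nil)) (Pf.W 98 2 [] [3,6] (Pf.cons (Pf.B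 9 6 (Pf.C 22 777) (Pf.B 9 3 (Pf.C 22 393) (Pf.C 0 0xc08483))) Pf.nil))) (Pf.W 98 2 [] [4,6] (Pf.cons (Pf.B 9 6 (Pf.C 22 777) (Pf.B 9 4 (Pf.C 22 521) (Pf.C 0 0xc08484))) Pf.nil)))) (Pf.B 6 2 (Pf.B 4 2 (Pf.B 3 2 (Pf.W 98 2 [] [1,7] (Pf.cons (Pf.B 9 7 (Pf.C 22 905) (Pf.B 9 1 (Pf.C 22 137) (Pf.C 0 0xe08481))) Pf.nil)) (Pf.W 98 2 [] [3,7] (Pf.cons (Pf.B 9 7 (Pf.C 22 905) (Pf.B 9 3 (Pf.C 22 393) (Pf.C 0 0xe08483))) Pf.nil))) (Pf.W 98 2 [] [4,7] (Pf.cons (Pf.B 9 7 (Pf.C 22 905) (Pf.B 9 4 (Pf.C 22 521) (Pf.C 0 0xe08484))) Pf.nil))) (Pf.W 98 2 [] [6,7] (Pf.cons (Pf.B 9 7 (Pf.C 22 905) (Pf.B 9 6 (Pf.C 22 777) (Pf.C 0 0xe08486))) Pf.nil)))) (Pf.C 3 131)) (Pf.C 3 134)) (Pf.C 3 518)))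
 (Pq.cons (Pq.L [] 64 (Pf.C 3 512))
 (Pq.cons (Pq.L [] 64 (Pf.C 5 642))
 (Pq.cons (Pq.L [] 64 (Pf.C 3 513))
 (Pq.cons (Pq.L [] 64 (Pf.C 3 384))
 (Pq.cons (Pq.L [] 0x1bba4f (Pf.B 8 1 (Pf.B 7 2 (Pf.B 5 1 (Pf.B 4 2 (Pf.B 6 4 (Pf.B 6 2 (Pf.B 6 1 (Pf.C 16 0x20004386) (Pf.B 3 2 (Pf.B 3 1 (Pf.C 16 0x20004203) (Pf.W 96 1 [] [3,6] (Pf.cons (Pf.B 9 6 (Pf.C 22 777) (Pf.B 9 3 (Pf.C 22 393) (Pf.C 0 0xc04483))) Pf.nil))) (Pf.C 16 0x40c386))) (Pf.B 3 2 (Pf.C 16 0x70c08203) (Pf.W 96 2 [] [3,6] (Pf.cons (Pf.B 9 6 (Pf.C 22 777) (Pf.B 9 3 (Pf.C 22 393) (Pf.C 0 0xc08483))) Pf.nil)))) (Pf.B 6 1 (Pf.C 16 0x70c10001) (Pf.B 3 1 (Pf.W 96 1 [] [0,6] (Pf.cons (Pf.B 9 6 (Pf.C 22 777) (Pf.B 9 0 (Pf.C 22 9) (Pf.C 0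 0xc04480))) Pf.nil)) (Pf.W 96 1 [] [3,6] (Pf.cons (Pf.B 9 6 (Pf.C 22 777) (Pf.B 9 3 (Pf.C 22 393) (Pf.C 0 0xc04483))) Pf.nil))))) (Pf.C 4 260)) (Pf.C 4 133)) (Pf.C 4 263)) (Pf.C 4 136)))
 (Pq.cons (Pq.L [] 0x101208 (Pf.B 8 4 (Pf.B 4 2 (Pf.B 6 4 (Pf.W 96 4 [] [0,3] (Pf.cons (Pf.B 9 3 (Pf.C 22 393) (Pf.B 9 0 (Pf.C 22 9) (Pf.C 0 0x610480))) Pf.nil)) (Pf.W 96 4 [] [3,6] (Pf.cons (Pf.B 9 6 (Pf.C 22 777) (Pf.B 9 3 (Pf.C 22 393) (Pf.C 0 0xc10483))) Pf.nil))) (Pf.C 4 260)) (Pf.C 4 520)))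
 (Pq.cons (Pq.L [] 64 (Pf.C 4 642))
 (Pq.cons (Pq.L [] 64 (Pf.C 4 513))
 (Pq.cons (Pq.L [] 64 (Pf.C 3 384))
 (Pq.cons (Pq.L [] 61 (Pf.B 5 2 (Pf.B 4 1 (Pf.B 3 0 (Pf.B 5 1 (Pf.B 3 1 (Pf.C 6 82051) (Pf.W 96 1 [] [3,4,5] (Pf.cons (Pf.B 6 5 (Pf.C 66 82054) (Pf.B 6 4 (Pf.C 67 82438) (Pf.B 6 3 (Pf.C 22 390) (Pf.C 0 0x80c301)))) Pf.nil))) (Pf.B 4 2 (Pf.B 3 1 (Pf.W 96 1 [] [2,4,5] (Pf.cons (Pf.B 6 2 (Pf.C 66 32902) (Pf.B 6 5 (Pf.B 6 4 (Pf.C 67 33286) (Pf.C 66 82438)) (Pf.C 68 33414))) Pf.nil)) (Pf.W 96 1 [] [2,3,4,5] (Pf.cons (Pf.B 6 3 (Pf.C 22 390) (Pf.B 6 5 (Pf.B 6 4 (Pf.B 6 2 (Pf.C 66 32902) (Pf.C 67 33286)) (Pf.C 66 82438)) (Pf.C 0 0x604305))) Pf.nil))) (Pf.B 3 2 (Pf.B 3 1 (Pf.C 6 32899) (Pf.W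 96 1 [] [0,3] (Pf.cons (Pf.B 6 3 (Pf.C 22 390) (Pf.B 6 0 (Pf.C 22 6) (Pf.C 0 0x604300))) Pf.nil))) (Pf.B 3 1 (Pf.W 96 1 [] [2,3,4,5] (Pf.cons (Pf.B 6 3 (Pf.C 22 390) (Pf.B 6 2 (Pf.C 66 32902) (Pf.B 6 5 (Pf.B 6 4 (Pf.C 0 0x80c106) (Pf.C 66 82438)) (Pf.C 68 33414)))) Pf.nil)) (Pf.W 96 1 [] [2,3,4,5] (Pf.cons (Pf.B 6 3 (Pf.C 22 390) (Pf.B 6 5 (Pf.B 6 4 (Pf.B 6 2 (Pf.C 66 32902) (Pf.C 0 0x80c106)) (Pf.C 66 82438)) (Pf.C 0 0x604305))) Pf.nil)))))) (Pf.C 3 3)) (Pf.C 4 132)) (Pf.C 5 261)))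
 (Pq.cons (Pq.L [] 22 (Pf.B 5 2 (Pf.B 4 1 (Pf.B 3 0 (Pf.B 5 1 (Pf.B 3 1 (Pf.W 96 1 [] [2,5] (Pf.cons (Pf.B 6 5 (Pf.C 66 82054) (Pf.B 6 2 (Pf.C 66 32902) (Pf.C 68 82182))) Pf.nil)) (Pf.W 96 1 [] [3,5] (Pf.cons (Pf.B 6 5 (Pf.C 66 82054) (Pf.B 6 3 (Pf.C 22 390) (Pf.C 0 0xa0c301))) Pf.nil))) (Pf.B 3 2 (Pf.B 3 1 (Pf.C 6 32899) (Pf.W 96 1 [] [2,3,5] (Pf.cons (Pf.B 6 3 (Pf.C 22 390) (Pf.B 6 5 (Pf.C 0 0xa0c086) (Pf.B 6 2 (Pf.C 66 32902) (Pf.C 68 82182)))) Pf.nil))) (Pf.B 3 1 (Pf.W 96 1 [] [0,2,3] (Pf.cons (Pf.B 6 3 (Pf.C 22 390) (Pf.B 6 2 (Pf.C 66 32902) (Pf.B 6 0 (Pf.C 22 6) (Pf.C 0 0x608300)))) Pf.nil)) (Pf.W 96 1 [] [2,3,5] (Pf.cons (Pf.B 6 3 (Pf.C 22 390) (Pf.B 6 5 (Pf.C 0 0xa0c086) (Pf.B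 6 2 (Pf.C 66 32902) (Pf.C 68 82182)))) Pf.nil))))) (Pf.C 3 3)) (Pf.C 4 132)) (Pf.C 5 261)))
 (Pq.cons (Pq.L [] 0x1bba4f (Pf.B 8 1 (Pf.B 7 2 (Pf.B 5 1 (Pf.B 4 2 (Pf.B 6 4 (Pf.B 6 2 (Pf.B 6 1 (Pf.C 17 0x20004386) (Pf.B 3 2 (Pf.B 3 1 (Pf.C 17 0x20004203) (Pf.W 98 1 [] [3,6] (Pf.cons (Pf.B 9 6 (Pf.C 22 777) (Pf.B 9 3 (Pf.C 22 393) (Pf.C 0 0xc04483))) Pf.nil))) (Pf.C 17 0x40c386))) (Pf.B 3 2 (Pf.C 17 0x70c08203) (Pf.W 98 2 [] [3,6] (Pf.cons (Pf.B 9 6 (Pf.C 22 777) (Pf.B 9 3 (Pf.C 22 393) (Pf.C 0 0xc08483))) Pf.nil)))) (Pf.B 6 1 (Pf.C 17 0x70c10001) (Pf.B 3 1 (Pf.W 98 1 [] [0,6] (Pf.cons (Pf.B 9 6 (Pf.C 22 777) (Pf.B 9 0 (Pf.C 22 9) (Pf.C 0 0xc04480))) Pf.nil)) (Pf.W 98 1 [] [3,6] (Pf.cons (Pf.B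 9 6 (Pf.C 22 777) (Pf.B 9 3 (Pf.C 22 393) (Pf.C 0 0xc04483))) Pf.nil))))) (Pf.C 5 260)) (Pf.C 5 133)) (Pf.C 5 263)) (Pf.C 5 136)))
 (Pq.cons (Pq.L [] 0x101208 (Pf.B 8 4 (Pf.B 4 2 (Pf.B 6 4 (Pf.W 98 4 [] [0,3] (Pf.cons (Pf.B 9 3 (Pf.C 22 393) (Pf.B 9 0 (Pf.C 22 9) (Pf.C 0 0x610480))) Pf.nil)) (Pf.W 98 4 [] [3,6] (Pf.cons (Pf.B 9 6 (Pf.C 22 777) (Pf.B 9 3 (Pf.C 22 393) (Pf.C 0 0xc10483))) Pf.nil))) (Pf.C 5 260)) (Pf.C 5 520)))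
 (Pq.cons (Pq.L [] 64 (Pf.C 5 642))
 (Pq.cons (Pq.L [] 64 (Pf.C 5 513))
 (Pq.cons (Pq.L [] 64 (Pf.C 3 384))
 (Pq.cons (Pq.L [] 0xfdeffa (Pf.B 6 4 (Pf.B 8 4 (Pf.B 7 5 (Pf.C 16 0x40a0c407) (Pf.B 7 2 (Pf.C 16 0x80e14002) (Pf.B 6 5 (Pf.C 16 0x40a0c406) (Pf.B 6 2 (Pf.C 16 0x80c14002) (Pf.W 96 2 [] [6,7] (Pf.cons (Pf.B 9 7 (Pf.C 22 905) (Pf.B 9 6 (Pf.C 22 777) (Pf.C 0 0xe08486))) Pf.nil)))))) (Pf.B 4 2 (Pf.C 16 0x80814002) (Pf.B 7 5 (Pf.B 6 5 (Pf.C 16 0x71018185) (Pf.B 6 2 (Pf.C 16 0x80c14002) (Pf.B 7 2 (Pf.B 3 2 (Pf.W 96 2 [] [4,6] (Pf.cons (Pf.B 9 6 (Pf.C 22 777) (Pf.B 9 4 (Pf.C 22 521) (Pf.C 0 0xc08484))) Pf.nil)) (Pf.C 16 0x40c407)) (Pf.W 96 2 [] [6,7] (Pf.cons (Pf.B 9 7 (Pf.C 22 905) (Pf.B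 9 6 (Pf.C 22 777) (Pf.C 0 0xe08486))) Pf.nil))))) (Pf.B 7 2 (Pf.C 16 0x80e14002) (Pf.B 6 2 (Pf.B 3 2 (Pf.W 96 2 [] [4,7] (Pf.cons (Pf.B 9 7 (Pf.C 22 905) (Pf.B 9 4 (Pf.C 22 521) (Pf.C 0 0xe08484))) Pf.nil)) (Pf.C 16 0x40c406)) (Pf.W 96 2 [] [6,7] (Pf.cons (Pf.B 9 7 (Pf.C 22 905) (Pf.B 9 6 (Pf.C 22 777) (Pf.C 0 0xe08486))) Pf.nil))))))) (Pf.C 3 518)))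
 (Pq.cons (Pq.L [] 0x3fb367f4 (Pf.B 3 2 (Pf.C 16 0x80614082) (Pf.B 7 5 (Pf.B 6 5 (Pf.C 16 0x71018205) (Pf.B 6 2 (Pf.C 16 0x80c14082) (Pf.B 7 2 (Pf.B 4 2 (Pf.W 96 2 [] [3,6] (Pf.cons (Pf.B 9 6 (Pf.C 22 777) (Pf.B 9 3 (Pf.C 22 393) (Pf.C 0 0xc08483))) Pf.nil)) (Pf.C 16 0x10410407)) (Pf.W 96 2 [] [6,7] (Pf.cons (Pf.B 9 7 (Pf.C 22 905) (Pf.B 9 6 (Pf.C 22 777) (Pf.C 0 0xe08486))) Pf.nil))))) (Pf.B 7 2 (Pf.C 16 0x80e14082) (Pf.B 6 2 (Pf.B 4 2 (Pf.W 96 2 [] [3,7] (Pf.cons (Pf.B 9 7 (Pf.C 22 905) (Pf.B 9 3 (Pf.C 22 393) (Pf.C 0 0xe08483))) Pf.nil)) (Pf.C 16 0x10410406)) (Pf.W 96 2 [] [6,7] (Pf.cons (Pf.B 9 7 (Pf.C 22 905) (Pf.B 9 6 (Pf.C 22 777) (Pf.C 0 0xe08486))) Pf.nil)))))))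
 (Pq.cons (Pq.L [] 0x3522444f (Pf.B 7 2 (Pf.B 6 2 (Pf.B 4 2 (Pf.B 3 2 (Pf.W 96 2 [] [0,1] (Pf.cons (Pf.B 9 1 (Pf.C 22 137) (Pf.B 9 0 (Pf.C 22 9) (Pf.C 0 0x208480))) Pf.nil)) (Pf.W 96 2 [] [1,3] (Pf.cons (Pf.B 9 3 (Pf.C 22 393) (Pf.B 9 1 (Pf.C 22 137) (Pf.C 0 0x608481))) Pf.nil))) (Pf.B 3 2 (Pf.W 96 2 [] [1,4] (Pf.cons (Pf.B 9 4 (Pf.C 22 521) (Pf.B 9 1 (Pf.C 22 137) (Pf.C 0 0x808481))) Pf.nil)) (Pf.W 96 2 [] [3,4] (Pf.cons (Pf.B 9 4 (Pf.C 22 521) (Pf.B 9 3 (Pf.C 22 393) (Pf.C 0 0x808483))) Pf.nil)))) (Pf.B 4 2 (Pf.B 3 2 (Pf.W 96 2 [] [1,6] (Pf.cons (Pf.B 9 6 (Pf.C 22 777) (Pf.B 9 1 (Pf.C 22 137) (Pf.C 0 0xc08481))) Pf.nil)) (Pf.W 96 2 [] [3,6] (Pf.cons (Pf.B 9 6 (Pf.C 22 777) (Pf.B 9 3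 (Pf.C 22 393) (Pf.C 0 0xc08483))) Pf.nil))) (Pf.W 96 2 [] [4,6] (Pf.cons (Pf.B 9 6 (Pf.C 22 777) (Pf.B 9 4 (Pf.C 22 521) (Pf.C 0 0xc08484))) Pf.nil)))) (Pf.B 6 2 (Pf.B 4 2 (Pf.B 3 2 (Pf.W 96 2 [] [1,7] (Pf.cons (Pf.B 9 7 (Pf.C 22 905) (Pf.B 9 1 (Pf.C 22 137) (Pf.C 0 0xe08481))) Pf.nil)) (Pf.W 96 2 [] [3,7] (Pf.cons (Pf.B 9 7 (Pf.C 22 905) (Pf.B 9 3 (Pf.C 22 393) (Pf.C 0 0xe08483))) Pf.nil))) (Pf.W 96 2 [] [4,7] (Pf.cons (Pf.B 9 7 (Pf.C 22 905) (Pf.B 9 4 (Pf.C 22 521) (Pf.C 0 0xe08484))) Pf.nil))) (Pf.W 96 2 [] [6,7] (Pf.cons (Pf.B 9 7 (Pf.C 22 905) (Pf.B 9 6 (Pf.C 22 777) (Pf.C 0 0xe08486))) Pf.nil)))))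
 (Pq.cons (Pq.L [] 64 (Pf.C 3 385))
 (Pq.cons (Pq.L [] 64 (Pf.C 3 512))
 (Pq.cons (Pq.L [] 64 (Pf.C 4 642))
 (Pq.cons (Pq.L [] 64 (Pf.C 3 513))
 (Pq.cons (Pq.L [] 64 (Pf.C 3 384))
 (Pq.cons (Pq.L [] 0x1bba4f (Pf.B 8 1 (Pf.B 7 2 (Pf.B 5 1 (Pf.B 4 2 (Pf.B 6 4 (Pf.B 6 2 (Pf.B 6 1 (Pf.C 16 0x20004386) (Pf.B 3 2 (Pf.B 3 1 (Pf.C 16 0x20004203) (Pf.W 96 1 [] [3,6] (Pf.cons (Pf.B 9 6 (Pf.C 22 777) (Pf.B 9 3 (Pf.C 22 393) (Pf.C 0 0xc04483))) Pf.nil))) (Pf.C 16 0x40c386))) (Pf.B 3 2 (Pf.C 16 0x70c08203) (Pf.W 96 2 [] [3,6] (Pf.cons (Pf.B 9 6 (Pf.C 22 777) (Pf.B 9 3 (Pf.C 22 393) (Pf.C 0 0xc08483))) Pf.nil)))) (Pf.B 6 1 (Pf.C 16 0x70c10001) (Pf.B 3 1 (Pf.W 96 1 [] [0,6] (Pf.cons (Pf.B 9 6 (Pf.C 22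 777) (Pf.B 9 0 (Pf.C 22 9) (Pf.C 0 0xc04480))) Pf.nil)) (Pf.W 96 1 [] [3,6] (Pf.cons (Pf.B 9 6 (Pf.C 22 777) (Pf.B 9 3 (Pf.C 22 393) (Pf.C 0 0xc04483))) Pf.nil))))) (Pf.C 4 260)) (Pf.C 4 133)) (Pf.C 4 263)) (Pf.C 4 136)))
 (Pq.cons (Pq.L [] 0x101208 (Pf.B 8 4 (Pf.B 4 2 (Pf.B 6 4 (Pf.W 96 4 [] [0,3] (Pf.cons (Pf.B 9 3 (Pf.C 22 393) (Pf.B 9 0 (Pf.C 22 9) (Pf.C 0 0x610480))) Pf.nil)) (Pf.W 96 4 [] [3,6] (Pf.cons (Pf.B 9 6 (Pf.C 22 777) (Pf.B 9 3 (Pf.C 22 393) (Pf.C 0 0xc10483))) Pf.nil))) (Pf.C 4 260)) (Pf.C 4 520)))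
 (Pq.cons (Pq.L [] 64 (Pf.C 4 642))
 (Pq.cons (Pq.L [] 64 (Pf.C 4 513))
 (Pq.cons (Pq.L [] 64 (Pf.C 3 384))
 (Pq.cons (Pq.L [] 5 (Pf.B 4 1 (Pf.B 3 2 (Pf.B 3 1 (Pf.C 6 32899) (Pf.B 3 0 (Pf.W 96 1 [] [0,3] (Pf.cons (Pf.B 6 3 (Pf.C 22 390) (Pf.B 6 0 (Pf.C 22 6) (Pf.C 0 0x604300))) Pf.nil)) (Pf.C 3 3))) (Pf.C 102 259)) (Pf.C 4 132)))
 (Pq.cons (Pq.L [] 0xfdeffa (Pf.B 6 4 (Pf.B 8 4 (Pf.B 7 5 (Pf.C 17 0x40a0c407) (Pf.B 7 2 (Pf.C 17 0x80e14002) (Pf.B 6 5 (Pf.C 17 0x40a0c406) (Pf.B 6 2 (Pf.C 17 0x80c14002) (Pf.W 98 2 [] [6,7] (Pf.cons (Pf.B 9 7 (Pf.C 22 905) (Pf.B 9 6 (Pf.C 22 777) (Pf.C 0 0xe08486))) Pf.nil)))))) (Pf.B 4 2 (Pf.C 17 0x80814002) (Pf.B 7 5 (Pf.B 6 5 (Pf.C 17 0x71018185) (Pf.B 6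 2 (Pf.C 17 0x80c14002) (Pf.B 7 2 (Pf.B 3 2 (Pf.W 98 2 [] [4,6] (Pf.cons (Pf.B 9 6 (Pf.C 22 777) (Pf.B 9 4 (Pf.C 22 521) (Pf.C 0 0xc08484))) Pf.nil)) (Pf.C 17 0x40c407)) (Pf.W 98 2 [] [6,7] (Pf.cons (Pf.B 9 7 (Pf.C 22 905) (Pf.B 9 6 (Pf.C 22 777) (Pf.C 0 0xe08486))) Pf.nil))))) (Pf.B 7 2 (Pf.C 17 0x80e14002) (Pf.B 6 2 (Pf.B 3 2 (Pf.W 98 2 [] [4,7] (Pf.cons (Pf.B 9 7 (Pf.C 22 905) (Pf.B 9 4 (Pf.C 22 521) (Pf.C 0 0xe08484))) Pf.nil)) (Pf.C 17 0x40c406)) (Pf.W 98 2 [] [6,7] (Pf.cons (Pf.B 9 7 (Pf.C 22 905) (Pf.B 9 6 (Pf.C 22 777) (Pf.C 0 0xe08486))) Pf.nil))))))) (Pf.C 3 518)))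
 (Pq.cons (Pq.L [] 0xd2104f (Pf.B 6 4 (Pf.B 6 1 (Pf.B 3 1 (Pf.B 7 2 (Pf.B 6 2 (Pf.B 4 2 (Pf.B 3 2 (Pf.W 98 2 [] [0,1] (Pf.cons (Pf.B 9 1 (Pf.C 22 137) (Pf.B 9 0 (Pf.C 22 9) (Pf.C 0 0x208480))) Pf.nil)) (Pf.W 98 2 [] [1,3] (Pf.cons (Pf.B 9 3 (Pf.C 22 393) (Pf.B 9 1 (Pf.C 22 137) (Pf.C 0 0x608481))) Pf.nil))) (Pf.B 3 2 (Pf.W 98 2 [] [1,4] (Pf.cons (Pf.B 9 4 (Pf.C 22 521) (Pf.B 9 1 (Pf.C 22 137) (Pf.C 0 0x808481))) Pf.nil)) (Pf.W 98 2 [] [3,4] (Pf.cons (Pf.B 9 4 (Pf.C 22 521) (Pf.B 9 3 (Pf.C 22 393) (Pf.C 0 0x808483))) Pf.nil)))) (Pf.B 4 2 (Pf.B 3 2 (Pf.W 98 2 [] [1,6] (Pf.cons (Pf.B 9 6 (Pf.C 22 777) (Pf.B 9 1 (Pf.C 22 137) (Pf.C 0 0xc08481))) Pf.nil)) (Pf.W 98 2 [] [3,6] (Pf.cons (Pf.B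 9 6 (Pf.C 22 777) (Pf.B 9 3 (Pf.C 22 393) (Pf.C 0 0xc08483))) Pf.nil))) (Pf.W 98 2 [] [4,6] (Pf.cons (Pf.B 9 6 (Pf.C 22 777) (Pf.B 9 4 (Pf.C 22 521) (Pf.C 0 0xc08484))) Pf.nil)))) (Pf.B 6 2 (Pf.B 4 2 (Pf.B 3 2 (Pf.W 98 2 [] [1,7] (Pf.cons (Pf.B 9 7 (Pf.C 22 905) (Pf.B 9 1 (Pf.C 22 137) (Pf.C 0 0xe08481))) Pf.nil)) (Pf.W 98 2 [] [3,7] (Pf.cons (Pf.B 9 7 (Pf.C 22 905) (Pf.B 9 3 (Pf.C 22 393) (Pf.C 0 0xe08483))) Pf.nil))) (Pf.W 98 2 [] [4,7] (Pf.cons (Pf.B 9 7 (Pf.C 22 905) (Pf.B 9 4 (Pf.C 22 521) (Pf.C 0 0xe08484))) Pf.nil))) (Pf.W 98 2 [] [6,7] (Pf.cons (Pf.B 9 7 (Pf.C 22 905) (Pf.B 9 6 (Pf.C 22 777) (Pf.C 0 0xe08486))) Pf.nil)))) (Pf.C 3 131)) (Pf.C 3 134)) (Pf.C 3 518)))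
 (Pq.cons (Pq.L [] 64 (Pf.C 3 512))
 (Pq.cons (Pq.L [] 64 (Pf.C 5 642))
 (Pq.cons (Pq.L [] 64 (Pf.C 3 513))
 (Pq.cons (Pq.L [] 64 (Pf.C 3 384))
 (Pq.cons (Pq.L [] 6 (Pf.B 4 1 (Pf.B 3 1 (Pf.B 3 2 (Pf.C 6 32899) (Pf.B 3 0 (Pf.W 96 1 [] [0,2,3] (Pf.cons (Pf.B 6 3 (Pf.C 22 390) (Pf.B 6 2 (Pf.C 66 32902) (Pf.B 6 0 (Pf.C 22 6) (Pf.C 0 0x608300)))) Pf.nil)) (Pf.C 3 3))) (Pf.C 101 131)) (Pf.C 4 132)))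
 (Pq.cons (Pq.L [] 0x1bba4f (Pf.B 8 1 (Pf.B 7 2 (Pf.B 5 1 (Pf.B 4 2 (Pf.B 6 4 (Pf.B 6 2 (Pf.B 6 1 (Pf.C 17 0x20004386) (Pf.B 3 2 (Pf.B 3 1 (Pf.C 17 0x20004203) (Pf.W 98 1 [] [3,6] (Pf.cons (Pf.B 9 6 (Pf.C 22 777) (Pf.B 9 3 (Pf.C 22 393) (Pf.C 0 0xc04483))) Pf.nil))) (Pf.C 17 0x40c386))) (Pf.B 3 2 (Pf.C 17 0x70c08203) (Pf.W 98 2 [] [3,6] (Pf.cons (Pf.B 9 6 (Pf.C 22 777) (Pf.B 9 3 (Pf.C 22 393) (Pf.C 0 0xc08483))) Pf.nil)))) (Pf.B 6 1 (Pf.C 17 0x70c10001) (Pf.B 3 1 (Pf.W 98 1 [] [0,6] (Pf.cons (Pf.B 9 6 (Pf.C 22 777) (Pf.B 9 0 (Pf.C 22 9) (Pf.C 0 0xc04480))) Pf.nil)) (Pf.W 98 1 [] [3,6] (Pf.cons (Pf.B 9 6 (Pf.C 22 777) (Pf.B 9 3 (Pf.C 22 393) (Pf.C 0 0xc04483))) Pf.nil))))) (Pf.C 5 260))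 (Pf.C 5 133)) (Pf.C 5 263)) (Pf.C 5 136)))
 (Pq.cons (Pq.L [] 0x101208 (Pf.B 8 4 (Pf.B 4 2 (Pf.B 6 4 (Pf.W 98 4 [] [0,3] (Pf.cons (Pf.B 9 3 (Pf.C 22 393) (Pf.B 9 0 (Pf.C 22 9) (Pf.C 0 0x610480))) Pf.nil)) (Pf.W 98 4 [] [3,6] (Pf.cons (Pf.B 9 6 (Pf.C 22 777) (Pf.B 9 3 (Pf.C 22 393) (Pf.C 0 0xc10483))) Pf.nil))) (Pf.C 5 260)) (Pf.C 5 520)))
 (Pq.cons (Pq.L [] 64 (Pf.C 5 642))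
 (Pq.cons (Pq.L [] 64 (Pf.C 5 513))
 (Pq.cons (Pq.L [] 64 (Pf.C 3 384))
 (Pq.cons (Pq.L [] 482 (Pf.B 8 5 (Pf.B 8 2 (Pf.B 7 4 (Pf.B 7 0 (Pf.B 6 4 (Pf.B 6 0 (Pf.B 5 2 (Pf.B 4 0 (Pf.B 3 0 (Pf.B 8 4 (Pf.B 8 0 (Pf.W 96 0 [] [4,5,8] (Pf.cons (Pf.B 9 8 (Pf.C 66 0x20009) (Pf.B 9 5 (Pf.B 9 4 (Pf.C 67 0x20209) (Pf.C 66 82441)) (Pf.C 68 0x20289))) Pf.nil)) (Pf.B 7 2 (Pf.W 96 0 [] [2,7,8] (Pf.cons (Pf.B 9 2 (Pf.C 66 32777) (Pf.B 9 8 (Pf.B 9 7 (Pf.C 67 33673) (Pf.C 66 0x20389)) (Pf.C 68 33801))) Pf.nil)) (Pf.B 6 2 (Pf.W 96 0 [] [2,6,8] (Pf.cons (Pf.B 9 2 (Pf.C 66 32777) (Pf.B 9 8 (Pf.B 9 6 (Pf.C 67 33545) (Pf.C 66 0x20309)) (Pf.C 68 33801))) Pf.nil)) (Pf.C 18 0x70418400)))) (Pf.B 8 0 (Pf.B 6 5 (Pf.W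 96 0 [] [5,6,8] (Pf.cons (Pf.B 9 8 (Pf.C 66 0x20009) (Pf.B 9 6 (Pf.C 67 0x20309) (Pf.B 9 5 (Pf.C 66 82697) (Pf.C 68 0x20289)))) Pf.nil)) (Pf.B 5 0 (Pf.W 96 0 [] [5,8] (Pf.cons (Pf.B 9 8 (Pf.C 66 0x20009) (Pf.B 9 5 (Pf.C 66 81929) (Pf.C 68 0x20289))) Pf.nil)) (Pf.C 18 0x60a00404))) (Pf.B 7 5 (Pf.B 7 2 (Pf.W 96 0 [] [2,7,8] (Pf.cons (Pf.B 9 2 (Pf.C 66 32777) (Pf.B 9 8 (Pf.B 9 7 (Pf.C 67 33673) (Pf.C 66 0x20389)) (Pf.C 68 33801))) Pf.nil)) (Pf.B 5 0 (Pf.W 96 0 [] [5,7,8] (Pf.cons (Pf.B 9 5 (Pf.C 66 81929) (Pf.B 9 8 (Pf.B 9 7 (Pf.C 67 82825) (Pf.C 66 0x20389)) (Pf.C 68 82953))) Pf.nil)) (Pf.C 18 0x80014382))) (Pf.B 6 5 (Pf.B 5 0 (Pf.C 18 0x41000385) (Pf.B 6 2 (Pf.W 96 0 [] [2,6,8] (Pf.cons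 (Pf.B 9 2 (Pf.C 66 32777) (Pf.B 9 8 (Pf.B 9 6 (Pf.C 67 33545) (Pf.C 66 0x20309)) (Pf.C 68 33801))) Pf.nil)) (Pf.C 18 0x80014106))) (Pf.C 18 0x70a18404))))) (Pf.C 4 3)) (Pf.C 4 4)) (Pf.C 5 261)) (Pf.C 4 6)) (Pf.C 4 518)) (Pf.C 4 7)) (Pf.C 4 519)) (Pf.C 5 264)) (Pf.C 5 648)))
 (Pq.cons (Pq.L [] 450 (Pf.B 8 2 (Pf.B 7 2 (Pf.B 6 0 (Pf.B 3 0 (Pf.B 8 0 (Pf.W 96 0 [] [6,7,8] (Pf.cons (Pf.B 9 8 (Pf.C 66 0x20009) (Pf.B 9 7 (Pf.B 9 6 (Pf.C 67 0x20309) (Pf.C 66 0x1c309)) (Pf.C 68 0x20389))) Pf.nil)) (Pf.B 7 0 (Pf.W 96 0 [] [6,7,8] (Pf.cons (Pf.B 9 7 (Pf.C 66 0x1c009) (Pf.B 9 8 (Pf.B 9 6 (Pf.C 67 0x1c309) (Pf.C 66 0x20309)) (Pf.C 68 0x1c409))) Pf.nil)) (Pf.B 6 2 (Pf.W 96 0 [] [2,6,7] (Pf.cons (Pf.B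 9 2 (Pf.C 66 32777) (Pf.B 9 7 (Pf.B 9 6 (Pf.C 67 33545) (Pf.C 66 0x1c309)) (Pf.C 68 33673))) Pf.nil)) (Pf.C 18 0x8001c106)))) (Pf.C 4 3)) (Pf.C 4 6)) (Pf.C 5 263)) (Pf.C 5 264)))
 Pq.nil))))))))))))))))))))))))))))))))))))))))))))))))))))))
theorem e3_o23 : AllRef e3_T e3_G45 (hitObl [53,55,59,60,61] e3_h61) :=
  chkPq_sound e3_o23c _ (by decide +kernel)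
noncomputable def e3_o24c : Pq := (Pq.cons (Pq.D 0 (Pq.cons (Pq.D 1 (Pq.cons (Pq.L [] 1 (Pf.C 2 128))
 (Pq.cons (Pq.L [] 1 (Pf.C 22 128))
 (Pq.cons (Pq.L [] 1 (Pf.C 22 128))
 (Pq.cons (Pq.L [] 1 (Pf.C 22 128))
 (Pq.cons (Pq.D 2 (Pq.cons (Pq.L [] 2 (Pf.C 2 256))
 (Pq.cons (Pq.L [] 2 (Pf.C 22 256))
 (Pq.cons (Pq.L [] 2 (Pf.C 22 256))
 (Pq.cons (Pq.L [] 2 (Pf.C 22 256))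
 (Pq.cons (Pq.L [] 3 (Pf.B 2 1 (Pf.B 3 2 (Pf.B 3 1 (Pf.B 3 0 (Pf.W 25 0 [] [1,2] (Pf.cons (Pf.B 4 2 (Pf.B 4 1 (Pf.C 8 0x400084) (Pf.C 4 132)) (Pf.C 4 260)) Pf.nil)) (Pf.W 25 0 [] [1,2] (Pf.cons (Pf.B 4 2 (Pf.B 4 1 (Pf.C 8 0x400084) (Pf.C 4 132)) (Pf.C 4 260)) Pf.nil))) (Pf.W 25 0 [] [1,2] (Pf.cons (Pf.B 4 2 (Pf.B 4 1 (Pf.C 8 0x400084) (Pf.C 4 132)) (Pf.C 4 260)) Pf.nil))) (Pf.W 25 0 [] [1,2] (Pf.cons (Pf.B 4 2 (Pf.B 4 1 (Pf.C 8 0x400084) (Pf.C 4 132)) (Pf.C 4 260)) Pf.nil))) (Pf.C 4 130)))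
 (Pq.cons (Pq.D 3 (Pq.cons (Pq.L [] 4 (Pf.C 2 384))
 (Pq.cons (Pq.L [] 4 (Pf.C 22 384))
 (Pq.cons (Pq.L [] 4 (Pf.C 22 384))
 (Pq.cons (Pq.L [] 4 (Pf.C 22 384))
 (Pq.cons (Pq.L [] 5 (Pf.B 3 1 (Pf.W 25 0 [] [1,3] (Pf.cons (Pf.B 4 3 (Pf.B 4 1 (Pf.C 8 0x600084) (Pf.C 4 132)) (Pf.C 4 388)) Pf.nil)) (Pf.C 4 131)))
 (Pq.cons (Pq.L [] 6 (Pf.B 3 2 (Pf.C 68 33152) (Pf.C 5 259)))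
 Pq.nil))))))) Pq.nil))))))) (Pq.cons (Pq.D 2 (Pq.cons (Pq.L [] 2 (Pf.C 2 256))
 (Pq.cons (Pq.L [] 2 (Pf.C 22 256))
 (Pq.cons (Pq.L [] 2 (Pf.C 22 256))
 (Pq.cons (Pq.L [] 2 (Pf.C 22 256))
 (Pq.cons (Pq.D 3 (Pq.cons (Pq.L [] 4 (Pf.C 2 384))
 (Pq.cons (Pq.L [] 4 (Pf.C 22 384))
 (Pq.cons (Pq.L [] 4 (Pf.C 22 384))
 (Pq.cons (Pq.L [] 4 (Pf.C 22 384))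
 (Pq.cons (Pq.L [] 6 (Pf.B 3 2 (Pf.W 25 0 [] [2,3] (Pf.cons (Pf.B 4 3 (Pf.B 4 2 (Pf.C 8 0x600104) (Pf.C 4 260)) (Pf.C 4 388)) Pf.nil)) (Pf.C 4 259)))
 (Pq.cons (Pq.L [] 5 (Pf.B 3 1 (Pf.C 68 16768) (Pf.C 5 131)))
 Pq.nil))))))) (Pq.cons (Pq.L [] 3 (Pf.B 2 1 (Pf.C 68 16640) (Pf.C 5 130)))
 Pq.nil))))))) Pq.nil))))))) (Pq.cons (Pq.D 1 (Pq.cons (Pq.L [] 1 (Pf.C 22 1))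
 (Pq.cons (Pq.L [] 1 (Pf.C 3 128))
 (Pq.cons (Pq.L [] 1 (Pf.C 3 128))
 (Pq.cons (Pq.L [] 1 (Pf.C 3 128))
 (Pq.cons (Pq.D 2 (Pq.cons (Pq.L [] 2 (Pf.C 22 2))
 (Pq.cons (Pq.L [] 2 (Pf.C 3 256))
 (Pq.cons (Pq.L [] 2 (Pf.C 3 256))
 (Pq.cons (Pq.L [] 2 (Pf.C 3 256))
 (Pq.cons (Pq.L [] 3 (Pf.B 2 1 (Pf.C 107 16640) (Pf.C 4 130)))
 (Pq.cons (Pq.D 3 (Pq.cons (Pq.L [] 4 (Pf.C 22 3))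
 (Pq.cons (Pq.L [] 4 (Pf.C 3 384))
 (Pq.cons (Pq.L [] 4 (Pf.C 3 384))
 (Pq.cons (Pq.L [] 4 (Pf.C 3 384))
 (Pq.cons (Pq.L [] 5 (Pf.B 3 1 (Pf.C 107 16768) (Pf.C 4 131)))
 (Pq.cons (Pq.L [] 6 (Pf.B 3 2 (Pf.C 110 33152) (Pf.C 5 259)))
 Pq.nil))))))) Pq.nil))))))) (Pq.cons (Pq.D 2 (Pq.cons (Pq.L [] 2 (Pf.C 22 2))
 (Pq.cons (Pq.L [] 2 (Pf.C 3 256))
 (Pq.cons (Pq.L [] 2 (Pf.C 3 256))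
 (Pq.cons (Pq.L [] 2 (Pf.C 3 256))
 (Pq.cons (Pq.D 3 (Pq.cons (Pq.L [] 4 (Pf.C 22 3))
 (Pq.cons (Pq.L [] 4 (Pf.C 3 384))
 (Pq.cons (Pq.L [] 4 (Pf.C 3 384))
 (Pq.cons (Pq.L [] 4 (Pf.C 3 384))
 (Pq.cons (Pq.L [] 6 (Pf.B 3 2 (Pf.C 107 33152) (Pf.C 4 259)))
 (Pq.cons (Pq.L [] 5 (Pf.B 3 1 (Pf.C 110 16768) (Pf.C 5 131)))
 Pq.nil))))))) (Pq.cons (Pq.L [] 3 (Pf.B 2 1 (Pf.C 110 16640) (Pf.C 5 130)))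
 Pq.nil))))))) Pq.nil))))))) (Pq.cons (Pq.D 1 (Pq.cons (Pq.L [] 1 (Pf.C 22 1))
 (Pq.cons (Pq.L [] 1 (Pf.C 3 128))
 (Pq.cons (Pq.L [] 1 (Pf.C 3 128))
 (Pq.cons (Pq.L [] 1 (Pf.C 3 128))
 (Pq.cons (Pq.D 2 (Pq.cons (Pq.L [] 2 (Pf.C 22 2))
 (Pq.cons (Pq.L [] 2 (Pf.C 3 256))
 (Pq.cons (Pq.L [] 2 (Pf.C 3 256))
 (Pq.cons (Pq.L [] 2 (Pf.C 3 256))
 (Pq.cons (Pq.L [] 3 (Pf.B 2 1 (Pf.C 112 16640) (Pf.C 4 130)))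
 (Pq.cons (Pq.L [] 2 (Pf.C 102 256))
 Pq.nil))))))) (Pq.cons (Pq.L [] 1 (Pf.C 102 128))
 Pq.nil))))))) (Pq.cons (Pq.D 1 (Pq.cons (Pq.L [] 1 (Pf.C 22 1))
 (Pq.cons (Pq.L [] 1 (Pf.C 3 128))
 (Pq.cons (Pq.L [] 1 (Pf.C 3 128))
 (Pq.cons (Pq.L [] 1 (Pf.C 3 128))
 (Pq.cons (Pq.L [] 1 (Pf.C 101 128))
 (Pq.cons (Pq.D 2 (Pq.cons (Pq.L [] 2 (Pf.C 22 2))
 (Pq.cons (Pq.L [] 2 (Pf.C 3 256))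
 (Pq.cons (Pq.L [] 2 (Pf.C 3 256))
 (Pq.cons (Pq.L [] 2 (Pf.C 3 256))
 (Pq.cons (Pq.L [] 2 (Pf.C 101 256))
 (Pq.cons (Pq.L [] 3 (Pf.B 2 1 (Pf.C 116 16640) (Pf.C 5 130)))
 Pq.nil))))))) Pq.nil))))))) (Pq.cons (Pq.D 1 (Pq.cons (Pq.D 2 (Pq.cons (Pq.D 3 (Pq.cons (Pq.L [] 7 (Pf.B 3 2 (Pf.B 3 1 (Pf.B 2 1 (Pf.W 25 1 [] [0,2,3] (Pf.cons (Pf.B 4 0 (Pf.B 4 3 (Pf.C 8 0x200184) (Pf.B 4 2 (Pf.C 8 0x200104) (Pf.C 8 0x610101))) (Pf.C 4 4)) Pf.nil)) (Pf.C 2 130)) (Pf.C 2 131)) (Pf.C 2 259)))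
 (Pq.cons (Pq.L [] 7 (Pf.B 3 2 (Pf.C 22 386) (Pf.B 3 1 (Pf.C 22 385) (Pf.B 2 1 (Pf.C 0 0x20c002) (Pf.C 2 130)))))
 (Pq.cons (Pq.L [] 7 (Pf.B 3 2 (Pf.C 22 386) (Pf.B 3 1 (Pf.C 22 385) (Pf.B 2 1 (Pf.C 0 0x20c002) (Pf.C 2 130)))))
 (Pq.cons (Pq.L [] 4 (Pf.C 101 3))
 (Pq.cons (Pq.L [] 4 (Pf.C 4 384))
 (Pq.cons (Pq.L [] 7 (Pf.B 3 2 (Pf.C 66 49154) (Pf.B 3 1 (Pf.C 66 49153) (Pf.B 2 1 (Pf.W 25 1 [] [0,2] (Pf.cons (Pf.B 4 0 (Pf.B 4 2 (Pf.C 8 0x200104) (Pf.W 25 2 [] [0,4] (Pf.cons (Pf.B 5 4 (Pf.B 5 0 (Pf.C 8 0x808005) (Pf.C 4 5)) (Pf.C 4 517)) Pf.nil))) (Pf.C 4 4)) Pf.nil)) (Pf.C 2 130)))))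
 Pq.nil))))))) (Pq.cons (Pq.D 3 (Pq.cons (Pq.L [] 7 (Pf.B 3 2 (Pf.C 22 259) (Pf.B 3 1 (Pf.B 2 1 (Pf.C 22 257) (Pf.C 0 0x600101)) (Pf.C 2 131))))
 (Pq.cons (Pq.L [] 6 (Pf.B 3 2 (Pf.C 105 259) (Pf.C 3 259)))
 (Pq.cons (Pq.L [] 7 (Pf.B 3 2 (Pf.B 3 1 (Pf.C 22 385) (Pf.B 2 1 (Pf.C 22 257) (Pf.C 0 0x600082))) (Pf.C 3 259)))
 (Pq.cons (Pq.L [] 4 (Pf.C 101 3))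
 (Pq.cons (Pq.L [] 4 (Pf.C 4 384))
 (Pq.cons (Pq.L [] 7 (Pf.B 3 2 (Pf.C 108 49154) (Pf.B 3 1 (Pf.C 66 49153) (Pf.B 2 1 (Pf.C 22 257) (Pf.C 0 0x604100)))))
 Pq.nil))))))) (Pq.cons (Pq.D 3 (Pq.cons (Pq.L [] 7 (Pf.B 3 2 (Pf.C 22 259) (Pf.B 3 1 (Pf.B 2 1 (Pf.C 22 257) (Pf.C 0 0x600101)) (Pf.C 2 131))))
 (Pq.cons (Pq.L [] 7 (Pf.B 3 2 (Pf.B 3 1 (Pf.C 22 385) (Pf.B 2 1 (Pf.C 22 257) (Pf.C 0 0x600082))) (Pf.C 3 259)))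
 (Pq.cons (Pq.L [] 6 (Pf.B 3 2 (Pf.C 111 259) (Pf.C 3 259)))
 (Pq.cons (Pq.L [] 4 (Pf.C 101 3))
 (Pq.cons (Pq.L [] 4 (Pf.C 4 384))
 (Pq.cons (Pq.L [] 6 (Pf.B 3 2 (Pf.C 113 49154) (Pf.C 102 386)))
 Pq.nil))))))) (Pq.cons (Pq.L [] 2 (Pf.C 101 2))
 (Pq.cons (Pq.L [] 2 (Pf.C 4 256))
 (Pq.cons (Pq.D 3 (Pq.cons (Pq.L [] 7 (Pf.B 3 2 (Pf.C 66 32771) (Pf.B 3 1 (Pf.B 2 1 (Pf.C 66 32769) (Pf.W 25 1 [] [0,3] (Pf.cons (Pf.B 4 0 (Pf.B 4 3 (Pf.C 8 0x200184) (Pf.W 25 3 [] [0,4] (Pf.cons (Pf.B 5 4 (Pf.B 5 0 (Pf.C 8 0x80c005) (Pf.C 4 5)) (Pf.C 4 517)) Pf.nil))) (Pf.C 4 4)) Pf.nil))) (Pf.C 2 131))))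
 (Pq.cons (Pq.L [] 7 (Pf.B 3 2 (Pf.C 108 32771) (Pf.B 3 1 (Pf.C 22 385) (Pf.B 2 1 (Pf.C 66 32769) (Pf.C 0 49282)))))
 (Pq.cons (Pq.L [] 6 (Pf.B 3 2 (Pf.C 113 32771) (Pf.C 102 259)))
 (Pq.cons (Pq.L [] 4 (Pf.C 101 3))
 (Pq.cons (Pq.L [] 4 (Pf.C 4 384))
 (Pq.cons (Pq.L [] 6 (Pf.B 3 2 (Pf.C 118 33152) (Pf.C 5 259)))
 Pq.nil))))))) Pq.nil))))))) (Pq.cons (Pq.D 2 (Pq.cons (Pq.D 3 (Pq.cons (Pq.L [] 7 (Pf.B 3 2 (Pf.B 3 1 (Pf.C 22 131) (Pf.B 2 1 (Pf.C 22 130) (Pf.C 0 0x600082))) (Pf.C 2 259)))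
 (Pq.cons (Pq.L [] 5 (Pf.B 3 1 (Pf.C 105 131) (Pf.C 3 131)))
 (Pq.cons (Pq.L [] 7 (Pf.B 3 2 (Pf.C 22 386) (Pf.B 3 1 (Pf.B 2 1 (Pf.C 22 130) (Pf.C 0 0x600101)) (Pf.C 3 131))))
 (Pq.cons (Pq.L [] 4 (Pf.C 101 3))
 (Pq.cons (Pq.L [] 4 (Pf.C 4 384))
 (Pq.cons (Pq.L [] 7 (Pf.B 3 2 (Pf.C 66 49154) (Pf.B 3 1 (Pf.C 108 49153) (Pf.B 2 1 (Pf.C 22 130) (Pf.C 0 0x604100)))))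
 Pq.nil))))))) (Pq.cons (Pq.L [] 3 (Pf.B 2 1 (Pf.C 105 130) (Pf.C 3 130)))
 (Pq.cons (Pq.L [] 7 (Pf.B 2 1 (Pf.B 3 2 (Pf.B 3 1 (Pf.W 96 0 [] [1,2] (Pf.cons (Pf.B 4 2 (Pf.C 22 260) (Pf.B 4 1 (Pf.C 22 132) (Pf.C 0 0x400201))) Pf.nil)) (Pf.B 3 0 (Pf.W 96 0 [] [1,2] (Pf.cons (Pf.B 4 2 (Pf.C 22 260) (Pf.B 4 1 (Pf.C 22 132) (Pf.C 0 0x400201))) Pf.nil)) (Pf.W 96 0 [] [1,2,3] (Pf.cons (Pf.C 22 259) (Pf.cons (Pf.B 4 2 (Pf.C 22 260) (Pf.B 4 3 (Pf.B 4 1 (Pf.C 22 132) (Pf.C 0 0x600084)) (Pf.C 0 0x400203))) Pf.nil))))) (Pf.B 3 1 (Pf.W 96 0 [] [1,2] (Pf.cons (Pf.B 4 2 (Pf.C 22 260) (Pf.B 4 1 (Pf.C 22 132) (Pf.C 0 0x400201))) Pf.nil)) (Pf.B 3 0 (Pf.W 96 0 [] [1,2] (Pf.cons (Pf.B 4 2 (Pf.C 22 260) (Pf.B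 4 1 (Pf.C 22 132) (Pf.C 0 0x400201))) Pf.nil)) (Pf.C 0 0x400181)))) (Pf.C 3 130)))
 (Pq.cons (Pq.L [] 2 (Pf.C 101 2))
 (Pq.cons (Pq.L [] 2 (Pf.C 4 256))
 (Pq.cons (Pq.L [] 7 (Pf.B 2 1 (Pf.C 108 32769) (Pf.B 3 2 (Pf.B 3 0 (Pf.W 96 0 [] [1,2] (Pf.cons (Pf.B 4 2 (Pf.C 66 32772) (Pf.B 4 1 (Pf.C 22 132) (Pf.C 0 0x404200))) Pf.nil)) (Pf.W 96 0 [] [1,2] (Pf.cons (Pf.B 4 2 (Pf.C 66 32772) (Pf.B 4 1 (Pf.C 22 132) (Pf.C 0 0x404200))) Pf.nil))) (Pf.B 3 1 (Pf.W 96 0 [] [1,2] (Pf.cons (Pf.B 4 2 (Pf.C 66 32772) (Pf.B 4 1 (Pf.C 22 132) (Pf.C 0 0x404200))) Pf.nil)) (Pf.B 3 0 (Pf.W 96 0 [] [1,2] (Pf.cons (Pf.B 4 2 (Pf.C 66 32772) (Pf.B 4 1 (Pf.C 22 132) (Pf.C 0 0x404200))) Pf.nil)) (Pf.C 0 0x404180))))))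
 Pq.nil))))))) (Pq.cons (Pq.D 2 (Pq.cons (Pq.D 3 (Pq.cons (Pq.L [] 7 (Pf.B 3 2 (Pf.B 3 1 (Pf.C 22 131) (Pf.B 2 1 (Pf.C 22 130) (Pf.C 0 0x600082))) (Pf.C 2 259)))
 (Pq.cons (Pq.L [] 7 (Pf.B 3 2 (Pf.C 22 386) (Pf.B 3 1 (Pf.B 2 1 (Pf.C 22 130) (Pf.C 0 0x600101)) (Pf.C 3 131))))
 (Pq.cons (Pq.L [] 5 (Pf.B 3 1 (Pf.C 111 131) (Pf.C 3 131)))
 (Pq.cons (Pq.L [] 4 (Pf.C 101 3))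
 (Pq.cons (Pq.L [] 4 (Pf.C 4 384))
 (Pq.cons (Pq.L [] 5 (Pf.B 3 1 (Pf.C 113 49153) (Pf.C 102 385)))
 Pq.nil))))))) (Pq.cons (Pq.L [] 7 (Pf.B 2 1 (Pf.B 3 2 (Pf.B 3 1 (Pf.W 96 0 [] [1,2] (Pf.cons (Pf.B 4 2 (Pf.C 22 260) (Pf.B 4 1 (Pf.C 22 132) (Pf.C 0 0x400201))) Pf.nil)) (Pf.B 3 0 (Pf.W 96 0 [] [1,2] (Pf.cons (Pf.B 4 2 (Pf.C 22 260) (Pf.B 4 1 (Pf.C 22 132) (Pf.C 0 0x400201))) Pf.nil)) (Pf.W 96 0 [] [1,2,3] (Pf.cons (Pf.C 22 259) (Pf.cons (Pf.B 4 2 (Pf.C 22 260) (Pf.B 4 3 (Pf.B 4 1 (Pf.C 22 132) (Pf.C 0 0x600084)) (Pf.C 0 0x400203))) Pf.nil))))) (Pf.B 3 1 (Pf.W 96 0 [] [1,2] (Pf.cons (Pf.B 4 2 (Pf.C 22 260) (Pf.B 4 1 (Pf.C 22 132) (Pf.C 0 0x400201))) Pf.nil)) (Pf.B 3 0 (Pf.W 96 0 [] [1,2]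 (Pf.cons (Pf.B 4 2 (Pf.C 22 260) (Pf.B 4 1 (Pf.C 22 132) (Pf.C 0 0x400201))) Pf.nil)) (Pf.C 0 0x400181)))) (Pf.C 3 130)))
 (Pq.cons (Pq.L [] 3 (Pf.B 2 1 (Pf.C 111 130) (Pf.C 3 130)))
 (Pq.cons (Pq.L [] 2 (Pf.C 101 2))
 (Pq.cons (Pq.L [] 2 (Pf.C 4 256))
 (Pq.cons (Pq.L [] 3 (Pf.B 2 1 (Pf.C 113 32769) (Pf.C 102 257)))
 Pq.nil))))))) (Pq.cons (Pq.L [] 1 (Pf.C 101 1))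
 (Pq.cons (Pq.L [] 1 (Pf.C 4 128))
 (Pq.cons (Pq.D 2 (Pq.cons (Pq.D 3 (Pq.cons (Pq.L [] 7 (Pf.B 3 2 (Pf.B 3 1 (Pf.C 66 16387) (Pf.B 2 1 (Pf.C 66 16386) (Pf.W 25 2 [] [0,3] (Pf.cons (Pf.B 4 0 (Pf.B 4 3 (Pf.C 8 0x400184) (Pf.W 25 3 [] [0,4] (Pf.cons (Pf.B 5 4 (Pf.B 5 0 (Pf.C 8 0x80c005) (Pf.C 4 5)) (Pf.C 4 517)) Pf.nil))) (Pf.C 4 4)) Pf.nil)))) (Pf.C 2 259)))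
 (Pq.cons (Pq.L [] 7 (Pf.B 3 2 (Pf.C 22 386) (Pf.B 3 1 (Pf.C 108 16387) (Pf.B 2 1 (Pf.C 66 16386) (Pf.C 0 49409)))))
 (Pq.cons (Pq.L [] 5 (Pf.B 3 1 (Pf.C 113 16387) (Pf.C 102 131)))
 (Pq.cons (Pq.L [] 4 (Pf.C 101 3))
 (Pq.cons (Pq.L [] 4 (Pf.C 4 384))
 (Pq.cons (Pq.L [] 5 (Pf.B 3 1 (Pf.C 118 16768) (Pf.C 5 131)))
 Pq.nil))))))) (Pq.cons (Pq.L [] 7 (Pf.B 2 1 (Pf.C 108 16386) (Pf.B 3 2 (Pf.W 96 0 [] [1,2] (Pf.cons (Pf.B 4 2 (Pf.C 22 260) (Pf.B 4 1 (Pf.C 66 16388) (Pf.C 0 33281))) Pf.nil)) (Pf.B 3 1 (Pf.B 3 0 (Pf.W 96 0 [] [1,2] (Pf.cons (Pf.B 4 2 (Pf.C 22 260) (Pf.B 4 1 (Pf.C 66 16388) (Pf.C 0 33281))) Pf.nil)) (Pf.W 96 0 [] [1,2] (Pf.cons (Pf.B 4 2 (Pf.C 22 260) (Pf.B 4 1 (Pf.C 66 16388)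 (Pf.C 0 33281))) Pf.nil))) (Pf.B 3 0 (Pf.W 96 0 [] [1,2,3] (Pf.cons (Pf.B 4 2 (Pf.C 22 260) (Pf.B 4 3 (Pf.B 4 1 (Pf.C 66 16388) (Pf.C 0 0x608084)) (Pf.C 0 33283))) Pf.nil)) (Pf.C 0 0x208180))))))
 (Pq.cons (Pq.L [] 3 (Pf.B 2 1 (Pf.C 113 16386) (Pf.C 102 130)))
 (Pq.cons (Pq.L [] 2 (Pf.C 101 2))
 (Pq.cons (Pq.L [] 2 (Pf.C 4 256))
 (Pq.cons (Pq.L [] 3 (Pf.B 2 1 (Pf.C 118 16640) (Pf.C 5 130)))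
 Pq.nil))))))) Pq.nil))))))) (Pq.cons (Pq.D 1 (Pq.cons (Pq.D 2 (Pq.cons (Pq.D 3 (Pq.cons (Pq.L [] 7 (Pf.B 3 2 (Pf.B 3 1 (Pf.B 2 1 (Pf.W 31 1 [] [0,2,3] (Pf.cons (Pf.B 4 0 (Pf.B 4 3 (Pf.C 9 0x200184) (Pf.B 4 2 (Pf.C 9 0x200104) (Pf.C 9 0x610101))) (Pf.C 5 4)) Pf.nil)) (Pf.C 2 130)) (Pf.C 2 131)) (Pf.C 2 259)))
 (Pq.cons (Pq.L [] 7 (Pf.B 3 2 (Pf.C 22 386) (Pf.B 3 1 (Pf.C 22 385) (Pf.B 2 1 (Pf.C 0 0x20c002) (Pf.C 2 130)))))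
 (Pq.cons (Pq.L [] 4 (Pf.C 102 3))
 (Pq.cons (Pq.L [] 7 (Pf.B 3 2 (Pf.C 22 386) (Pf.B 3 1 (Pf.C 22 385) (Pf.B 2 1 (Pf.C 0 0x20c002) (Pf.C 2 130)))))
 (Pq.cons (Pq.L [] 7 (Pf.B 3 2 (Pf.C 67 386) (Pf.B 3 1 (Pf.C 67 385) (Pf.B 2 1 (Pf.W 25 1 [] [2,3] (Pf.cons (Pf.B 4 3 (Pf.B 4 2 (Pf.C 8 0x20c104) (Pf.W 25 2 [] [3,4] (Pf.cons (Pf.B 5 4 (Pf.B 5 3 (Pf.C 8 0x808185) (Pf.C 4 389)) (Pf.C 4 517)) Pf.nil))) (Pf.C 4 388)) Pf.nil)) (Pf.C 2 130)))))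
 (Pq.cons (Pq.L [] 4 (Pf.C 5 384))
 Pq.nil))))))) (Pq.cons (Pq.D 3 (Pq.cons (Pq.L [] 7 (Pf.B 3 2 (Pf.C 22 259) (Pf.B 3 1 (Pf.B 2 1 (Pf.C 22 257) (Pf.C 0 0x600101)) (Pf.C 2 131))))
 (Pq.cons (Pq.L [] 6 (Pf.B 3 2 (Pf.C 106 259) (Pf.C 3 259)))
 (Pq.cons (Pq.L [] 4 (Pf.C 102 3))
 (Pq.cons (Pq.L [] 7 (Pf.B 3 2 (Pf.B 3 1 (Pf.C 22 385) (Pf.B 2 1 (Pf.C 22 257) (Pf.C 0 0x600082))) (Pf.C 3 259)))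
 (Pq.cons (Pq.L [] 7 (Pf.B 3 2 (Pf.C 109 386) (Pf.B 3 1 (Pf.C 67 385) (Pf.B 2 1 (Pf.C 22 257) (Pf.C 0 0x604100)))))
 (Pq.cons (Pq.L [] 4 (Pf.C 5 384))
 Pq.nil))))))) (Pq.cons (Pq.L [] 2 (Pf.C 102 2))
 (Pq.cons (Pq.D 3 (Pq.cons (Pq.L [] 7 (Pf.B 3 2 (Pf.C 22 259) (Pf.B 3 1 (Pf.B 2 1 (Pf.C 22 257) (Pf.C 0 0x600101)) (Pf.C 2 131))))
 (Pq.cons (Pq.L [] 7 (Pf.B 3 2 (Pf.B 3 1 (Pf.C 22 385) (Pf.B 2 1 (Pf.C 22 257) (Pf.C 0 0x600082))) (Pf.C 3 259)))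
 (Pq.cons (Pq.L [] 4 (Pf.C 102 3))
 (Pq.cons (Pq.L [] 6 (Pf.B 3 2 (Pf.C 114 259) (Pf.C 3 259)))
 (Pq.cons (Pq.L [] 6 (Pf.B 3 2 (Pf.C 115 386) (Pf.C 101 386)))
 (Pq.cons (Pq.L [] 4 (Pf.C 5 384))
 Pq.nil))))))) (Pq.cons (Pq.D 3 (Pq.cons (Pq.L [] 7 (Pf.B 3 2 (Pf.C 67 259) (Pf.B 3 1 (Pf.B 2 1 (Pf.C 67 257) (Pf.W 25 1 [] [2,3] (Pf.cons (Pf.B 4 2 (Pf.B 4 3 (Pf.C 8 0x208184) (Pf.W 25 3 [] [2,4] (Pf.cons (Pf.B 5 4 (Pf.B 5 2 (Pf.C 8 0x80c105) (Pf.C 4 261)) (Pf.C 4 517)) Pf.nil))) (Pf.C 4 260)) Pf.nil))) (Pf.C 2 131))))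
 (Pq.cons (Pq.L [] 7 (Pf.B 3 2 (Pf.C 109 259) (Pf.B 3 1 (Pf.C 22 385) (Pf.B 2 1 (Pf.C 67 257) (Pf.C 0 49282)))))
 (Pq.cons (Pq.L [] 4 (Pf.C 102 3))
 (Pq.cons (Pq.L [] 6 (Pf.B 3 2 (Pf.C 115 259) (Pf.C 101 259)))
 (Pq.cons (Pq.L [] 6 (Pf.B 3 2 (Pf.C 117 259) (Pf.C 4 259)))
 (Pq.cons (Pq.L [] 4 (Pf.C 5 384))
 Pq.nil))))))) (Pq.cons (Pq.L [] 2 (Pf.C 5 256))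
 Pq.nil))))))) (Pq.cons (Pq.D 2 (Pq.cons (Pq.D 3 (Pq.cons (Pq.L [] 7 (Pf.B 3 2 (Pf.B 3 1 (Pf.C 22 131) (Pf.B 2 1 (Pf.C 22 130) (Pf.C 0 0x600082))) (Pf.C 2 259)))
 (Pq.cons (Pq.L [] 5 (Pf.B 3 1 (Pf.C 106 131) (Pf.C 3 131)))
 (Pq.cons (Pq.L [] 4 (Pf.C 102 3))
 (Pq.cons (Pq.L [] 7 (Pf.B 3 2 (Pf.C 22 386) (Pf.B 3 1 (Pf.B 2 1 (Pf.C 22 130) (Pf.C 0 0x600101)) (Pf.C 3 131))))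
 (Pq.cons (Pq.L [] 7 (Pf.B 3 2 (Pf.C 67 386) (Pf.B 3 1 (Pf.C 109 385) (Pf.B 2 1 (Pf.C 22 130) (Pf.C 0 0x604100)))))
 (Pq.cons (Pq.L [] 4 (Pf.C 5 384))
 Pq.nil))))))) (Pq.cons (Pq.L [] 3 (Pf.B 2 1 (Pf.C 106 130) (Pf.C 3 130)))
 (Pq.cons (Pq.L [] 2 (Pf.C 102 2))
 (Pq.cons (Pq.L [] 7 (Pf.B 2 1 (Pf.B 3 2 (Pf.B 3 1 (Pf.W 98 0 [] [1,2] (Pf.cons (Pf.B 4 2 (Pf.C 22 260) (Pf.B 4 1 (Pf.C 22 132) (Pf.C 0 0x400201))) Pf.nil)) (Pf.B 3 0 (Pf.W 98 0 [] [1,2] (Pf.cons (Pf.B 4 2 (Pf.C 22 260) (Pf.B 4 1 (Pf.C 22 132) (Pf.C 0 0x400201))) Pf.nil)) (Pf.W 98 0 [] [1,2,3] (Pf.cons (Pf.C 22 259) (Pf.cons (Pf.B 4 2 (Pf.C 22 260) (Pf.B 4 3 (Pf.B 4 1 (Pf.C 22 132) (Pf.C 0 0x600084)) (Pf.C 0 0x400203))) Pf.nil)))))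 (Pf.B 3 1 (Pf.W 98 0 [] [1,2] (Pf.cons (Pf.B 4 2 (Pf.C 22 260) (Pf.B 4 1 (Pf.C 22 132) (Pf.C 0 0x400201))) Pf.nil)) (Pf.B 3 0 (Pf.W 98 0 [] [1,2] (Pf.cons (Pf.B 4 2 (Pf.C 22 260) (Pf.B 4 1 (Pf.C 22 132) (Pf.C 0 0x400201))) Pf.nil)) (Pf.C 0 0x400181)))) (Pf.C 3 130)))
 (Pq.cons (Pq.L [] 7 (Pf.B 2 1 (Pf.C 109 257) (Pf.B 3 2 (Pf.W 96 2 [] [0,1] (Pf.cons (Pf.B 4 1 (Pf.C 22 132) (Pf.B 4 0 (Pf.C 66 260) (Pf.C 0 0x404200))) Pf.nil)) (Pf.B 3 1 (Pf.W 96 2 [] [0,1] (Pf.cons (Pf.B 4 1 (Pf.C 22 132) (Pf.B 4 0 (Pf.C 66 260) (Pf.C 0 0x404200))) Pf.nil)) (Pf.B 3 0 (Pf.W 96 2 [] [0,1] (Pf.cons (Pf.B 4 1 (Pf.C 22 132) (Pf.B 4 0 (Pf.C 66 260) (Pf.C 0 0x404200))) Pf.nil)) (Pf.C 0 0x404180))))))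
 (Pq.cons (Pq.L [] 2 (Pf.C 5 256))
 Pq.nil))))))) (Pq.cons (Pq.L [] 1 (Pf.C 102 1))
 (Pq.cons (Pq.D 2 (Pq.cons (Pq.D 3 (Pq.cons (Pq.L [] 7 (Pf.B 3 2 (Pf.B 3 1 (Pf.C 22 131) (Pf.B 2 1 (Pf.C 22 130) (Pf.C 0 0x600082))) (Pf.C 2 259)))
 (Pq.cons (Pq.L [] 7 (Pf.B 3 2 (Pf.C 22 386) (Pf.B 3 1 (Pf.B 2 1 (Pf.C 22 130) (Pf.C 0 0x600101)) (Pf.C 3 131))))
 (Pq.cons (Pq.L [] 4 (Pf.C 102 3))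
 (Pq.cons (Pq.L [] 5 (Pf.B 3 1 (Pf.C 114 131) (Pf.C 3 131)))
 (Pq.cons (Pq.L [] 5 (Pf.B 3 1 (Pf.C 115 385) (Pf.C 101 385)))
 (Pq.cons (Pq.L [] 4 (Pf.C 5 384))
 Pq.nil))))))) (Pq.cons (Pq.L [] 7 (Pf.B 2 1 (Pf.B 3 2 (Pf.B 3 1 (Pf.W 98 0 [] [1,2] (Pf.cons (Pf.B 4 2 (Pf.C 22 260) (Pf.B 4 1 (Pf.C 22 132) (Pf.C 0 0x400201))) Pf.nil)) (Pf.B 3 0 (Pf.W 98 0 [] [1,2] (Pf.cons (Pf.B 4 2 (Pf.C 22 260) (Pf.B 4 1 (Pf.C 22 132) (Pf.C 0 0x400201))) Pf.nil)) (Pf.W 98 0 [] [1,2,3] (Pf.cons (Pf.C 22 259) (Pf.cons (Pf.B 4 2 (Pf.C 22 260) (Pf.B 4 3 (Pf.B 4 1 (Pf.C 22 132) (Pf.C 0 0x600084)) (Pf.C 0 0x400203))) Pf.nil))))) (Pf.B 3 1 (Pf.W 98 0 [] [1,2] (Pf.cons (Pf.B 4 2 (Pf.C 22 260) (Pf.B 4 1 (Pf.C 22 132)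 (Pf.C 0 0x400201))) Pf.nil)) (Pf.B 3 0 (Pf.W 98 0 [] [1,2] (Pf.cons (Pf.B 4 2 (Pf.C 22 260) (Pf.B 4 1 (Pf.C 22 132) (Pf.C 0 0x400201))) Pf.nil)) (Pf.C 0 0x400181)))) (Pf.C 3 130)))
 (Pq.cons (Pq.L [] 2 (Pf.C 102 2))
 (Pq.cons (Pq.L [] 3 (Pf.B 2 1 (Pf.C 114 130) (Pf.C 3 130)))
 (Pq.cons (Pq.L [] 3 (Pf.B 2 1 (Pf.C 115 257) (Pf.C 101 257)))
 (Pq.cons (Pq.L [] 2 (Pf.C 5 256))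
 Pq.nil))))))) (Pq.cons (Pq.D 2 (Pq.cons (Pq.D 3 (Pq.cons (Pq.L [] 7 (Pf.B 3 2 (Pf.B 3 1 (Pf.C 67 131) (Pf.B 2 1 (Pf.C 67 130) (Pf.W 25 2 [] [1,3] (Pf.cons (Pf.B 4 1 (Pf.B 4 3 (Pf.C 8 0x404184) (Pf.W 25 3 [] [1,4] (Pf.cons (Pf.B 5 4 (Pf.B 5 1 (Pf.C 8 0x80c085) (Pf.C 4 133)) (Pf.C 4 517)) Pf.nil))) (Pf.C 4 132)) Pf.nil)))) (Pf.C 2 259)))
 (Pq.cons (Pq.L [] 7 (Pf.B 3 2 (Pf.C 22 386) (Pf.B 3 1 (Pf.C 109 131) (Pf.B 2 1 (Pf.C 67 130) (Pf.C 0 49409)))))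
 (Pq.cons (Pq.L [] 4 (Pf.C 102 3))
 (Pq.cons (Pq.L [] 5 (Pf.B 3 1 (Pf.C 115 131) (Pf.C 101 131)))
 (Pq.cons (Pq.L [] 5 (Pf.B 3 1 (Pf.C 117 131) (Pf.C 4 131)))
 (Pq.cons (Pq.L [] 4 (Pf.C 5 384))
 Pq.nil))))))) (Pq.cons (Pq.L [] 7 (Pf.B 2 1 (Pf.C 109 130) (Pf.B 3 2 (Pf.W 96 1 [] [0,2] (Pf.cons (Pf.B 4 2 (Pf.C 22 260) (Pf.B 4 0 (Pf.C 66 132) (Pf.C 0 0x208200))) Pf.nil)) (Pf.B 3 1 (Pf.W 96 1 [] [0,2] (Pf.cons (Pf.B 4 2 (Pf.C 22 260) (Pf.B 4 0 (Pf.C 66 132) (Pf.C 0 0x208200))) Pf.nil)) (Pf.B 3 0 (Pf.W 96 1 [] [0,2] (Pf.cons (Pf.B 4 2 (Pf.C 22 260) (Pf.B 4 0 (Pf.C 66 132) (Pf.C 0 0x208200))) Pf.nil)) (Pf.C 0 0x208180))))))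
 (Pq.cons (Pq.L [] 2 (Pf.C 102 2))
 (Pq.cons (Pq.L [] 3 (Pf.B 2 1 (Pf.C 115 130) (Pf.C 101 130)))
 (Pq.cons (Pq.L [] 3 (Pf.B 2 1 (Pf.C 117 130) (Pf.C 4 130)))
 (Pq.cons (Pq.L [] 2 (Pf.C 5 256))
 Pq.nil))))))) (Pq.cons (Pq.L [] 1 (Pf.C 5 128))
 Pq.nil))))))) Pq.nil))))))) Pq.nil)
theorem e3_o24 : AllRef e3_T e3_G46 (applyObl TD2 1 [38,65,66,67,63,64] [0,0,0,0,0,0] [(38,0xe0000000000000000),(65,0x4000000000),(66,0x4000000000),(67,0x4000000000),(63,0x10000000000000000),(64,0x8000000000000000)]) :=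
  chkPq_sound e3_o24c _ (by decide +kernel)
noncomputable def e3_o25c : Pq := (Pq.cons (Pq.L [] 63 (Pf.C 0 0x608080))
 (Pq.cons (Pq.L [] 32767 (Pf.C 1 0x2840608080))
 (Pq.cons (Pq.L [] 1 (Pf.C 3 128))
 (Pq.cons (Pq.L [] 1 (Pf.C 4 128))
 (Pq.cons (Pq.L [] 1 (Pf.C 5 128))
 (Pq.cons (Pq.L [] 7 (Pf.C 6 32896))
 (Pq.cons (Pq.D 0 (Pq.cons (Pq.D 1 (Pq.cons (Pq.L [] 1 (Pf.C 3 128))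
 (Pq.cons (Pq.D 2 (Pq.cons (Pq.D 3 (Pq.cons (Pq.L [] 128 (Pf.C 3 386))
 (Pq.cons (Pq.D 4 (Pq.cons (Pq.L [] 1023 (Pf.C 16 0x40608080))
 (Pq.cons (Pq.L [] 1023 (Pf.C 16 0x40608080))
 Pq.nil))) Pq.nil))) (Pq.cons (Pq.D 3 (Pq.cons (Pq.D 4 (Pq.cons (Pq.L [] 1023 (Pf.C 16 0x40608080))
 (Pq.cons (Pq.L [] 1023 (Pf.C 16 0x40608080))
 Pq.nil))) (Pq.cons (Pq.L [] 128 (Pf.C 4 386))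
 Pq.nil))) Pq.nil))) Pq.nil))) (Pq.cons (Pq.D 1 (Pq.cons (Pq.D 2 (Pq.cons (Pq.D 3 (Pq.cons (Pq.L [] 128 (Pf.C 3 386))
 (Pq.cons (Pq.D 4 (Pq.cons (Pq.L [] 1023 (Pf.C 16 0x40608080))
 (Pq.cons (Pq.L [] 1023 (Pf.C 16 0x40608080))
 Pq.nil))) Pq.nil))) (Pq.cons (Pq.D 3 (Pq.cons (Pq.D 4 (Pq.cons (Pq.L [] 1023 (Pf.C 16 0x40608080))
 (Pq.cons (Pq.L [] 1023 (Pf.C 16 0x40608080))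
 Pq.nil))) (Pq.cons (Pq.L [] 128 (Pf.C 4 386))
 Pq.nil))) Pq.nil))) (Pq.cons (Pq.L [] 1 (Pf.C 4 128))
 Pq.nil))) Pq.nil))) (Pq.cons (Pq.D 0 (Pq.cons (Pq.D 1 (Pq.cons (Pq.L [] 1 (Pf.C 3 128))
 (Pq.cons (Pq.D 2 (Pq.cons (Pq.D 3 (Pq.cons (Pq.L [] 128 (Pf.C 3 386))
 (Pq.cons (Pq.D 4 (Pq.cons (Pq.L [] 1023 (Pf.C 17 0x40608080))
 (Pq.cons (Pq.L [] 1023 (Pf.C 17 0x40608080))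
 Pq.nil))) Pq.nil))) (Pq.cons (Pq.D 3 (Pq.cons (Pq.D 4 (Pq.cons (Pq.L [] 1023 (Pf.C 17 0x40608080))
 (Pq.cons (Pq.L [] 1023 (Pf.C 17 0x40608080))
 Pq.nil))) (Pq.cons (Pq.L [] 128 (Pf.C 5 386))
 Pq.nil))) Pq.nil))) Pq.nil))) (Pq.cons (Pq.D 1 (Pq.cons (Pq.D 2 (Pq.cons (Pq.D 3 (Pq.cons (Pq.L [] 128 (Pf.C 3 386))
 (Pq.cons (Pq.D 4 (Pq.cons (Pq.L [] 1023 (Pf.C 17 0x40608080))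
 (Pq.cons (Pq.L [] 1023 (Pf.C 17 0x40608080))
 Pq.nil))) Pq.nil))) (Pq.cons (Pq.D 3 (Pq.cons (Pq.D 4 (Pq.cons (Pq.L [] 1023 (Pf.C 17 0x40608080))
 (Pq.cons (Pq.L [] 1023 (Pf.C 17 0x40608080))
 Pq.nil))) (Pq.cons (Pq.L [] 128 (Pf.C 5 386))
 Pq.nil))) Pq.nil))) (Pq.cons (Pq.L [] 1 (Pf.C 5 128))
 Pq.nil))) Pq.nil))) (Pq.cons (Pq.D 0 (Pq.cons (Pq.D 1 (Pq.cons (Pq.L [] 1 (Pf.C 4 128))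
 (Pq.cons (Pq.D 2 (Pq.cons (Pq.D 3 (Pq.cons (Pq.L [] 128 (Pf.C 4 386))
 (Pq.cons (Pq.D 4 (Pq.cons (Pq.L [] 1023 (Pf.C 18 0x40608080))
 (Pq.cons (Pq.L [] 1023 (Pf.C 18 0x40608080))
 Pq.nil))) Pq.nil))) (Pq.cons (Pq.D 3 (Pq.cons (Pq.D 4 (Pq.cons (Pq.L [] 1023 (Pf.C 18 0x40608080))
 (Pq.cons (Pq.L [] 1023 (Pf.C 18 0x40608080))
 Pq.nil))) (Pq.cons (Pq.L [] 128 (Pf.C 5 386))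
 Pq.nil))) Pq.nil))) Pq.nil))) (Pq.cons (Pq.D 1 (Pq.cons (Pq.D 2 (Pq.cons (Pq.D 3 (Pq.cons (Pq.L [] 128 (Pf.C 4 386))
 (Pq.cons (Pq.D 4 (Pq.cons (Pq.L [] 1023 (Pf.C 18 0x40608080))
 (Pq.cons (Pq.L [] 1023 (Pf.C 18 0x40608080))
 Pq.nil))) Pq.nil))) (Pq.cons (Pq.D 3 (Pq.cons (Pq.D 4 (Pq.cons (Pq.L [] 1023 (Pf.C 18 0x40608080))
 (Pq.cons (Pq.L [] 1023 (Pf.C 18 0x40608080))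
 Pq.nil))) (Pq.cons (Pq.L [] 128 (Pf.C 5 386))
 Pq.nil))) Pq.nil))) (Pq.cons (Pq.L [] 1 (Pf.C 5 128))
 Pq.nil))) Pq.nil))) Pq.nil)))))))))
theorem e3_o25 : AllRef e3_T e3_G45 (applyObl e4_T 9 [62,54,56] [1,2,3] []) :=
  chkPq_sound e3_o25c _ (by decide +kernel)
noncomputable def e3_o26c : Pq := (Pq.cons (Pq.L [] 0 (Pf.W 78 0 [] [0] (Pf.cons (Pf.C 48 1) Pf.nil)))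
 (Pq.cons (Pq.L [] 0 (Pf.W 78 0 [] [0] (Pf.cons (Pf.C 49 1) Pf.nil)))
 (Pq.cons (Pq.L [] 0 (Pf.W 78 0 [] [0] (Pf.cons (Pf.C 50 1) Pf.nil)))
 Pq.nil)))
theorem e3_o26 : AllRef e3_T e3_G22 (List.map pat1 [33,34,35]) :=
  chkPq_sound e3_o26c _ (by decide +kernel)
noncomputable def e3_o27c : Pq := (Pq.cons (Pq.L [] 1 (Pf.C 120 128))
 (Pq.cons (Pq.L [] 2 (Pf.C 24 2))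
 (Pq.cons (Pq.L [] 2 (Pf.C 30 2))
 (Pq.cons (Pq.L [] 1 (Pf.C 3 128))
 (Pq.cons (Pq.L [] 1 (Pf.C 122 128))
 (Pq.cons (Pq.L [] 1 (Pf.C 124 128))
 (Pq.cons (Pq.L [] 3 (Pf.B 2 1 (Pf.W 121 1 [] [0,2] (Pf.cons (Pf.B 3 0 (Pf.B 3 2 (Pf.W 121 2 [] [0,1,3] (Pf.cons (Pf.B 4 3 (Pf.B 4 0 (Pf.B 4 1 (Pf.C 16 0x30200104) (Pf.W 119 4 [] [1,2] (Pf.cons (Pf.B 5 2 (Pf.C 24 261) (Pf.B 5 1 (Pf.C 24 133) (Pf.C 0 0x410281))) Pf.nil))) (Pf.C 3 4)) (Pf.C 3 388)) Pf.nil)) (Pf.W 119 3 [] [1,2] (Pf.cons (Pf.B 4 2 (Pf.C 24 260) (Pf.B 4 1 (Pf.C 24 132) (Pf.C 0 0x40c201))) Pf.nil))) (Pf.C 3 3)) Pf.nil)) (Pf.C 4 130)))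
 (Pq.cons (Pq.L [] 1 (Pf.C 4 128))
 (Pq.cons (Pq.L [] 1 (Pf.W 78 0 [] [0,1] (Pf.cons (Pf.B 3 1 (Pf.C 24 131) (Pf.B 3 0 (Pf.C 30 3) (Pf.C 64 131))) Pf.nil)))
 (Pq.cons (Pq.L [] 3 (Pf.B 2 1 (Pf.W 123 1 [] [0,2] (Pf.cons (Pf.B 3 0 (Pf.B 3 2 (Pf.W 123 2 [] [0,1,3] (Pf.cons (Pf.B 4 3 (Pf.B 4 0 (Pf.B 4 1 (Pf.C 17 0x30200104) (Pf.W 119 4 [] [1,2] (Pf.cons (Pf.B 5 2 (Pf.C 30 261) (Pf.B 5 1 (Pf.C 30 133) (Pf.C 0 0x410281))) Pf.nil))) (Pf.C 3 4)) (Pf.C 3 388)) Pf.nil)) (Pf.W 119 3 [] [1,2] (Pf.cons (Pf.B 4 2 (Pf.C 30 260) (Pf.B 4 1 (Pf.C 30 132) (Pf.C 0 0x40c201))) Pf.nil))) (Pf.C 3 3)) Pf.nil)) (Pf.C 5 130)))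
 (Pq.cons (Pq.L [] 1 (Pf.W 78 0 [] [0,1] (Pf.cons (Pf.B 3 1 (Pf.C 30 131) (Pf.B 3 0 (Pf.C 24 3) (Pf.C 64 16387))) Pf.nil)))
 (Pq.cons (Pq.L [] 1 (Pf.C 5 128))
 Pq.nil))))))))))))
theorem e3_o27 : AllRef e3_T e3_G50 (splitObl [32,68,70,72] [69,71,73]) :=
  chkPq_sound e3_o27c _ (by decide +kernel)
noncomputable def e3_o28c : Pq := (Pq.cons (Pq.D 0 (Pq.cons (Pq.D 1 (Pq.cons (Pq.L [] 1 (Pf.C 2 128))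
 (Pq.cons (Pq.D 2 (Pq.cons (Pq.L [] 2 (Pf.C 2 256))
 (Pq.cons (Pq.L [] 4 (Pf.C 3 257))
 (Pq.cons (Pq.L [] 2 (Pf.C 24 256))
 (Pq.cons (Pq.L [] 2 (Pf.C 30 256))
 Pq.nil))))) (Pq.cons (Pq.L [] 1 (Pf.C 24 128))
 (Pq.cons (Pq.L [] 1 (Pf.C 30 128))
 Pq.nil))))) (Pq.cons (Pq.D 1 (Pq.cons (Pq.D 2 (Pq.cons (Pq.L [] 4 (Pf.C 2 257))
 (Pq.cons (Pq.L [] 2 (Pf.C 3 256))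
 (Pq.cons (Pq.L [] 4 (Pf.C 24 257))
 (Pq.cons (Pq.L [] 4 (Pf.C 30 257))
 Pq.nil))))) (Pq.cons (Pq.L [] 1 (Pf.C 3 128))
 (Pq.cons (Pq.D 2 (Pq.cons (Pq.L [] 4 (Pf.C 24 130))
 (Pq.cons (Pq.L [] 2 (Pf.C 3 256))
 (Pq.cons (Pq.L [] 4 (Pf.C 4 257))
 (Pq.cons (Pq.L [] 4 (Pf.W 78 0 [] [1,2] (Pf.cons (Pf.B 3 2 (Pf.C 30 259) (Pf.B 3 1 (Pf.C 24 131) (Pf.C 64 32899))) Pf.nil)))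
 Pq.nil))))) (Pq.cons (Pq.D 2 (Pq.cons (Pq.L [] 4 (Pf.C 30 130))
 (Pq.cons (Pq.L [] 2 (Pf.C 3 256))
 (Pq.cons (Pq.L [] 4 (Pf.W 78 0 [] [1,2] (Pf.cons (Pf.B 3 2 (Pf.C 24 259) (Pf.B 3 1 (Pf.C 30 131) (Pf.C 64 16643))) Pf.nil)))
 (Pq.cons (Pq.L [] 4 (Pf.C 5 257))
 Pq.nil))))) Pq.nil))))) (Pq.cons (Pq.D 1 (Pq.cons (Pq.L [] 1 (Pf.C 24 1))
 (Pq.cons (Pq.D 2 (Pq.cons (Pq.L [] 2 (Pf.C 24 2))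
 (Pq.cons (Pq.L [] 4 (Pf.C 3 257))
 (Pq.cons (Pq.L [] 2 (Pf.C 4 256))
 (Pq.cons (Pq.L [] 2 (Pf.W 78 0 [] [0,2] (Pf.cons (Pf.B 3 2 (Pf.C 30 259) (Pf.B 3 0 (Pf.C 24 3) (Pf.C 64 32771))) Pf.nil)))
 Pq.nil))))) (Pq.cons (Pq.L [] 1 (Pf.C 4 128))
 (Pq.cons (Pq.L [] 1 (Pf.B 2 1 (Pf.W 78 0 [] [0,1] (Pf.cons (Pf.B 3 1 (Pf.C 30 131) (Pf.B 3 0 (Pf.C 24 3) (Pf.C 64 16387))) Pf.nil)) (Pf.B 2 0 (Pf.W 78 0 [] [0,1] (Pf.cons (Pf.B 3 1 (Pf.C 30 131) (Pf.B 3 0 (Pf.C 24 3) (Pf.C 64 16387))) Pf.nil)) (Pf.W 78 0 [] [0,1] (Pf.cons (Pf.B 3 1 (Pf.C 30 131) (Pf.B 3 0 (Pf.C 24 3) (Pf.C 64 16387))) Pf.nil)))))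
 Pq.nil))))) (Pq.cons (Pq.D 1 (Pq.cons (Pq.L [] 1 (Pf.C 30 1))
 (Pq.cons (Pq.D 2 (Pq.cons (Pq.L [] 2 (Pf.C 30 2))
 (Pq.cons (Pq.L [] 4 (Pf.C 3 257))
 (Pq.cons (Pq.L [] 2 (Pf.W 78 0 [] [0,2] (Pf.cons (Pf.B 3 2 (Pf.C 24 259) (Pf.B 3 0 (Pf.C 30 3) (Pf.C 64 259))) Pf.nil)))
 (Pq.cons (Pq.L [] 2 (Pf.C 5 256))
 Pq.nil))))) (Pq.cons (Pq.L [] 1 (Pf.B 2 1 (Pf.W 78 0 [] [0,1] (Pf.cons (Pf.B 3 1 (Pf.C 24 131) (Pf.B 3 0 (Pf.C 30 3) (Pf.C 64 131))) Pf.nil)) (Pf.B 2 0 (Pf.W 78 0 [] [0,1] (Pf.cons (Pf.B 3 1 (Pf.C 24 131) (Pf.B 3 0 (Pf.C 30 3) (Pf.C 64 131))) Pf.nil)) (Pf.W 78 0 [] [0,1] (Pf.cons (Pf.B 3 1 (Pf.C 24 131) (Pf.B 3 0 (Pf.C 30 3) (Pf.C 64 131))) Pf.nil)))))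
 (Pq.cons (Pq.L [] 1 (Pf.C 5 128))
 Pq.nil))))) Pq.nil))))) (Pq.cons (Pq.D 0 (Pq.cons (Pq.D 1 (Pq.cons (Pq.D 2 (Pq.cons (Pq.L [] 64 (Pf.C 2 257))
 (Pq.cons (Pq.D 3 (Pq.cons (Pq.L [] 2247 (Pf.C 7 0x604100))
 (Pq.cons (Pq.L [] 2247 (Pf.C 7 0x604100))
 (Pq.cons (Pq.L [] 128 (Pf.C 24 385))
 (Pq.cons (Pq.L [] 128 (Pf.C 30 385))
 Pq.nil))))) (Pq.cons (Pq.L [] 64 (Pf.C 24 257))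
 (Pq.cons (Pq.L [] 64 (Pf.C 30 257))
 Pq.nil))))) (Pq.cons (Pq.D 2 (Pq.cons (Pq.D 3 (Pq.cons (Pq.L [] 2247 (Pf.C 7 0x604100))
 (Pq.cons (Pq.L [] 2247 (Pf.C 7 0x604100))
 (Pq.cons (Pq.D 4 (Pq.cons (Pq.L [] 4427 (Pf.C 7 0x804100))
 (Pq.cons (Pq.L [] 4427 (Pf.C 7 0x804100))
 (Pq.cons (Pq.L [] 39360 (Pf.C 0 0x808083))
 (Pq.cons (Pq.L [] 39360 (Pf.C 0 0x808083))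
 Pq.nil))))) (Pq.cons (Pq.D 4 (Pq.cons (Pq.L [] 4427 (Pf.C 7 0x804100))
 (Pq.cons (Pq.L [] 4427 (Pf.C 7 0x804100))
 (Pq.cons (Pq.L [] 39360 (Pf.C 0 0x808083))
 (Pq.cons (Pq.L [] 39360 (Pf.C 0 0x808083))
 Pq.nil))))) Pq.nil))))) (Pq.cons (Pq.L [] 64 (Pf.C 3 257))
 (Pq.cons (Pq.D 3 (Pq.cons (Pq.D 4 (Pq.cons (Pq.L [] 33165 (Pf.C 7 0x804180))
 (Pq.cons (Pq.L [] 33165 (Pf.C 7 0x804180))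
 (Pq.cons (Pq.L [] 39360 (Pf.C 0 0x80c082))
 (Pq.cons (Pq.L [] 39360 (Pf.C 0 0x80c082))
 Pq.nil))))) (Pq.cons (Pq.L [] 128 (Pf.C 3 385))
 (Pq.cons (Pq.L [] 39360 (Pf.B 4 3 (Pf.B 4 2 (Pf.W 119 1 [] [2,3] (Pf.cons (Pf.B 7 3 (Pf.C 24 391) (Pf.B 7 2 (Pf.C 24 263) (Pf.C 0 0x604382))) Pf.nil)) (Pf.W 119 1 [] [2,3,4] (Pf.cons (Pf.C 24 388) (Pf.cons (Pf.B 7 3 (Pf.C 24 391) (Pf.B 7 4 (Pf.B 7 2 (Pf.C 24 263) (Pf.C 0 0x804107)) (Pf.C 0 0x604384))) Pf.nil)))) (Pf.B 4 2 (Pf.W 119 1 [] [2,3] (Pf.cons (Pf.B 7 3 (Pf.C 24 391) (Pf.B 7 2 (Pf.C 24 263) (Pf.C 0 0x604382))) Pf.nil)) (Pf.C 0 0x604202))))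
 (Pq.cons (Pq.L [] 39360 (Pf.B 4 3 (Pf.B 4 2 (Pf.W 119 1 [] [2,3] (Pf.cons (Pf.B 7 3 (Pf.C 30 391) (Pf.B 7 2 (Pf.C 24 263) (Pf.C 0 0x604382))) Pf.nil)) (Pf.W 119 1 [] [2,3,4] (Pf.cons (Pf.C 30 388) (Pf.cons (Pf.B 7 3 (Pf.C 30 391) (Pf.B 7 4 (Pf.B 7 2 (Pf.C 24 263) (Pf.C 0 0x804107)) (Pf.C 0 0x604384))) Pf.nil)))) (Pf.B 4 2 (Pf.W 119 1 [] [2,3] (Pf.cons (Pf.B 7 3 (Pf.C 30 391) (Pf.B 7 2 (Pf.C 24 263) (Pf.C 0 0x604382))) Pf.nil)) (Pf.C 0 0x604202))))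
 Pq.nil))))) (Pq.cons (Pq.D 3 (Pq.cons (Pq.D 4 (Pq.cons (Pq.L [] 33165 (Pf.C 7 0x804180))
 (Pq.cons (Pq.L [] 33165 (Pf.C 7 0x804180))
 (Pq.cons (Pq.L [] 39360 (Pf.C 0 0x80c082))
 (Pq.cons (Pq.L [] 39360 (Pf.C 0 0x80c082))
 Pq.nil))))) (Pq.cons (Pq.L [] 128 (Pf.C 3 385))
 (Pq.cons (Pq.L [] 39360 (Pf.B 4 3 (Pf.W 119 1 [] [2,3] (Pf.cons (Pf.B 7 3 (Pf.C 24 391) (Pf.B 7 2 (Pf.C 30 263) (Pf.C 0 0x604382))) Pf.nil)) (Pf.B 4 2 (Pf.W 119 1 [] [2,3] (Pf.cons (Pf.B 7 3 (Pf.C 24 391) (Pf.B 7 2 (Pf.C 30 263) (Pf.C 0 0x604382))) Pf.nil)) (Pf.C 0 0x604202))))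
 (Pq.cons (Pq.L [] 39360 (Pf.B 4 3 (Pf.B 4 2 (Pf.W 119 1 [] [2,3] (Pf.cons (Pf.B 7 3 (Pf.C 30 391) (Pf.B 7 2 (Pf.C 30 263) (Pf.C 0 0x604382))) Pf.nil)) (Pf.W 119 1 [] [2,3,4] (Pf.cons (Pf.C 30 388) (Pf.cons (Pf.B 7 3 (Pf.C 30 391) (Pf.B 7 4 (Pf.B 7 2 (Pf.C 30 263) (Pf.C 0 0x804107)) (Pf.C 0 0x604384))) Pf.nil)))) (Pf.B 4 2 (Pf.W 119 1 [] [2,3] (Pf.cons (Pf.B 7 3 (Pf.C 30 391) (Pf.B 7 2 (Pf.C 30 263) (Pf.C 0 0x604382))) Pf.nil)) (Pf.C 0 0x604202))))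
 Pq.nil))))) Pq.nil))))) (Pq.cons (Pq.D 2 (Pq.cons (Pq.L [] 64 (Pf.C 24 130))
 (Pq.cons (Pq.D 3 (Pq.cons (Pq.L [] 128 (Pf.C 24 131))
 (Pq.cons (Pq.D 4 (Pq.cons (Pq.L [] 256 (Pf.C 24 132))
 (Pq.cons (Pq.D 5 (Pq.cons (Pq.D 6 (Pq.cons (Pq.L [] 0x1c0038 (Pf.C 7 0xc14200))
 (Pq.cons (Pq.L [] 0x1c0038 (Pf.C 7 0xc14200))
 (Pq.cons (Pq.L [] 0x106032 (Pf.C 14 0x418005))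
 (Pq.cons (Pq.L [] 0x106032 (Pf.C 15 0x418005))
 Pq.nil))))) (Pq.cons (Pq.L [] 0x40000 (Pf.C 3 644))
 (Pq.cons (Pq.L [] 0x40300 (Pf.W 119 4 [] [1,5] (Pf.cons (Pf.B 7 5 (Pf.C 24 647) (Pf.B 7 1 (Pf.C 24 135) (Pf.C 0 0xa10381))) Pf.nil)))
 (Pq.cons (Pq.L [] 0x40300 (Pf.W 119 4 [] [1,5] (Pf.cons (Pf.B 7 5 (Pf.C 30 647) (Pf.B 7 1 (Pf.C 24 135) (Pf.C 0 0xa10381))) Pf.nil)))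
 Pq.nil))))) (Pq.cons (Pq.L [] 256 (Pf.C 4 513))
 (Pq.cons (Pq.L [] 265 (Pf.C 64 65664))
 Pq.nil))))) (Pq.cons (Pq.L [] 128 (Pf.C 4 385))
 (Pq.cons (Pq.L [] 133 (Pf.C 64 49280))
 Pq.nil))))) (Pq.cons (Pq.L [] 64 (Pf.C 4 257))
 (Pq.cons (Pq.L [] 67 (Pf.C 64 32896))
 Pq.nil))))) (Pq.cons (Pq.D 2 (Pq.cons (Pq.L [] 64 (Pf.C 30 130))
 (Pq.cons (Pq.D 3 (Pq.cons (Pq.L [] 128 (Pf.C 30 131))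
 (Pq.cons (Pq.D 4 (Pq.cons (Pq.L [] 256 (Pf.C 30 132))
 (Pq.cons (Pq.D 5 (Pq.cons (Pq.D 6 (Pq.cons (Pq.L [] 0x1c0038 (Pf.C 7 0xc14200))
 (Pq.cons (Pq.L [] 0x1c0038 (Pf.C 7 0xc14200))
 (Pq.cons (Pq.L [] 0x106032 (Pf.C 14 0x418005))
 (Pq.cons (Pq.L [] 0x106032 (Pf.C 15 0x418005))
 Pq.nil))))) (Pq.cons (Pq.L [] 0x40000 (Pf.C 3 644))
 (Pq.cons (Pq.L [] 0x40300 (Pf.W 119 4 [] [1,5] (Pf.cons (Pf.B 7 5 (Pf.C 24 647) (Pf.B 7 1 (Pf.C 30 135) (Pf.C 0 0xa10381))) Pf.nil)))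
 (Pq.cons (Pq.L [] 0x40300 (Pf.W 119 4 [] [1,5] (Pf.cons (Pf.B 7 5 (Pf.C 30 647) (Pf.B 7 1 (Pf.C 30 135) (Pf.C 0 0xa10381))) Pf.nil)))
 Pq.nil))))) (Pq.cons (Pq.L [] 265 (Pf.C 64 16896))
 (Pq.cons (Pq.L [] 256 (Pf.C 5 513))
 Pq.nil))))) (Pq.cons (Pq.L [] 133 (Pf.C 64 16768))
 (Pq.cons (Pq.L [] 128 (Pf.C 5 385))
 Pq.nil))))) (Pq.cons (Pq.L [] 67 (Pf.C 64 16640))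
 (Pq.cons (Pq.L [] 64 (Pf.C 5 257))
 Pq.nil))))) Pq.nil))))) (Pq.cons (Pq.D 1 (Pq.cons (Pq.D 2 (Pq.cons (Pq.L [] 64 (Pf.C 2 257))
 (Pq.cons (Pq.D 3 (Pq.cons (Pq.L [] 2247 (Pf.C 7 0x604100))
 (Pq.cons (Pq.L [] 2247 (Pf.C 7 0x604100))
 (Pq.cons (Pq.L [] 2247 (Pf.C 12 0x608080))
 (Pq.cons (Pq.L [] 2247 (Pf.C 10 0x608080))
 Pq.nil))))) (Pq.cons (Pq.L [] 64 (Pf.C 24 257))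
 (Pq.cons (Pq.L [] 64 (Pf.C 30 257))
 Pq.nil))))) (Pq.cons (Pq.D 2 (Pq.cons (Pq.D 3 (Pq.cons (Pq.L [] 2247 (Pf.C 7 0x604100))
 (Pq.cons (Pq.L [] 2247 (Pf.C 7 0x604100))
 (Pq.cons (Pq.D 4 (Pq.cons (Pq.L [] 4427 (Pf.C 7 0x804100))
 (Pq.cons (Pq.L [] 4427 (Pf.C 7 0x804100))
 (Pq.cons (Pq.L [] 39360 (Pf.C 0 0x808083))
 (Pq.cons (Pq.L [] 32780 (Pf.C 6 65920))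
 Pq.nil))))) (Pq.cons (Pq.D 4 (Pq.cons (Pq.L [] 4427 (Pf.C 7 0x804100))
 (Pq.cons (Pq.L [] 4427 (Pf.C 7 0x804100))
 (Pq.cons (Pq.L [] 32780 (Pf.C 6 49664))
 (Pq.cons (Pq.L [] 39360 (Pf.C 0 0x808083))
 Pq.nil))))) Pq.nil))))) (Pq.cons (Pq.L [] 64 (Pf.C 3 257))
 (Pq.cons (Pq.D 3 (Pq.cons (Pq.D 4 (Pq.cons (Pq.L [] 33165 (Pf.C 7 0x804180))
 (Pq.cons (Pq.L [] 33165 (Pf.C 7 0x804180))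
 (Pq.cons (Pq.L [] 39360 (Pf.C 0 0x80c082))
 (Pq.cons (Pq.L [] 4106 (Pf.C 6 65792))
 Pq.nil))))) (Pq.cons (Pq.L [] 128 (Pf.C 3 385))
 (Pq.cons (Pq.L [] 39360 (Pf.B 4 3 (Pf.B 4 2 (Pf.W 119 1 [] [2,3] (Pf.cons (Pf.B 7 3 (Pf.C 24 391) (Pf.B 7 2 (Pf.C 24 263) (Pf.C 0 0x604382))) Pf.nil)) (Pf.W 119 1 [] [2,3,4] (Pf.cons (Pf.C 24 388) (Pf.cons (Pf.B 7 3 (Pf.C 24 391) (Pf.B 7 4 (Pf.B 7 2 (Pf.C 24 263) (Pf.C 0 0x804107)) (Pf.C 0 0x604384))) Pf.nil)))) (Pf.B 4 2 (Pf.W 119 1 [] [2,3] (Pf.cons (Pf.B 7 3 (Pf.C 24 391) (Pf.B 7 2 (Pf.C 24 263) (Pf.C 0 0x604382))) Pf.nil)) (Pf.C 0 0x604202))))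
 (Pq.cons (Pq.L [] 2054 (Pf.C 6 49408))
 Pq.nil))))) (Pq.cons (Pq.D 3 (Pq.cons (Pq.D 4 (Pq.cons (Pq.L [] 33165 (Pf.C 7 0x804180))
 (Pq.cons (Pq.L [] 33165 (Pf.C 7 0x804180))
 (Pq.cons (Pq.L [] 4106 (Pf.C 6 33280))
 (Pq.cons (Pq.L [] 39360 (Pf.C 0 0x80c082))
 Pq.nil))))) (Pq.cons (Pq.L [] 128 (Pf.C 3 385))
 (Pq.cons (Pq.L [] 2054 (Pf.C 6 33152))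
 (Pq.cons (Pq.L [] 39360 (Pf.B 4 3 (Pf.B 4 2 (Pf.W 119 1 [] [2,3] (Pf.cons (Pf.B 7 3 (Pf.C 30 391) (Pf.B 7 2 (Pf.C 30 263) (Pf.C 0 0x604382))) Pf.nil)) (Pf.W 119 1 [] [2,3,4] (Pf.cons (Pf.C 30 388) (Pf.cons (Pf.B 7 3 (Pf.C 30 391) (Pf.B 7 4 (Pf.B 7 2 (Pf.C 30 263) (Pf.C 0 0x804107)) (Pf.C 0 0x604384))) Pf.nil)))) (Pf.B 4 2 (Pf.W 119 1 [] [2,3] (Pf.cons (Pf.B 7 3 (Pf.C 30 391) (Pf.B 7 2 (Pf.C 30 263) (Pf.C 0 0x604382))) Pf.nil)) (Pf.C 0 0x604202))))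
 Pq.nil))))) Pq.nil))))) (Pq.cons (Pq.D 2 (Pq.cons (Pq.L [] 64 (Pf.C 24 130))
 (Pq.cons (Pq.D 3 (Pq.cons (Pq.L [] 128 (Pf.C 24 131))
 (Pq.cons (Pq.D 4 (Pq.cons (Pq.L [] 256 (Pf.C 24 132))
 (Pq.cons (Pq.D 5 (Pq.cons (Pq.D 6 (Pq.cons (Pq.L [] 0x1c0038 (Pf.C 7 0xc14200))
 (Pq.cons (Pq.L [] 0x1c0038 (Pf.C 7 0xc14200))
 (Pq.cons (Pq.L [] 0x1c0038 (Pf.C 12 0xc14200))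
 (Pq.cons (Pq.L [] 1057 (Pf.C 6 98432))
 Pq.nil))))) (Pq.cons (Pq.L [] 0x40000 (Pf.C 3 644))
 (Pq.cons (Pq.L [] 0x40300 (Pf.W 119 4 [] [1,5] (Pf.cons (Pf.B 7 5 (Pf.C 24 647) (Pf.B 7 1 (Pf.C 24 135) (Pf.C 0 0xa10381))) Pf.nil)))
 (Pq.cons (Pq.L [] 529 (Pf.C 6 82048))
 Pq.nil))))) (Pq.cons (Pq.L [] 256 (Pf.C 4 513))
 (Pq.cons (Pq.L [] 256 (Pf.W 119 0 [] [1,4] (Pf.cons (Pf.B 7 4 (Pf.C 30 519) (Pf.B 7 1 (Pf.C 24 135) (Pf.C 64 65671))) Pf.nil)))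
 Pq.nil))))) (Pq.cons (Pq.L [] 128 (Pf.C 4 385))
 (Pq.cons (Pq.L [] 128 (Pf.W 119 0 [] [1,3] (Pf.cons (Pf.B 7 3 (Pf.C 30 391) (Pf.B 7 1 (Pf.C 24 135) (Pf.C 64 49287))) Pf.nil)))
 Pq.nil))))) (Pq.cons (Pq.L [] 64 (Pf.C 4 257))
 (Pq.cons (Pq.L [] 64 (Pf.W 119 0 [] [1,2] (Pf.cons (Pf.B 7 2 (Pf.C 30 263) (Pf.B 7 1 (Pf.C 24 135) (Pf.C 64 32903))) Pf.nil)))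
 Pq.nil))))) (Pq.cons (Pq.D 2 (Pq.cons (Pq.L [] 64 (Pf.C 30 130))
 (Pq.cons (Pq.D 3 (Pq.cons (Pq.L [] 128 (Pf.C 30 131))
 (Pq.cons (Pq.D 4 (Pq.cons (Pq.L [] 256 (Pf.C 30 132))
 (Pq.cons (Pq.D 5 (Pq.cons (Pq.D 6 (Pq.cons (Pq.L [] 0x1c0038 (Pf.C 7 0xc14200))
 (Pq.cons (Pq.L [] 0x1c0038 (Pf.C 7 0xc14200))
 (Pq.cons (Pq.L [] 1057 (Pf.C 6 17152))
 (Pq.cons (Pq.L [] 0x1c0038 (Pf.C 10 0xc14200))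
 Pq.nil))))) (Pq.cons (Pq.L [] 0x40000 (Pf.C 3 644))
 (Pq.cons (Pq.L [] 529 (Pf.C 6 17024))
 (Pq.cons (Pq.L [] 0x40300 (Pf.W 119 4 [] [1,5] (Pf.cons (Pf.B 7 5 (Pf.C 30 647) (Pf.B 7 1 (Pf.C 30 135) (Pf.C 0 0xa10381))) Pf.nil)))
 Pq.nil))))) (Pq.cons (Pq.L [] 256 (Pf.W 119 0 [] [1,4] (Pf.cons (Pf.B 7 4 (Pf.C 24 519) (Pf.B 7 1 (Pf.C 30 135) (Pf.C 64 16903))) Pf.nil)))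
 (Pq.cons (Pq.L [] 256 (Pf.C 5 513))
 Pq.nil))))) (Pq.cons (Pq.L [] 128 (Pf.W 119 0 [] [1,3] (Pf.cons (Pf.B 7 3 (Pf.C 24 391) (Pf.B 7 1 (Pf.C 30 135) (Pf.C 64 16775))) Pf.nil)))
 (Pq.cons (Pq.L [] 128 (Pf.C 5 385))
 Pq.nil))))) (Pq.cons (Pq.L [] 64 (Pf.W 119 0 [] [1,2] (Pf.cons (Pf.B 7 2 (Pf.C 24 263) (Pf.B 7 1 (Pf.C 30 135) (Pf.C 64 16647))) Pf.nil)))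
 (Pq.cons (Pq.L [] 64 (Pf.C 5 257))
 Pq.nil))))) Pq.nil))))) (Pq.cons (Pq.D 1 (Pq.cons (Pq.D 2 (Pq.cons (Pq.L [] 64 (Pf.C 2 257))
 (Pq.cons (Pq.D 3 (Pq.cons (Pq.L [] 128 (Pf.C 2 385))
 (Pq.cons (Pq.D 4 (Pq.cons (Pq.L [] 256 (Pf.C 2 513))
 (Pq.cons (Pq.L [] 33152 (Pf.B 6 1 (Pf.W 21 1 [] [3,4] (Pf.cons (Pf.B 7 4 (Pf.B 7 3 (Pf.C 7 0x804187) (Pf.C 3 391)) (Pf.C 3 519)) Pf.nil)) (Pf.W 21 1 [] [3,4] (Pf.cons (Pf.B 7 4 (Pf.B 7 3 (Pf.C 7 0x804187) (Pf.C 3 391)) (Pf.C 3 519)) Pf.nil))))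
 (Pq.cons (Pq.L [] 256 (Pf.C 24 513))
 (Pq.cons (Pq.L [] 4106 (Pf.C 6 65538))
 Pq.nil))))) (Pq.cons (Pq.L [] 128 (Pf.C 24 385))
 (Pq.cons (Pq.L [] 2054 (Pf.C 6 49154))
 Pq.nil))))) (Pq.cons (Pq.L [] 64 (Pf.C 24 257))
 (Pq.cons (Pq.L [] 64 (Pf.C 30 257))
 Pq.nil))))) (Pq.cons (Pq.D 2 (Pq.cons (Pq.D 3 (Pq.cons (Pq.D 4 (Pq.cons (Pq.D 5 (Pq.cons (Pq.L [] 76480 (Pf.C 7 0x604105))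
 (Pq.cons (Pq.L [] 76480 (Pf.C 7 0x604105))
 (Pq.cons (Pq.L [] 0x5b800 (Pf.C 8 0x614104))
 (Pq.cons (Pq.L [] 529 (Pf.C 6 81921))
 Pq.nil))))) (Pq.cons (Pq.L [] 256 (Pf.C 3 513))
 (Pq.cons (Pq.L [] 39360 (Pf.C 0 0x610082))
 (Pq.cons (Pq.L [] 39360 (Pf.C 0 0x610082))
 Pq.nil))))) (Pq.cons (Pq.L [] 128 (Pf.C 3 385))
 (Pq.cons (Pq.D 4 (Pq.cons (Pq.L [] 39360 (Pf.C 0 0x80c082))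
 (Pq.cons (Pq.L [] 256 (Pf.C 3 513))
 (Pq.cons (Pq.L [] 39360 (Pf.C 0 0x808083))
 (Pq.cons (Pq.L [] 39360 (Pf.C 0 0x808083))
 Pq.nil))))) (Pq.cons (Pq.D 4 (Pq.cons (Pq.L [] 39360 (Pf.C 0 0x80c082))
 (Pq.cons (Pq.L [] 32780 (Pf.C 6 49156))
 (Pq.cons (Pq.L [] 39360 (Pf.C 0 0x808083))
 (Pq.cons (Pq.L [] 39360 (Pf.C 0 0x808083))
 Pq.nil))))) Pq.nil))))) (Pq.cons (Pq.L [] 64 (Pf.C 3 257))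
 (Pq.cons (Pq.D 3 (Pq.cons (Pq.D 4 (Pq.cons (Pq.L [] 39360 (Pf.C 0 0x808083))
 (Pq.cons (Pq.L [] 256 (Pf.C 3 513))
 (Pq.cons (Pq.L [] 39360 (Pf.C 0 0x80c082))
 (Pq.cons (Pq.L [] 39360 (Pf.C 0 0x80c082))
 Pq.nil))))) (Pq.cons (Pq.L [] 128 (Pf.C 3 385))
 (Pq.cons (Pq.D 4 (Pq.cons (Pq.L [] 39360 (Pf.C 0 0x610082))
 (Pq.cons (Pq.L [] 256 (Pf.C 3 513))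
 (Pq.cons (Pq.L [] 33152 (Pf.W 119 1 [] [3,4] (Pf.cons (Pf.B 7 4 (Pf.C 24 519) (Pf.B 7 3 (Pf.C 24 391) (Pf.C 0 0x804383))) Pf.nil)))
 (Pq.cons (Pq.L [] 33152 (Pf.W 119 1 [] [3,4] (Pf.cons (Pf.B 7 4 (Pf.C 30 519) (Pf.B 7 3 (Pf.C 24 391) (Pf.C 0 0x804383))) Pf.nil)))
 Pq.nil))))) (Pq.cons (Pq.D 4 (Pq.cons (Pq.L [] 39360 (Pf.C 0 0x610082))
 (Pq.cons (Pq.L [] 32780 (Pf.C 6 49156))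
 (Pq.cons (Pq.L [] 33152 (Pf.W 119 1 [] [3,4] (Pf.cons (Pf.B 7 4 (Pf.C 24 519) (Pf.B 7 3 (Pf.C 30 391) (Pf.C 0 0x804383))) Pf.nil)))
 (Pq.cons (Pq.L [] 33152 (Pf.W 119 1 [] [3,4] (Pf.cons (Pf.B 7 4 (Pf.C 30 519) (Pf.B 7 3 (Pf.C 30 391) (Pf.C 0 0x804383))) Pf.nil)))
 Pq.nil))))) Pq.nil))))) (Pq.cons (Pq.D 3 (Pq.cons (Pq.D 4 (Pq.cons (Pq.L [] 39360 (Pf.C 0 0x808083))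
 (Pq.cons (Pq.L [] 4106 (Pf.C 6 32772))
 (Pq.cons (Pq.L [] 39360 (Pf.C 0 0x80c082))
 (Pq.cons (Pq.L [] 39360 (Pf.C 0 0x80c082))
 Pq.nil))))) (Pq.cons (Pq.L [] 2054 (Pf.C 6 32771))
 (Pq.cons (Pq.D 4 (Pq.cons (Pq.L [] 39360 (Pf.C 0 0x610082))
 (Pq.cons (Pq.L [] 4106 (Pf.C 6 32772))
 (Pq.cons (Pq.L [] 33152 (Pf.W 119 1 [] [3,4] (Pf.cons (Pf.B 7 4 (Pf.C 24 519) (Pf.B 7 3 (Pf.C 24 391) (Pf.C 0 0x804383))) Pf.nil)))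
 (Pq.cons (Pq.L [] 33152 (Pf.W 119 1 [] [3,4] (Pf.cons (Pf.B 7 4 (Pf.C 30 519) (Pf.B 7 3 (Pf.C 24 391) (Pf.C 0 0x804383))) Pf.nil)))
 Pq.nil))))) (Pq.cons (Pq.D 4 (Pq.cons (Pq.L [] 39360 (Pf.C 0 0x610082))
 (Pq.cons (Pq.L [] 4106 (Pf.C 6 32772))
 (Pq.cons (Pq.L [] 33152 (Pf.W 119 1 [] [3,4] (Pf.cons (Pf.B 7 4 (Pf.C 24 519) (Pf.B 7 3 (Pf.C 30 391) (Pf.C 0 0x804383))) Pf.nil)))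
 (Pq.cons (Pq.L [] 33152 (Pf.W 119 1 [] [3,4] (Pf.cons (Pf.B 7 4 (Pf.C 30 519) (Pf.B 7 3 (Pf.C 30 391) (Pf.C 0 0x804383))) Pf.nil)))
 Pq.nil))))) Pq.nil))))) Pq.nil))))) (Pq.cons (Pq.D 2 (Pq.cons (Pq.L [] 64 (Pf.C 24 130))
 (Pq.cons (Pq.D 3 (Pq.cons (Pq.L [] 128 (Pf.C 24 131))
 (Pq.cons (Pq.D 4 (Pq.cons (Pq.L [] 39375 (Pf.C 16 0x30208200))
 (Pq.cons (Pq.D 5 (Pq.cons (Pq.D 6 (Pq.cons (Pq.L [] 0x100631 (Pf.C 0 0x218280))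
 (Pq.cons (Pq.L [] 0x1c7000 (Pf.C 7 0xc14202))
 (Pq.cons (Pq.L [] 0x100631 (Pf.C 8 0x214006))
 (Pq.cons (Pq.L [] 16418 (Pf.C 6 98306))
 Pq.nil))))) (Pq.cons (Pq.L [] 0x4301a (Pf.C 12 82434))
 (Pq.cons (Pq.L [] 0x40300 (Pf.W 119 4 [] [1,5] (Pf.cons (Pf.B 7 5 (Pf.C 24 647) (Pf.B 7 1 (Pf.C 24 135) (Pf.C 0 0xa10381))) Pf.nil)))
 (Pq.cons (Pq.L [] 8210 (Pf.C 6 81922))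
 Pq.nil))))) (Pq.cons (Pq.L [] 256 (Pf.C 4 513))
 (Pq.cons (Pq.L [] 4106 (Pf.C 6 65538))
 Pq.nil))))) (Pq.cons (Pq.L [] 128 (Pf.C 4 385))
 (Pq.cons (Pq.L [] 2054 (Pf.C 6 49154))
 Pq.nil))))) (Pq.cons (Pq.L [] 64 (Pf.C 4 257))
 (Pq.cons (Pq.D 3 (Pq.cons (Pq.L [] 128 (Pf.C 24 131))
 (Pq.cons (Pq.L [] 2054 (Pf.C 6 32771))
 (Pq.cons (Pq.L [] 128 (Pf.C 4 385))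
 (Pq.cons (Pq.D 4 (Pq.cons (Pq.L [] 256 (Pf.C 24 132))
 (Pq.cons (Pq.L [] 4106 (Pf.C 6 32772))
 (Pq.cons (Pq.L [] 256 (Pf.C 4 513))
 (Pq.cons (Pq.D 5 (Pq.cons (Pq.L [] 8768 (Pf.C 64 32901))
 (Pq.cons (Pq.L [] 8210 (Pf.C 6 32773))
 (Pq.cons (Pq.D 6 (Pq.cons (Pq.L [] 0x100631 (Pf.C 8 0x218005))
 (Pq.cons (Pq.L [] 16418 (Pf.C 6 32774))
 (Pq.cons (Pq.L [] 0x106032 (Pf.C 11 0x418280))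
 (Pq.cons (Pq.L [] 0x136ef7 (Pf.C 1 0x1810418280))
 Pq.nil))))) (Pq.cons (Pq.L [] 0x4301a (Pf.C 13 82434))
 Pq.nil))))) Pq.nil))))) Pq.nil))))) Pq.nil))))) (Pq.cons (Pq.D 2 (Pq.cons (Pq.L [] 64 (Pf.C 30 130))
 (Pq.cons (Pq.D 3 (Pq.cons (Pq.L [] 128 (Pf.C 30 131))
 (Pq.cons (Pq.D 4 (Pq.cons (Pq.L [] 256 (Pf.C 30 132))
 (Pq.cons (Pq.D 5 (Pq.cons (Pq.D 6 (Pq.cons (Pq.L [] 0x100631 (Pf.C 0 0x218280))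
 (Pq.cons (Pq.L [] 1057 (Pf.C 6 16390))
 (Pq.cons (Pq.L [] 0x106032 (Pf.C 14 0x414006))
 (Pq.cons (Pq.L [] 16418 (Pf.C 6 98306))
 Pq.nil))))) (Pq.cons (Pq.L [] 529 (Pf.C 6 16389))
 (Pq.cons (Pq.L [] 0x40300 (Pf.W 119 4 [] [1,5] (Pf.cons (Pf.B 7 5 (Pf.C 24 647) (Pf.B 7 1 (Pf.C 30 135) (Pf.C 0 0xa10381))) Pf.nil)))
 (Pq.cons (Pq.L [] 8210 (Pf.C 6 81922))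
 Pq.nil))))) (Pq.cons (Pq.L [] 256 (Pf.W 119 2 [] [1,4] (Pf.cons (Pf.B 7 4 (Pf.C 24 519) (Pf.B 7 1 (Pf.C 30 135) (Pf.C 64 16903))) Pf.nil)))
 (Pq.cons (Pq.L [] 4106 (Pf.C 6 65538))
 Pq.nil))))) (Pq.cons (Pq.L [] 128 (Pf.W 119 2 [] [1,3] (Pf.cons (Pf.B 7 3 (Pf.C 24 391) (Pf.B 7 1 (Pf.C 30 135) (Pf.C 64 16775))) Pf.nil)))
 (Pq.cons (Pq.L [] 2054 (Pf.C 6 49154))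
 Pq.nil))))) (Pq.cons (Pq.D 3 (Pq.cons (Pq.L [] 128 (Pf.C 30 131))
 (Pq.cons (Pq.L [] 64 (Pf.W 119 3 [] [1,2] (Pf.cons (Pf.B 7 2 (Pf.C 24 263) (Pf.B 7 1 (Pf.C 30 135) (Pf.C 64 16647))) Pf.nil)))
 (Pq.cons (Pq.D 4 (Pq.cons (Pq.L [] 256 (Pf.C 30 132))
 (Pq.cons (Pq.D 5 (Pq.cons (Pq.L [] 8768 (Pf.C 64 16645))
 (Pq.cons (Pq.L [] 529 (Pf.C 6 16389))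
 (Pq.cons (Pq.L [] 64 (Pf.W 119 4 [] [1,2] (Pf.cons (Pf.B 7 2 (Pf.C 24 263) (Pf.B 7 1 (Pf.C 30 135) (Pf.C 64 16647))) Pf.nil)))
 (Pq.cons (Pq.L [] 64 (Pf.W 119 4 [] [1,2] (Pf.cons (Pf.B 7 2 (Pf.C 24 263) (Pf.B 7 1 (Pf.C 30 135) (Pf.C 64 16647))) Pf.nil)))
 Pq.nil))))) (Pq.cons (Pq.D 5 (Pq.cons (Pq.L [] 0x4301a (Pf.C 8 0x414004))
 (Pq.cons (Pq.L [] 529 (Pf.C 6 16389))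
 (Pq.cons (Pq.L [] 0x40000 (Pf.C 4 644))
 (Pq.cons (Pq.D 6 (Pq.cons (Pq.L [] 17472 (Pf.C 64 16646))
 (Pq.cons (Pq.L [] 1057 (Pf.C 6 16390))
 (Pq.cons (Pq.L [] 0x136ef7 (Pf.C 1 0x1810418280))
 (Pq.cons (Pq.L [] 0x100631 (Pf.C 13 98945))
 Pq.nil))))) Pq.nil))))) (Pq.cons (Pq.L [] 256 (Pf.C 5 513))
 Pq.nil))))) (Pq.cons (Pq.L [] 128 (Pf.C 5 385))
 Pq.nil))))) (Pq.cons (Pq.L [] 64 (Pf.C 5 257))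
 Pq.nil))))) Pq.nil))))) (Pq.cons (Pq.D 1 (Pq.cons (Pq.D 2 (Pq.cons (Pq.L [] 64 (Pf.C 2 257))
 (Pq.cons (Pq.D 3 (Pq.cons (Pq.L [] 128 (Pf.C 2 385))
 (Pq.cons (Pq.D 4 (Pq.cons (Pq.L [] 256 (Pf.C 2 513))
 (Pq.cons (Pq.L [] 33152 (Pf.B 6 1 (Pf.W 21 1 [] [3,4] (Pf.cons (Pf.B 7 4 (Pf.B 7 3 (Pf.C 7 0x804187) (Pf.C 3 391)) (Pf.C 3 519)) Pf.nil)) (Pf.W 21 1 [] [3,4] (Pf.cons (Pf.B 7 4 (Pf.B 7 3 (Pf.C 7 0x804187) (Pf.C 3 391)) (Pf.C 3 519)) Pf.nil))))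
 (Pq.cons (Pq.L [] 4106 (Pf.C 6 514))
 (Pq.cons (Pq.L [] 256 (Pf.C 30 513))
 Pq.nil))))) (Pq.cons (Pq.L [] 2054 (Pf.C 6 386))
 (Pq.cons (Pq.L [] 128 (Pf.C 30 385))
 Pq.nil))))) (Pq.cons (Pq.L [] 64 (Pf.C 24 257))
 (Pq.cons (Pq.L [] 64 (Pf.C 30 257))
 Pq.nil))))) (Pq.cons (Pq.D 2 (Pq.cons (Pq.D 3 (Pq.cons (Pq.D 4 (Pq.cons (Pq.D 5 (Pq.cons (Pq.L [] 76480 (Pf.C 7 0x604105))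
 (Pq.cons (Pq.L [] 76480 (Pf.C 7 0x604105))
 (Pq.cons (Pq.L [] 529 (Pf.C 6 641))
 (Pq.cons (Pq.L [] 0x5b800 (Pf.C 9 0x614104))
 Pq.nil))))) (Pq.cons (Pq.L [] 256 (Pf.C 3 513))
 (Pq.cons (Pq.L [] 39360 (Pf.C 0 0x610082))
 (Pq.cons (Pq.L [] 39360 (Pf.C 0 0x610082))
 Pq.nil))))) (Pq.cons (Pq.L [] 128 (Pf.C 3 385))
 (Pq.cons (Pq.D 4 (Pq.cons (Pq.L [] 39360 (Pf.C 0 0x80c082))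
 (Pq.cons (Pq.L [] 32780 (Pf.C 6 388))
 (Pq.cons (Pq.L [] 39360 (Pf.C 0 0x808083))
 (Pq.cons (Pq.L [] 39360 (Pf.C 0 0x808083))
 Pq.nil))))) (Pq.cons (Pq.D 4 (Pq.cons (Pq.L [] 39360 (Pf.C 0 0x80c082))
 (Pq.cons (Pq.L [] 256 (Pf.C 3 513))
 (Pq.cons (Pq.L [] 39360 (Pf.C 0 0x808083))
 (Pq.cons (Pq.L [] 39360 (Pf.C 0 0x808083))
 Pq.nil))))) Pq.nil))))) (Pq.cons (Pq.L [] 64 (Pf.C 3 257))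
 (Pq.cons (Pq.D 3 (Pq.cons (Pq.D 4 (Pq.cons (Pq.L [] 39360 (Pf.C 0 0x808083))
 (Pq.cons (Pq.L [] 4106 (Pf.C 6 260))
 (Pq.cons (Pq.L [] 39360 (Pf.C 0 0x80c082))
 (Pq.cons (Pq.L [] 39360 (Pf.C 0 0x80c082))
 Pq.nil))))) (Pq.cons (Pq.L [] 2054 (Pf.C 6 259))
 (Pq.cons (Pq.L [] 39360 (Pf.B 4 3 (Pf.B 4 2 (Pf.W 119 1 [] [2,3] (Pf.cons (Pf.B 7 3 (Pf.C 24 391) (Pf.B 7 2 (Pf.C 24 263) (Pf.C 0 0x604382))) Pf.nil)) (Pf.W 119 1 [] [2,3,4] (Pf.cons (Pf.C 24 388) (Pf.cons (Pf.B 7 3 (Pf.C 24 391) (Pf.B 7 4 (Pf.B 7 2 (Pf.C 24 263) (Pf.C 0 0x804107)) (Pf.C 0 0x604384))) Pf.nil)))) (Pf.B 4 2 (Pf.W 119 1 [] [2,3] (Pf.cons (Pf.B 7 3 (Pf.C 24 391) (Pf.B 7 2 (Pf.C 24 263) (Pf.C 0 0x604382))) Pf.nil)) (Pf.C 0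 0x604202))))
 (Pq.cons (Pq.D 4 (Pq.cons (Pq.L [] 39360 (Pf.C 0 0x610082))
 (Pq.cons (Pq.L [] 4106 (Pf.C 6 260))
 (Pq.cons (Pq.L [] 33152 (Pf.W 119 1 [] [3,4] (Pf.cons (Pf.B 7 4 (Pf.C 24 519) (Pf.B 7 3 (Pf.C 30 391) (Pf.C 0 0x804383))) Pf.nil)))
 (Pq.cons (Pq.L [] 33152 (Pf.W 119 1 [] [3,4] (Pf.cons (Pf.B 7 4 (Pf.C 30 519) (Pf.B 7 3 (Pf.C 30 391) (Pf.C 0 0x804383))) Pf.nil)))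
 Pq.nil))))) Pq.nil))))) (Pq.cons (Pq.D 3 (Pq.cons (Pq.D 4 (Pq.cons (Pq.L [] 39360 (Pf.C 0 0x808083))
 (Pq.cons (Pq.L [] 256 (Pf.C 3 513))
 (Pq.cons (Pq.L [] 39360 (Pf.C 0 0x80c082))
 (Pq.cons (Pq.L [] 39360 (Pf.C 0 0x80c082))
 Pq.nil))))) (Pq.cons (Pq.L [] 128 (Pf.C 3 385))
 (Pq.cons (Pq.L [] 39360 (Pf.B 4 3 (Pf.W 119 1 [] [2,3] (Pf.cons (Pf.B 7 3 (Pf.C 24 391) (Pf.B 7 2 (Pf.C 30 263) (Pf.C 0 0x604382))) Pf.nil)) (Pf.B 4 2 (Pf.W 119 1 [] [2,3] (Pf.cons (Pf.B 7 3 (Pf.C 24 391) (Pf.B 7 2 (Pf.C 30 263) (Pf.C 0 0x604382))) Pf.nil)) (Pf.C 0 0x604202))))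
 (Pq.cons (Pq.D 4 (Pq.cons (Pq.L [] 39360 (Pf.C 0 0x610082))
 (Pq.cons (Pq.L [] 256 (Pf.C 3 513))
 (Pq.cons (Pq.L [] 33152 (Pf.W 119 1 [] [3,4] (Pf.cons (Pf.B 7 4 (Pf.C 24 519) (Pf.B 7 3 (Pf.C 30 391) (Pf.C 0 0x804383))) Pf.nil)))
 (Pq.cons (Pq.L [] 33152 (Pf.W 119 1 [] [3,4] (Pf.cons (Pf.B 7 4 (Pf.C 30 519) (Pf.B 7 3 (Pf.C 30 391) (Pf.C 0 0x804383))) Pf.nil)))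
 Pq.nil))))) Pq.nil))))) Pq.nil))))) (Pq.cons (Pq.D 2 (Pq.cons (Pq.L [] 64 (Pf.C 24 130))
 (Pq.cons (Pq.D 3 (Pq.cons (Pq.L [] 128 (Pf.C 24 131))
 (Pq.cons (Pq.D 4 (Pq.cons (Pq.L [] 256 (Pf.C 24 132))
 (Pq.cons (Pq.D 5 (Pq.cons (Pq.D 6 (Pq.cons (Pq.L [] 0x100631 (Pf.C 0 0x218280))
 (Pq.cons (Pq.L [] 1057 (Pf.C 6 134))
 (Pq.cons (Pq.L [] 16418 (Pf.C 6 770))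
 (Pq.cons (Pq.L [] 0x106032 (Pf.C 15 0x414006))
 Pq.nil))))) (Pq.cons (Pq.L [] 529 (Pf.C 6 133))
 (Pq.cons (Pq.L [] 8210 (Pf.C 6 642))
 (Pq.cons (Pq.L [] 0x40300 (Pf.W 119 4 [] [1,5] (Pf.cons (Pf.B 7 5 (Pf.C 30 647) (Pf.B 7 1 (Pf.C 24 135) (Pf.C 0 0xa10381))) Pf.nil)))
 Pq.nil))))) (Pq.cons (Pq.L [] 4106 (Pf.C 6 514))
 (Pq.cons (Pq.L [] 256 (Pf.W 119 2 [] [1,4] (Pf.cons (Pf.B 7 4 (Pf.C 30 519) (Pf.B 7 1 (Pf.C 24 135) (Pf.C 64 65671))) Pf.nil)))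
 Pq.nil))))) (Pq.cons (Pq.L [] 2054 (Pf.C 6 386))
 (Pq.cons (Pq.L [] 128 (Pf.W 119 2 [] [1,3] (Pf.cons (Pf.B 7 3 (Pf.C 30 391) (Pf.B 7 1 (Pf.C 24 135) (Pf.C 64 49287))) Pf.nil)))
 Pq.nil))))) (Pq.cons (Pq.L [] 64 (Pf.C 4 257))
 (Pq.cons (Pq.D 3 (Pq.cons (Pq.L [] 128 (Pf.C 24 131))
 (Pq.cons (Pq.L [] 64 (Pf.W 119 3 [] [1,2] (Pf.cons (Pf.B 7 2 (Pf.C 30 263) (Pf.B 7 1 (Pf.C 24 135) (Pf.C 64 32903))) Pf.nil)))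
 (Pq.cons (Pq.L [] 128 (Pf.C 4 385))
 (Pq.cons (Pq.D 4 (Pq.cons (Pq.L [] 256 (Pf.C 24 132))
 (Pq.cons (Pq.L [] 0x43340 (Pf.B 5 2 (Pf.W 119 4 [] [1,2] (Pf.cons (Pf.B 7 2 (Pf.C 30 263) (Pf.B 7 1 (Pf.C 24 135) (Pf.C 64 32903))) Pf.nil)) (Pf.B 5 1 (Pf.W 119 4 [] [1,2] (Pf.cons (Pf.B 7 2 (Pf.C 30 263) (Pf.B 7 1 (Pf.C 24 135) (Pf.C 64 32903))) Pf.nil)) (Pf.C 0 0x804282))))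
 (Pq.cons (Pq.L [] 256 (Pf.C 4 513))
 (Pq.cons (Pq.D 5 (Pq.cons (Pq.L [] 0x4301a (Pf.C 9 0x414004))
 (Pq.cons (Pq.L [] 529 (Pf.C 6 133))
 (Pq.cons (Pq.D 6 (Pq.cons (Pq.L [] 17472 (Pf.C 64 32902))
 (Pq.cons (Pq.L [] 1057 (Pf.C 6 134))
 (Pq.cons (Pq.L [] 0x100631 (Pf.C 11 98945))
 (Pq.cons (Pq.L [] 0x136ef7 (Pf.C 1 0x1810418280))
 Pq.nil))))) (Pq.cons (Pq.L [] 0x40000 (Pf.C 5 644))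
 Pq.nil))))) Pq.nil))))) Pq.nil))))) Pq.nil))))) (Pq.cons (Pq.D 2 (Pq.cons (Pq.L [] 64 (Pf.C 30 130))
 (Pq.cons (Pq.D 3 (Pq.cons (Pq.L [] 128 (Pf.C 30 131))
 (Pq.cons (Pq.D 4 (Pq.cons (Pq.L [] 39375 (Pf.C 17 0x30208200))
 (Pq.cons (Pq.D 5 (Pq.cons (Pq.D 6 (Pq.cons (Pq.L [] 0x100631 (Pf.C 0 0x218280))
 (Pq.cons (Pq.L [] 0x1c7000 (Pf.C 7 0xc14202))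
 (Pq.cons (Pq.L [] 16418 (Pf.C 6 770))
 (Pq.cons (Pq.L [] 0x100631 (Pf.C 9 0x214006))
 Pq.nil))))) (Pq.cons (Pq.L [] 0x4301a (Pf.C 10 82434))
 (Pq.cons (Pq.L [] 8210 (Pf.C 6 642))
 (Pq.cons (Pq.L [] 0x40300 (Pf.W 119 4 [] [1,5] (Pf.cons (Pf.B 7 5 (Pf.C 30 647) (Pf.B 7 1 (Pf.C 30 135) (Pf.C 0 0xa10381))) Pf.nil)))
 Pq.nil))))) (Pq.cons (Pq.L [] 4106 (Pf.C 6 514))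
 (Pq.cons (Pq.L [] 256 (Pf.C 5 513))
 Pq.nil))))) (Pq.cons (Pq.L [] 2054 (Pf.C 6 386))
 (Pq.cons (Pq.L [] 128 (Pf.C 5 385))
 Pq.nil))))) (Pq.cons (Pq.D 3 (Pq.cons (Pq.L [] 128 (Pf.C 30 131))
 (Pq.cons (Pq.L [] 2054 (Pf.C 6 259))
 (Pq.cons (Pq.D 4 (Pq.cons (Pq.L [] 256 (Pf.C 30 132))
 (Pq.cons (Pq.L [] 4106 (Pf.C 6 260))
 (Pq.cons (Pq.D 5 (Pq.cons (Pq.L [] 8768 (Pf.C 64 16645))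
 (Pq.cons (Pq.L [] 8210 (Pf.C 6 261))
 (Pq.cons (Pq.L [] 0x4301a (Pf.C 11 82434))
 (Pq.cons (Pq.D 6 (Pq.cons (Pq.L [] 0x100631 (Pf.C 9 0x218005))
 (Pq.cons (Pq.L [] 16418 (Pf.C 6 262))
 (Pq.cons (Pq.L [] 0x136ef7 (Pf.C 1 0x1810418280))
 (Pq.cons (Pq.L [] 0x106032 (Pf.C 13 0x418280))
 Pq.nil))))) Pq.nil))))) (Pq.cons (Pq.L [] 256 (Pf.C 5 513))
 Pq.nil))))) (Pq.cons (Pq.L [] 128 (Pf.C 5 385))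
 Pq.nil))))) (Pq.cons (Pq.L [] 64 (Pf.C 5 257))
 Pq.nil))))) Pq.nil))))) Pq.nil))))) Pq.nil))
theorem e3_o28 : AllRef e3_T e3_G50 (applyObl d_T 2 [32,68,70,72] [0,0,0,0] [(32,0x1400000000000000000),(70,0x100000000),(72,0x100000000)]) :=
  chkPq_sound e3_o28c _ (by decide +kernel)
noncomputable def e3_o29c : Pq := (Pq.cons (Pq.D 0 (Pq.cons (Pq.D 1 (Pq.cons (Pq.L [] 1 (Pf.C 3 128))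
 (Pq.cons (Pq.D 2 (Pq.cons (Pq.L [] 2 (Pf.C 3 256))
 (Pq.cons (Pq.L [] 4 (Pf.C 4 257))
 (Pq.cons (Pq.L [] 4 (Pf.W 78 0 [] [1,2] (Pf.cons (Pf.B 3 2 (Pf.C 30 259) (Pf.B 3 1 (Pf.C 24 131) (Pf.C 64 32899))) Pf.nil)))
 Pq.nil)))) (Pq.cons (Pq.D 2 (Pq.cons (Pq.L [] 2 (Pf.C 3 256))
 (Pq.cons (Pq.L [] 4 (Pf.W 78 0 [] [1,2] (Pf.cons (Pf.B 3 2 (Pf.C 24 259) (Pf.B 3 1 (Pf.C 30 131) (Pf.C 64 16643))) Pf.nil)))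
 (Pq.cons (Pq.L [] 4 (Pf.C 5 257))
 Pq.nil)))) Pq.nil)))) (Pq.cons (Pq.D 1 (Pq.cons (Pq.D 2 (Pq.cons (Pq.L [] 4 (Pf.C 3 257))
 (Pq.cons (Pq.L [] 2 (Pf.C 4 256))
 (Pq.cons (Pq.L [] 2 (Pf.W 78 0 [] [0,2] (Pf.cons (Pf.B 3 2 (Pf.C 30 259) (Pf.B 3 0 (Pf.C 24 3) (Pf.C 64 32771))) Pf.nil)))
 Pq.nil)))) (Pq.cons (Pq.L [] 1 (Pf.C 4 128))
 (Pq.cons (Pq.L [] 1 (Pf.W 78 0 [] [0,1] (Pf.cons (Pf.B 3 1 (Pf.C 30 131) (Pf.B 3 0 (Pf.C 24 3) (Pf.C 64 16387))) Pf.nil)))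
 Pq.nil)))) (Pq.cons (Pq.D 1 (Pq.cons (Pq.D 2 (Pq.cons (Pq.L [] 4 (Pf.C 3 257))
 (Pq.cons (Pq.L [] 2 (Pf.W 78 0 [] [0,2] (Pf.cons (Pf.B 3 2 (Pf.C 24 259) (Pf.B 3 0 (Pf.C 30 3) (Pf.C 64 259))) Pf.nil)))
 (Pq.cons (Pq.L [] 2 (Pf.C 5 256))
 Pq.nil)))) (Pq.cons (Pq.L [] 1 (Pf.W 78 0 [] [0,1] (Pf.cons (Pf.B 3 1 (Pf.C 24 131) (Pf.B 3 0 (Pf.C 30 3) (Pf.C 64 131))) Pf.nil)))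
 (Pq.cons (Pq.L [] 1 (Pf.C 5 128))
 Pq.nil)))) Pq.nil)))) (Pq.cons (Pq.L [] 0x136ef7 (Pf.C 1 0x1810418280))
 Pq.nil))
theorem e3_o29 : AllRef e3_T e3_G50 (applyObl d_T 2 [69,71,73] [0,0,0] []) :=
  chkPq_sound e3_o29c _ (by decide +kernel)
noncomputable def e3_o30c : Pq := (Pq.cons (Pq.L [] 0 (Pf.W 76 0 [] [0] (Pf.cons (Pf.C 45 1) Pf.nil)))
 (Pq.cons (Pq.L [] 0 (Pf.W 76 0 [] [0] (Pf.cons (Pf.C 46 1) Pf.nil)))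
 (Pq.cons (Pq.L [] 0 (Pf.W 76 0 [] [0] (Pf.cons (Pf.C 47 1) Pf.nil)))
 Pq.nil)))
theorem e3_o30 : AllRef e3_T e3_G19 (List.map pat1 [33,34,35]) :=
  chkPq_sound e3_o30c _ (by decide +kernel)
noncomputable def e3_o31c : Pq := (Pq.cons (Pq.L [] 1 (Pf.W 76 0 [] [0,1] (Pf.cons (Pf.B 2 1 (Pf.B 2 0 (Pf.W 29 2 [] [0,1] (Pf.cons (Pf.B 3 1 (Pf.C 30 385) (Pf.B 3 0 (Pf.C 30 384) (Pf.C 9 0x20c002))) Pf.nil)) (Pf.C 2 2)) (Pf.C 2 130)) Pf.nil)))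
 (Pq.cons (Pq.L [] 1 (Pf.C 2 128))
 Pq.nil))
theorem e3_o31 : AllRef e3_T e3_G51 (hitObl [32] e3_h75) :=
  chkPq_sound e3_o31c _ (by decide +kernel)
noncomputable def e3_o32c : Pq := (Pq.cons (Pq.L [] 0 (Pf.C 125 0))
 Pq.nil)
theorem e3_o32 : AllRef e3_T e3_G52 (List.map pat1 [74]) :=
  chkPq_sound e3_o32c _ (by decide +kernel)
noncomputable def e3_o33c : Pq := (Pq.cons (Pq.L [] 1 (Pf.C 127 128))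
 (Pq.cons (Pq.L [] 2 (Pf.C 24 2))
 (Pq.cons (Pq.L [] 1 (Pf.C 129 128))
 (Pq.cons (Pq.L [] 1 (Pf.C 3 128))
 (Pq.cons (Pq.L [] 1 (Pf.C 131 128))
 (Pq.cons (Pq.L [] 2 (Pf.B 2 1 (Pf.W 126 2 [] [0] (Pf.cons (Pf.B 3 0 (Pf.C 61 259) (Pf.C 129 384)) Pf.nil)) (Pf.C 3 130)))
 (Pq.cons (Pq.L [] 3 (Pf.B 2 1 (Pf.W 130 1 [] [0,2] (Pf.cons (Pf.B 3 0 (Pf.B 3 2 (Pf.W 130 2 [] [0,1,3] (Pf.cons (Pf.B 4 3 (Pf.B 4 0 (Pf.B 4 1 (Pf.C 16 0x30200104) (Pf.W 126 4 [] [1,2] (Pf.cons (Pf.B 5 2 (Pf.C 24 261) (Pf.B 5 1 (Pf.C 24 133) (Pf.C 0 0x410281))) Pf.nil))) (Pf.C 3 4)) (Pf.C 3 388)) Pf.nil)) (Pf.W 126 3 [] [1,2] (Pf.cons (Pf.B 4 2 (Pf.C 24 260) (Pf.B 4 1 (Pf.C 24 132) (Pf.C 0 0x40c201))) Pf.nil))) (Pf.C 3 3)) Pf.nil))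 (Pf.C 4 130)))
 (Pq.cons (Pq.L [] 1 (Pf.C 4 128))
 (Pq.cons (Pq.L [] 3 (Pf.B 2 1 (Pf.W 130 1 [] [0,2] (Pf.cons (Pf.B 3 2 (Pf.B 3 0 (Pf.C 6 259) (Pf.W 126 3 [] [0,1] (Pf.cons (Pf.B 4 1 (Pf.C 24 132) (Pf.B 4 0 (Pf.C 0 49284) (Pf.C 129 512))) Pf.nil))) (Pf.W 126 3 [] [1,2] (Pf.cons (Pf.B 4 2 (Pf.C 24 260) (Pf.B 4 1 (Pf.C 24 132) (Pf.C 0 0x40c201))) Pf.nil))) Pf.nil)) (Pf.C 4 130)))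
 (Pq.cons (Pq.L [] 3 (Pf.B 2 1 (Pf.W 130 1 [] [0,2] (Pf.cons (Pf.B 3 0 (Pf.B 3 2 (Pf.W 130 2 [] [0,1,3] (Pf.cons (Pf.B 4 3 (Pf.B 4 0 (Pf.B 4 1 (Pf.C 16 0x30200104) (Pf.W 126 4 [] [1,2] (Pf.cons (Pf.B 5 2 (Pf.C 24 261) (Pf.B 5 1 (Pf.C 24 133) (Pf.C 0 0x410281))) Pf.nil))) (Pf.C 3 4)) (Pf.C 3 388)) Pf.nil)) (Pf.W 126 3 [] [1,2] (Pf.cons (Pf.B 4 2 (Pf.C 24 260) (Pf.B 4 1 (Pf.C 24 132) (Pf.C 0 0x40c201))) Pf.nil))) (Pf.C 3 3)) Pf.nil)) (Pf.C 4 130)))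
 (Pq.cons (Pq.L [] 1 (Pf.C 4 128))
 (Pq.cons (Pq.L [] 3 (Pf.B 2 1 (Pf.W 130 1 [] [0,2] (Pf.cons (Pf.B 3 2 (Pf.B 3 0 (Pf.C 6 259) (Pf.W 126 3 [] [0,1] (Pf.cons (Pf.B 4 1 (Pf.C 24 132) (Pf.B 4 0 (Pf.C 0 49284) (Pf.C 129 512))) Pf.nil))) (Pf.W 126 3 [] [1,2] (Pf.cons (Pf.B 4 2 (Pf.C 24 260) (Pf.B 4 1 (Pf.C 24 132) (Pf.C 0 0x40c201))) Pf.nil))) Pf.nil)) (Pf.C 4 130)))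
 (Pq.cons (Pq.L [] 3 (Pf.B 2 1 (Pf.W 133 1 [] [0,2] (Pf.cons (Pf.B 3 2 (Pf.B 3 0 (Pf.C 6 49408) (Pf.W 128 3 [] [0,1] (Pf.cons (Pf.B 4 1 (Pf.C 24 132) (Pf.B 4 0 (Pf.C 0 49284) (Pf.C 127 512))) Pf.nil))) (Pf.W 128 3 [] [1,2] (Pf.cons (Pf.B 4 2 (Pf.C 24 260) (Pf.B 4 1 (Pf.C 24 132) (Pf.C 0 0x40c201))) Pf.nil))) Pf.nil)) (Pf.C 4 130)))
 (Pq.cons (Pq.L [] 1 (Pf.C 4 128))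
 (Pq.cons (Pq.L [] 3 (Pf.B 2 1 (Pf.W 133 1 [] [0,2] (Pf.cons (Pf.B 3 0 (Pf.B 3 2 (Pf.W 133 2 [] [0,1,3] (Pf.cons (Pf.B 4 3 (Pf.B 4 0 (Pf.B 4 1 (Pf.C 18 0x30200104) (Pf.W 128 4 [] [1,2] (Pf.cons (Pf.B 5 2 (Pf.C 24 261) (Pf.B 5 1 (Pf.C 24 133) (Pf.C 0 0x410281))) Pf.nil))) (Pf.C 5 4)) (Pf.C 5 388)) Pf.nil)) (Pf.W 128 3 [] [1,2] (Pf.cons (Pf.B 4 2 (Pf.C 24 260) (Pf.B 4 1 (Pf.C 24 132) (Pf.C 0 0x40c201))) Pf.nil))) (Pf.C 5 3)) Pf.nil)) (Pf.C 4 130)))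
 (Pq.cons (Pq.L [] 2 (Pf.B 2 1 (Pf.W 128 2 [] [0] (Pf.cons (Pf.B 3 0 (Pf.C 62 32771) (Pf.C 127 384)) Pf.nil)) (Pf.C 5 130)))
 (Pq.cons (Pq.L [] 1 (Pf.C 134 128))
 (Pq.cons (Pq.L [] 1 (Pf.C 5 128))
 Pq.nil))))))))))))))))))
theorem e3_o33 : AllRef e3_T e3_G58 (splitObl [31,75,81,82,83,77] [76,84,78]) :=
  chkPq_sound e3_o33c _ (by decide +kernel)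
noncomputable def e3_o34c : Pq := (Pq.cons (Pq.L [] 23 (Pf.B 8 5 (Pf.B 8 2 (Pf.B 7 3 (Pf.B 7 1 (Pf.B 7 0 (Pf.B 6 3 (Pf.B 6 1 (Pf.B 6 0 (Pf.B 5 2 (Pf.B 4 1 (Pf.B 4 0 (Pf.B 3 1 (Pf.B 3 0 (Pf.B 8 3 (Pf.B 8 1 (Pf.B 8 0 (Pf.B 5 1 (Pf.B 5 0 (Pf.B 3 2 (Pf.C 16 0x10400283) (Pf.W 126 3 [] [2,5] (Pf.cons (Pf.B 9 5 (Pf.C 24 649) (Pf.B 9 2 (Pf.C 24 265) (Pf.C 0 0xa0c482))) Pf.nil))) (Pf.W 126 0 [] [2,5] (Pf.cons (Pf.B 9 5 (Pf.C 24 649) (Pf.B 9 2 (Pf.C 24 265) (Pf.C 0 0xa00482))) Pf.nil))) (Pf.W 126 1 [] [2,5] (Pf.cons (Pf.B 9 5 (Pf.C 24 649) (Pf.B 9 2 (Pf.C 24 265) (Pf.C 0 0xa04482))) Pf.nil))) (Pf.B 5 0 (Pf.W 126 0 [] [2,8] (Pf.cons (Pf.B 9 8 (Pf.C 24 1033) (Pf.B 9 2 (Pf.C 24 265) (Pf.C 0 0x1000482)))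 Pf.nil)) (Pf.W 126 0 [] [5,8] (Pf.cons (Pf.B 9 8 (Pf.C 24 1033) (Pf.B 9 5 (Pf.C 24 649) (Pf.C 0 0x1000485))) Pf.nil)))) (Pf.B 5 1 (Pf.W 126 1 [] [2,8] (Pf.cons (Pf.B 9 8 (Pf.C 24 1033) (Pf.B 9 2 (Pf.C 24 265) (Pf.C 0 0x1004482))) Pf.nil)) (Pf.W 126 1 [] [5,8] (Pf.cons (Pf.B 9 8 (Pf.C 24 1033) (Pf.B 9 5 (Pf.C 24 649) (Pf.C 0 0x1004485))) Pf.nil)))) (Pf.W 126 3 [] [5,8] (Pf.cons (Pf.B 9 8 (Pf.C 24 1033) (Pf.B 9 5 (Pf.C 24 649) (Pf.C 0 0x100c485))) Pf.nil))) (Pf.C 3 3)) (Pf.C 3 131)) (Pf.C 3 4)) (Pf.C 3 132)) (Pf.C 4 261)) (Pf.C 3 6)) (Pf.C 3 134)) (Pf.C 3 390)) (Pf.C 3 7)) (Pf.C 3 135)) (Pf.C 3 391)) (Pf.C 4 264)) (Pf.C 4 648)))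
 (Pq.cons (Pq.L [] 23 (Pf.B 8 5 (Pf.B 8 2 (Pf.B 7 3 (Pf.B 7 1 (Pf.B 7 0 (Pf.B 6 3 (Pf.B 6 1 (Pf.B 6 0 (Pf.B 5 2 (Pf.B 4 1 (Pf.B 4 0 (Pf.B 3 1 (Pf.B 3 0 (Pf.B 8 3 (Pf.B 8 1 (Pf.B 8 0 (Pf.B 5 1 (Pf.B 5 0 (Pf.B 3 2 (Pf.C 16 0x10400283) (Pf.W 126 3 [] [2,5] (Pf.cons (Pf.B 9 5 (Pf.C 24 649) (Pf.B 9 2 (Pf.C 24 265) (Pf.C 0 0xa0c482))) Pf.nil))) (Pf.W 126 0 [] [2,5] (Pf.cons (Pf.B 9 5 (Pf.C 24 649) (Pf.B 9 2 (Pf.C 24 265) (Pf.C 0 0xa00482))) Pf.nil))) (Pf.W 126 1 [] [2,5] (Pf.cons (Pf.B 9 5 (Pf.C 24 649) (Pf.B 9 2 (Pf.C 24 265) (Pf.C 0 0xa04482))) Pf.nil))) (Pf.B 5 0 (Pf.W 126 0 [] [2,8] (Pf.cons (Pf.B 9 8 (Pf.C 24 1033) (Pf.B 9 2 (Pf.C 24 265) (Pf.C 0 0x1000482))) Pf.nil)) (Pf.W 126 0 [] [5,8]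 (Pf.cons (Pf.B 9 8 (Pf.C 24 1033) (Pf.B 9 5 (Pf.C 24 649) (Pf.C 0 0x1000485))) Pf.nil)))) (Pf.B 5 1 (Pf.W 126 1 [] [2,8] (Pf.cons (Pf.B 9 8 (Pf.C 24 1033) (Pf.B 9 2 (Pf.C 24 265) (Pf.C 0 0x1004482))) Pf.nil)) (Pf.W 126 1 [] [5,8] (Pf.cons (Pf.B 9 8 (Pf.C 24 1033) (Pf.B 9 5 (Pf.C 24 649) (Pf.C 0 0x1004485))) Pf.nil)))) (Pf.W 126 3 [] [5,8] (Pf.cons (Pf.B 9 8 (Pf.C 24 1033) (Pf.B 9 5 (Pf.C 24 649) (Pf.C 0 0x100c485))) Pf.nil))) (Pf.C 3 3)) (Pf.C 3 131)) (Pf.C 3 4)) (Pf.C 3 132)) (Pf.C 4 261)) (Pf.C 3 6)) (Pf.C 3 134)) (Pf.C 3 390)) (Pf.C 3 7)) (Pf.C 3 135)) (Pf.C 3 391)) (Pf.C 4 264)) (Pf.C 4 648)))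
 (Pq.cons (Pq.L [] 482 (Pf.B 8 5 (Pf.B 8 2 (Pf.B 7 4 (Pf.B 7 0 (Pf.B 6 4 (Pf.B 6 0 (Pf.B 5 2 (Pf.B 4 0 (Pf.B 3 0 (Pf.B 8 4 (Pf.B 8 0 (Pf.W 126 0 [] [4,5,8] (Pf.cons (Pf.B 9 8 (Pf.C 61 0x20009) (Pf.B 9 5 (Pf.B 9 4 (Pf.C 62 0x20209) (Pf.C 61 82441)) (Pf.C 63 0x20289))) Pf.nil)) (Pf.B 7 2 (Pf.W 126 0 [] [2,7,8] (Pf.cons (Pf.B 9 2 (Pf.C 61 32777) (Pf.B 9 8 (Pf.B 9 7 (Pf.C 62 33673) (Pf.C 61 0x20389)) (Pf.C 63 33801))) Pf.nil)) (Pf.B 6 2 (Pf.W 126 0 [] [2,6,8] (Pf.cons (Pf.B 9 2 (Pf.C 61 32777) (Pf.B 9 8 (Pf.B 9 6 (Pf.C 62 33545) (Pf.C 61 0x20309)) (Pf.C 63 33801))) Pf.nil)) (Pf.C 17 0x70418400)))) (Pf.B 8 0 (Pf.B 6 5 (Pf.W 126 0 [] [5,6,8] (Pf.cons (Pf.B 9 8 (Pf.C 61 0x20009) (Pf.B 9 6 (Pf.C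 62 0x20309) (Pf.B 9 5 (Pf.C 61 82697) (Pf.C 63 0x20289)))) Pf.nil)) (Pf.B 5 0 (Pf.W 126 0 [] [5,8] (Pf.cons (Pf.B 9 8 (Pf.C 61 0x20009) (Pf.B 9 5 (Pf.C 61 81929) (Pf.C 63 0x20289))) Pf.nil)) (Pf.C 17 0x60a00404))) (Pf.B 7 5 (Pf.B 7 2 (Pf.W 126 0 [] [2,7,8] (Pf.cons (Pf.B 9 2 (Pf.C 61 32777) (Pf.B 9 8 (Pf.B 9 7 (Pf.C 62 33673) (Pf.C 61 0x20389)) (Pf.C 63 33801))) Pf.nil)) (Pf.B 5 0 (Pf.W 126 0 [] [5,7,8] (Pf.cons (Pf.B 9 5 (Pf.C 61 81929) (Pf.B 9 8 (Pf.B 9 7 (Pf.C 62 82825) (Pf.C 61 0x20389)) (Pf.C 63 82953))) Pf.nil)) (Pf.C 17 0x80014382))) (Pf.B 6 5 (Pf.B 5 0 (Pf.C 17 0x41000385) (Pf.B 6 2 (Pf.W 126 0 [] [2,6,8] (Pf.cons (Pf.B 9 2 (Pf.C 61 32777) (Pf.B 9 8 (Pf.B 9 6 (Pf.C 62 33545) (Pf.C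 61 0x20309)) (Pf.C 63 33801))) Pf.nil)) (Pf.C 17 0x80014106))) (Pf.C 17 0x70a18404))))) (Pf.C 3 3)) (Pf.C 3 4)) (Pf.C 5 261)) (Pf.C 3 6)) (Pf.C 3 518)) (Pf.C 3 7)) (Pf.C 3 519)) (Pf.C 5 264)) (Pf.C 5 648)))
 (Pq.cons (Pq.L [] 0x44407 (Pf.B 8 0 (Pf.B 5 0 (Pf.W 126 0 [] [1,2] (Pf.cons (Pf.B 9 2 (Pf.C 24 265) (Pf.B 9 1 (Pf.C 24 137) (Pf.C 0 0x400481))) Pf.nil)) (Pf.W 126 0 [] [2,5] (Pf.cons (Pf.B 9 5 (Pf.C 24 649) (Pf.B 9 2 (Pf.C 24 265) (Pf.C 0 0xa00482))) Pf.nil))) (Pf.B 5 0 (Pf.W 126 0 [] [2,8] (Pf.cons (Pf.B 9 8 (Pf.C 24 1033) (Pf.B 9 2 (Pf.C 24 265) (Pf.C 0 0x1000482))) Pf.nil)) (Pf.W 126 0 [] [5,8] (Pf.cons (Pf.B 9 8 (Pf.C 24 1033) (Pf.B 9 5 (Pf.C 24 649) (Pf.C 0 0x1000485))) Pf.nil)))))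
 (Pq.cons (Pq.L [] 0x82300 (Pf.B 7 5 (Pf.B 8 0 (Pf.B 5 0 (Pf.W 126 0 [] [4,7] (Pf.cons (Pf.B 9 7 (Pf.C 24 905) (Pf.B 9 4 (Pf.C 24 521) (Pf.C 0 0xe00484))) Pf.nil)) (Pf.W 126 0 [] [5,7] (Pf.cons (Pf.B 9 7 (Pf.C 24 905) (Pf.B 9 5 (Pf.C 24 649) (Pf.C 0 0xe00485))) Pf.nil))) (Pf.W 126 0 [] [7,8] (Pf.cons (Pf.B 9 8 (Pf.C 24 1033) (Pf.B 9 7 (Pf.C 24 905) (Pf.C 0 0x1000487))) Pf.nil))) (Pf.C 4 647)))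
 (Pq.cons (Pq.L [] 64 (Pf.C 4 642))
 (Pq.cons (Pq.L [] 64 (Pf.C 4 513))
 (Pq.cons (Pq.L [] 64 (Pf.C 3 384))
 (Pq.cons (Pq.L [] 59 (Pf.B 5 2 (Pf.B 4 1 (Pf.B 3 0 (Pf.B 5 0 (Pf.B 4 0 (Pf.C 6 82432) (Pf.W 126 0 [] [3,4,5] (Pf.cons (Pf.B 6 5 (Pf.C 61 81926) (Pf.B 6 4 (Pf.C 24 518) (Pf.B 6 3 (Pf.C 62 82310) (Pf.C 0 66307)))) Pf.nil))) (Pf.B 4 2 (Pf.B 4 0 (Pf.C 6 33280) (Pf.W 126 0 [] [1,4] (Pf.cons (Pf.B 6 4 (Pf.C 24 518) (Pf.B 6 1 (Pf.C 24 134) (Pf.C 0 0x800301))) Pf.nil))) (Pf.B 4 0 (Pf.B 3 2 (Pf.W 126 0 [] [2,3,5] (Pf.cons (Pf.B 6 2 (Pf.C 61 32774) (Pf.B 6 5 (Pf.B 6 3 (Pf.C 62 33158) (Pf.C 61 82310)) (Pf.C 63 33414))) Pf.nil)) (Pf.W 126 0 [] [2,3,4,5] (Pf.cons (Pf.B 6 4 (Pf.C 24 518) (Pf.B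 6 2 (Pf.C 61 32774) (Pf.B 6 5 (Pf.B 6 3 (Pf.C 0 0x610106) (Pf.C 61 82310)) (Pf.C 63 33414)))) Pf.nil))) (Pf.B 3 2 (Pf.W 126 0 [] [2,3,4,5] (Pf.cons (Pf.B 6 4 (Pf.C 24 518) (Pf.B 6 5 (Pf.B 6 3 (Pf.B 6 2 (Pf.C 61 32774) (Pf.C 62 33158)) (Pf.C 61 82310)) (Pf.C 0 0x800305))) Pf.nil)) (Pf.W 126 0 [] [2,3,4,5] (Pf.cons (Pf.B 6 4 (Pf.C 24 518) (Pf.B 6 5 (Pf.B 6 3 (Pf.B 6 2 (Pf.C 61 32774) (Pf.C 0 0x610106)) (Pf.C 61 82310)) (Pf.C 0 0x800305))) Pf.nil)))))) (Pf.C 3 3)) (Pf.C 4 132)) (Pf.C 5 261)))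
 (Pq.cons (Pq.L [] 38 (Pf.B 5 2 (Pf.B 4 1 (Pf.B 3 0 (Pf.B 5 0 (Pf.B 4 0 (Pf.W 126 0 [] [2,5] (Pf.cons (Pf.B 6 5 (Pf.C 61 81926) (Pf.B 6 2 (Pf.C 61 32774) (Pf.C 63 82182))) Pf.nil)) (Pf.W 126 0 [] [4,5] (Pf.cons (Pf.B 6 5 (Pf.C 61 81926) (Pf.B 6 4 (Pf.C 24 518) (Pf.C 0 0xa10300))) Pf.nil))) (Pf.B 4 2 (Pf.B 4 0 (Pf.C 6 33280) (Pf.W 126 0 [] [2,4,5] (Pf.cons (Pf.B 6 4 (Pf.C 24 518) (Pf.B 6 5 (Pf.C 0 0xa10006) (Pf.B 6 2 (Pf.C 61 32774) (Pf.C 63 82182)))) Pf.nil))) (Pf.B 4 0 (Pf.W 126 0 [] [1,2,4] (Pf.cons (Pf.B 6 4 (Pf.C 24 518) (Pf.B 6 2 (Pf.C 61 32774) (Pf.B 6 1 (Pf.C 24 134) (Pf.C 0 0x808301)))) Pf.nil)) (Pf.W 126 0 [] [2,4,5] (Pf.cons (Pf.B 6 4 (Pf.C 24 518) (Pf.B 6 5 (Pf.C 0 0xa10006)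 (Pf.B 6 2 (Pf.C 61 32774) (Pf.C 63 82182)))) Pf.nil))))) (Pf.C 3 3)) (Pf.C 4 132)) (Pf.C 5 261)))
 (Pq.cons (Pq.L [] 0x44407 (Pf.B 8 0 (Pf.B 5 0 (Pf.W 126 0 [] [1,2] (Pf.cons (Pf.B 9 2 (Pf.C 24 265) (Pf.B 9 1 (Pf.C 24 137) (Pf.C 0 0x400481))) Pf.nil)) (Pf.W 126 0 [] [2,5] (Pf.cons (Pf.B 9 5 (Pf.C 24 649) (Pf.B 9 2 (Pf.C 24 265) (Pf.C 0 0xa00482))) Pf.nil))) (Pf.B 5 0 (Pf.W 126 0 [] [2,8] (Pf.cons (Pf.B 9 8 (Pf.C 24 1033) (Pf.B 9 2 (Pf.C 24 265) (Pf.C 0 0x1000482))) Pf.nil)) (Pf.W 126 0 [] [5,8] (Pf.cons (Pf.B 9 8 (Pf.C 24 1033) (Pf.B 9 5 (Pf.C 24 649) (Pf.C 0 0x1000485))) Pf.nil)))))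
 (Pq.cons (Pq.L [] 0x82300 (Pf.B 7 5 (Pf.B 8 0 (Pf.B 5 0 (Pf.W 126 0 [] [4,7] (Pf.cons (Pf.B 9 7 (Pf.C 24 905) (Pf.B 9 4 (Pf.C 24 521) (Pf.C 0 0xe00484))) Pf.nil)) (Pf.W 126 0 [] [5,7] (Pf.cons (Pf.B 9 7 (Pf.C 24 905) (Pf.B 9 5 (Pf.C 24 649) (Pf.C 0 0xe00485))) Pf.nil))) (Pf.W 126 0 [] [7,8] (Pf.cons (Pf.B 9 8 (Pf.C 24 1033) (Pf.B 9 7 (Pf.C 24 905) (Pf.C 0 0x1000487))) Pf.nil))) (Pf.C 4 647)))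
 (Pq.cons (Pq.L [] 64 (Pf.C 4 642))
 (Pq.cons (Pq.L [] 64 (Pf.C 4 513))
 (Pq.cons (Pq.L [] 64 (Pf.C 3 384))
 (Pq.cons (Pq.L [] 3 (Pf.B 4 2 (Pf.B 4 1 (Pf.B 4 0 (Pf.C 6 33280) (Pf.B 3 0 (Pf.W 126 0 [] [1,4] (Pf.cons (Pf.B 6 4 (Pf.C 24 518) (Pf.B 6 1 (Pf.C 24 134) (Pf.C 0 0x800301))) Pf.nil)) (Pf.C 3 3))) (Pf.C 4 132)) (Pf.C 132 260)))
 (Pq.cons (Pq.L [] 6 (Pf.B 4 1 (Pf.B 4 0 (Pf.B 4 2 (Pf.C 6 33280) (Pf.B 3 0 (Pf.W 126 0 [] [1,2,4] (Pf.cons (Pf.B 6 4 (Pf.C 24 518) (Pf.B 6 2 (Pf.C 61 32774) (Pf.B 6 1 (Pf.C 24 134) (Pf.C 0 0x808301)))) Pf.nil)) (Pf.C 3 3))) (Pf.C 131 4)) (Pf.C 4 132)))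
 (Pq.cons (Pq.L [] 450 (Pf.B 8 2 (Pf.B 7 2 (Pf.B 6 0 (Pf.B 3 0 (Pf.B 8 0 (Pf.W 126 0 [] [6,7,8] (Pf.cons (Pf.B 9 8 (Pf.C 61 0x20009) (Pf.B 9 7 (Pf.B 9 6 (Pf.C 62 0x20309) (Pf.C 61 0x1c309)) (Pf.C 63 0x20389))) Pf.nil)) (Pf.B 7 0 (Pf.W 126 0 [] [6,7,8] (Pf.cons (Pf.B 9 7 (Pf.C 61 0x1c009) (Pf.B 9 8 (Pf.B 9 6 (Pf.C 62 0x1c309) (Pf.C 61 0x20309)) (Pf.C 63 0x1c409))) Pf.nil)) (Pf.B 6 2 (Pf.W 126 0 [] [2,6,7] (Pf.cons (Pf.B 9 2 (Pf.C 61 32777) (Pf.B 9 7 (Pf.B 9 6 (Pf.C 62 33545) (Pf.C 61 0x1c309)) (Pf.C 63 33673))) Pf.nil)) (Pf.C 17 0x8001c106)))) (Pf.C 3 3)) (Pf.C 3 6)) (Pf.C 5 263)) (Pf.C 5 264)))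
 (Pq.cons (Pq.L [] 0xfdeffa (Pf.B 6 4 (Pf.B 8 4 (Pf.B 7 5 (Pf.C 18 0x40a0c407) (Pf.B 7 2 (Pf.C 18 0x80e14002) (Pf.B 6 5 (Pf.C 18 0x40a0c406) (Pf.B 6 2 (Pf.C 18 0x80c14002) (Pf.W 128 2 [] [6,7] (Pf.cons (Pf.B 9 7 (Pf.C 24 905) (Pf.B 9 6 (Pf.C 24 777) (Pf.C 0 0xe08486))) Pf.nil)))))) (Pf.B 4 2 (Pf.C 18 0x80814002) (Pf.B 7 5 (Pf.B 6 5 (Pf.C 18 0x71018185) (Pf.B 6 2 (Pf.C 18 0x80c14002) (Pf.B 7 2 (Pf.B 3 2 (Pf.W 128 2 [] [4,6] (Pf.cons (Pf.B 9 6 (Pf.C 24 777) (Pf.B 9 4 (Pf.C 24 521) (Pf.C 0 0xc08484))) Pf.nil)) (Pf.C 18 0x40c407)) (Pf.W 128 2 [] [6,7] (Pf.cons (Pf.B 9 7 (Pf.C 24 905) (Pf.B 9 6 (Pf.C 24 777) (Pf.C 0 0xe08486))) Pf.nil))))) (Pf.B 7 2 (Pf.C 18 0x80e14002) (Pf.B 6 2 (Pf.B 3 2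 (Pf.W 128 2 [] [4,7] (Pf.cons (Pf.B 9 7 (Pf.C 24 905) (Pf.B 9 4 (Pf.C 24 521) (Pf.C 0 0xe08484))) Pf.nil)) (Pf.C 18 0x40c406)) (Pf.W 128 2 [] [6,7] (Pf.cons (Pf.B 9 7 (Pf.C 24 905) (Pf.B 9 6 (Pf.C 24 777) (Pf.C 0 0xe08486))) Pf.nil))))))) (Pf.C 4 518)))
 (Pq.cons (Pq.L [] 0xd2104f (Pf.B 6 4 (Pf.B 6 1 (Pf.B 3 1 (Pf.B 7 2 (Pf.B 6 2 (Pf.B 4 2 (Pf.B 3 2 (Pf.W 128 2 [] [0,1] (Pf.cons (Pf.B 9 1 (Pf.C 24 137) (Pf.B 9 0 (Pf.C 24 9) (Pf.C 0 0x208480))) Pf.nil)) (Pf.W 128 2 [] [1,3] (Pf.cons (Pf.B 9 3 (Pf.C 24 393) (Pf.B 9 1 (Pf.C 24 137) (Pf.C 0 0x608481))) Pf.nil))) (Pf.B 3 2 (Pf.W 128 2 [] [1,4] (Pf.cons (Pf.B 9 4 (Pf.C 24 521) (Pf.B 9 1 (Pf.C 24 137) (Pf.C 0 0x808481))) Pf.nil)) (Pf.W 128 2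 [] [3,4] (Pf.cons (Pf.B 9 4 (Pf.C 24 521) (Pf.B 9 3 (Pf.C 24 393) (Pf.C 0 0x808483))) Pf.nil)))) (Pf.B 4 2 (Pf.B 3 2 (Pf.W 128 2 [] [1,6] (Pf.cons (Pf.B 9 6 (Pf.C 24 777) (Pf.B 9 1 (Pf.C 24 137) (Pf.C 0 0xc08481))) Pf.nil)) (Pf.W 128 2 [] [3,6] (Pf.cons (Pf.B 9 6 (Pf.C 24 777) (Pf.B 9 3 (Pf.C 24 393) (Pf.C 0 0xc08483))) Pf.nil))) (Pf.W 128 2 [] [4,6] (Pf.cons (Pf.B 9 6 (Pf.C 24 777) (Pf.B 9 4 (Pf.C 24 521) (Pf.C 0 0xc08484))) Pf.nil)))) (Pf.B 6 2 (Pf.B 4 2 (Pf.B 3 2 (Pf.W 128 2 [] [1,7] (Pf.cons (Pf.B 9 7 (Pf.C 24 905) (Pf.B 9 1 (Pf.C 24 137) (Pf.C 0 0xe08481))) Pf.nil)) (Pf.W 128 2 [] [3,7] (Pf.cons (Pf.B 9 7 (Pf.C 24 905) (Pf.B 9 3 (Pf.C 24 393) (Pf.C 0 0xe08483))) Pf.nil))) (Pf.W 128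 2 [] [4,7] (Pf.cons (Pf.B 9 7 (Pf.C 24 905) (Pf.B 9 4 (Pf.C 24 521) (Pf.C 0 0xe08484))) Pf.nil))) (Pf.W 128 2 [] [6,7] (Pf.cons (Pf.B 9 7 (Pf.C 24 905) (Pf.B 9 6 (Pf.C 24 777) (Pf.C 0 0xe08486))) Pf.nil)))) (Pf.C 4 131)) (Pf.C 4 134)) (Pf.C 4 518)))
 (Pq.cons (Pq.L [] 64 (Pf.C 4 512))
 (Pq.cons (Pq.L [] 64 (Pf.C 5 642))
 (Pq.cons (Pq.L [] 64 (Pf.C 4 513))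
 (Pq.cons (Pq.L [] 64 (Pf.C 4 384))
 (Pq.cons (Pq.L [] 0x1bba4f (Pf.B 8 1 (Pf.B 7 2 (Pf.B 5 1 (Pf.B 4 2 (Pf.B 6 4 (Pf.B 6 2 (Pf.B 6 1 (Pf.C 18 0x20004386) (Pf.B 3 2 (Pf.B 3 1 (Pf.C 18 0x20004203) (Pf.W 128 1 [] [3,6] (Pf.cons (Pf.B 9 6 (Pf.C 24 777) (Pf.B 9 3 (Pf.C 24 393) (Pf.C 0 0xc04483))) Pf.nil))) (Pf.C 18 0x40c386))) (Pf.B 3 2 (Pf.C 18 0x70c08203) (Pf.W 128 2 [] [3,6] (Pf.cons (Pf.B 9 6 (Pf.C 24 777) (Pf.B 9 3 (Pf.C 24 393) (Pf.C 0 0xc08483))) Pf.nil)))) (Pf.B 6 1 (Pf.C 18 0x70c10001) (Pf.B 3 1 (Pf.W 128 1 [] [0,6] (Pf.cons (Pf.B 9 6 (Pf.C 24 777) (Pf.B 9 0 (Pf.C 24 9) (Pf.C 0 0xc04480))) Pf.nil)) (Pf.W 128 1 [] [3,6] (Pf.cons (Pf.B 9 6 (Pf.C 24 777) (Pf.B 9 3 (Pf.C 24 393) (Pf.C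 0 0xc04483))) Pf.nil))))) (Pf.C 5 260)) (Pf.C 5 133)) (Pf.C 5 263)) (Pf.C 5 136)))
 (Pq.cons (Pq.L [] 0x101208 (Pf.B 8 4 (Pf.B 4 2 (Pf.B 6 4 (Pf.W 128 4 [] [0,3] (Pf.cons (Pf.B 9 3 (Pf.C 24 393) (Pf.B 9 0 (Pf.C 24 9) (Pf.C 0 0x610480))) Pf.nil)) (Pf.W 128 4 [] [3,6] (Pf.cons (Pf.B 9 6 (Pf.C 24 777) (Pf.B 9 3 (Pf.C 24 393) (Pf.C 0 0xc10483))) Pf.nil))) (Pf.C 5 260)) (Pf.C 5 520)))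
 (Pq.cons (Pq.L [] 64 (Pf.C 5 642))
 (Pq.cons (Pq.L [] 64 (Pf.C 5 513))
 (Pq.cons (Pq.L [] 64 (Pf.C 4 384))
 (Pq.cons (Pq.L [] 0xfdeffa (Pf.B 6 4 (Pf.B 8 4 (Pf.B 7 5 (Pf.C 18 0x40a0c407) (Pf.B 7 2 (Pf.C 18 0x80e14002) (Pf.B 6 5 (Pf.C 18 0x40a0c406) (Pf.B 6 2 (Pf.C 18 0x80c14002) (Pf.W 128 2 [] [6,7] (Pf.cons (Pf.B 9 7 (Pf.C 24 905) (Pf.B 9 6 (Pf.C 24 777) (Pf.C 0 0xe08486))) Pf.nil)))))) (Pf.B 4 2 (Pf.C 18 0x80814002) (Pf.B 7 5 (Pf.B 6 5 (Pf.C 18 0x71018185) (Pf.B 6 2 (Pf.C 18 0x80c14002) (Pf.B 7 2 (Pf.B 3 2 (Pf.W 128 2 [] [4,6] (Pf.cons (Pf.B 9 6 (Pf.C 24 777) (Pf.B 9 4 (Pf.C 24 521) (Pf.C 0 0xc08484))) Pf.nil)) (Pf.C 18 0x40c407)) (Pf.W 128 2 [] [6,7] (Pf.cons (Pf.B 9 7 (Pf.C 24 905)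 (Pf.B 9 6 (Pf.C 24 777) (Pf.C 0 0xe08486))) Pf.nil))))) (Pf.B 7 2 (Pf.C 18 0x80e14002) (Pf.B 6 2 (Pf.B 3 2 (Pf.W 128 2 [] [4,7] (Pf.cons (Pf.B 9 7 (Pf.C 24 905) (Pf.B 9 4 (Pf.C 24 521) (Pf.C 0 0xe08484))) Pf.nil)) (Pf.C 18 0x40c406)) (Pf.W 128 2 [] [6,7] (Pf.cons (Pf.B 9 7 (Pf.C 24 905) (Pf.B 9 6 (Pf.C 24 777) (Pf.C 0 0xe08486))) Pf.nil))))))) (Pf.C 4 518)))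
 (Pq.cons (Pq.L [] 0xd2104f (Pf.B 6 4 (Pf.B 6 1 (Pf.B 3 1 (Pf.B 7 2 (Pf.B 6 2 (Pf.B 4 2 (Pf.B 3 2 (Pf.W 128 2 [] [0,1] (Pf.cons (Pf.B 9 1 (Pf.C 24 137) (Pf.B 9 0 (Pf.C 24 9) (Pf.C 0 0x208480))) Pf.nil)) (Pf.W 128 2 [] [1,3] (Pf.cons (Pf.B 9 3 (Pf.C 24 393) (Pf.B 9 1 (Pf.C 24 137) (Pf.C 0 0x608481))) Pf.nil))) (Pf.B 3 2 (Pf.W 128 2 [] [1,4] (Pf.cons (Pf.B 9 4 (Pf.C 24 521) (Pf.B 9 1 (Pf.C 24 137) (Pf.C 0 0x808481))) Pf.nil)) (Pf.W 128 2 [] [3,4] (Pf.cons (Pf.B 9 4 (Pf.C 24 521) (Pf.B 9 3 (Pf.C 24 393) (Pf.C 0 0x808483))) Pf.nil)))) (Pf.B 4 2 (Pf.B 3 2 (Pf.W 128 2 [] [1,6] (Pf.cons (Pf.B 9 6 (Pf.C 24 777) (Pf.B 9 1 (Pf.C 24 137) (Pf.C 0 0xc08481))) Pf.nil)) (Pf.W 128 2 [] [3,6] (Pf.cons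 (Pf.B 9 6 (Pf.C 24 777) (Pf.B 9 3 (Pf.C 24 393) (Pf.C 0 0xc08483))) Pf.nil))) (Pf.W 128 2 [] [4,6] (Pf.cons (Pf.B 9 6 (Pf.C 24 777) (Pf.B 9 4 (Pf.C 24 521) (Pf.C 0 0xc08484))) Pf.nil)))) (Pf.B 6 2 (Pf.B 4 2 (Pf.B 3 2 (Pf.W 128 2 [] [1,7] (Pf.cons (Pf.B 9 7 (Pf.C 24 905) (Pf.B 9 1 (Pf.C 24 137) (Pf.C 0 0xe08481))) Pf.nil)) (Pf.W 128 2 [] [3,7] (Pf.cons (Pf.B 9 7 (Pf.C 24 905) (Pf.B 9 3 (Pf.C 24 393) (Pf.C 0 0xe08483))) Pf.nil))) (Pf.W 128 2 [] [4,7] (Pf.cons (Pf.B 9 7 (Pf.C 24 905) (Pf.B 9 4 (Pf.C 24 521) (Pf.C 0 0xe08484))) Pf.nil))) (Pf.W 128 2 [] [6,7] (Pf.cons (Pf.B 9 7 (Pf.C 24 905) (Pf.B 9 6 (Pf.C 24 777) (Pf.C 0 0xe08486))) Pf.nil)))) (Pf.C 4 131)) (Pf.C 4 134)) (Pf.C 4 518)))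
 (Pq.cons (Pq.L [] 64 (Pf.C 4 512))
 (Pq.cons (Pq.L [] 64 (Pf.C 5 642))
 (Pq.cons (Pq.L [] 64 (Pf.C 4 513))
 (Pq.cons (Pq.L [] 64 (Pf.C 4 384))
 (Pq.cons (Pq.L [] 0x1bba4f (Pf.B 8 1 (Pf.B 7 2 (Pf.B 5 1 (Pf.B 4 2 (Pf.B 6 4 (Pf.B 6 2 (Pf.B 6 1 (Pf.C 18 0x20004386) (Pf.B 3 2 (Pf.B 3 1 (Pf.C 18 0x20004203) (Pf.W 128 1 [] [3,6] (Pf.cons (Pf.B 9 6 (Pf.C 24 777) (Pf.B 9 3 (Pf.C 24 393) (Pf.C 0 0xc04483))) Pf.nil))) (Pf.C 18 0x40c386))) (Pf.B 3 2 (Pf.C 18 0x70c08203) (Pf.W 128 2 [] [3,6] (Pf.cons (Pf.B 9 6 (Pf.C 24 777) (Pf.B 9 3 (Pf.C 24 393) (Pf.C 0 0xc08483))) Pf.nil)))) (Pf.B 6 1 (Pf.C 18 0x70c10001) (Pf.B 3 1 (Pf.W 128 1 [] [0,6] (Pf.cons (Pf.B 9 6 (Pf.C 24 777) (Pf.B 9 0 (Pf.C 24 9) (Pf.C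 0 0xc04480))) Pf.nil)) (Pf.W 128 1 [] [3,6] (Pf.cons (Pf.B 9 6 (Pf.C 24 777) (Pf.B 9 3 (Pf.C 24 393) (Pf.C 0 0xc04483))) Pf.nil))))) (Pf.C 5 260)) (Pf.C 5 133)) (Pf.C 5 263)) (Pf.C 5 136)))
 (Pq.cons (Pq.L [] 0x101208 (Pf.B 8 4 (Pf.B 4 2 (Pf.B 6 4 (Pf.W 128 4 [] [0,3] (Pf.cons (Pf.B 9 3 (Pf.C 24 393) (Pf.B 9 0 (Pf.C 24 9) (Pf.C 0 0x610480))) Pf.nil)) (Pf.W 128 4 [] [3,6] (Pf.cons (Pf.B 9 6 (Pf.C 24 777) (Pf.B 9 3 (Pf.C 24 393) (Pf.C 0 0xc10483))) Pf.nil))) (Pf.C 5 260)) (Pf.C 5 520)))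
 (Pq.cons (Pq.L [] 64 (Pf.C 5 642))
 (Pq.cons (Pq.L [] 64 (Pf.C 5 513))
 (Pq.cons (Pq.L [] 64 (Pf.C 4 384))
 Pq.nil))))))))))))))))))))))))))))))))))))))))
theorem e3_o34 : AllRef e3_T e3_G58 (hitObl [75,77,81,82,83] e3_h87) :=
  chkPq_sound e3_o34c _ (by decide +kernel)
noncomputable def e3_o35c : Pq := (Pq.cons (Pq.D 0 (Pq.cons (Pq.D 1 (Pq.cons (Pq.L [] 1 (Pf.C 2 128))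
 (Pq.cons (Pq.D 2 (Pq.cons (Pq.L [] 2 (Pf.C 2 256))
 (Pq.cons (Pq.L [] 3 (Pf.B 2 1 (Pf.B 3 2 (Pf.B 3 1 (Pf.B 3 0 (Pf.W 21 0 [] [1,2] (Pf.cons (Pf.B 4 2 (Pf.B 4 1 (Pf.C 7 0x400084) (Pf.C 3 132)) (Pf.C 3 260)) Pf.nil)) (Pf.W 21 0 [] [1,2] (Pf.cons (Pf.B 4 2 (Pf.B 4 1 (Pf.C 7 0x400084) (Pf.C 3 132)) (Pf.C 3 260)) Pf.nil))) (Pf.W 21 0 [] [1,2] (Pf.cons (Pf.B 4 2 (Pf.B 4 1 (Pf.C 7 0x400084) (Pf.C 3 132)) (Pf.C 3 260)) Pf.nil))) (Pf.W 21 0 [] [1,2] (Pf.cons (Pf.B 4 2 (Pf.B 4 1 (Pf.C 7 0x400084) (Pf.C 3 132)) (Pf.C 3 260)) Pf.nil))) (Pf.C 3 130)))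
 (Pq.cons (Pq.L [] 2 (Pf.C 24 256))
 (Pq.cons (Pq.L [] 2 (Pf.C 24 256))
 (Pq.cons (Pq.L [] 2 (Pf.C 24 256))
 (Pq.cons (Pq.D 3 (Pq.cons (Pq.L [] 4 (Pf.C 2 384))
 (Pq.cons (Pq.L [] 5 (Pf.B 3 1 (Pf.W 21 0 [] [1,3] (Pf.cons (Pf.B 4 3 (Pf.B 4 1 (Pf.C 7 0x600084) (Pf.C 3 132)) (Pf.C 3 388)) Pf.nil)) (Pf.C 3 131)))
 (Pq.cons (Pq.L [] 4 (Pf.C 24 384))
 (Pq.cons (Pq.L [] 4 (Pf.C 24 384))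
 (Pq.cons (Pq.L [] 4 (Pf.C 24 384))
 (Pq.cons (Pq.L [] 6 (Pf.B 3 2 (Pf.C 63 33152) (Pf.C 5 259)))
 Pq.nil))))))) Pq.nil))))))) (Pq.cons (Pq.L [] 1 (Pf.C 24 128))
 (Pq.cons (Pq.L [] 1 (Pf.C 24 128))
 (Pq.cons (Pq.L [] 1 (Pf.C 24 128))
 (Pq.cons (Pq.D 2 (Pq.cons (Pq.L [] 2 (Pf.C 2 256))
 (Pq.cons (Pq.D 3 (Pq.cons (Pq.L [] 4 (Pf.C 2 384))
 (Pq.cons (Pq.L [] 6 (Pf.B 3 2 (Pf.W 21 0 [] [2,3] (Pf.cons (Pf.B 4 3 (Pf.B 4 2 (Pf.C 7 0x600104) (Pf.C 3 260)) (Pf.C 3 388)) Pf.nil)) (Pf.C 3 259)))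
 (Pq.cons (Pq.L [] 4 (Pf.C 24 384))
 (Pq.cons (Pq.L [] 4 (Pf.C 24 384))
 (Pq.cons (Pq.L [] 4 (Pf.C 24 384))
 (Pq.cons (Pq.L [] 5 (Pf.B 3 1 (Pf.C 63 16768) (Pf.C 5 131)))
 Pq.nil))))))) (Pq.cons (Pq.L [] 2 (Pf.C 24 256))
 (Pq.cons (Pq.L [] 2 (Pf.C 24 256))
 (Pq.cons (Pq.L [] 2 (Pf.C 24 256))
 (Pq.cons (Pq.L [] 3 (Pf.B 2 1 (Pf.C 63 16640) (Pf.C 5 130)))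
 Pq.nil))))))) Pq.nil))))))) (Pq.cons (Pq.D 1 (Pq.cons (Pq.D 2 (Pq.cons (Pq.D 3 (Pq.cons (Pq.L [] 7 (Pf.B 3 2 (Pf.B 3 1 (Pf.B 2 1 (Pf.W 21 1 [] [0,2,3] (Pf.cons (Pf.B 4 0 (Pf.B 4 3 (Pf.C 7 0x200184) (Pf.B 4 2 (Pf.C 7 0x200104) (Pf.C 7 0x610101))) (Pf.C 3 4)) Pf.nil)) (Pf.C 2 130)) (Pf.C 2 131)) (Pf.C 2 259)))
 (Pq.cons (Pq.L [] 4 (Pf.C 3 384))
 (Pq.cons (Pq.L [] 7 (Pf.B 3 2 (Pf.C 24 386) (Pf.B 3 1 (Pf.C 24 385) (Pf.B 2 1 (Pf.C 0 0x20c002) (Pf.C 2 130)))))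
 (Pq.cons (Pq.L [] 7 (Pf.B 3 2 (Pf.C 24 386) (Pf.B 3 1 (Pf.C 24 385) (Pf.B 2 1 (Pf.C 0 0x20c002) (Pf.C 2 130)))))
 (Pq.cons (Pq.L [] 4 (Pf.C 131 3))
 (Pq.cons (Pq.L [] 7 (Pf.B 3 2 (Pf.C 61 49154) (Pf.B 3 1 (Pf.C 61 49153) (Pf.B 2 1 (Pf.W 21 1 [] [0,2] (Pf.cons (Pf.B 4 0 (Pf.B 4 2 (Pf.C 7 0x200104) (Pf.W 21 2 [] [0,4] (Pf.cons (Pf.B 5 4 (Pf.B 5 0 (Pf.C 7 0x808005) (Pf.C 3 5)) (Pf.C 3 517)) Pf.nil))) (Pf.C 3 4)) Pf.nil)) (Pf.C 2 130)))))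
 Pq.nil))))))) (Pq.cons (Pq.L [] 2 (Pf.C 3 256))
 (Pq.cons (Pq.D 3 (Pq.cons (Pq.L [] 7 (Pf.B 3 2 (Pf.C 24 259) (Pf.B 3 1 (Pf.B 2 1 (Pf.C 24 257) (Pf.C 0 0x600101)) (Pf.C 2 131))))
 (Pq.cons (Pq.L [] 4 (Pf.C 3 384))
 (Pq.cons (Pq.L [] 6 (Pf.B 3 2 (Pf.C 138 33152) (Pf.C 4 259)))
 (Pq.cons (Pq.L [] 7 (Pf.B 3 2 (Pf.B 3 1 (Pf.C 24 385) (Pf.B 2 1 (Pf.C 24 257) (Pf.C 0 0x600082))) (Pf.C 4 259)))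
 (Pq.cons (Pq.L [] 4 (Pf.C 131 3))
 (Pq.cons (Pq.L [] 7 (Pf.B 3 2 (Pf.C 139 49408) (Pf.B 3 1 (Pf.C 61 49153) (Pf.B 2 1 (Pf.C 24 257) (Pf.C 0 0x604100)))))
 Pq.nil))))))) (Pq.cons (Pq.D 3 (Pq.cons (Pq.L [] 7 (Pf.B 3 2 (Pf.C 24 259) (Pf.B 3 1 (Pf.B 2 1 (Pf.C 24 257) (Pf.C 0 0x600101)) (Pf.C 2 131))))
 (Pq.cons (Pq.L [] 4 (Pf.C 3 384))
 (Pq.cons (Pq.L [] 7 (Pf.B 3 2 (Pf.B 3 1 (Pf.C 24 385) (Pf.B 2 1 (Pf.C 24 257) (Pf.C 0 0x600082))) (Pf.C 4 259)))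
 (Pq.cons (Pq.L [] 6 (Pf.B 3 2 (Pf.C 141 33152) (Pf.C 4 259)))
 (Pq.cons (Pq.L [] 4 (Pf.C 131 3))
 (Pq.cons (Pq.L [] 6 (Pf.B 3 2 (Pf.C 142 49408) (Pf.C 132 386)))
 Pq.nil))))))) (Pq.cons (Pq.L [] 2 (Pf.C 131 2))
 (Pq.cons (Pq.D 3 (Pq.cons (Pq.L [] 7 (Pf.B 3 2 (Pf.C 61 32771) (Pf.B 3 1 (Pf.B 2 1 (Pf.C 61 32769) (Pf.W 21 1 [] [0,3] (Pf.cons (Pf.B 4 0 (Pf.B 4 3 (Pf.C 7 0x200184) (Pf.W 21 3 [] [0,4] (Pf.cons (Pf.B 5 4 (Pf.B 5 0 (Pf.C 7 0x80c005) (Pf.C 3 5)) (Pf.C 3 517)) Pf.nil))) (Pf.C 3 4)) Pf.nil))) (Pf.C 2 131))))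
 (Pq.cons (Pq.L [] 4 (Pf.C 3 384))
 (Pq.cons (Pq.L [] 7 (Pf.B 3 2 (Pf.C 139 33152) (Pf.B 3 1 (Pf.C 24 385) (Pf.B 2 1 (Pf.C 61 32769) (Pf.C 0 49282)))))
 (Pq.cons (Pq.L [] 6 (Pf.B 3 2 (Pf.C 142 33152) (Pf.C 132 259)))
 (Pq.cons (Pq.L [] 4 (Pf.C 131 3))
 (Pq.cons (Pq.L [] 6 (Pf.B 3 2 (Pf.C 144 33152) (Pf.C 5 259)))
 Pq.nil))))))) Pq.nil))))))) (Pq.cons (Pq.L [] 1 (Pf.C 3 128))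
 (Pq.cons (Pq.D 2 (Pq.cons (Pq.D 3 (Pq.cons (Pq.L [] 7 (Pf.B 3 2 (Pf.B 3 1 (Pf.C 24 131) (Pf.B 2 1 (Pf.C 24 130) (Pf.C 0 0x600082))) (Pf.C 2 259)))
 (Pq.cons (Pq.L [] 4 (Pf.C 3 384))
 (Pq.cons (Pq.L [] 5 (Pf.B 3 1 (Pf.C 138 16768) (Pf.C 4 131)))
 (Pq.cons (Pq.L [] 7 (Pf.B 3 2 (Pf.C 24 386) (Pf.B 3 1 (Pf.B 2 1 (Pf.C 24 130) (Pf.C 0 0x600101)) (Pf.C 4 131))))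
 (Pq.cons (Pq.L [] 4 (Pf.C 131 3))
 (Pq.cons (Pq.L [] 7 (Pf.B 3 2 (Pf.C 61 49154) (Pf.B 3 1 (Pf.C 139 49280) (Pf.B 2 1 (Pf.C 24 130) (Pf.C 0 0x604100)))))
 Pq.nil))))))) (Pq.cons (Pq.L [] 2 (Pf.C 3 256))
 (Pq.cons (Pq.L [] 3 (Pf.B 2 1 (Pf.C 138 16640) (Pf.C 4 130)))
 (Pq.cons (Pq.L [] 7 (Pf.B 2 1 (Pf.B 3 2 (Pf.B 3 1 (Pf.W 126 0 [] [1,2] (Pf.cons (Pf.B 4 2 (Pf.C 24 260) (Pf.B 4 1 (Pf.C 24 132) (Pf.C 0 0x400201))) Pf.nil)) (Pf.B 3 0 (Pf.W 126 0 [] [1,2] (Pf.cons (Pf.B 4 2 (Pf.C 24 260) (Pf.B 4 1 (Pf.C 24 132) (Pf.C 0 0x400201))) Pf.nil)) (Pf.W 126 0 [] [1,2,3] (Pf.cons (Pf.C 24 259) (Pf.cons (Pf.B 4 2 (Pf.C 24 260) (Pf.B 4 3 (Pf.B 4 1 (Pf.C 24 132) (Pf.C 0 0x600084)) (Pf.C 0 0x400203)))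 Pf.nil))))) (Pf.B 3 1 (Pf.W 126 0 [] [1,2] (Pf.cons (Pf.B 4 2 (Pf.C 24 260) (Pf.B 4 1 (Pf.C 24 132) (Pf.C 0 0x400201))) Pf.nil)) (Pf.B 3 0 (Pf.W 126 0 [] [1,2] (Pf.cons (Pf.B 4 2 (Pf.C 24 260) (Pf.B 4 1 (Pf.C 24 132) (Pf.C 0 0x400201))) Pf.nil)) (Pf.C 0 0x400181)))) (Pf.C 4 130)))
 (Pq.cons (Pq.L [] 2 (Pf.C 131 2))
 (Pq.cons (Pq.L [] 7 (Pf.B 2 1 (Pf.C 139 32896) (Pf.B 3 2 (Pf.B 3 0 (Pf.W 126 0 [] [1,2] (Pf.cons (Pf.B 4 2 (Pf.C 61 32772) (Pf.B 4 1 (Pf.C 24 132) (Pf.C 0 0x404200))) Pf.nil)) (Pf.W 126 0 [] [1,2] (Pf.cons (Pf.B 4 2 (Pf.C 61 32772) (Pf.B 4 1 (Pf.C 24 132) (Pf.C 0 0x404200))) Pf.nil))) (Pf.B 3 1 (Pf.W 126 0 [] [1,2] (Pf.cons (Pf.B 4 2 (Pf.C 61 32772) (Pf.B 4 1 (Pf.C 24 132)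 (Pf.C 0 0x404200))) Pf.nil)) (Pf.B 3 0 (Pf.W 126 0 [] [1,2] (Pf.cons (Pf.B 4 2 (Pf.C 61 32772) (Pf.B 4 1 (Pf.C 24 132) (Pf.C 0 0x404200))) Pf.nil)) (Pf.C 0 0x404180))))))
 Pq.nil))))))) (Pq.cons (Pq.D 2 (Pq.cons (Pq.D 3 (Pq.cons (Pq.L [] 7 (Pf.B 3 2 (Pf.B 3 1 (Pf.C 24 131) (Pf.B 2 1 (Pf.C 24 130) (Pf.C 0 0x600082))) (Pf.C 2 259)))
 (Pq.cons (Pq.L [] 4 (Pf.C 3 384))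
 (Pq.cons (Pq.L [] 7 (Pf.B 3 2 (Pf.C 24 386) (Pf.B 3 1 (Pf.B 2 1 (Pf.C 24 130) (Pf.C 0 0x600101)) (Pf.C 4 131))))
 (Pq.cons (Pq.L [] 5 (Pf.B 3 1 (Pf.C 141 16768) (Pf.C 4 131)))
 (Pq.cons (Pq.L [] 4 (Pf.C 131 3))
 (Pq.cons (Pq.L [] 5 (Pf.B 3 1 (Pf.C 142 49280) (Pf.C 132 385)))
 Pq.nil))))))) (Pq.cons (Pq.L [] 2 (Pf.C 3 256))
 (Pq.cons (Pq.L [] 7 (Pf.B 2 1 (Pf.B 3 2 (Pf.B 3 1 (Pf.W 126 0 [] [1,2] (Pf.cons (Pf.B 4 2 (Pf.C 24 260) (Pf.B 4 1 (Pf.C 24 132) (Pf.C 0 0x400201))) Pf.nil)) (Pf.B 3 0 (Pf.W 126 0 [] [1,2] (Pf.cons (Pf.B 4 2 (Pf.C 24 260) (Pf.B 4 1 (Pf.C 24 132) (Pf.C 0 0x400201))) Pf.nil)) (Pf.W 126 0 [] [1,2,3] (Pf.cons (Pf.C 24 259) (Pf.cons (Pf.B 4 2 (Pf.C 24 260) (Pf.B 4 3 (Pf.B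 4 1 (Pf.C 24 132) (Pf.C 0 0x600084)) (Pf.C 0 0x400203))) Pf.nil))))) (Pf.B 3 1 (Pf.W 126 0 [] [1,2] (Pf.cons (Pf.B 4 2 (Pf.C 24 260) (Pf.B 4 1 (Pf.C 24 132) (Pf.C 0 0x400201))) Pf.nil)) (Pf.B 3 0 (Pf.W 126 0 [] [1,2] (Pf.cons (Pf.B 4 2 (Pf.C 24 260) (Pf.B 4 1 (Pf.C 24 132) (Pf.C 0 0x400201))) Pf.nil)) (Pf.C 0 0x400181)))) (Pf.C 4 130)))
 (Pq.cons (Pq.L [] 3 (Pf.B 2 1 (Pf.C 141 16640) (Pf.C 4 130)))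
 (Pq.cons (Pq.L [] 2 (Pf.C 131 2))
 (Pq.cons (Pq.L [] 3 (Pf.B 2 1 (Pf.C 142 32896) (Pf.C 132 257)))
 Pq.nil))))))) (Pq.cons (Pq.L [] 1 (Pf.C 131 1))
 (Pq.cons (Pq.D 2 (Pq.cons (Pq.D 3 (Pq.cons (Pq.L [] 7 (Pf.B 3 2 (Pf.B 3 1 (Pf.C 61 16387) (Pf.B 2 1 (Pf.C 61 16386) (Pf.W 21 2 [] [0,3] (Pf.cons (Pf.B 4 0 (Pf.B 4 3 (Pf.C 7 0x400184) (Pf.W 21 3 [] [0,4] (Pf.cons (Pf.B 5 4 (Pf.B 5 0 (Pf.C 7 0x80c005) (Pf.C 3 5)) (Pf.C 3 517)) Pf.nil))) (Pf.C 3 4)) Pf.nil)))) (Pf.C 2 259)))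
 (Pq.cons (Pq.L [] 4 (Pf.C 3 384))
 (Pq.cons (Pq.L [] 7 (Pf.B 3 2 (Pf.C 24 386) (Pf.B 3 1 (Pf.C 139 16768) (Pf.B 2 1 (Pf.C 61 16386) (Pf.C 0 49409)))))
 (Pq.cons (Pq.L [] 5 (Pf.B 3 1 (Pf.C 142 16768) (Pf.C 132 131)))
 (Pq.cons (Pq.L [] 4 (Pf.C 131 3))
 (Pq.cons (Pq.L [] 5 (Pf.B 3 1 (Pf.C 144 16768) (Pf.C 5 131)))
 Pq.nil))))))) (Pq.cons (Pq.L [] 2 (Pf.C 3 256))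
 (Pq.cons (Pq.L [] 7 (Pf.B 2 1 (Pf.C 139 16640) (Pf.B 3 2 (Pf.W 126 0 [] [1,2] (Pf.cons (Pf.B 4 2 (Pf.C 24 260) (Pf.B 4 1 (Pf.C 61 16388) (Pf.C 0 33281))) Pf.nil)) (Pf.B 3 1 (Pf.B 3 0 (Pf.W 126 0 [] [1,2] (Pf.cons (Pf.B 4 2 (Pf.C 24 260) (Pf.B 4 1 (Pf.C 61 16388) (Pf.C 0 33281))) Pf.nil)) (Pf.W 126 0 [] [1,2] (Pf.cons (Pf.B 4 2 (Pf.C 24 260) (Pf.B 4 1 (Pf.C 61 16388) (Pf.C 0 33281))) Pf.nil))) (Pf.B 3 0 (Pf.W 126 0 [] [1,2,3] (Pf.cons (Pf.B 4 2 (Pf.C 24 260) (Pf.B 4 3 (Pf.B 4 1 (Pf.C 61 16388) (Pf.C 0 0x608084)) (Pf.C 0 33283))) Pf.nil)) (Pf.C 0 0x208180))))))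
 (Pq.cons (Pq.L [] 3 (Pf.B 2 1 (Pf.C 142 16640) (Pf.C 132 130)))
 (Pq.cons (Pq.L [] 2 (Pf.C 131 2))
 (Pq.cons (Pq.L [] 3 (Pf.B 2 1 (Pf.C 144 16640) (Pf.C 5 130)))
 Pq.nil))))))) Pq.nil))))))) (Pq.cons (Pq.D 1 (Pq.cons (Pq.L [] 1 (Pf.C 24 1))
 (Pq.cons (Pq.D 2 (Pq.cons (Pq.L [] 2 (Pf.C 24 2))
 (Pq.cons (Pq.L [] 3 (Pf.B 2 1 (Pf.C 135 130) (Pf.C 3 130)))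
 (Pq.cons (Pq.L [] 2 (Pf.C 4 256))
 (Pq.cons (Pq.L [] 2 (Pf.C 4 256))
 (Pq.cons (Pq.L [] 2 (Pf.C 4 256))
 (Pq.cons (Pq.D 3 (Pq.cons (Pq.L [] 4 (Pf.C 24 3))
 (Pq.cons (Pq.L [] 5 (Pf.B 3 1 (Pf.C 135 131) (Pf.C 3 131)))
 (Pq.cons (Pq.L [] 4 (Pf.C 4 384))
 (Pq.cons (Pq.L [] 4 (Pf.C 4 384))
 (Pq.cons (Pq.L [] 4 (Pf.C 4 384))
 (Pq.cons (Pq.L [] 6 (Pf.B 3 2 (Pf.C 146 33152) (Pf.C 5 259)))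
 Pq.nil))))))) Pq.nil))))))) (Pq.cons (Pq.L [] 1 (Pf.C 4 128))
 (Pq.cons (Pq.L [] 1 (Pf.C 4 128))
 (Pq.cons (Pq.L [] 1 (Pf.C 4 128))
 (Pq.cons (Pq.D 2 (Pq.cons (Pq.L [] 2 (Pf.C 24 2))
 (Pq.cons (Pq.D 3 (Pq.cons (Pq.L [] 4 (Pf.C 24 3))
 (Pq.cons (Pq.L [] 6 (Pf.B 3 2 (Pf.C 135 259) (Pf.C 3 259)))
 (Pq.cons (Pq.L [] 4 (Pf.C 4 384))
 (Pq.cons (Pq.L [] 4 (Pf.C 4 384))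
 (Pq.cons (Pq.L [] 4 (Pf.C 4 384))
 (Pq.cons (Pq.L [] 5 (Pf.B 3 1 (Pf.C 146 16768) (Pf.C 5 131)))
 Pq.nil))))))) (Pq.cons (Pq.L [] 2 (Pf.C 4 256))
 (Pq.cons (Pq.L [] 2 (Pf.C 4 256))
 (Pq.cons (Pq.L [] 2 (Pf.C 4 256))
 (Pq.cons (Pq.L [] 3 (Pf.B 2 1 (Pf.C 146 16640) (Pf.C 5 130)))
 Pq.nil))))))) Pq.nil))))))) (Pq.cons (Pq.D 1 (Pq.cons (Pq.L [] 1 (Pf.C 24 1))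
 (Pq.cons (Pq.D 2 (Pq.cons (Pq.L [] 2 (Pf.C 24 2))
 (Pq.cons (Pq.L [] 3 (Pf.B 2 1 (Pf.C 136 130) (Pf.C 3 130)))
 (Pq.cons (Pq.L [] 2 (Pf.C 4 256))
 (Pq.cons (Pq.L [] 2 (Pf.C 4 256))
 (Pq.cons (Pq.L [] 2 (Pf.C 4 256))
 (Pq.cons (Pq.L [] 2 (Pf.C 132 256))
 Pq.nil))))))) (Pq.cons (Pq.L [] 1 (Pf.C 4 128))
 (Pq.cons (Pq.L [] 1 (Pf.C 4 128))
 (Pq.cons (Pq.L [] 1 (Pf.C 4 128))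
 (Pq.cons (Pq.L [] 1 (Pf.C 132 128))
 Pq.nil))))))) (Pq.cons (Pq.D 1 (Pq.cons (Pq.L [] 1 (Pf.C 24 1))
 (Pq.cons (Pq.L [] 1 (Pf.C 131 128))
 (Pq.cons (Pq.L [] 1 (Pf.C 4 128))
 (Pq.cons (Pq.L [] 1 (Pf.C 4 128))
 (Pq.cons (Pq.L [] 1 (Pf.C 4 128))
 (Pq.cons (Pq.D 2 (Pq.cons (Pq.L [] 2 (Pf.C 24 2))
 (Pq.cons (Pq.L [] 2 (Pf.C 131 256))
 (Pq.cons (Pq.L [] 2 (Pf.C 4 256))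
 (Pq.cons (Pq.L [] 2 (Pf.C 4 256))
 (Pq.cons (Pq.L [] 2 (Pf.C 4 256))
 (Pq.cons (Pq.L [] 3 (Pf.B 2 1 (Pf.C 148 16640) (Pf.C 5 130)))
 Pq.nil))))))) Pq.nil))))))) (Pq.cons (Pq.D 1 (Pq.cons (Pq.D 2 (Pq.cons (Pq.D 3 (Pq.cons (Pq.L [] 7 (Pf.B 3 2 (Pf.B 3 1 (Pf.B 2 1 (Pf.W 29 1 [] [0,2,3] (Pf.cons (Pf.B 4 0 (Pf.B 4 3 (Pf.C 9 0x200184) (Pf.B 4 2 (Pf.C 9 0x200104) (Pf.C 9 0x610101))) (Pf.C 5 4)) Pf.nil)) (Pf.C 2 130)) (Pf.C 2 131)) (Pf.C 2 259)))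
 (Pq.cons (Pq.L [] 7 (Pf.B 3 2 (Pf.C 62 386) (Pf.B 3 1 (Pf.C 62 385) (Pf.B 2 1 (Pf.W 21 1 [] [2,3] (Pf.cons (Pf.B 4 3 (Pf.B 4 2 (Pf.C 7 0x20c104) (Pf.W 21 2 [] [3,4] (Pf.cons (Pf.B 5 4 (Pf.B 5 3 (Pf.C 7 0x808185) (Pf.C 3 389)) (Pf.C 3 517)) Pf.nil))) (Pf.C 3 388)) Pf.nil)) (Pf.C 2 130)))))
 (Pq.cons (Pq.L [] 7 (Pf.B 3 2 (Pf.C 24 386) (Pf.B 3 1 (Pf.C 24 385) (Pf.B 2 1 (Pf.C 0 0x20c002) (Pf.C 2 130)))))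
 (Pq.cons (Pq.L [] 4 (Pf.C 132 3))
 (Pq.cons (Pq.L [] 7 (Pf.B 3 2 (Pf.C 24 386) (Pf.B 3 1 (Pf.C 24 385) (Pf.B 2 1 (Pf.C 0 0x20c002) (Pf.C 2 130)))))
 (Pq.cons (Pq.L [] 4 (Pf.C 5 384))
 Pq.nil))))))) (Pq.cons (Pq.D 3 (Pq.cons (Pq.L [] 7 (Pf.B 3 2 (Pf.C 62 259) (Pf.B 3 1 (Pf.B 2 1 (Pf.C 62 257) (Pf.W 21 1 [] [2,3] (Pf.cons (Pf.B 4 2 (Pf.B 4 3 (Pf.C 7 0x208184) (Pf.W 21 3 [] [2,4] (Pf.cons (Pf.B 5 4 (Pf.B 5 2 (Pf.C 7 0x80c105) (Pf.C 3 261)) (Pf.C 3 517)) Pf.nil))) (Pf.C 3 260)) Pf.nil))) (Pf.C 2 131))))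
 (Pq.cons (Pq.L [] 6 (Pf.B 3 2 (Pf.C 137 259) (Pf.C 3 259)))
 (Pq.cons (Pq.L [] 7 (Pf.B 3 2 (Pf.C 140 386) (Pf.B 3 1 (Pf.C 24 385) (Pf.B 2 1 (Pf.C 62 257) (Pf.C 0 49282)))))
 (Pq.cons (Pq.L [] 4 (Pf.C 132 3))
 (Pq.cons (Pq.L [] 6 (Pf.B 3 2 (Pf.C 143 386) (Pf.C 131 259)))
 (Pq.cons (Pq.L [] 4 (Pf.C 5 384))
 Pq.nil))))))) (Pq.cons (Pq.D 3 (Pq.cons (Pq.L [] 7 (Pf.B 3 2 (Pf.C 24 259) (Pf.B 3 1 (Pf.B 2 1 (Pf.C 24 257) (Pf.C 0 0x600101)) (Pf.C 2 131))))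
 (Pq.cons (Pq.L [] 7 (Pf.B 3 2 (Pf.C 140 259) (Pf.B 3 1 (Pf.C 62 385) (Pf.B 2 1 (Pf.C 24 257) (Pf.C 0 0x604100)))))
 (Pq.cons (Pq.L [] 6 (Pf.B 3 2 (Pf.C 145 259) (Pf.C 4 259)))
 (Pq.cons (Pq.L [] 4 (Pf.C 132 3))
 (Pq.cons (Pq.L [] 7 (Pf.B 3 2 (Pf.B 3 1 (Pf.C 24 385) (Pf.B 2 1 (Pf.C 24 257) (Pf.C 0 0x600082))) (Pf.C 4 259)))
 (Pq.cons (Pq.L [] 4 (Pf.C 5 384))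
 Pq.nil))))))) (Pq.cons (Pq.L [] 2 (Pf.C 132 2))
 (Pq.cons (Pq.D 3 (Pq.cons (Pq.L [] 7 (Pf.B 3 2 (Pf.C 24 259) (Pf.B 3 1 (Pf.B 2 1 (Pf.C 24 257) (Pf.C 0 0x600101)) (Pf.C 2 131))))
 (Pq.cons (Pq.L [] 6 (Pf.B 3 2 (Pf.C 143 259) (Pf.C 131 386)))
 (Pq.cons (Pq.L [] 7 (Pf.B 3 2 (Pf.B 3 1 (Pf.C 24 385) (Pf.B 2 1 (Pf.C 24 257) (Pf.C 0 0x600082))) (Pf.C 4 259)))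
 (Pq.cons (Pq.L [] 4 (Pf.C 132 3))
 (Pq.cons (Pq.L [] 6 (Pf.B 3 2 (Pf.C 147 259) (Pf.C 4 259)))
 (Pq.cons (Pq.L [] 4 (Pf.C 5 384))
 Pq.nil))))))) (Pq.cons (Pq.L [] 2 (Pf.C 5 256))
 Pq.nil))))))) (Pq.cons (Pq.D 2 (Pq.cons (Pq.D 3 (Pq.cons (Pq.L [] 7 (Pf.B 3 2 (Pf.B 3 1 (Pf.C 62 131) (Pf.B 2 1 (Pf.C 62 130) (Pf.W 21 2 [] [1,3] (Pf.cons (Pf.B 4 1 (Pf.B 4 3 (Pf.C 7 0x404184) (Pf.W 21 3 [] [1,4] (Pf.cons (Pf.B 5 4 (Pf.B 5 1 (Pf.C 7 0x80c085) (Pf.C 3 133)) (Pf.C 3 517)) Pf.nil))) (Pf.C 3 132)) Pf.nil)))) (Pf.C 2 259)))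
 (Pq.cons (Pq.L [] 5 (Pf.B 3 1 (Pf.C 137 131) (Pf.C 3 131)))
 (Pq.cons (Pq.L [] 7 (Pf.B 3 2 (Pf.C 24 386) (Pf.B 3 1 (Pf.C 140 385) (Pf.B 2 1 (Pf.C 62 130) (Pf.C 0 49409)))))
 (Pq.cons (Pq.L [] 4 (Pf.C 132 3))
 (Pq.cons (Pq.L [] 5 (Pf.B 3 1 (Pf.C 143 385) (Pf.C 131 131)))
 (Pq.cons (Pq.L [] 4 (Pf.C 5 384))
 Pq.nil))))))) (Pq.cons (Pq.L [] 3 (Pf.B 2 1 (Pf.C 137 130) (Pf.C 3 130)))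
 (Pq.cons (Pq.L [] 7 (Pf.B 2 1 (Pf.C 140 257) (Pf.B 3 2 (Pf.W 126 1 [] [0,2] (Pf.cons (Pf.B 4 2 (Pf.C 24 260) (Pf.B 4 0 (Pf.C 61 132) (Pf.C 0 0x208200))) Pf.nil)) (Pf.B 3 1 (Pf.W 126 1 [] [0,2] (Pf.cons (Pf.B 4 2 (Pf.C 24 260) (Pf.B 4 0 (Pf.C 61 132) (Pf.C 0 0x208200))) Pf.nil)) (Pf.B 3 0 (Pf.W 126 1 [] [0,2] (Pf.cons (Pf.B 4 2 (Pf.C 24 260) (Pf.B 4 0 (Pf.C 61 132) (Pf.C 0 0x208200))) Pf.nil)) (Pf.C 0 0x208180))))))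
 (Pq.cons (Pq.L [] 2 (Pf.C 132 2))
 (Pq.cons (Pq.L [] 3 (Pf.B 2 1 (Pf.C 143 257) (Pf.C 131 130)))
 (Pq.cons (Pq.L [] 2 (Pf.C 5 256))
 Pq.nil))))))) (Pq.cons (Pq.D 2 (Pq.cons (Pq.D 3 (Pq.cons (Pq.L [] 7 (Pf.B 3 2 (Pf.B 3 1 (Pf.C 24 131) (Pf.B 2 1 (Pf.C 24 130) (Pf.C 0 0x600082))) (Pf.C 2 259)))
 (Pq.cons (Pq.L [] 7 (Pf.B 3 2 (Pf.C 62 386) (Pf.B 3 1 (Pf.C 140 131) (Pf.B 2 1 (Pf.C 24 130) (Pf.C 0 0x604100)))))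
 (Pq.cons (Pq.L [] 5 (Pf.B 3 1 (Pf.C 145 131) (Pf.C 4 131)))
 (Pq.cons (Pq.L [] 4 (Pf.C 132 3))
 (Pq.cons (Pq.L [] 7 (Pf.B 3 2 (Pf.C 24 386) (Pf.B 3 1 (Pf.B 2 1 (Pf.C 24 130) (Pf.C 0 0x600101)) (Pf.C 4 131))))
 (Pq.cons (Pq.L [] 4 (Pf.C 5 384))
 Pq.nil))))))) (Pq.cons (Pq.L [] 7 (Pf.B 2 1 (Pf.C 140 130) (Pf.B 3 2 (Pf.W 126 2 [] [0,1] (Pf.cons (Pf.B 4 1 (Pf.C 24 132) (Pf.B 4 0 (Pf.C 61 260) (Pf.C 0 0x404200))) Pf.nil)) (Pf.B 3 1 (Pf.W 126 2 [] [0,1] (Pf.cons (Pf.B 4 1 (Pf.C 24 132) (Pf.B 4 0 (Pf.C 61 260) (Pf.C 0 0x404200))) Pf.nil)) (Pf.B 3 0 (Pf.W 126 2 [] [0,1] (Pf.cons (Pf.B 4 1 (Pf.C 24 132) (Pf.B 4 0 (Pf.C 61 260) (Pf.C 0 0x404200))) Pf.nil)) (Pf.C 0 0x404180))))))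
 (Pq.cons (Pq.L [] 3 (Pf.B 2 1 (Pf.C 145 130) (Pf.C 4 130)))
 (Pq.cons (Pq.L [] 2 (Pf.C 132 2))
 (Pq.cons (Pq.L [] 7 (Pf.B 2 1 (Pf.B 3 2 (Pf.B 3 1 (Pf.W 128 0 [] [1,2] (Pf.cons (Pf.B 4 2 (Pf.C 24 260) (Pf.B 4 1 (Pf.C 24 132) (Pf.C 0 0x400201))) Pf.nil)) (Pf.B 3 0 (Pf.W 128 0 [] [1,2] (Pf.cons (Pf.B 4 2 (Pf.C 24 260) (Pf.B 4 1 (Pf.C 24 132) (Pf.C 0 0x400201))) Pf.nil)) (Pf.W 128 0 [] [1,2,3] (Pf.cons (Pf.C 24 259) (Pf.cons (Pf.B 4 2 (Pf.C 24 260) (Pf.B 4 3 (Pf.B 4 1 (Pf.C 24 132) (Pf.C 0 0x600084)) (Pf.C 0 0x400203))) Pf.nil))))) (Pf.B 3 1 (Pf.W 128 0 [] [1,2] (Pf.cons (Pf.B 4 2 (Pf.C 24 260) (Pf.B 4 1 (Pf.C 24 132) (Pf.C 0 0x400201))) Pf.nil)) (Pf.B 3 0 (Pf.W 128 0 [] [1,2] (Pf.cons (Pf.B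 4 2 (Pf.C 24 260) (Pf.B 4 1 (Pf.C 24 132) (Pf.C 0 0x400201))) Pf.nil)) (Pf.C 0 0x400181)))) (Pf.C 4 130)))
 (Pq.cons (Pq.L [] 2 (Pf.C 5 256))
 Pq.nil))))))) (Pq.cons (Pq.L [] 1 (Pf.C 132 1))
 (Pq.cons (Pq.D 2 (Pq.cons (Pq.D 3 (Pq.cons (Pq.L [] 7 (Pf.B 3 2 (Pf.B 3 1 (Pf.C 24 131) (Pf.B 2 1 (Pf.C 24 130) (Pf.C 0 0x600082))) (Pf.C 2 259)))
 (Pq.cons (Pq.L [] 5 (Pf.B 3 1 (Pf.C 143 131) (Pf.C 131 385)))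
 (Pq.cons (Pq.L [] 7 (Pf.B 3 2 (Pf.C 24 386) (Pf.B 3 1 (Pf.B 2 1 (Pf.C 24 130) (Pf.C 0 0x600101)) (Pf.C 4 131))))
 (Pq.cons (Pq.L [] 4 (Pf.C 132 3))
 (Pq.cons (Pq.L [] 5 (Pf.B 3 1 (Pf.C 147 131) (Pf.C 4 131)))
 (Pq.cons (Pq.L [] 4 (Pf.C 5 384))
 Pq.nil))))))) (Pq.cons (Pq.L [] 3 (Pf.B 2 1 (Pf.C 143 130) (Pf.C 131 257)))
 (Pq.cons (Pq.L [] 7 (Pf.B 2 1 (Pf.B 3 2 (Pf.B 3 1 (Pf.W 128 0 [] [1,2] (Pf.cons (Pf.B 4 2 (Pf.C 24 260) (Pf.B 4 1 (Pf.C 24 132) (Pf.C 0 0x400201))) Pf.nil)) (Pf.B 3 0 (Pf.W 128 0 [] [1,2] (Pf.cons (Pf.B 4 2 (Pf.C 24 260) (Pf.B 4 1 (Pf.C 24 132) (Pf.C 0 0x400201))) Pf.nil)) (Pf.W 128 0 [] [1,2,3] (Pf.cons (Pf.C 24 259) (Pf.cons (Pf.B 4 2 (Pf.C 24 260) (Pf.B 4 3 (Pf.B 4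 1 (Pf.C 24 132) (Pf.C 0 0x600084)) (Pf.C 0 0x400203))) Pf.nil))))) (Pf.B 3 1 (Pf.W 128 0 [] [1,2] (Pf.cons (Pf.B 4 2 (Pf.C 24 260) (Pf.B 4 1 (Pf.C 24 132) (Pf.C 0 0x400201))) Pf.nil)) (Pf.B 3 0 (Pf.W 128 0 [] [1,2] (Pf.cons (Pf.B 4 2 (Pf.C 24 260) (Pf.B 4 1 (Pf.C 24 132) (Pf.C 0 0x400201))) Pf.nil)) (Pf.C 0 0x400181)))) (Pf.C 4 130)))
 (Pq.cons (Pq.L [] 2 (Pf.C 132 2))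
 (Pq.cons (Pq.L [] 3 (Pf.B 2 1 (Pf.C 147 130) (Pf.C 4 130)))
 (Pq.cons (Pq.L [] 2 (Pf.C 5 256))
 Pq.nil))))))) (Pq.cons (Pq.L [] 1 (Pf.C 5 128))
 Pq.nil))))))) Pq.nil))))))) Pq.nil)
theorem e3_o35 : AllRef e3_T e3_G59 (applyObl TD2 1 [31,85,87,88,89,86] [0,0,0,0,0,0] [(31,0x38000000000000000000000),(85,0x4000000000000000000000),(87,0x80000000),(88,0x80000000),(89,0x80000000),(86,0x2000000000000000000000)]) :=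
  chkPq_sound e3_o35c _ (by decide +kernel)
noncomputable def e3_o36c : Pq := (Pq.cons (Pq.L [] 63 (Pf.C 0 0x608080))
 (Pq.cons (Pq.L [] 32767 (Pf.C 1 0x2840608080))
 (Pq.cons (Pq.L [] 1 (Pf.C 3 128))
 (Pq.cons (Pq.L [] 1 (Pf.C 4 128))
 (Pq.cons (Pq.L [] 1 (Pf.C 5 128))
 (Pq.cons (Pq.L [] 7 (Pf.C 6 32896))
 (Pq.cons (Pq.D 0 (Pq.cons (Pq.D 1 (Pq.cons (Pq.L [] 1 (Pf.C 3 128))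
 (Pq.cons (Pq.D 2 (Pq.cons (Pq.D 3 (Pq.cons (Pq.L [] 128 (Pf.C 3 386))
 (Pq.cons (Pq.D 4 (Pq.cons (Pq.L [] 1023 (Pf.C 16 0x40608080))
 (Pq.cons (Pq.L [] 1023 (Pf.C 16 0x40608080))
 Pq.nil))) Pq.nil))) (Pq.cons (Pq.D 3 (Pq.cons (Pq.D 4 (Pq.cons (Pq.L [] 1023 (Pf.C 16 0x40608080))
 (Pq.cons (Pq.L [] 1023 (Pf.C 16 0x40608080))
 Pq.nil))) (Pq.cons (Pq.L [] 128 (Pf.C 4 386))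
 Pq.nil))) Pq.nil))) Pq.nil))) (Pq.cons (Pq.D 1 (Pq.cons (Pq.D 2 (Pq.cons (Pq.D 3 (Pq.cons (Pq.L [] 128 (Pf.C 3 386))
 (Pq.cons (Pq.D 4 (Pq.cons (Pq.L [] 1023 (Pf.C 16 0x40608080))
 (Pq.cons (Pq.L [] 1023 (Pf.C 16 0x40608080))
 Pq.nil))) Pq.nil))) (Pq.cons (Pq.D 3 (Pq.cons (Pq.D 4 (Pq.cons (Pq.L [] 1023 (Pf.C 16 0x40608080))
 (Pq.cons (Pq.L [] 1023 (Pf.C 16 0x40608080))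
 Pq.nil))) (Pq.cons (Pq.L [] 128 (Pf.C 4 386))
 Pq.nil))) Pq.nil))) (Pq.cons (Pq.L [] 1 (Pf.C 4 128))
 Pq.nil))) Pq.nil))) (Pq.cons (Pq.D 0 (Pq.cons (Pq.D 1 (Pq.cons (Pq.L [] 1 (Pf.C 3 128))
 (Pq.cons (Pq.D 2 (Pq.cons (Pq.D 3 (Pq.cons (Pq.L [] 128 (Pf.C 3 386))
 (Pq.cons (Pq.D 4 (Pq.cons (Pq.L [] 1023 (Pf.C 17 0x40608080))
 (Pq.cons (Pq.L [] 1023 (Pf.C 17 0x40608080))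
 Pq.nil))) Pq.nil))) (Pq.cons (Pq.D 3 (Pq.cons (Pq.D 4 (Pq.cons (Pq.L [] 1023 (Pf.C 17 0x40608080))
 (Pq.cons (Pq.L [] 1023 (Pf.C 17 0x40608080))
 Pq.nil))) (Pq.cons (Pq.L [] 128 (Pf.C 5 386))
 Pq.nil))) Pq.nil))) Pq.nil))) (Pq.cons (Pq.D 1 (Pq.cons (Pq.D 2 (Pq.cons (Pq.D 3 (Pq.cons (Pq.L [] 128 (Pf.C 3 386))
 (Pq.cons (Pq.D 4 (Pq.cons (Pq.L [] 1023 (Pf.C 17 0x40608080))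
 (Pq.cons (Pq.L [] 1023 (Pf.C 17 0x40608080))
 Pq.nil))) Pq.nil))) (Pq.cons (Pq.D 3 (Pq.cons (Pq.D 4 (Pq.cons (Pq.L [] 1023 (Pf.C 17 0x40608080))
 (Pq.cons (Pq.L [] 1023 (Pf.C 17 0x40608080))
 Pq.nil))) (Pq.cons (Pq.L [] 128 (Pf.C 5 386))
 Pq.nil))) Pq.nil))) (Pq.cons (Pq.L [] 1 (Pf.C 5 128))
 Pq.nil))) Pq.nil))) (Pq.cons (Pq.D 0 (Pq.cons (Pq.D 1 (Pq.cons (Pq.L [] 1 (Pf.C 4 128))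
 (Pq.cons (Pq.D 2 (Pq.cons (Pq.D 3 (Pq.cons (Pq.L [] 128 (Pf.C 4 386))
 (Pq.cons (Pq.D 4 (Pq.cons (Pq.L [] 1023 (Pf.C 18 0x40608080))
 (Pq.cons (Pq.L [] 1023 (Pf.C 18 0x40608080))
 Pq.nil))) Pq.nil))) (Pq.cons (Pq.D 3 (Pq.cons (Pq.D 4 (Pq.cons (Pq.L [] 1023 (Pf.C 18 0x40608080))
 (Pq.cons (Pq.L [] 1023 (Pf.C 18 0x40608080))
 Pq.nil))) (Pq.cons (Pq.L [] 128 (Pf.C 5 386))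
 Pq.nil))) Pq.nil))) Pq.nil))) (Pq.cons (Pq.D 1 (Pq.cons (Pq.D 2 (Pq.cons (Pq.D 3 (Pq.cons (Pq.L [] 128 (Pf.C 4 386))
 (Pq.cons (Pq.D 4 (Pq.cons (Pq.L [] 1023 (Pf.C 18 0x40608080))
 (Pq.cons (Pq.L [] 1023 (Pf.C 18 0x40608080))
 Pq.nil))) Pq.nil))) (Pq.cons (Pq.D 3 (Pq.cons (Pq.D 4 (Pq.cons (Pq.L [] 1023 (Pf.C 18 0x40608080))
 (Pq.cons (Pq.L [] 1023 (Pf.C 18 0x40608080))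
 Pq.nil))) (Pq.cons (Pq.L [] 128 (Pf.C 5 386))
 Pq.nil))) Pq.nil))) (Pq.cons (Pq.L [] 1 (Pf.C 5 128))
 Pq.nil))) Pq.nil))) Pq.nil)))))))))
theorem e3_o36 : AllRef e3_T e3_G58 (applyObl e4_T 9 [76,84,78] [1,2,3] []) :=
  chkPq_sound e3_o36c _ (by decide +kernel)
noncomputable def e3_o37c : Pq := (Pq.cons (Pq.L [] 0 (Pf.W 74 0 [] [0] (Pf.cons (Pf.C 41 1) Pf.nil)))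
 (Pq.cons (Pq.L [] 0 (Pf.W 74 0 [] [0] (Pf.cons (Pf.C 42 1) Pf.nil)))
 (Pq.cons (Pq.L [] 0 (Pf.W 74 0 [] [0] (Pf.cons (Pf.C 43 1) Pf.nil)))
 (Pq.cons (Pq.L [] 0 (Pf.W 74 0 [] [0] (Pf.cons (Pf.C 44 1) Pf.nil)))
 Pq.nil))))
theorem e3_o37 : AllRef e3_T e3_G16 (List.map pat1 [31,33,34,35]) :=
  chkPq_sound e3_o37c _ (by decide +kernel)
noncomputable def e3_o38c : Pq := (Pq.cons (Pq.L [] 1 (Pf.W 74 0 [] [0,1] (Pf.cons (Pf.B 2 1 (Pf.B 2 0 (Pf.W 23 2 [] [0,1] (Pf.cons (Pf.B 3 1 (Pf.C 24 385) (Pf.B 3 0 (Pf.C 24 384) (Pf.C 8 0x20c002))) Pf.nil)) (Pf.C 2 2)) (Pf.C 2 130)) Pf.nil)))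
 (Pq.cons (Pq.L [] 1 (Pf.C 2 128))
 Pq.nil))
theorem e3_o38 : AllRef e3_T e3_G60 (hitObl [32] e3_h91) :=
  chkPq_sound e3_o38c _ (by decide +kernel)
noncomputable def e3_o39c : Pq := (Pq.cons (Pq.L [] 0 (Pf.C 149 0))
 Pq.nil)
theorem e3_o39 : AllRef e3_T e3_G61 (List.map pat1 [90]) :=
  chkPq_sound e3_o39c _ (by decide +kernel)
noncomputable def e3_o40c : Pq := (Pq.cons (Pq.L [] 0 (Pf.W 74 0 [] [0] (Pf.cons (Pf.B 1 0 (Pf.C 28 1) (Pf.C 154 128)) Pf.nil)))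
 Pq.nil)
theorem e3_o40 : AllRef e3_T e3_G65 (List.map pat1 [96]) :=
  chkPq_sound e3_o40c _ (by decide +kernel)
noncomputable def e3_o41c : Pq := (Pq.cons (Pq.L [] 1 (Pf.C 151 128))
 (Pq.cons (Pq.L [] 1 (Pf.C 153 128))
 (Pq.cons (Pq.L [] 2 (Pf.C 28 2))
 (Pq.cons (Pq.L [] 1 (Pf.C 3 128))
 (Pq.cons (Pq.L [] 2 (Pf.B 2 1 (Pf.W 150 2 [] [0] (Pf.cons (Pf.B 3 0 (Pf.C 58 259) (Pf.C 153 384)) Pf.nil)) (Pf.C 3 130)))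
 (Pq.cons (Pq.L [] 1 (Pf.C 156 128))
 (Pq.cons (Pq.L [] 2 (Pf.B 2 1 (Pf.W 152 2 [] [0] (Pf.cons (Pf.B 3 0 (Pf.C 59 32771) (Pf.C 151 384)) Pf.nil)) (Pf.C 4 130)))
 (Pq.cons (Pq.L [] 1 (Pf.C 4 128))
 (Pq.cons (Pq.L [] 1 (Pf.C 159 128))
 (Pq.cons (Pq.L [] 3 (Pf.B 2 1 (Pf.W 155 1 [] [0,2] (Pf.cons (Pf.B 3 0 (Pf.B 3 2 (Pf.W 155 2 [] [0,1,3] (Pf.cons (Pf.B 4 3 (Pf.B 4 0 (Pf.B 4 1 (Pf.C 17 0x30200104) (Pf.W 150 4 [] [1,2] (Pf.cons (Pf.B 5 2 (Pf.C 28 261) (Pf.B 5 1 (Pf.C 28 133) (Pf.C 0 0x410281))) Pf.nil))) (Pf.C 3 4)) (Pf.C 3 388)) Pf.nil)) (Pf.W 150 3 [] [1,2] (Pf.cons (Pf.B 4 2 (Pf.C 28 260) (Pf.B 4 1 (Pf.C 28 132) (Pf.C 0 0x40c201))) Pf.nil))) (Pf.C 3 3)) Pf.nil)) (Pf.C 5 130)))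
 (Pq.cons (Pq.L [] 3 (Pf.B 2 1 (Pf.W 155 1 [] [0,2] (Pf.cons (Pf.B 3 2 (Pf.B 3 0 (Pf.C 6 32771) (Pf.W 150 3 [] [0,1] (Pf.cons (Pf.B 4 1 (Pf.C 28 132) (Pf.B 4 0 (Pf.C 0 49284) (Pf.C 153 512))) Pf.nil))) (Pf.W 150 3 [] [1,2] (Pf.cons (Pf.B 4 2 (Pf.C 28 260) (Pf.B 4 1 (Pf.C 28 132) (Pf.C 0 0x40c201))) Pf.nil))) Pf.nil)) (Pf.C 5 130)))
 (Pq.cons (Pq.L [] 1 (Pf.C 5 128))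
 (Pq.cons (Pq.L [] 3 (Pf.B 2 1 (Pf.W 155 1 [] [0,2] (Pf.cons (Pf.B 3 0 (Pf.B 3 2 (Pf.W 155 2 [] [0,1,3] (Pf.cons (Pf.B 4 3 (Pf.B 4 0 (Pf.B 4 1 (Pf.C 17 0x30200104) (Pf.W 150 4 [] [1,2] (Pf.cons (Pf.B 5 2 (Pf.C 28 261) (Pf.B 5 1 (Pf.C 28 133) (Pf.C 0 0x410281))) Pf.nil))) (Pf.C 3 4)) (Pf.C 3 388)) Pf.nil)) (Pf.W 150 3 [] [1,2] (Pf.cons (Pf.B 4 2 (Pf.C 28 260) (Pf.B 4 1 (Pf.C 28 132) (Pf.C 0 0x40c201))) Pf.nil))) (Pf.C 3 3)) Pf.nil)) (Pf.C 5 130)))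
 (Pq.cons (Pq.L [] 3 (Pf.B 2 1 (Pf.W 155 1 [] [0,2] (Pf.cons (Pf.B 3 2 (Pf.B 3 0 (Pf.C 6 32771) (Pf.W 150 3 [] [0,1] (Pf.cons (Pf.B 4 1 (Pf.C 28 132) (Pf.B 4 0 (Pf.C 0 49284) (Pf.C 153 512))) Pf.nil))) (Pf.W 150 3 [] [1,2] (Pf.cons (Pf.B 4 2 (Pf.C 28 260) (Pf.B 4 1 (Pf.C 28 132) (Pf.C 0 0x40c201))) Pf.nil))) Pf.nil)) (Pf.C 5 130)))
 (Pq.cons (Pq.L [] 1 (Pf.C 5 128))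
 (Pq.cons (Pq.L [] 3 (Pf.B 2 1 (Pf.W 158 1 [] [0,2] (Pf.cons (Pf.B 3 2 (Pf.B 3 0 (Pf.C 6 33152) (Pf.W 152 3 [] [0,1] (Pf.cons (Pf.B 4 1 (Pf.C 28 132) (Pf.B 4 0 (Pf.C 0 49284) (Pf.C 151 512))) Pf.nil))) (Pf.W 152 3 [] [1,2] (Pf.cons (Pf.B 4 2 (Pf.C 28 260) (Pf.B 4 1 (Pf.C 28 132) (Pf.C 0 0x40c201))) Pf.nil))) Pf.nil)) (Pf.C 5 130)))
 (Pq.cons (Pq.L [] 3 (Pf.B 2 1 (Pf.W 158 1 [] [0,2] (Pf.cons (Pf.B 3 0 (Pf.B 3 2 (Pf.W 158 2 [] [0,1,3] (Pf.cons (Pf.B 4 3 (Pf.B 4 0 (Pf.B 4 1 (Pf.C 18 0x30200104) (Pf.W 152 4 [] [1,2] (Pf.cons (Pf.B 5 2 (Pf.C 28 261) (Pf.B 5 1 (Pf.C 28 133) (Pf.C 0 0x410281))) Pf.nil))) (Pf.C 4 4)) (Pf.C 4 388)) Pf.nil)) (Pf.W 152 3 [] [1,2] (Pf.cons (Pf.B 4 2 (Pf.C 28 260)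 (Pf.B 4 1 (Pf.C 28 132) (Pf.C 0 0x40c201))) Pf.nil))) (Pf.C 4 3)) Pf.nil)) (Pf.C 5 130)))
 (Pq.cons (Pq.L [] 1 (Pf.C 5 128))
 Pq.nil))))))))))))))))))
theorem e3_o41 : AllRef e3_T e3_G69 (splitObl [30,91,93,99,100,101] [92,94,102]) :=
  chkPq_sound e3_o41c _ (by decide +kernel)
noncomputable def e3_o42c : Pq := (Pq.cons (Pq.L [] 482 (Pf.B 8 5 (Pf.B 8 2 (Pf.B 7 4 (Pf.B 7 0 (Pf.B 6 4 (Pf.B 6 0 (Pf.B 5 2 (Pf.B 4 0 (Pf.B 3 0 (Pf.B 8 4 (Pf.B 8 0 (Pf.W 150 0 [] [4,5,8] (Pf.cons (Pf.B 9 8 (Pf.C 58 0x20009) (Pf.B 9 5 (Pf.B 9 4 (Pf.C 59 0x20209) (Pf.C 58 82441)) (Pf.C 60 0x20289))) Pf.nil)) (Pf.B 7 2 (Pf.W 150 0 [] [2,7,8] (Pf.cons (Pf.B 9 2 (Pf.C 58 32777) (Pf.B 9 8 (Pf.B 9 7 (Pf.C 59 33673) (Pf.C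 58 0x20389)) (Pf.C 60 33801))) Pf.nil)) (Pf.B 6 2 (Pf.W 150 0 [] [2,6,8] (Pf.cons (Pf.B 9 2 (Pf.C 58 32777) (Pf.B 9 8 (Pf.B 9 6 (Pf.C 59 33545) (Pf.C 58 0x20309)) (Pf.C 60 33801))) Pf.nil)) (Pf.C 16 0x70418400)))) (Pf.B 8 0 (Pf.B 6 5 (Pf.W 150 0 [] [5,6,8] (Pf.cons (Pf.B 9 8 (Pf.C 58 0x20009) (Pf.B 9 6 (Pf.C 59 0x20309) (Pf.B 9 5 (Pf.C 58 82697) (Pf.C 60 0x20289)))) Pf.nil)) (Pf.B 5 0 (Pf.W 150 0 [] [5,8] (Pf.cons (Pf.B 9 8 (Pf.C 58 0x20009) (Pf.B 9 5 (Pf.C 58 81929) (Pf.C 60 0x20289))) Pf.nil)) (Pf.C 16 0x60a00404))) (Pf.B 7 5 (Pf.B 7 2 (Pf.W 150 0 [] [2,7,8] (Pf.cons (Pf.B 9 2 (Pf.C 58 32777) (Pf.B 9 8 (Pf.B 9 7 (Pf.C 59 33673) (Pf.C 58 0x20389)) (Pf.C 60 33801))) Pf.nil)) (Pf.B 5 0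 (Pf.W 150 0 [] [5,7,8] (Pf.cons (Pf.B 9 5 (Pf.C 58 81929) (Pf.B 9 8 (Pf.B 9 7 (Pf.C 59 82825) (Pf.C 58 0x20389)) (Pf.C 60 82953))) Pf.nil)) (Pf.C 16 0x80014382))) (Pf.B 6 5 (Pf.B 5 0 (Pf.C 16 0x41000385) (Pf.B 6 2 (Pf.W 150 0 [] [2,6,8] (Pf.cons (Pf.B 9 2 (Pf.C 58 32777) (Pf.B 9 8 (Pf.B 9 6 (Pf.C 59 33545) (Pf.C 58 0x20309)) (Pf.C 60 33801))) Pf.nil)) (Pf.C 16 0x80014106))) (Pf.C 16 0x70a18404))))) (Pf.C 3 3)) (Pf.C 3 4)) (Pf.C 4 261)) (Pf.C 3 6)) (Pf.C 3 518)) (Pf.C 3 7)) (Pf.C 3 519)) (Pf.C 4 264)) (Pf.C 4 648)))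
 (Pq.cons (Pq.L [] 23 (Pf.B 8 5 (Pf.B 8 2 (Pf.B 7 3 (Pf.B 7 1 (Pf.B 7 0 (Pf.B 6 3 (Pf.B 6 1 (Pf.B 6 0 (Pf.B 5 2 (Pf.B 4 1 (Pf.B 4 0 (Pf.B 3 1 (Pf.B 3 0 (Pf.B 8 3 (Pf.B 8 1 (Pf.B 8 0 (Pf.B 5 1 (Pf.B 5 0 (Pf.B 3 2 (Pf.C 17 0x10400283) (Pf.W 150 3 [] [2,5] (Pf.cons (Pf.B 9 5 (Pf.C 28 649) (Pf.B 9 2 (Pf.C 28 265) (Pf.C 0 0xa0c482))) Pf.nil))) (Pf.W 150 0 [] [2,5] (Pf.cons (Pf.B 9 5 (Pf.C 28 649) (Pf.B 9 2 (Pf.C 28 265) (Pf.C 0 0xa00482))) Pf.nil))) (Pf.W 150 1 [] [2,5] (Pf.cons (Pf.B 9 5 (Pf.C 28 649) (Pf.B 9 2 (Pf.C 28 265) (Pf.C 0 0xa04482))) Pf.nil))) (Pf.B 5 0 (Pf.W 150 0 [] [2,8] (Pf.cons (Pf.B 9 8 (Pf.C 28 1033) (Pf.B 9 2 (Pf.C 28 265) (Pf.C 0 0x1000482))) Pf.nil)) (Pf.W 150 0 [] [5,8]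 (Pf.cons (Pf.B 9 8 (Pf.C 28 1033) (Pf.B 9 5 (Pf.C 28 649) (Pf.C 0 0x1000485))) Pf.nil)))) (Pf.B 5 1 (Pf.W 150 1 [] [2,8] (Pf.cons (Pf.B 9 8 (Pf.C 28 1033) (Pf.B 9 2 (Pf.C 28 265) (Pf.C 0 0x1004482))) Pf.nil)) (Pf.W 150 1 [] [5,8] (Pf.cons (Pf.B 9 8 (Pf.C 28 1033) (Pf.B 9 5 (Pf.C 28 649) (Pf.C 0 0x1004485))) Pf.nil)))) (Pf.W 150 3 [] [5,8] (Pf.cons (Pf.B 9 8 (Pf.C 28 1033) (Pf.B 9 5 (Pf.C 28 649) (Pf.C 0 0x100c485))) Pf.nil))) (Pf.C 3 3)) (Pf.C 3 131)) (Pf.C 3 4)) (Pf.C 3 132)) (Pf.C 5 261)) (Pf.C 3 6)) (Pf.C 3 134)) (Pf.C 3 390)) (Pf.C 3 7)) (Pf.C 3 135)) (Pf.C 3 391)) (Pf.C 5 264)) (Pf.C 5 648)))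
 (Pq.cons (Pq.L [] 23 (Pf.B 8 5 (Pf.B 8 2 (Pf.B 7 3 (Pf.B 7 1 (Pf.B 7 0 (Pf.B 6 3 (Pf.B 6 1 (Pf.B 6 0 (Pf.B 5 2 (Pf.B 4 1 (Pf.B 4 0 (Pf.B 3 1 (Pf.B 3 0 (Pf.B 8 3 (Pf.B 8 1 (Pf.B 8 0 (Pf.B 5 1 (Pf.B 5 0 (Pf.B 3 2 (Pf.C 17 0x10400283) (Pf.W 150 3 [] [2,5] (Pf.cons (Pf.B 9 5 (Pf.C 28 649) (Pf.B 9 2 (Pf.C 28 265) (Pf.C 0 0xa0c482))) Pf.nil))) (Pf.W 150 0 [] [2,5] (Pf.cons (Pf.B 9 5 (Pf.C 28 649) (Pf.B 9 2 (Pf.C 28 265) (Pf.C 0 0xa00482))) Pf.nil))) (Pf.W 150 1 [] [2,5] (Pf.cons (Pf.B 9 5 (Pf.C 28 649) (Pf.B 9 2 (Pf.C 28 265) (Pf.C 0 0xa04482))) Pf.nil))) (Pf.B 5 0 (Pf.W 150 0 [] [2,8] (Pf.cons (Pf.B 9 8 (Pf.C 28 1033) (Pf.B 9 2 (Pf.C 28 265) (Pf.C 0 0x1000482))) Pf.nil)) (Pf.W 150 0 [] [5,8]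 (Pf.cons (Pf.B 9 8 (Pf.C 28 1033) (Pf.B 9 5 (Pf.C 28 649) (Pf.C 0 0x1000485))) Pf.nil)))) (Pf.B 5 1 (Pf.W 150 1 [] [2,8] (Pf.cons (Pf.B 9 8 (Pf.C 28 1033) (Pf.B 9 2 (Pf.C 28 265) (Pf.C 0 0x1004482))) Pf.nil)) (Pf.W 150 1 [] [5,8] (Pf.cons (Pf.B 9 8 (Pf.C 28 1033) (Pf.B 9 5 (Pf.C 28 649) (Pf.C 0 0x1004485))) Pf.nil)))) (Pf.W 150 3 [] [5,8] (Pf.cons (Pf.B 9 8 (Pf.C 28 1033) (Pf.B 9 5 (Pf.C 28 649) (Pf.C 0 0x100c485))) Pf.nil))) (Pf.C 3 3)) (Pf.C 3 131)) (Pf.C 3 4)) (Pf.C 3 132)) (Pf.C 5 261)) (Pf.C 3 6)) (Pf.C 3 134)) (Pf.C 3 390)) (Pf.C 3 7)) (Pf.C 3 135)) (Pf.C 3 391)) (Pf.C 5 264)) (Pf.C 5 648)))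
 (Pq.cons (Pq.L [] 450 (Pf.B 8 2 (Pf.B 7 2 (Pf.B 6 0 (Pf.B 3 0 (Pf.B 8 0 (Pf.W 150 0 [] [6,7,8] (Pf.cons (Pf.B 9 8 (Pf.C 58 0x20009) (Pf.B 9 7 (Pf.B 9 6 (Pf.C 59 0x20309) (Pf.C 58 0x1c309)) (Pf.C 60 0x20389))) Pf.nil)) (Pf.B 7 0 (Pf.W 150 0 [] [6,7,8] (Pf.cons (Pf.B 9 7 (Pf.C 58 0x1c009) (Pf.B 9 8 (Pf.B 9 6 (Pf.C 59 0x1c309) (Pf.C 58 0x20309)) (Pf.C 60 0x1c409))) Pf.nil)) (Pf.B 6 2 (Pf.W 150 0 [] [2,6,7] (Pf.cons (Pf.B 9 2 (Pf.C 58 32777) (Pf.B 9 7 (Pf.B 9 6 (Pf.C 59 33545) (Pf.C 58 0x1c309)) (Pf.C 60 33673))) Pf.nil)) (Pf.C 16 0x8001c106)))) (Pf.C 3 3)) (Pf.C 3 6)) (Pf.C 4 263)) (Pf.C 4 264)))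
 (Pq.cons (Pq.L [] 59 (Pf.B 5 2 (Pf.B 4 1 (Pf.B 3 0 (Pf.B 5 1 (Pf.B 5 0 (Pf.C 6 82048) (Pf.W 150 0 [] [2,5] (Pf.cons (Pf.B 6 5 (Pf.C 28 646) (Pf.B 6 2 (Pf.C 28 262) (Pf.C 0 0xa00302))) Pf.nil))) (Pf.B 5 0 (Pf.B 4 0 (Pf.C 6 82432) (Pf.B 4 2 (Pf.B 3 1 (Pf.W 150 0 [] [1,2,3,4] (Pf.cons (Pf.B 6 2 (Pf.C 28 262) (Pf.B 6 4 (Pf.B 6 3 (Pf.B 6 1 (Pf.C 58 16390) (Pf.C 59 16774)) (Pf.C 58 65926)) (Pf.C 0 0x400304))) Pf.nil)) (Pf.W 150 0 [] [1,2,3,4,5] (Pf.cons (Pf.B 6 5 (Pf.C 28 646) (Pf.B 6 2 (Pf.C 28 262) (Pf.B 6 4 (Pf.B 6 3 (Pf.B 6 1 (Pf.C 58 16390) (Pf.C 0 0x614086)) (Pf.C 58 65926)) (Pf.C 0 0x400304)))) Pf.nil))) (Pf.W 150 0 [] [1,2,4] (Pf.cons (Pf.B 6 2 (Pf.C 28 262) (Pf.B 6 4 (Pf.C 0 0x808006)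 (Pf.B 6 1 (Pf.C 58 16390) (Pf.C 60 65670)))) Pf.nil)))) (Pf.W 150 0 [] [2,5] (Pf.cons (Pf.B 6 5 (Pf.C 28 646) (Pf.B 6 2 (Pf.C 28 262) (Pf.C 0 0xa00302))) Pf.nil)))) (Pf.C 3 3)) (Pf.C 4 132)) (Pf.C 5 261)))
 (Pq.cons (Pq.L [] 39 (Pf.B 5 2 (Pf.B 4 1 (Pf.B 3 0 (Pf.B 5 1 (Pf.B 5 0 (Pf.C 6 82048) (Pf.B 4 2 (Pf.B 4 0 (Pf.C 6 33280) (Pf.W 150 0 [] [1,4,5] (Pf.cons (Pf.B 6 5 (Pf.C 28 646) (Pf.B 6 4 (Pf.C 0 0x814006) (Pf.B 6 1 (Pf.C 58 16390) (Pf.C 60 65670)))) Pf.nil))) (Pf.B 4 0 (Pf.W 150 0 [] [4,5] (Pf.cons (Pf.B 6 5 (Pf.C 28 646) (Pf.B 6 4 (Pf.C 58 65542) (Pf.C 0 82692))) Pf.nil)) (Pf.W 150 0 [] [2,4,5] (Pf.cons (Pf.B 6 5 (Pf.C 28 646) (Pf.B 6 4 (Pf.C 0 0x814006) (Pf.B 6 2 (Pf.C 28 262) (Pf.C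 0 66306)))) Pf.nil))))) (Pf.B 5 0 (Pf.W 150 0 [] [1,2,5] (Pf.cons (Pf.B 6 5 (Pf.C 28 646) (Pf.B 6 2 (Pf.C 28 262) (Pf.B 6 1 (Pf.C 58 16390) (Pf.C 0 0xa04302)))) Pf.nil)) (Pf.B 4 2 (Pf.B 4 0 (Pf.C 6 33280) (Pf.W 150 0 [] [1,4,5] (Pf.cons (Pf.B 6 5 (Pf.C 28 646) (Pf.B 6 4 (Pf.C 0 0x814006) (Pf.B 6 1 (Pf.C 58 16390) (Pf.C 60 65670)))) Pf.nil))) (Pf.B 4 0 (Pf.W 150 0 [] [4,5] (Pf.cons (Pf.B 6 5 (Pf.C 28 646) (Pf.B 6 4 (Pf.C 58 65542) (Pf.C 0 82692))) Pf.nil)) (Pf.W 150 0 [] [2,4,5] (Pf.cons (Pf.B 6 5 (Pf.C 28 646) (Pf.B 6 4 (Pf.C 0 0x814006) (Pf.B 6 2 (Pf.C 28 262) (Pf.C 0 66306)))) Pf.nil)))))) (Pf.C 3 3)) (Pf.C 4 132)) (Pf.C 5 261)))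
 (Pq.cons (Pq.L [] 3 (Pf.B 5 2 (Pf.B 5 1 (Pf.B 5 0 (Pf.C 6 82048) (Pf.B 3 0 (Pf.W 150 0 [] [2,5] (Pf.cons (Pf.B 6 5 (Pf.C 28 646) (Pf.B 6 2 (Pf.C 28 262) (Pf.C 0 0xa00302))) Pf.nil)) (Pf.C 3 3))) (Pf.C 157 133)) (Pf.C 5 261)))
 (Pq.cons (Pq.L [] 5 (Pf.B 5 2 (Pf.B 5 0 (Pf.B 5 1 (Pf.C 6 82048) (Pf.B 3 0 (Pf.W 150 0 [] [1,2,5] (Pf.cons (Pf.B 6 5 (Pf.C 28 646) (Pf.B 6 2 (Pf.C 28 262) (Pf.B 6 1 (Pf.C 58 16390) (Pf.C 0 0xa04302)))) Pf.nil)) (Pf.C 3 3))) (Pf.C 156 5)) (Pf.C 5 261)))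
 (Pq.cons (Pq.L [] 23 (Pf.B 8 5 (Pf.B 8 2 (Pf.B 7 3 (Pf.B 7 1 (Pf.B 7 0 (Pf.B 6 3 (Pf.B 6 1 (Pf.B 6 0 (Pf.B 5 2 (Pf.B 4 1 (Pf.B 4 0 (Pf.B 3 1 (Pf.B 3 0 (Pf.B 8 3 (Pf.B 8 1 (Pf.B 8 0 (Pf.B 5 1 (Pf.B 5 0 (Pf.B 3 2 (Pf.C 18 0x10400283) (Pf.W 152 3 [] [2,5] (Pf.cons (Pf.B 9 5 (Pf.C 28 649) (Pf.B 9 2 (Pf.C 28 265) (Pf.C 0 0xa0c482))) Pf.nil))) (Pf.W 152 0 [] [2,5] (Pf.cons (Pf.B 9 5 (Pf.C 28 649) (Pf.B 9 2 (Pf.C 28 265) (Pf.C 0 0xa00482))) Pf.nil))) (Pf.W 152 1 [] [2,5] (Pf.cons (Pf.B 9 5 (Pf.C 28 649) (Pf.B 9 2 (Pf.C 28 265) (Pf.C 0 0xa04482))) Pf.nil))) (Pf.B 5 0 (Pf.W 152 0 [] [2,8] (Pf.cons (Pf.B 9 8 (Pf.C 28 1033) (Pf.B 9 2 (Pf.C 28 265) (Pf.C 0 0x1000482))) Pf.nil)) (Pf.W 152 0 [] [5,8]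 (Pf.cons (Pf.B 9 8 (Pf.C 28 1033) (Pf.B 9 5 (Pf.C 28 649) (Pf.C 0 0x1000485))) Pf.nil)))) (Pf.B 5 1 (Pf.W 152 1 [] [2,8] (Pf.cons (Pf.B 9 8 (Pf.C 28 1033) (Pf.B 9 2 (Pf.C 28 265) (Pf.C 0 0x1004482))) Pf.nil)) (Pf.W 152 1 [] [5,8] (Pf.cons (Pf.B 9 8 (Pf.C 28 1033) (Pf.B 9 5 (Pf.C 28 649) (Pf.C 0 0x1004485))) Pf.nil)))) (Pf.W 152 3 [] [5,8] (Pf.cons (Pf.B 9 8 (Pf.C 28 1033) (Pf.B 9 5 (Pf.C 28 649) (Pf.C 0 0x100c485))) Pf.nil))) (Pf.C 4 3)) (Pf.C 4 131)) (Pf.C 4 4)) (Pf.C 4 132)) (Pf.C 5 261)) (Pf.C 4 6)) (Pf.C 4 134)) (Pf.C 4 390)) (Pf.C 4 7)) (Pf.C 4 135)) (Pf.C 4 391)) (Pf.C 5 264)) (Pf.C 5 648)))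
 (Pq.cons (Pq.L [] 23 (Pf.B 8 5 (Pf.B 8 2 (Pf.B 7 3 (Pf.B 7 1 (Pf.B 7 0 (Pf.B 6 3 (Pf.B 6 1 (Pf.B 6 0 (Pf.B 5 2 (Pf.B 4 1 (Pf.B 4 0 (Pf.B 3 1 (Pf.B 3 0 (Pf.B 8 3 (Pf.B 8 1 (Pf.B 8 0 (Pf.B 5 1 (Pf.B 5 0 (Pf.B 3 2 (Pf.C 18 0x10400283) (Pf.W 152 3 [] [2,5] (Pf.cons (Pf.B 9 5 (Pf.C 28 649) (Pf.B 9 2 (Pf.C 28 265) (Pf.C 0 0xa0c482))) Pf.nil))) (Pf.W 152 0 [] [2,5] (Pf.cons (Pf.B 9 5 (Pf.C 28 649) (Pf.B 9 2 (Pf.C 28 265) (Pf.C 0 0xa00482))) Pf.nil))) (Pf.W 152 1 [] [2,5] (Pf.cons (Pf.B 9 5 (Pf.C 28 649) (Pf.B 9 2 (Pf.C 28 265) (Pf.C 0 0xa04482))) Pf.nil))) (Pf.B 5 0 (Pf.W 152 0 [] [2,8] (Pf.cons (Pf.B 9 8 (Pf.C 28 1033) (Pf.B 9 2 (Pf.C 28 265) (Pf.C 0 0x1000482))) Pf.nil)) (Pf.W 152 0 [] [5,8]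 (Pf.cons (Pf.B 9 8 (Pf.C 28 1033) (Pf.B 9 5 (Pf.C 28 649) (Pf.C 0 0x1000485))) Pf.nil)))) (Pf.B 5 1 (Pf.W 152 1 [] [2,8] (Pf.cons (Pf.B 9 8 (Pf.C 28 1033) (Pf.B 9 2 (Pf.C 28 265) (Pf.C 0 0x1004482))) Pf.nil)) (Pf.W 152 1 [] [5,8] (Pf.cons (Pf.B 9 8 (Pf.C 28 1033) (Pf.B 9 5 (Pf.C 28 649) (Pf.C 0 0x1004485))) Pf.nil)))) (Pf.W 152 3 [] [5,8] (Pf.cons (Pf.B 9 8 (Pf.C 28 1033) (Pf.B 9 5 (Pf.C 28 649) (Pf.C 0 0x100c485))) Pf.nil))) (Pf.C 4 3)) (Pf.C 4 131)) (Pf.C 4 4)) (Pf.C 4 132)) (Pf.C 5 261)) (Pf.C 4 6)) (Pf.C 4 134)) (Pf.C 4 390)) (Pf.C 4 7)) (Pf.C 4 135)) (Pf.C 4 391)) (Pf.C 5 264)) (Pf.C 5 648)))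
 Pq.nil))))))))))
theorem e3_o42 : AllRef e3_T e3_G69 (hitObl [91,93,99,100,101] e3_h106) :=
  chkPq_sound e3_o42c _ (by decide +kernel)
noncomputable def e3_o43c : Pq := (Pq.cons (Pq.D 0 (Pq.cons (Pq.D 1 (Pq.cons (Pq.L [] 1 (Pf.C 2 128))
 (Pq.cons (Pq.D 2 (Pq.cons (Pq.L [] 2 (Pf.C 2 256))
 (Pq.cons (Pq.L [] 3 (Pf.B 2 1 (Pf.B 3 2 (Pf.B 3 1 (Pf.B 3 0 (Pf.W 21 0 [] [1,2] (Pf.cons (Pf.B 4 2 (Pf.B 4 1 (Pf.C 7 0x400084) (Pf.C 3 132)) (Pf.C 3 260)) Pf.nil)) (Pf.W 21 0 [] [1,2] (Pf.cons (Pf.B 4 2 (Pf.B 4 1 (Pf.C 7 0x400084) (Pf.C 3 132)) (Pf.C 3 260)) Pf.nil))) (Pf.W 21 0 [] [1,2] (Pf.cons (Pf.B 4 2 (Pf.B 4 1 (Pf.C 7 0x400084) (Pf.C 3 132)) (Pf.C 3 260)) Pf.nil))) (Pf.W 21 0 [] [1,2] (Pf.cons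 (Pf.B 4 2 (Pf.B 4 1 (Pf.C 7 0x400084) (Pf.C 3 132)) (Pf.C 3 260)) Pf.nil))) (Pf.C 3 130)))
 (Pq.cons (Pq.D 3 (Pq.cons (Pq.L [] 4 (Pf.C 2 384))
 (Pq.cons (Pq.L [] 5 (Pf.B 3 1 (Pf.W 21 0 [] [1,3] (Pf.cons (Pf.B 4 3 (Pf.B 4 1 (Pf.C 7 0x600084) (Pf.C 3 132)) (Pf.C 3 388)) Pf.nil)) (Pf.C 3 131)))
 (Pq.cons (Pq.L [] 6 (Pf.B 3 2 (Pf.C 60 33152) (Pf.C 4 259)))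
 (Pq.cons (Pq.L [] 4 (Pf.C 28 384))
 (Pq.cons (Pq.L [] 4 (Pf.C 28 384))
 (Pq.cons (Pq.L [] 4 (Pf.C 28 384))
 Pq.nil))))))) (Pq.cons (Pq.L [] 2 (Pf.C 28 256))
 (Pq.cons (Pq.L [] 2 (Pf.C 28 256))
 (Pq.cons (Pq.L [] 2 (Pf.C 28 256))
 Pq.nil))))))) (Pq.cons (Pq.D 2 (Pq.cons (Pq.L [] 2 (Pf.C 2 256))
 (Pq.cons (Pq.D 3 (Pq.cons (Pq.L [] 4 (Pf.C 2 384))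
 (Pq.cons (Pq.L [] 6 (Pf.B 3 2 (Pf.W 21 0 [] [2,3] (Pf.cons (Pf.B 4 3 (Pf.B 4 2 (Pf.C 7 0x600104) (Pf.C 3 260)) (Pf.C 3 388)) Pf.nil)) (Pf.C 3 259)))
 (Pq.cons (Pq.L [] 5 (Pf.B 3 1 (Pf.C 60 16768) (Pf.C 4 131)))
 (Pq.cons (Pq.L [] 4 (Pf.C 28 384))
 (Pq.cons (Pq.L [] 4 (Pf.C 28 384))
 (Pq.cons (Pq.L [] 4 (Pf.C 28 384))
 Pq.nil))))))) (Pq.cons (Pq.L [] 3 (Pf.B 2 1 (Pf.C 60 16640) (Pf.C 4 130)))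
 (Pq.cons (Pq.L [] 2 (Pf.C 28 256))
 (Pq.cons (Pq.L [] 2 (Pf.C 28 256))
 (Pq.cons (Pq.L [] 2 (Pf.C 28 256))
 Pq.nil))))))) (Pq.cons (Pq.L [] 1 (Pf.C 28 128))
 (Pq.cons (Pq.L [] 1 (Pf.C 28 128))
 (Pq.cons (Pq.L [] 1 (Pf.C 28 128))
 Pq.nil))))))) (Pq.cons (Pq.D 1 (Pq.cons (Pq.D 2 (Pq.cons (Pq.D 3 (Pq.cons (Pq.L [] 7 (Pf.B 3 2 (Pf.B 3 1 (Pf.B 2 1 (Pf.W 21 1 [] [0,2,3] (Pf.cons (Pf.B 4 0 (Pf.B 4 3 (Pf.C 7 0x200184) (Pf.B 4 2 (Pf.C 7 0x200104) (Pf.C 7 0x610101))) (Pf.C 3 4)) Pf.nil)) (Pf.C 2 130)) (Pf.C 2 131)) (Pf.C 2 259)))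
 (Pq.cons (Pq.L [] 4 (Pf.C 3 384))
 (Pq.cons (Pq.L [] 7 (Pf.B 3 2 (Pf.C 58 49154) (Pf.B 3 1 (Pf.C 58 49153) (Pf.B 2 1 (Pf.W 21 1 [] [0,2] (Pf.cons (Pf.B 4 0 (Pf.B 4 2 (Pf.C 7 0x200104) (Pf.W 21 2 [] [0,4] (Pf.cons (Pf.B 5 4 (Pf.B 5 0 (Pf.C 7 0x808005) (Pf.C 3 5)) (Pf.C 3 517)) Pf.nil))) (Pf.C 3 4)) Pf.nil)) (Pf.C 2 130)))))
 (Pq.cons (Pq.L [] 7 (Pf.B 3 2 (Pf.C 28 386) (Pf.B 3 1 (Pf.C 28 385) (Pf.B 2 1 (Pf.C 0 0x20c002) (Pf.C 2 130)))))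
 (Pq.cons (Pq.L [] 7 (Pf.B 3 2 (Pf.C 28 386) (Pf.B 3 1 (Pf.C 28 385) (Pf.B 2 1 (Pf.C 0 0x20c002) (Pf.C 2 130)))))
 (Pq.cons (Pq.L [] 4 (Pf.C 156 3))
 Pq.nil))))))) (Pq.cons (Pq.L [] 2 (Pf.C 3 256))
 (Pq.cons (Pq.D 3 (Pq.cons (Pq.L [] 7 (Pf.B 3 2 (Pf.C 58 32771) (Pf.B 3 1 (Pf.B 2 1 (Pf.C 58 32769) (Pf.W 21 1 [] [0,3] (Pf.cons (Pf.B 4 0 (Pf.B 4 3 (Pf.C 7 0x200184) (Pf.W 21 3 [] [0,4] (Pf.cons (Pf.B 5 4 (Pf.B 5 0 (Pf.C 7 0x80c005) (Pf.C 3 5)) (Pf.C 3 517)) Pf.nil))) (Pf.C 3 4)) Pf.nil))) (Pf.C 2 131))))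
 (Pq.cons (Pq.L [] 4 (Pf.C 3 384))
 (Pq.cons (Pq.L [] 6 (Pf.B 3 2 (Pf.C 163 33152) (Pf.C 4 259)))
 (Pq.cons (Pq.L [] 7 (Pf.B 3 2 (Pf.C 164 49408) (Pf.B 3 1 (Pf.C 28 385) (Pf.B 2 1 (Pf.C 58 32769) (Pf.C 0 49282)))))
 (Pq.cons (Pq.L [] 6 (Pf.B 3 2 (Pf.C 166 49408) (Pf.C 157 259)))
 (Pq.cons (Pq.L [] 4 (Pf.C 156 3))
 Pq.nil))))))) (Pq.cons (Pq.D 3 (Pq.cons (Pq.L [] 7 (Pf.B 3 2 (Pf.C 28 259) (Pf.B 3 1 (Pf.B 2 1 (Pf.C 28 257) (Pf.C 0 0x600101)) (Pf.C 2 131))))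
 (Pq.cons (Pq.L [] 4 (Pf.C 3 384))
 (Pq.cons (Pq.L [] 7 (Pf.B 3 2 (Pf.C 164 33152) (Pf.B 3 1 (Pf.C 58 49153) (Pf.B 2 1 (Pf.C 28 257) (Pf.C 0 0x604100)))))
 (Pq.cons (Pq.L [] 7 (Pf.B 3 2 (Pf.B 3 1 (Pf.C 28 385) (Pf.B 2 1 (Pf.C 28 257) (Pf.C 0 0x600082))) (Pf.C 5 259)))
 (Pq.cons (Pq.L [] 7 (Pf.B 3 2 (Pf.B 3 1 (Pf.C 28 385) (Pf.B 2 1 (Pf.C 28 257) (Pf.C 0 0x600082))) (Pf.C 5 259)))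
 (Pq.cons (Pq.L [] 4 (Pf.C 156 3))
 Pq.nil))))))) (Pq.cons (Pq.D 3 (Pq.cons (Pq.L [] 7 (Pf.B 3 2 (Pf.C 28 259) (Pf.B 3 1 (Pf.B 2 1 (Pf.C 28 257) (Pf.C 0 0x600101)) (Pf.C 2 131))))
 (Pq.cons (Pq.L [] 4 (Pf.C 3 384))
 (Pq.cons (Pq.L [] 6 (Pf.B 3 2 (Pf.C 166 33152) (Pf.C 157 386)))
 (Pq.cons (Pq.L [] 7 (Pf.B 3 2 (Pf.B 3 1 (Pf.C 28 385) (Pf.B 2 1 (Pf.C 28 257) (Pf.C 0 0x600082))) (Pf.C 5 259)))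
 (Pq.cons (Pq.L [] 7 (Pf.B 3 2 (Pf.B 3 1 (Pf.C 28 385) (Pf.B 2 1 (Pf.C 28 257) (Pf.C 0 0x600082))) (Pf.C 5 259)))
 (Pq.cons (Pq.L [] 4 (Pf.C 156 3))
 Pq.nil))))))) (Pq.cons (Pq.L [] 2 (Pf.C 156 2))
 Pq.nil))))))) (Pq.cons (Pq.L [] 1 (Pf.C 3 128))
 (Pq.cons (Pq.D 2 (Pq.cons (Pq.D 3 (Pq.cons (Pq.L [] 7 (Pf.B 3 2 (Pf.B 3 1 (Pf.C 58 16387) (Pf.B 2 1 (Pf.C 58 16386) (Pf.W 21 2 [] [0,3] (Pf.cons (Pf.B 4 0 (Pf.B 4 3 (Pf.C 7 0x400184) (Pf.W 21 3 [] [0,4] (Pf.cons (Pf.B 5 4 (Pf.B 5 0 (Pf.C 7 0x80c005) (Pf.C 3 5)) (Pf.C 3 517)) Pf.nil))) (Pf.C 3 4)) Pf.nil)))) (Pf.C 2 259)))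
 (Pq.cons (Pq.L [] 4 (Pf.C 3 384))
 (Pq.cons (Pq.L [] 5 (Pf.B 3 1 (Pf.C 163 16768) (Pf.C 4 131)))
 (Pq.cons (Pq.L [] 7 (Pf.B 3 2 (Pf.C 28 386) (Pf.B 3 1 (Pf.C 164 49280) (Pf.B 2 1 (Pf.C 58 16386) (Pf.C 0 49409)))))
 (Pq.cons (Pq.L [] 5 (Pf.B 3 1 (Pf.C 166 49280) (Pf.C 157 131)))
 (Pq.cons (Pq.L [] 4 (Pf.C 156 3))
 Pq.nil))))))) (Pq.cons (Pq.L [] 2 (Pf.C 3 256))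
 (Pq.cons (Pq.L [] 3 (Pf.B 2 1 (Pf.C 163 16640) (Pf.C 4 130)))
 (Pq.cons (Pq.L [] 7 (Pf.B 2 1 (Pf.C 164 32896) (Pf.B 3 2 (Pf.W 150 0 [] [1,2] (Pf.cons (Pf.B 4 2 (Pf.C 28 260) (Pf.B 4 1 (Pf.C 58 16388) (Pf.C 0 33281))) Pf.nil)) (Pf.B 3 1 (Pf.B 3 0 (Pf.W 150 0 [] [1,2] (Pf.cons (Pf.B 4 2 (Pf.C 28 260) (Pf.B 4 1 (Pf.C 58 16388) (Pf.C 0 33281))) Pf.nil)) (Pf.W 150 0 [] [1,2] (Pf.cons (Pf.B 4 2 (Pf.C 28 260) (Pf.B 4 1 (Pf.C 58 16388) (Pf.C 0 33281))) Pf.nil))) (Pf.B 3 0 (Pf.W 150 0 [] [1,2,3] (Pf.cons (Pf.B 4 2 (Pf.C 28 260) (Pf.B 4 3 (Pf.B 4 1 (Pf.C 58 16388) (Pf.C 0 0x608084)) (Pf.C 0 33283))) Pf.nil)) (Pf.C 0 0x208180))))))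
 (Pq.cons (Pq.L [] 3 (Pf.B 2 1 (Pf.C 166 32896) (Pf.C 157 130)))
 (Pq.cons (Pq.L [] 2 (Pf.C 156 2))
 Pq.nil))))))) (Pq.cons (Pq.D 2 (Pq.cons (Pq.D 3 (Pq.cons (Pq.L [] 7 (Pf.B 3 2 (Pf.B 3 1 (Pf.C 28 131) (Pf.B 2 1 (Pf.C 28 130) (Pf.C 0 0x600082))) (Pf.C 2 259)))
 (Pq.cons (Pq.L [] 4 (Pf.C 3 384))
 (Pq.cons (Pq.L [] 7 (Pf.B 3 2 (Pf.C 58 49154) (Pf.B 3 1 (Pf.C 164 16768) (Pf.B 2 1 (Pf.C 28 130) (Pf.C 0 0x604100)))))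
 (Pq.cons (Pq.L [] 7 (Pf.B 3 2 (Pf.C 28 386) (Pf.B 3 1 (Pf.B 2 1 (Pf.C 28 130) (Pf.C 0 0x600101)) (Pf.C 5 131))))
 (Pq.cons (Pq.L [] 7 (Pf.B 3 2 (Pf.C 28 386) (Pf.B 3 1 (Pf.B 2 1 (Pf.C 28 130) (Pf.C 0 0x600101)) (Pf.C 5 131))))
 (Pq.cons (Pq.L [] 4 (Pf.C 156 3))
 Pq.nil))))))) (Pq.cons (Pq.L [] 2 (Pf.C 3 256))
 (Pq.cons (Pq.L [] 7 (Pf.B 2 1 (Pf.C 164 16640) (Pf.B 3 2 (Pf.B 3 0 (Pf.W 150 0 [] [1,2] (Pf.cons (Pf.B 4 2 (Pf.C 58 32772) (Pf.B 4 1 (Pf.C 28 132) (Pf.C 0 0x404200))) Pf.nil)) (Pf.W 150 0 [] [1,2] (Pf.cons (Pf.B 4 2 (Pf.C 58 32772) (Pf.B 4 1 (Pf.C 28 132) (Pf.C 0 0x404200))) Pf.nil))) (Pf.B 3 1 (Pf.W 150 0 [] [1,2] (Pf.cons (Pf.B 4 2 (Pf.C 58 32772) (Pf.B 4 1 (Pf.C 28 132) (Pf.C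 0 0x404200))) Pf.nil)) (Pf.B 3 0 (Pf.W 150 0 [] [1,2] (Pf.cons (Pf.B 4 2 (Pf.C 58 32772) (Pf.B 4 1 (Pf.C 28 132) (Pf.C 0 0x404200))) Pf.nil)) (Pf.C 0 0x404180))))))
 (Pq.cons (Pq.L [] 7 (Pf.B 2 1 (Pf.B 3 2 (Pf.B 3 1 (Pf.W 150 0 [] [1,2] (Pf.cons (Pf.B 4 2 (Pf.C 28 260) (Pf.B 4 1 (Pf.C 28 132) (Pf.C 0 0x400201))) Pf.nil)) (Pf.B 3 0 (Pf.W 150 0 [] [1,2] (Pf.cons (Pf.B 4 2 (Pf.C 28 260) (Pf.B 4 1 (Pf.C 28 132) (Pf.C 0 0x400201))) Pf.nil)) (Pf.W 150 0 [] [1,2,3] (Pf.cons (Pf.C 28 259) (Pf.cons (Pf.B 4 2 (Pf.C 28 260) (Pf.B 4 3 (Pf.B 4 1 (Pf.C 28 132) (Pf.C 0 0x600084)) (Pf.C 0 0x400203))) Pf.nil))))) (Pf.B 3 1 (Pf.W 150 0 [] [1,2] (Pf.cons (Pf.B 4 2 (Pf.C 28 260) (Pf.B 4 1 (Pf.C 28 132) (Pf.C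 0 0x400201))) Pf.nil)) (Pf.B 3 0 (Pf.W 150 0 [] [1,2] (Pf.cons (Pf.B 4 2 (Pf.C 28 260) (Pf.B 4 1 (Pf.C 28 132) (Pf.C 0 0x400201))) Pf.nil)) (Pf.C 0 0x400181)))) (Pf.C 5 130)))
 (Pq.cons (Pq.L [] 7 (Pf.B 2 1 (Pf.B 3 2 (Pf.B 3 1 (Pf.W 150 0 [] [1,2] (Pf.cons (Pf.B 4 2 (Pf.C 28 260) (Pf.B 4 1 (Pf.C 28 132) (Pf.C 0 0x400201))) Pf.nil)) (Pf.B 3 0 (Pf.W 150 0 [] [1,2] (Pf.cons (Pf.B 4 2 (Pf.C 28 260) (Pf.B 4 1 (Pf.C 28 132) (Pf.C 0 0x400201))) Pf.nil)) (Pf.W 150 0 [] [1,2,3] (Pf.cons (Pf.C 28 259) (Pf.cons (Pf.B 4 2 (Pf.C 28 260) (Pf.B 4 3 (Pf.B 4 1 (Pf.C 28 132) (Pf.C 0 0x600084)) (Pf.C 0 0x400203))) Pf.nil))))) (Pf.B 3 1 (Pf.W 150 0 [] [1,2] (Pf.cons (Pf.B 4 2 (Pf.C 28 260) (Pf.B 4 1 (Pf.C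 28 132) (Pf.C 0 0x400201))) Pf.nil)) (Pf.B 3 0 (Pf.W 150 0 [] [1,2] (Pf.cons (Pf.B 4 2 (Pf.C 28 260) (Pf.B 4 1 (Pf.C 28 132) (Pf.C 0 0x400201))) Pf.nil)) (Pf.C 0 0x400181)))) (Pf.C 5 130)))
 (Pq.cons (Pq.L [] 2 (Pf.C 156 2))
 Pq.nil))))))) (Pq.cons (Pq.D 2 (Pq.cons (Pq.D 3 (Pq.cons (Pq.L [] 7 (Pf.B 3 2 (Pf.B 3 1 (Pf.C 28 131) (Pf.B 2 1 (Pf.C 28 130) (Pf.C 0 0x600082))) (Pf.C 2 259)))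
 (Pq.cons (Pq.L [] 4 (Pf.C 3 384))
 (Pq.cons (Pq.L [] 5 (Pf.B 3 1 (Pf.C 166 16768) (Pf.C 157 385)))
 (Pq.cons (Pq.L [] 7 (Pf.B 3 2 (Pf.C 28 386) (Pf.B 3 1 (Pf.B 2 1 (Pf.C 28 130) (Pf.C 0 0x600101)) (Pf.C 5 131))))
 (Pq.cons (Pq.L [] 7 (Pf.B 3 2 (Pf.C 28 386) (Pf.B 3 1 (Pf.B 2 1 (Pf.C 28 130) (Pf.C 0 0x600101)) (Pf.C 5 131))))
 (Pq.cons (Pq.L [] 4 (Pf.C 156 3))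
 Pq.nil))))))) (Pq.cons (Pq.L [] 2 (Pf.C 3 256))
 (Pq.cons (Pq.L [] 3 (Pf.B 2 1 (Pf.C 166 16640) (Pf.C 157 257)))
 (Pq.cons (Pq.L [] 7 (Pf.B 2 1 (Pf.B 3 2 (Pf.B 3 1 (Pf.W 150 0 [] [1,2] (Pf.cons (Pf.B 4 2 (Pf.C 28 260) (Pf.B 4 1 (Pf.C 28 132) (Pf.C 0 0x400201))) Pf.nil)) (Pf.B 3 0 (Pf.W 150 0 [] [1,2] (Pf.cons (Pf.B 4 2 (Pf.C 28 260) (Pf.B 4 1 (Pf.C 28 132) (Pf.C 0 0x400201))) Pf.nil)) (Pf.W 150 0 [] [1,2,3] (Pf.cons (Pf.C 28 259) (Pf.cons (Pf.B 4 2 (Pf.C 28 260) (Pf.B 4 3 (Pf.B 4 1 (Pf.C 28 132) (Pf.C 0 0x600084)) (Pf.C 0 0x400203))) Pf.nil))))) (Pf.B 3 1 (Pf.W 150 0 [] [1,2] (Pf.cons (Pf.B 4 2 (Pf.C 28 260) (Pf.B 4 1 (Pf.C 28 132) (Pf.C 0 0x400201))) Pf.nil)) (Pf.B 3 0 (Pf.W 150 0 []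 [1,2] (Pf.cons (Pf.B 4 2 (Pf.C 28 260) (Pf.B 4 1 (Pf.C 28 132) (Pf.C 0 0x400201))) Pf.nil)) (Pf.C 0 0x400181)))) (Pf.C 5 130)))
 (Pq.cons (Pq.L [] 7 (Pf.B 2 1 (Pf.B 3 2 (Pf.B 3 1 (Pf.W 150 0 [] [1,2] (Pf.cons (Pf.B 4 2 (Pf.C 28 260) (Pf.B 4 1 (Pf.C 28 132) (Pf.C 0 0x400201))) Pf.nil)) (Pf.B 3 0 (Pf.W 150 0 [] [1,2] (Pf.cons (Pf.B 4 2 (Pf.C 28 260) (Pf.B 4 1 (Pf.C 28 132) (Pf.C 0 0x400201))) Pf.nil)) (Pf.W 150 0 [] [1,2,3] (Pf.cons (Pf.C 28 259) (Pf.cons (Pf.B 4 2 (Pf.C 28 260) (Pf.B 4 3 (Pf.B 4 1 (Pf.C 28 132) (Pf.C 0 0x600084)) (Pf.C 0 0x400203))) Pf.nil))))) (Pf.B 3 1 (Pf.W 150 0 [] [1,2] (Pf.cons (Pf.B 4 2 (Pf.C 28 260) (Pf.B 4 1 (Pf.C 28 132) (Pf.C 0 0x400201))) Pf.nil)) (Pf.B 3 0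 (Pf.W 150 0 [] [1,2] (Pf.cons (Pf.B 4 2 (Pf.C 28 260) (Pf.B 4 1 (Pf.C 28 132) (Pf.C 0 0x400201))) Pf.nil)) (Pf.C 0 0x400181)))) (Pf.C 5 130)))
 (Pq.cons (Pq.L [] 2 (Pf.C 156 2))
 Pq.nil))))))) (Pq.cons (Pq.L [] 1 (Pf.C 156 1))
 Pq.nil))))))) (Pq.cons (Pq.D 1 (Pq.cons (Pq.D 2 (Pq.cons (Pq.D 3 (Pq.cons (Pq.L [] 7 (Pf.B 3 2 (Pf.B 3 1 (Pf.B 2 1 (Pf.W 23 1 [] [0,2,3] (Pf.cons (Pf.B 4 0 (Pf.B 4 3 (Pf.C 8 0x200184) (Pf.B 4 2 (Pf.C 8 0x200104) (Pf.C 8 0x610101))) (Pf.C 4 4)) Pf.nil)) (Pf.C 2 130)) (Pf.C 2 131)) (Pf.C 2 259)))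
 (Pq.cons (Pq.L [] 7 (Pf.B 3 2 (Pf.C 59 386) (Pf.B 3 1 (Pf.C 59 385) (Pf.B 2 1 (Pf.W 21 1 [] [2,3] (Pf.cons (Pf.B 4 3 (Pf.B 4 2 (Pf.C 7 0x20c104) (Pf.W 21 2 [] [3,4] (Pf.cons (Pf.B 5 4 (Pf.B 5 3 (Pf.C 7 0x808185) (Pf.C 3 389)) (Pf.C 3 517)) Pf.nil))) (Pf.C 3 388)) Pf.nil)) (Pf.C 2 130)))))
 (Pq.cons (Pq.L [] 4 (Pf.C 4 384))
 (Pq.cons (Pq.L [] 7 (Pf.B 3 2 (Pf.C 28 386) (Pf.B 3 1 (Pf.C 28 385) (Pf.B 2 1 (Pf.C 0 0x20c002) (Pf.C 2 130)))))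
 (Pq.cons (Pq.L [] 4 (Pf.C 157 3))
 (Pq.cons (Pq.L [] 7 (Pf.B 3 2 (Pf.C 28 386) (Pf.B 3 1 (Pf.C 28 385) (Pf.B 2 1 (Pf.C 0 0x20c002) (Pf.C 2 130)))))
 Pq.nil))))))) (Pq.cons (Pq.D 3 (Pq.cons (Pq.L [] 7 (Pf.B 3 2 (Pf.C 59 259) (Pf.B 3 1 (Pf.B 2 1 (Pf.C 59 257) (Pf.W 21 1 [] [2,3] (Pf.cons (Pf.B 4 2 (Pf.B 4 3 (Pf.C 7 0x208184) (Pf.W 21 3 [] [2,4] (Pf.cons (Pf.B 5 4 (Pf.B 5 2 (Pf.C 7 0x80c105) (Pf.C 3 261)) (Pf.C 3 517)) Pf.nil))) (Pf.C 3 260)) Pf.nil))) (Pf.C 2 131))))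
 (Pq.cons (Pq.L [] 6 (Pf.B 3 2 (Pf.C 160 259) (Pf.C 3 259)))
 (Pq.cons (Pq.L [] 4 (Pf.C 4 384))
 (Pq.cons (Pq.L [] 7 (Pf.B 3 2 (Pf.C 165 49154) (Pf.B 3 1 (Pf.C 28 385) (Pf.B 2 1 (Pf.C 59 257) (Pf.C 0 49282)))))
 (Pq.cons (Pq.L [] 4 (Pf.C 157 3))
 (Pq.cons (Pq.L [] 6 (Pf.B 3 2 (Pf.C 167 49154) (Pf.C 156 259)))
 Pq.nil))))))) (Pq.cons (Pq.L [] 2 (Pf.C 4 256))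
 (Pq.cons (Pq.D 3 (Pq.cons (Pq.L [] 7 (Pf.B 3 2 (Pf.C 28 259) (Pf.B 3 1 (Pf.B 2 1 (Pf.C 28 257) (Pf.C 0 0x600101)) (Pf.C 2 131))))
 (Pq.cons (Pq.L [] 7 (Pf.B 3 2 (Pf.C 165 32771) (Pf.B 3 1 (Pf.C 59 385) (Pf.B 2 1 (Pf.C 28 257) (Pf.C 0 0x604100)))))
 (Pq.cons (Pq.L [] 4 (Pf.C 4 384))
 (Pq.cons (Pq.L [] 7 (Pf.B 3 2 (Pf.B 3 1 (Pf.C 28 385) (Pf.B 2 1 (Pf.C 28 257) (Pf.C 0 0x600082))) (Pf.C 5 259)))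
 (Pq.cons (Pq.L [] 4 (Pf.C 157 3))
 (Pq.cons (Pq.L [] 7 (Pf.B 3 2 (Pf.B 3 1 (Pf.C 28 385) (Pf.B 2 1 (Pf.C 28 257) (Pf.C 0 0x600082))) (Pf.C 5 259)))
 Pq.nil))))))) (Pq.cons (Pq.L [] 2 (Pf.C 157 2))
 (Pq.cons (Pq.D 3 (Pq.cons (Pq.L [] 7 (Pf.B 3 2 (Pf.C 28 259) (Pf.B 3 1 (Pf.B 2 1 (Pf.C 28 257) (Pf.C 0 0x600101)) (Pf.C 2 131))))
 (Pq.cons (Pq.L [] 6 (Pf.B 3 2 (Pf.C 167 32771) (Pf.C 156 386)))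
 (Pq.cons (Pq.L [] 4 (Pf.C 4 384))
 (Pq.cons (Pq.L [] 7 (Pf.B 3 2 (Pf.B 3 1 (Pf.C 28 385) (Pf.B 2 1 (Pf.C 28 257) (Pf.C 0 0x600082))) (Pf.C 5 259)))
 (Pq.cons (Pq.L [] 4 (Pf.C 157 3))
 (Pq.cons (Pq.L [] 7 (Pf.B 3 2 (Pf.B 3 1 (Pf.C 28 385) (Pf.B 2 1 (Pf.C 28 257) (Pf.C 0 0x600082))) (Pf.C 5 259)))
 Pq.nil))))))) Pq.nil))))))) (Pq.cons (Pq.D 2 (Pq.cons (Pq.D 3 (Pq.cons (Pq.L [] 7 (Pf.B 3 2 (Pf.B 3 1 (Pf.C 59 131) (Pf.B 2 1 (Pf.C 59 130) (Pf.W 21 2 [] [1,3] (Pf.cons (Pf.B 4 1 (Pf.B 4 3 (Pf.C 7 0x404184) (Pf.W 21 3 [] [1,4] (Pf.cons (Pf.B 5 4 (Pf.B 5 1 (Pf.C 7 0x80c085) (Pf.C 3 133)) (Pf.C 3 517)) Pf.nil))) (Pf.C 3 132)) Pf.nil)))) (Pf.C 2 259)))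
 (Pq.cons (Pq.L [] 5 (Pf.B 3 1 (Pf.C 160 131) (Pf.C 3 131)))
 (Pq.cons (Pq.L [] 4 (Pf.C 4 384))
 (Pq.cons (Pq.L [] 7 (Pf.B 3 2 (Pf.C 28 386) (Pf.B 3 1 (Pf.C 165 49153) (Pf.B 2 1 (Pf.C 59 130) (Pf.C 0 49409)))))
 (Pq.cons (Pq.L [] 4 (Pf.C 157 3))
 (Pq.cons (Pq.L [] 5 (Pf.B 3 1 (Pf.C 167 49153) (Pf.C 156 131)))
 Pq.nil))))))) (Pq.cons (Pq.L [] 3 (Pf.B 2 1 (Pf.C 160 130) (Pf.C 3 130)))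
 (Pq.cons (Pq.L [] 2 (Pf.C 4 256))
 (Pq.cons (Pq.L [] 7 (Pf.B 2 1 (Pf.C 165 32769) (Pf.B 3 2 (Pf.W 150 1 [] [0,2] (Pf.cons (Pf.B 4 2 (Pf.C 28 260) (Pf.B 4 0 (Pf.C 58 132) (Pf.C 0 0x208200))) Pf.nil)) (Pf.B 3 1 (Pf.W 150 1 [] [0,2] (Pf.cons (Pf.B 4 2 (Pf.C 28 260) (Pf.B 4 0 (Pf.C 58 132) (Pf.C 0 0x208200))) Pf.nil)) (Pf.B 3 0 (Pf.W 150 1 [] [0,2] (Pf.cons (Pf.B 4 2 (Pf.C 28 260) (Pf.B 4 0 (Pf.C 58 132) (Pf.C 0 0x208200))) Pf.nil)) (Pf.C 0 0x208180))))))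
 (Pq.cons (Pq.L [] 2 (Pf.C 157 2))
 (Pq.cons (Pq.L [] 3 (Pf.B 2 1 (Pf.C 167 32769) (Pf.C 156 130)))
 Pq.nil))))))) (Pq.cons (Pq.L [] 1 (Pf.C 4 128))
 (Pq.cons (Pq.D 2 (Pq.cons (Pq.D 3 (Pq.cons (Pq.L [] 7 (Pf.B 3 2 (Pf.B 3 1 (Pf.C 28 131) (Pf.B 2 1 (Pf.C 28 130) (Pf.C 0 0x600082))) (Pf.C 2 259)))
 (Pq.cons (Pq.L [] 7 (Pf.B 3 2 (Pf.C 59 386) (Pf.B 3 1 (Pf.C 165 16387) (Pf.B 2 1 (Pf.C 28 130) (Pf.C 0 0x604100)))))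
 (Pq.cons (Pq.L [] 4 (Pf.C 4 384))
 (Pq.cons (Pq.L [] 7 (Pf.B 3 2 (Pf.C 28 386) (Pf.B 3 1 (Pf.B 2 1 (Pf.C 28 130) (Pf.C 0 0x600101)) (Pf.C 5 131))))
 (Pq.cons (Pq.L [] 4 (Pf.C 157 3))
 (Pq.cons (Pq.L [] 7 (Pf.B 3 2 (Pf.C 28 386) (Pf.B 3 1 (Pf.B 2 1 (Pf.C 28 130) (Pf.C 0 0x600101)) (Pf.C 5 131))))
 Pq.nil))))))) (Pq.cons (Pq.L [] 7 (Pf.B 2 1 (Pf.C 165 16386) (Pf.B 3 2 (Pf.W 150 2 [] [0,1] (Pf.cons (Pf.B 4 1 (Pf.C 28 132) (Pf.B 4 0 (Pf.C 58 260) (Pf.C 0 0x404200))) Pf.nil)) (Pf.B 3 1 (Pf.W 150 2 [] [0,1] (Pf.cons (Pf.B 4 1 (Pf.C 28 132) (Pf.B 4 0 (Pf.C 58 260) (Pf.C 0 0x404200))) Pf.nil)) (Pf.B 3 0 (Pf.W 150 2 [] [0,1] (Pf.cons (Pf.B 4 1 (Pf.C 28 132) (Pf.B 4 0 (Pf.C 58 260) (Pf.C 0 0x404200)))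 Pf.nil)) (Pf.C 0 0x404180))))))
 (Pq.cons (Pq.L [] 2 (Pf.C 4 256))
 (Pq.cons (Pq.L [] 7 (Pf.B 2 1 (Pf.B 3 2 (Pf.B 3 1 (Pf.W 152 0 [] [1,2] (Pf.cons (Pf.B 4 2 (Pf.C 28 260) (Pf.B 4 1 (Pf.C 28 132) (Pf.C 0 0x400201))) Pf.nil)) (Pf.B 3 0 (Pf.W 152 0 [] [1,2] (Pf.cons (Pf.B 4 2 (Pf.C 28 260) (Pf.B 4 1 (Pf.C 28 132) (Pf.C 0 0x400201))) Pf.nil)) (Pf.W 152 0 [] [1,2,3] (Pf.cons (Pf.C 28 259) (Pf.cons (Pf.B 4 2 (Pf.C 28 260) (Pf.B 4 3 (Pf.B 4 1 (Pf.C 28 132) (Pf.C 0 0x600084)) (Pf.C 0 0x400203))) Pf.nil))))) (Pf.B 3 1 (Pf.W 152 0 [] [1,2] (Pf.cons (Pf.B 4 2 (Pf.C 28 260) (Pf.B 4 1 (Pf.C 28 132) (Pf.C 0 0x400201))) Pf.nil)) (Pf.B 3 0 (Pf.W 152 0 [] [1,2] (Pf.cons (Pf.B 4 2 (Pf.C 28 260) (Pf.B 4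 1 (Pf.C 28 132) (Pf.C 0 0x400201))) Pf.nil)) (Pf.C 0 0x400181)))) (Pf.C 5 130)))
 (Pq.cons (Pq.L [] 2 (Pf.C 157 2))
 (Pq.cons (Pq.L [] 7 (Pf.B 2 1 (Pf.B 3 2 (Pf.B 3 1 (Pf.W 152 0 [] [1,2] (Pf.cons (Pf.B 4 2 (Pf.C 28 260) (Pf.B 4 1 (Pf.C 28 132) (Pf.C 0 0x400201))) Pf.nil)) (Pf.B 3 0 (Pf.W 152 0 [] [1,2] (Pf.cons (Pf.B 4 2 (Pf.C 28 260) (Pf.B 4 1 (Pf.C 28 132) (Pf.C 0 0x400201))) Pf.nil)) (Pf.W 152 0 [] [1,2,3] (Pf.cons (Pf.C 28 259) (Pf.cons (Pf.B 4 2 (Pf.C 28 260) (Pf.B 4 3 (Pf.B 4 1 (Pf.C 28 132) (Pf.C 0 0x600084)) (Pf.C 0 0x400203))) Pf.nil))))) (Pf.B 3 1 (Pf.W 152 0 [] [1,2] (Pf.cons (Pf.B 4 2 (Pf.C 28 260) (Pf.B 4 1 (Pf.C 28 132) (Pf.C 0 0x400201))) Pf.nil)) (Pf.B 3 0 (Pf.W 152 0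 [] [1,2] (Pf.cons (Pf.B 4 2 (Pf.C 28 260) (Pf.B 4 1 (Pf.C 28 132) (Pf.C 0 0x400201))) Pf.nil)) (Pf.C 0 0x400181)))) (Pf.C 5 130)))
 Pq.nil))))))) (Pq.cons (Pq.L [] 1 (Pf.C 157 1))
 (Pq.cons (Pq.D 2 (Pq.cons (Pq.D 3 (Pq.cons (Pq.L [] 7 (Pf.B 3 2 (Pf.B 3 1 (Pf.C 28 131) (Pf.B 2 1 (Pf.C 28 130) (Pf.C 0 0x600082))) (Pf.C 2 259)))
 (Pq.cons (Pq.L [] 5 (Pf.B 3 1 (Pf.C 167 16387) (Pf.C 156 385)))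
 (Pq.cons (Pq.L [] 4 (Pf.C 4 384))
 (Pq.cons (Pq.L [] 7 (Pf.B 3 2 (Pf.C 28 386) (Pf.B 3 1 (Pf.B 2 1 (Pf.C 28 130) (Pf.C 0 0x600101)) (Pf.C 5 131))))
 (Pq.cons (Pq.L [] 4 (Pf.C 157 3))
 (Pq.cons (Pq.L [] 7 (Pf.B 3 2 (Pf.C 28 386) (Pf.B 3 1 (Pf.B 2 1 (Pf.C 28 130) (Pf.C 0 0x600101)) (Pf.C 5 131))))
 Pq.nil))))))) (Pq.cons (Pq.L [] 3 (Pf.B 2 1 (Pf.C 167 16386) (Pf.C 156 257)))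
 (Pq.cons (Pq.L [] 2 (Pf.C 4 256))
 (Pq.cons (Pq.L [] 7 (Pf.B 2 1 (Pf.B 3 2 (Pf.B 3 1 (Pf.W 152 0 [] [1,2] (Pf.cons (Pf.B 4 2 (Pf.C 28 260) (Pf.B 4 1 (Pf.C 28 132) (Pf.C 0 0x400201))) Pf.nil)) (Pf.B 3 0 (Pf.W 152 0 [] [1,2] (Pf.cons (Pf.B 4 2 (Pf.C 28 260) (Pf.B 4 1 (Pf.C 28 132) (Pf.C 0 0x400201))) Pf.nil)) (Pf.W 152 0 [] [1,2,3] (Pf.cons (Pf.C 28 259) (Pf.cons (Pf.B 4 2 (Pf.C 28 260) (Pf.B 4 3 (Pf.B 4 1 (Pf.C 28 132) (Pf.C 0 0x600084)) (Pf.C 0 0x400203))) Pf.nil))))) (Pf.B 3 1 (Pf.W 152 0 [] [1,2] (Pf.cons (Pf.B 4 2 (Pf.C 28 260) (Pf.B 4 1 (Pf.C 28 132) (Pf.C 0 0x400201))) Pf.nil)) (Pf.B 3 0 (Pf.W 152 0 [] [1,2] (Pf.cons (Pf.B 4 2 (Pf.C 28 260) (Pf.B 4 1 (Pf.C 28 132) (Pf.C 0 0x400201)))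 Pf.nil)) (Pf.C 0 0x400181)))) (Pf.C 5 130)))
 (Pq.cons (Pq.L [] 2 (Pf.C 157 2))
 (Pq.cons (Pq.L [] 7 (Pf.B 2 1 (Pf.B 3 2 (Pf.B 3 1 (Pf.W 152 0 [] [1,2] (Pf.cons (Pf.B 4 2 (Pf.C 28 260) (Pf.B 4 1 (Pf.C 28 132) (Pf.C 0 0x400201))) Pf.nil)) (Pf.B 3 0 (Pf.W 152 0 [] [1,2] (Pf.cons (Pf.B 4 2 (Pf.C 28 260) (Pf.B 4 1 (Pf.C 28 132) (Pf.C 0 0x400201))) Pf.nil)) (Pf.W 152 0 [] [1,2,3] (Pf.cons (Pf.C 28 259) (Pf.cons (Pf.B 4 2 (Pf.C 28 260) (Pf.B 4 3 (Pf.B 4 1 (Pf.C 28 132) (Pf.C 0 0x600084)) (Pf.C 0 0x400203))) Pf.nil))))) (Pf.B 3 1 (Pf.W 152 0 [] [1,2] (Pf.cons (Pf.B 4 2 (Pf.C 28 260) (Pf.B 4 1 (Pf.C 28 132) (Pf.C 0 0x400201))) Pf.nil)) (Pf.B 3 0 (Pf.W 152 0 [] [1,2] (Pf.cons (Pf.B 4 2 (Pf.C 28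 260) (Pf.B 4 1 (Pf.C 28 132) (Pf.C 0 0x400201))) Pf.nil)) (Pf.C 0 0x400181)))) (Pf.C 5 130)))
 Pq.nil))))))) Pq.nil))))))) (Pq.cons (Pq.D 1 (Pq.cons (Pq.L [] 1 (Pf.C 28 1))
 (Pq.cons (Pq.D 2 (Pq.cons (Pq.L [] 2 (Pf.C 28 2))
 (Pq.cons (Pq.L [] 3 (Pf.B 2 1 (Pf.C 161 130) (Pf.C 3 130)))
 (Pq.cons (Pq.D 3 (Pq.cons (Pq.L [] 4 (Pf.C 28 3))
 (Pq.cons (Pq.L [] 5 (Pf.B 3 1 (Pf.C 161 131) (Pf.C 3 131)))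
 (Pq.cons (Pq.L [] 6 (Pf.B 3 2 (Pf.C 168 259) (Pf.C 4 259)))
 (Pq.cons (Pq.L [] 4 (Pf.C 5 384))
 (Pq.cons (Pq.L [] 4 (Pf.C 5 384))
 (Pq.cons (Pq.L [] 4 (Pf.C 5 384))
 Pq.nil))))))) (Pq.cons (Pq.L [] 2 (Pf.C 5 256))
 (Pq.cons (Pq.L [] 2 (Pf.C 5 256))
 (Pq.cons (Pq.L [] 2 (Pf.C 5 256))
 Pq.nil))))))) (Pq.cons (Pq.D 2 (Pq.cons (Pq.L [] 2 (Pf.C 28 2))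
 (Pq.cons (Pq.D 3 (Pq.cons (Pq.L [] 4 (Pf.C 28 3))
 (Pq.cons (Pq.L [] 6 (Pf.B 3 2 (Pf.C 161 259) (Pf.C 3 259)))
 (Pq.cons (Pq.L [] 5 (Pf.B 3 1 (Pf.C 168 131) (Pf.C 4 131)))
 (Pq.cons (Pq.L [] 4 (Pf.C 5 384))
 (Pq.cons (Pq.L [] 4 (Pf.C 5 384))
 (Pq.cons (Pq.L [] 4 (Pf.C 5 384))
 Pq.nil))))))) (Pq.cons (Pq.L [] 3 (Pf.B 2 1 (Pf.C 168 130) (Pf.C 4 130)))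
 (Pq.cons (Pq.L [] 2 (Pf.C 5 256))
 (Pq.cons (Pq.L [] 2 (Pf.C 5 256))
 (Pq.cons (Pq.L [] 2 (Pf.C 5 256))
 Pq.nil))))))) (Pq.cons (Pq.L [] 1 (Pf.C 5 128))
 (Pq.cons (Pq.L [] 1 (Pf.C 5 128))
 (Pq.cons (Pq.L [] 1 (Pf.C 5 128))
 Pq.nil))))))) (Pq.cons (Pq.D 1 (Pq.cons (Pq.L [] 1 (Pf.C 28 1))
 (Pq.cons (Pq.D 2 (Pq.cons (Pq.L [] 2 (Pf.C 28 2))
 (Pq.cons (Pq.L [] 3 (Pf.B 2 1 (Pf.C 162 130) (Pf.C 3 130)))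
 (Pq.cons (Pq.L [] 2 (Pf.C 157 256))
 (Pq.cons (Pq.L [] 2 (Pf.C 5 256))
 (Pq.cons (Pq.L [] 2 (Pf.C 5 256))
 (Pq.cons (Pq.L [] 2 (Pf.C 5 256))
 Pq.nil))))))) (Pq.cons (Pq.L [] 1 (Pf.C 157 128))
 (Pq.cons (Pq.L [] 1 (Pf.C 5 128))
 (Pq.cons (Pq.L [] 1 (Pf.C 5 128))
 (Pq.cons (Pq.L [] 1 (Pf.C 5 128))
 Pq.nil))))))) (Pq.cons (Pq.D 1 (Pq.cons (Pq.L [] 1 (Pf.C 28 1))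
 (Pq.cons (Pq.L [] 1 (Pf.C 156 128))
 (Pq.cons (Pq.D 2 (Pq.cons (Pq.L [] 2 (Pf.C 28 2))
 (Pq.cons (Pq.L [] 2 (Pf.C 156 256))
 (Pq.cons (Pq.L [] 3 (Pf.B 2 1 (Pf.C 169 130) (Pf.C 4 130)))
 (Pq.cons (Pq.L [] 2 (Pf.C 5 256))
 (Pq.cons (Pq.L [] 2 (Pf.C 5 256))
 (Pq.cons (Pq.L [] 2 (Pf.C 5 256))
 Pq.nil))))))) (Pq.cons (Pq.L [] 1 (Pf.C 5 128))
 (Pq.cons (Pq.L [] 1 (Pf.C 5 128))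
 (Pq.cons (Pq.L [] 1 (Pf.C 5 128))
 Pq.nil))))))) Pq.nil))))))) Pq.nil)
theorem e3_o43 : AllRef e3_T e3_G70 (applyObl TD2 1 [30,103,104,105,106,107] [0,0,0,0,0,0] [(30,0xe00000000000000000000000000),(103,0x100000000000000000000000000),(104,0x80000000000000000000000000),(105,0x40000000),(106,0x40000000),(107,0x40000000)]) :=
  chkPq_sound e3_o43c _ (by decide +kernel)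
noncomputable def e3_o44c : Pq := (Pq.cons (Pq.L [] 63 (Pf.C 0 0x608080))
 (Pq.cons (Pq.L [] 32767 (Pf.C 1 0x2840608080))
 (Pq.cons (Pq.L [] 1 (Pf.C 3 128))
 (Pq.cons (Pq.L [] 1 (Pf.C 4 128))
 (Pq.cons (Pq.L [] 1 (Pf.C 5 128))
 (Pq.cons (Pq.L [] 7 (Pf.C 6 32896))
 (Pq.cons (Pq.D 0 (Pq.cons (Pq.D 1 (Pq.cons (Pq.L [] 1 (Pf.C 3 128))
 (Pq.cons (Pq.D 2 (Pq.cons (Pq.D 3 (Pq.cons (Pq.L [] 128 (Pf.C 3 386))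
 (Pq.cons (Pq.D 4 (Pq.cons (Pq.L [] 1023 (Pf.C 16 0x40608080))
 (Pq.cons (Pq.L [] 1023 (Pf.C 16 0x40608080))
 Pq.nil))) Pq.nil))) (Pq.cons (Pq.D 3 (Pq.cons (Pq.D 4 (Pq.cons (Pq.L [] 1023 (Pf.C 16 0x40608080))
 (Pq.cons (Pq.L [] 1023 (Pf.C 16 0x40608080))
 Pq.nil))) (Pq.cons (Pq.L [] 128 (Pf.C 4 386))
 Pq.nil))) Pq.nil))) Pq.nil))) (Pq.cons (Pq.D 1 (Pq.cons (Pq.D 2 (Pq.cons (Pq.D 3 (Pq.cons (Pq.L [] 128 (Pf.C 3 386))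
 (Pq.cons (Pq.D 4 (Pq.cons (Pq.L [] 1023 (Pf.C 16 0x40608080))
 (Pq.cons (Pq.L [] 1023 (Pf.C 16 0x40608080))
 Pq.nil))) Pq.nil))) (Pq.cons (Pq.D 3 (Pq.cons (Pq.D 4 (Pq.cons (Pq.L [] 1023 (Pf.C 16 0x40608080))
 (Pq.cons (Pq.L [] 1023 (Pf.C 16 0x40608080))
 Pq.nil))) (Pq.cons (Pq.L [] 128 (Pf.C 4 386))
 Pq.nil))) Pq.nil))) (Pq.cons (Pq.L [] 1 (Pf.C 4 128))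
 Pq.nil))) Pq.nil))) (Pq.cons (Pq.D 0 (Pq.cons (Pq.D 1 (Pq.cons (Pq.L [] 1 (Pf.C 3 128))
 (Pq.cons (Pq.D 2 (Pq.cons (Pq.D 3 (Pq.cons (Pq.L [] 128 (Pf.C 3 386))
 (Pq.cons (Pq.D 4 (Pq.cons (Pq.L [] 1023 (Pf.C 17 0x40608080))
 (Pq.cons (Pq.L [] 1023 (Pf.C 17 0x40608080))
 Pq.nil))) Pq.nil))) (Pq.cons (Pq.D 3 (Pq.cons (Pq.D 4 (Pq.cons (Pq.L [] 1023 (Pf.C 17 0x40608080))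
 (Pq.cons (Pq.L [] 1023 (Pf.C 17 0x40608080))
 Pq.nil))) (Pq.cons (Pq.L [] 128 (Pf.C 5 386))
 Pq.nil))) Pq.nil))) Pq.nil))) (Pq.cons (Pq.D 1 (Pq.cons (Pq.D 2 (Pq.cons (Pq.D 3 (Pq.cons (Pq.L [] 128 (Pf.C 3 386))
 (Pq.cons (Pq.D 4 (Pq.cons (Pq.L [] 1023 (Pf.C 17 0x40608080))
 (Pq.cons (Pq.L [] 1023 (Pf.C 17 0x40608080))
 Pq.nil))) Pq.nil))) (Pq.cons (Pq.D 3 (Pq.cons (Pq.D 4 (Pq.cons (Pq.L [] 1023 (Pf.C 17 0x40608080))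
 (Pq.cons (Pq.L [] 1023 (Pf.C 17 0x40608080))
 Pq.nil))) (Pq.cons (Pq.L [] 128 (Pf.C 5 386))
 Pq.nil))) Pq.nil))) (Pq.cons (Pq.L [] 1 (Pf.C 5 128))
 Pq.nil))) Pq.nil))) (Pq.cons (Pq.D 0 (Pq.cons (Pq.D 1 (Pq.cons (Pq.L [] 1 (Pf.C 4 128))
 (Pq.cons (Pq.D 2 (Pq.cons (Pq.D 3 (Pq.cons (Pq.L [] 128 (Pf.C 4 386))
 (Pq.cons (Pq.D 4 (Pq.cons (Pq.L [] 1023 (Pf.C 18 0x40608080))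
 (Pq.cons (Pq.L [] 1023 (Pf.C 18 0x40608080))
 Pq.nil))) Pq.nil))) (Pq.cons (Pq.D 3 (Pq.cons (Pq.D 4 (Pq.cons (Pq.L [] 1023 (Pf.C 18 0x40608080))
 (Pq.cons (Pq.L [] 1023 (Pf.C 18 0x40608080))
 Pq.nil))) (Pq.cons (Pq.L [] 128 (Pf.C 5 386))
 Pq.nil))) Pq.nil))) Pq.nil))) (Pq.cons (Pq.D 1 (Pq.cons (Pq.D 2 (Pq.cons (Pq.D 3 (Pq.cons (Pq.L [] 128 (Pf.C 4 386))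
 (Pq.cons (Pq.D 4 (Pq.cons (Pq.L [] 1023 (Pf.C 18 0x40608080))
 (Pq.cons (Pq.L [] 1023 (Pf.C 18 0x40608080))
 Pq.nil))) Pq.nil))) (Pq.cons (Pq.D 3 (Pq.cons (Pq.D 4 (Pq.cons (Pq.L [] 1023 (Pf.C 18 0x40608080))
 (Pq.cons (Pq.L [] 1023 (Pf.C 18 0x40608080))
 Pq.nil))) (Pq.cons (Pq.L [] 128 (Pf.C 5 386))
 Pq.nil))) Pq.nil))) (Pq.cons (Pq.L [] 1 (Pf.C 5 128))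
 Pq.nil))) Pq.nil))) Pq.nil)))))))))
theorem e3_o44 : AllRef e3_T e3_G69 (applyObl e4_T 9 [92,94,102] [1,2,3] []) :=
  chkPq_sound e3_o44c _ (by decide +kernel)
noncomputable def e3_o45c : Pq := (Pq.cons (Pq.L [] 0 (Pf.W 72 0 [] [0] (Pf.cons (Pf.C 35 1) Pf.nil)))
 (Pq.cons (Pq.L [] 0 (Pf.W 72 0 [] [0] (Pf.cons (Pf.C 36 1) Pf.nil)))
 (Pq.cons (Pq.L [] 0 (Pf.W 72 0 [] [0] (Pf.cons (Pf.C 37 1) Pf.nil)))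
 (Pq.cons (Pq.L [] 0 (Pf.W 72 0 [] [0] (Pf.cons (Pf.C 38 1) Pf.nil)))
 (Pq.cons (Pq.L [] 0 (Pf.W 72 0 [] [0] (Pf.cons (Pf.C 39 1) Pf.nil)))
 (Pq.cons (Pq.L [] 0 (Pf.W 72 0 [] [0] (Pf.cons (Pf.C 40 1) Pf.nil)))
 Pq.nil))))))
theorem e3_o45 : AllRef e3_T e3_G13 (List.map pat1 [30,31,32,33,34,35]) :=
  chkPq_sound e3_o45c _ (by decide +kernel)
noncomputable def e3_o46c : Pq := (Pq.cons (Pq.L [] 1 (Pf.C 171 128))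
 (Pq.cons (Pq.L [] 1 (Pf.C 173 128))
 (Pq.cons (Pq.L [] 1 (Pf.C 175 128))
 (Pq.cons (Pq.L [] 1 (Pf.C 3 128))
 (Pq.cons (Pq.L [] 2 (Pf.B 2 1 (Pf.W 170 2 [] [0] (Pf.cons (Pf.B 3 0 (Pf.C 54 259) (Pf.C 173 384)) Pf.nil)) (Pf.C 3 130)))
 (Pq.cons (Pq.L [] 2 (Pf.B 2 1 (Pf.W 170 2 [] [0] (Pf.cons (Pf.B 3 0 (Pf.C 56 259) (Pf.C 175 384)) Pf.nil)) (Pf.C 3 130)))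
 (Pq.cons (Pq.L [] 2 (Pf.B 2 1 (Pf.W 172 2 [] [0] (Pf.cons (Pf.B 3 0 (Pf.C 55 32771) (Pf.C 171 384)) Pf.nil)) (Pf.C 4 130)))
 (Pq.cons (Pq.L [] 1 (Pf.C 4 128))
 (Pq.cons (Pq.L [] 2 (Pf.B 2 1 (Pf.W 172 1 [] [0,2] (Pf.cons (Pf.B 3 0 (Pf.B 3 2 (Pf.W 172 2 [] [0,3] (Pf.cons (Pf.B 4 3 (Pf.B 4 0 (Pf.C 11 33283) (Pf.C 175 512)) (Pf.C 2 388)) Pf.nil)) (Pf.W 23 3 [] [1,2] (Pf.cons (Pf.B 4 2 (Pf.B 4 1 (Pf.C 8 0x40c084) (Pf.C 4 132)) (Pf.C 4 260)) Pf.nil))) (Pf.C 175 384)) Pf.nil)) (Pf.C 4 130)))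
 (Pq.cons (Pq.L [] 2 (Pf.B 2 1 (Pf.W 174 1 [] [0,2] (Pf.cons (Pf.B 3 0 (Pf.B 3 2 (Pf.W 174 2 [] [0,3] (Pf.cons (Pf.B 4 3 (Pf.B 4 0 (Pf.C 15 33283) (Pf.C 171 512)) (Pf.C 2 388)) Pf.nil)) (Pf.W 27 3 [] [1,2] (Pf.cons (Pf.B 4 2 (Pf.B 4 1 (Pf.C 9 0x40c084) (Pf.C 5 132)) (Pf.C 5 260)) Pf.nil))) (Pf.C 171 384)) Pf.nil)) (Pf.C 5 130)))
 (Pq.cons (Pq.L [] 2 (Pf.B 2 1 (Pf.W 174 2 [] [0] (Pf.cons (Pf.B 3 0 (Pf.C 57 32771) (Pf.C 173 384)) Pf.nil)) (Pf.C 5 130)))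
 (Pq.cons (Pq.L [] 1 (Pf.C 5 128))
 Pq.nil))))))))))))
theorem e3_o46 : AllRef e3_T e3_G74 (splitObl [29,108,110,112] [109,111,113]) :=
  chkPq_sound e3_o46c _ (by decide +kernel)
noncomputable def e3_o47c : Pq := (Pq.cons (Pq.L [] 506 (Pf.B 8 5 (Pf.B 8 2 (Pf.B 7 3 (Pf.B 7 0 (Pf.B 6 4 (Pf.B 6 3 (Pf.B 6 0 (Pf.B 5 2 (Pf.B 4 0 (Pf.B 3 0 (Pf.B 8 4 (Pf.B 8 3 (Pf.B 8 0 (Pf.W 170 0 [] [7,8] (Pf.cons (Pf.B 9 8 (Pf.C 54 0x20009) (Pf.B 9 7 (Pf.C 55 0x20389) (Pf.C 53 905))) Pf.nil)) (Pf.B 7 5 (Pf.B 6 5 (Pf.B 5 0 (Pf.W 170 0 [] [5,6] (Pf.cons (Pf.B 9 6 (Pf.B 9 5 (Pf.C 54 81929) (Pf.C 55 82697)) (Pf.C 53 777)) Pf.nil)) (Pf.B 3 2 (Pf.W 170 0 [] [2,3] (Pf.cons (Pf.B 9 3 (Pf.B 9 2 (Pf.C 54 32777) (Pf.C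 55 33161)) (Pf.C 53 393)) Pf.nil)) (Pf.C 16 0x80014103))) (Pf.B 6 2 (Pf.B 5 0 (Pf.W 170 0 [] [5,7] (Pf.cons (Pf.B 9 7 (Pf.B 9 5 (Pf.C 54 81929) (Pf.C 55 82825)) (Pf.C 53 905)) Pf.nil)) (Pf.B 3 2 (Pf.W 170 0 [] [2,3] (Pf.cons (Pf.B 9 3 (Pf.B 9 2 (Pf.C 54 32777) (Pf.C 55 33161)) (Pf.C 53 393)) Pf.nil)) (Pf.C 16 0x60a00103))) (Pf.B 5 0 (Pf.C 16 0x20c14400) (Pf.B 3 2 (Pf.W 170 0 [] [2,3] (Pf.cons (Pf.B 9 3 (Pf.B 9 2 (Pf.C 54 32777) (Pf.C 55 33161)) (Pf.C 53 393)) Pf.nil)) (Pf.C 16 0x80014103))))) (Pf.B 7 2 (Pf.B 6 5 (Pf.B 5 0 (Pf.W 170 0 [] [5,6] (Pf.cons (Pf.B 9 6 (Pf.B 9 5 (Pf.C 54 81929) (Pf.C 55 82697)) (Pf.C 53 777)) Pf.nil)) (Pf.B 3 2 (Pf.W 170 0 [] [2,3] (Pf.cons (Pf.B 9 3 (Pf.B 9 2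 (Pf.C 54 32777) (Pf.C 55 33161)) (Pf.C 53 393)) Pf.nil)) (Pf.C 16 0x70a00103))) (Pf.B 5 0 (Pf.C 16 0x70a18400) (Pf.B 3 2 (Pf.W 170 0 [] [2,3] (Pf.cons (Pf.B 9 3 (Pf.B 9 2 (Pf.C 54 32777) (Pf.C 55 33161)) (Pf.C 53 393)) Pf.nil)) (Pf.C 16 0x70a00103)))) (Pf.B 5 0 (Pf.C 16 0x20e14400) (Pf.B 3 2 (Pf.W 170 0 [] [2,3] (Pf.cons (Pf.B 9 3 (Pf.B 9 2 (Pf.C 54 32777) (Pf.C 55 33161)) (Pf.C 53 393)) Pf.nil)) (Pf.C 16 0x80014103)))))) (Pf.B 8 0 (Pf.W 170 0 [] [7,8] (Pf.cons (Pf.B 9 8 (Pf.C 54 0x20009) (Pf.B 9 7 (Pf.C 55 0x20389) (Pf.C 53 905))) Pf.nil)) (Pf.B 6 5 (Pf.B 5 0 (Pf.W 170 0 [] [5,6] (Pf.cons (Pf.B 9 6 (Pf.B 9 5 (Pf.C 54 81929) (Pf.C 55 82697)) (Pf.C 53 777)) Pf.nil)) (Pf.B 4 2 (Pf.W 170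 0 [] [2,4] (Pf.cons (Pf.B 9 4 (Pf.B 9 2 (Pf.C 54 32777) (Pf.C 55 33289)) (Pf.C 53 521)) Pf.nil)) (Pf.C 16 0x80014104))) (Pf.B 5 0 (Pf.C 16 0x31000305) (Pf.B 4 2 (Pf.W 170 0 [] [2,4] (Pf.cons (Pf.B 9 4 (Pf.B 9 2 (Pf.C 54 32777) (Pf.C 55 33289)) (Pf.C 53 521)) Pf.nil)) (Pf.C 16 0x80014104)))))) (Pf.B 8 3 (Pf.B 8 0 (Pf.W 170 0 [] [7,8] (Pf.cons (Pf.B 9 8 (Pf.C 54 0x20009) (Pf.B 9 7 (Pf.C 55 0x20389) (Pf.C 53 905))) Pf.nil)) (Pf.B 6 5 (Pf.B 5 0 (Pf.W 170 0 [] [5,6] (Pf.cons (Pf.B 9 6 (Pf.B 9 5 (Pf.C 54 81929) (Pf.C 55 82697)) (Pf.C 53 777)) Pf.nil)) (Pf.B 3 2 (Pf.W 170 0 [] [2,3] (Pf.cons (Pf.B 9 3 (Pf.B 9 2 (Pf.C 54 32777) (Pf.C 55 33161)) (Pf.C 53 393)) Pf.nil)) (Pf.C 16 0x80014103))) (Pf.B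 5 0 (Pf.C 16 0x41000305) (Pf.B 3 2 (Pf.W 170 0 [] [2,3] (Pf.cons (Pf.B 9 3 (Pf.B 9 2 (Pf.C 54 32777) (Pf.C 55 33161)) (Pf.C 53 393)) Pf.nil)) (Pf.C 16 0x80014103))))) (Pf.B 6 5 (Pf.B 5 0 (Pf.W 170 0 [] [5,6] (Pf.cons (Pf.B 9 6 (Pf.B 9 5 (Pf.C 54 81929) (Pf.C 55 82697)) (Pf.C 53 777)) Pf.nil)) (Pf.B 4 2 (Pf.W 170 0 [] [2,4] (Pf.cons (Pf.B 9 4 (Pf.B 9 2 (Pf.C 54 32777) (Pf.C 55 33289)) (Pf.C 53 521)) Pf.nil)) (Pf.B 3 2 (Pf.W 170 0 [] [2,3] (Pf.cons (Pf.B 9 3 (Pf.B 9 2 (Pf.C 54 32777) (Pf.C 55 33161)) (Pf.C 53 393)) Pf.nil)) (Pf.C 16 0x4040c280)))) (Pf.C 16 0x4100c286)))) (Pf.C 3 3)) (Pf.C 3 4)) (Pf.C 4 261)) (Pf.C 3 6)) (Pf.C 3 390)) (Pf.C 3 518)) (Pf.C 3 7)) (Pf.C 3 391)) (Pf.C 4 264))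 (Pf.C 4 648)))
 (Pq.cons (Pq.L [] 63 (Pf.B 5 2 (Pf.B 4 1 (Pf.B 3 0 (Pf.B 5 1 (Pf.B 5 0 (Pf.B 4 0 (Pf.C 6 82432) (Pf.W 170 0 [] [1,2,4,5] (Pf.cons (Pf.B 6 5 (Pf.C 56 81926) (Pf.B 6 4 (Pf.C 57 82438) (Pf.B 6 2 (Pf.C 56 32774) (Pf.B 6 1 (Pf.C 57 32902) (Pf.C 0 0x800301))))) Pf.nil))) (Pf.B 4 2 (Pf.B 4 0 (Pf.C 6 33280) (Pf.W 170 0 [] [1,2,4] (Pf.cons (Pf.B 6 2 (Pf.C 56 32774) (Pf.B 6 4 (Pf.C 57 33286) (Pf.B 6 1 (Pf.C 57 32902) (Pf.C 0 0x800301)))) Pf.nil))) (Pf.B 4 0 (Pf.B 3 2 (Pf.W 170 0 [] [1,2,3,5] (Pf.cons (Pf.B 6 3 (Pf.B 6 2 (Pf.C 56 32774) (Pf.B 6 5 (Pf.C 15 0x608305) (Pf.B 6 1 (Pf.C 57 32902) (Pf.C 0 0xa00301)))) (Pf.C 53 390)) Pf.nil)) (Pf.W 170 0 [] [2,3,4] (Pf.cons (Pf.B 6 4 (Pf.C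 54 65542) (Pf.B 6 3 (Pf.B 6 2 (Pf.C 56 32774) (Pf.C 0 0x610106)) (Pf.C 53 390))) Pf.nil))) (Pf.B 3 2 (Pf.W 170 0 [] [2,3,4,5] (Pf.cons (Pf.B 6 3 (Pf.B 6 2 (Pf.C 56 32774) (Pf.B 6 5 (Pf.C 15 0x608305) (Pf.B 6 4 (Pf.C 57 82438) (Pf.C 0 0xa00304)))) (Pf.C 53 390)) Pf.nil)) (Pf.W 170 0 [] [1,2,3,4,5] (Pf.cons (Pf.B 6 3 (Pf.B 6 2 (Pf.C 56 32774) (Pf.B 6 4 (Pf.B 6 5 (Pf.B 6 1 (Pf.C 57 32902) (Pf.C 11 0xa04304)) (Pf.C 57 82438)) (Pf.C 0 0x608206))) (Pf.C 53 390)) Pf.nil)))))) (Pf.B 5 0 (Pf.B 4 0 (Pf.C 6 82432) (Pf.W 170 0 [] [1,2,4,5] (Pf.cons (Pf.B 6 5 (Pf.C 56 81926) (Pf.B 6 4 (Pf.C 57 82438) (Pf.B 6 2 (Pf.C 56 32774) (Pf.B 6 1 (Pf.C 57 32902) (Pf.C 0 0x800301))))) Pf.nil))) (Pf.B 4 2 (Pf.B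 4 0 (Pf.C 6 33280) (Pf.W 170 0 [] [1,2,4,5] (Pf.cons (Pf.B 6 2 (Pf.C 56 32774) (Pf.B 6 4 (Pf.C 57 33286) (Pf.B 6 5 (Pf.B 6 1 (Pf.C 57 32902) (Pf.C 0 0xa00086)) (Pf.C 0 0x800305)))) Pf.nil))) (Pf.B 4 0 (Pf.B 3 2 (Pf.W 170 3 [] [2,4,5] (Pf.cons (Pf.B 6 5 (Pf.C 56 82310) (Pf.B 6 4 (Pf.C 57 82438) (Pf.B 6 2 (Pf.C 56 33158) (Pf.C 0 0x610302)))) Pf.nil)) (Pf.W 170 0 [] [2,3,4] (Pf.cons (Pf.B 6 4 (Pf.C 54 65542) (Pf.B 6 3 (Pf.B 6 2 (Pf.C 56 32774) (Pf.C 0 0x610106)) (Pf.C 53 390))) Pf.nil))) (Pf.B 3 2 (Pf.W 170 0 [] [2,3,4,5] (Pf.cons (Pf.B 6 3 (Pf.B 6 2 (Pf.C 56 32774) (Pf.B 6 5 (Pf.C 15 0x608305) (Pf.B 6 4 (Pf.C 57 82438) (Pf.C 0 0xa00304)))) (Pf.C 53 390)) Pf.nil)) (Pf.W 170 0 [] [1,2,3,4,5]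 (Pf.cons (Pf.B 6 3 (Pf.B 6 2 (Pf.C 56 32774) (Pf.B 6 4 (Pf.B 6 5 (Pf.B 6 1 (Pf.C 57 32902) (Pf.C 0 0xa00086)) (Pf.C 57 82438)) (Pf.C 0 0x608206))) (Pf.C 53 390)) Pf.nil))))))) (Pf.C 3 3)) (Pf.C 4 132)) (Pf.C 5 261)))
 (Pq.cons (Pq.L [] 63 (Pf.B 5 2 (Pf.B 4 1 (Pf.B 3 0 (Pf.B 5 1 (Pf.W 170 0 [] [1,3,4,5] (Pf.cons (Pf.B 6 3 (Pf.B 6 4 (Pf.B 6 5 (Pf.B 6 1 (Pf.C 54 16390) (Pf.C 11 0xa04304)) (Pf.C 57 82438)) (Pf.C 55 65926)) (Pf.C 53 390)) Pf.nil)) (Pf.B 4 2 (Pf.B 3 2 (Pf.C 6 33283) (Pf.W 170 0 [] [2,3,4,5] (Pf.cons (Pf.B 6 3 (Pf.B 6 4 (Pf.B 6 5 (Pf.B 6 2 (Pf.C 19 0x50608206) (Pf.C 57 33286)) (Pf.C 57 82438)) (Pf.C 55 65926)) (Pf.C 53 390)) Pf.nil))) (Pf.B 4 0 (Pf.W 170 0 [] [3,4] (Pf.cons (Pf.B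 6 4 (Pf.C 54 65542) (Pf.B 6 3 (Pf.C 55 65926) (Pf.C 53 390))) Pf.nil)) (Pf.W 170 0 [] [1,2,3,4,5] (Pf.cons (Pf.B 6 3 (Pf.B 6 4 (Pf.B 6 5 (Pf.B 6 2 (Pf.B 6 1 (Pf.C 54 16390) (Pf.C 18 0x50218202)) (Pf.C 0 0x800106)) (Pf.C 57 82438)) (Pf.C 55 65926)) (Pf.C 53 390)) Pf.nil))))) (Pf.C 3 3)) (Pf.C 4 132)) (Pf.C 5 261)))
 (Pq.cons (Pq.L [] 63 (Pf.B 5 2 (Pf.B 3 0 (Pf.B 5 1 (Pf.B 5 0 (Pf.C 6 82048) (Pf.B 3 1 (Pf.C 6 82051) (Pf.B 4 0 (Pf.W 170 0 [] [3,4] (Pf.cons (Pf.B 6 4 (Pf.C 54 65542) (Pf.B 6 3 (Pf.C 55 65926) (Pf.C 53 390))) Pf.nil)) (Pf.B 3 2 (Pf.W 170 0 [] [2,3,4,5] (Pf.cons (Pf.B 6 3 (Pf.B 6 4 (Pf.B 6 5 (Pf.B 6 2 (Pf.C 56 32774) (Pf.C 15 0x608305)) (Pf.C 0 0x800286)) (Pf.C 55 65926)) (Pf.C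 53 390)) Pf.nil)) (Pf.W 170 0 [] [1,2,3] (Pf.cons (Pf.B 6 3 (Pf.B 6 2 (Pf.C 56 32774) (Pf.B 6 1 (Pf.C 54 16390) (Pf.C 0 0x608086))) (Pf.C 53 390)) Pf.nil)))))) (Pf.B 5 0 (Pf.W 170 0 [] [1,2,5] (Pf.cons (Pf.B 6 5 (Pf.C 56 81926) (Pf.B 6 2 (Pf.C 56 32774) (Pf.B 6 1 (Pf.C 54 16390) (Pf.C 0 0xa04302)))) Pf.nil)) (Pf.B 4 0 (Pf.W 170 0 [] [3,4] (Pf.cons (Pf.B 6 4 (Pf.C 54 65542) (Pf.B 6 3 (Pf.C 55 65926) (Pf.C 53 390))) Pf.nil)) (Pf.B 3 2 (Pf.W 170 0 [] [2,3,4,5] (Pf.cons (Pf.B 6 3 (Pf.B 6 4 (Pf.B 6 5 (Pf.B 6 2 (Pf.C 56 32774) (Pf.C 15 0x608305)) (Pf.C 0 0x800286)) (Pf.C 55 65926)) (Pf.C 53 390)) Pf.nil)) (Pf.B 3 1 (Pf.W 170 0 [] [1,3] (Pf.cons (Pf.B 6 3 (Pf.B 6 1 (Pf.C 54 16390) (Pf.C 55 16774))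 (Pf.C 53 390)) Pf.nil)) (Pf.W 170 0 [] [1,2,3] (Pf.cons (Pf.B 6 3 (Pf.B 6 2 (Pf.C 56 32774) (Pf.B 6 1 (Pf.C 54 16390) (Pf.C 0 0x608086))) (Pf.C 53 390)) Pf.nil))))))) (Pf.C 3 3)) (Pf.C 5 261)))
 (Pq.cons (Pq.L [] 63 (Pf.B 5 2 (Pf.B 4 1 (Pf.B 3 0 (Pf.B 5 1 (Pf.B 5 0 (Pf.C 6 82048) (Pf.B 4 2 (Pf.B 4 0 (Pf.W 170 0 [] [3,4] (Pf.cons (Pf.B 6 4 (Pf.C 54 65542) (Pf.B 6 3 (Pf.C 55 65926) (Pf.C 53 390))) Pf.nil)) (Pf.W 170 0 [] [1,2,3,4,5] (Pf.cons (Pf.B 6 3 (Pf.B 6 4 (Pf.B 6 5 (Pf.B 6 2 (Pf.B 6 1 (Pf.C 54 16390) (Pf.C 18 0x20218284)) (Pf.C 57 33286)) (Pf.C 0 0x800286)) (Pf.C 55 65926)) (Pf.C 53 390)) Pf.nil))) (Pf.B 4 0 (Pf.W 170 0 [] [3,4] (Pf.cons (Pf.B 6 4 (Pf.C 54 65542) (Pf.B 6 3 (Pf.C 55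 65926) (Pf.C 53 390))) Pf.nil)) (Pf.C 0 0xa00202)))) (Pf.B 5 0 (Pf.B 3 1 (Pf.W 170 0 [] [1,3] (Pf.cons (Pf.B 6 3 (Pf.B 6 1 (Pf.C 54 16390) (Pf.C 55 16774)) (Pf.C 53 390)) Pf.nil)) (Pf.W 170 0 [] [1,3,5] (Pf.cons (Pf.B 6 5 (Pf.C 56 81926) (Pf.B 6 3 (Pf.B 6 1 (Pf.C 54 16390) (Pf.C 0 0x614086)) (Pf.C 53 390))) Pf.nil))) (Pf.B 4 2 (Pf.B 3 2 (Pf.C 6 33283) (Pf.B 3 1 (Pf.W 170 0 [] [1,3] (Pf.cons (Pf.B 6 3 (Pf.B 6 1 (Pf.C 54 16390) (Pf.C 55 16774)) (Pf.C 53 390)) Pf.nil)) (Pf.C 0 0xa04182))) (Pf.B 4 0 (Pf.W 170 0 [] [3,4] (Pf.cons (Pf.B 6 4 (Pf.C 54 65542) (Pf.B 6 3 (Pf.C 55 65926) (Pf.C 53 390))) Pf.nil)) (Pf.C 0 0xa00202))))) (Pf.C 3 3)) (Pf.C 4 132)) (Pf.C 5 261)))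
 (Pq.cons (Pq.L [] 0x23000 (Pf.W 170 0 [] [3,7] (Pf.cons (Pf.B 9 7 (Pf.C 54 0x1c009) (Pf.B 9 3 (Pf.C 55 0x1c189) (Pf.C 53 393))) Pf.nil)))
 (Pq.cons (Pq.L [] 0xb33f8 (Pf.B 8 0 (Pf.B 7 5 (Pf.B 5 0 (Pf.W 170 0 [] [5,7,8] (Pf.cons (Pf.B 9 8 (Pf.C 56 0x20009) (Pf.B 9 7 (Pf.B 9 5 (Pf.C 56 81929) (Pf.C 57 82825)) (Pf.C 0 0x101c480))) Pf.nil)) (Pf.C 0 0x610280)) (Pf.C 0 0x80c287)) (Pf.C 0 0xc1c400)))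
 (Pq.cons (Pq.L [] 64 (Pf.C 5 642))
 (Pq.cons (Pq.L [] 64 (Pf.C 4 513))
 (Pq.cons (Pq.L [] 64 (Pf.C 3 384))
 Pq.nil))))))))))
theorem e3_o47 : AllRef e3_T e3_G74 (hitObl [108,110,112] e3_h117) :=
  chkPq_sound e3_o47c _ (by decide +kernel)
noncomputable def e3_o48c : Pq := (Pq.cons (Pq.L [] 2 (Pf.C 2 256))
 (Pq.cons (Pq.L [] 2 (Pf.C 3 256))
 (Pq.cons (Pq.L [] 2 (Pf.C 4 256))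
 (Pq.cons (Pq.L [] 2 (Pf.C 5 256))
 Pq.nil))))
theorem e3_o48 : AllRef e3_T e3_G75 (twinObl [29,114,115,116] 0 [14,13,11,7]) :=
  chkPq_sound e3_o48c _ (by decide +kernel)
noncomputable def e3_o49c : Pq := (Pq.cons (Pq.L [] 0 (Pf.B 2 1 (Pf.B 2 0 (Pf.B 1 0 (Pf.C 181 32769) (Pf.C 3 1)) (Pf.C 3 2)) (Pf.C 3 130)))
 Pq.nil)
theorem e3_o49 : AllRef e3_T e3_G77 (hitObl [118] e3_h120) :=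
  chkPq_sound e3_o49c _ (by decide +kernel)
noncomputable def e3_o50c : Pq := (Pq.cons (Pq.L [] 0 (Pf.C 182 0))
 Pq.nil)
theorem e3_o50 : AllRef e3_T e3_G79 (List.map pat1 [121]) :=
  chkPq_sound e3_o50c _ (by decide +kernel)
noncomputable def e3_o51c : Pq := (Pq.cons (Pq.D 0 (Pq.cons (Pq.D 1 (Pq.cons (Pq.L [] 1 (Pf.C 2 128))
 (Pq.cons (Pq.D 2 (Pq.cons (Pq.L [] 2 (Pf.C 2 256))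
 (Pq.cons (Pq.L [] 4 (Pf.C 4 257))
 (Pq.cons (Pq.L [] 7 (Pf.W 23 0 [] [1,2] (Pf.cons (Pf.B 3 1 (Pf.W 174 2 [] [0,1,3] (Pf.cons (Pf.B 4 1 (Pf.C 57 32900) (Pf.B 4 0 (Pf.B 4 3 (Pf.C 8 16899) (Pf.W 23 4 [] [1,3] (Pf.cons (Pf.B 5 3 (Pf.B 5 1 (Pf.C 8 0x610085) (Pf.C 4 133)) (Pf.C 4 389)) Pf.nil))) (Pf.C 2 4))) Pf.nil)) (Pf.C 4 131)) Pf.nil)))
 Pq.nil)))) (Pq.cons (Pq.D 2 (Pq.cons (Pq.L [] 2 (Pf.C 2 256))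
 (Pq.cons (Pq.L [] 7 (Pf.W 23 0 [] [1,2] (Pf.cons (Pf.B 3 2 (Pf.W 174 1 [] [0,2,3] (Pf.cons (Pf.B 4 2 (Pf.C 57 16644) (Pf.B 4 0 (Pf.B 4 3 (Pf.C 8 33283) (Pf.W 23 4 [] [2,3] (Pf.cons (Pf.B 5 3 (Pf.B 5 2 (Pf.C 8 0x610105) (Pf.C 4 261)) (Pf.C 4 389)) Pf.nil))) (Pf.C 2 4))) Pf.nil)) (Pf.C 4 259)) Pf.nil)))
 (Pq.cons (Pq.L [] 4 (Pf.C 5 257))
 Pq.nil)))) Pq.nil)))) (Pq.cons (Pq.D 1 (Pq.cons (Pq.D 2 (Pq.cons (Pq.L [] 4 (Pf.C 2 257))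
 (Pq.cons (Pq.L [] 2 (Pf.C 4 256))
 (Pq.cons (Pq.L [] 7 (Pf.W 23 1 [] [0,2] (Pf.cons (Pf.B 3 0 (Pf.W 174 2 [] [0,1,3] (Pf.cons (Pf.B 4 1 (Pf.B 4 0 (Pf.C 57 32772) (Pf.B 4 3 (Pf.C 8 0x200203) (Pf.W 23 4 [] [0,3] (Pf.cons (Pf.B 5 3 (Pf.B 5 0 (Pf.C 8 0x610005) (Pf.C 4 5)) (Pf.C 4 389)) Pf.nil)))) (Pf.C 2 132)) Pf.nil)) (Pf.C 4 3)) Pf.nil)))
 Pq.nil)))) (Pq.cons (Pq.L [] 1 (Pf.C 4 128))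
 (Pq.cons (Pq.D 2 (Pq.cons (Pq.L [] 7 (Pf.W 23 2 [] [0,1] (Pf.cons (Pf.B 3 0 (Pf.W 174 1 [] [0,2,3] (Pf.cons (Pf.B 4 2 (Pf.B 4 0 (Pf.C 57 16388) (Pf.B 4 3 (Pf.C 8 0x400203) (Pf.W 23 4 [] [0,3] (Pf.cons (Pf.B 5 3 (Pf.B 5 0 (Pf.C 8 0x610005) (Pf.C 4 5)) (Pf.C 4 389)) Pf.nil)))) (Pf.C 2 260)) Pf.nil)) (Pf.C 4 3)) Pf.nil)))
 (Pq.cons (Pq.L [] 2 (Pf.C 4 256))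
 (Pq.cons (Pq.L [] 4 (Pf.C 5 257))
 Pq.nil)))) Pq.nil)))) (Pq.cons (Pq.D 1 (Pq.cons (Pq.D 2 (Pq.cons (Pq.L [] 4 (Pf.C 2 257))
 (Pq.cons (Pq.L [] 7 (Pf.W 23 1 [] [0,2] (Pf.cons (Pf.B 3 2 (Pf.W 174 0 [] [1,2,3] (Pf.cons (Pf.B 4 2 (Pf.C 57 260) (Pf.B 4 1 (Pf.B 4 3 (Pf.C 8 0x208203) (Pf.W 23 4 [] [2,3] (Pf.cons (Pf.B 5 3 (Pf.B 5 2 (Pf.C 8 0x610105) (Pf.C 4 261)) (Pf.C 4 389)) Pf.nil))) (Pf.C 2 132))) Pf.nil)) (Pf.C 4 259)) Pf.nil)))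
 (Pq.cons (Pq.L [] 2 (Pf.C 5 256))
 Pq.nil)))) (Pq.cons (Pq.D 2 (Pq.cons (Pq.L [] 7 (Pf.W 23 2 [] [0,1] (Pf.cons (Pf.B 3 1 (Pf.W 174 0 [] [1,2,3] (Pf.cons (Pf.B 4 2 (Pf.B 4 1 (Pf.C 57 132) (Pf.B 4 3 (Pf.C 8 0x404203) (Pf.W 23 4 [] [1,3] (Pf.cons (Pf.B 5 3 (Pf.B 5 1 (Pf.C 8 0x610085) (Pf.C 4 133)) (Pf.C 4 389)) Pf.nil)))) (Pf.C 2 260)) Pf.nil)) (Pf.C 4 131)) Pf.nil)))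
 (Pq.cons (Pq.L [] 4 (Pf.C 4 257))
 (Pq.cons (Pq.L [] 2 (Pf.C 5 256))
 Pq.nil)))) (Pq.cons (Pq.L [] 1 (Pf.C 5 128))
 Pq.nil)))) Pq.nil)))) (Pq.cons (Pq.D 0 (Pq.cons (Pq.D 1 (Pq.cons (Pq.D 2 (Pq.cons (Pq.L [] 64 (Pf.C 2 257))
 (Pq.cons (Pq.D 3 (Pq.cons (Pq.L [] 2247 (Pf.C 8 0x604100))
 (Pq.cons (Pq.L [] 2247 (Pf.C 8 0x604100))
 (Pq.cons (Pq.D 4 (Pq.cons (Pq.L [] 4427 (Pf.C 8 0x804100))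
 (Pq.cons (Pq.L [] 4427 (Pf.C 8 0x804100))
 (Pq.cons (Pq.L [] 33165 (Pf.C 9 0x800181))
 Pq.nil)))) Pq.nil)))) (Pq.cons (Pq.D 3 (Pq.cons (Pq.L [] 128 (Pf.C 2 385))
 (Pq.cons (Pq.D 4 (Pq.cons (Pq.L [] 33165 (Pf.C 8 0x804180))
 (Pq.cons (Pq.L [] 33165 (Pf.C 8 0x804180))
 (Pq.cons (Pq.L [] 4427 (Pf.C 9 0x800101))
 Pq.nil)))) (Pq.cons (Pq.L [] 2247 (Pf.C 9 0x600101))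
 Pq.nil)))) Pq.nil)))) (Pq.cons (Pq.D 2 (Pq.cons (Pq.D 3 (Pq.cons (Pq.L [] 2247 (Pf.C 8 0x604100))
 (Pq.cons (Pq.L [] 2247 (Pf.C 8 0x604100))
 (Pq.cons (Pq.L [] 133 (Pf.C 57 49280))
 Pq.nil)))) (Pq.cons (Pq.L [] 64 (Pf.C 4 257))
 (Pq.cons (Pq.L [] 67 (Pf.C 57 32896))
 Pq.nil)))) (Pq.cons (Pq.D 2 (Pq.cons (Pq.D 3 (Pq.cons (Pq.D 4 (Pq.cons (Pq.D 5 (Pq.cons (Pq.L [] 8787 (Pf.C 9 0xa04002))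
 (Pq.cons (Pq.D 6 (Pq.cons (Pq.L [] 0x1c0038 (Pf.C 8 0xc14200))
 (Pq.cons (Pq.L [] 0x1c0038 (Pf.C 8 0xc14200))
 (Pq.cons (Pq.L [] 0x100030 (Pf.C 57 98944))
 Pq.nil)))) (Pq.cons (Pq.L [] 0x4301a (Pf.C 9 0x414004))
 Pq.nil)))) (Pq.cons (Pq.L [] 265 (Pf.C 57 16896))
 (Pq.cons (Pq.L [] 256 (Pf.C 5 513))
 Pq.nil)))) (Pq.cons (Pq.L [] 133 (Pf.C 57 16768))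
 (Pq.cons (Pq.L [] 128 (Pf.C 5 385))
 Pq.nil)))) (Pq.cons (Pq.L [] 67 (Pf.C 57 16640))
 (Pq.cons (Pq.L [] 64 (Pf.C 5 257))
 Pq.nil)))) Pq.nil)))) (Pq.cons (Pq.D 1 (Pq.cons (Pq.D 2 (Pq.cons (Pq.L [] 64 (Pf.C 2 257))
 (Pq.cons (Pq.D 3 (Pq.cons (Pq.L [] 2247 (Pf.C 8 0x604100))
 (Pq.cons (Pq.L [] 2247 (Pf.C 8 0x604100))
 (Pq.cons (Pq.D 4 (Pq.cons (Pq.L [] 4427 (Pf.C 8 0x804100))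
 (Pq.cons (Pq.L [] 4427 (Pf.C 8 0x804100))
 (Pq.cons (Pq.D 5 (Pq.cons (Pq.D 6 (Pq.cons (Pq.L [] 0x100631 (Pf.C 12 98945))
 (Pq.cons (Pq.L [] 0x1f57db (Pf.W 21 1 [] [0,2,3,4,5,6] (Pf.cons (Pf.B 7 6 (Pf.B 7 5 (Pf.C 14 0xe18281) (Pf.B 7 4 (Pf.C 10 0x814381) (Pf.B 7 2 (Pf.C 14 0xe04106) (Pf.B 7 0 (Pf.C 12 82817) (Pf.C 0 0x410380))))) (Pf.B 7 5 (Pf.B 7 3 (Pf.C 15 0xe14181) (Pf.C 0 0xa18187)) (Pf.B 7 4 (Pf.C 10 0x814381) (Pf.C 0 0xa18384)))) Pf.nil)))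
 (Pq.cons (Pq.L [] 0x1c6779 (Pf.W 21 1 [] [0,2,4,5,6] (Pf.cons (Pf.B 7 6 (Pf.B 7 5 (Pf.C 15 0xe18085) (Pf.B 7 4 (Pf.C 10 0x814381) (Pf.C 17 0x50e10301))) (Pf.B 7 2 (Pf.B 7 5 (Pf.C 14 0xe08085) (Pf.B 7 4 (Pf.C 10 0x814381) (Pf.B 7 0 (Pf.C 12 82817) (Pf.C 0 0xc00384)))) (Pf.C 0 0x218107))) Pf.nil)))
 Pq.nil)))) (Pq.cons (Pq.D 6 (Pq.cons (Pq.L [] 0xa8580 (Pf.C 9 0x818181))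
 (Pq.cons (Pq.L [] 0x100000 (Pf.C 4 773))
 (Pq.cons (Pq.L [] 0x100600 (Pf.C 57 98945))
 Pq.nil)))) (Pq.cons (Pq.L [] 0x4301a (Pf.C 0 0x414200))
 Pq.nil)))) Pq.nil)))) Pq.nil)))) (Pq.cons (Pq.D 3 (Pq.cons (Pq.L [] 128 (Pf.C 2 385))
 (Pq.cons (Pq.D 4 (Pq.cons (Pq.L [] 33165 (Pf.C 8 0x804180))
 (Pq.cons (Pq.L [] 33165 (Pf.C 8 0x804180))
 (Pq.cons (Pq.D 5 (Pq.cons (Pq.D 6 (Pq.cons (Pq.L [] 0x100631 (Pf.C 12 98945))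
 (Pq.cons (Pq.L [] 0x1ee7dd (Pf.W 21 1 [] [0,2,3,4,5,6] (Pf.cons (Pf.B 7 6 (Pf.B 7 5 (Pf.C 14 0xe18281) (Pf.B 7 4 (Pf.C 10 0x814381) (Pf.B 7 3 (Pf.C 14 0xe04186) (Pf.B 7 0 (Pf.C 12 82817) (Pf.C 0 0x610380))))) (Pf.B 7 5 (Pf.B 7 2 (Pf.C 15 0xe14101) (Pf.C 0 0xa18107)) (Pf.B 7 4 (Pf.C 10 0x814381) (Pf.C 0 0xa18384)))) Pf.nil)))
 (Pq.cons (Pq.L [] 0x1f07b9 (Pf.W 21 1 [] [0,3,4,5,6] (Pf.cons (Pf.B 7 6 (Pf.B 7 5 (Pf.C 15 0xe18085) (Pf.B 7 4 (Pf.C 10 0x814381) (Pf.C 17 0x50e10301))) (Pf.B 7 3 (Pf.B 7 5 (Pf.C 14 0xe0c085) (Pf.B 7 4 (Pf.C 10 0x814381) (Pf.B 7 0 (Pf.C 12 82817) (Pf.C 0 0xc00384)))) (Pf.C 0 0x218187))) Pf.nil)))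
 Pq.nil)))) (Pq.cons (Pq.D 6 (Pq.cons (Pq.L [] 0x85540 (Pf.C 9 0x818101))
 (Pq.cons (Pq.L [] 0x100000 (Pf.C 4 773))
 (Pq.cons (Pq.L [] 0x100600 (Pf.C 57 98945))
 Pq.nil)))) (Pq.cons (Pq.L [] 0x5801c (Pf.C 0 0x614200))
 Pq.nil)))) Pq.nil)))) (Pq.cons (Pq.D 4 (Pq.cons (Pq.L [] 256 (Pf.C 2 513))
 (Pq.cons (Pq.D 5 (Pq.cons (Pq.L [] 0x40319 (Pf.C 8 0xa10080))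
 (Pq.cons (Pq.L [] 0x40319 (Pf.C 8 0xa10080))
 (Pq.cons (Pq.D 6 (Pq.cons (Pq.L [] 0x24cc0 (Pf.C 9 0x618101))
 (Pq.cons (Pq.L [] 0x100600 (Pf.C 57 82689))
 (Pq.cons (Pq.L [] 0x100631 (Pf.C 0 0x218280))
 Pq.nil)))) Pq.nil)))) (Pq.cons (Pq.D 5 (Pq.cons (Pq.L [] 76480 (Pf.C 9 0x614101))
 (Pq.cons (Pq.D 6 (Pq.cons (Pq.L [] 0x24cc0 (Pf.C 9 0x618101))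
 (Pq.cons (Pq.L [] 0x136800 (Pf.C 0 0x618282))
 (Pq.cons (Pq.L [] 0x100600 (Pf.C 57 98945))
 Pq.nil)))) (Pq.cons (Pq.L [] 0x43340 (Pf.C 9 0x814082))
 Pq.nil)))) Pq.nil)))) Pq.nil)))) Pq.nil)))) (Pq.cons (Pq.D 2 (Pq.cons (Pq.D 3 (Pq.cons (Pq.L [] 2247 (Pf.C 8 0x604100))
 (Pq.cons (Pq.L [] 2247 (Pf.C 8 0x604100))
 (Pq.cons (Pq.D 4 (Pq.cons (Pq.L [] 4427 (Pf.C 8 0x804100))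
 (Pq.cons (Pq.L [] 4427 (Pf.C 8 0x804100))
 (Pq.cons (Pq.D 5 (Pq.cons (Pq.L [] 66176 (Pf.C 57 49285))
 (Pq.cons (Pq.L [] 0x43000 (Pf.C 57 66178))
 (Pq.cons (Pq.L [] 0x4301a (Pf.C 0 0x414200))
 Pq.nil)))) Pq.nil)))) Pq.nil)))) (Pq.cons (Pq.L [] 64 (Pf.C 4 257))
 (Pq.cons (Pq.D 3 (Pq.cons (Pq.D 4 (Pq.cons (Pq.L [] 33165 (Pf.C 8 0x804180))
 (Pq.cons (Pq.L [] 33165 (Pf.C 8 0x804180))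
 (Pq.cons (Pq.D 5 (Pq.cons (Pq.L [] 8768 (Pf.C 57 32901))
 (Pq.cons (Pq.L [] 0x58000 (Pf.C 57 66179))
 (Pq.cons (Pq.L [] 0x5801c (Pf.C 0 0x614200))
 Pq.nil)))) Pq.nil)))) (Pq.cons (Pq.L [] 128 (Pf.C 4 385))
 (Pq.cons (Pq.D 4 (Pq.cons (Pq.D 5 (Pq.cons (Pq.L [] 0x40319 (Pf.C 8 0xa10080))
 (Pq.cons (Pq.L [] 0x40319 (Pf.C 8 0xa10080))
 (Pq.cons (Pq.L [] 0x5b800 (Pf.C 9 0x610105))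
 Pq.nil)))) (Pq.cons (Pq.L [] 256 (Pf.C 4 513))
 (Pq.cons (Pq.D 5 (Pq.cons (Pq.L [] 8768 (Pf.C 57 32901))
 (Pq.cons (Pq.D 6 (Pq.cons (Pq.L [] 17472 (Pf.C 57 32902))
 (Pq.cons (Pq.L [] 0x136800 (Pf.C 0 0x618282))
 (Pq.cons (Pq.L [] 0x136ec0 (Pf.C 18 0x30a08301))
 Pq.nil)))) (Pq.cons (Pq.L [] 0x40000 (Pf.C 5 644))
 Pq.nil)))) Pq.nil)))) Pq.nil)))) Pq.nil)))) (Pq.cons (Pq.D 2 (Pq.cons (Pq.D 3 (Pq.cons (Pq.D 4 (Pq.cons (Pq.D 5 (Pq.cons (Pq.L [] 0x4301a (Pf.C 12 82434))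
 (Pq.cons (Pq.D 6 (Pq.cons (Pq.L [] 0x1c0038 (Pf.C 8 0xc14200))
 (Pq.cons (Pq.L [] 0x1c0038 (Pf.C 8 0xc14200))
 (Pq.cons (Pq.L [] 0x24cc0 (Pf.C 9 0x618101))
 Pq.nil)))) (Pq.cons (Pq.L [] 76480 (Pf.C 9 0x614101))
 Pq.nil)))) (Pq.cons (Pq.D 5 (Pq.cons (Pq.D 6 (Pq.cons (Pq.L [] 0x1c0038 (Pf.C 8 0xc14200))
 (Pq.cons (Pq.L [] 0x1c0038 (Pf.C 8 0xc14200))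
 (Pq.cons (Pq.L [] 0x24cc0 (Pf.C 9 0x618101))
 Pq.nil)))) (Pq.cons (Pq.L [] 0x40000 (Pf.C 4 644))
 (Pq.cons (Pq.L [] 76480 (Pf.C 9 0x614101))
 Pq.nil)))) (Pq.cons (Pq.L [] 256 (Pf.C 5 513))
 Pq.nil)))) (Pq.cons (Pq.D 4 (Pq.cons (Pq.D 5 (Pq.cons (Pq.L [] 0x4301a (Pf.C 12 82434))
 (Pq.cons (Pq.D 6 (Pq.cons (Pq.L [] 0x1c0038 (Pf.C 8 0xc14200))
 (Pq.cons (Pq.L [] 0x1c0038 (Pf.C 8 0xc14200))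
 (Pq.cons (Pq.L [] 0x85540 (Pf.C 9 0x818101))
 Pq.nil)))) (Pq.cons (Pq.D 6 (Pq.cons (Pq.L [] 0x20480 (Pf.C 57 16774))
 (Pq.cons (Pq.L [] 0x136ec0 (Pf.C 18 0x30a08301))
 (Pq.cons (Pq.L [] 0x106032 (Pf.C 0 0x418280))
 Pq.nil)))) Pq.nil)))) (Pq.cons (Pq.D 5 (Pq.cons (Pq.L [] 66176 (Pf.C 57 16773))
 (Pq.cons (Pq.L [] 0x40000 (Pf.C 4 644))
 (Pq.cons (Pq.L [] 0x43340 (Pf.C 13 0x814101))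
 Pq.nil)))) (Pq.cons (Pq.L [] 256 (Pf.C 5 513))
 Pq.nil)))) (Pq.cons (Pq.L [] 128 (Pf.C 5 385))
 Pq.nil)))) (Pq.cons (Pq.D 3 (Pq.cons (Pq.D 4 (Pq.cons (Pq.D 5 (Pq.cons (Pq.L [] 0x5801c (Pf.C 12 82435))
 (Pq.cons (Pq.D 6 (Pq.cons (Pq.L [] 0x1c0038 (Pf.C 8 0xc14200))
 (Pq.cons (Pq.L [] 0x1c0038 (Pf.C 8 0xc14200))
 (Pq.cons (Pq.L [] 0xa8580 (Pf.C 9 0x818181))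
 Pq.nil)))) (Pq.cons (Pq.D 6 (Pq.cons (Pq.L [] 17472 (Pf.C 57 16646))
 (Pq.cons (Pq.L [] 0x136ec0 (Pf.C 18 0x30a08301))
 (Pq.cons (Pq.L [] 0x106032 (Pf.C 0 0x418280))
 Pq.nil)))) Pq.nil)))) (Pq.cons (Pq.D 5 (Pq.cons (Pq.L [] 8768 (Pf.C 57 16645))
 (Pq.cons (Pq.L [] 0x40000 (Pf.C 4 644))
 (Pq.cons (Pq.L [] 0x58380 (Pf.C 13 0x814181))
 Pq.nil)))) (Pq.cons (Pq.L [] 256 (Pf.C 5 513))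
 Pq.nil)))) (Pq.cons (Pq.D 4 (Pq.cons (Pq.D 5 (Pq.cons (Pq.L [] 8768 (Pf.C 57 16645))
 (Pq.cons (Pq.D 6 (Pq.cons (Pq.L [] 0x1c0038 (Pf.C 8 0xc14200))
 (Pq.cons (Pq.L [] 0x1c0038 (Pf.C 8 0xc14200))
 (Pq.cons (Pq.L [] 0x136ec0 (Pf.C 18 0x30c08281))
 Pq.nil)))) (Pq.cons (Pq.D 6 (Pq.cons (Pq.L [] 17472 (Pf.C 57 16646))
 (Pq.cons (Pq.L [] 0x136ec0 (Pf.C 18 0x30a08301))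
 (Pq.cons (Pq.L [] 0x106032 (Pf.C 0 0x418280))
 Pq.nil)))) Pq.nil)))) (Pq.cons (Pq.D 5 (Pq.cons (Pq.L [] 8768 (Pf.C 57 16645))
 (Pq.cons (Pq.L [] 0x40000 (Pf.C 4 644))
 (Pq.cons (Pq.D 6 (Pq.cons (Pq.L [] 17472 (Pf.C 57 16646))
 (Pq.cons (Pq.L [] 0x136ec0 (Pf.C 18 0x30a08301))
 (Pq.cons (Pq.L [] 0x106032 (Pf.C 0 0x418280))
 Pq.nil)))) Pq.nil)))) (Pq.cons (Pq.L [] 256 (Pf.C 5 513))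
 Pq.nil)))) (Pq.cons (Pq.L [] 128 (Pf.C 5 385))
 Pq.nil)))) (Pq.cons (Pq.L [] 64 (Pf.C 5 257))
 Pq.nil)))) Pq.nil)))) (Pq.cons (Pq.D 1 (Pq.cons (Pq.D 2 (Pq.cons (Pq.L [] 64 (Pf.C 2 257))
 (Pq.cons (Pq.D 3 (Pq.cons (Pq.L [] 2247 (Pf.C 0 0x604002))
 (Pq.cons (Pq.L [] 2247 (Pf.C 0 0x604002))
 (Pq.cons (Pq.D 4 (Pq.cons (Pq.L [] 4427 (Pf.C 0 0x804002))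
 (Pq.cons (Pq.L [] 4427 (Pf.C 0 0x804002))
 (Pq.cons (Pq.D 5 (Pq.cons (Pq.L [] 0x5801c (Pf.C 9 0x614004))
 (Pq.cons (Pq.D 6 (Pq.cons (Pq.L [] 0x130034 (Pf.C 0 0x618280))
 (Pq.cons (Pq.L [] 0x130034 (Pf.C 0 0x618280))
 (Pq.cons (Pq.L [] 17507 (Pf.C 0 0xc08080))
 Pq.nil)))) (Pq.cons (Pq.L [] 8787 (Pf.C 0 0xa08080))
 Pq.nil)))) Pq.nil)))) Pq.nil)))) (Pq.cons (Pq.D 3 (Pq.cons (Pq.L [] 128 (Pf.C 2 385))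
 (Pq.cons (Pq.D 4 (Pq.cons (Pq.L [] 33165 (Pf.C 0 0x804003))
 (Pq.cons (Pq.L [] 33165 (Pf.C 0 0x804003))
 (Pq.cons (Pq.D 5 (Pq.cons (Pq.L [] 0x4301a (Pf.C 9 0x414004))
 (Pq.cons (Pq.D 6 (Pq.cons (Pq.L [] 0x106032 (Pf.C 0 0x418280))
 (Pq.cons (Pq.L [] 0x106032 (Pf.C 0 0x418280))
 (Pq.cons (Pq.L [] 0x204a5 (Pf.C 0 0xc0c080))
 Pq.nil)))) (Pq.cons (Pq.L [] 66197 (Pf.C 0 0xa0c080))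
 Pq.nil)))) Pq.nil)))) (Pq.cons (Pq.D 4 (Pq.cons (Pq.L [] 256 (Pf.C 2 513))
 (Pq.cons (Pq.D 5 (Pq.cons (Pq.L [] 0x4301a (Pf.C 0 0x414200))
 (Pq.cons (Pq.L [] 0x4301a (Pf.C 0 0x414200))
 (Pq.cons (Pq.L [] 8787 (Pf.C 9 0xa04002))
 Pq.nil)))) (Pq.cons (Pq.D 5 (Pq.cons (Pq.L [] 0x4301a (Pf.C 9 0x414004))
 (Pq.cons (Pq.D 6 (Pq.cons (Pq.L [] 0x106032 (Pf.C 0 0x418280))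
 (Pq.cons (Pq.L [] 0x106032 (Pf.C 0 0x418280))
 (Pq.cons (Pq.L [] 17507 (Pf.C 9 0xc04002))
 Pq.nil)))) (Pq.cons (Pq.L [] 8787 (Pf.C 9 0xa04002))
 Pq.nil)))) Pq.nil)))) Pq.nil)))) Pq.nil)))) (Pq.cons (Pq.D 2 (Pq.cons (Pq.D 3 (Pq.cons (Pq.L [] 2247 (Pf.C 0 0x604002))
 (Pq.cons (Pq.L [] 2247 (Pf.C 0 0x604002))
 (Pq.cons (Pq.D 4 (Pq.cons (Pq.L [] 4427 (Pf.C 0 0x804002))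
 (Pq.cons (Pq.L [] 4427 (Pf.C 0 0x804002))
 (Pq.cons (Pq.D 5 (Pq.cons (Pq.L [] 0x5801c (Pf.C 9 0x614004))
 (Pq.cons (Pq.L [] 0x43000 (Pf.C 57 66178))
 (Pq.cons (Pq.L [] 8787 (Pf.C 0 0xa08080))
 Pq.nil)))) Pq.nil)))) Pq.nil)))) (Pq.cons (Pq.L [] 64 (Pf.C 4 257))
 (Pq.cons (Pq.D 3 (Pq.cons (Pq.D 4 (Pq.cons (Pq.L [] 33165 (Pf.C 0 0x804003))
 (Pq.cons (Pq.L [] 33165 (Pf.C 0 0x804003))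
 (Pq.cons (Pq.D 5 (Pq.cons (Pq.L [] 0x4301a (Pf.C 9 0x414004))
 (Pq.cons (Pq.L [] 0x58000 (Pf.C 57 66179))
 (Pq.cons (Pq.L [] 66197 (Pf.C 0 0xa0c080))
 Pq.nil)))) Pq.nil)))) (Pq.cons (Pq.L [] 128 (Pf.C 4 385))
 (Pq.cons (Pq.D 4 (Pq.cons (Pq.D 5 (Pq.cons (Pq.L [] 0x4301a (Pf.C 0 0x414200))
 (Pq.cons (Pq.L [] 0x4301a (Pf.C 0 0x414200))
 (Pq.cons (Pq.L [] 0x4301a (Pf.C 9 0x410005))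
 Pq.nil)))) (Pq.cons (Pq.L [] 256 (Pf.C 4 513))
 (Pq.cons (Pq.D 5 (Pq.cons (Pq.L [] 0x4301a (Pf.C 9 0x414004))
 (Pq.cons (Pq.D 6 (Pq.cons (Pq.L [] 0x106032 (Pf.C 0 0x418280))
 (Pq.cons (Pq.L [] 0x106032 (Pf.C 0 0x418280))
 (Pq.cons (Pq.L [] 0x136ec0 (Pf.C 18 0x30a08301))
 Pq.nil)))) (Pq.cons (Pq.L [] 0x40000 (Pf.C 5 644))
 Pq.nil)))) Pq.nil)))) Pq.nil)))) Pq.nil)))) (Pq.cons (Pq.D 2 (Pq.cons (Pq.D 3 (Pq.cons (Pq.L [] 2247 (Pf.C 9 0x600101))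
 (Pq.cons (Pq.D 4 (Pq.cons (Pq.L [] 4427 (Pf.C 9 0x800101))
 (Pq.cons (Pq.D 5 (Pq.cons (Pq.L [] 66176 (Pf.C 57 16773))
 (Pq.cons (Pq.L [] 0x40000 (Pf.C 4 644))
 (Pq.cons (Pq.L [] 8787 (Pf.C 9 0xa08001))
 Pq.nil)))) (Pq.cons (Pq.L [] 256 (Pf.C 5 513))
 Pq.nil)))) (Pq.cons (Pq.L [] 128 (Pf.C 5 385))
 Pq.nil)))) (Pq.cons (Pq.D 3 (Pq.cons (Pq.D 4 (Pq.cons (Pq.L [] 33165 (Pf.C 9 0x800181))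
 (Pq.cons (Pq.D 5 (Pq.cons (Pq.L [] 8768 (Pf.C 57 16645))
 (Pq.cons (Pq.L [] 0x40000 (Pf.C 4 644))
 (Pq.cons (Pq.L [] 66197 (Pf.C 9 0xa0c001))
 Pq.nil)))) (Pq.cons (Pq.L [] 256 (Pf.C 5 513))
 Pq.nil)))) (Pq.cons (Pq.D 4 (Pq.cons (Pq.D 5 (Pq.cons (Pq.L [] 8768 (Pf.C 57 16645))
 (Pq.cons (Pq.D 6 (Pq.cons (Pq.L [] 0x100631 (Pf.C 0 0x218280))
 (Pq.cons (Pq.L [] 0x100631 (Pf.C 0 0x218280))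
 (Pq.cons (Pq.L [] 0x80529 (Pf.C 9 0xc10001))
 Pq.nil)))) (Pq.cons (Pq.D 6 (Pq.cons (Pq.L [] 0x100631 (Pf.C 9 0x218005))
 (Pq.cons (Pq.L [] 0x136ec0 (Pf.C 18 0x30a08301))
 (Pq.cons (Pq.L [] 0x80529 (Pf.C 9 0xc10001))
 Pq.nil)))) Pq.nil)))) (Pq.cons (Pq.D 5 (Pq.cons (Pq.L [] 8768 (Pf.C 57 16645))
 (Pq.cons (Pq.L [] 0x40000 (Pf.C 4 644))
 (Pq.cons (Pq.D 6 (Pq.cons (Pq.L [] 0x100631 (Pf.C 9 0x218005))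
 (Pq.cons (Pq.L [] 0x136ec0 (Pf.C 18 0x30a08301))
 (Pq.cons (Pq.L [] 0x136800 (Pf.C 0 0x618282))
 Pq.nil)))) Pq.nil)))) (Pq.cons (Pq.L [] 256 (Pf.C 5 513))
 Pq.nil)))) (Pq.cons (Pq.L [] 128 (Pf.C 5 385))
 Pq.nil)))) (Pq.cons (Pq.L [] 64 (Pf.C 5 257))
 Pq.nil)))) Pq.nil)))) Pq.nil)))) Pq.nil))
theorem e3_o51 : AllRef e3_T e3_G80 (applyObl d_T 2 [117,119,120] [0,0,0] [(117,0x1000000000000000000000000000000),(119,0x1000000000000000000000000000000),(120,0xa00000000000000000000000000000)]) :=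
  chkPq_sound e3_o51c _ (by decide +kernel)
noncomputable def e3_o52c : Pq := Pq.nil
theorem e3_o52 : AllRef e3_T e3_G78 (ptObl 118 PT.kid []) :=
  chkPq_sound e3_o52c _ (by decide +kernel)
noncomputable def e3_o53c : Pq := (Pq.cons (Pq.L [0,1] 0 (Pf.C 176 49280))
 (Pq.cons (Pq.L [0,2] 0 (Pf.C 176 49408))
 (Pq.cons (Pq.L [1,2] 0 (Pf.C 176 49409))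
 Pq.nil)))
theorem e3_o53 : AllRef e3_T e3_G81 (ptObl 119 (PT.br 0 (PT.br 1 PT.ref (PT.br 2 PT.ref PT.kid)) (PT.br 1 (PT.br 2 PT.ref PT.kid) (PT.br 2 PT.kid PT.kid))) []) :=
  chkPq_sound e3_o53c _ (by decide +kernel)
noncomputable def e3_o54c : Pq := (Pq.cons (Pq.L [0,1,2] 0 (Pf.W 170 0 [] [1,2,3] (Pf.cons (Pf.B 4 3 (Pf.C 54 49156) (Pf.B 4 2 (Pf.B 4 1 (Pf.W 170 1 [] [0,2,3,4] (Pf.cons (Pf.B 5 4 (Pf.B 5 2 (Pf.B 5 0 (Pf.B 5 3 (Pf.W 170 2 [] [0,1,3,4,5] (Pf.cons (Pf.B 6 5 (Pf.B 6 4 (Pf.B 6 3 (Pf.B 6 1 (Pf.B 6 0 (Pf.W 23 4 [] [0,1,2,3,5,6] (Pf.cons (Pf.B 7 3 (Pf.B 7 6 (Pf.B 7 2 (Pf.C 12 0xe18104) (Pf.B 7 0 (Pf.C 12 0xe10006) (Pf.B 7 5 (Pf.B 7 1 (Pf.C 12 0xe14084) (Pf.W 27 4 [] [1,2,3,5,6,7]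 (Pf.cons (Pf.B 8 7 (Pf.B 8 6 (Pf.B 8 5 (Pf.B 8 3 (Pf.C 11 0x1010185) (Pf.B 8 2 (Pf.C 10 0x1018104) (Pf.B 8 1 (Pf.C 10 0x1014084) (Pf.C 0 0x40c401)))) (Pf.C 13 0xe14404)) (Pf.C 13 0xe18404)) (Pf.B 8 6 (Pf.B 8 3 (Pf.C 11 0x1010186) (Pf.B 8 2 (Pf.C 10 0x1018104) (Pf.C 0 0xe08403))) (Pf.B 8 5 (Pf.B 8 3 (Pf.C 11 0x1010185) (Pf.B 8 2 (Pf.B 8 1 (Pf.C 10 0x1014082) (Pf.C 0 0xe04403)) (Pf.C 0 0xc08403))) (Pf.C 9 0xc20284)))) Pf.nil))) (Pf.W 180 257 [] [0,3,4,5,6,7] (Pf.cons (Pf.W 27 4 [] [0,1,2,3,5,6,7] (Pf.cons (Pf.B 8 7 (Pf.B 8 6 (Pf.B 8 5 (Pf.C 11 0x101c284) (Pf.B 8 3 (Pf.C 11 0x1010186) (Pf.B 8 2 (Pf.C 10 0x1018104) (Pf.B 8 1 (Pf.B 7 1 (Pf.C 6 0x20381) (Pf.W 27 5 [] [1,6,7,8] (Pf.cons (Pf.B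 9 8 (Pf.B 9 7 (Pf.B 9 6 (Pf.C 11 0x121c286) (Pf.C 13 0xe18488)) (Pf.B 9 1 (Pf.B 9 6 (Pf.C 10 0x1214086) (Pf.C 15 0x218488)) (Pf.C 0 0xa1c089))) (Pf.C 5 1033)) Pf.nil))) (Pf.C 0 0x40c401))))) (Pf.C 13 0xe18404)) (Pf.B 8 6 (Pf.B 8 3 (Pf.C 11 0x1010186) (Pf.B 8 2 (Pf.C 10 0x1018104) (Pf.C 0 0xe08403))) (Pf.B 8 5 (Pf.B 8 3 (Pf.C 11 0x1010185) (Pf.B 8 2 (Pf.B 8 1 (Pf.C 10 0x1014082) (Pf.B 8 0 (Pf.C 10 0x1010002) (Pf.B 7 1 (Pf.W 27 6 [] [0,1,2,3,4,5,7,8] (Pf.cons (Pf.B 9 8 (Pf.B 9 7 (Pf.B 9 5 (Pf.C 11 0x121c286) (Pf.B 9 4 (Pf.B 9 3 (Pf.C 11 0x1210186) (Pf.B 9 1 (Pf.C 6 0x24381) (Pf.C 0 0x100c089))) (Pf.C 9 0xa24206))) (Pf.B 9 0 (Pf.B 9 5 (Pf.B 9 4 (Pf.C 10 0x1200205) (Pf.B 9 3 (Pf.C 6 0x24180)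 (Pf.B 9 2 (Pf.C 10 0x1218100) (Pf.C 0 0x80c482)))) (Pf.C 15 83078)) (Pf.C 0 0x101c009))) (Pf.C 5 1033)) Pf.nil)) (Pf.C 0 0x620087)))) (Pf.C 0 0xc08403))) (Pf.C 9 0xc20284)))) Pf.nil)) (Pf.cons (Pf.B 8 5 (Pf.C 7 0xa04402) (Pf.C 2 648)) (Pf.cons (Pf.W 27 4 [] [0,1,2,3,5,6,7] (Pf.cons (Pf.B 8 7 (Pf.B 8 6 (Pf.B 8 5 (Pf.C 11 0x101c284) (Pf.B 8 3 (Pf.C 11 0x1010186) (Pf.B 8 2 (Pf.C 10 0x1018104) (Pf.B 8 1 (Pf.B 7 1 (Pf.C 6 0x20381) (Pf.W 27 5 [] [1,6,7,8] (Pf.cons (Pf.B 9 8 (Pf.B 9 7 (Pf.B 9 6 (Pf.C 11 0x121c286) (Pf.C 13 0xe18488)) (Pf.B 9 1 (Pf.B 9 6 (Pf.C 10 0x1214086) (Pf.C 15 0x218488)) (Pf.C 0 0xa1c089))) (Pf.C 5 1033)) Pf.nil))) (Pf.C 0 0x40c401))))) (Pf.C 13 0xe18404)) (Pf.B 8 6 (Pf.B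 8 3 (Pf.C 11 0x1010186) (Pf.B 8 2 (Pf.C 10 0x1018104) (Pf.C 0 0xe08403))) (Pf.B 8 5 (Pf.B 8 3 (Pf.C 11 0x1010185) (Pf.B 8 2 (Pf.B 8 1 (Pf.C 10 0x1014082) (Pf.B 8 0 (Pf.C 10 0x1010002) (Pf.B 7 1 (Pf.W 27 6 [] [0,1,2,3,4,5,7,8] (Pf.cons (Pf.B 9 8 (Pf.B 9 7 (Pf.B 9 5 (Pf.C 11 0x121c286) (Pf.B 9 4 (Pf.B 9 3 (Pf.C 11 0x1210186) (Pf.B 9 1 (Pf.C 6 0x24381) (Pf.C 0 0x100c089))) (Pf.C 9 0xa24206))) (Pf.B 9 0 (Pf.B 9 5 (Pf.B 9 4 (Pf.C 10 0x1200205) (Pf.B 9 3 (Pf.C 6 0x24180) (Pf.B 9 2 (Pf.C 10 0x1218100) (Pf.C 0 0x80c482)))) (Pf.C 15 83078)) (Pf.C 0 0x101c009))) (Pf.C 5 1033)) Pf.nil)) (Pf.C 0 0x620087)))) (Pf.C 0 0xc08403))) (Pf.C 9 0xc20284)))) Pf.nil)) (Pf.cons (Pf.B 8 6 (Pf.C 7 0xc08401) (Pf.C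 2 776)) (Pf.cons (Pf.B 8 7 (Pf.B 8 6 (Pf.C 54 0x20106) (Pf.B 8 5 (Pf.B 8 4 (Pf.B 8 3 (Pf.B 8 0 (Pf.C 54 0x20004) (Pf.T 8 36 (Pf.cons (Pf.W 27 4 [] [0,1,2,3,5,6,7,8] (Pf.cons (Pf.B 9 8 (Pf.B 9 6 (Pf.C 11 0x1220304) (Pf.B 9 5 (Pf.B 9 3 (Pf.C 11 0x1210185) (Pf.B 9 2 (Pf.C 6 0x24402) (Pf.C 0 0xc08483))) (Pf.C 9 0xc24284))) (Pf.B 9 7 (Pf.B 9 6 (Pf.B 9 5 (Pf.C 11 0x121c284) (Pf.B 9 3 (Pf.C 11 0x1210186) (Pf.B 9 2 (Pf.C 10 0x1218104) (Pf.B 9 1 (Pf.B 9 0 (Pf.C 10 0x1210001) (Pf.W 27 5 [] [0,2,3,4,6,8,9] (Pf.cons (Pf.B 10 9 (Pf.B 10 8 (Pf.B 10 6 (Pf.C 11 0x1420305) (Pf.B 10 4 (Pf.B 10 3 (Pf.C 11 0x1410185) (Pf.B 10 2 (Pf.C 6 0x28402) (Pf.C 0 0x120c10a))) (Pf.C 9 0xc28205))) (Pf.B 10 0 (Pf.B 10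 6 (Pf.B 10 3 (Pf.C 6 0x28180) (Pf.B 10 2 (Pf.C 10 0x1418100) (Pf.C 0 0x120c10a))) (Pf.C 15 99589)) (Pf.C 0 0x122000a))) (Pf.C 5 1162)) Pf.nil))) (Pf.C 0 0x40c481))))) (Pf.C 13 0xe18484)) (Pf.B 9 3 (Pf.C 18 0x8121c203) (Pf.B 9 2 (Pf.B 9 6 (Pf.C 10 0x1208304) (Pf.B 9 5 (Pf.B 9 1 (Pf.C 10 0x1214082) (Pf.C 0 0xc20481)) (Pf.C 9 0xc24284))) (Pf.C 0 0xe08483))))) Pf.nil)) Pf.nil))) (Pf.C 4 392)) (Pf.C 55 0x20104)) (Pf.C 55 0x20105))) (Pf.C 4 904)) (Pf.cons (Pf.T 7 36 (Pf.cons (Pf.W 27 4 [] [0,1,2,3,5,6,7] (Pf.cons (Pf.B 8 7 (Pf.B 8 6 (Pf.B 8 3 (Pf.C 11 0x1010186) (Pf.B 8 2 (Pf.C 10 0x1018104) (Pf.B 8 1 (Pf.C 6 0x20381) (Pf.C 0 0x40c401)))) (Pf.C 13 0xe18404)) (Pf.B 8 6 (Pf.B 8 3 (Pf.C 11 0x1010186)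 (Pf.B 8 2 (Pf.C 10 0x1018104) (Pf.C 0 0xe08403))) (Pf.B 8 5 (Pf.B 8 3 (Pf.C 11 0x1010185) (Pf.B 8 2 (Pf.B 8 1 (Pf.C 10 0x1014082) (Pf.B 8 0 (Pf.C 10 0x1010002) (Pf.W 27 6 [] [0,1,2,3,4,5,7,8] (Pf.cons (Pf.B 9 8 (Pf.B 9 7 (Pf.B 9 5 (Pf.C 11 0x121c286) (Pf.B 9 4 (Pf.B 9 3 (Pf.C 11 0x1210186) (Pf.B 9 1 (Pf.C 6 0x24381) (Pf.C 0 0x100c089))) (Pf.C 9 0xa24206))) (Pf.B 9 0 (Pf.B 9 5 (Pf.B 9 4 (Pf.C 10 0x1200205) (Pf.B 9 3 (Pf.C 6 0x24180) (Pf.B 9 2 (Pf.C 10 0x1218100) (Pf.C 0 0x80c482)))) (Pf.C 15 83078)) (Pf.C 0 0x101c009))) (Pf.C 5 1033)) Pf.nil)))) (Pf.C 0 0xc08403))) (Pf.C 9 0xc20284)))) Pf.nil)) Pf.nil)) (Pf.cons (Pf.B 8 7 (Pf.B 8 6 (Pf.B 8 5 (Pf.C 54 0x20085) (Pf.C 8 0xe14406)) (Pf.C 55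 0x20086)) (Pf.C 4 904)) (Pf.cons (Pf.B 8 6 (Pf.C 56 0x20106) (Pf.B 8 3 (Pf.C 57 0x20186) (Pf.C 179 0x20181))) (Pf.cons (Pf.B 8 5 (Pf.C 56 0x20085) (Pf.B 8 3 (Pf.C 57 0x20185) (Pf.C 179 0x20182))) Pf.nil))))))))))))) (Pf.B 7 5 (Pf.B 7 1 (Pf.C 12 0xe14084) (Pf.B 7 0 (Pf.C 12 0xe10005) (Pf.W 180 257 [] [0,3,4,5,6,7] (Pf.cons (Pf.W 27 4 [] [0,1,2,3,5,6,7] (Pf.cons (Pf.B 8 7 (Pf.B 8 6 (Pf.C 11 0x101c304) (Pf.B 8 5 (Pf.B 8 3 (Pf.C 11 0x1010185) (Pf.B 8 2 (Pf.B 7 2 (Pf.C 6 0x20382) (Pf.W 27 6 [] [2,5,7,8] (Pf.cons (Pf.B 9 8 (Pf.B 9 7 (Pf.B 9 5 (Pf.C 11 0x121c305) (Pf.C 13 0xe14488)) (Pf.B 9 2 (Pf.B 9 5 (Pf.C 10 0x1218105) (Pf.C 15 0x414488)) (Pf.C 0 0xc1c109))) (Pf.C 5 1033)) Pf.nil))) (Pf.C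 0 0xc08403))) (Pf.C 9 0xc20284))) (Pf.B 8 6 (Pf.B 8 3 (Pf.C 11 0x1010186) (Pf.B 8 2 (Pf.C 10 0x1018104) (Pf.B 8 1 (Pf.B 8 5 (Pf.C 10 0x1004284) (Pf.B 8 0 (Pf.C 10 0x1010001) (Pf.B 7 2 (Pf.W 27 5 [] [0,2,3,4,6,7,8] (Pf.cons (Pf.B 9 8 (Pf.B 9 7 (Pf.B 9 6 (Pf.C 11 0x121c305) (Pf.B 9 4 (Pf.B 9 3 (Pf.C 11 0x1210185) (Pf.B 9 2 (Pf.C 6 0x24382) (Pf.C 0 0x100c109))) (Pf.C 9 0xc24205))) (Pf.B 9 0 (Pf.B 9 6 (Pf.B 9 3 (Pf.C 6 0x24180) (Pf.B 9 2 (Pf.C 10 0x1218100) (Pf.C 0 0x100c109))) (Pf.C 15 99461)) (Pf.C 0 0x101c009))) (Pf.C 5 1033)) Pf.nil)) (Pf.C 0 0x620107)))) (Pf.C 0 0x40c401)))) (Pf.B 8 5 (Pf.B 8 3 (Pf.C 11 0x1010185) (Pf.B 8 2 (Pf.B 8 1 (Pf.C 10 0x1014082) (Pf.C 0 0xc1c401)) (Pf.C 0 0xc08403)))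 (Pf.C 9 0xc20284)))) Pf.nil)) (Pf.cons (Pf.B 8 5 (Pf.C 7 0xa04402) (Pf.C 2 648)) (Pf.cons (Pf.W 27 4 [] [0,1,2,3,5,6,7] (Pf.cons (Pf.B 8 7 (Pf.B 8 6 (Pf.C 11 0x101c304) (Pf.B 8 5 (Pf.B 8 3 (Pf.C 11 0x1010185) (Pf.B 8 2 (Pf.B 7 2 (Pf.C 6 0x20382) (Pf.W 27 6 [] [2,5,7,8] (Pf.cons (Pf.B 9 8 (Pf.B 9 7 (Pf.B 9 5 (Pf.C 11 0x121c305) (Pf.C 13 0xe14488)) (Pf.B 9 2 (Pf.B 9 5 (Pf.C 10 0x1218105) (Pf.C 15 0x414488)) (Pf.C 0 0xc1c109))) (Pf.C 5 1033)) Pf.nil))) (Pf.C 0 0xc08403))) (Pf.C 9 0xc20284))) (Pf.B 8 6 (Pf.B 8 3 (Pf.C 11 0x1010186) (Pf.B 8 2 (Pf.C 10 0x1018104) (Pf.B 8 1 (Pf.B 8 5 (Pf.C 10 0x1004284) (Pf.B 8 0 (Pf.C 10 0x1010001) (Pf.B 7 2 (Pf.W 27 5 [] [0,2,3,4,6,7,8] (Pf.cons (Pf.B 9 8 (Pf.B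 9 7 (Pf.B 9 6 (Pf.C 11 0x121c305) (Pf.B 9 4 (Pf.B 9 3 (Pf.C 11 0x1210185) (Pf.B 9 2 (Pf.C 6 0x24382) (Pf.C 0 0x100c109))) (Pf.C 9 0xc24205))) (Pf.B 9 0 (Pf.B 9 6 (Pf.B 9 3 (Pf.C 6 0x24180) (Pf.B 9 2 (Pf.C 10 0x1218100) (Pf.C 0 0x100c109))) (Pf.C 15 99461)) (Pf.C 0 0x101c009))) (Pf.C 5 1033)) Pf.nil)) (Pf.C 0 0x620107)))) (Pf.C 0 0x40c401)))) (Pf.B 8 5 (Pf.B 8 3 (Pf.C 11 0x1010185) (Pf.B 8 2 (Pf.B 8 1 (Pf.C 10 0x1014082) (Pf.C 0 0xc1c401)) (Pf.C 0 0xc08403))) (Pf.C 9 0xc20284)))) Pf.nil)) (Pf.cons (Pf.B 8 6 (Pf.C 7 0xc08401) (Pf.C 2 776)) (Pf.cons (Pf.T 7 36 (Pf.cons (Pf.W 27 4 [] [0,1,2,3,5,6,7] (Pf.cons (Pf.B 8 7 (Pf.B 8 6 (Pf.C 11 0x101c304) (Pf.B 8 5 (Pf.B 8 3 (Pf.C 11 0x1010185) (Pf.B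 8 2 (Pf.C 6 0x20382) (Pf.C 0 0xc08403))) (Pf.C 9 0xc20284))) (Pf.B 8 6 (Pf.B 8 3 (Pf.C 11 0x1010186) (Pf.B 8 2 (Pf.C 10 0x1018104) (Pf.B 8 1 (Pf.B 8 5 (Pf.C 10 0x1004284) (Pf.B 8 0 (Pf.C 10 0x1010001) (Pf.W 27 5 [] [0,2,3,4,6,7,8] (Pf.cons (Pf.B 9 8 (Pf.B 9 7 (Pf.B 9 6 (Pf.C 11 0x121c305) (Pf.B 9 4 (Pf.B 9 3 (Pf.C 11 0x1210185) (Pf.B 9 2 (Pf.C 6 0x24382) (Pf.C 0 0x100c109))) (Pf.C 9 0xc24205))) (Pf.B 9 0 (Pf.B 9 6 (Pf.B 9 3 (Pf.C 6 0x24180) (Pf.B 9 2 (Pf.C 10 0x1218100) (Pf.C 0 0x100c109))) (Pf.C 15 99461)) (Pf.C 0 0x101c009))) (Pf.C 5 1033)) Pf.nil)))) (Pf.C 0 0x40c401)))) (Pf.B 8 5 (Pf.B 8 2 (Pf.B 8 1 (Pf.C 10 0x1014082) (Pf.C 0 0xc1c401)) (Pf.C 0 0xe18402)) (Pf.C 9 0xc20284)))) Pf.nil))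 Pf.nil)) (Pf.cons (Pf.B 8 7 (Pf.B 8 6 (Pf.C 54 0x20106) (Pf.B 8 5 (Pf.C 8 0xe18405) (Pf.C 55 0x20105))) (Pf.C 4 904)) (Pf.cons (Pf.B 8 7 (Pf.B 8 6 (Pf.B 8 5 (Pf.C 54 0x20085) (Pf.B 8 4 (Pf.B 8 3 (Pf.B 8 0 (Pf.C 54 0x20004) (Pf.T 8 36 (Pf.cons (Pf.W 27 4 [] [0,1,2,3,5,6,7,8] (Pf.cons (Pf.B 9 8 (Pf.B 9 6 (Pf.B 9 3 (Pf.C 11 0x1210186) (Pf.B 9 2 (Pf.C 10 0x1218104) (Pf.B 9 1 (Pf.C 6 0x24401) (Pf.C 0 0x40c481)))) (Pf.C 13 0x1018484)) (Pf.B 9 7 (Pf.B 9 6 (Pf.C 11 0x121c304) (Pf.B 9 5 (Pf.B 9 3 (Pf.C 11 0x1210185) (Pf.B 9 2 (Pf.B 9 0 (Pf.C 10 0x1210002) (Pf.B 7 2 (Pf.C 6 0x24382) (Pf.W 27 6 [] [0,2,4,5,7,8,9] (Pf.cons (Pf.B 10 9 (Pf.B 10 8 (Pf.B 10 7 (Pf.C 11 0x1418388) (Pf.B 10 5 (Pf.C 11 0x1420286)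 (Pf.B 10 4 (Pf.B 10 2 (Pf.C 10 0x1418104) (Pf.C 0 0xc1c10a)) (Pf.C 9 0xa28206)))) (Pf.B 10 0 (Pf.B 10 5 (Pf.B 10 7 (Pf.C 11 0x1418385) (Pf.B 10 2 (Pf.C 10 0x1418100) (Pf.C 0 0xc1c10a))) (Pf.C 15 83206)) (Pf.C 0 0x122000a))) (Pf.C 5 1162)) Pf.nil)))) (Pf.C 0 0xc08483))) (Pf.C 9 0xc24284))) (Pf.B 9 3 (Pf.C 18 0x8121c203) (Pf.B 9 2 (Pf.B 9 6 (Pf.C 10 0x1208304) (Pf.B 9 5 (Pf.B 9 1 (Pf.C 10 0x1214082) (Pf.C 0 0xc1c481)) (Pf.C 9 0xc24284))) (Pf.C 0 0x1008483))))) Pf.nil)) Pf.nil))) (Pf.C 4 392)) (Pf.C 55 0x20084))) (Pf.C 55 0x20086)) (Pf.C 4 904)) (Pf.cons (Pf.B 8 6 (Pf.C 56 0x20106) (Pf.B 8 3 (Pf.C 57 0x20186) (Pf.C 179 0x20181))) (Pf.cons (Pf.B 8 5 (Pf.C 56 0x20085) (Pf.B 8 3 (Pf.C 57 0x20185)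 (Pf.C 179 0x20182))) Pf.nil)))))))))))) (Pf.C 8 0xc1c283))) (Pf.C 4 391)) Pf.nil)) (Pf.C 53 32774)) (Pf.C 53 32902)) (Pf.C 8 0x80c305)) (Pf.C 2 518)) (Pf.C 2 646)) Pf.nil)) (Pf.C 55 49157)) (Pf.C 53 16389)) (Pf.C 53 16645)) (Pf.C 2 517)) Pf.nil)) (Pf.C 53 132)) (Pf.C 53 260))) Pf.nil)))
 (Pq.cons (Pq.L [0,1,2] 0 (Pf.W 170 0 [] [1,2,3] (Pf.cons (Pf.B 4 2 (Pf.B 4 1 (Pf.B 4 3 (Pf.W 170 1 [] [0,2,3,4] (Pf.cons (Pf.B 5 4 (Pf.B 5 3 (Pf.C 54 49285) (Pf.B 5 2 (Pf.B 5 0 (Pf.W 170 2 [] [0,1,3,4,5] (Pf.cons (Pf.B 6 5 (Pf.B 6 4 (Pf.B 6 3 (Pf.B 6 1 (Pf.B 6 0 (Pf.W 23 5 [] [0,1,2,3,4,6] (Pf.cons (Pf.B 7 3 (Pf.B 7 6 (Pf.B 7 2 (Pf.C 12 0xe18105) (Pf.B 7 1 (Pf.C 12 0xe14086) (Pf.B 7 4 (Pf.B 7 0 (Pf.C 12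 0xe10005) (Pf.W 27 4 [] [0,1,2,3,5,6,7] (Pf.cons (Pf.B 8 7 (Pf.B 8 6 (Pf.B 8 5 (Pf.B 8 3 (Pf.C 11 0x1014184) (Pf.B 8 2 (Pf.C 10 0x1018104) (Pf.B 8 0 (Pf.C 10 0x1010005) (Pf.C 0 0x40c400)))) (Pf.C 13 0xe14404)) (Pf.C 13 0xe18404)) (Pf.B 8 6 (Pf.B 8 2 (Pf.C 10 0x1018104) (Pf.B 8 3 (Pf.B 8 1 (Pf.C 6 0x20181) (Pf.C 0 0x41c401)) (Pf.C 0 0xe08403))) (Pf.B 8 5 (Pf.B 8 3 (Pf.C 11 0x1014184) (Pf.B 8 2 (Pf.B 8 1 (Pf.C 10 0x1014082) (Pf.B 8 0 (Pf.C 10 0x1010002) (Pf.C 0 0x21c400))) (Pf.C 0 0xc08403))) (Pf.C 9 0xc20284)))) Pf.nil))) (Pf.W 180 256 [] [1,3,4,5,6,7] (Pf.cons (Pf.W 27 4 [] [0,1,2,3,5,6,7] (Pf.cons (Pf.B 8 7 (Pf.B 8 6 (Pf.C 11 0x101c206) (Pf.B 8 5 (Pf.C 11 0x101c205) (Pf.C 9 0xc20284)))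 (Pf.B 8 6 (Pf.B 8 2 (Pf.C 10 0x1018104) (Pf.B 8 3 (Pf.B 8 1 (Pf.C 6 0x20181) (Pf.C 0 0x41c401)) (Pf.C 0 0xe08403))) (Pf.B 8 5 (Pf.B 8 3 (Pf.C 11 0x1014184) (Pf.B 8 2 (Pf.B 8 1 (Pf.C 10 0x1014082) (Pf.B 8 0 (Pf.C 10 0x1010002) (Pf.B 7 0 (Pf.W 27 6 [] [0,1,2,3,5,7,8] (Pf.cons (Pf.B 9 8 (Pf.B 9 7 (Pf.B 9 5 (Pf.B 9 3 (Pf.C 11 0x1214186) (Pf.B 9 0 (Pf.C 6 0x24380) (Pf.C 0 0x100c009))) (Pf.C 13 0xe14486)) (Pf.B 9 1 (Pf.B 9 5 (Pf.C 10 0x1204286) (Pf.B 9 3 (Pf.C 6 0x24181) (Pf.B 9 2 (Pf.C 10 0x1218101) (Pf.C 0 0xa0c482)))) (Pf.C 0 0x101c089))) (Pf.C 5 1033)) Pf.nil)) (Pf.C 0 0x620007)))) (Pf.C 0 0xc08403))) (Pf.C 9 0xc20284)))) Pf.nil)) (Pf.cons (Pf.B 8 4 (Pf.C 7 0x800402) (Pf.C 2 520)) (Pf.cons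 (Pf.W 27 4 [] [0,1,2,3,5,6,7] (Pf.cons (Pf.B 8 7 (Pf.B 8 6 (Pf.C 11 0x101c206) (Pf.B 8 5 (Pf.C 11 0x101c205) (Pf.C 9 0xc20284))) (Pf.B 8 6 (Pf.B 8 2 (Pf.C 10 0x1018104) (Pf.B 8 3 (Pf.B 8 1 (Pf.C 6 0x20181) (Pf.C 0 0x41c401)) (Pf.C 0 0xe08403))) (Pf.B 8 5 (Pf.B 8 3 (Pf.C 11 0x1014184) (Pf.B 8 2 (Pf.B 8 1 (Pf.C 10 0x1014082) (Pf.B 8 0 (Pf.C 10 0x1010002) (Pf.B 7 0 (Pf.W 27 6 [] [0,1,2,3,5,7,8] (Pf.cons (Pf.B 9 8 (Pf.B 9 7 (Pf.B 9 5 (Pf.B 9 3 (Pf.C 11 0x1214186) (Pf.B 9 0 (Pf.C 6 0x24380) (Pf.C 0 0x100c009))) (Pf.C 13 0xe14486)) (Pf.B 9 1 (Pf.B 9 5 (Pf.C 10 0x1204286) (Pf.B 9 3 (Pf.C 6 0x24181) (Pf.B 9 2 (Pf.C 10 0x1218101) (Pf.C 0 0xa0c482)))) (Pf.C 0 0x101c089))) (Pf.C 5 1033)) Pf.nil))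 (Pf.C 0 0x620007)))) (Pf.C 0 0xc08403))) (Pf.C 9 0xc20284)))) Pf.nil)) (Pf.cons (Pf.B 8 6 (Pf.C 7 0xc08400) (Pf.C 2 776)) (Pf.cons (Pf.B 8 7 (Pf.B 8 6 (Pf.C 54 0x20106) (Pf.B 8 5 (Pf.B 8 4 (Pf.B 8 1 (Pf.C 54 0x20085) (Pf.T 8 36 (Pf.cons (Pf.W 27 4 [] [1,2,3,5,6,7,8] (Pf.cons (Pf.B 9 8 (Pf.B 9 6 (Pf.C 11 0x1220304) (Pf.B 9 5 (Pf.B 9 3 (Pf.C 11 0x1214184) (Pf.B 9 2 (Pf.C 6 0x24402) (Pf.C 0 0xc08483))) (Pf.C 9 0xc24284))) (Pf.B 9 7 (Pf.B 9 6 (Pf.C 11 0x121c206) (Pf.B 9 5 (Pf.C 11 0x121c205) (Pf.C 9 0xc24284))) (Pf.B 9 1 (Pf.B 9 6 (Pf.B 9 5 (Pf.C 10 0x1204284) (Pf.B 9 3 (Pf.C 6 0x24181) (Pf.B 9 2 (Pf.C 10 0x1218101) (Pf.C 0 0xa0c482)))) (Pf.C 15 0x218484)) (Pf.C 0 0x1004487)))) Pf.nil)) Pf.nil)))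 (Pf.C 55 0x20104)) (Pf.C 55 0x20105))) (Pf.C 4 904)) (Pf.cons (Pf.T 7 36 (Pf.cons (Pf.W 27 4 [] [0,1,2,3,5,6,7] (Pf.cons (Pf.B 8 7 (Pf.B 8 6 (Pf.C 11 0x101c206) (Pf.B 8 5 (Pf.C 11 0x101c205) (Pf.C 9 0xc20284))) (Pf.B 8 6 (Pf.B 8 2 (Pf.C 10 0x1018104) (Pf.B 8 3 (Pf.B 8 1 (Pf.C 6 0x20181) (Pf.C 0 0x41c401)) (Pf.C 0 0xe08403))) (Pf.B 8 5 (Pf.B 8 3 (Pf.C 11 0x1014184) (Pf.B 8 2 (Pf.B 8 1 (Pf.C 10 0x1014082) (Pf.B 8 0 (Pf.C 10 0x1010002) (Pf.W 27 6 [] [0,1,2,3,5,7,8] (Pf.cons (Pf.B 9 8 (Pf.B 9 7 (Pf.B 9 5 (Pf.B 9 3 (Pf.C 11 0x1214186) (Pf.B 9 0 (Pf.C 6 0x24380) (Pf.C 0 0x100c009))) (Pf.C 13 0xe14486)) (Pf.B 9 1 (Pf.B 9 5 (Pf.C 10 0x1204286) (Pf.B 9 3 (Pf.C 6 0x24181) (Pf.B 9 2 (Pf.C 10 0x1218101)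 (Pf.C 0 0xa0c482)))) (Pf.C 0 0x101c089))) (Pf.C 5 1033)) Pf.nil)))) (Pf.C 0 0xc08403))) (Pf.C 9 0xc20284)))) Pf.nil)) Pf.nil)) (Pf.cons (Pf.B 8 7 (Pf.B 8 5 (Pf.B 8 4 (Pf.C 54 0x20004) (Pf.C 8 0xe10405)) (Pf.C 55 0x20005)) (Pf.C 4 904)) (Pf.cons (Pf.B 8 6 (Pf.C 56 0x20106) (Pf.B 8 3 (Pf.C 57 0x20186) (Pf.C 179 0x20180))) (Pf.cons (Pf.B 8 4 (Pf.C 56 0x20004) (Pf.B 8 3 (Pf.C 57 0x20184) (Pf.C 179 0x20182))) Pf.nil))))))))))))) (Pf.B 7 4 (Pf.B 7 1 (Pf.C 12 0xe14084) (Pf.B 7 0 (Pf.C 12 0xe10005) (Pf.W 180 256 [] [1,3,4,5,6,7] (Pf.cons (Pf.W 27 4 [] [0,1,2,3,5,6,7] (Pf.cons (Pf.B 8 7 (Pf.B 8 6 (Pf.C 11 0x101c304) (Pf.B 8 5 (Pf.B 8 3 (Pf.C 11 0x1014184) (Pf.B 8 2 (Pf.B 7 2 (Pf.C 6 0x20382) (Pf.W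 27 6 [] [2,5,7,8] (Pf.cons (Pf.B 9 8 (Pf.B 9 7 (Pf.B 9 5 (Pf.C 11 0x121c305) (Pf.C 13 0xe14488)) (Pf.B 9 2 (Pf.B 9 5 (Pf.C 10 0x1218105) (Pf.C 15 0x414488)) (Pf.C 0 0xc1c109))) (Pf.C 5 1033)) Pf.nil))) (Pf.C 0 0xc08403))) (Pf.C 9 0xc20284))) (Pf.B 8 6 (Pf.B 8 0 (Pf.C 10 0x1010006) (Pf.B 8 3 (Pf.B 8 1 (Pf.C 6 0x20181) (Pf.C 0 0x1c401)) (Pf.C 0 0xe00403))) (Pf.B 8 5 (Pf.B 8 3 (Pf.C 11 0x1014184) (Pf.B 8 2 (Pf.B 8 1 (Pf.C 10 0x1014082) (Pf.C 0 0xc1c401)) (Pf.C 0 0xc08403))) (Pf.C 9 0xc20284)))) Pf.nil)) (Pf.cons (Pf.B 8 4 (Pf.C 7 0x800402) (Pf.C 2 520)) (Pf.cons (Pf.W 27 4 [] [0,1,2,3,5,6,7] (Pf.cons (Pf.B 8 7 (Pf.B 8 6 (Pf.C 11 0x101c304) (Pf.B 8 5 (Pf.B 8 3 (Pf.C 11 0x1014184) (Pf.B 8 2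 (Pf.B 7 2 (Pf.C 6 0x20382) (Pf.W 27 6 [] [2,5,7,8] (Pf.cons (Pf.B 9 8 (Pf.B 9 7 (Pf.B 9 5 (Pf.C 11 0x121c305) (Pf.C 13 0xe14488)) (Pf.B 9 2 (Pf.B 9 5 (Pf.C 10 0x1218105) (Pf.C 15 0x414488)) (Pf.C 0 0xc1c109))) (Pf.C 5 1033)) Pf.nil))) (Pf.C 0 0xc08403))) (Pf.C 9 0xc20284))) (Pf.B 8 6 (Pf.B 8 0 (Pf.C 10 0x1010006) (Pf.B 8 3 (Pf.B 8 1 (Pf.C 6 0x20181) (Pf.C 0 0x1c401)) (Pf.C 0 0xe00403))) (Pf.B 8 5 (Pf.B 8 3 (Pf.C 11 0x1014184) (Pf.B 8 2 (Pf.B 8 1 (Pf.C 10 0x1014082) (Pf.C 0 0xc1c401)) (Pf.C 0 0xc08403))) (Pf.C 9 0xc20284)))) Pf.nil)) (Pf.cons (Pf.B 8 6 (Pf.C 7 0xc08400) (Pf.C 2 776)) (Pf.cons (Pf.T 7 36 (Pf.cons (Pf.W 27 4 [] [0,1,2,3,5,6,7] (Pf.cons (Pf.B 8 7 (Pf.B 8 6 (Pf.C 11 0x101c304)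 (Pf.B 8 5 (Pf.B 8 3 (Pf.C 11 0x1014184) (Pf.B 8 2 (Pf.C 6 0x20382) (Pf.C 0 0xc08403))) (Pf.C 9 0xc20284))) (Pf.B 8 6 (Pf.B 8 0 (Pf.C 10 0x1010006) (Pf.B 8 3 (Pf.B 8 1 (Pf.C 6 0x20181) (Pf.C 0 0x1c401)) (Pf.C 0 0xe00403))) (Pf.B 8 5 (Pf.B 8 2 (Pf.B 8 1 (Pf.C 10 0x1014082) (Pf.C 0 0xc1c401)) (Pf.C 0 0xe18402)) (Pf.C 9 0xc20284)))) Pf.nil)) Pf.nil)) (Pf.cons (Pf.B 8 7 (Pf.B 8 6 (Pf.C 54 0x20106) (Pf.B 8 5 (Pf.C 8 0xe18405) (Pf.C 55 0x20105))) (Pf.C 4 904)) (Pf.cons (Pf.B 8 7 (Pf.B 8 6 (Pf.B 8 5 (Pf.B 8 4 (Pf.C 54 0x20004) (Pf.B 8 1 (Pf.C 54 0x20085) (Pf.T 8 36 (Pf.cons (Pf.W 27 4 [] [1,2,3,5,6,7,8] (Pf.cons (Pf.B 9 8 (Pf.B 9 6 (Pf.C 11 0x1220206) (Pf.B 9 5 (Pf.C 11 0x1220205) (Pf.C 9 0xc24284)))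 (Pf.B 9 7 (Pf.B 9 6 (Pf.C 11 0x121c304) (Pf.B 9 5 (Pf.B 9 3 (Pf.C 11 0x1214184) (Pf.B 9 2 (Pf.B 9 1 (Pf.C 10 0x1214082) (Pf.B 7 2 (Pf.C 6 0x24382) (Pf.W 27 6 [] [1,2,5,7,8,9] (Pf.cons (Pf.B 10 9 (Pf.B 10 8 (Pf.B 10 7 (Pf.C 11 0x1418388) (Pf.B 10 5 (Pf.B 10 2 (Pf.C 10 0x1418105) (Pf.C 0 0xc1c10a)) (Pf.C 13 0x1014506))) (Pf.B 10 1 (Pf.B 10 5 (Pf.C 10 0x1404286) (Pf.B 10 7 (Pf.C 13 0xe14509) (Pf.B 10 2 (Pf.C 10 0x1418101) (Pf.C 0 0xc1c10a)))) (Pf.C 0 0x122008a))) (Pf.C 5 1162)) Pf.nil)))) (Pf.C 0 0xc08483))) (Pf.C 9 0xc24284))) (Pf.B 9 1 (Pf.B 9 6 (Pf.B 9 5 (Pf.C 10 0x1204284) (Pf.B 9 3 (Pf.C 6 0x24181) (Pf.B 9 2 (Pf.C 10 0x1218101) (Pf.C 0 0xa0c482)))) (Pf.C 15 0x218484)) (Pf.C 0 0x1004487))))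 Pf.nil)) Pf.nil)))) (Pf.C 55 0x20005)) (Pf.C 55 0x20006)) (Pf.C 4 904)) (Pf.cons (Pf.B 8 6 (Pf.C 56 0x20106) (Pf.B 8 3 (Pf.C 57 0x20186) (Pf.C 179 0x20180))) (Pf.cons (Pf.B 8 4 (Pf.C 56 0x20004) (Pf.B 8 3 (Pf.C 57 0x20184) (Pf.C 179 0x20182))) Pf.nil)))))))))))) (Pf.C 8 0xc1c203))) (Pf.C 4 391)) Pf.nil)) (Pf.C 53 32774)) (Pf.C 53 32902)) (Pf.C 8 0xa0c304)) (Pf.C 2 518)) (Pf.C 2 646)) Pf.nil)) (Pf.C 53 16389)) (Pf.C 53 16645))) (Pf.C 2 517)) Pf.nil)) (Pf.C 55 49284)) (Pf.C 53 132)) (Pf.C 53 260)) Pf.nil)))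
 (Pq.cons (Pq.L [0,1,2] 0 (Pf.W 170 0 [] [1,2,3] (Pf.cons (Pf.B 4 2 (Pf.B 4 3 (Pf.B 4 1 (Pf.W 170 1 [] [0,2,3,4] (Pf.cons (Pf.B 5 4 (Pf.B 5 2 (Pf.B 5 3 (Pf.B 5 0 (Pf.W 170 2 [] [0,1,3,4,5] (Pf.cons (Pf.B 6 5 (Pf.B 6 4 (Pf.B 6 3 (Pf.C 54 49414) (Pf.B 6 1 (Pf.B 6 0 (Pf.W 23 6 [] [0,1,2,3,4,5] (Pf.cons (Pf.B 7 3 (Pf.B 7 5 (Pf.B 7 2 (Pf.C 12 0xe18105) (Pf.B 7 1 (Pf.C 12 0xe14086) (Pf.B 7 4 (Pf.B 7 0 (Pf.C 12 0xe10005) (Pf.W 27 4 [] [0,1,2,3,5,6,7] (Pf.cons (Pf.B 8 7 (Pf.B 8 6 (Pf.B 8 5 (Pf.B 8 3 (Pf.C 11 0x1018184) (Pf.B 8 1 (Pf.C 10 0x1014084) (Pf.B 8 0 (Pf.C 10 0x1010005) (Pf.C 0 0x20c400)))) (Pf.C 13 0xe14404)) (Pf.C 13 0xe18404)) (Pf.B 8 6 (Pf.B 8 2 (Pf.C 10 0x1018104) (Pf.B 8 1 (Pf.B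 8 0 (Pf.C 10 0x1010001) (Pf.C 0 0x41c400)) (Pf.C 0 0x41c401))) (Pf.B 8 5 (Pf.B 8 2 (Pf.B 8 3 (Pf.C 6 0x20182) (Pf.B 8 1 (Pf.C 10 0x1014082) (Pf.C 0 0xc0c401))) (Pf.C 0 0xe08406)) (Pf.C 9 0xc20284)))) Pf.nil))) (Pf.W 180 128 [] [2,3,4,5,6,7] (Pf.cons (Pf.W 27 4 [] [0,1,2,3,5,6,7] (Pf.cons (Pf.B 8 7 (Pf.B 8 6 (Pf.C 11 0x101c206) (Pf.B 8 5 (Pf.C 11 0x101c205) (Pf.C 9 0xc20284))) (Pf.B 8 6 (Pf.B 8 3 (Pf.C 11 0x1018184) (Pf.B 8 2 (Pf.C 10 0x1018104) (Pf.B 8 1 (Pf.B 8 5 (Pf.C 10 0x1004284) (Pf.B 8 0 (Pf.C 10 0x1010001) (Pf.B 7 0 (Pf.W 27 5 [] [0,1,2,3,6,7,8] (Pf.cons (Pf.B 9 8 (Pf.B 9 7 (Pf.B 9 6 (Pf.B 9 3 (Pf.C 11 0x1218185) (Pf.B 9 0 (Pf.C 6 0x24380) (Pf.C 0 0x100c009))) (Pf.C 13 0xe18485))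 (Pf.B 9 2 (Pf.B 9 6 (Pf.C 10 0x1208305) (Pf.B 9 3 (Pf.C 6 0x24182) (Pf.B 9 1 (Pf.C 10 0x1214082) (Pf.C 0 0xc0c481)))) (Pf.C 0 0x101c109))) (Pf.C 5 1033)) Pf.nil)) (Pf.C 0 0x620007)))) (Pf.C 0 0x41c401)))) (Pf.B 8 5 (Pf.B 8 2 (Pf.B 8 3 (Pf.C 6 0x20182) (Pf.B 8 1 (Pf.C 10 0x1014082) (Pf.C 0 0xc0c401))) (Pf.C 0 0xe08406)) (Pf.C 9 0xc20284)))) Pf.nil)) (Pf.cons (Pf.B 8 4 (Pf.C 7 0x800401) (Pf.C 2 520)) (Pf.cons (Pf.W 27 4 [] [0,1,2,3,5,6,7] (Pf.cons (Pf.B 8 7 (Pf.B 8 6 (Pf.C 11 0x101c206) (Pf.B 8 5 (Pf.C 11 0x101c205) (Pf.C 9 0xc20284))) (Pf.B 8 6 (Pf.B 8 3 (Pf.C 11 0x1018184) (Pf.B 8 2 (Pf.C 10 0x1018104) (Pf.B 8 1 (Pf.B 8 5 (Pf.C 10 0x1004284) (Pf.B 8 0 (Pf.C 10 0x1010001) (Pf.B 7 0 (Pf.W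 27 5 [] [0,1,2,3,6,7,8] (Pf.cons (Pf.B 9 8 (Pf.B 9 7 (Pf.B 9 6 (Pf.B 9 3 (Pf.C 11 0x1218185) (Pf.B 9 0 (Pf.C 6 0x24380) (Pf.C 0 0x100c009))) (Pf.C 13 0xe18485)) (Pf.B 9 2 (Pf.B 9 6 (Pf.C 10 0x1208305) (Pf.B 9 3 (Pf.C 6 0x24182) (Pf.B 9 1 (Pf.C 10 0x1214082) (Pf.C 0 0xc0c481)))) (Pf.C 0 0x101c109))) (Pf.C 5 1033)) Pf.nil)) (Pf.C 0 0x620007)))) (Pf.C 0 0x41c401)))) (Pf.B 8 5 (Pf.B 8 2 (Pf.B 8 3 (Pf.C 6 0x20182) (Pf.B 8 1 (Pf.C 10 0x1014082) (Pf.C 0 0xc0c401))) (Pf.C 0 0xe08406)) (Pf.C 9 0xc20284)))) Pf.nil)) (Pf.cons (Pf.B 8 5 (Pf.C 7 0xa04400) (Pf.C 2 648)) (Pf.cons (Pf.B 8 7 (Pf.B 8 6 (Pf.B 8 4 (Pf.B 8 2 (Pf.C 54 0x20106) (Pf.T 8 36 (Pf.cons (Pf.W 27 4 [] [1,2,3,5,6,7,8] (Pf.cons (Pf.B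 9 8 (Pf.B 9 7 (Pf.C 11 0x1210388) (Pf.B 9 6 (Pf.B 9 2 (Pf.C 10 0x1218104) (Pf.B 9 1 (Pf.C 6 0x24401) (Pf.C 0 0x41c481))) (Pf.C 13 0x1018484))) (Pf.B 9 7 (Pf.B 9 6 (Pf.C 11 0x121c206) (Pf.C 18 0x81218384)) (Pf.B 9 2 (Pf.B 9 6 (Pf.C 10 0x1208304) (Pf.B 9 5 (Pf.B 9 3 (Pf.C 6 0x24182) (Pf.B 9 1 (Pf.C 10 0x1214082) (Pf.C 0 0xc0c481))) (Pf.C 9 0xc24284))) (Pf.C 0 0x1008487)))) Pf.nil)) Pf.nil))) (Pf.C 55 0x20084)) (Pf.C 55 0x20086)) (Pf.C 4 904)) (Pf.cons (Pf.T 7 36 (Pf.cons (Pf.W 27 4 [] [0,1,2,3,5,6,7] (Pf.cons (Pf.B 8 7 (Pf.B 8 6 (Pf.C 11 0x101c206) (Pf.B 8 5 (Pf.C 11 0x101c205) (Pf.C 9 0xc20284))) (Pf.B 8 6 (Pf.B 8 3 (Pf.C 11 0x1018184) (Pf.B 8 2 (Pf.C 10 0x1018104) (Pf.B 8 1 (Pf.B 8 5 (Pf.C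 10 0x1004284) (Pf.B 8 0 (Pf.C 10 0x1010001) (Pf.W 27 5 [] [0,1,2,3,6,7,8] (Pf.cons (Pf.B 9 8 (Pf.B 9 7 (Pf.B 9 6 (Pf.B 9 3 (Pf.C 11 0x1218185) (Pf.B 9 0 (Pf.C 6 0x24380) (Pf.C 0 0x100c009))) (Pf.C 13 0xe18485)) (Pf.B 9 2 (Pf.B 9 6 (Pf.C 10 0x1208305) (Pf.B 9 3 (Pf.C 6 0x24182) (Pf.B 9 1 (Pf.C 10 0x1214082) (Pf.C 0 0xc0c481)))) (Pf.C 0 0x101c109))) (Pf.C 5 1033)) Pf.nil)))) (Pf.C 0 0x41c401)))) (Pf.B 8 5 (Pf.B 8 2 (Pf.B 8 3 (Pf.C 6 0x20182) (Pf.B 8 1 (Pf.C 10 0x1014082) (Pf.C 0 0xc0c401))) (Pf.C 0 0xe08406)) (Pf.C 9 0xc20284)))) Pf.nil)) Pf.nil)) (Pf.cons (Pf.B 8 7 (Pf.B 8 5 (Pf.B 8 4 (Pf.C 54 0x20004) (Pf.C 8 0xe10405)) (Pf.C 55 0x20005)) (Pf.C 4 904)) (Pf.cons (Pf.B 8 5 (Pf.C 56 0x20085)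 (Pf.B 8 3 (Pf.C 57 0x20185) (Pf.C 179 0x20180))) (Pf.cons (Pf.B 8 4 (Pf.C 56 0x20004) (Pf.B 8 3 (Pf.C 57 0x20184) (Pf.C 179 0x20181))) Pf.nil))))))))))))) (Pf.B 7 4 (Pf.B 7 2 (Pf.C 12 0xe18104) (Pf.B 7 0 (Pf.C 12 0xe10006) (Pf.W 180 128 [] [2,3,4,5,6,7] (Pf.cons (Pf.W 27 4 [] [0,1,2,3,5,6,7] (Pf.cons (Pf.B 8 7 (Pf.B 8 6 (Pf.B 8 5 (Pf.C 11 0x101c284) (Pf.B 8 3 (Pf.C 11 0x1018184) (Pf.B 8 1 (Pf.B 7 1 (Pf.C 6 0x20381) (Pf.W 27 5 [] [1,6,7,8] (Pf.cons (Pf.B 9 8 (Pf.B 9 7 (Pf.B 9 6 (Pf.C 11 0x121c286) (Pf.C 13 0xe18488)) (Pf.B 9 1 (Pf.B 9 6 (Pf.C 10 0x1214086) (Pf.C 15 0x218488)) (Pf.C 0 0xa1c089))) (Pf.C 5 1033)) Pf.nil))) (Pf.C 0 0xa04403)))) (Pf.C 13 0xe18404)) (Pf.B 8 6 (Pf.B 8 3 (Pf.C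 11 0x1018184) (Pf.B 8 2 (Pf.C 10 0x1018104) (Pf.B 8 5 (Pf.B 8 1 (Pf.C 10 0x1014084) (Pf.B 8 0 (Pf.C 10 0x1010005) (Pf.C 0 0x20c400))) (Pf.C 0 0x41c405)))) (Pf.B 8 5 (Pf.B 8 2 (Pf.B 8 3 (Pf.C 6 0x20182) (Pf.B 8 1 (Pf.C 10 0x1014082) (Pf.C 0 0xc0c401))) (Pf.C 0 0xe08406)) (Pf.C 9 0xc20284)))) Pf.nil)) (Pf.cons (Pf.B 8 4 (Pf.C 7 0x800401) (Pf.C 2 520)) (Pf.cons (Pf.W 27 4 [] [0,1,2,3,5,6,7] (Pf.cons (Pf.B 8 7 (Pf.B 8 6 (Pf.B 8 5 (Pf.C 11 0x101c284) (Pf.B 8 3 (Pf.C 11 0x1018184) (Pf.B 8 1 (Pf.B 7 1 (Pf.C 6 0x20381) (Pf.W 27 5 [] [1,6,7,8] (Pf.cons (Pf.B 9 8 (Pf.B 9 7 (Pf.B 9 6 (Pf.C 11 0x121c286) (Pf.C 13 0xe18488)) (Pf.B 9 1 (Pf.B 9 6 (Pf.C 10 0x1214086) (Pf.C 15 0x218488)) (Pf.C 0 0xa1c089)))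 (Pf.C 5 1033)) Pf.nil))) (Pf.C 0 0xa04403)))) (Pf.C 13 0xe18404)) (Pf.B 8 6 (Pf.B 8 3 (Pf.C 11 0x1018184) (Pf.B 8 2 (Pf.C 10 0x1018104) (Pf.B 8 5 (Pf.B 8 1 (Pf.C 10 0x1014084) (Pf.B 8 0 (Pf.C 10 0x1010005) (Pf.C 0 0x20c400))) (Pf.C 0 0x41c405)))) (Pf.B 8 5 (Pf.B 8 2 (Pf.B 8 3 (Pf.C 6 0x20182) (Pf.B 8 1 (Pf.C 10 0x1014082) (Pf.C 0 0xc0c401))) (Pf.C 0 0xe08406)) (Pf.C 9 0xc20284)))) Pf.nil)) (Pf.cons (Pf.B 8 5 (Pf.C 7 0xa04400) (Pf.C 2 648)) (Pf.cons (Pf.T 7 36 (Pf.cons (Pf.W 27 4 [] [0,1,2,3,5,6,7] (Pf.cons (Pf.B 8 7 (Pf.B 8 6 (Pf.B 8 5 (Pf.C 11 0x101c284) (Pf.B 8 3 (Pf.C 11 0x1018184) (Pf.B 8 1 (Pf.C 6 0x20381) (Pf.C 0 0xa04403)))) (Pf.C 13 0xe18404)) (Pf.B 8 6 (Pf.B 8 3 (Pf.C 11 0x1018184)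 (Pf.B 8 2 (Pf.C 10 0x1018104) (Pf.B 8 5 (Pf.B 8 1 (Pf.C 10 0x1014084) (Pf.B 8 0 (Pf.C 10 0x1010005) (Pf.C 0 0x20c400))) (Pf.C 0 0x41c405)))) (Pf.B 8 5 (Pf.B 8 2 (Pf.B 8 3 (Pf.C 6 0x20182) (Pf.B 8 1 (Pf.C 10 0x1014082) (Pf.C 0 0xc0c401))) (Pf.C 0 0xe08406)) (Pf.C 9 0xc20284)))) Pf.nil)) Pf.nil)) (Pf.cons (Pf.B 8 7 (Pf.B 8 6 (Pf.B 8 5 (Pf.C 54 0x20085) (Pf.C 8 0xe14406)) (Pf.C 55 0x20086)) (Pf.C 4 904)) (Pf.cons (Pf.B 8 7 (Pf.B 8 6 (Pf.B 8 5 (Pf.B 8 4 (Pf.C 54 0x20004) (Pf.B 8 2 (Pf.C 54 0x20106) (Pf.T 8 36 (Pf.cons (Pf.W 27 4 [] [1,2,3,5,6,7,8] (Pf.cons (Pf.B 9 8 (Pf.B 9 7 (Pf.C 11 0x1220207) (Pf.B 9 6 (Pf.C 11 0x1220206) (Pf.C 18 0x71218404))) (Pf.B 9 7 (Pf.B 9 6 (Pf.B 9 5 (Pf.C 11 0x121c284)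 (Pf.B 9 2 (Pf.C 10 0x1218104) (Pf.B 9 1 (Pf.B 7 1 (Pf.C 6 0x24381) (Pf.W 27 5 [] [1,2,6,7,8,9] (Pf.cons (Pf.B 10 9 (Pf.B 10 8 (Pf.B 10 7 (Pf.C 11 0x1414388) (Pf.B 10 6 (Pf.B 10 1 (Pf.C 10 0x1414086) (Pf.C 0 0xa1c08a)) (Pf.C 13 0x1018505))) (Pf.B 10 2 (Pf.B 10 6 (Pf.C 10 0x1408305) (Pf.B 10 7 (Pf.C 13 0xe18509) (Pf.B 10 1 (Pf.C 10 0x1414082) (Pf.C 0 0xa1c08a)))) (Pf.C 0 0x122010a))) (Pf.C 5 1162)) Pf.nil))) (Pf.C 0 0x420481)))) (Pf.C 13 0xe18484)) (Pf.B 9 2 (Pf.B 9 6 (Pf.C 10 0x1208304) (Pf.B 9 5 (Pf.B 9 3 (Pf.C 6 0x24182) (Pf.B 9 1 (Pf.C 10 0x1214082) (Pf.C 0 0xc0c481))) (Pf.C 9 0xc24284))) (Pf.C 0 0x1008487)))) Pf.nil)) Pf.nil)))) (Pf.C 55 0x20005)) (Pf.C 55 0x20006)) (Pf.C 4 904)) (Pf.cons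 (Pf.B 8 5 (Pf.C 56 0x20085) (Pf.B 8 3 (Pf.C 57 0x20185) (Pf.C 179 0x20180))) (Pf.cons (Pf.B 8 4 (Pf.C 56 0x20004) (Pf.B 8 3 (Pf.C 57 0x20184) (Pf.C 179 0x20181))) Pf.nil)))))))))))) (Pf.C 8 0xa1c203))) (Pf.C 4 391)) Pf.nil)) (Pf.C 53 32774)) (Pf.C 53 32902))) (Pf.C 2 518)) (Pf.C 2 646)) Pf.nil)) (Pf.C 53 16389)) (Pf.C 55 49413)) (Pf.C 53 16645)) (Pf.C 2 517)) Pf.nil)) (Pf.C 53 132)) (Pf.C 55 49412)) (Pf.C 53 260)) Pf.nil)))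
 Pq.nil)))
theorem e3_o54 : AllRef e3_T e3_G82 (List.take 3 (List.map pat1 [123,124,125,120])) :=
  chkPq_sound e3_o54c _ (by decide +kernel)
noncomputable def e3_o55c : Pq := (Pq.cons (Pq.L [0,1,2] 0 (Pf.W 170 0 [] [1,2,3] (Pf.cons (Pf.B 4 2 (Pf.B 4 1 (Pf.B 4 3 (Pf.B 3 0 (Pf.C 56 49156) (Pf.W 170 1 [] [0,2,3,4] (Pf.cons (Pf.B 5 4 (Pf.B 5 2 (Pf.B 5 0 (Pf.B 5 3 (Pf.B 3 1 (Pf.C 56 49285) (Pf.W 170 2 [] [0,1,3,4,5] (Pf.cons (Pf.B 6 5 (Pf.B 6 4 (Pf.B 6 1 (Pf.B 6 0 (Pf.B 6 3 (Pf.B 3 2 (Pf.C 56 49414) (Pf.W 174 3 [] [0,1,2,4,5,6] (Pf.cons (Pf.B 7 6 (Pf.B 7 5 (Pf.B 7 4 (Pf.B 7 2 (Pf.B 7 1 (Pf.B 7 0 (Pf.W 23 4 [] [0,1,2,3,5,6,7] (Pf.cons (Pf.B 8 7 (Pf.B 8 3 (Pf.C 13 0x101c184) (Pf.B 8 0 (Pf.C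 12 0x1010007) (Pf.B 8 2 (Pf.B 8 6 (Pf.C 12 0x1008304) (Pf.B 8 5 (Pf.B 8 1 (Pf.C 12 0x1014082) (Pf.C 0 50177)) (Pf.C 8 0xc20284))) (Pf.C 0 50178)))) (Pf.B 8 6 (Pf.B 8 5 (Pf.B 8 2 (Pf.C 12 0x1018104) (Pf.B 8 3 (Pf.B 8 1 (Pf.C 12 0x1014084) (Pf.B 8 0 (Pf.C 12 0x1010005) (Pf.W 180 128 [] [2,3,4,5,6,7,8] (Pf.cons (Pf.W 180 257 [] [0,3,4,5,6,7,8] (Pf.cons (Pf.W 23 7 [] [0,1,2,3,4,5,6] (Pf.cons (Pf.B 9 6 (Pf.B 9 3 (Pf.C 13 0x121c186) (Pf.B 9 2 (Pf.C 12 0x1218107) (Pf.B 9 1 (Pf.B 9 5 (Pf.C 12 0x1204286) (Pf.B 9 4 (Pf.B 9 0 (Pf.C 12 0x1210001) (Pf.C 0 0x40c480)) (Pf.C 8 0xa24206))) (Pf.C 0 0x40c481)))) (Pf.B 9 5 (Pf.B 9 4 (Pf.B 9 3 (Pf.C 11 0x618484) (Pf.B 9 2 (Pf.B 9 1 (Pf.C 12 0x1214082) (Pf.B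 9 0 (Pf.C 12 0x1210002) (Pf.C 0 0x20c480))) (Pf.C 0 0xc08483))) (Pf.C 8 0xc24205)) (Pf.C 8 0xc24287))) Pf.nil)) (Pf.cons (Pf.B 9 5 (Pf.C 7 0xa04482) (Pf.C 2 649)) (Pf.cons (Pf.W 23 7 [] [0,1,2,3,4,5,6] (Pf.cons (Pf.B 9 6 (Pf.B 9 3 (Pf.C 13 0x121c186) (Pf.B 9 2 (Pf.C 12 0x1218107) (Pf.B 9 1 (Pf.B 9 5 (Pf.C 12 0x1204286) (Pf.B 9 4 (Pf.B 9 0 (Pf.C 12 0x1210001) (Pf.C 0 0x40c480)) (Pf.C 8 0xa24206))) (Pf.C 0 0x40c481)))) (Pf.B 9 5 (Pf.B 9 4 (Pf.B 9 3 (Pf.C 11 0x618484) (Pf.B 9 2 (Pf.B 9 1 (Pf.C 12 0x1214082) (Pf.B 9 0 (Pf.C 12 0x1210002) (Pf.C 0 0x20c480))) (Pf.C 0 0xc08483))) (Pf.C 8 0xc24205)) (Pf.C 8 0xc24287))) Pf.nil)) (Pf.cons (Pf.B 9 6 (Pf.C 7 0xc08481) (Pf.C 2 777)) (Pf.cons (Pf.B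 9 7 (Pf.B 9 3 (Pf.C 57 50311) (Pf.C 178 50306)) (Pf.C 55 0x24107)) (Pf.cons (Pf.B 9 7 (Pf.B 9 3 (Pf.C 57 50311) (Pf.C 178 50305)) (Pf.C 55 0x24087)) (Pf.cons (Pf.B 9 6 (Pf.C 56 0x24106) (Pf.B 9 3 (Pf.B 9 8 (Pf.C 13 0x1018483) (Pf.B 9 4 (Pf.B 9 0 (Pf.C 56 0x24004) (Pf.C 0 0x220480)) (Pf.C 9 0xc24203))) (Pf.C 5 393))) (Pf.cons (Pf.B 9 5 (Pf.C 56 0x24085) (Pf.B 9 3 (Pf.B 9 8 (Pf.C 13 0x1014483) (Pf.B 9 4 (Pf.B 9 0 (Pf.C 56 0x24004) (Pf.C 0 0x420480)) (Pf.C 9 0xa24203))) (Pf.C 5 393))) Pf.nil))))))))) (Pf.cons (Pf.B 9 4 (Pf.C 7 0x800481) (Pf.C 2 521)) (Pf.cons (Pf.W 180 256 [] [1,3,4,5,6,7,8] (Pf.cons (Pf.W 23 7 [] [0,1,2,3,4,5,6] (Pf.cons (Pf.B 9 6 (Pf.B 9 3 (Pf.C 13 0x121c186) (Pf.B 9 2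 (Pf.C 12 0x1218107) (Pf.B 9 1 (Pf.B 9 5 (Pf.C 12 0x1204286) (Pf.B 9 4 (Pf.B 9 0 (Pf.C 12 0x1210001) (Pf.C 0 0x40c480)) (Pf.C 8 0xa24206))) (Pf.C 0 0x40c481)))) (Pf.B 9 5 (Pf.B 9 4 (Pf.B 9 3 (Pf.C 11 0x618484) (Pf.B 9 2 (Pf.B 9 1 (Pf.C 12 0x1214082) (Pf.B 9 0 (Pf.C 12 0x1210002) (Pf.C 0 0x20c480))) (Pf.C 0 0xc08483))) (Pf.C 8 0xc24205)) (Pf.C 8 0xc24287))) Pf.nil)) (Pf.cons (Pf.B 9 4 (Pf.C 7 0x800482) (Pf.C 2 521)) (Pf.cons (Pf.W 23 7 [] [0,1,2,3,4,5,6] (Pf.cons (Pf.B 9 6 (Pf.B 9 3 (Pf.C 13 0x121c186) (Pf.B 9 2 (Pf.C 12 0x1218107) (Pf.B 9 1 (Pf.B 9 5 (Pf.C 12 0x1204286) (Pf.B 9 4 (Pf.B 9 0 (Pf.C 12 0x1210001) (Pf.C 0 0x40c480)) (Pf.C 8 0xa24206))) (Pf.C 0 0x40c481)))) (Pf.B 9 5 (Pf.B 9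 4 (Pf.B 9 3 (Pf.C 11 0x618484) (Pf.B 9 2 (Pf.B 9 1 (Pf.C 12 0x1214082) (Pf.B 9 0 (Pf.C 12 0x1210002) (Pf.C 0 0x20c480))) (Pf.C 0 0xc08483))) (Pf.C 8 0xc24205)) (Pf.C 8 0xc24287))) Pf.nil)) (Pf.cons (Pf.B 9 6 (Pf.C 7 0xc08480) (Pf.C 2 777)) (Pf.cons (Pf.B 9 7 (Pf.B 9 3 (Pf.C 57 50311) (Pf.C 178 50306)) (Pf.C 55 0x24107)) (Pf.cons (Pf.B 9 7 (Pf.B 9 3 (Pf.C 57 50311) (Pf.C 178 50304)) (Pf.C 55 0x24007)) (Pf.cons (Pf.B 9 6 (Pf.C 56 0x24106) (Pf.B 9 3 (Pf.B 9 8 (Pf.C 13 0x1018483) (Pf.B 9 5 (Pf.B 9 1 (Pf.C 56 0x24085) (Pf.C 0 0x20481)) (Pf.C 9 0xc24283))) (Pf.C 5 393))) (Pf.cons (Pf.B 9 4 (Pf.C 56 0x24004) (Pf.B 9 3 (Pf.B 9 8 (Pf.C 13 0x1010483) (Pf.B 9 5 (Pf.B 9 1 (Pf.C 56 0x24085) (Pf.C 0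 0x420481)) (Pf.C 9 0x824283))) (Pf.C 5 393))) Pf.nil))))))))) (Pf.cons (Pf.B 9 5 (Pf.C 7 0xa04480) (Pf.C 2 649)) (Pf.cons (Pf.B 9 7 (Pf.B 9 3 (Pf.C 57 50311) (Pf.C 178 50305)) (Pf.C 55 0x24087)) (Pf.cons (Pf.B 9 7 (Pf.B 9 3 (Pf.C 57 50311) (Pf.C 178 50304)) (Pf.C 55 0x24007)) (Pf.cons (Pf.B 9 5 (Pf.C 56 0x24085) (Pf.B 9 3 (Pf.B 9 8 (Pf.C 13 0x1014483) (Pf.B 9 6 (Pf.B 9 2 (Pf.C 56 0x24106) (Pf.C 0 0x20482)) (Pf.C 9 0xa24303))) (Pf.C 5 393))) (Pf.cons (Pf.B 9 4 (Pf.C 56 0x24004) (Pf.B 9 3 (Pf.B 9 8 (Pf.C 13 0x1010483) (Pf.B 9 6 (Pf.B 9 2 (Pf.C 56 0x24106) (Pf.C 0 0x220482)) (Pf.C 9 0x824303))) (Pf.C 5 393))) Pf.nil))))))))))) (Pf.C 0 0xe0c402))) (Pf.C 8 0xe20284)) (Pf.C 8 0xe20304))) Pf.nil))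 (Pf.C 7 0x800381)) (Pf.C 7 0xa04382)) (Pf.C 7 0xc08384)) (Pf.C 2 519)) (Pf.C 2 647)) (Pf.C 2 775)) Pf.nil))) (Pf.W 23 4 [] [0,1,2,3,5,6] (Pf.cons (Pf.B 7 6 (Pf.B 7 3 (Pf.C 13 0xe18184) (Pf.B 7 2 (Pf.C 12 0xe18104) (Pf.B 7 0 (Pf.C 12 0xe10006) (Pf.B 7 1 (Pf.B 7 5 (Pf.C 12 0xe04284) (Pf.B 3 2 (Pf.W 180 128 [] [2,3,4,5,6,7] (Pf.cons (Pf.W 23 5 [] [0,1,2,3,4,6,7] (Pf.cons (Pf.B 8 7 (Pf.B 8 6 (Pf.B 8 3 (Pf.C 13 0x1018185) (Pf.B 8 1 (Pf.C 12 0x1014086) (Pf.B 8 0 (Pf.W 27 6 [] [0,1,2,3,5,7,8] (Pf.cons (Pf.B 9 3 (Pf.B 9 8 (Pf.B 9 5 (Pf.B 9 7 (Pf.C 11 0x1214386) (Pf.B 9 0 (Pf.C 6 0x24400) (Pf.C 0 0x61c009))) (Pf.C 13 0x1014486)) (Pf.B 9 1 (Pf.B 9 7 (Pf.C 6 0x24381) (Pf.B 9 5 (Pf.C 10 0x1204286)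 (Pf.B 9 2 (Pf.C 10 0x1218101) (Pf.C 0 0xa1c482)))) (Pf.C 0 0x620089))) (Pf.C 5 393)) Pf.nil)) (Pf.C 0 0xe0c008)))) (Pf.B 8 4 (Pf.B 8 1 (Pf.C 12 0x1014084) (Pf.B 8 3 (Pf.B 8 2 (Pf.C 6 50178) (Pf.W 27 6 [] [2,3,5,8] (Pf.cons (Pf.B 9 3 (Pf.B 9 8 (Pf.B 9 5 (Pf.C 11 0x1220305) (Pf.C 13 0x1014483)) (Pf.B 9 2 (Pf.B 9 5 (Pf.C 10 0x1218105) (Pf.C 15 0x414483)) (Pf.C 0 0xc20109))) (Pf.C 5 393)) Pf.nil))) (Pf.C 0 0xc0c401))) (Pf.C 8 0xc20205))) (Pf.C 4 904)) Pf.nil)) (Pf.cons (Pf.B 8 4 (Pf.C 7 0x800401) (Pf.C 2 520)) (Pf.cons (Pf.W 23 5 [] [0,1,2,3,4,6,7] (Pf.cons (Pf.B 8 7 (Pf.B 8 6 (Pf.B 8 3 (Pf.C 13 0x1018185) (Pf.B 8 1 (Pf.C 12 0x1014086) (Pf.B 8 0 (Pf.W 27 6 [] [0,1,2,3,5,7,8] (Pf.cons (Pf.B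 9 3 (Pf.B 9 8 (Pf.B 9 5 (Pf.B 9 7 (Pf.C 11 0x1214386) (Pf.B 9 0 (Pf.C 6 0x24400) (Pf.C 0 0x61c009))) (Pf.C 13 0x1014486)) (Pf.B 9 1 (Pf.B 9 7 (Pf.C 6 0x24381) (Pf.B 9 5 (Pf.C 10 0x1204286) (Pf.B 9 2 (Pf.C 10 0x1218101) (Pf.C 0 0xa1c482)))) (Pf.C 0 0x620089))) (Pf.C 5 393)) Pf.nil)) (Pf.C 0 0xe0c008)))) (Pf.B 8 4 (Pf.B 8 1 (Pf.C 12 0x1014084) (Pf.B 8 3 (Pf.B 8 2 (Pf.C 6 50178) (Pf.W 27 6 [] [2,3,5,8] (Pf.cons (Pf.B 9 3 (Pf.B 9 8 (Pf.B 9 5 (Pf.C 11 0x1220305) (Pf.C 13 0x1014483)) (Pf.B 9 2 (Pf.B 9 5 (Pf.C 10 0x1218105) (Pf.C 15 0x414483)) (Pf.C 0 0xc20109))) (Pf.C 5 393)) Pf.nil))) (Pf.C 0 0xc0c401))) (Pf.C 8 0xc20205))) (Pf.C 4 904)) Pf.nil)) (Pf.cons (Pf.B 8 5 (Pf.C 7 0xa04400) (Pf.C 2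 648)) (Pf.cons (Pf.C 178 50049) (Pf.cons (Pf.B 8 7 (Pf.B 8 6 (Pf.B 8 5 (Pf.C 54 0x20085) (Pf.C 8 0xe14406)) (Pf.C 55 0x20086)) (Pf.C 4 904)) (Pf.cons (Pf.B 8 6 (Pf.B 8 3 (Pf.C 57 50182) (Pf.C 178 50176)) (Pf.C 55 0x20006)) (Pf.cons (Pf.B 8 7 (Pf.C 6 0x20381) (Pf.B 8 5 (Pf.C 56 0x20085) (Pf.C 0 0x1c405))) (Pf.cons (Pf.B 8 4 (Pf.C 56 0x20004) (Pf.B 8 3 (Pf.B 8 5 (Pf.B 8 7 (Pf.C 18 0x50e0c208) (Pf.B 8 6 (Pf.B 8 2 (Pf.C 56 0x20106) (Pf.W 23 5 [] [0,1,2,3,4,6,7,8] (Pf.cons (Pf.B 9 7 (Pf.B 9 8 (Pf.B 9 4 (Pf.C 13 0x1220205) (Pf.B 9 3 (Pf.C 11 0x610485) (Pf.B 9 0 (Pf.C 6 0x20480) (Pf.C 0 0xe0c009)))) (Pf.B 9 2 (Pf.B 9 6 (Pf.C 12 0x1208305) (Pf.B 9 3 (Pf.C 6 50306) (Pf.B 9 1 (Pf.C 12 0x1214082)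 (Pf.C 0 0xc0c481)))) (Pf.C 0 0xe20109))) (Pf.C 4 905)) Pf.nil))) (Pf.C 9 0x618405))) (Pf.C 9 0x820283)) (Pf.C 5 392))) Pf.nil)))))))))) (Pf.C 0 0x1c182))) (Pf.C 0 50049))))) (Pf.B 7 5 (Pf.B 7 1 (Pf.C 12 0xe14084) (Pf.B 7 3 (Pf.B 7 0 (Pf.C 12 0xe10005) (Pf.W 180 256 [] [1,3,4,5,6,7] (Pf.cons (Pf.W 180 257 [] [0,3,4,5,6,7] (Pf.cons (Pf.W 23 6 [] [0,1,2,3,4,5,7] (Pf.cons (Pf.B 8 7 (Pf.B 8 5 (Pf.B 8 3 (Pf.C 13 0x1018185) (Pf.B 8 2 (Pf.C 12 0x1018105) (Pf.B 8 1 (Pf.C 12 0x1014086) (Pf.B 3 2 (Pf.B 7 2 (Pf.C 6 50050) (Pf.W 27 6 [] [1,2,3,5,7,8] (Pf.cons (Pf.B 9 3 (Pf.B 9 8 (Pf.B 9 7 (Pf.C 11 0x1218388) (Pf.B 9 5 (Pf.B 9 2 (Pf.C 10 0x1218105) (Pf.C 0 0xc1c109)) (Pf.C 13 0x1014486))) (Pf.B 9 1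 (Pf.B 9 5 (Pf.C 10 0x1204286) (Pf.B 9 7 (Pf.C 13 0xe14483) (Pf.B 9 2 (Pf.C 10 0x1218101) (Pf.C 0 0xc1c109)))) (Pf.C 0 0x620089))) (Pf.C 5 393)) Pf.nil))) (Pf.C 0 0x220182))))) (Pf.B 8 4 (Pf.B 8 3 (Pf.C 11 0x614404) (Pf.B 8 2 (Pf.C 12 0x1018104) (Pf.B 8 1 (Pf.B 8 0 (Pf.C 12 0x1010001) (Pf.B 3 2 (Pf.B 7 2 (Pf.C 6 50050) (Pf.W 27 6 [] [0,2,3,4,5,7,8] (Pf.cons (Pf.B 9 3 (Pf.B 9 8 (Pf.B 9 7 (Pf.C 11 0x1218388) (Pf.B 9 5 (Pf.C 11 0x1220286) (Pf.B 9 4 (Pf.B 9 2 (Pf.C 10 0x1218104) (Pf.C 0 0xc1c109)) (Pf.C 9 0xa24203)))) (Pf.B 9 0 (Pf.B 9 5 (Pf.B 9 7 (Pf.C 11 0x1218385) (Pf.B 9 2 (Pf.C 10 0x1218100) (Pf.C 0 0xc1c109))) (Pf.C 15 83078)) (Pf.C 0 0x620009))) (Pf.C 5 393)) Pf.nil))) (Pf.C 0 0x20182)))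 (Pf.C 0 0xa04403)))) (Pf.C 8 0xa20206))) (Pf.C 4 904)) Pf.nil)) (Pf.cons (Pf.B 8 5 (Pf.C 7 0xa04402) (Pf.C 2 648)) (Pf.cons (Pf.W 23 6 [] [0,1,2,3,4,5,7] (Pf.cons (Pf.B 8 7 (Pf.B 8 5 (Pf.B 8 3 (Pf.C 13 0x1018185) (Pf.B 8 2 (Pf.C 12 0x1018105) (Pf.B 8 1 (Pf.C 12 0x1014086) (Pf.B 3 2 (Pf.B 7 2 (Pf.C 6 50050) (Pf.W 27 6 [] [1,2,3,5,7,8] (Pf.cons (Pf.B 9 3 (Pf.B 9 8 (Pf.B 9 7 (Pf.C 11 0x1218388) (Pf.B 9 5 (Pf.B 9 2 (Pf.C 10 0x1218105) (Pf.C 0 0xc1c109)) (Pf.C 13 0x1014486))) (Pf.B 9 1 (Pf.B 9 5 (Pf.C 10 0x1204286) (Pf.B 9 7 (Pf.C 13 0xe14483) (Pf.B 9 2 (Pf.C 10 0x1218101) (Pf.C 0 0xc1c109)))) (Pf.C 0 0x620089))) (Pf.C 5 393)) Pf.nil))) (Pf.C 0 0x220182))))) (Pf.B 8 4 (Pf.B 8 3 (Pf.C 11 0x614404)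 (Pf.B 8 2 (Pf.C 12 0x1018104) (Pf.B 8 1 (Pf.B 8 0 (Pf.C 12 0x1010001) (Pf.B 3 2 (Pf.B 7 2 (Pf.C 6 50050) (Pf.W 27 6 [] [0,2,3,4,5,7,8] (Pf.cons (Pf.B 9 3 (Pf.B 9 8 (Pf.B 9 7 (Pf.C 11 0x1218388) (Pf.B 9 5 (Pf.C 11 0x1220286) (Pf.B 9 4 (Pf.B 9 2 (Pf.C 10 0x1218104) (Pf.C 0 0xc1c109)) (Pf.C 9 0xa24203)))) (Pf.B 9 0 (Pf.B 9 5 (Pf.B 9 7 (Pf.C 11 0x1218385) (Pf.B 9 2 (Pf.C 10 0x1218100) (Pf.C 0 0xc1c109))) (Pf.C 15 83078)) (Pf.C 0 0x620009))) (Pf.C 5 393)) Pf.nil))) (Pf.C 0 0x20182))) (Pf.C 0 0xa04403)))) (Pf.C 8 0xa20206))) (Pf.C 4 904)) Pf.nil)) (Pf.cons (Pf.B 8 6 (Pf.C 7 0xc08401) (Pf.C 2 776)) (Pf.cons (Pf.B 3 2 (Pf.C 6 50050) (Pf.C 177 50050)) (Pf.cons (Pf.B 8 7 (Pf.B 8 6 (Pf.C 54 0x20106)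 (Pf.B 8 5 (Pf.C 8 0xe18405) (Pf.C 55 0x20105))) (Pf.C 4 904)) (Pf.cons (Pf.B 8 6 (Pf.B 8 3 (Pf.C 57 50182) (Pf.C 178 50177)) (Pf.C 55 0x20086)) (Pf.cons (Pf.B 7 2 (Pf.C 6 50050) (Pf.W 23 6 [] [0,1,2,3,4,5,7] (Pf.cons (Pf.B 8 7 (Pf.B 8 5 (Pf.B 8 3 (Pf.C 13 0x1018185) (Pf.B 8 1 (Pf.C 12 0x1014086) (Pf.W 27 6 [] [1,2,3,5,7,8] (Pf.cons (Pf.B 9 3 (Pf.B 9 8 (Pf.B 9 7 (Pf.C 11 0x1218388) (Pf.B 9 5 (Pf.B 9 2 (Pf.C 10 0x1218105) (Pf.C 0 0xc1c109)) (Pf.C 13 0x1014486))) (Pf.B 9 1 (Pf.B 9 5 (Pf.C 10 0x1204286) (Pf.B 9 7 (Pf.C 13 0xe14483) (Pf.B 9 2 (Pf.C 10 0x1218101) (Pf.C 0 0xc1c109)))) (Pf.C 0 0x620089))) (Pf.C 5 393)) Pf.nil)))) (Pf.B 8 4 (Pf.B 8 3 (Pf.C 11 0x614404) (Pf.B 8 1 (Pf.B 8 0 (Pf.C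 12 0x1010001) (Pf.W 27 6 [] [0,2,3,4,5,7,8] (Pf.cons (Pf.B 9 3 (Pf.B 9 8 (Pf.B 9 7 (Pf.C 11 0x1218388) (Pf.B 9 5 (Pf.C 11 0x1220286) (Pf.B 9 4 (Pf.B 9 2 (Pf.C 10 0x1218104) (Pf.C 0 0xc1c109)) (Pf.C 9 0xa24203)))) (Pf.B 9 0 (Pf.B 9 5 (Pf.B 9 7 (Pf.C 11 0x1218385) (Pf.B 9 2 (Pf.C 10 0x1218100) (Pf.C 0 0xc1c109))) (Pf.C 15 83078)) (Pf.C 0 0x620009))) (Pf.C 5 393)) Pf.nil))) (Pf.C 0 0xa04403))) (Pf.C 8 0xa20206))) (Pf.C 4 904)) Pf.nil))) (Pf.cons (Pf.B 8 6 (Pf.C 56 0x20106) (Pf.B 8 7 (Pf.B 8 3 (Pf.B 8 5 (Pf.C 9 0x618405) (Pf.C 13 0xe14403)) (Pf.C 5 392)) (Pf.C 0 0xc1c401))) (Pf.cons (Pf.B 8 5 (Pf.C 56 0x20085) (Pf.B 8 3 (Pf.B 8 7 (Pf.C 13 0xe14403) (Pf.B 8 4 (Pf.B 8 6 (Pf.B 8 0 (Pf.C 56 0x20004)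 (Pf.B 7 2 (Pf.B 3 2 (Pf.C 6 50050) (Pf.W 23 6 [] [0,2,3,4,5,7,8] (Pf.cons (Pf.B 9 7 (Pf.B 9 8 (Pf.B 9 5 (Pf.C 13 0x1220286) (Pf.B 9 4 (Pf.B 9 3 (Pf.C 11 0x614484) (Pf.B 9 2 (Pf.C 12 0x1218104) (Pf.C 0 0xc0c109))) (Pf.C 8 0xa24206))) (Pf.B 9 0 (Pf.B 9 5 (Pf.B 9 4 (Pf.C 12 0x1200205) (Pf.B 9 3 (Pf.C 11 0x610485) (Pf.B 9 2 (Pf.C 12 0x1218100) (Pf.C 0 0xc0c109)))) (Pf.C 14 83078)) (Pf.C 0 0xe20009))) (Pf.C 4 905)) Pf.nil))) (Pf.C 0 0x20382))) (Pf.C 9 0x618404)) (Pf.C 9 0xa20203))) (Pf.C 5 392))) Pf.nil))))))))))) (Pf.cons (Pf.B 8 4 (Pf.C 7 0x800402) (Pf.C 2 520)) (Pf.cons (Pf.W 23 6 [] [0,1,2,3,4,5,7] (Pf.cons (Pf.B 8 7 (Pf.B 8 5 (Pf.B 8 3 (Pf.C 13 0x1018185) (Pf.B 8 2 (Pf.C 12 0x1018105)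 (Pf.B 8 1 (Pf.C 12 0x1014086) (Pf.B 3 2 (Pf.B 7 2 (Pf.C 6 50050) (Pf.W 27 6 [] [1,2,3,5,7,8] (Pf.cons (Pf.B 9 3 (Pf.B 9 8 (Pf.B 9 7 (Pf.C 11 0x1218388) (Pf.B 9 5 (Pf.B 9 2 (Pf.C 10 0x1218105) (Pf.C 0 0xc1c109)) (Pf.C 13 0x1014486))) (Pf.B 9 1 (Pf.B 9 5 (Pf.C 10 0x1204286) (Pf.B 9 7 (Pf.C 13 0xe14483) (Pf.B 9 2 (Pf.C 10 0x1218101) (Pf.C 0 0xc1c109)))) (Pf.C 0 0x620089))) (Pf.C 5 393)) Pf.nil))) (Pf.C 0 0x220182))))) (Pf.B 8 4 (Pf.B 8 3 (Pf.C 11 0x614404) (Pf.B 8 2 (Pf.C 12 0x1018104) (Pf.B 8 1 (Pf.B 8 0 (Pf.C 12 0x1010001) (Pf.B 3 2 (Pf.B 7 2 (Pf.C 6 50050) (Pf.W 180 128 [] [2,3,4,5,6,7,8] (Pf.cons (Pf.W 27 6 [] [0,2,3,4,5,7,8] (Pf.cons (Pf.B 9 3 (Pf.B 9 8 (Pf.B 9 7 (Pf.C 11 0x1218388)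 (Pf.B 9 5 (Pf.C 11 0x1220286) (Pf.B 9 4 (Pf.B 9 2 (Pf.C 10 0x1218104) (Pf.C 0 0xc1c109)) (Pf.C 9 0xa24203)))) (Pf.B 9 0 (Pf.B 9 5 (Pf.B 9 7 (Pf.C 11 0x1218385) (Pf.B 9 2 (Pf.C 10 0x1218100) (Pf.C 0 0xc1c109))) (Pf.C 15 83078)) (Pf.C 0 0x620009))) (Pf.C 5 393)) Pf.nil)) (Pf.cons (Pf.B 9 4 (Pf.C 7 0x800481) (Pf.C 2 521)) (Pf.cons (Pf.W 27 6 [] [0,2,3,4,5,7,8] (Pf.cons (Pf.B 9 3 (Pf.B 9 8 (Pf.B 9 7 (Pf.C 11 0x1218388) (Pf.B 9 5 (Pf.C 11 0x1220286) (Pf.B 9 4 (Pf.B 9 2 (Pf.C 10 0x1218104) (Pf.C 0 0xc1c109)) (Pf.C 9 0xa24203)))) (Pf.B 9 0 (Pf.B 9 5 (Pf.B 9 7 (Pf.C 11 0x1218385) (Pf.B 9 2 (Pf.C 10 0x1218100) (Pf.C 0 0xc1c109))) (Pf.C 15 83078)) (Pf.C 0 0x620009))) (Pf.C 5 393)) Pf.nil)) (Pf.cons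 (Pf.B 9 5 (Pf.C 7 0xa04480) (Pf.C 2 649)) (Pf.cons (Pf.C 178 50177) (Pf.cons (Pf.B 9 8 (Pf.B 9 6 (Pf.B 9 5 (Pf.C 54 0x24085) (Pf.C 8 0x1014486)) (Pf.C 55 0x24086)) (Pf.C 4 1033)) (Pf.cons (Pf.B 9 6 (Pf.B 9 3 (Pf.C 57 50310) (Pf.C 178 50304)) (Pf.C 55 0x24006)) (Pf.cons (Pf.B 9 8 (Pf.C 6 0x24401) (Pf.B 9 5 (Pf.C 56 0x24085) (Pf.C 0 0x20485))) (Pf.cons (Pf.B 9 4 (Pf.C 56 0x24004) (Pf.B 9 3 (Pf.B 9 7 (Pf.C 13 0xe10483) (Pf.B 9 6 (Pf.B 9 2 (Pf.C 56 0x24106) (Pf.C 0 0xc1c109)) (Pf.C 0 0x21c486))) (Pf.C 5 393))) Pf.nil))))))))))) (Pf.C 0 0x20182))) (Pf.C 0 0xa04403)))) (Pf.C 8 0xa20206))) (Pf.C 4 904)) Pf.nil)) (Pf.cons (Pf.B 8 6 (Pf.C 7 0xc08400) (Pf.C 2 776)) (Pf.cons (Pf.B 3 2 (Pf.C 6 50050)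 (Pf.C 177 50050)) (Pf.cons (Pf.B 8 7 (Pf.B 8 6 (Pf.C 54 0x20106) (Pf.B 8 5 (Pf.C 8 0xe18405) (Pf.C 55 0x20105))) (Pf.C 4 904)) (Pf.cons (Pf.B 8 6 (Pf.B 8 3 (Pf.C 57 50182) (Pf.C 178 50176)) (Pf.C 55 0x20006)) (Pf.cons (Pf.B 7 2 (Pf.C 6 50050) (Pf.W 180 128 [] [2,3,4,5,6,7] (Pf.cons (Pf.W 23 6 [] [0,1,2,3,4,5,7] (Pf.cons (Pf.B 8 7 (Pf.B 8 5 (Pf.B 8 3 (Pf.C 13 0x1018185) (Pf.B 8 1 (Pf.C 12 0x1014086) (Pf.W 27 6 [] [1,2,3,5,7,8] (Pf.cons (Pf.B 9 3 (Pf.B 9 8 (Pf.B 9 7 (Pf.C 11 0x1218388) (Pf.B 9 5 (Pf.B 9 2 (Pf.C 10 0x1218105) (Pf.C 0 0xc1c109)) (Pf.C 13 0x1014486))) (Pf.B 9 1 (Pf.B 9 5 (Pf.C 10 0x1204286) (Pf.B 9 7 (Pf.C 13 0xe14483) (Pf.B 9 2 (Pf.C 10 0x1218101) (Pf.C 0 0xc1c109)))) (Pf.C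 0 0x620089))) (Pf.C 5 393)) Pf.nil)))) (Pf.B 8 4 (Pf.B 8 3 (Pf.C 11 0x614404) (Pf.B 8 1 (Pf.B 8 0 (Pf.C 12 0x1010001) (Pf.W 27 6 [] [0,2,3,4,5,7,8] (Pf.cons (Pf.B 9 3 (Pf.B 9 8 (Pf.B 9 7 (Pf.C 11 0x1218388) (Pf.B 9 5 (Pf.C 11 0x1220286) (Pf.B 9 4 (Pf.B 9 2 (Pf.C 10 0x1218104) (Pf.C 0 0xc1c109)) (Pf.C 9 0xa24203)))) (Pf.B 9 0 (Pf.B 9 5 (Pf.B 9 7 (Pf.C 11 0x1218385) (Pf.B 9 2 (Pf.C 10 0x1218100) (Pf.C 0 0xc1c109))) (Pf.C 15 83078)) (Pf.C 0 0x620009))) (Pf.C 5 393)) Pf.nil))) (Pf.C 0 0xa04403))) (Pf.C 8 0xa20206))) (Pf.C 4 904)) Pf.nil)) (Pf.cons (Pf.B 8 4 (Pf.C 7 0x800401) (Pf.C 2 520)) (Pf.cons (Pf.W 23 6 [] [0,1,2,3,4,5,7] (Pf.cons (Pf.B 8 7 (Pf.B 8 5 (Pf.B 8 3 (Pf.C 13 0x1018185) (Pf.B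 8 1 (Pf.C 12 0x1014086) (Pf.W 27 6 [] [1,2,3,5,7,8] (Pf.cons (Pf.B 9 3 (Pf.B 9 8 (Pf.B 9 7 (Pf.C 11 0x1218388) (Pf.B 9 5 (Pf.B 9 2 (Pf.C 10 0x1218105) (Pf.C 0 0xc1c109)) (Pf.C 13 0x1014486))) (Pf.B 9 1 (Pf.B 9 5 (Pf.C 10 0x1204286) (Pf.B 9 7 (Pf.C 13 0xe14483) (Pf.B 9 2 (Pf.C 10 0x1218101) (Pf.C 0 0xc1c109)))) (Pf.C 0 0x620089))) (Pf.C 5 393)) Pf.nil)))) (Pf.B 8 4 (Pf.B 8 3 (Pf.C 11 0x614404) (Pf.B 8 1 (Pf.B 8 0 (Pf.C 12 0x1010001) (Pf.W 27 6 [] [0,2,3,4,5,7,8] (Pf.cons (Pf.B 9 3 (Pf.B 9 8 (Pf.B 9 7 (Pf.C 11 0x1218388) (Pf.B 9 5 (Pf.C 11 0x1220286) (Pf.B 9 4 (Pf.B 9 2 (Pf.C 10 0x1218104) (Pf.C 0 0xc1c109)) (Pf.C 9 0xa24203)))) (Pf.B 9 0 (Pf.B 9 5 (Pf.B 9 7 (Pf.C 11 0x1218385) (Pf.B 9 2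 (Pf.C 10 0x1218100) (Pf.C 0 0xc1c109))) (Pf.C 15 83078)) (Pf.C 0 0x620009))) (Pf.C 5 393)) Pf.nil))) (Pf.C 0 0xa04403))) (Pf.C 8 0xa20206))) (Pf.C 4 904)) Pf.nil)) (Pf.cons (Pf.B 8 5 (Pf.C 7 0xa04400) (Pf.C 2 648)) (Pf.cons (Pf.B 8 6 (Pf.B 8 3 (Pf.C 57 50182) (Pf.C 178 50177)) (Pf.C 55 0x20086)) (Pf.cons (Pf.B 8 6 (Pf.B 8 3 (Pf.C 57 50182) (Pf.C 178 50176)) (Pf.C 55 0x20006)) (Pf.cons (Pf.B 8 5 (Pf.C 56 0x20085) (Pf.B 8 3 (Pf.B 8 7 (Pf.C 13 0xe14403) (Pf.B 8 6 (Pf.B 8 2 (Pf.C 56 0x20106) (Pf.C 0 0xc1c108)) (Pf.C 0 0x1c406))) (Pf.C 5 392))) (Pf.cons (Pf.B 8 4 (Pf.C 56 0x20004) (Pf.B 8 3 (Pf.B 8 7 (Pf.C 13 0xe10403) (Pf.B 8 6 (Pf.B 8 2 (Pf.C 56 0x20106) (Pf.C 0 0xc1c108)) (Pf.C 0 0x21c406)))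 (Pf.C 5 392))) Pf.nil)))))))))) (Pf.cons (Pf.B 8 6 (Pf.C 56 0x20106) (Pf.B 8 7 (Pf.B 8 3 (Pf.B 8 5 (Pf.C 9 0x618405) (Pf.C 13 0xe14403)) (Pf.C 5 392)) (Pf.C 0 0xc1c400))) (Pf.cons (Pf.B 8 4 (Pf.C 56 0x20004) (Pf.B 8 3 (Pf.B 8 7 (Pf.C 13 0xe10403) (Pf.B 8 5 (Pf.B 8 6 (Pf.B 8 1 (Pf.C 56 0x20085) (Pf.B 7 2 (Pf.B 3 2 (Pf.C 6 50050) (Pf.W 180 257 [] [0,3,4,5,6,7,8] (Pf.cons (Pf.W 23 6 [] [1,2,3,4,5,7,8] (Pf.cons (Pf.B 9 7 (Pf.B 9 8 (Pf.B 9 5 (Pf.B 9 4 (Pf.C 13 0x1220205) (Pf.B 9 3 (Pf.C 11 0x610485) (Pf.B 9 2 (Pf.C 12 0x1218105) (Pf.C 0 0xc0c109)))) (Pf.C 11 0x1014486)) (Pf.B 9 1 (Pf.B 9 5 (Pf.C 12 0x1204286) (Pf.B 9 4 (Pf.B 9 3 (Pf.C 11 0x614484) (Pf.B 9 2 (Pf.C 12 0x1218101) (Pf.C 0 0xc0c109)))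 (Pf.C 8 0xa24206))) (Pf.C 0 0xe20089))) (Pf.C 4 905)) Pf.nil)) (Pf.cons (Pf.B 9 5 (Pf.C 7 0xa04482) (Pf.C 2 649)) (Pf.cons (Pf.W 23 6 [] [1,2,3,4,5,7,8] (Pf.cons (Pf.B 9 7 (Pf.B 9 8 (Pf.B 9 5 (Pf.B 9 4 (Pf.C 13 0x1220205) (Pf.B 9 3 (Pf.C 11 0x610485) (Pf.B 9 2 (Pf.C 12 0x1218105) (Pf.C 0 0xc0c109)))) (Pf.C 11 0x1014486)) (Pf.B 9 1 (Pf.B 9 5 (Pf.C 12 0x1204286) (Pf.B 9 4 (Pf.B 9 3 (Pf.C 11 0x614484) (Pf.B 9 2 (Pf.C 12 0x1218101) (Pf.C 0 0xc0c109))) (Pf.C 8 0xa24206))) (Pf.C 0 0xe20089))) (Pf.C 4 905)) Pf.nil)) (Pf.cons (Pf.B 9 6 (Pf.C 7 0xc08481) (Pf.C 2 777)) (Pf.cons (Pf.C 177 50050) (Pf.cons (Pf.B 9 8 (Pf.C 177 0x20482) (Pf.C 178 0x20482)) (Pf.cons (Pf.B 9 8 (Pf.C 177 0x20481) (Pf.C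 178 0x20481)) (Pf.cons (Pf.B 9 8 (Pf.B 9 7 (Pf.C 6 0x24382) (Pf.C 0 0x1004389)) (Pf.C 5 1033)) (Pf.cons (Pf.B 9 8 (Pf.B 9 5 (Pf.C 56 0x24085) (Pf.B 9 6 (Pf.B 9 7 (Pf.C 18 0x80e18289) (Pf.B 9 4 (Pf.B 9 0 (Pf.C 56 0x24004) (Pf.W 23 6 [] [0,2,3,4,5,7,9] (Pf.cons (Pf.B 10 7 (Pf.B 10 9 (Pf.B 10 5 (Pf.C 13 0x1424286) (Pf.B 10 4 (Pf.B 10 3 (Pf.C 11 0x614504) (Pf.B 10 2 (Pf.C 12 0x1418104) (Pf.C 0 0xc0c10a))) (Pf.C 8 0xa28206))) (Pf.B 10 0 (Pf.B 10 5 (Pf.B 10 4 (Pf.C 12 0x1400205) (Pf.B 10 3 (Pf.C 11 0x610505) (Pf.B 10 2 (Pf.C 12 0x1418100) (Pf.C 0 0xc0c10a)))) (Pf.C 14 83206)) (Pf.C 0 0xe2400a))) (Pf.C 4 906)) Pf.nil))) (Pf.C 9 0x1010486))) (Pf.C 9 0xa24308))) (Pf.C 5 1033)) Pf.nil)))))))))))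 (Pf.C 0 0x220382))) (Pf.C 9 0x618405)) (Pf.C 9 0x820283))) (Pf.C 5 392))) Pf.nil)))))))))))) (Pf.C 0 0xc0c381))) (Pf.C 8 0xc1c284))) Pf.nil))) (Pf.C 53 32774)) (Pf.C 53 32902)) (Pf.C 2 518)) (Pf.C 2 646)) Pf.nil))) (Pf.B 3 2 (Pf.C 15 0x414184) (Pf.W 170 2 [] [0,1,3,4,5] (Pf.cons (Pf.B 6 5 (Pf.B 6 4 (Pf.B 6 3 (Pf.B 6 1 (Pf.B 6 0 (Pf.W 23 4 [] [0,1,2,3,5,6] (Pf.cons (Pf.B 7 6 (Pf.B 7 2 (Pf.C 12 0xe18104) (Pf.B 7 0 (Pf.C 12 0xe10006) (Pf.B 7 3 (Pf.B 7 5 (Pf.C 13 0xe0c284) (Pf.W 180 128 [] [2,3,4,5,6,7] (Pf.cons (Pf.W 180 257 [] [0,3,4,5,6,7] (Pf.cons (Pf.W 23 5 [] [0,1,2,3,4,6,7] (Pf.cons (Pf.B 8 7 (Pf.B 8 6 (Pf.B 8 3 (Pf.C 13 0x1014186) (Pf.B 8 2 (Pf.C 12 0x1018105) (Pf.B 8 1 (Pf.C 12 0x1014086)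 (Pf.B 3 1 (Pf.B 7 1 (Pf.C 6 50049) (Pf.W 27 5 [] [1,2,3,6,7,8] (Pf.cons (Pf.B 9 3 (Pf.B 9 8 (Pf.B 9 7 (Pf.C 11 0x1214388) (Pf.B 9 6 (Pf.B 9 1 (Pf.C 10 0x1214086) (Pf.C 0 0xa1c089)) (Pf.C 13 0x1018485))) (Pf.B 9 2 (Pf.B 9 6 (Pf.C 10 0x1208305) (Pf.B 9 7 (Pf.C 13 0xe18483) (Pf.B 9 1 (Pf.C 10 0x1214082) (Pf.C 0 0xa1c089)))) (Pf.C 0 0x620109))) (Pf.C 5 393)) Pf.nil))) (Pf.C 0 0x420181))))) (Pf.B 8 4 (Pf.B 8 3 (Pf.C 11 0x618404) (Pf.B 8 2 (Pf.B 8 1 (Pf.C 12 0x1014082) (Pf.B 8 0 (Pf.C 12 0x1010002) (Pf.B 3 1 (Pf.B 7 1 (Pf.C 6 50049) (Pf.W 27 5 [] [0,1,2,3,6,7,8] (Pf.cons (Pf.B 9 3 (Pf.B 9 8 (Pf.B 9 7 (Pf.C 11 0x1214388) (Pf.B 9 6 (Pf.C 11 0x1220305) (Pf.B 9 2 (Pf.C 6 0x24402) (Pf.C 0 0xe08486))))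 (Pf.B 9 0 (Pf.B 9 6 (Pf.B 9 7 (Pf.C 11 0x1214386) (Pf.B 9 1 (Pf.C 10 0x1214080) (Pf.C 0 0xa1c089))) (Pf.C 15 99461)) (Pf.C 0 0x620009))) (Pf.C 5 393)) Pf.nil))) (Pf.C 0 0x20181)))) (Pf.C 0 0xc08403))) (Pf.C 8 0xc20205))) (Pf.C 4 904)) Pf.nil)) (Pf.cons (Pf.B 8 5 (Pf.C 7 0xa04402) (Pf.C 2 648)) (Pf.cons (Pf.W 23 5 [] [0,1,2,3,4,6,7] (Pf.cons (Pf.B 8 7 (Pf.B 8 6 (Pf.B 8 3 (Pf.C 13 0x1014186) (Pf.B 8 2 (Pf.C 12 0x1018105) (Pf.B 8 1 (Pf.C 12 0x1014086) (Pf.B 3 1 (Pf.B 7 1 (Pf.C 6 50049) (Pf.W 27 5 [] [1,2,3,6,7,8] (Pf.cons (Pf.B 9 3 (Pf.B 9 8 (Pf.B 9 7 (Pf.C 11 0x1214388) (Pf.B 9 6 (Pf.B 9 1 (Pf.C 10 0x1214086) (Pf.C 0 0xa1c089)) (Pf.C 13 0x1018485))) (Pf.B 9 2 (Pf.B 9 6 (Pf.C 10 0x1208305)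 (Pf.B 9 7 (Pf.C 13 0xe18483) (Pf.B 9 1 (Pf.C 10 0x1214082) (Pf.C 0 0xa1c089)))) (Pf.C 0 0x620109))) (Pf.C 5 393)) Pf.nil))) (Pf.C 0 0x420181))))) (Pf.B 8 4 (Pf.B 8 3 (Pf.C 11 0x618404) (Pf.B 8 2 (Pf.B 8 1 (Pf.C 12 0x1014082) (Pf.B 8 0 (Pf.C 12 0x1010002) (Pf.B 3 1 (Pf.B 7 1 (Pf.C 6 50049) (Pf.W 27 5 [] [0,1,2,3,6,7,8] (Pf.cons (Pf.B 9 3 (Pf.B 9 8 (Pf.B 9 7 (Pf.C 11 0x1214388) (Pf.B 9 6 (Pf.C 11 0x1220305) (Pf.B 9 2 (Pf.C 6 0x24402) (Pf.C 0 0xe08486)))) (Pf.B 9 0 (Pf.B 9 6 (Pf.B 9 7 (Pf.C 11 0x1214386) (Pf.B 9 1 (Pf.C 10 0x1214080) (Pf.C 0 0xa1c089))) (Pf.C 15 99461)) (Pf.C 0 0x620009))) (Pf.C 5 393)) Pf.nil))) (Pf.C 0 0x20181)))) (Pf.C 0 0xc08403))) (Pf.C 8 0xc20205))) (Pf.C 4 904)) Pf.nil))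 (Pf.cons (Pf.B 8 6 (Pf.C 7 0xc08401) (Pf.C 2 776)) (Pf.cons (Pf.B 8 5 (Pf.B 8 3 (Pf.C 57 50181) (Pf.C 178 50178)) (Pf.C 55 0x20105)) (Pf.cons (Pf.B 3 1 (Pf.C 6 50049) (Pf.C 177 50049)) (Pf.cons (Pf.B 8 7 (Pf.B 8 6 (Pf.B 8 5 (Pf.C 54 0x20085) (Pf.C 8 0xe14406)) (Pf.C 55 0x20086)) (Pf.C 4 904)) (Pf.cons (Pf.B 8 6 (Pf.C 56 0x20106) (Pf.B 8 3 (Pf.B 8 7 (Pf.C 13 0xe18403) (Pf.B 8 4 (Pf.B 8 5 (Pf.B 8 0 (Pf.C 56 0x20004) (Pf.B 7 1 (Pf.B 3 1 (Pf.C 6 50049) (Pf.W 23 5 [] [0,1,2,3,4,6,7,8] (Pf.cons (Pf.B 9 7 (Pf.B 9 8 (Pf.B 9 6 (Pf.C 13 0x1220305) (Pf.B 9 4 (Pf.B 9 3 (Pf.C 11 0x618484) (Pf.B 9 2 (Pf.C 6 0x20482) (Pf.C 0 0xc08483))) (Pf.C 8 0xc24205))) (Pf.B 9 0 (Pf.B 9 6 (Pf.B 9 4 (Pf.C 12 0x1200205)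 (Pf.B 9 3 (Pf.C 11 0x610486) (Pf.B 9 1 (Pf.C 12 0x1214080) (Pf.C 0 0xa0c089)))) (Pf.C 14 99461)) (Pf.C 0 0xe20009))) (Pf.C 4 905)) Pf.nil))) (Pf.C 0 0x20381))) (Pf.C 9 0x614404)) (Pf.C 9 0xc20203))) (Pf.C 5 392))) (Pf.cons (Pf.B 7 1 (Pf.C 6 50049) (Pf.W 23 5 [] [0,1,2,3,4,6,7] (Pf.cons (Pf.B 8 7 (Pf.B 8 6 (Pf.B 8 3 (Pf.C 13 0x1014186) (Pf.B 8 2 (Pf.C 12 0x1018105) (Pf.W 27 5 [] [1,2,3,6,7,8] (Pf.cons (Pf.B 9 3 (Pf.B 9 8 (Pf.B 9 7 (Pf.C 11 0x1214388) (Pf.B 9 6 (Pf.B 9 1 (Pf.C 10 0x1214086) (Pf.C 0 0xa1c089)) (Pf.C 13 0x1018485))) (Pf.B 9 2 (Pf.B 9 6 (Pf.C 10 0x1208305) (Pf.B 9 7 (Pf.C 13 0xe18483) (Pf.B 9 1 (Pf.C 10 0x1214082) (Pf.C 0 0xa1c089)))) (Pf.C 0 0x620109))) (Pf.C 5 393)) Pf.nil))))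 (Pf.B 8 4 (Pf.B 8 3 (Pf.C 11 0x618404) (Pf.B 8 2 (Pf.B 8 0 (Pf.C 12 0x1010002) (Pf.W 27 5 [] [0,1,2,3,6,7,8] (Pf.cons (Pf.B 9 3 (Pf.B 9 8 (Pf.B 9 7 (Pf.C 11 0x1214388) (Pf.B 9 6 (Pf.C 11 0x1220305) (Pf.B 9 2 (Pf.C 6 0x24402) (Pf.C 0 0xe08486)))) (Pf.B 9 0 (Pf.B 9 6 (Pf.B 9 7 (Pf.C 11 0x1214386) (Pf.B 9 1 (Pf.C 10 0x1214080) (Pf.C 0 0xa1c089))) (Pf.C 15 99461)) (Pf.C 0 0x620009))) (Pf.C 5 393)) Pf.nil))) (Pf.C 0 0xc08403))) (Pf.C 8 0xc20205))) (Pf.C 4 904)) Pf.nil))) (Pf.cons (Pf.B 8 5 (Pf.C 56 0x20085) (Pf.B 8 7 (Pf.B 8 3 (Pf.B 8 6 (Pf.C 9 0x614406) (Pf.C 13 0xe18403)) (Pf.C 5 392)) (Pf.C 0 0xa1c402))) Pf.nil))))))))))) (Pf.cons (Pf.B 8 4 (Pf.C 7 0x800401) (Pf.C 2 520)) (Pf.cons (Pf.W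 23 5 [] [0,1,2,3,4,6,7] (Pf.cons (Pf.B 8 7 (Pf.B 8 6 (Pf.B 8 3 (Pf.C 13 0x1014186) (Pf.B 8 2 (Pf.C 12 0x1018105) (Pf.B 8 1 (Pf.C 12 0x1014086) (Pf.B 3 1 (Pf.B 7 1 (Pf.C 6 50049) (Pf.W 27 5 [] [1,2,3,6,7,8] (Pf.cons (Pf.B 9 3 (Pf.B 9 8 (Pf.B 9 7 (Pf.C 11 0x1214388) (Pf.B 9 6 (Pf.B 9 1 (Pf.C 10 0x1214086) (Pf.C 0 0xa1c089)) (Pf.C 13 0x1018485))) (Pf.B 9 2 (Pf.B 9 6 (Pf.C 10 0x1208305) (Pf.B 9 7 (Pf.C 13 0xe18483) (Pf.B 9 1 (Pf.C 10 0x1214082) (Pf.C 0 0xa1c089)))) (Pf.C 0 0x620109))) (Pf.C 5 393)) Pf.nil))) (Pf.C 0 0x420181))))) (Pf.B 8 4 (Pf.B 8 3 (Pf.C 11 0x618404) (Pf.B 8 2 (Pf.B 8 1 (Pf.C 12 0x1014082) (Pf.B 8 0 (Pf.C 12 0x1010002) (Pf.B 3 1 (Pf.B 7 1 (Pf.C 6 50049) (Pf.W 27 5 [] [0,1,2,3,6,7,8]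 (Pf.cons (Pf.B 9 3 (Pf.B 9 8 (Pf.B 9 7 (Pf.C 11 0x1214388) (Pf.B 9 6 (Pf.C 11 0x1220305) (Pf.B 9 2 (Pf.C 6 0x24402) (Pf.C 0 0xe08486)))) (Pf.B 9 0 (Pf.B 9 6 (Pf.B 9 7 (Pf.C 11 0x1214386) (Pf.B 9 1 (Pf.C 10 0x1214080) (Pf.C 0 0xa1c089))) (Pf.C 15 99461)) (Pf.C 0 0x620009))) (Pf.C 5 393)) Pf.nil))) (Pf.C 0 0x20181)))) (Pf.C 0 0xc08403))) (Pf.C 8 0xc20205))) (Pf.C 4 904)) Pf.nil)) (Pf.cons (Pf.B 8 5 (Pf.C 7 0xa04400) (Pf.C 2 648)) (Pf.cons (Pf.B 3 1 (Pf.C 6 50049) (Pf.C 177 50049)) (Pf.cons (Pf.B 8 7 (Pf.B 8 6 (Pf.B 8 5 (Pf.C 54 0x20085) (Pf.C 8 0xe14406)) (Pf.C 55 0x20086)) (Pf.C 4 904)) (Pf.cons (Pf.B 8 5 (Pf.B 8 3 (Pf.C 57 50181) (Pf.C 178 50176)) (Pf.C 55 0x20005)) (Pf.cons (Pf.B 7 1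 (Pf.C 6 50049) (Pf.W 180 256 [] [1,3,4,5,6,7] (Pf.cons (Pf.W 23 5 [] [0,1,2,3,4,6,7] (Pf.cons (Pf.B 8 7 (Pf.B 8 6 (Pf.B 8 3 (Pf.C 13 0x1014186) (Pf.B 8 2 (Pf.C 12 0x1018105) (Pf.W 27 5 [] [1,2,3,6,7,8] (Pf.cons (Pf.B 9 3 (Pf.B 9 8 (Pf.B 9 7 (Pf.C 11 0x1214388) (Pf.B 9 6 (Pf.B 9 1 (Pf.C 10 0x1214086) (Pf.C 0 0xa1c089)) (Pf.C 13 0x1018485))) (Pf.B 9 2 (Pf.B 9 6 (Pf.C 10 0x1208305) (Pf.B 9 7 (Pf.C 13 0xe18483) (Pf.B 9 1 (Pf.C 10 0x1214082) (Pf.C 0 0xa1c089)))) (Pf.C 0 0x620109))) (Pf.C 5 393)) Pf.nil)))) (Pf.B 8 4 (Pf.B 8 3 (Pf.C 11 0x618404) (Pf.B 8 2 (Pf.B 8 0 (Pf.C 12 0x1010002) (Pf.W 27 5 [] [0,1,2,3,6,7,8] (Pf.cons (Pf.B 9 3 (Pf.B 9 8 (Pf.B 9 7 (Pf.C 11 0x1214388) (Pf.B 9 6 (Pf.C 11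 0x1220305) (Pf.B 9 2 (Pf.C 6 0x24402) (Pf.C 0 0xe08486)))) (Pf.B 9 0 (Pf.B 9 6 (Pf.B 9 7 (Pf.C 11 0x1214386) (Pf.B 9 1 (Pf.C 10 0x1214080) (Pf.C 0 0xa1c089))) (Pf.C 15 99461)) (Pf.C 0 0x620009))) (Pf.C 5 393)) Pf.nil))) (Pf.C 0 0xc08403))) (Pf.C 8 0xc20205))) (Pf.C 4 904)) Pf.nil)) (Pf.cons (Pf.B 8 4 (Pf.C 7 0x800402) (Pf.C 2 520)) (Pf.cons (Pf.W 23 5 [] [0,1,2,3,4,6,7] (Pf.cons (Pf.B 8 7 (Pf.B 8 6 (Pf.B 8 3 (Pf.C 13 0x1014186) (Pf.B 8 2 (Pf.C 12 0x1018105) (Pf.W 27 5 [] [1,2,3,6,7,8] (Pf.cons (Pf.B 9 3 (Pf.B 9 8 (Pf.B 9 7 (Pf.C 11 0x1214388) (Pf.B 9 6 (Pf.B 9 1 (Pf.C 10 0x1214086) (Pf.C 0 0xa1c089)) (Pf.C 13 0x1018485))) (Pf.B 9 2 (Pf.B 9 6 (Pf.C 10 0x1208305) (Pf.B 9 7 (Pf.C 13 0xe18483)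 (Pf.B 9 1 (Pf.C 10 0x1214082) (Pf.C 0 0xa1c089)))) (Pf.C 0 0x620109))) (Pf.C 5 393)) Pf.nil)))) (Pf.B 8 4 (Pf.B 8 3 (Pf.C 11 0x618404) (Pf.B 8 2 (Pf.B 8 0 (Pf.C 12 0x1010002) (Pf.W 27 5 [] [0,1,2,3,6,7,8] (Pf.cons (Pf.B 9 3 (Pf.B 9 8 (Pf.B 9 7 (Pf.C 11 0x1214388) (Pf.B 9 6 (Pf.C 11 0x1220305) (Pf.B 9 2 (Pf.C 6 0x24402) (Pf.C 0 0xe08486)))) (Pf.B 9 0 (Pf.B 9 6 (Pf.B 9 7 (Pf.C 11 0x1214386) (Pf.B 9 1 (Pf.C 10 0x1214080) (Pf.C 0 0xa1c089))) (Pf.C 15 99461)) (Pf.C 0 0x620009))) (Pf.C 5 393)) Pf.nil))) (Pf.C 0 0xc08403))) (Pf.C 8 0xc20205))) (Pf.C 4 904)) Pf.nil)) (Pf.cons (Pf.B 8 6 (Pf.C 7 0xc08400) (Pf.C 2 776)) (Pf.cons (Pf.B 8 5 (Pf.B 8 3 (Pf.C 57 50181) (Pf.C 178 50178)) (Pf.C 55 0x20105))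 (Pf.cons (Pf.B 8 5 (Pf.B 8 3 (Pf.C 57 50181) (Pf.C 178 50176)) (Pf.C 55 0x20005)) (Pf.cons (Pf.B 8 6 (Pf.C 56 0x20106) (Pf.B 8 3 (Pf.B 8 7 (Pf.C 13 0xe18403) (Pf.B 8 5 (Pf.B 8 1 (Pf.C 56 0x20085) (Pf.C 0 0xa1c088)) (Pf.C 0 0x1c405))) (Pf.C 5 392))) (Pf.cons (Pf.B 8 4 (Pf.C 56 0x20004) (Pf.B 8 3 (Pf.B 8 7 (Pf.C 13 0xe10403) (Pf.B 8 5 (Pf.B 8 1 (Pf.C 56 0x20085) (Pf.C 0 0xa1c088)) (Pf.C 0 0x41c405))) (Pf.C 5 392))) Pf.nil)))))))))) (Pf.cons (Pf.B 8 5 (Pf.C 56 0x20085) (Pf.B 8 7 (Pf.B 8 3 (Pf.B 8 6 (Pf.C 9 0x614406) (Pf.C 13 0xe18403)) (Pf.C 5 392)) (Pf.C 0 0xa1c400))) (Pf.cons (Pf.B 8 4 (Pf.C 56 0x20004) (Pf.B 8 3 (Pf.B 8 7 (Pf.C 13 0xe10403) (Pf.B 8 6 (Pf.B 8 5 (Pf.B 8 2 (Pf.C 56 0x20106)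 (Pf.B 7 1 (Pf.B 3 1 (Pf.C 6 50049) (Pf.W 180 257 [] [0,4,5,3,6,7,8] (Pf.cons (Pf.W 23 5 [] [1,2,3,4,6,7,8] (Pf.cons (Pf.B 9 7 (Pf.B 9 8 (Pf.B 9 6 (Pf.B 9 4 (Pf.C 13 0x1220205) (Pf.B 9 3 (Pf.C 11 0x610486) (Pf.B 9 1 (Pf.C 12 0x1214086) (Pf.C 0 0xa0c089)))) (Pf.C 11 0x1018485)) (Pf.B 9 2 (Pf.B 9 6 (Pf.C 12 0x1208305) (Pf.B 9 4 (Pf.B 9 3 (Pf.C 11 0x618484) (Pf.B 9 1 (Pf.C 12 0x1214082) (Pf.C 0 0xa0c089))) (Pf.C 8 0xc24205))) (Pf.C 0 0xe20109))) (Pf.C 4 905)) Pf.nil)) (Pf.cons (Pf.B 9 5 (Pf.C 7 0xa04482) (Pf.C 2 649)) (Pf.cons (Pf.W 23 5 [] [1,2,3,4,6,7,8] (Pf.cons (Pf.B 9 7 (Pf.B 9 8 (Pf.B 9 6 (Pf.B 9 4 (Pf.C 13 0x1220205) (Pf.B 9 3 (Pf.C 11 0x610486) (Pf.B 9 1 (Pf.C 12 0x1214086) (Pf.C 0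 0xa0c089)))) (Pf.C 11 0x1018485)) (Pf.B 9 2 (Pf.B 9 6 (Pf.C 12 0x1208305) (Pf.B 9 4 (Pf.B 9 3 (Pf.C 11 0x618484) (Pf.B 9 1 (Pf.C 12 0x1214082) (Pf.C 0 0xa0c089))) (Pf.C 8 0xc24205))) (Pf.C 0 0xe20109))) (Pf.C 4 905)) Pf.nil)) (Pf.cons (Pf.B 9 6 (Pf.C 7 0xc08481) (Pf.C 2 777)) (Pf.cons (Pf.B 9 8 (Pf.C 177 0x20482) (Pf.C 178 0x20482)) (Pf.cons (Pf.C 177 50049) (Pf.cons (Pf.B 9 8 (Pf.C 177 0x20481) (Pf.C 178 0x20481)) (Pf.cons (Pf.B 9 8 (Pf.B 9 6 (Pf.C 56 0x24106) (Pf.B 9 5 (Pf.B 9 7 (Pf.C 18 0x80e14309) (Pf.B 9 4 (Pf.B 9 0 (Pf.C 56 0x24004) (Pf.W 23 5 [] [0,2,6,7,8,9] (Pf.cons (Pf.B 10 7 (Pf.B 10 9 (Pf.B 10 6 (Pf.C 13 0x1424305) (Pf.B 10 8 (Pf.C 11 0x1018505) (Pf.B 10 2 (Pf.C 6 0x24502)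 (Pf.C 0 0xe2010a)))) (Pf.B 10 0 (Pf.B 10 8 (Pf.C 6 0x20500) (Pf.B 10 6 (Pf.B 10 2 (Pf.C 12 0x1418100) (Pf.C 0 0xe2010a)) (Pf.C 14 99589))) (Pf.C 0 0xe2400a))) (Pf.C 4 906)) Pf.nil))) (Pf.C 9 0x1010485))) (Pf.C 9 0xc24288))) (Pf.C 5 1033)) (Pf.cons (Pf.B 9 8 (Pf.B 9 7 (Pf.C 6 0x24381) (Pf.C 0 0x1008389)) (Pf.C 5 1033)) Pf.nil))))))))))) (Pf.C 0 0x420381))) (Pf.C 9 0x614406)) (Pf.C 9 0x820303))) (Pf.C 5 392))) Pf.nil)))))))))))) (Pf.C 0 0x40c380)))) (Pf.B 7 5 (Pf.B 7 3 (Pf.C 11 0x618384) (Pf.B 7 2 (Pf.B 7 1 (Pf.C 12 0xe14082) (Pf.B 7 0 (Pf.C 12 0xe10002) (Pf.B 3 1 (Pf.W 180 256 [] [1,3,4,5,6,7] (Pf.cons (Pf.W 23 6 [] [0,1,2,3,4,5,7] (Pf.cons (Pf.B 8 7 (Pf.B 8 5 (Pf.B 8 3 (Pf.C 13 0x1014186)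 (Pf.B 8 2 (Pf.C 12 0x1018105) (Pf.B 8 0 (Pf.W 27 5 [] [0,1,2,3,6,7,8] (Pf.cons (Pf.B 9 3 (Pf.B 9 8 (Pf.B 9 6 (Pf.B 9 7 (Pf.C 11 0x1218385) (Pf.B 9 0 (Pf.C 6 0x24400) (Pf.C 0 0x61c009))) (Pf.C 13 0x1018485)) (Pf.B 9 2 (Pf.B 9 7 (Pf.C 6 0x24382) (Pf.B 9 6 (Pf.C 10 0x1208305) (Pf.B 9 1 (Pf.C 10 0x1214082) (Pf.C 0 0xc1c481)))) (Pf.C 0 0x620109))) (Pf.C 5 393)) Pf.nil)) (Pf.C 0 0xe0c008)))) (Pf.B 8 4 (Pf.B 8 2 (Pf.C 12 0x1018104) (Pf.B 8 3 (Pf.B 8 1 (Pf.C 6 50177) (Pf.W 27 5 [] [1,3,6,8] (Pf.cons (Pf.B 9 3 (Pf.B 9 8 (Pf.B 9 6 (Pf.C 11 0x1220286) (Pf.C 13 0x1018483)) (Pf.B 9 1 (Pf.B 9 6 (Pf.C 10 0x1214086) (Pf.C 15 0x218483)) (Pf.C 0 0xa20089))) (Pf.C 5 393)) Pf.nil))) (Pf.C 0 0xa0c402))) (Pf.C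 8 0xa20206))) (Pf.C 4 904)) Pf.nil)) (Pf.cons (Pf.B 8 4 (Pf.C 7 0x800402) (Pf.C 2 520)) (Pf.cons (Pf.W 23 6 [] [0,1,2,3,4,5,7] (Pf.cons (Pf.B 8 7 (Pf.B 8 5 (Pf.B 8 3 (Pf.C 13 0x1014186) (Pf.B 8 2 (Pf.C 12 0x1018105) (Pf.B 8 0 (Pf.W 27 5 [] [0,1,2,3,6,7,8] (Pf.cons (Pf.B 9 3 (Pf.B 9 8 (Pf.B 9 6 (Pf.B 9 7 (Pf.C 11 0x1218385) (Pf.B 9 0 (Pf.C 6 0x24400) (Pf.C 0 0x61c009))) (Pf.C 13 0x1018485)) (Pf.B 9 2 (Pf.B 9 7 (Pf.C 6 0x24382) (Pf.B 9 6 (Pf.C 10 0x1208305) (Pf.B 9 1 (Pf.C 10 0x1214082) (Pf.C 0 0xc1c481)))) (Pf.C 0 0x620109))) (Pf.C 5 393)) Pf.nil)) (Pf.C 0 0xe0c008)))) (Pf.B 8 4 (Pf.B 8 2 (Pf.C 12 0x1018104) (Pf.B 8 3 (Pf.B 8 1 (Pf.C 6 50177) (Pf.W 27 5 [] [1,3,6,8] (Pf.cons (Pf.B 9 3 (Pf.B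 9 8 (Pf.B 9 6 (Pf.C 11 0x1220286) (Pf.C 13 0x1018483)) (Pf.B 9 1 (Pf.B 9 6 (Pf.C 10 0x1214086) (Pf.C 15 0x218483)) (Pf.C 0 0xa20089))) (Pf.C 5 393)) Pf.nil))) (Pf.C 0 0xa0c402))) (Pf.C 8 0xa20206))) (Pf.C 4 904)) Pf.nil)) (Pf.cons (Pf.B 8 6 (Pf.C 7 0xc08400) (Pf.C 2 776)) (Pf.cons (Pf.C 178 50050) (Pf.cons (Pf.B 8 7 (Pf.B 8 6 (Pf.C 54 0x20106) (Pf.B 8 5 (Pf.C 8 0xe18405) (Pf.C 55 0x20105))) (Pf.C 4 904)) (Pf.cons (Pf.B 8 5 (Pf.B 8 3 (Pf.C 57 50181) (Pf.C 178 50176)) (Pf.C 55 0x20005)) (Pf.cons (Pf.B 8 7 (Pf.C 6 0x20382) (Pf.B 8 6 (Pf.C 56 0x20106) (Pf.C 0 0x1c406))) (Pf.cons (Pf.B 8 4 (Pf.C 56 0x20004) (Pf.B 8 3 (Pf.B 8 6 (Pf.B 8 7 (Pf.C 18 0x60e0c208) (Pf.B 8 5 (Pf.B 8 1 (Pf.C 56 0x20085)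 (Pf.W 23 6 [] [0,1,2,3,4,5,7,8] (Pf.cons (Pf.B 9 7 (Pf.B 9 8 (Pf.B 9 5 (Pf.B 9 4 (Pf.C 13 0x1220205) (Pf.B 9 3 (Pf.C 11 0x610486) (Pf.B 9 0 (Pf.C 6 0x20480) (Pf.C 0 0xe0c009)))) (Pf.C 11 0x1014486)) (Pf.B 9 1 (Pf.B 9 5 (Pf.C 12 0x1204286) (Pf.B 9 3 (Pf.C 6 50305) (Pf.B 9 2 (Pf.C 12 0x1218101) (Pf.C 0 0xa0c482)))) (Pf.C 0 0xe20089))) (Pf.C 4 905)) Pf.nil))) (Pf.C 9 0x614406))) (Pf.C 9 0x820303)) (Pf.C 5 392))) Pf.nil)))))))))) (Pf.C 0 0x1c181)))) (Pf.C 0 0xc08383))) (Pf.C 8 0xc1c284))) Pf.nil)) (Pf.C 53 32774)) (Pf.C 53 32902)) (Pf.C 9 0xa0c304)) (Pf.C 2 518)) (Pf.C 2 646)) Pf.nil)))) (Pf.C 53 16389)) (Pf.C 53 16645)) (Pf.C 2 517)) Pf.nil))) (Pf.W 170 1 [] [0,2,3,4] (Pf.cons (Pf.B 5 4 (Pf.B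 5 2 (Pf.B 5 0 (Pf.B 5 3 (Pf.B 3 2 (Pf.C 15 0x410185) (Pf.B 3 1 (Pf.C 56 49285) (Pf.W 170 2 [] [0,1,3,4,5] (Pf.cons (Pf.B 6 5 (Pf.B 6 4 (Pf.B 6 3 (Pf.B 6 1 (Pf.B 6 0 (Pf.W 23 4 [] [0,1,2,3,5,6] (Pf.cons (Pf.B 7 6 (Pf.B 7 3 (Pf.C 13 0xe10186) (Pf.B 7 2 (Pf.C 12 0xe18104) (Pf.B 7 1 (Pf.B 7 5 (Pf.C 12 0xe04284) (Pf.B 7 0 (Pf.C 12 0xe10001) (Pf.B 3 0 (Pf.W 180 257 [] [0,3,4,5,6,7] (Pf.cons (Pf.W 23 5 [] [0,1,2,3,4,6,7] (Pf.cons (Pf.B 8 7 (Pf.B 8 6 (Pf.B 8 2 (Pf.C 12 0x1018105) (Pf.B 8 3 (Pf.B 8 4 (Pf.C 13 0x100c205) (Pf.B 8 0 (Pf.C 6 50176) (Pf.W 27 4 [] [0,3,6,8] (Pf.cons (Pf.B 9 3 (Pf.B 9 8 (Pf.B 9 6 (Pf.C 11 0x1220206) (Pf.C 13 0x1018483)) (Pf.B 9 0 (Pf.B 9 6 (Pf.C 10 0x1210006) (Pf.C 15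 99459)) (Pf.C 0 0x820009))) (Pf.C 5 393)) Pf.nil)))) (Pf.C 0 0xe08188))) (Pf.B 8 4 (Pf.B 8 3 (Pf.C 11 0x618405) (Pf.B 8 2 (Pf.B 8 1 (Pf.C 12 0x1014082) (Pf.W 27 4 [] [1,2,3,6,7,8] (Pf.cons (Pf.B 9 3 (Pf.B 9 8 (Pf.B 9 6 (Pf.C 11 0x1220304) (Pf.B 9 7 (Pf.C 13 0xe18484) (Pf.B 9 2 (Pf.C 6 0x24402) (Pf.C 0 0x61c109)))) (Pf.B 9 1 (Pf.B 9 7 (Pf.C 6 0x24381) (Pf.B 9 6 (Pf.B 9 2 (Pf.C 10 0x1218101) (Pf.C 0 0x61c109)) (Pf.C 15 0x218484))) (Pf.C 0 0x620089))) (Pf.C 5 393)) Pf.nil))) (Pf.C 0 0xe0c108))) (Pf.C 8 0xc20205))) (Pf.C 4 904)) Pf.nil)) (Pf.cons (Pf.B 8 5 (Pf.C 7 0xa04402) (Pf.C 2 648)) (Pf.cons (Pf.W 23 5 [] [0,1,2,3,4,6,7] (Pf.cons (Pf.B 8 7 (Pf.B 8 6 (Pf.B 8 2 (Pf.C 12 0x1018105) (Pf.B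 8 3 (Pf.B 8 4 (Pf.C 13 0x100c205) (Pf.B 8 0 (Pf.C 6 50176) (Pf.W 27 4 [] [0,3,6,8] (Pf.cons (Pf.B 9 3 (Pf.B 9 8 (Pf.B 9 6 (Pf.C 11 0x1220206) (Pf.C 13 0x1018483)) (Pf.B 9 0 (Pf.B 9 6 (Pf.C 10 0x1210006) (Pf.C 15 99459)) (Pf.C 0 0x820009))) (Pf.C 5 393)) Pf.nil)))) (Pf.C 0 0xe08188))) (Pf.B 8 4 (Pf.B 8 3 (Pf.C 11 0x618405) (Pf.B 8 2 (Pf.B 8 1 (Pf.C 12 0x1014082) (Pf.W 27 4 [] [1,2,3,6,7,8] (Pf.cons (Pf.B 9 3 (Pf.B 9 8 (Pf.B 9 6 (Pf.C 11 0x1220304) (Pf.B 9 7 (Pf.C 13 0xe18484) (Pf.B 9 2 (Pf.C 6 0x24402) (Pf.C 0 0x61c109)))) (Pf.B 9 1 (Pf.B 9 7 (Pf.C 6 0x24381) (Pf.B 9 6 (Pf.B 9 2 (Pf.C 10 0x1218101) (Pf.C 0 0x61c109)) (Pf.C 15 0x218484))) (Pf.C 0 0x620089))) (Pf.C 5 393)) Pf.nil))) (Pf.C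 0 0xe0c108))) (Pf.C 8 0xc20205))) (Pf.C 4 904)) Pf.nil)) (Pf.cons (Pf.B 8 6 (Pf.C 7 0xc08401) (Pf.C 2 776)) (Pf.cons (Pf.B 8 4 (Pf.B 8 3 (Pf.C 57 50180) (Pf.C 178 50178)) (Pf.C 55 0x20104)) (Pf.cons (Pf.C 178 50049) (Pf.cons (Pf.B 8 7 (Pf.B 8 6 (Pf.B 8 5 (Pf.C 54 0x20085) (Pf.C 8 0xe14406)) (Pf.C 55 0x20086)) (Pf.C 4 904)) (Pf.cons (Pf.B 8 6 (Pf.C 56 0x20106) (Pf.B 8 3 (Pf.B 8 5 (Pf.B 8 7 (Pf.C 18 0x50e0c308) (Pf.B 8 4 (Pf.B 8 0 (Pf.C 56 0x20004) (Pf.W 23 5 [] [0,2,3,6,7,8] (Pf.cons (Pf.B 9 7 (Pf.B 9 8 (Pf.B 9 6 (Pf.C 13 0x1220305) (Pf.B 9 3 (Pf.C 11 0x618485) (Pf.B 9 2 (Pf.C 6 0x20482) (Pf.C 0 0xe0c109)))) (Pf.B 9 0 (Pf.B 9 6 (Pf.B 9 3 (Pf.C 6 50304) (Pf.B 9 2 (Pf.C 12 0x1218100) (Pf.C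 0 0xe0c109))) (Pf.C 14 99461)) (Pf.C 0 0xe20009))) (Pf.C 4 905)) Pf.nil))) (Pf.C 9 0x610405))) (Pf.C 9 0xc20283)) (Pf.C 5 392))) (Pf.cons (Pf.B 8 7 (Pf.C 6 0x20381) (Pf.B 8 5 (Pf.C 56 0x20085) (Pf.C 0 0x41c405))) Pf.nil)))))))))) (Pf.C 0 0x41c180)))) (Pf.C 0 0x40c381)))) (Pf.B 7 5 (Pf.B 7 3 (Pf.C 11 0x618385) (Pf.B 7 2 (Pf.B 7 1 (Pf.C 12 0xe14082) (Pf.B 7 0 (Pf.C 12 0xe10002) (Pf.B 3 0 (Pf.W 180 257 [] [0,3,4,5,6,7] (Pf.cons (Pf.W 23 6 [] [0,1,2,3,4,5,7] (Pf.cons (Pf.B 8 7 (Pf.B 8 5 (Pf.B 8 1 (Pf.C 12 0x1014086) (Pf.B 8 3 (Pf.B 8 4 (Pf.C 13 0x100c205) (Pf.B 8 0 (Pf.C 6 50176) (Pf.W 27 4 [] [0,3,6,8] (Pf.cons (Pf.B 9 3 (Pf.B 9 8 (Pf.B 9 6 (Pf.C 11 0x1220206) (Pf.C 13 0x1018483)) (Pf.B 9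 0 (Pf.B 9 6 (Pf.C 10 0x1210006) (Pf.C 15 99459)) (Pf.C 0 0x820009))) (Pf.C 5 393)) Pf.nil)))) (Pf.C 0 0xe04188))) (Pf.B 8 4 (Pf.B 8 3 (Pf.C 11 0x614406) (Pf.B 8 2 (Pf.C 12 0x1018104) (Pf.B 8 1 (Pf.W 27 4 [] [1,2,3,5,6,7,8] (Pf.cons (Pf.B 9 3 (Pf.B 9 8 (Pf.B 9 6 (Pf.B 9 7 (Pf.C 11 0x1218384) (Pf.B 9 1 (Pf.C 6 0x24401) (Pf.C 0 0x61c089))) (Pf.C 13 0x1018484)) (Pf.B 9 2 (Pf.B 9 7 (Pf.C 6 0x24382) (Pf.B 9 6 (Pf.C 10 0x1208304) (Pf.B 9 5 (Pf.B 9 1 (Pf.C 10 0x1214082) (Pf.C 0 0x61c089)) (Pf.C 9 0xc24283)))) (Pf.C 0 0x620109))) (Pf.C 5 393)) Pf.nil)) (Pf.C 0 0xe0c088)))) (Pf.C 8 0xa20206))) (Pf.C 4 904)) Pf.nil)) (Pf.cons (Pf.B 8 5 (Pf.C 7 0xa04402) (Pf.C 2 648)) (Pf.cons (Pf.W 23 6 [] [0,1,2,3,4,5,7]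 (Pf.cons (Pf.B 8 7 (Pf.B 8 5 (Pf.B 8 1 (Pf.C 12 0x1014086) (Pf.B 8 3 (Pf.B 8 4 (Pf.C 13 0x100c205) (Pf.B 8 0 (Pf.C 6 50176) (Pf.W 27 4 [] [0,3,6,8] (Pf.cons (Pf.B 9 3 (Pf.B 9 8 (Pf.B 9 6 (Pf.C 11 0x1220206) (Pf.C 13 0x1018483)) (Pf.B 9 0 (Pf.B 9 6 (Pf.C 10 0x1210006) (Pf.C 15 99459)) (Pf.C 0 0x820009))) (Pf.C 5 393)) Pf.nil)))) (Pf.C 0 0xe04188))) (Pf.B 8 4 (Pf.B 8 3 (Pf.C 11 0x614406) (Pf.B 8 2 (Pf.C 12 0x1018104) (Pf.B 8 1 (Pf.W 27 4 [] [1,2,3,5,6,7,8] (Pf.cons (Pf.B 9 3 (Pf.B 9 8 (Pf.B 9 6 (Pf.B 9 7 (Pf.C 11 0x1218384) (Pf.B 9 1 (Pf.C 6 0x24401) (Pf.C 0 0x61c089))) (Pf.C 13 0x1018484)) (Pf.B 9 2 (Pf.B 9 7 (Pf.C 6 0x24382) (Pf.B 9 6 (Pf.C 10 0x1208304) (Pf.B 9 5 (Pf.B 9 1 (Pf.C 10 0x1214082)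 (Pf.C 0 0x61c089)) (Pf.C 9 0xc24283)))) (Pf.C 0 0x620109))) (Pf.C 5 393)) Pf.nil)) (Pf.C 0 0xe0c088)))) (Pf.C 8 0xa20206))) (Pf.C 4 904)) Pf.nil)) (Pf.cons (Pf.B 8 6 (Pf.C 7 0xc08401) (Pf.C 2 776)) (Pf.cons (Pf.C 178 50050) (Pf.cons (Pf.B 8 7 (Pf.B 8 6 (Pf.C 54 0x20106) (Pf.B 8 5 (Pf.C 8 0xe18405) (Pf.C 55 0x20105))) (Pf.C 4 904)) (Pf.cons (Pf.B 8 4 (Pf.B 8 3 (Pf.C 57 50180) (Pf.C 178 50177)) (Pf.C 55 0x20084)) (Pf.cons (Pf.B 8 7 (Pf.C 6 0x20382) (Pf.B 8 6 (Pf.C 56 0x20106) (Pf.C 0 0x21c406))) (Pf.cons (Pf.B 8 5 (Pf.C 56 0x20085) (Pf.B 8 3 (Pf.B 8 6 (Pf.B 8 7 (Pf.C 18 0x60e0c288) (Pf.B 8 4 (Pf.B 8 0 (Pf.C 56 0x20004) (Pf.W 23 6 [] [0,1,2,3,4,5,7,8] (Pf.cons (Pf.B 9 7 (Pf.B 9 8 (Pf.B 9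 5 (Pf.C 13 0x1220286) (Pf.B 9 3 (Pf.C 11 0x614486) (Pf.B 9 1 (Pf.C 6 0x20481) (Pf.C 0 0xe0c089)))) (Pf.B 9 0 (Pf.B 9 5 (Pf.B 9 4 (Pf.C 12 0x1200205) (Pf.B 9 3 (Pf.C 6 50304) (Pf.B 9 2 (Pf.C 12 0x1218100) (Pf.C 0 0x80c482)))) (Pf.C 14 83078)) (Pf.C 0 0xe20009))) (Pf.C 4 905)) Pf.nil))) (Pf.C 9 0x610406))) (Pf.C 9 0xa20303)) (Pf.C 5 392))) Pf.nil)))))))))) (Pf.C 0 0x21c180)))) (Pf.C 0 0xc08383))) (Pf.C 8 0xc1c284))) Pf.nil)) (Pf.C 53 32774)) (Pf.C 53 32902)) (Pf.C 9 0x80c305)) (Pf.C 2 518)) (Pf.C 2 646)) Pf.nil)))) (Pf.W 170 2 [] [3,4,5] (Pf.cons (Pf.B 6 5 (Pf.B 6 4 (Pf.B 6 3 (Pf.C 9 0xa0c206) (Pf.W 27 4 [] [3,5,6] (Pf.cons (Pf.B 7 3 (Pf.B 7 6 (Pf.C 9 0x80c307) (Pf.B 7 5 (Pf.C 9 0x80c287)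 (Pf.C 9 0xc1c284))) (Pf.C 5 391)) Pf.nil))) (Pf.C 2 518)) (Pf.C 2 646)) Pf.nil))) (Pf.C 53 16389)) (Pf.C 53 16645)) (Pf.C 2 517)) Pf.nil))) (Pf.C 53 132)) (Pf.C 53 260)) Pf.nil)))
 Pq.nil)
theorem e3_o55 : AllRef e3_T e3_G82 (List.drop 3 (List.map pat1 [123,124,125,120])) :=
  chkPq_sound e3_o55c _ (by decide +kernel)
noncomputable def e3_o56c : Pq := (Pq.cons (Pq.L [0,1,2] 0 (Pf.W 170 0 [] [1,2,3] (Pf.cons (Pf.B 4 2 (Pf.B 4 1 (Pf.B 4 3 (Pf.W 170 1 [] [0,2,3,4] (Pf.cons (Pf.B 5 4 (Pf.B 5 2 (Pf.B 5 0 (Pf.B 5 3 (Pf.W 170 2 [] [0,1,3,4,5] (Pf.cons (Pf.B 6 5 (Pf.B 6 4 (Pf.B 6 1 (Pf.B 6 0 (Pf.B 6 3 (Pf.W 172 3 [] [0,1,2,4,5,6] (Pf.cons (Pf.B 7 6 (Pf.B 7 5 (Pf.B 7 4 (Pf.B 7 2 (Pf.B 7 1 (Pf.B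 7 0 (Pf.W 23 7 [] [0,1,2,3,4,5,6] (Pf.cons (Pf.B 8 3 (Pf.B 8 6 (Pf.B 8 2 (Pf.C 12 0x1018107) (Pf.B 8 5 (Pf.B 8 1 (Pf.C 12 0x1014086) (Pf.B 8 4 (Pf.W 27 4 [] [1,2,3,5,6,7,8] (Pf.cons (Pf.B 9 8 (Pf.B 9 7 (Pf.B 9 6 (Pf.B 9 5 (Pf.B 9 3 (Pf.C 11 0x121c184) (Pf.B 9 2 (Pf.C 10 0x1218104) (Pf.B 9 1 (Pf.C 10 0x1214084) (Pf.C 0 0x40c481)))) (Pf.C 13 0x1014484)) (Pf.C 13 0x1018484)) (Pf.C 13 0x101c484)) (Pf.B 9 7 (Pf.B 9 3 (Pf.C 11 0x121c184) (Pf.B 9 2 (Pf.B 9 6 (Pf.C 10 0x1208304) (Pf.B 9 5 (Pf.B 9 1 (Pf.C 10 0x1214082) (Pf.C 0 0x1004483)) (Pf.C 9 0xc24284))) (Pf.C 0 0x1008483))) (Pf.B 9 6 (Pf.B 9 5 (Pf.B 9 2 (Pf.C 10 0x1218104) (Pf.B 9 1 (Pf.C 10 0x1214084) (Pf.C 0 0x420481))) (Pf.C 9 0xe24284))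 (Pf.C 9 0xe24304)))) Pf.nil)) (Pf.W 180 128 [] [4,2,3,5,6,7,8] (Pf.cons (Pf.W 27 4 [] [1,2,3,5,6,7,8] (Pf.cons (Pf.B 9 8 (Pf.B 9 7 (Pf.C 11 0x1220207) (Pf.B 9 6 (Pf.C 11 0x1220206) (Pf.C 9 0xe24304))) (Pf.B 9 7 (Pf.B 9 3 (Pf.C 11 0x121c184) (Pf.B 9 2 (Pf.B 9 6 (Pf.C 10 0x1208304) (Pf.B 9 5 (Pf.B 9 1 (Pf.C 10 0x1214082) (Pf.C 0 0x1004483)) (Pf.C 9 0xc24284))) (Pf.C 0 0x1008483))) (Pf.B 9 6 (Pf.B 9 5 (Pf.B 9 2 (Pf.C 10 0x1218104) (Pf.B 9 1 (Pf.C 10 0x1214084) (Pf.C 0 0x420481))) (Pf.C 9 0xe24284)) (Pf.C 9 0xe24304)))) Pf.nil)) (Pf.cons (Pf.B 9 4 (Pf.C 7 0x800481) (Pf.C 2 521)) (Pf.cons (Pf.W 180 256 [] [4,1,3,5,6,7,8] (Pf.cons (Pf.W 27 4 [] [1,2,3,5,6,7,8] (Pf.cons (Pf.B 9 8 (Pf.B 9 7 (Pf.C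 11 0x1220207) (Pf.B 9 6 (Pf.C 11 0x1220206) (Pf.C 9 0xe24304))) (Pf.B 9 7 (Pf.B 9 3 (Pf.C 11 0x121c184) (Pf.B 9 2 (Pf.B 9 6 (Pf.C 10 0x1208304) (Pf.B 9 5 (Pf.B 9 1 (Pf.C 10 0x1214082) (Pf.C 0 0x1004483)) (Pf.C 9 0xc24284))) (Pf.C 0 0x1008483))) (Pf.B 9 6 (Pf.B 9 5 (Pf.B 9 2 (Pf.C 10 0x1218104) (Pf.B 9 1 (Pf.C 10 0x1214084) (Pf.C 0 0x420481))) (Pf.C 9 0xe24284)) (Pf.C 9 0xe24304)))) Pf.nil)) (Pf.cons (Pf.B 9 4 (Pf.C 7 0x800482) (Pf.C 2 521)) (Pf.cons (Pf.W 27 4 [] [1,2,3,5,6,7,8] (Pf.cons (Pf.B 9 8 (Pf.B 9 7 (Pf.C 11 0x1220207) (Pf.B 9 6 (Pf.C 11 0x1220206) (Pf.C 9 0xe24304))) (Pf.B 9 7 (Pf.B 9 3 (Pf.C 11 0x121c184) (Pf.B 9 2 (Pf.B 9 6 (Pf.C 10 0x1208304) (Pf.B 9 5 (Pf.B 9 1 (Pf.C 10 0x1214082)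 (Pf.C 0 0x1004483)) (Pf.C 9 0xc24284))) (Pf.C 0 0x1008483))) (Pf.B 9 6 (Pf.B 9 5 (Pf.B 9 2 (Pf.C 10 0x1218104) (Pf.B 9 1 (Pf.C 10 0x1214084) (Pf.C 0 0x420481))) (Pf.C 9 0xe24284)) (Pf.C 9 0xe24304)))) Pf.nil)) (Pf.cons (Pf.B 9 6 (Pf.C 7 0xc08480) (Pf.C 2 777)) (Pf.cons (Pf.T 9 36 Pf.nil) (Pf.cons (Pf.T 8 36 Pf.nil) (Pf.cons (Pf.B 9 8 (Pf.B 9 5 (Pf.B 9 4 (Pf.C 54 0x24004) (Pf.C 8 0x1010485)) (Pf.C 55 0x24005)) (Pf.C 4 1033)) Pf.nil)))))))) (Pf.cons (Pf.B 9 5 (Pf.C 7 0xa04480) (Pf.C 2 649)) (Pf.cons (Pf.T 9 36 Pf.nil) (Pf.cons (Pf.T 8 36 Pf.nil) (Pf.cons (Pf.B 9 8 (Pf.B 9 5 (Pf.B 9 4 (Pf.C 54 0x24004) (Pf.C 8 0x1010485)) (Pf.C 55 0x24005)) (Pf.C 4 1033)) Pf.nil)))))))))) (Pf.B 8 4 (Pf.B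 8 0 (Pf.C 12 0x1010006) (Pf.W 180 128 [] [4,2,3,5,6,7,8] (Pf.cons (Pf.W 180 257 [] [5,0,3,4,6,7,8] (Pf.cons (Pf.W 27 4 [] [0,1,2,3,5,6,7,8] (Pf.cons (Pf.B 9 8 (Pf.B 9 7 (Pf.B 9 6 (Pf.B 9 3 (Pf.C 11 0x121c184) (Pf.B 9 2 (Pf.C 10 0x1218104) (Pf.B 9 1 (Pf.B 9 0 (Pf.C 10 0x1210001) (Pf.C 0 0x40c480)) (Pf.C 0 0x40c481)))) (Pf.C 13 0x1018484)) (Pf.C 13 0x101c484)) (Pf.B 9 7 (Pf.B 9 3 (Pf.C 11 0x121c184) (Pf.B 9 2 (Pf.B 9 6 (Pf.C 10 0x1208304) (Pf.B 9 5 (Pf.B 9 1 (Pf.C 10 0x1214082) (Pf.B 9 0 (Pf.C 10 0x1210002) (Pf.C 0 0x20c480))) (Pf.C 9 0xc24284))) (Pf.C 0 0x1008483))) (Pf.B 9 6 (Pf.B 9 5 (Pf.B 9 2 (Pf.C 10 0x1218104) (Pf.B 9 0 (Pf.C 10 0x1210005) (Pf.C 0 0x420480))) (Pf.C 9 0xe24284)) (Pf.C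 9 0xe24304)))) Pf.nil)) (Pf.cons (Pf.B 9 5 (Pf.C 7 0xa04482) (Pf.C 2 649)) (Pf.cons (Pf.W 27 4 [] [0,1,2,3,5,6,7,8] (Pf.cons (Pf.B 9 8 (Pf.B 9 7 (Pf.B 9 6 (Pf.B 9 3 (Pf.C 11 0x121c184) (Pf.B 9 2 (Pf.C 10 0x1218104) (Pf.B 9 1 (Pf.B 9 0 (Pf.C 10 0x1210001) (Pf.C 0 0x40c480)) (Pf.C 0 0x40c481)))) (Pf.C 13 0x1018484)) (Pf.C 13 0x101c484)) (Pf.B 9 7 (Pf.B 9 3 (Pf.C 11 0x121c184) (Pf.B 9 2 (Pf.B 9 6 (Pf.C 10 0x1208304) (Pf.B 9 5 (Pf.B 9 1 (Pf.C 10 0x1214082) (Pf.B 9 0 (Pf.C 10 0x1210002) (Pf.C 0 0x20c480))) (Pf.C 9 0xc24284))) (Pf.C 0 0x1008483))) (Pf.B 9 6 (Pf.B 9 5 (Pf.B 9 2 (Pf.C 10 0x1218104) (Pf.B 9 0 (Pf.C 10 0x1210005) (Pf.C 0 0x420480))) (Pf.C 9 0xe24284)) (Pf.C 9 0xe24304)))) Pf.nil))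 (Pf.cons (Pf.B 9 6 (Pf.C 7 0xc08481) (Pf.C 2 777)) (Pf.cons (Pf.T 9 36 Pf.nil) (Pf.cons (Pf.T 8 36 Pf.nil) (Pf.cons (Pf.B 9 8 (Pf.B 9 6 (Pf.B 9 5 (Pf.C 54 0x24085) (Pf.C 8 0x1014486)) (Pf.C 55 0x24086)) (Pf.C 4 1033)) Pf.nil)))))))) (Pf.cons (Pf.B 9 4 (Pf.C 7 0x800481) (Pf.C 2 521)) (Pf.cons (Pf.W 27 4 [] [0,1,2,3,5,6,7,8] (Pf.cons (Pf.B 9 8 (Pf.B 9 7 (Pf.B 9 6 (Pf.B 9 3 (Pf.C 11 0x121c184) (Pf.B 9 2 (Pf.C 10 0x1218104) (Pf.B 9 1 (Pf.B 9 0 (Pf.C 10 0x1210001) (Pf.C 0 0x40c480)) (Pf.C 0 0x40c481)))) (Pf.C 13 0x1018484)) (Pf.C 13 0x101c484)) (Pf.B 9 7 (Pf.B 9 3 (Pf.C 11 0x121c184) (Pf.B 9 2 (Pf.B 9 6 (Pf.C 10 0x1208304) (Pf.B 9 5 (Pf.B 9 1 (Pf.C 10 0x1214082) (Pf.B 9 0 (Pf.C 10 0x1210002)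 (Pf.C 0 0x20c480))) (Pf.C 9 0xc24284))) (Pf.C 0 0x1008483))) (Pf.B 9 6 (Pf.B 9 5 (Pf.B 9 2 (Pf.C 10 0x1218104) (Pf.B 9 0 (Pf.C 10 0x1210005) (Pf.C 0 0x420480))) (Pf.C 9 0xe24284)) (Pf.C 9 0xe24304)))) Pf.nil)) (Pf.cons (Pf.B 9 5 (Pf.C 7 0xa04480) (Pf.C 2 649)) (Pf.cons (Pf.T 8 36 Pf.nil) (Pf.cons (Pf.B 9 8 (Pf.B 9 6 (Pf.B 9 5 (Pf.C 54 0x24085) (Pf.C 8 0x1014486)) (Pf.C 55 0x24086)) (Pf.C 4 1033)) (Pf.cons (Pf.T 9 36 Pf.nil) Pf.nil))))))))) (Pf.C 8 0xa20203)))) (Pf.B 8 5 (Pf.B 8 4 (Pf.B 8 1 (Pf.C 12 0x1014084) (Pf.B 8 0 (Pf.C 12 0x1010005) (Pf.W 180 256 [] [4,1,3,5,6,7,8] (Pf.cons (Pf.W 180 257 [] [5,0,3,4,6,7,8] (Pf.cons (Pf.W 27 4 [] [0,1,2,3,5,6,7,8] (Pf.cons (Pf.B 9 8 (Pf.B 9 7 (Pf.B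 9 6 (Pf.C 11 0x1220304) (Pf.B 9 5 (Pf.B 9 3 (Pf.C 11 0x121c184) (Pf.B 9 2 (Pf.B 9 1 (Pf.C 10 0x1214082) (Pf.B 9 0 (Pf.C 10 0x1210002) (Pf.C 0 0x20c480))) (Pf.C 0 0xc08483))) (Pf.C 9 0xc24284))) (Pf.C 13 0x101c484)) (Pf.B 9 7 (Pf.B 9 3 (Pf.C 11 0x121c184) (Pf.B 9 1 (Pf.B 9 6 (Pf.B 9 2 (Pf.C 10 0x1218101) (Pf.B 9 0 (Pf.C 10 0x1210001) (Pf.C 0 0x40c480))) (Pf.C 15 0x218484)) (Pf.C 0 0x1004483))) (Pf.B 9 5 (Pf.B 9 1 (Pf.C 10 0x1214084) (Pf.B 9 0 (Pf.C 10 0x1210005) (Pf.C 0 0x220480))) (Pf.C 9 0xe24284)))) Pf.nil)) (Pf.cons (Pf.B 9 5 (Pf.C 7 0xa04482) (Pf.C 2 649)) (Pf.cons (Pf.W 27 4 [] [0,1,2,3,5,6,7,8] (Pf.cons (Pf.B 9 8 (Pf.B 9 7 (Pf.B 9 6 (Pf.C 11 0x1220304) (Pf.B 9 5 (Pf.B 9 3 (Pf.C 11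 0x121c184) (Pf.B 9 2 (Pf.B 9 1 (Pf.C 10 0x1214082) (Pf.B 9 0 (Pf.C 10 0x1210002) (Pf.C 0 0x20c480))) (Pf.C 0 0xc08483))) (Pf.C 9 0xc24284))) (Pf.C 13 0x101c484)) (Pf.B 9 7 (Pf.B 9 3 (Pf.C 11 0x121c184) (Pf.B 9 1 (Pf.B 9 6 (Pf.B 9 2 (Pf.C 10 0x1218101) (Pf.B 9 0 (Pf.C 10 0x1210001) (Pf.C 0 0x40c480))) (Pf.C 15 0x218484)) (Pf.C 0 0x1004483))) (Pf.B 9 5 (Pf.B 9 1 (Pf.C 10 0x1214084) (Pf.B 9 0 (Pf.C 10 0x1210005) (Pf.C 0 0x220480))) (Pf.C 9 0xe24284)))) Pf.nil)) (Pf.cons (Pf.B 9 6 (Pf.C 7 0xc08481) (Pf.C 2 777)) (Pf.cons (Pf.T 8 36 Pf.nil) (Pf.cons (Pf.B 9 8 (Pf.B 9 7 (Pf.B 9 6 (Pf.C 54 0x24106) (Pf.C 8 0x1018487)) (Pf.C 55 0x24107)) (Pf.C 4 1033)) (Pf.cons (Pf.T 9 36 Pf.nil) Pf.nil))))))))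 (Pf.cons (Pf.B 9 4 (Pf.C 7 0x800482) (Pf.C 2 521)) (Pf.cons (Pf.W 27 4 [] [0,1,2,3,5,6,7,8] (Pf.cons (Pf.B 9 8 (Pf.B 9 7 (Pf.B 9 6 (Pf.C 11 0x1220304) (Pf.B 9 5 (Pf.B 9 3 (Pf.C 11 0x121c184) (Pf.B 9 2 (Pf.B 9 1 (Pf.C 10 0x1214082) (Pf.B 9 0 (Pf.C 10 0x1210002) (Pf.C 0 0x20c480))) (Pf.C 0 0xc08483))) (Pf.C 9 0xc24284))) (Pf.C 13 0x101c484)) (Pf.B 9 7 (Pf.B 9 3 (Pf.C 11 0x121c184) (Pf.B 9 1 (Pf.B 9 6 (Pf.B 9 2 (Pf.C 10 0x1218101) (Pf.B 9 0 (Pf.C 10 0x1210001) (Pf.C 0 0x40c480))) (Pf.C 15 0x218484)) (Pf.C 0 0x1004483))) (Pf.B 9 5 (Pf.B 9 1 (Pf.C 10 0x1214084) (Pf.B 9 0 (Pf.C 10 0x1210005) (Pf.C 0 0x220480))) (Pf.C 9 0xe24284)))) Pf.nil)) (Pf.cons (Pf.B 9 6 (Pf.C 7 0xc08480) (Pf.C 2 777))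 (Pf.cons (Pf.T 8 36 Pf.nil) (Pf.cons (Pf.B 9 8 (Pf.B 9 7 (Pf.B 9 6 (Pf.C 54 0x24106) (Pf.C 8 0x1018487)) (Pf.C 55 0x24107)) (Pf.C 4 1033)) (Pf.cons (Pf.T 9 36 Pf.nil) Pf.nil)))))))))) (Pf.C 8 0xc20203)) (Pf.C 8 0xc20283))) (Pf.C 4 392)) Pf.nil)) (Pf.C 7 0x800381)) (Pf.C 7 0xa04382)) (Pf.C 7 0xc08384)) (Pf.C 2 519)) (Pf.C 2 647)) (Pf.C 2 775)) Pf.nil)) (Pf.W 180 256 [] [3,4,1,5,6] (Pf.cons (Pf.W 180 257 [] [3,4,5,0,6] (Pf.cons (Pf.W 23 6 [] [0,1,2,3,4,5] (Pf.cons (Pf.B 7 3 (Pf.B 7 5 (Pf.B 7 2 (Pf.C 12 0xe18105) (Pf.B 7 1 (Pf.C 12 0xe14086) (Pf.B 7 4 (Pf.B 7 0 (Pf.C 12 0xe10005) (Pf.W 27 4 [] [0,1,2,3,5,6,7] (Pf.cons (Pf.B 8 7 (Pf.B 8 6 (Pf.B 8 3 (Pf.C 11 0x1018184) (Pf.B 8 2 (Pf.C 10 0x1018104)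 (Pf.C 0 0xc0c108))) (Pf.C 13 0xe18404)) (Pf.B 8 6 (Pf.B 8 3 (Pf.C 11 0x1018184) (Pf.B 8 2 (Pf.C 10 0x1018104) (Pf.C 0 0xc0c108))) (Pf.B 8 5 (Pf.B 8 2 (Pf.B 8 1 (Pf.C 10 0x1014082) (Pf.B 8 0 (Pf.C 10 0x1010002) (Pf.C 0 0x21c400))) (Pf.C 0 0xe08406)) (Pf.C 9 0xc20284)))) Pf.nil))) (Pf.W 27 4 [] [1,2,3,5,6,7] (Pf.cons (Pf.B 8 7 (Pf.B 8 6 (Pf.C 11 0x101c206) (Pf.B 8 5 (Pf.C 11 0x101c205) (Pf.C 9 0xc20284))) (Pf.B 8 6 (Pf.B 8 3 (Pf.C 11 0x1018184) (Pf.B 8 2 (Pf.C 10 0x1018104) (Pf.C 0 0xc0c108))) (Pf.B 8 5 (Pf.B 8 2 (Pf.B 8 1 (Pf.C 10 0x1014082) (Pf.W 27 6 [] [1,2,3,4,5,7,8] (Pf.cons (Pf.B 9 8 (Pf.B 9 7 (Pf.B 9 5 (Pf.B 9 3 (Pf.C 11 0x1218185) (Pf.B 9 2 (Pf.C 10 0x1218105) (Pf.C 0 0xc0c109)))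 (Pf.C 13 0xe14486)) (Pf.B 9 1 (Pf.B 9 5 (Pf.C 10 0x1204286) (Pf.B 9 4 (Pf.B 9 3 (Pf.C 11 0x1218184) (Pf.B 9 2 (Pf.C 10 0x1218101) (Pf.C 0 0xc0c109))) (Pf.C 9 0xa24206))) (Pf.C 0 0x101c089))) (Pf.C 5 1033)) Pf.nil))) (Pf.C 0 0xe08406)) (Pf.C 9 0xc20284)))) Pf.nil))))) (Pf.B 7 4 (Pf.B 7 2 (Pf.C 12 0xe18104) (Pf.B 7 0 (Pf.C 12 0xe10006) (Pf.W 27 4 [] [0,2,3,5,6,7] (Pf.cons (Pf.B 8 7 (Pf.B 8 6 (Pf.B 8 3 (Pf.C 11 0x1018184) (Pf.B 8 2 (Pf.C 10 0x1018104) (Pf.C 0 0xc0c108))) (Pf.C 13 0xe18404)) (Pf.B 8 6 (Pf.B 8 3 (Pf.C 11 0x1018184) (Pf.B 8 2 (Pf.C 10 0x1018104) (Pf.C 0 0xc0c108))) (Pf.B 8 2 (Pf.B 8 0 (Pf.C 10 0x1010002) (Pf.W 27 6 [] [0,2,3,4,5,7,8] (Pf.cons (Pf.B 9 8 (Pf.B 9 7 (Pf.B 9 5 (Pf.C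 11 0x121c286) (Pf.B 9 4 (Pf.B 9 3 (Pf.C 11 0x1218184) (Pf.B 9 2 (Pf.C 10 0x1218104) (Pf.C 0 0xc0c109))) (Pf.C 9 0xa24206))) (Pf.B 9 0 (Pf.B 9 5 (Pf.B 9 3 (Pf.C 11 0x1218185) (Pf.B 9 2 (Pf.C 10 0x1218100) (Pf.C 0 0xc0c109))) (Pf.C 15 83078)) (Pf.C 0 0x101c009))) (Pf.C 5 1033)) Pf.nil))) (Pf.C 0 0xe08406)))) Pf.nil)))) (Pf.C 8 0xa1c203))) (Pf.C 4 391)) Pf.nil)) (Pf.cons (Pf.B 7 5 (Pf.C 7 0xa04382) (Pf.C 2 647)) (Pf.cons (Pf.W 23 6 [] [0,1,2,3,4,5] (Pf.cons (Pf.B 7 3 (Pf.B 7 5 (Pf.B 7 2 (Pf.C 12 0xe18105) (Pf.B 7 1 (Pf.C 12 0xe14086) (Pf.B 7 4 (Pf.B 7 0 (Pf.C 12 0xe10005) (Pf.W 27 4 [] [0,1,2,3,5,6,7] (Pf.cons (Pf.B 8 7 (Pf.B 8 6 (Pf.B 8 3 (Pf.C 11 0x1018184) (Pf.B 8 2 (Pf.C 10 0x1018104)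 (Pf.C 0 0xc0c108))) (Pf.C 13 0xe18404)) (Pf.B 8 6 (Pf.B 8 3 (Pf.C 11 0x1018184) (Pf.B 8 2 (Pf.C 10 0x1018104) (Pf.C 0 0xc0c108))) (Pf.B 8 5 (Pf.B 8 2 (Pf.B 8 1 (Pf.C 10 0x1014082) (Pf.B 8 0 (Pf.C 10 0x1010002) (Pf.C 0 0x21c400))) (Pf.C 0 0xe08406)) (Pf.C 9 0xc20284)))) Pf.nil))) (Pf.W 27 4 [] [1,2,3,5,6,7] (Pf.cons (Pf.B 8 7 (Pf.B 8 6 (Pf.C 11 0x101c206) (Pf.B 8 5 (Pf.C 11 0x101c205) (Pf.C 9 0xc20284))) (Pf.B 8 6 (Pf.B 8 3 (Pf.C 11 0x1018184) (Pf.B 8 2 (Pf.C 10 0x1018104) (Pf.C 0 0xc0c108))) (Pf.B 8 5 (Pf.B 8 2 (Pf.B 8 1 (Pf.C 10 0x1014082) (Pf.W 27 6 [] [1,2,3,4,5,7,8] (Pf.cons (Pf.B 9 8 (Pf.B 9 7 (Pf.B 9 5 (Pf.B 9 3 (Pf.C 11 0x1218185) (Pf.B 9 2 (Pf.C 10 0x1218105) (Pf.C 0 0xc0c109)))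 (Pf.C 13 0xe14486)) (Pf.B 9 1 (Pf.B 9 5 (Pf.C 10 0x1204286) (Pf.B 9 4 (Pf.B 9 3 (Pf.C 11 0x1218184) (Pf.B 9 2 (Pf.C 10 0x1218101) (Pf.C 0 0xc0c109))) (Pf.C 9 0xa24206))) (Pf.C 0 0x101c089))) (Pf.C 5 1033)) Pf.nil))) (Pf.C 0 0xe08406)) (Pf.C 9 0xc20284)))) Pf.nil))))) (Pf.B 7 4 (Pf.B 7 2 (Pf.C 12 0xe18104) (Pf.B 7 0 (Pf.C 12 0xe10006) (Pf.W 27 4 [] [0,2,3,5,6,7] (Pf.cons (Pf.B 8 7 (Pf.B 8 6 (Pf.B 8 3 (Pf.C 11 0x1018184) (Pf.B 8 2 (Pf.C 10 0x1018104) (Pf.C 0 0xc0c108))) (Pf.C 13 0xe18404)) (Pf.B 8 6 (Pf.B 8 3 (Pf.C 11 0x1018184) (Pf.B 8 2 (Pf.C 10 0x1018104) (Pf.C 0 0xc0c108))) (Pf.B 8 2 (Pf.B 8 0 (Pf.C 10 0x1010002) (Pf.W 27 6 [] [0,2,3,4,5,7,8] (Pf.cons (Pf.B 9 8 (Pf.B 9 7 (Pf.B 9 5 (Pf.C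 11 0x121c286) (Pf.B 9 4 (Pf.B 9 3 (Pf.C 11 0x1218184) (Pf.B 9 2 (Pf.C 10 0x1218104) (Pf.C 0 0xc0c109))) (Pf.C 9 0xa24206))) (Pf.B 9 0 (Pf.B 9 5 (Pf.B 9 3 (Pf.C 11 0x1218185) (Pf.B 9 2 (Pf.C 10 0x1218100) (Pf.C 0 0xc0c109))) (Pf.C 15 83078)) (Pf.C 0 0x101c009))) (Pf.C 5 1033)) Pf.nil))) (Pf.C 0 0xe08406)))) Pf.nil)))) (Pf.C 8 0xa1c203))) (Pf.C 4 391)) Pf.nil)) (Pf.cons (Pf.B 7 6 (Pf.C 7 0xc08381) (Pf.C 2 775)) (Pf.cons (Pf.B 7 6 (Pf.C 54 0x1c106) (Pf.B 7 4 (Pf.B 7 3 (Pf.C 8 0x618384) (Pf.C 4 391)) (Pf.C 55 0x1c104))) (Pf.cons (Pf.T 7 36 Pf.nil) Pf.nil))))))) (Pf.cons (Pf.B 7 4 (Pf.C 7 0x800382) (Pf.C 2 519)) (Pf.cons (Pf.W 23 6 [] [0,1,2,3,4,5] (Pf.cons (Pf.B 7 3 (Pf.B 7 5 (Pf.B 7 2 (Pf.C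 12 0xe18105) (Pf.B 7 1 (Pf.C 12 0xe14086) (Pf.B 7 4 (Pf.B 7 0 (Pf.C 12 0xe10005) (Pf.W 27 4 [] [0,1,2,3,5,6,7] (Pf.cons (Pf.B 8 7 (Pf.B 8 6 (Pf.B 8 3 (Pf.C 11 0x1018184) (Pf.B 8 2 (Pf.C 10 0x1018104) (Pf.C 0 0xc0c108))) (Pf.C 13 0xe18404)) (Pf.B 8 6 (Pf.B 8 3 (Pf.C 11 0x1018184) (Pf.B 8 2 (Pf.C 10 0x1018104) (Pf.C 0 0xc0c108))) (Pf.B 8 5 (Pf.B 8 2 (Pf.B 8 1 (Pf.C 10 0x1014082) (Pf.B 8 0 (Pf.C 10 0x1010002) (Pf.C 0 0x21c400))) (Pf.C 0 0xe08406)) (Pf.C 9 0xc20284)))) Pf.nil))) (Pf.W 180 128 [] [4,2,3,5,6,7] (Pf.cons (Pf.W 27 4 [] [1,2,3,5,6,7] (Pf.cons (Pf.B 8 7 (Pf.B 8 6 (Pf.C 11 0x101c206) (Pf.B 8 5 (Pf.C 11 0x101c205) (Pf.C 9 0xc20284))) (Pf.B 8 6 (Pf.B 8 3 (Pf.C 11 0x1018184) (Pf.B 8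 2 (Pf.C 10 0x1018104) (Pf.C 0 0xc0c108))) (Pf.B 8 5 (Pf.B 8 2 (Pf.B 8 1 (Pf.C 10 0x1014082) (Pf.W 27 6 [] [1,2,3,4,5,7,8] (Pf.cons (Pf.B 9 8 (Pf.B 9 7 (Pf.B 9 5 (Pf.B 9 3 (Pf.C 11 0x1218185) (Pf.B 9 2 (Pf.C 10 0x1218105) (Pf.C 0 0xc0c109))) (Pf.C 13 0xe14486)) (Pf.B 9 1 (Pf.B 9 5 (Pf.C 10 0x1204286) (Pf.B 9 4 (Pf.B 9 3 (Pf.C 11 0x1218184) (Pf.B 9 2 (Pf.C 10 0x1218101) (Pf.C 0 0xc0c109))) (Pf.C 9 0xa24206))) (Pf.C 0 0x101c089))) (Pf.C 5 1033)) Pf.nil))) (Pf.C 0 0xe08406)) (Pf.C 9 0xc20284)))) Pf.nil)) (Pf.cons (Pf.B 8 4 (Pf.C 7 0x800401) (Pf.C 2 520)) (Pf.cons (Pf.W 27 4 [] [1,2,3,5,6,7] (Pf.cons (Pf.B 8 7 (Pf.B 8 6 (Pf.C 11 0x101c206) (Pf.B 8 5 (Pf.C 11 0x101c205) (Pf.C 9 0xc20284))) (Pf.B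 8 6 (Pf.B 8 3 (Pf.C 11 0x1018184) (Pf.B 8 2 (Pf.C 10 0x1018104) (Pf.C 0 0xc0c108))) (Pf.B 8 5 (Pf.B 8 2 (Pf.B 8 1 (Pf.C 10 0x1014082) (Pf.W 27 6 [] [1,2,3,4,5,7,8] (Pf.cons (Pf.B 9 8 (Pf.B 9 7 (Pf.B 9 5 (Pf.B 9 3 (Pf.C 11 0x1218185) (Pf.B 9 2 (Pf.C 10 0x1218105) (Pf.C 0 0xc0c109))) (Pf.C 13 0xe14486)) (Pf.B 9 1 (Pf.B 9 5 (Pf.C 10 0x1204286) (Pf.B 9 4 (Pf.B 9 3 (Pf.C 11 0x1218184) (Pf.B 9 2 (Pf.C 10 0x1218101) (Pf.C 0 0xc0c109))) (Pf.C 9 0xa24206))) (Pf.C 0 0x101c089))) (Pf.C 5 1033)) Pf.nil))) (Pf.C 0 0xe08406)) (Pf.C 9 0xc20284)))) Pf.nil)) (Pf.cons (Pf.B 8 5 (Pf.C 7 0xa04400) (Pf.C 2 648)) (Pf.cons (Pf.T 8 36 Pf.nil) (Pf.cons (Pf.T 7 36 Pf.nil) (Pf.cons (Pf.B 8 7 (Pf.B 8 5 (Pf.B 8 4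 (Pf.C 54 0x20004) (Pf.C 8 0xe10405)) (Pf.C 55 0x20005)) (Pf.C 4 904)) Pf.nil))))))))))) (Pf.B 7 4 (Pf.B 7 2 (Pf.C 12 0xe18104) (Pf.B 7 0 (Pf.C 12 0xe10006) (Pf.W 180 128 [] [4,2,3,5,6,7] (Pf.cons (Pf.W 27 4 [] [0,2,3,5,6,7] (Pf.cons (Pf.B 8 7 (Pf.B 8 6 (Pf.B 8 3 (Pf.C 11 0x1018184) (Pf.B 8 2 (Pf.C 10 0x1018104) (Pf.C 0 0xc0c108))) (Pf.C 13 0xe18404)) (Pf.B 8 6 (Pf.B 8 3 (Pf.C 11 0x1018184) (Pf.B 8 2 (Pf.C 10 0x1018104) (Pf.C 0 0xc0c108))) (Pf.B 8 2 (Pf.B 8 0 (Pf.C 10 0x1010002) (Pf.W 27 6 [] [0,2,3,4,5,7,8] (Pf.cons (Pf.B 9 8 (Pf.B 9 7 (Pf.B 9 5 (Pf.C 11 0x121c286) (Pf.B 9 4 (Pf.B 9 3 (Pf.C 11 0x1218184) (Pf.B 9 2 (Pf.C 10 0x1218104) (Pf.C 0 0xc0c109))) (Pf.C 9 0xa24206))) (Pf.B 9 0 (Pf.B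 9 5 (Pf.B 9 3 (Pf.C 11 0x1218185) (Pf.B 9 2 (Pf.C 10 0x1218100) (Pf.C 0 0xc0c109))) (Pf.C 15 83078)) (Pf.C 0 0x101c009))) (Pf.C 5 1033)) Pf.nil))) (Pf.C 0 0xe08406)))) Pf.nil)) (Pf.cons (Pf.B 8 4 (Pf.C 7 0x800401) (Pf.C 2 520)) (Pf.cons (Pf.W 27 4 [] [0,2,3,5,6,7] (Pf.cons (Pf.B 8 7 (Pf.B 8 6 (Pf.B 8 3 (Pf.C 11 0x1018184) (Pf.B 8 2 (Pf.C 10 0x1018104) (Pf.C 0 0xc0c108))) (Pf.C 13 0xe18404)) (Pf.B 8 6 (Pf.B 8 3 (Pf.C 11 0x1018184) (Pf.B 8 2 (Pf.C 10 0x1018104) (Pf.C 0 0xc0c108))) (Pf.B 8 2 (Pf.B 8 0 (Pf.C 10 0x1010002) (Pf.W 27 6 [] [0,2,3,4,5,7,8] (Pf.cons (Pf.B 9 8 (Pf.B 9 7 (Pf.B 9 5 (Pf.C 11 0x121c286) (Pf.B 9 4 (Pf.B 9 3 (Pf.C 11 0x1218184) (Pf.B 9 2 (Pf.C 10 0x1218104) (Pf.C 0 0xc0c109)))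 (Pf.C 9 0xa24206))) (Pf.B 9 0 (Pf.B 9 5 (Pf.B 9 3 (Pf.C 11 0x1218185) (Pf.B 9 2 (Pf.C 10 0x1218100) (Pf.C 0 0xc0c109))) (Pf.C 15 83078)) (Pf.C 0 0x101c009))) (Pf.C 5 1033)) Pf.nil))) (Pf.C 0 0xe08406)))) Pf.nil)) (Pf.cons (Pf.B 8 5 (Pf.C 7 0xa04400) (Pf.C 2 648)) (Pf.cons (Pf.T 7 36 Pf.nil) (Pf.cons (Pf.B 8 7 (Pf.B 8 6 (Pf.B 8 5 (Pf.C 54 0x20085) (Pf.C 8 0xe14406)) (Pf.C 55 0x20086)) (Pf.C 4 904)) (Pf.cons (Pf.T 8 36 Pf.nil) Pf.nil)))))))))) (Pf.C 8 0xa1c203))) (Pf.C 4 391)) Pf.nil)) (Pf.cons (Pf.B 7 6 (Pf.C 7 0xc08380) (Pf.C 2 775)) (Pf.cons (Pf.B 7 6 (Pf.C 54 0x1c106) (Pf.B 7 4 (Pf.B 7 3 (Pf.C 8 0x618384) (Pf.C 4 391)) (Pf.C 55 0x1c104))) (Pf.cons (Pf.T 7 36 Pf.nil) Pf.nil)))))))) (Pf.C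 53 32774)) (Pf.C 53 32902)) (Pf.C 2 518)) (Pf.C 2 646)) Pf.nil)) (Pf.W 170 2 [] [0,1,3,4,5] (Pf.cons (Pf.B 6 5 (Pf.B 6 4 (Pf.B 6 3 (Pf.B 6 1 (Pf.B 6 0 (Pf.W 180 128 [] [3,4,2,5,6] (Pf.cons (Pf.W 180 257 [] [3,4,5,0,6] (Pf.cons (Pf.W 23 5 [] [0,1,2,3,4,6] (Pf.cons (Pf.B 7 3 (Pf.B 7 6 (Pf.B 7 2 (Pf.C 12 0xe18105) (Pf.B 7 4 (Pf.B 7 0 (Pf.C 12 0xe10005) (Pf.W 27 4 [] [0,1,2,3,5,6,7] (Pf.cons (Pf.B 8 7 (Pf.B 8 5 (Pf.B 8 3 (Pf.C 11 0x1014184) (Pf.B 8 1 (Pf.C 10 0x1014084) (Pf.C 0 0xa0c088))) (Pf.C 13 0xe14404)) (Pf.B 8 6 (Pf.B 8 2 (Pf.C 10 0x1018104) (Pf.B 8 3 (Pf.B 8 5 (Pf.C 11 0x100c284) (Pf.B 8 1 (Pf.B 8 0 (Pf.C 10 0x1010001) (Pf.C 0 0x41c400)) (Pf.C 0 0x614088))) (Pf.C 0 0xe08403))) (Pf.B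 8 5 (Pf.B 8 3 (Pf.C 11 0x1014184) (Pf.B 8 2 (Pf.B 8 1 (Pf.C 10 0x1014082) (Pf.C 0 0xa0c088)) (Pf.C 0 0xc08403))) (Pf.C 9 0xc20284)))) Pf.nil))) (Pf.W 27 4 [] [1,2,3,5,6,7] (Pf.cons (Pf.B 8 7 (Pf.B 8 6 (Pf.C 11 0x101c206) (Pf.B 8 5 (Pf.C 11 0x101c205) (Pf.C 9 0xc20284))) (Pf.B 8 6 (Pf.B 8 2 (Pf.C 10 0x1018104) (Pf.B 8 3 (Pf.B 8 5 (Pf.C 11 0x100c284) (Pf.W 27 5 [] [1,2,3,4,6,7,8] (Pf.cons (Pf.B 9 8 (Pf.B 9 7 (Pf.B 9 6 (Pf.B 9 3 (Pf.C 11 0x1214186) (Pf.B 9 1 (Pf.C 10 0x1214086) (Pf.C 0 0xa0c089))) (Pf.C 13 0xe18485)) (Pf.B 9 2 (Pf.B 9 6 (Pf.C 10 0x1208305) (Pf.B 9 4 (Pf.B 9 3 (Pf.C 11 0x1214184) (Pf.B 9 1 (Pf.C 10 0x1214082) (Pf.C 0 0xa0c089))) (Pf.C 9 0xc24205))) (Pf.C 0 0x101c109))) (Pf.C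 5 1033)) Pf.nil))) (Pf.C 0 0xe08403))) (Pf.B 8 5 (Pf.B 8 3 (Pf.C 11 0x1014184) (Pf.B 8 2 (Pf.B 8 1 (Pf.C 10 0x1014082) (Pf.C 0 0xa0c088)) (Pf.C 0 0xc08403))) (Pf.C 9 0xc20284)))) Pf.nil)))) (Pf.B 7 4 (Pf.B 7 0 (Pf.C 12 0xe10005) (Pf.W 27 4 [] [0,1,2,3,5,6,7] (Pf.cons (Pf.B 8 7 (Pf.B 8 6 (Pf.C 11 0x101c304) (Pf.B 8 5 (Pf.B 8 3 (Pf.C 11 0x1014184) (Pf.B 8 2 (Pf.B 8 1 (Pf.C 10 0x1014082) (Pf.C 0 0xa0c088)) (Pf.C 0 0xc08403))) (Pf.C 9 0xc20284))) (Pf.B 8 6 (Pf.B 8 2 (Pf.C 10 0x1018104) (Pf.B 8 0 (Pf.C 10 0x1010006) (Pf.B 8 3 (Pf.B 8 5 (Pf.C 11 0x100c284) (Pf.B 7 2 (Pf.W 27 5 [] [0,1,2,3,4,6,7,8] (Pf.cons (Pf.B 9 8 (Pf.B 9 7 (Pf.B 9 6 (Pf.C 11 0x121c305) (Pf.B 9 4 (Pf.B 9 3 (Pf.C 11 0x1214184)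 (Pf.B 9 2 (Pf.C 6 0x24382) (Pf.C 0 0xc08483))) (Pf.C 9 0xc24205))) (Pf.B 9 0 (Pf.B 9 6 (Pf.B 9 3 (Pf.C 11 0x1214186) (Pf.B 9 1 (Pf.C 10 0x1214080) (Pf.C 0 0xa0c089))) (Pf.C 15 99461)) (Pf.C 0 0x101c009))) (Pf.C 5 1033)) Pf.nil)) (Pf.C 0 0x20382))) (Pf.C 0 0xe00403)))) (Pf.B 8 5 (Pf.B 8 3 (Pf.C 11 0x1014184) (Pf.B 8 2 (Pf.B 8 1 (Pf.C 10 0x1014082) (Pf.C 0 0xa0c088)) (Pf.C 0 0xc08403))) (Pf.C 9 0xc20284)))) Pf.nil))) (Pf.C 8 0xc1c203))) (Pf.C 4 391)) Pf.nil)) (Pf.cons (Pf.B 7 5 (Pf.C 7 0xa04382) (Pf.C 2 647)) (Pf.cons (Pf.W 23 5 [] [0,1,2,3,4,6] (Pf.cons (Pf.B 7 3 (Pf.B 7 6 (Pf.B 7 2 (Pf.C 12 0xe18105) (Pf.B 7 4 (Pf.B 7 0 (Pf.C 12 0xe10005) (Pf.W 27 4 [] [0,1,2,3,5,6,7] (Pf.cons (Pf.B 8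 7 (Pf.B 8 5 (Pf.B 8 3 (Pf.C 11 0x1014184) (Pf.B 8 1 (Pf.C 10 0x1014084) (Pf.C 0 0xa0c088))) (Pf.C 13 0xe14404)) (Pf.B 8 6 (Pf.B 8 2 (Pf.C 10 0x1018104) (Pf.B 8 3 (Pf.B 8 5 (Pf.C 11 0x100c284) (Pf.B 8 1 (Pf.B 8 0 (Pf.C 10 0x1010001) (Pf.C 0 0x41c400)) (Pf.C 0 0x614088))) (Pf.C 0 0xe08403))) (Pf.B 8 5 (Pf.B 8 3 (Pf.C 11 0x1014184) (Pf.B 8 2 (Pf.B 8 1 (Pf.C 10 0x1014082) (Pf.C 0 0xa0c088)) (Pf.C 0 0xc08403))) (Pf.C 9 0xc20284)))) Pf.nil))) (Pf.W 27 4 [] [1,2,3,5,6,7] (Pf.cons (Pf.B 8 7 (Pf.B 8 6 (Pf.C 11 0x101c206) (Pf.B 8 5 (Pf.C 11 0x101c205) (Pf.C 9 0xc20284))) (Pf.B 8 6 (Pf.B 8 2 (Pf.C 10 0x1018104) (Pf.B 8 3 (Pf.B 8 5 (Pf.C 11 0x100c284) (Pf.W 27 5 [] [1,2,3,4,6,7,8] (Pf.cons (Pf.B 9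 8 (Pf.B 9 7 (Pf.B 9 6 (Pf.B 9 3 (Pf.C 11 0x1214186) (Pf.B 9 1 (Pf.C 10 0x1214086) (Pf.C 0 0xa0c089))) (Pf.C 13 0xe18485)) (Pf.B 9 2 (Pf.B 9 6 (Pf.C 10 0x1208305) (Pf.B 9 4 (Pf.B 9 3 (Pf.C 11 0x1214184) (Pf.B 9 1 (Pf.C 10 0x1214082) (Pf.C 0 0xa0c089))) (Pf.C 9 0xc24205))) (Pf.C 0 0x101c109))) (Pf.C 5 1033)) Pf.nil))) (Pf.C 0 0xe08403))) (Pf.B 8 5 (Pf.B 8 3 (Pf.C 11 0x1014184) (Pf.B 8 2 (Pf.B 8 1 (Pf.C 10 0x1014082) (Pf.C 0 0xa0c088)) (Pf.C 0 0xc08403))) (Pf.C 9 0xc20284)))) Pf.nil)))) (Pf.B 7 4 (Pf.B 7 0 (Pf.C 12 0xe10005) (Pf.W 27 4 [] [0,1,2,3,5,6,7] (Pf.cons (Pf.B 8 7 (Pf.B 8 6 (Pf.C 11 0x101c304) (Pf.B 8 5 (Pf.B 8 3 (Pf.C 11 0x1014184) (Pf.B 8 2 (Pf.B 8 1 (Pf.C 10 0x1014082) (Pf.C 0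 0xa0c088)) (Pf.C 0 0xc08403))) (Pf.C 9 0xc20284))) (Pf.B 8 6 (Pf.B 8 2 (Pf.C 10 0x1018104) (Pf.B 8 0 (Pf.C 10 0x1010006) (Pf.B 8 3 (Pf.B 8 5 (Pf.C 11 0x100c284) (Pf.B 7 2 (Pf.W 27 5 [] [0,1,2,3,4,6,7,8] (Pf.cons (Pf.B 9 8 (Pf.B 9 7 (Pf.B 9 6 (Pf.C 11 0x121c305) (Pf.B 9 4 (Pf.B 9 3 (Pf.C 11 0x1214184) (Pf.B 9 2 (Pf.C 6 0x24382) (Pf.C 0 0xc08483))) (Pf.C 9 0xc24205))) (Pf.B 9 0 (Pf.B 9 6 (Pf.B 9 3 (Pf.C 11 0x1214186) (Pf.B 9 1 (Pf.C 10 0x1214080) (Pf.C 0 0xa0c089))) (Pf.C 15 99461)) (Pf.C 0 0x101c009))) (Pf.C 5 1033)) Pf.nil)) (Pf.C 0 0x20382))) (Pf.C 0 0xe00403)))) (Pf.B 8 5 (Pf.B 8 3 (Pf.C 11 0x1014184) (Pf.B 8 2 (Pf.B 8 1 (Pf.C 10 0x1014082) (Pf.C 0 0xa0c088)) (Pf.C 0 0xc08403))) (Pf.C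 9 0xc20284)))) Pf.nil))) (Pf.C 8 0xc1c203))) (Pf.C 4 391)) Pf.nil)) (Pf.cons (Pf.B 7 6 (Pf.C 7 0xc08381) (Pf.C 2 775)) (Pf.cons (Pf.T 7 36 Pf.nil) (Pf.cons (Pf.B 7 5 (Pf.C 54 0x1c085) (Pf.B 7 4 (Pf.B 7 3 (Pf.C 8 0x614384) (Pf.C 4 391)) (Pf.C 55 0x1c084))) Pf.nil))))))) (Pf.cons (Pf.B 7 4 (Pf.C 7 0x800381) (Pf.C 2 519)) (Pf.cons (Pf.W 23 5 [] [0,1,2,3,4,6] (Pf.cons (Pf.B 7 3 (Pf.B 7 6 (Pf.B 7 2 (Pf.C 12 0xe18105) (Pf.B 7 4 (Pf.B 7 0 (Pf.C 12 0xe10005) (Pf.W 27 4 [] [0,1,2,3,5,6,7] (Pf.cons (Pf.B 8 7 (Pf.B 8 5 (Pf.B 8 3 (Pf.C 11 0x1014184) (Pf.B 8 1 (Pf.C 10 0x1014084) (Pf.C 0 0xa0c088))) (Pf.C 13 0xe14404)) (Pf.B 8 6 (Pf.B 8 2 (Pf.C 10 0x1018104) (Pf.B 8 3 (Pf.B 8 5 (Pf.C 11 0x100c284)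 (Pf.B 8 1 (Pf.B 8 0 (Pf.C 10 0x1010001) (Pf.C 0 0x41c400)) (Pf.C 0 0x614088))) (Pf.C 0 0xe08403))) (Pf.B 8 5 (Pf.B 8 3 (Pf.C 11 0x1014184) (Pf.B 8 2 (Pf.B 8 1 (Pf.C 10 0x1014082) (Pf.C 0 0xa0c088)) (Pf.C 0 0xc08403))) (Pf.C 9 0xc20284)))) Pf.nil))) (Pf.W 180 256 [] [4,1,3,5,6,7] (Pf.cons (Pf.W 27 4 [] [1,2,3,5,6,7] (Pf.cons (Pf.B 8 7 (Pf.B 8 6 (Pf.C 11 0x101c206) (Pf.B 8 5 (Pf.C 11 0x101c205) (Pf.C 9 0xc20284))) (Pf.B 8 6 (Pf.B 8 2 (Pf.C 10 0x1018104) (Pf.B 8 3 (Pf.B 8 5 (Pf.C 11 0x100c284) (Pf.W 27 5 [] [1,2,3,4,6,7,8] (Pf.cons (Pf.B 9 8 (Pf.B 9 7 (Pf.B 9 6 (Pf.B 9 3 (Pf.C 11 0x1214186) (Pf.B 9 1 (Pf.C 10 0x1214086) (Pf.C 0 0xa0c089))) (Pf.C 13 0xe18485)) (Pf.B 9 2 (Pf.B 9 6 (Pf.C 10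 0x1208305) (Pf.B 9 4 (Pf.B 9 3 (Pf.C 11 0x1214184) (Pf.B 9 1 (Pf.C 10 0x1214082) (Pf.C 0 0xa0c089))) (Pf.C 9 0xc24205))) (Pf.C 0 0x101c109))) (Pf.C 5 1033)) Pf.nil))) (Pf.C 0 0xe08403))) (Pf.B 8 5 (Pf.B 8 3 (Pf.C 11 0x1014184) (Pf.B 8 2 (Pf.B 8 1 (Pf.C 10 0x1014082) (Pf.C 0 0xa0c088)) (Pf.C 0 0xc08403))) (Pf.C 9 0xc20284)))) Pf.nil)) (Pf.cons (Pf.B 8 4 (Pf.C 7 0x800402) (Pf.C 2 520)) (Pf.cons (Pf.W 27 4 [] [1,2,3,5,6,7] (Pf.cons (Pf.B 8 7 (Pf.B 8 6 (Pf.C 11 0x101c206) (Pf.B 8 5 (Pf.C 11 0x101c205) (Pf.C 9 0xc20284))) (Pf.B 8 6 (Pf.B 8 2 (Pf.C 10 0x1018104) (Pf.B 8 3 (Pf.B 8 5 (Pf.C 11 0x100c284) (Pf.W 27 5 [] [1,2,3,4,6,7,8] (Pf.cons (Pf.B 9 8 (Pf.B 9 7 (Pf.B 9 6 (Pf.B 9 3 (Pf.C 11 0x1214186)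 (Pf.B 9 1 (Pf.C 10 0x1214086) (Pf.C 0 0xa0c089))) (Pf.C 13 0xe18485)) (Pf.B 9 2 (Pf.B 9 6 (Pf.C 10 0x1208305) (Pf.B 9 4 (Pf.B 9 3 (Pf.C 11 0x1214184) (Pf.B 9 1 (Pf.C 10 0x1214082) (Pf.C 0 0xa0c089))) (Pf.C 9 0xc24205))) (Pf.C 0 0x101c109))) (Pf.C 5 1033)) Pf.nil))) (Pf.C 0 0xe08403))) (Pf.B 8 5 (Pf.B 8 3 (Pf.C 11 0x1014184) (Pf.B 8 2 (Pf.B 8 1 (Pf.C 10 0x1014082) (Pf.C 0 0xa0c088)) (Pf.C 0 0xc08403))) (Pf.C 9 0xc20284)))) Pf.nil)) (Pf.cons (Pf.B 8 6 (Pf.C 7 0xc08400) (Pf.C 2 776)) (Pf.cons (Pf.T 8 36 Pf.nil) (Pf.cons (Pf.T 7 36 Pf.nil) (Pf.cons (Pf.B 8 7 (Pf.B 8 5 (Pf.B 8 4 (Pf.C 54 0x20004) (Pf.C 8 0xe10405)) (Pf.C 55 0x20005)) (Pf.C 4 904)) Pf.nil)))))))))) (Pf.B 7 4 (Pf.B 7 0 (Pf.C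 12 0xe10005) (Pf.W 180 256 [] [4,1,3,5,6,7] (Pf.cons (Pf.W 27 4 [] [0,1,2,3,5,6,7] (Pf.cons (Pf.B 8 7 (Pf.B 8 6 (Pf.C 11 0x101c304) (Pf.B 8 5 (Pf.B 8 3 (Pf.C 11 0x1014184) (Pf.B 8 2 (Pf.B 8 1 (Pf.C 10 0x1014082) (Pf.C 0 0xa0c088)) (Pf.C 0 0xc08403))) (Pf.C 9 0xc20284))) (Pf.B 8 6 (Pf.B 8 2 (Pf.C 10 0x1018104) (Pf.B 8 0 (Pf.C 10 0x1010006) (Pf.B 8 3 (Pf.B 8 5 (Pf.C 11 0x100c284) (Pf.B 7 2 (Pf.W 27 5 [] [0,1,2,3,4,6,7,8] (Pf.cons (Pf.B 9 8 (Pf.B 9 7 (Pf.B 9 6 (Pf.C 11 0x121c305) (Pf.B 9 4 (Pf.B 9 3 (Pf.C 11 0x1214184) (Pf.B 9 2 (Pf.C 6 0x24382) (Pf.C 0 0xc08483))) (Pf.C 9 0xc24205))) (Pf.B 9 0 (Pf.B 9 6 (Pf.B 9 3 (Pf.C 11 0x1214186) (Pf.B 9 1 (Pf.C 10 0x1214080) (Pf.C 0 0xa0c089))) (Pf.C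 15 99461)) (Pf.C 0 0x101c009))) (Pf.C 5 1033)) Pf.nil)) (Pf.C 0 0x20382))) (Pf.C 0 0xe00403)))) (Pf.B 8 5 (Pf.B 8 3 (Pf.C 11 0x1014184) (Pf.B 8 2 (Pf.B 8 1 (Pf.C 10 0x1014082) (Pf.C 0 0xa0c088)) (Pf.C 0 0xc08403))) (Pf.C 9 0xc20284)))) Pf.nil)) (Pf.cons (Pf.B 8 4 (Pf.C 7 0x800402) (Pf.C 2 520)) (Pf.cons (Pf.W 27 4 [] [0,1,2,3,5,6,7] (Pf.cons (Pf.B 8 7 (Pf.B 8 6 (Pf.C 11 0x101c304) (Pf.B 8 5 (Pf.B 8 3 (Pf.C 11 0x1014184) (Pf.B 8 2 (Pf.B 8 1 (Pf.C 10 0x1014082) (Pf.C 0 0xa0c088)) (Pf.C 0 0xc08403))) (Pf.C 9 0xc20284))) (Pf.B 8 6 (Pf.B 8 2 (Pf.C 10 0x1018104) (Pf.B 8 0 (Pf.C 10 0x1010006) (Pf.B 8 3 (Pf.B 8 5 (Pf.C 11 0x100c284) (Pf.B 7 2 (Pf.W 27 5 [] [0,1,2,3,4,6,7,8] (Pf.cons (Pf.B 9 8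 (Pf.B 9 7 (Pf.B 9 6 (Pf.C 11 0x121c305) (Pf.B 9 4 (Pf.B 9 3 (Pf.C 11 0x1214184) (Pf.B 9 2 (Pf.C 6 0x24382) (Pf.C 0 0xc08483))) (Pf.C 9 0xc24205))) (Pf.B 9 0 (Pf.B 9 6 (Pf.B 9 3 (Pf.C 11 0x1214186) (Pf.B 9 1 (Pf.C 10 0x1214080) (Pf.C 0 0xa0c089))) (Pf.C 15 99461)) (Pf.C 0 0x101c009))) (Pf.C 5 1033)) Pf.nil)) (Pf.C 0 0x20382))) (Pf.C 0 0xe00403)))) (Pf.B 8 5 (Pf.B 8 3 (Pf.C 11 0x1014184) (Pf.B 8 2 (Pf.B 8 1 (Pf.C 10 0x1014082) (Pf.C 0 0xa0c088)) (Pf.C 0 0xc08403))) (Pf.C 9 0xc20284)))) Pf.nil)) (Pf.cons (Pf.B 8 6 (Pf.C 7 0xc08400) (Pf.C 2 776)) (Pf.cons (Pf.T 7 36 Pf.nil) (Pf.cons (Pf.B 8 7 (Pf.B 8 6 (Pf.C 54 0x20106) (Pf.B 8 5 (Pf.C 8 0xe18405) (Pf.C 55 0x20105))) (Pf.C 4 904)) (Pf.cons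 (Pf.T 8 36 Pf.nil) Pf.nil))))))))) (Pf.C 8 0xc1c203))) (Pf.C 4 391)) Pf.nil)) (Pf.cons (Pf.B 7 5 (Pf.C 7 0xa04380) (Pf.C 2 647)) (Pf.cons (Pf.B 7 5 (Pf.C 54 0x1c085) (Pf.B 7 4 (Pf.B 7 3 (Pf.C 8 0x614384) (Pf.C 4 391)) (Pf.C 55 0x1c084))) (Pf.cons (Pf.T 7 36 Pf.nil) Pf.nil))))))) (Pf.C 53 32774)) (Pf.C 53 32902)) (Pf.C 8 0xa0c304)) (Pf.C 2 518)) (Pf.C 2 646)) Pf.nil))) (Pf.C 53 16389)) (Pf.C 53 16645)) (Pf.C 2 517)) Pf.nil)) (Pf.W 170 1 [] [0,2,3,4] (Pf.cons (Pf.B 5 4 (Pf.B 5 2 (Pf.B 5 0 (Pf.B 5 3 (Pf.W 170 2 [] [0,1,3,4,5] (Pf.cons (Pf.B 6 5 (Pf.B 6 4 (Pf.B 6 3 (Pf.B 6 1 (Pf.B 6 0 (Pf.W 180 128 [] [3,4,2,5,6] (Pf.cons (Pf.W 23 4 [] [0,1,2,3,5,6] (Pf.cons (Pf.B 7 3 (Pf.B 7 6 (Pf.B 7 2 (Pf.C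 12 0xe18104) (Pf.B 7 5 (Pf.B 7 1 (Pf.C 12 0xe14084) (Pf.W 27 4 [] [1,2,3,5,6,7] (Pf.cons (Pf.B 8 7 (Pf.B 8 6 (Pf.B 8 5 (Pf.B 8 3 (Pf.C 11 0x1010185) (Pf.B 8 2 (Pf.C 10 0x1018104) (Pf.B 8 1 (Pf.C 10 0x1014084) (Pf.C 0 0x40c401)))) (Pf.C 13 0xe14404)) (Pf.C 13 0xe18404)) (Pf.B 8 6 (Pf.B 8 3 (Pf.C 11 0x1010186) (Pf.B 8 2 (Pf.C 10 0x1018104) (Pf.C 0 0xe08403))) (Pf.B 8 5 (Pf.B 8 3 (Pf.C 11 0x1010185) (Pf.B 8 2 (Pf.B 8 1 (Pf.C 10 0x1014082) (Pf.C 0 0xe04403)) (Pf.C 0 0xc08403))) (Pf.C 9 0xc20284)))) Pf.nil))) (Pf.W 180 257 [] [5,0,3,4,6,7] (Pf.cons (Pf.W 27 4 [] [0,1,2,3,5,6,7] (Pf.cons (Pf.B 8 7 (Pf.B 8 6 (Pf.B 8 3 (Pf.C 11 0x1010186) (Pf.B 8 2 (Pf.C 10 0x1018104) (Pf.B 8 1 (Pf.B 8 0 (Pf.C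 10 0x1010001) (Pf.C 0 0x80c008)) (Pf.C 0 0x40c401)))) (Pf.C 13 0xe18404)) (Pf.B 8 6 (Pf.B 8 3 (Pf.C 11 0x1010186) (Pf.B 8 2 (Pf.C 10 0x1018104) (Pf.C 0 0xe08403))) (Pf.B 8 5 (Pf.B 8 3 (Pf.C 11 0x1010185) (Pf.B 8 2 (Pf.B 8 0 (Pf.C 10 0x1010002) (Pf.C 0 0x80c008)) (Pf.C 0 0xc08403))) (Pf.C 9 0xc20284)))) Pf.nil)) (Pf.cons (Pf.B 8 5 (Pf.C 7 0xa04402) (Pf.C 2 648)) (Pf.cons (Pf.W 27 4 [] [0,1,2,3,5,6,7] (Pf.cons (Pf.B 8 7 (Pf.B 8 6 (Pf.B 8 3 (Pf.C 11 0x1010186) (Pf.B 8 2 (Pf.C 10 0x1018104) (Pf.B 8 1 (Pf.B 8 0 (Pf.C 10 0x1010001) (Pf.C 0 0x80c008)) (Pf.C 0 0x40c401)))) (Pf.C 13 0xe18404)) (Pf.B 8 6 (Pf.B 8 3 (Pf.C 11 0x1010186) (Pf.B 8 2 (Pf.C 10 0x1018104) (Pf.C 0 0xe08403))) (Pf.B 8 5 (Pf.B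 8 3 (Pf.C 11 0x1010185) (Pf.B 8 2 (Pf.B 8 0 (Pf.C 10 0x1010002) (Pf.C 0 0x80c008)) (Pf.C 0 0xc08403))) (Pf.C 9 0xc20284)))) Pf.nil)) (Pf.cons (Pf.B 8 6 (Pf.C 7 0xc08401) (Pf.C 2 776)) (Pf.cons (Pf.T 8 36 Pf.nil) (Pf.cons (Pf.T 7 36 Pf.nil) (Pf.cons (Pf.B 8 7 (Pf.B 8 6 (Pf.B 8 5 (Pf.C 54 0x20085) (Pf.C 8 0xe14406)) (Pf.C 55 0x20086)) (Pf.C 4 904)) Pf.nil)))))))))) (Pf.B 7 5 (Pf.B 7 1 (Pf.C 12 0xe14084) (Pf.W 180 257 [] [5,0,3,4,6,7] (Pf.cons (Pf.W 27 4 [] [0,1,2,3,5,6,7] (Pf.cons (Pf.B 8 7 (Pf.B 8 6 (Pf.C 11 0x101c304) (Pf.B 8 5 (Pf.B 8 3 (Pf.C 11 0x1010185) (Pf.B 8 2 (Pf.B 8 0 (Pf.C 10 0x1010002) (Pf.C 0 0x80c008)) (Pf.C 0 0xc08403))) (Pf.C 9 0xc20284))) (Pf.B 8 6 (Pf.B 8 3 (Pf.C 11 0x1010186)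 (Pf.B 8 2 (Pf.C 10 0x1018104) (Pf.B 8 1 (Pf.B 8 0 (Pf.C 10 0x1010001) (Pf.C 0 0x80c008)) (Pf.C 0 0x40c401)))) (Pf.B 8 5 (Pf.B 8 3 (Pf.C 11 0x1010185) (Pf.B 8 2 (Pf.B 8 1 (Pf.C 10 0x1014082) (Pf.C 0 0xc1c401)) (Pf.C 0 0xc08403))) (Pf.C 9 0xc20284)))) Pf.nil)) (Pf.cons (Pf.B 8 5 (Pf.C 7 0xa04402) (Pf.C 2 648)) (Pf.cons (Pf.W 27 4 [] [0,1,2,3,5,6,7] (Pf.cons (Pf.B 8 7 (Pf.B 8 6 (Pf.C 11 0x101c304) (Pf.B 8 5 (Pf.B 8 3 (Pf.C 11 0x1010185) (Pf.B 8 2 (Pf.B 8 0 (Pf.C 10 0x1010002) (Pf.C 0 0x80c008)) (Pf.C 0 0xc08403))) (Pf.C 9 0xc20284))) (Pf.B 8 6 (Pf.B 8 3 (Pf.C 11 0x1010186) (Pf.B 8 2 (Pf.C 10 0x1018104) (Pf.B 8 1 (Pf.B 8 0 (Pf.C 10 0x1010001) (Pf.C 0 0x80c008)) (Pf.C 0 0x40c401)))) (Pf.B 8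 5 (Pf.B 8 3 (Pf.C 11 0x1010185) (Pf.B 8 2 (Pf.B 8 1 (Pf.C 10 0x1014082) (Pf.C 0 0xc1c401)) (Pf.C 0 0xc08403))) (Pf.C 9 0xc20284)))) Pf.nil)) (Pf.cons (Pf.B 8 6 (Pf.C 7 0xc08401) (Pf.C 2 776)) (Pf.cons (Pf.T 7 36 Pf.nil) (Pf.cons (Pf.B 8 7 (Pf.B 8 6 (Pf.C 54 0x20106) (Pf.B 8 5 (Pf.C 8 0xe18405) (Pf.C 55 0x20105))) (Pf.C 4 904)) (Pf.cons (Pf.T 8 36 Pf.nil) Pf.nil))))))))) (Pf.C 8 0xc1c283))) (Pf.C 4 391)) Pf.nil)) (Pf.cons (Pf.B 7 4 (Pf.C 7 0x800381) (Pf.C 2 519)) (Pf.cons (Pf.W 180 256 [] [3,4,1,5,6] (Pf.cons (Pf.W 23 4 [] [0,1,2,3,5,6] (Pf.cons (Pf.B 7 3 (Pf.B 7 6 (Pf.B 7 2 (Pf.C 12 0xe18104) (Pf.W 27 4 [] [0,1,2,3,5,6,7] (Pf.cons (Pf.B 8 7 (Pf.B 8 6 (Pf.B 8 3 (Pf.C 11 0x1010186) (Pf.B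 8 2 (Pf.C 10 0x1018104) (Pf.B 8 1 (Pf.B 8 0 (Pf.C 10 0x1010001) (Pf.C 0 0x80c008)) (Pf.C 0 0x40c401)))) (Pf.C 13 0xe18404)) (Pf.B 8 6 (Pf.B 8 3 (Pf.C 11 0x1010186) (Pf.B 8 2 (Pf.C 10 0x1018104) (Pf.C 0 0xe08403))) (Pf.B 8 5 (Pf.B 8 3 (Pf.C 11 0x1010185) (Pf.B 8 2 (Pf.B 8 0 (Pf.C 10 0x1010002) (Pf.C 0 0x80c008)) (Pf.C 0 0xc08403))) (Pf.C 9 0xc20284)))) Pf.nil))) (Pf.B 7 5 (Pf.B 7 1 (Pf.C 12 0xe14084) (Pf.W 27 4 [] [0,1,2,3,5,6,7] (Pf.cons (Pf.B 8 7 (Pf.B 8 6 (Pf.C 11 0x101c304) (Pf.B 8 5 (Pf.B 8 3 (Pf.C 11 0x1010185) (Pf.B 8 2 (Pf.B 8 0 (Pf.C 10 0x1010002) (Pf.C 0 0x80c008)) (Pf.C 0 0xc08403))) (Pf.C 9 0xc20284))) (Pf.B 8 6 (Pf.B 8 3 (Pf.C 11 0x1010186) (Pf.B 8 2 (Pf.C 10 0x1018104) (Pf.B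 8 1 (Pf.B 8 0 (Pf.C 10 0x1010001) (Pf.C 0 0x80c008)) (Pf.C 0 0x40c401)))) (Pf.B 8 5 (Pf.B 8 3 (Pf.C 11 0x1010185) (Pf.B 8 2 (Pf.B 8 1 (Pf.C 10 0x1014082) (Pf.C 0 0xc1c401)) (Pf.C 0 0xc08403))) (Pf.C 9 0xc20284)))) Pf.nil))) (Pf.C 8 0xc1c283))) (Pf.C 4 391)) Pf.nil)) (Pf.cons (Pf.B 7 4 (Pf.C 7 0x800382) (Pf.C 2 519)) (Pf.cons (Pf.W 23 4 [] [0,1,2,3,5,6] (Pf.cons (Pf.B 7 3 (Pf.B 7 6 (Pf.B 7 2 (Pf.C 12 0xe18104) (Pf.W 27 4 [] [0,1,2,3,5,6,7] (Pf.cons (Pf.B 8 7 (Pf.B 8 6 (Pf.B 8 3 (Pf.C 11 0x1010186) (Pf.B 8 2 (Pf.C 10 0x1018104) (Pf.B 8 1 (Pf.B 8 0 (Pf.C 10 0x1010001) (Pf.C 0 0x80c008)) (Pf.C 0 0x40c401)))) (Pf.C 13 0xe18404)) (Pf.B 8 6 (Pf.B 8 3 (Pf.C 11 0x1010186) (Pf.B 8 2 (Pf.C 10 0x1018104)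 (Pf.C 0 0xe08403))) (Pf.B 8 5 (Pf.B 8 3 (Pf.C 11 0x1010185) (Pf.B 8 2 (Pf.B 8 0 (Pf.C 10 0x1010002) (Pf.C 0 0x80c008)) (Pf.C 0 0xc08403))) (Pf.C 9 0xc20284)))) Pf.nil))) (Pf.B 7 5 (Pf.B 7 1 (Pf.C 12 0xe14084) (Pf.W 27 4 [] [0,1,2,3,5,6,7] (Pf.cons (Pf.B 8 7 (Pf.B 8 6 (Pf.C 11 0x101c304) (Pf.B 8 5 (Pf.B 8 3 (Pf.C 11 0x1010185) (Pf.B 8 2 (Pf.B 8 0 (Pf.C 10 0x1010002) (Pf.C 0 0x80c008)) (Pf.C 0 0xc08403))) (Pf.C 9 0xc20284))) (Pf.B 8 6 (Pf.B 8 3 (Pf.C 11 0x1010186) (Pf.B 8 2 (Pf.C 10 0x1018104) (Pf.B 8 1 (Pf.B 8 0 (Pf.C 10 0x1010001) (Pf.C 0 0x80c008)) (Pf.C 0 0x40c401)))) (Pf.B 8 5 (Pf.B 8 3 (Pf.C 11 0x1010185) (Pf.B 8 2 (Pf.B 8 1 (Pf.C 10 0x1014082) (Pf.C 0 0xc1c401)) (Pf.C 0 0xc08403)))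 (Pf.C 9 0xc20284)))) Pf.nil))) (Pf.C 8 0xc1c283))) (Pf.C 4 391)) Pf.nil)) (Pf.cons (Pf.B 7 6 (Pf.C 7 0xc08380) (Pf.C 2 775)) (Pf.cons (Pf.T 7 36 Pf.nil) (Pf.cons (Pf.B 7 5 (Pf.B 7 4 (Pf.C 54 0x1c004) (Pf.B 7 3 (Pf.C 8 0x610385) (Pf.C 4 391))) (Pf.C 55 0x1c005)) Pf.nil))))))) (Pf.cons (Pf.B 7 5 (Pf.C 7 0xa04380) (Pf.C 2 647)) (Pf.cons (Pf.T 7 36 Pf.nil) (Pf.cons (Pf.B 7 5 (Pf.B 7 4 (Pf.C 54 0x1c004) (Pf.B 7 3 (Pf.C 8 0x610385) (Pf.C 4 391))) (Pf.C 55 0x1c005)) Pf.nil))))))) (Pf.C 53 32774)) (Pf.C 53 32902)) (Pf.C 8 0x80c305)) (Pf.C 2 518)) (Pf.C 2 646)) Pf.nil)) (Pf.W 170 2 [] [0,1,3,4,5] (Pf.cons (Pf.B 6 5 (Pf.B 6 4 (Pf.B 6 3 (Pf.C 8 0xa0c206) (Pf.B 6 1 (Pf.B 6 0 (Pf.W 180 128 [] [3,4,2,5,6]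 (Pf.cons (Pf.W 180 257 [] [3,4,5,6] (Pf.cons (Pf.W 23 4 [] [3,5,6] (Pf.cons (Pf.B 7 3 (Pf.B 7 6 (Pf.C 8 0x80c307) (Pf.B 7 5 (Pf.C 8 0x80c287) (Pf.C 8 0xc1c284))) (Pf.C 4 391)) Pf.nil)) (Pf.cons (Pf.B 7 5 (Pf.C 7 0xa04382) (Pf.C 2 647)) (Pf.cons (Pf.W 23 4 [] [3,5,6] (Pf.cons (Pf.B 7 3 (Pf.B 7 6 (Pf.C 8 0x80c307) (Pf.B 7 5 (Pf.C 8 0x80c287) (Pf.C 8 0xc1c284))) (Pf.C 4 391)) Pf.nil)) (Pf.cons (Pf.B 7 6 (Pf.C 7 0xc08381) (Pf.C 2 775)) (Pf.cons (Pf.B 7 5 (Pf.B 7 4 (Pf.B 7 3 (Pf.C 8 0xa0c207) (Pf.C 4 391)) (Pf.C 55 0x1c104)) (Pf.C 55 0x1c105)) (Pf.cons (Pf.B 7 6 (Pf.B 7 4 (Pf.B 7 3 (Pf.C 8 0xc0c207) (Pf.C 4 391)) (Pf.C 55 0x1c084)) (Pf.C 55 0x1c086)) Pf.nil))))))) (Pf.cons (Pf.B 7 4 (Pf.C 7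 0x800381) (Pf.C 2 519)) (Pf.cons (Pf.W 180 256 [] [3,4,5,6] (Pf.cons (Pf.W 23 4 [] [3,5,6] (Pf.cons (Pf.B 7 3 (Pf.B 7 6 (Pf.C 8 0x80c307) (Pf.B 7 5 (Pf.C 8 0x80c287) (Pf.C 8 0xc1c284))) (Pf.C 4 391)) Pf.nil)) (Pf.cons (Pf.B 7 4 (Pf.C 7 0x800382) (Pf.C 2 519)) (Pf.cons (Pf.W 23 4 [] [3,5,6] (Pf.cons (Pf.B 7 3 (Pf.B 7 6 (Pf.C 8 0x80c307) (Pf.B 7 5 (Pf.C 8 0x80c287) (Pf.C 8 0xc1c284))) (Pf.C 4 391)) Pf.nil)) (Pf.cons (Pf.B 7 6 (Pf.C 7 0xc08380) (Pf.C 2 775)) (Pf.cons (Pf.B 7 5 (Pf.B 7 4 (Pf.B 7 3 (Pf.C 8 0xa0c207) (Pf.C 4 391)) (Pf.C 55 0x1c104)) (Pf.C 55 0x1c105)) (Pf.cons (Pf.B 7 6 (Pf.B 7 5 (Pf.B 7 3 (Pf.C 8 0xc0c287) (Pf.C 4 391)) (Pf.C 55 0x1c005)) (Pf.C 55 0x1c006)) Pf.nil))))))) (Pf.cons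 (Pf.B 7 5 (Pf.C 7 0xa04380) (Pf.C 2 647)) (Pf.cons (Pf.B 7 6 (Pf.B 7 4 (Pf.B 7 3 (Pf.C 8 0xc0c207) (Pf.C 4 391)) (Pf.C 55 0x1c084)) (Pf.C 55 0x1c086)) (Pf.cons (Pf.B 7 6 (Pf.B 7 5 (Pf.B 7 3 (Pf.C 8 0xc0c287) (Pf.C 4 391)) (Pf.C 55 0x1c005)) (Pf.C 55 0x1c006)) Pf.nil))))))) (Pf.C 53 32774)) (Pf.C 53 32902))) (Pf.C 2 518)) (Pf.C 2 646)) Pf.nil))) (Pf.C 53 16389)) (Pf.C 53 16645)) (Pf.C 2 517)) Pf.nil))) (Pf.C 53 132)) (Pf.C 53 260)) Pf.nil)))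
 Pq.nil)
theorem e3_o56 : AllRef e3_T e3_G83 (List.map pat1 [126]) :=
  chkPq_sound e3_o56c _ (by decide +kernel)
noncomputable def e3_o57c : Pq := (Pq.cons (Pq.D 0 (Pq.cons (Pq.D 1 (Pq.cons (Pq.L [] 1 (Pf.C 2 515))
 (Pq.cons (Pq.D 2 (Pq.cons (Pq.L [] 2 (Pf.C 2 643))
 (Pq.cons (Pq.L [] 3 (Pf.B 5 4 (Pf.C 53 66179) (Pf.C 3 517)))
 Pq.nil))) Pq.nil))) (Pq.cons (Pq.D 1 (Pq.cons (Pq.D 2 (Pq.cons (Pq.L [2] 3 (Pf.B 5 4 (Pf.B 3 2 (Pf.B 5 2 (Pf.B 4 2 (Pf.C 7 0xa0c202) (Pf.C 53 49412)) (Pf.C 53 49413)) (Pf.C 3 259)) (Pf.C 2 517)))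
 (Pq.cons (Pq.L [] 2 (Pf.C 3 643))
 Pq.nil))) (Pq.cons (Pq.L [] 1 (Pf.C 3 515))
 Pq.nil))) Pq.nil))) Pq.nil)
theorem e3_o57 : AllRef e3_T e3_G84 (applyObl TD2 1 [117,122] [0,0] []) :=
  chkPq_sound e3_o57c _ (by decide +kernel)
noncomputable def e3_o58c : Pq := (Pq.cons (Pq.L [] 63 (Pf.C 0 0x608080))
 (Pq.cons (Pq.L [] 32767 (Pf.C 1 0x2840608080))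
 (Pq.cons (Pq.L [] 1 (Pf.C 3 128))
 (Pq.cons (Pq.L [] 1 (Pf.C 4 128))
 (Pq.cons (Pq.L [] 1 (Pf.C 5 128))
 (Pq.cons (Pq.L [] 7 (Pf.C 6 32896))
 (Pq.cons (Pq.D 0 (Pq.cons (Pq.D 1 (Pq.cons (Pq.L [] 1 (Pf.C 3 128))
 (Pq.cons (Pq.D 2 (Pq.cons (Pq.D 3 (Pq.cons (Pq.L [] 128 (Pf.C 3 386))
 (Pq.cons (Pq.D 4 (Pq.cons (Pq.L [] 1023 (Pf.C 16 0x40608080))
 (Pq.cons (Pq.L [] 1023 (Pf.C 16 0x40608080))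
 Pq.nil))) Pq.nil))) (Pq.cons (Pq.D 3 (Pq.cons (Pq.D 4 (Pq.cons (Pq.L [] 1023 (Pf.C 16 0x40608080))
 (Pq.cons (Pq.L [] 1023 (Pf.C 16 0x40608080))
 Pq.nil))) (Pq.cons (Pq.L [] 128 (Pf.C 4 386))
 Pq.nil))) Pq.nil))) Pq.nil))) (Pq.cons (Pq.D 1 (Pq.cons (Pq.D 2 (Pq.cons (Pq.D 3 (Pq.cons (Pq.L [] 128 (Pf.C 3 386))
 (Pq.cons (Pq.D 4 (Pq.cons (Pq.L [] 1023 (Pf.C 16 0x40608080))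
 (Pq.cons (Pq.L [] 1023 (Pf.C 16 0x40608080))
 Pq.nil))) Pq.nil))) (Pq.cons (Pq.D 3 (Pq.cons (Pq.D 4 (Pq.cons (Pq.L [] 1023 (Pf.C 16 0x40608080))
 (Pq.cons (Pq.L [] 1023 (Pf.C 16 0x40608080))
 Pq.nil))) (Pq.cons (Pq.L [] 128 (Pf.C 4 386))
 Pq.nil))) Pq.nil))) (Pq.cons (Pq.L [] 1 (Pf.C 4 128))
 Pq.nil))) Pq.nil))) (Pq.cons (Pq.D 0 (Pq.cons (Pq.D 1 (Pq.cons (Pq.L [] 1 (Pf.C 3 128))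
 (Pq.cons (Pq.D 2 (Pq.cons (Pq.D 3 (Pq.cons (Pq.L [] 128 (Pf.C 3 386))
 (Pq.cons (Pq.D 4 (Pq.cons (Pq.L [] 1023 (Pf.C 17 0x40608080))
 (Pq.cons (Pq.L [] 1023 (Pf.C 17 0x40608080))
 Pq.nil))) Pq.nil))) (Pq.cons (Pq.D 3 (Pq.cons (Pq.D 4 (Pq.cons (Pq.L [] 1023 (Pf.C 17 0x40608080))
 (Pq.cons (Pq.L [] 1023 (Pf.C 17 0x40608080))
 Pq.nil))) (Pq.cons (Pq.L [] 128 (Pf.C 5 386))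
 Pq.nil))) Pq.nil))) Pq.nil))) (Pq.cons (Pq.D 1 (Pq.cons (Pq.D 2 (Pq.cons (Pq.D 3 (Pq.cons (Pq.L [] 128 (Pf.C 3 386))
 (Pq.cons (Pq.D 4 (Pq.cons (Pq.L [] 1023 (Pf.C 17 0x40608080))
 (Pq.cons (Pq.L [] 1023 (Pf.C 17 0x40608080))
 Pq.nil))) Pq.nil))) (Pq.cons (Pq.D 3 (Pq.cons (Pq.D 4 (Pq.cons (Pq.L [] 1023 (Pf.C 17 0x40608080))
 (Pq.cons (Pq.L [] 1023 (Pf.C 17 0x40608080))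
 Pq.nil))) (Pq.cons (Pq.L [] 128 (Pf.C 5 386))
 Pq.nil))) Pq.nil))) (Pq.cons (Pq.L [] 1 (Pf.C 5 128))
 Pq.nil))) Pq.nil))) (Pq.cons (Pq.D 0 (Pq.cons (Pq.D 1 (Pq.cons (Pq.L [] 1 (Pf.C 4 128))
 (Pq.cons (Pq.D 2 (Pq.cons (Pq.D 3 (Pq.cons (Pq.L [] 128 (Pf.C 4 386))
 (Pq.cons (Pq.D 4 (Pq.cons (Pq.L [] 1023 (Pf.C 18 0x40608080))
 (Pq.cons (Pq.L [] 1023 (Pf.C 18 0x40608080))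
 Pq.nil))) Pq.nil))) (Pq.cons (Pq.D 3 (Pq.cons (Pq.D 4 (Pq.cons (Pq.L [] 1023 (Pf.C 18 0x40608080))
 (Pq.cons (Pq.L [] 1023 (Pf.C 18 0x40608080))
 Pq.nil))) (Pq.cons (Pq.L [] 128 (Pf.C 5 386))
 Pq.nil))) Pq.nil))) Pq.nil))) (Pq.cons (Pq.D 1 (Pq.cons (Pq.D 2 (Pq.cons (Pq.D 3 (Pq.cons (Pq.L [] 128 (Pf.C 4 386))
 (Pq.cons (Pq.D 4 (Pq.cons (Pq.L [] 1023 (Pf.C 18 0x40608080))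
 (Pq.cons (Pq.L [] 1023 (Pf.C 18 0x40608080))
 Pq.nil))) Pq.nil))) (Pq.cons (Pq.D 3 (Pq.cons (Pq.D 4 (Pq.cons (Pq.L [] 1023 (Pf.C 18 0x40608080))
 (Pq.cons (Pq.L [] 1023 (Pf.C 18 0x40608080))
 Pq.nil))) (Pq.cons (Pq.L [] 128 (Pf.C 5 386))
 Pq.nil))) Pq.nil))) (Pq.cons (Pq.L [] 1 (Pf.C 5 128))
 Pq.nil))) Pq.nil))) Pq.nil)))))))))
theorem e3_o58 : AllRef e3_T e3_G74 (applyObl e4_T 9 [109,111,113] [1,2,3] []) :=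
  chkPq_sound e3_o58c _ (by decide +kernel)
noncomputable def e3_o59c : Pq := (Pq.cons (Pq.L [] 1 (Pf.C 2 128))
 Pq.nil)
theorem e3_o59 : AllRef e3_T e3_G9 (applyObl TD2 1 [18] [0] []) :=
  chkPq_sound e3_o59c _ (by decide +kernel)

end Pool.Agent.Lib.MP_849b2e_co
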