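import Pool.Agent.Lib.MP_849b2e_co.AllR
import Pool.Agent.Lib.MP_849b2e_co.Te3
import Pool.Agent.Lib.MP_849b2e_co.Oe3_0
import Pool.Agent.Lib.MP_849b2e_co.Ld
import Pool.Agent.Lib.MP_849b2e_co.Le4

set_option maxRecDepth 100000
set_option linter.all false
namespace Pool.Agent.Lib.MP_849b2e_co

theorem e3_n130  : Bd e3_T e3_G9 [18] :=
  r_apply lem_D2 [0] [] (by decide +kernel) e3_o59
theorem e3_n129  : Bd e3_T e3_G74 [109,111,113] :=
  r_apply lem_e4 [1,2,3] [] (by decide +kernel) e3_o58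
theorem e3_n128  : Bd e3_T e3_G84 [117,122] :=
  r_apply lem_D2 [0,0] [] (by decide +kernel) e3_o57
theorem e3_n127  : Bd e3_T e3_G83 [117,122,126] :=
  r_kill [126] ⟨127,[],[],[]⟩ e3_G84 [117,122] (by decide +kernel) e3_o56 e3_n128
theorem e3_n126  : Bd e3_T e3_G82 [117,122,123,124,125,126,120] :=
  r_kill [123,124,125,120] ⟨127,[],[],[]⟩ e3_G83 [117,122,126] (by decide +kernel) (allRef_split 3 e3_o54 e3_o55) e3_n127
theorem e3_n125  : Bd e3_T e3_G82 [117,118,119,120] :=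
  r_act [35,36] [117,122,123,124,125,126,120] (by decide +kernel) e3_n126
theorem e3_n124  : Bd e3_T e3_G81 [117,118,119,120] :=
  r_psplit 119 [] (PT.br 0 (PT.br 1 PT.ref (PT.br 2 PT.ref PT.kid)) (PT.br 1 (PT.br 2 PT.ref PT.kid) (PT.br 2 PT.kid PT.kid))) ⟨123,[37],[],[]⟩ e3_G82 [117,118,119,120] (by decide +kernel) e3_o53 e3_n125
theorem e3_n123  : Bd e3_T e3_G78 [117,118,119,120] :=
  r_psplit 118 [0,1,2] PT.kid ⟨122,[36],[],[]⟩ e3_G81 [117,118,119,120] (by decide +kernel) e3_o52 e3_n124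
theorem e3_n122  : Bd e3_T e3_G80 [117,119,120] :=
  r_apply lem_d [0,0,0] [(117,0x1000000000000000000000000000000),(119,0x1000000000000000000000000000000),(120,0xa00000000000000000000000000000)] (by decide +kernel) e3_o51
theorem e3_n121  : Bd e3_T e3_G79 [117,121,119,120] :=
  r_kill [121] ⟨122,[],[],[]⟩ e3_G80 [117,119,120] (by decide +kernel) e3_o50 e3_n122
theorem e3_n120  : Bd e3_T e3_G77 [117,118,119,120] :=
  r_hit [118] e3_h120 ⟨121,[],[183],[]⟩ e3_G79 [117,121,119,120] (by decide +kernel) e3_o49 e3_n121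
theorem e3_n119  : Bd e3_T e3_G76 [117,118,119,120] :=
  r_case [118,118,118] [⟨0,1,false⟩,⟨0,2,false⟩,⟨1,2,false⟩] [] ⟨121,[],[182],[]⟩ e3_G77 [117,118,119,120] e3_G78 [117,118,119,120] (by decide +kernel) e3_n120 e3_n123
theorem e3_n118  : Bd e3_T e3_G75 [29,114,115,116] :=
  r_twin 0 [14,13,11,7] ⟨117,[],[0,181],[]⟩ e3_G76 [117,118,119,120] (by decide +kernel) e3_o48 e3_n119
theorem e3_n117  : Bd e3_T e3_G74 [29,108,110,112] :=
  r_hit [108,110,112] e3_h117 ⟨114,[],[177,0,178,0,179,180],[]⟩ e3_G75 [29,114,115,116] (by decide +kernel) e3_o47 e3_n118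
theorem e3_n116  : Bd e3_T e3_G74 [29,108,109,110,111,112,113] :=
  r_split [29,108,110,112] [109,111,113] (by decide +kernel) e3_o46 e3_n117 e3_n129
theorem e3_n115  : Bd e3_T e3_G74 [29,108,109,110,111,28] :=
  r_act [34] [29,108,109,110,111,112,113] (by decide +kernel) e3_n116
theorem e3_n114  : Bd e3_T e3_G73 [29,108,109,110,111,28] :=
  r_def 28 0 [29] [] ⟨112,[35],[175,0,176],[]⟩ e3_G74 [29,108,109,110,111,28] (by decide +kernel) e3_n115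
theorem e3_n113  : Bd e3_T e3_G73 [29,108,109,27,28] :=
  r_act [33] [29,108,109,110,111,28] (by decide +kernel) e3_n114
theorem e3_n112  : Bd e3_T e3_G72 [29,108,109,27,28] :=
  r_def 27 0 [29] [] ⟨110,[34],[173,0,174],[]⟩ e3_G73 [29,108,109,27,28] (by decide +kernel) e3_n113
theorem e3_n111  : Bd e3_T e3_G72 [29,26,27,28] :=
  r_act [32] [29,108,109,27,28] (by decide +kernel) e3_n112
theorem e3_n110  : Bd e3_T e3_G71 [29,26,27,28] :=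
  r_def 26 0 [29] [] ⟨108,[33],[171,0,172],[]⟩ e3_G72 [29,26,27,28] (by decide +kernel) e3_n111
theorem e3_n109  : Bd e3_T e3_G13 [29,30,31,32,33,34,35,26,27,28] :=
  r_kill [30,31,32,33,34,35] ⟨36,[],[],[]⟩ e3_G71 [29,26,27,28] (by decide +kernel) e3_o45 e3_n110
theorem e3_n108  : Bd e3_T e3_G69 [92,94,102] :=
  r_apply lem_e4 [1,2,3] [] (by decide +kernel) e3_o44
theorem e3_n107  : Bd e3_T e3_G70 [30,103,104,105,106,107] :=
  r_apply lem_D2 [0,0,0,0,0,0] [(30,0xe00000000000000000000000000),(103,0x100000000000000000000000000),(104,0x80000000000000000000000000),(105,0x40000000),(106,0x40000000),(107,0x40000000)] (by decide +kernel) e3_o43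
theorem e3_n106  : Bd e3_T e3_G69 [30,91,93,99,100,101] :=
  r_hit [91,93,99,100,101] e3_h106 ⟨103,[],[161,162,163,164,165,166,167,168,169,170],[]⟩ e3_G70 [30,103,104,105,106,107] (by decide +kernel) e3_o42 e3_n107
theorem e3_n105  : Bd e3_T e3_G69 [30,91,92,93,94,99,100,101,102] :=
  r_split [30,91,93,99,100,101] [92,94,102] (by decide +kernel) e3_o41 e3_n106 e3_n108
theorem e3_n104  : Bd e3_T e3_G69 [30,91,92,93,94,97,98] :=
  r_act [30,31] [30,91,92,93,94,99,100,101,102] (by decide +kernel) e3_n105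
theorem e3_n103  : Bd e3_T e3_G68 [30,91,92,93,94,97,98] :=
  r_def 98 0 [93] [] ⟨101,[32],[159,0,160],[]⟩ e3_G69 [30,91,92,93,94,97,98] (by decide +kernel) e3_n104
theorem e3_n102  : Bd e3_T e3_G67 [30,91,92,93,94,97,98] :=
  r_def 97 0 [93] [] ⟨99,[31],[0,0,158],[]⟩ e3_G68 [30,91,92,93,94,97,98] (by decide +kernel) e3_n103
theorem e3_n101  : Bd e3_T e3_G67 [30,91,92,93,94,95] :=
  r_act [29] [30,91,92,93,94,97,98] (by decide +kernel) e3_n102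
theorem e3_n100  : Bd e3_T e3_G66 [30,91,92,93,94,95] :=
  r_def 95 0 [91] [] ⟨97,[30],[156,0,157],[]⟩ e3_G67 [30,91,92,93,94,95] (by decide +kernel) e3_n101
theorem e3_n99  : Bd e3_T e3_G65 [30,91,92,93,94,95,96] :=
  r_kill [96] ⟨97,[],[],[]⟩ e3_G66 [30,91,92,93,94,95] (by decide +kernel) e3_o40 e3_n100
theorem e3_n98  : Bd e3_T e3_G65 [30,91,92,93,94,28] :=
  r_act [28] [30,91,92,93,94,95,96] (by decide +kernel) e3_n99
theorem e3_n97  : Bd e3_T e3_G64 [30,91,92,93,94,28] :=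
  r_def 28 0 [30] [] ⟨95,[29],[0,0,155],[]⟩ e3_G65 [30,91,92,93,94,28] (by decide +kernel) e3_n98
theorem e3_n96  : Bd e3_T e3_G64 [30,91,92,27,28] :=
  r_act [27] [30,91,92,93,94,28] (by decide +kernel) e3_n97
theorem e3_n95  : Bd e3_T e3_G63 [30,91,92,27,28] :=
  r_def 27 0 [30] [] ⟨93,[28],[153,0,154],[]⟩ e3_G64 [30,91,92,27,28] (by decide +kernel) e3_n96
theorem e3_n94  : Bd e3_T e3_G63 [30,26,27,28] :=
  r_act [26] [30,91,92,27,28] (by decide +kernel) e3_n95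
theorem e3_n93  : Bd e3_T e3_G62 [30,26,27,28] :=
  r_def 26 0 [30] [] ⟨91,[27],[151,0,152],[]⟩ e3_G63 [30,26,27,28] (by decide +kernel) e3_n94
theorem e3_n92  : Bd e3_T e3_G61 [30,90,26,27,28] :=
  r_kill [90] ⟨91,[],[],[]⟩ e3_G62 [30,26,27,28] (by decide +kernel) e3_o39 e3_n93
theorem e3_n91  : Bd e3_T e3_G60 [30,32,26,27,28] :=
  r_hit [32] e3_h91 ⟨90,[],[150],[]⟩ e3_G61 [30,90,26,27,28] (by decide +kernel) e3_o38 e3_n92
theorem e3_n90  : Bd e3_T e3_G16 [30,31,32,33,34,35,26,27,28] :=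
  r_kill [31,33,34,35] ⟨36,[],[],[]⟩ e3_G60 [30,32,26,27,28] (by decide +kernel) e3_o37 e3_n91
theorem e3_n89  : Bd e3_T e3_G58 [76,84,78] :=
  r_apply lem_e4 [1,2,3] [] (by decide +kernel) e3_o36
theorem e3_n88  : Bd e3_T e3_G59 [31,85,87,88,89,86] :=
  r_apply lem_D2 [0,0,0,0,0,0] [(31,0x38000000000000000000000),(85,0x4000000000000000000000),(87,0x80000000),(88,0x80000000),(89,0x80000000),(86,0x2000000000000000000000)] (by decide +kernel) e3_o35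
theorem e3_n87  : Bd e3_T e3_G58 [31,75,81,82,83,77] :=
  r_hit [75,77,81,82,83] e3_h87 ⟨85,[],[136,137,138,139,140,141,142,143,144,145,146,147,148,149],[]⟩ e3_G59 [31,85,87,88,89,86] (by decide +kernel) e3_o34 e3_n88
theorem e3_n86  : Bd e3_T e3_G58 [31,75,76,81,82,83,84,77,78] :=
  r_split [31,75,81,82,83,77] [76,84,78] (by decide +kernel) e3_o33 e3_n87 e3_n89
theorem e3_n85  : Bd e3_T e3_G58 [31,75,76,79,80,77,78] :=
  r_act [24,25] [31,75,76,81,82,83,84,77,78] (by decide +kernel) e3_n86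
theorem e3_n84  : Bd e3_T e3_G57 [31,75,76,79,80,77,78] :=
  r_def 80 0 [77] [] ⟨83,[26],[134,0,135],[]⟩ e3_G58 [31,75,76,79,80,77,78] (by decide +kernel) e3_n85
theorem e3_n83  : Bd e3_T e3_G56 [31,75,76,79,80,77,78] :=
  r_def 79 0 [77] [] ⟨81,[25],[0,0,133],[]⟩ e3_G57 [31,75,76,79,80,77,78] (by decide +kernel) e3_n84
theorem e3_n82  : Bd e3_T e3_G56 [31,75,76,27,77,78] :=
  r_act [23] [31,75,76,79,80,77,78] (by decide +kernel) e3_n83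
theorem e3_n81  : Bd e3_T e3_G55 [31,75,76,27,77,78] :=
  r_def 27 0 [75] [] ⟨79,[24],[131,0,132],[]⟩ e3_G56 [31,75,76,27,77,78] (by decide +kernel) e3_n82
theorem e3_n80  : Bd e3_T e3_G55 [31,75,76,27,28] :=
  r_act [22] [31,75,76,27,77,78] (by decide +kernel) e3_n81
theorem e3_n79  : Bd e3_T e3_G54 [31,75,76,27,28] :=
  r_def 28 0 [31] [] ⟨77,[23],[129,0,130],[]⟩ e3_G55 [31,75,76,27,28] (by decide +kernel) e3_n80
theorem e3_n78  : Bd e3_T e3_G54 [31,26,27,28] :=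
  r_act [21] [31,75,76,27,28] (by decide +kernel) e3_n79
theorem e3_n77  : Bd e3_T e3_G53 [31,26,27,28] :=
  r_def 26 0 [31] [] ⟨75,[22],[127,0,128],[]⟩ e3_G54 [31,26,27,28] (by decide +kernel) e3_n78
theorem e3_n76  : Bd e3_T e3_G52 [31,74,26,27,28] :=
  r_kill [74] ⟨75,[],[],[]⟩ e3_G53 [31,26,27,28] (by decide +kernel) e3_o32 e3_n77
theorem e3_n75  : Bd e3_T e3_G51 [31,32,26,27,28] :=
  r_hit [32] e3_h75 ⟨74,[],[126],[]⟩ e3_G52 [31,74,26,27,28] (by decide +kernel) e3_o31 e3_n76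
theorem e3_n74  : Bd e3_T e3_G19 [31,32,33,34,35,26,27,28] :=
  r_kill [33,34,35] ⟨36,[],[],[]⟩ e3_G51 [31,32,26,27,28] (by decide +kernel) e3_o30 e3_n75
theorem e3_n73  : Bd e3_T e3_G50 [69,71,73] :=
  r_apply lem_d [0,0,0] [] (by decide +kernel) e3_o29
theorem e3_n72  : Bd e3_T e3_G50 [32,68,70,72] :=
  r_apply lem_d [0,0,0,0] [(32,0x1400000000000000000),(70,0x100000000),(72,0x100000000)] (by decide +kernel) e3_o28
theorem e3_n71  : Bd e3_T e3_G50 [32,68,69,70,71,72,73] :=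
  r_split [32,68,70,72] [69,71,73] (by decide +kernel) e3_o27 e3_n72 e3_n73
theorem e3_n70  : Bd e3_T e3_G50 [32,68,69,70,71,28] :=
  r_act [20] [32,68,69,70,71,72,73] (by decide +kernel) e3_n71
theorem e3_n69  : Bd e3_T e3_G49 [32,68,69,70,71,28] :=
  r_def 28 0 [68] [] ⟨72,[21],[124,0,125],[]⟩ e3_G50 [32,68,69,70,71,28] (by decide +kernel) e3_n70
theorem e3_n68  : Bd e3_T e3_G49 [32,68,69,27,28] :=
  r_act [19] [32,68,69,70,71,28] (by decide +kernel) e3_n69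
theorem e3_n67  : Bd e3_T e3_G48 [32,68,69,27,28] :=
  r_def 27 0 [68] [] ⟨70,[20],[122,0,123],[]⟩ e3_G49 [32,68,69,27,28] (by decide +kernel) e3_n68
theorem e3_n66  : Bd e3_T e3_G48 [32,26,27,28] :=
  r_act [18] [32,68,69,27,28] (by decide +kernel) e3_n67
theorem e3_n65  : Bd e3_T e3_G47 [32,26,27,28] :=
  r_def 26 0 [32] [] ⟨68,[19],[120,0,121],[]⟩ e3_G48 [32,26,27,28] (by decide +kernel) e3_n66
theorem e3_n64  : Bd e3_T e3_G22 [32,33,34,35,26,27,28] :=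
  r_kill [33,34,35] ⟨36,[],[],[]⟩ e3_G47 [32,26,27,28] (by decide +kernel) e3_o26 e3_n65
theorem e3_n63  : Bd e3_T e3_G45 [62,54,56] :=
  r_apply lem_e4 [1,2,3] [] (by decide +kernel) e3_o25
theorem e3_n62  : Bd e3_T e3_G46 [38,65,66,67,63,64] :=
  r_apply lem_D2 [0,0,0,0,0,0] [(38,0xe0000000000000000),(65,0x4000000000),(66,0x4000000000),(67,0x4000000000),(63,0x10000000000000000),(64,0x8000000000000000)] (by decide +kernel) e3_o24
theorem e3_n61  : Bd e3_T e3_G45 [38,59,60,61,53,55] :=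
  r_hit [53,55,59,60,61] e3_h61 ⟨63,[],[106,107,108,109,110,111,112,113,114,115,116,117,118,119],[]⟩ e3_G46 [38,65,66,67,63,64] (by decide +kernel) e3_o23 e3_n62
theorem e3_n60  : Bd e3_T e3_G45 [38,59,60,61,62,53,54,55,56] :=
  r_split [38,59,60,61,53,55] [62,54,56] (by decide +kernel) e3_o22 e3_n61 e3_n63
theorem e3_n59  : Bd e3_T e3_G45 [38,57,58,53,54,55,56] :=
  r_act [16,17] [38,59,60,61,62,53,54,55,56] (by decide +kernel) e3_n60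
theorem e3_n58  : Bd e3_T e3_G44 [38,57,58,53,54,55,56] :=
  r_def 58 0 [55] [] ⟨61,[18],[104,0,105],[]⟩ e3_G45 [38,57,58,53,54,55,56] (by decide +kernel) e3_n59
theorem e3_n57  : Bd e3_T e3_G43 [38,57,58,53,54,55,56] :=
  r_def 57 0 [55] [] ⟨59,[17],[0,0,103],[]⟩ e3_G44 [38,57,58,53,54,55,56] (by decide +kernel) e3_n58
theorem e3_n56  : Bd e3_T e3_G43 [38,36,53,54,55,56] :=
  r_act [15] [38,57,58,53,54,55,56] (by decide +kernel) e3_n57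
theorem e3_n55  : Bd e3_T e3_G42 [38,36,53,54,55,56] :=
  r_def 36 0 [53] [] ⟨57,[16],[101,0,102],[]⟩ e3_G43 [38,36,53,54,55,56] (by decide +kernel) e3_n56
theorem e3_n54  : Bd e3_T e3_G42 [38,36,53,54,37] :=
  r_act [14] [38,36,53,54,55,56] (by decide +kernel) e3_n55
theorem e3_n53  : Bd e3_T e3_G41 [38,36,53,54,37] :=
  r_def 37 0 [38] [] ⟨55,[15],[99,0,100],[]⟩ e3_G42 [38,36,53,54,37] (by decide +kernel) e3_n54
theorem e3_n52  : Bd e3_T e3_G41 [38,36,27,37] :=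
  r_act [13] [38,36,53,54,37] (by decide +kernel) e3_n53
theorem e3_n51  : Bd e3_T e3_G40 [38,36,27,37] :=
  r_def 27 0 [38] [] ⟨53,[14],[97,0,98],[]⟩ e3_G41 [38,36,27,37] (by decide +kernel) e3_n52
theorem e3_n50  : Bd e3_T e3_G39 [38,52,36,27,37] :=
  r_kill [52] ⟨53,[],[],[]⟩ e3_G40 [38,36,27,37] (by decide +kernel) e3_o21 e3_n51
theorem e3_n49  : Bd e3_T e3_G38 [38,39,36,27,37] :=
  r_hit [39] e3_h49 ⟨52,[],[96],[]⟩ e3_G39 [38,52,36,27,37] (by decide +kernel) e3_o20 e3_n50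
theorem e3_n48  : Bd e3_T e3_G26 [38,39,35,36,27,37] :=
  r_kill [35] ⟨40,[],[],[]⟩ e3_G38 [38,39,36,27,37] (by decide +kernel) e3_o19 e3_n49
theorem e3_n47  : Bd e3_T e3_G37 [49,47,51] :=
  r_apply lem_d [0,0,0] [] (by decide +kernel) e3_o18
theorem e3_n46  : Bd e3_T e3_G37 [39,48,46,50] :=
  r_apply lem_d [0,0,0,0] [(39,0x5000000000000),(48,0x8000000000),(50,0x8000000000)] (by decide +kernel) e3_o17
theorem e3_n45  : Bd e3_T e3_G37 [39,48,49,46,47,50,51] :=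
  r_split [39,48,46,50] [49,47,51] (by decide +kernel) e3_o16 e3_n46 e3_n47
theorem e3_n44  : Bd e3_T e3_G37 [39,48,49,46,47,37] :=
  r_act [12] [39,48,49,46,47,50,51] (by decide +kernel) e3_n45
theorem e3_n43  : Bd e3_T e3_G36 [39,48,49,46,47,37] :=
  r_def 37 0 [46] [] ⟨50,[13],[94,0,95],[]⟩ e3_G37 [39,48,49,46,47,37] (by decide +kernel) e3_n44
theorem e3_n42  : Bd e3_T e3_G36 [39,36,46,47,37] :=
  r_act [11] [39,48,49,46,47,37] (by decide +kernel) e3_n43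
theorem e3_n41  : Bd e3_T e3_G35 [39,36,46,47,37] :=
  r_def 36 0 [46] [] ⟨48,[12],[92,0,93],[]⟩ e3_G36 [39,36,46,47,37] (by decide +kernel) e3_n42
theorem e3_n40  : Bd e3_T e3_G35 [39,36,27,37] :=
  r_act [10] [39,36,46,47,37] (by decide +kernel) e3_n41
theorem e3_n39  : Bd e3_T e3_G34 [39,36,27,37] :=
  r_def 27 0 [39] [] ⟨46,[11],[90,0,91],[]⟩ e3_G35 [39,36,27,37] (by decide +kernel) e3_n40
theorem e3_n38  : Bd e3_T e3_G29 [39,35,36,27,37] :=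
  r_kill [35] ⟨40,[],[],[]⟩ e3_G34 [39,36,27,37] (by decide +kernel) e3_o15 e3_n39
theorem e3_n37  : Bd e3_T e3_G33 [43,45,41] :=
  r_apply lem_e4 [1,2,3] [] (by decide +kernel) e3_o14
theorem e3_n36  : Bd e3_T e3_G33 [35,42,44,40] :=
  r_apply lem_d [0,0,0,0] [(35,0x140000000000),(42,0x800000000),(44,0x800000000)] (by decide +kernel) e3_o13
theorem e3_n35  : Bd e3_T e3_G33 [35,42,43,44,45,40,41] :=
  r_split [35,42,44,40] [43,45,41] (by decide +kernel) e3_o12 e3_n36 e3_n37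
theorem e3_n34  : Bd e3_T e3_G33 [35,42,43,27,40,41] :=
  r_act [9] [35,42,43,44,45,40,41] (by decide +kernel) e3_n35
theorem e3_n33  : Bd e3_T e3_G32 [35,42,43,27,40,41] :=
  r_def 27 0 [40] [] ⟨44,[10],[88,0,89],[]⟩ e3_G33 [35,42,43,27,40,41] (by decide +kernel) e3_n34
theorem e3_n32  : Bd e3_T e3_G32 [35,36,27,40,41] :=
  r_act [8] [35,42,43,27,40,41] (by decide +kernel) e3_n33
theorem e3_n31  : Bd e3_T e3_G31 [35,36,27,40,41] :=
  r_def 36 0 [40] [] ⟨42,[9],[86,0,87],[]⟩ e3_G32 [35,36,27,40,41] (by decide +kernel) e3_n32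
theorem e3_n30  : Bd e3_T e3_G31 [35,36,27,37] :=
  r_act [7] [35,36,27,40,41] (by decide +kernel) e3_n31
theorem e3_n29  : Bd e3_T e3_G30 [35,36,27,37] :=
  r_def 37 0 [35] [] ⟨40,[8],[84,0,85],[]⟩ e3_G31 [35,36,27,37] (by decide +kernel) e3_n30
theorem e3_n28  : Bd e3_T e3_G28 [39,35,36,27,37] :=
  r_kill [39] ⟨40,[],[],[]⟩ e3_G30 [35,36,27,37] (by decide +kernel) e3_o11 e3_n29
theorem e3_n27  : Bd e3_T e3_G27 [39,35,36,27,37] :=
  r_ex 39 0 ⟨40,[],[82],[]⟩ e3_G28 [39,35,36,27,37] ⟨40,[],[83],[]⟩ e3_G29 [39,35,36,27,37] (by decide +kernel) e3_n28 e3_n38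
theorem e3_n26  : Bd e3_T e3_G25 [38,39,35,36,27,37] :=
  r_kill [38] ⟨40,[],[],[]⟩ e3_G27 [39,35,36,27,37] (by decide +kernel) e3_o10 e3_n27
theorem e3_n25  : Bd e3_T e3_G24 [38,39,35,36,27,37] :=
  r_ex 38 0 ⟨40,[],[80],[]⟩ e3_G25 [38,39,35,36,27,37] ⟨40,[],[81],[]⟩ e3_G26 [38,39,35,36,27,37] (by decide +kernel) e3_n26 e3_n48
theorem e3_n24  : Bd e3_T e3_G23 [32,38,39,35,36,27,37] :=
  r_kill [32] ⟨40,[],[],[]⟩ e3_G24 [38,39,35,36,27,37] (by decide +kernel) e3_o9 e3_n25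
theorem e3_n23  : Bd e3_T e3_G21 [32,33,34,35,26,27,28] :=
  r_hit [26,28,33,34] e3_h23 ⟨36,[],[],[]⟩ e3_G23 [32,38,39,35,36,27,37] (by decide +kernel) e3_o8 e3_n24
theorem e3_n22  : Bd e3_T e3_G20 [32,33,34,35,26,27,28] :=
  r_ex 32 0 ⟨36,[],[78],[]⟩ e3_G21 [32,33,34,35,26,27,28] ⟨36,[],[79],[]⟩ e3_G22 [32,33,34,35,26,27,28] (by decide +kernel) e3_n23 e3_n64
theorem e3_n21  : Bd e3_T e3_G18 [31,32,33,34,35,26,27,28] :=
  r_kill [31] ⟨36,[],[],[]⟩ e3_G20 [32,33,34,35,26,27,28] (by decide +kernel) e3_o7 e3_n22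
theorem e3_n20  : Bd e3_T e3_G17 [31,32,33,34,35,26,27,28] :=
  r_ex 31 0 ⟨36,[],[76],[]⟩ e3_G18 [31,32,33,34,35,26,27,28] ⟨36,[],[77],[]⟩ e3_G19 [31,32,33,34,35,26,27,28] (by decide +kernel) e3_n21 e3_n74
theorem e3_n19  : Bd e3_T e3_G15 [30,31,32,33,34,35,26,27,28] :=
  r_kill [30] ⟨36,[],[],[]⟩ e3_G17 [31,32,33,34,35,26,27,28] (by decide +kernel) e3_o6 e3_n20
theorem e3_n18  : Bd e3_T e3_G14 [30,31,32,33,34,35,26,27,28] :=
  r_ex 30 0 ⟨36,[],[74],[]⟩ e3_G15 [30,31,32,33,34,35,26,27,28] ⟨36,[],[75],[]⟩ e3_G16 [30,31,32,33,34,35,26,27,28] (by decide +kernel) e3_n19 e3_n90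
theorem e3_n17  : Bd e3_T e3_G12 [29,30,31,32,33,34,35,26,27,28] :=
  r_kill [29] ⟨36,[],[],[]⟩ e3_G14 [30,31,32,33,34,35,26,27,28] (by decide +kernel) e3_o5 e3_n18
theorem e3_n16  : Bd e3_T e3_G11 [29,30,31,32,33,34,35,26,27,28] :=
  r_ex 29 0 ⟨36,[],[72],[]⟩ e3_G12 [29,30,31,32,33,34,35,26,27,28] ⟨36,[],[73],[]⟩ e3_G13 [29,30,31,32,33,34,35,26,27,28] (by decide +kernel) e3_n17 e3_n109
theorem e3_n15  : Bd e3_T e3_G10 [19,20,21,22,23,24,25,2,3,4] :=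
  r_hit [2,3,4,19,20,21,22,23,24,25] e3_h15 ⟨26,[],[54,55,56,57,58,0,0,0,59,60,61,0,0,0,62,63,64,65,66,0,0,67,68,69,70,71],[]⟩ e3_G11 [29,30,31,32,33,34,35,26,27,28] (by decide +kernel) e3_o4 e3_n16
theorem e3_n14  : Bd e3_T e3_G9 [11,12,13,14,15,16,17,2,3,4] :=
  r_hit [11,12,13,14,15,16,17] e3_h14 ⟨19,[],[36,37,38,39,40,41,42,43,44,45,46,47,48,49,50,51,52,53],[]⟩ e3_G10 [19,20,21,22,23,24,25,2,3,4] (by decide +kernel) e3_o3 e3_n15
theorem e3_n13  : Bd e3_T e3_G9 [11,12,13,14,15,16,17,18,2,3,4] :=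
  r_split [11,12,13,14,15,16,17,2,3,4] [18] (by decide +kernel) e3_o2 e3_n14 e3_n130
theorem e3_n12  : Bd e3_T e3_G9 [7,8,9,10,2,3,4] :=
  r_act [3,4,5,6] [11,12,13,14,15,16,17,18,2,3,4] (by decide +kernel) e3_n13
theorem e3_n11  : Bd e3_T e3_G8 [7,8,9,10,2,3,4] :=
  r_def 10 0 [] [4] ⟨17,[7],[34,35],[]⟩ e3_G9 [7,8,9,10,2,3,4] (by decide +kernel) e3_n12
theorem e3_n10  : Bd e3_T e3_G7 [7,8,9,10,2,3,4] :=
  r_def 9 0 [] [4] ⟨15,[6],[32,33],[]⟩ e3_G8 [7,8,9,10,2,3,4] (by decide +kernel) e3_n11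
theorem e3_n9  : Bd e3_T e3_G6 [7,8,9,10,2,3,4] :=
  r_def 8 0 [] [4] ⟨13,[5],[30,31],[]⟩ e3_G7 [7,8,9,10,2,3,4] (by decide +kernel) e3_n10
theorem e3_n8  : Bd e3_T e3_G5 [7,8,9,10,2,3,4] :=
  r_def 7 0 [] [4] ⟨11,[4],[28,29],[]⟩ e3_G6 [7,8,9,10,2,3,4] (by decide +kernel) e3_n9
theorem e3_n7  : Bd e3_T e3_G5 [5,6,2,3,4] :=
  r_act [1,2] [7,8,9,10,2,3,4] (by decide +kernel) e3_n8
theorem e3_n6  : Bd e3_T e3_G4 [5,6,2,3,4] :=
  r_def 6 0 [] [3] ⟨9,[3],[26,27],[]⟩ e3_G5 [5,6,2,3,4] (by decide +kernel) e3_n7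
theorem e3_n5  : Bd e3_T e3_G3 [5,6,2,3,4] :=
  r_def 5 0 [] [3] ⟨7,[2],[24,25],[]⟩ e3_G4 [5,6,2,3,4] (by decide +kernel) e3_n6
theorem e3_n4  : Bd e3_T e3_G3 [1,2,3,4] :=
  r_act [0] [5,6,2,3,4] (by decide +kernel) e3_n5
theorem e3_n3  : Bd e3_T e3_G1 [1,2,3,4] :=
  r_def 1 0 [] [2] ⟨5,[1],[22,23],[]⟩ e3_G3 [1,2,3,4] (by decide +kernel) e3_n4
theorem e3_n2  : Bd e3_T e3_G2 [2,3,4] :=
  r_apply lem_e4 [1,2,3] [] (by decide +kernel) e3_o1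
theorem e3_n1  : Bd e3_T e3_G0 [1,2,3,4] :=
  r_kill [1] ⟨5,[],[],[]⟩ e3_G2 [2,3,4] (by decide +kernel) e3_o0 e3_n2
theorem e3_n0  : Bd e3_T (pureCtx 4 20) (pureAct 4) :=
  show Bd _ _ [1,2,3,4] from r_ex 1 0 ⟨5,[],[21],[]⟩ e3_G0 [1,2,3,4] ⟨5,[],[],[]⟩ e3_G1 [1,2,3,4] (by decide +kernel) e3_n1 e3_n3
theorem lem_e3  : Lem e3_T 4 20 := ⟨by decide +kernel, e3_n0⟩

end Pool.Agent.Lib.MP_849b2e_co
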