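import Pool.Agent.Lib.MP_849b2e_co.Rules

set_option maxRecDepth 100000
set_option linter.all false
namespace Pool.Agent.Lib.MP_849b2e_co

noncomputable def e5_ty : Tr Ty := (Tr.br (Tr.br (Tr.br (Tr.br (Tr.br (Tr.br (Tr.leaf ⟨1,0,0,0,0⟩) (Tr.leaf ⟨0x108000009,0x10000006,0,1,0⟩)) (Tr.br (Tr.leaf ⟨82435,0x2800c,0,0,0⟩) (Tr.leaf ⟨0x1000004000005,0x200000000000a,0,4,3⟩))) (Tr.br (Tr.br (Tr.leaf ⟨329,134,0,0,3⟩) (Tr.leaf ⟨0x12080000003,0x2100000000c,0,0,0⟩)) (Tr.leaf ⟨0x1000825,0x200001a,1,0,0⟩)))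
 (Tr.br (Tr.br (Tr.br (Tr.leaf ⟨21,42,0,1,0⟩) (Tr.leaf ⟨0x1080000003,0x200000000c,0,0,0⟩)) (Tr.leaf ⟨0x102149,0x200086,0,0,3⟩)) (Tr.br (Tr.br (Tr.leaf ⟨4297,262,0,0,3⟩) (Tr.leaf ⟨0x100108000009,0x200010000006,0,1,0⟩)) (Tr.leaf ⟨0x10000009,0x8000006,1,0,0⟩)))
)
 (Tr.br (Tr.br (Tr.br (Tr.br (Tr.leaf ⟨5,10,0,0,0⟩) (Tr.leaf ⟨0x424000005,0x4000000a,0,0,3⟩)) (Tr.br (Tr.leaf ⟨0x48203,0x8400c,0,0,0⟩) (Tr.leaf ⟨0x4000008000009,0x10000006,0,1,12⟩))) (Tr.br (Tr.br (Tr.leaf ⟨1045,42,0,1,0⟩) (Tr.leaf ⟨0x40844000005,0x8002000000a,0,0,3⟩)) (Tr.leaf ⟨0x4000005,10,0,0,3⟩)))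
 (Tr.br (Tr.br (Tr.br (Tr.leaf ⟨73,6,0,0,3⟩) (Tr.leaf ⟨0x5080000003,0xa00000000c,0,0,0⟩)) (Tr.leaf ⟨0x400415,0x80002a,0,1,0⟩)) (Tr.br (Tr.br (Tr.leaf ⟨16899,32780,0,0,0⟩) (Tr.leaf ⟨0x400210000009,0x800008000006,1,0,0⟩)) (Tr.leaf ⟨0x44000005,0x2000000a,0,0,3⟩)))
)
)
 (Tr.br (Tr.br (Tr.br (Tr.br (Tr.br (Tr.leaf ⟨3,12,0,0,0⟩) (Tr.leaf ⟨0x210000009,0x8000006,1,0,0⟩)) (Tr.br (Tr.leaf ⟨0x24203,98316,0,0,0⟩) (Tr.leaf ⟨0x2000004000005,0x100000000000a,4,0,3⟩))) (Tr.br (Tr.br (Tr.leaf ⟨515,12,0,0,0⟩) (Tr.leaf ⟨0x22080000003,0x1100000000c,0,0,0⟩)) (Tr.leaf ⟨0x2000825,0x100001a,1,0,0⟩)))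
 (Tr.br (Tr.br (Tr.br (Tr.leaf ⟨37,26,1,0,0⟩) (Tr.leaf ⟨0x2080000003,0x100000000c,0,0,0⟩)) (Tr.leaf ⟨0x202149,0x100086,0,0,3⟩)) (Tr.br (Tr.br (Tr.leaf ⟨8521,134,0,0,3⟩) (Tr.leaf ⟨0x200108000009,0x100010000006,0,1,0⟩)) (Tr.leaf ⟨0x24000005,0x4000000a,0,0,3⟩)))
)
 (Tr.br (Tr.br (Tr.br (Tr.br (Tr.leaf ⟨9,6,0,0,0⟩) (Tr.leaf ⟨0x844000005,0x2000000a,0,0,3⟩)) (Tr.br (Tr.leaf ⟨0x88203,0x4400c,0,0,0⟩) (Tr.leaf ⟨0x8000010000009,0x8000006,1,0,12⟩))) (Tr.br (Tr.br (Tr.leaf ⟨2085,26,1,0,0⟩) (Tr.leaf ⟨0x80844000005,0x4002000000a,0,0,3⟩)) (Tr.leaf ⟨0x8000009,0x10000006,0,1,0⟩)))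
 (Tr.br (Tr.br (Tr.br (Tr.leaf ⟨201,262,0,0,3⟩) (Tr.leaf ⟨0x9080000003,0x600000000c,0,0,0⟩)) (Tr.leaf ⟨0x800415,0x40002a,0,1,0⟩)) (Tr.br (Tr.br (Tr.leaf ⟨33283,16396,0,0,0⟩) (Tr.leaf ⟨0x800210000009,0x400008000006,1,0,0⟩)) (Tr.leaf ⟨0x80000003,12,0,0,0⟩)))
)
)
)

noncomputable def e5_ev : Tr Ev := (Tr.br (Tr.br (Tr.br (Tr.br (Tr.br (Tr.leaf ⟨2,[4,5],0⟩) (Tr.leaf ⟨32,[44,45],0⟩)) (Tr.leaf ⟨11,[24,25],0⟩))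
 (Tr.br (Tr.br (Tr.leaf ⟨14,[16,17],0⟩) (Tr.leaf ⟨28,[51],12⟩)) (Tr.leaf ⟨31,[36,37],0⟩))
)
 (Tr.br (Tr.br (Tr.br (Tr.leaf ⟨6,[7,8],0⟩) (Tr.leaf ⟨26,[48,49],0⟩)) (Tr.leaf ⟨3,[27,28],0⟩))
 (Tr.br (Tr.leaf ⟨13,[20,21],0⟩) (Tr.leaf ⟨37,[40,41],0⟩))
)
)
 (Tr.br (Tr.br (Tr.br (Tr.br (Tr.leaf ⟨3,[6],3⟩) (Tr.leaf ⟨33,[46,47],0⟩)) (Tr.leaf ⟨2,[26],3⟩))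
 (Tr.br (Tr.leaf ⟨15,[18,19],0⟩) (Tr.leaf ⟨36,[38,39],0⟩))
)
 (Tr.br (Tr.br (Tr.br (Tr.leaf ⟨9,[14,15],0⟩) (Tr.leaf ⟨27,[50],12⟩)) (Tr.leaf ⟨26,[29,30],0⟩))
 (Tr.br (Tr.leaf ⟨10,[22,23],0⟩) (Tr.leaf ⟨35,[42,43],0⟩))
)
)
)

noncomputable def e5_ax : Tr Ax := (Tr.br (Tr.br (Tr.br (Tr.br (Tr.br (Tr.br (Tr.leaf ⟨[1,1,1,1],[⟨0,1,true⟩,⟨0,2,true⟩,⟨0,3,false⟩,⟨1,2,true⟩,⟨1,3,true⟩,⟨2,3,true⟩],[],0⟩) (Tr.leaf ⟨[0x100000],[],[⟨16,[(0,true)]⟩,⟨17,[(0,true)]⟩,⟨18,[(0,true)]⟩],0⟩)) (Tr.br (Tr.leaf ⟨[10,10,10,4],[⟨0,1,false⟩,⟨0,2,false⟩,⟨0,3,false⟩,⟨1,2,true⟩,⟨1,3,false⟩,⟨2,3,false⟩],[],0⟩) (Tr.leaf ⟨[0x2000000000,0x100000000],[⟨0,1,true⟩],[],0⟩))) (Tr.br (Tr.br (Tr.leaf ⟨[2,8,8],[⟨0,1,true⟩,⟨0,2,false⟩,⟨1,2,true⟩],[],0⟩)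 (Tr.leaf ⟨[0x8000000,0x10000000],[⟨0,1,true⟩],[],0⟩)) (Tr.br (Tr.leaf ⟨[1024,2048,8192],[⟨0,1,false⟩,⟨0,2,true⟩,⟨1,2,false⟩],[],0⟩) (Tr.leaf ⟨[0x200000000000,0x40000000000],[⟨0,1,true⟩],[],0⟩))))
 (Tr.br (Tr.br (Tr.br (Tr.leaf ⟨[10,4,4],[⟨0,1,true⟩,⟨0,2,true⟩,⟨1,2,true⟩],[],0⟩) (Tr.leaf ⟨[0x1000000],[],[⟨20,[(0,true)]⟩],0⟩)) (Tr.br (Tr.leaf ⟨[128],[],[⟨6,[(0,true)]⟩],0⟩) (Tr.leaf ⟨[0x20000000000,0x200000000],[⟨0,1,true⟩],[],0⟩))) (Tr.br (Tr.br (Tr.leaf ⟨[8,8,8],[⟨0,2,true⟩,⟨1,2,true⟩],[],0⟩) (Tr.leaf ⟨[0x80000000,0x100000000,0x200000000],[⟨0,1,false⟩,⟨0,2,true⟩,⟨1,2,false⟩],[],0⟩)) (Tr.leaf ⟨[65536],[],[⟨11,[(0,true)]⟩],0⟩)))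
)
 (Tr.br (Tr.br (Tr.br (Tr.br (Tr.leaf ⟨[2,2],[⟨0,1,true⟩],[],0⟩) (Tr.leaf ⟨[0x400000],[],[⟨20,[(0,true)]⟩],0⟩)) (Tr.br (Tr.leaf ⟨[4,4],[⟨0,1,true⟩],[],0⟩) (Tr.leaf ⟨[0x8000000000,0x200000000],[⟨0,1,true⟩],[],0⟩))) (Tr.br (Tr.br (Tr.leaf ⟨[4,8,8],[⟨0,1,false⟩,⟨0,2,false⟩,⟨1,2,true⟩],[],0⟩) (Tr.leaf ⟨[0x40000000,0x4000000],[⟨0,1,true⟩],[],0⟩)) (Tr.br (Tr.leaf ⟨[16384],[],[⟨10,[(0,true)]⟩],0⟩) (Tr.leaf ⟨[0x800000000000,0x40000000000],[⟨0,1,true⟩],[],0⟩))))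
 (Tr.br (Tr.br (Tr.br (Tr.leaf ⟨[4,4,4],[⟨0,1,true⟩,⟨0,2,false⟩,⟨1,2,true⟩],[],0⟩) (Tr.leaf ⟨[0x20000],[],[],0⟩)) (Tr.br (Tr.leaf ⟨[512,1024,2048],[⟨0,1,true⟩,⟨0,2,false⟩,⟨1,2,false⟩],[],0⟩) (Tr.leaf ⟨[0x80000000000,0x1c000000000],[⟨0,1,true⟩],[],0⟩))) (Tr.br (Tr.br (Tr.leaf ⟨[10,10,10,10],[⟨0,1,false⟩,⟨0,2,false⟩,⟨0,3,false⟩,⟨1,2,true⟩,⟨1,3,false⟩,⟨2,3,true⟩],[],0⟩) (Tr.leaf ⟨[0x800000000,0x100000000,0x200000000],[⟨0,1,false⟩,⟨0,2,true⟩,⟨1,2,false⟩],[],0⟩)) (Tr.leaf ⟨[0x40000],[],[⟨11,[(0,true)]⟩],0⟩)))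
)
)
 (Tr.br (Tr.br (Tr.br (Tr.br (Tr.br (Tr.leaf ⟨[1,1,1,1,1,1],[⟨0,1,false⟩,⟨0,2,false⟩,⟨0,3,false⟩,⟨0,4,false⟩,⟨0,5,false⟩,⟨1,2,true⟩,⟨1,3,false⟩,⟨1,4,false⟩,⟨1,5,false⟩,⟨2,3,false⟩,⟨2,4,false⟩,⟨2,5,false⟩,⟨3,4,true⟩,⟨3,5,false⟩,⟨4,5,true⟩],[],0⟩) (Tr.leaf ⟨[0x200000,0x70000],[⟨0,1,true⟩],[],0⟩)) (Tr.br (Tr.leaf ⟨[1,1,1,1,1],[⟨0,1,true⟩,⟨0,2,false⟩,⟨0,3,false⟩,⟨0,4,false⟩,⟨1,2,false⟩,⟨1,3,false⟩,⟨1,4,false⟩,⟨2,3,true⟩,⟨2,4,false⟩,⟨3,4,true⟩],[],0⟩) (Tr.leaf ⟨[0x4000000000],[],[⟨33,[(0,true)]⟩],0⟩))) (Tr.br (Tr.br (Tr.leaf ⟨[4,4,8],[⟨0,1,true⟩,⟨0,2,false⟩,⟨1,2,false⟩],[],0⟩) (Tr.leaf ⟨[0x20000000],[],[⟨26,[(0,true)]⟩],0⟩)) (Tr.br (Tr.leaf ⟨[1024,2048,8192],[⟨0,1,false⟩,⟨0,2,false⟩,⟨1,2,true⟩],[],0⟩)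 (Tr.leaf ⟨[0x400000000000],[],[⟨42,[(0,true)]⟩],0⟩))))
 (Tr.br (Tr.br (Tr.br (Tr.leaf ⟨[8,8,8],[⟨0,1,true⟩,⟨0,2,false⟩,⟨1,2,true⟩],[],0⟩) (Tr.leaf ⟨[0x2000000,0x100000],[⟨0,1,true⟩],[],0⟩)) (Tr.br (Tr.leaf ⟨[256,64],[⟨0,1,true⟩],[],0⟩) (Tr.leaf ⟨[0x40000000000],[],[⟨38,[(0,true)]⟩,⟨39,[(0,true)]⟩,⟨40,[(0,true)]⟩],0⟩))) (Tr.br (Tr.br (Tr.leaf ⟨[6,6,6,6],[⟨0,1,false⟩,⟨0,2,false⟩,⟨0,3,false⟩,⟨1,2,true⟩,⟨1,3,false⟩,⟨2,3,true⟩],[],0⟩) (Tr.leaf ⟨[0x800000000,0x100000000,0x200000000],[⟨0,1,true⟩,⟨0,2,false⟩,⟨1,2,false⟩],[],0⟩)) (Tr.leaf ⟨[0x20000,2048],[⟨0,1,true⟩],[],0⟩)))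
)
 (Tr.br (Tr.br (Tr.br (Tr.br (Tr.leaf ⟨[6,8,8],[⟨0,1,true⟩,⟨0,2,true⟩,⟨1,2,true⟩],[],0⟩) (Tr.leaf ⟨[0x800000,0x100000],[⟨0,1,true⟩],[],0⟩)) (Tr.br (Tr.leaf ⟨[8,8],[⟨0,1,true⟩],[],0⟩) (Tr.leaf ⟨[0x10000000000],[],[⟨33,[(0,true)]⟩],0⟩))) (Tr.br (Tr.br (Tr.leaf ⟨[4,4,4],[⟨0,2,true⟩,⟨1,2,true⟩],[],0⟩) (Tr.leaf ⟨[0x80000000,0x100000000,0x200000000],[⟨0,1,true⟩,⟨0,2,false⟩,⟨1,2,false⟩],[],0⟩)) (Tr.leaf ⟨[32768,1024],[⟨0,1,true⟩],[],0⟩)))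
 (Tr.br (Tr.br (Tr.br (Tr.leaf ⟨[2,4,4],[⟨0,1,true⟩,⟨0,2,false⟩,⟨1,2,true⟩],[],0⟩) (Tr.leaf ⟨[],[],[⟨17,[]⟩],0⟩)) (Tr.br (Tr.leaf ⟨[512,1024,2048],[⟨0,1,false⟩,⟨0,2,true⟩,⟨1,2,false⟩],[],0⟩) (Tr.leaf ⟨[0x100000000000],[],[⟨42,[(0,true)]⟩],0⟩))) (Tr.br (Tr.br (Tr.leaf ⟨[6,6,6,8],[⟨0,1,false⟩,⟨0,2,false⟩,⟨0,3,false⟩,⟨1,2,true⟩,⟨1,3,false⟩,⟨2,3,false⟩],[],0⟩) (Tr.leaf ⟨[0x1000000000],[],[⟨32,[(0,true)]⟩],0⟩)) (Tr.leaf ⟨[0x80000,2048],[⟨0,1,true⟩],[],0⟩)))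
)
)
)

noncomputable def e5_sc : Tr Sc := (Tr.leaf ⟨[],[]⟩)
noncomputable def e5_T : Tab := ⟨52,e5_ty,e5_ev,e5_ax,e5_sc⟩
def e5_S0 : St := ⟨0,0,0,0,0⟩
def e5_G0 : Ctx := ⟨4,0,0x7ffff,0,0,e5_S0,none⟩
def e5_S1 : St := ⟨2,0x50000000000005,0x100000000000000000000000000000002,0,3⟩
def e5_G1 : Ctx := ⟨4,0,0x3ffff,0,0,e5_S1,none⟩
def e5_G2 : Ctx := ⟨4,0,0xfffff,0,0,e5_S0,none⟩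
def e5_S2 : St := ⟨2,0x90000000000009,0x100000000000000000000000000000002,0,3⟩
def e5_G3 : Ctx := ⟨4,0,0x7ffff,0,0,e5_S2,none⟩
def e5_G4 : Ctx := ⟨6,1,0x7ffff,0,0,e5_S2,none⟩
def e5_G5 : Ctx := ⟨7,3,0x7ffff,0,0,e5_S2,none⟩
def e5_G6 : Ctx := ⟨9,7,0x37ffff,0,0,e5_S2,none⟩
def e5_G7 : Ctx := ⟨14,7,0x3f7ffff,0,0,e5_S2,none⟩
def e5_G8 : Ctx := ⟨16,15,0xff7ffff,0,0,e5_S2,none⟩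
def e5_G9 : Ctx := ⟨18,31,0x3ff7ffff,0,0,e5_S2,none⟩
def e5_G10 : Ctx := ⟨20,63,0xfff7ffff,0,0,e5_S2,none⟩
def e5_G11 : Ctx := ⟨22,127,0x3fff7ffff,0,0,e5_S2,none⟩
def e5_G12 : Ctx := ⟨24,255,0xffff7ffff,0,0,e5_S2,none⟩
def e5_G13 : Ctx := ⟨26,511,0x3ffff7ffff,0,0,e5_S2,none⟩
def e5_G14 : Ctx := ⟨26,511,0x7ffff7ffff,0,0,e5_S2,none⟩
def e5_G15 : Ctx := ⟨26,511,0xbffff7ffff,0,0,e5_S2,none⟩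
def e5_G16 : Ctx := ⟨26,511,0x7ffff7ffff,0,0x420000,e5_S2,none⟩
def e5_G17 : Ctx := ⟨26,511,0xbffff7ffff,0,0x1050000,e5_S2,none⟩
def e5_G18 : Ctx := ⟨27,512,0x3ffff,0,0,e5_S1,none⟩
def e5_G19 : Ctx := ⟨29,1536,0x3ffff,0,0,e5_S1,none⟩
def e5_G20 : Ctx := ⟨29,1536,0x1000003ffff,0,0,e5_S1,none⟩
def e5_S3 : St := ⟨4,0x10000009000000800000900000000000050000000000005,0x5000000000000000000000000000000080000000000000000000000000000000100000000000000000000000000000002,0x10000000000000000000000000000000000000000000000000000000000000000,15⟩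
def e5_G21 : Ctx := ⟨29,1536,0x3ffff,0,0,e5_S3,none⟩
def e5_G22 : Ctx := ⟨31,3584,0x7000003ffff,0,0,e5_S1,none⟩
def e5_G23 : Ctx := ⟨36,3584,0x7f000003ffff,0,0,e5_S1,none⟩
def e5_G24 : Ctx := ⟨38,7680,0x1ff000003ffff,0,0,e5_S1,none⟩
def e5_G25 : Ctx := ⟨40,15872,0x7ff000003ffff,0,0,e5_S1,none⟩
def e5_G26 : Ctx := ⟨42,32256,0x1fff000003ffff,0,0,e5_S1,none⟩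
def e5_G27 : Ctx := ⟨44,65024,0x7fff000003ffff,0,0,e5_S1,none⟩
def e5_G28 : Ctx := ⟨46,0x1fe00,0x1ffff000003ffff,0,0,e5_S1,none⟩
def e5_G29 : Ctx := ⟨48,0x3fe00,0x7ffff000003ffff,0,0,e5_S1,none⟩
def e5_G30 : Ctx := ⟨50,0x40600,0x3ffff,0,0,e5_S3,none⟩
def e5_G31 : Ctx := ⟨51,0xc0600,0x3ffff,0,0,e5_S3,none⟩
def e5_G32 : Ctx := ⟨52,0x1c0600,0x3ffff,0,0,e5_S3,none⟩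
def e5_h8 : List HP := [⟨[0,1,2],[⟨0,1,true⟩,⟨0,2,false⟩,⟨1,2,false⟩],(HT.leaf 2)⟩,⟨[0,1,2],[⟨0,1,false⟩,⟨0,2,true⟩,⟨1,2,false⟩],(HT.leaf 2)⟩,⟨[1,2,3],[⟨0,1,false⟩,⟨0,2,true⟩,⟨1,2,false⟩],(HT.leaf 3)⟩,⟨[1,2,3],[⟨0,1,false⟩,⟨0,2,false⟩,⟨1,2,true⟩],(HT.leaf 3)⟩,⟨[1,2,4],[⟨0,1,false⟩,⟨0,2,true⟩,⟨1,2,false⟩],(HT.leaf 2)⟩,⟨[1,2,4],[⟨0,1,false⟩,⟨0,2,false⟩,⟨1,2,true⟩],(HT.leaf 2)⟩]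
def e5_h32 : List HP := [⟨[0,1,2],[⟨0,1,true⟩,⟨0,2,false⟩,⟨1,2,false⟩],(HT.leaf 2)⟩,⟨[0,1,2],[⟨0,1,false⟩,⟨0,2,true⟩,⟨1,2,false⟩],(HT.leaf 2)⟩,⟨[3,1,2],[⟨0,1,true⟩,⟨0,2,false⟩,⟨1,2,false⟩],(HT.leaf 3)⟩,⟨[3,1,2],[⟨0,1,false⟩,⟨0,2,true⟩,⟨1,2,false⟩],(HT.leaf 3)⟩,⟨[4,1,2],[⟨0,1,true⟩,⟨0,2,false⟩,⟨1,2,false⟩],(HT.leaf 2)⟩,⟨[4,1,2],[⟨0,1,false⟩,⟨0,2,true⟩,⟨1,2,false⟩],(HT.leaf 2)⟩]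

end Pool.Agent.Lib.MP_849b2e_co
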