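import Pool.Agent.Lib.MP_849b2e_co.Fast
import Pool.Agent.Lib.MP_849b2e_co.Te5
import Pool.Agent.Lib.MP_849b2e_co.RApply
import Pool.Agent.Lib.MP_849b2e_co.Td
import Pool.Agent.Lib.MP_849b2e_co.Te3

set_option maxRecDepth 100000
set_option linter.all false
namespace Pool.Agent.Lib.MP_849b2e_co

noncomputable def e5_o0c : Pq := (Pq.cons (Pq.L [] 63 (Pf.C 0 0x608080))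
 (Pq.cons (Pq.L [] 32767 (Pf.C 1 0x2840608080))
 (Pq.cons (Pq.L [] 1 (Pf.C 2 128))
 (Pq.cons (Pq.L [] 1 (Pf.C 18 128))
 (Pq.cons (Pq.L [] 1 (Pf.C 19 128))
 (Pq.cons (Pq.D 0 Pq.nil) (Pq.cons (Pq.D 2 Pq.nil) (Pq.cons (Pq.D 0 (Pq.cons (Pq.D 1 (Pq.cons (Pq.D 2 (Pq.cons (Pq.L [] 8 (Pf.C 2 257))
 (Pq.cons (Pq.D 3 (Pq.cons (Pq.L [] 63 (Pf.C 13 0x608080))
 (Pq.cons (Pq.L [] 63 (Pf.C 13 0x608080))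
 Pq.nil))) Pq.nil))) (Pq.cons (Pq.D 2 (Pq.cons (Pq.D 3 (Pq.cons (Pq.L [] 63 (Pf.C 13 0x608080))
 (Pq.cons (Pq.L [] 63 (Pf.C 13 0x608080))
 Pq.nil))) (Pq.cons (Pq.L [] 8 (Pf.C 18 257))
 Pq.nil))) Pq.nil))) (Pq.cons (Pq.D 1 (Pq.cons (Pq.D 2 (Pq.cons (Pq.L [] 8 (Pf.C 2 257))
 (Pq.cons (Pq.D 3 (Pq.cons (Pq.L [] 63 (Pf.C 13 0x608080))
 (Pq.cons (Pq.L [] 63 (Pf.C 13 0x608080))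
 Pq.nil))) Pq.nil))) (Pq.cons (Pq.D 2 (Pq.cons (Pq.D 3 (Pq.cons (Pq.L [] 63 (Pf.C 13 0x608080))
 (Pq.cons (Pq.L [] 63 (Pf.C 13 0x608080))
 Pq.nil))) (Pq.cons (Pq.L [] 8 (Pf.C 18 257))
 Pq.nil))) Pq.nil))) Pq.nil))) (Pq.cons (Pq.D 0 (Pq.cons (Pq.D 1 (Pq.cons (Pq.D 2 (Pq.cons (Pq.L [] 8 (Pf.C 2 257))
 (Pq.cons (Pq.D 3 (Pq.cons (Pq.L [] 63 (Pf.C 14 0x608080))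
 (Pq.cons (Pq.L [] 63 (Pf.C 14 0x608080))
 Pq.nil))) Pq.nil))) (Pq.cons (Pq.D 2 (Pq.cons (Pq.D 3 (Pq.cons (Pq.L [] 63 (Pf.C 14 0x608080))
 (Pq.cons (Pq.L [] 63 (Pf.C 14 0x608080))
 Pq.nil))) (Pq.cons (Pq.L [] 8 (Pf.C 19 257))
 Pq.nil))) Pq.nil))) (Pq.cons (Pq.D 1 (Pq.cons (Pq.D 2 (Pq.cons (Pq.L [] 8 (Pf.C 2 257))
 (Pq.cons (Pq.D 3 (Pq.cons (Pq.L [] 63 (Pf.C 14 0x608080))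
 (Pq.cons (Pq.L [] 63 (Pf.C 14 0x608080))
 Pq.nil))) Pq.nil))) (Pq.cons (Pq.D 2 (Pq.cons (Pq.D 3 (Pq.cons (Pq.L [] 63 (Pf.C 14 0x608080))
 (Pq.cons (Pq.L [] 63 (Pf.C 14 0x608080))
 Pq.nil))) (Pq.cons (Pq.L [] 8 (Pf.C 19 257))
 Pq.nil))) Pq.nil))) Pq.nil))) (Pq.cons (Pq.L [] 63 (Pf.C 13 0x608080))
 (Pq.cons (Pq.D 3 Pq.nil) (Pq.cons (Pq.D 3 Pq.nil) (Pq.cons (Pq.D 0 (Pq.cons (Pq.D 1 (Pq.cons (Pq.D 2 (Pq.cons (Pq.L [] 63 (Pf.C 15 0x608080))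
 (Pq.cons (Pq.L [] 63 (Pf.C 15 0x608080))
 Pq.nil))) (Pq.cons (Pq.D 2 (Pq.cons (Pq.L [] 63 (Pf.C 15 0x608080))
 (Pq.cons (Pq.L [] 63 (Pf.C 15 0x608080))
 Pq.nil))) Pq.nil))) (Pq.cons (Pq.D 1 (Pq.cons (Pq.D 2 (Pq.cons (Pq.L [] 63 (Pf.C 15 0x608080))
 (Pq.cons (Pq.L [] 63 (Pf.C 15 0x608080))
 Pq.nil))) (Pq.cons (Pq.D 2 (Pq.cons (Pq.L [] 63 (Pf.C 15 0x608080))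
 (Pq.cons (Pq.L [] 63 (Pf.C 15 0x608080))
 Pq.nil))) Pq.nil))) Pq.nil))) (Pq.cons (Pq.L [] 63 (Pf.C 15 0x608080))
 (Pq.cons (Pq.D 0 (Pq.cons (Pq.D 1 (Pq.cons (Pq.D 2 (Pq.cons (Pq.L [] 63 (Pf.C 16 0x608080))
 (Pq.cons (Pq.L [] 63 (Pf.C 16 0x608080))
 Pq.nil))) (Pq.cons (Pq.D 2 (Pq.cons (Pq.L [] 63 (Pf.C 16 0x608080))
 (Pq.cons (Pq.L [] 63 (Pf.C 16 0x608080))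
 Pq.nil))) Pq.nil))) (Pq.cons (Pq.D 1 (Pq.cons (Pq.D 2 (Pq.cons (Pq.L [] 63 (Pf.C 15 32899))
 (Pq.cons (Pq.L [] 63 (Pf.C 16 0x608080))
 Pq.nil))) (Pq.cons (Pq.D 2 (Pq.cons (Pq.L [] 63 (Pf.C 16 0x608080))
 (Pq.cons (Pq.L [] 63 (Pf.C 16 0x608080))
 Pq.nil))) Pq.nil))) Pq.nil))) (Pq.cons (Pq.L [] 63 (Pf.C 16 0x608080))
 (Pq.cons (Pq.L [] 1023 (Pf.C 17 0x40608080))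
 (Pq.cons (Pq.L [] 1023 (Pf.C 17 0x40608080))
 (Pq.cons (Pq.L [] 1023 (Pf.C 17 0x40608080))
 (Pq.cons (Pq.D 0 (Pq.cons (Pq.D 2 (Pq.cons (Pq.D 3 (Pq.cons (Pq.L [] 183 (Pf.C 15 0x20c100))
 (Pq.cons (Pq.L [] 183 (Pf.C 15 0x20c100))
 Pq.nil))) (Pq.cons (Pq.D 3 (Pq.cons (Pq.L [] 183 (Pf.C 15 0x20c100))
 (Pq.cons (Pq.L [] 183 (Pf.C 15 0x20c100))
 Pq.nil))) Pq.nil))) (Pq.cons (Pq.D 2 (Pq.cons (Pq.D 3 (Pq.cons (Pq.L [] 183 (Pf.C 15 0x20c100))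
 (Pq.cons (Pq.L [] 183 (Pf.C 15 0x20c100))
 Pq.nil))) (Pq.cons (Pq.D 3 (Pq.cons (Pq.L [] 183 (Pf.C 15 0x20c100))
 (Pq.cons (Pq.L [] 183 (Pf.C 15 0x20c100))
 Pq.nil))) Pq.nil))) Pq.nil))) Pq.nil))))))))))))))))))))
theorem e5_o0 : AllRef e5_T e5_G2 (applyObl e3_T 20 [1,2,3] [1,2,3] []) :=
  chkPq_sound e5_o0c _ (by decide +kernel)
noncomputable def e5_o1c : Pq := Pq.nil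
theorem e5_o1 : AllRef e5_T e5_G3 (ptObl 2 (PT.br 0 PT.kid PT.kid) []) :=
  chkPq_sound e5_o1c _ (by decide +kernel)
noncomputable def e5_o2c : Pq := Pq.nil
theorem e5_o2 : AllRef e5_T e5_G4 (ptObl 3 PT.kid []) :=
  chkPq_sound e5_o2c _ (by decide +kernel)
noncomputable def e5_o3c : Pq := (Pq.cons (Pq.L [0,1] 60 (Pf.B 7 4 (Pf.B 6 4 (Pf.B 6 3 (Pf.B 5 4 (Pf.B 5 3 (Pf.B 5 0 (Pf.C 15 98947) (Pf.B 5 1 (Pf.C 8 16389) (Pf.C 3 133))) (Pf.C 13 0xc14184)) (Pf.C 13 0xc14207)) (Pf.C 18 390)) (Pf.C 18 518)) (Pf.C 18 519)))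
 (Pq.cons (Pq.L [0,1] 56 (Pf.B 7 4 (Pf.B 7 1 (Pf.B 6 4 (Pf.B 5 4 (Pf.B 4 1 (Pf.B 5 1 (Pf.C 15 0x21c284) (Pf.B 5 0 (Pf.C 8 133) (Pf.C 3 16389))) (Pf.C 3 132)) (Pf.C 13 0xe14206)) (Pf.C 18 518)) (Pf.C 3 135)) (Pf.C 18 519)))
 (Pq.cons (Pq.L [0,1] 511 (Pf.B 10 1 (Pf.B 10 0 (Pf.B 9 6 (Pf.B 9 5 (Pf.B 9 3 (Pf.B 9 2 (Pf.B 8 6 (Pf.B 10 6 (Pf.C 17 0x9001840a) (Pf.B 8 5 (Pf.B 10 5 (Pf.B 8 3 (Pf.B 10 3 (Pf.C 17 0x9000c40a) (Pf.B 8 2 (Pf.B 10 2 (Pf.B 7 1 (Pf.B 7 0 (Pf.B 10 7 (Pf.C 17 0xc28287) (Pf.B 10 4 (Pf.B 9 7 (Pf.C 10 0x28389) (Pf.B 9 4 (Pf.B 8 7 (Pf.B 8 4 (Pf.C 17 0x31420104) (Pf.B 7 4 (Pf.B 6 4 (Pf.B 6 3 (Pf.B 6 2 (Pf.C 17 0x31418202) (Pf.C 18 262)) (Pf.C 18 390)) (Pf.C 17 0x80818487)) (Pf.C 5 0x28384))) (Pf.C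 3 0x28388)) (Pf.C 17 0x20824503))) (Pf.C 12 0x28384))) (Pf.C 5 16391)) (Pf.C 12 16391)) (Pf.C 17 0x81408480)) (Pf.C 18 264))) (Pf.C 18 392)) (Pf.C 17 0x81414480)) (Pf.C 18 648))) (Pf.C 18 776)) (Pf.C 18 265)) (Pf.C 18 393)) (Pf.C 18 649)) (Pf.C 18 777)) (Pf.C 5 16394)) (Pf.C 12 16394)))
 (Pq.cons (Pq.L [0,1] 504 (Pf.B 10 1 (Pf.B 10 0 (Pf.B 9 6 (Pf.B 9 5 (Pf.B 9 3 (Pf.B 9 1 (Pf.B 8 6 (Pf.B 8 5 (Pf.B 8 3 (Pf.B 8 1 (Pf.C 10 136) (Pf.B 7 0 (Pf.B 6 3 (Pf.B 6 1 (Pf.B 10 6 (Pf.B 5 3 (Pf.B 5 1 (Pf.C 10 133) (Pf.B 10 5 (Pf.C 17 0x8021448a) (Pf.B 10 7 (Pf.C 17 0xc1c28a) (Pf.B 10 3 (Pf.C 17 0x6000c28a) (Pf.B 9 7 (Pf.B 8 7 (Pf.C 10 0x28388) (Pf.B 7 3 (Pf.C 17 0x9000c407) (Pf.C 3 0x28383))) (Pf.C 3 0x28389)))))) (Pf.C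 18 389)) (Pf.C 17 0x91418401)) (Pf.C 3 134)) (Pf.C 18 390)) (Pf.C 3 902))) (Pf.C 18 392)) (Pf.C 18 648)) (Pf.C 18 776)) (Pf.C 3 137)) (Pf.C 18 393)) (Pf.C 18 649)) (Pf.C 18 777)) (Pf.C 3 1289)) (Pf.C 12 16394)))
 (Pq.cons (Pq.L [0,1] 63 (Pf.B 7 4 (Pf.B 7 1 (Pf.B 7 0 (Pf.B 6 3 (Pf.B 6 2 (Pf.B 5 3 (Pf.B 7 3 (Pf.C 17 0x6000c287) (Pf.B 5 2 (Pf.B 7 2 (Pf.B 5 4 (Pf.C 17 0x30e14104) (Pf.B 5 1 (Pf.C 10 133) (Pf.B 4 1 (Pf.B 4 0 (Pf.C 17 0x70600104) (Pf.C 5 16388)) (Pf.C 3 16901)))) (Pf.C 17 0x50e08300)) (Pf.C 18 261))) (Pf.C 18 389)) (Pf.C 18 262)) (Pf.C 18 390)) (Pf.C 5 16391)) (Pf.C 12 16391)) (Pf.C 21 519)))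
 (Pq.cons (Pq.L [0,1] 63 (Pf.B 7 4 (Pf.B 7 1 (Pf.B 7 0 (Pf.B 6 3 (Pf.B 6 2 (Pf.B 6 1 (Pf.B 5 3 (Pf.B 5 2 (Pf.B 5 1 (Pf.C 10 133) (Pf.B 4 0 (Pf.B 3 1 (Pf.B 7 3 (Pf.B 7 2 (Pf.B 2 1 (Pf.C 10 130) (Pf.C 17 0x50208386)) (Pf.C 17 0x40600107)) (Pf.C 17 0x60e0c281)) (Pf.C 3 131)) (Pf.C 3 515))) (Pf.C 18 261)) (Pf.C 18 389)) (Pf.C 3 134)) (Pf.C 18 262)) (Pf.C 18 390)) (Pf.C 3 902)) (Pf.C 12 16391)) (Pf.C 21 519)))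
 Pq.nil))))))
theorem e5_o3 : AllRef e5_T e5_G6 (hitObl [1,4,5,7,8] e5_h8) :=
  chkPq_sound e5_o3c _ (by decide +kernel)
noncomputable def e5_o4c : Pq := (Pq.cons (Pq.L [] 1 (Pf.C 2 386))
 (Pq.cons (Pq.L [0,1] 3 (Pf.B 4 3 (Pf.B 4 1 (Pf.B 4 0 (Pf.B 3 0 (Pf.C 15 33156) (Pf.B 3 1 (Pf.C 8 16387) (Pf.C 3 131))) (Pf.C 8 16388)) (Pf.B 4 0 (Pf.C 8 132) (Pf.C 3 16388))) (Pf.C 2 388)))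
 (Pq.cons (Pq.L [0,1] 3 (Pf.B 4 3 (Pf.B 2 1 (Pf.B 4 1 (Pf.B 3 1 (Pf.C 15 0x208184) (Pf.B 3 0 (Pf.C 8 131) (Pf.C 3 16387))) (Pf.B 4 0 (Pf.C 8 132) (Pf.C 3 16388))) (Pf.C 3 130)) (Pf.C 2 388)))
 (Pq.cons (Pq.L [] 1 (Pf.W 20 2 [] [3] (Pf.cons (Pf.B 5 3 (Pf.C 8 82179) (Pf.C 3 33411)) Pf.nil)))
 (Pq.cons (Pq.L [] 1 (Pf.C 33 386))
 (Pq.cons (Pq.L [] 1 (Pf.C 2 386))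
 (Pq.cons (Pq.L [0,1] 3 (Pf.B 4 3 (Pf.B 4 1 (Pf.B 4 0 (Pf.B 3 0 (Pf.C 15 33156) (Pf.B 3 1 (Pf.C 8 16387) (Pf.C 3 131))) (Pf.C 8 16388)) (Pf.B 4 0 (Pf.C 8 132) (Pf.C 3 16388))) (Pf.C 2 388)))
 (Pq.cons (Pq.L [0,1] 3 (Pf.B 4 3 (Pf.B 2 1 (Pf.B 4 1 (Pf.B 3 1 (Pf.C 15 0x208184) (Pf.B 3 0 (Pf.C 8 131) (Pf.C 3 16387))) (Pf.B 4 0 (Pf.C 8 132) (Pf.C 3 16388))) (Pf.C 3 130)) (Pf.C 2 388)))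
 (Pq.cons (Pq.L [] 1 (Pf.W 20 2 [] [3] (Pf.cons (Pf.B 5 3 (Pf.C 8 82179) (Pf.C 3 33411)) Pf.nil)))
 (Pq.cons (Pq.L [] 1 (Pf.C 33 386))
 (Pq.cons (Pq.L [] 1 (Pf.C 2 386))
 (Pq.cons (Pq.L [0,1] 3 (Pf.B 4 3 (Pf.B 4 1 (Pf.B 4 0 (Pf.B 3 0 (Pf.C 15 33156) (Pf.B 3 1 (Pf.C 8 16387) (Pf.C 3 131))) (Pf.C 8 16388)) (Pf.B 4 0 (Pf.C 8 132) (Pf.C 3 16388))) (Pf.C 2 388)))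
 (Pq.cons (Pq.L [0,1] 3 (Pf.B 4 3 (Pf.B 2 1 (Pf.B 4 1 (Pf.B 3 1 (Pf.C 15 0x208184) (Pf.B 3 0 (Pf.C 8 131) (Pf.C 3 16387))) (Pf.B 4 0 (Pf.C 8 132) (Pf.C 3 16388))) (Pf.C 3 130)) (Pf.C 2 388)))
 (Pq.cons (Pq.L [] 1 (Pf.W 20 2 [] [3] (Pf.cons (Pf.B 5 3 (Pf.C 8 82179) (Pf.C 3 33411)) Pf.nil)))
 (Pq.cons (Pq.L [] 1 (Pf.C 33 386))
 (Pq.cons (Pq.L [0,1] 3 (Pf.B 4 3 (Pf.B 2 0 (Pf.C 15 49412) (Pf.B 2 1 (Pf.C 8 16386) (Pf.C 3 130))) (Pf.C 18 388)))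
 (Pq.cons (Pq.L [] 1 (Pf.C 18 386))
 (Pq.cons (Pq.L [] 1 (Pf.C 18 386))
 (Pq.cons (Pq.L [0,1] 3 (Pf.B 4 3 (Pf.B 3 1 (Pf.C 10 131) (Pf.B 2 1 (Pf.B 2 0 (Pf.W 20 2 [] [0,1,3,4] (Pf.cons (Pf.B 5 4 (Pf.C 10 33412) (Pf.B 5 3 (Pf.T 5 2 (Pf.cons (Pf.W 34 3 [] [0,1,2,4,5] (Pf.cons (Pf.B 6 5 (Pf.B 6 2 (Pf.B 6 1 (Pf.B 6 0 (Pf.B 6 4 (Pf.W 34 4 [] [0,1,2,3,5,6] (Pf.cons (Pf.B 7 6 (Pf.B 7 5 (Pf.B 7 3 (Pf.C 17 0x5081c303) (Pf.B 7 2 (Pf.W 32 6 [] [0,1,2,3,4,5,7] (Pf.cons (Pf.B 8 7 (Pf.B 8 5 (Pf.B 8 4 (Pf.C 17 0x70814308) (Pf.B 8 2 (Pf.B 8 1 (Pf.B 8 0 (Pf.B 8 3 (Pf.C 15 66563) (Pf.W 32 7 [] [3,4,5,6,8] (Pf.cons (Pf.B 9 8 (Pf.B 9 5 (Pf.B 9 6 (Pf.B 9 3 (Pf.C 15 0xa20189) (Pf.B 9 4 (Pf.C 17 0x60624284) (Pf.C 0 0x61c484)))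 (Pf.C 14 0x1018485)) (Pf.C 14 0xe24288)) (Pf.C 2 1033)) (Pf.cons (Pf.B 9 8 (Pf.B 9 5 (Pf.B 9 6 (Pf.B 9 3 (Pf.C 15 0xa20189) (Pf.B 9 4 (Pf.C 17 0x60624284) (Pf.C 0 0x61c484))) (Pf.C 14 0x1018485)) (Pf.C 14 0xe24288)) (Pf.C 2 1033)) (Pf.cons (Pf.B 9 8 (Pf.B 9 4 (Pf.B 9 3 (Pf.C 13 0x820189) (Pf.C 27 393)) (Pf.C 27 521)) (Pf.C 2 1033)) Pf.nil))))) (Pf.C 8 16392)) (Pf.C 14 0xc20082)) (Pf.C 8 82184))) (Pf.C 14 0xc20287)) (Pf.B 8 5 (Pf.C 14 0xe20305) (Pf.B 8 2 (Pf.C 8 33416) (Pf.C 3 82184)))) (Pf.cons (Pf.B 8 7 (Pf.B 8 5 (Pf.B 8 4 (Pf.C 17 0x70814308) (Pf.B 8 2 (Pf.B 8 1 (Pf.B 8 0 (Pf.B 8 3 (Pf.C 15 66563) (Pf.W 32 7 [] [3,4,5,6,8] (Pf.cons (Pf.B 9 8 (Pf.B 9 5 (Pf.B 9 6 (Pf.B 9 3 (Pf.C 15 0xa20189) (Pf.B 9 4 (Pf.C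 17 0x60624284) (Pf.C 0 0x61c484))) (Pf.C 14 0x1018485)) (Pf.C 14 0xe24288)) (Pf.C 2 1033)) (Pf.cons (Pf.B 9 8 (Pf.B 9 5 (Pf.B 9 6 (Pf.B 9 3 (Pf.C 15 0xa20189) (Pf.B 9 4 (Pf.C 17 0x60624284) (Pf.C 0 0x61c484))) (Pf.C 14 0x1018485)) (Pf.C 14 0xe24288)) (Pf.C 2 1033)) (Pf.cons (Pf.B 9 8 (Pf.B 9 4 (Pf.B 9 3 (Pf.C 13 0x820189) (Pf.C 27 393)) (Pf.C 27 521)) (Pf.C 2 1033)) Pf.nil))))) (Pf.C 8 16392)) (Pf.C 14 0xc20082)) (Pf.C 8 82184))) (Pf.C 14 0xc20287)) (Pf.B 8 5 (Pf.C 14 0xe20305) (Pf.B 8 2 (Pf.C 8 33416) (Pf.C 3 82184)))) (Pf.cons (Pf.B 8 4 (Pf.B 8 3 (Pf.B 8 5 (Pf.C 17 0x30c20205) (Pf.B 8 2 (Pf.C 8 33416) (Pf.C 3 82184))) (Pf.C 27 392)) (Pf.C 27 520)) Pf.nil)))) (Pf.C 21 263))) (Pf.C 21 647)) (Pf.C 21 775))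 Pf.nil)) (Pf.W 32 6 [] [0,1,2,3,4,5] (Pf.cons (Pf.B 7 5 (Pf.B 7 2 (Pf.B 7 1 (Pf.B 7 0 (Pf.B 7 4 (Pf.B 7 3 (Pf.W 26 7 [] [0,4] (Pf.cons (Pf.B 8 4 (Pf.C 15 0x1c404) (Pf.C 18 520)) Pf.nil)) (Pf.C 15 50052)) (Pf.B 7 3 (Pf.C 15 66435) (Pf.C 0 0x818383))) (Pf.C 8 16391)) (Pf.C 14 0xc1c082)) (Pf.C 8 82183)) (Pf.B 7 2 (Pf.C 8 33415) (Pf.C 3 82183))) (Pf.cons (Pf.B 7 5 (Pf.B 7 2 (Pf.B 7 1 (Pf.B 7 0 (Pf.B 7 4 (Pf.B 7 3 (Pf.W 26 7 [] [0,4] (Pf.cons (Pf.B 8 4 (Pf.C 15 0x1c404) (Pf.C 18 520)) Pf.nil)) (Pf.C 15 50052)) (Pf.B 7 3 (Pf.C 15 66435) (Pf.C 0 0x818383))) (Pf.C 8 16391)) (Pf.C 14 0xc1c082)) (Pf.C 8 82183)) (Pf.B 7 2 (Pf.C 8 33415) (Pf.C 3 82183))) (Pf.cons (Pf.B 7 4 (Pf.B 7 3 (Pf.B 7 5 (Pf.B 7 2 (Pf.W 30 7 []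 [4] (Pf.cons (Pf.B 8 4 (Pf.C 23 0x20207) (Pf.C 18 520)) Pf.nil)) (Pf.C 8 82183)) (Pf.B 7 2 (Pf.C 8 33415) (Pf.C 3 82183))) (Pf.C 27 391)) (Pf.C 27 519)) Pf.nil))))) (Pf.C 5 16390)) (Pf.C 3 17155)) (Pf.C 21 262)) (Pf.C 21 646)) Pf.nil)) (Pf.cons (Pf.C 21 261) Pf.nil))) (Pf.C 3 33411))) Pf.nil)) (Pf.C 5 16386)) (Pf.C 3 16643))) (Pf.C 18 388)))
 (Pq.cons (Pq.L [0,1] 3 (Pf.B 4 3 (Pf.B 3 1 (Pf.C 10 131) (Pf.B 2 1 (Pf.W 34 3 [] [0,1,2,4] (Pf.cons (Pf.B 5 2 (Pf.B 5 1 (Pf.B 5 0 (Pf.B 5 4 (Pf.W 34 4 [] [0,1,2,3,5] (Pf.cons (Pf.B 6 5 (Pf.B 6 2 (Pf.B 6 3 (Pf.C 17 0x50608206) (Pf.W 32 5 [] [0,1,2,3,4,6] (Pf.cons (Pf.B 7 2 (Pf.B 7 6 (Pf.B 7 4 (Pf.C 16 0x814382) (Pf.B 7 1 (Pf.B 7 0 (Pf.B 7 3 (Pf.C 15 66435) (Pf.W 32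 6 [] [2,3,4,5,7] (Pf.cons (Pf.B 8 7 (Pf.B 8 2 (Pf.B 8 5 (Pf.B 8 4 (Pf.C 15 0x41c208) (Pf.B 8 3 (Pf.C 17 0x50608208) (Pf.C 0 0x818403))) (Pf.C 14 0xe14402)) (Pf.C 33 1026)) (Pf.C 2 904)) (Pf.cons (Pf.B 8 7 (Pf.B 8 2 (Pf.B 8 5 (Pf.B 8 4 (Pf.C 15 0x41c208) (Pf.B 8 3 (Pf.C 17 0x50608208) (Pf.C 0 0x818403))) (Pf.C 14 0xe14402)) (Pf.C 33 1026)) (Pf.C 2 904)) (Pf.cons (Pf.B 8 7 (Pf.B 8 4 (Pf.B 8 3 (Pf.C 13 0x81c188) (Pf.C 27 392)) (Pf.C 27 520)) (Pf.C 2 904)) Pf.nil))))) (Pf.C 8 16391)) (Pf.C 14 0xa1c082))) (Pf.C 14 0xa1c302)) (Pf.C 33 898)) (Pf.cons (Pf.B 7 2 (Pf.B 7 6 (Pf.B 7 4 (Pf.C 16 0x814382) (Pf.B 7 1 (Pf.B 7 0 (Pf.B 7 3 (Pf.C 15 66435) (Pf.W 32 6 [] [2,3,4,5,7] (Pf.cons (Pf.B 8 7 (Pf.B 8 2 (Pf.B 8 5 (Pf.B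 8 4 (Pf.C 15 0x41c208) (Pf.B 8 3 (Pf.C 17 0x50608208) (Pf.C 0 0x818403))) (Pf.C 14 0xe14402)) (Pf.C 33 1026)) (Pf.C 2 904)) (Pf.cons (Pf.B 8 7 (Pf.B 8 2 (Pf.B 8 5 (Pf.B 8 4 (Pf.C 15 0x41c208) (Pf.B 8 3 (Pf.C 17 0x50608208) (Pf.C 0 0x818403))) (Pf.C 14 0xe14402)) (Pf.C 33 1026)) (Pf.C 2 904)) (Pf.cons (Pf.B 8 7 (Pf.B 8 4 (Pf.B 8 3 (Pf.C 13 0x81c188) (Pf.C 27 392)) (Pf.C 27 520)) (Pf.C 2 904)) Pf.nil))))) (Pf.C 8 16391)) (Pf.C 14 0xa1c082))) (Pf.C 14 0xa1c302)) (Pf.C 33 898)) (Pf.cons (Pf.B 7 4 (Pf.B 7 2 (Pf.C 16 0x814382) (Pf.C 33 898)) (Pf.C 27 519)) Pf.nil))))) (Pf.C 21 262)) (Pf.C 21 646)) Pf.nil)) (Pf.W 32 5 [] [0,1,2,3,4] (Pf.cons (Pf.B 6 2 (Pf.B 6 1 (Pf.B 6 0 (Pf.B 6 4 (Pf.B 6 3 (Pf.W 26 6 [] [0,4]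 (Pf.cons (Pf.B 7 4 (Pf.C 15 99204) (Pf.C 18 519)) Pf.nil)) (Pf.C 15 49924)) (Pf.B 6 3 (Pf.C 15 66307) (Pf.C 0 0x814303))) (Pf.C 8 16390)) (Pf.C 14 0xa18082)) (Pf.C 33 770)) (Pf.cons (Pf.B 6 2 (Pf.B 6 1 (Pf.B 6 0 (Pf.B 6 4 (Pf.B 6 3 (Pf.W 26 6 [] [0,4] (Pf.cons (Pf.B 7 4 (Pf.C 15 99204) (Pf.C 18 519)) Pf.nil)) (Pf.C 15 49924)) (Pf.B 6 3 (Pf.C 15 66307) (Pf.C 0 0x814303))) (Pf.C 8 16390)) (Pf.C 14 0xa18082)) (Pf.C 33 770)) (Pf.cons (Pf.B 6 4 (Pf.B 6 3 (Pf.B 6 2 (Pf.W 30 6 [] [4] (Pf.cons (Pf.B 7 4 (Pf.C 23 0x1c206) (Pf.C 18 519)) Pf.nil)) (Pf.C 33 770)) (Pf.C 27 390)) (Pf.C 27 518)) Pf.nil))))) (Pf.C 5 16389)) (Pf.C 3 17027)) (Pf.C 21 261)) Pf.nil)) (Pf.C 3 16643))) (Pf.C 18 388)))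
 (Pq.cons (Pq.L [0,1] 3 (Pf.B 4 3 (Pf.B 4 1 (Pf.B 3 1 (Pf.B 2 1 (Pf.C 15 0x20c104) (Pf.B 2 0 (Pf.C 8 130) (Pf.C 3 16386))) (Pf.C 3 131)) (Pf.C 3 132)) (Pf.C 18 388)))
 (Pq.cons (Pq.L [] 1 (Pf.C 18 386))
 (Pq.cons (Pq.L [] 1 (Pf.C 18 386))
 (Pq.cons (Pq.L [0,1] 3 (Pf.B 4 3 (Pf.B 4 1 (Pf.B 3 1 (Pf.B 2 1 (Pf.B 2 0 (Pf.W 20 2 [] [0,1,3,4] (Pf.cons (Pf.B 5 4 (Pf.C 10 33412) (Pf.B 5 3 (Pf.T 5 2 (Pf.cons (Pf.W 36 3 [] [0,1,2,4,5] (Pf.cons (Pf.B 6 5 (Pf.B 6 2 (Pf.B 6 1 (Pf.B 6 4 (Pf.W 36 4 [] [1,2,3,5,6] (Pf.cons (Pf.B 7 6 (Pf.B 7 5 (Pf.B 7 3 (Pf.C 17 0x5081c303) (Pf.B 7 2 (Pf.W 32 6 [] [1,2,3,4,5,7] (Pf.cons (Pf.B 8 7 (Pf.B 8 5 (Pf.B 8 4 (Pf.C 17 0x70814308) (Pf.B 8 2 (Pf.B 8 1 (Pf.B 8 3 (Pf.C 15 0x210403) (Pf.W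 32 7 [] [3,4,5,6,8] (Pf.cons (Pf.B 9 8 (Pf.B 9 5 (Pf.B 9 6 (Pf.B 9 3 (Pf.C 15 0xa20189) (Pf.B 9 4 (Pf.C 17 0x60624284) (Pf.C 0 0x61c484))) (Pf.C 14 0x1018485)) (Pf.C 14 0xe24288)) (Pf.C 2 1033)) (Pf.cons (Pf.B 9 8 (Pf.B 9 4 (Pf.B 9 3 (Pf.C 13 0x820189) (Pf.C 29 393)) (Pf.C 29 521)) (Pf.C 2 1033)) (Pf.cons (Pf.B 9 8 (Pf.B 9 5 (Pf.B 9 6 (Pf.B 9 3 (Pf.C 15 0xa20189) (Pf.B 9 4 (Pf.C 17 0x60624284) (Pf.C 0 0x61c484))) (Pf.C 14 0x1018485)) (Pf.C 14 0xe24288)) (Pf.C 2 1033)) Pf.nil))))) (Pf.C 14 0xc20082)) (Pf.C 8 82184))) (Pf.C 14 0xc20287)) (Pf.B 8 5 (Pf.C 14 0xe20305) (Pf.B 8 2 (Pf.C 8 33416) (Pf.C 3 82184)))) (Pf.cons (Pf.B 8 4 (Pf.B 8 3 (Pf.B 8 5 (Pf.C 17 0x30c20205) (Pf.B 8 2 (Pf.C 8 33416) (Pf.C 3 82184)))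 (Pf.C 29 392)) (Pf.C 29 520)) (Pf.cons (Pf.B 8 7 (Pf.B 8 5 (Pf.B 8 4 (Pf.C 17 0x70814308) (Pf.B 8 2 (Pf.B 8 1 (Pf.B 8 3 (Pf.C 15 0x210403) (Pf.W 32 7 [] [3,4,5,6,8] (Pf.cons (Pf.B 9 8 (Pf.B 9 5 (Pf.B 9 6 (Pf.B 9 3 (Pf.C 15 0xa20189) (Pf.B 9 4 (Pf.C 17 0x60624284) (Pf.C 0 0x61c484))) (Pf.C 14 0x1018485)) (Pf.C 14 0xe24288)) (Pf.C 2 1033)) (Pf.cons (Pf.B 9 8 (Pf.B 9 4 (Pf.B 9 3 (Pf.C 13 0x820189) (Pf.C 29 393)) (Pf.C 29 521)) (Pf.C 2 1033)) (Pf.cons (Pf.B 9 8 (Pf.B 9 5 (Pf.B 9 6 (Pf.B 9 3 (Pf.C 15 0xa20189) (Pf.B 9 4 (Pf.C 17 0x60624284) (Pf.C 0 0x61c484))) (Pf.C 14 0x1018485)) (Pf.C 14 0xe24288)) (Pf.C 2 1033)) Pf.nil))))) (Pf.C 14 0xc20082)) (Pf.C 8 82184))) (Pf.C 14 0xc20287)) (Pf.B 8 5 (Pf.C 14 0xe20305)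 (Pf.B 8 2 (Pf.C 8 33416) (Pf.C 3 82184)))) Pf.nil)))) (Pf.C 21 263))) (Pf.C 21 647)) (Pf.C 21 775)) Pf.nil)) (Pf.W 32 6 [] [1,2,3,4,5] (Pf.cons (Pf.B 7 5 (Pf.B 7 2 (Pf.B 7 1 (Pf.B 7 4 (Pf.B 7 3 (Pf.W 26 7 [] [4] (Pf.cons (Pf.B 8 4 (Pf.C 22 66567) (Pf.C 18 520)) Pf.nil)) (Pf.C 15 0x20c384)) (Pf.B 7 3 (Pf.C 15 0x210383) (Pf.C 0 0x818383))) (Pf.C 14 0xc1c082)) (Pf.C 8 82183)) (Pf.B 7 2 (Pf.C 8 33415) (Pf.C 3 82183))) (Pf.cons (Pf.B 7 4 (Pf.B 7 3 (Pf.B 7 5 (Pf.B 7 2 (Pf.W 26 7 [] [4] (Pf.cons (Pf.B 8 4 (Pf.C 22 66567) (Pf.C 18 520)) Pf.nil)) (Pf.C 8 82183)) (Pf.B 7 2 (Pf.C 8 33415) (Pf.C 3 82183))) (Pf.C 29 391)) (Pf.C 29 519)) (Pf.cons (Pf.B 7 5 (Pf.B 7 2 (Pf.B 7 1 (Pf.B 7 4 (Pf.B 7 3 (Pf.W 30 7 [] [2,3,4,5]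 (Pf.cons (Pf.B 8 4 (Pf.B 8 3 (Pf.B 8 5 (Pf.C 15 0xa1c403) (Pf.B 8 2 (Pf.C 15 0x41c404) (Pf.C 3 82184))) (Pf.C 18 392)) (Pf.C 18 520)) Pf.nil)) (Pf.C 15 0x20c384)) (Pf.B 7 3 (Pf.C 15 0x210383) (Pf.C 0 0x818383))) (Pf.C 14 0xc1c082)) (Pf.C 8 82183)) (Pf.B 7 2 (Pf.C 8 33415) (Pf.C 3 82183))) Pf.nil))))) (Pf.C 12 16390)) (Pf.C 21 262)) (Pf.C 21 646)) Pf.nil)) (Pf.cons (Pf.C 21 261) Pf.nil))) (Pf.C 3 33411))) Pf.nil)) (Pf.C 3 259)) (Pf.C 10 16644)) (Pf.C 3 131)) (Pf.C 3 132)) (Pf.C 18 388)))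
 (Pq.cons (Pq.L [0,1] 3 (Pf.B 4 3 (Pf.B 4 1 (Pf.B 3 1 (Pf.B 2 1 (Pf.W 36 3 [] [0,1,2,4] (Pf.cons (Pf.B 5 2 (Pf.B 5 1 (Pf.B 5 0 (Pf.B 5 4 (Pf.W 36 4 [] [1,2,3,5] (Pf.cons (Pf.B 6 5 (Pf.B 6 2 (Pf.B 6 3 (Pf.C 17 0x50608206) (Pf.W 32 5 [] [1,2,3,4,6] (Pf.cons (Pf.B 7 2 (Pf.B 7 6 (Pf.B 7 4 (Pf.C 16 0x814382) (Pf.B 7 1 (Pf.B 7 3 (Pf.C 15 0x210383) (Pf.W 32 6 [] [2,3,4,5,7] (Pf.cons (Pf.B 8 7 (Pf.B 8 2 (Pf.B 8 5 (Pf.B 8 4 (Pf.C 15 0x41c208) (Pf.B 8 3 (Pf.C 17 0x50608208) (Pf.C 0 0x818403))) (Pf.C 14 0xe14402)) (Pf.C 33 1026)) (Pf.C 2 904)) (Pf.cons (Pf.B 8 7 (Pf.B 8 4 (Pf.B 8 3 (Pf.C 13 0x81c188) (Pf.C 29 392)) (Pf.C 29 520)) (Pf.C 2 904)) (Pf.cons (Pf.B 8 7 (Pf.B 8 2 (Pf.B 8 5 (Pf.B 8 4 (Pf.C 15 0x41c208) (Pf.B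 8 3 (Pf.C 17 0x50608208) (Pf.C 0 0x818403))) (Pf.C 14 0xe14402)) (Pf.C 33 1026)) (Pf.C 2 904)) Pf.nil))))) (Pf.C 14 0xa1c082))) (Pf.C 14 0xa1c302)) (Pf.C 33 898)) (Pf.cons (Pf.B 7 4 (Pf.B 7 2 (Pf.C 16 0x814382) (Pf.C 33 898)) (Pf.C 29 519)) (Pf.cons (Pf.B 7 2 (Pf.B 7 6 (Pf.B 7 4 (Pf.C 16 0x814382) (Pf.B 7 1 (Pf.B 7 3 (Pf.C 15 0x210383) (Pf.W 32 6 [] [2,3,4,5,7] (Pf.cons (Pf.B 8 7 (Pf.B 8 2 (Pf.B 8 5 (Pf.B 8 4 (Pf.C 15 0x41c208) (Pf.B 8 3 (Pf.C 17 0x50608208) (Pf.C 0 0x818403))) (Pf.C 14 0xe14402)) (Pf.C 33 1026)) (Pf.C 2 904)) (Pf.cons (Pf.B 8 7 (Pf.B 8 4 (Pf.B 8 3 (Pf.C 13 0x81c188) (Pf.C 29 392)) (Pf.C 29 520)) (Pf.C 2 904)) (Pf.cons (Pf.B 8 7 (Pf.B 8 2 (Pf.B 8 5 (Pf.B 8 4 (Pf.C 15 0x41c208) (Pf.B 8 3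 (Pf.C 17 0x50608208) (Pf.C 0 0x818403))) (Pf.C 14 0xe14402)) (Pf.C 33 1026)) (Pf.C 2 904)) Pf.nil))))) (Pf.C 14 0xa1c082))) (Pf.C 14 0xa1c302)) (Pf.C 33 898)) Pf.nil))))) (Pf.C 21 262)) (Pf.C 21 646)) Pf.nil)) (Pf.W 32 5 [] [0,1,2,3,4] (Pf.cons (Pf.B 6 2 (Pf.B 6 1 (Pf.B 6 4 (Pf.B 6 3 (Pf.W 26 6 [] [4] (Pf.cons (Pf.B 7 4 (Pf.C 22 66438) (Pf.C 18 519)) Pf.nil)) (Pf.C 15 0x20c304)) (Pf.B 6 3 (Pf.C 15 0x210303) (Pf.C 0 0x814303))) (Pf.C 14 0xa18082)) (Pf.C 33 770)) (Pf.cons (Pf.B 6 4 (Pf.B 6 3 (Pf.B 6 2 (Pf.W 26 6 [] [4] (Pf.cons (Pf.B 7 4 (Pf.C 22 66438) (Pf.C 18 519)) Pf.nil)) (Pf.C 33 770)) (Pf.C 29 390)) (Pf.C 29 518)) (Pf.cons (Pf.B 6 2 (Pf.B 6 1 (Pf.B 6 0 (Pf.B 6 4 (Pf.B 6 3 (Pf.W 30 6 [] [0,1,3] (Pf.cons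 (Pf.B 7 3 (Pf.B 7 1 (Pf.C 15 0x218383) (Pf.C 3 135)) (Pf.C 18 391)) Pf.nil)) (Pf.C 15 0x20c304)) (Pf.B 6 3 (Pf.C 15 0x210303) (Pf.C 0 0x814303))) (Pf.C 8 16390)) (Pf.C 14 0xa18082)) (Pf.C 33 770)) Pf.nil))))) (Pf.C 3 643)) (Pf.C 12 16389)) (Pf.C 21 261)) Pf.nil)) (Pf.C 10 16644)) (Pf.C 3 131)) (Pf.C 3 132)) (Pf.C 18 388)))
 (Pq.cons (Pq.L [0,1] 3 (Pf.B 4 3 (Pf.B 4 1 (Pf.B 3 1 (Pf.B 2 1 (Pf.W 32 3 [] [1,2,4] (Pf.cons (Pf.B 5 2 (Pf.B 5 4 (Pf.C 14 0x40c284) (Pf.B 5 1 (Pf.C 14 0x40c281) (Pf.C 14 0x814082))) (Pf.C 2 261)) (Pf.cons (Pf.B 5 2 (Pf.B 5 4 (Pf.C 14 0x40c284) (Pf.B 5 1 (Pf.C 14 0x40c281) (Pf.C 14 0x814082))) (Pf.C 2 261)) (Pf.cons (Pf.B 5 2 (Pf.B 5 4 (Pf.C 14 0x40c284) (Pf.B 5 1 (Pf.C 14 0x40c281)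 (Pf.C 14 0x814082))) (Pf.C 2 261)) Pf.nil)))) (Pf.C 14 0x608084)) (Pf.C 12 16387)) (Pf.C 12 16388)) (Pf.C 21 388)))
 (Pq.cons (Pq.L [] 1 (Pf.C 35 386))
 (Pq.cons (Pq.L [] 1 (Pf.C 37 386))
 (Pq.cons (Pq.L [] 1 (Pf.C 21 259))
 (Pq.cons (Pq.L [] 1 (Pf.C 21 386))
 Pq.nil))))))))))))))))))))))))))))))
theorem e5_o4 : AllRef e5_T e5_G13 (splitObl [16,17,18,22,24,20] [19,23,25,12,21]) :=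
  chkPq_sound e5_o4c _ (by decide +kernel)
noncomputable def e5_o5c : Pq := (Pq.cons (Pq.L [] 0 (Pf.C 38 2))
 (Pq.cons (Pq.L [] 0 (Pf.W 34 2 [] [] (Pf.cons (Pf.W 32 3 [] [2] (Pf.cons (Pf.B 4 2 (Pf.W 28 4 [] [2] (Pf.cons (Pf.B 5 2 (Pf.C 23 82180) (Pf.C 18 261)) Pf.nil)) (Pf.W 28 4 [] [2,3] (Pf.cons (Pf.B 5 2 (Pf.B 5 3 (Pf.C 24 49794) (Pf.C 0 0x410185)) (Pf.C 18 261)) Pf.nil))) (Pf.cons (Pf.C 38 4) (Pf.cons (Pf.B 4 2 (Pf.W 30 4 [] [2] (Pf.cons (Pf.B 5 2 (Pf.C 23 82180) (Pf.C 18 261)) Pf.nil)) (Pf.C 27 260)) Pf.nil)))) Pf.nil)))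
 Pq.nil))
theorem e5_o5 : AllRef e5_T e5_G14 (List.map pat1 [17,22]) :=
  chkPq_sound e5_o5c _ (by decide +kernel)
noncomputable def e5_o6c : Pq := (Pq.cons (Pq.D 0 (Pq.cons (Pq.D 1 (Pq.cons (Pq.L [] 1 (Pf.C 2 386))
 (Pq.cons (Pq.L [] 1 (Pf.C 2 386))
 (Pq.cons (Pq.D 2 (Pq.cons (Pq.L [] 2 (Pf.C 2 514))
 (Pq.cons (Pq.L [] 2 (Pf.C 2 514))
 (Pq.cons (Pq.L [] 7 (Pf.C 4 65922))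
 (Pq.cons (Pq.L [] 7 (Pf.W 26 2 [] [3,4] (Pf.cons (Pf.B 5 3 (Pf.B 5 4 (Pf.C 25 65925) (Pf.C 0 0x608205)) (Pf.C 18 389)) Pf.nil)))
 Pq.nil))))) (Pq.cons (Pq.D 2 (Pq.cons (Pq.L [] 2 (Pf.C 2 514))
 (Pq.cons (Pq.L [] 2 (Pf.C 2 514))
 (Pq.cons (Pq.L [] 7 (Pf.W 26 2 [] [3,4] (Pf.cons (Pf.B 5 4 (Pf.B 5 3 (Pf.C 25 49669) (Pf.C 0 0x808185)) (Pf.C 18 517)) Pf.nil)))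
 (Pq.cons (Pq.L [] 7 (Pf.C 3 65922))
 Pq.nil))))) Pq.nil))))) (Pq.cons (Pq.D 1 (Pq.cons (Pq.L [] 1 (Pf.C 2 386))
 (Pq.cons (Pq.L [] 1 (Pf.C 2 386))
 (Pq.cons (Pq.D 2 (Pq.cons (Pq.L [] 2 (Pf.C 2 514))
 (Pq.cons (Pq.L [] 2 (Pf.C 2 514))
 (Pq.cons (Pq.L [] 4 (Pf.C 18 515))
 (Pq.cons (Pq.L [0,1] 1 (Pf.B 3 1 (Pf.B 2 1 (Pf.B 2 0 (Pf.W 30 2 [] [0,1,3] (Pf.cons (Pf.B 5 3 (Pf.B 5 1 (Pf.C 15 0x208283) (Pf.C 3 133)) (Pf.C 18 389)) Pf.nil)) (Pf.C 8 16386)) (Pf.B 2 0 (Pf.C 8 130) (Pf.C 3 16386))) (Pf.C 3 131)))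
 Pq.nil))))) (Pq.cons (Pq.D 2 (Pq.cons (Pq.L [] 2 (Pf.C 2 514))
 (Pq.cons (Pq.L [] 2 (Pf.C 2 514))
 (Pq.cons (Pq.L [0,1] 2 (Pf.B 4 1 (Pf.B 2 1 (Pf.B 2 0 (Pf.W 30 2 [] [0,1,4] (Pf.cons (Pf.B 5 4 (Pf.B 5 1 (Pf.C 15 0x208284) (Pf.C 3 133)) (Pf.C 18 517)) Pf.nil)) (Pf.C 8 16386)) (Pf.B 2 0 (Pf.C 8 130) (Pf.C 3 16386))) (Pf.C 3 132)))
 (Pq.cons (Pq.L [] 7 (Pf.C 3 65922))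
 Pq.nil))))) Pq.nil))))) (Pq.cons (Pq.D 1 (Pq.cons (Pq.D 2 (Pq.cons (Pq.L [] 4 (Pf.C 2 515))
 (Pq.cons (Pq.L [] 4 (Pf.C 2 515))
 (Pq.cons (Pq.L [] 2 (Pf.C 18 514))
 (Pq.cons (Pq.L [] 7 (Pf.W 26 3 [] [2,4] (Pf.cons (Pf.B 5 2 (Pf.B 5 4 (Pf.C 25 65797) (Pf.C 0 0x40c205)) (Pf.C 18 261)) Pf.nil)))
 Pq.nil))))) (Pq.cons (Pq.D 2 (Pq.cons (Pq.L [] 4 (Pf.C 2 515))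
 (Pq.cons (Pq.L [] 4 (Pf.C 2 515))
 (Pq.cons (Pq.L [] 2 (Pf.C 18 514))
 (Pq.cons (Pq.L [0,1] 1 (Pf.B 2 1 (Pf.B 3 1 (Pf.B 3 0 (Pf.W 30 3 [] [0,1,2] (Pf.cons (Pf.B 5 2 (Pf.B 5 1 (Pf.C 15 0x20c282) (Pf.C 3 133)) (Pf.C 18 261)) Pf.nil)) (Pf.C 8 16387)) (Pf.B 3 0 (Pf.C 8 131) (Pf.C 3 16387))) (Pf.C 3 130)))
 Pq.nil))))) (Pq.cons (Pq.L [] 1 (Pf.C 18 386))
 (Pq.cons (Pq.D 2 (Pq.cons (Pq.L [] 7 (Pf.W 26 4 [] [2,3] (Pf.cons (Pf.B 5 2 (Pf.B 5 3 (Pf.C 25 49413) (Pf.C 0 0x410185)) (Pf.C 18 261)) Pf.nil)))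
 (Pq.cons (Pq.L [0,1] 2 (Pf.B 2 1 (Pf.B 4 1 (Pf.B 4 0 (Pf.W 30 4 [] [0,1,2] (Pf.cons (Pf.B 5 2 (Pf.B 5 1 (Pf.C 15 0x210282) (Pf.C 3 133)) (Pf.C 18 261)) Pf.nil)) (Pf.C 8 16388)) (Pf.B 4 0 (Pf.C 8 132) (Pf.C 3 16388))) (Pf.C 3 130)))
 (Pq.cons (Pq.L [] 2 (Pf.C 18 514))
 (Pq.cons (Pq.L [] 7 (Pf.C 3 65922))
 Pq.nil))))) Pq.nil))))) (Pq.cons (Pq.D 1 (Pq.cons (Pq.D 2 (Pq.cons (Pq.L [] 4 (Pf.C 2 515))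
 (Pq.cons (Pq.L [] 4 (Pf.C 2 515))
 (Pq.cons (Pq.L [] 7 (Pf.W 26 3 [] [2,4] (Pf.cons (Pf.B 5 4 (Pf.B 5 2 (Pf.C 25 33285) (Pf.C 0 0x80c105)) (Pf.C 18 517)) Pf.nil)))
 (Pq.cons (Pq.L [] 7 (Pf.C 3 65795))
 Pq.nil))))) (Pq.cons (Pq.D 2 (Pq.cons (Pq.L [] 4 (Pf.C 2 515))
 (Pq.cons (Pq.L [] 4 (Pf.C 2 515))
 (Pq.cons (Pq.L [0,1] 4 (Pf.B 4 1 (Pf.B 3 1 (Pf.B 3 0 (Pf.W 30 3 [] [0,1,4] (Pf.cons (Pf.B 5 4 (Pf.B 5 1 (Pf.C 15 0x20c284) (Pf.C 3 133)) (Pf.C 18 517)) Pf.nil)) (Pf.C 8 16387)) (Pf.B 3 0 (Pf.C 8 131) (Pf.C 3 16387))) (Pf.C 3 132)))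
 (Pq.cons (Pq.L [] 7 (Pf.C 3 65795))
 Pq.nil))))) (Pq.cons (Pq.D 2 (Pq.cons (Pq.L [] 7 (Pf.W 26 4 [] [2,3] (Pf.cons (Pf.B 5 3 (Pf.B 5 2 (Pf.C 25 33157) (Pf.C 0 0x610105)) (Pf.C 18 389)) Pf.nil)))
 (Pq.cons (Pq.L [0,1] 4 (Pf.B 3 1 (Pf.B 4 1 (Pf.B 4 0 (Pf.W 30 4 [] [0,1,3] (Pf.cons (Pf.B 5 3 (Pf.B 5 1 (Pf.C 15 0x210283) (Pf.C 3 133)) (Pf.C 18 389)) Pf.nil)) (Pf.C 8 16388)) (Pf.B 4 0 (Pf.C 8 132) (Pf.C 3 16388))) (Pf.C 3 131)))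
 (Pq.cons (Pq.L [] 7 (Pf.C 4 65922))
 (Pq.cons (Pq.L [] 2 (Pf.C 21 514))
 Pq.nil))))) (Pq.cons (Pq.L [] 1 (Pf.C 21 386))
 Pq.nil))))) Pq.nil))))) Pq.nil)
theorem e5_o6 : AllRef e5_T e5_G16 (List.take 1 (applyObl d_T 2 [16,18,24,20] [0,0,0,0] [(18,0x1000000),(24,0x40000)])) :=
  chkPq_sound e5_o6c _ (by decide +kernel)
noncomputable def e5_o7c : Pq := (Pq.cons (Pq.D 1 (Pq.cons (Pq.D 2 (Pq.cons (Pq.L [] 64 (Pf.C 2 515))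
 (Pq.cons (Pq.L [] 64 (Pf.C 2 515))
 (Pq.cons (Pq.D 3 (Pq.cons (Pq.L [] 2247 (Pf.C 13 0xa0c202))
 (Pq.cons (Pq.L [] 128 (Pf.C 2 643))
 (Pq.cons (Pq.L [] 2247 (Pf.C 13 0xa0c202))
 (Pq.cons (Pq.L [0,1] 2247 (Pf.B 5 1 (Pf.B 4 1 (Pf.B 2 1 (Pf.B 3 1 (Pf.C 15 0x210182) (Pf.C 14 0xa0c082)) (Pf.C 16 0x804105)) (Pf.C 3 132)) (Pf.C 12 16389)))
 Pq.nil))))) (Pq.cons (Pq.D 3 (Pq.cons (Pq.L [] 2247 (Pf.C 14 0xa0c202))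
 (Pq.cons (Pq.L [] 2247 (Pf.C 14 0xa0c202))
 (Pq.cons (Pq.L [0,1] 2247 (Pf.B 5 1 (Pf.B 4 1 (Pf.B 2 1 (Pf.B 3 1 (Pf.C 15 0x214182) (Pf.C 14 0x80c082)) (Pf.C 16 0xa04104)) (Pf.C 10 16901)) (Pf.C 3 133)))
 (Pq.cons (Pq.L [] 2247 (Pf.C 14 0xa0c202))
 Pq.nil))))) Pq.nil))))) (Pq.cons (Pq.D 2 (Pq.cons (Pq.L [] 64 (Pf.C 2 515))
 (Pq.cons (Pq.L [] 64 (Pf.C 2 515))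
 (Pq.cons (Pq.D 3 (Pq.cons (Pq.L [] 2247 (Pf.C 16 0x814182))
 (Pq.cons (Pq.L [] 2247 (Pf.C 13 0x814182))
 (Pq.cons (Pq.D 4 (Pq.cons (Pq.L [] 4427 (Pf.C 16 0x818182))
 (Pq.cons (Pq.L [] 4427 (Pf.C 13 0x818182))
 (Pq.cons (Pq.D 5 (Pq.cons (Pq.L [0,1] 0x58000 (Pf.B 6 1 (Pf.B 5 1 (Pf.B 7 1 (Pf.C 15 0x218385) (Pf.B 7 0 (Pf.C 8 135) (Pf.C 3 16391))) (Pf.C 3 133)) (Pf.C 3 134)))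
 (Pq.cons (Pq.L [] 75798 (Pf.C 13 0xa1c202))
 (Pq.cons (Pq.L [] 0x40319 (Pf.C 13 0xc1c182))
 (Pq.cons (Pq.L [] 8 (Pf.W 26 2 [] [6] (Pf.cons (Pf.B 9 6 (Pf.C 22 99458) (Pf.C 18 777)) Pf.nil)))
 Pq.nil))))) (Pq.cons (Pq.L [] 4427 (Pf.C 16 0x818182))
 Pq.nil))))) (Pq.cons (Pq.L [] 2247 (Pf.C 16 0x814182))
 Pq.nil))))) (Pq.cons (Pq.D 3 (Pq.cons (Pq.L [] 2247 (Pf.C 14 0xa0c202))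
 (Pq.cons (Pq.L [] 2247 (Pf.C 14 0xa0c202))
 (Pq.cons (Pq.L [] 2247 (Pf.C 16 0xa10182))
 (Pq.cons (Pq.L [] 2247 (Pf.C 14 0xa0c202))
 Pq.nil))))) Pq.nil))))) (Pq.cons (Pq.D 2 (Pq.cons (Pq.D 3 (Pq.cons (Pq.L [] 2247 (Pf.C 13 0xa0c202))
 (Pq.cons (Pq.D 4 (Pq.cons (Pq.L [] 4427 (Pf.C 13 0xc0c202))
 (Pq.cons (Pq.D 5 (Pq.cons (Pq.L [] 0x40319 (Pf.C 16 0x61c302))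
 (Pq.cons (Pq.L [] 0x40319 (Pf.C 13 0xc1c182))
 (Pq.cons (Pq.L [0,1] 99200 (Pf.B 7 1 (Pf.B 3 1 (Pf.B 5 1 (Pf.C 15 0x21c283) (Pf.B 6 1 (Pf.C 16 0x614086) (Pf.B 6 0 (Pf.C 8 134) (Pf.C 3 16390)))) (Pf.C 3 131)) (Pf.C 3 135)))
 (Pq.cons (Pq.L [] 8787 (Pf.C 15 0xe10182))
 Pq.nil))))) (Pq.cons (Pq.L [] 33165 (Pf.C 13 0xa18182))
 (Pq.cons (Pq.L [] 1 (Pf.W 26 2 [] [3] (Pf.cons (Pf.B 9 3 (Pf.C 22 50306) (Pf.C 18 393)) Pf.nil)))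
 Pq.nil))))) (Pq.cons (Pq.L [] 2247 (Pf.C 13 0xa0c202))
 (Pq.cons (Pq.L [] 1 (Pf.W 26 2 [] [3] (Pf.cons (Pf.B 9 3 (Pf.C 22 50306) (Pf.C 18 393)) Pf.nil)))
 Pq.nil))))) (Pq.cons (Pq.D 3 (Pq.cons (Pq.D 4 (Pq.cons (Pq.L [] 33165 (Pf.C 13 0xc0c282))
 (Pq.cons (Pq.D 5 (Pq.cons (Pq.L [] 0x40319 (Pf.C 16 0x61c302))
 (Pq.cons (Pq.L [] 0x40319 (Pf.C 13 0xc1c182))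
 (Pq.cons (Pq.L [0,1] 0x58280 (Pf.B 7 1 (Pf.B 3 1 (Pf.B 5 1 (Pf.C 15 0x20c287) (Pf.B 6 1 (Pf.C 16 0xe14086) (Pf.B 6 0 (Pf.C 8 134) (Pf.C 3 16390)))) (Pf.C 3 131)) (Pf.C 3 135)))
 (Pq.cons (Pq.L [] 66197 (Pf.C 15 0xe14182))
 Pq.nil))))) (Pq.cons (Pq.L [] 4427 (Pf.C 13 0x818182))
 (Pq.cons (Pq.L [] 1 (Pf.W 26 2 [] [3] (Pf.cons (Pf.B 9 3 (Pf.C 22 50306) (Pf.C 18 393)) Pf.nil)))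
 Pq.nil))))) (Pq.cons (Pq.D 4 (Pq.cons (Pq.D 5 (Pq.cons (Pq.L [] 0x40319 (Pf.C 13 0xe18182))
 (Pq.cons (Pq.L [] 0x40000 (Pf.C 2 902))
 (Pq.cons (Pq.L [] 0x40319 (Pf.C 13 0xe18182))
 (Pq.cons (Pq.L [0,1] 0x58380 (Pf.B 7 1 (Pf.B 3 1 (Pf.B 5 1 (Pf.B 6 1 (Pf.C 15 0x20c305) (Pf.C 14 0xe18085)) (Pf.C 16 0x604287)) (Pf.C 3 131)) (Pf.C 12 16391)))
 Pq.nil))))) (Pq.cons (Pq.D 5 (Pq.cons (Pq.L [] 0x40319 (Pf.C 16 0x61c302))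
 (Pq.cons (Pq.L [] 0x40319 (Pf.C 13 0xc1c182))
 (Pq.cons (Pq.L [] 75798 (Pf.C 13 0xa1c202))
 (Pq.cons (Pq.L [] 0x40319 (Pf.C 16 0x61c302))
 Pq.nil))))) (Pq.cons (Pq.L [] 4427 (Pf.C 13 0x818182))
 (Pq.cons (Pq.D 5 (Pq.cons (Pq.L [] 1 (Pf.W 26 2 [] [3] (Pf.cons (Pf.B 9 3 (Pf.C 22 50306) (Pf.C 18 393)) Pf.nil)))
 (Pq.cons (Pq.L [0,1] 0x50380 (Pf.B 6 0 (Pf.B 7 0 (Pf.B 7 1 (Pf.B 3 1 (Pf.B 5 1 (Pf.C 15 0x21c185) (Pf.B 5 0 (Pf.C 8 133) (Pf.C 3 16389))) (Pf.C 3 131)) (Pf.C 8 135)) (Pf.C 0 0xc0c380)) (Pf.C 3 771)))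
 (Pq.cons (Pq.L [] 75798 (Pf.C 13 0xa1c202))
 (Pq.cons (Pq.L [] 0x40000 (Pf.C 21 902))
 Pq.nil))))) Pq.nil))))) (Pq.cons (Pq.L [] 2247 (Pf.C 13 0x814182))
 (Pq.cons (Pq.D 4 (Pq.cons (Pq.L [] 1 (Pf.W 26 2 [] [3] (Pf.cons (Pf.B 9 3 (Pf.C 22 50306) (Pf.C 18 393)) Pf.nil)))
 (Pq.cons (Pq.D 5 (Pq.cons (Pq.L [] 0x5801c (Pf.C 15 0xa1c302))
 (Pq.cons (Pq.L [] 0x40319 (Pf.C 13 0xc1c182))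
 (Pq.cons (Pq.L [] 75798 (Pf.C 15 0xa1c202))
 (Pq.cons (Pq.L [] 0x40319 (Pf.C 16 0x61c302))
 Pq.nil))))) (Pq.cons (Pq.L [] 4427 (Pf.C 13 0x818182))
 (Pq.cons (Pq.L [0,1] 39363 (Pf.B 6 1 (Pf.B 5 1 (Pf.B 3 1 (Pf.B 4 1 (Pf.B 4 0 (Pf.B 2 1 (Pf.B 2 0 (Pf.W 26 2 [] [0,4] (Pf.cons (Pf.B 9 4 (Pf.C 15 33924) (Pf.C 27 1156)) Pf.nil)) (Pf.C 8 16386)) (Pf.C 16 0x604104)) (Pf.C 8 16388)) (Pf.C 17 0x60614084)) (Pf.C 3 131)) (Pf.C 12 16389)) (Pf.C 12 16390)))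
 Pq.nil))))) Pq.nil))))) (Pq.cons (Pq.L [] 64 (Pf.C 18 515))
 (Pq.cons (Pq.D 3 (Pq.cons (Pq.D 4 (Pq.cons (Pq.L [] 33165 (Pf.C 13 0xc0c282))
 (Pq.cons (Pq.L [] 1 (Pf.W 26 2 [] [3] (Pf.cons (Pf.B 9 3 (Pf.C 22 50306) (Pf.C 18 393)) Pf.nil)))
 (Pq.cons (Pq.L [] 33165 (Pf.C 13 0xc0c282))
 (Pq.cons (Pq.L [0,1] 4559 (Pf.B 6 1 (Pf.B 4 1 (Pf.B 3 1 (Pf.B 2 1 (Pf.B 5 1 (Pf.C 15 0x20c282) (Pf.B 5 0 (Pf.C 8 133) (Pf.C 3 16389))) (Pf.C 17 0x60610082)) (Pf.C 3 131)) (Pf.C 12 16388)) (Pf.C 12 16390)))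
 Pq.nil))))) (Pq.cons (Pq.D 4 (Pq.cons (Pq.L [] 1 (Pf.W 26 2 [] [3] (Pf.cons (Pf.B 9 3 (Pf.C 22 50306) (Pf.C 18 393)) Pf.nil)))
 (Pq.cons (Pq.D 5 (Pq.cons (Pq.L [] 0x4301a (Pf.C 15 0x81c302))
 (Pq.cons (Pq.L [] 0x40319 (Pf.C 13 0xc1c182))
 (Pq.cons (Pq.L [] 75798 (Pf.C 15 0x81c282))
 (Pq.cons (Pq.L [] 0x40319 (Pf.C 16 0x61c302))
 Pq.nil))))) (Pq.cons (Pq.L [] 33165 (Pf.C 13 0xa18182))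
 (Pq.cons (Pq.L [0,1] 39365 (Pf.B 6 1 (Pf.B 4 1 (Pf.B 3 1 (Pf.B 5 1 (Pf.B 5 0 (Pf.B 2 1 (Pf.B 2 0 (Pf.W 26 2 [] [0,5] (Pf.cons (Pf.B 9 5 (Pf.C 15 33925) (Pf.C 27 1157)) Pf.nil)) (Pf.C 8 16386)) (Pf.C 16 0x604105)) (Pf.C 8 16389)) (Pf.C 17 0x60610085)) (Pf.C 3 131)) (Pf.C 12 16388)) (Pf.C 12 16390)))
 Pq.nil))))) (Pq.cons (Pq.L [] 128 (Pf.C 18 643))
 (Pq.cons (Pq.D 4 (Pq.cons (Pq.L [0,1] 2511 (Pf.B 5 1 (Pf.B 4 1 (Pf.B 3 1 (Pf.B 2 1 (Pf.B 6 1 (Pf.C 15 0x20c302) (Pf.B 6 0 (Pf.C 8 134) (Pf.C 3 16390))) (Pf.C 17 0x50610082)) (Pf.C 3 131)) (Pf.C 12 16388)) (Pf.C 12 16389)))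
 (Pq.cons (Pq.D 5 (Pq.cons (Pq.L [] 0x4301a (Pf.C 15 0x81c302))
 (Pq.cons (Pq.L [] 0x40319 (Pf.C 13 0xc1c182))
 (Pq.cons (Pq.L [] 16 (Pf.W 26 2 [] [7] (Pf.cons (Pf.B 9 7 (Pf.C 22 0x1c482) (Pf.C 18 905)) Pf.nil)))
 (Pq.cons (Pq.L [] 0x40319 (Pf.C 16 0x61c302))
 Pq.nil))))) (Pq.cons (Pq.L [] 256 (Pf.C 18 771))
 (Pq.cons (Pq.L [] 1 (Pf.W 26 2 [] [3] (Pf.cons (Pf.B 9 3 (Pf.C 22 50306) (Pf.C 18 393)) Pf.nil)))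
 Pq.nil))))) Pq.nil))))) Pq.nil))))) (Pq.cons (Pq.D 2 (Pq.cons (Pq.D 3 (Pq.cons (Pq.L [] 2247 (Pf.C 14 0xa0c202))
 (Pq.cons (Pq.L [] 2247 (Pf.C 14 0xa0c202))
 (Pq.cons (Pq.D 4 (Pq.cons (Pq.L [] 4427 (Pf.C 14 0xc0c202))
 (Pq.cons (Pq.L [] 4427 (Pf.C 14 0xc0c202))
 (Pq.cons (Pq.L [] 8 (Pf.W 26 2 [] [6] (Pf.cons (Pf.B 9 6 (Pf.C 22 99458) (Pf.C 18 777)) Pf.nil)))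
 (Pq.cons (Pq.L [] 4427 (Pf.C 14 0xc0c202))
 Pq.nil))))) (Pq.cons (Pq.L [] 2247 (Pf.C 14 0xa0c202))
 Pq.nil))))) (Pq.cons (Pq.D 3 (Pq.cons (Pq.L [] 2247 (Pf.C 14 0xa0c202))
 (Pq.cons (Pq.L [] 2247 (Pf.C 14 0xa0c202))
 (Pq.cons (Pq.L [0,1] 2246 (Pf.B 5 1 (Pf.B 3 0 (Pf.B 4 0 (Pf.B 4 1 (Pf.B 2 1 (Pf.C 15 0x214202) (Pf.B 2 0 (Pf.C 8 130) (Pf.C 3 16386))) (Pf.C 8 132)) (Pf.C 0 0x614200)) (Pf.C 3 389)) (Pf.C 3 133)))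
 (Pq.cons (Pq.L [] 2247 (Pf.C 14 0xa0c202))
 Pq.nil))))) (Pq.cons (Pq.D 3 (Pq.cons (Pq.D 4 (Pq.cons (Pq.L [] 33165 (Pf.C 14 0xc0c282))
 (Pq.cons (Pq.L [] 33165 (Pf.C 14 0xc0c282))
 (Pq.cons (Pq.L [] 8 (Pf.W 26 2 [] [6] (Pf.cons (Pf.B 9 6 (Pf.C 22 99458) (Pf.C 18 777)) Pf.nil)))
 (Pq.cons (Pq.L [] 33165 (Pf.C 14 0xc0c282))
 Pq.nil))))) (Pq.cons (Pq.L [0,1] 2246 (Pf.B 4 1 (Pf.B 3 0 (Pf.B 5 0 (Pf.B 5 1 (Pf.B 2 1 (Pf.C 15 0x214202) (Pf.B 2 0 (Pf.C 8 130) (Pf.C 3 16386))) (Pf.C 8 133)) (Pf.C 0 0x610280)) (Pf.C 3 388)) (Pf.C 3 132)))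
 (Pq.cons (Pq.D 4 (Pq.cons (Pq.L [] 4 (Pf.W 26 2 [] [5] (Pf.cons (Pf.B 9 5 (Pf.C 22 83074) (Pf.C 18 649)) Pf.nil)))
 (Pq.cons (Pq.L [] 38926 (Pf.C 13 0xa18202))
 (Pq.cons (Pq.D 5 (Pq.cons (Pq.L [0,1] 0x58000 (Pf.B 6 1 (Pf.B 5 1 (Pf.B 7 1 (Pf.C 15 0x218385) (Pf.B 7 0 (Pf.C 8 135) (Pf.C 3 16391))) (Pf.C 3 133)) (Pf.C 3 134)))
 (Pq.cons (Pq.L [] 75798 (Pf.C 13 0xa1c202))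
 (Pq.cons (Pq.L [] 0x40000 (Pf.C 18 902))
 (Pq.cons (Pq.L [] 8 (Pf.W 26 2 [] [6] (Pf.cons (Pf.B 9 6 (Pf.C 22 99458) (Pf.C 18 777)) Pf.nil)))
 Pq.nil))))) (Pq.cons (Pq.L [] 256 (Pf.C 21 771))
 Pq.nil))))) (Pq.cons (Pq.L [] 128 (Pf.C 21 643))
 Pq.nil))))) (Pq.cons (Pq.L [] 64 (Pf.C 21 515))
 Pq.nil))))) Pq.nil))))) (Pq.cons (Pq.D 1 (Pq.cons (Pq.D 2 (Pq.cons (Pq.L [] 64 (Pf.C 2 515))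
 (Pq.cons (Pq.L [] 64 (Pf.C 2 515))
 (Pq.cons (Pq.D 3 (Pq.cons (Pq.L [] 128 (Pf.C 2 643))
 (Pq.cons (Pq.L [] 128 (Pf.C 2 643))
 (Pq.cons (Pq.D 4 (Pq.cons (Pq.L [] 38926 (Pf.C 13 0xa08206))
 (Pq.cons (Pq.L [] 256 (Pf.C 2 771))
 (Pq.cons (Pq.D 5 (Pq.cons (Pq.L [] 8787 (Pf.C 13 0x610107))
 (Pq.cons (Pq.L [] 0x40319 (Pf.C 13 0x618107))
 (Pq.cons (Pq.L [] 0x40018 (Pf.C 4 0x1c302))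
 (Pq.cons (Pq.L [] 0x50000 (Pf.W 26 3 [] [5,6,7] (Pf.cons (Pf.B 9 6 (Pf.B 9 7 (Pf.C 25 0x1c309) (Pf.B 9 5 (Pf.C 24 0x1c289) (Pf.C 18 649))) (Pf.C 18 777)) Pf.nil)))
 Pq.nil))))) (Pq.cons (Pq.D 5 (Pq.cons (Pq.L [] 8787 (Pf.C 13 0x610107))
 (Pq.cons (Pq.L [] 0x40319 (Pf.C 14 0xe18182))
 (Pq.cons (Pq.L [] 76480 (Pf.C 13 0xa0c207))
 (Pq.cons (Pq.L [] 0x40319 (Pf.C 14 0xe18182))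
 Pq.nil))))) Pq.nil))))) (Pq.cons (Pq.D 4 (Pq.cons (Pq.L [] 33165 (Pf.C 14 0xc0c282))
 (Pq.cons (Pq.L [] 33165 (Pf.C 14 0xc0c282))
 (Pq.cons (Pq.D 5 (Pq.cons (Pq.L [] 8787 (Pf.C 13 0x610107))
 (Pq.cons (Pq.L [] 0x40319 (Pf.C 13 0x618107))
 (Pq.cons (Pq.L [] 0x40018 (Pf.C 4 0x1c302))
 (Pq.cons (Pq.L [] 0x42000 (Pf.W 26 3 [] [4,6,7] (Pf.cons (Pf.B 9 6 (Pf.B 9 7 (Pf.C 25 0x1c309) (Pf.B 9 4 (Pf.C 24 0x1c209) (Pf.C 18 521))) (Pf.C 18 777)) Pf.nil)))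
 Pq.nil))))) (Pq.cons (Pq.L [] 33165 (Pf.C 14 0xc0c282))
 Pq.nil))))) Pq.nil))))) (Pq.cons (Pq.D 3 (Pq.cons (Pq.L [] 2247 (Pf.C 14 0xa0c202))
 (Pq.cons (Pq.L [] 2247 (Pf.C 14 0xa0c202))
 (Pq.cons (Pq.D 4 (Pq.cons (Pq.L [] 4427 (Pf.C 14 0xc0c202))
 (Pq.cons (Pq.L [] 4427 (Pf.C 14 0xc0c202))
 (Pq.cons (Pq.D 5 (Pq.cons (Pq.L [] 66197 (Pf.C 13 0x614107))
 (Pq.cons (Pq.L [] 0x40319 (Pf.C 13 0x618107))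
 (Pq.cons (Pq.L [] 0x40018 (Pf.C 4 0x1c302))
 (Pq.cons (Pq.L [] 0x50000 (Pf.W 26 3 [] [5,6,7] (Pf.cons (Pf.B 9 6 (Pf.B 9 7 (Pf.C 25 0x1c309) (Pf.B 9 5 (Pf.C 24 0x1c289) (Pf.C 18 649))) (Pf.C 18 777)) Pf.nil)))
 Pq.nil))))) (Pq.cons (Pq.L [] 4427 (Pf.C 14 0xc0c202))
 Pq.nil))))) (Pq.cons (Pq.L [] 2247 (Pf.C 14 0xa0c202))
 Pq.nil))))) Pq.nil))))) (Pq.cons (Pq.D 2 (Pq.cons (Pq.L [] 64 (Pf.C 2 515))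
 (Pq.cons (Pq.L [] 64 (Pf.C 2 515))
 (Pq.cons (Pq.D 3 (Pq.cons (Pq.L [] 128 (Pf.C 2 643))
 (Pq.cons (Pq.L [] 128 (Pf.C 2 643))
 (Pq.cons (Pq.L [] 2247 (Pf.C 13 0xa08203))
 (Pq.cons (Pq.L [0,1] 2240 (Pf.B 5 1 (Pf.B 4 1 (Pf.B 3 1 (Pf.C 16 0x814181) (Pf.B 3 0 (Pf.C 8 131) (Pf.C 3 16387))) (Pf.C 3 132)) (Pf.C 12 16389)))
 Pq.nil))))) (Pq.cons (Pq.D 3 (Pq.cons (Pq.L [] 2247 (Pf.C 14 0xa0c202))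
 (Pq.cons (Pq.L [] 2247 (Pf.C 14 0xa0c202))
 (Pq.cons (Pq.L [0,1] 2240 (Pf.B 5 1 (Pf.B 4 1 (Pf.B 3 1 (Pf.C 16 0xa10181) (Pf.B 3 0 (Pf.C 8 131) (Pf.C 3 16387))) (Pf.C 10 16901)) (Pf.C 3 133)))
 (Pq.cons (Pq.L [] 2247 (Pf.C 14 0xa0c202))
 Pq.nil))))) Pq.nil))))) (Pq.cons (Pq.D 2 (Pq.cons (Pq.D 3 (Pq.cons (Pq.D 4 (Pq.cons (Pq.L [] 1 (Pf.W 26 4 [] [2,3] (Pf.cons (Pf.B 9 3 (Pf.B 9 2 (Pf.C 23 50306) (Pf.C 27 1154)) (Pf.C 18 393)) Pf.nil)))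
 (Pq.cons (Pq.L [] 4427 (Pf.C 13 0x80c106))
 (Pq.cons (Pq.L [] 265 (Pf.C 4 98690))
 (Pq.cons (Pq.L [] 1 (Pf.W 26 4 [] [2,3] (Pf.cons (Pf.B 9 3 (Pf.B 9 2 (Pf.C 23 50306) (Pf.C 27 1154)) (Pf.C 18 393)) Pf.nil)))
 Pq.nil))))) (Pq.cons (Pq.L [] 2247 (Pf.C 13 0x80c105))
 (Pq.cons (Pq.L [] 133 (Pf.C 4 82306))
 (Pq.cons (Pq.D 4 (Pq.cons (Pq.L [] 1 (Pf.W 26 4 [] [2,3] (Pf.cons (Pf.B 9 3 (Pf.B 9 2 (Pf.C 23 50306) (Pf.C 27 1154)) (Pf.C 18 393)) Pf.nil)))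
 (Pq.cons (Pq.L [] 4427 (Pf.C 13 0x80c106))
 (Pq.cons (Pq.L [] 265 (Pf.C 4 98690))
 (Pq.cons (Pq.L [] 1 (Pf.W 26 4 [] [2,3] (Pf.cons (Pf.B 9 3 (Pf.B 9 2 (Pf.C 23 50306) (Pf.C 27 1154)) (Pf.C 18 393)) Pf.nil)))
 Pq.nil))))) Pq.nil))))) (Pq.cons (Pq.D 3 (Pq.cons (Pq.L [] 2247 (Pf.C 13 0xa0c104))
 (Pq.cons (Pq.D 4 (Pq.cons (Pq.L [] 4427 (Pf.C 13 0xc0c104))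
 (Pq.cons (Pq.D 5 (Pq.cons (Pq.L [] 0x43340 (Pf.C 16 0x61c304))
 (Pq.cons (Pq.L [] 8787 (Pf.C 13 0xe0c104))
 (Pq.cons (Pq.L [] 0x4301a (Pf.C 13 0x81c106))
 (Pq.cons (Pq.L [] 8787 (Pf.C 15 0xe0c104))
 Pq.nil))))) (Pq.cons (Pq.L [] 265 (Pf.C 4 98690))
 (Pq.cons (Pq.D 5 (Pq.cons (Pq.D 6 (Pq.cons (Pq.L [] 0x1c0038 (Pf.C 14 0x101c302))
 (Pq.cons (Pq.L [] 17507 (Pf.C 13 0x100c104))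
 (Pq.cons (Pq.L [] 0x24cc0 (Pf.C 13 0xa20203))
 (Pq.cons (Pq.L [] 0x1c0038 (Pf.C 14 0x101c302))
 Pq.nil))))) (Pq.cons (Pq.L [] 8787 (Pf.C 13 0xe0c104))
 (Pq.cons (Pq.L [] 76480 (Pf.C 13 0xa1c203))
 (Pq.cons (Pq.L [] 8787 (Pf.C 15 0xe0c104))
 Pq.nil))))) Pq.nil))))) (Pq.cons (Pq.L [] 133 (Pf.C 4 82306))
 (Pq.cons (Pq.D 4 (Pq.cons (Pq.L [] 4427 (Pf.C 13 0xc0c104))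
 (Pq.cons (Pq.D 5 (Pq.cons (Pq.L [] 0x5801c (Pf.C 15 0xa1c302))
 (Pq.cons (Pq.L [] 8787 (Pf.C 13 0xe0c104))
 (Pq.cons (Pq.L [] 0x4301a (Pf.C 13 0x81c106))
 (Pq.cons (Pq.L [] 8787 (Pf.C 15 0xe0c104))
 Pq.nil))))) (Pq.cons (Pq.L [] 265 (Pf.C 4 98690))
 (Pq.cons (Pq.L [0,1] 39363 (Pf.B 6 1 (Pf.B 5 1 (Pf.B 3 1 (Pf.B 4 1 (Pf.B 2 1 (Pf.C 15 0x20c104) (Pf.B 2 0 (Pf.C 8 130) (Pf.C 3 16386))) (Pf.C 17 0x60614084)) (Pf.C 3 131)) (Pf.C 12 16389)) (Pf.C 12 16390)))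
 Pq.nil))))) Pq.nil))))) (Pq.cons (Pq.L [] 67 (Pf.C 4 65922))
 (Pq.cons (Pq.D 3 (Pq.cons (Pq.D 4 (Pq.cons (Pq.L [] 1 (Pf.W 26 5 [] [2,3] (Pf.cons (Pf.B 9 3 (Pf.B 9 2 (Pf.C 23 50306) (Pf.C 27 1154)) (Pf.C 18 393)) Pf.nil)))
 (Pq.cons (Pq.L [] 33165 (Pf.C 13 0xa0c106))
 (Pq.cons (Pq.L [] 265 (Pf.C 4 98690))
 (Pq.cons (Pq.L [] 1 (Pf.W 26 5 [] [2,3] (Pf.cons (Pf.B 9 3 (Pf.B 9 2 (Pf.C 23 50306) (Pf.C 27 1154)) (Pf.C 18 393)) Pf.nil)))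
 Pq.nil))))) (Pq.cons (Pq.D 4 (Pq.cons (Pq.L [] 33165 (Pf.C 13 0xc0c105))
 (Pq.cons (Pq.D 5 (Pq.cons (Pq.L [] 0x4301a (Pf.C 15 0x81c302))
 (Pq.cons (Pq.L [] 66197 (Pf.C 13 0xe0c105))
 (Pq.cons (Pq.L [] 0x5801c (Pf.C 13 0xa1c106))
 (Pq.cons (Pq.L [] 66197 (Pf.C 15 0xe0c105))
 Pq.nil))))) (Pq.cons (Pq.L [] 265 (Pf.C 4 98690))
 (Pq.cons (Pq.L [0,1] 39365 (Pf.B 6 1 (Pf.B 4 1 (Pf.B 3 1 (Pf.B 5 1 (Pf.B 2 1 (Pf.C 15 0x20c105) (Pf.B 2 0 (Pf.C 8 130) (Pf.C 3 16386))) (Pf.C 17 0x60610085)) (Pf.C 3 131)) (Pf.C 12 16388)) (Pf.C 12 16390)))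
 Pq.nil))))) (Pq.cons (Pq.L [] 133 (Pf.C 4 82306))
 (Pq.cons (Pq.D 4 (Pq.cons (Pq.D 5 (Pq.cons (Pq.L [] 0x4301a (Pf.C 15 0x81c302))
 (Pq.cons (Pq.L [] 0x4301a (Pf.C 15 0x81c302))
 (Pq.cons (Pq.L [] 8256 (Pf.W 26 6 [] [3,4,7] (Pf.cons (Pf.B 9 7 (Pf.B 9 4 (Pf.B 9 3 (Pf.C 25 65929) (Pf.C 18 393)) (Pf.C 24 66441)) (Pf.C 18 905)) Pf.nil)))
 (Pq.cons (Pq.L [] 1 (Pf.W 26 6 [] [2,3] (Pf.cons (Pf.B 9 3 (Pf.B 9 2 (Pf.C 23 50306) (Pf.C 27 1154)) (Pf.C 18 393)) Pf.nil)))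
 Pq.nil))))) (Pq.cons (Pq.L [0,1] 39369 (Pf.B 5 1 (Pf.B 4 1 (Pf.B 3 1 (Pf.B 6 1 (Pf.B 2 1 (Pf.C 15 0x20c106) (Pf.B 2 0 (Pf.C 8 130) (Pf.C 3 16386))) (Pf.C 17 0x50610086)) (Pf.C 3 131)) (Pf.C 12 16388)) (Pf.C 12 16389)))
 (Pq.cons (Pq.L [] 265 (Pf.C 4 98690))
 (Pq.cons (Pq.D 5 (Pq.cons (Pq.L [0,1] 0x58211 (Pf.B 6 1 (Pf.B 5 1 (Pf.B 7 1 (Pf.B 3 1 (Pf.B 2 1 (Pf.C 15 0x20c107) (Pf.B 2 0 (Pf.C 8 130) (Pf.C 3 16386))) (Pf.C 3 131)) (Pf.C 14 0xc1c085)) (Pf.C 12 16389)) (Pf.C 12 16390)))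
 (Pq.cons (Pq.D 6 (Pq.cons (Pq.L [] 0x1c0038 (Pf.C 14 0x101c302))
 (Pq.cons (Pq.L [] 0x1c0038 (Pf.C 14 0x101c302))
 (Pq.cons (Pq.L [] 0x106032 (Pf.C 15 0x820107))
 (Pq.cons (Pq.L [] 0x1c0038 (Pf.C 14 0x101c302))
 Pq.nil))))) (Pq.cons (Pq.D 6 (Pq.cons (Pq.L [] 0x136ec0 (Pf.C 17 0x50610407))
 (Pq.cons (Pq.L [] 0x106032 (Pf.C 15 0x81c108))
 (Pq.cons (Pq.L [] 0x100030 (Pf.C 4 0x20382))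
 (Pq.cons (Pq.L [] 0x136ec0 (Pf.C 17 0x50610407))
 Pq.nil))))) (Pq.cons (Pq.L [] 0x40000 (Pf.C 21 902))
 Pq.nil))))) Pq.nil))))) Pq.nil))))) Pq.nil))))) (Pq.cons (Pq.D 2 (Pq.cons (Pq.D 3 (Pq.cons (Pq.L [] 2247 (Pf.C 14 0xa0c202))
 (Pq.cons (Pq.L [] 2247 (Pf.C 14 0xa0c202))
 (Pq.cons (Pq.D 4 (Pq.cons (Pq.L [] 4427 (Pf.C 14 0xc0c202))
 (Pq.cons (Pq.L [] 38926 (Pf.C 13 0xc14104))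
 (Pq.cons (Pq.L [] 38926 (Pf.C 13 0xc08284))
 (Pq.cons (Pq.L [] 4427 (Pf.C 14 0xc0c202))
 Pq.nil))))) (Pq.cons (Pq.L [] 2247 (Pf.C 14 0xa0c202))
 Pq.nil))))) (Pq.cons (Pq.D 3 (Pq.cons (Pq.L [] 2247 (Pf.C 14 0xa0c202))
 (Pq.cons (Pq.L [] 2247 (Pf.C 14 0xa0c202))
 (Pq.cons (Pq.D 4 (Pq.cons (Pq.L [] 38926 (Pf.C 13 0x814106))
 (Pq.cons (Pq.L [] 4427 (Pf.C 14 0xc0c202))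
 (Pq.cons (Pq.L [] 39360 (Pf.C 0 0xc10185))
 (Pq.cons (Pq.L [] 4427 (Pf.C 14 0xc0c202))
 Pq.nil))))) (Pq.cons (Pq.L [] 2247 (Pf.C 14 0xa0c202))
 Pq.nil))))) (Pq.cons (Pq.D 3 (Pq.cons (Pq.D 4 (Pq.cons (Pq.L [] 33165 (Pf.C 14 0xc0c282))
 (Pq.cons (Pq.L [] 38926 (Pf.C 13 0xc10105))
 (Pq.cons (Pq.L [] 38926 (Pf.C 13 0xc08205))
 (Pq.cons (Pq.L [] 33165 (Pf.C 14 0xc0c282))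
 Pq.nil))))) (Pq.cons (Pq.D 4 (Pq.cons (Pq.L [] 38926 (Pf.C 13 0xa10106))
 (Pq.cons (Pq.L [] 33165 (Pf.C 14 0xc0c282))
 (Pq.cons (Pq.L [] 39360 (Pf.C 0 0xc14184))
 (Pq.cons (Pq.L [] 33165 (Pf.C 14 0xc0c282))
 Pq.nil))))) (Pq.cons (Pq.D 4 (Pq.cons (Pq.L [] 38926 (Pf.C 13 0xa08206))
 (Pq.cons (Pq.L [] 39360 (Pf.C 0 0xa18184))
 (Pq.cons (Pq.D 5 (Pq.cons (Pq.L [] 75798 (Pf.C 13 0xa08207))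
 (Pq.cons (Pq.L [] 0x5b800 (Pf.C 13 0xa1c206))
 (Pq.cons (Pq.L [] 0x40018 (Pf.C 4 0x1c302))
 (Pq.cons (Pq.D 6 (Pq.cons (Pq.L [] 0x24826 (Pf.C 13 0xa08208))
 (Pq.cons (Pq.L [] 0xa85ad (Pf.W 32 3 [] [2,5,6,8] (Pf.cons (Pf.B 9 8 (Pf.B 9 2 (Pf.B 9 6 (Pf.C 13 0x1018109) (Pf.B 9 5 (Pf.C 13 0x1014109) (Pf.C 0 0xc0c485))) (Pf.C 2 265)) (Pf.C 2 1033)) (Pf.cons (Pf.B 9 8 (Pf.B 9 2 (Pf.B 9 6 (Pf.C 13 0x1018109) (Pf.B 9 5 (Pf.C 13 0x1014109) (Pf.C 0 0xc0c485))) (Pf.C 2 265)) (Pf.C 2 1033)) Pf.nil))))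
 (Pq.cons (Pq.L [] 0x136ec0 (Pf.C 17 0x50610407))
 (Pq.cons (Pq.L [] 0x106673 (Pf.C 17 0x30808407))
 Pq.nil))))) Pq.nil))))) (Pq.cons (Pq.L [] 256 (Pf.C 21 771))
 Pq.nil))))) (Pq.cons (Pq.L [] 128 (Pf.C 21 643))
 Pq.nil))))) (Pq.cons (Pq.L [] 64 (Pf.C 21 515))
 Pq.nil))))) Pq.nil))))) Pq.nil))
theorem e5_o7 : AllRef e5_T e5_G16 (List.take 2 (List.flatMap (splitP 0) (List.drop 1 (applyObl d_T 2 [16,18,24,20] [0,0,0,0] [(18,0x1000000),(24,0x40000)])))) :=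
  chkPq_sound e5_o7c _ (by decide +kernel)
noncomputable def e5_o8c : Pq := (Pq.cons (Pq.D 1 (Pq.cons (Pq.D 2 (Pq.cons (Pq.L [] 64 (Pf.C 2 515))
 (Pq.cons (Pq.L [] 64 (Pf.C 2 515))
 (Pq.cons (Pq.L [0,1] 67 (Pf.B 4 1 (Pf.B 2 1 (Pf.B 3 1 (Pf.C 15 0x210182) (Pf.B 3 0 (Pf.C 8 131) (Pf.C 3 16387))) (Pf.C 3 130)) (Pf.C 3 132)))
 (Pq.cons (Pq.L [0,1] 67 (Pf.B 4 1 (Pf.B 2 1 (Pf.B 3 1 (Pf.C 16 0x410181) (Pf.B 3 0 (Pf.C 8 131) (Pf.C 3 16387))) (Pf.C 3 130)) (Pf.C 12 16388)))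
 Pq.nil))))) (Pq.cons (Pq.D 2 (Pq.cons (Pq.L [] 64 (Pf.C 2 515))
 (Pq.cons (Pq.L [] 64 (Pf.C 2 515))
 (Pq.cons (Pq.L [0,1] 67 (Pf.B 4 1 (Pf.B 2 1 (Pf.B 3 1 (Pf.C 15 0x208184) (Pf.B 3 0 (Pf.C 8 131) (Pf.C 3 16387))) (Pf.C 3 130)) (Pf.C 3 132)))
 (Pq.cons (Pq.D 3 (Pq.cons (Pq.L [] 128 (Pf.C 2 643))
 (Pq.cons (Pq.L [] 128 (Pf.C 2 643))
 (Pq.cons (Pq.L [0,1] 2240 (Pf.B 5 1 (Pf.B 4 1 (Pf.B 3 1 (Pf.C 16 0xa10181) (Pf.B 3 0 (Pf.C 8 131) (Pf.C 3 16387))) (Pf.C 10 16901)) (Pf.C 3 133)))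
 (Pq.cons (Pq.L [0,1] 2240 (Pf.B 5 1 (Pf.B 4 1 (Pf.B 3 1 (Pf.C 14 0xa0c201) (Pf.B 3 0 (Pf.C 8 131) (Pf.C 3 16387))) (Pf.C 12 16388)) (Pf.C 12 16389)))
 Pq.nil))))) Pq.nil))))) (Pq.cons (Pq.D 2 (Pq.cons (Pq.L [0,1] 67 (Pf.B 3 1 (Pf.B 2 1 (Pf.B 4 1 (Pf.C 15 0x20c202) (Pf.B 4 0 (Pf.C 8 132) (Pf.C 3 16388))) (Pf.C 3 130)) (Pf.C 3 131)))
 (Pq.cons (Pq.L [0,1] 67 (Pf.B 3 1 (Pf.B 2 1 (Pf.B 4 1 (Pf.C 15 0x208203) (Pf.B 4 0 (Pf.C 8 132) (Pf.C 3 16388))) (Pf.C 3 130)) (Pf.C 3 131)))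
 (Pq.cons (Pq.L [] 64 (Pf.C 18 515))
 (Pq.cons (Pq.D 3 (Pq.cons (Pq.L [0,1] 2183 (Pf.B 4 1 (Pf.B 3 1 (Pf.B 2 1 (Pf.B 5 1 (Pf.C 15 0x20c282) (Pf.C 16 0x404284)) (Pf.C 3 130)) (Pf.C 3 131)) (Pf.C 12 16388)))
 (Pq.cons (Pq.L [0,1] 2247 (Pf.B 4 1 (Pf.B 3 1 (Pf.B 2 1 (Pf.B 5 1 (Pf.C 15 0x208283) (Pf.C 17 0x20a04203)) (Pf.C 3 130)) (Pf.C 3 131)) (Pf.C 12 16388)))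
 (Pq.cons (Pq.L [] 128 (Pf.C 18 643))
 (Pq.cons (Pq.D 4 (Pq.cons (Pq.L [0,1] 4363 (Pf.B 4 1 (Pf.B 3 1 (Pf.B 2 1 (Pf.B 6 1 (Pf.C 15 0x20c302) (Pf.C 16 0x404304)) (Pf.C 3 130)) (Pf.C 3 131)) (Pf.C 12 16388)))
 (Pq.cons (Pq.L [] 39375 (Pf.C 17 0x50610302))
 (Pq.cons (Pq.L [] 256 (Pf.C 18 771))
 (Pq.cons (Pq.D 5 (Pq.cons (Pq.L [] 0x4301a (Pf.C 16 0x41c304))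
 (Pq.cons (Pq.D 6 (Pq.cons (Pq.L [] 0x1c7000 (Pf.C 14 0x101c304))
 (Pq.cons (Pq.L [] 0x100631 (Pf.C 0 0x620382))
 (Pq.cons (Pq.L [] 0x100631 (Pf.C 13 0x61c108))
 (Pq.cons (Pq.L [] 0x1c7000 (Pf.C 14 0x101c304))
 Pq.nil))))) (Pq.cons (Pq.D 6 (Pq.cons (Pq.L [] 0x106032 (Pf.C 15 0x820382))
 (Pq.cons (Pq.L [] 0x100631 (Pf.C 13 0x620107))
 (Pq.cons (Pq.L [] 0x106032 (Pf.C 15 0x820382))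
 (Pq.cons (Pq.L [] 0x136ef7 (Pf.C 1 0x2830820382))
 Pq.nil))))) (Pq.cons (Pq.L [] 0x40018 (Pf.C 10 0x1c302))
 Pq.nil))))) Pq.nil))))) Pq.nil))))) Pq.nil))))) (Pq.cons (Pq.D 2 (Pq.cons (Pq.L [0,1] 67 (Pf.B 3 1 (Pf.B 2 1 (Pf.B 4 1 (Pf.C 16 0x40c201) (Pf.B 4 0 (Pf.C 8 132) (Pf.C 3 16388))) (Pf.C 3 130)) (Pf.C 12 16387)))
 (Pq.cons (Pq.D 3 (Pq.cons (Pq.L [0,1] 133 (Pf.B 3 1 (Pf.B 2 1 (Pf.B 5 1 (Pf.C 16 0x40c281) (Pf.B 5 0 (Pf.C 8 133) (Pf.C 3 16389))) (Pf.C 3 130)) (Pf.C 12 16387)))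
 (Pq.cons (Pq.D 4 (Pq.cons (Pq.L [] 38926 (Pf.C 13 0xa08206))
 (Pq.cons (Pq.D 5 (Pq.cons (Pq.L [] 75798 (Pf.C 13 0xa08207))
 (Pq.cons (Pq.L [] 76480 (Pf.C 14 0xa0c207))
 (Pq.cons (Pq.L [] 0x5b800 (Pf.C 13 0xa1c206))
 (Pq.cons (Pq.L [] 76480 (Pf.C 14 0xa0c207))
 Pq.nil))))) (Pq.cons (Pq.L [] 39360 (Pf.C 0 0xa18184))
 (Pq.cons (Pq.L [] 265 (Pf.C 10 98690))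
 Pq.nil))))) (Pq.cons (Pq.D 4 (Pq.cons (Pq.L [] 38926 (Pf.C 13 0xa10106))
 (Pq.cons (Pq.L [] 39360 (Pf.C 0 0xc14184))
 (Pq.cons (Pq.L [] 39360 (Pf.C 0 0xc10185))
 (Pq.cons (Pq.L [] 265 (Pf.C 10 98690))
 Pq.nil))))) (Pq.cons (Pq.L [] 133 (Pf.C 10 82306))
 Pq.nil))))) (Pq.cons (Pq.D 3 (Pq.cons (Pq.L [0,1] 133 (Pf.B 3 1 (Pf.B 2 1 (Pf.B 5 1 (Pf.C 16 0x40c281) (Pf.B 5 0 (Pf.C 8 133) (Pf.C 3 16389))) (Pf.C 3 130)) (Pf.C 12 16387)))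
 (Pq.cons (Pq.D 4 (Pq.cons (Pq.L [] 38926 (Pf.C 13 0x814106))
 (Pq.cons (Pq.L [] 39360 (Pf.C 0 0xc10185))
 (Pq.cons (Pq.L [] 39360 (Pf.C 0 0xc14184))
 (Pq.cons (Pq.L [] 265 (Pf.C 10 98690))
 Pq.nil))))) (Pq.cons (Pq.D 4 (Pq.cons (Pq.L [0,1] 265 (Pf.B 3 1 (Pf.B 2 1 (Pf.B 6 1 (Pf.C 16 0x40c301) (Pf.B 6 0 (Pf.C 8 134) (Pf.C 3 16390))) (Pf.C 3 130)) (Pf.C 12 16387)))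
 (Pq.cons (Pq.L [] 39360 (Pf.C 0 0xa18184))
 (Pq.cons (Pq.D 5 (Pq.cons (Pq.L [0,1] 0x58000 (Pf.B 6 1 (Pf.B 5 1 (Pf.B 7 1 (Pf.C 15 0x218385) (Pf.B 7 0 (Pf.C 8 135) (Pf.C 3 16391))) (Pf.C 3 133)) (Pf.C 3 134)))
 (Pq.cons (Pq.L [] 0x4301a (Pf.C 13 0x81c106))
 (Pq.cons (Pq.L [] 0x40000 (Pf.C 18 902))
 (Pq.cons (Pq.D 6 (Pq.cons (Pq.L [] 0x100631 (Pf.C 16 0x420383))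
 (Pq.cons (Pq.L [0,1] 0xac5a2 (Pf.B 8 0 (Pf.B 8 1 (Pf.B 6 1 (Pf.B 5 1 (Pf.B 3 1 (Pf.W 32 3 [] [1,5,6,8] (Pf.cons (Pf.B 9 8 (Pf.B 9 1 (Pf.B 9 6 (Pf.C 15 0x220309) (Pf.B 9 5 (Pf.C 15 0x220289) (Pf.C 0 0xc0c485))) (Pf.C 14 0x624088)) (Pf.C 2 1033)) (Pf.cons (Pf.B 9 8 (Pf.B 9 1 (Pf.B 9 6 (Pf.C 15 0x220309) (Pf.B 9 5 (Pf.C 15 0x220289) (Pf.C 0 0xc0c485))) (Pf.C 14 0x624088)) (Pf.C 2 1033)) Pf.nil))) (Pf.C 12 16387)) (Pf.C 3 133)) (Pf.C 3 134)) (Pf.C 8 136)) (Pf.C 0 0x800402)))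
 (Pq.cons (Pq.L [] 0x136ef7 (Pf.C 1 0x2830820382))
 (Pq.cons (Pq.L [] 0x100030 (Pf.C 10 0x20382))
 Pq.nil))))) Pq.nil))))) (Pq.cons (Pq.L [] 265 (Pf.C 10 98690))
 Pq.nil))))) (Pq.cons (Pq.L [] 133 (Pf.C 10 82306))
 Pq.nil))))) (Pq.cons (Pq.L [] 67 (Pf.C 10 65922))
 Pq.nil))))) Pq.nil))))) (Pq.cons (Pq.D 1 (Pq.cons (Pq.D 2 (Pq.cons (Pq.L [] 64 (Pf.C 2 515))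
 (Pq.cons (Pq.L [] 64 (Pf.C 2 515))
 (Pq.cons (Pq.D 3 (Pq.cons (Pq.L [] 128 (Pf.C 2 643))
 (Pq.cons (Pq.L [] 128 (Pf.C 2 643))
 (Pq.cons (Pq.D 4 (Pq.cons (Pq.L [] 256 (Pf.C 2 771))
 (Pq.cons (Pq.L [] 256 (Pf.C 2 771))
 (Pq.cons (Pq.D 5 (Pq.cons (Pq.L [] 0x4301a (Pf.C 15 0x41c304))
 (Pq.cons (Pq.L [] 0x4301a (Pf.C 15 0x41c206))
 (Pq.cons (Pq.L [] 0x40018 (Pf.C 9 33670))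
 (Pq.cons (Pq.L [] 0x50000 (Pf.W 26 3 [] [5,6,7] (Pf.cons (Pf.B 9 6 (Pf.B 9 7 (Pf.C 25 0x1c309) (Pf.B 9 5 (Pf.C 24 0x1c289) (Pf.C 18 649))) (Pf.C 18 777)) Pf.nil)))
 Pq.nil))))) (Pq.cons (Pq.D 5 (Pq.cons (Pq.L [] 0x40319 (Pf.C 14 0xe18182))
 (Pq.cons (Pq.L [] 0x40319 (Pf.C 14 0xe18182))
 (Pq.cons (Pq.L [] 8787 (Pf.C 15 0x410187))
 (Pq.cons (Pq.L [] 0x40319 (Pf.C 14 0xe18182))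
 Pq.nil))))) Pq.nil))))) (Pq.cons (Pq.D 4 (Pq.cons (Pq.L [] 33165 (Pf.C 14 0xc0c282))
 (Pq.cons (Pq.L [] 33165 (Pf.C 14 0xc0c282))
 (Pq.cons (Pq.D 5 (Pq.cons (Pq.L [] 0x4301a (Pf.C 15 0x41c304))
 (Pq.cons (Pq.L [] 0x4301a (Pf.C 15 0x41c206))
 (Pq.cons (Pq.L [] 0x40018 (Pf.C 9 33670))
 (Pq.cons (Pq.L [] 0x42000 (Pf.W 26 3 [] [4,6,7] (Pf.cons (Pf.B 9 6 (Pf.B 9 7 (Pf.C 25 0x1c309) (Pf.B 9 4 (Pf.C 24 0x1c209) (Pf.C 18 521))) (Pf.C 18 777)) Pf.nil)))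
 Pq.nil))))) (Pq.cons (Pq.L [] 33165 (Pf.C 14 0xc0c282))
 Pq.nil))))) Pq.nil))))) (Pq.cons (Pq.D 3 (Pq.cons (Pq.L [] 2247 (Pf.C 14 0xa0c202))
 (Pq.cons (Pq.L [] 2247 (Pf.C 14 0xa0c202))
 (Pq.cons (Pq.D 4 (Pq.cons (Pq.L [] 4427 (Pf.C 14 0xc0c202))
 (Pq.cons (Pq.L [] 4427 (Pf.C 14 0xc0c202))
 (Pq.cons (Pq.D 5 (Pq.cons (Pq.L [] 0x5801c (Pf.C 15 0x41c305))
 (Pq.cons (Pq.L [] 0x5801c (Pf.C 15 0x41c286))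
 (Pq.cons (Pq.L [] 0x40018 (Pf.C 9 33670))
 (Pq.cons (Pq.L [] 0x50000 (Pf.W 26 3 [] [5,6,7] (Pf.cons (Pf.B 9 6 (Pf.B 9 7 (Pf.C 25 0x1c309) (Pf.B 9 5 (Pf.C 24 0x1c289) (Pf.C 18 649))) (Pf.C 18 777)) Pf.nil)))
 Pq.nil))))) (Pq.cons (Pq.L [] 4427 (Pf.C 14 0xc0c202))
 Pq.nil))))) (Pq.cons (Pq.L [] 2247 (Pf.C 14 0xa0c202))
 Pq.nil))))) Pq.nil))))) (Pq.cons (Pq.D 2 (Pq.cons (Pq.L [] 64 (Pf.C 2 515))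
 (Pq.cons (Pq.L [] 64 (Pf.C 2 515))
 (Pq.cons (Pq.D 3 (Pq.cons (Pq.L [] 2247 (Pf.C 15 0x414184))
 (Pq.cons (Pq.L [] 128 (Pf.C 2 643))
 (Pq.cons (Pq.D 4 (Pq.cons (Pq.L [] 4427 (Pf.C 15 0x418184))
 (Pq.cons (Pq.L [] 256 (Pf.C 2 771))
 (Pq.cons (Pq.D 5 (Pq.cons (Pq.L [] 0x40319 (Pf.C 15 0x41c303))
 (Pq.cons (Pq.L [] 8787 (Pf.C 15 0x41c203))
 (Pq.cons (Pq.L [] 0x40018 (Pf.C 9 33670))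
 (Pq.cons (Pq.D 6 (Pq.cons (Pq.L [] 0x106032 (Pf.C 16 0x820382))
 (Pq.cons (Pq.L [] 17507 (Pf.C 15 0x420203))
 (Pq.cons (Pq.L [] 17507 (Pf.C 15 0x420184))
 (Pq.cons (Pq.L [] 0x106032 (Pf.C 16 0x820382))
 Pq.nil))))) Pq.nil))))) (Pq.cons (Pq.L [] 4427 (Pf.C 16 0x818182))
 Pq.nil))))) (Pq.cons (Pq.L [] 2247 (Pf.C 16 0x814182))
 Pq.nil))))) (Pq.cons (Pq.D 3 (Pq.cons (Pq.L [] 2247 (Pf.C 14 0xa0c202))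
 (Pq.cons (Pq.L [] 2247 (Pf.C 14 0xa0c202))
 (Pq.cons (Pq.L [] 2247 (Pf.C 16 0xa10182))
 (Pq.cons (Pq.L [] 2247 (Pf.C 14 0xa0c202))
 Pq.nil))))) Pq.nil))))) (Pq.cons (Pq.D 2 (Pq.cons (Pq.D 3 (Pq.cons (Pq.D 4 (Pq.cons (Pq.D 5 (Pq.cons (Pq.L [] 0x4301a (Pf.C 15 0x41c304))
 (Pq.cons (Pq.L [] 0x4301a (Pf.C 15 0x41c304))
 (Pq.cons (Pq.L [] 0x4301a (Pf.C 15 0x41c304))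
 (Pq.cons (Pq.D 6 (Pq.cons (Pq.L [] 0x1c0038 (Pf.C 14 0x101c302))
 (Pq.cons (Pq.L [] 0x1c0038 (Pf.C 14 0x101c302))
 (Pq.cons (Pq.L [] 17507 (Pf.C 15 0x410188))
 (Pq.cons (Pq.L [] 0x1c0038 (Pf.C 14 0x101c302))
 Pq.nil))))) Pq.nil))))) (Pq.cons (Pq.L [] 4427 (Pf.C 15 0x410186))
 (Pq.cons (Pq.L [] 265 (Pf.C 9 33539))
 (Pq.cons (Pq.D 5 (Pq.cons (Pq.L [] 8787 (Pf.C 15 0x410187))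
 (Pq.cons (Pq.L [] 75904 (Pf.W 26 4 [] [3,5,7] (Pf.cons (Pf.B 9 7 (Pf.B 9 5 (Pf.B 9 3 (Pf.C 23 50309) (Pf.C 18 393)) (Pf.C 13 0x824287)) (Pf.C 27 1159)) Pf.nil)))
 (Pq.cons (Pq.L [] 8787 (Pf.C 15 0x410187))
 (Pq.cons (Pq.L [] 0x40000 (Pf.C 21 902))
 Pq.nil))))) Pq.nil))))) (Pq.cons (Pq.L [] 2247 (Pf.C 15 0x410185))
 (Pq.cons (Pq.L [] 133 (Pf.C 9 33411))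
 (Pq.cons (Pq.D 4 (Pq.cons (Pq.D 5 (Pq.cons (Pq.L [] 0x4301a (Pf.C 15 0x41c304))
 (Pq.cons (Pq.L [] 0x4301a (Pf.C 15 0x41c304))
 (Pq.cons (Pq.L [] 0x4301a (Pf.C 15 0x41c304))
 (Pq.cons (Pq.L [] 0x1fffc0 (Pf.B 8 3 (Pf.C 17 0x50610388) (Pf.W 32 5 [] [3,4,6,7,8] (Pf.cons (Pf.B 9 6 (Pf.B 9 4 (Pf.B 9 7 (Pf.B 9 8 (Pf.C 17 0x60e20289) (Pf.B 9 3 (Pf.C 13 0xc0c209) (Pf.C 0 0x100c485))) (Pf.C 14 0xc1c484)) (Pf.C 2 521)) (Pf.C 2 777)) (Pf.cons (Pf.B 9 6 (Pf.B 9 4 (Pf.B 9 7 (Pf.B 9 8 (Pf.C 17 0x60e20289) (Pf.B 9 3 (Pf.C 13 0xc0c209) (Pf.C 0 0x100c485))) (Pf.C 14 0xc1c484)) (Pf.C 2 521)) (Pf.C 2 777)) Pf.nil)))))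
 Pq.nil))))) (Pq.cons (Pq.L [] 4427 (Pf.C 15 0x410186))
 (Pq.cons (Pq.L [] 265 (Pf.C 9 33539))
 (Pq.cons (Pq.D 5 (Pq.cons (Pq.L [] 8787 (Pf.C 15 0x410187))
 (Pq.cons (Pq.L [] 512 (Pf.W 26 4 [] [3,7] (Pf.cons (Pf.B 9 7 (Pf.B 9 3 (Pf.C 23 50311) (Pf.C 18 393)) (Pf.C 27 1159)) Pf.nil)))
 (Pq.cons (Pq.L [] 8787 (Pf.C 15 0x410187))
 (Pq.cons (Pq.L [] 0x40000 (Pf.C 21 902))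
 Pq.nil))))) Pq.nil))))) Pq.nil))))) (Pq.cons (Pq.D 3 (Pq.cons (Pq.L [] 2247 (Pf.C 15 0x414184))
 (Pq.cons (Pq.D 4 (Pq.cons (Pq.L [] 4427 (Pf.C 15 0x418184))
 (Pq.cons (Pq.D 5 (Pq.cons (Pq.L [] 0x40319 (Pf.C 15 0x41c303))
 (Pq.cons (Pq.L [] 8787 (Pf.C 15 0x41c184))
 (Pq.cons (Pq.L [] 8787 (Pf.C 15 0x41c203))
 (Pq.cons (Pq.L [] 0x40319 (Pf.C 16 0x61c302))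
 Pq.nil))))) (Pq.cons (Pq.L [] 265 (Pf.C 9 33539))
 (Pq.cons (Pq.D 5 (Pq.cons (Pq.L [0,1] 0x5009d (Pf.B 6 1 (Pf.B 3 1 (Pf.B 2 1 (Pf.B 7 1 (Pf.B 7 0 (Pf.B 5 1 (Pf.B 5 0 (Pf.B 8 3 (Pf.W 26 7 [] [0,5] (Pf.cons (Pf.B 9 5 (Pf.C 15 0x1c485) (Pf.C 27 1157)) Pf.nil)) (Pf.W 26 7 [] [0,5] (Pf.cons (Pf.B 9 5 (Pf.C 15 0x1c485) (Pf.C 27 1157)) Pf.nil))) (Pf.C 8 16389)) (Pf.C 16 0x604282)) (Pf.C 8 16391)) (Pf.C 14 0xc1c082)) (Pf.C 10 16643)) (Pf.C 3 131)) (Pf.C 12 16390)))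
 (Pq.cons (Pq.L [] 8787 (Pf.C 15 0x41c184))
 (Pq.cons (Pq.L [] 8787 (Pf.C 15 0x41c203))
 (Pq.cons (Pq.L [] 0x40000 (Pf.C 21 902))
 Pq.nil))))) Pq.nil))))) (Pq.cons (Pq.L [] 133 (Pf.C 9 33411))
 (Pq.cons (Pq.D 4 (Pq.cons (Pq.L [] 4427 (Pf.C 15 0x418184))
 (Pq.cons (Pq.D 5 (Pq.cons (Pq.L [] 0x40319 (Pf.C 15 0x41c303))
 (Pq.cons (Pq.L [] 8787 (Pf.C 15 0x41c184))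
 (Pq.cons (Pq.L [] 8787 (Pf.C 15 0x41c203))
 (Pq.cons (Pq.L [] 0x40319 (Pf.C 16 0x61c302))
 Pq.nil))))) (Pq.cons (Pq.L [] 265 (Pf.C 9 33539))
 (Pq.cons (Pq.D 5 (Pq.cons (Pq.L [0,1] 0x17a6c0 (Pf.B 6 1 (Pf.B 5 1 (Pf.B 7 1 (Pf.B 7 0 (Pf.B 5 0 (Pf.B 3 1 (Pf.B 4 1 (Pf.B 4 0 (Pf.B 8 3 (Pf.B 8 0 (Pf.C 17 0x50600388) (Pf.W 26 7 [] [0,4] (Pf.cons (Pf.B 9 4 (Pf.C 15 0x1c484) (Pf.C 27 1156)) Pf.nil))) (Pf.W 26 7 [] [0,4] (Pf.cons (Pf.B 9 4 (Pf.C 15 0x1c484) (Pf.C 27 1156)) Pf.nil))) (Pf.C 8 16388)) (Pf.C 16 0x604207)) (Pf.C 3 131)) (Pf.C 3 643)) (Pf.C 8 16391)) (Pf.C 14 0xc1c085)) (Pf.C 12 16389)) (Pf.C 12 16390)))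
 (Pq.cons (Pq.L [] 8787 (Pf.C 15 0x41c184))
 (Pq.cons (Pq.L [] 8787 (Pf.C 15 0x41c203))
 (Pq.cons (Pq.L [] 0x40000 (Pf.C 21 902))
 Pq.nil))))) Pq.nil))))) Pq.nil))))) (Pq.cons (Pq.L [] 67 (Pf.C 9 33283))
 (Pq.cons (Pq.D 3 (Pq.cons (Pq.D 4 (Pq.cons (Pq.D 5 (Pq.cons (Pq.L [] 0x5801c (Pf.C 15 0x41c305))
 (Pq.cons (Pq.L [] 0x5801c (Pf.C 15 0x41c305))
 (Pq.cons (Pq.L [] 0x5801c (Pf.C 15 0x41c305))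
 (Pq.cons (Pq.L [] 0x1fffc0 (Pf.B 8 3 (Pf.C 17 0x50610388) (Pf.W 32 4 [] [3,5,6,7,8] (Pf.cons (Pf.B 9 6 (Pf.B 9 5 (Pf.B 9 7 (Pf.B 9 8 (Pf.C 17 0x60e20209) (Pf.B 9 3 (Pf.C 13 0xc0c289) (Pf.C 0 0x100c484))) (Pf.C 14 0xc1c485)) (Pf.C 2 649)) (Pf.C 2 777)) (Pf.cons (Pf.B 9 6 (Pf.B 9 5 (Pf.B 9 7 (Pf.B 9 8 (Pf.C 17 0x60e20209) (Pf.B 9 3 (Pf.C 13 0xc0c289) (Pf.C 0 0x100c484))) (Pf.C 14 0xc1c485)) (Pf.C 2 649)) (Pf.C 2 777)) Pf.nil)))))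
 Pq.nil))))) (Pq.cons (Pq.L [] 33165 (Pf.C 15 0x414186))
 (Pq.cons (Pq.L [] 265 (Pf.C 9 33539))
 (Pq.cons (Pq.D 5 (Pq.cons (Pq.L [] 66197 (Pf.C 15 0x414187))
 (Pq.cons (Pq.L [] 512 (Pf.W 26 5 [] [3,7] (Pf.cons (Pf.B 9 7 (Pf.B 9 3 (Pf.C 23 50311) (Pf.C 18 393)) (Pf.C 27 1159)) Pf.nil)))
 (Pq.cons (Pq.L [] 66197 (Pf.C 15 0x414187))
 (Pq.cons (Pq.L [] 0x40000 (Pf.C 21 902))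
 Pq.nil))))) Pq.nil))))) (Pq.cons (Pq.D 4 (Pq.cons (Pq.L [] 33165 (Pf.C 15 0x418185))
 (Pq.cons (Pq.D 5 (Pq.cons (Pq.L [] 0x40319 (Pf.C 15 0x41c303))
 (Pq.cons (Pq.L [] 66197 (Pf.C 15 0x41c185))
 (Pq.cons (Pq.L [] 66197 (Pf.C 15 0x41c283))
 (Pq.cons (Pq.L [] 0x40319 (Pf.C 16 0x61c302))
 Pq.nil))))) (Pq.cons (Pq.L [] 265 (Pf.C 9 33539))
 (Pq.cons (Pq.D 5 (Pq.cons (Pq.L [0,1] 0x1576c0 (Pf.B 6 1 (Pf.B 4 1 (Pf.B 7 1 (Pf.B 7 0 (Pf.B 4 0 (Pf.B 3 1 (Pf.B 5 1 (Pf.B 5 0 (Pf.B 8 3 (Pf.B 8 0 (Pf.C 17 0x40600388) (Pf.W 26 7 [] [0,5] (Pf.cons (Pf.B 9 5 (Pf.C 15 0x1c485) (Pf.C 27 1157)) Pf.nil))) (Pf.W 26 7 [] [0,5] (Pf.cons (Pf.B 9 5 (Pf.C 15 0x1c485) (Pf.C 27 1157)) Pf.nil))) (Pf.C 8 16389)) (Pf.C 16 0x604287)) (Pf.C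 3 131)) (Pf.C 3 515)) (Pf.C 8 16391)) (Pf.C 14 0xc1c084)) (Pf.C 12 16388)) (Pf.C 12 16390)))
 (Pq.cons (Pq.L [] 66197 (Pf.C 15 0x41c185))
 (Pq.cons (Pq.L [] 66197 (Pf.C 15 0x41c283))
 (Pq.cons (Pq.L [] 0x40000 (Pf.C 21 902))
 Pq.nil))))) Pq.nil))))) (Pq.cons (Pq.L [] 133 (Pf.C 9 33411))
 (Pq.cons (Pq.D 4 (Pq.cons (Pq.D 5 (Pq.cons (Pq.L [] 0x40000 (Pf.C 2 902))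
 (Pq.cons (Pq.L [] 0x40000 (Pf.C 2 902))
 (Pq.cons (Pq.L [] 8256 (Pf.W 26 6 [] [3,4,7] (Pf.cons (Pf.B 9 7 (Pf.B 9 4 (Pf.B 9 3 (Pf.C 25 65929) (Pf.C 18 393)) (Pf.C 24 66441)) (Pf.C 18 905)) Pf.nil)))
 (Pq.cons (Pq.L [] 0x1fffcf (Pf.B 8 3 (Pf.C 17 0x50610388) (Pf.W 32 4 [] [2,3,5,6,7,8] (Pf.cons (Pf.B 9 6 (Pf.B 9 5 (Pf.B 9 7 (Pf.B 9 8 (Pf.C 17 0x60e20209) (Pf.B 9 3 (Pf.B 9 2 (Pf.C 15 0x418189) (Pf.C 14 0x824105)) (Pf.C 0 0x100c484))) (Pf.C 14 0xc1c485)) (Pf.C 14 0x824286)) (Pf.C 2 777)) (Pf.cons (Pf.B 9 6 (Pf.B 9 5 (Pf.B 9 7 (Pf.B 9 8 (Pf.C 17 0x60e20209) (Pf.B 9 3 (Pf.B 9 2 (Pf.C 15 0x418189) (Pf.C 14 0x824105)) (Pf.C 0 0x100c484))) (Pf.C 14 0xc1c485)) (Pf.C 14 0x824286)) (Pf.C 2 777)) Pf.nil)))))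
 Pq.nil))))) (Pq.cons (Pq.D 5 (Pq.cons (Pq.L [] 0x40319 (Pf.C 15 0x41c303))
 (Pq.cons (Pq.L [] 0x40000 (Pf.C 2 902))
 (Pq.cons (Pq.L [0,1] 0xfddc0 (Pf.B 7 1 (Pf.B 5 1 (Pf.B 6 1 (Pf.B 6 0 (Pf.B 3 1 (Pf.B 8 6 (Pf.W 30 6 [] [0,1,3] (Pf.cons (Pf.B 9 3 (Pf.B 9 1 (Pf.C 15 0x218483) (Pf.C 3 137)) (Pf.C 18 393)) Pf.nil)) (Pf.B 8 3 (Pf.C 17 0x50610308) (Pf.W 30 6 [] [0,1,3] (Pf.cons (Pf.B 9 3 (Pf.B 9 1 (Pf.C 15 0x218483) (Pf.C 3 137)) (Pf.C 18 393)) Pf.nil)))) (Pf.C 3 131)) (Pf.C 8 16390)) (Pf.C 16 0xe04305)) (Pf.C 10 17031)) (Pf.C 3 135)))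
 (Pq.cons (Pq.L [] 0x40319 (Pf.C 16 0x61c302))
 Pq.nil))))) (Pq.cons (Pq.L [] 265 (Pf.C 9 33539))
 (Pq.cons (Pq.D 5 (Pq.cons (Pq.L [] 0x136ec0 (Pf.B 8 3 (Pf.C 17 0x50610388) (Pf.W 26 7 [] [3] (Pf.cons (Pf.B 9 3 (Pf.C 22 50311) (Pf.C 18 393)) Pf.nil))))
 (Pq.cons (Pq.D 6 (Pq.cons (Pq.L [] 0x1c0038 (Pf.C 14 0x101c302))
 (Pq.cons (Pq.L [] 0x1c0038 (Pf.C 14 0x101c302))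
 (Pq.cons (Pq.L [] 0x100631 (Pf.C 15 0x41c188))
 (Pq.cons (Pq.L [] 0x1c0038 (Pf.C 14 0x101c302))
 Pq.nil))))) (Pq.cons (Pq.D 6 (Pq.cons (Pq.L [] 0x100631 (Pf.C 15 0x420383))
 (Pq.cons (Pq.L [] 0x100631 (Pf.C 15 0x420187))
 (Pq.cons (Pq.L [] 0x100030 (Pf.C 9 33799))
 (Pq.cons (Pq.L [] 0x136ef7 (Pf.C 1 0x2830820382))
 Pq.nil))))) (Pq.cons (Pq.L [] 0x40000 (Pf.C 21 902))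
 Pq.nil))))) Pq.nil))))) Pq.nil))))) Pq.nil))))) (Pq.cons (Pq.D 2 (Pq.cons (Pq.D 3 (Pq.cons (Pq.L [] 2247 (Pf.C 14 0xa0c202))
 (Pq.cons (Pq.L [] 2247 (Pf.C 14 0xa0c202))
 (Pq.cons (Pq.D 4 (Pq.cons (Pq.L [] 4427 (Pf.C 14 0xc0c202))
 (Pq.cons (Pq.L [] 4427 (Pf.C 14 0xc0c202))
 (Pq.cons (Pq.L [] 4096 (Pf.W 26 4 [] [6] (Pf.cons (Pf.B 9 6 (Pf.C 22 99460) (Pf.C 18 777)) Pf.nil)))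
 (Pq.cons (Pq.L [] 4427 (Pf.C 14 0xc0c202))
 Pq.nil))))) (Pq.cons (Pq.L [] 2247 (Pf.C 14 0xa0c202))
 Pq.nil))))) (Pq.cons (Pq.D 3 (Pq.cons (Pq.L [] 2247 (Pf.C 14 0xa0c202))
 (Pq.cons (Pq.L [] 2247 (Pf.C 14 0xa0c202))
 (Pq.cons (Pq.D 4 (Pq.cons (Pq.L [] 4427 (Pf.C 14 0xc0c202))
 (Pq.cons (Pq.L [] 4427 (Pf.C 14 0xc0c202))
 (Pq.cons (Pq.L [] 39360 (Pf.C 0 0xc10185))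
 (Pq.cons (Pq.L [] 4427 (Pf.C 14 0xc0c202))
 Pq.nil))))) (Pq.cons (Pq.L [] 2247 (Pf.C 14 0xa0c202))
 Pq.nil))))) (Pq.cons (Pq.D 3 (Pq.cons (Pq.D 4 (Pq.cons (Pq.L [] 33165 (Pf.C 14 0xc0c282))
 (Pq.cons (Pq.L [] 33165 (Pf.C 14 0xc0c282))
 (Pq.cons (Pq.L [] 32768 (Pf.W 26 5 [] [6] (Pf.cons (Pf.B 9 6 (Pf.C 22 99461) (Pf.C 18 777)) Pf.nil)))
 (Pq.cons (Pq.L [] 33165 (Pf.C 14 0xc0c282))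
 Pq.nil))))) (Pq.cons (Pq.D 4 (Pq.cons (Pq.L [] 33165 (Pf.C 14 0xc0c282))
 (Pq.cons (Pq.L [] 33165 (Pf.C 14 0xc0c282))
 (Pq.cons (Pq.L [] 39360 (Pf.C 0 0xc14184))
 (Pq.cons (Pq.L [] 33165 (Pf.C 14 0xc0c282))
 Pq.nil))))) (Pq.cons (Pq.D 4 (Pq.cons (Pq.D 5 (Pq.cons (Pq.L [] 0x40319 (Pf.C 14 0xe18182))
 (Pq.cons (Pq.L [] 0x40319 (Pf.C 14 0xe18182))
 (Pq.cons (Pq.L [] 0x4301a (Pf.C 15 0x41c304))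
 (Pq.cons (Pq.L [] 0x40319 (Pf.C 14 0xe18182))
 Pq.nil))))) (Pq.cons (Pq.L [] 39360 (Pf.C 0 0xa18184))
 (Pq.cons (Pq.D 5 (Pq.cons (Pq.L [] 0x4301a (Pf.C 15 0x41c304))
 (Pq.cons (Pq.L [] 0x4301a (Pf.C 15 0x41c206))
 (Pq.cons (Pq.L [] 0x40018 (Pf.C 9 33670))
 (Pq.cons (Pq.D 6 (Pq.cons (Pq.L [] 0x106032 (Pf.C 16 0x820382))
 (Pq.cons (Pq.L [] 0xa85ad (Pf.W 32 3 [] [2,5,6,8] (Pf.cons (Pf.B 9 8 (Pf.B 9 2 (Pf.B 9 6 (Pf.C 15 0x420309) (Pf.B 9 5 (Pf.C 15 0x420289) (Pf.C 0 0xc0c485))) (Pf.C 14 0x624108)) (Pf.C 2 1033)) (Pf.cons (Pf.B 9 8 (Pf.B 9 2 (Pf.B 9 6 (Pf.C 15 0x420309) (Pf.B 9 5 (Pf.C 15 0x420289) (Pf.C 0 0xc0c485))) (Pf.C 14 0x624108)) (Pf.C 2 1033)) Pf.nil))))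
 (Pq.cons (Pq.L [] 0x136ef7 (Pf.C 1 0x2830820382))
 (Pq.cons (Pq.L [] 0x106032 (Pf.C 16 0x820382))
 Pq.nil))))) Pq.nil))))) (Pq.cons (Pq.L [] 256 (Pf.C 21 771))
 Pq.nil))))) (Pq.cons (Pq.L [] 128 (Pf.C 21 643))
 Pq.nil))))) (Pq.cons (Pq.L [] 64 (Pf.C 21 515))
 Pq.nil))))) Pq.nil))))) Pq.nil))
theorem e5_o8 : AllRef e5_T e5_G16 (List.drop 2 (List.flatMap (splitP 0) (List.drop 1 (applyObl d_T 2 [16,18,24,20] [0,0,0,0] [(18,0x1000000),(24,0x40000)])))) :=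
  chkPq_sound e5_o8c _ (by decide +kernel)
noncomputable def e5_o9c : Pq := (Pq.cons (Pq.L [] 0 (Pf.W 26 2 [] [] (Pf.cons (Pf.T 3 7 (Pf.cons (Pf.W 28 2 [] [3] (Pf.cons (Pf.B 4 3 (Pf.W 39 0 [] [2,3,4] (Pf.cons (Pf.B 5 4 (Pf.B 5 3 (Pf.B 5 2 (Pf.C 13 0x808185) (Pf.C 2 261)) (Pf.C 22 65925)) (Pf.C 29 517)) Pf.nil)) (Pf.C 18 388)) Pf.nil)) (Pf.cons (Pf.W 28 2 [] [3] (Pf.cons (Pf.B 4 3 (Pf.W 39 0 [] [2,3,4] (Pf.cons (Pf.B 5 4 (Pf.B 5 3 (Pf.B 5 2 (Pf.C 13 0x808185) (Pf.C 2 261)) (Pf.C 22 65925)) (Pf.C 29 517)) Pf.nil)) (Pf.C 18 388)) Pf.nil)) Pf.nil))) Pf.nil)))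
 (Pq.cons (Pq.L [] 0 (Pf.W 30 2 [] [] (Pf.cons (Pf.T 3 8 (Pf.cons (Pf.W 39 0 [] [2,3] (Pf.cons (Pf.B 4 3 (Pf.B 4 2 (Pf.W 26 4 [] [3] (Pf.cons (Pf.B 5 3 (Pf.C 22 49796) (Pf.C 18 389)) Pf.nil)) (Pf.C 2 260)) (Pf.C 29 388)) Pf.nil)) (Pf.cons (Pf.W 39 0 [] [2,3] (Pf.cons (Pf.B 4 3 (Pf.B 4 2 (Pf.W 26 4 [] [3] (Pf.cons (Pf.B 5 3 (Pf.C 22 49796) (Pf.C 18 389)) Pf.nil)) (Pf.C 2 260)) (Pf.C 29 388)) Pf.nil)) Pf.nil))) Pf.nil)))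
 (Pq.cons (Pq.L [] 0 (Pf.W 39 0 [] [2] (Pf.cons (Pf.B 3 2 (Pf.W 26 3 [] [2] (Pf.cons (Pf.B 4 2 (Pf.C 22 33283) (Pf.C 18 260)) Pf.nil)) (Pf.C 29 259)) Pf.nil)))
 Pq.nil)))
theorem e5_o9 : AllRef e5_T e5_G15 (List.map pat1 [16,18,24]) :=
  chkPq_sound e5_o9c _ (by decide +kernel)
noncomputable def e5_o10c : Pq := (Pq.cons (Pq.D 0 (Pq.cons (Pq.D 1 (Pq.cons (Pq.L [] 1 (Pf.C 2 386))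
 (Pq.cons (Pq.D 2 (Pq.cons (Pq.L [] 2 (Pf.C 2 514))
 (Pq.cons (Pq.L [] 4 (Pf.C 18 515))
 (Pq.cons (Pq.L [0,1] 1 (Pf.B 2 1 (Pf.B 2 0 (Pf.W 26 2 [] [0,3] (Pf.cons (Pf.B 5 3 (Pf.C 15 33411) (Pf.C 18 389)) Pf.nil)) (Pf.C 8 16386)) (Pf.B 2 0 (Pf.C 8 130) (Pf.C 3 16386))))
 Pq.nil)))) (Pq.cons (Pq.D 2 (Pq.cons (Pq.L [] 2 (Pf.C 2 514))
 (Pq.cons (Pq.L [0,1] 2 (Pf.B 2 1 (Pf.B 2 0 (Pf.W 26 2 [] [0,4] (Pf.cons (Pf.B 5 4 (Pf.C 15 33412) (Pf.C 18 517)) Pf.nil)) (Pf.C 8 16386)) (Pf.B 2 0 (Pf.C 8 130) (Pf.C 3 16386))))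
 (Pq.cons (Pq.L [] 7 (Pf.C 3 65922))
 Pq.nil)))) Pq.nil)))) (Pq.cons (Pq.D 1 (Pq.cons (Pq.D 2 (Pq.cons (Pq.L [] 4 (Pf.C 2 515))
 (Pq.cons (Pq.L [] 2 (Pf.C 18 514))
 (Pq.cons (Pq.L [0,1] 1 (Pf.B 3 1 (Pf.B 3 0 (Pf.W 26 3 [] [0,2] (Pf.cons (Pf.B 5 2 (Pf.C 15 49794) (Pf.C 18 261)) Pf.nil)) (Pf.C 8 16387)) (Pf.B 3 0 (Pf.C 8 131) (Pf.C 3 16387))))
 Pq.nil)))) (Pq.cons (Pq.L [] 1 (Pf.C 18 386))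
 (Pq.cons (Pq.D 2 (Pq.cons (Pq.L [0,1] 2 (Pf.B 4 1 (Pf.B 4 0 (Pf.W 26 4 [] [0,2] (Pf.cons (Pf.B 5 2 (Pf.C 15 66178) (Pf.C 18 261)) Pf.nil)) (Pf.C 8 16388)) (Pf.B 4 0 (Pf.C 8 132) (Pf.C 3 16388))))
 (Pq.cons (Pq.L [] 2 (Pf.C 18 514))
 (Pq.cons (Pq.L [] 7 (Pf.C 3 65922))
 Pq.nil)))) Pq.nil)))) (Pq.cons (Pq.D 1 (Pq.cons (Pq.D 2 (Pq.cons (Pq.L [] 4 (Pf.C 2 515))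
 (Pq.cons (Pq.L [0,1] 4 (Pf.B 3 1 (Pf.B 3 0 (Pf.W 26 3 [] [0,4] (Pf.cons (Pf.B 5 4 (Pf.C 15 49796) (Pf.C 18 517)) Pf.nil)) (Pf.C 8 16387)) (Pf.B 3 0 (Pf.C 8 131) (Pf.C 3 16387))))
 (Pq.cons (Pq.L [] 7 (Pf.C 3 65795))
 Pq.nil)))) (Pq.cons (Pq.D 2 (Pq.cons (Pq.L [0,1] 4 (Pf.B 4 1 (Pf.B 4 0 (Pf.W 26 4 [] [0,3] (Pf.cons (Pf.B 5 3 (Pf.C 15 66179) (Pf.C 18 389)) Pf.nil)) (Pf.C 8 16388)) (Pf.B 4 0 (Pf.C 8 132) (Pf.C 3 16388))))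
 (Pq.cons (Pq.L [] 7 (Pf.C 4 65922))
 (Pq.cons (Pq.L [] 2 (Pf.C 21 514))
 Pq.nil)))) (Pq.cons (Pq.L [] 1 (Pf.C 21 386))
 Pq.nil)))) Pq.nil)))) (Pq.cons (Pq.D 0 (Pq.cons (Pq.D 1 (Pq.cons (Pq.D 2 (Pq.cons (Pq.L [] 64 (Pf.C 2 515))
 (Pq.cons (Pq.D 3 (Pq.cons (Pq.L [] 128 (Pf.C 2 643))
 (Pq.cons (Pq.L [] 2247 (Pf.C 13 0xa08203))
 (Pq.cons (Pq.L [0,1] 2240 (Pf.B 5 1 (Pf.B 5 0 (Pf.B 3 0 (Pf.C 16 0x814180) (Pf.B 3 1 (Pf.C 8 16387) (Pf.C 3 131))) (Pf.C 5 16389)) (Pf.C 12 16389)))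
 Pq.nil)))) (Pq.cons (Pq.D 3 (Pq.cons (Pq.L [] 2247 (Pf.C 14 0xa0c202))
 (Pq.cons (Pq.L [0,1] 2240 (Pf.B 4 1 (Pf.B 4 0 (Pf.B 3 0 (Pf.C 16 0xa10180) (Pf.B 3 1 (Pf.C 8 16387) (Pf.C 3 131))) (Pf.C 5 16388)) (Pf.C 12 16388)))
 (Pq.cons (Pq.L [] 2247 (Pf.C 14 0xa0c202))
 Pq.nil)))) Pq.nil)))) (Pq.cons (Pq.D 2 (Pq.cons (Pq.D 3 (Pq.cons (Pq.D 4 (Pq.cons (Pq.D 5 (Pq.cons (Pq.L [] 8787 (Pf.C 13 0xe0c104))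
 (Pq.cons (Pq.L [] 0x4301a (Pf.C 13 0x81c106))
 (Pq.cons (Pq.L [] 8787 (Pf.C 15 0xe0c104))
 Pq.nil)))) (Pq.cons (Pq.L [] 265 (Pf.C 4 98690))
 (Pq.cons (Pq.D 5 (Pq.cons (Pq.L [] 8787 (Pf.C 13 0xe0c104))
 (Pq.cons (Pq.L [] 76480 (Pf.C 13 0xa1c203))
 (Pq.cons (Pq.L [] 8787 (Pf.C 15 0xe0c104))
 Pq.nil)))) Pq.nil)))) (Pq.cons (Pq.L [] 133 (Pf.C 4 82306))
 (Pq.cons (Pq.D 4 (Pq.cons (Pq.D 5 (Pq.cons (Pq.L [] 8787 (Pf.C 13 0xe0c104))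
 (Pq.cons (Pq.L [] 0x4301a (Pf.C 13 0x81c106))
 (Pq.cons (Pq.L [] 8787 (Pf.C 15 0xe0c104))
 Pq.nil)))) (Pq.cons (Pq.L [] 265 (Pf.C 4 98690))
 (Pq.cons (Pq.L [0,1] 39363 (Pf.B 6 1 (Pf.B 6 0 (Pf.B 5 1 (Pf.B 5 0 (Pf.B 4 0 (Pf.B 2 0 (Pf.C 15 49412) (Pf.B 2 1 (Pf.C 8 16386) (Pf.C 3 130))) (Pf.C 17 0x60614004)) (Pf.C 5 16389)) (Pf.C 12 16389)) (Pf.C 5 16390)) (Pf.C 12 16390)))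
 Pq.nil)))) Pq.nil)))) (Pq.cons (Pq.L [] 67 (Pf.C 4 65922))
 (Pq.cons (Pq.D 3 (Pq.cons (Pq.D 4 (Pq.cons (Pq.D 5 (Pq.cons (Pq.L [] 66197 (Pf.C 13 0xe0c105))
 (Pq.cons (Pq.L [] 0x5801c (Pf.C 13 0xa1c106))
 (Pq.cons (Pq.L [] 66197 (Pf.C 15 0xe0c105))
 Pq.nil)))) (Pq.cons (Pq.L [] 265 (Pf.C 4 98690))
 (Pq.cons (Pq.L [0,1] 39365 (Pf.B 6 1 (Pf.B 6 0 (Pf.B 4 1 (Pf.B 4 0 (Pf.B 5 0 (Pf.B 2 0 (Pf.C 15 49413) (Pf.B 2 1 (Pf.C 8 16386) (Pf.C 3 130))) (Pf.C 17 0x60610005)) (Pf.C 5 16388)) (Pf.C 12 16388)) (Pf.C 5 16390)) (Pf.C 12 16390)))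
 Pq.nil)))) (Pq.cons (Pq.L [] 133 (Pf.C 4 82306))
 (Pq.cons (Pq.D 4 (Pq.cons (Pq.L [0,1] 39369 (Pf.B 5 1 (Pf.B 5 0 (Pf.B 4 1 (Pf.B 4 0 (Pf.B 6 0 (Pf.B 2 0 (Pf.C 15 49414) (Pf.B 2 1 (Pf.C 8 16386) (Pf.C 3 130))) (Pf.C 17 0x50610006)) (Pf.C 5 16388)) (Pf.C 12 16388)) (Pf.C 5 16389)) (Pf.C 12 16389)))
 (Pq.cons (Pq.L [] 265 (Pf.C 4 98690))
 (Pq.cons (Pq.D 5 (Pq.cons (Pq.D 6 (Pq.cons (Pq.L [] 0x1c0038 (Pf.C 14 0x101c302))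
 (Pq.cons (Pq.L [] 0x106032 (Pf.C 15 0x820107))
 (Pq.cons (Pq.L [] 0x1c0038 (Pf.C 14 0x101c302))
 Pq.nil)))) (Pq.cons (Pq.L [] 0x5bbde (Pf.W 32 6 [] [2,3,4,5,7] (Pf.cons (Pf.B 9 2 (Pf.B 9 5 (Pf.B 9 7 (Pf.C 15 0xa08389) (Pf.B 9 4 (Pf.B 9 3 (Pf.C 17 0x50610389) (Pf.C 0 0xe18483)) (Pf.C 14 0xc24202))) (Pf.C 14 0xc24282)) (Pf.C 2 265)) Pf.nil)))
 (Pq.cons (Pq.L [] 0x40000 (Pf.C 21 902))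
 Pq.nil)))) Pq.nil)))) Pq.nil)))) Pq.nil)))) (Pq.cons (Pq.D 2 (Pq.cons (Pq.D 3 (Pq.cons (Pq.L [] 2247 (Pf.C 14 0xa0c202))
 (Pq.cons (Pq.D 4 (Pq.cons (Pq.L [] 4427 (Pf.C 14 0xc0c202))
 (Pq.cons (Pq.L [] 39360 (Pf.C 0 0xc10185))
 (Pq.cons (Pq.L [] 4427 (Pf.C 14 0xc0c202))
 Pq.nil)))) (Pq.cons (Pq.L [] 2247 (Pf.C 14 0xa0c202))
 Pq.nil)))) (Pq.cons (Pq.D 3 (Pq.cons (Pq.D 4 (Pq.cons (Pq.L [] 33165 (Pf.C 14 0xc0c282))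
 (Pq.cons (Pq.L [] 39360 (Pf.C 0 0xc14184))
 (Pq.cons (Pq.L [] 33165 (Pf.C 14 0xc0c282))
 Pq.nil)))) (Pq.cons (Pq.D 4 (Pq.cons (Pq.L [] 39360 (Pf.C 0 0xa18184))
 (Pq.cons (Pq.D 5 (Pq.cons (Pq.L [] 0x5b800 (Pf.C 13 0xa1c206))
 (Pq.cons (Pq.L [] 0x40018 (Pf.C 4 0x1c302))
 (Pq.cons (Pq.L [] 0x19bdf (Pf.W 32 3 [] [2,4,5,6,7] (Pf.cons (Pf.B 9 2 (Pf.B 9 7 (Pf.B 9 5 (Pf.C 15 0xe08289) (Pf.B 9 6 (Pf.B 9 4 (Pf.C 13 0xc08209) (Pf.C 0 0xa0c484)) (Pf.C 0 0xa0c486))) (Pf.C 14 0x624382)) (Pf.C 2 265)) Pf.nil)))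
 Pq.nil)))) (Pq.cons (Pq.L [] 256 (Pf.C 21 771))
 Pq.nil)))) (Pq.cons (Pq.L [] 128 (Pf.C 21 643))
 Pq.nil)))) (Pq.cons (Pq.L [] 64 (Pf.C 21 515))
 Pq.nil)))) Pq.nil)))) (Pq.cons (Pq.D 1 (Pq.cons (Pq.D 2 (Pq.cons (Pq.L [] 64 (Pf.C 2 515))
 (Pq.cons (Pq.L [0,1] 67 (Pf.B 3 0 (Pf.C 15 33156) (Pf.B 3 1 (Pf.C 8 16387) (Pf.C 3 131))))
 (Pq.cons (Pq.D 3 (Pq.cons (Pq.L [] 128 (Pf.C 2 643))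
 (Pq.cons (Pq.L [0,1] 133 (Pf.B 3 0 (Pf.C 15 33157) (Pf.B 3 1 (Pf.C 8 16387) (Pf.C 3 131))))
 (Pq.cons (Pq.L [0,1] 2240 (Pf.B 5 1 (Pf.B 4 1 (Pf.B 3 1 (Pf.C 14 0xa0c201) (Pf.B 3 0 (Pf.C 8 131) (Pf.C 3 16387))) (Pf.C 12 16388)) (Pf.C 12 16389)))
 Pq.nil)))) Pq.nil)))) (Pq.cons (Pq.D 2 (Pq.cons (Pq.L [0,1] 67 (Pf.B 4 0 (Pf.C 15 33283) (Pf.B 4 1 (Pf.C 8 16388) (Pf.C 3 132))))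
 (Pq.cons (Pq.L [0] 67 (Pf.C 15 65922))
 (Pq.cons (Pq.D 3 (Pq.cons (Pq.L [0,1] 133 (Pf.B 5 0 (Pf.C 15 33411) (Pf.B 5 1 (Pf.C 8 16389) (Pf.C 3 133))))
 (Pq.cons (Pq.L [0] 133 (Pf.C 15 82306))
 (Pq.cons (Pq.D 4 (Pq.cons (Pq.L [] 39375 (Pf.C 17 0x50610302))
 (Pq.cons (Pq.L [0] 265 (Pf.C 15 98690))
 (Pq.cons (Pq.D 5 (Pq.cons (Pq.D 6 (Pq.cons (Pq.L [] 0x100631 (Pf.C 0 0x620382))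
 (Pq.cons (Pq.L [] 0x100631 (Pf.C 13 0x61c108))
 (Pq.cons (Pq.L [] 0x1c7000 (Pf.C 14 0x101c304))
 Pq.nil)))) (Pq.cons (Pq.D 6 (Pq.cons (Pq.L [] 0x100631 (Pf.C 13 0x620107))
 (Pq.cons (Pq.L [0] 0x100030 (Pf.C 15 0x20382))
 (Pq.cons (Pq.L [] 0x136ef7 (Pf.C 1 0x2830820382))
 Pq.nil)))) (Pq.cons (Pq.L [] 0x40018 (Pf.C 10 0x1c302))
 Pq.nil)))) Pq.nil)))) Pq.nil)))) Pq.nil)))) (Pq.cons (Pq.D 2 (Pq.cons (Pq.D 3 (Pq.cons (Pq.D 4 (Pq.cons (Pq.D 5 (Pq.cons (Pq.L [] 76480 (Pf.C 14 0xa0c207))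
 (Pq.cons (Pq.L [] 0x5b800 (Pf.C 13 0xa1c206))
 (Pq.cons (Pq.L [] 76480 (Pf.C 14 0xa0c207))
 Pq.nil)))) (Pq.cons (Pq.L [] 39360 (Pf.C 0 0xa18184))
 (Pq.cons (Pq.L [] 265 (Pf.C 10 98690))
 Pq.nil)))) (Pq.cons (Pq.D 4 (Pq.cons (Pq.L [] 39360 (Pf.C 0 0xc14184))
 (Pq.cons (Pq.L [] 39360 (Pf.C 0 0xc10185))
 (Pq.cons (Pq.L [] 265 (Pf.C 10 98690))
 Pq.nil)))) (Pq.cons (Pq.L [] 133 (Pf.C 10 82306))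
 Pq.nil)))) (Pq.cons (Pq.D 3 (Pq.cons (Pq.D 4 (Pq.cons (Pq.L [] 39360 (Pf.C 0 0xc10185))
 (Pq.cons (Pq.L [] 39360 (Pf.C 0 0xc14184))
 (Pq.cons (Pq.L [] 265 (Pf.C 10 98690))
 Pq.nil)))) (Pq.cons (Pq.D 4 (Pq.cons (Pq.L [] 39360 (Pf.C 0 0xa18184))
 (Pq.cons (Pq.D 5 (Pq.cons (Pq.L [] 0x4301a (Pf.C 13 0x81c106))
 (Pq.cons (Pq.L [0] 0x40018 (Pf.C 15 0x1c302))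
 (Pq.cons (Pq.D 6 (Pq.cons (Pq.L [0,1] 0x1d87dd (Pf.B 7 1 (Pf.B 6 1 (Pf.C 10 134) (Pf.B 8 1 (Pf.B 4 1 (Pf.C 10 132) (Pf.B 3 1 (Pf.W 32 3 [] [1,2,5,6,7,8] (Pf.cons (Pf.B 9 8 (Pf.B 9 1 (Pf.B 9 7 (Pf.B 9 2 (Pf.C 16 0x40c487) (Pf.B 9 5 (Pf.C 15 0xe08485) (Pf.B 9 6 (Pf.C 13 0xa24106) (Pf.C 0 0xa0c486)))) (Pf.C 14 0x101c481)) (Pf.C 14 0x624088)) (Pf.C 2 1033)) Pf.nil)) (Pf.C 3 16772))) (Pf.C 0 0xe18401))) (Pf.C 12 16391)))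
 (Pq.cons (Pq.L [] 0x136ef7 (Pf.C 1 0x2830820382))
 (Pq.cons (Pq.L [] 0x100030 (Pf.C 10 0x20382))
 Pq.nil)))) Pq.nil)))) (Pq.cons (Pq.L [] 265 (Pf.C 10 98690))
 Pq.nil)))) (Pq.cons (Pq.L [] 133 (Pf.C 10 82306))
 Pq.nil)))) (Pq.cons (Pq.L [] 67 (Pf.C 10 65922))
 Pq.nil)))) Pq.nil)))) (Pq.cons (Pq.D 1 (Pq.cons (Pq.D 2 (Pq.cons (Pq.L [] 64 (Pf.C 2 515))
 (Pq.cons (Pq.D 3 (Pq.cons (Pq.L [] 128 (Pf.C 2 643))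
 (Pq.cons (Pq.D 4 (Pq.cons (Pq.L [] 256 (Pf.C 2 771))
 (Pq.cons (Pq.D 5 (Pq.cons (Pq.L [] 8787 (Pf.C 15 0x41c203))
 (Pq.cons (Pq.L [] 0x40018 (Pf.C 9 33670))
 (Pq.cons (Pq.L [0,1] 9024 (Pf.B 7 1 (Pf.B 7 0 (Pf.B 3 0 (Pf.B 8 4 (Pf.B 8 3 (Pf.W 26 3 [] [0,6] (Pf.cons (Pf.B 9 6 (Pf.C 15 50310) (Pf.C 18 777)) Pf.nil)) (Pf.W 26 3 [] [0,6] (Pf.cons (Pf.B 9 6 (Pf.C 15 50310) (Pf.C 18 777)) Pf.nil))) (Pf.W 26 3 [] [0,6] (Pf.cons (Pf.B 9 6 (Pf.C 15 50310) (Pf.C 18 777)) Pf.nil))) (Pf.C 16 0x800187)) (Pf.C 5 16391)) (Pf.C 12 16391)))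
 Pq.nil)))) (Pq.cons (Pq.L [] 4427 (Pf.C 16 0x818182))
 Pq.nil)))) (Pq.cons (Pq.L [] 2247 (Pf.C 16 0x814182))
 Pq.nil)))) (Pq.cons (Pq.D 3 (Pq.cons (Pq.L [] 2247 (Pf.C 14 0xa0c202))
 (Pq.cons (Pq.L [] 2247 (Pf.C 16 0xa10182))
 (Pq.cons (Pq.L [] 2247 (Pf.C 14 0xa0c202))
 Pq.nil)))) Pq.nil)))) (Pq.cons (Pq.D 2 (Pq.cons (Pq.D 3 (Pq.cons (Pq.D 4 (Pq.cons (Pq.D 5 (Pq.cons (Pq.L [] 8787 (Pf.C 15 0x41c184))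
 (Pq.cons (Pq.L [] 8787 (Pf.C 15 0x41c203))
 (Pq.cons (Pq.L [] 0x40319 (Pf.C 16 0x61c302))
 Pq.nil)))) (Pq.cons (Pq.L [] 265 (Pf.C 9 33539))
 (Pq.cons (Pq.D 5 (Pq.cons (Pq.L [] 8787 (Pf.C 15 0x41c184))
 (Pq.cons (Pq.L [] 8787 (Pf.C 15 0x41c203))
 (Pq.cons (Pq.L [] 0x40000 (Pf.C 21 902))
 Pq.nil)))) Pq.nil)))) (Pq.cons (Pq.L [] 133 (Pf.C 9 33411))
 (Pq.cons (Pq.D 4 (Pq.cons (Pq.D 5 (Pq.cons (Pq.L [] 8787 (Pf.C 15 0x41c184))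
 (Pq.cons (Pq.L [] 8787 (Pf.C 15 0x41c203))
 (Pq.cons (Pq.L [] 0x40319 (Pf.C 16 0x61c302))
 Pq.nil)))) (Pq.cons (Pq.L [] 265 (Pf.C 9 33539))
 (Pq.cons (Pq.D 5 (Pq.cons (Pq.L [] 8787 (Pf.C 15 0x41c184))
 (Pq.cons (Pq.L [] 8787 (Pf.C 15 0x41c203))
 (Pq.cons (Pq.L [] 0x40000 (Pf.C 21 902))
 Pq.nil)))) Pq.nil)))) Pq.nil)))) (Pq.cons (Pq.L [] 67 (Pf.C 9 33283))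
 (Pq.cons (Pq.D 3 (Pq.cons (Pq.D 4 (Pq.cons (Pq.D 5 (Pq.cons (Pq.L [] 66197 (Pf.C 15 0x41c185))
 (Pq.cons (Pq.L [] 66197 (Pf.C 15 0x41c283))
 (Pq.cons (Pq.L [] 0x40319 (Pf.C 16 0x61c302))
 Pq.nil)))) (Pq.cons (Pq.L [] 265 (Pf.C 9 33539))
 (Pq.cons (Pq.D 5 (Pq.cons (Pq.L [] 66197 (Pf.C 15 0x41c185))
 (Pq.cons (Pq.L [] 66197 (Pf.C 15 0x41c283))
 (Pq.cons (Pq.L [] 0x40000 (Pf.C 21 902))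
 Pq.nil)))) Pq.nil)))) (Pq.cons (Pq.L [] 133 (Pf.C 9 33411))
 (Pq.cons (Pq.D 4 (Pq.cons (Pq.D 5 (Pq.cons (Pq.L [] 0x40000 (Pf.C 2 902))
 (Pq.cons (Pq.L [0,1] 0xfddc0 (Pf.B 5 1 (Pf.B 5 0 (Pf.B 6 0 (Pf.B 8 6 (Pf.W 26 6 [] [0,7] (Pf.cons (Pf.B 9 7 (Pf.C 15 99463) (Pf.C 18 905)) Pf.nil)) (Pf.B 8 3 (Pf.C 17 0x50610308) (Pf.W 26 6 [] [0,7] (Pf.cons (Pf.B 9 7 (Pf.C 15 99463) (Pf.C 18 905)) Pf.nil)))) (Pf.C 16 0xe00305)) (Pf.C 5 16389)) (Pf.C 12 16389)))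
 (Pq.cons (Pq.L [] 0x40319 (Pf.C 16 0x61c302))
 Pq.nil)))) (Pq.cons (Pq.L [] 265 (Pf.C 9 33539))
 (Pq.cons (Pq.D 5 (Pq.cons (Pq.D 6 (Pq.cons (Pq.L [] 0x1c0038 (Pf.C 14 0x101c302))
 (Pq.cons (Pq.L [] 0x100631 (Pf.C 15 0x41c188))
 (Pq.cons (Pq.L [] 0x1c0038 (Pf.C 14 0x101c302))
 Pq.nil)))) (Pq.cons (Pq.D 6 (Pq.cons (Pq.L [] 0x100631 (Pf.C 15 0x420187))
 (Pq.cons (Pq.L [] 0x100030 (Pf.C 9 33799))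
 (Pq.cons (Pq.L [] 0x136ef7 (Pf.C 1 0x2830820382))
 Pq.nil)))) (Pq.cons (Pq.L [] 0x40000 (Pf.C 21 902))
 Pq.nil)))) Pq.nil)))) Pq.nil)))) Pq.nil)))) (Pq.cons (Pq.D 2 (Pq.cons (Pq.D 3 (Pq.cons (Pq.L [] 2247 (Pf.C 14 0xa0c202))
 (Pq.cons (Pq.D 4 (Pq.cons (Pq.L [] 4427 (Pf.C 14 0xc0c202))
 (Pq.cons (Pq.L [] 39360 (Pf.C 0 0xc10185))
 (Pq.cons (Pq.L [] 4427 (Pf.C 14 0xc0c202))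
 Pq.nil)))) (Pq.cons (Pq.L [] 2247 (Pf.C 14 0xa0c202))
 Pq.nil)))) (Pq.cons (Pq.D 3 (Pq.cons (Pq.D 4 (Pq.cons (Pq.L [] 33165 (Pf.C 14 0xc0c282))
 (Pq.cons (Pq.L [] 39360 (Pf.C 0 0xc14184))
 (Pq.cons (Pq.L [] 33165 (Pf.C 14 0xc0c282))
 Pq.nil)))) (Pq.cons (Pq.D 4 (Pq.cons (Pq.L [] 39360 (Pf.C 0 0xa18184))
 (Pq.cons (Pq.D 5 (Pq.cons (Pq.L [] 0x4301a (Pf.C 15 0x41c206))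
 (Pq.cons (Pq.L [] 0x40018 (Pf.C 9 33670))
 (Pq.cons (Pq.D 6 (Pq.cons (Pq.L [] 0xa85ad (Pf.W 32 3 [] [2,5,6,8] (Pf.cons (Pf.B 9 8 (Pf.B 9 2 (Pf.B 9 6 (Pf.C 15 0x420309) (Pf.B 9 5 (Pf.C 15 0x420289) (Pf.C 0 0xc0c485))) (Pf.C 14 0x624108)) (Pf.C 2 1033)) Pf.nil)))
 (Pq.cons (Pq.L [] 0x136ef7 (Pf.C 1 0x2830820382))
 (Pq.cons (Pq.L [] 0x106032 (Pf.C 16 0x820382))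
 Pq.nil)))) Pq.nil)))) (Pq.cons (Pq.L [] 256 (Pf.C 21 771))
 Pq.nil)))) (Pq.cons (Pq.L [] 128 (Pf.C 21 643))
 Pq.nil)))) (Pq.cons (Pq.L [] 64 (Pf.C 21 515))
 Pq.nil)))) Pq.nil)))) Pq.nil)))) Pq.nil))
theorem e5_o10 : AllRef e5_T e5_G17 (applyObl d_T 2 [17,22,20] [0,0,0] [(17,0x400000),(22,0x20000)]) :=
  chkPq_sound e5_o10c _ (by decide +kernel)
noncomputable def e5_o11c : Pq := (Pq.cons (Pq.D 0 (Pq.cons (Pq.D 1 (Pq.cons (Pq.L [] 1 (Pf.C 2 386))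
 (Pq.cons (Pq.L [] 1 (Pf.C 27 386))
 (Pq.cons (Pq.L [] 1 (Pf.C 31 386))
 (Pq.cons (Pq.L [] 1 (Pf.W 20 3 [] [2] (Pf.cons (Pf.B 5 2 (Pf.C 8 82306) (Pf.C 3 49794)) Pf.nil)))
 (Pq.cons (Pq.D 2 (Pq.cons (Pq.L [] 2 (Pf.C 2 514))
 (Pq.cons (Pq.L [] 2 (Pf.C 27 514))
 (Pq.cons (Pq.L [] 2 (Pf.C 31 514))
 (Pq.cons (Pq.L [] 7 (Pf.C 3 65922))
 (Pq.cons (Pq.L [] 7 (Pf.C 3 65922))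
 Pq.nil)))))) Pq.nil)))))) (Pq.cons (Pq.D 1 (Pq.cons (Pq.L [] 1 (Pf.C 27 259))
 (Pq.cons (Pq.L [] 1 (Pf.C 18 386))
 (Pq.cons (Pq.L [] 1 (Pf.C 18 386))
 (Pq.cons (Pq.D 2 (Pq.cons (Pq.L [] 4 (Pf.W 20 3 [] [4] (Pf.cons (Pf.B 5 4 (Pf.C 8 82308) (Pf.C 3 49796)) Pf.nil)))
 (Pq.cons (Pq.L [] 2 (Pf.C 18 514))
 (Pq.cons (Pq.L [] 2 (Pf.C 18 514))
 (Pq.cons (Pq.L [] 7 (Pf.C 3 65922))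
 (Pq.cons (Pq.L [] 7 (Pf.C 3 65922))
 Pq.nil)))))) (Pq.cons (Pq.D 2 (Pq.cons (Pq.L [] 2 (Pf.C 27 260))
 (Pq.cons (Pq.L [] 2 (Pf.C 18 514))
 (Pq.cons (Pq.L [] 2 (Pf.C 18 514))
 (Pq.cons (Pq.L [] 7 (Pf.C 3 65922))
 (Pq.cons (Pq.L [] 7 (Pf.C 3 65922))
 Pq.nil)))))) Pq.nil)))))) (Pq.cons (Pq.D 1 (Pq.cons (Pq.L [] 1 (Pf.C 31 259))
 (Pq.cons (Pq.L [] 1 (Pf.C 18 386))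
 (Pq.cons (Pq.L [] 1 (Pf.C 18 386))
 (Pq.cons (Pq.D 2 (Pq.cons (Pq.L [] 4 (Pf.W 20 3 [] [4] (Pf.cons (Pf.B 5 4 (Pf.C 8 82308) (Pf.C 3 49796)) Pf.nil)))
 (Pq.cons (Pq.L [] 2 (Pf.C 18 514))
 (Pq.cons (Pq.L [] 2 (Pf.C 18 514))
 (Pq.cons (Pq.L [] 7 (Pf.C 3 65922))
 (Pq.cons (Pq.L [] 7 (Pf.C 3 65922))
 Pq.nil)))))) (Pq.cons (Pq.D 2 (Pq.cons (Pq.L [] 2 (Pf.C 31 260))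
 (Pq.cons (Pq.L [] 2 (Pf.C 18 514))
 (Pq.cons (Pq.L [] 2 (Pf.C 18 514))
 (Pq.cons (Pq.L [] 7 (Pf.C 3 65922))
 (Pq.cons (Pq.L [] 7 (Pf.C 3 65922))
 Pq.nil)))))) Pq.nil)))))) (Pq.cons (Pq.D 1 (Pq.cons (Pq.L [] 1 (Pf.W 20 2 [] [3] (Pf.cons (Pf.B 5 3 (Pf.C 8 82179) (Pf.C 3 33411)) Pf.nil)))
 (Pq.cons (Pq.D 2 (Pq.cons (Pq.L [] 2 (Pf.W 20 2 [] [4] (Pf.cons (Pf.B 5 4 (Pf.C 8 82180) (Pf.C 3 33412)) Pf.nil)))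
 (Pq.cons (Pq.L [] 7 (Pf.C 4 65922))
 (Pq.cons (Pq.L [] 7 (Pf.C 4 65922))
 (Pq.cons (Pq.L [] 7 (Pf.C 3 65795))
 (Pq.cons (Pq.L [] 2 (Pf.C 21 260))
 Pq.nil)))))) (Pq.cons (Pq.D 2 (Pq.cons (Pq.L [] 2 (Pf.W 20 2 [] [4] (Pf.cons (Pf.B 5 4 (Pf.C 8 82180) (Pf.C 3 33412)) Pf.nil)))
 (Pq.cons (Pq.L [] 7 (Pf.C 4 65922))
 (Pq.cons (Pq.L [] 7 (Pf.C 4 65922))
 (Pq.cons (Pq.L [] 7 (Pf.C 3 65795))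
 (Pq.cons (Pq.L [] 2 (Pf.C 21 260))
 Pq.nil)))))) (Pq.cons (Pq.D 2 (Pq.cons (Pq.L [] 7 (Pf.C 3 49412))
 (Pq.cons (Pq.L [] 7 (Pf.C 3 49412))
 (Pq.cons (Pq.L [] 7 (Pf.C 3 49412))
 (Pq.cons (Pq.L [] 5 (Pf.C 12 49666))
 (Pq.cons (Pq.L [] 5 (Pf.C 12 49666))
 Pq.nil)))))) (Pq.cons (Pq.L [] 1 (Pf.C 21 259))
 Pq.nil)))))) (Pq.cons (Pq.D 1 (Pq.cons (Pq.D 2 (Pq.cons (Pq.L [] 4 (Pf.C 2 515))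
 (Pq.cons (Pq.L [] 4 (Pf.C 27 515))
 (Pq.cons (Pq.L [] 4 (Pf.C 31 515))
 (Pq.cons (Pq.L [] 7 (Pf.C 3 65795))
 (Pq.cons (Pq.L [] 7 (Pf.C 3 65795))
 Pq.nil)))))) (Pq.cons (Pq.D 2 (Pq.cons (Pq.L [] 4 (Pf.C 27 388))
 (Pq.cons (Pq.L [] 7 (Pf.C 4 65922))
 (Pq.cons (Pq.L [] 7 (Pf.C 4 65922))
 (Pq.cons (Pq.L [] 2 (Pf.C 21 514))
 (Pq.cons (Pq.L [] 2 (Pf.C 21 514))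
 Pq.nil)))))) (Pq.cons (Pq.D 2 (Pq.cons (Pq.L [] 4 (Pf.C 31 388))
 (Pq.cons (Pq.L [] 7 (Pf.C 4 65922))
 (Pq.cons (Pq.L [] 7 (Pf.C 4 65922))
 (Pq.cons (Pq.L [] 2 (Pf.C 21 514))
 (Pq.cons (Pq.L [] 2 (Pf.C 21 514))
 Pq.nil)))))) (Pq.cons (Pq.L [] 1 (Pf.C 21 386))
 (Pq.cons (Pq.L [] 1 (Pf.C 21 386))
 Pq.nil)))))) Pq.nil)))))) (Pq.cons (Pq.L [] 0x136ef7 (Pf.C 1 0x2830820382))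
 Pq.nil))
theorem e5_o11 : AllRef e5_T e5_G13 (applyObl d_T 2 [19,23,25,12,21] [0,0,0,0,0] []) :=
  chkPq_sound e5_o11c _ (by decide +kernel)
noncomputable def e5_o12c : Pq := Pq.nil
theorem e5_o12 : AllRef e5_T e5_G1 (ptObl 2 PT.kid []) :=
  chkPq_sound e5_o12c _ (by decide +kernel)
noncomputable def e5_o13c : Pq := Pq.nil
theorem e5_o13 : AllRef e5_T e5_G18 (ptObl 3 (PT.br 0 PT.kid PT.kid) []) :=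
  chkPq_sound e5_o13c _ (by decide +kernel)
noncomputable def e5_o14c : Pq := (Pq.cons (Pq.L [0,1] 60 (Pf.B 7 4 (Pf.B 6 4 (Pf.B 6 3 (Pf.B 5 4 (Pf.B 5 3 (Pf.B 5 0 (Pf.C 16 98947) (Pf.B 5 1 (Pf.C 7 16389) (Pf.C 4 133))) (Pf.C 14 0xc14184)) (Pf.C 14 0xc14207)) (Pf.C 10 49920)) (Pf.C 40 518)) (Pf.C 3 66432)))
 (Pq.cons (Pq.L [0,1] 56 (Pf.B 7 4 (Pf.B 7 1 (Pf.B 6 4 (Pf.B 5 4 (Pf.B 4 1 (Pf.B 5 1 (Pf.C 16 0x21c284) (Pf.B 5 0 (Pf.C 7 133) (Pf.C 4 16389))) (Pf.C 4 132)) (Pf.C 14 0xe14206)) (Pf.C 40 518)) (Pf.C 4 135)) (Pf.C 3 66432)))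
 (Pq.cons (Pq.L [0,1] 511 (Pf.B 10 7 (Pf.B 10 6 (Pf.B 10 4 (Pf.B 10 3 (Pf.B 9 7 (Pf.B 9 6 (Pf.B 9 4 (Pf.B 9 3 (Pf.B 9 1 (Pf.C 9 0x24001) (Pf.B 8 1 (Pf.B 8 0 (Pf.B 8 7 (Pf.C 17 0xa001c488) (Pf.B 8 6 (Pf.B 8 4 (Pf.C 17 0xa0010488) (Pf.B 8 3 (Pf.B 7 4 (Pf.B 7 3 (Pf.B 7 1 (Pf.B 6 4 (Pf.B 6 3 (Pf.B 6 1 (Pf.C 9 98305) (Pf.B 5 1 (Pf.B 8 5 (Pf.C 17 0x10c14388) (Pf.B 9 5 (Pf.B 8 2 (Pf.B 9 2 (Pf.C 17 0x41024182) (Pf.B 7 2 (Pf.C 17 0x4101c182) (Pf.B 6 2 (Pf.B 5 3 (Pf.C 9 50181) (Pf.B 5 2 (Pf.C 17 0x9041c305) (Pf.C 4 33411))) (Pf.C 17 0x30418404)))) (Pf.C 11 0x20282)) (Pf.C 4 0x20289))) (Pf.C 4 17030))) (Pf.C 10 49920)) (Pf.C 40 518)) (Pf.C 4 135)) (Pf.C 40 899)) (Pf.C 3 66432)) (Pf.C 17 0x9100c500))) (Pf.C 17 0x91018500)))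 (Pf.C 6 16392)) (Pf.C 4 17417))) (Pf.C 10 50304)) (Pf.C 40 521)) (Pf.C 10 99456)) (Pf.C 40 905)) (Pf.C 40 1283)) (Pf.C 3 66816)) (Pf.C 40 1286)) (Pf.C 3 0x1c500)))
 (Pq.cons (Pq.L [0,1] 511 (Pf.B 10 7 (Pf.B 10 6 (Pf.B 10 4 (Pf.B 10 3 (Pf.B 10 1 (Pf.B 9 7 (Pf.B 9 6 (Pf.B 9 4 (Pf.B 9 3 (Pf.B 9 1 (Pf.C 9 0x24001) (Pf.B 8 1 (Pf.B 8 0 (Pf.B 7 4 (Pf.B 7 3 (Pf.B 7 1 (Pf.B 8 7 (Pf.B 6 4 (Pf.B 6 3 (Pf.B 6 1 (Pf.C 9 98305) (Pf.B 8 6 (Pf.C 17 0x90218508) (Pf.B 8 4 (Pf.C 17 0x70010308) (Pf.B 8 3 (Pf.B 8 2 (Pf.B 5 1 (Pf.B 10 5 (Pf.B 9 5 (Pf.C 17 0x60224385) (Pf.B 8 5 (Pf.C 17 0x11214508) (Pf.B 5 4 (Pf.B 5 3 (Pf.C 9 50181) (Pf.B 5 2 (Pf.B 10 2 (Pf.B 9 2 (Pf.C 17 0x30a24202) (Pf.B 7 2 (Pf.C 17 0x30a1c202) (Pf.C 17 0x9041c508)))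 (Pf.C 17 0x40428283)) (Pf.C 6 0x20282))) (Pf.C 4 0x20284)))) (Pf.C 17 0x70a28301)) (Pf.C 11 16389)) (Pf.C 4 33796)) (Pf.C 17 0x6100c380))))) (Pf.C 10 49920)) (Pf.C 40 518)) (Pf.C 17 0xa101c481)) (Pf.C 4 135)) (Pf.C 40 899)) (Pf.C 3 66432)) (Pf.C 4 1034)) (Pf.C 11 16392))) (Pf.C 10 50304)) (Pf.C 40 521)) (Pf.C 10 99456)) (Pf.C 40 905)) (Pf.C 4 138)) (Pf.C 40 1283)) (Pf.C 3 66816)) (Pf.C 40 1286)) (Pf.C 3 0x1c500)))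
 (Pq.cons (Pq.L [0,1] 63 (Pf.B 7 4 (Pf.B 7 3 (Pf.B 6 4 (Pf.B 6 3 (Pf.B 6 1 (Pf.C 9 98305) (Pf.B 5 2 (Pf.B 5 1 (Pf.B 5 0 (Pf.B 5 4 (Pf.C 17 0x70010305) (Pf.B 5 3 (Pf.B 4 1 (Pf.B 3 1 (Pf.C 9 49153) (Pf.B 2 1 (Pf.C 17 0x10608284) (Pf.C 4 16643))) (Pf.C 4 132)) (Pf.C 17 0x60a0c380))) (Pf.C 6 16389)) (Pf.C 4 17030)) (Pf.C 42 261))) (Pf.C 10 49920)) (Pf.C 40 518)) (Pf.C 40 899)) (Pf.C 3 66432)))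
 (Pq.cons (Pq.L [0,1] 63 (Pf.B 7 4 (Pf.B 7 3 (Pf.B 7 1 (Pf.B 6 4 (Pf.B 6 3 (Pf.B 6 1 (Pf.C 9 98305) (Pf.B 5 2 (Pf.B 5 1 (Pf.B 4 1 (Pf.B 5 4 (Pf.B 3 1 (Pf.C 9 49153) (Pf.B 5 3 (Pf.C 17 0x6020c385) (Pf.B 2 1 (Pf.C 17 0x50604202) (Pf.C 11 16386)))) (Pf.C 17 0x70a10301)) (Pf.C 4 132)) (Pf.C 11 16389)) (Pf.C 42 261))) (Pf.C 10 49920)) (Pf.C 40 518)) (Pf.C 4 135)) (Pf.C 40 899)) (Pf.C 3 66432)))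
 Pq.nil))))))
theorem e5_o14 : AllRef e5_T e5_G22 (hitObl [1,27,28,29,30] e5_h32) :=
  chkPq_sound e5_o14c _ (by decide +kernel)
noncomputable def e5_o15c : Pq := (Pq.cons (Pq.L [] 1 (Pf.C 2 386))
 (Pq.cons (Pq.L [] 1 (Pf.W 41 2 [] [3] (Pf.cons (Pf.B 5 3 (Pf.C 7 82179) (Pf.C 4 33411)) Pf.nil)))
 (Pq.cons (Pq.L [] 1 (Pf.C 54 386))
 (Pq.cons (Pq.L [0,1] 3 (Pf.B 4 3 (Pf.B 4 1 (Pf.B 4 0 (Pf.B 3 0 (Pf.C 16 33156) (Pf.B 3 1 (Pf.C 7 16387) (Pf.C 4 131))) (Pf.C 7 16388)) (Pf.B 4 0 (Pf.C 7 132) (Pf.C 4 16388))) (Pf.C 2 388)))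
 (Pq.cons (Pq.L [0,1] 3 (Pf.B 4 3 (Pf.B 2 1 (Pf.B 4 1 (Pf.B 3 1 (Pf.C 16 0x208184) (Pf.B 3 0 (Pf.C 7 131) (Pf.C 4 16387))) (Pf.B 4 0 (Pf.C 7 132) (Pf.C 4 16388))) (Pf.C 4 130)) (Pf.C 2 388)))
 (Pq.cons (Pq.L [] 1 (Pf.C 2 386))
 (Pq.cons (Pq.L [] 1 (Pf.W 41 2 [] [3] (Pf.cons (Pf.B 5 3 (Pf.C 7 82179) (Pf.C 4 33411)) Pf.nil)))
 (Pq.cons (Pq.L [] 1 (Pf.C 54 386))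
 (Pq.cons (Pq.L [0,1] 3 (Pf.B 4 3 (Pf.B 4 1 (Pf.B 4 0 (Pf.B 3 0 (Pf.C 16 33156) (Pf.B 3 1 (Pf.C 7 16387) (Pf.C 4 131))) (Pf.C 7 16388)) (Pf.B 4 0 (Pf.C 7 132) (Pf.C 4 16388))) (Pf.C 2 388)))
 (Pq.cons (Pq.L [0,1] 3 (Pf.B 4 3 (Pf.B 2 1 (Pf.B 4 1 (Pf.B 3 1 (Pf.C 16 0x208184) (Pf.B 3 0 (Pf.C 7 131) (Pf.C 4 16387))) (Pf.B 4 0 (Pf.C 7 132) (Pf.C 4 16388))) (Pf.C 4 130)) (Pf.C 2 388)))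
 (Pq.cons (Pq.L [] 1 (Pf.C 2 386))
 (Pq.cons (Pq.L [] 1 (Pf.W 41 2 [] [3] (Pf.cons (Pf.B 5 3 (Pf.C 7 82179) (Pf.C 4 33411)) Pf.nil)))
 (Pq.cons (Pq.L [] 1 (Pf.C 54 386))
 (Pq.cons (Pq.L [0,1] 3 (Pf.B 4 3 (Pf.B 4 1 (Pf.B 4 0 (Pf.B 3 0 (Pf.C 16 33156) (Pf.B 3 1 (Pf.C 7 16387) (Pf.C 4 131))) (Pf.C 7 16388)) (Pf.B 4 0 (Pf.C 7 132) (Pf.C 4 16388))) (Pf.C 2 388)))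
 (Pq.cons (Pq.L [0,1] 3 (Pf.B 4 3 (Pf.B 2 1 (Pf.B 4 1 (Pf.B 3 1 (Pf.C 16 0x208184) (Pf.B 3 0 (Pf.C 7 131) (Pf.C 4 16387))) (Pf.B 4 0 (Pf.C 7 132) (Pf.C 4 16388))) (Pf.C 4 130)) (Pf.C 2 388)))
 (Pq.cons (Pq.L [0,1] 3 (Pf.B 4 3 (Pf.B 4 1 (Pf.B 3 1 (Pf.B 2 1 (Pf.W 53 3 [] [1,2,4] (Pf.cons (Pf.B 5 2 (Pf.B 5 4 (Pf.C 13 0x40c284) (Pf.B 5 1 (Pf.C 13 0x40c281) (Pf.C 13 0x814082))) (Pf.C 2 261)) (Pf.cons (Pf.B 5 2 (Pf.B 5 4 (Pf.C 13 0x40c284) (Pf.B 5 1 (Pf.C 13 0x40c281) (Pf.C 13 0x814082))) (Pf.C 2 261)) (Pf.cons (Pf.B 5 2 (Pf.B 5 4 (Pf.C 13 0x40c284) (Pf.B 5 1 (Pf.C 13 0x40c281) (Pf.C 13 0x814082))) (Pf.C 2 261)) Pf.nil)))) (Pf.C 13 0x608084)) (Pf.C 11 16387)) (Pf.C 11 16388)) (Pf.C 42 388)))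
 (Pq.cons (Pq.L [] 1 (Pf.C 42 259))
 (Pq.cons (Pq.L [] 1 (Pf.C 42 386))
 (Pq.cons (Pq.L [] 1 (Pf.C 56 386))
 (Pq.cons (Pq.L [] 1 (Pf.C 58 386))
 (Pq.cons (Pq.L [0,1] 3 (Pf.B 4 3 (Pf.B 2 0 (Pf.C 16 49412) (Pf.B 2 1 (Pf.C 7 16386) (Pf.C 4 130))) (Pf.C 8 65922)))
 (Pq.cons (Pq.L [0,1] 3 (Pf.B 4 3 (Pf.B 3 1 (Pf.C 9 49153) (Pf.B 2 1 (Pf.B 2 0 (Pf.W 41 2 [] [0,1,3,4] (Pf.cons (Pf.B 5 4 (Pf.C 9 65797) (Pf.B 5 3 (Pf.T 5 11 (Pf.cons (Pf.W 55 3 [] [0,1,2,4,5] (Pf.cons (Pf.B 6 5 (Pf.B 6 2 (Pf.B 6 1 (Pf.B 6 0 (Pf.B 6 4 (Pf.W 55 4 [] [0,1,2,3,5,6] (Pf.cons (Pf.B 7 6 (Pf.B 7 5 (Pf.B 7 3 (Pf.C 17 0x5081c303) (Pf.B 7 2 (Pf.W 53 6 [] [0,1,2,3,4,5,7] (Pf.cons (Pf.B 8 7 (Pf.B 8 5 (Pf.B 8 4 (Pf.C 17 0x70814308) (Pf.B 8 2 (Pf.B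 8 1 (Pf.B 8 0 (Pf.B 8 3 (Pf.C 16 66563) (Pf.W 53 7 [] [3,4,5,6,8] (Pf.cons (Pf.B 9 8 (Pf.B 9 5 (Pf.B 9 6 (Pf.B 9 3 (Pf.C 16 0xa20189) (Pf.B 9 4 (Pf.C 17 0x60624284) (Pf.C 0 0x61c484))) (Pf.C 13 0x1018485)) (Pf.C 13 0xe24288)) (Pf.C 2 1033)) (Pf.cons (Pf.B 9 8 (Pf.B 9 5 (Pf.B 9 6 (Pf.B 9 3 (Pf.C 16 0xa20189) (Pf.B 9 4 (Pf.C 17 0x60624284) (Pf.C 0 0x61c484))) (Pf.C 13 0x1018485)) (Pf.C 13 0xe24288)) (Pf.C 2 1033)) (Pf.cons (Pf.B 9 8 (Pf.B 9 4 (Pf.B 9 3 (Pf.C 14 0x820189) (Pf.C 48 393)) (Pf.C 48 521)) (Pf.C 2 1033)) Pf.nil))))) (Pf.C 7 16392)) (Pf.C 13 0xc20082)) (Pf.C 7 82184))) (Pf.C 13 0xc20287)) (Pf.B 8 5 (Pf.C 13 0xe20305) (Pf.B 8 2 (Pf.C 7 33416) (Pf.C 4 82184)))) (Pf.cons (Pf.B 8 7 (Pf.B 8 5 (Pf.B 8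 4 (Pf.C 17 0x70814308) (Pf.B 8 2 (Pf.B 8 1 (Pf.B 8 0 (Pf.B 8 3 (Pf.C 16 66563) (Pf.W 53 7 [] [3,4,5,6,8] (Pf.cons (Pf.B 9 8 (Pf.B 9 5 (Pf.B 9 6 (Pf.B 9 3 (Pf.C 16 0xa20189) (Pf.B 9 4 (Pf.C 17 0x60624284) (Pf.C 0 0x61c484))) (Pf.C 13 0x1018485)) (Pf.C 13 0xe24288)) (Pf.C 2 1033)) (Pf.cons (Pf.B 9 8 (Pf.B 9 5 (Pf.B 9 6 (Pf.B 9 3 (Pf.C 16 0xa20189) (Pf.B 9 4 (Pf.C 17 0x60624284) (Pf.C 0 0x61c484))) (Pf.C 13 0x1018485)) (Pf.C 13 0xe24288)) (Pf.C 2 1033)) (Pf.cons (Pf.B 9 8 (Pf.B 9 4 (Pf.B 9 3 (Pf.C 14 0x820189) (Pf.C 48 393)) (Pf.C 48 521)) (Pf.C 2 1033)) Pf.nil))))) (Pf.C 7 16392)) (Pf.C 13 0xc20082)) (Pf.C 7 82184))) (Pf.C 13 0xc20287)) (Pf.B 8 5 (Pf.C 13 0xe20305) (Pf.B 8 2 (Pf.C 7 33416) (Pf.C 4 82184))))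 (Pf.cons (Pf.B 8 4 (Pf.B 8 3 (Pf.B 8 5 (Pf.C 17 0x30c20205) (Pf.B 8 2 (Pf.C 7 33416) (Pf.C 4 82184))) (Pf.C 48 392)) (Pf.C 48 520)) Pf.nil)))) (Pf.C 42 263))) (Pf.C 42 647)) (Pf.C 42 775)) Pf.nil)) (Pf.W 53 6 [] [0,1,2,3,4,5] (Pf.cons (Pf.B 7 5 (Pf.B 7 2 (Pf.B 7 1 (Pf.B 7 0 (Pf.B 7 4 (Pf.B 7 3 (Pf.W 47 7 [] [0,4] (Pf.cons (Pf.B 8 4 (Pf.C 16 0x1c404) (Pf.C 8 66567)) Pf.nil)) (Pf.C 16 50052)) (Pf.B 7 3 (Pf.C 16 66435) (Pf.C 0 0x818383))) (Pf.C 7 16391)) (Pf.C 13 0xc1c082)) (Pf.C 7 82183)) (Pf.B 7 2 (Pf.C 7 33415) (Pf.C 4 82183))) (Pf.cons (Pf.B 7 5 (Pf.B 7 2 (Pf.B 7 1 (Pf.B 7 0 (Pf.B 7 4 (Pf.B 7 3 (Pf.W 47 7 [] [0,4] (Pf.cons (Pf.B 8 4 (Pf.C 16 0x1c404) (Pf.C 8 66567)) Pf.nil)) (Pf.C 16 50052)) (Pf.B 7 3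 (Pf.C 16 66435) (Pf.C 0 0x818383))) (Pf.C 7 16391)) (Pf.C 13 0xc1c082)) (Pf.C 7 82183)) (Pf.B 7 2 (Pf.C 7 33415) (Pf.C 4 82183))) (Pf.cons (Pf.B 7 4 (Pf.B 7 3 (Pf.B 7 5 (Pf.B 7 2 (Pf.W 51 7 [] [4] (Pf.cons (Pf.B 8 4 (Pf.C 44 0x20207) (Pf.C 40 1028)) Pf.nil)) (Pf.C 7 82183)) (Pf.B 7 2 (Pf.C 7 33415) (Pf.C 4 82183))) (Pf.C 48 391)) (Pf.C 48 519)) Pf.nil))))) (Pf.C 6 16390)) (Pf.C 4 17155)) (Pf.C 42 262)) (Pf.C 42 646)) Pf.nil)) (Pf.cons (Pf.C 42 261) Pf.nil))) (Pf.C 4 33411))) Pf.nil)) (Pf.C 6 16386)) (Pf.C 4 16643))) (Pf.C 10 49664)))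
 (Pq.cons (Pq.L [0,1] 3 (Pf.B 4 3 (Pf.B 3 1 (Pf.C 9 49153) (Pf.B 2 1 (Pf.W 55 3 [] [0,1,2,4] (Pf.cons (Pf.B 5 2 (Pf.B 5 1 (Pf.B 5 0 (Pf.B 5 4 (Pf.W 55 4 [] [0,1,2,3,5] (Pf.cons (Pf.B 6 5 (Pf.B 6 2 (Pf.B 6 3 (Pf.C 17 0x50608206) (Pf.W 53 5 [] [0,1,2,3,4,6] (Pf.cons (Pf.B 7 2 (Pf.B 7 6 (Pf.B 7 4 (Pf.C 15 0x814382) (Pf.B 7 1 (Pf.B 7 0 (Pf.B 7 3 (Pf.C 16 66435) (Pf.W 53 6 [] [2,3,4,5,7] (Pf.cons (Pf.B 8 7 (Pf.B 8 2 (Pf.B 8 5 (Pf.B 8 4 (Pf.C 16 0x41c208) (Pf.B 8 3 (Pf.C 17 0x50608208) (Pf.C 0 0x818403))) (Pf.C 13 0xe14402)) (Pf.C 54 1026)) (Pf.C 2 904)) (Pf.cons (Pf.B 8 7 (Pf.B 8 2 (Pf.B 8 5 (Pf.B 8 4 (Pf.C 16 0x41c208) (Pf.B 8 3 (Pf.C 17 0x50608208) (Pf.C 0 0x818403))) (Pf.C 13 0xe14402)) (Pf.C 54 1026)) (Pf.C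 2 904)) (Pf.cons (Pf.B 8 7 (Pf.B 8 4 (Pf.B 8 3 (Pf.C 14 0x81c188) (Pf.C 48 392)) (Pf.C 48 520)) (Pf.C 2 904)) Pf.nil))))) (Pf.C 7 16391)) (Pf.C 13 0xa1c082))) (Pf.C 13 0xa1c302)) (Pf.C 54 898)) (Pf.cons (Pf.B 7 2 (Pf.B 7 6 (Pf.B 7 4 (Pf.C 15 0x814382) (Pf.B 7 1 (Pf.B 7 0 (Pf.B 7 3 (Pf.C 16 66435) (Pf.W 53 6 [] [2,3,4,5,7] (Pf.cons (Pf.B 8 7 (Pf.B 8 2 (Pf.B 8 5 (Pf.B 8 4 (Pf.C 16 0x41c208) (Pf.B 8 3 (Pf.C 17 0x50608208) (Pf.C 0 0x818403))) (Pf.C 13 0xe14402)) (Pf.C 54 1026)) (Pf.C 2 904)) (Pf.cons (Pf.B 8 7 (Pf.B 8 2 (Pf.B 8 5 (Pf.B 8 4 (Pf.C 16 0x41c208) (Pf.B 8 3 (Pf.C 17 0x50608208) (Pf.C 0 0x818403))) (Pf.C 13 0xe14402)) (Pf.C 54 1026)) (Pf.C 2 904)) (Pf.cons (Pf.B 8 7 (Pf.B 8 4 (Pf.B 8 3 (Pf.C 14 0x81c188)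 (Pf.C 48 392)) (Pf.C 48 520)) (Pf.C 2 904)) Pf.nil))))) (Pf.C 7 16391)) (Pf.C 13 0xa1c082))) (Pf.C 13 0xa1c302)) (Pf.C 54 898)) (Pf.cons (Pf.B 7 4 (Pf.B 7 2 (Pf.C 15 0x814382) (Pf.C 54 898)) (Pf.C 48 519)) Pf.nil))))) (Pf.C 42 262)) (Pf.C 42 646)) Pf.nil)) (Pf.W 53 5 [] [0,1,2,3,4] (Pf.cons (Pf.B 6 2 (Pf.B 6 1 (Pf.B 6 0 (Pf.B 6 4 (Pf.B 6 3 (Pf.W 47 6 [] [0,4] (Pf.cons (Pf.B 7 4 (Pf.C 16 99204) (Pf.C 8 66438)) Pf.nil)) (Pf.C 16 49924)) (Pf.B 6 3 (Pf.C 16 66307) (Pf.C 0 0x814303))) (Pf.C 7 16390)) (Pf.C 13 0xa18082)) (Pf.C 54 770)) (Pf.cons (Pf.B 6 2 (Pf.B 6 1 (Pf.B 6 0 (Pf.B 6 4 (Pf.B 6 3 (Pf.W 47 6 [] [0,4] (Pf.cons (Pf.B 7 4 (Pf.C 16 99204) (Pf.C 8 66438)) Pf.nil)) (Pf.C 16 49924)) (Pf.B 6 3 (Pf.C 16 66307)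 (Pf.C 0 0x814303))) (Pf.C 7 16390)) (Pf.C 13 0xa18082)) (Pf.C 54 770)) (Pf.cons (Pf.B 6 4 (Pf.B 6 3 (Pf.B 6 2 (Pf.W 51 6 [] [4] (Pf.cons (Pf.B 7 4 (Pf.C 44 0x1c206) (Pf.C 40 900)) Pf.nil)) (Pf.C 54 770)) (Pf.C 48 390)) (Pf.C 48 518)) Pf.nil))))) (Pf.C 6 16389)) (Pf.C 4 17027)) (Pf.C 42 261)) Pf.nil)) (Pf.C 4 16643))) (Pf.C 10 49664)))
 (Pq.cons (Pq.L [0] 1 (Pf.C 10 49408))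
 (Pq.cons (Pq.L [] 1 (Pf.C 40 259))
 (Pq.cons (Pq.L [0,1] 3 (Pf.B 4 3 (Pf.B 4 1 (Pf.B 3 1 (Pf.B 2 1 (Pf.C 16 0x20c104) (Pf.B 2 0 (Pf.C 7 130) (Pf.C 4 16386))) (Pf.C 4 131)) (Pf.C 4 132)) (Pf.C 3 49664)))
 (Pq.cons (Pq.L [0,1] 3 (Pf.B 4 3 (Pf.B 4 1 (Pf.B 3 1 (Pf.B 2 1 (Pf.B 2 0 (Pf.W 41 2 [] [0,1,3,4] (Pf.cons (Pf.B 5 4 (Pf.C 9 65797) (Pf.B 5 3 (Pf.T 5 11 (Pf.cons (Pf.W 57 3 [] [0,1,2,4,5] (Pf.cons (Pf.B 6 5 (Pf.B 6 2 (Pf.B 6 1 (Pf.B 6 0 (Pf.B 6 4 (Pf.W 57 4 [] [1,2,3,5,6] (Pf.cons (Pf.B 7 6 (Pf.B 7 5 (Pf.B 7 3 (Pf.C 17 0x5081c303) (Pf.B 7 2 (Pf.W 53 6 [] [1,2,3,4,5,7] (Pf.cons (Pf.B 8 7 (Pf.B 8 5 (Pf.B 8 4 (Pf.C 17 0x70814308) (Pf.B 8 2 (Pf.B 8 1 (Pf.B 8 3 (Pf.C 16 0x210403) (Pf.W 53 7 [] [3,4,5,6,8] (Pf.cons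 (Pf.B 9 8 (Pf.B 9 5 (Pf.B 9 6 (Pf.B 9 3 (Pf.C 16 0xa20189) (Pf.B 9 4 (Pf.C 17 0x60624284) (Pf.C 0 0x61c484))) (Pf.C 13 0x1018485)) (Pf.C 13 0xe24288)) (Pf.C 2 1033)) (Pf.cons (Pf.B 9 8 (Pf.B 9 4 (Pf.B 9 3 (Pf.C 14 0x820189) (Pf.C 50 393)) (Pf.C 50 521)) (Pf.C 2 1033)) (Pf.cons (Pf.B 9 8 (Pf.B 9 5 (Pf.B 9 6 (Pf.B 9 3 (Pf.C 16 0xa20189) (Pf.B 9 4 (Pf.C 17 0x60624284) (Pf.C 0 0x61c484))) (Pf.C 13 0x1018485)) (Pf.C 13 0xe24288)) (Pf.C 2 1033)) Pf.nil))))) (Pf.C 13 0xc20082)) (Pf.C 7 82184))) (Pf.C 13 0xc20287)) (Pf.B 8 5 (Pf.C 13 0xe20305) (Pf.B 8 2 (Pf.C 7 33416) (Pf.C 4 82184)))) (Pf.cons (Pf.B 8 4 (Pf.B 8 3 (Pf.B 8 5 (Pf.C 17 0x30c20205) (Pf.B 8 2 (Pf.C 7 33416) (Pf.C 4 82184))) (Pf.C 50 392)) (Pf.C 50 520))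 (Pf.cons (Pf.B 8 7 (Pf.B 8 5 (Pf.B 8 4 (Pf.C 17 0x70814308) (Pf.B 8 2 (Pf.B 8 1 (Pf.B 8 3 (Pf.C 16 0x210403) (Pf.W 53 7 [] [3,4,5,6,8] (Pf.cons (Pf.B 9 8 (Pf.B 9 5 (Pf.B 9 6 (Pf.B 9 3 (Pf.C 16 0xa20189) (Pf.B 9 4 (Pf.C 17 0x60624284) (Pf.C 0 0x61c484))) (Pf.C 13 0x1018485)) (Pf.C 13 0xe24288)) (Pf.C 2 1033)) (Pf.cons (Pf.B 9 8 (Pf.B 9 4 (Pf.B 9 3 (Pf.C 14 0x820189) (Pf.C 50 393)) (Pf.C 50 521)) (Pf.C 2 1033)) (Pf.cons (Pf.B 9 8 (Pf.B 9 5 (Pf.B 9 6 (Pf.B 9 3 (Pf.C 16 0xa20189) (Pf.B 9 4 (Pf.C 17 0x60624284) (Pf.C 0 0x61c484))) (Pf.C 13 0x1018485)) (Pf.C 13 0xe24288)) (Pf.C 2 1033)) Pf.nil))))) (Pf.C 13 0xc20082)) (Pf.C 7 82184))) (Pf.C 13 0xc20287)) (Pf.B 8 5 (Pf.C 13 0xe20305) (Pf.B 8 2 (Pf.C 7 33416) (Pf.C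 4 82184)))) Pf.nil)))) (Pf.C 42 263))) (Pf.C 42 647)) (Pf.C 42 775)) Pf.nil)) (Pf.W 53 6 [] [0,1,2,3,4,5] (Pf.cons (Pf.B 7 5 (Pf.B 7 2 (Pf.B 7 1 (Pf.B 7 4 (Pf.B 7 3 (Pf.W 47 7 [] [4] (Pf.cons (Pf.B 8 4 (Pf.C 43 66567) (Pf.C 40 520)) Pf.nil)) (Pf.C 16 0x20c384)) (Pf.B 7 3 (Pf.C 16 0x210383) (Pf.C 0 0x818383))) (Pf.C 13 0xc1c082)) (Pf.C 7 82183)) (Pf.B 7 2 (Pf.C 7 33415) (Pf.C 4 82183))) (Pf.cons (Pf.B 7 4 (Pf.B 7 3 (Pf.B 7 5 (Pf.B 7 2 (Pf.W 47 7 [] [4] (Pf.cons (Pf.B 8 4 (Pf.C 43 66567) (Pf.C 40 520)) Pf.nil)) (Pf.C 7 82183)) (Pf.B 7 2 (Pf.C 7 33415) (Pf.C 4 82183))) (Pf.C 50 391)) (Pf.C 50 519)) (Pf.cons (Pf.B 7 5 (Pf.B 7 2 (Pf.B 7 1 (Pf.B 7 0 (Pf.B 7 4 (Pf.B 7 3 (Pf.W 51 7 [] [0,2,3,4,5] (Pf.cons (Pf.B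 8 4 (Pf.B 8 3 (Pf.B 8 5 (Pf.C 16 0xa1c403) (Pf.B 8 2 (Pf.C 16 0x41c404) (Pf.C 4 82184))) (Pf.C 3 50176)) (Pf.C 3 66560)) Pf.nil)) (Pf.C 16 0x20c384)) (Pf.B 7 3 (Pf.C 16 0x210383) (Pf.C 0 0x818383))) (Pf.C 7 16391)) (Pf.C 13 0xc1c082)) (Pf.C 7 82183)) (Pf.B 7 2 (Pf.C 7 33415) (Pf.C 4 82183))) Pf.nil))))) (Pf.C 4 771)) (Pf.C 11 16390)) (Pf.C 42 262)) (Pf.C 42 646)) Pf.nil)) (Pf.cons (Pf.C 42 261) Pf.nil))) (Pf.C 4 33411))) Pf.nil)) (Pf.C 4 259)) (Pf.C 9 65666)) (Pf.C 4 131)) (Pf.C 4 132)) (Pf.C 3 49664)))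
 (Pq.cons (Pq.L [0,1] 3 (Pf.B 4 3 (Pf.B 4 1 (Pf.B 3 1 (Pf.B 2 1 (Pf.W 57 3 [] [0,1,2,4] (Pf.cons (Pf.B 5 2 (Pf.B 5 1 (Pf.B 5 0 (Pf.B 5 4 (Pf.W 57 4 [] [1,2,3,5] (Pf.cons (Pf.B 6 5 (Pf.B 6 2 (Pf.B 6 3 (Pf.C 17 0x50608206) (Pf.W 53 5 [] [1,2,3,4,6] (Pf.cons (Pf.B 7 2 (Pf.B 7 6 (Pf.B 7 4 (Pf.C 15 0x814382) (Pf.B 7 1 (Pf.B 7 3 (Pf.C 16 0x210383) (Pf.W 53 6 [] [2,3,4,5,7] (Pf.cons (Pf.B 8 7 (Pf.B 8 2 (Pf.B 8 5 (Pf.B 8 4 (Pf.C 16 0x41c208) (Pf.B 8 3 (Pf.C 17 0x50608208) (Pf.C 0 0x818403))) (Pf.C 13 0xe14402)) (Pf.C 54 1026)) (Pf.C 2 904)) (Pf.cons (Pf.B 8 7 (Pf.B 8 4 (Pf.B 8 3 (Pf.C 14 0x81c188) (Pf.C 50 392)) (Pf.C 50 520)) (Pf.C 2 904)) (Pf.cons (Pf.B 8 7 (Pf.B 8 2 (Pf.B 8 5 (Pf.B 8 4 (Pf.C 16 0x41c208) (Pf.B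 8 3 (Pf.C 17 0x50608208) (Pf.C 0 0x818403))) (Pf.C 13 0xe14402)) (Pf.C 54 1026)) (Pf.C 2 904)) Pf.nil))))) (Pf.C 13 0xa1c082))) (Pf.C 13 0xa1c302)) (Pf.C 54 898)) (Pf.cons (Pf.B 7 4 (Pf.B 7 2 (Pf.C 15 0x814382) (Pf.C 54 898)) (Pf.C 50 519)) (Pf.cons (Pf.B 7 2 (Pf.B 7 6 (Pf.B 7 4 (Pf.C 15 0x814382) (Pf.B 7 1 (Pf.B 7 3 (Pf.C 16 0x210383) (Pf.W 53 6 [] [2,3,4,5,7] (Pf.cons (Pf.B 8 7 (Pf.B 8 2 (Pf.B 8 5 (Pf.B 8 4 (Pf.C 16 0x41c208) (Pf.B 8 3 (Pf.C 17 0x50608208) (Pf.C 0 0x818403))) (Pf.C 13 0xe14402)) (Pf.C 54 1026)) (Pf.C 2 904)) (Pf.cons (Pf.B 8 7 (Pf.B 8 4 (Pf.B 8 3 (Pf.C 14 0x81c188) (Pf.C 50 392)) (Pf.C 50 520)) (Pf.C 2 904)) (Pf.cons (Pf.B 8 7 (Pf.B 8 2 (Pf.B 8 5 (Pf.B 8 4 (Pf.C 16 0x41c208) (Pf.B 8 3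 (Pf.C 17 0x50608208) (Pf.C 0 0x818403))) (Pf.C 13 0xe14402)) (Pf.C 54 1026)) (Pf.C 2 904)) Pf.nil))))) (Pf.C 13 0xa1c082))) (Pf.C 13 0xa1c302)) (Pf.C 54 898)) Pf.nil))))) (Pf.C 42 262)) (Pf.C 42 646)) Pf.nil)) (Pf.W 53 5 [] [0,1,2,3,4] (Pf.cons (Pf.B 6 2 (Pf.B 6 1 (Pf.B 6 4 (Pf.B 6 3 (Pf.W 47 6 [] [4] (Pf.cons (Pf.B 7 4 (Pf.C 43 66438) (Pf.C 40 519)) Pf.nil)) (Pf.C 16 0x20c304)) (Pf.B 6 3 (Pf.C 16 0x210303) (Pf.C 0 0x814303))) (Pf.C 13 0xa18082)) (Pf.C 54 770)) (Pf.cons (Pf.B 6 4 (Pf.B 6 3 (Pf.B 6 2 (Pf.W 47 6 [] [4] (Pf.cons (Pf.B 7 4 (Pf.C 43 66438) (Pf.C 40 519)) Pf.nil)) (Pf.C 54 770)) (Pf.C 50 390)) (Pf.C 50 518)) (Pf.cons (Pf.B 6 2 (Pf.B 6 1 (Pf.B 6 0 (Pf.B 6 4 (Pf.B 6 3 (Pf.W 51 6 [] [0,1,3] (Pf.cons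 (Pf.B 7 3 (Pf.B 7 1 (Pf.C 16 0x218383) (Pf.C 4 135)) (Pf.C 3 50048)) Pf.nil)) (Pf.C 16 0x20c304)) (Pf.B 6 3 (Pf.C 16 0x210303) (Pf.C 0 0x814303))) (Pf.C 7 16390)) (Pf.C 13 0xa18082)) (Pf.C 54 770)) Pf.nil))))) (Pf.C 4 643)) (Pf.C 11 16389)) (Pf.C 42 261)) Pf.nil)) (Pf.C 9 65666)) (Pf.C 4 131)) (Pf.C 4 132)) (Pf.C 3 49664)))
 (Pq.cons (Pq.L [] 1 (Pf.C 40 386))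
 (Pq.cons (Pq.L [0] 1 (Pf.C 3 49408))
 Pq.nil))))))))))))))))))))))))))))))
theorem e5_o15 : AllRef e5_T e5_G29 (splitObl [38,39,40,42,44,46] [41,34,43,45,47]) :=
  chkPq_sound e5_o15c _ (by decide +kernel)
noncomputable def e5_o16c : Pq := (Pq.cons (Pq.D 0 (Pq.cons (Pq.D 1 (Pq.cons (Pq.L [] 1 (Pf.C 2 386))
 (Pq.cons (Pq.L [] 1 (Pf.C 2 386))
 (Pq.cons (Pq.L [] 1 (Pf.C 2 386))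
 (Pq.cons (Pq.D 2 (Pq.cons (Pq.L [] 2 (Pf.C 2 514))
 (Pq.cons (Pq.L [] 2 (Pf.C 2 514))
 (Pq.cons (Pq.L [] 2 (Pf.C 2 514))
 (Pq.cons (Pq.L [] 7 (Pf.C 4 65922))
 (Pq.cons (Pq.L [] 7 (Pf.W 49 2 [] [3,4] (Pf.cons (Pf.B 5 4 (Pf.B 5 3 (Pf.C 45 82435) (Pf.C 0 0x808185)) (Pf.C 40 644)) Pf.nil)))
 (Pq.cons (Pq.L [] 7 (Pf.W 47 2 [] [3,4] (Pf.cons (Pf.B 5 4 (Pf.B 5 3 (Pf.C 46 66179) (Pf.C 0 0x808185)) (Pf.C 40 517)) Pf.nil)))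
 Pq.nil))))))) (Pq.cons (Pq.D 2 (Pq.cons (Pq.L [] 2 (Pf.C 2 514))
 (Pq.cons (Pq.L [] 2 (Pf.C 2 514))
 (Pq.cons (Pq.L [] 2 (Pf.C 2 514))
 (Pq.cons (Pq.L [] 7 (Pf.W 49 2 [] [3,4] (Pf.cons (Pf.B 5 3 (Pf.B 5 4 (Pf.C 45 82308) (Pf.C 0 0x608205)) (Pf.C 40 643)) Pf.nil)))
 (Pq.cons (Pq.L [] 7 (Pf.C 3 65922))
 (Pq.cons (Pq.L [] 7 (Pf.C 3 65922))
 Pq.nil))))))) (Pq.cons (Pq.D 2 (Pq.cons (Pq.L [] 2 (Pf.C 2 514))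
 (Pq.cons (Pq.L [] 2 (Pf.C 2 514))
 (Pq.cons (Pq.L [] 2 (Pf.C 2 514))
 (Pq.cons (Pq.L [] 7 (Pf.W 47 2 [] [3,4] (Pf.cons (Pf.B 5 3 (Pf.B 5 4 (Pf.C 46 49796) (Pf.C 0 0x608205)) (Pf.C 40 389)) Pf.nil)))
 (Pq.cons (Pq.L [] 7 (Pf.C 3 65922))
 (Pq.cons (Pq.L [] 7 (Pf.C 3 65922))
 Pq.nil))))))) Pq.nil))))))) (Pq.cons (Pq.D 1 (Pq.cons (Pq.L [] 1 (Pf.C 2 386))
 (Pq.cons (Pq.L [] 1 (Pf.C 2 386))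
 (Pq.cons (Pq.L [] 1 (Pf.C 2 386))
 (Pq.cons (Pq.D 2 (Pq.cons (Pq.L [] 2 (Pf.C 2 514))
 (Pq.cons (Pq.L [] 2 (Pf.C 2 514))
 (Pq.cons (Pq.L [] 2 (Pf.C 2 514))
 (Pq.cons (Pq.L [] 7 (Pf.C 4 65922))
 (Pq.cons (Pq.L [0,1] 2 (Pf.B 2 1 (Pf.B 2 0 (Pf.W 47 2 [] [0,4] (Pf.cons (Pf.B 5 4 (Pf.C 16 33412) (Pf.C 8 66178)) Pf.nil)) (Pf.C 7 16386)) (Pf.B 2 0 (Pf.C 7 130) (Pf.C 4 16386))))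
 (Pq.cons (Pq.L [] 2 (Pf.C 50 514))
 Pq.nil))))))) (Pq.cons (Pq.D 2 (Pq.cons (Pq.L [] 2 (Pf.C 2 514))
 (Pq.cons (Pq.L [] 2 (Pf.C 2 514))
 (Pq.cons (Pq.L [] 2 (Pf.C 2 514))
 (Pq.cons (Pq.L [0,1] 1 (Pf.B 2 1 (Pf.B 2 0 (Pf.W 47 2 [] [0,3] (Pf.cons (Pf.B 5 3 (Pf.C 16 33411) (Pf.C 8 49794)) Pf.nil)) (Pf.C 7 16386)) (Pf.B 2 0 (Pf.C 7 130) (Pf.C 4 16386))))
 (Pq.cons (Pq.L [0] 4 (Pf.C 10 65920))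
 (Pq.cons (Pq.L [] 7 (Pf.C 8 49666))
 Pq.nil))))))) (Pq.cons (Pq.L [] 1 (Pf.C 50 386))
 Pq.nil))))))) (Pq.cons (Pq.D 1 (Pq.cons (Pq.L [] 1 (Pf.C 2 386))
 (Pq.cons (Pq.L [] 1 (Pf.C 2 386))
 (Pq.cons (Pq.L [] 1 (Pf.C 2 386))
 (Pq.cons (Pq.D 2 (Pq.cons (Pq.L [] 2 (Pf.C 2 514))
 (Pq.cons (Pq.L [] 2 (Pf.C 2 514))
 (Pq.cons (Pq.L [] 2 (Pf.C 2 514))
 (Pq.cons (Pq.L [] 7 (Pf.C 4 65922))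
 (Pq.cons (Pq.L [] 2 (Pf.C 48 514))
 (Pq.cons (Pq.L [0,1] 2 (Pf.B 4 1 (Pf.B 2 1 (Pf.B 2 0 (Pf.W 51 2 [] [0,1,4] (Pf.cons (Pf.B 5 4 (Pf.B 5 1 (Pf.C 16 0x208284) (Pf.C 4 133)) (Pf.C 3 66176)) Pf.nil)) (Pf.C 7 16386)) (Pf.B 2 0 (Pf.C 7 130) (Pf.C 4 16386))) (Pf.C 4 132)))
 Pq.nil))))))) (Pq.cons (Pq.L [] 1 (Pf.C 48 386))
 (Pq.cons (Pq.D 2 (Pq.cons (Pq.L [] 2 (Pf.C 2 514))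
 (Pq.cons (Pq.L [] 2 (Pf.C 2 514))
 (Pq.cons (Pq.L [] 2 (Pf.C 2 514))
 (Pq.cons (Pq.L [0,1] 1 (Pf.B 3 1 (Pf.B 2 1 (Pf.B 2 0 (Pf.W 51 2 [] [0,1,3] (Pf.cons (Pf.B 5 3 (Pf.B 5 1 (Pf.C 16 0x208283) (Pf.C 4 133)) (Pf.C 3 49792)) Pf.nil)) (Pf.C 7 16386)) (Pf.B 2 0 (Pf.C 7 130) (Pf.C 4 16386))) (Pf.C 4 131)))
 (Pq.cons (Pq.L [] 2 (Pf.C 48 514))
 (Pq.cons (Pq.L [0] 4 (Pf.C 3 65920))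
 Pq.nil))))))) Pq.nil))))))) (Pq.cons (Pq.D 1 (Pq.cons (Pq.D 2 (Pq.cons (Pq.L [] 4 (Pf.C 2 515))
 (Pq.cons (Pq.L [] 4 (Pf.C 2 515))
 (Pq.cons (Pq.L [] 4 (Pf.C 2 515))
 (Pq.cons (Pq.L [] 2 (Pf.C 42 514))
 (Pq.cons (Pq.L [] 7 (Pf.W 49 3 [] [2,4] (Pf.cons (Pf.B 5 4 (Pf.B 5 2 (Pf.C 45 82434) (Pf.C 0 0x80c105)) (Pf.C 40 644)) Pf.nil)))
 (Pq.cons (Pq.L [] 7 (Pf.W 47 3 [] [2,4] (Pf.cons (Pf.B 5 4 (Pf.B 5 2 (Pf.C 46 66178) (Pf.C 0 0x80c105)) (Pf.C 40 517)) Pf.nil)))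
 Pq.nil))))))) (Pq.cons (Pq.D 2 (Pq.cons (Pq.L [] 4 (Pf.C 2 515))
 (Pq.cons (Pq.L [] 4 (Pf.C 2 515))
 (Pq.cons (Pq.L [] 4 (Pf.C 2 515))
 (Pq.cons (Pq.L [] 2 (Pf.C 42 514))
 (Pq.cons (Pq.L [0,1] 4 (Pf.B 3 1 (Pf.B 3 0 (Pf.W 47 3 [] [0,4] (Pf.cons (Pf.B 5 4 (Pf.C 16 49796) (Pf.C 8 66179)) Pf.nil)) (Pf.C 7 16387)) (Pf.B 3 0 (Pf.C 7 131) (Pf.C 4 16387))))
 (Pq.cons (Pq.L [] 4 (Pf.C 50 515))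
 Pq.nil))))))) (Pq.cons (Pq.D 2 (Pq.cons (Pq.L [] 4 (Pf.C 2 515))
 (Pq.cons (Pq.L [] 4 (Pf.C 2 515))
 (Pq.cons (Pq.L [] 4 (Pf.C 2 515))
 (Pq.cons (Pq.L [] 2 (Pf.C 42 514))
 (Pq.cons (Pq.L [] 4 (Pf.C 48 515))
 (Pq.cons (Pq.L [0,1] 4 (Pf.B 4 1 (Pf.B 3 1 (Pf.B 3 0 (Pf.W 51 3 [] [0,1,4] (Pf.cons (Pf.B 5 4 (Pf.B 5 1 (Pf.C 16 0x20c284) (Pf.C 4 133)) (Pf.C 3 66176)) Pf.nil)) (Pf.C 7 16387)) (Pf.B 3 0 (Pf.C 7 131) (Pf.C 4 16387))) (Pf.C 4 132)))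
 Pq.nil))))))) (Pq.cons (Pq.L [] 1 (Pf.C 42 386))
 (Pq.cons (Pq.D 2 (Pq.cons (Pq.L [] 7 (Pf.W 49 4 [] [2,3] (Pf.cons (Pf.B 5 3 (Pf.B 5 2 (Pf.C 45 82306) (Pf.C 0 0x610105)) (Pf.C 40 643)) Pf.nil)))
 (Pq.cons (Pq.L [0,1] 4 (Pf.B 4 1 (Pf.B 4 0 (Pf.W 47 4 [] [0,3] (Pf.cons (Pf.B 5 3 (Pf.C 16 66179) (Pf.C 8 49796)) Pf.nil)) (Pf.C 7 16388)) (Pf.B 4 0 (Pf.C 7 132) (Pf.C 4 16388))))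
 (Pq.cons (Pq.L [] 4 (Pf.C 48 388))
 (Pq.cons (Pq.L [] 2 (Pf.C 42 514))
 (Pq.cons (Pq.L [] 7 (Pf.C 3 65922))
 (Pq.cons (Pq.L [] 7 (Pf.C 3 65922))
 Pq.nil))))))) (Pq.cons (Pq.D 2 (Pq.cons (Pq.L [] 7 (Pf.W 47 4 [] [2,3] (Pf.cons (Pf.B 5 3 (Pf.B 5 2 (Pf.C 46 49794) (Pf.C 0 0x610105)) (Pf.C 40 389)) Pf.nil)))
 (Pq.cons (Pq.L [] 4 (Pf.C 50 388))
 (Pq.cons (Pq.L [0,1] 4 (Pf.B 3 1 (Pf.B 4 1 (Pf.B 4 0 (Pf.W 51 4 [] [0,1,3] (Pf.cons (Pf.B 5 3 (Pf.B 5 1 (Pf.C 16 0x210283) (Pf.C 4 133)) (Pf.C 3 49792)) Pf.nil)) (Pf.C 7 16388)) (Pf.B 4 0 (Pf.C 7 132) (Pf.C 4 16388))) (Pf.C 4 131)))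
 (Pq.cons (Pq.L [] 2 (Pf.C 42 514))
 (Pq.cons (Pq.L [] 7 (Pf.C 3 65922))
 (Pq.cons (Pq.L [] 7 (Pf.C 3 65922))
 Pq.nil))))))) Pq.nil))))))) (Pq.cons (Pq.D 1 (Pq.cons (Pq.D 2 (Pq.cons (Pq.L [] 4 (Pf.C 2 515))
 (Pq.cons (Pq.L [] 4 (Pf.C 2 515))
 (Pq.cons (Pq.L [] 2 (Pf.C 48 260))
 (Pq.cons (Pq.L [] 7 (Pf.W 49 3 [] [2,4] (Pf.cons (Pf.B 5 2 (Pf.B 5 4 (Pf.C 45 82180) (Pf.C 0 0x40c205)) (Pf.C 40 642)) Pf.nil)))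
 (Pq.cons (Pq.L [] 7 (Pf.C 3 65795))
 (Pq.cons (Pq.L [] 2 (Pf.C 40 514))
 Pq.nil))))))) (Pq.cons (Pq.D 2 (Pq.cons (Pq.L [] 4 (Pf.C 2 515))
 (Pq.cons (Pq.L [] 4 (Pf.C 2 515))
 (Pq.cons (Pq.L [] 2 (Pf.C 48 260))
 (Pq.cons (Pq.L [0,1] 1 (Pf.B 3 1 (Pf.B 3 0 (Pf.W 47 3 [] [0,2] (Pf.cons (Pf.B 5 2 (Pf.C 16 49794) (Pf.C 8 33411)) Pf.nil)) (Pf.C 7 16387)) (Pf.B 3 0 (Pf.C 7 131) (Pf.C 4 16387))))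
 (Pq.cons (Pq.L [0] 2 (Pf.C 10 65792))
 (Pq.cons (Pq.L [] 2 (Pf.C 40 514))
 Pq.nil))))))) (Pq.cons (Pq.L [] 1 (Pf.C 48 259))
 (Pq.cons (Pq.D 2 (Pq.cons (Pq.L [] 7 (Pf.W 49 4 [] [2,3] (Pf.cons (Pf.B 5 2 (Pf.B 5 3 (Pf.C 45 82179) (Pf.C 0 0x410185)) (Pf.C 40 642)) Pf.nil)))
 (Pq.cons (Pq.L [0,1] 2 (Pf.B 4 1 (Pf.B 4 0 (Pf.W 47 4 [] [0,2] (Pf.cons (Pf.B 5 2 (Pf.C 16 66178) (Pf.C 8 33412)) Pf.nil)) (Pf.C 7 16388)) (Pf.B 4 0 (Pf.C 7 132) (Pf.C 4 16388))))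
 (Pq.cons (Pq.L [] 2 (Pf.C 48 260))
 (Pq.cons (Pq.L [] 7 (Pf.C 4 65922))
 (Pq.cons (Pq.L [] 7 (Pf.C 3 65795))
 (Pq.cons (Pq.L [] 2 (Pf.C 40 514))
 Pq.nil))))))) (Pq.cons (Pq.L [0] 1 (Pf.C 10 49408))
 (Pq.cons (Pq.L [] 1 (Pf.C 40 386))
 Pq.nil))))))) (Pq.cons (Pq.D 1 (Pq.cons (Pq.D 2 (Pq.cons (Pq.L [] 4 (Pf.C 2 515))
 (Pq.cons (Pq.L [] 2 (Pf.C 50 260))
 (Pq.cons (Pq.L [] 4 (Pf.C 2 515))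
 (Pq.cons (Pq.L [] 7 (Pf.W 47 3 [] [2,4] (Pf.cons (Pf.B 5 2 (Pf.B 5 4 (Pf.C 46 33412) (Pf.C 0 0x40c205)) (Pf.C 40 261)) Pf.nil)))
 (Pq.cons (Pq.L [] 2 (Pf.C 40 260))
 (Pq.cons (Pq.L [0] 2 (Pf.C 3 65792))
 Pq.nil))))))) (Pq.cons (Pq.L [] 1 (Pf.C 50 259))
 (Pq.cons (Pq.D 2 (Pq.cons (Pq.L [] 4 (Pf.C 2 515))
 (Pq.cons (Pq.L [] 2 (Pf.C 50 260))
 (Pq.cons (Pq.L [] 4 (Pf.C 2 515))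
 (Pq.cons (Pq.L [0,1] 1 (Pf.B 2 1 (Pf.B 3 1 (Pf.B 3 0 (Pf.W 51 3 [] [0,1,2] (Pf.cons (Pf.B 5 2 (Pf.B 5 1 (Pf.C 16 0x20c282) (Pf.C 4 133)) (Pf.C 3 33408)) Pf.nil)) (Pf.C 7 16387)) (Pf.B 3 0 (Pf.C 7 131) (Pf.C 4 16387))) (Pf.C 4 130)))
 (Pq.cons (Pq.L [] 2 (Pf.C 40 260))
 (Pq.cons (Pq.L [0] 2 (Pf.C 3 65792))
 Pq.nil))))))) (Pq.cons (Pq.D 2 (Pq.cons (Pq.L [] 7 (Pf.W 47 4 [] [2,3] (Pf.cons (Pf.B 5 2 (Pf.B 5 3 (Pf.C 46 33411) (Pf.C 0 0x410185)) (Pf.C 40 261)) Pf.nil)))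
 (Pq.cons (Pq.L [] 2 (Pf.C 50 260))
 (Pq.cons (Pq.L [0,1] 2 (Pf.B 2 1 (Pf.B 4 1 (Pf.B 4 0 (Pf.W 51 4 [] [0,1,2] (Pf.cons (Pf.B 5 2 (Pf.B 5 1 (Pf.C 16 0x210282) (Pf.C 4 133)) (Pf.C 3 33408)) Pf.nil)) (Pf.C 7 16388)) (Pf.B 4 0 (Pf.C 7 132) (Pf.C 4 16388))) (Pf.C 4 130)))
 (Pq.cons (Pq.L [] 7 (Pf.C 4 65922))
 (Pq.cons (Pq.L [] 2 (Pf.C 40 260))
 (Pq.cons (Pq.L [0] 2 (Pf.C 3 65792))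
 Pq.nil))))))) (Pq.cons (Pq.L [] 1 (Pf.C 40 259))
 (Pq.cons (Pq.L [0] 1 (Pf.C 3 49408))
 Pq.nil))))))) Pq.nil))))))) Pq.nil)
theorem e5_o16 : AllRef e5_T e5_G29 (List.take 1 (applyObl d_T 2 [38,39,40,42,44,46] [0,0,0,0,0,0] [(39,0x100000000000),(40,0x400000000000),(44,0x8000000000),(46,0x10000000000)])) :=
  chkPq_sound e5_o16c _ (by decide +kernel)
noncomputable def e5_o17c : Pq := (Pq.cons (Pq.D 2 (Pq.cons (Pq.L [] 64 (Pf.C 2 515))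
 (Pq.cons (Pq.L [] 64 (Pf.C 2 515))
 (Pq.cons (Pq.L [] 64 (Pf.C 2 515))
 (Pq.cons (Pq.D 3 (Pq.cons (Pq.L [] 2247 (Pf.C 13 0xa0c202))
 (Pq.cons (Pq.L [] 2247 (Pf.C 13 0xa0c202))
 (Pq.cons (Pq.L [] 2247 (Pf.C 13 0xa0c202))
 (Pq.cons (Pq.L [] 2247 (Pf.C 13 0xa0c202))
 (Pq.cons (Pq.L [0,1] 2247 (Pf.B 4 1 (Pf.B 4 0 (Pf.B 2 0 (Pf.B 3 0 (Pf.C 16 82306) (Pf.C 13 0x80c002)) (Pf.C 15 0xa00104)) (Pf.C 6 16388)) (Pf.C 11 16388)))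
 (Pq.cons (Pq.L [0,1] 2247 (Pf.B 5 1 (Pf.B 4 1 (Pf.B 2 1 (Pf.B 3 1 (Pf.C 16 0x214182) (Pf.C 13 0x80c082)) (Pf.C 15 0xa04104)) (Pf.C 9 82052)) (Pf.C 4 133)))
 Pq.nil))))))) (Pq.cons (Pq.D 3 (Pq.cons (Pq.L [] 2247 (Pf.C 14 0xa0c202))
 (Pq.cons (Pq.L [] 128 (Pf.C 2 643))
 (Pq.cons (Pq.L [] 2247 (Pf.C 14 0xa0c202))
 (Pq.cons (Pq.L [0,1] 2247 (Pf.B 5 1 (Pf.B 5 0 (Pf.B 2 0 (Pf.B 3 0 (Pf.C 16 65922) (Pf.C 13 0xa0c002)) (Pf.C 15 0x800105)) (Pf.C 6 16389)) (Pf.C 11 16389)))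
 (Pq.cons (Pq.L [] 2247 (Pf.C 14 0xa0c202))
 (Pq.cons (Pq.L [] 2247 (Pf.C 14 0xa0c202))
 Pq.nil))))))) (Pq.cons (Pq.D 3 (Pq.cons (Pq.L [] 2247 (Pf.C 14 0xa0c202))
 (Pq.cons (Pq.L [] 2247 (Pf.C 14 0xa0c202))
 (Pq.cons (Pq.L [] 128 (Pf.C 2 643))
 (Pq.cons (Pq.L [0,1] 2247 (Pf.B 5 1 (Pf.B 4 1 (Pf.B 2 1 (Pf.B 3 1 (Pf.C 16 0x210182) (Pf.C 13 0xa0c082)) (Pf.C 15 0x804105)) (Pf.C 4 132)) (Pf.C 11 16389)))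
 (Pq.cons (Pq.L [] 2247 (Pf.C 14 0xa0c202))
 (Pq.cons (Pq.L [] 2247 (Pf.C 14 0xa0c202))
 Pq.nil))))))) Pq.nil))))))) (Pq.cons (Pq.D 2 (Pq.cons (Pq.L [] 64 (Pf.C 2 515))
 (Pq.cons (Pq.L [] 64 (Pf.C 2 515))
 (Pq.cons (Pq.L [] 64 (Pf.C 2 515))
 (Pq.cons (Pq.D 3 (Pq.cons (Pq.L [] 2247 (Pf.C 13 0xa0c202))
 (Pq.cons (Pq.L [] 2247 (Pf.C 13 0xa0c202))
 (Pq.cons (Pq.L [] 2247 (Pf.C 13 0xa0c202))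
 (Pq.cons (Pq.L [] 2247 (Pf.C 13 0xa0c202))
 (Pq.cons (Pq.L [] 2247 (Pf.C 15 0xa10182))
 (Pq.cons (Pq.L [] 128 (Pf.C 50 643))
 Pq.nil))))))) (Pq.cons (Pq.D 3 (Pq.cons (Pq.L [] 2247 (Pf.C 15 0x814182))
 (Pq.cons (Pq.L [] 2247 (Pf.C 14 0x814182))
 (Pq.cons (Pq.L [] 2247 (Pf.C 15 0x814182))
 (Pq.cons (Pq.L [] 2247 (Pf.C 15 0x814182))
 (Pq.cons (Pq.D 4 (Pq.cons (Pq.L [] 4427 (Pf.C 15 0x818182))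
 (Pq.cons (Pq.L [] 4427 (Pf.C 14 0x818182))
 (Pq.cons (Pq.L [] 4427 (Pf.C 15 0x818182))
 (Pq.cons (Pq.L [] 4427 (Pf.C 15 0x818182))
 (Pq.cons (Pq.D 5 (Pq.cons (Pq.L [0,1] 0x43000 (Pf.B 7 0 (Pf.C 16 99204) (Pf.B 7 1 (Pf.C 7 16391) (Pf.C 4 135))))
 (Pq.cons (Pq.L [] 75798 (Pf.C 14 0xa1c202))
 (Pq.cons (Pq.L [] 0x40000 (Pf.C 48 775))
 (Pq.cons (Pq.L [0,1] 8779 (Pf.B 7 1 (Pf.B 7 0 (Pf.B 3 0 (Pf.B 2 0 (Pf.W 47 2 [] [0,6] (Pf.cons (Pf.B 9 6 (Pf.C 16 33926) (Pf.C 8 99458)) Pf.nil)) (Pf.C 15 0x800103)) (Pf.C 15 0x800187)) (Pf.C 6 16391)) (Pf.C 11 16391)))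
 (Pq.cons (Pq.L [] 0x40319 (Pf.C 14 0xc1c182))
 (Pq.cons (Pq.L [] 0x40000 (Pf.C 40 902))
 Pq.nil))))))) (Pq.cons (Pq.L [] 256 (Pf.C 50 771))
 Pq.nil))))))) (Pq.cons (Pq.L [] 128 (Pf.C 50 643))
 Pq.nil))))))) (Pq.cons (Pq.L [] 64 (Pf.C 50 515))
 Pq.nil))))))) (Pq.cons (Pq.D 2 (Pq.cons (Pq.L [] 64 (Pf.C 2 515))
 (Pq.cons (Pq.L [] 64 (Pf.C 2 515))
 (Pq.cons (Pq.L [] 64 (Pf.C 2 515))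
 (Pq.cons (Pq.D 3 (Pq.cons (Pq.L [] 2247 (Pf.C 13 0xa0c202))
 (Pq.cons (Pq.L [] 2247 (Pf.C 13 0xa0c202))
 (Pq.cons (Pq.L [] 2247 (Pf.C 13 0xa0c202))
 (Pq.cons (Pq.L [] 2247 (Pf.C 13 0xa0c202))
 (Pq.cons (Pq.L [] 128 (Pf.C 48 643))
 (Pq.cons (Pq.L [] 2247 (Pf.C 15 0xa10182))
 Pq.nil))))))) (Pq.cons (Pq.L [] 64 (Pf.C 48 515))
 (Pq.cons (Pq.D 3 (Pq.cons (Pq.L [] 2247 (Pf.C 15 0x814182))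
 (Pq.cons (Pq.L [] 2247 (Pf.C 15 0x814182))
 (Pq.cons (Pq.L [] 2247 (Pf.C 14 0x814182))
 (Pq.cons (Pq.L [] 2247 (Pf.C 15 0x814182))
 (Pq.cons (Pq.L [] 128 (Pf.C 48 643))
 (Pq.cons (Pq.D 4 (Pq.cons (Pq.L [] 4427 (Pf.C 15 0x818182))
 (Pq.cons (Pq.L [] 4427 (Pf.C 15 0x818182))
 (Pq.cons (Pq.L [] 4427 (Pf.C 14 0x818182))
 (Pq.cons (Pq.L [] 4427 (Pf.C 15 0x818182))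
 (Pq.cons (Pq.L [] 256 (Pf.C 48 771))
 (Pq.cons (Pq.D 5 (Pq.cons (Pq.L [0,1] 0x58000 (Pf.B 6 1 (Pf.B 5 1 (Pf.B 7 1 (Pf.C 16 0x218385) (Pf.B 7 0 (Pf.C 7 135) (Pf.C 4 16391))) (Pf.C 4 133)) (Pf.C 4 134)))
 (Pq.cons (Pq.L [] 0x40000 (Pf.C 50 775))
 (Pq.cons (Pq.L [] 75798 (Pf.C 14 0xa1c202))
 (Pq.cons (Pq.L [] 8 (Pf.W 47 2 [] [6] (Pf.cons (Pf.B 9 6 (Pf.C 43 99458) (Pf.C 40 777)) Pf.nil)))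
 (Pq.cons (Pq.L [] 0x40000 (Pf.C 40 775))
 (Pq.cons (Pq.L [] 0x40319 (Pf.C 14 0xc1c182))
 Pq.nil))))))) Pq.nil))))))) Pq.nil))))))) Pq.nil))))))) (Pq.cons (Pq.D 2 (Pq.cons (Pq.D 3 (Pq.cons (Pq.L [] 2247 (Pf.C 13 0xa0c202))
 (Pq.cons (Pq.L [] 2247 (Pf.C 13 0xa0c202))
 (Pq.cons (Pq.L [] 2247 (Pf.C 13 0xa0c202))
 (Pq.cons (Pq.L [] 2247 (Pf.C 13 0xa0c202))
 (Pq.cons (Pq.D 4 (Pq.cons (Pq.L [] 4427 (Pf.C 13 0xc0c202))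
 (Pq.cons (Pq.L [] 4427 (Pf.C 13 0xc0c202))
 (Pq.cons (Pq.L [] 4427 (Pf.C 13 0xc0c202))
 (Pq.cons (Pq.L [] 4427 (Pf.C 13 0xc0c202))
 (Pq.cons (Pq.L [0,1] 33165 (Pf.B 5 1 (Pf.C 9 81921) (Pf.B 3 1 (Pf.B 3 0 (Pf.B 2 0 (Pf.W 47 2 [] [0,6] (Pf.cons (Pf.B 9 6 (Pf.C 16 33926) (Pf.C 8 99458)) Pf.nil)) (Pf.C 17 0x60614002)) (Pf.C 6 16387)) (Pf.C 4 16773))))
 (Pq.cons (Pq.L [] 8 (Pf.W 47 2 [] [6] (Pf.cons (Pf.B 9 6 (Pf.C 43 99458) (Pf.C 40 777)) Pf.nil)))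
 Pq.nil))))))) (Pq.cons (Pq.D 4 (Pq.cons (Pq.L [] 4427 (Pf.C 13 0xc0c202))
 (Pq.cons (Pq.L [] 4427 (Pf.C 13 0xc0c202))
 (Pq.cons (Pq.L [] 4427 (Pf.C 13 0xc0c202))
 (Pq.cons (Pq.L [] 4427 (Pf.C 13 0xc0c202))
 (Pq.cons (Pq.L [] 4 (Pf.W 47 2 [] [5] (Pf.cons (Pf.B 9 5 (Pf.C 43 83074) (Pf.C 40 649)) Pf.nil)))
 (Pq.cons (Pq.L [] 8 (Pf.W 47 2 [] [6] (Pf.cons (Pf.B 9 6 (Pf.C 43 99458) (Pf.C 40 777)) Pf.nil)))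
 Pq.nil))))))) Pq.nil))))))) (Pq.cons (Pq.D 3 (Pq.cons (Pq.L [] 2247 (Pf.C 13 0xa0c202))
 (Pq.cons (Pq.L [] 2247 (Pf.C 13 0xa0c202))
 (Pq.cons (Pq.L [] 2247 (Pf.C 13 0xa0c202))
 (Pq.cons (Pq.L [] 2247 (Pf.C 13 0xa0c202))
 (Pq.cons (Pq.L [0,1] 2246 (Pf.B 5 1 (Pf.C 9 81921) (Pf.B 3 1 (Pf.B 4 1 (Pf.B 4 0 (Pf.B 2 0 (Pf.C 16 82434) (Pf.B 2 1 (Pf.C 7 16386) (Pf.C 4 130))) (Pf.C 7 16388)) (Pf.C 0 0x614201)) (Pf.C 4 16773))))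
 (Pq.cons (Pq.D 4 (Pq.cons (Pq.L [] 4427 (Pf.C 13 0xc0c202))
 (Pq.cons (Pq.L [] 4427 (Pf.C 13 0xc0c202))
 (Pq.cons (Pq.L [] 4427 (Pf.C 13 0xc0c202))
 (Pq.cons (Pq.L [] 4427 (Pf.C 13 0xc0c202))
 (Pq.cons (Pq.L [] 38912 (Pf.C 43 82692))
 (Pq.cons (Pq.D 5 (Pq.cons (Pq.L [0,1] 0x58000 (Pf.B 6 1 (Pf.B 5 1 (Pf.B 7 1 (Pf.C 16 0x218385) (Pf.B 7 0 (Pf.C 7 135) (Pf.C 4 16391))) (Pf.C 4 133)) (Pf.C 4 134)))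
 (Pq.cons (Pq.L [] 0x40000 (Pf.C 50 775))
 (Pq.cons (Pq.L [0,1] 0x58000 (Pf.B 6 1 (Pf.B 5 1 (Pf.B 7 1 (Pf.C 16 0x214386) (Pf.B 7 0 (Pf.C 7 135) (Pf.C 4 16391))) (Pf.C 4 133)) (Pf.C 4 134)))
 (Pq.cons (Pq.L [] 8 (Pf.W 47 2 [] [6] (Pf.cons (Pf.B 9 6 (Pf.C 43 99458) (Pf.C 40 777)) Pf.nil)))
 (Pq.cons (Pq.L [] 0x4301a (Pf.C 14 0xc1c202))
 (Pq.cons (Pq.L [] 8787 (Pf.C 15 0xe10182))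
 Pq.nil))))))) Pq.nil))))))) Pq.nil))))))) (Pq.cons (Pq.D 3 (Pq.cons (Pq.L [] 2247 (Pf.C 13 0xa0c202))
 (Pq.cons (Pq.L [] 2247 (Pf.C 13 0xa0c202))
 (Pq.cons (Pq.L [] 2247 (Pf.C 13 0xa0c202))
 (Pq.cons (Pq.L [] 2247 (Pf.C 13 0xa0c202))
 (Pq.cons (Pq.D 4 (Pq.cons (Pq.L [] 4427 (Pf.C 13 0xc0c202))
 (Pq.cons (Pq.L [] 4427 (Pf.C 13 0xc0c202))
 (Pq.cons (Pq.L [] 4427 (Pf.C 13 0xc0c202))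
 (Pq.cons (Pq.L [] 4427 (Pf.C 13 0xc0c202))
 (Pq.cons (Pq.D 5 (Pq.cons (Pq.L [0,1] 0x58000 (Pf.B 7 0 (Pf.C 16 99205) (Pf.B 7 1 (Pf.C 7 16391) (Pf.C 4 135))))
 (Pq.cons (Pq.L [0,1] 0x58000 (Pf.B 7 0 (Pf.C 16 82822) (Pf.B 7 1 (Pf.C 7 16391) (Pf.C 4 135))))
 (Pq.cons (Pq.L [] 0x40000 (Pf.C 48 775))
 (Pq.cons (Pq.L [0,1] 75790 (Pf.B 7 1 (Pf.B 7 0 (Pf.B 4 0 (Pf.B 2 0 (Pf.W 47 2 [] [0,6] (Pf.cons (Pf.B 9 6 (Pf.C 16 33926) (Pf.C 8 99458)) Pf.nil)) (Pf.C 15 0xa00104)) (Pf.C 15 0xa00207)) (Pf.C 6 16391)) (Pf.C 11 16391)))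
 (Pq.cons (Pq.L [] 8787 (Pf.C 15 0xe10182))
 (Pq.cons (Pq.L [] 0x4301a (Pf.C 14 0xc1c202))
 Pq.nil))))))) (Pq.cons (Pq.L [] 38912 (Pf.C 44 98948))
 Pq.nil))))))) (Pq.cons (Pq.L [0,1] 2246 (Pf.B 5 1 (Pf.B 3 0 (Pf.B 4 0 (Pf.B 4 1 (Pf.B 2 1 (Pf.C 16 0x214202) (Pf.B 2 0 (Pf.C 7 130) (Pf.C 4 16386))) (Pf.C 7 132)) (Pf.C 0 0x614200)) (Pf.C 4 389)) (Pf.C 4 133)))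
 Pq.nil))))))) (Pq.cons (Pq.L [] 64 (Pf.C 42 515))
 (Pq.cons (Pq.D 3 (Pq.cons (Pq.D 4 (Pq.cons (Pq.L [] 33165 (Pf.C 13 0xc0c282))
 (Pq.cons (Pq.L [] 33165 (Pf.C 13 0xc0c282))
 (Pq.cons (Pq.L [] 33165 (Pf.C 13 0xc0c282))
 (Pq.cons (Pq.L [] 33165 (Pf.C 13 0xc0c282))
 (Pq.cons (Pq.L [0,1] 4427 (Pf.B 4 1 (Pf.C 9 65537) (Pf.B 3 1 (Pf.B 3 0 (Pf.B 2 0 (Pf.W 47 2 [] [0,6] (Pf.cons (Pf.B 9 6 (Pf.C 16 33926) (Pf.C 8 99458)) Pf.nil)) (Pf.C 17 0x60610002)) (Pf.C 6 16387)) (Pf.C 4 16772))))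
 (Pq.cons (Pq.L [] 8 (Pf.W 47 2 [] [6] (Pf.cons (Pf.B 9 6 (Pf.C 43 99458) (Pf.C 40 777)) Pf.nil)))
 Pq.nil))))))) (Pq.cons (Pq.L [0,1] 2246 (Pf.B 4 1 (Pf.C 9 65537) (Pf.B 3 1 (Pf.B 5 1 (Pf.B 5 0 (Pf.B 2 0 (Pf.C 16 82434) (Pf.B 2 1 (Pf.C 7 16386) (Pf.C 4 130))) (Pf.C 7 16389)) (Pf.C 0 0x610281)) (Pf.C 4 16772))))
 (Pq.cons (Pq.D 4 (Pq.cons (Pq.L [] 33165 (Pf.C 13 0xc0c282))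
 (Pq.cons (Pq.L [] 33165 (Pf.C 13 0xc0c282))
 (Pq.cons (Pq.L [] 33165 (Pf.C 13 0xc0c282))
 (Pq.cons (Pq.L [] 33165 (Pf.C 13 0xc0c282))
 (Pq.cons (Pq.D 5 (Pq.cons (Pq.L [0,1] 0x43000 (Pf.B 7 0 (Pf.C 16 99204) (Pf.B 7 1 (Pf.C 7 16391) (Pf.C 4 135))))
 (Pq.cons (Pq.L [0,1] 0x43000 (Pf.B 7 0 (Pf.C 16 66438) (Pf.B 7 1 (Pf.C 7 16391) (Pf.C 4 135))))
 (Pq.cons (Pq.L [] 0x40000 (Pf.C 48 775))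
 (Pq.cons (Pq.L [0,1] 75790 (Pf.B 7 1 (Pf.B 7 0 (Pf.B 5 0 (Pf.B 2 0 (Pf.W 47 2 [] [0,6] (Pf.cons (Pf.B 9 6 (Pf.C 16 33926) (Pf.C 8 99458)) Pf.nil)) (Pf.C 15 0x800105)) (Pf.C 15 0x800287)) (Pf.C 6 16391)) (Pf.C 11 16391)))
 (Pq.cons (Pq.L [] 66197 (Pf.C 15 0xe14182))
 (Pq.cons (Pq.L [] 0x5801c (Pf.C 14 0xc1c282))
 Pq.nil))))))) (Pq.cons (Pq.L [] 38912 (Pf.C 44 98821))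
 Pq.nil))))))) (Pq.cons (Pq.L [] 128 (Pf.C 42 643))
 (Pq.cons (Pq.D 4 (Pq.cons (Pq.L [0,1] 35279 (Pf.B 4 1 (Pf.C 9 65537) (Pf.B 3 1 (Pf.B 3 0 (Pf.B 2 0 (Pf.B 6 0 (Pf.W 47 2 [] [0,5,6] (Pf.cons (Pf.B 9 6 (Pf.C 16 33926) (Pf.B 9 5 (Pf.C 14 0xc24105) (Pf.C 8 83074))) Pf.nil)) (Pf.C 13 0x618002)) (Pf.C 17 0x50610002)) (Pf.C 6 16387)) (Pf.C 4 16772))))
 (Pq.cons (Pq.L [] 38926 (Pf.C 14 0xa18202))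
 (Pq.cons (Pq.D 5 (Pq.cons (Pq.L [] 0x40319 (Pf.C 13 0xe18182))
 (Pq.cons (Pq.L [] 0x40319 (Pf.C 13 0xe18182))
 (Pq.cons (Pq.L [] 0x40319 (Pf.C 13 0xe18182))
 (Pq.cons (Pq.L [] 0x40319 (Pf.C 13 0xe18182))
 (Pq.cons (Pq.L [] 0x40000 (Pf.C 48 902))
 (Pq.cons (Pq.L [] 0x40319 (Pf.C 15 0xe18182))
 Pq.nil))))))) (Pq.cons (Pq.L [] 256 (Pf.C 42 771))
 (Pq.cons (Pq.D 5 (Pq.cons (Pq.L [0,1] 0x43000 (Pf.B 7 0 (Pf.C 16 99204) (Pf.B 7 1 (Pf.C 7 16391) (Pf.C 4 135))))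
 (Pq.cons (Pq.L [] 75798 (Pf.C 14 0xa1c202))
 (Pq.cons (Pq.L [] 0x40000 (Pf.C 48 775))
 (Pq.cons (Pq.L [0,1] 8218 (Pf.B 7 1 (Pf.B 7 0 (Pf.B 2 0 (Pf.W 47 2 [] [0,6] (Pf.cons (Pf.B 9 6 (Pf.C 16 33926) (Pf.C 8 99458)) Pf.nil)) (Pf.C 15 0x800107)) (Pf.C 6 16391)) (Pf.C 11 16391)))
 (Pq.cons (Pq.L [0] 0x43000 (Pf.C 16 0x1c304))
 (Pq.cons (Pq.L [] 8768 (Pf.C 45 0x1c203))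
 Pq.nil))))))) (Pq.cons (Pq.D 5 (Pq.cons (Pq.L [] 0x43000 (Pf.C 44 98823))
 (Pq.cons (Pq.L [] 75798 (Pf.C 14 0xa1c202))
 (Pq.cons (Pq.L [0,1] 0x52bd8 (Pf.B 6 1 (Pf.B 3 0 (Pf.B 7 0 (Pf.B 7 1 (Pf.B 2 1 (Pf.B 2 0 (Pf.W 47 2 [] [0,7] (Pf.cons (Pf.B 9 7 (Pf.C 16 33927) (Pf.C 48 1159)) Pf.nil)) (Pf.C 7 16386)) (Pf.C 15 0xc04107)) (Pf.C 7 135)) (Pf.C 17 0x50610007)) (Pf.C 4 390)) (Pf.C 4 134)))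
 (Pq.cons (Pq.L [] 0x43000 (Pf.C 46 98823))
 (Pq.cons (Pq.L [] 0x40000 (Pf.C 40 775))
 (Pq.cons (Pq.L [] 8768 (Pf.C 45 0x1c203))
 Pq.nil))))))) Pq.nil))))))) (Pq.cons (Pq.D 4 (Pq.cons (Pq.L [] 4 (Pf.W 47 2 [] [5] (Pf.cons (Pf.B 9 5 (Pf.C 43 83074) (Pf.C 40 649)) Pf.nil)))
 (Pq.cons (Pq.L [] 38912 (Pf.C 43 82438))
 (Pq.cons (Pq.L [] 38912 (Pf.C 44 82438))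
 (Pq.cons (Pq.L [] 256 (Pf.C 42 771))
 (Pq.cons (Pq.D 5 (Pq.cons (Pq.L [] 0x58000 (Pf.C 43 82695))
 (Pq.cons (Pq.L [] 75776 (Pf.C 43 82439))
 (Pq.cons (Pq.L [] 0x5801c (Pf.C 14 0xc1c282))
 (Pq.cons (Pq.L [] 0x58000 (Pf.C 45 82695))
 (Pq.cons (Pq.L [] 66176 (Pf.C 46 82819))
 (Pq.cons (Pq.L [] 8768 (Pf.C 45 0x1c203))
 Pq.nil))))))) (Pq.cons (Pq.D 5 (Pq.cons (Pq.L [] 0x43000 (Pf.C 44 98823))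
 (Pq.cons (Pq.L [] 0x4301a (Pf.C 14 0xc1c202))
 (Pq.cons (Pq.L [] 75776 (Pf.C 44 82439))
 (Pq.cons (Pq.L [] 0x43000 (Pf.C 46 98823))
 (Pq.cons (Pq.L [] 66176 (Pf.C 46 82819))
 (Pq.cons (Pq.L [] 8768 (Pf.C 45 0x1c203))
 Pq.nil))))))) Pq.nil))))))) Pq.nil))))))) (Pq.cons (Pq.D 3 (Pq.cons (Pq.D 4 (Pq.cons (Pq.L [] 33165 (Pf.C 13 0xc0c282))
 (Pq.cons (Pq.L [] 33165 (Pf.C 13 0xc0c282))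
 (Pq.cons (Pq.L [] 33165 (Pf.C 13 0xc0c282))
 (Pq.cons (Pq.L [] 33165 (Pf.C 13 0xc0c282))
 (Pq.cons (Pq.L [] 2 (Pf.W 47 2 [] [4] (Pf.cons (Pf.B 9 4 (Pf.C 43 66690) (Pf.C 40 521)) Pf.nil)))
 (Pq.cons (Pq.L [] 8 (Pf.W 47 2 [] [6] (Pf.cons (Pf.B 9 6 (Pf.C 43 99458) (Pf.C 40 777)) Pf.nil)))
 Pq.nil))))))) (Pq.cons (Pq.D 4 (Pq.cons (Pq.L [] 33165 (Pf.C 13 0xc0c282))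
 (Pq.cons (Pq.L [] 33165 (Pf.C 13 0xc0c282))
 (Pq.cons (Pq.L [] 33165 (Pf.C 13 0xc0c282))
 (Pq.cons (Pq.L [] 33165 (Pf.C 13 0xc0c282))
 (Pq.cons (Pq.L [] 38912 (Pf.C 43 66309))
 (Pq.cons (Pq.D 5 (Pq.cons (Pq.L [0,1] 0x43000 (Pf.B 6 1 (Pf.B 4 1 (Pf.B 7 1 (Pf.C 16 0x218384) (Pf.B 7 0 (Pf.C 7 135) (Pf.C 4 16391))) (Pf.C 4 132)) (Pf.C 4 134)))
 (Pq.cons (Pq.L [] 0x40000 (Pf.C 50 775))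
 (Pq.cons (Pq.L [0,1] 0x43000 (Pf.B 6 1 (Pf.B 4 1 (Pf.B 7 1 (Pf.C 16 0x210386) (Pf.B 7 0 (Pf.C 7 135) (Pf.C 4 16391))) (Pf.C 4 132)) (Pf.C 4 134)))
 (Pq.cons (Pq.L [] 8 (Pf.W 47 2 [] [6] (Pf.cons (Pf.B 9 6 (Pf.C 43 99458) (Pf.C 40 777)) Pf.nil)))
 (Pq.cons (Pq.L [] 0x5801c (Pf.C 14 0xc1c282))
 (Pq.cons (Pq.L [] 66197 (Pf.C 15 0xe14182))
 Pq.nil))))))) Pq.nil))))))) (Pq.cons (Pq.L [0,1] 2246 (Pf.B 4 1 (Pf.B 3 0 (Pf.B 5 0 (Pf.B 5 1 (Pf.B 2 1 (Pf.C 16 0x214202) (Pf.B 2 0 (Pf.C 7 130) (Pf.C 4 16386))) (Pf.C 7 133)) (Pf.C 0 0x610280)) (Pf.C 4 388)) (Pf.C 4 132)))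
 (Pq.cons (Pq.L [] 128 (Pf.C 42 643))
 (Pq.cons (Pq.D 4 (Pq.cons (Pq.L [] 2 (Pf.W 47 2 [] [4] (Pf.cons (Pf.B 9 4 (Pf.C 43 66690) (Pf.C 40 521)) Pf.nil)))
 (Pq.cons (Pq.L [] 38912 (Pf.C 43 66182))
 (Pq.cons (Pq.L [] 38912 (Pf.C 44 66182))
 (Pq.cons (Pq.L [] 256 (Pf.C 42 771))
 (Pq.cons (Pq.D 5 (Pq.cons (Pq.L [] 0x43000 (Pf.C 43 66311))
 (Pq.cons (Pq.L [] 75776 (Pf.C 43 66183))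
 (Pq.cons (Pq.L [] 0x4301a (Pf.C 14 0xc1c202))
 (Pq.cons (Pq.L [] 0x43000 (Pf.C 45 66311))
 (Pq.cons (Pq.L [] 8768 (Pf.C 46 66435))
 (Pq.cons (Pq.L [] 66176 (Pf.C 45 0x1c283))
 Pq.nil))))))) (Pq.cons (Pq.D 5 (Pq.cons (Pq.L [] 0x58000 (Pf.C 44 98951))
 (Pq.cons (Pq.L [] 0x5801c (Pf.C 14 0xc1c282))
 (Pq.cons (Pq.L [] 75776 (Pf.C 44 66183))
 (Pq.cons (Pq.L [] 0x58000 (Pf.C 46 98951))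
 (Pq.cons (Pq.L [] 8768 (Pf.C 46 66435))
 (Pq.cons (Pq.L [] 66176 (Pf.C 45 0x1c283))
 Pq.nil))))))) Pq.nil))))))) (Pq.cons (Pq.D 4 (Pq.cons (Pq.L [] 4 (Pf.W 47 2 [] [5] (Pf.cons (Pf.B 9 5 (Pf.C 43 83074) (Pf.C 40 649)) Pf.nil)))
 (Pq.cons (Pq.D 5 (Pq.cons (Pq.L [] 0x40319 (Pf.C 13 0xe18182))
 (Pq.cons (Pq.L [] 0x40319 (Pf.C 13 0xe18182))
 (Pq.cons (Pq.L [] 0x40319 (Pf.C 13 0xe18182))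
 (Pq.cons (Pq.L [] 0x40319 (Pf.C 13 0xe18182))
 (Pq.cons (Pq.L [] 0x40319 (Pf.C 15 0xe18182))
 (Pq.cons (Pq.L [] 0x40000 (Pf.C 50 902))
 Pq.nil))))))) (Pq.cons (Pq.L [] 38926 (Pf.C 14 0xa18202))
 (Pq.cons (Pq.L [] 256 (Pf.C 42 771))
 (Pq.cons (Pq.D 5 (Pq.cons (Pq.L [] 0x43000 (Pf.C 43 66311))
 (Pq.cons (Pq.L [0,1] 0x52bda (Pf.B 6 1 (Pf.C 9 98305) (Pf.B 5 1 (Pf.B 4 1 (Pf.B 3 1 (Pf.B 7 1 (Pf.B 7 0 (Pf.B 2 1 (Pf.B 2 0 (Pf.W 47 2 [] [0,6,7] (Pf.cons (Pf.B 9 7 (Pf.C 16 33927) (Pf.B 9 6 (Pf.C 14 0xe24106) (Pf.C 8 99458))) Pf.nil)) (Pf.C 7 16386)) (Pf.C 15 0x804107)) (Pf.C 7 16391)) (Pf.C 17 0x50610087)) (Pf.C 4 16774)) (Pf.C 4 132)) (Pf.C 4 133))))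
 (Pq.cons (Pq.L [] 75798 (Pf.C 14 0xa1c202))
 (Pq.cons (Pq.L [] 0x43000 (Pf.C 45 66311))
 (Pq.cons (Pq.L [] 8768 (Pf.C 46 66435))
 (Pq.cons (Pq.L [] 0x40000 (Pf.C 40 902))
 Pq.nil))))))) (Pq.cons (Pq.D 5 (Pq.cons (Pq.L [0,1] 0x58000 (Pf.B 6 1 (Pf.B 5 1 (Pf.B 7 1 (Pf.C 16 0x218385) (Pf.B 7 0 (Pf.C 7 135) (Pf.C 4 16391))) (Pf.C 4 133)) (Pf.C 4 134)))
 (Pq.cons (Pq.L [] 0x40000 (Pf.C 50 775))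
 (Pq.cons (Pq.L [] 75798 (Pf.C 14 0xa1c202))
 (Pq.cons (Pq.L [] 8 (Pf.W 47 2 [] [6] (Pf.cons (Pf.B 9 6 (Pf.C 43 99458) (Pf.C 40 777)) Pf.nil)))
 (Pq.cons (Pq.L [] 8768 (Pf.C 46 66435))
 (Pq.cons (Pq.L [0] 0x40000 (Pf.C 3 0x1c300))
 Pq.nil))))))) Pq.nil))))))) Pq.nil))))))) Pq.nil))))))) Pq.nil))))
theorem e5_o17 : AllRef e5_T e5_G29 (List.take 4 (List.flatMap (splitP 1) (List.take 1 (List.take 2 (List.flatMap (splitP 0) (List.drop 1 (applyObl d_T 2 [38,39,40,42,44,46] [0,0,0,0,0,0] [(39,0x100000000000),(40,0x400000000000),(44,0x8000000000),(46,0x10000000000)]))))))) :=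
  chkPq_sound e5_o17c _ (by decide +kernel)
noncomputable def e5_o18c : Pq := (Pq.cons (Pq.D 2 (Pq.cons (Pq.D 3 (Pq.cons (Pq.L [] 2247 (Pf.C 14 0xa0c202))
 (Pq.cons (Pq.D 4 (Pq.cons (Pq.L [] 4427 (Pf.C 14 0xc0c202))
 (Pq.cons (Pq.D 5 (Pq.cons (Pq.L [] 0x40319 (Pf.C 15 0x61c302))
 (Pq.cons (Pq.L [] 0x40319 (Pf.C 14 0xc1c182))
 (Pq.cons (Pq.L [] 0x40319 (Pf.C 15 0x61c302))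
 (Pq.cons (Pq.L [] 0x40319 (Pf.C 15 0x61c302))
 (Pq.cons (Pq.L [0,1] 99200 (Pf.B 5 0 (Pf.C 16 0x1c283) (Pf.B 6 0 (Pf.C 15 0x614006) (Pf.B 6 1 (Pf.C 7 16390) (Pf.C 4 134)))))
 (Pq.cons (Pq.L [] 8768 (Pf.C 43 0x1c184))
 Pq.nil))))))) (Pq.cons (Pq.L [] 4427 (Pf.C 14 0xc0c202))
 (Pq.cons (Pq.D 5 (Pq.cons (Pq.D 6 (Pq.cons (Pq.L [] 0x1c0038 (Pf.C 13 0x101c302))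
 (Pq.cons (Pq.L [] 0x1c0038 (Pf.C 13 0x101c302))
 (Pq.cons (Pq.L [] 0x1c0038 (Pf.C 13 0x101c302))
 (Pq.cons (Pq.L [] 0x1c0038 (Pf.C 13 0x101c302))
 (Pq.cons (Pq.L [] 0x130034 (Pf.C 14 0xe20282))
 (Pq.cons (Pq.L [] 17472 (Pf.C 43 0x20184))
 Pq.nil))))))) (Pq.cons (Pq.L [] 8787 (Pf.C 14 0xe0c202))
 (Pq.cons (Pq.L [] 2118 (Pf.W 49 2 [] [3,4,5] (Pf.cons (Pf.B 9 5 (Pf.B 9 4 (Pf.B 9 3 (Pf.C 43 0x24184) (Pf.C 40 1155)) (Pf.C 14 0x424205)) (Pf.C 50 1157)) Pf.nil)))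
 (Pq.cons (Pq.L [] 8787 (Pf.C 16 0xe10182))
 (Pq.cons (Pq.L [0,1] 66176 (Pf.B 5 0 (Pf.C 16 0x1c283) (Pf.B 5 1 (Pf.C 7 16389) (Pf.C 4 133))))
 (Pq.cons (Pq.L [] 8768 (Pf.C 43 0x1c184))
 Pq.nil))))))) (Pq.cons (Pq.L [] 33165 (Pf.C 14 0xa18182))
 (Pq.cons (Pq.L [] 4427 (Pf.C 14 0xc0c202))
 Pq.nil))))))) (Pq.cons (Pq.L [] 2247 (Pf.C 14 0xa0c202))
 (Pq.cons (Pq.D 4 (Pq.cons (Pq.L [] 4427 (Pf.C 14 0xc0c202))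
 (Pq.cons (Pq.D 5 (Pq.cons (Pq.L [] 0x40319 (Pf.C 15 0x61c302))
 (Pq.cons (Pq.L [] 0x40319 (Pf.C 14 0xc1c182))
 (Pq.cons (Pq.L [] 0x40319 (Pf.C 15 0x61c302))
 (Pq.cons (Pq.L [] 0x40319 (Pf.C 15 0x61c302))
 (Pq.cons (Pq.L [0,1] 0x5b940 (Pf.B 5 1 (Pf.B 5 0 (Pf.B 6 0 (Pf.B 4 0 (Pf.C 16 49670) (Pf.C 15 0xe00205)) (Pf.C 15 0xe00305)) (Pf.C 6 16389)) (Pf.C 11 16389)))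
 (Pq.cons (Pq.L [] 0x5801c (Pf.C 16 0xa1c302))
 Pq.nil))))))) (Pq.cons (Pq.L [] 4427 (Pf.C 14 0xc0c202))
 (Pq.cons (Pq.L [0,1] 33231 (Pf.B 6 1 (Pf.B 6 0 (Pf.B 5 1 (Pf.B 5 0 (Pf.B 2 0 (Pf.B 4 0 (Pf.C 16 49666) (Pf.B 4 1 (Pf.C 7 16388) (Pf.C 4 132))) (Pf.C 17 0x60614002)) (Pf.C 6 16389)) (Pf.C 11 16389)) (Pf.C 6 16390)) (Pf.C 11 16390)))
 (Pq.cons (Pq.L [] 4427 (Pf.C 14 0xc0c202))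
 (Pq.cons (Pq.L [] 4427 (Pf.C 14 0xc0c202))
 Pq.nil))))))) (Pq.cons (Pq.L [] 2247 (Pf.C 14 0xa0c202))
 (Pq.cons (Pq.L [] 2247 (Pf.C 14 0xa0c202))
 Pq.nil))))))) (Pq.cons (Pq.D 3 (Pq.cons (Pq.D 4 (Pq.cons (Pq.L [] 33165 (Pf.C 14 0xc0c282))
 (Pq.cons (Pq.D 5 (Pq.cons (Pq.L [] 0x40319 (Pf.C 15 0x61c302))
 (Pq.cons (Pq.L [] 0x40319 (Pf.C 14 0xc1c182))
 (Pq.cons (Pq.L [] 0x40319 (Pf.C 15 0x61c302))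
 (Pq.cons (Pq.L [] 0x40319 (Pf.C 15 0x61c302))
 (Pq.cons (Pq.L [0,1] 0x58280 (Pf.B 5 0 (Pf.C 16 49799) (Pf.B 6 0 (Pf.C 15 0xe14006) (Pf.B 6 1 (Pf.C 7 16390) (Pf.C 4 134)))))
 (Pq.cons (Pq.L [] 66176 (Pf.C 43 0x1c185))
 Pq.nil))))))) (Pq.cons (Pq.L [] 33165 (Pf.C 14 0xc0c282))
 (Pq.cons (Pq.D 5 (Pq.cons (Pq.D 6 (Pq.cons (Pq.L [] 0x1c0038 (Pf.C 13 0x101c302))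
 (Pq.cons (Pq.L [] 0x1c0038 (Pf.C 13 0x101c302))
 (Pq.cons (Pq.L [] 0x1c0038 (Pf.C 13 0x101c302))
 (Pq.cons (Pq.L [] 0x1c0038 (Pf.C 13 0x101c302))
 (Pq.cons (Pq.L [] 0x106032 (Pf.C 14 0xe20202))
 (Pq.cons (Pq.L [] 0x20480 (Pf.C 43 0x20185))
 Pq.nil))))))) (Pq.cons (Pq.L [] 66197 (Pf.C 14 0xe0c282))
 (Pq.cons (Pq.L [] 2182 (Pf.W 49 2 [] [3,4,5] (Pf.cons (Pf.B 9 4 (Pf.B 9 5 (Pf.B 9 3 (Pf.C 43 0x24185) (Pf.C 40 1155)) (Pf.C 14 0x424284)) (Pf.C 50 1156)) Pf.nil)))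
 (Pq.cons (Pq.L [] 66197 (Pf.C 16 0xe14182))
 (Pq.cons (Pq.L [0,1] 66176 (Pf.B 5 0 (Pf.C 16 49799) (Pf.B 5 1 (Pf.C 7 16389) (Pf.C 4 133))))
 (Pq.cons (Pq.L [] 66176 (Pf.C 43 0x1c185))
 Pq.nil))))))) (Pq.cons (Pq.L [] 4427 (Pf.C 14 0x818182))
 (Pq.cons (Pq.L [] 33165 (Pf.C 14 0xc0c282))
 Pq.nil))))))) (Pq.cons (Pq.D 4 (Pq.cons (Pq.D 5 (Pq.cons (Pq.L [] 0x40319 (Pf.C 14 0xe18182))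
 (Pq.cons (Pq.L [] 0x40000 (Pf.C 2 902))
 (Pq.cons (Pq.L [] 0x40319 (Pf.C 14 0xe18182))
 (Pq.cons (Pq.L [0,1] 0x58380 (Pf.B 7 1 (Pf.B 7 0 (Pf.B 5 0 (Pf.B 6 0 (Pf.C 16 49925) (Pf.C 13 0xe18005)) (Pf.C 15 0x600287)) (Pf.C 6 16391)) (Pf.C 11 16391)))
 (Pq.cons (Pq.L [] 0x40319 (Pf.C 14 0xe18182))
 (Pq.cons (Pq.L [] 0x40319 (Pf.C 14 0xe18182))
 Pq.nil))))))) (Pq.cons (Pq.D 5 (Pq.cons (Pq.L [] 0x40319 (Pf.C 15 0x61c302))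
 (Pq.cons (Pq.L [] 0x40319 (Pf.C 14 0xc1c182))
 (Pq.cons (Pq.L [] 0x40319 (Pf.C 15 0x61c302))
 (Pq.cons (Pq.L [] 0x40319 (Pf.C 15 0x61c302))
 (Pq.cons (Pq.L [] 75798 (Pf.C 14 0xa1c202))
 (Pq.cons (Pq.L [] 0x40300 (Pf.C 44 0x1c186))
 Pq.nil))))))) (Pq.cons (Pq.L [] 256 (Pf.C 48 390))
 (Pq.cons (Pq.D 5 (Pq.cons (Pq.D 6 (Pq.cons (Pq.L [] 0x1c0038 (Pf.C 13 0x101c302))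
 (Pq.cons (Pq.L [] 0x1c0038 (Pf.C 13 0x101c302))
 (Pq.cons (Pq.L [] 0x1c0038 (Pf.C 13 0x101c302))
 (Pq.cons (Pq.L [] 0x1c0038 (Pf.C 13 0x101c302))
 (Pq.cons (Pq.L [] 0x24826 (Pf.C 14 0xa20202))
 (Pq.cons (Pq.L [] 0x100600 (Pf.C 44 0x20187))
 Pq.nil))))))) (Pq.cons (Pq.L [0,1] 0x50380 (Pf.B 6 1 (Pf.B 3 1 (Pf.C 9 49153) (Pf.B 7 1 (Pf.B 7 0 (Pf.B 5 0 (Pf.C 16 0x1c185) (Pf.B 5 1 (Pf.C 7 16389) (Pf.C 4 133))) (Pf.C 7 16391)) (Pf.C 0 0xc0c381))) (Pf.C 11 16390)))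
 (Pq.cons (Pq.L [] 1 (Pf.W 49 2 [] [3] (Pf.cons (Pf.B 9 3 (Pf.C 44 0x24182) (Pf.C 40 1155)) Pf.nil)))
 (Pq.cons (Pq.L [] 0x40000 (Pf.C 42 902))
 (Pq.cons (Pq.L [] 75798 (Pf.C 14 0xa1c202))
 (Pq.cons (Pq.L [] 16 (Pf.W 47 2 [] [7] (Pf.cons (Pf.B 9 7 (Pf.C 43 0x1c482) (Pf.C 40 905)) Pf.nil)))
 Pq.nil))))))) (Pq.cons (Pq.L [] 4427 (Pf.C 14 0x818182))
 (Pq.cons (Pq.L [] 256 (Pf.C 40 771))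
 Pq.nil))))))) (Pq.cons (Pq.L [] 128 (Pf.C 48 389))
 (Pq.cons (Pq.D 4 (Pq.cons (Pq.D 5 (Pq.cons (Pq.L [] 0x40319 (Pf.C 14 0xe18182))
 (Pq.cons (Pq.L [] 0x5801c (Pf.C 16 0xa1c302))
 (Pq.cons (Pq.L [] 0x40319 (Pf.C 14 0xe18182))
 (Pq.cons (Pq.L [0,1] 0x5b340 (Pf.B 7 1 (Pf.B 7 0 (Pf.B 5 1 (Pf.B 6 1 (Pf.B 6 0 (Pf.B 4 0 (Pf.C 16 98692) (Pf.C 15 0x600207)) (Pf.C 7 16390)) (Pf.C 13 0xe18085)) (Pf.C 11 16389)) (Pf.C 6 16391)) (Pf.C 11 16391)))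
 (Pq.cons (Pq.L [] 0x40319 (Pf.C 14 0xe18182))
 (Pq.cons (Pq.L [] 0x40319 (Pf.C 14 0xe18182))
 Pq.nil))))))) (Pq.cons (Pq.D 5 (Pq.cons (Pq.L [] 0x40319 (Pf.C 15 0x61c302))
 (Pq.cons (Pq.L [] 0x40319 (Pf.C 14 0xc1c182))
 (Pq.cons (Pq.L [] 0x40319 (Pf.C 15 0x61c302))
 (Pq.cons (Pq.L [] 0x40319 (Pf.C 15 0x61c302))
 (Pq.cons (Pq.L [] 75798 (Pf.C 16 0xa1c202))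
 (Pq.cons (Pq.L [] 0x5801c (Pf.C 16 0xa1c302))
 Pq.nil))))))) (Pq.cons (Pq.L [] 256 (Pf.C 48 390))
 (Pq.cons (Pq.D 5 (Pq.cons (Pq.L [0,1] 0x5a253 (Pf.B 6 1 (Pf.B 5 1 (Pf.B 7 1 (Pf.B 7 0 (Pf.B 4 0 (Pf.B 2 0 (Pf.W 47 2 [] [0,3,4,7] (Pf.cons (Pf.B 9 7 (Pf.C 16 33927) (Pf.B 9 4 (Pf.C 14 0xe24104) (Pf.B 9 3 (Pf.C 14 0x824103) (Pf.C 8 50306)))) Pf.nil)) (Pf.C 15 0x600104)) (Pf.C 15 0x600207)) (Pf.C 7 16391)) (Pf.C 13 0xc1c085)) (Pf.C 11 16389)) (Pf.C 11 16390)))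
 (Pq.cons (Pq.L [0,1] 0x5bbc0 (Pf.B 6 1 (Pf.B 6 0 (Pf.B 5 1 (Pf.B 7 1 (Pf.B 7 0 (Pf.B 5 0 (Pf.B 4 0 (Pf.C 16 0x1c184) (Pf.C 17 0x60614004)) (Pf.C 6 16389)) (Pf.C 7 16391)) (Pf.C 13 0xc1c085)) (Pf.C 11 16389)) (Pf.C 6 16390)) (Pf.C 11 16390)))
 (Pq.cons (Pq.L [0,1] 0x5a253 (Pf.B 6 1 (Pf.B 5 1 (Pf.B 7 1 (Pf.B 7 0 (Pf.B 4 0 (Pf.B 2 0 (Pf.W 47 2 [] [0,7] (Pf.cons (Pf.B 9 7 (Pf.C 16 33927) (Pf.C 48 1159)) Pf.nil)) (Pf.C 15 0x600104)) (Pf.C 15 0x600207)) (Pf.C 7 16391)) (Pf.C 13 0xc1c085)) (Pf.C 11 16389)) (Pf.C 11 16390)))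
 (Pq.cons (Pq.L [] 0x40000 (Pf.C 42 902))
 (Pq.cons (Pq.L [] 75798 (Pf.C 16 0xa1c202))
 (Pq.cons (Pq.L [] 66176 (Pf.C 45 0x1c185))
 Pq.nil))))))) (Pq.cons (Pq.L [] 4427 (Pf.C 14 0x818182))
 (Pq.cons (Pq.L [] 256 (Pf.C 40 771))
 Pq.nil))))))) (Pq.cons (Pq.L [] 2247 (Pf.C 14 0x814182))
 (Pq.cons (Pq.L [] 128 (Pf.C 40 643))
 Pq.nil))))))) (Pq.cons (Pq.L [] 64 (Pf.C 48 388))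
 (Pq.cons (Pq.D 3 (Pq.cons (Pq.D 4 (Pq.cons (Pq.L [] 33165 (Pf.C 14 0xc0c282))
 (Pq.cons (Pq.D 5 (Pq.cons (Pq.L [] 0x40319 (Pf.C 15 0x61c302))
 (Pq.cons (Pq.L [] 0x40319 (Pf.C 14 0xc1c182))
 (Pq.cons (Pq.L [] 0x40319 (Pf.C 15 0x61c302))
 (Pq.cons (Pq.L [] 0x40319 (Pf.C 15 0x61c302))
 (Pq.cons (Pq.L [0,1] 0x58280 (Pf.B 5 0 (Pf.C 16 49799) (Pf.B 6 0 (Pf.C 15 0xe14006) (Pf.B 6 1 (Pf.C 7 16390) (Pf.C 4 134)))))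
 (Pq.cons (Pq.L [] 0x4301a (Pf.C 16 0x81c302))
 Pq.nil))))))) (Pq.cons (Pq.L [] 33165 (Pf.C 14 0xc0c282))
 (Pq.cons (Pq.L [0,1] 4559 (Pf.B 6 1 (Pf.B 6 0 (Pf.B 4 1 (Pf.B 4 0 (Pf.B 2 0 (Pf.B 5 0 (Pf.C 16 49794) (Pf.B 5 1 (Pf.C 7 16389) (Pf.C 4 133))) (Pf.C 17 0x60610002)) (Pf.C 6 16388)) (Pf.C 11 16388)) (Pf.C 6 16390)) (Pf.C 11 16390)))
 (Pq.cons (Pq.L [] 33165 (Pf.C 14 0xc0c282))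
 (Pq.cons (Pq.L [] 33165 (Pf.C 14 0xc0c282))
 Pq.nil))))))) (Pq.cons (Pq.D 4 (Pq.cons (Pq.D 5 (Pq.cons (Pq.L [] 0x40319 (Pf.C 14 0xe18182))
 (Pq.cons (Pq.L [] 0x4301a (Pf.C 16 0x81c302))
 (Pq.cons (Pq.L [] 0x40319 (Pf.C 14 0xe18182))
 (Pq.cons (Pq.L [0,1] 0x58380 (Pf.B 7 1 (Pf.B 7 0 (Pf.B 5 0 (Pf.B 6 0 (Pf.C 16 49925) (Pf.C 13 0xe18005)) (Pf.C 15 0x600287)) (Pf.C 6 16391)) (Pf.C 11 16391)))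
 (Pq.cons (Pq.L [] 0x40319 (Pf.C 14 0xe18182))
 (Pq.cons (Pq.L [] 0x40319 (Pf.C 14 0xe18182))
 Pq.nil))))))) (Pq.cons (Pq.D 5 (Pq.cons (Pq.L [] 0x40319 (Pf.C 15 0x61c302))
 (Pq.cons (Pq.L [] 0x40319 (Pf.C 14 0xc1c182))
 (Pq.cons (Pq.L [] 0x40319 (Pf.C 15 0x61c302))
 (Pq.cons (Pq.L [] 0x40319 (Pf.C 15 0x61c302))
 (Pq.cons (Pq.L [] 75798 (Pf.C 16 0x81c282))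
 (Pq.cons (Pq.L [] 0x4301a (Pf.C 16 0x81c302))
 Pq.nil))))))) (Pq.cons (Pq.L [] 256 (Pf.C 48 390))
 (Pq.cons (Pq.D 5 (Pq.cons (Pq.L [0,1] 0x53295 (Pf.B 6 1 (Pf.B 4 1 (Pf.B 7 1 (Pf.B 7 0 (Pf.B 5 0 (Pf.B 2 0 (Pf.W 47 2 [] [0,3,5,7] (Pf.cons (Pf.B 9 7 (Pf.C 16 33927) (Pf.B 9 5 (Pf.C 14 0xe24105) (Pf.B 9 3 (Pf.C 14 0xa24103) (Pf.C 8 50306)))) Pf.nil)) (Pf.C 15 0x600105)) (Pf.C 15 0x600287)) (Pf.C 7 16391)) (Pf.C 13 0xc1c084)) (Pf.C 11 16388)) (Pf.C 11 16390)))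
 (Pq.cons (Pq.L [0,1] 0x53280 (Pf.B 6 1 (Pf.B 4 1 (Pf.B 7 1 (Pf.B 7 0 (Pf.B 5 0 (Pf.C 16 0x1c185) (Pf.B 5 1 (Pf.C 7 16389) (Pf.C 4 133))) (Pf.C 7 16391)) (Pf.C 13 0xc1c084)) (Pf.C 11 16388)) (Pf.C 11 16390)))
 (Pq.cons (Pq.L [0,1] 0x53295 (Pf.B 6 1 (Pf.B 4 1 (Pf.B 7 1 (Pf.B 7 0 (Pf.B 5 0 (Pf.B 2 0 (Pf.W 47 2 [] [0,7] (Pf.cons (Pf.B 9 7 (Pf.C 16 33927) (Pf.C 48 1159)) Pf.nil)) (Pf.C 15 0x600105)) (Pf.C 15 0x600287)) (Pf.C 7 16391)) (Pf.C 13 0xc1c084)) (Pf.C 11 16388)) (Pf.C 11 16390)))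
 (Pq.cons (Pq.L [] 0x40000 (Pf.C 42 902))
 (Pq.cons (Pq.L [] 75798 (Pf.C 16 0x81c282))
 (Pq.cons (Pq.L [] 8768 (Pf.C 45 0x1c184))
 Pq.nil))))))) (Pq.cons (Pq.L [] 33165 (Pf.C 14 0xa18182))
 (Pq.cons (Pq.L [] 256 (Pf.C 40 771))
 Pq.nil))))))) (Pq.cons (Pq.L [] 128 (Pf.C 48 389))
 (Pq.cons (Pq.D 4 (Pq.cons (Pq.L [0,1] 2511 (Pf.B 5 1 (Pf.B 5 0 (Pf.B 4 1 (Pf.B 4 0 (Pf.B 2 0 (Pf.B 6 0 (Pf.C 16 49922) (Pf.B 6 1 (Pf.C 7 16390) (Pf.C 4 134))) (Pf.C 17 0x50610002)) (Pf.C 6 16388)) (Pf.C 11 16388)) (Pf.C 6 16389)) (Pf.C 11 16389)))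
 (Pq.cons (Pq.D 5 (Pq.cons (Pq.L [] 0x40319 (Pf.C 15 0x61c302))
 (Pq.cons (Pq.L [] 0x40319 (Pf.C 14 0xc1c182))
 (Pq.cons (Pq.L [] 0x40319 (Pf.C 15 0x61c302))
 (Pq.cons (Pq.L [] 0x40319 (Pf.C 15 0x61c302))
 (Pq.cons (Pq.L [0,1] 0x58119 (Pf.B 5 1 (Pf.B 5 0 (Pf.B 6 0 (Pf.B 2 0 (Pf.W 47 2 [] [0,7] (Pf.cons (Pf.B 9 7 (Pf.C 16 33927) (Pf.C 8 0x1c482)) Pf.nil)) (Pf.C 15 0x600106)) (Pf.C 15 0xe00305)) (Pf.C 6 16389)) (Pf.C 11 16389)))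
 (Pq.cons (Pq.L [] 0x4301a (Pf.C 16 0x81c302))
 Pq.nil))))))) (Pq.cons (Pq.L [] 256 (Pf.C 48 390))
 (Pq.cons (Pq.L [0,1] 2247 (Pf.B 5 1 (Pf.B 5 0 (Pf.B 4 1 (Pf.B 4 0 (Pf.B 2 0 (Pf.W 47 2 [] [0,3] (Pf.cons (Pf.B 9 3 (Pf.C 16 33923) (Pf.C 8 50306)) Pf.nil)) (Pf.C 17 0x50610002)) (Pf.C 6 16388)) (Pf.C 11 16388)) (Pf.C 6 16389)) (Pf.C 11 16389)))
 (Pq.cons (Pq.L [0] 256 (Pf.C 10 98688))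
 (Pq.cons (Pq.L [] 256 (Pf.C 40 771))
 Pq.nil))))))) (Pq.cons (Pq.L [0] 128 (Pf.C 10 82304))
 (Pq.cons (Pq.L [] 128 (Pf.C 40 643))
 Pq.nil))))))) (Pq.cons (Pq.L [0] 64 (Pf.C 10 65920))
 (Pq.cons (Pq.L [] 64 (Pf.C 40 515))
 Pq.nil))))))) (Pq.cons (Pq.D 2 (Pq.cons (Pq.D 3 (Pq.cons (Pq.L [] 2247 (Pf.C 14 0xa0c202))
 (Pq.cons (Pq.L [] 2247 (Pf.C 14 0xa0c202))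
 (Pq.cons (Pq.D 4 (Pq.cons (Pq.L [] 4427 (Pf.C 14 0xc0c202))
 (Pq.cons (Pq.L [] 4427 (Pf.C 14 0xc0c202))
 (Pq.cons (Pq.D 5 (Pq.cons (Pq.L [] 0x40319 (Pf.C 15 0x61c302))
 (Pq.cons (Pq.L [] 0x40319 (Pf.C 15 0x61c302))
 (Pq.cons (Pq.L [] 0x40319 (Pf.C 14 0xc1c182))
 (Pq.cons (Pq.L [] 0x40319 (Pf.C 15 0x61c302))
 (Pq.cons (Pq.L [] 0x40300 (Pf.C 43 50054))
 (Pq.cons (Pq.L [0,1] 99200 (Pf.B 7 1 (Pf.B 3 1 (Pf.B 5 1 (Pf.C 16 0x21c283) (Pf.B 6 1 (Pf.C 15 0x614086) (Pf.B 6 0 (Pf.C 7 134) (Pf.C 4 16390)))) (Pf.C 4 131)) (Pf.C 4 135)))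
 Pq.nil))))))) (Pq.cons (Pq.L [] 1 (Pf.W 47 2 [] [3] (Pf.cons (Pf.B 9 3 (Pf.C 43 50306) (Pf.C 40 393)) Pf.nil)))
 (Pq.cons (Pq.L [] 4427 (Pf.C 14 0xc0c202))
 (Pq.cons (Pq.L [] 33165 (Pf.C 14 0xa18182))
 Pq.nil))))))) (Pq.cons (Pq.L [] 1 (Pf.W 47 2 [] [3] (Pf.cons (Pf.B 9 3 (Pf.C 43 50306) (Pf.C 40 393)) Pf.nil)))
 (Pq.cons (Pq.L [] 2247 (Pf.C 14 0xa0c202))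
 (Pq.cons (Pq.L [] 2247 (Pf.C 14 0xa0c202))
 Pq.nil))))))) (Pq.cons (Pq.L [] 64 (Pf.C 50 388))
 (Pq.cons (Pq.D 3 (Pq.cons (Pq.D 4 (Pq.cons (Pq.L [] 33165 (Pf.C 14 0xc0c282))
 (Pq.cons (Pq.L [] 33165 (Pf.C 14 0xc0c282))
 (Pq.cons (Pq.D 5 (Pq.cons (Pq.L [] 0x40319 (Pf.C 15 0x61c302))
 (Pq.cons (Pq.L [] 0x40319 (Pf.C 15 0x61c302))
 (Pq.cons (Pq.L [] 0x40319 (Pf.C 14 0xc1c182))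
 (Pq.cons (Pq.L [] 0x40319 (Pf.C 15 0x61c302))
 (Pq.cons (Pq.L [] 0x40300 (Pf.C 43 50054))
 (Pq.cons (Pq.L [0,1] 0x58280 (Pf.B 7 1 (Pf.B 3 1 (Pf.B 5 1 (Pf.C 16 0x20c287) (Pf.B 6 1 (Pf.C 15 0xe14086) (Pf.B 6 0 (Pf.C 7 134) (Pf.C 4 16390)))) (Pf.C 4 131)) (Pf.C 4 135)))
 Pq.nil))))))) (Pq.cons (Pq.L [] 1 (Pf.W 47 2 [] [3] (Pf.cons (Pf.B 9 3 (Pf.C 43 50306) (Pf.C 40 393)) Pf.nil)))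
 (Pq.cons (Pq.L [] 33165 (Pf.C 14 0xc0c282))
 (Pq.cons (Pq.L [] 4427 (Pf.C 14 0x818182))
 Pq.nil))))))) (Pq.cons (Pq.L [] 128 (Pf.C 50 389))
 (Pq.cons (Pq.D 4 (Pq.cons (Pq.D 5 (Pq.cons (Pq.L [] 0x40319 (Pf.C 14 0xe18182))
 (Pq.cons (Pq.L [] 0x40319 (Pf.C 14 0xe18182))
 (Pq.cons (Pq.L [] 0x40000 (Pf.C 2 902))
 (Pq.cons (Pq.L [0,1] 0x58380 (Pf.B 7 1 (Pf.B 3 1 (Pf.B 5 1 (Pf.B 6 1 (Pf.C 16 0x20c305) (Pf.C 13 0xe18085)) (Pf.C 15 0x604287)) (Pf.C 4 131)) (Pf.C 11 16391)))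
 (Pq.cons (Pq.L [] 0x40319 (Pf.C 14 0xe18182))
 (Pq.cons (Pq.L [] 0x40319 (Pf.C 14 0xe18182))
 Pq.nil))))))) (Pq.cons (Pq.L [] 256 (Pf.C 50 390))
 (Pq.cons (Pq.D 5 (Pq.cons (Pq.L [] 0x40319 (Pf.C 15 0x61c302))
 (Pq.cons (Pq.L [] 0x40319 (Pf.C 15 0x61c302))
 (Pq.cons (Pq.L [] 0x40319 (Pf.C 14 0xc1c182))
 (Pq.cons (Pq.L [] 0x40319 (Pf.C 15 0x61c302))
 (Pq.cons (Pq.L [] 0x40300 (Pf.C 43 50054))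
 (Pq.cons (Pq.L [] 75798 (Pf.C 14 0xa1c202))
 Pq.nil))))))) (Pq.cons (Pq.D 5 (Pq.cons (Pq.L [] 1 (Pf.W 47 2 [] [3] (Pf.cons (Pf.B 9 3 (Pf.C 43 50306) (Pf.C 40 393)) Pf.nil)))
 (Pq.cons (Pq.L [] 1 (Pf.W 47 2 [] [3] (Pf.cons (Pf.B 9 3 (Pf.C 43 50306) (Pf.C 40 393)) Pf.nil)))
 (Pq.cons (Pq.L [0,1] 0x50380 (Pf.B 6 0 (Pf.B 7 0 (Pf.B 7 1 (Pf.B 3 1 (Pf.B 5 1 (Pf.C 16 0x21c185) (Pf.B 5 0 (Pf.C 7 133) (Pf.C 4 16389))) (Pf.C 4 131)) (Pf.C 7 135)) (Pf.C 0 0xc0c380)) (Pf.C 4 771)))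
 (Pq.cons (Pq.L [] 0x40000 (Pf.C 42 902))
 (Pq.cons (Pq.L [] 1 (Pf.W 47 2 [] [3] (Pf.cons (Pf.B 9 3 (Pf.C 43 50306) (Pf.C 40 393)) Pf.nil)))
 (Pq.cons (Pq.L [] 75798 (Pf.C 14 0xa1c202))
 Pq.nil))))))) (Pq.cons (Pq.L [] 256 (Pf.C 40 390))
 (Pq.cons (Pq.L [] 4427 (Pf.C 14 0x818182))
 Pq.nil))))))) (Pq.cons (Pq.D 4 (Pq.cons (Pq.L [] 1 (Pf.W 47 2 [] [3] (Pf.cons (Pf.B 9 3 (Pf.C 43 50306) (Pf.C 40 393)) Pf.nil)))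
 (Pq.cons (Pq.L [] 256 (Pf.C 50 390))
 (Pq.cons (Pq.D 5 (Pq.cons (Pq.L [] 0x40319 (Pf.C 15 0x61c302))
 (Pq.cons (Pq.L [] 0x40319 (Pf.C 15 0x61c302))
 (Pq.cons (Pq.L [] 0x40319 (Pf.C 14 0xc1c182))
 (Pq.cons (Pq.L [] 0x40319 (Pf.C 15 0x61c302))
 (Pq.cons (Pq.L [] 0x5801c (Pf.C 16 0xa1c302))
 (Pq.cons (Pq.L [] 75798 (Pf.C 16 0xa1c202))
 Pq.nil))))))) (Pq.cons (Pq.L [0,1] 39363 (Pf.B 6 1 (Pf.B 5 1 (Pf.B 3 1 (Pf.B 4 1 (Pf.B 4 0 (Pf.B 2 1 (Pf.B 2 0 (Pf.W 47 2 [] [0,4] (Pf.cons (Pf.B 9 4 (Pf.C 16 33924) (Pf.C 48 1156)) Pf.nil)) (Pf.C 7 16386)) (Pf.C 15 0x604104)) (Pf.C 7 16388)) (Pf.C 17 0x60614084)) (Pf.C 4 131)) (Pf.C 11 16389)) (Pf.C 11 16390)))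
 (Pq.cons (Pq.L [] 256 (Pf.C 40 390))
 (Pq.cons (Pq.L [] 4427 (Pf.C 14 0x818182))
 Pq.nil))))))) (Pq.cons (Pq.L [] 128 (Pf.C 40 389))
 (Pq.cons (Pq.L [] 2247 (Pf.C 14 0x814182))
 Pq.nil))))))) (Pq.cons (Pq.D 3 (Pq.cons (Pq.D 4 (Pq.cons (Pq.L [] 33165 (Pf.C 14 0xc0c282))
 (Pq.cons (Pq.L [] 33165 (Pf.C 14 0xc0c282))
 (Pq.cons (Pq.L [] 1 (Pf.W 47 2 [] [3] (Pf.cons (Pf.B 9 3 (Pf.C 43 50306) (Pf.C 40 393)) Pf.nil)))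
 (Pq.cons (Pq.L [0,1] 4559 (Pf.B 6 1 (Pf.B 4 1 (Pf.B 3 1 (Pf.B 2 1 (Pf.B 5 1 (Pf.C 16 0x20c282) (Pf.B 5 0 (Pf.C 7 133) (Pf.C 4 16389))) (Pf.C 17 0x60610082)) (Pf.C 4 131)) (Pf.C 11 16388)) (Pf.C 11 16390)))
 (Pq.cons (Pq.L [] 33165 (Pf.C 14 0xc0c282))
 (Pq.cons (Pq.L [] 33165 (Pf.C 14 0xc0c282))
 Pq.nil))))))) (Pq.cons (Pq.L [] 128 (Pf.C 50 389))
 (Pq.cons (Pq.D 4 (Pq.cons (Pq.L [] 1 (Pf.W 47 2 [] [3] (Pf.cons (Pf.B 9 3 (Pf.C 43 50306) (Pf.C 40 393)) Pf.nil)))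
 (Pq.cons (Pq.L [] 256 (Pf.C 50 390))
 (Pq.cons (Pq.D 5 (Pq.cons (Pq.L [] 0x40319 (Pf.C 15 0x61c302))
 (Pq.cons (Pq.L [] 0x40319 (Pf.C 15 0x61c302))
 (Pq.cons (Pq.L [] 0x40319 (Pf.C 14 0xc1c182))
 (Pq.cons (Pq.L [] 0x40319 (Pf.C 15 0x61c302))
 (Pq.cons (Pq.L [] 0x4301a (Pf.C 16 0x81c302))
 (Pq.cons (Pq.L [] 75798 (Pf.C 16 0x81c282))
 Pq.nil))))))) (Pq.cons (Pq.L [0,1] 39365 (Pf.B 6 1 (Pf.B 4 1 (Pf.B 3 1 (Pf.B 5 1 (Pf.B 5 0 (Pf.B 2 1 (Pf.B 2 0 (Pf.W 47 2 [] [0,5] (Pf.cons (Pf.B 9 5 (Pf.C 16 33925) (Pf.C 48 1157)) Pf.nil)) (Pf.C 7 16386)) (Pf.C 15 0x604105)) (Pf.C 7 16389)) (Pf.C 17 0x60610085)) (Pf.C 4 131)) (Pf.C 11 16388)) (Pf.C 11 16390)))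
 (Pq.cons (Pq.L [] 256 (Pf.C 40 390))
 (Pq.cons (Pq.L [] 33165 (Pf.C 14 0xa18182))
 Pq.nil))))))) (Pq.cons (Pq.D 4 (Pq.cons (Pq.L [0,1] 2511 (Pf.B 5 1 (Pf.B 4 1 (Pf.B 3 1 (Pf.B 2 1 (Pf.B 6 1 (Pf.C 16 0x20c302) (Pf.B 6 0 (Pf.C 7 134) (Pf.C 4 16390))) (Pf.C 17 0x50610082)) (Pf.C 4 131)) (Pf.C 11 16388)) (Pf.C 11 16389)))
 (Pq.cons (Pq.L [] 256 (Pf.C 50 390))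
 (Pq.cons (Pq.D 5 (Pq.cons (Pq.L [] 0x40319 (Pf.C 15 0x61c302))
 (Pq.cons (Pq.L [] 0x40319 (Pf.C 15 0x61c302))
 (Pq.cons (Pq.L [] 0x40319 (Pf.C 14 0xc1c182))
 (Pq.cons (Pq.L [] 0x40319 (Pf.C 15 0x61c302))
 (Pq.cons (Pq.L [] 0x4301a (Pf.C 16 0x81c302))
 (Pq.cons (Pq.L [] 16 (Pf.W 47 2 [] [7] (Pf.cons (Pf.B 9 7 (Pf.C 43 0x1c482) (Pf.C 40 905)) Pf.nil)))
 Pq.nil))))))) (Pq.cons (Pq.L [] 1 (Pf.W 47 2 [] [3] (Pf.cons (Pf.B 9 3 (Pf.C 43 50306) (Pf.C 40 393)) Pf.nil)))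
 (Pq.cons (Pq.L [] 256 (Pf.C 40 390))
 (Pq.cons (Pq.L [0] 256 (Pf.C 3 98688))
 Pq.nil))))))) (Pq.cons (Pq.L [] 128 (Pf.C 40 389))
 (Pq.cons (Pq.L [0] 128 (Pf.C 3 82304))
 Pq.nil))))))) (Pq.cons (Pq.L [] 64 (Pf.C 40 388))
 (Pq.cons (Pq.L [0] 64 (Pf.C 3 65920))
 Pq.nil))))))) Pq.nil))
theorem e5_o18 : AllRef e5_T e5_G29 (List.drop 4 (List.flatMap (splitP 1) (List.take 1 (List.take 2 (List.flatMap (splitP 0) (List.drop 1 (applyObl d_T 2 [38,39,40,42,44,46] [0,0,0,0,0,0] [(39,0x100000000000),(40,0x400000000000),(44,0x8000000000),(46,0x10000000000)]))))))) :=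
  chkPq_sound e5_o18c _ (by decide +kernel)
noncomputable def e5_o19c : Pq := (Pq.cons (Pq.D 2 (Pq.cons (Pq.L [] 64 (Pf.C 2 515))
 (Pq.cons (Pq.L [] 64 (Pf.C 2 515))
 (Pq.cons (Pq.L [] 64 (Pf.C 2 515))
 (Pq.cons (Pq.D 3 (Pq.cons (Pq.L [] 2247 (Pf.C 13 0xa0c202))
 (Pq.cons (Pq.L [] 2247 (Pf.C 13 0xa0c202))
 (Pq.cons (Pq.L [] 2247 (Pf.C 13 0xa0c202))
 (Pq.cons (Pq.L [] 2247 (Pf.C 13 0xa0c202))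
 (Pq.cons (Pq.D 4 (Pq.cons (Pq.L [] 4427 (Pf.C 13 0xc0c202))
 (Pq.cons (Pq.L [] 4427 (Pf.C 13 0xc0c202))
 (Pq.cons (Pq.L [] 4427 (Pf.C 13 0xc0c202))
 (Pq.cons (Pq.L [] 4427 (Pf.C 13 0xc0c202))
 (Pq.cons (Pq.D 5 (Pq.cons (Pq.L [] 66197 (Pf.C 14 0x614107))
 (Pq.cons (Pq.L [] 0x40319 (Pf.C 14 0x618107))
 (Pq.cons (Pq.L [] 66197 (Pf.C 14 0x614107))
 (Pq.cons (Pq.L [] 0x50000 (Pf.W 49 3 [] [5,6,7] (Pf.cons (Pf.B 9 6 (Pf.B 9 7 (Pf.C 45 0x24307) (Pf.B 9 5 (Pf.C 46 0x24287) (Pf.C 40 1157))) (Pf.C 40 1158)) Pf.nil)))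
 (Pq.cons (Pq.L [] 0x40018 (Pf.C 3 0x1c302))
 (Pq.cons (Pq.L [] 0x40018 (Pf.C 8 0x1c302))
 Pq.nil))))))) (Pq.cons (Pq.L [] 32780 (Pf.C 43 98946))
 Pq.nil))))))) (Pq.cons (Pq.L [0,1] 2247 (Pf.B 5 1 (Pf.B 4 1 (Pf.B 2 1 (Pf.B 3 1 (Pf.C 16 0x214182) (Pf.C 13 0x80c082)) (Pf.C 15 0xa04104)) (Pf.C 9 82052)) (Pf.C 4 133)))
 Pq.nil))))))) (Pq.cons (Pq.D 3 (Pq.cons (Pq.L [] 128 (Pf.C 2 643))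
 (Pq.cons (Pq.L [] 128 (Pf.C 2 643))
 (Pq.cons (Pq.L [] 128 (Pf.C 2 643))
 (Pq.cons (Pq.D 4 (Pq.cons (Pq.L [] 33165 (Pf.C 13 0xc0c282))
 (Pq.cons (Pq.L [] 33165 (Pf.C 13 0xc0c282))
 (Pq.cons (Pq.L [] 33165 (Pf.C 13 0xc0c282))
 (Pq.cons (Pq.L [] 33165 (Pf.C 13 0xc0c282))
 (Pq.cons (Pq.D 5 (Pq.cons (Pq.L [] 8787 (Pf.C 14 0x610107))
 (Pq.cons (Pq.L [] 0x40319 (Pf.C 14 0x618107))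
 (Pq.cons (Pq.L [] 8787 (Pf.C 14 0x610107))
 (Pq.cons (Pq.L [] 0x42000 (Pf.W 49 3 [] [4,6,7] (Pf.cons (Pf.B 9 6 (Pf.B 9 7 (Pf.C 45 0x24307) (Pf.B 9 4 (Pf.C 46 0x24207) (Pf.C 40 1156))) (Pf.C 40 1158)) Pf.nil)))
 (Pq.cons (Pq.L [] 0x40018 (Pf.C 3 0x1c302))
 (Pq.cons (Pq.L [] 0x40018 (Pf.C 8 0x1c302))
 Pq.nil))))))) (Pq.cons (Pq.L [] 4106 (Pf.C 43 98818))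
 Pq.nil))))))) (Pq.cons (Pq.D 4 (Pq.cons (Pq.L [] 38926 (Pf.C 14 0xa08206))
 (Pq.cons (Pq.L [] 256 (Pf.C 2 771))
 (Pq.cons (Pq.L [] 38926 (Pf.C 14 0xa08206))
 (Pq.cons (Pq.D 5 (Pq.cons (Pq.L [] 0x40319 (Pf.C 13 0xe18182))
 (Pq.cons (Pq.L [] 0x40319 (Pf.C 13 0xe18182))
 (Pq.cons (Pq.L [] 0x40319 (Pf.C 13 0xe18182))
 (Pq.cons (Pq.L [] 0x40319 (Pf.C 13 0xe18182))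
 (Pq.cons (Pq.L [] 76480 (Pf.C 14 0xa0c207))
 (Pq.cons (Pq.L [] 8210 (Pf.C 43 0x1c202))
 Pq.nil))))))) (Pq.cons (Pq.D 5 (Pq.cons (Pq.L [] 8787 (Pf.C 14 0x610107))
 (Pq.cons (Pq.L [] 0x40319 (Pf.C 14 0x618107))
 (Pq.cons (Pq.L [] 8787 (Pf.C 14 0x610107))
 (Pq.cons (Pq.L [] 0x50000 (Pf.W 49 3 [] [5,6,7] (Pf.cons (Pf.B 9 6 (Pf.B 9 7 (Pf.C 45 0x24307) (Pf.B 9 5 (Pf.C 46 0x24287) (Pf.C 40 1157))) (Pf.C 40 1158)) Pf.nil)))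
 (Pq.cons (Pq.L [] 0x40018 (Pf.C 3 0x1c302))
 (Pq.cons (Pq.L [] 0x40018 (Pf.C 8 0x1c302))
 Pq.nil))))))) (Pq.cons (Pq.L [] 4106 (Pf.C 43 98818))
 Pq.nil))))))) (Pq.cons (Pq.L [] 2054 (Pf.C 43 82434))
 Pq.nil))))))) (Pq.cons (Pq.D 3 (Pq.cons (Pq.L [] 2247 (Pf.C 14 0xa0c202))
 (Pq.cons (Pq.L [] 2247 (Pf.C 14 0xa0c202))
 (Pq.cons (Pq.L [] 128 (Pf.C 2 643))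
 (Pq.cons (Pq.L [0,1] 2247 (Pf.B 5 1 (Pf.B 4 1 (Pf.B 2 1 (Pf.B 3 1 (Pf.C 16 0x210182) (Pf.C 13 0xa0c082)) (Pf.C 15 0x804105)) (Pf.C 4 132)) (Pf.C 11 16389)))
 (Pq.cons (Pq.L [] 2054 (Pf.C 43 66178))
 (Pq.cons (Pq.L [] 2247 (Pf.C 14 0xa0c202))
 Pq.nil))))))) Pq.nil))))))) (Pq.cons (Pq.D 2 (Pq.cons (Pq.L [] 64 (Pf.C 2 515))
 (Pq.cons (Pq.L [] 64 (Pf.C 2 515))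
 (Pq.cons (Pq.L [] 64 (Pf.C 2 515))
 (Pq.cons (Pq.D 3 (Pq.cons (Pq.L [] 2247 (Pf.C 13 0xa0c202))
 (Pq.cons (Pq.L [] 2247 (Pf.C 13 0xa0c202))
 (Pq.cons (Pq.L [] 2247 (Pf.C 13 0xa0c202))
 (Pq.cons (Pq.L [] 2247 (Pf.C 13 0xa0c202))
 (Pq.cons (Pq.L [0,1] 2240 (Pf.B 4 1 (Pf.B 4 0 (Pf.B 3 0 (Pf.C 15 0xa10180) (Pf.B 3 1 (Pf.C 7 16387) (Pf.C 4 131))) (Pf.C 6 16388)) (Pf.C 11 16388)))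
 (Pq.cons (Pq.L [] 128 (Pf.C 50 643))
 Pq.nil))))))) (Pq.cons (Pq.D 3 (Pq.cons (Pq.L [] 128 (Pf.C 2 643))
 (Pq.cons (Pq.L [] 128 (Pf.C 2 643))
 (Pq.cons (Pq.L [] 128 (Pf.C 2 643))
 (Pq.cons (Pq.L [0,1] 2240 (Pf.B 5 1 (Pf.B 5 0 (Pf.B 3 0 (Pf.C 15 0x814180) (Pf.B 3 1 (Pf.C 7 16387) (Pf.C 4 131))) (Pf.C 6 16389)) (Pf.C 11 16389)))
 (Pq.cons (Pq.L [] 2247 (Pf.C 14 0xa08203))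
 (Pq.cons (Pq.L [] 2054 (Pf.C 43 82434))
 Pq.nil))))))) (Pq.cons (Pq.L [] 64 (Pf.C 50 515))
 Pq.nil))))))) (Pq.cons (Pq.D 2 (Pq.cons (Pq.L [] 64 (Pf.C 2 515))
 (Pq.cons (Pq.L [] 64 (Pf.C 2 515))
 (Pq.cons (Pq.L [] 64 (Pf.C 2 515))
 (Pq.cons (Pq.D 3 (Pq.cons (Pq.L [] 2247 (Pf.C 13 0xa0c202))
 (Pq.cons (Pq.L [] 2247 (Pf.C 13 0xa0c202))
 (Pq.cons (Pq.L [] 2247 (Pf.C 13 0xa0c202))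
 (Pq.cons (Pq.L [] 2247 (Pf.C 13 0xa0c202))
 (Pq.cons (Pq.L [] 128 (Pf.C 48 643))
 (Pq.cons (Pq.L [] 2247 (Pf.C 15 0xa10182))
 Pq.nil))))))) (Pq.cons (Pq.L [] 64 (Pf.C 48 515))
 (Pq.cons (Pq.D 3 (Pq.cons (Pq.L [] 2247 (Pf.C 15 0x814182))
 (Pq.cons (Pq.L [] 2247 (Pf.C 15 0x814182))
 (Pq.cons (Pq.L [] 2247 (Pf.C 14 0x814182))
 (Pq.cons (Pq.L [] 2247 (Pf.C 15 0x814182))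
 (Pq.cons (Pq.L [] 2054 (Pf.C 43 66178))
 (Pq.cons (Pq.D 4 (Pq.cons (Pq.L [] 4427 (Pf.C 15 0x818182))
 (Pq.cons (Pq.L [] 4427 (Pf.C 15 0x818182))
 (Pq.cons (Pq.L [] 4427 (Pf.C 14 0x818182))
 (Pq.cons (Pq.L [] 4427 (Pf.C 15 0x818182))
 (Pq.cons (Pq.L [] 4106 (Pf.C 43 66306))
 (Pq.cons (Pq.D 5 (Pq.cons (Pq.L [0,1] 0x58000 (Pf.B 6 1 (Pf.B 5 1 (Pf.B 7 1 (Pf.C 16 0x218385) (Pf.B 7 0 (Pf.C 7 135) (Pf.C 4 16391))) (Pf.C 4 133)) (Pf.C 4 134)))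
 (Pq.cons (Pq.L [] 0x40000 (Pf.C 50 775))
 (Pq.cons (Pq.L [] 75798 (Pf.C 14 0xa1c202))
 (Pq.cons (Pq.D 6 (Pq.cons (Pq.L [] 0x106032 (Pf.C 15 0x820382))
 (Pq.cons (Pq.L [] 0x106032 (Pf.C 15 0x820382))
 (Pq.cons (Pq.L [] 0x24826 (Pf.C 14 0xa20202))
 (Pq.cons (Pq.L [] 0x106032 (Pf.C 15 0x820382))
 (Pq.cons (Pq.L [] 16418 (Pf.C 43 66562))
 (Pq.cons (Pq.L [0,1] 26176 (Pf.B 8 1 (Pf.B 7 1 (Pf.B 4 1 (Pf.B 3 1 (Pf.C 16 0x220184) (Pf.C 15 0x804187)) (Pf.C 4 132)) (Pf.C 11 16391)) (Pf.C 4 136)))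
 Pq.nil))))))) (Pq.cons (Pq.L [] 0x40018 (Pf.C 8 99202))
 (Pq.cons (Pq.L [] 0x40319 (Pf.C 14 0xc1c182))
 Pq.nil))))))) Pq.nil))))))) Pq.nil))))))) Pq.nil))))))) (Pq.cons (Pq.D 2 (Pq.cons (Pq.D 3 (Pq.cons (Pq.L [] 2247 (Pf.C 13 0xa0c202))
 (Pq.cons (Pq.L [] 2247 (Pf.C 13 0xa0c202))
 (Pq.cons (Pq.L [] 2247 (Pf.C 13 0xa0c202))
 (Pq.cons (Pq.L [] 2247 (Pf.C 13 0xa0c202))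
 (Pq.cons (Pq.D 4 (Pq.cons (Pq.L [] 4427 (Pf.C 13 0xc0c202))
 (Pq.cons (Pq.L [] 4427 (Pf.C 13 0xc0c202))
 (Pq.cons (Pq.L [] 4427 (Pf.C 13 0xc0c202))
 (Pq.cons (Pq.L [] 4427 (Pf.C 13 0xc0c202))
 (Pq.cons (Pq.L [] 38926 (Pf.C 14 0xc08284))
 (Pq.cons (Pq.L [] 32780 (Pf.C 43 98946))
 Pq.nil))))))) (Pq.cons (Pq.D 4 (Pq.cons (Pq.L [] 4427 (Pf.C 13 0xc0c202))
 (Pq.cons (Pq.L [] 4427 (Pf.C 13 0xc0c202))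
 (Pq.cons (Pq.L [] 4427 (Pf.C 13 0xc0c202))
 (Pq.cons (Pq.L [] 4427 (Pf.C 13 0xc0c202))
 (Pq.cons (Pq.L [] 32780 (Pf.C 43 82690))
 (Pq.cons (Pq.D 5 (Pq.cons (Pq.L [0,1] 0x58000 (Pf.B 6 1 (Pf.B 5 1 (Pf.B 7 1 (Pf.C 16 0x218385) (Pf.B 7 0 (Pf.C 7 135) (Pf.C 4 16391))) (Pf.C 4 133)) (Pf.C 4 134)))
 (Pq.cons (Pq.L [] 0x40000 (Pf.C 50 775))
 (Pq.cons (Pq.L [0,1] 0x58000 (Pf.B 6 1 (Pf.B 5 1 (Pf.B 7 1 (Pf.C 16 0x214386) (Pf.B 7 0 (Pf.C 7 135) (Pf.C 4 16391))) (Pf.C 4 133)) (Pf.C 4 134)))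
 (Pq.cons (Pq.L [] 0x10667b (Pf.B 8 2 (Pf.W 47 2 [] [6] (Pf.cons (Pf.B 9 6 (Pf.C 43 99458) (Pf.C 40 777)) Pf.nil)) (Pf.C 17 0x71008203)))
 (Pq.cons (Pq.L [] 0x40018 (Pf.C 8 99202))
 (Pq.cons (Pq.L [] 8787 (Pf.C 15 0xe10182))
 Pq.nil))))))) Pq.nil))))))) Pq.nil))))))) (Pq.cons (Pq.D 3 (Pq.cons (Pq.L [] 2247 (Pf.C 13 0xa0c202))
 (Pq.cons (Pq.L [] 2247 (Pf.C 13 0xa0c202))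
 (Pq.cons (Pq.L [] 2247 (Pf.C 13 0xa0c202))
 (Pq.cons (Pq.L [] 2247 (Pf.C 13 0xa0c202))
 (Pq.cons (Pq.D 4 (Pq.cons (Pq.L [] 4427 (Pf.C 13 0xc0c202))
 (Pq.cons (Pq.L [] 4427 (Pf.C 13 0xc0c202))
 (Pq.cons (Pq.L [] 4427 (Pf.C 13 0xc0c202))
 (Pq.cons (Pq.L [] 4427 (Pf.C 13 0xc0c202))
 (Pq.cons (Pq.L [] 39360 (Pf.C 0 0xc10185))
 (Pq.cons (Pq.L [] 32780 (Pf.C 43 98946))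
 Pq.nil))))))) (Pq.cons (Pq.D 4 (Pq.cons (Pq.L [] 4427 (Pf.C 13 0xc0c202))
 (Pq.cons (Pq.L [] 4427 (Pf.C 13 0xc0c202))
 (Pq.cons (Pq.L [] 4427 (Pf.C 13 0xc0c202))
 (Pq.cons (Pq.L [] 4427 (Pf.C 13 0xc0c202))
 (Pq.cons (Pq.L [] 32780 (Pf.C 43 82690))
 (Pq.cons (Pq.D 5 (Pq.cons (Pq.L [0,1] 0x58000 (Pf.B 6 1 (Pf.B 5 1 (Pf.B 7 1 (Pf.C 16 0x218385) (Pf.B 7 0 (Pf.C 7 135) (Pf.C 4 16391))) (Pf.C 4 133)) (Pf.C 4 134)))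
 (Pq.cons (Pq.L [] 0x40000 (Pf.C 50 775))
 (Pq.cons (Pq.L [0,1] 0x58000 (Pf.B 6 1 (Pf.B 5 1 (Pf.B 7 1 (Pf.C 16 0x214386) (Pf.B 7 0 (Pf.C 7 135) (Pf.C 4 16391))) (Pf.C 4 133)) (Pf.C 4 134)))
 (Pq.cons (Pq.D 6 (Pq.cons (Pq.L [] 0x130034 (Pf.C 15 0xa20382))
 (Pq.cons (Pq.L [] 0x130034 (Pf.C 15 0xa20382))
 (Pq.cons (Pq.L [] 0xa802c (Pf.C 14 0xc20282))
 (Pq.cons (Pq.L [] 0x130034 (Pf.C 15 0xa20382))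
 (Pq.cons (Pq.L [] 0x20024 (Pf.C 43 82946))
 (Pq.cons (Pq.L [] 17507 (Pf.C 15 0x1010182))
 Pq.nil))))))) (Pq.cons (Pq.L [] 0x40018 (Pf.C 8 99202))
 (Pq.cons (Pq.L [] 8787 (Pf.C 15 0xe10182))
 Pq.nil))))))) Pq.nil))))))) Pq.nil))))))) (Pq.cons (Pq.D 3 (Pq.cons (Pq.L [] 2247 (Pf.C 13 0xa0c202))
 (Pq.cons (Pq.L [] 2247 (Pf.C 13 0xa0c202))
 (Pq.cons (Pq.L [] 2247 (Pf.C 13 0xa0c202))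
 (Pq.cons (Pq.L [] 2247 (Pf.C 13 0xa0c202))
 (Pq.cons (Pq.D 4 (Pq.cons (Pq.L [] 4427 (Pf.C 13 0xc0c202))
 (Pq.cons (Pq.L [] 4427 (Pf.C 13 0xc0c202))
 (Pq.cons (Pq.L [] 4427 (Pf.C 13 0xc0c202))
 (Pq.cons (Pq.L [] 4427 (Pf.C 13 0xc0c202))
 (Pq.cons (Pq.L [] 38926 (Pf.C 14 0xc08284))
 (Pq.cons (Pq.L [] 32780 (Pf.C 43 98946))
 Pq.nil))))))) (Pq.cons (Pq.L [0,1] 2246 (Pf.B 5 1 (Pf.B 3 0 (Pf.B 4 0 (Pf.B 4 1 (Pf.B 2 1 (Pf.C 16 0x214202) (Pf.B 2 0 (Pf.C 7 130) (Pf.C 4 16386))) (Pf.C 7 132)) (Pf.C 0 0x614200)) (Pf.C 4 389)) (Pf.C 4 133)))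
 Pq.nil))))))) (Pq.cons (Pq.L [] 64 (Pf.C 42 515))
 (Pq.cons (Pq.D 3 (Pq.cons (Pq.D 4 (Pq.cons (Pq.L [] 33165 (Pf.C 13 0xc0c282))
 (Pq.cons (Pq.L [] 33165 (Pf.C 13 0xc0c282))
 (Pq.cons (Pq.L [] 33165 (Pf.C 13 0xc0c282))
 (Pq.cons (Pq.L [] 33165 (Pf.C 13 0xc0c282))
 (Pq.cons (Pq.L [] 38926 (Pf.C 14 0xc08205))
 (Pq.cons (Pq.L [] 4106 (Pf.C 43 98818))
 Pq.nil))))))) (Pq.cons (Pq.D 4 (Pq.cons (Pq.L [] 33165 (Pf.C 13 0xc0c282))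
 (Pq.cons (Pq.L [] 33165 (Pf.C 13 0xc0c282))
 (Pq.cons (Pq.L [] 33165 (Pf.C 13 0xc0c282))
 (Pq.cons (Pq.L [] 33165 (Pf.C 13 0xc0c282))
 (Pq.cons (Pq.L [] 39360 (Pf.C 0 0xc14184))
 (Pq.cons (Pq.L [] 4106 (Pf.C 43 98818))
 Pq.nil))))))) (Pq.cons (Pq.D 4 (Pq.cons (Pq.L [] 33165 (Pf.C 13 0xc0c282))
 (Pq.cons (Pq.L [] 33165 (Pf.C 13 0xc0c282))
 (Pq.cons (Pq.L [] 33165 (Pf.C 13 0xc0c282))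
 (Pq.cons (Pq.L [] 33165 (Pf.C 13 0xc0c282))
 (Pq.cons (Pq.L [] 38926 (Pf.C 14 0xc08205))
 (Pq.cons (Pq.L [] 4106 (Pf.C 43 98818))
 Pq.nil))))))) (Pq.cons (Pq.L [] 128 (Pf.C 42 643))
 (Pq.cons (Pq.D 4 (Pq.cons (Pq.L [] 38926 (Pf.C 14 0xa08206))
 (Pq.cons (Pq.L [] 39360 (Pf.C 0 0xa18184))
 (Pq.cons (Pq.L [] 38926 (Pf.C 14 0xa08206))
 (Pq.cons (Pq.L [] 256 (Pf.C 42 771))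
 (Pq.cons (Pq.D 5 (Pq.cons (Pq.L [] 75798 (Pf.C 14 0xa08207))
 (Pq.cons (Pq.L [] 0x5b800 (Pf.C 14 0xa1c206))
 (Pq.cons (Pq.L [] 75798 (Pf.C 14 0xa08207))
 (Pq.cons (Pq.D 6 (Pq.cons (Pq.L [] 0x24826 (Pf.C 14 0xa08208))
 (Pq.cons (Pq.L [] 0xa85ad (Pf.W 53 3 [] [2,5,6,8] (Pf.cons (Pf.B 9 8 (Pf.B 9 2 (Pf.B 9 6 (Pf.C 14 0x1018109) (Pf.B 9 5 (Pf.C 14 0x1014109) (Pf.C 0 0xc0c485))) (Pf.C 2 265)) (Pf.C 2 1033)) (Pf.cons (Pf.B 9 8 (Pf.B 9 2 (Pf.B 9 6 (Pf.C 14 0x1018109) (Pf.B 9 5 (Pf.C 14 0x1014109) (Pf.C 0 0xc0c485))) (Pf.C 2 265)) (Pf.C 2 1033)) (Pf.cons (Pf.B 9 8 (Pf.B 9 6 (Pf.B 9 5 (Pf.C 14 0xc20289) (Pf.C 48 649)) (Pf.C 48 777)) (Pf.C 2 1033)) Pf.nil)))))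
 (Pq.cons (Pq.L [] 0x24826 (Pf.C 14 0xa08208))
 (Pq.cons (Pq.L [] 0x106673 (Pf.C 17 0x30808407))
 (Pq.cons (Pq.L [] 0x136ec0 (Pf.C 17 0x50610407))
 (Pq.cons (Pq.L [] 16418 (Pf.C 43 0x20202))
 Pq.nil))))))) (Pq.cons (Pq.L [] 0x40018 (Pf.C 3 0x1c302))
 (Pq.cons (Pq.L [] 0x40018 (Pf.C 8 0x1c302))
 Pq.nil))))))) (Pq.cons (Pq.L [] 4106 (Pf.C 43 98818))
 Pq.nil))))))) (Pq.cons (Pq.L [] 2054 (Pf.C 43 82434))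
 Pq.nil))))))) (Pq.cons (Pq.D 3 (Pq.cons (Pq.D 4 (Pq.cons (Pq.L [] 33165 (Pf.C 13 0xc0c282))
 (Pq.cons (Pq.L [] 33165 (Pf.C 13 0xc0c282))
 (Pq.cons (Pq.L [] 33165 (Pf.C 13 0xc0c282))
 (Pq.cons (Pq.L [] 33165 (Pf.C 13 0xc0c282))
 (Pq.cons (Pq.L [] 4106 (Pf.C 43 66306))
 (Pq.cons (Pq.D 5 (Pq.cons (Pq.L [0,1] 0x43000 (Pf.B 6 1 (Pf.B 4 1 (Pf.B 7 1 (Pf.C 16 0x218384) (Pf.B 7 0 (Pf.C 7 135) (Pf.C 4 16391))) (Pf.C 4 132)) (Pf.C 4 134)))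
 (Pq.cons (Pq.L [] 0x40000 (Pf.C 50 775))
 (Pq.cons (Pq.L [0,1] 0x43000 (Pf.B 6 1 (Pf.B 4 1 (Pf.B 7 1 (Pf.C 16 0x210386) (Pf.B 7 0 (Pf.C 7 135) (Pf.C 4 16391))) (Pf.C 4 132)) (Pf.C 4 134)))
 (Pq.cons (Pq.L [] 0x1306bd (Pf.B 8 2 (Pf.W 47 2 [] [6] (Pf.cons (Pf.B 9 6 (Pf.C 43 99458) (Pf.C 40 777)) Pf.nil)) (Pf.C 17 0x71008283)))
 (Pq.cons (Pq.L [] 0x40018 (Pf.C 8 99202))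
 (Pq.cons (Pq.L [] 66197 (Pf.C 15 0xe14182))
 Pq.nil))))))) Pq.nil))))))) (Pq.cons (Pq.D 4 (Pq.cons (Pq.L [] 33165 (Pf.C 13 0xc0c282))
 (Pq.cons (Pq.L [] 33165 (Pf.C 13 0xc0c282))
 (Pq.cons (Pq.L [] 33165 (Pf.C 13 0xc0c282))
 (Pq.cons (Pq.L [] 33165 (Pf.C 13 0xc0c282))
 (Pq.cons (Pq.L [] 4106 (Pf.C 43 66306))
 (Pq.cons (Pq.D 5 (Pq.cons (Pq.L [0,1] 0x43000 (Pf.B 6 1 (Pf.B 4 1 (Pf.B 7 1 (Pf.C 16 0x218384) (Pf.B 7 0 (Pf.C 7 135) (Pf.C 4 16391))) (Pf.C 4 132)) (Pf.C 4 134)))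
 (Pq.cons (Pq.L [] 0x40000 (Pf.C 50 775))
 (Pq.cons (Pq.L [0,1] 0x43000 (Pf.B 6 1 (Pf.B 4 1 (Pf.B 7 1 (Pf.C 16 0x210386) (Pf.B 7 0 (Pf.C 7 135) (Pf.C 4 16391))) (Pf.C 4 132)) (Pf.C 4 134)))
 (Pq.cons (Pq.D 6 (Pq.cons (Pq.L [] 0x106032 (Pf.C 15 0x820382))
 (Pq.cons (Pq.L [] 0x106032 (Pf.C 15 0x820382))
 (Pq.cons (Pq.L [] 0x8502a (Pf.C 14 0xc20202))
 (Pq.cons (Pq.L [] 0x106032 (Pf.C 15 0x820382))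
 (Pq.cons (Pq.L [] 16418 (Pf.C 43 66562))
 (Pq.cons (Pq.L [] 0x204a5 (Pf.C 15 0x1014182))
 Pq.nil))))))) (Pq.cons (Pq.L [] 0x40018 (Pf.C 8 99202))
 (Pq.cons (Pq.L [] 66197 (Pf.C 15 0xe14182))
 Pq.nil))))))) Pq.nil))))))) (Pq.cons (Pq.L [0,1] 2246 (Pf.B 4 1 (Pf.B 3 0 (Pf.B 5 0 (Pf.B 5 1 (Pf.B 2 1 (Pf.C 16 0x214202) (Pf.B 2 0 (Pf.C 7 130) (Pf.C 4 16386))) (Pf.C 7 133)) (Pf.C 0 0x610280)) (Pf.C 4 388)) (Pf.C 4 132)))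
 (Pq.cons (Pq.L [] 128 (Pf.C 42 643))
 (Pq.cons (Pq.L [] 2054 (Pf.C 43 66178))
 (Pq.cons (Pq.D 4 (Pq.cons (Pq.D 5 (Pq.cons (Pq.L [] 0x40319 (Pf.C 13 0xe18182))
 (Pq.cons (Pq.L [] 0x40319 (Pf.C 13 0xe18182))
 (Pq.cons (Pq.L [] 0x40319 (Pf.C 13 0xe18182))
 (Pq.cons (Pq.L [] 0x40319 (Pf.C 13 0xe18182))
 (Pq.cons (Pq.L [] 8210 (Pf.C 43 66434))
 (Pq.cons (Pq.L [0,1] 0x58000 (Pf.B 7 1 (Pf.B 5 1 (Pf.B 6 1 (Pf.C 16 0x21c305) (Pf.B 6 0 (Pf.C 7 134) (Pf.C 4 16390))) (Pf.C 4 133)) (Pf.C 4 135)))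
 Pq.nil))))))) (Pq.cons (Pq.D 5 (Pq.cons (Pq.L [] 0x40319 (Pf.C 13 0xe18182))
 (Pq.cons (Pq.L [] 0x40319 (Pf.C 13 0xe18182))
 (Pq.cons (Pq.L [] 0x40319 (Pf.C 13 0xe18182))
 (Pq.cons (Pq.L [] 0x40319 (Pf.C 13 0xe18182))
 (Pq.cons (Pq.L [] 8210 (Pf.C 43 66434))
 (Pq.cons (Pq.L [] 0x40000 (Pf.C 50 902))
 Pq.nil))))))) (Pq.cons (Pq.L [] 38926 (Pf.C 14 0xa18202))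
 (Pq.cons (Pq.L [] 256 (Pf.C 42 771))
 (Pq.cons (Pq.L [] 4106 (Pf.C 43 66306))
 (Pq.cons (Pq.D 5 (Pq.cons (Pq.L [0,1] 0x58000 (Pf.B 6 1 (Pf.B 5 1 (Pf.B 7 1 (Pf.C 16 0x218385) (Pf.B 7 0 (Pf.C 7 135) (Pf.C 4 16391))) (Pf.C 4 133)) (Pf.C 4 134)))
 (Pq.cons (Pq.L [] 0x40000 (Pf.C 50 775))
 (Pq.cons (Pq.L [] 75798 (Pf.C 14 0xa1c202))
 (Pq.cons (Pq.D 6 (Pq.cons (Pq.L [] 0x106032 (Pf.C 15 0x820382))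
 (Pq.cons (Pq.L [] 0x106032 (Pf.C 15 0x820382))
 (Pq.cons (Pq.L [] 0x24826 (Pf.C 14 0xa20202))
 (Pq.cons (Pq.L [] 0x106032 (Pf.C 15 0x820382))
 (Pq.cons (Pq.L [] 16418 (Pf.C 43 66562))
 (Pq.cons (Pq.L [] 0x136ef7 (Pf.C 1 0x2830820382))
 Pq.nil))))))) (Pq.cons (Pq.L [] 0x40018 (Pf.C 8 99202))
 (Pq.cons (Pq.L [0] 0x40000 (Pf.C 3 0x1c300))
 Pq.nil))))))) Pq.nil))))))) Pq.nil))))))) Pq.nil))))))) Pq.nil))))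
theorem e5_o19 : AllRef e5_T e5_G29 (List.take 4 (List.flatMap (splitP 1) (List.drop 1 (List.take 2 (List.flatMap (splitP 0) (List.drop 1 (applyObl d_T 2 [38,39,40,42,44,46] [0,0,0,0,0,0] [(39,0x100000000000),(40,0x400000000000),(44,0x8000000000),(46,0x10000000000)]))))))) :=
  chkPq_sound e5_o19c _ (by decide +kernel)
noncomputable def e5_o20c : Pq := (Pq.cons (Pq.D 2 (Pq.cons (Pq.D 3 (Pq.cons (Pq.D 4 (Pq.cons (Pq.L [] 1 (Pf.W 49 4 [] [2,3] (Pf.cons (Pf.B 9 3 (Pf.B 9 2 (Pf.C 43 0x24182) (Pf.C 50 1154)) (Pf.C 40 1155)) Pf.nil)))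
 (Pq.cons (Pq.L [] 4427 (Pf.C 14 0x80c106))
 (Pq.cons (Pq.L [] 256 (Pf.C 48 390))
 (Pq.cons (Pq.L [] 1 (Pf.W 49 4 [] [2,3] (Pf.cons (Pf.B 9 3 (Pf.B 9 2 (Pf.C 43 0x24182) (Pf.C 50 1154)) (Pf.C 40 1155)) Pf.nil)))
 (Pq.cons (Pq.L [] 265 (Pf.C 3 98690))
 (Pq.cons (Pq.L [] 265 (Pf.C 8 98690))
 Pq.nil))))))) (Pq.cons (Pq.L [] 2247 (Pf.C 14 0x80c105))
 (Pq.cons (Pq.L [] 128 (Pf.C 48 389))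
 (Pq.cons (Pq.D 4 (Pq.cons (Pq.L [] 1 (Pf.W 49 4 [] [2,3] (Pf.cons (Pf.B 9 3 (Pf.B 9 2 (Pf.C 43 0x24182) (Pf.C 50 1154)) (Pf.C 40 1155)) Pf.nil)))
 (Pq.cons (Pq.L [] 4427 (Pf.C 14 0x80c106))
 (Pq.cons (Pq.L [] 256 (Pf.C 48 390))
 (Pq.cons (Pq.L [] 1 (Pf.W 49 4 [] [2,3] (Pf.cons (Pf.B 9 3 (Pf.B 9 2 (Pf.C 43 0x24182) (Pf.C 50 1154)) (Pf.C 40 1155)) Pf.nil)))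
 (Pq.cons (Pq.L [] 265 (Pf.C 3 98690))
 (Pq.cons (Pq.L [] 265 (Pf.C 8 98690))
 Pq.nil))))))) (Pq.cons (Pq.L [] 133 (Pf.C 3 82306))
 (Pq.cons (Pq.L [] 133 (Pf.C 8 82306))
 Pq.nil))))))) (Pq.cons (Pq.D 3 (Pq.cons (Pq.L [] 2247 (Pf.C 14 0xa0c104))
 (Pq.cons (Pq.D 4 (Pq.cons (Pq.L [] 4427 (Pf.C 14 0xc0c104))
 (Pq.cons (Pq.D 5 (Pq.cons (Pq.L [] 0x43340 (Pf.C 15 0x61c304))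
 (Pq.cons (Pq.L [] 8787 (Pf.C 14 0xe0c104))
 (Pq.cons (Pq.L [] 0x43340 (Pf.C 15 0x61c304))
 (Pq.cons (Pq.L [] 8787 (Pf.C 16 0xe0c104))
 (Pq.cons (Pq.L [] 0x4301a (Pf.C 14 0x81c106))
 (Pq.cons (Pq.L [] 529 (Pf.C 43 0x1c182))
 Pq.nil))))))) (Pq.cons (Pq.L [] 4427 (Pf.C 14 0xc0c104))
 (Pq.cons (Pq.D 5 (Pq.cons (Pq.D 6 (Pq.cons (Pq.L [] 0x1c0038 (Pf.C 13 0x101c302))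
 (Pq.cons (Pq.L [] 0x1c0038 (Pf.C 13 0x101c302))
 (Pq.cons (Pq.L [] 0x1c0038 (Pf.C 13 0x101c302))
 (Pq.cons (Pq.L [] 0x1c0038 (Pf.C 13 0x101c302))
 (Pq.cons (Pq.L [] 0x24cc0 (Pf.C 14 0xa20203))
 (Pq.cons (Pq.L [] 1057 (Pf.C 43 0x20182))
 Pq.nil))))))) (Pq.cons (Pq.L [] 8787 (Pf.C 14 0xe0c104))
 (Pq.cons (Pq.D 6 (Pq.cons (Pq.L [] 0x1c0038 (Pf.C 13 0x101c302))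
 (Pq.cons (Pq.L [] 0x1c0038 (Pf.C 13 0x101c302))
 (Pq.cons (Pq.L [] 0x1c0038 (Pf.C 13 0x101c302))
 (Pq.cons (Pq.L [] 0x1c0038 (Pf.C 13 0x101c302))
 (Pq.cons (Pq.L [] 0x24cc0 (Pf.C 14 0xa20203))
 (Pq.cons (Pq.L [] 1057 (Pf.C 43 0x20182))
 Pq.nil))))))) (Pq.cons (Pq.L [] 8787 (Pf.C 16 0xe0c104))
 (Pq.cons (Pq.L [] 76480 (Pf.C 14 0xa1c203))
 (Pq.cons (Pq.L [] 529 (Pf.C 43 0x1c182))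
 Pq.nil))))))) (Pq.cons (Pq.L [] 265 (Pf.C 3 98690))
 (Pq.cons (Pq.L [] 265 (Pf.C 8 98690))
 Pq.nil))))))) (Pq.cons (Pq.L [] 2247 (Pf.C 14 0xa0c104))
 (Pq.cons (Pq.D 4 (Pq.cons (Pq.L [] 4427 (Pf.C 14 0xc0c104))
 (Pq.cons (Pq.D 5 (Pq.cons (Pq.L [] 0x5801c (Pf.C 16 0xa1c302))
 (Pq.cons (Pq.L [] 8787 (Pf.C 14 0xe0c104))
 (Pq.cons (Pq.L [] 0x5801c (Pf.C 16 0xa1c302))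
 (Pq.cons (Pq.L [] 8787 (Pf.C 16 0xe0c104))
 (Pq.cons (Pq.L [] 0x4301a (Pf.C 14 0x81c106))
 (Pq.cons (Pq.L [] 529 (Pf.C 43 0x1c182))
 Pq.nil))))))) (Pq.cons (Pq.L [] 4427 (Pf.C 14 0xc0c104))
 (Pq.cons (Pq.L [0,1] 39363 (Pf.B 6 1 (Pf.B 6 0 (Pf.B 5 1 (Pf.B 5 0 (Pf.B 4 0 (Pf.B 2 0 (Pf.C 16 49412) (Pf.B 2 1 (Pf.C 7 16386) (Pf.C 4 130))) (Pf.C 17 0x60614004)) (Pf.C 6 16389)) (Pf.C 11 16389)) (Pf.C 6 16390)) (Pf.C 11 16390)))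
 (Pq.cons (Pq.L [] 265 (Pf.C 3 98690))
 (Pq.cons (Pq.L [] 265 (Pf.C 8 98690))
 Pq.nil))))))) (Pq.cons (Pq.L [] 133 (Pf.C 3 82306))
 (Pq.cons (Pq.L [] 133 (Pf.C 8 82306))
 Pq.nil))))))) (Pq.cons (Pq.L [] 64 (Pf.C 48 388))
 (Pq.cons (Pq.D 3 (Pq.cons (Pq.D 4 (Pq.cons (Pq.L [] 1 (Pf.W 49 5 [] [2,3] (Pf.cons (Pf.B 9 3 (Pf.B 9 2 (Pf.C 43 0x24182) (Pf.C 50 1154)) (Pf.C 40 1155)) Pf.nil)))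
 (Pq.cons (Pq.L [] 33165 (Pf.C 14 0xa0c106))
 (Pq.cons (Pq.L [] 256 (Pf.C 48 390))
 (Pq.cons (Pq.L [] 1 (Pf.W 49 5 [] [2,3] (Pf.cons (Pf.B 9 3 (Pf.B 9 2 (Pf.C 43 0x24182) (Pf.C 50 1154)) (Pf.C 40 1155)) Pf.nil)))
 (Pq.cons (Pq.L [] 265 (Pf.C 3 98690))
 (Pq.cons (Pq.L [] 265 (Pf.C 8 98690))
 Pq.nil))))))) (Pq.cons (Pq.D 4 (Pq.cons (Pq.L [] 33165 (Pf.C 14 0xc0c105))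
 (Pq.cons (Pq.D 5 (Pq.cons (Pq.L [] 0x4301a (Pf.C 16 0x81c302))
 (Pq.cons (Pq.L [] 66197 (Pf.C 14 0xe0c105))
 (Pq.cons (Pq.L [] 0x4301a (Pf.C 16 0x81c302))
 (Pq.cons (Pq.L [] 66197 (Pf.C 16 0xe0c105))
 (Pq.cons (Pq.L [] 0x5801c (Pf.C 14 0xa1c106))
 (Pq.cons (Pq.L [] 529 (Pf.C 43 0x1c182))
 Pq.nil))))))) (Pq.cons (Pq.L [] 33165 (Pf.C 14 0xc0c105))
 (Pq.cons (Pq.L [0,1] 39365 (Pf.B 6 1 (Pf.B 6 0 (Pf.B 4 1 (Pf.B 4 0 (Pf.B 5 0 (Pf.B 2 0 (Pf.C 16 49413) (Pf.B 2 1 (Pf.C 7 16386) (Pf.C 4 130))) (Pf.C 17 0x60610005)) (Pf.C 6 16388)) (Pf.C 11 16388)) (Pf.C 6 16390)) (Pf.C 11 16390)))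
 (Pq.cons (Pq.L [] 265 (Pf.C 3 98690))
 (Pq.cons (Pq.L [] 265 (Pf.C 8 98690))
 Pq.nil))))))) (Pq.cons (Pq.L [] 128 (Pf.C 48 389))
 (Pq.cons (Pq.D 4 (Pq.cons (Pq.D 5 (Pq.cons (Pq.L [] 0x4301a (Pf.C 16 0x81c302))
 (Pq.cons (Pq.L [] 0x4301a (Pf.C 16 0x81c302))
 (Pq.cons (Pq.L [] 0x4301a (Pf.C 16 0x81c302))
 (Pq.cons (Pq.L [] 1 (Pf.W 49 6 [] [2,3] (Pf.cons (Pf.B 9 3 (Pf.B 9 2 (Pf.C 43 0x24182) (Pf.C 50 1154)) (Pf.C 40 1155)) Pf.nil)))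
 (Pq.cons (Pq.L [] 8256 (Pf.W 49 6 [] [3,4,7] (Pf.cons (Pf.B 9 7 (Pf.B 9 4 (Pf.B 9 3 (Pf.C 45 0x24184) (Pf.C 40 1155)) (Pf.C 46 0x24384)) (Pf.C 40 1159)) Pf.nil)))
 (Pq.cons (Pq.L [] 529 (Pf.C 43 0x1c182))
 Pq.nil))))))) (Pq.cons (Pq.L [0,1] 39369 (Pf.B 5 1 (Pf.B 5 0 (Pf.B 4 1 (Pf.B 4 0 (Pf.B 6 0 (Pf.B 2 0 (Pf.C 16 49414) (Pf.B 2 1 (Pf.C 7 16386) (Pf.C 4 130))) (Pf.C 17 0x50610006)) (Pf.C 6 16388)) (Pf.C 11 16388)) (Pf.C 6 16389)) (Pf.C 11 16389)))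
 (Pq.cons (Pq.L [] 256 (Pf.C 48 390))
 (Pq.cons (Pq.D 5 (Pq.cons (Pq.L [0,1] 0x58211 (Pf.B 6 1 (Pf.B 5 1 (Pf.B 7 1 (Pf.B 7 0 (Pf.B 2 0 (Pf.C 16 49415) (Pf.B 2 1 (Pf.C 7 16386) (Pf.C 4 130))) (Pf.C 7 16391)) (Pf.C 13 0xc1c085)) (Pf.C 11 16389)) (Pf.C 11 16390)))
 (Pq.cons (Pq.D 6 (Pq.cons (Pq.L [] 0x1c0038 (Pf.C 13 0x101c302))
 (Pq.cons (Pq.L [] 0x1c0038 (Pf.C 13 0x101c302))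
 (Pq.cons (Pq.L [] 0x1c0038 (Pf.C 13 0x101c302))
 (Pq.cons (Pq.L [] 0x1c0038 (Pf.C 13 0x101c302))
 (Pq.cons (Pq.L [] 0x106032 (Pf.C 16 0x820107))
 (Pq.cons (Pq.L [] 1057 (Pf.C 43 0x20182))
 Pq.nil))))))) (Pq.cons (Pq.L [0,1] 0x58211 (Pf.B 6 1 (Pf.B 5 1 (Pf.B 7 1 (Pf.B 7 0 (Pf.B 2 0 (Pf.C 16 49415) (Pf.B 2 1 (Pf.C 7 16386) (Pf.C 4 130))) (Pf.C 7 16391)) (Pf.C 13 0xc1c085)) (Pf.C 11 16389)) (Pf.C 11 16390)))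
 (Pq.cons (Pq.L [] 0x40000 (Pf.C 42 902))
 (Pq.cons (Pq.D 6 (Pq.cons (Pq.L [] 0x136ec0 (Pf.C 17 0x50610407))
 (Pq.cons (Pq.L [] 0x106032 (Pf.C 16 0x81c108))
 (Pq.cons (Pq.L [] 0x136ec0 (Pf.C 17 0x50610407))
 (Pq.cons (Pq.L [] 0x136ec0 (Pf.C 17 0x50610407))
 (Pq.cons (Pq.L [] 0x100030 (Pf.C 3 0x20382))
 (Pq.cons (Pq.L [] 0x100030 (Pf.C 8 0x20382))
 Pq.nil))))))) (Pq.cons (Pq.L [] 529 (Pf.C 43 0x1c182))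
 Pq.nil))))))) (Pq.cons (Pq.L [] 265 (Pf.C 3 98690))
 (Pq.cons (Pq.L [] 265 (Pf.C 8 98690))
 Pq.nil))))))) (Pq.cons (Pq.L [] 133 (Pf.C 3 82306))
 (Pq.cons (Pq.L [] 133 (Pf.C 8 82306))
 Pq.nil))))))) (Pq.cons (Pq.L [] 67 (Pf.C 3 65922))
 (Pq.cons (Pq.L [] 67 (Pf.C 8 65922))
 Pq.nil))))))) (Pq.cons (Pq.D 2 (Pq.cons (Pq.D 3 (Pq.cons (Pq.L [] 2247 (Pf.C 14 0xa0c202))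
 (Pq.cons (Pq.L [] 2247 (Pf.C 14 0xa0c202))
 (Pq.cons (Pq.D 4 (Pq.cons (Pq.L [] 4427 (Pf.C 14 0xc0c202))
 (Pq.cons (Pq.L [] 4427 (Pf.C 14 0xc0c202))
 (Pq.cons (Pq.D 5 (Pq.cons (Pq.L [] 0x40319 (Pf.C 15 0x61c302))
 (Pq.cons (Pq.L [] 0x40319 (Pf.C 15 0x61c302))
 (Pq.cons (Pq.L [] 0x40319 (Pf.C 14 0xc1c182))
 (Pq.cons (Pq.L [] 0x40319 (Pf.C 15 0x61c302))
 (Pq.cons (Pq.L [] 529 (Pf.C 43 50050))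
 (Pq.cons (Pq.L [0,1] 99200 (Pf.B 7 1 (Pf.B 3 1 (Pf.B 5 1 (Pf.C 16 0x21c283) (Pf.B 6 1 (Pf.C 15 0x614086) (Pf.B 6 0 (Pf.C 7 134) (Pf.C 4 16390)))) (Pf.C 4 131)) (Pf.C 4 135)))
 Pq.nil))))))) (Pq.cons (Pq.D 5 (Pq.cons (Pq.D 6 (Pq.cons (Pq.L [] 0x1c0038 (Pf.C 13 0x101c302))
 (Pq.cons (Pq.L [] 0x1c0038 (Pf.C 13 0x101c302))
 (Pq.cons (Pq.L [] 0x1c0038 (Pf.C 13 0x101c302))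
 (Pq.cons (Pq.L [] 0x1c0038 (Pf.C 13 0x101c302))
 (Pq.cons (Pq.L [] 1057 (Pf.C 43 50178))
 (Pq.cons (Pq.L [] 0x130034 (Pf.C 14 0xe20282))
 Pq.nil))))))) (Pq.cons (Pq.D 6 (Pq.cons (Pq.L [] 0x1c0038 (Pf.C 13 0x101c302))
 (Pq.cons (Pq.L [] 0x1c0038 (Pf.C 13 0x101c302))
 (Pq.cons (Pq.L [] 0x1c0038 (Pf.C 13 0x101c302))
 (Pq.cons (Pq.L [] 0x1c0038 (Pf.C 13 0x101c302))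
 (Pq.cons (Pq.L [] 1057 (Pf.C 43 50178))
 (Pq.cons (Pq.L [] 0x130034 (Pf.C 14 0xe20282))
 Pq.nil))))))) (Pq.cons (Pq.L [] 8787 (Pf.C 14 0xe0c202))
 (Pq.cons (Pq.L [] 8787 (Pf.C 16 0xe10182))
 (Pq.cons (Pq.L [] 529 (Pf.C 43 50050))
 (Pq.cons (Pq.L [0,1] 66176 (Pf.B 7 1 (Pf.B 3 1 (Pf.B 5 1 (Pf.C 16 0x21c283) (Pf.B 5 0 (Pf.C 7 133) (Pf.C 4 16389))) (Pf.C 4 131)) (Pf.C 4 135)))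
 Pq.nil))))))) (Pq.cons (Pq.L [] 265 (Pf.C 8 49922))
 (Pq.cons (Pq.L [] 33165 (Pf.C 14 0xa18182))
 Pq.nil))))))) (Pq.cons (Pq.D 4 (Pq.cons (Pq.L [] 4427 (Pf.C 14 0xc0c202))
 (Pq.cons (Pq.L [] 4427 (Pf.C 14 0xc0c202))
 (Pq.cons (Pq.D 5 (Pq.cons (Pq.L [] 0x40319 (Pf.C 15 0x61c302))
 (Pq.cons (Pq.L [] 0x40319 (Pf.C 15 0x61c302))
 (Pq.cons (Pq.L [] 0x40319 (Pf.C 14 0xc1c182))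
 (Pq.cons (Pq.L [] 0x40319 (Pf.C 15 0x61c302))
 (Pq.cons (Pq.L [] 529 (Pf.C 43 50050))
 (Pq.cons (Pq.L [0,1] 0x5b940 (Pf.B 7 1 (Pf.B 5 1 (Pf.B 6 1 (Pf.B 4 1 (Pf.B 3 1 (Pf.C 16 0x210186) (Pf.C 4 131)) (Pf.C 15 0xe04205)) (Pf.C 15 0xe04305)) (Pf.C 9 0x1c085)) (Pf.C 4 135)))
 Pq.nil))))))) (Pq.cons (Pq.L [0,1] 33231 (Pf.B 6 1 (Pf.B 5 1 (Pf.B 3 1 (Pf.B 2 1 (Pf.B 4 1 (Pf.C 16 0x20c202) (Pf.B 4 0 (Pf.C 7 132) (Pf.C 4 16388))) (Pf.C 17 0x60614082)) (Pf.C 4 131)) (Pf.C 11 16389)) (Pf.C 11 16390)))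
 (Pq.cons (Pq.L [] 265 (Pf.C 8 49922))
 (Pq.cons (Pq.L [] 4427 (Pf.C 14 0xc0c202))
 Pq.nil))))))) (Pq.cons (Pq.L [] 133 (Pf.C 8 49794))
 (Pq.cons (Pq.L [] 2247 (Pf.C 14 0xa0c202))
 Pq.nil))))))) (Pq.cons (Pq.L [] 64 (Pf.C 50 388))
 (Pq.cons (Pq.D 3 (Pq.cons (Pq.D 4 (Pq.cons (Pq.L [] 33165 (Pf.C 14 0xc0c282))
 (Pq.cons (Pq.L [] 33165 (Pf.C 14 0xc0c282))
 (Pq.cons (Pq.D 5 (Pq.cons (Pq.L [] 0x40319 (Pf.C 15 0x61c302))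
 (Pq.cons (Pq.L [] 0x40319 (Pf.C 15 0x61c302))
 (Pq.cons (Pq.L [] 0x40319 (Pf.C 14 0xc1c182))
 (Pq.cons (Pq.L [] 0x40319 (Pf.C 15 0x61c302))
 (Pq.cons (Pq.L [] 529 (Pf.C 43 50050))
 (Pq.cons (Pq.L [0,1] 0x58280 (Pf.B 7 1 (Pf.B 3 1 (Pf.B 5 1 (Pf.C 16 0x20c287) (Pf.B 6 1 (Pf.C 15 0xe14086) (Pf.B 6 0 (Pf.C 7 134) (Pf.C 4 16390)))) (Pf.C 4 131)) (Pf.C 4 135)))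
 Pq.nil))))))) (Pq.cons (Pq.D 5 (Pq.cons (Pq.D 6 (Pq.cons (Pq.L [] 0x1c0038 (Pf.C 13 0x101c302))
 (Pq.cons (Pq.L [] 0x1c0038 (Pf.C 13 0x101c302))
 (Pq.cons (Pq.L [] 0x1c0038 (Pf.C 13 0x101c302))
 (Pq.cons (Pq.L [] 0x1c0038 (Pf.C 13 0x101c302))
 (Pq.cons (Pq.L [] 1057 (Pf.C 43 50178))
 (Pq.cons (Pq.L [] 0x106032 (Pf.C 14 0xe20202))
 Pq.nil))))))) (Pq.cons (Pq.D 6 (Pq.cons (Pq.L [] 0x1c0038 (Pf.C 13 0x101c302))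
 (Pq.cons (Pq.L [] 0x1c0038 (Pf.C 13 0x101c302))
 (Pq.cons (Pq.L [] 0x1c0038 (Pf.C 13 0x101c302))
 (Pq.cons (Pq.L [] 0x1c0038 (Pf.C 13 0x101c302))
 (Pq.cons (Pq.L [] 1057 (Pf.C 43 50178))
 (Pq.cons (Pq.L [] 0x106032 (Pf.C 14 0xe20202))
 Pq.nil))))))) (Pq.cons (Pq.L [] 66197 (Pf.C 14 0xe0c282))
 (Pq.cons (Pq.L [] 66197 (Pf.C 16 0xe14182))
 (Pq.cons (Pq.L [] 529 (Pf.C 43 50050))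
 (Pq.cons (Pq.L [0,1] 66176 (Pf.B 7 1 (Pf.B 3 1 (Pf.B 5 1 (Pf.C 16 0x20c287) (Pf.B 5 0 (Pf.C 7 133) (Pf.C 4 16389))) (Pf.C 4 131)) (Pf.C 4 135)))
 Pq.nil))))))) (Pq.cons (Pq.L [] 265 (Pf.C 8 49922))
 (Pq.cons (Pq.L [] 4427 (Pf.C 14 0x818182))
 Pq.nil))))))) (Pq.cons (Pq.L [] 128 (Pf.C 50 389))
 (Pq.cons (Pq.D 4 (Pq.cons (Pq.D 5 (Pq.cons (Pq.L [] 0x40319 (Pf.C 14 0xe18182))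
 (Pq.cons (Pq.L [] 0x40319 (Pf.C 14 0xe18182))
 (Pq.cons (Pq.L [] 0x40000 (Pf.C 2 902))
 (Pq.cons (Pq.L [0,1] 0x58380 (Pf.B 7 1 (Pf.B 3 1 (Pf.B 5 1 (Pf.B 6 1 (Pf.C 16 0x20c305) (Pf.C 13 0xe18085)) (Pf.C 15 0x604287)) (Pf.C 4 131)) (Pf.C 11 16391)))
 (Pq.cons (Pq.L [] 529 (Pf.C 43 50050))
 (Pq.cons (Pq.L [] 0x40319 (Pf.C 14 0xe18182))
 Pq.nil))))))) (Pq.cons (Pq.L [] 256 (Pf.C 50 390))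
 (Pq.cons (Pq.D 5 (Pq.cons (Pq.L [] 0x40319 (Pf.C 15 0x61c302))
 (Pq.cons (Pq.L [] 0x40319 (Pf.C 15 0x61c302))
 (Pq.cons (Pq.L [] 0x40319 (Pf.C 14 0xc1c182))
 (Pq.cons (Pq.L [] 0x40319 (Pf.C 15 0x61c302))
 (Pq.cons (Pq.L [] 529 (Pf.C 43 50050))
 (Pq.cons (Pq.L [] 75798 (Pf.C 14 0xa1c202))
 Pq.nil))))))) (Pq.cons (Pq.D 5 (Pq.cons (Pq.D 6 (Pq.cons (Pq.L [] 0x1c0038 (Pf.C 13 0x101c302))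
 (Pq.cons (Pq.L [] 0x1c0038 (Pf.C 13 0x101c302))
 (Pq.cons (Pq.L [] 0x1c0038 (Pf.C 13 0x101c302))
 (Pq.cons (Pq.L [] 0x1c0038 (Pf.C 13 0x101c302))
 (Pq.cons (Pq.L [] 1057 (Pf.C 43 50178))
 (Pq.cons (Pq.L [] 0x24826 (Pf.C 14 0xa20202))
 Pq.nil))))))) (Pq.cons (Pq.D 6 (Pq.cons (Pq.L [] 0x1c0038 (Pf.C 13 0x101c302))
 (Pq.cons (Pq.L [] 0x1c0038 (Pf.C 13 0x101c302))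
 (Pq.cons (Pq.L [] 0x1c0038 (Pf.C 13 0x101c302))
 (Pq.cons (Pq.L [] 0x1c0038 (Pf.C 13 0x101c302))
 (Pq.cons (Pq.L [] 1057 (Pf.C 43 50178))
 (Pq.cons (Pq.L [] 0x24826 (Pf.C 14 0xa20202))
 Pq.nil))))))) (Pq.cons (Pq.L [0,1] 0x50380 (Pf.B 6 0 (Pf.B 7 0 (Pf.B 7 1 (Pf.B 3 1 (Pf.B 5 1 (Pf.C 16 0x21c185) (Pf.B 5 0 (Pf.C 7 133) (Pf.C 4 16389))) (Pf.C 4 131)) (Pf.C 7 135)) (Pf.C 0 0xc0c380)) (Pf.C 4 771)))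
 (Pq.cons (Pq.L [] 0x40000 (Pf.C 42 902))
 (Pq.cons (Pq.L [] 529 (Pf.C 43 50050))
 (Pq.cons (Pq.L [] 75798 (Pf.C 14 0xa1c202))
 Pq.nil))))))) (Pq.cons (Pq.L [] 265 (Pf.C 8 49922))
 (Pq.cons (Pq.L [] 4427 (Pf.C 14 0x818182))
 Pq.nil))))))) (Pq.cons (Pq.D 4 (Pq.cons (Pq.D 5 (Pq.cons (Pq.L [] 0x40319 (Pf.C 14 0xe18182))
 (Pq.cons (Pq.L [] 0x40319 (Pf.C 14 0xe18182))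
 (Pq.cons (Pq.L [] 0x5801c (Pf.C 16 0xa1c302))
 (Pq.cons (Pq.L [0,1] 0x5b340 (Pf.B 7 1 (Pf.B 5 1 (Pf.B 6 1 (Pf.B 3 1 (Pf.B 4 1 (Pf.C 16 0x218184) (Pf.C 15 0x604207)) (Pf.C 4 131)) (Pf.C 13 0xe18085)) (Pf.C 11 16389)) (Pf.C 11 16391)))
 (Pq.cons (Pq.L [] 529 (Pf.C 43 50050))
 (Pq.cons (Pq.L [] 0x40319 (Pf.C 14 0xe18182))
 Pq.nil))))))) (Pq.cons (Pq.L [] 256 (Pf.C 50 390))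
 (Pq.cons (Pq.D 5 (Pq.cons (Pq.L [] 0x40319 (Pf.C 15 0x61c302))
 (Pq.cons (Pq.L [] 0x40319 (Pf.C 15 0x61c302))
 (Pq.cons (Pq.L [] 0x40319 (Pf.C 14 0xc1c182))
 (Pq.cons (Pq.L [] 0x40319 (Pf.C 15 0x61c302))
 (Pq.cons (Pq.L [] 529 (Pf.C 43 50050))
 (Pq.cons (Pq.L [] 75798 (Pf.C 16 0xa1c202))
 Pq.nil))))))) (Pq.cons (Pq.D 5 (Pq.cons (Pq.L [0,1] 0xfa7ff (Pf.B 6 1 (Pf.B 5 1 (Pf.B 7 1 (Pf.B 7 0 (Pf.B 3 1 (Pf.B 4 1 (Pf.B 2 1 (Pf.B 2 0 (Pf.B 8 3 (Pf.B 8 2 (Pf.W 47 2 [] [0,4,7] (Pf.cons (Pf.B 9 7 (Pf.C 16 33927) (Pf.B 9 4 (Pf.C 14 0xe24104) (Pf.C 48 1156))) Pf.nil)) (Pf.C 17 0x60614108)) (Pf.W 47 2 [] [0,4,7] (Pf.cons (Pf.B 9 7 (Pf.C 16 33927) (Pf.B 9 4 (Pf.C 14 0xe24104) (Pf.C 48 1156))) Pf.nil))) (Pf.C 7 16386))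 (Pf.C 15 0x604104)) (Pf.C 15 0x604207)) (Pf.C 4 131)) (Pf.C 7 16391)) (Pf.C 13 0xc1c085)) (Pf.C 11 16389)) (Pf.C 11 16390)))
 (Pq.cons (Pq.D 6 (Pq.cons (Pq.L [] 0x1c0038 (Pf.C 13 0x101c302))
 (Pq.cons (Pq.L [] 0x1c0038 (Pf.C 13 0x101c302))
 (Pq.cons (Pq.L [] 0x1c0038 (Pf.C 13 0x101c302))
 (Pq.cons (Pq.L [] 0x1c0038 (Pf.C 13 0x101c302))
 (Pq.cons (Pq.L [] 1057 (Pf.C 43 50178))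
 (Pq.cons (Pq.L [] 0x106032 (Pf.C 14 0xe20202))
 Pq.nil))))))) (Pq.cons (Pq.L [0,1] 0x4bbc0 (Pf.B 6 1 (Pf.B 6 0 (Pf.B 7 0 (Pf.B 7 1 (Pf.B 5 1 (Pf.B 3 1 (Pf.B 4 1 (Pf.C 16 0x21c184) (Pf.C 17 0x60614084)) (Pf.C 4 131)) (Pf.C 11 16389)) (Pf.C 7 135)) (Pf.C 0 0xc0c380)) (Pf.C 4 771)) (Pf.C 11 16390)))
 (Pq.cons (Pq.L [] 0x40000 (Pf.C 42 902))
 (Pq.cons (Pq.L [] 529 (Pf.C 43 50050))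
 (Pq.cons (Pq.L [] 75798 (Pf.C 16 0xa1c202))
 Pq.nil))))))) (Pq.cons (Pq.L [] 265 (Pf.C 8 49922))
 (Pq.cons (Pq.L [] 4427 (Pf.C 14 0x818182))
 Pq.nil))))))) (Pq.cons (Pq.L [] 133 (Pf.C 8 49794))
 (Pq.cons (Pq.L [] 2247 (Pf.C 14 0x814182))
 Pq.nil))))))) (Pq.cons (Pq.D 3 (Pq.cons (Pq.D 4 (Pq.cons (Pq.L [] 33165 (Pf.C 14 0xc0c282))
 (Pq.cons (Pq.L [] 33165 (Pf.C 14 0xc0c282))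
 (Pq.cons (Pq.D 5 (Pq.cons (Pq.L [] 0x40319 (Pf.C 15 0x61c302))
 (Pq.cons (Pq.L [] 0x40319 (Pf.C 15 0x61c302))
 (Pq.cons (Pq.L [] 0x40319 (Pf.C 14 0xc1c182))
 (Pq.cons (Pq.L [] 0x40319 (Pf.C 15 0x61c302))
 (Pq.cons (Pq.L [] 529 (Pf.C 43 50050))
 (Pq.cons (Pq.L [0,1] 0x5b980 (Pf.B 7 1 (Pf.B 4 1 (Pf.B 6 1 (Pf.B 5 1 (Pf.B 3 1 (Pf.C 16 0x214186) (Pf.C 4 131)) (Pf.C 15 0xe04284)) (Pf.C 15 0xe04304)) (Pf.C 9 0x1c084)) (Pf.C 4 135)))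
 Pq.nil))))))) (Pq.cons (Pq.L [0,1] 4559 (Pf.B 6 1 (Pf.B 4 1 (Pf.B 3 1 (Pf.B 2 1 (Pf.B 5 1 (Pf.C 16 0x20c282) (Pf.B 5 0 (Pf.C 7 133) (Pf.C 4 16389))) (Pf.C 17 0x60610082)) (Pf.C 4 131)) (Pf.C 11 16388)) (Pf.C 11 16390)))
 (Pq.cons (Pq.L [] 265 (Pf.C 8 49922))
 (Pq.cons (Pq.L [] 33165 (Pf.C 14 0xc0c282))
 Pq.nil))))))) (Pq.cons (Pq.L [] 128 (Pf.C 50 389))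
 (Pq.cons (Pq.D 4 (Pq.cons (Pq.D 5 (Pq.cons (Pq.L [] 0x40319 (Pf.C 14 0xe18182))
 (Pq.cons (Pq.L [] 0x40319 (Pf.C 14 0xe18182))
 (Pq.cons (Pq.L [] 0x4301a (Pf.C 16 0x81c302))
 (Pq.cons (Pq.L [0,1] 0x5b380 (Pf.B 7 1 (Pf.B 4 1 (Pf.B 6 1 (Pf.B 3 1 (Pf.B 5 1 (Pf.C 16 0x218185) (Pf.C 15 0x604287)) (Pf.C 4 131)) (Pf.C 13 0xe18084)) (Pf.C 11 16388)) (Pf.C 11 16391)))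
 (Pq.cons (Pq.L [] 529 (Pf.C 43 50050))
 (Pq.cons (Pq.L [] 0x40319 (Pf.C 14 0xe18182))
 Pq.nil))))))) (Pq.cons (Pq.L [] 256 (Pf.C 50 390))
 (Pq.cons (Pq.D 5 (Pq.cons (Pq.L [] 0x40319 (Pf.C 15 0x61c302))
 (Pq.cons (Pq.L [] 0x40319 (Pf.C 15 0x61c302))
 (Pq.cons (Pq.L [] 0x40319 (Pf.C 14 0xc1c182))
 (Pq.cons (Pq.L [] 0x40319 (Pf.C 15 0x61c302))
 (Pq.cons (Pq.L [] 529 (Pf.C 43 50050))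
 (Pq.cons (Pq.L [] 75798 (Pf.C 16 0x81c282))
 Pq.nil))))))) (Pq.cons (Pq.D 5 (Pq.cons (Pq.L [0,1] 0xd77ff (Pf.B 6 1 (Pf.B 4 1 (Pf.B 7 1 (Pf.B 7 0 (Pf.B 3 1 (Pf.B 5 1 (Pf.B 2 1 (Pf.B 2 0 (Pf.B 8 3 (Pf.B 8 2 (Pf.W 47 2 [] [0,5,7] (Pf.cons (Pf.B 9 7 (Pf.C 16 33927) (Pf.B 9 5 (Pf.C 14 0xe24105) (Pf.C 48 1157))) Pf.nil)) (Pf.C 17 0x60610108)) (Pf.W 47 2 [] [0,5,7] (Pf.cons (Pf.B 9 7 (Pf.C 16 33927) (Pf.B 9 5 (Pf.C 14 0xe24105) (Pf.C 48 1157))) Pf.nil))) (Pf.C 7 16386)) (Pf.C 15 0x604105)) (Pf.C 15 0x604287)) (Pf.C 4 131)) (Pf.C 7 16391)) (Pf.C 13 0xc1c084)) (Pf.C 11 16388)) (Pf.C 11 16390)))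
 (Pq.cons (Pq.D 6 (Pq.cons (Pq.L [] 0x1c0038 (Pf.C 13 0x101c302))
 (Pq.cons (Pq.L [] 0x1c0038 (Pf.C 13 0x101c302))
 (Pq.cons (Pq.L [] 0x1c0038 (Pf.C 13 0x101c302))
 (Pq.cons (Pq.L [] 0x1c0038 (Pf.C 13 0x101c302))
 (Pq.cons (Pq.L [] 1057 (Pf.C 43 50178))
 (Pq.cons (Pq.L [] 0x130034 (Pf.C 14 0xe20282))
 Pq.nil))))))) (Pq.cons (Pq.L [0,1] 0x59bc0 (Pf.B 6 1 (Pf.B 6 0 (Pf.B 7 0 (Pf.B 7 1 (Pf.B 4 1 (Pf.B 3 1 (Pf.B 5 1 (Pf.C 16 0x21c185) (Pf.C 17 0x60610085)) (Pf.C 4 131)) (Pf.C 11 16388)) (Pf.C 7 135)) (Pf.C 0 0xc0c380)) (Pf.C 4 771)) (Pf.C 11 16390)))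
 (Pq.cons (Pq.L [] 0x40000 (Pf.C 42 902))
 (Pq.cons (Pq.L [] 529 (Pf.C 43 50050))
 (Pq.cons (Pq.L [] 75798 (Pf.C 16 0x81c282))
 Pq.nil))))))) (Pq.cons (Pq.L [] 265 (Pf.C 8 49922))
 (Pq.cons (Pq.L [] 33165 (Pf.C 14 0xa18182))
 Pq.nil))))))) (Pq.cons (Pq.D 4 (Pq.cons (Pq.L [0,1] 2511 (Pf.B 5 1 (Pf.B 4 1 (Pf.B 3 1 (Pf.B 2 1 (Pf.B 6 1 (Pf.C 16 0x20c302) (Pf.B 6 0 (Pf.C 7 134) (Pf.C 4 16390))) (Pf.C 17 0x50610082)) (Pf.C 4 131)) (Pf.C 11 16388)) (Pf.C 11 16389)))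
 (Pq.cons (Pq.L [] 256 (Pf.C 50 390))
 (Pq.cons (Pq.D 5 (Pq.cons (Pq.L [] 0x40319 (Pf.C 15 0x61c302))
 (Pq.cons (Pq.L [] 0x40319 (Pf.C 15 0x61c302))
 (Pq.cons (Pq.L [] 0x40319 (Pf.C 14 0xc1c182))
 (Pq.cons (Pq.L [] 0x40319 (Pf.C 15 0x61c302))
 (Pq.cons (Pq.L [] 529 (Pf.C 43 50050))
 (Pq.cons (Pq.L [] 0x24cf7 (Pf.B 8 3 (Pf.B 8 2 (Pf.W 47 2 [] [7] (Pf.cons (Pf.B 9 7 (Pf.C 43 0x1c482) (Pf.C 40 905)) Pf.nil)) (Pf.C 17 0x50610108)) (Pf.W 47 2 [] [7] (Pf.cons (Pf.B 9 7 (Pf.C 43 0x1c482) (Pf.C 40 905)) Pf.nil))))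
 Pq.nil))))))) (Pq.cons (Pq.D 5 (Pq.cons (Pq.L [] 0x136ec1 (Pf.B 8 3 (Pf.C 17 0x50610388) (Pf.W 47 2 [] [3] (Pf.cons (Pf.B 9 3 (Pf.C 43 50306) (Pf.C 40 393)) Pf.nil))))
 (Pq.cons (Pq.D 6 (Pq.cons (Pq.L [] 0x1c0038 (Pf.C 13 0x101c302))
 (Pq.cons (Pq.L [] 0x1c0038 (Pf.C 13 0x101c302))
 (Pq.cons (Pq.L [] 0x1c0038 (Pf.C 13 0x101c302))
 (Pq.cons (Pq.L [] 0x1c0038 (Pf.C 13 0x101c302))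
 (Pq.cons (Pq.L [] 1057 (Pf.C 43 50178))
 (Pq.cons (Pq.L [] 0x106032 (Pf.C 16 0x820382))
 Pq.nil))))))) (Pq.cons (Pq.L [0,1] 0x40bd7 (Pf.B 6 0 (Pf.B 7 0 (Pf.B 7 1 (Pf.B 5 1 (Pf.B 4 1 (Pf.B 3 1 (Pf.B 2 1 (Pf.C 16 0x21c182) (Pf.C 17 0x50610082)) (Pf.C 4 131)) (Pf.C 11 16388)) (Pf.C 11 16389)) (Pf.C 7 135)) (Pf.C 0 0xc0c380)) (Pf.C 4 771)))
 (Pq.cons (Pq.L [] 0x40000 (Pf.C 42 902))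
 (Pq.cons (Pq.L [] 529 (Pf.C 43 50050))
 (Pq.cons (Pq.L [0,1] 0x1f6ffa (Pf.B 7 1 (Pf.B 6 0 (Pf.B 4 1 (Pf.B 2 1 (Pf.B 2 0 (Pf.B 8 7 (Pf.B 8 2 (Pf.W 47 2 [] [7] (Pf.cons (Pf.B 9 7 (Pf.C 43 0x1c482) (Pf.C 40 905)) Pf.nil)) (Pf.B 8 0 (Pf.C 17 0x60e00108) (Pf.W 47 2 [] [7] (Pf.cons (Pf.B 9 7 (Pf.C 43 0x1c482) (Pf.C 40 905)) Pf.nil)))) (Pf.B 8 3 (Pf.C 17 0x50610388) (Pf.W 47 2 [] [7] (Pf.cons (Pf.B 9 7 (Pf.C 43 0x1c482) (Pf.C 40 905)) Pf.nil)))) (Pf.C 7 16386)) (Pf.C 15 0xe04104)) (Pf.C 9 0x1c084)) (Pf.C 4 771)) (Pf.C 4 135)))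
 Pq.nil))))))) (Pq.cons (Pq.L [] 265 (Pf.C 8 49922))
 (Pq.cons (Pq.L [0] 256 (Pf.C 3 98688))
 Pq.nil))))))) (Pq.cons (Pq.L [] 133 (Pf.C 8 49794))
 (Pq.cons (Pq.L [0] 128 (Pf.C 3 82304))
 Pq.nil))))))) (Pq.cons (Pq.L [] 67 (Pf.C 8 49666))
 (Pq.cons (Pq.L [0] 64 (Pf.C 3 65920))
 Pq.nil))))))) Pq.nil))
theorem e5_o20 : AllRef e5_T e5_G29 (List.drop 4 (List.flatMap (splitP 1) (List.drop 1 (List.take 2 (List.flatMap (splitP 0) (List.drop 1 (applyObl d_T 2 [38,39,40,42,44,46] [0,0,0,0,0,0] [(39,0x100000000000),(40,0x400000000000),(44,0x8000000000),(46,0x10000000000)]))))))) :=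
  chkPq_sound e5_o20c _ (by decide +kernel)
noncomputable def e5_o21c : Pq := (Pq.cons (Pq.D 2 (Pq.cons (Pq.L [] 64 (Pf.C 2 515))
 (Pq.cons (Pq.L [] 64 (Pf.C 2 515))
 (Pq.cons (Pq.L [] 64 (Pf.C 2 515))
 (Pq.cons (Pq.D 3 (Pq.cons (Pq.L [] 2247 (Pf.C 13 0xa0c202))
 (Pq.cons (Pq.L [] 2247 (Pf.C 13 0xa0c202))
 (Pq.cons (Pq.L [] 2247 (Pf.C 13 0xa0c202))
 (Pq.cons (Pq.L [] 2247 (Pf.C 13 0xa0c202))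
 (Pq.cons (Pq.L [0,1] 2247 (Pf.B 4 1 (Pf.B 4 0 (Pf.B 2 0 (Pf.B 3 0 (Pf.C 16 82306) (Pf.C 13 0x80c002)) (Pf.C 15 0xa00104)) (Pf.C 6 16388)) (Pf.C 11 16388)))
 (Pq.cons (Pq.D 4 (Pq.cons (Pq.L [] 4427 (Pf.C 13 0xc0c202))
 (Pq.cons (Pq.L [] 4427 (Pf.C 13 0xc0c202))
 (Pq.cons (Pq.L [] 4427 (Pf.C 13 0xc0c202))
 (Pq.cons (Pq.L [] 4427 (Pf.C 13 0xc0c202))
 (Pq.cons (Pq.L [] 32780 (Pf.C 44 82690))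
 (Pq.cons (Pq.D 5 (Pq.cons (Pq.L [] 66197 (Pf.C 14 0x614107))
 (Pq.cons (Pq.L [] 66197 (Pf.C 14 0x614107))
 (Pq.cons (Pq.L [] 0x40319 (Pf.C 14 0x618107))
 (Pq.cons (Pq.L [] 0x50000 (Pf.W 47 3 [] [5,6,7] (Pf.cons (Pf.B 9 6 (Pf.B 9 7 (Pf.C 46 99463) (Pf.B 9 5 (Pf.C 45 83079) (Pf.C 40 649))) (Pf.C 40 777)) Pf.nil)))
 (Pq.cons (Pq.L [] 0x40018 (Pf.C 8 0x1c302))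
 (Pq.cons (Pq.L [] 0x40018 (Pf.C 3 0x1c302))
 Pq.nil))))))) Pq.nil))))))) Pq.nil))))))) (Pq.cons (Pq.D 3 (Pq.cons (Pq.L [] 2247 (Pf.C 14 0xa0c202))
 (Pq.cons (Pq.L [] 128 (Pf.C 2 643))
 (Pq.cons (Pq.L [] 2247 (Pf.C 14 0xa0c202))
 (Pq.cons (Pq.L [0,1] 2247 (Pf.B 5 1 (Pf.B 5 0 (Pf.B 2 0 (Pf.B 3 0 (Pf.C 16 65922) (Pf.C 13 0xa0c002)) (Pf.C 15 0x800105)) (Pf.C 6 16389)) (Pf.C 11 16389)))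
 (Pq.cons (Pq.L [] 2247 (Pf.C 14 0xa0c202))
 (Pq.cons (Pq.L [] 2054 (Pf.C 44 82434))
 Pq.nil))))))) (Pq.cons (Pq.D 3 (Pq.cons (Pq.L [] 128 (Pf.C 2 643))
 (Pq.cons (Pq.L [] 128 (Pf.C 2 643))
 (Pq.cons (Pq.L [] 128 (Pf.C 2 643))
 (Pq.cons (Pq.D 4 (Pq.cons (Pq.L [] 33165 (Pf.C 13 0xc0c282))
 (Pq.cons (Pq.L [] 33165 (Pf.C 13 0xc0c282))
 (Pq.cons (Pq.L [] 33165 (Pf.C 13 0xc0c282))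
 (Pq.cons (Pq.L [] 33165 (Pf.C 13 0xc0c282))
 (Pq.cons (Pq.L [] 4106 (Pf.C 44 66306))
 (Pq.cons (Pq.D 5 (Pq.cons (Pq.L [] 8787 (Pf.C 14 0x610107))
 (Pq.cons (Pq.L [] 8787 (Pf.C 14 0x610107))
 (Pq.cons (Pq.L [] 0x40319 (Pf.C 14 0x618107))
 (Pq.cons (Pq.L [] 0x42000 (Pf.W 47 3 [] [4,6,7] (Pf.cons (Pf.B 9 6 (Pf.B 9 7 (Pf.C 46 99463) (Pf.B 9 4 (Pf.C 45 66695) (Pf.C 40 521))) (Pf.C 40 777)) Pf.nil)))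
 (Pq.cons (Pq.L [] 0x40018 (Pf.C 8 0x1c302))
 (Pq.cons (Pq.L [] 0x40018 (Pf.C 3 0x1c302))
 Pq.nil))))))) Pq.nil))))))) (Pq.cons (Pq.L [] 2054 (Pf.C 44 66178))
 (Pq.cons (Pq.D 4 (Pq.cons (Pq.L [] 38926 (Pf.C 14 0xa08206))
 (Pq.cons (Pq.L [] 38926 (Pf.C 14 0xa08206))
 (Pq.cons (Pq.L [] 256 (Pf.C 2 771))
 (Pq.cons (Pq.D 5 (Pq.cons (Pq.L [] 0x40319 (Pf.C 13 0xe18182))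
 (Pq.cons (Pq.L [] 0x40319 (Pf.C 13 0xe18182))
 (Pq.cons (Pq.L [] 0x40319 (Pf.C 13 0xe18182))
 (Pq.cons (Pq.L [] 0x40319 (Pf.C 13 0xe18182))
 (Pq.cons (Pq.L [] 8210 (Pf.C 44 66434))
 (Pq.cons (Pq.L [] 76480 (Pf.C 14 0xa0c207))
 Pq.nil))))))) (Pq.cons (Pq.L [] 4106 (Pf.C 44 66306))
 (Pq.cons (Pq.D 5 (Pq.cons (Pq.L [] 8787 (Pf.C 14 0x610107))
 (Pq.cons (Pq.L [] 8787 (Pf.C 14 0x610107))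
 (Pq.cons (Pq.L [] 0x40319 (Pf.C 14 0x618107))
 (Pq.cons (Pq.L [] 0x50000 (Pf.W 47 3 [] [5,6,7] (Pf.cons (Pf.B 9 6 (Pf.B 9 7 (Pf.C 46 99463) (Pf.B 9 5 (Pf.C 45 83079) (Pf.C 40 649))) (Pf.C 40 777)) Pf.nil)))
 (Pq.cons (Pq.L [] 0x40018 (Pf.C 8 0x1c302))
 (Pq.cons (Pq.L [] 0x40018 (Pf.C 3 0x1c302))
 Pq.nil))))))) Pq.nil))))))) Pq.nil))))))) Pq.nil))))))) (Pq.cons (Pq.D 2 (Pq.cons (Pq.L [] 64 (Pf.C 2 515))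
 (Pq.cons (Pq.L [] 64 (Pf.C 2 515))
 (Pq.cons (Pq.L [] 64 (Pf.C 2 515))
 (Pq.cons (Pq.D 3 (Pq.cons (Pq.L [] 2247 (Pf.C 13 0xa0c202))
 (Pq.cons (Pq.L [] 2247 (Pf.C 13 0xa0c202))
 (Pq.cons (Pq.L [] 2247 (Pf.C 13 0xa0c202))
 (Pq.cons (Pq.L [] 2247 (Pf.C 13 0xa0c202))
 (Pq.cons (Pq.L [] 2247 (Pf.C 15 0xa10182))
 (Pq.cons (Pq.L [] 128 (Pf.C 50 643))
 Pq.nil))))))) (Pq.cons (Pq.D 3 (Pq.cons (Pq.L [] 2247 (Pf.C 15 0x814182))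
 (Pq.cons (Pq.L [] 2247 (Pf.C 14 0x814182))
 (Pq.cons (Pq.L [] 2247 (Pf.C 15 0x814182))
 (Pq.cons (Pq.L [] 2247 (Pf.C 15 0x814182))
 (Pq.cons (Pq.D 4 (Pq.cons (Pq.L [] 4427 (Pf.C 15 0x818182))
 (Pq.cons (Pq.L [] 4427 (Pf.C 14 0x818182))
 (Pq.cons (Pq.L [] 4427 (Pf.C 15 0x818182))
 (Pq.cons (Pq.L [] 4427 (Pf.C 15 0x818182))
 (Pq.cons (Pq.D 5 (Pq.cons (Pq.L [0,1] 0x43000 (Pf.B 7 0 (Pf.C 16 99204) (Pf.B 7 1 (Pf.C 7 16391) (Pf.C 4 135))))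
 (Pq.cons (Pq.L [] 75798 (Pf.C 14 0xa1c202))
 (Pq.cons (Pq.L [] 0x40000 (Pf.C 48 775))
 (Pq.cons (Pq.L [0,1] 9027 (Pf.B 7 1 (Pf.B 7 0 (Pf.B 3 0 (Pf.B 2 0 (Pf.B 8 3 (Pf.W 47 3 [] [0,6] (Pf.cons (Pf.B 9 6 (Pf.C 16 50310) (Pf.C 8 99459)) Pf.nil)) (Pf.B 8 2 (Pf.W 47 3 [] [0,6] (Pf.cons (Pf.B 9 6 (Pf.C 16 50310) (Pf.C 8 99459)) Pf.nil)) (Pf.W 47 3 [] [0,6] (Pf.cons (Pf.B 9 6 (Pf.C 16 50310) (Pf.C 8 99459)) Pf.nil)))) (Pf.C 15 0x800103)) (Pf.C 15 0x800187)) (Pf.C 6 16391)) (Pf.C 11 16391)))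
 (Pq.cons (Pq.L [] 0x40319 (Pf.C 14 0xc1c182))
 (Pq.cons (Pq.L [] 0x40018 (Pf.C 8 99202))
 Pq.nil))))))) (Pq.cons (Pq.L [] 4106 (Pf.C 44 98818))
 Pq.nil))))))) (Pq.cons (Pq.L [] 2054 (Pf.C 44 82434))
 Pq.nil))))))) (Pq.cons (Pq.L [] 64 (Pf.C 50 515))
 Pq.nil))))))) (Pq.cons (Pq.D 2 (Pq.cons (Pq.L [] 64 (Pf.C 2 515))
 (Pq.cons (Pq.L [] 64 (Pf.C 2 515))
 (Pq.cons (Pq.L [] 64 (Pf.C 2 515))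
 (Pq.cons (Pq.D 3 (Pq.cons (Pq.L [] 2247 (Pf.C 13 0xa0c202))
 (Pq.cons (Pq.L [] 2247 (Pf.C 13 0xa0c202))
 (Pq.cons (Pq.L [] 2247 (Pf.C 13 0xa0c202))
 (Pq.cons (Pq.L [] 2247 (Pf.C 13 0xa0c202))
 (Pq.cons (Pq.L [] 128 (Pf.C 48 643))
 (Pq.cons (Pq.L [0,1] 2240 (Pf.B 5 1 (Pf.B 4 1 (Pf.B 3 1 (Pf.C 15 0xa10181) (Pf.B 3 0 (Pf.C 7 131) (Pf.C 4 16387))) (Pf.C 9 82052)) (Pf.C 4 133)))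
 Pq.nil))))))) (Pq.cons (Pq.L [] 64 (Pf.C 48 515))
 (Pq.cons (Pq.D 3 (Pq.cons (Pq.L [] 128 (Pf.C 2 643))
 (Pq.cons (Pq.L [] 128 (Pf.C 2 643))
 (Pq.cons (Pq.L [] 128 (Pf.C 2 643))
 (Pq.cons (Pq.L [0,1] 2240 (Pf.B 5 1 (Pf.B 4 1 (Pf.B 3 1 (Pf.C 15 0x814181) (Pf.B 3 0 (Pf.C 7 131) (Pf.C 4 16387))) (Pf.C 4 132)) (Pf.C 11 16389)))
 (Pq.cons (Pq.L [] 2054 (Pf.C 44 66178))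
 (Pq.cons (Pq.L [] 2247 (Pf.C 14 0xa08203))
 Pq.nil))))))) Pq.nil))))))) (Pq.cons (Pq.D 2 (Pq.cons (Pq.D 3 (Pq.cons (Pq.L [] 2247 (Pf.C 13 0xa0c202))
 (Pq.cons (Pq.L [] 2247 (Pf.C 13 0xa0c202))
 (Pq.cons (Pq.L [] 2247 (Pf.C 13 0xa0c202))
 (Pq.cons (Pq.L [] 2247 (Pf.C 13 0xa0c202))
 (Pq.cons (Pq.D 4 (Pq.cons (Pq.L [] 4427 (Pf.C 13 0xc0c202))
 (Pq.cons (Pq.L [] 4427 (Pf.C 13 0xc0c202))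
 (Pq.cons (Pq.L [] 4427 (Pf.C 13 0xc0c202))
 (Pq.cons (Pq.L [] 4427 (Pf.C 13 0xc0c202))
 (Pq.cons (Pq.D 5 (Pq.cons (Pq.L [0,1] 0x58000 (Pf.B 7 0 (Pf.C 16 99205) (Pf.B 7 1 (Pf.C 7 16391) (Pf.C 4 135))))
 (Pq.cons (Pq.L [0,1] 0x58000 (Pf.B 7 0 (Pf.C 16 82822) (Pf.B 7 1 (Pf.C 7 16391) (Pf.C 4 135))))
 (Pq.cons (Pq.L [] 0x40000 (Pf.C 48 775))
 (Pq.cons (Pq.L [0,1] 79872 (Pf.B 7 1 (Pf.B 7 0 (Pf.B 4 0 (Pf.W 47 4 [] [0,6] (Pf.cons (Pf.B 9 6 (Pf.C 16 66694) (Pf.C 8 99460)) Pf.nil)) (Pf.C 15 0xa00207)) (Pf.C 6 16391)) (Pf.C 11 16391)))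
 (Pq.cons (Pq.L [] 8787 (Pf.C 15 0xe10182))
 (Pq.cons (Pq.L [] 0x40018 (Pf.C 8 99202))
 Pq.nil))))))) (Pq.cons (Pq.L [] 32780 (Pf.C 44 98946))
 Pq.nil))))))) (Pq.cons (Pq.D 4 (Pq.cons (Pq.L [] 4427 (Pf.C 13 0xc0c202))
 (Pq.cons (Pq.L [] 4427 (Pf.C 13 0xc0c202))
 (Pq.cons (Pq.L [] 4427 (Pf.C 13 0xc0c202))
 (Pq.cons (Pq.L [] 4427 (Pf.C 13 0xc0c202))
 (Pq.cons (Pq.L [] 32780 (Pf.C 44 82690))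
 (Pq.cons (Pq.L [] 38926 (Pf.C 14 0xc08284))
 Pq.nil))))))) Pq.nil))))))) (Pq.cons (Pq.D 3 (Pq.cons (Pq.L [] 2247 (Pf.C 13 0xa0c202))
 (Pq.cons (Pq.L [] 2247 (Pf.C 13 0xa0c202))
 (Pq.cons (Pq.L [] 2247 (Pf.C 13 0xa0c202))
 (Pq.cons (Pq.L [] 2247 (Pf.C 13 0xa0c202))
 (Pq.cons (Pq.L [0,1] 2246 (Pf.B 5 1 (Pf.C 9 81921) (Pf.B 3 1 (Pf.B 4 1 (Pf.B 4 0 (Pf.B 2 0 (Pf.C 16 82434) (Pf.B 2 1 (Pf.C 7 16386) (Pf.C 4 130))) (Pf.C 7 16388)) (Pf.C 0 0x614201)) (Pf.C 4 16773))))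
 (Pq.cons (Pq.D 4 (Pq.cons (Pq.L [] 4427 (Pf.C 13 0xc0c202))
 (Pq.cons (Pq.L [] 4427 (Pf.C 13 0xc0c202))
 (Pq.cons (Pq.L [] 4427 (Pf.C 13 0xc0c202))
 (Pq.cons (Pq.L [] 4427 (Pf.C 13 0xc0c202))
 (Pq.cons (Pq.L [] 32780 (Pf.C 44 82690))
 (Pq.cons (Pq.L [] 38926 (Pf.C 14 0xc08284))
 Pq.nil))))))) Pq.nil))))))) (Pq.cons (Pq.D 3 (Pq.cons (Pq.L [] 2247 (Pf.C 13 0xa0c202))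
 (Pq.cons (Pq.L [] 2247 (Pf.C 13 0xa0c202))
 (Pq.cons (Pq.L [] 2247 (Pf.C 13 0xa0c202))
 (Pq.cons (Pq.L [] 2247 (Pf.C 13 0xa0c202))
 (Pq.cons (Pq.D 4 (Pq.cons (Pq.L [] 4427 (Pf.C 13 0xc0c202))
 (Pq.cons (Pq.L [] 4427 (Pf.C 13 0xc0c202))
 (Pq.cons (Pq.L [] 4427 (Pf.C 13 0xc0c202))
 (Pq.cons (Pq.L [] 4427 (Pf.C 13 0xc0c202))
 (Pq.cons (Pq.D 5 (Pq.cons (Pq.L [0,1] 0x58000 (Pf.B 7 0 (Pf.C 16 99205) (Pf.B 7 1 (Pf.C 7 16391) (Pf.C 4 135))))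
 (Pq.cons (Pq.L [0,1] 0x58000 (Pf.B 7 0 (Pf.C 16 82822) (Pf.B 7 1 (Pf.C 7 16391) (Pf.C 4 135))))
 (Pq.cons (Pq.L [] 0x40000 (Pf.C 48 775))
 (Pq.cons (Pq.D 6 (Pq.cons (Pq.L [] 0x130034 (Pf.C 15 0xa20382))
 (Pq.cons (Pq.L [] 0xa802c (Pf.C 14 0xc20282))
 (Pq.cons (Pq.L [] 0x130034 (Pf.C 15 0xa20382))
 (Pq.cons (Pq.L [] 0x130034 (Pf.C 15 0xa20382))
 (Pq.cons (Pq.L [] 17507 (Pf.C 15 0x1010182))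
 (Pq.cons (Pq.L [] 0x20024 (Pf.C 44 0x20282))
 Pq.nil))))))) (Pq.cons (Pq.L [] 8787 (Pf.C 15 0xe10182))
 (Pq.cons (Pq.L [] 0x40018 (Pf.C 8 99202))
 Pq.nil))))))) (Pq.cons (Pq.L [] 32780 (Pf.C 44 98946))
 Pq.nil))))))) (Pq.cons (Pq.D 4 (Pq.cons (Pq.L [] 4427 (Pf.C 13 0xc0c202))
 (Pq.cons (Pq.L [] 4427 (Pf.C 13 0xc0c202))
 (Pq.cons (Pq.L [] 4427 (Pf.C 13 0xc0c202))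
 (Pq.cons (Pq.L [] 4427 (Pf.C 13 0xc0c202))
 (Pq.cons (Pq.L [] 32780 (Pf.C 44 82690))
 (Pq.cons (Pq.L [] 39360 (Pf.C 0 0xc10185))
 Pq.nil))))))) Pq.nil))))))) (Pq.cons (Pq.L [] 64 (Pf.C 42 515))
 (Pq.cons (Pq.D 3 (Pq.cons (Pq.D 4 (Pq.cons (Pq.L [] 33165 (Pf.C 13 0xc0c282))
 (Pq.cons (Pq.L [] 33165 (Pf.C 13 0xc0c282))
 (Pq.cons (Pq.L [] 33165 (Pf.C 13 0xc0c282))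
 (Pq.cons (Pq.L [] 33165 (Pf.C 13 0xc0c282))
 (Pq.cons (Pq.D 5 (Pq.cons (Pq.L [0,1] 0x43000 (Pf.B 7 0 (Pf.C 16 99204) (Pf.B 7 1 (Pf.C 7 16391) (Pf.C 4 135))))
 (Pq.cons (Pq.L [0,1] 0x43000 (Pf.B 7 0 (Pf.C 16 66438) (Pf.B 7 1 (Pf.C 7 16391) (Pf.C 4 135))))
 (Pq.cons (Pq.L [] 0x40000 (Pf.C 48 775))
 (Pq.cons (Pq.L [0,1] 0x1a800 (Pf.B 7 1 (Pf.B 7 0 (Pf.B 5 0 (Pf.W 47 5 [] [0,6] (Pf.cons (Pf.B 9 6 (Pf.C 16 83078) (Pf.C 8 99461)) Pf.nil)) (Pf.C 15 0x800287)) (Pf.C 6 16391)) (Pf.C 11 16391)))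
 (Pq.cons (Pq.L [] 66197 (Pf.C 15 0xe14182))
 (Pq.cons (Pq.L [] 0x40018 (Pf.C 8 99202))
 Pq.nil))))))) (Pq.cons (Pq.L [] 4106 (Pf.C 44 98818))
 Pq.nil))))))) (Pq.cons (Pq.L [0,1] 2246 (Pf.B 4 1 (Pf.C 9 65537) (Pf.B 3 1 (Pf.B 5 1 (Pf.B 5 0 (Pf.B 2 0 (Pf.C 16 82434) (Pf.B 2 1 (Pf.C 7 16386) (Pf.C 4 130))) (Pf.C 7 16389)) (Pf.C 0 0x610281)) (Pf.C 4 16772))))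
 (Pq.cons (Pq.D 4 (Pq.cons (Pq.L [] 33165 (Pf.C 13 0xc0c282))
 (Pq.cons (Pq.L [] 33165 (Pf.C 13 0xc0c282))
 (Pq.cons (Pq.L [] 33165 (Pf.C 13 0xc0c282))
 (Pq.cons (Pq.L [] 33165 (Pf.C 13 0xc0c282))
 (Pq.cons (Pq.D 5 (Pq.cons (Pq.L [0,1] 0x43000 (Pf.B 7 0 (Pf.C 16 99204) (Pf.B 7 1 (Pf.C 7 16391) (Pf.C 4 135))))
 (Pq.cons (Pq.L [0,1] 0x43000 (Pf.B 7 0 (Pf.C 16 66438) (Pf.B 7 1 (Pf.C 7 16391) (Pf.C 4 135))))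
 (Pq.cons (Pq.L [] 0x40000 (Pf.C 48 775))
 (Pq.cons (Pq.D 6 (Pq.cons (Pq.L [] 0x106032 (Pf.C 15 0x820382))
 (Pq.cons (Pq.L [] 0x8502a (Pf.C 14 0xc20202))
 (Pq.cons (Pq.L [] 0x106032 (Pf.C 15 0x820382))
 (Pq.cons (Pq.L [] 0x106032 (Pf.C 15 0x820382))
 (Pq.cons (Pq.L [] 0x204a5 (Pf.C 15 0x1014182))
 (Pq.cons (Pq.L [] 16418 (Pf.C 44 0x20202))
 Pq.nil))))))) (Pq.cons (Pq.L [] 66197 (Pf.C 15 0xe14182))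
 (Pq.cons (Pq.L [] 0x40018 (Pf.C 8 99202))
 Pq.nil))))))) (Pq.cons (Pq.L [] 4106 (Pf.C 44 98818))
 Pq.nil))))))) (Pq.cons (Pq.L [] 128 (Pf.C 42 643))
 (Pq.cons (Pq.D 4 (Pq.cons (Pq.D 5 (Pq.cons (Pq.L [] 0x40319 (Pf.C 13 0xe18182))
 (Pq.cons (Pq.L [] 0x40319 (Pf.C 13 0xe18182))
 (Pq.cons (Pq.L [] 0x40319 (Pf.C 13 0xe18182))
 (Pq.cons (Pq.L [] 0x40319 (Pf.C 13 0xe18182))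
 (Pq.cons (Pq.L [0,1] 0x43000 (Pf.B 6 0 (Pf.C 16 0x1c304) (Pf.B 6 1 (Pf.C 7 16390) (Pf.C 4 134))))
 (Pq.cons (Pq.L [] 8210 (Pf.C 44 0x1c202))
 Pq.nil))))))) (Pq.cons (Pq.L [] 38926 (Pf.C 14 0xa18202))
 (Pq.cons (Pq.D 5 (Pq.cons (Pq.L [] 0x40319 (Pf.C 13 0xe18182))
 (Pq.cons (Pq.L [] 0x40319 (Pf.C 13 0xe18182))
 (Pq.cons (Pq.L [] 0x40319 (Pf.C 13 0xe18182))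
 (Pq.cons (Pq.L [] 0x40319 (Pf.C 13 0xe18182))
 (Pq.cons (Pq.L [] 0x40000 (Pf.C 48 902))
 (Pq.cons (Pq.L [] 8210 (Pf.C 44 0x1c202))
 Pq.nil))))))) (Pq.cons (Pq.L [] 256 (Pf.C 42 771))
 (Pq.cons (Pq.D 5 (Pq.cons (Pq.L [0,1] 0x43000 (Pf.B 7 0 (Pf.C 16 99204) (Pf.B 7 1 (Pf.C 7 16391) (Pf.C 4 135))))
 (Pq.cons (Pq.L [] 75798 (Pf.C 14 0xa1c202))
 (Pq.cons (Pq.L [] 0x40000 (Pf.C 48 775))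
 (Pq.cons (Pq.D 6 (Pq.cons (Pq.L [] 0x106032 (Pf.C 15 0x820382))
 (Pq.cons (Pq.L [] 0x24826 (Pf.C 14 0xa20202))
 (Pq.cons (Pq.L [] 0x106032 (Pf.C 15 0x820382))
 (Pq.cons (Pq.L [] 0x106032 (Pf.C 15 0x820382))
 (Pq.cons (Pq.L [] 0x136ef7 (Pf.C 1 0x2830820382))
 (Pq.cons (Pq.L [] 16418 (Pf.C 44 0x20202))
 Pq.nil))))))) (Pq.cons (Pq.L [0] 0x43000 (Pf.C 16 0x1c304))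
 (Pq.cons (Pq.L [] 0x40018 (Pf.C 8 99202))
 Pq.nil))))))) (Pq.cons (Pq.L [] 4106 (Pf.C 44 98818))
 Pq.nil))))))) (Pq.cons (Pq.L [] 2054 (Pf.C 44 82434))
 Pq.nil))))))) (Pq.cons (Pq.D 3 (Pq.cons (Pq.D 4 (Pq.cons (Pq.L [] 33165 (Pf.C 13 0xc0c282))
 (Pq.cons (Pq.L [] 33165 (Pf.C 13 0xc0c282))
 (Pq.cons (Pq.L [] 33165 (Pf.C 13 0xc0c282))
 (Pq.cons (Pq.L [] 33165 (Pf.C 13 0xc0c282))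
 (Pq.cons (Pq.L [] 4106 (Pf.C 44 66306))
 (Pq.cons (Pq.L [] 38926 (Pf.C 14 0xc08205))
 Pq.nil))))))) (Pq.cons (Pq.D 4 (Pq.cons (Pq.L [] 33165 (Pf.C 13 0xc0c282))
 (Pq.cons (Pq.L [] 33165 (Pf.C 13 0xc0c282))
 (Pq.cons (Pq.L [] 33165 (Pf.C 13 0xc0c282))
 (Pq.cons (Pq.L [] 33165 (Pf.C 13 0xc0c282))
 (Pq.cons (Pq.L [] 4106 (Pf.C 44 66306))
 (Pq.cons (Pq.L [] 38926 (Pf.C 14 0xc08205))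
 Pq.nil))))))) (Pq.cons (Pq.D 4 (Pq.cons (Pq.L [] 33165 (Pf.C 13 0xc0c282))
 (Pq.cons (Pq.L [] 33165 (Pf.C 13 0xc0c282))
 (Pq.cons (Pq.L [] 33165 (Pf.C 13 0xc0c282))
 (Pq.cons (Pq.L [] 33165 (Pf.C 13 0xc0c282))
 (Pq.cons (Pq.L [] 4106 (Pf.C 44 66306))
 (Pq.cons (Pq.L [] 39360 (Pf.C 0 0xc14184))
 Pq.nil))))))) (Pq.cons (Pq.L [] 128 (Pf.C 42 643))
 (Pq.cons (Pq.L [] 2054 (Pf.C 44 66178))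
 (Pq.cons (Pq.D 4 (Pq.cons (Pq.L [] 38926 (Pf.C 14 0xa08206))
 (Pq.cons (Pq.L [] 38926 (Pf.C 14 0xa08206))
 (Pq.cons (Pq.L [] 39360 (Pf.C 0 0xa18184))
 (Pq.cons (Pq.L [] 256 (Pf.C 42 771))
 (Pq.cons (Pq.L [] 4106 (Pf.C 44 66306))
 (Pq.cons (Pq.D 5 (Pq.cons (Pq.L [] 75798 (Pf.C 14 0xa08207))
 (Pq.cons (Pq.L [] 75798 (Pf.C 14 0xa08207))
 (Pq.cons (Pq.L [] 0x5b800 (Pf.C 14 0xa1c206))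
 (Pq.cons (Pq.D 6 (Pq.cons (Pq.L [] 0x24826 (Pf.C 14 0xa08208))
 (Pq.cons (Pq.L [] 0x24826 (Pf.C 14 0xa08208))
 (Pq.cons (Pq.L [] 0xa85ad (Pf.W 53 3 [] [2,5,6,8] (Pf.cons (Pf.B 9 8 (Pf.B 9 2 (Pf.B 9 6 (Pf.C 14 0x1018109) (Pf.B 9 5 (Pf.C 14 0x1014109) (Pf.C 0 0xc0c485))) (Pf.C 2 265)) (Pf.C 2 1033)) (Pf.cons (Pf.B 9 8 (Pf.B 9 6 (Pf.B 9 5 (Pf.C 14 0xc20289) (Pf.C 50 649)) (Pf.C 50 777)) (Pf.C 2 1033)) (Pf.cons (Pf.B 9 8 (Pf.B 9 2 (Pf.B 9 6 (Pf.C 14 0x1018109) (Pf.B 9 5 (Pf.C 14 0x1014109) (Pf.C 0 0xc0c485))) (Pf.C 2 265)) (Pf.C 2 1033)) Pf.nil)))))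
 (Pq.cons (Pq.L [] 0x106673 (Pf.C 17 0x30808407))
 (Pq.cons (Pq.L [] 16418 (Pf.C 44 66562))
 (Pq.cons (Pq.L [] 0x136ec0 (Pf.C 17 0x50610407))
 Pq.nil))))))) (Pq.cons (Pq.L [] 0x40018 (Pf.C 8 0x1c302))
 (Pq.cons (Pq.L [] 0x40018 (Pf.C 3 0x1c302))
 Pq.nil))))))) Pq.nil))))))) Pq.nil))))))) Pq.nil))))))) Pq.nil))))
theorem e5_o21 : AllRef e5_T e5_G29 (List.take 4 (List.flatMap (splitP 1) (List.take 1 (List.drop 2 (List.flatMap (splitP 0) (List.drop 1 (applyObl d_T 2 [38,39,40,42,44,46] [0,0,0,0,0,0] [(39,0x100000000000),(40,0x400000000000),(44,0x8000000000),(46,0x10000000000)]))))))) :=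
  chkPq_sound e5_o21c _ (by decide +kernel)
noncomputable def e5_o22c : Pq := (Pq.cons (Pq.D 2 (Pq.cons (Pq.D 3 (Pq.cons (Pq.L [] 2247 (Pf.C 14 0xa0c202))
 (Pq.cons (Pq.D 4 (Pq.cons (Pq.L [] 4427 (Pf.C 14 0xc0c202))
 (Pq.cons (Pq.D 5 (Pq.cons (Pq.L [] 0x40319 (Pf.C 15 0x61c302))
 (Pq.cons (Pq.L [] 0x40319 (Pf.C 14 0xc1c182))
 (Pq.cons (Pq.L [] 0x40319 (Pf.C 15 0x61c302))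
 (Pq.cons (Pq.L [] 0x40319 (Pf.C 15 0x61c302))
 (Pq.cons (Pq.L [0,1] 99200 (Pf.B 5 0 (Pf.C 16 0x1c283) (Pf.B 6 0 (Pf.C 15 0x614006) (Pf.B 6 1 (Pf.C 7 16390) (Pf.C 4 134)))))
 (Pq.cons (Pq.L [] 529 (Pf.C 44 0x1c182))
 Pq.nil))))))) (Pq.cons (Pq.L [] 4427 (Pf.C 14 0xc0c202))
 (Pq.cons (Pq.D 5 (Pq.cons (Pq.D 6 (Pq.cons (Pq.L [] 0x1c0038 (Pf.C 13 0x101c302))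
 (Pq.cons (Pq.L [] 0x1c0038 (Pf.C 13 0x101c302))
 (Pq.cons (Pq.L [] 0x1c0038 (Pf.C 13 0x101c302))
 (Pq.cons (Pq.L [] 0x1c0038 (Pf.C 13 0x101c302))
 (Pq.cons (Pq.L [] 0x130034 (Pf.C 14 0xe20282))
 (Pq.cons (Pq.L [] 1057 (Pf.C 44 0x20182))
 Pq.nil))))))) (Pq.cons (Pq.L [] 8787 (Pf.C 14 0xe0c202))
 (Pq.cons (Pq.L [] 2240 (Pf.W 49 4 [] [3,5] (Pf.cons (Pf.B 9 5 (Pf.B 9 3 (Pf.C 14 0x610485) (Pf.C 40 1155)) (Pf.C 50 1157)) Pf.nil)))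
 (Pq.cons (Pq.L [] 8787 (Pf.C 16 0xe10182))
 (Pq.cons (Pq.L [0,1] 66176 (Pf.B 5 0 (Pf.C 16 0x1c283) (Pf.B 5 1 (Pf.C 7 16389) (Pf.C 4 133))))
 (Pq.cons (Pq.L [] 529 (Pf.C 44 0x1c182))
 Pq.nil))))))) (Pq.cons (Pq.L [] 33165 (Pf.C 14 0xa18182))
 (Pq.cons (Pq.L [] 265 (Pf.C 8 49922))
 Pq.nil))))))) (Pq.cons (Pq.L [] 2247 (Pf.C 14 0xa0c202))
 (Pq.cons (Pq.D 4 (Pq.cons (Pq.L [] 4427 (Pf.C 14 0xc0c202))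
 (Pq.cons (Pq.D 5 (Pq.cons (Pq.L [] 0x40319 (Pf.C 15 0x61c302))
 (Pq.cons (Pq.L [] 0x40319 (Pf.C 14 0xc1c182))
 (Pq.cons (Pq.L [] 0x40319 (Pf.C 15 0x61c302))
 (Pq.cons (Pq.L [] 0x40319 (Pf.C 15 0x61c302))
 (Pq.cons (Pq.L [0,1] 0x5b940 (Pf.B 5 1 (Pf.B 5 0 (Pf.B 6 0 (Pf.B 4 0 (Pf.C 16 49670) (Pf.C 15 0xe00205)) (Pf.C 15 0xe00305)) (Pf.C 6 16389)) (Pf.C 11 16389)))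
 (Pq.cons (Pq.L [] 529 (Pf.C 44 0x1c182))
 Pq.nil))))))) (Pq.cons (Pq.L [] 4427 (Pf.C 14 0xc0c202))
 (Pq.cons (Pq.L [0,1] 33231 (Pf.B 6 1 (Pf.B 6 0 (Pf.B 5 1 (Pf.B 5 0 (Pf.B 2 0 (Pf.B 4 0 (Pf.C 16 49666) (Pf.B 4 1 (Pf.C 7 16388) (Pf.C 4 132))) (Pf.C 17 0x60614002)) (Pf.C 6 16389)) (Pf.C 11 16389)) (Pf.C 6 16390)) (Pf.C 11 16390)))
 (Pq.cons (Pq.L [] 4427 (Pf.C 14 0xc0c202))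
 (Pq.cons (Pq.L [] 265 (Pf.C 8 49922))
 Pq.nil))))))) (Pq.cons (Pq.L [] 2247 (Pf.C 14 0xa0c202))
 (Pq.cons (Pq.L [] 133 (Pf.C 8 49794))
 Pq.nil))))))) (Pq.cons (Pq.D 3 (Pq.cons (Pq.D 4 (Pq.cons (Pq.L [] 33165 (Pf.C 14 0xc0c282))
 (Pq.cons (Pq.D 5 (Pq.cons (Pq.L [] 0x40319 (Pf.C 15 0x61c302))
 (Pq.cons (Pq.L [] 0x40319 (Pf.C 14 0xc1c182))
 (Pq.cons (Pq.L [] 0x40319 (Pf.C 15 0x61c302))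
 (Pq.cons (Pq.L [] 0x40319 (Pf.C 15 0x61c302))
 (Pq.cons (Pq.L [0,1] 0x58280 (Pf.B 5 0 (Pf.C 16 49799) (Pf.B 6 0 (Pf.C 15 0xe14006) (Pf.B 6 1 (Pf.C 7 16390) (Pf.C 4 134)))))
 (Pq.cons (Pq.L [] 529 (Pf.C 44 0x1c182))
 Pq.nil))))))) (Pq.cons (Pq.L [] 33165 (Pf.C 14 0xc0c282))
 (Pq.cons (Pq.D 5 (Pq.cons (Pq.D 6 (Pq.cons (Pq.L [] 0x1c0038 (Pf.C 13 0x101c302))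
 (Pq.cons (Pq.L [] 0x1c0038 (Pf.C 13 0x101c302))
 (Pq.cons (Pq.L [] 0x1c0038 (Pf.C 13 0x101c302))
 (Pq.cons (Pq.L [] 0x1c0038 (Pf.C 13 0x101c302))
 (Pq.cons (Pq.L [] 0x106032 (Pf.C 14 0xe20202))
 (Pq.cons (Pq.L [] 1057 (Pf.C 44 0x20182))
 Pq.nil))))))) (Pq.cons (Pq.L [] 66197 (Pf.C 14 0xe0c282))
 (Pq.cons (Pq.L [] 2240 (Pf.W 49 5 [] [3,4] (Pf.cons (Pf.B 9 4 (Pf.B 9 3 (Pf.C 14 0x614484) (Pf.C 40 1155)) (Pf.C 50 1156)) Pf.nil)))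
 (Pq.cons (Pq.L [] 66197 (Pf.C 16 0xe14182))
 (Pq.cons (Pq.L [0,1] 66176 (Pf.B 5 0 (Pf.C 16 49799) (Pf.B 5 1 (Pf.C 7 16389) (Pf.C 4 133))))
 (Pq.cons (Pq.L [] 529 (Pf.C 44 0x1c182))
 Pq.nil))))))) (Pq.cons (Pq.L [] 4427 (Pf.C 14 0x818182))
 (Pq.cons (Pq.L [] 265 (Pf.C 8 49922))
 Pq.nil))))))) (Pq.cons (Pq.D 4 (Pq.cons (Pq.D 5 (Pq.cons (Pq.L [] 0x40319 (Pf.C 14 0xe18182))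
 (Pq.cons (Pq.L [] 0x40000 (Pf.C 2 902))
 (Pq.cons (Pq.L [] 0x40319 (Pf.C 14 0xe18182))
 (Pq.cons (Pq.L [0,1] 0x58380 (Pf.B 7 1 (Pf.B 7 0 (Pf.B 5 0 (Pf.B 6 0 (Pf.C 16 49925) (Pf.C 13 0xe18005)) (Pf.C 15 0x600287)) (Pf.C 6 16391)) (Pf.C 11 16391)))
 (Pq.cons (Pq.L [] 0x40319 (Pf.C 14 0xe18182))
 (Pq.cons (Pq.L [] 529 (Pf.C 44 0x1c182))
 Pq.nil))))))) (Pq.cons (Pq.D 5 (Pq.cons (Pq.L [] 0x40319 (Pf.C 15 0x61c302))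
 (Pq.cons (Pq.L [] 0x40319 (Pf.C 14 0xc1c182))
 (Pq.cons (Pq.L [] 0x40319 (Pf.C 15 0x61c302))
 (Pq.cons (Pq.L [] 0x40319 (Pf.C 15 0x61c302))
 (Pq.cons (Pq.L [] 75798 (Pf.C 14 0xa1c202))
 (Pq.cons (Pq.L [] 529 (Pf.C 44 0x1c182))
 Pq.nil))))))) (Pq.cons (Pq.L [] 256 (Pf.C 48 390))
 (Pq.cons (Pq.D 5 (Pq.cons (Pq.D 6 (Pq.cons (Pq.L [] 0x1c0038 (Pf.C 13 0x101c302))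
 (Pq.cons (Pq.L [] 0x1c0038 (Pf.C 13 0x101c302))
 (Pq.cons (Pq.L [] 0x1c0038 (Pf.C 13 0x101c302))
 (Pq.cons (Pq.L [] 0x1c0038 (Pf.C 13 0x101c302))
 (Pq.cons (Pq.L [] 0x24826 (Pf.C 14 0xa20202))
 (Pq.cons (Pq.L [] 1057 (Pf.C 44 0x20182))
 Pq.nil))))))) (Pq.cons (Pq.L [0,1] 0x50380 (Pf.B 6 1 (Pf.B 3 1 (Pf.C 9 49153) (Pf.B 7 1 (Pf.B 7 0 (Pf.B 5 0 (Pf.C 16 0x1c185) (Pf.B 5 1 (Pf.C 7 16389) (Pf.C 4 133))) (Pf.C 7 16391)) (Pf.C 0 0xc0c381))) (Pf.C 11 16390)))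
 (Pq.cons (Pq.D 6 (Pq.cons (Pq.L [] 0x1c0038 (Pf.C 13 0x101c302))
 (Pq.cons (Pq.L [] 0x1c0038 (Pf.C 13 0x101c302))
 (Pq.cons (Pq.L [] 0x1c0038 (Pf.C 13 0x101c302))
 (Pq.cons (Pq.L [] 0x1c0038 (Pf.C 13 0x101c302))
 (Pq.cons (Pq.L [] 0x24826 (Pf.C 14 0xa20202))
 (Pq.cons (Pq.L [] 1057 (Pf.C 44 0x20182))
 Pq.nil))))))) (Pq.cons (Pq.L [] 0x40000 (Pf.C 42 902))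
 (Pq.cons (Pq.L [] 75798 (Pf.C 14 0xa1c202))
 (Pq.cons (Pq.L [] 529 (Pf.C 44 0x1c182))
 Pq.nil))))))) (Pq.cons (Pq.L [] 4427 (Pf.C 14 0x818182))
 (Pq.cons (Pq.L [] 265 (Pf.C 8 49922))
 Pq.nil))))))) (Pq.cons (Pq.L [] 128 (Pf.C 48 389))
 (Pq.cons (Pq.D 4 (Pq.cons (Pq.D 5 (Pq.cons (Pq.L [] 0x40319 (Pf.C 14 0xe18182))
 (Pq.cons (Pq.L [] 0x5801c (Pf.C 16 0xa1c302))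
 (Pq.cons (Pq.L [] 0x40319 (Pf.C 14 0xe18182))
 (Pq.cons (Pq.L [0,1] 0x5b340 (Pf.B 7 1 (Pf.B 7 0 (Pf.B 5 1 (Pf.B 6 1 (Pf.B 6 0 (Pf.B 4 0 (Pf.C 16 98692) (Pf.C 15 0x600207)) (Pf.C 7 16390)) (Pf.C 13 0xe18085)) (Pf.C 11 16389)) (Pf.C 6 16391)) (Pf.C 11 16391)))
 (Pq.cons (Pq.L [] 0x40319 (Pf.C 14 0xe18182))
 (Pq.cons (Pq.L [] 529 (Pf.C 44 0x1c182))
 Pq.nil))))))) (Pq.cons (Pq.D 5 (Pq.cons (Pq.L [] 0x40319 (Pf.C 15 0x61c302))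
 (Pq.cons (Pq.L [] 0x40319 (Pf.C 14 0xc1c182))
 (Pq.cons (Pq.L [] 0x40319 (Pf.C 15 0x61c302))
 (Pq.cons (Pq.L [] 0x40319 (Pf.C 15 0x61c302))
 (Pq.cons (Pq.L [] 75798 (Pf.C 16 0xa1c202))
 (Pq.cons (Pq.L [] 529 (Pf.C 44 0x1c182))
 Pq.nil))))))) (Pq.cons (Pq.L [] 256 (Pf.C 48 390))
 (Pq.cons (Pq.D 5 (Pq.cons (Pq.L [0,1] 0xfffc0 (Pf.B 6 1 (Pf.B 5 1 (Pf.B 7 1 (Pf.B 7 0 (Pf.B 4 0 (Pf.B 8 4 (Pf.W 47 4 [] [0,3,7] (Pf.cons (Pf.B 9 7 (Pf.C 16 66695) (Pf.B 9 3 (Pf.C 14 0xe24203) (Pf.C 8 50308))) Pf.nil)) (Pf.B 8 3 (Pf.C 17 0x60614208) (Pf.W 47 4 [] [0,3,7] (Pf.cons (Pf.B 9 7 (Pf.C 16 66695) (Pf.B 9 3 (Pf.C 14 0xe24203) (Pf.C 8 50308))) Pf.nil)))) (Pf.C 15 0x600207)) (Pf.C 7 16391)) (Pf.C 13 0xc1c085)) (Pf.C 11 16389))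 (Pf.C 11 16390)))
 (Pq.cons (Pq.L [0,1] 0x5bbc0 (Pf.B 6 1 (Pf.B 6 0 (Pf.B 5 1 (Pf.B 7 1 (Pf.B 7 0 (Pf.B 5 0 (Pf.B 4 0 (Pf.C 16 0x1c184) (Pf.C 17 0x60614004)) (Pf.C 6 16389)) (Pf.C 7 16391)) (Pf.C 13 0xc1c085)) (Pf.C 11 16389)) (Pf.C 6 16390)) (Pf.C 11 16390)))
 (Pq.cons (Pq.D 6 (Pq.cons (Pq.L [] 0x1c0038 (Pf.C 13 0x101c302))
 (Pq.cons (Pq.L [] 0x1c0038 (Pf.C 13 0x101c302))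
 (Pq.cons (Pq.L [] 0x1c0038 (Pf.C 13 0x101c302))
 (Pq.cons (Pq.L [] 0x1c0038 (Pf.C 13 0x101c302))
 (Pq.cons (Pq.L [] 0x106032 (Pf.C 14 0xe20202))
 (Pq.cons (Pq.L [] 1057 (Pf.C 44 0x20182))
 Pq.nil))))))) (Pq.cons (Pq.L [] 0x40000 (Pf.C 42 902))
 (Pq.cons (Pq.L [] 75798 (Pf.C 16 0xa1c202))
 (Pq.cons (Pq.L [] 529 (Pf.C 44 0x1c182))
 Pq.nil))))))) (Pq.cons (Pq.L [] 4427 (Pf.C 14 0x818182))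
 (Pq.cons (Pq.L [] 265 (Pf.C 8 49922))
 Pq.nil))))))) (Pq.cons (Pq.L [] 2247 (Pf.C 14 0x814182))
 (Pq.cons (Pq.L [] 133 (Pf.C 8 49794))
 Pq.nil))))))) (Pq.cons (Pq.L [] 64 (Pf.C 48 388))
 (Pq.cons (Pq.D 3 (Pq.cons (Pq.D 4 (Pq.cons (Pq.L [] 33165 (Pf.C 14 0xc0c282))
 (Pq.cons (Pq.D 5 (Pq.cons (Pq.L [] 0x40319 (Pf.C 15 0x61c302))
 (Pq.cons (Pq.L [] 0x40319 (Pf.C 14 0xc1c182))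
 (Pq.cons (Pq.L [] 0x40319 (Pf.C 15 0x61c302))
 (Pq.cons (Pq.L [] 0x40319 (Pf.C 15 0x61c302))
 (Pq.cons (Pq.L [0,1] 0x58280 (Pf.B 5 0 (Pf.C 16 49799) (Pf.B 6 0 (Pf.C 15 0xe14006) (Pf.B 6 1 (Pf.C 7 16390) (Pf.C 4 134)))))
 (Pq.cons (Pq.L [] 529 (Pf.C 44 0x1c182))
 Pq.nil))))))) (Pq.cons (Pq.L [] 33165 (Pf.C 14 0xc0c282))
 (Pq.cons (Pq.L [0,1] 4559 (Pf.B 6 1 (Pf.B 6 0 (Pf.B 4 1 (Pf.B 4 0 (Pf.B 2 0 (Pf.B 5 0 (Pf.C 16 49794) (Pf.B 5 1 (Pf.C 7 16389) (Pf.C 4 133))) (Pf.C 17 0x60610002)) (Pf.C 6 16388)) (Pf.C 11 16388)) (Pf.C 6 16390)) (Pf.C 11 16390)))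
 (Pq.cons (Pq.L [] 33165 (Pf.C 14 0xc0c282))
 (Pq.cons (Pq.L [] 265 (Pf.C 8 49922))
 Pq.nil))))))) (Pq.cons (Pq.D 4 (Pq.cons (Pq.D 5 (Pq.cons (Pq.L [] 0x40319 (Pf.C 14 0xe18182))
 (Pq.cons (Pq.L [] 0x4301a (Pf.C 16 0x81c302))
 (Pq.cons (Pq.L [] 0x40319 (Pf.C 14 0xe18182))
 (Pq.cons (Pq.L [0,1] 0x58380 (Pf.B 7 1 (Pf.B 7 0 (Pf.B 5 0 (Pf.B 6 0 (Pf.C 16 49925) (Pf.C 13 0xe18005)) (Pf.C 15 0x600287)) (Pf.C 6 16391)) (Pf.C 11 16391)))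
 (Pq.cons (Pq.L [] 0x40319 (Pf.C 14 0xe18182))
 (Pq.cons (Pq.L [] 529 (Pf.C 44 0x1c182))
 Pq.nil))))))) (Pq.cons (Pq.D 5 (Pq.cons (Pq.L [] 0x40319 (Pf.C 15 0x61c302))
 (Pq.cons (Pq.L [] 0x40319 (Pf.C 14 0xc1c182))
 (Pq.cons (Pq.L [] 0x40319 (Pf.C 15 0x61c302))
 (Pq.cons (Pq.L [] 0x40319 (Pf.C 15 0x61c302))
 (Pq.cons (Pq.L [] 75798 (Pf.C 16 0x81c282))
 (Pq.cons (Pq.L [] 529 (Pf.C 44 0x1c182))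
 Pq.nil))))))) (Pq.cons (Pq.L [] 256 (Pf.C 48 390))
 (Pq.cons (Pq.D 5 (Pq.cons (Pq.L [0,1] 0xfffc0 (Pf.B 6 1 (Pf.B 4 1 (Pf.B 7 1 (Pf.B 7 0 (Pf.B 5 0 (Pf.B 8 5 (Pf.W 47 5 [] [0,3,7] (Pf.cons (Pf.B 9 7 (Pf.C 16 83079) (Pf.B 9 3 (Pf.C 14 0xe24283) (Pf.C 8 50309))) Pf.nil)) (Pf.B 8 3 (Pf.C 17 0x60610288) (Pf.W 47 5 [] [0,3,7] (Pf.cons (Pf.B 9 7 (Pf.C 16 83079) (Pf.B 9 3 (Pf.C 14 0xe24283) (Pf.C 8 50309))) Pf.nil)))) (Pf.C 15 0x600287)) (Pf.C 7 16391)) (Pf.C 13 0xc1c084)) (Pf.C 11 16388)) (Pf.C 11 16390)))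
 (Pq.cons (Pq.L [0,1] 0x53280 (Pf.B 6 1 (Pf.B 4 1 (Pf.B 7 1 (Pf.B 7 0 (Pf.B 5 0 (Pf.C 16 0x1c185) (Pf.B 5 1 (Pf.C 7 16389) (Pf.C 4 133))) (Pf.C 7 16391)) (Pf.C 13 0xc1c084)) (Pf.C 11 16388)) (Pf.C 11 16390)))
 (Pq.cons (Pq.D 6 (Pq.cons (Pq.L [] 0x1c0038 (Pf.C 13 0x101c302))
 (Pq.cons (Pq.L [] 0x1c0038 (Pf.C 13 0x101c302))
 (Pq.cons (Pq.L [] 0x1c0038 (Pf.C 13 0x101c302))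
 (Pq.cons (Pq.L [] 0x1c0038 (Pf.C 13 0x101c302))
 (Pq.cons (Pq.L [] 0x130034 (Pf.C 14 0xe20282))
 (Pq.cons (Pq.L [] 1057 (Pf.C 44 0x20182))
 Pq.nil))))))) (Pq.cons (Pq.L [] 0x40000 (Pf.C 42 902))
 (Pq.cons (Pq.L [] 75798 (Pf.C 16 0x81c282))
 (Pq.cons (Pq.L [] 529 (Pf.C 44 0x1c182))
 Pq.nil))))))) (Pq.cons (Pq.L [] 33165 (Pf.C 14 0xa18182))
 (Pq.cons (Pq.L [] 265 (Pf.C 8 49922))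
 Pq.nil))))))) (Pq.cons (Pq.L [] 128 (Pf.C 48 389))
 (Pq.cons (Pq.D 4 (Pq.cons (Pq.L [0,1] 2511 (Pf.B 5 1 (Pf.B 5 0 (Pf.B 4 1 (Pf.B 4 0 (Pf.B 2 0 (Pf.B 6 0 (Pf.C 16 49922) (Pf.B 6 1 (Pf.C 7 16390) (Pf.C 4 134))) (Pf.C 17 0x50610002)) (Pf.C 6 16388)) (Pf.C 11 16388)) (Pf.C 6 16389)) (Pf.C 11 16389)))
 (Pq.cons (Pq.D 5 (Pq.cons (Pq.L [] 0x40319 (Pf.C 15 0x61c302))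
 (Pq.cons (Pq.L [] 0x40319 (Pf.C 14 0xc1c182))
 (Pq.cons (Pq.L [] 0x40319 (Pf.C 15 0x61c302))
 (Pq.cons (Pq.L [] 0x40319 (Pf.C 15 0x61c302))
 (Pq.cons (Pq.L [0,1] 0xfddc0 (Pf.B 5 1 (Pf.B 5 0 (Pf.B 6 0 (Pf.B 8 6 (Pf.W 47 6 [] [0,7] (Pf.cons (Pf.B 9 7 (Pf.C 16 99463) (Pf.C 8 0x1c486)) Pf.nil)) (Pf.B 8 3 (Pf.C 17 0x50610308) (Pf.W 47 6 [] [0,7] (Pf.cons (Pf.B 9 7 (Pf.C 16 99463) (Pf.C 8 0x1c486)) Pf.nil)))) (Pf.C 15 0xe00305)) (Pf.C 6 16389)) (Pf.C 11 16389)))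
 (Pq.cons (Pq.L [] 529 (Pf.C 44 0x1c182))
 Pq.nil))))))) (Pq.cons (Pq.L [] 256 (Pf.C 48 390))
 (Pq.cons (Pq.D 5 (Pq.cons (Pq.L [0,1] 0x17eec0 (Pf.B 8 3 (Pf.C 17 0x50610388) (Pf.B 6 1 (Pf.B 5 1 (Pf.B 7 1 (Pf.B 7 0 (Pf.W 47 7 [] [0,3] (Pf.cons (Pf.B 9 3 (Pf.C 16 0x1c483) (Pf.C 8 50311)) Pf.nil)) (Pf.C 7 16391)) (Pf.C 13 0xc1c085)) (Pf.C 11 16389)) (Pf.C 11 16390))))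
 (Pq.cons (Pq.L [0,1] 0x58ad7 (Pf.B 6 1 (Pf.B 5 1 (Pf.B 7 1 (Pf.B 7 0 (Pf.B 5 0 (Pf.B 4 1 (Pf.B 4 0 (Pf.B 2 0 (Pf.C 16 0x1c182) (Pf.C 17 0x50610002)) (Pf.C 6 16388)) (Pf.C 11 16388)) (Pf.C 6 16389)) (Pf.C 7 16391)) (Pf.C 13 0xc1c085)) (Pf.C 11 16389)) (Pf.C 11 16390)))
 (Pq.cons (Pq.D 6 (Pq.cons (Pq.L [] 0x1c0038 (Pf.C 13 0x101c302))
 (Pq.cons (Pq.L [] 0x1c0038 (Pf.C 13 0x101c302))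
 (Pq.cons (Pq.L [] 0x1c0038 (Pf.C 13 0x101c302))
 (Pq.cons (Pq.L [] 0x1c0038 (Pf.C 13 0x101c302))
 (Pq.cons (Pq.L [] 0x106032 (Pf.C 16 0x820382))
 (Pq.cons (Pq.L [] 1057 (Pf.C 44 0x20182))
 Pq.nil))))))) (Pq.cons (Pq.L [] 0x40000 (Pf.C 42 902))
 (Pq.cons (Pq.L [0,1] 0x1f6ffb (Pf.B 7 1 (Pf.C 9 0x1c001) (Pf.B 6 1 (Pf.B 4 1 (Pf.B 4 0 (Pf.B 3 1 (Pf.C 9 49153) (Pf.B 2 0 (Pf.B 2 1 (Pf.B 8 7 (Pf.B 8 3 (Pf.B 8 2 (Pf.W 51 2 [] [7] (Pf.cons (Pf.B 9 7 (Pf.C 44 0x24382) (Pf.C 40 1159)) Pf.nil)) (Pf.C 17 0x70c0c108)) (Pf.B 8 2 (Pf.W 51 2 [] [7] (Pf.cons (Pf.B 9 7 (Pf.C 44 0x24382) (Pf.C 40 1159)) Pf.nil)) (Pf.B 8 1 (Pf.C 17 0x60e04108) (Pf.B 8 0 (Pf.W 51 2 [] [7] (Pf.cons (Pf.B 9 7 (Pf.C 44 0x24382) (Pf.C 40 1159))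 Pf.nil)) (Pf.C 0 0x604400))))) (Pf.B 8 3 (Pf.C 17 0x50610388) (Pf.W 51 2 [] [7] (Pf.cons (Pf.B 9 7 (Pf.C 44 0x24382) (Pf.C 40 1159)) Pf.nil)))) (Pf.C 7 130)) (Pf.C 15 0xe00104))) (Pf.C 6 16388)) (Pf.C 11 16388)) (Pf.C 4 17159))))
 (Pq.cons (Pq.L [] 529 (Pf.C 44 0x1c182))
 Pq.nil))))))) (Pq.cons (Pq.L [0] 256 (Pf.C 10 98688))
 (Pq.cons (Pq.L [] 265 (Pf.C 8 49922))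
 Pq.nil))))))) (Pq.cons (Pq.L [0] 128 (Pf.C 10 82304))
 (Pq.cons (Pq.L [] 133 (Pf.C 8 49794))
 Pq.nil))))))) (Pq.cons (Pq.L [0] 64 (Pf.C 10 65920))
 (Pq.cons (Pq.L [] 67 (Pf.C 8 49666))
 Pq.nil))))))) (Pq.cons (Pq.D 2 (Pq.cons (Pq.D 3 (Pq.cons (Pq.D 4 (Pq.cons (Pq.L [] 1 (Pf.W 47 4 [] [2,3] (Pf.cons (Pf.B 9 3 (Pf.B 9 2 (Pf.C 44 50306) (Pf.C 48 1154)) (Pf.C 40 393)) Pf.nil)))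
 (Pq.cons (Pq.L [] 256 (Pf.C 50 390))
 (Pq.cons (Pq.L [] 4427 (Pf.C 14 0x80c106))
 (Pq.cons (Pq.L [] 1 (Pf.W 47 4 [] [2,3] (Pf.cons (Pf.B 9 3 (Pf.B 9 2 (Pf.C 44 50306) (Pf.C 48 1154)) (Pf.C 40 393)) Pf.nil)))
 (Pq.cons (Pq.L [] 265 (Pf.C 8 98690))
 (Pq.cons (Pq.L [] 265 (Pf.C 3 98690))
 Pq.nil))))))) (Pq.cons (Pq.L [] 128 (Pf.C 50 389))
 (Pq.cons (Pq.L [] 2247 (Pf.C 14 0x80c105))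
 (Pq.cons (Pq.D 4 (Pq.cons (Pq.L [] 1 (Pf.W 47 4 [] [2,3] (Pf.cons (Pf.B 9 3 (Pf.B 9 2 (Pf.C 44 50306) (Pf.C 48 1154)) (Pf.C 40 393)) Pf.nil)))
 (Pq.cons (Pq.L [] 256 (Pf.C 50 390))
 (Pq.cons (Pq.L [] 4427 (Pf.C 14 0x80c106))
 (Pq.cons (Pq.L [] 1 (Pf.W 47 4 [] [2,3] (Pf.cons (Pf.B 9 3 (Pf.B 9 2 (Pf.C 44 50306) (Pf.C 48 1154)) (Pf.C 40 393)) Pf.nil)))
 (Pq.cons (Pq.L [] 265 (Pf.C 8 98690))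
 (Pq.cons (Pq.L [] 265 (Pf.C 3 98690))
 Pq.nil))))))) (Pq.cons (Pq.L [] 133 (Pf.C 8 82306))
 (Pq.cons (Pq.L [] 133 (Pf.C 3 82306))
 Pq.nil))))))) (Pq.cons (Pq.L [] 64 (Pf.C 50 388))
 (Pq.cons (Pq.D 3 (Pq.cons (Pq.L [] 2247 (Pf.C 14 0xa0c104))
 (Pq.cons (Pq.L [] 2247 (Pf.C 14 0xa0c104))
 (Pq.cons (Pq.D 4 (Pq.cons (Pq.L [] 4427 (Pf.C 14 0xc0c104))
 (Pq.cons (Pq.L [] 4427 (Pf.C 14 0xc0c104))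
 (Pq.cons (Pq.D 5 (Pq.cons (Pq.L [] 0x43340 (Pf.C 15 0x61c304))
 (Pq.cons (Pq.L [] 0x43340 (Pf.C 15 0x61c304))
 (Pq.cons (Pq.L [] 8787 (Pf.C 14 0xe0c104))
 (Pq.cons (Pq.L [] 8787 (Pf.C 16 0xe0c104))
 (Pq.cons (Pq.L [] 529 (Pf.C 44 50050))
 (Pq.cons (Pq.L [] 0x4301a (Pf.C 14 0x81c106))
 Pq.nil))))))) (Pq.cons (Pq.D 5 (Pq.cons (Pq.D 6 (Pq.cons (Pq.L [] 0x1c0038 (Pf.C 13 0x101c302))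
 (Pq.cons (Pq.L [] 0x1c0038 (Pf.C 13 0x101c302))
 (Pq.cons (Pq.L [] 0x1c0038 (Pf.C 13 0x101c302))
 (Pq.cons (Pq.L [] 0x1c0038 (Pf.C 13 0x101c302))
 (Pq.cons (Pq.L [] 1057 (Pf.C 44 50178))
 (Pq.cons (Pq.L [] 0x24cc0 (Pf.C 14 0xa20203))
 Pq.nil))))))) (Pq.cons (Pq.D 6 (Pq.cons (Pq.L [] 0x1c0038 (Pf.C 13 0x101c302))
 (Pq.cons (Pq.L [] 0x1c0038 (Pf.C 13 0x101c302))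
 (Pq.cons (Pq.L [] 0x1c0038 (Pf.C 13 0x101c302))
 (Pq.cons (Pq.L [] 0x1c0038 (Pf.C 13 0x101c302))
 (Pq.cons (Pq.L [] 1057 (Pf.C 44 50178))
 (Pq.cons (Pq.L [] 0x24cc0 (Pf.C 14 0xa20203))
 Pq.nil))))))) (Pq.cons (Pq.L [] 8787 (Pf.C 14 0xe0c104))
 (Pq.cons (Pq.L [] 8787 (Pf.C 16 0xe0c104))
 (Pq.cons (Pq.L [] 529 (Pf.C 44 50050))
 (Pq.cons (Pq.L [] 76480 (Pf.C 14 0xa1c203))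
 Pq.nil))))))) (Pq.cons (Pq.L [] 265 (Pf.C 8 98690))
 (Pq.cons (Pq.L [] 265 (Pf.C 3 98690))
 Pq.nil))))))) (Pq.cons (Pq.D 4 (Pq.cons (Pq.L [] 4427 (Pf.C 14 0xc0c104))
 (Pq.cons (Pq.L [] 4427 (Pf.C 14 0xc0c104))
 (Pq.cons (Pq.D 5 (Pq.cons (Pq.L [] 0x5801c (Pf.C 16 0xa1c302))
 (Pq.cons (Pq.L [] 0x5801c (Pf.C 16 0xa1c302))
 (Pq.cons (Pq.L [] 8787 (Pf.C 14 0xe0c104))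
 (Pq.cons (Pq.L [] 8787 (Pf.C 16 0xe0c104))
 (Pq.cons (Pq.L [] 529 (Pf.C 44 50050))
 (Pq.cons (Pq.L [] 0x4301a (Pf.C 14 0x81c106))
 Pq.nil))))))) (Pq.cons (Pq.L [0,1] 39363 (Pf.B 6 1 (Pf.B 5 1 (Pf.B 3 1 (Pf.B 4 1 (Pf.B 2 1 (Pf.C 16 0x20c104) (Pf.B 2 0 (Pf.C 7 130) (Pf.C 4 16386))) (Pf.C 17 0x60614084)) (Pf.C 4 131)) (Pf.C 11 16389)) (Pf.C 11 16390)))
 (Pq.cons (Pq.L [] 265 (Pf.C 8 98690))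
 (Pq.cons (Pq.L [] 265 (Pf.C 3 98690))
 Pq.nil))))))) (Pq.cons (Pq.L [] 133 (Pf.C 8 82306))
 (Pq.cons (Pq.L [] 133 (Pf.C 3 82306))
 Pq.nil))))))) (Pq.cons (Pq.D 3 (Pq.cons (Pq.D 4 (Pq.cons (Pq.L [] 1 (Pf.W 47 5 [] [2,3] (Pf.cons (Pf.B 9 3 (Pf.B 9 2 (Pf.C 44 50306) (Pf.C 48 1154)) (Pf.C 40 393)) Pf.nil)))
 (Pq.cons (Pq.L [] 256 (Pf.C 50 390))
 (Pq.cons (Pq.L [] 33165 (Pf.C 14 0xa0c106))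
 (Pq.cons (Pq.L [] 1 (Pf.W 47 5 [] [2,3] (Pf.cons (Pf.B 9 3 (Pf.B 9 2 (Pf.C 44 50306) (Pf.C 48 1154)) (Pf.C 40 393)) Pf.nil)))
 (Pq.cons (Pq.L [] 265 (Pf.C 8 98690))
 (Pq.cons (Pq.L [] 265 (Pf.C 3 98690))
 Pq.nil))))))) (Pq.cons (Pq.L [] 128 (Pf.C 50 389))
 (Pq.cons (Pq.D 4 (Pq.cons (Pq.L [] 33165 (Pf.C 14 0xc0c105))
 (Pq.cons (Pq.L [] 33165 (Pf.C 14 0xc0c105))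
 (Pq.cons (Pq.D 5 (Pq.cons (Pq.L [] 0x4301a (Pf.C 16 0x81c302))
 (Pq.cons (Pq.L [] 0x4301a (Pf.C 16 0x81c302))
 (Pq.cons (Pq.L [] 66197 (Pf.C 14 0xe0c105))
 (Pq.cons (Pq.L [] 66197 (Pf.C 16 0xe0c105))
 (Pq.cons (Pq.L [] 529 (Pf.C 44 50050))
 (Pq.cons (Pq.L [] 0x5801c (Pf.C 14 0xa1c106))
 Pq.nil))))))) (Pq.cons (Pq.L [0,1] 39365 (Pf.B 6 1 (Pf.B 4 1 (Pf.B 3 1 (Pf.B 5 1 (Pf.B 2 1 (Pf.C 16 0x20c105) (Pf.B 2 0 (Pf.C 7 130) (Pf.C 4 16386))) (Pf.C 17 0x60610085)) (Pf.C 4 131)) (Pf.C 11 16388)) (Pf.C 11 16390)))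
 (Pq.cons (Pq.L [] 265 (Pf.C 8 98690))
 (Pq.cons (Pq.L [] 265 (Pf.C 3 98690))
 Pq.nil))))))) (Pq.cons (Pq.D 4 (Pq.cons (Pq.D 5 (Pq.cons (Pq.L [] 0x4301a (Pf.C 16 0x81c302))
 (Pq.cons (Pq.L [] 0x4301a (Pf.C 16 0x81c302))
 (Pq.cons (Pq.L [] 0x4301a (Pf.C 16 0x81c302))
 (Pq.cons (Pq.L [] 1 (Pf.W 47 6 [] [2,3] (Pf.cons (Pf.B 9 3 (Pf.B 9 2 (Pf.C 44 50306) (Pf.C 48 1154)) (Pf.C 40 393)) Pf.nil)))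
 (Pq.cons (Pq.L [] 529 (Pf.C 44 50050))
 (Pq.cons (Pq.L [] 8256 (Pf.W 47 6 [] [3,4,7] (Pf.cons (Pf.B 9 7 (Pf.B 9 4 (Pf.B 9 3 (Pf.C 46 50308) (Pf.C 40 393)) (Pf.C 45 0x1c484)) (Pf.C 40 905)) Pf.nil)))
 Pq.nil))))))) (Pq.cons (Pq.L [] 256 (Pf.C 50 390))
 (Pq.cons (Pq.L [0,1] 39369 (Pf.B 5 1 (Pf.B 4 1 (Pf.B 3 1 (Pf.B 6 1 (Pf.B 2 1 (Pf.C 16 0x20c106) (Pf.B 2 0 (Pf.C 7 130) (Pf.C 4 16386))) (Pf.C 17 0x50610086)) (Pf.C 4 131)) (Pf.C 11 16388)) (Pf.C 11 16389)))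
 (Pq.cons (Pq.D 5 (Pq.cons (Pq.L [0,1] 0x58211 (Pf.B 6 1 (Pf.B 5 1 (Pf.B 7 1 (Pf.B 3 1 (Pf.B 2 1 (Pf.C 16 0x20c107) (Pf.B 2 0 (Pf.C 7 130) (Pf.C 4 16386))) (Pf.C 4 131)) (Pf.C 13 0xc1c085)) (Pf.C 11 16389)) (Pf.C 11 16390)))
 (Pq.cons (Pq.L [0,1] 0x58211 (Pf.B 6 1 (Pf.B 5 1 (Pf.B 7 1 (Pf.B 3 1 (Pf.B 2 1 (Pf.C 16 0x20c107) (Pf.B 2 0 (Pf.C 7 130) (Pf.C 4 16386))) (Pf.C 4 131)) (Pf.C 13 0xc1c085)) (Pf.C 11 16389)) (Pf.C 11 16390)))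
 (Pq.cons (Pq.D 6 (Pq.cons (Pq.L [] 0x1c0038 (Pf.C 13 0x101c302))
 (Pq.cons (Pq.L [] 0x1c0038 (Pf.C 13 0x101c302))
 (Pq.cons (Pq.L [] 0x1c0038 (Pf.C 13 0x101c302))
 (Pq.cons (Pq.L [] 0x1c0038 (Pf.C 13 0x101c302))
 (Pq.cons (Pq.L [] 1057 (Pf.C 44 50178))
 (Pq.cons (Pq.L [] 0x106032 (Pf.C 16 0x820107))
 Pq.nil))))))) (Pq.cons (Pq.L [] 0x40000 (Pf.C 42 902))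
 (Pq.cons (Pq.L [] 529 (Pf.C 44 50050))
 (Pq.cons (Pq.D 6 (Pq.cons (Pq.L [] 0x136ec0 (Pf.C 17 0x50610407))
 (Pq.cons (Pq.L [] 0x136ec0 (Pf.C 17 0x50610407))
 (Pq.cons (Pq.L [] 0x106032 (Pf.C 16 0x81c108))
 (Pq.cons (Pq.L [] 0x136ec0 (Pf.C 17 0x50610407))
 (Pq.cons (Pq.L [] 0x100030 (Pf.C 8 0x20382))
 (Pq.cons (Pq.L [] 0x100030 (Pf.C 3 0x20382))
 Pq.nil))))))) Pq.nil))))))) (Pq.cons (Pq.L [] 265 (Pf.C 8 98690))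
 (Pq.cons (Pq.L [] 265 (Pf.C 3 98690))
 Pq.nil))))))) (Pq.cons (Pq.L [] 133 (Pf.C 8 82306))
 (Pq.cons (Pq.L [] 133 (Pf.C 3 82306))
 Pq.nil))))))) (Pq.cons (Pq.L [] 67 (Pf.C 8 65922))
 (Pq.cons (Pq.L [] 67 (Pf.C 3 65922))
 Pq.nil))))))) Pq.nil))
theorem e5_o22 : AllRef e5_T e5_G29 (List.drop 4 (List.flatMap (splitP 1) (List.take 1 (List.drop 2 (List.flatMap (splitP 0) (List.drop 1 (applyObl d_T 2 [38,39,40,42,44,46] [0,0,0,0,0,0] [(39,0x100000000000),(40,0x400000000000),(44,0x8000000000),(46,0x10000000000)]))))))) :=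
  chkPq_sound e5_o22c _ (by decide +kernel)
noncomputable def e5_o23c : Pq := (Pq.cons (Pq.D 2 (Pq.cons (Pq.L [] 64 (Pf.C 2 515))
 (Pq.cons (Pq.L [] 64 (Pf.C 2 515))
 (Pq.cons (Pq.L [] 64 (Pf.C 2 515))
 (Pq.cons (Pq.D 3 (Pq.cons (Pq.L [] 2247 (Pf.C 13 0xa0c202))
 (Pq.cons (Pq.L [] 2247 (Pf.C 13 0xa0c202))
 (Pq.cons (Pq.L [] 2247 (Pf.C 13 0xa0c202))
 (Pq.cons (Pq.L [] 2247 (Pf.C 13 0xa0c202))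
 (Pq.cons (Pq.D 4 (Pq.cons (Pq.L [] 4427 (Pf.C 13 0xc0c202))
 (Pq.cons (Pq.L [] 4427 (Pf.C 13 0xc0c202))
 (Pq.cons (Pq.L [] 4427 (Pf.C 13 0xc0c202))
 (Pq.cons (Pq.L [] 4427 (Pf.C 13 0xc0c202))
 (Pq.cons (Pq.D 5 (Pq.cons (Pq.L [] 0x5801c (Pf.C 16 0x41c305))
 (Pq.cons (Pq.L [] 0x5801c (Pf.C 16 0x41c286))
 (Pq.cons (Pq.L [] 0x5801c (Pf.C 16 0x41c305))
 (Pq.cons (Pq.L [] 0x50000 (Pf.W 49 3 [] [5,6,7] (Pf.cons (Pf.B 9 6 (Pf.B 9 7 (Pf.C 45 0x24307) (Pf.B 9 5 (Pf.C 46 0x24287) (Pf.C 40 1157))) (Pf.C 40 1158)) Pf.nil)))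
 (Pq.cons (Pq.L [] 0x40018 (Pf.C 10 0x1c302))
 (Pq.cons (Pq.L [] 0x40018 (Pf.C 10 0x1c302))
 Pq.nil))))))) (Pq.cons (Pq.D 5 (Pq.cons (Pq.L [] 0x5801c (Pf.C 16 0x41c305))
 (Pq.cons (Pq.L [] 0x40000 (Pf.C 50 775))
 (Pq.cons (Pq.L [] 66197 (Pf.C 16 0x414187))
 (Pq.cons (Pq.L [] 0x58000 (Pf.C 46 98951))
 (Pq.cons (Pq.L [] 0x40018 (Pf.C 10 0x1c302))
 (Pq.cons (Pq.L [] 0x40018 (Pf.C 10 0x1c302))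
 Pq.nil))))))) Pq.nil))))))) (Pq.cons (Pq.D 4 (Pq.cons (Pq.L [] 4427 (Pf.C 13 0xc0c202))
 (Pq.cons (Pq.L [] 4427 (Pf.C 13 0xc0c202))
 (Pq.cons (Pq.L [] 4427 (Pf.C 13 0xc0c202))
 (Pq.cons (Pq.L [] 4427 (Pf.C 13 0xc0c202))
 (Pq.cons (Pq.D 5 (Pq.cons (Pq.L [] 0x5801c (Pf.C 16 0x41c305))
 (Pq.cons (Pq.L [] 66197 (Pf.C 16 0x414187))
 (Pq.cons (Pq.L [] 0x40000 (Pf.C 48 775))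
 (Pq.cons (Pq.L [] 0x58000 (Pf.C 45 82695))
 (Pq.cons (Pq.L [] 0x40018 (Pf.C 10 0x1c302))
 (Pq.cons (Pq.L [] 0x40018 (Pf.C 10 0x1c302))
 Pq.nil))))))) (Pq.cons (Pq.D 5 (Pq.cons (Pq.L [] 0x5801c (Pf.C 16 0x41c305))
 (Pq.cons (Pq.L [] 0x5801c (Pf.C 16 0x41c305))
 (Pq.cons (Pq.L [] 0x5801c (Pf.C 16 0x41c286))
 (Pq.cons (Pq.L [] 0x50000 (Pf.W 47 3 [] [5,6,7] (Pf.cons (Pf.B 9 6 (Pf.B 9 7 (Pf.C 46 99463) (Pf.B 9 5 (Pf.C 45 83079) (Pf.C 40 649))) (Pf.C 40 777)) Pf.nil)))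
 (Pq.cons (Pq.L [] 0x40018 (Pf.C 10 0x1c302))
 (Pq.cons (Pq.L [] 0x40018 (Pf.C 10 0x1c302))
 Pq.nil))))))) Pq.nil))))))) Pq.nil))))))) (Pq.cons (Pq.D 3 (Pq.cons (Pq.L [] 128 (Pf.C 2 643))
 (Pq.cons (Pq.L [] 128 (Pf.C 2 643))
 (Pq.cons (Pq.L [] 128 (Pf.C 2 643))
 (Pq.cons (Pq.D 4 (Pq.cons (Pq.L [] 33165 (Pf.C 13 0xc0c282))
 (Pq.cons (Pq.L [] 33165 (Pf.C 13 0xc0c282))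
 (Pq.cons (Pq.L [] 33165 (Pf.C 13 0xc0c282))
 (Pq.cons (Pq.L [] 33165 (Pf.C 13 0xc0c282))
 (Pq.cons (Pq.D 5 (Pq.cons (Pq.L [] 0x4301a (Pf.C 16 0x41c304))
 (Pq.cons (Pq.L [] 0x4301a (Pf.C 16 0x41c206))
 (Pq.cons (Pq.L [] 0x4301a (Pf.C 16 0x41c304))
 (Pq.cons (Pq.L [] 0x42000 (Pf.W 49 3 [] [4,6,7] (Pf.cons (Pf.B 9 6 (Pf.B 9 7 (Pf.C 45 0x24307) (Pf.B 9 4 (Pf.C 46 0x24207) (Pf.C 40 1156))) (Pf.C 40 1158)) Pf.nil)))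
 (Pq.cons (Pq.L [] 0x40018 (Pf.C 10 0x1c302))
 (Pq.cons (Pq.L [] 0x40018 (Pf.C 10 0x1c302))
 Pq.nil))))))) (Pq.cons (Pq.D 5 (Pq.cons (Pq.L [] 0x4301a (Pf.C 16 0x41c304))
 (Pq.cons (Pq.L [] 0x40000 (Pf.C 50 775))
 (Pq.cons (Pq.L [] 8787 (Pf.C 16 0x410187))
 (Pq.cons (Pq.L [] 0x43000 (Pf.C 46 98823))
 (Pq.cons (Pq.L [] 0x40018 (Pf.C 10 0x1c302))
 (Pq.cons (Pq.L [] 0x40018 (Pf.C 10 0x1c302))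
 Pq.nil))))))) Pq.nil))))))) (Pq.cons (Pq.D 4 (Pq.cons (Pq.L [] 256 (Pf.C 2 771))
 (Pq.cons (Pq.L [] 256 (Pf.C 2 771))
 (Pq.cons (Pq.L [] 256 (Pf.C 2 771))
 (Pq.cons (Pq.D 5 (Pq.cons (Pq.L [] 0x40319 (Pf.C 13 0xe18182))
 (Pq.cons (Pq.L [] 0x40319 (Pf.C 13 0xe18182))
 (Pq.cons (Pq.L [] 0x40319 (Pf.C 13 0xe18182))
 (Pq.cons (Pq.L [] 0x40319 (Pf.C 13 0xe18182))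
 (Pq.cons (Pq.L [] 8787 (Pf.C 16 0x410187))
 (Pq.cons (Pq.L [] 8787 (Pf.C 16 0x410187))
 Pq.nil))))))) (Pq.cons (Pq.D 5 (Pq.cons (Pq.L [] 0x4301a (Pf.C 16 0x41c304))
 (Pq.cons (Pq.L [] 0x4301a (Pf.C 16 0x41c206))
 (Pq.cons (Pq.L [] 0x4301a (Pf.C 16 0x41c304))
 (Pq.cons (Pq.L [] 0x50000 (Pf.W 49 3 [] [5,6,7] (Pf.cons (Pf.B 9 6 (Pf.B 9 7 (Pf.C 45 0x24307) (Pf.B 9 5 (Pf.C 46 0x24287) (Pf.C 40 1157))) (Pf.C 40 1158)) Pf.nil)))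
 (Pq.cons (Pq.L [] 0x40018 (Pf.C 10 0x1c302))
 (Pq.cons (Pq.L [] 0x40018 (Pf.C 10 0x1c302))
 Pq.nil))))))) (Pq.cons (Pq.D 5 (Pq.cons (Pq.L [] 0x4301a (Pf.C 16 0x41c304))
 (Pq.cons (Pq.L [] 0x40000 (Pf.C 50 775))
 (Pq.cons (Pq.L [] 8787 (Pf.C 16 0x410187))
 (Pq.cons (Pq.L [] 0x43000 (Pf.C 46 98823))
 (Pq.cons (Pq.L [] 0x40018 (Pf.C 10 0x1c302))
 (Pq.cons (Pq.L [] 0x40018 (Pf.C 10 0x1c302))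
 Pq.nil))))))) Pq.nil))))))) (Pq.cons (Pq.D 4 (Pq.cons (Pq.L [] 256 (Pf.C 2 771))
 (Pq.cons (Pq.L [] 38926 (Pf.C 16 0x418205))
 (Pq.cons (Pq.L [] 38926 (Pf.C 16 0x418284))
 (Pq.cons (Pq.D 5 (Pq.cons (Pq.L [] 0x40319 (Pf.C 13 0xe18182))
 (Pq.cons (Pq.L [] 0x40319 (Pf.C 13 0xe18182))
 (Pq.cons (Pq.L [] 0x40319 (Pf.C 13 0xe18182))
 (Pq.cons (Pq.L [] 0x40319 (Pf.C 13 0xe18182))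
 (Pq.cons (Pq.L [] 8787 (Pf.C 16 0x410187))
 (Pq.cons (Pq.L [] 8787 (Pf.C 16 0x410187))
 Pq.nil))))))) (Pq.cons (Pq.D 5 (Pq.cons (Pq.L [] 0x4301a (Pf.C 16 0x41c304))
 (Pq.cons (Pq.L [] 75798 (Pf.C 16 0x41c205))
 (Pq.cons (Pq.L [] 75798 (Pf.C 16 0x41c284))
 (Pq.cons (Pq.L [] 0x58000 (Pf.C 45 82695))
 (Pq.cons (Pq.L [] 0x40018 (Pf.C 10 0x1c302))
 (Pq.cons (Pq.L [] 0x40018 (Pf.C 10 0x1c302))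
 Pq.nil))))))) (Pq.cons (Pq.D 5 (Pq.cons (Pq.L [] 0x4301a (Pf.C 16 0x41c304))
 (Pq.cons (Pq.L [] 75798 (Pf.C 16 0x41c205))
 (Pq.cons (Pq.L [] 75798 (Pf.C 16 0x41c284))
 (Pq.cons (Pq.L [] 0x43000 (Pf.C 46 98823))
 (Pq.cons (Pq.L [] 0x40018 (Pf.C 10 0x1c302))
 (Pq.cons (Pq.L [] 0x40018 (Pf.C 10 0x1c302))
 Pq.nil))))))) Pq.nil))))))) Pq.nil))))))) (Pq.cons (Pq.D 3 (Pq.cons (Pq.L [] 128 (Pf.C 2 643))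
 (Pq.cons (Pq.L [] 128 (Pf.C 2 643))
 (Pq.cons (Pq.L [] 128 (Pf.C 2 643))
 (Pq.cons (Pq.D 4 (Pq.cons (Pq.L [] 33165 (Pf.C 13 0xc0c282))
 (Pq.cons (Pq.L [] 33165 (Pf.C 13 0xc0c282))
 (Pq.cons (Pq.L [] 33165 (Pf.C 13 0xc0c282))
 (Pq.cons (Pq.L [] 33165 (Pf.C 13 0xc0c282))
 (Pq.cons (Pq.D 5 (Pq.cons (Pq.L [] 0x4301a (Pf.C 16 0x41c304))
 (Pq.cons (Pq.L [] 8787 (Pf.C 16 0x410187))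
 (Pq.cons (Pq.L [] 0x40000 (Pf.C 48 775))
 (Pq.cons (Pq.L [] 0x43000 (Pf.C 45 66311))
 (Pq.cons (Pq.L [] 0x40018 (Pf.C 10 0x1c302))
 (Pq.cons (Pq.L [] 0x40018 (Pf.C 10 0x1c302))
 Pq.nil))))))) (Pq.cons (Pq.D 5 (Pq.cons (Pq.L [] 0x4301a (Pf.C 16 0x41c304))
 (Pq.cons (Pq.L [] 0x4301a (Pf.C 16 0x41c304))
 (Pq.cons (Pq.L [] 0x4301a (Pf.C 16 0x41c206))
 (Pq.cons (Pq.L [] 0x42000 (Pf.W 47 3 [] [4,6,7] (Pf.cons (Pf.B 9 6 (Pf.B 9 7 (Pf.C 46 99463) (Pf.B 9 4 (Pf.C 45 66695) (Pf.C 40 521))) (Pf.C 40 777)) Pf.nil)))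
 (Pq.cons (Pq.L [] 0x40018 (Pf.C 10 0x1c302))
 (Pq.cons (Pq.L [] 0x40018 (Pf.C 10 0x1c302))
 Pq.nil))))))) Pq.nil))))))) (Pq.cons (Pq.D 4 (Pq.cons (Pq.L [] 256 (Pf.C 2 771))
 (Pq.cons (Pq.L [] 38926 (Pf.C 16 0x418284))
 (Pq.cons (Pq.L [] 38926 (Pf.C 16 0x418205))
 (Pq.cons (Pq.D 5 (Pq.cons (Pq.L [] 0x40319 (Pf.C 13 0xe18182))
 (Pq.cons (Pq.L [] 0x40319 (Pf.C 13 0xe18182))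
 (Pq.cons (Pq.L [] 0x40319 (Pf.C 13 0xe18182))
 (Pq.cons (Pq.L [] 0x40319 (Pf.C 13 0xe18182))
 (Pq.cons (Pq.L [] 8787 (Pf.C 16 0x410187))
 (Pq.cons (Pq.L [] 8787 (Pf.C 16 0x410187))
 Pq.nil))))))) (Pq.cons (Pq.D 5 (Pq.cons (Pq.L [] 0x4301a (Pf.C 16 0x41c304))
 (Pq.cons (Pq.L [] 75798 (Pf.C 16 0x41c284))
 (Pq.cons (Pq.L [] 75798 (Pf.C 16 0x41c205))
 (Pq.cons (Pq.L [] 0x43000 (Pf.C 45 66311))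
 (Pq.cons (Pq.L [] 0x40018 (Pf.C 10 0x1c302))
 (Pq.cons (Pq.L [] 0x40018 (Pf.C 10 0x1c302))
 Pq.nil))))))) (Pq.cons (Pq.D 5 (Pq.cons (Pq.L [] 0x4301a (Pf.C 16 0x41c304))
 (Pq.cons (Pq.L [] 75798 (Pf.C 16 0x41c284))
 (Pq.cons (Pq.L [] 75798 (Pf.C 16 0x41c205))
 (Pq.cons (Pq.L [] 0x58000 (Pf.C 46 98951))
 (Pq.cons (Pq.L [] 0x40018 (Pf.C 10 0x1c302))
 (Pq.cons (Pq.L [] 0x40018 (Pf.C 10 0x1c302))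
 Pq.nil))))))) Pq.nil))))))) (Pq.cons (Pq.D 4 (Pq.cons (Pq.L [] 256 (Pf.C 2 771))
 (Pq.cons (Pq.L [] 256 (Pf.C 2 771))
 (Pq.cons (Pq.L [] 256 (Pf.C 2 771))
 (Pq.cons (Pq.D 5 (Pq.cons (Pq.L [] 0x40319 (Pf.C 13 0xe18182))
 (Pq.cons (Pq.L [] 0x40319 (Pf.C 13 0xe18182))
 (Pq.cons (Pq.L [] 0x40319 (Pf.C 13 0xe18182))
 (Pq.cons (Pq.L [] 0x40319 (Pf.C 13 0xe18182))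
 (Pq.cons (Pq.L [] 8787 (Pf.C 16 0x410187))
 (Pq.cons (Pq.L [] 8787 (Pf.C 16 0x410187))
 Pq.nil))))))) (Pq.cons (Pq.D 5 (Pq.cons (Pq.L [] 0x4301a (Pf.C 16 0x41c304))
 (Pq.cons (Pq.L [] 8787 (Pf.C 16 0x410187))
 (Pq.cons (Pq.L [] 0x40000 (Pf.C 48 775))
 (Pq.cons (Pq.L [] 0x43000 (Pf.C 45 66311))
 (Pq.cons (Pq.L [] 0x40018 (Pf.C 10 0x1c302))
 (Pq.cons (Pq.L [] 0x40018 (Pf.C 10 0x1c302))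
 Pq.nil))))))) (Pq.cons (Pq.D 5 (Pq.cons (Pq.L [] 0x4301a (Pf.C 16 0x41c304))
 (Pq.cons (Pq.L [] 0x4301a (Pf.C 16 0x41c304))
 (Pq.cons (Pq.L [] 0x4301a (Pf.C 16 0x41c206))
 (Pq.cons (Pq.L [] 0x50000 (Pf.W 47 3 [] [5,6,7] (Pf.cons (Pf.B 9 6 (Pf.B 9 7 (Pf.C 46 99463) (Pf.B 9 5 (Pf.C 45 83079) (Pf.C 40 649))) (Pf.C 40 777)) Pf.nil)))
 (Pq.cons (Pq.L [] 0x40018 (Pf.C 10 0x1c302))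
 (Pq.cons (Pq.L [] 0x40018 (Pf.C 10 0x1c302))
 Pq.nil))))))) Pq.nil))))))) Pq.nil))))))) Pq.nil))))))) (Pq.cons (Pq.D 2 (Pq.cons (Pq.L [] 64 (Pf.C 2 515))
 (Pq.cons (Pq.L [] 64 (Pf.C 2 515))
 (Pq.cons (Pq.L [] 64 (Pf.C 2 515))
 (Pq.cons (Pq.D 3 (Pq.cons (Pq.L [] 2247 (Pf.C 13 0xa0c202))
 (Pq.cons (Pq.L [] 2247 (Pf.C 13 0xa0c202))
 (Pq.cons (Pq.L [] 2247 (Pf.C 13 0xa0c202))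
 (Pq.cons (Pq.L [] 2247 (Pf.C 13 0xa0c202))
 (Pq.cons (Pq.L [] 2247 (Pf.C 15 0xa10182))
 (Pq.cons (Pq.L [] 128 (Pf.C 50 643))
 Pq.nil))))))) (Pq.cons (Pq.D 3 (Pq.cons (Pq.L [] 2247 (Pf.C 15 0x814182))
 (Pq.cons (Pq.L [] 128 (Pf.C 2 643))
 (Pq.cons (Pq.L [] 2247 (Pf.C 15 0x814182))
 (Pq.cons (Pq.L [] 2247 (Pf.C 15 0x814182))
 (Pq.cons (Pq.D 4 (Pq.cons (Pq.L [] 4427 (Pf.C 15 0x818182))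
 (Pq.cons (Pq.L [] 256 (Pf.C 2 771))
 (Pq.cons (Pq.L [] 4427 (Pf.C 15 0x818182))
 (Pq.cons (Pq.L [] 4427 (Pf.C 15 0x818182))
 (Pq.cons (Pq.D 5 (Pq.cons (Pq.L [] 0x40319 (Pf.C 16 0x41c303))
 (Pq.cons (Pq.L [] 8787 (Pf.C 16 0x41c203))
 (Pq.cons (Pq.L [] 0x40319 (Pf.C 16 0x41c303))
 (Pq.cons (Pq.D 6 (Pq.cons (Pq.L [] 0x106032 (Pf.C 15 0x820382))
 (Pq.cons (Pq.L [] 17507 (Pf.C 16 0x420203))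
 (Pq.cons (Pq.L [] 0x106032 (Pf.C 15 0x820382))
 (Pq.cons (Pq.L [] 0x106032 (Pf.C 15 0x820382))
 (Pq.cons (Pq.L [] 17507 (Pf.C 16 0x420184))
 (Pq.cons (Pq.L [] 0x106000 (Pf.C 46 0x20207))
 Pq.nil))))))) (Pq.cons (Pq.L [] 0x40018 (Pf.C 10 0x1c302))
 (Pq.cons (Pq.L [] 0x40018 (Pf.C 10 0x1c302))
 Pq.nil))))))) (Pq.cons (Pq.L [] 4427 (Pf.C 16 0x418184))
 Pq.nil))))))) (Pq.cons (Pq.L [] 2247 (Pf.C 16 0x414184))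
 Pq.nil))))))) (Pq.cons (Pq.L [] 64 (Pf.C 50 515))
 Pq.nil))))))) (Pq.cons (Pq.D 2 (Pq.cons (Pq.L [] 64 (Pf.C 2 515))
 (Pq.cons (Pq.L [] 64 (Pf.C 2 515))
 (Pq.cons (Pq.L [] 64 (Pf.C 2 515))
 (Pq.cons (Pq.D 3 (Pq.cons (Pq.L [] 2247 (Pf.C 13 0xa0c202))
 (Pq.cons (Pq.L [] 2247 (Pf.C 13 0xa0c202))
 (Pq.cons (Pq.L [] 2247 (Pf.C 13 0xa0c202))
 (Pq.cons (Pq.L [] 2247 (Pf.C 13 0xa0c202))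
 (Pq.cons (Pq.L [] 128 (Pf.C 48 643))
 (Pq.cons (Pq.L [] 2247 (Pf.C 15 0xa10182))
 Pq.nil))))))) (Pq.cons (Pq.L [] 64 (Pf.C 48 515))
 (Pq.cons (Pq.D 3 (Pq.cons (Pq.L [] 2247 (Pf.C 15 0x814182))
 (Pq.cons (Pq.L [] 2247 (Pf.C 15 0x814182))
 (Pq.cons (Pq.L [] 128 (Pf.C 2 643))
 (Pq.cons (Pq.L [] 2247 (Pf.C 15 0x814182))
 (Pq.cons (Pq.L [] 2247 (Pf.C 16 0x414184))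
 (Pq.cons (Pq.D 4 (Pq.cons (Pq.L [] 4427 (Pf.C 15 0x818182))
 (Pq.cons (Pq.L [] 4427 (Pf.C 15 0x818182))
 (Pq.cons (Pq.L [] 256 (Pf.C 2 771))
 (Pq.cons (Pq.L [] 4427 (Pf.C 15 0x818182))
 (Pq.cons (Pq.L [] 4427 (Pf.C 16 0x418184))
 (Pq.cons (Pq.D 5 (Pq.cons (Pq.L [] 0x40319 (Pf.C 16 0x41c303))
 (Pq.cons (Pq.L [] 0x40319 (Pf.C 16 0x41c303))
 (Pq.cons (Pq.L [] 8787 (Pf.C 16 0x41c203))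
 (Pq.cons (Pq.D 6 (Pq.cons (Pq.L [] 0x106032 (Pf.C 15 0x820382))
 (Pq.cons (Pq.L [] 0x106032 (Pf.C 15 0x820382))
 (Pq.cons (Pq.L [] 17507 (Pf.C 16 0x420203))
 (Pq.cons (Pq.L [] 0x106032 (Pf.C 15 0x820382))
 (Pq.cons (Pq.L [] 0x106000 (Pf.C 45 66567))
 (Pq.cons (Pq.L [] 17507 (Pf.C 16 0x420184))
 Pq.nil))))))) (Pq.cons (Pq.L [] 0x40018 (Pf.C 10 0x1c302))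
 (Pq.cons (Pq.L [] 0x40018 (Pf.C 10 0x1c302))
 Pq.nil))))))) Pq.nil))))))) Pq.nil))))))) Pq.nil))))))) Pq.nil)))
theorem e5_o23 : AllRef e5_T e5_G29 (List.take 3 (List.flatMap (splitP 1) (List.take 1 (List.drop 1 (List.drop 2 (List.flatMap (splitP 0) (List.drop 1 (applyObl d_T 2 [38,39,40,42,44,46] [0,0,0,0,0,0] [(39,0x100000000000),(40,0x400000000000),(44,0x8000000000),(46,0x10000000000)])))))))) :=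
  chkPq_sound e5_o23c _ (by decide +kernel)
noncomputable def e5_o24c : Pq := (Pq.cons (Pq.D 2 (Pq.cons (Pq.D 3 (Pq.cons (Pq.L [] 2247 (Pf.C 13 0xa0c202))
 (Pq.cons (Pq.L [] 2247 (Pf.C 13 0xa0c202))
 (Pq.cons (Pq.L [] 2247 (Pf.C 13 0xa0c202))
 (Pq.cons (Pq.L [] 2247 (Pf.C 13 0xa0c202))
 (Pq.cons (Pq.D 4 (Pq.cons (Pq.L [] 4427 (Pf.C 13 0xc0c202))
 (Pq.cons (Pq.L [] 4427 (Pf.C 13 0xc0c202))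
 (Pq.cons (Pq.L [] 4427 (Pf.C 13 0xc0c202))
 (Pq.cons (Pq.L [] 4427 (Pf.C 13 0xc0c202))
 (Pq.cons (Pq.L [0,1] 4291 (Pf.B 5 1 (Pf.C 9 81921) (Pf.B 3 1 (Pf.B 2 1 (Pf.B 4 1 (Pf.B 4 0 (Pf.W 47 4 [] [0,6] (Pf.cons (Pf.B 9 6 (Pf.C 16 66694) (Pf.C 8 99460)) Pf.nil)) (Pf.C 7 16388)) (Pf.C 13 0x610082)) (Pf.C 11 16386)) (Pf.C 4 16773))))
 (Pq.cons (Pq.L [] 4096 (Pf.W 47 4 [] [6] (Pf.cons (Pf.B 9 6 (Pf.C 43 99460) (Pf.C 40 777)) Pf.nil)))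
 Pq.nil))))))) (Pq.cons (Pq.D 4 (Pq.cons (Pq.L [] 4427 (Pf.C 13 0xc0c202))
 (Pq.cons (Pq.L [] 4427 (Pf.C 13 0xc0c202))
 (Pq.cons (Pq.L [] 4427 (Pf.C 13 0xc0c202))
 (Pq.cons (Pq.L [] 4427 (Pf.C 13 0xc0c202))
 (Pq.cons (Pq.L [0,1] 4423 (Pf.B 6 1 (Pf.C 9 98305) (Pf.B 5 1 (Pf.B 3 1 (Pf.B 2 1 (Pf.B 4 1 (Pf.B 4 0 (Pf.W 47 4 [] [0,6] (Pf.cons (Pf.B 9 6 (Pf.C 16 66694) (Pf.C 8 99460)) Pf.nil)) (Pf.C 7 16388)) (Pf.C 13 0x610082)) (Pf.C 9 82050)) (Pf.C 4 16774)) (Pf.C 4 133))))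
 (Pq.cons (Pq.L [] 4096 (Pf.W 47 4 [] [6] (Pf.cons (Pf.B 9 6 (Pf.C 43 99460) (Pf.C 40 777)) Pf.nil)))
 Pq.nil))))))) Pq.nil))))))) (Pq.cons (Pq.D 3 (Pq.cons (Pq.L [] 2247 (Pf.C 13 0xa0c202))
 (Pq.cons (Pq.L [] 2247 (Pf.C 13 0xa0c202))
 (Pq.cons (Pq.L [] 2247 (Pf.C 13 0xa0c202))
 (Pq.cons (Pq.L [] 2247 (Pf.C 13 0xa0c202))
 (Pq.cons (Pq.D 4 (Pq.cons (Pq.L [] 4427 (Pf.C 13 0xc0c202))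
 (Pq.cons (Pq.L [] 4427 (Pf.C 13 0xc0c202))
 (Pq.cons (Pq.L [] 4427 (Pf.C 13 0xc0c202))
 (Pq.cons (Pq.L [] 4427 (Pf.C 13 0xc0c202))
 (Pq.cons (Pq.L [] 39360 (Pf.C 0 0xc10185))
 (Pq.cons (Pq.L [] 38926 (Pf.C 16 0x414206))
 Pq.nil))))))) (Pq.cons (Pq.D 4 (Pq.cons (Pq.L [] 4427 (Pf.C 13 0xc0c202))
 (Pq.cons (Pq.L [] 4427 (Pf.C 13 0xc0c202))
 (Pq.cons (Pq.L [] 4427 (Pf.C 13 0xc0c202))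
 (Pq.cons (Pq.L [] 4427 (Pf.C 13 0xc0c202))
 (Pq.cons (Pq.L [] 38926 (Pf.C 16 0x418205))
 (Pq.cons (Pq.D 5 (Pq.cons (Pq.L [] 0x4301a (Pf.C 16 0x41c304))
 (Pq.cons (Pq.L [] 0x4301a (Pf.C 16 0x41c304))
 (Pq.cons (Pq.L [] 75798 (Pf.C 16 0x41c284))
 (Pq.cons (Pq.L [0,1] 0x173e80 (Pf.B 7 1 (Pf.B 7 0 (Pf.B 5 1 (Pf.B 4 1 (Pf.B 4 0 (Pf.B 3 0 (Pf.B 8 5 (Pf.B 8 0 (Pf.C 17 0x30a00388) (Pf.W 47 4 [] [6] (Pf.cons (Pf.B 9 6 (Pf.C 43 99460) (Pf.C 40 777)) Pf.nil))) (Pf.W 47 4 [] [6] (Pf.cons (Pf.B 9 6 (Pf.C 43 99460) (Pf.C 40 777)) Pf.nil))) (Pf.C 4 389)) (Pf.C 7 16388)) (Pf.C 15 0xa04207)) (Pf.C 4 133)) (Pf.C 4 902)) (Pf.C 11 16391)))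
 (Pq.cons (Pq.L [] 0x40018 (Pf.C 10 0x1c302))
 (Pq.cons (Pq.L [] 0x40018 (Pf.C 10 0x1c302))
 Pq.nil))))))) Pq.nil))))))) Pq.nil))))))) (Pq.cons (Pq.D 3 (Pq.cons (Pq.L [] 2247 (Pf.C 13 0xa0c202))
 (Pq.cons (Pq.L [] 2247 (Pf.C 13 0xa0c202))
 (Pq.cons (Pq.L [] 2247 (Pf.C 13 0xa0c202))
 (Pq.cons (Pq.L [] 2247 (Pf.C 13 0xa0c202))
 (Pq.cons (Pq.D 4 (Pq.cons (Pq.L [] 4427 (Pf.C 13 0xc0c202))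
 (Pq.cons (Pq.L [] 4427 (Pf.C 13 0xc0c202))
 (Pq.cons (Pq.L [] 4427 (Pf.C 13 0xc0c202))
 (Pq.cons (Pq.L [] 4427 (Pf.C 13 0xc0c202))
 (Pq.cons (Pq.D 5 (Pq.cons (Pq.L [] 0x4301a (Pf.C 16 0x41c304))
 (Pq.cons (Pq.L [] 75798 (Pf.C 16 0x41c284))
 (Pq.cons (Pq.L [] 0x4301a (Pf.C 16 0x41c304))
 (Pq.cons (Pq.L [0,1] 0x1fbf80 (Pf.B 7 1 (Pf.B 7 0 (Pf.B 6 1 (Pf.C 9 98305) (Pf.B 5 1 (Pf.C 9 81921) (Pf.B 4 0 (Pf.B 3 1 (Pf.B 3 0 (Pf.B 8 6 (Pf.B 8 5 (Pf.B 8 0 (Pf.W 51 4 [] [6] (Pf.cons (Pf.B 9 6 (Pf.C 44 0x24304) (Pf.C 40 1158)) Pf.nil)) (Pf.C 17 0x60614008)) (Pf.W 51 4 [] [6] (Pf.cons (Pf.B 9 6 (Pf.C 44 0x24304) (Pf.C 40 1158)) Pf.nil))) (Pf.B 8 1 (Pf.B 8 5 (Pf.C 17 0x30a04388) (Pf.W 51 4 [] [6] (Pf.cons (Pf.B 9 6 (Pf.C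 44 0x24304) (Pf.C 40 1158)) Pf.nil))) (Pf.C 0 0xe18401))) (Pf.C 6 16387)) (Pf.C 4 16773)) (Pf.C 15 0xa00207)))) (Pf.C 6 16391)) (Pf.C 11 16391)))
 (Pq.cons (Pq.L [] 0x40018 (Pf.C 10 0x1c302))
 (Pq.cons (Pq.L [] 0x40018 (Pf.C 10 0x1c302))
 Pq.nil))))))) (Pq.cons (Pq.L [] 38926 (Pf.C 16 0x418205))
 Pq.nil))))))) (Pq.cons (Pq.D 4 (Pq.cons (Pq.L [] 4427 (Pf.C 13 0xc0c202))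
 (Pq.cons (Pq.L [] 4427 (Pf.C 13 0xc0c202))
 (Pq.cons (Pq.L [] 4427 (Pf.C 13 0xc0c202))
 (Pq.cons (Pq.L [] 4427 (Pf.C 13 0xc0c202))
 (Pq.cons (Pq.L [] 38926 (Pf.C 16 0x414206))
 (Pq.cons (Pq.L [] 39360 (Pf.C 0 0xc10185))
 Pq.nil))))))) Pq.nil))))))) (Pq.cons (Pq.L [] 64 (Pf.C 42 515))
 (Pq.cons (Pq.D 3 (Pq.cons (Pq.D 4 (Pq.cons (Pq.L [] 33165 (Pf.C 13 0xc0c282))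
 (Pq.cons (Pq.L [] 33165 (Pf.C 13 0xc0c282))
 (Pq.cons (Pq.L [] 33165 (Pf.C 13 0xc0c282))
 (Pq.cons (Pq.L [] 33165 (Pf.C 13 0xc0c282))
 (Pq.cons (Pq.L [0,1] 32965 (Pf.B 4 1 (Pf.C 9 65537) (Pf.B 3 1 (Pf.B 2 1 (Pf.B 5 1 (Pf.B 5 0 (Pf.W 47 5 [] [0,6] (Pf.cons (Pf.B 9 6 (Pf.C 16 83078) (Pf.C 8 99461)) Pf.nil)) (Pf.C 7 16389)) (Pf.C 13 0x614082)) (Pf.C 11 16386)) (Pf.C 4 16772))))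
 (Pq.cons (Pq.L [] 32768 (Pf.W 47 5 [] [6] (Pf.cons (Pf.B 9 6 (Pf.C 43 99461) (Pf.C 40 777)) Pf.nil)))
 Pq.nil))))))) (Pq.cons (Pq.D 4 (Pq.cons (Pq.L [] 33165 (Pf.C 13 0xc0c282))
 (Pq.cons (Pq.L [] 33165 (Pf.C 13 0xc0c282))
 (Pq.cons (Pq.L [] 33165 (Pf.C 13 0xc0c282))
 (Pq.cons (Pq.L [] 33165 (Pf.C 13 0xc0c282))
 (Pq.cons (Pq.L [] 39360 (Pf.C 0 0xc14184))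
 (Pq.cons (Pq.L [] 38926 (Pf.C 16 0x414206))
 Pq.nil))))))) (Pq.cons (Pq.D 4 (Pq.cons (Pq.L [] 33165 (Pf.C 13 0xc0c282))
 (Pq.cons (Pq.L [] 33165 (Pf.C 13 0xc0c282))
 (Pq.cons (Pq.L [] 33165 (Pf.C 13 0xc0c282))
 (Pq.cons (Pq.L [] 33165 (Pf.C 13 0xc0c282))
 (Pq.cons (Pq.D 5 (Pq.cons (Pq.L [] 0x4301a (Pf.C 16 0x41c304))
 (Pq.cons (Pq.L [] 75798 (Pf.C 16 0x41c205))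
 (Pq.cons (Pq.L [] 0x4301a (Pf.C 16 0x41c304))
 (Pq.cons (Pq.D 6 (Pq.cons (Pq.L [] 0x106032 (Pf.C 15 0x820382))
 (Pq.cons (Pq.L [] 0x24826 (Pf.C 16 0x420205))
 (Pq.cons (Pq.L [] 0x106032 (Pf.C 15 0x820382))
 (Pq.cons (Pq.L [] 0x106032 (Pf.C 15 0x820382))
 (Pq.cons (Pq.L [] 0x204a5 (Pf.C 15 0x1014182))
 (Pq.cons (Pq.L [] 0x24826 (Pf.C 16 0x420284))
 Pq.nil))))))) (Pq.cons (Pq.L [] 0x40018 (Pf.C 10 0x1c302))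
 (Pq.cons (Pq.L [] 0x40018 (Pf.C 10 0x1c302))
 Pq.nil))))))) (Pq.cons (Pq.L [] 38926 (Pf.C 16 0x418284))
 Pq.nil))))))) (Pq.cons (Pq.L [] 128 (Pf.C 42 643))
 (Pq.cons (Pq.D 4 (Pq.cons (Pq.D 5 (Pq.cons (Pq.L [] 0x40319 (Pf.C 13 0xe18182))
 (Pq.cons (Pq.L [] 0x40319 (Pf.C 13 0xe18182))
 (Pq.cons (Pq.L [] 0x40319 (Pf.C 13 0xe18182))
 (Pq.cons (Pq.L [] 0x40319 (Pf.C 13 0xe18182))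
 (Pq.cons (Pq.L [] 0x4301a (Pf.C 16 0x41c304))
 (Pq.cons (Pq.L [] 0x4301a (Pf.C 16 0x41c304))
 Pq.nil))))))) (Pq.cons (Pq.L [] 39360 (Pf.C 0 0xa18184))
 (Pq.cons (Pq.D 5 (Pq.cons (Pq.L [] 0x40319 (Pf.C 13 0xe18182))
 (Pq.cons (Pq.L [] 0x40319 (Pf.C 13 0xe18182))
 (Pq.cons (Pq.L [] 0x40319 (Pf.C 13 0xe18182))
 (Pq.cons (Pq.L [] 0x40319 (Pf.C 13 0xe18182))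
 (Pq.cons (Pq.L [] 0x4301a (Pf.C 16 0x41c304))
 (Pq.cons (Pq.L [] 0x40319 (Pf.C 15 0xe18182))
 Pq.nil))))))) (Pq.cons (Pq.L [] 256 (Pf.C 42 771))
 (Pq.cons (Pq.D 5 (Pq.cons (Pq.L [] 0x4301a (Pf.C 16 0x41c304))
 (Pq.cons (Pq.L [] 0x4301a (Pf.C 16 0x41c206))
 (Pq.cons (Pq.L [] 0x4301a (Pf.C 16 0x41c304))
 (Pq.cons (Pq.D 6 (Pq.cons (Pq.L [] 0x106032 (Pf.C 15 0x820382))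
 (Pq.cons (Pq.L [] 0xa85ad (Pf.W 53 3 [] [2,5,6,8] (Pf.cons (Pf.B 9 8 (Pf.B 9 2 (Pf.B 9 6 (Pf.C 16 0x420309) (Pf.B 9 5 (Pf.C 16 0x420289) (Pf.C 0 0xc0c485))) (Pf.C 13 0x624108)) (Pf.C 2 1033)) (Pf.cons (Pf.B 9 8 (Pf.B 9 2 (Pf.B 9 6 (Pf.C 16 0x420309) (Pf.B 9 5 (Pf.C 16 0x420289) (Pf.C 0 0xc0c485))) (Pf.C 13 0x624108)) (Pf.C 2 1033)) (Pf.cons (Pf.B 9 8 (Pf.B 9 6 (Pf.B 9 5 (Pf.C 14 0xc20289) (Pf.C 48 649)) (Pf.C 48 777)) (Pf.C 2 1033)) Pf.nil)))))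
 (Pq.cons (Pq.L [] 0x106032 (Pf.C 15 0x820382))
 (Pq.cons (Pq.L [] 0x106032 (Pf.C 15 0x820382))
 (Pq.cons (Pq.L [] 0x136ef7 (Pf.C 1 0x2830820382))
 (Pq.cons (Pq.L [] 0x136ef7 (Pf.C 1 0x2830820382))
 Pq.nil))))))) (Pq.cons (Pq.L [] 0x40018 (Pf.C 10 0x1c302))
 (Pq.cons (Pq.L [] 0x40018 (Pf.C 10 0x1c302))
 Pq.nil))))))) (Pq.cons (Pq.D 5 (Pq.cons (Pq.L [] 0x4301a (Pf.C 16 0x41c304))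
 (Pq.cons (Pq.L [] 0x40000 (Pf.C 50 775))
 (Pq.cons (Pq.D 6 (Pq.cons (Pq.L [] 0x106032 (Pf.C 15 0x820382))
 (Pq.cons (Pq.L [] 0x1c0038 (Pf.C 15 0xc20382))
 (Pq.cons (Pq.L [] 0x106032 (Pf.C 15 0x820382))
 (Pq.cons (Pq.L [] 0x106032 (Pf.C 15 0x820382))
 (Pq.cons (Pq.L [] 0x106032 (Pf.C 16 0x420384))
 (Pq.cons (Pq.L [] 17472 (Pf.C 45 0x20203))
 Pq.nil))))))) (Pq.cons (Pq.L [] 0x43000 (Pf.C 46 98823))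
 (Pq.cons (Pq.L [] 0x40018 (Pf.C 10 0x1c302))
 (Pq.cons (Pq.L [] 0x40018 (Pf.C 10 0x1c302))
 Pq.nil))))))) Pq.nil))))))) (Pq.cons (Pq.D 4 (Pq.cons (Pq.D 5 (Pq.cons (Pq.L [] 0x40319 (Pf.C 13 0xe18182))
 (Pq.cons (Pq.L [] 0x40319 (Pf.C 13 0xe18182))
 (Pq.cons (Pq.L [] 0x40319 (Pf.C 13 0xe18182))
 (Pq.cons (Pq.L [] 0x40319 (Pf.C 13 0xe18182))
 (Pq.cons (Pq.L [] 0x4301a (Pf.C 16 0x41c304))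
 (Pq.cons (Pq.L [] 0x4301a (Pf.C 16 0x41c304))
 Pq.nil))))))) (Pq.cons (Pq.L [] 38926 (Pf.C 16 0x418205))
 (Pq.cons (Pq.L [] 38926 (Pf.C 16 0x418284))
 (Pq.cons (Pq.L [] 256 (Pf.C 42 771))
 (Pq.cons (Pq.D 5 (Pq.cons (Pq.L [] 0x4301a (Pf.C 16 0x41c304))
 (Pq.cons (Pq.L [] 75798 (Pf.C 16 0x41c205))
 (Pq.cons (Pq.L [] 75798 (Pf.C 16 0x41c284))
 (Pq.cons (Pq.L [] 0x58000 (Pf.C 45 82695))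
 (Pq.cons (Pq.L [] 0x40018 (Pf.C 10 0x1c302))
 (Pq.cons (Pq.L [] 0x40018 (Pf.C 10 0x1c302))
 Pq.nil))))))) (Pq.cons (Pq.D 5 (Pq.cons (Pq.L [] 0x4301a (Pf.C 16 0x41c304))
 (Pq.cons (Pq.L [] 75798 (Pf.C 16 0x41c205))
 (Pq.cons (Pq.L [] 75798 (Pf.C 16 0x41c284))
 (Pq.cons (Pq.L [] 0x43000 (Pf.C 46 98823))
 (Pq.cons (Pq.L [] 0x40018 (Pf.C 10 0x1c302))
 (Pq.cons (Pq.L [] 0x40018 (Pf.C 10 0x1c302))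
 Pq.nil))))))) Pq.nil))))))) Pq.nil))))))) (Pq.cons (Pq.D 3 (Pq.cons (Pq.D 4 (Pq.cons (Pq.L [] 33165 (Pf.C 13 0xc0c282))
 (Pq.cons (Pq.L [] 33165 (Pf.C 13 0xc0c282))
 (Pq.cons (Pq.L [] 33165 (Pf.C 13 0xc0c282))
 (Pq.cons (Pq.L [] 33165 (Pf.C 13 0xc0c282))
 (Pq.cons (Pq.L [0,1] 33159 (Pf.B 6 1 (Pf.C 9 98305) (Pf.B 4 1 (Pf.B 3 1 (Pf.B 2 1 (Pf.B 5 1 (Pf.B 5 0 (Pf.W 47 5 [] [0,6] (Pf.cons (Pf.B 9 6 (Pf.C 16 83078) (Pf.C 8 99461)) Pf.nil)) (Pf.C 7 16389)) (Pf.C 13 0x614082)) (Pf.C 9 65666)) (Pf.C 4 16774)) (Pf.C 4 132))))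
 (Pq.cons (Pq.L [] 32768 (Pf.W 47 5 [] [6] (Pf.cons (Pf.B 9 6 (Pf.C 43 99461) (Pf.C 40 777)) Pf.nil)))
 Pq.nil))))))) (Pq.cons (Pq.D 4 (Pq.cons (Pq.L [] 33165 (Pf.C 13 0xc0c282))
 (Pq.cons (Pq.L [] 33165 (Pf.C 13 0xc0c282))
 (Pq.cons (Pq.L [] 33165 (Pf.C 13 0xc0c282))
 (Pq.cons (Pq.L [] 33165 (Pf.C 13 0xc0c282))
 (Pq.cons (Pq.L [] 38926 (Pf.C 16 0x418284))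
 (Pq.cons (Pq.D 5 (Pq.cons (Pq.L [] 0x4301a (Pf.C 16 0x41c304))
 (Pq.cons (Pq.L [] 0x4301a (Pf.C 16 0x41c304))
 (Pq.cons (Pq.L [] 75798 (Pf.C 16 0x41c205))
 (Pq.cons (Pq.L [0,1] 0x15ee40 (Pf.B 7 1 (Pf.B 7 0 (Pf.B 4 1 (Pf.B 5 1 (Pf.B 5 0 (Pf.B 3 0 (Pf.B 8 4 (Pf.B 8 0 (Pf.C 17 0x30800388) (Pf.W 47 5 [] [6] (Pf.cons (Pf.B 9 6 (Pf.C 43 99461) (Pf.C 40 777)) Pf.nil))) (Pf.W 47 5 [] [6] (Pf.cons (Pf.B 9 6 (Pf.C 43 99461) (Pf.C 40 777)) Pf.nil))) (Pf.C 4 388)) (Pf.C 7 16389)) (Pf.C 15 0x804287)) (Pf.C 4 132)) (Pf.C 4 902)) (Pf.C 11 16391)))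
 (Pq.cons (Pq.L [] 0x40018 (Pf.C 10 0x1c302))
 (Pq.cons (Pq.L [] 0x40018 (Pf.C 10 0x1c302))
 Pq.nil))))))) Pq.nil))))))) (Pq.cons (Pq.D 4 (Pq.cons (Pq.L [] 33165 (Pf.C 13 0xc0c282))
 (Pq.cons (Pq.L [] 33165 (Pf.C 13 0xc0c282))
 (Pq.cons (Pq.L [] 33165 (Pf.C 13 0xc0c282))
 (Pq.cons (Pq.L [] 33165 (Pf.C 13 0xc0c282))
 (Pq.cons (Pq.L [] 38926 (Pf.C 16 0x414206))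
 (Pq.cons (Pq.L [] 39360 (Pf.C 0 0xc14184))
 Pq.nil))))))) (Pq.cons (Pq.L [] 128 (Pf.C 42 643))
 (Pq.cons (Pq.D 4 (Pq.cons (Pq.D 5 (Pq.cons (Pq.L [] 0x40319 (Pf.C 13 0xe18182))
 (Pq.cons (Pq.L [] 0x40319 (Pf.C 13 0xe18182))
 (Pq.cons (Pq.L [] 0x40319 (Pf.C 13 0xe18182))
 (Pq.cons (Pq.L [] 0x40319 (Pf.C 13 0xe18182))
 (Pq.cons (Pq.L [] 0x4301a (Pf.C 16 0x41c304))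
 (Pq.cons (Pq.L [] 0x4301a (Pf.C 16 0x41c304))
 Pq.nil))))))) (Pq.cons (Pq.L [] 38926 (Pf.C 16 0x418284))
 (Pq.cons (Pq.L [] 38926 (Pf.C 16 0x418205))
 (Pq.cons (Pq.L [] 256 (Pf.C 42 771))
 (Pq.cons (Pq.D 5 (Pq.cons (Pq.L [] 0x4301a (Pf.C 16 0x41c304))
 (Pq.cons (Pq.L [] 75798 (Pf.C 16 0x41c284))
 (Pq.cons (Pq.L [] 75798 (Pf.C 16 0x41c205))
 (Pq.cons (Pq.L [] 0x43000 (Pf.C 45 66311))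
 (Pq.cons (Pq.L [] 0x40018 (Pf.C 10 0x1c302))
 (Pq.cons (Pq.L [] 0x40018 (Pf.C 10 0x1c302))
 Pq.nil))))))) (Pq.cons (Pq.D 5 (Pq.cons (Pq.L [] 0x4301a (Pf.C 16 0x41c304))
 (Pq.cons (Pq.L [] 75798 (Pf.C 16 0x41c284))
 (Pq.cons (Pq.L [] 75798 (Pf.C 16 0x41c205))
 (Pq.cons (Pq.L [] 0x58000 (Pf.C 46 98951))
 (Pq.cons (Pq.L [] 0x40018 (Pf.C 10 0x1c302))
 (Pq.cons (Pq.L [] 0x40018 (Pf.C 10 0x1c302))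
 Pq.nil))))))) Pq.nil))))))) (Pq.cons (Pq.D 4 (Pq.cons (Pq.D 5 (Pq.cons (Pq.L [] 0x40319 (Pf.C 13 0xe18182))
 (Pq.cons (Pq.L [] 0x40319 (Pf.C 13 0xe18182))
 (Pq.cons (Pq.L [] 0x40319 (Pf.C 13 0xe18182))
 (Pq.cons (Pq.L [] 0x40319 (Pf.C 13 0xe18182))
 (Pq.cons (Pq.L [] 0x4301a (Pf.C 16 0x41c304))
 (Pq.cons (Pq.L [] 0x4301a (Pf.C 16 0x41c304))
 Pq.nil))))))) (Pq.cons (Pq.D 5 (Pq.cons (Pq.L [] 0x40319 (Pf.C 13 0xe18182))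
 (Pq.cons (Pq.L [] 0x40319 (Pf.C 13 0xe18182))
 (Pq.cons (Pq.L [] 0x40319 (Pf.C 13 0xe18182))
 (Pq.cons (Pq.L [] 0x40319 (Pf.C 13 0xe18182))
 (Pq.cons (Pq.L [] 0x40319 (Pf.C 15 0xe18182))
 (Pq.cons (Pq.L [] 0x4301a (Pf.C 16 0x41c304))
 Pq.nil))))))) (Pq.cons (Pq.L [] 39360 (Pf.C 0 0xa18184))
 (Pq.cons (Pq.L [] 256 (Pf.C 42 771))
 (Pq.cons (Pq.D 5 (Pq.cons (Pq.L [] 0x4301a (Pf.C 16 0x41c304))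
 (Pq.cons (Pq.D 6 (Pq.cons (Pq.L [] 0x106032 (Pf.C 15 0x820382))
 (Pq.cons (Pq.L [] 0x106032 (Pf.C 15 0x820382))
 (Pq.cons (Pq.L [] 0x1c0038 (Pf.C 15 0xc20382))
 (Pq.cons (Pq.L [] 0x106032 (Pf.C 15 0x820382))
 (Pq.cons (Pq.L [] 17472 (Pf.C 46 66563))
 (Pq.cons (Pq.L [] 0x106032 (Pf.C 16 0x420384))
 Pq.nil))))))) (Pq.cons (Pq.L [] 0x40000 (Pf.C 48 775))
 (Pq.cons (Pq.L [] 0x43000 (Pf.C 45 66311))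
 (Pq.cons (Pq.L [] 0x40018 (Pf.C 10 0x1c302))
 (Pq.cons (Pq.L [] 0x40018 (Pf.C 10 0x1c302))
 Pq.nil))))))) (Pq.cons (Pq.D 5 (Pq.cons (Pq.L [] 0x4301a (Pf.C 16 0x41c304))
 (Pq.cons (Pq.L [] 0x4301a (Pf.C 16 0x41c304))
 (Pq.cons (Pq.L [] 0x4301a (Pf.C 16 0x41c206))
 (Pq.cons (Pq.D 6 (Pq.cons (Pq.L [] 0x106032 (Pf.C 15 0x820382))
 (Pq.cons (Pq.L [] 0x106032 (Pf.C 15 0x820382))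
 (Pq.cons (Pq.L [] 0xa85ad (Pf.W 53 3 [] [2,5,6,8] (Pf.cons (Pf.B 9 8 (Pf.B 9 2 (Pf.B 9 6 (Pf.C 16 0x420309) (Pf.B 9 5 (Pf.C 16 0x420289) (Pf.C 0 0xc0c485))) (Pf.C 13 0x624108)) (Pf.C 2 1033)) (Pf.cons (Pf.B 9 8 (Pf.B 9 6 (Pf.B 9 5 (Pf.C 14 0xc20289) (Pf.C 50 649)) (Pf.C 50 777)) (Pf.C 2 1033)) (Pf.cons (Pf.B 9 8 (Pf.B 9 2 (Pf.B 9 6 (Pf.C 16 0x420309) (Pf.B 9 5 (Pf.C 16 0x420289) (Pf.C 0 0xc0c485))) (Pf.C 13 0x624108)) (Pf.C 2 1033)) Pf.nil)))))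
 (Pq.cons (Pq.L [] 0x106032 (Pf.C 15 0x820382))
 (Pq.cons (Pq.L [] 0x136ef7 (Pf.C 1 0x2830820382))
 (Pq.cons (Pq.L [] 0x136ef7 (Pf.C 1 0x2830820382))
 Pq.nil))))))) (Pq.cons (Pq.L [] 0x40018 (Pf.C 10 0x1c302))
 (Pq.cons (Pq.L [] 0x40018 (Pf.C 10 0x1c302))
 Pq.nil))))))) Pq.nil))))))) Pq.nil))))))) Pq.nil))))))) Pq.nil)
theorem e5_o24 : AllRef e5_T e5_G29 (List.take 1 (List.drop 3 (List.flatMap (splitP 1) (List.take 1 (List.drop 1 (List.drop 2 (List.flatMap (splitP 0) (List.drop 1 (applyObl d_T 2 [38,39,40,42,44,46] [0,0,0,0,0,0] [(39,0x100000000000),(40,0x400000000000),(44,0x8000000000),(46,0x10000000000)]))))))))) :=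
  chkPq_sound e5_o24c _ (by decide +kernel)
noncomputable def e5_o25c : Pq := (Pq.cons (Pq.D 2 (Pq.cons (Pq.D 3 (Pq.cons (Pq.D 4 (Pq.cons (Pq.D 5 (Pq.cons (Pq.L [] 0x4301a (Pf.C 16 0x41c304))
 (Pq.cons (Pq.L [] 0x4301a (Pf.C 16 0x41c304))
 (Pq.cons (Pq.L [] 0x4301a (Pf.C 16 0x41c304))
 (Pq.cons (Pq.D 6 (Pq.cons (Pq.L [] 0x1c0038 (Pf.C 13 0x101c302))
 (Pq.cons (Pq.L [] 0x1c0038 (Pf.C 13 0x101c302))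
 (Pq.cons (Pq.L [] 0x1c0038 (Pf.C 13 0x101c302))
 (Pq.cons (Pq.L [] 0x1c0038 (Pf.C 13 0x101c302))
 (Pq.cons (Pq.L [] 17507 (Pf.C 16 0x410188))
 (Pq.cons (Pq.L [] 17507 (Pf.C 16 0x410188))
 Pq.nil))))))) (Pq.cons (Pq.L [] 0x4301a (Pf.C 16 0x41c304))
 (Pq.cons (Pq.L [] 0x4301a (Pf.C 16 0x41c304))
 Pq.nil))))))) (Pq.cons (Pq.L [] 4427 (Pf.C 16 0x410186))
 (Pq.cons (Pq.L [] 256 (Pf.C 48 390))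
 (Pq.cons (Pq.D 5 (Pq.cons (Pq.L [] 8787 (Pf.C 16 0x410187))
 (Pq.cons (Pq.L [] 75904 (Pf.W 49 4 [] [3,5,7] (Pf.cons (Pf.B 9 7 (Pf.B 9 5 (Pf.B 9 3 (Pf.C 43 0x24185) (Pf.C 40 1155)) (Pf.C 14 0x824287)) (Pf.C 50 1159)) Pf.nil)))
 (Pq.cons (Pq.L [] 8787 (Pf.C 16 0x410187))
 (Pq.cons (Pq.L [] 0x40000 (Pf.C 42 902))
 (Pq.cons (Pq.L [] 8787 (Pf.C 16 0x410187))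
 (Pq.cons (Pq.L [] 8787 (Pf.C 16 0x410187))
 Pq.nil))))))) (Pq.cons (Pq.L [] 265 (Pf.C 10 98690))
 (Pq.cons (Pq.L [] 265 (Pf.C 10 98690))
 Pq.nil))))))) (Pq.cons (Pq.L [] 2247 (Pf.C 16 0x410185))
 (Pq.cons (Pq.L [] 128 (Pf.C 48 389))
 (Pq.cons (Pq.D 4 (Pq.cons (Pq.D 5 (Pq.cons (Pq.L [] 0x4301a (Pf.C 16 0x41c304))
 (Pq.cons (Pq.L [] 0x4301a (Pf.C 16 0x41c304))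
 (Pq.cons (Pq.L [] 0x4301a (Pf.C 16 0x41c304))
 (Pq.cons (Pq.L [] 0x1fffc0 (Pf.B 8 3 (Pf.C 17 0x50610388) (Pf.W 53 5 [] [3,4,6,7,8] (Pf.cons (Pf.B 9 6 (Pf.B 9 4 (Pf.B 9 7 (Pf.B 9 8 (Pf.C 17 0x60e20289) (Pf.B 9 3 (Pf.C 14 0xc0c209) (Pf.C 0 0x100c485))) (Pf.C 13 0xc1c484)) (Pf.C 2 521)) (Pf.C 2 777)) (Pf.cons (Pf.B 9 6 (Pf.B 9 4 (Pf.B 9 7 (Pf.B 9 8 (Pf.C 17 0x60e20289) (Pf.B 9 3 (Pf.C 14 0xc0c209) (Pf.C 0 0x100c485))) (Pf.C 13 0xc1c484)) (Pf.C 2 521)) (Pf.C 2 777)) (Pf.cons (Pf.B 9 6 (Pf.B 9 4 (Pf.B 9 3 (Pf.C 14 0xc0c209) (Pf.C 48 393)) (Pf.C 2 521)) (Pf.C 2 777)) Pf.nil))))))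
 (Pq.cons (Pq.L [] 0x4301a (Pf.C 16 0x41c304))
 (Pq.cons (Pq.L [] 0x4301a (Pf.C 16 0x41c304))
 Pq.nil))))))) (Pq.cons (Pq.L [] 4427 (Pf.C 16 0x410186))
 (Pq.cons (Pq.L [] 256 (Pf.C 48 390))
 (Pq.cons (Pq.D 5 (Pq.cons (Pq.L [] 8787 (Pf.C 16 0x410187))
 (Pq.cons (Pq.L [] 512 (Pf.W 49 4 [] [3,7] (Pf.cons (Pf.B 9 7 (Pf.B 9 3 (Pf.C 43 0x24187) (Pf.C 40 1155)) (Pf.C 50 1159)) Pf.nil)))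
 (Pq.cons (Pq.L [] 8787 (Pf.C 16 0x410187))
 (Pq.cons (Pq.L [] 0x40000 (Pf.C 42 902))
 (Pq.cons (Pq.L [] 8787 (Pf.C 16 0x410187))
 (Pq.cons (Pq.L [] 8787 (Pf.C 16 0x410187))
 Pq.nil))))))) (Pq.cons (Pq.L [] 265 (Pf.C 10 98690))
 (Pq.cons (Pq.L [] 265 (Pf.C 10 98690))
 Pq.nil))))))) (Pq.cons (Pq.L [] 133 (Pf.C 10 82306))
 (Pq.cons (Pq.L [] 133 (Pf.C 10 82306))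
 Pq.nil))))))) (Pq.cons (Pq.D 3 (Pq.cons (Pq.L [] 2247 (Pf.C 16 0x414184))
 (Pq.cons (Pq.D 4 (Pq.cons (Pq.L [] 4427 (Pf.C 16 0x418184))
 (Pq.cons (Pq.D 5 (Pq.cons (Pq.L [] 0x40319 (Pf.C 15 0x61c302))
 (Pq.cons (Pq.L [] 8787 (Pf.C 16 0x41c184))
 (Pq.cons (Pq.L [] 0x40319 (Pf.C 15 0x61c302))
 (Pq.cons (Pq.L [] 0x40319 (Pf.C 15 0x61c302))
 (Pq.cons (Pq.L [] 8787 (Pf.C 16 0x41c203))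
 (Pq.cons (Pq.L [] 0x40319 (Pf.C 16 0x41c303))
 Pq.nil))))))) (Pq.cons (Pq.L [] 4427 (Pf.C 16 0x418184))
 (Pq.cons (Pq.D 5 (Pq.cons (Pq.D 6 (Pq.cons (Pq.L [] 0x1c0038 (Pf.C 13 0x101c302))
 (Pq.cons (Pq.L [] 0x1c0038 (Pf.C 13 0x101c302))
 (Pq.cons (Pq.L [] 0x1c0038 (Pf.C 13 0x101c302))
 (Pq.cons (Pq.L [] 0x1c0038 (Pf.C 13 0x101c302))
 (Pq.cons (Pq.L [] 17507 (Pf.C 16 0x420203))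
 (Pq.cons (Pq.L [] 0x100631 (Pf.C 16 0x420383))
 Pq.nil))))))) (Pq.cons (Pq.L [] 8787 (Pf.C 16 0x41c184))
 (Pq.cons (Pq.D 6 (Pq.cons (Pq.L [] 0x1c0038 (Pf.C 13 0x101c302))
 (Pq.cons (Pq.L [] 0x1c0038 (Pf.C 13 0x101c302))
 (Pq.cons (Pq.L [] 0x1c0038 (Pf.C 13 0x101c302))
 (Pq.cons (Pq.L [] 0x1c0038 (Pf.C 13 0x101c302))
 (Pq.cons (Pq.L [] 17507 (Pf.C 16 0x420203))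
 (Pq.cons (Pq.L [] 0x1c0038 (Pf.C 15 0x101c302))
 Pq.nil))))))) (Pq.cons (Pq.L [] 0x40000 (Pf.C 42 902))
 (Pq.cons (Pq.L [] 8787 (Pf.C 16 0x41c203))
 (Pq.cons (Pq.D 6 (Pq.cons (Pq.L [] 0x100631 (Pf.C 16 0x420383))
 (Pq.cons (Pq.L [] 17507 (Pf.C 16 0x420184))
 (Pq.cons (Pq.L [0,1] 0x106032 (Pf.B 7 1 (Pf.B 2 1 (Pf.B 8 1 (Pf.B 8 0 (Pf.B 4 1 (Pf.B 4 0 (Pf.W 47 4 [] [0,8] (Pf.cons (Pf.B 9 8 (Pf.C 16 66696) (Pf.C 48 1160)) Pf.nil)) (Pf.C 7 16388)) (Pf.C 15 0xe04202)) (Pf.C 7 16392)) (Pf.C 15 0xe04402)) (Pf.C 9 0x1c082)) (Pf.C 4 135)))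
 (Pq.cons (Pq.L [] 0x100600 (Pf.C 46 0x1c188))
 (Pq.cons (Pq.L [] 0x100030 (Pf.C 10 0x20382))
 (Pq.cons (Pq.L [] 0x100030 (Pf.C 10 0x20382))
 Pq.nil))))))) Pq.nil))))))) (Pq.cons (Pq.L [] 265 (Pf.C 10 98690))
 (Pq.cons (Pq.L [] 265 (Pf.C 10 98690))
 Pq.nil))))))) (Pq.cons (Pq.L [] 2247 (Pf.C 16 0x414184))
 (Pq.cons (Pq.D 4 (Pq.cons (Pq.L [] 4427 (Pf.C 16 0x418184))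
 (Pq.cons (Pq.D 5 (Pq.cons (Pq.L [] 0x40319 (Pf.C 15 0x61c302))
 (Pq.cons (Pq.L [] 8787 (Pf.C 16 0x41c184))
 (Pq.cons (Pq.L [] 0x40319 (Pf.C 15 0x61c302))
 (Pq.cons (Pq.L [] 0x40319 (Pf.C 15 0x61c302))
 (Pq.cons (Pq.L [] 8787 (Pf.C 16 0x41c203))
 (Pq.cons (Pq.L [] 0x40319 (Pf.C 16 0x41c303))
 Pq.nil))))))) (Pq.cons (Pq.L [] 4427 (Pf.C 16 0x418184))
 (Pq.cons (Pq.D 5 (Pq.cons (Pq.L [0,1] 0xfffc0 (Pf.B 6 1 (Pf.B 5 1 (Pf.B 7 1 (Pf.B 7 0 (Pf.B 4 0 (Pf.B 8 4 (Pf.W 47 4 [] [0,3,7] (Pf.cons (Pf.B 9 7 (Pf.C 16 66695) (Pf.B 9 3 (Pf.C 14 0xe24203) (Pf.C 8 50308))) Pf.nil)) (Pf.B 8 3 (Pf.C 17 0x60614208) (Pf.W 47 4 [] [0,3,7] (Pf.cons (Pf.B 9 7 (Pf.C 16 66695) (Pf.B 9 3 (Pf.C 14 0xe24203) (Pf.C 8 50308))) Pf.nil))))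 (Pf.C 15 0x600207)) (Pf.C 7 16391)) (Pf.C 13 0xc1c085)) (Pf.C 11 16389)) (Pf.C 11 16390)))
 (Pq.cons (Pq.L [] 8787 (Pf.C 16 0x41c184))
 (Pq.cons (Pq.L [0,1] 0x1df740 (Pf.B 6 1 (Pf.B 5 1 (Pf.B 7 1 (Pf.B 7 0 (Pf.B 4 0 (Pf.B 8 7 (Pf.B 8 4 (Pf.W 47 4 [] [0,7] (Pf.cons (Pf.B 9 7 (Pf.C 16 66695) (Pf.C 48 1159)) Pf.nil)) (Pf.B 8 3 (Pf.C 17 0x70c0c208) (Pf.W 47 4 [] [0,7] (Pf.cons (Pf.B 9 7 (Pf.C 16 66695) (Pf.C 48 1159)) Pf.nil)))) (Pf.W 47 4 [] [0,7] (Pf.cons (Pf.B 9 7 (Pf.C 16 66695) (Pf.C 48 1159)) Pf.nil))) (Pf.C 15 0x600207)) (Pf.C 7 16391)) (Pf.C 13 0xc1c085)) (Pf.C 11 16389)) (Pf.C 11 16390)))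
 (Pq.cons (Pq.L [] 0x40000 (Pf.C 42 902))
 (Pq.cons (Pq.L [] 8787 (Pf.C 16 0x41c203))
 (Pq.cons (Pq.L [] 66176 (Pf.C 45 0x1c185))
 Pq.nil))))))) (Pq.cons (Pq.L [] 265 (Pf.C 10 98690))
 (Pq.cons (Pq.L [] 265 (Pf.C 10 98690))
 Pq.nil))))))) (Pq.cons (Pq.L [] 133 (Pf.C 10 82306))
 (Pq.cons (Pq.L [] 133 (Pf.C 10 82306))
 Pq.nil))))))) (Pq.cons (Pq.L [] 64 (Pf.C 48 388))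
 (Pq.cons (Pq.D 3 (Pq.cons (Pq.D 4 (Pq.cons (Pq.D 5 (Pq.cons (Pq.L [] 0x5801c (Pf.C 16 0x41c305))
 (Pq.cons (Pq.L [] 0x5801c (Pf.C 16 0x41c305))
 (Pq.cons (Pq.L [] 0x5801c (Pf.C 16 0x41c305))
 (Pq.cons (Pq.D 6 (Pq.cons (Pq.L [] 0x1c0038 (Pf.C 13 0x101c302))
 (Pq.cons (Pq.L [] 0x1c0038 (Pf.C 13 0x101c302))
 (Pq.cons (Pq.L [] 0x1c0038 (Pf.C 13 0x101c302))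
 (Pq.cons (Pq.L [] 0x1c0038 (Pf.C 13 0x101c302))
 (Pq.cons (Pq.L [] 0x204a5 (Pf.C 16 0x414188))
 (Pq.cons (Pq.L [] 0x204a5 (Pf.C 16 0x414188))
 Pq.nil))))))) (Pq.cons (Pq.L [] 0x5801c (Pf.C 16 0x41c305))
 (Pq.cons (Pq.L [] 0x5801c (Pf.C 16 0x41c305))
 Pq.nil))))))) (Pq.cons (Pq.L [] 33165 (Pf.C 16 0x414186))
 (Pq.cons (Pq.L [] 256 (Pf.C 48 390))
 (Pq.cons (Pq.D 5 (Pq.cons (Pq.L [] 66197 (Pf.C 16 0x414187))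
 (Pq.cons (Pq.L [] 512 (Pf.W 49 5 [] [3,7] (Pf.cons (Pf.B 9 7 (Pf.B 9 3 (Pf.C 43 0x24187) (Pf.C 40 1155)) (Pf.C 50 1159)) Pf.nil)))
 (Pq.cons (Pq.L [] 66197 (Pf.C 16 0x414187))
 (Pq.cons (Pq.L [] 0x40000 (Pf.C 42 902))
 (Pq.cons (Pq.L [] 66197 (Pf.C 16 0x414187))
 (Pq.cons (Pq.L [] 66197 (Pf.C 16 0x414187))
 Pq.nil))))))) (Pq.cons (Pq.L [] 265 (Pf.C 10 98690))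
 (Pq.cons (Pq.L [] 265 (Pf.C 10 98690))
 Pq.nil))))))) (Pq.cons (Pq.D 4 (Pq.cons (Pq.L [] 33165 (Pf.C 16 0x418185))
 (Pq.cons (Pq.D 5 (Pq.cons (Pq.L [] 0x40319 (Pf.C 15 0x61c302))
 (Pq.cons (Pq.L [] 66197 (Pf.C 16 0x41c185))
 (Pq.cons (Pq.L [] 0x40319 (Pf.C 15 0x61c302))
 (Pq.cons (Pq.L [] 0x40319 (Pf.C 15 0x61c302))
 (Pq.cons (Pq.L [] 66197 (Pf.C 16 0x41c283))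
 (Pq.cons (Pq.L [] 0x40319 (Pf.C 16 0x41c303))
 Pq.nil))))))) (Pq.cons (Pq.L [] 33165 (Pf.C 16 0x418185))
 (Pq.cons (Pq.D 5 (Pq.cons (Pq.L [0,1] 0xfffc0 (Pf.B 6 1 (Pf.B 4 1 (Pf.B 7 1 (Pf.B 7 0 (Pf.B 5 0 (Pf.B 8 5 (Pf.W 47 5 [] [0,3,7] (Pf.cons (Pf.B 9 7 (Pf.C 16 83079) (Pf.B 9 3 (Pf.C 14 0xe24283) (Pf.C 8 50309))) Pf.nil)) (Pf.B 8 3 (Pf.C 17 0x60610288) (Pf.W 47 5 [] [0,3,7] (Pf.cons (Pf.B 9 7 (Pf.C 16 83079) (Pf.B 9 3 (Pf.C 14 0xe24283) (Pf.C 8 50309))) Pf.nil)))) (Pf.C 15 0x600287)) (Pf.C 7 16391)) (Pf.C 13 0xc1c084)) (Pf.C 11 16388)) (Pf.C 11 16390)))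
 (Pq.cons (Pq.L [] 66197 (Pf.C 16 0x41c185))
 (Pq.cons (Pq.L [0,1] 0x1fb780 (Pf.B 6 1 (Pf.B 4 1 (Pf.B 7 1 (Pf.B 7 0 (Pf.B 5 0 (Pf.B 8 7 (Pf.B 8 5 (Pf.W 47 5 [] [0,7] (Pf.cons (Pf.B 9 7 (Pf.C 16 83079) (Pf.C 48 1159)) Pf.nil)) (Pf.B 8 3 (Pf.C 17 0x70c0c288) (Pf.W 47 5 [] [0,7] (Pf.cons (Pf.B 9 7 (Pf.C 16 83079) (Pf.C 48 1159)) Pf.nil)))) (Pf.W 47 5 [] [0,7] (Pf.cons (Pf.B 9 7 (Pf.C 16 83079) (Pf.C 48 1159)) Pf.nil))) (Pf.C 15 0x600287)) (Pf.C 7 16391)) (Pf.C 13 0xc1c084)) (Pf.C 11 16388)) (Pf.C 11 16390)))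
 (Pq.cons (Pq.L [] 0x40000 (Pf.C 42 902))
 (Pq.cons (Pq.L [] 66197 (Pf.C 16 0x41c283))
 (Pq.cons (Pq.L [] 8768 (Pf.C 45 0x1c184))
 Pq.nil))))))) (Pq.cons (Pq.L [] 265 (Pf.C 10 98690))
 (Pq.cons (Pq.L [] 265 (Pf.C 10 98690))
 Pq.nil))))))) (Pq.cons (Pq.L [] 128 (Pf.C 48 389))
 (Pq.cons (Pq.D 4 (Pq.cons (Pq.D 5 (Pq.cons (Pq.L [] 0x40000 (Pf.C 2 902))
 (Pq.cons (Pq.L [] 0x40000 (Pf.C 2 902))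
 (Pq.cons (Pq.L [] 0x40000 (Pf.C 2 902))
 (Pq.cons (Pq.D 6 (Pq.cons (Pq.L [] 0x1c0038 (Pf.C 13 0x101c302))
 (Pq.cons (Pq.L [] 0x1c0038 (Pf.C 13 0x101c302))
 (Pq.cons (Pq.L [] 0x1c0038 (Pf.C 13 0x101c302))
 (Pq.cons (Pq.L [] 0x1c0038 (Pf.C 13 0x101c302))
 (Pq.cons (Pq.L [] 0x80529 (Pf.C 16 0x418188))
 (Pq.cons (Pq.L [] 0x80529 (Pf.C 16 0x418188))
 Pq.nil))))))) (Pq.cons (Pq.L [] 8256 (Pf.W 49 6 [] [3,4,7] (Pf.cons (Pf.B 9 7 (Pf.B 9 4 (Pf.B 9 3 (Pf.C 45 0x24184) (Pf.C 40 1155)) (Pf.C 46 0x24384)) (Pf.C 40 1159)) Pf.nil)))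
 (Pq.cons (Pq.L [] 8768 (Pf.C 45 0x1c184))
 Pq.nil))))))) (Pq.cons (Pq.D 5 (Pq.cons (Pq.L [] 0x40319 (Pf.C 15 0x61c302))
 (Pq.cons (Pq.L [] 0x40000 (Pf.C 2 902))
 (Pq.cons (Pq.L [] 0x40319 (Pf.C 15 0x61c302))
 (Pq.cons (Pq.L [] 0x40319 (Pf.C 15 0x61c302))
 (Pq.cons (Pq.L [0,1] 0xfddc0 (Pf.B 5 1 (Pf.B 5 0 (Pf.B 6 0 (Pf.B 8 6 (Pf.W 47 6 [] [0,7] (Pf.cons (Pf.B 9 7 (Pf.C 16 99463) (Pf.C 8 0x1c486)) Pf.nil)) (Pf.B 8 3 (Pf.C 17 0x50610308) (Pf.W 47 6 [] [0,7] (Pf.cons (Pf.B 9 7 (Pf.C 16 99463) (Pf.C 8 0x1c486)) Pf.nil)))) (Pf.C 15 0xe00305)) (Pf.C 6 16389)) (Pf.C 11 16389)))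
 (Pq.cons (Pq.L [] 0x40319 (Pf.C 16 0x41c303))
 Pq.nil))))))) (Pq.cons (Pq.L [] 256 (Pf.C 48 390))
 (Pq.cons (Pq.D 5 (Pq.cons (Pq.L [0,1] 0x17eec0 (Pf.B 8 3 (Pf.C 17 0x50610388) (Pf.B 6 1 (Pf.B 5 1 (Pf.B 7 1 (Pf.B 7 0 (Pf.W 47 7 [] [0,3] (Pf.cons (Pf.B 9 3 (Pf.C 16 0x1c483) (Pf.C 8 50311)) Pf.nil)) (Pf.C 7 16391)) (Pf.C 13 0xc1c085)) (Pf.C 11 16389)) (Pf.C 11 16390))))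
 (Pq.cons (Pq.D 6 (Pq.cons (Pq.L [] 0x1c0038 (Pf.C 13 0x101c302))
 (Pq.cons (Pq.L [] 0x1c0038 (Pf.C 13 0x101c302))
 (Pq.cons (Pq.L [] 0x1c0038 (Pf.C 13 0x101c302))
 (Pq.cons (Pq.L [] 0x1c0038 (Pf.C 13 0x101c302))
 (Pq.cons (Pq.L [] 0x1c0038 (Pf.C 15 0x101c302))
 (Pq.cons (Pq.L [] 17472 (Pf.C 45 0x20184))
 Pq.nil))))))) (Pq.cons (Pq.L [] 0x136ec0 (Pf.B 8 7 (Pf.W 51 7 [] [3] (Pf.cons (Pf.B 9 3 (Pf.C 44 0x24187) (Pf.C 40 1155)) Pf.nil)) (Pf.B 8 3 (Pf.C 17 0x50610388) (Pf.W 51 7 [] [3] (Pf.cons (Pf.B 9 3 (Pf.C 44 0x24187) (Pf.C 40 1155)) Pf.nil)))))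
 (Pq.cons (Pq.L [] 0x40000 (Pf.C 42 902))
 (Pq.cons (Pq.D 6 (Pq.cons (Pq.L [] 0x100631 (Pf.C 16 0x420383))
 (Pq.cons (Pq.L [] 0x100631 (Pf.C 16 0x420187))
 (Pq.cons (Pq.L [] 0x100631 (Pf.C 16 0x420383))
 (Pq.cons (Pq.L [] 0x136ef7 (Pf.C 1 0x2830820382))
 (Pq.cons (Pq.L [] 0x100030 (Pf.C 10 0x20382))
 (Pq.cons (Pq.L [] 0x100030 (Pf.C 10 0x20382))
 Pq.nil))))))) (Pq.cons (Pq.L [] 8768 (Pf.C 45 0x1c184))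
 Pq.nil))))))) (Pq.cons (Pq.L [] 265 (Pf.C 10 98690))
 (Pq.cons (Pq.L [] 265 (Pf.C 10 98690))
 Pq.nil))))))) (Pq.cons (Pq.L [] 133 (Pf.C 10 82306))
 (Pq.cons (Pq.L [] 133 (Pf.C 10 82306))
 Pq.nil))))))) (Pq.cons (Pq.L [] 67 (Pf.C 10 65922))
 (Pq.cons (Pq.L [] 67 (Pf.C 10 65922))
 Pq.nil))))))) (Pq.cons (Pq.D 2 (Pq.cons (Pq.D 3 (Pq.cons (Pq.D 4 (Pq.cons (Pq.D 5 (Pq.cons (Pq.L [] 0x4301a (Pf.C 16 0x41c304))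
 (Pq.cons (Pq.L [] 0x4301a (Pf.C 16 0x41c304))
 (Pq.cons (Pq.L [] 0x4301a (Pf.C 16 0x41c304))
 (Pq.cons (Pq.D 6 (Pq.cons (Pq.L [] 0x1c0038 (Pf.C 13 0x101c302))
 (Pq.cons (Pq.L [] 0x1c0038 (Pf.C 13 0x101c302))
 (Pq.cons (Pq.L [] 0x1c0038 (Pf.C 13 0x101c302))
 (Pq.cons (Pq.L [] 0x1c0038 (Pf.C 13 0x101c302))
 (Pq.cons (Pq.L [] 17507 (Pf.C 16 0x410188))
 (Pq.cons (Pq.L [] 17507 (Pf.C 16 0x410188))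
 Pq.nil))))))) (Pq.cons (Pq.L [] 0x4301a (Pf.C 16 0x41c304))
 (Pq.cons (Pq.L [] 0x4301a (Pf.C 16 0x41c304))
 Pq.nil))))))) (Pq.cons (Pq.L [] 256 (Pf.C 50 390))
 (Pq.cons (Pq.L [] 4427 (Pf.C 16 0x410186))
 (Pq.cons (Pq.D 5 (Pq.cons (Pq.L [] 8787 (Pf.C 16 0x410187))
 (Pq.cons (Pq.L [] 8787 (Pf.C 16 0x410187))
 (Pq.cons (Pq.L [] 75904 (Pf.W 47 4 [] [3,5,7] (Pf.cons (Pf.B 9 7 (Pf.B 9 5 (Pf.B 9 3 (Pf.C 44 50309) (Pf.C 40 393)) (Pf.C 14 0x824287)) (Pf.C 48 1159)) Pf.nil)))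
 (Pq.cons (Pq.L [] 0x40000 (Pf.C 42 902))
 (Pq.cons (Pq.L [] 8787 (Pf.C 16 0x410187))
 (Pq.cons (Pq.L [] 8787 (Pf.C 16 0x410187))
 Pq.nil))))))) (Pq.cons (Pq.L [] 265 (Pf.C 10 98690))
 (Pq.cons (Pq.L [] 265 (Pf.C 10 98690))
 Pq.nil))))))) (Pq.cons (Pq.L [] 128 (Pf.C 50 389))
 (Pq.cons (Pq.L [] 2247 (Pf.C 16 0x410185))
 (Pq.cons (Pq.D 4 (Pq.cons (Pq.D 5 (Pq.cons (Pq.L [] 0x4301a (Pf.C 16 0x41c304))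
 (Pq.cons (Pq.L [] 0x4301a (Pf.C 16 0x41c304))
 (Pq.cons (Pq.L [] 0x4301a (Pf.C 16 0x41c304))
 (Pq.cons (Pq.L [] 0x1fffc0 (Pf.B 8 3 (Pf.C 17 0x50610388) (Pf.W 53 5 [] [3,4,6,7,8] (Pf.cons (Pf.B 9 6 (Pf.B 9 4 (Pf.B 9 7 (Pf.B 9 8 (Pf.C 17 0x60e20289) (Pf.B 9 3 (Pf.C 14 0xc0c209) (Pf.C 0 0x100c485))) (Pf.C 13 0xc1c484)) (Pf.C 2 521)) (Pf.C 2 777)) (Pf.cons (Pf.B 9 6 (Pf.B 9 4 (Pf.B 9 3 (Pf.C 14 0xc0c209) (Pf.C 50 393)) (Pf.C 2 521)) (Pf.C 2 777)) (Pf.cons (Pf.B 9 6 (Pf.B 9 4 (Pf.B 9 7 (Pf.B 9 8 (Pf.C 17 0x60e20289) (Pf.B 9 3 (Pf.C 14 0xc0c209) (Pf.C 0 0x100c485))) (Pf.C 13 0xc1c484)) (Pf.C 2 521)) (Pf.C 2 777)) Pf.nil))))))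
 (Pq.cons (Pq.L [] 0x4301a (Pf.C 16 0x41c304))
 (Pq.cons (Pq.L [] 0x4301a (Pf.C 16 0x41c304))
 Pq.nil))))))) (Pq.cons (Pq.L [] 256 (Pf.C 50 390))
 (Pq.cons (Pq.L [] 4427 (Pf.C 16 0x410186))
 (Pq.cons (Pq.D 5 (Pq.cons (Pq.L [] 8787 (Pf.C 16 0x410187))
 (Pq.cons (Pq.L [] 8787 (Pf.C 16 0x410187))
 (Pq.cons (Pq.L [] 512 (Pf.W 47 4 [] [3,7] (Pf.cons (Pf.B 9 7 (Pf.B 9 3 (Pf.C 44 50311) (Pf.C 40 393)) (Pf.C 48 1159)) Pf.nil)))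
 (Pq.cons (Pq.L [] 0x40000 (Pf.C 42 902))
 (Pq.cons (Pq.L [] 8787 (Pf.C 16 0x410187))
 (Pq.cons (Pq.L [] 8787 (Pf.C 16 0x410187))
 Pq.nil))))))) (Pq.cons (Pq.L [] 265 (Pf.C 10 98690))
 (Pq.cons (Pq.L [] 265 (Pf.C 10 98690))
 Pq.nil))))))) (Pq.cons (Pq.L [] 133 (Pf.C 10 82306))
 (Pq.cons (Pq.L [] 133 (Pf.C 10 82306))
 Pq.nil))))))) (Pq.cons (Pq.L [] 64 (Pf.C 50 388))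
 (Pq.cons (Pq.D 3 (Pq.cons (Pq.L [] 2247 (Pf.C 16 0x414184))
 (Pq.cons (Pq.L [] 2247 (Pf.C 16 0x414184))
 (Pq.cons (Pq.D 4 (Pq.cons (Pq.L [] 4427 (Pf.C 16 0x418184))
 (Pq.cons (Pq.L [] 4427 (Pf.C 16 0x418184))
 (Pq.cons (Pq.D 5 (Pq.cons (Pq.L [] 0x40319 (Pf.C 15 0x61c302))
 (Pq.cons (Pq.L [] 0x40319 (Pf.C 15 0x61c302))
 (Pq.cons (Pq.L [] 8787 (Pf.C 16 0x41c184))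
 (Pq.cons (Pq.L [] 0x40319 (Pf.C 15 0x61c302))
 (Pq.cons (Pq.L [] 0x40319 (Pf.C 16 0x41c303))
 (Pq.cons (Pq.L [] 8787 (Pf.C 16 0x41c203))
 Pq.nil))))))) (Pq.cons (Pq.D 5 (Pq.cons (Pq.L [0,1] 0x5009d (Pf.B 6 1 (Pf.B 3 1 (Pf.B 2 1 (Pf.B 7 1 (Pf.B 7 0 (Pf.B 5 1 (Pf.B 5 0 (Pf.B 8 3 (Pf.W 47 7 [] [0,5] (Pf.cons (Pf.B 9 5 (Pf.C 16 0x1c485) (Pf.C 48 1157)) Pf.nil)) (Pf.W 47 7 [] [0,5] (Pf.cons (Pf.B 9 5 (Pf.C 16 0x1c485) (Pf.C 48 1157)) Pf.nil))) (Pf.C 7 16389)) (Pf.C 15 0x604282)) (Pf.C 7 16391)) (Pf.C 13 0xc1c082)) (Pf.C 9 49282)) (Pf.C 4 131)) (Pf.C 11 16390)))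
 (Pq.cons (Pq.D 6 (Pq.cons (Pq.L [] 0x1c0038 (Pf.C 13 0x101c302))
 (Pq.cons (Pq.L [] 0x1c0038 (Pf.C 13 0x101c302))
 (Pq.cons (Pq.L [] 0x1c0038 (Pf.C 13 0x101c302))
 (Pq.cons (Pq.L [] 0x1c0038 (Pf.C 13 0x101c302))
 (Pq.cons (Pq.L [] 0x1c0038 (Pf.C 15 0x101c302))
 (Pq.cons (Pq.L [] 17507 (Pf.C 16 0x420203))
 Pq.nil))))))) (Pq.cons (Pq.L [] 8787 (Pf.C 16 0x41c184))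
 (Pq.cons (Pq.L [] 0x40000 (Pf.C 42 902))
 (Pq.cons (Pq.D 6 (Pq.cons (Pq.L [] 0x100631 (Pf.C 16 0x420383))
 (Pq.cons (Pq.L [0,1] 0x100421 (Pf.B 3 1 (Pf.B 2 1 (Pf.B 8 1 (Pf.B 8 0 (Pf.W 47 8 [] [0,7] (Pf.cons (Pf.B 9 7 (Pf.C 16 0x20487) (Pf.C 8 0x1c488)) Pf.nil)) (Pf.C 7 16392)) (Pf.C 15 0x604402)) (Pf.C 9 49282)) (Pf.C 4 131)))
 (Pq.cons (Pq.L [] 17507 (Pf.C 16 0x420184))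
 (Pq.cons (Pq.L [] 0x100600 (Pf.C 45 50056))
 (Pq.cons (Pq.L [] 0x100030 (Pf.C 10 0x20382))
 (Pq.cons (Pq.L [] 0x100030 (Pf.C 10 0x20382))
 Pq.nil))))))) (Pq.cons (Pq.L [] 8787 (Pf.C 16 0x41c203))
 Pq.nil))))))) (Pq.cons (Pq.L [] 265 (Pf.C 10 98690))
 (Pq.cons (Pq.L [] 265 (Pf.C 10 98690))
 Pq.nil))))))) (Pq.cons (Pq.D 4 (Pq.cons (Pq.L [] 4427 (Pf.C 16 0x418184))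
 (Pq.cons (Pq.L [] 4427 (Pf.C 16 0x418184))
 (Pq.cons (Pq.D 5 (Pq.cons (Pq.L [] 0x40319 (Pf.C 15 0x61c302))
 (Pq.cons (Pq.L [] 0x40319 (Pf.C 15 0x61c302))
 (Pq.cons (Pq.L [] 8787 (Pf.C 16 0x41c184))
 (Pq.cons (Pq.L [] 0x40319 (Pf.C 15 0x61c302))
 (Pq.cons (Pq.L [] 0x40319 (Pf.C 16 0x41c303))
 (Pq.cons (Pq.L [] 8787 (Pf.C 16 0x41c203))
 Pq.nil))))))) (Pq.cons (Pq.D 5 (Pq.cons (Pq.L [0,1] 0x17a6c0 (Pf.B 6 1 (Pf.B 5 1 (Pf.B 7 1 (Pf.B 7 0 (Pf.B 5 0 (Pf.B 3 1 (Pf.B 4 1 (Pf.B 4 0 (Pf.B 8 3 (Pf.B 8 0 (Pf.C 17 0x50600388) (Pf.W 47 7 [] [0,4] (Pf.cons (Pf.B 9 4 (Pf.C 16 0x1c484) (Pf.C 48 1156)) Pf.nil))) (Pf.W 47 7 [] [0,4] (Pf.cons (Pf.B 9 4 (Pf.C 16 0x1c484) (Pf.C 48 1156)) Pf.nil))) (Pf.C 7 16388)) (Pf.C 15 0x604207))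 (Pf.C 4 131)) (Pf.C 4 643)) (Pf.C 7 16391)) (Pf.C 13 0xc1c085)) (Pf.C 11 16389)) (Pf.C 11 16390)))
 (Pq.cons (Pq.L [0,1] 0x17a6c0 (Pf.B 6 1 (Pf.B 5 1 (Pf.B 7 1 (Pf.B 7 0 (Pf.B 5 0 (Pf.B 3 1 (Pf.B 4 1 (Pf.B 4 0 (Pf.B 8 7 (Pf.W 47 7 [] [0,4] (Pf.cons (Pf.B 9 4 (Pf.C 16 0x1c484) (Pf.C 48 1156)) Pf.nil)) (Pf.B 8 3 (Pf.B 8 0 (Pf.C 17 0x50600388) (Pf.W 47 7 [] [0,4] (Pf.cons (Pf.B 9 4 (Pf.C 16 0x1c484) (Pf.C 48 1156)) Pf.nil))) (Pf.W 47 7 [] [0,4] (Pf.cons (Pf.B 9 4 (Pf.C 16 0x1c484) (Pf.C 48 1156)) Pf.nil)))) (Pf.C 7 16388)) (Pf.C 15 0x604207)) (Pf.C 4 131)) (Pf.C 4 643)) (Pf.C 7 16391)) (Pf.C 13 0xc1c085)) (Pf.C 11 16389)) (Pf.C 11 16390)))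
 (Pq.cons (Pq.L [] 8787 (Pf.C 16 0x41c184))
 (Pq.cons (Pq.L [] 0x40000 (Pf.C 42 902))
 (Pq.cons (Pq.L [] 66176 (Pf.C 46 50053))
 (Pq.cons (Pq.L [] 8787 (Pf.C 16 0x41c203))
 Pq.nil))))))) (Pq.cons (Pq.L [] 265 (Pf.C 10 98690))
 (Pq.cons (Pq.L [] 265 (Pf.C 10 98690))
 Pq.nil))))))) (Pq.cons (Pq.L [] 133 (Pf.C 10 82306))
 (Pq.cons (Pq.L [] 133 (Pf.C 10 82306))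
 Pq.nil))))))) (Pq.cons (Pq.D 3 (Pq.cons (Pq.D 4 (Pq.cons (Pq.D 5 (Pq.cons (Pq.L [] 0x5801c (Pf.C 16 0x41c305))
 (Pq.cons (Pq.L [] 0x5801c (Pf.C 16 0x41c305))
 (Pq.cons (Pq.L [] 0x5801c (Pf.C 16 0x41c305))
 (Pq.cons (Pq.D 6 (Pq.cons (Pq.L [] 0x1c0038 (Pf.C 13 0x101c302))
 (Pq.cons (Pq.L [] 0x1c0038 (Pf.C 13 0x101c302))
 (Pq.cons (Pq.L [] 0x1c0038 (Pf.C 13 0x101c302))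
 (Pq.cons (Pq.L [] 0x1c0038 (Pf.C 13 0x101c302))
 (Pq.cons (Pq.L [] 0x204a5 (Pf.C 16 0x414188))
 (Pq.cons (Pq.L [] 0x204a5 (Pf.C 16 0x414188))
 Pq.nil))))))) (Pq.cons (Pq.L [] 0x5801c (Pf.C 16 0x41c305))
 (Pq.cons (Pq.L [] 0x5801c (Pf.C 16 0x41c305))
 Pq.nil))))))) (Pq.cons (Pq.L [] 256 (Pf.C 50 390))
 (Pq.cons (Pq.L [] 33165 (Pf.C 16 0x414186))
 (Pq.cons (Pq.D 5 (Pq.cons (Pq.L [] 66197 (Pf.C 16 0x414187))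
 (Pq.cons (Pq.L [] 66197 (Pf.C 16 0x414187))
 (Pq.cons (Pq.L [] 512 (Pf.W 47 5 [] [3,7] (Pf.cons (Pf.B 9 7 (Pf.B 9 3 (Pf.C 44 50311) (Pf.C 40 393)) (Pf.C 48 1159)) Pf.nil)))
 (Pq.cons (Pq.L [] 0x40000 (Pf.C 42 902))
 (Pq.cons (Pq.L [] 66197 (Pf.C 16 0x414187))
 (Pq.cons (Pq.L [] 66197 (Pf.C 16 0x414187))
 Pq.nil))))))) (Pq.cons (Pq.L [] 265 (Pf.C 10 98690))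
 (Pq.cons (Pq.L [] 265 (Pf.C 10 98690))
 Pq.nil))))))) (Pq.cons (Pq.L [] 128 (Pf.C 50 389))
 (Pq.cons (Pq.D 4 (Pq.cons (Pq.L [] 33165 (Pf.C 16 0x418185))
 (Pq.cons (Pq.L [] 33165 (Pf.C 16 0x418185))
 (Pq.cons (Pq.D 5 (Pq.cons (Pq.L [] 0x40319 (Pf.C 15 0x61c302))
 (Pq.cons (Pq.L [] 0x40319 (Pf.C 15 0x61c302))
 (Pq.cons (Pq.L [] 66197 (Pf.C 16 0x41c185))
 (Pq.cons (Pq.L [] 0x40319 (Pf.C 15 0x61c302))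
 (Pq.cons (Pq.L [] 0x40319 (Pf.C 16 0x41c303))
 (Pq.cons (Pq.L [] 66197 (Pf.C 16 0x41c283))
 Pq.nil))))))) (Pq.cons (Pq.D 5 (Pq.cons (Pq.L [0,1] 0x1576c0 (Pf.B 6 1 (Pf.B 4 1 (Pf.B 7 1 (Pf.B 7 0 (Pf.B 4 0 (Pf.B 3 1 (Pf.B 5 1 (Pf.B 5 0 (Pf.B 8 3 (Pf.B 8 0 (Pf.C 17 0x40600388) (Pf.W 47 7 [] [0,5] (Pf.cons (Pf.B 9 5 (Pf.C 16 0x1c485) (Pf.C 48 1157)) Pf.nil))) (Pf.W 47 7 [] [0,5] (Pf.cons (Pf.B 9 5 (Pf.C 16 0x1c485) (Pf.C 48 1157)) Pf.nil))) (Pf.C 7 16389)) (Pf.C 15 0x604287)) (Pf.C 4 131)) (Pf.C 4 515)) (Pf.C 7 16391)) (Pf.C 13 0xc1c084)) (Pf.C 11 16388)) (Pf.C 11 16390)))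
 (Pq.cons (Pq.L [0,1] 0x1576c0 (Pf.B 6 1 (Pf.B 4 1 (Pf.B 7 1 (Pf.B 7 0 (Pf.B 4 0 (Pf.B 3 1 (Pf.B 5 1 (Pf.B 5 0 (Pf.B 8 7 (Pf.W 47 7 [] [0,5] (Pf.cons (Pf.B 9 5 (Pf.C 16 0x1c485) (Pf.C 48 1157)) Pf.nil)) (Pf.B 8 3 (Pf.B 8 0 (Pf.C 17 0x40600388) (Pf.W 47 7 [] [0,5] (Pf.cons (Pf.B 9 5 (Pf.C 16 0x1c485) (Pf.C 48 1157)) Pf.nil))) (Pf.W 47 7 [] [0,5] (Pf.cons (Pf.B 9 5 (Pf.C 16 0x1c485) (Pf.C 48 1157)) Pf.nil)))) (Pf.C 7 16389)) (Pf.C 15 0x604287)) (Pf.C 4 131)) (Pf.C 4 515)) (Pf.C 7 16391)) (Pf.C 13 0xc1c084)) (Pf.C 11 16388)) (Pf.C 11 16390)))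
 (Pq.cons (Pq.L [] 66197 (Pf.C 16 0x41c185))
 (Pq.cons (Pq.L [] 0x40000 (Pf.C 42 902))
 (Pq.cons (Pq.L [] 8768 (Pf.C 46 50052))
 (Pq.cons (Pq.L [] 66197 (Pf.C 16 0x41c283))
 Pq.nil))))))) (Pq.cons (Pq.L [] 265 (Pf.C 10 98690))
 (Pq.cons (Pq.L [] 265 (Pf.C 10 98690))
 Pq.nil))))))) (Pq.cons (Pq.D 4 (Pq.cons (Pq.D 5 (Pq.cons (Pq.L [] 0x40000 (Pf.C 2 902))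
 (Pq.cons (Pq.L [] 0x40000 (Pf.C 2 902))
 (Pq.cons (Pq.L [] 0x40000 (Pf.C 2 902))
 (Pq.cons (Pq.D 6 (Pq.cons (Pq.L [] 0x1c0038 (Pf.C 13 0x101c302))
 (Pq.cons (Pq.L [] 0x1c0038 (Pf.C 13 0x101c302))
 (Pq.cons (Pq.L [] 0x1c0038 (Pf.C 13 0x101c302))
 (Pq.cons (Pq.L [] 0x1c0038 (Pf.C 13 0x101c302))
 (Pq.cons (Pq.L [] 0x80529 (Pf.C 16 0x418188))
 (Pq.cons (Pq.L [] 0x80529 (Pf.C 16 0x418188))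
 Pq.nil))))))) (Pq.cons (Pq.L [] 8768 (Pf.C 46 50052))
 (Pq.cons (Pq.L [] 8256 (Pf.W 47 6 [] [3,4,7] (Pf.cons (Pf.B 9 7 (Pf.B 9 4 (Pf.B 9 3 (Pf.C 46 50308) (Pf.C 40 393)) (Pf.C 45 0x1c484)) (Pf.C 40 905)) Pf.nil)))
 Pq.nil))))))) (Pq.cons (Pq.L [] 256 (Pf.C 50 390))
 (Pq.cons (Pq.D 5 (Pq.cons (Pq.L [] 0x40319 (Pf.C 15 0x61c302))
 (Pq.cons (Pq.L [] 0x40319 (Pf.C 15 0x61c302))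
 (Pq.cons (Pq.L [] 0x40000 (Pf.C 2 902))
 (Pq.cons (Pq.L [] 0x40319 (Pf.C 15 0x61c302))
 (Pq.cons (Pq.L [] 0x40319 (Pf.C 16 0x41c303))
 (Pq.cons (Pq.L [0,1] 0xfddc0 (Pf.B 7 1 (Pf.B 5 1 (Pf.B 6 1 (Pf.B 6 0 (Pf.B 3 1 (Pf.B 8 6 (Pf.W 51 6 [] [0,1,3] (Pf.cons (Pf.B 9 3 (Pf.B 9 1 (Pf.C 16 0x218483) (Pf.C 4 137)) (Pf.C 3 50304)) Pf.nil)) (Pf.B 8 3 (Pf.C 17 0x50610308) (Pf.W 51 6 [] [0,1,3] (Pf.cons (Pf.B 9 3 (Pf.B 9 1 (Pf.C 16 0x218483) (Pf.C 4 137)) (Pf.C 3 50304)) Pf.nil)))) (Pf.C 4 131)) (Pf.C 7 16390)) (Pf.C 15 0xe04305)) (Pf.C 9 0x1c085)) (Pf.C 4 135)))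
 Pq.nil))))))) (Pq.cons (Pq.D 5 (Pq.cons (Pq.L [] 0x136ec0 (Pf.B 8 3 (Pf.C 17 0x50610388) (Pf.W 47 7 [] [3] (Pf.cons (Pf.B 9 3 (Pf.C 43 50311) (Pf.C 40 393)) Pf.nil))))
 (Pq.cons (Pq.L [] 0x136ec0 (Pf.B 8 7 (Pf.W 47 7 [] [3] (Pf.cons (Pf.B 9 3 (Pf.C 43 50311) (Pf.C 40 393)) Pf.nil)) (Pf.B 8 3 (Pf.C 17 0x50610388) (Pf.W 47 7 [] [3] (Pf.cons (Pf.B 9 3 (Pf.C 43 50311) (Pf.C 40 393)) Pf.nil)))))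
 (Pq.cons (Pq.D 6 (Pq.cons (Pq.L [] 0x1c0038 (Pf.C 13 0x101c302))
 (Pq.cons (Pq.L [] 0x1c0038 (Pf.C 13 0x101c302))
 (Pq.cons (Pq.L [] 0x1c0038 (Pf.C 13 0x101c302))
 (Pq.cons (Pq.L [] 0x1c0038 (Pf.C 13 0x101c302))
 (Pq.cons (Pq.L [] 17472 (Pf.C 46 50180))
 (Pq.cons (Pq.L [] 0x1c0038 (Pf.C 15 0x101c302))
 Pq.nil))))))) (Pq.cons (Pq.L [] 0x40000 (Pf.C 42 902))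
 (Pq.cons (Pq.L [] 8768 (Pf.C 46 50052))
 (Pq.cons (Pq.D 6 (Pq.cons (Pq.L [] 0x100631 (Pf.C 16 0x420383))
 (Pq.cons (Pq.L [] 0x100631 (Pf.C 16 0x420383))
 (Pq.cons (Pq.L [] 0x100631 (Pf.C 16 0x420187))
 (Pq.cons (Pq.L [] 0x136ef7 (Pf.C 1 0x2830820382))
 (Pq.cons (Pq.L [] 0x100030 (Pf.C 10 0x20382))
 (Pq.cons (Pq.L [] 0x100030 (Pf.C 10 0x20382))
 Pq.nil))))))) Pq.nil))))))) (Pq.cons (Pq.L [] 265 (Pf.C 10 98690))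
 (Pq.cons (Pq.L [] 265 (Pf.C 10 98690))
 Pq.nil))))))) (Pq.cons (Pq.L [] 133 (Pf.C 10 82306))
 (Pq.cons (Pq.L [] 133 (Pf.C 10 82306))
 Pq.nil))))))) (Pq.cons (Pq.L [] 67 (Pf.C 10 65922))
 (Pq.cons (Pq.L [] 67 (Pf.C 10 65922))
 Pq.nil))))))) Pq.nil))
theorem e5_o25 : AllRef e5_T e5_G29 (List.drop 1 (List.drop 3 (List.flatMap (splitP 1) (List.take 1 (List.drop 1 (List.drop 2 (List.flatMap (splitP 0) (List.drop 1 (applyObl d_T 2 [38,39,40,42,44,46] [0,0,0,0,0,0] [(39,0x100000000000),(40,0x400000000000),(44,0x8000000000),(46,0x10000000000)]))))))))) :=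
  chkPq_sound e5_o25c _ (by decide +kernel)
noncomputable def e5_o26c : Pq := (Pq.cons (Pq.D 1 (Pq.cons (Pq.D 2 (Pq.cons (Pq.L [] 64 (Pf.C 2 515))
 (Pq.cons (Pq.L [] 64 (Pf.C 2 515))
 (Pq.cons (Pq.L [] 64 (Pf.C 2 515))
 (Pq.cons (Pq.L [0,1] 67 (Pf.B 4 1 (Pf.B 4 0 (Pf.B 3 0 (Pf.C 15 0x410180) (Pf.B 3 1 (Pf.C 7 16387) (Pf.C 4 131))) (Pf.C 6 16388)) (Pf.C 11 16388)))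
 (Pq.cons (Pq.L [0,1] 67 (Pf.B 3 0 (Pf.C 16 65922) (Pf.B 3 1 (Pf.C 7 16387) (Pf.C 4 131))))
 (Pq.cons (Pq.L [] 67 (Pf.C 44 65795))
 Pq.nil))))))) (Pq.cons (Pq.D 2 (Pq.cons (Pq.L [] 64 (Pf.C 2 515))
 (Pq.cons (Pq.L [] 64 (Pf.C 2 515))
 (Pq.cons (Pq.L [] 64 (Pf.C 2 515))
 (Pq.cons (Pq.D 3 (Pq.cons (Pq.L [] 128 (Pf.C 2 643))
 (Pq.cons (Pq.L [] 128 (Pf.C 2 643))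
 (Pq.cons (Pq.L [] 128 (Pf.C 2 643))
 (Pq.cons (Pq.L [0,1] 2240 (Pf.B 5 1 (Pf.B 4 1 (Pf.B 3 1 (Pf.C 13 0xa0c201) (Pf.B 3 0 (Pf.C 7 131) (Pf.C 4 16387))) (Pf.C 11 16388)) (Pf.C 11 16389)))
 (Pq.cons (Pq.L [0,1] 2240 (Pf.B 4 1 (Pf.B 4 0 (Pf.B 3 0 (Pf.C 15 0xa10180) (Pf.B 3 1 (Pf.C 7 16387) (Pf.C 4 131))) (Pf.C 6 16388)) (Pf.C 11 16388)))
 (Pq.cons (Pq.L [] 128 (Pf.C 50 643))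
 Pq.nil))))))) (Pq.cons (Pq.L [0,1] 67 (Pf.B 3 0 (Pf.C 16 33156) (Pf.B 3 1 (Pf.C 7 16387) (Pf.C 4 131))))
 (Pq.cons (Pq.L [] 64 (Pf.C 50 515))
 Pq.nil))))))) (Pq.cons (Pq.D 2 (Pq.cons (Pq.L [] 64 (Pf.C 2 515))
 (Pq.cons (Pq.L [] 64 (Pf.C 2 515))
 (Pq.cons (Pq.L [] 64 (Pf.C 2 515))
 (Pq.cons (Pq.L [0,1] 67 (Pf.B 4 1 (Pf.B 4 0 (Pf.B 3 0 (Pf.C 15 0x410180) (Pf.B 3 1 (Pf.C 7 16387) (Pf.C 4 131))) (Pf.C 6 16388)) (Pf.C 11 16388)))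
 (Pq.cons (Pq.L [] 64 (Pf.C 48 515))
 (Pq.cons (Pq.D 3 (Pq.cons (Pq.L [] 128 (Pf.C 2 643))
 (Pq.cons (Pq.L [] 2054 (Pf.C 43 65797))
 (Pq.cons (Pq.L [] 2054 (Pf.C 44 65797))
 (Pq.cons (Pq.L [0,1] 2240 (Pf.B 5 1 (Pf.B 4 1 (Pf.B 3 1 (Pf.C 15 0x814181) (Pf.B 3 0 (Pf.C 7 131) (Pf.C 4 16387))) (Pf.C 4 132)) (Pf.C 11 16389)))
 (Pq.cons (Pq.L [] 128 (Pf.C 48 643))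
 (Pq.cons (Pq.D 4 (Pq.cons (Pq.L [] 256 (Pf.C 2 771))
 (Pq.cons (Pq.L [] 4106 (Pf.C 43 65798))
 (Pq.cons (Pq.L [] 4106 (Pf.C 44 65798))
 (Pq.cons (Pq.L [0,1] 4416 (Pf.B 6 1 (Pf.B 4 1 (Pf.B 3 1 (Pf.C 15 0x818181) (Pf.B 3 0 (Pf.C 7 131) (Pf.C 4 16387))) (Pf.C 4 132)) (Pf.C 11 16390)))
 (Pq.cons (Pq.L [] 256 (Pf.C 48 771))
 (Pq.cons (Pq.D 5 (Pq.cons (Pq.L [] 0x40018 (Pf.C 44 98567))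
 (Pq.cons (Pq.L [] 8210 (Pf.C 43 65799))
 (Pq.cons (Pq.L [] 8210 (Pf.C 44 65799))
 (Pq.cons (Pq.L [] 0x40018 (Pf.C 46 98567))
 (Pq.cons (Pq.L [] 0x40000 (Pf.C 40 775))
 (Pq.cons (Pq.L [] 529 (Pf.C 44 0x1c103))
 Pq.nil))))))) Pq.nil))))))) Pq.nil))))))) Pq.nil))))))) (Pq.cons (Pq.D 2 (Pq.cons (Pq.L [0,1] 67 (Pf.B 3 1 (Pf.B 3 0 (Pf.B 4 0 (Pf.C 15 0x40c200) (Pf.B 4 1 (Pf.C 7 16388) (Pf.C 4 132))) (Pf.C 6 16387)) (Pf.C 11 16387)))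
 (Pq.cons (Pq.D 3 (Pq.cons (Pq.L [0,1] 133 (Pf.B 3 1 (Pf.B 3 0 (Pf.B 5 0 (Pf.C 15 0x40c280) (Pf.B 5 1 (Pf.C 7 16389) (Pf.C 4 133))) (Pf.C 6 16387)) (Pf.C 11 16387)))
 (Pq.cons (Pq.D 4 (Pq.cons (Pq.L [] 38926 (Pf.C 14 0xa08206))
 (Pq.cons (Pq.D 5 (Pq.cons (Pq.L [] 75798 (Pf.C 14 0xa08207))
 (Pq.cons (Pq.L [] 76480 (Pf.C 13 0xa0c207))
 (Pq.cons (Pq.L [] 75798 (Pf.C 14 0xa08207))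
 (Pq.cons (Pq.L [] 76480 (Pf.C 13 0xa0c207))
 (Pq.cons (Pq.L [] 0x5b800 (Pf.C 14 0xa1c206))
 (Pq.cons (Pq.L [] 8210 (Pf.C 43 0x1c104))
 Pq.nil))))))) (Pq.cons (Pq.L [] 38926 (Pf.C 14 0xa08206))
 (Pq.cons (Pq.L [] 265 (Pf.C 9 33539))
 (Pq.cons (Pq.L [] 39360 (Pf.C 0 0xa18184))
 (Pq.cons (Pq.L [] 4106 (Pf.C 43 98564))
 Pq.nil))))))) (Pq.cons (Pq.L [0,1] 133 (Pf.B 3 1 (Pf.B 3 0 (Pf.B 5 0 (Pf.C 15 0x40c280) (Pf.B 5 1 (Pf.C 7 16389) (Pf.C 4 133))) (Pf.C 6 16387)) (Pf.C 11 16387)))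
 (Pq.cons (Pq.L [] 133 (Pf.C 9 33411))
 (Pq.cons (Pq.D 4 (Pq.cons (Pq.L [] 38926 (Pf.C 14 0xa10106))
 (Pq.cons (Pq.L [] 39360 (Pf.C 0 0xc14184))
 (Pq.cons (Pq.L [] 38926 (Pf.C 14 0xa10106))
 (Pq.cons (Pq.L [] 265 (Pf.C 9 33539))
 (Pq.cons (Pq.L [] 39360 (Pf.C 0 0xc10185))
 (Pq.cons (Pq.L [] 4106 (Pf.C 43 98564))
 Pq.nil))))))) (Pq.cons (Pq.L [] 2054 (Pf.C 43 82180))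
 Pq.nil))))))) (Pq.cons (Pq.L [0,1] 67 (Pf.B 3 1 (Pf.B 3 0 (Pf.B 4 0 (Pf.C 15 0x40c200) (Pf.B 4 1 (Pf.C 7 16388) (Pf.C 4 132))) (Pf.C 6 16387)) (Pf.C 11 16387)))
 (Pq.cons (Pq.L [] 67 (Pf.C 9 33283))
 (Pq.cons (Pq.D 3 (Pq.cons (Pq.L [0,1] 197 (Pf.B 4 1 (Pf.C 9 65537) (Pf.B 3 1 (Pf.B 3 0 (Pf.B 5 0 (Pf.C 15 0x40c280) (Pf.B 5 1 (Pf.C 7 16389) (Pf.C 4 133))) (Pf.C 6 16387)) (Pf.C 4 16772))))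
 (Pq.cons (Pq.D 4 (Pq.cons (Pq.L [] 38926 (Pf.C 14 0x814106))
 (Pq.cons (Pq.L [] 39360 (Pf.C 0 0xc10185))
 (Pq.cons (Pq.L [] 38926 (Pf.C 14 0x814106))
 (Pq.cons (Pq.L [] 265 (Pf.C 9 33539))
 (Pq.cons (Pq.L [] 39360 (Pf.C 0 0xc14184))
 (Pq.cons (Pq.L [] 32780 (Pf.C 43 98565))
 Pq.nil))))))) (Pq.cons (Pq.L [0,1] 197 (Pf.B 4 1 (Pf.C 9 65537) (Pf.B 3 1 (Pf.B 3 0 (Pf.B 5 0 (Pf.C 15 0x40c280) (Pf.B 5 1 (Pf.C 7 16389) (Pf.C 4 133))) (Pf.C 6 16387)) (Pf.C 4 16772))))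
 (Pq.cons (Pq.L [] 133 (Pf.C 9 33411))
 (Pq.cons (Pq.D 4 (Pq.cons (Pq.L [0,1] 329 (Pf.B 4 1 (Pf.C 9 65537) (Pf.B 3 1 (Pf.B 3 0 (Pf.B 6 0 (Pf.C 15 0x40c300) (Pf.B 6 1 (Pf.C 7 16390) (Pf.C 4 134))) (Pf.C 6 16387)) (Pf.C 4 16772))))
 (Pq.cons (Pq.L [] 39360 (Pf.C 0 0xa18184))
 (Pq.cons (Pq.L [0,1] 329 (Pf.B 4 1 (Pf.C 9 65537) (Pf.B 3 1 (Pf.B 3 0 (Pf.B 6 0 (Pf.C 15 0x40c300) (Pf.B 6 1 (Pf.C 7 16390) (Pf.C 4 134))) (Pf.C 6 16387)) (Pf.C 4 16772))))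
 (Pq.cons (Pq.L [] 265 (Pf.C 9 33539))
 (Pq.cons (Pq.D 5 (Pq.cons (Pq.L [0,1] 0x40018 (Pf.B 7 0 (Pf.C 16 99202) (Pf.B 7 1 (Pf.C 7 16391) (Pf.C 4 135))))
 (Pq.cons (Pq.L [] 0x4301a (Pf.C 14 0x81c106))
 (Pq.cons (Pq.L [] 0x40000 (Pf.C 48 775))
 (Pq.cons (Pq.D 6 (Pq.cons (Pq.L [] 0x100631 (Pf.C 15 0x420383))
 (Pq.cons (Pq.L [0,1] 0x1f87dd (Pf.B 7 1 (Pf.B 6 1 (Pf.C 9 98305) (Pf.B 8 1 (Pf.B 4 1 (Pf.C 9 65537) (Pf.B 3 1 (Pf.W 53 3 [] [1,2,5,6,7,8] (Pf.cons (Pf.B 9 8 (Pf.B 9 1 (Pf.B 9 7 (Pf.B 9 2 (Pf.C 15 0x40c487) (Pf.B 9 5 (Pf.C 16 0xe08485) (Pf.B 9 6 (Pf.C 14 0xa24106) (Pf.C 0 0xa0c486)))) (Pf.C 13 0x101c481)) (Pf.C 13 0x624088)) (Pf.C 2 1033)) (Pf.cons (Pf.B 9 8 (Pf.B 9 1 (Pf.B 9 7 (Pf.B 9 2 (Pf.C 15 0x40c487)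 (Pf.B 9 5 (Pf.C 16 0xe08485) (Pf.B 9 6 (Pf.C 14 0xa24106) (Pf.C 0 0xa0c486)))) (Pf.C 13 0x101c481)) (Pf.C 13 0x624088)) (Pf.C 2 1033)) (Pf.cons (Pf.B 9 8 (Pf.B 9 6 (Pf.B 9 5 (Pf.C 14 0xc20289) (Pf.C 48 649)) (Pf.C 48 777)) (Pf.C 2 1033)) Pf.nil)))) (Pf.C 4 16772))) (Pf.C 0 0xe18401))) (Pf.C 11 16391)))
 (Pq.cons (Pq.L [] 0x100631 (Pf.C 15 0x420383))
 (Pq.cons (Pq.L [] 0x100030 (Pf.C 9 33799))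
 (Pq.cons (Pq.L [] 0x136ef7 (Pf.C 1 0x2830820382))
 (Pq.cons (Pq.L [] 0x100030 (Pf.C 46 0x20107))
 Pq.nil))))))) (Pq.cons (Pq.L [0] 0x40018 (Pf.C 16 0x1c302))
 (Pq.cons (Pq.L [] 8768 (Pf.C 45 0x1c203))
 Pq.nil))))))) (Pq.cons (Pq.L [] 265 (Pf.C 46 98563))
 Pq.nil))))))) (Pq.cons (Pq.L [] 133 (Pf.C 46 82179))
 Pq.nil))))))) (Pq.cons (Pq.L [] 67 (Pf.C 46 65795))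
 Pq.nil))))))) (Pq.cons (Pq.D 2 (Pq.cons (Pq.L [0,1] 67 (Pf.B 4 0 (Pf.C 16 49666) (Pf.B 4 1 (Pf.C 7 16388) (Pf.C 4 132))))
 (Pq.cons (Pq.L [0,1] 67 (Pf.B 4 0 (Pf.C 16 33283) (Pf.B 4 1 (Pf.C 7 16388) (Pf.C 4 132))))
 (Pq.cons (Pq.L [] 64 (Pf.C 48 388))
 (Pq.cons (Pq.D 3 (Pq.cons (Pq.L [0,1] 133 (Pf.B 5 0 (Pf.C 16 49794) (Pf.B 5 1 (Pf.C 7 16389) (Pf.C 4 133))))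
 (Pq.cons (Pq.L [0,1] 133 (Pf.B 5 0 (Pf.C 16 33411) (Pf.B 5 1 (Pf.C 7 16389) (Pf.C 4 133))))
 (Pq.cons (Pq.L [] 128 (Pf.C 48 389))
 (Pq.cons (Pq.D 4 (Pq.cons (Pq.L [0,1] 265 (Pf.B 6 0 (Pf.C 16 49922) (Pf.B 6 1 (Pf.C 7 16390) (Pf.C 4 134))))
 (Pq.cons (Pq.L [] 39375 (Pf.C 17 0x50610302))
 (Pq.cons (Pq.L [] 256 (Pf.C 48 390))
 (Pq.cons (Pq.D 5 (Pq.cons (Pq.L [] 0x4301a (Pf.C 15 0x41c304))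
 (Pq.cons (Pq.D 6 (Pq.cons (Pq.L [] 0x1c7000 (Pf.C 13 0x101c304))
 (Pq.cons (Pq.L [] 0x100631 (Pf.C 0 0x620382))
 (Pq.cons (Pq.L [] 0x1c7000 (Pf.C 13 0x101c304))
 (Pq.cons (Pq.L [] 0x1c7000 (Pf.C 13 0x101c304))
 (Pq.cons (Pq.L [] 0x100631 (Pf.C 14 0x61c108))
 (Pq.cons (Pq.L [] 17472 (Pf.C 45 0x20184))
 Pq.nil))))))) (Pq.cons (Pq.L [] 0x4301a (Pf.C 15 0x41c304))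
 (Pq.cons (Pq.L [] 0x40018 (Pf.C 9 33670))
 (Pq.cons (Pq.D 6 (Pq.cons (Pq.L [] 0x106032 (Pf.C 16 0x820382))
 (Pq.cons (Pq.L [] 0x100631 (Pf.C 14 0x620107))
 (Pq.cons (Pq.L [] 0x106032 (Pf.C 16 0x820382))
 (Pq.cons (Pq.L [] 0x136ef7 (Pf.C 1 0x2830820382))
 (Pq.cons (Pq.L [0] 0x100030 (Pf.C 16 0x20382))
 (Pq.cons (Pq.L [] 0x106032 (Pf.C 16 0x820382))
 Pq.nil))))))) (Pq.cons (Pq.L [] 0x40018 (Pf.C 46 0x1c106))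
 Pq.nil))))))) (Pq.cons (Pq.L [0] 265 (Pf.C 16 98690))
 (Pq.cons (Pq.L [] 256 (Pf.C 40 771))
 Pq.nil))))))) (Pq.cons (Pq.L [0] 133 (Pf.C 16 82306))
 (Pq.cons (Pq.L [] 128 (Pf.C 40 643))
 Pq.nil))))))) (Pq.cons (Pq.L [0] 67 (Pf.C 16 65922))
 (Pq.cons (Pq.L [] 64 (Pf.C 40 515))
 Pq.nil))))))) (Pq.cons (Pq.D 2 (Pq.cons (Pq.L [] 67 (Pf.C 44 49412))
 (Pq.cons (Pq.L [] 64 (Pf.C 50 388))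
 (Pq.cons (Pq.D 3 (Pq.cons (Pq.L [] 133 (Pf.C 44 49413))
 (Pq.cons (Pq.L [] 2247 (Pf.C 14 0x614104))
 (Pq.cons (Pq.D 4 (Pq.cons (Pq.L [] 265 (Pf.C 44 49414))
 (Pq.cons (Pq.L [] 4427 (Pf.C 14 0x618104))
 (Pq.cons (Pq.D 5 (Pq.cons (Pq.L [] 0x4301a (Pf.C 15 0x41c304))
 (Pq.cons (Pq.L [] 529 (Pf.C 43 49415))
 (Pq.cons (Pq.L [] 529 (Pf.C 44 49415))
 (Pq.cons (Pq.L [] 0x4301a (Pf.C 15 0x41c304))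
 (Pq.cons (Pq.L [] 0x40300 (Pf.C 43 50054))
 (Pq.cons (Pq.L [] 8210 (Pf.C 44 0x1c104))
 Pq.nil))))))) (Pq.cons (Pq.L [] 265 (Pf.C 46 49414))
 (Pq.cons (Pq.L [] 256 (Pf.C 40 390))
 (Pq.cons (Pq.L [] 4106 (Pf.C 44 98564))
 Pq.nil))))))) (Pq.cons (Pq.L [] 133 (Pf.C 46 49413))
 (Pq.cons (Pq.L [] 128 (Pf.C 40 389))
 (Pq.cons (Pq.L [] 2054 (Pf.C 44 82180))
 Pq.nil))))))) (Pq.cons (Pq.L [] 67 (Pf.C 46 49412))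
 (Pq.cons (Pq.L [] 64 (Pf.C 40 388))
 (Pq.cons (Pq.L [0] 64 (Pf.C 3 65920))
 Pq.nil))))))) Pq.nil))))))) (Pq.cons (Pq.D 1 (Pq.cons (Pq.D 2 (Pq.cons (Pq.L [] 64 (Pf.C 2 515))
 (Pq.cons (Pq.L [] 64 (Pf.C 2 515))
 (Pq.cons (Pq.L [] 64 (Pf.C 2 515))
 (Pq.cons (Pq.L [0,1] 67 (Pf.B 4 1 (Pf.B 2 1 (Pf.B 3 1 (Pf.C 15 0x410181) (Pf.B 3 0 (Pf.C 7 131) (Pf.C 4 16387))) (Pf.C 4 130)) (Pf.C 11 16388)))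
 (Pq.cons (Pq.L [] 67 (Pf.C 43 33283))
 (Pq.cons (Pq.L [0,1] 67 (Pf.B 4 1 (Pf.B 2 1 (Pf.B 3 1 (Pf.C 16 0x210182) (Pf.B 3 0 (Pf.C 7 131) (Pf.C 4 16387))) (Pf.C 4 130)) (Pf.C 4 132)))
 Pq.nil))))))) (Pq.cons (Pq.D 2 (Pq.cons (Pq.L [] 64 (Pf.C 2 515))
 (Pq.cons (Pq.L [] 64 (Pf.C 2 515))
 (Pq.cons (Pq.L [] 64 (Pf.C 2 515))
 (Pq.cons (Pq.L [0,1] 67 (Pf.B 4 1 (Pf.B 2 1 (Pf.B 3 1 (Pf.C 15 0x410181) (Pf.B 3 0 (Pf.C 7 131) (Pf.C 4 16387))) (Pf.C 4 130)) (Pf.C 11 16388)))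
 (Pq.cons (Pq.D 3 (Pq.cons (Pq.L [] 128 (Pf.C 2 643))
 (Pq.cons (Pq.L [] 2054 (Pf.C 43 33285))
 (Pq.cons (Pq.L [] 2054 (Pf.C 44 33285))
 (Pq.cons (Pq.L [0,1] 2240 (Pf.B 5 1 (Pf.B 5 0 (Pf.B 3 0 (Pf.C 15 0x814180) (Pf.B 3 1 (Pf.C 7 16387) (Pf.C 4 131))) (Pf.C 6 16389)) (Pf.C 11 16389)))
 (Pq.cons (Pq.D 4 (Pq.cons (Pq.L [] 256 (Pf.C 2 771))
 (Pq.cons (Pq.L [] 4106 (Pf.C 43 33286))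
 (Pq.cons (Pq.L [] 4106 (Pf.C 44 33286))
 (Pq.cons (Pq.L [0,1] 39360 (Pf.B 6 1 (Pf.B 5 1 (Pf.C 9 81921) (Pf.B 4 1 (Pf.C 9 65537) (Pf.B 3 1 (Pf.C 17 0x50210303) (Pf.B 3 0 (Pf.C 7 131) (Pf.C 4 16387))))) (Pf.C 11 16390)))
 (Pq.cons (Pq.D 5 (Pq.cons (Pq.L [] 0x40018 (Pf.C 43 33543))
 (Pq.cons (Pq.L [] 8210 (Pf.C 43 33287))
 (Pq.cons (Pq.L [] 8210 (Pf.C 44 33287))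
 (Pq.cons (Pq.L [] 0x40018 (Pf.C 45 33543))
 (Pq.cons (Pq.L [] 529 (Pf.C 43 33667))
 (Pq.cons (Pq.L [] 0x40000 (Pf.C 40 902))
 Pq.nil))))))) (Pq.cons (Pq.L [] 256 (Pf.C 50 771))
 Pq.nil))))))) (Pq.cons (Pq.L [] 128 (Pf.C 50 643))
 Pq.nil))))))) (Pq.cons (Pq.L [] 64 (Pf.C 50 515))
 Pq.nil))))))) (Pq.cons (Pq.D 2 (Pq.cons (Pq.L [] 64 (Pf.C 2 515))
 (Pq.cons (Pq.L [] 64 (Pf.C 2 515))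
 (Pq.cons (Pq.L [] 64 (Pf.C 2 515))
 (Pq.cons (Pq.D 3 (Pq.cons (Pq.L [] 128 (Pf.C 2 643))
 (Pq.cons (Pq.L [] 128 (Pf.C 2 643))
 (Pq.cons (Pq.L [] 128 (Pf.C 2 643))
 (Pq.cons (Pq.L [0,1] 2240 (Pf.B 5 1 (Pf.B 4 1 (Pf.B 3 1 (Pf.C 13 0xa0c201) (Pf.B 3 0 (Pf.C 7 131) (Pf.C 4 16387))) (Pf.C 11 16388)) (Pf.C 11 16389)))
 (Pq.cons (Pq.L [] 128 (Pf.C 48 643))
 (Pq.cons (Pq.L [0,1] 2240 (Pf.B 5 1 (Pf.B 4 1 (Pf.B 3 1 (Pf.C 15 0xa10181) (Pf.B 3 0 (Pf.C 7 131) (Pf.C 4 16387))) (Pf.C 9 82052)) (Pf.C 4 133)))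
 Pq.nil))))))) (Pq.cons (Pq.L [] 64 (Pf.C 48 515))
 (Pq.cons (Pq.L [0,1] 67 (Pf.B 4 1 (Pf.B 2 1 (Pf.B 3 1 (Pf.C 16 0x208184) (Pf.B 3 0 (Pf.C 7 131) (Pf.C 4 16387))) (Pf.C 4 130)) (Pf.C 4 132)))
 Pq.nil))))))) (Pq.cons (Pq.D 2 (Pq.cons (Pq.L [0,1] 67 (Pf.B 3 1 (Pf.B 2 1 (Pf.B 4 1 (Pf.C 15 0x40c201) (Pf.B 4 0 (Pf.C 7 132) (Pf.C 4 16388))) (Pf.C 4 130)) (Pf.C 11 16387)))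
 (Pq.cons (Pq.L [0,1] 67 (Pf.B 3 1 (Pf.B 2 1 (Pf.B 4 1 (Pf.C 15 0x40c201) (Pf.B 4 0 (Pf.C 7 132) (Pf.C 4 16388))) (Pf.C 4 130)) (Pf.C 11 16387)))
 (Pq.cons (Pq.D 3 (Pq.cons (Pq.L [0,1] 133 (Pf.B 3 1 (Pf.B 2 1 (Pf.B 5 1 (Pf.C 15 0x40c281) (Pf.B 5 0 (Pf.C 7 133) (Pf.C 4 16389))) (Pf.C 4 130)) (Pf.C 11 16387)))
 (Pq.cons (Pq.L [0,1] 133 (Pf.B 3 1 (Pf.B 2 1 (Pf.B 5 1 (Pf.C 15 0x40c281) (Pf.B 5 0 (Pf.C 7 133) (Pf.C 4 16389))) (Pf.C 4 130)) (Pf.C 11 16387)))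
 (Pq.cons (Pq.D 4 (Pq.cons (Pq.L [] 38926 (Pf.C 14 0xa08206))
 (Pq.cons (Pq.L [] 38926 (Pf.C 14 0xa08206))
 (Pq.cons (Pq.D 5 (Pq.cons (Pq.L [] 75798 (Pf.C 14 0xa08207))
 (Pq.cons (Pq.L [] 75798 (Pf.C 14 0xa08207))
 (Pq.cons (Pq.L [] 76480 (Pf.C 13 0xa0c207))
 (Pq.cons (Pq.L [] 76480 (Pf.C 13 0xa0c207))
 (Pq.cons (Pq.L [] 8210 (Pf.C 44 33668))
 (Pq.cons (Pq.L [] 0x5b800 (Pf.C 14 0xa1c206))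
 Pq.nil))))))) (Pq.cons (Pq.L [] 265 (Pf.C 9 33539))
 (Pq.cons (Pq.L [] 4106 (Pf.C 44 33540))
 (Pq.cons (Pq.L [] 39360 (Pf.C 0 0xa18184))
 Pq.nil))))))) (Pq.cons (Pq.L [] 133 (Pf.C 9 33411))
 (Pq.cons (Pq.L [] 2054 (Pf.C 44 33412))
 (Pq.cons (Pq.D 4 (Pq.cons (Pq.L [] 38926 (Pf.C 14 0xa10106))
 (Pq.cons (Pq.L [] 38926 (Pf.C 14 0xa10106))
 (Pq.cons (Pq.L [] 39360 (Pf.C 0 0xc14184))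
 (Pq.cons (Pq.L [] 265 (Pf.C 9 33539))
 (Pq.cons (Pq.L [] 4106 (Pf.C 44 33540))
 (Pq.cons (Pq.L [] 39360 (Pf.C 0 0xc10185))
 Pq.nil))))))) Pq.nil))))))) (Pq.cons (Pq.L [] 67 (Pf.C 9 33283))
 (Pq.cons (Pq.L [] 67 (Pf.C 45 33283))
 (Pq.cons (Pq.D 3 (Pq.cons (Pq.L [0,1] 133 (Pf.B 3 1 (Pf.B 2 1 (Pf.B 5 1 (Pf.C 15 0x40c281) (Pf.B 5 0 (Pf.C 7 133) (Pf.C 4 16389))) (Pf.C 4 130)) (Pf.C 11 16387)))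
 (Pq.cons (Pq.L [0,1] 133 (Pf.B 3 1 (Pf.B 2 1 (Pf.B 5 1 (Pf.C 15 0x40c281) (Pf.B 5 0 (Pf.C 7 133) (Pf.C 4 16389))) (Pf.C 4 130)) (Pf.C 11 16387)))
 (Pq.cons (Pq.D 4 (Pq.cons (Pq.L [] 38926 (Pf.C 14 0x814106))
 (Pq.cons (Pq.L [] 38926 (Pf.C 14 0x814106))
 (Pq.cons (Pq.L [] 39360 (Pf.C 0 0xc10185))
 (Pq.cons (Pq.L [] 265 (Pf.C 9 33539))
 (Pq.cons (Pq.L [] 32780 (Pf.C 44 33541))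
 (Pq.cons (Pq.L [] 39360 (Pf.C 0 0xc14184))
 Pq.nil))))))) (Pq.cons (Pq.L [] 133 (Pf.C 9 33411))
 (Pq.cons (Pq.L [] 133 (Pf.C 45 33411))
 (Pq.cons (Pq.D 4 (Pq.cons (Pq.L [0,1] 265 (Pf.B 3 1 (Pf.B 2 1 (Pf.B 6 1 (Pf.C 15 0x40c301) (Pf.B 6 0 (Pf.C 7 134) (Pf.C 4 16390))) (Pf.C 4 130)) (Pf.C 11 16387)))
 (Pq.cons (Pq.L [0,1] 265 (Pf.B 3 1 (Pf.B 2 1 (Pf.B 6 1 (Pf.C 15 0x40c301) (Pf.B 6 0 (Pf.C 7 134) (Pf.C 4 16390))) (Pf.C 4 130)) (Pf.C 11 16387)))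
 (Pq.cons (Pq.L [] 39360 (Pf.C 0 0xa18184))
 (Pq.cons (Pq.L [] 265 (Pf.C 9 33539))
 (Pq.cons (Pq.L [] 265 (Pf.C 45 33539))
 (Pq.cons (Pq.D 5 (Pq.cons (Pq.L [0,1] 0x58000 (Pf.B 6 1 (Pf.B 5 1 (Pf.B 7 1 (Pf.C 16 0x218385) (Pf.B 7 0 (Pf.C 7 135) (Pf.C 4 16391))) (Pf.C 4 133)) (Pf.C 4 134)))
 (Pq.cons (Pq.L [] 0x40000 (Pf.C 50 775))
 (Pq.cons (Pq.L [] 0x4301a (Pf.C 14 0x81c106))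
 (Pq.cons (Pq.D 6 (Pq.cons (Pq.L [] 0x100631 (Pf.C 15 0x420383))
 (Pq.cons (Pq.L [] 0x100631 (Pf.C 15 0x420383))
 (Pq.cons (Pq.L [0,1] 0xac5a2 (Pf.B 8 0 (Pf.B 8 1 (Pf.B 6 1 (Pf.B 5 1 (Pf.B 3 1 (Pf.W 53 3 [] [1,5,6,8] (Pf.cons (Pf.B 9 8 (Pf.B 9 1 (Pf.B 9 6 (Pf.C 16 0x220309) (Pf.B 9 5 (Pf.C 16 0x220289) (Pf.C 0 0xc0c485))) (Pf.C 13 0x624088)) (Pf.C 2 1033)) (Pf.cons (Pf.B 9 8 (Pf.B 9 6 (Pf.B 9 5 (Pf.C 14 0xc20289) (Pf.C 50 649)) (Pf.C 50 777)) (Pf.C 2 1033)) (Pf.cons (Pf.B 9 8 (Pf.B 9 1 (Pf.B 9 6 (Pf.C 16 0x220309) (Pf.B 9 5 (Pf.C 16 0x220289) (Pf.C 0 0xc0c485))) (Pf.C 13 0x624088)) (Pf.C 2 1033)) Pf.nil)))) (Pf.C 11 16387)) (Pf.C 4 133)) (Pf.C 4 134)) (Pf.C 7 136)) (Pf.C 0 0x800402)))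
 (Pq.cons (Pq.L [] 0x100030 (Pf.C 9 33799))
 (Pq.cons (Pq.L [] 0x100030 (Pf.C 45 33799))
 (Pq.cons (Pq.L [] 0x136ef7 (Pf.C 1 0x2830820382))
 Pq.nil))))))) (Pq.cons (Pq.L [] 8768 (Pf.C 46 66435))
 (Pq.cons (Pq.L [0] 0x40000 (Pf.C 3 0x1c300))
 Pq.nil))))))) Pq.nil))))))) Pq.nil))))))) Pq.nil))))))) (Pq.cons (Pq.D 2 (Pq.cons (Pq.L [] 67 (Pf.C 43 33156))
 (Pq.cons (Pq.D 3 (Pq.cons (Pq.L [] 133 (Pf.C 43 33157))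
 (Pq.cons (Pq.D 4 (Pq.cons (Pq.L [] 265 (Pf.C 43 33158))
 (Pq.cons (Pq.D 5 (Pq.cons (Pq.L [] 0x4301a (Pf.C 15 0x41c304))
 (Pq.cons (Pq.L [] 529 (Pf.C 43 33159))
 (Pq.cons (Pq.L [] 529 (Pf.C 44 33159))
 (Pq.cons (Pq.L [] 0x4301a (Pf.C 15 0x41c304))
 (Pq.cons (Pq.L [] 8210 (Pf.C 43 33668))
 (Pq.cons (Pq.L [] 0x40300 (Pf.C 44 0x1c186))
 Pq.nil))))))) (Pq.cons (Pq.L [] 4427 (Pf.C 14 0x618104))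
 (Pq.cons (Pq.L [] 265 (Pf.C 45 33158))
 (Pq.cons (Pq.L [] 4106 (Pf.C 43 33540))
 (Pq.cons (Pq.L [] 256 (Pf.C 40 771))
 Pq.nil))))))) (Pq.cons (Pq.L [] 2247 (Pf.C 14 0x614104))
 (Pq.cons (Pq.L [] 133 (Pf.C 45 33157))
 (Pq.cons (Pq.L [] 2054 (Pf.C 43 33412))
 (Pq.cons (Pq.L [] 128 (Pf.C 40 643))
 Pq.nil))))))) (Pq.cons (Pq.L [] 64 (Pf.C 48 388))
 (Pq.cons (Pq.L [] 67 (Pf.C 45 33156))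
 (Pq.cons (Pq.L [0] 64 (Pf.C 10 65920))
 (Pq.cons (Pq.L [] 64 (Pf.C 40 515))
 Pq.nil))))))) (Pq.cons (Pq.D 2 (Pq.cons (Pq.L [0,1] 67 (Pf.B 3 1 (Pf.B 2 1 (Pf.B 4 1 (Pf.C 16 0x20c202) (Pf.B 4 0 (Pf.C 7 132) (Pf.C 4 16388))) (Pf.C 4 130)) (Pf.C 4 131)))
 (Pq.cons (Pq.L [] 64 (Pf.C 50 388))
 (Pq.cons (Pq.L [0,1] 67 (Pf.B 3 1 (Pf.B 2 1 (Pf.B 4 1 (Pf.C 16 0x208203) (Pf.B 4 0 (Pf.C 7 132) (Pf.C 4 16388))) (Pf.C 4 130)) (Pf.C 4 131)))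
 (Pq.cons (Pq.D 3 (Pq.cons (Pq.L [0,1] 2183 (Pf.B 4 1 (Pf.B 3 1 (Pf.B 2 1 (Pf.B 5 1 (Pf.C 16 0x20c282) (Pf.C 15 0x404284)) (Pf.C 4 130)) (Pf.C 4 131)) (Pf.C 11 16388)))
 (Pq.cons (Pq.L [] 128 (Pf.C 50 389))
 (Pq.cons (Pq.L [0,1] 2247 (Pf.B 4 1 (Pf.B 3 1 (Pf.B 2 1 (Pf.B 5 1 (Pf.C 16 0x208283) (Pf.C 17 0x20a04203)) (Pf.C 4 130)) (Pf.C 4 131)) (Pf.C 11 16388)))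
 (Pq.cons (Pq.D 4 (Pq.cons (Pq.L [0,1] 4363 (Pf.B 4 1 (Pf.B 3 1 (Pf.B 2 1 (Pf.B 6 1 (Pf.C 16 0x20c302) (Pf.C 15 0x404304)) (Pf.C 4 130)) (Pf.C 4 131)) (Pf.C 11 16388)))
 (Pq.cons (Pq.L [] 256 (Pf.C 50 390))
 (Pq.cons (Pq.L [] 39375 (Pf.C 17 0x50610302))
 (Pq.cons (Pq.D 5 (Pq.cons (Pq.L [] 0x4301a (Pf.C 15 0x41c304))
 (Pq.cons (Pq.L [] 0x4301a (Pf.C 15 0x41c304))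
 (Pq.cons (Pq.D 6 (Pq.cons (Pq.L [] 0x1c7000 (Pf.C 13 0x101c304))
 (Pq.cons (Pq.L [] 0x1c7000 (Pf.C 13 0x101c304))
 (Pq.cons (Pq.L [] 0x100631 (Pf.C 0 0x620382))
 (Pq.cons (Pq.L [] 0x1c7000 (Pf.C 13 0x101c304))
 (Pq.cons (Pq.L [] 17472 (Pf.C 46 50180))
 (Pq.cons (Pq.L [] 0x100631 (Pf.C 14 0x61c108))
 Pq.nil))))))) (Pq.cons (Pq.L [] 0x40018 (Pf.C 9 33670))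
 (Pq.cons (Pq.L [] 0x40018 (Pf.C 45 33670))
 (Pq.cons (Pq.D 6 (Pq.cons (Pq.L [] 0x106032 (Pf.C 16 0x820382))
 (Pq.cons (Pq.L [] 0x106032 (Pf.C 16 0x820382))
 (Pq.cons (Pq.L [] 0x100631 (Pf.C 14 0x620107))
 (Pq.cons (Pq.L [] 0x136ef7 (Pf.C 1 0x2830820382))
 (Pq.cons (Pq.L [] 0x106032 (Pf.C 16 0x820382))
 (Pq.cons (Pq.L [] 0x106032 (Pf.C 16 0x820382))
 Pq.nil))))))) Pq.nil))))))) (Pq.cons (Pq.L [] 256 (Pf.C 40 390))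
 (Pq.cons (Pq.L [0] 256 (Pf.C 3 98688))
 Pq.nil))))))) (Pq.cons (Pq.L [] 128 (Pf.C 40 389))
 (Pq.cons (Pq.L [0] 128 (Pf.C 3 82304))
 Pq.nil))))))) (Pq.cons (Pq.L [] 64 (Pf.C 40 388))
 (Pq.cons (Pq.L [0] 64 (Pf.C 3 65920))
 Pq.nil))))))) Pq.nil))))))) Pq.nil))
theorem e5_o26 : AllRef e5_T e5_G29 (List.drop 1 (List.drop 1 (List.drop 2 (List.flatMap (splitP 0) (List.drop 1 (applyObl d_T 2 [38,39,40,42,44,46] [0,0,0,0,0,0] [(39,0x100000000000),(40,0x400000000000),(44,0x8000000000),(46,0x10000000000)])))))) :=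
  chkPq_sound e5_o26c _ (by decide +kernel)
noncomputable def e5_o27c : Pq := (Pq.cons (Pq.D 0 (Pq.cons (Pq.D 1 (Pq.cons (Pq.L [] 1 (Pf.C 2 386))
 (Pq.cons (Pq.L [] 1 (Pf.W 41 3 [] [2] (Pf.cons (Pf.B 5 2 (Pf.C 7 82306) (Pf.C 4 49794)) Pf.nil)))
 (Pq.cons (Pq.D 2 (Pq.cons (Pq.L [] 2 (Pf.C 2 514))
 (Pq.cons (Pq.L [] 7 (Pf.C 4 65922))
 (Pq.cons (Pq.L [] 7 (Pf.C 4 65922))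
 (Pq.cons (Pq.L [] 2 (Pf.C 48 514))
 (Pq.cons (Pq.L [] 2 (Pf.C 52 514))
 Pq.nil)))))) (Pq.cons (Pq.L [] 1 (Pf.C 48 386))
 (Pq.cons (Pq.L [] 1 (Pf.C 52 386))
 Pq.nil)))))) (Pq.cons (Pq.D 1 (Pq.cons (Pq.L [] 1 (Pf.W 41 2 [] [3] (Pf.cons (Pf.B 5 3 (Pf.C 7 82179) (Pf.C 4 33411)) Pf.nil)))
 (Pq.cons (Pq.D 2 (Pq.cons (Pq.L [] 7 (Pf.C 4 49412))
 (Pq.cons (Pq.L [] 5 (Pf.C 11 49666))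
 (Pq.cons (Pq.L [] 2 (Pf.C 42 260))
 (Pq.cons (Pq.L [] 7 (Pf.C 4 49412))
 (Pq.cons (Pq.L [] 7 (Pf.C 4 49412))
 Pq.nil)))))) (Pq.cons (Pq.L [] 1 (Pf.C 42 259))
 (Pq.cons (Pq.D 2 (Pq.cons (Pq.L [] 4 (Pf.C 48 388))
 (Pq.cons (Pq.L [] 7 (Pf.C 4 65795))
 (Pq.cons (Pq.L [] 2 (Pf.C 42 260))
 (Pq.cons (Pq.L [] 7 (Pf.C 3 65922))
 (Pq.cons (Pq.L [] 7 (Pf.C 3 65922))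
 Pq.nil)))))) (Pq.cons (Pq.D 2 (Pq.cons (Pq.L [] 4 (Pf.C 52 388))
 (Pq.cons (Pq.L [] 7 (Pf.C 4 65795))
 (Pq.cons (Pq.L [] 2 (Pf.C 42 260))
 (Pq.cons (Pq.L [] 7 (Pf.C 3 65922))
 (Pq.cons (Pq.L [] 7 (Pf.C 3 65922))
 Pq.nil)))))) Pq.nil)))))) (Pq.cons (Pq.D 1 (Pq.cons (Pq.D 2 (Pq.cons (Pq.L [] 4 (Pf.C 2 515))
 (Pq.cons (Pq.L [] 2 (Pf.C 42 514))
 (Pq.cons (Pq.L [] 2 (Pf.C 42 514))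
 (Pq.cons (Pq.L [] 4 (Pf.C 48 515))
 (Pq.cons (Pq.L [] 4 (Pf.C 52 515))
 Pq.nil)))))) (Pq.cons (Pq.L [] 1 (Pf.C 42 386))
 (Pq.cons (Pq.L [] 1 (Pf.C 42 386))
 (Pq.cons (Pq.D 2 (Pq.cons (Pq.L [] 4 (Pf.C 48 388))
 (Pq.cons (Pq.L [] 2 (Pf.C 42 514))
 (Pq.cons (Pq.L [] 2 (Pf.C 42 514))
 (Pq.cons (Pq.L [] 7 (Pf.C 3 65922))
 (Pq.cons (Pq.L [] 7 (Pf.C 3 65922))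
 Pq.nil)))))) (Pq.cons (Pq.D 2 (Pq.cons (Pq.L [] 4 (Pf.C 52 388))
 (Pq.cons (Pq.L [] 2 (Pf.C 42 514))
 (Pq.cons (Pq.L [] 2 (Pf.C 42 514))
 (Pq.cons (Pq.L [] 7 (Pf.C 3 65922))
 (Pq.cons (Pq.L [] 7 (Pf.C 3 65922))
 Pq.nil)))))) Pq.nil)))))) (Pq.cons (Pq.D 1 (Pq.cons (Pq.L [] 1 (Pf.C 48 259))
 (Pq.cons (Pq.D 2 (Pq.cons (Pq.L [] 2 (Pf.C 48 260))
 (Pq.cons (Pq.L [] 7 (Pf.C 4 65922))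
 (Pq.cons (Pq.L [] 7 (Pf.C 4 65922))
 (Pq.cons (Pq.L [] 7 (Pf.C 3 65795))
 (Pq.cons (Pq.L [] 2 (Pf.C 40 514))
 Pq.nil)))))) (Pq.cons (Pq.D 2 (Pq.cons (Pq.L [] 2 (Pf.C 48 260))
 (Pq.cons (Pq.L [] 7 (Pf.C 4 65922))
 (Pq.cons (Pq.L [] 7 (Pf.C 4 65922))
 (Pq.cons (Pq.L [] 7 (Pf.C 3 65795))
 (Pq.cons (Pq.L [] 2 (Pf.C 40 514))
 Pq.nil)))))) (Pq.cons (Pq.L [0] 1 (Pf.C 10 49408))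
 (Pq.cons (Pq.L [] 1 (Pf.C 40 386))
 Pq.nil)))))) (Pq.cons (Pq.D 1 (Pq.cons (Pq.L [] 1 (Pf.C 52 259))
 (Pq.cons (Pq.D 2 (Pq.cons (Pq.L [] 2 (Pf.C 52 260))
 (Pq.cons (Pq.L [] 7 (Pf.C 4 65922))
 (Pq.cons (Pq.L [] 7 (Pf.C 4 65922))
 (Pq.cons (Pq.L [] 2 (Pf.C 40 260))
 (Pq.cons (Pq.L [0] 2 (Pf.C 3 65792))
 Pq.nil)))))) (Pq.cons (Pq.D 2 (Pq.cons (Pq.L [] 2 (Pf.C 52 260))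
 (Pq.cons (Pq.L [] 7 (Pf.C 4 65922))
 (Pq.cons (Pq.L [] 7 (Pf.C 4 65922))
 (Pq.cons (Pq.L [] 2 (Pf.C 40 260))
 (Pq.cons (Pq.L [0] 2 (Pf.C 3 65792))
 Pq.nil)))))) (Pq.cons (Pq.L [] 1 (Pf.C 40 259))
 (Pq.cons (Pq.L [0] 1 (Pf.C 3 49408))
 Pq.nil)))))) Pq.nil)))))) (Pq.cons (Pq.L [] 0x136ef7 (Pf.C 1 0x2830820382))
 Pq.nil))
theorem e5_o27 : AllRef e5_T e5_G29 (applyObl d_T 2 [41,34,43,45,47] [0,0,0,0,0] []) :=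
  chkPq_sound e5_o27c _ (by decide +kernel)
noncomputable def e5_o28c : Pq := Pq.nil
theorem e5_o28 : AllRef e5_T e5_G21 (ptObl 26 (PT.br 2 PT.kid PT.kid) []) :=
  chkPq_sound e5_o28c _ (by decide +kernel)
noncomputable def e5_o29c : Pq := Pq.nil
theorem e5_o29 : AllRef e5_T e5_G30 (ptObl 27 PT.kid []) :=
  chkPq_sound e5_o29c _ (by decide +kernel)
noncomputable def e5_o30c : Pq := Pq.nil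
theorem e5_o30 : AllRef e5_T e5_G31 (ptObl 28 PT.kid []) :=
  chkPq_sound e5_o30c _ (by decide +kernel)
noncomputable def e5_o31c : Pq := (Pq.cons (Pq.L [2,3] 3 (Pf.B 6 5 (Pf.B 6 3 (Pf.B 6 2 (Pf.B 5 2 (Pf.C 15 0x410286) (Pf.B 5 3 (Pf.C 8 49413) (Pf.C 3 33157))) (Pf.C 8 49414)) (Pf.B 6 2 (Pf.C 8 33158) (Pf.C 3 49414))) (Pf.C 2 646)))
 (Pq.cons (Pq.L [2,3] 3 (Pf.B 6 5 (Pf.B 4 3 (Pf.B 6 3 (Pf.B 5 3 (Pf.C 15 0x610286) (Pf.B 5 2 (Pf.C 8 33157) (Pf.C 3 49413))) (Pf.B 6 2 (Pf.C 8 33158) (Pf.C 3 49414))) (Pf.C 3 33156)) (Pf.C 2 646)))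
 (Pq.cons (Pq.L [0,1,2,3] 3 (Pf.B 6 5 (Pf.B 4 3 (Pf.B 4 2 (Pf.B 6 3 (Pf.B 6 2 (Pf.B 5 3 (Pf.B 5 2 (Pf.B 5 0 (Pf.C 16 66178) (Pf.B 6 0 (Pf.C 15 0x414006) (Pf.B 6 1 (Pf.C 7 16390) (Pf.C 4 134)))) (Pf.C 8 49413)) (Pf.C 14 0x814186)) (Pf.C 8 49414)) (Pf.B 6 2 (Pf.C 8 33158) (Pf.C 3 49414))) (Pf.C 5 49412)) (Pf.C 12 49412)) (Pf.C 2 646)))
 (Pq.cons (Pq.L [0,1] 3 (Pf.B 6 5 (Pf.B 4 1 (Pf.B 6 1 (Pf.B 5 1 (Pf.C 16 0x210286) (Pf.B 5 0 (Pf.C 7 133) (Pf.C 4 16389))) (Pf.B 6 0 (Pf.C 7 134) (Pf.C 4 16390))) (Pf.C 4 132)) (Pf.C 2 646)))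
 Pq.nil))))
theorem e5_o31 : AllRef e5_T e5_G32 (splitObl [1] [48,49,50,51]) :=
  chkPq_sound e5_o31c _ (by decide +kernel)
noncomputable def e5_o32c : Pq := (Pq.cons (Pq.L [] 1 (Pf.C 2 644))
 Pq.nil)
theorem e5_o32 : AllRef e5_T e5_G32 (applyObl TD2 1 [1] [0] []) :=
  chkPq_sound e5_o32c _ (by decide +kernel)
noncomputable def e5_o33c : Pq := (Pq.cons (Pq.D 0 (Pq.cons (Pq.D 1 (Pq.cons (Pq.L [2] 1 (Pf.C 9 33412))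
 (Pq.cons (Pq.D 2 (Pq.cons (Pq.L [2] 2 (Pf.C 9 33540))
 (Pq.cons (Pq.L [] 5 (Pf.C 11 82692))
 (Pq.cons (Pq.L [] 7 (Pf.C 4 82438))
 (Pq.cons (Pq.L [] 7 (Pf.C 4 82438))
 Pq.nil))))) (Pq.cons (Pq.D 2 (Pq.cons (Pq.L [] 7 (Pf.C 4 98821))
 (Pq.cons (Pq.L [] 7 (Pf.C 4 98821))
 (Pq.cons (Pq.L [] 7 (Pf.C 3 98948))
 (Pq.cons (Pq.L [] 7 (Pf.C 3 98948))
 Pq.nil))))) (Pq.cons (Pq.D 2 (Pq.cons (Pq.L [] 7 (Pf.C 4 98821))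
 (Pq.cons (Pq.L [] 7 (Pf.C 4 98821))
 (Pq.cons (Pq.L [] 7 (Pf.C 3 98948))
 (Pq.cons (Pq.L [] 7 (Pf.C 3 98948))
 Pq.nil))))) Pq.nil))))) (Pq.cons (Pq.D 1 (Pq.cons (Pq.D 2 (Pq.cons (Pq.L [] 5 (Pf.C 11 82692))
 (Pq.cons (Pq.L [2] 2 (Pf.C 4 98818))
 (Pq.cons (Pq.L [] 7 (Pf.C 4 82438))
 (Pq.cons (Pq.L [] 7 (Pf.C 4 82438))
 Pq.nil))))) (Pq.cons (Pq.L [2] 1 (Pf.C 4 82434))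
 (Pq.cons (Pq.D 2 (Pq.cons (Pq.L [] 7 (Pf.C 4 98821))
 (Pq.cons (Pq.L [2] 2 (Pf.C 4 98818))
 (Pq.cons (Pq.L [] 7 (Pf.C 3 98948))
 (Pq.cons (Pq.L [] 7 (Pf.C 3 98948))
 Pq.nil))))) (Pq.cons (Pq.D 2 (Pq.cons (Pq.L [] 7 (Pf.C 4 98821))
 (Pq.cons (Pq.L [2] 2 (Pf.C 4 98818))
 (Pq.cons (Pq.L [] 7 (Pf.C 3 98948))
 (Pq.cons (Pq.L [] 7 (Pf.C 3 98948))
 Pq.nil))))) Pq.nil))))) (Pq.cons (Pq.D 1 (Pq.cons (Pq.D 2 (Pq.cons (Pq.L [] 7 (Pf.C 4 98948))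
 (Pq.cons (Pq.L [] 7 (Pf.C 4 98948))
 (Pq.cons (Pq.L [] 7 (Pf.C 3 98821))
 (Pq.cons (Pq.L [] 7 (Pf.C 3 98821))
 Pq.nil))))) (Pq.cons (Pq.D 2 (Pq.cons (Pq.L [] 7 (Pf.C 4 98948))
 (Pq.cons (Pq.L [] 7 (Pf.C 4 98948))
 (Pq.cons (Pq.L [] 7 (Pf.C 3 98821))
 (Pq.cons (Pq.L [] 7 (Pf.C 3 98821))
 Pq.nil))))) (Pq.cons (Pq.L [0] 1 (Pf.C 10 82432))
 (Pq.cons (Pq.D 2 (Pq.cons (Pq.L [] 7 (Pf.C 3 82438))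
 (Pq.cons (Pq.L [] 7 (Pf.C 3 82438))
 (Pq.cons (Pq.L [0] 2 (Pf.C 10 98816))
 (Pq.cons (Pq.L [] 5 (Pf.C 12 82692))
 Pq.nil))))) Pq.nil))))) (Pq.cons (Pq.D 1 (Pq.cons (Pq.D 2 (Pq.cons (Pq.L [] 7 (Pf.C 4 98948))
 (Pq.cons (Pq.L [] 7 (Pf.C 4 98948))
 (Pq.cons (Pq.L [] 7 (Pf.C 3 98821))
 (Pq.cons (Pq.L [0] 2 (Pf.C 3 98816))
 Pq.nil))))) (Pq.cons (Pq.D 2 (Pq.cons (Pq.L [] 7 (Pf.C 4 98948))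
 (Pq.cons (Pq.L [] 7 (Pf.C 4 98948))
 (Pq.cons (Pq.L [] 7 (Pf.C 3 98821))
 (Pq.cons (Pq.L [0] 2 (Pf.C 3 98816))
 Pq.nil))))) (Pq.cons (Pq.D 2 (Pq.cons (Pq.L [] 7 (Pf.C 3 82438))
 (Pq.cons (Pq.L [] 7 (Pf.C 3 82438))
 (Pq.cons (Pq.L [] 5 (Pf.C 12 82692))
 (Pq.cons (Pq.L [0] 2 (Pf.C 3 98816))
 Pq.nil))))) (Pq.cons (Pq.L [0] 1 (Pf.C 3 82432))
 Pq.nil))))) Pq.nil))))) (Pq.cons (Pq.L [] 0x136ef7 (Pf.C 1 0x3850c28484))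
 Pq.nil))
theorem e5_o33 : AllRef e5_T e5_G32 (applyObl d_T 2 [48,49,50,51] [0,0,0,0] []) :=
  chkPq_sound e5_o33c _ (by decide +kernel)

end Pool.Agent.Lib.MP_849b2e_co
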