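import Pool.Agent.Lib.MP_849b2e_co.AllR
import Pool.Agent.Lib.MP_849b2e_co.Te5
import Pool.Agent.Lib.MP_849b2e_co.Oe5_0
import Pool.Agent.Lib.MP_849b2e_co.Ld
import Pool.Agent.Lib.MP_849b2e_co.Le3

set_option maxRecDepth 100000
set_option linter.all false
namespace Pool.Agent.Lib.MP_849b2e_co

theorem e5_n52  : Bd e5_T e5_G32 [48,49,50,51] :=
  r_apply lem_d [0,0,0,0] [] (by decide +kernel) e5_o33
theorem e5_n51  : Bd e5_T e5_G32 [1] :=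
  r_apply lem_D2 [0] [] (by decide +kernel) e5_o32
theorem e5_n50  : Bd e5_T e5_G32 [1,48,49,50,51] :=
  r_split [1] [48,49,50,51] (by decide +kernel) e5_o31 e5_n51 e5_n52
theorem e5_n49  : Bd e5_T e5_G32 [1,26,27,28] :=
  r_act [18,19,20] [1,48,49,50,51] (by decide +kernel) e5_n50
theorem e5_n48  : Bd e5_T e5_G31 [1,26,27,28] :=
  r_psplit 28 [2,3] PT.kid ⟨51,[21],[],[]⟩ e5_G32 [1,26,27,28] (by decide +kernel) e5_o30 e5_n49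
theorem e5_n47  : Bd e5_T e5_G30 [1,26,27,28] :=
  r_psplit 27 [2,3] PT.kid ⟨50,[20],[],[]⟩ e5_G31 [1,26,27,28] (by decide +kernel) e5_o29 e5_n48
theorem e5_n46  : Bd e5_T e5_G21 [1,26,27,28] :=
  r_psplit 26 [] (PT.br 2 PT.kid PT.kid) ⟨48,[19],[],[]⟩ e5_G30 [1,26,27,28] (by decide +kernel) e5_o28 e5_n47
theorem e5_n45  : Bd e5_T e5_G29 [41,34,43,45,47] :=
  r_apply lem_d [0,0,0,0,0] [] (by decide +kernel) e5_o27
theorem e5_n44  : Bd e5_T e5_G29 [38,39,40,42,44,46] :=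
  r_apply lem_d [0,0,0,0,0,0] [(39,0x100000000000),(40,0x400000000000),(44,0x8000000000),(46,0x10000000000)] (by decide +kernel) (allRef_split 1 e5_o16 (allRef_expand 0 (allRef_split 2 (allRef_split 1 (allRef_expand 1 (allRef_split 4 e5_o17 e5_o18)) (allRef_expand 1 (allRef_split 4 e5_o19 e5_o20))) (allRef_split 1 (allRef_expand 1 (allRef_split 4 e5_o21 e5_o22)) (allRef_split 1 (allRef_expand 1 (allRef_split 3 e5_o23 (allRef_split 1 e5_o24 e5_o25))) e5_o26)))))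
theorem e5_n43  : Bd e5_T e5_G29 [38,39,40,41,34,42,43,44,45,46,47] :=
  r_split [38,39,40,42,44,46] [41,34,43,45,47] (by decide +kernel) e5_o15 e5_n44 e5_n45
theorem e5_n42  : Bd e5_T e5_G29 [38,39,40,41,34,42,43,32,33] :=
  r_act [16,17] [38,39,40,41,34,42,43,44,45,46,47] (by decide +kernel) e5_n43
theorem e5_n41  : Bd e5_T e5_G28 [38,39,40,41,34,42,43,32,33] :=
  r_def 33 0 [42] [] ⟨46,[18],[58,0,59],[]⟩ e5_G29 [38,39,40,41,34,42,43,32,33] (by decide +kernel) e5_n42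
theorem e5_n40  : Bd e5_T e5_G27 [38,39,40,41,34,42,43,32,33] :=
  r_def 32 0 [42] [] ⟨44,[17],[56,0,57],[]⟩ e5_G28 [38,39,40,41,34,42,43,32,33] (by decide +kernel) e5_n41
theorem e5_n39  : Bd e5_T e5_G27 [38,39,40,41,34,35,32,33] :=
  r_act [15] [38,39,40,41,34,42,43,32,33] (by decide +kernel) e5_n40
theorem e5_n38  : Bd e5_T e5_G26 [38,39,40,41,34,35,32,33] :=
  r_def 35 0 [38,39,40] [] ⟨42,[16],[54,0,55],[]⟩ e5_G27 [38,39,40,41,34,35,32,33] (by decide +kernel) e5_n39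
theorem e5_n37  : Bd e5_T e5_G26 [36,37,34,35,32,33] :=
  r_act [13,14] [38,39,40,41,34,35,32,33] (by decide +kernel) e5_n38
theorem e5_n36  : Bd e5_T e5_G25 [36,37,34,35,32,33] :=
  r_def 37 0 [33] [] ⟨40,[15],[52,0,53],[]⟩ e5_G26 [36,37,34,35,32,33] (by decide +kernel) e5_n37
theorem e5_n35  : Bd e5_T e5_G24 [36,37,34,35,32,33] :=
  r_def 36 0 [33] [] ⟨38,[14],[50,0,51],[]⟩ e5_G25 [36,37,34,35,32,33] (by decide +kernel) e5_n36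
theorem e5_n34  : Bd e5_T e5_G24 [31,34,35,32,33] :=
  r_act [12] [36,37,34,35,32,33] (by decide +kernel) e5_n35
theorem e5_n33  : Bd e5_T e5_G23 [31,34,35,32,33] :=
  r_def 31 0 [32] [] ⟨36,[13],[48,0,49],[]⟩ e5_G24 [31,34,35,32,33] (by decide +kernel) e5_n34
theorem e5_n32  : Bd e5_T e5_G22 [1,29,30,27,28] :=
  r_hit [1,27,28,29,30] e5_h32 ⟨31,[],[44,45,0,0,46,47],[]⟩ e5_G23 [31,34,35,32,33] (by decide +kernel) e5_o14 e5_n33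
theorem e5_n31  : Bd e5_T e5_G22 [1,26,27,28] :=
  r_act [11] [1,29,30,27,28] (by decide +kernel) e5_n32
theorem e5_n30  : Bd e5_T e5_G20 [1,26,27,28] :=
  r_def 26 0 [26] [] ⟨29,[12],[42,0,43],[]⟩ e5_G22 [1,26,27,28] (by decide +kernel) e5_n31
theorem e5_n29  : Bd e5_T e5_G19 [1,26,27,28] :=
  r_case [27,28] [⟨0,1,true⟩] [0,1] ⟨29,[],[41],[]⟩ e5_G20 [1,26,27,28] e5_G21 [1,26,27,28] (by decide +kernel) e5_n30 e5_n46
theorem e5_n28  : Bd e5_T e5_G19 [1,2,3] :=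
  r_act [9,10] [1,26,27,28] (by decide +kernel) e5_n29
theorem e5_n27  : Bd e5_T e5_G18 [1,2,3] :=
  r_psplit 3 [] (PT.br 0 PT.kid PT.kid) ⟨27,[11],[],[]⟩ e5_G19 [1,2,3] (by decide +kernel) e5_o13 e5_n28
theorem e5_n26  : Bd e5_T e5_G1 [1,2,3] :=
  r_psplit 2 [0,1] PT.kid ⟨26,[10],[],[]⟩ e5_G18 [1,2,3] (by decide +kernel) e5_o12 e5_n27
theorem e5_n25  : Bd e5_T e5_G13 [19,23,25,12,21] :=
  r_apply lem_d [0,0,0,0,0] [] (by decide +kernel) e5_o11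
theorem e5_n24  : Bd e5_T e5_G17 [17,22,20] :=
  r_apply lem_d [0,0,0] [(17,0x400000),(22,0x20000)] (by decide +kernel) e5_o10
theorem e5_n23  : Bd e5_T e5_G15 [16,17,18,22,24,20] :=
  r_kill [16,18,24] ⟨26,[],[],[]⟩ e5_G17 [17,22,20] (by decide +kernel) e5_o9 e5_n24
theorem e5_n22  : Bd e5_T e5_G16 [16,18,24,20] :=
  r_apply lem_d [0,0,0,0] [(18,0x1000000),(24,0x40000)] (by decide +kernel) (allRef_split 1 e5_o6 (allRef_expand 0 (allRef_split 2 e5_o7 e5_o8)))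
theorem e5_n21  : Bd e5_T e5_G14 [16,17,18,22,24,20] :=
  r_kill [17,22] ⟨26,[],[],[]⟩ e5_G16 [16,18,24,20] (by decide +kernel) e5_o5 e5_n22
theorem e5_n20  : Bd e5_T e5_G13 [16,17,18,22,24,20] :=
  r_ex 17 0 ⟨26,[],[39],[]⟩ e5_G14 [16,17,18,22,24,20] ⟨26,[],[40],[]⟩ e5_G15 [16,17,18,22,24,20] (by decide +kernel) e5_n21 e5_n23
theorem e5_n19  : Bd e5_T e5_G13 [16,17,18,19,22,23,24,25,12,20,21] :=
  r_split [16,17,18,22,24,20] [19,23,25,12,21] (by decide +kernel) e5_o4 e5_n20 e5_n25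
theorem e5_n18  : Bd e5_T e5_G13 [16,17,18,19,10,11,12,20,21] :=
  r_act [7,8] [16,17,18,19,22,23,24,25,12,20,21] (by decide +kernel) e5_n19
theorem e5_n17  : Bd e5_T e5_G12 [16,17,18,19,10,11,12,20,21] :=
  r_def 11 0 [20] [] ⟨24,[9],[37,0,38],[]⟩ e5_G13 [16,17,18,19,10,11,12,20,21] (by decide +kernel) e5_n18
theorem e5_n16  : Bd e5_T e5_G11 [16,17,18,19,10,11,12,20,21] :=
  r_def 10 0 [20] [] ⟨22,[8],[35,0,36],[]⟩ e5_G12 [16,17,18,19,10,11,12,20,21] (by decide +kernel) e5_n17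
theorem e5_n15  : Bd e5_T e5_G11 [16,17,18,19,10,11,12,13] :=
  r_act [6] [16,17,18,19,10,11,12,20,21] (by decide +kernel) e5_n16
theorem e5_n14  : Bd e5_T e5_G10 [16,17,18,19,10,11,12,13] :=
  r_def 13 0 [16,17,18] [] ⟨20,[7],[33,0,34],[]⟩ e5_G11 [16,17,18,19,10,11,12,13] (by decide +kernel) e5_n15
theorem e5_n13  : Bd e5_T e5_G10 [14,15,10,11,12,13] :=
  r_act [4,5] [16,17,18,19,10,11,12,13] (by decide +kernel) e5_n14
theorem e5_n12  : Bd e5_T e5_G9 [14,15,10,11,12,13] :=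
  r_def 15 0 [11] [] ⟨18,[6],[31,0,32],[]⟩ e5_G10 [14,15,10,11,12,13] (by decide +kernel) e5_n13
theorem e5_n11  : Bd e5_T e5_G8 [14,15,10,11,12,13] :=
  r_def 14 0 [11] [] ⟨16,[5],[29,0,30],[]⟩ e5_G9 [14,15,10,11,12,13] (by decide +kernel) e5_n12
theorem e5_n10  : Bd e5_T e5_G8 [9,10,11,12,13] :=
  r_act [3] [14,15,10,11,12,13] (by decide +kernel) e5_n11
theorem e5_n9  : Bd e5_T e5_G7 [9,10,11,12,13] :=
  r_def 9 0 [10] [] ⟨14,[4],[27,0,28],[]⟩ e5_G8 [9,10,11,12,13] (by decide +kernel) e5_n10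
theorem e5_n8  : Bd e5_T e5_G6 [1,4,5,7,8] :=
  r_hit [1,4,5,7,8] e5_h8 ⟨9,[],[23,24,0,0,25,26],[]⟩ e5_G7 [9,10,11,12,13] (by decide +kernel) e5_o3 e5_n9
theorem e5_n7  : Bd e5_T e5_G6 [1,4,5,6] :=
  r_act [2] [1,4,5,7,8] (by decide +kernel) e5_n8
theorem e5_n6  : Bd e5_T e5_G5 [1,4,5,6] :=
  r_def 6 0 [6] [] ⟨7,[3],[21,0,22],[]⟩ e5_G6 [1,4,5,6] (by decide +kernel) e5_n7
theorem e5_n5  : Bd e5_T e5_G5 [1,2,3] :=
  r_act [0,1] [1,4,5,6] (by decide +kernel) e5_n6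
theorem e5_n4  : Bd e5_T e5_G4 [1,2,3] :=
  r_psplit 3 [0,1] PT.kid ⟨6,[2],[],[]⟩ e5_G5 [1,2,3] (by decide +kernel) e5_o2 e5_n5
theorem e5_n3  : Bd e5_T e5_G3 [1,2,3] :=
  r_psplit 2 [] (PT.br 0 PT.kid PT.kid) ⟨4,[1],[],[]⟩ e5_G4 [1,2,3] (by decide +kernel) e5_o1 e5_n4
theorem e5_n2  : Bd e5_T e5_G2 [1,2,3] :=
  r_apply lem_e3 [1,2,3] [] (by decide +kernel) e5_o0
theorem e5_n1  : Bd e5_T e5_G0 [1,2,3] :=
  r_case [3,3] [⟨0,1,true⟩] [] ⟨4,[],[20],[]⟩ e5_G2 [1,2,3] e5_G3 [1,2,3] (by decide +kernel) e5_n2 e5_n3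
theorem e5_n0  : Bd e5_T (pureCtx 3 18) (pureAct 3) :=
  show Bd _ _ [1,2,3] from r_case [2,2] [⟨0,1,true⟩] [] ⟨4,[],[19],[]⟩ e5_G0 [1,2,3] e5_G1 [1,2,3] (by decide +kernel) e5_n1 e5_n26
theorem lem_e5  : Lem e5_T 3 18 := ⟨by decide +kernel, e5_n0⟩

end Pool.Agent.Lib.MP_849b2e_co
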