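import Pool.Agent.Lib.MP_849b2e_co.Fast
import Pool.Agent.Lib.MP_849b2e_co.TeK
import Pool.Agent.Lib.MP_849b2e_co.RApply
import Pool.Agent.Lib.MP_849b2e_co.Td
import Pool.Agent.Lib.MP_849b2e_co.Te3
import Pool.Agent.Lib.MP_849b2e_co.Te5

set_option maxRecDepth 100000
set_option linter.all false
namespace Pool.Agent.Lib.MP_849b2e_co

noncomputable def eK_o0c : Pq := Pq.nil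
theorem eK_o0 : AllRef eK_T (pureCtx 0 3) (blockObl [0] [0] [1] [1]) :=
  chkPq_sound eK_o0c _ (by decide +kernel)
noncomputable def eK_o1c : Pq := (Pq.cons (Pq.L [] 7 (Pf.C 3 32896))
 (Pq.cons (Pq.L [] 0x136ef7 (Pf.C 1 0x1810418280))
 Pq.nil))
theorem eK_o1 : AllRef eK_T eK_G1 (applyObl d_T 2 [1] [0] []) :=
  chkPq_sound eK_o1c _ (by decide +kernel)
noncomputable def eK_o2c : Pq := Pq.nil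
theorem eK_o2 : AllRef eK_T eK_G2 (ptObl 1 PT.kid []) :=
  chkPq_sound eK_o2c _ (by decide +kernel)
noncomputable def eK_o3c : Pq := (Pq.cons (Pq.L [0,1,2] 0 (Pf.C 0 32899))
 (Pq.cons (Pq.L [0,1,2] 0 (Pf.C 0 0x208003))
 (Pq.cons (Pq.L [0,1,2] 0 (Pf.C 0 0x404003))
 Pq.nil)))
theorem eK_o3 : AllRef eK_T eK_G3 (ptObl 4 (PT.br 0 (PT.br 1 (PT.br 2 PT.kid PT.kid) (PT.br 2 PT.kid PT.ref)) (PT.br 1 (PT.br 2 PT.kid PT.ref) (PT.br 2 PT.ref PT.kid))) []) :=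
  chkPq_sound eK_o3c _ (by decide +kernel)
noncomputable def eK_o4c : Pq := (Pq.cons (Pq.L [0,1,2] 0 (Pf.B 5 4 (Pf.C 0 0x804005) (Pf.B 5 3 (Pf.C 0 0x604005) (Pf.B 4 3 (Pf.C 0 0x604004) (Pf.C 2 0x2820200184)))))
 Pq.nil)
theorem eK_o4 : AllRef eK_T eK_G4 (hitObl [9] eK_h6) :=
  chkPq_sound eK_o4c _ (by decide +kernel)
noncomputable def eK_o5c : Pq := (Pq.cons (Pq.L [] 0 (Pf.C 4 3))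
 Pq.nil)
theorem eK_o5 : AllRef eK_T eK_G5 (List.map pat1 [10]) :=
  chkPq_sound eK_o5c _ (by decide +kernel)
noncomputable def eK_o6c : Pq := (Pq.cons (Pq.L [0,1,2] 4032 (Pf.B 11 6 (Pf.B 10 6 (Pf.C 1 0x5820024506) (Pf.C 1 0x48a0c0400b)) (Pf.B 11 3 (Pf.B 10 3 (Pf.C 1 0x5820024503) (Pf.C 1 0x48a060400b)) (Pf.C 1 0x30b0604009))))
 (Pq.cons (Pq.L [0,1,2] 4095 (Pf.B 11 8 (Pf.B 11 7 (Pf.B 11 6 (Pf.B 10 6 (Pf.C 1 0x309140400b) (Pf.B 10 8 (Pf.B 10 7 (Pf.C 1 0x3861404008) (Pf.B 10 3 (Pf.C 0 0x62430a) (Pf.B 9 7 (Pf.C 0 0xe28309) (Pf.B 7 3 (Pf.C 0 0x624307) (Pf.B 11 5 (Pf.B 11 4 (Pf.B 11 3 (Pf.B 10 5 (Pf.B 10 4 (Pf.C 1 0x2031404005) (Pf.B 9 4 (Pf.C 0 0x828189) (Pf.B 7 4 (Pf.C 0 0x824187) (Pf.B 6 4 (Pf.C 0 0x81c186)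 (Pf.C 2 0x5090e0c206))))) (Pf.C 1 0x18a0a0400b)) (Pf.C 1 0x2031604005)) (Pf.B 11 3 (Pf.C 1 0x1841604005) (Pf.B 10 5 (Pf.C 1 0x5831404005) (Pf.B 9 5 (Pf.C 1 0x5831204005) (Pf.C 0 0x628485))))) (Pf.B 8 5 (Pf.B 10 5 (Pf.B 10 4 (Pf.C 1 0x2031404005) (Pf.B 9 4 (Pf.C 0 0x828189) (Pf.B 7 4 (Pf.C 0 0x824187) (Pf.B 6 4 (Pf.C 0 0x81c186) (Pf.C 2 0x5090e0c206))))) (Pf.C 1 0x5851404008)) (Pf.C 0 0x1608288))))))) (Pf.C 1 0x30a100400b))) (Pf.C 1 0x3861604008)) (Pf.B 11 6 (Pf.C 1 0x3071604008) (Pf.B 11 3 (Pf.B 10 3 (Pf.C 1 0x189140400b) (Pf.B 10 6 (Pf.C 0 0xc2418a) (Pf.B 10 8 (Pf.C 1 0x5861404008) (Pf.B 9 8 (Pf.C 1 0x5861204008) (Pf.C 0 0xc28488))))) (Pf.C 0 0x121818b)))) (Pf.B 11 7 (Pf.B 11 6 (Pf.B 10 6 (Pf.C 1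 0x309140400b) (Pf.B 10 7 (Pf.C 1 0x386140400b) (Pf.B 10 3 (Pf.C 0 0x62430a) (Pf.B 9 7 (Pf.C 0 0xe28309) (Pf.B 7 3 (Pf.C 0 0x624307) (Pf.B 11 5 (Pf.B 11 4 (Pf.B 11 3 (Pf.B 10 5 (Pf.B 10 4 (Pf.C 1 0x2031404005) (Pf.B 9 4 (Pf.C 0 0x828189) (Pf.B 7 4 (Pf.C 0 0x824187) (Pf.B 6 4 (Pf.C 0 0x81c186) (Pf.C 2 0x5090e0c206))))) (Pf.C 1 0x18a0a0400b)) (Pf.C 1 0x2031604005)) (Pf.B 11 3 (Pf.C 1 0x1841604005) (Pf.B 10 5 (Pf.C 1 0x5831404005) (Pf.B 9 5 (Pf.C 1 0x5831204005) (Pf.C 0 0x628485))))) (Pf.B 11 4 (Pf.B 10 5 (Pf.B 10 4 (Pf.C 1 0x2031404005) (Pf.B 9 4 (Pf.C 0 0x828189) (Pf.B 7 4 (Pf.C 0 0x824187) (Pf.B 6 4 (Pf.C 0 0x81c186) (Pf.C 2 0x5090e0c206))))) (Pf.B 10 4 (Pf.C 1 0x5851404004) (Pf.B 9 4 (Pf.C 0 0x828189)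 (Pf.B 7 4 (Pf.C 0 0x824187) (Pf.B 6 4 (Pf.C 0 0x81c186) (Pf.C 2 0x5090e0c206)))))) (Pf.B 8 4 (Pf.B 7 4 (Pf.C 1 0x40b0804007) (Pf.B 10 4 (Pf.C 0 0x81c18a) (Pf.B 9 4 (Pf.C 0 0x81c189) (Pf.B 6 4 (Pf.C 0 0x81c186) (Pf.C 2 0x5090e0c206))))) (Pf.C 0 0x42c404))))))))) (Pf.B 11 3 (Pf.B 10 3 (Pf.C 1 0x189140400b) (Pf.B 10 6 (Pf.C 0 0xc2418a) (Pf.B 11 5 (Pf.B 10 5 (Pf.B 10 4 (Pf.C 1 0x2031404005) (Pf.B 9 5 (Pf.B 9 4 (Pf.C 0 0x828189) (Pf.B 8 5 (Pf.B 9 8 (Pf.B 8 4 (Pf.B 8 3 (Pf.B 6 5 (Pf.C 1 0x40b0c04005) (Pf.C 1 0x1860a04008)) (Pf.C 1 0x2031004005)) (Pf.C 1 0x4841004005)) (Pf.C 1 0x5881204005)) (Pf.C 0 0x1608405))) (Pf.C 1 0x1890a0400b))) (Pf.C 1 0x18a0a0400b)) (Pf.B 6 5 (Pf.B 6 4 (Pf.C 1 0x2030c04005) (Pf.B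 10 4 (Pf.C 0 0x81818a) (Pf.B 9 4 (Pf.C 0 0x818189) (Pf.B 10 8 (Pf.B 10 7 (Pf.C 1 0x3861404008) (Pf.B 9 7 (Pf.C 0 0xe28309) (Pf.B 7 4 (Pf.C 0 0x824307) (Pf.B 7 3 (Pf.C 0 0x618207) (Pf.C 2 0x5090c10187))))) (Pf.B 10 7 (Pf.C 1 0x5881404007) (Pf.B 9 7 (Pf.C 0 0xe28309) (Pf.B 7 4 (Pf.C 0 0x824307) (Pf.B 7 3 (Pf.C 0 0x618207) (Pf.C 2 0x5090c10187))))))))) (Pf.C 0 0x42c286))))) (Pf.C 0 0x121818b))) (Pf.B 11 6 (Pf.B 10 6 (Pf.C 1 0x309140400b) (Pf.B 10 3 (Pf.C 0 0x62430a) (Pf.B 11 5 (Pf.B 8 5 (Pf.B 7 5 (Pf.C 1 0x40b0e04005) (Pf.B 6 5 (Pf.C 1 0x2870c04008) (Pf.B 11 3 (Pf.C 1 0x286060400b) (Pf.B 10 5 (Pf.C 1 0x5831404005) (Pf.C 0 0x618505))))) (Pf.C 0 0x1608405)) (Pf.B 7 5 (Pf.B 11 4 (Pf.B 7 4 (Pf.C 1 0x28b0e04004)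 (Pf.B 7 3 (Pf.C 1 0x1840e04005) (Pf.B 10 7 (Pf.C 0 0xe1818a) (Pf.B 10 4 (Pf.C 0 0x81c18a) (Pf.B 9 7 (Pf.C 0 0xe18189) (Pf.B 9 4 (Pf.C 0 0x81c189) (Pf.B 6 4 (Pf.C 0 0x81c186) (Pf.C 2 0x5090e0c206)))))))) (Pf.B 8 4 (Pf.B 6 4 (Pf.C 1 0x40b0804006) (Pf.B 7 4 (Pf.C 1 0x2060e04008) (Pf.C 0 0x1610386))) (Pf.C 0 0x42c404))) (Pf.C 0 0x42c287))))) (Pf.B 11 3 (Pf.B 10 3 (Pf.C 1 0x189140400b) (Pf.B 10 6 (Pf.C 0 0xc2418a) (Pf.B 10 7 (Pf.B 10 8 (Pf.C 1 0x38b100400a) (Pf.B 9 8 (Pf.B 9 7 (Pf.C 1 0x40b0e04009) (Pf.C 0 0x1618389)) (Pf.C 0 0xc28488))) (Pf.C 0 0x161838a)))) (Pf.C 0 0x121818b))))))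
 (Pq.cons (Pq.L [0,1,2] 4088 (Pf.B 11 8 (Pf.B 11 7 (Pf.B 11 6 (Pf.B 11 3 (Pf.B 7 3 (Pf.C 1 0x5820018383) (Pf.C 1 0x307060400b)) (Pf.C 1 0x48b0604006)) (Pf.B 11 3 (Pf.C 1 0x48b0c04003) (Pf.B 10 6 (Pf.B 10 3 (Pf.B 10 8 (Pf.B 8 3 (Pf.C 1 0x50b0604008) (Pf.C 1 0x308060400a)) (Pf.B 9 8 (Pf.B 8 3 (Pf.C 1 0x48b0604008) (Pf.C 1 0x3080604009)) (Pf.C 0 0x1628488))) (Pf.C 0 0x122c503)) (Pf.C 0 0x122c506)))) (Pf.B 11 6 (Pf.B 11 3 (Pf.B 8 3 (Pf.B 9 8 (Pf.B 7 3 (Pf.C 1 0x5870c04003) (Pf.B 9 7 (Pf.C 1 0x3070604009) (Pf.B 10 7 (Pf.C 0 0xe2c48a) (Pf.B 10 8 (Pf.B 10 3 (Pf.C 1 0x4020024503) (Pf.C 0 0x121c503)) (Pf.C 0 0x121c508))))) (Pf.C 1 0x3081204003)) (Pf.C 1 0x308060400b)) (Pf.C 1 0x48b0604006)) (Pf.C 0 0x101c30b)))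 (Pf.B 11 7 (Pf.B 11 6 (Pf.B 11 3 (Pf.B 9 8 (Pf.B 8 3 (Pf.C 1 0x48b1004003) (Pf.C 1 0x3080604009)) (Pf.C 0 0x42c409)) (Pf.C 1 0x48b0604006)) (Pf.C 0 0xe2030b)) (Pf.C 0 0x420587))))
 (Pq.cons (Pq.L [0,1,2] 4095 (Pf.B 11 8 (Pf.B 11 6 (Pf.B 11 3 (Pf.B 10 6 (Pf.B 10 3 (Pf.B 8 3 (Pf.C 1 0x186100400b) (Pf.B 9 8 (Pf.C 0 0x1018189) (Pf.B 10 8 (Pf.B 8 5 (Pf.B 11 5 (Pf.C 1 0x4030a0400b) (Pf.B 10 5 (Pf.C 1 0x4030a0400a) (Pf.C 0 0x42c28a))) (Pf.C 0 0x614402)) (Pf.C 0 0x62440a)))) (Pf.C 0 0xc2418a)) (Pf.C 0 0x1624506)) (Pf.C 0 0xc2418b)) (Pf.B 11 3 (Pf.C 0 0x62430b) (Pf.B 11 5 (Pf.B 10 6 (Pf.C 0 0xc2c48a) (Pf.B 10 8 (Pf.B 10 3 (Pf.C 0 0x62430a) (Pf.B 10 5 (Pf.B 10 4 (Pf.B 9 8 (Pf.B 9 5 (Pf.B 9 4 (Pf.B 8 4 (Pf.C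 1 0x21028484) (Pf.B 8 5 (Pf.C 1 0x2841028480) (Pf.C 0 0x814402))) (Pf.C 0 0xa0c209)) (Pf.C 0 0x140c485)) (Pf.C 0 0x1418488)) (Pf.C 0 0xa0c20a)) (Pf.C 0 0x160c505))) (Pf.C 0 0x1618508))) (Pf.C 0 0x614582)))) (Pf.B 11 7 (Pf.B 11 6 (Pf.B 10 8 (Pf.B 10 6 (Pf.B 10 3 (Pf.B 9 8 (Pf.B 8 3 (Pf.C 1 0x5090604008) (Pf.C 0 0x1218188)) (Pf.C 0 0x42c409)) (Pf.C 0 0xc2418a)) (Pf.C 0 0x1624506)) (Pf.C 0 0x42c40a)) (Pf.C 0 0xe2030b)) (Pf.C 0 0x420587))))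
 (Pq.cons (Pq.L [0,1,2] 4032 (Pf.B 11 6 (Pf.B 10 6 (Pf.C 1 0x5810024506) (Pf.C 1 0x48a0c0800b)) (Pf.B 11 3 (Pf.B 10 3 (Pf.C 1 0x5810024503) (Pf.C 1 0x48a060800b)) (Pf.C 1 0x30b0608009))))
 (Pq.cons (Pq.L [0,1,2] 4095 (Pf.B 11 8 (Pf.B 11 7 (Pf.B 11 6 (Pf.B 10 6 (Pf.C 1 0x309140800b) (Pf.B 10 8 (Pf.B 10 7 (Pf.C 1 0x3861408008) (Pf.B 10 3 (Pf.C 0 0x62430a) (Pf.B 9 7 (Pf.C 0 0xe28309) (Pf.B 7 3 (Pf.C 0 0x624307) (Pf.B 11 5 (Pf.B 11 4 (Pf.B 11 3 (Pf.B 10 5 (Pf.B 10 4 (Pf.C 1 0x2031408005) (Pf.B 9 4 (Pf.C 0 0x828189) (Pf.B 7 4 (Pf.C 0 0x824187) (Pf.B 6 4 (Pf.C 0 0x81c186) (Pf.C 2 0x5090e0c206))))) (Pf.C 1 0x18a0a0800b)) (Pf.C 1 0x2031608005)) (Pf.B 11 3 (Pf.C 1 0x1841608005) (Pf.B 10 5 (Pf.C 1 0x5831408005)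 (Pf.B 9 5 (Pf.C 1 0x5831208005) (Pf.C 0 0x628485))))) (Pf.B 8 5 (Pf.B 10 5 (Pf.B 10 4 (Pf.C 1 0x2031408005) (Pf.B 9 4 (Pf.C 0 0x828189) (Pf.B 7 4 (Pf.C 0 0x824187) (Pf.B 6 4 (Pf.C 0 0x81c186) (Pf.C 2 0x5090e0c206))))) (Pf.C 1 0x5851408008)) (Pf.C 0 0x1604288))))))) (Pf.C 1 0x30a100800b))) (Pf.C 1 0x3861608008)) (Pf.B 11 6 (Pf.C 1 0x3071608008) (Pf.B 11 3 (Pf.B 10 3 (Pf.C 1 0x189140800b) (Pf.B 10 6 (Pf.C 0 0xc2418a) (Pf.B 10 8 (Pf.C 1 0x5861408008) (Pf.B 9 8 (Pf.C 1 0x5861208008) (Pf.C 0 0xc28488))))) (Pf.C 0 0x121818b)))) (Pf.B 11 7 (Pf.B 11 6 (Pf.B 10 6 (Pf.C 1 0x309140800b) (Pf.B 10 7 (Pf.C 1 0x386140800b) (Pf.B 10 3 (Pf.C 0 0x62430a) (Pf.B 9 7 (Pf.C 0 0xe28309) (Pf.B 7 3 (Pf.C 0 0x624307) (Pf.B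 11 5 (Pf.B 11 4 (Pf.B 11 3 (Pf.B 10 5 (Pf.B 10 4 (Pf.C 1 0x2031408005) (Pf.B 9 4 (Pf.C 0 0x828189) (Pf.B 7 4 (Pf.C 0 0x824187) (Pf.B 6 4 (Pf.C 0 0x81c186) (Pf.C 2 0x5090e0c206))))) (Pf.C 1 0x18a0a0800b)) (Pf.C 1 0x2031608005)) (Pf.B 11 3 (Pf.C 1 0x1841608005) (Pf.B 10 5 (Pf.C 1 0x5831408005) (Pf.B 9 5 (Pf.C 1 0x5831208005) (Pf.C 0 0x628485))))) (Pf.B 11 4 (Pf.B 10 5 (Pf.B 10 4 (Pf.C 1 0x2031408005) (Pf.B 9 4 (Pf.C 0 0x828189) (Pf.B 7 4 (Pf.C 0 0x824187) (Pf.B 6 4 (Pf.C 0 0x81c186) (Pf.C 2 0x5090e0c206))))) (Pf.B 10 4 (Pf.C 1 0x5851408004) (Pf.B 9 4 (Pf.C 0 0x828189) (Pf.B 7 4 (Pf.C 0 0x824187) (Pf.B 6 4 (Pf.C 0 0x81c186) (Pf.C 2 0x5090e0c206)))))) (Pf.B 8 4 (Pf.B 7 4 (Pf.C 1 0x40b0808007) (Pf.B 10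 4 (Pf.C 0 0x81c18a) (Pf.B 9 4 (Pf.C 0 0x81c189) (Pf.B 6 4 (Pf.C 0 0x81c186) (Pf.C 2 0x5090e0c206))))) (Pf.C 0 0x22c404))))))))) (Pf.B 11 3 (Pf.B 10 3 (Pf.C 1 0x189140800b) (Pf.B 10 6 (Pf.C 0 0xc2418a) (Pf.B 11 5 (Pf.B 10 5 (Pf.B 10 4 (Pf.C 1 0x2031408005) (Pf.B 9 5 (Pf.B 9 4 (Pf.C 0 0x828189) (Pf.B 8 5 (Pf.B 9 8 (Pf.B 8 4 (Pf.B 8 3 (Pf.B 6 5 (Pf.C 1 0x40b0c08005) (Pf.C 1 0x1860a08008)) (Pf.C 1 0x2031008005)) (Pf.C 1 0x4841008005)) (Pf.C 1 0x5881208005)) (Pf.C 0 0x1604405))) (Pf.C 1 0x1890a0800b))) (Pf.C 1 0x18a0a0800b)) (Pf.B 6 5 (Pf.B 6 4 (Pf.C 1 0x2030c08005) (Pf.B 10 4 (Pf.C 0 0x81818a) (Pf.B 9 4 (Pf.C 0 0x818189) (Pf.B 10 8 (Pf.B 10 7 (Pf.C 1 0x3861408008) (Pf.B 9 7 (Pf.C 0 0xe28309) (Pf.B 7 4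 (Pf.C 0 0x824307) (Pf.B 7 3 (Pf.C 0 0x618207) (Pf.C 2 0x5090c10187))))) (Pf.B 10 7 (Pf.C 1 0x5881408007) (Pf.B 9 7 (Pf.C 0 0xe28309) (Pf.B 7 4 (Pf.C 0 0x824307) (Pf.B 7 3 (Pf.C 0 0x618207) (Pf.C 2 0x5090c10187))))))))) (Pf.C 0 0x22c286))))) (Pf.C 0 0x121818b))) (Pf.B 11 6 (Pf.B 10 6 (Pf.C 1 0x309140800b) (Pf.B 10 3 (Pf.C 0 0x62430a) (Pf.B 11 5 (Pf.B 8 5 (Pf.B 7 5 (Pf.C 1 0x40b0e08005) (Pf.B 6 5 (Pf.C 1 0x2870c08008) (Pf.B 11 3 (Pf.C 1 0x286060800b) (Pf.B 10 5 (Pf.C 1 0x5831408005) (Pf.C 0 0x618505))))) (Pf.C 0 0x1604405)) (Pf.B 7 5 (Pf.B 11 4 (Pf.B 7 4 (Pf.C 1 0x28b0e08004) (Pf.B 7 3 (Pf.C 1 0x1840e08005) (Pf.B 10 7 (Pf.C 0 0xe1818a) (Pf.B 10 4 (Pf.C 0 0x81c18a) (Pf.B 9 7 (Pf.C 0 0xe18189) (Pf.B 9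 4 (Pf.C 0 0x81c189) (Pf.B 6 4 (Pf.C 0 0x81c186) (Pf.C 2 0x5090e0c206)))))))) (Pf.B 8 4 (Pf.B 6 4 (Pf.C 1 0x40b0808006) (Pf.B 7 4 (Pf.C 1 0x2060e08008) (Pf.C 0 0x1610386))) (Pf.C 0 0x22c404))) (Pf.C 0 0x22c287))))) (Pf.B 11 3 (Pf.B 10 3 (Pf.C 1 0x189140800b) (Pf.B 10 6 (Pf.C 0 0xc2418a) (Pf.B 10 7 (Pf.B 10 8 (Pf.C 1 0x38b100800a) (Pf.B 9 8 (Pf.B 9 7 (Pf.C 1 0x40b0e08009) (Pf.C 0 0x1618389)) (Pf.C 0 0xc28488))) (Pf.C 0 0x161838a)))) (Pf.C 0 0x121818b))))))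
 (Pq.cons (Pq.L [0,1,2] 4088 (Pf.B 11 8 (Pf.B 11 7 (Pf.B 11 6 (Pf.B 11 3 (Pf.B 7 3 (Pf.C 1 0x5810018383) (Pf.C 1 0x307060800b)) (Pf.C 1 0x48b0608006)) (Pf.B 11 3 (Pf.C 1 0x48b0c08003) (Pf.B 10 6 (Pf.B 10 3 (Pf.B 10 8 (Pf.B 8 3 (Pf.C 1 0x50b0608008) (Pf.C 1 0x308060800a)) (Pf.B 9 8 (Pf.B 8 3 (Pf.C 1 0x48b0608008) (Pf.C 1 0x3080608009)) (Pf.C 0 0x1628488))) (Pf.C 0 0x122c503)) (Pf.C 0 0x122c506)))) (Pf.B 11 6 (Pf.B 11 3 (Pf.B 8 3 (Pf.B 9 8 (Pf.B 7 3 (Pf.C 1 0x5870c08003) (Pf.B 9 7 (Pf.C 1 0x3070604009) (Pf.B 10 7 (Pf.C 0 0xe2c48a) (Pf.B 10 8 (Pf.B 10 3 (Pf.C 1 0x4010024503) (Pf.C 0 0x121c503)) (Pf.C 0 0x121c508))))) (Pf.C 1 0x3081208003)) (Pf.C 1 0x308060800b)) (Pf.C 1 0x48b0608006)) (Pf.C 0 0x101c30b)))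 (Pf.B 11 7 (Pf.B 11 6 (Pf.B 11 3 (Pf.B 9 8 (Pf.B 8 3 (Pf.C 1 0x48b1008003) (Pf.C 1 0x3080608009)) (Pf.C 0 0x22c409)) (Pf.C 1 0x48b0608006)) (Pf.C 0 0xe2030b)) (Pf.C 0 0x220587))))
 (Pq.cons (Pq.L [0,1,2] 4095 (Pf.B 11 8 (Pf.B 11 6 (Pf.B 11 3 (Pf.B 10 6 (Pf.B 10 3 (Pf.B 8 3 (Pf.C 1 0x186100800b) (Pf.B 9 8 (Pf.C 0 0x1018189) (Pf.B 10 8 (Pf.B 8 5 (Pf.B 11 5 (Pf.C 1 0x4030a0800b) (Pf.B 10 5 (Pf.C 1 0x4030a0800a) (Pf.C 0 0x22c28a))) (Pf.C 0 0x614401)) (Pf.C 0 0x62440a)))) (Pf.C 0 0xc2418a)) (Pf.C 0 0x1624506)) (Pf.C 0 0xc2418b)) (Pf.B 11 3 (Pf.C 0 0x62430b) (Pf.B 11 5 (Pf.B 10 6 (Pf.C 0 0xc2c48a) (Pf.B 10 8 (Pf.B 10 3 (Pf.C 0 0x62430a) (Pf.B 10 5 (Pf.B 10 4 (Pf.B 9 8 (Pf.B 9 5 (Pf.B 9 4 (Pf.B 8 4 (Pf.C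 1 0x11028484) (Pf.B 8 5 (Pf.C 1 0x2841028480) (Pf.C 0 0x814401))) (Pf.C 0 0xa0c209)) (Pf.C 0 0x140c485)) (Pf.C 0 0x1418488)) (Pf.C 0 0xa0c20a)) (Pf.C 0 0x160c505))) (Pf.C 0 0x1618508))) (Pf.C 0 0x614581)))) (Pf.B 11 7 (Pf.B 11 6 (Pf.B 10 8 (Pf.B 10 6 (Pf.B 10 3 (Pf.B 9 8 (Pf.B 8 3 (Pf.C 1 0x5090608008) (Pf.C 0 0x1218188)) (Pf.C 0 0x22c409)) (Pf.C 0 0xc2418a)) (Pf.C 0 0x1624506)) (Pf.C 0 0x22c40a)) (Pf.C 0 0xe2030b)) (Pf.C 0 0x220587))))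
 (Pq.cons (Pq.L [0,1,2] 4032 (Pf.B 11 6 (Pf.B 10 6 (Pf.C 1 0x5800224506) (Pf.C 1 0x48a0c0808b)) (Pf.B 11 3 (Pf.B 10 3 (Pf.C 1 0x5800224503) (Pf.C 1 0x48a060808b)) (Pf.C 1 0x30b0608089))))
 (Pq.cons (Pq.L [0,1,2] 4095 (Pf.B 11 8 (Pf.B 11 7 (Pf.B 11 6 (Pf.B 10 6 (Pf.C 1 0x309140808b) (Pf.B 10 8 (Pf.B 10 7 (Pf.C 1 0x3861408088) (Pf.B 10 3 (Pf.C 0 0x62430a) (Pf.B 9 7 (Pf.C 0 0xe28309) (Pf.B 7 3 (Pf.C 0 0x624307) (Pf.B 11 5 (Pf.B 11 4 (Pf.B 11 3 (Pf.B 10 5 (Pf.B 10 4 (Pf.C 1 0x2031408085) (Pf.B 9 4 (Pf.C 0 0x828189) (Pf.B 7 4 (Pf.C 0 0x824187) (Pf.B 6 4 (Pf.C 0 0x81c186) (Pf.C 2 0x5090e0c206))))) (Pf.C 1 0x18a0a0808b)) (Pf.C 1 0x2031608085)) (Pf.B 11 3 (Pf.C 1 0x1841608085) (Pf.B 10 5 (Pf.C 1 0x5831408085)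 (Pf.B 9 5 (Pf.C 1 0x5831208085) (Pf.C 0 0x628485))))) (Pf.B 8 5 (Pf.B 10 5 (Pf.B 10 4 (Pf.C 1 0x2031408085) (Pf.B 9 4 (Pf.C 0 0x828189) (Pf.B 7 4 (Pf.C 0 0x824187) (Pf.B 6 4 (Pf.C 0 0x81c186) (Pf.C 2 0x5090e0c206))))) (Pf.C 1 0x5851408088)) (Pf.C 0 0x1600288))))))) (Pf.C 1 0x30a100808b))) (Pf.C 1 0x3861608088)) (Pf.B 11 6 (Pf.C 1 0x3071608088) (Pf.B 11 3 (Pf.B 10 3 (Pf.C 1 0x189140808b) (Pf.B 10 6 (Pf.C 0 0xc2418a) (Pf.B 10 8 (Pf.C 1 0x5861408088) (Pf.B 9 8 (Pf.C 1 0x5861208088) (Pf.C 0 0xc28488))))) (Pf.C 0 0x121818b)))) (Pf.B 11 7 (Pf.B 11 6 (Pf.B 10 6 (Pf.C 1 0x309140808b) (Pf.B 10 7 (Pf.C 1 0x386140808b) (Pf.B 10 3 (Pf.C 0 0x62430a) (Pf.B 9 7 (Pf.C 0 0xe28309) (Pf.B 7 3 (Pf.C 0 0x624307) (Pf.B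 11 5 (Pf.B 11 4 (Pf.B 11 3 (Pf.B 10 5 (Pf.B 10 4 (Pf.C 1 0x2031408085) (Pf.B 9 4 (Pf.C 0 0x828189) (Pf.B 7 4 (Pf.C 0 0x824187) (Pf.B 6 4 (Pf.C 0 0x81c186) (Pf.C 2 0x5090e0c206))))) (Pf.C 1 0x18a0a0808b)) (Pf.C 1 0x2031608085)) (Pf.B 11 3 (Pf.C 1 0x1841608085) (Pf.B 10 5 (Pf.C 1 0x5831408085) (Pf.B 9 5 (Pf.C 1 0x5831208085) (Pf.C 0 0x628485))))) (Pf.B 11 4 (Pf.B 10 5 (Pf.B 10 4 (Pf.C 1 0x2031408085) (Pf.B 9 4 (Pf.C 0 0x828189) (Pf.B 7 4 (Pf.C 0 0x824187) (Pf.B 6 4 (Pf.C 0 0x81c186) (Pf.C 2 0x5090e0c206))))) (Pf.B 10 4 (Pf.C 1 0x5851408084) (Pf.B 9 4 (Pf.C 0 0x828189) (Pf.B 7 4 (Pf.C 0 0x824187) (Pf.B 6 4 (Pf.C 0 0x81c186) (Pf.C 2 0x5090e0c206)))))) (Pf.B 8 4 (Pf.B 7 4 (Pf.C 1 0x40b0808087) (Pf.B 10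 4 (Pf.C 0 0x81c18a) (Pf.B 9 4 (Pf.C 0 0x81c189) (Pf.B 6 4 (Pf.C 0 0x81c186) (Pf.C 2 0x5090e0c206))))) (Pf.C 0 0x2c404))))))))) (Pf.B 11 3 (Pf.B 10 3 (Pf.C 1 0x189140808b) (Pf.B 10 6 (Pf.C 0 0xc2418a) (Pf.B 11 5 (Pf.B 10 5 (Pf.B 10 4 (Pf.C 1 0x2031408085) (Pf.B 9 5 (Pf.B 9 4 (Pf.C 0 0x828189) (Pf.B 8 5 (Pf.B 9 8 (Pf.B 8 4 (Pf.B 8 3 (Pf.B 6 5 (Pf.C 1 0x40b0c08085) (Pf.C 1 0x1860a08088)) (Pf.C 1 0x2031008085)) (Pf.C 1 0x4841008085)) (Pf.C 1 0x5881208085)) (Pf.C 0 0x1600405))) (Pf.C 1 0x1890a0808b))) (Pf.C 1 0x18a0a0808b)) (Pf.B 6 5 (Pf.B 6 4 (Pf.C 1 0x2030c08085) (Pf.B 10 4 (Pf.C 0 0x81818a) (Pf.B 9 4 (Pf.C 0 0x818189) (Pf.B 10 8 (Pf.B 10 7 (Pf.C 1 0x3861408088) (Pf.B 9 7 (Pf.C 0 0xe28309) (Pf.B 7 4 (Pf.C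 0 0x824307) (Pf.B 7 3 (Pf.C 0 0x618207) (Pf.C 2 0x5090c10187))))) (Pf.B 10 7 (Pf.C 1 0x5881408087) (Pf.B 9 7 (Pf.C 0 0xe28309) (Pf.B 7 4 (Pf.C 0 0x824307) (Pf.B 7 3 (Pf.C 0 0x618207) (Pf.C 2 0x5090c10187))))))))) (Pf.C 0 0x2c286))))) (Pf.C 0 0x121818b))) (Pf.B 11 6 (Pf.B 10 6 (Pf.C 1 0x309140808b) (Pf.B 10 3 (Pf.C 0 0x62430a) (Pf.B 11 5 (Pf.B 8 5 (Pf.B 7 5 (Pf.C 1 0x40b0e08085) (Pf.B 6 5 (Pf.C 1 0x2870c08088) (Pf.B 11 3 (Pf.C 1 0x286060808b) (Pf.B 10 5 (Pf.C 1 0x5831408085) (Pf.C 0 0x618505))))) (Pf.C 0 0x1600405)) (Pf.B 7 5 (Pf.B 11 4 (Pf.B 7 4 (Pf.C 1 0x28b0e08084) (Pf.B 7 3 (Pf.C 1 0x1840e08085) (Pf.B 10 7 (Pf.C 0 0xe1818a) (Pf.B 10 4 (Pf.C 0 0x81c18a) (Pf.B 9 7 (Pf.C 0 0xe18189) (Pf.B 9 4 (Pf.C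 0 0x81c189) (Pf.B 6 4 (Pf.C 0 0x81c186) (Pf.C 2 0x5090e0c206)))))))) (Pf.B 8 4 (Pf.B 6 4 (Pf.C 1 0x40b0808086) (Pf.B 7 4 (Pf.C 1 0x2060e08088) (Pf.C 0 0x1610386))) (Pf.C 0 0x2c404))) (Pf.C 0 0x2c287))))) (Pf.B 11 3 (Pf.B 10 3 (Pf.C 1 0x189140808b) (Pf.B 10 6 (Pf.C 0 0xc2418a) (Pf.B 10 7 (Pf.B 10 8 (Pf.C 1 0x38b100808a) (Pf.B 9 8 (Pf.B 9 7 (Pf.C 1 0x40b0e08089) (Pf.C 0 0x1618389)) (Pf.C 0 0xc28488))) (Pf.C 0 0x161838a)))) (Pf.C 0 0x121818b))))))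
 (Pq.cons (Pq.L [0,1,2] 4088 (Pf.B 11 8 (Pf.B 11 7 (Pf.B 11 6 (Pf.B 11 3 (Pf.B 7 3 (Pf.C 1 0x5800218383) (Pf.C 1 0x307060808b)) (Pf.C 1 0x48b0608086)) (Pf.B 11 3 (Pf.C 1 0x48b0c08083) (Pf.B 10 6 (Pf.B 10 3 (Pf.B 10 8 (Pf.B 8 3 (Pf.C 1 0x50b0608088) (Pf.C 1 0x308060808a)) (Pf.B 9 8 (Pf.B 8 3 (Pf.C 1 0x48b0608088) (Pf.C 1 0x3080608089)) (Pf.C 0 0x1628488))) (Pf.C 0 0x122c503)) (Pf.C 0 0x122c506)))) (Pf.B 11 6 (Pf.B 11 3 (Pf.B 8 3 (Pf.B 9 8 (Pf.B 7 3 (Pf.C 1 0x5870c08083) (Pf.B 9 7 (Pf.C 1 0x3070604009) (Pf.B 10 7 (Pf.C 0 0xe2c48a) (Pf.B 10 8 (Pf.B 10 6 (Pf.B 10 3 (Pf.C 1 0x3080024503) (Pf.C 0 0x121c503)) (Pf.C 0 0x101c30a)) (Pf.C 0 0x121c508))))) (Pf.C 1 0x3081208083)) (Pf.C 1 0x308060808b)) (Pf.C 1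 0x48b0608086)) (Pf.C 0 0x101c30b))) (Pf.B 11 7 (Pf.B 11 6 (Pf.B 11 3 (Pf.B 9 8 (Pf.B 8 3 (Pf.C 1 0x48b1008083) (Pf.C 1 0x3080608089)) (Pf.C 0 0x2c409)) (Pf.C 1 0x48b0608086)) (Pf.C 0 0xe2030b)) (Pf.C 0 0x20587))))
 (Pq.cons (Pq.L [0,1,2] 4095 (Pf.B 11 8 (Pf.B 11 6 (Pf.B 11 3 (Pf.B 10 6 (Pf.B 10 3 (Pf.B 8 3 (Pf.C 1 0x186100808b) (Pf.B 9 8 (Pf.C 0 0x1018189) (Pf.B 10 8 (Pf.B 8 5 (Pf.B 11 5 (Pf.C 1 0x4030a0808b) (Pf.B 10 5 (Pf.C 1 0x4030a0808a) (Pf.C 0 0x2c28a))) (Pf.C 0 0x614400)) (Pf.C 0 0x62440a)))) (Pf.C 0 0xc2418a)) (Pf.C 0 0x1624506)) (Pf.C 0 0xc2418b)) (Pf.B 11 3 (Pf.C 0 0x62430b) (Pf.B 11 5 (Pf.B 10 6 (Pf.C 0 0xc2c48a) (Pf.B 10 8 (Pf.B 10 3 (Pf.C 0 0x62430a) (Pf.B 10 5 (Pf.B 10 4 (Pf.B 9 8 (Pf.B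 9 5 (Pf.B 9 4 (Pf.B 8 4 (Pf.C 1 0x801028484) (Pf.B 8 5 (Pf.C 1 0x2841028481) (Pf.C 0 0x814400))) (Pf.C 0 0xa0c209)) (Pf.C 0 0x140c485)) (Pf.C 0 0x1418488)) (Pf.C 0 0xa0c20a)) (Pf.C 0 0x160c505))) (Pf.C 0 0x1618508))) (Pf.C 0 0x614580)))) (Pf.B 11 7 (Pf.B 11 6 (Pf.B 10 8 (Pf.B 10 6 (Pf.B 10 3 (Pf.B 9 8 (Pf.B 8 3 (Pf.C 1 0x5090608088) (Pf.C 0 0x1218188)) (Pf.C 0 0x2c409)) (Pf.C 0 0xc2418a)) (Pf.C 0 0x1624506)) (Pf.C 0 0x2c40a)) (Pf.C 0 0xe2030b)) (Pf.C 0 0x20587))))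
 (Pq.cons (Pq.L [0,1,2] 319 (Pf.B 11 8 (Pf.B 11 7 (Pf.B 11 6 (Pf.C 1 0x4070c0400b) (Pf.B 10 8 (Pf.B 10 7 (Pf.B 10 6 (Pf.C 1 0x4070c0400a) (Pf.C 0 0x42c506)) (Pf.C 0 0x100838a)) (Pf.C 0 0x1608508))) (Pf.C 0 0x100838b)) (Pf.B 10 8 (Pf.C 0 0x102c10a) (Pf.B 11 5 (Pf.B 11 4 (Pf.B 11 3 (Pf.C 1 0x284060400b) (Pf.B 10 5 (Pf.B 10 4 (Pf.B 10 3 (Pf.C 1 0x284060400a) (Pf.C 0 0x42c503)) (Pf.C 0 0xa0820a)) (Pf.C 0 0x1608505))) (Pf.C 0 0xa0820b)) (Pf.B 11 4 (Pf.C 0 0x81410b) (Pf.B 10 5 (Pf.C 0 0xa2c10a) (Pf.B 10 4 (Pf.C 0 0x81410a) (Pf.B 8 5 (Pf.C 0 0xa28108) (Pf.B 8 4 (Pf.C 0 0x814108) (Pf.C 2 0x58a0a08208))))))))))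
 (Pq.cons (Pq.L [0,1,2] 319 (Pf.B 11 8 (Pf.B 11 7 (Pf.B 11 6 (Pf.C 1 0x4070c0800b) (Pf.B 10 8 (Pf.B 10 7 (Pf.B 10 6 (Pf.C 1 0x4070c0800a) (Pf.C 0 0x22c506)) (Pf.C 0 0x100438a)) (Pf.C 0 0x1604508))) (Pf.C 0 0x100438b)) (Pf.B 10 8 (Pf.C 0 0x102c08a) (Pf.B 11 5 (Pf.B 11 4 (Pf.B 11 3 (Pf.C 1 0x284060800b) (Pf.B 10 5 (Pf.B 10 4 (Pf.B 10 3 (Pf.C 1 0x284060800a) (Pf.C 0 0x22c503)) (Pf.C 0 0xa0420a)) (Pf.C 0 0x1604505))) (Pf.C 0 0xa0420b)) (Pf.B 11 4 (Pf.C 0 0x81408b) (Pf.B 10 5 (Pf.C 0 0xa2c08a) (Pf.B 10 4 (Pf.C 0 0x81408a) (Pf.B 8 5 (Pf.C 0 0xa28088) (Pf.B 8 4 (Pf.C 0 0x814088) (Pf.C 2 0x58a0a04208))))))))))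
 (Pq.cons (Pq.L [0,1,2] 319 (Pf.B 11 8 (Pf.B 11 7 (Pf.B 11 6 (Pf.C 1 0x4070c0808b) (Pf.B 10 8 (Pf.B 10 7 (Pf.B 10 6 (Pf.C 1 0x4070c0808a) (Pf.C 0 0x2c506)) (Pf.C 0 0x100038a)) (Pf.C 0 0x1600508))) (Pf.C 0 0x100038b)) (Pf.B 10 8 (Pf.C 0 0x102c00a) (Pf.B 11 5 (Pf.B 11 4 (Pf.B 11 3 (Pf.C 1 0x284060808b) (Pf.B 10 5 (Pf.B 10 4 (Pf.B 10 3 (Pf.C 1 0x284060808a) (Pf.C 0 0x2c503)) (Pf.C 0 0xa0020a)) (Pf.C 0 0x1600505))) (Pf.C 0 0xa0020b)) (Pf.B 11 4 (Pf.C 0 0x81400b) (Pf.B 10 5 (Pf.C 0 0xa2c00a) (Pf.B 10 4 (Pf.C 0 0x81400a) (Pf.B 8 5 (Pf.C 0 0xa28008) (Pf.B 8 4 (Pf.C 0 0x814008) (Pf.C 2 0x58a0a00208))))))))))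
 (Pq.cons (Pq.L [0,1,2] 79 (Pf.B 7 3 (Pf.B 7 4 (Pf.B 7 5 (Pf.C 1 0x10a10187) (Pf.B 6 5 (Pf.B 6 4 (Pf.C 1 0x281000c206) (Pf.C 0 0x608206)) (Pf.C 0 0x41c305))) (Pf.C 0 0x608207)) (Pf.C 0 0xc08383)))
 (Pq.cons (Pq.L [2] 3657 (Pf.B 10 6 (Pf.C 0 0xc2410a) (Pf.B 10 7 (Pf.C 0 0xe1810a) (Pf.B 10 3 (Pf.C 0 0x61810a) (Pf.B 10 4 (Pf.C 0 0x80c10a) (Pf.B 9 7 (Pf.C 0 0xe18109) (Pf.B 9 4 (Pf.C 0 0x80c109) (Pf.B 7 4 (Pf.C 0 0x824107) (Pf.B 7 3 (Pf.C 0 0x610107) (Pf.C 2 0x5090808187))))))))))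
 (Pq.cons (Pq.L [0,1,2] 79 (Pf.B 7 3 (Pf.B 7 4 (Pf.B 7 5 (Pf.C 1 0x800a10187) (Pf.B 6 5 (Pf.B 6 4 (Pf.C 1 0x280020c206) (Pf.C 0 0x608206)) (Pf.C 0 0x41c305))) (Pf.C 0 0x608207)) (Pf.C 0 0xc08383)))
 (Pq.cons (Pq.L [2] 3657 (Pf.B 10 6 (Pf.C 0 0xc2410a) (Pf.B 10 7 (Pf.C 0 0xe1810a) (Pf.B 10 3 (Pf.C 0 0x61810a) (Pf.B 10 4 (Pf.C 0 0x80c10a) (Pf.B 9 7 (Pf.C 0 0xe18109) (Pf.B 9 4 (Pf.C 0 0x80c109) (Pf.B 7 4 (Pf.C 0 0x824107) (Pf.B 7 3 (Pf.C 0 0x610107) (Pf.C 2 0x5090808187))))))))))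
 (Pq.cons (Pq.L [0,1,2] 319 (Pf.B 11 8 (Pf.B 11 7 (Pf.B 11 6 (Pf.C 1 0x20c2038b) (Pf.B 10 8 (Pf.B 10 7 (Pf.B 10 6 (Pf.C 1 0x20c2038a) (Pf.C 0 0x22c506)) (Pf.C 0 0x100438a)) (Pf.C 0 0x1604508))) (Pf.C 0 0x100438b)) (Pf.B 10 8 (Pf.C 0 0x102c08a) (Pf.B 11 5 (Pf.B 11 4 (Pf.B 11 3 (Pf.C 1 0x2061420b) (Pf.B 10 5 (Pf.B 10 4 (Pf.B 10 3 (Pf.C 1 0x2061420a) (Pf.C 0 0x22c503)) (Pf.C 0 0xa0420a)) (Pf.C 0 0x1604505))) (Pf.C 0 0xa0420b)) (Pf.B 11 4 (Pf.C 0 0x81408b) (Pf.B 10 5 (Pf.C 0 0xa2c08a) (Pf.B 10 4 (Pf.C 0 0x81408a) (Pf.B 8 5 (Pf.C 0 0xa28088) (Pf.B 8 4 (Pf.C 0 0x814088) (Pf.C 2 0x58a0a04208))))))))))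
 (Pq.cons (Pq.L [0,1,2] 319 (Pf.B 11 8 (Pf.B 11 7 (Pf.B 11 6 (Pf.C 1 0x820c2038b) (Pf.B 10 8 (Pf.B 10 7 (Pf.B 10 6 (Pf.C 1 0x820c2038a) (Pf.C 0 0x2c506)) (Pf.C 0 0x100038a)) (Pf.C 0 0x1600508))) (Pf.C 0 0x100038b)) (Pf.B 10 8 (Pf.C 0 0x102c00a) (Pf.B 11 5 (Pf.B 11 4 (Pf.B 11 3 (Pf.C 1 0x82061420b) (Pf.B 10 5 (Pf.B 10 4 (Pf.B 10 3 (Pf.C 1 0x82061420a) (Pf.C 0 0x2c503)) (Pf.C 0 0xa0020a)) (Pf.C 0 0x1600505))) (Pf.C 0 0xa0020b)) (Pf.B 11 4 (Pf.C 0 0x81400b) (Pf.B 10 5 (Pf.C 0 0xa2c00a) (Pf.B 10 4 (Pf.C 0 0x81400a) (Pf.B 8 5 (Pf.C 0 0xa28008) (Pf.B 8 4 (Pf.C 0 0x814008) (Pf.C 2 0x58a0a00208))))))))))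
 (Pq.cons (Pq.L [0,1,2] 79 (Pf.B 7 3 (Pf.B 7 4 (Pf.B 7 5 (Pf.C 1 0x1000a10187) (Pf.B 6 5 (Pf.B 6 4 (Pf.C 1 0x280040c206) (Pf.C 0 0x604206)) (Pf.C 0 0x21c305))) (Pf.C 0 0x604207)) (Pf.C 0 0xc04383)))
 (Pq.cons (Pq.L [1] 3657 (Pf.B 10 6 (Pf.C 0 0xc2408a) (Pf.B 10 7 (Pf.C 0 0xe1808a) (Pf.B 10 3 (Pf.C 0 0x61808a) (Pf.B 10 4 (Pf.C 0 0x80c08a) (Pf.B 9 7 (Pf.C 0 0xe18089) (Pf.B 9 4 (Pf.C 0 0x80c089) (Pf.B 7 4 (Pf.C 0 0x824087) (Pf.B 7 3 (Pf.C 0 0x610087) (Pf.C 2 0x5090804187))))))))))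
 (Pq.cons (Pq.L [0,1,2] 319 (Pf.B 11 8 (Pf.B 11 7 (Pf.B 11 6 (Pf.C 1 0x1010c2038b) (Pf.B 10 8 (Pf.B 10 7 (Pf.B 10 6 (Pf.C 1 0x1010c2038a) (Pf.C 0 0x2c506)) (Pf.C 0 0x100038a)) (Pf.C 0 0x1600508))) (Pf.C 0 0x100038b)) (Pf.B 10 8 (Pf.C 0 0x102c00a) (Pf.B 11 5 (Pf.B 11 4 (Pf.B 11 3 (Pf.C 1 0x101061420b) (Pf.B 10 5 (Pf.B 10 4 (Pf.B 10 3 (Pf.C 1 0x101061420a) (Pf.C 0 0x2c503)) (Pf.C 0 0xa0020a)) (Pf.C 0 0x1600505))) (Pf.C 0 0xa0020b)) (Pf.B 11 4 (Pf.C 0 0x81400b) (Pf.B 10 5 (Pf.C 0 0xa2c00a) (Pf.B 10 4 (Pf.C 0 0x81400a) (Pf.B 8 5 (Pf.C 0 0xa28008) (Pf.B 8 4 (Pf.C 0 0x814008) (Pf.C 2 0x58a0a00208))))))))))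
 Pq.nil))))))))))))))))))))))))
theorem eK_o6 : AllRef eK_T eK_G6 (hitObl [5,6,7,8] eK_h8) :=
  chkPq_sound eK_o6c _ (by decide +kernel)
noncomputable def eK_o7c : Pq := (Pq.cons (Pq.L [0,1,2] 0xff1f99ff8 (Pf.B 14 10 (Pf.B 14 9 (Pf.B 14 6 (Pf.B 14 3 (Pf.B 14 7 (Pf.B 13 11 (Pf.B 11 6 (Pf.B 11 3 (Pf.B 11 7 (Pf.B 9 7 (Pf.B 13 8 (Pf.B 9 8 (Pf.B 10 8 (Pf.B 8 3 (Pf.C 20 0xe1a2458a0c20383) (Pf.C 1 0x5010e0c406)) (Pf.C 1 0x4820c20507)) (Pf.C 1 0x6810e20486)) (Pf.B 10 8 (Pf.B 9 8 (Pf.C 1 0x3021234407) (Pf.C 1 0x5010e20486)) (Pf.C 1 0x6881418107))) (Pf.C 1 0x700161c483)) (Pf.C 1 0x302061c58a)) (Pf.C 1 0x681140c586)) (Pf.C 1 0x6811418589)) (Pf.B 11 6 (Pf.C 1 0x4820c3458a) (Pf.B 11 3 (Pf.C 1 0x482063458a) (Pf.C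 1 0x30b0628089)))) (Pf.C 1 0x302061c70a)) (Pf.C 1 0x681140c706)) (Pf.C 1 0x6811418709)) (Pf.B 14 6 (Pf.C 1 0x6811424706) (Pf.C 1 0x48e0c3408c))) (Pf.B 14 9 (Pf.B 14 6 (Pf.C 1 0x4820c2870d) (Pf.B 14 3 (Pf.C 1 0x482062870d) (Pf.C 1 0x30e0634089))) (Pf.B 14 6 (Pf.B 14 7 (Pf.B 14 3 (Pf.C 1 0x3020628707) (Pf.C 1 0x6810e0c706)) (Pf.C 1 0x50e0e1810d)) (Pf.C 1 0x48e0c3408c)))))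
 (Pq.cons (Pq.L [0] 0x9ce1c0 (Pf.C 1 0x30a062c009))
 (Pq.cons (Pq.L [0,1,2] 0x3ffffffffff (Pf.B 14 10 (Pf.B 13 11 (Pf.B 14 7 (Pf.B 11 7 (Pf.C 1 0x7061604388) (Pf.B 14 4 (Pf.B 11 4 (Pf.C 1 0x7031604205) (Pf.B 8 4 (Pf.C 1 0x7031004205) (Pf.B 13 8 (Pf.B 13 5 (Pf.B 10 8 (Pf.C 1 0x6861400407) (Pf.B 10 5 (Pf.C 1 0x6831400284) (Pf.B 9 8 (Pf.C 1 0x8a103848b) (Pf.B 7 5 (Pf.C 1 0x40a0a2c382) (Pf.B 12 11 (Pf.B 12 10 (Pf.B 12 8 (Pf.B 12 7 (Pf.B 12 5 (Pf.C 1 0x5870a08608) (Pf.C 1 0x5831014601)) (Pf.C 1 0x686141c600)) (Pf.C 1 0x7061620601)) (Pf.C 1 0x7091a2860b)) (Pf.B 12 10 (Pf.C 1 0x7091a2c60a) (Pf.B 12 8 (Pf.C 1 0x709102c601) (Pf.C 0 0x62840c)))))))) (Pf.C 1 0x5841014682)) (Pf.B 10 8 (Pf.B 10 5 (Pf.B 13 5 (Pf.C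 1 0x5031a00284) (Pf.B 9 8 (Pf.B 12 8 (Pf.B 12 11 (Pf.B 12 10 (Pf.B 12 5 (Pf.C 1 0x40d0a0860a) (Pf.C 1 0x5831014601)) (Pf.C 1 0x5801028609)) (Pf.C 1 0x40d022c60e)) (Pf.C 1 0x48e0c20601)) (Pf.C 0 0x634409))) (Pf.C 1 0x5841014502)) (Pf.C 0 0x1a0c40a))))) (Pf.B 13 8 (Pf.B 10 8 (Pf.C 1 0x6861400407) (Pf.B 13 5 (Pf.B 10 5 (Pf.C 1 0x6831400284) (Pf.B 11 4 (Pf.B 9 4 (Pf.B 12 4 (Pf.B 12 11 (Pf.B 12 10 (Pf.B 12 8 (Pf.B 12 5 (Pf.C 1 0x40a0a0860b) (Pf.C 1 0x5831014601)) (Pf.C 1 0x7061620601)) (Pf.C 1 0x48e082860b)) (Pf.C 1 0xb1834484)) (Pf.C 1 0x48d0610600)) (Pf.C 1 0x689082c00a)) (Pf.C 1 0x7041628282))) (Pf.B 11 4 (Pf.B 8 4 (Pf.C 1 0x5831004205) (Pf.C 1 0x7041034282)) (Pf.C 1 0x7041634282)))) (Pf.B 9 8 (Pf.B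 12 8 (Pf.B 12 11 (Pf.B 12 5 (Pf.B 13 5 (Pf.B 9 5 (Pf.C 1 0x5800a3448c) (Pf.C 1 0x5831014481)) (Pf.C 1 0x40d0a3010b)) (Pf.C 1 0x5831014601)) (Pf.C 1 0x40d022c60e)) (Pf.C 1 0x48e0c20601)) (Pf.C 0 0x634409))))) (Pf.B 11 7 (Pf.B 9 7 (Pf.B 12 7 (Pf.B 12 11 (Pf.B 12 10 (Pf.B 12 4 (Pf.B 14 4 (Pf.B 9 4 (Pf.C 1 0x501083848c) (Pf.C 1 0x5030e10480)) (Pf.C 1 0x38e083010a)) (Pf.C 1 0x5030e10600)) (Pf.C 1 0x48e0e2860b)) (Pf.C 1 0xb1834487)) (Pf.C 1 0x48d0c1c600)) (Pf.C 0 0x638389)) (Pf.C 0 0x1c0c38b))) (Pf.C 0 0xc2c683)) (Pf.C 0 0xc28703)))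
 (Pq.cons (Pq.L [0] 37632 (Pf.B 10 8 (Pf.C 19 0x2c40a) (Pf.B 10 5 (Pf.C 19 0x2c28a) (Pf.C 0 0x2028a))))
 (Pq.cons (Pq.L [1] 11008 (Pf.B 11 7 (Pf.C 18 0x2c507) (Pf.B 11 4 (Pf.C 18 0x2c504) (Pf.C 0 0x21c20b))))
 (Pq.cons (Pq.L [2] 3712 (Pf.B 11 6 (Pf.C 15 0x2c486) (Pf.B 11 3 (Pf.C 15 0x2c483) (Pf.C 0 0x41818b))))
 Pq.nil))))))
theorem eK_o7 : AllRef eK_T eK_G8 (hitObl [12,13,14] eK_h10) :=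
  chkPq_sound eK_o7c _ (by decide +kernel)
noncomputable def eK_o8c : Pq := (Pq.cons (Pq.L [0,1,2] 255 (Pf.B 10 8 (Pf.B 9 8 (Pf.B 6 4 (Pf.B 5 4 (Pf.B 10 6 (Pf.B 10 5 (Pf.B 10 4 (Pf.C 21 0x28284) (Pf.B 10 3 (Pf.B 8 5 (Pf.C 21 0x28288) (Pf.B 8 3 (Pf.B 8 6 (Pf.B 9 6 (Pf.C 21 99464) (Pf.B 7 6 (Pf.C 15 99335) (Pf.C 0 0x1424386))) (Pf.C 0 0x614308)) (Pf.C 15 0x28188))) (Pf.C 0 0x41018a))) (Pf.B 10 3 (Pf.B 9 5 (Pf.B 8 3 (Pf.B 7 5 (Pf.B 8 5 (Pf.C 14 82824) (Pf.B 8 6 (Pf.B 9 6 (Pf.C 21 99464) (Pf.B 7 6 (Pf.C 15 99335) (Pf.C 0 0x1424386))) (Pf.C 0 0x614308))) (Pf.C 0 0x1228385)) (Pf.C 15 0x28188)) (Pf.C 0 0x1414481)) (Pf.C 0 0xc1418a))) (Pf.B 10 5 (Pf.B 9 6 (Pf.B 9 4 (Pf.C 21 99460) (Pf.B 9 3 (Pf.B 8 6 (Pf.C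 17 0x28308) (Pf.B 8 5 (Pf.C 21 0x28288) (Pf.B 8 3 (Pf.C 0 0x618288) (Pf.C 14 0x24188)))) (Pf.C 0 0x410189))) (Pf.C 0 0x28309)) (Pf.C 0 99589))) (Pf.C 0 0x40c205)) (Pf.C 0 0x40c206)) (Pf.C 0 0x41c409)) (Pf.C 0 0x41c40a)))
 Pq.nil)
theorem eK_o8 : AllRef eK_T eK_G10 (hitObl [15,16,17] eK_h11) :=
  chkPq_sound eK_o8c _ (by decide +kernel)
noncomputable def eK_o9c : Pq := (Pq.cons (Pq.L [0,1] 255 (Pf.B 10 8 (Pf.B 9 8 (Pf.B 9 5 (Pf.B 6 4 (Pf.B 5 4 (Pf.B 10 6 (Pf.B 10 5 (Pf.B 10 4 (Pf.C 21 0x28205) (Pf.B 10 3 (Pf.B 8 5 (Pf.C 21 0x28405) (Pf.B 8 3 (Pf.B 8 6 (Pf.B 9 6 (Pf.C 21 99337) (Pf.B 7 6 (Pf.C 18 99335) (Pf.C 0 0x1424386))) (Pf.C 0 0x614308)) (Pf.C 18 0x28188))) (Pf.C 0 0x21018a))) (Pf.B 10 3 (Pf.B 8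 3 (Pf.B 7 5 (Pf.B 8 5 (Pf.C 16 0x1c405) (Pf.B 8 6 (Pf.B 9 6 (Pf.C 21 99337) (Pf.B 7 6 (Pf.C 18 99335) (Pf.C 0 0x1424386))) (Pf.C 0 0x614308))) (Pf.C 0 0x1228385)) (Pf.C 18 0x28188)) (Pf.C 0 0xc1418a))) (Pf.B 10 5 (Pf.B 9 6 (Pf.B 9 4 (Pf.C 21 98825) (Pf.B 9 3 (Pf.B 8 6 (Pf.C 19 0x28308) (Pf.B 8 5 (Pf.C 21 0x28405) (Pf.B 8 3 (Pf.C 0 0x618288) (Pf.C 16 50185)))) (Pf.C 0 0x210189))) (Pf.C 0 0x28309)) (Pf.C 0 99589))) (Pf.C 0 0x20c205)) (Pf.C 0 0x20c206)) (Pf.C 22 0x141c289)) (Pf.C 0 0x21c409)) (Pf.C 0 0x21c40a)))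
 Pq.nil)
theorem eK_o9 : AllRef eK_T eK_G11 (hitObl [18,19,20] eK_h12) :=
  chkPq_sound eK_o9c _ (by decide +kernel)
noncomputable def eK_o10c : Pq := (Pq.cons (Pq.L [0] 255 (Pf.B 10 8 (Pf.B 10 6 (Pf.B 9 8 (Pf.B 9 5 (Pf.B 5 4 (Pf.B 10 5 (Pf.B 10 4 (Pf.C 21 66821) (Pf.B 10 3 (Pf.B 8 5 (Pf.C 21 0x20505) (Pf.B 8 3 (Pf.B 8 6 (Pf.B 9 6 (Pf.C 21 0x20309) (Pf.B 7 6 (Pf.C 19 0x20386) (Pf.C 0 0x1424386))) (Pf.C 0 0x614308)) (Pf.C 19 50186))) (Pf.C 0 65930))) (Pf.B 10 3 (Pf.B 8 3 (Pf.B 7 5 (Pf.B 8 5 (Pf.C 17 0x1c405) (Pf.B 8 6 (Pf.B 9 6 (Pf.C 21 0x20309) (Pf.B 7 6 (Pf.C 19 0x20386) (Pf.C 0 0x1424386))) (Pf.C 0 0x614308))) (Pf.C 0 0x1228385)) (Pf.C 19 50186)) (Pf.C 0 0xc1418a))) (Pf.C 0 49669)) (Pf.C 22 0xe28289))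 (Pf.C 0 0x1c409)) (Pf.C 23 0xe2430a)) (Pf.C 0 0x1c40a)))
 Pq.nil)
theorem eK_o10 : AllRef eK_T eK_G12 (hitObl [21,22,23] eK_h13) :=
  chkPq_sound eK_o10c _ (by decide +kernel)
noncomputable def eK_o11c : Pq := (Pq.cons (Pq.L [0,1,2] 0 (Pf.B 7 6 (Pf.B 7 4 (Pf.B 7 3 (Pf.B 6 4 (Pf.B 4 3 (Pf.B 8 7 (Pf.B 8 6 (Pf.B 8 5 (Pf.B 8 4 (Pf.B 8 3 (Pf.B 6 3 (Pf.W 25 3 [] [0,1,7,8] (Pf.cons (Pf.B 9 8 (Pf.C 5 0x20189) (Pf.B 9 7 (Pf.C 1 0x4090604007) (Pf.C 26 1159))) Pf.nil)) (Pf.C 5 0x20186)) (Pf.B 6 3 (Pf.B 7 5 (Pf.B 5 3 (Pf.W 25 3 [] [0,1,7,8] (Pf.cons (Pf.B 9 8 (Pf.B 9 7 (Pf.C 1 0x4031204007) (Pf.C 26 1159)) (Pf.C 6 0x20189)) Pf.nil)) (Pf.C 1 0x4030a04007)) (Pf.B 6 5 (Pf.B 5 4 (Pf.B 5 3 (Pf.W 25 3 [] [0,1,7,8] (Pf.cons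 (Pf.B 9 8 (Pf.B 9 7 (Pf.C 1 0x4031204007) (Pf.C 26 1159)) (Pf.C 6 0x20189)) Pf.nil)) (Pf.C 1 0x4030a04004)) (Pf.C 1 0x3850804006)) (Pf.C 1 0x3850c04008))) (Pf.C 1 0x4030c04004))) (Pf.B 8 3 (Pf.B 6 3 (Pf.W 25 3 [] [0,1,7,8] (Pf.cons (Pf.B 9 8 (Pf.C 5 0x20189) (Pf.B 9 7 (Pf.C 1 0x4090604007) (Pf.C 26 1159))) Pf.nil)) (Pf.C 5 0x20186)) (Pf.C 1 0x2080604007))) (Pf.B 8 3 (Pf.B 6 3 (Pf.B 5 3 (Pf.W 25 3 [] [0,1,7,8] (Pf.cons (Pf.B 9 8 (Pf.C 5 0x20189) (Pf.B 9 7 (Pf.C 1 0x4090604007) (Pf.C 26 1159))) Pf.nil)) (Pf.C 11 0x20283)) (Pf.C 5 0x20186)) (Pf.B 5 3 (Pf.C 11 82947) (Pf.C 0 0x420283)))) (Pf.B 8 4 (Pf.B 8 3 (Pf.B 6 3 (Pf.W 25 3 [] [0,1,7,8] (Pf.cons (Pf.B 9 8 (Pf.C 5 0x20189) (Pf.B 9 7 (Pf.C 1 0x4090604007)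 (Pf.C 26 1159))) Pf.nil)) (Pf.C 1 0x4060604004)) (Pf.B 6 3 (Pf.C 1 0x1880c04004) (Pf.C 6 0x20186))) (Pf.C 1 0x3080804007))) (Pf.B 8 6 (Pf.B 8 4 (Pf.B 8 3 (Pf.B 6 3 (Pf.W 25 3 [] [0,1,6,7,8] (Pf.cons (Pf.B 9 8 (Pf.C 5 0x20189) (Pf.B 9 7 (Pf.B 9 6 (Pf.C 1 0x3881204006) (Pf.C 1 0x1890c04007)) (Pf.C 26 1159))) Pf.nil)) (Pf.C 5 0x20186)) (Pf.C 1 0x3880604004)) (Pf.C 1 0x3880804006)) (Pf.B 8 4 (Pf.C 1 0x3880c04004) (Pf.B 8 3 (Pf.C 1 0x3880804003) (Pf.B 6 3 (Pf.W 25 3 [] [0,1,6,7,8] (Pf.cons (Pf.B 9 8 (Pf.B 9 7 (Pf.B 9 6 (Pf.C 1 0x3880c04009) (Pf.C 1 0x1890c04007)) (Pf.C 26 1159)) (Pf.C 6 0x20189)) Pf.nil)) (Pf.C 6 0x20186)))))) (Pf.C 26 388)) (Pf.C 26 772)) (Pf.C 26 391)) (Pf.C 26 519)) (Pf.C 26 775)))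
 (Pq.cons (Pq.L [0,1,2] 0 (Pf.B 7 6 (Pf.B 7 4 (Pf.B 7 3 (Pf.B 6 4 (Pf.B 4 3 (Pf.B 8 7 (Pf.B 8 6 (Pf.B 8 5 (Pf.B 8 4 (Pf.B 8 3 (Pf.B 6 3 (Pf.W 25 3 [] [0,2,7,8] (Pf.cons (Pf.B 9 8 (Pf.C 7 0x20189) (Pf.B 9 7 (Pf.C 1 0x4090608007) (Pf.C 26 1159))) Pf.nil)) (Pf.C 7 0x20186)) (Pf.B 6 3 (Pf.B 7 5 (Pf.B 5 3 (Pf.W 25 3 [] [0,2,7,8] (Pf.cons (Pf.B 9 8 (Pf.B 9 7 (Pf.C 1 0x4031208007) (Pf.C 26 1159)) (Pf.C 8 0x20189)) Pf.nil)) (Pf.C 1 0x4030a08007)) (Pf.B 6 5 (Pf.B 5 4 (Pf.B 5 3 (Pf.W 25 3 [] [0,2,7,8] (Pf.cons (Pf.B 9 8 (Pf.B 9 7 (Pf.C 1 0x4031208007) (Pf.C 26 1159)) (Pf.C 8 0x20189)) Pf.nil)) (Pf.C 1 0x4030a08004)) (Pf.C 1 0x3850808006)) (Pf.C 1 0x3850c08008))) (Pf.C 1 0x4030c08004))) (Pf.B 8 3 (Pf.B 6 3 (Pf.W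 25 3 [] [0,2,7,8] (Pf.cons (Pf.B 9 8 (Pf.C 7 0x20189) (Pf.B 9 7 (Pf.C 1 0x4090608007) (Pf.C 26 1159))) Pf.nil)) (Pf.C 7 0x20186)) (Pf.C 1 0x2080608007))) (Pf.B 8 3 (Pf.B 6 3 (Pf.B 5 3 (Pf.W 25 3 [] [0,2,7,8] (Pf.cons (Pf.B 9 8 (Pf.C 7 0x20189) (Pf.B 9 7 (Pf.C 1 0x4090608007) (Pf.C 26 1159))) Pf.nil)) (Pf.C 12 0x20283)) (Pf.C 7 0x20186)) (Pf.B 5 3 (Pf.C 12 82947) (Pf.C 0 0x220283)))) (Pf.B 8 4 (Pf.B 8 3 (Pf.B 6 3 (Pf.W 25 3 [] [0,2,7,8] (Pf.cons (Pf.B 9 8 (Pf.C 7 0x20189) (Pf.B 9 7 (Pf.C 1 0x4090608007) (Pf.C 26 1159))) Pf.nil)) (Pf.C 1 0x4060608004)) (Pf.B 6 3 (Pf.C 1 0x1880c08004) (Pf.C 8 0x20186))) (Pf.C 1 0x3080808007))) (Pf.B 8 6 (Pf.B 8 4 (Pf.B 8 3 (Pf.B 6 3 (Pf.W 25 3 [] [0,1,2,6,7,8] (Pf.cons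 (Pf.B 9 8 (Pf.C 7 0x20189) (Pf.B 9 7 (Pf.B 9 6 (Pf.C 1 0x3881208006) (Pf.C 1 0x1890c04007)) (Pf.C 26 1159))) Pf.nil)) (Pf.C 7 0x20186)) (Pf.C 1 0x3880608004)) (Pf.C 1 0x3880808006)) (Pf.B 8 4 (Pf.C 1 0x3880c08004) (Pf.B 8 3 (Pf.C 1 0x3880808003) (Pf.B 6 3 (Pf.W 25 3 [] [0,1,2,6,7,8] (Pf.cons (Pf.B 9 8 (Pf.B 9 7 (Pf.B 9 6 (Pf.C 1 0x3880c08009) (Pf.C 1 0x1890c04007)) (Pf.C 26 1159)) (Pf.C 8 0x20189)) Pf.nil)) (Pf.C 8 0x20186)))))) (Pf.C 26 388)) (Pf.C 26 772)) (Pf.C 26 391)) (Pf.C 26 519)) (Pf.C 26 775)))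
 (Pq.cons (Pq.L [0,1,2] 0 (Pf.B 7 6 (Pf.B 7 4 (Pf.B 7 3 (Pf.B 6 4 (Pf.B 4 3 (Pf.B 8 7 (Pf.B 8 6 (Pf.B 8 5 (Pf.B 8 4 (Pf.B 8 3 (Pf.B 6 3 (Pf.W 25 3 [] [1,2,7,8] (Pf.cons (Pf.B 9 8 (Pf.C 9 0x20189) (Pf.B 9 7 (Pf.C 1 0x4090608087) (Pf.C 26 1159))) Pf.nil)) (Pf.C 9 0x20186)) (Pf.B 6 3 (Pf.B 7 5 (Pf.B 5 3 (Pf.W 25 3 [] [1,2,7,8] (Pf.cons (Pf.B 9 8 (Pf.B 9 7 (Pf.C 1 0x4031208087) (Pf.C 26 1159)) (Pf.C 10 0x20189)) Pf.nil)) (Pf.C 1 0x4030a08087)) (Pf.B 6 5 (Pf.B 5 4 (Pf.B 5 3 (Pf.W 25 3 [] [1,2,7,8] (Pf.cons (Pf.B 9 8 (Pf.B 9 7 (Pf.C 1 0x4031208087) (Pf.C 26 1159)) (Pf.C 10 0x20189)) Pf.nil)) (Pf.C 1 0x4030a08084)) (Pf.C 1 0x3850808086)) (Pf.C 1 0x3850c08088))) (Pf.C 1 0x4030c08084))) (Pf.B 8 3 (Pf.B 6 3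 (Pf.W 25 3 [] [1,2,7,8] (Pf.cons (Pf.B 9 8 (Pf.C 9 0x20189) (Pf.B 9 7 (Pf.C 1 0x4090608087) (Pf.C 26 1159))) Pf.nil)) (Pf.C 9 0x20186)) (Pf.C 1 0x2080608087))) (Pf.B 8 3 (Pf.B 6 3 (Pf.B 5 3 (Pf.W 25 3 [] [1,2,7,8] (Pf.cons (Pf.B 9 8 (Pf.C 9 0x20189) (Pf.B 9 7 (Pf.C 1 0x4090608087) (Pf.C 26 1159))) Pf.nil)) (Pf.C 13 0x20283)) (Pf.C 9 0x20186)) (Pf.B 5 3 (Pf.C 13 82947) (Pf.C 0 0x20283)))) (Pf.B 8 4 (Pf.B 8 3 (Pf.B 6 3 (Pf.W 25 3 [] [1,2,7,8] (Pf.cons (Pf.B 9 8 (Pf.C 9 0x20189) (Pf.B 9 7 (Pf.C 1 0x4090608087) (Pf.C 26 1159))) Pf.nil)) (Pf.C 1 0x4060608084)) (Pf.B 6 3 (Pf.C 1 0x1880c08084) (Pf.C 10 0x20186))) (Pf.C 1 0x3080808087))) (Pf.B 8 6 (Pf.B 8 4 (Pf.B 8 3 (Pf.B 6 3 (Pf.W 25 3 [] [0,1,2,6,7,8] (Pf.cons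 (Pf.B 9 8 (Pf.C 9 0x20189) (Pf.B 9 7 (Pf.B 9 6 (Pf.C 1 0x3881208086) (Pf.C 1 0x1890c04007)) (Pf.C 26 1159))) Pf.nil)) (Pf.C 9 0x20186)) (Pf.C 1 0x3880608084)) (Pf.C 1 0x3880808086)) (Pf.B 8 4 (Pf.C 1 0x3880c08084) (Pf.B 8 3 (Pf.C 1 0x3880808083) (Pf.B 6 3 (Pf.W 25 3 [] [0,1,2,6,7,8] (Pf.cons (Pf.B 9 8 (Pf.B 9 7 (Pf.B 9 6 (Pf.C 1 0x3880c08089) (Pf.C 1 0x1890c04007)) (Pf.C 26 1159)) (Pf.C 10 0x20189)) Pf.nil)) (Pf.C 10 0x20186)))))) (Pf.C 26 388)) (Pf.C 26 772)) (Pf.C 26 391)) (Pf.C 26 519)) (Pf.C 26 775)))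
 (Pq.cons (Pq.L [0,1,2] 63 (Pf.B 8 5 (Pf.B 8 4 (Pf.B 8 3 (Pf.B 6 3 (Pf.B 7 3 (Pf.W 25 3 [] [0,1,6,7,8] (Pf.cons (Pf.B 9 8 (Pf.C 5 0x20189) (Pf.B 9 7 (Pf.C 5 0x1c189) (Pf.B 9 6 (Pf.C 1 0x4090604006) (Pf.C 6 0x1c309)))) Pf.nil)) (Pf.C 1 0x3070604008)) (Pf.C 5 0x20186)) (Pf.C 1 0x2031004005)) (Pf.B 8 3 (Pf.C 11 0x20203) (Pf.C 0 0x410403))) (Pf.B 8 3 (Pf.B 7 5 (Pf.B 6 5 (Pf.B 6 3 (Pf.B 7 3 (Pf.W 25 3 [] [0,1,6,7,8] (Pf.cons (Pf.B 9 8 (Pf.C 5 0x20189) (Pf.B 9 7 (Pf.C 5 0x1c189) (Pf.B 9 6 (Pf.C 1 0x4090604006) (Pf.C 6 0x1c309)))) Pf.nil)) (Pf.C 1 0x3070620280)) (Pf.C 5 82310)) (Pf.C 11 0x20286)) (Pf.C 0 0x1008287)) (Pf.C 11 82947))))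
 (Pq.cons (Pq.L [0,1,2] 511 (Pf.B 11 8 (Pf.B 11 7 (Pf.B 11 6 (Pf.B 11 5 (Pf.B 11 4 (Pf.B 7 4 (Pf.B 6 4 (Pf.C 1 0x581001c304) (Pf.B 8 4 (Pf.B 6 3 (Pf.B 6 5 (Pf.B 11 3 (Pf.B 8 5 (Pf.B 8 3 (Pf.B 7 3 (Pf.C 1 0x5810010187) (Pf.B 7 5 (Pf.B 10 8 (Pf.B 10 4 (Pf.B 10 6 (Pf.C 1 0x406082c500) (Pf.B 9 6 (Pf.B 9 5 (Pf.B 9 8 (Pf.B 9 4 (Pf.C 1 0x4010028484) (Pf.B 9 3 (Pf.W 25 3 [] [0,2,8,9,11] (Pf.cons (Pf.B 12 11 (Pf.C 7 0x2c18c) (Pf.B 12 9 (Pf.B 12 8 (Pf.C 7 0x2018c) (Pf.C 1 0x18c1008009)) (Pf.C 8 0x2c48c))) Pf.nil)) (Pf.C 6 65929))) (Pf.C 1 0x3081208005)) (Pf.C 1 0x5890a08006)) (Pf.C 6 0x28309))) (Pf.C 14 0x2020a)) (Pf.B 10 7 (Pf.B 10 6 (Pf.B 10 5 (Pf.C 1 0x10a1c30a) (Pf.C 1 0x58a0a1c300)) (Pf.C 0 0xe2030a)) (Pf.C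 0 0x101c502))) (Pf.C 0 0x80c287))) (Pf.C 1 0x283100800b)) (Pf.C 12 82950)) (Pf.C 1 0x2831608006)) (Pf.C 0 0x610286)) (Pf.C 6 65926)) (Pf.C 0 0xe18404))) (Pf.C 14 0x2c207)) (Pf.B 11 3 (Pf.B 6 3 (Pf.B 8 3 (Pf.B 8 5 (Pf.B 7 3 (Pf.C 1 0x5810018383) (Pf.B 7 4 (Pf.B 7 5 (Pf.B 8 4 (Pf.C 1 0x5840a1c400) (Pf.B 6 5 (Pf.B 6 4 (Pf.C 1 0x5840a1c300) (Pf.C 0 0xe20304)) (Pf.C 1 0x1850c0800b))) (Pf.C 0 0x80c287)) (Pf.C 0 0x610382))) (Pf.C 12 0x20283)) (Pf.C 1 0x308060800b)) (Pf.C 7 0x2c186)) (Pf.C 0 0xa1018b))) (Pf.B 11 4 (Pf.B 11 3 (Pf.C 12 0x2c283) (Pf.C 0 0x81418b)) (Pf.C 0 0x214584))) (Pf.B 9 6 (Pf.B 10 6 (Pf.B 10 7 (Pf.B 11 5 (Pf.B 11 4 (Pf.B 7 4 (Pf.B 11 3 (Pf.B 7 3 (Pf.C 1 0x5810010187) (Pf.B 6 3 (Pf.B 10 3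 (Pf.C 1 0x307060400a) (Pf.B 9 3 (Pf.C 1 0x30b1208003) (Pf.C 6 0x28189))) (Pf.C 6 0x1c186))) (Pf.B 9 3 (Pf.B 10 3 (Pf.B 10 4 (Pf.B 7 3 (Pf.B 9 7 (Pf.B 9 4 (Pf.B 6 4 (Pf.B 6 3 (Pf.B 10 8 (Pf.B 8 4 (Pf.B 9 8 (Pf.C 1 0x2020018409) (Pf.B 8 3 (Pf.C 1 0x5020018403) (Pf.W 25 3 [] [0,2,8,9,10,11] (Pf.cons (Pf.B 12 11 (Pf.B 12 10 (Pf.C 5 0x2818c) (Pf.B 12 9 (Pf.B 12 8 (Pf.C 1 0x589100800c) (Pf.C 8 0x2018c)) (Pf.C 6 0x2848c))) (Pf.C 8 0x2c18c)) Pf.nil)))) (Pf.C 1 0x388082c500)) (Pf.B 9 8 (Pf.B 8 4 (Pf.C 1 0x2082c488) (Pf.C 1 0x388082c480)) (Pf.C 0 0x1628488))) (Pf.C 5 0x28186)) (Pf.C 1 0x3860828480)) (Pf.C 1 0x1841204007)) (Pf.C 1 0x5090e04003)) (Pf.C 1 0x2030e0400a)) (Pf.C 11 0x28203)) (Pf.C 0 0x122c503)) (Pf.C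 8 0x2c189))) (Pf.C 14 0x2c207)) (Pf.B 11 3 (Pf.B 10 4 (Pf.B 9 4 (Pf.B 10 8 (Pf.B 10 5 (Pf.B 8 5 (Pf.B 8 3 (Pf.B 10 3 (Pf.C 1 0x21414188) (Pf.B 9 3 (Pf.B 9 8 (Pf.B 9 5 (Pf.B 8 4 (Pf.C 1 0x11028484) (Pf.C 1 0x2841028480)) (Pf.C 1 0x1851208008)) (Pf.C 1 0x5891008003)) (Pf.C 6 0x28189))) (Pf.C 1 0x283100800b)) (Pf.C 16 82954)) (Pf.B 9 5 (Pf.B 6 5 (Pf.C 1 0x48b0c08005) (Pf.B 8 5 (Pf.B 9 8 (Pf.C 1 0x2861008009) (Pf.C 1 0x5891008005)) (Pf.C 0 0xc14401))) (Pf.C 0 0x1628485))) (Pf.B 9 8 (Pf.B 10 3 (Pf.B 6 3 (Pf.B 9 3 (Pf.C 1 0x30b1208003) (Pf.C 1 0x5090604006)) (Pf.C 5 0x28186)) (Pf.B 9 3 (Pf.B 6 3 (Pf.C 1 0x48a0604006) (Pf.B 8 3 (Pf.C 1 0x1861008009) (Pf.C 8 0x20303))) (Pf.C 6 0x28189))) (Pf.C 0 0x1628488)))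 (Pf.C 0 0x142c484)) (Pf.C 0 0x1610502)) (Pf.C 0 0xa1018b))) (Pf.B 11 4 (Pf.B 11 3 (Pf.C 12 0x2c283) (Pf.C 0 0x81418b)) (Pf.C 0 0x214584))) (Pf.C 11 0x28386)) (Pf.C 0 0x122c506)) (Pf.C 8 0x2c309))) (Pf.B 11 6 (Pf.B 10 7 (Pf.B 9 7 (Pf.B 11 5 (Pf.B 11 4 (Pf.B 11 3 (Pf.B 6 3 (Pf.B 8 3 (Pf.B 8 5 (Pf.B 6 4 (Pf.C 1 0x581000c206) (Pf.B 7 4 (Pf.B 8 4 (Pf.B 7 5 (Pf.C 1 0x5871010280) (Pf.B 7 3 (Pf.C 1 0x5871010180) (Pf.C 0 0x814187))) (Pf.C 0 0xe18404)) (Pf.C 0 0xc10382))) (Pf.C 12 0x20283)) (Pf.C 1 0x308060800b)) (Pf.C 7 0x2c186)) (Pf.B 9 3 (Pf.B 10 3 (Pf.B 10 6 (Pf.B 6 3 (Pf.B 9 6 (Pf.C 1 0x18b1208006) (Pf.C 1 0x5090c04003)) (Pf.C 5 0x28186)) (Pf.B 9 6 (Pf.B 6 3 (Pf.C 1 0x48b0608006) (Pf.B 8 3 (Pf.B 8 5 (Pf.C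 1 0x5830a08008) (Pf.C 12 0x20283)) (Pf.C 8 0x20303))) (Pf.C 6 0x28309))) (Pf.C 0 0x122c503)) (Pf.C 8 0x2c189))) (Pf.B 11 3 (Pf.B 10 4 (Pf.B 9 4 (Pf.B 7 4 (Pf.B 6 3 (Pf.B 8 3 (Pf.B 8 5 (Pf.B 6 5 (Pf.B 10 8 (Pf.B 10 6 (Pf.B 10 5 (Pf.C 1 0x21420305) (Pf.C 1 0x58a0a20300)) (Pf.B 9 6 (Pf.B 9 5 (Pf.B 9 8 (Pf.B 9 3 (Pf.B 10 3 (Pf.C 1 0x4010024503) (Pf.B 10 5 (Pf.B 8 4 (Pf.C 1 0x11028484) (Pf.C 1 0x2841028480)) (Pf.C 0 0x80c28a))) (Pf.C 7 0x20189)) (Pf.C 1 0x3081208005)) (Pf.C 1 0x5890a08006)) (Pf.C 6 0x28309))) (Pf.B 10 6 (Pf.B 9 8 (Pf.B 9 5 (Pf.B 9 6 (Pf.B 10 5 (Pf.C 1 0x10a24506) (Pf.B 10 3 (Pf.B 9 3 (Pf.B 7 5 (Pf.C 1 0x48a0a18380) (Pf.B 7 3 (Pf.W 25 3 [] [9,10,11] (Pf.cons (Pf.B 12 11 (Pf.C 7 0x2c18c)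 (Pf.B 12 10 (Pf.C 5 0x2818c) (Pf.B 12 9 (Pf.C 0 0x122c50c) (Pf.C 6 0x2848c)))) Pf.nil)) (Pf.C 0 0x814187))) (Pf.C 7 0x20189)) (Pf.C 0 0x81418a))) (Pf.C 7 82697)) (Pf.C 1 0x5890a08008)) (Pf.C 0 0x1628488)) (Pf.C 0 0xe2030a))) (Pf.C 1 0x1850c0800b)) (Pf.C 12 0x20283)) (Pf.C 1 0x308060800b)) (Pf.C 7 0x2c186)) (Pf.C 0 0x1610382)) (Pf.C 0 0x142c484)) (Pf.C 0 0x1610502)) (Pf.C 0 0xa1018b))) (Pf.B 11 4 (Pf.B 11 3 (Pf.C 12 0x2c283) (Pf.C 0 0x81418b)) (Pf.C 0 0x214584))) (Pf.C 0 0x142c487)) (Pf.C 0 0x161c502)) (Pf.C 0 0x101c30b))) (Pf.B 11 7 (Pf.B 11 6 (Pf.C 12 0x2c406) (Pf.C 0 0xe2030b)) (Pf.C 0 0x220587))))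
 (Pq.cons (Pq.L [0,1,2] 511 (Pf.B 11 8 (Pf.B 11 7 (Pf.B 11 6 (Pf.B 11 5 (Pf.B 11 4 (Pf.B 7 4 (Pf.B 6 4 (Pf.C 1 0x580021c304) (Pf.B 8 4 (Pf.B 6 3 (Pf.B 6 5 (Pf.B 11 3 (Pf.B 8 5 (Pf.B 8 3 (Pf.B 7 3 (Pf.C 1 0x5800210187) (Pf.B 7 5 (Pf.B 10 8 (Pf.B 10 4 (Pf.B 10 6 (Pf.C 1 0x406082c501) (Pf.B 9 6 (Pf.B 9 5 (Pf.B 9 8 (Pf.B 9 4 (Pf.C 1 0x4000228484) (Pf.B 9 3 (Pf.W 25 3 [] [1,2,8,9,11] (Pf.cons (Pf.B 12 11 (Pf.C 9 0x2c18c) (Pf.B 12 9 (Pf.B 12 8 (Pf.C 9 0x2018c) (Pf.C 1 0x18c1008089)) (Pf.C 10 0x2c48c))) Pf.nil)) (Pf.C 6 65929))) (Pf.C 1 0x3081208085)) (Pf.C 1 0x5890a08086)) (Pf.C 6 0x28309))) (Pf.C 15 0x2020a)) (Pf.B 10 7 (Pf.B 10 6 (Pf.B 10 5 (Pf.C 1 0x800a1c30a) (Pf.C 1 0x58a0a1c301)) (Pf.C 0 0xe2030a))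 (Pf.C 0 0x101c502))) (Pf.C 0 0x80c287))) (Pf.C 1 0x283100808b)) (Pf.C 13 82950)) (Pf.C 1 0x2831608086)) (Pf.C 0 0x610286)) (Pf.C 6 65926)) (Pf.C 0 0xe18404))) (Pf.C 15 0x2c207)) (Pf.B 11 3 (Pf.B 6 3 (Pf.B 8 3 (Pf.B 8 5 (Pf.B 7 3 (Pf.C 1 0x5800218383) (Pf.B 7 4 (Pf.B 7 5 (Pf.B 8 4 (Pf.C 1 0x5840a1c401) (Pf.B 6 5 (Pf.B 6 4 (Pf.C 1 0x5840a1c301) (Pf.C 0 0xe20304)) (Pf.C 1 0x1850c0808b))) (Pf.C 0 0x80c287)) (Pf.C 0 0x610382))) (Pf.C 13 0x20283)) (Pf.C 1 0x308060808b)) (Pf.C 9 0x2c186)) (Pf.C 0 0xa1018b))) (Pf.B 11 4 (Pf.B 11 3 (Pf.C 13 0x2c283) (Pf.C 0 0x81418b)) (Pf.C 0 83332))) (Pf.B 9 6 (Pf.B 10 6 (Pf.B 10 7 (Pf.B 11 5 (Pf.B 11 4 (Pf.B 7 4 (Pf.B 11 3 (Pf.B 7 3 (Pf.C 1 0x5800210187) (Pf.B 6 3 (Pf.B 10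 3 (Pf.C 1 0x307060400a) (Pf.B 9 3 (Pf.C 1 0x30b1208083) (Pf.C 6 0x28189))) (Pf.C 6 0x1c186))) (Pf.B 9 3 (Pf.B 10 3 (Pf.B 10 4 (Pf.B 7 3 (Pf.B 9 7 (Pf.B 9 4 (Pf.B 6 4 (Pf.B 6 3 (Pf.B 10 8 (Pf.B 8 4 (Pf.B 9 8 (Pf.C 1 0x2020218409) (Pf.B 8 3 (Pf.C 1 0x5020218403) (Pf.W 25 3 [] [1,2,8,9,10,11] (Pf.cons (Pf.B 12 11 (Pf.B 12 10 (Pf.C 5 0x2818c) (Pf.B 12 9 (Pf.B 12 8 (Pf.C 1 0x589100808c) (Pf.C 10 0x2018c)) (Pf.C 6 0x2848c))) (Pf.C 10 0x2c18c)) Pf.nil)))) (Pf.C 1 0x388082c501)) (Pf.B 9 8 (Pf.B 8 4 (Pf.C 1 0x82082c488) (Pf.C 1 0x388082c481)) (Pf.C 0 0x1628488))) (Pf.C 5 0x28186)) (Pf.C 1 0x3860828480)) (Pf.C 1 0x1841204007)) (Pf.C 1 0x5090e04003)) (Pf.C 1 0x2030e0400a)) (Pf.C 11 0x28203)) (Pf.C 0 0x122c503))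 (Pf.C 10 0x2c189))) (Pf.C 15 0x2c207)) (Pf.B 11 3 (Pf.B 10 4 (Pf.B 9 4 (Pf.B 10 8 (Pf.B 10 5 (Pf.B 8 5 (Pf.B 8 3 (Pf.B 10 3 (Pf.C 1 0x821414188) (Pf.B 9 3 (Pf.B 9 8 (Pf.B 9 5 (Pf.B 8 4 (Pf.C 1 0x801028484) (Pf.C 1 0x2841028481)) (Pf.C 1 0x1851208088)) (Pf.C 1 0x5891008083)) (Pf.C 6 0x28189))) (Pf.C 1 0x283100808b)) (Pf.C 17 82954)) (Pf.B 9 5 (Pf.B 6 5 (Pf.C 1 0x48b0c08085) (Pf.B 8 5 (Pf.B 9 8 (Pf.C 1 0x2861008089) (Pf.C 1 0x5891008085)) (Pf.C 0 0xc14400))) (Pf.C 0 0x1628485))) (Pf.B 9 8 (Pf.B 10 3 (Pf.B 6 3 (Pf.B 9 3 (Pf.C 1 0x30b1208083) (Pf.C 1 0x5090604006)) (Pf.C 5 0x28186)) (Pf.B 9 3 (Pf.B 6 3 (Pf.C 1 0x48a0604006) (Pf.B 8 3 (Pf.C 1 0x1861008089) (Pf.C 10 0x20303))) (Pf.C 6 0x28189))) (Pf.C 0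 0x1628488))) (Pf.C 0 0x142c484)) (Pf.C 0 0x1610502)) (Pf.C 0 0xa1018b))) (Pf.B 11 4 (Pf.B 11 3 (Pf.C 13 0x2c283) (Pf.C 0 0x81418b)) (Pf.C 0 83332))) (Pf.C 11 0x28386)) (Pf.C 0 0x122c506)) (Pf.C 10 0x2c309))) (Pf.B 11 6 (Pf.B 10 7 (Pf.B 9 7 (Pf.B 11 5 (Pf.B 11 4 (Pf.B 11 3 (Pf.B 6 3 (Pf.B 8 3 (Pf.B 8 5 (Pf.B 6 4 (Pf.C 1 0x580020c206) (Pf.B 7 4 (Pf.B 8 4 (Pf.B 7 5 (Pf.C 1 0x5871010281) (Pf.B 7 3 (Pf.C 1 0x5871010181) (Pf.C 0 0x814187))) (Pf.C 0 0xe18404)) (Pf.C 0 0xc10382))) (Pf.C 13 0x20283)) (Pf.C 1 0x308060808b)) (Pf.C 9 0x2c186)) (Pf.B 9 3 (Pf.B 10 3 (Pf.B 10 6 (Pf.B 6 3 (Pf.B 9 6 (Pf.C 1 0x18b1208086) (Pf.C 1 0x5090c04003)) (Pf.C 5 0x28186)) (Pf.B 9 6 (Pf.B 6 3 (Pf.C 1 0x48b0608086) (Pf.B 8 3 (Pf.B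 8 5 (Pf.C 1 0x5830a08088) (Pf.C 13 0x20283)) (Pf.C 10 0x20303))) (Pf.C 6 0x28309))) (Pf.C 0 0x122c503)) (Pf.C 10 0x2c189))) (Pf.B 11 3 (Pf.B 10 4 (Pf.B 9 4 (Pf.B 7 4 (Pf.B 6 3 (Pf.B 8 3 (Pf.B 8 5 (Pf.B 6 5 (Pf.B 10 8 (Pf.B 10 6 (Pf.B 10 5 (Pf.C 1 0x821420305) (Pf.C 1 0x58a0a20301)) (Pf.B 9 6 (Pf.B 9 5 (Pf.B 9 8 (Pf.B 9 3 (Pf.B 10 3 (Pf.C 1 0x4000224503) (Pf.B 10 5 (Pf.B 8 4 (Pf.C 1 0x801028484) (Pf.C 1 0x2841028481)) (Pf.C 0 0x80c28a))) (Pf.C 9 0x20189)) (Pf.C 1 0x3081208085)) (Pf.C 1 0x5890a08086)) (Pf.C 6 0x28309))) (Pf.B 10 6 (Pf.B 9 8 (Pf.B 9 5 (Pf.B 9 6 (Pf.B 10 5 (Pf.C 1 0x800a24506) (Pf.B 10 3 (Pf.B 9 3 (Pf.B 7 5 (Pf.C 1 0x48a0a18381) (Pf.B 7 3 (Pf.W 25 3 [] [9,10,11] (Pf.cons (Pf.B 12 11 (Pf.C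 9 0x2c18c) (Pf.B 12 10 (Pf.C 5 0x2818c) (Pf.B 12 9 (Pf.C 0 0x122c50c) (Pf.C 6 0x2848c)))) Pf.nil)) (Pf.C 0 0x814187))) (Pf.C 9 0x20189)) (Pf.C 0 0x81418a))) (Pf.C 9 82697)) (Pf.C 1 0x5890a08088)) (Pf.C 0 0x1628488)) (Pf.C 0 0xe2030a))) (Pf.C 1 0x1850c0808b)) (Pf.C 13 0x20283)) (Pf.C 1 0x308060808b)) (Pf.C 9 0x2c186)) (Pf.C 0 0x1610382)) (Pf.C 0 0x142c484)) (Pf.C 0 0x1610502)) (Pf.C 0 0xa1018b))) (Pf.B 11 4 (Pf.B 11 3 (Pf.C 13 0x2c283) (Pf.C 0 0x81418b)) (Pf.C 0 83332))) (Pf.C 0 0x142c487)) (Pf.C 0 0x161c502)) (Pf.C 0 0x101c30b))) (Pf.B 11 7 (Pf.B 11 6 (Pf.C 13 0x2c406) (Pf.C 0 0xe2030b)) (Pf.C 0 0x20587))))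
 (Pq.cons (Pq.L [0,1,2] 63 (Pf.B 8 5 (Pf.B 8 4 (Pf.B 8 3 (Pf.B 6 3 (Pf.B 7 3 (Pf.W 25 3 [] [0,2,6,7,8] (Pf.cons (Pf.B 9 8 (Pf.C 7 0x20189) (Pf.B 9 7 (Pf.C 7 0x1c189) (Pf.B 9 6 (Pf.C 1 0x4090608006) (Pf.C 8 0x1c309)))) Pf.nil)) (Pf.C 1 0x3070608008)) (Pf.C 7 0x20186)) (Pf.C 1 0x2031008005)) (Pf.B 8 3 (Pf.C 12 0x20203) (Pf.C 0 0x210403))) (Pf.B 8 3 (Pf.B 7 5 (Pf.B 6 5 (Pf.B 6 3 (Pf.B 7 3 (Pf.W 25 3 [] [0,2,6,7,8] (Pf.cons (Pf.B 9 8 (Pf.C 7 0x20189) (Pf.B 9 7 (Pf.C 7 0x1c189) (Pf.B 9 6 (Pf.C 1 0x4090608006) (Pf.C 8 0x1c309)))) Pf.nil)) (Pf.C 1 0x3070620280)) (Pf.C 7 82310)) (Pf.C 12 0x20286)) (Pf.C 0 0x1004287)) (Pf.C 12 82947))))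
 (Pq.cons (Pq.L [0,1,2] 511 (Pf.B 11 8 (Pf.B 11 7 (Pf.B 11 6 (Pf.B 11 5 (Pf.B 11 4 (Pf.B 7 4 (Pf.B 6 4 (Pf.C 1 0x580041c304) (Pf.B 8 4 (Pf.B 6 3 (Pf.B 6 5 (Pf.B 11 3 (Pf.B 8 5 (Pf.B 8 3 (Pf.B 7 3 (Pf.C 1 0x5800410187) (Pf.B 7 5 (Pf.B 10 8 (Pf.B 10 4 (Pf.B 10 6 (Pf.C 1 0x406082c502) (Pf.B 9 6 (Pf.B 9 5 (Pf.B 9 8 (Pf.B 9 4 (Pf.C 1 0x4000428484) (Pf.B 9 3 (Pf.W 25 3 [] [1,2,8,9,11] (Pf.cons (Pf.B 12 11 (Pf.C 9 0x2c18c) (Pf.B 12 9 (Pf.B 12 8 (Pf.C 9 0x2018c) (Pf.C 1 0x18c1008089)) (Pf.C 10 0x2c48c))) Pf.nil)) (Pf.C 8 65929))) (Pf.C 1 0x3081208085)) (Pf.C 1 0x5890a08086)) (Pf.C 8 0x28309))) (Pf.C 18 0x2020a)) (Pf.B 10 7 (Pf.B 10 6 (Pf.B 10 5 (Pf.C 1 0x1000a1c30a) (Pf.C 1 0x58a0a1c302)) (Pf.C 0 0xe2030a))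 (Pf.C 0 0x101c501))) (Pf.C 0 0x80c287))) (Pf.C 1 0x283100808b)) (Pf.C 13 82950)) (Pf.C 1 0x2831608086)) (Pf.C 0 0x610286)) (Pf.C 8 65926)) (Pf.C 0 0xe18404))) (Pf.C 18 0x2c207)) (Pf.B 11 3 (Pf.B 6 3 (Pf.B 8 3 (Pf.B 8 5 (Pf.B 7 3 (Pf.C 1 0x5800418383) (Pf.B 7 4 (Pf.B 7 5 (Pf.B 8 4 (Pf.C 1 0x5840a1c402) (Pf.B 6 5 (Pf.B 6 4 (Pf.C 1 0x5840a1c302) (Pf.C 0 0xe20304)) (Pf.C 1 0x1850c0808b))) (Pf.C 0 0x80c287)) (Pf.C 0 0x610381))) (Pf.C 13 0x20283)) (Pf.C 1 0x308060808b)) (Pf.C 9 0x2c186)) (Pf.C 0 0xa1018b))) (Pf.B 11 4 (Pf.B 11 3 (Pf.C 13 0x2c283) (Pf.C 0 0x81418b)) (Pf.C 0 83332))) (Pf.B 9 6 (Pf.B 10 6 (Pf.B 10 7 (Pf.B 11 5 (Pf.B 11 4 (Pf.B 7 4 (Pf.B 11 3 (Pf.B 7 3 (Pf.C 1 0x5800410187) (Pf.B 6 3 (Pf.B 10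 3 (Pf.C 1 0x307060800a) (Pf.B 9 3 (Pf.C 1 0x30b1208083) (Pf.C 8 0x28189))) (Pf.C 8 0x1c186))) (Pf.B 9 3 (Pf.B 10 3 (Pf.B 10 4 (Pf.B 7 3 (Pf.B 9 7 (Pf.B 9 4 (Pf.B 6 4 (Pf.B 6 3 (Pf.B 10 8 (Pf.B 8 4 (Pf.B 9 8 (Pf.C 1 0x2010418409) (Pf.B 8 3 (Pf.C 1 0x5010418403) (Pf.W 25 3 [] [1,2,8,9,10,11] (Pf.cons (Pf.B 12 11 (Pf.B 12 10 (Pf.C 7 0x2818c) (Pf.B 12 9 (Pf.B 12 8 (Pf.C 1 0x589100808c) (Pf.C 10 0x2018c)) (Pf.C 8 0x2848c))) (Pf.C 10 0x2c18c)) Pf.nil)))) (Pf.C 1 0x388082c502)) (Pf.B 9 8 (Pf.B 8 4 (Pf.C 1 0x101082c488) (Pf.C 1 0x388082c482)) (Pf.C 0 0x1628488))) (Pf.C 7 0x28186)) (Pf.C 1 0x3860828480)) (Pf.C 1 0x1841208007)) (Pf.C 1 0x5090e08003)) (Pf.C 1 0x2030e0800a)) (Pf.C 12 0x28203)) (Pf.C 0 0x122c503))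 (Pf.C 10 0x2c189))) (Pf.C 18 0x2c207)) (Pf.B 11 3 (Pf.B 10 4 (Pf.B 9 4 (Pf.B 10 8 (Pf.B 10 5 (Pf.B 8 5 (Pf.B 8 3 (Pf.B 10 3 (Pf.C 1 0x1011414188) (Pf.B 9 3 (Pf.B 9 8 (Pf.B 9 5 (Pf.B 8 4 (Pf.C 1 0x1001028484) (Pf.C 1 0x2841028482)) (Pf.C 1 0x1851208088)) (Pf.C 1 0x5891008083)) (Pf.C 8 0x28189))) (Pf.C 1 0x283100808b)) (Pf.C 19 82954)) (Pf.B 9 5 (Pf.B 6 5 (Pf.C 1 0x48b0c08085) (Pf.B 8 5 (Pf.B 9 8 (Pf.C 1 0x2861008089) (Pf.C 1 0x5891008085)) (Pf.C 0 0xc14400))) (Pf.C 0 0x1628485))) (Pf.B 9 8 (Pf.B 10 3 (Pf.B 6 3 (Pf.B 9 3 (Pf.C 1 0x30b1208083) (Pf.C 1 0x5090608006)) (Pf.C 7 0x28186)) (Pf.B 9 3 (Pf.B 6 3 (Pf.C 1 0x48a0608006) (Pf.B 8 3 (Pf.C 1 0x1861008089) (Pf.C 10 0x20303))) (Pf.C 8 0x28189))) (Pf.C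 0 0x1628488))) (Pf.C 0 0x142c484)) (Pf.C 0 0x1610501)) (Pf.C 0 0xa1018b))) (Pf.B 11 4 (Pf.B 11 3 (Pf.C 13 0x2c283) (Pf.C 0 0x81418b)) (Pf.C 0 83332))) (Pf.C 12 0x28386)) (Pf.C 0 0x122c506)) (Pf.C 10 0x2c309))) (Pf.B 11 6 (Pf.B 10 7 (Pf.B 9 7 (Pf.B 11 5 (Pf.B 11 4 (Pf.B 11 3 (Pf.B 6 3 (Pf.B 8 3 (Pf.B 8 5 (Pf.B 6 4 (Pf.C 1 0x580040c206) (Pf.B 7 4 (Pf.B 8 4 (Pf.B 7 5 (Pf.C 1 0x5871010282) (Pf.B 7 3 (Pf.C 1 0x5871010182) (Pf.C 0 0x814187))) (Pf.C 0 0xe18404)) (Pf.C 0 0xc10381))) (Pf.C 13 0x20283)) (Pf.C 1 0x308060808b)) (Pf.C 9 0x2c186)) (Pf.B 9 3 (Pf.B 10 3 (Pf.B 10 6 (Pf.B 6 3 (Pf.B 9 6 (Pf.C 1 0x18b1208086) (Pf.C 1 0x5090c08003)) (Pf.C 7 0x28186)) (Pf.B 9 6 (Pf.B 6 3 (Pf.C 1 0x48b0608086) (Pf.B 8 3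 (Pf.B 8 5 (Pf.C 1 0x5830a08088) (Pf.C 13 0x20283)) (Pf.C 10 0x20303))) (Pf.C 8 0x28309))) (Pf.C 0 0x122c503)) (Pf.C 10 0x2c189))) (Pf.B 11 3 (Pf.B 10 4 (Pf.B 9 4 (Pf.B 7 4 (Pf.B 6 3 (Pf.B 8 3 (Pf.B 8 5 (Pf.B 6 5 (Pf.B 10 8 (Pf.B 10 6 (Pf.B 10 5 (Pf.C 1 0x1011420305) (Pf.C 1 0x58a0a20302)) (Pf.B 9 6 (Pf.B 9 5 (Pf.B 9 8 (Pf.B 9 3 (Pf.B 10 3 (Pf.C 1 0x4000424503) (Pf.B 10 5 (Pf.B 8 4 (Pf.C 1 0x1001028484) (Pf.C 1 0x2841028482)) (Pf.C 0 0x80c28a))) (Pf.C 9 0x20189)) (Pf.C 1 0x3081208085)) (Pf.C 1 0x5890a08086)) (Pf.C 8 0x28309))) (Pf.B 10 6 (Pf.B 9 8 (Pf.B 9 5 (Pf.B 9 6 (Pf.B 10 5 (Pf.C 1 0x1000a24506) (Pf.B 10 3 (Pf.B 9 3 (Pf.B 7 5 (Pf.C 1 0x48a0a18382) (Pf.B 7 3 (Pf.W 25 3 [] [9,10,11] (Pf.cons (Pf.B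 12 11 (Pf.C 9 0x2c18c) (Pf.B 12 10 (Pf.C 7 0x2818c) (Pf.B 12 9 (Pf.C 0 0x122c50c) (Pf.C 8 0x2848c)))) Pf.nil)) (Pf.C 0 0x814187))) (Pf.C 9 0x20189)) (Pf.C 0 0x81418a))) (Pf.C 9 82697)) (Pf.C 1 0x5890a08088)) (Pf.C 0 0x1628488)) (Pf.C 0 0xe2030a))) (Pf.C 1 0x1850c0808b)) (Pf.C 13 0x20283)) (Pf.C 1 0x308060808b)) (Pf.C 9 0x2c186)) (Pf.C 0 0x1610381)) (Pf.C 0 0x142c484)) (Pf.C 0 0x1610501)) (Pf.C 0 0xa1018b))) (Pf.B 11 4 (Pf.B 11 3 (Pf.C 13 0x2c283) (Pf.C 0 0x81418b)) (Pf.C 0 83332))) (Pf.C 0 0x142c487)) (Pf.C 0 0x161c501)) (Pf.C 0 0x101c30b))) (Pf.B 11 7 (Pf.B 11 6 (Pf.C 13 0x2c406) (Pf.C 0 0xe2030b)) (Pf.C 0 0x20587))))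
 (Pq.cons (Pq.L [0,1,2] 63 (Pf.B 8 5 (Pf.B 8 4 (Pf.B 8 3 (Pf.B 6 3 (Pf.B 7 3 (Pf.W 25 3 [] [1,2,6,7,8] (Pf.cons (Pf.B 9 8 (Pf.C 9 0x20189) (Pf.B 9 7 (Pf.C 9 0x1c189) (Pf.B 9 6 (Pf.C 1 0x4090608086) (Pf.C 10 0x1c309)))) Pf.nil)) (Pf.C 1 0x3070608088)) (Pf.C 9 0x20186)) (Pf.C 1 0x2031008085)) (Pf.B 8 3 (Pf.C 13 0x20203) (Pf.C 0 66563))) (Pf.B 8 3 (Pf.B 7 5 (Pf.B 6 5 (Pf.B 6 3 (Pf.B 7 3 (Pf.W 25 3 [] [1,2,6,7,8] (Pf.cons (Pf.B 9 8 (Pf.C 9 0x20189) (Pf.B 9 7 (Pf.C 9 0x1c189) (Pf.B 9 6 (Pf.C 1 0x4090608086) (Pf.C 10 0x1c309)))) Pf.nil)) (Pf.C 1 0x3070620281)) (Pf.C 9 82310)) (Pf.C 13 0x20286)) (Pf.C 0 0x1000287)) (Pf.C 13 82947))))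
 Pq.nil)))))))))
theorem eK_o11 : AllRef eK_T eK_G14 (hitObl [24,25,26,27,28] eK_h16) :=
  chkPq_sound eK_o11c _ (by decide +kernel)
noncomputable def eK_o12c : Pq := (Pq.cons (Pq.L [] 1 (Pf.C 26 388))
 (Pq.cons (Pq.L [] 3 (Pf.B 5 4 (Pf.C 27 82435) (Pf.C 11 82435)))
 (Pq.cons (Pq.L [] 3 (Pf.B 5 4 (Pf.C 28 82435) (Pf.C 12 82435)))
 (Pq.cons (Pq.L [] 3 (Pf.B 5 4 (Pf.C 29 82435) (Pf.C 13 82435)))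
 Pq.nil))))
theorem eK_o12 : AllRef eK_T eK_G15 (splitObl [33,29,30,31] [32]) :=
  chkPq_sound eK_o12c _ (by decide +kernel)
noncomputable def eK_o13c : Pq := (Pq.cons (Pq.L [] 0 (Pf.C 30 3))
 Pq.nil)
theorem eK_o13 : AllRef eK_T eK_G16 (List.map pat1 [31]) :=
  chkPq_sound eK_o13c _ (by decide +kernel)
noncomputable def eK_o14c : Pq := (Pq.cons (Pq.L [] 0 (Pf.C 32 3))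
 Pq.nil)
theorem eK_o14 : AllRef eK_T eK_G19 (List.map pat1 [30]) :=
  chkPq_sound eK_o14c _ (by decide +kernel)
noncomputable def eK_o15c : Pq := (Pq.cons (Pq.L [] 1 (Pf.C 26 515))
 (Pq.cons (Pq.L [] 2 (Pf.C 35 643))
 Pq.nil))
theorem eK_o15 : AllRef eK_T eK_G22 (splitObl [34,29] [35]) :=
  chkPq_sound eK_o15c _ (by decide +kernel)
noncomputable def eK_o16c : Pq := (Pq.cons (Pq.L [] 2 (Pf.C 26 643))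
 Pq.nil)
theorem eK_o16 : AllRef eK_T eK_G22 (twinObl [34,29] 0 [2,3]) :=
  chkPq_sound eK_o16c _ (by decide +kernel)
noncomputable def eK_o17c : Pq := (Pq.cons (Pq.L [] 1 (Pf.C 26 515))
 (Pq.cons (Pq.L [] 1 (Pf.C 26 515))
 Pq.nil))
theorem eK_o17 : AllRef eK_T eK_G23 (blockObl [36,37] [0,0] [2,3] [2,3]) :=
  chkPq_sound eK_o17c _ (by decide +kernel)
noncomputable def eK_o18c : Pq := (Pq.cons (Pq.L [0,1,2] 0 (Pf.W 34 3 [] [0,1,2] (Pf.cons (Pf.W 36 3 [] [0,1,2,4] (Pf.cons (Pf.B 5 4 (Pf.W 36 3 [5] [0,1,2,4] (Pf.cons (Pf.B 6 5 (Pf.B 6 4 (Pf.C 1 0x2830c04004) (Pf.C 11 66307)) (Pf.C 0 0x614302)) Pf.nil)) (Pf.C 11 66179)) Pf.nil)) Pf.nil)))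
 Pq.nil)
theorem eK_o18 : AllRef eK_T eK_G26 (List.map pat1 [44]) :=
  chkPq_sound eK_o18c _ (by decide +kernel)
noncomputable def eK_o19c : Pq := Pq.nil
theorem eK_o19 : AllRef eK_T eK_G27 (extObl 46 [] []) :=
  chkPq_sound eK_o19c _ (by decide +kernel)
noncomputable def eK_o20c : Pq := (Pq.cons (Pq.D 0 (Pq.cons (Pq.D 1 (Pq.cons (Pq.L [] 1 (Pf.C 26 515))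
 (Pq.cons (Pq.D 2 (Pq.cons (Pq.L [] 2 (Pf.C 26 643))
 (Pq.cons (Pq.L [0,1,2] 3 (Pf.B 5 4 (Pf.W 34 3 [] [0,1,4,5] (Pf.cons (Pf.B 7 5 (Pf.B 7 4 (Pf.C 1 0x2830804007) (Pf.C 11 0x1c203)) (Pf.C 11 0x1c283)) Pf.nil)) (Pf.C 0 0x610282)))
 Pq.nil))) Pq.nil))) (Pq.cons (Pq.D 1 (Pq.cons (Pq.D 2 (Pq.cons (Pq.L [0,1,2] 7 (Pf.B 5 4 (Pf.B 6 5 (Pf.B 6 4 (Pf.W 34 4 [] [0,1,3,5,6] (Pf.cons (Pf.C 11 98692) (Pf.cons (Pf.B 7 3 (Pf.B 7 6 (Pf.C 1 0x2030c04007) (Pf.B 7 5 (Pf.C 1 0x2030a04007) (Pf.C 1 0x3070a04004))) (Pf.C 11 0x1c184)) Pf.nil))) (Pf.B 6 2 (Pf.T 6 1 (Pf.cons (Pf.W 34 5 [] [0,1,3,4,6] (Pf.cons (Pf.B 7 3 (Pf.B 7 6 (Pf.C 1 0x2830c04007) (Pf.B 7 4 (Pf.C 1 0x2830804007) (Pf.C 0 0x618207))) (Pf.C 11 0x1c185)) Pf.nil))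 Pf.nil)) (Pf.C 0 0x80c302))) (Pf.B 6 4 (Pf.B 6 2 (Pf.T 6 1 (Pf.cons (Pf.W 34 4 [] [0,1,3,5,6] (Pf.cons (Pf.B 7 3 (Pf.B 7 6 (Pf.C 1 0x2030c04007) (Pf.B 7 5 (Pf.C 1 0x2030a04007) (Pf.C 0 0x618287))) (Pf.C 11 0x1c184)) Pf.nil)) Pf.nil)) (Pf.C 0 0xa0c302)) (Pf.C 0 0xa0c304))) (Pf.C 26 517)))
 (Pq.cons (Pq.L [2] 3 (Pf.B 5 4 (Pf.C 11 82308) (Pf.C 0 0x40c284)))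
 Pq.nil))) (Pq.cons (Pq.D 2 (Pq.cons (Pq.L [2] 3 (Pf.B 5 4 (Pf.C 11 65925) (Pf.C 0 0x40c205)))
 (Pq.cons (Pq.D 3 (Pq.cons (Pq.L [] 7 (Pf.C 38 0xc14203))
 (Pq.cons (Pq.L [] 7 (Pf.C 38 0xc14203))
 Pq.nil))) Pq.nil))) Pq.nil))) Pq.nil))) Pq.nil)
theorem eK_o20 : AllRef eK_T eK_G28 (applyObl TD2 1 [45,47] [0,0] []) :=
  chkPq_sound eK_o20c _ (by decide +kernel)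
noncomputable def eK_o21c : Pq := (Pq.cons (Pq.L [0,1,2,3] 0 (Pf.W 34 4 [] [0,1,2,3] (Pf.cons (Pf.B 5 3 (Pf.W 37 3 [4] [0,1,2,5] (Pf.cons (Pf.B 6 4 (Pf.B 6 5 (Pf.C 1 0x2030c04005) (Pf.T 6 4 (Pf.cons (Pf.W 37 3 [4,6] [0,1,2,5] (Pf.cons (Pf.B 7 6 (Pf.B 7 4 (Pf.B 7 5 (Pf.C 1 0x2030e04005) (Pf.C 1 0x3050e04004)) (Pf.C 26 519)) (Pf.C 26 775)) (Pf.cons (Pf.B 7 6 (Pf.C 11 0x1c186) (Pf.C 0 0x40c386)) Pf.nil))) Pf.nil))) (Pf.C 26 518)) (Pf.cons (Pf.B 6 4 (Pf.C 11 98692) (Pf.C 0 0x40c304)) Pf.nil))) (Pf.C 11 82308)) Pf.nil)))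
 Pq.nil)
theorem eK_o21 : AllRef eK_T eK_G29 (ptObl 45 (PT.br 3 PT.kid PT.ref) []) :=
  chkPq_sound eK_o21c _ (by decide +kernel)
noncomputable def eK_o22c : Pq := Pq.nil
theorem eK_o22 : AllRef eK_T eK_G30 (ptObl 46 PT.kid []) :=
  chkPq_sound eK_o22c _ (by decide +kernel)
noncomputable def eK_o23c : Pq := Pq.nil
theorem eK_o23 : AllRef eK_T eK_G31 (ptObl 50 (PT.br 3 PT.kid PT.kid) []) :=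
  chkPq_sound eK_o23c _ (by decide +kernel)
noncomputable def eK_o24c : Pq := (Pq.cons (Pq.L [2,3] 0 (Pf.W 37 3 [4] [2] (Pf.cons (Pf.B 5 4 (Pf.C 11 65925) (Pf.C 0 0x40c205)) (Pf.cons (Pf.B 5 4 (Pf.C 0 0x80c105) (Pf.W 37 3 [4,5] [2] (Pf.cons (Pf.B 6 5 (Pf.C 11 82310) (Pf.C 0 0x40c286)) (Pf.cons (Pf.B 6 4 (Pf.C 0 0x80c106) (Pf.C 38 0xa0c304)) Pf.nil)))) Pf.nil))))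
 Pq.nil)
theorem eK_o24 : AllRef eK_T eK_G32 (ptObl 47 (PT.br 3 PT.kid PT.ref) []) :=
  chkPq_sound eK_o24c _ (by decide +kernel)
noncomputable def eK_o25c : Pq := (Pq.cons (Pq.L [] 0 (Pf.X 3 4))
 (Pq.cons (Pq.L [0,1,2] 1 (Pf.W 34 5 [] [0,1,2,4] (Pf.cons (Pf.B 6 4 (Pf.W 37 4 [5] [0,1,2,6] (Pf.cons (Pf.B 7 5 (Pf.B 7 6 (Pf.C 1 0x2840e04006) (Pf.T 7 4 (Pf.cons (Pf.W 37 4 [5,7] [0,1,2,6] (Pf.cons (Pf.B 8 7 (Pf.B 8 5 (Pf.B 8 6 (Pf.C 1 0x2841004006) (Pf.C 1 0x3861004005)) (Pf.C 26 648)) (Pf.C 26 904)) (Pf.cons (Pf.B 8 7 (Pf.C 11 0x20207) (Pf.C 0 0x410407)) Pf.nil))) Pf.nil))) (Pf.C 26 647)) (Pf.cons (Pf.B 7 5 (Pf.C 11 0x1c205) (Pf.C 0 0x410385)) Pf.nil))) (Pf.C 11 98821)) Pf.nil)))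
 (Pq.cons (Pq.L [] 0 (Pf.X 3 4))
 (Pq.cons (Pq.L [2,3] 1 (Pf.C 0 0xa08203))
 (Pq.cons (Pq.L [] 0 (Pf.X 3 4))
 (Pq.cons (Pq.L [2] 1 (Pf.W 37 4 [5] [2] (Pf.cons (Pf.B 6 5 (Pf.C 11 82438) (Pf.C 0 0x410286)) (Pf.cons (Pf.B 6 5 (Pf.C 0 0xa10106) (Pf.W 37 4 [5,6] [2] (Pf.cons (Pf.B 7 6 (Pf.C 11 98823) (Pf.C 0 0x410307)) (Pf.cons (Pf.B 7 5 (Pf.C 0 0xa10107) (Pf.C 38 0xc10385)) Pf.nil)))) Pf.nil))))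
 Pq.nil))))))
theorem eK_o25 : AllRef eK_T eK_G33 (closeObl (eK_T.sc.get 0) false [49,51,52,53] [0,1,1,1] [3] [1] 4) :=
  chkPq_sound eK_o25c _ (by decide +kernel)
noncomputable def eK_o26c : Pq := (Pq.cons (Pq.L [2,3] 0 (Pf.B 7 6 (Pf.C 0 0xc0c107) (Pf.B 7 5 (Pf.C 0 0xa0c107) (Pf.B 7 4 (Pf.C 0 0x80c107) (Pf.B 6 5 (Pf.C 0 0xa0c106) (Pf.B 6 4 (Pf.C 0 0x80c106) (Pf.B 5 4 (Pf.C 0 0x80c105) (Pf.C 2 0x3860608205))))))))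
 Pq.nil)
theorem eK_o26 : AllRef eK_T eK_G34 (hitObl [52] eK_h39) :=
  chkPq_sound eK_o26c _ (by decide +kernel)
noncomputable def eK_o27c : Pq := (Pq.cons (Pq.L [] 0 (Pf.C 39 4))
 Pq.nil)
theorem eK_o27 : AllRef eK_T eK_G35 (List.map pat1 [54]) :=
  chkPq_sound eK_o27c _ (by decide +kernel)
noncomputable def eK_o28c : Pq := (Pq.cons (Pq.L [] 1 (Pf.C 26 515))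
 Pq.nil)
theorem eK_o28 : AllRef eK_T eK_G22 (applyObl TD2 1 [35] [0] []) :=
  chkPq_sound eK_o28c _ (by decide +kernel)
noncomputable def eK_o29c : Pq := (Pq.cons (Pq.L [] 0 (Pf.C 40 3))
 Pq.nil)
theorem eK_o29 : AllRef eK_T eK_G37 (List.map pat1 [29]) :=
  chkPq_sound eK_o29c _ (by decide +kernel)
noncomputable def eK_o30c : Pq := (Pq.cons (Pq.L [] 1 (Pf.C 26 515))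
 (Pq.cons (Pq.L [] 2 (Pf.C 43 643))
 Pq.nil))
theorem eK_o30 : AllRef eK_T eK_G40 (splitObl [55,30] [56]) :=
  chkPq_sound eK_o30c _ (by decide +kernel)
noncomputable def eK_o31c : Pq := (Pq.cons (Pq.L [] 2 (Pf.C 26 643))
 Pq.nil)
theorem eK_o31 : AllRef eK_T eK_G40 (twinObl [55,30] 0 [2,3]) :=
  chkPq_sound eK_o31c _ (by decide +kernel)
noncomputable def eK_o32c : Pq := (Pq.cons (Pq.L [] 1 (Pf.C 26 515))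
 (Pq.cons (Pq.L [] 1 (Pf.C 26 515))
 Pq.nil))
theorem eK_o32 : AllRef eK_T eK_G41 (blockObl [57,58] [0,0] [2,3] [2,3]) :=
  chkPq_sound eK_o32c _ (by decide +kernel)
noncomputable def eK_o33c : Pq := (Pq.cons (Pq.L [0,1,2] 0 (Pf.W 42 3 [] [0,1,2] (Pf.cons (Pf.W 44 3 [] [0,1,2,4] (Pf.cons (Pf.B 5 4 (Pf.W 44 3 [5] [0,1,2,4] (Pf.cons (Pf.B 6 5 (Pf.B 6 4 (Pf.C 1 0x2830c08004) (Pf.C 12 66307)) (Pf.C 0 0x614301)) Pf.nil)) (Pf.C 12 66179)) Pf.nil)) Pf.nil)))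
 Pq.nil)
theorem eK_o33 : AllRef eK_T eK_G44 (List.map pat1 [65]) :=
  chkPq_sound eK_o33c _ (by decide +kernel)
noncomputable def eK_o34c : Pq := Pq.nil
theorem eK_o34 : AllRef eK_T eK_G45 (extObl 67 [] []) :=
  chkPq_sound eK_o34c _ (by decide +kernel)
noncomputable def eK_o35c : Pq := (Pq.cons (Pq.D 0 (Pq.cons (Pq.D 1 (Pq.cons (Pq.L [] 1 (Pf.C 26 515))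
 (Pq.cons (Pq.D 2 (Pq.cons (Pq.L [] 2 (Pf.C 26 643))
 (Pq.cons (Pq.L [0,1,2] 3 (Pf.B 5 4 (Pf.W 42 3 [] [0,2,4,5] (Pf.cons (Pf.B 7 5 (Pf.B 7 4 (Pf.C 1 0x2830808007) (Pf.C 12 0x1c203)) (Pf.C 12 0x1c283)) Pf.nil)) (Pf.C 0 0x610281)))
 Pq.nil))) Pq.nil))) (Pq.cons (Pq.D 1 (Pq.cons (Pq.D 2 (Pq.cons (Pq.L [0,1,2] 7 (Pf.B 5 4 (Pf.B 6 5 (Pf.B 6 4 (Pf.W 42 4 [] [0,2,3,5,6] (Pf.cons (Pf.C 12 98692) (Pf.cons (Pf.B 7 3 (Pf.B 7 6 (Pf.C 1 0x2030c08007) (Pf.B 7 5 (Pf.C 1 0x2030a08007) (Pf.C 1 0x3070a08004))) (Pf.C 12 0x1c184)) Pf.nil))) (Pf.B 6 1 (Pf.T 6 1 (Pf.cons (Pf.W 42 5 [] [0,2,3,4,6] (Pf.cons (Pf.B 7 3 (Pf.B 7 6 (Pf.C 1 0x2830c08007) (Pf.B 7 4 (Pf.C 1 0x2830808007) (Pf.C 0 0x618207))) (Pf.C 12 0x1c185)) Pf.nil))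 Pf.nil)) (Pf.C 0 0x80c301))) (Pf.B 6 4 (Pf.B 6 1 (Pf.T 6 1 (Pf.cons (Pf.W 42 4 [] [0,2,3,5,6] (Pf.cons (Pf.B 7 3 (Pf.B 7 6 (Pf.C 1 0x2030c08007) (Pf.B 7 5 (Pf.C 1 0x2030a08007) (Pf.C 0 0x618287))) (Pf.C 12 0x1c184)) Pf.nil)) Pf.nil)) (Pf.C 0 0xa0c301)) (Pf.C 0 0xa0c304))) (Pf.C 26 517)))
 (Pq.cons (Pq.L [1] 3 (Pf.B 5 4 (Pf.C 12 82308) (Pf.C 0 0x20c284)))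
 Pq.nil))) (Pq.cons (Pq.D 2 (Pq.cons (Pq.L [1] 3 (Pf.B 5 4 (Pf.C 12 65925) (Pf.C 0 0x20c205)))
 (Pq.cons (Pq.D 3 (Pq.cons (Pq.L [] 7 (Pf.C 46 0xc14203))
 (Pq.cons (Pq.L [] 7 (Pf.C 46 0xc14203))
 Pq.nil))) Pq.nil))) Pq.nil))) Pq.nil))) Pq.nil)
theorem eK_o35 : AllRef eK_T eK_G46 (applyObl TD2 1 [66,68] [0,0] []) :=
  chkPq_sound eK_o35c _ (by decide +kernel)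
noncomputable def eK_o36c : Pq := (Pq.cons (Pq.L [0,1,2,3] 0 (Pf.W 42 4 [] [0,1,2,3] (Pf.cons (Pf.B 5 3 (Pf.W 45 3 [4] [0,1,2,5] (Pf.cons (Pf.B 6 4 (Pf.B 6 5 (Pf.C 1 0x2030c08005) (Pf.T 6 11 (Pf.cons (Pf.W 45 3 [4,6] [0,1,2,5] (Pf.cons (Pf.B 7 6 (Pf.B 7 4 (Pf.B 7 5 (Pf.C 1 0x2030e08005) (Pf.C 1 0x3050e08004)) (Pf.C 26 519)) (Pf.C 26 775)) (Pf.cons (Pf.B 7 6 (Pf.C 12 0x1c186) (Pf.C 0 0x20c386)) Pf.nil))) Pf.nil))) (Pf.C 26 518)) (Pf.cons (Pf.B 6 4 (Pf.C 12 98692) (Pf.C 0 0x20c304)) Pf.nil))) (Pf.C 12 82308)) Pf.nil)))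
 Pq.nil)
theorem eK_o36 : AllRef eK_T eK_G47 (ptObl 66 (PT.br 3 PT.kid PT.ref) []) :=
  chkPq_sound eK_o36c _ (by decide +kernel)
noncomputable def eK_o37c : Pq := Pq.nil
theorem eK_o37 : AllRef eK_T eK_G48 (ptObl 67 PT.kid []) :=
  chkPq_sound eK_o37c _ (by decide +kernel)
noncomputable def eK_o38c : Pq := Pq.nil
theorem eK_o38 : AllRef eK_T eK_G49 (ptObl 71 (PT.br 3 PT.kid PT.kid) []) :=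
  chkPq_sound eK_o38c _ (by decide +kernel)
noncomputable def eK_o39c : Pq := (Pq.cons (Pq.L [1,3] 0 (Pf.W 45 3 [4] [1] (Pf.cons (Pf.B 5 4 (Pf.C 12 65925) (Pf.C 0 0x20c205)) (Pf.cons (Pf.B 5 4 (Pf.C 0 0x80c085) (Pf.W 45 3 [4,5] [1] (Pf.cons (Pf.B 6 5 (Pf.C 12 82310) (Pf.C 0 0x20c286)) (Pf.cons (Pf.B 6 4 (Pf.C 0 0x80c086) (Pf.C 46 0xa0c304)) Pf.nil)))) Pf.nil))))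
 Pq.nil)
theorem eK_o39 : AllRef eK_T eK_G50 (ptObl 68 (PT.br 3 PT.kid PT.ref) []) :=
  chkPq_sound eK_o39c _ (by decide +kernel)
noncomputable def eK_o40c : Pq := (Pq.cons (Pq.L [] 0 (Pf.X 3 4))
 (Pq.cons (Pq.L [0,1,2] 1 (Pf.W 42 5 [] [0,1,2,4] (Pf.cons (Pf.B 6 4 (Pf.W 45 4 [5] [0,1,2,6] (Pf.cons (Pf.B 7 5 (Pf.B 7 6 (Pf.C 1 0x2840e08006) (Pf.T 7 11 (Pf.cons (Pf.W 45 4 [5,7] [0,1,2,6] (Pf.cons (Pf.B 8 7 (Pf.B 8 5 (Pf.B 8 6 (Pf.C 1 0x2841008006) (Pf.C 1 0x3861008005)) (Pf.C 26 648)) (Pf.C 26 904)) (Pf.cons (Pf.B 8 7 (Pf.C 12 0x20207) (Pf.C 0 0x210407)) Pf.nil))) Pf.nil))) (Pf.C 26 647)) (Pf.cons (Pf.B 7 5 (Pf.C 12 0x1c205) (Pf.C 0 0x210385)) Pf.nil))) (Pf.C 12 98821)) Pf.nil)))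
 (Pq.cons (Pq.L [] 0 (Pf.X 3 4))
 (Pq.cons (Pq.L [1,3] 1 (Pf.C 0 0xa04203))
 (Pq.cons (Pq.L [] 0 (Pf.X 3 4))
 (Pq.cons (Pq.L [1] 1 (Pf.W 45 4 [5] [1] (Pf.cons (Pf.B 6 5 (Pf.C 12 82438) (Pf.C 0 0x210286)) (Pf.cons (Pf.B 6 5 (Pf.C 0 0xa10086) (Pf.W 45 4 [5,6] [1] (Pf.cons (Pf.B 7 6 (Pf.C 12 98823) (Pf.C 0 0x210307)) (Pf.cons (Pf.B 7 5 (Pf.C 0 0xa10087) (Pf.C 46 0xc10385)) Pf.nil)))) Pf.nil))))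
 Pq.nil))))))
theorem eK_o40 : AllRef eK_T eK_G51 (closeObl (eK_T.sc.get 1) false [70,72,73,74] [0,1,1,1] [3] [1] 4) :=
  chkPq_sound eK_o40c _ (by decide +kernel)
noncomputable def eK_o41c : Pq := (Pq.cons (Pq.L [1,3] 0 (Pf.B 7 6 (Pf.C 0 0xc0c087) (Pf.B 7 5 (Pf.C 0 0xa0c087) (Pf.B 7 4 (Pf.C 0 0x80c087) (Pf.B 6 5 (Pf.C 0 0xa0c086) (Pf.B 6 4 (Pf.C 0 0x80c086) (Pf.B 5 4 (Pf.C 0 0x80c085) (Pf.C 2 0x3860604205))))))))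
 Pq.nil)
theorem eK_o41 : AllRef eK_T eK_G52 (hitObl [73] eK_h62) :=
  chkPq_sound eK_o41c _ (by decide +kernel)
noncomputable def eK_o42c : Pq := (Pq.cons (Pq.L [] 0 (Pf.C 47 4))
 Pq.nil)
theorem eK_o42 : AllRef eK_T eK_G53 (List.map pat1 [75]) :=
  chkPq_sound eK_o42c _ (by decide +kernel)
noncomputable def eK_o43c : Pq := (Pq.cons (Pq.L [] 1 (Pf.C 26 515))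
 Pq.nil)
theorem eK_o43 : AllRef eK_T eK_G40 (applyObl TD2 1 [56] [0] []) :=
  chkPq_sound eK_o43c _ (by decide +kernel)
noncomputable def eK_o44c : Pq := (Pq.cons (Pq.L [] 63 (Pf.C 0 0xc14203))
 (Pq.cons (Pq.L [] 32767 (Pf.C 1 0x4070c14203))
 (Pq.cons (Pq.L [] 1 (Pf.C 26 515))
 (Pq.cons (Pq.L [1] 7 (Pf.C 0 0x214203))
 (Pq.cons (Pq.L [2] 7 (Pf.C 0 0x414203))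
 (Pq.cons (Pq.L [1] 7 (Pf.C 0 0xa10083))
 (Pq.cons (Pq.L [2] 7 (Pf.C 0 0xa10103))
 (Pq.cons (Pq.L [] 7 (Pf.C 11 82435))
 (Pq.cons (Pq.L [] 7 (Pf.C 12 82435))
 (Pq.cons (Pq.L [] 7 (Pf.C 14 82435))
 (Pq.cons (Pq.L [] 7 (Pf.C 16 82435))
 (Pq.cons (Pq.L [2] 3 (Pf.B 4 3 (Pf.C 0 0x614104) (Pf.W 33 0 [] [2,3,4,5] (Pf.cons (Pf.B 6 5 (Pf.B 6 4 (Pf.C 14 98948) (Pf.B 6 3 (Pf.C 14 98947) (Pf.C 0 0x410186))) (Pf.B 6 4 (Pf.B 6 3 (Pf.C 14 98819) (Pf.C 0 0x414186)) (Pf.C 0 0x414206))) Pf.nil))))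
 (Pq.cons (Pq.L [1] 3 (Pf.B 4 3 (Pf.C 0 0x614084) (Pf.W 41 0 [] [1,3,4,5] (Pf.cons (Pf.B 6 5 (Pf.B 6 4 (Pf.C 16 82438) (Pf.B 6 3 (Pf.C 16 82310) (Pf.C 0 0x210186))) (Pf.B 6 4 (Pf.B 6 3 (Pf.C 16 65926) (Pf.C 0 0x214186)) (Pf.C 0 0x214206))) Pf.nil))))
 (Pq.cons (Pq.L [0,1] 63 (Pf.C 1 0x3050804003))
 (Pq.cons (Pq.L [0,2] 63 (Pf.C 1 0x3050808003))
 (Pq.cons (Pq.L [0,1] 63 (Pf.C 1 0x3010014203))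
 (Pq.cons (Pq.L [0,2] 63 (Pf.C 1 0x3020014203))
 (Pq.cons (Pq.L [0] 1023 (Pf.C 1 0x3860a10180))
 Pq.nil))))))))))))))))))
theorem eK_o44 : AllRef eK_T eK_G38 (applyObl e5_T 18 [33,29,30] [1,2,3] []) :=
  chkPq_sound eK_o44c _ (by decide +kernel)
noncomputable def eK_o45c : Pq := (Pq.cons (Pq.L [] 0 (Pf.C 48 3))
 Pq.nil)
theorem eK_o45 : AllRef eK_T eK_G55 (List.map pat1 [30]) :=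
  chkPq_sound eK_o45c _ (by decide +kernel)
noncomputable def eK_o46c : Pq := (Pq.cons (Pq.L [] 0 (Pf.C 50 3))
 Pq.nil)
theorem eK_o46 : AllRef eK_T eK_G58 (List.map pat1 [29]) :=
  chkPq_sound eK_o46c _ (by decide +kernel)
noncomputable def eK_o47c : Pq := (Pq.cons (Pq.L [] 1 (Pf.C 26 515))
 (Pq.cons (Pq.L [] 2 (Pf.C 53 643))
 Pq.nil))
theorem eK_o47 : AllRef eK_T eK_G61 (splitObl [76,31] [77]) :=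
  chkPq_sound eK_o47c _ (by decide +kernel)
noncomputable def eK_o48c : Pq := (Pq.cons (Pq.L [] 2 (Pf.C 26 643))
 Pq.nil)
theorem eK_o48 : AllRef eK_T eK_G61 (twinObl [76,31] 0 [2,3]) :=
  chkPq_sound eK_o48c _ (by decide +kernel)
noncomputable def eK_o49c : Pq := (Pq.cons (Pq.L [] 1 (Pf.C 26 515))
 (Pq.cons (Pq.L [] 1 (Pf.C 26 515))
 Pq.nil))
theorem eK_o49 : AllRef eK_T eK_G62 (blockObl [78,79] [0,0] [2,3] [2,3]) :=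
  chkPq_sound eK_o49c _ (by decide +kernel)
noncomputable def eK_o50c : Pq := (Pq.cons (Pq.L [0,1,2] 0 (Pf.W 52 3 [] [0,1,2] (Pf.cons (Pf.W 54 3 [] [0,1,2,4] (Pf.cons (Pf.B 5 4 (Pf.W 54 3 [5] [0,1,2,4] (Pf.cons (Pf.B 6 5 (Pf.B 6 4 (Pf.C 1 0x2830c08084) (Pf.C 13 66307)) (Pf.C 0 0x614300)) Pf.nil)) (Pf.C 13 66179)) Pf.nil)) Pf.nil)))
 Pq.nil)
theorem eK_o50 : AllRef eK_T eK_G65 (List.map pat1 [86]) :=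
  chkPq_sound eK_o50c _ (by decide +kernel)
noncomputable def eK_o51c : Pq := Pq.nil
theorem eK_o51 : AllRef eK_T eK_G66 (extObl 88 [] []) :=
  chkPq_sound eK_o51c _ (by decide +kernel)
noncomputable def eK_o52c : Pq := (Pq.cons (Pq.D 0 (Pq.cons (Pq.D 1 (Pq.cons (Pq.L [] 1 (Pf.C 26 515))
 (Pq.cons (Pq.D 2 (Pq.cons (Pq.L [] 2 (Pf.C 26 643))
 (Pq.cons (Pq.L [0,1,2] 3 (Pf.B 5 4 (Pf.W 52 3 [] [1,2,4,5] (Pf.cons (Pf.B 7 5 (Pf.B 7 4 (Pf.C 1 0x2830808087) (Pf.C 13 0x1c203)) (Pf.C 13 0x1c283)) Pf.nil)) (Pf.C 0 0x610280)))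
 Pq.nil))) Pq.nil))) (Pq.cons (Pq.D 1 (Pq.cons (Pq.D 2 (Pq.cons (Pq.L [0,1,2] 7 (Pf.B 5 4 (Pf.B 6 5 (Pf.B 6 4 (Pf.W 52 4 [] [1,2,3,5,6] (Pf.cons (Pf.C 13 98692) (Pf.cons (Pf.B 7 3 (Pf.B 7 6 (Pf.C 1 0x2030c08087) (Pf.B 7 5 (Pf.C 1 0x2030a08087) (Pf.C 1 0x3070a08084))) (Pf.C 13 0x1c184)) Pf.nil))) (Pf.B 6 0 (Pf.T 6 1 (Pf.cons (Pf.W 52 5 [] [1,2,3,4,6] (Pf.cons (Pf.B 7 3 (Pf.B 7 6 (Pf.C 1 0x2830c08087) (Pf.B 7 4 (Pf.C 1 0x2830808087) (Pf.C 0 0x618207))) (Pf.C 13 0x1c185)) Pf.nil)) Pf.nil)) (Pf.C 0 0x80c300))) (Pf.B 6 4 (Pf.B 6 0 (Pf.T 6 1 (Pf.cons (Pf.W 52 4 [] [1,2,3,5,6] (Pf.cons (Pf.B 7 3 (Pf.B 7 6 (Pf.C 1 0x2030c08087) (Pf.B 7 5 (Pf.C 1 0x2030a08087) (Pf.C 0 0x618287))) (Pf.C 13 0x1c184)) Pf.nil))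 Pf.nil)) (Pf.C 0 0xa0c300)) (Pf.C 0 0xa0c304))) (Pf.C 26 517)))
 (Pq.cons (Pq.L [0] 3 (Pf.B 5 4 (Pf.C 13 82308) (Pf.C 0 49796)))
 Pq.nil))) (Pq.cons (Pq.D 2 (Pq.cons (Pq.L [0] 3 (Pf.B 5 4 (Pf.C 13 65925) (Pf.C 0 49669)))
 (Pq.cons (Pq.D 3 (Pq.cons (Pq.L [] 7 (Pf.C 56 0xc14203))
 (Pq.cons (Pq.L [] 7 (Pf.C 56 0xc14203))
 Pq.nil))) Pq.nil))) Pq.nil))) Pq.nil))) Pq.nil)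
theorem eK_o52 : AllRef eK_T eK_G67 (applyObl TD2 1 [87,89] [0,0] []) :=
  chkPq_sound eK_o52c _ (by decide +kernel)
noncomputable def eK_o53c : Pq := (Pq.cons (Pq.L [0,1,2,3] 0 (Pf.W 52 4 [] [0,1,2,3] (Pf.cons (Pf.B 5 3 (Pf.W 55 3 [4] [0,1,2,5] (Pf.cons (Pf.B 6 4 (Pf.B 6 5 (Pf.C 1 0x2030c08085) (Pf.T 6 18 (Pf.cons (Pf.W 55 3 [4,6] [0,1,2,5] (Pf.cons (Pf.B 7 6 (Pf.B 7 4 (Pf.B 7 5 (Pf.C 1 0x2030e08085) (Pf.C 1 0x3050e08084)) (Pf.C 26 519)) (Pf.C 26 775)) (Pf.cons (Pf.B 7 6 (Pf.C 13 0x1c186) (Pf.C 0 50054)) Pf.nil))) Pf.nil))) (Pf.C 26 518)) (Pf.cons (Pf.B 6 4 (Pf.C 13 98692) (Pf.C 0 49924)) Pf.nil))) (Pf.C 13 82308)) Pf.nil)))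
 Pq.nil)
theorem eK_o53 : AllRef eK_T eK_G68 (ptObl 87 (PT.br 3 PT.kid PT.ref) []) :=
  chkPq_sound eK_o53c _ (by decide +kernel)
noncomputable def eK_o54c : Pq := Pq.nil
theorem eK_o54 : AllRef eK_T eK_G69 (ptObl 88 PT.kid []) :=
  chkPq_sound eK_o54c _ (by decide +kernel)
noncomputable def eK_o55c : Pq := Pq.nil
theorem eK_o55 : AllRef eK_T eK_G70 (ptObl 92 (PT.br 3 PT.kid PT.kid) []) :=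
  chkPq_sound eK_o55c _ (by decide +kernel)
noncomputable def eK_o56c : Pq := (Pq.cons (Pq.L [0,3] 0 (Pf.W 55 3 [4] [0] (Pf.cons (Pf.B 5 4 (Pf.C 13 65925) (Pf.C 0 49669)) (Pf.cons (Pf.B 5 4 (Pf.C 0 0x80c005) (Pf.W 55 3 [4,5] [0] (Pf.cons (Pf.B 6 5 (Pf.C 13 82310) (Pf.C 0 49798)) (Pf.cons (Pf.B 6 4 (Pf.C 0 0x80c006) (Pf.C 56 0xa0c304)) Pf.nil)))) Pf.nil))))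
 Pq.nil)
theorem eK_o56 : AllRef eK_T eK_G71 (ptObl 89 (PT.br 3 PT.kid PT.ref) []) :=
  chkPq_sound eK_o56c _ (by decide +kernel)
noncomputable def eK_o57c : Pq := (Pq.cons (Pq.L [] 0 (Pf.X 3 4))
 (Pq.cons (Pq.L [0,1,2] 1 (Pf.W 52 5 [] [0,1,2,4] (Pf.cons (Pf.B 6 4 (Pf.W 55 4 [5] [0,1,2,6] (Pf.cons (Pf.B 7 5 (Pf.B 7 6 (Pf.C 1 0x2840e08086) (Pf.T 7 18 (Pf.cons (Pf.W 55 4 [5,7] [0,1,2,6] (Pf.cons (Pf.B 8 7 (Pf.B 8 5 (Pf.B 8 6 (Pf.C 1 0x2841008086) (Pf.C 1 0x3861008085)) (Pf.C 26 648)) (Pf.C 26 904)) (Pf.cons (Pf.B 8 7 (Pf.C 13 0x20207) (Pf.C 0 66567)) Pf.nil))) Pf.nil))) (Pf.C 26 647)) (Pf.cons (Pf.B 7 5 (Pf.C 13 0x1c205) (Pf.C 0 66437)) Pf.nil))) (Pf.C 13 98821)) Pf.nil)))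
 (Pq.cons (Pq.L [] 0 (Pf.X 3 4))
 (Pq.cons (Pq.L [0,3] 1 (Pf.C 0 0xa00203))
 (Pq.cons (Pq.L [] 0 (Pf.X 3 4))
 (Pq.cons (Pq.L [0] 1 (Pf.W 55 4 [5] [0] (Pf.cons (Pf.B 6 5 (Pf.C 13 82438) (Pf.C 0 66182)) (Pf.cons (Pf.B 6 5 (Pf.C 0 0xa10006) (Pf.W 55 4 [5,6] [0] (Pf.cons (Pf.B 7 6 (Pf.C 13 98823) (Pf.C 0 66311)) (Pf.cons (Pf.B 7 5 (Pf.C 0 0xa10007) (Pf.C 56 0xc10385)) Pf.nil)))) Pf.nil))))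
 Pq.nil))))))
theorem eK_o57 : AllRef eK_T eK_G72 (closeObl (eK_T.sc.get 2) false [91,93,94,95] [0,1,1,1] [3] [1] 4) :=
  chkPq_sound eK_o57c _ (by decide +kernel)
noncomputable def eK_o58c : Pq := (Pq.cons (Pq.L [0,3] 0 (Pf.B 7 6 (Pf.C 0 0xc0c007) (Pf.B 7 5 (Pf.C 0 0xa0c007) (Pf.B 7 4 (Pf.C 0 0x80c007) (Pf.B 6 5 (Pf.C 0 0xa0c006) (Pf.B 6 4 (Pf.C 0 0x80c006) (Pf.B 5 4 (Pf.C 0 0x80c005) (Pf.C 2 0x3860600205))))))))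
 Pq.nil)
theorem eK_o58 : AllRef eK_T eK_G73 (hitObl [94] eK_h88) :=
  chkPq_sound eK_o58c _ (by decide +kernel)
noncomputable def eK_o59c : Pq := (Pq.cons (Pq.L [] 0 (Pf.C 57 4))
 Pq.nil)
theorem eK_o59 : AllRef eK_T eK_G74 (List.map pat1 [96]) :=
  chkPq_sound eK_o59c _ (by decide +kernel)
noncomputable def eK_o60c : Pq := (Pq.cons (Pq.L [] 1 (Pf.C 26 515))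
 Pq.nil)
theorem eK_o60 : AllRef eK_T eK_G61 (applyObl TD2 1 [77] [0] []) :=
  chkPq_sound eK_o60c _ (by decide +kernel)
noncomputable def eK_o61c : Pq := (Pq.cons (Pq.L [] 63 (Pf.C 0 0xc14203))
 (Pq.cons (Pq.L [] 32767 (Pf.C 1 0x4070c14203))
 (Pq.cons (Pq.L [] 1 (Pf.C 26 515))
 (Pq.cons (Pq.L [0] 7 (Pf.C 0 82435))
 (Pq.cons (Pq.L [2] 7 (Pf.C 0 0x414203))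
 (Pq.cons (Pq.L [0] 7 (Pf.C 0 0xa10003))
 (Pq.cons (Pq.L [2] 7 (Pf.C 0 0xa10103))
 (Pq.cons (Pq.L [] 7 (Pf.C 11 82435))
 (Pq.cons (Pq.L [] 7 (Pf.C 13 82435))
 (Pq.cons (Pq.L [] 7 (Pf.C 15 82435))
 (Pq.cons (Pq.L [] 7 (Pf.C 17 82435))
 (Pq.cons (Pq.L [2] 3 (Pf.B 4 3 (Pf.C 0 0x614104) (Pf.W 31 0 [] [2,3,4,5] (Pf.cons (Pf.B 6 5 (Pf.B 6 4 (Pf.C 15 98948) (Pf.B 6 3 (Pf.C 15 98947) (Pf.C 0 0x410186))) (Pf.B 6 4 (Pf.B 6 3 (Pf.C 15 98819) (Pf.C 0 0x414186)) (Pf.C 0 0x414206))) Pf.nil))))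
 (Pq.cons (Pq.L [0] 3 (Pf.B 4 3 (Pf.C 0 0x614004) (Pf.W 51 0 [] [0,3,4,5] (Pf.cons (Pf.B 6 5 (Pf.B 6 4 (Pf.C 17 82438) (Pf.B 6 3 (Pf.C 17 82310) (Pf.C 0 65926))) (Pf.B 6 4 (Pf.B 6 3 (Pf.C 17 65926) (Pf.C 0 82310)) (Pf.C 0 82438))) Pf.nil))))
 (Pq.cons (Pq.L [0,1] 63 (Pf.C 1 0x3050804003))
 (Pq.cons (Pq.L [1,2] 63 (Pf.C 1 0x3050808083))
 (Pq.cons (Pq.L [0,1] 63 (Pf.C 1 0x3000214203))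
 (Pq.cons (Pq.L [1,2] 63 (Pf.C 1 0x3020214203))
 (Pq.cons (Pq.L [1] 1023 (Pf.C 1 0x3860a10181))
 Pq.nil))))))))))))))))))
theorem eK_o61 : AllRef eK_T eK_G59 (applyObl e5_T 18 [33,29,31] [1,2,3] []) :=
  chkPq_sound eK_o61c _ (by decide +kernel)
noncomputable def eK_o62c : Pq := (Pq.cons (Pq.L [] 0 (Pf.C 58 3))
 Pq.nil)
theorem eK_o62 : AllRef eK_T eK_G76 (List.map pat1 [29]) :=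
  chkPq_sound eK_o62c _ (by decide +kernel)
noncomputable def eK_o63c : Pq := (Pq.cons (Pq.L [] 63 (Pf.C 0 0xc14203))
 (Pq.cons (Pq.L [] 32767 (Pf.C 1 0x4070c14203))
 (Pq.cons (Pq.L [] 1 (Pf.C 26 515))
 (Pq.cons (Pq.L [0] 7 (Pf.C 0 82435))
 (Pq.cons (Pq.L [1] 7 (Pf.C 0 0x214203))
 (Pq.cons (Pq.L [0] 7 (Pf.C 0 0xa10003))
 (Pq.cons (Pq.L [1] 7 (Pf.C 0 0xa10083))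
 (Pq.cons (Pq.L [] 7 (Pf.C 12 82435))
 (Pq.cons (Pq.L [] 7 (Pf.C 13 82435))
 (Pq.cons (Pq.L [] 7 (Pf.C 18 82435))
 (Pq.cons (Pq.L [] 7 (Pf.C 19 82435))
 (Pq.cons (Pq.L [1] 3 (Pf.B 4 3 (Pf.C 0 0x614084) (Pf.W 31 0 [] [1,3,4,5] (Pf.cons (Pf.B 6 5 (Pf.B 6 4 (Pf.C 18 98948) (Pf.B 6 3 (Pf.C 18 98947) (Pf.C 0 0x210186))) (Pf.B 6 4 (Pf.B 6 3 (Pf.C 18 98819) (Pf.C 0 0x214186)) (Pf.C 0 0x214206))) Pf.nil))))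
 (Pq.cons (Pq.L [0] 3 (Pf.B 4 3 (Pf.C 0 0x614004) (Pf.W 49 0 [] [0,3,4,5] (Pf.cons (Pf.B 6 5 (Pf.B 6 4 (Pf.C 19 82438) (Pf.B 6 3 (Pf.C 19 82310) (Pf.C 0 65926))) (Pf.B 6 4 (Pf.B 6 3 (Pf.C 19 65926) (Pf.C 0 82310)) (Pf.C 0 82438))) Pf.nil))))
 (Pq.cons (Pq.L [0,2] 63 (Pf.C 1 0x3050808003))
 (Pq.cons (Pq.L [1,2] 63 (Pf.C 1 0x3050808083))
 (Pq.cons (Pq.L [0,2] 63 (Pf.C 1 0x3000414203))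
 (Pq.cons (Pq.L [1,2] 63 (Pf.C 1 0x3010414203))
 (Pq.cons (Pq.L [2] 1023 (Pf.C 1 0x3860a10182))
 Pq.nil))))))))))))))))))
theorem eK_o63 : AllRef eK_T eK_G78 (applyObl e5_T 18 [33,30,31] [1,2,3] []) :=
  chkPq_sound eK_o63c _ (by decide +kernel)
noncomputable def eK_o64c : Pq := (Pq.cons (Pq.L [2] 1 (Pf.W 60 3 [] [2,4] (Pf.cons (Pf.B 6 4 (Pf.C 11 98692) (Pf.C 0 0x40c304)) Pf.nil)))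
 (Pq.cons (Pq.L [1] 1 (Pf.W 62 3 [] [1,4] (Pf.cons (Pf.B 6 4 (Pf.C 12 98692) (Pf.C 0 0x20c304)) Pf.nil)))
 (Pq.cons (Pq.L [0] 1 (Pf.W 64 3 [] [0,4] (Pf.cons (Pf.B 6 4 (Pf.C 13 98692) (Pf.C 0 49924)) Pf.nil)))
 (Pq.cons (Pq.L [] 1 (Pf.C 61 388))
 (Pq.cons (Pq.L [1] 3 (Pf.W 62 3 [] [1,4,5] (Pf.cons (Pf.B 6 5 (Pf.C 16 49925) (Pf.B 6 4 (Pf.T 6 25 (Pf.cons (Pf.W 31 0 [] [1,3,4,5,6] (Pf.cons (Pf.B 7 6 (Pf.B 7 4 (Pf.C 21 0x1c304) (Pf.B 7 3 (Pf.C 18 0x1c303) (Pf.C 23 0xe10303))) (Pf.B 7 5 (Pf.B 7 3 (Pf.C 21 0x1c185) (Pf.C 0 0x218187)) (Pf.C 23 0xe14186))) Pf.nil)) (Pf.cons (Pf.C 63 390) Pf.nil))) (Pf.C 0 0x20c304))) Pf.nil)))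
 (Pq.cons (Pq.L [0] 3 (Pf.W 64 3 [] [0,4,5] (Pf.cons (Pf.B 6 5 (Pf.C 17 49925) (Pf.B 6 4 (Pf.T 6 26 (Pf.cons (Pf.W 49 0 [] [0,3,4,5,6] (Pf.cons (Pf.B 7 6 (Pf.B 7 4 (Pf.C 21 99204) (Pf.B 7 3 (Pf.C 19 98695) (Pf.C 24 0xe10303))) (Pf.B 7 5 (Pf.B 7 3 (Pf.C 21 50053) (Pf.C 0 98695)) (Pf.C 24 0xe14186))) Pf.nil)) (Pf.cons (Pf.C 65 390) Pf.nil))) (Pf.C 0 49924))) Pf.nil)))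
 (Pq.cons (Pq.L [2] 3 (Pf.W 60 3 [] [2,4,5] (Pf.cons (Pf.B 6 5 (Pf.C 14 82310) (Pf.B 6 4 (Pf.T 6 24 (Pf.cons (Pf.W 31 0 [] [2,3,4,5,6] (Pf.cons (Pf.B 7 6 (Pf.B 7 4 (Pf.C 21 0x1c206) (Pf.B 7 3 (Pf.C 15 0x1c303) (Pf.C 22 0xe10303))) (Pf.B 7 5 (Pf.B 7 3 (Pf.C 21 0x1c283) (Pf.C 0 0x418187)) (Pf.C 22 0xe14186))) Pf.nil)) (Pf.cons (Pf.C 61 390) Pf.nil))) (Pf.C 0 0x40c304))) Pf.nil)))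
 (Pq.cons (Pq.L [] 1 (Pf.C 63 388))
 (Pq.cons (Pq.L [0] 3 (Pf.W 64 3 [] [0,4,5] (Pf.cons (Pf.B 6 5 (Pf.C 19 49925) (Pf.B 6 4 (Pf.T 6 26 (Pf.cons (Pf.W 59 0 [] [0,3,4,5,6] (Pf.cons (Pf.B 7 6 (Pf.B 7 4 (Pf.C 21 98823) (Pf.B 7 3 (Pf.C 17 98695) (Pf.C 24 0x81c303))) (Pf.B 7 5 (Pf.B 7 3 (Pf.C 21 49799) (Pf.C 0 98695)) (Pf.C 24 0xa1c186))) Pf.nil)) (Pf.cons (Pf.C 65 390) Pf.nil))) (Pf.C 0 49924))) Pf.nil)))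
 (Pq.cons (Pq.L [2] 3 (Pf.W 60 3 [] [2,4,5] (Pf.cons (Pf.B 6 5 (Pf.C 15 82310) (Pf.B 6 4 (Pf.T 6 24 (Pf.cons (Pf.W 49 0 [] [2,3,4,5,6] (Pf.cons (Pf.B 7 6 (Pf.B 7 4 (Pf.C 21 66438) (Pf.B 7 3 (Pf.C 14 0x1c303) (Pf.C 22 0x81c303))) (Pf.B 7 5 (Pf.B 7 3 (Pf.C 21 82819) (Pf.C 0 0x418187)) (Pf.C 22 0xa1c186))) Pf.nil)) (Pf.cons (Pf.C 61 390) Pf.nil))) (Pf.C 0 0x40c304))) Pf.nil)))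
 (Pq.cons (Pq.L [1] 3 (Pf.W 62 3 [] [1,4,5] (Pf.cons (Pf.B 6 5 (Pf.C 18 82310) (Pf.B 6 4 (Pf.T 6 25 (Pf.cons (Pf.W 59 0 [] [1,3,4,5,6] (Pf.cons (Pf.B 7 6 (Pf.B 7 4 (Pf.C 21 66311) (Pf.B 7 3 (Pf.C 16 98695) (Pf.C 23 0x81c303))) (Pf.B 7 5 (Pf.B 7 3 (Pf.C 21 82311) (Pf.C 0 0x218187)) (Pf.C 23 0xa1c186))) Pf.nil)) (Pf.cons (Pf.C 63 390) Pf.nil))) (Pf.C 0 0x20c304))) Pf.nil)))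
 (Pq.cons (Pq.L [] 1 (Pf.C 65 388))
 Pq.nil))))))))))))
theorem eK_o64 : AllRef eK_T eK_G81 (splitObl [33,98,100,102] [97,99,101]) :=
  chkPq_sound eK_o64c _ (by decide +kernel)
noncomputable def eK_o65c : Pq := (Pq.cons (Pq.L [] 63 (Pf.C 0 0xc14203))
 (Pq.cons (Pq.L [] 32767 (Pf.C 1 0x4070c14203))
 (Pq.cons (Pq.L [] 1 (Pf.C 26 515))
 (Pq.cons (Pq.L [] 1 (Pf.C 61 515))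
 (Pq.cons (Pq.L [] 1 (Pf.C 63 515))
 (Pq.cons (Pq.L [] 1 (Pf.C 65 515))
 (Pq.cons (Pq.L [] 7 (Pf.C 21 82435))
 (Pq.cons (Pq.L [0,1] 63 (Pf.C 1 0x3050804003))
 (Pq.cons (Pq.L [0,2] 63 (Pf.C 1 0x3050808003))
 (Pq.cons (Pq.L [1,2] 63 (Pf.C 1 0x3050808083))
 (Pq.cons (Pq.L [0,1] 63 (Pf.C 1 0x3000214203))
 (Pq.cons (Pq.L [0,2] 63 (Pf.C 1 0x3000414203))
 (Pq.cons (Pq.L [0,1] 63 (Pf.C 1 0x3010014203))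
 (Pq.cons (Pq.L [1,2] 63 (Pf.C 1 0x3010414203))
 (Pq.cons (Pq.L [0,2] 63 (Pf.C 1 0x3020014203))
 (Pq.cons (Pq.L [1,2] 63 (Pf.C 1 0x3020214203))
 (Pq.cons (Pq.L [0] 1023 (Pf.C 1 0x3860a10180))
 (Pq.cons (Pq.L [1] 1023 (Pf.C 1 0x3860a10181))
 (Pq.cons (Pq.L [2] 1023 (Pf.C 1 0x3860a10182))
 (Pq.cons (Pq.L [1] 1023 (Pf.C 1 0x3860a10083))
 Pq.nil))))))))))))))))))))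
theorem eK_o65 : AllRef eK_T eK_G81 (applyObl e3_T 20 [33,98,100,102] [1,2,3,4] []) :=
  chkPq_sound eK_o65c _ (by decide +kernel)
noncomputable def eK_o66c : Pq := (Pq.cons (Pq.L [1,2] 3 (Pf.B 5 4 (Pf.W 60 4 [] [1,2,3,5] (Pf.cons (Pf.B 6 5 (Pf.B 6 3 (Pf.T 6 24 (Pf.cons (Pf.W 60 5 [] [1,2,3,4,6] (Pf.cons (Pf.B 7 6 (Pf.B 7 4 (Pf.B 7 3 (Pf.C 14 49799) (Pf.T 7 24 (Pf.cons (Pf.W 62 3 [] [1,2,4,5,6,7] (Pf.cons (Pf.B 8 7 (Pf.B 8 6 (Pf.C 16 50182) (Pf.B 8 5 (Pf.C 14 0x20385) (Pf.B 8 4 (Pf.T 8 25 (Pf.cons (Pf.W 31 0 [] [1,3,4,5,7,8] (Pf.cons (Pf.B 9 8 (Pf.B 9 7 (Pf.C 21 0x24407) (Pf.B 9 4 (Pf.C 21 0x24404) (Pf.B 9 3 (Pf.C 18 0x24403) (Pf.C 0 0xe0c484)))) (Pf.B 9 5 (Pf.B 9 3 (Pf.C 21 0x24185) (Pf.C 0 0x220189))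 (Pf.C 22 0x1220385))) Pf.nil)) (Pf.cons (Pf.C 63 392) Pf.nil))) (Pf.C 0 0x418208)))) (Pf.C 0 0x20c407)) Pf.nil)) (Pf.cons (Pf.C 61 647) Pf.nil)))) (Pf.C 0 0xc08207)) (Pf.C 0 0xa08386)) Pf.nil)) (Pf.cons (Pf.C 61 518) Pf.nil))) (Pf.C 0 0x410303)) (Pf.C 0 0x808305)) Pf.nil)) (Pf.W 62 3 [] [1,2,4,5] (Pf.cons (Pf.B 6 5 (Pf.C 16 49925) (Pf.B 6 4 (Pf.T 6 25 (Pf.cons (Pf.W 31 0 [] [1,3,4,5,6] (Pf.cons (Pf.B 7 6 (Pf.B 7 4 (Pf.C 21 0x1c304) (Pf.B 7 3 (Pf.C 18 0x1c303) (Pf.C 22 0xe0c284))) (Pf.B 7 5 (Pf.B 7 3 (Pf.C 21 0x1c185) (Pf.C 0 0x218187)) (Pf.C 22 0xe18205))) Pf.nil)) (Pf.cons (Pf.C 63 390) Pf.nil))) (Pf.C 0 0x414206))) Pf.nil))))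
 (Pq.cons (Pq.L [0,2] 3 (Pf.B 5 4 (Pf.W 60 4 [] [0,2,3,5] (Pf.cons (Pf.B 6 5 (Pf.B 6 3 (Pf.T 6 24 (Pf.cons (Pf.W 60 5 [] [0,2,3,4,6] (Pf.cons (Pf.B 7 6 (Pf.B 7 4 (Pf.B 7 3 (Pf.C 15 49799) (Pf.T 7 24 (Pf.cons (Pf.W 64 3 [] [0,2,4,5,6,7] (Pf.cons (Pf.B 8 7 (Pf.B 8 6 (Pf.C 17 50182) (Pf.B 8 5 (Pf.C 15 0x20385) (Pf.B 8 4 (Pf.T 8 26 (Pf.cons (Pf.W 49 0 [] [0,3,4,5,7,8] (Pf.cons (Pf.B 9 8 (Pf.B 9 7 (Pf.C 21 0x20487) (Pf.B 9 4 (Pf.C 21 0x20484) (Pf.B 9 3 (Pf.C 19 0x20189) (Pf.C 0 0xe0c484)))) (Pf.B 9 5 (Pf.B 9 3 (Pf.C 21 50309) (Pf.C 0 0x20189)) (Pf.C 22 0x1024385))) Pf.nil)) (Pf.cons (Pf.C 65 392) Pf.nil))) (Pf.C 0 0x418208)))) (Pf.C 0 50183)) Pf.nil)) (Pf.cons (Pf.C 61 647) Pf.nil)))) (Pf.C 0 0xc08207))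 (Pf.C 0 0xa08386)) Pf.nil)) (Pf.cons (Pf.C 61 518) Pf.nil))) (Pf.C 0 0x410303)) (Pf.C 0 0x808305)) Pf.nil)) (Pf.W 64 3 [] [0,2,4,5] (Pf.cons (Pf.B 6 5 (Pf.C 17 49925) (Pf.B 6 4 (Pf.T 6 26 (Pf.cons (Pf.W 49 0 [] [0,3,4,5,6] (Pf.cons (Pf.B 7 6 (Pf.B 7 4 (Pf.C 21 99204) (Pf.B 7 3 (Pf.C 19 98695) (Pf.C 22 0x61c284))) (Pf.B 7 5 (Pf.B 7 3 (Pf.C 21 50053) (Pf.C 0 98695)) (Pf.C 22 0xc1c205))) Pf.nil)) (Pf.cons (Pf.C 65 390) Pf.nil))) (Pf.C 0 0x414206))) Pf.nil))))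
 Pq.nil))
theorem eK_o66 : AllRef eK_T eK_G81 (splitObl [97] [99,101]) :=
  chkPq_sound eK_o66c _ (by decide +kernel)
noncomputable def eK_o67c : Pq := (Pq.cons (Pq.L [2] 7 (Pf.B 6 5 (Pf.C 0 0xa0c106) (Pf.B 6 4 (Pf.C 0 0x80c106) (Pf.B 5 4 (Pf.C 0 0x80c105) (Pf.W 31 0 [] [2,4,5,6] (Pf.cons (Pf.B 7 6 (Pf.B 7 5 (Pf.C 15 0x1c305) (Pf.B 7 4 (Pf.C 15 0x1c304) (Pf.C 0 0x414207))) (Pf.B 7 5 (Pf.B 7 4 (Pf.C 15 0x1c284) (Pf.C 0 0x418207)) (Pf.C 0 0x418287))) Pf.nil))))))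
 Pq.nil)
theorem eK_o67 : AllRef eK_T eK_G81 (applyObl TD2 1 [97] [0] []) :=
  chkPq_sound eK_o67c _ (by decide +kernel)
noncomputable def eK_o68c : Pq := (Pq.cons (Pq.L [0,1] 3 (Pf.B 5 4 (Pf.W 62 4 [] [0,1,3,5] (Pf.cons (Pf.B 6 5 (Pf.B 6 3 (Pf.T 6 25 (Pf.cons (Pf.W 62 5 [] [0,1,3,4,6] (Pf.cons (Pf.B 7 6 (Pf.B 7 4 (Pf.B 7 3 (Pf.C 18 49799) (Pf.T 7 25 (Pf.cons (Pf.W 64 3 [] [0,1,4,5,6,7] (Pf.cons (Pf.B 8 7 (Pf.B 8 6 (Pf.C 19 50182) (Pf.B 8 5 (Pf.C 18 0x20385) (Pf.B 8 4 (Pf.T 8 26 (Pf.cons (Pf.W 59 0 [] [0,3,4,5,7,8] (Pf.cons (Pf.B 9 8 (Pf.B 9 7 (Pf.C 21 0x20389) (Pf.B 9 4 (Pf.C 21 0x20209) (Pf.B 9 3 (Pf.C 17 0x20189) (Pf.C 0 0xe0c484)))) (Pf.B 9 5 (Pf.B 9 3 (Pf.C 21 49801) (Pf.C 0 0x20189)) (Pf.C 23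 0x1024385))) Pf.nil)) (Pf.cons (Pf.C 65 392) Pf.nil))) (Pf.C 0 0x218208)))) (Pf.C 0 50183)) Pf.nil)) (Pf.cons (Pf.C 63 647) Pf.nil)))) (Pf.C 0 0xc04207)) (Pf.C 0 0xa04386)) Pf.nil)) (Pf.cons (Pf.C 63 518) Pf.nil))) (Pf.C 0 0x210303)) (Pf.C 0 0x804305)) Pf.nil)) (Pf.W 64 3 [] [0,1,4,5] (Pf.cons (Pf.B 6 5 (Pf.C 19 49925) (Pf.B 6 4 (Pf.T 6 26 (Pf.cons (Pf.W 59 0 [] [0,3,4,5,6] (Pf.cons (Pf.B 7 6 (Pf.B 7 4 (Pf.C 21 98823) (Pf.B 7 3 (Pf.C 17 98695) (Pf.C 23 0x61c284))) (Pf.B 7 5 (Pf.B 7 3 (Pf.C 21 49799) (Pf.C 0 98695)) (Pf.C 23 0xc1c205))) Pf.nil)) (Pf.cons (Pf.C 65 390) Pf.nil))) (Pf.C 0 0x214206))) Pf.nil))))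
 Pq.nil)
theorem eK_o68 : AllRef eK_T eK_G81 (splitObl [99] [101]) :=
  chkPq_sound eK_o68c _ (by decide +kernel)
noncomputable def eK_o69c : Pq := (Pq.cons (Pq.L [1] 7 (Pf.B 6 5 (Pf.C 0 0xa0c086) (Pf.B 6 4 (Pf.C 0 0x80c086) (Pf.B 5 4 (Pf.C 0 0x80c085) (Pf.W 31 0 [] [1,4,5,6] (Pf.cons (Pf.B 7 6 (Pf.B 7 5 (Pf.C 18 0x1c305) (Pf.B 7 4 (Pf.C 18 0x1c304) (Pf.C 0 0x214207))) (Pf.B 7 5 (Pf.B 7 4 (Pf.C 18 0x1c284) (Pf.C 0 0x218207)) (Pf.C 0 0x218287))) Pf.nil))))))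
 Pq.nil)
theorem eK_o69 : AllRef eK_T eK_G81 (applyObl TD2 1 [99] [0] []) :=
  chkPq_sound eK_o69c _ (by decide +kernel)
noncomputable def eK_o70c : Pq := (Pq.cons (Pq.L [0] 7 (Pf.B 6 5 (Pf.C 0 0xa0c006) (Pf.B 6 4 (Pf.C 0 0x80c006) (Pf.B 5 4 (Pf.C 0 0x80c005) (Pf.W 49 0 [] [0,4,5,6] (Pf.cons (Pf.B 7 6 (Pf.B 7 5 (Pf.C 19 98951) (Pf.B 7 4 (Pf.C 19 98823) (Pf.C 0 82439))) (Pf.B 7 5 (Pf.B 7 4 (Pf.C 19 82439) (Pf.C 0 98823)) (Pf.C 0 98951))) Pf.nil))))))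
 Pq.nil)
theorem eK_o70 : AllRef eK_T eK_G81 (applyObl TD2 1 [101] [0] []) :=
  chkPq_sound eK_o70c _ (by decide +kernel)
noncomputable def eK_o71c : Pq := Pq.nil
theorem eK_o71 : AllRef eK_T eK_G15 (twinObl [32] 0 [1]) :=
  chkPq_sound eK_o71c _ (by decide +kernel)
noncomputable def eK_o72c : Pq := Pq.nil
theorem eK_o72 : AllRef eK_T eK_G82 (blockObl [103] [1] [1] [1]) :=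
  chkPq_sound eK_o72c _ (by decide +kernel)
noncomputable def eK_o73c : Pq := Pq.nil
theorem eK_o73 : AllRef eK_T eK_G84 (extObl 107 [] []) :=
  chkPq_sound eK_o73c _ (by decide +kernel)
noncomputable def eK_o74c : Pq := (Pq.cons (Pq.L [] 7 (Pf.W 66 515 [] [5] (Pf.cons (Pf.T 6 27 (Pf.cons (Pf.C 70 0xa0c304) (Pf.cons (Pf.C 67 518) Pf.nil))) (Pf.cons (Pf.T 6 27 (Pf.cons (Pf.C 70 0xa10303) (Pf.cons (Pf.C 67 390) Pf.nil))) Pf.nil))))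
 (Pq.cons (Pq.L [] 63 (Pf.W 68 3 [] [4,5,6] (Pf.cons (Pf.B 7 6 (Pf.B 7 5 (Pf.T 7 28 (Pf.cons (Pf.C 70 0xc14187) Pf.nil)) (Pf.B 7 4 (Pf.T 7 28 (Pf.cons (Pf.C 70 0xc10187) Pf.nil)) (Pf.C 0 0x614207))) (Pf.B 7 5 (Pf.B 7 4 (Pf.T 7 28 (Pf.cons (Pf.C 70 0xa10187) Pf.nil)) (Pf.C 0 0x618207)) (Pf.C 0 0x618287))) Pf.nil)))
 Pq.nil))
theorem eK_o74 : AllRef eK_T eK_G85 (hitObl [108] eK_h114) :=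
  chkPq_sound eK_o74c _ (by decide +kernel)
noncomputable def eK_o75c : Pq := (Pq.cons (Pq.L [] 0 (Pf.C 71 3))
 Pq.nil)
theorem eK_o75 : AllRef eK_T eK_G87 (List.map pat1 [110]) :=
  chkPq_sound eK_o75c _ (by decide +kernel)
noncomputable def eK_o76c : Pq := Pq.nil
theorem eK_o76 : AllRef eK_T eK_G86 (ptObl 107 PT.kid []) :=
  chkPq_sound eK_o76c _ (by decide +kernel)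
noncomputable def eK_o77c : Pq := Pq.nil
theorem eK_o77 : AllRef eK_T eK_G89 (ptObl 111 (PT.br 3 PT.kid PT.kid) []) :=
  chkPq_sound eK_o77c _ (by decide +kernel)
noncomputable def eK_o78c : Pq := Pq.nil
theorem eK_o78 : AllRef eK_T eK_G90 (ptObl 108 (PT.br 3 PT.kid PT.kid) []) :=
  chkPq_sound eK_o78c _ (by decide +kernel)
noncomputable def eK_o79c : Pq := (Pq.cons (Pq.L [0,1,3] 0 (Pf.W 69 3 [] [0,1,4] (Pf.cons (Pf.B 5 4 (Pf.T 5 28 (Pf.cons (Pf.T 5 29 (Pf.cons (Pf.T 5 30 (Pf.cons (Pf.C 73 644) Pf.nil)) Pf.nil)) (Pf.cons (Pf.T 5 31 (Pf.cons (Pf.C 73 644) Pf.nil)) Pf.nil))) (Pf.T 5 28 (Pf.cons (Pf.T 5 29 (Pf.cons (Pf.T 5 30 (Pf.cons (Pf.W 69 3 [5] [0,1,4] (Pf.cons (Pf.B 6 5 (Pf.B 6 4 (Pf.C 1 0x2840604006)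 (Pf.T 6 28 (Pf.cons (Pf.T 6 29 (Pf.cons (Pf.T 6 30 (Pf.cons (Pf.W 69 3 [5,6] [0,1,4] (Pf.cons (Pf.B 7 6 (Pf.B 7 4 (Pf.C 1 0x3040604007) (Pf.B 7 5 (Pf.T 7 28 (Pf.cons (Pf.T 7 29 (Pf.cons (Pf.T 7 30 (Pf.cons (Pf.W 69 4 [] [0,1,3,5,6,7] (Pf.cons (Pf.B 8 7 (Pf.B 8 6 (Pf.C 1 0x3840c04008) (Pf.B 8 5 (Pf.C 1 0x3840a04008) (Pf.C 1 0x3080a04007))) (Pf.B 8 6 (Pf.B 8 5 (Pf.C 1 0x3040a04008) (Pf.C 1 0x3880a04006)) (Pf.B 8 5 (Pf.C 1 0x3880c04005) (Pf.B 8 3 (Pf.C 1 0x3080a04003) (Pf.W 66 643 [] [0,1,4,6,7,8] (Pf.cons (Pf.B 9 7 (Pf.B 9 8 (Pf.C 1 0x3880a04009) (Pf.B 9 6 (Pf.B 9 4 (Pf.C 1 0x3040a04009) (Pf.C 0 0x100c484)) (Pf.C 0 0x620486))) (Pf.C 1 0x1890e04005)) (Pf.cons (Pf.B 9 7 (Pf.B 9 8 (Pf.C 1 0x3880604009)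 (Pf.B 9 6 (Pf.B 9 4 (Pf.C 1 0x3040604009) (Pf.C 0 0x1014484)) (Pf.C 0 0xa20486))) (Pf.C 1 0x2890e04003)) Pf.nil))))))) Pf.nil)) Pf.nil)) Pf.nil)) (Pf.cons (Pf.C 70 0xc14187) Pf.nil))) (Pf.T 7 28 (Pf.cons (Pf.T 7 29 (Pf.cons (Pf.T 7 30 (Pf.cons (Pf.W 69 4 [] [0,1,3,5,6,7] (Pf.cons (Pf.B 8 7 (Pf.B 8 6 (Pf.C 1 0x3840c04008) (Pf.B 8 3 (Pf.C 1 0x3840604008) (Pf.C 1 0x3080604007))) (Pf.B 8 5 (Pf.B 8 6 (Pf.C 1 0x2840c04008) (Pf.B 8 3 (Pf.C 1 0x2840604008) (Pf.C 1 0x3080604005))) (Pf.C 0 0x81c288))) Pf.nil)) Pf.nil)) Pf.nil)) (Pf.cons (Pf.T 7 31 (Pf.cons (Pf.W 69 4 [] [0,1,3,5,6,7] (Pf.cons (Pf.B 8 7 (Pf.C 70 0xc0c407) (Pf.B 8 5 (Pf.B 8 6 (Pf.C 1 0x2840c04008) (Pf.B 8 3 (Pf.C 1 0x2840604008) (Pf.C 1 0x3080604005)))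 (Pf.C 0 0x81c288))) Pf.nil)) Pf.nil)) Pf.nil))))) (Pf.B 7 5 (Pf.B 7 4 (Pf.C 1 0x2840604007) (Pf.T 7 28 (Pf.cons (Pf.T 7 29 (Pf.cons (Pf.T 7 30 (Pf.cons (Pf.W 69 4 [] [0,1,3,5,6,7] (Pf.cons (Pf.B 8 7 (Pf.B 8 5 (Pf.C 1 0x3840a04008) (Pf.B 8 3 (Pf.C 1 0x3840604008) (Pf.C 1 0x2880604007))) (Pf.B 8 6 (Pf.B 8 5 (Pf.C 1 0x3040a04008) (Pf.B 8 3 (Pf.C 1 0x3040604008) (Pf.C 1 0x2880604006))) (Pf.C 0 0x81c308))) Pf.nil)) Pf.nil)) Pf.nil)) (Pf.cons (Pf.T 7 31 (Pf.cons (Pf.W 69 4 [] [0,1,3,5,6,7] (Pf.cons (Pf.B 8 7 (Pf.C 70 0xa0c407) (Pf.B 8 6 (Pf.B 8 5 (Pf.C 1 0x3040a04008) (Pf.B 8 3 (Pf.C 1 0x3040604008) (Pf.C 1 0x2880604006))) (Pf.C 0 0x81c308))) Pf.nil)) Pf.nil)) Pf.nil)))) (Pf.C 1 0x3070a04003))) Pf.nil))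 Pf.nil)) Pf.nil)) (Pf.cons (Pf.T 6 31 (Pf.cons (Pf.W 69 3 [5,6] [0,1,4] (Pf.cons (Pf.B 7 6 (Pf.C 70 0xa0c386) (Pf.B 7 5 (Pf.B 7 4 (Pf.C 1 0x2840604007) (Pf.W 69 4 [] [0,1,3,5,6,7] (Pf.cons (Pf.B 8 6 (Pf.C 70 0xa0c406) (Pf.B 8 7 (Pf.B 8 5 (Pf.C 1 0x3840a04008) (Pf.B 8 3 (Pf.C 1 0x3840604008) (Pf.C 1 0x2880604007))) (Pf.C 0 0x818388))) Pf.nil))) (Pf.C 1 0x3070a04003))) Pf.nil)) Pf.nil)) Pf.nil)))) (Pf.B 6 4 (Pf.T 6 28 (Pf.cons (Pf.T 6 29 (Pf.cons (Pf.T 6 30 (Pf.cons (Pf.C 73 772) Pf.nil)) Pf.nil)) (Pf.cons (Pf.T 6 31 (Pf.cons (Pf.C 73 772) Pf.nil)) Pf.nil))) (Pf.T 6 28 (Pf.cons (Pf.T 6 29 (Pf.cons (Pf.T 6 30 (Pf.cons (Pf.W 69 3 [5,6] [0,1,4] (Pf.cons (Pf.B 7 6 (Pf.B 7 5 (Pf.B 7 4 (Pf.C 1 0x2840604007)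 (Pf.T 7 28 (Pf.cons (Pf.T 7 29 (Pf.cons (Pf.T 7 30 (Pf.cons (Pf.W 69 4 [] [0,1,3,5,6,7] (Pf.cons (Pf.B 8 7 (Pf.B 8 6 (Pf.C 1 0x3840c04008) (Pf.B 8 5 (Pf.C 1 0x3840a04008) (Pf.C 0 0x818288))) (Pf.B 8 6 (Pf.B 8 3 (Pf.C 1 0x3040604008) (Pf.C 1 0x3880604006)) (Pf.B 8 5 (Pf.B 8 3 (Pf.C 1 0x2840604008) (Pf.C 1 0x3880604005)) (Pf.C 0 0x818288)))) Pf.nil)) Pf.nil)) Pf.nil)) (Pf.cons (Pf.C 70 0xc14187) Pf.nil)))) (Pf.C 1 0x3050e04003)) (Pf.B 7 5 (Pf.C 1 0x2860e04003) (Pf.B 7 4 (Pf.C 0 0x818287) (Pf.T 7 28 (Pf.cons (Pf.T 7 29 (Pf.cons (Pf.T 7 30 (Pf.cons (Pf.W 69 4 [] [0,1,3,5,6,7] (Pf.cons (Pf.B 8 7 (Pf.B 8 3 (Pf.C 1 0x3840604008) (Pf.B 8 6 (Pf.T 8 28 (Pf.cons (Pf.T 8 29 (Pf.cons (Pf.T 8 30 (Pf.cons (Pf.T 8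 32 (Pf.cons (Pf.C 76 1028) (Pf.cons (Pf.C 73 776) Pf.nil))) Pf.nil)) Pf.nil)) (Pf.cons (Pf.C 70 0xe18208) Pf.nil))) (Pf.B 8 5 (Pf.T 8 28 (Pf.cons (Pf.T 8 29 (Pf.cons (Pf.T 8 30 (Pf.cons (Pf.T 8 32 (Pf.cons (Pf.C 76 1028) (Pf.cons (Pf.C 73 648) Pf.nil))) Pf.nil)) Pf.nil)) (Pf.cons (Pf.C 70 0xe14208) Pf.nil))) (Pf.C 0 0x818288)))) (Pf.B 8 6 (Pf.B 8 5 (Pf.B 8 3 (Pf.C 1 0x2840604008) (Pf.T 8 28 (Pf.cons (Pf.T 8 29 (Pf.cons (Pf.T 8 30 (Pf.cons (Pf.T 8 32 (Pf.cons (Pf.C 76 1028) (Pf.cons (Pf.C 73 648) Pf.nil))) Pf.nil)) Pf.nil)) (Pf.cons (Pf.C 70 0xc14208) Pf.nil)))) (Pf.C 0 0x81c288)) (Pf.C 0 0x81c308))) Pf.nil)) Pf.nil)) Pf.nil)) (Pf.cons (Pf.T 7 31 (Pf.cons (Pf.W 69 4 [] [0,1,3,5,6,7] (Pf.cons (Pf.B 8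 7 (Pf.B 8 3 (Pf.C 1 0x3840604008) (Pf.B 8 6 (Pf.T 8 28 (Pf.cons (Pf.T 8 29 (Pf.cons (Pf.T 8 30 (Pf.cons (Pf.T 8 32 (Pf.cons (Pf.C 76 1028) (Pf.cons (Pf.C 73 776) Pf.nil))) Pf.nil)) Pf.nil)) (Pf.cons (Pf.C 70 0xe18208) Pf.nil))) (Pf.B 8 5 (Pf.T 8 28 (Pf.cons (Pf.T 8 29 (Pf.cons (Pf.T 8 30 (Pf.cons (Pf.T 8 32 (Pf.cons (Pf.C 76 1028) (Pf.cons (Pf.C 73 648) Pf.nil))) Pf.nil)) Pf.nil)) (Pf.cons (Pf.C 70 0xe14208) Pf.nil))) (Pf.C 0 0x818288)))) (Pf.B 8 6 (Pf.B 8 5 (Pf.B 8 3 (Pf.C 1 0x2840604008) (Pf.T 8 28 (Pf.cons (Pf.T 8 29 (Pf.cons (Pf.T 8 30 (Pf.cons (Pf.T 8 32 (Pf.cons (Pf.C 76 1028) (Pf.cons (Pf.C 73 648) Pf.nil))) Pf.nil)) Pf.nil)) (Pf.cons (Pf.C 70 0xc14208) Pf.nil)))) (Pf.C 0 0x81c288)) (Pf.C 0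 0x81c308))) Pf.nil)) Pf.nil)) Pf.nil)))))) Pf.nil)) Pf.nil)) Pf.nil)) (Pf.cons (Pf.T 6 31 (Pf.cons (Pf.W 69 3 [5,6] [0,1,4] (Pf.cons (Pf.B 7 6 (Pf.B 7 5 (Pf.B 7 4 (Pf.C 1 0x2840604007) (Pf.T 7 28 (Pf.cons (Pf.T 7 29 (Pf.cons (Pf.T 7 30 (Pf.cons (Pf.W 69 4 [] [0,1,3,5,6,7] (Pf.cons (Pf.B 8 6 (Pf.C 70 0xe0c406) (Pf.B 8 5 (Pf.B 8 7 (Pf.C 1 0x2840e04008) (Pf.B 8 3 (Pf.C 1 0x2840604008) (Pf.C 1 0x3880604005))) (Pf.C 0 0x818288))) Pf.nil)) Pf.nil)) Pf.nil)) (Pf.cons (Pf.C 70 0xc14187) Pf.nil)))) (Pf.C 1 0x3050e04003)) (Pf.B 7 5 (Pf.C 1 0x2860e04003) (Pf.B 7 4 (Pf.C 0 0x818287) (Pf.T 7 28 (Pf.cons (Pf.T 7 29 (Pf.cons (Pf.T 7 30 (Pf.cons (Pf.W 69 4 [] [0,1,3,5,6,7] (Pf.cons (Pf.B 8 7 (Pf.B 8 3 (Pf.C 1 0x3840604008)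 (Pf.B 8 6 (Pf.T 8 28 (Pf.cons (Pf.T 8 29 (Pf.cons (Pf.T 8 30 (Pf.cons (Pf.T 8 32 (Pf.cons (Pf.C 76 1028) (Pf.cons (Pf.C 73 776) Pf.nil))) Pf.nil)) Pf.nil)) (Pf.cons (Pf.C 70 0xe18208) Pf.nil))) (Pf.B 8 5 (Pf.T 8 28 (Pf.cons (Pf.T 8 29 (Pf.cons (Pf.T 8 30 (Pf.cons (Pf.T 8 32 (Pf.cons (Pf.C 76 1028) (Pf.cons (Pf.C 73 648) Pf.nil))) Pf.nil)) Pf.nil)) (Pf.cons (Pf.C 70 0xe14208) Pf.nil))) (Pf.C 0 0x818288)))) (Pf.B 8 6 (Pf.B 8 5 (Pf.B 8 3 (Pf.C 1 0x2840604008) (Pf.T 8 28 (Pf.cons (Pf.T 8 29 (Pf.cons (Pf.T 8 30 (Pf.cons (Pf.T 8 32 (Pf.cons (Pf.C 76 1028) (Pf.cons (Pf.C 73 648) Pf.nil))) Pf.nil)) Pf.nil)) (Pf.cons (Pf.C 70 0xc14208) Pf.nil)))) (Pf.C 0 0x81c288)) (Pf.C 0 0x81c308))) Pf.nil)) Pf.nil)) Pf.nil))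 (Pf.cons (Pf.T 7 31 (Pf.cons (Pf.W 69 4 [] [0,1,3,5,6,7] (Pf.cons (Pf.B 8 7 (Pf.B 8 3 (Pf.C 1 0x3840604008) (Pf.B 8 6 (Pf.T 8 28 (Pf.cons (Pf.T 8 29 (Pf.cons (Pf.T 8 30 (Pf.cons (Pf.T 8 32 (Pf.cons (Pf.C 76 1028) (Pf.cons (Pf.C 73 776) Pf.nil))) Pf.nil)) Pf.nil)) (Pf.cons (Pf.C 70 0xe18208) Pf.nil))) (Pf.B 8 5 (Pf.T 8 28 (Pf.cons (Pf.T 8 29 (Pf.cons (Pf.T 8 30 (Pf.cons (Pf.T 8 32 (Pf.cons (Pf.C 76 1028) (Pf.cons (Pf.C 73 648) Pf.nil))) Pf.nil)) Pf.nil)) (Pf.cons (Pf.C 70 0xe14208) Pf.nil))) (Pf.C 0 0x818288)))) (Pf.B 8 6 (Pf.B 8 5 (Pf.B 8 3 (Pf.C 1 0x2840604008) (Pf.T 8 28 (Pf.cons (Pf.T 8 29 (Pf.cons (Pf.T 8 30 (Pf.cons (Pf.T 8 32 (Pf.cons (Pf.C 76 1028) (Pf.cons (Pf.C 73 648) Pf.nil))) Pf.nil)) Pf.nil))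 (Pf.cons (Pf.C 70 0xc14208) Pf.nil)))) (Pf.C 0 0x81c288)) (Pf.C 0 0x81c308))) Pf.nil)) Pf.nil)) Pf.nil)))))) Pf.nil)) Pf.nil)) Pf.nil))))) Pf.nil)) Pf.nil)) Pf.nil)) (Pf.cons (Pf.T 5 31 (Pf.cons (Pf.W 69 3 [5] [0,1,4] (Pf.cons (Pf.B 6 5 (Pf.B 6 4 (Pf.C 1 0x2840604006) (Pf.T 6 28 (Pf.cons (Pf.T 6 29 (Pf.cons (Pf.T 6 30 (Pf.cons (Pf.W 69 3 [5,6] [0,1,4] (Pf.cons (Pf.B 7 5 (Pf.C 70 0xc0c385) (Pf.B 7 6 (Pf.B 7 4 (Pf.C 1 0x3040604007) (Pf.W 69 4 [] [0,1,3,5,6,7] (Pf.cons (Pf.B 8 5 (Pf.C 70 0xc0c405) (Pf.B 8 7 (Pf.B 8 6 (Pf.C 1 0x3840c04008) (Pf.B 8 3 (Pf.C 1 0x3840604008) (Pf.C 1 0x3080604007))) (Pf.C 0 0x814388))) Pf.nil))) (Pf.C 1 0x2870c04003))) Pf.nil)) Pf.nil)) Pf.nil)) (Pf.cons (Pf.T 6 31 (Pf.cons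 (Pf.W 69 3 [5,6] [0,1] (Pf.cons (Pf.B 7 6 (Pf.C 70 0xa0c386) (Pf.B 7 5 (Pf.C 70 0xc0c385) (Pf.C 1 0x3070a04003))) Pf.nil)) Pf.nil)) Pf.nil)))) (Pf.B 6 4 (Pf.T 6 28 (Pf.cons (Pf.T 6 29 (Pf.cons (Pf.T 6 30 (Pf.cons (Pf.C 73 772) Pf.nil)) Pf.nil)) (Pf.cons (Pf.T 6 31 (Pf.cons (Pf.C 73 772) Pf.nil)) Pf.nil))) (Pf.T 6 28 (Pf.cons (Pf.T 6 29 (Pf.cons (Pf.T 6 30 (Pf.cons (Pf.W 69 3 [5,6] [0,1,4] (Pf.cons (Pf.B 7 6 (Pf.B 7 5 (Pf.B 7 4 (Pf.C 1 0x2840604007) (Pf.T 7 28 (Pf.cons (Pf.T 7 29 (Pf.cons (Pf.T 7 30 (Pf.cons (Pf.W 69 4 [] [0,1,3,5,6,7] (Pf.cons (Pf.B 8 5 (Pf.C 70 0xe0c405) (Pf.B 8 6 (Pf.B 8 7 (Pf.C 1 0x3040e04008) (Pf.B 8 3 (Pf.C 1 0x3040604008) (Pf.C 1 0x3880604006))) (Pf.C 0 0x814308))) Pf.nil)) Pf.nil))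 Pf.nil)) (Pf.cons (Pf.C 70 0xc14187) Pf.nil)))) (Pf.C 1 0x3050e04003)) (Pf.B 7 5 (Pf.C 1 0x2860e04003) (Pf.B 7 4 (Pf.C 0 0x818287) (Pf.T 7 28 (Pf.cons (Pf.T 7 29 (Pf.cons (Pf.T 7 30 (Pf.cons (Pf.W 69 4 [] [0,1,3,5,6,7] (Pf.cons (Pf.B 8 7 (Pf.B 8 3 (Pf.C 1 0x3840604008) (Pf.B 8 6 (Pf.T 8 28 (Pf.cons (Pf.T 8 29 (Pf.cons (Pf.T 8 30 (Pf.cons (Pf.T 8 32 (Pf.cons (Pf.C 76 1028) (Pf.cons (Pf.C 73 776) Pf.nil))) Pf.nil)) Pf.nil)) (Pf.cons (Pf.C 70 0xe18208) Pf.nil))) (Pf.B 8 5 (Pf.T 8 28 (Pf.cons (Pf.T 8 29 (Pf.cons (Pf.T 8 30 (Pf.cons (Pf.T 8 32 (Pf.cons (Pf.C 76 1028) (Pf.cons (Pf.C 73 648) Pf.nil))) Pf.nil)) Pf.nil)) (Pf.cons (Pf.C 70 0xe14208) Pf.nil))) (Pf.C 0 0x818288)))) (Pf.B 8 6 (Pf.B 8 5 (Pf.B 8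 3 (Pf.C 1 0x2840604008) (Pf.T 8 28 (Pf.cons (Pf.T 8 29 (Pf.cons (Pf.T 8 30 (Pf.cons (Pf.T 8 32 (Pf.cons (Pf.C 76 1028) (Pf.cons (Pf.C 73 648) Pf.nil))) Pf.nil)) Pf.nil)) (Pf.cons (Pf.C 70 0xc14208) Pf.nil)))) (Pf.C 0 0x81c288)) (Pf.C 0 0x81c308))) Pf.nil)) Pf.nil)) Pf.nil)) (Pf.cons (Pf.T 7 31 (Pf.cons (Pf.W 69 4 [] [0,1,3,5,6,7] (Pf.cons (Pf.B 8 7 (Pf.B 8 3 (Pf.C 1 0x3840604008) (Pf.B 8 6 (Pf.T 8 28 (Pf.cons (Pf.T 8 29 (Pf.cons (Pf.T 8 30 (Pf.cons (Pf.T 8 32 (Pf.cons (Pf.C 76 1028) (Pf.cons (Pf.C 73 776) Pf.nil))) Pf.nil)) Pf.nil)) (Pf.cons (Pf.C 70 0xe18208) Pf.nil))) (Pf.B 8 5 (Pf.T 8 28 (Pf.cons (Pf.T 8 29 (Pf.cons (Pf.T 8 30 (Pf.cons (Pf.T 8 32 (Pf.cons (Pf.C 76 1028) (Pf.cons (Pf.C 73 648) Pf.nil)))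 Pf.nil)) Pf.nil)) (Pf.cons (Pf.C 70 0xe14208) Pf.nil))) (Pf.C 0 0x818288)))) (Pf.B 8 6 (Pf.B 8 5 (Pf.B 8 3 (Pf.C 1 0x2840604008) (Pf.T 8 28 (Pf.cons (Pf.T 8 29 (Pf.cons (Pf.T 8 30 (Pf.cons (Pf.T 8 32 (Pf.cons (Pf.C 76 1028) (Pf.cons (Pf.C 73 648) Pf.nil))) Pf.nil)) Pf.nil)) (Pf.cons (Pf.C 70 0xc14208) Pf.nil)))) (Pf.C 0 0x81c288)) (Pf.C 0 0x81c308))) Pf.nil)) Pf.nil)) Pf.nil)))))) Pf.nil)) Pf.nil)) Pf.nil)) (Pf.cons (Pf.T 6 31 (Pf.cons (Pf.W 69 3 [5,6] [0,1,4] (Pf.cons (Pf.B 7 6 (Pf.B 7 5 (Pf.B 7 4 (Pf.C 1 0x2840604007) (Pf.T 7 28 (Pf.cons (Pf.T 7 29 (Pf.cons (Pf.T 7 30 (Pf.cons (Pf.W 69 4 [] [3,5,6,7] (Pf.cons (Pf.B 8 6 (Pf.C 70 0xe0c406) (Pf.B 8 5 (Pf.C 70 0xe0c405) (Pf.C 0 0x818288))) Pf.nil)) Pf.nil))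 Pf.nil)) (Pf.cons (Pf.C 70 0xc14187) Pf.nil)))) (Pf.C 1 0x3050e04003)) (Pf.B 7 5 (Pf.C 1 0x2860e04003) (Pf.B 7 4 (Pf.C 0 0x818287) (Pf.T 7 28 (Pf.cons (Pf.T 7 29 (Pf.cons (Pf.T 7 30 (Pf.cons (Pf.W 69 4 [] [0,1,3,5,6,7] (Pf.cons (Pf.B 8 7 (Pf.B 8 3 (Pf.C 1 0x3840604008) (Pf.B 8 6 (Pf.T 8 28 (Pf.cons (Pf.T 8 29 (Pf.cons (Pf.T 8 30 (Pf.cons (Pf.T 8 32 (Pf.cons (Pf.C 76 1028) (Pf.cons (Pf.C 73 776) Pf.nil))) Pf.nil)) Pf.nil)) (Pf.cons (Pf.C 70 0xe18208) Pf.nil))) (Pf.B 8 5 (Pf.T 8 28 (Pf.cons (Pf.T 8 29 (Pf.cons (Pf.T 8 30 (Pf.cons (Pf.T 8 32 (Pf.cons (Pf.C 76 1028) (Pf.cons (Pf.C 73 648) Pf.nil))) Pf.nil)) Pf.nil)) (Pf.cons (Pf.C 70 0xe14208) Pf.nil))) (Pf.C 0 0x818288)))) (Pf.B 8 6 (Pf.B 8 5 (Pf.B 8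 3 (Pf.C 1 0x2840604008) (Pf.T 8 28 (Pf.cons (Pf.T 8 29 (Pf.cons (Pf.T 8 30 (Pf.cons (Pf.T 8 32 (Pf.cons (Pf.C 76 1028) (Pf.cons (Pf.C 73 648) Pf.nil))) Pf.nil)) Pf.nil)) (Pf.cons (Pf.C 70 0xc14208) Pf.nil)))) (Pf.C 0 0x81c288)) (Pf.C 0 0x81c308))) Pf.nil)) Pf.nil)) Pf.nil)) (Pf.cons (Pf.T 7 31 (Pf.cons (Pf.W 69 4 [] [0,1,3,5,6,7] (Pf.cons (Pf.B 8 7 (Pf.B 8 3 (Pf.C 1 0x3840604008) (Pf.B 8 6 (Pf.T 8 28 (Pf.cons (Pf.T 8 29 (Pf.cons (Pf.T 8 30 (Pf.cons (Pf.T 8 32 (Pf.cons (Pf.C 76 1028) (Pf.cons (Pf.C 73 776) Pf.nil))) Pf.nil)) Pf.nil)) (Pf.cons (Pf.C 70 0xe18208) Pf.nil))) (Pf.B 8 5 (Pf.T 8 28 (Pf.cons (Pf.T 8 29 (Pf.cons (Pf.T 8 30 (Pf.cons (Pf.T 8 32 (Pf.cons (Pf.C 76 1028) (Pf.cons (Pf.C 73 648) Pf.nil)))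 Pf.nil)) Pf.nil)) (Pf.cons (Pf.C 70 0xe14208) Pf.nil))) (Pf.C 0 0x818288)))) (Pf.B 8 6 (Pf.B 8 5 (Pf.B 8 3 (Pf.C 1 0x2840604008) (Pf.T 8 28 (Pf.cons (Pf.T 8 29 (Pf.cons (Pf.T 8 30 (Pf.cons (Pf.T 8 32 (Pf.cons (Pf.C 76 1028) (Pf.cons (Pf.C 73 648) Pf.nil))) Pf.nil)) Pf.nil)) (Pf.cons (Pf.C 70 0xc14208) Pf.nil)))) (Pf.C 0 0x81c288)) (Pf.C 0 0x81c308))) Pf.nil)) Pf.nil)) Pf.nil)))))) Pf.nil)) Pf.nil)) Pf.nil))))) Pf.nil)) Pf.nil)) Pf.nil)))) Pf.nil)))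
 (Pq.cons (Pq.L [0,1,3] 0 (Pf.W 69 3 [] [0,1,4] (Pf.cons (Pf.B 5 4 (Pf.T 5 28 (Pf.cons (Pf.T 5 29 (Pf.cons (Pf.T 5 30 (Pf.cons (Pf.C 74 644) Pf.nil)) Pf.nil)) (Pf.cons (Pf.T 5 31 (Pf.cons (Pf.C 74 644) Pf.nil)) Pf.nil))) (Pf.T 5 28 (Pf.cons (Pf.T 5 29 (Pf.cons (Pf.T 5 30 (Pf.cons (Pf.W 69 3 [5] [0,1,4] (Pf.cons (Pf.B 6 5 (Pf.B 6 4 (Pf.C 1 0x2840604006) (Pf.T 6 28 (Pf.cons (Pf.T 6 29 (Pf.cons (Pf.T 6 30 (Pf.cons (Pf.W 69 3 [5,6] [0,1,4] (Pf.cons (Pf.B 7 6 (Pf.B 7 4 (Pf.C 1 0x3040604007) (Pf.B 7 5 (Pf.T 7 28 (Pf.cons (Pf.T 7 29 (Pf.cons (Pf.T 7 30 (Pf.cons (Pf.W 68 4 [] [0,1,3,5,6,7] (Pf.cons (Pf.B 8 7 (Pf.B 8 6 (Pf.C 1 0x3840c04008) (Pf.B 8 5 (Pf.C 1 0x3840a04008) (Pf.C 1 0x3080a04007))) (Pf.B 8 6 (Pf.B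 8 5 (Pf.C 1 0x3040a04008) (Pf.C 1 0x3880a04006)) (Pf.B 8 5 (Pf.C 1 0x3880c04005) (Pf.B 8 3 (Pf.C 1 0x3080a04003) (Pf.W 66 643 [] [0,1,4,6,7,8] (Pf.cons (Pf.B 9 7 (Pf.B 9 8 (Pf.C 1 0x3880a04009) (Pf.B 9 6 (Pf.B 9 4 (Pf.C 1 0x3040a04009) (Pf.C 0 0x100c484)) (Pf.C 0 0x620486))) (Pf.C 1 0x1890e04005)) (Pf.cons (Pf.B 9 7 (Pf.B 9 8 (Pf.C 1 0x3880604009) (Pf.B 9 6 (Pf.B 9 4 (Pf.C 1 0x3040604009) (Pf.C 0 0x1014484)) (Pf.C 0 0xa20486))) (Pf.C 1 0x2890e04003)) Pf.nil))))))) Pf.nil)) Pf.nil)) Pf.nil)) (Pf.cons (Pf.C 70 0xc14187) Pf.nil))) (Pf.T 7 28 (Pf.cons (Pf.T 7 29 (Pf.cons (Pf.T 7 30 (Pf.cons (Pf.W 68 4 [] [0,1,3,5,6,7] (Pf.cons (Pf.B 8 7 (Pf.B 8 6 (Pf.C 1 0x3840c04008) (Pf.B 8 3 (Pf.C 1 0x3840604008) (Pf.C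 1 0x3080604007))) (Pf.B 8 5 (Pf.B 8 6 (Pf.C 1 0x2840c04008) (Pf.B 8 3 (Pf.C 1 0x2840604008) (Pf.C 1 0x3080604005))) (Pf.C 0 0x81c288))) Pf.nil)) Pf.nil)) Pf.nil)) (Pf.cons (Pf.T 7 31 (Pf.cons (Pf.W 68 4 [] [0,1,3,5,6,7] (Pf.cons (Pf.B 8 7 (Pf.C 70 0xc0c407) (Pf.B 8 5 (Pf.B 8 6 (Pf.C 1 0x2840c04008) (Pf.B 8 3 (Pf.C 1 0x2840604008) (Pf.C 1 0x3080604005))) (Pf.C 0 0x81c288))) Pf.nil)) Pf.nil)) Pf.nil))))) (Pf.B 7 5 (Pf.B 7 4 (Pf.C 1 0x2840604007) (Pf.T 7 28 (Pf.cons (Pf.T 7 29 (Pf.cons (Pf.T 7 30 (Pf.cons (Pf.W 68 4 [] [0,1,3,5,6,7] (Pf.cons (Pf.B 8 7 (Pf.B 8 5 (Pf.C 1 0x3840a04008) (Pf.B 8 3 (Pf.C 1 0x3840604008) (Pf.C 1 0x2880604007))) (Pf.B 8 6 (Pf.B 8 5 (Pf.C 1 0x3040a04008) (Pf.B 8 3 (Pf.C 1 0x3040604008)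 (Pf.C 1 0x2880604006))) (Pf.C 0 0x81c308))) Pf.nil)) Pf.nil)) Pf.nil)) (Pf.cons (Pf.T 7 31 (Pf.cons (Pf.W 68 4 [] [0,1,3,5,6,7] (Pf.cons (Pf.B 8 7 (Pf.C 70 0xa0c407) (Pf.B 8 6 (Pf.B 8 5 (Pf.C 1 0x3040a04008) (Pf.B 8 3 (Pf.C 1 0x3040604008) (Pf.C 1 0x2880604006))) (Pf.C 0 0x81c308))) Pf.nil)) Pf.nil)) Pf.nil)))) (Pf.C 1 0x3070a04003))) Pf.nil)) Pf.nil)) Pf.nil)) (Pf.cons (Pf.T 6 31 (Pf.cons (Pf.W 69 3 [5,6] [0,1,4] (Pf.cons (Pf.B 7 6 (Pf.C 70 0xa0c386) (Pf.B 7 5 (Pf.B 7 4 (Pf.C 1 0x2840604007) (Pf.W 68 4 [] [0,1,3,5,6,7] (Pf.cons (Pf.B 8 6 (Pf.C 70 0xa0c406) (Pf.B 8 7 (Pf.B 8 5 (Pf.C 1 0x3840a04008) (Pf.B 8 3 (Pf.C 1 0x3840604008) (Pf.C 1 0x2880604007))) (Pf.C 0 0x818388))) Pf.nil))) (Pf.C 1 0x3070a04003)))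 Pf.nil)) Pf.nil)) Pf.nil)))) (Pf.B 6 4 (Pf.T 6 28 (Pf.cons (Pf.T 6 29 (Pf.cons (Pf.T 6 30 (Pf.cons (Pf.C 74 772) Pf.nil)) Pf.nil)) (Pf.cons (Pf.T 6 31 (Pf.cons (Pf.C 74 772) Pf.nil)) Pf.nil))) (Pf.T 6 28 (Pf.cons (Pf.T 6 29 (Pf.cons (Pf.T 6 30 (Pf.cons (Pf.W 69 3 [5,6] [0,1,4] (Pf.cons (Pf.B 7 6 (Pf.B 7 5 (Pf.B 7 4 (Pf.C 1 0x2840604007) (Pf.T 7 28 (Pf.cons (Pf.T 7 29 (Pf.cons (Pf.T 7 30 (Pf.cons (Pf.W 68 4 [] [0,1,3,5,6,7] (Pf.cons (Pf.B 8 7 (Pf.B 8 6 (Pf.C 1 0x3840c04008) (Pf.B 8 5 (Pf.C 1 0x3840a04008) (Pf.C 0 0x818288))) (Pf.B 8 6 (Pf.B 8 3 (Pf.C 1 0x3040604008) (Pf.C 1 0x3880604006)) (Pf.B 8 5 (Pf.B 8 3 (Pf.C 1 0x2840604008) (Pf.C 1 0x3880604005)) (Pf.C 0 0x818288)))) Pf.nil)) Pf.nil)) Pf.nil))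 (Pf.cons (Pf.C 70 0xc14187) Pf.nil)))) (Pf.C 1 0x3050e04003)) (Pf.B 7 5 (Pf.C 1 0x2860e04003) (Pf.B 7 4 (Pf.C 0 0x818287) (Pf.T 7 28 (Pf.cons (Pf.T 7 29 (Pf.cons (Pf.T 7 30 (Pf.cons (Pf.W 68 4 [] [0,1,3,5,6,7] (Pf.cons (Pf.B 8 7 (Pf.B 8 3 (Pf.C 1 0x3840604008) (Pf.B 8 6 (Pf.T 8 28 (Pf.cons (Pf.T 8 29 (Pf.cons (Pf.T 8 30 (Pf.cons (Pf.T 8 32 (Pf.cons (Pf.C 77 1028) (Pf.cons (Pf.C 73 776) Pf.nil))) Pf.nil)) Pf.nil)) (Pf.cons (Pf.C 70 0xe18208) Pf.nil))) (Pf.B 8 5 (Pf.T 8 28 (Pf.cons (Pf.T 8 29 (Pf.cons (Pf.T 8 30 (Pf.cons (Pf.T 8 32 (Pf.cons (Pf.C 77 1028) (Pf.cons (Pf.C 73 648) Pf.nil))) Pf.nil)) Pf.nil)) (Pf.cons (Pf.C 70 0xe14208) Pf.nil))) (Pf.C 0 0x818288)))) (Pf.B 8 6 (Pf.B 8 5 (Pf.B 8 3 (Pf.C 1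 0x2840604008) (Pf.T 8 28 (Pf.cons (Pf.T 8 29 (Pf.cons (Pf.T 8 30 (Pf.cons (Pf.T 8 32 (Pf.cons (Pf.C 77 1028) (Pf.cons (Pf.C 73 648) Pf.nil))) Pf.nil)) Pf.nil)) (Pf.cons (Pf.C 70 0xc14208) Pf.nil)))) (Pf.C 0 0x81c288)) (Pf.C 0 0x81c308))) Pf.nil)) Pf.nil)) Pf.nil)) (Pf.cons (Pf.T 7 31 (Pf.cons (Pf.W 68 4 [] [0,1,3,5,6,7] (Pf.cons (Pf.B 8 7 (Pf.B 8 3 (Pf.C 1 0x3840604008) (Pf.B 8 6 (Pf.T 8 28 (Pf.cons (Pf.T 8 29 (Pf.cons (Pf.T 8 30 (Pf.cons (Pf.T 8 32 (Pf.cons (Pf.C 77 1028) (Pf.cons (Pf.C 73 776) Pf.nil))) Pf.nil)) Pf.nil)) (Pf.cons (Pf.C 70 0xe18208) Pf.nil))) (Pf.B 8 5 (Pf.T 8 28 (Pf.cons (Pf.T 8 29 (Pf.cons (Pf.T 8 30 (Pf.cons (Pf.T 8 32 (Pf.cons (Pf.C 77 1028) (Pf.cons (Pf.C 73 648) Pf.nil))) Pf.nil))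 Pf.nil)) (Pf.cons (Pf.C 70 0xe14208) Pf.nil))) (Pf.C 0 0x818288)))) (Pf.B 8 6 (Pf.B 8 5 (Pf.B 8 3 (Pf.C 1 0x2840604008) (Pf.T 8 28 (Pf.cons (Pf.T 8 29 (Pf.cons (Pf.T 8 30 (Pf.cons (Pf.T 8 32 (Pf.cons (Pf.C 77 1028) (Pf.cons (Pf.C 73 648) Pf.nil))) Pf.nil)) Pf.nil)) (Pf.cons (Pf.C 70 0xc14208) Pf.nil)))) (Pf.C 0 0x81c288)) (Pf.C 0 0x81c308))) Pf.nil)) Pf.nil)) Pf.nil)))))) Pf.nil)) Pf.nil)) Pf.nil)) (Pf.cons (Pf.T 6 31 (Pf.cons (Pf.W 69 3 [5,6] [0,1,4] (Pf.cons (Pf.B 7 6 (Pf.B 7 5 (Pf.B 7 4 (Pf.C 1 0x2840604007) (Pf.T 7 28 (Pf.cons (Pf.T 7 29 (Pf.cons (Pf.T 7 30 (Pf.cons (Pf.W 68 4 [] [0,1,3,5,6,7] (Pf.cons (Pf.B 8 6 (Pf.C 70 0xe0c406) (Pf.B 8 5 (Pf.B 8 7 (Pf.C 1 0x2840e04008) (Pf.B 8 3 (Pf.C 1 0x2840604008)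 (Pf.C 1 0x3880604005))) (Pf.C 0 0x818288))) Pf.nil)) Pf.nil)) Pf.nil)) (Pf.cons (Pf.C 70 0xc14187) Pf.nil)))) (Pf.C 1 0x3050e04003)) (Pf.B 7 5 (Pf.C 1 0x2860e04003) (Pf.B 7 4 (Pf.C 0 0x818287) (Pf.T 7 28 (Pf.cons (Pf.T 7 29 (Pf.cons (Pf.T 7 30 (Pf.cons (Pf.W 68 4 [] [0,1,3,5,6,7] (Pf.cons (Pf.B 8 7 (Pf.B 8 3 (Pf.C 1 0x3840604008) (Pf.B 8 6 (Pf.T 8 28 (Pf.cons (Pf.T 8 29 (Pf.cons (Pf.T 8 30 (Pf.cons (Pf.T 8 32 (Pf.cons (Pf.C 77 1028) (Pf.cons (Pf.C 73 776) Pf.nil))) Pf.nil)) Pf.nil)) (Pf.cons (Pf.C 70 0xe18208) Pf.nil))) (Pf.B 8 5 (Pf.T 8 28 (Pf.cons (Pf.T 8 29 (Pf.cons (Pf.T 8 30 (Pf.cons (Pf.T 8 32 (Pf.cons (Pf.C 77 1028) (Pf.cons (Pf.C 73 648) Pf.nil))) Pf.nil)) Pf.nil)) (Pf.cons (Pf.C 70 0xe14208)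 Pf.nil))) (Pf.C 0 0x818288)))) (Pf.B 8 6 (Pf.B 8 5 (Pf.B 8 3 (Pf.C 1 0x2840604008) (Pf.T 8 28 (Pf.cons (Pf.T 8 29 (Pf.cons (Pf.T 8 30 (Pf.cons (Pf.T 8 32 (Pf.cons (Pf.C 77 1028) (Pf.cons (Pf.C 73 648) Pf.nil))) Pf.nil)) Pf.nil)) (Pf.cons (Pf.C 70 0xc14208) Pf.nil)))) (Pf.C 0 0x81c288)) (Pf.C 0 0x81c308))) Pf.nil)) Pf.nil)) Pf.nil)) (Pf.cons (Pf.T 7 31 (Pf.cons (Pf.W 68 4 [] [0,1,3,5,6,7] (Pf.cons (Pf.B 8 7 (Pf.B 8 3 (Pf.C 1 0x3840604008) (Pf.B 8 6 (Pf.T 8 28 (Pf.cons (Pf.T 8 29 (Pf.cons (Pf.T 8 30 (Pf.cons (Pf.T 8 32 (Pf.cons (Pf.C 77 1028) (Pf.cons (Pf.C 73 776) Pf.nil))) Pf.nil)) Pf.nil)) (Pf.cons (Pf.C 70 0xe18208) Pf.nil))) (Pf.B 8 5 (Pf.T 8 28 (Pf.cons (Pf.T 8 29 (Pf.cons (Pf.T 8 30 (Pf.cons (Pf.T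 8 32 (Pf.cons (Pf.C 77 1028) (Pf.cons (Pf.C 73 648) Pf.nil))) Pf.nil)) Pf.nil)) (Pf.cons (Pf.C 70 0xe14208) Pf.nil))) (Pf.C 0 0x818288)))) (Pf.B 8 6 (Pf.B 8 5 (Pf.B 8 3 (Pf.C 1 0x2840604008) (Pf.T 8 28 (Pf.cons (Pf.T 8 29 (Pf.cons (Pf.T 8 30 (Pf.cons (Pf.T 8 32 (Pf.cons (Pf.C 77 1028) (Pf.cons (Pf.C 73 648) Pf.nil))) Pf.nil)) Pf.nil)) (Pf.cons (Pf.C 70 0xc14208) Pf.nil)))) (Pf.C 0 0x81c288)) (Pf.C 0 0x81c308))) Pf.nil)) Pf.nil)) Pf.nil)))))) Pf.nil)) Pf.nil)) Pf.nil))))) Pf.nil)) Pf.nil)) Pf.nil)) (Pf.cons (Pf.T 5 31 (Pf.cons (Pf.W 69 3 [5] [0,1,4] (Pf.cons (Pf.B 6 5 (Pf.B 6 4 (Pf.C 1 0x2840604006) (Pf.T 6 28 (Pf.cons (Pf.T 6 29 (Pf.cons (Pf.T 6 30 (Pf.cons (Pf.W 69 3 [5,6] [0,1,4] (Pf.cons (Pf.B 7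 5 (Pf.C 70 0xc0c385) (Pf.B 7 6 (Pf.B 7 4 (Pf.C 1 0x3040604007) (Pf.W 68 4 [] [0,1,3,5,6,7] (Pf.cons (Pf.B 8 5 (Pf.C 70 0xc0c405) (Pf.B 8 7 (Pf.B 8 6 (Pf.C 1 0x3840c04008) (Pf.B 8 3 (Pf.C 1 0x3840604008) (Pf.C 1 0x3080604007))) (Pf.C 0 0x814388))) Pf.nil))) (Pf.C 1 0x2870c04003))) Pf.nil)) Pf.nil)) Pf.nil)) (Pf.cons (Pf.T 6 31 (Pf.cons (Pf.W 69 3 [5,6] [0,1] (Pf.cons (Pf.B 7 6 (Pf.C 70 0xa0c386) (Pf.B 7 5 (Pf.C 70 0xc0c385) (Pf.C 1 0x3070a04003))) Pf.nil)) Pf.nil)) Pf.nil)))) (Pf.B 6 4 (Pf.T 6 28 (Pf.cons (Pf.T 6 29 (Pf.cons (Pf.T 6 30 (Pf.cons (Pf.C 74 772) Pf.nil)) Pf.nil)) (Pf.cons (Pf.T 6 31 (Pf.cons (Pf.C 74 772) Pf.nil)) Pf.nil))) (Pf.T 6 28 (Pf.cons (Pf.T 6 29 (Pf.cons (Pf.T 6 30 (Pf.cons (Pf.W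 69 3 [5,6] [0,1,4] (Pf.cons (Pf.B 7 6 (Pf.B 7 5 (Pf.B 7 4 (Pf.C 1 0x2840604007) (Pf.T 7 28 (Pf.cons (Pf.T 7 29 (Pf.cons (Pf.T 7 30 (Pf.cons (Pf.W 68 4 [] [0,1,3,5,6,7] (Pf.cons (Pf.B 8 5 (Pf.C 70 0xe0c405) (Pf.B 8 6 (Pf.B 8 7 (Pf.C 1 0x3040e04008) (Pf.B 8 3 (Pf.C 1 0x3040604008) (Pf.C 1 0x3880604006))) (Pf.C 0 0x814308))) Pf.nil)) Pf.nil)) Pf.nil)) (Pf.cons (Pf.C 70 0xc14187) Pf.nil)))) (Pf.C 1 0x3050e04003)) (Pf.B 7 5 (Pf.C 1 0x2860e04003) (Pf.B 7 4 (Pf.C 0 0x818287) (Pf.T 7 28 (Pf.cons (Pf.T 7 29 (Pf.cons (Pf.T 7 30 (Pf.cons (Pf.W 68 4 [] [0,1,3,5,6,7] (Pf.cons (Pf.B 8 7 (Pf.B 8 3 (Pf.C 1 0x3840604008) (Pf.B 8 6 (Pf.T 8 28 (Pf.cons (Pf.T 8 29 (Pf.cons (Pf.T 8 30 (Pf.cons (Pf.T 8 32 (Pf.cons (Pf.C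 77 1028) (Pf.cons (Pf.C 73 776) Pf.nil))) Pf.nil)) Pf.nil)) (Pf.cons (Pf.C 70 0xe18208) Pf.nil))) (Pf.B 8 5 (Pf.T 8 28 (Pf.cons (Pf.T 8 29 (Pf.cons (Pf.T 8 30 (Pf.cons (Pf.T 8 32 (Pf.cons (Pf.C 77 1028) (Pf.cons (Pf.C 73 648) Pf.nil))) Pf.nil)) Pf.nil)) (Pf.cons (Pf.C 70 0xe14208) Pf.nil))) (Pf.C 0 0x818288)))) (Pf.B 8 6 (Pf.B 8 5 (Pf.B 8 3 (Pf.C 1 0x2840604008) (Pf.T 8 28 (Pf.cons (Pf.T 8 29 (Pf.cons (Pf.T 8 30 (Pf.cons (Pf.T 8 32 (Pf.cons (Pf.C 77 1028) (Pf.cons (Pf.C 73 648) Pf.nil))) Pf.nil)) Pf.nil)) (Pf.cons (Pf.C 70 0xc14208) Pf.nil)))) (Pf.C 0 0x81c288)) (Pf.C 0 0x81c308))) Pf.nil)) Pf.nil)) Pf.nil)) (Pf.cons (Pf.T 7 31 (Pf.cons (Pf.W 68 4 [] [0,1,3,5,6,7] (Pf.cons (Pf.B 8 7 (Pf.B 8 3 (Pf.C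 1 0x3840604008) (Pf.B 8 6 (Pf.T 8 28 (Pf.cons (Pf.T 8 29 (Pf.cons (Pf.T 8 30 (Pf.cons (Pf.T 8 32 (Pf.cons (Pf.C 77 1028) (Pf.cons (Pf.C 73 776) Pf.nil))) Pf.nil)) Pf.nil)) (Pf.cons (Pf.C 70 0xe18208) Pf.nil))) (Pf.B 8 5 (Pf.T 8 28 (Pf.cons (Pf.T 8 29 (Pf.cons (Pf.T 8 30 (Pf.cons (Pf.T 8 32 (Pf.cons (Pf.C 77 1028) (Pf.cons (Pf.C 73 648) Pf.nil))) Pf.nil)) Pf.nil)) (Pf.cons (Pf.C 70 0xe14208) Pf.nil))) (Pf.C 0 0x818288)))) (Pf.B 8 6 (Pf.B 8 5 (Pf.B 8 3 (Pf.C 1 0x2840604008) (Pf.T 8 28 (Pf.cons (Pf.T 8 29 (Pf.cons (Pf.T 8 30 (Pf.cons (Pf.T 8 32 (Pf.cons (Pf.C 77 1028) (Pf.cons (Pf.C 73 648) Pf.nil))) Pf.nil)) Pf.nil)) (Pf.cons (Pf.C 70 0xc14208) Pf.nil)))) (Pf.C 0 0x81c288)) (Pf.C 0 0x81c308))) Pf.nil))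 Pf.nil)) Pf.nil)))))) Pf.nil)) Pf.nil)) Pf.nil)) (Pf.cons (Pf.T 6 31 (Pf.cons (Pf.W 69 3 [5,6] [0,1,4] (Pf.cons (Pf.B 7 6 (Pf.B 7 5 (Pf.B 7 4 (Pf.C 1 0x2840604007) (Pf.T 7 28 (Pf.cons (Pf.T 7 29 (Pf.cons (Pf.T 7 30 (Pf.cons (Pf.W 68 4 [] [3,5,6,7] (Pf.cons (Pf.B 8 6 (Pf.C 70 0xe0c406) (Pf.B 8 5 (Pf.C 70 0xe0c405) (Pf.C 0 0x818288))) Pf.nil)) Pf.nil)) Pf.nil)) (Pf.cons (Pf.C 70 0xc14187) Pf.nil)))) (Pf.C 1 0x3050e04003)) (Pf.B 7 5 (Pf.C 1 0x2860e04003) (Pf.B 7 4 (Pf.C 0 0x818287) (Pf.T 7 28 (Pf.cons (Pf.T 7 29 (Pf.cons (Pf.T 7 30 (Pf.cons (Pf.W 68 4 [] [0,1,3,5,6,7] (Pf.cons (Pf.B 8 7 (Pf.B 8 3 (Pf.C 1 0x3840604008) (Pf.B 8 6 (Pf.T 8 28 (Pf.cons (Pf.T 8 29 (Pf.cons (Pf.T 8 30 (Pf.cons (Pf.T 8 32 (Pf.cons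 (Pf.C 77 1028) (Pf.cons (Pf.C 73 776) Pf.nil))) Pf.nil)) Pf.nil)) (Pf.cons (Pf.C 70 0xe18208) Pf.nil))) (Pf.B 8 5 (Pf.T 8 28 (Pf.cons (Pf.T 8 29 (Pf.cons (Pf.T 8 30 (Pf.cons (Pf.T 8 32 (Pf.cons (Pf.C 77 1028) (Pf.cons (Pf.C 73 648) Pf.nil))) Pf.nil)) Pf.nil)) (Pf.cons (Pf.C 70 0xe14208) Pf.nil))) (Pf.C 0 0x818288)))) (Pf.B 8 6 (Pf.B 8 5 (Pf.B 8 3 (Pf.C 1 0x2840604008) (Pf.T 8 28 (Pf.cons (Pf.T 8 29 (Pf.cons (Pf.T 8 30 (Pf.cons (Pf.T 8 32 (Pf.cons (Pf.C 77 1028) (Pf.cons (Pf.C 73 648) Pf.nil))) Pf.nil)) Pf.nil)) (Pf.cons (Pf.C 70 0xc14208) Pf.nil)))) (Pf.C 0 0x81c288)) (Pf.C 0 0x81c308))) Pf.nil)) Pf.nil)) Pf.nil)) (Pf.cons (Pf.T 7 31 (Pf.cons (Pf.W 68 4 [] [0,1,3,5,6,7] (Pf.cons (Pf.B 8 7 (Pf.B 8 3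 (Pf.C 1 0x3840604008) (Pf.B 8 6 (Pf.T 8 28 (Pf.cons (Pf.T 8 29 (Pf.cons (Pf.T 8 30 (Pf.cons (Pf.T 8 32 (Pf.cons (Pf.C 77 1028) (Pf.cons (Pf.C 73 776) Pf.nil))) Pf.nil)) Pf.nil)) (Pf.cons (Pf.C 70 0xe18208) Pf.nil))) (Pf.B 8 5 (Pf.T 8 28 (Pf.cons (Pf.T 8 29 (Pf.cons (Pf.T 8 30 (Pf.cons (Pf.T 8 32 (Pf.cons (Pf.C 77 1028) (Pf.cons (Pf.C 73 648) Pf.nil))) Pf.nil)) Pf.nil)) (Pf.cons (Pf.C 70 0xe14208) Pf.nil))) (Pf.C 0 0x818288)))) (Pf.B 8 6 (Pf.B 8 5 (Pf.B 8 3 (Pf.C 1 0x2840604008) (Pf.T 8 28 (Pf.cons (Pf.T 8 29 (Pf.cons (Pf.T 8 30 (Pf.cons (Pf.T 8 32 (Pf.cons (Pf.C 77 1028) (Pf.cons (Pf.C 73 648) Pf.nil))) Pf.nil)) Pf.nil)) (Pf.cons (Pf.C 70 0xc14208) Pf.nil)))) (Pf.C 0 0x81c288)) (Pf.C 0 0x81c308)))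 Pf.nil)) Pf.nil)) Pf.nil)))))) Pf.nil)) Pf.nil)) Pf.nil))))) Pf.nil)) Pf.nil)) Pf.nil)))) Pf.nil)))
 Pq.nil))
theorem eK_o79 : AllRef eK_T eK_G95 (List.map pat1 [121,123]) :=
  chkPq_sound eK_o79c _ (by decide +kernel)
noncomputable def eK_o80c : Pq := (Pq.cons (Pq.L [0,1,3] 7 (Pf.T 6 32 (Pf.cons (Pf.W 72 6 [] [0,1,3,4,5] (Pf.cons (Pf.B 7 5 (Pf.C 1 0x3030a04007) (Pf.B 7 4 (Pf.C 1 0x3030804007) (Pf.C 1 0x2870804006))) (Pf.cons (Pf.B 7 5 (Pf.C 70 0xc0c287) (Pf.B 7 4 (Pf.C 70 0xc0c207) (Pf.C 1 0x2870804006))) Pf.nil))) (Pf.cons (Pf.T 6 34 (Pf.cons (Pf.W 75 6 [] [0,1,3,4,5] (Pf.cons (Pf.W 72 4 [] [0,1,3,5,6] (Pf.cons (Pf.B 7 6 (Pf.C 73 902) (Pf.B 7 5 (Pf.C 1 0x2030a04007) (Pf.C 1 0x3070a04004))) (Pf.cons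 (Pf.B 7 6 (Pf.C 73 902) (Pf.B 7 5 (Pf.C 70 0x80c287) (Pf.C 1 0x3070a04004))) Pf.nil))) (Pf.cons (Pf.W 72 5 [] [0,1,3,4,6] (Pf.cons (Pf.B 7 6 (Pf.C 73 902) (Pf.B 7 4 (Pf.C 1 0x2830804007) (Pf.C 1 0x3070804005))) (Pf.cons (Pf.B 7 6 (Pf.C 73 902) (Pf.B 7 4 (Pf.C 70 0xa0c207) (Pf.C 1 0x3070804005))) Pf.nil))) (Pf.cons (Pf.B 7 5 (Pf.W 72 7 [] [0,1,3,5,6] (Pf.cons (Pf.B 8 6 (Pf.C 73 1030) (Pf.B 8 5 (Pf.C 1 0x3830a04008) (Pf.C 1 0x3080a04007))) (Pf.cons (Pf.B 8 6 (Pf.C 73 1030) (Pf.B 8 5 (Pf.C 70 0xe0c288) (Pf.C 1 0x3080a04007))) Pf.nil))) (Pf.B 7 4 (Pf.W 72 7 [] [0,1,3,4,6] (Pf.cons (Pf.B 8 6 (Pf.C 73 1030) (Pf.B 8 4 (Pf.C 1 0x3830804008) (Pf.C 1 0x3080804007))) (Pf.cons (Pf.B 8 6 (Pf.C 73 1030) (Pf.B 8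 4 (Pf.C 70 0xe0c208) (Pf.C 1 0x3080804007))) Pf.nil))) (Pf.C 0 0xa0c384))) Pf.nil)))) Pf.nil)) Pf.nil))))
 (Pq.cons (Pq.L [3] 1023 (Pf.C 2 0x4070c14184))
 (Pq.cons (Pq.L [0,1,3] 0 (Pf.B 9 8 (Pf.B 9 7 (Pf.C 70 0x100c389) (Pf.B 8 7 (Pf.C 70 0x120c388) (Pf.C 1 0x4871004003))) (Pf.B 9 7 (Pf.B 8 7 (Pf.C 70 0x120c407) (Pf.C 1 0x4880e04003)) (Pf.B 8 7 (Pf.C 1 0x3891004003) (Pf.B 9 6 (Pf.B 8 6 (Pf.C 70 0x120c406) (Pf.C 1 0x4880c04003)) (Pf.B 8 6 (Pf.C 1 0x3091004003) (Pf.B 7 6 (Pf.C 0 0xc24407) (Pf.B 9 5 (Pf.B 8 5 (Pf.C 70 0x120c405) (Pf.C 1 0x4880a04003)) (Pf.B 8 5 (Pf.C 1 0x2891004003) (Pf.B 7 5 (Pf.C 0 0xa24407) (Pf.B 6 5 (Pf.C 0 0xa20386) (Pf.B 9 4 (Pf.B 8 4 (Pf.C 70 0x120c404) (Pf.C 1 0x4880804003)) (Pf.B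 8 4 (Pf.C 1 0x2091004003) (Pf.B 7 4 (Pf.C 0 0x824407) (Pf.B 6 4 (Pf.C 0 0x820386) (Pf.B 5 4 (Pf.C 0 0x81c305) (Pf.C 2 0x4880e18205)))))))))))))))))
 (Pq.cons (Pq.L [3] 0 (Pf.B 8 7 (Pf.B 8 6 (Pf.B 8 5 (Pf.C 70 0xe18288) (Pf.B 8 4 (Pf.C 70 0xe18208) (Pf.B 7 5 (Pf.B 7 4 (Pf.C 70 0x1014207) (Pf.C 0 0x100c207)) (Pf.C 0 0x100c287)))) (Pf.B 7 6 (Pf.B 7 5 (Pf.C 70 0x1018287) (Pf.B 8 5 (Pf.B 8 4 (Pf.C 70 0xe14208) (Pf.B 7 4 (Pf.C 70 0x1018207) (Pf.C 0 0x100c207))) (Pf.C 0 0xe0c288))) (Pf.C 0 0x100c307))) (Pf.B 8 6 (Pf.B 7 6 (Pf.B 6 5 (Pf.C 70 0x101c286) (Pf.B 8 5 (Pf.B 8 4 (Pf.C 70 0xc14208) (Pf.B 7 4 (Pf.C 0 0x820187) (Pf.B 6 4 (Pf.C 70 0x101c206) (Pf.C 0 0xe0c206)))) (Pf.C 0 0xc0c288))) (Pf.C 0 0x100c386))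 (Pf.B 7 6 (Pf.C 0 0xc20187) (Pf.B 8 5 (Pf.B 7 5 (Pf.B 6 5 (Pf.C 70 0x101c305) (Pf.C 0 0xe0c305)) (Pf.C 0 0x100c385)) (Pf.B 7 5 (Pf.C 0 0xa20187) (Pf.B 6 5 (Pf.C 0 0xa1c186) (Pf.B 8 4 (Pf.B 7 4 (Pf.B 6 4 (Pf.C 70 0x101c304) (Pf.C 0 0xe0c304)) (Pf.C 0 0x100c384)) (Pf.B 7 4 (Pf.C 0 0x820187) (Pf.B 6 4 (Pf.C 0 0x81c186) (Pf.B 5 4 (Pf.C 0 0x818185) (Pf.C 2 0x4070c0c205))))))))))))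
 Pq.nil))))
theorem eK_o80 : AllRef eK_T eK_G96 (hitObl [113,114,115] eK_h129) :=
  chkPq_sound eK_o80c _ (by decide +kernel)
noncomputable def eK_o81c : Pq := (Pq.cons (Pq.L [] 0 (Pf.C 78 4))
 (Pq.cons (Pq.L [] 0 (Pf.C 79 4))
 (Pq.cons (Pq.L [] 0 (Pf.C 80 4))
 Pq.nil)))
theorem eK_o81 : AllRef eK_T eK_G97 (List.map pat1 [124,125,126]) :=
  chkPq_sound eK_o81c _ (by decide +kernel)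
noncomputable def eK_o82c : Pq := Pq.nil
theorem eK_o82 : AllRef eK_T eK_G98 (twinObl [112] 0 [1]) :=
  chkPq_sound eK_o82c _ (by decide +kernel)
noncomputable def eK_o83c : Pq := Pq.nil
theorem eK_o83 : AllRef eK_T eK_G99 (blockObl [127] [0] [1] [1]) :=
  chkPq_sound eK_o83c _ (by decide +kernel)
noncomputable def eK_o84c : Pq := Pq.nil
theorem eK_o84 : AllRef eK_T eK_G101 (extObl 131 [] []) :=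
  chkPq_sound eK_o84c _ (by decide +kernel)
noncomputable def eK_o85c : Pq := (Pq.cons (Pq.L [] 7 (Pf.C 82 0xe18284))
 Pq.nil)
theorem eK_o85 : AllRef eK_T eK_G102 (applyObl TD2 1 [132] [0] []) :=
  chkPq_sound eK_o85c _ (by decide +kernel)
noncomputable def eK_o86c : Pq := Pq.nil
theorem eK_o86 : AllRef eK_T eK_G103 (ptObl 131 PT.kid []) :=
  chkPq_sound eK_o86c _ (by decide +kernel)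
noncomputable def eK_o87c : Pq := Pq.nil
theorem eK_o87 : AllRef eK_T eK_G104 (ptObl 134 (PT.br 4 PT.kid PT.kid) []) :=
  chkPq_sound eK_o87c _ (by decide +kernel)
noncomputable def eK_o88c : Pq := (Pq.cons (Pq.L [0,1,3,4] 0 (Pf.W 81 4 [5] [0,1,3] (Pf.cons (Pf.B 6 5 (Pf.C 1 0x2840c04003) (Pf.W 81 4 [5,6] [0,1,3] (Pf.cons (Pf.B 7 6 (Pf.C 1 0x3040e04003) (Pf.B 7 5 (Pf.C 0 0xa18207) (Pf.C 82 0xc10385))) Pf.nil))) Pf.nil)))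
 Pq.nil)
theorem eK_o88 : AllRef eK_T eK_G105 (ptObl 132 (PT.br 4 PT.kid PT.ref) []) :=
  chkPq_sound eK_o88c _ (by decide +kernel)
noncomputable def eK_o89c : Pq := (Pq.cons (Pq.L [] 0 (Pf.X 4 5))
 (Pq.cons (Pq.L [0,1,3,4] 1 (Pf.C 1 0x3050804003))
 (Pq.cons (Pq.L [] 0 (Pf.X 4 5))
 (Pq.cons (Pq.L [0,1,3] 1 (Pf.W 25 3 [] [0,1,5,6] (Pf.cons (Pf.B 7 6 (Pf.B 7 5 (Pf.T 7 2 (Pf.cons (Pf.W 69 3 [5,6] [0,1,7] (Pf.cons (Pf.B 8 7 (Pf.B 8 6 (Pf.B 8 5 (Pf.T 8 28 (Pf.cons (Pf.T 8 29 (Pf.cons (Pf.T 8 30 (Pf.cons (Pf.W 81 5 [6] [0,1,3,7,8] (Pf.cons (Pf.B 9 8 (Pf.B 9 7 (Pf.B 9 6 (Pf.C 1 0x305121c180) (Pf.W 81 5 [6,9] [0,1,3] (Pf.cons (Pf.B 10 9 (Pf.C 1 0x4851404003) (Pf.B 10 6 (Pf.C 0 0xc2428a) (Pf.C 82 0x1214506)))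 Pf.nil))) (Pf.C 1 0x1871204008)) (Pf.C 1 0x2891004003)) Pf.nil)) Pf.nil)) Pf.nil)) (Pf.cons (Pf.C 70 0xc14188) Pf.nil))) (Pf.C 1 0x305101c180)) (Pf.B 8 5 (Pf.C 1 0x286101c180) (Pf.T 8 28 (Pf.cons (Pf.T 8 29 (Pf.cons (Pf.T 8 30 (Pf.cons (Pf.W 81 5 [6] [0,1,3,8] (Pf.cons (Pf.W 81 5 [6,8] [0,1,3] (Pf.cons (Pf.B 9 8 (Pf.C 1 0x4051204003) (Pf.B 9 6 (Pf.C 0 0xc20289) (Pf.C 82 0x1014486))) Pf.nil)) (Pf.cons (Pf.B 9 8 (Pf.C 1 0x4051204003) (Pf.B 9 6 (Pf.C 0 0xc20289) (Pf.W 81 5 [6,9] [0,1,3,8] (Pf.cons (Pf.C 82 0x1214406) (Pf.cons (Pf.B 10 9 (Pf.C 1 0x4851404003) (Pf.B 10 8 (Pf.C 0 0x102428a) (Pf.B 10 6 (Pf.C 0 0xc2028a) (Pf.C 82 0x1214506)))) Pf.nil))))) Pf.nil))) Pf.nil)) Pf.nil)) (Pf.cons (Pf.T 8 31 (Pf.cons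 (Pf.W 69 5 [3] [0,1,6,7,8] (Pf.cons (Pf.T 7 28 (Pf.cons (Pf.T 7 29 (Pf.cons (Pf.T 7 30 (Pf.cons (Pf.T 7 32 (Pf.cons (Pf.W 81 5 [6] [0,1,3,7,8] (Pf.cons (Pf.B 9 8 (Pf.C 70 0xe0c488) (Pf.B 9 6 (Pf.C 0 0xc20289) (Pf.W 81 5 [6,9] [0,1,3,8] (Pf.cons (Pf.B 10 9 (Pf.C 1 0x4851404003) (Pf.B 10 8 (Pf.C 0 0x102428a) (Pf.B 10 6 (Pf.C 0 0xc2028a) (Pf.C 82 0x1214506)))) Pf.nil)))) Pf.nil)) (Pf.cons (Pf.C 73 647) Pf.nil))) Pf.nil)) Pf.nil)) (Pf.cons (Pf.C 70 0x1018287) Pf.nil))) (Pf.cons (Pf.B 9 8 (Pf.B 9 7 (Pf.B 9 6 (Pf.B 9 3 (Pf.T 9 28 (Pf.cons (Pf.T 9 29 (Pf.cons (Pf.T 9 30 (Pf.cons (Pf.W 69 5 [3,9] [0,1,7,8] (Pf.cons (Pf.C 70 0x120c388) (Pf.cons (Pf.B 10 8 (Pf.C 70 0x120c508) (Pf.B 10 9 (Pf.C 1 0x2881404009)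 (Pf.B 10 7 (Pf.C 1 0x2881404007) (Pf.C 1 0x48a0e04005)))) Pf.nil))) Pf.nil)) Pf.nil)) (Pf.cons (Pf.C 70 0xc14189) Pf.nil))) (Pf.C 1 0x3831218280)) (Pf.C 1 0x2861204007)) (Pf.B 9 3 (Pf.C 1 0x1871220280) (Pf.B 9 6 (Pf.T 9 28 (Pf.cons (Pf.T 9 29 (Pf.cons (Pf.T 9 30 (Pf.cons (Pf.T 9 32 (Pf.cons (Pf.W 81 5 [6] [0,1,3,8,9] (Pf.cons (Pf.B 10 8 (Pf.C 70 0x120c508) (Pf.B 10 6 (Pf.C 0 0xc2028a) (Pf.W 81 5 [6,10] [0,1,3,8] (Pf.cons (Pf.B 11 10 (Pf.C 1 0x5051604003) (Pf.B 11 8 (Pf.C 0 0x102828b) (Pf.B 11 6 (Pf.C 0 0xc2028b) (Pf.C 82 0x1414586)))) Pf.nil)))) Pf.nil)) (Pf.cons (Pf.C 73 649) Pf.nil))) Pf.nil)) Pf.nil)) (Pf.cons (Pf.C 70 0x1018289) Pf.nil))) (Pf.T 9 28 (Pf.cons (Pf.T 9 29 (Pf.cons (Pf.T 9 30 (Pf.cons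 (Pf.T 9 32 (Pf.cons (Pf.W 69 5 [3,9] [0,1,6,7,8] (Pf.cons (Pf.C 70 0x120c388) (Pf.cons (Pf.B 10 8 (Pf.C 70 0x120c508) (Pf.B 10 7 (Pf.C 1 0x2881404007) (Pf.B 10 6 (Pf.W 69 6 [3,10] [0,1,7,8,9] (Pf.cons (Pf.C 70 0x120c388) (Pf.cons (Pf.B 11 8 (Pf.C 70 0x120c588) (Pf.B 11 7 (Pf.C 1 0x3081604007) (Pf.B 11 10 (Pf.C 1 0x5071604006) (Pf.C 0 0x1028587)))) Pf.nil))) (Pf.C 0 0xa2030a)))) Pf.nil))) (Pf.cons (Pf.C 73 649) Pf.nil))) Pf.nil)) Pf.nil)) (Pf.cons (Pf.T 9 31 (Pf.cons (Pf.T 9 33 (Pf.cons (Pf.W 81 5 [6] [3,8,9] (Pf.cons (Pf.B 10 9 (Pf.C 70 0x1014509) (Pf.B 10 8 (Pf.C 70 0x120c508) (Pf.B 10 6 (Pf.C 0 0xc2028a) (Pf.C 0 0x1218505)))) Pf.nil)) (Pf.cons (Pf.C 74 649) Pf.nil))) Pf.nil)) Pf.nil)))))) (Pf.B 9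 7 (Pf.C 1 0x2881204007) (Pf.B 9 6 (Pf.B 9 3 (Pf.C 1 0x2881204003) (Pf.T 9 28 (Pf.cons (Pf.T 9 29 (Pf.cons (Pf.T 9 30 (Pf.cons (Pf.T 9 32 (Pf.cons (Pf.W 69 5 [3,9] [0,1,6,7,8] (Pf.cons (Pf.T 7 28 (Pf.cons (Pf.T 7 29 (Pf.cons (Pf.T 7 30 (Pf.cons (Pf.T 7 32 (Pf.cons (Pf.W 81 5 [6] [0,1,3,7,8] (Pf.cons (Pf.B 10 8 (Pf.C 70 0xe0c508) (Pf.B 10 6 (Pf.C 0 0xc2028a) (Pf.W 81 5 [6,10] [0,1,3,8] (Pf.cons (Pf.B 11 10 (Pf.C 1 0x5051604003) (Pf.B 11 8 (Pf.C 0 0x102828b) (Pf.B 11 6 (Pf.C 0 0xc2028b) (Pf.C 82 0x1414586)))) Pf.nil)))) Pf.nil)) (Pf.cons (Pf.C 73 647) Pf.nil))) Pf.nil)) Pf.nil)) (Pf.cons (Pf.C 70 0x1018287) Pf.nil))) (Pf.cons (Pf.B 10 9 (Pf.B 10 8 (Pf.C 1 0x4880a0400a) (Pf.B 10 7 (Pf.C 1 0x2881404007)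 (Pf.C 1 0x4871404005))) (Pf.B 10 7 (Pf.C 1 0x3891404005) (Pf.B 10 8 (Pf.B 10 3 (Pf.C 0 0x62438a) (Pf.B 10 6 (Pf.T 10 28 (Pf.cons (Pf.T 10 29 (Pf.cons (Pf.T 10 30 (Pf.cons (Pf.T 10 32 (Pf.cons (Pf.W 81 5 [6] [0,1,3,8,10] (Pf.cons (Pf.B 11 8 (Pf.C 70 0x140c588) (Pf.B 11 6 (Pf.C 0 0xc2028b) (Pf.W 81 5 [6,11] [0,1,3,8] (Pf.cons (Pf.B 12 11 (Pf.C 1 0x5851804003) (Pf.B 12 8 (Pf.C 0 0x102c28c) (Pf.B 12 6 (Pf.C 0 0xc2028c) (Pf.C 82 0x1614606)))) Pf.nil)))) Pf.nil)) (Pf.cons (Pf.C 73 650) Pf.nil))) Pf.nil)) Pf.nil)) (Pf.cons (Pf.C 70 0x101828a) Pf.nil))) (Pf.W 69 6 [3,9] [0,1,7,8,10] (Pf.cons (Pf.C 70 0x140c388) (Pf.cons (Pf.B 11 8 (Pf.C 70 0x140c588) (Pf.B 11 7 (Pf.C 1 0x3081604007) (Pf.B 11 9 (Pf.C 1 0x4871604006)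 (Pf.C 0 0x1024587)))) Pf.nil))))) (Pf.C 0 0xe24508)))) Pf.nil))) (Pf.cons (Pf.C 73 649) Pf.nil))) Pf.nil)) Pf.nil)) (Pf.cons (Pf.T 9 31 (Pf.cons (Pf.T 9 33 (Pf.cons (Pf.W 81 5 [6] [0,1,3,8,9] (Pf.cons (Pf.B 10 9 (Pf.C 70 0xc14509) (Pf.B 10 8 (Pf.C 1 0x4051404003) (Pf.C 0 0x1220505))) Pf.nil)) (Pf.cons (Pf.C 74 649) Pf.nil))) Pf.nil)) Pf.nil)))) (Pf.C 0 0xa20309)))) Pf.nil))) Pf.nil)) Pf.nil))))) (Pf.B 8 6 (Pf.C 1 0x1871004006) (Pf.B 8 5 (Pf.C 1 0x1871004005) (Pf.T 8 28 (Pf.cons (Pf.T 8 29 (Pf.cons (Pf.T 8 30 (Pf.cons (Pf.W 81 5 [6] [0,1,3,8] (Pf.cons (Pf.W 81 5 [6,8] [0,1,3] (Pf.cons (Pf.B 9 8 (Pf.C 1 0x4051204003) (Pf.B 9 6 (Pf.C 0 0xc20289) (Pf.C 82 0x1014486))) Pf.nil)) (Pf.cons (Pf.B 9 8 (Pf.C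 1 0x4051204003) (Pf.B 9 6 (Pf.C 0 0xc20289) (Pf.W 81 5 [6,9] [0,1,3,8] (Pf.cons (Pf.C 82 0x1214406) (Pf.cons (Pf.B 10 9 (Pf.C 1 0x4851404003) (Pf.B 10 8 (Pf.C 0 0x102428a) (Pf.B 10 6 (Pf.C 0 0xc2028a) (Pf.C 82 0x1214506)))) Pf.nil))))) Pf.nil))) Pf.nil)) Pf.nil)) (Pf.cons (Pf.T 8 31 (Pf.cons (Pf.W 69 5 [3] [0,1,6,7,8] (Pf.cons (Pf.T 7 28 (Pf.cons (Pf.T 7 29 (Pf.cons (Pf.T 7 30 (Pf.cons (Pf.T 7 32 (Pf.cons (Pf.W 69 5 [3,7] [0,1,6,8] (Pf.cons (Pf.B 9 8 (Pf.B 9 7 (Pf.C 1 0x2880e04009) (Pf.B 9 3 (Pf.C 1 0x1871204005) (Pf.B 9 6 (Pf.T 9 28 (Pf.cons (Pf.T 9 29 (Pf.cons (Pf.T 9 30 (Pf.cons (Pf.T 9 32 (Pf.cons (Pf.W 81 5 [6] [0,1,3,8,9] (Pf.cons (Pf.B 10 8 (Pf.C 70 0x120c508) (Pf.B 10 6 (Pf.C 0 0xc2028a) (Pf.W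 81 5 [6,10] [0,1,3,8] (Pf.cons (Pf.B 11 10 (Pf.C 1 0x5051604003) (Pf.B 11 8 (Pf.C 0 0x102828b) (Pf.B 11 6 (Pf.C 0 0xc2028b) (Pf.C 82 0x1414586)))) Pf.nil)))) Pf.nil)) (Pf.cons (Pf.C 73 649) Pf.nil))) Pf.nil)) Pf.nil)) (Pf.cons (Pf.C 70 0x1018289) Pf.nil))) (Pf.W 69 6 [3,7] [0,1,5,8,9] (Pf.cons (Pf.B 10 8 (Pf.C 70 0x120c508) (Pf.B 10 5 (Pf.B 10 9 (Pf.C 1 0x286120400a) (Pf.B 10 7 (Pf.C 1 0x3891404005) (Pf.C 0 0x121c508))) (Pf.C 0 0xc2028a))) Pf.nil))))) (Pf.B 9 6 (Pf.B 9 3 (Pf.C 1 0x2881204003) (Pf.B 9 7 (Pf.C 1 0x3831218280) (Pf.C 0 0x101c483))) (Pf.C 0 0xa20309))) Pf.nil)) (Pf.cons (Pf.C 73 647) Pf.nil))) Pf.nil)) Pf.nil)) (Pf.cons (Pf.T 7 31 (Pf.cons (Pf.T 7 33 (Pf.cons (Pf.W 81 5 [6] [0,1,3,7,8]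 (Pf.cons (Pf.B 9 8 (Pf.C 1 0x4051204003) (Pf.B 9 7 (Pf.C 70 0xc14487) (Pf.C 0 0xa20487))) Pf.nil)) (Pf.cons (Pf.C 74 647) Pf.nil))) Pf.nil)) Pf.nil))) (Pf.cons (Pf.B 9 8 (Pf.B 9 7 (Pf.C 1 0x2880e04009) (Pf.B 9 3 (Pf.C 1 0x1871204005) (Pf.B 9 6 (Pf.T 9 28 (Pf.cons (Pf.T 9 29 (Pf.cons (Pf.T 9 30 (Pf.cons (Pf.T 9 32 (Pf.cons (Pf.W 81 5 [6] [0,1,3,8,9] (Pf.cons (Pf.B 10 8 (Pf.C 70 0x120c508) (Pf.B 10 6 (Pf.C 0 0xc2028a) (Pf.W 81 5 [6,10] [0,1,3,8] (Pf.cons (Pf.B 11 10 (Pf.C 1 0x5051604003) (Pf.B 11 8 (Pf.C 0 0x102828b) (Pf.B 11 6 (Pf.C 0 0xc2028b) (Pf.C 82 0x1414586)))) Pf.nil)))) Pf.nil)) (Pf.cons (Pf.C 73 649) Pf.nil))) Pf.nil)) Pf.nil)) (Pf.cons (Pf.C 70 0x1018289) Pf.nil))) (Pf.W 69 5 [3,9] [0,1,7,6,8]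 (Pf.cons (Pf.W 69 6 [3,7] [0,1,5,8,9] (Pf.cons (Pf.B 10 8 (Pf.C 70 0x120c508) (Pf.B 10 5 (Pf.B 10 9 (Pf.C 1 0x286120400a) (Pf.B 10 7 (Pf.C 1 0x3891404005) (Pf.C 0 0x121c508))) (Pf.C 0 0xc2028a))) Pf.nil)) (Pf.cons (Pf.B 10 8 (Pf.C 70 0x120c508) (Pf.B 10 9 (Pf.C 1 0x2881404009) (Pf.B 10 7 (Pf.C 1 0x3891404005) (Pf.C 0 0x121c508)))) Pf.nil)))))) (Pf.B 9 6 (Pf.B 9 3 (Pf.C 1 0x2881204003) (Pf.B 9 7 (Pf.C 1 0x3831218280) (Pf.C 0 0x101c483))) (Pf.C 0 0xa20309))) Pf.nil))) Pf.nil)) Pf.nil)))))) Pf.nil)) (Pf.cons (Pf.C 26 391) Pf.nil))) (Pf.T 7 2 (Pf.cons (Pf.W 69 3 [5,6] [0,1,7] (Pf.cons (Pf.B 8 7 (Pf.B 8 5 (Pf.C 1 0x1870a04008) (Pf.B 8 6 (Pf.C 1 0x3051004003) (Pf.T 8 28 (Pf.cons (Pf.T 8 29 (Pf.cons (Pf.T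 8 30 (Pf.cons (Pf.W 81 5 [6] [0,1,3,8] (Pf.cons (Pf.W 81 5 [6,8] [0,1,3] (Pf.cons (Pf.B 9 8 (Pf.C 1 0x4051204003) (Pf.B 9 6 (Pf.C 0 0xc20289) (Pf.C 82 0x1014486))) Pf.nil)) (Pf.cons (Pf.B 9 8 (Pf.C 1 0x4051204003) (Pf.B 9 6 (Pf.C 0 0xc20289) (Pf.W 81 5 [6,9] [0,1,3,8] (Pf.cons (Pf.C 82 0x1214406) (Pf.cons (Pf.B 10 9 (Pf.C 1 0x4851404003) (Pf.B 10 8 (Pf.C 0 0x102428a) (Pf.B 10 6 (Pf.C 0 0xc2028a) (Pf.C 82 0x1214506)))) Pf.nil))))) Pf.nil))) Pf.nil)) Pf.nil)) (Pf.cons (Pf.T 8 31 (Pf.cons (Pf.W 69 5 [3] [0,1,6,7,8] (Pf.cons (Pf.B 9 8 (Pf.B 9 7 (Pf.C 1 0x4050e04009) (Pf.B 9 3 (Pf.C 1 0x1871204008) (Pf.B 9 6 (Pf.T 9 28 (Pf.cons (Pf.T 9 29 (Pf.cons (Pf.T 9 30 (Pf.cons (Pf.T 9 32 (Pf.cons (Pf.W 81 5 [6] [0,1,3,8,9]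 (Pf.cons (Pf.B 10 8 (Pf.C 70 0x120c508) (Pf.B 10 6 (Pf.C 0 0xc2028a) (Pf.W 81 5 [6,10] [0,1,3,8] (Pf.cons (Pf.B 11 10 (Pf.C 1 0x5051604003) (Pf.B 11 8 (Pf.C 0 0x102828b) (Pf.B 11 6 (Pf.C 0 0xc2028b) (Pf.C 82 0x1414586)))) Pf.nil)))) Pf.nil)) (Pf.cons (Pf.C 73 649) Pf.nil))) Pf.nil)) Pf.nil)) (Pf.cons (Pf.C 70 0x1018289) Pf.nil))) (Pf.T 9 28 (Pf.cons (Pf.T 9 29 (Pf.cons (Pf.T 9 30 (Pf.cons (Pf.T 9 32 (Pf.cons (Pf.W 69 5 [3,9] [0,1,6,7,8] (Pf.cons (Pf.B 10 8 (Pf.C 70 0x120c508) (Pf.B 10 6 (Pf.B 10 7 (Pf.C 1 0x3050e0400a) (Pf.W 69 6 [3,10] [0,1,7,8,9] (Pf.cons (Pf.C 70 0x120c388) (Pf.cons (Pf.B 11 8 (Pf.C 70 0x120c588) (Pf.B 11 7 (Pf.C 1 0x3081604007) (Pf.B 11 10 (Pf.C 1 0x5071604006) (Pf.C 0 0x1028587))))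 Pf.nil)))) (Pf.C 0 0xa2030a))) Pf.nil)) (Pf.cons (Pf.C 73 649) Pf.nil))) Pf.nil)) Pf.nil)) (Pf.cons (Pf.T 9 31 (Pf.cons (Pf.T 9 33 (Pf.cons (Pf.W 81 5 [6] [3,8,9] (Pf.cons (Pf.B 10 9 (Pf.C 70 0x1014509) (Pf.B 10 8 (Pf.C 70 0x120c508) (Pf.B 10 6 (Pf.C 0 0xc2028a) (Pf.C 0 0x1218505)))) Pf.nil)) (Pf.cons (Pf.C 74 649) Pf.nil))) Pf.nil)) Pf.nil)))))) (Pf.B 9 6 (Pf.B 9 7 (Pf.C 1 0x3050e04009) (Pf.B 9 3 (Pf.C 1 0x2881204003) (Pf.T 9 28 (Pf.cons (Pf.T 9 29 (Pf.cons (Pf.T 9 30 (Pf.cons (Pf.T 9 32 (Pf.cons (Pf.W 69 5 [3,9] [0,1,6,7,8] (Pf.cons (Pf.B 10 9 (Pf.B 10 8 (Pf.C 1 0x4880a0400a) (Pf.B 10 7 (Pf.C 1 0x4870a0400a) (Pf.B 10 6 (Pf.C 1 0x4871404006) (Pf.C 0 0xa2030a)))) (Pf.B 10 3 (Pf.C 1 0x1891404005) (Pf.B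 10 8 (Pf.B 10 6 (Pf.T 10 28 (Pf.cons (Pf.T 10 29 (Pf.cons (Pf.T 10 30 (Pf.cons (Pf.T 10 32 (Pf.cons (Pf.W 81 5 [6] [0,1,3,8,10] (Pf.cons (Pf.B 11 8 (Pf.C 70 0x140c588) (Pf.B 11 6 (Pf.C 0 0xc2028b) (Pf.W 81 5 [6,11] [0,1,3,8] (Pf.cons (Pf.B 12 11 (Pf.C 1 0x5851804003) (Pf.B 12 8 (Pf.C 0 0x102c28c) (Pf.B 12 6 (Pf.C 0 0xc2028c) (Pf.C 82 0x1614606)))) Pf.nil)))) Pf.nil)) (Pf.cons (Pf.C 73 650) Pf.nil))) Pf.nil)) Pf.nil)) (Pf.cons (Pf.C 70 0x101828a) Pf.nil))) (Pf.W 69 6 [3,9] [0,1,7,8,10] (Pf.cons (Pf.C 70 0x140c388) (Pf.cons (Pf.B 11 8 (Pf.C 70 0x140c588) (Pf.B 11 7 (Pf.C 1 0x3081604007) (Pf.B 11 9 (Pf.C 1 0x4871604006) (Pf.C 0 0x1024587)))) Pf.nil)))) (Pf.C 0 0x624508)))) Pf.nil)) (Pf.cons (Pf.C 73 649)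 Pf.nil))) Pf.nil)) Pf.nil)) (Pf.cons (Pf.T 9 31 (Pf.cons (Pf.T 9 33 (Pf.cons (Pf.W 81 5 [6] [0,1,3,8,9] (Pf.cons (Pf.B 10 9 (Pf.C 70 0xc14509) (Pf.B 10 8 (Pf.C 1 0x4051404003) (Pf.C 0 0x1220505))) Pf.nil)) (Pf.cons (Pf.C 74 649) Pf.nil))) Pf.nil)) Pf.nil))))) (Pf.C 0 0xa20309))) Pf.nil)) Pf.nil)) Pf.nil))))) (Pf.B 8 6 (Pf.C 1 0x1871004006) (Pf.B 8 5 (Pf.C 1 0x2861004003) (Pf.C 0 0xe14406)))) Pf.nil)) (Pf.cons (Pf.C 26 391) Pf.nil)))) (Pf.B 7 5 (Pf.T 7 2 (Pf.cons (Pf.W 69 3 [5,6] [0,1,7] (Pf.cons (Pf.B 8 7 (Pf.B 8 6 (Pf.C 1 0x1870c04008) (Pf.B 8 5 (Pf.C 1 0x2861004003) (Pf.T 8 28 (Pf.cons (Pf.T 8 29 (Pf.cons (Pf.T 8 30 (Pf.cons (Pf.W 81 5 [6] [0,1,3,8] (Pf.cons (Pf.W 81 5 [6,8] [0,1,3] (Pf.cons (Pf.B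 9 8 (Pf.C 1 0x4051204003) (Pf.B 9 6 (Pf.C 0 0xc20289) (Pf.C 82 0x1014486))) Pf.nil)) (Pf.cons (Pf.B 9 8 (Pf.C 1 0x4051204003) (Pf.B 9 6 (Pf.C 0 0xc20289) (Pf.W 81 5 [6,9] [0,1,3,8] (Pf.cons (Pf.C 82 0x1214406) (Pf.cons (Pf.B 10 9 (Pf.C 1 0x4851404003) (Pf.B 10 8 (Pf.C 0 0x102428a) (Pf.B 10 6 (Pf.C 0 0xc2028a) (Pf.C 82 0x1214506)))) Pf.nil))))) Pf.nil))) Pf.nil)) Pf.nil)) (Pf.cons (Pf.T 8 31 (Pf.cons (Pf.W 69 5 [3] [0,1,6,7,8] (Pf.cons (Pf.T 7 28 (Pf.cons (Pf.T 7 29 (Pf.cons (Pf.T 7 30 (Pf.cons (Pf.T 7 32 (Pf.cons (Pf.W 69 5 [3,7] [0,1,6,8] (Pf.cons (Pf.B 9 8 (Pf.C 70 0xe0c488) (Pf.B 9 7 (Pf.C 1 0x2881204007) (Pf.W 69 6 [3,9] [0,1,5,7,8] (Pf.cons (Pf.B 10 8 (Pf.C 70 0xe0c508) (Pf.B 10 5 (Pf.B 10 7 (Pf.C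 1 0x2860e0400a) (Pf.B 10 9 (Pf.C 1 0x4871404005) (Pf.C 0 0x1024507))) (Pf.C 0 0xc2028a))) Pf.nil)))) Pf.nil)) (Pf.cons (Pf.C 73 647) Pf.nil))) Pf.nil)) Pf.nil)) (Pf.cons (Pf.T 7 31 (Pf.cons (Pf.T 7 33 (Pf.cons (Pf.W 81 5 [6] [3,7,8] (Pf.cons (Pf.B 9 8 (Pf.C 70 0xe0c488) (Pf.B 9 7 (Pf.C 70 0x1014487) (Pf.B 9 6 (Pf.C 0 0xc20289) (Pf.C 0 0xe18485)))) Pf.nil)) (Pf.cons (Pf.C 74 647) Pf.nil))) Pf.nil)) Pf.nil))) (Pf.cons (Pf.B 9 8 (Pf.B 9 7 (Pf.B 9 6 (Pf.C 1 0x3860a04009) (Pf.B 9 3 (Pf.C 1 0x2861204003) (Pf.C 1 0x3831220280))) (Pf.B 9 3 (Pf.C 1 0x1871220280) (Pf.B 9 6 (Pf.T 9 28 (Pf.cons (Pf.T 9 29 (Pf.cons (Pf.T 9 30 (Pf.cons (Pf.T 9 32 (Pf.cons (Pf.W 81 5 [6] [0,1,3,8,9] (Pf.cons (Pf.B 10 8 (Pf.C 70 0x120c508)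 (Pf.B 10 6 (Pf.C 0 0xc2028a) (Pf.W 81 5 [6,10] [0,1,3,8] (Pf.cons (Pf.B 11 10 (Pf.C 1 0x5051604003) (Pf.B 11 8 (Pf.C 0 0x102828b) (Pf.B 11 6 (Pf.C 0 0xc2028b) (Pf.C 82 0x1414586)))) Pf.nil)))) Pf.nil)) (Pf.cons (Pf.C 73 649) Pf.nil))) Pf.nil)) Pf.nil)) (Pf.cons (Pf.C 70 0x1018289) Pf.nil))) (Pf.C 0 0x61c486)))) (Pf.B 9 7 (Pf.C 1 0x2881204007) (Pf.B 9 6 (Pf.B 9 3 (Pf.C 1 0x2881204003) (Pf.T 9 28 (Pf.cons (Pf.T 9 29 (Pf.cons (Pf.T 9 30 (Pf.cons (Pf.T 9 32 (Pf.cons (Pf.W 69 5 [3,9] [0,1,6,7,8] (Pf.cons (Pf.W 69 6 [3,9] [0,1,5,7,8] (Pf.cons (Pf.B 10 8 (Pf.C 70 0xe0c508) (Pf.B 10 5 (Pf.B 10 7 (Pf.C 1 0x2860e0400a) (Pf.B 10 9 (Pf.C 1 0x4871404005) (Pf.C 0 0x1024507))) (Pf.C 0 0xc2028a))) Pf.nil)) (Pf.cons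 (Pf.B 10 9 (Pf.B 10 8 (Pf.C 1 0x4880a0400a) (Pf.B 10 7 (Pf.C 1 0x2881404007) (Pf.C 1 0x4871404005))) (Pf.B 10 7 (Pf.C 1 0x3891404005) (Pf.B 10 8 (Pf.B 10 6 (Pf.B 10 3 (Pf.C 0 0x62438a) (Pf.T 10 28 (Pf.cons (Pf.T 10 29 (Pf.cons (Pf.T 10 30 (Pf.cons (Pf.T 10 32 (Pf.cons (Pf.W 81 5 [6] [0,1,3,8,10] (Pf.cons (Pf.B 11 8 (Pf.C 70 0x140c588) (Pf.B 11 6 (Pf.C 0 0xc2028b) (Pf.W 81 5 [6,11] [0,1,3,8] (Pf.cons (Pf.B 12 11 (Pf.C 1 0x5851804003) (Pf.B 12 8 (Pf.C 0 0x102c28c) (Pf.B 12 6 (Pf.C 0 0xc2028c) (Pf.C 82 0x1614606)))) Pf.nil)))) Pf.nil)) (Pf.cons (Pf.C 73 650) Pf.nil))) Pf.nil)) Pf.nil)) (Pf.cons (Pf.C 70 0x101828a) Pf.nil)))) (Pf.C 0 0x121c506)) (Pf.C 0 0xe24508)))) Pf.nil))) (Pf.cons (Pf.C 73 649) Pf.nil)))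 Pf.nil)) Pf.nil)) (Pf.cons (Pf.T 9 31 (Pf.cons (Pf.T 9 33 (Pf.cons (Pf.W 81 5 [6] [0,1,3,8,9] (Pf.cons (Pf.B 10 9 (Pf.C 70 0xc14509) (Pf.B 10 8 (Pf.C 1 0x4051404003) (Pf.C 0 0x1220505))) Pf.nil)) (Pf.cons (Pf.C 74 649) Pf.nil))) Pf.nil)) Pf.nil)))) (Pf.C 0 0xa20309)))) Pf.nil))) Pf.nil)) Pf.nil))))) (Pf.B 8 5 (Pf.C 1 0x1871004005) (Pf.B 8 6 (Pf.C 1 0x3051004003) (Pf.C 0 0xe18405)))) Pf.nil)) (Pf.cons (Pf.C 26 391) Pf.nil))) (Pf.T 7 2 (Pf.cons (Pf.W 69 3 [5,6] [0,1,7] (Pf.cons (Pf.B 8 7 (Pf.B 8 6 (Pf.C 1 0x1870c04008) (Pf.B 8 5 (Pf.C 1 0x1870a04008) (Pf.C 0 0xe18288))) (Pf.B 8 6 (Pf.B 8 5 (Pf.T 8 28 (Pf.cons (Pf.T 8 29 (Pf.cons (Pf.T 8 30 (Pf.cons (Pf.W 81 5 [6] [0,1,3,7,8] (Pf.cons (Pf.B 9 8 (Pf.B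 9 7 (Pf.C 1 0x4070604009) (Pf.B 9 6 (Pf.C 0 0xc1c289) (Pf.W 81 5 [6,9] [0,1,3,7] (Pf.cons (Pf.B 10 9 (Pf.C 1 0x4851404003) (Pf.B 10 7 (Pf.C 0 0xe2428a) (Pf.B 10 6 (Pf.C 0 0xc1c28a) (Pf.C 82 0x1214506)))) Pf.nil)))) (Pf.C 1 0x2891004003)) Pf.nil)) Pf.nil)) Pf.nil)) (Pf.cons (Pf.C 70 0xc14188) Pf.nil))) (Pf.C 0 0xc1c288)) (Pf.B 8 5 (Pf.C 0 0xa1c308) (Pf.T 8 28 (Pf.cons (Pf.T 8 29 (Pf.cons (Pf.T 8 30 (Pf.cons (Pf.W 81 5 [6] [0,1,3,7,8] (Pf.cons (Pf.W 81 5 [6,8] [0,1,3,7] (Pf.cons (Pf.B 9 8 (Pf.C 1 0x4051204003) (Pf.B 9 7 (Pf.C 0 0xe20289) (Pf.B 9 6 (Pf.C 0 0xc1c289) (Pf.C 82 0x1014486)))) Pf.nil)) (Pf.cons (Pf.B 9 8 (Pf.C 1 0x4051204003) (Pf.B 9 7 (Pf.C 0 0xe20289) (Pf.B 9 6 (Pf.C 0 0xc1c289) (Pf.W 81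 5 [6,9] [0,1,3,7,8] (Pf.cons (Pf.C 82 0x1214406) (Pf.cons (Pf.B 10 9 (Pf.C 1 0x4851404003) (Pf.B 10 8 (Pf.C 0 0x102428a) (Pf.B 10 7 (Pf.C 0 0xe2028a) (Pf.B 10 6 (Pf.C 0 0xc1c28a) (Pf.C 82 0x1214506))))) Pf.nil)))))) Pf.nil))) Pf.nil)) Pf.nil)) (Pf.cons (Pf.T 8 31 (Pf.cons (Pf.W 69 5 [3] [0,1,6,7,8] (Pf.cons (Pf.B 9 8 (Pf.B 9 7 (Pf.B 9 3 (Pf.C 1 0x2870604009) (Pf.B 9 6 (Pf.T 9 28 (Pf.cons (Pf.T 9 29 (Pf.cons (Pf.T 9 30 (Pf.cons (Pf.T 9 32 (Pf.cons (Pf.W 81 5 [6] [0,1,3,7,8,9] (Pf.cons (Pf.B 10 8 (Pf.C 70 0x120c508) (Pf.B 10 7 (Pf.C 0 0xe2028a) (Pf.B 10 6 (Pf.C 0 0xc1c28a) (Pf.W 81 5 [6,10] [0,1,3,7,8] (Pf.cons (Pf.B 11 10 (Pf.C 1 0x5051604003) (Pf.B 11 8 (Pf.C 0 0x102828b) (Pf.B 11 7 (Pf.C 0 0xe2028b)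 (Pf.B 11 6 (Pf.C 0 0xc1c28b) (Pf.C 82 0x1414586))))) Pf.nil))))) Pf.nil)) (Pf.cons (Pf.C 73 649) Pf.nil))) Pf.nil)) Pf.nil)) (Pf.cons (Pf.C 70 0x1018289) Pf.nil))) (Pf.T 9 28 (Pf.cons (Pf.T 9 29 (Pf.cons (Pf.T 9 30 (Pf.cons (Pf.T 9 32 (Pf.cons (Pf.W 69 5 [3,9] [0,1,6,7,8] (Pf.cons (Pf.B 10 8 (Pf.C 70 0x120c508) (Pf.B 10 9 (Pf.C 1 0x2881404009) (Pf.B 10 7 (Pf.W 69 6 [3,10] [0,1,7,8,9] (Pf.cons (Pf.B 11 8 (Pf.C 70 0x120c588) (Pf.B 11 7 (Pf.B 11 9 (Pf.C 1 0x386120400b) (Pf.B 11 10 (Pf.C 1 0x5091604007) (Pf.C 0 0x1228588))) (Pf.C 0 0xc2038b))) Pf.nil)) (Pf.C 0 0xa2038a)))) Pf.nil)) (Pf.cons (Pf.C 73 649) Pf.nil))) Pf.nil)) Pf.nil)) (Pf.cons (Pf.T 9 31 (Pf.cons (Pf.T 9 33 (Pf.cons (Pf.W 81 5 [6] [3,7,8,9]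 (Pf.cons (Pf.B 10 9 (Pf.C 70 0x1014509) (Pf.B 10 8 (Pf.C 70 0x120c508) (Pf.B 10 7 (Pf.C 0 0xe2028a) (Pf.B 10 6 (Pf.C 0 0xc1c28a) (Pf.C 0 0x1218505))))) Pf.nil)) (Pf.cons (Pf.C 74 649) Pf.nil))) Pf.nil)) Pf.nil))))) (Pf.B 9 6 (Pf.T 9 28 (Pf.cons (Pf.T 9 29 (Pf.cons (Pf.T 9 30 (Pf.cons (Pf.W 69 5 [3,9] [0,1,6,7,8] (Pf.cons (Pf.B 10 8 (Pf.C 70 0x120c508) (Pf.B 10 9 (Pf.C 1 0x2881404009) (Pf.B 10 7 (Pf.B 10 6 (Pf.B 10 3 (Pf.C 1 0x287060400a) (Pf.C 1 0x48a0618280)) (Pf.C 0 0xa2030a)) (Pf.C 0 0xa2038a)))) Pf.nil)) (Pf.cons (Pf.T 9 32 (Pf.cons (Pf.W 69 5 [3,9] [0,1,7,8] (Pf.cons (Pf.B 10 8 (Pf.C 70 0x120c508) (Pf.B 10 9 (Pf.C 1 0x2881404009) (Pf.B 10 7 (Pf.B 10 3 (Pf.C 1 0x287060400a) (Pf.C 0 0xe2418a)) (Pf.C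 0 0xa2038a)))) Pf.nil)) (Pf.cons (Pf.C 73 649) Pf.nil))) Pf.nil))) Pf.nil)) (Pf.cons (Pf.C 70 0x1018289) Pf.nil))) (Pf.C 0 0xa1c309))) (Pf.B 9 7 (Pf.B 9 6 (Pf.B 9 3 (Pf.C 1 0x2870604009) (Pf.T 9 28 (Pf.cons (Pf.T 9 29 (Pf.cons (Pf.T 9 30 (Pf.cons (Pf.T 9 32 (Pf.cons (Pf.W 69 5 [3,9] [0,1,6,7,8] (Pf.cons (Pf.B 10 9 (Pf.B 10 8 (Pf.C 1 0x4880a0400a) (Pf.B 10 7 (Pf.B 10 6 (Pf.B 10 3 (Pf.C 1 0x287060400a) (Pf.C 1 0x4831418280)) (Pf.C 0 0xa2030a)) (Pf.C 0 0xa2038a))) (Pf.B 10 3 (Pf.C 1 0x1891404005) (Pf.B 10 8 (Pf.B 10 7 (Pf.B 10 6 (Pf.T 10 28 (Pf.cons (Pf.T 10 29 (Pf.cons (Pf.T 10 30 (Pf.cons (Pf.T 10 32 (Pf.cons (Pf.W 81 5 [6] [0,1,3,7,8,10] (Pf.cons (Pf.B 11 8 (Pf.C 70 0x140c588) (Pf.B 11 7 (Pf.C 0 0xe2028b)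 (Pf.B 11 6 (Pf.C 0 0xc1c28b) (Pf.W 81 5 [6,11] [0,1,3,7,8] (Pf.cons (Pf.B 12 11 (Pf.C 1 0x5851804003) (Pf.B 12 8 (Pf.C 0 0x102c28c) (Pf.B 12 7 (Pf.C 0 0xe2028c) (Pf.B 12 6 (Pf.C 0 0xc1c28c) (Pf.C 82 0x1614606))))) Pf.nil))))) Pf.nil)) (Pf.cons (Pf.C 73 650) Pf.nil))) Pf.nil)) Pf.nil)) (Pf.cons (Pf.C 70 0x101828a) Pf.nil))) (Pf.W 69 6 [3,9] [0,1,7,8,10] (Pf.cons (Pf.B 11 8 (Pf.C 70 0x140c588) (Pf.B 11 7 (Pf.B 11 10 (Pf.C 1 0x386140400b) (Pf.B 11 9 (Pf.C 1 0x48a1604007) (Pf.C 0 0x1424588))) (Pf.C 0 0xc2038b))) Pf.nil))) (Pf.C 0 0x120c507)) (Pf.C 0 0x624508)))) Pf.nil)) (Pf.cons (Pf.C 73 649) Pf.nil))) Pf.nil)) Pf.nil)) (Pf.cons (Pf.T 9 31 (Pf.cons (Pf.T 9 33 (Pf.cons (Pf.W 81 5 [6] [0,1,3,8,9] (Pf.cons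 (Pf.B 10 9 (Pf.C 70 0xc14509) (Pf.B 10 8 (Pf.C 1 0x4051404003) (Pf.C 0 0x1220505))) Pf.nil)) (Pf.cons (Pf.C 74 649) Pf.nil))) Pf.nil)) Pf.nil)))) (Pf.C 0 0xa20309)) (Pf.C 0 0xa20389))) Pf.nil)) Pf.nil)) Pf.nil)))))) Pf.nil)) (Pf.cons (Pf.C 26 391) Pf.nil))))) Pf.nil)))
 Pq.nil))))
theorem eK_o89 : AllRef eK_T eK_G106 (closeObl (eK_T.sc.get 3) false [135,136,137] [0,0,0] [4] [0] 2) :=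
  chkPq_sound eK_o89c _ (by decide +kernel)
noncomputable def eK_o90c : Pq := (Pq.cons (Pq.L [0,1,3,4] 0 (Pf.B 9 8 (Pf.C 1 0x4041204003) (Pf.B 9 7 (Pf.C 1 0x3841204003) (Pf.B 9 6 (Pf.C 1 0x3041204003) (Pf.B 9 5 (Pf.C 1 0x2841204003) (Pf.B 8 7 (Pf.C 0 0xe24208) (Pf.B 8 6 (Pf.C 0 0xc24208) (Pf.B 8 5 (Pf.C 0 0xa24208) (Pf.B 7 6 (Pf.C 0 0xc20207) (Pf.B 7 5 (Pf.C 0 0xa20207) (Pf.B 6 5 (Pf.C 0 0xa1c206) (Pf.C 2 0x4880e10286))))))))))))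
 Pq.nil)
theorem eK_o90 : AllRef eK_T eK_G107 (hitObl [136] eK_h142) :=
  chkPq_sound eK_o90c _ (by decide +kernel)
noncomputable def eK_o91c : Pq := (Pq.cons (Pq.L [] 0 (Pf.C 83 5))
 Pq.nil)
theorem eK_o91 : AllRef eK_T eK_G108 (List.map pat1 [138]) :=
  chkPq_sound eK_o91c _ (by decide +kernel)
noncomputable def eK_o92c : Pq := Pq.nil
theorem eK_o92 : AllRef eK_T eK_G9 (ptObl 12 PT.kid []) :=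
  chkPq_sound eK_o92c _ (by decide +kernel)
noncomputable def eK_o93c : Pq := Pq.nil
theorem eK_o93 : AllRef eK_T eK_G110 (ptObl 13 PT.kid []) :=
  chkPq_sound eK_o93c _ (by decide +kernel)
noncomputable def eK_o94c : Pq := Pq.nil
theorem eK_o94 : AllRef eK_T eK_G111 (ptObl 14 PT.kid []) :=
  chkPq_sound eK_o94c _ (by decide +kernel)
noncomputable def eK_o95c : Pq := (Pq.cons (Pq.D 1 (Pq.cons (Pq.D 2 (Pq.cons (Pq.L [11] 7 (Pf.B 14 11 (Pf.B 13 11 (Pf.C 9 0x2c70d) (Pf.B 12 11 (Pf.C 9 0x2c70c) (Pf.C 10 0x2c68c))) (Pf.B 13 11 (Pf.B 12 11 (Pf.C 9 0x2c68c) (Pf.C 10 0x2c70c)) (Pf.C 10 0x2c70d))))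
 (Pq.cons (Pq.L [] 7 (Pf.C 6 0x3868c))
 (Pq.cons (Pq.L [] 7 (Pf.C 8 0x3868c))
 (Pq.cons (Pq.L [] 7 (Pf.C 10 0x3868c))
 Pq.nil))))) (Pq.cons (Pq.D 2 (Pq.cons (Pq.L [] 7 (Pf.C 6 0x3470c))
 (Pq.cons (Pq.L [2] 7 (Pf.C 0 0x43868c))
 (Pq.cons (Pq.L [0,1,2,3,4,5,6,7,8,9,10,11] 7 (Pf.B 14 11 (Pf.B 14 10 (Pf.B 14 7 (Pf.B 14 4 (Pf.B 14 9 (Pf.B 14 8 (Pf.B 13 11 (Pf.B 13 9 (Pf.B 13 10 (Pf.B 13 8 (Pf.C 1 0x5801038689) (Pf.B 13 7 (Pf.C 1 0x5010e20689) (Pf.C 1 0x70d0e2c009))) (Pf.C 1 0x70d142c009)) (Pf.C 15 0x2c48d)) (Pf.B 12 11 (Pf.B 12 10 (Pf.C 1 0x580043860a) (Pf.B 13 10 (Pf.B 13 9 (Pf.B 13 8 (Pf.B 13 7 (Pf.C 1 0x5010e2c688) (Pf.C 1 0x70d0e20009)) (Pf.C 1 0x58d1028089)) (Pf.C 14 0x2848d)) (Pf.C 0 0x1c3068a)))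 (Pf.C 0 0x1c3460b))) (Pf.B 14 6 (Pf.C 1 0x4820c20704) (Pf.B 14 5 (Pf.C 1 0x5800a18704) (Pf.C 1 0x40e0a24104)))) (Pf.B 14 8 (Pf.C 1 0x5801024704) (Pf.B 14 6 (Pf.B 14 5 (Pf.C 1 0x5800a24704) (Pf.C 1 0x40e0a18104)) (Pf.C 1 0x48e0c2c004)))) (Pf.C 18 0x2c20e)) (Pf.C 18 0x2c38e)) (Pf.C 18 0x2c50e)) (Pf.B 14 10 (Pf.B 14 9 (Pf.B 14 8 (Pf.B 14 7 (Pf.B 14 6 (Pf.C 1 0x4820c2c707) (Pf.B 14 5 (Pf.C 1 0x4000a18707) (Pf.C 1 0x58e0a24107))) (Pf.C 16 0x1c709)) (Pf.C 1 0x58e102410a)) (Pf.B 14 8 (Pf.B 14 7 (Pf.B 14 6 (Pf.B 14 5 (Pf.C 1 0x4000a24706) (Pf.C 1 0x58e0a18107)) (Pf.C 1 0x48e0c20007)) (Pf.C 18 0x2038e)) (Pf.B 14 6 (Pf.C 1 0x58e100830a) (Pf.B 14 5 (Pf.C 1 0x48e0c0028a) (Pf.B 14 3 (Pf.C 1 0x40e0a0818a) (Pf.B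 13 3 (Pf.B 12 3 (Pf.B 13 11 (Pf.B 12 11 (Pf.C 1 0x801634603) (Pf.C 0 0x1a3860b)) (Pf.B 13 8 (Pf.B 13 5 (Pf.B 13 10 (Pf.B 13 7 (Pf.C 1 0x5010e2c683) (Pf.C 1 0x4000a1c683)) (Pf.C 1 0x4000a28683)) (Pf.C 0 0x1638685)) (Pf.C 0 0x1638688))) (Pf.C 0 0x1a38603)) (Pf.C 0 0x1c0c682))))))) (Pf.B 12 10 (Pf.C 12 0x2870c) (Pf.C 0 0x23850c)))))
 (Pq.cons (Pq.L [0,1,2,3,4,5,6,7,8,9,10,11] 7 (Pf.B 14 11 (Pf.B 14 10 (Pf.B 14 8 (Pf.B 14 5 (Pf.B 14 9 (Pf.B 14 7 (Pf.B 14 6 (Pf.B 14 4 (Pf.B 14 3 (Pf.B 13 11 (Pf.B 13 3 (Pf.B 13 10 (Pf.B 13 8 (Pf.B 13 7 (Pf.C 1 0x5010e38683) (Pf.C 1 0x580101c683)) (Pf.C 1 0x70d1028083)) (Pf.B 13 8 (Pf.C 1 0x5801028683) (Pf.B 13 7 (Pf.C 1 0x70d1004383) (Pf.C 1 0x50d0e2c003)))) (Pf.C 15 0x2c18d))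 (Pf.B 12 11 (Pf.B 12 10 (Pf.C 1 0x101143860b) (Pf.B 13 10 (Pf.B 13 9 (Pf.C 1 0x70d1628089) (Pf.C 14 0x2848d)) (Pf.C 0 0x1c3068a))) (Pf.C 0 0x1c3460b))) (Pf.C 1 0x381080c705)) (Pf.C 1 0x4820c10705)) (Pf.C 1 0x5010e18705)) (Pf.B 14 6 (Pf.C 1 0x4820c1c705) (Pf.B 14 4 (Pf.C 1 0x5010818705) (Pf.C 1 0x38e0824105)))) (Pf.B 14 7 (Pf.C 1 0x5010e24705) (Pf.B 14 6 (Pf.B 14 4 (Pf.C 1 0x5010824705) (Pf.C 1 0x38e0818105)) (Pf.C 1 0x48e0c28085)))) (Pf.C 19 83722)) (Pf.C 19 0x2070a)) (Pf.B 14 9 (Pf.B 14 8 (Pf.B 14 7 (Pf.B 14 6 (Pf.C 1 0x4820c28707) (Pf.B 14 5 (Pf.B 14 4 (Pf.C 1 0x3810818705) (Pf.C 1 0x50e0824105)) (Pf.C 17 83721))) (Pf.C 1 0x50e0e24108)) (Pf.C 17 0x20709)) (Pf.B 14 8 (Pf.B 14 7 (Pf.B 14 6 (Pf.B 14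 5 (Pf.B 14 4 (Pf.C 1 0x3810824705) (Pf.C 1 0x50e0818105)) (Pf.C 17 83718)) (Pf.C 1 0x48e0c1c088)) (Pf.B 14 6 (Pf.C 1 0x50e0e08308) (Pf.B 14 4 (Pf.C 1 0x48e0c04208) (Pf.B 14 3 (Pf.C 1 0x38e0808188) (Pf.B 13 6 (Pf.B 13 3 (Pf.B 12 6 (Pf.B 12 3 (Pf.B 13 11 (Pf.B 12 11 (Pf.C 1 0x801634603) (Pf.B 12 10 (Pf.C 1 0x302062c60a) (Pf.B 13 10 (Pf.C 0 0x143860d) (Pf.B 13 8 (Pf.C 1 0x5801028683) (Pf.B 13 7 (Pf.B 13 5 (Pf.C 1 0x5800a28683) (Pf.C 1 0x40d0a1c083)) (Pf.C 0 0x1438687)))))) (Pf.B 12 11 (Pf.B 12 10 (Pf.B 13 10 (Pf.C 1 0x11430683) (Pf.C 0 0x183868a)) (Pf.C 1 0x302062860b)) (Pf.C 0 0x1c3460b))) (Pf.C 0 0x1a38603)) (Pf.C 0 0x1a38606)) (Pf.C 0 0x1c0c682)) (Pf.C 0 0x1c18682)))))) (Pf.B 12 8 (Pf.C 13 0x2070c)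 (Pf.C 0 0x3840c))))) (Pf.B 12 11 (Pf.C 13 0x2c70c) (Pf.C 0 0x3858c))))
 Pq.nil))))) (Pq.cons (Pq.D 2 (Pq.cons (Pq.L [] 7 (Pf.C 8 0x3470c))
 (Pq.cons (Pq.L [0,1,2,3,4,5,6,7,8,9,10,11] 7 (Pf.B 14 11 (Pf.B 14 9 (Pf.B 14 6 (Pf.B 14 3 (Pf.B 14 10 (Pf.B 14 8 (Pf.B 14 7 (Pf.B 13 11 (Pf.B 13 10 (Pf.B 13 9 (Pf.B 13 8 (Pf.C 1 0x5801038689) (Pf.B 13 7 (Pf.B 13 6 (Pf.C 1 0x4820c20687) (Pf.C 1 0x70d0c2c007)) (Pf.C 16 0x1c689))) (Pf.C 1 0x70d122c00a)) (Pf.C 18 0x2c50d)) (Pf.B 12 11 (Pf.B 12 9 (Pf.C 1 0x5800238609) (Pf.B 13 9 (Pf.B 13 10 (Pf.B 13 8 (Pf.B 13 7 (Pf.B 13 6 (Pf.C 1 0x4820c2c687) (Pf.C 1 0x70d0c20007)) (Pf.C 16 0x1c689)) (Pf.C 1 0x58d102410a)) (Pf.C 16 0x28689)) (Pf.C 0 0x1c30689))) (Pf.C 0 0x1c3460b)))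 (Pf.C 1 0x580101c703)) (Pf.B 14 7 (Pf.C 1 0x5010e20703) (Pf.B 14 5 (Pf.C 1 0x5800a1c703) (Pf.C 1 0x40e0a28083)))) (Pf.B 14 8 (Pf.C 1 0x5801028703) (Pf.B 14 7 (Pf.B 14 5 (Pf.C 1 0x5800a28703) (Pf.C 1 0x40e0a1c083)) (Pf.C 1 0x50e0e2c003)))) (Pf.C 15 0x2c18e)) (Pf.C 15 0x2c30e)) (Pf.C 15 0x2c48e)) (Pf.B 14 10 (Pf.B 14 9 (Pf.B 14 8 (Pf.B 14 7 (Pf.C 1 0x5010e2c708) (Pf.B 14 6 (Pf.B 14 5 (Pf.C 1 0x4000a1c706) (Pf.C 1 0x58e0a28086)) (Pf.C 14 0x2830e))) (Pf.C 1 0x58e1028089)) (Pf.C 14 0x2848e)) (Pf.B 14 9 (Pf.B 14 8 (Pf.B 14 7 (Pf.B 14 6 (Pf.B 14 5 (Pf.C 1 0x4000a28706) (Pf.C 1 0x58e0a1c086)) (Pf.C 14 0x1c30e)) (Pf.C 1 0x50e0e20009)) (Pf.B 14 7 (Pf.C 1 0x58e1004389) (Pf.B 14 5 (Pf.C 1 0x50e0e00289) (Pf.B 14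 4 (Pf.C 1 0x40e0a04209) (Pf.B 13 4 (Pf.B 12 4 (Pf.B 13 11 (Pf.B 12 11 (Pf.C 1 0x1001634604) (Pf.C 0 0x1a3860b)) (Pf.B 13 8 (Pf.B 13 5 (Pf.B 13 9 (Pf.B 13 6 (Pf.C 1 0x4820c2c684) (Pf.C 1 0x4000a18684)) (Pf.C 1 0x4000a24684)) (Pf.C 0 0x1638685)) (Pf.C 0 0x1638688))) (Pf.C 0 0x1a38604)) (Pf.C 0 0x1c10681)))))) (Pf.B 12 9 (Pf.C 11 0x2470c) (Pf.C 0 0x43848c))))))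
 (Pq.cons (Pq.L [1] 7 (Pf.C 0 0x23868c))
 (Pq.cons (Pq.L [0,1,2,4,5,6,7,8,9,10,11] 7 (Pf.B 14 11 (Pf.B 14 10 (Pf.B 14 8 (Pf.B 14 5 (Pf.B 14 9 (Pf.B 14 7 (Pf.B 14 6 (Pf.B 14 4 (Pf.B 13 11 (Pf.B 13 4 (Pf.B 13 9 (Pf.B 13 8 (Pf.B 13 6 (Pf.C 1 0x4820c38684) (Pf.C 1 0x5801018684)) (Pf.C 1 0x70d1024104)) (Pf.B 13 8 (Pf.C 1 0x5801024684) (Pf.B 13 6 (Pf.C 1 0x70d1008304) (Pf.C 1 0x48d0c2c004)))) (Pf.C 18 0x2c20d)) (Pf.B 12 11 (Pf.B 12 10 (Pf.C 1 0x101143860b) (Pf.B 13 10 (Pf.B 13 9 (Pf.C 1 0x70d160848a) (Pf.B 12 9 (Pf.C 1 0x82123860b) (Pf.C 0 0x1c34609))) (Pf.C 0 0x1c3068a))) (Pf.C 0 0x1c3460b))) (Pf.C 1 0x4820c10705)) (Pf.C 1 0x5010e18705)) (Pf.B 14 6 (Pf.C 1 0x4820c1c705) (Pf.B 14 4 (Pf.C 1 0x5010818705)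 (Pf.C 1 0x38e0824105)))) (Pf.B 14 7 (Pf.C 1 0x5010e24705) (Pf.B 14 6 (Pf.B 14 4 (Pf.C 1 0x5010824705) (Pf.C 1 0x38e0818105)) (Pf.C 1 0x48e0c28085)))) (Pf.C 19 83722)) (Pf.C 19 0x2070a)) (Pf.B 14 9 (Pf.B 14 8 (Pf.B 14 7 (Pf.B 14 6 (Pf.C 1 0x4820c28707) (Pf.B 14 5 (Pf.B 14 4 (Pf.C 1 0x3810818705) (Pf.C 1 0x50e0824105)) (Pf.C 17 83721))) (Pf.C 1 0x50e0e24108)) (Pf.C 17 0x20709)) (Pf.B 14 8 (Pf.B 14 7 (Pf.B 14 6 (Pf.B 14 5 (Pf.B 14 4 (Pf.C 1 0x3810824705) (Pf.C 1 0x50e0818105)) (Pf.C 17 83718)) (Pf.C 1 0x48e0c1c088)) (Pf.B 14 6 (Pf.C 1 0x50e0e08308) (Pf.B 14 4 (Pf.C 1 0x48e0c04208) (Pf.B 13 7 (Pf.B 13 4 (Pf.B 12 7 (Pf.B 12 4 (Pf.B 13 11 (Pf.B 12 11 (Pf.C 1 0x1001634604) (Pf.B 12 9 (Pf.C 1 0x381082c609)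 (Pf.B 13 9 (Pf.C 0 0x123860d) (Pf.B 13 8 (Pf.C 1 0x5801024684) (Pf.B 13 6 (Pf.B 13 5 (Pf.C 1 0x5800a24684) (Pf.C 1 0x40d0a18104)) (Pf.C 0 0x1238686)))))) (Pf.B 12 11 (Pf.B 12 9 (Pf.B 13 9 (Pf.C 1 0x21230684) (Pf.C 0 0x1838689)) (Pf.C 1 0x381082460b)) (Pf.C 0 0x1c3460b))) (Pf.C 0 0x1a38604)) (Pf.C 0 0x1a38607)) (Pf.C 0 0x1c10681)) (Pf.C 0 0x1c1c681))))) (Pf.B 12 8 (Pf.C 13 0x2070c) (Pf.C 0 0x3840c))))) (Pf.B 12 11 (Pf.C 13 0x2c70c) (Pf.C 0 0x3858c))))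
 Pq.nil))))) (Pq.cons (Pq.D 2 (Pq.cons (Pq.L [] 7 (Pf.C 10 0x3470c))
 (Pq.cons (Pq.L [0,1,2,3,4,5,6,7,8,9,10,11] 7 (Pf.B 14 11 (Pf.B 14 9 (Pf.B 14 6 (Pf.B 14 3 (Pf.B 14 10 (Pf.B 14 8 (Pf.B 14 7 (Pf.B 13 11 (Pf.B 13 10 (Pf.B 13 9 (Pf.B 13 8 (Pf.B 13 7 (Pf.C 1 0x5010e38688) (Pf.B 13 6 (Pf.C 1 0x4820c1c688) (Pf.C 1 0x70d0c28088))) (Pf.C 17 0x20689)) (Pf.C 1 0x70d122808b)) (Pf.B 12 10 (Pf.B 12 9 (Pf.C 1 0x5010038609) (Pf.B 13 9 (Pf.B 13 8 (Pf.B 13 7 (Pf.B 13 6 (Pf.C 1 0x4820c28687) (Pf.C 1 0x70d0c1c088)) (Pf.C 1 0x50d0e24108)) (Pf.C 17 0x20689)) (Pf.C 0 0x1c30689))) (Pf.C 0 0x1c3460a))) (Pf.B 12 11 (Pf.C 13 0x2c68c) (Pf.C 0 0x3458c))) (Pf.C 1 0x580101c703)) (Pf.B 14 7 (Pf.C 1 0x5010e20703) (Pf.B 14 5 (Pf.C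 1 0x5800a1c703) (Pf.C 1 0x40e0a28083)))) (Pf.B 14 8 (Pf.C 1 0x5801028703) (Pf.B 14 7 (Pf.B 14 5 (Pf.C 1 0x5800a28703) (Pf.C 1 0x40e0a1c083)) (Pf.C 1 0x50e0e2c003)))) (Pf.C 15 0x2c18e)) (Pf.C 15 0x2c30e)) (Pf.C 15 0x2c48e)) (Pf.B 14 10 (Pf.B 14 9 (Pf.B 14 8 (Pf.B 14 7 (Pf.C 1 0x5010e2c708) (Pf.B 14 6 (Pf.B 14 5 (Pf.C 1 0x4000a1c706) (Pf.C 1 0x58e0a28086)) (Pf.C 14 0x2830e))) (Pf.C 1 0x58e1028089)) (Pf.C 14 0x2848e)) (Pf.B 14 9 (Pf.B 14 8 (Pf.B 14 7 (Pf.B 14 6 (Pf.B 14 5 (Pf.C 1 0x4000a28706) (Pf.C 1 0x58e0a1c086)) (Pf.C 14 0x1c30e)) (Pf.C 1 0x50e0e20009)) (Pf.B 14 7 (Pf.C 1 0x58e1004389) (Pf.B 14 5 (Pf.C 1 0x50e0e00289) (Pf.B 14 4 (Pf.C 1 0x40e0a04209) (Pf.B 13 5 (Pf.B 12 5 (Pf.B 13 10 (Pf.B 12 10 (Pf.C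 1 0x1011434605) (Pf.C 0 0x1a3860a)) (Pf.B 13 7 (Pf.B 13 4 (Pf.B 13 9 (Pf.B 13 6 (Pf.C 1 0x4820c28684) (Pf.C 1 0x3810818685)) (Pf.C 1 0x3810824685)) (Pf.C 0 0x1438684)) (Pf.C 0 0x1438687))) (Pf.C 0 0x1a38605)) (Pf.C 0 0x1c14680)))))) (Pf.B 12 9 (Pf.C 11 0x2470c) (Pf.C 0 0x43848c))))))
 (Pq.cons (Pq.L [0,1,2,4,5,6,7,8,9,10,11] 7 (Pf.B 14 11 (Pf.B 14 10 (Pf.B 14 7 (Pf.B 14 4 (Pf.B 14 9 (Pf.B 14 8 (Pf.B 14 6 (Pf.B 14 5 (Pf.B 13 11 (Pf.B 13 10 (Pf.B 13 5 (Pf.B 13 9 (Pf.B 13 7 (Pf.B 13 6 (Pf.C 1 0x4820c38685) (Pf.C 1 0x5010e18685)) (Pf.C 1 0x70d0e24105)) (Pf.B 13 7 (Pf.C 1 0x5010e24685) (Pf.B 13 6 (Pf.C 1 0x70d0e08305) (Pf.C 1 0x48d0c28085)))) (Pf.C 19 83594)) (Pf.B 13 9 (Pf.C 1 0x70d140848b) (Pf.B 12 10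 (Pf.B 12 9 (Pf.C 1 0x2123860a) (Pf.C 0 0x1c34609)) (Pf.C 0 0x1c3460a)))) (Pf.B 12 11 (Pf.C 13 0x2c68c) (Pf.C 0 0x3458c))) (Pf.C 1 0x4820c14704)) (Pf.C 1 0x5801018704)) (Pf.B 14 6 (Pf.C 1 0x4820c20704) (Pf.B 14 5 (Pf.C 1 0x5800a18704) (Pf.C 1 0x40e0a24104)))) (Pf.B 14 8 (Pf.C 1 0x5801024704) (Pf.B 14 6 (Pf.B 14 5 (Pf.C 1 0x5800a24704) (Pf.C 1 0x40e0a18104)) (Pf.C 1 0x48e0c2c004)))) (Pf.C 18 0x2c20e)) (Pf.C 18 0x2c38e)) (Pf.C 18 0x2c50e)) (Pf.B 14 10 (Pf.B 14 9 (Pf.B 14 8 (Pf.B 14 7 (Pf.B 14 6 (Pf.C 1 0x4820c2c707) (Pf.B 14 5 (Pf.C 1 0x4000a18707) (Pf.C 1 0x58e0a24107))) (Pf.C 16 0x1c709)) (Pf.C 1 0x58e102410a)) (Pf.B 14 8 (Pf.B 14 7 (Pf.B 14 6 (Pf.B 14 5 (Pf.C 1 0x4000a24706) (Pf.C 1 0x58e0a18107))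 (Pf.C 1 0x48e0c20007)) (Pf.C 18 0x2038e)) (Pf.B 14 6 (Pf.C 1 0x58e100830a) (Pf.B 14 5 (Pf.C 1 0x48e0c0028a) (Pf.B 13 8 (Pf.B 13 5 (Pf.B 12 8 (Pf.B 12 5 (Pf.B 13 10 (Pf.B 12 10 (Pf.C 1 0x1011434605) (Pf.B 12 9 (Pf.C 1 0x4000a28609) (Pf.B 13 9 (Pf.C 0 0x123860d) (Pf.B 13 7 (Pf.C 1 0x5010e24685) (Pf.B 13 6 (Pf.B 13 4 (Pf.C 1 0x5010824685) (Pf.C 1 0x38d0818105)) (Pf.C 0 0x1238686)))))) (Pf.B 12 10 (Pf.B 12 9 (Pf.B 13 9 (Pf.C 1 0x821230685) (Pf.C 0 0x1838689)) (Pf.C 1 0x4000a2460a)) (Pf.C 0 0x1c3460a))) (Pf.C 0 0x1a38605)) (Pf.C 0 0x1a38608)) (Pf.C 0 0x1c14680)) (Pf.C 0 0x1c20680)))))) (Pf.B 12 10 (Pf.C 12 0x2870c) (Pf.C 0 0x23850c)))))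
 (Pq.cons (Pq.L [0] 7 (Pf.C 0 0x3868c))
 Pq.nil))))) Pq.nil))))) (Pq.cons (Pq.D 1 (Pq.cons (Pq.D 2 (Pq.cons (Pq.L [] 7 (Pf.C 6 0x3070d))
 (Pq.cons (Pq.L [2] 7 (Pf.C 0 0x1a38602))
 (Pq.cons (Pq.L [0,1,2,3,4,5,6,7,8,9,10,11] 7 (Pf.B 14 11 (Pf.B 14 10 (Pf.B 14 7 (Pf.B 14 4 (Pf.B 14 9 (Pf.B 14 8 (Pf.B 13 11 (Pf.B 13 10 (Pf.C 1 0x580043868a) (Pf.B 13 7 (Pf.C 1 0x5800428687) (Pf.B 12 10 (Pf.B 12 9 (Pf.B 12 7 (Pf.B 12 11 (Pf.B 12 8 (Pf.C 1 0x5801038607) (Pf.C 1 0x5010e20609)) (Pf.C 1 0x5010e2c609)) (Pf.C 0 0x1c34607)) (Pf.C 14 0x2848c)) (Pf.C 0 0x1c3460a)))) (Pf.B 12 11 (Pf.B 12 9 (Pf.B 12 10 (Pf.B 12 8 (Pf.C 1 0x5801038609) (Pf.B 13 8 (Pf.B 13 10 (Pf.C 1 0x400043868a) (Pf.B 13 7 (Pf.C 1 0x4000428687) (Pf.B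 12 7 (Pf.C 1 0x5010e20609) (Pf.C 0 0x1c34607)))) (Pf.C 0 0x1c30688))) (Pf.C 1 0x70c142c009)) (Pf.C 15 0x2c48c)) (Pf.C 0 0x1c3460b))) (Pf.B 14 6 (Pf.C 1 0x4820c20704) (Pf.B 14 5 (Pf.C 1 0x5800a18704) (Pf.C 1 0x40e0a24104)))) (Pf.B 14 8 (Pf.C 1 0x5801024704) (Pf.B 14 6 (Pf.B 14 5 (Pf.C 1 0x5800a24704) (Pf.C 1 0x40e0a18104)) (Pf.C 1 0x48e0c2c004)))) (Pf.C 18 0x2c20e)) (Pf.C 18 0x2c38e)) (Pf.C 18 0x2c50e)) (Pf.B 14 10 (Pf.B 14 9 (Pf.B 14 8 (Pf.B 14 7 (Pf.B 14 6 (Pf.C 1 0x4820c2c707) (Pf.B 14 5 (Pf.C 1 0x4000a18707) (Pf.C 1 0x58e0a24107))) (Pf.C 16 0x1c709)) (Pf.C 1 0x58e102410a)) (Pf.B 14 8 (Pf.B 14 7 (Pf.B 14 6 (Pf.B 14 5 (Pf.C 1 0x4000a24706) (Pf.C 1 0x58e0a18107)) (Pf.C 1 0x48e0c20007)) (Pf.C 18 0x2038e))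 (Pf.B 14 6 (Pf.C 1 0x58e100830a) (Pf.B 14 5 (Pf.C 1 0x48e0c0028a) (Pf.B 14 3 (Pf.C 1 0x40e0a0818a) (Pf.B 12 6 (Pf.B 13 6 (Pf.B 12 3 (Pf.B 13 3 (Pf.B 13 11 (Pf.B 12 11 (Pf.C 1 0x801634603) (Pf.C 0 0x1a3860b)) (Pf.B 13 10 (Pf.C 1 0x302062c68a) (Pf.B 13 8 (Pf.C 1 0x3020628688) (Pf.C 0 0x1638688)))) (Pf.C 0 0x1838683)) (Pf.C 0 0x1c0c602)) (Pf.C 0 0x1838686)) (Pf.C 0 0x1c18602))))))) (Pf.B 13 10 (Pf.C 12 0x2870d) (Pf.C 0 0x23850d)))))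
 (Pq.cons (Pq.L [0,1,2,3,4,5,6,7,8,9,10,11] 7 (Pf.B 14 11 (Pf.B 14 10 (Pf.B 14 8 (Pf.B 14 5 (Pf.B 14 9 (Pf.B 14 7 (Pf.B 13 11 (Pf.B 13 10 (Pf.C 1 0x101143868b) (Pf.B 13 9 (Pf.C 1 0x82123868b) (Pf.B 13 8 (Pf.B 13 7 (Pf.C 1 0x5801024687) (Pf.B 12 10 (Pf.B 12 9 (Pf.B 12 8 (Pf.B 12 7 (Pf.C 1 0x5010e38608) (Pf.C 0 0x1c34607)) (Pf.C 1 0x70c1028089)) (Pf.C 14 0x2848c)) (Pf.C 0 0x1c3460a))) (Pf.C 1 0x70d100808b)))) (Pf.B 13 8 (Pf.C 1 0x70d1608088) (Pf.B 12 11 (Pf.B 12 9 (Pf.B 12 8 (Pf.B 12 10 (Pf.B 12 7 (Pf.C 1 0x5010e38608) (Pf.C 1 0x580101c609)) (Pf.C 1 0x5801028609)) (Pf.C 0 0x1c34608)) (Pf.C 15 0x2c48c)) (Pf.C 0 0x1c3460b)))) (Pf.B 14 6 (Pf.C 1 0x4820c1c705) (Pf.B 14 4 (Pf.C 1 0x5010818705) (Pf.C 1 0x38e0824105))))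 (Pf.B 14 7 (Pf.C 1 0x5010e24705) (Pf.B 14 6 (Pf.B 14 4 (Pf.C 1 0x5010824705) (Pf.C 1 0x38e0818105)) (Pf.C 1 0x48e0c28085)))) (Pf.C 19 83722)) (Pf.C 19 0x2070a)) (Pf.B 14 9 (Pf.B 14 8 (Pf.B 14 7 (Pf.B 14 6 (Pf.C 1 0x4820c28707) (Pf.B 14 5 (Pf.B 14 4 (Pf.C 1 0x3810818705) (Pf.C 1 0x50e0824105)) (Pf.C 17 83721))) (Pf.C 1 0x50e0e24108)) (Pf.C 17 0x20709)) (Pf.B 14 8 (Pf.B 14 7 (Pf.B 14 6 (Pf.B 14 5 (Pf.B 14 4 (Pf.C 1 0x3810824705) (Pf.C 1 0x50e0818105)) (Pf.C 17 83718)) (Pf.C 1 0x48e0c1c088)) (Pf.B 14 6 (Pf.C 1 0x50e0e08308) (Pf.B 14 4 (Pf.C 1 0x48e0c04208) (Pf.B 14 3 (Pf.C 1 0x38e0808188) (Pf.B 12 6 (Pf.B 13 6 (Pf.B 12 3 (Pf.B 13 3 (Pf.B 13 11 (Pf.B 13 10 (Pf.B 12 10 (Pf.C 1 0x11434603) (Pf.C 0 0x1a3860a))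 (Pf.C 1 0x302062868b)) (Pf.B 13 10 (Pf.C 1 0x302062c68a) (Pf.B 13 8 (Pf.C 1 0x3020628688) (Pf.B 13 7 (Pf.C 1 0x3020620687) (Pf.C 0 0x1438687))))) (Pf.C 0 0x1838683)) (Pf.C 0 0x1c0c602)) (Pf.C 0 0x1838686)) (Pf.C 0 0x1c18602)))))) (Pf.B 13 8 (Pf.C 13 0x2070d) (Pf.C 0 0x3840d))))) (Pf.B 13 11 (Pf.C 13 0x2c70d) (Pf.C 0 0x3858d))))
 Pq.nil))))) (Pq.cons (Pq.D 2 (Pq.cons (Pq.L [2] 7 (Pf.C 0 0x1c34602))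
 (Pq.cons (Pq.L [2,11] 7 (Pf.B 14 11 (Pf.B 13 11 (Pf.C 15 0x2c70d) (Pf.B 12 11 (Pf.C 15 0x2c70c) (Pf.C 0 0x43460b))) (Pf.B 13 11 (Pf.B 12 11 (Pf.C 15 0x2c68c) (Pf.C 0 0x43860b)) (Pf.C 0 0x43868b))))
 (Pq.cons (Pq.L [2] 7 (Pf.C 0 0x1c34602))
 (Pq.cons (Pq.L [2] 7 (Pf.C 0 0x1c34602))
 Pq.nil))))) (Pq.cons (Pq.D 2 (Pq.cons (Pq.L [0,1,2,3,4,5,6,7,8,9,10,11] 7 (Pf.B 14 11 (Pf.B 14 10 (Pf.B 14 8 (Pf.B 14 9 (Pf.B 13 10 (Pf.B 13 11 (Pf.C 1 0x100163868a) (Pf.B 12 11 (Pf.B 12 9 (Pf.C 1 0x5800238609) (Pf.C 11 0x2460e)) (Pf.C 0 0x1c3460b))) (Pf.C 12 0x2868e)) (Pf.C 1 0x580102470a)) (Pf.C 1 0x501042070b)) (Pf.B 14 7 (Pf.C 1 0x5800428707) (Pf.B 14 9 (Pf.C 1 0x50e0e2c009) (Pf.B 14 6 (Pf.C 1 0x5800224706) (Pf.B 14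 4 (Pf.C 1 0x580041c704) (Pf.B 13 10 (Pf.B 13 7 (Pf.B 13 4 (Pf.B 12 10 (Pf.B 12 9 (Pf.B 13 9 (Pf.B 12 7 (Pf.B 12 11 (Pf.B 12 8 (Pf.B 12 6 (Pf.B 13 6 (Pf.B 13 11 (Pf.B 13 8 (Pf.C 1 0x5801030686) (Pf.C 1 0x4820c20684)) (Pf.C 1 0x4820c2c684)) (Pf.C 0 0x1838686)) (Pf.C 14 0x1c30c)) (Pf.C 1 0x5010e20609)) (Pf.C 1 0x5010e2c609)) (Pf.C 0 0x1a38607)) (Pf.C 0 0x1838689)) (Pf.C 14 0x2848c)) (Pf.C 0 0x1a3860a)) (Pf.C 0 0x1c10681)) (Pf.C 0 0x1c1c681)) (Pf.C 0 0x1c28681))))))) (Pf.B 14 10 (Pf.B 14 8 (Pf.C 1 0x501042c708) (Pf.B 14 9 (Pf.C 1 0x58e1028089) (Pf.B 14 6 (Pf.C 1 0x5010024706) (Pf.B 12 9 (Pf.B 13 9 (Pf.B 13 4 (Pf.B 12 6 (Pf.B 13 6 (Pf.B 13 11 (Pf.B 13 8 (Pf.B 12 11 (Pf.B 12 8 (Pf.C 1 0x5801034606) (Pf.C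 0 0x1a38608)) (Pf.C 0 0x1a3860b)) (Pf.C 1 0x4820c20684)) (Pf.C 1 0x4820c2c684)) (Pf.C 0 0x1838686)) (Pf.C 0 0x1c18602)) (Pf.C 16 67209)) (Pf.C 0 0x1838689)) (Pf.C 0 0x1c24602))))) (Pf.B 13 10 (Pf.B 12 10 (Pf.B 12 9 (Pf.B 12 6 (Pf.B 12 3 (Pf.B 14 9 (Pf.B 14 8 (Pf.C 1 0x482022c708) (Pf.B 14 7 (Pf.C 1 0x4820028707) (Pf.B 14 6 (Pf.B 14 4 (Pf.C 1 0x302001c704) (Pf.B 13 7 (Pf.B 13 4 (Pf.B 12 7 (Pf.B 12 11 (Pf.B 13 11 (Pf.B 13 9 (Pf.B 13 6 (Pf.B 13 8 (Pf.B 13 5 (Pf.B 13 3 (Pf.B 12 8 (Pf.C 1 0x5801034603) (Pf.C 0 0x1a38608)) (Pf.C 1 0x4000a0c684)) (Pf.C 1 0x4820c14684)) (Pf.C 1 0x4820c20684)) (Pf.C 1 0x60d0c2c007)) (Pf.C 1 0x60d122c007)) (Pf.C 0 0x183868b)) (Pf.C 1 0x5010e2c603)) (Pf.C 0 0x1a38607)) (Pf.C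 0 0x1c10681)) (Pf.C 0 0x1c1c681))) (Pf.C 1 0x60e0c04009)))) (Pf.B 14 6 (Pf.C 1 0x60e1204006) (Pf.B 14 3 (Pf.C 1 0x48e0c04003) (Pf.B 13 9 (Pf.B 13 7 (Pf.B 14 7 (Pf.C 1 0x68e1408007) (Pf.B 13 6 (Pf.B 13 11 (Pf.B 13 8 (Pf.B 13 3 (Pf.B 12 11 (Pf.B 12 8 (Pf.C 1 0x5801034603) (Pf.B 12 7 (Pf.C 1 0x5010e20603) (Pf.C 0 0x1a38607))) (Pf.C 0 0x1a3860b)) (Pf.C 0 0x1838683)) (Pf.C 1 0x4820c20687)) (Pf.C 1 0x4820c2c687)) (Pf.C 0 0x1838686))) (Pf.C 16 0x1c689)) (Pf.C 0 0x1838689))))) (Pf.C 14 0x2818c)) (Pf.C 14 0x2830c)) (Pf.C 14 0x2848c)) (Pf.C 0 0x1a3860a)) (Pf.C 0 0x1c28681)))))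
 (Pq.cons (Pq.L [2] 7 (Pf.C 0 0x1a38602))
 (Pq.cons (Pq.L [1] 7 (Pf.C 0 0x23868c))
 (Pq.cons (Pq.L [0,1,2,3,4,5,6,7,8,9,10,11] 7 (Pf.B 14 11 (Pf.B 14 10 (Pf.B 14 8 (Pf.B 14 5 (Pf.B 14 9 (Pf.B 14 7 (Pf.B 14 6 (Pf.B 14 4 (Pf.B 14 3 (Pf.B 13 11 (Pf.B 13 4 (Pf.B 13 9 (Pf.B 13 8 (Pf.B 13 6 (Pf.C 1 0x4820c38684) (Pf.C 1 0x5801018684)) (Pf.C 1 0x70d1024104)) (Pf.B 13 8 (Pf.C 1 0x5801024684) (Pf.B 13 6 (Pf.C 1 0x70d1008304) (Pf.C 1 0x48d0c2c004)))) (Pf.C 18 0x2c20d)) (Pf.B 12 11 (Pf.B 12 3 (Pf.B 13 10 (Pf.B 13 9 (Pf.C 1 0x70d160848a) (Pf.B 13 6 (Pf.C 1 0x70d160830a) (Pf.B 13 8 (Pf.C 1 0x48d0c0040a) (Pf.B 12 8 (Pf.B 12 10 (Pf.B 12 7 (Pf.C 1 0x5010e38603) (Pf.C 1 0x580101c603)) (Pf.C 1 0x5801028603)) (Pf.C 0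 0x1c34608))))) (Pf.B 13 8 (Pf.C 18 0x2050d) (Pf.B 12 10 (Pf.B 12 8 (Pf.B 12 7 (Pf.C 1 0x5010e38603) (Pf.C 1 0x580101c603)) (Pf.C 0 0x1c34608)) (Pf.C 0 0x23450c)))) (Pf.C 15 0x2c18c)) (Pf.C 0 0x1c3460b))) (Pf.C 1 0x381080c705)) (Pf.C 1 0x4820c10705)) (Pf.C 1 0x5010e18705)) (Pf.B 14 6 (Pf.C 1 0x4820c1c705) (Pf.B 14 4 (Pf.C 1 0x5010818705) (Pf.C 1 0x38e0824105)))) (Pf.B 14 7 (Pf.C 1 0x5010e24705) (Pf.B 14 6 (Pf.B 14 4 (Pf.C 1 0x5010824705) (Pf.C 1 0x38e0818105)) (Pf.C 1 0x48e0c28085)))) (Pf.C 19 83722)) (Pf.C 19 0x2070a)) (Pf.B 13 10 (Pf.B 12 10 (Pf.B 12 9 (Pf.B 12 6 (Pf.B 12 3 (Pf.B 14 9 (Pf.B 14 8 (Pf.B 14 7 (Pf.B 14 6 (Pf.C 1 0x4820c28707) (Pf.B 14 5 (Pf.B 14 4 (Pf.C 1 0x3810818705) (Pf.C 1 0x50e0824105))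 (Pf.C 17 83721))) (Pf.C 1 0x50e0e24108)) (Pf.C 17 0x20709)) (Pf.B 13 9 (Pf.B 13 7 (Pf.B 13 4 (Pf.B 14 8 (Pf.B 14 7 (Pf.B 14 6 (Pf.B 14 5 (Pf.B 14 4 (Pf.C 1 0x3810824705) (Pf.C 1 0x50e0818105)) (Pf.C 17 83718)) (Pf.C 1 0x48e0c1c088)) (Pf.B 14 6 (Pf.C 1 0x50e0e08308) (Pf.B 14 4 (Pf.C 1 0x48e0c04208) (Pf.B 14 3 (Pf.C 1 0x38e0808188) (Pf.B 13 6 (Pf.B 13 11 (Pf.B 13 8 (Pf.B 13 3 (Pf.B 12 7 (Pf.B 12 11 (Pf.B 12 8 (Pf.C 1 0x5801034603) (Pf.C 1 0x5010e20603)) (Pf.C 1 0x5010e2c603)) (Pf.C 0 0x1a38607)) (Pf.C 0 0x1838683)) (Pf.C 1 0x4820c20684)) (Pf.C 1 0x4820c2c684)) (Pf.C 0 0x1838686)))))) (Pf.B 14 7 (Pf.C 19 0x20707) (Pf.B 14 6 (Pf.C 17 0x20706) (Pf.B 14 3 (Pf.C 17 0x20703) (Pf.B 13 8 (Pf.B 13 6 (Pf.B 13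 11 (Pf.B 13 3 (Pf.B 12 8 (Pf.B 12 11 (Pf.C 1 0x4001634603) (Pf.B 12 7 (Pf.C 1 0x5010e2c603) (Pf.C 0 0x1a38607))) (Pf.C 0 0x3840c)) (Pf.C 0 0x1838683)) (Pf.C 1 0x4820c2c684)) (Pf.C 0 0x1838686)) (Pf.C 0 0x3840d)))))) (Pf.C 16 67209)) (Pf.C 16 0x1c689)) (Pf.C 0 0x1838689))) (Pf.C 14 0x2818c)) (Pf.C 14 0x2830c)) (Pf.C 14 0x2848c)) (Pf.C 0 0x1a3860a)) (Pf.C 0 0x1c28681))) (Pf.B 14 10 (Pf.C 19 0x2c70a) (Pf.B 14 9 (Pf.C 17 0x2c709) (Pf.B 14 7 (Pf.C 19 0x2c707) (Pf.B 13 11 (Pf.B 13 10 (Pf.B 13 7 (Pf.B 13 4 (Pf.B 12 11 (Pf.B 12 10 (Pf.B 12 9 (Pf.B 13 9 (Pf.B 12 7 (Pf.B 12 8 (Pf.B 13 8 (Pf.C 1 0x5801030687) (Pf.B 13 6 (Pf.C 1 0x4820c20684) (Pf.B 13 5 (Pf.C 1 0x5800a18684) (Pf.C 1 0x40d0a24104)))) (Pf.C 1 0x5010e20609))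 (Pf.C 0 0x1a38607)) (Pf.C 0 0x1838689)) (Pf.C 14 0x2848c)) (Pf.C 0 0x1a3860a)) (Pf.C 0 0x3858c)) (Pf.C 18 0x2c20d)) (Pf.C 18 0x2c38d)) (Pf.C 18 0x2c50d)) (Pf.C 0 0x3858d)))))))
 Pq.nil))))) (Pq.cons (Pq.D 2 (Pq.cons (Pq.L [0,1,2,3,4,5,6,7,8,9,10,11] 7 (Pf.B 14 11 (Pf.B 13 11 (Pf.B 14 10 (Pf.B 14 8 (Pf.B 14 9 (Pf.B 13 10 (Pf.C 1 0x101143868b) (Pf.B 12 10 (Pf.B 12 9 (Pf.C 1 0x5010038609) (Pf.C 11 0x2460e)) (Pf.C 0 0x1c3460a))) (Pf.C 1 0x580102470a)) (Pf.C 1 0x501042070b)) (Pf.B 14 7 (Pf.C 1 0x5800428707) (Pf.B 14 9 (Pf.C 1 0x50e0e2c009) (Pf.B 14 6 (Pf.C 1 0x5800224706) (Pf.B 12 9 (Pf.B 13 9 (Pf.B 13 5 (Pf.B 12 6 (Pf.B 13 6 (Pf.B 13 10 (Pf.B 13 7 (Pf.B 12 10 (Pf.B 12 7 (Pf.C 1 0x5010e34606) (Pf.C 0 0x1a38607))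 (Pf.C 0 0x1a3860a)) (Pf.C 1 0x4820c1c685)) (Pf.C 1 0x4820c28685)) (Pf.C 0 0x1838686)) (Pf.C 0 0x1c18602)) (Pf.C 17 83593)) (Pf.C 0 0x1838689)) (Pf.C 0 0x1c24602)))))) (Pf.C 13 0x2c68e)) (Pf.B 13 11 (Pf.B 12 11 (Pf.B 12 9 (Pf.B 12 6 (Pf.B 12 3 (Pf.B 14 10 (Pf.B 14 8 (Pf.C 1 0x501042c708) (Pf.B 14 9 (Pf.C 1 0x58e1028089) (Pf.B 14 6 (Pf.C 1 0x5010024706) (Pf.B 14 3 (Pf.C 1 0x5010018703) (Pf.B 13 9 (Pf.B 13 8 (Pf.B 13 6 (Pf.B 13 10 (Pf.B 13 7 (Pf.B 13 3 (Pf.B 12 8 (Pf.B 12 10 (Pf.B 12 7 (Pf.C 1 0x5010e34603) (Pf.C 1 0x580101c603)) (Pf.C 1 0x5801028603)) (Pf.C 0 0x1a38608)) (Pf.C 0 0x1838683)) (Pf.C 1 0x4820c1c688)) (Pf.C 1 0x4820c28688)) (Pf.C 0 0x1838686)) (Pf.C 17 0x20689)) (Pf.C 0 0x1838689)))))) (Pf.B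 14 9 (Pf.B 14 8 (Pf.C 1 0x482022c708) (Pf.B 14 7 (Pf.C 1 0x4820028707) (Pf.B 14 6 (Pf.B 14 5 (Pf.C 1 0x4820c1c705) (Pf.B 13 8 (Pf.B 13 5 (Pf.B 12 8 (Pf.B 12 10 (Pf.B 13 10 (Pf.B 13 9 (Pf.B 13 6 (Pf.B 13 7 (Pf.B 13 4 (Pf.B 13 3 (Pf.B 12 7 (Pf.C 1 0x5010e34603) (Pf.C 0 0x1a38607)) (Pf.C 1 0x381080c685)) (Pf.C 1 0x4820c10685)) (Pf.C 1 0x4820c1c685)) (Pf.C 1 0x60d0c28088)) (Pf.C 1 0x60d1228088)) (Pf.C 0 0x183868a)) (Pf.C 1 0x5801028603)) (Pf.C 0 0x1a38608)) (Pf.C 0 0x1c14680)) (Pf.C 0 0x1c20680))) (Pf.C 1 0x60e0c04009)))) (Pf.B 14 6 (Pf.C 1 0x60e1204006) (Pf.B 14 3 (Pf.C 1 0x48e0c04003) (Pf.B 13 9 (Pf.B 13 8 (Pf.B 14 8 (Pf.C 1 0x68e1608088) (Pf.B 13 6 (Pf.B 13 10 (Pf.B 13 7 (Pf.B 13 3 (Pf.B 12 10 (Pf.B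 12 8 (Pf.B 12 7 (Pf.C 1 0x5010e34603) (Pf.C 1 0x580101c603)) (Pf.C 0 0x1a38608)) (Pf.C 0 0x1a3860a)) (Pf.C 0 0x1838683)) (Pf.C 1 0x4820c1c688)) (Pf.C 1 0x4820c28688)) (Pf.C 0 0x1838686))) (Pf.C 17 0x20689)) (Pf.C 0 0x1838689)))))) (Pf.C 15 0x2c18c)) (Pf.C 15 0x2c30c)) (Pf.C 15 0x2c48c)) (Pf.C 0 0x1a3860b)) (Pf.C 0 0x1c2c680))))
 (Pq.cons (Pq.L [2] 7 (Pf.C 0 0x1a38602))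
 (Pq.cons (Pq.L [0,1,2,3,4,5,6,7,8,9,10,11] 7 (Pf.B 14 11 (Pf.B 14 10 (Pf.B 14 7 (Pf.B 14 4 (Pf.B 14 9 (Pf.B 14 8 (Pf.B 14 6 (Pf.B 14 5 (Pf.B 13 11 (Pf.B 13 10 (Pf.B 13 5 (Pf.B 13 9 (Pf.B 13 7 (Pf.B 13 6 (Pf.C 1 0x4820c38685) (Pf.C 1 0x5010e18685)) (Pf.C 1 0x70d0e24105)) (Pf.B 13 7 (Pf.C 1 0x5010e24685) (Pf.B 13 6 (Pf.C 1 0x70d0e08305) (Pf.C 1 0x48d0c28085)))) (Pf.C 19 83594)) (Pf.B 13 9 (Pf.C 1 0x70d140848b) (Pf.B 13 6 (Pf.C 1 0x70d140830b) (Pf.B 13 7 (Pf.C 1 0x48d0c0438b) (Pf.B 12 10 (Pf.B 12 9 (Pf.B 12 7 (Pf.B 12 11 (Pf.B 12 8 (Pf.C 1 0x5801038607) (Pf.C 1 0x5010e20609)) (Pf.C 1 0x5010e2c609)) (Pf.C 0 0x1c34607)) (Pf.C 14 0x2848c)) (Pf.C 0 0x1c3460a)))))) (Pf.B 13 10 (Pf.C 19 0x2c68a) (Pf.B 13 7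 (Pf.C 19 0x2c687) (Pf.B 12 11 (Pf.B 12 10 (Pf.B 12 9 (Pf.B 12 8 (Pf.C 1 0x5801038609) (Pf.B 12 7 (Pf.C 1 0x5010e20609) (Pf.C 0 0x1c34607))) (Pf.C 14 0x2848c)) (Pf.C 0 0x1c3460a)) (Pf.C 0 0x3458c))))) (Pf.C 1 0x4820c14704)) (Pf.C 1 0x5801018704)) (Pf.B 14 6 (Pf.C 1 0x4820c20704) (Pf.B 14 5 (Pf.C 1 0x5800a18704) (Pf.C 1 0x40e0a24104)))) (Pf.B 14 8 (Pf.C 1 0x5801024704) (Pf.B 14 6 (Pf.B 14 5 (Pf.C 1 0x5800a24704) (Pf.C 1 0x40e0a18104)) (Pf.C 1 0x48e0c2c004)))) (Pf.C 18 0x2c20e)) (Pf.C 18 0x2c38e)) (Pf.C 18 0x2c50e)) (Pf.B 13 11 (Pf.B 12 11 (Pf.B 12 9 (Pf.B 12 6 (Pf.B 12 3 (Pf.B 14 10 (Pf.B 14 9 (Pf.B 14 8 (Pf.B 14 7 (Pf.B 14 6 (Pf.C 1 0x4820c2c707) (Pf.B 14 5 (Pf.C 1 0x4000a18707) (Pf.C 1 0x58e0a24107)))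 (Pf.C 16 0x1c709)) (Pf.C 1 0x58e102410a)) (Pf.B 13 9 (Pf.B 13 8 (Pf.B 13 5 (Pf.B 14 8 (Pf.B 14 7 (Pf.B 14 6 (Pf.B 14 5 (Pf.C 1 0x4000a24706) (Pf.C 1 0x58e0a18107)) (Pf.C 1 0x48e0c20007)) (Pf.C 18 0x2038e)) (Pf.B 14 6 (Pf.C 1 0x58e100830a) (Pf.B 14 5 (Pf.C 1 0x48e0c0028a) (Pf.B 14 3 (Pf.C 1 0x40e0a0818a) (Pf.B 13 6 (Pf.B 13 10 (Pf.B 13 7 (Pf.B 13 3 (Pf.B 12 8 (Pf.B 12 10 (Pf.B 12 7 (Pf.C 1 0x5010e34603) (Pf.C 1 0x580101c603)) (Pf.C 1 0x5801028603)) (Pf.C 0 0x1a38608)) (Pf.C 0 0x1838683)) (Pf.C 1 0x4820c1c685)) (Pf.C 1 0x4820c28685)) (Pf.C 0 0x1838686)))))) (Pf.C 17 83593)) (Pf.C 17 0x20689)) (Pf.C 0 0x1838689))) (Pf.B 14 9 (Pf.C 16 0x28709) (Pf.B 14 8 (Pf.C 18 0x2050e) (Pf.B 14 6 (Pf.C 16 0x28706) (Pf.B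 14 3 (Pf.C 16 0x28703) (Pf.B 13 10 (Pf.B 13 9 (Pf.B 13 8 (Pf.B 13 6 (Pf.B 13 7 (Pf.B 13 3 (Pf.B 12 10 (Pf.B 12 8 (Pf.B 12 7 (Pf.C 1 0x5010e34603) (Pf.C 1 0x580101c603)) (Pf.C 0 0x1a38608)) (Pf.C 0 0x23850c)) (Pf.C 0 0x1838683)) (Pf.C 1 0x4820c1c688)) (Pf.C 0 0x1838686)) (Pf.C 17 0x20689)) (Pf.C 0 0x1838689)) (Pf.C 0 0x23850d))))))) (Pf.C 15 0x2c18c)) (Pf.C 15 0x2c30c)) (Pf.C 15 0x2c48c)) (Pf.C 0 0x1a3860b)) (Pf.C 0 0x1c2c680))))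
 (Pq.cons (Pq.L [0] 7 (Pf.C 0 0x3868c))
 Pq.nil))))) Pq.nil))))) Pq.nil))
theorem eK_o95 : AllRef eK_T eK_G112 (List.take 2 (List.flatMap (splitP 0) (List.take 1 (applyObl d_T 2 [11,139,140,141] [0,0,0,0] [])))) :=
  chkPq_sound eK_o95c _ (by decide +kernel)
noncomputable def eK_o96c : Pq := (Pq.cons (Pq.D 1 (Pq.cons (Pq.D 2 (Pq.cons (Pq.L [] 7 (Pf.C 8 0x3070d))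
 (Pq.cons (Pq.L [0,1,2,3,4,5,6,7,8,9,10,11] 7 (Pf.B 14 11 (Pf.B 14 9 (Pf.B 14 6 (Pf.B 14 3 (Pf.B 14 10 (Pf.B 14 8 (Pf.B 13 11 (Pf.B 13 9 (Pf.C 1 0x5800238689) (Pf.B 13 6 (Pf.C 1 0x5800224686) (Pf.B 12 9 (Pf.B 12 7 (Pf.B 12 6 (Pf.B 12 11 (Pf.B 12 8 (Pf.C 1 0x5801038606) (Pf.C 1 0x4820c20607)) (Pf.C 1 0x4820c2c607)) (Pf.C 0 0x1c34606)) (Pf.C 16 0x1c609)) (Pf.C 0 0x1c34609)))) (Pf.B 12 11 (Pf.B 12 10 (Pf.B 12 9 (Pf.B 12 8 (Pf.C 1 0x5801038609) (Pf.B 13 8 (Pf.B 13 9 (Pf.C 1 0x4000238689) (Pf.B 13 6 (Pf.C 1 0x4000224686) (Pf.B 12 7 (Pf.B 12 6 (Pf.C 1 0x4820c20607) (Pf.C 0 0x1c34606)) (Pf.C 16 0x1c609)))) (Pf.C 0 0x1c30688))) (Pf.C 1 0x70c122c00a)) (Pf.C 18 0x2c50c)) (Pf.C 0 0x1c3460b))) (Pf.B 14 7 (Pf.C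 1 0x5010e20703) (Pf.B 14 5 (Pf.C 1 0x5800a1c703) (Pf.C 1 0x40e0a28083)))) (Pf.B 14 8 (Pf.C 1 0x5801028703) (Pf.B 14 7 (Pf.B 14 5 (Pf.C 1 0x5800a28703) (Pf.C 1 0x40e0a1c083)) (Pf.C 1 0x50e0e2c003)))) (Pf.C 15 0x2c18e)) (Pf.C 15 0x2c30e)) (Pf.C 15 0x2c48e)) (Pf.B 14 10 (Pf.B 14 9 (Pf.B 14 8 (Pf.B 14 7 (Pf.C 1 0x5010e2c708) (Pf.B 14 6 (Pf.B 14 5 (Pf.C 1 0x4000a1c706) (Pf.C 1 0x58e0a28086)) (Pf.C 14 0x2830e))) (Pf.C 1 0x58e1028089)) (Pf.C 14 0x2848e)) (Pf.B 14 9 (Pf.B 14 8 (Pf.B 14 7 (Pf.B 14 6 (Pf.B 14 5 (Pf.C 1 0x4000a28706) (Pf.C 1 0x58e0a1c086)) (Pf.C 14 0x1c30e)) (Pf.C 1 0x50e0e20009)) (Pf.B 14 7 (Pf.C 1 0x58e1004389) (Pf.B 14 5 (Pf.C 1 0x50e0e00289) (Pf.B 14 4 (Pf.C 1 0x40e0a04209) (Pf.B 12 7 (Pf.B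 13 7 (Pf.B 12 4 (Pf.B 13 4 (Pf.B 13 11 (Pf.B 12 11 (Pf.C 1 0x1001634604) (Pf.C 0 0x1a3860b)) (Pf.B 13 9 (Pf.C 1 0x381082c689) (Pf.B 13 8 (Pf.C 1 0x3810824688) (Pf.C 0 0x1638688)))) (Pf.C 0 0x1838684)) (Pf.C 0 0x1c10601)) (Pf.C 0 0x1838687)) (Pf.C 0 0x1c1c601)))))) (Pf.B 13 9 (Pf.C 11 0x2470d) (Pf.C 0 0x43848d))))))
 (Pq.cons (Pq.L [1] 7 (Pf.C 0 0x1a38601))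
 (Pq.cons (Pq.L [0,1,2,4,5,6,7,8,9,10,11] 7 (Pf.B 14 11 (Pf.B 14 10 (Pf.B 14 8 (Pf.B 14 5 (Pf.B 14 9 (Pf.B 14 7 (Pf.B 14 6 (Pf.B 13 11 (Pf.B 13 9 (Pf.C 1 0x82123868b) (Pf.B 13 8 (Pf.B 13 7 (Pf.C 1 0x5801024687) (Pf.B 13 6 (Pf.C 1 0x580101c686) (Pf.B 12 9 (Pf.B 12 7 (Pf.B 12 6 (Pf.C 1 0x4820c38607) (Pf.C 0 0x1c34606)) (Pf.C 16 0x1c609)) (Pf.C 0 0x1c34609)))) (Pf.C 1 0x70d100808b))) (Pf.B 13 8 (Pf.C 1 0x70d1608088) (Pf.B 12 11 (Pf.B 12 10 (Pf.B 12 8 (Pf.B 12 9 (Pf.B 12 7 (Pf.B 12 6 (Pf.C 1 0x4820c38607) (Pf.C 1 0x5801018607)) (Pf.C 16 0x1c609)) (Pf.C 1 0x580102460a)) (Pf.C 0 0x1c34608)) (Pf.C 18 0x2c50c)) (Pf.C 0 0x1c3460b)))) (Pf.C 1 0x5010e18705)) (Pf.B 14 6 (Pf.C 1 0x4820c1c705) (Pf.B 14 4 (Pf.C 1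 0x5010818705) (Pf.C 1 0x38e0824105)))) (Pf.B 14 7 (Pf.C 1 0x5010e24705) (Pf.B 14 6 (Pf.B 14 4 (Pf.C 1 0x5010824705) (Pf.C 1 0x38e0818105)) (Pf.C 1 0x48e0c28085)))) (Pf.C 19 83722)) (Pf.C 19 0x2070a)) (Pf.B 14 9 (Pf.B 14 8 (Pf.B 14 7 (Pf.B 14 6 (Pf.C 1 0x4820c28707) (Pf.B 14 5 (Pf.B 14 4 (Pf.C 1 0x3810818705) (Pf.C 1 0x50e0824105)) (Pf.C 17 83721))) (Pf.C 1 0x50e0e24108)) (Pf.C 17 0x20709)) (Pf.B 14 8 (Pf.B 14 7 (Pf.B 14 6 (Pf.B 14 5 (Pf.B 14 4 (Pf.C 1 0x3810824705) (Pf.C 1 0x50e0818105)) (Pf.C 17 83718)) (Pf.C 1 0x48e0c1c088)) (Pf.B 14 6 (Pf.C 1 0x50e0e08308) (Pf.B 14 4 (Pf.C 1 0x48e0c04208) (Pf.B 12 7 (Pf.B 13 7 (Pf.B 12 4 (Pf.B 13 4 (Pf.B 13 11 (Pf.B 13 9 (Pf.B 12 9 (Pf.C 1 0x21234604) (Pf.C 0 0x1a38609))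 (Pf.C 1 0x381082468b)) (Pf.B 13 9 (Pf.C 1 0x381082c689) (Pf.B 13 8 (Pf.C 1 0x3810824688) (Pf.B 13 6 (Pf.C 1 0x3810820686) (Pf.C 0 0x1238686))))) (Pf.C 0 0x1838684)) (Pf.C 0 0x1c10601)) (Pf.C 0 0x1838687)) (Pf.C 0 0x1c1c601))))) (Pf.B 13 8 (Pf.C 13 0x2070d) (Pf.C 0 0x3840d))))) (Pf.B 13 11 (Pf.C 13 0x2c70d) (Pf.C 0 0x3858d))))
 Pq.nil))))) (Pq.cons (Pq.D 2 (Pq.cons (Pq.L [0,1,2,3,6,7,8,9,10,11] 7 (Pf.B 14 11 (Pf.B 14 10 (Pf.B 14 8 (Pf.B 14 9 (Pf.B 13 9 (Pf.B 13 11 (Pf.C 1 0x801638689) (Pf.B 12 11 (Pf.B 12 10 (Pf.C 1 0x580043860a) (Pf.C 12 0x2860e)) (Pf.C 0 0x1c3460b))) (Pf.C 11 0x2468e)) (Pf.C 1 0x580102470a)) (Pf.C 1 0x501042070b)) (Pf.B 14 7 (Pf.C 1 0x5800428707) (Pf.B 14 9 (Pf.C 1 0x50e0e2c009) (Pf.B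 14 6 (Pf.C 1 0x5800224706) (Pf.B 14 3 (Pf.C 1 0x5800218703) (Pf.B 13 9 (Pf.B 13 6 (Pf.B 13 3 (Pf.B 12 10 (Pf.B 13 10 (Pf.B 12 9 (Pf.B 12 7 (Pf.B 13 7 (Pf.B 13 11 (Pf.B 13 8 (Pf.B 12 6 (Pf.B 12 11 (Pf.B 12 8 (Pf.C 1 0x5801034606) (Pf.C 1 0x4820c20607)) (Pf.C 1 0x4820c2c607)) (Pf.C 0 0x1a38606)) (Pf.C 1 0x5010e20683)) (Pf.C 1 0x5010e2c683)) (Pf.C 0 0x1838687)) (Pf.C 16 0x1c609)) (Pf.C 0 0x1a38609)) (Pf.C 0 0x183868a)) (Pf.C 0 0x1c28601)) (Pf.C 0 0x1c0c682)) (Pf.C 0 0x1c18682)) (Pf.C 0 0x1c24682))))))) (Pf.B 14 10 (Pf.B 14 8 (Pf.C 1 0x501042c708) (Pf.B 14 9 (Pf.C 1 0x58e1028089) (Pf.B 14 6 (Pf.C 1 0x5010024706) (Pf.B 14 3 (Pf.C 1 0x5010018703) (Pf.B 13 9 (Pf.B 13 6 (Pf.B 13 3 (Pf.B 12 10 (Pf.B 12 9 (Pf.B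 12 7 (Pf.B 12 6 (Pf.B 12 11 (Pf.B 13 11 (Pf.B 13 10 (Pf.B 13 7 (Pf.B 13 8 (Pf.B 12 8 (Pf.C 1 0x5801034606) (Pf.C 0 0x1a38608)) (Pf.C 1 0x5010e20683)) (Pf.C 1 0x60d0e2c006)) (Pf.C 1 0x60d142c006)) (Pf.C 0 0x183868b)) (Pf.C 1 0x4820c2c607)) (Pf.C 0 0x1a38606)) (Pf.C 16 0x1c609)) (Pf.C 0 0x1a38609)) (Pf.C 12 0x2860e)) (Pf.C 0 0x1c0c682)) (Pf.C 0 0x1c18682)) (Pf.C 0 0x1c24682)))))) (Pf.B 12 10 (Pf.B 13 10 (Pf.B 13 9 (Pf.B 13 6 (Pf.B 13 3 (Pf.B 14 9 (Pf.B 14 8 (Pf.C 1 0x482022c708) (Pf.B 14 7 (Pf.C 1 0x4820028707) (Pf.B 12 7 (Pf.B 13 7 (Pf.B 13 11 (Pf.B 13 8 (Pf.B 12 11 (Pf.B 12 8 (Pf.C 1 0x5801034607) (Pf.C 0 0x1a38608)) (Pf.C 0 0x1a3860b)) (Pf.C 1 0x5010e20683)) (Pf.C 1 0x5010e2c683)) (Pf.C 0 0x1838687))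 (Pf.C 0 0x1c1c601)))) (Pf.B 14 6 (Pf.C 1 0x68e1204006) (Pf.B 12 9 (Pf.B 12 7 (Pf.B 14 7 (Pf.C 1 0x60e1408007) (Pf.B 13 7 (Pf.B 13 11 (Pf.B 13 8 (Pf.B 12 11 (Pf.B 12 8 (Pf.C 1 0x5801034607) (Pf.B 12 6 (Pf.C 1 0x4820c20607) (Pf.C 0 0x1a38606))) (Pf.C 0 0x1a3860b)) (Pf.C 1 0x5010e20683)) (Pf.C 1 0x5010e2c683)) (Pf.C 0 0x1838687))) (Pf.C 16 0x1c609)) (Pf.C 0 0x1a38609)))) (Pf.C 14 0x2818d)) (Pf.C 14 0x2830d)) (Pf.C 14 0x2848d)) (Pf.C 0 0x183868a)) (Pf.C 0 0x1c28601)))))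
 (Pq.cons (Pq.L [2] 7 (Pf.C 0 0x43868c))
 (Pq.cons (Pq.L [1] 7 (Pf.C 0 0x1a38601))
 (Pq.cons (Pq.L [0,1,2,3,4,5,6,7,8,9,10,11] 7 (Pf.B 14 11 (Pf.B 14 10 (Pf.B 14 8 (Pf.B 14 5 (Pf.B 14 9 (Pf.B 14 7 (Pf.B 14 6 (Pf.B 14 4 (Pf.B 14 3 (Pf.B 13 11 (Pf.B 13 3 (Pf.B 13 10 (Pf.B 13 8 (Pf.B 13 7 (Pf.C 1 0x5010e38683) (Pf.C 1 0x580101c683)) (Pf.C 1 0x70d1028083)) (Pf.B 13 8 (Pf.C 1 0x5801028683) (Pf.B 13 7 (Pf.C 1 0x70d1004383) (Pf.C 1 0x50d0e2c003)))) (Pf.C 15 0x2c18d)) (Pf.B 12 11 (Pf.B 12 4 (Pf.B 13 10 (Pf.B 13 9 (Pf.C 1 0x70d1628089) (Pf.C 14 0x2848d)) (Pf.B 13 9 (Pf.B 13 7 (Pf.C 1 0x70d1604389) (Pf.B 13 8 (Pf.C 1 0x50d0e00409) (Pf.B 12 8 (Pf.B 12 9 (Pf.B 12 6 (Pf.C 1 0x4820c38604) (Pf.C 1 0x5801018604))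 (Pf.C 1 0x5801024604)) (Pf.C 0 0x1c34608)))) (Pf.B 13 8 (Pf.C 15 0x2048d) (Pf.B 12 9 (Pf.B 12 8 (Pf.B 12 6 (Pf.C 1 0x4820c38604) (Pf.C 1 0x5801018604)) (Pf.C 0 0x1c34608)) (Pf.C 0 0x43448c))))) (Pf.C 18 0x2c20c)) (Pf.C 0 0x1c3460b))) (Pf.C 1 0x381080c705)) (Pf.C 1 0x4820c10705)) (Pf.C 1 0x5010e18705)) (Pf.B 14 6 (Pf.C 1 0x4820c1c705) (Pf.B 14 4 (Pf.C 1 0x5010818705) (Pf.C 1 0x38e0824105)))) (Pf.B 14 7 (Pf.C 1 0x5010e24705) (Pf.B 14 6 (Pf.B 14 4 (Pf.C 1 0x5010824705) (Pf.C 1 0x38e0818105)) (Pf.C 1 0x48e0c28085)))) (Pf.C 19 83722)) (Pf.C 19 0x2070a)) (Pf.B 12 10 (Pf.B 13 10 (Pf.B 13 9 (Pf.B 13 6 (Pf.B 13 3 (Pf.B 14 9 (Pf.B 14 8 (Pf.B 14 7 (Pf.B 14 6 (Pf.C 1 0x4820c28707) (Pf.B 14 5 (Pf.B 14 4 (Pf.C 1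 0x3810818705) (Pf.C 1 0x50e0824105)) (Pf.C 17 83721))) (Pf.C 1 0x50e0e24108)) (Pf.C 17 0x20709)) (Pf.B 12 9 (Pf.B 12 7 (Pf.B 12 4 (Pf.B 14 8 (Pf.B 14 7 (Pf.B 14 6 (Pf.B 14 5 (Pf.B 14 4 (Pf.C 1 0x3810824705) (Pf.C 1 0x50e0818105)) (Pf.C 17 83718)) (Pf.C 1 0x48e0c1c088)) (Pf.B 14 6 (Pf.C 1 0x50e0e08308) (Pf.B 14 4 (Pf.C 1 0x48e0c04208) (Pf.B 13 7 (Pf.B 13 11 (Pf.B 13 8 (Pf.B 13 4 (Pf.B 12 6 (Pf.B 12 11 (Pf.B 12 8 (Pf.C 1 0x5801034604) (Pf.C 1 0x4820c20604)) (Pf.C 1 0x4820c2c604)) (Pf.C 0 0x1a38606)) (Pf.C 0 0x1838684)) (Pf.C 1 0x5010e20683)) (Pf.C 1 0x5010e2c683)) (Pf.C 0 0x1838687))))) (Pf.B 14 7 (Pf.C 19 0x20707) (Pf.B 14 6 (Pf.C 17 0x20706) (Pf.B 14 4 (Pf.C 19 0x20704) (Pf.B 13 8 (Pf.B 13 7 (Pf.B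 13 11 (Pf.B 13 4 (Pf.B 12 8 (Pf.B 12 11 (Pf.C 1 0x4001634604) (Pf.B 12 6 (Pf.C 1 0x4820c2c604) (Pf.C 0 0x1a38606))) (Pf.C 0 0x3840c)) (Pf.C 0 0x1838684)) (Pf.C 1 0x5010e2c683)) (Pf.C 0 0x1838687)) (Pf.C 0 0x3840d)))))) (Pf.C 16 67081)) (Pf.C 16 0x1c609)) (Pf.C 0 0x1a38609))) (Pf.C 14 0x2818d)) (Pf.C 14 0x2830d)) (Pf.C 14 0x2848d)) (Pf.C 0 0x183868a)) (Pf.C 0 0x1c28601))) (Pf.B 14 10 (Pf.C 19 0x2c70a) (Pf.B 14 9 (Pf.C 17 0x2c709) (Pf.B 14 7 (Pf.C 19 0x2c707) (Pf.B 14 6 (Pf.C 17 0x2c706) (Pf.B 13 11 (Pf.B 13 9 (Pf.B 13 6 (Pf.B 13 3 (Pf.B 12 11 (Pf.B 12 10 (Pf.B 13 10 (Pf.B 12 9 (Pf.B 12 7 (Pf.B 13 7 (Pf.B 13 8 (Pf.B 12 8 (Pf.C 1 0x5801034607) (Pf.B 12 6 (Pf.C 1 0x4820c20607) (Pf.C 0 0x1a38606))) (Pf.C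 1 0x5010e20683)) (Pf.C 0 0x1838687)) (Pf.C 16 0x1c609)) (Pf.C 0 0x1a38609)) (Pf.C 0 0x183868a)) (Pf.C 18 0x2c50c)) (Pf.C 0 0x3858c)) (Pf.C 15 0x2c18d)) (Pf.C 15 0x2c30d)) (Pf.C 15 0x2c48d)) (Pf.C 0 0x3858d))))))))
 Pq.nil))))) (Pq.cons (Pq.D 2 (Pq.cons (Pq.L [1] 7 (Pf.C 0 0x1c34601))
 (Pq.cons (Pq.L [1] 7 (Pf.C 0 0x1c34601))
 (Pq.cons (Pq.L [1,11] 7 (Pf.B 14 11 (Pf.B 13 11 (Pf.C 18 0x2c70d) (Pf.B 12 11 (Pf.C 18 0x2c70c) (Pf.C 0 0x23460b))) (Pf.B 13 11 (Pf.B 12 11 (Pf.C 18 0x2c68c) (Pf.C 0 0x23860b)) (Pf.C 0 0x23868b))))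
 (Pq.cons (Pq.L [1] 7 (Pf.C 0 0x1c34601))
 Pq.nil))))) (Pq.cons (Pq.D 2 (Pq.cons (Pq.L [0,1,2,4,5,6,7,8,9,10,11] 7 (Pf.B 14 11 (Pf.B 13 11 (Pf.B 14 10 (Pf.B 14 8 (Pf.B 14 9 (Pf.B 13 9 (Pf.C 1 0x82123868b) (Pf.B 12 10 (Pf.B 12 9 (Pf.C 1 0x2123860a) (Pf.C 0 0x1c34609)) (Pf.C 12 0x2860e))) (Pf.C 1 0x580102470a)) (Pf.C 1 0x501042070b)) (Pf.B 14 7 (Pf.C 1 0x5800428707) (Pf.B 14 9 (Pf.C 1 0x50e0e2c009) (Pf.B 14 6 (Pf.C 1 0x5800224706) (Pf.B 12 10 (Pf.B 13 10 (Pf.B 13 5 (Pf.B 12 7 (Pf.B 13 7 (Pf.B 13 9 (Pf.B 13 6 (Pf.B 12 9 (Pf.B 12 6 (Pf.C 1 0x4820c34607) (Pf.C 0 0x1a38606)) (Pf.C 0 0x1a38609)) (Pf.C 1 0x5010e18685)) (Pf.C 1 0x5010e24685)) (Pf.C 0 0x1838687)) (Pf.C 0 0x1c1c601)) (Pf.C 19 83594)) (Pf.C 0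 0x183868a)) (Pf.C 0 0x1c28601)))))) (Pf.C 13 0x2c68e)) (Pf.B 13 11 (Pf.B 12 11 (Pf.B 12 10 (Pf.B 12 7 (Pf.B 12 4 (Pf.B 14 10 (Pf.B 14 8 (Pf.C 1 0x501042c708) (Pf.B 14 9 (Pf.C 1 0x58e1028089) (Pf.B 14 7 (Pf.B 14 6 (Pf.C 1 0x5010e20706) (Pf.B 14 5 (Pf.C 1 0x5010e18705) (Pf.B 13 8 (Pf.B 13 5 (Pf.B 12 8 (Pf.B 12 9 (Pf.B 13 9 (Pf.B 13 10 (Pf.B 13 7 (Pf.B 13 6 (Pf.B 13 4 (Pf.B 12 6 (Pf.C 1 0x4820c34604) (Pf.C 0 0x1a38606)) (Pf.C 1 0x4820c10685)) (Pf.C 1 0x5010e18685)) (Pf.C 1 0x60d0e24108)) (Pf.C 1 0x60d1424108)) (Pf.C 0 0x1838689)) (Pf.C 1 0x5801024604)) (Pf.C 0 0x1a38608)) (Pf.C 0 0x1c14680)) (Pf.C 0 0x1c20680)))) (Pf.C 1 0x60e0e0800a)))) (Pf.B 14 7 (Pf.C 1 0x60e1408007) (Pf.B 14 4 (Pf.C 1 0x50e0e08004)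 (Pf.B 13 10 (Pf.B 13 8 (Pf.B 14 8 (Pf.C 1 0x68e1608088) (Pf.B 13 7 (Pf.B 13 9 (Pf.B 13 6 (Pf.B 13 4 (Pf.B 12 8 (Pf.B 12 9 (Pf.B 12 6 (Pf.C 1 0x4820c34604) (Pf.C 1 0x5801018604)) (Pf.C 1 0x5801024604)) (Pf.C 0 0x1a38608)) (Pf.C 0 0x1838684)) (Pf.C 1 0x5010e18688)) (Pf.C 1 0x5010e24688)) (Pf.C 0 0x1838687))) (Pf.C 19 0x2068a)) (Pf.C 0 0x183868a))))) (Pf.C 18 0x2c20c)) (Pf.C 18 0x2c38c)) (Pf.C 18 0x2c50c)) (Pf.C 0 0x1a3860b)) (Pf.C 0 0x1c2c680))))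
 (Pq.cons (Pq.L [0,1,2,3,4,5,6,7,8,9,10,11] 7 (Pf.B 14 11 (Pf.B 14 9 (Pf.B 14 6 (Pf.B 14 3 (Pf.B 14 10 (Pf.B 14 8 (Pf.B 14 7 (Pf.B 13 11 (Pf.B 13 10 (Pf.B 13 9 (Pf.B 13 8 (Pf.B 13 7 (Pf.C 1 0x5010e38688) (Pf.B 13 6 (Pf.C 1 0x4820c1c688) (Pf.C 1 0x70d0c28088))) (Pf.C 17 0x20689)) (Pf.C 1 0x70d122808b)) (Pf.B 13 9 (Pf.B 13 8 (Pf.B 13 7 (Pf.B 13 6 (Pf.C 1 0x4820c28687) (Pf.C 1 0x70d0c1c088)) (Pf.C 1 0x50d0e24108)) (Pf.C 17 0x20689)) (Pf.B 13 7 (Pf.C 1 0x70d120438b) (Pf.B 13 6 (Pf.C 1 0x50d0e0830b) (Pf.B 12 9 (Pf.B 12 7 (Pf.B 12 6 (Pf.B 12 11 (Pf.B 12 8 (Pf.C 1 0x5801038606) (Pf.C 1 0x4820c20607)) (Pf.C 1 0x4820c2c607)) (Pf.C 0 0x1c34606)) (Pf.C 16 0x1c609)) (Pf.C 0 0x1c34609)))))) (Pf.B 13 9 (Pf.C 17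 0x2c689) (Pf.B 13 6 (Pf.C 17 0x2c686) (Pf.B 12 11 (Pf.B 12 9 (Pf.B 12 8 (Pf.C 1 0x5801038609) (Pf.B 12 7 (Pf.B 12 6 (Pf.C 1 0x4820c20607) (Pf.C 0 0x1c34606)) (Pf.C 16 0x1c609))) (Pf.C 0 0x1c34609)) (Pf.C 0 0x3458c))))) (Pf.C 1 0x580101c703)) (Pf.B 14 7 (Pf.C 1 0x5010e20703) (Pf.B 14 5 (Pf.C 1 0x5800a1c703) (Pf.C 1 0x40e0a28083)))) (Pf.B 14 8 (Pf.C 1 0x5801028703) (Pf.B 14 7 (Pf.B 14 5 (Pf.C 1 0x5800a28703) (Pf.C 1 0x40e0a1c083)) (Pf.C 1 0x50e0e2c003)))) (Pf.C 15 0x2c18e)) (Pf.C 15 0x2c30e)) (Pf.C 15 0x2c48e)) (Pf.B 13 11 (Pf.B 12 11 (Pf.B 12 10 (Pf.B 12 7 (Pf.B 12 4 (Pf.B 14 10 (Pf.B 14 9 (Pf.B 14 8 (Pf.B 14 7 (Pf.C 1 0x5010e2c708) (Pf.B 14 6 (Pf.B 14 5 (Pf.C 1 0x4000a1c706) (Pf.C 1 0x58e0a28086))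 (Pf.C 14 0x2830e))) (Pf.C 1 0x58e1028089)) (Pf.C 14 0x2848e)) (Pf.B 13 10 (Pf.B 13 8 (Pf.B 13 5 (Pf.B 14 9 (Pf.B 14 8 (Pf.B 14 7 (Pf.B 14 6 (Pf.B 14 5 (Pf.C 1 0x4000a28706) (Pf.C 1 0x58e0a1c086)) (Pf.C 14 0x1c30e)) (Pf.C 1 0x50e0e20009)) (Pf.B 14 7 (Pf.C 1 0x58e1004389) (Pf.B 14 5 (Pf.C 1 0x50e0e00289) (Pf.B 14 4 (Pf.C 1 0x40e0a04209) (Pf.B 13 7 (Pf.B 13 9 (Pf.B 13 6 (Pf.B 13 4 (Pf.B 12 8 (Pf.B 12 9 (Pf.B 12 6 (Pf.C 1 0x4820c34604) (Pf.C 1 0x5801018604)) (Pf.C 1 0x5801024604)) (Pf.C 0 0x1a38608)) (Pf.C 0 0x1838684)) (Pf.C 1 0x5010e18685)) (Pf.C 1 0x5010e24685)) (Pf.C 0 0x1838687)))))) (Pf.B 14 8 (Pf.C 15 0x2048e) (Pf.B 14 7 (Pf.C 14 0x1c48e) (Pf.B 14 4 (Pf.C 14 66702) (Pf.B 13 9 (Pf.B 13 7 (Pf.B 13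 6 (Pf.B 13 4 (Pf.B 12 9 (Pf.B 12 8 (Pf.B 12 6 (Pf.C 1 0x4820c34604) (Pf.C 1 0x5801018604)) (Pf.C 0 0x1a38608)) (Pf.C 0 0x43848c)) (Pf.C 0 0x1838684)) (Pf.C 1 0x5010e18685)) (Pf.C 0 0x1838687)) (Pf.C 0 0x43848d)))))) (Pf.C 19 83594)) (Pf.C 19 0x2068a)) (Pf.C 0 0x183868a))) (Pf.C 18 0x2c20c)) (Pf.C 18 0x2c38c)) (Pf.C 18 0x2c50c)) (Pf.C 0 0x1a3860b)) (Pf.C 0 0x1c2c680))))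
 (Pq.cons (Pq.L [1] 7 (Pf.C 0 0x1a38601))
 (Pq.cons (Pq.L [0] 7 (Pf.C 0 0x3868c))
 Pq.nil))))) Pq.nil))))) (Pq.cons (Pq.D 1 (Pq.cons (Pq.D 2 (Pq.cons (Pq.L [] 7 (Pf.C 10 0x3070d))
 (Pq.cons (Pq.L [0,1,2,3,5,6,7,8,9,10,11] 7 (Pf.B 14 11 (Pf.B 14 9 (Pf.B 14 6 (Pf.B 14 3 (Pf.B 14 10 (Pf.B 14 8 (Pf.B 14 7 (Pf.B 13 11 (Pf.B 13 9 (Pf.C 1 0x5800238689) (Pf.B 13 10 (Pf.C 1 0x70d122c00a) (Pf.B 13 7 (Pf.C 1 0x5800428687) (Pf.B 12 10 (Pf.B 12 9 (Pf.B 12 8 (Pf.B 12 7 (Pf.C 1 0x5010e38608) (Pf.C 0 0x1c34607)) (Pf.C 17 0x20609)) (Pf.C 0 0x1c34609)) (Pf.C 0 0x1c3460a))))) (Pf.B 12 11 (Pf.B 13 10 (Pf.B 13 9 (Pf.C 1 0x5010038689) (Pf.B 13 6 (Pf.C 1 0x5010024686) (Pf.B 12 9 (Pf.B 12 8 (Pf.B 12 6 (Pf.B 12 10 (Pf.B 12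 7 (Pf.C 1 0x5010e38606) (Pf.C 1 0x4820c1c608)) (Pf.C 1 0x4820c28608)) (Pf.C 0 0x1c34606)) (Pf.C 17 0x20609)) (Pf.C 0 0x1c34609)))) (Pf.B 12 10 (Pf.B 12 9 (Pf.B 12 8 (Pf.B 12 7 (Pf.C 1 0x5010e38608) (Pf.B 13 7 (Pf.B 13 9 (Pf.C 1 0x3810038689) (Pf.B 13 6 (Pf.C 1 0x3810024686) (Pf.B 12 6 (Pf.C 1 0x4820c1c608) (Pf.C 0 0x1c34606)))) (Pf.C 0 0x1c30687))) (Pf.C 17 0x20609)) (Pf.C 1 0x70c122808b)) (Pf.C 0 0x1c3460a))) (Pf.C 0 0x1c3460b))) (Pf.C 1 0x580101c703)) (Pf.B 14 7 (Pf.C 1 0x5010e20703) (Pf.B 14 5 (Pf.C 1 0x5800a1c703) (Pf.C 1 0x40e0a28083)))) (Pf.B 14 8 (Pf.C 1 0x5801028703) (Pf.B 14 7 (Pf.B 14 5 (Pf.C 1 0x5800a28703) (Pf.C 1 0x40e0a1c083)) (Pf.C 1 0x50e0e2c003)))) (Pf.C 15 0x2c18e)) (Pf.C 15 0x2c30e))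 (Pf.C 15 0x2c48e)) (Pf.B 14 10 (Pf.B 14 9 (Pf.B 14 8 (Pf.B 14 7 (Pf.C 1 0x5010e2c708) (Pf.B 14 6 (Pf.B 14 5 (Pf.C 1 0x4000a1c706) (Pf.C 1 0x58e0a28086)) (Pf.C 14 0x2830e))) (Pf.C 1 0x58e1028089)) (Pf.C 14 0x2848e)) (Pf.B 14 9 (Pf.B 14 8 (Pf.B 14 7 (Pf.B 14 6 (Pf.B 14 5 (Pf.C 1 0x4000a28706) (Pf.C 1 0x58e0a1c086)) (Pf.C 14 0x1c30e)) (Pf.C 1 0x50e0e20009)) (Pf.B 14 7 (Pf.C 1 0x58e1004389) (Pf.B 14 5 (Pf.C 1 0x50e0e00289) (Pf.B 12 8 (Pf.B 13 8 (Pf.B 12 5 (Pf.B 13 5 (Pf.B 13 10 (Pf.B 12 10 (Pf.C 1 0x1011434605) (Pf.C 0 0x1a3860a)) (Pf.B 13 9 (Pf.C 1 0x4000a28689) (Pf.B 13 7 (Pf.C 1 0x4000a24687) (Pf.C 0 0x1438687)))) (Pf.C 0 0x1838685)) (Pf.C 0 0x1c14600)) (Pf.C 0 0x1838688)) (Pf.C 0 0x1c20600))))) (Pf.B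 13 9 (Pf.C 11 0x2470d) (Pf.C 0 0x43848d))))))
 (Pq.cons (Pq.L [0,1,2,4,5,6,7,8,9,10,11] 7 (Pf.B 14 11 (Pf.B 14 10 (Pf.B 14 7 (Pf.B 14 4 (Pf.B 14 9 (Pf.B 14 8 (Pf.B 14 6 (Pf.B 13 11 (Pf.B 13 10 (Pf.C 1 0x580043868a) (Pf.B 13 9 (Pf.C 1 0x70d142c009) (Pf.B 13 7 (Pf.C 1 0x5800428687) (Pf.B 13 6 (Pf.C 1 0x5800224686) (Pf.B 12 9 (Pf.B 12 7 (Pf.B 12 6 (Pf.C 1 0x4820c38607) (Pf.C 0 0x1c34606)) (Pf.C 0 0x1c34607)) (Pf.C 0 0x1c34609)))))) (Pf.B 13 10 (Pf.B 13 9 (Pf.C 1 0x2123868a) (Pf.B 13 8 (Pf.C 1 0x501042c688) (Pf.B 13 7 (Pf.B 13 6 (Pf.C 1 0x5010e20686) (Pf.B 12 9 (Pf.B 12 8 (Pf.B 12 7 (Pf.B 12 6 (Pf.C 1 0x4820c38607) (Pf.C 0 0x1c34606)) (Pf.C 1 0x70c0e24108)) (Pf.C 17 0x20609)) (Pf.C 0 0x1c34609))) (Pf.C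 1 0x70d0e0800a)))) (Pf.B 13 7 (Pf.C 1 0x70d1408007) (Pf.B 12 10 (Pf.B 12 8 (Pf.B 12 7 (Pf.B 12 9 (Pf.B 12 6 (Pf.C 1 0x4820c38607) (Pf.C 1 0x5010e18608)) (Pf.C 1 0x5010e24608)) (Pf.C 0 0x1c34607)) (Pf.C 19 0x2060a)) (Pf.C 0 0x1c3460a))))) (Pf.C 1 0x5801018704)) (Pf.B 14 6 (Pf.C 1 0x4820c20704) (Pf.B 14 5 (Pf.C 1 0x5800a18704) (Pf.C 1 0x40e0a24104)))) (Pf.B 14 8 (Pf.C 1 0x5801024704) (Pf.B 14 6 (Pf.B 14 5 (Pf.C 1 0x5800a24704) (Pf.C 1 0x40e0a18104)) (Pf.C 1 0x48e0c2c004)))) (Pf.C 18 0x2c20e)) (Pf.C 18 0x2c38e)) (Pf.C 18 0x2c50e)) (Pf.B 14 10 (Pf.B 14 9 (Pf.B 14 8 (Pf.B 14 7 (Pf.B 14 6 (Pf.C 1 0x4820c2c707) (Pf.B 14 5 (Pf.C 1 0x4000a18707) (Pf.C 1 0x58e0a24107))) (Pf.C 16 0x1c709)) (Pf.C 1 0x58e102410a))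 (Pf.B 14 8 (Pf.B 14 7 (Pf.B 14 6 (Pf.B 14 5 (Pf.C 1 0x4000a24706) (Pf.C 1 0x58e0a18107)) (Pf.C 1 0x48e0c20007)) (Pf.C 18 0x2038e)) (Pf.B 14 6 (Pf.C 1 0x58e100830a) (Pf.B 14 5 (Pf.C 1 0x48e0c0028a) (Pf.B 12 8 (Pf.B 13 8 (Pf.B 12 5 (Pf.B 13 5 (Pf.B 13 10 (Pf.B 13 9 (Pf.B 12 9 (Pf.C 1 0x821234605) (Pf.C 0 0x1a38609)) (Pf.C 1 0x4000a2468a)) (Pf.B 13 9 (Pf.C 1 0x4000a28689) (Pf.B 13 7 (Pf.C 1 0x4000a24687) (Pf.B 13 6 (Pf.C 1 0x4000a1c686) (Pf.C 0 0x1238686))))) (Pf.C 0 0x1838685)) (Pf.C 0 0x1c14600)) (Pf.C 0 0x1838688)) (Pf.C 0 0x1c20600)))))) (Pf.B 13 10 (Pf.C 12 0x2870d) (Pf.C 0 0x23850d)))))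
 (Pq.cons (Pq.L [0] 7 (Pf.C 0 0x1a38600))
 Pq.nil))))) (Pq.cons (Pq.D 2 (Pq.cons (Pq.L [0,1,2,3,6,7,8,9,10,11] 7 (Pf.B 14 11 (Pf.B 12 11 (Pf.B 14 10 (Pf.B 14 8 (Pf.B 14 9 (Pf.B 13 9 (Pf.B 13 10 (Pf.C 1 0x11438689) (Pf.B 12 10 (Pf.C 1 0x101143860b) (Pf.C 0 0x1c3460a))) (Pf.C 11 0x2468e)) (Pf.C 1 0x580102470a)) (Pf.C 1 0x501042070b)) (Pf.B 14 7 (Pf.C 1 0x5800428707) (Pf.B 14 9 (Pf.C 1 0x50e0e2c009) (Pf.B 14 6 (Pf.C 1 0x5800224706) (Pf.B 14 3 (Pf.C 1 0x5800218703) (Pf.B 13 9 (Pf.B 13 6 (Pf.B 13 3 (Pf.B 12 9 (Pf.B 12 8 (Pf.B 12 6 (Pf.B 12 10 (Pf.B 13 10 (Pf.B 13 11 (Pf.B 13 8 (Pf.B 13 7 (Pf.B 12 7 (Pf.C 1 0x5010e34606) (Pf.C 0 0x1a38607)) (Pf.C 1 0x580101c683)) (Pf.C 1 0x60d1028086)) (Pf.C 1 0x60d1628086))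 (Pf.C 0 0x183868a)) (Pf.C 1 0x4820c28608)) (Pf.C 0 0x1a38606)) (Pf.C 17 0x20609)) (Pf.C 0 0x1a38609)) (Pf.C 0 0x1c0c682)) (Pf.C 0 0x1c18682)) (Pf.C 0 0x1c24682))))))) (Pf.C 13 0x2c60e)) (Pf.B 12 11 (Pf.B 13 11 (Pf.B 13 9 (Pf.B 13 6 (Pf.B 13 3 (Pf.B 14 10 (Pf.B 14 8 (Pf.C 1 0x501042c708) (Pf.B 14 9 (Pf.C 1 0x58e1028089) (Pf.B 14 6 (Pf.C 1 0x5010024706) (Pf.B 12 9 (Pf.B 12 8 (Pf.B 13 8 (Pf.B 13 10 (Pf.B 13 7 (Pf.B 12 6 (Pf.B 12 10 (Pf.B 12 7 (Pf.C 1 0x5010e34606) (Pf.C 1 0x4820c1c608)) (Pf.C 1 0x4820c28608)) (Pf.C 0 0x1a38606)) (Pf.C 1 0x580101c683)) (Pf.C 1 0x5801028683)) (Pf.C 0 0x1838688)) (Pf.C 17 0x20609)) (Pf.C 0 0x1a38609))))) (Pf.B 14 9 (Pf.B 14 8 (Pf.C 1 0x482022c708) (Pf.B 14 7 (Pf.C 1 0x4820028707)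 (Pf.B 12 8 (Pf.B 13 8 (Pf.B 13 10 (Pf.B 13 7 (Pf.B 12 10 (Pf.B 12 7 (Pf.C 1 0x5010e34608) (Pf.C 0 0x1a38607)) (Pf.C 0 0x1a3860a)) (Pf.C 1 0x580101c683)) (Pf.C 1 0x5801028683)) (Pf.C 0 0x1838688)) (Pf.C 0 0x1c20600)))) (Pf.B 14 6 (Pf.C 1 0x68e1204006) (Pf.B 12 9 (Pf.B 12 8 (Pf.B 14 8 (Pf.C 1 0x60e1608088) (Pf.B 13 8 (Pf.B 13 10 (Pf.B 13 7 (Pf.B 12 10 (Pf.B 12 7 (Pf.C 1 0x5010e34608) (Pf.B 12 6 (Pf.C 1 0x4820c1c608) (Pf.C 0 0x1a38606))) (Pf.C 0 0x1a3860a)) (Pf.C 1 0x580101c683)) (Pf.C 1 0x5801028683)) (Pf.C 0 0x1838688))) (Pf.C 17 0x20609)) (Pf.C 0 0x1a38609))))) (Pf.C 15 0x2c18d)) (Pf.C 15 0x2c30d)) (Pf.C 15 0x2c48d)) (Pf.C 0 0x183868b)) (Pf.C 0 0x1c2c600))))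
 (Pq.cons (Pq.L [2] 7 (Pf.C 0 0x43868c))
 (Pq.cons (Pq.L [0,1,2,3,4,5,6,7,8,9,10,11] 7 (Pf.B 14 11 (Pf.B 14 10 (Pf.B 14 7 (Pf.B 14 4 (Pf.B 14 9 (Pf.B 14 8 (Pf.B 14 6 (Pf.B 14 5 (Pf.B 13 11 (Pf.B 13 9 (Pf.B 13 10 (Pf.B 13 8 (Pf.C 1 0x5801038689) (Pf.B 13 7 (Pf.C 1 0x5010e20689) (Pf.C 1 0x70d0e2c009))) (Pf.C 1 0x70d142c009)) (Pf.C 15 0x2c48d)) (Pf.B 13 10 (Pf.B 13 9 (Pf.B 13 8 (Pf.B 13 7 (Pf.C 1 0x5010e2c688) (Pf.C 1 0x70d0e20009)) (Pf.C 1 0x58d1028089)) (Pf.C 14 0x2848d)) (Pf.B 12 10 (Pf.B 12 5 (Pf.B 13 9 (Pf.B 13 8 (Pf.C 1 0x70d1400409) (Pf.B 13 7 (Pf.C 1 0x58d1004389) (Pf.B 12 7 (Pf.B 12 9 (Pf.B 12 6 (Pf.C 1 0x4820c38605) (Pf.C 1 0x5010e18605)) (Pf.C 1 0x5010e24605)) (Pf.C 0 0x1c34607)))) (Pf.B 13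 7 (Pf.C 14 0x1c48d) (Pf.B 12 9 (Pf.B 12 7 (Pf.B 12 6 (Pf.C 1 0x4820c38605) (Pf.C 1 0x5010e18605)) (Pf.C 0 0x1c34607)) (Pf.C 0 0x43448c)))) (Pf.C 19 83466)) (Pf.C 0 0x1c3460a)))) (Pf.C 1 0x4820c14704)) (Pf.C 1 0x5801018704)) (Pf.B 14 6 (Pf.C 1 0x4820c20704) (Pf.B 14 5 (Pf.C 1 0x5800a18704) (Pf.C 1 0x40e0a24104)))) (Pf.B 14 8 (Pf.C 1 0x5801024704) (Pf.B 14 6 (Pf.B 14 5 (Pf.C 1 0x5800a24704) (Pf.C 1 0x40e0a18104)) (Pf.C 1 0x48e0c2c004)))) (Pf.C 18 0x2c20e)) (Pf.C 18 0x2c38e)) (Pf.C 18 0x2c50e)) (Pf.B 12 11 (Pf.B 13 11 (Pf.B 13 9 (Pf.B 13 6 (Pf.B 13 3 (Pf.B 14 10 (Pf.B 14 9 (Pf.B 14 8 (Pf.B 14 7 (Pf.B 14 6 (Pf.C 1 0x4820c2c707) (Pf.B 14 5 (Pf.C 1 0x4000a18707) (Pf.C 1 0x58e0a24107))) (Pf.C 16 0x1c709))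 (Pf.C 1 0x58e102410a)) (Pf.B 12 9 (Pf.B 12 8 (Pf.B 12 5 (Pf.B 14 8 (Pf.B 14 7 (Pf.B 14 6 (Pf.B 14 5 (Pf.C 1 0x4000a24706) (Pf.C 1 0x58e0a18107)) (Pf.C 1 0x48e0c20007)) (Pf.C 18 0x2038e)) (Pf.B 14 6 (Pf.C 1 0x58e100830a) (Pf.B 14 5 (Pf.C 1 0x48e0c0028a) (Pf.B 13 8 (Pf.B 13 10 (Pf.B 13 7 (Pf.B 13 5 (Pf.B 12 6 (Pf.B 12 10 (Pf.B 12 7 (Pf.C 1 0x5010e34605) (Pf.C 1 0x4820c1c605)) (Pf.C 1 0x4820c28605)) (Pf.C 0 0x1a38606)) (Pf.C 0 0x1838685)) (Pf.C 1 0x580101c683)) (Pf.C 1 0x5801028683)) (Pf.C 0 0x1838688))))) (Pf.C 17 83465)) (Pf.C 17 0x20609)) (Pf.C 0 0x1a38609))) (Pf.B 14 9 (Pf.C 16 0x28709) (Pf.B 14 8 (Pf.C 18 0x2050e) (Pf.B 14 6 (Pf.C 16 0x28706) (Pf.B 13 10 (Pf.B 12 10 (Pf.B 12 9 (Pf.B 12 8 (Pf.B 13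 8 (Pf.B 13 7 (Pf.B 12 7 (Pf.C 1 0x5010e34608) (Pf.B 12 6 (Pf.C 1 0x4820c1c608) (Pf.C 0 0x1a38606))) (Pf.C 1 0x580101c683)) (Pf.C 0 0x1838688)) (Pf.C 17 0x20609)) (Pf.C 0 0x1a38609)) (Pf.C 0 0x23850c)) (Pf.C 0 0x23850d)))))) (Pf.C 15 0x2c18d)) (Pf.C 15 0x2c30d)) (Pf.C 15 0x2c48d)) (Pf.C 0 0x183868b)) (Pf.C 0 0x1c2c600))))
 (Pq.cons (Pq.L [0] 7 (Pf.C 0 0x1a38600))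
 Pq.nil))))) (Pq.cons (Pq.D 2 (Pq.cons (Pq.L [0,1,2,4,6,7,8,9,10,11] 7 (Pf.B 14 11 (Pf.B 12 11 (Pf.B 14 10 (Pf.B 14 8 (Pf.B 14 9 (Pf.B 13 10 (Pf.B 13 9 (Pf.C 1 0x2123868a) (Pf.B 12 9 (Pf.C 1 0x82123860b) (Pf.C 0 0x1c34609))) (Pf.C 12 0x2868e)) (Pf.C 1 0x580102470a)) (Pf.C 1 0x501042070b)) (Pf.B 14 7 (Pf.C 1 0x5800428707) (Pf.B 14 9 (Pf.C 1 0x50e0e2c009) (Pf.B 14 6 (Pf.C 1 0x5800224706) (Pf.B 14 4 (Pf.C 1 0x580041c704) (Pf.B 13 10 (Pf.B 13 7 (Pf.B 13 4 (Pf.B 12 10 (Pf.B 12 8 (Pf.B 12 7 (Pf.B 12 9 (Pf.B 13 9 (Pf.B 13 11 (Pf.B 13 8 (Pf.B 13 6 (Pf.B 12 6 (Pf.C 1 0x4820c34607) (Pf.C 0 0x1a38606)) (Pf.C 1 0x5801018684)) (Pf.C 1 0x60d1024107)) (Pf.C 1 0x60d1624107)) (Pf.C 0 0x1838689)) (Pf.C 1 0x5010e24608))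 (Pf.C 0 0x1a38607)) (Pf.C 19 0x2060a)) (Pf.C 0 0x1a3860a)) (Pf.C 0 0x1c10681)) (Pf.C 0 0x1c1c681)) (Pf.C 0 0x1c28681))))))) (Pf.C 13 0x2c60e)) (Pf.B 12 11 (Pf.B 13 11 (Pf.B 13 10 (Pf.B 13 7 (Pf.B 13 4 (Pf.B 14 10 (Pf.B 14 8 (Pf.C 1 0x501042c708) (Pf.B 14 9 (Pf.C 1 0x58e1028089) (Pf.B 14 7 (Pf.B 14 6 (Pf.C 1 0x5010e20706) (Pf.B 12 8 (Pf.B 13 8 (Pf.B 13 9 (Pf.B 13 6 (Pf.B 12 9 (Pf.B 12 7 (Pf.B 12 6 (Pf.C 1 0x4820c34607) (Pf.C 0 0x1a38606)) (Pf.C 1 0x68c0e24108)) (Pf.C 0 0x1a38609)) (Pf.C 1 0x5801018684)) (Pf.C 1 0x5801024684)) (Pf.C 0 0x1838688)) (Pf.C 0 0x1c20600))) (Pf.C 1 0x68e0e0800a)))) (Pf.B 14 7 (Pf.C 1 0x68e1408007) (Pf.B 12 10 (Pf.B 12 8 (Pf.B 14 8 (Pf.C 1 0x60e1608088) (Pf.B 13 8 (Pf.B 13 9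 (Pf.B 13 6 (Pf.B 12 7 (Pf.B 12 9 (Pf.B 12 6 (Pf.C 1 0x4820c34607) (Pf.C 1 0x5010e18608)) (Pf.C 1 0x5010e24608)) (Pf.C 0 0x1a38607)) (Pf.C 1 0x5801018684)) (Pf.C 1 0x5801024684)) (Pf.C 0 0x1838688))) (Pf.C 19 0x2060a)) (Pf.C 0 0x1a3860a)))) (Pf.C 18 0x2c20d)) (Pf.C 18 0x2c38d)) (Pf.C 18 0x2c50d)) (Pf.C 0 0x183868b)) (Pf.C 0 0x1c2c600))))
 (Pq.cons (Pq.L [0,1,2,3,4,5,6,7,8,9,10,11] 7 (Pf.B 14 11 (Pf.B 14 9 (Pf.B 14 6 (Pf.B 14 3 (Pf.B 14 10 (Pf.B 14 8 (Pf.B 14 7 (Pf.B 13 11 (Pf.B 13 10 (Pf.B 13 9 (Pf.B 13 8 (Pf.C 1 0x5801038689) (Pf.B 13 7 (Pf.B 13 6 (Pf.C 1 0x4820c20687) (Pf.C 1 0x70d0c2c007)) (Pf.C 16 0x1c689))) (Pf.C 1 0x70d122c00a)) (Pf.C 18 0x2c50d)) (Pf.B 13 10 (Pf.B 13 9 (Pf.B 13 8 (Pf.B 13 7 (Pf.B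 13 6 (Pf.C 1 0x4820c2c687) (Pf.C 1 0x70d0c20007)) (Pf.C 16 0x1c689)) (Pf.C 1 0x58d102410a)) (Pf.B 13 8 (Pf.C 1 0x70d120040a) (Pf.B 13 6 (Pf.C 1 0x58d100830a) (Pf.B 12 9 (Pf.B 12 8 (Pf.B 12 6 (Pf.B 12 10 (Pf.B 12 7 (Pf.C 1 0x5010e38606) (Pf.C 1 0x4820c1c608)) (Pf.C 1 0x4820c28608)) (Pf.C 0 0x1c34606)) (Pf.C 17 0x20609)) (Pf.C 0 0x1c34609))))) (Pf.B 13 9 (Pf.C 16 0x28689) (Pf.B 13 6 (Pf.C 16 0x28686) (Pf.B 12 10 (Pf.B 12 9 (Pf.B 12 8 (Pf.B 12 7 (Pf.C 1 0x5010e38608) (Pf.B 12 6 (Pf.C 1 0x4820c1c608) (Pf.C 0 0x1c34606))) (Pf.C 17 0x20609)) (Pf.C 0 0x1c34609)) (Pf.C 0 0x23450c)))))) (Pf.C 1 0x580101c703)) (Pf.B 14 7 (Pf.C 1 0x5010e20703) (Pf.B 14 5 (Pf.C 1 0x5800a1c703) (Pf.C 1 0x40e0a28083)))) (Pf.B 14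 8 (Pf.C 1 0x5801028703) (Pf.B 14 7 (Pf.B 14 5 (Pf.C 1 0x5800a28703) (Pf.C 1 0x40e0a1c083)) (Pf.C 1 0x50e0e2c003)))) (Pf.C 15 0x2c18e)) (Pf.C 15 0x2c30e)) (Pf.C 15 0x2c48e)) (Pf.B 12 11 (Pf.B 13 11 (Pf.B 13 10 (Pf.B 13 7 (Pf.B 13 4 (Pf.B 14 10 (Pf.B 14 9 (Pf.B 14 8 (Pf.B 14 7 (Pf.C 1 0x5010e2c708) (Pf.B 14 6 (Pf.B 14 5 (Pf.C 1 0x4000a1c706) (Pf.C 1 0x58e0a28086)) (Pf.C 14 0x2830e))) (Pf.C 1 0x58e1028089)) (Pf.C 14 0x2848e)) (Pf.B 12 10 (Pf.B 12 8 (Pf.B 12 5 (Pf.B 14 9 (Pf.B 14 8 (Pf.B 14 7 (Pf.B 14 6 (Pf.B 14 5 (Pf.C 1 0x4000a28706) (Pf.C 1 0x58e0a1c086)) (Pf.C 14 0x1c30e)) (Pf.C 1 0x50e0e20009)) (Pf.B 14 7 (Pf.C 1 0x58e1004389) (Pf.B 14 5 (Pf.C 1 0x50e0e00289) (Pf.B 13 8 (Pf.B 13 9 (Pf.B 13 6 (Pf.B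 13 5 (Pf.B 12 7 (Pf.B 12 9 (Pf.B 12 6 (Pf.C 1 0x4820c34605) (Pf.C 1 0x5010e18605)) (Pf.C 1 0x5010e24605)) (Pf.C 0 0x1a38607)) (Pf.C 0 0x1838685)) (Pf.C 1 0x5801018684)) (Pf.C 1 0x5801024684)) (Pf.C 0 0x1838688))))) (Pf.B 14 8 (Pf.C 15 0x2048e) (Pf.B 14 7 (Pf.C 14 0x1c48e) (Pf.B 14 5 (Pf.C 15 83086) (Pf.B 13 9 (Pf.B 13 8 (Pf.B 13 6 (Pf.B 13 5 (Pf.B 12 9 (Pf.B 12 7 (Pf.B 12 6 (Pf.C 1 0x4820c34605) (Pf.C 1 0x5010e18605)) (Pf.C 0 0x1a38607)) (Pf.C 0 0x43848c)) (Pf.C 0 0x1838685)) (Pf.C 1 0x5801018684)) (Pf.C 0 0x1838688)) (Pf.C 0 0x43848d)))))) (Pf.C 19 83466)) (Pf.C 19 0x2060a)) (Pf.C 0 0x1a3860a))) (Pf.C 18 0x2c20d)) (Pf.C 18 0x2c38d)) (Pf.C 18 0x2c50d)) (Pf.C 0 0x183868b)) (Pf.C 0 0x1c2c600))))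
 (Pq.cons (Pq.L [1] 7 (Pf.C 0 0x23868c))
 (Pq.cons (Pq.L [0] 7 (Pf.C 0 0x1a38600))
 Pq.nil))))) (Pq.cons (Pq.D 2 (Pq.cons (Pq.L [0] 7 (Pf.C 0 0x1c34600))
 (Pq.cons (Pq.L [0] 7 (Pf.C 0 0x1c34600))
 (Pq.cons (Pq.L [0] 7 (Pf.C 0 0x1c34600))
 (Pq.cons (Pq.L [0,10] 7 (Pf.B 14 10 (Pf.B 13 10 (Pf.C 19 0x3868a) (Pf.B 12 10 (Pf.C 19 0x3860a) (Pf.C 0 0x3460a))) (Pf.B 13 10 (Pf.B 12 10 (Pf.C 19 0x3460a) (Pf.C 0 0x3860a)) (Pf.C 0 0x3868a))))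
 Pq.nil))))) Pq.nil))))) Pq.nil))
theorem eK_o96 : AllRef eK_T eK_G112 (List.drop 2 (List.flatMap (splitP 0) (List.take 1 (applyObl d_T 2 [11,139,140,141] [0,0,0,0] [])))) :=
  chkPq_sound eK_o96c _ (by decide +kernel)
noncomputable def eK_o97c : Pq := (Pq.cons (Pq.L [] 0x136ef7 (Pf.C 1 0x78d1c4888c))
 Pq.nil)
theorem eK_o97 : AllRef eK_T eK_G112 (List.drop 1 (applyObl d_T 2 [11,139,140,141] [0,0,0,0] [])) :=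
  chkPq_sound eK_o97c _ (by decide +kernel)

end Pool.Agent.Lib.MP_849b2e_co
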