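import Pool.Agent.Lib.MP_849b2e_co.AllR
import Pool.Agent.Lib.MP_849b2e_co.TeK
import Pool.Agent.Lib.MP_849b2e_co.OeK_0
import Pool.Agent.Lib.MP_849b2e_co.Ld
import Pool.Agent.Lib.MP_849b2e_co.Le3
import Pool.Agent.Lib.MP_849b2e_co.Le5

set_option maxRecDepth 100000
set_option linter.all false
namespace Pool.Agent.Lib.MP_849b2e_co

theorem eK_n149  : Bd eK_T eK_G112 [11,139,140,141] :=
  r_apply lem_d [0,0,0,0] [] (by decide +kernel) (allRef_split 1 (allRef_expand 0 (allRef_split 2 eK_o95 eK_o96)) eK_o97)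
theorem eK_n148  : Bd eK_T eK_G112 [11,12,13,14] :=
  r_act [40,41,42] [11,139,140,141] (by decide +kernel) eK_n149
theorem eK_n147  : Bd eK_T eK_G111 [11,12,13,14] :=
  r_psplit 14 [3,4,5,6,7,8,9,10,11] PT.kid ⟨141,[43],[],[]⟩ eK_G112 [11,12,13,14] (by decide +kernel) eK_o94 eK_n148
theorem eK_n146  : Bd eK_T eK_G110 [11,12,13,14] :=
  r_psplit 13 [3,4,5,6,7,8,9,10,11] PT.kid ⟨140,[42],[],[]⟩ eK_G111 [11,12,13,14] (by decide +kernel) eK_o93 eK_n147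
theorem eK_n145  : Bd eK_T eK_G9 [11,12,13,14] :=
  r_psplit 12 [3,4,5,6,7,8,9,10,11] PT.kid ⟨139,[41],[],[]⟩ eK_G110 [11,12,13,14] (by decide +kernel) eK_o92 eK_n146
theorem eK_n144  : Bd eK_T eK_G109 [] :=
  r_empty (by decide +kernel) 
theorem eK_n143  : Bd eK_T eK_G108 [138] :=
  r_kill [138] ⟨139,[],[],[]⟩ eK_G109 [] (by decide +kernel) eK_o91 eK_n144
theorem eK_n142  : Bd eK_T eK_G107 [136] :=
  r_hit [136] eK_h142 ⟨138,[],[84],[]⟩ eK_G108 [138] (by decide +kernel) eK_o90 eK_n143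
theorem eK_n141  : Bd eK_T eK_G106 [135,136,137] :=
  r_close false 3 [36,37,38,39] [135,136,137] [0,0,0] [4] [0] 2 ⟨138,[],[],[]⟩ eK_G107 [136] (by decide +kernel) eK_o89 eK_n142
theorem eK_n140  : Bd eK_T eK_G106 [131,132] :=
  r_act [37,38,39] [135,136,137] (by decide +kernel) eK_n141
theorem eK_n139  : Bd eK_T eK_G105 [131,132] :=
  r_psplit 132 [] (PT.br 4 PT.kid PT.ref) ⟨137,[40],[],[]⟩ eK_G106 [131,132] (by decide +kernel) eK_o88 eK_n140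
theorem eK_n138  : Bd eK_T eK_G104 [131,132] :=
  r_psplit 134 [] (PT.br 4 PT.kid PT.kid) ⟨135,[39],[],[]⟩ eK_G105 [131,132] (by decide +kernel) eK_o87 eK_n139
theorem eK_n137  : Bd eK_T eK_G103 [131,132] :=
  r_psplit 131 [4] PT.kid ⟨134,[38],[],[]⟩ eK_G104 [131,132] (by decide +kernel) eK_o86 eK_n138
theorem eK_n136  : Bd eK_T eK_G102 [132] :=
  r_apply lem_D2 [0] [] (by decide +kernel) eK_o85
theorem eK_n135  : Bd eK_T eK_G101 [131,132] :=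
  r_ext 131 2 [131] [] [] [] [0,1,2,3] ⟨133,[],[],[]⟩ eK_G102 [132] ⟨133,[],[],[]⟩ eK_G103 [131,132] (by decide +kernel) eK_o84 eK_n136 eK_n137
theorem eK_n134  : Bd eK_T eK_G101 [128] :=
  r_act [36] [131,132] (by decide +kernel) eK_n135
theorem eK_n133  : Bd eK_T eK_G100 [128] :=
  r_def 128 2 [128] [] ⟨131,[37],[82,0,0,0,83],[]⟩ eK_G101 [128] (by decide +kernel) eK_n134
theorem eK_n132  : Bd eK_T eK_G99 [127] :=
  r_block [0] [1] [1] ⟨128,[],[],[4]⟩ eK_G100 [128] (by decide +kernel) eK_o83 eK_n133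
theorem eK_n131  : Bd eK_T eK_G98 [112] :=
  r_twin 0 [1] ⟨127,[],[],[]⟩ eK_G99 [127] (by decide +kernel) eK_o82 eK_n132
theorem eK_n130  : Bd eK_T eK_G97 [112,124,125,126] :=
  r_kill [124,125,126] ⟨127,[],[],[]⟩ eK_G98 [112] (by decide +kernel) eK_o81 eK_n131
theorem eK_n129  : Bd eK_T eK_G96 [112,113,114,115] :=
  r_hit [113,114,115] eK_h129 ⟨124,[],[79,80,81],[]⟩ eK_G97 [112,124,125,126] (by decide +kernel) eK_o80 eK_n130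
theorem eK_n128  : Bd eK_T eK_G96 [112,116,120,114,118,122] :=
  r_act [] [112,113,114,115] (by decide +kernel) eK_n129
theorem eK_n127  : Bd eK_T eK_G95 [112,116,120,121,114,118,122,123] :=
  r_kill [121,123] ⟨124,[],[],[]⟩ eK_G96 [112,116,120,114,118,122] (by decide +kernel) eK_o79 eK_n128
theorem eK_n126  : Bd eK_T eK_G95 [112,116,117,114,118,119] :=
  r_act [34,35] [112,116,120,121,114,118,122,123] (by decide +kernel) eK_n127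
theorem eK_n125  : Bd eK_T eK_G94 [112,116,117,114,118,119] :=
  r_def 119 0 [] [116] ⟨122,[36],[0,78],[]⟩ eK_G95 [112,116,117,114,118,119] (by decide +kernel) eK_n126
theorem eK_n124  : Bd eK_T eK_G93 [112,116,117,114,118,119] :=
  r_def 117 0 [] [116] ⟨120,[35],[76,77],[]⟩ eK_G94 [112,116,117,114,118,119] (by decide +kernel) eK_n125
theorem eK_n123  : Bd eK_T eK_G93 [112,113,114,115] :=
  r_act [32,33] [112,116,117,114,118,119] (by decide +kernel) eK_n124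
theorem eK_n122  : Bd eK_T eK_G92 [112,113,114,115] :=
  r_def 115 0 [] [112,114] ⟨118,[34],[0,75],[]⟩ eK_G93 [112,113,114,115] (by decide +kernel) eK_n123
theorem eK_n121  : Bd eK_T eK_G91 [112,113,114,115] :=
  r_def 113 0 [] [112,114] ⟨116,[33],[73,74],[]⟩ eK_G92 [112,113,114,115] (by decide +kernel) eK_n122
theorem eK_n120  : Bd eK_T eK_G91 [107,108] :=
  r_act [29,30,31] [112,113,114,115] (by decide +kernel) eK_n121
theorem eK_n119  : Bd eK_T eK_G90 [107,108] :=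
  r_psplit 108 [] (PT.br 3 PT.kid PT.kid) ⟨114,[32],[],[]⟩ eK_G91 [107,108] (by decide +kernel) eK_o78 eK_n120
theorem eK_n118  : Bd eK_T eK_G89 [107,108] :=
  r_psplit 111 [] (PT.br 3 PT.kid PT.kid) ⟨112,[31],[],[]⟩ eK_G90 [107,108] (by decide +kernel) eK_o77 eK_n119
theorem eK_n117  : Bd eK_T eK_G86 [107,108] :=
  r_psplit 107 [3] PT.kid ⟨111,[30],[],[]⟩ eK_G89 [107,108] (by decide +kernel) eK_o76 eK_n118
theorem eK_n116  : Bd eK_T eK_G88 [] :=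
  r_empty (by decide +kernel) 
theorem eK_n115  : Bd eK_T eK_G87 [110] :=
  r_kill [110] ⟨111,[],[],[]⟩ eK_G88 [] (by decide +kernel) eK_o75 eK_n116
theorem eK_n114  : Bd eK_T eK_G85 [108] :=
  r_hit [108] eK_h114 ⟨110,[],[72],[]⟩ eK_G87 [110] (by decide +kernel) eK_o74 eK_n115
theorem eK_n113  : Bd eK_T eK_G84 [107,108] :=
  r_ext 107 2 [] [] [107,108] [] [0,1,2] ⟨109,[],[],[]⟩ eK_G85 [108] ⟨109,[],[],[]⟩ eK_G86 [107,108] (by decide +kernel) eK_o73 eK_n114 eK_n117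
theorem eK_n112  : Bd eK_T eK_G84 [104] :=
  r_act [28] [107,108] (by decide +kernel) eK_n113
theorem eK_n111  : Bd eK_T eK_G83 [104] :=
  r_def 104 2 [] [104] ⟨107,[29],[70,71],[]⟩ eK_G84 [104] (by decide +kernel) eK_n112
theorem eK_n110  : Bd eK_T eK_G82 [103] :=
  r_block [1] [1] [1] ⟨104,[28],[0,68,0,0,69],[]⟩ eK_G83 [104] (by decide +kernel) eK_o72 eK_n111
theorem eK_n109  : Bd eK_T eK_G15 [32] :=
  r_twin 0 [1] ⟨103,[],[67],[]⟩ eK_G82 [103] (by decide +kernel) eK_o71 eK_n110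
theorem eK_n108  : Bd eK_T eK_G81 [101] :=
  r_apply lem_D2 [0] [] (by decide +kernel) eK_o70
theorem eK_n107  : Bd eK_T eK_G81 [99] :=
  r_apply lem_D2 [0] [] (by decide +kernel) eK_o69
theorem eK_n106  : Bd eK_T eK_G81 [99,101] :=
  r_split [99] [101] (by decide +kernel) eK_o68 eK_n107 eK_n108
theorem eK_n105  : Bd eK_T eK_G81 [97] :=
  r_apply lem_D2 [0] [] (by decide +kernel) eK_o67
theorem eK_n104  : Bd eK_T eK_G81 [97,99,101] :=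
  r_split [97] [99,101] (by decide +kernel) eK_o66 eK_n105 eK_n106
theorem eK_n103  : Bd eK_T eK_G81 [33,98,100,102] :=
  r_apply lem_e3 [1,2,3,4] [] (by decide +kernel) eK_o65
theorem eK_n102  : Bd eK_T eK_G81 [33,97,98,99,100,101,102] :=
  r_split [33,98,100,102] [97,99,101] (by decide +kernel) eK_o64 eK_n103 eK_n104
theorem eK_n101  : Bd eK_T eK_G81 [33,97,98,99,100,31] :=
  r_act [26] [33,97,98,99,100,101,102] (by decide +kernel) eK_n102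
theorem eK_n100  : Bd eK_T eK_G80 [33,97,98,99,100,31] :=
  r_def 31 0 [31] [] ⟨101,[27],[65,0,66],[]⟩ eK_G81 [33,97,98,99,100,31] (by decide +kernel) eK_n101
theorem eK_n99  : Bd eK_T eK_G80 [33,97,98,30,31] :=
  r_act [25] [33,97,98,99,100,31] (by decide +kernel) eK_n100
theorem eK_n98  : Bd eK_T eK_G79 [33,97,98,30,31] :=
  r_def 30 0 [30] [] ⟨99,[26],[63,0,64],[]⟩ eK_G80 [33,97,98,30,31] (by decide +kernel) eK_n99
theorem eK_n97  : Bd eK_T eK_G79 [33,29,30,31] :=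
  r_act [24] [33,97,98,30,31] (by decide +kernel) eK_n98
theorem eK_n96  : Bd eK_T eK_G77 [33,29,30,31] :=
  r_def 29 0 [29] [] ⟨97,[25],[61,0,62],[]⟩ eK_G79 [33,29,30,31] (by decide +kernel) eK_n97
theorem eK_n95  : Bd eK_T eK_G78 [33,30,31] :=
  r_apply lem_e5 [1,2,3] [] (by decide +kernel) eK_o63
theorem eK_n94  : Bd eK_T eK_G76 [33,29,30,31] :=
  r_kill [29] ⟨34,[],[],[]⟩ eK_G78 [33,30,31] (by decide +kernel) eK_o62 eK_n95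
theorem eK_n93  : Bd eK_T eK_G56 [33,29,30,31] :=
  r_ex 29 0 ⟨34,[],[59],[]⟩ eK_G76 [33,29,30,31] ⟨34,[],[60],[]⟩ eK_G77 [33,29,30,31] (by decide +kernel) eK_n94 eK_n96
theorem eK_n92  : Bd eK_T eK_G59 [33,29,31] :=
  r_apply lem_e5 [1,2,3] [] (by decide +kernel) eK_o61
theorem eK_n91  : Bd eK_T eK_G61 [77] :=
  r_apply lem_D2 [0] [] (by decide +kernel) eK_o60
theorem eK_n90  : Bd eK_T eK_G75 [] :=
  r_empty (by decide +kernel) 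
theorem eK_n89  : Bd eK_T eK_G74 [96] :=
  r_kill [96] ⟨97,[],[],[]⟩ eK_G75 [] (by decide +kernel) eK_o59 eK_n90
theorem eK_n88  : Bd eK_T eK_G73 [94] :=
  r_hit [94] eK_h88 ⟨96,[],[58],[]⟩ eK_G74 [96] (by decide +kernel) eK_o58 eK_n89
theorem eK_n87  : Bd eK_T eK_G72 [91,93,94,95] :=
  r_close false 2 [18,20,19,21,22,23] [91,93,94,95] [0,1,1,1] [3] [1] 4 ⟨96,[],[],[]⟩ eK_G73 [94] (by decide +kernel) eK_o57 eK_n88
theorem eK_n86  : Bd eK_T eK_G72 [87,88,89] :=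
  r_act [20,21,22,23] [91,93,94,95] (by decide +kernel) eK_n87
theorem eK_n85  : Bd eK_T eK_G71 [87,88,89] :=
  r_psplit 89 [] (PT.br 3 PT.kid PT.ref) ⟨95,[24],[],[]⟩ eK_G72 [87,88,89] (by decide +kernel) eK_o56 eK_n86
theorem eK_n84  : Bd eK_T eK_G70 [87,88,89] :=
  r_psplit 92 [] (PT.br 3 PT.kid PT.kid) ⟨93,[23],[],[]⟩ eK_G71 [87,88,89] (by decide +kernel) eK_o55 eK_n85
theorem eK_n83  : Bd eK_T eK_G69 [87,88,89] :=
  r_psplit 88 [3] PT.kid ⟨92,[22],[],[]⟩ eK_G70 [87,88,89] (by decide +kernel) eK_o54 eK_n84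
theorem eK_n82  : Bd eK_T eK_G68 [87,88,89] :=
  r_psplit 87 [] (PT.br 3 PT.kid PT.ref) ⟨91,[21],[],[]⟩ eK_G69 [87,88,89] (by decide +kernel) eK_o53 eK_n83
theorem eK_n81  : Bd eK_T eK_G67 [87,89] :=
  r_apply lem_D2 [0,0] [] (by decide +kernel) eK_o52
theorem eK_n80  : Bd eK_T eK_G66 [87,88,89] :=
  r_ext 88 2 [88] [] [] [] [0,1,2] ⟨90,[],[],[]⟩ eK_G67 [87,89] ⟨90,[],[],[]⟩ eK_G68 [87,88,89] (by decide +kernel) eK_o51 eK_n81 eK_n82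
theorem eK_n79  : Bd eK_T eK_G65 [86,87,88,89] :=
  r_kill [86] ⟨90,[],[],[]⟩ eK_G66 [87,88,89] (by decide +kernel) eK_o50 eK_n80
theorem eK_n78  : Bd eK_T eK_G65 [80,83] :=
  r_act [18,19] [86,87,88,89] (by decide +kernel) eK_n79
theorem eK_n77  : Bd eK_T eK_G64 [80,83] :=
  r_def 83 2 [80,83] [] ⟨88,[20],[56,0,0,0,57],[]⟩ eK_G65 [80,83] (by decide +kernel) eK_n78
theorem eK_n76  : Bd eK_T eK_G63 [80,83] :=
  r_def 80 2 [83] [] ⟨86,[19],[55],[]⟩ eK_G64 [80,83] (by decide +kernel) eK_n77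
theorem eK_n75  : Bd eK_T eK_G62 [78,79] :=
  r_block [0,0] [2,3] [2,3] ⟨80,[],[],[3]⟩ eK_G63 [80,83] (by decide +kernel) eK_o49 eK_n76
theorem eK_n74  : Bd eK_T eK_G61 [76,31] :=
  r_twin 0 [2,3] ⟨78,[],[],[]⟩ eK_G62 [78,79] (by decide +kernel) eK_o48 eK_n75
theorem eK_n73  : Bd eK_T eK_G61 [76,77,31] :=
  r_split [76,31] [77] (by decide +kernel) eK_o47 eK_n74 eK_n91
theorem eK_n72  : Bd eK_T eK_G61 [33,31] :=
  r_act [17] [76,77,31] (by decide +kernel) eK_n73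
theorem eK_n71  : Bd eK_T eK_G60 [33,31] :=
  r_def 33 0 [] [31] ⟨76,[18],[53,54],[]⟩ eK_G61 [33,31] (by decide +kernel) eK_n72
theorem eK_n70  : Bd eK_T eK_G58 [33,29,31] :=
  r_kill [29] ⟨34,[],[],[]⟩ eK_G60 [33,31] (by decide +kernel) eK_o46 eK_n71
theorem eK_n69  : Bd eK_T eK_G57 [33,29,31] :=
  r_ex 29 0 ⟨34,[],[51],[]⟩ eK_G58 [33,29,31] ⟨34,[],[52],[]⟩ eK_G59 [33,29,31] (by decide +kernel) eK_n70 eK_n92
theorem eK_n68  : Bd eK_T eK_G55 [33,29,30,31] :=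
  r_kill [30] ⟨34,[],[],[]⟩ eK_G57 [33,29,31] (by decide +kernel) eK_o45 eK_n69
theorem eK_n67  : Bd eK_T eK_G17 [33,29,30,31] :=
  r_ex 30 0 ⟨34,[],[49],[]⟩ eK_G55 [33,29,30,31] ⟨34,[],[50],[]⟩ eK_G56 [33,29,30,31] (by decide +kernel) eK_n68 eK_n93
theorem eK_n66  : Bd eK_T eK_G38 [33,29,30] :=
  r_apply lem_e5 [1,2,3] [] (by decide +kernel) eK_o44
theorem eK_n65  : Bd eK_T eK_G40 [56] :=
  r_apply lem_D2 [0] [] (by decide +kernel) eK_o43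
theorem eK_n64  : Bd eK_T eK_G54 [] :=
  r_empty (by decide +kernel) 
theorem eK_n63  : Bd eK_T eK_G53 [75] :=
  r_kill [75] ⟨76,[],[],[]⟩ eK_G54 [] (by decide +kernel) eK_o42 eK_n64
theorem eK_n62  : Bd eK_T eK_G52 [73] :=
  r_hit [73] eK_h62 ⟨75,[],[48],[]⟩ eK_G53 [75] (by decide +kernel) eK_o41 eK_n63
theorem eK_n61  : Bd eK_T eK_G51 [70,72,73,74] :=
  r_close false 1 [11,13,12,14,15,16] [70,72,73,74] [0,1,1,1] [3] [1] 4 ⟨75,[],[],[]⟩ eK_G52 [73] (by decide +kernel) eK_o40 eK_n62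
theorem eK_n60  : Bd eK_T eK_G51 [66,67,68] :=
  r_act [13,14,15,16] [70,72,73,74] (by decide +kernel) eK_n61
theorem eK_n59  : Bd eK_T eK_G50 [66,67,68] :=
  r_psplit 68 [] (PT.br 3 PT.kid PT.ref) ⟨74,[17],[],[]⟩ eK_G51 [66,67,68] (by decide +kernel) eK_o39 eK_n60
theorem eK_n58  : Bd eK_T eK_G49 [66,67,68] :=
  r_psplit 71 [] (PT.br 3 PT.kid PT.kid) ⟨72,[16],[],[]⟩ eK_G50 [66,67,68] (by decide +kernel) eK_o38 eK_n59
theorem eK_n57  : Bd eK_T eK_G48 [66,67,68] :=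
  r_psplit 67 [3] PT.kid ⟨71,[15],[],[]⟩ eK_G49 [66,67,68] (by decide +kernel) eK_o37 eK_n58
theorem eK_n56  : Bd eK_T eK_G47 [66,67,68] :=
  r_psplit 66 [] (PT.br 3 PT.kid PT.ref) ⟨70,[14],[],[]⟩ eK_G48 [66,67,68] (by decide +kernel) eK_o36 eK_n57
theorem eK_n55  : Bd eK_T eK_G46 [66,68] :=
  r_apply lem_D2 [0,0] [] (by decide +kernel) eK_o35
theorem eK_n54  : Bd eK_T eK_G45 [66,67,68] :=
  r_ext 67 2 [67] [] [] [] [0,1,2] ⟨69,[],[],[]⟩ eK_G46 [66,68] ⟨69,[],[],[]⟩ eK_G47 [66,67,68] (by decide +kernel) eK_o34 eK_n55 eK_n56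
theorem eK_n53  : Bd eK_T eK_G44 [65,66,67,68] :=
  r_kill [65] ⟨69,[],[],[]⟩ eK_G45 [66,67,68] (by decide +kernel) eK_o33 eK_n54
theorem eK_n52  : Bd eK_T eK_G44 [59,62] :=
  r_act [11,12] [65,66,67,68] (by decide +kernel) eK_n53
theorem eK_n51  : Bd eK_T eK_G43 [59,62] :=
  r_def 62 2 [59,62] [] ⟨67,[13],[46,0,0,0,47],[]⟩ eK_G44 [59,62] (by decide +kernel) eK_n52
theorem eK_n50  : Bd eK_T eK_G42 [59,62] :=
  r_def 59 2 [62] [] ⟨65,[12],[45],[]⟩ eK_G43 [59,62] (by decide +kernel) eK_n51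
theorem eK_n49  : Bd eK_T eK_G41 [57,58] :=
  r_block [0,0] [2,3] [2,3] ⟨59,[],[],[2]⟩ eK_G42 [59,62] (by decide +kernel) eK_o32 eK_n50
theorem eK_n48  : Bd eK_T eK_G40 [55,30] :=
  r_twin 0 [2,3] ⟨57,[],[],[]⟩ eK_G41 [57,58] (by decide +kernel) eK_o31 eK_n49
theorem eK_n47  : Bd eK_T eK_G40 [55,56,30] :=
  r_split [55,30] [56] (by decide +kernel) eK_o30 eK_n48 eK_n65
theorem eK_n46  : Bd eK_T eK_G40 [33,30] :=
  r_act [10] [55,56,30] (by decide +kernel) eK_n47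
theorem eK_n45  : Bd eK_T eK_G39 [33,30] :=
  r_def 33 0 [] [30] ⟨55,[11],[43,44],[]⟩ eK_G40 [33,30] (by decide +kernel) eK_n46
theorem eK_n44  : Bd eK_T eK_G37 [33,29,30] :=
  r_kill [29] ⟨34,[],[],[]⟩ eK_G39 [33,30] (by decide +kernel) eK_o29 eK_n45
theorem eK_n43  : Bd eK_T eK_G20 [33,29,30] :=
  r_ex 29 0 ⟨34,[],[41],[]⟩ eK_G37 [33,29,30] ⟨34,[],[42],[]⟩ eK_G38 [33,29,30] (by decide +kernel) eK_n44 eK_n66
theorem eK_n42  : Bd eK_T eK_G22 [35] :=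
  r_apply lem_D2 [0] [] (by decide +kernel) eK_o28
theorem eK_n41  : Bd eK_T eK_G36 [] :=
  r_empty (by decide +kernel) 
theorem eK_n40  : Bd eK_T eK_G35 [54] :=
  r_kill [54] ⟨55,[],[],[]⟩ eK_G36 [] (by decide +kernel) eK_o27 eK_n41
theorem eK_n39  : Bd eK_T eK_G34 [52] :=
  r_hit [52] eK_h39 ⟨54,[],[40],[]⟩ eK_G35 [54] (by decide +kernel) eK_o26 eK_n40
theorem eK_n38  : Bd eK_T eK_G33 [49,51,52,53] :=
  r_close false 0 [4,6,5,7,8,9] [49,51,52,53] [0,1,1,1] [3] [1] 4 ⟨54,[],[],[]⟩ eK_G34 [52] (by decide +kernel) eK_o25 eK_n39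
theorem eK_n37  : Bd eK_T eK_G33 [45,46,47] :=
  r_act [6,7,8,9] [49,51,52,53] (by decide +kernel) eK_n38
theorem eK_n36  : Bd eK_T eK_G32 [45,46,47] :=
  r_psplit 47 [] (PT.br 3 PT.kid PT.ref) ⟨53,[10],[],[]⟩ eK_G33 [45,46,47] (by decide +kernel) eK_o24 eK_n37
theorem eK_n35  : Bd eK_T eK_G31 [45,46,47] :=
  r_psplit 50 [] (PT.br 3 PT.kid PT.kid) ⟨51,[9],[],[]⟩ eK_G32 [45,46,47] (by decide +kernel) eK_o23 eK_n36
theorem eK_n34  : Bd eK_T eK_G30 [45,46,47] :=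
  r_psplit 46 [3] PT.kid ⟨50,[8],[],[]⟩ eK_G31 [45,46,47] (by decide +kernel) eK_o22 eK_n35
theorem eK_n33  : Bd eK_T eK_G29 [45,46,47] :=
  r_psplit 45 [] (PT.br 3 PT.kid PT.ref) ⟨49,[7],[],[]⟩ eK_G30 [45,46,47] (by decide +kernel) eK_o21 eK_n34
theorem eK_n32  : Bd eK_T eK_G28 [45,47] :=
  r_apply lem_D2 [0,0] [] (by decide +kernel) eK_o20
theorem eK_n31  : Bd eK_T eK_G27 [45,46,47] :=
  r_ext 46 2 [46] [] [] [] [0,1,2] ⟨48,[],[],[]⟩ eK_G28 [45,47] ⟨48,[],[],[]⟩ eK_G29 [45,46,47] (by decide +kernel) eK_o19 eK_n32 eK_n33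
theorem eK_n30  : Bd eK_T eK_G26 [44,45,46,47] :=
  r_kill [44] ⟨48,[],[],[]⟩ eK_G27 [45,46,47] (by decide +kernel) eK_o18 eK_n31
theorem eK_n29  : Bd eK_T eK_G26 [38,41] :=
  r_act [4,5] [44,45,46,47] (by decide +kernel) eK_n30
theorem eK_n28  : Bd eK_T eK_G25 [38,41] :=
  r_def 41 2 [38,41] [] ⟨46,[6],[38,0,0,0,39],[]⟩ eK_G26 [38,41] (by decide +kernel) eK_n29
theorem eK_n27  : Bd eK_T eK_G24 [38,41] :=
  r_def 38 2 [41] [] ⟨44,[5],[37],[]⟩ eK_G25 [38,41] (by decide +kernel) eK_n28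
theorem eK_n26  : Bd eK_T eK_G23 [36,37] :=
  r_block [0,0] [2,3] [2,3] ⟨38,[],[],[1]⟩ eK_G24 [38,41] (by decide +kernel) eK_o17 eK_n27
theorem eK_n25  : Bd eK_T eK_G22 [34,29] :=
  r_twin 0 [2,3] ⟨36,[],[],[]⟩ eK_G23 [36,37] (by decide +kernel) eK_o16 eK_n26
theorem eK_n24  : Bd eK_T eK_G22 [34,35,29] :=
  r_split [34,29] [35] (by decide +kernel) eK_o15 eK_n25 eK_n42
theorem eK_n23  : Bd eK_T eK_G22 [33,29] :=
  r_act [3] [34,35,29] (by decide +kernel) eK_n24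
theorem eK_n22  : Bd eK_T eK_G21 [33,29] :=
  r_def 33 0 [] [29] ⟨34,[4],[35,36],[]⟩ eK_G22 [33,29] (by decide +kernel) eK_n23
theorem eK_n21  : Bd eK_T eK_G19 [33,29,30] :=
  r_kill [30] ⟨34,[],[],[]⟩ eK_G21 [33,29] (by decide +kernel) eK_o14 eK_n22
theorem eK_n20  : Bd eK_T eK_G18 [33,29,30] :=
  r_ex 30 0 ⟨34,[],[33],[]⟩ eK_G19 [33,29,30] ⟨34,[],[34],[]⟩ eK_G20 [33,29,30] (by decide +kernel) eK_n21 eK_n43
theorem eK_n19  : Bd eK_T eK_G16 [33,29,30,31] :=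
  r_kill [31] ⟨34,[],[],[]⟩ eK_G18 [33,29,30] (by decide +kernel) eK_o13 eK_n20
theorem eK_n18  : Bd eK_T eK_G15 [33,29,30,31] :=
  r_ex 31 0 ⟨34,[],[31],[]⟩ eK_G16 [33,29,30,31] ⟨34,[],[32],[]⟩ eK_G17 [33,29,30,31] (by decide +kernel) eK_n19 eK_n67
theorem eK_n17  : Bd eK_T eK_G15 [32,33,29,30,31] :=
  r_split [33,29,30,31] [32] (by decide +kernel) eK_o12 eK_n18 eK_n109
theorem eK_n16  : Bd eK_T eK_G14 [27,28,24,25,26] :=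
  r_hit [24,25,26,27,28] eK_h16 ⟨29,[],[0,0,0,28,0,0,29,0,30],[]⟩ eK_G15 [32,33,29,30,31] (by decide +kernel) eK_o11 eK_n17
theorem eK_n15  : Bd eK_T eK_G14 [11,24,25,26] :=
  r_act [2] [27,28,24,25,26] (by decide +kernel) eK_n16
theorem eK_n14  : Bd eK_T eK_G13 [11,24,25,26] :=
  r_def 11 0 [11] [] ⟨27,[3],[26,0,27],[]⟩ eK_G14 [11,24,25,26] (by decide +kernel) eK_n15
theorem eK_n13  : Bd eK_T eK_G12 [11,21,22,23] :=
  r_hit [21,22,23] eK_h13 ⟨24,[],[25],[]⟩ eK_G13 [11,24,25,26] (by decide +kernel) eK_o10 eK_n14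
theorem eK_n12  : Bd eK_T eK_G11 [11,18,19,20] :=
  r_hit [18,19,20] eK_h12 ⟨21,[],[24],[]⟩ eK_G12 [11,21,22,23] (by decide +kernel) eK_o9 eK_n13
theorem eK_n11  : Bd eK_T eK_G10 [11,15,16,17] :=
  r_hit [15,16,17] eK_h11 ⟨18,[],[23],[]⟩ eK_G11 [11,18,19,20] (by decide +kernel) eK_o8 eK_n12
theorem eK_n10  : Bd eK_T eK_G8 [11,12,13,14] :=
  r_hit [12,13,14] eK_h10 ⟨15,[],[22],[]⟩ eK_G10 [11,15,16,17] (by decide +kernel) eK_o7 eK_n11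
theorem eK_n9  : Bd eK_T eK_G7 [11,12,13,14] :=
  r_case [12,13,14,12,13,14,12,13,14] [⟨0,1,false⟩,⟨0,2,false⟩,⟨0,3,false⟩,⟨0,4,false⟩,⟨0,5,false⟩,⟨0,6,false⟩,⟨0,7,false⟩,⟨0,8,false⟩,⟨1,2,false⟩,⟨1,3,false⟩,⟨1,4,false⟩,⟨1,5,false⟩,⟨1,6,false⟩,⟨1,7,false⟩,⟨1,8,false⟩,⟨2,3,false⟩,⟨2,4,false⟩,⟨2,5,false⟩,⟨2,6,false⟩,⟨2,7,false⟩,⟨2,8,false⟩,⟨3,4,false⟩,⟨3,5,false⟩,⟨3,6,false⟩,⟨3,7,false⟩,⟨3,8,false⟩,⟨4,5,false⟩,⟨4,6,false⟩,⟨4,7,false⟩,⟨4,8,false⟩,⟨5,6,false⟩,⟨5,7,false⟩,⟨5,8,false⟩,⟨6,7,false⟩,⟨6,8,false⟩,⟨7,8,false⟩] [0,1,2] ⟨15,[],[21],[]⟩ eK_G8 [11,12,13,14] eK_G9 [11,12,13,14] (by decide +kernel) eK_n10 eK_n145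
theorem eK_n8  : Bd eK_T eK_G6 [5,6,7,8] :=
  r_hit [5,6,7,8] eK_h8 ⟨11,[],[6,7,8,9,10,11,12,13,14,15,16,17,18,19,20],[]⟩ eK_G7 [11,12,13,14] (by decide +kernel) eK_o6 eK_n9
theorem eK_n7  : Bd eK_T eK_G5 [5,6,7,8,10] :=
  r_kill [10] ⟨11,[],[],[]⟩ eK_G6 [5,6,7,8] (by decide +kernel) eK_o5 eK_n8
theorem eK_n6  : Bd eK_T eK_G4 [5,6,7,8,9] :=
  r_hit [9] eK_h6 ⟨10,[],[5],[]⟩ eK_G5 [5,6,7,8,10] (by decide +kernel) eK_o4 eK_n7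
theorem eK_n5  : Bd eK_T eK_G4 [1] :=
  r_act [0,1] [5,6,7,8,9] (by decide +kernel) eK_n6
theorem eK_n4  : Bd eK_T eK_G3 [1] :=
  r_psplit 4 [] (PT.br 0 (PT.br 1 (PT.br 2 PT.kid PT.kid) (PT.br 2 PT.kid PT.ref)) (PT.br 1 (PT.br 2 PT.kid PT.ref) (PT.br 2 PT.ref PT.kid))) ⟨5,[2],[],[]⟩ eK_G4 [1] (by decide +kernel) eK_o3 eK_n5
theorem eK_n3  : Bd eK_T eK_G2 [1] :=
  r_psplit 1 [0,1,2] PT.kid ⟨4,[1],[],[]⟩ eK_G3 [1] (by decide +kernel) eK_o2 eK_n4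
theorem eK_n2  : Bd eK_T eK_G1 [1] :=
  r_apply lem_d [0] [] (by decide +kernel) eK_o1
theorem eK_n1  : Bd eK_T eK_G0 [1] :=
  r_case [1,1,1] [⟨0,1,true⟩,⟨0,2,true⟩,⟨1,2,true⟩] [] ⟨4,[],[4],[]⟩ eK_G1 [1] eK_G2 [1] (by decide +kernel) eK_n2 eK_n3
theorem eK_n0  : Bd eK_T (pureCtx 0 3) (pureAct 0) :=
  show Bd _ _ [0] from r_block [0] [1] [1] ⟨1,[],[],[]⟩ eK_G0 [1] (by decide +kernel) eK_o0 eK_n1
theorem lem_eK  : Lem eK_T 0 3 := ⟨by decide +kernel, eK_n0⟩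

end Pool.Agent.Lib.MP_849b2e_co
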