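import Pool.Agent.Lib.MP_849b2e_co.Rules

set_option maxRecDepth 100000
set_option linter.all false
namespace Pool.Agent.Lib.MP_849b2e_co

noncomputable def e_ty : Tr Ty := (Tr.br (Tr.br (Tr.br (Tr.br (Tr.leaf ⟨1,0,0,0,0⟩) (Tr.leaf ⟨275,7916,8,55,63⟩))
 (Tr.br (Tr.leaf ⟨19,12,0,0,63⟩) (Tr.leaf ⟨4115,4076,63,0,63⟩))
)
 (Tr.br (Tr.br (Tr.leaf ⟨5,10,0,0,0⟩) (Tr.leaf ⟨1043,7148,2,61,63⟩))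
 (Tr.leaf ⟨83,8108,32,31,63⟩))
)
 (Tr.br (Tr.br (Tr.br (Tr.leaf ⟨3,12,0,0,0⟩) (Tr.leaf ⟨531,7660,4,59,63⟩))
 (Tr.leaf ⟨51,8140,0,63,63⟩))
 (Tr.br (Tr.br (Tr.leaf ⟨9,6,0,0,0⟩) (Tr.leaf ⟨2067,6124,1,62,63⟩))
 (Tr.leaf ⟨147,8044,16,47,63⟩))
)
)

noncomputable def e_ev : Tr Ev := (Tr.br (Tr.leaf ⟨1,[4],63⟩) (Tr.leaf ⟨4,[5,6,7,8,9,10,11,12],0⟩))

noncomputable def e_ax : Tr Ax := (Tr.br (Tr.br (Tr.leaf ⟨[1,1,1,1],[⟨0,1,true⟩,⟨0,2,true⟩,⟨0,3,false⟩,⟨1,2,true⟩,⟨1,3,true⟩,⟨2,3,true⟩],[],0⟩) (Tr.leaf ⟨[2,2,2,2,2,2],[⟨0,1,true⟩,⟨0,2,true⟩,⟨0,3,true⟩,⟨0,4,true⟩,⟨0,5,true⟩,⟨1,2,true⟩,⟨1,3,true⟩,⟨1,4,true⟩,⟨1,5,true⟩,⟨2,3,true⟩,⟨2,4,true⟩,⟨2,5,true⟩,⟨3,4,true⟩,⟨3,5,true⟩,⟨4,5,true⟩],[],0⟩))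
 (Tr.leaf ⟨[1,1,1,1,1,1],[⟨0,1,false⟩,⟨0,2,false⟩,⟨0,3,false⟩,⟨0,4,false⟩,⟨0,5,false⟩,⟨1,2,true⟩,⟨1,3,false⟩,⟨1,4,false⟩,⟨1,5,false⟩,⟨2,3,false⟩,⟨2,4,false⟩,⟨2,5,false⟩,⟨3,4,true⟩,⟨3,5,false⟩,⟨4,5,true⟩],[],0⟩))

noncomputable def e_sc : Tr Sc := (Tr.leaf ⟨[],[]⟩)
noncomputable def e_T : Tab := ⟨13,e_ty,e_ev,e_ax,e_sc⟩
def e_S0 : St := ⟨0,0,0,0,0⟩
def e_G0 : Ctx := ⟨4,0,3,0,0,e_S0,none⟩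
def e_G1 : Ctx := ⟨4,0,7,0,0,e_S0,none⟩
def e_S1 : St := ⟨6,0x6003001800c006003,0x1f0000000000000000000000000000002f000000000000000000000000000000370000000000000000000000000000003b0000000000000000000000000000003d0000000000000000000000000000003e,0,63⟩
def e_G2 : Ctx := ⟨4,0,3,0,0,e_S1,none⟩
def e_G3 : Ctx := ⟨5,1,3,0,0,e_S1,none⟩
def e_G4 : Ctx := ⟨13,3,3,0,0,e_S1,none⟩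

end Pool.Agent.Lib.MP_849b2e_co
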