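import Pool.Agent.Lib.MP_849b2e_co.Fast
import Pool.Agent.Lib.MP_849b2e_co.Te
import Pool.Agent.Lib.MP_849b2e_co.Te1
import Pool.Agent.Lib.MP_849b2e_co.TeK

set_option maxRecDepth 100000
set_option linter.all false
namespace Pool.Agent.Lib.MP_849b2e_co

noncomputable def e_o0c : Pq := Pq.nil
theorem e_o0 : AllRef e_T (pureCtx 0 2) (blockObl [0] [0] [1] [1]) :=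
  chkPq_sound e_o0c _ (by decide +kernel)
noncomputable def e_o1c : Pq := (Pq.cons (Pq.L [] 63 (Pf.C 0 0x608080))
 (Pq.cons (Pq.L [] 32767 (Pf.C 1 0x2840608080))
 (Pq.cons (Pq.L [] 32767 (Pf.C 2 0x2840608080))
 Pq.nil)))
theorem e_o1 : AllRef e_T e_G1 (applyObl eK_T 3 [1] [0] []) :=
  chkPq_sound e_o1c _ (by decide +kernel)
noncomputable def e_o2c : Pq := Pq.nil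
theorem e_o2 : AllRef e_T e_G2 (ptObl 1 PT.kid []) :=
  chkPq_sound e_o2c _ (by decide +kernel)
noncomputable def e_o3c : Pq := (Pq.cons (Pq.L [0,4,5] 0 (Pf.C 0 82438))
 (Pq.cons (Pq.L [0,3,5] 0 (Pf.C 0 82310))
 (Pq.cons (Pq.L [0,3,4] 0 (Pf.C 0 65926))
 (Pq.cons (Pq.L [0,2,5] 0 (Pf.C 0 82182))
 (Pq.cons (Pq.L [0,2,4] 0 (Pf.C 0 65798))
 (Pq.cons (Pq.L [0,2,3] 0 (Pf.C 0 49414))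
 (Pq.cons (Pq.L [0,1,5] 0 (Pf.C 0 82054))
 (Pq.cons (Pq.L [0,1,4] 0 (Pf.C 0 65670))
 (Pq.cons (Pq.L [0,1,3] 0 (Pf.C 0 49286))
 (Pq.cons (Pq.L [0,1,2] 0 (Pf.C 0 32902))
 (Pq.cons (Pq.L [0,1,5] 0 (Pf.C 0 0x214006))
 (Pq.cons (Pq.L [0,1,4] 0 (Pf.C 0 0x210006))
 (Pq.cons (Pq.L [0,1,3] 0 (Pf.C 0 0x20c006))
 (Pq.cons (Pq.L [0,1,2] 0 (Pf.C 0 0x208006))
 (Pq.cons (Pq.L [0,1,2] 0 (Pf.C 0 0x404006))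
 (Pq.cons (Pq.L [0,1,3] 0 (Pf.C 0 0x604006))
 (Pq.cons (Pq.L [0,1,4] 0 (Pf.C 0 0x804006))
 (Pq.cons (Pq.L [0,1,5] 0 (Pf.C 0 0xa04006))
 Pq.nil))))))))))))))))))
theorem e_o3 : AllRef e_T e_G3 (ptObl 4 (PT.br 0 (PT.br 1 (PT.br 2 (PT.br 3 (PT.br 4 (PT.br 5 PT.kid PT.kid) (PT.br 5 PT.kid PT.ref)) (PT.br 4 (PT.br 5 PT.kid PT.ref) PT.ref)) (PT.br 3 (PT.br 4 (PT.br 5 PT.kid PT.ref) PT.ref) PT.ref)) (PT.br 2 (PT.br 3 (PT.br 4 (PT.br 5 PT.kid PT.ref) PT.ref) PT.ref) PT.ref)) (PT.br 1 (PT.br 2 (PT.br 3 (PT.br 4 (PT.br 5 PT.kid PT.ref) PT.ref) PT.ref) PT.ref) (PT.br 2 PT.ref (PT.br 3 PT.ref (PT.br 4 PT.ref (PT.br 5 PT.ref PT.kid)))))) []) :=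
  chkPq_sound e_o3c _ (by decide +kernel)
noncomputable def e_o4c : Pq := (Pq.cons (Pq.D 2 (Pq.cons (Pq.D 3 (Pq.cons (Pq.D 4 (Pq.cons (Pq.L [0,1] 910 (Pf.C 1 0x5091004006))
 (Pq.cons (Pq.L [0,1] 910 (Pf.C 1 0x5091004006))
 (Pq.cons (Pq.L [0,1] 910 (Pf.C 1 0x5091004006))
 (Pq.cons (Pq.L [0,1] 910 (Pf.C 1 0x5091004006))
 (Pq.cons (Pq.L [0,1] 910 (Pf.C 1 0x5091004006))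
 (Pq.cons (Pq.L [0,2] 910 (Pf.C 1 0x5091008006))
 (Pq.cons (Pq.L [1,2] 910 (Pf.C 1 0x5091008086))
 Pq.nil)))))))) (Pq.cons (Pq.L [4,5] 1023 (Pf.B 10 4 (Pf.C 1 0x409141c304) (Pf.B 10 5 (Pf.C 1 0x284141c308) (Pf.C 0 0x1214504))))
 (Pq.cons (Pq.L [4,5] 1023 (Pf.B 10 5 (Pf.C 1 0x409141c305) (Pf.B 10 4 (Pf.C 1 0x205141c308) (Pf.C 0 0x1210505))))
 (Pq.cons (Pq.L [3,4,5] 1023 (Pf.B 10 5 (Pf.C 1 0x409141c305) (Pf.B 10 4 (Pf.C 1 0x409141c304) (Pf.B 10 3 (Pf.C 0 0x61420a) (Pf.C 0 0x120c504)))))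
 (Pq.cons (Pq.L [2,3,4,5] 1023 (Pf.B 10 5 (Pf.C 1 0x409141c305) (Pf.B 10 4 (Pf.C 1 0x409141c304) (Pf.B 10 3 (Pf.C 0 0x61420a) (Pf.B 10 2 (Pf.C 0 0x41018a) (Pf.C 0 0x1208503))))))
 (Pq.cons (Pq.L [1,2,3,4,5] 1023 (Pf.B 10 5 (Pf.C 1 0x409141c305) (Pf.B 10 4 (Pf.C 1 0x409141c304) (Pf.B 10 3 (Pf.C 0 0x61420a) (Pf.B 10 2 (Pf.C 0 0x41018a) (Pf.B 10 1 (Pf.C 0 0x20c10a) (Pf.C 0 0x1204502)))))))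
 (Pq.cons (Pq.L [0,1,2,3,4,5] 1023 (Pf.B 10 5 (Pf.C 1 0x409141c305) (Pf.B 10 4 (Pf.C 1 0x409141c304) (Pf.B 10 3 (Pf.C 0 0x61420a) (Pf.B 10 2 (Pf.C 0 0x41018a) (Pf.B 10 1 (Pf.C 0 0x20c10a) (Pf.B 10 0 (Pf.C 0 32906) (Pf.C 0 0x1200501))))))))
 Pq.nil)))))))) (Pq.cons (Pq.D 3 (Pq.cons (Pq.D 4 (Pq.cons (Pq.L [0,1] 910 (Pf.C 1 0x5091004006))
 (Pq.cons (Pq.L [0,1] 910 (Pf.C 1 0x5091004006))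
 (Pq.cons (Pq.L [0,1] 910 (Pf.C 1 0x5091004006))
 (Pq.cons (Pq.L [0,1] 910 (Pf.C 1 0x5091004006))
 (Pq.cons (Pq.L [0,1] 910 (Pf.C 1 0x5091004006))
 (Pq.cons (Pq.L [0,2] 910 (Pf.C 1 0x5091008006))
 (Pq.cons (Pq.L [1,2] 910 (Pf.C 1 0x5091008086))
 Pq.nil)))))))) (Pq.cons (Pq.L [3,4,5] 987 (Pf.B 10 5 (Pf.B 10 4 (Pf.C 1 0x405081c30a) (Pf.B 10 3 (Pf.C 1 0x405061c30a) (Pf.C 0 0xa1018a))) (Pf.C 0 0x102428a)))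
 (Pq.cons (Pq.L [3,4] 1023 (Pf.B 10 3 (Pf.C 1 0x409141c303) (Pf.B 10 4 (Pf.C 1 0x203141c308) (Pf.C 0 0x1210503))))
 (Pq.cons (Pq.L [3,4] 1023 (Pf.B 10 4 (Pf.C 1 0x409141c304) (Pf.B 10 3 (Pf.C 1 0x184141c308) (Pf.C 0 0x120c504))))
 (Pq.cons (Pq.L [2,3,4] 1023 (Pf.B 10 4 (Pf.C 1 0x409141c304) (Pf.B 10 3 (Pf.C 1 0x409141c303) (Pf.B 10 2 (Pf.C 0 0x41018a) (Pf.C 0 0x1208503)))))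
 (Pq.cons (Pq.L [1,2,3,4] 1023 (Pf.B 10 4 (Pf.C 1 0x409141c304) (Pf.B 10 3 (Pf.C 1 0x409141c303) (Pf.B 10 2 (Pf.C 0 0x41018a) (Pf.B 10 1 (Pf.C 0 0x20c10a) (Pf.C 0 0x1204502))))))
 (Pq.cons (Pq.L [0,1,2,3,4] 1023 (Pf.B 10 4 (Pf.C 1 0x409141c304) (Pf.B 10 3 (Pf.C 1 0x409141c303) (Pf.B 10 2 (Pf.C 0 0x41018a) (Pf.B 10 1 (Pf.C 0 0x20c10a) (Pf.B 10 0 (Pf.C 0 32906) (Pf.C 0 0x1200501)))))))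
 Pq.nil)))))))) (Pq.cons (Pq.D 3 (Pq.cons (Pq.D 4 (Pq.cons (Pq.L [0,1] 910 (Pf.C 1 0x5091004006))
 (Pq.cons (Pq.L [0,1] 910 (Pf.C 1 0x5091004006))
 (Pq.cons (Pq.L [0,1] 910 (Pf.C 1 0x5091004006))
 (Pq.cons (Pq.L [0,1] 910 (Pf.C 1 0x5091004006))
 (Pq.cons (Pq.L [0,1] 910 (Pf.C 1 0x5091004006))
 (Pq.cons (Pq.L [0,2] 910 (Pf.C 1 0x5091008006))
 (Pq.cons (Pq.L [1,2] 910 (Pf.C 1 0x5091008086))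
 Pq.nil)))))))) (Pq.cons (Pq.L [3,5] 1023 (Pf.B 10 3 (Pf.C 1 0x409141c303) (Pf.B 10 5 (Pf.C 1 0x283141c308) (Pf.C 0 0x1214503))))
 (Pq.cons (Pq.L [3,4,5] 1023 (Pf.B 10 5 (Pf.C 1 0x409141c305) (Pf.B 10 4 (Pf.B 10 3 (Pf.C 1 0x404061c30a) (Pf.C 0 0x81418a)) (Pf.C 0 0x102420a))))
 (Pq.cons (Pq.L [3,5] 1023 (Pf.B 10 5 (Pf.C 1 0x409141c305) (Pf.B 10 3 (Pf.C 1 0x185141c308) (Pf.C 0 0x120c505))))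
 (Pq.cons (Pq.L [2,3,4,5] 1023 (Pf.B 10 5 (Pf.C 1 0x409141c305) (Pf.B 10 3 (Pf.C 1 0x409141c303) (Pf.B 10 4 (Pf.C 0 0x81418a) (Pf.B 10 2 (Pf.C 0 0x41018a) (Pf.C 0 0x1208503))))))
 (Pq.cons (Pq.L [1,2,3,4,5] 1023 (Pf.B 10 5 (Pf.C 1 0x409141c305) (Pf.B 10 3 (Pf.C 1 0x409141c303) (Pf.B 10 4 (Pf.C 0 0x81418a) (Pf.B 10 2 (Pf.C 0 0x41018a) (Pf.B 10 1 (Pf.C 0 0x20c10a) (Pf.C 0 0x1204502)))))))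
 (Pq.cons (Pq.L [0,1,2,3,4,5] 1023 (Pf.B 10 5 (Pf.C 1 0x409141c305) (Pf.B 10 3 (Pf.C 1 0x409141c303) (Pf.B 10 4 (Pf.C 0 0x81418a) (Pf.B 10 2 (Pf.C 0 0x41018a) (Pf.B 10 1 (Pf.C 0 0x20c10a) (Pf.B 10 0 (Pf.C 0 32906) (Pf.C 0 0x1200501))))))))
 Pq.nil)))))))) (Pq.cons (Pq.D 3 (Pq.cons (Pq.D 4 (Pq.cons (Pq.L [0,1] 910 (Pf.C 1 0x5091004006))
 (Pq.cons (Pq.L [0,1] 910 (Pf.C 1 0x5091004006))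
 (Pq.cons (Pq.L [0,1] 910 (Pf.C 1 0x5091004006))
 (Pq.cons (Pq.L [0,1] 910 (Pf.C 1 0x5091004006))
 (Pq.cons (Pq.L [0,1] 910 (Pf.C 1 0x5091004006))
 (Pq.cons (Pq.L [0,2] 910 (Pf.C 1 0x5091008006))
 (Pq.cons (Pq.L [1,2] 910 (Pf.C 1 0x5091008086))
 Pq.nil)))))))) (Pq.cons (Pq.L [4,5] 1023 (Pf.B 10 4 (Pf.C 1 0x409141c304) (Pf.B 10 5 (Pf.C 1 0x284141c308) (Pf.C 0 0x1214504))))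
 (Pq.cons (Pq.L [4,5] 1023 (Pf.B 10 5 (Pf.C 1 0x409141c305) (Pf.B 10 4 (Pf.C 1 0x205141c308) (Pf.C 0 0x1210505))))
 (Pq.cons (Pq.L [3,4,5] 1023 (Pf.B 10 5 (Pf.C 1 0x409141c305) (Pf.B 10 4 (Pf.C 1 0x409141c304) (Pf.B 10 3 (Pf.C 0 0x61420a) (Pf.C 0 0x102418a)))))
 (Pq.cons (Pq.L [2,3,4,5] 1023 (Pf.B 10 5 (Pf.C 1 0x409141c305) (Pf.B 10 4 (Pf.C 1 0x409141c304) (Pf.B 10 3 (Pf.C 0 0x61420a) (Pf.B 10 2 (Pf.C 0 0x41018a) (Pf.C 0 0x1208503))))))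
 (Pq.cons (Pq.L [1,2,3,4,5] 1023 (Pf.B 10 5 (Pf.C 1 0x409141c305) (Pf.B 10 4 (Pf.C 1 0x409141c304) (Pf.B 10 3 (Pf.C 0 0x61420a) (Pf.B 10 2 (Pf.C 0 0x41018a) (Pf.B 10 1 (Pf.C 0 0x20c10a) (Pf.C 0 0x1204502)))))))
 (Pq.cons (Pq.L [0,1,2,3,4,5] 1023 (Pf.B 10 5 (Pf.C 1 0x409141c305) (Pf.B 10 4 (Pf.C 1 0x409141c304) (Pf.B 10 3 (Pf.C 0 0x61420a) (Pf.B 10 2 (Pf.C 0 0x41018a) (Pf.B 10 1 (Pf.C 0 0x20c10a) (Pf.B 10 0 (Pf.C 0 32906) (Pf.C 0 0x1200501))))))))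
 Pq.nil)))))))) (Pq.cons (Pq.D 3 (Pq.cons (Pq.D 4 (Pq.cons (Pq.L [0,1] 910 (Pf.C 1 0x5091004006))
 (Pq.cons (Pq.L [0,1] 910 (Pf.C 1 0x5091004006))
 (Pq.cons (Pq.L [0,1] 910 (Pf.C 1 0x5091004006))
 (Pq.cons (Pq.L [0,1] 910 (Pf.C 1 0x5091004006))
 (Pq.cons (Pq.L [0,1] 910 (Pf.C 1 0x5091004006))
 (Pq.cons (Pq.L [0,3] 910 (Pf.C 1 0x509100c006))
 (Pq.cons (Pq.L [1,3] 910 (Pf.C 1 0x509100c086))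
 Pq.nil)))))))) (Pq.cons (Pq.L [4,5] 1023 (Pf.B 10 4 (Pf.C 1 0x409141c304) (Pf.B 10 5 (Pf.C 1 0x284141c308) (Pf.C 0 0x1214504))))
 (Pq.cons (Pq.L [4,5] 1023 (Pf.B 10 5 (Pf.C 1 0x409141c305) (Pf.B 10 4 (Pf.C 1 0x205141c308) (Pf.C 0 0x1210505))))
 (Pq.cons (Pq.L [3,4,5] 1023 (Pf.B 10 5 (Pf.C 1 0x409141c305) (Pf.B 10 4 (Pf.C 1 0x409141c304) (Pf.B 10 3 (Pf.C 0 0x61420a) (Pf.C 0 0x120c504)))))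
 (Pq.cons (Pq.L [2,3,4,5] 1023 (Pf.B 10 5 (Pf.C 1 0x409141c305) (Pf.B 10 4 (Pf.C 1 0x409141c304) (Pf.B 10 3 (Pf.C 0 0x61420a) (Pf.B 10 2 (Pf.C 0 0x41018a) (Pf.C 0 0x102410a))))))
 (Pq.cons (Pq.L [1,2,3,4,5] 1023 (Pf.B 10 5 (Pf.C 1 0x409141c305) (Pf.B 10 4 (Pf.C 1 0x409141c304) (Pf.B 10 3 (Pf.C 0 0x61420a) (Pf.B 10 2 (Pf.C 0 0x41018a) (Pf.B 10 1 (Pf.C 0 0x20c10a) (Pf.C 0 0x1204502)))))))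
 (Pq.cons (Pq.L [0,1,2,3,4,5] 1023 (Pf.B 10 5 (Pf.C 1 0x409141c305) (Pf.B 10 4 (Pf.C 1 0x409141c304) (Pf.B 10 3 (Pf.C 0 0x61420a) (Pf.B 10 2 (Pf.C 0 0x41018a) (Pf.B 10 1 (Pf.C 0 0x20c10a) (Pf.B 10 0 (Pf.C 0 32906) (Pf.C 0 0x1200501))))))))
 Pq.nil)))))))) (Pq.cons (Pq.D 3 (Pq.cons (Pq.D 4 (Pq.cons (Pq.L [0,2] 910 (Pf.C 1 0x5091008006))
 (Pq.cons (Pq.L [0,2] 910 (Pf.C 1 0x5091008006))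
 (Pq.cons (Pq.L [0,2] 910 (Pf.C 1 0x5091008006))
 (Pq.cons (Pq.L [0,2] 910 (Pf.C 1 0x5091008006))
 (Pq.cons (Pq.L [0,3] 910 (Pf.C 1 0x509100c006))
 (Pq.cons (Pq.L [0,2] 910 (Pf.C 1 0x5091008006))
 (Pq.cons (Pq.L [2,3] 910 (Pf.C 1 0x509100c106))
 Pq.nil)))))))) (Pq.cons (Pq.L [4,5] 1023 (Pf.B 10 4 (Pf.C 1 0x409141c304) (Pf.B 10 5 (Pf.C 1 0x284141c308) (Pf.C 0 0x1214504))))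
 (Pq.cons (Pq.L [4,5] 1023 (Pf.B 10 5 (Pf.C 1 0x409141c305) (Pf.B 10 4 (Pf.C 1 0x205141c308) (Pf.C 0 0x1210505))))
 (Pq.cons (Pq.L [3,4,5] 1023 (Pf.B 10 5 (Pf.C 1 0x409141c305) (Pf.B 10 4 (Pf.C 1 0x409141c304) (Pf.B 10 3 (Pf.C 0 0x61420a) (Pf.C 0 0x120c504)))))
 (Pq.cons (Pq.L [2,3,4,5] 1023 (Pf.B 10 5 (Pf.C 1 0x409141c305) (Pf.B 10 4 (Pf.C 1 0x409141c304) (Pf.B 10 3 (Pf.C 0 0x61420a) (Pf.B 10 2 (Pf.C 0 0x41018a) (Pf.C 0 0x1208503))))))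
 (Pq.cons (Pq.L [1,2,3,4,5] 1023 (Pf.B 10 5 (Pf.C 1 0x409141c305) (Pf.B 10 4 (Pf.C 1 0x409141c304) (Pf.B 10 3 (Pf.C 0 0x61420a) (Pf.B 10 2 (Pf.C 0 0x41018a) (Pf.B 10 1 (Pf.C 0 0x20c10a) (Pf.C 0 0x102408a)))))))
 (Pq.cons (Pq.L [0,1,2,3,4,5] 1023 (Pf.B 10 5 (Pf.C 1 0x409141c305) (Pf.B 10 4 (Pf.C 1 0x409141c304) (Pf.B 10 3 (Pf.C 0 0x61420a) (Pf.B 10 2 (Pf.C 0 0x41018a) (Pf.B 10 1 (Pf.C 0 0x20c10a) (Pf.B 10 0 (Pf.C 0 32906) (Pf.C 0 0x1200501))))))))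
 Pq.nil)))))))) (Pq.cons (Pq.D 3 (Pq.cons (Pq.D 4 (Pq.cons (Pq.L [1,2] 910 (Pf.C 1 0x5091008086))
 (Pq.cons (Pq.L [1,2] 910 (Pf.C 1 0x5091008086))
 (Pq.cons (Pq.L [1,2] 910 (Pf.C 1 0x5091008086))
 (Pq.cons (Pq.L [1,2] 910 (Pf.C 1 0x5091008086))
 (Pq.cons (Pq.L [1,3] 910 (Pf.C 1 0x509100c086))
 (Pq.cons (Pq.L [2,3] 910 (Pf.C 1 0x509100c106))
 (Pq.cons (Pq.L [1,2] 910 (Pf.C 1 0x5091008086))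
 Pq.nil)))))))) (Pq.cons (Pq.L [4,5] 1023 (Pf.B 10 4 (Pf.C 1 0x409141c304) (Pf.B 10 5 (Pf.C 1 0x284141c308) (Pf.C 0 0x1214504))))
 (Pq.cons (Pq.L [4,5] 1023 (Pf.B 10 5 (Pf.C 1 0x409141c305) (Pf.B 10 4 (Pf.C 1 0x205141c308) (Pf.C 0 0x1210505))))
 (Pq.cons (Pq.L [3,4,5] 1023 (Pf.B 10 5 (Pf.C 1 0x409141c305) (Pf.B 10 4 (Pf.C 1 0x409141c304) (Pf.B 10 3 (Pf.C 0 0x61420a) (Pf.C 0 0x120c504)))))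
 (Pq.cons (Pq.L [2,3,4,5] 1023 (Pf.B 10 5 (Pf.C 1 0x409141c305) (Pf.B 10 4 (Pf.C 1 0x409141c304) (Pf.B 10 3 (Pf.C 0 0x61420a) (Pf.B 10 2 (Pf.C 0 0x41018a) (Pf.C 0 0x1208503))))))
 (Pq.cons (Pq.L [1,2,3,4,5] 1023 (Pf.B 10 5 (Pf.C 1 0x409141c305) (Pf.B 10 4 (Pf.C 1 0x409141c304) (Pf.B 10 3 (Pf.C 0 0x61420a) (Pf.B 10 2 (Pf.C 0 0x41018a) (Pf.B 10 1 (Pf.C 0 0x20c10a) (Pf.C 0 0x1204502)))))))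
 (Pq.cons (Pq.L [0,1,2,3,4,5] 1023 (Pf.B 10 5 (Pf.C 1 0x409141c305) (Pf.B 10 4 (Pf.C 1 0x409141c304) (Pf.B 10 3 (Pf.C 0 0x61420a) (Pf.B 10 2 (Pf.C 0 0x41018a) (Pf.B 10 1 (Pf.C 0 0x20c10a) (Pf.B 10 0 (Pf.C 0 32906) (Pf.C 0 0x102400a))))))))
 Pq.nil)))))))) Pq.nil)))))))) (Pq.cons (Pq.D 2 (Pq.cons (Pq.D 3 (Pq.cons (Pq.D 4 (Pq.cons (Pq.L [0,1] 910 (Pf.C 1 0x5091004006))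
 (Pq.cons (Pq.L [0,1] 910 (Pf.C 1 0x5091004006))
 (Pq.cons (Pq.L [0,1] 910 (Pf.C 1 0x5091004006))
 (Pq.cons (Pq.L [0,1] 910 (Pf.C 1 0x5091004006))
 (Pq.cons (Pq.L [0,1] 910 (Pf.C 1 0x5091004006))
 (Pq.cons (Pq.L [0,2] 910 (Pf.C 1 0x5091008006))
 (Pq.cons (Pq.L [1,2] 910 (Pf.C 1 0x5091008086))
 Pq.nil)))))))) (Pq.cons (Pq.L [3,4,5] 1023 (Pf.B 10 4 (Pf.C 1 0x409141c304) (Pf.B 10 5 (Pf.B 10 3 (Pf.C 1 0x409141c303) (Pf.C 0 0xa1018a)) (Pf.C 0 0x1214504))))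
 (Pq.cons (Pq.L [3,4] 1023 (Pf.B 10 3 (Pf.C 1 0x409141c303) (Pf.B 10 4 (Pf.C 1 0x203141c308) (Pf.C 0 0x1210503))))
 (Pq.cons (Pq.L [3,4] 1023 (Pf.B 10 4 (Pf.C 1 0x409141c304) (Pf.B 10 3 (Pf.C 1 0x184141c308) (Pf.C 0 0x120c504))))
 (Pq.cons (Pq.L [2,3,4] 1023 (Pf.B 10 4 (Pf.C 1 0x409141c304) (Pf.B 10 3 (Pf.C 1 0x409141c303) (Pf.B 10 2 (Pf.C 0 0x41018a) (Pf.C 0 0x1208503)))))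
 (Pq.cons (Pq.L [1,2,3,4] 1023 (Pf.B 10 4 (Pf.C 1 0x409141c304) (Pf.B 10 3 (Pf.C 1 0x409141c303) (Pf.B 10 2 (Pf.C 0 0x41018a) (Pf.B 10 1 (Pf.C 0 0x20c10a) (Pf.C 0 0x1204502))))))
 (Pq.cons (Pq.L [0,1,2,3,4] 1023 (Pf.B 10 4 (Pf.C 1 0x409141c304) (Pf.B 10 3 (Pf.C 1 0x409141c303) (Pf.B 10 2 (Pf.C 0 0x41018a) (Pf.B 10 1 (Pf.C 0 0x20c10a) (Pf.B 10 0 (Pf.C 0 32906) (Pf.C 0 0x1200501)))))))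
 Pq.nil)))))))) (Pq.cons (Pq.D 3 (Pq.cons (Pq.D 4 (Pq.cons (Pq.L [0,1] 910 (Pf.C 1 0x5091004006))
 (Pq.cons (Pq.L [0,1] 910 (Pf.C 1 0x5091004006))
 (Pq.cons (Pq.L [0,1] 910 (Pf.C 1 0x5091004006))
 (Pq.cons (Pq.L [0,1] 910 (Pf.C 1 0x5091004006))
 (Pq.cons (Pq.L [0,1] 910 (Pf.C 1 0x5091004006))
 (Pq.cons (Pq.L [0,2] 910 (Pf.C 1 0x5091008006))
 (Pq.cons (Pq.L [1,2] 910 (Pf.C 1 0x5091008086))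
 Pq.nil)))))))) (Pq.cons (Pq.L [3,4,5] 1023 (Pf.B 10 5 (Pf.B 10 4 (Pf.C 1 0x409141c304) (Pf.B 10 3 (Pf.C 1 0x409141c303) (Pf.C 0 0xa1018a))) (Pf.C 0 0x102428a)))
 (Pq.cons (Pq.L [3,4] 1023 (Pf.B 10 3 (Pf.C 1 0x409141c303) (Pf.B 10 4 (Pf.C 1 0x203141c308) (Pf.C 0 0x1210503))))
 (Pq.cons (Pq.L [3,4] 1023 (Pf.B 10 4 (Pf.C 1 0x409141c304) (Pf.B 10 3 (Pf.C 1 0x184141c308) (Pf.C 0 0x120c504))))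
 (Pq.cons (Pq.L [2,3,4] 1023 (Pf.B 10 4 (Pf.C 1 0x409141c304) (Pf.B 10 3 (Pf.C 1 0x409141c303) (Pf.B 10 2 (Pf.C 0 0x41018a) (Pf.C 0 0x1208503)))))
 (Pq.cons (Pq.L [1,2,3,4] 1023 (Pf.B 10 4 (Pf.C 1 0x409141c304) (Pf.B 10 3 (Pf.C 1 0x409141c303) (Pf.B 10 2 (Pf.C 0 0x41018a) (Pf.B 10 1 (Pf.C 0 0x20c10a) (Pf.C 0 0x1204502))))))
 (Pq.cons (Pq.L [0,1,2,3,4] 1023 (Pf.B 10 4 (Pf.C 1 0x409141c304) (Pf.B 10 3 (Pf.C 1 0x409141c303) (Pf.B 10 2 (Pf.C 0 0x41018a) (Pf.B 10 1 (Pf.C 0 0x20c10a) (Pf.B 10 0 (Pf.C 0 32906) (Pf.C 0 0x1200501)))))))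
 Pq.nil)))))))) (Pq.cons (Pq.D 3 (Pq.cons (Pq.D 4 (Pq.cons (Pq.L [0,1] 910 (Pf.C 1 0x5091004006))
 (Pq.cons (Pq.L [0,1] 910 (Pf.C 1 0x5091004006))
 (Pq.cons (Pq.L [0,1] 910 (Pf.C 1 0x5091004006))
 (Pq.cons (Pq.L [0,1] 910 (Pf.C 1 0x5091004006))
 (Pq.cons (Pq.L [0,1] 910 (Pf.C 1 0x5091004006))
 (Pq.cons (Pq.L [0,2] 910 (Pf.C 1 0x5091008006))
 (Pq.cons (Pq.L [1,2] 910 (Pf.C 1 0x5091008086))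
 Pq.nil)))))))) (Pq.cons (Pq.L [2,3,4,5] 1023 (Pf.B 10 3 (Pf.C 1 0x409141c303) (Pf.B 10 5 (Pf.B 10 4 (Pf.B 10 2 (Pf.C 1 0x404041c30a) (Pf.C 0 0x80c10a)) (Pf.C 0 0xa0c20a)) (Pf.C 0 0x1214503))))
 (Pq.cons (Pq.L [2,3,4] 987 (Pf.B 10 4 (Pf.B 10 3 (Pf.C 1 0x404061c30a) (Pf.B 10 2 (Pf.C 1 0x404041c30a) (Pf.C 0 0x80c10a))) (Pf.C 0 0x102420a)))
 (Pq.cons (Pq.L [2,3] 1023 (Pf.B 10 2 (Pf.C 1 0x409141c302) (Pf.B 10 3 (Pf.C 1 0x182141c308) (Pf.C 0 0x120c502))))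
 (Pq.cons (Pq.L [2,3] 1023 (Pf.B 10 3 (Pf.C 1 0x409141c303) (Pf.B 10 2 (Pf.C 1 0x103141c308) (Pf.C 0 0x1208503))))
 (Pq.cons (Pq.L [1,2,3] 1023 (Pf.B 10 3 (Pf.C 1 0x409141c303) (Pf.B 10 2 (Pf.C 1 0x409141c302) (Pf.B 10 1 (Pf.C 0 0x20c10a) (Pf.C 0 0x1204502)))))
 (Pq.cons (Pq.L [0,1,2,3] 1023 (Pf.B 10 3 (Pf.C 1 0x409141c303) (Pf.B 10 2 (Pf.C 1 0x409141c302) (Pf.B 10 1 (Pf.C 0 0x20c10a) (Pf.B 10 0 (Pf.C 0 32906) (Pf.C 0 0x1200501))))))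
 Pq.nil)))))))) (Pq.cons (Pq.D 3 (Pq.cons (Pq.D 4 (Pq.cons (Pq.L [0,1] 910 (Pf.C 1 0x5091004006))
 (Pq.cons (Pq.L [0,1] 910 (Pf.C 1 0x5091004006))
 (Pq.cons (Pq.L [0,1] 910 (Pf.C 1 0x5091004006))
 (Pq.cons (Pq.L [0,1] 910 (Pf.C 1 0x5091004006))
 (Pq.cons (Pq.L [0,1] 910 (Pf.C 1 0x5091004006))
 (Pq.cons (Pq.L [0,2] 910 (Pf.C 1 0x5091008006))
 (Pq.cons (Pq.L [1,2] 910 (Pf.C 1 0x5091008086))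
 Pq.nil)))))))) (Pq.cons (Pq.L [2,3,4,5] 1023 (Pf.B 10 4 (Pf.C 1 0x409141c304) (Pf.B 10 5 (Pf.B 10 3 (Pf.B 10 2 (Pf.C 1 0x403041c30a) (Pf.C 0 0x61010a)) (Pf.C 0 0xa1018a)) (Pf.C 0 0x1214504))))
 (Pq.cons (Pq.L [2,4] 1023 (Pf.B 10 2 (Pf.C 1 0x409141c302) (Pf.B 10 4 (Pf.C 1 0x202141c308) (Pf.C 0 0x1210502))))
 (Pq.cons (Pq.L [2,3,4] 1023 (Pf.B 10 4 (Pf.C 1 0x409141c304) (Pf.B 10 3 (Pf.B 10 2 (Pf.C 1 0x403041c30a) (Pf.C 0 0x61010a)) (Pf.C 0 0x102418a))))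
 (Pq.cons (Pq.L [2,4] 1023 (Pf.B 10 4 (Pf.C 1 0x409141c304) (Pf.B 10 2 (Pf.C 1 0x104141c308) (Pf.C 0 0x1208504))))
 (Pq.cons (Pq.L [1,2,3,4] 1023 (Pf.B 10 4 (Pf.C 1 0x409141c304) (Pf.B 10 2 (Pf.C 1 0x409141c302) (Pf.B 10 3 (Pf.C 0 0x61010a) (Pf.B 10 1 (Pf.C 0 0x20c10a) (Pf.C 0 0x1204502))))))
 (Pq.cons (Pq.L [0,1,2,3,4] 1023 (Pf.B 10 4 (Pf.C 1 0x409141c304) (Pf.B 10 2 (Pf.C 1 0x409141c302) (Pf.B 10 3 (Pf.C 0 0x61010a) (Pf.B 10 1 (Pf.C 0 0x20c10a) (Pf.B 10 0 (Pf.C 0 32906) (Pf.C 0 0x1200501)))))))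
 Pq.nil)))))))) (Pq.cons (Pq.D 3 (Pq.cons (Pq.D 4 (Pq.cons (Pq.L [0,1] 910 (Pf.C 1 0x5091004006))
 (Pq.cons (Pq.L [0,1] 910 (Pf.C 1 0x5091004006))
 (Pq.cons (Pq.L [0,1] 910 (Pf.C 1 0x5091004006))
 (Pq.cons (Pq.L [0,1] 910 (Pf.C 1 0x5091004006))
 (Pq.cons (Pq.L [0,1] 910 (Pf.C 1 0x5091004006))
 (Pq.cons (Pq.L [0,3] 910 (Pf.C 1 0x509100c006))
 (Pq.cons (Pq.L [1,3] 910 (Pf.C 1 0x509100c086))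
 Pq.nil)))))))) (Pq.cons (Pq.L [3,4,5] 1023 (Pf.B 10 4 (Pf.C 1 0x409141c304) (Pf.B 10 5 (Pf.B 10 3 (Pf.C 1 0x409141c303) (Pf.C 0 0xa1018a)) (Pf.C 0 0x1214504))))
 (Pq.cons (Pq.L [3,4] 1023 (Pf.B 10 3 (Pf.C 1 0x409141c303) (Pf.B 10 4 (Pf.C 1 0x203141c308) (Pf.C 0 0x1210503))))
 (Pq.cons (Pq.L [3,4] 1023 (Pf.B 10 4 (Pf.C 1 0x409141c304) (Pf.B 10 3 (Pf.C 1 0x184141c308) (Pf.C 0 0x120c504))))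
 (Pq.cons (Pq.L [2,3,4] 1023 (Pf.B 10 4 (Pf.C 1 0x409141c304) (Pf.B 10 3 (Pf.C 1 0x409141c303) (Pf.B 10 2 (Pf.C 0 0x41018a) (Pf.C 0 0x102410a)))))
 (Pq.cons (Pq.L [1,2,3,4] 1023 (Pf.B 10 4 (Pf.C 1 0x409141c304) (Pf.B 10 3 (Pf.C 1 0x409141c303) (Pf.B 10 2 (Pf.C 0 0x41018a) (Pf.B 10 1 (Pf.C 0 0x20c10a) (Pf.C 0 0x1204502))))))
 (Pq.cons (Pq.L [0,1,2,3,4] 1023 (Pf.B 10 4 (Pf.C 1 0x409141c304) (Pf.B 10 3 (Pf.C 1 0x409141c303) (Pf.B 10 2 (Pf.C 0 0x41018a) (Pf.B 10 1 (Pf.C 0 0x20c10a) (Pf.B 10 0 (Pf.C 0 32906) (Pf.C 0 0x1200501)))))))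
 Pq.nil)))))))) (Pq.cons (Pq.D 3 (Pq.cons (Pq.D 4 (Pq.cons (Pq.L [0,2] 910 (Pf.C 1 0x5091008006))
 (Pq.cons (Pq.L [0,2] 910 (Pf.C 1 0x5091008006))
 (Pq.cons (Pq.L [0,2] 910 (Pf.C 1 0x5091008006))
 (Pq.cons (Pq.L [0,2] 910 (Pf.C 1 0x5091008006))
 (Pq.cons (Pq.L [0,3] 910 (Pf.C 1 0x509100c006))
 (Pq.cons (Pq.L [0,2] 910 (Pf.C 1 0x5091008006))
 (Pq.cons (Pq.L [2,3] 910 (Pf.C 1 0x509100c106))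
 Pq.nil)))))))) (Pq.cons (Pq.L [3,4,5] 1023 (Pf.B 10 4 (Pf.C 1 0x409141c304) (Pf.B 10 5 (Pf.B 10 3 (Pf.C 1 0x409141c303) (Pf.C 0 0xa1018a)) (Pf.C 0 0x1214504))))
 (Pq.cons (Pq.L [3,4] 1023 (Pf.B 10 3 (Pf.C 1 0x409141c303) (Pf.B 10 4 (Pf.C 1 0x203141c308) (Pf.C 0 0x1210503))))
 (Pq.cons (Pq.L [3,4] 1023 (Pf.B 10 4 (Pf.C 1 0x409141c304) (Pf.B 10 3 (Pf.C 1 0x184141c308) (Pf.C 0 0x120c504))))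
 (Pq.cons (Pq.L [2,3,4] 1023 (Pf.B 10 4 (Pf.C 1 0x409141c304) (Pf.B 10 3 (Pf.C 1 0x409141c303) (Pf.B 10 2 (Pf.C 0 0x41018a) (Pf.C 0 0x1208503)))))
 (Pq.cons (Pq.L [1,2,3,4] 1023 (Pf.B 10 4 (Pf.C 1 0x409141c304) (Pf.B 10 3 (Pf.C 1 0x409141c303) (Pf.B 10 2 (Pf.C 0 0x41018a) (Pf.B 10 1 (Pf.C 0 0x20c10a) (Pf.C 0 0x102408a))))))
 (Pq.cons (Pq.L [0,1,2,3,4] 1023 (Pf.B 10 4 (Pf.C 1 0x409141c304) (Pf.B 10 3 (Pf.C 1 0x409141c303) (Pf.B 10 2 (Pf.C 0 0x41018a) (Pf.B 10 1 (Pf.C 0 0x20c10a) (Pf.B 10 0 (Pf.C 0 32906) (Pf.C 0 0x1200501)))))))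
 Pq.nil)))))))) (Pq.cons (Pq.D 3 (Pq.cons (Pq.D 4 (Pq.cons (Pq.L [1,2] 910 (Pf.C 1 0x5091008086))
 (Pq.cons (Pq.L [1,2] 910 (Pf.C 1 0x5091008086))
 (Pq.cons (Pq.L [1,2] 910 (Pf.C 1 0x5091008086))
 (Pq.cons (Pq.L [1,2] 910 (Pf.C 1 0x5091008086))
 (Pq.cons (Pq.L [1,3] 910 (Pf.C 1 0x509100c086))
 (Pq.cons (Pq.L [2,3] 910 (Pf.C 1 0x509100c106))
 (Pq.cons (Pq.L [1,2] 910 (Pf.C 1 0x5091008086))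
 Pq.nil)))))))) (Pq.cons (Pq.L [3,4,5] 1023 (Pf.B 10 4 (Pf.C 1 0x409141c304) (Pf.B 10 5 (Pf.B 10 3 (Pf.C 1 0x409141c303) (Pf.C 0 0xa1018a)) (Pf.C 0 0x1214504))))
 (Pq.cons (Pq.L [3,4] 1023 (Pf.B 10 3 (Pf.C 1 0x409141c303) (Pf.B 10 4 (Pf.C 1 0x203141c308) (Pf.C 0 0x1210503))))
 (Pq.cons (Pq.L [3,4] 1023 (Pf.B 10 4 (Pf.C 1 0x409141c304) (Pf.B 10 3 (Pf.C 1 0x184141c308) (Pf.C 0 0x120c504))))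
 (Pq.cons (Pq.L [2,3,4] 1023 (Pf.B 10 4 (Pf.C 1 0x409141c304) (Pf.B 10 3 (Pf.C 1 0x409141c303) (Pf.B 10 2 (Pf.C 0 0x41018a) (Pf.C 0 0x1208503)))))
 (Pq.cons (Pq.L [1,2,3,4] 1023 (Pf.B 10 4 (Pf.C 1 0x409141c304) (Pf.B 10 3 (Pf.C 1 0x409141c303) (Pf.B 10 2 (Pf.C 0 0x41018a) (Pf.B 10 1 (Pf.C 0 0x20c10a) (Pf.C 0 0x1204502))))))
 (Pq.cons (Pq.L [0,1,2,3,4] 1023 (Pf.B 10 4 (Pf.C 1 0x409141c304) (Pf.B 10 3 (Pf.C 1 0x409141c303) (Pf.B 10 2 (Pf.C 0 0x41018a) (Pf.B 10 1 (Pf.C 0 0x20c10a) (Pf.B 10 0 (Pf.C 0 32906) (Pf.C 0 0x102400a)))))))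
 Pq.nil)))))))) Pq.nil)))))))) (Pq.cons (Pq.D 2 (Pq.cons (Pq.D 3 (Pq.cons (Pq.D 4 (Pq.cons (Pq.L [0,1] 910 (Pf.C 1 0x5091004006))
 (Pq.cons (Pq.L [0,1] 910 (Pf.C 1 0x5091004006))
 (Pq.cons (Pq.L [0,1] 910 (Pf.C 1 0x5091004006))
 (Pq.cons (Pq.L [0,1] 910 (Pf.C 1 0x5091004006))
 (Pq.cons (Pq.L [0,1] 910 (Pf.C 1 0x5091004006))
 (Pq.cons (Pq.L [0,2] 910 (Pf.C 1 0x5091008006))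
 (Pq.cons (Pq.L [1,2] 910 (Pf.C 1 0x5091008086))
 Pq.nil)))))))) (Pq.cons (Pq.L [3,5] 1023 (Pf.B 10 3 (Pf.C 1 0x409141c303) (Pf.B 10 5 (Pf.C 1 0x283141c308) (Pf.C 0 0x1214503))))
 (Pq.cons (Pq.L [3,4,5] 1023 (Pf.B 10 5 (Pf.C 1 0x409141c305) (Pf.B 10 4 (Pf.B 10 3 (Pf.C 1 0x409141c303) (Pf.C 0 0x81418a)) (Pf.C 0 0x1210505))))
 (Pq.cons (Pq.L [3,5] 1023 (Pf.B 10 5 (Pf.C 1 0x409141c305) (Pf.B 10 3 (Pf.C 1 0x185141c308) (Pf.C 0 0x120c505))))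
 (Pq.cons (Pq.L [2,3,4,5] 1023 (Pf.B 10 5 (Pf.C 1 0x409141c305) (Pf.B 10 3 (Pf.C 1 0x409141c303) (Pf.B 10 4 (Pf.C 0 0x81418a) (Pf.B 10 2 (Pf.C 0 0x41018a) (Pf.C 0 0x1208503))))))
 (Pq.cons (Pq.L [1,2,3,4,5] 1023 (Pf.B 10 5 (Pf.C 1 0x409141c305) (Pf.B 10 3 (Pf.C 1 0x409141c303) (Pf.B 10 4 (Pf.C 0 0x81418a) (Pf.B 10 2 (Pf.C 0 0x41018a) (Pf.B 10 1 (Pf.C 0 0x20c10a) (Pf.C 0 0x1204502)))))))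
 (Pq.cons (Pq.L [0,1,2,3,4,5] 1023 (Pf.B 10 5 (Pf.C 1 0x409141c305) (Pf.B 10 3 (Pf.C 1 0x409141c303) (Pf.B 10 4 (Pf.C 0 0x81418a) (Pf.B 10 2 (Pf.C 0 0x41018a) (Pf.B 10 1 (Pf.C 0 0x20c10a) (Pf.B 10 0 (Pf.C 0 32906) (Pf.C 0 0x1200501))))))))
 Pq.nil)))))))) (Pq.cons (Pq.D 3 (Pq.cons (Pq.D 4 (Pq.cons (Pq.L [0,1] 910 (Pf.C 1 0x5091004006))
 (Pq.cons (Pq.L [0,1] 910 (Pf.C 1 0x5091004006))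
 (Pq.cons (Pq.L [0,1] 910 (Pf.C 1 0x5091004006))
 (Pq.cons (Pq.L [0,1] 910 (Pf.C 1 0x5091004006))
 (Pq.cons (Pq.L [0,1] 910 (Pf.C 1 0x5091004006))
 (Pq.cons (Pq.L [0,2] 910 (Pf.C 1 0x5091008006))
 (Pq.cons (Pq.L [1,2] 910 (Pf.C 1 0x5091008086))
 Pq.nil)))))))) (Pq.cons (Pq.L [2,3,4,5] 987 (Pf.B 10 5 (Pf.B 10 3 (Pf.C 1 0x405061c30a) (Pf.B 10 4 (Pf.B 10 2 (Pf.C 1 0x405041c30a) (Pf.C 0 0x80c10a)) (Pf.C 0 0xa0c20a))) (Pf.C 0 0x102428a)))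
 (Pq.cons (Pq.L [2,3,4,5] 1023 (Pf.B 10 3 (Pf.C 1 0x409141c303) (Pf.B 10 4 (Pf.B 10 5 (Pf.B 10 2 (Pf.C 1 0x405041c30a) (Pf.C 0 0x80c10a)) (Pf.C 0 0x80c28a)) (Pf.C 0 0x1210503))))
 (Pq.cons (Pq.L [2,3] 1023 (Pf.B 10 2 (Pf.C 1 0x409141c302) (Pf.B 10 3 (Pf.C 1 0x182141c308) (Pf.C 0 0x120c502))))
 (Pq.cons (Pq.L [2,3] 1023 (Pf.B 10 3 (Pf.C 1 0x409141c303) (Pf.B 10 2 (Pf.C 1 0x103141c308) (Pf.C 0 0x1208503))))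
 (Pq.cons (Pq.L [1,2,3] 1023 (Pf.B 10 3 (Pf.C 1 0x409141c303) (Pf.B 10 2 (Pf.C 1 0x409141c302) (Pf.B 10 1 (Pf.C 0 0x20c10a) (Pf.C 0 0x1204502)))))
 (Pq.cons (Pq.L [0,1,2,3] 1023 (Pf.B 10 3 (Pf.C 1 0x409141c303) (Pf.B 10 2 (Pf.C 1 0x409141c302) (Pf.B 10 1 (Pf.C 0 0x20c10a) (Pf.B 10 0 (Pf.C 0 32906) (Pf.C 0 0x1200501))))))
 Pq.nil)))))))) (Pq.cons (Pq.D 3 (Pq.cons (Pq.D 4 (Pq.cons (Pq.L [0,1] 910 (Pf.C 1 0x5091004006))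
 (Pq.cons (Pq.L [0,1] 910 (Pf.C 1 0x5091004006))
 (Pq.cons (Pq.L [0,1] 910 (Pf.C 1 0x5091004006))
 (Pq.cons (Pq.L [0,1] 910 (Pf.C 1 0x5091004006))
 (Pq.cons (Pq.L [0,1] 910 (Pf.C 1 0x5091004006))
 (Pq.cons (Pq.L [0,2] 910 (Pf.C 1 0x5091008006))
 (Pq.cons (Pq.L [1,2] 910 (Pf.C 1 0x5091008086))
 Pq.nil)))))))) (Pq.cons (Pq.L [3,5] 1023 (Pf.B 10 3 (Pf.C 1 0x409141c303) (Pf.B 10 5 (Pf.C 1 0x283141c308) (Pf.C 0 0x1214503))))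
 (Pq.cons (Pq.L [3,4,5] 1023 (Pf.B 10 5 (Pf.C 1 0x409141c305) (Pf.B 10 4 (Pf.B 10 3 (Pf.C 1 0x409141c303) (Pf.C 0 0x81418a)) (Pf.C 0 0x102420a))))
 (Pq.cons (Pq.L [3,5] 1023 (Pf.B 10 5 (Pf.C 1 0x409141c305) (Pf.B 10 3 (Pf.C 1 0x185141c308) (Pf.C 0 0x120c505))))
 (Pq.cons (Pq.L [2,3,4,5] 1023 (Pf.B 10 5 (Pf.C 1 0x409141c305) (Pf.B 10 3 (Pf.C 1 0x409141c303) (Pf.B 10 4 (Pf.C 0 0x81418a) (Pf.B 10 2 (Pf.C 0 0x41018a) (Pf.C 0 0x1208503))))))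
 (Pq.cons (Pq.L [1,2,3,4,5] 1023 (Pf.B 10 5 (Pf.C 1 0x409141c305) (Pf.B 10 3 (Pf.C 1 0x409141c303) (Pf.B 10 4 (Pf.C 0 0x81418a) (Pf.B 10 2 (Pf.C 0 0x41018a) (Pf.B 10 1 (Pf.C 0 0x20c10a) (Pf.C 0 0x1204502)))))))
 (Pq.cons (Pq.L [0,1,2,3,4,5] 1023 (Pf.B 10 5 (Pf.C 1 0x409141c305) (Pf.B 10 3 (Pf.C 1 0x409141c303) (Pf.B 10 4 (Pf.C 0 0x81418a) (Pf.B 10 2 (Pf.C 0 0x41018a) (Pf.B 10 1 (Pf.C 0 0x20c10a) (Pf.B 10 0 (Pf.C 0 32906) (Pf.C 0 0x1200501))))))))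
 Pq.nil)))))))) (Pq.cons (Pq.D 3 (Pq.cons (Pq.D 4 (Pq.cons (Pq.L [0,1] 910 (Pf.C 1 0x5091004006))
 (Pq.cons (Pq.L [0,1] 910 (Pf.C 1 0x5091004006))
 (Pq.cons (Pq.L [0,1] 910 (Pf.C 1 0x5091004006))
 (Pq.cons (Pq.L [0,1] 910 (Pf.C 1 0x5091004006))
 (Pq.cons (Pq.L [0,1] 910 (Pf.C 1 0x5091004006))
 (Pq.cons (Pq.L [0,2] 910 (Pf.C 1 0x5091008006))
 (Pq.cons (Pq.L [1,2] 910 (Pf.C 1 0x5091008086))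
 Pq.nil)))))))) (Pq.cons (Pq.L [2,5] 1023 (Pf.B 10 2 (Pf.C 1 0x409141c302) (Pf.B 10 5 (Pf.C 1 0x282141c308) (Pf.C 0 0x1214502))))
 (Pq.cons (Pq.L [2,3,4,5] 1023 (Pf.B 10 5 (Pf.C 1 0x409141c305) (Pf.B 10 4 (Pf.B 10 3 (Pf.B 10 2 (Pf.C 1 0x403041c30a) (Pf.C 0 0x61410a)) (Pf.C 0 0x81418a)) (Pf.C 0 0x1210505))))
 (Pq.cons (Pq.L [2,3,5] 1023 (Pf.B 10 5 (Pf.C 1 0x409141c305) (Pf.B 10 3 (Pf.B 10 2 (Pf.C 1 0x403041c30a) (Pf.C 0 0x61410a)) (Pf.C 0 0x102418a))))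
 (Pq.cons (Pq.L [2,5] 1023 (Pf.B 10 5 (Pf.C 1 0x409141c305) (Pf.B 10 2 (Pf.C 1 0x105141c308) (Pf.C 0 0x1208505))))
 (Pq.cons (Pq.L [1,2,3,4,5] 1023 (Pf.B 10 5 (Pf.C 1 0x409141c305) (Pf.B 10 2 (Pf.C 1 0x409141c302) (Pf.B 10 4 (Pf.C 0 0x81410a) (Pf.B 10 3 (Pf.C 0 0x61010a) (Pf.B 10 1 (Pf.C 0 0x20c10a) (Pf.C 0 0x1204502)))))))
 (Pq.cons (Pq.L [0,1,2,3,4,5] 1023 (Pf.B 10 5 (Pf.C 1 0x409141c305) (Pf.B 10 2 (Pf.C 1 0x409141c302) (Pf.B 10 4 (Pf.C 0 0x81410a) (Pf.B 10 3 (Pf.C 0 0x61010a) (Pf.B 10 1 (Pf.C 0 0x20c10a) (Pf.B 10 0 (Pf.C 0 32906) (Pf.C 0 0x1200501))))))))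
 Pq.nil)))))))) (Pq.cons (Pq.D 3 (Pq.cons (Pq.D 4 (Pq.cons (Pq.L [0,1] 910 (Pf.C 1 0x5091004006))
 (Pq.cons (Pq.L [0,1] 910 (Pf.C 1 0x5091004006))
 (Pq.cons (Pq.L [0,1] 910 (Pf.C 1 0x5091004006))
 (Pq.cons (Pq.L [0,1] 910 (Pf.C 1 0x5091004006))
 (Pq.cons (Pq.L [0,1] 910 (Pf.C 1 0x5091004006))
 (Pq.cons (Pq.L [0,3] 910 (Pf.C 1 0x509100c006))
 (Pq.cons (Pq.L [1,3] 910 (Pf.C 1 0x509100c086))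
 Pq.nil)))))))) (Pq.cons (Pq.L [3,5] 1023 (Pf.B 10 3 (Pf.C 1 0x409141c303) (Pf.B 10 5 (Pf.C 1 0x283141c308) (Pf.C 0 0x1214503))))
 (Pq.cons (Pq.L [3,4,5] 1023 (Pf.B 10 5 (Pf.C 1 0x409141c305) (Pf.B 10 4 (Pf.B 10 3 (Pf.C 1 0x409141c303) (Pf.C 0 0x81418a)) (Pf.C 0 0x1210505))))
 (Pq.cons (Pq.L [3,5] 1023 (Pf.B 10 5 (Pf.C 1 0x409141c305) (Pf.B 10 3 (Pf.C 1 0x185141c308) (Pf.C 0 0x120c505))))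
 (Pq.cons (Pq.L [2,3,4,5] 1023 (Pf.B 10 5 (Pf.C 1 0x409141c305) (Pf.B 10 3 (Pf.C 1 0x409141c303) (Pf.B 10 4 (Pf.C 0 0x81418a) (Pf.B 10 2 (Pf.C 0 0x41018a) (Pf.C 0 0x102410a))))))
 (Pq.cons (Pq.L [1,2,3,4,5] 1023 (Pf.B 10 5 (Pf.C 1 0x409141c305) (Pf.B 10 3 (Pf.C 1 0x409141c303) (Pf.B 10 4 (Pf.C 0 0x81418a) (Pf.B 10 2 (Pf.C 0 0x41018a) (Pf.B 10 1 (Pf.C 0 0x20c10a) (Pf.C 0 0x1204502)))))))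
 (Pq.cons (Pq.L [0,1,2,3,4,5] 1023 (Pf.B 10 5 (Pf.C 1 0x409141c305) (Pf.B 10 3 (Pf.C 1 0x409141c303) (Pf.B 10 4 (Pf.C 0 0x81418a) (Pf.B 10 2 (Pf.C 0 0x41018a) (Pf.B 10 1 (Pf.C 0 0x20c10a) (Pf.B 10 0 (Pf.C 0 32906) (Pf.C 0 0x1200501))))))))
 Pq.nil)))))))) (Pq.cons (Pq.D 3 (Pq.cons (Pq.D 4 (Pq.cons (Pq.L [0,2] 910 (Pf.C 1 0x5091008006))
 (Pq.cons (Pq.L [0,2] 910 (Pf.C 1 0x5091008006))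
 (Pq.cons (Pq.L [0,2] 910 (Pf.C 1 0x5091008006))
 (Pq.cons (Pq.L [0,2] 910 (Pf.C 1 0x5091008006))
 (Pq.cons (Pq.L [0,3] 910 (Pf.C 1 0x509100c006))
 (Pq.cons (Pq.L [0,2] 910 (Pf.C 1 0x5091008006))
 (Pq.cons (Pq.L [2,3] 910 (Pf.C 1 0x509100c106))
 Pq.nil)))))))) (Pq.cons (Pq.L [3,5] 1023 (Pf.B 10 3 (Pf.C 1 0x409141c303) (Pf.B 10 5 (Pf.C 1 0x283141c308) (Pf.C 0 0x1214503))))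
 (Pq.cons (Pq.L [3,4,5] 1023 (Pf.B 10 5 (Pf.C 1 0x409141c305) (Pf.B 10 4 (Pf.B 10 3 (Pf.C 1 0x409141c303) (Pf.C 0 0x81418a)) (Pf.C 0 0x1210505))))
 (Pq.cons (Pq.L [3,5] 1023 (Pf.B 10 5 (Pf.C 1 0x409141c305) (Pf.B 10 3 (Pf.C 1 0x185141c308) (Pf.C 0 0x120c505))))
 (Pq.cons (Pq.L [2,3,4,5] 1023 (Pf.B 10 5 (Pf.C 1 0x409141c305) (Pf.B 10 3 (Pf.C 1 0x409141c303) (Pf.B 10 4 (Pf.C 0 0x81418a) (Pf.B 10 2 (Pf.C 0 0x41018a) (Pf.C 0 0x1208503))))))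
 (Pq.cons (Pq.L [1,2,3,4,5] 1023 (Pf.B 10 5 (Pf.C 1 0x409141c305) (Pf.B 10 3 (Pf.C 1 0x409141c303) (Pf.B 10 4 (Pf.C 0 0x81418a) (Pf.B 10 2 (Pf.C 0 0x41018a) (Pf.B 10 1 (Pf.C 0 0x20c10a) (Pf.C 0 0x102408a)))))))
 (Pq.cons (Pq.L [0,1,2,3,4,5] 1023 (Pf.B 10 5 (Pf.C 1 0x409141c305) (Pf.B 10 3 (Pf.C 1 0x409141c303) (Pf.B 10 4 (Pf.C 0 0x81418a) (Pf.B 10 2 (Pf.C 0 0x41018a) (Pf.B 10 1 (Pf.C 0 0x20c10a) (Pf.B 10 0 (Pf.C 0 32906) (Pf.C 0 0x1200501))))))))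
 Pq.nil)))))))) (Pq.cons (Pq.D 3 (Pq.cons (Pq.D 4 (Pq.cons (Pq.L [1,2] 910 (Pf.C 1 0x5091008086))
 (Pq.cons (Pq.L [1,2] 910 (Pf.C 1 0x5091008086))
 (Pq.cons (Pq.L [1,2] 910 (Pf.C 1 0x5091008086))
 (Pq.cons (Pq.L [1,2] 910 (Pf.C 1 0x5091008086))
 (Pq.cons (Pq.L [1,3] 910 (Pf.C 1 0x509100c086))
 (Pq.cons (Pq.L [2,3] 910 (Pf.C 1 0x509100c106))
 (Pq.cons (Pq.L [1,2] 910 (Pf.C 1 0x5091008086))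
 Pq.nil)))))))) (Pq.cons (Pq.L [3,5] 1023 (Pf.B 10 3 (Pf.C 1 0x409141c303) (Pf.B 10 5 (Pf.C 1 0x283141c308) (Pf.C 0 0x1214503))))
 (Pq.cons (Pq.L [3,4,5] 1023 (Pf.B 10 5 (Pf.C 1 0x409141c305) (Pf.B 10 4 (Pf.B 10 3 (Pf.C 1 0x409141c303) (Pf.C 0 0x81418a)) (Pf.C 0 0x1210505))))
 (Pq.cons (Pq.L [3,5] 1023 (Pf.B 10 5 (Pf.C 1 0x409141c305) (Pf.B 10 3 (Pf.C 1 0x185141c308) (Pf.C 0 0x120c505))))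
 (Pq.cons (Pq.L [2,3,4,5] 1023 (Pf.B 10 5 (Pf.C 1 0x409141c305) (Pf.B 10 3 (Pf.C 1 0x409141c303) (Pf.B 10 4 (Pf.C 0 0x81418a) (Pf.B 10 2 (Pf.C 0 0x41018a) (Pf.C 0 0x1208503))))))
 (Pq.cons (Pq.L [1,2,3,4,5] 1023 (Pf.B 10 5 (Pf.C 1 0x409141c305) (Pf.B 10 3 (Pf.C 1 0x409141c303) (Pf.B 10 4 (Pf.C 0 0x81418a) (Pf.B 10 2 (Pf.C 0 0x41018a) (Pf.B 10 1 (Pf.C 0 0x20c10a) (Pf.C 0 0x1204502)))))))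
 (Pq.cons (Pq.L [0,1,2,3,4,5] 1023 (Pf.B 10 5 (Pf.C 1 0x409141c305) (Pf.B 10 3 (Pf.C 1 0x409141c303) (Pf.B 10 4 (Pf.C 0 0x81418a) (Pf.B 10 2 (Pf.C 0 0x41018a) (Pf.B 10 1 (Pf.C 0 0x20c10a) (Pf.B 10 0 (Pf.C 0 32906) (Pf.C 0 0x102400a))))))))
 Pq.nil)))))))) Pq.nil)))))))) Pq.nil)))
theorem e_o4 : AllRef e_T e_G4 (List.take 3 (List.flatMap (splitP 1) (List.take 1 (List.take 3 (List.flatMap (splitP 0) [⟨[[5,6,7,8,9,10,11],[5,6,7,8,9,10,11],[5,6,7,8,9,10,11],[5,6,7,8,9,10,11],[5,6,7,8,9,10,11]],[⟨0,1,true⟩,⟨0,2,false⟩,⟨0,3,false⟩,⟨0,4,false⟩,⟨1,2,false⟩,⟨1,3,false⟩,⟨1,4,false⟩,⟨2,3,true⟩,⟨2,4,false⟩,⟨3,4,true⟩],[],[]⟩]))))) :=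
  chkPq_sound e_o4c _ (by decide +kernel)
noncomputable def e_o5c : Pq := (Pq.cons (Pq.D 2 (Pq.cons (Pq.D 3 (Pq.cons (Pq.D 4 (Pq.cons (Pq.L [0,1] 910 (Pf.C 1 0x5091004006))
 (Pq.cons (Pq.L [0,1] 910 (Pf.C 1 0x5091004006))
 (Pq.cons (Pq.L [0,1] 910 (Pf.C 1 0x5091004006))
 (Pq.cons (Pq.L [0,1] 910 (Pf.C 1 0x5091004006))
 (Pq.cons (Pq.L [0,1] 910 (Pf.C 1 0x5091004006))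
 (Pq.cons (Pq.L [0,2] 910 (Pf.C 1 0x5091008006))
 (Pq.cons (Pq.L [1,2] 910 (Pf.C 1 0x5091008086))
 Pq.nil)))))))) (Pq.cons (Pq.L [4,5] 1023 (Pf.B 10 4 (Pf.C 1 0x409141c304) (Pf.B 10 5 (Pf.C 1 0x284141c308) (Pf.C 0 0x1214504))))
 (Pq.cons (Pq.L [4,5] 1023 (Pf.B 10 5 (Pf.C 1 0x409141c305) (Pf.B 10 4 (Pf.C 1 0x205141c308) (Pf.C 0 0x1210505))))
 (Pq.cons (Pq.L [3,4,5] 1023 (Pf.B 10 5 (Pf.C 1 0x409141c305) (Pf.B 10 4 (Pf.C 1 0x409141c304) (Pf.B 10 3 (Pf.C 0 0x61420a) (Pf.C 0 0x120c504)))))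
 (Pq.cons (Pq.L [2,3,4,5] 1023 (Pf.B 10 5 (Pf.C 1 0x409141c305) (Pf.B 10 4 (Pf.C 1 0x409141c304) (Pf.B 10 3 (Pf.C 0 0x61420a) (Pf.B 10 2 (Pf.C 0 0x41018a) (Pf.C 0 0x1208503))))))
 (Pq.cons (Pq.L [1,2,3,4,5] 1023 (Pf.B 10 5 (Pf.C 1 0x409141c305) (Pf.B 10 4 (Pf.C 1 0x409141c304) (Pf.B 10 3 (Pf.C 0 0x61420a) (Pf.B 10 2 (Pf.C 0 0x41018a) (Pf.B 10 1 (Pf.C 0 0x20c10a) (Pf.C 0 0x1204502)))))))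
 (Pq.cons (Pq.L [0,1,2,3,4,5] 1023 (Pf.B 10 5 (Pf.C 1 0x409141c305) (Pf.B 10 4 (Pf.C 1 0x409141c304) (Pf.B 10 3 (Pf.C 0 0x61420a) (Pf.B 10 2 (Pf.C 0 0x41018a) (Pf.B 10 1 (Pf.C 0 0x20c10a) (Pf.B 10 0 (Pf.C 0 32906) (Pf.C 0 0x1200501))))))))
 Pq.nil)))))))) (Pq.cons (Pq.D 3 (Pq.cons (Pq.D 4 (Pq.cons (Pq.L [0,1] 910 (Pf.C 1 0x5091004006))
 (Pq.cons (Pq.L [0,1] 910 (Pf.C 1 0x5091004006))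
 (Pq.cons (Pq.L [0,1] 910 (Pf.C 1 0x5091004006))
 (Pq.cons (Pq.L [0,1] 910 (Pf.C 1 0x5091004006))
 (Pq.cons (Pq.L [0,1] 910 (Pf.C 1 0x5091004006))
 (Pq.cons (Pq.L [0,2] 910 (Pf.C 1 0x5091008006))
 (Pq.cons (Pq.L [1,2] 910 (Pf.C 1 0x5091008086))
 Pq.nil)))))))) (Pq.cons (Pq.L [2,3,4,5] 987 (Pf.B 10 5 (Pf.B 10 4 (Pf.C 1 0x405081c30a) (Pf.B 10 3 (Pf.B 10 2 (Pf.C 1 0x405041c30a) (Pf.C 0 0x61010a)) (Pf.C 0 0xa1018a))) (Pf.C 0 0x102428a)))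
 (Pq.cons (Pq.L [2,4] 1023 (Pf.B 10 2 (Pf.C 1 0x409141c302) (Pf.B 10 4 (Pf.C 1 0x202141c308) (Pf.C 0 0x1210502))))
 (Pq.cons (Pq.L [2,3,4,5] 1023 (Pf.B 10 4 (Pf.C 1 0x409141c304) (Pf.B 10 3 (Pf.B 10 5 (Pf.B 10 2 (Pf.C 1 0x405041c30a) (Pf.C 0 0x61010a)) (Pf.C 0 0x61028a)) (Pf.C 0 0x120c504))))
 (Pq.cons (Pq.L [2,4] 1023 (Pf.B 10 4 (Pf.C 1 0x409141c304) (Pf.B 10 2 (Pf.C 1 0x104141c308) (Pf.C 0 0x1208504))))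
 (Pq.cons (Pq.L [1,2,3,4] 1023 (Pf.B 10 4 (Pf.C 1 0x409141c304) (Pf.B 10 2 (Pf.C 1 0x409141c302) (Pf.B 10 3 (Pf.C 0 0x61010a) (Pf.B 10 1 (Pf.C 0 0x20c10a) (Pf.C 0 0x1204502))))))
 (Pq.cons (Pq.L [0,1,2,3,4] 1023 (Pf.B 10 4 (Pf.C 1 0x409141c304) (Pf.B 10 2 (Pf.C 1 0x409141c302) (Pf.B 10 3 (Pf.C 0 0x61010a) (Pf.B 10 1 (Pf.C 0 0x20c10a) (Pf.B 10 0 (Pf.C 0 32906) (Pf.C 0 0x1200501)))))))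
 Pq.nil)))))))) (Pq.cons (Pq.D 3 (Pq.cons (Pq.D 4 (Pq.cons (Pq.L [0,1] 910 (Pf.C 1 0x5091004006))
 (Pq.cons (Pq.L [0,1] 910 (Pf.C 1 0x5091004006))
 (Pq.cons (Pq.L [0,1] 910 (Pf.C 1 0x5091004006))
 (Pq.cons (Pq.L [0,1] 910 (Pf.C 1 0x5091004006))
 (Pq.cons (Pq.L [0,1] 910 (Pf.C 1 0x5091004006))
 (Pq.cons (Pq.L [0,2] 910 (Pf.C 1 0x5091008006))
 (Pq.cons (Pq.L [1,2] 910 (Pf.C 1 0x5091008086))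
 Pq.nil)))))))) (Pq.cons (Pq.L [2,5] 1023 (Pf.B 10 2 (Pf.C 1 0x409141c302) (Pf.B 10 5 (Pf.C 1 0x282141c308) (Pf.C 0 0x1214502))))
 (Pq.cons (Pq.L [2,3,4,5] 1023 (Pf.B 10 5 (Pf.C 1 0x409141c305) (Pf.B 10 4 (Pf.B 10 3 (Pf.B 10 2 (Pf.C 1 0x404041c30a) (Pf.C 0 0x61410a)) (Pf.C 0 0x81418a)) (Pf.C 0 0x102420a))))
 (Pq.cons (Pq.L [2,3,4,5] 1023 (Pf.B 10 5 (Pf.C 1 0x409141c305) (Pf.B 10 3 (Pf.B 10 4 (Pf.B 10 2 (Pf.C 1 0x404041c30a) (Pf.C 0 0x61410a)) (Pf.C 0 0x61420a)) (Pf.C 0 0x120c505))))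
 (Pq.cons (Pq.L [2,5] 1023 (Pf.B 10 5 (Pf.C 1 0x409141c305) (Pf.B 10 2 (Pf.C 1 0x105141c308) (Pf.C 0 0x1208505))))
 (Pq.cons (Pq.L [1,2,3,4,5] 1023 (Pf.B 10 5 (Pf.C 1 0x409141c305) (Pf.B 10 2 (Pf.C 1 0x409141c302) (Pf.B 10 4 (Pf.C 0 0x81410a) (Pf.B 10 3 (Pf.C 0 0x61010a) (Pf.B 10 1 (Pf.C 0 0x20c10a) (Pf.C 0 0x1204502)))))))
 (Pq.cons (Pq.L [0,1,2,3,4,5] 1023 (Pf.B 10 5 (Pf.C 1 0x409141c305) (Pf.B 10 2 (Pf.C 1 0x409141c302) (Pf.B 10 4 (Pf.C 0 0x81410a) (Pf.B 10 3 (Pf.C 0 0x61010a) (Pf.B 10 1 (Pf.C 0 0x20c10a) (Pf.B 10 0 (Pf.C 0 32906) (Pf.C 0 0x1200501))))))))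
 Pq.nil)))))))) (Pq.cons (Pq.D 3 (Pq.cons (Pq.D 4 (Pq.cons (Pq.L [0,1] 910 (Pf.C 1 0x5091004006))
 (Pq.cons (Pq.L [0,1] 910 (Pf.C 1 0x5091004006))
 (Pq.cons (Pq.L [0,1] 910 (Pf.C 1 0x5091004006))
 (Pq.cons (Pq.L [0,1] 910 (Pf.C 1 0x5091004006))
 (Pq.cons (Pq.L [0,1] 910 (Pf.C 1 0x5091004006))
 (Pq.cons (Pq.L [0,2] 910 (Pf.C 1 0x5091008006))
 (Pq.cons (Pq.L [1,2] 910 (Pf.C 1 0x5091008086))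
 Pq.nil)))))))) (Pq.cons (Pq.L [4,5] 1023 (Pf.B 10 4 (Pf.C 1 0x409141c304) (Pf.B 10 5 (Pf.C 1 0x284141c308) (Pf.C 0 0x1214504))))
 (Pq.cons (Pq.L [4,5] 1023 (Pf.B 10 5 (Pf.C 1 0x409141c305) (Pf.B 10 4 (Pf.C 1 0x205141c308) (Pf.C 0 0x1210505))))
 (Pq.cons (Pq.L [3,4,5] 1023 (Pf.B 10 5 (Pf.C 1 0x409141c305) (Pf.B 10 4 (Pf.C 1 0x409141c304) (Pf.B 10 3 (Pf.C 0 0x61420a) (Pf.C 0 0x102418a)))))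
 (Pq.cons (Pq.L [2,3,4,5] 1023 (Pf.B 10 5 (Pf.C 1 0x409141c305) (Pf.B 10 4 (Pf.C 1 0x409141c304) (Pf.B 10 3 (Pf.C 0 0x61420a) (Pf.B 10 2 (Pf.C 0 0x41018a) (Pf.C 0 0x1208503))))))
 (Pq.cons (Pq.L [1,2,3,4,5] 1023 (Pf.B 10 5 (Pf.C 1 0x409141c305) (Pf.B 10 4 (Pf.C 1 0x409141c304) (Pf.B 10 3 (Pf.C 0 0x61420a) (Pf.B 10 2 (Pf.C 0 0x41018a) (Pf.B 10 1 (Pf.C 0 0x20c10a) (Pf.C 0 0x1204502)))))))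
 (Pq.cons (Pq.L [0,1,2,3,4,5] 1023 (Pf.B 10 5 (Pf.C 1 0x409141c305) (Pf.B 10 4 (Pf.C 1 0x409141c304) (Pf.B 10 3 (Pf.C 0 0x61420a) (Pf.B 10 2 (Pf.C 0 0x41018a) (Pf.B 10 1 (Pf.C 0 0x20c10a) (Pf.B 10 0 (Pf.C 0 32906) (Pf.C 0 0x1200501))))))))
 Pq.nil)))))))) (Pq.cons (Pq.D 3 (Pq.cons (Pq.D 4 (Pq.cons (Pq.L [0,1] 910 (Pf.C 1 0x5091004006))
 (Pq.cons (Pq.L [0,1] 910 (Pf.C 1 0x5091004006))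
 (Pq.cons (Pq.L [0,1] 910 (Pf.C 1 0x5091004006))
 (Pq.cons (Pq.L [0,1] 910 (Pf.C 1 0x5091004006))
 (Pq.cons (Pq.L [0,1] 910 (Pf.C 1 0x5091004006))
 (Pq.cons (Pq.L [0,3] 910 (Pf.C 1 0x509100c006))
 (Pq.cons (Pq.L [1,3] 910 (Pf.C 1 0x509100c086))
 Pq.nil)))))))) (Pq.cons (Pq.L [4,5] 1023 (Pf.B 10 4 (Pf.C 1 0x409141c304) (Pf.B 10 5 (Pf.C 1 0x284141c308) (Pf.C 0 0x1214504))))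
 (Pq.cons (Pq.L [4,5] 1023 (Pf.B 10 5 (Pf.C 1 0x409141c305) (Pf.B 10 4 (Pf.C 1 0x205141c308) (Pf.C 0 0x1210505))))
 (Pq.cons (Pq.L [3,4,5] 1023 (Pf.B 10 5 (Pf.C 1 0x409141c305) (Pf.B 10 4 (Pf.C 1 0x409141c304) (Pf.B 10 3 (Pf.C 0 0x61420a) (Pf.C 0 0x120c504)))))
 (Pq.cons (Pq.L [2,3,4,5] 1023 (Pf.B 10 5 (Pf.C 1 0x409141c305) (Pf.B 10 4 (Pf.C 1 0x409141c304) (Pf.B 10 3 (Pf.C 0 0x61420a) (Pf.B 10 2 (Pf.C 0 0x41018a) (Pf.C 0 0x102410a))))))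
 (Pq.cons (Pq.L [1,2,3,4,5] 1023 (Pf.B 10 5 (Pf.C 1 0x409141c305) (Pf.B 10 4 (Pf.C 1 0x409141c304) (Pf.B 10 3 (Pf.C 0 0x61420a) (Pf.B 10 2 (Pf.C 0 0x41018a) (Pf.B 10 1 (Pf.C 0 0x20c10a) (Pf.C 0 0x1204502)))))))
 (Pq.cons (Pq.L [0,1,2,3,4,5] 1023 (Pf.B 10 5 (Pf.C 1 0x409141c305) (Pf.B 10 4 (Pf.C 1 0x409141c304) (Pf.B 10 3 (Pf.C 0 0x61420a) (Pf.B 10 2 (Pf.C 0 0x41018a) (Pf.B 10 1 (Pf.C 0 0x20c10a) (Pf.B 10 0 (Pf.C 0 32906) (Pf.C 0 0x1200501))))))))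
 Pq.nil)))))))) (Pq.cons (Pq.D 3 (Pq.cons (Pq.D 4 (Pq.cons (Pq.L [0,2] 910 (Pf.C 1 0x5091008006))
 (Pq.cons (Pq.L [0,2] 910 (Pf.C 1 0x5091008006))
 (Pq.cons (Pq.L [0,2] 910 (Pf.C 1 0x5091008006))
 (Pq.cons (Pq.L [0,2] 910 (Pf.C 1 0x5091008006))
 (Pq.cons (Pq.L [0,3] 910 (Pf.C 1 0x509100c006))
 (Pq.cons (Pq.L [0,2] 910 (Pf.C 1 0x5091008006))
 (Pq.cons (Pq.L [2,3] 910 (Pf.C 1 0x509100c106))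
 Pq.nil)))))))) (Pq.cons (Pq.L [4,5] 1023 (Pf.B 10 4 (Pf.C 1 0x409141c304) (Pf.B 10 5 (Pf.C 1 0x284141c308) (Pf.C 0 0x1214504))))
 (Pq.cons (Pq.L [4,5] 1023 (Pf.B 10 5 (Pf.C 1 0x409141c305) (Pf.B 10 4 (Pf.C 1 0x205141c308) (Pf.C 0 0x1210505))))
 (Pq.cons (Pq.L [3,4,5] 1023 (Pf.B 10 5 (Pf.C 1 0x409141c305) (Pf.B 10 4 (Pf.C 1 0x409141c304) (Pf.B 10 3 (Pf.C 0 0x61420a) (Pf.C 0 0x120c504)))))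
 (Pq.cons (Pq.L [2,3,4,5] 1023 (Pf.B 10 5 (Pf.C 1 0x409141c305) (Pf.B 10 4 (Pf.C 1 0x409141c304) (Pf.B 10 3 (Pf.C 0 0x61420a) (Pf.B 10 2 (Pf.C 0 0x41018a) (Pf.C 0 0x1208503))))))
 (Pq.cons (Pq.L [1,2,3,4,5] 1023 (Pf.B 10 5 (Pf.C 1 0x409141c305) (Pf.B 10 4 (Pf.C 1 0x409141c304) (Pf.B 10 3 (Pf.C 0 0x61420a) (Pf.B 10 2 (Pf.C 0 0x41018a) (Pf.B 10 1 (Pf.C 0 0x20c10a) (Pf.C 0 0x102408a)))))))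
 (Pq.cons (Pq.L [0,1,2,3,4,5] 1023 (Pf.B 10 5 (Pf.C 1 0x409141c305) (Pf.B 10 4 (Pf.C 1 0x409141c304) (Pf.B 10 3 (Pf.C 0 0x61420a) (Pf.B 10 2 (Pf.C 0 0x41018a) (Pf.B 10 1 (Pf.C 0 0x20c10a) (Pf.B 10 0 (Pf.C 0 32906) (Pf.C 0 0x1200501))))))))
 Pq.nil)))))))) (Pq.cons (Pq.D 3 (Pq.cons (Pq.D 4 (Pq.cons (Pq.L [1,2] 910 (Pf.C 1 0x5091008086))
 (Pq.cons (Pq.L [1,2] 910 (Pf.C 1 0x5091008086))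
 (Pq.cons (Pq.L [1,2] 910 (Pf.C 1 0x5091008086))
 (Pq.cons (Pq.L [1,2] 910 (Pf.C 1 0x5091008086))
 (Pq.cons (Pq.L [1,3] 910 (Pf.C 1 0x509100c086))
 (Pq.cons (Pq.L [2,3] 910 (Pf.C 1 0x509100c106))
 (Pq.cons (Pq.L [1,2] 910 (Pf.C 1 0x5091008086))
 Pq.nil)))))))) (Pq.cons (Pq.L [4,5] 1023 (Pf.B 10 4 (Pf.C 1 0x409141c304) (Pf.B 10 5 (Pf.C 1 0x284141c308) (Pf.C 0 0x1214504))))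
 (Pq.cons (Pq.L [4,5] 1023 (Pf.B 10 5 (Pf.C 1 0x409141c305) (Pf.B 10 4 (Pf.C 1 0x205141c308) (Pf.C 0 0x1210505))))
 (Pq.cons (Pq.L [3,4,5] 1023 (Pf.B 10 5 (Pf.C 1 0x409141c305) (Pf.B 10 4 (Pf.C 1 0x409141c304) (Pf.B 10 3 (Pf.C 0 0x61420a) (Pf.C 0 0x120c504)))))
 (Pq.cons (Pq.L [2,3,4,5] 1023 (Pf.B 10 5 (Pf.C 1 0x409141c305) (Pf.B 10 4 (Pf.C 1 0x409141c304) (Pf.B 10 3 (Pf.C 0 0x61420a) (Pf.B 10 2 (Pf.C 0 0x41018a) (Pf.C 0 0x1208503))))))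
 (Pq.cons (Pq.L [1,2,3,4,5] 1023 (Pf.B 10 5 (Pf.C 1 0x409141c305) (Pf.B 10 4 (Pf.C 1 0x409141c304) (Pf.B 10 3 (Pf.C 0 0x61420a) (Pf.B 10 2 (Pf.C 0 0x41018a) (Pf.B 10 1 (Pf.C 0 0x20c10a) (Pf.C 0 0x1204502)))))))
 (Pq.cons (Pq.L [0,1,2,3,4,5] 1023 (Pf.B 10 5 (Pf.C 1 0x409141c305) (Pf.B 10 4 (Pf.C 1 0x409141c304) (Pf.B 10 3 (Pf.C 0 0x61420a) (Pf.B 10 2 (Pf.C 0 0x41018a) (Pf.B 10 1 (Pf.C 0 0x20c10a) (Pf.B 10 0 (Pf.C 0 32906) (Pf.C 0 0x102400a))))))))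
 Pq.nil)))))))) Pq.nil)))))))) Pq.nil)
theorem e_o5 : AllRef e_T e_G4 (List.take 1 (List.drop 3 (List.flatMap (splitP 1) (List.take 1 (List.take 3 (List.flatMap (splitP 0) [⟨[[5,6,7,8,9,10,11],[5,6,7,8,9,10,11],[5,6,7,8,9,10,11],[5,6,7,8,9,10,11],[5,6,7,8,9,10,11]],[⟨0,1,true⟩,⟨0,2,false⟩,⟨0,3,false⟩,⟨0,4,false⟩,⟨1,2,false⟩,⟨1,3,false⟩,⟨1,4,false⟩,⟨2,3,true⟩,⟨2,4,false⟩,⟨3,4,true⟩],[],[]⟩])))))) :=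
  chkPq_sound e_o5c _ (by decide +kernel)
noncomputable def e_o6c : Pq := (Pq.cons (Pq.D 2 (Pq.cons (Pq.D 3 (Pq.cons (Pq.D 4 (Pq.cons (Pq.L [0,1] 910 (Pf.C 1 0x5091004006))
 (Pq.cons (Pq.L [0,1] 910 (Pf.C 1 0x5091004006))
 (Pq.cons (Pq.L [0,1] 910 (Pf.C 1 0x5091004006))
 (Pq.cons (Pq.L [0,1] 910 (Pf.C 1 0x5091004006))
 (Pq.cons (Pq.L [0,1] 910 (Pf.C 1 0x5091004006))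
 (Pq.cons (Pq.L [0,2] 910 (Pf.C 1 0x5091008006))
 (Pq.cons (Pq.L [1,2] 910 (Pf.C 1 0x5091008086))
 Pq.nil)))))))) (Pq.cons (Pq.L [4,5] 1023 (Pf.B 10 4 (Pf.C 1 0x409141c304) (Pf.B 10 5 (Pf.C 1 0x284141c308) (Pf.C 0 0x1214504))))
 (Pq.cons (Pq.L [4,5] 1023 (Pf.B 10 5 (Pf.C 1 0x409141c305) (Pf.B 10 4 (Pf.C 1 0x205141c308) (Pf.C 0 0x1210505))))
 (Pq.cons (Pq.L [3,4,5] 1023 (Pf.B 10 5 (Pf.C 1 0x409141c305) (Pf.B 10 4 (Pf.C 1 0x409141c304) (Pf.B 10 3 (Pf.C 0 0x61420a) (Pf.C 0 0x120c504)))))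
 (Pq.cons (Pq.L [2,3,4,5] 1023 (Pf.B 10 5 (Pf.C 1 0x409141c305) (Pf.B 10 4 (Pf.C 1 0x409141c304) (Pf.B 10 3 (Pf.C 0 0x61420a) (Pf.B 10 2 (Pf.C 0 0x41018a) (Pf.C 0 0x1208503))))))
 (Pq.cons (Pq.L [1,2,3,4,5] 1023 (Pf.B 10 5 (Pf.C 1 0x409141c305) (Pf.B 10 4 (Pf.C 1 0x409141c304) (Pf.B 10 3 (Pf.C 0 0x61420a) (Pf.B 10 2 (Pf.C 0 0x41018a) (Pf.B 10 1 (Pf.C 0 0x20c10a) (Pf.C 0 0x1204502)))))))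
 (Pq.cons (Pq.L [0,1,2,3,4,5] 1023 (Pf.B 10 5 (Pf.C 1 0x409141c305) (Pf.B 10 4 (Pf.C 1 0x409141c304) (Pf.B 10 3 (Pf.C 0 0x61420a) (Pf.B 10 2 (Pf.C 0 0x41018a) (Pf.B 10 1 (Pf.C 0 0x20c10a) (Pf.B 10 0 (Pf.C 0 32906) (Pf.C 0 0x1200501))))))))
 Pq.nil)))))))) (Pq.cons (Pq.D 3 (Pq.cons (Pq.D 4 (Pq.cons (Pq.L [0,1] 910 (Pf.C 1 0x5091004006))
 (Pq.cons (Pq.L [0,1] 910 (Pf.C 1 0x5091004006))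
 (Pq.cons (Pq.L [0,1] 910 (Pf.C 1 0x5091004006))
 (Pq.cons (Pq.L [0,1] 910 (Pf.C 1 0x5091004006))
 (Pq.cons (Pq.L [0,1] 910 (Pf.C 1 0x5091004006))
 (Pq.cons (Pq.L [0,2] 910 (Pf.C 1 0x5091008006))
 (Pq.cons (Pq.L [1,2] 910 (Pf.C 1 0x5091008086))
 Pq.nil)))))))) (Pq.cons (Pq.L [3,4,5] 987 (Pf.B 10 5 (Pf.B 10 4 (Pf.C 1 0x405081c30a) (Pf.B 10 3 (Pf.C 1 0x405061c30a) (Pf.C 0 0xa1018a))) (Pf.C 0 0x102428a)))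
 (Pq.cons (Pq.L [3,4] 1023 (Pf.B 10 3 (Pf.C 1 0x409141c303) (Pf.B 10 4 (Pf.C 1 0x203141c308) (Pf.C 0 0x1210503))))
 (Pq.cons (Pq.L [3,4] 1023 (Pf.B 10 4 (Pf.C 1 0x409141c304) (Pf.B 10 3 (Pf.C 1 0x184141c308) (Pf.C 0 0x120c504))))
 (Pq.cons (Pq.L [2,3,4] 1023 (Pf.B 10 4 (Pf.C 1 0x409141c304) (Pf.B 10 3 (Pf.C 1 0x409141c303) (Pf.B 10 2 (Pf.C 0 0x41018a) (Pf.C 0 0x1208503)))))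
 (Pq.cons (Pq.L [1,2,3,4] 1023 (Pf.B 10 4 (Pf.C 1 0x409141c304) (Pf.B 10 3 (Pf.C 1 0x409141c303) (Pf.B 10 2 (Pf.C 0 0x41018a) (Pf.B 10 1 (Pf.C 0 0x20c10a) (Pf.C 0 0x1204502))))))
 (Pq.cons (Pq.L [0,1,2,3,4] 1023 (Pf.B 10 4 (Pf.C 1 0x409141c304) (Pf.B 10 3 (Pf.C 1 0x409141c303) (Pf.B 10 2 (Pf.C 0 0x41018a) (Pf.B 10 1 (Pf.C 0 0x20c10a) (Pf.B 10 0 (Pf.C 0 32906) (Pf.C 0 0x1200501)))))))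
 Pq.nil)))))))) (Pq.cons (Pq.D 3 (Pq.cons (Pq.D 4 (Pq.cons (Pq.L [0,1] 910 (Pf.C 1 0x5091004006))
 (Pq.cons (Pq.L [0,1] 910 (Pf.C 1 0x5091004006))
 (Pq.cons (Pq.L [0,1] 910 (Pf.C 1 0x5091004006))
 (Pq.cons (Pq.L [0,1] 910 (Pf.C 1 0x5091004006))
 (Pq.cons (Pq.L [0,1] 910 (Pf.C 1 0x5091004006))
 (Pq.cons (Pq.L [0,2] 910 (Pf.C 1 0x5091008006))
 (Pq.cons (Pq.L [1,2] 910 (Pf.C 1 0x5091008086))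
 Pq.nil)))))))) (Pq.cons (Pq.L [3,5] 1023 (Pf.B 10 3 (Pf.C 1 0x409141c303) (Pf.B 10 5 (Pf.C 1 0x283141c308) (Pf.C 0 0x1214503))))
 (Pq.cons (Pq.L [3,4,5] 1023 (Pf.B 10 5 (Pf.C 1 0x409141c305) (Pf.B 10 4 (Pf.B 10 3 (Pf.C 1 0x404061c30a) (Pf.C 0 0x81418a)) (Pf.C 0 0x102420a))))
 (Pq.cons (Pq.L [3,5] 1023 (Pf.B 10 5 (Pf.C 1 0x409141c305) (Pf.B 10 3 (Pf.C 1 0x185141c308) (Pf.C 0 0x120c505))))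
 (Pq.cons (Pq.L [2,3,4,5] 1023 (Pf.B 10 5 (Pf.C 1 0x409141c305) (Pf.B 10 3 (Pf.C 1 0x409141c303) (Pf.B 10 4 (Pf.C 0 0x81418a) (Pf.B 10 2 (Pf.C 0 0x41018a) (Pf.C 0 0x1208503))))))
 (Pq.cons (Pq.L [1,2,3,4,5] 1023 (Pf.B 10 5 (Pf.C 1 0x409141c305) (Pf.B 10 3 (Pf.C 1 0x409141c303) (Pf.B 10 4 (Pf.C 0 0x81418a) (Pf.B 10 2 (Pf.C 0 0x41018a) (Pf.B 10 1 (Pf.C 0 0x20c10a) (Pf.C 0 0x1204502)))))))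
 (Pq.cons (Pq.L [0,1,2,3,4,5] 1023 (Pf.B 10 5 (Pf.C 1 0x409141c305) (Pf.B 10 3 (Pf.C 1 0x409141c303) (Pf.B 10 4 (Pf.C 0 0x81418a) (Pf.B 10 2 (Pf.C 0 0x41018a) (Pf.B 10 1 (Pf.C 0 0x20c10a) (Pf.B 10 0 (Pf.C 0 32906) (Pf.C 0 0x1200501))))))))
 Pq.nil)))))))) (Pq.cons (Pq.D 3 (Pq.cons (Pq.D 4 (Pq.cons (Pq.L [0,1] 910 (Pf.C 1 0x5091004006))
 (Pq.cons (Pq.L [0,1] 910 (Pf.C 1 0x5091004006))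
 (Pq.cons (Pq.L [0,1] 910 (Pf.C 1 0x5091004006))
 (Pq.cons (Pq.L [0,1] 910 (Pf.C 1 0x5091004006))
 (Pq.cons (Pq.L [0,1] 910 (Pf.C 1 0x5091004006))
 (Pq.cons (Pq.L [0,2] 910 (Pf.C 1 0x5091008006))
 (Pq.cons (Pq.L [1,2] 910 (Pf.C 1 0x5091008086))
 Pq.nil)))))))) (Pq.cons (Pq.L [4,5] 1023 (Pf.B 10 4 (Pf.C 1 0x409141c304) (Pf.B 10 5 (Pf.C 1 0x284141c308) (Pf.C 0 0x1214504))))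
 (Pq.cons (Pq.L [4,5] 1023 (Pf.B 10 5 (Pf.C 1 0x409141c305) (Pf.B 10 4 (Pf.C 1 0x205141c308) (Pf.C 0 0x1210505))))
 (Pq.cons (Pq.L [3,4,5] 1023 (Pf.B 10 5 (Pf.C 1 0x409141c305) (Pf.B 10 4 (Pf.C 1 0x409141c304) (Pf.B 10 3 (Pf.C 0 0x61420a) (Pf.C 0 0x102418a)))))
 (Pq.cons (Pq.L [2,3,4,5] 1023 (Pf.B 10 5 (Pf.C 1 0x409141c305) (Pf.B 10 4 (Pf.C 1 0x409141c304) (Pf.B 10 3 (Pf.C 0 0x61420a) (Pf.B 10 2 (Pf.C 0 0x41018a) (Pf.C 0 0x1208503))))))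
 (Pq.cons (Pq.L [1,2,3,4,5] 1023 (Pf.B 10 5 (Pf.C 1 0x409141c305) (Pf.B 10 4 (Pf.C 1 0x409141c304) (Pf.B 10 3 (Pf.C 0 0x61420a) (Pf.B 10 2 (Pf.C 0 0x41018a) (Pf.B 10 1 (Pf.C 0 0x20c10a) (Pf.C 0 0x1204502)))))))
 (Pq.cons (Pq.L [0,1,2,3,4,5] 1023 (Pf.B 10 5 (Pf.C 1 0x409141c305) (Pf.B 10 4 (Pf.C 1 0x409141c304) (Pf.B 10 3 (Pf.C 0 0x61420a) (Pf.B 10 2 (Pf.C 0 0x41018a) (Pf.B 10 1 (Pf.C 0 0x20c10a) (Pf.B 10 0 (Pf.C 0 32906) (Pf.C 0 0x1200501))))))))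
 Pq.nil)))))))) (Pq.cons (Pq.D 3 (Pq.cons (Pq.D 4 (Pq.cons (Pq.L [0,1] 910 (Pf.C 1 0x5091004006))
 (Pq.cons (Pq.L [0,1] 910 (Pf.C 1 0x5091004006))
 (Pq.cons (Pq.L [0,1] 910 (Pf.C 1 0x5091004006))
 (Pq.cons (Pq.L [0,1] 910 (Pf.C 1 0x5091004006))
 (Pq.cons (Pq.L [0,1] 910 (Pf.C 1 0x5091004006))
 (Pq.cons (Pq.L [0,3] 910 (Pf.C 1 0x509100c006))
 (Pq.cons (Pq.L [1,3] 910 (Pf.C 1 0x509100c086))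
 Pq.nil)))))))) (Pq.cons (Pq.L [4,5] 1023 (Pf.B 10 4 (Pf.C 1 0x409141c304) (Pf.B 10 5 (Pf.C 1 0x284141c308) (Pf.C 0 0x1214504))))
 (Pq.cons (Pq.L [4,5] 1023 (Pf.B 10 5 (Pf.C 1 0x409141c305) (Pf.B 10 4 (Pf.C 1 0x205141c308) (Pf.C 0 0x1210505))))
 (Pq.cons (Pq.L [3,4,5] 1023 (Pf.B 10 5 (Pf.C 1 0x409141c305) (Pf.B 10 4 (Pf.C 1 0x409141c304) (Pf.B 10 3 (Pf.C 0 0x61420a) (Pf.C 0 0x120c504)))))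
 (Pq.cons (Pq.L [2,3,4,5] 1023 (Pf.B 10 5 (Pf.C 1 0x409141c305) (Pf.B 10 4 (Pf.C 1 0x409141c304) (Pf.B 10 3 (Pf.C 0 0x61420a) (Pf.B 10 2 (Pf.C 0 0x41018a) (Pf.C 0 0x102410a))))))
 (Pq.cons (Pq.L [1,2,3,4,5] 1023 (Pf.B 10 5 (Pf.C 1 0x409141c305) (Pf.B 10 4 (Pf.C 1 0x409141c304) (Pf.B 10 3 (Pf.C 0 0x61420a) (Pf.B 10 2 (Pf.C 0 0x41018a) (Pf.B 10 1 (Pf.C 0 0x20c10a) (Pf.C 0 0x1204502)))))))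
 (Pq.cons (Pq.L [0,1,2,3,4,5] 1023 (Pf.B 10 5 (Pf.C 1 0x409141c305) (Pf.B 10 4 (Pf.C 1 0x409141c304) (Pf.B 10 3 (Pf.C 0 0x61420a) (Pf.B 10 2 (Pf.C 0 0x41018a) (Pf.B 10 1 (Pf.C 0 0x20c10a) (Pf.B 10 0 (Pf.C 0 32906) (Pf.C 0 0x1200501))))))))
 Pq.nil)))))))) (Pq.cons (Pq.D 3 (Pq.cons (Pq.D 4 (Pq.cons (Pq.L [0,2] 910 (Pf.C 1 0x5091008006))
 (Pq.cons (Pq.L [0,2] 910 (Pf.C 1 0x5091008006))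
 (Pq.cons (Pq.L [0,2] 910 (Pf.C 1 0x5091008006))
 (Pq.cons (Pq.L [0,2] 910 (Pf.C 1 0x5091008006))
 (Pq.cons (Pq.L [0,3] 910 (Pf.C 1 0x509100c006))
 (Pq.cons (Pq.L [0,2] 910 (Pf.C 1 0x5091008006))
 (Pq.cons (Pq.L [2,3] 910 (Pf.C 1 0x509100c106))
 Pq.nil)))))))) (Pq.cons (Pq.L [4,5] 1023 (Pf.B 10 4 (Pf.C 1 0x409141c304) (Pf.B 10 5 (Pf.C 1 0x284141c308) (Pf.C 0 0x1214504))))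
 (Pq.cons (Pq.L [4,5] 1023 (Pf.B 10 5 (Pf.C 1 0x409141c305) (Pf.B 10 4 (Pf.C 1 0x205141c308) (Pf.C 0 0x1210505))))
 (Pq.cons (Pq.L [3,4,5] 1023 (Pf.B 10 5 (Pf.C 1 0x409141c305) (Pf.B 10 4 (Pf.C 1 0x409141c304) (Pf.B 10 3 (Pf.C 0 0x61420a) (Pf.C 0 0x120c504)))))
 (Pq.cons (Pq.L [2,3,4,5] 1023 (Pf.B 10 5 (Pf.C 1 0x409141c305) (Pf.B 10 4 (Pf.C 1 0x409141c304) (Pf.B 10 3 (Pf.C 0 0x61420a) (Pf.B 10 2 (Pf.C 0 0x41018a) (Pf.C 0 0x1208503))))))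
 (Pq.cons (Pq.L [1,2,3,4,5] 1023 (Pf.B 10 5 (Pf.C 1 0x409141c305) (Pf.B 10 4 (Pf.C 1 0x409141c304) (Pf.B 10 3 (Pf.C 0 0x61420a) (Pf.B 10 2 (Pf.C 0 0x41018a) (Pf.B 10 1 (Pf.C 0 0x20c10a) (Pf.C 0 0x102408a)))))))
 (Pq.cons (Pq.L [0,1,2,3,4,5] 1023 (Pf.B 10 5 (Pf.C 1 0x409141c305) (Pf.B 10 4 (Pf.C 1 0x409141c304) (Pf.B 10 3 (Pf.C 0 0x61420a) (Pf.B 10 2 (Pf.C 0 0x41018a) (Pf.B 10 1 (Pf.C 0 0x20c10a) (Pf.B 10 0 (Pf.C 0 32906) (Pf.C 0 0x1200501))))))))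
 Pq.nil)))))))) (Pq.cons (Pq.D 3 (Pq.cons (Pq.D 4 (Pq.cons (Pq.L [1,2] 910 (Pf.C 1 0x5091008086))
 (Pq.cons (Pq.L [1,2] 910 (Pf.C 1 0x5091008086))
 (Pq.cons (Pq.L [1,2] 910 (Pf.C 1 0x5091008086))
 (Pq.cons (Pq.L [1,2] 910 (Pf.C 1 0x5091008086))
 (Pq.cons (Pq.L [1,3] 910 (Pf.C 1 0x509100c086))
 (Pq.cons (Pq.L [2,3] 910 (Pf.C 1 0x509100c106))
 (Pq.cons (Pq.L [1,2] 910 (Pf.C 1 0x5091008086))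
 Pq.nil)))))))) (Pq.cons (Pq.L [4,5] 1023 (Pf.B 10 4 (Pf.C 1 0x409141c304) (Pf.B 10 5 (Pf.C 1 0x284141c308) (Pf.C 0 0x1214504))))
 (Pq.cons (Pq.L [4,5] 1023 (Pf.B 10 5 (Pf.C 1 0x409141c305) (Pf.B 10 4 (Pf.C 1 0x205141c308) (Pf.C 0 0x1210505))))
 (Pq.cons (Pq.L [3,4,5] 1023 (Pf.B 10 5 (Pf.C 1 0x409141c305) (Pf.B 10 4 (Pf.C 1 0x409141c304) (Pf.B 10 3 (Pf.C 0 0x61420a) (Pf.C 0 0x120c504)))))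
 (Pq.cons (Pq.L [2,3,4,5] 1023 (Pf.B 10 5 (Pf.C 1 0x409141c305) (Pf.B 10 4 (Pf.C 1 0x409141c304) (Pf.B 10 3 (Pf.C 0 0x61420a) (Pf.B 10 2 (Pf.C 0 0x41018a) (Pf.C 0 0x1208503))))))
 (Pq.cons (Pq.L [1,2,3,4,5] 1023 (Pf.B 10 5 (Pf.C 1 0x409141c305) (Pf.B 10 4 (Pf.C 1 0x409141c304) (Pf.B 10 3 (Pf.C 0 0x61420a) (Pf.B 10 2 (Pf.C 0 0x41018a) (Pf.B 10 1 (Pf.C 0 0x20c10a) (Pf.C 0 0x1204502)))))))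
 (Pq.cons (Pq.L [0,1,2,3,4,5] 1023 (Pf.B 10 5 (Pf.C 1 0x409141c305) (Pf.B 10 4 (Pf.C 1 0x409141c304) (Pf.B 10 3 (Pf.C 0 0x61420a) (Pf.B 10 2 (Pf.C 0 0x41018a) (Pf.B 10 1 (Pf.C 0 0x20c10a) (Pf.B 10 0 (Pf.C 0 32906) (Pf.C 0 0x102400a))))))))
 Pq.nil)))))))) Pq.nil)))))))) (Pq.cons (Pq.D 2 (Pq.cons (Pq.D 3 (Pq.cons (Pq.D 4 (Pq.cons (Pq.L [0,1] 910 (Pf.C 1 0x5091004006))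
 (Pq.cons (Pq.L [0,1] 910 (Pf.C 1 0x5091004006))
 (Pq.cons (Pq.L [0,1] 910 (Pf.C 1 0x5091004006))
 (Pq.cons (Pq.L [0,1] 910 (Pf.C 1 0x5091004006))
 (Pq.cons (Pq.L [0,1] 910 (Pf.C 1 0x5091004006))
 (Pq.cons (Pq.L [0,2] 910 (Pf.C 1 0x5091008006))
 (Pq.cons (Pq.L [1,2] 910 (Pf.C 1 0x5091008086))
 Pq.nil)))))))) (Pq.cons (Pq.L [4,5] 1023 (Pf.B 10 4 (Pf.C 1 0x409141c304) (Pf.B 10 5 (Pf.C 1 0x284141c308) (Pf.C 0 0x1214504))))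
 (Pq.cons (Pq.L [4,5] 1023 (Pf.B 10 5 (Pf.C 1 0x409141c305) (Pf.B 10 4 (Pf.C 1 0x205141c308) (Pf.C 0 0x1210505))))
 (Pq.cons (Pq.L [3,4,5] 1023 (Pf.B 10 5 (Pf.C 1 0x409141c305) (Pf.B 10 4 (Pf.C 1 0x409141c304) (Pf.B 10 3 (Pf.C 0 0x61420a) (Pf.C 0 0x120c504)))))
 (Pq.cons (Pq.L [2,3,4,5] 1023 (Pf.B 10 5 (Pf.C 1 0x409141c305) (Pf.B 10 4 (Pf.C 1 0x409141c304) (Pf.B 10 3 (Pf.C 0 0x61420a) (Pf.B 10 2 (Pf.C 0 0x41018a) (Pf.C 0 0x1208503))))))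
 (Pq.cons (Pq.L [1,2,3,4,5] 1023 (Pf.B 10 5 (Pf.C 1 0x409141c305) (Pf.B 10 4 (Pf.C 1 0x409141c304) (Pf.B 10 3 (Pf.C 0 0x61420a) (Pf.B 10 2 (Pf.C 0 0x41018a) (Pf.B 10 1 (Pf.C 0 0x20c10a) (Pf.C 0 0x1204502)))))))
 (Pq.cons (Pq.L [0,1,2,3,4,5] 1023 (Pf.B 10 5 (Pf.C 1 0x409141c305) (Pf.B 10 4 (Pf.C 1 0x409141c304) (Pf.B 10 3 (Pf.C 0 0x61420a) (Pf.B 10 2 (Pf.C 0 0x41018a) (Pf.B 10 1 (Pf.C 0 0x20c10a) (Pf.B 10 0 (Pf.C 0 32906) (Pf.C 0 0x1200501))))))))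
 Pq.nil)))))))) (Pq.cons (Pq.D 3 (Pq.cons (Pq.D 4 (Pq.cons (Pq.L [0,1] 910 (Pf.C 1 0x5091004006))
 (Pq.cons (Pq.L [0,1] 910 (Pf.C 1 0x5091004006))
 (Pq.cons (Pq.L [0,1] 910 (Pf.C 1 0x5091004006))
 (Pq.cons (Pq.L [0,1] 910 (Pf.C 1 0x5091004006))
 (Pq.cons (Pq.L [0,1] 910 (Pf.C 1 0x5091004006))
 (Pq.cons (Pq.L [0,2] 910 (Pf.C 1 0x5091008006))
 (Pq.cons (Pq.L [1,2] 910 (Pf.C 1 0x5091008086))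
 Pq.nil)))))))) (Pq.cons (Pq.L [3,4,5] 987 (Pf.B 10 5 (Pf.B 10 4 (Pf.C 1 0x405081c30a) (Pf.B 10 3 (Pf.C 1 0x405061c30a) (Pf.C 0 0xa1018a))) (Pf.C 0 0x102428a)))
 (Pq.cons (Pq.L [3,4] 1023 (Pf.B 10 3 (Pf.C 1 0x409141c303) (Pf.B 10 4 (Pf.C 1 0x203141c308) (Pf.C 0 0x1210503))))
 (Pq.cons (Pq.L [3,4] 1023 (Pf.B 10 4 (Pf.C 1 0x409141c304) (Pf.B 10 3 (Pf.C 1 0x184141c308) (Pf.C 0 0x120c504))))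
 (Pq.cons (Pq.L [2,3,4] 1023 (Pf.B 10 4 (Pf.C 1 0x409141c304) (Pf.B 10 3 (Pf.C 1 0x409141c303) (Pf.B 10 2 (Pf.C 0 0x41018a) (Pf.C 0 0x1208503)))))
 (Pq.cons (Pq.L [1,2,3,4] 1023 (Pf.B 10 4 (Pf.C 1 0x409141c304) (Pf.B 10 3 (Pf.C 1 0x409141c303) (Pf.B 10 2 (Pf.C 0 0x41018a) (Pf.B 10 1 (Pf.C 0 0x20c10a) (Pf.C 0 0x1204502))))))
 (Pq.cons (Pq.L [0,1,2,3,4] 1023 (Pf.B 10 4 (Pf.C 1 0x409141c304) (Pf.B 10 3 (Pf.C 1 0x409141c303) (Pf.B 10 2 (Pf.C 0 0x41018a) (Pf.B 10 1 (Pf.C 0 0x20c10a) (Pf.B 10 0 (Pf.C 0 32906) (Pf.C 0 0x1200501)))))))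
 Pq.nil)))))))) (Pq.cons (Pq.D 3 (Pq.cons (Pq.D 4 (Pq.cons (Pq.L [0,1] 910 (Pf.C 1 0x5091004006))
 (Pq.cons (Pq.L [0,1] 910 (Pf.C 1 0x5091004006))
 (Pq.cons (Pq.L [0,1] 910 (Pf.C 1 0x5091004006))
 (Pq.cons (Pq.L [0,1] 910 (Pf.C 1 0x5091004006))
 (Pq.cons (Pq.L [0,1] 910 (Pf.C 1 0x5091004006))
 (Pq.cons (Pq.L [0,2] 910 (Pf.C 1 0x5091008006))
 (Pq.cons (Pq.L [1,2] 910 (Pf.C 1 0x5091008086))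
 Pq.nil)))))))) (Pq.cons (Pq.L [3,5] 1023 (Pf.B 10 3 (Pf.C 1 0x409141c303) (Pf.B 10 5 (Pf.C 1 0x283141c308) (Pf.C 0 0x1214503))))
 (Pq.cons (Pq.L [3,4,5] 1023 (Pf.B 10 5 (Pf.C 1 0x409141c305) (Pf.B 10 4 (Pf.B 10 3 (Pf.C 1 0x404061c30a) (Pf.C 0 0x81418a)) (Pf.C 0 0x102420a))))
 (Pq.cons (Pq.L [3,5] 1023 (Pf.B 10 5 (Pf.C 1 0x409141c305) (Pf.B 10 3 (Pf.C 1 0x185141c308) (Pf.C 0 0x120c505))))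
 (Pq.cons (Pq.L [2,3,4,5] 1023 (Pf.B 10 5 (Pf.C 1 0x409141c305) (Pf.B 10 3 (Pf.C 1 0x409141c303) (Pf.B 10 4 (Pf.C 0 0x81418a) (Pf.B 10 2 (Pf.C 0 0x41018a) (Pf.C 0 0x1208503))))))
 (Pq.cons (Pq.L [1,2,3,4,5] 1023 (Pf.B 10 5 (Pf.C 1 0x409141c305) (Pf.B 10 3 (Pf.C 1 0x409141c303) (Pf.B 10 4 (Pf.C 0 0x81418a) (Pf.B 10 2 (Pf.C 0 0x41018a) (Pf.B 10 1 (Pf.C 0 0x20c10a) (Pf.C 0 0x1204502)))))))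
 (Pq.cons (Pq.L [0,1,2,3,4,5] 1023 (Pf.B 10 5 (Pf.C 1 0x409141c305) (Pf.B 10 3 (Pf.C 1 0x409141c303) (Pf.B 10 4 (Pf.C 0 0x81418a) (Pf.B 10 2 (Pf.C 0 0x41018a) (Pf.B 10 1 (Pf.C 0 0x20c10a) (Pf.B 10 0 (Pf.C 0 32906) (Pf.C 0 0x1200501))))))))
 Pq.nil)))))))) (Pq.cons (Pq.D 3 (Pq.cons (Pq.D 4 (Pq.cons (Pq.L [0,1] 910 (Pf.C 1 0x5091004006))
 (Pq.cons (Pq.L [0,1] 910 (Pf.C 1 0x5091004006))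
 (Pq.cons (Pq.L [0,1] 910 (Pf.C 1 0x5091004006))
 (Pq.cons (Pq.L [0,1] 910 (Pf.C 1 0x5091004006))
 (Pq.cons (Pq.L [0,1] 910 (Pf.C 1 0x5091004006))
 (Pq.cons (Pq.L [0,2] 910 (Pf.C 1 0x5091008006))
 (Pq.cons (Pq.L [1,2] 910 (Pf.C 1 0x5091008086))
 Pq.nil)))))))) (Pq.cons (Pq.L [4,5] 1023 (Pf.B 10 4 (Pf.C 1 0x409141c304) (Pf.B 10 5 (Pf.C 1 0x284141c308) (Pf.C 0 0x1214504))))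
 (Pq.cons (Pq.L [4,5] 1023 (Pf.B 10 5 (Pf.C 1 0x409141c305) (Pf.B 10 4 (Pf.C 1 0x205141c308) (Pf.C 0 0x1210505))))
 (Pq.cons (Pq.L [3,4,5] 1023 (Pf.B 10 5 (Pf.C 1 0x409141c305) (Pf.B 10 4 (Pf.C 1 0x409141c304) (Pf.B 10 3 (Pf.C 0 0x61420a) (Pf.C 0 0x102418a)))))
 (Pq.cons (Pq.L [2,3,4,5] 1023 (Pf.B 10 5 (Pf.C 1 0x409141c305) (Pf.B 10 4 (Pf.C 1 0x409141c304) (Pf.B 10 3 (Pf.C 0 0x61420a) (Pf.B 10 2 (Pf.C 0 0x41018a) (Pf.C 0 0x1208503))))))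
 (Pq.cons (Pq.L [1,2,3,4,5] 1023 (Pf.B 10 5 (Pf.C 1 0x409141c305) (Pf.B 10 4 (Pf.C 1 0x409141c304) (Pf.B 10 3 (Pf.C 0 0x61420a) (Pf.B 10 2 (Pf.C 0 0x41018a) (Pf.B 10 1 (Pf.C 0 0x20c10a) (Pf.C 0 0x1204502)))))))
 (Pq.cons (Pq.L [0,1,2,3,4,5] 1023 (Pf.B 10 5 (Pf.C 1 0x409141c305) (Pf.B 10 4 (Pf.C 1 0x409141c304) (Pf.B 10 3 (Pf.C 0 0x61420a) (Pf.B 10 2 (Pf.C 0 0x41018a) (Pf.B 10 1 (Pf.C 0 0x20c10a) (Pf.B 10 0 (Pf.C 0 32906) (Pf.C 0 0x1200501))))))))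
 Pq.nil)))))))) (Pq.cons (Pq.D 3 (Pq.cons (Pq.D 4 (Pq.cons (Pq.L [0,1] 910 (Pf.C 1 0x5091004006))
 (Pq.cons (Pq.L [0,1] 910 (Pf.C 1 0x5091004006))
 (Pq.cons (Pq.L [0,1] 910 (Pf.C 1 0x5091004006))
 (Pq.cons (Pq.L [0,1] 910 (Pf.C 1 0x5091004006))
 (Pq.cons (Pq.L [0,1] 910 (Pf.C 1 0x5091004006))
 (Pq.cons (Pq.L [0,3] 910 (Pf.C 1 0x509100c006))
 (Pq.cons (Pq.L [1,3] 910 (Pf.C 1 0x509100c086))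
 Pq.nil)))))))) (Pq.cons (Pq.L [4,5] 1023 (Pf.B 10 4 (Pf.C 1 0x409141c304) (Pf.B 10 5 (Pf.C 1 0x284141c308) (Pf.C 0 0x1214504))))
 (Pq.cons (Pq.L [4,5] 1023 (Pf.B 10 5 (Pf.C 1 0x409141c305) (Pf.B 10 4 (Pf.C 1 0x205141c308) (Pf.C 0 0x1210505))))
 (Pq.cons (Pq.L [3,4,5] 1023 (Pf.B 10 5 (Pf.C 1 0x409141c305) (Pf.B 10 4 (Pf.C 1 0x409141c304) (Pf.B 10 3 (Pf.C 0 0x61420a) (Pf.C 0 0x120c504)))))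
 (Pq.cons (Pq.L [2,3,4,5] 1023 (Pf.B 10 5 (Pf.C 1 0x409141c305) (Pf.B 10 4 (Pf.C 1 0x409141c304) (Pf.B 10 3 (Pf.C 0 0x61420a) (Pf.B 10 2 (Pf.C 0 0x41018a) (Pf.C 0 0x102410a))))))
 (Pq.cons (Pq.L [1,2,3,4,5] 1023 (Pf.B 10 5 (Pf.C 1 0x409141c305) (Pf.B 10 4 (Pf.C 1 0x409141c304) (Pf.B 10 3 (Pf.C 0 0x61420a) (Pf.B 10 2 (Pf.C 0 0x41018a) (Pf.B 10 1 (Pf.C 0 0x20c10a) (Pf.C 0 0x1204502)))))))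
 (Pq.cons (Pq.L [0,1,2,3,4,5] 1023 (Pf.B 10 5 (Pf.C 1 0x409141c305) (Pf.B 10 4 (Pf.C 1 0x409141c304) (Pf.B 10 3 (Pf.C 0 0x61420a) (Pf.B 10 2 (Pf.C 0 0x41018a) (Pf.B 10 1 (Pf.C 0 0x20c10a) (Pf.B 10 0 (Pf.C 0 32906) (Pf.C 0 0x1200501))))))))
 Pq.nil)))))))) (Pq.cons (Pq.D 3 (Pq.cons (Pq.D 4 (Pq.cons (Pq.L [0,2] 910 (Pf.C 1 0x5091008006))
 (Pq.cons (Pq.L [0,2] 910 (Pf.C 1 0x5091008006))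
 (Pq.cons (Pq.L [0,2] 910 (Pf.C 1 0x5091008006))
 (Pq.cons (Pq.L [0,2] 910 (Pf.C 1 0x5091008006))
 (Pq.cons (Pq.L [0,3] 910 (Pf.C 1 0x509100c006))
 (Pq.cons (Pq.L [0,2] 910 (Pf.C 1 0x5091008006))
 (Pq.cons (Pq.L [2,3] 910 (Pf.C 1 0x509100c106))
 Pq.nil)))))))) (Pq.cons (Pq.L [4,5] 1023 (Pf.B 10 4 (Pf.C 1 0x409141c304) (Pf.B 10 5 (Pf.C 1 0x284141c308) (Pf.C 0 0x1214504))))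
 (Pq.cons (Pq.L [4,5] 1023 (Pf.B 10 5 (Pf.C 1 0x409141c305) (Pf.B 10 4 (Pf.C 1 0x205141c308) (Pf.C 0 0x1210505))))
 (Pq.cons (Pq.L [3,4,5] 1023 (Pf.B 10 5 (Pf.C 1 0x409141c305) (Pf.B 10 4 (Pf.C 1 0x409141c304) (Pf.B 10 3 (Pf.C 0 0x61420a) (Pf.C 0 0x120c504)))))
 (Pq.cons (Pq.L [2,3,4,5] 1023 (Pf.B 10 5 (Pf.C 1 0x409141c305) (Pf.B 10 4 (Pf.C 1 0x409141c304) (Pf.B 10 3 (Pf.C 0 0x61420a) (Pf.B 10 2 (Pf.C 0 0x41018a) (Pf.C 0 0x1208503))))))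
 (Pq.cons (Pq.L [1,2,3,4,5] 1023 (Pf.B 10 5 (Pf.C 1 0x409141c305) (Pf.B 10 4 (Pf.C 1 0x409141c304) (Pf.B 10 3 (Pf.C 0 0x61420a) (Pf.B 10 2 (Pf.C 0 0x41018a) (Pf.B 10 1 (Pf.C 0 0x20c10a) (Pf.C 0 0x102408a)))))))
 (Pq.cons (Pq.L [0,1,2,3,4,5] 1023 (Pf.B 10 5 (Pf.C 1 0x409141c305) (Pf.B 10 4 (Pf.C 1 0x409141c304) (Pf.B 10 3 (Pf.C 0 0x61420a) (Pf.B 10 2 (Pf.C 0 0x41018a) (Pf.B 10 1 (Pf.C 0 0x20c10a) (Pf.B 10 0 (Pf.C 0 32906) (Pf.C 0 0x1200501))))))))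
 Pq.nil)))))))) (Pq.cons (Pq.D 3 (Pq.cons (Pq.D 4 (Pq.cons (Pq.L [1,2] 910 (Pf.C 1 0x5091008086))
 (Pq.cons (Pq.L [1,2] 910 (Pf.C 1 0x5091008086))
 (Pq.cons (Pq.L [1,2] 910 (Pf.C 1 0x5091008086))
 (Pq.cons (Pq.L [1,2] 910 (Pf.C 1 0x5091008086))
 (Pq.cons (Pq.L [1,3] 910 (Pf.C 1 0x509100c086))
 (Pq.cons (Pq.L [2,3] 910 (Pf.C 1 0x509100c106))
 (Pq.cons (Pq.L [1,2] 910 (Pf.C 1 0x5091008086))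
 Pq.nil)))))))) (Pq.cons (Pq.L [4,5] 1023 (Pf.B 10 4 (Pf.C 1 0x409141c304) (Pf.B 10 5 (Pf.C 1 0x284141c308) (Pf.C 0 0x1214504))))
 (Pq.cons (Pq.L [4,5] 1023 (Pf.B 10 5 (Pf.C 1 0x409141c305) (Pf.B 10 4 (Pf.C 1 0x205141c308) (Pf.C 0 0x1210505))))
 (Pq.cons (Pq.L [3,4,5] 1023 (Pf.B 10 5 (Pf.C 1 0x409141c305) (Pf.B 10 4 (Pf.C 1 0x409141c304) (Pf.B 10 3 (Pf.C 0 0x61420a) (Pf.C 0 0x120c504)))))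
 (Pq.cons (Pq.L [2,3,4,5] 1023 (Pf.B 10 5 (Pf.C 1 0x409141c305) (Pf.B 10 4 (Pf.C 1 0x409141c304) (Pf.B 10 3 (Pf.C 0 0x61420a) (Pf.B 10 2 (Pf.C 0 0x41018a) (Pf.C 0 0x1208503))))))
 (Pq.cons (Pq.L [1,2,3,4,5] 1023 (Pf.B 10 5 (Pf.C 1 0x409141c305) (Pf.B 10 4 (Pf.C 1 0x409141c304) (Pf.B 10 3 (Pf.C 0 0x61420a) (Pf.B 10 2 (Pf.C 0 0x41018a) (Pf.B 10 1 (Pf.C 0 0x20c10a) (Pf.C 0 0x1204502)))))))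
 (Pq.cons (Pq.L [0,1,2,3,4,5] 1023 (Pf.B 10 5 (Pf.C 1 0x409141c305) (Pf.B 10 4 (Pf.C 1 0x409141c304) (Pf.B 10 3 (Pf.C 0 0x61420a) (Pf.B 10 2 (Pf.C 0 0x41018a) (Pf.B 10 1 (Pf.C 0 0x20c10a) (Pf.B 10 0 (Pf.C 0 32906) (Pf.C 0 0x102400a))))))))
 Pq.nil)))))))) Pq.nil)))))))) (Pq.cons (Pq.D 2 (Pq.cons (Pq.D 3 (Pq.cons (Pq.D 4 (Pq.cons (Pq.L [0,1] 910 (Pf.C 1 0x5091004006))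
 (Pq.cons (Pq.L [0,1] 910 (Pf.C 1 0x5091004006))
 (Pq.cons (Pq.L [0,1] 910 (Pf.C 1 0x5091004006))
 (Pq.cons (Pq.L [0,1] 910 (Pf.C 1 0x5091004006))
 (Pq.cons (Pq.L [0,1] 910 (Pf.C 1 0x5091004006))
 (Pq.cons (Pq.L [0,2] 910 (Pf.C 1 0x5091008006))
 (Pq.cons (Pq.L [1,2] 910 (Pf.C 1 0x5091008086))
 Pq.nil)))))))) (Pq.cons (Pq.L [4,5] 1023 (Pf.B 10 4 (Pf.C 1 0x409141c304) (Pf.B 10 5 (Pf.C 1 0x284141c308) (Pf.C 0 0x1214504))))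
 (Pq.cons (Pq.L [4,5] 1023 (Pf.B 10 5 (Pf.C 1 0x409141c305) (Pf.B 10 4 (Pf.C 1 0x205141c308) (Pf.C 0 0x1210505))))
 (Pq.cons (Pq.L [3,4,5] 1023 (Pf.B 10 5 (Pf.C 1 0x409141c305) (Pf.B 10 4 (Pf.C 1 0x409141c304) (Pf.B 10 3 (Pf.C 0 0x61420a) (Pf.C 0 0x120c504)))))
 (Pq.cons (Pq.L [2,3,4,5] 1023 (Pf.B 10 5 (Pf.C 1 0x409141c305) (Pf.B 10 4 (Pf.C 1 0x409141c304) (Pf.B 10 3 (Pf.C 0 0x61420a) (Pf.B 10 2 (Pf.C 0 0x41018a) (Pf.C 0 0x1208503))))))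
 (Pq.cons (Pq.L [1,2,3,4,5] 1023 (Pf.B 10 5 (Pf.C 1 0x409141c305) (Pf.B 10 4 (Pf.C 1 0x409141c304) (Pf.B 10 3 (Pf.C 0 0x61420a) (Pf.B 10 2 (Pf.C 0 0x41018a) (Pf.B 10 1 (Pf.C 0 0x20c10a) (Pf.C 0 0x1204502)))))))
 (Pq.cons (Pq.L [0,1,2,3,4,5] 1023 (Pf.B 10 5 (Pf.C 1 0x409141c305) (Pf.B 10 4 (Pf.C 1 0x409141c304) (Pf.B 10 3 (Pf.C 0 0x61420a) (Pf.B 10 2 (Pf.C 0 0x41018a) (Pf.B 10 1 (Pf.C 0 0x20c10a) (Pf.B 10 0 (Pf.C 0 32906) (Pf.C 0 0x1200501))))))))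
 Pq.nil)))))))) (Pq.cons (Pq.D 3 (Pq.cons (Pq.D 4 (Pq.cons (Pq.L [0,1] 910 (Pf.C 1 0x5091004006))
 (Pq.cons (Pq.L [0,1] 910 (Pf.C 1 0x5091004006))
 (Pq.cons (Pq.L [0,1] 910 (Pf.C 1 0x5091004006))
 (Pq.cons (Pq.L [0,1] 910 (Pf.C 1 0x5091004006))
 (Pq.cons (Pq.L [0,1] 910 (Pf.C 1 0x5091004006))
 (Pq.cons (Pq.L [0,2] 910 (Pf.C 1 0x5091008006))
 (Pq.cons (Pq.L [1,2] 910 (Pf.C 1 0x5091008086))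
 Pq.nil)))))))) (Pq.cons (Pq.L [3,4,5] 987 (Pf.B 10 5 (Pf.B 10 4 (Pf.C 1 0x405081c30a) (Pf.B 10 3 (Pf.C 1 0x405061c30a) (Pf.C 0 0xa1018a))) (Pf.C 0 0x102428a)))
 (Pq.cons (Pq.L [3,4] 1023 (Pf.B 10 3 (Pf.C 1 0x409141c303) (Pf.B 10 4 (Pf.C 1 0x203141c308) (Pf.C 0 0x1210503))))
 (Pq.cons (Pq.L [3,4] 1023 (Pf.B 10 4 (Pf.C 1 0x409141c304) (Pf.B 10 3 (Pf.C 1 0x184141c308) (Pf.C 0 0x120c504))))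
 (Pq.cons (Pq.L [2,3,4] 1023 (Pf.B 10 4 (Pf.C 1 0x409141c304) (Pf.B 10 3 (Pf.C 1 0x409141c303) (Pf.B 10 2 (Pf.C 0 0x41018a) (Pf.C 0 0x1208503)))))
 (Pq.cons (Pq.L [1,2,3,4] 1023 (Pf.B 10 4 (Pf.C 1 0x409141c304) (Pf.B 10 3 (Pf.C 1 0x409141c303) (Pf.B 10 2 (Pf.C 0 0x41018a) (Pf.B 10 1 (Pf.C 0 0x20c10a) (Pf.C 0 0x1204502))))))
 (Pq.cons (Pq.L [0,1,2,3,4] 1023 (Pf.B 10 4 (Pf.C 1 0x409141c304) (Pf.B 10 3 (Pf.C 1 0x409141c303) (Pf.B 10 2 (Pf.C 0 0x41018a) (Pf.B 10 1 (Pf.C 0 0x20c10a) (Pf.B 10 0 (Pf.C 0 32906) (Pf.C 0 0x1200501)))))))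
 Pq.nil)))))))) (Pq.cons (Pq.D 3 (Pq.cons (Pq.D 4 (Pq.cons (Pq.L [0,1] 910 (Pf.C 1 0x5091004006))
 (Pq.cons (Pq.L [0,1] 910 (Pf.C 1 0x5091004006))
 (Pq.cons (Pq.L [0,1] 910 (Pf.C 1 0x5091004006))
 (Pq.cons (Pq.L [0,1] 910 (Pf.C 1 0x5091004006))
 (Pq.cons (Pq.L [0,1] 910 (Pf.C 1 0x5091004006))
 (Pq.cons (Pq.L [0,2] 910 (Pf.C 1 0x5091008006))
 (Pq.cons (Pq.L [1,2] 910 (Pf.C 1 0x5091008086))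
 Pq.nil)))))))) (Pq.cons (Pq.L [3,5] 1023 (Pf.B 10 3 (Pf.C 1 0x409141c303) (Pf.B 10 5 (Pf.C 1 0x283141c308) (Pf.C 0 0x1214503))))
 (Pq.cons (Pq.L [3,4,5] 1023 (Pf.B 10 5 (Pf.C 1 0x409141c305) (Pf.B 10 4 (Pf.B 10 3 (Pf.C 1 0x404061c30a) (Pf.C 0 0x81418a)) (Pf.C 0 0x102420a))))
 (Pq.cons (Pq.L [3,5] 1023 (Pf.B 10 5 (Pf.C 1 0x409141c305) (Pf.B 10 3 (Pf.C 1 0x185141c308) (Pf.C 0 0x120c505))))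
 (Pq.cons (Pq.L [2,3,4,5] 1023 (Pf.B 10 5 (Pf.C 1 0x409141c305) (Pf.B 10 3 (Pf.C 1 0x409141c303) (Pf.B 10 4 (Pf.C 0 0x81418a) (Pf.B 10 2 (Pf.C 0 0x41018a) (Pf.C 0 0x1208503))))))
 (Pq.cons (Pq.L [1,2,3,4,5] 1023 (Pf.B 10 5 (Pf.C 1 0x409141c305) (Pf.B 10 3 (Pf.C 1 0x409141c303) (Pf.B 10 4 (Pf.C 0 0x81418a) (Pf.B 10 2 (Pf.C 0 0x41018a) (Pf.B 10 1 (Pf.C 0 0x20c10a) (Pf.C 0 0x1204502)))))))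
 (Pq.cons (Pq.L [0,1,2,3,4,5] 1023 (Pf.B 10 5 (Pf.C 1 0x409141c305) (Pf.B 10 3 (Pf.C 1 0x409141c303) (Pf.B 10 4 (Pf.C 0 0x81418a) (Pf.B 10 2 (Pf.C 0 0x41018a) (Pf.B 10 1 (Pf.C 0 0x20c10a) (Pf.B 10 0 (Pf.C 0 32906) (Pf.C 0 0x1200501))))))))
 Pq.nil)))))))) (Pq.cons (Pq.D 3 (Pq.cons (Pq.D 4 (Pq.cons (Pq.L [0,1] 910 (Pf.C 1 0x5091004006))
 (Pq.cons (Pq.L [0,1] 910 (Pf.C 1 0x5091004006))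
 (Pq.cons (Pq.L [0,1] 910 (Pf.C 1 0x5091004006))
 (Pq.cons (Pq.L [0,1] 910 (Pf.C 1 0x5091004006))
 (Pq.cons (Pq.L [0,1] 910 (Pf.C 1 0x5091004006))
 (Pq.cons (Pq.L [0,2] 910 (Pf.C 1 0x5091008006))
 (Pq.cons (Pq.L [1,2] 910 (Pf.C 1 0x5091008086))
 Pq.nil)))))))) (Pq.cons (Pq.L [4,5] 1023 (Pf.B 10 4 (Pf.C 1 0x409141c304) (Pf.B 10 5 (Pf.C 1 0x284141c308) (Pf.C 0 0x1214504))))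
 (Pq.cons (Pq.L [4,5] 1023 (Pf.B 10 5 (Pf.C 1 0x409141c305) (Pf.B 10 4 (Pf.C 1 0x205141c308) (Pf.C 0 0x1210505))))
 (Pq.cons (Pq.L [3,4,5] 1023 (Pf.B 10 5 (Pf.C 1 0x409141c305) (Pf.B 10 4 (Pf.C 1 0x409141c304) (Pf.B 10 3 (Pf.C 0 0x61420a) (Pf.C 0 0x102418a)))))
 (Pq.cons (Pq.L [2,3,4,5] 1023 (Pf.B 10 5 (Pf.C 1 0x409141c305) (Pf.B 10 4 (Pf.C 1 0x409141c304) (Pf.B 10 3 (Pf.C 0 0x61420a) (Pf.B 10 2 (Pf.C 0 0x41018a) (Pf.C 0 0x1208503))))))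
 (Pq.cons (Pq.L [1,2,3,4,5] 1023 (Pf.B 10 5 (Pf.C 1 0x409141c305) (Pf.B 10 4 (Pf.C 1 0x409141c304) (Pf.B 10 3 (Pf.C 0 0x61420a) (Pf.B 10 2 (Pf.C 0 0x41018a) (Pf.B 10 1 (Pf.C 0 0x20c10a) (Pf.C 0 0x1204502)))))))
 (Pq.cons (Pq.L [0,1,2,3,4,5] 1023 (Pf.B 10 5 (Pf.C 1 0x409141c305) (Pf.B 10 4 (Pf.C 1 0x409141c304) (Pf.B 10 3 (Pf.C 0 0x61420a) (Pf.B 10 2 (Pf.C 0 0x41018a) (Pf.B 10 1 (Pf.C 0 0x20c10a) (Pf.B 10 0 (Pf.C 0 32906) (Pf.C 0 0x1200501))))))))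
 Pq.nil)))))))) (Pq.cons (Pq.D 3 (Pq.cons (Pq.D 4 (Pq.cons (Pq.L [0,1] 910 (Pf.C 1 0x5091004006))
 (Pq.cons (Pq.L [0,1] 910 (Pf.C 1 0x5091004006))
 (Pq.cons (Pq.L [0,1] 910 (Pf.C 1 0x5091004006))
 (Pq.cons (Pq.L [0,1] 910 (Pf.C 1 0x5091004006))
 (Pq.cons (Pq.L [0,1] 910 (Pf.C 1 0x5091004006))
 (Pq.cons (Pq.L [0,3] 910 (Pf.C 1 0x509100c006))
 (Pq.cons (Pq.L [1,3] 910 (Pf.C 1 0x509100c086))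
 Pq.nil)))))))) (Pq.cons (Pq.L [4,5] 1023 (Pf.B 10 4 (Pf.C 1 0x409141c304) (Pf.B 10 5 (Pf.C 1 0x284141c308) (Pf.C 0 0x1214504))))
 (Pq.cons (Pq.L [4,5] 1023 (Pf.B 10 5 (Pf.C 1 0x409141c305) (Pf.B 10 4 (Pf.C 1 0x205141c308) (Pf.C 0 0x1210505))))
 (Pq.cons (Pq.L [3,4,5] 1023 (Pf.B 10 5 (Pf.C 1 0x409141c305) (Pf.B 10 4 (Pf.C 1 0x409141c304) (Pf.B 10 3 (Pf.C 0 0x61420a) (Pf.C 0 0x120c504)))))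
 (Pq.cons (Pq.L [2,3,4,5] 1023 (Pf.B 10 5 (Pf.C 1 0x409141c305) (Pf.B 10 4 (Pf.C 1 0x409141c304) (Pf.B 10 3 (Pf.C 0 0x61420a) (Pf.B 10 2 (Pf.C 0 0x41018a) (Pf.C 0 0x102410a))))))
 (Pq.cons (Pq.L [1,2,3,4,5] 1023 (Pf.B 10 5 (Pf.C 1 0x409141c305) (Pf.B 10 4 (Pf.C 1 0x409141c304) (Pf.B 10 3 (Pf.C 0 0x61420a) (Pf.B 10 2 (Pf.C 0 0x41018a) (Pf.B 10 1 (Pf.C 0 0x20c10a) (Pf.C 0 0x1204502)))))))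
 (Pq.cons (Pq.L [0,1,2,3,4,5] 1023 (Pf.B 10 5 (Pf.C 1 0x409141c305) (Pf.B 10 4 (Pf.C 1 0x409141c304) (Pf.B 10 3 (Pf.C 0 0x61420a) (Pf.B 10 2 (Pf.C 0 0x41018a) (Pf.B 10 1 (Pf.C 0 0x20c10a) (Pf.B 10 0 (Pf.C 0 32906) (Pf.C 0 0x1200501))))))))
 Pq.nil)))))))) (Pq.cons (Pq.D 3 (Pq.cons (Pq.D 4 (Pq.cons (Pq.L [0,2] 910 (Pf.C 1 0x5091008006))
 (Pq.cons (Pq.L [0,2] 910 (Pf.C 1 0x5091008006))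
 (Pq.cons (Pq.L [0,2] 910 (Pf.C 1 0x5091008006))
 (Pq.cons (Pq.L [0,2] 910 (Pf.C 1 0x5091008006))
 (Pq.cons (Pq.L [0,3] 910 (Pf.C 1 0x509100c006))
 (Pq.cons (Pq.L [0,2] 910 (Pf.C 1 0x5091008006))
 (Pq.cons (Pq.L [2,3] 910 (Pf.C 1 0x509100c106))
 Pq.nil)))))))) (Pq.cons (Pq.L [4,5] 1023 (Pf.B 10 4 (Pf.C 1 0x409141c304) (Pf.B 10 5 (Pf.C 1 0x284141c308) (Pf.C 0 0x1214504))))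
 (Pq.cons (Pq.L [4,5] 1023 (Pf.B 10 5 (Pf.C 1 0x409141c305) (Pf.B 10 4 (Pf.C 1 0x205141c308) (Pf.C 0 0x1210505))))
 (Pq.cons (Pq.L [3,4,5] 1023 (Pf.B 10 5 (Pf.C 1 0x409141c305) (Pf.B 10 4 (Pf.C 1 0x409141c304) (Pf.B 10 3 (Pf.C 0 0x61420a) (Pf.C 0 0x120c504)))))
 (Pq.cons (Pq.L [2,3,4,5] 1023 (Pf.B 10 5 (Pf.C 1 0x409141c305) (Pf.B 10 4 (Pf.C 1 0x409141c304) (Pf.B 10 3 (Pf.C 0 0x61420a) (Pf.B 10 2 (Pf.C 0 0x41018a) (Pf.C 0 0x1208503))))))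
 (Pq.cons (Pq.L [1,2,3,4,5] 1023 (Pf.B 10 5 (Pf.C 1 0x409141c305) (Pf.B 10 4 (Pf.C 1 0x409141c304) (Pf.B 10 3 (Pf.C 0 0x61420a) (Pf.B 10 2 (Pf.C 0 0x41018a) (Pf.B 10 1 (Pf.C 0 0x20c10a) (Pf.C 0 0x102408a)))))))
 (Pq.cons (Pq.L [0,1,2,3,4,5] 1023 (Pf.B 10 5 (Pf.C 1 0x409141c305) (Pf.B 10 4 (Pf.C 1 0x409141c304) (Pf.B 10 3 (Pf.C 0 0x61420a) (Pf.B 10 2 (Pf.C 0 0x41018a) (Pf.B 10 1 (Pf.C 0 0x20c10a) (Pf.B 10 0 (Pf.C 0 32906) (Pf.C 0 0x1200501))))))))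
 Pq.nil)))))))) (Pq.cons (Pq.D 3 (Pq.cons (Pq.D 4 (Pq.cons (Pq.L [1,2] 910 (Pf.C 1 0x5091008086))
 (Pq.cons (Pq.L [1,2] 910 (Pf.C 1 0x5091008086))
 (Pq.cons (Pq.L [1,2] 910 (Pf.C 1 0x5091008086))
 (Pq.cons (Pq.L [1,2] 910 (Pf.C 1 0x5091008086))
 (Pq.cons (Pq.L [1,3] 910 (Pf.C 1 0x509100c086))
 (Pq.cons (Pq.L [2,3] 910 (Pf.C 1 0x509100c106))
 (Pq.cons (Pq.L [1,2] 910 (Pf.C 1 0x5091008086))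
 Pq.nil)))))))) (Pq.cons (Pq.L [4,5] 1023 (Pf.B 10 4 (Pf.C 1 0x409141c304) (Pf.B 10 5 (Pf.C 1 0x284141c308) (Pf.C 0 0x1214504))))
 (Pq.cons (Pq.L [4,5] 1023 (Pf.B 10 5 (Pf.C 1 0x409141c305) (Pf.B 10 4 (Pf.C 1 0x205141c308) (Pf.C 0 0x1210505))))
 (Pq.cons (Pq.L [3,4,5] 1023 (Pf.B 10 5 (Pf.C 1 0x409141c305) (Pf.B 10 4 (Pf.C 1 0x409141c304) (Pf.B 10 3 (Pf.C 0 0x61420a) (Pf.C 0 0x120c504)))))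
 (Pq.cons (Pq.L [2,3,4,5] 1023 (Pf.B 10 5 (Pf.C 1 0x409141c305) (Pf.B 10 4 (Pf.C 1 0x409141c304) (Pf.B 10 3 (Pf.C 0 0x61420a) (Pf.B 10 2 (Pf.C 0 0x41018a) (Pf.C 0 0x1208503))))))
 (Pq.cons (Pq.L [1,2,3,4,5] 1023 (Pf.B 10 5 (Pf.C 1 0x409141c305) (Pf.B 10 4 (Pf.C 1 0x409141c304) (Pf.B 10 3 (Pf.C 0 0x61420a) (Pf.B 10 2 (Pf.C 0 0x41018a) (Pf.B 10 1 (Pf.C 0 0x20c10a) (Pf.C 0 0x1204502)))))))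
 (Pq.cons (Pq.L [0,1,2,3,4,5] 1023 (Pf.B 10 5 (Pf.C 1 0x409141c305) (Pf.B 10 4 (Pf.C 1 0x409141c304) (Pf.B 10 3 (Pf.C 0 0x61420a) (Pf.B 10 2 (Pf.C 0 0x41018a) (Pf.B 10 1 (Pf.C 0 0x20c10a) (Pf.B 10 0 (Pf.C 0 32906) (Pf.C 0 0x102400a))))))))
 Pq.nil)))))))) Pq.nil)))))))) Pq.nil)))
theorem e_o6 : AllRef e_T e_G4 (List.drop 1 (List.drop 3 (List.flatMap (splitP 1) (List.take 1 (List.take 3 (List.flatMap (splitP 0) [⟨[[5,6,7,8,9,10,11],[5,6,7,8,9,10,11],[5,6,7,8,9,10,11],[5,6,7,8,9,10,11],[5,6,7,8,9,10,11]],[⟨0,1,true⟩,⟨0,2,false⟩,⟨0,3,false⟩,⟨0,4,false⟩,⟨1,2,false⟩,⟨1,3,false⟩,⟨1,4,false⟩,⟨2,3,true⟩,⟨2,4,false⟩,⟨3,4,true⟩],[],[]⟩])))))) :=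
  chkPq_sound e_o6c _ (by decide +kernel)
noncomputable def e_o7c : Pq := (Pq.cons (Pq.D 2 (Pq.cons (Pq.D 3 (Pq.cons (Pq.D 4 (Pq.cons (Pq.L [0,1] 910 (Pf.C 1 0x5091004006))
 (Pq.cons (Pq.L [0,1] 910 (Pf.C 1 0x5091004006))
 (Pq.cons (Pq.L [0,1] 910 (Pf.C 1 0x5091004006))
 (Pq.cons (Pq.L [0,1] 910 (Pf.C 1 0x5091004006))
 (Pq.cons (Pq.L [0,1] 910 (Pf.C 1 0x5091004006))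
 (Pq.cons (Pq.L [0,2] 910 (Pf.C 1 0x5091008006))
 (Pq.cons (Pq.L [1,2] 910 (Pf.C 1 0x5091008086))
 Pq.nil)))))))) (Pq.cons (Pq.L [3,4,5] 1023 (Pf.B 10 4 (Pf.C 1 0x409141c304) (Pf.B 10 5 (Pf.B 10 3 (Pf.C 1 0x409141c303) (Pf.C 0 0xa1018a)) (Pf.C 0 0x1214504))))
 (Pq.cons (Pq.L [3,4] 1023 (Pf.B 10 3 (Pf.C 1 0x409141c303) (Pf.B 10 4 (Pf.C 1 0x203141c308) (Pf.C 0 0x1210503))))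
 (Pq.cons (Pq.L [3,4] 1023 (Pf.B 10 4 (Pf.C 1 0x409141c304) (Pf.B 10 3 (Pf.C 1 0x184141c308) (Pf.C 0 0x120c504))))
 (Pq.cons (Pq.L [2,3,4] 1023 (Pf.B 10 4 (Pf.C 1 0x409141c304) (Pf.B 10 3 (Pf.C 1 0x409141c303) (Pf.B 10 2 (Pf.C 0 0x41018a) (Pf.C 0 0x1208503)))))
 (Pq.cons (Pq.L [1,2,3,4] 1023 (Pf.B 10 4 (Pf.C 1 0x409141c304) (Pf.B 10 3 (Pf.C 1 0x409141c303) (Pf.B 10 2 (Pf.C 0 0x41018a) (Pf.B 10 1 (Pf.C 0 0x20c10a) (Pf.C 0 0x1204502))))))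
 (Pq.cons (Pq.L [0,1,2,3,4] 1023 (Pf.B 10 4 (Pf.C 1 0x409141c304) (Pf.B 10 3 (Pf.C 1 0x409141c303) (Pf.B 10 2 (Pf.C 0 0x41018a) (Pf.B 10 1 (Pf.C 0 0x20c10a) (Pf.B 10 0 (Pf.C 0 32906) (Pf.C 0 0x1200501)))))))
 Pq.nil)))))))) (Pq.cons (Pq.D 3 (Pq.cons (Pq.D 4 (Pq.cons (Pq.L [0,1] 910 (Pf.C 1 0x5091004006))
 (Pq.cons (Pq.L [0,1] 910 (Pf.C 1 0x5091004006))
 (Pq.cons (Pq.L [0,1] 910 (Pf.C 1 0x5091004006))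
 (Pq.cons (Pq.L [0,1] 910 (Pf.C 1 0x5091004006))
 (Pq.cons (Pq.L [0,1] 910 (Pf.C 1 0x5091004006))
 (Pq.cons (Pq.L [0,2] 910 (Pf.C 1 0x5091008006))
 (Pq.cons (Pq.L [1,2] 910 (Pf.C 1 0x5091008086))
 Pq.nil)))))))) (Pq.cons (Pq.L [3,4,5] 1023 (Pf.B 10 5 (Pf.B 10 4 (Pf.C 1 0x409141c304) (Pf.B 10 3 (Pf.C 1 0x409141c303) (Pf.C 0 0xa1018a))) (Pf.C 0 0x102428a)))
 (Pq.cons (Pq.L [3,4] 1023 (Pf.B 10 3 (Pf.C 1 0x409141c303) (Pf.B 10 4 (Pf.C 1 0x203141c308) (Pf.C 0 0x1210503))))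
 (Pq.cons (Pq.L [3,4] 1023 (Pf.B 10 4 (Pf.C 1 0x409141c304) (Pf.B 10 3 (Pf.C 1 0x184141c308) (Pf.C 0 0x120c504))))
 (Pq.cons (Pq.L [2,3,4] 1023 (Pf.B 10 4 (Pf.C 1 0x409141c304) (Pf.B 10 3 (Pf.C 1 0x409141c303) (Pf.B 10 2 (Pf.C 0 0x41018a) (Pf.C 0 0x1208503)))))
 (Pq.cons (Pq.L [1,2,3,4] 1023 (Pf.B 10 4 (Pf.C 1 0x409141c304) (Pf.B 10 3 (Pf.C 1 0x409141c303) (Pf.B 10 2 (Pf.C 0 0x41018a) (Pf.B 10 1 (Pf.C 0 0x20c10a) (Pf.C 0 0x1204502))))))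
 (Pq.cons (Pq.L [0,1,2,3,4] 1023 (Pf.B 10 4 (Pf.C 1 0x409141c304) (Pf.B 10 3 (Pf.C 1 0x409141c303) (Pf.B 10 2 (Pf.C 0 0x41018a) (Pf.B 10 1 (Pf.C 0 0x20c10a) (Pf.B 10 0 (Pf.C 0 32906) (Pf.C 0 0x1200501)))))))
 Pq.nil)))))))) (Pq.cons (Pq.D 3 (Pq.cons (Pq.D 4 (Pq.cons (Pq.L [0,1] 910 (Pf.C 1 0x5091004006))
 (Pq.cons (Pq.L [0,1] 910 (Pf.C 1 0x5091004006))
 (Pq.cons (Pq.L [0,1] 910 (Pf.C 1 0x5091004006))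
 (Pq.cons (Pq.L [0,1] 910 (Pf.C 1 0x5091004006))
 (Pq.cons (Pq.L [0,1] 910 (Pf.C 1 0x5091004006))
 (Pq.cons (Pq.L [0,2] 910 (Pf.C 1 0x5091008006))
 (Pq.cons (Pq.L [1,2] 910 (Pf.C 1 0x5091008086))
 Pq.nil)))))))) (Pq.cons (Pq.L [2,3,4,5] 1023 (Pf.B 10 3 (Pf.C 1 0x409141c303) (Pf.B 10 5 (Pf.B 10 4 (Pf.B 10 2 (Pf.C 1 0x404041c30a) (Pf.C 0 0x80c10a)) (Pf.C 0 0xa0c20a)) (Pf.C 0 0x1214503))))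
 (Pq.cons (Pq.L [2,3,4] 987 (Pf.B 10 4 (Pf.B 10 3 (Pf.C 1 0x404061c30a) (Pf.B 10 2 (Pf.C 1 0x404041c30a) (Pf.C 0 0x80c10a))) (Pf.C 0 0x102420a)))
 (Pq.cons (Pq.L [2,3] 1023 (Pf.B 10 2 (Pf.C 1 0x409141c302) (Pf.B 10 3 (Pf.C 1 0x182141c308) (Pf.C 0 0x120c502))))
 (Pq.cons (Pq.L [2,3] 1023 (Pf.B 10 3 (Pf.C 1 0x409141c303) (Pf.B 10 2 (Pf.C 1 0x103141c308) (Pf.C 0 0x1208503))))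
 (Pq.cons (Pq.L [1,2,3] 1023 (Pf.B 10 3 (Pf.C 1 0x409141c303) (Pf.B 10 2 (Pf.C 1 0x409141c302) (Pf.B 10 1 (Pf.C 0 0x20c10a) (Pf.C 0 0x1204502)))))
 (Pq.cons (Pq.L [0,1,2,3] 1023 (Pf.B 10 3 (Pf.C 1 0x409141c303) (Pf.B 10 2 (Pf.C 1 0x409141c302) (Pf.B 10 1 (Pf.C 0 0x20c10a) (Pf.B 10 0 (Pf.C 0 32906) (Pf.C 0 0x1200501))))))
 Pq.nil)))))))) (Pq.cons (Pq.D 3 (Pq.cons (Pq.D 4 (Pq.cons (Pq.L [0,1] 910 (Pf.C 1 0x5091004006))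
 (Pq.cons (Pq.L [0,1] 910 (Pf.C 1 0x5091004006))
 (Pq.cons (Pq.L [0,1] 910 (Pf.C 1 0x5091004006))
 (Pq.cons (Pq.L [0,1] 910 (Pf.C 1 0x5091004006))
 (Pq.cons (Pq.L [0,1] 910 (Pf.C 1 0x5091004006))
 (Pq.cons (Pq.L [0,2] 910 (Pf.C 1 0x5091008006))
 (Pq.cons (Pq.L [1,2] 910 (Pf.C 1 0x5091008086))
 Pq.nil)))))))) (Pq.cons (Pq.L [2,3,4,5] 1023 (Pf.B 10 4 (Pf.C 1 0x409141c304) (Pf.B 10 5 (Pf.B 10 3 (Pf.B 10 2 (Pf.C 1 0x403041c30a) (Pf.C 0 0x61010a)) (Pf.C 0 0xa1018a)) (Pf.C 0 0x1214504))))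
 (Pq.cons (Pq.L [2,4] 1023 (Pf.B 10 2 (Pf.C 1 0x409141c302) (Pf.B 10 4 (Pf.C 1 0x202141c308) (Pf.C 0 0x1210502))))
 (Pq.cons (Pq.L [2,3,4] 1023 (Pf.B 10 4 (Pf.C 1 0x409141c304) (Pf.B 10 3 (Pf.B 10 2 (Pf.C 1 0x403041c30a) (Pf.C 0 0x61010a)) (Pf.C 0 0x102418a))))
 (Pq.cons (Pq.L [2,4] 1023 (Pf.B 10 4 (Pf.C 1 0x409141c304) (Pf.B 10 2 (Pf.C 1 0x104141c308) (Pf.C 0 0x1208504))))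
 (Pq.cons (Pq.L [1,2,3,4] 1023 (Pf.B 10 4 (Pf.C 1 0x409141c304) (Pf.B 10 2 (Pf.C 1 0x409141c302) (Pf.B 10 3 (Pf.C 0 0x61010a) (Pf.B 10 1 (Pf.C 0 0x20c10a) (Pf.C 0 0x1204502))))))
 (Pq.cons (Pq.L [0,1,2,3,4] 1023 (Pf.B 10 4 (Pf.C 1 0x409141c304) (Pf.B 10 2 (Pf.C 1 0x409141c302) (Pf.B 10 3 (Pf.C 0 0x61010a) (Pf.B 10 1 (Pf.C 0 0x20c10a) (Pf.B 10 0 (Pf.C 0 32906) (Pf.C 0 0x1200501)))))))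
 Pq.nil)))))))) (Pq.cons (Pq.D 3 (Pq.cons (Pq.D 4 (Pq.cons (Pq.L [0,1] 910 (Pf.C 1 0x5091004006))
 (Pq.cons (Pq.L [0,1] 910 (Pf.C 1 0x5091004006))
 (Pq.cons (Pq.L [0,1] 910 (Pf.C 1 0x5091004006))
 (Pq.cons (Pq.L [0,1] 910 (Pf.C 1 0x5091004006))
 (Pq.cons (Pq.L [0,1] 910 (Pf.C 1 0x5091004006))
 (Pq.cons (Pq.L [0,3] 910 (Pf.C 1 0x509100c006))
 (Pq.cons (Pq.L [1,3] 910 (Pf.C 1 0x509100c086))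
 Pq.nil)))))))) (Pq.cons (Pq.L [3,4,5] 1023 (Pf.B 10 4 (Pf.C 1 0x409141c304) (Pf.B 10 5 (Pf.B 10 3 (Pf.C 1 0x409141c303) (Pf.C 0 0xa1018a)) (Pf.C 0 0x1214504))))
 (Pq.cons (Pq.L [3,4] 1023 (Pf.B 10 3 (Pf.C 1 0x409141c303) (Pf.B 10 4 (Pf.C 1 0x203141c308) (Pf.C 0 0x1210503))))
 (Pq.cons (Pq.L [3,4] 1023 (Pf.B 10 4 (Pf.C 1 0x409141c304) (Pf.B 10 3 (Pf.C 1 0x184141c308) (Pf.C 0 0x120c504))))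
 (Pq.cons (Pq.L [2,3,4] 1023 (Pf.B 10 4 (Pf.C 1 0x409141c304) (Pf.B 10 3 (Pf.C 1 0x409141c303) (Pf.B 10 2 (Pf.C 0 0x41018a) (Pf.C 0 0x102410a)))))
 (Pq.cons (Pq.L [1,2,3,4] 1023 (Pf.B 10 4 (Pf.C 1 0x409141c304) (Pf.B 10 3 (Pf.C 1 0x409141c303) (Pf.B 10 2 (Pf.C 0 0x41018a) (Pf.B 10 1 (Pf.C 0 0x20c10a) (Pf.C 0 0x1204502))))))
 (Pq.cons (Pq.L [0,1,2,3,4] 1023 (Pf.B 10 4 (Pf.C 1 0x409141c304) (Pf.B 10 3 (Pf.C 1 0x409141c303) (Pf.B 10 2 (Pf.C 0 0x41018a) (Pf.B 10 1 (Pf.C 0 0x20c10a) (Pf.B 10 0 (Pf.C 0 32906) (Pf.C 0 0x1200501)))))))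
 Pq.nil)))))))) (Pq.cons (Pq.D 3 (Pq.cons (Pq.D 4 (Pq.cons (Pq.L [0,2] 910 (Pf.C 1 0x5091008006))
 (Pq.cons (Pq.L [0,2] 910 (Pf.C 1 0x5091008006))
 (Pq.cons (Pq.L [0,2] 910 (Pf.C 1 0x5091008006))
 (Pq.cons (Pq.L [0,2] 910 (Pf.C 1 0x5091008006))
 (Pq.cons (Pq.L [0,3] 910 (Pf.C 1 0x509100c006))
 (Pq.cons (Pq.L [0,2] 910 (Pf.C 1 0x5091008006))
 (Pq.cons (Pq.L [2,3] 910 (Pf.C 1 0x509100c106))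
 Pq.nil)))))))) (Pq.cons (Pq.L [3,4,5] 1023 (Pf.B 10 4 (Pf.C 1 0x409141c304) (Pf.B 10 5 (Pf.B 10 3 (Pf.C 1 0x409141c303) (Pf.C 0 0xa1018a)) (Pf.C 0 0x1214504))))
 (Pq.cons (Pq.L [3,4] 1023 (Pf.B 10 3 (Pf.C 1 0x409141c303) (Pf.B 10 4 (Pf.C 1 0x203141c308) (Pf.C 0 0x1210503))))
 (Pq.cons (Pq.L [3,4] 1023 (Pf.B 10 4 (Pf.C 1 0x409141c304) (Pf.B 10 3 (Pf.C 1 0x184141c308) (Pf.C 0 0x120c504))))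
 (Pq.cons (Pq.L [2,3,4] 1023 (Pf.B 10 4 (Pf.C 1 0x409141c304) (Pf.B 10 3 (Pf.C 1 0x409141c303) (Pf.B 10 2 (Pf.C 0 0x41018a) (Pf.C 0 0x1208503)))))
 (Pq.cons (Pq.L [1,2,3,4] 1023 (Pf.B 10 4 (Pf.C 1 0x409141c304) (Pf.B 10 3 (Pf.C 1 0x409141c303) (Pf.B 10 2 (Pf.C 0 0x41018a) (Pf.B 10 1 (Pf.C 0 0x20c10a) (Pf.C 0 0x102408a))))))
 (Pq.cons (Pq.L [0,1,2,3,4] 1023 (Pf.B 10 4 (Pf.C 1 0x409141c304) (Pf.B 10 3 (Pf.C 1 0x409141c303) (Pf.B 10 2 (Pf.C 0 0x41018a) (Pf.B 10 1 (Pf.C 0 0x20c10a) (Pf.B 10 0 (Pf.C 0 32906) (Pf.C 0 0x1200501)))))))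
 Pq.nil)))))))) (Pq.cons (Pq.D 3 (Pq.cons (Pq.D 4 (Pq.cons (Pq.L [1,2] 910 (Pf.C 1 0x5091008086))
 (Pq.cons (Pq.L [1,2] 910 (Pf.C 1 0x5091008086))
 (Pq.cons (Pq.L [1,2] 910 (Pf.C 1 0x5091008086))
 (Pq.cons (Pq.L [1,2] 910 (Pf.C 1 0x5091008086))
 (Pq.cons (Pq.L [1,3] 910 (Pf.C 1 0x509100c086))
 (Pq.cons (Pq.L [2,3] 910 (Pf.C 1 0x509100c106))
 (Pq.cons (Pq.L [1,2] 910 (Pf.C 1 0x5091008086))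
 Pq.nil)))))))) (Pq.cons (Pq.L [3,4,5] 1023 (Pf.B 10 4 (Pf.C 1 0x409141c304) (Pf.B 10 5 (Pf.B 10 3 (Pf.C 1 0x409141c303) (Pf.C 0 0xa1018a)) (Pf.C 0 0x1214504))))
 (Pq.cons (Pq.L [3,4] 1023 (Pf.B 10 3 (Pf.C 1 0x409141c303) (Pf.B 10 4 (Pf.C 1 0x203141c308) (Pf.C 0 0x1210503))))
 (Pq.cons (Pq.L [3,4] 1023 (Pf.B 10 4 (Pf.C 1 0x409141c304) (Pf.B 10 3 (Pf.C 1 0x184141c308) (Pf.C 0 0x120c504))))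
 (Pq.cons (Pq.L [2,3,4] 1023 (Pf.B 10 4 (Pf.C 1 0x409141c304) (Pf.B 10 3 (Pf.C 1 0x409141c303) (Pf.B 10 2 (Pf.C 0 0x41018a) (Pf.C 0 0x1208503)))))
 (Pq.cons (Pq.L [1,2,3,4] 1023 (Pf.B 10 4 (Pf.C 1 0x409141c304) (Pf.B 10 3 (Pf.C 1 0x409141c303) (Pf.B 10 2 (Pf.C 0 0x41018a) (Pf.B 10 1 (Pf.C 0 0x20c10a) (Pf.C 0 0x1204502))))))
 (Pq.cons (Pq.L [0,1,2,3,4] 1023 (Pf.B 10 4 (Pf.C 1 0x409141c304) (Pf.B 10 3 (Pf.C 1 0x409141c303) (Pf.B 10 2 (Pf.C 0 0x41018a) (Pf.B 10 1 (Pf.C 0 0x20c10a) (Pf.B 10 0 (Pf.C 0 32906) (Pf.C 0 0x102400a)))))))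
 Pq.nil)))))))) Pq.nil)))))))) (Pq.cons (Pq.D 2 (Pq.cons (Pq.D 3 (Pq.cons (Pq.D 4 (Pq.cons (Pq.L [0,1] 910 (Pf.C 1 0x5091004006))
 (Pq.cons (Pq.L [0,1] 910 (Pf.C 1 0x5091004006))
 (Pq.cons (Pq.L [0,1] 910 (Pf.C 1 0x5091004006))
 (Pq.cons (Pq.L [0,1] 910 (Pf.C 1 0x5091004006))
 (Pq.cons (Pq.L [0,1] 910 (Pf.C 1 0x5091004006))
 (Pq.cons (Pq.L [0,2] 910 (Pf.C 1 0x5091008006))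
 (Pq.cons (Pq.L [1,2] 910 (Pf.C 1 0x5091008086))
 Pq.nil)))))))) (Pq.cons (Pq.L [3,4,5] 1023 (Pf.B 10 4 (Pf.C 1 0x409141c304) (Pf.B 10 5 (Pf.B 10 3 (Pf.C 1 0x409141c303) (Pf.C 0 0xa1018a)) (Pf.C 0 0x1214504))))
 (Pq.cons (Pq.L [3,4] 1023 (Pf.B 10 3 (Pf.C 1 0x409141c303) (Pf.B 10 4 (Pf.C 1 0x203141c308) (Pf.C 0 0x1210503))))
 (Pq.cons (Pq.L [3,4] 1023 (Pf.B 10 4 (Pf.C 1 0x409141c304) (Pf.B 10 3 (Pf.C 1 0x184141c308) (Pf.C 0 0x120c504))))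
 (Pq.cons (Pq.L [2,3,4] 1023 (Pf.B 10 4 (Pf.C 1 0x409141c304) (Pf.B 10 3 (Pf.C 1 0x409141c303) (Pf.B 10 2 (Pf.C 0 0x41018a) (Pf.C 0 0x1208503)))))
 (Pq.cons (Pq.L [1,2,3,4] 1023 (Pf.B 10 4 (Pf.C 1 0x409141c304) (Pf.B 10 3 (Pf.C 1 0x409141c303) (Pf.B 10 2 (Pf.C 0 0x41018a) (Pf.B 10 1 (Pf.C 0 0x20c10a) (Pf.C 0 0x1204502))))))
 (Pq.cons (Pq.L [0,1,2,3,4] 1023 (Pf.B 10 4 (Pf.C 1 0x409141c304) (Pf.B 10 3 (Pf.C 1 0x409141c303) (Pf.B 10 2 (Pf.C 0 0x41018a) (Pf.B 10 1 (Pf.C 0 0x20c10a) (Pf.B 10 0 (Pf.C 0 32906) (Pf.C 0 0x1200501)))))))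
 Pq.nil)))))))) (Pq.cons (Pq.D 3 (Pq.cons (Pq.D 4 (Pq.cons (Pq.L [0,1] 910 (Pf.C 1 0x5091004006))
 (Pq.cons (Pq.L [0,1] 910 (Pf.C 1 0x5091004006))
 (Pq.cons (Pq.L [0,1] 910 (Pf.C 1 0x5091004006))
 (Pq.cons (Pq.L [0,1] 910 (Pf.C 1 0x5091004006))
 (Pq.cons (Pq.L [0,1] 910 (Pf.C 1 0x5091004006))
 (Pq.cons (Pq.L [0,2] 910 (Pf.C 1 0x5091008006))
 (Pq.cons (Pq.L [1,2] 910 (Pf.C 1 0x5091008086))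
 Pq.nil)))))))) (Pq.cons (Pq.L [3,4,5] 1023 (Pf.B 10 5 (Pf.B 10 4 (Pf.C 1 0x409141c304) (Pf.B 10 3 (Pf.C 1 0x409141c303) (Pf.C 0 0xa1018a))) (Pf.C 0 0x102428a)))
 (Pq.cons (Pq.L [3,4] 1023 (Pf.B 10 3 (Pf.C 1 0x409141c303) (Pf.B 10 4 (Pf.C 1 0x203141c308) (Pf.C 0 0x1210503))))
 (Pq.cons (Pq.L [3,4] 1023 (Pf.B 10 4 (Pf.C 1 0x409141c304) (Pf.B 10 3 (Pf.C 1 0x184141c308) (Pf.C 0 0x120c504))))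
 (Pq.cons (Pq.L [2,3,4] 1023 (Pf.B 10 4 (Pf.C 1 0x409141c304) (Pf.B 10 3 (Pf.C 1 0x409141c303) (Pf.B 10 2 (Pf.C 0 0x41018a) (Pf.C 0 0x1208503)))))
 (Pq.cons (Pq.L [1,2,3,4] 1023 (Pf.B 10 4 (Pf.C 1 0x409141c304) (Pf.B 10 3 (Pf.C 1 0x409141c303) (Pf.B 10 2 (Pf.C 0 0x41018a) (Pf.B 10 1 (Pf.C 0 0x20c10a) (Pf.C 0 0x1204502))))))
 (Pq.cons (Pq.L [0,1,2,3,4] 1023 (Pf.B 10 4 (Pf.C 1 0x409141c304) (Pf.B 10 3 (Pf.C 1 0x409141c303) (Pf.B 10 2 (Pf.C 0 0x41018a) (Pf.B 10 1 (Pf.C 0 0x20c10a) (Pf.B 10 0 (Pf.C 0 32906) (Pf.C 0 0x1200501)))))))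
 Pq.nil)))))))) (Pq.cons (Pq.D 3 (Pq.cons (Pq.D 4 (Pq.cons (Pq.L [0,1] 910 (Pf.C 1 0x5091004006))
 (Pq.cons (Pq.L [0,1] 910 (Pf.C 1 0x5091004006))
 (Pq.cons (Pq.L [0,1] 910 (Pf.C 1 0x5091004006))
 (Pq.cons (Pq.L [0,1] 910 (Pf.C 1 0x5091004006))
 (Pq.cons (Pq.L [0,1] 910 (Pf.C 1 0x5091004006))
 (Pq.cons (Pq.L [0,2] 910 (Pf.C 1 0x5091008006))
 (Pq.cons (Pq.L [1,2] 910 (Pf.C 1 0x5091008086))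
 Pq.nil)))))))) (Pq.cons (Pq.L [2,3,4,5] 1023 (Pf.B 10 3 (Pf.C 1 0x409141c303) (Pf.B 10 5 (Pf.B 10 4 (Pf.B 10 2 (Pf.C 1 0x404041c30a) (Pf.C 0 0x80c10a)) (Pf.C 0 0xa0c20a)) (Pf.C 0 0x1214503))))
 (Pq.cons (Pq.L [2,3,4] 987 (Pf.B 10 4 (Pf.B 10 3 (Pf.C 1 0x404061c30a) (Pf.B 10 2 (Pf.C 1 0x404041c30a) (Pf.C 0 0x80c10a))) (Pf.C 0 0x102420a)))
 (Pq.cons (Pq.L [2,3] 1023 (Pf.B 10 2 (Pf.C 1 0x409141c302) (Pf.B 10 3 (Pf.C 1 0x182141c308) (Pf.C 0 0x120c502))))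
 (Pq.cons (Pq.L [2,3] 1023 (Pf.B 10 3 (Pf.C 1 0x409141c303) (Pf.B 10 2 (Pf.C 1 0x103141c308) (Pf.C 0 0x1208503))))
 (Pq.cons (Pq.L [1,2,3] 1023 (Pf.B 10 3 (Pf.C 1 0x409141c303) (Pf.B 10 2 (Pf.C 1 0x409141c302) (Pf.B 10 1 (Pf.C 0 0x20c10a) (Pf.C 0 0x1204502)))))
 (Pq.cons (Pq.L [0,1,2,3] 1023 (Pf.B 10 3 (Pf.C 1 0x409141c303) (Pf.B 10 2 (Pf.C 1 0x409141c302) (Pf.B 10 1 (Pf.C 0 0x20c10a) (Pf.B 10 0 (Pf.C 0 32906) (Pf.C 0 0x1200501))))))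
 Pq.nil)))))))) (Pq.cons (Pq.D 3 (Pq.cons (Pq.D 4 (Pq.cons (Pq.L [0,1] 910 (Pf.C 1 0x5091004006))
 (Pq.cons (Pq.L [0,1] 910 (Pf.C 1 0x5091004006))
 (Pq.cons (Pq.L [0,1] 910 (Pf.C 1 0x5091004006))
 (Pq.cons (Pq.L [0,1] 910 (Pf.C 1 0x5091004006))
 (Pq.cons (Pq.L [0,1] 910 (Pf.C 1 0x5091004006))
 (Pq.cons (Pq.L [0,2] 910 (Pf.C 1 0x5091008006))
 (Pq.cons (Pq.L [1,2] 910 (Pf.C 1 0x5091008086))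
 Pq.nil)))))))) (Pq.cons (Pq.L [2,3,4,5] 1023 (Pf.B 10 4 (Pf.C 1 0x409141c304) (Pf.B 10 5 (Pf.B 10 3 (Pf.B 10 2 (Pf.C 1 0x403041c30a) (Pf.C 0 0x61010a)) (Pf.C 0 0xa1018a)) (Pf.C 0 0x1214504))))
 (Pq.cons (Pq.L [2,4] 1023 (Pf.B 10 2 (Pf.C 1 0x409141c302) (Pf.B 10 4 (Pf.C 1 0x202141c308) (Pf.C 0 0x1210502))))
 (Pq.cons (Pq.L [2,3,4] 1023 (Pf.B 10 4 (Pf.C 1 0x409141c304) (Pf.B 10 3 (Pf.B 10 2 (Pf.C 1 0x403041c30a) (Pf.C 0 0x61010a)) (Pf.C 0 0x102418a))))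
 (Pq.cons (Pq.L [2,4] 1023 (Pf.B 10 4 (Pf.C 1 0x409141c304) (Pf.B 10 2 (Pf.C 1 0x104141c308) (Pf.C 0 0x1208504))))
 (Pq.cons (Pq.L [1,2,3,4] 1023 (Pf.B 10 4 (Pf.C 1 0x409141c304) (Pf.B 10 2 (Pf.C 1 0x409141c302) (Pf.B 10 3 (Pf.C 0 0x61010a) (Pf.B 10 1 (Pf.C 0 0x20c10a) (Pf.C 0 0x1204502))))))
 (Pq.cons (Pq.L [0,1,2,3,4] 1023 (Pf.B 10 4 (Pf.C 1 0x409141c304) (Pf.B 10 2 (Pf.C 1 0x409141c302) (Pf.B 10 3 (Pf.C 0 0x61010a) (Pf.B 10 1 (Pf.C 0 0x20c10a) (Pf.B 10 0 (Pf.C 0 32906) (Pf.C 0 0x1200501)))))))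
 Pq.nil)))))))) (Pq.cons (Pq.D 3 (Pq.cons (Pq.D 4 (Pq.cons (Pq.L [0,1] 910 (Pf.C 1 0x5091004006))
 (Pq.cons (Pq.L [0,1] 910 (Pf.C 1 0x5091004006))
 (Pq.cons (Pq.L [0,1] 910 (Pf.C 1 0x5091004006))
 (Pq.cons (Pq.L [0,1] 910 (Pf.C 1 0x5091004006))
 (Pq.cons (Pq.L [0,1] 910 (Pf.C 1 0x5091004006))
 (Pq.cons (Pq.L [0,3] 910 (Pf.C 1 0x509100c006))
 (Pq.cons (Pq.L [1,3] 910 (Pf.C 1 0x509100c086))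
 Pq.nil)))))))) (Pq.cons (Pq.L [3,4,5] 1023 (Pf.B 10 4 (Pf.C 1 0x409141c304) (Pf.B 10 5 (Pf.B 10 3 (Pf.C 1 0x409141c303) (Pf.C 0 0xa1018a)) (Pf.C 0 0x1214504))))
 (Pq.cons (Pq.L [3,4] 1023 (Pf.B 10 3 (Pf.C 1 0x409141c303) (Pf.B 10 4 (Pf.C 1 0x203141c308) (Pf.C 0 0x1210503))))
 (Pq.cons (Pq.L [3,4] 1023 (Pf.B 10 4 (Pf.C 1 0x409141c304) (Pf.B 10 3 (Pf.C 1 0x184141c308) (Pf.C 0 0x120c504))))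
 (Pq.cons (Pq.L [2,3,4] 1023 (Pf.B 10 4 (Pf.C 1 0x409141c304) (Pf.B 10 3 (Pf.C 1 0x409141c303) (Pf.B 10 2 (Pf.C 0 0x41018a) (Pf.C 0 0x102410a)))))
 (Pq.cons (Pq.L [1,2,3,4] 1023 (Pf.B 10 4 (Pf.C 1 0x409141c304) (Pf.B 10 3 (Pf.C 1 0x409141c303) (Pf.B 10 2 (Pf.C 0 0x41018a) (Pf.B 10 1 (Pf.C 0 0x20c10a) (Pf.C 0 0x1204502))))))
 (Pq.cons (Pq.L [0,1,2,3,4] 1023 (Pf.B 10 4 (Pf.C 1 0x409141c304) (Pf.B 10 3 (Pf.C 1 0x409141c303) (Pf.B 10 2 (Pf.C 0 0x41018a) (Pf.B 10 1 (Pf.C 0 0x20c10a) (Pf.B 10 0 (Pf.C 0 32906) (Pf.C 0 0x1200501)))))))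
 Pq.nil)))))))) (Pq.cons (Pq.D 3 (Pq.cons (Pq.D 4 (Pq.cons (Pq.L [0,2] 910 (Pf.C 1 0x5091008006))
 (Pq.cons (Pq.L [0,2] 910 (Pf.C 1 0x5091008006))
 (Pq.cons (Pq.L [0,2] 910 (Pf.C 1 0x5091008006))
 (Pq.cons (Pq.L [0,2] 910 (Pf.C 1 0x5091008006))
 (Pq.cons (Pq.L [0,3] 910 (Pf.C 1 0x509100c006))
 (Pq.cons (Pq.L [0,2] 910 (Pf.C 1 0x5091008006))
 (Pq.cons (Pq.L [2,3] 910 (Pf.C 1 0x509100c106))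
 Pq.nil)))))))) (Pq.cons (Pq.L [3,4,5] 1023 (Pf.B 10 4 (Pf.C 1 0x409141c304) (Pf.B 10 5 (Pf.B 10 3 (Pf.C 1 0x409141c303) (Pf.C 0 0xa1018a)) (Pf.C 0 0x1214504))))
 (Pq.cons (Pq.L [3,4] 1023 (Pf.B 10 3 (Pf.C 1 0x409141c303) (Pf.B 10 4 (Pf.C 1 0x203141c308) (Pf.C 0 0x1210503))))
 (Pq.cons (Pq.L [3,4] 1023 (Pf.B 10 4 (Pf.C 1 0x409141c304) (Pf.B 10 3 (Pf.C 1 0x184141c308) (Pf.C 0 0x120c504))))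
 (Pq.cons (Pq.L [2,3,4] 1023 (Pf.B 10 4 (Pf.C 1 0x409141c304) (Pf.B 10 3 (Pf.C 1 0x409141c303) (Pf.B 10 2 (Pf.C 0 0x41018a) (Pf.C 0 0x1208503)))))
 (Pq.cons (Pq.L [1,2,3,4] 1023 (Pf.B 10 4 (Pf.C 1 0x409141c304) (Pf.B 10 3 (Pf.C 1 0x409141c303) (Pf.B 10 2 (Pf.C 0 0x41018a) (Pf.B 10 1 (Pf.C 0 0x20c10a) (Pf.C 0 0x102408a))))))
 (Pq.cons (Pq.L [0,1,2,3,4] 1023 (Pf.B 10 4 (Pf.C 1 0x409141c304) (Pf.B 10 3 (Pf.C 1 0x409141c303) (Pf.B 10 2 (Pf.C 0 0x41018a) (Pf.B 10 1 (Pf.C 0 0x20c10a) (Pf.B 10 0 (Pf.C 0 32906) (Pf.C 0 0x1200501)))))))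
 Pq.nil)))))))) (Pq.cons (Pq.D 3 (Pq.cons (Pq.D 4 (Pq.cons (Pq.L [1,2] 910 (Pf.C 1 0x5091008086))
 (Pq.cons (Pq.L [1,2] 910 (Pf.C 1 0x5091008086))
 (Pq.cons (Pq.L [1,2] 910 (Pf.C 1 0x5091008086))
 (Pq.cons (Pq.L [1,2] 910 (Pf.C 1 0x5091008086))
 (Pq.cons (Pq.L [1,3] 910 (Pf.C 1 0x509100c086))
 (Pq.cons (Pq.L [2,3] 910 (Pf.C 1 0x509100c106))
 (Pq.cons (Pq.L [1,2] 910 (Pf.C 1 0x5091008086))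
 Pq.nil)))))))) (Pq.cons (Pq.L [3,4,5] 1023 (Pf.B 10 4 (Pf.C 1 0x409141c304) (Pf.B 10 5 (Pf.B 10 3 (Pf.C 1 0x409141c303) (Pf.C 0 0xa1018a)) (Pf.C 0 0x1214504))))
 (Pq.cons (Pq.L [3,4] 1023 (Pf.B 10 3 (Pf.C 1 0x409141c303) (Pf.B 10 4 (Pf.C 1 0x203141c308) (Pf.C 0 0x1210503))))
 (Pq.cons (Pq.L [3,4] 1023 (Pf.B 10 4 (Pf.C 1 0x409141c304) (Pf.B 10 3 (Pf.C 1 0x184141c308) (Pf.C 0 0x120c504))))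
 (Pq.cons (Pq.L [2,3,4] 1023 (Pf.B 10 4 (Pf.C 1 0x409141c304) (Pf.B 10 3 (Pf.C 1 0x409141c303) (Pf.B 10 2 (Pf.C 0 0x41018a) (Pf.C 0 0x1208503)))))
 (Pq.cons (Pq.L [1,2,3,4] 1023 (Pf.B 10 4 (Pf.C 1 0x409141c304) (Pf.B 10 3 (Pf.C 1 0x409141c303) (Pf.B 10 2 (Pf.C 0 0x41018a) (Pf.B 10 1 (Pf.C 0 0x20c10a) (Pf.C 0 0x1204502))))))
 (Pq.cons (Pq.L [0,1,2,3,4] 1023 (Pf.B 10 4 (Pf.C 1 0x409141c304) (Pf.B 10 3 (Pf.C 1 0x409141c303) (Pf.B 10 2 (Pf.C 0 0x41018a) (Pf.B 10 1 (Pf.C 0 0x20c10a) (Pf.B 10 0 (Pf.C 0 32906) (Pf.C 0 0x102400a)))))))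
 Pq.nil)))))))) Pq.nil)))))))) (Pq.cons (Pq.D 2 (Pq.cons (Pq.D 3 (Pq.cons (Pq.D 4 (Pq.cons (Pq.L [0,1] 910 (Pf.C 1 0x5091004006))
 (Pq.cons (Pq.L [0,1] 910 (Pf.C 1 0x5091004006))
 (Pq.cons (Pq.L [0,1] 910 (Pf.C 1 0x5091004006))
 (Pq.cons (Pq.L [0,1] 910 (Pf.C 1 0x5091004006))
 (Pq.cons (Pq.L [0,1] 910 (Pf.C 1 0x5091004006))
 (Pq.cons (Pq.L [0,2] 910 (Pf.C 1 0x5091008006))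
 (Pq.cons (Pq.L [1,2] 910 (Pf.C 1 0x5091008086))
 Pq.nil)))))))) (Pq.cons (Pq.L [2,3,4,5] 1023 (Pf.B 10 3 (Pf.C 1 0x409141c303) (Pf.B 10 5 (Pf.B 10 4 (Pf.B 10 2 (Pf.C 1 0x409141c302) (Pf.C 0 0x80c10a)) (Pf.C 0 0xa0c20a)) (Pf.C 0 0x1214503))))
 (Pq.cons (Pq.L [2,3,4] 1023 (Pf.B 10 3 (Pf.C 1 0x409141c303) (Pf.B 10 4 (Pf.B 10 2 (Pf.C 1 0x409141c302) (Pf.C 0 0x80c10a)) (Pf.C 0 0x1210503))))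
 (Pq.cons (Pq.L [2,3] 1023 (Pf.B 10 2 (Pf.C 1 0x409141c302) (Pf.B 10 3 (Pf.C 1 0x182141c308) (Pf.C 0 0x120c502))))
 (Pq.cons (Pq.L [2,3] 1023 (Pf.B 10 3 (Pf.C 1 0x409141c303) (Pf.B 10 2 (Pf.C 1 0x103141c308) (Pf.C 0 0x1208503))))
 (Pq.cons (Pq.L [1,2,3] 1023 (Pf.B 10 3 (Pf.C 1 0x409141c303) (Pf.B 10 2 (Pf.C 1 0x409141c302) (Pf.B 10 1 (Pf.C 0 0x20c10a) (Pf.C 0 0x1204502)))))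
 (Pq.cons (Pq.L [0,1,2,3] 1023 (Pf.B 10 3 (Pf.C 1 0x409141c303) (Pf.B 10 2 (Pf.C 1 0x409141c302) (Pf.B 10 1 (Pf.C 0 0x20c10a) (Pf.B 10 0 (Pf.C 0 32906) (Pf.C 0 0x1200501))))))
 Pq.nil)))))))) (Pq.cons (Pq.D 3 (Pq.cons (Pq.D 4 (Pq.cons (Pq.L [0,1] 910 (Pf.C 1 0x5091004006))
 (Pq.cons (Pq.L [0,1] 910 (Pf.C 1 0x5091004006))
 (Pq.cons (Pq.L [0,1] 910 (Pf.C 1 0x5091004006))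
 (Pq.cons (Pq.L [0,1] 910 (Pf.C 1 0x5091004006))
 (Pq.cons (Pq.L [0,1] 910 (Pf.C 1 0x5091004006))
 (Pq.cons (Pq.L [0,2] 910 (Pf.C 1 0x5091008006))
 (Pq.cons (Pq.L [1,2] 910 (Pf.C 1 0x5091008086))
 Pq.nil)))))))) (Pq.cons (Pq.L [2,3,4,5] 1023 (Pf.B 10 5 (Pf.B 10 3 (Pf.C 1 0x409141c303) (Pf.B 10 4 (Pf.B 10 2 (Pf.C 1 0x409141c302) (Pf.C 0 0x80c10a)) (Pf.C 0 0xa0c20a))) (Pf.C 0 0x102428a)))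
 (Pq.cons (Pq.L [2,3,4] 1023 (Pf.B 10 3 (Pf.C 1 0x409141c303) (Pf.B 10 4 (Pf.B 10 2 (Pf.C 1 0x409141c302) (Pf.C 0 0x80c10a)) (Pf.C 0 0x1210503))))
 (Pq.cons (Pq.L [2,3] 1023 (Pf.B 10 2 (Pf.C 1 0x409141c302) (Pf.B 10 3 (Pf.C 1 0x182141c308) (Pf.C 0 0x120c502))))
 (Pq.cons (Pq.L [2,3] 1023 (Pf.B 10 3 (Pf.C 1 0x409141c303) (Pf.B 10 2 (Pf.C 1 0x103141c308) (Pf.C 0 0x1208503))))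
 (Pq.cons (Pq.L [1,2,3] 1023 (Pf.B 10 3 (Pf.C 1 0x409141c303) (Pf.B 10 2 (Pf.C 1 0x409141c302) (Pf.B 10 1 (Pf.C 0 0x20c10a) (Pf.C 0 0x1204502)))))
 (Pq.cons (Pq.L [0,1,2,3] 1023 (Pf.B 10 3 (Pf.C 1 0x409141c303) (Pf.B 10 2 (Pf.C 1 0x409141c302) (Pf.B 10 1 (Pf.C 0 0x20c10a) (Pf.B 10 0 (Pf.C 0 32906) (Pf.C 0 0x1200501))))))
 Pq.nil)))))))) (Pq.cons (Pq.D 3 (Pq.cons (Pq.D 4 (Pq.cons (Pq.L [0,1] 910 (Pf.C 1 0x5091004006))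
 (Pq.cons (Pq.L [0,1] 910 (Pf.C 1 0x5091004006))
 (Pq.cons (Pq.L [0,1] 910 (Pf.C 1 0x5091004006))
 (Pq.cons (Pq.L [0,1] 910 (Pf.C 1 0x5091004006))
 (Pq.cons (Pq.L [0,1] 910 (Pf.C 1 0x5091004006))
 (Pq.cons (Pq.L [0,2] 910 (Pf.C 1 0x5091008006))
 (Pq.cons (Pq.L [1,2] 910 (Pf.C 1 0x5091008086))
 Pq.nil)))))))) (Pq.cons (Pq.L [2,3,4,5] 1023 (Pf.B 10 3 (Pf.C 1 0x409141c303) (Pf.B 10 5 (Pf.B 10 4 (Pf.B 10 2 (Pf.C 1 0x409141c302) (Pf.C 0 0x80c10a)) (Pf.C 0 0xa0c20a)) (Pf.C 0 0x1214503))))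
 (Pq.cons (Pq.L [2,3,4] 1023 (Pf.B 10 4 (Pf.B 10 3 (Pf.C 1 0x409141c303) (Pf.B 10 2 (Pf.C 1 0x409141c302) (Pf.C 0 0x80c10a))) (Pf.C 0 0x102420a)))
 (Pq.cons (Pq.L [2,3] 1023 (Pf.B 10 2 (Pf.C 1 0x409141c302) (Pf.B 10 3 (Pf.C 1 0x182141c308) (Pf.C 0 0x120c502))))
 (Pq.cons (Pq.L [2,3] 1023 (Pf.B 10 3 (Pf.C 1 0x409141c303) (Pf.B 10 2 (Pf.C 1 0x103141c308) (Pf.C 0 0x1208503))))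
 (Pq.cons (Pq.L [1,2,3] 1023 (Pf.B 10 3 (Pf.C 1 0x409141c303) (Pf.B 10 2 (Pf.C 1 0x409141c302) (Pf.B 10 1 (Pf.C 0 0x20c10a) (Pf.C 0 0x1204502)))))
 (Pq.cons (Pq.L [0,1,2,3] 1023 (Pf.B 10 3 (Pf.C 1 0x409141c303) (Pf.B 10 2 (Pf.C 1 0x409141c302) (Pf.B 10 1 (Pf.C 0 0x20c10a) (Pf.B 10 0 (Pf.C 0 32906) (Pf.C 0 0x1200501))))))
 Pq.nil)))))))) (Pq.cons (Pq.D 3 (Pq.cons (Pq.D 4 (Pq.cons (Pq.L [0,1] 910 (Pf.C 1 0x5091004006))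
 (Pq.cons (Pq.L [0,1] 910 (Pf.C 1 0x5091004006))
 (Pq.cons (Pq.L [0,1] 910 (Pf.C 1 0x5091004006))
 (Pq.cons (Pq.L [0,1] 910 (Pf.C 1 0x5091004006))
 (Pq.cons (Pq.L [0,1] 910 (Pf.C 1 0x5091004006))
 (Pq.cons (Pq.L [0,2] 910 (Pf.C 1 0x5091008006))
 (Pq.cons (Pq.L [1,2] 910 (Pf.C 1 0x5091008086))
 Pq.nil)))))))) (Pq.cons (Pq.L [1,2,3,4,5] 1023 (Pf.B 10 2 (Pf.C 1 0x409141c302) (Pf.B 10 5 (Pf.B 10 4 (Pf.B 10 3 (Pf.B 10 1 (Pf.C 1 0x403021c30a) (Pf.C 0 0x60808a)) (Pf.C 0 0x80818a)) (Pf.C 0 0xa0820a)) (Pf.C 0 0x1214502))))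
 (Pq.cons (Pq.L [1,2,3,4] 1023 (Pf.B 10 2 (Pf.C 1 0x409141c302) (Pf.B 10 4 (Pf.B 10 3 (Pf.B 10 1 (Pf.C 1 0x403021c30a) (Pf.C 0 0x60808a)) (Pf.C 0 0x80818a)) (Pf.C 0 0x1210502))))
 (Pq.cons (Pq.L [1,2,3] 987 (Pf.B 10 3 (Pf.B 10 2 (Pf.C 1 0x403041c30a) (Pf.B 10 1 (Pf.C 1 0x403021c30a) (Pf.C 0 0x60808a))) (Pf.C 0 0x102418a)))
 (Pq.cons (Pq.L [1,2] 1023 (Pf.B 10 1 (Pf.C 1 0x409141c301) (Pf.B 10 2 (Pf.C 1 0x101141c308) (Pf.C 0 0x1208501))))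
 (Pq.cons (Pq.L [1,2] 1023 (Pf.B 10 2 (Pf.C 1 0x409141c302) (Pf.B 10 1 (Pf.C 1 0x82141c308) (Pf.C 0 0x1204502))))
 (Pq.cons (Pq.L [0,1,2] 1023 (Pf.B 10 2 (Pf.C 1 0x409141c302) (Pf.B 10 1 (Pf.C 1 0x409141c301) (Pf.B 10 0 (Pf.C 0 32906) (Pf.C 0 0x1200501)))))
 Pq.nil)))))))) (Pq.cons (Pq.D 3 (Pq.cons (Pq.D 4 (Pq.cons (Pq.L [0,1] 910 (Pf.C 1 0x5091004006))
 (Pq.cons (Pq.L [0,1] 910 (Pf.C 1 0x5091004006))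
 (Pq.cons (Pq.L [0,1] 910 (Pf.C 1 0x5091004006))
 (Pq.cons (Pq.L [0,1] 910 (Pf.C 1 0x5091004006))
 (Pq.cons (Pq.L [0,1] 910 (Pf.C 1 0x5091004006))
 (Pq.cons (Pq.L [0,3] 910 (Pf.C 1 0x509100c006))
 (Pq.cons (Pq.L [1,3] 910 (Pf.C 1 0x509100c086))
 Pq.nil)))))))) (Pq.cons (Pq.L [1,2,3,4,5] 1023 (Pf.B 10 3 (Pf.C 1 0x409141c303) (Pf.B 10 5 (Pf.B 10 4 (Pf.B 10 2 (Pf.B 10 1 (Pf.C 1 0x402021c30a) (Pf.C 0 0x40c08a)) (Pf.C 0 0x80c10a)) (Pf.C 0 0xa0c20a)) (Pf.C 0 0x1214503))))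
 (Pq.cons (Pq.L [1,2,3,4] 1023 (Pf.B 10 3 (Pf.C 1 0x409141c303) (Pf.B 10 4 (Pf.B 10 2 (Pf.B 10 1 (Pf.C 1 0x402021c30a) (Pf.C 0 0x40c08a)) (Pf.C 0 0x80c10a)) (Pf.C 0 0x1210503))))
 (Pq.cons (Pq.L [1,3] 1023 (Pf.B 10 1 (Pf.C 1 0x409141c301) (Pf.B 10 3 (Pf.C 1 0x181141c308) (Pf.C 0 0x120c501))))
 (Pq.cons (Pq.L [1,2,3] 1023 (Pf.B 10 3 (Pf.C 1 0x409141c303) (Pf.B 10 2 (Pf.B 10 1 (Pf.C 1 0x402021c30a) (Pf.C 0 0x40c08a)) (Pf.C 0 0x102410a))))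
 (Pq.cons (Pq.L [1,3] 1023 (Pf.B 10 3 (Pf.C 1 0x409141c303) (Pf.B 10 1 (Pf.C 1 0x83141c308) (Pf.C 0 0x1204503))))
 (Pq.cons (Pq.L [0,1,2,3] 1023 (Pf.B 10 3 (Pf.C 1 0x409141c303) (Pf.B 10 1 (Pf.C 1 0x409141c301) (Pf.B 10 2 (Pf.C 0 0x40c08a) (Pf.B 10 0 (Pf.C 0 32906) (Pf.C 0 0x1200501))))))
 Pq.nil)))))))) (Pq.cons (Pq.D 3 (Pq.cons (Pq.D 4 (Pq.cons (Pq.L [0,2] 910 (Pf.C 1 0x5091008006))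
 (Pq.cons (Pq.L [0,2] 910 (Pf.C 1 0x5091008006))
 (Pq.cons (Pq.L [0,2] 910 (Pf.C 1 0x5091008006))
 (Pq.cons (Pq.L [0,2] 910 (Pf.C 1 0x5091008006))
 (Pq.cons (Pq.L [0,3] 910 (Pf.C 1 0x509100c006))
 (Pq.cons (Pq.L [0,2] 910 (Pf.C 1 0x5091008006))
 (Pq.cons (Pq.L [2,3] 910 (Pf.C 1 0x509100c106))
 Pq.nil)))))))) (Pq.cons (Pq.L [2,3,4,5] 1023 (Pf.B 10 3 (Pf.C 1 0x409141c303) (Pf.B 10 5 (Pf.B 10 4 (Pf.B 10 2 (Pf.C 1 0x409141c302) (Pf.C 0 0x80c10a)) (Pf.C 0 0xa0c20a)) (Pf.C 0 0x1214503))))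
 (Pq.cons (Pq.L [2,3,4] 1023 (Pf.B 10 3 (Pf.C 1 0x409141c303) (Pf.B 10 4 (Pf.B 10 2 (Pf.C 1 0x409141c302) (Pf.C 0 0x80c10a)) (Pf.C 0 0x1210503))))
 (Pq.cons (Pq.L [2,3] 1023 (Pf.B 10 2 (Pf.C 1 0x409141c302) (Pf.B 10 3 (Pf.C 1 0x182141c308) (Pf.C 0 0x120c502))))
 (Pq.cons (Pq.L [2,3] 1023 (Pf.B 10 3 (Pf.C 1 0x409141c303) (Pf.B 10 2 (Pf.C 1 0x103141c308) (Pf.C 0 0x1208503))))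
 (Pq.cons (Pq.L [1,2,3] 1023 (Pf.B 10 3 (Pf.C 1 0x409141c303) (Pf.B 10 2 (Pf.C 1 0x409141c302) (Pf.B 10 1 (Pf.C 0 0x20c10a) (Pf.C 0 0x102408a)))))
 (Pq.cons (Pq.L [0,1,2,3] 1023 (Pf.B 10 3 (Pf.C 1 0x409141c303) (Pf.B 10 2 (Pf.C 1 0x409141c302) (Pf.B 10 1 (Pf.C 0 0x20c10a) (Pf.B 10 0 (Pf.C 0 32906) (Pf.C 0 0x1200501))))))
 Pq.nil)))))))) (Pq.cons (Pq.D 3 (Pq.cons (Pq.D 4 (Pq.cons (Pq.L [1,2] 910 (Pf.C 1 0x5091008086))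
 (Pq.cons (Pq.L [1,2] 910 (Pf.C 1 0x5091008086))
 (Pq.cons (Pq.L [1,2] 910 (Pf.C 1 0x5091008086))
 (Pq.cons (Pq.L [1,2] 910 (Pf.C 1 0x5091008086))
 (Pq.cons (Pq.L [1,3] 910 (Pf.C 1 0x509100c086))
 (Pq.cons (Pq.L [2,3] 910 (Pf.C 1 0x509100c106))
 (Pq.cons (Pq.L [1,2] 910 (Pf.C 1 0x5091008086))
 Pq.nil)))))))) (Pq.cons (Pq.L [2,3,4,5] 1023 (Pf.B 10 3 (Pf.C 1 0x409141c303) (Pf.B 10 5 (Pf.B 10 4 (Pf.B 10 2 (Pf.C 1 0x409141c302) (Pf.C 0 0x80c10a)) (Pf.C 0 0xa0c20a)) (Pf.C 0 0x1214503))))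
 (Pq.cons (Pq.L [2,3,4] 1023 (Pf.B 10 3 (Pf.C 1 0x409141c303) (Pf.B 10 4 (Pf.B 10 2 (Pf.C 1 0x409141c302) (Pf.C 0 0x80c10a)) (Pf.C 0 0x1210503))))
 (Pq.cons (Pq.L [2,3] 1023 (Pf.B 10 2 (Pf.C 1 0x409141c302) (Pf.B 10 3 (Pf.C 1 0x182141c308) (Pf.C 0 0x120c502))))
 (Pq.cons (Pq.L [2,3] 1023 (Pf.B 10 3 (Pf.C 1 0x409141c303) (Pf.B 10 2 (Pf.C 1 0x103141c308) (Pf.C 0 0x1208503))))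
 (Pq.cons (Pq.L [1,2,3] 1023 (Pf.B 10 3 (Pf.C 1 0x409141c303) (Pf.B 10 2 (Pf.C 1 0x409141c302) (Pf.B 10 1 (Pf.C 0 0x20c10a) (Pf.C 0 0x1204502)))))
 (Pq.cons (Pq.L [0,1,2,3] 1023 (Pf.B 10 3 (Pf.C 1 0x409141c303) (Pf.B 10 2 (Pf.C 1 0x409141c302) (Pf.B 10 1 (Pf.C 0 0x20c10a) (Pf.B 10 0 (Pf.C 0 32906) (Pf.C 0 0x102400a))))))
 Pq.nil)))))))) Pq.nil)))))))) Pq.nil)))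
theorem e_o7 : AllRef e_T e_G4 (List.take 3 (List.flatMap (splitP 1) (List.take 1 (List.drop 1 (List.take 3 (List.flatMap (splitP 0) [⟨[[5,6,7,8,9,10,11],[5,6,7,8,9,10,11],[5,6,7,8,9,10,11],[5,6,7,8,9,10,11],[5,6,7,8,9,10,11]],[⟨0,1,true⟩,⟨0,2,false⟩,⟨0,3,false⟩,⟨0,4,false⟩,⟨1,2,false⟩,⟨1,3,false⟩,⟨1,4,false⟩,⟨2,3,true⟩,⟨2,4,false⟩,⟨3,4,true⟩],[],[]⟩])))))) :=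
  chkPq_sound e_o7c _ (by decide +kernel)
noncomputable def e_o8c : Pq := (Pq.cons (Pq.D 2 (Pq.cons (Pq.D 3 (Pq.cons (Pq.D 4 (Pq.cons (Pq.L [0,1] 910 (Pf.C 1 0x5091004006))
 (Pq.cons (Pq.L [0,1] 910 (Pf.C 1 0x5091004006))
 (Pq.cons (Pq.L [0,1] 910 (Pf.C 1 0x5091004006))
 (Pq.cons (Pq.L [0,1] 910 (Pf.C 1 0x5091004006))
 (Pq.cons (Pq.L [0,1] 910 (Pf.C 1 0x5091004006))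
 (Pq.cons (Pq.L [0,2] 910 (Pf.C 1 0x5091008006))
 (Pq.cons (Pq.L [1,2] 910 (Pf.C 1 0x5091008086))
 Pq.nil)))))))) (Pq.cons (Pq.L [2,3,4,5] 1023 (Pf.B 10 4 (Pf.C 1 0x409141c304) (Pf.B 10 5 (Pf.B 10 3 (Pf.B 10 2 (Pf.C 1 0x409141c302) (Pf.C 0 0x61010a)) (Pf.C 0 0xa1018a)) (Pf.C 0 0x1214504))))
 (Pq.cons (Pq.L [2,4] 1023 (Pf.B 10 2 (Pf.C 1 0x409141c302) (Pf.B 10 4 (Pf.C 1 0x202141c308) (Pf.C 0 0x1210502))))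
 (Pq.cons (Pq.L [2,3,4] 1023 (Pf.B 10 4 (Pf.C 1 0x409141c304) (Pf.B 10 3 (Pf.B 10 2 (Pf.C 1 0x409141c302) (Pf.C 0 0x61010a)) (Pf.C 0 0x120c504))))
 (Pq.cons (Pq.L [2,4] 1023 (Pf.B 10 4 (Pf.C 1 0x409141c304) (Pf.B 10 2 (Pf.C 1 0x104141c308) (Pf.C 0 0x1208504))))
 (Pq.cons (Pq.L [1,2,3,4] 1023 (Pf.B 10 4 (Pf.C 1 0x409141c304) (Pf.B 10 2 (Pf.C 1 0x409141c302) (Pf.B 10 3 (Pf.C 0 0x61010a) (Pf.B 10 1 (Pf.C 0 0x20c10a) (Pf.C 0 0x1204502))))))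
 (Pq.cons (Pq.L [0,1,2,3,4] 1023 (Pf.B 10 4 (Pf.C 1 0x409141c304) (Pf.B 10 2 (Pf.C 1 0x409141c302) (Pf.B 10 3 (Pf.C 0 0x61010a) (Pf.B 10 1 (Pf.C 0 0x20c10a) (Pf.B 10 0 (Pf.C 0 32906) (Pf.C 0 0x1200501)))))))
 Pq.nil)))))))) (Pq.cons (Pq.D 3 (Pq.cons (Pq.D 4 (Pq.cons (Pq.L [0,1] 910 (Pf.C 1 0x5091004006))
 (Pq.cons (Pq.L [0,1] 910 (Pf.C 1 0x5091004006))
 (Pq.cons (Pq.L [0,1] 910 (Pf.C 1 0x5091004006))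
 (Pq.cons (Pq.L [0,1] 910 (Pf.C 1 0x5091004006))
 (Pq.cons (Pq.L [0,1] 910 (Pf.C 1 0x5091004006))
 (Pq.cons (Pq.L [0,2] 910 (Pf.C 1 0x5091008006))
 (Pq.cons (Pq.L [1,2] 910 (Pf.C 1 0x5091008086))
 Pq.nil)))))))) (Pq.cons (Pq.L [2,3,4,5] 1023 (Pf.B 10 5 (Pf.B 10 4 (Pf.C 1 0x409141c304) (Pf.B 10 3 (Pf.B 10 2 (Pf.C 1 0x409141c302) (Pf.C 0 0x61010a)) (Pf.C 0 0xa1018a))) (Pf.C 0 0x102428a)))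
 (Pq.cons (Pq.L [2,4] 1023 (Pf.B 10 2 (Pf.C 1 0x409141c302) (Pf.B 10 4 (Pf.C 1 0x202141c308) (Pf.C 0 0x1210502))))
 (Pq.cons (Pq.L [2,3,4] 1023 (Pf.B 10 4 (Pf.C 1 0x409141c304) (Pf.B 10 3 (Pf.B 10 2 (Pf.C 1 0x409141c302) (Pf.C 0 0x61010a)) (Pf.C 0 0x120c504))))
 (Pq.cons (Pq.L [2,4] 1023 (Pf.B 10 4 (Pf.C 1 0x409141c304) (Pf.B 10 2 (Pf.C 1 0x104141c308) (Pf.C 0 0x1208504))))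
 (Pq.cons (Pq.L [1,2,3,4] 1023 (Pf.B 10 4 (Pf.C 1 0x409141c304) (Pf.B 10 2 (Pf.C 1 0x409141c302) (Pf.B 10 3 (Pf.C 0 0x61010a) (Pf.B 10 1 (Pf.C 0 0x20c10a) (Pf.C 0 0x1204502))))))
 (Pq.cons (Pq.L [0,1,2,3,4] 1023 (Pf.B 10 4 (Pf.C 1 0x409141c304) (Pf.B 10 2 (Pf.C 1 0x409141c302) (Pf.B 10 3 (Pf.C 0 0x61010a) (Pf.B 10 1 (Pf.C 0 0x20c10a) (Pf.B 10 0 (Pf.C 0 32906) (Pf.C 0 0x1200501)))))))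
 Pq.nil)))))))) (Pq.cons (Pq.D 3 (Pq.cons (Pq.D 4 (Pq.cons (Pq.L [0,1] 910 (Pf.C 1 0x5091004006))
 (Pq.cons (Pq.L [0,1] 910 (Pf.C 1 0x5091004006))
 (Pq.cons (Pq.L [0,1] 910 (Pf.C 1 0x5091004006))
 (Pq.cons (Pq.L [0,1] 910 (Pf.C 1 0x5091004006))
 (Pq.cons (Pq.L [0,1] 910 (Pf.C 1 0x5091004006))
 (Pq.cons (Pq.L [0,2] 910 (Pf.C 1 0x5091008006))
 (Pq.cons (Pq.L [1,2] 910 (Pf.C 1 0x5091008086))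
 Pq.nil)))))))) (Pq.cons (Pq.L [1,2,3,4,5] 1023 (Pf.B 10 2 (Pf.C 1 0x409141c302) (Pf.B 10 5 (Pf.B 10 4 (Pf.B 10 3 (Pf.B 10 1 (Pf.C 1 0x404021c30a) (Pf.C 0 0x60808a)) (Pf.C 0 0x80818a)) (Pf.C 0 0xa0820a)) (Pf.C 0 0x1214502))))
 (Pq.cons (Pq.L [1,2,3,4] 987 (Pf.B 10 4 (Pf.B 10 2 (Pf.C 1 0x404041c30a) (Pf.B 10 3 (Pf.B 10 1 (Pf.C 1 0x404021c30a) (Pf.C 0 0x60808a)) (Pf.C 0 0x80818a))) (Pf.C 0 0x102420a)))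
 (Pq.cons (Pq.L [1,2,3,4] 1023 (Pf.B 10 2 (Pf.C 1 0x409141c302) (Pf.B 10 3 (Pf.B 10 4 (Pf.B 10 1 (Pf.C 1 0x404021c30a) (Pf.C 0 0x60808a)) (Pf.C 0 0x60820a)) (Pf.C 0 0x120c502))))
 (Pq.cons (Pq.L [1,2] 1023 (Pf.B 10 1 (Pf.C 1 0x409141c301) (Pf.B 10 2 (Pf.C 1 0x101141c308) (Pf.C 0 0x1208501))))
 (Pq.cons (Pq.L [1,2] 1023 (Pf.B 10 2 (Pf.C 1 0x409141c302) (Pf.B 10 1 (Pf.C 1 0x82141c308) (Pf.C 0 0x1204502))))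
 (Pq.cons (Pq.L [0,1,2] 1023 (Pf.B 10 2 (Pf.C 1 0x409141c302) (Pf.B 10 1 (Pf.C 1 0x409141c301) (Pf.B 10 0 (Pf.C 0 32906) (Pf.C 0 0x1200501)))))
 Pq.nil)))))))) (Pq.cons (Pq.D 3 (Pq.cons (Pq.D 4 (Pq.cons (Pq.L [0,1] 910 (Pf.C 1 0x5091004006))
 (Pq.cons (Pq.L [0,1] 910 (Pf.C 1 0x5091004006))
 (Pq.cons (Pq.L [0,1] 910 (Pf.C 1 0x5091004006))
 (Pq.cons (Pq.L [0,1] 910 (Pf.C 1 0x5091004006))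
 (Pq.cons (Pq.L [0,1] 910 (Pf.C 1 0x5091004006))
 (Pq.cons (Pq.L [0,2] 910 (Pf.C 1 0x5091008006))
 (Pq.cons (Pq.L [1,2] 910 (Pf.C 1 0x5091008086))
 Pq.nil)))))))) (Pq.cons (Pq.L [2,3,4,5] 1023 (Pf.B 10 4 (Pf.C 1 0x409141c304) (Pf.B 10 5 (Pf.B 10 3 (Pf.B 10 2 (Pf.C 1 0x409141c302) (Pf.C 0 0x61010a)) (Pf.C 0 0xa1018a)) (Pf.C 0 0x1214504))))
 (Pq.cons (Pq.L [2,4] 1023 (Pf.B 10 2 (Pf.C 1 0x409141c302) (Pf.B 10 4 (Pf.C 1 0x202141c308) (Pf.C 0 0x1210502))))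
 (Pq.cons (Pq.L [2,3,4] 1023 (Pf.B 10 4 (Pf.C 1 0x409141c304) (Pf.B 10 3 (Pf.B 10 2 (Pf.C 1 0x409141c302) (Pf.C 0 0x61010a)) (Pf.C 0 0x102418a))))
 (Pq.cons (Pq.L [2,4] 1023 (Pf.B 10 4 (Pf.C 1 0x409141c304) (Pf.B 10 2 (Pf.C 1 0x104141c308) (Pf.C 0 0x1208504))))
 (Pq.cons (Pq.L [1,2,3,4] 1023 (Pf.B 10 4 (Pf.C 1 0x409141c304) (Pf.B 10 2 (Pf.C 1 0x409141c302) (Pf.B 10 3 (Pf.C 0 0x61010a) (Pf.B 10 1 (Pf.C 0 0x20c10a) (Pf.C 0 0x1204502))))))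
 (Pq.cons (Pq.L [0,1,2,3,4] 1023 (Pf.B 10 4 (Pf.C 1 0x409141c304) (Pf.B 10 2 (Pf.C 1 0x409141c302) (Pf.B 10 3 (Pf.C 0 0x61010a) (Pf.B 10 1 (Pf.C 0 0x20c10a) (Pf.B 10 0 (Pf.C 0 32906) (Pf.C 0 0x1200501)))))))
 Pq.nil)))))))) (Pq.cons (Pq.D 3 (Pq.cons (Pq.D 4 (Pq.cons (Pq.L [0,1] 910 (Pf.C 1 0x5091004006))
 (Pq.cons (Pq.L [0,1] 910 (Pf.C 1 0x5091004006))
 (Pq.cons (Pq.L [0,1] 910 (Pf.C 1 0x5091004006))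
 (Pq.cons (Pq.L [0,1] 910 (Pf.C 1 0x5091004006))
 (Pq.cons (Pq.L [0,1] 910 (Pf.C 1 0x5091004006))
 (Pq.cons (Pq.L [0,3] 910 (Pf.C 1 0x509100c006))
 (Pq.cons (Pq.L [1,3] 910 (Pf.C 1 0x509100c086))
 Pq.nil)))))))) (Pq.cons (Pq.L [1,2,3,4,5] 1023 (Pf.B 10 4 (Pf.C 1 0x409141c304) (Pf.B 10 5 (Pf.B 10 3 (Pf.B 10 2 (Pf.B 10 1 (Pf.C 1 0x402021c30a) (Pf.C 0 0x41008a)) (Pf.C 0 0x61010a)) (Pf.C 0 0xa1018a)) (Pf.C 0 0x1214504))))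
 (Pq.cons (Pq.L [1,4] 1023 (Pf.B 10 1 (Pf.C 1 0x409141c301) (Pf.B 10 4 (Pf.C 1 0x201141c308) (Pf.C 0 0x1210501))))
 (Pq.cons (Pq.L [1,2,3,4] 1023 (Pf.B 10 4 (Pf.C 1 0x409141c304) (Pf.B 10 3 (Pf.B 10 2 (Pf.B 10 1 (Pf.C 1 0x402021c30a) (Pf.C 0 0x41008a)) (Pf.C 0 0x61010a)) (Pf.C 0 0x120c504))))
 (Pq.cons (Pq.L [1,2,4] 1023 (Pf.B 10 4 (Pf.C 1 0x409141c304) (Pf.B 10 2 (Pf.B 10 1 (Pf.C 1 0x402021c30a) (Pf.C 0 0x41008a)) (Pf.C 0 0x102410a))))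
 (Pq.cons (Pq.L [1,4] 1023 (Pf.B 10 4 (Pf.C 1 0x409141c304) (Pf.B 10 1 (Pf.C 1 0x84141c308) (Pf.C 0 0x1204504))))
 (Pq.cons (Pq.L [0,1,2,3,4] 1023 (Pf.B 10 4 (Pf.C 1 0x409141c304) (Pf.B 10 1 (Pf.C 1 0x409141c301) (Pf.B 10 3 (Pf.C 0 0x61008a) (Pf.B 10 2 (Pf.C 0 0x40c08a) (Pf.B 10 0 (Pf.C 0 32906) (Pf.C 0 0x1200501)))))))
 Pq.nil)))))))) (Pq.cons (Pq.D 3 (Pq.cons (Pq.D 4 (Pq.cons (Pq.L [0,2] 910 (Pf.C 1 0x5091008006))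
 (Pq.cons (Pq.L [0,2] 910 (Pf.C 1 0x5091008006))
 (Pq.cons (Pq.L [0,2] 910 (Pf.C 1 0x5091008006))
 (Pq.cons (Pq.L [0,2] 910 (Pf.C 1 0x5091008006))
 (Pq.cons (Pq.L [0,3] 910 (Pf.C 1 0x509100c006))
 (Pq.cons (Pq.L [0,2] 910 (Pf.C 1 0x5091008006))
 (Pq.cons (Pq.L [2,3] 910 (Pf.C 1 0x509100c106))
 Pq.nil)))))))) (Pq.cons (Pq.L [2,3,4,5] 1023 (Pf.B 10 4 (Pf.C 1 0x409141c304) (Pf.B 10 5 (Pf.B 10 3 (Pf.B 10 2 (Pf.C 1 0x409141c302) (Pf.C 0 0x61010a)) (Pf.C 0 0xa1018a)) (Pf.C 0 0x1214504))))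
 (Pq.cons (Pq.L [2,4] 1023 (Pf.B 10 2 (Pf.C 1 0x409141c302) (Pf.B 10 4 (Pf.C 1 0x202141c308) (Pf.C 0 0x1210502))))
 (Pq.cons (Pq.L [2,3,4] 1023 (Pf.B 10 4 (Pf.C 1 0x409141c304) (Pf.B 10 3 (Pf.B 10 2 (Pf.C 1 0x409141c302) (Pf.C 0 0x61010a)) (Pf.C 0 0x120c504))))
 (Pq.cons (Pq.L [2,4] 1023 (Pf.B 10 4 (Pf.C 1 0x409141c304) (Pf.B 10 2 (Pf.C 1 0x104141c308) (Pf.C 0 0x1208504))))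
 (Pq.cons (Pq.L [1,2,3,4] 1023 (Pf.B 10 4 (Pf.C 1 0x409141c304) (Pf.B 10 2 (Pf.C 1 0x409141c302) (Pf.B 10 3 (Pf.C 0 0x61010a) (Pf.B 10 1 (Pf.C 0 0x20c10a) (Pf.C 0 0x102408a))))))
 (Pq.cons (Pq.L [0,1,2,3,4] 1023 (Pf.B 10 4 (Pf.C 1 0x409141c304) (Pf.B 10 2 (Pf.C 1 0x409141c302) (Pf.B 10 3 (Pf.C 0 0x61010a) (Pf.B 10 1 (Pf.C 0 0x20c10a) (Pf.B 10 0 (Pf.C 0 32906) (Pf.C 0 0x1200501)))))))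
 Pq.nil)))))))) (Pq.cons (Pq.D 3 (Pq.cons (Pq.D 4 (Pq.cons (Pq.L [1,2] 910 (Pf.C 1 0x5091008086))
 (Pq.cons (Pq.L [1,2] 910 (Pf.C 1 0x5091008086))
 (Pq.cons (Pq.L [1,2] 910 (Pf.C 1 0x5091008086))
 (Pq.cons (Pq.L [1,2] 910 (Pf.C 1 0x5091008086))
 (Pq.cons (Pq.L [1,3] 910 (Pf.C 1 0x509100c086))
 (Pq.cons (Pq.L [2,3] 910 (Pf.C 1 0x509100c106))
 (Pq.cons (Pq.L [1,2] 910 (Pf.C 1 0x5091008086))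
 Pq.nil)))))))) (Pq.cons (Pq.L [2,3,4,5] 1023 (Pf.B 10 4 (Pf.C 1 0x409141c304) (Pf.B 10 5 (Pf.B 10 3 (Pf.B 10 2 (Pf.C 1 0x409141c302) (Pf.C 0 0x61010a)) (Pf.C 0 0xa1018a)) (Pf.C 0 0x1214504))))
 (Pq.cons (Pq.L [2,4] 1023 (Pf.B 10 2 (Pf.C 1 0x409141c302) (Pf.B 10 4 (Pf.C 1 0x202141c308) (Pf.C 0 0x1210502))))
 (Pq.cons (Pq.L [2,3,4] 1023 (Pf.B 10 4 (Pf.C 1 0x409141c304) (Pf.B 10 3 (Pf.B 10 2 (Pf.C 1 0x409141c302) (Pf.C 0 0x61010a)) (Pf.C 0 0x120c504))))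
 (Pq.cons (Pq.L [2,4] 1023 (Pf.B 10 4 (Pf.C 1 0x409141c304) (Pf.B 10 2 (Pf.C 1 0x104141c308) (Pf.C 0 0x1208504))))
 (Pq.cons (Pq.L [1,2,3,4] 1023 (Pf.B 10 4 (Pf.C 1 0x409141c304) (Pf.B 10 2 (Pf.C 1 0x409141c302) (Pf.B 10 3 (Pf.C 0 0x61010a) (Pf.B 10 1 (Pf.C 0 0x20c10a) (Pf.C 0 0x1204502))))))
 (Pq.cons (Pq.L [0,1,2,3,4] 1023 (Pf.B 10 4 (Pf.C 1 0x409141c304) (Pf.B 10 2 (Pf.C 1 0x409141c302) (Pf.B 10 3 (Pf.C 0 0x61010a) (Pf.B 10 1 (Pf.C 0 0x20c10a) (Pf.B 10 0 (Pf.C 0 32906) (Pf.C 0 0x102400a)))))))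
 Pq.nil)))))))) Pq.nil)))))))) Pq.nil)
theorem e_o8 : AllRef e_T e_G4 (List.take 1 (List.drop 3 (List.flatMap (splitP 1) (List.take 1 (List.drop 1 (List.take 3 (List.flatMap (splitP 0) [⟨[[5,6,7,8,9,10,11],[5,6,7,8,9,10,11],[5,6,7,8,9,10,11],[5,6,7,8,9,10,11],[5,6,7,8,9,10,11]],[⟨0,1,true⟩,⟨0,2,false⟩,⟨0,3,false⟩,⟨0,4,false⟩,⟨1,2,false⟩,⟨1,3,false⟩,⟨1,4,false⟩,⟨2,3,true⟩,⟨2,4,false⟩,⟨3,4,true⟩],[],[]⟩]))))))) :=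
  chkPq_sound e_o8c _ (by decide +kernel)
noncomputable def e_o9c : Pq := (Pq.cons (Pq.D 2 (Pq.cons (Pq.D 3 (Pq.cons (Pq.D 4 (Pq.cons (Pq.L [0,1] 910 (Pf.C 1 0x5091004006))
 (Pq.cons (Pq.L [0,1] 910 (Pf.C 1 0x5091004006))
 (Pq.cons (Pq.L [0,1] 910 (Pf.C 1 0x5091004006))
 (Pq.cons (Pq.L [0,1] 910 (Pf.C 1 0x5091004006))
 (Pq.cons (Pq.L [0,1] 910 (Pf.C 1 0x5091004006))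
 (Pq.cons (Pq.L [0,2] 910 (Pf.C 1 0x5091008006))
 (Pq.cons (Pq.L [1,2] 910 (Pf.C 1 0x5091008086))
 Pq.nil)))))))) (Pq.cons (Pq.L [3,4,5] 1023 (Pf.B 10 4 (Pf.C 1 0x409141c304) (Pf.B 10 5 (Pf.B 10 3 (Pf.C 1 0x409141c303) (Pf.C 0 0xa1018a)) (Pf.C 0 0x1214504))))
 (Pq.cons (Pq.L [3,4] 1023 (Pf.B 10 3 (Pf.C 1 0x409141c303) (Pf.B 10 4 (Pf.C 1 0x203141c308) (Pf.C 0 0x1210503))))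
 (Pq.cons (Pq.L [3,4] 1023 (Pf.B 10 4 (Pf.C 1 0x409141c304) (Pf.B 10 3 (Pf.C 1 0x184141c308) (Pf.C 0 0x120c504))))
 (Pq.cons (Pq.L [2,3,4] 1023 (Pf.B 10 4 (Pf.C 1 0x409141c304) (Pf.B 10 3 (Pf.C 1 0x409141c303) (Pf.B 10 2 (Pf.C 0 0x41018a) (Pf.C 0 0x1208503)))))
 (Pq.cons (Pq.L [1,2,3,4] 1023 (Pf.B 10 4 (Pf.C 1 0x409141c304) (Pf.B 10 3 (Pf.C 1 0x409141c303) (Pf.B 10 2 (Pf.C 0 0x41018a) (Pf.B 10 1 (Pf.C 0 0x20c10a) (Pf.C 0 0x1204502))))))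
 (Pq.cons (Pq.L [0,1,2,3,4] 1023 (Pf.B 10 4 (Pf.C 1 0x409141c304) (Pf.B 10 3 (Pf.C 1 0x409141c303) (Pf.B 10 2 (Pf.C 0 0x41018a) (Pf.B 10 1 (Pf.C 0 0x20c10a) (Pf.B 10 0 (Pf.C 0 32906) (Pf.C 0 0x1200501)))))))
 Pq.nil)))))))) (Pq.cons (Pq.D 3 (Pq.cons (Pq.D 4 (Pq.cons (Pq.L [0,1] 910 (Pf.C 1 0x5091004006))
 (Pq.cons (Pq.L [0,1] 910 (Pf.C 1 0x5091004006))
 (Pq.cons (Pq.L [0,1] 910 (Pf.C 1 0x5091004006))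
 (Pq.cons (Pq.L [0,1] 910 (Pf.C 1 0x5091004006))
 (Pq.cons (Pq.L [0,1] 910 (Pf.C 1 0x5091004006))
 (Pq.cons (Pq.L [0,2] 910 (Pf.C 1 0x5091008006))
 (Pq.cons (Pq.L [1,2] 910 (Pf.C 1 0x5091008086))
 Pq.nil)))))))) (Pq.cons (Pq.L [3,4,5] 1023 (Pf.B 10 5 (Pf.B 10 4 (Pf.C 1 0x409141c304) (Pf.B 10 3 (Pf.C 1 0x409141c303) (Pf.C 0 0xa1018a))) (Pf.C 0 0x102428a)))
 (Pq.cons (Pq.L [3,4] 1023 (Pf.B 10 3 (Pf.C 1 0x409141c303) (Pf.B 10 4 (Pf.C 1 0x203141c308) (Pf.C 0 0x1210503))))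
 (Pq.cons (Pq.L [3,4] 1023 (Pf.B 10 4 (Pf.C 1 0x409141c304) (Pf.B 10 3 (Pf.C 1 0x184141c308) (Pf.C 0 0x120c504))))
 (Pq.cons (Pq.L [2,3,4] 1023 (Pf.B 10 4 (Pf.C 1 0x409141c304) (Pf.B 10 3 (Pf.C 1 0x409141c303) (Pf.B 10 2 (Pf.C 0 0x41018a) (Pf.C 0 0x1208503)))))
 (Pq.cons (Pq.L [1,2,3,4] 1023 (Pf.B 10 4 (Pf.C 1 0x409141c304) (Pf.B 10 3 (Pf.C 1 0x409141c303) (Pf.B 10 2 (Pf.C 0 0x41018a) (Pf.B 10 1 (Pf.C 0 0x20c10a) (Pf.C 0 0x1204502))))))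
 (Pq.cons (Pq.L [0,1,2,3,4] 1023 (Pf.B 10 4 (Pf.C 1 0x409141c304) (Pf.B 10 3 (Pf.C 1 0x409141c303) (Pf.B 10 2 (Pf.C 0 0x41018a) (Pf.B 10 1 (Pf.C 0 0x20c10a) (Pf.B 10 0 (Pf.C 0 32906) (Pf.C 0 0x1200501)))))))
 Pq.nil)))))))) (Pq.cons (Pq.D 3 (Pq.cons (Pq.D 4 (Pq.cons (Pq.L [0,1] 910 (Pf.C 1 0x5091004006))
 (Pq.cons (Pq.L [0,1] 910 (Pf.C 1 0x5091004006))
 (Pq.cons (Pq.L [0,1] 910 (Pf.C 1 0x5091004006))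
 (Pq.cons (Pq.L [0,1] 910 (Pf.C 1 0x5091004006))
 (Pq.cons (Pq.L [0,1] 910 (Pf.C 1 0x5091004006))
 (Pq.cons (Pq.L [0,2] 910 (Pf.C 1 0x5091008006))
 (Pq.cons (Pq.L [1,2] 910 (Pf.C 1 0x5091008086))
 Pq.nil)))))))) (Pq.cons (Pq.L [1,2,3,4,5] 1023 (Pf.B 10 3 (Pf.C 1 0x409141c303) (Pf.B 10 5 (Pf.B 10 4 (Pf.B 10 2 (Pf.B 10 1 (Pf.C 1 0x404021c30a) (Pf.C 0 0x40c08a)) (Pf.C 0 0x80c10a)) (Pf.C 0 0xa0c20a)) (Pf.C 0 0x1214503))))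
 (Pq.cons (Pq.L [1,2,3,4] 987 (Pf.B 10 4 (Pf.B 10 3 (Pf.C 1 0x404061c30a) (Pf.B 10 2 (Pf.B 10 1 (Pf.C 1 0x404021c30a) (Pf.C 0 0x40c08a)) (Pf.C 0 0x80c10a))) (Pf.C 0 0x102420a)))
 (Pq.cons (Pq.L [1,3] 1023 (Pf.B 10 1 (Pf.C 1 0x409141c301) (Pf.B 10 3 (Pf.C 1 0x181141c308) (Pf.C 0 0x120c501))))
 (Pq.cons (Pq.L [1,2,3,4] 1023 (Pf.B 10 3 (Pf.C 1 0x409141c303) (Pf.B 10 2 (Pf.B 10 4 (Pf.B 10 1 (Pf.C 1 0x404021c30a) (Pf.C 0 0x40c08a)) (Pf.C 0 0x40c20a)) (Pf.C 0 0x1208503))))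
 (Pq.cons (Pq.L [1,3] 1023 (Pf.B 10 3 (Pf.C 1 0x409141c303) (Pf.B 10 1 (Pf.C 1 0x83141c308) (Pf.C 0 0x1204503))))
 (Pq.cons (Pq.L [0,1,2,3] 1023 (Pf.B 10 3 (Pf.C 1 0x409141c303) (Pf.B 10 1 (Pf.C 1 0x409141c301) (Pf.B 10 2 (Pf.C 0 0x40c08a) (Pf.B 10 0 (Pf.C 0 32906) (Pf.C 0 0x1200501))))))
 Pq.nil)))))))) (Pq.cons (Pq.D 3 (Pq.cons (Pq.D 4 (Pq.cons (Pq.L [0,1] 910 (Pf.C 1 0x5091004006))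
 (Pq.cons (Pq.L [0,1] 910 (Pf.C 1 0x5091004006))
 (Pq.cons (Pq.L [0,1] 910 (Pf.C 1 0x5091004006))
 (Pq.cons (Pq.L [0,1] 910 (Pf.C 1 0x5091004006))
 (Pq.cons (Pq.L [0,1] 910 (Pf.C 1 0x5091004006))
 (Pq.cons (Pq.L [0,2] 910 (Pf.C 1 0x5091008006))
 (Pq.cons (Pq.L [1,2] 910 (Pf.C 1 0x5091008086))
 Pq.nil)))))))) (Pq.cons (Pq.L [1,2,3,4,5] 1023 (Pf.B 10 4 (Pf.C 1 0x409141c304) (Pf.B 10 5 (Pf.B 10 3 (Pf.B 10 2 (Pf.B 10 1 (Pf.C 1 0x403021c30a) (Pf.C 0 0x41008a)) (Pf.C 0 0x61010a)) (Pf.C 0 0xa1018a)) (Pf.C 0 0x1214504))))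
 (Pq.cons (Pq.L [1,4] 1023 (Pf.B 10 1 (Pf.C 1 0x409141c301) (Pf.B 10 4 (Pf.C 1 0x201141c308) (Pf.C 0 0x1210501))))
 (Pq.cons (Pq.L [1,2,3,4] 1023 (Pf.B 10 4 (Pf.C 1 0x409141c304) (Pf.B 10 3 (Pf.B 10 2 (Pf.B 10 1 (Pf.C 1 0x403021c30a) (Pf.C 0 0x41008a)) (Pf.C 0 0x61010a)) (Pf.C 0 0x102418a))))
 (Pq.cons (Pq.L [1,2,3,4] 1023 (Pf.B 10 4 (Pf.C 1 0x409141c304) (Pf.B 10 2 (Pf.B 10 3 (Pf.B 10 1 (Pf.C 1 0x403021c30a) (Pf.C 0 0x41008a)) (Pf.C 0 0x41018a)) (Pf.C 0 0x1208504))))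
 (Pq.cons (Pq.L [1,4] 1023 (Pf.B 10 4 (Pf.C 1 0x409141c304) (Pf.B 10 1 (Pf.C 1 0x84141c308) (Pf.C 0 0x1204504))))
 (Pq.cons (Pq.L [0,1,2,3,4] 1023 (Pf.B 10 4 (Pf.C 1 0x409141c304) (Pf.B 10 1 (Pf.C 1 0x409141c301) (Pf.B 10 3 (Pf.C 0 0x61008a) (Pf.B 10 2 (Pf.C 0 0x40c08a) (Pf.B 10 0 (Pf.C 0 32906) (Pf.C 0 0x1200501)))))))
 Pq.nil)))))))) (Pq.cons (Pq.D 3 (Pq.cons (Pq.D 4 (Pq.cons (Pq.L [0,1] 910 (Pf.C 1 0x5091004006))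
 (Pq.cons (Pq.L [0,1] 910 (Pf.C 1 0x5091004006))
 (Pq.cons (Pq.L [0,1] 910 (Pf.C 1 0x5091004006))
 (Pq.cons (Pq.L [0,1] 910 (Pf.C 1 0x5091004006))
 (Pq.cons (Pq.L [0,1] 910 (Pf.C 1 0x5091004006))
 (Pq.cons (Pq.L [0,3] 910 (Pf.C 1 0x509100c006))
 (Pq.cons (Pq.L [1,3] 910 (Pf.C 1 0x509100c086))
 Pq.nil)))))))) (Pq.cons (Pq.L [3,4,5] 1023 (Pf.B 10 4 (Pf.C 1 0x409141c304) (Pf.B 10 5 (Pf.B 10 3 (Pf.C 1 0x409141c303) (Pf.C 0 0xa1018a)) (Pf.C 0 0x1214504))))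
 (Pq.cons (Pq.L [3,4] 1023 (Pf.B 10 3 (Pf.C 1 0x409141c303) (Pf.B 10 4 (Pf.C 1 0x203141c308) (Pf.C 0 0x1210503))))
 (Pq.cons (Pq.L [3,4] 1023 (Pf.B 10 4 (Pf.C 1 0x409141c304) (Pf.B 10 3 (Pf.C 1 0x184141c308) (Pf.C 0 0x120c504))))
 (Pq.cons (Pq.L [2,3,4] 1023 (Pf.B 10 4 (Pf.C 1 0x409141c304) (Pf.B 10 3 (Pf.C 1 0x409141c303) (Pf.B 10 2 (Pf.C 0 0x41018a) (Pf.C 0 0x102410a)))))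
 (Pq.cons (Pq.L [1,2,3,4] 1023 (Pf.B 10 4 (Pf.C 1 0x409141c304) (Pf.B 10 3 (Pf.C 1 0x409141c303) (Pf.B 10 2 (Pf.C 0 0x41018a) (Pf.B 10 1 (Pf.C 0 0x20c10a) (Pf.C 0 0x1204502))))))
 (Pq.cons (Pq.L [0,1,2,3,4] 1023 (Pf.B 10 4 (Pf.C 1 0x409141c304) (Pf.B 10 3 (Pf.C 1 0x409141c303) (Pf.B 10 2 (Pf.C 0 0x41018a) (Pf.B 10 1 (Pf.C 0 0x20c10a) (Pf.B 10 0 (Pf.C 0 32906) (Pf.C 0 0x1200501)))))))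
 Pq.nil)))))))) (Pq.cons (Pq.D 3 (Pq.cons (Pq.D 4 (Pq.cons (Pq.L [0,2] 910 (Pf.C 1 0x5091008006))
 (Pq.cons (Pq.L [0,2] 910 (Pf.C 1 0x5091008006))
 (Pq.cons (Pq.L [0,2] 910 (Pf.C 1 0x5091008006))
 (Pq.cons (Pq.L [0,2] 910 (Pf.C 1 0x5091008006))
 (Pq.cons (Pq.L [0,3] 910 (Pf.C 1 0x509100c006))
 (Pq.cons (Pq.L [0,2] 910 (Pf.C 1 0x5091008006))
 (Pq.cons (Pq.L [2,3] 910 (Pf.C 1 0x509100c106))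
 Pq.nil)))))))) (Pq.cons (Pq.L [3,4,5] 1023 (Pf.B 10 4 (Pf.C 1 0x409141c304) (Pf.B 10 5 (Pf.B 10 3 (Pf.C 1 0x409141c303) (Pf.C 0 0xa1018a)) (Pf.C 0 0x1214504))))
 (Pq.cons (Pq.L [3,4] 1023 (Pf.B 10 3 (Pf.C 1 0x409141c303) (Pf.B 10 4 (Pf.C 1 0x203141c308) (Pf.C 0 0x1210503))))
 (Pq.cons (Pq.L [3,4] 1023 (Pf.B 10 4 (Pf.C 1 0x409141c304) (Pf.B 10 3 (Pf.C 1 0x184141c308) (Pf.C 0 0x120c504))))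
 (Pq.cons (Pq.L [2,3,4] 1023 (Pf.B 10 4 (Pf.C 1 0x409141c304) (Pf.B 10 3 (Pf.C 1 0x409141c303) (Pf.B 10 2 (Pf.C 0 0x41018a) (Pf.C 0 0x1208503)))))
 (Pq.cons (Pq.L [1,2,3,4] 1023 (Pf.B 10 4 (Pf.C 1 0x409141c304) (Pf.B 10 3 (Pf.C 1 0x409141c303) (Pf.B 10 2 (Pf.C 0 0x41018a) (Pf.B 10 1 (Pf.C 0 0x20c10a) (Pf.C 0 0x102408a))))))
 (Pq.cons (Pq.L [0,1,2,3,4] 1023 (Pf.B 10 4 (Pf.C 1 0x409141c304) (Pf.B 10 3 (Pf.C 1 0x409141c303) (Pf.B 10 2 (Pf.C 0 0x41018a) (Pf.B 10 1 (Pf.C 0 0x20c10a) (Pf.B 10 0 (Pf.C 0 32906) (Pf.C 0 0x1200501)))))))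
 Pq.nil)))))))) (Pq.cons (Pq.D 3 (Pq.cons (Pq.D 4 (Pq.cons (Pq.L [1,2] 910 (Pf.C 1 0x5091008086))
 (Pq.cons (Pq.L [1,2] 910 (Pf.C 1 0x5091008086))
 (Pq.cons (Pq.L [1,2] 910 (Pf.C 1 0x5091008086))
 (Pq.cons (Pq.L [1,2] 910 (Pf.C 1 0x5091008086))
 (Pq.cons (Pq.L [1,3] 910 (Pf.C 1 0x509100c086))
 (Pq.cons (Pq.L [2,3] 910 (Pf.C 1 0x509100c106))
 (Pq.cons (Pq.L [1,2] 910 (Pf.C 1 0x5091008086))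
 Pq.nil)))))))) (Pq.cons (Pq.L [3,4,5] 1023 (Pf.B 10 4 (Pf.C 1 0x409141c304) (Pf.B 10 5 (Pf.B 10 3 (Pf.C 1 0x409141c303) (Pf.C 0 0xa1018a)) (Pf.C 0 0x1214504))))
 (Pq.cons (Pq.L [3,4] 1023 (Pf.B 10 3 (Pf.C 1 0x409141c303) (Pf.B 10 4 (Pf.C 1 0x203141c308) (Pf.C 0 0x1210503))))
 (Pq.cons (Pq.L [3,4] 1023 (Pf.B 10 4 (Pf.C 1 0x409141c304) (Pf.B 10 3 (Pf.C 1 0x184141c308) (Pf.C 0 0x120c504))))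
 (Pq.cons (Pq.L [2,3,4] 1023 (Pf.B 10 4 (Pf.C 1 0x409141c304) (Pf.B 10 3 (Pf.C 1 0x409141c303) (Pf.B 10 2 (Pf.C 0 0x41018a) (Pf.C 0 0x1208503)))))
 (Pq.cons (Pq.L [1,2,3,4] 1023 (Pf.B 10 4 (Pf.C 1 0x409141c304) (Pf.B 10 3 (Pf.C 1 0x409141c303) (Pf.B 10 2 (Pf.C 0 0x41018a) (Pf.B 10 1 (Pf.C 0 0x20c10a) (Pf.C 0 0x1204502))))))
 (Pq.cons (Pq.L [0,1,2,3,4] 1023 (Pf.B 10 4 (Pf.C 1 0x409141c304) (Pf.B 10 3 (Pf.C 1 0x409141c303) (Pf.B 10 2 (Pf.C 0 0x41018a) (Pf.B 10 1 (Pf.C 0 0x20c10a) (Pf.B 10 0 (Pf.C 0 32906) (Pf.C 0 0x102400a)))))))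
 Pq.nil)))))))) Pq.nil)))))))) (Pq.cons (Pq.D 2 (Pq.cons (Pq.D 3 (Pq.cons (Pq.D 4 (Pq.cons (Pq.L [0,1] 910 (Pf.C 1 0x5091004006))
 (Pq.cons (Pq.L [0,1] 910 (Pf.C 1 0x5091004006))
 (Pq.cons (Pq.L [0,1] 910 (Pf.C 1 0x5091004006))
 (Pq.cons (Pq.L [0,1] 910 (Pf.C 1 0x5091004006))
 (Pq.cons (Pq.L [0,1] 910 (Pf.C 1 0x5091004006))
 (Pq.cons (Pq.L [0,2] 910 (Pf.C 1 0x5091008006))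
 (Pq.cons (Pq.L [1,2] 910 (Pf.C 1 0x5091008086))
 Pq.nil)))))))) (Pq.cons (Pq.L [3,4,5] 1023 (Pf.B 10 4 (Pf.C 1 0x409141c304) (Pf.B 10 5 (Pf.B 10 3 (Pf.C 1 0x409141c303) (Pf.C 0 0xa1018a)) (Pf.C 0 0x1214504))))
 (Pq.cons (Pq.L [3,4] 1023 (Pf.B 10 3 (Pf.C 1 0x409141c303) (Pf.B 10 4 (Pf.C 1 0x203141c308) (Pf.C 0 0x1210503))))
 (Pq.cons (Pq.L [3,4] 1023 (Pf.B 10 4 (Pf.C 1 0x409141c304) (Pf.B 10 3 (Pf.C 1 0x184141c308) (Pf.C 0 0x120c504))))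
 (Pq.cons (Pq.L [2,3,4] 1023 (Pf.B 10 4 (Pf.C 1 0x409141c304) (Pf.B 10 3 (Pf.C 1 0x409141c303) (Pf.B 10 2 (Pf.C 0 0x41018a) (Pf.C 0 0x1208503)))))
 (Pq.cons (Pq.L [1,2,3,4] 1023 (Pf.B 10 4 (Pf.C 1 0x409141c304) (Pf.B 10 3 (Pf.C 1 0x409141c303) (Pf.B 10 2 (Pf.C 0 0x41018a) (Pf.B 10 1 (Pf.C 0 0x20c10a) (Pf.C 0 0x1204502))))))
 (Pq.cons (Pq.L [0,1,2,3,4] 1023 (Pf.B 10 4 (Pf.C 1 0x409141c304) (Pf.B 10 3 (Pf.C 1 0x409141c303) (Pf.B 10 2 (Pf.C 0 0x41018a) (Pf.B 10 1 (Pf.C 0 0x20c10a) (Pf.B 10 0 (Pf.C 0 32906) (Pf.C 0 0x1200501)))))))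
 Pq.nil)))))))) (Pq.cons (Pq.D 3 (Pq.cons (Pq.D 4 (Pq.cons (Pq.L [0,1] 910 (Pf.C 1 0x5091004006))
 (Pq.cons (Pq.L [0,1] 910 (Pf.C 1 0x5091004006))
 (Pq.cons (Pq.L [0,1] 910 (Pf.C 1 0x5091004006))
 (Pq.cons (Pq.L [0,1] 910 (Pf.C 1 0x5091004006))
 (Pq.cons (Pq.L [0,1] 910 (Pf.C 1 0x5091004006))
 (Pq.cons (Pq.L [0,2] 910 (Pf.C 1 0x5091008006))
 (Pq.cons (Pq.L [1,2] 910 (Pf.C 1 0x5091008086))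
 Pq.nil)))))))) (Pq.cons (Pq.L [3,4,5] 1023 (Pf.B 10 5 (Pf.B 10 4 (Pf.C 1 0x409141c304) (Pf.B 10 3 (Pf.C 1 0x409141c303) (Pf.C 0 0xa1018a))) (Pf.C 0 0x102428a)))
 (Pq.cons (Pq.L [3,4] 1023 (Pf.B 10 3 (Pf.C 1 0x409141c303) (Pf.B 10 4 (Pf.C 1 0x203141c308) (Pf.C 0 0x1210503))))
 (Pq.cons (Pq.L [3,4] 1023 (Pf.B 10 4 (Pf.C 1 0x409141c304) (Pf.B 10 3 (Pf.C 1 0x184141c308) (Pf.C 0 0x120c504))))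
 (Pq.cons (Pq.L [2,3,4] 1023 (Pf.B 10 4 (Pf.C 1 0x409141c304) (Pf.B 10 3 (Pf.C 1 0x409141c303) (Pf.B 10 2 (Pf.C 0 0x41018a) (Pf.C 0 0x1208503)))))
 (Pq.cons (Pq.L [1,2,3,4] 1023 (Pf.B 10 4 (Pf.C 1 0x409141c304) (Pf.B 10 3 (Pf.C 1 0x409141c303) (Pf.B 10 2 (Pf.C 0 0x41018a) (Pf.B 10 1 (Pf.C 0 0x20c10a) (Pf.C 0 0x1204502))))))
 (Pq.cons (Pq.L [0,1,2,3,4] 1023 (Pf.B 10 4 (Pf.C 1 0x409141c304) (Pf.B 10 3 (Pf.C 1 0x409141c303) (Pf.B 10 2 (Pf.C 0 0x41018a) (Pf.B 10 1 (Pf.C 0 0x20c10a) (Pf.B 10 0 (Pf.C 0 32906) (Pf.C 0 0x1200501)))))))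
 Pq.nil)))))))) (Pq.cons (Pq.D 3 (Pq.cons (Pq.D 4 (Pq.cons (Pq.L [0,1] 910 (Pf.C 1 0x5091004006))
 (Pq.cons (Pq.L [0,1] 910 (Pf.C 1 0x5091004006))
 (Pq.cons (Pq.L [0,1] 910 (Pf.C 1 0x5091004006))
 (Pq.cons (Pq.L [0,1] 910 (Pf.C 1 0x5091004006))
 (Pq.cons (Pq.L [0,1] 910 (Pf.C 1 0x5091004006))
 (Pq.cons (Pq.L [0,2] 910 (Pf.C 1 0x5091008006))
 (Pq.cons (Pq.L [1,2] 910 (Pf.C 1 0x5091008086))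
 Pq.nil)))))))) (Pq.cons (Pq.L [2,3,4,5] 1023 (Pf.B 10 3 (Pf.C 1 0x409141c303) (Pf.B 10 5 (Pf.B 10 4 (Pf.B 10 2 (Pf.C 1 0x404041c30a) (Pf.C 0 0x80c10a)) (Pf.C 0 0xa0c20a)) (Pf.C 0 0x1214503))))
 (Pq.cons (Pq.L [2,3,4] 987 (Pf.B 10 4 (Pf.B 10 3 (Pf.C 1 0x404061c30a) (Pf.B 10 2 (Pf.C 1 0x404041c30a) (Pf.C 0 0x80c10a))) (Pf.C 0 0x102420a)))
 (Pq.cons (Pq.L [2,3] 1023 (Pf.B 10 2 (Pf.C 1 0x409141c302) (Pf.B 10 3 (Pf.C 1 0x182141c308) (Pf.C 0 0x120c502))))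
 (Pq.cons (Pq.L [2,3] 1023 (Pf.B 10 3 (Pf.C 1 0x409141c303) (Pf.B 10 2 (Pf.C 1 0x103141c308) (Pf.C 0 0x1208503))))
 (Pq.cons (Pq.L [1,2,3] 1023 (Pf.B 10 3 (Pf.C 1 0x409141c303) (Pf.B 10 2 (Pf.C 1 0x409141c302) (Pf.B 10 1 (Pf.C 0 0x20c10a) (Pf.C 0 0x1204502)))))
 (Pq.cons (Pq.L [0,1,2,3] 1023 (Pf.B 10 3 (Pf.C 1 0x409141c303) (Pf.B 10 2 (Pf.C 1 0x409141c302) (Pf.B 10 1 (Pf.C 0 0x20c10a) (Pf.B 10 0 (Pf.C 0 32906) (Pf.C 0 0x1200501))))))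
 Pq.nil)))))))) (Pq.cons (Pq.D 3 (Pq.cons (Pq.D 4 (Pq.cons (Pq.L [0,1] 910 (Pf.C 1 0x5091004006))
 (Pq.cons (Pq.L [0,1] 910 (Pf.C 1 0x5091004006))
 (Pq.cons (Pq.L [0,1] 910 (Pf.C 1 0x5091004006))
 (Pq.cons (Pq.L [0,1] 910 (Pf.C 1 0x5091004006))
 (Pq.cons (Pq.L [0,1] 910 (Pf.C 1 0x5091004006))
 (Pq.cons (Pq.L [0,2] 910 (Pf.C 1 0x5091008006))
 (Pq.cons (Pq.L [1,2] 910 (Pf.C 1 0x5091008086))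
 Pq.nil)))))))) (Pq.cons (Pq.L [2,3,4,5] 1023 (Pf.B 10 4 (Pf.C 1 0x409141c304) (Pf.B 10 5 (Pf.B 10 3 (Pf.B 10 2 (Pf.C 1 0x403041c30a) (Pf.C 0 0x61010a)) (Pf.C 0 0xa1018a)) (Pf.C 0 0x1214504))))
 (Pq.cons (Pq.L [2,4] 1023 (Pf.B 10 2 (Pf.C 1 0x409141c302) (Pf.B 10 4 (Pf.C 1 0x202141c308) (Pf.C 0 0x1210502))))
 (Pq.cons (Pq.L [2,3,4] 1023 (Pf.B 10 4 (Pf.C 1 0x409141c304) (Pf.B 10 3 (Pf.B 10 2 (Pf.C 1 0x403041c30a) (Pf.C 0 0x61010a)) (Pf.C 0 0x102418a))))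
 (Pq.cons (Pq.L [2,4] 1023 (Pf.B 10 4 (Pf.C 1 0x409141c304) (Pf.B 10 2 (Pf.C 1 0x104141c308) (Pf.C 0 0x1208504))))
 (Pq.cons (Pq.L [1,2,3,4] 1023 (Pf.B 10 4 (Pf.C 1 0x409141c304) (Pf.B 10 2 (Pf.C 1 0x409141c302) (Pf.B 10 3 (Pf.C 0 0x61010a) (Pf.B 10 1 (Pf.C 0 0x20c10a) (Pf.C 0 0x1204502))))))
 (Pq.cons (Pq.L [0,1,2,3,4] 1023 (Pf.B 10 4 (Pf.C 1 0x409141c304) (Pf.B 10 2 (Pf.C 1 0x409141c302) (Pf.B 10 3 (Pf.C 0 0x61010a) (Pf.B 10 1 (Pf.C 0 0x20c10a) (Pf.B 10 0 (Pf.C 0 32906) (Pf.C 0 0x1200501)))))))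
 Pq.nil)))))))) (Pq.cons (Pq.D 3 (Pq.cons (Pq.D 4 (Pq.cons (Pq.L [0,1] 910 (Pf.C 1 0x5091004006))
 (Pq.cons (Pq.L [0,1] 910 (Pf.C 1 0x5091004006))
 (Pq.cons (Pq.L [0,1] 910 (Pf.C 1 0x5091004006))
 (Pq.cons (Pq.L [0,1] 910 (Pf.C 1 0x5091004006))
 (Pq.cons (Pq.L [0,1] 910 (Pf.C 1 0x5091004006))
 (Pq.cons (Pq.L [0,3] 910 (Pf.C 1 0x509100c006))
 (Pq.cons (Pq.L [1,3] 910 (Pf.C 1 0x509100c086))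
 Pq.nil)))))))) (Pq.cons (Pq.L [3,4,5] 1023 (Pf.B 10 4 (Pf.C 1 0x409141c304) (Pf.B 10 5 (Pf.B 10 3 (Pf.C 1 0x409141c303) (Pf.C 0 0xa1018a)) (Pf.C 0 0x1214504))))
 (Pq.cons (Pq.L [3,4] 1023 (Pf.B 10 3 (Pf.C 1 0x409141c303) (Pf.B 10 4 (Pf.C 1 0x203141c308) (Pf.C 0 0x1210503))))
 (Pq.cons (Pq.L [3,4] 1023 (Pf.B 10 4 (Pf.C 1 0x409141c304) (Pf.B 10 3 (Pf.C 1 0x184141c308) (Pf.C 0 0x120c504))))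
 (Pq.cons (Pq.L [2,3,4] 1023 (Pf.B 10 4 (Pf.C 1 0x409141c304) (Pf.B 10 3 (Pf.C 1 0x409141c303) (Pf.B 10 2 (Pf.C 0 0x41018a) (Pf.C 0 0x102410a)))))
 (Pq.cons (Pq.L [1,2,3,4] 1023 (Pf.B 10 4 (Pf.C 1 0x409141c304) (Pf.B 10 3 (Pf.C 1 0x409141c303) (Pf.B 10 2 (Pf.C 0 0x41018a) (Pf.B 10 1 (Pf.C 0 0x20c10a) (Pf.C 0 0x1204502))))))
 (Pq.cons (Pq.L [0,1,2,3,4] 1023 (Pf.B 10 4 (Pf.C 1 0x409141c304) (Pf.B 10 3 (Pf.C 1 0x409141c303) (Pf.B 10 2 (Pf.C 0 0x41018a) (Pf.B 10 1 (Pf.C 0 0x20c10a) (Pf.B 10 0 (Pf.C 0 32906) (Pf.C 0 0x1200501)))))))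
 Pq.nil)))))))) (Pq.cons (Pq.D 3 (Pq.cons (Pq.D 4 (Pq.cons (Pq.L [0,2] 910 (Pf.C 1 0x5091008006))
 (Pq.cons (Pq.L [0,2] 910 (Pf.C 1 0x5091008006))
 (Pq.cons (Pq.L [0,2] 910 (Pf.C 1 0x5091008006))
 (Pq.cons (Pq.L [0,2] 910 (Pf.C 1 0x5091008006))
 (Pq.cons (Pq.L [0,3] 910 (Pf.C 1 0x509100c006))
 (Pq.cons (Pq.L [0,2] 910 (Pf.C 1 0x5091008006))
 (Pq.cons (Pq.L [2,3] 910 (Pf.C 1 0x509100c106))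
 Pq.nil)))))))) (Pq.cons (Pq.L [3,4,5] 1023 (Pf.B 10 4 (Pf.C 1 0x409141c304) (Pf.B 10 5 (Pf.B 10 3 (Pf.C 1 0x409141c303) (Pf.C 0 0xa1018a)) (Pf.C 0 0x1214504))))
 (Pq.cons (Pq.L [3,4] 1023 (Pf.B 10 3 (Pf.C 1 0x409141c303) (Pf.B 10 4 (Pf.C 1 0x203141c308) (Pf.C 0 0x1210503))))
 (Pq.cons (Pq.L [3,4] 1023 (Pf.B 10 4 (Pf.C 1 0x409141c304) (Pf.B 10 3 (Pf.C 1 0x184141c308) (Pf.C 0 0x120c504))))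
 (Pq.cons (Pq.L [2,3,4] 1023 (Pf.B 10 4 (Pf.C 1 0x409141c304) (Pf.B 10 3 (Pf.C 1 0x409141c303) (Pf.B 10 2 (Pf.C 0 0x41018a) (Pf.C 0 0x1208503)))))
 (Pq.cons (Pq.L [1,2,3,4] 1023 (Pf.B 10 4 (Pf.C 1 0x409141c304) (Pf.B 10 3 (Pf.C 1 0x409141c303) (Pf.B 10 2 (Pf.C 0 0x41018a) (Pf.B 10 1 (Pf.C 0 0x20c10a) (Pf.C 0 0x102408a))))))
 (Pq.cons (Pq.L [0,1,2,3,4] 1023 (Pf.B 10 4 (Pf.C 1 0x409141c304) (Pf.B 10 3 (Pf.C 1 0x409141c303) (Pf.B 10 2 (Pf.C 0 0x41018a) (Pf.B 10 1 (Pf.C 0 0x20c10a) (Pf.B 10 0 (Pf.C 0 32906) (Pf.C 0 0x1200501)))))))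
 Pq.nil)))))))) (Pq.cons (Pq.D 3 (Pq.cons (Pq.D 4 (Pq.cons (Pq.L [1,2] 910 (Pf.C 1 0x5091008086))
 (Pq.cons (Pq.L [1,2] 910 (Pf.C 1 0x5091008086))
 (Pq.cons (Pq.L [1,2] 910 (Pf.C 1 0x5091008086))
 (Pq.cons (Pq.L [1,2] 910 (Pf.C 1 0x5091008086))
 (Pq.cons (Pq.L [1,3] 910 (Pf.C 1 0x509100c086))
 (Pq.cons (Pq.L [2,3] 910 (Pf.C 1 0x509100c106))
 (Pq.cons (Pq.L [1,2] 910 (Pf.C 1 0x5091008086))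
 Pq.nil)))))))) (Pq.cons (Pq.L [3,4,5] 1023 (Pf.B 10 4 (Pf.C 1 0x409141c304) (Pf.B 10 5 (Pf.B 10 3 (Pf.C 1 0x409141c303) (Pf.C 0 0xa1018a)) (Pf.C 0 0x1214504))))
 (Pq.cons (Pq.L [3,4] 1023 (Pf.B 10 3 (Pf.C 1 0x409141c303) (Pf.B 10 4 (Pf.C 1 0x203141c308) (Pf.C 0 0x1210503))))
 (Pq.cons (Pq.L [3,4] 1023 (Pf.B 10 4 (Pf.C 1 0x409141c304) (Pf.B 10 3 (Pf.C 1 0x184141c308) (Pf.C 0 0x120c504))))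
 (Pq.cons (Pq.L [2,3,4] 1023 (Pf.B 10 4 (Pf.C 1 0x409141c304) (Pf.B 10 3 (Pf.C 1 0x409141c303) (Pf.B 10 2 (Pf.C 0 0x41018a) (Pf.C 0 0x1208503)))))
 (Pq.cons (Pq.L [1,2,3,4] 1023 (Pf.B 10 4 (Pf.C 1 0x409141c304) (Pf.B 10 3 (Pf.C 1 0x409141c303) (Pf.B 10 2 (Pf.C 0 0x41018a) (Pf.B 10 1 (Pf.C 0 0x20c10a) (Pf.C 0 0x1204502))))))
 (Pq.cons (Pq.L [0,1,2,3,4] 1023 (Pf.B 10 4 (Pf.C 1 0x409141c304) (Pf.B 10 3 (Pf.C 1 0x409141c303) (Pf.B 10 2 (Pf.C 0 0x41018a) (Pf.B 10 1 (Pf.C 0 0x20c10a) (Pf.B 10 0 (Pf.C 0 32906) (Pf.C 0 0x102400a)))))))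
 Pq.nil)))))))) Pq.nil)))))))) (Pq.cons (Pq.D 2 (Pq.cons (Pq.D 3 (Pq.cons (Pq.D 4 (Pq.cons (Pq.L [0,1] 910 (Pf.C 1 0x5091004006))
 (Pq.cons (Pq.L [0,1] 910 (Pf.C 1 0x5091004006))
 (Pq.cons (Pq.L [0,1] 910 (Pf.C 1 0x5091004006))
 (Pq.cons (Pq.L [0,1] 910 (Pf.C 1 0x5091004006))
 (Pq.cons (Pq.L [0,1] 910 (Pf.C 1 0x5091004006))
 (Pq.cons (Pq.L [0,2] 910 (Pf.C 1 0x5091008006))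
 (Pq.cons (Pq.L [1,2] 910 (Pf.C 1 0x5091008086))
 Pq.nil)))))))) (Pq.cons (Pq.L [3,4,5] 1023 (Pf.B 10 4 (Pf.C 1 0x409141c304) (Pf.B 10 5 (Pf.B 10 3 (Pf.C 1 0x409141c303) (Pf.C 0 0xa1018a)) (Pf.C 0 0x1214504))))
 (Pq.cons (Pq.L [3,4] 1023 (Pf.B 10 3 (Pf.C 1 0x409141c303) (Pf.B 10 4 (Pf.C 1 0x203141c308) (Pf.C 0 0x1210503))))
 (Pq.cons (Pq.L [3,4] 1023 (Pf.B 10 4 (Pf.C 1 0x409141c304) (Pf.B 10 3 (Pf.C 1 0x184141c308) (Pf.C 0 0x120c504))))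
 (Pq.cons (Pq.L [2,3,4] 1023 (Pf.B 10 4 (Pf.C 1 0x409141c304) (Pf.B 10 3 (Pf.C 1 0x409141c303) (Pf.B 10 2 (Pf.C 0 0x41018a) (Pf.C 0 0x1208503)))))
 (Pq.cons (Pq.L [1,2,3,4] 1023 (Pf.B 10 4 (Pf.C 1 0x409141c304) (Pf.B 10 3 (Pf.C 1 0x409141c303) (Pf.B 10 2 (Pf.C 0 0x41018a) (Pf.B 10 1 (Pf.C 0 0x20c10a) (Pf.C 0 0x1204502))))))
 (Pq.cons (Pq.L [0,1,2,3,4] 1023 (Pf.B 10 4 (Pf.C 1 0x409141c304) (Pf.B 10 3 (Pf.C 1 0x409141c303) (Pf.B 10 2 (Pf.C 0 0x41018a) (Pf.B 10 1 (Pf.C 0 0x20c10a) (Pf.B 10 0 (Pf.C 0 32906) (Pf.C 0 0x1200501)))))))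
 Pq.nil)))))))) (Pq.cons (Pq.D 3 (Pq.cons (Pq.D 4 (Pq.cons (Pq.L [0,1] 910 (Pf.C 1 0x5091004006))
 (Pq.cons (Pq.L [0,1] 910 (Pf.C 1 0x5091004006))
 (Pq.cons (Pq.L [0,1] 910 (Pf.C 1 0x5091004006))
 (Pq.cons (Pq.L [0,1] 910 (Pf.C 1 0x5091004006))
 (Pq.cons (Pq.L [0,1] 910 (Pf.C 1 0x5091004006))
 (Pq.cons (Pq.L [0,2] 910 (Pf.C 1 0x5091008006))
 (Pq.cons (Pq.L [1,2] 910 (Pf.C 1 0x5091008086))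
 Pq.nil)))))))) (Pq.cons (Pq.L [3,4,5] 1023 (Pf.B 10 5 (Pf.B 10 4 (Pf.C 1 0x409141c304) (Pf.B 10 3 (Pf.C 1 0x409141c303) (Pf.C 0 0xa1018a))) (Pf.C 0 0x102428a)))
 (Pq.cons (Pq.L [3,4] 1023 (Pf.B 10 3 (Pf.C 1 0x409141c303) (Pf.B 10 4 (Pf.C 1 0x203141c308) (Pf.C 0 0x1210503))))
 (Pq.cons (Pq.L [3,4] 1023 (Pf.B 10 4 (Pf.C 1 0x409141c304) (Pf.B 10 3 (Pf.C 1 0x184141c308) (Pf.C 0 0x120c504))))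
 (Pq.cons (Pq.L [2,3,4] 1023 (Pf.B 10 4 (Pf.C 1 0x409141c304) (Pf.B 10 3 (Pf.C 1 0x409141c303) (Pf.B 10 2 (Pf.C 0 0x41018a) (Pf.C 0 0x1208503)))))
 (Pq.cons (Pq.L [1,2,3,4] 1023 (Pf.B 10 4 (Pf.C 1 0x409141c304) (Pf.B 10 3 (Pf.C 1 0x409141c303) (Pf.B 10 2 (Pf.C 0 0x41018a) (Pf.B 10 1 (Pf.C 0 0x20c10a) (Pf.C 0 0x1204502))))))
 (Pq.cons (Pq.L [0,1,2,3,4] 1023 (Pf.B 10 4 (Pf.C 1 0x409141c304) (Pf.B 10 3 (Pf.C 1 0x409141c303) (Pf.B 10 2 (Pf.C 0 0x41018a) (Pf.B 10 1 (Pf.C 0 0x20c10a) (Pf.B 10 0 (Pf.C 0 32906) (Pf.C 0 0x1200501)))))))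
 Pq.nil)))))))) (Pq.cons (Pq.D 3 (Pq.cons (Pq.D 4 (Pq.cons (Pq.L [0,1] 910 (Pf.C 1 0x5091004006))
 (Pq.cons (Pq.L [0,1] 910 (Pf.C 1 0x5091004006))
 (Pq.cons (Pq.L [0,1] 910 (Pf.C 1 0x5091004006))
 (Pq.cons (Pq.L [0,1] 910 (Pf.C 1 0x5091004006))
 (Pq.cons (Pq.L [0,1] 910 (Pf.C 1 0x5091004006))
 (Pq.cons (Pq.L [0,2] 910 (Pf.C 1 0x5091008006))
 (Pq.cons (Pq.L [1,2] 910 (Pf.C 1 0x5091008086))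
 Pq.nil)))))))) (Pq.cons (Pq.L [2,3,4,5] 1023 (Pf.B 10 3 (Pf.C 1 0x409141c303) (Pf.B 10 5 (Pf.B 10 4 (Pf.B 10 2 (Pf.C 1 0x404041c30a) (Pf.C 0 0x80c10a)) (Pf.C 0 0xa0c20a)) (Pf.C 0 0x1214503))))
 (Pq.cons (Pq.L [2,3,4] 987 (Pf.B 10 4 (Pf.B 10 3 (Pf.C 1 0x404061c30a) (Pf.B 10 2 (Pf.C 1 0x404041c30a) (Pf.C 0 0x80c10a))) (Pf.C 0 0x102420a)))
 (Pq.cons (Pq.L [2,3] 1023 (Pf.B 10 2 (Pf.C 1 0x409141c302) (Pf.B 10 3 (Pf.C 1 0x182141c308) (Pf.C 0 0x120c502))))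
 (Pq.cons (Pq.L [2,3] 1023 (Pf.B 10 3 (Pf.C 1 0x409141c303) (Pf.B 10 2 (Pf.C 1 0x103141c308) (Pf.C 0 0x1208503))))
 (Pq.cons (Pq.L [1,2,3] 1023 (Pf.B 10 3 (Pf.C 1 0x409141c303) (Pf.B 10 2 (Pf.C 1 0x409141c302) (Pf.B 10 1 (Pf.C 0 0x20c10a) (Pf.C 0 0x1204502)))))
 (Pq.cons (Pq.L [0,1,2,3] 1023 (Pf.B 10 3 (Pf.C 1 0x409141c303) (Pf.B 10 2 (Pf.C 1 0x409141c302) (Pf.B 10 1 (Pf.C 0 0x20c10a) (Pf.B 10 0 (Pf.C 0 32906) (Pf.C 0 0x1200501))))))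
 Pq.nil)))))))) (Pq.cons (Pq.D 3 (Pq.cons (Pq.D 4 (Pq.cons (Pq.L [0,1] 910 (Pf.C 1 0x5091004006))
 (Pq.cons (Pq.L [0,1] 910 (Pf.C 1 0x5091004006))
 (Pq.cons (Pq.L [0,1] 910 (Pf.C 1 0x5091004006))
 (Pq.cons (Pq.L [0,1] 910 (Pf.C 1 0x5091004006))
 (Pq.cons (Pq.L [0,1] 910 (Pf.C 1 0x5091004006))
 (Pq.cons (Pq.L [0,2] 910 (Pf.C 1 0x5091008006))
 (Pq.cons (Pq.L [1,2] 910 (Pf.C 1 0x5091008086))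
 Pq.nil)))))))) (Pq.cons (Pq.L [2,3,4,5] 1023 (Pf.B 10 4 (Pf.C 1 0x409141c304) (Pf.B 10 5 (Pf.B 10 3 (Pf.B 10 2 (Pf.C 1 0x403041c30a) (Pf.C 0 0x61010a)) (Pf.C 0 0xa1018a)) (Pf.C 0 0x1214504))))
 (Pq.cons (Pq.L [2,4] 1023 (Pf.B 10 2 (Pf.C 1 0x409141c302) (Pf.B 10 4 (Pf.C 1 0x202141c308) (Pf.C 0 0x1210502))))
 (Pq.cons (Pq.L [2,3,4] 1023 (Pf.B 10 4 (Pf.C 1 0x409141c304) (Pf.B 10 3 (Pf.B 10 2 (Pf.C 1 0x403041c30a) (Pf.C 0 0x61010a)) (Pf.C 0 0x102418a))))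
 (Pq.cons (Pq.L [2,4] 1023 (Pf.B 10 4 (Pf.C 1 0x409141c304) (Pf.B 10 2 (Pf.C 1 0x104141c308) (Pf.C 0 0x1208504))))
 (Pq.cons (Pq.L [1,2,3,4] 1023 (Pf.B 10 4 (Pf.C 1 0x409141c304) (Pf.B 10 2 (Pf.C 1 0x409141c302) (Pf.B 10 3 (Pf.C 0 0x61010a) (Pf.B 10 1 (Pf.C 0 0x20c10a) (Pf.C 0 0x1204502))))))
 (Pq.cons (Pq.L [0,1,2,3,4] 1023 (Pf.B 10 4 (Pf.C 1 0x409141c304) (Pf.B 10 2 (Pf.C 1 0x409141c302) (Pf.B 10 3 (Pf.C 0 0x61010a) (Pf.B 10 1 (Pf.C 0 0x20c10a) (Pf.B 10 0 (Pf.C 0 32906) (Pf.C 0 0x1200501)))))))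
 Pq.nil)))))))) (Pq.cons (Pq.D 3 (Pq.cons (Pq.D 4 (Pq.cons (Pq.L [0,1] 910 (Pf.C 1 0x5091004006))
 (Pq.cons (Pq.L [0,1] 910 (Pf.C 1 0x5091004006))
 (Pq.cons (Pq.L [0,1] 910 (Pf.C 1 0x5091004006))
 (Pq.cons (Pq.L [0,1] 910 (Pf.C 1 0x5091004006))
 (Pq.cons (Pq.L [0,1] 910 (Pf.C 1 0x5091004006))
 (Pq.cons (Pq.L [0,3] 910 (Pf.C 1 0x509100c006))
 (Pq.cons (Pq.L [1,3] 910 (Pf.C 1 0x509100c086))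
 Pq.nil)))))))) (Pq.cons (Pq.L [3,4,5] 1023 (Pf.B 10 4 (Pf.C 1 0x409141c304) (Pf.B 10 5 (Pf.B 10 3 (Pf.C 1 0x409141c303) (Pf.C 0 0xa1018a)) (Pf.C 0 0x1214504))))
 (Pq.cons (Pq.L [3,4] 1023 (Pf.B 10 3 (Pf.C 1 0x409141c303) (Pf.B 10 4 (Pf.C 1 0x203141c308) (Pf.C 0 0x1210503))))
 (Pq.cons (Pq.L [3,4] 1023 (Pf.B 10 4 (Pf.C 1 0x409141c304) (Pf.B 10 3 (Pf.C 1 0x184141c308) (Pf.C 0 0x120c504))))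
 (Pq.cons (Pq.L [2,3,4] 1023 (Pf.B 10 4 (Pf.C 1 0x409141c304) (Pf.B 10 3 (Pf.C 1 0x409141c303) (Pf.B 10 2 (Pf.C 0 0x41018a) (Pf.C 0 0x102410a)))))
 (Pq.cons (Pq.L [1,2,3,4] 1023 (Pf.B 10 4 (Pf.C 1 0x409141c304) (Pf.B 10 3 (Pf.C 1 0x409141c303) (Pf.B 10 2 (Pf.C 0 0x41018a) (Pf.B 10 1 (Pf.C 0 0x20c10a) (Pf.C 0 0x1204502))))))
 (Pq.cons (Pq.L [0,1,2,3,4] 1023 (Pf.B 10 4 (Pf.C 1 0x409141c304) (Pf.B 10 3 (Pf.C 1 0x409141c303) (Pf.B 10 2 (Pf.C 0 0x41018a) (Pf.B 10 1 (Pf.C 0 0x20c10a) (Pf.B 10 0 (Pf.C 0 32906) (Pf.C 0 0x1200501)))))))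
 Pq.nil)))))))) (Pq.cons (Pq.D 3 (Pq.cons (Pq.D 4 (Pq.cons (Pq.L [0,2] 910 (Pf.C 1 0x5091008006))
 (Pq.cons (Pq.L [0,2] 910 (Pf.C 1 0x5091008006))
 (Pq.cons (Pq.L [0,2] 910 (Pf.C 1 0x5091008006))
 (Pq.cons (Pq.L [0,2] 910 (Pf.C 1 0x5091008006))
 (Pq.cons (Pq.L [0,3] 910 (Pf.C 1 0x509100c006))
 (Pq.cons (Pq.L [0,2] 910 (Pf.C 1 0x5091008006))
 (Pq.cons (Pq.L [2,3] 910 (Pf.C 1 0x509100c106))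
 Pq.nil)))))))) (Pq.cons (Pq.L [3,4,5] 1023 (Pf.B 10 4 (Pf.C 1 0x409141c304) (Pf.B 10 5 (Pf.B 10 3 (Pf.C 1 0x409141c303) (Pf.C 0 0xa1018a)) (Pf.C 0 0x1214504))))
 (Pq.cons (Pq.L [3,4] 1023 (Pf.B 10 3 (Pf.C 1 0x409141c303) (Pf.B 10 4 (Pf.C 1 0x203141c308) (Pf.C 0 0x1210503))))
 (Pq.cons (Pq.L [3,4] 1023 (Pf.B 10 4 (Pf.C 1 0x409141c304) (Pf.B 10 3 (Pf.C 1 0x184141c308) (Pf.C 0 0x120c504))))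
 (Pq.cons (Pq.L [2,3,4] 1023 (Pf.B 10 4 (Pf.C 1 0x409141c304) (Pf.B 10 3 (Pf.C 1 0x409141c303) (Pf.B 10 2 (Pf.C 0 0x41018a) (Pf.C 0 0x1208503)))))
 (Pq.cons (Pq.L [1,2,3,4] 1023 (Pf.B 10 4 (Pf.C 1 0x409141c304) (Pf.B 10 3 (Pf.C 1 0x409141c303) (Pf.B 10 2 (Pf.C 0 0x41018a) (Pf.B 10 1 (Pf.C 0 0x20c10a) (Pf.C 0 0x102408a))))))
 (Pq.cons (Pq.L [0,1,2,3,4] 1023 (Pf.B 10 4 (Pf.C 1 0x409141c304) (Pf.B 10 3 (Pf.C 1 0x409141c303) (Pf.B 10 2 (Pf.C 0 0x41018a) (Pf.B 10 1 (Pf.C 0 0x20c10a) (Pf.B 10 0 (Pf.C 0 32906) (Pf.C 0 0x1200501)))))))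
 Pq.nil)))))))) (Pq.cons (Pq.D 3 (Pq.cons (Pq.D 4 (Pq.cons (Pq.L [1,2] 910 (Pf.C 1 0x5091008086))
 (Pq.cons (Pq.L [1,2] 910 (Pf.C 1 0x5091008086))
 (Pq.cons (Pq.L [1,2] 910 (Pf.C 1 0x5091008086))
 (Pq.cons (Pq.L [1,2] 910 (Pf.C 1 0x5091008086))
 (Pq.cons (Pq.L [1,3] 910 (Pf.C 1 0x509100c086))
 (Pq.cons (Pq.L [2,3] 910 (Pf.C 1 0x509100c106))
 (Pq.cons (Pq.L [1,2] 910 (Pf.C 1 0x5091008086))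
 Pq.nil)))))))) (Pq.cons (Pq.L [3,4,5] 1023 (Pf.B 10 4 (Pf.C 1 0x409141c304) (Pf.B 10 5 (Pf.B 10 3 (Pf.C 1 0x409141c303) (Pf.C 0 0xa1018a)) (Pf.C 0 0x1214504))))
 (Pq.cons (Pq.L [3,4] 1023 (Pf.B 10 3 (Pf.C 1 0x409141c303) (Pf.B 10 4 (Pf.C 1 0x203141c308) (Pf.C 0 0x1210503))))
 (Pq.cons (Pq.L [3,4] 1023 (Pf.B 10 4 (Pf.C 1 0x409141c304) (Pf.B 10 3 (Pf.C 1 0x184141c308) (Pf.C 0 0x120c504))))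
 (Pq.cons (Pq.L [2,3,4] 1023 (Pf.B 10 4 (Pf.C 1 0x409141c304) (Pf.B 10 3 (Pf.C 1 0x409141c303) (Pf.B 10 2 (Pf.C 0 0x41018a) (Pf.C 0 0x1208503)))))
 (Pq.cons (Pq.L [1,2,3,4] 1023 (Pf.B 10 4 (Pf.C 1 0x409141c304) (Pf.B 10 3 (Pf.C 1 0x409141c303) (Pf.B 10 2 (Pf.C 0 0x41018a) (Pf.B 10 1 (Pf.C 0 0x20c10a) (Pf.C 0 0x1204502))))))
 (Pq.cons (Pq.L [0,1,2,3,4] 1023 (Pf.B 10 4 (Pf.C 1 0x409141c304) (Pf.B 10 3 (Pf.C 1 0x409141c303) (Pf.B 10 2 (Pf.C 0 0x41018a) (Pf.B 10 1 (Pf.C 0 0x20c10a) (Pf.B 10 0 (Pf.C 0 32906) (Pf.C 0 0x102400a)))))))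
 Pq.nil)))))))) Pq.nil)))))))) Pq.nil)))
theorem e_o9 : AllRef e_T e_G4 (List.drop 1 (List.drop 3 (List.flatMap (splitP 1) (List.take 1 (List.drop 1 (List.take 3 (List.flatMap (splitP 0) [⟨[[5,6,7,8,9,10,11],[5,6,7,8,9,10,11],[5,6,7,8,9,10,11],[5,6,7,8,9,10,11],[5,6,7,8,9,10,11]],[⟨0,1,true⟩,⟨0,2,false⟩,⟨0,3,false⟩,⟨0,4,false⟩,⟨1,2,false⟩,⟨1,3,false⟩,⟨1,4,false⟩,⟨2,3,true⟩,⟨2,4,false⟩,⟨3,4,true⟩],[],[]⟩]))))))) :=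
  chkPq_sound e_o9c _ (by decide +kernel)
noncomputable def e_o10c : Pq := (Pq.cons (Pq.D 2 (Pq.cons (Pq.D 3 (Pq.cons (Pq.D 4 (Pq.cons (Pq.L [0,1] 910 (Pf.C 1 0x5091004006))
 (Pq.cons (Pq.L [0,1] 910 (Pf.C 1 0x5091004006))
 (Pq.cons (Pq.L [0,1] 910 (Pf.C 1 0x5091004006))
 (Pq.cons (Pq.L [0,1] 910 (Pf.C 1 0x5091004006))
 (Pq.cons (Pq.L [0,1] 910 (Pf.C 1 0x5091004006))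
 (Pq.cons (Pq.L [0,2] 910 (Pf.C 1 0x5091008006))
 (Pq.cons (Pq.L [1,2] 910 (Pf.C 1 0x5091008086))
 Pq.nil)))))))) (Pq.cons (Pq.L [3,5] 1023 (Pf.B 10 3 (Pf.C 1 0x409141c303) (Pf.B 10 5 (Pf.C 1 0x283141c308) (Pf.C 0 0x1214503))))
 (Pq.cons (Pq.L [3,4,5] 1023 (Pf.B 10 5 (Pf.C 1 0x409141c305) (Pf.B 10 4 (Pf.B 10 3 (Pf.C 1 0x409141c303) (Pf.C 0 0x81418a)) (Pf.C 0 0x1210505))))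
 (Pq.cons (Pq.L [3,5] 1023 (Pf.B 10 5 (Pf.C 1 0x409141c305) (Pf.B 10 3 (Pf.C 1 0x185141c308) (Pf.C 0 0x120c505))))
 (Pq.cons (Pq.L [2,3,4,5] 1023 (Pf.B 10 5 (Pf.C 1 0x409141c305) (Pf.B 10 3 (Pf.C 1 0x409141c303) (Pf.B 10 4 (Pf.C 0 0x81418a) (Pf.B 10 2 (Pf.C 0 0x41018a) (Pf.C 0 0x1208503))))))
 (Pq.cons (Pq.L [1,2,3,4,5] 1023 (Pf.B 10 5 (Pf.C 1 0x409141c305) (Pf.B 10 3 (Pf.C 1 0x409141c303) (Pf.B 10 4 (Pf.C 0 0x81418a) (Pf.B 10 2 (Pf.C 0 0x41018a) (Pf.B 10 1 (Pf.C 0 0x20c10a) (Pf.C 0 0x1204502)))))))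
 (Pq.cons (Pq.L [0,1,2,3,4,5] 1023 (Pf.B 10 5 (Pf.C 1 0x409141c305) (Pf.B 10 3 (Pf.C 1 0x409141c303) (Pf.B 10 4 (Pf.C 0 0x81418a) (Pf.B 10 2 (Pf.C 0 0x41018a) (Pf.B 10 1 (Pf.C 0 0x20c10a) (Pf.B 10 0 (Pf.C 0 32906) (Pf.C 0 0x1200501))))))))
 Pq.nil)))))))) (Pq.cons (Pq.D 3 (Pq.cons (Pq.D 4 (Pq.cons (Pq.L [0,1] 910 (Pf.C 1 0x5091004006))
 (Pq.cons (Pq.L [0,1] 910 (Pf.C 1 0x5091004006))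
 (Pq.cons (Pq.L [0,1] 910 (Pf.C 1 0x5091004006))
 (Pq.cons (Pq.L [0,1] 910 (Pf.C 1 0x5091004006))
 (Pq.cons (Pq.L [0,1] 910 (Pf.C 1 0x5091004006))
 (Pq.cons (Pq.L [0,2] 910 (Pf.C 1 0x5091008006))
 (Pq.cons (Pq.L [1,2] 910 (Pf.C 1 0x5091008086))
 Pq.nil)))))))) (Pq.cons (Pq.L [2,3,4,5] 987 (Pf.B 10 5 (Pf.B 10 3 (Pf.C 1 0x405061c30a) (Pf.B 10 4 (Pf.B 10 2 (Pf.C 1 0x405041c30a) (Pf.C 0 0x80c10a)) (Pf.C 0 0xa0c20a))) (Pf.C 0 0x102428a)))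
 (Pq.cons (Pq.L [2,3,4,5] 1023 (Pf.B 10 3 (Pf.C 1 0x409141c303) (Pf.B 10 4 (Pf.B 10 5 (Pf.B 10 2 (Pf.C 1 0x405041c30a) (Pf.C 0 0x80c10a)) (Pf.C 0 0x80c28a)) (Pf.C 0 0x1210503))))
 (Pq.cons (Pq.L [2,3] 1023 (Pf.B 10 2 (Pf.C 1 0x409141c302) (Pf.B 10 3 (Pf.C 1 0x182141c308) (Pf.C 0 0x120c502))))
 (Pq.cons (Pq.L [2,3] 1023 (Pf.B 10 3 (Pf.C 1 0x409141c303) (Pf.B 10 2 (Pf.C 1 0x103141c308) (Pf.C 0 0x1208503))))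
 (Pq.cons (Pq.L [1,2,3] 1023 (Pf.B 10 3 (Pf.C 1 0x409141c303) (Pf.B 10 2 (Pf.C 1 0x409141c302) (Pf.B 10 1 (Pf.C 0 0x20c10a) (Pf.C 0 0x1204502)))))
 (Pq.cons (Pq.L [0,1,2,3] 1023 (Pf.B 10 3 (Pf.C 1 0x409141c303) (Pf.B 10 2 (Pf.C 1 0x409141c302) (Pf.B 10 1 (Pf.C 0 0x20c10a) (Pf.B 10 0 (Pf.C 0 32906) (Pf.C 0 0x1200501))))))
 Pq.nil)))))))) (Pq.cons (Pq.D 3 (Pq.cons (Pq.D 4 (Pq.cons (Pq.L [0,1] 910 (Pf.C 1 0x5091004006))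
 (Pq.cons (Pq.L [0,1] 910 (Pf.C 1 0x5091004006))
 (Pq.cons (Pq.L [0,1] 910 (Pf.C 1 0x5091004006))
 (Pq.cons (Pq.L [0,1] 910 (Pf.C 1 0x5091004006))
 (Pq.cons (Pq.L [0,1] 910 (Pf.C 1 0x5091004006))
 (Pq.cons (Pq.L [0,2] 910 (Pf.C 1 0x5091008006))
 (Pq.cons (Pq.L [1,2] 910 (Pf.C 1 0x5091008086))
 Pq.nil)))))))) (Pq.cons (Pq.L [3,5] 1023 (Pf.B 10 3 (Pf.C 1 0x409141c303) (Pf.B 10 5 (Pf.C 1 0x283141c308) (Pf.C 0 0x1214503))))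
 (Pq.cons (Pq.L [3,4,5] 1023 (Pf.B 10 5 (Pf.C 1 0x409141c305) (Pf.B 10 4 (Pf.B 10 3 (Pf.C 1 0x409141c303) (Pf.C 0 0x81418a)) (Pf.C 0 0x102420a))))
 (Pq.cons (Pq.L [3,5] 1023 (Pf.B 10 5 (Pf.C 1 0x409141c305) (Pf.B 10 3 (Pf.C 1 0x185141c308) (Pf.C 0 0x120c505))))
 (Pq.cons (Pq.L [2,3,4,5] 1023 (Pf.B 10 5 (Pf.C 1 0x409141c305) (Pf.B 10 3 (Pf.C 1 0x409141c303) (Pf.B 10 4 (Pf.C 0 0x81418a) (Pf.B 10 2 (Pf.C 0 0x41018a) (Pf.C 0 0x1208503))))))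
 (Pq.cons (Pq.L [1,2,3,4,5] 1023 (Pf.B 10 5 (Pf.C 1 0x409141c305) (Pf.B 10 3 (Pf.C 1 0x409141c303) (Pf.B 10 4 (Pf.C 0 0x81418a) (Pf.B 10 2 (Pf.C 0 0x41018a) (Pf.B 10 1 (Pf.C 0 0x20c10a) (Pf.C 0 0x1204502)))))))
 (Pq.cons (Pq.L [0,1,2,3,4,5] 1023 (Pf.B 10 5 (Pf.C 1 0x409141c305) (Pf.B 10 3 (Pf.C 1 0x409141c303) (Pf.B 10 4 (Pf.C 0 0x81418a) (Pf.B 10 2 (Pf.C 0 0x41018a) (Pf.B 10 1 (Pf.C 0 0x20c10a) (Pf.B 10 0 (Pf.C 0 32906) (Pf.C 0 0x1200501))))))))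
 Pq.nil)))))))) (Pq.cons (Pq.D 3 (Pq.cons (Pq.D 4 (Pq.cons (Pq.L [0,1] 910 (Pf.C 1 0x5091004006))
 (Pq.cons (Pq.L [0,1] 910 (Pf.C 1 0x5091004006))
 (Pq.cons (Pq.L [0,1] 910 (Pf.C 1 0x5091004006))
 (Pq.cons (Pq.L [0,1] 910 (Pf.C 1 0x5091004006))
 (Pq.cons (Pq.L [0,1] 910 (Pf.C 1 0x5091004006))
 (Pq.cons (Pq.L [0,2] 910 (Pf.C 1 0x5091008006))
 (Pq.cons (Pq.L [1,2] 910 (Pf.C 1 0x5091008086))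
 Pq.nil)))))))) (Pq.cons (Pq.L [2,5] 1023 (Pf.B 10 2 (Pf.C 1 0x409141c302) (Pf.B 10 5 (Pf.C 1 0x282141c308) (Pf.C 0 0x1214502))))
 (Pq.cons (Pq.L [2,3,4,5] 1023 (Pf.B 10 5 (Pf.C 1 0x409141c305) (Pf.B 10 4 (Pf.B 10 3 (Pf.B 10 2 (Pf.C 1 0x403041c30a) (Pf.C 0 0x61410a)) (Pf.C 0 0x81418a)) (Pf.C 0 0x1210505))))
 (Pq.cons (Pq.L [2,3,5] 1023 (Pf.B 10 5 (Pf.C 1 0x409141c305) (Pf.B 10 3 (Pf.B 10 2 (Pf.C 1 0x403041c30a) (Pf.C 0 0x61410a)) (Pf.C 0 0x102418a))))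
 (Pq.cons (Pq.L [2,5] 1023 (Pf.B 10 5 (Pf.C 1 0x409141c305) (Pf.B 10 2 (Pf.C 1 0x105141c308) (Pf.C 0 0x1208505))))
 (Pq.cons (Pq.L [1,2,3,4,5] 1023 (Pf.B 10 5 (Pf.C 1 0x409141c305) (Pf.B 10 2 (Pf.C 1 0x409141c302) (Pf.B 10 4 (Pf.C 0 0x81410a) (Pf.B 10 3 (Pf.C 0 0x61010a) (Pf.B 10 1 (Pf.C 0 0x20c10a) (Pf.C 0 0x1204502)))))))
 (Pq.cons (Pq.L [0,1,2,3,4,5] 1023 (Pf.B 10 5 (Pf.C 1 0x409141c305) (Pf.B 10 2 (Pf.C 1 0x409141c302) (Pf.B 10 4 (Pf.C 0 0x81410a) (Pf.B 10 3 (Pf.C 0 0x61010a) (Pf.B 10 1 (Pf.C 0 0x20c10a) (Pf.B 10 0 (Pf.C 0 32906) (Pf.C 0 0x1200501))))))))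
 Pq.nil)))))))) (Pq.cons (Pq.D 3 (Pq.cons (Pq.D 4 (Pq.cons (Pq.L [0,1] 910 (Pf.C 1 0x5091004006))
 (Pq.cons (Pq.L [0,1] 910 (Pf.C 1 0x5091004006))
 (Pq.cons (Pq.L [0,1] 910 (Pf.C 1 0x5091004006))
 (Pq.cons (Pq.L [0,1] 910 (Pf.C 1 0x5091004006))
 (Pq.cons (Pq.L [0,1] 910 (Pf.C 1 0x5091004006))
 (Pq.cons (Pq.L [0,3] 910 (Pf.C 1 0x509100c006))
 (Pq.cons (Pq.L [1,3] 910 (Pf.C 1 0x509100c086))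
 Pq.nil)))))))) (Pq.cons (Pq.L [3,5] 1023 (Pf.B 10 3 (Pf.C 1 0x409141c303) (Pf.B 10 5 (Pf.C 1 0x283141c308) (Pf.C 0 0x1214503))))
 (Pq.cons (Pq.L [3,4,5] 1023 (Pf.B 10 5 (Pf.C 1 0x409141c305) (Pf.B 10 4 (Pf.B 10 3 (Pf.C 1 0x409141c303) (Pf.C 0 0x81418a)) (Pf.C 0 0x1210505))))
 (Pq.cons (Pq.L [3,5] 1023 (Pf.B 10 5 (Pf.C 1 0x409141c305) (Pf.B 10 3 (Pf.C 1 0x185141c308) (Pf.C 0 0x120c505))))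
 (Pq.cons (Pq.L [2,3,4,5] 1023 (Pf.B 10 5 (Pf.C 1 0x409141c305) (Pf.B 10 3 (Pf.C 1 0x409141c303) (Pf.B 10 4 (Pf.C 0 0x81418a) (Pf.B 10 2 (Pf.C 0 0x41018a) (Pf.C 0 0x102410a))))))
 (Pq.cons (Pq.L [1,2,3,4,5] 1023 (Pf.B 10 5 (Pf.C 1 0x409141c305) (Pf.B 10 3 (Pf.C 1 0x409141c303) (Pf.B 10 4 (Pf.C 0 0x81418a) (Pf.B 10 2 (Pf.C 0 0x41018a) (Pf.B 10 1 (Pf.C 0 0x20c10a) (Pf.C 0 0x1204502)))))))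
 (Pq.cons (Pq.L [0,1,2,3,4,5] 1023 (Pf.B 10 5 (Pf.C 1 0x409141c305) (Pf.B 10 3 (Pf.C 1 0x409141c303) (Pf.B 10 4 (Pf.C 0 0x81418a) (Pf.B 10 2 (Pf.C 0 0x41018a) (Pf.B 10 1 (Pf.C 0 0x20c10a) (Pf.B 10 0 (Pf.C 0 32906) (Pf.C 0 0x1200501))))))))
 Pq.nil)))))))) (Pq.cons (Pq.D 3 (Pq.cons (Pq.D 4 (Pq.cons (Pq.L [0,2] 910 (Pf.C 1 0x5091008006))
 (Pq.cons (Pq.L [0,2] 910 (Pf.C 1 0x5091008006))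
 (Pq.cons (Pq.L [0,2] 910 (Pf.C 1 0x5091008006))
 (Pq.cons (Pq.L [0,2] 910 (Pf.C 1 0x5091008006))
 (Pq.cons (Pq.L [0,3] 910 (Pf.C 1 0x509100c006))
 (Pq.cons (Pq.L [0,2] 910 (Pf.C 1 0x5091008006))
 (Pq.cons (Pq.L [2,3] 910 (Pf.C 1 0x509100c106))
 Pq.nil)))))))) (Pq.cons (Pq.L [3,5] 1023 (Pf.B 10 3 (Pf.C 1 0x409141c303) (Pf.B 10 5 (Pf.C 1 0x283141c308) (Pf.C 0 0x1214503))))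
 (Pq.cons (Pq.L [3,4,5] 1023 (Pf.B 10 5 (Pf.C 1 0x409141c305) (Pf.B 10 4 (Pf.B 10 3 (Pf.C 1 0x409141c303) (Pf.C 0 0x81418a)) (Pf.C 0 0x1210505))))
 (Pq.cons (Pq.L [3,5] 1023 (Pf.B 10 5 (Pf.C 1 0x409141c305) (Pf.B 10 3 (Pf.C 1 0x185141c308) (Pf.C 0 0x120c505))))
 (Pq.cons (Pq.L [2,3,4,5] 1023 (Pf.B 10 5 (Pf.C 1 0x409141c305) (Pf.B 10 3 (Pf.C 1 0x409141c303) (Pf.B 10 4 (Pf.C 0 0x81418a) (Pf.B 10 2 (Pf.C 0 0x41018a) (Pf.C 0 0x1208503))))))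
 (Pq.cons (Pq.L [1,2,3,4,5] 1023 (Pf.B 10 5 (Pf.C 1 0x409141c305) (Pf.B 10 3 (Pf.C 1 0x409141c303) (Pf.B 10 4 (Pf.C 0 0x81418a) (Pf.B 10 2 (Pf.C 0 0x41018a) (Pf.B 10 1 (Pf.C 0 0x20c10a) (Pf.C 0 0x102408a)))))))
 (Pq.cons (Pq.L [0,1,2,3,4,5] 1023 (Pf.B 10 5 (Pf.C 1 0x409141c305) (Pf.B 10 3 (Pf.C 1 0x409141c303) (Pf.B 10 4 (Pf.C 0 0x81418a) (Pf.B 10 2 (Pf.C 0 0x41018a) (Pf.B 10 1 (Pf.C 0 0x20c10a) (Pf.B 10 0 (Pf.C 0 32906) (Pf.C 0 0x1200501))))))))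
 Pq.nil)))))))) (Pq.cons (Pq.D 3 (Pq.cons (Pq.D 4 (Pq.cons (Pq.L [1,2] 910 (Pf.C 1 0x5091008086))
 (Pq.cons (Pq.L [1,2] 910 (Pf.C 1 0x5091008086))
 (Pq.cons (Pq.L [1,2] 910 (Pf.C 1 0x5091008086))
 (Pq.cons (Pq.L [1,2] 910 (Pf.C 1 0x5091008086))
 (Pq.cons (Pq.L [1,3] 910 (Pf.C 1 0x509100c086))
 (Pq.cons (Pq.L [2,3] 910 (Pf.C 1 0x509100c106))
 (Pq.cons (Pq.L [1,2] 910 (Pf.C 1 0x5091008086))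
 Pq.nil)))))))) (Pq.cons (Pq.L [3,5] 1023 (Pf.B 10 3 (Pf.C 1 0x409141c303) (Pf.B 10 5 (Pf.C 1 0x283141c308) (Pf.C 0 0x1214503))))
 (Pq.cons (Pq.L [3,4,5] 1023 (Pf.B 10 5 (Pf.C 1 0x409141c305) (Pf.B 10 4 (Pf.B 10 3 (Pf.C 1 0x409141c303) (Pf.C 0 0x81418a)) (Pf.C 0 0x1210505))))
 (Pq.cons (Pq.L [3,5] 1023 (Pf.B 10 5 (Pf.C 1 0x409141c305) (Pf.B 10 3 (Pf.C 1 0x185141c308) (Pf.C 0 0x120c505))))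
 (Pq.cons (Pq.L [2,3,4,5] 1023 (Pf.B 10 5 (Pf.C 1 0x409141c305) (Pf.B 10 3 (Pf.C 1 0x409141c303) (Pf.B 10 4 (Pf.C 0 0x81418a) (Pf.B 10 2 (Pf.C 0 0x41018a) (Pf.C 0 0x1208503))))))
 (Pq.cons (Pq.L [1,2,3,4,5] 1023 (Pf.B 10 5 (Pf.C 1 0x409141c305) (Pf.B 10 3 (Pf.C 1 0x409141c303) (Pf.B 10 4 (Pf.C 0 0x81418a) (Pf.B 10 2 (Pf.C 0 0x41018a) (Pf.B 10 1 (Pf.C 0 0x20c10a) (Pf.C 0 0x1204502)))))))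
 (Pq.cons (Pq.L [0,1,2,3,4,5] 1023 (Pf.B 10 5 (Pf.C 1 0x409141c305) (Pf.B 10 3 (Pf.C 1 0x409141c303) (Pf.B 10 4 (Pf.C 0 0x81418a) (Pf.B 10 2 (Pf.C 0 0x41018a) (Pf.B 10 1 (Pf.C 0 0x20c10a) (Pf.B 10 0 (Pf.C 0 32906) (Pf.C 0 0x102400a))))))))
 Pq.nil)))))))) Pq.nil)))))))) (Pq.cons (Pq.D 2 (Pq.cons (Pq.D 3 (Pq.cons (Pq.D 4 (Pq.cons (Pq.L [0,1] 910 (Pf.C 1 0x5091004006))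
 (Pq.cons (Pq.L [0,1] 910 (Pf.C 1 0x5091004006))
 (Pq.cons (Pq.L [0,1] 910 (Pf.C 1 0x5091004006))
 (Pq.cons (Pq.L [0,1] 910 (Pf.C 1 0x5091004006))
 (Pq.cons (Pq.L [0,1] 910 (Pf.C 1 0x5091004006))
 (Pq.cons (Pq.L [0,2] 910 (Pf.C 1 0x5091008006))
 (Pq.cons (Pq.L [1,2] 910 (Pf.C 1 0x5091008086))
 Pq.nil)))))))) (Pq.cons (Pq.L [2,3,4,5] 1023 (Pf.B 10 3 (Pf.C 1 0x409141c303) (Pf.B 10 5 (Pf.B 10 4 (Pf.B 10 2 (Pf.C 1 0x409141c302) (Pf.C 0 0x80c10a)) (Pf.C 0 0xa0c20a)) (Pf.C 0 0x1214503))))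
 (Pq.cons (Pq.L [2,3,4] 1023 (Pf.B 10 3 (Pf.C 1 0x409141c303) (Pf.B 10 4 (Pf.B 10 2 (Pf.C 1 0x409141c302) (Pf.C 0 0x80c10a)) (Pf.C 0 0x1210503))))
 (Pq.cons (Pq.L [2,3] 1023 (Pf.B 10 2 (Pf.C 1 0x409141c302) (Pf.B 10 3 (Pf.C 1 0x182141c308) (Pf.C 0 0x120c502))))
 (Pq.cons (Pq.L [2,3] 1023 (Pf.B 10 3 (Pf.C 1 0x409141c303) (Pf.B 10 2 (Pf.C 1 0x103141c308) (Pf.C 0 0x1208503))))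
 (Pq.cons (Pq.L [1,2,3] 1023 (Pf.B 10 3 (Pf.C 1 0x409141c303) (Pf.B 10 2 (Pf.C 1 0x409141c302) (Pf.B 10 1 (Pf.C 0 0x20c10a) (Pf.C 0 0x1204502)))))
 (Pq.cons (Pq.L [0,1,2,3] 1023 (Pf.B 10 3 (Pf.C 1 0x409141c303) (Pf.B 10 2 (Pf.C 1 0x409141c302) (Pf.B 10 1 (Pf.C 0 0x20c10a) (Pf.B 10 0 (Pf.C 0 32906) (Pf.C 0 0x1200501))))))
 Pq.nil)))))))) (Pq.cons (Pq.D 3 (Pq.cons (Pq.D 4 (Pq.cons (Pq.L [0,1] 910 (Pf.C 1 0x5091004006))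
 (Pq.cons (Pq.L [0,1] 910 (Pf.C 1 0x5091004006))
 (Pq.cons (Pq.L [0,1] 910 (Pf.C 1 0x5091004006))
 (Pq.cons (Pq.L [0,1] 910 (Pf.C 1 0x5091004006))
 (Pq.cons (Pq.L [0,1] 910 (Pf.C 1 0x5091004006))
 (Pq.cons (Pq.L [0,2] 910 (Pf.C 1 0x5091008006))
 (Pq.cons (Pq.L [1,2] 910 (Pf.C 1 0x5091008086))
 Pq.nil)))))))) (Pq.cons (Pq.L [2,3,4,5] 1023 (Pf.B 10 5 (Pf.B 10 3 (Pf.C 1 0x409141c303) (Pf.B 10 4 (Pf.B 10 2 (Pf.C 1 0x409141c302) (Pf.C 0 0x80c10a)) (Pf.C 0 0xa0c20a))) (Pf.C 0 0x102428a)))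
 (Pq.cons (Pq.L [2,3,4] 1023 (Pf.B 10 3 (Pf.C 1 0x409141c303) (Pf.B 10 4 (Pf.B 10 2 (Pf.C 1 0x409141c302) (Pf.C 0 0x80c10a)) (Pf.C 0 0x1210503))))
 (Pq.cons (Pq.L [2,3] 1023 (Pf.B 10 2 (Pf.C 1 0x409141c302) (Pf.B 10 3 (Pf.C 1 0x182141c308) (Pf.C 0 0x120c502))))
 (Pq.cons (Pq.L [2,3] 1023 (Pf.B 10 3 (Pf.C 1 0x409141c303) (Pf.B 10 2 (Pf.C 1 0x103141c308) (Pf.C 0 0x1208503))))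
 (Pq.cons (Pq.L [1,2,3] 1023 (Pf.B 10 3 (Pf.C 1 0x409141c303) (Pf.B 10 2 (Pf.C 1 0x409141c302) (Pf.B 10 1 (Pf.C 0 0x20c10a) (Pf.C 0 0x1204502)))))
 (Pq.cons (Pq.L [0,1,2,3] 1023 (Pf.B 10 3 (Pf.C 1 0x409141c303) (Pf.B 10 2 (Pf.C 1 0x409141c302) (Pf.B 10 1 (Pf.C 0 0x20c10a) (Pf.B 10 0 (Pf.C 0 32906) (Pf.C 0 0x1200501))))))
 Pq.nil)))))))) (Pq.cons (Pq.D 3 (Pq.cons (Pq.D 4 (Pq.cons (Pq.L [0,1] 910 (Pf.C 1 0x5091004006))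
 (Pq.cons (Pq.L [0,1] 910 (Pf.C 1 0x5091004006))
 (Pq.cons (Pq.L [0,1] 910 (Pf.C 1 0x5091004006))
 (Pq.cons (Pq.L [0,1] 910 (Pf.C 1 0x5091004006))
 (Pq.cons (Pq.L [0,1] 910 (Pf.C 1 0x5091004006))
 (Pq.cons (Pq.L [0,2] 910 (Pf.C 1 0x5091008006))
 (Pq.cons (Pq.L [1,2] 910 (Pf.C 1 0x5091008086))
 Pq.nil)))))))) (Pq.cons (Pq.L [2,3,4,5] 1023 (Pf.B 10 3 (Pf.C 1 0x409141c303) (Pf.B 10 5 (Pf.B 10 4 (Pf.B 10 2 (Pf.C 1 0x409141c302) (Pf.C 0 0x80c10a)) (Pf.C 0 0xa0c20a)) (Pf.C 0 0x1214503))))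
 (Pq.cons (Pq.L [2,3,4] 1023 (Pf.B 10 4 (Pf.B 10 3 (Pf.C 1 0x409141c303) (Pf.B 10 2 (Pf.C 1 0x409141c302) (Pf.C 0 0x80c10a))) (Pf.C 0 0x102420a)))
 (Pq.cons (Pq.L [2,3] 1023 (Pf.B 10 2 (Pf.C 1 0x409141c302) (Pf.B 10 3 (Pf.C 1 0x182141c308) (Pf.C 0 0x120c502))))
 (Pq.cons (Pq.L [2,3] 1023 (Pf.B 10 3 (Pf.C 1 0x409141c303) (Pf.B 10 2 (Pf.C 1 0x103141c308) (Pf.C 0 0x1208503))))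
 (Pq.cons (Pq.L [1,2,3] 1023 (Pf.B 10 3 (Pf.C 1 0x409141c303) (Pf.B 10 2 (Pf.C 1 0x409141c302) (Pf.B 10 1 (Pf.C 0 0x20c10a) (Pf.C 0 0x1204502)))))
 (Pq.cons (Pq.L [0,1,2,3] 1023 (Pf.B 10 3 (Pf.C 1 0x409141c303) (Pf.B 10 2 (Pf.C 1 0x409141c302) (Pf.B 10 1 (Pf.C 0 0x20c10a) (Pf.B 10 0 (Pf.C 0 32906) (Pf.C 0 0x1200501))))))
 Pq.nil)))))))) (Pq.cons (Pq.D 3 (Pq.cons (Pq.D 4 (Pq.cons (Pq.L [0,1] 910 (Pf.C 1 0x5091004006))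
 (Pq.cons (Pq.L [0,1] 910 (Pf.C 1 0x5091004006))
 (Pq.cons (Pq.L [0,1] 910 (Pf.C 1 0x5091004006))
 (Pq.cons (Pq.L [0,1] 910 (Pf.C 1 0x5091004006))
 (Pq.cons (Pq.L [0,1] 910 (Pf.C 1 0x5091004006))
 (Pq.cons (Pq.L [0,2] 910 (Pf.C 1 0x5091008006))
 (Pq.cons (Pq.L [1,2] 910 (Pf.C 1 0x5091008086))
 Pq.nil)))))))) (Pq.cons (Pq.L [1,2,3,4,5] 1023 (Pf.B 10 2 (Pf.C 1 0x409141c302) (Pf.B 10 5 (Pf.B 10 4 (Pf.B 10 3 (Pf.B 10 1 (Pf.C 1 0x403021c30a) (Pf.C 0 0x60808a)) (Pf.C 0 0x80818a)) (Pf.C 0 0xa0820a)) (Pf.C 0 0x1214502))))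
 (Pq.cons (Pq.L [1,2,3,4] 1023 (Pf.B 10 2 (Pf.C 1 0x409141c302) (Pf.B 10 4 (Pf.B 10 3 (Pf.B 10 1 (Pf.C 1 0x403021c30a) (Pf.C 0 0x60808a)) (Pf.C 0 0x80818a)) (Pf.C 0 0x1210502))))
 (Pq.cons (Pq.L [1,2,3] 987 (Pf.B 10 3 (Pf.B 10 2 (Pf.C 1 0x403041c30a) (Pf.B 10 1 (Pf.C 1 0x403021c30a) (Pf.C 0 0x60808a))) (Pf.C 0 0x102418a)))
 (Pq.cons (Pq.L [1,2] 1023 (Pf.B 10 1 (Pf.C 1 0x409141c301) (Pf.B 10 2 (Pf.C 1 0x101141c308) (Pf.C 0 0x1208501))))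
 (Pq.cons (Pq.L [1,2] 1023 (Pf.B 10 2 (Pf.C 1 0x409141c302) (Pf.B 10 1 (Pf.C 1 0x82141c308) (Pf.C 0 0x1204502))))
 (Pq.cons (Pq.L [0,1,2] 1023 (Pf.B 10 2 (Pf.C 1 0x409141c302) (Pf.B 10 1 (Pf.C 1 0x409141c301) (Pf.B 10 0 (Pf.C 0 32906) (Pf.C 0 0x1200501)))))
 Pq.nil)))))))) (Pq.cons (Pq.D 3 (Pq.cons (Pq.D 4 (Pq.cons (Pq.L [0,1] 910 (Pf.C 1 0x5091004006))
 (Pq.cons (Pq.L [0,1] 910 (Pf.C 1 0x5091004006))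
 (Pq.cons (Pq.L [0,1] 910 (Pf.C 1 0x5091004006))
 (Pq.cons (Pq.L [0,1] 910 (Pf.C 1 0x5091004006))
 (Pq.cons (Pq.L [0,1] 910 (Pf.C 1 0x5091004006))
 (Pq.cons (Pq.L [0,3] 910 (Pf.C 1 0x509100c006))
 (Pq.cons (Pq.L [1,3] 910 (Pf.C 1 0x509100c086))
 Pq.nil)))))))) (Pq.cons (Pq.L [1,2,3,4,5] 1023 (Pf.B 10 3 (Pf.C 1 0x409141c303) (Pf.B 10 5 (Pf.B 10 4 (Pf.B 10 2 (Pf.B 10 1 (Pf.C 1 0x402021c30a) (Pf.C 0 0x40c08a)) (Pf.C 0 0x80c10a)) (Pf.C 0 0xa0c20a)) (Pf.C 0 0x1214503))))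
 (Pq.cons (Pq.L [1,2,3,4] 1023 (Pf.B 10 3 (Pf.C 1 0x409141c303) (Pf.B 10 4 (Pf.B 10 2 (Pf.B 10 1 (Pf.C 1 0x402021c30a) (Pf.C 0 0x40c08a)) (Pf.C 0 0x80c10a)) (Pf.C 0 0x1210503))))
 (Pq.cons (Pq.L [1,3] 1023 (Pf.B 10 1 (Pf.C 1 0x409141c301) (Pf.B 10 3 (Pf.C 1 0x181141c308) (Pf.C 0 0x120c501))))
 (Pq.cons (Pq.L [1,2,3] 1023 (Pf.B 10 3 (Pf.C 1 0x409141c303) (Pf.B 10 2 (Pf.B 10 1 (Pf.C 1 0x402021c30a) (Pf.C 0 0x40c08a)) (Pf.C 0 0x102410a))))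
 (Pq.cons (Pq.L [1,3] 1023 (Pf.B 10 3 (Pf.C 1 0x409141c303) (Pf.B 10 1 (Pf.C 1 0x83141c308) (Pf.C 0 0x1204503))))
 (Pq.cons (Pq.L [0,1,2,3] 1023 (Pf.B 10 3 (Pf.C 1 0x409141c303) (Pf.B 10 1 (Pf.C 1 0x409141c301) (Pf.B 10 2 (Pf.C 0 0x40c08a) (Pf.B 10 0 (Pf.C 0 32906) (Pf.C 0 0x1200501))))))
 Pq.nil)))))))) (Pq.cons (Pq.D 3 (Pq.cons (Pq.D 4 (Pq.cons (Pq.L [0,2] 910 (Pf.C 1 0x5091008006))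
 (Pq.cons (Pq.L [0,2] 910 (Pf.C 1 0x5091008006))
 (Pq.cons (Pq.L [0,2] 910 (Pf.C 1 0x5091008006))
 (Pq.cons (Pq.L [0,2] 910 (Pf.C 1 0x5091008006))
 (Pq.cons (Pq.L [0,3] 910 (Pf.C 1 0x509100c006))
 (Pq.cons (Pq.L [0,2] 910 (Pf.C 1 0x5091008006))
 (Pq.cons (Pq.L [2,3] 910 (Pf.C 1 0x509100c106))
 Pq.nil)))))))) (Pq.cons (Pq.L [2,3,4,5] 1023 (Pf.B 10 3 (Pf.C 1 0x409141c303) (Pf.B 10 5 (Pf.B 10 4 (Pf.B 10 2 (Pf.C 1 0x409141c302) (Pf.C 0 0x80c10a)) (Pf.C 0 0xa0c20a)) (Pf.C 0 0x1214503))))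
 (Pq.cons (Pq.L [2,3,4] 1023 (Pf.B 10 3 (Pf.C 1 0x409141c303) (Pf.B 10 4 (Pf.B 10 2 (Pf.C 1 0x409141c302) (Pf.C 0 0x80c10a)) (Pf.C 0 0x1210503))))
 (Pq.cons (Pq.L [2,3] 1023 (Pf.B 10 2 (Pf.C 1 0x409141c302) (Pf.B 10 3 (Pf.C 1 0x182141c308) (Pf.C 0 0x120c502))))
 (Pq.cons (Pq.L [2,3] 1023 (Pf.B 10 3 (Pf.C 1 0x409141c303) (Pf.B 10 2 (Pf.C 1 0x103141c308) (Pf.C 0 0x1208503))))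
 (Pq.cons (Pq.L [1,2,3] 1023 (Pf.B 10 3 (Pf.C 1 0x409141c303) (Pf.B 10 2 (Pf.C 1 0x409141c302) (Pf.B 10 1 (Pf.C 0 0x20c10a) (Pf.C 0 0x102408a)))))
 (Pq.cons (Pq.L [0,1,2,3] 1023 (Pf.B 10 3 (Pf.C 1 0x409141c303) (Pf.B 10 2 (Pf.C 1 0x409141c302) (Pf.B 10 1 (Pf.C 0 0x20c10a) (Pf.B 10 0 (Pf.C 0 32906) (Pf.C 0 0x1200501))))))
 Pq.nil)))))))) (Pq.cons (Pq.D 3 (Pq.cons (Pq.D 4 (Pq.cons (Pq.L [1,2] 910 (Pf.C 1 0x5091008086))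
 (Pq.cons (Pq.L [1,2] 910 (Pf.C 1 0x5091008086))
 (Pq.cons (Pq.L [1,2] 910 (Pf.C 1 0x5091008086))
 (Pq.cons (Pq.L [1,2] 910 (Pf.C 1 0x5091008086))
 (Pq.cons (Pq.L [1,3] 910 (Pf.C 1 0x509100c086))
 (Pq.cons (Pq.L [2,3] 910 (Pf.C 1 0x509100c106))
 (Pq.cons (Pq.L [1,2] 910 (Pf.C 1 0x5091008086))
 Pq.nil)))))))) (Pq.cons (Pq.L [2,3,4,5] 1023 (Pf.B 10 3 (Pf.C 1 0x409141c303) (Pf.B 10 5 (Pf.B 10 4 (Pf.B 10 2 (Pf.C 1 0x409141c302) (Pf.C 0 0x80c10a)) (Pf.C 0 0xa0c20a)) (Pf.C 0 0x1214503))))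
 (Pq.cons (Pq.L [2,3,4] 1023 (Pf.B 10 3 (Pf.C 1 0x409141c303) (Pf.B 10 4 (Pf.B 10 2 (Pf.C 1 0x409141c302) (Pf.C 0 0x80c10a)) (Pf.C 0 0x1210503))))
 (Pq.cons (Pq.L [2,3] 1023 (Pf.B 10 2 (Pf.C 1 0x409141c302) (Pf.B 10 3 (Pf.C 1 0x182141c308) (Pf.C 0 0x120c502))))
 (Pq.cons (Pq.L [2,3] 1023 (Pf.B 10 3 (Pf.C 1 0x409141c303) (Pf.B 10 2 (Pf.C 1 0x103141c308) (Pf.C 0 0x1208503))))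
 (Pq.cons (Pq.L [1,2,3] 1023 (Pf.B 10 3 (Pf.C 1 0x409141c303) (Pf.B 10 2 (Pf.C 1 0x409141c302) (Pf.B 10 1 (Pf.C 0 0x20c10a) (Pf.C 0 0x1204502)))))
 (Pq.cons (Pq.L [0,1,2,3] 1023 (Pf.B 10 3 (Pf.C 1 0x409141c303) (Pf.B 10 2 (Pf.C 1 0x409141c302) (Pf.B 10 1 (Pf.C 0 0x20c10a) (Pf.B 10 0 (Pf.C 0 32906) (Pf.C 0 0x102400a))))))
 Pq.nil)))))))) Pq.nil)))))))) (Pq.cons (Pq.D 2 (Pq.cons (Pq.D 3 (Pq.cons (Pq.D 4 (Pq.cons (Pq.L [0,1] 910 (Pf.C 1 0x5091004006))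
 (Pq.cons (Pq.L [0,1] 910 (Pf.C 1 0x5091004006))
 (Pq.cons (Pq.L [0,1] 910 (Pf.C 1 0x5091004006))
 (Pq.cons (Pq.L [0,1] 910 (Pf.C 1 0x5091004006))
 (Pq.cons (Pq.L [0,1] 910 (Pf.C 1 0x5091004006))
 (Pq.cons (Pq.L [0,2] 910 (Pf.C 1 0x5091008006))
 (Pq.cons (Pq.L [1,2] 910 (Pf.C 1 0x5091008086))
 Pq.nil)))))))) (Pq.cons (Pq.L [3,5] 1023 (Pf.B 10 3 (Pf.C 1 0x409141c303) (Pf.B 10 5 (Pf.C 1 0x283141c308) (Pf.C 0 0x1214503))))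
 (Pq.cons (Pq.L [3,4,5] 1023 (Pf.B 10 5 (Pf.C 1 0x409141c305) (Pf.B 10 4 (Pf.B 10 3 (Pf.C 1 0x409141c303) (Pf.C 0 0x81418a)) (Pf.C 0 0x1210505))))
 (Pq.cons (Pq.L [3,5] 1023 (Pf.B 10 5 (Pf.C 1 0x409141c305) (Pf.B 10 3 (Pf.C 1 0x185141c308) (Pf.C 0 0x120c505))))
 (Pq.cons (Pq.L [2,3,4,5] 1023 (Pf.B 10 5 (Pf.C 1 0x409141c305) (Pf.B 10 3 (Pf.C 1 0x409141c303) (Pf.B 10 4 (Pf.C 0 0x81418a) (Pf.B 10 2 (Pf.C 0 0x41018a) (Pf.C 0 0x1208503))))))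
 (Pq.cons (Pq.L [1,2,3,4,5] 1023 (Pf.B 10 5 (Pf.C 1 0x409141c305) (Pf.B 10 3 (Pf.C 1 0x409141c303) (Pf.B 10 4 (Pf.C 0 0x81418a) (Pf.B 10 2 (Pf.C 0 0x41018a) (Pf.B 10 1 (Pf.C 0 0x20c10a) (Pf.C 0 0x1204502)))))))
 (Pq.cons (Pq.L [0,1,2,3,4,5] 1023 (Pf.B 10 5 (Pf.C 1 0x409141c305) (Pf.B 10 3 (Pf.C 1 0x409141c303) (Pf.B 10 4 (Pf.C 0 0x81418a) (Pf.B 10 2 (Pf.C 0 0x41018a) (Pf.B 10 1 (Pf.C 0 0x20c10a) (Pf.B 10 0 (Pf.C 0 32906) (Pf.C 0 0x1200501))))))))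
 Pq.nil)))))))) (Pq.cons (Pq.D 3 (Pq.cons (Pq.D 4 (Pq.cons (Pq.L [0,1] 910 (Pf.C 1 0x5091004006))
 (Pq.cons (Pq.L [0,1] 910 (Pf.C 1 0x5091004006))
 (Pq.cons (Pq.L [0,1] 910 (Pf.C 1 0x5091004006))
 (Pq.cons (Pq.L [0,1] 910 (Pf.C 1 0x5091004006))
 (Pq.cons (Pq.L [0,1] 910 (Pf.C 1 0x5091004006))
 (Pq.cons (Pq.L [0,2] 910 (Pf.C 1 0x5091008006))
 (Pq.cons (Pq.L [1,2] 910 (Pf.C 1 0x5091008086))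
 Pq.nil)))))))) (Pq.cons (Pq.L [2,3,4,5] 987 (Pf.B 10 5 (Pf.B 10 3 (Pf.C 1 0x405061c30a) (Pf.B 10 4 (Pf.B 10 2 (Pf.C 1 0x405041c30a) (Pf.C 0 0x80c10a)) (Pf.C 0 0xa0c20a))) (Pf.C 0 0x102428a)))
 (Pq.cons (Pq.L [2,3,4,5] 1023 (Pf.B 10 3 (Pf.C 1 0x409141c303) (Pf.B 10 4 (Pf.B 10 5 (Pf.B 10 2 (Pf.C 1 0x405041c30a) (Pf.C 0 0x80c10a)) (Pf.C 0 0x80c28a)) (Pf.C 0 0x1210503))))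
 (Pq.cons (Pq.L [2,3] 1023 (Pf.B 10 2 (Pf.C 1 0x409141c302) (Pf.B 10 3 (Pf.C 1 0x182141c308) (Pf.C 0 0x120c502))))
 (Pq.cons (Pq.L [2,3] 1023 (Pf.B 10 3 (Pf.C 1 0x409141c303) (Pf.B 10 2 (Pf.C 1 0x103141c308) (Pf.C 0 0x1208503))))
 (Pq.cons (Pq.L [1,2,3] 1023 (Pf.B 10 3 (Pf.C 1 0x409141c303) (Pf.B 10 2 (Pf.C 1 0x409141c302) (Pf.B 10 1 (Pf.C 0 0x20c10a) (Pf.C 0 0x1204502)))))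
 (Pq.cons (Pq.L [0,1,2,3] 1023 (Pf.B 10 3 (Pf.C 1 0x409141c303) (Pf.B 10 2 (Pf.C 1 0x409141c302) (Pf.B 10 1 (Pf.C 0 0x20c10a) (Pf.B 10 0 (Pf.C 0 32906) (Pf.C 0 0x1200501))))))
 Pq.nil)))))))) (Pq.cons (Pq.D 3 (Pq.cons (Pq.D 4 (Pq.cons (Pq.L [0,1] 910 (Pf.C 1 0x5091004006))
 (Pq.cons (Pq.L [0,1] 910 (Pf.C 1 0x5091004006))
 (Pq.cons (Pq.L [0,1] 910 (Pf.C 1 0x5091004006))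
 (Pq.cons (Pq.L [0,1] 910 (Pf.C 1 0x5091004006))
 (Pq.cons (Pq.L [0,1] 910 (Pf.C 1 0x5091004006))
 (Pq.cons (Pq.L [0,2] 910 (Pf.C 1 0x5091008006))
 (Pq.cons (Pq.L [1,2] 910 (Pf.C 1 0x5091008086))
 Pq.nil)))))))) (Pq.cons (Pq.L [3,5] 1023 (Pf.B 10 3 (Pf.C 1 0x409141c303) (Pf.B 10 5 (Pf.C 1 0x283141c308) (Pf.C 0 0x1214503))))
 (Pq.cons (Pq.L [3,4,5] 1023 (Pf.B 10 5 (Pf.C 1 0x409141c305) (Pf.B 10 4 (Pf.B 10 3 (Pf.C 1 0x409141c303) (Pf.C 0 0x81418a)) (Pf.C 0 0x102420a))))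
 (Pq.cons (Pq.L [3,5] 1023 (Pf.B 10 5 (Pf.C 1 0x409141c305) (Pf.B 10 3 (Pf.C 1 0x185141c308) (Pf.C 0 0x120c505))))
 (Pq.cons (Pq.L [2,3,4,5] 1023 (Pf.B 10 5 (Pf.C 1 0x409141c305) (Pf.B 10 3 (Pf.C 1 0x409141c303) (Pf.B 10 4 (Pf.C 0 0x81418a) (Pf.B 10 2 (Pf.C 0 0x41018a) (Pf.C 0 0x1208503))))))
 (Pq.cons (Pq.L [1,2,3,4,5] 1023 (Pf.B 10 5 (Pf.C 1 0x409141c305) (Pf.B 10 3 (Pf.C 1 0x409141c303) (Pf.B 10 4 (Pf.C 0 0x81418a) (Pf.B 10 2 (Pf.C 0 0x41018a) (Pf.B 10 1 (Pf.C 0 0x20c10a) (Pf.C 0 0x1204502)))))))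
 (Pq.cons (Pq.L [0,1,2,3,4,5] 1023 (Pf.B 10 5 (Pf.C 1 0x409141c305) (Pf.B 10 3 (Pf.C 1 0x409141c303) (Pf.B 10 4 (Pf.C 0 0x81418a) (Pf.B 10 2 (Pf.C 0 0x41018a) (Pf.B 10 1 (Pf.C 0 0x20c10a) (Pf.B 10 0 (Pf.C 0 32906) (Pf.C 0 0x1200501))))))))
 Pq.nil)))))))) (Pq.cons (Pq.D 3 (Pq.cons (Pq.D 4 (Pq.cons (Pq.L [0,1] 910 (Pf.C 1 0x5091004006))
 (Pq.cons (Pq.L [0,1] 910 (Pf.C 1 0x5091004006))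
 (Pq.cons (Pq.L [0,1] 910 (Pf.C 1 0x5091004006))
 (Pq.cons (Pq.L [0,1] 910 (Pf.C 1 0x5091004006))
 (Pq.cons (Pq.L [0,1] 910 (Pf.C 1 0x5091004006))
 (Pq.cons (Pq.L [0,2] 910 (Pf.C 1 0x5091008006))
 (Pq.cons (Pq.L [1,2] 910 (Pf.C 1 0x5091008086))
 Pq.nil)))))))) (Pq.cons (Pq.L [2,5] 1023 (Pf.B 10 2 (Pf.C 1 0x409141c302) (Pf.B 10 5 (Pf.C 1 0x282141c308) (Pf.C 0 0x1214502))))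
 (Pq.cons (Pq.L [2,3,4,5] 1023 (Pf.B 10 5 (Pf.C 1 0x409141c305) (Pf.B 10 4 (Pf.B 10 3 (Pf.B 10 2 (Pf.C 1 0x403041c30a) (Pf.C 0 0x61410a)) (Pf.C 0 0x81418a)) (Pf.C 0 0x1210505))))
 (Pq.cons (Pq.L [2,3,5] 1023 (Pf.B 10 5 (Pf.C 1 0x409141c305) (Pf.B 10 3 (Pf.B 10 2 (Pf.C 1 0x403041c30a) (Pf.C 0 0x61410a)) (Pf.C 0 0x102418a))))
 (Pq.cons (Pq.L [2,5] 1023 (Pf.B 10 5 (Pf.C 1 0x409141c305) (Pf.B 10 2 (Pf.C 1 0x105141c308) (Pf.C 0 0x1208505))))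
 (Pq.cons (Pq.L [1,2,3,4,5] 1023 (Pf.B 10 5 (Pf.C 1 0x409141c305) (Pf.B 10 2 (Pf.C 1 0x409141c302) (Pf.B 10 4 (Pf.C 0 0x81410a) (Pf.B 10 3 (Pf.C 0 0x61010a) (Pf.B 10 1 (Pf.C 0 0x20c10a) (Pf.C 0 0x1204502)))))))
 (Pq.cons (Pq.L [0,1,2,3,4,5] 1023 (Pf.B 10 5 (Pf.C 1 0x409141c305) (Pf.B 10 2 (Pf.C 1 0x409141c302) (Pf.B 10 4 (Pf.C 0 0x81410a) (Pf.B 10 3 (Pf.C 0 0x61010a) (Pf.B 10 1 (Pf.C 0 0x20c10a) (Pf.B 10 0 (Pf.C 0 32906) (Pf.C 0 0x1200501))))))))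
 Pq.nil)))))))) (Pq.cons (Pq.D 3 (Pq.cons (Pq.D 4 (Pq.cons (Pq.L [0,1] 910 (Pf.C 1 0x5091004006))
 (Pq.cons (Pq.L [0,1] 910 (Pf.C 1 0x5091004006))
 (Pq.cons (Pq.L [0,1] 910 (Pf.C 1 0x5091004006))
 (Pq.cons (Pq.L [0,1] 910 (Pf.C 1 0x5091004006))
 (Pq.cons (Pq.L [0,1] 910 (Pf.C 1 0x5091004006))
 (Pq.cons (Pq.L [0,3] 910 (Pf.C 1 0x509100c006))
 (Pq.cons (Pq.L [1,3] 910 (Pf.C 1 0x509100c086))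
 Pq.nil)))))))) (Pq.cons (Pq.L [3,5] 1023 (Pf.B 10 3 (Pf.C 1 0x409141c303) (Pf.B 10 5 (Pf.C 1 0x283141c308) (Pf.C 0 0x1214503))))
 (Pq.cons (Pq.L [3,4,5] 1023 (Pf.B 10 5 (Pf.C 1 0x409141c305) (Pf.B 10 4 (Pf.B 10 3 (Pf.C 1 0x409141c303) (Pf.C 0 0x81418a)) (Pf.C 0 0x1210505))))
 (Pq.cons (Pq.L [3,5] 1023 (Pf.B 10 5 (Pf.C 1 0x409141c305) (Pf.B 10 3 (Pf.C 1 0x185141c308) (Pf.C 0 0x120c505))))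
 (Pq.cons (Pq.L [2,3,4,5] 1023 (Pf.B 10 5 (Pf.C 1 0x409141c305) (Pf.B 10 3 (Pf.C 1 0x409141c303) (Pf.B 10 4 (Pf.C 0 0x81418a) (Pf.B 10 2 (Pf.C 0 0x41018a) (Pf.C 0 0x102410a))))))
 (Pq.cons (Pq.L [1,2,3,4,5] 1023 (Pf.B 10 5 (Pf.C 1 0x409141c305) (Pf.B 10 3 (Pf.C 1 0x409141c303) (Pf.B 10 4 (Pf.C 0 0x81418a) (Pf.B 10 2 (Pf.C 0 0x41018a) (Pf.B 10 1 (Pf.C 0 0x20c10a) (Pf.C 0 0x1204502)))))))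
 (Pq.cons (Pq.L [0,1,2,3,4,5] 1023 (Pf.B 10 5 (Pf.C 1 0x409141c305) (Pf.B 10 3 (Pf.C 1 0x409141c303) (Pf.B 10 4 (Pf.C 0 0x81418a) (Pf.B 10 2 (Pf.C 0 0x41018a) (Pf.B 10 1 (Pf.C 0 0x20c10a) (Pf.B 10 0 (Pf.C 0 32906) (Pf.C 0 0x1200501))))))))
 Pq.nil)))))))) (Pq.cons (Pq.D 3 (Pq.cons (Pq.D 4 (Pq.cons (Pq.L [0,2] 910 (Pf.C 1 0x5091008006))
 (Pq.cons (Pq.L [0,2] 910 (Pf.C 1 0x5091008006))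
 (Pq.cons (Pq.L [0,2] 910 (Pf.C 1 0x5091008006))
 (Pq.cons (Pq.L [0,2] 910 (Pf.C 1 0x5091008006))
 (Pq.cons (Pq.L [0,3] 910 (Pf.C 1 0x509100c006))
 (Pq.cons (Pq.L [0,2] 910 (Pf.C 1 0x5091008006))
 (Pq.cons (Pq.L [2,3] 910 (Pf.C 1 0x509100c106))
 Pq.nil)))))))) (Pq.cons (Pq.L [3,5] 1023 (Pf.B 10 3 (Pf.C 1 0x409141c303) (Pf.B 10 5 (Pf.C 1 0x283141c308) (Pf.C 0 0x1214503))))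
 (Pq.cons (Pq.L [3,4,5] 1023 (Pf.B 10 5 (Pf.C 1 0x409141c305) (Pf.B 10 4 (Pf.B 10 3 (Pf.C 1 0x409141c303) (Pf.C 0 0x81418a)) (Pf.C 0 0x1210505))))
 (Pq.cons (Pq.L [3,5] 1023 (Pf.B 10 5 (Pf.C 1 0x409141c305) (Pf.B 10 3 (Pf.C 1 0x185141c308) (Pf.C 0 0x120c505))))
 (Pq.cons (Pq.L [2,3,4,5] 1023 (Pf.B 10 5 (Pf.C 1 0x409141c305) (Pf.B 10 3 (Pf.C 1 0x409141c303) (Pf.B 10 4 (Pf.C 0 0x81418a) (Pf.B 10 2 (Pf.C 0 0x41018a) (Pf.C 0 0x1208503))))))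
 (Pq.cons (Pq.L [1,2,3,4,5] 1023 (Pf.B 10 5 (Pf.C 1 0x409141c305) (Pf.B 10 3 (Pf.C 1 0x409141c303) (Pf.B 10 4 (Pf.C 0 0x81418a) (Pf.B 10 2 (Pf.C 0 0x41018a) (Pf.B 10 1 (Pf.C 0 0x20c10a) (Pf.C 0 0x102408a)))))))
 (Pq.cons (Pq.L [0,1,2,3,4,5] 1023 (Pf.B 10 5 (Pf.C 1 0x409141c305) (Pf.B 10 3 (Pf.C 1 0x409141c303) (Pf.B 10 4 (Pf.C 0 0x81418a) (Pf.B 10 2 (Pf.C 0 0x41018a) (Pf.B 10 1 (Pf.C 0 0x20c10a) (Pf.B 10 0 (Pf.C 0 32906) (Pf.C 0 0x1200501))))))))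
 Pq.nil)))))))) (Pq.cons (Pq.D 3 (Pq.cons (Pq.D 4 (Pq.cons (Pq.L [1,2] 910 (Pf.C 1 0x5091008086))
 (Pq.cons (Pq.L [1,2] 910 (Pf.C 1 0x5091008086))
 (Pq.cons (Pq.L [1,2] 910 (Pf.C 1 0x5091008086))
 (Pq.cons (Pq.L [1,2] 910 (Pf.C 1 0x5091008086))
 (Pq.cons (Pq.L [1,3] 910 (Pf.C 1 0x509100c086))
 (Pq.cons (Pq.L [2,3] 910 (Pf.C 1 0x509100c106))
 (Pq.cons (Pq.L [1,2] 910 (Pf.C 1 0x5091008086))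
 Pq.nil)))))))) (Pq.cons (Pq.L [3,5] 1023 (Pf.B 10 3 (Pf.C 1 0x409141c303) (Pf.B 10 5 (Pf.C 1 0x283141c308) (Pf.C 0 0x1214503))))
 (Pq.cons (Pq.L [3,4,5] 1023 (Pf.B 10 5 (Pf.C 1 0x409141c305) (Pf.B 10 4 (Pf.B 10 3 (Pf.C 1 0x409141c303) (Pf.C 0 0x81418a)) (Pf.C 0 0x1210505))))
 (Pq.cons (Pq.L [3,5] 1023 (Pf.B 10 5 (Pf.C 1 0x409141c305) (Pf.B 10 3 (Pf.C 1 0x185141c308) (Pf.C 0 0x120c505))))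
 (Pq.cons (Pq.L [2,3,4,5] 1023 (Pf.B 10 5 (Pf.C 1 0x409141c305) (Pf.B 10 3 (Pf.C 1 0x409141c303) (Pf.B 10 4 (Pf.C 0 0x81418a) (Pf.B 10 2 (Pf.C 0 0x41018a) (Pf.C 0 0x1208503))))))
 (Pq.cons (Pq.L [1,2,3,4,5] 1023 (Pf.B 10 5 (Pf.C 1 0x409141c305) (Pf.B 10 3 (Pf.C 1 0x409141c303) (Pf.B 10 4 (Pf.C 0 0x81418a) (Pf.B 10 2 (Pf.C 0 0x41018a) (Pf.B 10 1 (Pf.C 0 0x20c10a) (Pf.C 0 0x1204502)))))))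
 (Pq.cons (Pq.L [0,1,2,3,4,5] 1023 (Pf.B 10 5 (Pf.C 1 0x409141c305) (Pf.B 10 3 (Pf.C 1 0x409141c303) (Pf.B 10 4 (Pf.C 0 0x81418a) (Pf.B 10 2 (Pf.C 0 0x41018a) (Pf.B 10 1 (Pf.C 0 0x20c10a) (Pf.B 10 0 (Pf.C 0 32906) (Pf.C 0 0x102400a))))))))
 Pq.nil)))))))) Pq.nil)))))))) Pq.nil)))
theorem e_o10 : AllRef e_T e_G4 (List.take 3 (List.flatMap (splitP 1) (List.drop 1 (List.drop 1 (List.take 3 (List.flatMap (splitP 0) [⟨[[5,6,7,8,9,10,11],[5,6,7,8,9,10,11],[5,6,7,8,9,10,11],[5,6,7,8,9,10,11],[5,6,7,8,9,10,11]],[⟨0,1,true⟩,⟨0,2,false⟩,⟨0,3,false⟩,⟨0,4,false⟩,⟨1,2,false⟩,⟨1,3,false⟩,⟨1,4,false⟩,⟨2,3,true⟩,⟨2,4,false⟩,⟨3,4,true⟩],[],[]⟩])))))) :=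
  chkPq_sound e_o10c _ (by decide +kernel)
noncomputable def e_o11c : Pq := (Pq.cons (Pq.D 2 (Pq.cons (Pq.D 3 (Pq.cons (Pq.D 4 (Pq.cons (Pq.L [0,1] 910 (Pf.C 1 0x5091004006))
 (Pq.cons (Pq.L [0,1] 910 (Pf.C 1 0x5091004006))
 (Pq.cons (Pq.L [0,1] 910 (Pf.C 1 0x5091004006))
 (Pq.cons (Pq.L [0,1] 910 (Pf.C 1 0x5091004006))
 (Pq.cons (Pq.L [0,1] 910 (Pf.C 1 0x5091004006))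
 (Pq.cons (Pq.L [0,2] 910 (Pf.C 1 0x5091008006))
 (Pq.cons (Pq.L [1,2] 910 (Pf.C 1 0x5091008086))
 Pq.nil)))))))) (Pq.cons (Pq.L [2,5] 1023 (Pf.B 10 2 (Pf.C 1 0x409141c302) (Pf.B 10 5 (Pf.C 1 0x282141c308) (Pf.C 0 0x1214502))))
 (Pq.cons (Pq.L [2,3,4,5] 1023 (Pf.B 10 5 (Pf.C 1 0x409141c305) (Pf.B 10 4 (Pf.B 10 3 (Pf.B 10 2 (Pf.C 1 0x409141c302) (Pf.C 0 0x61410a)) (Pf.C 0 0x81418a)) (Pf.C 0 0x1210505))))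
 (Pq.cons (Pq.L [2,3,5] 1023 (Pf.B 10 5 (Pf.C 1 0x409141c305) (Pf.B 10 3 (Pf.B 10 2 (Pf.C 1 0x409141c302) (Pf.C 0 0x61410a)) (Pf.C 0 0x120c505))))
 (Pq.cons (Pq.L [2,5] 1023 (Pf.B 10 5 (Pf.C 1 0x409141c305) (Pf.B 10 2 (Pf.C 1 0x105141c308) (Pf.C 0 0x1208505))))
 (Pq.cons (Pq.L [1,2,3,4,5] 1023 (Pf.B 10 5 (Pf.C 1 0x409141c305) (Pf.B 10 2 (Pf.C 1 0x409141c302) (Pf.B 10 4 (Pf.C 0 0x81410a) (Pf.B 10 3 (Pf.C 0 0x61010a) (Pf.B 10 1 (Pf.C 0 0x20c10a) (Pf.C 0 0x1204502)))))))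
 (Pq.cons (Pq.L [0,1,2,3,4,5] 1023 (Pf.B 10 5 (Pf.C 1 0x409141c305) (Pf.B 10 2 (Pf.C 1 0x409141c302) (Pf.B 10 4 (Pf.C 0 0x81410a) (Pf.B 10 3 (Pf.C 0 0x61010a) (Pf.B 10 1 (Pf.C 0 0x20c10a) (Pf.B 10 0 (Pf.C 0 32906) (Pf.C 0 0x1200501))))))))
 Pq.nil)))))))) (Pq.cons (Pq.D 3 (Pq.cons (Pq.D 4 (Pq.cons (Pq.L [0,1] 910 (Pf.C 1 0x5091004006))
 (Pq.cons (Pq.L [0,1] 910 (Pf.C 1 0x5091004006))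
 (Pq.cons (Pq.L [0,1] 910 (Pf.C 1 0x5091004006))
 (Pq.cons (Pq.L [0,1] 910 (Pf.C 1 0x5091004006))
 (Pq.cons (Pq.L [0,1] 910 (Pf.C 1 0x5091004006))
 (Pq.cons (Pq.L [0,2] 910 (Pf.C 1 0x5091008006))
 (Pq.cons (Pq.L [1,2] 910 (Pf.C 1 0x5091008086))
 Pq.nil)))))))) (Pq.cons (Pq.L [1,2,3,4,5] 987 (Pf.B 10 5 (Pf.B 10 2 (Pf.C 1 0x405041c30a) (Pf.B 10 4 (Pf.B 10 3 (Pf.B 10 1 (Pf.C 1 0x405021c30a) (Pf.C 0 0x60808a)) (Pf.C 0 0x80818a)) (Pf.C 0 0xa0820a))) (Pf.C 0 0x102428a)))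
 (Pq.cons (Pq.L [1,2,3,4,5] 1023 (Pf.B 10 2 (Pf.C 1 0x409141c302) (Pf.B 10 4 (Pf.B 10 5 (Pf.B 10 3 (Pf.B 10 1 (Pf.C 1 0x405021c30a) (Pf.C 0 0x60808a)) (Pf.C 0 0x80818a)) (Pf.C 0 0x80828a)) (Pf.C 0 0x1210502))))
 (Pq.cons (Pq.L [1,2,3,5] 1023 (Pf.B 10 2 (Pf.C 1 0x409141c302) (Pf.B 10 3 (Pf.B 10 5 (Pf.B 10 1 (Pf.C 1 0x405021c30a) (Pf.C 0 0x60808a)) (Pf.C 0 0x60828a)) (Pf.C 0 0x120c502))))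
 (Pq.cons (Pq.L [1,2] 1023 (Pf.B 10 1 (Pf.C 1 0x409141c301) (Pf.B 10 2 (Pf.C 1 0x101141c308) (Pf.C 0 0x1208501))))
 (Pq.cons (Pq.L [1,2] 1023 (Pf.B 10 2 (Pf.C 1 0x409141c302) (Pf.B 10 1 (Pf.C 1 0x82141c308) (Pf.C 0 0x1204502))))
 (Pq.cons (Pq.L [0,1,2] 1023 (Pf.B 10 2 (Pf.C 1 0x409141c302) (Pf.B 10 1 (Pf.C 1 0x409141c301) (Pf.B 10 0 (Pf.C 0 32906) (Pf.C 0 0x1200501)))))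
 Pq.nil)))))))) (Pq.cons (Pq.D 3 (Pq.cons (Pq.D 4 (Pq.cons (Pq.L [0,1] 910 (Pf.C 1 0x5091004006))
 (Pq.cons (Pq.L [0,1] 910 (Pf.C 1 0x5091004006))
 (Pq.cons (Pq.L [0,1] 910 (Pf.C 1 0x5091004006))
 (Pq.cons (Pq.L [0,1] 910 (Pf.C 1 0x5091004006))
 (Pq.cons (Pq.L [0,1] 910 (Pf.C 1 0x5091004006))
 (Pq.cons (Pq.L [0,2] 910 (Pf.C 1 0x5091008006))
 (Pq.cons (Pq.L [1,2] 910 (Pf.C 1 0x5091008086))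
 Pq.nil)))))))) (Pq.cons (Pq.L [2,5] 1023 (Pf.B 10 2 (Pf.C 1 0x409141c302) (Pf.B 10 5 (Pf.C 1 0x282141c308) (Pf.C 0 0x1214502))))
 (Pq.cons (Pq.L [2,3,4,5] 1023 (Pf.B 10 5 (Pf.C 1 0x409141c305) (Pf.B 10 4 (Pf.B 10 3 (Pf.B 10 2 (Pf.C 1 0x409141c302) (Pf.C 0 0x61410a)) (Pf.C 0 0x81418a)) (Pf.C 0 0x102420a))))
 (Pq.cons (Pq.L [2,3,5] 1023 (Pf.B 10 5 (Pf.C 1 0x409141c305) (Pf.B 10 3 (Pf.B 10 2 (Pf.C 1 0x409141c302) (Pf.C 0 0x61410a)) (Pf.C 0 0x120c505))))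
 (Pq.cons (Pq.L [2,5] 1023 (Pf.B 10 5 (Pf.C 1 0x409141c305) (Pf.B 10 2 (Pf.C 1 0x105141c308) (Pf.C 0 0x1208505))))
 (Pq.cons (Pq.L [1,2,3,4,5] 1023 (Pf.B 10 5 (Pf.C 1 0x409141c305) (Pf.B 10 2 (Pf.C 1 0x409141c302) (Pf.B 10 4 (Pf.C 0 0x81410a) (Pf.B 10 3 (Pf.C 0 0x61010a) (Pf.B 10 1 (Pf.C 0 0x20c10a) (Pf.C 0 0x1204502)))))))
 (Pq.cons (Pq.L [0,1,2,3,4,5] 1023 (Pf.B 10 5 (Pf.C 1 0x409141c305) (Pf.B 10 2 (Pf.C 1 0x409141c302) (Pf.B 10 4 (Pf.C 0 0x81410a) (Pf.B 10 3 (Pf.C 0 0x61010a) (Pf.B 10 1 (Pf.C 0 0x20c10a) (Pf.B 10 0 (Pf.C 0 32906) (Pf.C 0 0x1200501))))))))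
 Pq.nil)))))))) (Pq.cons (Pq.D 3 (Pq.cons (Pq.D 4 (Pq.cons (Pq.L [0,1] 910 (Pf.C 1 0x5091004006))
 (Pq.cons (Pq.L [0,1] 910 (Pf.C 1 0x5091004006))
 (Pq.cons (Pq.L [0,1] 910 (Pf.C 1 0x5091004006))
 (Pq.cons (Pq.L [0,1] 910 (Pf.C 1 0x5091004006))
 (Pq.cons (Pq.L [0,1] 910 (Pf.C 1 0x5091004006))
 (Pq.cons (Pq.L [0,2] 910 (Pf.C 1 0x5091008006))
 (Pq.cons (Pq.L [1,2] 910 (Pf.C 1 0x5091008086))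
 Pq.nil)))))))) (Pq.cons (Pq.L [2,5] 1023 (Pf.B 10 2 (Pf.C 1 0x409141c302) (Pf.B 10 5 (Pf.C 1 0x282141c308) (Pf.C 0 0x1214502))))
 (Pq.cons (Pq.L [2,3,4,5] 1023 (Pf.B 10 5 (Pf.C 1 0x409141c305) (Pf.B 10 4 (Pf.B 10 3 (Pf.B 10 2 (Pf.C 1 0x409141c302) (Pf.C 0 0x61410a)) (Pf.C 0 0x81418a)) (Pf.C 0 0x1210505))))
 (Pq.cons (Pq.L [2,3,5] 1023 (Pf.B 10 5 (Pf.C 1 0x409141c305) (Pf.B 10 3 (Pf.B 10 2 (Pf.C 1 0x409141c302) (Pf.C 0 0x61410a)) (Pf.C 0 0x102418a))))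
 (Pq.cons (Pq.L [2,5] 1023 (Pf.B 10 5 (Pf.C 1 0x409141c305) (Pf.B 10 2 (Pf.C 1 0x105141c308) (Pf.C 0 0x1208505))))
 (Pq.cons (Pq.L [1,2,3,4,5] 1023 (Pf.B 10 5 (Pf.C 1 0x409141c305) (Pf.B 10 2 (Pf.C 1 0x409141c302) (Pf.B 10 4 (Pf.C 0 0x81410a) (Pf.B 10 3 (Pf.C 0 0x61010a) (Pf.B 10 1 (Pf.C 0 0x20c10a) (Pf.C 0 0x1204502)))))))
 (Pq.cons (Pq.L [0,1,2,3,4,5] 1023 (Pf.B 10 5 (Pf.C 1 0x409141c305) (Pf.B 10 2 (Pf.C 1 0x409141c302) (Pf.B 10 4 (Pf.C 0 0x81410a) (Pf.B 10 3 (Pf.C 0 0x61010a) (Pf.B 10 1 (Pf.C 0 0x20c10a) (Pf.B 10 0 (Pf.C 0 32906) (Pf.C 0 0x1200501))))))))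
 Pq.nil)))))))) (Pq.cons (Pq.D 3 (Pq.cons (Pq.D 4 (Pq.cons (Pq.L [0,1] 910 (Pf.C 1 0x5091004006))
 (Pq.cons (Pq.L [0,1] 910 (Pf.C 1 0x5091004006))
 (Pq.cons (Pq.L [0,1] 910 (Pf.C 1 0x5091004006))
 (Pq.cons (Pq.L [0,1] 910 (Pf.C 1 0x5091004006))
 (Pq.cons (Pq.L [0,1] 910 (Pf.C 1 0x5091004006))
 (Pq.cons (Pq.L [0,3] 910 (Pf.C 1 0x509100c006))
 (Pq.cons (Pq.L [1,3] 910 (Pf.C 1 0x509100c086))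
 Pq.nil)))))))) (Pq.cons (Pq.L [1,5] 1023 (Pf.B 10 1 (Pf.C 1 0x409141c301) (Pf.B 10 5 (Pf.C 1 0x281141c308) (Pf.C 0 0x1214501))))
 (Pq.cons (Pq.L [1,2,3,4,5] 1023 (Pf.B 10 5 (Pf.C 1 0x409141c305) (Pf.B 10 4 (Pf.B 10 3 (Pf.B 10 2 (Pf.B 10 1 (Pf.C 1 0x402021c30a) (Pf.C 0 0x41408a)) (Pf.C 0 0x61410a)) (Pf.C 0 0x81418a)) (Pf.C 0 0x1210505))))
 (Pq.cons (Pq.L [1,2,3,5] 1023 (Pf.B 10 5 (Pf.C 1 0x409141c305) (Pf.B 10 3 (Pf.B 10 2 (Pf.B 10 1 (Pf.C 1 0x402021c30a) (Pf.C 0 0x41408a)) (Pf.C 0 0x61410a)) (Pf.C 0 0x120c505))))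
 (Pq.cons (Pq.L [1,2,5] 1023 (Pf.B 10 5 (Pf.C 1 0x409141c305) (Pf.B 10 2 (Pf.B 10 1 (Pf.C 1 0x402021c30a) (Pf.C 0 0x41408a)) (Pf.C 0 0x102410a))))
 (Pq.cons (Pq.L [1,5] 1023 (Pf.B 10 5 (Pf.C 1 0x409141c305) (Pf.B 10 1 (Pf.C 1 0x85141c308) (Pf.C 0 0x1204505))))
 (Pq.cons (Pq.L [0,1,2,3,4,5] 1023 (Pf.B 10 5 (Pf.C 1 0x409141c305) (Pf.B 10 1 (Pf.C 1 0x409141c301) (Pf.B 10 4 (Pf.C 0 0x81408a) (Pf.B 10 3 (Pf.C 0 0x61008a) (Pf.B 10 2 (Pf.C 0 0x40c08a) (Pf.B 10 0 (Pf.C 0 32906) (Pf.C 0 0x1200501))))))))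
 Pq.nil)))))))) (Pq.cons (Pq.D 3 (Pq.cons (Pq.D 4 (Pq.cons (Pq.L [0,2] 910 (Pf.C 1 0x5091008006))
 (Pq.cons (Pq.L [0,2] 910 (Pf.C 1 0x5091008006))
 (Pq.cons (Pq.L [0,2] 910 (Pf.C 1 0x5091008006))
 (Pq.cons (Pq.L [0,2] 910 (Pf.C 1 0x5091008006))
 (Pq.cons (Pq.L [0,3] 910 (Pf.C 1 0x509100c006))
 (Pq.cons (Pq.L [0,2] 910 (Pf.C 1 0x5091008006))
 (Pq.cons (Pq.L [2,3] 910 (Pf.C 1 0x509100c106))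
 Pq.nil)))))))) (Pq.cons (Pq.L [2,5] 1023 (Pf.B 10 2 (Pf.C 1 0x409141c302) (Pf.B 10 5 (Pf.C 1 0x282141c308) (Pf.C 0 0x1214502))))
 (Pq.cons (Pq.L [2,3,4,5] 1023 (Pf.B 10 5 (Pf.C 1 0x409141c305) (Pf.B 10 4 (Pf.B 10 3 (Pf.B 10 2 (Pf.C 1 0x409141c302) (Pf.C 0 0x61410a)) (Pf.C 0 0x81418a)) (Pf.C 0 0x1210505))))
 (Pq.cons (Pq.L [2,3,5] 1023 (Pf.B 10 5 (Pf.C 1 0x409141c305) (Pf.B 10 3 (Pf.B 10 2 (Pf.C 1 0x409141c302) (Pf.C 0 0x61410a)) (Pf.C 0 0x120c505))))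
 (Pq.cons (Pq.L [2,5] 1023 (Pf.B 10 5 (Pf.C 1 0x409141c305) (Pf.B 10 2 (Pf.C 1 0x105141c308) (Pf.C 0 0x1208505))))
 (Pq.cons (Pq.L [1,2,3,4,5] 1023 (Pf.B 10 5 (Pf.C 1 0x409141c305) (Pf.B 10 2 (Pf.C 1 0x409141c302) (Pf.B 10 4 (Pf.C 0 0x81410a) (Pf.B 10 3 (Pf.C 0 0x61010a) (Pf.B 10 1 (Pf.C 0 0x20c10a) (Pf.C 0 0x102408a)))))))
 (Pq.cons (Pq.L [0,1,2,3,4,5] 1023 (Pf.B 10 5 (Pf.C 1 0x409141c305) (Pf.B 10 2 (Pf.C 1 0x409141c302) (Pf.B 10 4 (Pf.C 0 0x81410a) (Pf.B 10 3 (Pf.C 0 0x61010a) (Pf.B 10 1 (Pf.C 0 0x20c10a) (Pf.B 10 0 (Pf.C 0 32906) (Pf.C 0 0x1200501))))))))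
 Pq.nil)))))))) (Pq.cons (Pq.D 3 (Pq.cons (Pq.D 4 (Pq.cons (Pq.L [1,2] 910 (Pf.C 1 0x5091008086))
 (Pq.cons (Pq.L [1,2] 910 (Pf.C 1 0x5091008086))
 (Pq.cons (Pq.L [1,2] 910 (Pf.C 1 0x5091008086))
 (Pq.cons (Pq.L [1,2] 910 (Pf.C 1 0x5091008086))
 (Pq.cons (Pq.L [1,3] 910 (Pf.C 1 0x509100c086))
 (Pq.cons (Pq.L [2,3] 910 (Pf.C 1 0x509100c106))
 (Pq.cons (Pq.L [1,2] 910 (Pf.C 1 0x5091008086))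
 Pq.nil)))))))) (Pq.cons (Pq.L [2,5] 1023 (Pf.B 10 2 (Pf.C 1 0x409141c302) (Pf.B 10 5 (Pf.C 1 0x282141c308) (Pf.C 0 0x1214502))))
 (Pq.cons (Pq.L [2,3,4,5] 1023 (Pf.B 10 5 (Pf.C 1 0x409141c305) (Pf.B 10 4 (Pf.B 10 3 (Pf.B 10 2 (Pf.C 1 0x409141c302) (Pf.C 0 0x61410a)) (Pf.C 0 0x81418a)) (Pf.C 0 0x1210505))))
 (Pq.cons (Pq.L [2,3,5] 1023 (Pf.B 10 5 (Pf.C 1 0x409141c305) (Pf.B 10 3 (Pf.B 10 2 (Pf.C 1 0x409141c302) (Pf.C 0 0x61410a)) (Pf.C 0 0x120c505))))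
 (Pq.cons (Pq.L [2,5] 1023 (Pf.B 10 5 (Pf.C 1 0x409141c305) (Pf.B 10 2 (Pf.C 1 0x105141c308) (Pf.C 0 0x1208505))))
 (Pq.cons (Pq.L [1,2,3,4,5] 1023 (Pf.B 10 5 (Pf.C 1 0x409141c305) (Pf.B 10 2 (Pf.C 1 0x409141c302) (Pf.B 10 4 (Pf.C 0 0x81410a) (Pf.B 10 3 (Pf.C 0 0x61010a) (Pf.B 10 1 (Pf.C 0 0x20c10a) (Pf.C 0 0x1204502)))))))
 (Pq.cons (Pq.L [0,1,2,3,4,5] 1023 (Pf.B 10 5 (Pf.C 1 0x409141c305) (Pf.B 10 2 (Pf.C 1 0x409141c302) (Pf.B 10 4 (Pf.C 0 0x81410a) (Pf.B 10 3 (Pf.C 0 0x61010a) (Pf.B 10 1 (Pf.C 0 0x20c10a) (Pf.B 10 0 (Pf.C 0 32906) (Pf.C 0 0x102400a))))))))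
 Pq.nil)))))))) Pq.nil)))))))) Pq.nil)
theorem e_o11 : AllRef e_T e_G4 (List.take 1 (List.drop 3 (List.flatMap (splitP 1) (List.drop 1 (List.drop 1 (List.take 3 (List.flatMap (splitP 0) [⟨[[5,6,7,8,9,10,11],[5,6,7,8,9,10,11],[5,6,7,8,9,10,11],[5,6,7,8,9,10,11],[5,6,7,8,9,10,11]],[⟨0,1,true⟩,⟨0,2,false⟩,⟨0,3,false⟩,⟨0,4,false⟩,⟨1,2,false⟩,⟨1,3,false⟩,⟨1,4,false⟩,⟨2,3,true⟩,⟨2,4,false⟩,⟨3,4,true⟩],[],[]⟩]))))))) :=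
  chkPq_sound e_o11c _ (by decide +kernel)
noncomputable def e_o12c : Pq := (Pq.cons (Pq.D 2 (Pq.cons (Pq.D 3 (Pq.cons (Pq.D 4 (Pq.cons (Pq.L [0,1] 910 (Pf.C 1 0x5091004006))
 (Pq.cons (Pq.L [0,1] 910 (Pf.C 1 0x5091004006))
 (Pq.cons (Pq.L [0,1] 910 (Pf.C 1 0x5091004006))
 (Pq.cons (Pq.L [0,1] 910 (Pf.C 1 0x5091004006))
 (Pq.cons (Pq.L [0,1] 910 (Pf.C 1 0x5091004006))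
 (Pq.cons (Pq.L [0,2] 910 (Pf.C 1 0x5091008006))
 (Pq.cons (Pq.L [1,2] 910 (Pf.C 1 0x5091008086))
 Pq.nil)))))))) (Pq.cons (Pq.L [3,5] 1023 (Pf.B 10 3 (Pf.C 1 0x409141c303) (Pf.B 10 5 (Pf.C 1 0x283141c308) (Pf.C 0 0x1214503))))
 (Pq.cons (Pq.L [3,4,5] 1023 (Pf.B 10 5 (Pf.C 1 0x409141c305) (Pf.B 10 4 (Pf.B 10 3 (Pf.C 1 0x409141c303) (Pf.C 0 0x81418a)) (Pf.C 0 0x1210505))))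
 (Pq.cons (Pq.L [3,5] 1023 (Pf.B 10 5 (Pf.C 1 0x409141c305) (Pf.B 10 3 (Pf.C 1 0x185141c308) (Pf.C 0 0x120c505))))
 (Pq.cons (Pq.L [2,3,4,5] 1023 (Pf.B 10 5 (Pf.C 1 0x409141c305) (Pf.B 10 3 (Pf.C 1 0x409141c303) (Pf.B 10 4 (Pf.C 0 0x81418a) (Pf.B 10 2 (Pf.C 0 0x41018a) (Pf.C 0 0x1208503))))))
 (Pq.cons (Pq.L [1,2,3,4,5] 1023 (Pf.B 10 5 (Pf.C 1 0x409141c305) (Pf.B 10 3 (Pf.C 1 0x409141c303) (Pf.B 10 4 (Pf.C 0 0x81418a) (Pf.B 10 2 (Pf.C 0 0x41018a) (Pf.B 10 1 (Pf.C 0 0x20c10a) (Pf.C 0 0x1204502)))))))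
 (Pq.cons (Pq.L [0,1,2,3,4,5] 1023 (Pf.B 10 5 (Pf.C 1 0x409141c305) (Pf.B 10 3 (Pf.C 1 0x409141c303) (Pf.B 10 4 (Pf.C 0 0x81418a) (Pf.B 10 2 (Pf.C 0 0x41018a) (Pf.B 10 1 (Pf.C 0 0x20c10a) (Pf.B 10 0 (Pf.C 0 32906) (Pf.C 0 0x1200501))))))))
 Pq.nil)))))))) (Pq.cons (Pq.D 3 (Pq.cons (Pq.D 4 (Pq.cons (Pq.L [0,1] 910 (Pf.C 1 0x5091004006))
 (Pq.cons (Pq.L [0,1] 910 (Pf.C 1 0x5091004006))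
 (Pq.cons (Pq.L [0,1] 910 (Pf.C 1 0x5091004006))
 (Pq.cons (Pq.L [0,1] 910 (Pf.C 1 0x5091004006))
 (Pq.cons (Pq.L [0,1] 910 (Pf.C 1 0x5091004006))
 (Pq.cons (Pq.L [0,2] 910 (Pf.C 1 0x5091008006))
 (Pq.cons (Pq.L [1,2] 910 (Pf.C 1 0x5091008086))
 Pq.nil)))))))) (Pq.cons (Pq.L [1,2,3,4,5] 987 (Pf.B 10 5 (Pf.B 10 3 (Pf.C 1 0x405061c30a) (Pf.B 10 4 (Pf.B 10 2 (Pf.B 10 1 (Pf.C 1 0x405021c30a) (Pf.C 0 0x40c08a)) (Pf.C 0 0x80c10a)) (Pf.C 0 0xa0c20a))) (Pf.C 0 0x102428a)))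
 (Pq.cons (Pq.L [1,2,3,4,5] 1023 (Pf.B 10 3 (Pf.C 1 0x409141c303) (Pf.B 10 4 (Pf.B 10 5 (Pf.B 10 2 (Pf.B 10 1 (Pf.C 1 0x405021c30a) (Pf.C 0 0x40c08a)) (Pf.C 0 0x80c10a)) (Pf.C 0 0x80c28a)) (Pf.C 0 0x1210503))))
 (Pq.cons (Pq.L [1,3] 1023 (Pf.B 10 1 (Pf.C 1 0x409141c301) (Pf.B 10 3 (Pf.C 1 0x181141c308) (Pf.C 0 0x120c501))))
 (Pq.cons (Pq.L [1,2,3,5] 1023 (Pf.B 10 3 (Pf.C 1 0x409141c303) (Pf.B 10 2 (Pf.B 10 5 (Pf.B 10 1 (Pf.C 1 0x405021c30a) (Pf.C 0 0x40c08a)) (Pf.C 0 0x40c28a)) (Pf.C 0 0x1208503))))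
 (Pq.cons (Pq.L [1,3] 1023 (Pf.B 10 3 (Pf.C 1 0x409141c303) (Pf.B 10 1 (Pf.C 1 0x83141c308) (Pf.C 0 0x1204503))))
 (Pq.cons (Pq.L [0,1,2,3] 1023 (Pf.B 10 3 (Pf.C 1 0x409141c303) (Pf.B 10 1 (Pf.C 1 0x409141c301) (Pf.B 10 2 (Pf.C 0 0x40c08a) (Pf.B 10 0 (Pf.C 0 32906) (Pf.C 0 0x1200501))))))
 Pq.nil)))))))) (Pq.cons (Pq.D 3 (Pq.cons (Pq.D 4 (Pq.cons (Pq.L [0,1] 910 (Pf.C 1 0x5091004006))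
 (Pq.cons (Pq.L [0,1] 910 (Pf.C 1 0x5091004006))
 (Pq.cons (Pq.L [0,1] 910 (Pf.C 1 0x5091004006))
 (Pq.cons (Pq.L [0,1] 910 (Pf.C 1 0x5091004006))
 (Pq.cons (Pq.L [0,1] 910 (Pf.C 1 0x5091004006))
 (Pq.cons (Pq.L [0,2] 910 (Pf.C 1 0x5091008006))
 (Pq.cons (Pq.L [1,2] 910 (Pf.C 1 0x5091008086))
 Pq.nil)))))))) (Pq.cons (Pq.L [3,5] 1023 (Pf.B 10 3 (Pf.C 1 0x409141c303) (Pf.B 10 5 (Pf.C 1 0x283141c308) (Pf.C 0 0x1214503))))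
 (Pq.cons (Pq.L [3,4,5] 1023 (Pf.B 10 5 (Pf.C 1 0x409141c305) (Pf.B 10 4 (Pf.B 10 3 (Pf.C 1 0x409141c303) (Pf.C 0 0x81418a)) (Pf.C 0 0x102420a))))
 (Pq.cons (Pq.L [3,5] 1023 (Pf.B 10 5 (Pf.C 1 0x409141c305) (Pf.B 10 3 (Pf.C 1 0x185141c308) (Pf.C 0 0x120c505))))
 (Pq.cons (Pq.L [2,3,4,5] 1023 (Pf.B 10 5 (Pf.C 1 0x409141c305) (Pf.B 10 3 (Pf.C 1 0x409141c303) (Pf.B 10 4 (Pf.C 0 0x81418a) (Pf.B 10 2 (Pf.C 0 0x41018a) (Pf.C 0 0x1208503))))))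
 (Pq.cons (Pq.L [1,2,3,4,5] 1023 (Pf.B 10 5 (Pf.C 1 0x409141c305) (Pf.B 10 3 (Pf.C 1 0x409141c303) (Pf.B 10 4 (Pf.C 0 0x81418a) (Pf.B 10 2 (Pf.C 0 0x41018a) (Pf.B 10 1 (Pf.C 0 0x20c10a) (Pf.C 0 0x1204502)))))))
 (Pq.cons (Pq.L [0,1,2,3,4,5] 1023 (Pf.B 10 5 (Pf.C 1 0x409141c305) (Pf.B 10 3 (Pf.C 1 0x409141c303) (Pf.B 10 4 (Pf.C 0 0x81418a) (Pf.B 10 2 (Pf.C 0 0x41018a) (Pf.B 10 1 (Pf.C 0 0x20c10a) (Pf.B 10 0 (Pf.C 0 32906) (Pf.C 0 0x1200501))))))))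
 Pq.nil)))))))) (Pq.cons (Pq.D 3 (Pq.cons (Pq.D 4 (Pq.cons (Pq.L [0,1] 910 (Pf.C 1 0x5091004006))
 (Pq.cons (Pq.L [0,1] 910 (Pf.C 1 0x5091004006))
 (Pq.cons (Pq.L [0,1] 910 (Pf.C 1 0x5091004006))
 (Pq.cons (Pq.L [0,1] 910 (Pf.C 1 0x5091004006))
 (Pq.cons (Pq.L [0,1] 910 (Pf.C 1 0x5091004006))
 (Pq.cons (Pq.L [0,2] 910 (Pf.C 1 0x5091008006))
 (Pq.cons (Pq.L [1,2] 910 (Pf.C 1 0x5091008086))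
 Pq.nil)))))))) (Pq.cons (Pq.L [1,5] 1023 (Pf.B 10 1 (Pf.C 1 0x409141c301) (Pf.B 10 5 (Pf.C 1 0x281141c308) (Pf.C 0 0x1214501))))
 (Pq.cons (Pq.L [1,2,3,4,5] 1023 (Pf.B 10 5 (Pf.C 1 0x409141c305) (Pf.B 10 4 (Pf.B 10 3 (Pf.B 10 2 (Pf.B 10 1 (Pf.C 1 0x403021c30a) (Pf.C 0 0x41408a)) (Pf.C 0 0x61410a)) (Pf.C 0 0x81418a)) (Pf.C 0 0x1210505))))
 (Pq.cons (Pq.L [1,2,3,5] 1023 (Pf.B 10 5 (Pf.C 1 0x409141c305) (Pf.B 10 3 (Pf.B 10 2 (Pf.B 10 1 (Pf.C 1 0x403021c30a) (Pf.C 0 0x41408a)) (Pf.C 0 0x61410a)) (Pf.C 0 0x102418a))))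
 (Pq.cons (Pq.L [1,2,3,5] 1023 (Pf.B 10 5 (Pf.C 1 0x409141c305) (Pf.B 10 2 (Pf.B 10 3 (Pf.B 10 1 (Pf.C 1 0x403021c30a) (Pf.C 0 0x41408a)) (Pf.C 0 0x41418a)) (Pf.C 0 0x1208505))))
 (Pq.cons (Pq.L [1,5] 1023 (Pf.B 10 5 (Pf.C 1 0x409141c305) (Pf.B 10 1 (Pf.C 1 0x85141c308) (Pf.C 0 0x1204505))))
 (Pq.cons (Pq.L [0,1,2,3,4,5] 1023 (Pf.B 10 5 (Pf.C 1 0x409141c305) (Pf.B 10 1 (Pf.C 1 0x409141c301) (Pf.B 10 4 (Pf.C 0 0x81408a) (Pf.B 10 3 (Pf.C 0 0x61008a) (Pf.B 10 2 (Pf.C 0 0x40c08a) (Pf.B 10 0 (Pf.C 0 32906) (Pf.C 0 0x1200501))))))))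
 Pq.nil)))))))) (Pq.cons (Pq.D 3 (Pq.cons (Pq.D 4 (Pq.cons (Pq.L [0,1] 910 (Pf.C 1 0x5091004006))
 (Pq.cons (Pq.L [0,1] 910 (Pf.C 1 0x5091004006))
 (Pq.cons (Pq.L [0,1] 910 (Pf.C 1 0x5091004006))
 (Pq.cons (Pq.L [0,1] 910 (Pf.C 1 0x5091004006))
 (Pq.cons (Pq.L [0,1] 910 (Pf.C 1 0x5091004006))
 (Pq.cons (Pq.L [0,3] 910 (Pf.C 1 0x509100c006))
 (Pq.cons (Pq.L [1,3] 910 (Pf.C 1 0x509100c086))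
 Pq.nil)))))))) (Pq.cons (Pq.L [3,5] 1023 (Pf.B 10 3 (Pf.C 1 0x409141c303) (Pf.B 10 5 (Pf.C 1 0x283141c308) (Pf.C 0 0x1214503))))
 (Pq.cons (Pq.L [3,4,5] 1023 (Pf.B 10 5 (Pf.C 1 0x409141c305) (Pf.B 10 4 (Pf.B 10 3 (Pf.C 1 0x409141c303) (Pf.C 0 0x81418a)) (Pf.C 0 0x1210505))))
 (Pq.cons (Pq.L [3,5] 1023 (Pf.B 10 5 (Pf.C 1 0x409141c305) (Pf.B 10 3 (Pf.C 1 0x185141c308) (Pf.C 0 0x120c505))))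
 (Pq.cons (Pq.L [2,3,4,5] 1023 (Pf.B 10 5 (Pf.C 1 0x409141c305) (Pf.B 10 3 (Pf.C 1 0x409141c303) (Pf.B 10 4 (Pf.C 0 0x81418a) (Pf.B 10 2 (Pf.C 0 0x41018a) (Pf.C 0 0x102410a))))))
 (Pq.cons (Pq.L [1,2,3,4,5] 1023 (Pf.B 10 5 (Pf.C 1 0x409141c305) (Pf.B 10 3 (Pf.C 1 0x409141c303) (Pf.B 10 4 (Pf.C 0 0x81418a) (Pf.B 10 2 (Pf.C 0 0x41018a) (Pf.B 10 1 (Pf.C 0 0x20c10a) (Pf.C 0 0x1204502)))))))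
 (Pq.cons (Pq.L [0,1,2,3,4,5] 1023 (Pf.B 10 5 (Pf.C 1 0x409141c305) (Pf.B 10 3 (Pf.C 1 0x409141c303) (Pf.B 10 4 (Pf.C 0 0x81418a) (Pf.B 10 2 (Pf.C 0 0x41018a) (Pf.B 10 1 (Pf.C 0 0x20c10a) (Pf.B 10 0 (Pf.C 0 32906) (Pf.C 0 0x1200501))))))))
 Pq.nil)))))))) (Pq.cons (Pq.D 3 (Pq.cons (Pq.D 4 (Pq.cons (Pq.L [0,2] 910 (Pf.C 1 0x5091008006))
 (Pq.cons (Pq.L [0,2] 910 (Pf.C 1 0x5091008006))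
 (Pq.cons (Pq.L [0,2] 910 (Pf.C 1 0x5091008006))
 (Pq.cons (Pq.L [0,2] 910 (Pf.C 1 0x5091008006))
 (Pq.cons (Pq.L [0,3] 910 (Pf.C 1 0x509100c006))
 (Pq.cons (Pq.L [0,2] 910 (Pf.C 1 0x5091008006))
 (Pq.cons (Pq.L [2,3] 910 (Pf.C 1 0x509100c106))
 Pq.nil)))))))) (Pq.cons (Pq.L [3,5] 1023 (Pf.B 10 3 (Pf.C 1 0x409141c303) (Pf.B 10 5 (Pf.C 1 0x283141c308) (Pf.C 0 0x1214503))))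
 (Pq.cons (Pq.L [3,4,5] 1023 (Pf.B 10 5 (Pf.C 1 0x409141c305) (Pf.B 10 4 (Pf.B 10 3 (Pf.C 1 0x409141c303) (Pf.C 0 0x81418a)) (Pf.C 0 0x1210505))))
 (Pq.cons (Pq.L [3,5] 1023 (Pf.B 10 5 (Pf.C 1 0x409141c305) (Pf.B 10 3 (Pf.C 1 0x185141c308) (Pf.C 0 0x120c505))))
 (Pq.cons (Pq.L [2,3,4,5] 1023 (Pf.B 10 5 (Pf.C 1 0x409141c305) (Pf.B 10 3 (Pf.C 1 0x409141c303) (Pf.B 10 4 (Pf.C 0 0x81418a) (Pf.B 10 2 (Pf.C 0 0x41018a) (Pf.C 0 0x1208503))))))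
 (Pq.cons (Pq.L [1,2,3,4,5] 1023 (Pf.B 10 5 (Pf.C 1 0x409141c305) (Pf.B 10 3 (Pf.C 1 0x409141c303) (Pf.B 10 4 (Pf.C 0 0x81418a) (Pf.B 10 2 (Pf.C 0 0x41018a) (Pf.B 10 1 (Pf.C 0 0x20c10a) (Pf.C 0 0x102408a)))))))
 (Pq.cons (Pq.L [0,1,2,3,4,5] 1023 (Pf.B 10 5 (Pf.C 1 0x409141c305) (Pf.B 10 3 (Pf.C 1 0x409141c303) (Pf.B 10 4 (Pf.C 0 0x81418a) (Pf.B 10 2 (Pf.C 0 0x41018a) (Pf.B 10 1 (Pf.C 0 0x20c10a) (Pf.B 10 0 (Pf.C 0 32906) (Pf.C 0 0x1200501))))))))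
 Pq.nil)))))))) (Pq.cons (Pq.D 3 (Pq.cons (Pq.D 4 (Pq.cons (Pq.L [1,2] 910 (Pf.C 1 0x5091008086))
 (Pq.cons (Pq.L [1,2] 910 (Pf.C 1 0x5091008086))
 (Pq.cons (Pq.L [1,2] 910 (Pf.C 1 0x5091008086))
 (Pq.cons (Pq.L [1,2] 910 (Pf.C 1 0x5091008086))
 (Pq.cons (Pq.L [1,3] 910 (Pf.C 1 0x509100c086))
 (Pq.cons (Pq.L [2,3] 910 (Pf.C 1 0x509100c106))
 (Pq.cons (Pq.L [1,2] 910 (Pf.C 1 0x5091008086))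
 Pq.nil)))))))) (Pq.cons (Pq.L [3,5] 1023 (Pf.B 10 3 (Pf.C 1 0x409141c303) (Pf.B 10 5 (Pf.C 1 0x283141c308) (Pf.C 0 0x1214503))))
 (Pq.cons (Pq.L [3,4,5] 1023 (Pf.B 10 5 (Pf.C 1 0x409141c305) (Pf.B 10 4 (Pf.B 10 3 (Pf.C 1 0x409141c303) (Pf.C 0 0x81418a)) (Pf.C 0 0x1210505))))
 (Pq.cons (Pq.L [3,5] 1023 (Pf.B 10 5 (Pf.C 1 0x409141c305) (Pf.B 10 3 (Pf.C 1 0x185141c308) (Pf.C 0 0x120c505))))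
 (Pq.cons (Pq.L [2,3,4,5] 1023 (Pf.B 10 5 (Pf.C 1 0x409141c305) (Pf.B 10 3 (Pf.C 1 0x409141c303) (Pf.B 10 4 (Pf.C 0 0x81418a) (Pf.B 10 2 (Pf.C 0 0x41018a) (Pf.C 0 0x1208503))))))
 (Pq.cons (Pq.L [1,2,3,4,5] 1023 (Pf.B 10 5 (Pf.C 1 0x409141c305) (Pf.B 10 3 (Pf.C 1 0x409141c303) (Pf.B 10 4 (Pf.C 0 0x81418a) (Pf.B 10 2 (Pf.C 0 0x41018a) (Pf.B 10 1 (Pf.C 0 0x20c10a) (Pf.C 0 0x1204502)))))))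
 (Pq.cons (Pq.L [0,1,2,3,4,5] 1023 (Pf.B 10 5 (Pf.C 1 0x409141c305) (Pf.B 10 3 (Pf.C 1 0x409141c303) (Pf.B 10 4 (Pf.C 0 0x81418a) (Pf.B 10 2 (Pf.C 0 0x41018a) (Pf.B 10 1 (Pf.C 0 0x20c10a) (Pf.B 10 0 (Pf.C 0 32906) (Pf.C 0 0x102400a))))))))
 Pq.nil)))))))) Pq.nil)))))))) (Pq.cons (Pq.D 2 (Pq.cons (Pq.D 3 (Pq.cons (Pq.D 4 (Pq.cons (Pq.L [0,1] 910 (Pf.C 1 0x5091004006))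
 (Pq.cons (Pq.L [0,1] 910 (Pf.C 1 0x5091004006))
 (Pq.cons (Pq.L [0,1] 910 (Pf.C 1 0x5091004006))
 (Pq.cons (Pq.L [0,1] 910 (Pf.C 1 0x5091004006))
 (Pq.cons (Pq.L [0,1] 910 (Pf.C 1 0x5091004006))
 (Pq.cons (Pq.L [0,2] 910 (Pf.C 1 0x5091008006))
 (Pq.cons (Pq.L [1,2] 910 (Pf.C 1 0x5091008086))
 Pq.nil)))))))) (Pq.cons (Pq.L [3,5] 1023 (Pf.B 10 3 (Pf.C 1 0x409141c303) (Pf.B 10 5 (Pf.C 1 0x283141c308) (Pf.C 0 0x1214503))))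
 (Pq.cons (Pq.L [3,4,5] 1023 (Pf.B 10 5 (Pf.C 1 0x409141c305) (Pf.B 10 4 (Pf.B 10 3 (Pf.C 1 0x409141c303) (Pf.C 0 0x81418a)) (Pf.C 0 0x1210505))))
 (Pq.cons (Pq.L [3,5] 1023 (Pf.B 10 5 (Pf.C 1 0x409141c305) (Pf.B 10 3 (Pf.C 1 0x185141c308) (Pf.C 0 0x120c505))))
 (Pq.cons (Pq.L [2,3,4,5] 1023 (Pf.B 10 5 (Pf.C 1 0x409141c305) (Pf.B 10 3 (Pf.C 1 0x409141c303) (Pf.B 10 4 (Pf.C 0 0x81418a) (Pf.B 10 2 (Pf.C 0 0x41018a) (Pf.C 0 0x1208503))))))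
 (Pq.cons (Pq.L [1,2,3,4,5] 1023 (Pf.B 10 5 (Pf.C 1 0x409141c305) (Pf.B 10 3 (Pf.C 1 0x409141c303) (Pf.B 10 4 (Pf.C 0 0x81418a) (Pf.B 10 2 (Pf.C 0 0x41018a) (Pf.B 10 1 (Pf.C 0 0x20c10a) (Pf.C 0 0x1204502)))))))
 (Pq.cons (Pq.L [0,1,2,3,4,5] 1023 (Pf.B 10 5 (Pf.C 1 0x409141c305) (Pf.B 10 3 (Pf.C 1 0x409141c303) (Pf.B 10 4 (Pf.C 0 0x81418a) (Pf.B 10 2 (Pf.C 0 0x41018a) (Pf.B 10 1 (Pf.C 0 0x20c10a) (Pf.B 10 0 (Pf.C 0 32906) (Pf.C 0 0x1200501))))))))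
 Pq.nil)))))))) (Pq.cons (Pq.D 3 (Pq.cons (Pq.D 4 (Pq.cons (Pq.L [0,1] 910 (Pf.C 1 0x5091004006))
 (Pq.cons (Pq.L [0,1] 910 (Pf.C 1 0x5091004006))
 (Pq.cons (Pq.L [0,1] 910 (Pf.C 1 0x5091004006))
 (Pq.cons (Pq.L [0,1] 910 (Pf.C 1 0x5091004006))
 (Pq.cons (Pq.L [0,1] 910 (Pf.C 1 0x5091004006))
 (Pq.cons (Pq.L [0,2] 910 (Pf.C 1 0x5091008006))
 (Pq.cons (Pq.L [1,2] 910 (Pf.C 1 0x5091008086))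
 Pq.nil)))))))) (Pq.cons (Pq.L [2,3,4,5] 987 (Pf.B 10 5 (Pf.B 10 3 (Pf.C 1 0x405061c30a) (Pf.B 10 4 (Pf.B 10 2 (Pf.C 1 0x405041c30a) (Pf.C 0 0x80c10a)) (Pf.C 0 0xa0c20a))) (Pf.C 0 0x102428a)))
 (Pq.cons (Pq.L [2,3,4,5] 1023 (Pf.B 10 3 (Pf.C 1 0x409141c303) (Pf.B 10 4 (Pf.B 10 5 (Pf.B 10 2 (Pf.C 1 0x405041c30a) (Pf.C 0 0x80c10a)) (Pf.C 0 0x80c28a)) (Pf.C 0 0x1210503))))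
 (Pq.cons (Pq.L [2,3] 1023 (Pf.B 10 2 (Pf.C 1 0x409141c302) (Pf.B 10 3 (Pf.C 1 0x182141c308) (Pf.C 0 0x120c502))))
 (Pq.cons (Pq.L [2,3] 1023 (Pf.B 10 3 (Pf.C 1 0x409141c303) (Pf.B 10 2 (Pf.C 1 0x103141c308) (Pf.C 0 0x1208503))))
 (Pq.cons (Pq.L [1,2,3] 1023 (Pf.B 10 3 (Pf.C 1 0x409141c303) (Pf.B 10 2 (Pf.C 1 0x409141c302) (Pf.B 10 1 (Pf.C 0 0x20c10a) (Pf.C 0 0x1204502)))))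
 (Pq.cons (Pq.L [0,1,2,3] 1023 (Pf.B 10 3 (Pf.C 1 0x409141c303) (Pf.B 10 2 (Pf.C 1 0x409141c302) (Pf.B 10 1 (Pf.C 0 0x20c10a) (Pf.B 10 0 (Pf.C 0 32906) (Pf.C 0 0x1200501))))))
 Pq.nil)))))))) (Pq.cons (Pq.D 3 (Pq.cons (Pq.D 4 (Pq.cons (Pq.L [0,1] 910 (Pf.C 1 0x5091004006))
 (Pq.cons (Pq.L [0,1] 910 (Pf.C 1 0x5091004006))
 (Pq.cons (Pq.L [0,1] 910 (Pf.C 1 0x5091004006))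
 (Pq.cons (Pq.L [0,1] 910 (Pf.C 1 0x5091004006))
 (Pq.cons (Pq.L [0,1] 910 (Pf.C 1 0x5091004006))
 (Pq.cons (Pq.L [0,2] 910 (Pf.C 1 0x5091008006))
 (Pq.cons (Pq.L [1,2] 910 (Pf.C 1 0x5091008086))
 Pq.nil)))))))) (Pq.cons (Pq.L [3,5] 1023 (Pf.B 10 3 (Pf.C 1 0x409141c303) (Pf.B 10 5 (Pf.C 1 0x283141c308) (Pf.C 0 0x1214503))))
 (Pq.cons (Pq.L [3,4,5] 1023 (Pf.B 10 5 (Pf.C 1 0x409141c305) (Pf.B 10 4 (Pf.B 10 3 (Pf.C 1 0x409141c303) (Pf.C 0 0x81418a)) (Pf.C 0 0x102420a))))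
 (Pq.cons (Pq.L [3,5] 1023 (Pf.B 10 5 (Pf.C 1 0x409141c305) (Pf.B 10 3 (Pf.C 1 0x185141c308) (Pf.C 0 0x120c505))))
 (Pq.cons (Pq.L [2,3,4,5] 1023 (Pf.B 10 5 (Pf.C 1 0x409141c305) (Pf.B 10 3 (Pf.C 1 0x409141c303) (Pf.B 10 4 (Pf.C 0 0x81418a) (Pf.B 10 2 (Pf.C 0 0x41018a) (Pf.C 0 0x1208503))))))
 (Pq.cons (Pq.L [1,2,3,4,5] 1023 (Pf.B 10 5 (Pf.C 1 0x409141c305) (Pf.B 10 3 (Pf.C 1 0x409141c303) (Pf.B 10 4 (Pf.C 0 0x81418a) (Pf.B 10 2 (Pf.C 0 0x41018a) (Pf.B 10 1 (Pf.C 0 0x20c10a) (Pf.C 0 0x1204502)))))))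
 (Pq.cons (Pq.L [0,1,2,3,4,5] 1023 (Pf.B 10 5 (Pf.C 1 0x409141c305) (Pf.B 10 3 (Pf.C 1 0x409141c303) (Pf.B 10 4 (Pf.C 0 0x81418a) (Pf.B 10 2 (Pf.C 0 0x41018a) (Pf.B 10 1 (Pf.C 0 0x20c10a) (Pf.B 10 0 (Pf.C 0 32906) (Pf.C 0 0x1200501))))))))
 Pq.nil)))))))) (Pq.cons (Pq.D 3 (Pq.cons (Pq.D 4 (Pq.cons (Pq.L [0,1] 910 (Pf.C 1 0x5091004006))
 (Pq.cons (Pq.L [0,1] 910 (Pf.C 1 0x5091004006))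
 (Pq.cons (Pq.L [0,1] 910 (Pf.C 1 0x5091004006))
 (Pq.cons (Pq.L [0,1] 910 (Pf.C 1 0x5091004006))
 (Pq.cons (Pq.L [0,1] 910 (Pf.C 1 0x5091004006))
 (Pq.cons (Pq.L [0,2] 910 (Pf.C 1 0x5091008006))
 (Pq.cons (Pq.L [1,2] 910 (Pf.C 1 0x5091008086))
 Pq.nil)))))))) (Pq.cons (Pq.L [2,5] 1023 (Pf.B 10 2 (Pf.C 1 0x409141c302) (Pf.B 10 5 (Pf.C 1 0x282141c308) (Pf.C 0 0x1214502))))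
 (Pq.cons (Pq.L [2,3,4,5] 1023 (Pf.B 10 5 (Pf.C 1 0x409141c305) (Pf.B 10 4 (Pf.B 10 3 (Pf.B 10 2 (Pf.C 1 0x403041c30a) (Pf.C 0 0x61410a)) (Pf.C 0 0x81418a)) (Pf.C 0 0x1210505))))
 (Pq.cons (Pq.L [2,3,5] 1023 (Pf.B 10 5 (Pf.C 1 0x409141c305) (Pf.B 10 3 (Pf.B 10 2 (Pf.C 1 0x403041c30a) (Pf.C 0 0x61410a)) (Pf.C 0 0x102418a))))
 (Pq.cons (Pq.L [2,5] 1023 (Pf.B 10 5 (Pf.C 1 0x409141c305) (Pf.B 10 2 (Pf.C 1 0x105141c308) (Pf.C 0 0x1208505))))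
 (Pq.cons (Pq.L [1,2,3,4,5] 1023 (Pf.B 10 5 (Pf.C 1 0x409141c305) (Pf.B 10 2 (Pf.C 1 0x409141c302) (Pf.B 10 4 (Pf.C 0 0x81410a) (Pf.B 10 3 (Pf.C 0 0x61010a) (Pf.B 10 1 (Pf.C 0 0x20c10a) (Pf.C 0 0x1204502)))))))
 (Pq.cons (Pq.L [0,1,2,3,4,5] 1023 (Pf.B 10 5 (Pf.C 1 0x409141c305) (Pf.B 10 2 (Pf.C 1 0x409141c302) (Pf.B 10 4 (Pf.C 0 0x81410a) (Pf.B 10 3 (Pf.C 0 0x61010a) (Pf.B 10 1 (Pf.C 0 0x20c10a) (Pf.B 10 0 (Pf.C 0 32906) (Pf.C 0 0x1200501))))))))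
 Pq.nil)))))))) (Pq.cons (Pq.D 3 (Pq.cons (Pq.D 4 (Pq.cons (Pq.L [0,1] 910 (Pf.C 1 0x5091004006))
 (Pq.cons (Pq.L [0,1] 910 (Pf.C 1 0x5091004006))
 (Pq.cons (Pq.L [0,1] 910 (Pf.C 1 0x5091004006))
 (Pq.cons (Pq.L [0,1] 910 (Pf.C 1 0x5091004006))
 (Pq.cons (Pq.L [0,1] 910 (Pf.C 1 0x5091004006))
 (Pq.cons (Pq.L [0,3] 910 (Pf.C 1 0x509100c006))
 (Pq.cons (Pq.L [1,3] 910 (Pf.C 1 0x509100c086))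
 Pq.nil)))))))) (Pq.cons (Pq.L [3,5] 1023 (Pf.B 10 3 (Pf.C 1 0x409141c303) (Pf.B 10 5 (Pf.C 1 0x283141c308) (Pf.C 0 0x1214503))))
 (Pq.cons (Pq.L [3,4,5] 1023 (Pf.B 10 5 (Pf.C 1 0x409141c305) (Pf.B 10 4 (Pf.B 10 3 (Pf.C 1 0x409141c303) (Pf.C 0 0x81418a)) (Pf.C 0 0x1210505))))
 (Pq.cons (Pq.L [3,5] 1023 (Pf.B 10 5 (Pf.C 1 0x409141c305) (Pf.B 10 3 (Pf.C 1 0x185141c308) (Pf.C 0 0x120c505))))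
 (Pq.cons (Pq.L [2,3,4,5] 1023 (Pf.B 10 5 (Pf.C 1 0x409141c305) (Pf.B 10 3 (Pf.C 1 0x409141c303) (Pf.B 10 4 (Pf.C 0 0x81418a) (Pf.B 10 2 (Pf.C 0 0x41018a) (Pf.C 0 0x102410a))))))
 (Pq.cons (Pq.L [1,2,3,4,5] 1023 (Pf.B 10 5 (Pf.C 1 0x409141c305) (Pf.B 10 3 (Pf.C 1 0x409141c303) (Pf.B 10 4 (Pf.C 0 0x81418a) (Pf.B 10 2 (Pf.C 0 0x41018a) (Pf.B 10 1 (Pf.C 0 0x20c10a) (Pf.C 0 0x1204502)))))))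
 (Pq.cons (Pq.L [0,1,2,3,4,5] 1023 (Pf.B 10 5 (Pf.C 1 0x409141c305) (Pf.B 10 3 (Pf.C 1 0x409141c303) (Pf.B 10 4 (Pf.C 0 0x81418a) (Pf.B 10 2 (Pf.C 0 0x41018a) (Pf.B 10 1 (Pf.C 0 0x20c10a) (Pf.B 10 0 (Pf.C 0 32906) (Pf.C 0 0x1200501))))))))
 Pq.nil)))))))) (Pq.cons (Pq.D 3 (Pq.cons (Pq.D 4 (Pq.cons (Pq.L [0,2] 910 (Pf.C 1 0x5091008006))
 (Pq.cons (Pq.L [0,2] 910 (Pf.C 1 0x5091008006))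
 (Pq.cons (Pq.L [0,2] 910 (Pf.C 1 0x5091008006))
 (Pq.cons (Pq.L [0,2] 910 (Pf.C 1 0x5091008006))
 (Pq.cons (Pq.L [0,3] 910 (Pf.C 1 0x509100c006))
 (Pq.cons (Pq.L [0,2] 910 (Pf.C 1 0x5091008006))
 (Pq.cons (Pq.L [2,3] 910 (Pf.C 1 0x509100c106))
 Pq.nil)))))))) (Pq.cons (Pq.L [3,5] 1023 (Pf.B 10 3 (Pf.C 1 0x409141c303) (Pf.B 10 5 (Pf.C 1 0x283141c308) (Pf.C 0 0x1214503))))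
 (Pq.cons (Pq.L [3,4,5] 1023 (Pf.B 10 5 (Pf.C 1 0x409141c305) (Pf.B 10 4 (Pf.B 10 3 (Pf.C 1 0x409141c303) (Pf.C 0 0x81418a)) (Pf.C 0 0x1210505))))
 (Pq.cons (Pq.L [3,5] 1023 (Pf.B 10 5 (Pf.C 1 0x409141c305) (Pf.B 10 3 (Pf.C 1 0x185141c308) (Pf.C 0 0x120c505))))
 (Pq.cons (Pq.L [2,3,4,5] 1023 (Pf.B 10 5 (Pf.C 1 0x409141c305) (Pf.B 10 3 (Pf.C 1 0x409141c303) (Pf.B 10 4 (Pf.C 0 0x81418a) (Pf.B 10 2 (Pf.C 0 0x41018a) (Pf.C 0 0x1208503))))))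
 (Pq.cons (Pq.L [1,2,3,4,5] 1023 (Pf.B 10 5 (Pf.C 1 0x409141c305) (Pf.B 10 3 (Pf.C 1 0x409141c303) (Pf.B 10 4 (Pf.C 0 0x81418a) (Pf.B 10 2 (Pf.C 0 0x41018a) (Pf.B 10 1 (Pf.C 0 0x20c10a) (Pf.C 0 0x102408a)))))))
 (Pq.cons (Pq.L [0,1,2,3,4,5] 1023 (Pf.B 10 5 (Pf.C 1 0x409141c305) (Pf.B 10 3 (Pf.C 1 0x409141c303) (Pf.B 10 4 (Pf.C 0 0x81418a) (Pf.B 10 2 (Pf.C 0 0x41018a) (Pf.B 10 1 (Pf.C 0 0x20c10a) (Pf.B 10 0 (Pf.C 0 32906) (Pf.C 0 0x1200501))))))))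
 Pq.nil)))))))) (Pq.cons (Pq.D 3 (Pq.cons (Pq.D 4 (Pq.cons (Pq.L [1,2] 910 (Pf.C 1 0x5091008086))
 (Pq.cons (Pq.L [1,2] 910 (Pf.C 1 0x5091008086))
 (Pq.cons (Pq.L [1,2] 910 (Pf.C 1 0x5091008086))
 (Pq.cons (Pq.L [1,2] 910 (Pf.C 1 0x5091008086))
 (Pq.cons (Pq.L [1,3] 910 (Pf.C 1 0x509100c086))
 (Pq.cons (Pq.L [2,3] 910 (Pf.C 1 0x509100c106))
 (Pq.cons (Pq.L [1,2] 910 (Pf.C 1 0x5091008086))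
 Pq.nil)))))))) (Pq.cons (Pq.L [3,5] 1023 (Pf.B 10 3 (Pf.C 1 0x409141c303) (Pf.B 10 5 (Pf.C 1 0x283141c308) (Pf.C 0 0x1214503))))
 (Pq.cons (Pq.L [3,4,5] 1023 (Pf.B 10 5 (Pf.C 1 0x409141c305) (Pf.B 10 4 (Pf.B 10 3 (Pf.C 1 0x409141c303) (Pf.C 0 0x81418a)) (Pf.C 0 0x1210505))))
 (Pq.cons (Pq.L [3,5] 1023 (Pf.B 10 5 (Pf.C 1 0x409141c305) (Pf.B 10 3 (Pf.C 1 0x185141c308) (Pf.C 0 0x120c505))))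
 (Pq.cons (Pq.L [2,3,4,5] 1023 (Pf.B 10 5 (Pf.C 1 0x409141c305) (Pf.B 10 3 (Pf.C 1 0x409141c303) (Pf.B 10 4 (Pf.C 0 0x81418a) (Pf.B 10 2 (Pf.C 0 0x41018a) (Pf.C 0 0x1208503))))))
 (Pq.cons (Pq.L [1,2,3,4,5] 1023 (Pf.B 10 5 (Pf.C 1 0x409141c305) (Pf.B 10 3 (Pf.C 1 0x409141c303) (Pf.B 10 4 (Pf.C 0 0x81418a) (Pf.B 10 2 (Pf.C 0 0x41018a) (Pf.B 10 1 (Pf.C 0 0x20c10a) (Pf.C 0 0x1204502)))))))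
 (Pq.cons (Pq.L [0,1,2,3,4,5] 1023 (Pf.B 10 5 (Pf.C 1 0x409141c305) (Pf.B 10 3 (Pf.C 1 0x409141c303) (Pf.B 10 4 (Pf.C 0 0x81418a) (Pf.B 10 2 (Pf.C 0 0x41018a) (Pf.B 10 1 (Pf.C 0 0x20c10a) (Pf.B 10 0 (Pf.C 0 32906) (Pf.C 0 0x102400a))))))))
 Pq.nil)))))))) Pq.nil)))))))) (Pq.cons (Pq.D 2 (Pq.cons (Pq.D 3 (Pq.cons (Pq.D 4 (Pq.cons (Pq.L [0,1] 910 (Pf.C 1 0x5091004006))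
 (Pq.cons (Pq.L [0,1] 910 (Pf.C 1 0x5091004006))
 (Pq.cons (Pq.L [0,1] 910 (Pf.C 1 0x5091004006))
 (Pq.cons (Pq.L [0,1] 910 (Pf.C 1 0x5091004006))
 (Pq.cons (Pq.L [0,1] 910 (Pf.C 1 0x5091004006))
 (Pq.cons (Pq.L [0,2] 910 (Pf.C 1 0x5091008006))
 (Pq.cons (Pq.L [1,2] 910 (Pf.C 1 0x5091008086))
 Pq.nil)))))))) (Pq.cons (Pq.L [3,5] 1023 (Pf.B 10 3 (Pf.C 1 0x409141c303) (Pf.B 10 5 (Pf.C 1 0x283141c308) (Pf.C 0 0x1214503))))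
 (Pq.cons (Pq.L [3,4,5] 1023 (Pf.B 10 5 (Pf.C 1 0x409141c305) (Pf.B 10 4 (Pf.B 10 3 (Pf.C 1 0x409141c303) (Pf.C 0 0x81418a)) (Pf.C 0 0x1210505))))
 (Pq.cons (Pq.L [3,5] 1023 (Pf.B 10 5 (Pf.C 1 0x409141c305) (Pf.B 10 3 (Pf.C 1 0x185141c308) (Pf.C 0 0x120c505))))
 (Pq.cons (Pq.L [2,3,4,5] 1023 (Pf.B 10 5 (Pf.C 1 0x409141c305) (Pf.B 10 3 (Pf.C 1 0x409141c303) (Pf.B 10 4 (Pf.C 0 0x81418a) (Pf.B 10 2 (Pf.C 0 0x41018a) (Pf.C 0 0x1208503))))))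
 (Pq.cons (Pq.L [1,2,3,4,5] 1023 (Pf.B 10 5 (Pf.C 1 0x409141c305) (Pf.B 10 3 (Pf.C 1 0x409141c303) (Pf.B 10 4 (Pf.C 0 0x81418a) (Pf.B 10 2 (Pf.C 0 0x41018a) (Pf.B 10 1 (Pf.C 0 0x20c10a) (Pf.C 0 0x1204502)))))))
 (Pq.cons (Pq.L [0,1,2,3,4,5] 1023 (Pf.B 10 5 (Pf.C 1 0x409141c305) (Pf.B 10 3 (Pf.C 1 0x409141c303) (Pf.B 10 4 (Pf.C 0 0x81418a) (Pf.B 10 2 (Pf.C 0 0x41018a) (Pf.B 10 1 (Pf.C 0 0x20c10a) (Pf.B 10 0 (Pf.C 0 32906) (Pf.C 0 0x1200501))))))))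
 Pq.nil)))))))) (Pq.cons (Pq.D 3 (Pq.cons (Pq.D 4 (Pq.cons (Pq.L [0,1] 910 (Pf.C 1 0x5091004006))
 (Pq.cons (Pq.L [0,1] 910 (Pf.C 1 0x5091004006))
 (Pq.cons (Pq.L [0,1] 910 (Pf.C 1 0x5091004006))
 (Pq.cons (Pq.L [0,1] 910 (Pf.C 1 0x5091004006))
 (Pq.cons (Pq.L [0,1] 910 (Pf.C 1 0x5091004006))
 (Pq.cons (Pq.L [0,2] 910 (Pf.C 1 0x5091008006))
 (Pq.cons (Pq.L [1,2] 910 (Pf.C 1 0x5091008086))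
 Pq.nil)))))))) (Pq.cons (Pq.L [2,3,4,5] 987 (Pf.B 10 5 (Pf.B 10 3 (Pf.C 1 0x405061c30a) (Pf.B 10 4 (Pf.B 10 2 (Pf.C 1 0x405041c30a) (Pf.C 0 0x80c10a)) (Pf.C 0 0xa0c20a))) (Pf.C 0 0x102428a)))
 (Pq.cons (Pq.L [2,3,4,5] 1023 (Pf.B 10 3 (Pf.C 1 0x409141c303) (Pf.B 10 4 (Pf.B 10 5 (Pf.B 10 2 (Pf.C 1 0x405041c30a) (Pf.C 0 0x80c10a)) (Pf.C 0 0x80c28a)) (Pf.C 0 0x1210503))))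
 (Pq.cons (Pq.L [2,3] 1023 (Pf.B 10 2 (Pf.C 1 0x409141c302) (Pf.B 10 3 (Pf.C 1 0x182141c308) (Pf.C 0 0x120c502))))
 (Pq.cons (Pq.L [2,3] 1023 (Pf.B 10 3 (Pf.C 1 0x409141c303) (Pf.B 10 2 (Pf.C 1 0x103141c308) (Pf.C 0 0x1208503))))
 (Pq.cons (Pq.L [1,2,3] 1023 (Pf.B 10 3 (Pf.C 1 0x409141c303) (Pf.B 10 2 (Pf.C 1 0x409141c302) (Pf.B 10 1 (Pf.C 0 0x20c10a) (Pf.C 0 0x1204502)))))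
 (Pq.cons (Pq.L [0,1,2,3] 1023 (Pf.B 10 3 (Pf.C 1 0x409141c303) (Pf.B 10 2 (Pf.C 1 0x409141c302) (Pf.B 10 1 (Pf.C 0 0x20c10a) (Pf.B 10 0 (Pf.C 0 32906) (Pf.C 0 0x1200501))))))
 Pq.nil)))))))) (Pq.cons (Pq.D 3 (Pq.cons (Pq.D 4 (Pq.cons (Pq.L [0,1] 910 (Pf.C 1 0x5091004006))
 (Pq.cons (Pq.L [0,1] 910 (Pf.C 1 0x5091004006))
 (Pq.cons (Pq.L [0,1] 910 (Pf.C 1 0x5091004006))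
 (Pq.cons (Pq.L [0,1] 910 (Pf.C 1 0x5091004006))
 (Pq.cons (Pq.L [0,1] 910 (Pf.C 1 0x5091004006))
 (Pq.cons (Pq.L [0,2] 910 (Pf.C 1 0x5091008006))
 (Pq.cons (Pq.L [1,2] 910 (Pf.C 1 0x5091008086))
 Pq.nil)))))))) (Pq.cons (Pq.L [3,5] 1023 (Pf.B 10 3 (Pf.C 1 0x409141c303) (Pf.B 10 5 (Pf.C 1 0x283141c308) (Pf.C 0 0x1214503))))
 (Pq.cons (Pq.L [3,4,5] 1023 (Pf.B 10 5 (Pf.C 1 0x409141c305) (Pf.B 10 4 (Pf.B 10 3 (Pf.C 1 0x409141c303) (Pf.C 0 0x81418a)) (Pf.C 0 0x102420a))))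
 (Pq.cons (Pq.L [3,5] 1023 (Pf.B 10 5 (Pf.C 1 0x409141c305) (Pf.B 10 3 (Pf.C 1 0x185141c308) (Pf.C 0 0x120c505))))
 (Pq.cons (Pq.L [2,3,4,5] 1023 (Pf.B 10 5 (Pf.C 1 0x409141c305) (Pf.B 10 3 (Pf.C 1 0x409141c303) (Pf.B 10 4 (Pf.C 0 0x81418a) (Pf.B 10 2 (Pf.C 0 0x41018a) (Pf.C 0 0x1208503))))))
 (Pq.cons (Pq.L [1,2,3,4,5] 1023 (Pf.B 10 5 (Pf.C 1 0x409141c305) (Pf.B 10 3 (Pf.C 1 0x409141c303) (Pf.B 10 4 (Pf.C 0 0x81418a) (Pf.B 10 2 (Pf.C 0 0x41018a) (Pf.B 10 1 (Pf.C 0 0x20c10a) (Pf.C 0 0x1204502)))))))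
 (Pq.cons (Pq.L [0,1,2,3,4,5] 1023 (Pf.B 10 5 (Pf.C 1 0x409141c305) (Pf.B 10 3 (Pf.C 1 0x409141c303) (Pf.B 10 4 (Pf.C 0 0x81418a) (Pf.B 10 2 (Pf.C 0 0x41018a) (Pf.B 10 1 (Pf.C 0 0x20c10a) (Pf.B 10 0 (Pf.C 0 32906) (Pf.C 0 0x1200501))))))))
 Pq.nil)))))))) (Pq.cons (Pq.D 3 (Pq.cons (Pq.D 4 (Pq.cons (Pq.L [0,1] 910 (Pf.C 1 0x5091004006))
 (Pq.cons (Pq.L [0,1] 910 (Pf.C 1 0x5091004006))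
 (Pq.cons (Pq.L [0,1] 910 (Pf.C 1 0x5091004006))
 (Pq.cons (Pq.L [0,1] 910 (Pf.C 1 0x5091004006))
 (Pq.cons (Pq.L [0,1] 910 (Pf.C 1 0x5091004006))
 (Pq.cons (Pq.L [0,2] 910 (Pf.C 1 0x5091008006))
 (Pq.cons (Pq.L [1,2] 910 (Pf.C 1 0x5091008086))
 Pq.nil)))))))) (Pq.cons (Pq.L [2,5] 1023 (Pf.B 10 2 (Pf.C 1 0x409141c302) (Pf.B 10 5 (Pf.C 1 0x282141c308) (Pf.C 0 0x1214502))))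
 (Pq.cons (Pq.L [2,3,4,5] 1023 (Pf.B 10 5 (Pf.C 1 0x409141c305) (Pf.B 10 4 (Pf.B 10 3 (Pf.B 10 2 (Pf.C 1 0x403041c30a) (Pf.C 0 0x61410a)) (Pf.C 0 0x81418a)) (Pf.C 0 0x1210505))))
 (Pq.cons (Pq.L [2,3,5] 1023 (Pf.B 10 5 (Pf.C 1 0x409141c305) (Pf.B 10 3 (Pf.B 10 2 (Pf.C 1 0x403041c30a) (Pf.C 0 0x61410a)) (Pf.C 0 0x102418a))))
 (Pq.cons (Pq.L [2,5] 1023 (Pf.B 10 5 (Pf.C 1 0x409141c305) (Pf.B 10 2 (Pf.C 1 0x105141c308) (Pf.C 0 0x1208505))))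
 (Pq.cons (Pq.L [1,2,3,4,5] 1023 (Pf.B 10 5 (Pf.C 1 0x409141c305) (Pf.B 10 2 (Pf.C 1 0x409141c302) (Pf.B 10 4 (Pf.C 0 0x81410a) (Pf.B 10 3 (Pf.C 0 0x61010a) (Pf.B 10 1 (Pf.C 0 0x20c10a) (Pf.C 0 0x1204502)))))))
 (Pq.cons (Pq.L [0,1,2,3,4,5] 1023 (Pf.B 10 5 (Pf.C 1 0x409141c305) (Pf.B 10 2 (Pf.C 1 0x409141c302) (Pf.B 10 4 (Pf.C 0 0x81410a) (Pf.B 10 3 (Pf.C 0 0x61010a) (Pf.B 10 1 (Pf.C 0 0x20c10a) (Pf.B 10 0 (Pf.C 0 32906) (Pf.C 0 0x1200501))))))))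
 Pq.nil)))))))) (Pq.cons (Pq.D 3 (Pq.cons (Pq.D 4 (Pq.cons (Pq.L [0,1] 910 (Pf.C 1 0x5091004006))
 (Pq.cons (Pq.L [0,1] 910 (Pf.C 1 0x5091004006))
 (Pq.cons (Pq.L [0,1] 910 (Pf.C 1 0x5091004006))
 (Pq.cons (Pq.L [0,1] 910 (Pf.C 1 0x5091004006))
 (Pq.cons (Pq.L [0,1] 910 (Pf.C 1 0x5091004006))
 (Pq.cons (Pq.L [0,3] 910 (Pf.C 1 0x509100c006))
 (Pq.cons (Pq.L [1,3] 910 (Pf.C 1 0x509100c086))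
 Pq.nil)))))))) (Pq.cons (Pq.L [3,5] 1023 (Pf.B 10 3 (Pf.C 1 0x409141c303) (Pf.B 10 5 (Pf.C 1 0x283141c308) (Pf.C 0 0x1214503))))
 (Pq.cons (Pq.L [3,4,5] 1023 (Pf.B 10 5 (Pf.C 1 0x409141c305) (Pf.B 10 4 (Pf.B 10 3 (Pf.C 1 0x409141c303) (Pf.C 0 0x81418a)) (Pf.C 0 0x1210505))))
 (Pq.cons (Pq.L [3,5] 1023 (Pf.B 10 5 (Pf.C 1 0x409141c305) (Pf.B 10 3 (Pf.C 1 0x185141c308) (Pf.C 0 0x120c505))))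
 (Pq.cons (Pq.L [2,3,4,5] 1023 (Pf.B 10 5 (Pf.C 1 0x409141c305) (Pf.B 10 3 (Pf.C 1 0x409141c303) (Pf.B 10 4 (Pf.C 0 0x81418a) (Pf.B 10 2 (Pf.C 0 0x41018a) (Pf.C 0 0x102410a))))))
 (Pq.cons (Pq.L [1,2,3,4,5] 1023 (Pf.B 10 5 (Pf.C 1 0x409141c305) (Pf.B 10 3 (Pf.C 1 0x409141c303) (Pf.B 10 4 (Pf.C 0 0x81418a) (Pf.B 10 2 (Pf.C 0 0x41018a) (Pf.B 10 1 (Pf.C 0 0x20c10a) (Pf.C 0 0x1204502)))))))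
 (Pq.cons (Pq.L [0,1,2,3,4,5] 1023 (Pf.B 10 5 (Pf.C 1 0x409141c305) (Pf.B 10 3 (Pf.C 1 0x409141c303) (Pf.B 10 4 (Pf.C 0 0x81418a) (Pf.B 10 2 (Pf.C 0 0x41018a) (Pf.B 10 1 (Pf.C 0 0x20c10a) (Pf.B 10 0 (Pf.C 0 32906) (Pf.C 0 0x1200501))))))))
 Pq.nil)))))))) (Pq.cons (Pq.D 3 (Pq.cons (Pq.D 4 (Pq.cons (Pq.L [0,2] 910 (Pf.C 1 0x5091008006))
 (Pq.cons (Pq.L [0,2] 910 (Pf.C 1 0x5091008006))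
 (Pq.cons (Pq.L [0,2] 910 (Pf.C 1 0x5091008006))
 (Pq.cons (Pq.L [0,2] 910 (Pf.C 1 0x5091008006))
 (Pq.cons (Pq.L [0,3] 910 (Pf.C 1 0x509100c006))
 (Pq.cons (Pq.L [0,2] 910 (Pf.C 1 0x5091008006))
 (Pq.cons (Pq.L [2,3] 910 (Pf.C 1 0x509100c106))
 Pq.nil)))))))) (Pq.cons (Pq.L [3,5] 1023 (Pf.B 10 3 (Pf.C 1 0x409141c303) (Pf.B 10 5 (Pf.C 1 0x283141c308) (Pf.C 0 0x1214503))))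
 (Pq.cons (Pq.L [3,4,5] 1023 (Pf.B 10 5 (Pf.C 1 0x409141c305) (Pf.B 10 4 (Pf.B 10 3 (Pf.C 1 0x409141c303) (Pf.C 0 0x81418a)) (Pf.C 0 0x1210505))))
 (Pq.cons (Pq.L [3,5] 1023 (Pf.B 10 5 (Pf.C 1 0x409141c305) (Pf.B 10 3 (Pf.C 1 0x185141c308) (Pf.C 0 0x120c505))))
 (Pq.cons (Pq.L [2,3,4,5] 1023 (Pf.B 10 5 (Pf.C 1 0x409141c305) (Pf.B 10 3 (Pf.C 1 0x409141c303) (Pf.B 10 4 (Pf.C 0 0x81418a) (Pf.B 10 2 (Pf.C 0 0x41018a) (Pf.C 0 0x1208503))))))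
 (Pq.cons (Pq.L [1,2,3,4,5] 1023 (Pf.B 10 5 (Pf.C 1 0x409141c305) (Pf.B 10 3 (Pf.C 1 0x409141c303) (Pf.B 10 4 (Pf.C 0 0x81418a) (Pf.B 10 2 (Pf.C 0 0x41018a) (Pf.B 10 1 (Pf.C 0 0x20c10a) (Pf.C 0 0x102408a)))))))
 (Pq.cons (Pq.L [0,1,2,3,4,5] 1023 (Pf.B 10 5 (Pf.C 1 0x409141c305) (Pf.B 10 3 (Pf.C 1 0x409141c303) (Pf.B 10 4 (Pf.C 0 0x81418a) (Pf.B 10 2 (Pf.C 0 0x41018a) (Pf.B 10 1 (Pf.C 0 0x20c10a) (Pf.B 10 0 (Pf.C 0 32906) (Pf.C 0 0x1200501))))))))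
 Pq.nil)))))))) (Pq.cons (Pq.D 3 (Pq.cons (Pq.D 4 (Pq.cons (Pq.L [1,2] 910 (Pf.C 1 0x5091008086))
 (Pq.cons (Pq.L [1,2] 910 (Pf.C 1 0x5091008086))
 (Pq.cons (Pq.L [1,2] 910 (Pf.C 1 0x5091008086))
 (Pq.cons (Pq.L [1,2] 910 (Pf.C 1 0x5091008086))
 (Pq.cons (Pq.L [1,3] 910 (Pf.C 1 0x509100c086))
 (Pq.cons (Pq.L [2,3] 910 (Pf.C 1 0x509100c106))
 (Pq.cons (Pq.L [1,2] 910 (Pf.C 1 0x5091008086))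
 Pq.nil)))))))) (Pq.cons (Pq.L [3,5] 1023 (Pf.B 10 3 (Pf.C 1 0x409141c303) (Pf.B 10 5 (Pf.C 1 0x283141c308) (Pf.C 0 0x1214503))))
 (Pq.cons (Pq.L [3,4,5] 1023 (Pf.B 10 5 (Pf.C 1 0x409141c305) (Pf.B 10 4 (Pf.B 10 3 (Pf.C 1 0x409141c303) (Pf.C 0 0x81418a)) (Pf.C 0 0x1210505))))
 (Pq.cons (Pq.L [3,5] 1023 (Pf.B 10 5 (Pf.C 1 0x409141c305) (Pf.B 10 3 (Pf.C 1 0x185141c308) (Pf.C 0 0x120c505))))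
 (Pq.cons (Pq.L [2,3,4,5] 1023 (Pf.B 10 5 (Pf.C 1 0x409141c305) (Pf.B 10 3 (Pf.C 1 0x409141c303) (Pf.B 10 4 (Pf.C 0 0x81418a) (Pf.B 10 2 (Pf.C 0 0x41018a) (Pf.C 0 0x1208503))))))
 (Pq.cons (Pq.L [1,2,3,4,5] 1023 (Pf.B 10 5 (Pf.C 1 0x409141c305) (Pf.B 10 3 (Pf.C 1 0x409141c303) (Pf.B 10 4 (Pf.C 0 0x81418a) (Pf.B 10 2 (Pf.C 0 0x41018a) (Pf.B 10 1 (Pf.C 0 0x20c10a) (Pf.C 0 0x1204502)))))))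
 (Pq.cons (Pq.L [0,1,2,3,4,5] 1023 (Pf.B 10 5 (Pf.C 1 0x409141c305) (Pf.B 10 3 (Pf.C 1 0x409141c303) (Pf.B 10 4 (Pf.C 0 0x81418a) (Pf.B 10 2 (Pf.C 0 0x41018a) (Pf.B 10 1 (Pf.C 0 0x20c10a) (Pf.B 10 0 (Pf.C 0 32906) (Pf.C 0 0x102400a))))))))
 Pq.nil)))))))) Pq.nil)))))))) Pq.nil)))
theorem e_o12 : AllRef e_T e_G4 (List.drop 1 (List.drop 3 (List.flatMap (splitP 1) (List.drop 1 (List.drop 1 (List.take 3 (List.flatMap (splitP 0) [⟨[[5,6,7,8,9,10,11],[5,6,7,8,9,10,11],[5,6,7,8,9,10,11],[5,6,7,8,9,10,11],[5,6,7,8,9,10,11]],[⟨0,1,true⟩,⟨0,2,false⟩,⟨0,3,false⟩,⟨0,4,false⟩,⟨1,2,false⟩,⟨1,3,false⟩,⟨1,4,false⟩,⟨2,3,true⟩,⟨2,4,false⟩,⟨3,4,true⟩],[],[]⟩]))))))) :=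
  chkPq_sound e_o12c _ (by decide +kernel)
noncomputable def e_o13c : Pq := (Pq.cons (Pq.D 2 (Pq.cons (Pq.D 3 (Pq.cons (Pq.D 4 (Pq.cons (Pq.L [0,1] 910 (Pf.C 1 0x5091004006))
 (Pq.cons (Pq.L [0,1] 910 (Pf.C 1 0x5091004006))
 (Pq.cons (Pq.L [0,1] 910 (Pf.C 1 0x5091004006))
 (Pq.cons (Pq.L [0,1] 910 (Pf.C 1 0x5091004006))
 (Pq.cons (Pq.L [0,1] 910 (Pf.C 1 0x5091004006))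
 (Pq.cons (Pq.L [0,2] 910 (Pf.C 1 0x5091008006))
 (Pq.cons (Pq.L [1,2] 910 (Pf.C 1 0x5091008086))
 Pq.nil)))))))) (Pq.cons (Pq.L [4,5] 1023 (Pf.B 10 4 (Pf.C 1 0x409141c304) (Pf.B 10 5 (Pf.C 1 0x284141c308) (Pf.C 0 0x1214504))))
 (Pq.cons (Pq.L [4,5] 1023 (Pf.B 10 5 (Pf.C 1 0x409141c305) (Pf.B 10 4 (Pf.C 1 0x205141c308) (Pf.C 0 0x1210505))))
 (Pq.cons (Pq.L [3,4,5] 1023 (Pf.B 10 5 (Pf.C 1 0x409141c305) (Pf.B 10 4 (Pf.C 1 0x409141c304) (Pf.B 10 3 (Pf.C 0 0x61420a) (Pf.C 0 0x120c504)))))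
 (Pq.cons (Pq.L [2,3,4,5] 1023 (Pf.B 10 5 (Pf.C 1 0x409141c305) (Pf.B 10 4 (Pf.C 1 0x409141c304) (Pf.B 10 3 (Pf.C 0 0x61420a) (Pf.B 10 2 (Pf.C 0 0x41018a) (Pf.C 0 0x1208503))))))
 (Pq.cons (Pq.L [1,2,3,4,5] 1023 (Pf.B 10 5 (Pf.C 1 0x409141c305) (Pf.B 10 4 (Pf.C 1 0x409141c304) (Pf.B 10 3 (Pf.C 0 0x61420a) (Pf.B 10 2 (Pf.C 0 0x41018a) (Pf.B 10 1 (Pf.C 0 0x20c10a) (Pf.C 0 0x1204502)))))))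
 (Pq.cons (Pq.L [0,1,2,3,4,5] 1023 (Pf.B 10 5 (Pf.C 1 0x409141c305) (Pf.B 10 4 (Pf.C 1 0x409141c304) (Pf.B 10 3 (Pf.C 0 0x61420a) (Pf.B 10 2 (Pf.C 0 0x41018a) (Pf.B 10 1 (Pf.C 0 0x20c10a) (Pf.B 10 0 (Pf.C 0 32906) (Pf.C 0 0x1200501))))))))
 Pq.nil)))))))) (Pq.cons (Pq.D 3 (Pq.cons (Pq.D 4 (Pq.cons (Pq.L [0,1] 910 (Pf.C 1 0x5091004006))
 (Pq.cons (Pq.L [0,1] 910 (Pf.C 1 0x5091004006))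
 (Pq.cons (Pq.L [0,1] 910 (Pf.C 1 0x5091004006))
 (Pq.cons (Pq.L [0,1] 910 (Pf.C 1 0x5091004006))
 (Pq.cons (Pq.L [0,1] 910 (Pf.C 1 0x5091004006))
 (Pq.cons (Pq.L [0,2] 910 (Pf.C 1 0x5091008006))
 (Pq.cons (Pq.L [1,2] 910 (Pf.C 1 0x5091008086))
 Pq.nil)))))))) (Pq.cons (Pq.L [2,3,4,5] 987 (Pf.B 10 5 (Pf.B 10 4 (Pf.C 1 0x405081c30a) (Pf.B 10 3 (Pf.B 10 2 (Pf.C 1 0x405041c30a) (Pf.C 0 0x61010a)) (Pf.C 0 0xa1018a))) (Pf.C 0 0x102428a)))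
 (Pq.cons (Pq.L [2,4] 1023 (Pf.B 10 2 (Pf.C 1 0x409141c302) (Pf.B 10 4 (Pf.C 1 0x202141c308) (Pf.C 0 0x1210502))))
 (Pq.cons (Pq.L [2,3,4,5] 1023 (Pf.B 10 4 (Pf.C 1 0x409141c304) (Pf.B 10 3 (Pf.B 10 5 (Pf.B 10 2 (Pf.C 1 0x405041c30a) (Pf.C 0 0x61010a)) (Pf.C 0 0x61028a)) (Pf.C 0 0x120c504))))
 (Pq.cons (Pq.L [2,4] 1023 (Pf.B 10 4 (Pf.C 1 0x409141c304) (Pf.B 10 2 (Pf.C 1 0x104141c308) (Pf.C 0 0x1208504))))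
 (Pq.cons (Pq.L [1,2,3,4] 1023 (Pf.B 10 4 (Pf.C 1 0x409141c304) (Pf.B 10 2 (Pf.C 1 0x409141c302) (Pf.B 10 3 (Pf.C 0 0x61010a) (Pf.B 10 1 (Pf.C 0 0x20c10a) (Pf.C 0 0x1204502))))))
 (Pq.cons (Pq.L [0,1,2,3,4] 1023 (Pf.B 10 4 (Pf.C 1 0x409141c304) (Pf.B 10 2 (Pf.C 1 0x409141c302) (Pf.B 10 3 (Pf.C 0 0x61010a) (Pf.B 10 1 (Pf.C 0 0x20c10a) (Pf.B 10 0 (Pf.C 0 32906) (Pf.C 0 0x1200501)))))))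
 Pq.nil)))))))) (Pq.cons (Pq.D 3 (Pq.cons (Pq.D 4 (Pq.cons (Pq.L [0,1] 910 (Pf.C 1 0x5091004006))
 (Pq.cons (Pq.L [0,1] 910 (Pf.C 1 0x5091004006))
 (Pq.cons (Pq.L [0,1] 910 (Pf.C 1 0x5091004006))
 (Pq.cons (Pq.L [0,1] 910 (Pf.C 1 0x5091004006))
 (Pq.cons (Pq.L [0,1] 910 (Pf.C 1 0x5091004006))
 (Pq.cons (Pq.L [0,2] 910 (Pf.C 1 0x5091008006))
 (Pq.cons (Pq.L [1,2] 910 (Pf.C 1 0x5091008086))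
 Pq.nil)))))))) (Pq.cons (Pq.L [2,5] 1023 (Pf.B 10 2 (Pf.C 1 0x409141c302) (Pf.B 10 5 (Pf.C 1 0x282141c308) (Pf.C 0 0x1214502))))
 (Pq.cons (Pq.L [2,3,4,5] 1023 (Pf.B 10 5 (Pf.C 1 0x409141c305) (Pf.B 10 4 (Pf.B 10 3 (Pf.B 10 2 (Pf.C 1 0x404041c30a) (Pf.C 0 0x61410a)) (Pf.C 0 0x81418a)) (Pf.C 0 0x102420a))))
 (Pq.cons (Pq.L [2,3,4,5] 1023 (Pf.B 10 5 (Pf.C 1 0x409141c305) (Pf.B 10 3 (Pf.B 10 4 (Pf.B 10 2 (Pf.C 1 0x404041c30a) (Pf.C 0 0x61410a)) (Pf.C 0 0x61420a)) (Pf.C 0 0x120c505))))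
 (Pq.cons (Pq.L [2,5] 1023 (Pf.B 10 5 (Pf.C 1 0x409141c305) (Pf.B 10 2 (Pf.C 1 0x105141c308) (Pf.C 0 0x1208505))))
 (Pq.cons (Pq.L [1,2,3,4,5] 1023 (Pf.B 10 5 (Pf.C 1 0x409141c305) (Pf.B 10 2 (Pf.C 1 0x409141c302) (Pf.B 10 4 (Pf.C 0 0x81410a) (Pf.B 10 3 (Pf.C 0 0x61010a) (Pf.B 10 1 (Pf.C 0 0x20c10a) (Pf.C 0 0x1204502)))))))
 (Pq.cons (Pq.L [0,1,2,3,4,5] 1023 (Pf.B 10 5 (Pf.C 1 0x409141c305) (Pf.B 10 2 (Pf.C 1 0x409141c302) (Pf.B 10 4 (Pf.C 0 0x81410a) (Pf.B 10 3 (Pf.C 0 0x61010a) (Pf.B 10 1 (Pf.C 0 0x20c10a) (Pf.B 10 0 (Pf.C 0 32906) (Pf.C 0 0x1200501))))))))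
 Pq.nil)))))))) (Pq.cons (Pq.D 3 (Pq.cons (Pq.D 4 (Pq.cons (Pq.L [0,1] 910 (Pf.C 1 0x5091004006))
 (Pq.cons (Pq.L [0,1] 910 (Pf.C 1 0x5091004006))
 (Pq.cons (Pq.L [0,1] 910 (Pf.C 1 0x5091004006))
 (Pq.cons (Pq.L [0,1] 910 (Pf.C 1 0x5091004006))
 (Pq.cons (Pq.L [0,1] 910 (Pf.C 1 0x5091004006))
 (Pq.cons (Pq.L [0,2] 910 (Pf.C 1 0x5091008006))
 (Pq.cons (Pq.L [1,2] 910 (Pf.C 1 0x5091008086))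
 Pq.nil)))))))) (Pq.cons (Pq.L [4,5] 1023 (Pf.B 10 4 (Pf.C 1 0x409141c304) (Pf.B 10 5 (Pf.C 1 0x284141c308) (Pf.C 0 0x1214504))))
 (Pq.cons (Pq.L [4,5] 1023 (Pf.B 10 5 (Pf.C 1 0x409141c305) (Pf.B 10 4 (Pf.C 1 0x205141c308) (Pf.C 0 0x1210505))))
 (Pq.cons (Pq.L [3,4,5] 1023 (Pf.B 10 5 (Pf.C 1 0x409141c305) (Pf.B 10 4 (Pf.C 1 0x409141c304) (Pf.B 10 3 (Pf.C 0 0x61420a) (Pf.C 0 0x102418a)))))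
 (Pq.cons (Pq.L [2,3,4,5] 1023 (Pf.B 10 5 (Pf.C 1 0x409141c305) (Pf.B 10 4 (Pf.C 1 0x409141c304) (Pf.B 10 3 (Pf.C 0 0x61420a) (Pf.B 10 2 (Pf.C 0 0x41018a) (Pf.C 0 0x1208503))))))
 (Pq.cons (Pq.L [1,2,3,4,5] 1023 (Pf.B 10 5 (Pf.C 1 0x409141c305) (Pf.B 10 4 (Pf.C 1 0x409141c304) (Pf.B 10 3 (Pf.C 0 0x61420a) (Pf.B 10 2 (Pf.C 0 0x41018a) (Pf.B 10 1 (Pf.C 0 0x20c10a) (Pf.C 0 0x1204502)))))))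
 (Pq.cons (Pq.L [0,1,2,3,4,5] 1023 (Pf.B 10 5 (Pf.C 1 0x409141c305) (Pf.B 10 4 (Pf.C 1 0x409141c304) (Pf.B 10 3 (Pf.C 0 0x61420a) (Pf.B 10 2 (Pf.C 0 0x41018a) (Pf.B 10 1 (Pf.C 0 0x20c10a) (Pf.B 10 0 (Pf.C 0 32906) (Pf.C 0 0x1200501))))))))
 Pq.nil)))))))) (Pq.cons (Pq.D 3 (Pq.cons (Pq.D 4 (Pq.cons (Pq.L [0,1] 910 (Pf.C 1 0x5091004006))
 (Pq.cons (Pq.L [0,1] 910 (Pf.C 1 0x5091004006))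
 (Pq.cons (Pq.L [0,1] 910 (Pf.C 1 0x5091004006))
 (Pq.cons (Pq.L [0,1] 910 (Pf.C 1 0x5091004006))
 (Pq.cons (Pq.L [0,1] 910 (Pf.C 1 0x5091004006))
 (Pq.cons (Pq.L [0,4] 910 (Pf.C 1 0x5091010006))
 (Pq.cons (Pq.L [1,4] 910 (Pf.C 1 0x5091010086))
 Pq.nil)))))))) (Pq.cons (Pq.L [4,5] 1023 (Pf.B 10 4 (Pf.C 1 0x409141c304) (Pf.B 10 5 (Pf.C 1 0x284141c308) (Pf.C 0 0x1214504))))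
 (Pq.cons (Pq.L [4,5] 1023 (Pf.B 10 5 (Pf.C 1 0x409141c305) (Pf.B 10 4 (Pf.C 1 0x205141c308) (Pf.C 0 0x1210505))))
 (Pq.cons (Pq.L [3,4,5] 1023 (Pf.B 10 5 (Pf.C 1 0x409141c305) (Pf.B 10 4 (Pf.C 1 0x409141c304) (Pf.B 10 3 (Pf.C 0 0x61420a) (Pf.C 0 0x120c504)))))
 (Pq.cons (Pq.L [2,3,4,5] 1023 (Pf.B 10 5 (Pf.C 1 0x409141c305) (Pf.B 10 4 (Pf.C 1 0x409141c304) (Pf.B 10 3 (Pf.C 0 0x61420a) (Pf.B 10 2 (Pf.C 0 0x41018a) (Pf.C 0 0x102410a))))))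
 (Pq.cons (Pq.L [1,2,3,4,5] 1023 (Pf.B 10 5 (Pf.C 1 0x409141c305) (Pf.B 10 4 (Pf.C 1 0x409141c304) (Pf.B 10 3 (Pf.C 0 0x61420a) (Pf.B 10 2 (Pf.C 0 0x41018a) (Pf.B 10 1 (Pf.C 0 0x20c10a) (Pf.C 0 0x1204502)))))))
 (Pq.cons (Pq.L [0,1,2,3,4,5] 1023 (Pf.B 10 5 (Pf.C 1 0x409141c305) (Pf.B 10 4 (Pf.C 1 0x409141c304) (Pf.B 10 3 (Pf.C 0 0x61420a) (Pf.B 10 2 (Pf.C 0 0x41018a) (Pf.B 10 1 (Pf.C 0 0x20c10a) (Pf.B 10 0 (Pf.C 0 32906) (Pf.C 0 0x1200501))))))))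
 Pq.nil)))))))) (Pq.cons (Pq.D 3 (Pq.cons (Pq.D 4 (Pq.cons (Pq.L [0,2] 910 (Pf.C 1 0x5091008006))
 (Pq.cons (Pq.L [0,2] 910 (Pf.C 1 0x5091008006))
 (Pq.cons (Pq.L [0,2] 910 (Pf.C 1 0x5091008006))
 (Pq.cons (Pq.L [0,2] 910 (Pf.C 1 0x5091008006))
 (Pq.cons (Pq.L [0,4] 910 (Pf.C 1 0x5091010006))
 (Pq.cons (Pq.L [0,2] 910 (Pf.C 1 0x5091008006))
 (Pq.cons (Pq.L [2,4] 910 (Pf.C 1 0x5091010106))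
 Pq.nil)))))))) (Pq.cons (Pq.L [4,5] 1023 (Pf.B 10 4 (Pf.C 1 0x409141c304) (Pf.B 10 5 (Pf.C 1 0x284141c308) (Pf.C 0 0x1214504))))
 (Pq.cons (Pq.L [4,5] 1023 (Pf.B 10 5 (Pf.C 1 0x409141c305) (Pf.B 10 4 (Pf.C 1 0x205141c308) (Pf.C 0 0x1210505))))
 (Pq.cons (Pq.L [3,4,5] 1023 (Pf.B 10 5 (Pf.C 1 0x409141c305) (Pf.B 10 4 (Pf.C 1 0x409141c304) (Pf.B 10 3 (Pf.C 0 0x61420a) (Pf.C 0 0x120c504)))))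
 (Pq.cons (Pq.L [2,3,4,5] 1023 (Pf.B 10 5 (Pf.C 1 0x409141c305) (Pf.B 10 4 (Pf.C 1 0x409141c304) (Pf.B 10 3 (Pf.C 0 0x61420a) (Pf.B 10 2 (Pf.C 0 0x41018a) (Pf.C 0 0x1208503))))))
 (Pq.cons (Pq.L [1,2,3,4,5] 1023 (Pf.B 10 5 (Pf.C 1 0x409141c305) (Pf.B 10 4 (Pf.C 1 0x409141c304) (Pf.B 10 3 (Pf.C 0 0x61420a) (Pf.B 10 2 (Pf.C 0 0x41018a) (Pf.B 10 1 (Pf.C 0 0x20c10a) (Pf.C 0 0x102408a)))))))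
 (Pq.cons (Pq.L [0,1,2,3,4,5] 1023 (Pf.B 10 5 (Pf.C 1 0x409141c305) (Pf.B 10 4 (Pf.C 1 0x409141c304) (Pf.B 10 3 (Pf.C 0 0x61420a) (Pf.B 10 2 (Pf.C 0 0x41018a) (Pf.B 10 1 (Pf.C 0 0x20c10a) (Pf.B 10 0 (Pf.C 0 32906) (Pf.C 0 0x1200501))))))))
 Pq.nil)))))))) (Pq.cons (Pq.D 3 (Pq.cons (Pq.D 4 (Pq.cons (Pq.L [1,2] 910 (Pf.C 1 0x5091008086))
 (Pq.cons (Pq.L [1,2] 910 (Pf.C 1 0x5091008086))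
 (Pq.cons (Pq.L [1,2] 910 (Pf.C 1 0x5091008086))
 (Pq.cons (Pq.L [1,2] 910 (Pf.C 1 0x5091008086))
 (Pq.cons (Pq.L [1,4] 910 (Pf.C 1 0x5091010086))
 (Pq.cons (Pq.L [2,4] 910 (Pf.C 1 0x5091010106))
 (Pq.cons (Pq.L [1,2] 910 (Pf.C 1 0x5091008086))
 Pq.nil)))))))) (Pq.cons (Pq.L [4,5] 1023 (Pf.B 10 4 (Pf.C 1 0x409141c304) (Pf.B 10 5 (Pf.C 1 0x284141c308) (Pf.C 0 0x1214504))))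
 (Pq.cons (Pq.L [4,5] 1023 (Pf.B 10 5 (Pf.C 1 0x409141c305) (Pf.B 10 4 (Pf.C 1 0x205141c308) (Pf.C 0 0x1210505))))
 (Pq.cons (Pq.L [3,4,5] 1023 (Pf.B 10 5 (Pf.C 1 0x409141c305) (Pf.B 10 4 (Pf.C 1 0x409141c304) (Pf.B 10 3 (Pf.C 0 0x61420a) (Pf.C 0 0x120c504)))))
 (Pq.cons (Pq.L [2,3,4,5] 1023 (Pf.B 10 5 (Pf.C 1 0x409141c305) (Pf.B 10 4 (Pf.C 1 0x409141c304) (Pf.B 10 3 (Pf.C 0 0x61420a) (Pf.B 10 2 (Pf.C 0 0x41018a) (Pf.C 0 0x1208503))))))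
 (Pq.cons (Pq.L [1,2,3,4,5] 1023 (Pf.B 10 5 (Pf.C 1 0x409141c305) (Pf.B 10 4 (Pf.C 1 0x409141c304) (Pf.B 10 3 (Pf.C 0 0x61420a) (Pf.B 10 2 (Pf.C 0 0x41018a) (Pf.B 10 1 (Pf.C 0 0x20c10a) (Pf.C 0 0x1204502)))))))
 (Pq.cons (Pq.L [0,1,2,3,4,5] 1023 (Pf.B 10 5 (Pf.C 1 0x409141c305) (Pf.B 10 4 (Pf.C 1 0x409141c304) (Pf.B 10 3 (Pf.C 0 0x61420a) (Pf.B 10 2 (Pf.C 0 0x41018a) (Pf.B 10 1 (Pf.C 0 0x20c10a) (Pf.B 10 0 (Pf.C 0 32906) (Pf.C 0 0x102400a))))))))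
 Pq.nil)))))))) Pq.nil)))))))) (Pq.cons (Pq.D 2 (Pq.cons (Pq.D 3 (Pq.cons (Pq.D 4 (Pq.cons (Pq.L [0,1] 910 (Pf.C 1 0x5091004006))
 (Pq.cons (Pq.L [0,1] 910 (Pf.C 1 0x5091004006))
 (Pq.cons (Pq.L [0,1] 910 (Pf.C 1 0x5091004006))
 (Pq.cons (Pq.L [0,1] 910 (Pf.C 1 0x5091004006))
 (Pq.cons (Pq.L [0,1] 910 (Pf.C 1 0x5091004006))
 (Pq.cons (Pq.L [0,2] 910 (Pf.C 1 0x5091008006))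
 (Pq.cons (Pq.L [1,2] 910 (Pf.C 1 0x5091008086))
 Pq.nil)))))))) (Pq.cons (Pq.L [2,3,4,5] 1023 (Pf.B 10 4 (Pf.C 1 0x409141c304) (Pf.B 10 5 (Pf.B 10 3 (Pf.B 10 2 (Pf.C 1 0x409141c302) (Pf.C 0 0x61010a)) (Pf.C 0 0xa1018a)) (Pf.C 0 0x1214504))))
 (Pq.cons (Pq.L [2,4] 1023 (Pf.B 10 2 (Pf.C 1 0x409141c302) (Pf.B 10 4 (Pf.C 1 0x202141c308) (Pf.C 0 0x1210502))))
 (Pq.cons (Pq.L [2,3,4] 1023 (Pf.B 10 4 (Pf.C 1 0x409141c304) (Pf.B 10 3 (Pf.B 10 2 (Pf.C 1 0x409141c302) (Pf.C 0 0x61010a)) (Pf.C 0 0x120c504))))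
 (Pq.cons (Pq.L [2,4] 1023 (Pf.B 10 4 (Pf.C 1 0x409141c304) (Pf.B 10 2 (Pf.C 1 0x104141c308) (Pf.C 0 0x1208504))))
 (Pq.cons (Pq.L [1,2,3,4] 1023 (Pf.B 10 4 (Pf.C 1 0x409141c304) (Pf.B 10 2 (Pf.C 1 0x409141c302) (Pf.B 10 3 (Pf.C 0 0x61010a) (Pf.B 10 1 (Pf.C 0 0x20c10a) (Pf.C 0 0x1204502))))))
 (Pq.cons (Pq.L [0,1,2,3,4] 1023 (Pf.B 10 4 (Pf.C 1 0x409141c304) (Pf.B 10 2 (Pf.C 1 0x409141c302) (Pf.B 10 3 (Pf.C 0 0x61010a) (Pf.B 10 1 (Pf.C 0 0x20c10a) (Pf.B 10 0 (Pf.C 0 32906) (Pf.C 0 0x1200501)))))))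
 Pq.nil)))))))) (Pq.cons (Pq.D 3 (Pq.cons (Pq.D 4 (Pq.cons (Pq.L [0,1] 910 (Pf.C 1 0x5091004006))
 (Pq.cons (Pq.L [0,1] 910 (Pf.C 1 0x5091004006))
 (Pq.cons (Pq.L [0,1] 910 (Pf.C 1 0x5091004006))
 (Pq.cons (Pq.L [0,1] 910 (Pf.C 1 0x5091004006))
 (Pq.cons (Pq.L [0,1] 910 (Pf.C 1 0x5091004006))
 (Pq.cons (Pq.L [0,2] 910 (Pf.C 1 0x5091008006))
 (Pq.cons (Pq.L [1,2] 910 (Pf.C 1 0x5091008086))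
 Pq.nil)))))))) (Pq.cons (Pq.L [2,3,4,5] 1023 (Pf.B 10 5 (Pf.B 10 4 (Pf.C 1 0x409141c304) (Pf.B 10 3 (Pf.B 10 2 (Pf.C 1 0x409141c302) (Pf.C 0 0x61010a)) (Pf.C 0 0xa1018a))) (Pf.C 0 0x102428a)))
 (Pq.cons (Pq.L [2,4] 1023 (Pf.B 10 2 (Pf.C 1 0x409141c302) (Pf.B 10 4 (Pf.C 1 0x202141c308) (Pf.C 0 0x1210502))))
 (Pq.cons (Pq.L [2,3,4] 1023 (Pf.B 10 4 (Pf.C 1 0x409141c304) (Pf.B 10 3 (Pf.B 10 2 (Pf.C 1 0x409141c302) (Pf.C 0 0x61010a)) (Pf.C 0 0x120c504))))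
 (Pq.cons (Pq.L [2,4] 1023 (Pf.B 10 4 (Pf.C 1 0x409141c304) (Pf.B 10 2 (Pf.C 1 0x104141c308) (Pf.C 0 0x1208504))))
 (Pq.cons (Pq.L [1,2,3,4] 1023 (Pf.B 10 4 (Pf.C 1 0x409141c304) (Pf.B 10 2 (Pf.C 1 0x409141c302) (Pf.B 10 3 (Pf.C 0 0x61010a) (Pf.B 10 1 (Pf.C 0 0x20c10a) (Pf.C 0 0x1204502))))))
 (Pq.cons (Pq.L [0,1,2,3,4] 1023 (Pf.B 10 4 (Pf.C 1 0x409141c304) (Pf.B 10 2 (Pf.C 1 0x409141c302) (Pf.B 10 3 (Pf.C 0 0x61010a) (Pf.B 10 1 (Pf.C 0 0x20c10a) (Pf.B 10 0 (Pf.C 0 32906) (Pf.C 0 0x1200501)))))))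
 Pq.nil)))))))) (Pq.cons (Pq.D 3 (Pq.cons (Pq.D 4 (Pq.cons (Pq.L [0,1] 910 (Pf.C 1 0x5091004006))
 (Pq.cons (Pq.L [0,1] 910 (Pf.C 1 0x5091004006))
 (Pq.cons (Pq.L [0,1] 910 (Pf.C 1 0x5091004006))
 (Pq.cons (Pq.L [0,1] 910 (Pf.C 1 0x5091004006))
 (Pq.cons (Pq.L [0,1] 910 (Pf.C 1 0x5091004006))
 (Pq.cons (Pq.L [0,2] 910 (Pf.C 1 0x5091008006))
 (Pq.cons (Pq.L [1,2] 910 (Pf.C 1 0x5091008086))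
 Pq.nil)))))))) (Pq.cons (Pq.L [1,2,3,4,5] 1023 (Pf.B 10 2 (Pf.C 1 0x409141c302) (Pf.B 10 5 (Pf.B 10 4 (Pf.B 10 3 (Pf.B 10 1 (Pf.C 1 0x404021c30a) (Pf.C 0 0x60808a)) (Pf.C 0 0x80818a)) (Pf.C 0 0xa0820a)) (Pf.C 0 0x1214502))))
 (Pq.cons (Pq.L [1,2,3,4] 987 (Pf.B 10 4 (Pf.B 10 2 (Pf.C 1 0x404041c30a) (Pf.B 10 3 (Pf.B 10 1 (Pf.C 1 0x404021c30a) (Pf.C 0 0x60808a)) (Pf.C 0 0x80818a))) (Pf.C 0 0x102420a)))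
 (Pq.cons (Pq.L [1,2,3,4] 1023 (Pf.B 10 2 (Pf.C 1 0x409141c302) (Pf.B 10 3 (Pf.B 10 4 (Pf.B 10 1 (Pf.C 1 0x404021c30a) (Pf.C 0 0x60808a)) (Pf.C 0 0x60820a)) (Pf.C 0 0x120c502))))
 (Pq.cons (Pq.L [1,2] 1023 (Pf.B 10 1 (Pf.C 1 0x409141c301) (Pf.B 10 2 (Pf.C 1 0x101141c308) (Pf.C 0 0x1208501))))
 (Pq.cons (Pq.L [1,2] 1023 (Pf.B 10 2 (Pf.C 1 0x409141c302) (Pf.B 10 1 (Pf.C 1 0x82141c308) (Pf.C 0 0x1204502))))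
 (Pq.cons (Pq.L [0,1,2] 1023 (Pf.B 10 2 (Pf.C 1 0x409141c302) (Pf.B 10 1 (Pf.C 1 0x409141c301) (Pf.B 10 0 (Pf.C 0 32906) (Pf.C 0 0x1200501)))))
 Pq.nil)))))))) (Pq.cons (Pq.D 3 (Pq.cons (Pq.D 4 (Pq.cons (Pq.L [0,1] 910 (Pf.C 1 0x5091004006))
 (Pq.cons (Pq.L [0,1] 910 (Pf.C 1 0x5091004006))
 (Pq.cons (Pq.L [0,1] 910 (Pf.C 1 0x5091004006))
 (Pq.cons (Pq.L [0,1] 910 (Pf.C 1 0x5091004006))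
 (Pq.cons (Pq.L [0,1] 910 (Pf.C 1 0x5091004006))
 (Pq.cons (Pq.L [0,2] 910 (Pf.C 1 0x5091008006))
 (Pq.cons (Pq.L [1,2] 910 (Pf.C 1 0x5091008086))
 Pq.nil)))))))) (Pq.cons (Pq.L [2,3,4,5] 1023 (Pf.B 10 4 (Pf.C 1 0x409141c304) (Pf.B 10 5 (Pf.B 10 3 (Pf.B 10 2 (Pf.C 1 0x409141c302) (Pf.C 0 0x61010a)) (Pf.C 0 0xa1018a)) (Pf.C 0 0x1214504))))
 (Pq.cons (Pq.L [2,4] 1023 (Pf.B 10 2 (Pf.C 1 0x409141c302) (Pf.B 10 4 (Pf.C 1 0x202141c308) (Pf.C 0 0x1210502))))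
 (Pq.cons (Pq.L [2,3,4] 1023 (Pf.B 10 4 (Pf.C 1 0x409141c304) (Pf.B 10 3 (Pf.B 10 2 (Pf.C 1 0x409141c302) (Pf.C 0 0x61010a)) (Pf.C 0 0x102418a))))
 (Pq.cons (Pq.L [2,4] 1023 (Pf.B 10 4 (Pf.C 1 0x409141c304) (Pf.B 10 2 (Pf.C 1 0x104141c308) (Pf.C 0 0x1208504))))
 (Pq.cons (Pq.L [1,2,3,4] 1023 (Pf.B 10 4 (Pf.C 1 0x409141c304) (Pf.B 10 2 (Pf.C 1 0x409141c302) (Pf.B 10 3 (Pf.C 0 0x61010a) (Pf.B 10 1 (Pf.C 0 0x20c10a) (Pf.C 0 0x1204502))))))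
 (Pq.cons (Pq.L [0,1,2,3,4] 1023 (Pf.B 10 4 (Pf.C 1 0x409141c304) (Pf.B 10 2 (Pf.C 1 0x409141c302) (Pf.B 10 3 (Pf.C 0 0x61010a) (Pf.B 10 1 (Pf.C 0 0x20c10a) (Pf.B 10 0 (Pf.C 0 32906) (Pf.C 0 0x1200501)))))))
 Pq.nil)))))))) (Pq.cons (Pq.D 3 (Pq.cons (Pq.D 4 (Pq.cons (Pq.L [0,1] 910 (Pf.C 1 0x5091004006))
 (Pq.cons (Pq.L [0,1] 910 (Pf.C 1 0x5091004006))
 (Pq.cons (Pq.L [0,1] 910 (Pf.C 1 0x5091004006))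
 (Pq.cons (Pq.L [0,1] 910 (Pf.C 1 0x5091004006))
 (Pq.cons (Pq.L [0,1] 910 (Pf.C 1 0x5091004006))
 (Pq.cons (Pq.L [0,4] 910 (Pf.C 1 0x5091010006))
 (Pq.cons (Pq.L [1,4] 910 (Pf.C 1 0x5091010086))
 Pq.nil)))))))) (Pq.cons (Pq.L [1,2,3,4,5] 1023 (Pf.B 10 4 (Pf.C 1 0x409141c304) (Pf.B 10 5 (Pf.B 10 3 (Pf.B 10 2 (Pf.B 10 1 (Pf.C 1 0x402021c30a) (Pf.C 0 0x41008a)) (Pf.C 0 0x61010a)) (Pf.C 0 0xa1018a)) (Pf.C 0 0x1214504))))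
 (Pq.cons (Pq.L [1,4] 1023 (Pf.B 10 1 (Pf.C 1 0x409141c301) (Pf.B 10 4 (Pf.C 1 0x201141c308) (Pf.C 0 0x1210501))))
 (Pq.cons (Pq.L [1,2,3,4] 1023 (Pf.B 10 4 (Pf.C 1 0x409141c304) (Pf.B 10 3 (Pf.B 10 2 (Pf.B 10 1 (Pf.C 1 0x402021c30a) (Pf.C 0 0x41008a)) (Pf.C 0 0x61010a)) (Pf.C 0 0x120c504))))
 (Pq.cons (Pq.L [1,2,4] 1023 (Pf.B 10 4 (Pf.C 1 0x409141c304) (Pf.B 10 2 (Pf.B 10 1 (Pf.C 1 0x402021c30a) (Pf.C 0 0x41008a)) (Pf.C 0 0x102410a))))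
 (Pq.cons (Pq.L [1,4] 1023 (Pf.B 10 4 (Pf.C 1 0x409141c304) (Pf.B 10 1 (Pf.C 1 0x84141c308) (Pf.C 0 0x1204504))))
 (Pq.cons (Pq.L [0,1,2,3,4] 1023 (Pf.B 10 4 (Pf.C 1 0x409141c304) (Pf.B 10 1 (Pf.C 1 0x409141c301) (Pf.B 10 3 (Pf.C 0 0x61008a) (Pf.B 10 2 (Pf.C 0 0x40c08a) (Pf.B 10 0 (Pf.C 0 32906) (Pf.C 0 0x1200501)))))))
 Pq.nil)))))))) (Pq.cons (Pq.D 3 (Pq.cons (Pq.D 4 (Pq.cons (Pq.L [0,2] 910 (Pf.C 1 0x5091008006))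
 (Pq.cons (Pq.L [0,2] 910 (Pf.C 1 0x5091008006))
 (Pq.cons (Pq.L [0,2] 910 (Pf.C 1 0x5091008006))
 (Pq.cons (Pq.L [0,2] 910 (Pf.C 1 0x5091008006))
 (Pq.cons (Pq.L [0,4] 910 (Pf.C 1 0x5091010006))
 (Pq.cons (Pq.L [0,2] 910 (Pf.C 1 0x5091008006))
 (Pq.cons (Pq.L [2,4] 910 (Pf.C 1 0x5091010106))
 Pq.nil)))))))) (Pq.cons (Pq.L [2,3,4,5] 1023 (Pf.B 10 4 (Pf.C 1 0x409141c304) (Pf.B 10 5 (Pf.B 10 3 (Pf.B 10 2 (Pf.C 1 0x409141c302) (Pf.C 0 0x61010a)) (Pf.C 0 0xa1018a)) (Pf.C 0 0x1214504))))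
 (Pq.cons (Pq.L [2,4] 1023 (Pf.B 10 2 (Pf.C 1 0x409141c302) (Pf.B 10 4 (Pf.C 1 0x202141c308) (Pf.C 0 0x1210502))))
 (Pq.cons (Pq.L [2,3,4] 1023 (Pf.B 10 4 (Pf.C 1 0x409141c304) (Pf.B 10 3 (Pf.B 10 2 (Pf.C 1 0x409141c302) (Pf.C 0 0x61010a)) (Pf.C 0 0x120c504))))
 (Pq.cons (Pq.L [2,4] 1023 (Pf.B 10 4 (Pf.C 1 0x409141c304) (Pf.B 10 2 (Pf.C 1 0x104141c308) (Pf.C 0 0x1208504))))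
 (Pq.cons (Pq.L [1,2,3,4] 1023 (Pf.B 10 4 (Pf.C 1 0x409141c304) (Pf.B 10 2 (Pf.C 1 0x409141c302) (Pf.B 10 3 (Pf.C 0 0x61010a) (Pf.B 10 1 (Pf.C 0 0x20c10a) (Pf.C 0 0x102408a))))))
 (Pq.cons (Pq.L [0,1,2,3,4] 1023 (Pf.B 10 4 (Pf.C 1 0x409141c304) (Pf.B 10 2 (Pf.C 1 0x409141c302) (Pf.B 10 3 (Pf.C 0 0x61010a) (Pf.B 10 1 (Pf.C 0 0x20c10a) (Pf.B 10 0 (Pf.C 0 32906) (Pf.C 0 0x1200501)))))))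
 Pq.nil)))))))) (Pq.cons (Pq.D 3 (Pq.cons (Pq.D 4 (Pq.cons (Pq.L [1,2] 910 (Pf.C 1 0x5091008086))
 (Pq.cons (Pq.L [1,2] 910 (Pf.C 1 0x5091008086))
 (Pq.cons (Pq.L [1,2] 910 (Pf.C 1 0x5091008086))
 (Pq.cons (Pq.L [1,2] 910 (Pf.C 1 0x5091008086))
 (Pq.cons (Pq.L [1,4] 910 (Pf.C 1 0x5091010086))
 (Pq.cons (Pq.L [2,4] 910 (Pf.C 1 0x5091010106))
 (Pq.cons (Pq.L [1,2] 910 (Pf.C 1 0x5091008086))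
 Pq.nil)))))))) (Pq.cons (Pq.L [2,3,4,5] 1023 (Pf.B 10 4 (Pf.C 1 0x409141c304) (Pf.B 10 5 (Pf.B 10 3 (Pf.B 10 2 (Pf.C 1 0x409141c302) (Pf.C 0 0x61010a)) (Pf.C 0 0xa1018a)) (Pf.C 0 0x1214504))))
 (Pq.cons (Pq.L [2,4] 1023 (Pf.B 10 2 (Pf.C 1 0x409141c302) (Pf.B 10 4 (Pf.C 1 0x202141c308) (Pf.C 0 0x1210502))))
 (Pq.cons (Pq.L [2,3,4] 1023 (Pf.B 10 4 (Pf.C 1 0x409141c304) (Pf.B 10 3 (Pf.B 10 2 (Pf.C 1 0x409141c302) (Pf.C 0 0x61010a)) (Pf.C 0 0x120c504))))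
 (Pq.cons (Pq.L [2,4] 1023 (Pf.B 10 4 (Pf.C 1 0x409141c304) (Pf.B 10 2 (Pf.C 1 0x104141c308) (Pf.C 0 0x1208504))))
 (Pq.cons (Pq.L [1,2,3,4] 1023 (Pf.B 10 4 (Pf.C 1 0x409141c304) (Pf.B 10 2 (Pf.C 1 0x409141c302) (Pf.B 10 3 (Pf.C 0 0x61010a) (Pf.B 10 1 (Pf.C 0 0x20c10a) (Pf.C 0 0x1204502))))))
 (Pq.cons (Pq.L [0,1,2,3,4] 1023 (Pf.B 10 4 (Pf.C 1 0x409141c304) (Pf.B 10 2 (Pf.C 1 0x409141c302) (Pf.B 10 3 (Pf.C 0 0x61010a) (Pf.B 10 1 (Pf.C 0 0x20c10a) (Pf.B 10 0 (Pf.C 0 32906) (Pf.C 0 0x102400a)))))))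
 Pq.nil)))))))) Pq.nil)))))))) (Pq.cons (Pq.D 2 (Pq.cons (Pq.D 3 (Pq.cons (Pq.D 4 (Pq.cons (Pq.L [0,1] 910 (Pf.C 1 0x5091004006))
 (Pq.cons (Pq.L [0,1] 910 (Pf.C 1 0x5091004006))
 (Pq.cons (Pq.L [0,1] 910 (Pf.C 1 0x5091004006))
 (Pq.cons (Pq.L [0,1] 910 (Pf.C 1 0x5091004006))
 (Pq.cons (Pq.L [0,1] 910 (Pf.C 1 0x5091004006))
 (Pq.cons (Pq.L [0,2] 910 (Pf.C 1 0x5091008006))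
 (Pq.cons (Pq.L [1,2] 910 (Pf.C 1 0x5091008086))
 Pq.nil)))))))) (Pq.cons (Pq.L [2,5] 1023 (Pf.B 10 2 (Pf.C 1 0x409141c302) (Pf.B 10 5 (Pf.C 1 0x282141c308) (Pf.C 0 0x1214502))))
 (Pq.cons (Pq.L [2,3,4,5] 1023 (Pf.B 10 5 (Pf.C 1 0x409141c305) (Pf.B 10 4 (Pf.B 10 3 (Pf.B 10 2 (Pf.C 1 0x409141c302) (Pf.C 0 0x61410a)) (Pf.C 0 0x81418a)) (Pf.C 0 0x1210505))))
 (Pq.cons (Pq.L [2,3,5] 1023 (Pf.B 10 5 (Pf.C 1 0x409141c305) (Pf.B 10 3 (Pf.B 10 2 (Pf.C 1 0x409141c302) (Pf.C 0 0x61410a)) (Pf.C 0 0x120c505))))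
 (Pq.cons (Pq.L [2,5] 1023 (Pf.B 10 5 (Pf.C 1 0x409141c305) (Pf.B 10 2 (Pf.C 1 0x105141c308) (Pf.C 0 0x1208505))))
 (Pq.cons (Pq.L [1,2,3,4,5] 1023 (Pf.B 10 5 (Pf.C 1 0x409141c305) (Pf.B 10 2 (Pf.C 1 0x409141c302) (Pf.B 10 4 (Pf.C 0 0x81410a) (Pf.B 10 3 (Pf.C 0 0x61010a) (Pf.B 10 1 (Pf.C 0 0x20c10a) (Pf.C 0 0x1204502)))))))
 (Pq.cons (Pq.L [0,1,2,3,4,5] 1023 (Pf.B 10 5 (Pf.C 1 0x409141c305) (Pf.B 10 2 (Pf.C 1 0x409141c302) (Pf.B 10 4 (Pf.C 0 0x81410a) (Pf.B 10 3 (Pf.C 0 0x61010a) (Pf.B 10 1 (Pf.C 0 0x20c10a) (Pf.B 10 0 (Pf.C 0 32906) (Pf.C 0 0x1200501))))))))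
 Pq.nil)))))))) (Pq.cons (Pq.D 3 (Pq.cons (Pq.D 4 (Pq.cons (Pq.L [0,1] 910 (Pf.C 1 0x5091004006))
 (Pq.cons (Pq.L [0,1] 910 (Pf.C 1 0x5091004006))
 (Pq.cons (Pq.L [0,1] 910 (Pf.C 1 0x5091004006))
 (Pq.cons (Pq.L [0,1] 910 (Pf.C 1 0x5091004006))
 (Pq.cons (Pq.L [0,1] 910 (Pf.C 1 0x5091004006))
 (Pq.cons (Pq.L [0,2] 910 (Pf.C 1 0x5091008006))
 (Pq.cons (Pq.L [1,2] 910 (Pf.C 1 0x5091008086))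
 Pq.nil)))))))) (Pq.cons (Pq.L [1,2,3,4,5] 987 (Pf.B 10 5 (Pf.B 10 2 (Pf.C 1 0x405041c30a) (Pf.B 10 4 (Pf.B 10 3 (Pf.B 10 1 (Pf.C 1 0x405021c30a) (Pf.C 0 0x60808a)) (Pf.C 0 0x80818a)) (Pf.C 0 0xa0820a))) (Pf.C 0 0x102428a)))
 (Pq.cons (Pq.L [1,2,3,4,5] 1023 (Pf.B 10 2 (Pf.C 1 0x409141c302) (Pf.B 10 4 (Pf.B 10 5 (Pf.B 10 3 (Pf.B 10 1 (Pf.C 1 0x405021c30a) (Pf.C 0 0x60808a)) (Pf.C 0 0x80818a)) (Pf.C 0 0x80828a)) (Pf.C 0 0x1210502))))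
 (Pq.cons (Pq.L [1,2,3,5] 1023 (Pf.B 10 2 (Pf.C 1 0x409141c302) (Pf.B 10 3 (Pf.B 10 5 (Pf.B 10 1 (Pf.C 1 0x405021c30a) (Pf.C 0 0x60808a)) (Pf.C 0 0x60828a)) (Pf.C 0 0x120c502))))
 (Pq.cons (Pq.L [1,2] 1023 (Pf.B 10 1 (Pf.C 1 0x409141c301) (Pf.B 10 2 (Pf.C 1 0x101141c308) (Pf.C 0 0x1208501))))
 (Pq.cons (Pq.L [1,2] 1023 (Pf.B 10 2 (Pf.C 1 0x409141c302) (Pf.B 10 1 (Pf.C 1 0x82141c308) (Pf.C 0 0x1204502))))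
 (Pq.cons (Pq.L [0,1,2] 1023 (Pf.B 10 2 (Pf.C 1 0x409141c302) (Pf.B 10 1 (Pf.C 1 0x409141c301) (Pf.B 10 0 (Pf.C 0 32906) (Pf.C 0 0x1200501)))))
 Pq.nil)))))))) (Pq.cons (Pq.D 3 (Pq.cons (Pq.D 4 (Pq.cons (Pq.L [0,1] 910 (Pf.C 1 0x5091004006))
 (Pq.cons (Pq.L [0,1] 910 (Pf.C 1 0x5091004006))
 (Pq.cons (Pq.L [0,1] 910 (Pf.C 1 0x5091004006))
 (Pq.cons (Pq.L [0,1] 910 (Pf.C 1 0x5091004006))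
 (Pq.cons (Pq.L [0,1] 910 (Pf.C 1 0x5091004006))
 (Pq.cons (Pq.L [0,2] 910 (Pf.C 1 0x5091008006))
 (Pq.cons (Pq.L [1,2] 910 (Pf.C 1 0x5091008086))
 Pq.nil)))))))) (Pq.cons (Pq.L [2,5] 1023 (Pf.B 10 2 (Pf.C 1 0x409141c302) (Pf.B 10 5 (Pf.C 1 0x282141c308) (Pf.C 0 0x1214502))))
 (Pq.cons (Pq.L [2,3,4,5] 1023 (Pf.B 10 5 (Pf.C 1 0x409141c305) (Pf.B 10 4 (Pf.B 10 3 (Pf.B 10 2 (Pf.C 1 0x409141c302) (Pf.C 0 0x61410a)) (Pf.C 0 0x81418a)) (Pf.C 0 0x102420a))))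
 (Pq.cons (Pq.L [2,3,5] 1023 (Pf.B 10 5 (Pf.C 1 0x409141c305) (Pf.B 10 3 (Pf.B 10 2 (Pf.C 1 0x409141c302) (Pf.C 0 0x61410a)) (Pf.C 0 0x120c505))))
 (Pq.cons (Pq.L [2,5] 1023 (Pf.B 10 5 (Pf.C 1 0x409141c305) (Pf.B 10 2 (Pf.C 1 0x105141c308) (Pf.C 0 0x1208505))))
 (Pq.cons (Pq.L [1,2,3,4,5] 1023 (Pf.B 10 5 (Pf.C 1 0x409141c305) (Pf.B 10 2 (Pf.C 1 0x409141c302) (Pf.B 10 4 (Pf.C 0 0x81410a) (Pf.B 10 3 (Pf.C 0 0x61010a) (Pf.B 10 1 (Pf.C 0 0x20c10a) (Pf.C 0 0x1204502)))))))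
 (Pq.cons (Pq.L [0,1,2,3,4,5] 1023 (Pf.B 10 5 (Pf.C 1 0x409141c305) (Pf.B 10 2 (Pf.C 1 0x409141c302) (Pf.B 10 4 (Pf.C 0 0x81410a) (Pf.B 10 3 (Pf.C 0 0x61010a) (Pf.B 10 1 (Pf.C 0 0x20c10a) (Pf.B 10 0 (Pf.C 0 32906) (Pf.C 0 0x1200501))))))))
 Pq.nil)))))))) (Pq.cons (Pq.D 3 (Pq.cons (Pq.D 4 (Pq.cons (Pq.L [0,1] 910 (Pf.C 1 0x5091004006))
 (Pq.cons (Pq.L [0,1] 910 (Pf.C 1 0x5091004006))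
 (Pq.cons (Pq.L [0,1] 910 (Pf.C 1 0x5091004006))
 (Pq.cons (Pq.L [0,1] 910 (Pf.C 1 0x5091004006))
 (Pq.cons (Pq.L [0,1] 910 (Pf.C 1 0x5091004006))
 (Pq.cons (Pq.L [0,2] 910 (Pf.C 1 0x5091008006))
 (Pq.cons (Pq.L [1,2] 910 (Pf.C 1 0x5091008086))
 Pq.nil)))))))) (Pq.cons (Pq.L [2,5] 1023 (Pf.B 10 2 (Pf.C 1 0x409141c302) (Pf.B 10 5 (Pf.C 1 0x282141c308) (Pf.C 0 0x1214502))))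
 (Pq.cons (Pq.L [2,3,4,5] 1023 (Pf.B 10 5 (Pf.C 1 0x409141c305) (Pf.B 10 4 (Pf.B 10 3 (Pf.B 10 2 (Pf.C 1 0x409141c302) (Pf.C 0 0x61410a)) (Pf.C 0 0x81418a)) (Pf.C 0 0x1210505))))
 (Pq.cons (Pq.L [2,3,5] 1023 (Pf.B 10 5 (Pf.C 1 0x409141c305) (Pf.B 10 3 (Pf.B 10 2 (Pf.C 1 0x409141c302) (Pf.C 0 0x61410a)) (Pf.C 0 0x102418a))))
 (Pq.cons (Pq.L [2,5] 1023 (Pf.B 10 5 (Pf.C 1 0x409141c305) (Pf.B 10 2 (Pf.C 1 0x105141c308) (Pf.C 0 0x1208505))))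
 (Pq.cons (Pq.L [1,2,3,4,5] 1023 (Pf.B 10 5 (Pf.C 1 0x409141c305) (Pf.B 10 2 (Pf.C 1 0x409141c302) (Pf.B 10 4 (Pf.C 0 0x81410a) (Pf.B 10 3 (Pf.C 0 0x61010a) (Pf.B 10 1 (Pf.C 0 0x20c10a) (Pf.C 0 0x1204502)))))))
 (Pq.cons (Pq.L [0,1,2,3,4,5] 1023 (Pf.B 10 5 (Pf.C 1 0x409141c305) (Pf.B 10 2 (Pf.C 1 0x409141c302) (Pf.B 10 4 (Pf.C 0 0x81410a) (Pf.B 10 3 (Pf.C 0 0x61010a) (Pf.B 10 1 (Pf.C 0 0x20c10a) (Pf.B 10 0 (Pf.C 0 32906) (Pf.C 0 0x1200501))))))))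
 Pq.nil)))))))) (Pq.cons (Pq.D 3 (Pq.cons (Pq.D 4 (Pq.cons (Pq.L [0,1] 910 (Pf.C 1 0x5091004006))
 (Pq.cons (Pq.L [0,1] 910 (Pf.C 1 0x5091004006))
 (Pq.cons (Pq.L [0,1] 910 (Pf.C 1 0x5091004006))
 (Pq.cons (Pq.L [0,1] 910 (Pf.C 1 0x5091004006))
 (Pq.cons (Pq.L [0,1] 910 (Pf.C 1 0x5091004006))
 (Pq.cons (Pq.L [0,4] 910 (Pf.C 1 0x5091010006))
 (Pq.cons (Pq.L [1,4] 910 (Pf.C 1 0x5091010086))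
 Pq.nil)))))))) (Pq.cons (Pq.L [1,5] 1023 (Pf.B 10 1 (Pf.C 1 0x409141c301) (Pf.B 10 5 (Pf.C 1 0x281141c308) (Pf.C 0 0x1214501))))
 (Pq.cons (Pq.L [1,2,3,4,5] 1023 (Pf.B 10 5 (Pf.C 1 0x409141c305) (Pf.B 10 4 (Pf.B 10 3 (Pf.B 10 2 (Pf.B 10 1 (Pf.C 1 0x402021c30a) (Pf.C 0 0x41408a)) (Pf.C 0 0x61410a)) (Pf.C 0 0x81418a)) (Pf.C 0 0x1210505))))
 (Pq.cons (Pq.L [1,2,3,5] 1023 (Pf.B 10 5 (Pf.C 1 0x409141c305) (Pf.B 10 3 (Pf.B 10 2 (Pf.B 10 1 (Pf.C 1 0x402021c30a) (Pf.C 0 0x41408a)) (Pf.C 0 0x61410a)) (Pf.C 0 0x120c505))))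
 (Pq.cons (Pq.L [1,2,5] 1023 (Pf.B 10 5 (Pf.C 1 0x409141c305) (Pf.B 10 2 (Pf.B 10 1 (Pf.C 1 0x402021c30a) (Pf.C 0 0x41408a)) (Pf.C 0 0x102410a))))
 (Pq.cons (Pq.L [1,5] 1023 (Pf.B 10 5 (Pf.C 1 0x409141c305) (Pf.B 10 1 (Pf.C 1 0x85141c308) (Pf.C 0 0x1204505))))
 (Pq.cons (Pq.L [0,1,2,3,4,5] 1023 (Pf.B 10 5 (Pf.C 1 0x409141c305) (Pf.B 10 1 (Pf.C 1 0x409141c301) (Pf.B 10 4 (Pf.C 0 0x81408a) (Pf.B 10 3 (Pf.C 0 0x61008a) (Pf.B 10 2 (Pf.C 0 0x40c08a) (Pf.B 10 0 (Pf.C 0 32906) (Pf.C 0 0x1200501))))))))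
 Pq.nil)))))))) (Pq.cons (Pq.D 3 (Pq.cons (Pq.D 4 (Pq.cons (Pq.L [0,2] 910 (Pf.C 1 0x5091008006))
 (Pq.cons (Pq.L [0,2] 910 (Pf.C 1 0x5091008006))
 (Pq.cons (Pq.L [0,2] 910 (Pf.C 1 0x5091008006))
 (Pq.cons (Pq.L [0,2] 910 (Pf.C 1 0x5091008006))
 (Pq.cons (Pq.L [0,4] 910 (Pf.C 1 0x5091010006))
 (Pq.cons (Pq.L [0,2] 910 (Pf.C 1 0x5091008006))
 (Pq.cons (Pq.L [2,4] 910 (Pf.C 1 0x5091010106))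
 Pq.nil)))))))) (Pq.cons (Pq.L [2,5] 1023 (Pf.B 10 2 (Pf.C 1 0x409141c302) (Pf.B 10 5 (Pf.C 1 0x282141c308) (Pf.C 0 0x1214502))))
 (Pq.cons (Pq.L [2,3,4,5] 1023 (Pf.B 10 5 (Pf.C 1 0x409141c305) (Pf.B 10 4 (Pf.B 10 3 (Pf.B 10 2 (Pf.C 1 0x409141c302) (Pf.C 0 0x61410a)) (Pf.C 0 0x81418a)) (Pf.C 0 0x1210505))))
 (Pq.cons (Pq.L [2,3,5] 1023 (Pf.B 10 5 (Pf.C 1 0x409141c305) (Pf.B 10 3 (Pf.B 10 2 (Pf.C 1 0x409141c302) (Pf.C 0 0x61410a)) (Pf.C 0 0x120c505))))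
 (Pq.cons (Pq.L [2,5] 1023 (Pf.B 10 5 (Pf.C 1 0x409141c305) (Pf.B 10 2 (Pf.C 1 0x105141c308) (Pf.C 0 0x1208505))))
 (Pq.cons (Pq.L [1,2,3,4,5] 1023 (Pf.B 10 5 (Pf.C 1 0x409141c305) (Pf.B 10 2 (Pf.C 1 0x409141c302) (Pf.B 10 4 (Pf.C 0 0x81410a) (Pf.B 10 3 (Pf.C 0 0x61010a) (Pf.B 10 1 (Pf.C 0 0x20c10a) (Pf.C 0 0x102408a)))))))
 (Pq.cons (Pq.L [0,1,2,3,4,5] 1023 (Pf.B 10 5 (Pf.C 1 0x409141c305) (Pf.B 10 2 (Pf.C 1 0x409141c302) (Pf.B 10 4 (Pf.C 0 0x81410a) (Pf.B 10 3 (Pf.C 0 0x61010a) (Pf.B 10 1 (Pf.C 0 0x20c10a) (Pf.B 10 0 (Pf.C 0 32906) (Pf.C 0 0x1200501))))))))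
 Pq.nil)))))))) (Pq.cons (Pq.D 3 (Pq.cons (Pq.D 4 (Pq.cons (Pq.L [1,2] 910 (Pf.C 1 0x5091008086))
 (Pq.cons (Pq.L [1,2] 910 (Pf.C 1 0x5091008086))
 (Pq.cons (Pq.L [1,2] 910 (Pf.C 1 0x5091008086))
 (Pq.cons (Pq.L [1,2] 910 (Pf.C 1 0x5091008086))
 (Pq.cons (Pq.L [1,4] 910 (Pf.C 1 0x5091010086))
 (Pq.cons (Pq.L [2,4] 910 (Pf.C 1 0x5091010106))
 (Pq.cons (Pq.L [1,2] 910 (Pf.C 1 0x5091008086))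
 Pq.nil)))))))) (Pq.cons (Pq.L [2,5] 1023 (Pf.B 10 2 (Pf.C 1 0x409141c302) (Pf.B 10 5 (Pf.C 1 0x282141c308) (Pf.C 0 0x1214502))))
 (Pq.cons (Pq.L [2,3,4,5] 1023 (Pf.B 10 5 (Pf.C 1 0x409141c305) (Pf.B 10 4 (Pf.B 10 3 (Pf.B 10 2 (Pf.C 1 0x409141c302) (Pf.C 0 0x61410a)) (Pf.C 0 0x81418a)) (Pf.C 0 0x1210505))))
 (Pq.cons (Pq.L [2,3,5] 1023 (Pf.B 10 5 (Pf.C 1 0x409141c305) (Pf.B 10 3 (Pf.B 10 2 (Pf.C 1 0x409141c302) (Pf.C 0 0x61410a)) (Pf.C 0 0x120c505))))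
 (Pq.cons (Pq.L [2,5] 1023 (Pf.B 10 5 (Pf.C 1 0x409141c305) (Pf.B 10 2 (Pf.C 1 0x105141c308) (Pf.C 0 0x1208505))))
 (Pq.cons (Pq.L [1,2,3,4,5] 1023 (Pf.B 10 5 (Pf.C 1 0x409141c305) (Pf.B 10 2 (Pf.C 1 0x409141c302) (Pf.B 10 4 (Pf.C 0 0x81410a) (Pf.B 10 3 (Pf.C 0 0x61010a) (Pf.B 10 1 (Pf.C 0 0x20c10a) (Pf.C 0 0x1204502)))))))
 (Pq.cons (Pq.L [0,1,2,3,4,5] 1023 (Pf.B 10 5 (Pf.C 1 0x409141c305) (Pf.B 10 2 (Pf.C 1 0x409141c302) (Pf.B 10 4 (Pf.C 0 0x81410a) (Pf.B 10 3 (Pf.C 0 0x61010a) (Pf.B 10 1 (Pf.C 0 0x20c10a) (Pf.B 10 0 (Pf.C 0 32906) (Pf.C 0 0x102400a))))))))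
 Pq.nil)))))))) Pq.nil)))))))) Pq.nil)))
theorem e_o13 : AllRef e_T e_G4 (List.take 3 (List.flatMap (splitP 1) (List.take 1 (List.drop 3 (List.flatMap (splitP 0) [⟨[[5,6,7,8,9,10,11],[5,6,7,8,9,10,11],[5,6,7,8,9,10,11],[5,6,7,8,9,10,11],[5,6,7,8,9,10,11]],[⟨0,1,true⟩,⟨0,2,false⟩,⟨0,3,false⟩,⟨0,4,false⟩,⟨1,2,false⟩,⟨1,3,false⟩,⟨1,4,false⟩,⟨2,3,true⟩,⟨2,4,false⟩,⟨3,4,true⟩],[],[]⟩]))))) :=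
  chkPq_sound e_o13c _ (by decide +kernel)
noncomputable def e_o14c : Pq := (Pq.cons (Pq.D 2 (Pq.cons (Pq.D 3 (Pq.cons (Pq.D 4 (Pq.cons (Pq.L [0,1] 910 (Pf.C 1 0x5091004006))
 (Pq.cons (Pq.L [0,1] 910 (Pf.C 1 0x5091004006))
 (Pq.cons (Pq.L [0,1] 910 (Pf.C 1 0x5091004006))
 (Pq.cons (Pq.L [0,1] 910 (Pf.C 1 0x5091004006))
 (Pq.cons (Pq.L [0,1] 910 (Pf.C 1 0x5091004006))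
 (Pq.cons (Pq.L [0,2] 910 (Pf.C 1 0x5091008006))
 (Pq.cons (Pq.L [1,2] 910 (Pf.C 1 0x5091008086))
 Pq.nil)))))))) (Pq.cons (Pq.L [4,5] 1023 (Pf.B 10 4 (Pf.C 1 0x409141c304) (Pf.B 10 5 (Pf.C 1 0x284141c308) (Pf.C 0 0x1214504))))
 (Pq.cons (Pq.L [4,5] 1023 (Pf.B 10 5 (Pf.C 1 0x409141c305) (Pf.B 10 4 (Pf.C 1 0x205141c308) (Pf.C 0 0x1210505))))
 (Pq.cons (Pq.L [3,4,5] 1023 (Pf.B 10 5 (Pf.C 1 0x409141c305) (Pf.B 10 4 (Pf.C 1 0x409141c304) (Pf.B 10 3 (Pf.C 0 0x61420a) (Pf.C 0 0x120c504)))))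
 (Pq.cons (Pq.L [2,3,4,5] 1023 (Pf.B 10 5 (Pf.C 1 0x409141c305) (Pf.B 10 4 (Pf.C 1 0x409141c304) (Pf.B 10 3 (Pf.C 0 0x61420a) (Pf.B 10 2 (Pf.C 0 0x41018a) (Pf.C 0 0x1208503))))))
 (Pq.cons (Pq.L [1,2,3,4,5] 1023 (Pf.B 10 5 (Pf.C 1 0x409141c305) (Pf.B 10 4 (Pf.C 1 0x409141c304) (Pf.B 10 3 (Pf.C 0 0x61420a) (Pf.B 10 2 (Pf.C 0 0x41018a) (Pf.B 10 1 (Pf.C 0 0x20c10a) (Pf.C 0 0x1204502)))))))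
 (Pq.cons (Pq.L [0,1,2,3,4,5] 1023 (Pf.B 10 5 (Pf.C 1 0x409141c305) (Pf.B 10 4 (Pf.C 1 0x409141c304) (Pf.B 10 3 (Pf.C 0 0x61420a) (Pf.B 10 2 (Pf.C 0 0x41018a) (Pf.B 10 1 (Pf.C 0 0x20c10a) (Pf.B 10 0 (Pf.C 0 32906) (Pf.C 0 0x1200501))))))))
 Pq.nil)))))))) (Pq.cons (Pq.D 3 (Pq.cons (Pq.D 4 (Pq.cons (Pq.L [0,1] 910 (Pf.C 1 0x5091004006))
 (Pq.cons (Pq.L [0,1] 910 (Pf.C 1 0x5091004006))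
 (Pq.cons (Pq.L [0,1] 910 (Pf.C 1 0x5091004006))
 (Pq.cons (Pq.L [0,1] 910 (Pf.C 1 0x5091004006))
 (Pq.cons (Pq.L [0,1] 910 (Pf.C 1 0x5091004006))
 (Pq.cons (Pq.L [0,2] 910 (Pf.C 1 0x5091008006))
 (Pq.cons (Pq.L [1,2] 910 (Pf.C 1 0x5091008086))
 Pq.nil)))))))) (Pq.cons (Pq.L [2,3,4,5] 987 (Pf.B 10 5 (Pf.B 10 4 (Pf.C 1 0x405081c30a) (Pf.B 10 3 (Pf.B 10 2 (Pf.C 1 0x405041c30a) (Pf.C 0 0x61010a)) (Pf.C 0 0xa1018a))) (Pf.C 0 0x102428a)))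
 (Pq.cons (Pq.L [2,4] 1023 (Pf.B 10 2 (Pf.C 1 0x409141c302) (Pf.B 10 4 (Pf.C 1 0x202141c308) (Pf.C 0 0x1210502))))
 (Pq.cons (Pq.L [2,3,4,5] 1023 (Pf.B 10 4 (Pf.C 1 0x409141c304) (Pf.B 10 3 (Pf.B 10 5 (Pf.B 10 2 (Pf.C 1 0x405041c30a) (Pf.C 0 0x61010a)) (Pf.C 0 0x61028a)) (Pf.C 0 0x120c504))))
 (Pq.cons (Pq.L [2,4] 1023 (Pf.B 10 4 (Pf.C 1 0x409141c304) (Pf.B 10 2 (Pf.C 1 0x104141c308) (Pf.C 0 0x1208504))))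
 (Pq.cons (Pq.L [1,2,3,4] 1023 (Pf.B 10 4 (Pf.C 1 0x409141c304) (Pf.B 10 2 (Pf.C 1 0x409141c302) (Pf.B 10 3 (Pf.C 0 0x61010a) (Pf.B 10 1 (Pf.C 0 0x20c10a) (Pf.C 0 0x1204502))))))
 (Pq.cons (Pq.L [0,1,2,3,4] 1023 (Pf.B 10 4 (Pf.C 1 0x409141c304) (Pf.B 10 2 (Pf.C 1 0x409141c302) (Pf.B 10 3 (Pf.C 0 0x61010a) (Pf.B 10 1 (Pf.C 0 0x20c10a) (Pf.B 10 0 (Pf.C 0 32906) (Pf.C 0 0x1200501)))))))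
 Pq.nil)))))))) (Pq.cons (Pq.D 3 (Pq.cons (Pq.D 4 (Pq.cons (Pq.L [0,1] 910 (Pf.C 1 0x5091004006))
 (Pq.cons (Pq.L [0,1] 910 (Pf.C 1 0x5091004006))
 (Pq.cons (Pq.L [0,1] 910 (Pf.C 1 0x5091004006))
 (Pq.cons (Pq.L [0,1] 910 (Pf.C 1 0x5091004006))
 (Pq.cons (Pq.L [0,1] 910 (Pf.C 1 0x5091004006))
 (Pq.cons (Pq.L [0,2] 910 (Pf.C 1 0x5091008006))
 (Pq.cons (Pq.L [1,2] 910 (Pf.C 1 0x5091008086))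
 Pq.nil)))))))) (Pq.cons (Pq.L [2,5] 1023 (Pf.B 10 2 (Pf.C 1 0x409141c302) (Pf.B 10 5 (Pf.C 1 0x282141c308) (Pf.C 0 0x1214502))))
 (Pq.cons (Pq.L [2,3,4,5] 1023 (Pf.B 10 5 (Pf.C 1 0x409141c305) (Pf.B 10 4 (Pf.B 10 3 (Pf.B 10 2 (Pf.C 1 0x404041c30a) (Pf.C 0 0x61410a)) (Pf.C 0 0x81418a)) (Pf.C 0 0x102420a))))
 (Pq.cons (Pq.L [2,3,4,5] 1023 (Pf.B 10 5 (Pf.C 1 0x409141c305) (Pf.B 10 3 (Pf.B 10 4 (Pf.B 10 2 (Pf.C 1 0x404041c30a) (Pf.C 0 0x61410a)) (Pf.C 0 0x61420a)) (Pf.C 0 0x120c505))))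
 (Pq.cons (Pq.L [2,5] 1023 (Pf.B 10 5 (Pf.C 1 0x409141c305) (Pf.B 10 2 (Pf.C 1 0x105141c308) (Pf.C 0 0x1208505))))
 (Pq.cons (Pq.L [1,2,3,4,5] 1023 (Pf.B 10 5 (Pf.C 1 0x409141c305) (Pf.B 10 2 (Pf.C 1 0x409141c302) (Pf.B 10 4 (Pf.C 0 0x81410a) (Pf.B 10 3 (Pf.C 0 0x61010a) (Pf.B 10 1 (Pf.C 0 0x20c10a) (Pf.C 0 0x1204502)))))))
 (Pq.cons (Pq.L [0,1,2,3,4,5] 1023 (Pf.B 10 5 (Pf.C 1 0x409141c305) (Pf.B 10 2 (Pf.C 1 0x409141c302) (Pf.B 10 4 (Pf.C 0 0x81410a) (Pf.B 10 3 (Pf.C 0 0x61010a) (Pf.B 10 1 (Pf.C 0 0x20c10a) (Pf.B 10 0 (Pf.C 0 32906) (Pf.C 0 0x1200501))))))))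
 Pq.nil)))))))) (Pq.cons (Pq.D 3 (Pq.cons (Pq.D 4 (Pq.cons (Pq.L [0,1] 910 (Pf.C 1 0x5091004006))
 (Pq.cons (Pq.L [0,1] 910 (Pf.C 1 0x5091004006))
 (Pq.cons (Pq.L [0,1] 910 (Pf.C 1 0x5091004006))
 (Pq.cons (Pq.L [0,1] 910 (Pf.C 1 0x5091004006))
 (Pq.cons (Pq.L [0,1] 910 (Pf.C 1 0x5091004006))
 (Pq.cons (Pq.L [0,2] 910 (Pf.C 1 0x5091008006))
 (Pq.cons (Pq.L [1,2] 910 (Pf.C 1 0x5091008086))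
 Pq.nil)))))))) (Pq.cons (Pq.L [4,5] 1023 (Pf.B 10 4 (Pf.C 1 0x409141c304) (Pf.B 10 5 (Pf.C 1 0x284141c308) (Pf.C 0 0x1214504))))
 (Pq.cons (Pq.L [4,5] 1023 (Pf.B 10 5 (Pf.C 1 0x409141c305) (Pf.B 10 4 (Pf.C 1 0x205141c308) (Pf.C 0 0x1210505))))
 (Pq.cons (Pq.L [3,4,5] 1023 (Pf.B 10 5 (Pf.C 1 0x409141c305) (Pf.B 10 4 (Pf.C 1 0x409141c304) (Pf.B 10 3 (Pf.C 0 0x61420a) (Pf.C 0 0x102418a)))))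
 (Pq.cons (Pq.L [2,3,4,5] 1023 (Pf.B 10 5 (Pf.C 1 0x409141c305) (Pf.B 10 4 (Pf.C 1 0x409141c304) (Pf.B 10 3 (Pf.C 0 0x61420a) (Pf.B 10 2 (Pf.C 0 0x41018a) (Pf.C 0 0x1208503))))))
 (Pq.cons (Pq.L [1,2,3,4,5] 1023 (Pf.B 10 5 (Pf.C 1 0x409141c305) (Pf.B 10 4 (Pf.C 1 0x409141c304) (Pf.B 10 3 (Pf.C 0 0x61420a) (Pf.B 10 2 (Pf.C 0 0x41018a) (Pf.B 10 1 (Pf.C 0 0x20c10a) (Pf.C 0 0x1204502)))))))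
 (Pq.cons (Pq.L [0,1,2,3,4,5] 1023 (Pf.B 10 5 (Pf.C 1 0x409141c305) (Pf.B 10 4 (Pf.C 1 0x409141c304) (Pf.B 10 3 (Pf.C 0 0x61420a) (Pf.B 10 2 (Pf.C 0 0x41018a) (Pf.B 10 1 (Pf.C 0 0x20c10a) (Pf.B 10 0 (Pf.C 0 32906) (Pf.C 0 0x1200501))))))))
 Pq.nil)))))))) (Pq.cons (Pq.D 3 (Pq.cons (Pq.D 4 (Pq.cons (Pq.L [0,1] 910 (Pf.C 1 0x5091004006))
 (Pq.cons (Pq.L [0,1] 910 (Pf.C 1 0x5091004006))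
 (Pq.cons (Pq.L [0,1] 910 (Pf.C 1 0x5091004006))
 (Pq.cons (Pq.L [0,1] 910 (Pf.C 1 0x5091004006))
 (Pq.cons (Pq.L [0,1] 910 (Pf.C 1 0x5091004006))
 (Pq.cons (Pq.L [0,4] 910 (Pf.C 1 0x5091010006))
 (Pq.cons (Pq.L [1,4] 910 (Pf.C 1 0x5091010086))
 Pq.nil)))))))) (Pq.cons (Pq.L [4,5] 1023 (Pf.B 10 4 (Pf.C 1 0x409141c304) (Pf.B 10 5 (Pf.C 1 0x284141c308) (Pf.C 0 0x1214504))))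
 (Pq.cons (Pq.L [4,5] 1023 (Pf.B 10 5 (Pf.C 1 0x409141c305) (Pf.B 10 4 (Pf.C 1 0x205141c308) (Pf.C 0 0x1210505))))
 (Pq.cons (Pq.L [3,4,5] 1023 (Pf.B 10 5 (Pf.C 1 0x409141c305) (Pf.B 10 4 (Pf.C 1 0x409141c304) (Pf.B 10 3 (Pf.C 0 0x61420a) (Pf.C 0 0x120c504)))))
 (Pq.cons (Pq.L [2,3,4,5] 1023 (Pf.B 10 5 (Pf.C 1 0x409141c305) (Pf.B 10 4 (Pf.C 1 0x409141c304) (Pf.B 10 3 (Pf.C 0 0x61420a) (Pf.B 10 2 (Pf.C 0 0x41018a) (Pf.C 0 0x102410a))))))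
 (Pq.cons (Pq.L [1,2,3,4,5] 1023 (Pf.B 10 5 (Pf.C 1 0x409141c305) (Pf.B 10 4 (Pf.C 1 0x409141c304) (Pf.B 10 3 (Pf.C 0 0x61420a) (Pf.B 10 2 (Pf.C 0 0x41018a) (Pf.B 10 1 (Pf.C 0 0x20c10a) (Pf.C 0 0x1204502)))))))
 (Pq.cons (Pq.L [0,1,2,3,4,5] 1023 (Pf.B 10 5 (Pf.C 1 0x409141c305) (Pf.B 10 4 (Pf.C 1 0x409141c304) (Pf.B 10 3 (Pf.C 0 0x61420a) (Pf.B 10 2 (Pf.C 0 0x41018a) (Pf.B 10 1 (Pf.C 0 0x20c10a) (Pf.B 10 0 (Pf.C 0 32906) (Pf.C 0 0x1200501))))))))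
 Pq.nil)))))))) (Pq.cons (Pq.D 3 (Pq.cons (Pq.D 4 (Pq.cons (Pq.L [0,2] 910 (Pf.C 1 0x5091008006))
 (Pq.cons (Pq.L [0,2] 910 (Pf.C 1 0x5091008006))
 (Pq.cons (Pq.L [0,2] 910 (Pf.C 1 0x5091008006))
 (Pq.cons (Pq.L [0,2] 910 (Pf.C 1 0x5091008006))
 (Pq.cons (Pq.L [0,4] 910 (Pf.C 1 0x5091010006))
 (Pq.cons (Pq.L [0,2] 910 (Pf.C 1 0x5091008006))
 (Pq.cons (Pq.L [2,4] 910 (Pf.C 1 0x5091010106))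
 Pq.nil)))))))) (Pq.cons (Pq.L [4,5] 1023 (Pf.B 10 4 (Pf.C 1 0x409141c304) (Pf.B 10 5 (Pf.C 1 0x284141c308) (Pf.C 0 0x1214504))))
 (Pq.cons (Pq.L [4,5] 1023 (Pf.B 10 5 (Pf.C 1 0x409141c305) (Pf.B 10 4 (Pf.C 1 0x205141c308) (Pf.C 0 0x1210505))))
 (Pq.cons (Pq.L [3,4,5] 1023 (Pf.B 10 5 (Pf.C 1 0x409141c305) (Pf.B 10 4 (Pf.C 1 0x409141c304) (Pf.B 10 3 (Pf.C 0 0x61420a) (Pf.C 0 0x120c504)))))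
 (Pq.cons (Pq.L [2,3,4,5] 1023 (Pf.B 10 5 (Pf.C 1 0x409141c305) (Pf.B 10 4 (Pf.C 1 0x409141c304) (Pf.B 10 3 (Pf.C 0 0x61420a) (Pf.B 10 2 (Pf.C 0 0x41018a) (Pf.C 0 0x1208503))))))
 (Pq.cons (Pq.L [1,2,3,4,5] 1023 (Pf.B 10 5 (Pf.C 1 0x409141c305) (Pf.B 10 4 (Pf.C 1 0x409141c304) (Pf.B 10 3 (Pf.C 0 0x61420a) (Pf.B 10 2 (Pf.C 0 0x41018a) (Pf.B 10 1 (Pf.C 0 0x20c10a) (Pf.C 0 0x102408a)))))))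
 (Pq.cons (Pq.L [0,1,2,3,4,5] 1023 (Pf.B 10 5 (Pf.C 1 0x409141c305) (Pf.B 10 4 (Pf.C 1 0x409141c304) (Pf.B 10 3 (Pf.C 0 0x61420a) (Pf.B 10 2 (Pf.C 0 0x41018a) (Pf.B 10 1 (Pf.C 0 0x20c10a) (Pf.B 10 0 (Pf.C 0 32906) (Pf.C 0 0x1200501))))))))
 Pq.nil)))))))) (Pq.cons (Pq.D 3 (Pq.cons (Pq.D 4 (Pq.cons (Pq.L [1,2] 910 (Pf.C 1 0x5091008086))
 (Pq.cons (Pq.L [1,2] 910 (Pf.C 1 0x5091008086))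
 (Pq.cons (Pq.L [1,2] 910 (Pf.C 1 0x5091008086))
 (Pq.cons (Pq.L [1,2] 910 (Pf.C 1 0x5091008086))
 (Pq.cons (Pq.L [1,4] 910 (Pf.C 1 0x5091010086))
 (Pq.cons (Pq.L [2,4] 910 (Pf.C 1 0x5091010106))
 (Pq.cons (Pq.L [1,2] 910 (Pf.C 1 0x5091008086))
 Pq.nil)))))))) (Pq.cons (Pq.L [4,5] 1023 (Pf.B 10 4 (Pf.C 1 0x409141c304) (Pf.B 10 5 (Pf.C 1 0x284141c308) (Pf.C 0 0x1214504))))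
 (Pq.cons (Pq.L [4,5] 1023 (Pf.B 10 5 (Pf.C 1 0x409141c305) (Pf.B 10 4 (Pf.C 1 0x205141c308) (Pf.C 0 0x1210505))))
 (Pq.cons (Pq.L [3,4,5] 1023 (Pf.B 10 5 (Pf.C 1 0x409141c305) (Pf.B 10 4 (Pf.C 1 0x409141c304) (Pf.B 10 3 (Pf.C 0 0x61420a) (Pf.C 0 0x120c504)))))
 (Pq.cons (Pq.L [2,3,4,5] 1023 (Pf.B 10 5 (Pf.C 1 0x409141c305) (Pf.B 10 4 (Pf.C 1 0x409141c304) (Pf.B 10 3 (Pf.C 0 0x61420a) (Pf.B 10 2 (Pf.C 0 0x41018a) (Pf.C 0 0x1208503))))))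
 (Pq.cons (Pq.L [1,2,3,4,5] 1023 (Pf.B 10 5 (Pf.C 1 0x409141c305) (Pf.B 10 4 (Pf.C 1 0x409141c304) (Pf.B 10 3 (Pf.C 0 0x61420a) (Pf.B 10 2 (Pf.C 0 0x41018a) (Pf.B 10 1 (Pf.C 0 0x20c10a) (Pf.C 0 0x1204502)))))))
 (Pq.cons (Pq.L [0,1,2,3,4,5] 1023 (Pf.B 10 5 (Pf.C 1 0x409141c305) (Pf.B 10 4 (Pf.C 1 0x409141c304) (Pf.B 10 3 (Pf.C 0 0x61420a) (Pf.B 10 2 (Pf.C 0 0x41018a) (Pf.B 10 1 (Pf.C 0 0x20c10a) (Pf.B 10 0 (Pf.C 0 32906) (Pf.C 0 0x102400a))))))))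
 Pq.nil)))))))) Pq.nil)))))))) Pq.nil)
theorem e_o14 : AllRef e_T e_G4 (List.take 1 (List.drop 3 (List.flatMap (splitP 1) (List.take 1 (List.drop 3 (List.flatMap (splitP 0) [⟨[[5,6,7,8,9,10,11],[5,6,7,8,9,10,11],[5,6,7,8,9,10,11],[5,6,7,8,9,10,11],[5,6,7,8,9,10,11]],[⟨0,1,true⟩,⟨0,2,false⟩,⟨0,3,false⟩,⟨0,4,false⟩,⟨1,2,false⟩,⟨1,3,false⟩,⟨1,4,false⟩,⟨2,3,true⟩,⟨2,4,false⟩,⟨3,4,true⟩],[],[]⟩])))))) :=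
  chkPq_sound e_o14c _ (by decide +kernel)
noncomputable def e_o15c : Pq := (Pq.cons (Pq.D 2 (Pq.cons (Pq.D 3 (Pq.cons (Pq.D 4 (Pq.cons (Pq.L [0,1] 910 (Pf.C 1 0x5091004006))
 (Pq.cons (Pq.L [0,1] 910 (Pf.C 1 0x5091004006))
 (Pq.cons (Pq.L [0,1] 910 (Pf.C 1 0x5091004006))
 (Pq.cons (Pq.L [0,1] 910 (Pf.C 1 0x5091004006))
 (Pq.cons (Pq.L [0,1] 910 (Pf.C 1 0x5091004006))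
 (Pq.cons (Pq.L [0,2] 910 (Pf.C 1 0x5091008006))
 (Pq.cons (Pq.L [1,2] 910 (Pf.C 1 0x5091008086))
 Pq.nil)))))))) (Pq.cons (Pq.L [4,5] 1023 (Pf.B 10 4 (Pf.C 1 0x409141c304) (Pf.B 10 5 (Pf.C 1 0x284141c308) (Pf.C 0 0x1214504))))
 (Pq.cons (Pq.L [4,5] 1023 (Pf.B 10 5 (Pf.C 1 0x409141c305) (Pf.B 10 4 (Pf.C 1 0x205141c308) (Pf.C 0 0x1210505))))
 (Pq.cons (Pq.L [3,4,5] 1023 (Pf.B 10 5 (Pf.C 1 0x409141c305) (Pf.B 10 4 (Pf.C 1 0x409141c304) (Pf.B 10 3 (Pf.C 0 0x61420a) (Pf.C 0 0x120c504)))))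
 (Pq.cons (Pq.L [2,3,4,5] 1023 (Pf.B 10 5 (Pf.C 1 0x409141c305) (Pf.B 10 4 (Pf.C 1 0x409141c304) (Pf.B 10 3 (Pf.C 0 0x61420a) (Pf.B 10 2 (Pf.C 0 0x41018a) (Pf.C 0 0x1208503))))))
 (Pq.cons (Pq.L [1,2,3,4,5] 1023 (Pf.B 10 5 (Pf.C 1 0x409141c305) (Pf.B 10 4 (Pf.C 1 0x409141c304) (Pf.B 10 3 (Pf.C 0 0x61420a) (Pf.B 10 2 (Pf.C 0 0x41018a) (Pf.B 10 1 (Pf.C 0 0x20c10a) (Pf.C 0 0x1204502)))))))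
 (Pq.cons (Pq.L [0,1,2,3,4,5] 1023 (Pf.B 10 5 (Pf.C 1 0x409141c305) (Pf.B 10 4 (Pf.C 1 0x409141c304) (Pf.B 10 3 (Pf.C 0 0x61420a) (Pf.B 10 2 (Pf.C 0 0x41018a) (Pf.B 10 1 (Pf.C 0 0x20c10a) (Pf.B 10 0 (Pf.C 0 32906) (Pf.C 0 0x1200501))))))))
 Pq.nil)))))))) (Pq.cons (Pq.D 3 (Pq.cons (Pq.D 4 (Pq.cons (Pq.L [0,1] 910 (Pf.C 1 0x5091004006))
 (Pq.cons (Pq.L [0,1] 910 (Pf.C 1 0x5091004006))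
 (Pq.cons (Pq.L [0,1] 910 (Pf.C 1 0x5091004006))
 (Pq.cons (Pq.L [0,1] 910 (Pf.C 1 0x5091004006))
 (Pq.cons (Pq.L [0,1] 910 (Pf.C 1 0x5091004006))
 (Pq.cons (Pq.L [0,2] 910 (Pf.C 1 0x5091008006))
 (Pq.cons (Pq.L [1,2] 910 (Pf.C 1 0x5091008086))
 Pq.nil)))))))) (Pq.cons (Pq.L [1,2,3,4,5] 987 (Pf.B 10 5 (Pf.B 10 4 (Pf.C 1 0x405081c30a) (Pf.B 10 3 (Pf.B 10 2 (Pf.B 10 1 (Pf.C 1 0x405021c30a) (Pf.C 0 0x41008a)) (Pf.C 0 0x61010a)) (Pf.C 0 0xa1018a))) (Pf.C 0 0x102428a)))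
 (Pq.cons (Pq.L [1,4] 1023 (Pf.B 10 1 (Pf.C 1 0x409141c301) (Pf.B 10 4 (Pf.C 1 0x201141c308) (Pf.C 0 0x1210501))))
 (Pq.cons (Pq.L [1,2,3,4,5] 1023 (Pf.B 10 4 (Pf.C 1 0x409141c304) (Pf.B 10 3 (Pf.B 10 5 (Pf.B 10 2 (Pf.B 10 1 (Pf.C 1 0x405021c30a) (Pf.C 0 0x41008a)) (Pf.C 0 0x61010a)) (Pf.C 0 0x61028a)) (Pf.C 0 0x120c504))))
 (Pq.cons (Pq.L [1,2,4,5] 1023 (Pf.B 10 4 (Pf.C 1 0x409141c304) (Pf.B 10 2 (Pf.B 10 5 (Pf.B 10 1 (Pf.C 1 0x405021c30a) (Pf.C 0 0x41008a)) (Pf.C 0 0x41028a)) (Pf.C 0 0x1208504))))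
 (Pq.cons (Pq.L [1,4] 1023 (Pf.B 10 4 (Pf.C 1 0x409141c304) (Pf.B 10 1 (Pf.C 1 0x84141c308) (Pf.C 0 0x1204504))))
 (Pq.cons (Pq.L [0,1,2,3,4] 1023 (Pf.B 10 4 (Pf.C 1 0x409141c304) (Pf.B 10 1 (Pf.C 1 0x409141c301) (Pf.B 10 3 (Pf.C 0 0x61008a) (Pf.B 10 2 (Pf.C 0 0x40c08a) (Pf.B 10 0 (Pf.C 0 32906) (Pf.C 0 0x1200501)))))))
 Pq.nil)))))))) (Pq.cons (Pq.D 3 (Pq.cons (Pq.D 4 (Pq.cons (Pq.L [0,1] 910 (Pf.C 1 0x5091004006))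
 (Pq.cons (Pq.L [0,1] 910 (Pf.C 1 0x5091004006))
 (Pq.cons (Pq.L [0,1] 910 (Pf.C 1 0x5091004006))
 (Pq.cons (Pq.L [0,1] 910 (Pf.C 1 0x5091004006))
 (Pq.cons (Pq.L [0,1] 910 (Pf.C 1 0x5091004006))
 (Pq.cons (Pq.L [0,2] 910 (Pf.C 1 0x5091008006))
 (Pq.cons (Pq.L [1,2] 910 (Pf.C 1 0x5091008086))
 Pq.nil)))))))) (Pq.cons (Pq.L [1,5] 1023 (Pf.B 10 1 (Pf.C 1 0x409141c301) (Pf.B 10 5 (Pf.C 1 0x281141c308) (Pf.C 0 0x1214501))))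
 (Pq.cons (Pq.L [1,2,3,4,5] 1023 (Pf.B 10 5 (Pf.C 1 0x409141c305) (Pf.B 10 4 (Pf.B 10 3 (Pf.B 10 2 (Pf.B 10 1 (Pf.C 1 0x404021c30a) (Pf.C 0 0x41408a)) (Pf.C 0 0x61410a)) (Pf.C 0 0x81418a)) (Pf.C 0 0x102420a))))
 (Pq.cons (Pq.L [1,2,3,4,5] 1023 (Pf.B 10 5 (Pf.C 1 0x409141c305) (Pf.B 10 3 (Pf.B 10 4 (Pf.B 10 2 (Pf.B 10 1 (Pf.C 1 0x404021c30a) (Pf.C 0 0x41408a)) (Pf.C 0 0x61410a)) (Pf.C 0 0x61420a)) (Pf.C 0 0x120c505))))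
 (Pq.cons (Pq.L [1,2,4,5] 1023 (Pf.B 10 5 (Pf.C 1 0x409141c305) (Pf.B 10 2 (Pf.B 10 4 (Pf.B 10 1 (Pf.C 1 0x404021c30a) (Pf.C 0 0x41408a)) (Pf.C 0 0x41420a)) (Pf.C 0 0x1208505))))
 (Pq.cons (Pq.L [1,5] 1023 (Pf.B 10 5 (Pf.C 1 0x409141c305) (Pf.B 10 1 (Pf.C 1 0x85141c308) (Pf.C 0 0x1204505))))
 (Pq.cons (Pq.L [0,1,2,3,4,5] 1023 (Pf.B 10 5 (Pf.C 1 0x409141c305) (Pf.B 10 1 (Pf.C 1 0x409141c301) (Pf.B 10 4 (Pf.C 0 0x81408a) (Pf.B 10 3 (Pf.C 0 0x61008a) (Pf.B 10 2 (Pf.C 0 0x40c08a) (Pf.B 10 0 (Pf.C 0 32906) (Pf.C 0 0x1200501))))))))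
 Pq.nil)))))))) (Pq.cons (Pq.D 3 (Pq.cons (Pq.D 4 (Pq.cons (Pq.L [0,1] 910 (Pf.C 1 0x5091004006))
 (Pq.cons (Pq.L [0,1] 910 (Pf.C 1 0x5091004006))
 (Pq.cons (Pq.L [0,1] 910 (Pf.C 1 0x5091004006))
 (Pq.cons (Pq.L [0,1] 910 (Pf.C 1 0x5091004006))
 (Pq.cons (Pq.L [0,1] 910 (Pf.C 1 0x5091004006))
 (Pq.cons (Pq.L [0,2] 910 (Pf.C 1 0x5091008006))
 (Pq.cons (Pq.L [1,2] 910 (Pf.C 1 0x5091008086))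
 Pq.nil)))))))) (Pq.cons (Pq.L [4,5] 1023 (Pf.B 10 4 (Pf.C 1 0x409141c304) (Pf.B 10 5 (Pf.C 1 0x284141c308) (Pf.C 0 0x1214504))))
 (Pq.cons (Pq.L [4,5] 1023 (Pf.B 10 5 (Pf.C 1 0x409141c305) (Pf.B 10 4 (Pf.C 1 0x205141c308) (Pf.C 0 0x1210505))))
 (Pq.cons (Pq.L [3,4,5] 1023 (Pf.B 10 5 (Pf.C 1 0x409141c305) (Pf.B 10 4 (Pf.C 1 0x409141c304) (Pf.B 10 3 (Pf.C 0 0x61420a) (Pf.C 0 0x102418a)))))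
 (Pq.cons (Pq.L [2,3,4,5] 1023 (Pf.B 10 5 (Pf.C 1 0x409141c305) (Pf.B 10 4 (Pf.C 1 0x409141c304) (Pf.B 10 3 (Pf.C 0 0x61420a) (Pf.B 10 2 (Pf.C 0 0x41018a) (Pf.C 0 0x1208503))))))
 (Pq.cons (Pq.L [1,2,3,4,5] 1023 (Pf.B 10 5 (Pf.C 1 0x409141c305) (Pf.B 10 4 (Pf.C 1 0x409141c304) (Pf.B 10 3 (Pf.C 0 0x61420a) (Pf.B 10 2 (Pf.C 0 0x41018a) (Pf.B 10 1 (Pf.C 0 0x20c10a) (Pf.C 0 0x1204502)))))))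
 (Pq.cons (Pq.L [0,1,2,3,4,5] 1023 (Pf.B 10 5 (Pf.C 1 0x409141c305) (Pf.B 10 4 (Pf.C 1 0x409141c304) (Pf.B 10 3 (Pf.C 0 0x61420a) (Pf.B 10 2 (Pf.C 0 0x41018a) (Pf.B 10 1 (Pf.C 0 0x20c10a) (Pf.B 10 0 (Pf.C 0 32906) (Pf.C 0 0x1200501))))))))
 Pq.nil)))))))) (Pq.cons (Pq.D 3 (Pq.cons (Pq.D 4 (Pq.cons (Pq.L [0,1] 910 (Pf.C 1 0x5091004006))
 (Pq.cons (Pq.L [0,1] 910 (Pf.C 1 0x5091004006))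
 (Pq.cons (Pq.L [0,1] 910 (Pf.C 1 0x5091004006))
 (Pq.cons (Pq.L [0,1] 910 (Pf.C 1 0x5091004006))
 (Pq.cons (Pq.L [0,1] 910 (Pf.C 1 0x5091004006))
 (Pq.cons (Pq.L [0,4] 910 (Pf.C 1 0x5091010006))
 (Pq.cons (Pq.L [1,4] 910 (Pf.C 1 0x5091010086))
 Pq.nil)))))))) (Pq.cons (Pq.L [4,5] 1023 (Pf.B 10 4 (Pf.C 1 0x409141c304) (Pf.B 10 5 (Pf.C 1 0x284141c308) (Pf.C 0 0x1214504))))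
 (Pq.cons (Pq.L [4,5] 1023 (Pf.B 10 5 (Pf.C 1 0x409141c305) (Pf.B 10 4 (Pf.C 1 0x205141c308) (Pf.C 0 0x1210505))))
 (Pq.cons (Pq.L [3,4,5] 1023 (Pf.B 10 5 (Pf.C 1 0x409141c305) (Pf.B 10 4 (Pf.C 1 0x409141c304) (Pf.B 10 3 (Pf.C 0 0x61420a) (Pf.C 0 0x120c504)))))
 (Pq.cons (Pq.L [2,3,4,5] 1023 (Pf.B 10 5 (Pf.C 1 0x409141c305) (Pf.B 10 4 (Pf.C 1 0x409141c304) (Pf.B 10 3 (Pf.C 0 0x61420a) (Pf.B 10 2 (Pf.C 0 0x41018a) (Pf.C 0 0x102410a))))))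
 (Pq.cons (Pq.L [1,2,3,4,5] 1023 (Pf.B 10 5 (Pf.C 1 0x409141c305) (Pf.B 10 4 (Pf.C 1 0x409141c304) (Pf.B 10 3 (Pf.C 0 0x61420a) (Pf.B 10 2 (Pf.C 0 0x41018a) (Pf.B 10 1 (Pf.C 0 0x20c10a) (Pf.C 0 0x1204502)))))))
 (Pq.cons (Pq.L [0,1,2,3,4,5] 1023 (Pf.B 10 5 (Pf.C 1 0x409141c305) (Pf.B 10 4 (Pf.C 1 0x409141c304) (Pf.B 10 3 (Pf.C 0 0x61420a) (Pf.B 10 2 (Pf.C 0 0x41018a) (Pf.B 10 1 (Pf.C 0 0x20c10a) (Pf.B 10 0 (Pf.C 0 32906) (Pf.C 0 0x1200501))))))))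
 Pq.nil)))))))) (Pq.cons (Pq.D 3 (Pq.cons (Pq.D 4 (Pq.cons (Pq.L [0,2] 910 (Pf.C 1 0x5091008006))
 (Pq.cons (Pq.L [0,2] 910 (Pf.C 1 0x5091008006))
 (Pq.cons (Pq.L [0,2] 910 (Pf.C 1 0x5091008006))
 (Pq.cons (Pq.L [0,2] 910 (Pf.C 1 0x5091008006))
 (Pq.cons (Pq.L [0,4] 910 (Pf.C 1 0x5091010006))
 (Pq.cons (Pq.L [0,2] 910 (Pf.C 1 0x5091008006))
 (Pq.cons (Pq.L [2,4] 910 (Pf.C 1 0x5091010106))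
 Pq.nil)))))))) (Pq.cons (Pq.L [4,5] 1023 (Pf.B 10 4 (Pf.C 1 0x409141c304) (Pf.B 10 5 (Pf.C 1 0x284141c308) (Pf.C 0 0x1214504))))
 (Pq.cons (Pq.L [4,5] 1023 (Pf.B 10 5 (Pf.C 1 0x409141c305) (Pf.B 10 4 (Pf.C 1 0x205141c308) (Pf.C 0 0x1210505))))
 (Pq.cons (Pq.L [3,4,5] 1023 (Pf.B 10 5 (Pf.C 1 0x409141c305) (Pf.B 10 4 (Pf.C 1 0x409141c304) (Pf.B 10 3 (Pf.C 0 0x61420a) (Pf.C 0 0x120c504)))))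
 (Pq.cons (Pq.L [2,3,4,5] 1023 (Pf.B 10 5 (Pf.C 1 0x409141c305) (Pf.B 10 4 (Pf.C 1 0x409141c304) (Pf.B 10 3 (Pf.C 0 0x61420a) (Pf.B 10 2 (Pf.C 0 0x41018a) (Pf.C 0 0x1208503))))))
 (Pq.cons (Pq.L [1,2,3,4,5] 1023 (Pf.B 10 5 (Pf.C 1 0x409141c305) (Pf.B 10 4 (Pf.C 1 0x409141c304) (Pf.B 10 3 (Pf.C 0 0x61420a) (Pf.B 10 2 (Pf.C 0 0x41018a) (Pf.B 10 1 (Pf.C 0 0x20c10a) (Pf.C 0 0x102408a)))))))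
 (Pq.cons (Pq.L [0,1,2,3,4,5] 1023 (Pf.B 10 5 (Pf.C 1 0x409141c305) (Pf.B 10 4 (Pf.C 1 0x409141c304) (Pf.B 10 3 (Pf.C 0 0x61420a) (Pf.B 10 2 (Pf.C 0 0x41018a) (Pf.B 10 1 (Pf.C 0 0x20c10a) (Pf.B 10 0 (Pf.C 0 32906) (Pf.C 0 0x1200501))))))))
 Pq.nil)))))))) (Pq.cons (Pq.D 3 (Pq.cons (Pq.D 4 (Pq.cons (Pq.L [1,2] 910 (Pf.C 1 0x5091008086))
 (Pq.cons (Pq.L [1,2] 910 (Pf.C 1 0x5091008086))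
 (Pq.cons (Pq.L [1,2] 910 (Pf.C 1 0x5091008086))
 (Pq.cons (Pq.L [1,2] 910 (Pf.C 1 0x5091008086))
 (Pq.cons (Pq.L [1,4] 910 (Pf.C 1 0x5091010086))
 (Pq.cons (Pq.L [2,4] 910 (Pf.C 1 0x5091010106))
 (Pq.cons (Pq.L [1,2] 910 (Pf.C 1 0x5091008086))
 Pq.nil)))))))) (Pq.cons (Pq.L [4,5] 1023 (Pf.B 10 4 (Pf.C 1 0x409141c304) (Pf.B 10 5 (Pf.C 1 0x284141c308) (Pf.C 0 0x1214504))))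
 (Pq.cons (Pq.L [4,5] 1023 (Pf.B 10 5 (Pf.C 1 0x409141c305) (Pf.B 10 4 (Pf.C 1 0x205141c308) (Pf.C 0 0x1210505))))
 (Pq.cons (Pq.L [3,4,5] 1023 (Pf.B 10 5 (Pf.C 1 0x409141c305) (Pf.B 10 4 (Pf.C 1 0x409141c304) (Pf.B 10 3 (Pf.C 0 0x61420a) (Pf.C 0 0x120c504)))))
 (Pq.cons (Pq.L [2,3,4,5] 1023 (Pf.B 10 5 (Pf.C 1 0x409141c305) (Pf.B 10 4 (Pf.C 1 0x409141c304) (Pf.B 10 3 (Pf.C 0 0x61420a) (Pf.B 10 2 (Pf.C 0 0x41018a) (Pf.C 0 0x1208503))))))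
 (Pq.cons (Pq.L [1,2,3,4,5] 1023 (Pf.B 10 5 (Pf.C 1 0x409141c305) (Pf.B 10 4 (Pf.C 1 0x409141c304) (Pf.B 10 3 (Pf.C 0 0x61420a) (Pf.B 10 2 (Pf.C 0 0x41018a) (Pf.B 10 1 (Pf.C 0 0x20c10a) (Pf.C 0 0x1204502)))))))
 (Pq.cons (Pq.L [0,1,2,3,4,5] 1023 (Pf.B 10 5 (Pf.C 1 0x409141c305) (Pf.B 10 4 (Pf.C 1 0x409141c304) (Pf.B 10 3 (Pf.C 0 0x61420a) (Pf.B 10 2 (Pf.C 0 0x41018a) (Pf.B 10 1 (Pf.C 0 0x20c10a) (Pf.B 10 0 (Pf.C 0 32906) (Pf.C 0 0x102400a))))))))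
 Pq.nil)))))))) Pq.nil)))))))) (Pq.cons (Pq.D 2 (Pq.cons (Pq.D 3 (Pq.cons (Pq.D 4 (Pq.cons (Pq.L [0,1] 910 (Pf.C 1 0x5091004006))
 (Pq.cons (Pq.L [0,1] 910 (Pf.C 1 0x5091004006))
 (Pq.cons (Pq.L [0,1] 910 (Pf.C 1 0x5091004006))
 (Pq.cons (Pq.L [0,1] 910 (Pf.C 1 0x5091004006))
 (Pq.cons (Pq.L [0,1] 910 (Pf.C 1 0x5091004006))
 (Pq.cons (Pq.L [0,2] 910 (Pf.C 1 0x5091008006))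
 (Pq.cons (Pq.L [1,2] 910 (Pf.C 1 0x5091008086))
 Pq.nil)))))))) (Pq.cons (Pq.L [4,5] 1023 (Pf.B 10 4 (Pf.C 1 0x409141c304) (Pf.B 10 5 (Pf.C 1 0x284141c308) (Pf.C 0 0x1214504))))
 (Pq.cons (Pq.L [4,5] 1023 (Pf.B 10 5 (Pf.C 1 0x409141c305) (Pf.B 10 4 (Pf.C 1 0x205141c308) (Pf.C 0 0x1210505))))
 (Pq.cons (Pq.L [3,4,5] 1023 (Pf.B 10 5 (Pf.C 1 0x409141c305) (Pf.B 10 4 (Pf.C 1 0x409141c304) (Pf.B 10 3 (Pf.C 0 0x61420a) (Pf.C 0 0x120c504)))))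
 (Pq.cons (Pq.L [2,3,4,5] 1023 (Pf.B 10 5 (Pf.C 1 0x409141c305) (Pf.B 10 4 (Pf.C 1 0x409141c304) (Pf.B 10 3 (Pf.C 0 0x61420a) (Pf.B 10 2 (Pf.C 0 0x41018a) (Pf.C 0 0x1208503))))))
 (Pq.cons (Pq.L [1,2,3,4,5] 1023 (Pf.B 10 5 (Pf.C 1 0x409141c305) (Pf.B 10 4 (Pf.C 1 0x409141c304) (Pf.B 10 3 (Pf.C 0 0x61420a) (Pf.B 10 2 (Pf.C 0 0x41018a) (Pf.B 10 1 (Pf.C 0 0x20c10a) (Pf.C 0 0x1204502)))))))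
 (Pq.cons (Pq.L [0,1,2,3,4,5] 1023 (Pf.B 10 5 (Pf.C 1 0x409141c305) (Pf.B 10 4 (Pf.C 1 0x409141c304) (Pf.B 10 3 (Pf.C 0 0x61420a) (Pf.B 10 2 (Pf.C 0 0x41018a) (Pf.B 10 1 (Pf.C 0 0x20c10a) (Pf.B 10 0 (Pf.C 0 32906) (Pf.C 0 0x1200501))))))))
 Pq.nil)))))))) (Pq.cons (Pq.D 3 (Pq.cons (Pq.D 4 (Pq.cons (Pq.L [0,1] 910 (Pf.C 1 0x5091004006))
 (Pq.cons (Pq.L [0,1] 910 (Pf.C 1 0x5091004006))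
 (Pq.cons (Pq.L [0,1] 910 (Pf.C 1 0x5091004006))
 (Pq.cons (Pq.L [0,1] 910 (Pf.C 1 0x5091004006))
 (Pq.cons (Pq.L [0,1] 910 (Pf.C 1 0x5091004006))
 (Pq.cons (Pq.L [0,2] 910 (Pf.C 1 0x5091008006))
 (Pq.cons (Pq.L [1,2] 910 (Pf.C 1 0x5091008086))
 Pq.nil)))))))) (Pq.cons (Pq.L [2,3,4,5] 987 (Pf.B 10 5 (Pf.B 10 4 (Pf.C 1 0x405081c30a) (Pf.B 10 3 (Pf.B 10 2 (Pf.C 1 0x405041c30a) (Pf.C 0 0x61010a)) (Pf.C 0 0xa1018a))) (Pf.C 0 0x102428a)))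
 (Pq.cons (Pq.L [2,4] 1023 (Pf.B 10 2 (Pf.C 1 0x409141c302) (Pf.B 10 4 (Pf.C 1 0x202141c308) (Pf.C 0 0x1210502))))
 (Pq.cons (Pq.L [2,3,4,5] 1023 (Pf.B 10 4 (Pf.C 1 0x409141c304) (Pf.B 10 3 (Pf.B 10 5 (Pf.B 10 2 (Pf.C 1 0x405041c30a) (Pf.C 0 0x61010a)) (Pf.C 0 0x61028a)) (Pf.C 0 0x120c504))))
 (Pq.cons (Pq.L [2,4] 1023 (Pf.B 10 4 (Pf.C 1 0x409141c304) (Pf.B 10 2 (Pf.C 1 0x104141c308) (Pf.C 0 0x1208504))))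
 (Pq.cons (Pq.L [1,2,3,4] 1023 (Pf.B 10 4 (Pf.C 1 0x409141c304) (Pf.B 10 2 (Pf.C 1 0x409141c302) (Pf.B 10 3 (Pf.C 0 0x61010a) (Pf.B 10 1 (Pf.C 0 0x20c10a) (Pf.C 0 0x1204502))))))
 (Pq.cons (Pq.L [0,1,2,3,4] 1023 (Pf.B 10 4 (Pf.C 1 0x409141c304) (Pf.B 10 2 (Pf.C 1 0x409141c302) (Pf.B 10 3 (Pf.C 0 0x61010a) (Pf.B 10 1 (Pf.C 0 0x20c10a) (Pf.B 10 0 (Pf.C 0 32906) (Pf.C 0 0x1200501)))))))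
 Pq.nil)))))))) (Pq.cons (Pq.D 3 (Pq.cons (Pq.D 4 (Pq.cons (Pq.L [0,1] 910 (Pf.C 1 0x5091004006))
 (Pq.cons (Pq.L [0,1] 910 (Pf.C 1 0x5091004006))
 (Pq.cons (Pq.L [0,1] 910 (Pf.C 1 0x5091004006))
 (Pq.cons (Pq.L [0,1] 910 (Pf.C 1 0x5091004006))
 (Pq.cons (Pq.L [0,1] 910 (Pf.C 1 0x5091004006))
 (Pq.cons (Pq.L [0,2] 910 (Pf.C 1 0x5091008006))
 (Pq.cons (Pq.L [1,2] 910 (Pf.C 1 0x5091008086))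
 Pq.nil)))))))) (Pq.cons (Pq.L [2,5] 1023 (Pf.B 10 2 (Pf.C 1 0x409141c302) (Pf.B 10 5 (Pf.C 1 0x282141c308) (Pf.C 0 0x1214502))))
 (Pq.cons (Pq.L [2,3,4,5] 1023 (Pf.B 10 5 (Pf.C 1 0x409141c305) (Pf.B 10 4 (Pf.B 10 3 (Pf.B 10 2 (Pf.C 1 0x404041c30a) (Pf.C 0 0x61410a)) (Pf.C 0 0x81418a)) (Pf.C 0 0x102420a))))
 (Pq.cons (Pq.L [2,3,4,5] 1023 (Pf.B 10 5 (Pf.C 1 0x409141c305) (Pf.B 10 3 (Pf.B 10 4 (Pf.B 10 2 (Pf.C 1 0x404041c30a) (Pf.C 0 0x61410a)) (Pf.C 0 0x61420a)) (Pf.C 0 0x120c505))))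
 (Pq.cons (Pq.L [2,5] 1023 (Pf.B 10 5 (Pf.C 1 0x409141c305) (Pf.B 10 2 (Pf.C 1 0x105141c308) (Pf.C 0 0x1208505))))
 (Pq.cons (Pq.L [1,2,3,4,5] 1023 (Pf.B 10 5 (Pf.C 1 0x409141c305) (Pf.B 10 2 (Pf.C 1 0x409141c302) (Pf.B 10 4 (Pf.C 0 0x81410a) (Pf.B 10 3 (Pf.C 0 0x61010a) (Pf.B 10 1 (Pf.C 0 0x20c10a) (Pf.C 0 0x1204502)))))))
 (Pq.cons (Pq.L [0,1,2,3,4,5] 1023 (Pf.B 10 5 (Pf.C 1 0x409141c305) (Pf.B 10 2 (Pf.C 1 0x409141c302) (Pf.B 10 4 (Pf.C 0 0x81410a) (Pf.B 10 3 (Pf.C 0 0x61010a) (Pf.B 10 1 (Pf.C 0 0x20c10a) (Pf.B 10 0 (Pf.C 0 32906) (Pf.C 0 0x1200501))))))))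
 Pq.nil)))))))) (Pq.cons (Pq.D 3 (Pq.cons (Pq.D 4 (Pq.cons (Pq.L [0,1] 910 (Pf.C 1 0x5091004006))
 (Pq.cons (Pq.L [0,1] 910 (Pf.C 1 0x5091004006))
 (Pq.cons (Pq.L [0,1] 910 (Pf.C 1 0x5091004006))
 (Pq.cons (Pq.L [0,1] 910 (Pf.C 1 0x5091004006))
 (Pq.cons (Pq.L [0,1] 910 (Pf.C 1 0x5091004006))
 (Pq.cons (Pq.L [0,2] 910 (Pf.C 1 0x5091008006))
 (Pq.cons (Pq.L [1,2] 910 (Pf.C 1 0x5091008086))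
 Pq.nil)))))))) (Pq.cons (Pq.L [4,5] 1023 (Pf.B 10 4 (Pf.C 1 0x409141c304) (Pf.B 10 5 (Pf.C 1 0x284141c308) (Pf.C 0 0x1214504))))
 (Pq.cons (Pq.L [4,5] 1023 (Pf.B 10 5 (Pf.C 1 0x409141c305) (Pf.B 10 4 (Pf.C 1 0x205141c308) (Pf.C 0 0x1210505))))
 (Pq.cons (Pq.L [3,4,5] 1023 (Pf.B 10 5 (Pf.C 1 0x409141c305) (Pf.B 10 4 (Pf.C 1 0x409141c304) (Pf.B 10 3 (Pf.C 0 0x61420a) (Pf.C 0 0x102418a)))))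
 (Pq.cons (Pq.L [2,3,4,5] 1023 (Pf.B 10 5 (Pf.C 1 0x409141c305) (Pf.B 10 4 (Pf.C 1 0x409141c304) (Pf.B 10 3 (Pf.C 0 0x61420a) (Pf.B 10 2 (Pf.C 0 0x41018a) (Pf.C 0 0x1208503))))))
 (Pq.cons (Pq.L [1,2,3,4,5] 1023 (Pf.B 10 5 (Pf.C 1 0x409141c305) (Pf.B 10 4 (Pf.C 1 0x409141c304) (Pf.B 10 3 (Pf.C 0 0x61420a) (Pf.B 10 2 (Pf.C 0 0x41018a) (Pf.B 10 1 (Pf.C 0 0x20c10a) (Pf.C 0 0x1204502)))))))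
 (Pq.cons (Pq.L [0,1,2,3,4,5] 1023 (Pf.B 10 5 (Pf.C 1 0x409141c305) (Pf.B 10 4 (Pf.C 1 0x409141c304) (Pf.B 10 3 (Pf.C 0 0x61420a) (Pf.B 10 2 (Pf.C 0 0x41018a) (Pf.B 10 1 (Pf.C 0 0x20c10a) (Pf.B 10 0 (Pf.C 0 32906) (Pf.C 0 0x1200501))))))))
 Pq.nil)))))))) (Pq.cons (Pq.D 3 (Pq.cons (Pq.D 4 (Pq.cons (Pq.L [0,1] 910 (Pf.C 1 0x5091004006))
 (Pq.cons (Pq.L [0,1] 910 (Pf.C 1 0x5091004006))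
 (Pq.cons (Pq.L [0,1] 910 (Pf.C 1 0x5091004006))
 (Pq.cons (Pq.L [0,1] 910 (Pf.C 1 0x5091004006))
 (Pq.cons (Pq.L [0,1] 910 (Pf.C 1 0x5091004006))
 (Pq.cons (Pq.L [0,4] 910 (Pf.C 1 0x5091010006))
 (Pq.cons (Pq.L [1,4] 910 (Pf.C 1 0x5091010086))
 Pq.nil)))))))) (Pq.cons (Pq.L [4,5] 1023 (Pf.B 10 4 (Pf.C 1 0x409141c304) (Pf.B 10 5 (Pf.C 1 0x284141c308) (Pf.C 0 0x1214504))))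
 (Pq.cons (Pq.L [4,5] 1023 (Pf.B 10 5 (Pf.C 1 0x409141c305) (Pf.B 10 4 (Pf.C 1 0x205141c308) (Pf.C 0 0x1210505))))
 (Pq.cons (Pq.L [3,4,5] 1023 (Pf.B 10 5 (Pf.C 1 0x409141c305) (Pf.B 10 4 (Pf.C 1 0x409141c304) (Pf.B 10 3 (Pf.C 0 0x61420a) (Pf.C 0 0x120c504)))))
 (Pq.cons (Pq.L [2,3,4,5] 1023 (Pf.B 10 5 (Pf.C 1 0x409141c305) (Pf.B 10 4 (Pf.C 1 0x409141c304) (Pf.B 10 3 (Pf.C 0 0x61420a) (Pf.B 10 2 (Pf.C 0 0x41018a) (Pf.C 0 0x102410a))))))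
 (Pq.cons (Pq.L [1,2,3,4,5] 1023 (Pf.B 10 5 (Pf.C 1 0x409141c305) (Pf.B 10 4 (Pf.C 1 0x409141c304) (Pf.B 10 3 (Pf.C 0 0x61420a) (Pf.B 10 2 (Pf.C 0 0x41018a) (Pf.B 10 1 (Pf.C 0 0x20c10a) (Pf.C 0 0x1204502)))))))
 (Pq.cons (Pq.L [0,1,2,3,4,5] 1023 (Pf.B 10 5 (Pf.C 1 0x409141c305) (Pf.B 10 4 (Pf.C 1 0x409141c304) (Pf.B 10 3 (Pf.C 0 0x61420a) (Pf.B 10 2 (Pf.C 0 0x41018a) (Pf.B 10 1 (Pf.C 0 0x20c10a) (Pf.B 10 0 (Pf.C 0 32906) (Pf.C 0 0x1200501))))))))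
 Pq.nil)))))))) (Pq.cons (Pq.D 3 (Pq.cons (Pq.D 4 (Pq.cons (Pq.L [0,2] 910 (Pf.C 1 0x5091008006))
 (Pq.cons (Pq.L [0,2] 910 (Pf.C 1 0x5091008006))
 (Pq.cons (Pq.L [0,2] 910 (Pf.C 1 0x5091008006))
 (Pq.cons (Pq.L [0,2] 910 (Pf.C 1 0x5091008006))
 (Pq.cons (Pq.L [0,4] 910 (Pf.C 1 0x5091010006))
 (Pq.cons (Pq.L [0,2] 910 (Pf.C 1 0x5091008006))
 (Pq.cons (Pq.L [2,4] 910 (Pf.C 1 0x5091010106))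
 Pq.nil)))))))) (Pq.cons (Pq.L [4,5] 1023 (Pf.B 10 4 (Pf.C 1 0x409141c304) (Pf.B 10 5 (Pf.C 1 0x284141c308) (Pf.C 0 0x1214504))))
 (Pq.cons (Pq.L [4,5] 1023 (Pf.B 10 5 (Pf.C 1 0x409141c305) (Pf.B 10 4 (Pf.C 1 0x205141c308) (Pf.C 0 0x1210505))))
 (Pq.cons (Pq.L [3,4,5] 1023 (Pf.B 10 5 (Pf.C 1 0x409141c305) (Pf.B 10 4 (Pf.C 1 0x409141c304) (Pf.B 10 3 (Pf.C 0 0x61420a) (Pf.C 0 0x120c504)))))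
 (Pq.cons (Pq.L [2,3,4,5] 1023 (Pf.B 10 5 (Pf.C 1 0x409141c305) (Pf.B 10 4 (Pf.C 1 0x409141c304) (Pf.B 10 3 (Pf.C 0 0x61420a) (Pf.B 10 2 (Pf.C 0 0x41018a) (Pf.C 0 0x1208503))))))
 (Pq.cons (Pq.L [1,2,3,4,5] 1023 (Pf.B 10 5 (Pf.C 1 0x409141c305) (Pf.B 10 4 (Pf.C 1 0x409141c304) (Pf.B 10 3 (Pf.C 0 0x61420a) (Pf.B 10 2 (Pf.C 0 0x41018a) (Pf.B 10 1 (Pf.C 0 0x20c10a) (Pf.C 0 0x102408a)))))))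
 (Pq.cons (Pq.L [0,1,2,3,4,5] 1023 (Pf.B 10 5 (Pf.C 1 0x409141c305) (Pf.B 10 4 (Pf.C 1 0x409141c304) (Pf.B 10 3 (Pf.C 0 0x61420a) (Pf.B 10 2 (Pf.C 0 0x41018a) (Pf.B 10 1 (Pf.C 0 0x20c10a) (Pf.B 10 0 (Pf.C 0 32906) (Pf.C 0 0x1200501))))))))
 Pq.nil)))))))) (Pq.cons (Pq.D 3 (Pq.cons (Pq.D 4 (Pq.cons (Pq.L [1,2] 910 (Pf.C 1 0x5091008086))
 (Pq.cons (Pq.L [1,2] 910 (Pf.C 1 0x5091008086))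
 (Pq.cons (Pq.L [1,2] 910 (Pf.C 1 0x5091008086))
 (Pq.cons (Pq.L [1,2] 910 (Pf.C 1 0x5091008086))
 (Pq.cons (Pq.L [1,4] 910 (Pf.C 1 0x5091010086))
 (Pq.cons (Pq.L [2,4] 910 (Pf.C 1 0x5091010106))
 (Pq.cons (Pq.L [1,2] 910 (Pf.C 1 0x5091008086))
 Pq.nil)))))))) (Pq.cons (Pq.L [4,5] 1023 (Pf.B 10 4 (Pf.C 1 0x409141c304) (Pf.B 10 5 (Pf.C 1 0x284141c308) (Pf.C 0 0x1214504))))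
 (Pq.cons (Pq.L [4,5] 1023 (Pf.B 10 5 (Pf.C 1 0x409141c305) (Pf.B 10 4 (Pf.C 1 0x205141c308) (Pf.C 0 0x1210505))))
 (Pq.cons (Pq.L [3,4,5] 1023 (Pf.B 10 5 (Pf.C 1 0x409141c305) (Pf.B 10 4 (Pf.C 1 0x409141c304) (Pf.B 10 3 (Pf.C 0 0x61420a) (Pf.C 0 0x120c504)))))
 (Pq.cons (Pq.L [2,3,4,5] 1023 (Pf.B 10 5 (Pf.C 1 0x409141c305) (Pf.B 10 4 (Pf.C 1 0x409141c304) (Pf.B 10 3 (Pf.C 0 0x61420a) (Pf.B 10 2 (Pf.C 0 0x41018a) (Pf.C 0 0x1208503))))))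
 (Pq.cons (Pq.L [1,2,3,4,5] 1023 (Pf.B 10 5 (Pf.C 1 0x409141c305) (Pf.B 10 4 (Pf.C 1 0x409141c304) (Pf.B 10 3 (Pf.C 0 0x61420a) (Pf.B 10 2 (Pf.C 0 0x41018a) (Pf.B 10 1 (Pf.C 0 0x20c10a) (Pf.C 0 0x1204502)))))))
 (Pq.cons (Pq.L [0,1,2,3,4,5] 1023 (Pf.B 10 5 (Pf.C 1 0x409141c305) (Pf.B 10 4 (Pf.C 1 0x409141c304) (Pf.B 10 3 (Pf.C 0 0x61420a) (Pf.B 10 2 (Pf.C 0 0x41018a) (Pf.B 10 1 (Pf.C 0 0x20c10a) (Pf.B 10 0 (Pf.C 0 32906) (Pf.C 0 0x102400a))))))))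
 Pq.nil)))))))) Pq.nil)))))))) (Pq.cons (Pq.D 2 (Pq.cons (Pq.D 3 (Pq.cons (Pq.D 4 (Pq.cons (Pq.L [0,1] 910 (Pf.C 1 0x5091004006))
 (Pq.cons (Pq.L [0,1] 910 (Pf.C 1 0x5091004006))
 (Pq.cons (Pq.L [0,1] 910 (Pf.C 1 0x5091004006))
 (Pq.cons (Pq.L [0,1] 910 (Pf.C 1 0x5091004006))
 (Pq.cons (Pq.L [0,1] 910 (Pf.C 1 0x5091004006))
 (Pq.cons (Pq.L [0,2] 910 (Pf.C 1 0x5091008006))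
 (Pq.cons (Pq.L [1,2] 910 (Pf.C 1 0x5091008086))
 Pq.nil)))))))) (Pq.cons (Pq.L [4,5] 1023 (Pf.B 10 4 (Pf.C 1 0x409141c304) (Pf.B 10 5 (Pf.C 1 0x284141c308) (Pf.C 0 0x1214504))))
 (Pq.cons (Pq.L [4,5] 1023 (Pf.B 10 5 (Pf.C 1 0x409141c305) (Pf.B 10 4 (Pf.C 1 0x205141c308) (Pf.C 0 0x1210505))))
 (Pq.cons (Pq.L [3,4,5] 1023 (Pf.B 10 5 (Pf.C 1 0x409141c305) (Pf.B 10 4 (Pf.C 1 0x409141c304) (Pf.B 10 3 (Pf.C 0 0x61420a) (Pf.C 0 0x120c504)))))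
 (Pq.cons (Pq.L [2,3,4,5] 1023 (Pf.B 10 5 (Pf.C 1 0x409141c305) (Pf.B 10 4 (Pf.C 1 0x409141c304) (Pf.B 10 3 (Pf.C 0 0x61420a) (Pf.B 10 2 (Pf.C 0 0x41018a) (Pf.C 0 0x1208503))))))
 (Pq.cons (Pq.L [1,2,3,4,5] 1023 (Pf.B 10 5 (Pf.C 1 0x409141c305) (Pf.B 10 4 (Pf.C 1 0x409141c304) (Pf.B 10 3 (Pf.C 0 0x61420a) (Pf.B 10 2 (Pf.C 0 0x41018a) (Pf.B 10 1 (Pf.C 0 0x20c10a) (Pf.C 0 0x1204502)))))))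
 (Pq.cons (Pq.L [0,1,2,3,4,5] 1023 (Pf.B 10 5 (Pf.C 1 0x409141c305) (Pf.B 10 4 (Pf.C 1 0x409141c304) (Pf.B 10 3 (Pf.C 0 0x61420a) (Pf.B 10 2 (Pf.C 0 0x41018a) (Pf.B 10 1 (Pf.C 0 0x20c10a) (Pf.B 10 0 (Pf.C 0 32906) (Pf.C 0 0x1200501))))))))
 Pq.nil)))))))) (Pq.cons (Pq.D 3 (Pq.cons (Pq.D 4 (Pq.cons (Pq.L [0,1] 910 (Pf.C 1 0x5091004006))
 (Pq.cons (Pq.L [0,1] 910 (Pf.C 1 0x5091004006))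
 (Pq.cons (Pq.L [0,1] 910 (Pf.C 1 0x5091004006))
 (Pq.cons (Pq.L [0,1] 910 (Pf.C 1 0x5091004006))
 (Pq.cons (Pq.L [0,1] 910 (Pf.C 1 0x5091004006))
 (Pq.cons (Pq.L [0,2] 910 (Pf.C 1 0x5091008006))
 (Pq.cons (Pq.L [1,2] 910 (Pf.C 1 0x5091008086))
 Pq.nil)))))))) (Pq.cons (Pq.L [2,3,4,5] 987 (Pf.B 10 5 (Pf.B 10 4 (Pf.C 1 0x405081c30a) (Pf.B 10 3 (Pf.B 10 2 (Pf.C 1 0x405041c30a) (Pf.C 0 0x61010a)) (Pf.C 0 0xa1018a))) (Pf.C 0 0x102428a)))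
 (Pq.cons (Pq.L [2,4] 1023 (Pf.B 10 2 (Pf.C 1 0x409141c302) (Pf.B 10 4 (Pf.C 1 0x202141c308) (Pf.C 0 0x1210502))))
 (Pq.cons (Pq.L [2,3,4,5] 1023 (Pf.B 10 4 (Pf.C 1 0x409141c304) (Pf.B 10 3 (Pf.B 10 5 (Pf.B 10 2 (Pf.C 1 0x405041c30a) (Pf.C 0 0x61010a)) (Pf.C 0 0x61028a)) (Pf.C 0 0x120c504))))
 (Pq.cons (Pq.L [2,4] 1023 (Pf.B 10 4 (Pf.C 1 0x409141c304) (Pf.B 10 2 (Pf.C 1 0x104141c308) (Pf.C 0 0x1208504))))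
 (Pq.cons (Pq.L [1,2,3,4] 1023 (Pf.B 10 4 (Pf.C 1 0x409141c304) (Pf.B 10 2 (Pf.C 1 0x409141c302) (Pf.B 10 3 (Pf.C 0 0x61010a) (Pf.B 10 1 (Pf.C 0 0x20c10a) (Pf.C 0 0x1204502))))))
 (Pq.cons (Pq.L [0,1,2,3,4] 1023 (Pf.B 10 4 (Pf.C 1 0x409141c304) (Pf.B 10 2 (Pf.C 1 0x409141c302) (Pf.B 10 3 (Pf.C 0 0x61010a) (Pf.B 10 1 (Pf.C 0 0x20c10a) (Pf.B 10 0 (Pf.C 0 32906) (Pf.C 0 0x1200501)))))))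
 Pq.nil)))))))) (Pq.cons (Pq.D 3 (Pq.cons (Pq.D 4 (Pq.cons (Pq.L [0,1] 910 (Pf.C 1 0x5091004006))
 (Pq.cons (Pq.L [0,1] 910 (Pf.C 1 0x5091004006))
 (Pq.cons (Pq.L [0,1] 910 (Pf.C 1 0x5091004006))
 (Pq.cons (Pq.L [0,1] 910 (Pf.C 1 0x5091004006))
 (Pq.cons (Pq.L [0,1] 910 (Pf.C 1 0x5091004006))
 (Pq.cons (Pq.L [0,2] 910 (Pf.C 1 0x5091008006))
 (Pq.cons (Pq.L [1,2] 910 (Pf.C 1 0x5091008086))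
 Pq.nil)))))))) (Pq.cons (Pq.L [2,5] 1023 (Pf.B 10 2 (Pf.C 1 0x409141c302) (Pf.B 10 5 (Pf.C 1 0x282141c308) (Pf.C 0 0x1214502))))
 (Pq.cons (Pq.L [2,3,4,5] 1023 (Pf.B 10 5 (Pf.C 1 0x409141c305) (Pf.B 10 4 (Pf.B 10 3 (Pf.B 10 2 (Pf.C 1 0x404041c30a) (Pf.C 0 0x61410a)) (Pf.C 0 0x81418a)) (Pf.C 0 0x102420a))))
 (Pq.cons (Pq.L [2,3,4,5] 1023 (Pf.B 10 5 (Pf.C 1 0x409141c305) (Pf.B 10 3 (Pf.B 10 4 (Pf.B 10 2 (Pf.C 1 0x404041c30a) (Pf.C 0 0x61410a)) (Pf.C 0 0x61420a)) (Pf.C 0 0x120c505))))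
 (Pq.cons (Pq.L [2,5] 1023 (Pf.B 10 5 (Pf.C 1 0x409141c305) (Pf.B 10 2 (Pf.C 1 0x105141c308) (Pf.C 0 0x1208505))))
 (Pq.cons (Pq.L [1,2,3,4,5] 1023 (Pf.B 10 5 (Pf.C 1 0x409141c305) (Pf.B 10 2 (Pf.C 1 0x409141c302) (Pf.B 10 4 (Pf.C 0 0x81410a) (Pf.B 10 3 (Pf.C 0 0x61010a) (Pf.B 10 1 (Pf.C 0 0x20c10a) (Pf.C 0 0x1204502)))))))
 (Pq.cons (Pq.L [0,1,2,3,4,5] 1023 (Pf.B 10 5 (Pf.C 1 0x409141c305) (Pf.B 10 2 (Pf.C 1 0x409141c302) (Pf.B 10 4 (Pf.C 0 0x81410a) (Pf.B 10 3 (Pf.C 0 0x61010a) (Pf.B 10 1 (Pf.C 0 0x20c10a) (Pf.B 10 0 (Pf.C 0 32906) (Pf.C 0 0x1200501))))))))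
 Pq.nil)))))))) (Pq.cons (Pq.D 3 (Pq.cons (Pq.D 4 (Pq.cons (Pq.L [0,1] 910 (Pf.C 1 0x5091004006))
 (Pq.cons (Pq.L [0,1] 910 (Pf.C 1 0x5091004006))
 (Pq.cons (Pq.L [0,1] 910 (Pf.C 1 0x5091004006))
 (Pq.cons (Pq.L [0,1] 910 (Pf.C 1 0x5091004006))
 (Pq.cons (Pq.L [0,1] 910 (Pf.C 1 0x5091004006))
 (Pq.cons (Pq.L [0,2] 910 (Pf.C 1 0x5091008006))
 (Pq.cons (Pq.L [1,2] 910 (Pf.C 1 0x5091008086))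
 Pq.nil)))))))) (Pq.cons (Pq.L [4,5] 1023 (Pf.B 10 4 (Pf.C 1 0x409141c304) (Pf.B 10 5 (Pf.C 1 0x284141c308) (Pf.C 0 0x1214504))))
 (Pq.cons (Pq.L [4,5] 1023 (Pf.B 10 5 (Pf.C 1 0x409141c305) (Pf.B 10 4 (Pf.C 1 0x205141c308) (Pf.C 0 0x1210505))))
 (Pq.cons (Pq.L [3,4,5] 1023 (Pf.B 10 5 (Pf.C 1 0x409141c305) (Pf.B 10 4 (Pf.C 1 0x409141c304) (Pf.B 10 3 (Pf.C 0 0x61420a) (Pf.C 0 0x102418a)))))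
 (Pq.cons (Pq.L [2,3,4,5] 1023 (Pf.B 10 5 (Pf.C 1 0x409141c305) (Pf.B 10 4 (Pf.C 1 0x409141c304) (Pf.B 10 3 (Pf.C 0 0x61420a) (Pf.B 10 2 (Pf.C 0 0x41018a) (Pf.C 0 0x1208503))))))
 (Pq.cons (Pq.L [1,2,3,4,5] 1023 (Pf.B 10 5 (Pf.C 1 0x409141c305) (Pf.B 10 4 (Pf.C 1 0x409141c304) (Pf.B 10 3 (Pf.C 0 0x61420a) (Pf.B 10 2 (Pf.C 0 0x41018a) (Pf.B 10 1 (Pf.C 0 0x20c10a) (Pf.C 0 0x1204502)))))))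
 (Pq.cons (Pq.L [0,1,2,3,4,5] 1023 (Pf.B 10 5 (Pf.C 1 0x409141c305) (Pf.B 10 4 (Pf.C 1 0x409141c304) (Pf.B 10 3 (Pf.C 0 0x61420a) (Pf.B 10 2 (Pf.C 0 0x41018a) (Pf.B 10 1 (Pf.C 0 0x20c10a) (Pf.B 10 0 (Pf.C 0 32906) (Pf.C 0 0x1200501))))))))
 Pq.nil)))))))) (Pq.cons (Pq.D 3 (Pq.cons (Pq.D 4 (Pq.cons (Pq.L [0,1] 910 (Pf.C 1 0x5091004006))
 (Pq.cons (Pq.L [0,1] 910 (Pf.C 1 0x5091004006))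
 (Pq.cons (Pq.L [0,1] 910 (Pf.C 1 0x5091004006))
 (Pq.cons (Pq.L [0,1] 910 (Pf.C 1 0x5091004006))
 (Pq.cons (Pq.L [0,1] 910 (Pf.C 1 0x5091004006))
 (Pq.cons (Pq.L [0,4] 910 (Pf.C 1 0x5091010006))
 (Pq.cons (Pq.L [1,4] 910 (Pf.C 1 0x5091010086))
 Pq.nil)))))))) (Pq.cons (Pq.L [4,5] 1023 (Pf.B 10 4 (Pf.C 1 0x409141c304) (Pf.B 10 5 (Pf.C 1 0x284141c308) (Pf.C 0 0x1214504))))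
 (Pq.cons (Pq.L [4,5] 1023 (Pf.B 10 5 (Pf.C 1 0x409141c305) (Pf.B 10 4 (Pf.C 1 0x205141c308) (Pf.C 0 0x1210505))))
 (Pq.cons (Pq.L [3,4,5] 1023 (Pf.B 10 5 (Pf.C 1 0x409141c305) (Pf.B 10 4 (Pf.C 1 0x409141c304) (Pf.B 10 3 (Pf.C 0 0x61420a) (Pf.C 0 0x120c504)))))
 (Pq.cons (Pq.L [2,3,4,5] 1023 (Pf.B 10 5 (Pf.C 1 0x409141c305) (Pf.B 10 4 (Pf.C 1 0x409141c304) (Pf.B 10 3 (Pf.C 0 0x61420a) (Pf.B 10 2 (Pf.C 0 0x41018a) (Pf.C 0 0x102410a))))))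
 (Pq.cons (Pq.L [1,2,3,4,5] 1023 (Pf.B 10 5 (Pf.C 1 0x409141c305) (Pf.B 10 4 (Pf.C 1 0x409141c304) (Pf.B 10 3 (Pf.C 0 0x61420a) (Pf.B 10 2 (Pf.C 0 0x41018a) (Pf.B 10 1 (Pf.C 0 0x20c10a) (Pf.C 0 0x1204502)))))))
 (Pq.cons (Pq.L [0,1,2,3,4,5] 1023 (Pf.B 10 5 (Pf.C 1 0x409141c305) (Pf.B 10 4 (Pf.C 1 0x409141c304) (Pf.B 10 3 (Pf.C 0 0x61420a) (Pf.B 10 2 (Pf.C 0 0x41018a) (Pf.B 10 1 (Pf.C 0 0x20c10a) (Pf.B 10 0 (Pf.C 0 32906) (Pf.C 0 0x1200501))))))))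
 Pq.nil)))))))) (Pq.cons (Pq.D 3 (Pq.cons (Pq.D 4 (Pq.cons (Pq.L [0,2] 910 (Pf.C 1 0x5091008006))
 (Pq.cons (Pq.L [0,2] 910 (Pf.C 1 0x5091008006))
 (Pq.cons (Pq.L [0,2] 910 (Pf.C 1 0x5091008006))
 (Pq.cons (Pq.L [0,2] 910 (Pf.C 1 0x5091008006))
 (Pq.cons (Pq.L [0,4] 910 (Pf.C 1 0x5091010006))
 (Pq.cons (Pq.L [0,2] 910 (Pf.C 1 0x5091008006))
 (Pq.cons (Pq.L [2,4] 910 (Pf.C 1 0x5091010106))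
 Pq.nil)))))))) (Pq.cons (Pq.L [4,5] 1023 (Pf.B 10 4 (Pf.C 1 0x409141c304) (Pf.B 10 5 (Pf.C 1 0x284141c308) (Pf.C 0 0x1214504))))
 (Pq.cons (Pq.L [4,5] 1023 (Pf.B 10 5 (Pf.C 1 0x409141c305) (Pf.B 10 4 (Pf.C 1 0x205141c308) (Pf.C 0 0x1210505))))
 (Pq.cons (Pq.L [3,4,5] 1023 (Pf.B 10 5 (Pf.C 1 0x409141c305) (Pf.B 10 4 (Pf.C 1 0x409141c304) (Pf.B 10 3 (Pf.C 0 0x61420a) (Pf.C 0 0x120c504)))))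
 (Pq.cons (Pq.L [2,3,4,5] 1023 (Pf.B 10 5 (Pf.C 1 0x409141c305) (Pf.B 10 4 (Pf.C 1 0x409141c304) (Pf.B 10 3 (Pf.C 0 0x61420a) (Pf.B 10 2 (Pf.C 0 0x41018a) (Pf.C 0 0x1208503))))))
 (Pq.cons (Pq.L [1,2,3,4,5] 1023 (Pf.B 10 5 (Pf.C 1 0x409141c305) (Pf.B 10 4 (Pf.C 1 0x409141c304) (Pf.B 10 3 (Pf.C 0 0x61420a) (Pf.B 10 2 (Pf.C 0 0x41018a) (Pf.B 10 1 (Pf.C 0 0x20c10a) (Pf.C 0 0x102408a)))))))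
 (Pq.cons (Pq.L [0,1,2,3,4,5] 1023 (Pf.B 10 5 (Pf.C 1 0x409141c305) (Pf.B 10 4 (Pf.C 1 0x409141c304) (Pf.B 10 3 (Pf.C 0 0x61420a) (Pf.B 10 2 (Pf.C 0 0x41018a) (Pf.B 10 1 (Pf.C 0 0x20c10a) (Pf.B 10 0 (Pf.C 0 32906) (Pf.C 0 0x1200501))))))))
 Pq.nil)))))))) (Pq.cons (Pq.D 3 (Pq.cons (Pq.D 4 (Pq.cons (Pq.L [1,2] 910 (Pf.C 1 0x5091008086))
 (Pq.cons (Pq.L [1,2] 910 (Pf.C 1 0x5091008086))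
 (Pq.cons (Pq.L [1,2] 910 (Pf.C 1 0x5091008086))
 (Pq.cons (Pq.L [1,2] 910 (Pf.C 1 0x5091008086))
 (Pq.cons (Pq.L [1,4] 910 (Pf.C 1 0x5091010086))
 (Pq.cons (Pq.L [2,4] 910 (Pf.C 1 0x5091010106))
 (Pq.cons (Pq.L [1,2] 910 (Pf.C 1 0x5091008086))
 Pq.nil)))))))) (Pq.cons (Pq.L [4,5] 1023 (Pf.B 10 4 (Pf.C 1 0x409141c304) (Pf.B 10 5 (Pf.C 1 0x284141c308) (Pf.C 0 0x1214504))))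
 (Pq.cons (Pq.L [4,5] 1023 (Pf.B 10 5 (Pf.C 1 0x409141c305) (Pf.B 10 4 (Pf.C 1 0x205141c308) (Pf.C 0 0x1210505))))
 (Pq.cons (Pq.L [3,4,5] 1023 (Pf.B 10 5 (Pf.C 1 0x409141c305) (Pf.B 10 4 (Pf.C 1 0x409141c304) (Pf.B 10 3 (Pf.C 0 0x61420a) (Pf.C 0 0x120c504)))))
 (Pq.cons (Pq.L [2,3,4,5] 1023 (Pf.B 10 5 (Pf.C 1 0x409141c305) (Pf.B 10 4 (Pf.C 1 0x409141c304) (Pf.B 10 3 (Pf.C 0 0x61420a) (Pf.B 10 2 (Pf.C 0 0x41018a) (Pf.C 0 0x1208503))))))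
 (Pq.cons (Pq.L [1,2,3,4,5] 1023 (Pf.B 10 5 (Pf.C 1 0x409141c305) (Pf.B 10 4 (Pf.C 1 0x409141c304) (Pf.B 10 3 (Pf.C 0 0x61420a) (Pf.B 10 2 (Pf.C 0 0x41018a) (Pf.B 10 1 (Pf.C 0 0x20c10a) (Pf.C 0 0x1204502)))))))
 (Pq.cons (Pq.L [0,1,2,3,4,5] 1023 (Pf.B 10 5 (Pf.C 1 0x409141c305) (Pf.B 10 4 (Pf.C 1 0x409141c304) (Pf.B 10 3 (Pf.C 0 0x61420a) (Pf.B 10 2 (Pf.C 0 0x41018a) (Pf.B 10 1 (Pf.C 0 0x20c10a) (Pf.B 10 0 (Pf.C 0 32906) (Pf.C 0 0x102400a))))))))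
 Pq.nil)))))))) Pq.nil)))))))) Pq.nil)))
theorem e_o15 : AllRef e_T e_G4 (List.drop 1 (List.drop 3 (List.flatMap (splitP 1) (List.take 1 (List.drop 3 (List.flatMap (splitP 0) [⟨[[5,6,7,8,9,10,11],[5,6,7,8,9,10,11],[5,6,7,8,9,10,11],[5,6,7,8,9,10,11],[5,6,7,8,9,10,11]],[⟨0,1,true⟩,⟨0,2,false⟩,⟨0,3,false⟩,⟨0,4,false⟩,⟨1,2,false⟩,⟨1,3,false⟩,⟨1,4,false⟩,⟨2,3,true⟩,⟨2,4,false⟩,⟨3,4,true⟩],[],[]⟩])))))) :=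
  chkPq_sound e_o15c _ (by decide +kernel)
noncomputable def e_o16c : Pq := (Pq.cons (Pq.D 2 (Pq.cons (Pq.D 3 (Pq.cons (Pq.D 4 (Pq.cons (Pq.L [0,1] 910 (Pf.C 1 0x5091004006))
 (Pq.cons (Pq.L [0,1] 910 (Pf.C 1 0x5091004006))
 (Pq.cons (Pq.L [0,1] 910 (Pf.C 1 0x5091004006))
 (Pq.cons (Pq.L [0,1] 910 (Pf.C 1 0x5091004006))
 (Pq.cons (Pq.L [0,1] 910 (Pf.C 1 0x5091004006))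
 (Pq.cons (Pq.L [0,3] 910 (Pf.C 1 0x509100c006))
 (Pq.cons (Pq.L [1,3] 910 (Pf.C 1 0x509100c086))
 Pq.nil)))))))) (Pq.cons (Pq.L [4,5] 1023 (Pf.B 10 4 (Pf.C 1 0x409141c304) (Pf.B 10 5 (Pf.C 1 0x284141c308) (Pf.C 0 0x1214504))))
 (Pq.cons (Pq.L [4,5] 1023 (Pf.B 10 5 (Pf.C 1 0x409141c305) (Pf.B 10 4 (Pf.C 1 0x205141c308) (Pf.C 0 0x1210505))))
 (Pq.cons (Pq.L [3,4,5] 1023 (Pf.B 10 5 (Pf.C 1 0x409141c305) (Pf.B 10 4 (Pf.C 1 0x409141c304) (Pf.B 10 3 (Pf.C 0 0x61420a) (Pf.C 0 0x120c504)))))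
 (Pq.cons (Pq.L [2,3,4,5] 1023 (Pf.B 10 5 (Pf.C 1 0x409141c305) (Pf.B 10 4 (Pf.C 1 0x409141c304) (Pf.B 10 3 (Pf.C 0 0x61420a) (Pf.B 10 2 (Pf.C 0 0x41018a) (Pf.C 0 0x1208503))))))
 (Pq.cons (Pq.L [1,2,3,4,5] 1023 (Pf.B 10 5 (Pf.C 1 0x409141c305) (Pf.B 10 4 (Pf.C 1 0x409141c304) (Pf.B 10 3 (Pf.C 0 0x61420a) (Pf.B 10 2 (Pf.C 0 0x41018a) (Pf.B 10 1 (Pf.C 0 0x20c10a) (Pf.C 0 0x1204502)))))))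
 (Pq.cons (Pq.L [0,1,2,3,4,5] 1023 (Pf.B 10 5 (Pf.C 1 0x409141c305) (Pf.B 10 4 (Pf.C 1 0x409141c304) (Pf.B 10 3 (Pf.C 0 0x61420a) (Pf.B 10 2 (Pf.C 0 0x41018a) (Pf.B 10 1 (Pf.C 0 0x20c10a) (Pf.B 10 0 (Pf.C 0 32906) (Pf.C 0 0x1200501))))))))
 Pq.nil)))))))) (Pq.cons (Pq.D 3 (Pq.cons (Pq.D 4 (Pq.cons (Pq.L [0,1] 910 (Pf.C 1 0x5091004006))
 (Pq.cons (Pq.L [0,1] 910 (Pf.C 1 0x5091004006))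
 (Pq.cons (Pq.L [0,1] 910 (Pf.C 1 0x5091004006))
 (Pq.cons (Pq.L [0,1] 910 (Pf.C 1 0x5091004006))
 (Pq.cons (Pq.L [0,1] 910 (Pf.C 1 0x5091004006))
 (Pq.cons (Pq.L [0,3] 910 (Pf.C 1 0x509100c006))
 (Pq.cons (Pq.L [1,3] 910 (Pf.C 1 0x509100c086))
 Pq.nil)))))))) (Pq.cons (Pq.L [3,4,5] 987 (Pf.B 10 5 (Pf.B 10 4 (Pf.C 1 0x405081c30a) (Pf.B 10 3 (Pf.C 1 0x405061c30a) (Pf.C 0 0xa1018a))) (Pf.C 0 0x102428a)))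
 (Pq.cons (Pq.L [3,4] 1023 (Pf.B 10 3 (Pf.C 1 0x409141c303) (Pf.B 10 4 (Pf.C 1 0x203141c308) (Pf.C 0 0x1210503))))
 (Pq.cons (Pq.L [3,4] 1023 (Pf.B 10 4 (Pf.C 1 0x409141c304) (Pf.B 10 3 (Pf.C 1 0x184141c308) (Pf.C 0 0x120c504))))
 (Pq.cons (Pq.L [2,3,4] 1023 (Pf.B 10 4 (Pf.C 1 0x409141c304) (Pf.B 10 3 (Pf.C 1 0x409141c303) (Pf.B 10 2 (Pf.C 0 0x41018a) (Pf.C 0 0x1208503)))))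
 (Pq.cons (Pq.L [1,2,3,4] 1023 (Pf.B 10 4 (Pf.C 1 0x409141c304) (Pf.B 10 3 (Pf.C 1 0x409141c303) (Pf.B 10 2 (Pf.C 0 0x41018a) (Pf.B 10 1 (Pf.C 0 0x20c10a) (Pf.C 0 0x1204502))))))
 (Pq.cons (Pq.L [0,1,2,3,4] 1023 (Pf.B 10 4 (Pf.C 1 0x409141c304) (Pf.B 10 3 (Pf.C 1 0x409141c303) (Pf.B 10 2 (Pf.C 0 0x41018a) (Pf.B 10 1 (Pf.C 0 0x20c10a) (Pf.B 10 0 (Pf.C 0 32906) (Pf.C 0 0x1200501)))))))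
 Pq.nil)))))))) (Pq.cons (Pq.D 3 (Pq.cons (Pq.D 4 (Pq.cons (Pq.L [0,1] 910 (Pf.C 1 0x5091004006))
 (Pq.cons (Pq.L [0,1] 910 (Pf.C 1 0x5091004006))
 (Pq.cons (Pq.L [0,1] 910 (Pf.C 1 0x5091004006))
 (Pq.cons (Pq.L [0,1] 910 (Pf.C 1 0x5091004006))
 (Pq.cons (Pq.L [0,1] 910 (Pf.C 1 0x5091004006))
 (Pq.cons (Pq.L [0,3] 910 (Pf.C 1 0x509100c006))
 (Pq.cons (Pq.L [1,3] 910 (Pf.C 1 0x509100c086))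
 Pq.nil)))))))) (Pq.cons (Pq.L [3,5] 1023 (Pf.B 10 3 (Pf.C 1 0x409141c303) (Pf.B 10 5 (Pf.C 1 0x283141c308) (Pf.C 0 0x1214503))))
 (Pq.cons (Pq.L [3,4,5] 1023 (Pf.B 10 5 (Pf.C 1 0x409141c305) (Pf.B 10 4 (Pf.B 10 3 (Pf.C 1 0x404061c30a) (Pf.C 0 0x81418a)) (Pf.C 0 0x102420a))))
 (Pq.cons (Pq.L [3,5] 1023 (Pf.B 10 5 (Pf.C 1 0x409141c305) (Pf.B 10 3 (Pf.C 1 0x185141c308) (Pf.C 0 0x120c505))))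
 (Pq.cons (Pq.L [2,3,4,5] 1023 (Pf.B 10 5 (Pf.C 1 0x409141c305) (Pf.B 10 3 (Pf.C 1 0x409141c303) (Pf.B 10 4 (Pf.C 0 0x81418a) (Pf.B 10 2 (Pf.C 0 0x41018a) (Pf.C 0 0x1208503))))))
 (Pq.cons (Pq.L [1,2,3,4,5] 1023 (Pf.B 10 5 (Pf.C 1 0x409141c305) (Pf.B 10 3 (Pf.C 1 0x409141c303) (Pf.B 10 4 (Pf.C 0 0x81418a) (Pf.B 10 2 (Pf.C 0 0x41018a) (Pf.B 10 1 (Pf.C 0 0x20c10a) (Pf.C 0 0x1204502)))))))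
 (Pq.cons (Pq.L [0,1,2,3,4,5] 1023 (Pf.B 10 5 (Pf.C 1 0x409141c305) (Pf.B 10 3 (Pf.C 1 0x409141c303) (Pf.B 10 4 (Pf.C 0 0x81418a) (Pf.B 10 2 (Pf.C 0 0x41018a) (Pf.B 10 1 (Pf.C 0 0x20c10a) (Pf.B 10 0 (Pf.C 0 32906) (Pf.C 0 0x1200501))))))))
 Pq.nil)))))))) (Pq.cons (Pq.D 3 (Pq.cons (Pq.D 4 (Pq.cons (Pq.L [0,1] 910 (Pf.C 1 0x5091004006))
 (Pq.cons (Pq.L [0,1] 910 (Pf.C 1 0x5091004006))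
 (Pq.cons (Pq.L [0,1] 910 (Pf.C 1 0x5091004006))
 (Pq.cons (Pq.L [0,1] 910 (Pf.C 1 0x5091004006))
 (Pq.cons (Pq.L [0,1] 910 (Pf.C 1 0x5091004006))
 (Pq.cons (Pq.L [0,4] 910 (Pf.C 1 0x5091010006))
 (Pq.cons (Pq.L [1,4] 910 (Pf.C 1 0x5091010086))
 Pq.nil)))))))) (Pq.cons (Pq.L [4,5] 1023 (Pf.B 10 4 (Pf.C 1 0x409141c304) (Pf.B 10 5 (Pf.C 1 0x284141c308) (Pf.C 0 0x1214504))))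
 (Pq.cons (Pq.L [4,5] 1023 (Pf.B 10 5 (Pf.C 1 0x409141c305) (Pf.B 10 4 (Pf.C 1 0x205141c308) (Pf.C 0 0x1210505))))
 (Pq.cons (Pq.L [3,4,5] 1023 (Pf.B 10 5 (Pf.C 1 0x409141c305) (Pf.B 10 4 (Pf.C 1 0x409141c304) (Pf.B 10 3 (Pf.C 0 0x61420a) (Pf.C 0 0x102418a)))))
 (Pq.cons (Pq.L [2,3,4,5] 1023 (Pf.B 10 5 (Pf.C 1 0x409141c305) (Pf.B 10 4 (Pf.C 1 0x409141c304) (Pf.B 10 3 (Pf.C 0 0x61420a) (Pf.B 10 2 (Pf.C 0 0x41018a) (Pf.C 0 0x1208503))))))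
 (Pq.cons (Pq.L [1,2,3,4,5] 1023 (Pf.B 10 5 (Pf.C 1 0x409141c305) (Pf.B 10 4 (Pf.C 1 0x409141c304) (Pf.B 10 3 (Pf.C 0 0x61420a) (Pf.B 10 2 (Pf.C 0 0x41018a) (Pf.B 10 1 (Pf.C 0 0x20c10a) (Pf.C 0 0x1204502)))))))
 (Pq.cons (Pq.L [0,1,2,3,4,5] 1023 (Pf.B 10 5 (Pf.C 1 0x409141c305) (Pf.B 10 4 (Pf.C 1 0x409141c304) (Pf.B 10 3 (Pf.C 0 0x61420a) (Pf.B 10 2 (Pf.C 0 0x41018a) (Pf.B 10 1 (Pf.C 0 0x20c10a) (Pf.B 10 0 (Pf.C 0 32906) (Pf.C 0 0x1200501))))))))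
 Pq.nil)))))))) (Pq.cons (Pq.D 3 (Pq.cons (Pq.D 4 (Pq.cons (Pq.L [0,1] 910 (Pf.C 1 0x5091004006))
 (Pq.cons (Pq.L [0,1] 910 (Pf.C 1 0x5091004006))
 (Pq.cons (Pq.L [0,1] 910 (Pf.C 1 0x5091004006))
 (Pq.cons (Pq.L [0,1] 910 (Pf.C 1 0x5091004006))
 (Pq.cons (Pq.L [0,1] 910 (Pf.C 1 0x5091004006))
 (Pq.cons (Pq.L [0,3] 910 (Pf.C 1 0x509100c006))
 (Pq.cons (Pq.L [1,3] 910 (Pf.C 1 0x509100c086))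
 Pq.nil)))))))) (Pq.cons (Pq.L [4,5] 1023 (Pf.B 10 4 (Pf.C 1 0x409141c304) (Pf.B 10 5 (Pf.C 1 0x284141c308) (Pf.C 0 0x1214504))))
 (Pq.cons (Pq.L [4,5] 1023 (Pf.B 10 5 (Pf.C 1 0x409141c305) (Pf.B 10 4 (Pf.C 1 0x205141c308) (Pf.C 0 0x1210505))))
 (Pq.cons (Pq.L [3,4,5] 1023 (Pf.B 10 5 (Pf.C 1 0x409141c305) (Pf.B 10 4 (Pf.C 1 0x409141c304) (Pf.B 10 3 (Pf.C 0 0x61420a) (Pf.C 0 0x120c504)))))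
 (Pq.cons (Pq.L [2,3,4,5] 1023 (Pf.B 10 5 (Pf.C 1 0x409141c305) (Pf.B 10 4 (Pf.C 1 0x409141c304) (Pf.B 10 3 (Pf.C 0 0x61420a) (Pf.B 10 2 (Pf.C 0 0x41018a) (Pf.C 0 0x102410a))))))
 (Pq.cons (Pq.L [1,2,3,4,5] 1023 (Pf.B 10 5 (Pf.C 1 0x409141c305) (Pf.B 10 4 (Pf.C 1 0x409141c304) (Pf.B 10 3 (Pf.C 0 0x61420a) (Pf.B 10 2 (Pf.C 0 0x41018a) (Pf.B 10 1 (Pf.C 0 0x20c10a) (Pf.C 0 0x1204502)))))))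
 (Pq.cons (Pq.L [0,1,2,3,4,5] 1023 (Pf.B 10 5 (Pf.C 1 0x409141c305) (Pf.B 10 4 (Pf.C 1 0x409141c304) (Pf.B 10 3 (Pf.C 0 0x61420a) (Pf.B 10 2 (Pf.C 0 0x41018a) (Pf.B 10 1 (Pf.C 0 0x20c10a) (Pf.B 10 0 (Pf.C 0 32906) (Pf.C 0 0x1200501))))))))
 Pq.nil)))))))) (Pq.cons (Pq.D 3 (Pq.cons (Pq.D 4 (Pq.cons (Pq.L [0,3] 910 (Pf.C 1 0x509100c006))
 (Pq.cons (Pq.L [0,3] 910 (Pf.C 1 0x509100c006))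
 (Pq.cons (Pq.L [0,3] 910 (Pf.C 1 0x509100c006))
 (Pq.cons (Pq.L [0,4] 910 (Pf.C 1 0x5091010006))
 (Pq.cons (Pq.L [0,3] 910 (Pf.C 1 0x509100c006))
 (Pq.cons (Pq.L [0,3] 910 (Pf.C 1 0x509100c006))
 (Pq.cons (Pq.L [3,4] 910 (Pf.C 1 0x5091010186))
 Pq.nil)))))))) (Pq.cons (Pq.L [4,5] 1023 (Pf.B 10 4 (Pf.C 1 0x409141c304) (Pf.B 10 5 (Pf.C 1 0x284141c308) (Pf.C 0 0x1214504))))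
 (Pq.cons (Pq.L [4,5] 1023 (Pf.B 10 5 (Pf.C 1 0x409141c305) (Pf.B 10 4 (Pf.C 1 0x205141c308) (Pf.C 0 0x1210505))))
 (Pq.cons (Pq.L [3,4,5] 1023 (Pf.B 10 5 (Pf.C 1 0x409141c305) (Pf.B 10 4 (Pf.C 1 0x409141c304) (Pf.B 10 3 (Pf.C 0 0x61420a) (Pf.C 0 0x120c504)))))
 (Pq.cons (Pq.L [2,3,4,5] 1023 (Pf.B 10 5 (Pf.C 1 0x409141c305) (Pf.B 10 4 (Pf.C 1 0x409141c304) (Pf.B 10 3 (Pf.C 0 0x61420a) (Pf.B 10 2 (Pf.C 0 0x41018a) (Pf.C 0 0x1208503))))))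
 (Pq.cons (Pq.L [1,2,3,4,5] 1023 (Pf.B 10 5 (Pf.C 1 0x409141c305) (Pf.B 10 4 (Pf.C 1 0x409141c304) (Pf.B 10 3 (Pf.C 0 0x61420a) (Pf.B 10 2 (Pf.C 0 0x41018a) (Pf.B 10 1 (Pf.C 0 0x20c10a) (Pf.C 0 0x102408a)))))))
 (Pq.cons (Pq.L [0,1,2,3,4,5] 1023 (Pf.B 10 5 (Pf.C 1 0x409141c305) (Pf.B 10 4 (Pf.C 1 0x409141c304) (Pf.B 10 3 (Pf.C 0 0x61420a) (Pf.B 10 2 (Pf.C 0 0x41018a) (Pf.B 10 1 (Pf.C 0 0x20c10a) (Pf.B 10 0 (Pf.C 0 32906) (Pf.C 0 0x1200501))))))))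
 Pq.nil)))))))) (Pq.cons (Pq.D 3 (Pq.cons (Pq.D 4 (Pq.cons (Pq.L [1,3] 910 (Pf.C 1 0x509100c086))
 (Pq.cons (Pq.L [1,3] 910 (Pf.C 1 0x509100c086))
 (Pq.cons (Pq.L [1,3] 910 (Pf.C 1 0x509100c086))
 (Pq.cons (Pq.L [1,4] 910 (Pf.C 1 0x5091010086))
 (Pq.cons (Pq.L [1,3] 910 (Pf.C 1 0x509100c086))
 (Pq.cons (Pq.L [3,4] 910 (Pf.C 1 0x5091010186))
 (Pq.cons (Pq.L [1,3] 910 (Pf.C 1 0x509100c086))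
 Pq.nil)))))))) (Pq.cons (Pq.L [4,5] 1023 (Pf.B 10 4 (Pf.C 1 0x409141c304) (Pf.B 10 5 (Pf.C 1 0x284141c308) (Pf.C 0 0x1214504))))
 (Pq.cons (Pq.L [4,5] 1023 (Pf.B 10 5 (Pf.C 1 0x409141c305) (Pf.B 10 4 (Pf.C 1 0x205141c308) (Pf.C 0 0x1210505))))
 (Pq.cons (Pq.L [3,4,5] 1023 (Pf.B 10 5 (Pf.C 1 0x409141c305) (Pf.B 10 4 (Pf.C 1 0x409141c304) (Pf.B 10 3 (Pf.C 0 0x61420a) (Pf.C 0 0x120c504)))))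
 (Pq.cons (Pq.L [2,3,4,5] 1023 (Pf.B 10 5 (Pf.C 1 0x409141c305) (Pf.B 10 4 (Pf.C 1 0x409141c304) (Pf.B 10 3 (Pf.C 0 0x61420a) (Pf.B 10 2 (Pf.C 0 0x41018a) (Pf.C 0 0x1208503))))))
 (Pq.cons (Pq.L [1,2,3,4,5] 1023 (Pf.B 10 5 (Pf.C 1 0x409141c305) (Pf.B 10 4 (Pf.C 1 0x409141c304) (Pf.B 10 3 (Pf.C 0 0x61420a) (Pf.B 10 2 (Pf.C 0 0x41018a) (Pf.B 10 1 (Pf.C 0 0x20c10a) (Pf.C 0 0x1204502)))))))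
 (Pq.cons (Pq.L [0,1,2,3,4,5] 1023 (Pf.B 10 5 (Pf.C 1 0x409141c305) (Pf.B 10 4 (Pf.C 1 0x409141c304) (Pf.B 10 3 (Pf.C 0 0x61420a) (Pf.B 10 2 (Pf.C 0 0x41018a) (Pf.B 10 1 (Pf.C 0 0x20c10a) (Pf.B 10 0 (Pf.C 0 32906) (Pf.C 0 0x102400a))))))))
 Pq.nil)))))))) Pq.nil)))))))) (Pq.cons (Pq.D 2 (Pq.cons (Pq.D 3 (Pq.cons (Pq.D 4 (Pq.cons (Pq.L [0,1] 910 (Pf.C 1 0x5091004006))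
 (Pq.cons (Pq.L [0,1] 910 (Pf.C 1 0x5091004006))
 (Pq.cons (Pq.L [0,1] 910 (Pf.C 1 0x5091004006))
 (Pq.cons (Pq.L [0,1] 910 (Pf.C 1 0x5091004006))
 (Pq.cons (Pq.L [0,1] 910 (Pf.C 1 0x5091004006))
 (Pq.cons (Pq.L [0,3] 910 (Pf.C 1 0x509100c006))
 (Pq.cons (Pq.L [1,3] 910 (Pf.C 1 0x509100c086))
 Pq.nil)))))))) (Pq.cons (Pq.L [3,4,5] 1023 (Pf.B 10 4 (Pf.C 1 0x409141c304) (Pf.B 10 5 (Pf.B 10 3 (Pf.C 1 0x409141c303) (Pf.C 0 0xa1018a)) (Pf.C 0 0x1214504))))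
 (Pq.cons (Pq.L [3,4] 1023 (Pf.B 10 3 (Pf.C 1 0x409141c303) (Pf.B 10 4 (Pf.C 1 0x203141c308) (Pf.C 0 0x1210503))))
 (Pq.cons (Pq.L [3,4] 1023 (Pf.B 10 4 (Pf.C 1 0x409141c304) (Pf.B 10 3 (Pf.C 1 0x184141c308) (Pf.C 0 0x120c504))))
 (Pq.cons (Pq.L [2,3,4] 1023 (Pf.B 10 4 (Pf.C 1 0x409141c304) (Pf.B 10 3 (Pf.C 1 0x409141c303) (Pf.B 10 2 (Pf.C 0 0x41018a) (Pf.C 0 0x1208503)))))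
 (Pq.cons (Pq.L [1,2,3,4] 1023 (Pf.B 10 4 (Pf.C 1 0x409141c304) (Pf.B 10 3 (Pf.C 1 0x409141c303) (Pf.B 10 2 (Pf.C 0 0x41018a) (Pf.B 10 1 (Pf.C 0 0x20c10a) (Pf.C 0 0x1204502))))))
 (Pq.cons (Pq.L [0,1,2,3,4] 1023 (Pf.B 10 4 (Pf.C 1 0x409141c304) (Pf.B 10 3 (Pf.C 1 0x409141c303) (Pf.B 10 2 (Pf.C 0 0x41018a) (Pf.B 10 1 (Pf.C 0 0x20c10a) (Pf.B 10 0 (Pf.C 0 32906) (Pf.C 0 0x1200501)))))))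
 Pq.nil)))))))) (Pq.cons (Pq.D 3 (Pq.cons (Pq.D 4 (Pq.cons (Pq.L [0,1] 910 (Pf.C 1 0x5091004006))
 (Pq.cons (Pq.L [0,1] 910 (Pf.C 1 0x5091004006))
 (Pq.cons (Pq.L [0,1] 910 (Pf.C 1 0x5091004006))
 (Pq.cons (Pq.L [0,1] 910 (Pf.C 1 0x5091004006))
 (Pq.cons (Pq.L [0,1] 910 (Pf.C 1 0x5091004006))
 (Pq.cons (Pq.L [0,3] 910 (Pf.C 1 0x509100c006))
 (Pq.cons (Pq.L [1,3] 910 (Pf.C 1 0x509100c086))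
 Pq.nil)))))))) (Pq.cons (Pq.L [3,4,5] 1023 (Pf.B 10 5 (Pf.B 10 4 (Pf.C 1 0x409141c304) (Pf.B 10 3 (Pf.C 1 0x409141c303) (Pf.C 0 0xa1018a))) (Pf.C 0 0x102428a)))
 (Pq.cons (Pq.L [3,4] 1023 (Pf.B 10 3 (Pf.C 1 0x409141c303) (Pf.B 10 4 (Pf.C 1 0x203141c308) (Pf.C 0 0x1210503))))
 (Pq.cons (Pq.L [3,4] 1023 (Pf.B 10 4 (Pf.C 1 0x409141c304) (Pf.B 10 3 (Pf.C 1 0x184141c308) (Pf.C 0 0x120c504))))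
 (Pq.cons (Pq.L [2,3,4] 1023 (Pf.B 10 4 (Pf.C 1 0x409141c304) (Pf.B 10 3 (Pf.C 1 0x409141c303) (Pf.B 10 2 (Pf.C 0 0x41018a) (Pf.C 0 0x1208503)))))
 (Pq.cons (Pq.L [1,2,3,4] 1023 (Pf.B 10 4 (Pf.C 1 0x409141c304) (Pf.B 10 3 (Pf.C 1 0x409141c303) (Pf.B 10 2 (Pf.C 0 0x41018a) (Pf.B 10 1 (Pf.C 0 0x20c10a) (Pf.C 0 0x1204502))))))
 (Pq.cons (Pq.L [0,1,2,3,4] 1023 (Pf.B 10 4 (Pf.C 1 0x409141c304) (Pf.B 10 3 (Pf.C 1 0x409141c303) (Pf.B 10 2 (Pf.C 0 0x41018a) (Pf.B 10 1 (Pf.C 0 0x20c10a) (Pf.B 10 0 (Pf.C 0 32906) (Pf.C 0 0x1200501)))))))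
 Pq.nil)))))))) (Pq.cons (Pq.D 3 (Pq.cons (Pq.D 4 (Pq.cons (Pq.L [0,1] 910 (Pf.C 1 0x5091004006))
 (Pq.cons (Pq.L [0,1] 910 (Pf.C 1 0x5091004006))
 (Pq.cons (Pq.L [0,1] 910 (Pf.C 1 0x5091004006))
 (Pq.cons (Pq.L [0,1] 910 (Pf.C 1 0x5091004006))
 (Pq.cons (Pq.L [0,1] 910 (Pf.C 1 0x5091004006))
 (Pq.cons (Pq.L [0,3] 910 (Pf.C 1 0x509100c006))
 (Pq.cons (Pq.L [1,3] 910 (Pf.C 1 0x509100c086))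
 Pq.nil)))))))) (Pq.cons (Pq.L [1,2,3,4,5] 1023 (Pf.B 10 3 (Pf.C 1 0x409141c303) (Pf.B 10 5 (Pf.B 10 4 (Pf.B 10 2 (Pf.B 10 1 (Pf.C 1 0x404021c30a) (Pf.C 0 0x40c08a)) (Pf.C 0 0x80c10a)) (Pf.C 0 0xa0c20a)) (Pf.C 0 0x1214503))))
 (Pq.cons (Pq.L [1,2,3,4] 987 (Pf.B 10 4 (Pf.B 10 3 (Pf.C 1 0x404061c30a) (Pf.B 10 2 (Pf.B 10 1 (Pf.C 1 0x404021c30a) (Pf.C 0 0x40c08a)) (Pf.C 0 0x80c10a))) (Pf.C 0 0x102420a)))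
 (Pq.cons (Pq.L [1,3] 1023 (Pf.B 10 1 (Pf.C 1 0x409141c301) (Pf.B 10 3 (Pf.C 1 0x181141c308) (Pf.C 0 0x120c501))))
 (Pq.cons (Pq.L [1,2,3,4] 1023 (Pf.B 10 3 (Pf.C 1 0x409141c303) (Pf.B 10 2 (Pf.B 10 4 (Pf.B 10 1 (Pf.C 1 0x404021c30a) (Pf.C 0 0x40c08a)) (Pf.C 0 0x40c20a)) (Pf.C 0 0x1208503))))
 (Pq.cons (Pq.L [1,3] 1023 (Pf.B 10 3 (Pf.C 1 0x409141c303) (Pf.B 10 1 (Pf.C 1 0x83141c308) (Pf.C 0 0x1204503))))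
 (Pq.cons (Pq.L [0,1,2,3] 1023 (Pf.B 10 3 (Pf.C 1 0x409141c303) (Pf.B 10 1 (Pf.C 1 0x409141c301) (Pf.B 10 2 (Pf.C 0 0x40c08a) (Pf.B 10 0 (Pf.C 0 32906) (Pf.C 0 0x1200501))))))
 Pq.nil)))))))) (Pq.cons (Pq.D 3 (Pq.cons (Pq.D 4 (Pq.cons (Pq.L [0,1] 910 (Pf.C 1 0x5091004006))
 (Pq.cons (Pq.L [0,1] 910 (Pf.C 1 0x5091004006))
 (Pq.cons (Pq.L [0,1] 910 (Pf.C 1 0x5091004006))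
 (Pq.cons (Pq.L [0,1] 910 (Pf.C 1 0x5091004006))
 (Pq.cons (Pq.L [0,1] 910 (Pf.C 1 0x5091004006))
 (Pq.cons (Pq.L [0,4] 910 (Pf.C 1 0x5091010006))
 (Pq.cons (Pq.L [1,4] 910 (Pf.C 1 0x5091010086))
 Pq.nil)))))))) (Pq.cons (Pq.L [1,2,3,4,5] 1023 (Pf.B 10 4 (Pf.C 1 0x409141c304) (Pf.B 10 5 (Pf.B 10 3 (Pf.B 10 2 (Pf.B 10 1 (Pf.C 1 0x403021c30a) (Pf.C 0 0x41008a)) (Pf.C 0 0x61010a)) (Pf.C 0 0xa1018a)) (Pf.C 0 0x1214504))))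
 (Pq.cons (Pq.L [1,4] 1023 (Pf.B 10 1 (Pf.C 1 0x409141c301) (Pf.B 10 4 (Pf.C 1 0x201141c308) (Pf.C 0 0x1210501))))
 (Pq.cons (Pq.L [1,2,3,4] 1023 (Pf.B 10 4 (Pf.C 1 0x409141c304) (Pf.B 10 3 (Pf.B 10 2 (Pf.B 10 1 (Pf.C 1 0x403021c30a) (Pf.C 0 0x41008a)) (Pf.C 0 0x61010a)) (Pf.C 0 0x102418a))))
 (Pq.cons (Pq.L [1,2,3,4] 1023 (Pf.B 10 4 (Pf.C 1 0x409141c304) (Pf.B 10 2 (Pf.B 10 3 (Pf.B 10 1 (Pf.C 1 0x403021c30a) (Pf.C 0 0x41008a)) (Pf.C 0 0x41018a)) (Pf.C 0 0x1208504))))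
 (Pq.cons (Pq.L [1,4] 1023 (Pf.B 10 4 (Pf.C 1 0x409141c304) (Pf.B 10 1 (Pf.C 1 0x84141c308) (Pf.C 0 0x1204504))))
 (Pq.cons (Pq.L [0,1,2,3,4] 1023 (Pf.B 10 4 (Pf.C 1 0x409141c304) (Pf.B 10 1 (Pf.C 1 0x409141c301) (Pf.B 10 3 (Pf.C 0 0x61008a) (Pf.B 10 2 (Pf.C 0 0x40c08a) (Pf.B 10 0 (Pf.C 0 32906) (Pf.C 0 0x1200501)))))))
 Pq.nil)))))))) (Pq.cons (Pq.D 3 (Pq.cons (Pq.D 4 (Pq.cons (Pq.L [0,1] 910 (Pf.C 1 0x5091004006))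
 (Pq.cons (Pq.L [0,1] 910 (Pf.C 1 0x5091004006))
 (Pq.cons (Pq.L [0,1] 910 (Pf.C 1 0x5091004006))
 (Pq.cons (Pq.L [0,1] 910 (Pf.C 1 0x5091004006))
 (Pq.cons (Pq.L [0,1] 910 (Pf.C 1 0x5091004006))
 (Pq.cons (Pq.L [0,3] 910 (Pf.C 1 0x509100c006))
 (Pq.cons (Pq.L [1,3] 910 (Pf.C 1 0x509100c086))
 Pq.nil)))))))) (Pq.cons (Pq.L [3,4,5] 1023 (Pf.B 10 4 (Pf.C 1 0x409141c304) (Pf.B 10 5 (Pf.B 10 3 (Pf.C 1 0x409141c303) (Pf.C 0 0xa1018a)) (Pf.C 0 0x1214504))))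
 (Pq.cons (Pq.L [3,4] 1023 (Pf.B 10 3 (Pf.C 1 0x409141c303) (Pf.B 10 4 (Pf.C 1 0x203141c308) (Pf.C 0 0x1210503))))
 (Pq.cons (Pq.L [3,4] 1023 (Pf.B 10 4 (Pf.C 1 0x409141c304) (Pf.B 10 3 (Pf.C 1 0x184141c308) (Pf.C 0 0x120c504))))
 (Pq.cons (Pq.L [2,3,4] 1023 (Pf.B 10 4 (Pf.C 1 0x409141c304) (Pf.B 10 3 (Pf.C 1 0x409141c303) (Pf.B 10 2 (Pf.C 0 0x41018a) (Pf.C 0 0x102410a)))))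
 (Pq.cons (Pq.L [1,2,3,4] 1023 (Pf.B 10 4 (Pf.C 1 0x409141c304) (Pf.B 10 3 (Pf.C 1 0x409141c303) (Pf.B 10 2 (Pf.C 0 0x41018a) (Pf.B 10 1 (Pf.C 0 0x20c10a) (Pf.C 0 0x1204502))))))
 (Pq.cons (Pq.L [0,1,2,3,4] 1023 (Pf.B 10 4 (Pf.C 1 0x409141c304) (Pf.B 10 3 (Pf.C 1 0x409141c303) (Pf.B 10 2 (Pf.C 0 0x41018a) (Pf.B 10 1 (Pf.C 0 0x20c10a) (Pf.B 10 0 (Pf.C 0 32906) (Pf.C 0 0x1200501)))))))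
 Pq.nil)))))))) (Pq.cons (Pq.D 3 (Pq.cons (Pq.D 4 (Pq.cons (Pq.L [0,3] 910 (Pf.C 1 0x509100c006))
 (Pq.cons (Pq.L [0,3] 910 (Pf.C 1 0x509100c006))
 (Pq.cons (Pq.L [0,3] 910 (Pf.C 1 0x509100c006))
 (Pq.cons (Pq.L [0,4] 910 (Pf.C 1 0x5091010006))
 (Pq.cons (Pq.L [0,3] 910 (Pf.C 1 0x509100c006))
 (Pq.cons (Pq.L [0,3] 910 (Pf.C 1 0x509100c006))
 (Pq.cons (Pq.L [3,4] 910 (Pf.C 1 0x5091010186))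
 Pq.nil)))))))) (Pq.cons (Pq.L [3,4,5] 1023 (Pf.B 10 4 (Pf.C 1 0x409141c304) (Pf.B 10 5 (Pf.B 10 3 (Pf.C 1 0x409141c303) (Pf.C 0 0xa1018a)) (Pf.C 0 0x1214504))))
 (Pq.cons (Pq.L [3,4] 1023 (Pf.B 10 3 (Pf.C 1 0x409141c303) (Pf.B 10 4 (Pf.C 1 0x203141c308) (Pf.C 0 0x1210503))))
 (Pq.cons (Pq.L [3,4] 1023 (Pf.B 10 4 (Pf.C 1 0x409141c304) (Pf.B 10 3 (Pf.C 1 0x184141c308) (Pf.C 0 0x120c504))))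
 (Pq.cons (Pq.L [2,3,4] 1023 (Pf.B 10 4 (Pf.C 1 0x409141c304) (Pf.B 10 3 (Pf.C 1 0x409141c303) (Pf.B 10 2 (Pf.C 0 0x41018a) (Pf.C 0 0x1208503)))))
 (Pq.cons (Pq.L [1,2,3,4] 1023 (Pf.B 10 4 (Pf.C 1 0x409141c304) (Pf.B 10 3 (Pf.C 1 0x409141c303) (Pf.B 10 2 (Pf.C 0 0x41018a) (Pf.B 10 1 (Pf.C 0 0x20c10a) (Pf.C 0 0x102408a))))))
 (Pq.cons (Pq.L [0,1,2,3,4] 1023 (Pf.B 10 4 (Pf.C 1 0x409141c304) (Pf.B 10 3 (Pf.C 1 0x409141c303) (Pf.B 10 2 (Pf.C 0 0x41018a) (Pf.B 10 1 (Pf.C 0 0x20c10a) (Pf.B 10 0 (Pf.C 0 32906) (Pf.C 0 0x1200501)))))))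
 Pq.nil)))))))) (Pq.cons (Pq.D 3 (Pq.cons (Pq.D 4 (Pq.cons (Pq.L [1,3] 910 (Pf.C 1 0x509100c086))
 (Pq.cons (Pq.L [1,3] 910 (Pf.C 1 0x509100c086))
 (Pq.cons (Pq.L [1,3] 910 (Pf.C 1 0x509100c086))
 (Pq.cons (Pq.L [1,4] 910 (Pf.C 1 0x5091010086))
 (Pq.cons (Pq.L [1,3] 910 (Pf.C 1 0x509100c086))
 (Pq.cons (Pq.L [3,4] 910 (Pf.C 1 0x5091010186))
 (Pq.cons (Pq.L [1,3] 910 (Pf.C 1 0x509100c086))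
 Pq.nil)))))))) (Pq.cons (Pq.L [3,4,5] 1023 (Pf.B 10 4 (Pf.C 1 0x409141c304) (Pf.B 10 5 (Pf.B 10 3 (Pf.C 1 0x409141c303) (Pf.C 0 0xa1018a)) (Pf.C 0 0x1214504))))
 (Pq.cons (Pq.L [3,4] 1023 (Pf.B 10 3 (Pf.C 1 0x409141c303) (Pf.B 10 4 (Pf.C 1 0x203141c308) (Pf.C 0 0x1210503))))
 (Pq.cons (Pq.L [3,4] 1023 (Pf.B 10 4 (Pf.C 1 0x409141c304) (Pf.B 10 3 (Pf.C 1 0x184141c308) (Pf.C 0 0x120c504))))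
 (Pq.cons (Pq.L [2,3,4] 1023 (Pf.B 10 4 (Pf.C 1 0x409141c304) (Pf.B 10 3 (Pf.C 1 0x409141c303) (Pf.B 10 2 (Pf.C 0 0x41018a) (Pf.C 0 0x1208503)))))
 (Pq.cons (Pq.L [1,2,3,4] 1023 (Pf.B 10 4 (Pf.C 1 0x409141c304) (Pf.B 10 3 (Pf.C 1 0x409141c303) (Pf.B 10 2 (Pf.C 0 0x41018a) (Pf.B 10 1 (Pf.C 0 0x20c10a) (Pf.C 0 0x1204502))))))
 (Pq.cons (Pq.L [0,1,2,3,4] 1023 (Pf.B 10 4 (Pf.C 1 0x409141c304) (Pf.B 10 3 (Pf.C 1 0x409141c303) (Pf.B 10 2 (Pf.C 0 0x41018a) (Pf.B 10 1 (Pf.C 0 0x20c10a) (Pf.B 10 0 (Pf.C 0 32906) (Pf.C 0 0x102400a)))))))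
 Pq.nil)))))))) Pq.nil)))))))) (Pq.cons (Pq.D 2 (Pq.cons (Pq.D 3 (Pq.cons (Pq.D 4 (Pq.cons (Pq.L [0,1] 910 (Pf.C 1 0x5091004006))
 (Pq.cons (Pq.L [0,1] 910 (Pf.C 1 0x5091004006))
 (Pq.cons (Pq.L [0,1] 910 (Pf.C 1 0x5091004006))
 (Pq.cons (Pq.L [0,1] 910 (Pf.C 1 0x5091004006))
 (Pq.cons (Pq.L [0,1] 910 (Pf.C 1 0x5091004006))
 (Pq.cons (Pq.L [0,3] 910 (Pf.C 1 0x509100c006))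
 (Pq.cons (Pq.L [1,3] 910 (Pf.C 1 0x509100c086))
 Pq.nil)))))))) (Pq.cons (Pq.L [3,5] 1023 (Pf.B 10 3 (Pf.C 1 0x409141c303) (Pf.B 10 5 (Pf.C 1 0x283141c308) (Pf.C 0 0x1214503))))
 (Pq.cons (Pq.L [3,4,5] 1023 (Pf.B 10 5 (Pf.C 1 0x409141c305) (Pf.B 10 4 (Pf.B 10 3 (Pf.C 1 0x409141c303) (Pf.C 0 0x81418a)) (Pf.C 0 0x1210505))))
 (Pq.cons (Pq.L [3,5] 1023 (Pf.B 10 5 (Pf.C 1 0x409141c305) (Pf.B 10 3 (Pf.C 1 0x185141c308) (Pf.C 0 0x120c505))))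
 (Pq.cons (Pq.L [2,3,4,5] 1023 (Pf.B 10 5 (Pf.C 1 0x409141c305) (Pf.B 10 3 (Pf.C 1 0x409141c303) (Pf.B 10 4 (Pf.C 0 0x81418a) (Pf.B 10 2 (Pf.C 0 0x41018a) (Pf.C 0 0x1208503))))))
 (Pq.cons (Pq.L [1,2,3,4,5] 1023 (Pf.B 10 5 (Pf.C 1 0x409141c305) (Pf.B 10 3 (Pf.C 1 0x409141c303) (Pf.B 10 4 (Pf.C 0 0x81418a) (Pf.B 10 2 (Pf.C 0 0x41018a) (Pf.B 10 1 (Pf.C 0 0x20c10a) (Pf.C 0 0x1204502)))))))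
 (Pq.cons (Pq.L [0,1,2,3,4,5] 1023 (Pf.B 10 5 (Pf.C 1 0x409141c305) (Pf.B 10 3 (Pf.C 1 0x409141c303) (Pf.B 10 4 (Pf.C 0 0x81418a) (Pf.B 10 2 (Pf.C 0 0x41018a) (Pf.B 10 1 (Pf.C 0 0x20c10a) (Pf.B 10 0 (Pf.C 0 32906) (Pf.C 0 0x1200501))))))))
 Pq.nil)))))))) (Pq.cons (Pq.D 3 (Pq.cons (Pq.D 4 (Pq.cons (Pq.L [0,1] 910 (Pf.C 1 0x5091004006))
 (Pq.cons (Pq.L [0,1] 910 (Pf.C 1 0x5091004006))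
 (Pq.cons (Pq.L [0,1] 910 (Pf.C 1 0x5091004006))
 (Pq.cons (Pq.L [0,1] 910 (Pf.C 1 0x5091004006))
 (Pq.cons (Pq.L [0,1] 910 (Pf.C 1 0x5091004006))
 (Pq.cons (Pq.L [0,3] 910 (Pf.C 1 0x509100c006))
 (Pq.cons (Pq.L [1,3] 910 (Pf.C 1 0x509100c086))
 Pq.nil)))))))) (Pq.cons (Pq.L [1,2,3,4,5] 987 (Pf.B 10 5 (Pf.B 10 3 (Pf.C 1 0x405061c30a) (Pf.B 10 4 (Pf.B 10 2 (Pf.B 10 1 (Pf.C 1 0x405021c30a) (Pf.C 0 0x40c08a)) (Pf.C 0 0x80c10a)) (Pf.C 0 0xa0c20a))) (Pf.C 0 0x102428a)))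
 (Pq.cons (Pq.L [1,2,3,4,5] 1023 (Pf.B 10 3 (Pf.C 1 0x409141c303) (Pf.B 10 4 (Pf.B 10 5 (Pf.B 10 2 (Pf.B 10 1 (Pf.C 1 0x405021c30a) (Pf.C 0 0x40c08a)) (Pf.C 0 0x80c10a)) (Pf.C 0 0x80c28a)) (Pf.C 0 0x1210503))))
 (Pq.cons (Pq.L [1,3] 1023 (Pf.B 10 1 (Pf.C 1 0x409141c301) (Pf.B 10 3 (Pf.C 1 0x181141c308) (Pf.C 0 0x120c501))))
 (Pq.cons (Pq.L [1,2,3,5] 1023 (Pf.B 10 3 (Pf.C 1 0x409141c303) (Pf.B 10 2 (Pf.B 10 5 (Pf.B 10 1 (Pf.C 1 0x405021c30a) (Pf.C 0 0x40c08a)) (Pf.C 0 0x40c28a)) (Pf.C 0 0x1208503))))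
 (Pq.cons (Pq.L [1,3] 1023 (Pf.B 10 3 (Pf.C 1 0x409141c303) (Pf.B 10 1 (Pf.C 1 0x83141c308) (Pf.C 0 0x1204503))))
 (Pq.cons (Pq.L [0,1,2,3] 1023 (Pf.B 10 3 (Pf.C 1 0x409141c303) (Pf.B 10 1 (Pf.C 1 0x409141c301) (Pf.B 10 2 (Pf.C 0 0x40c08a) (Pf.B 10 0 (Pf.C 0 32906) (Pf.C 0 0x1200501))))))
 Pq.nil)))))))) (Pq.cons (Pq.D 3 (Pq.cons (Pq.D 4 (Pq.cons (Pq.L [0,1] 910 (Pf.C 1 0x5091004006))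
 (Pq.cons (Pq.L [0,1] 910 (Pf.C 1 0x5091004006))
 (Pq.cons (Pq.L [0,1] 910 (Pf.C 1 0x5091004006))
 (Pq.cons (Pq.L [0,1] 910 (Pf.C 1 0x5091004006))
 (Pq.cons (Pq.L [0,1] 910 (Pf.C 1 0x5091004006))
 (Pq.cons (Pq.L [0,3] 910 (Pf.C 1 0x509100c006))
 (Pq.cons (Pq.L [1,3] 910 (Pf.C 1 0x509100c086))
 Pq.nil)))))))) (Pq.cons (Pq.L [3,5] 1023 (Pf.B 10 3 (Pf.C 1 0x409141c303) (Pf.B 10 5 (Pf.C 1 0x283141c308) (Pf.C 0 0x1214503))))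
 (Pq.cons (Pq.L [3,4,5] 1023 (Pf.B 10 5 (Pf.C 1 0x409141c305) (Pf.B 10 4 (Pf.B 10 3 (Pf.C 1 0x409141c303) (Pf.C 0 0x81418a)) (Pf.C 0 0x102420a))))
 (Pq.cons (Pq.L [3,5] 1023 (Pf.B 10 5 (Pf.C 1 0x409141c305) (Pf.B 10 3 (Pf.C 1 0x185141c308) (Pf.C 0 0x120c505))))
 (Pq.cons (Pq.L [2,3,4,5] 1023 (Pf.B 10 5 (Pf.C 1 0x409141c305) (Pf.B 10 3 (Pf.C 1 0x409141c303) (Pf.B 10 4 (Pf.C 0 0x81418a) (Pf.B 10 2 (Pf.C 0 0x41018a) (Pf.C 0 0x1208503))))))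
 (Pq.cons (Pq.L [1,2,3,4,5] 1023 (Pf.B 10 5 (Pf.C 1 0x409141c305) (Pf.B 10 3 (Pf.C 1 0x409141c303) (Pf.B 10 4 (Pf.C 0 0x81418a) (Pf.B 10 2 (Pf.C 0 0x41018a) (Pf.B 10 1 (Pf.C 0 0x20c10a) (Pf.C 0 0x1204502)))))))
 (Pq.cons (Pq.L [0,1,2,3,4,5] 1023 (Pf.B 10 5 (Pf.C 1 0x409141c305) (Pf.B 10 3 (Pf.C 1 0x409141c303) (Pf.B 10 4 (Pf.C 0 0x81418a) (Pf.B 10 2 (Pf.C 0 0x41018a) (Pf.B 10 1 (Pf.C 0 0x20c10a) (Pf.B 10 0 (Pf.C 0 32906) (Pf.C 0 0x1200501))))))))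
 Pq.nil)))))))) (Pq.cons (Pq.D 3 (Pq.cons (Pq.D 4 (Pq.cons (Pq.L [0,1] 910 (Pf.C 1 0x5091004006))
 (Pq.cons (Pq.L [0,1] 910 (Pf.C 1 0x5091004006))
 (Pq.cons (Pq.L [0,1] 910 (Pf.C 1 0x5091004006))
 (Pq.cons (Pq.L [0,1] 910 (Pf.C 1 0x5091004006))
 (Pq.cons (Pq.L [0,1] 910 (Pf.C 1 0x5091004006))
 (Pq.cons (Pq.L [0,4] 910 (Pf.C 1 0x5091010006))
 (Pq.cons (Pq.L [1,4] 910 (Pf.C 1 0x5091010086))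
 Pq.nil)))))))) (Pq.cons (Pq.L [1,5] 1023 (Pf.B 10 1 (Pf.C 1 0x409141c301) (Pf.B 10 5 (Pf.C 1 0x281141c308) (Pf.C 0 0x1214501))))
 (Pq.cons (Pq.L [1,2,3,4,5] 1023 (Pf.B 10 5 (Pf.C 1 0x409141c305) (Pf.B 10 4 (Pf.B 10 3 (Pf.B 10 2 (Pf.B 10 1 (Pf.C 1 0x403021c30a) (Pf.C 0 0x41408a)) (Pf.C 0 0x61410a)) (Pf.C 0 0x81418a)) (Pf.C 0 0x1210505))))
 (Pq.cons (Pq.L [1,2,3,5] 1023 (Pf.B 10 5 (Pf.C 1 0x409141c305) (Pf.B 10 3 (Pf.B 10 2 (Pf.B 10 1 (Pf.C 1 0x403021c30a) (Pf.C 0 0x41408a)) (Pf.C 0 0x61410a)) (Pf.C 0 0x102418a))))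
 (Pq.cons (Pq.L [1,2,3,5] 1023 (Pf.B 10 5 (Pf.C 1 0x409141c305) (Pf.B 10 2 (Pf.B 10 3 (Pf.B 10 1 (Pf.C 1 0x403021c30a) (Pf.C 0 0x41408a)) (Pf.C 0 0x41418a)) (Pf.C 0 0x1208505))))
 (Pq.cons (Pq.L [1,5] 1023 (Pf.B 10 5 (Pf.C 1 0x409141c305) (Pf.B 10 1 (Pf.C 1 0x85141c308) (Pf.C 0 0x1204505))))
 (Pq.cons (Pq.L [0,1,2,3,4,5] 1023 (Pf.B 10 5 (Pf.C 1 0x409141c305) (Pf.B 10 1 (Pf.C 1 0x409141c301) (Pf.B 10 4 (Pf.C 0 0x81408a) (Pf.B 10 3 (Pf.C 0 0x61008a) (Pf.B 10 2 (Pf.C 0 0x40c08a) (Pf.B 10 0 (Pf.C 0 32906) (Pf.C 0 0x1200501))))))))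
 Pq.nil)))))))) (Pq.cons (Pq.D 3 (Pq.cons (Pq.D 4 (Pq.cons (Pq.L [0,1] 910 (Pf.C 1 0x5091004006))
 (Pq.cons (Pq.L [0,1] 910 (Pf.C 1 0x5091004006))
 (Pq.cons (Pq.L [0,1] 910 (Pf.C 1 0x5091004006))
 (Pq.cons (Pq.L [0,1] 910 (Pf.C 1 0x5091004006))
 (Pq.cons (Pq.L [0,1] 910 (Pf.C 1 0x5091004006))
 (Pq.cons (Pq.L [0,3] 910 (Pf.C 1 0x509100c006))
 (Pq.cons (Pq.L [1,3] 910 (Pf.C 1 0x509100c086))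
 Pq.nil)))))))) (Pq.cons (Pq.L [3,5] 1023 (Pf.B 10 3 (Pf.C 1 0x409141c303) (Pf.B 10 5 (Pf.C 1 0x283141c308) (Pf.C 0 0x1214503))))
 (Pq.cons (Pq.L [3,4,5] 1023 (Pf.B 10 5 (Pf.C 1 0x409141c305) (Pf.B 10 4 (Pf.B 10 3 (Pf.C 1 0x409141c303) (Pf.C 0 0x81418a)) (Pf.C 0 0x1210505))))
 (Pq.cons (Pq.L [3,5] 1023 (Pf.B 10 5 (Pf.C 1 0x409141c305) (Pf.B 10 3 (Pf.C 1 0x185141c308) (Pf.C 0 0x120c505))))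
 (Pq.cons (Pq.L [2,3,4,5] 1023 (Pf.B 10 5 (Pf.C 1 0x409141c305) (Pf.B 10 3 (Pf.C 1 0x409141c303) (Pf.B 10 4 (Pf.C 0 0x81418a) (Pf.B 10 2 (Pf.C 0 0x41018a) (Pf.C 0 0x102410a))))))
 (Pq.cons (Pq.L [1,2,3,4,5] 1023 (Pf.B 10 5 (Pf.C 1 0x409141c305) (Pf.B 10 3 (Pf.C 1 0x409141c303) (Pf.B 10 4 (Pf.C 0 0x81418a) (Pf.B 10 2 (Pf.C 0 0x41018a) (Pf.B 10 1 (Pf.C 0 0x20c10a) (Pf.C 0 0x1204502)))))))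
 (Pq.cons (Pq.L [0,1,2,3,4,5] 1023 (Pf.B 10 5 (Pf.C 1 0x409141c305) (Pf.B 10 3 (Pf.C 1 0x409141c303) (Pf.B 10 4 (Pf.C 0 0x81418a) (Pf.B 10 2 (Pf.C 0 0x41018a) (Pf.B 10 1 (Pf.C 0 0x20c10a) (Pf.B 10 0 (Pf.C 0 32906) (Pf.C 0 0x1200501))))))))
 Pq.nil)))))))) (Pq.cons (Pq.D 3 (Pq.cons (Pq.D 4 (Pq.cons (Pq.L [0,3] 910 (Pf.C 1 0x509100c006))
 (Pq.cons (Pq.L [0,3] 910 (Pf.C 1 0x509100c006))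
 (Pq.cons (Pq.L [0,3] 910 (Pf.C 1 0x509100c006))
 (Pq.cons (Pq.L [0,4] 910 (Pf.C 1 0x5091010006))
 (Pq.cons (Pq.L [0,3] 910 (Pf.C 1 0x509100c006))
 (Pq.cons (Pq.L [0,3] 910 (Pf.C 1 0x509100c006))
 (Pq.cons (Pq.L [3,4] 910 (Pf.C 1 0x5091010186))
 Pq.nil)))))))) (Pq.cons (Pq.L [3,5] 1023 (Pf.B 10 3 (Pf.C 1 0x409141c303) (Pf.B 10 5 (Pf.C 1 0x283141c308) (Pf.C 0 0x1214503))))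
 (Pq.cons (Pq.L [3,4,5] 1023 (Pf.B 10 5 (Pf.C 1 0x409141c305) (Pf.B 10 4 (Pf.B 10 3 (Pf.C 1 0x409141c303) (Pf.C 0 0x81418a)) (Pf.C 0 0x1210505))))
 (Pq.cons (Pq.L [3,5] 1023 (Pf.B 10 5 (Pf.C 1 0x409141c305) (Pf.B 10 3 (Pf.C 1 0x185141c308) (Pf.C 0 0x120c505))))
 (Pq.cons (Pq.L [2,3,4,5] 1023 (Pf.B 10 5 (Pf.C 1 0x409141c305) (Pf.B 10 3 (Pf.C 1 0x409141c303) (Pf.B 10 4 (Pf.C 0 0x81418a) (Pf.B 10 2 (Pf.C 0 0x41018a) (Pf.C 0 0x1208503))))))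
 (Pq.cons (Pq.L [1,2,3,4,5] 1023 (Pf.B 10 5 (Pf.C 1 0x409141c305) (Pf.B 10 3 (Pf.C 1 0x409141c303) (Pf.B 10 4 (Pf.C 0 0x81418a) (Pf.B 10 2 (Pf.C 0 0x41018a) (Pf.B 10 1 (Pf.C 0 0x20c10a) (Pf.C 0 0x102408a)))))))
 (Pq.cons (Pq.L [0,1,2,3,4,5] 1023 (Pf.B 10 5 (Pf.C 1 0x409141c305) (Pf.B 10 3 (Pf.C 1 0x409141c303) (Pf.B 10 4 (Pf.C 0 0x81418a) (Pf.B 10 2 (Pf.C 0 0x41018a) (Pf.B 10 1 (Pf.C 0 0x20c10a) (Pf.B 10 0 (Pf.C 0 32906) (Pf.C 0 0x1200501))))))))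
 Pq.nil)))))))) (Pq.cons (Pq.D 3 (Pq.cons (Pq.D 4 (Pq.cons (Pq.L [1,3] 910 (Pf.C 1 0x509100c086))
 (Pq.cons (Pq.L [1,3] 910 (Pf.C 1 0x509100c086))
 (Pq.cons (Pq.L [1,3] 910 (Pf.C 1 0x509100c086))
 (Pq.cons (Pq.L [1,4] 910 (Pf.C 1 0x5091010086))
 (Pq.cons (Pq.L [1,3] 910 (Pf.C 1 0x509100c086))
 (Pq.cons (Pq.L [3,4] 910 (Pf.C 1 0x5091010186))
 (Pq.cons (Pq.L [1,3] 910 (Pf.C 1 0x509100c086))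
 Pq.nil)))))))) (Pq.cons (Pq.L [3,5] 1023 (Pf.B 10 3 (Pf.C 1 0x409141c303) (Pf.B 10 5 (Pf.C 1 0x283141c308) (Pf.C 0 0x1214503))))
 (Pq.cons (Pq.L [3,4,5] 1023 (Pf.B 10 5 (Pf.C 1 0x409141c305) (Pf.B 10 4 (Pf.B 10 3 (Pf.C 1 0x409141c303) (Pf.C 0 0x81418a)) (Pf.C 0 0x1210505))))
 (Pq.cons (Pq.L [3,5] 1023 (Pf.B 10 5 (Pf.C 1 0x409141c305) (Pf.B 10 3 (Pf.C 1 0x185141c308) (Pf.C 0 0x120c505))))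
 (Pq.cons (Pq.L [2,3,4,5] 1023 (Pf.B 10 5 (Pf.C 1 0x409141c305) (Pf.B 10 3 (Pf.C 1 0x409141c303) (Pf.B 10 4 (Pf.C 0 0x81418a) (Pf.B 10 2 (Pf.C 0 0x41018a) (Pf.C 0 0x1208503))))))
 (Pq.cons (Pq.L [1,2,3,4,5] 1023 (Pf.B 10 5 (Pf.C 1 0x409141c305) (Pf.B 10 3 (Pf.C 1 0x409141c303) (Pf.B 10 4 (Pf.C 0 0x81418a) (Pf.B 10 2 (Pf.C 0 0x41018a) (Pf.B 10 1 (Pf.C 0 0x20c10a) (Pf.C 0 0x1204502)))))))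
 (Pq.cons (Pq.L [0,1,2,3,4,5] 1023 (Pf.B 10 5 (Pf.C 1 0x409141c305) (Pf.B 10 3 (Pf.C 1 0x409141c303) (Pf.B 10 4 (Pf.C 0 0x81418a) (Pf.B 10 2 (Pf.C 0 0x41018a) (Pf.B 10 1 (Pf.C 0 0x20c10a) (Pf.B 10 0 (Pf.C 0 32906) (Pf.C 0 0x102400a))))))))
 Pq.nil)))))))) Pq.nil)))))))) Pq.nil)))
theorem e_o16 : AllRef e_T e_G4 (List.take 3 (List.flatMap (splitP 1) (List.take 1 (List.drop 1 (List.drop 3 (List.flatMap (splitP 0) [⟨[[5,6,7,8,9,10,11],[5,6,7,8,9,10,11],[5,6,7,8,9,10,11],[5,6,7,8,9,10,11],[5,6,7,8,9,10,11]],[⟨0,1,true⟩,⟨0,2,false⟩,⟨0,3,false⟩,⟨0,4,false⟩,⟨1,2,false⟩,⟨1,3,false⟩,⟨1,4,false⟩,⟨2,3,true⟩,⟨2,4,false⟩,⟨3,4,true⟩],[],[]⟩])))))) :=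
  chkPq_sound e_o16c _ (by decide +kernel)
noncomputable def e_o17c : Pq := (Pq.cons (Pq.D 2 (Pq.cons (Pq.D 3 (Pq.cons (Pq.D 4 (Pq.cons (Pq.L [0,1] 910 (Pf.C 1 0x5091004006))
 (Pq.cons (Pq.L [0,1] 910 (Pf.C 1 0x5091004006))
 (Pq.cons (Pq.L [0,1] 910 (Pf.C 1 0x5091004006))
 (Pq.cons (Pq.L [0,1] 910 (Pf.C 1 0x5091004006))
 (Pq.cons (Pq.L [0,1] 910 (Pf.C 1 0x5091004006))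
 (Pq.cons (Pq.L [0,3] 910 (Pf.C 1 0x509100c006))
 (Pq.cons (Pq.L [1,3] 910 (Pf.C 1 0x509100c086))
 Pq.nil)))))))) (Pq.cons (Pq.L [4,5] 1023 (Pf.B 10 4 (Pf.C 1 0x409141c304) (Pf.B 10 5 (Pf.C 1 0x284141c308) (Pf.C 0 0x1214504))))
 (Pq.cons (Pq.L [4,5] 1023 (Pf.B 10 5 (Pf.C 1 0x409141c305) (Pf.B 10 4 (Pf.C 1 0x205141c308) (Pf.C 0 0x1210505))))
 (Pq.cons (Pq.L [3,4,5] 1023 (Pf.B 10 5 (Pf.C 1 0x409141c305) (Pf.B 10 4 (Pf.C 1 0x409141c304) (Pf.B 10 3 (Pf.C 0 0x61420a) (Pf.C 0 0x120c504)))))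
 (Pq.cons (Pq.L [2,3,4,5] 1023 (Pf.B 10 5 (Pf.C 1 0x409141c305) (Pf.B 10 4 (Pf.C 1 0x409141c304) (Pf.B 10 3 (Pf.C 0 0x61420a) (Pf.B 10 2 (Pf.C 0 0x41018a) (Pf.C 0 0x1208503))))))
 (Pq.cons (Pq.L [1,2,3,4,5] 1023 (Pf.B 10 5 (Pf.C 1 0x409141c305) (Pf.B 10 4 (Pf.C 1 0x409141c304) (Pf.B 10 3 (Pf.C 0 0x61420a) (Pf.B 10 2 (Pf.C 0 0x41018a) (Pf.B 10 1 (Pf.C 0 0x20c10a) (Pf.C 0 0x1204502)))))))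
 (Pq.cons (Pq.L [0,1,2,3,4,5] 1023 (Pf.B 10 5 (Pf.C 1 0x409141c305) (Pf.B 10 4 (Pf.C 1 0x409141c304) (Pf.B 10 3 (Pf.C 0 0x61420a) (Pf.B 10 2 (Pf.C 0 0x41018a) (Pf.B 10 1 (Pf.C 0 0x20c10a) (Pf.B 10 0 (Pf.C 0 32906) (Pf.C 0 0x1200501))))))))
 Pq.nil)))))))) (Pq.cons (Pq.D 3 (Pq.cons (Pq.D 4 (Pq.cons (Pq.L [0,1] 910 (Pf.C 1 0x5091004006))
 (Pq.cons (Pq.L [0,1] 910 (Pf.C 1 0x5091004006))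
 (Pq.cons (Pq.L [0,1] 910 (Pf.C 1 0x5091004006))
 (Pq.cons (Pq.L [0,1] 910 (Pf.C 1 0x5091004006))
 (Pq.cons (Pq.L [0,1] 910 (Pf.C 1 0x5091004006))
 (Pq.cons (Pq.L [0,3] 910 (Pf.C 1 0x509100c006))
 (Pq.cons (Pq.L [1,3] 910 (Pf.C 1 0x509100c086))
 Pq.nil)))))))) (Pq.cons (Pq.L [1,2,3,4,5] 987 (Pf.B 10 5 (Pf.B 10 4 (Pf.C 1 0x405081c30a) (Pf.B 10 3 (Pf.B 10 2 (Pf.B 10 1 (Pf.C 1 0x405021c30a) (Pf.C 0 0x41008a)) (Pf.C 0 0x61010a)) (Pf.C 0 0xa1018a))) (Pf.C 0 0x102428a)))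
 (Pq.cons (Pq.L [1,4] 1023 (Pf.B 10 1 (Pf.C 1 0x409141c301) (Pf.B 10 4 (Pf.C 1 0x201141c308) (Pf.C 0 0x1210501))))
 (Pq.cons (Pq.L [1,2,3,4,5] 1023 (Pf.B 10 4 (Pf.C 1 0x409141c304) (Pf.B 10 3 (Pf.B 10 5 (Pf.B 10 2 (Pf.B 10 1 (Pf.C 1 0x405021c30a) (Pf.C 0 0x41008a)) (Pf.C 0 0x61010a)) (Pf.C 0 0x61028a)) (Pf.C 0 0x120c504))))
 (Pq.cons (Pq.L [1,2,4,5] 1023 (Pf.B 10 4 (Pf.C 1 0x409141c304) (Pf.B 10 2 (Pf.B 10 5 (Pf.B 10 1 (Pf.C 1 0x405021c30a) (Pf.C 0 0x41008a)) (Pf.C 0 0x41028a)) (Pf.C 0 0x1208504))))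
 (Pq.cons (Pq.L [1,4] 1023 (Pf.B 10 4 (Pf.C 1 0x409141c304) (Pf.B 10 1 (Pf.C 1 0x84141c308) (Pf.C 0 0x1204504))))
 (Pq.cons (Pq.L [0,1,2,3,4] 1023 (Pf.B 10 4 (Pf.C 1 0x409141c304) (Pf.B 10 1 (Pf.C 1 0x409141c301) (Pf.B 10 3 (Pf.C 0 0x61008a) (Pf.B 10 2 (Pf.C 0 0x40c08a) (Pf.B 10 0 (Pf.C 0 32906) (Pf.C 0 0x1200501)))))))
 Pq.nil)))))))) (Pq.cons (Pq.D 3 (Pq.cons (Pq.D 4 (Pq.cons (Pq.L [0,1] 910 (Pf.C 1 0x5091004006))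
 (Pq.cons (Pq.L [0,1] 910 (Pf.C 1 0x5091004006))
 (Pq.cons (Pq.L [0,1] 910 (Pf.C 1 0x5091004006))
 (Pq.cons (Pq.L [0,1] 910 (Pf.C 1 0x5091004006))
 (Pq.cons (Pq.L [0,1] 910 (Pf.C 1 0x5091004006))
 (Pq.cons (Pq.L [0,3] 910 (Pf.C 1 0x509100c006))
 (Pq.cons (Pq.L [1,3] 910 (Pf.C 1 0x509100c086))
 Pq.nil)))))))) (Pq.cons (Pq.L [1,5] 1023 (Pf.B 10 1 (Pf.C 1 0x409141c301) (Pf.B 10 5 (Pf.C 1 0x281141c308) (Pf.C 0 0x1214501))))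
 (Pq.cons (Pq.L [1,2,3,4,5] 1023 (Pf.B 10 5 (Pf.C 1 0x409141c305) (Pf.B 10 4 (Pf.B 10 3 (Pf.B 10 2 (Pf.B 10 1 (Pf.C 1 0x404021c30a) (Pf.C 0 0x41408a)) (Pf.C 0 0x61410a)) (Pf.C 0 0x81418a)) (Pf.C 0 0x102420a))))
 (Pq.cons (Pq.L [1,2,3,4,5] 1023 (Pf.B 10 5 (Pf.C 1 0x409141c305) (Pf.B 10 3 (Pf.B 10 4 (Pf.B 10 2 (Pf.B 10 1 (Pf.C 1 0x404021c30a) (Pf.C 0 0x41408a)) (Pf.C 0 0x61410a)) (Pf.C 0 0x61420a)) (Pf.C 0 0x120c505))))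
 (Pq.cons (Pq.L [1,2,4,5] 1023 (Pf.B 10 5 (Pf.C 1 0x409141c305) (Pf.B 10 2 (Pf.B 10 4 (Pf.B 10 1 (Pf.C 1 0x404021c30a) (Pf.C 0 0x41408a)) (Pf.C 0 0x41420a)) (Pf.C 0 0x1208505))))
 (Pq.cons (Pq.L [1,5] 1023 (Pf.B 10 5 (Pf.C 1 0x409141c305) (Pf.B 10 1 (Pf.C 1 0x85141c308) (Pf.C 0 0x1204505))))
 (Pq.cons (Pq.L [0,1,2,3,4,5] 1023 (Pf.B 10 5 (Pf.C 1 0x409141c305) (Pf.B 10 1 (Pf.C 1 0x409141c301) (Pf.B 10 4 (Pf.C 0 0x81408a) (Pf.B 10 3 (Pf.C 0 0x61008a) (Pf.B 10 2 (Pf.C 0 0x40c08a) (Pf.B 10 0 (Pf.C 0 32906) (Pf.C 0 0x1200501))))))))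
 Pq.nil)))))))) (Pq.cons (Pq.D 3 (Pq.cons (Pq.D 4 (Pq.cons (Pq.L [0,1] 910 (Pf.C 1 0x5091004006))
 (Pq.cons (Pq.L [0,1] 910 (Pf.C 1 0x5091004006))
 (Pq.cons (Pq.L [0,1] 910 (Pf.C 1 0x5091004006))
 (Pq.cons (Pq.L [0,1] 910 (Pf.C 1 0x5091004006))
 (Pq.cons (Pq.L [0,1] 910 (Pf.C 1 0x5091004006))
 (Pq.cons (Pq.L [0,4] 910 (Pf.C 1 0x5091010006))
 (Pq.cons (Pq.L [1,4] 910 (Pf.C 1 0x5091010086))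
 Pq.nil)))))))) (Pq.cons (Pq.L [4,5] 1023 (Pf.B 10 4 (Pf.C 1 0x409141c304) (Pf.B 10 5 (Pf.C 1 0x284141c308) (Pf.C 0 0x1214504))))
 (Pq.cons (Pq.L [4,5] 1023 (Pf.B 10 5 (Pf.C 1 0x409141c305) (Pf.B 10 4 (Pf.C 1 0x205141c308) (Pf.C 0 0x1210505))))
 (Pq.cons (Pq.L [3,4,5] 1023 (Pf.B 10 5 (Pf.C 1 0x409141c305) (Pf.B 10 4 (Pf.C 1 0x409141c304) (Pf.B 10 3 (Pf.C 0 0x61420a) (Pf.C 0 0x102418a)))))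
 (Pq.cons (Pq.L [2,3,4,5] 1023 (Pf.B 10 5 (Pf.C 1 0x409141c305) (Pf.B 10 4 (Pf.C 1 0x409141c304) (Pf.B 10 3 (Pf.C 0 0x61420a) (Pf.B 10 2 (Pf.C 0 0x41018a) (Pf.C 0 0x1208503))))))
 (Pq.cons (Pq.L [1,2,3,4,5] 1023 (Pf.B 10 5 (Pf.C 1 0x409141c305) (Pf.B 10 4 (Pf.C 1 0x409141c304) (Pf.B 10 3 (Pf.C 0 0x61420a) (Pf.B 10 2 (Pf.C 0 0x41018a) (Pf.B 10 1 (Pf.C 0 0x20c10a) (Pf.C 0 0x1204502)))))))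
 (Pq.cons (Pq.L [0,1,2,3,4,5] 1023 (Pf.B 10 5 (Pf.C 1 0x409141c305) (Pf.B 10 4 (Pf.C 1 0x409141c304) (Pf.B 10 3 (Pf.C 0 0x61420a) (Pf.B 10 2 (Pf.C 0 0x41018a) (Pf.B 10 1 (Pf.C 0 0x20c10a) (Pf.B 10 0 (Pf.C 0 32906) (Pf.C 0 0x1200501))))))))
 Pq.nil)))))))) (Pq.cons (Pq.D 3 (Pq.cons (Pq.D 4 (Pq.cons (Pq.L [0,1] 910 (Pf.C 1 0x5091004006))
 (Pq.cons (Pq.L [0,1] 910 (Pf.C 1 0x5091004006))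
 (Pq.cons (Pq.L [0,1] 910 (Pf.C 1 0x5091004006))
 (Pq.cons (Pq.L [0,1] 910 (Pf.C 1 0x5091004006))
 (Pq.cons (Pq.L [0,1] 910 (Pf.C 1 0x5091004006))
 (Pq.cons (Pq.L [0,3] 910 (Pf.C 1 0x509100c006))
 (Pq.cons (Pq.L [1,3] 910 (Pf.C 1 0x509100c086))
 Pq.nil)))))))) (Pq.cons (Pq.L [4,5] 1023 (Pf.B 10 4 (Pf.C 1 0x409141c304) (Pf.B 10 5 (Pf.C 1 0x284141c308) (Pf.C 0 0x1214504))))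
 (Pq.cons (Pq.L [4,5] 1023 (Pf.B 10 5 (Pf.C 1 0x409141c305) (Pf.B 10 4 (Pf.C 1 0x205141c308) (Pf.C 0 0x1210505))))
 (Pq.cons (Pq.L [3,4,5] 1023 (Pf.B 10 5 (Pf.C 1 0x409141c305) (Pf.B 10 4 (Pf.C 1 0x409141c304) (Pf.B 10 3 (Pf.C 0 0x61420a) (Pf.C 0 0x120c504)))))
 (Pq.cons (Pq.L [2,3,4,5] 1023 (Pf.B 10 5 (Pf.C 1 0x409141c305) (Pf.B 10 4 (Pf.C 1 0x409141c304) (Pf.B 10 3 (Pf.C 0 0x61420a) (Pf.B 10 2 (Pf.C 0 0x41018a) (Pf.C 0 0x102410a))))))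
 (Pq.cons (Pq.L [1,2,3,4,5] 1023 (Pf.B 10 5 (Pf.C 1 0x409141c305) (Pf.B 10 4 (Pf.C 1 0x409141c304) (Pf.B 10 3 (Pf.C 0 0x61420a) (Pf.B 10 2 (Pf.C 0 0x41018a) (Pf.B 10 1 (Pf.C 0 0x20c10a) (Pf.C 0 0x1204502)))))))
 (Pq.cons (Pq.L [0,1,2,3,4,5] 1023 (Pf.B 10 5 (Pf.C 1 0x409141c305) (Pf.B 10 4 (Pf.C 1 0x409141c304) (Pf.B 10 3 (Pf.C 0 0x61420a) (Pf.B 10 2 (Pf.C 0 0x41018a) (Pf.B 10 1 (Pf.C 0 0x20c10a) (Pf.B 10 0 (Pf.C 0 32906) (Pf.C 0 0x1200501))))))))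
 Pq.nil)))))))) (Pq.cons (Pq.D 3 (Pq.cons (Pq.D 4 (Pq.cons (Pq.L [0,3] 910 (Pf.C 1 0x509100c006))
 (Pq.cons (Pq.L [0,3] 910 (Pf.C 1 0x509100c006))
 (Pq.cons (Pq.L [0,3] 910 (Pf.C 1 0x509100c006))
 (Pq.cons (Pq.L [0,4] 910 (Pf.C 1 0x5091010006))
 (Pq.cons (Pq.L [0,3] 910 (Pf.C 1 0x509100c006))
 (Pq.cons (Pq.L [0,3] 910 (Pf.C 1 0x509100c006))
 (Pq.cons (Pq.L [3,4] 910 (Pf.C 1 0x5091010186))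
 Pq.nil)))))))) (Pq.cons (Pq.L [4,5] 1023 (Pf.B 10 4 (Pf.C 1 0x409141c304) (Pf.B 10 5 (Pf.C 1 0x284141c308) (Pf.C 0 0x1214504))))
 (Pq.cons (Pq.L [4,5] 1023 (Pf.B 10 5 (Pf.C 1 0x409141c305) (Pf.B 10 4 (Pf.C 1 0x205141c308) (Pf.C 0 0x1210505))))
 (Pq.cons (Pq.L [3,4,5] 1023 (Pf.B 10 5 (Pf.C 1 0x409141c305) (Pf.B 10 4 (Pf.C 1 0x409141c304) (Pf.B 10 3 (Pf.C 0 0x61420a) (Pf.C 0 0x120c504)))))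
 (Pq.cons (Pq.L [2,3,4,5] 1023 (Pf.B 10 5 (Pf.C 1 0x409141c305) (Pf.B 10 4 (Pf.C 1 0x409141c304) (Pf.B 10 3 (Pf.C 0 0x61420a) (Pf.B 10 2 (Pf.C 0 0x41018a) (Pf.C 0 0x1208503))))))
 (Pq.cons (Pq.L [1,2,3,4,5] 1023 (Pf.B 10 5 (Pf.C 1 0x409141c305) (Pf.B 10 4 (Pf.C 1 0x409141c304) (Pf.B 10 3 (Pf.C 0 0x61420a) (Pf.B 10 2 (Pf.C 0 0x41018a) (Pf.B 10 1 (Pf.C 0 0x20c10a) (Pf.C 0 0x102408a)))))))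
 (Pq.cons (Pq.L [0,1,2,3,4,5] 1023 (Pf.B 10 5 (Pf.C 1 0x409141c305) (Pf.B 10 4 (Pf.C 1 0x409141c304) (Pf.B 10 3 (Pf.C 0 0x61420a) (Pf.B 10 2 (Pf.C 0 0x41018a) (Pf.B 10 1 (Pf.C 0 0x20c10a) (Pf.B 10 0 (Pf.C 0 32906) (Pf.C 0 0x1200501))))))))
 Pq.nil)))))))) (Pq.cons (Pq.D 3 (Pq.cons (Pq.D 4 (Pq.cons (Pq.L [1,3] 910 (Pf.C 1 0x509100c086))
 (Pq.cons (Pq.L [1,3] 910 (Pf.C 1 0x509100c086))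
 (Pq.cons (Pq.L [1,3] 910 (Pf.C 1 0x509100c086))
 (Pq.cons (Pq.L [1,4] 910 (Pf.C 1 0x5091010086))
 (Pq.cons (Pq.L [1,3] 910 (Pf.C 1 0x509100c086))
 (Pq.cons (Pq.L [3,4] 910 (Pf.C 1 0x5091010186))
 (Pq.cons (Pq.L [1,3] 910 (Pf.C 1 0x509100c086))
 Pq.nil)))))))) (Pq.cons (Pq.L [4,5] 1023 (Pf.B 10 4 (Pf.C 1 0x409141c304) (Pf.B 10 5 (Pf.C 1 0x284141c308) (Pf.C 0 0x1214504))))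
 (Pq.cons (Pq.L [4,5] 1023 (Pf.B 10 5 (Pf.C 1 0x409141c305) (Pf.B 10 4 (Pf.C 1 0x205141c308) (Pf.C 0 0x1210505))))
 (Pq.cons (Pq.L [3,4,5] 1023 (Pf.B 10 5 (Pf.C 1 0x409141c305) (Pf.B 10 4 (Pf.C 1 0x409141c304) (Pf.B 10 3 (Pf.C 0 0x61420a) (Pf.C 0 0x120c504)))))
 (Pq.cons (Pq.L [2,3,4,5] 1023 (Pf.B 10 5 (Pf.C 1 0x409141c305) (Pf.B 10 4 (Pf.C 1 0x409141c304) (Pf.B 10 3 (Pf.C 0 0x61420a) (Pf.B 10 2 (Pf.C 0 0x41018a) (Pf.C 0 0x1208503))))))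
 (Pq.cons (Pq.L [1,2,3,4,5] 1023 (Pf.B 10 5 (Pf.C 1 0x409141c305) (Pf.B 10 4 (Pf.C 1 0x409141c304) (Pf.B 10 3 (Pf.C 0 0x61420a) (Pf.B 10 2 (Pf.C 0 0x41018a) (Pf.B 10 1 (Pf.C 0 0x20c10a) (Pf.C 0 0x1204502)))))))
 (Pq.cons (Pq.L [0,1,2,3,4,5] 1023 (Pf.B 10 5 (Pf.C 1 0x409141c305) (Pf.B 10 4 (Pf.C 1 0x409141c304) (Pf.B 10 3 (Pf.C 0 0x61420a) (Pf.B 10 2 (Pf.C 0 0x41018a) (Pf.B 10 1 (Pf.C 0 0x20c10a) (Pf.B 10 0 (Pf.C 0 32906) (Pf.C 0 0x102400a))))))))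
 Pq.nil)))))))) Pq.nil)))))))) Pq.nil)
theorem e_o17 : AllRef e_T e_G4 (List.take 1 (List.drop 3 (List.flatMap (splitP 1) (List.take 1 (List.drop 1 (List.drop 3 (List.flatMap (splitP 0) [⟨[[5,6,7,8,9,10,11],[5,6,7,8,9,10,11],[5,6,7,8,9,10,11],[5,6,7,8,9,10,11],[5,6,7,8,9,10,11]],[⟨0,1,true⟩,⟨0,2,false⟩,⟨0,3,false⟩,⟨0,4,false⟩,⟨1,2,false⟩,⟨1,3,false⟩,⟨1,4,false⟩,⟨2,3,true⟩,⟨2,4,false⟩,⟨3,4,true⟩],[],[]⟩]))))))) :=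
  chkPq_sound e_o17c _ (by decide +kernel)
noncomputable def e_o18c : Pq := (Pq.cons (Pq.D 2 (Pq.cons (Pq.D 3 (Pq.cons (Pq.D 4 (Pq.cons (Pq.L [0,1] 910 (Pf.C 1 0x5091004006))
 (Pq.cons (Pq.L [0,1] 910 (Pf.C 1 0x5091004006))
 (Pq.cons (Pq.L [0,1] 910 (Pf.C 1 0x5091004006))
 (Pq.cons (Pq.L [0,1] 910 (Pf.C 1 0x5091004006))
 (Pq.cons (Pq.L [0,1] 910 (Pf.C 1 0x5091004006))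
 (Pq.cons (Pq.L [0,3] 910 (Pf.C 1 0x509100c006))
 (Pq.cons (Pq.L [1,3] 910 (Pf.C 1 0x509100c086))
 Pq.nil)))))))) (Pq.cons (Pq.L [4,5] 1023 (Pf.B 10 4 (Pf.C 1 0x409141c304) (Pf.B 10 5 (Pf.C 1 0x284141c308) (Pf.C 0 0x1214504))))
 (Pq.cons (Pq.L [4,5] 1023 (Pf.B 10 5 (Pf.C 1 0x409141c305) (Pf.B 10 4 (Pf.C 1 0x205141c308) (Pf.C 0 0x1210505))))
 (Pq.cons (Pq.L [3,4,5] 1023 (Pf.B 10 5 (Pf.C 1 0x409141c305) (Pf.B 10 4 (Pf.C 1 0x409141c304) (Pf.B 10 3 (Pf.C 0 0x61420a) (Pf.C 0 0x120c504)))))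
 (Pq.cons (Pq.L [2,3,4,5] 1023 (Pf.B 10 5 (Pf.C 1 0x409141c305) (Pf.B 10 4 (Pf.C 1 0x409141c304) (Pf.B 10 3 (Pf.C 0 0x61420a) (Pf.B 10 2 (Pf.C 0 0x41018a) (Pf.C 0 0x1208503))))))
 (Pq.cons (Pq.L [1,2,3,4,5] 1023 (Pf.B 10 5 (Pf.C 1 0x409141c305) (Pf.B 10 4 (Pf.C 1 0x409141c304) (Pf.B 10 3 (Pf.C 0 0x61420a) (Pf.B 10 2 (Pf.C 0 0x41018a) (Pf.B 10 1 (Pf.C 0 0x20c10a) (Pf.C 0 0x1204502)))))))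
 (Pq.cons (Pq.L [0,1,2,3,4,5] 1023 (Pf.B 10 5 (Pf.C 1 0x409141c305) (Pf.B 10 4 (Pf.C 1 0x409141c304) (Pf.B 10 3 (Pf.C 0 0x61420a) (Pf.B 10 2 (Pf.C 0 0x41018a) (Pf.B 10 1 (Pf.C 0 0x20c10a) (Pf.B 10 0 (Pf.C 0 32906) (Pf.C 0 0x1200501))))))))
 Pq.nil)))))))) (Pq.cons (Pq.D 3 (Pq.cons (Pq.D 4 (Pq.cons (Pq.L [0,1] 910 (Pf.C 1 0x5091004006))
 (Pq.cons (Pq.L [0,1] 910 (Pf.C 1 0x5091004006))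
 (Pq.cons (Pq.L [0,1] 910 (Pf.C 1 0x5091004006))
 (Pq.cons (Pq.L [0,1] 910 (Pf.C 1 0x5091004006))
 (Pq.cons (Pq.L [0,1] 910 (Pf.C 1 0x5091004006))
 (Pq.cons (Pq.L [0,3] 910 (Pf.C 1 0x509100c006))
 (Pq.cons (Pq.L [1,3] 910 (Pf.C 1 0x509100c086))
 Pq.nil)))))))) (Pq.cons (Pq.L [3,4,5] 987 (Pf.B 10 5 (Pf.B 10 4 (Pf.C 1 0x405081c30a) (Pf.B 10 3 (Pf.C 1 0x405061c30a) (Pf.C 0 0xa1018a))) (Pf.C 0 0x102428a)))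
 (Pq.cons (Pq.L [3,4] 1023 (Pf.B 10 3 (Pf.C 1 0x409141c303) (Pf.B 10 4 (Pf.C 1 0x203141c308) (Pf.C 0 0x1210503))))
 (Pq.cons (Pq.L [3,4] 1023 (Pf.B 10 4 (Pf.C 1 0x409141c304) (Pf.B 10 3 (Pf.C 1 0x184141c308) (Pf.C 0 0x120c504))))
 (Pq.cons (Pq.L [2,3,4] 1023 (Pf.B 10 4 (Pf.C 1 0x409141c304) (Pf.B 10 3 (Pf.C 1 0x409141c303) (Pf.B 10 2 (Pf.C 0 0x41018a) (Pf.C 0 0x1208503)))))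
 (Pq.cons (Pq.L [1,2,3,4] 1023 (Pf.B 10 4 (Pf.C 1 0x409141c304) (Pf.B 10 3 (Pf.C 1 0x409141c303) (Pf.B 10 2 (Pf.C 0 0x41018a) (Pf.B 10 1 (Pf.C 0 0x20c10a) (Pf.C 0 0x1204502))))))
 (Pq.cons (Pq.L [0,1,2,3,4] 1023 (Pf.B 10 4 (Pf.C 1 0x409141c304) (Pf.B 10 3 (Pf.C 1 0x409141c303) (Pf.B 10 2 (Pf.C 0 0x41018a) (Pf.B 10 1 (Pf.C 0 0x20c10a) (Pf.B 10 0 (Pf.C 0 32906) (Pf.C 0 0x1200501)))))))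
 Pq.nil)))))))) (Pq.cons (Pq.D 3 (Pq.cons (Pq.D 4 (Pq.cons (Pq.L [0,1] 910 (Pf.C 1 0x5091004006))
 (Pq.cons (Pq.L [0,1] 910 (Pf.C 1 0x5091004006))
 (Pq.cons (Pq.L [0,1] 910 (Pf.C 1 0x5091004006))
 (Pq.cons (Pq.L [0,1] 910 (Pf.C 1 0x5091004006))
 (Pq.cons (Pq.L [0,1] 910 (Pf.C 1 0x5091004006))
 (Pq.cons (Pq.L [0,3] 910 (Pf.C 1 0x509100c006))
 (Pq.cons (Pq.L [1,3] 910 (Pf.C 1 0x509100c086))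
 Pq.nil)))))))) (Pq.cons (Pq.L [3,5] 1023 (Pf.B 10 3 (Pf.C 1 0x409141c303) (Pf.B 10 5 (Pf.C 1 0x283141c308) (Pf.C 0 0x1214503))))
 (Pq.cons (Pq.L [3,4,5] 1023 (Pf.B 10 5 (Pf.C 1 0x409141c305) (Pf.B 10 4 (Pf.B 10 3 (Pf.C 1 0x404061c30a) (Pf.C 0 0x81418a)) (Pf.C 0 0x102420a))))
 (Pq.cons (Pq.L [3,5] 1023 (Pf.B 10 5 (Pf.C 1 0x409141c305) (Pf.B 10 3 (Pf.C 1 0x185141c308) (Pf.C 0 0x120c505))))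
 (Pq.cons (Pq.L [2,3,4,5] 1023 (Pf.B 10 5 (Pf.C 1 0x409141c305) (Pf.B 10 3 (Pf.C 1 0x409141c303) (Pf.B 10 4 (Pf.C 0 0x81418a) (Pf.B 10 2 (Pf.C 0 0x41018a) (Pf.C 0 0x1208503))))))
 (Pq.cons (Pq.L [1,2,3,4,5] 1023 (Pf.B 10 5 (Pf.C 1 0x409141c305) (Pf.B 10 3 (Pf.C 1 0x409141c303) (Pf.B 10 4 (Pf.C 0 0x81418a) (Pf.B 10 2 (Pf.C 0 0x41018a) (Pf.B 10 1 (Pf.C 0 0x20c10a) (Pf.C 0 0x1204502)))))))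
 (Pq.cons (Pq.L [0,1,2,3,4,5] 1023 (Pf.B 10 5 (Pf.C 1 0x409141c305) (Pf.B 10 3 (Pf.C 1 0x409141c303) (Pf.B 10 4 (Pf.C 0 0x81418a) (Pf.B 10 2 (Pf.C 0 0x41018a) (Pf.B 10 1 (Pf.C 0 0x20c10a) (Pf.B 10 0 (Pf.C 0 32906) (Pf.C 0 0x1200501))))))))
 Pq.nil)))))))) (Pq.cons (Pq.D 3 (Pq.cons (Pq.D 4 (Pq.cons (Pq.L [0,1] 910 (Pf.C 1 0x5091004006))
 (Pq.cons (Pq.L [0,1] 910 (Pf.C 1 0x5091004006))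
 (Pq.cons (Pq.L [0,1] 910 (Pf.C 1 0x5091004006))
 (Pq.cons (Pq.L [0,1] 910 (Pf.C 1 0x5091004006))
 (Pq.cons (Pq.L [0,1] 910 (Pf.C 1 0x5091004006))
 (Pq.cons (Pq.L [0,4] 910 (Pf.C 1 0x5091010006))
 (Pq.cons (Pq.L [1,4] 910 (Pf.C 1 0x5091010086))
 Pq.nil)))))))) (Pq.cons (Pq.L [4,5] 1023 (Pf.B 10 4 (Pf.C 1 0x409141c304) (Pf.B 10 5 (Pf.C 1 0x284141c308) (Pf.C 0 0x1214504))))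
 (Pq.cons (Pq.L [4,5] 1023 (Pf.B 10 5 (Pf.C 1 0x409141c305) (Pf.B 10 4 (Pf.C 1 0x205141c308) (Pf.C 0 0x1210505))))
 (Pq.cons (Pq.L [3,4,5] 1023 (Pf.B 10 5 (Pf.C 1 0x409141c305) (Pf.B 10 4 (Pf.C 1 0x409141c304) (Pf.B 10 3 (Pf.C 0 0x61420a) (Pf.C 0 0x102418a)))))
 (Pq.cons (Pq.L [2,3,4,5] 1023 (Pf.B 10 5 (Pf.C 1 0x409141c305) (Pf.B 10 4 (Pf.C 1 0x409141c304) (Pf.B 10 3 (Pf.C 0 0x61420a) (Pf.B 10 2 (Pf.C 0 0x41018a) (Pf.C 0 0x1208503))))))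
 (Pq.cons (Pq.L [1,2,3,4,5] 1023 (Pf.B 10 5 (Pf.C 1 0x409141c305) (Pf.B 10 4 (Pf.C 1 0x409141c304) (Pf.B 10 3 (Pf.C 0 0x61420a) (Pf.B 10 2 (Pf.C 0 0x41018a) (Pf.B 10 1 (Pf.C 0 0x20c10a) (Pf.C 0 0x1204502)))))))
 (Pq.cons (Pq.L [0,1,2,3,4,5] 1023 (Pf.B 10 5 (Pf.C 1 0x409141c305) (Pf.B 10 4 (Pf.C 1 0x409141c304) (Pf.B 10 3 (Pf.C 0 0x61420a) (Pf.B 10 2 (Pf.C 0 0x41018a) (Pf.B 10 1 (Pf.C 0 0x20c10a) (Pf.B 10 0 (Pf.C 0 32906) (Pf.C 0 0x1200501))))))))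
 Pq.nil)))))))) (Pq.cons (Pq.D 3 (Pq.cons (Pq.D 4 (Pq.cons (Pq.L [0,1] 910 (Pf.C 1 0x5091004006))
 (Pq.cons (Pq.L [0,1] 910 (Pf.C 1 0x5091004006))
 (Pq.cons (Pq.L [0,1] 910 (Pf.C 1 0x5091004006))
 (Pq.cons (Pq.L [0,1] 910 (Pf.C 1 0x5091004006))
 (Pq.cons (Pq.L [0,1] 910 (Pf.C 1 0x5091004006))
 (Pq.cons (Pq.L [0,3] 910 (Pf.C 1 0x509100c006))
 (Pq.cons (Pq.L [1,3] 910 (Pf.C 1 0x509100c086))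
 Pq.nil)))))))) (Pq.cons (Pq.L [4,5] 1023 (Pf.B 10 4 (Pf.C 1 0x409141c304) (Pf.B 10 5 (Pf.C 1 0x284141c308) (Pf.C 0 0x1214504))))
 (Pq.cons (Pq.L [4,5] 1023 (Pf.B 10 5 (Pf.C 1 0x409141c305) (Pf.B 10 4 (Pf.C 1 0x205141c308) (Pf.C 0 0x1210505))))
 (Pq.cons (Pq.L [3,4,5] 1023 (Pf.B 10 5 (Pf.C 1 0x409141c305) (Pf.B 10 4 (Pf.C 1 0x409141c304) (Pf.B 10 3 (Pf.C 0 0x61420a) (Pf.C 0 0x120c504)))))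
 (Pq.cons (Pq.L [2,3,4,5] 1023 (Pf.B 10 5 (Pf.C 1 0x409141c305) (Pf.B 10 4 (Pf.C 1 0x409141c304) (Pf.B 10 3 (Pf.C 0 0x61420a) (Pf.B 10 2 (Pf.C 0 0x41018a) (Pf.C 0 0x102410a))))))
 (Pq.cons (Pq.L [1,2,3,4,5] 1023 (Pf.B 10 5 (Pf.C 1 0x409141c305) (Pf.B 10 4 (Pf.C 1 0x409141c304) (Pf.B 10 3 (Pf.C 0 0x61420a) (Pf.B 10 2 (Pf.C 0 0x41018a) (Pf.B 10 1 (Pf.C 0 0x20c10a) (Pf.C 0 0x1204502)))))))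
 (Pq.cons (Pq.L [0,1,2,3,4,5] 1023 (Pf.B 10 5 (Pf.C 1 0x409141c305) (Pf.B 10 4 (Pf.C 1 0x409141c304) (Pf.B 10 3 (Pf.C 0 0x61420a) (Pf.B 10 2 (Pf.C 0 0x41018a) (Pf.B 10 1 (Pf.C 0 0x20c10a) (Pf.B 10 0 (Pf.C 0 32906) (Pf.C 0 0x1200501))))))))
 Pq.nil)))))))) (Pq.cons (Pq.D 3 (Pq.cons (Pq.D 4 (Pq.cons (Pq.L [0,3] 910 (Pf.C 1 0x509100c006))
 (Pq.cons (Pq.L [0,3] 910 (Pf.C 1 0x509100c006))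
 (Pq.cons (Pq.L [0,3] 910 (Pf.C 1 0x509100c006))
 (Pq.cons (Pq.L [0,4] 910 (Pf.C 1 0x5091010006))
 (Pq.cons (Pq.L [0,3] 910 (Pf.C 1 0x509100c006))
 (Pq.cons (Pq.L [0,3] 910 (Pf.C 1 0x509100c006))
 (Pq.cons (Pq.L [3,4] 910 (Pf.C 1 0x5091010186))
 Pq.nil)))))))) (Pq.cons (Pq.L [4,5] 1023 (Pf.B 10 4 (Pf.C 1 0x409141c304) (Pf.B 10 5 (Pf.C 1 0x284141c308) (Pf.C 0 0x1214504))))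
 (Pq.cons (Pq.L [4,5] 1023 (Pf.B 10 5 (Pf.C 1 0x409141c305) (Pf.B 10 4 (Pf.C 1 0x205141c308) (Pf.C 0 0x1210505))))
 (Pq.cons (Pq.L [3,4,5] 1023 (Pf.B 10 5 (Pf.C 1 0x409141c305) (Pf.B 10 4 (Pf.C 1 0x409141c304) (Pf.B 10 3 (Pf.C 0 0x61420a) (Pf.C 0 0x120c504)))))
 (Pq.cons (Pq.L [2,3,4,5] 1023 (Pf.B 10 5 (Pf.C 1 0x409141c305) (Pf.B 10 4 (Pf.C 1 0x409141c304) (Pf.B 10 3 (Pf.C 0 0x61420a) (Pf.B 10 2 (Pf.C 0 0x41018a) (Pf.C 0 0x1208503))))))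
 (Pq.cons (Pq.L [1,2,3,4,5] 1023 (Pf.B 10 5 (Pf.C 1 0x409141c305) (Pf.B 10 4 (Pf.C 1 0x409141c304) (Pf.B 10 3 (Pf.C 0 0x61420a) (Pf.B 10 2 (Pf.C 0 0x41018a) (Pf.B 10 1 (Pf.C 0 0x20c10a) (Pf.C 0 0x102408a)))))))
 (Pq.cons (Pq.L [0,1,2,3,4,5] 1023 (Pf.B 10 5 (Pf.C 1 0x409141c305) (Pf.B 10 4 (Pf.C 1 0x409141c304) (Pf.B 10 3 (Pf.C 0 0x61420a) (Pf.B 10 2 (Pf.C 0 0x41018a) (Pf.B 10 1 (Pf.C 0 0x20c10a) (Pf.B 10 0 (Pf.C 0 32906) (Pf.C 0 0x1200501))))))))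
 Pq.nil)))))))) (Pq.cons (Pq.D 3 (Pq.cons (Pq.D 4 (Pq.cons (Pq.L [1,3] 910 (Pf.C 1 0x509100c086))
 (Pq.cons (Pq.L [1,3] 910 (Pf.C 1 0x509100c086))
 (Pq.cons (Pq.L [1,3] 910 (Pf.C 1 0x509100c086))
 (Pq.cons (Pq.L [1,4] 910 (Pf.C 1 0x5091010086))
 (Pq.cons (Pq.L [1,3] 910 (Pf.C 1 0x509100c086))
 (Pq.cons (Pq.L [3,4] 910 (Pf.C 1 0x5091010186))
 (Pq.cons (Pq.L [1,3] 910 (Pf.C 1 0x509100c086))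
 Pq.nil)))))))) (Pq.cons (Pq.L [4,5] 1023 (Pf.B 10 4 (Pf.C 1 0x409141c304) (Pf.B 10 5 (Pf.C 1 0x284141c308) (Pf.C 0 0x1214504))))
 (Pq.cons (Pq.L [4,5] 1023 (Pf.B 10 5 (Pf.C 1 0x409141c305) (Pf.B 10 4 (Pf.C 1 0x205141c308) (Pf.C 0 0x1210505))))
 (Pq.cons (Pq.L [3,4,5] 1023 (Pf.B 10 5 (Pf.C 1 0x409141c305) (Pf.B 10 4 (Pf.C 1 0x409141c304) (Pf.B 10 3 (Pf.C 0 0x61420a) (Pf.C 0 0x120c504)))))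
 (Pq.cons (Pq.L [2,3,4,5] 1023 (Pf.B 10 5 (Pf.C 1 0x409141c305) (Pf.B 10 4 (Pf.C 1 0x409141c304) (Pf.B 10 3 (Pf.C 0 0x61420a) (Pf.B 10 2 (Pf.C 0 0x41018a) (Pf.C 0 0x1208503))))))
 (Pq.cons (Pq.L [1,2,3,4,5] 1023 (Pf.B 10 5 (Pf.C 1 0x409141c305) (Pf.B 10 4 (Pf.C 1 0x409141c304) (Pf.B 10 3 (Pf.C 0 0x61420a) (Pf.B 10 2 (Pf.C 0 0x41018a) (Pf.B 10 1 (Pf.C 0 0x20c10a) (Pf.C 0 0x1204502)))))))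
 (Pq.cons (Pq.L [0,1,2,3,4,5] 1023 (Pf.B 10 5 (Pf.C 1 0x409141c305) (Pf.B 10 4 (Pf.C 1 0x409141c304) (Pf.B 10 3 (Pf.C 0 0x61420a) (Pf.B 10 2 (Pf.C 0 0x41018a) (Pf.B 10 1 (Pf.C 0 0x20c10a) (Pf.B 10 0 (Pf.C 0 32906) (Pf.C 0 0x102400a))))))))
 Pq.nil)))))))) Pq.nil)))))))) (Pq.cons (Pq.D 2 (Pq.cons (Pq.D 3 (Pq.cons (Pq.D 4 (Pq.cons (Pq.L [0,1] 910 (Pf.C 1 0x5091004006))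
 (Pq.cons (Pq.L [0,1] 910 (Pf.C 1 0x5091004006))
 (Pq.cons (Pq.L [0,1] 910 (Pf.C 1 0x5091004006))
 (Pq.cons (Pq.L [0,1] 910 (Pf.C 1 0x5091004006))
 (Pq.cons (Pq.L [0,1] 910 (Pf.C 1 0x5091004006))
 (Pq.cons (Pq.L [0,3] 910 (Pf.C 1 0x509100c006))
 (Pq.cons (Pq.L [1,3] 910 (Pf.C 1 0x509100c086))
 Pq.nil)))))))) (Pq.cons (Pq.L [4,5] 1023 (Pf.B 10 4 (Pf.C 1 0x409141c304) (Pf.B 10 5 (Pf.C 1 0x284141c308) (Pf.C 0 0x1214504))))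
 (Pq.cons (Pq.L [4,5] 1023 (Pf.B 10 5 (Pf.C 1 0x409141c305) (Pf.B 10 4 (Pf.C 1 0x205141c308) (Pf.C 0 0x1210505))))
 (Pq.cons (Pq.L [3,4,5] 1023 (Pf.B 10 5 (Pf.C 1 0x409141c305) (Pf.B 10 4 (Pf.C 1 0x409141c304) (Pf.B 10 3 (Pf.C 0 0x61420a) (Pf.C 0 0x120c504)))))
 (Pq.cons (Pq.L [2,3,4,5] 1023 (Pf.B 10 5 (Pf.C 1 0x409141c305) (Pf.B 10 4 (Pf.C 1 0x409141c304) (Pf.B 10 3 (Pf.C 0 0x61420a) (Pf.B 10 2 (Pf.C 0 0x41018a) (Pf.C 0 0x1208503))))))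
 (Pq.cons (Pq.L [1,2,3,4,5] 1023 (Pf.B 10 5 (Pf.C 1 0x409141c305) (Pf.B 10 4 (Pf.C 1 0x409141c304) (Pf.B 10 3 (Pf.C 0 0x61420a) (Pf.B 10 2 (Pf.C 0 0x41018a) (Pf.B 10 1 (Pf.C 0 0x20c10a) (Pf.C 0 0x1204502)))))))
 (Pq.cons (Pq.L [0,1,2,3,4,5] 1023 (Pf.B 10 5 (Pf.C 1 0x409141c305) (Pf.B 10 4 (Pf.C 1 0x409141c304) (Pf.B 10 3 (Pf.C 0 0x61420a) (Pf.B 10 2 (Pf.C 0 0x41018a) (Pf.B 10 1 (Pf.C 0 0x20c10a) (Pf.B 10 0 (Pf.C 0 32906) (Pf.C 0 0x1200501))))))))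
 Pq.nil)))))))) (Pq.cons (Pq.D 3 (Pq.cons (Pq.D 4 (Pq.cons (Pq.L [0,1] 910 (Pf.C 1 0x5091004006))
 (Pq.cons (Pq.L [0,1] 910 (Pf.C 1 0x5091004006))
 (Pq.cons (Pq.L [0,1] 910 (Pf.C 1 0x5091004006))
 (Pq.cons (Pq.L [0,1] 910 (Pf.C 1 0x5091004006))
 (Pq.cons (Pq.L [0,1] 910 (Pf.C 1 0x5091004006))
 (Pq.cons (Pq.L [0,3] 910 (Pf.C 1 0x509100c006))
 (Pq.cons (Pq.L [1,3] 910 (Pf.C 1 0x509100c086))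
 Pq.nil)))))))) (Pq.cons (Pq.L [3,4,5] 987 (Pf.B 10 5 (Pf.B 10 4 (Pf.C 1 0x405081c30a) (Pf.B 10 3 (Pf.C 1 0x405061c30a) (Pf.C 0 0xa1018a))) (Pf.C 0 0x102428a)))
 (Pq.cons (Pq.L [3,4] 1023 (Pf.B 10 3 (Pf.C 1 0x409141c303) (Pf.B 10 4 (Pf.C 1 0x203141c308) (Pf.C 0 0x1210503))))
 (Pq.cons (Pq.L [3,4] 1023 (Pf.B 10 4 (Pf.C 1 0x409141c304) (Pf.B 10 3 (Pf.C 1 0x184141c308) (Pf.C 0 0x120c504))))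
 (Pq.cons (Pq.L [2,3,4] 1023 (Pf.B 10 4 (Pf.C 1 0x409141c304) (Pf.B 10 3 (Pf.C 1 0x409141c303) (Pf.B 10 2 (Pf.C 0 0x41018a) (Pf.C 0 0x1208503)))))
 (Pq.cons (Pq.L [1,2,3,4] 1023 (Pf.B 10 4 (Pf.C 1 0x409141c304) (Pf.B 10 3 (Pf.C 1 0x409141c303) (Pf.B 10 2 (Pf.C 0 0x41018a) (Pf.B 10 1 (Pf.C 0 0x20c10a) (Pf.C 0 0x1204502))))))
 (Pq.cons (Pq.L [0,1,2,3,4] 1023 (Pf.B 10 4 (Pf.C 1 0x409141c304) (Pf.B 10 3 (Pf.C 1 0x409141c303) (Pf.B 10 2 (Pf.C 0 0x41018a) (Pf.B 10 1 (Pf.C 0 0x20c10a) (Pf.B 10 0 (Pf.C 0 32906) (Pf.C 0 0x1200501)))))))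
 Pq.nil)))))))) (Pq.cons (Pq.D 3 (Pq.cons (Pq.D 4 (Pq.cons (Pq.L [0,1] 910 (Pf.C 1 0x5091004006))
 (Pq.cons (Pq.L [0,1] 910 (Pf.C 1 0x5091004006))
 (Pq.cons (Pq.L [0,1] 910 (Pf.C 1 0x5091004006))
 (Pq.cons (Pq.L [0,1] 910 (Pf.C 1 0x5091004006))
 (Pq.cons (Pq.L [0,1] 910 (Pf.C 1 0x5091004006))
 (Pq.cons (Pq.L [0,3] 910 (Pf.C 1 0x509100c006))
 (Pq.cons (Pq.L [1,3] 910 (Pf.C 1 0x509100c086))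
 Pq.nil)))))))) (Pq.cons (Pq.L [3,5] 1023 (Pf.B 10 3 (Pf.C 1 0x409141c303) (Pf.B 10 5 (Pf.C 1 0x283141c308) (Pf.C 0 0x1214503))))
 (Pq.cons (Pq.L [3,4,5] 1023 (Pf.B 10 5 (Pf.C 1 0x409141c305) (Pf.B 10 4 (Pf.B 10 3 (Pf.C 1 0x404061c30a) (Pf.C 0 0x81418a)) (Pf.C 0 0x102420a))))
 (Pq.cons (Pq.L [3,5] 1023 (Pf.B 10 5 (Pf.C 1 0x409141c305) (Pf.B 10 3 (Pf.C 1 0x185141c308) (Pf.C 0 0x120c505))))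
 (Pq.cons (Pq.L [2,3,4,5] 1023 (Pf.B 10 5 (Pf.C 1 0x409141c305) (Pf.B 10 3 (Pf.C 1 0x409141c303) (Pf.B 10 4 (Pf.C 0 0x81418a) (Pf.B 10 2 (Pf.C 0 0x41018a) (Pf.C 0 0x1208503))))))
 (Pq.cons (Pq.L [1,2,3,4,5] 1023 (Pf.B 10 5 (Pf.C 1 0x409141c305) (Pf.B 10 3 (Pf.C 1 0x409141c303) (Pf.B 10 4 (Pf.C 0 0x81418a) (Pf.B 10 2 (Pf.C 0 0x41018a) (Pf.B 10 1 (Pf.C 0 0x20c10a) (Pf.C 0 0x1204502)))))))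
 (Pq.cons (Pq.L [0,1,2,3,4,5] 1023 (Pf.B 10 5 (Pf.C 1 0x409141c305) (Pf.B 10 3 (Pf.C 1 0x409141c303) (Pf.B 10 4 (Pf.C 0 0x81418a) (Pf.B 10 2 (Pf.C 0 0x41018a) (Pf.B 10 1 (Pf.C 0 0x20c10a) (Pf.B 10 0 (Pf.C 0 32906) (Pf.C 0 0x1200501))))))))
 Pq.nil)))))))) (Pq.cons (Pq.D 3 (Pq.cons (Pq.D 4 (Pq.cons (Pq.L [0,1] 910 (Pf.C 1 0x5091004006))
 (Pq.cons (Pq.L [0,1] 910 (Pf.C 1 0x5091004006))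
 (Pq.cons (Pq.L [0,1] 910 (Pf.C 1 0x5091004006))
 (Pq.cons (Pq.L [0,1] 910 (Pf.C 1 0x5091004006))
 (Pq.cons (Pq.L [0,1] 910 (Pf.C 1 0x5091004006))
 (Pq.cons (Pq.L [0,4] 910 (Pf.C 1 0x5091010006))
 (Pq.cons (Pq.L [1,4] 910 (Pf.C 1 0x5091010086))
 Pq.nil)))))))) (Pq.cons (Pq.L [4,5] 1023 (Pf.B 10 4 (Pf.C 1 0x409141c304) (Pf.B 10 5 (Pf.C 1 0x284141c308) (Pf.C 0 0x1214504))))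
 (Pq.cons (Pq.L [4,5] 1023 (Pf.B 10 5 (Pf.C 1 0x409141c305) (Pf.B 10 4 (Pf.C 1 0x205141c308) (Pf.C 0 0x1210505))))
 (Pq.cons (Pq.L [3,4,5] 1023 (Pf.B 10 5 (Pf.C 1 0x409141c305) (Pf.B 10 4 (Pf.C 1 0x409141c304) (Pf.B 10 3 (Pf.C 0 0x61420a) (Pf.C 0 0x102418a)))))
 (Pq.cons (Pq.L [2,3,4,5] 1023 (Pf.B 10 5 (Pf.C 1 0x409141c305) (Pf.B 10 4 (Pf.C 1 0x409141c304) (Pf.B 10 3 (Pf.C 0 0x61420a) (Pf.B 10 2 (Pf.C 0 0x41018a) (Pf.C 0 0x1208503))))))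
 (Pq.cons (Pq.L [1,2,3,4,5] 1023 (Pf.B 10 5 (Pf.C 1 0x409141c305) (Pf.B 10 4 (Pf.C 1 0x409141c304) (Pf.B 10 3 (Pf.C 0 0x61420a) (Pf.B 10 2 (Pf.C 0 0x41018a) (Pf.B 10 1 (Pf.C 0 0x20c10a) (Pf.C 0 0x1204502)))))))
 (Pq.cons (Pq.L [0,1,2,3,4,5] 1023 (Pf.B 10 5 (Pf.C 1 0x409141c305) (Pf.B 10 4 (Pf.C 1 0x409141c304) (Pf.B 10 3 (Pf.C 0 0x61420a) (Pf.B 10 2 (Pf.C 0 0x41018a) (Pf.B 10 1 (Pf.C 0 0x20c10a) (Pf.B 10 0 (Pf.C 0 32906) (Pf.C 0 0x1200501))))))))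
 Pq.nil)))))))) (Pq.cons (Pq.D 3 (Pq.cons (Pq.D 4 (Pq.cons (Pq.L [0,1] 910 (Pf.C 1 0x5091004006))
 (Pq.cons (Pq.L [0,1] 910 (Pf.C 1 0x5091004006))
 (Pq.cons (Pq.L [0,1] 910 (Pf.C 1 0x5091004006))
 (Pq.cons (Pq.L [0,1] 910 (Pf.C 1 0x5091004006))
 (Pq.cons (Pq.L [0,1] 910 (Pf.C 1 0x5091004006))
 (Pq.cons (Pq.L [0,3] 910 (Pf.C 1 0x509100c006))
 (Pq.cons (Pq.L [1,3] 910 (Pf.C 1 0x509100c086))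
 Pq.nil)))))))) (Pq.cons (Pq.L [4,5] 1023 (Pf.B 10 4 (Pf.C 1 0x409141c304) (Pf.B 10 5 (Pf.C 1 0x284141c308) (Pf.C 0 0x1214504))))
 (Pq.cons (Pq.L [4,5] 1023 (Pf.B 10 5 (Pf.C 1 0x409141c305) (Pf.B 10 4 (Pf.C 1 0x205141c308) (Pf.C 0 0x1210505))))
 (Pq.cons (Pq.L [3,4,5] 1023 (Pf.B 10 5 (Pf.C 1 0x409141c305) (Pf.B 10 4 (Pf.C 1 0x409141c304) (Pf.B 10 3 (Pf.C 0 0x61420a) (Pf.C 0 0x120c504)))))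
 (Pq.cons (Pq.L [2,3,4,5] 1023 (Pf.B 10 5 (Pf.C 1 0x409141c305) (Pf.B 10 4 (Pf.C 1 0x409141c304) (Pf.B 10 3 (Pf.C 0 0x61420a) (Pf.B 10 2 (Pf.C 0 0x41018a) (Pf.C 0 0x102410a))))))
 (Pq.cons (Pq.L [1,2,3,4,5] 1023 (Pf.B 10 5 (Pf.C 1 0x409141c305) (Pf.B 10 4 (Pf.C 1 0x409141c304) (Pf.B 10 3 (Pf.C 0 0x61420a) (Pf.B 10 2 (Pf.C 0 0x41018a) (Pf.B 10 1 (Pf.C 0 0x20c10a) (Pf.C 0 0x1204502)))))))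
 (Pq.cons (Pq.L [0,1,2,3,4,5] 1023 (Pf.B 10 5 (Pf.C 1 0x409141c305) (Pf.B 10 4 (Pf.C 1 0x409141c304) (Pf.B 10 3 (Pf.C 0 0x61420a) (Pf.B 10 2 (Pf.C 0 0x41018a) (Pf.B 10 1 (Pf.C 0 0x20c10a) (Pf.B 10 0 (Pf.C 0 32906) (Pf.C 0 0x1200501))))))))
 Pq.nil)))))))) (Pq.cons (Pq.D 3 (Pq.cons (Pq.D 4 (Pq.cons (Pq.L [0,3] 910 (Pf.C 1 0x509100c006))
 (Pq.cons (Pq.L [0,3] 910 (Pf.C 1 0x509100c006))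
 (Pq.cons (Pq.L [0,3] 910 (Pf.C 1 0x509100c006))
 (Pq.cons (Pq.L [0,4] 910 (Pf.C 1 0x5091010006))
 (Pq.cons (Pq.L [0,3] 910 (Pf.C 1 0x509100c006))
 (Pq.cons (Pq.L [0,3] 910 (Pf.C 1 0x509100c006))
 (Pq.cons (Pq.L [3,4] 910 (Pf.C 1 0x5091010186))
 Pq.nil)))))))) (Pq.cons (Pq.L [4,5] 1023 (Pf.B 10 4 (Pf.C 1 0x409141c304) (Pf.B 10 5 (Pf.C 1 0x284141c308) (Pf.C 0 0x1214504))))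
 (Pq.cons (Pq.L [4,5] 1023 (Pf.B 10 5 (Pf.C 1 0x409141c305) (Pf.B 10 4 (Pf.C 1 0x205141c308) (Pf.C 0 0x1210505))))
 (Pq.cons (Pq.L [3,4,5] 1023 (Pf.B 10 5 (Pf.C 1 0x409141c305) (Pf.B 10 4 (Pf.C 1 0x409141c304) (Pf.B 10 3 (Pf.C 0 0x61420a) (Pf.C 0 0x120c504)))))
 (Pq.cons (Pq.L [2,3,4,5] 1023 (Pf.B 10 5 (Pf.C 1 0x409141c305) (Pf.B 10 4 (Pf.C 1 0x409141c304) (Pf.B 10 3 (Pf.C 0 0x61420a) (Pf.B 10 2 (Pf.C 0 0x41018a) (Pf.C 0 0x1208503))))))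
 (Pq.cons (Pq.L [1,2,3,4,5] 1023 (Pf.B 10 5 (Pf.C 1 0x409141c305) (Pf.B 10 4 (Pf.C 1 0x409141c304) (Pf.B 10 3 (Pf.C 0 0x61420a) (Pf.B 10 2 (Pf.C 0 0x41018a) (Pf.B 10 1 (Pf.C 0 0x20c10a) (Pf.C 0 0x102408a)))))))
 (Pq.cons (Pq.L [0,1,2,3,4,5] 1023 (Pf.B 10 5 (Pf.C 1 0x409141c305) (Pf.B 10 4 (Pf.C 1 0x409141c304) (Pf.B 10 3 (Pf.C 0 0x61420a) (Pf.B 10 2 (Pf.C 0 0x41018a) (Pf.B 10 1 (Pf.C 0 0x20c10a) (Pf.B 10 0 (Pf.C 0 32906) (Pf.C 0 0x1200501))))))))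
 Pq.nil)))))))) (Pq.cons (Pq.D 3 (Pq.cons (Pq.D 4 (Pq.cons (Pq.L [1,3] 910 (Pf.C 1 0x509100c086))
 (Pq.cons (Pq.L [1,3] 910 (Pf.C 1 0x509100c086))
 (Pq.cons (Pq.L [1,3] 910 (Pf.C 1 0x509100c086))
 (Pq.cons (Pq.L [1,4] 910 (Pf.C 1 0x5091010086))
 (Pq.cons (Pq.L [1,3] 910 (Pf.C 1 0x509100c086))
 (Pq.cons (Pq.L [3,4] 910 (Pf.C 1 0x5091010186))
 (Pq.cons (Pq.L [1,3] 910 (Pf.C 1 0x509100c086))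
 Pq.nil)))))))) (Pq.cons (Pq.L [4,5] 1023 (Pf.B 10 4 (Pf.C 1 0x409141c304) (Pf.B 10 5 (Pf.C 1 0x284141c308) (Pf.C 0 0x1214504))))
 (Pq.cons (Pq.L [4,5] 1023 (Pf.B 10 5 (Pf.C 1 0x409141c305) (Pf.B 10 4 (Pf.C 1 0x205141c308) (Pf.C 0 0x1210505))))
 (Pq.cons (Pq.L [3,4,5] 1023 (Pf.B 10 5 (Pf.C 1 0x409141c305) (Pf.B 10 4 (Pf.C 1 0x409141c304) (Pf.B 10 3 (Pf.C 0 0x61420a) (Pf.C 0 0x120c504)))))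
 (Pq.cons (Pq.L [2,3,4,5] 1023 (Pf.B 10 5 (Pf.C 1 0x409141c305) (Pf.B 10 4 (Pf.C 1 0x409141c304) (Pf.B 10 3 (Pf.C 0 0x61420a) (Pf.B 10 2 (Pf.C 0 0x41018a) (Pf.C 0 0x1208503))))))
 (Pq.cons (Pq.L [1,2,3,4,5] 1023 (Pf.B 10 5 (Pf.C 1 0x409141c305) (Pf.B 10 4 (Pf.C 1 0x409141c304) (Pf.B 10 3 (Pf.C 0 0x61420a) (Pf.B 10 2 (Pf.C 0 0x41018a) (Pf.B 10 1 (Pf.C 0 0x20c10a) (Pf.C 0 0x1204502)))))))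
 (Pq.cons (Pq.L [0,1,2,3,4,5] 1023 (Pf.B 10 5 (Pf.C 1 0x409141c305) (Pf.B 10 4 (Pf.C 1 0x409141c304) (Pf.B 10 3 (Pf.C 0 0x61420a) (Pf.B 10 2 (Pf.C 0 0x41018a) (Pf.B 10 1 (Pf.C 0 0x20c10a) (Pf.B 10 0 (Pf.C 0 32906) (Pf.C 0 0x102400a))))))))
 Pq.nil)))))))) Pq.nil)))))))) (Pq.cons (Pq.D 2 (Pq.cons (Pq.D 3 (Pq.cons (Pq.D 4 (Pq.cons (Pq.L [0,1] 910 (Pf.C 1 0x5091004006))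
 (Pq.cons (Pq.L [0,1] 910 (Pf.C 1 0x5091004006))
 (Pq.cons (Pq.L [0,1] 910 (Pf.C 1 0x5091004006))
 (Pq.cons (Pq.L [0,1] 910 (Pf.C 1 0x5091004006))
 (Pq.cons (Pq.L [0,1] 910 (Pf.C 1 0x5091004006))
 (Pq.cons (Pq.L [0,3] 910 (Pf.C 1 0x509100c006))
 (Pq.cons (Pq.L [1,3] 910 (Pf.C 1 0x509100c086))
 Pq.nil)))))))) (Pq.cons (Pq.L [4,5] 1023 (Pf.B 10 4 (Pf.C 1 0x409141c304) (Pf.B 10 5 (Pf.C 1 0x284141c308) (Pf.C 0 0x1214504))))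
 (Pq.cons (Pq.L [4,5] 1023 (Pf.B 10 5 (Pf.C 1 0x409141c305) (Pf.B 10 4 (Pf.C 1 0x205141c308) (Pf.C 0 0x1210505))))
 (Pq.cons (Pq.L [3,4,5] 1023 (Pf.B 10 5 (Pf.C 1 0x409141c305) (Pf.B 10 4 (Pf.C 1 0x409141c304) (Pf.B 10 3 (Pf.C 0 0x61420a) (Pf.C 0 0x120c504)))))
 (Pq.cons (Pq.L [2,3,4,5] 1023 (Pf.B 10 5 (Pf.C 1 0x409141c305) (Pf.B 10 4 (Pf.C 1 0x409141c304) (Pf.B 10 3 (Pf.C 0 0x61420a) (Pf.B 10 2 (Pf.C 0 0x41018a) (Pf.C 0 0x1208503))))))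
 (Pq.cons (Pq.L [1,2,3,4,5] 1023 (Pf.B 10 5 (Pf.C 1 0x409141c305) (Pf.B 10 4 (Pf.C 1 0x409141c304) (Pf.B 10 3 (Pf.C 0 0x61420a) (Pf.B 10 2 (Pf.C 0 0x41018a) (Pf.B 10 1 (Pf.C 0 0x20c10a) (Pf.C 0 0x1204502)))))))
 (Pq.cons (Pq.L [0,1,2,3,4,5] 1023 (Pf.B 10 5 (Pf.C 1 0x409141c305) (Pf.B 10 4 (Pf.C 1 0x409141c304) (Pf.B 10 3 (Pf.C 0 0x61420a) (Pf.B 10 2 (Pf.C 0 0x41018a) (Pf.B 10 1 (Pf.C 0 0x20c10a) (Pf.B 10 0 (Pf.C 0 32906) (Pf.C 0 0x1200501))))))))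
 Pq.nil)))))))) (Pq.cons (Pq.D 3 (Pq.cons (Pq.D 4 (Pq.cons (Pq.L [0,1] 910 (Pf.C 1 0x5091004006))
 (Pq.cons (Pq.L [0,1] 910 (Pf.C 1 0x5091004006))
 (Pq.cons (Pq.L [0,1] 910 (Pf.C 1 0x5091004006))
 (Pq.cons (Pq.L [0,1] 910 (Pf.C 1 0x5091004006))
 (Pq.cons (Pq.L [0,1] 910 (Pf.C 1 0x5091004006))
 (Pq.cons (Pq.L [0,3] 910 (Pf.C 1 0x509100c006))
 (Pq.cons (Pq.L [1,3] 910 (Pf.C 1 0x509100c086))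
 Pq.nil)))))))) (Pq.cons (Pq.L [3,4,5] 987 (Pf.B 10 5 (Pf.B 10 4 (Pf.C 1 0x405081c30a) (Pf.B 10 3 (Pf.C 1 0x405061c30a) (Pf.C 0 0xa1018a))) (Pf.C 0 0x102428a)))
 (Pq.cons (Pq.L [3,4] 1023 (Pf.B 10 3 (Pf.C 1 0x409141c303) (Pf.B 10 4 (Pf.C 1 0x203141c308) (Pf.C 0 0x1210503))))
 (Pq.cons (Pq.L [3,4] 1023 (Pf.B 10 4 (Pf.C 1 0x409141c304) (Pf.B 10 3 (Pf.C 1 0x184141c308) (Pf.C 0 0x120c504))))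
 (Pq.cons (Pq.L [2,3,4] 1023 (Pf.B 10 4 (Pf.C 1 0x409141c304) (Pf.B 10 3 (Pf.C 1 0x409141c303) (Pf.B 10 2 (Pf.C 0 0x41018a) (Pf.C 0 0x1208503)))))
 (Pq.cons (Pq.L [1,2,3,4] 1023 (Pf.B 10 4 (Pf.C 1 0x409141c304) (Pf.B 10 3 (Pf.C 1 0x409141c303) (Pf.B 10 2 (Pf.C 0 0x41018a) (Pf.B 10 1 (Pf.C 0 0x20c10a) (Pf.C 0 0x1204502))))))
 (Pq.cons (Pq.L [0,1,2,3,4] 1023 (Pf.B 10 4 (Pf.C 1 0x409141c304) (Pf.B 10 3 (Pf.C 1 0x409141c303) (Pf.B 10 2 (Pf.C 0 0x41018a) (Pf.B 10 1 (Pf.C 0 0x20c10a) (Pf.B 10 0 (Pf.C 0 32906) (Pf.C 0 0x1200501)))))))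
 Pq.nil)))))))) (Pq.cons (Pq.D 3 (Pq.cons (Pq.D 4 (Pq.cons (Pq.L [0,1] 910 (Pf.C 1 0x5091004006))
 (Pq.cons (Pq.L [0,1] 910 (Pf.C 1 0x5091004006))
 (Pq.cons (Pq.L [0,1] 910 (Pf.C 1 0x5091004006))
 (Pq.cons (Pq.L [0,1] 910 (Pf.C 1 0x5091004006))
 (Pq.cons (Pq.L [0,1] 910 (Pf.C 1 0x5091004006))
 (Pq.cons (Pq.L [0,3] 910 (Pf.C 1 0x509100c006))
 (Pq.cons (Pq.L [1,3] 910 (Pf.C 1 0x509100c086))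
 Pq.nil)))))))) (Pq.cons (Pq.L [3,5] 1023 (Pf.B 10 3 (Pf.C 1 0x409141c303) (Pf.B 10 5 (Pf.C 1 0x283141c308) (Pf.C 0 0x1214503))))
 (Pq.cons (Pq.L [3,4,5] 1023 (Pf.B 10 5 (Pf.C 1 0x409141c305) (Pf.B 10 4 (Pf.B 10 3 (Pf.C 1 0x404061c30a) (Pf.C 0 0x81418a)) (Pf.C 0 0x102420a))))
 (Pq.cons (Pq.L [3,5] 1023 (Pf.B 10 5 (Pf.C 1 0x409141c305) (Pf.B 10 3 (Pf.C 1 0x185141c308) (Pf.C 0 0x120c505))))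
 (Pq.cons (Pq.L [2,3,4,5] 1023 (Pf.B 10 5 (Pf.C 1 0x409141c305) (Pf.B 10 3 (Pf.C 1 0x409141c303) (Pf.B 10 4 (Pf.C 0 0x81418a) (Pf.B 10 2 (Pf.C 0 0x41018a) (Pf.C 0 0x1208503))))))
 (Pq.cons (Pq.L [1,2,3,4,5] 1023 (Pf.B 10 5 (Pf.C 1 0x409141c305) (Pf.B 10 3 (Pf.C 1 0x409141c303) (Pf.B 10 4 (Pf.C 0 0x81418a) (Pf.B 10 2 (Pf.C 0 0x41018a) (Pf.B 10 1 (Pf.C 0 0x20c10a) (Pf.C 0 0x1204502)))))))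
 (Pq.cons (Pq.L [0,1,2,3,4,5] 1023 (Pf.B 10 5 (Pf.C 1 0x409141c305) (Pf.B 10 3 (Pf.C 1 0x409141c303) (Pf.B 10 4 (Pf.C 0 0x81418a) (Pf.B 10 2 (Pf.C 0 0x41018a) (Pf.B 10 1 (Pf.C 0 0x20c10a) (Pf.B 10 0 (Pf.C 0 32906) (Pf.C 0 0x1200501))))))))
 Pq.nil)))))))) (Pq.cons (Pq.D 3 (Pq.cons (Pq.D 4 (Pq.cons (Pq.L [0,1] 910 (Pf.C 1 0x5091004006))
 (Pq.cons (Pq.L [0,1] 910 (Pf.C 1 0x5091004006))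
 (Pq.cons (Pq.L [0,1] 910 (Pf.C 1 0x5091004006))
 (Pq.cons (Pq.L [0,1] 910 (Pf.C 1 0x5091004006))
 (Pq.cons (Pq.L [0,1] 910 (Pf.C 1 0x5091004006))
 (Pq.cons (Pq.L [0,4] 910 (Pf.C 1 0x5091010006))
 (Pq.cons (Pq.L [1,4] 910 (Pf.C 1 0x5091010086))
 Pq.nil)))))))) (Pq.cons (Pq.L [4,5] 1023 (Pf.B 10 4 (Pf.C 1 0x409141c304) (Pf.B 10 5 (Pf.C 1 0x284141c308) (Pf.C 0 0x1214504))))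
 (Pq.cons (Pq.L [4,5] 1023 (Pf.B 10 5 (Pf.C 1 0x409141c305) (Pf.B 10 4 (Pf.C 1 0x205141c308) (Pf.C 0 0x1210505))))
 (Pq.cons (Pq.L [3,4,5] 1023 (Pf.B 10 5 (Pf.C 1 0x409141c305) (Pf.B 10 4 (Pf.C 1 0x409141c304) (Pf.B 10 3 (Pf.C 0 0x61420a) (Pf.C 0 0x102418a)))))
 (Pq.cons (Pq.L [2,3,4,5] 1023 (Pf.B 10 5 (Pf.C 1 0x409141c305) (Pf.B 10 4 (Pf.C 1 0x409141c304) (Pf.B 10 3 (Pf.C 0 0x61420a) (Pf.B 10 2 (Pf.C 0 0x41018a) (Pf.C 0 0x1208503))))))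
 (Pq.cons (Pq.L [1,2,3,4,5] 1023 (Pf.B 10 5 (Pf.C 1 0x409141c305) (Pf.B 10 4 (Pf.C 1 0x409141c304) (Pf.B 10 3 (Pf.C 0 0x61420a) (Pf.B 10 2 (Pf.C 0 0x41018a) (Pf.B 10 1 (Pf.C 0 0x20c10a) (Pf.C 0 0x1204502)))))))
 (Pq.cons (Pq.L [0,1,2,3,4,5] 1023 (Pf.B 10 5 (Pf.C 1 0x409141c305) (Pf.B 10 4 (Pf.C 1 0x409141c304) (Pf.B 10 3 (Pf.C 0 0x61420a) (Pf.B 10 2 (Pf.C 0 0x41018a) (Pf.B 10 1 (Pf.C 0 0x20c10a) (Pf.B 10 0 (Pf.C 0 32906) (Pf.C 0 0x1200501))))))))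
 Pq.nil)))))))) (Pq.cons (Pq.D 3 (Pq.cons (Pq.D 4 (Pq.cons (Pq.L [0,1] 910 (Pf.C 1 0x5091004006))
 (Pq.cons (Pq.L [0,1] 910 (Pf.C 1 0x5091004006))
 (Pq.cons (Pq.L [0,1] 910 (Pf.C 1 0x5091004006))
 (Pq.cons (Pq.L [0,1] 910 (Pf.C 1 0x5091004006))
 (Pq.cons (Pq.L [0,1] 910 (Pf.C 1 0x5091004006))
 (Pq.cons (Pq.L [0,3] 910 (Pf.C 1 0x509100c006))
 (Pq.cons (Pq.L [1,3] 910 (Pf.C 1 0x509100c086))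
 Pq.nil)))))))) (Pq.cons (Pq.L [4,5] 1023 (Pf.B 10 4 (Pf.C 1 0x409141c304) (Pf.B 10 5 (Pf.C 1 0x284141c308) (Pf.C 0 0x1214504))))
 (Pq.cons (Pq.L [4,5] 1023 (Pf.B 10 5 (Pf.C 1 0x409141c305) (Pf.B 10 4 (Pf.C 1 0x205141c308) (Pf.C 0 0x1210505))))
 (Pq.cons (Pq.L [3,4,5] 1023 (Pf.B 10 5 (Pf.C 1 0x409141c305) (Pf.B 10 4 (Pf.C 1 0x409141c304) (Pf.B 10 3 (Pf.C 0 0x61420a) (Pf.C 0 0x120c504)))))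
 (Pq.cons (Pq.L [2,3,4,5] 1023 (Pf.B 10 5 (Pf.C 1 0x409141c305) (Pf.B 10 4 (Pf.C 1 0x409141c304) (Pf.B 10 3 (Pf.C 0 0x61420a) (Pf.B 10 2 (Pf.C 0 0x41018a) (Pf.C 0 0x102410a))))))
 (Pq.cons (Pq.L [1,2,3,4,5] 1023 (Pf.B 10 5 (Pf.C 1 0x409141c305) (Pf.B 10 4 (Pf.C 1 0x409141c304) (Pf.B 10 3 (Pf.C 0 0x61420a) (Pf.B 10 2 (Pf.C 0 0x41018a) (Pf.B 10 1 (Pf.C 0 0x20c10a) (Pf.C 0 0x1204502)))))))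
 (Pq.cons (Pq.L [0,1,2,3,4,5] 1023 (Pf.B 10 5 (Pf.C 1 0x409141c305) (Pf.B 10 4 (Pf.C 1 0x409141c304) (Pf.B 10 3 (Pf.C 0 0x61420a) (Pf.B 10 2 (Pf.C 0 0x41018a) (Pf.B 10 1 (Pf.C 0 0x20c10a) (Pf.B 10 0 (Pf.C 0 32906) (Pf.C 0 0x1200501))))))))
 Pq.nil)))))))) (Pq.cons (Pq.D 3 (Pq.cons (Pq.D 4 (Pq.cons (Pq.L [0,3] 910 (Pf.C 1 0x509100c006))
 (Pq.cons (Pq.L [0,3] 910 (Pf.C 1 0x509100c006))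
 (Pq.cons (Pq.L [0,3] 910 (Pf.C 1 0x509100c006))
 (Pq.cons (Pq.L [0,4] 910 (Pf.C 1 0x5091010006))
 (Pq.cons (Pq.L [0,3] 910 (Pf.C 1 0x509100c006))
 (Pq.cons (Pq.L [0,3] 910 (Pf.C 1 0x509100c006))
 (Pq.cons (Pq.L [3,4] 910 (Pf.C 1 0x5091010186))
 Pq.nil)))))))) (Pq.cons (Pq.L [4,5] 1023 (Pf.B 10 4 (Pf.C 1 0x409141c304) (Pf.B 10 5 (Pf.C 1 0x284141c308) (Pf.C 0 0x1214504))))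
 (Pq.cons (Pq.L [4,5] 1023 (Pf.B 10 5 (Pf.C 1 0x409141c305) (Pf.B 10 4 (Pf.C 1 0x205141c308) (Pf.C 0 0x1210505))))
 (Pq.cons (Pq.L [3,4,5] 1023 (Pf.B 10 5 (Pf.C 1 0x409141c305) (Pf.B 10 4 (Pf.C 1 0x409141c304) (Pf.B 10 3 (Pf.C 0 0x61420a) (Pf.C 0 0x120c504)))))
 (Pq.cons (Pq.L [2,3,4,5] 1023 (Pf.B 10 5 (Pf.C 1 0x409141c305) (Pf.B 10 4 (Pf.C 1 0x409141c304) (Pf.B 10 3 (Pf.C 0 0x61420a) (Pf.B 10 2 (Pf.C 0 0x41018a) (Pf.C 0 0x1208503))))))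
 (Pq.cons (Pq.L [1,2,3,4,5] 1023 (Pf.B 10 5 (Pf.C 1 0x409141c305) (Pf.B 10 4 (Pf.C 1 0x409141c304) (Pf.B 10 3 (Pf.C 0 0x61420a) (Pf.B 10 2 (Pf.C 0 0x41018a) (Pf.B 10 1 (Pf.C 0 0x20c10a) (Pf.C 0 0x102408a)))))))
 (Pq.cons (Pq.L [0,1,2,3,4,5] 1023 (Pf.B 10 5 (Pf.C 1 0x409141c305) (Pf.B 10 4 (Pf.C 1 0x409141c304) (Pf.B 10 3 (Pf.C 0 0x61420a) (Pf.B 10 2 (Pf.C 0 0x41018a) (Pf.B 10 1 (Pf.C 0 0x20c10a) (Pf.B 10 0 (Pf.C 0 32906) (Pf.C 0 0x1200501))))))))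
 Pq.nil)))))))) (Pq.cons (Pq.D 3 (Pq.cons (Pq.D 4 (Pq.cons (Pq.L [1,3] 910 (Pf.C 1 0x509100c086))
 (Pq.cons (Pq.L [1,3] 910 (Pf.C 1 0x509100c086))
 (Pq.cons (Pq.L [1,3] 910 (Pf.C 1 0x509100c086))
 (Pq.cons (Pq.L [1,4] 910 (Pf.C 1 0x5091010086))
 (Pq.cons (Pq.L [1,3] 910 (Pf.C 1 0x509100c086))
 (Pq.cons (Pq.L [3,4] 910 (Pf.C 1 0x5091010186))
 (Pq.cons (Pq.L [1,3] 910 (Pf.C 1 0x509100c086))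
 Pq.nil)))))))) (Pq.cons (Pq.L [4,5] 1023 (Pf.B 10 4 (Pf.C 1 0x409141c304) (Pf.B 10 5 (Pf.C 1 0x284141c308) (Pf.C 0 0x1214504))))
 (Pq.cons (Pq.L [4,5] 1023 (Pf.B 10 5 (Pf.C 1 0x409141c305) (Pf.B 10 4 (Pf.C 1 0x205141c308) (Pf.C 0 0x1210505))))
 (Pq.cons (Pq.L [3,4,5] 1023 (Pf.B 10 5 (Pf.C 1 0x409141c305) (Pf.B 10 4 (Pf.C 1 0x409141c304) (Pf.B 10 3 (Pf.C 0 0x61420a) (Pf.C 0 0x120c504)))))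
 (Pq.cons (Pq.L [2,3,4,5] 1023 (Pf.B 10 5 (Pf.C 1 0x409141c305) (Pf.B 10 4 (Pf.C 1 0x409141c304) (Pf.B 10 3 (Pf.C 0 0x61420a) (Pf.B 10 2 (Pf.C 0 0x41018a) (Pf.C 0 0x1208503))))))
 (Pq.cons (Pq.L [1,2,3,4,5] 1023 (Pf.B 10 5 (Pf.C 1 0x409141c305) (Pf.B 10 4 (Pf.C 1 0x409141c304) (Pf.B 10 3 (Pf.C 0 0x61420a) (Pf.B 10 2 (Pf.C 0 0x41018a) (Pf.B 10 1 (Pf.C 0 0x20c10a) (Pf.C 0 0x1204502)))))))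
 (Pq.cons (Pq.L [0,1,2,3,4,5] 1023 (Pf.B 10 5 (Pf.C 1 0x409141c305) (Pf.B 10 4 (Pf.C 1 0x409141c304) (Pf.B 10 3 (Pf.C 0 0x61420a) (Pf.B 10 2 (Pf.C 0 0x41018a) (Pf.B 10 1 (Pf.C 0 0x20c10a) (Pf.B 10 0 (Pf.C 0 32906) (Pf.C 0 0x102400a))))))))
 Pq.nil)))))))) Pq.nil)))))))) Pq.nil)))
theorem e_o18 : AllRef e_T e_G4 (List.drop 1 (List.drop 3 (List.flatMap (splitP 1) (List.take 1 (List.drop 1 (List.drop 3 (List.flatMap (splitP 0) [⟨[[5,6,7,8,9,10,11],[5,6,7,8,9,10,11],[5,6,7,8,9,10,11],[5,6,7,8,9,10,11],[5,6,7,8,9,10,11]],[⟨0,1,true⟩,⟨0,2,false⟩,⟨0,3,false⟩,⟨0,4,false⟩,⟨1,2,false⟩,⟨1,3,false⟩,⟨1,4,false⟩,⟨2,3,true⟩,⟨2,4,false⟩,⟨3,4,true⟩],[],[]⟩]))))))) :=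
  chkPq_sound e_o18c _ (by decide +kernel)

end Pool.Agent.Lib.MP_849b2e_co
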