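import Pool.Agent.Lib.MP_849b2e_co.Fast
import Pool.Agent.Lib.MP_849b2e_co.Te
import Pool.Agent.Lib.MP_849b2e_co.Te1
import Pool.Agent.Lib.MP_849b2e_co.TeK

set_option maxRecDepth 100000
set_option linter.all false
namespace Pool.Agent.Lib.MP_849b2e_co

noncomputable def e_o19c : Pq := (Pq.cons (Pq.D 2 (Pq.cons (Pq.D 3 (Pq.cons (Pq.D 4 (Pq.cons (Pq.L [0,2] 910 (Pf.C 1 0x5091008006))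
 (Pq.cons (Pq.L [0,2] 910 (Pf.C 1 0x5091008006))
 (Pq.cons (Pq.L [0,2] 910 (Pf.C 1 0x5091008006))
 (Pq.cons (Pq.L [0,2] 910 (Pf.C 1 0x5091008006))
 (Pq.cons (Pq.L [0,3] 910 (Pf.C 1 0x509100c006))
 (Pq.cons (Pq.L [0,2] 910 (Pf.C 1 0x5091008006))
 (Pq.cons (Pq.L [2,3] 910 (Pf.C 1 0x509100c106))
 Pq.nil)))))))) (Pq.cons (Pq.L [4,5] 1023 (Pf.B 10 4 (Pf.C 1 0x409141c304) (Pf.B 10 5 (Pf.C 1 0x284141c308) (Pf.C 0 0x1214504))))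
 (Pq.cons (Pq.L [4,5] 1023 (Pf.B 10 5 (Pf.C 1 0x409141c305) (Pf.B 10 4 (Pf.C 1 0x205141c308) (Pf.C 0 0x1210505))))
 (Pq.cons (Pq.L [3,4,5] 1023 (Pf.B 10 5 (Pf.C 1 0x409141c305) (Pf.B 10 4 (Pf.C 1 0x409141c304) (Pf.B 10 3 (Pf.C 0 0x61420a) (Pf.C 0 0x120c504)))))
 (Pq.cons (Pq.L [2,3,4,5] 1023 (Pf.B 10 5 (Pf.C 1 0x409141c305) (Pf.B 10 4 (Pf.C 1 0x409141c304) (Pf.B 10 3 (Pf.C 0 0x61420a) (Pf.B 10 2 (Pf.C 0 0x41018a) (Pf.C 0 0x1208503))))))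
 (Pq.cons (Pq.L [1,2,3,4,5] 1023 (Pf.B 10 5 (Pf.C 1 0x409141c305) (Pf.B 10 4 (Pf.C 1 0x409141c304) (Pf.B 10 3 (Pf.C 0 0x61420a) (Pf.B 10 2 (Pf.C 0 0x41018a) (Pf.B 10 1 (Pf.C 0 0x20c10a) (Pf.C 0 0x1204502)))))))
 (Pq.cons (Pq.L [0,1,2,3,4,5] 1023 (Pf.B 10 5 (Pf.C 1 0x409141c305) (Pf.B 10 4 (Pf.C 1 0x409141c304) (Pf.B 10 3 (Pf.C 0 0x61420a) (Pf.B 10 2 (Pf.C 0 0x41018a) (Pf.B 10 1 (Pf.C 0 0x20c10a) (Pf.B 10 0 (Pf.C 0 32906) (Pf.C 0 0x1200501))))))))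
 Pq.nil)))))))) (Pq.cons (Pq.D 3 (Pq.cons (Pq.D 4 (Pq.cons (Pq.L [0,2] 910 (Pf.C 1 0x5091008006))
 (Pq.cons (Pq.L [0,2] 910 (Pf.C 1 0x5091008006))
 (Pq.cons (Pq.L [0,2] 910 (Pf.C 1 0x5091008006))
 (Pq.cons (Pq.L [0,2] 910 (Pf.C 1 0x5091008006))
 (Pq.cons (Pq.L [0,3] 910 (Pf.C 1 0x509100c006))
 (Pq.cons (Pq.L [0,2] 910 (Pf.C 1 0x5091008006))
 (Pq.cons (Pq.L [2,3] 910 (Pf.C 1 0x509100c106))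
 Pq.nil)))))))) (Pq.cons (Pq.L [3,4,5] 987 (Pf.B 10 5 (Pf.B 10 4 (Pf.C 1 0x405081c30a) (Pf.B 10 3 (Pf.C 1 0x405061c30a) (Pf.C 0 0xa1018a))) (Pf.C 0 0x102428a)))
 (Pq.cons (Pq.L [3,4] 1023 (Pf.B 10 3 (Pf.C 1 0x409141c303) (Pf.B 10 4 (Pf.C 1 0x203141c308) (Pf.C 0 0x1210503))))
 (Pq.cons (Pq.L [3,4] 1023 (Pf.B 10 4 (Pf.C 1 0x409141c304) (Pf.B 10 3 (Pf.C 1 0x184141c308) (Pf.C 0 0x120c504))))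
 (Pq.cons (Pq.L [2,3,4] 1023 (Pf.B 10 4 (Pf.C 1 0x409141c304) (Pf.B 10 3 (Pf.C 1 0x409141c303) (Pf.B 10 2 (Pf.C 0 0x41018a) (Pf.C 0 0x1208503)))))
 (Pq.cons (Pq.L [1,2,3,4] 1023 (Pf.B 10 4 (Pf.C 1 0x409141c304) (Pf.B 10 3 (Pf.C 1 0x409141c303) (Pf.B 10 2 (Pf.C 0 0x41018a) (Pf.B 10 1 (Pf.C 0 0x20c10a) (Pf.C 0 0x1204502))))))
 (Pq.cons (Pq.L [0,1,2,3,4] 1023 (Pf.B 10 4 (Pf.C 1 0x409141c304) (Pf.B 10 3 (Pf.C 1 0x409141c303) (Pf.B 10 2 (Pf.C 0 0x41018a) (Pf.B 10 1 (Pf.C 0 0x20c10a) (Pf.B 10 0 (Pf.C 0 32906) (Pf.C 0 0x1200501)))))))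
 Pq.nil)))))))) (Pq.cons (Pq.D 3 (Pq.cons (Pq.D 4 (Pq.cons (Pq.L [0,2] 910 (Pf.C 1 0x5091008006))
 (Pq.cons (Pq.L [0,2] 910 (Pf.C 1 0x5091008006))
 (Pq.cons (Pq.L [0,2] 910 (Pf.C 1 0x5091008006))
 (Pq.cons (Pq.L [0,2] 910 (Pf.C 1 0x5091008006))
 (Pq.cons (Pq.L [0,3] 910 (Pf.C 1 0x509100c006))
 (Pq.cons (Pq.L [0,2] 910 (Pf.C 1 0x5091008006))
 (Pq.cons (Pq.L [2,3] 910 (Pf.C 1 0x509100c106))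
 Pq.nil)))))))) (Pq.cons (Pq.L [3,5] 1023 (Pf.B 10 3 (Pf.C 1 0x409141c303) (Pf.B 10 5 (Pf.C 1 0x283141c308) (Pf.C 0 0x1214503))))
 (Pq.cons (Pq.L [3,4,5] 1023 (Pf.B 10 5 (Pf.C 1 0x409141c305) (Pf.B 10 4 (Pf.B 10 3 (Pf.C 1 0x404061c30a) (Pf.C 0 0x81418a)) (Pf.C 0 0x102420a))))
 (Pq.cons (Pq.L [3,5] 1023 (Pf.B 10 5 (Pf.C 1 0x409141c305) (Pf.B 10 3 (Pf.C 1 0x185141c308) (Pf.C 0 0x120c505))))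
 (Pq.cons (Pq.L [2,3,4,5] 1023 (Pf.B 10 5 (Pf.C 1 0x409141c305) (Pf.B 10 3 (Pf.C 1 0x409141c303) (Pf.B 10 4 (Pf.C 0 0x81418a) (Pf.B 10 2 (Pf.C 0 0x41018a) (Pf.C 0 0x1208503))))))
 (Pq.cons (Pq.L [1,2,3,4,5] 1023 (Pf.B 10 5 (Pf.C 1 0x409141c305) (Pf.B 10 3 (Pf.C 1 0x409141c303) (Pf.B 10 4 (Pf.C 0 0x81418a) (Pf.B 10 2 (Pf.C 0 0x41018a) (Pf.B 10 1 (Pf.C 0 0x20c10a) (Pf.C 0 0x1204502)))))))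
 (Pq.cons (Pq.L [0,1,2,3,4,5] 1023 (Pf.B 10 5 (Pf.C 1 0x409141c305) (Pf.B 10 3 (Pf.C 1 0x409141c303) (Pf.B 10 4 (Pf.C 0 0x81418a) (Pf.B 10 2 (Pf.C 0 0x41018a) (Pf.B 10 1 (Pf.C 0 0x20c10a) (Pf.B 10 0 (Pf.C 0 32906) (Pf.C 0 0x1200501))))))))
 Pq.nil)))))))) (Pq.cons (Pq.D 3 (Pq.cons (Pq.D 4 (Pq.cons (Pq.L [0,2] 910 (Pf.C 1 0x5091008006))
 (Pq.cons (Pq.L [0,2] 910 (Pf.C 1 0x5091008006))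
 (Pq.cons (Pq.L [0,2] 910 (Pf.C 1 0x5091008006))
 (Pq.cons (Pq.L [0,2] 910 (Pf.C 1 0x5091008006))
 (Pq.cons (Pq.L [0,4] 910 (Pf.C 1 0x5091010006))
 (Pq.cons (Pq.L [0,2] 910 (Pf.C 1 0x5091008006))
 (Pq.cons (Pq.L [2,4] 910 (Pf.C 1 0x5091010106))
 Pq.nil)))))))) (Pq.cons (Pq.L [4,5] 1023 (Pf.B 10 4 (Pf.C 1 0x409141c304) (Pf.B 10 5 (Pf.C 1 0x284141c308) (Pf.C 0 0x1214504))))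
 (Pq.cons (Pq.L [4,5] 1023 (Pf.B 10 5 (Pf.C 1 0x409141c305) (Pf.B 10 4 (Pf.C 1 0x205141c308) (Pf.C 0 0x1210505))))
 (Pq.cons (Pq.L [3,4,5] 1023 (Pf.B 10 5 (Pf.C 1 0x409141c305) (Pf.B 10 4 (Pf.C 1 0x409141c304) (Pf.B 10 3 (Pf.C 0 0x61420a) (Pf.C 0 0x102418a)))))
 (Pq.cons (Pq.L [2,3,4,5] 1023 (Pf.B 10 5 (Pf.C 1 0x409141c305) (Pf.B 10 4 (Pf.C 1 0x409141c304) (Pf.B 10 3 (Pf.C 0 0x61420a) (Pf.B 10 2 (Pf.C 0 0x41018a) (Pf.C 0 0x1208503))))))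
 (Pq.cons (Pq.L [1,2,3,4,5] 1023 (Pf.B 10 5 (Pf.C 1 0x409141c305) (Pf.B 10 4 (Pf.C 1 0x409141c304) (Pf.B 10 3 (Pf.C 0 0x61420a) (Pf.B 10 2 (Pf.C 0 0x41018a) (Pf.B 10 1 (Pf.C 0 0x20c10a) (Pf.C 0 0x1204502)))))))
 (Pq.cons (Pq.L [0,1,2,3,4,5] 1023 (Pf.B 10 5 (Pf.C 1 0x409141c305) (Pf.B 10 4 (Pf.C 1 0x409141c304) (Pf.B 10 3 (Pf.C 0 0x61420a) (Pf.B 10 2 (Pf.C 0 0x41018a) (Pf.B 10 1 (Pf.C 0 0x20c10a) (Pf.B 10 0 (Pf.C 0 32906) (Pf.C 0 0x1200501))))))))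
 Pq.nil)))))))) (Pq.cons (Pq.D 3 (Pq.cons (Pq.D 4 (Pq.cons (Pq.L [0,3] 910 (Pf.C 1 0x509100c006))
 (Pq.cons (Pq.L [0,3] 910 (Pf.C 1 0x509100c006))
 (Pq.cons (Pq.L [0,3] 910 (Pf.C 1 0x509100c006))
 (Pq.cons (Pq.L [0,4] 910 (Pf.C 1 0x5091010006))
 (Pq.cons (Pq.L [0,3] 910 (Pf.C 1 0x509100c006))
 (Pq.cons (Pq.L [0,3] 910 (Pf.C 1 0x509100c006))
 (Pq.cons (Pq.L [3,4] 910 (Pf.C 1 0x5091010186))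
 Pq.nil)))))))) (Pq.cons (Pq.L [4,5] 1023 (Pf.B 10 4 (Pf.C 1 0x409141c304) (Pf.B 10 5 (Pf.C 1 0x284141c308) (Pf.C 0 0x1214504))))
 (Pq.cons (Pq.L [4,5] 1023 (Pf.B 10 5 (Pf.C 1 0x409141c305) (Pf.B 10 4 (Pf.C 1 0x205141c308) (Pf.C 0 0x1210505))))
 (Pq.cons (Pq.L [3,4,5] 1023 (Pf.B 10 5 (Pf.C 1 0x409141c305) (Pf.B 10 4 (Pf.C 1 0x409141c304) (Pf.B 10 3 (Pf.C 0 0x61420a) (Pf.C 0 0x120c504)))))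
 (Pq.cons (Pq.L [2,3,4,5] 1023 (Pf.B 10 5 (Pf.C 1 0x409141c305) (Pf.B 10 4 (Pf.C 1 0x409141c304) (Pf.B 10 3 (Pf.C 0 0x61420a) (Pf.B 10 2 (Pf.C 0 0x41018a) (Pf.C 0 0x102410a))))))
 (Pq.cons (Pq.L [1,2,3,4,5] 1023 (Pf.B 10 5 (Pf.C 1 0x409141c305) (Pf.B 10 4 (Pf.C 1 0x409141c304) (Pf.B 10 3 (Pf.C 0 0x61420a) (Pf.B 10 2 (Pf.C 0 0x41018a) (Pf.B 10 1 (Pf.C 0 0x20c10a) (Pf.C 0 0x1204502)))))))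
 (Pq.cons (Pq.L [0,1,2,3,4,5] 1023 (Pf.B 10 5 (Pf.C 1 0x409141c305) (Pf.B 10 4 (Pf.C 1 0x409141c304) (Pf.B 10 3 (Pf.C 0 0x61420a) (Pf.B 10 2 (Pf.C 0 0x41018a) (Pf.B 10 1 (Pf.C 0 0x20c10a) (Pf.B 10 0 (Pf.C 0 32906) (Pf.C 0 0x1200501))))))))
 Pq.nil)))))))) (Pq.cons (Pq.D 3 (Pq.cons (Pq.D 4 (Pq.cons (Pq.L [0,2] 910 (Pf.C 1 0x5091008006))
 (Pq.cons (Pq.L [0,2] 910 (Pf.C 1 0x5091008006))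
 (Pq.cons (Pq.L [0,2] 910 (Pf.C 1 0x5091008006))
 (Pq.cons (Pq.L [0,2] 910 (Pf.C 1 0x5091008006))
 (Pq.cons (Pq.L [0,3] 910 (Pf.C 1 0x509100c006))
 (Pq.cons (Pq.L [0,2] 910 (Pf.C 1 0x5091008006))
 (Pq.cons (Pq.L [2,3] 910 (Pf.C 1 0x509100c106))
 Pq.nil)))))))) (Pq.cons (Pq.L [4,5] 1023 (Pf.B 10 4 (Pf.C 1 0x409141c304) (Pf.B 10 5 (Pf.C 1 0x284141c308) (Pf.C 0 0x1214504))))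
 (Pq.cons (Pq.L [4,5] 1023 (Pf.B 10 5 (Pf.C 1 0x409141c305) (Pf.B 10 4 (Pf.C 1 0x205141c308) (Pf.C 0 0x1210505))))
 (Pq.cons (Pq.L [3,4,5] 1023 (Pf.B 10 5 (Pf.C 1 0x409141c305) (Pf.B 10 4 (Pf.C 1 0x409141c304) (Pf.B 10 3 (Pf.C 0 0x61420a) (Pf.C 0 0x120c504)))))
 (Pq.cons (Pq.L [2,3,4,5] 1023 (Pf.B 10 5 (Pf.C 1 0x409141c305) (Pf.B 10 4 (Pf.C 1 0x409141c304) (Pf.B 10 3 (Pf.C 0 0x61420a) (Pf.B 10 2 (Pf.C 0 0x41018a) (Pf.C 0 0x1208503))))))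
 (Pq.cons (Pq.L [1,2,3,4,5] 1023 (Pf.B 10 5 (Pf.C 1 0x409141c305) (Pf.B 10 4 (Pf.C 1 0x409141c304) (Pf.B 10 3 (Pf.C 0 0x61420a) (Pf.B 10 2 (Pf.C 0 0x41018a) (Pf.B 10 1 (Pf.C 0 0x20c10a) (Pf.C 0 0x102408a)))))))
 (Pq.cons (Pq.L [0,1,2,3,4,5] 1023 (Pf.B 10 5 (Pf.C 1 0x409141c305) (Pf.B 10 4 (Pf.C 1 0x409141c304) (Pf.B 10 3 (Pf.C 0 0x61420a) (Pf.B 10 2 (Pf.C 0 0x41018a) (Pf.B 10 1 (Pf.C 0 0x20c10a) (Pf.B 10 0 (Pf.C 0 32906) (Pf.C 0 0x1200501))))))))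
 Pq.nil)))))))) (Pq.cons (Pq.D 3 (Pq.cons (Pq.D 4 (Pq.cons (Pq.L [2,3] 910 (Pf.C 1 0x509100c106))
 (Pq.cons (Pq.L [2,3] 910 (Pf.C 1 0x509100c106))
 (Pq.cons (Pq.L [2,3] 910 (Pf.C 1 0x509100c106))
 (Pq.cons (Pq.L [2,4] 910 (Pf.C 1 0x5091010106))
 (Pq.cons (Pq.L [3,4] 910 (Pf.C 1 0x5091010186))
 (Pq.cons (Pq.L [2,3] 910 (Pf.C 1 0x509100c106))
 (Pq.cons (Pq.L [2,3] 910 (Pf.C 1 0x509100c106))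
 Pq.nil)))))))) (Pq.cons (Pq.L [4,5] 1023 (Pf.B 10 4 (Pf.C 1 0x409141c304) (Pf.B 10 5 (Pf.C 1 0x284141c308) (Pf.C 0 0x1214504))))
 (Pq.cons (Pq.L [4,5] 1023 (Pf.B 10 5 (Pf.C 1 0x409141c305) (Pf.B 10 4 (Pf.C 1 0x205141c308) (Pf.C 0 0x1210505))))
 (Pq.cons (Pq.L [3,4,5] 1023 (Pf.B 10 5 (Pf.C 1 0x409141c305) (Pf.B 10 4 (Pf.C 1 0x409141c304) (Pf.B 10 3 (Pf.C 0 0x61420a) (Pf.C 0 0x120c504)))))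
 (Pq.cons (Pq.L [2,3,4,5] 1023 (Pf.B 10 5 (Pf.C 1 0x409141c305) (Pf.B 10 4 (Pf.C 1 0x409141c304) (Pf.B 10 3 (Pf.C 0 0x61420a) (Pf.B 10 2 (Pf.C 0 0x41018a) (Pf.C 0 0x1208503))))))
 (Pq.cons (Pq.L [1,2,3,4,5] 1023 (Pf.B 10 5 (Pf.C 1 0x409141c305) (Pf.B 10 4 (Pf.C 1 0x409141c304) (Pf.B 10 3 (Pf.C 0 0x61420a) (Pf.B 10 2 (Pf.C 0 0x41018a) (Pf.B 10 1 (Pf.C 0 0x20c10a) (Pf.C 0 0x1204502)))))))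
 (Pq.cons (Pq.L [0,1,2,3,4,5] 1023 (Pf.B 10 5 (Pf.C 1 0x409141c305) (Pf.B 10 4 (Pf.C 1 0x409141c304) (Pf.B 10 3 (Pf.C 0 0x61420a) (Pf.B 10 2 (Pf.C 0 0x41018a) (Pf.B 10 1 (Pf.C 0 0x20c10a) (Pf.B 10 0 (Pf.C 0 32906) (Pf.C 0 0x102400a))))))))
 Pq.nil)))))))) Pq.nil)))))))) (Pq.cons (Pq.D 2 (Pq.cons (Pq.D 3 (Pq.cons (Pq.D 4 (Pq.cons (Pq.L [0,2] 910 (Pf.C 1 0x5091008006))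
 (Pq.cons (Pq.L [0,2] 910 (Pf.C 1 0x5091008006))
 (Pq.cons (Pq.L [0,2] 910 (Pf.C 1 0x5091008006))
 (Pq.cons (Pq.L [0,2] 910 (Pf.C 1 0x5091008006))
 (Pq.cons (Pq.L [0,3] 910 (Pf.C 1 0x509100c006))
 (Pq.cons (Pq.L [0,2] 910 (Pf.C 1 0x5091008006))
 (Pq.cons (Pq.L [2,3] 910 (Pf.C 1 0x509100c106))
 Pq.nil)))))))) (Pq.cons (Pq.L [3,4,5] 1023 (Pf.B 10 4 (Pf.C 1 0x409141c304) (Pf.B 10 5 (Pf.B 10 3 (Pf.C 1 0x409141c303) (Pf.C 0 0xa1018a)) (Pf.C 0 0x1214504))))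
 (Pq.cons (Pq.L [3,4] 1023 (Pf.B 10 3 (Pf.C 1 0x409141c303) (Pf.B 10 4 (Pf.C 1 0x203141c308) (Pf.C 0 0x1210503))))
 (Pq.cons (Pq.L [3,4] 1023 (Pf.B 10 4 (Pf.C 1 0x409141c304) (Pf.B 10 3 (Pf.C 1 0x184141c308) (Pf.C 0 0x120c504))))
 (Pq.cons (Pq.L [2,3,4] 1023 (Pf.B 10 4 (Pf.C 1 0x409141c304) (Pf.B 10 3 (Pf.C 1 0x409141c303) (Pf.B 10 2 (Pf.C 0 0x41018a) (Pf.C 0 0x1208503)))))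
 (Pq.cons (Pq.L [1,2,3,4] 1023 (Pf.B 10 4 (Pf.C 1 0x409141c304) (Pf.B 10 3 (Pf.C 1 0x409141c303) (Pf.B 10 2 (Pf.C 0 0x41018a) (Pf.B 10 1 (Pf.C 0 0x20c10a) (Pf.C 0 0x1204502))))))
 (Pq.cons (Pq.L [0,1,2,3,4] 1023 (Pf.B 10 4 (Pf.C 1 0x409141c304) (Pf.B 10 3 (Pf.C 1 0x409141c303) (Pf.B 10 2 (Pf.C 0 0x41018a) (Pf.B 10 1 (Pf.C 0 0x20c10a) (Pf.B 10 0 (Pf.C 0 32906) (Pf.C 0 0x1200501)))))))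
 Pq.nil)))))))) (Pq.cons (Pq.D 3 (Pq.cons (Pq.D 4 (Pq.cons (Pq.L [0,2] 910 (Pf.C 1 0x5091008006))
 (Pq.cons (Pq.L [0,2] 910 (Pf.C 1 0x5091008006))
 (Pq.cons (Pq.L [0,2] 910 (Pf.C 1 0x5091008006))
 (Pq.cons (Pq.L [0,2] 910 (Pf.C 1 0x5091008006))
 (Pq.cons (Pq.L [0,3] 910 (Pf.C 1 0x509100c006))
 (Pq.cons (Pq.L [0,2] 910 (Pf.C 1 0x5091008006))
 (Pq.cons (Pq.L [2,3] 910 (Pf.C 1 0x509100c106))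
 Pq.nil)))))))) (Pq.cons (Pq.L [3,4,5] 1023 (Pf.B 10 5 (Pf.B 10 4 (Pf.C 1 0x409141c304) (Pf.B 10 3 (Pf.C 1 0x409141c303) (Pf.C 0 0xa1018a))) (Pf.C 0 0x102428a)))
 (Pq.cons (Pq.L [3,4] 1023 (Pf.B 10 3 (Pf.C 1 0x409141c303) (Pf.B 10 4 (Pf.C 1 0x203141c308) (Pf.C 0 0x1210503))))
 (Pq.cons (Pq.L [3,4] 1023 (Pf.B 10 4 (Pf.C 1 0x409141c304) (Pf.B 10 3 (Pf.C 1 0x184141c308) (Pf.C 0 0x120c504))))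
 (Pq.cons (Pq.L [2,3,4] 1023 (Pf.B 10 4 (Pf.C 1 0x409141c304) (Pf.B 10 3 (Pf.C 1 0x409141c303) (Pf.B 10 2 (Pf.C 0 0x41018a) (Pf.C 0 0x1208503)))))
 (Pq.cons (Pq.L [1,2,3,4] 1023 (Pf.B 10 4 (Pf.C 1 0x409141c304) (Pf.B 10 3 (Pf.C 1 0x409141c303) (Pf.B 10 2 (Pf.C 0 0x41018a) (Pf.B 10 1 (Pf.C 0 0x20c10a) (Pf.C 0 0x1204502))))))
 (Pq.cons (Pq.L [0,1,2,3,4] 1023 (Pf.B 10 4 (Pf.C 1 0x409141c304) (Pf.B 10 3 (Pf.C 1 0x409141c303) (Pf.B 10 2 (Pf.C 0 0x41018a) (Pf.B 10 1 (Pf.C 0 0x20c10a) (Pf.B 10 0 (Pf.C 0 32906) (Pf.C 0 0x1200501)))))))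
 Pq.nil)))))))) (Pq.cons (Pq.D 3 (Pq.cons (Pq.D 4 (Pq.cons (Pq.L [0,2] 910 (Pf.C 1 0x5091008006))
 (Pq.cons (Pq.L [0,2] 910 (Pf.C 1 0x5091008006))
 (Pq.cons (Pq.L [0,2] 910 (Pf.C 1 0x5091008006))
 (Pq.cons (Pq.L [0,2] 910 (Pf.C 1 0x5091008006))
 (Pq.cons (Pq.L [0,3] 910 (Pf.C 1 0x509100c006))
 (Pq.cons (Pq.L [0,2] 910 (Pf.C 1 0x5091008006))
 (Pq.cons (Pq.L [2,3] 910 (Pf.C 1 0x509100c106))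
 Pq.nil)))))))) (Pq.cons (Pq.L [2,3,4,5] 1023 (Pf.B 10 3 (Pf.C 1 0x409141c303) (Pf.B 10 5 (Pf.B 10 4 (Pf.B 10 2 (Pf.C 1 0x404041c30a) (Pf.C 0 0x80c10a)) (Pf.C 0 0xa0c20a)) (Pf.C 0 0x1214503))))
 (Pq.cons (Pq.L [2,3,4] 987 (Pf.B 10 4 (Pf.B 10 3 (Pf.C 1 0x404061c30a) (Pf.B 10 2 (Pf.C 1 0x404041c30a) (Pf.C 0 0x80c10a))) (Pf.C 0 0x102420a)))
 (Pq.cons (Pq.L [2,3] 1023 (Pf.B 10 2 (Pf.C 1 0x409141c302) (Pf.B 10 3 (Pf.C 1 0x182141c308) (Pf.C 0 0x120c502))))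
 (Pq.cons (Pq.L [2,3] 1023 (Pf.B 10 3 (Pf.C 1 0x409141c303) (Pf.B 10 2 (Pf.C 1 0x103141c308) (Pf.C 0 0x1208503))))
 (Pq.cons (Pq.L [1,2,3] 1023 (Pf.B 10 3 (Pf.C 1 0x409141c303) (Pf.B 10 2 (Pf.C 1 0x409141c302) (Pf.B 10 1 (Pf.C 0 0x20c10a) (Pf.C 0 0x1204502)))))
 (Pq.cons (Pq.L [0,1,2,3] 1023 (Pf.B 10 3 (Pf.C 1 0x409141c303) (Pf.B 10 2 (Pf.C 1 0x409141c302) (Pf.B 10 1 (Pf.C 0 0x20c10a) (Pf.B 10 0 (Pf.C 0 32906) (Pf.C 0 0x1200501))))))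
 Pq.nil)))))))) (Pq.cons (Pq.D 3 (Pq.cons (Pq.D 4 (Pq.cons (Pq.L [0,2] 910 (Pf.C 1 0x5091008006))
 (Pq.cons (Pq.L [0,2] 910 (Pf.C 1 0x5091008006))
 (Pq.cons (Pq.L [0,2] 910 (Pf.C 1 0x5091008006))
 (Pq.cons (Pq.L [0,2] 910 (Pf.C 1 0x5091008006))
 (Pq.cons (Pq.L [0,4] 910 (Pf.C 1 0x5091010006))
 (Pq.cons (Pq.L [0,2] 910 (Pf.C 1 0x5091008006))
 (Pq.cons (Pq.L [2,4] 910 (Pf.C 1 0x5091010106))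
 Pq.nil)))))))) (Pq.cons (Pq.L [2,3,4,5] 1023 (Pf.B 10 4 (Pf.C 1 0x409141c304) (Pf.B 10 5 (Pf.B 10 3 (Pf.B 10 2 (Pf.C 1 0x403041c30a) (Pf.C 0 0x61010a)) (Pf.C 0 0xa1018a)) (Pf.C 0 0x1214504))))
 (Pq.cons (Pq.L [2,4] 1023 (Pf.B 10 2 (Pf.C 1 0x409141c302) (Pf.B 10 4 (Pf.C 1 0x202141c308) (Pf.C 0 0x1210502))))
 (Pq.cons (Pq.L [2,3,4] 1023 (Pf.B 10 4 (Pf.C 1 0x409141c304) (Pf.B 10 3 (Pf.B 10 2 (Pf.C 1 0x403041c30a) (Pf.C 0 0x61010a)) (Pf.C 0 0x102418a))))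
 (Pq.cons (Pq.L [2,4] 1023 (Pf.B 10 4 (Pf.C 1 0x409141c304) (Pf.B 10 2 (Pf.C 1 0x104141c308) (Pf.C 0 0x1208504))))
 (Pq.cons (Pq.L [1,2,3,4] 1023 (Pf.B 10 4 (Pf.C 1 0x409141c304) (Pf.B 10 2 (Pf.C 1 0x409141c302) (Pf.B 10 3 (Pf.C 0 0x61010a) (Pf.B 10 1 (Pf.C 0 0x20c10a) (Pf.C 0 0x1204502))))))
 (Pq.cons (Pq.L [0,1,2,3,4] 1023 (Pf.B 10 4 (Pf.C 1 0x409141c304) (Pf.B 10 2 (Pf.C 1 0x409141c302) (Pf.B 10 3 (Pf.C 0 0x61010a) (Pf.B 10 1 (Pf.C 0 0x20c10a) (Pf.B 10 0 (Pf.C 0 32906) (Pf.C 0 0x1200501)))))))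
 Pq.nil)))))))) (Pq.cons (Pq.D 3 (Pq.cons (Pq.D 4 (Pq.cons (Pq.L [0,3] 910 (Pf.C 1 0x509100c006))
 (Pq.cons (Pq.L [0,3] 910 (Pf.C 1 0x509100c006))
 (Pq.cons (Pq.L [0,3] 910 (Pf.C 1 0x509100c006))
 (Pq.cons (Pq.L [0,4] 910 (Pf.C 1 0x5091010006))
 (Pq.cons (Pq.L [0,3] 910 (Pf.C 1 0x509100c006))
 (Pq.cons (Pq.L [0,3] 910 (Pf.C 1 0x509100c006))
 (Pq.cons (Pq.L [3,4] 910 (Pf.C 1 0x5091010186))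
 Pq.nil)))))))) (Pq.cons (Pq.L [3,4,5] 1023 (Pf.B 10 4 (Pf.C 1 0x409141c304) (Pf.B 10 5 (Pf.B 10 3 (Pf.C 1 0x409141c303) (Pf.C 0 0xa1018a)) (Pf.C 0 0x1214504))))
 (Pq.cons (Pq.L [3,4] 1023 (Pf.B 10 3 (Pf.C 1 0x409141c303) (Pf.B 10 4 (Pf.C 1 0x203141c308) (Pf.C 0 0x1210503))))
 (Pq.cons (Pq.L [3,4] 1023 (Pf.B 10 4 (Pf.C 1 0x409141c304) (Pf.B 10 3 (Pf.C 1 0x184141c308) (Pf.C 0 0x120c504))))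
 (Pq.cons (Pq.L [2,3,4] 1023 (Pf.B 10 4 (Pf.C 1 0x409141c304) (Pf.B 10 3 (Pf.C 1 0x409141c303) (Pf.B 10 2 (Pf.C 0 0x41018a) (Pf.C 0 0x102410a)))))
 (Pq.cons (Pq.L [1,2,3,4] 1023 (Pf.B 10 4 (Pf.C 1 0x409141c304) (Pf.B 10 3 (Pf.C 1 0x409141c303) (Pf.B 10 2 (Pf.C 0 0x41018a) (Pf.B 10 1 (Pf.C 0 0x20c10a) (Pf.C 0 0x1204502))))))
 (Pq.cons (Pq.L [0,1,2,3,4] 1023 (Pf.B 10 4 (Pf.C 1 0x409141c304) (Pf.B 10 3 (Pf.C 1 0x409141c303) (Pf.B 10 2 (Pf.C 0 0x41018a) (Pf.B 10 1 (Pf.C 0 0x20c10a) (Pf.B 10 0 (Pf.C 0 32906) (Pf.C 0 0x1200501)))))))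
 Pq.nil)))))))) (Pq.cons (Pq.D 3 (Pq.cons (Pq.D 4 (Pq.cons (Pq.L [0,2] 910 (Pf.C 1 0x5091008006))
 (Pq.cons (Pq.L [0,2] 910 (Pf.C 1 0x5091008006))
 (Pq.cons (Pq.L [0,2] 910 (Pf.C 1 0x5091008006))
 (Pq.cons (Pq.L [0,2] 910 (Pf.C 1 0x5091008006))
 (Pq.cons (Pq.L [0,3] 910 (Pf.C 1 0x509100c006))
 (Pq.cons (Pq.L [0,2] 910 (Pf.C 1 0x5091008006))
 (Pq.cons (Pq.L [2,3] 910 (Pf.C 1 0x509100c106))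
 Pq.nil)))))))) (Pq.cons (Pq.L [3,4,5] 1023 (Pf.B 10 4 (Pf.C 1 0x409141c304) (Pf.B 10 5 (Pf.B 10 3 (Pf.C 1 0x409141c303) (Pf.C 0 0xa1018a)) (Pf.C 0 0x1214504))))
 (Pq.cons (Pq.L [3,4] 1023 (Pf.B 10 3 (Pf.C 1 0x409141c303) (Pf.B 10 4 (Pf.C 1 0x203141c308) (Pf.C 0 0x1210503))))
 (Pq.cons (Pq.L [3,4] 1023 (Pf.B 10 4 (Pf.C 1 0x409141c304) (Pf.B 10 3 (Pf.C 1 0x184141c308) (Pf.C 0 0x120c504))))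
 (Pq.cons (Pq.L [2,3,4] 1023 (Pf.B 10 4 (Pf.C 1 0x409141c304) (Pf.B 10 3 (Pf.C 1 0x409141c303) (Pf.B 10 2 (Pf.C 0 0x41018a) (Pf.C 0 0x1208503)))))
 (Pq.cons (Pq.L [1,2,3,4] 1023 (Pf.B 10 4 (Pf.C 1 0x409141c304) (Pf.B 10 3 (Pf.C 1 0x409141c303) (Pf.B 10 2 (Pf.C 0 0x41018a) (Pf.B 10 1 (Pf.C 0 0x20c10a) (Pf.C 0 0x102408a))))))
 (Pq.cons (Pq.L [0,1,2,3,4] 1023 (Pf.B 10 4 (Pf.C 1 0x409141c304) (Pf.B 10 3 (Pf.C 1 0x409141c303) (Pf.B 10 2 (Pf.C 0 0x41018a) (Pf.B 10 1 (Pf.C 0 0x20c10a) (Pf.B 10 0 (Pf.C 0 32906) (Pf.C 0 0x1200501)))))))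
 Pq.nil)))))))) (Pq.cons (Pq.D 3 (Pq.cons (Pq.D 4 (Pq.cons (Pq.L [2,3] 910 (Pf.C 1 0x509100c106))
 (Pq.cons (Pq.L [2,3] 910 (Pf.C 1 0x509100c106))
 (Pq.cons (Pq.L [2,3] 910 (Pf.C 1 0x509100c106))
 (Pq.cons (Pq.L [2,4] 910 (Pf.C 1 0x5091010106))
 (Pq.cons (Pq.L [3,4] 910 (Pf.C 1 0x5091010186))
 (Pq.cons (Pq.L [2,3] 910 (Pf.C 1 0x509100c106))
 (Pq.cons (Pq.L [2,3] 910 (Pf.C 1 0x509100c106))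
 Pq.nil)))))))) (Pq.cons (Pq.L [3,4,5] 1023 (Pf.B 10 4 (Pf.C 1 0x409141c304) (Pf.B 10 5 (Pf.B 10 3 (Pf.C 1 0x409141c303) (Pf.C 0 0xa1018a)) (Pf.C 0 0x1214504))))
 (Pq.cons (Pq.L [3,4] 1023 (Pf.B 10 3 (Pf.C 1 0x409141c303) (Pf.B 10 4 (Pf.C 1 0x203141c308) (Pf.C 0 0x1210503))))
 (Pq.cons (Pq.L [3,4] 1023 (Pf.B 10 4 (Pf.C 1 0x409141c304) (Pf.B 10 3 (Pf.C 1 0x184141c308) (Pf.C 0 0x120c504))))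
 (Pq.cons (Pq.L [2,3,4] 1023 (Pf.B 10 4 (Pf.C 1 0x409141c304) (Pf.B 10 3 (Pf.C 1 0x409141c303) (Pf.B 10 2 (Pf.C 0 0x41018a) (Pf.C 0 0x1208503)))))
 (Pq.cons (Pq.L [1,2,3,4] 1023 (Pf.B 10 4 (Pf.C 1 0x409141c304) (Pf.B 10 3 (Pf.C 1 0x409141c303) (Pf.B 10 2 (Pf.C 0 0x41018a) (Pf.B 10 1 (Pf.C 0 0x20c10a) (Pf.C 0 0x1204502))))))
 (Pq.cons (Pq.L [0,1,2,3,4] 1023 (Pf.B 10 4 (Pf.C 1 0x409141c304) (Pf.B 10 3 (Pf.C 1 0x409141c303) (Pf.B 10 2 (Pf.C 0 0x41018a) (Pf.B 10 1 (Pf.C 0 0x20c10a) (Pf.B 10 0 (Pf.C 0 32906) (Pf.C 0 0x102400a)))))))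
 Pq.nil)))))))) Pq.nil)))))))) (Pq.cons (Pq.D 2 (Pq.cons (Pq.D 3 (Pq.cons (Pq.D 4 (Pq.cons (Pq.L [0,2] 910 (Pf.C 1 0x5091008006))
 (Pq.cons (Pq.L [0,2] 910 (Pf.C 1 0x5091008006))
 (Pq.cons (Pq.L [0,2] 910 (Pf.C 1 0x5091008006))
 (Pq.cons (Pq.L [0,2] 910 (Pf.C 1 0x5091008006))
 (Pq.cons (Pq.L [0,3] 910 (Pf.C 1 0x509100c006))
 (Pq.cons (Pq.L [0,2] 910 (Pf.C 1 0x5091008006))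
 (Pq.cons (Pq.L [2,3] 910 (Pf.C 1 0x509100c106))
 Pq.nil)))))))) (Pq.cons (Pq.L [3,5] 1023 (Pf.B 10 3 (Pf.C 1 0x409141c303) (Pf.B 10 5 (Pf.C 1 0x283141c308) (Pf.C 0 0x1214503))))
 (Pq.cons (Pq.L [3,4,5] 1023 (Pf.B 10 5 (Pf.C 1 0x409141c305) (Pf.B 10 4 (Pf.B 10 3 (Pf.C 1 0x409141c303) (Pf.C 0 0x81418a)) (Pf.C 0 0x1210505))))
 (Pq.cons (Pq.L [3,5] 1023 (Pf.B 10 5 (Pf.C 1 0x409141c305) (Pf.B 10 3 (Pf.C 1 0x185141c308) (Pf.C 0 0x120c505))))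
 (Pq.cons (Pq.L [2,3,4,5] 1023 (Pf.B 10 5 (Pf.C 1 0x409141c305) (Pf.B 10 3 (Pf.C 1 0x409141c303) (Pf.B 10 4 (Pf.C 0 0x81418a) (Pf.B 10 2 (Pf.C 0 0x41018a) (Pf.C 0 0x1208503))))))
 (Pq.cons (Pq.L [1,2,3,4,5] 1023 (Pf.B 10 5 (Pf.C 1 0x409141c305) (Pf.B 10 3 (Pf.C 1 0x409141c303) (Pf.B 10 4 (Pf.C 0 0x81418a) (Pf.B 10 2 (Pf.C 0 0x41018a) (Pf.B 10 1 (Pf.C 0 0x20c10a) (Pf.C 0 0x1204502)))))))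
 (Pq.cons (Pq.L [0,1,2,3,4,5] 1023 (Pf.B 10 5 (Pf.C 1 0x409141c305) (Pf.B 10 3 (Pf.C 1 0x409141c303) (Pf.B 10 4 (Pf.C 0 0x81418a) (Pf.B 10 2 (Pf.C 0 0x41018a) (Pf.B 10 1 (Pf.C 0 0x20c10a) (Pf.B 10 0 (Pf.C 0 32906) (Pf.C 0 0x1200501))))))))
 Pq.nil)))))))) (Pq.cons (Pq.D 3 (Pq.cons (Pq.D 4 (Pq.cons (Pq.L [0,2] 910 (Pf.C 1 0x5091008006))
 (Pq.cons (Pq.L [0,2] 910 (Pf.C 1 0x5091008006))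
 (Pq.cons (Pq.L [0,2] 910 (Pf.C 1 0x5091008006))
 (Pq.cons (Pq.L [0,2] 910 (Pf.C 1 0x5091008006))
 (Pq.cons (Pq.L [0,3] 910 (Pf.C 1 0x509100c006))
 (Pq.cons (Pq.L [0,2] 910 (Pf.C 1 0x5091008006))
 (Pq.cons (Pq.L [2,3] 910 (Pf.C 1 0x509100c106))
 Pq.nil)))))))) (Pq.cons (Pq.L [2,3,4,5] 987 (Pf.B 10 5 (Pf.B 10 3 (Pf.C 1 0x405061c30a) (Pf.B 10 4 (Pf.B 10 2 (Pf.C 1 0x405041c30a) (Pf.C 0 0x80c10a)) (Pf.C 0 0xa0c20a))) (Pf.C 0 0x102428a)))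
 (Pq.cons (Pq.L [2,3,4,5] 1023 (Pf.B 10 3 (Pf.C 1 0x409141c303) (Pf.B 10 4 (Pf.B 10 5 (Pf.B 10 2 (Pf.C 1 0x405041c30a) (Pf.C 0 0x80c10a)) (Pf.C 0 0x80c28a)) (Pf.C 0 0x1210503))))
 (Pq.cons (Pq.L [2,3] 1023 (Pf.B 10 2 (Pf.C 1 0x409141c302) (Pf.B 10 3 (Pf.C 1 0x182141c308) (Pf.C 0 0x120c502))))
 (Pq.cons (Pq.L [2,3] 1023 (Pf.B 10 3 (Pf.C 1 0x409141c303) (Pf.B 10 2 (Pf.C 1 0x103141c308) (Pf.C 0 0x1208503))))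
 (Pq.cons (Pq.L [1,2,3] 1023 (Pf.B 10 3 (Pf.C 1 0x409141c303) (Pf.B 10 2 (Pf.C 1 0x409141c302) (Pf.B 10 1 (Pf.C 0 0x20c10a) (Pf.C 0 0x1204502)))))
 (Pq.cons (Pq.L [0,1,2,3] 1023 (Pf.B 10 3 (Pf.C 1 0x409141c303) (Pf.B 10 2 (Pf.C 1 0x409141c302) (Pf.B 10 1 (Pf.C 0 0x20c10a) (Pf.B 10 0 (Pf.C 0 32906) (Pf.C 0 0x1200501))))))
 Pq.nil)))))))) (Pq.cons (Pq.D 3 (Pq.cons (Pq.D 4 (Pq.cons (Pq.L [0,2] 910 (Pf.C 1 0x5091008006))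
 (Pq.cons (Pq.L [0,2] 910 (Pf.C 1 0x5091008006))
 (Pq.cons (Pq.L [0,2] 910 (Pf.C 1 0x5091008006))
 (Pq.cons (Pq.L [0,2] 910 (Pf.C 1 0x5091008006))
 (Pq.cons (Pq.L [0,3] 910 (Pf.C 1 0x509100c006))
 (Pq.cons (Pq.L [0,2] 910 (Pf.C 1 0x5091008006))
 (Pq.cons (Pq.L [2,3] 910 (Pf.C 1 0x509100c106))
 Pq.nil)))))))) (Pq.cons (Pq.L [3,5] 1023 (Pf.B 10 3 (Pf.C 1 0x409141c303) (Pf.B 10 5 (Pf.C 1 0x283141c308) (Pf.C 0 0x1214503))))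
 (Pq.cons (Pq.L [3,4,5] 1023 (Pf.B 10 5 (Pf.C 1 0x409141c305) (Pf.B 10 4 (Pf.B 10 3 (Pf.C 1 0x409141c303) (Pf.C 0 0x81418a)) (Pf.C 0 0x102420a))))
 (Pq.cons (Pq.L [3,5] 1023 (Pf.B 10 5 (Pf.C 1 0x409141c305) (Pf.B 10 3 (Pf.C 1 0x185141c308) (Pf.C 0 0x120c505))))
 (Pq.cons (Pq.L [2,3,4,5] 1023 (Pf.B 10 5 (Pf.C 1 0x409141c305) (Pf.B 10 3 (Pf.C 1 0x409141c303) (Pf.B 10 4 (Pf.C 0 0x81418a) (Pf.B 10 2 (Pf.C 0 0x41018a) (Pf.C 0 0x1208503))))))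
 (Pq.cons (Pq.L [1,2,3,4,5] 1023 (Pf.B 10 5 (Pf.C 1 0x409141c305) (Pf.B 10 3 (Pf.C 1 0x409141c303) (Pf.B 10 4 (Pf.C 0 0x81418a) (Pf.B 10 2 (Pf.C 0 0x41018a) (Pf.B 10 1 (Pf.C 0 0x20c10a) (Pf.C 0 0x1204502)))))))
 (Pq.cons (Pq.L [0,1,2,3,4,5] 1023 (Pf.B 10 5 (Pf.C 1 0x409141c305) (Pf.B 10 3 (Pf.C 1 0x409141c303) (Pf.B 10 4 (Pf.C 0 0x81418a) (Pf.B 10 2 (Pf.C 0 0x41018a) (Pf.B 10 1 (Pf.C 0 0x20c10a) (Pf.B 10 0 (Pf.C 0 32906) (Pf.C 0 0x1200501))))))))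
 Pq.nil)))))))) (Pq.cons (Pq.D 3 (Pq.cons (Pq.D 4 (Pq.cons (Pq.L [0,2] 910 (Pf.C 1 0x5091008006))
 (Pq.cons (Pq.L [0,2] 910 (Pf.C 1 0x5091008006))
 (Pq.cons (Pq.L [0,2] 910 (Pf.C 1 0x5091008006))
 (Pq.cons (Pq.L [0,2] 910 (Pf.C 1 0x5091008006))
 (Pq.cons (Pq.L [0,4] 910 (Pf.C 1 0x5091010006))
 (Pq.cons (Pq.L [0,2] 910 (Pf.C 1 0x5091008006))
 (Pq.cons (Pq.L [2,4] 910 (Pf.C 1 0x5091010106))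
 Pq.nil)))))))) (Pq.cons (Pq.L [2,5] 1023 (Pf.B 10 2 (Pf.C 1 0x409141c302) (Pf.B 10 5 (Pf.C 1 0x282141c308) (Pf.C 0 0x1214502))))
 (Pq.cons (Pq.L [2,3,4,5] 1023 (Pf.B 10 5 (Pf.C 1 0x409141c305) (Pf.B 10 4 (Pf.B 10 3 (Pf.B 10 2 (Pf.C 1 0x403041c30a) (Pf.C 0 0x61410a)) (Pf.C 0 0x81418a)) (Pf.C 0 0x1210505))))
 (Pq.cons (Pq.L [2,3,5] 1023 (Pf.B 10 5 (Pf.C 1 0x409141c305) (Pf.B 10 3 (Pf.B 10 2 (Pf.C 1 0x403041c30a) (Pf.C 0 0x61410a)) (Pf.C 0 0x102418a))))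
 (Pq.cons (Pq.L [2,5] 1023 (Pf.B 10 5 (Pf.C 1 0x409141c305) (Pf.B 10 2 (Pf.C 1 0x105141c308) (Pf.C 0 0x1208505))))
 (Pq.cons (Pq.L [1,2,3,4,5] 1023 (Pf.B 10 5 (Pf.C 1 0x409141c305) (Pf.B 10 2 (Pf.C 1 0x409141c302) (Pf.B 10 4 (Pf.C 0 0x81410a) (Pf.B 10 3 (Pf.C 0 0x61010a) (Pf.B 10 1 (Pf.C 0 0x20c10a) (Pf.C 0 0x1204502)))))))
 (Pq.cons (Pq.L [0,1,2,3,4,5] 1023 (Pf.B 10 5 (Pf.C 1 0x409141c305) (Pf.B 10 2 (Pf.C 1 0x409141c302) (Pf.B 10 4 (Pf.C 0 0x81410a) (Pf.B 10 3 (Pf.C 0 0x61010a) (Pf.B 10 1 (Pf.C 0 0x20c10a) (Pf.B 10 0 (Pf.C 0 32906) (Pf.C 0 0x1200501))))))))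
 Pq.nil)))))))) (Pq.cons (Pq.D 3 (Pq.cons (Pq.D 4 (Pq.cons (Pq.L [0,3] 910 (Pf.C 1 0x509100c006))
 (Pq.cons (Pq.L [0,3] 910 (Pf.C 1 0x509100c006))
 (Pq.cons (Pq.L [0,3] 910 (Pf.C 1 0x509100c006))
 (Pq.cons (Pq.L [0,4] 910 (Pf.C 1 0x5091010006))
 (Pq.cons (Pq.L [0,3] 910 (Pf.C 1 0x509100c006))
 (Pq.cons (Pq.L [0,3] 910 (Pf.C 1 0x509100c006))
 (Pq.cons (Pq.L [3,4] 910 (Pf.C 1 0x5091010186))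
 Pq.nil)))))))) (Pq.cons (Pq.L [3,5] 1023 (Pf.B 10 3 (Pf.C 1 0x409141c303) (Pf.B 10 5 (Pf.C 1 0x283141c308) (Pf.C 0 0x1214503))))
 (Pq.cons (Pq.L [3,4,5] 1023 (Pf.B 10 5 (Pf.C 1 0x409141c305) (Pf.B 10 4 (Pf.B 10 3 (Pf.C 1 0x409141c303) (Pf.C 0 0x81418a)) (Pf.C 0 0x1210505))))
 (Pq.cons (Pq.L [3,5] 1023 (Pf.B 10 5 (Pf.C 1 0x409141c305) (Pf.B 10 3 (Pf.C 1 0x185141c308) (Pf.C 0 0x120c505))))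
 (Pq.cons (Pq.L [2,3,4,5] 1023 (Pf.B 10 5 (Pf.C 1 0x409141c305) (Pf.B 10 3 (Pf.C 1 0x409141c303) (Pf.B 10 4 (Pf.C 0 0x81418a) (Pf.B 10 2 (Pf.C 0 0x41018a) (Pf.C 0 0x102410a))))))
 (Pq.cons (Pq.L [1,2,3,4,5] 1023 (Pf.B 10 5 (Pf.C 1 0x409141c305) (Pf.B 10 3 (Pf.C 1 0x409141c303) (Pf.B 10 4 (Pf.C 0 0x81418a) (Pf.B 10 2 (Pf.C 0 0x41018a) (Pf.B 10 1 (Pf.C 0 0x20c10a) (Pf.C 0 0x1204502)))))))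
 (Pq.cons (Pq.L [0,1,2,3,4,5] 1023 (Pf.B 10 5 (Pf.C 1 0x409141c305) (Pf.B 10 3 (Pf.C 1 0x409141c303) (Pf.B 10 4 (Pf.C 0 0x81418a) (Pf.B 10 2 (Pf.C 0 0x41018a) (Pf.B 10 1 (Pf.C 0 0x20c10a) (Pf.B 10 0 (Pf.C 0 32906) (Pf.C 0 0x1200501))))))))
 Pq.nil)))))))) (Pq.cons (Pq.D 3 (Pq.cons (Pq.D 4 (Pq.cons (Pq.L [0,2] 910 (Pf.C 1 0x5091008006))
 (Pq.cons (Pq.L [0,2] 910 (Pf.C 1 0x5091008006))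
 (Pq.cons (Pq.L [0,2] 910 (Pf.C 1 0x5091008006))
 (Pq.cons (Pq.L [0,2] 910 (Pf.C 1 0x5091008006))
 (Pq.cons (Pq.L [0,3] 910 (Pf.C 1 0x509100c006))
 (Pq.cons (Pq.L [0,2] 910 (Pf.C 1 0x5091008006))
 (Pq.cons (Pq.L [2,3] 910 (Pf.C 1 0x509100c106))
 Pq.nil)))))))) (Pq.cons (Pq.L [3,5] 1023 (Pf.B 10 3 (Pf.C 1 0x409141c303) (Pf.B 10 5 (Pf.C 1 0x283141c308) (Pf.C 0 0x1214503))))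
 (Pq.cons (Pq.L [3,4,5] 1023 (Pf.B 10 5 (Pf.C 1 0x409141c305) (Pf.B 10 4 (Pf.B 10 3 (Pf.C 1 0x409141c303) (Pf.C 0 0x81418a)) (Pf.C 0 0x1210505))))
 (Pq.cons (Pq.L [3,5] 1023 (Pf.B 10 5 (Pf.C 1 0x409141c305) (Pf.B 10 3 (Pf.C 1 0x185141c308) (Pf.C 0 0x120c505))))
 (Pq.cons (Pq.L [2,3,4,5] 1023 (Pf.B 10 5 (Pf.C 1 0x409141c305) (Pf.B 10 3 (Pf.C 1 0x409141c303) (Pf.B 10 4 (Pf.C 0 0x81418a) (Pf.B 10 2 (Pf.C 0 0x41018a) (Pf.C 0 0x1208503))))))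
 (Pq.cons (Pq.L [1,2,3,4,5] 1023 (Pf.B 10 5 (Pf.C 1 0x409141c305) (Pf.B 10 3 (Pf.C 1 0x409141c303) (Pf.B 10 4 (Pf.C 0 0x81418a) (Pf.B 10 2 (Pf.C 0 0x41018a) (Pf.B 10 1 (Pf.C 0 0x20c10a) (Pf.C 0 0x102408a)))))))
 (Pq.cons (Pq.L [0,1,2,3,4,5] 1023 (Pf.B 10 5 (Pf.C 1 0x409141c305) (Pf.B 10 3 (Pf.C 1 0x409141c303) (Pf.B 10 4 (Pf.C 0 0x81418a) (Pf.B 10 2 (Pf.C 0 0x41018a) (Pf.B 10 1 (Pf.C 0 0x20c10a) (Pf.B 10 0 (Pf.C 0 32906) (Pf.C 0 0x1200501))))))))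
 Pq.nil)))))))) (Pq.cons (Pq.D 3 (Pq.cons (Pq.D 4 (Pq.cons (Pq.L [2,3] 910 (Pf.C 1 0x509100c106))
 (Pq.cons (Pq.L [2,3] 910 (Pf.C 1 0x509100c106))
 (Pq.cons (Pq.L [2,3] 910 (Pf.C 1 0x509100c106))
 (Pq.cons (Pq.L [2,4] 910 (Pf.C 1 0x5091010106))
 (Pq.cons (Pq.L [3,4] 910 (Pf.C 1 0x5091010186))
 (Pq.cons (Pq.L [2,3] 910 (Pf.C 1 0x509100c106))
 (Pq.cons (Pq.L [2,3] 910 (Pf.C 1 0x509100c106))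
 Pq.nil)))))))) (Pq.cons (Pq.L [3,5] 1023 (Pf.B 10 3 (Pf.C 1 0x409141c303) (Pf.B 10 5 (Pf.C 1 0x283141c308) (Pf.C 0 0x1214503))))
 (Pq.cons (Pq.L [3,4,5] 1023 (Pf.B 10 5 (Pf.C 1 0x409141c305) (Pf.B 10 4 (Pf.B 10 3 (Pf.C 1 0x409141c303) (Pf.C 0 0x81418a)) (Pf.C 0 0x1210505))))
 (Pq.cons (Pq.L [3,5] 1023 (Pf.B 10 5 (Pf.C 1 0x409141c305) (Pf.B 10 3 (Pf.C 1 0x185141c308) (Pf.C 0 0x120c505))))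
 (Pq.cons (Pq.L [2,3,4,5] 1023 (Pf.B 10 5 (Pf.C 1 0x409141c305) (Pf.B 10 3 (Pf.C 1 0x409141c303) (Pf.B 10 4 (Pf.C 0 0x81418a) (Pf.B 10 2 (Pf.C 0 0x41018a) (Pf.C 0 0x1208503))))))
 (Pq.cons (Pq.L [1,2,3,4,5] 1023 (Pf.B 10 5 (Pf.C 1 0x409141c305) (Pf.B 10 3 (Pf.C 1 0x409141c303) (Pf.B 10 4 (Pf.C 0 0x81418a) (Pf.B 10 2 (Pf.C 0 0x41018a) (Pf.B 10 1 (Pf.C 0 0x20c10a) (Pf.C 0 0x1204502)))))))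
 (Pq.cons (Pq.L [0,1,2,3,4,5] 1023 (Pf.B 10 5 (Pf.C 1 0x409141c305) (Pf.B 10 3 (Pf.C 1 0x409141c303) (Pf.B 10 4 (Pf.C 0 0x81418a) (Pf.B 10 2 (Pf.C 0 0x41018a) (Pf.B 10 1 (Pf.C 0 0x20c10a) (Pf.B 10 0 (Pf.C 0 32906) (Pf.C 0 0x102400a))))))))
 Pq.nil)))))))) Pq.nil)))))))) Pq.nil)))
theorem e_o19 : AllRef e_T e_G4 (List.take 3 (List.flatMap (splitP 1) (List.take 1 (List.drop 1 (List.drop 1 (List.drop 3 (List.flatMap (splitP 0) [⟨[[5,6,7,8,9,10,11],[5,6,7,8,9,10,11],[5,6,7,8,9,10,11],[5,6,7,8,9,10,11],[5,6,7,8,9,10,11]],[⟨0,1,true⟩,⟨0,2,false⟩,⟨0,3,false⟩,⟨0,4,false⟩,⟨1,2,false⟩,⟨1,3,false⟩,⟨1,4,false⟩,⟨2,3,true⟩,⟨2,4,false⟩,⟨3,4,true⟩],[],[]⟩]))))))) :=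
  chkPq_sound e_o19c _ (by decide +kernel)
noncomputable def e_o20c : Pq := (Pq.cons (Pq.D 2 (Pq.cons (Pq.D 3 (Pq.cons (Pq.D 4 (Pq.cons (Pq.L [0,2] 910 (Pf.C 1 0x5091008006))
 (Pq.cons (Pq.L [0,2] 910 (Pf.C 1 0x5091008006))
 (Pq.cons (Pq.L [0,2] 910 (Pf.C 1 0x5091008006))
 (Pq.cons (Pq.L [0,2] 910 (Pf.C 1 0x5091008006))
 (Pq.cons (Pq.L [0,3] 910 (Pf.C 1 0x509100c006))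
 (Pq.cons (Pq.L [0,2] 910 (Pf.C 1 0x5091008006))
 (Pq.cons (Pq.L [2,3] 910 (Pf.C 1 0x509100c106))
 Pq.nil)))))))) (Pq.cons (Pq.L [4,5] 1023 (Pf.B 10 4 (Pf.C 1 0x409141c304) (Pf.B 10 5 (Pf.C 1 0x284141c308) (Pf.C 0 0x1214504))))
 (Pq.cons (Pq.L [4,5] 1023 (Pf.B 10 5 (Pf.C 1 0x409141c305) (Pf.B 10 4 (Pf.C 1 0x205141c308) (Pf.C 0 0x1210505))))
 (Pq.cons (Pq.L [3,4,5] 1023 (Pf.B 10 5 (Pf.C 1 0x409141c305) (Pf.B 10 4 (Pf.C 1 0x409141c304) (Pf.B 10 3 (Pf.C 0 0x61420a) (Pf.C 0 0x120c504)))))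
 (Pq.cons (Pq.L [2,3,4,5] 1023 (Pf.B 10 5 (Pf.C 1 0x409141c305) (Pf.B 10 4 (Pf.C 1 0x409141c304) (Pf.B 10 3 (Pf.C 0 0x61420a) (Pf.B 10 2 (Pf.C 0 0x41018a) (Pf.C 0 0x1208503))))))
 (Pq.cons (Pq.L [1,2,3,4,5] 1023 (Pf.B 10 5 (Pf.C 1 0x409141c305) (Pf.B 10 4 (Pf.C 1 0x409141c304) (Pf.B 10 3 (Pf.C 0 0x61420a) (Pf.B 10 2 (Pf.C 0 0x41018a) (Pf.B 10 1 (Pf.C 0 0x20c10a) (Pf.C 0 0x1204502)))))))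
 (Pq.cons (Pq.L [0,1,2,3,4,5] 1023 (Pf.B 10 5 (Pf.C 1 0x409141c305) (Pf.B 10 4 (Pf.C 1 0x409141c304) (Pf.B 10 3 (Pf.C 0 0x61420a) (Pf.B 10 2 (Pf.C 0 0x41018a) (Pf.B 10 1 (Pf.C 0 0x20c10a) (Pf.B 10 0 (Pf.C 0 32906) (Pf.C 0 0x1200501))))))))
 Pq.nil)))))))) (Pq.cons (Pq.D 3 (Pq.cons (Pq.D 4 (Pq.cons (Pq.L [0,2] 910 (Pf.C 1 0x5091008006))
 (Pq.cons (Pq.L [0,2] 910 (Pf.C 1 0x5091008006))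
 (Pq.cons (Pq.L [0,2] 910 (Pf.C 1 0x5091008006))
 (Pq.cons (Pq.L [0,2] 910 (Pf.C 1 0x5091008006))
 (Pq.cons (Pq.L [0,3] 910 (Pf.C 1 0x509100c006))
 (Pq.cons (Pq.L [0,2] 910 (Pf.C 1 0x5091008006))
 (Pq.cons (Pq.L [2,3] 910 (Pf.C 1 0x509100c106))
 Pq.nil)))))))) (Pq.cons (Pq.L [2,3,4,5] 987 (Pf.B 10 5 (Pf.B 10 4 (Pf.C 1 0x405081c30a) (Pf.B 10 3 (Pf.B 10 2 (Pf.C 1 0x405041c30a) (Pf.C 0 0x61010a)) (Pf.C 0 0xa1018a))) (Pf.C 0 0x102428a)))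
 (Pq.cons (Pq.L [2,4] 1023 (Pf.B 10 2 (Pf.C 1 0x409141c302) (Pf.B 10 4 (Pf.C 1 0x202141c308) (Pf.C 0 0x1210502))))
 (Pq.cons (Pq.L [2,3,4,5] 1023 (Pf.B 10 4 (Pf.C 1 0x409141c304) (Pf.B 10 3 (Pf.B 10 5 (Pf.B 10 2 (Pf.C 1 0x405041c30a) (Pf.C 0 0x61010a)) (Pf.C 0 0x61028a)) (Pf.C 0 0x120c504))))
 (Pq.cons (Pq.L [2,4] 1023 (Pf.B 10 4 (Pf.C 1 0x409141c304) (Pf.B 10 2 (Pf.C 1 0x104141c308) (Pf.C 0 0x1208504))))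
 (Pq.cons (Pq.L [1,2,3,4] 1023 (Pf.B 10 4 (Pf.C 1 0x409141c304) (Pf.B 10 2 (Pf.C 1 0x409141c302) (Pf.B 10 3 (Pf.C 0 0x61010a) (Pf.B 10 1 (Pf.C 0 0x20c10a) (Pf.C 0 0x1204502))))))
 (Pq.cons (Pq.L [0,1,2,3,4] 1023 (Pf.B 10 4 (Pf.C 1 0x409141c304) (Pf.B 10 2 (Pf.C 1 0x409141c302) (Pf.B 10 3 (Pf.C 0 0x61010a) (Pf.B 10 1 (Pf.C 0 0x20c10a) (Pf.B 10 0 (Pf.C 0 32906) (Pf.C 0 0x1200501)))))))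
 Pq.nil)))))))) (Pq.cons (Pq.D 3 (Pq.cons (Pq.D 4 (Pq.cons (Pq.L [0,2] 910 (Pf.C 1 0x5091008006))
 (Pq.cons (Pq.L [0,2] 910 (Pf.C 1 0x5091008006))
 (Pq.cons (Pq.L [0,2] 910 (Pf.C 1 0x5091008006))
 (Pq.cons (Pq.L [0,2] 910 (Pf.C 1 0x5091008006))
 (Pq.cons (Pq.L [0,3] 910 (Pf.C 1 0x509100c006))
 (Pq.cons (Pq.L [0,2] 910 (Pf.C 1 0x5091008006))
 (Pq.cons (Pq.L [2,3] 910 (Pf.C 1 0x509100c106))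
 Pq.nil)))))))) (Pq.cons (Pq.L [2,5] 1023 (Pf.B 10 2 (Pf.C 1 0x409141c302) (Pf.B 10 5 (Pf.C 1 0x282141c308) (Pf.C 0 0x1214502))))
 (Pq.cons (Pq.L [2,3,4,5] 1023 (Pf.B 10 5 (Pf.C 1 0x409141c305) (Pf.B 10 4 (Pf.B 10 3 (Pf.B 10 2 (Pf.C 1 0x404041c30a) (Pf.C 0 0x61410a)) (Pf.C 0 0x81418a)) (Pf.C 0 0x102420a))))
 (Pq.cons (Pq.L [2,3,4,5] 1023 (Pf.B 10 5 (Pf.C 1 0x409141c305) (Pf.B 10 3 (Pf.B 10 4 (Pf.B 10 2 (Pf.C 1 0x404041c30a) (Pf.C 0 0x61410a)) (Pf.C 0 0x61420a)) (Pf.C 0 0x120c505))))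
 (Pq.cons (Pq.L [2,5] 1023 (Pf.B 10 5 (Pf.C 1 0x409141c305) (Pf.B 10 2 (Pf.C 1 0x105141c308) (Pf.C 0 0x1208505))))
 (Pq.cons (Pq.L [1,2,3,4,5] 1023 (Pf.B 10 5 (Pf.C 1 0x409141c305) (Pf.B 10 2 (Pf.C 1 0x409141c302) (Pf.B 10 4 (Pf.C 0 0x81410a) (Pf.B 10 3 (Pf.C 0 0x61010a) (Pf.B 10 1 (Pf.C 0 0x20c10a) (Pf.C 0 0x1204502)))))))
 (Pq.cons (Pq.L [0,1,2,3,4,5] 1023 (Pf.B 10 5 (Pf.C 1 0x409141c305) (Pf.B 10 2 (Pf.C 1 0x409141c302) (Pf.B 10 4 (Pf.C 0 0x81410a) (Pf.B 10 3 (Pf.C 0 0x61010a) (Pf.B 10 1 (Pf.C 0 0x20c10a) (Pf.B 10 0 (Pf.C 0 32906) (Pf.C 0 0x1200501))))))))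
 Pq.nil)))))))) (Pq.cons (Pq.D 3 (Pq.cons (Pq.D 4 (Pq.cons (Pq.L [0,2] 910 (Pf.C 1 0x5091008006))
 (Pq.cons (Pq.L [0,2] 910 (Pf.C 1 0x5091008006))
 (Pq.cons (Pq.L [0,2] 910 (Pf.C 1 0x5091008006))
 (Pq.cons (Pq.L [0,2] 910 (Pf.C 1 0x5091008006))
 (Pq.cons (Pq.L [0,4] 910 (Pf.C 1 0x5091010006))
 (Pq.cons (Pq.L [0,2] 910 (Pf.C 1 0x5091008006))
 (Pq.cons (Pq.L [2,4] 910 (Pf.C 1 0x5091010106))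
 Pq.nil)))))))) (Pq.cons (Pq.L [4,5] 1023 (Pf.B 10 4 (Pf.C 1 0x409141c304) (Pf.B 10 5 (Pf.C 1 0x284141c308) (Pf.C 0 0x1214504))))
 (Pq.cons (Pq.L [4,5] 1023 (Pf.B 10 5 (Pf.C 1 0x409141c305) (Pf.B 10 4 (Pf.C 1 0x205141c308) (Pf.C 0 0x1210505))))
 (Pq.cons (Pq.L [3,4,5] 1023 (Pf.B 10 5 (Pf.C 1 0x409141c305) (Pf.B 10 4 (Pf.C 1 0x409141c304) (Pf.B 10 3 (Pf.C 0 0x61420a) (Pf.C 0 0x102418a)))))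
 (Pq.cons (Pq.L [2,3,4,5] 1023 (Pf.B 10 5 (Pf.C 1 0x409141c305) (Pf.B 10 4 (Pf.C 1 0x409141c304) (Pf.B 10 3 (Pf.C 0 0x61420a) (Pf.B 10 2 (Pf.C 0 0x41018a) (Pf.C 0 0x1208503))))))
 (Pq.cons (Pq.L [1,2,3,4,5] 1023 (Pf.B 10 5 (Pf.C 1 0x409141c305) (Pf.B 10 4 (Pf.C 1 0x409141c304) (Pf.B 10 3 (Pf.C 0 0x61420a) (Pf.B 10 2 (Pf.C 0 0x41018a) (Pf.B 10 1 (Pf.C 0 0x20c10a) (Pf.C 0 0x1204502)))))))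
 (Pq.cons (Pq.L [0,1,2,3,4,5] 1023 (Pf.B 10 5 (Pf.C 1 0x409141c305) (Pf.B 10 4 (Pf.C 1 0x409141c304) (Pf.B 10 3 (Pf.C 0 0x61420a) (Pf.B 10 2 (Pf.C 0 0x41018a) (Pf.B 10 1 (Pf.C 0 0x20c10a) (Pf.B 10 0 (Pf.C 0 32906) (Pf.C 0 0x1200501))))))))
 Pq.nil)))))))) (Pq.cons (Pq.D 3 (Pq.cons (Pq.D 4 (Pq.cons (Pq.L [0,3] 910 (Pf.C 1 0x509100c006))
 (Pq.cons (Pq.L [0,3] 910 (Pf.C 1 0x509100c006))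
 (Pq.cons (Pq.L [0,3] 910 (Pf.C 1 0x509100c006))
 (Pq.cons (Pq.L [0,4] 910 (Pf.C 1 0x5091010006))
 (Pq.cons (Pq.L [0,3] 910 (Pf.C 1 0x509100c006))
 (Pq.cons (Pq.L [0,3] 910 (Pf.C 1 0x509100c006))
 (Pq.cons (Pq.L [3,4] 910 (Pf.C 1 0x5091010186))
 Pq.nil)))))))) (Pq.cons (Pq.L [4,5] 1023 (Pf.B 10 4 (Pf.C 1 0x409141c304) (Pf.B 10 5 (Pf.C 1 0x284141c308) (Pf.C 0 0x1214504))))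
 (Pq.cons (Pq.L [4,5] 1023 (Pf.B 10 5 (Pf.C 1 0x409141c305) (Pf.B 10 4 (Pf.C 1 0x205141c308) (Pf.C 0 0x1210505))))
 (Pq.cons (Pq.L [3,4,5] 1023 (Pf.B 10 5 (Pf.C 1 0x409141c305) (Pf.B 10 4 (Pf.C 1 0x409141c304) (Pf.B 10 3 (Pf.C 0 0x61420a) (Pf.C 0 0x120c504)))))
 (Pq.cons (Pq.L [2,3,4,5] 1023 (Pf.B 10 5 (Pf.C 1 0x409141c305) (Pf.B 10 4 (Pf.C 1 0x409141c304) (Pf.B 10 3 (Pf.C 0 0x61420a) (Pf.B 10 2 (Pf.C 0 0x41018a) (Pf.C 0 0x102410a))))))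
 (Pq.cons (Pq.L [1,2,3,4,5] 1023 (Pf.B 10 5 (Pf.C 1 0x409141c305) (Pf.B 10 4 (Pf.C 1 0x409141c304) (Pf.B 10 3 (Pf.C 0 0x61420a) (Pf.B 10 2 (Pf.C 0 0x41018a) (Pf.B 10 1 (Pf.C 0 0x20c10a) (Pf.C 0 0x1204502)))))))
 (Pq.cons (Pq.L [0,1,2,3,4,5] 1023 (Pf.B 10 5 (Pf.C 1 0x409141c305) (Pf.B 10 4 (Pf.C 1 0x409141c304) (Pf.B 10 3 (Pf.C 0 0x61420a) (Pf.B 10 2 (Pf.C 0 0x41018a) (Pf.B 10 1 (Pf.C 0 0x20c10a) (Pf.B 10 0 (Pf.C 0 32906) (Pf.C 0 0x1200501))))))))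
 Pq.nil)))))))) (Pq.cons (Pq.D 3 (Pq.cons (Pq.D 4 (Pq.cons (Pq.L [0,2] 910 (Pf.C 1 0x5091008006))
 (Pq.cons (Pq.L [0,2] 910 (Pf.C 1 0x5091008006))
 (Pq.cons (Pq.L [0,2] 910 (Pf.C 1 0x5091008006))
 (Pq.cons (Pq.L [0,2] 910 (Pf.C 1 0x5091008006))
 (Pq.cons (Pq.L [0,3] 910 (Pf.C 1 0x509100c006))
 (Pq.cons (Pq.L [0,2] 910 (Pf.C 1 0x5091008006))
 (Pq.cons (Pq.L [2,3] 910 (Pf.C 1 0x509100c106))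
 Pq.nil)))))))) (Pq.cons (Pq.L [4,5] 1023 (Pf.B 10 4 (Pf.C 1 0x409141c304) (Pf.B 10 5 (Pf.C 1 0x284141c308) (Pf.C 0 0x1214504))))
 (Pq.cons (Pq.L [4,5] 1023 (Pf.B 10 5 (Pf.C 1 0x409141c305) (Pf.B 10 4 (Pf.C 1 0x205141c308) (Pf.C 0 0x1210505))))
 (Pq.cons (Pq.L [3,4,5] 1023 (Pf.B 10 5 (Pf.C 1 0x409141c305) (Pf.B 10 4 (Pf.C 1 0x409141c304) (Pf.B 10 3 (Pf.C 0 0x61420a) (Pf.C 0 0x120c504)))))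
 (Pq.cons (Pq.L [2,3,4,5] 1023 (Pf.B 10 5 (Pf.C 1 0x409141c305) (Pf.B 10 4 (Pf.C 1 0x409141c304) (Pf.B 10 3 (Pf.C 0 0x61420a) (Pf.B 10 2 (Pf.C 0 0x41018a) (Pf.C 0 0x1208503))))))
 (Pq.cons (Pq.L [1,2,3,4,5] 1023 (Pf.B 10 5 (Pf.C 1 0x409141c305) (Pf.B 10 4 (Pf.C 1 0x409141c304) (Pf.B 10 3 (Pf.C 0 0x61420a) (Pf.B 10 2 (Pf.C 0 0x41018a) (Pf.B 10 1 (Pf.C 0 0x20c10a) (Pf.C 0 0x102408a)))))))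
 (Pq.cons (Pq.L [0,1,2,3,4,5] 1023 (Pf.B 10 5 (Pf.C 1 0x409141c305) (Pf.B 10 4 (Pf.C 1 0x409141c304) (Pf.B 10 3 (Pf.C 0 0x61420a) (Pf.B 10 2 (Pf.C 0 0x41018a) (Pf.B 10 1 (Pf.C 0 0x20c10a) (Pf.B 10 0 (Pf.C 0 32906) (Pf.C 0 0x1200501))))))))
 Pq.nil)))))))) (Pq.cons (Pq.D 3 (Pq.cons (Pq.D 4 (Pq.cons (Pq.L [2,3] 910 (Pf.C 1 0x509100c106))
 (Pq.cons (Pq.L [2,3] 910 (Pf.C 1 0x509100c106))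
 (Pq.cons (Pq.L [2,3] 910 (Pf.C 1 0x509100c106))
 (Pq.cons (Pq.L [2,4] 910 (Pf.C 1 0x5091010106))
 (Pq.cons (Pq.L [3,4] 910 (Pf.C 1 0x5091010186))
 (Pq.cons (Pq.L [2,3] 910 (Pf.C 1 0x509100c106))
 (Pq.cons (Pq.L [2,3] 910 (Pf.C 1 0x509100c106))
 Pq.nil)))))))) (Pq.cons (Pq.L [4,5] 1023 (Pf.B 10 4 (Pf.C 1 0x409141c304) (Pf.B 10 5 (Pf.C 1 0x284141c308) (Pf.C 0 0x1214504))))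
 (Pq.cons (Pq.L [4,5] 1023 (Pf.B 10 5 (Pf.C 1 0x409141c305) (Pf.B 10 4 (Pf.C 1 0x205141c308) (Pf.C 0 0x1210505))))
 (Pq.cons (Pq.L [3,4,5] 1023 (Pf.B 10 5 (Pf.C 1 0x409141c305) (Pf.B 10 4 (Pf.C 1 0x409141c304) (Pf.B 10 3 (Pf.C 0 0x61420a) (Pf.C 0 0x120c504)))))
 (Pq.cons (Pq.L [2,3,4,5] 1023 (Pf.B 10 5 (Pf.C 1 0x409141c305) (Pf.B 10 4 (Pf.C 1 0x409141c304) (Pf.B 10 3 (Pf.C 0 0x61420a) (Pf.B 10 2 (Pf.C 0 0x41018a) (Pf.C 0 0x1208503))))))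
 (Pq.cons (Pq.L [1,2,3,4,5] 1023 (Pf.B 10 5 (Pf.C 1 0x409141c305) (Pf.B 10 4 (Pf.C 1 0x409141c304) (Pf.B 10 3 (Pf.C 0 0x61420a) (Pf.B 10 2 (Pf.C 0 0x41018a) (Pf.B 10 1 (Pf.C 0 0x20c10a) (Pf.C 0 0x1204502)))))))
 (Pq.cons (Pq.L [0,1,2,3,4,5] 1023 (Pf.B 10 5 (Pf.C 1 0x409141c305) (Pf.B 10 4 (Pf.C 1 0x409141c304) (Pf.B 10 3 (Pf.C 0 0x61420a) (Pf.B 10 2 (Pf.C 0 0x41018a) (Pf.B 10 1 (Pf.C 0 0x20c10a) (Pf.B 10 0 (Pf.C 0 32906) (Pf.C 0 0x102400a))))))))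
 Pq.nil)))))))) Pq.nil)))))))) Pq.nil)
theorem e_o20 : AllRef e_T e_G4 (List.take 1 (List.drop 3 (List.flatMap (splitP 1) (List.take 1 (List.drop 1 (List.drop 1 (List.drop 3 (List.flatMap (splitP 0) [⟨[[5,6,7,8,9,10,11],[5,6,7,8,9,10,11],[5,6,7,8,9,10,11],[5,6,7,8,9,10,11],[5,6,7,8,9,10,11]],[⟨0,1,true⟩,⟨0,2,false⟩,⟨0,3,false⟩,⟨0,4,false⟩,⟨1,2,false⟩,⟨1,3,false⟩,⟨1,4,false⟩,⟨2,3,true⟩,⟨2,4,false⟩,⟨3,4,true⟩],[],[]⟩])))))))) :=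
  chkPq_sound e_o20c _ (by decide +kernel)
noncomputable def e_o21c : Pq := (Pq.cons (Pq.D 2 (Pq.cons (Pq.D 3 (Pq.cons (Pq.D 4 (Pq.cons (Pq.L [0,2] 910 (Pf.C 1 0x5091008006))
 (Pq.cons (Pq.L [0,2] 910 (Pf.C 1 0x5091008006))
 (Pq.cons (Pq.L [0,2] 910 (Pf.C 1 0x5091008006))
 (Pq.cons (Pq.L [0,2] 910 (Pf.C 1 0x5091008006))
 (Pq.cons (Pq.L [0,3] 910 (Pf.C 1 0x509100c006))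
 (Pq.cons (Pq.L [0,2] 910 (Pf.C 1 0x5091008006))
 (Pq.cons (Pq.L [2,3] 910 (Pf.C 1 0x509100c106))
 Pq.nil)))))))) (Pq.cons (Pq.L [4,5] 1023 (Pf.B 10 4 (Pf.C 1 0x409141c304) (Pf.B 10 5 (Pf.C 1 0x284141c308) (Pf.C 0 0x1214504))))
 (Pq.cons (Pq.L [4,5] 1023 (Pf.B 10 5 (Pf.C 1 0x409141c305) (Pf.B 10 4 (Pf.C 1 0x205141c308) (Pf.C 0 0x1210505))))
 (Pq.cons (Pq.L [3,4,5] 1023 (Pf.B 10 5 (Pf.C 1 0x409141c305) (Pf.B 10 4 (Pf.C 1 0x409141c304) (Pf.B 10 3 (Pf.C 0 0x61420a) (Pf.C 0 0x120c504)))))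
 (Pq.cons (Pq.L [2,3,4,5] 1023 (Pf.B 10 5 (Pf.C 1 0x409141c305) (Pf.B 10 4 (Pf.C 1 0x409141c304) (Pf.B 10 3 (Pf.C 0 0x61420a) (Pf.B 10 2 (Pf.C 0 0x41018a) (Pf.C 0 0x1208503))))))
 (Pq.cons (Pq.L [1,2,3,4,5] 1023 (Pf.B 10 5 (Pf.C 1 0x409141c305) (Pf.B 10 4 (Pf.C 1 0x409141c304) (Pf.B 10 3 (Pf.C 0 0x61420a) (Pf.B 10 2 (Pf.C 0 0x41018a) (Pf.B 10 1 (Pf.C 0 0x20c10a) (Pf.C 0 0x1204502)))))))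
 (Pq.cons (Pq.L [0,1,2,3,4,5] 1023 (Pf.B 10 5 (Pf.C 1 0x409141c305) (Pf.B 10 4 (Pf.C 1 0x409141c304) (Pf.B 10 3 (Pf.C 0 0x61420a) (Pf.B 10 2 (Pf.C 0 0x41018a) (Pf.B 10 1 (Pf.C 0 0x20c10a) (Pf.B 10 0 (Pf.C 0 32906) (Pf.C 0 0x1200501))))))))
 Pq.nil)))))))) (Pq.cons (Pq.D 3 (Pq.cons (Pq.D 4 (Pq.cons (Pq.L [0,2] 910 (Pf.C 1 0x5091008006))
 (Pq.cons (Pq.L [0,2] 910 (Pf.C 1 0x5091008006))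
 (Pq.cons (Pq.L [0,2] 910 (Pf.C 1 0x5091008006))
 (Pq.cons (Pq.L [0,2] 910 (Pf.C 1 0x5091008006))
 (Pq.cons (Pq.L [0,3] 910 (Pf.C 1 0x509100c006))
 (Pq.cons (Pq.L [0,2] 910 (Pf.C 1 0x5091008006))
 (Pq.cons (Pq.L [2,3] 910 (Pf.C 1 0x509100c106))
 Pq.nil)))))))) (Pq.cons (Pq.L [3,4,5] 987 (Pf.B 10 5 (Pf.B 10 4 (Pf.C 1 0x405081c30a) (Pf.B 10 3 (Pf.C 1 0x405061c30a) (Pf.C 0 0xa1018a))) (Pf.C 0 0x102428a)))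
 (Pq.cons (Pq.L [3,4] 1023 (Pf.B 10 3 (Pf.C 1 0x409141c303) (Pf.B 10 4 (Pf.C 1 0x203141c308) (Pf.C 0 0x1210503))))
 (Pq.cons (Pq.L [3,4] 1023 (Pf.B 10 4 (Pf.C 1 0x409141c304) (Pf.B 10 3 (Pf.C 1 0x184141c308) (Pf.C 0 0x120c504))))
 (Pq.cons (Pq.L [2,3,4] 1023 (Pf.B 10 4 (Pf.C 1 0x409141c304) (Pf.B 10 3 (Pf.C 1 0x409141c303) (Pf.B 10 2 (Pf.C 0 0x41018a) (Pf.C 0 0x1208503)))))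
 (Pq.cons (Pq.L [1,2,3,4] 1023 (Pf.B 10 4 (Pf.C 1 0x409141c304) (Pf.B 10 3 (Pf.C 1 0x409141c303) (Pf.B 10 2 (Pf.C 0 0x41018a) (Pf.B 10 1 (Pf.C 0 0x20c10a) (Pf.C 0 0x1204502))))))
 (Pq.cons (Pq.L [0,1,2,3,4] 1023 (Pf.B 10 4 (Pf.C 1 0x409141c304) (Pf.B 10 3 (Pf.C 1 0x409141c303) (Pf.B 10 2 (Pf.C 0 0x41018a) (Pf.B 10 1 (Pf.C 0 0x20c10a) (Pf.B 10 0 (Pf.C 0 32906) (Pf.C 0 0x1200501)))))))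
 Pq.nil)))))))) (Pq.cons (Pq.D 3 (Pq.cons (Pq.D 4 (Pq.cons (Pq.L [0,2] 910 (Pf.C 1 0x5091008006))
 (Pq.cons (Pq.L [0,2] 910 (Pf.C 1 0x5091008006))
 (Pq.cons (Pq.L [0,2] 910 (Pf.C 1 0x5091008006))
 (Pq.cons (Pq.L [0,2] 910 (Pf.C 1 0x5091008006))
 (Pq.cons (Pq.L [0,3] 910 (Pf.C 1 0x509100c006))
 (Pq.cons (Pq.L [0,2] 910 (Pf.C 1 0x5091008006))
 (Pq.cons (Pq.L [2,3] 910 (Pf.C 1 0x509100c106))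
 Pq.nil)))))))) (Pq.cons (Pq.L [3,5] 1023 (Pf.B 10 3 (Pf.C 1 0x409141c303) (Pf.B 10 5 (Pf.C 1 0x283141c308) (Pf.C 0 0x1214503))))
 (Pq.cons (Pq.L [3,4,5] 1023 (Pf.B 10 5 (Pf.C 1 0x409141c305) (Pf.B 10 4 (Pf.B 10 3 (Pf.C 1 0x404061c30a) (Pf.C 0 0x81418a)) (Pf.C 0 0x102420a))))
 (Pq.cons (Pq.L [3,5] 1023 (Pf.B 10 5 (Pf.C 1 0x409141c305) (Pf.B 10 3 (Pf.C 1 0x185141c308) (Pf.C 0 0x120c505))))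
 (Pq.cons (Pq.L [2,3,4,5] 1023 (Pf.B 10 5 (Pf.C 1 0x409141c305) (Pf.B 10 3 (Pf.C 1 0x409141c303) (Pf.B 10 4 (Pf.C 0 0x81418a) (Pf.B 10 2 (Pf.C 0 0x41018a) (Pf.C 0 0x1208503))))))
 (Pq.cons (Pq.L [1,2,3,4,5] 1023 (Pf.B 10 5 (Pf.C 1 0x409141c305) (Pf.B 10 3 (Pf.C 1 0x409141c303) (Pf.B 10 4 (Pf.C 0 0x81418a) (Pf.B 10 2 (Pf.C 0 0x41018a) (Pf.B 10 1 (Pf.C 0 0x20c10a) (Pf.C 0 0x1204502)))))))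
 (Pq.cons (Pq.L [0,1,2,3,4,5] 1023 (Pf.B 10 5 (Pf.C 1 0x409141c305) (Pf.B 10 3 (Pf.C 1 0x409141c303) (Pf.B 10 4 (Pf.C 0 0x81418a) (Pf.B 10 2 (Pf.C 0 0x41018a) (Pf.B 10 1 (Pf.C 0 0x20c10a) (Pf.B 10 0 (Pf.C 0 32906) (Pf.C 0 0x1200501))))))))
 Pq.nil)))))))) (Pq.cons (Pq.D 3 (Pq.cons (Pq.D 4 (Pq.cons (Pq.L [0,2] 910 (Pf.C 1 0x5091008006))
 (Pq.cons (Pq.L [0,2] 910 (Pf.C 1 0x5091008006))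
 (Pq.cons (Pq.L [0,2] 910 (Pf.C 1 0x5091008006))
 (Pq.cons (Pq.L [0,2] 910 (Pf.C 1 0x5091008006))
 (Pq.cons (Pq.L [0,4] 910 (Pf.C 1 0x5091010006))
 (Pq.cons (Pq.L [0,2] 910 (Pf.C 1 0x5091008006))
 (Pq.cons (Pq.L [2,4] 910 (Pf.C 1 0x5091010106))
 Pq.nil)))))))) (Pq.cons (Pq.L [4,5] 1023 (Pf.B 10 4 (Pf.C 1 0x409141c304) (Pf.B 10 5 (Pf.C 1 0x284141c308) (Pf.C 0 0x1214504))))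
 (Pq.cons (Pq.L [4,5] 1023 (Pf.B 10 5 (Pf.C 1 0x409141c305) (Pf.B 10 4 (Pf.C 1 0x205141c308) (Pf.C 0 0x1210505))))
 (Pq.cons (Pq.L [3,4,5] 1023 (Pf.B 10 5 (Pf.C 1 0x409141c305) (Pf.B 10 4 (Pf.C 1 0x409141c304) (Pf.B 10 3 (Pf.C 0 0x61420a) (Pf.C 0 0x102418a)))))
 (Pq.cons (Pq.L [2,3,4,5] 1023 (Pf.B 10 5 (Pf.C 1 0x409141c305) (Pf.B 10 4 (Pf.C 1 0x409141c304) (Pf.B 10 3 (Pf.C 0 0x61420a) (Pf.B 10 2 (Pf.C 0 0x41018a) (Pf.C 0 0x1208503))))))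
 (Pq.cons (Pq.L [1,2,3,4,5] 1023 (Pf.B 10 5 (Pf.C 1 0x409141c305) (Pf.B 10 4 (Pf.C 1 0x409141c304) (Pf.B 10 3 (Pf.C 0 0x61420a) (Pf.B 10 2 (Pf.C 0 0x41018a) (Pf.B 10 1 (Pf.C 0 0x20c10a) (Pf.C 0 0x1204502)))))))
 (Pq.cons (Pq.L [0,1,2,3,4,5] 1023 (Pf.B 10 5 (Pf.C 1 0x409141c305) (Pf.B 10 4 (Pf.C 1 0x409141c304) (Pf.B 10 3 (Pf.C 0 0x61420a) (Pf.B 10 2 (Pf.C 0 0x41018a) (Pf.B 10 1 (Pf.C 0 0x20c10a) (Pf.B 10 0 (Pf.C 0 32906) (Pf.C 0 0x1200501))))))))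
 Pq.nil)))))))) (Pq.cons (Pq.D 3 (Pq.cons (Pq.D 4 (Pq.cons (Pq.L [0,3] 910 (Pf.C 1 0x509100c006))
 (Pq.cons (Pq.L [0,3] 910 (Pf.C 1 0x509100c006))
 (Pq.cons (Pq.L [0,3] 910 (Pf.C 1 0x509100c006))
 (Pq.cons (Pq.L [0,4] 910 (Pf.C 1 0x5091010006))
 (Pq.cons (Pq.L [0,3] 910 (Pf.C 1 0x509100c006))
 (Pq.cons (Pq.L [0,3] 910 (Pf.C 1 0x509100c006))
 (Pq.cons (Pq.L [3,4] 910 (Pf.C 1 0x5091010186))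
 Pq.nil)))))))) (Pq.cons (Pq.L [4,5] 1023 (Pf.B 10 4 (Pf.C 1 0x409141c304) (Pf.B 10 5 (Pf.C 1 0x284141c308) (Pf.C 0 0x1214504))))
 (Pq.cons (Pq.L [4,5] 1023 (Pf.B 10 5 (Pf.C 1 0x409141c305) (Pf.B 10 4 (Pf.C 1 0x205141c308) (Pf.C 0 0x1210505))))
 (Pq.cons (Pq.L [3,4,5] 1023 (Pf.B 10 5 (Pf.C 1 0x409141c305) (Pf.B 10 4 (Pf.C 1 0x409141c304) (Pf.B 10 3 (Pf.C 0 0x61420a) (Pf.C 0 0x120c504)))))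
 (Pq.cons (Pq.L [2,3,4,5] 1023 (Pf.B 10 5 (Pf.C 1 0x409141c305) (Pf.B 10 4 (Pf.C 1 0x409141c304) (Pf.B 10 3 (Pf.C 0 0x61420a) (Pf.B 10 2 (Pf.C 0 0x41018a) (Pf.C 0 0x102410a))))))
 (Pq.cons (Pq.L [1,2,3,4,5] 1023 (Pf.B 10 5 (Pf.C 1 0x409141c305) (Pf.B 10 4 (Pf.C 1 0x409141c304) (Pf.B 10 3 (Pf.C 0 0x61420a) (Pf.B 10 2 (Pf.C 0 0x41018a) (Pf.B 10 1 (Pf.C 0 0x20c10a) (Pf.C 0 0x1204502)))))))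
 (Pq.cons (Pq.L [0,1,2,3,4,5] 1023 (Pf.B 10 5 (Pf.C 1 0x409141c305) (Pf.B 10 4 (Pf.C 1 0x409141c304) (Pf.B 10 3 (Pf.C 0 0x61420a) (Pf.B 10 2 (Pf.C 0 0x41018a) (Pf.B 10 1 (Pf.C 0 0x20c10a) (Pf.B 10 0 (Pf.C 0 32906) (Pf.C 0 0x1200501))))))))
 Pq.nil)))))))) (Pq.cons (Pq.D 3 (Pq.cons (Pq.D 4 (Pq.cons (Pq.L [0,2] 910 (Pf.C 1 0x5091008006))
 (Pq.cons (Pq.L [0,2] 910 (Pf.C 1 0x5091008006))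
 (Pq.cons (Pq.L [0,2] 910 (Pf.C 1 0x5091008006))
 (Pq.cons (Pq.L [0,2] 910 (Pf.C 1 0x5091008006))
 (Pq.cons (Pq.L [0,3] 910 (Pf.C 1 0x509100c006))
 (Pq.cons (Pq.L [0,2] 910 (Pf.C 1 0x5091008006))
 (Pq.cons (Pq.L [2,3] 910 (Pf.C 1 0x509100c106))
 Pq.nil)))))))) (Pq.cons (Pq.L [4,5] 1023 (Pf.B 10 4 (Pf.C 1 0x409141c304) (Pf.B 10 5 (Pf.C 1 0x284141c308) (Pf.C 0 0x1214504))))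
 (Pq.cons (Pq.L [4,5] 1023 (Pf.B 10 5 (Pf.C 1 0x409141c305) (Pf.B 10 4 (Pf.C 1 0x205141c308) (Pf.C 0 0x1210505))))
 (Pq.cons (Pq.L [3,4,5] 1023 (Pf.B 10 5 (Pf.C 1 0x409141c305) (Pf.B 10 4 (Pf.C 1 0x409141c304) (Pf.B 10 3 (Pf.C 0 0x61420a) (Pf.C 0 0x120c504)))))
 (Pq.cons (Pq.L [2,3,4,5] 1023 (Pf.B 10 5 (Pf.C 1 0x409141c305) (Pf.B 10 4 (Pf.C 1 0x409141c304) (Pf.B 10 3 (Pf.C 0 0x61420a) (Pf.B 10 2 (Pf.C 0 0x41018a) (Pf.C 0 0x1208503))))))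
 (Pq.cons (Pq.L [1,2,3,4,5] 1023 (Pf.B 10 5 (Pf.C 1 0x409141c305) (Pf.B 10 4 (Pf.C 1 0x409141c304) (Pf.B 10 3 (Pf.C 0 0x61420a) (Pf.B 10 2 (Pf.C 0 0x41018a) (Pf.B 10 1 (Pf.C 0 0x20c10a) (Pf.C 0 0x102408a)))))))
 (Pq.cons (Pq.L [0,1,2,3,4,5] 1023 (Pf.B 10 5 (Pf.C 1 0x409141c305) (Pf.B 10 4 (Pf.C 1 0x409141c304) (Pf.B 10 3 (Pf.C 0 0x61420a) (Pf.B 10 2 (Pf.C 0 0x41018a) (Pf.B 10 1 (Pf.C 0 0x20c10a) (Pf.B 10 0 (Pf.C 0 32906) (Pf.C 0 0x1200501))))))))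
 Pq.nil)))))))) (Pq.cons (Pq.D 3 (Pq.cons (Pq.D 4 (Pq.cons (Pq.L [2,3] 910 (Pf.C 1 0x509100c106))
 (Pq.cons (Pq.L [2,3] 910 (Pf.C 1 0x509100c106))
 (Pq.cons (Pq.L [2,3] 910 (Pf.C 1 0x509100c106))
 (Pq.cons (Pq.L [2,4] 910 (Pf.C 1 0x5091010106))
 (Pq.cons (Pq.L [3,4] 910 (Pf.C 1 0x5091010186))
 (Pq.cons (Pq.L [2,3] 910 (Pf.C 1 0x509100c106))
 (Pq.cons (Pq.L [2,3] 910 (Pf.C 1 0x509100c106))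
 Pq.nil)))))))) (Pq.cons (Pq.L [4,5] 1023 (Pf.B 10 4 (Pf.C 1 0x409141c304) (Pf.B 10 5 (Pf.C 1 0x284141c308) (Pf.C 0 0x1214504))))
 (Pq.cons (Pq.L [4,5] 1023 (Pf.B 10 5 (Pf.C 1 0x409141c305) (Pf.B 10 4 (Pf.C 1 0x205141c308) (Pf.C 0 0x1210505))))
 (Pq.cons (Pq.L [3,4,5] 1023 (Pf.B 10 5 (Pf.C 1 0x409141c305) (Pf.B 10 4 (Pf.C 1 0x409141c304) (Pf.B 10 3 (Pf.C 0 0x61420a) (Pf.C 0 0x120c504)))))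
 (Pq.cons (Pq.L [2,3,4,5] 1023 (Pf.B 10 5 (Pf.C 1 0x409141c305) (Pf.B 10 4 (Pf.C 1 0x409141c304) (Pf.B 10 3 (Pf.C 0 0x61420a) (Pf.B 10 2 (Pf.C 0 0x41018a) (Pf.C 0 0x1208503))))))
 (Pq.cons (Pq.L [1,2,3,4,5] 1023 (Pf.B 10 5 (Pf.C 1 0x409141c305) (Pf.B 10 4 (Pf.C 1 0x409141c304) (Pf.B 10 3 (Pf.C 0 0x61420a) (Pf.B 10 2 (Pf.C 0 0x41018a) (Pf.B 10 1 (Pf.C 0 0x20c10a) (Pf.C 0 0x1204502)))))))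
 (Pq.cons (Pq.L [0,1,2,3,4,5] 1023 (Pf.B 10 5 (Pf.C 1 0x409141c305) (Pf.B 10 4 (Pf.C 1 0x409141c304) (Pf.B 10 3 (Pf.C 0 0x61420a) (Pf.B 10 2 (Pf.C 0 0x41018a) (Pf.B 10 1 (Pf.C 0 0x20c10a) (Pf.B 10 0 (Pf.C 0 32906) (Pf.C 0 0x102400a))))))))
 Pq.nil)))))))) Pq.nil)))))))) (Pq.cons (Pq.D 2 (Pq.cons (Pq.D 3 (Pq.cons (Pq.D 4 (Pq.cons (Pq.L [0,2] 910 (Pf.C 1 0x5091008006))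
 (Pq.cons (Pq.L [0,2] 910 (Pf.C 1 0x5091008006))
 (Pq.cons (Pq.L [0,2] 910 (Pf.C 1 0x5091008006))
 (Pq.cons (Pq.L [0,2] 910 (Pf.C 1 0x5091008006))
 (Pq.cons (Pq.L [0,3] 910 (Pf.C 1 0x509100c006))
 (Pq.cons (Pq.L [0,2] 910 (Pf.C 1 0x5091008006))
 (Pq.cons (Pq.L [2,3] 910 (Pf.C 1 0x509100c106))
 Pq.nil)))))))) (Pq.cons (Pq.L [4,5] 1023 (Pf.B 10 4 (Pf.C 1 0x409141c304) (Pf.B 10 5 (Pf.C 1 0x284141c308) (Pf.C 0 0x1214504))))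
 (Pq.cons (Pq.L [4,5] 1023 (Pf.B 10 5 (Pf.C 1 0x409141c305) (Pf.B 10 4 (Pf.C 1 0x205141c308) (Pf.C 0 0x1210505))))
 (Pq.cons (Pq.L [3,4,5] 1023 (Pf.B 10 5 (Pf.C 1 0x409141c305) (Pf.B 10 4 (Pf.C 1 0x409141c304) (Pf.B 10 3 (Pf.C 0 0x61420a) (Pf.C 0 0x120c504)))))
 (Pq.cons (Pq.L [2,3,4,5] 1023 (Pf.B 10 5 (Pf.C 1 0x409141c305) (Pf.B 10 4 (Pf.C 1 0x409141c304) (Pf.B 10 3 (Pf.C 0 0x61420a) (Pf.B 10 2 (Pf.C 0 0x41018a) (Pf.C 0 0x1208503))))))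
 (Pq.cons (Pq.L [1,2,3,4,5] 1023 (Pf.B 10 5 (Pf.C 1 0x409141c305) (Pf.B 10 4 (Pf.C 1 0x409141c304) (Pf.B 10 3 (Pf.C 0 0x61420a) (Pf.B 10 2 (Pf.C 0 0x41018a) (Pf.B 10 1 (Pf.C 0 0x20c10a) (Pf.C 0 0x1204502)))))))
 (Pq.cons (Pq.L [0,1,2,3,4,5] 1023 (Pf.B 10 5 (Pf.C 1 0x409141c305) (Pf.B 10 4 (Pf.C 1 0x409141c304) (Pf.B 10 3 (Pf.C 0 0x61420a) (Pf.B 10 2 (Pf.C 0 0x41018a) (Pf.B 10 1 (Pf.C 0 0x20c10a) (Pf.B 10 0 (Pf.C 0 32906) (Pf.C 0 0x1200501))))))))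
 Pq.nil)))))))) (Pq.cons (Pq.D 3 (Pq.cons (Pq.D 4 (Pq.cons (Pq.L [0,2] 910 (Pf.C 1 0x5091008006))
 (Pq.cons (Pq.L [0,2] 910 (Pf.C 1 0x5091008006))
 (Pq.cons (Pq.L [0,2] 910 (Pf.C 1 0x5091008006))
 (Pq.cons (Pq.L [0,2] 910 (Pf.C 1 0x5091008006))
 (Pq.cons (Pq.L [0,3] 910 (Pf.C 1 0x509100c006))
 (Pq.cons (Pq.L [0,2] 910 (Pf.C 1 0x5091008006))
 (Pq.cons (Pq.L [2,3] 910 (Pf.C 1 0x509100c106))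
 Pq.nil)))))))) (Pq.cons (Pq.L [3,4,5] 987 (Pf.B 10 5 (Pf.B 10 4 (Pf.C 1 0x405081c30a) (Pf.B 10 3 (Pf.C 1 0x405061c30a) (Pf.C 0 0xa1018a))) (Pf.C 0 0x102428a)))
 (Pq.cons (Pq.L [3,4] 1023 (Pf.B 10 3 (Pf.C 1 0x409141c303) (Pf.B 10 4 (Pf.C 1 0x203141c308) (Pf.C 0 0x1210503))))
 (Pq.cons (Pq.L [3,4] 1023 (Pf.B 10 4 (Pf.C 1 0x409141c304) (Pf.B 10 3 (Pf.C 1 0x184141c308) (Pf.C 0 0x120c504))))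
 (Pq.cons (Pq.L [2,3,4] 1023 (Pf.B 10 4 (Pf.C 1 0x409141c304) (Pf.B 10 3 (Pf.C 1 0x409141c303) (Pf.B 10 2 (Pf.C 0 0x41018a) (Pf.C 0 0x1208503)))))
 (Pq.cons (Pq.L [1,2,3,4] 1023 (Pf.B 10 4 (Pf.C 1 0x409141c304) (Pf.B 10 3 (Pf.C 1 0x409141c303) (Pf.B 10 2 (Pf.C 0 0x41018a) (Pf.B 10 1 (Pf.C 0 0x20c10a) (Pf.C 0 0x1204502))))))
 (Pq.cons (Pq.L [0,1,2,3,4] 1023 (Pf.B 10 4 (Pf.C 1 0x409141c304) (Pf.B 10 3 (Pf.C 1 0x409141c303) (Pf.B 10 2 (Pf.C 0 0x41018a) (Pf.B 10 1 (Pf.C 0 0x20c10a) (Pf.B 10 0 (Pf.C 0 32906) (Pf.C 0 0x1200501)))))))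
 Pq.nil)))))))) (Pq.cons (Pq.D 3 (Pq.cons (Pq.D 4 (Pq.cons (Pq.L [0,2] 910 (Pf.C 1 0x5091008006))
 (Pq.cons (Pq.L [0,2] 910 (Pf.C 1 0x5091008006))
 (Pq.cons (Pq.L [0,2] 910 (Pf.C 1 0x5091008006))
 (Pq.cons (Pq.L [0,2] 910 (Pf.C 1 0x5091008006))
 (Pq.cons (Pq.L [0,3] 910 (Pf.C 1 0x509100c006))
 (Pq.cons (Pq.L [0,2] 910 (Pf.C 1 0x5091008006))
 (Pq.cons (Pq.L [2,3] 910 (Pf.C 1 0x509100c106))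
 Pq.nil)))))))) (Pq.cons (Pq.L [3,5] 1023 (Pf.B 10 3 (Pf.C 1 0x409141c303) (Pf.B 10 5 (Pf.C 1 0x283141c308) (Pf.C 0 0x1214503))))
 (Pq.cons (Pq.L [3,4,5] 1023 (Pf.B 10 5 (Pf.C 1 0x409141c305) (Pf.B 10 4 (Pf.B 10 3 (Pf.C 1 0x404061c30a) (Pf.C 0 0x81418a)) (Pf.C 0 0x102420a))))
 (Pq.cons (Pq.L [3,5] 1023 (Pf.B 10 5 (Pf.C 1 0x409141c305) (Pf.B 10 3 (Pf.C 1 0x185141c308) (Pf.C 0 0x120c505))))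
 (Pq.cons (Pq.L [2,3,4,5] 1023 (Pf.B 10 5 (Pf.C 1 0x409141c305) (Pf.B 10 3 (Pf.C 1 0x409141c303) (Pf.B 10 4 (Pf.C 0 0x81418a) (Pf.B 10 2 (Pf.C 0 0x41018a) (Pf.C 0 0x1208503))))))
 (Pq.cons (Pq.L [1,2,3,4,5] 1023 (Pf.B 10 5 (Pf.C 1 0x409141c305) (Pf.B 10 3 (Pf.C 1 0x409141c303) (Pf.B 10 4 (Pf.C 0 0x81418a) (Pf.B 10 2 (Pf.C 0 0x41018a) (Pf.B 10 1 (Pf.C 0 0x20c10a) (Pf.C 0 0x1204502)))))))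
 (Pq.cons (Pq.L [0,1,2,3,4,5] 1023 (Pf.B 10 5 (Pf.C 1 0x409141c305) (Pf.B 10 3 (Pf.C 1 0x409141c303) (Pf.B 10 4 (Pf.C 0 0x81418a) (Pf.B 10 2 (Pf.C 0 0x41018a) (Pf.B 10 1 (Pf.C 0 0x20c10a) (Pf.B 10 0 (Pf.C 0 32906) (Pf.C 0 0x1200501))))))))
 Pq.nil)))))))) (Pq.cons (Pq.D 3 (Pq.cons (Pq.D 4 (Pq.cons (Pq.L [0,2] 910 (Pf.C 1 0x5091008006))
 (Pq.cons (Pq.L [0,2] 910 (Pf.C 1 0x5091008006))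
 (Pq.cons (Pq.L [0,2] 910 (Pf.C 1 0x5091008006))
 (Pq.cons (Pq.L [0,2] 910 (Pf.C 1 0x5091008006))
 (Pq.cons (Pq.L [0,4] 910 (Pf.C 1 0x5091010006))
 (Pq.cons (Pq.L [0,2] 910 (Pf.C 1 0x5091008006))
 (Pq.cons (Pq.L [2,4] 910 (Pf.C 1 0x5091010106))
 Pq.nil)))))))) (Pq.cons (Pq.L [4,5] 1023 (Pf.B 10 4 (Pf.C 1 0x409141c304) (Pf.B 10 5 (Pf.C 1 0x284141c308) (Pf.C 0 0x1214504))))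
 (Pq.cons (Pq.L [4,5] 1023 (Pf.B 10 5 (Pf.C 1 0x409141c305) (Pf.B 10 4 (Pf.C 1 0x205141c308) (Pf.C 0 0x1210505))))
 (Pq.cons (Pq.L [3,4,5] 1023 (Pf.B 10 5 (Pf.C 1 0x409141c305) (Pf.B 10 4 (Pf.C 1 0x409141c304) (Pf.B 10 3 (Pf.C 0 0x61420a) (Pf.C 0 0x102418a)))))
 (Pq.cons (Pq.L [2,3,4,5] 1023 (Pf.B 10 5 (Pf.C 1 0x409141c305) (Pf.B 10 4 (Pf.C 1 0x409141c304) (Pf.B 10 3 (Pf.C 0 0x61420a) (Pf.B 10 2 (Pf.C 0 0x41018a) (Pf.C 0 0x1208503))))))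
 (Pq.cons (Pq.L [1,2,3,4,5] 1023 (Pf.B 10 5 (Pf.C 1 0x409141c305) (Pf.B 10 4 (Pf.C 1 0x409141c304) (Pf.B 10 3 (Pf.C 0 0x61420a) (Pf.B 10 2 (Pf.C 0 0x41018a) (Pf.B 10 1 (Pf.C 0 0x20c10a) (Pf.C 0 0x1204502)))))))
 (Pq.cons (Pq.L [0,1,2,3,4,5] 1023 (Pf.B 10 5 (Pf.C 1 0x409141c305) (Pf.B 10 4 (Pf.C 1 0x409141c304) (Pf.B 10 3 (Pf.C 0 0x61420a) (Pf.B 10 2 (Pf.C 0 0x41018a) (Pf.B 10 1 (Pf.C 0 0x20c10a) (Pf.B 10 0 (Pf.C 0 32906) (Pf.C 0 0x1200501))))))))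
 Pq.nil)))))))) (Pq.cons (Pq.D 3 (Pq.cons (Pq.D 4 (Pq.cons (Pq.L [0,3] 910 (Pf.C 1 0x509100c006))
 (Pq.cons (Pq.L [0,3] 910 (Pf.C 1 0x509100c006))
 (Pq.cons (Pq.L [0,3] 910 (Pf.C 1 0x509100c006))
 (Pq.cons (Pq.L [0,4] 910 (Pf.C 1 0x5091010006))
 (Pq.cons (Pq.L [0,3] 910 (Pf.C 1 0x509100c006))
 (Pq.cons (Pq.L [0,3] 910 (Pf.C 1 0x509100c006))
 (Pq.cons (Pq.L [3,4] 910 (Pf.C 1 0x5091010186))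
 Pq.nil)))))))) (Pq.cons (Pq.L [4,5] 1023 (Pf.B 10 4 (Pf.C 1 0x409141c304) (Pf.B 10 5 (Pf.C 1 0x284141c308) (Pf.C 0 0x1214504))))
 (Pq.cons (Pq.L [4,5] 1023 (Pf.B 10 5 (Pf.C 1 0x409141c305) (Pf.B 10 4 (Pf.C 1 0x205141c308) (Pf.C 0 0x1210505))))
 (Pq.cons (Pq.L [3,4,5] 1023 (Pf.B 10 5 (Pf.C 1 0x409141c305) (Pf.B 10 4 (Pf.C 1 0x409141c304) (Pf.B 10 3 (Pf.C 0 0x61420a) (Pf.C 0 0x120c504)))))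
 (Pq.cons (Pq.L [2,3,4,5] 1023 (Pf.B 10 5 (Pf.C 1 0x409141c305) (Pf.B 10 4 (Pf.C 1 0x409141c304) (Pf.B 10 3 (Pf.C 0 0x61420a) (Pf.B 10 2 (Pf.C 0 0x41018a) (Pf.C 0 0x102410a))))))
 (Pq.cons (Pq.L [1,2,3,4,5] 1023 (Pf.B 10 5 (Pf.C 1 0x409141c305) (Pf.B 10 4 (Pf.C 1 0x409141c304) (Pf.B 10 3 (Pf.C 0 0x61420a) (Pf.B 10 2 (Pf.C 0 0x41018a) (Pf.B 10 1 (Pf.C 0 0x20c10a) (Pf.C 0 0x1204502)))))))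
 (Pq.cons (Pq.L [0,1,2,3,4,5] 1023 (Pf.B 10 5 (Pf.C 1 0x409141c305) (Pf.B 10 4 (Pf.C 1 0x409141c304) (Pf.B 10 3 (Pf.C 0 0x61420a) (Pf.B 10 2 (Pf.C 0 0x41018a) (Pf.B 10 1 (Pf.C 0 0x20c10a) (Pf.B 10 0 (Pf.C 0 32906) (Pf.C 0 0x1200501))))))))
 Pq.nil)))))))) (Pq.cons (Pq.D 3 (Pq.cons (Pq.D 4 (Pq.cons (Pq.L [0,2] 910 (Pf.C 1 0x5091008006))
 (Pq.cons (Pq.L [0,2] 910 (Pf.C 1 0x5091008006))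
 (Pq.cons (Pq.L [0,2] 910 (Pf.C 1 0x5091008006))
 (Pq.cons (Pq.L [0,2] 910 (Pf.C 1 0x5091008006))
 (Pq.cons (Pq.L [0,3] 910 (Pf.C 1 0x509100c006))
 (Pq.cons (Pq.L [0,2] 910 (Pf.C 1 0x5091008006))
 (Pq.cons (Pq.L [2,3] 910 (Pf.C 1 0x509100c106))
 Pq.nil)))))))) (Pq.cons (Pq.L [4,5] 1023 (Pf.B 10 4 (Pf.C 1 0x409141c304) (Pf.B 10 5 (Pf.C 1 0x284141c308) (Pf.C 0 0x1214504))))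
 (Pq.cons (Pq.L [4,5] 1023 (Pf.B 10 5 (Pf.C 1 0x409141c305) (Pf.B 10 4 (Pf.C 1 0x205141c308) (Pf.C 0 0x1210505))))
 (Pq.cons (Pq.L [3,4,5] 1023 (Pf.B 10 5 (Pf.C 1 0x409141c305) (Pf.B 10 4 (Pf.C 1 0x409141c304) (Pf.B 10 3 (Pf.C 0 0x61420a) (Pf.C 0 0x120c504)))))
 (Pq.cons (Pq.L [2,3,4,5] 1023 (Pf.B 10 5 (Pf.C 1 0x409141c305) (Pf.B 10 4 (Pf.C 1 0x409141c304) (Pf.B 10 3 (Pf.C 0 0x61420a) (Pf.B 10 2 (Pf.C 0 0x41018a) (Pf.C 0 0x1208503))))))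
 (Pq.cons (Pq.L [1,2,3,4,5] 1023 (Pf.B 10 5 (Pf.C 1 0x409141c305) (Pf.B 10 4 (Pf.C 1 0x409141c304) (Pf.B 10 3 (Pf.C 0 0x61420a) (Pf.B 10 2 (Pf.C 0 0x41018a) (Pf.B 10 1 (Pf.C 0 0x20c10a) (Pf.C 0 0x102408a)))))))
 (Pq.cons (Pq.L [0,1,2,3,4,5] 1023 (Pf.B 10 5 (Pf.C 1 0x409141c305) (Pf.B 10 4 (Pf.C 1 0x409141c304) (Pf.B 10 3 (Pf.C 0 0x61420a) (Pf.B 10 2 (Pf.C 0 0x41018a) (Pf.B 10 1 (Pf.C 0 0x20c10a) (Pf.B 10 0 (Pf.C 0 32906) (Pf.C 0 0x1200501))))))))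
 Pq.nil)))))))) (Pq.cons (Pq.D 3 (Pq.cons (Pq.D 4 (Pq.cons (Pq.L [2,3] 910 (Pf.C 1 0x509100c106))
 (Pq.cons (Pq.L [2,3] 910 (Pf.C 1 0x509100c106))
 (Pq.cons (Pq.L [2,3] 910 (Pf.C 1 0x509100c106))
 (Pq.cons (Pq.L [2,4] 910 (Pf.C 1 0x5091010106))
 (Pq.cons (Pq.L [3,4] 910 (Pf.C 1 0x5091010186))
 (Pq.cons (Pq.L [2,3] 910 (Pf.C 1 0x509100c106))
 (Pq.cons (Pq.L [2,3] 910 (Pf.C 1 0x509100c106))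
 Pq.nil)))))))) (Pq.cons (Pq.L [4,5] 1023 (Pf.B 10 4 (Pf.C 1 0x409141c304) (Pf.B 10 5 (Pf.C 1 0x284141c308) (Pf.C 0 0x1214504))))
 (Pq.cons (Pq.L [4,5] 1023 (Pf.B 10 5 (Pf.C 1 0x409141c305) (Pf.B 10 4 (Pf.C 1 0x205141c308) (Pf.C 0 0x1210505))))
 (Pq.cons (Pq.L [3,4,5] 1023 (Pf.B 10 5 (Pf.C 1 0x409141c305) (Pf.B 10 4 (Pf.C 1 0x409141c304) (Pf.B 10 3 (Pf.C 0 0x61420a) (Pf.C 0 0x120c504)))))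
 (Pq.cons (Pq.L [2,3,4,5] 1023 (Pf.B 10 5 (Pf.C 1 0x409141c305) (Pf.B 10 4 (Pf.C 1 0x409141c304) (Pf.B 10 3 (Pf.C 0 0x61420a) (Pf.B 10 2 (Pf.C 0 0x41018a) (Pf.C 0 0x1208503))))))
 (Pq.cons (Pq.L [1,2,3,4,5] 1023 (Pf.B 10 5 (Pf.C 1 0x409141c305) (Pf.B 10 4 (Pf.C 1 0x409141c304) (Pf.B 10 3 (Pf.C 0 0x61420a) (Pf.B 10 2 (Pf.C 0 0x41018a) (Pf.B 10 1 (Pf.C 0 0x20c10a) (Pf.C 0 0x1204502)))))))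
 (Pq.cons (Pq.L [0,1,2,3,4,5] 1023 (Pf.B 10 5 (Pf.C 1 0x409141c305) (Pf.B 10 4 (Pf.C 1 0x409141c304) (Pf.B 10 3 (Pf.C 0 0x61420a) (Pf.B 10 2 (Pf.C 0 0x41018a) (Pf.B 10 1 (Pf.C 0 0x20c10a) (Pf.B 10 0 (Pf.C 0 32906) (Pf.C 0 0x102400a))))))))
 Pq.nil)))))))) Pq.nil)))))))) (Pq.cons (Pq.D 2 (Pq.cons (Pq.D 3 (Pq.cons (Pq.D 4 (Pq.cons (Pq.L [0,2] 910 (Pf.C 1 0x5091008006))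
 (Pq.cons (Pq.L [0,2] 910 (Pf.C 1 0x5091008006))
 (Pq.cons (Pq.L [0,2] 910 (Pf.C 1 0x5091008006))
 (Pq.cons (Pq.L [0,2] 910 (Pf.C 1 0x5091008006))
 (Pq.cons (Pq.L [0,3] 910 (Pf.C 1 0x509100c006))
 (Pq.cons (Pq.L [0,2] 910 (Pf.C 1 0x5091008006))
 (Pq.cons (Pq.L [2,3] 910 (Pf.C 1 0x509100c106))
 Pq.nil)))))))) (Pq.cons (Pq.L [4,5] 1023 (Pf.B 10 4 (Pf.C 1 0x409141c304) (Pf.B 10 5 (Pf.C 1 0x284141c308) (Pf.C 0 0x1214504))))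
 (Pq.cons (Pq.L [4,5] 1023 (Pf.B 10 5 (Pf.C 1 0x409141c305) (Pf.B 10 4 (Pf.C 1 0x205141c308) (Pf.C 0 0x1210505))))
 (Pq.cons (Pq.L [3,4,5] 1023 (Pf.B 10 5 (Pf.C 1 0x409141c305) (Pf.B 10 4 (Pf.C 1 0x409141c304) (Pf.B 10 3 (Pf.C 0 0x61420a) (Pf.C 0 0x120c504)))))
 (Pq.cons (Pq.L [2,3,4,5] 1023 (Pf.B 10 5 (Pf.C 1 0x409141c305) (Pf.B 10 4 (Pf.C 1 0x409141c304) (Pf.B 10 3 (Pf.C 0 0x61420a) (Pf.B 10 2 (Pf.C 0 0x41018a) (Pf.C 0 0x1208503))))))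
 (Pq.cons (Pq.L [1,2,3,4,5] 1023 (Pf.B 10 5 (Pf.C 1 0x409141c305) (Pf.B 10 4 (Pf.C 1 0x409141c304) (Pf.B 10 3 (Pf.C 0 0x61420a) (Pf.B 10 2 (Pf.C 0 0x41018a) (Pf.B 10 1 (Pf.C 0 0x20c10a) (Pf.C 0 0x1204502)))))))
 (Pq.cons (Pq.L [0,1,2,3,4,5] 1023 (Pf.B 10 5 (Pf.C 1 0x409141c305) (Pf.B 10 4 (Pf.C 1 0x409141c304) (Pf.B 10 3 (Pf.C 0 0x61420a) (Pf.B 10 2 (Pf.C 0 0x41018a) (Pf.B 10 1 (Pf.C 0 0x20c10a) (Pf.B 10 0 (Pf.C 0 32906) (Pf.C 0 0x1200501))))))))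
 Pq.nil)))))))) (Pq.cons (Pq.D 3 (Pq.cons (Pq.D 4 (Pq.cons (Pq.L [0,2] 910 (Pf.C 1 0x5091008006))
 (Pq.cons (Pq.L [0,2] 910 (Pf.C 1 0x5091008006))
 (Pq.cons (Pq.L [0,2] 910 (Pf.C 1 0x5091008006))
 (Pq.cons (Pq.L [0,2] 910 (Pf.C 1 0x5091008006))
 (Pq.cons (Pq.L [0,3] 910 (Pf.C 1 0x509100c006))
 (Pq.cons (Pq.L [0,2] 910 (Pf.C 1 0x5091008006))
 (Pq.cons (Pq.L [2,3] 910 (Pf.C 1 0x509100c106))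
 Pq.nil)))))))) (Pq.cons (Pq.L [3,4,5] 987 (Pf.B 10 5 (Pf.B 10 4 (Pf.C 1 0x405081c30a) (Pf.B 10 3 (Pf.C 1 0x405061c30a) (Pf.C 0 0xa1018a))) (Pf.C 0 0x102428a)))
 (Pq.cons (Pq.L [3,4] 1023 (Pf.B 10 3 (Pf.C 1 0x409141c303) (Pf.B 10 4 (Pf.C 1 0x203141c308) (Pf.C 0 0x1210503))))
 (Pq.cons (Pq.L [3,4] 1023 (Pf.B 10 4 (Pf.C 1 0x409141c304) (Pf.B 10 3 (Pf.C 1 0x184141c308) (Pf.C 0 0x120c504))))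
 (Pq.cons (Pq.L [2,3,4] 1023 (Pf.B 10 4 (Pf.C 1 0x409141c304) (Pf.B 10 3 (Pf.C 1 0x409141c303) (Pf.B 10 2 (Pf.C 0 0x41018a) (Pf.C 0 0x1208503)))))
 (Pq.cons (Pq.L [1,2,3,4] 1023 (Pf.B 10 4 (Pf.C 1 0x409141c304) (Pf.B 10 3 (Pf.C 1 0x409141c303) (Pf.B 10 2 (Pf.C 0 0x41018a) (Pf.B 10 1 (Pf.C 0 0x20c10a) (Pf.C 0 0x1204502))))))
 (Pq.cons (Pq.L [0,1,2,3,4] 1023 (Pf.B 10 4 (Pf.C 1 0x409141c304) (Pf.B 10 3 (Pf.C 1 0x409141c303) (Pf.B 10 2 (Pf.C 0 0x41018a) (Pf.B 10 1 (Pf.C 0 0x20c10a) (Pf.B 10 0 (Pf.C 0 32906) (Pf.C 0 0x1200501)))))))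
 Pq.nil)))))))) (Pq.cons (Pq.D 3 (Pq.cons (Pq.D 4 (Pq.cons (Pq.L [0,2] 910 (Pf.C 1 0x5091008006))
 (Pq.cons (Pq.L [0,2] 910 (Pf.C 1 0x5091008006))
 (Pq.cons (Pq.L [0,2] 910 (Pf.C 1 0x5091008006))
 (Pq.cons (Pq.L [0,2] 910 (Pf.C 1 0x5091008006))
 (Pq.cons (Pq.L [0,3] 910 (Pf.C 1 0x509100c006))
 (Pq.cons (Pq.L [0,2] 910 (Pf.C 1 0x5091008006))
 (Pq.cons (Pq.L [2,3] 910 (Pf.C 1 0x509100c106))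
 Pq.nil)))))))) (Pq.cons (Pq.L [3,5] 1023 (Pf.B 10 3 (Pf.C 1 0x409141c303) (Pf.B 10 5 (Pf.C 1 0x283141c308) (Pf.C 0 0x1214503))))
 (Pq.cons (Pq.L [3,4,5] 1023 (Pf.B 10 5 (Pf.C 1 0x409141c305) (Pf.B 10 4 (Pf.B 10 3 (Pf.C 1 0x404061c30a) (Pf.C 0 0x81418a)) (Pf.C 0 0x102420a))))
 (Pq.cons (Pq.L [3,5] 1023 (Pf.B 10 5 (Pf.C 1 0x409141c305) (Pf.B 10 3 (Pf.C 1 0x185141c308) (Pf.C 0 0x120c505))))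
 (Pq.cons (Pq.L [2,3,4,5] 1023 (Pf.B 10 5 (Pf.C 1 0x409141c305) (Pf.B 10 3 (Pf.C 1 0x409141c303) (Pf.B 10 4 (Pf.C 0 0x81418a) (Pf.B 10 2 (Pf.C 0 0x41018a) (Pf.C 0 0x1208503))))))
 (Pq.cons (Pq.L [1,2,3,4,5] 1023 (Pf.B 10 5 (Pf.C 1 0x409141c305) (Pf.B 10 3 (Pf.C 1 0x409141c303) (Pf.B 10 4 (Pf.C 0 0x81418a) (Pf.B 10 2 (Pf.C 0 0x41018a) (Pf.B 10 1 (Pf.C 0 0x20c10a) (Pf.C 0 0x1204502)))))))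
 (Pq.cons (Pq.L [0,1,2,3,4,5] 1023 (Pf.B 10 5 (Pf.C 1 0x409141c305) (Pf.B 10 3 (Pf.C 1 0x409141c303) (Pf.B 10 4 (Pf.C 0 0x81418a) (Pf.B 10 2 (Pf.C 0 0x41018a) (Pf.B 10 1 (Pf.C 0 0x20c10a) (Pf.B 10 0 (Pf.C 0 32906) (Pf.C 0 0x1200501))))))))
 Pq.nil)))))))) (Pq.cons (Pq.D 3 (Pq.cons (Pq.D 4 (Pq.cons (Pq.L [0,2] 910 (Pf.C 1 0x5091008006))
 (Pq.cons (Pq.L [0,2] 910 (Pf.C 1 0x5091008006))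
 (Pq.cons (Pq.L [0,2] 910 (Pf.C 1 0x5091008006))
 (Pq.cons (Pq.L [0,2] 910 (Pf.C 1 0x5091008006))
 (Pq.cons (Pq.L [0,4] 910 (Pf.C 1 0x5091010006))
 (Pq.cons (Pq.L [0,2] 910 (Pf.C 1 0x5091008006))
 (Pq.cons (Pq.L [2,4] 910 (Pf.C 1 0x5091010106))
 Pq.nil)))))))) (Pq.cons (Pq.L [4,5] 1023 (Pf.B 10 4 (Pf.C 1 0x409141c304) (Pf.B 10 5 (Pf.C 1 0x284141c308) (Pf.C 0 0x1214504))))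
 (Pq.cons (Pq.L [4,5] 1023 (Pf.B 10 5 (Pf.C 1 0x409141c305) (Pf.B 10 4 (Pf.C 1 0x205141c308) (Pf.C 0 0x1210505))))
 (Pq.cons (Pq.L [3,4,5] 1023 (Pf.B 10 5 (Pf.C 1 0x409141c305) (Pf.B 10 4 (Pf.C 1 0x409141c304) (Pf.B 10 3 (Pf.C 0 0x61420a) (Pf.C 0 0x102418a)))))
 (Pq.cons (Pq.L [2,3,4,5] 1023 (Pf.B 10 5 (Pf.C 1 0x409141c305) (Pf.B 10 4 (Pf.C 1 0x409141c304) (Pf.B 10 3 (Pf.C 0 0x61420a) (Pf.B 10 2 (Pf.C 0 0x41018a) (Pf.C 0 0x1208503))))))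
 (Pq.cons (Pq.L [1,2,3,4,5] 1023 (Pf.B 10 5 (Pf.C 1 0x409141c305) (Pf.B 10 4 (Pf.C 1 0x409141c304) (Pf.B 10 3 (Pf.C 0 0x61420a) (Pf.B 10 2 (Pf.C 0 0x41018a) (Pf.B 10 1 (Pf.C 0 0x20c10a) (Pf.C 0 0x1204502)))))))
 (Pq.cons (Pq.L [0,1,2,3,4,5] 1023 (Pf.B 10 5 (Pf.C 1 0x409141c305) (Pf.B 10 4 (Pf.C 1 0x409141c304) (Pf.B 10 3 (Pf.C 0 0x61420a) (Pf.B 10 2 (Pf.C 0 0x41018a) (Pf.B 10 1 (Pf.C 0 0x20c10a) (Pf.B 10 0 (Pf.C 0 32906) (Pf.C 0 0x1200501))))))))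
 Pq.nil)))))))) (Pq.cons (Pq.D 3 (Pq.cons (Pq.D 4 (Pq.cons (Pq.L [0,3] 910 (Pf.C 1 0x509100c006))
 (Pq.cons (Pq.L [0,3] 910 (Pf.C 1 0x509100c006))
 (Pq.cons (Pq.L [0,3] 910 (Pf.C 1 0x509100c006))
 (Pq.cons (Pq.L [0,4] 910 (Pf.C 1 0x5091010006))
 (Pq.cons (Pq.L [0,3] 910 (Pf.C 1 0x509100c006))
 (Pq.cons (Pq.L [0,3] 910 (Pf.C 1 0x509100c006))
 (Pq.cons (Pq.L [3,4] 910 (Pf.C 1 0x5091010186))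
 Pq.nil)))))))) (Pq.cons (Pq.L [4,5] 1023 (Pf.B 10 4 (Pf.C 1 0x409141c304) (Pf.B 10 5 (Pf.C 1 0x284141c308) (Pf.C 0 0x1214504))))
 (Pq.cons (Pq.L [4,5] 1023 (Pf.B 10 5 (Pf.C 1 0x409141c305) (Pf.B 10 4 (Pf.C 1 0x205141c308) (Pf.C 0 0x1210505))))
 (Pq.cons (Pq.L [3,4,5] 1023 (Pf.B 10 5 (Pf.C 1 0x409141c305) (Pf.B 10 4 (Pf.C 1 0x409141c304) (Pf.B 10 3 (Pf.C 0 0x61420a) (Pf.C 0 0x120c504)))))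
 (Pq.cons (Pq.L [2,3,4,5] 1023 (Pf.B 10 5 (Pf.C 1 0x409141c305) (Pf.B 10 4 (Pf.C 1 0x409141c304) (Pf.B 10 3 (Pf.C 0 0x61420a) (Pf.B 10 2 (Pf.C 0 0x41018a) (Pf.C 0 0x102410a))))))
 (Pq.cons (Pq.L [1,2,3,4,5] 1023 (Pf.B 10 5 (Pf.C 1 0x409141c305) (Pf.B 10 4 (Pf.C 1 0x409141c304) (Pf.B 10 3 (Pf.C 0 0x61420a) (Pf.B 10 2 (Pf.C 0 0x41018a) (Pf.B 10 1 (Pf.C 0 0x20c10a) (Pf.C 0 0x1204502)))))))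
 (Pq.cons (Pq.L [0,1,2,3,4,5] 1023 (Pf.B 10 5 (Pf.C 1 0x409141c305) (Pf.B 10 4 (Pf.C 1 0x409141c304) (Pf.B 10 3 (Pf.C 0 0x61420a) (Pf.B 10 2 (Pf.C 0 0x41018a) (Pf.B 10 1 (Pf.C 0 0x20c10a) (Pf.B 10 0 (Pf.C 0 32906) (Pf.C 0 0x1200501))))))))
 Pq.nil)))))))) (Pq.cons (Pq.D 3 (Pq.cons (Pq.D 4 (Pq.cons (Pq.L [0,2] 910 (Pf.C 1 0x5091008006))
 (Pq.cons (Pq.L [0,2] 910 (Pf.C 1 0x5091008006))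
 (Pq.cons (Pq.L [0,2] 910 (Pf.C 1 0x5091008006))
 (Pq.cons (Pq.L [0,2] 910 (Pf.C 1 0x5091008006))
 (Pq.cons (Pq.L [0,3] 910 (Pf.C 1 0x509100c006))
 (Pq.cons (Pq.L [0,2] 910 (Pf.C 1 0x5091008006))
 (Pq.cons (Pq.L [2,3] 910 (Pf.C 1 0x509100c106))
 Pq.nil)))))))) (Pq.cons (Pq.L [4,5] 1023 (Pf.B 10 4 (Pf.C 1 0x409141c304) (Pf.B 10 5 (Pf.C 1 0x284141c308) (Pf.C 0 0x1214504))))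
 (Pq.cons (Pq.L [4,5] 1023 (Pf.B 10 5 (Pf.C 1 0x409141c305) (Pf.B 10 4 (Pf.C 1 0x205141c308) (Pf.C 0 0x1210505))))
 (Pq.cons (Pq.L [3,4,5] 1023 (Pf.B 10 5 (Pf.C 1 0x409141c305) (Pf.B 10 4 (Pf.C 1 0x409141c304) (Pf.B 10 3 (Pf.C 0 0x61420a) (Pf.C 0 0x120c504)))))
 (Pq.cons (Pq.L [2,3,4,5] 1023 (Pf.B 10 5 (Pf.C 1 0x409141c305) (Pf.B 10 4 (Pf.C 1 0x409141c304) (Pf.B 10 3 (Pf.C 0 0x61420a) (Pf.B 10 2 (Pf.C 0 0x41018a) (Pf.C 0 0x1208503))))))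
 (Pq.cons (Pq.L [1,2,3,4,5] 1023 (Pf.B 10 5 (Pf.C 1 0x409141c305) (Pf.B 10 4 (Pf.C 1 0x409141c304) (Pf.B 10 3 (Pf.C 0 0x61420a) (Pf.B 10 2 (Pf.C 0 0x41018a) (Pf.B 10 1 (Pf.C 0 0x20c10a) (Pf.C 0 0x102408a)))))))
 (Pq.cons (Pq.L [0,1,2,3,4,5] 1023 (Pf.B 10 5 (Pf.C 1 0x409141c305) (Pf.B 10 4 (Pf.C 1 0x409141c304) (Pf.B 10 3 (Pf.C 0 0x61420a) (Pf.B 10 2 (Pf.C 0 0x41018a) (Pf.B 10 1 (Pf.C 0 0x20c10a) (Pf.B 10 0 (Pf.C 0 32906) (Pf.C 0 0x1200501))))))))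
 Pq.nil)))))))) (Pq.cons (Pq.D 3 (Pq.cons (Pq.D 4 (Pq.cons (Pq.L [2,3] 910 (Pf.C 1 0x509100c106))
 (Pq.cons (Pq.L [2,3] 910 (Pf.C 1 0x509100c106))
 (Pq.cons (Pq.L [2,3] 910 (Pf.C 1 0x509100c106))
 (Pq.cons (Pq.L [2,4] 910 (Pf.C 1 0x5091010106))
 (Pq.cons (Pq.L [3,4] 910 (Pf.C 1 0x5091010186))
 (Pq.cons (Pq.L [2,3] 910 (Pf.C 1 0x509100c106))
 (Pq.cons (Pq.L [2,3] 910 (Pf.C 1 0x509100c106))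
 Pq.nil)))))))) (Pq.cons (Pq.L [4,5] 1023 (Pf.B 10 4 (Pf.C 1 0x409141c304) (Pf.B 10 5 (Pf.C 1 0x284141c308) (Pf.C 0 0x1214504))))
 (Pq.cons (Pq.L [4,5] 1023 (Pf.B 10 5 (Pf.C 1 0x409141c305) (Pf.B 10 4 (Pf.C 1 0x205141c308) (Pf.C 0 0x1210505))))
 (Pq.cons (Pq.L [3,4,5] 1023 (Pf.B 10 5 (Pf.C 1 0x409141c305) (Pf.B 10 4 (Pf.C 1 0x409141c304) (Pf.B 10 3 (Pf.C 0 0x61420a) (Pf.C 0 0x120c504)))))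
 (Pq.cons (Pq.L [2,3,4,5] 1023 (Pf.B 10 5 (Pf.C 1 0x409141c305) (Pf.B 10 4 (Pf.C 1 0x409141c304) (Pf.B 10 3 (Pf.C 0 0x61420a) (Pf.B 10 2 (Pf.C 0 0x41018a) (Pf.C 0 0x1208503))))))
 (Pq.cons (Pq.L [1,2,3,4,5] 1023 (Pf.B 10 5 (Pf.C 1 0x409141c305) (Pf.B 10 4 (Pf.C 1 0x409141c304) (Pf.B 10 3 (Pf.C 0 0x61420a) (Pf.B 10 2 (Pf.C 0 0x41018a) (Pf.B 10 1 (Pf.C 0 0x20c10a) (Pf.C 0 0x1204502)))))))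
 (Pq.cons (Pq.L [0,1,2,3,4,5] 1023 (Pf.B 10 5 (Pf.C 1 0x409141c305) (Pf.B 10 4 (Pf.C 1 0x409141c304) (Pf.B 10 3 (Pf.C 0 0x61420a) (Pf.B 10 2 (Pf.C 0 0x41018a) (Pf.B 10 1 (Pf.C 0 0x20c10a) (Pf.B 10 0 (Pf.C 0 32906) (Pf.C 0 0x102400a))))))))
 Pq.nil)))))))) Pq.nil)))))))) Pq.nil)))
theorem e_o21 : AllRef e_T e_G4 (List.drop 1 (List.drop 3 (List.flatMap (splitP 1) (List.take 1 (List.drop 1 (List.drop 1 (List.drop 3 (List.flatMap (splitP 0) [⟨[[5,6,7,8,9,10,11],[5,6,7,8,9,10,11],[5,6,7,8,9,10,11],[5,6,7,8,9,10,11],[5,6,7,8,9,10,11]],[⟨0,1,true⟩,⟨0,2,false⟩,⟨0,3,false⟩,⟨0,4,false⟩,⟨1,2,false⟩,⟨1,3,false⟩,⟨1,4,false⟩,⟨2,3,true⟩,⟨2,4,false⟩,⟨3,4,true⟩],[],[]⟩])))))))) :=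
  chkPq_sound e_o21c _ (by decide +kernel)
noncomputable def e_o22c : Pq := (Pq.cons (Pq.D 2 (Pq.cons (Pq.D 3 (Pq.cons (Pq.D 4 (Pq.cons (Pq.L [1,2] 910 (Pf.C 1 0x5091008086))
 (Pq.cons (Pq.L [1,2] 910 (Pf.C 1 0x5091008086))
 (Pq.cons (Pq.L [1,2] 910 (Pf.C 1 0x5091008086))
 (Pq.cons (Pq.L [1,2] 910 (Pf.C 1 0x5091008086))
 (Pq.cons (Pq.L [1,3] 910 (Pf.C 1 0x509100c086))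
 (Pq.cons (Pq.L [2,3] 910 (Pf.C 1 0x509100c106))
 (Pq.cons (Pq.L [1,2] 910 (Pf.C 1 0x5091008086))
 Pq.nil)))))))) (Pq.cons (Pq.L [4,5] 1023 (Pf.B 10 4 (Pf.C 1 0x409141c304) (Pf.B 10 5 (Pf.C 1 0x284141c308) (Pf.C 0 0x1214504))))
 (Pq.cons (Pq.L [4,5] 1023 (Pf.B 10 5 (Pf.C 1 0x409141c305) (Pf.B 10 4 (Pf.C 1 0x205141c308) (Pf.C 0 0x1210505))))
 (Pq.cons (Pq.L [3,4,5] 1023 (Pf.B 10 5 (Pf.C 1 0x409141c305) (Pf.B 10 4 (Pf.C 1 0x409141c304) (Pf.B 10 3 (Pf.C 0 0x61420a) (Pf.C 0 0x120c504)))))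
 (Pq.cons (Pq.L [2,3,4,5] 1023 (Pf.B 10 5 (Pf.C 1 0x409141c305) (Pf.B 10 4 (Pf.C 1 0x409141c304) (Pf.B 10 3 (Pf.C 0 0x61420a) (Pf.B 10 2 (Pf.C 0 0x41018a) (Pf.C 0 0x1208503))))))
 (Pq.cons (Pq.L [1,2,3,4,5] 1023 (Pf.B 10 5 (Pf.C 1 0x409141c305) (Pf.B 10 4 (Pf.C 1 0x409141c304) (Pf.B 10 3 (Pf.C 0 0x61420a) (Pf.B 10 2 (Pf.C 0 0x41018a) (Pf.B 10 1 (Pf.C 0 0x20c10a) (Pf.C 0 0x1204502)))))))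
 (Pq.cons (Pq.L [0,1,2,3,4,5] 1023 (Pf.B 10 5 (Pf.C 1 0x409141c305) (Pf.B 10 4 (Pf.C 1 0x409141c304) (Pf.B 10 3 (Pf.C 0 0x61420a) (Pf.B 10 2 (Pf.C 0 0x41018a) (Pf.B 10 1 (Pf.C 0 0x20c10a) (Pf.B 10 0 (Pf.C 0 32906) (Pf.C 0 0x1200501))))))))
 Pq.nil)))))))) (Pq.cons (Pq.D 3 (Pq.cons (Pq.D 4 (Pq.cons (Pq.L [1,2] 910 (Pf.C 1 0x5091008086))
 (Pq.cons (Pq.L [1,2] 910 (Pf.C 1 0x5091008086))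
 (Pq.cons (Pq.L [1,2] 910 (Pf.C 1 0x5091008086))
 (Pq.cons (Pq.L [1,2] 910 (Pf.C 1 0x5091008086))
 (Pq.cons (Pq.L [1,3] 910 (Pf.C 1 0x509100c086))
 (Pq.cons (Pq.L [2,3] 910 (Pf.C 1 0x509100c106))
 (Pq.cons (Pq.L [1,2] 910 (Pf.C 1 0x5091008086))
 Pq.nil)))))))) (Pq.cons (Pq.L [3,4,5] 987 (Pf.B 10 5 (Pf.B 10 4 (Pf.C 1 0x405081c30a) (Pf.B 10 3 (Pf.C 1 0x405061c30a) (Pf.C 0 0xa1018a))) (Pf.C 0 0x102428a)))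
 (Pq.cons (Pq.L [3,4] 1023 (Pf.B 10 3 (Pf.C 1 0x409141c303) (Pf.B 10 4 (Pf.C 1 0x203141c308) (Pf.C 0 0x1210503))))
 (Pq.cons (Pq.L [3,4] 1023 (Pf.B 10 4 (Pf.C 1 0x409141c304) (Pf.B 10 3 (Pf.C 1 0x184141c308) (Pf.C 0 0x120c504))))
 (Pq.cons (Pq.L [2,3,4] 1023 (Pf.B 10 4 (Pf.C 1 0x409141c304) (Pf.B 10 3 (Pf.C 1 0x409141c303) (Pf.B 10 2 (Pf.C 0 0x41018a) (Pf.C 0 0x1208503)))))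
 (Pq.cons (Pq.L [1,2,3,4] 1023 (Pf.B 10 4 (Pf.C 1 0x409141c304) (Pf.B 10 3 (Pf.C 1 0x409141c303) (Pf.B 10 2 (Pf.C 0 0x41018a) (Pf.B 10 1 (Pf.C 0 0x20c10a) (Pf.C 0 0x1204502))))))
 (Pq.cons (Pq.L [0,1,2,3,4] 1023 (Pf.B 10 4 (Pf.C 1 0x409141c304) (Pf.B 10 3 (Pf.C 1 0x409141c303) (Pf.B 10 2 (Pf.C 0 0x41018a) (Pf.B 10 1 (Pf.C 0 0x20c10a) (Pf.B 10 0 (Pf.C 0 32906) (Pf.C 0 0x1200501)))))))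
 Pq.nil)))))))) (Pq.cons (Pq.D 3 (Pq.cons (Pq.D 4 (Pq.cons (Pq.L [1,2] 910 (Pf.C 1 0x5091008086))
 (Pq.cons (Pq.L [1,2] 910 (Pf.C 1 0x5091008086))
 (Pq.cons (Pq.L [1,2] 910 (Pf.C 1 0x5091008086))
 (Pq.cons (Pq.L [1,2] 910 (Pf.C 1 0x5091008086))
 (Pq.cons (Pq.L [1,3] 910 (Pf.C 1 0x509100c086))
 (Pq.cons (Pq.L [2,3] 910 (Pf.C 1 0x509100c106))
 (Pq.cons (Pq.L [1,2] 910 (Pf.C 1 0x5091008086))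
 Pq.nil)))))))) (Pq.cons (Pq.L [3,5] 1023 (Pf.B 10 3 (Pf.C 1 0x409141c303) (Pf.B 10 5 (Pf.C 1 0x283141c308) (Pf.C 0 0x1214503))))
 (Pq.cons (Pq.L [3,4,5] 1023 (Pf.B 10 5 (Pf.C 1 0x409141c305) (Pf.B 10 4 (Pf.B 10 3 (Pf.C 1 0x404061c30a) (Pf.C 0 0x81418a)) (Pf.C 0 0x102420a))))
 (Pq.cons (Pq.L [3,5] 1023 (Pf.B 10 5 (Pf.C 1 0x409141c305) (Pf.B 10 3 (Pf.C 1 0x185141c308) (Pf.C 0 0x120c505))))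
 (Pq.cons (Pq.L [2,3,4,5] 1023 (Pf.B 10 5 (Pf.C 1 0x409141c305) (Pf.B 10 3 (Pf.C 1 0x409141c303) (Pf.B 10 4 (Pf.C 0 0x81418a) (Pf.B 10 2 (Pf.C 0 0x41018a) (Pf.C 0 0x1208503))))))
 (Pq.cons (Pq.L [1,2,3,4,5] 1023 (Pf.B 10 5 (Pf.C 1 0x409141c305) (Pf.B 10 3 (Pf.C 1 0x409141c303) (Pf.B 10 4 (Pf.C 0 0x81418a) (Pf.B 10 2 (Pf.C 0 0x41018a) (Pf.B 10 1 (Pf.C 0 0x20c10a) (Pf.C 0 0x1204502)))))))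
 (Pq.cons (Pq.L [0,1,2,3,4,5] 1023 (Pf.B 10 5 (Pf.C 1 0x409141c305) (Pf.B 10 3 (Pf.C 1 0x409141c303) (Pf.B 10 4 (Pf.C 0 0x81418a) (Pf.B 10 2 (Pf.C 0 0x41018a) (Pf.B 10 1 (Pf.C 0 0x20c10a) (Pf.B 10 0 (Pf.C 0 32906) (Pf.C 0 0x1200501))))))))
 Pq.nil)))))))) (Pq.cons (Pq.D 3 (Pq.cons (Pq.D 4 (Pq.cons (Pq.L [1,2] 910 (Pf.C 1 0x5091008086))
 (Pq.cons (Pq.L [1,2] 910 (Pf.C 1 0x5091008086))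
 (Pq.cons (Pq.L [1,2] 910 (Pf.C 1 0x5091008086))
 (Pq.cons (Pq.L [1,2] 910 (Pf.C 1 0x5091008086))
 (Pq.cons (Pq.L [1,4] 910 (Pf.C 1 0x5091010086))
 (Pq.cons (Pq.L [2,4] 910 (Pf.C 1 0x5091010106))
 (Pq.cons (Pq.L [1,2] 910 (Pf.C 1 0x5091008086))
 Pq.nil)))))))) (Pq.cons (Pq.L [4,5] 1023 (Pf.B 10 4 (Pf.C 1 0x409141c304) (Pf.B 10 5 (Pf.C 1 0x284141c308) (Pf.C 0 0x1214504))))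
 (Pq.cons (Pq.L [4,5] 1023 (Pf.B 10 5 (Pf.C 1 0x409141c305) (Pf.B 10 4 (Pf.C 1 0x205141c308) (Pf.C 0 0x1210505))))
 (Pq.cons (Pq.L [3,4,5] 1023 (Pf.B 10 5 (Pf.C 1 0x409141c305) (Pf.B 10 4 (Pf.C 1 0x409141c304) (Pf.B 10 3 (Pf.C 0 0x61420a) (Pf.C 0 0x102418a)))))
 (Pq.cons (Pq.L [2,3,4,5] 1023 (Pf.B 10 5 (Pf.C 1 0x409141c305) (Pf.B 10 4 (Pf.C 1 0x409141c304) (Pf.B 10 3 (Pf.C 0 0x61420a) (Pf.B 10 2 (Pf.C 0 0x41018a) (Pf.C 0 0x1208503))))))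
 (Pq.cons (Pq.L [1,2,3,4,5] 1023 (Pf.B 10 5 (Pf.C 1 0x409141c305) (Pf.B 10 4 (Pf.C 1 0x409141c304) (Pf.B 10 3 (Pf.C 0 0x61420a) (Pf.B 10 2 (Pf.C 0 0x41018a) (Pf.B 10 1 (Pf.C 0 0x20c10a) (Pf.C 0 0x1204502)))))))
 (Pq.cons (Pq.L [0,1,2,3,4,5] 1023 (Pf.B 10 5 (Pf.C 1 0x409141c305) (Pf.B 10 4 (Pf.C 1 0x409141c304) (Pf.B 10 3 (Pf.C 0 0x61420a) (Pf.B 10 2 (Pf.C 0 0x41018a) (Pf.B 10 1 (Pf.C 0 0x20c10a) (Pf.B 10 0 (Pf.C 0 32906) (Pf.C 0 0x1200501))))))))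
 Pq.nil)))))))) (Pq.cons (Pq.D 3 (Pq.cons (Pq.D 4 (Pq.cons (Pq.L [1,3] 910 (Pf.C 1 0x509100c086))
 (Pq.cons (Pq.L [1,3] 910 (Pf.C 1 0x509100c086))
 (Pq.cons (Pq.L [1,3] 910 (Pf.C 1 0x509100c086))
 (Pq.cons (Pq.L [1,4] 910 (Pf.C 1 0x5091010086))
 (Pq.cons (Pq.L [1,3] 910 (Pf.C 1 0x509100c086))
 (Pq.cons (Pq.L [3,4] 910 (Pf.C 1 0x5091010186))
 (Pq.cons (Pq.L [1,3] 910 (Pf.C 1 0x509100c086))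
 Pq.nil)))))))) (Pq.cons (Pq.L [4,5] 1023 (Pf.B 10 4 (Pf.C 1 0x409141c304) (Pf.B 10 5 (Pf.C 1 0x284141c308) (Pf.C 0 0x1214504))))
 (Pq.cons (Pq.L [4,5] 1023 (Pf.B 10 5 (Pf.C 1 0x409141c305) (Pf.B 10 4 (Pf.C 1 0x205141c308) (Pf.C 0 0x1210505))))
 (Pq.cons (Pq.L [3,4,5] 1023 (Pf.B 10 5 (Pf.C 1 0x409141c305) (Pf.B 10 4 (Pf.C 1 0x409141c304) (Pf.B 10 3 (Pf.C 0 0x61420a) (Pf.C 0 0x120c504)))))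
 (Pq.cons (Pq.L [2,3,4,5] 1023 (Pf.B 10 5 (Pf.C 1 0x409141c305) (Pf.B 10 4 (Pf.C 1 0x409141c304) (Pf.B 10 3 (Pf.C 0 0x61420a) (Pf.B 10 2 (Pf.C 0 0x41018a) (Pf.C 0 0x102410a))))))
 (Pq.cons (Pq.L [1,2,3,4,5] 1023 (Pf.B 10 5 (Pf.C 1 0x409141c305) (Pf.B 10 4 (Pf.C 1 0x409141c304) (Pf.B 10 3 (Pf.C 0 0x61420a) (Pf.B 10 2 (Pf.C 0 0x41018a) (Pf.B 10 1 (Pf.C 0 0x20c10a) (Pf.C 0 0x1204502)))))))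
 (Pq.cons (Pq.L [0,1,2,3,4,5] 1023 (Pf.B 10 5 (Pf.C 1 0x409141c305) (Pf.B 10 4 (Pf.C 1 0x409141c304) (Pf.B 10 3 (Pf.C 0 0x61420a) (Pf.B 10 2 (Pf.C 0 0x41018a) (Pf.B 10 1 (Pf.C 0 0x20c10a) (Pf.B 10 0 (Pf.C 0 32906) (Pf.C 0 0x1200501))))))))
 Pq.nil)))))))) (Pq.cons (Pq.D 3 (Pq.cons (Pq.D 4 (Pq.cons (Pq.L [2,3] 910 (Pf.C 1 0x509100c106))
 (Pq.cons (Pq.L [2,3] 910 (Pf.C 1 0x509100c106))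
 (Pq.cons (Pq.L [2,3] 910 (Pf.C 1 0x509100c106))
 (Pq.cons (Pq.L [2,4] 910 (Pf.C 1 0x5091010106))
 (Pq.cons (Pq.L [3,4] 910 (Pf.C 1 0x5091010186))
 (Pq.cons (Pq.L [2,3] 910 (Pf.C 1 0x509100c106))
 (Pq.cons (Pq.L [2,3] 910 (Pf.C 1 0x509100c106))
 Pq.nil)))))))) (Pq.cons (Pq.L [4,5] 1023 (Pf.B 10 4 (Pf.C 1 0x409141c304) (Pf.B 10 5 (Pf.C 1 0x284141c308) (Pf.C 0 0x1214504))))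
 (Pq.cons (Pq.L [4,5] 1023 (Pf.B 10 5 (Pf.C 1 0x409141c305) (Pf.B 10 4 (Pf.C 1 0x205141c308) (Pf.C 0 0x1210505))))
 (Pq.cons (Pq.L [3,4,5] 1023 (Pf.B 10 5 (Pf.C 1 0x409141c305) (Pf.B 10 4 (Pf.C 1 0x409141c304) (Pf.B 10 3 (Pf.C 0 0x61420a) (Pf.C 0 0x120c504)))))
 (Pq.cons (Pq.L [2,3,4,5] 1023 (Pf.B 10 5 (Pf.C 1 0x409141c305) (Pf.B 10 4 (Pf.C 1 0x409141c304) (Pf.B 10 3 (Pf.C 0 0x61420a) (Pf.B 10 2 (Pf.C 0 0x41018a) (Pf.C 0 0x1208503))))))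
 (Pq.cons (Pq.L [1,2,3,4,5] 1023 (Pf.B 10 5 (Pf.C 1 0x409141c305) (Pf.B 10 4 (Pf.C 1 0x409141c304) (Pf.B 10 3 (Pf.C 0 0x61420a) (Pf.B 10 2 (Pf.C 0 0x41018a) (Pf.B 10 1 (Pf.C 0 0x20c10a) (Pf.C 0 0x102408a)))))))
 (Pq.cons (Pq.L [0,1,2,3,4,5] 1023 (Pf.B 10 5 (Pf.C 1 0x409141c305) (Pf.B 10 4 (Pf.C 1 0x409141c304) (Pf.B 10 3 (Pf.C 0 0x61420a) (Pf.B 10 2 (Pf.C 0 0x41018a) (Pf.B 10 1 (Pf.C 0 0x20c10a) (Pf.B 10 0 (Pf.C 0 32906) (Pf.C 0 0x1200501))))))))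
 Pq.nil)))))))) (Pq.cons (Pq.D 3 (Pq.cons (Pq.D 4 (Pq.cons (Pq.L [1,2] 910 (Pf.C 1 0x5091008086))
 (Pq.cons (Pq.L [1,2] 910 (Pf.C 1 0x5091008086))
 (Pq.cons (Pq.L [1,2] 910 (Pf.C 1 0x5091008086))
 (Pq.cons (Pq.L [1,2] 910 (Pf.C 1 0x5091008086))
 (Pq.cons (Pq.L [1,3] 910 (Pf.C 1 0x509100c086))
 (Pq.cons (Pq.L [2,3] 910 (Pf.C 1 0x509100c106))
 (Pq.cons (Pq.L [1,2] 910 (Pf.C 1 0x5091008086))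
 Pq.nil)))))))) (Pq.cons (Pq.L [4,5] 1023 (Pf.B 10 4 (Pf.C 1 0x409141c304) (Pf.B 10 5 (Pf.C 1 0x284141c308) (Pf.C 0 0x1214504))))
 (Pq.cons (Pq.L [4,5] 1023 (Pf.B 10 5 (Pf.C 1 0x409141c305) (Pf.B 10 4 (Pf.C 1 0x205141c308) (Pf.C 0 0x1210505))))
 (Pq.cons (Pq.L [3,4,5] 1023 (Pf.B 10 5 (Pf.C 1 0x409141c305) (Pf.B 10 4 (Pf.C 1 0x409141c304) (Pf.B 10 3 (Pf.C 0 0x61420a) (Pf.C 0 0x120c504)))))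
 (Pq.cons (Pq.L [2,3,4,5] 1023 (Pf.B 10 5 (Pf.C 1 0x409141c305) (Pf.B 10 4 (Pf.C 1 0x409141c304) (Pf.B 10 3 (Pf.C 0 0x61420a) (Pf.B 10 2 (Pf.C 0 0x41018a) (Pf.C 0 0x1208503))))))
 (Pq.cons (Pq.L [1,2,3,4,5] 1023 (Pf.B 10 5 (Pf.C 1 0x409141c305) (Pf.B 10 4 (Pf.C 1 0x409141c304) (Pf.B 10 3 (Pf.C 0 0x61420a) (Pf.B 10 2 (Pf.C 0 0x41018a) (Pf.B 10 1 (Pf.C 0 0x20c10a) (Pf.C 0 0x1204502)))))))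
 (Pq.cons (Pq.L [0,1,2,3,4,5] 1023 (Pf.B 10 5 (Pf.C 1 0x409141c305) (Pf.B 10 4 (Pf.C 1 0x409141c304) (Pf.B 10 3 (Pf.C 0 0x61420a) (Pf.B 10 2 (Pf.C 0 0x41018a) (Pf.B 10 1 (Pf.C 0 0x20c10a) (Pf.B 10 0 (Pf.C 0 32906) (Pf.C 0 0x102400a))))))))
 Pq.nil)))))))) Pq.nil)))))))) (Pq.cons (Pq.D 2 (Pq.cons (Pq.D 3 (Pq.cons (Pq.D 4 (Pq.cons (Pq.L [1,2] 910 (Pf.C 1 0x5091008086))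
 (Pq.cons (Pq.L [1,2] 910 (Pf.C 1 0x5091008086))
 (Pq.cons (Pq.L [1,2] 910 (Pf.C 1 0x5091008086))
 (Pq.cons (Pq.L [1,2] 910 (Pf.C 1 0x5091008086))
 (Pq.cons (Pq.L [1,3] 910 (Pf.C 1 0x509100c086))
 (Pq.cons (Pq.L [2,3] 910 (Pf.C 1 0x509100c106))
 (Pq.cons (Pq.L [1,2] 910 (Pf.C 1 0x5091008086))
 Pq.nil)))))))) (Pq.cons (Pq.L [3,4,5] 1023 (Pf.B 10 4 (Pf.C 1 0x409141c304) (Pf.B 10 5 (Pf.B 10 3 (Pf.C 1 0x409141c303) (Pf.C 0 0xa1018a)) (Pf.C 0 0x1214504))))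
 (Pq.cons (Pq.L [3,4] 1023 (Pf.B 10 3 (Pf.C 1 0x409141c303) (Pf.B 10 4 (Pf.C 1 0x203141c308) (Pf.C 0 0x1210503))))
 (Pq.cons (Pq.L [3,4] 1023 (Pf.B 10 4 (Pf.C 1 0x409141c304) (Pf.B 10 3 (Pf.C 1 0x184141c308) (Pf.C 0 0x120c504))))
 (Pq.cons (Pq.L [2,3,4] 1023 (Pf.B 10 4 (Pf.C 1 0x409141c304) (Pf.B 10 3 (Pf.C 1 0x409141c303) (Pf.B 10 2 (Pf.C 0 0x41018a) (Pf.C 0 0x1208503)))))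
 (Pq.cons (Pq.L [1,2,3,4] 1023 (Pf.B 10 4 (Pf.C 1 0x409141c304) (Pf.B 10 3 (Pf.C 1 0x409141c303) (Pf.B 10 2 (Pf.C 0 0x41018a) (Pf.B 10 1 (Pf.C 0 0x20c10a) (Pf.C 0 0x1204502))))))
 (Pq.cons (Pq.L [0,1,2,3,4] 1023 (Pf.B 10 4 (Pf.C 1 0x409141c304) (Pf.B 10 3 (Pf.C 1 0x409141c303) (Pf.B 10 2 (Pf.C 0 0x41018a) (Pf.B 10 1 (Pf.C 0 0x20c10a) (Pf.B 10 0 (Pf.C 0 32906) (Pf.C 0 0x1200501)))))))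
 Pq.nil)))))))) (Pq.cons (Pq.D 3 (Pq.cons (Pq.D 4 (Pq.cons (Pq.L [1,2] 910 (Pf.C 1 0x5091008086))
 (Pq.cons (Pq.L [1,2] 910 (Pf.C 1 0x5091008086))
 (Pq.cons (Pq.L [1,2] 910 (Pf.C 1 0x5091008086))
 (Pq.cons (Pq.L [1,2] 910 (Pf.C 1 0x5091008086))
 (Pq.cons (Pq.L [1,3] 910 (Pf.C 1 0x509100c086))
 (Pq.cons (Pq.L [2,3] 910 (Pf.C 1 0x509100c106))
 (Pq.cons (Pq.L [1,2] 910 (Pf.C 1 0x5091008086))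
 Pq.nil)))))))) (Pq.cons (Pq.L [3,4,5] 1023 (Pf.B 10 5 (Pf.B 10 4 (Pf.C 1 0x409141c304) (Pf.B 10 3 (Pf.C 1 0x409141c303) (Pf.C 0 0xa1018a))) (Pf.C 0 0x102428a)))
 (Pq.cons (Pq.L [3,4] 1023 (Pf.B 10 3 (Pf.C 1 0x409141c303) (Pf.B 10 4 (Pf.C 1 0x203141c308) (Pf.C 0 0x1210503))))
 (Pq.cons (Pq.L [3,4] 1023 (Pf.B 10 4 (Pf.C 1 0x409141c304) (Pf.B 10 3 (Pf.C 1 0x184141c308) (Pf.C 0 0x120c504))))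
 (Pq.cons (Pq.L [2,3,4] 1023 (Pf.B 10 4 (Pf.C 1 0x409141c304) (Pf.B 10 3 (Pf.C 1 0x409141c303) (Pf.B 10 2 (Pf.C 0 0x41018a) (Pf.C 0 0x1208503)))))
 (Pq.cons (Pq.L [1,2,3,4] 1023 (Pf.B 10 4 (Pf.C 1 0x409141c304) (Pf.B 10 3 (Pf.C 1 0x409141c303) (Pf.B 10 2 (Pf.C 0 0x41018a) (Pf.B 10 1 (Pf.C 0 0x20c10a) (Pf.C 0 0x1204502))))))
 (Pq.cons (Pq.L [0,1,2,3,4] 1023 (Pf.B 10 4 (Pf.C 1 0x409141c304) (Pf.B 10 3 (Pf.C 1 0x409141c303) (Pf.B 10 2 (Pf.C 0 0x41018a) (Pf.B 10 1 (Pf.C 0 0x20c10a) (Pf.B 10 0 (Pf.C 0 32906) (Pf.C 0 0x1200501)))))))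
 Pq.nil)))))))) (Pq.cons (Pq.D 3 (Pq.cons (Pq.D 4 (Pq.cons (Pq.L [1,2] 910 (Pf.C 1 0x5091008086))
 (Pq.cons (Pq.L [1,2] 910 (Pf.C 1 0x5091008086))
 (Pq.cons (Pq.L [1,2] 910 (Pf.C 1 0x5091008086))
 (Pq.cons (Pq.L [1,2] 910 (Pf.C 1 0x5091008086))
 (Pq.cons (Pq.L [1,3] 910 (Pf.C 1 0x509100c086))
 (Pq.cons (Pq.L [2,3] 910 (Pf.C 1 0x509100c106))
 (Pq.cons (Pq.L [1,2] 910 (Pf.C 1 0x5091008086))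
 Pq.nil)))))))) (Pq.cons (Pq.L [2,3,4,5] 1023 (Pf.B 10 3 (Pf.C 1 0x409141c303) (Pf.B 10 5 (Pf.B 10 4 (Pf.B 10 2 (Pf.C 1 0x404041c30a) (Pf.C 0 0x80c10a)) (Pf.C 0 0xa0c20a)) (Pf.C 0 0x1214503))))
 (Pq.cons (Pq.L [2,3,4] 987 (Pf.B 10 4 (Pf.B 10 3 (Pf.C 1 0x404061c30a) (Pf.B 10 2 (Pf.C 1 0x404041c30a) (Pf.C 0 0x80c10a))) (Pf.C 0 0x102420a)))
 (Pq.cons (Pq.L [2,3] 1023 (Pf.B 10 2 (Pf.C 1 0x409141c302) (Pf.B 10 3 (Pf.C 1 0x182141c308) (Pf.C 0 0x120c502))))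
 (Pq.cons (Pq.L [2,3] 1023 (Pf.B 10 3 (Pf.C 1 0x409141c303) (Pf.B 10 2 (Pf.C 1 0x103141c308) (Pf.C 0 0x1208503))))
 (Pq.cons (Pq.L [1,2,3] 1023 (Pf.B 10 3 (Pf.C 1 0x409141c303) (Pf.B 10 2 (Pf.C 1 0x409141c302) (Pf.B 10 1 (Pf.C 0 0x20c10a) (Pf.C 0 0x1204502)))))
 (Pq.cons (Pq.L [0,1,2,3] 1023 (Pf.B 10 3 (Pf.C 1 0x409141c303) (Pf.B 10 2 (Pf.C 1 0x409141c302) (Pf.B 10 1 (Pf.C 0 0x20c10a) (Pf.B 10 0 (Pf.C 0 32906) (Pf.C 0 0x1200501))))))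
 Pq.nil)))))))) (Pq.cons (Pq.D 3 (Pq.cons (Pq.D 4 (Pq.cons (Pq.L [1,2] 910 (Pf.C 1 0x5091008086))
 (Pq.cons (Pq.L [1,2] 910 (Pf.C 1 0x5091008086))
 (Pq.cons (Pq.L [1,2] 910 (Pf.C 1 0x5091008086))
 (Pq.cons (Pq.L [1,2] 910 (Pf.C 1 0x5091008086))
 (Pq.cons (Pq.L [1,4] 910 (Pf.C 1 0x5091010086))
 (Pq.cons (Pq.L [2,4] 910 (Pf.C 1 0x5091010106))
 (Pq.cons (Pq.L [1,2] 910 (Pf.C 1 0x5091008086))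
 Pq.nil)))))))) (Pq.cons (Pq.L [2,3,4,5] 1023 (Pf.B 10 4 (Pf.C 1 0x409141c304) (Pf.B 10 5 (Pf.B 10 3 (Pf.B 10 2 (Pf.C 1 0x403041c30a) (Pf.C 0 0x61010a)) (Pf.C 0 0xa1018a)) (Pf.C 0 0x1214504))))
 (Pq.cons (Pq.L [2,4] 1023 (Pf.B 10 2 (Pf.C 1 0x409141c302) (Pf.B 10 4 (Pf.C 1 0x202141c308) (Pf.C 0 0x1210502))))
 (Pq.cons (Pq.L [2,3,4] 1023 (Pf.B 10 4 (Pf.C 1 0x409141c304) (Pf.B 10 3 (Pf.B 10 2 (Pf.C 1 0x403041c30a) (Pf.C 0 0x61010a)) (Pf.C 0 0x102418a))))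
 (Pq.cons (Pq.L [2,4] 1023 (Pf.B 10 4 (Pf.C 1 0x409141c304) (Pf.B 10 2 (Pf.C 1 0x104141c308) (Pf.C 0 0x1208504))))
 (Pq.cons (Pq.L [1,2,3,4] 1023 (Pf.B 10 4 (Pf.C 1 0x409141c304) (Pf.B 10 2 (Pf.C 1 0x409141c302) (Pf.B 10 3 (Pf.C 0 0x61010a) (Pf.B 10 1 (Pf.C 0 0x20c10a) (Pf.C 0 0x1204502))))))
 (Pq.cons (Pq.L [0,1,2,3,4] 1023 (Pf.B 10 4 (Pf.C 1 0x409141c304) (Pf.B 10 2 (Pf.C 1 0x409141c302) (Pf.B 10 3 (Pf.C 0 0x61010a) (Pf.B 10 1 (Pf.C 0 0x20c10a) (Pf.B 10 0 (Pf.C 0 32906) (Pf.C 0 0x1200501)))))))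
 Pq.nil)))))))) (Pq.cons (Pq.D 3 (Pq.cons (Pq.D 4 (Pq.cons (Pq.L [1,3] 910 (Pf.C 1 0x509100c086))
 (Pq.cons (Pq.L [1,3] 910 (Pf.C 1 0x509100c086))
 (Pq.cons (Pq.L [1,3] 910 (Pf.C 1 0x509100c086))
 (Pq.cons (Pq.L [1,4] 910 (Pf.C 1 0x5091010086))
 (Pq.cons (Pq.L [1,3] 910 (Pf.C 1 0x509100c086))
 (Pq.cons (Pq.L [3,4] 910 (Pf.C 1 0x5091010186))
 (Pq.cons (Pq.L [1,3] 910 (Pf.C 1 0x509100c086))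
 Pq.nil)))))))) (Pq.cons (Pq.L [3,4,5] 1023 (Pf.B 10 4 (Pf.C 1 0x409141c304) (Pf.B 10 5 (Pf.B 10 3 (Pf.C 1 0x409141c303) (Pf.C 0 0xa1018a)) (Pf.C 0 0x1214504))))
 (Pq.cons (Pq.L [3,4] 1023 (Pf.B 10 3 (Pf.C 1 0x409141c303) (Pf.B 10 4 (Pf.C 1 0x203141c308) (Pf.C 0 0x1210503))))
 (Pq.cons (Pq.L [3,4] 1023 (Pf.B 10 4 (Pf.C 1 0x409141c304) (Pf.B 10 3 (Pf.C 1 0x184141c308) (Pf.C 0 0x120c504))))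
 (Pq.cons (Pq.L [2,3,4] 1023 (Pf.B 10 4 (Pf.C 1 0x409141c304) (Pf.B 10 3 (Pf.C 1 0x409141c303) (Pf.B 10 2 (Pf.C 0 0x41018a) (Pf.C 0 0x102410a)))))
 (Pq.cons (Pq.L [1,2,3,4] 1023 (Pf.B 10 4 (Pf.C 1 0x409141c304) (Pf.B 10 3 (Pf.C 1 0x409141c303) (Pf.B 10 2 (Pf.C 0 0x41018a) (Pf.B 10 1 (Pf.C 0 0x20c10a) (Pf.C 0 0x1204502))))))
 (Pq.cons (Pq.L [0,1,2,3,4] 1023 (Pf.B 10 4 (Pf.C 1 0x409141c304) (Pf.B 10 3 (Pf.C 1 0x409141c303) (Pf.B 10 2 (Pf.C 0 0x41018a) (Pf.B 10 1 (Pf.C 0 0x20c10a) (Pf.B 10 0 (Pf.C 0 32906) (Pf.C 0 0x1200501)))))))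
 Pq.nil)))))))) (Pq.cons (Pq.D 3 (Pq.cons (Pq.D 4 (Pq.cons (Pq.L [2,3] 910 (Pf.C 1 0x509100c106))
 (Pq.cons (Pq.L [2,3] 910 (Pf.C 1 0x509100c106))
 (Pq.cons (Pq.L [2,3] 910 (Pf.C 1 0x509100c106))
 (Pq.cons (Pq.L [2,4] 910 (Pf.C 1 0x5091010106))
 (Pq.cons (Pq.L [3,4] 910 (Pf.C 1 0x5091010186))
 (Pq.cons (Pq.L [2,3] 910 (Pf.C 1 0x509100c106))
 (Pq.cons (Pq.L [2,3] 910 (Pf.C 1 0x509100c106))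
 Pq.nil)))))))) (Pq.cons (Pq.L [3,4,5] 1023 (Pf.B 10 4 (Pf.C 1 0x409141c304) (Pf.B 10 5 (Pf.B 10 3 (Pf.C 1 0x409141c303) (Pf.C 0 0xa1018a)) (Pf.C 0 0x1214504))))
 (Pq.cons (Pq.L [3,4] 1023 (Pf.B 10 3 (Pf.C 1 0x409141c303) (Pf.B 10 4 (Pf.C 1 0x203141c308) (Pf.C 0 0x1210503))))
 (Pq.cons (Pq.L [3,4] 1023 (Pf.B 10 4 (Pf.C 1 0x409141c304) (Pf.B 10 3 (Pf.C 1 0x184141c308) (Pf.C 0 0x120c504))))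
 (Pq.cons (Pq.L [2,3,4] 1023 (Pf.B 10 4 (Pf.C 1 0x409141c304) (Pf.B 10 3 (Pf.C 1 0x409141c303) (Pf.B 10 2 (Pf.C 0 0x41018a) (Pf.C 0 0x1208503)))))
 (Pq.cons (Pq.L [1,2,3,4] 1023 (Pf.B 10 4 (Pf.C 1 0x409141c304) (Pf.B 10 3 (Pf.C 1 0x409141c303) (Pf.B 10 2 (Pf.C 0 0x41018a) (Pf.B 10 1 (Pf.C 0 0x20c10a) (Pf.C 0 0x102408a))))))
 (Pq.cons (Pq.L [0,1,2,3,4] 1023 (Pf.B 10 4 (Pf.C 1 0x409141c304) (Pf.B 10 3 (Pf.C 1 0x409141c303) (Pf.B 10 2 (Pf.C 0 0x41018a) (Pf.B 10 1 (Pf.C 0 0x20c10a) (Pf.B 10 0 (Pf.C 0 32906) (Pf.C 0 0x1200501)))))))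
 Pq.nil)))))))) (Pq.cons (Pq.D 3 (Pq.cons (Pq.D 4 (Pq.cons (Pq.L [1,2] 910 (Pf.C 1 0x5091008086))
 (Pq.cons (Pq.L [1,2] 910 (Pf.C 1 0x5091008086))
 (Pq.cons (Pq.L [1,2] 910 (Pf.C 1 0x5091008086))
 (Pq.cons (Pq.L [1,2] 910 (Pf.C 1 0x5091008086))
 (Pq.cons (Pq.L [1,3] 910 (Pf.C 1 0x509100c086))
 (Pq.cons (Pq.L [2,3] 910 (Pf.C 1 0x509100c106))
 (Pq.cons (Pq.L [1,2] 910 (Pf.C 1 0x5091008086))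
 Pq.nil)))))))) (Pq.cons (Pq.L [3,4,5] 1023 (Pf.B 10 4 (Pf.C 1 0x409141c304) (Pf.B 10 5 (Pf.B 10 3 (Pf.C 1 0x409141c303) (Pf.C 0 0xa1018a)) (Pf.C 0 0x1214504))))
 (Pq.cons (Pq.L [3,4] 1023 (Pf.B 10 3 (Pf.C 1 0x409141c303) (Pf.B 10 4 (Pf.C 1 0x203141c308) (Pf.C 0 0x1210503))))
 (Pq.cons (Pq.L [3,4] 1023 (Pf.B 10 4 (Pf.C 1 0x409141c304) (Pf.B 10 3 (Pf.C 1 0x184141c308) (Pf.C 0 0x120c504))))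
 (Pq.cons (Pq.L [2,3,4] 1023 (Pf.B 10 4 (Pf.C 1 0x409141c304) (Pf.B 10 3 (Pf.C 1 0x409141c303) (Pf.B 10 2 (Pf.C 0 0x41018a) (Pf.C 0 0x1208503)))))
 (Pq.cons (Pq.L [1,2,3,4] 1023 (Pf.B 10 4 (Pf.C 1 0x409141c304) (Pf.B 10 3 (Pf.C 1 0x409141c303) (Pf.B 10 2 (Pf.C 0 0x41018a) (Pf.B 10 1 (Pf.C 0 0x20c10a) (Pf.C 0 0x1204502))))))
 (Pq.cons (Pq.L [0,1,2,3,4] 1023 (Pf.B 10 4 (Pf.C 1 0x409141c304) (Pf.B 10 3 (Pf.C 1 0x409141c303) (Pf.B 10 2 (Pf.C 0 0x41018a) (Pf.B 10 1 (Pf.C 0 0x20c10a) (Pf.B 10 0 (Pf.C 0 32906) (Pf.C 0 0x102400a)))))))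
 Pq.nil)))))))) Pq.nil)))))))) (Pq.cons (Pq.D 2 (Pq.cons (Pq.D 3 (Pq.cons (Pq.D 4 (Pq.cons (Pq.L [1,2] 910 (Pf.C 1 0x5091008086))
 (Pq.cons (Pq.L [1,2] 910 (Pf.C 1 0x5091008086))
 (Pq.cons (Pq.L [1,2] 910 (Pf.C 1 0x5091008086))
 (Pq.cons (Pq.L [1,2] 910 (Pf.C 1 0x5091008086))
 (Pq.cons (Pq.L [1,3] 910 (Pf.C 1 0x509100c086))
 (Pq.cons (Pq.L [2,3] 910 (Pf.C 1 0x509100c106))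
 (Pq.cons (Pq.L [1,2] 910 (Pf.C 1 0x5091008086))
 Pq.nil)))))))) (Pq.cons (Pq.L [3,5] 1023 (Pf.B 10 3 (Pf.C 1 0x409141c303) (Pf.B 10 5 (Pf.C 1 0x283141c308) (Pf.C 0 0x1214503))))
 (Pq.cons (Pq.L [3,4,5] 1023 (Pf.B 10 5 (Pf.C 1 0x409141c305) (Pf.B 10 4 (Pf.B 10 3 (Pf.C 1 0x409141c303) (Pf.C 0 0x81418a)) (Pf.C 0 0x1210505))))
 (Pq.cons (Pq.L [3,5] 1023 (Pf.B 10 5 (Pf.C 1 0x409141c305) (Pf.B 10 3 (Pf.C 1 0x185141c308) (Pf.C 0 0x120c505))))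
 (Pq.cons (Pq.L [2,3,4,5] 1023 (Pf.B 10 5 (Pf.C 1 0x409141c305) (Pf.B 10 3 (Pf.C 1 0x409141c303) (Pf.B 10 4 (Pf.C 0 0x81418a) (Pf.B 10 2 (Pf.C 0 0x41018a) (Pf.C 0 0x1208503))))))
 (Pq.cons (Pq.L [1,2,3,4,5] 1023 (Pf.B 10 5 (Pf.C 1 0x409141c305) (Pf.B 10 3 (Pf.C 1 0x409141c303) (Pf.B 10 4 (Pf.C 0 0x81418a) (Pf.B 10 2 (Pf.C 0 0x41018a) (Pf.B 10 1 (Pf.C 0 0x20c10a) (Pf.C 0 0x1204502)))))))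
 (Pq.cons (Pq.L [0,1,2,3,4,5] 1023 (Pf.B 10 5 (Pf.C 1 0x409141c305) (Pf.B 10 3 (Pf.C 1 0x409141c303) (Pf.B 10 4 (Pf.C 0 0x81418a) (Pf.B 10 2 (Pf.C 0 0x41018a) (Pf.B 10 1 (Pf.C 0 0x20c10a) (Pf.B 10 0 (Pf.C 0 32906) (Pf.C 0 0x1200501))))))))
 Pq.nil)))))))) (Pq.cons (Pq.D 3 (Pq.cons (Pq.D 4 (Pq.cons (Pq.L [1,2] 910 (Pf.C 1 0x5091008086))
 (Pq.cons (Pq.L [1,2] 910 (Pf.C 1 0x5091008086))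
 (Pq.cons (Pq.L [1,2] 910 (Pf.C 1 0x5091008086))
 (Pq.cons (Pq.L [1,2] 910 (Pf.C 1 0x5091008086))
 (Pq.cons (Pq.L [1,3] 910 (Pf.C 1 0x509100c086))
 (Pq.cons (Pq.L [2,3] 910 (Pf.C 1 0x509100c106))
 (Pq.cons (Pq.L [1,2] 910 (Pf.C 1 0x5091008086))
 Pq.nil)))))))) (Pq.cons (Pq.L [2,3,4,5] 987 (Pf.B 10 5 (Pf.B 10 3 (Pf.C 1 0x405061c30a) (Pf.B 10 4 (Pf.B 10 2 (Pf.C 1 0x405041c30a) (Pf.C 0 0x80c10a)) (Pf.C 0 0xa0c20a))) (Pf.C 0 0x102428a)))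
 (Pq.cons (Pq.L [2,3,4,5] 1023 (Pf.B 10 3 (Pf.C 1 0x409141c303) (Pf.B 10 4 (Pf.B 10 5 (Pf.B 10 2 (Pf.C 1 0x405041c30a) (Pf.C 0 0x80c10a)) (Pf.C 0 0x80c28a)) (Pf.C 0 0x1210503))))
 (Pq.cons (Pq.L [2,3] 1023 (Pf.B 10 2 (Pf.C 1 0x409141c302) (Pf.B 10 3 (Pf.C 1 0x182141c308) (Pf.C 0 0x120c502))))
 (Pq.cons (Pq.L [2,3] 1023 (Pf.B 10 3 (Pf.C 1 0x409141c303) (Pf.B 10 2 (Pf.C 1 0x103141c308) (Pf.C 0 0x1208503))))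
 (Pq.cons (Pq.L [1,2,3] 1023 (Pf.B 10 3 (Pf.C 1 0x409141c303) (Pf.B 10 2 (Pf.C 1 0x409141c302) (Pf.B 10 1 (Pf.C 0 0x20c10a) (Pf.C 0 0x1204502)))))
 (Pq.cons (Pq.L [0,1,2,3] 1023 (Pf.B 10 3 (Pf.C 1 0x409141c303) (Pf.B 10 2 (Pf.C 1 0x409141c302) (Pf.B 10 1 (Pf.C 0 0x20c10a) (Pf.B 10 0 (Pf.C 0 32906) (Pf.C 0 0x1200501))))))
 Pq.nil)))))))) (Pq.cons (Pq.D 3 (Pq.cons (Pq.D 4 (Pq.cons (Pq.L [1,2] 910 (Pf.C 1 0x5091008086))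
 (Pq.cons (Pq.L [1,2] 910 (Pf.C 1 0x5091008086))
 (Pq.cons (Pq.L [1,2] 910 (Pf.C 1 0x5091008086))
 (Pq.cons (Pq.L [1,2] 910 (Pf.C 1 0x5091008086))
 (Pq.cons (Pq.L [1,3] 910 (Pf.C 1 0x509100c086))
 (Pq.cons (Pq.L [2,3] 910 (Pf.C 1 0x509100c106))
 (Pq.cons (Pq.L [1,2] 910 (Pf.C 1 0x5091008086))
 Pq.nil)))))))) (Pq.cons (Pq.L [3,5] 1023 (Pf.B 10 3 (Pf.C 1 0x409141c303) (Pf.B 10 5 (Pf.C 1 0x283141c308) (Pf.C 0 0x1214503))))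
 (Pq.cons (Pq.L [3,4,5] 1023 (Pf.B 10 5 (Pf.C 1 0x409141c305) (Pf.B 10 4 (Pf.B 10 3 (Pf.C 1 0x409141c303) (Pf.C 0 0x81418a)) (Pf.C 0 0x102420a))))
 (Pq.cons (Pq.L [3,5] 1023 (Pf.B 10 5 (Pf.C 1 0x409141c305) (Pf.B 10 3 (Pf.C 1 0x185141c308) (Pf.C 0 0x120c505))))
 (Pq.cons (Pq.L [2,3,4,5] 1023 (Pf.B 10 5 (Pf.C 1 0x409141c305) (Pf.B 10 3 (Pf.C 1 0x409141c303) (Pf.B 10 4 (Pf.C 0 0x81418a) (Pf.B 10 2 (Pf.C 0 0x41018a) (Pf.C 0 0x1208503))))))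
 (Pq.cons (Pq.L [1,2,3,4,5] 1023 (Pf.B 10 5 (Pf.C 1 0x409141c305) (Pf.B 10 3 (Pf.C 1 0x409141c303) (Pf.B 10 4 (Pf.C 0 0x81418a) (Pf.B 10 2 (Pf.C 0 0x41018a) (Pf.B 10 1 (Pf.C 0 0x20c10a) (Pf.C 0 0x1204502)))))))
 (Pq.cons (Pq.L [0,1,2,3,4,5] 1023 (Pf.B 10 5 (Pf.C 1 0x409141c305) (Pf.B 10 3 (Pf.C 1 0x409141c303) (Pf.B 10 4 (Pf.C 0 0x81418a) (Pf.B 10 2 (Pf.C 0 0x41018a) (Pf.B 10 1 (Pf.C 0 0x20c10a) (Pf.B 10 0 (Pf.C 0 32906) (Pf.C 0 0x1200501))))))))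
 Pq.nil)))))))) (Pq.cons (Pq.D 3 (Pq.cons (Pq.D 4 (Pq.cons (Pq.L [1,2] 910 (Pf.C 1 0x5091008086))
 (Pq.cons (Pq.L [1,2] 910 (Pf.C 1 0x5091008086))
 (Pq.cons (Pq.L [1,2] 910 (Pf.C 1 0x5091008086))
 (Pq.cons (Pq.L [1,2] 910 (Pf.C 1 0x5091008086))
 (Pq.cons (Pq.L [1,4] 910 (Pf.C 1 0x5091010086))
 (Pq.cons (Pq.L [2,4] 910 (Pf.C 1 0x5091010106))
 (Pq.cons (Pq.L [1,2] 910 (Pf.C 1 0x5091008086))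
 Pq.nil)))))))) (Pq.cons (Pq.L [2,5] 1023 (Pf.B 10 2 (Pf.C 1 0x409141c302) (Pf.B 10 5 (Pf.C 1 0x282141c308) (Pf.C 0 0x1214502))))
 (Pq.cons (Pq.L [2,3,4,5] 1023 (Pf.B 10 5 (Pf.C 1 0x409141c305) (Pf.B 10 4 (Pf.B 10 3 (Pf.B 10 2 (Pf.C 1 0x403041c30a) (Pf.C 0 0x61410a)) (Pf.C 0 0x81418a)) (Pf.C 0 0x1210505))))
 (Pq.cons (Pq.L [2,3,5] 1023 (Pf.B 10 5 (Pf.C 1 0x409141c305) (Pf.B 10 3 (Pf.B 10 2 (Pf.C 1 0x403041c30a) (Pf.C 0 0x61410a)) (Pf.C 0 0x102418a))))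
 (Pq.cons (Pq.L [2,5] 1023 (Pf.B 10 5 (Pf.C 1 0x409141c305) (Pf.B 10 2 (Pf.C 1 0x105141c308) (Pf.C 0 0x1208505))))
 (Pq.cons (Pq.L [1,2,3,4,5] 1023 (Pf.B 10 5 (Pf.C 1 0x409141c305) (Pf.B 10 2 (Pf.C 1 0x409141c302) (Pf.B 10 4 (Pf.C 0 0x81410a) (Pf.B 10 3 (Pf.C 0 0x61010a) (Pf.B 10 1 (Pf.C 0 0x20c10a) (Pf.C 0 0x1204502)))))))
 (Pq.cons (Pq.L [0,1,2,3,4,5] 1023 (Pf.B 10 5 (Pf.C 1 0x409141c305) (Pf.B 10 2 (Pf.C 1 0x409141c302) (Pf.B 10 4 (Pf.C 0 0x81410a) (Pf.B 10 3 (Pf.C 0 0x61010a) (Pf.B 10 1 (Pf.C 0 0x20c10a) (Pf.B 10 0 (Pf.C 0 32906) (Pf.C 0 0x1200501))))))))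
 Pq.nil)))))))) (Pq.cons (Pq.D 3 (Pq.cons (Pq.D 4 (Pq.cons (Pq.L [1,3] 910 (Pf.C 1 0x509100c086))
 (Pq.cons (Pq.L [1,3] 910 (Pf.C 1 0x509100c086))
 (Pq.cons (Pq.L [1,3] 910 (Pf.C 1 0x509100c086))
 (Pq.cons (Pq.L [1,4] 910 (Pf.C 1 0x5091010086))
 (Pq.cons (Pq.L [1,3] 910 (Pf.C 1 0x509100c086))
 (Pq.cons (Pq.L [3,4] 910 (Pf.C 1 0x5091010186))
 (Pq.cons (Pq.L [1,3] 910 (Pf.C 1 0x509100c086))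
 Pq.nil)))))))) (Pq.cons (Pq.L [3,5] 1023 (Pf.B 10 3 (Pf.C 1 0x409141c303) (Pf.B 10 5 (Pf.C 1 0x283141c308) (Pf.C 0 0x1214503))))
 (Pq.cons (Pq.L [3,4,5] 1023 (Pf.B 10 5 (Pf.C 1 0x409141c305) (Pf.B 10 4 (Pf.B 10 3 (Pf.C 1 0x409141c303) (Pf.C 0 0x81418a)) (Pf.C 0 0x1210505))))
 (Pq.cons (Pq.L [3,5] 1023 (Pf.B 10 5 (Pf.C 1 0x409141c305) (Pf.B 10 3 (Pf.C 1 0x185141c308) (Pf.C 0 0x120c505))))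
 (Pq.cons (Pq.L [2,3,4,5] 1023 (Pf.B 10 5 (Pf.C 1 0x409141c305) (Pf.B 10 3 (Pf.C 1 0x409141c303) (Pf.B 10 4 (Pf.C 0 0x81418a) (Pf.B 10 2 (Pf.C 0 0x41018a) (Pf.C 0 0x102410a))))))
 (Pq.cons (Pq.L [1,2,3,4,5] 1023 (Pf.B 10 5 (Pf.C 1 0x409141c305) (Pf.B 10 3 (Pf.C 1 0x409141c303) (Pf.B 10 4 (Pf.C 0 0x81418a) (Pf.B 10 2 (Pf.C 0 0x41018a) (Pf.B 10 1 (Pf.C 0 0x20c10a) (Pf.C 0 0x1204502)))))))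
 (Pq.cons (Pq.L [0,1,2,3,4,5] 1023 (Pf.B 10 5 (Pf.C 1 0x409141c305) (Pf.B 10 3 (Pf.C 1 0x409141c303) (Pf.B 10 4 (Pf.C 0 0x81418a) (Pf.B 10 2 (Pf.C 0 0x41018a) (Pf.B 10 1 (Pf.C 0 0x20c10a) (Pf.B 10 0 (Pf.C 0 32906) (Pf.C 0 0x1200501))))))))
 Pq.nil)))))))) (Pq.cons (Pq.D 3 (Pq.cons (Pq.D 4 (Pq.cons (Pq.L [2,3] 910 (Pf.C 1 0x509100c106))
 (Pq.cons (Pq.L [2,3] 910 (Pf.C 1 0x509100c106))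
 (Pq.cons (Pq.L [2,3] 910 (Pf.C 1 0x509100c106))
 (Pq.cons (Pq.L [2,4] 910 (Pf.C 1 0x5091010106))
 (Pq.cons (Pq.L [3,4] 910 (Pf.C 1 0x5091010186))
 (Pq.cons (Pq.L [2,3] 910 (Pf.C 1 0x509100c106))
 (Pq.cons (Pq.L [2,3] 910 (Pf.C 1 0x509100c106))
 Pq.nil)))))))) (Pq.cons (Pq.L [3,5] 1023 (Pf.B 10 3 (Pf.C 1 0x409141c303) (Pf.B 10 5 (Pf.C 1 0x283141c308) (Pf.C 0 0x1214503))))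
 (Pq.cons (Pq.L [3,4,5] 1023 (Pf.B 10 5 (Pf.C 1 0x409141c305) (Pf.B 10 4 (Pf.B 10 3 (Pf.C 1 0x409141c303) (Pf.C 0 0x81418a)) (Pf.C 0 0x1210505))))
 (Pq.cons (Pq.L [3,5] 1023 (Pf.B 10 5 (Pf.C 1 0x409141c305) (Pf.B 10 3 (Pf.C 1 0x185141c308) (Pf.C 0 0x120c505))))
 (Pq.cons (Pq.L [2,3,4,5] 1023 (Pf.B 10 5 (Pf.C 1 0x409141c305) (Pf.B 10 3 (Pf.C 1 0x409141c303) (Pf.B 10 4 (Pf.C 0 0x81418a) (Pf.B 10 2 (Pf.C 0 0x41018a) (Pf.C 0 0x1208503))))))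
 (Pq.cons (Pq.L [1,2,3,4,5] 1023 (Pf.B 10 5 (Pf.C 1 0x409141c305) (Pf.B 10 3 (Pf.C 1 0x409141c303) (Pf.B 10 4 (Pf.C 0 0x81418a) (Pf.B 10 2 (Pf.C 0 0x41018a) (Pf.B 10 1 (Pf.C 0 0x20c10a) (Pf.C 0 0x102408a)))))))
 (Pq.cons (Pq.L [0,1,2,3,4,5] 1023 (Pf.B 10 5 (Pf.C 1 0x409141c305) (Pf.B 10 3 (Pf.C 1 0x409141c303) (Pf.B 10 4 (Pf.C 0 0x81418a) (Pf.B 10 2 (Pf.C 0 0x41018a) (Pf.B 10 1 (Pf.C 0 0x20c10a) (Pf.B 10 0 (Pf.C 0 32906) (Pf.C 0 0x1200501))))))))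
 Pq.nil)))))))) (Pq.cons (Pq.D 3 (Pq.cons (Pq.D 4 (Pq.cons (Pq.L [1,2] 910 (Pf.C 1 0x5091008086))
 (Pq.cons (Pq.L [1,2] 910 (Pf.C 1 0x5091008086))
 (Pq.cons (Pq.L [1,2] 910 (Pf.C 1 0x5091008086))
 (Pq.cons (Pq.L [1,2] 910 (Pf.C 1 0x5091008086))
 (Pq.cons (Pq.L [1,3] 910 (Pf.C 1 0x509100c086))
 (Pq.cons (Pq.L [2,3] 910 (Pf.C 1 0x509100c106))
 (Pq.cons (Pq.L [1,2] 910 (Pf.C 1 0x5091008086))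
 Pq.nil)))))))) (Pq.cons (Pq.L [3,5] 1023 (Pf.B 10 3 (Pf.C 1 0x409141c303) (Pf.B 10 5 (Pf.C 1 0x283141c308) (Pf.C 0 0x1214503))))
 (Pq.cons (Pq.L [3,4,5] 1023 (Pf.B 10 5 (Pf.C 1 0x409141c305) (Pf.B 10 4 (Pf.B 10 3 (Pf.C 1 0x409141c303) (Pf.C 0 0x81418a)) (Pf.C 0 0x1210505))))
 (Pq.cons (Pq.L [3,5] 1023 (Pf.B 10 5 (Pf.C 1 0x409141c305) (Pf.B 10 3 (Pf.C 1 0x185141c308) (Pf.C 0 0x120c505))))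
 (Pq.cons (Pq.L [2,3,4,5] 1023 (Pf.B 10 5 (Pf.C 1 0x409141c305) (Pf.B 10 3 (Pf.C 1 0x409141c303) (Pf.B 10 4 (Pf.C 0 0x81418a) (Pf.B 10 2 (Pf.C 0 0x41018a) (Pf.C 0 0x1208503))))))
 (Pq.cons (Pq.L [1,2,3,4,5] 1023 (Pf.B 10 5 (Pf.C 1 0x409141c305) (Pf.B 10 3 (Pf.C 1 0x409141c303) (Pf.B 10 4 (Pf.C 0 0x81418a) (Pf.B 10 2 (Pf.C 0 0x41018a) (Pf.B 10 1 (Pf.C 0 0x20c10a) (Pf.C 0 0x1204502)))))))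
 (Pq.cons (Pq.L [0,1,2,3,4,5] 1023 (Pf.B 10 5 (Pf.C 1 0x409141c305) (Pf.B 10 3 (Pf.C 1 0x409141c303) (Pf.B 10 4 (Pf.C 0 0x81418a) (Pf.B 10 2 (Pf.C 0 0x41018a) (Pf.B 10 1 (Pf.C 0 0x20c10a) (Pf.B 10 0 (Pf.C 0 32906) (Pf.C 0 0x102400a))))))))
 Pq.nil)))))))) Pq.nil)))))))) Pq.nil)))
theorem e_o22 : AllRef e_T e_G4 (List.take 3 (List.flatMap (splitP 1) (List.drop 1 (List.drop 1 (List.drop 1 (List.drop 3 (List.flatMap (splitP 0) [⟨[[5,6,7,8,9,10,11],[5,6,7,8,9,10,11],[5,6,7,8,9,10,11],[5,6,7,8,9,10,11],[5,6,7,8,9,10,11]],[⟨0,1,true⟩,⟨0,2,false⟩,⟨0,3,false⟩,⟨0,4,false⟩,⟨1,2,false⟩,⟨1,3,false⟩,⟨1,4,false⟩,⟨2,3,true⟩,⟨2,4,false⟩,⟨3,4,true⟩],[],[]⟩]))))))) :=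
  chkPq_sound e_o22c _ (by decide +kernel)
noncomputable def e_o23c : Pq := (Pq.cons (Pq.D 2 (Pq.cons (Pq.D 3 (Pq.cons (Pq.D 4 (Pq.cons (Pq.L [1,2] 910 (Pf.C 1 0x5091008086))
 (Pq.cons (Pq.L [1,2] 910 (Pf.C 1 0x5091008086))
 (Pq.cons (Pq.L [1,2] 910 (Pf.C 1 0x5091008086))
 (Pq.cons (Pq.L [1,2] 910 (Pf.C 1 0x5091008086))
 (Pq.cons (Pq.L [1,3] 910 (Pf.C 1 0x509100c086))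
 (Pq.cons (Pq.L [2,3] 910 (Pf.C 1 0x509100c106))
 (Pq.cons (Pq.L [1,2] 910 (Pf.C 1 0x5091008086))
 Pq.nil)))))))) (Pq.cons (Pq.L [4,5] 1023 (Pf.B 10 4 (Pf.C 1 0x409141c304) (Pf.B 10 5 (Pf.C 1 0x284141c308) (Pf.C 0 0x1214504))))
 (Pq.cons (Pq.L [4,5] 1023 (Pf.B 10 5 (Pf.C 1 0x409141c305) (Pf.B 10 4 (Pf.C 1 0x205141c308) (Pf.C 0 0x1210505))))
 (Pq.cons (Pq.L [3,4,5] 1023 (Pf.B 10 5 (Pf.C 1 0x409141c305) (Pf.B 10 4 (Pf.C 1 0x409141c304) (Pf.B 10 3 (Pf.C 0 0x61420a) (Pf.C 0 0x120c504)))))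
 (Pq.cons (Pq.L [2,3,4,5] 1023 (Pf.B 10 5 (Pf.C 1 0x409141c305) (Pf.B 10 4 (Pf.C 1 0x409141c304) (Pf.B 10 3 (Pf.C 0 0x61420a) (Pf.B 10 2 (Pf.C 0 0x41018a) (Pf.C 0 0x1208503))))))
 (Pq.cons (Pq.L [1,2,3,4,5] 1023 (Pf.B 10 5 (Pf.C 1 0x409141c305) (Pf.B 10 4 (Pf.C 1 0x409141c304) (Pf.B 10 3 (Pf.C 0 0x61420a) (Pf.B 10 2 (Pf.C 0 0x41018a) (Pf.B 10 1 (Pf.C 0 0x20c10a) (Pf.C 0 0x1204502)))))))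
 (Pq.cons (Pq.L [0,1,2,3,4,5] 1023 (Pf.B 10 5 (Pf.C 1 0x409141c305) (Pf.B 10 4 (Pf.C 1 0x409141c304) (Pf.B 10 3 (Pf.C 0 0x61420a) (Pf.B 10 2 (Pf.C 0 0x41018a) (Pf.B 10 1 (Pf.C 0 0x20c10a) (Pf.B 10 0 (Pf.C 0 32906) (Pf.C 0 0x1200501))))))))
 Pq.nil)))))))) (Pq.cons (Pq.D 3 (Pq.cons (Pq.D 4 (Pq.cons (Pq.L [1,2] 910 (Pf.C 1 0x5091008086))
 (Pq.cons (Pq.L [1,2] 910 (Pf.C 1 0x5091008086))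
 (Pq.cons (Pq.L [1,2] 910 (Pf.C 1 0x5091008086))
 (Pq.cons (Pq.L [1,2] 910 (Pf.C 1 0x5091008086))
 (Pq.cons (Pq.L [1,3] 910 (Pf.C 1 0x509100c086))
 (Pq.cons (Pq.L [2,3] 910 (Pf.C 1 0x509100c106))
 (Pq.cons (Pq.L [1,2] 910 (Pf.C 1 0x5091008086))
 Pq.nil)))))))) (Pq.cons (Pq.L [2,3,4,5] 987 (Pf.B 10 5 (Pf.B 10 4 (Pf.C 1 0x405081c30a) (Pf.B 10 3 (Pf.B 10 2 (Pf.C 1 0x405041c30a) (Pf.C 0 0x61010a)) (Pf.C 0 0xa1018a))) (Pf.C 0 0x102428a)))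
 (Pq.cons (Pq.L [2,4] 1023 (Pf.B 10 2 (Pf.C 1 0x409141c302) (Pf.B 10 4 (Pf.C 1 0x202141c308) (Pf.C 0 0x1210502))))
 (Pq.cons (Pq.L [2,3,4,5] 1023 (Pf.B 10 4 (Pf.C 1 0x409141c304) (Pf.B 10 3 (Pf.B 10 5 (Pf.B 10 2 (Pf.C 1 0x405041c30a) (Pf.C 0 0x61010a)) (Pf.C 0 0x61028a)) (Pf.C 0 0x120c504))))
 (Pq.cons (Pq.L [2,4] 1023 (Pf.B 10 4 (Pf.C 1 0x409141c304) (Pf.B 10 2 (Pf.C 1 0x104141c308) (Pf.C 0 0x1208504))))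
 (Pq.cons (Pq.L [1,2,3,4] 1023 (Pf.B 10 4 (Pf.C 1 0x409141c304) (Pf.B 10 2 (Pf.C 1 0x409141c302) (Pf.B 10 3 (Pf.C 0 0x61010a) (Pf.B 10 1 (Pf.C 0 0x20c10a) (Pf.C 0 0x1204502))))))
 (Pq.cons (Pq.L [0,1,2,3,4] 1023 (Pf.B 10 4 (Pf.C 1 0x409141c304) (Pf.B 10 2 (Pf.C 1 0x409141c302) (Pf.B 10 3 (Pf.C 0 0x61010a) (Pf.B 10 1 (Pf.C 0 0x20c10a) (Pf.B 10 0 (Pf.C 0 32906) (Pf.C 0 0x1200501)))))))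
 Pq.nil)))))))) (Pq.cons (Pq.D 3 (Pq.cons (Pq.D 4 (Pq.cons (Pq.L [1,2] 910 (Pf.C 1 0x5091008086))
 (Pq.cons (Pq.L [1,2] 910 (Pf.C 1 0x5091008086))
 (Pq.cons (Pq.L [1,2] 910 (Pf.C 1 0x5091008086))
 (Pq.cons (Pq.L [1,2] 910 (Pf.C 1 0x5091008086))
 (Pq.cons (Pq.L [1,3] 910 (Pf.C 1 0x509100c086))
 (Pq.cons (Pq.L [2,3] 910 (Pf.C 1 0x509100c106))
 (Pq.cons (Pq.L [1,2] 910 (Pf.C 1 0x5091008086))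
 Pq.nil)))))))) (Pq.cons (Pq.L [2,5] 1023 (Pf.B 10 2 (Pf.C 1 0x409141c302) (Pf.B 10 5 (Pf.C 1 0x282141c308) (Pf.C 0 0x1214502))))
 (Pq.cons (Pq.L [2,3,4,5] 1023 (Pf.B 10 5 (Pf.C 1 0x409141c305) (Pf.B 10 4 (Pf.B 10 3 (Pf.B 10 2 (Pf.C 1 0x404041c30a) (Pf.C 0 0x61410a)) (Pf.C 0 0x81418a)) (Pf.C 0 0x102420a))))
 (Pq.cons (Pq.L [2,3,4,5] 1023 (Pf.B 10 5 (Pf.C 1 0x409141c305) (Pf.B 10 3 (Pf.B 10 4 (Pf.B 10 2 (Pf.C 1 0x404041c30a) (Pf.C 0 0x61410a)) (Pf.C 0 0x61420a)) (Pf.C 0 0x120c505))))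
 (Pq.cons (Pq.L [2,5] 1023 (Pf.B 10 5 (Pf.C 1 0x409141c305) (Pf.B 10 2 (Pf.C 1 0x105141c308) (Pf.C 0 0x1208505))))
 (Pq.cons (Pq.L [1,2,3,4,5] 1023 (Pf.B 10 5 (Pf.C 1 0x409141c305) (Pf.B 10 2 (Pf.C 1 0x409141c302) (Pf.B 10 4 (Pf.C 0 0x81410a) (Pf.B 10 3 (Pf.C 0 0x61010a) (Pf.B 10 1 (Pf.C 0 0x20c10a) (Pf.C 0 0x1204502)))))))
 (Pq.cons (Pq.L [0,1,2,3,4,5] 1023 (Pf.B 10 5 (Pf.C 1 0x409141c305) (Pf.B 10 2 (Pf.C 1 0x409141c302) (Pf.B 10 4 (Pf.C 0 0x81410a) (Pf.B 10 3 (Pf.C 0 0x61010a) (Pf.B 10 1 (Pf.C 0 0x20c10a) (Pf.B 10 0 (Pf.C 0 32906) (Pf.C 0 0x1200501))))))))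
 Pq.nil)))))))) (Pq.cons (Pq.D 3 (Pq.cons (Pq.D 4 (Pq.cons (Pq.L [1,2] 910 (Pf.C 1 0x5091008086))
 (Pq.cons (Pq.L [1,2] 910 (Pf.C 1 0x5091008086))
 (Pq.cons (Pq.L [1,2] 910 (Pf.C 1 0x5091008086))
 (Pq.cons (Pq.L [1,2] 910 (Pf.C 1 0x5091008086))
 (Pq.cons (Pq.L [1,4] 910 (Pf.C 1 0x5091010086))
 (Pq.cons (Pq.L [2,4] 910 (Pf.C 1 0x5091010106))
 (Pq.cons (Pq.L [1,2] 910 (Pf.C 1 0x5091008086))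
 Pq.nil)))))))) (Pq.cons (Pq.L [4,5] 1023 (Pf.B 10 4 (Pf.C 1 0x409141c304) (Pf.B 10 5 (Pf.C 1 0x284141c308) (Pf.C 0 0x1214504))))
 (Pq.cons (Pq.L [4,5] 1023 (Pf.B 10 5 (Pf.C 1 0x409141c305) (Pf.B 10 4 (Pf.C 1 0x205141c308) (Pf.C 0 0x1210505))))
 (Pq.cons (Pq.L [3,4,5] 1023 (Pf.B 10 5 (Pf.C 1 0x409141c305) (Pf.B 10 4 (Pf.C 1 0x409141c304) (Pf.B 10 3 (Pf.C 0 0x61420a) (Pf.C 0 0x102418a)))))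
 (Pq.cons (Pq.L [2,3,4,5] 1023 (Pf.B 10 5 (Pf.C 1 0x409141c305) (Pf.B 10 4 (Pf.C 1 0x409141c304) (Pf.B 10 3 (Pf.C 0 0x61420a) (Pf.B 10 2 (Pf.C 0 0x41018a) (Pf.C 0 0x1208503))))))
 (Pq.cons (Pq.L [1,2,3,4,5] 1023 (Pf.B 10 5 (Pf.C 1 0x409141c305) (Pf.B 10 4 (Pf.C 1 0x409141c304) (Pf.B 10 3 (Pf.C 0 0x61420a) (Pf.B 10 2 (Pf.C 0 0x41018a) (Pf.B 10 1 (Pf.C 0 0x20c10a) (Pf.C 0 0x1204502)))))))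
 (Pq.cons (Pq.L [0,1,2,3,4,5] 1023 (Pf.B 10 5 (Pf.C 1 0x409141c305) (Pf.B 10 4 (Pf.C 1 0x409141c304) (Pf.B 10 3 (Pf.C 0 0x61420a) (Pf.B 10 2 (Pf.C 0 0x41018a) (Pf.B 10 1 (Pf.C 0 0x20c10a) (Pf.B 10 0 (Pf.C 0 32906) (Pf.C 0 0x1200501))))))))
 Pq.nil)))))))) (Pq.cons (Pq.D 3 (Pq.cons (Pq.D 4 (Pq.cons (Pq.L [1,3] 910 (Pf.C 1 0x509100c086))
 (Pq.cons (Pq.L [1,3] 910 (Pf.C 1 0x509100c086))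
 (Pq.cons (Pq.L [1,3] 910 (Pf.C 1 0x509100c086))
 (Pq.cons (Pq.L [1,4] 910 (Pf.C 1 0x5091010086))
 (Pq.cons (Pq.L [1,3] 910 (Pf.C 1 0x509100c086))
 (Pq.cons (Pq.L [3,4] 910 (Pf.C 1 0x5091010186))
 (Pq.cons (Pq.L [1,3] 910 (Pf.C 1 0x509100c086))
 Pq.nil)))))))) (Pq.cons (Pq.L [4,5] 1023 (Pf.B 10 4 (Pf.C 1 0x409141c304) (Pf.B 10 5 (Pf.C 1 0x284141c308) (Pf.C 0 0x1214504))))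
 (Pq.cons (Pq.L [4,5] 1023 (Pf.B 10 5 (Pf.C 1 0x409141c305) (Pf.B 10 4 (Pf.C 1 0x205141c308) (Pf.C 0 0x1210505))))
 (Pq.cons (Pq.L [3,4,5] 1023 (Pf.B 10 5 (Pf.C 1 0x409141c305) (Pf.B 10 4 (Pf.C 1 0x409141c304) (Pf.B 10 3 (Pf.C 0 0x61420a) (Pf.C 0 0x120c504)))))
 (Pq.cons (Pq.L [2,3,4,5] 1023 (Pf.B 10 5 (Pf.C 1 0x409141c305) (Pf.B 10 4 (Pf.C 1 0x409141c304) (Pf.B 10 3 (Pf.C 0 0x61420a) (Pf.B 10 2 (Pf.C 0 0x41018a) (Pf.C 0 0x102410a))))))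
 (Pq.cons (Pq.L [1,2,3,4,5] 1023 (Pf.B 10 5 (Pf.C 1 0x409141c305) (Pf.B 10 4 (Pf.C 1 0x409141c304) (Pf.B 10 3 (Pf.C 0 0x61420a) (Pf.B 10 2 (Pf.C 0 0x41018a) (Pf.B 10 1 (Pf.C 0 0x20c10a) (Pf.C 0 0x1204502)))))))
 (Pq.cons (Pq.L [0,1,2,3,4,5] 1023 (Pf.B 10 5 (Pf.C 1 0x409141c305) (Pf.B 10 4 (Pf.C 1 0x409141c304) (Pf.B 10 3 (Pf.C 0 0x61420a) (Pf.B 10 2 (Pf.C 0 0x41018a) (Pf.B 10 1 (Pf.C 0 0x20c10a) (Pf.B 10 0 (Pf.C 0 32906) (Pf.C 0 0x1200501))))))))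
 Pq.nil)))))))) (Pq.cons (Pq.D 3 (Pq.cons (Pq.D 4 (Pq.cons (Pq.L [2,3] 910 (Pf.C 1 0x509100c106))
 (Pq.cons (Pq.L [2,3] 910 (Pf.C 1 0x509100c106))
 (Pq.cons (Pq.L [2,3] 910 (Pf.C 1 0x509100c106))
 (Pq.cons (Pq.L [2,4] 910 (Pf.C 1 0x5091010106))
 (Pq.cons (Pq.L [3,4] 910 (Pf.C 1 0x5091010186))
 (Pq.cons (Pq.L [2,3] 910 (Pf.C 1 0x509100c106))
 (Pq.cons (Pq.L [2,3] 910 (Pf.C 1 0x509100c106))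
 Pq.nil)))))))) (Pq.cons (Pq.L [4,5] 1023 (Pf.B 10 4 (Pf.C 1 0x409141c304) (Pf.B 10 5 (Pf.C 1 0x284141c308) (Pf.C 0 0x1214504))))
 (Pq.cons (Pq.L [4,5] 1023 (Pf.B 10 5 (Pf.C 1 0x409141c305) (Pf.B 10 4 (Pf.C 1 0x205141c308) (Pf.C 0 0x1210505))))
 (Pq.cons (Pq.L [3,4,5] 1023 (Pf.B 10 5 (Pf.C 1 0x409141c305) (Pf.B 10 4 (Pf.C 1 0x409141c304) (Pf.B 10 3 (Pf.C 0 0x61420a) (Pf.C 0 0x120c504)))))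
 (Pq.cons (Pq.L [2,3,4,5] 1023 (Pf.B 10 5 (Pf.C 1 0x409141c305) (Pf.B 10 4 (Pf.C 1 0x409141c304) (Pf.B 10 3 (Pf.C 0 0x61420a) (Pf.B 10 2 (Pf.C 0 0x41018a) (Pf.C 0 0x1208503))))))
 (Pq.cons (Pq.L [1,2,3,4,5] 1023 (Pf.B 10 5 (Pf.C 1 0x409141c305) (Pf.B 10 4 (Pf.C 1 0x409141c304) (Pf.B 10 3 (Pf.C 0 0x61420a) (Pf.B 10 2 (Pf.C 0 0x41018a) (Pf.B 10 1 (Pf.C 0 0x20c10a) (Pf.C 0 0x102408a)))))))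
 (Pq.cons (Pq.L [0,1,2,3,4,5] 1023 (Pf.B 10 5 (Pf.C 1 0x409141c305) (Pf.B 10 4 (Pf.C 1 0x409141c304) (Pf.B 10 3 (Pf.C 0 0x61420a) (Pf.B 10 2 (Pf.C 0 0x41018a) (Pf.B 10 1 (Pf.C 0 0x20c10a) (Pf.B 10 0 (Pf.C 0 32906) (Pf.C 0 0x1200501))))))))
 Pq.nil)))))))) (Pq.cons (Pq.D 3 (Pq.cons (Pq.D 4 (Pq.cons (Pq.L [1,2] 910 (Pf.C 1 0x5091008086))
 (Pq.cons (Pq.L [1,2] 910 (Pf.C 1 0x5091008086))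
 (Pq.cons (Pq.L [1,2] 910 (Pf.C 1 0x5091008086))
 (Pq.cons (Pq.L [1,2] 910 (Pf.C 1 0x5091008086))
 (Pq.cons (Pq.L [1,3] 910 (Pf.C 1 0x509100c086))
 (Pq.cons (Pq.L [2,3] 910 (Pf.C 1 0x509100c106))
 (Pq.cons (Pq.L [1,2] 910 (Pf.C 1 0x5091008086))
 Pq.nil)))))))) (Pq.cons (Pq.L [4,5] 1023 (Pf.B 10 4 (Pf.C 1 0x409141c304) (Pf.B 10 5 (Pf.C 1 0x284141c308) (Pf.C 0 0x1214504))))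
 (Pq.cons (Pq.L [4,5] 1023 (Pf.B 10 5 (Pf.C 1 0x409141c305) (Pf.B 10 4 (Pf.C 1 0x205141c308) (Pf.C 0 0x1210505))))
 (Pq.cons (Pq.L [3,4,5] 1023 (Pf.B 10 5 (Pf.C 1 0x409141c305) (Pf.B 10 4 (Pf.C 1 0x409141c304) (Pf.B 10 3 (Pf.C 0 0x61420a) (Pf.C 0 0x120c504)))))
 (Pq.cons (Pq.L [2,3,4,5] 1023 (Pf.B 10 5 (Pf.C 1 0x409141c305) (Pf.B 10 4 (Pf.C 1 0x409141c304) (Pf.B 10 3 (Pf.C 0 0x61420a) (Pf.B 10 2 (Pf.C 0 0x41018a) (Pf.C 0 0x1208503))))))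
 (Pq.cons (Pq.L [1,2,3,4,5] 1023 (Pf.B 10 5 (Pf.C 1 0x409141c305) (Pf.B 10 4 (Pf.C 1 0x409141c304) (Pf.B 10 3 (Pf.C 0 0x61420a) (Pf.B 10 2 (Pf.C 0 0x41018a) (Pf.B 10 1 (Pf.C 0 0x20c10a) (Pf.C 0 0x1204502)))))))
 (Pq.cons (Pq.L [0,1,2,3,4,5] 1023 (Pf.B 10 5 (Pf.C 1 0x409141c305) (Pf.B 10 4 (Pf.C 1 0x409141c304) (Pf.B 10 3 (Pf.C 0 0x61420a) (Pf.B 10 2 (Pf.C 0 0x41018a) (Pf.B 10 1 (Pf.C 0 0x20c10a) (Pf.B 10 0 (Pf.C 0 32906) (Pf.C 0 0x102400a))))))))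
 Pq.nil)))))))) Pq.nil)))))))) Pq.nil)
theorem e_o23 : AllRef e_T e_G4 (List.take 1 (List.drop 3 (List.flatMap (splitP 1) (List.drop 1 (List.drop 1 (List.drop 1 (List.drop 3 (List.flatMap (splitP 0) [⟨[[5,6,7,8,9,10,11],[5,6,7,8,9,10,11],[5,6,7,8,9,10,11],[5,6,7,8,9,10,11],[5,6,7,8,9,10,11]],[⟨0,1,true⟩,⟨0,2,false⟩,⟨0,3,false⟩,⟨0,4,false⟩,⟨1,2,false⟩,⟨1,3,false⟩,⟨1,4,false⟩,⟨2,3,true⟩,⟨2,4,false⟩,⟨3,4,true⟩],[],[]⟩])))))))) :=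
  chkPq_sound e_o23c _ (by decide +kernel)
noncomputable def e_o24c : Pq := (Pq.cons (Pq.D 2 (Pq.cons (Pq.D 3 (Pq.cons (Pq.D 4 (Pq.cons (Pq.L [1,2] 910 (Pf.C 1 0x5091008086))
 (Pq.cons (Pq.L [1,2] 910 (Pf.C 1 0x5091008086))
 (Pq.cons (Pq.L [1,2] 910 (Pf.C 1 0x5091008086))
 (Pq.cons (Pq.L [1,2] 910 (Pf.C 1 0x5091008086))
 (Pq.cons (Pq.L [1,3] 910 (Pf.C 1 0x509100c086))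
 (Pq.cons (Pq.L [2,3] 910 (Pf.C 1 0x509100c106))
 (Pq.cons (Pq.L [1,2] 910 (Pf.C 1 0x5091008086))
 Pq.nil)))))))) (Pq.cons (Pq.L [4,5] 1023 (Pf.B 10 4 (Pf.C 1 0x409141c304) (Pf.B 10 5 (Pf.C 1 0x284141c308) (Pf.C 0 0x1214504))))
 (Pq.cons (Pq.L [4,5] 1023 (Pf.B 10 5 (Pf.C 1 0x409141c305) (Pf.B 10 4 (Pf.C 1 0x205141c308) (Pf.C 0 0x1210505))))
 (Pq.cons (Pq.L [3,4,5] 1023 (Pf.B 10 5 (Pf.C 1 0x409141c305) (Pf.B 10 4 (Pf.C 1 0x409141c304) (Pf.B 10 3 (Pf.C 0 0x61420a) (Pf.C 0 0x120c504)))))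
 (Pq.cons (Pq.L [2,3,4,5] 1023 (Pf.B 10 5 (Pf.C 1 0x409141c305) (Pf.B 10 4 (Pf.C 1 0x409141c304) (Pf.B 10 3 (Pf.C 0 0x61420a) (Pf.B 10 2 (Pf.C 0 0x41018a) (Pf.C 0 0x1208503))))))
 (Pq.cons (Pq.L [1,2,3,4,5] 1023 (Pf.B 10 5 (Pf.C 1 0x409141c305) (Pf.B 10 4 (Pf.C 1 0x409141c304) (Pf.B 10 3 (Pf.C 0 0x61420a) (Pf.B 10 2 (Pf.C 0 0x41018a) (Pf.B 10 1 (Pf.C 0 0x20c10a) (Pf.C 0 0x1204502)))))))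
 (Pq.cons (Pq.L [0,1,2,3,4,5] 1023 (Pf.B 10 5 (Pf.C 1 0x409141c305) (Pf.B 10 4 (Pf.C 1 0x409141c304) (Pf.B 10 3 (Pf.C 0 0x61420a) (Pf.B 10 2 (Pf.C 0 0x41018a) (Pf.B 10 1 (Pf.C 0 0x20c10a) (Pf.B 10 0 (Pf.C 0 32906) (Pf.C 0 0x1200501))))))))
 Pq.nil)))))))) (Pq.cons (Pq.D 3 (Pq.cons (Pq.D 4 (Pq.cons (Pq.L [1,2] 910 (Pf.C 1 0x5091008086))
 (Pq.cons (Pq.L [1,2] 910 (Pf.C 1 0x5091008086))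
 (Pq.cons (Pq.L [1,2] 910 (Pf.C 1 0x5091008086))
 (Pq.cons (Pq.L [1,2] 910 (Pf.C 1 0x5091008086))
 (Pq.cons (Pq.L [1,3] 910 (Pf.C 1 0x509100c086))
 (Pq.cons (Pq.L [2,3] 910 (Pf.C 1 0x509100c106))
 (Pq.cons (Pq.L [1,2] 910 (Pf.C 1 0x5091008086))
 Pq.nil)))))))) (Pq.cons (Pq.L [3,4,5] 987 (Pf.B 10 5 (Pf.B 10 4 (Pf.C 1 0x405081c30a) (Pf.B 10 3 (Pf.C 1 0x405061c30a) (Pf.C 0 0xa1018a))) (Pf.C 0 0x102428a)))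
 (Pq.cons (Pq.L [3,4] 1023 (Pf.B 10 3 (Pf.C 1 0x409141c303) (Pf.B 10 4 (Pf.C 1 0x203141c308) (Pf.C 0 0x1210503))))
 (Pq.cons (Pq.L [3,4] 1023 (Pf.B 10 4 (Pf.C 1 0x409141c304) (Pf.B 10 3 (Pf.C 1 0x184141c308) (Pf.C 0 0x120c504))))
 (Pq.cons (Pq.L [2,3,4] 1023 (Pf.B 10 4 (Pf.C 1 0x409141c304) (Pf.B 10 3 (Pf.C 1 0x409141c303) (Pf.B 10 2 (Pf.C 0 0x41018a) (Pf.C 0 0x1208503)))))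
 (Pq.cons (Pq.L [1,2,3,4] 1023 (Pf.B 10 4 (Pf.C 1 0x409141c304) (Pf.B 10 3 (Pf.C 1 0x409141c303) (Pf.B 10 2 (Pf.C 0 0x41018a) (Pf.B 10 1 (Pf.C 0 0x20c10a) (Pf.C 0 0x1204502))))))
 (Pq.cons (Pq.L [0,1,2,3,4] 1023 (Pf.B 10 4 (Pf.C 1 0x409141c304) (Pf.B 10 3 (Pf.C 1 0x409141c303) (Pf.B 10 2 (Pf.C 0 0x41018a) (Pf.B 10 1 (Pf.C 0 0x20c10a) (Pf.B 10 0 (Pf.C 0 32906) (Pf.C 0 0x1200501)))))))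
 Pq.nil)))))))) (Pq.cons (Pq.D 3 (Pq.cons (Pq.D 4 (Pq.cons (Pq.L [1,2] 910 (Pf.C 1 0x5091008086))
 (Pq.cons (Pq.L [1,2] 910 (Pf.C 1 0x5091008086))
 (Pq.cons (Pq.L [1,2] 910 (Pf.C 1 0x5091008086))
 (Pq.cons (Pq.L [1,2] 910 (Pf.C 1 0x5091008086))
 (Pq.cons (Pq.L [1,3] 910 (Pf.C 1 0x509100c086))
 (Pq.cons (Pq.L [2,3] 910 (Pf.C 1 0x509100c106))
 (Pq.cons (Pq.L [1,2] 910 (Pf.C 1 0x5091008086))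
 Pq.nil)))))))) (Pq.cons (Pq.L [3,5] 1023 (Pf.B 10 3 (Pf.C 1 0x409141c303) (Pf.B 10 5 (Pf.C 1 0x283141c308) (Pf.C 0 0x1214503))))
 (Pq.cons (Pq.L [3,4,5] 1023 (Pf.B 10 5 (Pf.C 1 0x409141c305) (Pf.B 10 4 (Pf.B 10 3 (Pf.C 1 0x404061c30a) (Pf.C 0 0x81418a)) (Pf.C 0 0x102420a))))
 (Pq.cons (Pq.L [3,5] 1023 (Pf.B 10 5 (Pf.C 1 0x409141c305) (Pf.B 10 3 (Pf.C 1 0x185141c308) (Pf.C 0 0x120c505))))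
 (Pq.cons (Pq.L [2,3,4,5] 1023 (Pf.B 10 5 (Pf.C 1 0x409141c305) (Pf.B 10 3 (Pf.C 1 0x409141c303) (Pf.B 10 4 (Pf.C 0 0x81418a) (Pf.B 10 2 (Pf.C 0 0x41018a) (Pf.C 0 0x1208503))))))
 (Pq.cons (Pq.L [1,2,3,4,5] 1023 (Pf.B 10 5 (Pf.C 1 0x409141c305) (Pf.B 10 3 (Pf.C 1 0x409141c303) (Pf.B 10 4 (Pf.C 0 0x81418a) (Pf.B 10 2 (Pf.C 0 0x41018a) (Pf.B 10 1 (Pf.C 0 0x20c10a) (Pf.C 0 0x1204502)))))))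
 (Pq.cons (Pq.L [0,1,2,3,4,5] 1023 (Pf.B 10 5 (Pf.C 1 0x409141c305) (Pf.B 10 3 (Pf.C 1 0x409141c303) (Pf.B 10 4 (Pf.C 0 0x81418a) (Pf.B 10 2 (Pf.C 0 0x41018a) (Pf.B 10 1 (Pf.C 0 0x20c10a) (Pf.B 10 0 (Pf.C 0 32906) (Pf.C 0 0x1200501))))))))
 Pq.nil)))))))) (Pq.cons (Pq.D 3 (Pq.cons (Pq.D 4 (Pq.cons (Pq.L [1,2] 910 (Pf.C 1 0x5091008086))
 (Pq.cons (Pq.L [1,2] 910 (Pf.C 1 0x5091008086))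
 (Pq.cons (Pq.L [1,2] 910 (Pf.C 1 0x5091008086))
 (Pq.cons (Pq.L [1,2] 910 (Pf.C 1 0x5091008086))
 (Pq.cons (Pq.L [1,4] 910 (Pf.C 1 0x5091010086))
 (Pq.cons (Pq.L [2,4] 910 (Pf.C 1 0x5091010106))
 (Pq.cons (Pq.L [1,2] 910 (Pf.C 1 0x5091008086))
 Pq.nil)))))))) (Pq.cons (Pq.L [4,5] 1023 (Pf.B 10 4 (Pf.C 1 0x409141c304) (Pf.B 10 5 (Pf.C 1 0x284141c308) (Pf.C 0 0x1214504))))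
 (Pq.cons (Pq.L [4,5] 1023 (Pf.B 10 5 (Pf.C 1 0x409141c305) (Pf.B 10 4 (Pf.C 1 0x205141c308) (Pf.C 0 0x1210505))))
 (Pq.cons (Pq.L [3,4,5] 1023 (Pf.B 10 5 (Pf.C 1 0x409141c305) (Pf.B 10 4 (Pf.C 1 0x409141c304) (Pf.B 10 3 (Pf.C 0 0x61420a) (Pf.C 0 0x102418a)))))
 (Pq.cons (Pq.L [2,3,4,5] 1023 (Pf.B 10 5 (Pf.C 1 0x409141c305) (Pf.B 10 4 (Pf.C 1 0x409141c304) (Pf.B 10 3 (Pf.C 0 0x61420a) (Pf.B 10 2 (Pf.C 0 0x41018a) (Pf.C 0 0x1208503))))))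
 (Pq.cons (Pq.L [1,2,3,4,5] 1023 (Pf.B 10 5 (Pf.C 1 0x409141c305) (Pf.B 10 4 (Pf.C 1 0x409141c304) (Pf.B 10 3 (Pf.C 0 0x61420a) (Pf.B 10 2 (Pf.C 0 0x41018a) (Pf.B 10 1 (Pf.C 0 0x20c10a) (Pf.C 0 0x1204502)))))))
 (Pq.cons (Pq.L [0,1,2,3,4,5] 1023 (Pf.B 10 5 (Pf.C 1 0x409141c305) (Pf.B 10 4 (Pf.C 1 0x409141c304) (Pf.B 10 3 (Pf.C 0 0x61420a) (Pf.B 10 2 (Pf.C 0 0x41018a) (Pf.B 10 1 (Pf.C 0 0x20c10a) (Pf.B 10 0 (Pf.C 0 32906) (Pf.C 0 0x1200501))))))))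
 Pq.nil)))))))) (Pq.cons (Pq.D 3 (Pq.cons (Pq.D 4 (Pq.cons (Pq.L [1,3] 910 (Pf.C 1 0x509100c086))
 (Pq.cons (Pq.L [1,3] 910 (Pf.C 1 0x509100c086))
 (Pq.cons (Pq.L [1,3] 910 (Pf.C 1 0x509100c086))
 (Pq.cons (Pq.L [1,4] 910 (Pf.C 1 0x5091010086))
 (Pq.cons (Pq.L [1,3] 910 (Pf.C 1 0x509100c086))
 (Pq.cons (Pq.L [3,4] 910 (Pf.C 1 0x5091010186))
 (Pq.cons (Pq.L [1,3] 910 (Pf.C 1 0x509100c086))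
 Pq.nil)))))))) (Pq.cons (Pq.L [4,5] 1023 (Pf.B 10 4 (Pf.C 1 0x409141c304) (Pf.B 10 5 (Pf.C 1 0x284141c308) (Pf.C 0 0x1214504))))
 (Pq.cons (Pq.L [4,5] 1023 (Pf.B 10 5 (Pf.C 1 0x409141c305) (Pf.B 10 4 (Pf.C 1 0x205141c308) (Pf.C 0 0x1210505))))
 (Pq.cons (Pq.L [3,4,5] 1023 (Pf.B 10 5 (Pf.C 1 0x409141c305) (Pf.B 10 4 (Pf.C 1 0x409141c304) (Pf.B 10 3 (Pf.C 0 0x61420a) (Pf.C 0 0x120c504)))))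
 (Pq.cons (Pq.L [2,3,4,5] 1023 (Pf.B 10 5 (Pf.C 1 0x409141c305) (Pf.B 10 4 (Pf.C 1 0x409141c304) (Pf.B 10 3 (Pf.C 0 0x61420a) (Pf.B 10 2 (Pf.C 0 0x41018a) (Pf.C 0 0x102410a))))))
 (Pq.cons (Pq.L [1,2,3,4,5] 1023 (Pf.B 10 5 (Pf.C 1 0x409141c305) (Pf.B 10 4 (Pf.C 1 0x409141c304) (Pf.B 10 3 (Pf.C 0 0x61420a) (Pf.B 10 2 (Pf.C 0 0x41018a) (Pf.B 10 1 (Pf.C 0 0x20c10a) (Pf.C 0 0x1204502)))))))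
 (Pq.cons (Pq.L [0,1,2,3,4,5] 1023 (Pf.B 10 5 (Pf.C 1 0x409141c305) (Pf.B 10 4 (Pf.C 1 0x409141c304) (Pf.B 10 3 (Pf.C 0 0x61420a) (Pf.B 10 2 (Pf.C 0 0x41018a) (Pf.B 10 1 (Pf.C 0 0x20c10a) (Pf.B 10 0 (Pf.C 0 32906) (Pf.C 0 0x1200501))))))))
 Pq.nil)))))))) (Pq.cons (Pq.D 3 (Pq.cons (Pq.D 4 (Pq.cons (Pq.L [2,3] 910 (Pf.C 1 0x509100c106))
 (Pq.cons (Pq.L [2,3] 910 (Pf.C 1 0x509100c106))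
 (Pq.cons (Pq.L [2,3] 910 (Pf.C 1 0x509100c106))
 (Pq.cons (Pq.L [2,4] 910 (Pf.C 1 0x5091010106))
 (Pq.cons (Pq.L [3,4] 910 (Pf.C 1 0x5091010186))
 (Pq.cons (Pq.L [2,3] 910 (Pf.C 1 0x509100c106))
 (Pq.cons (Pq.L [2,3] 910 (Pf.C 1 0x509100c106))
 Pq.nil)))))))) (Pq.cons (Pq.L [4,5] 1023 (Pf.B 10 4 (Pf.C 1 0x409141c304) (Pf.B 10 5 (Pf.C 1 0x284141c308) (Pf.C 0 0x1214504))))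
 (Pq.cons (Pq.L [4,5] 1023 (Pf.B 10 5 (Pf.C 1 0x409141c305) (Pf.B 10 4 (Pf.C 1 0x205141c308) (Pf.C 0 0x1210505))))
 (Pq.cons (Pq.L [3,4,5] 1023 (Pf.B 10 5 (Pf.C 1 0x409141c305) (Pf.B 10 4 (Pf.C 1 0x409141c304) (Pf.B 10 3 (Pf.C 0 0x61420a) (Pf.C 0 0x120c504)))))
 (Pq.cons (Pq.L [2,3,4,5] 1023 (Pf.B 10 5 (Pf.C 1 0x409141c305) (Pf.B 10 4 (Pf.C 1 0x409141c304) (Pf.B 10 3 (Pf.C 0 0x61420a) (Pf.B 10 2 (Pf.C 0 0x41018a) (Pf.C 0 0x1208503))))))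
 (Pq.cons (Pq.L [1,2,3,4,5] 1023 (Pf.B 10 5 (Pf.C 1 0x409141c305) (Pf.B 10 4 (Pf.C 1 0x409141c304) (Pf.B 10 3 (Pf.C 0 0x61420a) (Pf.B 10 2 (Pf.C 0 0x41018a) (Pf.B 10 1 (Pf.C 0 0x20c10a) (Pf.C 0 0x102408a)))))))
 (Pq.cons (Pq.L [0,1,2,3,4,5] 1023 (Pf.B 10 5 (Pf.C 1 0x409141c305) (Pf.B 10 4 (Pf.C 1 0x409141c304) (Pf.B 10 3 (Pf.C 0 0x61420a) (Pf.B 10 2 (Pf.C 0 0x41018a) (Pf.B 10 1 (Pf.C 0 0x20c10a) (Pf.B 10 0 (Pf.C 0 32906) (Pf.C 0 0x1200501))))))))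
 Pq.nil)))))))) (Pq.cons (Pq.D 3 (Pq.cons (Pq.D 4 (Pq.cons (Pq.L [1,2] 910 (Pf.C 1 0x5091008086))
 (Pq.cons (Pq.L [1,2] 910 (Pf.C 1 0x5091008086))
 (Pq.cons (Pq.L [1,2] 910 (Pf.C 1 0x5091008086))
 (Pq.cons (Pq.L [1,2] 910 (Pf.C 1 0x5091008086))
 (Pq.cons (Pq.L [1,3] 910 (Pf.C 1 0x509100c086))
 (Pq.cons (Pq.L [2,3] 910 (Pf.C 1 0x509100c106))
 (Pq.cons (Pq.L [1,2] 910 (Pf.C 1 0x5091008086))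
 Pq.nil)))))))) (Pq.cons (Pq.L [4,5] 1023 (Pf.B 10 4 (Pf.C 1 0x409141c304) (Pf.B 10 5 (Pf.C 1 0x284141c308) (Pf.C 0 0x1214504))))
 (Pq.cons (Pq.L [4,5] 1023 (Pf.B 10 5 (Pf.C 1 0x409141c305) (Pf.B 10 4 (Pf.C 1 0x205141c308) (Pf.C 0 0x1210505))))
 (Pq.cons (Pq.L [3,4,5] 1023 (Pf.B 10 5 (Pf.C 1 0x409141c305) (Pf.B 10 4 (Pf.C 1 0x409141c304) (Pf.B 10 3 (Pf.C 0 0x61420a) (Pf.C 0 0x120c504)))))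
 (Pq.cons (Pq.L [2,3,4,5] 1023 (Pf.B 10 5 (Pf.C 1 0x409141c305) (Pf.B 10 4 (Pf.C 1 0x409141c304) (Pf.B 10 3 (Pf.C 0 0x61420a) (Pf.B 10 2 (Pf.C 0 0x41018a) (Pf.C 0 0x1208503))))))
 (Pq.cons (Pq.L [1,2,3,4,5] 1023 (Pf.B 10 5 (Pf.C 1 0x409141c305) (Pf.B 10 4 (Pf.C 1 0x409141c304) (Pf.B 10 3 (Pf.C 0 0x61420a) (Pf.B 10 2 (Pf.C 0 0x41018a) (Pf.B 10 1 (Pf.C 0 0x20c10a) (Pf.C 0 0x1204502)))))))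
 (Pq.cons (Pq.L [0,1,2,3,4,5] 1023 (Pf.B 10 5 (Pf.C 1 0x409141c305) (Pf.B 10 4 (Pf.C 1 0x409141c304) (Pf.B 10 3 (Pf.C 0 0x61420a) (Pf.B 10 2 (Pf.C 0 0x41018a) (Pf.B 10 1 (Pf.C 0 0x20c10a) (Pf.B 10 0 (Pf.C 0 32906) (Pf.C 0 0x102400a))))))))
 Pq.nil)))))))) Pq.nil)))))))) (Pq.cons (Pq.D 2 (Pq.cons (Pq.D 3 (Pq.cons (Pq.D 4 (Pq.cons (Pq.L [1,2] 910 (Pf.C 1 0x5091008086))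
 (Pq.cons (Pq.L [1,2] 910 (Pf.C 1 0x5091008086))
 (Pq.cons (Pq.L [1,2] 910 (Pf.C 1 0x5091008086))
 (Pq.cons (Pq.L [1,2] 910 (Pf.C 1 0x5091008086))
 (Pq.cons (Pq.L [1,3] 910 (Pf.C 1 0x509100c086))
 (Pq.cons (Pq.L [2,3] 910 (Pf.C 1 0x509100c106))
 (Pq.cons (Pq.L [1,2] 910 (Pf.C 1 0x5091008086))
 Pq.nil)))))))) (Pq.cons (Pq.L [4,5] 1023 (Pf.B 10 4 (Pf.C 1 0x409141c304) (Pf.B 10 5 (Pf.C 1 0x284141c308) (Pf.C 0 0x1214504))))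
 (Pq.cons (Pq.L [4,5] 1023 (Pf.B 10 5 (Pf.C 1 0x409141c305) (Pf.B 10 4 (Pf.C 1 0x205141c308) (Pf.C 0 0x1210505))))
 (Pq.cons (Pq.L [3,4,5] 1023 (Pf.B 10 5 (Pf.C 1 0x409141c305) (Pf.B 10 4 (Pf.C 1 0x409141c304) (Pf.B 10 3 (Pf.C 0 0x61420a) (Pf.C 0 0x120c504)))))
 (Pq.cons (Pq.L [2,3,4,5] 1023 (Pf.B 10 5 (Pf.C 1 0x409141c305) (Pf.B 10 4 (Pf.C 1 0x409141c304) (Pf.B 10 3 (Pf.C 0 0x61420a) (Pf.B 10 2 (Pf.C 0 0x41018a) (Pf.C 0 0x1208503))))))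
 (Pq.cons (Pq.L [1,2,3,4,5] 1023 (Pf.B 10 5 (Pf.C 1 0x409141c305) (Pf.B 10 4 (Pf.C 1 0x409141c304) (Pf.B 10 3 (Pf.C 0 0x61420a) (Pf.B 10 2 (Pf.C 0 0x41018a) (Pf.B 10 1 (Pf.C 0 0x20c10a) (Pf.C 0 0x1204502)))))))
 (Pq.cons (Pq.L [0,1,2,3,4,5] 1023 (Pf.B 10 5 (Pf.C 1 0x409141c305) (Pf.B 10 4 (Pf.C 1 0x409141c304) (Pf.B 10 3 (Pf.C 0 0x61420a) (Pf.B 10 2 (Pf.C 0 0x41018a) (Pf.B 10 1 (Pf.C 0 0x20c10a) (Pf.B 10 0 (Pf.C 0 32906) (Pf.C 0 0x1200501))))))))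
 Pq.nil)))))))) (Pq.cons (Pq.D 3 (Pq.cons (Pq.D 4 (Pq.cons (Pq.L [1,2] 910 (Pf.C 1 0x5091008086))
 (Pq.cons (Pq.L [1,2] 910 (Pf.C 1 0x5091008086))
 (Pq.cons (Pq.L [1,2] 910 (Pf.C 1 0x5091008086))
 (Pq.cons (Pq.L [1,2] 910 (Pf.C 1 0x5091008086))
 (Pq.cons (Pq.L [1,3] 910 (Pf.C 1 0x509100c086))
 (Pq.cons (Pq.L [2,3] 910 (Pf.C 1 0x509100c106))
 (Pq.cons (Pq.L [1,2] 910 (Pf.C 1 0x5091008086))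
 Pq.nil)))))))) (Pq.cons (Pq.L [3,4,5] 987 (Pf.B 10 5 (Pf.B 10 4 (Pf.C 1 0x405081c30a) (Pf.B 10 3 (Pf.C 1 0x405061c30a) (Pf.C 0 0xa1018a))) (Pf.C 0 0x102428a)))
 (Pq.cons (Pq.L [3,4] 1023 (Pf.B 10 3 (Pf.C 1 0x409141c303) (Pf.B 10 4 (Pf.C 1 0x203141c308) (Pf.C 0 0x1210503))))
 (Pq.cons (Pq.L [3,4] 1023 (Pf.B 10 4 (Pf.C 1 0x409141c304) (Pf.B 10 3 (Pf.C 1 0x184141c308) (Pf.C 0 0x120c504))))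
 (Pq.cons (Pq.L [2,3,4] 1023 (Pf.B 10 4 (Pf.C 1 0x409141c304) (Pf.B 10 3 (Pf.C 1 0x409141c303) (Pf.B 10 2 (Pf.C 0 0x41018a) (Pf.C 0 0x1208503)))))
 (Pq.cons (Pq.L [1,2,3,4] 1023 (Pf.B 10 4 (Pf.C 1 0x409141c304) (Pf.B 10 3 (Pf.C 1 0x409141c303) (Pf.B 10 2 (Pf.C 0 0x41018a) (Pf.B 10 1 (Pf.C 0 0x20c10a) (Pf.C 0 0x1204502))))))
 (Pq.cons (Pq.L [0,1,2,3,4] 1023 (Pf.B 10 4 (Pf.C 1 0x409141c304) (Pf.B 10 3 (Pf.C 1 0x409141c303) (Pf.B 10 2 (Pf.C 0 0x41018a) (Pf.B 10 1 (Pf.C 0 0x20c10a) (Pf.B 10 0 (Pf.C 0 32906) (Pf.C 0 0x1200501)))))))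
 Pq.nil)))))))) (Pq.cons (Pq.D 3 (Pq.cons (Pq.D 4 (Pq.cons (Pq.L [1,2] 910 (Pf.C 1 0x5091008086))
 (Pq.cons (Pq.L [1,2] 910 (Pf.C 1 0x5091008086))
 (Pq.cons (Pq.L [1,2] 910 (Pf.C 1 0x5091008086))
 (Pq.cons (Pq.L [1,2] 910 (Pf.C 1 0x5091008086))
 (Pq.cons (Pq.L [1,3] 910 (Pf.C 1 0x509100c086))
 (Pq.cons (Pq.L [2,3] 910 (Pf.C 1 0x509100c106))
 (Pq.cons (Pq.L [1,2] 910 (Pf.C 1 0x5091008086))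
 Pq.nil)))))))) (Pq.cons (Pq.L [3,5] 1023 (Pf.B 10 3 (Pf.C 1 0x409141c303) (Pf.B 10 5 (Pf.C 1 0x283141c308) (Pf.C 0 0x1214503))))
 (Pq.cons (Pq.L [3,4,5] 1023 (Pf.B 10 5 (Pf.C 1 0x409141c305) (Pf.B 10 4 (Pf.B 10 3 (Pf.C 1 0x404061c30a) (Pf.C 0 0x81418a)) (Pf.C 0 0x102420a))))
 (Pq.cons (Pq.L [3,5] 1023 (Pf.B 10 5 (Pf.C 1 0x409141c305) (Pf.B 10 3 (Pf.C 1 0x185141c308) (Pf.C 0 0x120c505))))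
 (Pq.cons (Pq.L [2,3,4,5] 1023 (Pf.B 10 5 (Pf.C 1 0x409141c305) (Pf.B 10 3 (Pf.C 1 0x409141c303) (Pf.B 10 4 (Pf.C 0 0x81418a) (Pf.B 10 2 (Pf.C 0 0x41018a) (Pf.C 0 0x1208503))))))
 (Pq.cons (Pq.L [1,2,3,4,5] 1023 (Pf.B 10 5 (Pf.C 1 0x409141c305) (Pf.B 10 3 (Pf.C 1 0x409141c303) (Pf.B 10 4 (Pf.C 0 0x81418a) (Pf.B 10 2 (Pf.C 0 0x41018a) (Pf.B 10 1 (Pf.C 0 0x20c10a) (Pf.C 0 0x1204502)))))))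
 (Pq.cons (Pq.L [0,1,2,3,4,5] 1023 (Pf.B 10 5 (Pf.C 1 0x409141c305) (Pf.B 10 3 (Pf.C 1 0x409141c303) (Pf.B 10 4 (Pf.C 0 0x81418a) (Pf.B 10 2 (Pf.C 0 0x41018a) (Pf.B 10 1 (Pf.C 0 0x20c10a) (Pf.B 10 0 (Pf.C 0 32906) (Pf.C 0 0x1200501))))))))
 Pq.nil)))))))) (Pq.cons (Pq.D 3 (Pq.cons (Pq.D 4 (Pq.cons (Pq.L [1,2] 910 (Pf.C 1 0x5091008086))
 (Pq.cons (Pq.L [1,2] 910 (Pf.C 1 0x5091008086))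
 (Pq.cons (Pq.L [1,2] 910 (Pf.C 1 0x5091008086))
 (Pq.cons (Pq.L [1,2] 910 (Pf.C 1 0x5091008086))
 (Pq.cons (Pq.L [1,4] 910 (Pf.C 1 0x5091010086))
 (Pq.cons (Pq.L [2,4] 910 (Pf.C 1 0x5091010106))
 (Pq.cons (Pq.L [1,2] 910 (Pf.C 1 0x5091008086))
 Pq.nil)))))))) (Pq.cons (Pq.L [4,5] 1023 (Pf.B 10 4 (Pf.C 1 0x409141c304) (Pf.B 10 5 (Pf.C 1 0x284141c308) (Pf.C 0 0x1214504))))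
 (Pq.cons (Pq.L [4,5] 1023 (Pf.B 10 5 (Pf.C 1 0x409141c305) (Pf.B 10 4 (Pf.C 1 0x205141c308) (Pf.C 0 0x1210505))))
 (Pq.cons (Pq.L [3,4,5] 1023 (Pf.B 10 5 (Pf.C 1 0x409141c305) (Pf.B 10 4 (Pf.C 1 0x409141c304) (Pf.B 10 3 (Pf.C 0 0x61420a) (Pf.C 0 0x102418a)))))
 (Pq.cons (Pq.L [2,3,4,5] 1023 (Pf.B 10 5 (Pf.C 1 0x409141c305) (Pf.B 10 4 (Pf.C 1 0x409141c304) (Pf.B 10 3 (Pf.C 0 0x61420a) (Pf.B 10 2 (Pf.C 0 0x41018a) (Pf.C 0 0x1208503))))))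
 (Pq.cons (Pq.L [1,2,3,4,5] 1023 (Pf.B 10 5 (Pf.C 1 0x409141c305) (Pf.B 10 4 (Pf.C 1 0x409141c304) (Pf.B 10 3 (Pf.C 0 0x61420a) (Pf.B 10 2 (Pf.C 0 0x41018a) (Pf.B 10 1 (Pf.C 0 0x20c10a) (Pf.C 0 0x1204502)))))))
 (Pq.cons (Pq.L [0,1,2,3,4,5] 1023 (Pf.B 10 5 (Pf.C 1 0x409141c305) (Pf.B 10 4 (Pf.C 1 0x409141c304) (Pf.B 10 3 (Pf.C 0 0x61420a) (Pf.B 10 2 (Pf.C 0 0x41018a) (Pf.B 10 1 (Pf.C 0 0x20c10a) (Pf.B 10 0 (Pf.C 0 32906) (Pf.C 0 0x1200501))))))))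
 Pq.nil)))))))) (Pq.cons (Pq.D 3 (Pq.cons (Pq.D 4 (Pq.cons (Pq.L [1,3] 910 (Pf.C 1 0x509100c086))
 (Pq.cons (Pq.L [1,3] 910 (Pf.C 1 0x509100c086))
 (Pq.cons (Pq.L [1,3] 910 (Pf.C 1 0x509100c086))
 (Pq.cons (Pq.L [1,4] 910 (Pf.C 1 0x5091010086))
 (Pq.cons (Pq.L [1,3] 910 (Pf.C 1 0x509100c086))
 (Pq.cons (Pq.L [3,4] 910 (Pf.C 1 0x5091010186))
 (Pq.cons (Pq.L [1,3] 910 (Pf.C 1 0x509100c086))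
 Pq.nil)))))))) (Pq.cons (Pq.L [4,5] 1023 (Pf.B 10 4 (Pf.C 1 0x409141c304) (Pf.B 10 5 (Pf.C 1 0x284141c308) (Pf.C 0 0x1214504))))
 (Pq.cons (Pq.L [4,5] 1023 (Pf.B 10 5 (Pf.C 1 0x409141c305) (Pf.B 10 4 (Pf.C 1 0x205141c308) (Pf.C 0 0x1210505))))
 (Pq.cons (Pq.L [3,4,5] 1023 (Pf.B 10 5 (Pf.C 1 0x409141c305) (Pf.B 10 4 (Pf.C 1 0x409141c304) (Pf.B 10 3 (Pf.C 0 0x61420a) (Pf.C 0 0x120c504)))))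
 (Pq.cons (Pq.L [2,3,4,5] 1023 (Pf.B 10 5 (Pf.C 1 0x409141c305) (Pf.B 10 4 (Pf.C 1 0x409141c304) (Pf.B 10 3 (Pf.C 0 0x61420a) (Pf.B 10 2 (Pf.C 0 0x41018a) (Pf.C 0 0x102410a))))))
 (Pq.cons (Pq.L [1,2,3,4,5] 1023 (Pf.B 10 5 (Pf.C 1 0x409141c305) (Pf.B 10 4 (Pf.C 1 0x409141c304) (Pf.B 10 3 (Pf.C 0 0x61420a) (Pf.B 10 2 (Pf.C 0 0x41018a) (Pf.B 10 1 (Pf.C 0 0x20c10a) (Pf.C 0 0x1204502)))))))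
 (Pq.cons (Pq.L [0,1,2,3,4,5] 1023 (Pf.B 10 5 (Pf.C 1 0x409141c305) (Pf.B 10 4 (Pf.C 1 0x409141c304) (Pf.B 10 3 (Pf.C 0 0x61420a) (Pf.B 10 2 (Pf.C 0 0x41018a) (Pf.B 10 1 (Pf.C 0 0x20c10a) (Pf.B 10 0 (Pf.C 0 32906) (Pf.C 0 0x1200501))))))))
 Pq.nil)))))))) (Pq.cons (Pq.D 3 (Pq.cons (Pq.D 4 (Pq.cons (Pq.L [2,3] 910 (Pf.C 1 0x509100c106))
 (Pq.cons (Pq.L [2,3] 910 (Pf.C 1 0x509100c106))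
 (Pq.cons (Pq.L [2,3] 910 (Pf.C 1 0x509100c106))
 (Pq.cons (Pq.L [2,4] 910 (Pf.C 1 0x5091010106))
 (Pq.cons (Pq.L [3,4] 910 (Pf.C 1 0x5091010186))
 (Pq.cons (Pq.L [2,3] 910 (Pf.C 1 0x509100c106))
 (Pq.cons (Pq.L [2,3] 910 (Pf.C 1 0x509100c106))
 Pq.nil)))))))) (Pq.cons (Pq.L [4,5] 1023 (Pf.B 10 4 (Pf.C 1 0x409141c304) (Pf.B 10 5 (Pf.C 1 0x284141c308) (Pf.C 0 0x1214504))))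
 (Pq.cons (Pq.L [4,5] 1023 (Pf.B 10 5 (Pf.C 1 0x409141c305) (Pf.B 10 4 (Pf.C 1 0x205141c308) (Pf.C 0 0x1210505))))
 (Pq.cons (Pq.L [3,4,5] 1023 (Pf.B 10 5 (Pf.C 1 0x409141c305) (Pf.B 10 4 (Pf.C 1 0x409141c304) (Pf.B 10 3 (Pf.C 0 0x61420a) (Pf.C 0 0x120c504)))))
 (Pq.cons (Pq.L [2,3,4,5] 1023 (Pf.B 10 5 (Pf.C 1 0x409141c305) (Pf.B 10 4 (Pf.C 1 0x409141c304) (Pf.B 10 3 (Pf.C 0 0x61420a) (Pf.B 10 2 (Pf.C 0 0x41018a) (Pf.C 0 0x1208503))))))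
 (Pq.cons (Pq.L [1,2,3,4,5] 1023 (Pf.B 10 5 (Pf.C 1 0x409141c305) (Pf.B 10 4 (Pf.C 1 0x409141c304) (Pf.B 10 3 (Pf.C 0 0x61420a) (Pf.B 10 2 (Pf.C 0 0x41018a) (Pf.B 10 1 (Pf.C 0 0x20c10a) (Pf.C 0 0x102408a)))))))
 (Pq.cons (Pq.L [0,1,2,3,4,5] 1023 (Pf.B 10 5 (Pf.C 1 0x409141c305) (Pf.B 10 4 (Pf.C 1 0x409141c304) (Pf.B 10 3 (Pf.C 0 0x61420a) (Pf.B 10 2 (Pf.C 0 0x41018a) (Pf.B 10 1 (Pf.C 0 0x20c10a) (Pf.B 10 0 (Pf.C 0 32906) (Pf.C 0 0x1200501))))))))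
 Pq.nil)))))))) (Pq.cons (Pq.D 3 (Pq.cons (Pq.D 4 (Pq.cons (Pq.L [1,2] 910 (Pf.C 1 0x5091008086))
 (Pq.cons (Pq.L [1,2] 910 (Pf.C 1 0x5091008086))
 (Pq.cons (Pq.L [1,2] 910 (Pf.C 1 0x5091008086))
 (Pq.cons (Pq.L [1,2] 910 (Pf.C 1 0x5091008086))
 (Pq.cons (Pq.L [1,3] 910 (Pf.C 1 0x509100c086))
 (Pq.cons (Pq.L [2,3] 910 (Pf.C 1 0x509100c106))
 (Pq.cons (Pq.L [1,2] 910 (Pf.C 1 0x5091008086))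
 Pq.nil)))))))) (Pq.cons (Pq.L [4,5] 1023 (Pf.B 10 4 (Pf.C 1 0x409141c304) (Pf.B 10 5 (Pf.C 1 0x284141c308) (Pf.C 0 0x1214504))))
 (Pq.cons (Pq.L [4,5] 1023 (Pf.B 10 5 (Pf.C 1 0x409141c305) (Pf.B 10 4 (Pf.C 1 0x205141c308) (Pf.C 0 0x1210505))))
 (Pq.cons (Pq.L [3,4,5] 1023 (Pf.B 10 5 (Pf.C 1 0x409141c305) (Pf.B 10 4 (Pf.C 1 0x409141c304) (Pf.B 10 3 (Pf.C 0 0x61420a) (Pf.C 0 0x120c504)))))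
 (Pq.cons (Pq.L [2,3,4,5] 1023 (Pf.B 10 5 (Pf.C 1 0x409141c305) (Pf.B 10 4 (Pf.C 1 0x409141c304) (Pf.B 10 3 (Pf.C 0 0x61420a) (Pf.B 10 2 (Pf.C 0 0x41018a) (Pf.C 0 0x1208503))))))
 (Pq.cons (Pq.L [1,2,3,4,5] 1023 (Pf.B 10 5 (Pf.C 1 0x409141c305) (Pf.B 10 4 (Pf.C 1 0x409141c304) (Pf.B 10 3 (Pf.C 0 0x61420a) (Pf.B 10 2 (Pf.C 0 0x41018a) (Pf.B 10 1 (Pf.C 0 0x20c10a) (Pf.C 0 0x1204502)))))))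
 (Pq.cons (Pq.L [0,1,2,3,4,5] 1023 (Pf.B 10 5 (Pf.C 1 0x409141c305) (Pf.B 10 4 (Pf.C 1 0x409141c304) (Pf.B 10 3 (Pf.C 0 0x61420a) (Pf.B 10 2 (Pf.C 0 0x41018a) (Pf.B 10 1 (Pf.C 0 0x20c10a) (Pf.B 10 0 (Pf.C 0 32906) (Pf.C 0 0x102400a))))))))
 Pq.nil)))))))) Pq.nil)))))))) (Pq.cons (Pq.D 2 (Pq.cons (Pq.D 3 (Pq.cons (Pq.D 4 (Pq.cons (Pq.L [1,2] 910 (Pf.C 1 0x5091008086))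
 (Pq.cons (Pq.L [1,2] 910 (Pf.C 1 0x5091008086))
 (Pq.cons (Pq.L [1,2] 910 (Pf.C 1 0x5091008086))
 (Pq.cons (Pq.L [1,2] 910 (Pf.C 1 0x5091008086))
 (Pq.cons (Pq.L [1,3] 910 (Pf.C 1 0x509100c086))
 (Pq.cons (Pq.L [2,3] 910 (Pf.C 1 0x509100c106))
 (Pq.cons (Pq.L [1,2] 910 (Pf.C 1 0x5091008086))
 Pq.nil)))))))) (Pq.cons (Pq.L [4,5] 1023 (Pf.B 10 4 (Pf.C 1 0x409141c304) (Pf.B 10 5 (Pf.C 1 0x284141c308) (Pf.C 0 0x1214504))))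
 (Pq.cons (Pq.L [4,5] 1023 (Pf.B 10 5 (Pf.C 1 0x409141c305) (Pf.B 10 4 (Pf.C 1 0x205141c308) (Pf.C 0 0x1210505))))
 (Pq.cons (Pq.L [3,4,5] 1023 (Pf.B 10 5 (Pf.C 1 0x409141c305) (Pf.B 10 4 (Pf.C 1 0x409141c304) (Pf.B 10 3 (Pf.C 0 0x61420a) (Pf.C 0 0x120c504)))))
 (Pq.cons (Pq.L [2,3,4,5] 1023 (Pf.B 10 5 (Pf.C 1 0x409141c305) (Pf.B 10 4 (Pf.C 1 0x409141c304) (Pf.B 10 3 (Pf.C 0 0x61420a) (Pf.B 10 2 (Pf.C 0 0x41018a) (Pf.C 0 0x1208503))))))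
 (Pq.cons (Pq.L [1,2,3,4,5] 1023 (Pf.B 10 5 (Pf.C 1 0x409141c305) (Pf.B 10 4 (Pf.C 1 0x409141c304) (Pf.B 10 3 (Pf.C 0 0x61420a) (Pf.B 10 2 (Pf.C 0 0x41018a) (Pf.B 10 1 (Pf.C 0 0x20c10a) (Pf.C 0 0x1204502)))))))
 (Pq.cons (Pq.L [0,1,2,3,4,5] 1023 (Pf.B 10 5 (Pf.C 1 0x409141c305) (Pf.B 10 4 (Pf.C 1 0x409141c304) (Pf.B 10 3 (Pf.C 0 0x61420a) (Pf.B 10 2 (Pf.C 0 0x41018a) (Pf.B 10 1 (Pf.C 0 0x20c10a) (Pf.B 10 0 (Pf.C 0 32906) (Pf.C 0 0x1200501))))))))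
 Pq.nil)))))))) (Pq.cons (Pq.D 3 (Pq.cons (Pq.D 4 (Pq.cons (Pq.L [1,2] 910 (Pf.C 1 0x5091008086))
 (Pq.cons (Pq.L [1,2] 910 (Pf.C 1 0x5091008086))
 (Pq.cons (Pq.L [1,2] 910 (Pf.C 1 0x5091008086))
 (Pq.cons (Pq.L [1,2] 910 (Pf.C 1 0x5091008086))
 (Pq.cons (Pq.L [1,3] 910 (Pf.C 1 0x509100c086))
 (Pq.cons (Pq.L [2,3] 910 (Pf.C 1 0x509100c106))
 (Pq.cons (Pq.L [1,2] 910 (Pf.C 1 0x5091008086))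
 Pq.nil)))))))) (Pq.cons (Pq.L [3,4,5] 987 (Pf.B 10 5 (Pf.B 10 4 (Pf.C 1 0x405081c30a) (Pf.B 10 3 (Pf.C 1 0x405061c30a) (Pf.C 0 0xa1018a))) (Pf.C 0 0x102428a)))
 (Pq.cons (Pq.L [3,4] 1023 (Pf.B 10 3 (Pf.C 1 0x409141c303) (Pf.B 10 4 (Pf.C 1 0x203141c308) (Pf.C 0 0x1210503))))
 (Pq.cons (Pq.L [3,4] 1023 (Pf.B 10 4 (Pf.C 1 0x409141c304) (Pf.B 10 3 (Pf.C 1 0x184141c308) (Pf.C 0 0x120c504))))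
 (Pq.cons (Pq.L [2,3,4] 1023 (Pf.B 10 4 (Pf.C 1 0x409141c304) (Pf.B 10 3 (Pf.C 1 0x409141c303) (Pf.B 10 2 (Pf.C 0 0x41018a) (Pf.C 0 0x1208503)))))
 (Pq.cons (Pq.L [1,2,3,4] 1023 (Pf.B 10 4 (Pf.C 1 0x409141c304) (Pf.B 10 3 (Pf.C 1 0x409141c303) (Pf.B 10 2 (Pf.C 0 0x41018a) (Pf.B 10 1 (Pf.C 0 0x20c10a) (Pf.C 0 0x1204502))))))
 (Pq.cons (Pq.L [0,1,2,3,4] 1023 (Pf.B 10 4 (Pf.C 1 0x409141c304) (Pf.B 10 3 (Pf.C 1 0x409141c303) (Pf.B 10 2 (Pf.C 0 0x41018a) (Pf.B 10 1 (Pf.C 0 0x20c10a) (Pf.B 10 0 (Pf.C 0 32906) (Pf.C 0 0x1200501)))))))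
 Pq.nil)))))))) (Pq.cons (Pq.D 3 (Pq.cons (Pq.D 4 (Pq.cons (Pq.L [1,2] 910 (Pf.C 1 0x5091008086))
 (Pq.cons (Pq.L [1,2] 910 (Pf.C 1 0x5091008086))
 (Pq.cons (Pq.L [1,2] 910 (Pf.C 1 0x5091008086))
 (Pq.cons (Pq.L [1,2] 910 (Pf.C 1 0x5091008086))
 (Pq.cons (Pq.L [1,3] 910 (Pf.C 1 0x509100c086))
 (Pq.cons (Pq.L [2,3] 910 (Pf.C 1 0x509100c106))
 (Pq.cons (Pq.L [1,2] 910 (Pf.C 1 0x5091008086))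
 Pq.nil)))))))) (Pq.cons (Pq.L [3,5] 1023 (Pf.B 10 3 (Pf.C 1 0x409141c303) (Pf.B 10 5 (Pf.C 1 0x283141c308) (Pf.C 0 0x1214503))))
 (Pq.cons (Pq.L [3,4,5] 1023 (Pf.B 10 5 (Pf.C 1 0x409141c305) (Pf.B 10 4 (Pf.B 10 3 (Pf.C 1 0x404061c30a) (Pf.C 0 0x81418a)) (Pf.C 0 0x102420a))))
 (Pq.cons (Pq.L [3,5] 1023 (Pf.B 10 5 (Pf.C 1 0x409141c305) (Pf.B 10 3 (Pf.C 1 0x185141c308) (Pf.C 0 0x120c505))))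
 (Pq.cons (Pq.L [2,3,4,5] 1023 (Pf.B 10 5 (Pf.C 1 0x409141c305) (Pf.B 10 3 (Pf.C 1 0x409141c303) (Pf.B 10 4 (Pf.C 0 0x81418a) (Pf.B 10 2 (Pf.C 0 0x41018a) (Pf.C 0 0x1208503))))))
 (Pq.cons (Pq.L [1,2,3,4,5] 1023 (Pf.B 10 5 (Pf.C 1 0x409141c305) (Pf.B 10 3 (Pf.C 1 0x409141c303) (Pf.B 10 4 (Pf.C 0 0x81418a) (Pf.B 10 2 (Pf.C 0 0x41018a) (Pf.B 10 1 (Pf.C 0 0x20c10a) (Pf.C 0 0x1204502)))))))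
 (Pq.cons (Pq.L [0,1,2,3,4,5] 1023 (Pf.B 10 5 (Pf.C 1 0x409141c305) (Pf.B 10 3 (Pf.C 1 0x409141c303) (Pf.B 10 4 (Pf.C 0 0x81418a) (Pf.B 10 2 (Pf.C 0 0x41018a) (Pf.B 10 1 (Pf.C 0 0x20c10a) (Pf.B 10 0 (Pf.C 0 32906) (Pf.C 0 0x1200501))))))))
 Pq.nil)))))))) (Pq.cons (Pq.D 3 (Pq.cons (Pq.D 4 (Pq.cons (Pq.L [1,2] 910 (Pf.C 1 0x5091008086))
 (Pq.cons (Pq.L [1,2] 910 (Pf.C 1 0x5091008086))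
 (Pq.cons (Pq.L [1,2] 910 (Pf.C 1 0x5091008086))
 (Pq.cons (Pq.L [1,2] 910 (Pf.C 1 0x5091008086))
 (Pq.cons (Pq.L [1,4] 910 (Pf.C 1 0x5091010086))
 (Pq.cons (Pq.L [2,4] 910 (Pf.C 1 0x5091010106))
 (Pq.cons (Pq.L [1,2] 910 (Pf.C 1 0x5091008086))
 Pq.nil)))))))) (Pq.cons (Pq.L [4,5] 1023 (Pf.B 10 4 (Pf.C 1 0x409141c304) (Pf.B 10 5 (Pf.C 1 0x284141c308) (Pf.C 0 0x1214504))))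
 (Pq.cons (Pq.L [4,5] 1023 (Pf.B 10 5 (Pf.C 1 0x409141c305) (Pf.B 10 4 (Pf.C 1 0x205141c308) (Pf.C 0 0x1210505))))
 (Pq.cons (Pq.L [3,4,5] 1023 (Pf.B 10 5 (Pf.C 1 0x409141c305) (Pf.B 10 4 (Pf.C 1 0x409141c304) (Pf.B 10 3 (Pf.C 0 0x61420a) (Pf.C 0 0x102418a)))))
 (Pq.cons (Pq.L [2,3,4,5] 1023 (Pf.B 10 5 (Pf.C 1 0x409141c305) (Pf.B 10 4 (Pf.C 1 0x409141c304) (Pf.B 10 3 (Pf.C 0 0x61420a) (Pf.B 10 2 (Pf.C 0 0x41018a) (Pf.C 0 0x1208503))))))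
 (Pq.cons (Pq.L [1,2,3,4,5] 1023 (Pf.B 10 5 (Pf.C 1 0x409141c305) (Pf.B 10 4 (Pf.C 1 0x409141c304) (Pf.B 10 3 (Pf.C 0 0x61420a) (Pf.B 10 2 (Pf.C 0 0x41018a) (Pf.B 10 1 (Pf.C 0 0x20c10a) (Pf.C 0 0x1204502)))))))
 (Pq.cons (Pq.L [0,1,2,3,4,5] 1023 (Pf.B 10 5 (Pf.C 1 0x409141c305) (Pf.B 10 4 (Pf.C 1 0x409141c304) (Pf.B 10 3 (Pf.C 0 0x61420a) (Pf.B 10 2 (Pf.C 0 0x41018a) (Pf.B 10 1 (Pf.C 0 0x20c10a) (Pf.B 10 0 (Pf.C 0 32906) (Pf.C 0 0x1200501))))))))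
 Pq.nil)))))))) (Pq.cons (Pq.D 3 (Pq.cons (Pq.D 4 (Pq.cons (Pq.L [1,3] 910 (Pf.C 1 0x509100c086))
 (Pq.cons (Pq.L [1,3] 910 (Pf.C 1 0x509100c086))
 (Pq.cons (Pq.L [1,3] 910 (Pf.C 1 0x509100c086))
 (Pq.cons (Pq.L [1,4] 910 (Pf.C 1 0x5091010086))
 (Pq.cons (Pq.L [1,3] 910 (Pf.C 1 0x509100c086))
 (Pq.cons (Pq.L [3,4] 910 (Pf.C 1 0x5091010186))
 (Pq.cons (Pq.L [1,3] 910 (Pf.C 1 0x509100c086))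
 Pq.nil)))))))) (Pq.cons (Pq.L [4,5] 1023 (Pf.B 10 4 (Pf.C 1 0x409141c304) (Pf.B 10 5 (Pf.C 1 0x284141c308) (Pf.C 0 0x1214504))))
 (Pq.cons (Pq.L [4,5] 1023 (Pf.B 10 5 (Pf.C 1 0x409141c305) (Pf.B 10 4 (Pf.C 1 0x205141c308) (Pf.C 0 0x1210505))))
 (Pq.cons (Pq.L [3,4,5] 1023 (Pf.B 10 5 (Pf.C 1 0x409141c305) (Pf.B 10 4 (Pf.C 1 0x409141c304) (Pf.B 10 3 (Pf.C 0 0x61420a) (Pf.C 0 0x120c504)))))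
 (Pq.cons (Pq.L [2,3,4,5] 1023 (Pf.B 10 5 (Pf.C 1 0x409141c305) (Pf.B 10 4 (Pf.C 1 0x409141c304) (Pf.B 10 3 (Pf.C 0 0x61420a) (Pf.B 10 2 (Pf.C 0 0x41018a) (Pf.C 0 0x102410a))))))
 (Pq.cons (Pq.L [1,2,3,4,5] 1023 (Pf.B 10 5 (Pf.C 1 0x409141c305) (Pf.B 10 4 (Pf.C 1 0x409141c304) (Pf.B 10 3 (Pf.C 0 0x61420a) (Pf.B 10 2 (Pf.C 0 0x41018a) (Pf.B 10 1 (Pf.C 0 0x20c10a) (Pf.C 0 0x1204502)))))))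
 (Pq.cons (Pq.L [0,1,2,3,4,5] 1023 (Pf.B 10 5 (Pf.C 1 0x409141c305) (Pf.B 10 4 (Pf.C 1 0x409141c304) (Pf.B 10 3 (Pf.C 0 0x61420a) (Pf.B 10 2 (Pf.C 0 0x41018a) (Pf.B 10 1 (Pf.C 0 0x20c10a) (Pf.B 10 0 (Pf.C 0 32906) (Pf.C 0 0x1200501))))))))
 Pq.nil)))))))) (Pq.cons (Pq.D 3 (Pq.cons (Pq.D 4 (Pq.cons (Pq.L [2,3] 910 (Pf.C 1 0x509100c106))
 (Pq.cons (Pq.L [2,3] 910 (Pf.C 1 0x509100c106))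
 (Pq.cons (Pq.L [2,3] 910 (Pf.C 1 0x509100c106))
 (Pq.cons (Pq.L [2,4] 910 (Pf.C 1 0x5091010106))
 (Pq.cons (Pq.L [3,4] 910 (Pf.C 1 0x5091010186))
 (Pq.cons (Pq.L [2,3] 910 (Pf.C 1 0x509100c106))
 (Pq.cons (Pq.L [2,3] 910 (Pf.C 1 0x509100c106))
 Pq.nil)))))))) (Pq.cons (Pq.L [4,5] 1023 (Pf.B 10 4 (Pf.C 1 0x409141c304) (Pf.B 10 5 (Pf.C 1 0x284141c308) (Pf.C 0 0x1214504))))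
 (Pq.cons (Pq.L [4,5] 1023 (Pf.B 10 5 (Pf.C 1 0x409141c305) (Pf.B 10 4 (Pf.C 1 0x205141c308) (Pf.C 0 0x1210505))))
 (Pq.cons (Pq.L [3,4,5] 1023 (Pf.B 10 5 (Pf.C 1 0x409141c305) (Pf.B 10 4 (Pf.C 1 0x409141c304) (Pf.B 10 3 (Pf.C 0 0x61420a) (Pf.C 0 0x120c504)))))
 (Pq.cons (Pq.L [2,3,4,5] 1023 (Pf.B 10 5 (Pf.C 1 0x409141c305) (Pf.B 10 4 (Pf.C 1 0x409141c304) (Pf.B 10 3 (Pf.C 0 0x61420a) (Pf.B 10 2 (Pf.C 0 0x41018a) (Pf.C 0 0x1208503))))))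
 (Pq.cons (Pq.L [1,2,3,4,5] 1023 (Pf.B 10 5 (Pf.C 1 0x409141c305) (Pf.B 10 4 (Pf.C 1 0x409141c304) (Pf.B 10 3 (Pf.C 0 0x61420a) (Pf.B 10 2 (Pf.C 0 0x41018a) (Pf.B 10 1 (Pf.C 0 0x20c10a) (Pf.C 0 0x102408a)))))))
 (Pq.cons (Pq.L [0,1,2,3,4,5] 1023 (Pf.B 10 5 (Pf.C 1 0x409141c305) (Pf.B 10 4 (Pf.C 1 0x409141c304) (Pf.B 10 3 (Pf.C 0 0x61420a) (Pf.B 10 2 (Pf.C 0 0x41018a) (Pf.B 10 1 (Pf.C 0 0x20c10a) (Pf.B 10 0 (Pf.C 0 32906) (Pf.C 0 0x1200501))))))))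
 Pq.nil)))))))) (Pq.cons (Pq.D 3 (Pq.cons (Pq.D 4 (Pq.cons (Pq.L [1,2] 910 (Pf.C 1 0x5091008086))
 (Pq.cons (Pq.L [1,2] 910 (Pf.C 1 0x5091008086))
 (Pq.cons (Pq.L [1,2] 910 (Pf.C 1 0x5091008086))
 (Pq.cons (Pq.L [1,2] 910 (Pf.C 1 0x5091008086))
 (Pq.cons (Pq.L [1,3] 910 (Pf.C 1 0x509100c086))
 (Pq.cons (Pq.L [2,3] 910 (Pf.C 1 0x509100c106))
 (Pq.cons (Pq.L [1,2] 910 (Pf.C 1 0x5091008086))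
 Pq.nil)))))))) (Pq.cons (Pq.L [4,5] 1023 (Pf.B 10 4 (Pf.C 1 0x409141c304) (Pf.B 10 5 (Pf.C 1 0x284141c308) (Pf.C 0 0x1214504))))
 (Pq.cons (Pq.L [4,5] 1023 (Pf.B 10 5 (Pf.C 1 0x409141c305) (Pf.B 10 4 (Pf.C 1 0x205141c308) (Pf.C 0 0x1210505))))
 (Pq.cons (Pq.L [3,4,5] 1023 (Pf.B 10 5 (Pf.C 1 0x409141c305) (Pf.B 10 4 (Pf.C 1 0x409141c304) (Pf.B 10 3 (Pf.C 0 0x61420a) (Pf.C 0 0x120c504)))))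
 (Pq.cons (Pq.L [2,3,4,5] 1023 (Pf.B 10 5 (Pf.C 1 0x409141c305) (Pf.B 10 4 (Pf.C 1 0x409141c304) (Pf.B 10 3 (Pf.C 0 0x61420a) (Pf.B 10 2 (Pf.C 0 0x41018a) (Pf.C 0 0x1208503))))))
 (Pq.cons (Pq.L [1,2,3,4,5] 1023 (Pf.B 10 5 (Pf.C 1 0x409141c305) (Pf.B 10 4 (Pf.C 1 0x409141c304) (Pf.B 10 3 (Pf.C 0 0x61420a) (Pf.B 10 2 (Pf.C 0 0x41018a) (Pf.B 10 1 (Pf.C 0 0x20c10a) (Pf.C 0 0x1204502)))))))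
 (Pq.cons (Pq.L [0,1,2,3,4,5] 1023 (Pf.B 10 5 (Pf.C 1 0x409141c305) (Pf.B 10 4 (Pf.C 1 0x409141c304) (Pf.B 10 3 (Pf.C 0 0x61420a) (Pf.B 10 2 (Pf.C 0 0x41018a) (Pf.B 10 1 (Pf.C 0 0x20c10a) (Pf.B 10 0 (Pf.C 0 32906) (Pf.C 0 0x102400a))))))))
 Pq.nil)))))))) Pq.nil)))))))) Pq.nil)))
theorem e_o24 : AllRef e_T e_G4 (List.drop 1 (List.drop 3 (List.flatMap (splitP 1) (List.drop 1 (List.drop 1 (List.drop 1 (List.drop 3 (List.flatMap (splitP 0) [⟨[[5,6,7,8,9,10,11],[5,6,7,8,9,10,11],[5,6,7,8,9,10,11],[5,6,7,8,9,10,11],[5,6,7,8,9,10,11]],[⟨0,1,true⟩,⟨0,2,false⟩,⟨0,3,false⟩,⟨0,4,false⟩,⟨1,2,false⟩,⟨1,3,false⟩,⟨1,4,false⟩,⟨2,3,true⟩,⟨2,4,false⟩,⟨3,4,true⟩],[],[]⟩])))))))) :=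
  chkPq_sound e_o24c _ (by decide +kernel)
noncomputable def e_o25c : Pq := (Pq.cons (Pq.L [] 63 (Pf.C 0 0x1220386))
 (Pq.cons (Pq.L [] 32767 (Pf.C 1 0x58a1220386))
 (Pq.cons (Pq.L [0,1] 1 (Pf.C 0 0xe04006))
 (Pq.cons (Pq.D 0 (Pq.cons (Pq.L [0,1] 3 (Pf.B 8 7 (Pf.C 0 0xe04008) (Pf.C 0 0xc1c400)))
 (Pq.cons (Pq.L [0,5] 1 (Pf.C 0 0x1c286))
 (Pq.cons (Pq.L [0,4] 1 (Pf.C 0 0x1c206))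
 (Pq.cons (Pq.L [0,3] 1 (Pf.C 0 0x1c186))
 (Pq.cons (Pq.L [0,2] 1 (Pf.C 0 0x1c106))
 (Pq.cons (Pq.L [0,1] 1 (Pf.C 0 0x1c086))
 (Pq.cons (Pq.L [0,1] 1 (Pf.C 0 0x21c006))
 Pq.nil)))))))) Pq.nil))))
theorem e_o25 : AllRef e_T e_G4 (List.take 4 (applyObl e1_T 5 [5,6,7,8,9,10,11,12] [1,1,1,1,1,1,1,2] [])) :=
  chkPq_sound e_o25c _ (by decide +kernel)
noncomputable def e_o26c : Pq := (Pq.cons (Pq.D 1 (Pq.cons (Pq.D 2 (Pq.cons (Pq.D 3 (Pq.cons (Pq.L [0,1] 63 (Pf.C 1 0x4060e04009))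
 (Pq.cons (Pq.L [0,1] 63 (Pf.C 1 0x4060e04009))
 (Pq.cons (Pq.L [0,1] 63 (Pf.C 1 0x4060e04009))
 (Pq.cons (Pq.L [0,1] 63 (Pf.C 1 0x4060e04009))
 (Pq.cons (Pq.L [0,1] 63 (Pf.C 1 0x4060e04009))
 (Pq.cons (Pq.L [0,2] 63 (Pf.C 1 0x4060e08009))
 (Pq.cons (Pq.L [1,2] 63 (Pf.C 1 0x4060e08089))
 Pq.nil)))))))) (Pq.cons (Pq.D 3 (Pq.cons (Pq.L [0,1] 63 (Pf.C 1 0x4060e04009))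
 (Pq.cons (Pq.L [0,1] 63 (Pf.C 1 0x4060e04009))
 (Pq.cons (Pq.L [0,1] 63 (Pf.C 1 0x4060e04009))
 (Pq.cons (Pq.L [0,1] 63 (Pf.C 1 0x4060e04009))
 (Pq.cons (Pq.L [0,1] 63 (Pf.C 1 0x4060e04009))
 (Pq.cons (Pq.L [0,2] 63 (Pf.C 1 0x4060e08009))
 (Pq.cons (Pq.L [1,2] 63 (Pf.C 1 0x4060e08089))
 Pq.nil)))))))) (Pq.cons (Pq.D 3 (Pq.cons (Pq.L [0,1] 63 (Pf.C 1 0x4060e04009))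
 (Pq.cons (Pq.L [0,1] 63 (Pf.C 1 0x4060e04009))
 (Pq.cons (Pq.L [0,1] 63 (Pf.C 1 0x4060e04009))
 (Pq.cons (Pq.L [0,1] 63 (Pf.C 1 0x4060e04009))
 (Pq.cons (Pq.L [0,1] 63 (Pf.C 1 0x4060e04009))
 (Pq.cons (Pq.L [0,2] 63 (Pf.C 1 0x4060e08009))
 (Pq.cons (Pq.L [1,2] 63 (Pf.C 1 0x4060e08089))
 Pq.nil)))))))) (Pq.cons (Pq.D 3 (Pq.cons (Pq.L [0,1] 63 (Pf.C 1 0x4060e04009))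
 (Pq.cons (Pq.L [0,1] 63 (Pf.C 1 0x4060e04009))
 (Pq.cons (Pq.L [0,1] 63 (Pf.C 1 0x4060e04009))
 (Pq.cons (Pq.L [0,1] 63 (Pf.C 1 0x4060e04009))
 (Pq.cons (Pq.L [0,1] 63 (Pf.C 1 0x4060e04009))
 (Pq.cons (Pq.L [0,2] 63 (Pf.C 1 0x4060e08009))
 (Pq.cons (Pq.L [1,2] 63 (Pf.C 1 0x4060e08089))
 Pq.nil)))))))) (Pq.cons (Pq.D 3 (Pq.cons (Pq.L [0,1] 63 (Pf.C 1 0x4060e04009))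
 (Pq.cons (Pq.L [0,1] 63 (Pf.C 1 0x4060e04009))
 (Pq.cons (Pq.L [0,1] 63 (Pf.C 1 0x4060e04009))
 (Pq.cons (Pq.L [0,1] 63 (Pf.C 1 0x4060e04009))
 (Pq.cons (Pq.L [0,1] 63 (Pf.C 1 0x4060e04009))
 (Pq.cons (Pq.L [0,3] 63 (Pf.C 1 0x4060e0c009))
 (Pq.cons (Pq.L [1,3] 63 (Pf.C 1 0x4060e0c089))
 Pq.nil)))))))) (Pq.cons (Pq.D 3 (Pq.cons (Pq.L [0,2] 63 (Pf.C 1 0x4060e08009))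
 (Pq.cons (Pq.L [0,2] 63 (Pf.C 1 0x4060e08009))
 (Pq.cons (Pq.L [0,2] 63 (Pf.C 1 0x4060e08009))
 (Pq.cons (Pq.L [0,2] 63 (Pf.C 1 0x4060e08009))
 (Pq.cons (Pq.L [0,3] 63 (Pf.C 1 0x4060e0c009))
 (Pq.cons (Pq.L [0,2] 63 (Pf.C 1 0x4060e08009))
 (Pq.cons (Pq.L [2,3] 63 (Pf.C 1 0x4060e0c109))
 Pq.nil)))))))) (Pq.cons (Pq.D 3 (Pq.cons (Pq.L [1,2] 63 (Pf.C 1 0x4060e08089))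
 (Pq.cons (Pq.L [1,2] 63 (Pf.C 1 0x4060e08089))
 (Pq.cons (Pq.L [1,2] 63 (Pf.C 1 0x4060e08089))
 (Pq.cons (Pq.L [1,2] 63 (Pf.C 1 0x4060e08089))
 (Pq.cons (Pq.L [1,3] 63 (Pf.C 1 0x4060e0c089))
 (Pq.cons (Pq.L [2,3] 63 (Pf.C 1 0x4060e0c109))
 (Pq.cons (Pq.L [1,2] 63 (Pf.C 1 0x4060e08089))
 Pq.nil)))))))) Pq.nil)))))))) (Pq.cons (Pq.D 2 (Pq.cons (Pq.D 3 (Pq.cons (Pq.L [0,1] 63 (Pf.C 1 0x4060e04009))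
 (Pq.cons (Pq.L [0,1] 63 (Pf.C 1 0x4060e04009))
 (Pq.cons (Pq.L [0,1] 63 (Pf.C 1 0x4060e04009))
 (Pq.cons (Pq.L [0,1] 63 (Pf.C 1 0x4060e04009))
 (Pq.cons (Pq.L [0,1] 63 (Pf.C 1 0x4060e04009))
 (Pq.cons (Pq.L [0,2] 63 (Pf.C 1 0x4060e08009))
 (Pq.cons (Pq.L [1,2] 63 (Pf.C 1 0x4060e08089))
 Pq.nil)))))))) (Pq.cons (Pq.D 3 (Pq.cons (Pq.L [0,1] 63 (Pf.C 1 0x4060e04009))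
 (Pq.cons (Pq.L [0,1] 63 (Pf.C 1 0x4060e04009))
 (Pq.cons (Pq.L [0,1] 63 (Pf.C 1 0x4060e04009))
 (Pq.cons (Pq.L [0,1] 63 (Pf.C 1 0x4060e04009))
 (Pq.cons (Pq.L [0,1] 63 (Pf.C 1 0x4060e04009))
 (Pq.cons (Pq.L [0,2] 63 (Pf.C 1 0x4060e08009))
 (Pq.cons (Pq.L [1,2] 63 (Pf.C 1 0x4060e08089))
 Pq.nil)))))))) (Pq.cons (Pq.D 3 (Pq.cons (Pq.L [0,1] 63 (Pf.C 1 0x4060e04009))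
 (Pq.cons (Pq.L [0,1] 63 (Pf.C 1 0x4060e04009))
 (Pq.cons (Pq.L [0,1] 63 (Pf.C 1 0x4060e04009))
 (Pq.cons (Pq.L [0,1] 63 (Pf.C 1 0x4060e04009))
 (Pq.cons (Pq.L [0,1] 63 (Pf.C 1 0x4060e04009))
 (Pq.cons (Pq.L [0,2] 63 (Pf.C 1 0x4060e08009))
 (Pq.cons (Pq.L [1,2] 63 (Pf.C 1 0x4060e08089))
 Pq.nil)))))))) (Pq.cons (Pq.D 3 (Pq.cons (Pq.L [0,1] 63 (Pf.C 1 0x4060e04009))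
 (Pq.cons (Pq.L [0,1] 63 (Pf.C 1 0x4060e04009))
 (Pq.cons (Pq.L [0,1] 63 (Pf.C 1 0x4060e04009))
 (Pq.cons (Pq.L [0,1] 63 (Pf.C 1 0x4060e04009))
 (Pq.cons (Pq.L [0,1] 63 (Pf.C 1 0x4060e04009))
 (Pq.cons (Pq.L [0,2] 63 (Pf.C 1 0x4060e08009))
 (Pq.cons (Pq.L [1,2] 63 (Pf.C 1 0x4060e08089))
 Pq.nil)))))))) (Pq.cons (Pq.D 3 (Pq.cons (Pq.L [0,1] 63 (Pf.C 1 0x4060e04009))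
 (Pq.cons (Pq.L [0,1] 63 (Pf.C 1 0x4060e04009))
 (Pq.cons (Pq.L [0,1] 63 (Pf.C 1 0x4060e04009))
 (Pq.cons (Pq.L [0,1] 63 (Pf.C 1 0x4060e04009))
 (Pq.cons (Pq.L [0,1] 63 (Pf.C 1 0x4060e04009))
 (Pq.cons (Pq.L [0,3] 63 (Pf.C 1 0x4060e0c009))
 (Pq.cons (Pq.L [1,3] 63 (Pf.C 1 0x4060e0c089))
 Pq.nil)))))))) (Pq.cons (Pq.D 3 (Pq.cons (Pq.L [0,2] 63 (Pf.C 1 0x4060e08009))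
 (Pq.cons (Pq.L [0,2] 63 (Pf.C 1 0x4060e08009))
 (Pq.cons (Pq.L [0,2] 63 (Pf.C 1 0x4060e08009))
 (Pq.cons (Pq.L [0,2] 63 (Pf.C 1 0x4060e08009))
 (Pq.cons (Pq.L [0,3] 63 (Pf.C 1 0x4060e0c009))
 (Pq.cons (Pq.L [0,2] 63 (Pf.C 1 0x4060e08009))
 (Pq.cons (Pq.L [2,3] 63 (Pf.C 1 0x4060e0c109))
 Pq.nil)))))))) (Pq.cons (Pq.D 3 (Pq.cons (Pq.L [1,2] 63 (Pf.C 1 0x4060e08089))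
 (Pq.cons (Pq.L [1,2] 63 (Pf.C 1 0x4060e08089))
 (Pq.cons (Pq.L [1,2] 63 (Pf.C 1 0x4060e08089))
 (Pq.cons (Pq.L [1,2] 63 (Pf.C 1 0x4060e08089))
 (Pq.cons (Pq.L [1,3] 63 (Pf.C 1 0x4060e0c089))
 (Pq.cons (Pq.L [2,3] 63 (Pf.C 1 0x4060e0c109))
 (Pq.cons (Pq.L [1,2] 63 (Pf.C 1 0x4060e08089))
 Pq.nil)))))))) Pq.nil)))))))) (Pq.cons (Pq.D 2 (Pq.cons (Pq.D 3 (Pq.cons (Pq.L [0,1] 63 (Pf.C 1 0x4060e04009))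
 (Pq.cons (Pq.L [0,1] 63 (Pf.C 1 0x4060e04009))
 (Pq.cons (Pq.L [0,1] 63 (Pf.C 1 0x4060e04009))
 (Pq.cons (Pq.L [0,1] 63 (Pf.C 1 0x4060e04009))
 (Pq.cons (Pq.L [0,1] 63 (Pf.C 1 0x4060e04009))
 (Pq.cons (Pq.L [0,2] 63 (Pf.C 1 0x4060e08009))
 (Pq.cons (Pq.L [1,2] 63 (Pf.C 1 0x4060e08089))
 Pq.nil)))))))) (Pq.cons (Pq.D 3 (Pq.cons (Pq.L [0,1] 63 (Pf.C 1 0x4060e04009))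
 (Pq.cons (Pq.L [0,1] 63 (Pf.C 1 0x4060e04009))
 (Pq.cons (Pq.L [0,1] 63 (Pf.C 1 0x4060e04009))
 (Pq.cons (Pq.L [0,1] 63 (Pf.C 1 0x4060e04009))
 (Pq.cons (Pq.L [0,1] 63 (Pf.C 1 0x4060e04009))
 (Pq.cons (Pq.L [0,2] 63 (Pf.C 1 0x4060e08009))
 (Pq.cons (Pq.L [1,2] 63 (Pf.C 1 0x4060e08089))
 Pq.nil)))))))) (Pq.cons (Pq.D 3 (Pq.cons (Pq.L [0,1] 63 (Pf.C 1 0x4060e04009))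
 (Pq.cons (Pq.L [0,1] 63 (Pf.C 1 0x4060e04009))
 (Pq.cons (Pq.L [0,1] 63 (Pf.C 1 0x4060e04009))
 (Pq.cons (Pq.L [0,1] 63 (Pf.C 1 0x4060e04009))
 (Pq.cons (Pq.L [0,1] 63 (Pf.C 1 0x4060e04009))
 (Pq.cons (Pq.L [0,2] 63 (Pf.C 1 0x4060e08009))
 (Pq.cons (Pq.L [1,2] 63 (Pf.C 1 0x4060e08089))
 Pq.nil)))))))) (Pq.cons (Pq.D 3 (Pq.cons (Pq.L [0,1] 63 (Pf.C 1 0x4060e04009))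
 (Pq.cons (Pq.L [0,1] 63 (Pf.C 1 0x4060e04009))
 (Pq.cons (Pq.L [0,1] 63 (Pf.C 1 0x4060e04009))
 (Pq.cons (Pq.L [0,1] 63 (Pf.C 1 0x4060e04009))
 (Pq.cons (Pq.L [0,1] 63 (Pf.C 1 0x4060e04009))
 (Pq.cons (Pq.L [0,2] 63 (Pf.C 1 0x4060e08009))
 (Pq.cons (Pq.L [1,2] 63 (Pf.C 1 0x4060e08089))
 Pq.nil)))))))) (Pq.cons (Pq.D 3 (Pq.cons (Pq.L [0,1] 63 (Pf.C 1 0x4060e04009))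
 (Pq.cons (Pq.L [0,1] 63 (Pf.C 1 0x4060e04009))
 (Pq.cons (Pq.L [0,1] 63 (Pf.C 1 0x4060e04009))
 (Pq.cons (Pq.L [0,1] 63 (Pf.C 1 0x4060e04009))
 (Pq.cons (Pq.L [0,1] 63 (Pf.C 1 0x4060e04009))
 (Pq.cons (Pq.L [0,3] 63 (Pf.C 1 0x4060e0c009))
 (Pq.cons (Pq.L [1,3] 63 (Pf.C 1 0x4060e0c089))
 Pq.nil)))))))) (Pq.cons (Pq.D 3 (Pq.cons (Pq.L [0,2] 63 (Pf.C 1 0x4060e08009))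
 (Pq.cons (Pq.L [0,2] 63 (Pf.C 1 0x4060e08009))
 (Pq.cons (Pq.L [0,2] 63 (Pf.C 1 0x4060e08009))
 (Pq.cons (Pq.L [0,2] 63 (Pf.C 1 0x4060e08009))
 (Pq.cons (Pq.L [0,3] 63 (Pf.C 1 0x4060e0c009))
 (Pq.cons (Pq.L [0,2] 63 (Pf.C 1 0x4060e08009))
 (Pq.cons (Pq.L [2,3] 63 (Pf.C 1 0x4060e0c109))
 Pq.nil)))))))) (Pq.cons (Pq.D 3 (Pq.cons (Pq.L [1,2] 63 (Pf.C 1 0x4060e08089))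
 (Pq.cons (Pq.L [1,2] 63 (Pf.C 1 0x4060e08089))
 (Pq.cons (Pq.L [1,2] 63 (Pf.C 1 0x4060e08089))
 (Pq.cons (Pq.L [1,2] 63 (Pf.C 1 0x4060e08089))
 (Pq.cons (Pq.L [1,3] 63 (Pf.C 1 0x4060e0c089))
 (Pq.cons (Pq.L [2,3] 63 (Pf.C 1 0x4060e0c109))
 (Pq.cons (Pq.L [1,2] 63 (Pf.C 1 0x4060e08089))
 Pq.nil)))))))) Pq.nil)))))))) (Pq.cons (Pq.D 2 (Pq.cons (Pq.D 3 (Pq.cons (Pq.L [0,1] 63 (Pf.C 1 0x4060e04009))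
 (Pq.cons (Pq.L [0,1] 63 (Pf.C 1 0x4060e04009))
 (Pq.cons (Pq.L [0,1] 63 (Pf.C 1 0x4060e04009))
 (Pq.cons (Pq.L [0,1] 63 (Pf.C 1 0x4060e04009))
 (Pq.cons (Pq.L [0,1] 63 (Pf.C 1 0x4060e04009))
 (Pq.cons (Pq.L [0,2] 63 (Pf.C 1 0x4060e08009))
 (Pq.cons (Pq.L [1,2] 63 (Pf.C 1 0x4060e08089))
 Pq.nil)))))))) (Pq.cons (Pq.D 3 (Pq.cons (Pq.L [0,1] 63 (Pf.C 1 0x4060e04009))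
 (Pq.cons (Pq.L [0,1] 63 (Pf.C 1 0x4060e04009))
 (Pq.cons (Pq.L [0,1] 63 (Pf.C 1 0x4060e04009))
 (Pq.cons (Pq.L [0,1] 63 (Pf.C 1 0x4060e04009))
 (Pq.cons (Pq.L [0,1] 63 (Pf.C 1 0x4060e04009))
 (Pq.cons (Pq.L [0,2] 63 (Pf.C 1 0x4060e08009))
 (Pq.cons (Pq.L [1,2] 63 (Pf.C 1 0x4060e08089))
 Pq.nil)))))))) (Pq.cons (Pq.D 3 (Pq.cons (Pq.L [0,1] 63 (Pf.C 1 0x4060e04009))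
 (Pq.cons (Pq.L [0,1] 63 (Pf.C 1 0x4060e04009))
 (Pq.cons (Pq.L [0,1] 63 (Pf.C 1 0x4060e04009))
 (Pq.cons (Pq.L [0,1] 63 (Pf.C 1 0x4060e04009))
 (Pq.cons (Pq.L [0,1] 63 (Pf.C 1 0x4060e04009))
 (Pq.cons (Pq.L [0,2] 63 (Pf.C 1 0x4060e08009))
 (Pq.cons (Pq.L [1,2] 63 (Pf.C 1 0x4060e08089))
 Pq.nil)))))))) (Pq.cons (Pq.D 3 (Pq.cons (Pq.L [0,1] 63 (Pf.C 1 0x4060e04009))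
 (Pq.cons (Pq.L [0,1] 63 (Pf.C 1 0x4060e04009))
 (Pq.cons (Pq.L [0,1] 63 (Pf.C 1 0x4060e04009))
 (Pq.cons (Pq.L [0,1] 63 (Pf.C 1 0x4060e04009))
 (Pq.cons (Pq.L [0,1] 63 (Pf.C 1 0x4060e04009))
 (Pq.cons (Pq.L [0,2] 63 (Pf.C 1 0x4060e08009))
 (Pq.cons (Pq.L [1,2] 63 (Pf.C 1 0x4060e08089))
 Pq.nil)))))))) (Pq.cons (Pq.D 3 (Pq.cons (Pq.L [0,1] 63 (Pf.C 1 0x4060e04009))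
 (Pq.cons (Pq.L [0,1] 63 (Pf.C 1 0x4060e04009))
 (Pq.cons (Pq.L [0,1] 63 (Pf.C 1 0x4060e04009))
 (Pq.cons (Pq.L [0,1] 63 (Pf.C 1 0x4060e04009))
 (Pq.cons (Pq.L [0,1] 63 (Pf.C 1 0x4060e04009))
 (Pq.cons (Pq.L [0,4] 63 (Pf.C 1 0x4060e10009))
 (Pq.cons (Pq.L [1,4] 63 (Pf.C 1 0x4060e10089))
 Pq.nil)))))))) (Pq.cons (Pq.D 3 (Pq.cons (Pq.L [0,2] 63 (Pf.C 1 0x4060e08009))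
 (Pq.cons (Pq.L [0,2] 63 (Pf.C 1 0x4060e08009))
 (Pq.cons (Pq.L [0,2] 63 (Pf.C 1 0x4060e08009))
 (Pq.cons (Pq.L [0,2] 63 (Pf.C 1 0x4060e08009))
 (Pq.cons (Pq.L [0,4] 63 (Pf.C 1 0x4060e10009))
 (Pq.cons (Pq.L [0,2] 63 (Pf.C 1 0x4060e08009))
 (Pq.cons (Pq.L [2,4] 63 (Pf.C 1 0x4060e10109))
 Pq.nil)))))))) (Pq.cons (Pq.D 3 (Pq.cons (Pq.L [1,2] 63 (Pf.C 1 0x4060e08089))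
 (Pq.cons (Pq.L [1,2] 63 (Pf.C 1 0x4060e08089))
 (Pq.cons (Pq.L [1,2] 63 (Pf.C 1 0x4060e08089))
 (Pq.cons (Pq.L [1,2] 63 (Pf.C 1 0x4060e08089))
 (Pq.cons (Pq.L [1,4] 63 (Pf.C 1 0x4060e10089))
 (Pq.cons (Pq.L [2,4] 63 (Pf.C 1 0x4060e10109))
 (Pq.cons (Pq.L [1,2] 63 (Pf.C 1 0x4060e08089))
 Pq.nil)))))))) Pq.nil)))))))) (Pq.cons (Pq.D 2 (Pq.cons (Pq.D 3 (Pq.cons (Pq.L [0,1] 63 (Pf.C 1 0x4060e04009))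
 (Pq.cons (Pq.L [0,1] 63 (Pf.C 1 0x4060e04009))
 (Pq.cons (Pq.L [0,1] 63 (Pf.C 1 0x4060e04009))
 (Pq.cons (Pq.L [0,1] 63 (Pf.C 1 0x4060e04009))
 (Pq.cons (Pq.L [0,1] 63 (Pf.C 1 0x4060e04009))
 (Pq.cons (Pq.L [0,3] 63 (Pf.C 1 0x4060e0c009))
 (Pq.cons (Pq.L [1,3] 63 (Pf.C 1 0x4060e0c089))
 Pq.nil)))))))) (Pq.cons (Pq.D 3 (Pq.cons (Pq.L [0,1] 63 (Pf.C 1 0x4060e04009))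
 (Pq.cons (Pq.L [0,1] 63 (Pf.C 1 0x4060e04009))
 (Pq.cons (Pq.L [0,1] 63 (Pf.C 1 0x4060e04009))
 (Pq.cons (Pq.L [0,1] 63 (Pf.C 1 0x4060e04009))
 (Pq.cons (Pq.L [0,1] 63 (Pf.C 1 0x4060e04009))
 (Pq.cons (Pq.L [0,3] 63 (Pf.C 1 0x4060e0c009))
 (Pq.cons (Pq.L [1,3] 63 (Pf.C 1 0x4060e0c089))
 Pq.nil)))))))) (Pq.cons (Pq.D 3 (Pq.cons (Pq.L [0,1] 63 (Pf.C 1 0x4060e04009))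
 (Pq.cons (Pq.L [0,1] 63 (Pf.C 1 0x4060e04009))
 (Pq.cons (Pq.L [0,1] 63 (Pf.C 1 0x4060e04009))
 (Pq.cons (Pq.L [0,1] 63 (Pf.C 1 0x4060e04009))
 (Pq.cons (Pq.L [0,1] 63 (Pf.C 1 0x4060e04009))
 (Pq.cons (Pq.L [0,3] 63 (Pf.C 1 0x4060e0c009))
 (Pq.cons (Pq.L [1,3] 63 (Pf.C 1 0x4060e0c089))
 Pq.nil)))))))) (Pq.cons (Pq.D 3 (Pq.cons (Pq.L [0,1] 63 (Pf.C 1 0x4060e04009))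
 (Pq.cons (Pq.L [0,1] 63 (Pf.C 1 0x4060e04009))
 (Pq.cons (Pq.L [0,1] 63 (Pf.C 1 0x4060e04009))
 (Pq.cons (Pq.L [0,1] 63 (Pf.C 1 0x4060e04009))
 (Pq.cons (Pq.L [0,1] 63 (Pf.C 1 0x4060e04009))
 (Pq.cons (Pq.L [0,4] 63 (Pf.C 1 0x4060e10009))
 (Pq.cons (Pq.L [1,4] 63 (Pf.C 1 0x4060e10089))
 Pq.nil)))))))) (Pq.cons (Pq.D 3 (Pq.cons (Pq.L [0,1] 63 (Pf.C 1 0x4060e04009))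
 (Pq.cons (Pq.L [0,1] 63 (Pf.C 1 0x4060e04009))
 (Pq.cons (Pq.L [0,1] 63 (Pf.C 1 0x4060e04009))
 (Pq.cons (Pq.L [0,1] 63 (Pf.C 1 0x4060e04009))
 (Pq.cons (Pq.L [0,1] 63 (Pf.C 1 0x4060e04009))
 (Pq.cons (Pq.L [0,3] 63 (Pf.C 1 0x4060e0c009))
 (Pq.cons (Pq.L [1,3] 63 (Pf.C 1 0x4060e0c089))
 Pq.nil)))))))) (Pq.cons (Pq.D 3 (Pq.cons (Pq.L [0,3] 63 (Pf.C 1 0x4060e0c009))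
 (Pq.cons (Pq.L [0,3] 63 (Pf.C 1 0x4060e0c009))
 (Pq.cons (Pq.L [0,3] 63 (Pf.C 1 0x4060e0c009))
 (Pq.cons (Pq.L [0,4] 63 (Pf.C 1 0x4060e10009))
 (Pq.cons (Pq.L [0,3] 63 (Pf.C 1 0x4060e0c009))
 (Pq.cons (Pq.L [0,3] 63 (Pf.C 1 0x4060e0c009))
 (Pq.cons (Pq.L [3,4] 63 (Pf.C 1 0x4060e10189))
 Pq.nil)))))))) (Pq.cons (Pq.D 3 (Pq.cons (Pq.L [1,3] 63 (Pf.C 1 0x4060e0c089))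
 (Pq.cons (Pq.L [1,3] 63 (Pf.C 1 0x4060e0c089))
 (Pq.cons (Pq.L [1,3] 63 (Pf.C 1 0x4060e0c089))
 (Pq.cons (Pq.L [1,4] 63 (Pf.C 1 0x4060e10089))
 (Pq.cons (Pq.L [1,3] 63 (Pf.C 1 0x4060e0c089))
 (Pq.cons (Pq.L [3,4] 63 (Pf.C 1 0x4060e10189))
 (Pq.cons (Pq.L [1,3] 63 (Pf.C 1 0x4060e0c089))
 Pq.nil)))))))) Pq.nil)))))))) (Pq.cons (Pq.D 2 (Pq.cons (Pq.D 3 (Pq.cons (Pq.L [0,2] 63 (Pf.C 1 0x4060e08009))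
 (Pq.cons (Pq.L [0,2] 63 (Pf.C 1 0x4060e08009))
 (Pq.cons (Pq.L [0,2] 63 (Pf.C 1 0x4060e08009))
 (Pq.cons (Pq.L [0,2] 63 (Pf.C 1 0x4060e08009))
 (Pq.cons (Pq.L [0,3] 63 (Pf.C 1 0x4060e0c009))
 (Pq.cons (Pq.L [0,2] 63 (Pf.C 1 0x4060e08009))
 (Pq.cons (Pq.L [2,3] 63 (Pf.C 1 0x4060e0c109))
 Pq.nil)))))))) (Pq.cons (Pq.D 3 (Pq.cons (Pq.L [0,2] 63 (Pf.C 1 0x4060e08009))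
 (Pq.cons (Pq.L [0,2] 63 (Pf.C 1 0x4060e08009))
 (Pq.cons (Pq.L [0,2] 63 (Pf.C 1 0x4060e08009))
 (Pq.cons (Pq.L [0,2] 63 (Pf.C 1 0x4060e08009))
 (Pq.cons (Pq.L [0,3] 63 (Pf.C 1 0x4060e0c009))
 (Pq.cons (Pq.L [0,2] 63 (Pf.C 1 0x4060e08009))
 (Pq.cons (Pq.L [2,3] 63 (Pf.C 1 0x4060e0c109))
 Pq.nil)))))))) (Pq.cons (Pq.D 3 (Pq.cons (Pq.L [0,2] 63 (Pf.C 1 0x4060e08009))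
 (Pq.cons (Pq.L [0,2] 63 (Pf.C 1 0x4060e08009))
 (Pq.cons (Pq.L [0,2] 63 (Pf.C 1 0x4060e08009))
 (Pq.cons (Pq.L [0,2] 63 (Pf.C 1 0x4060e08009))
 (Pq.cons (Pq.L [0,3] 63 (Pf.C 1 0x4060e0c009))
 (Pq.cons (Pq.L [0,2] 63 (Pf.C 1 0x4060e08009))
 (Pq.cons (Pq.L [2,3] 63 (Pf.C 1 0x4060e0c109))
 Pq.nil)))))))) (Pq.cons (Pq.D 3 (Pq.cons (Pq.L [0,2] 63 (Pf.C 1 0x4060e08009))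
 (Pq.cons (Pq.L [0,2] 63 (Pf.C 1 0x4060e08009))
 (Pq.cons (Pq.L [0,2] 63 (Pf.C 1 0x4060e08009))
 (Pq.cons (Pq.L [0,2] 63 (Pf.C 1 0x4060e08009))
 (Pq.cons (Pq.L [0,4] 63 (Pf.C 1 0x4060e10009))
 (Pq.cons (Pq.L [0,2] 63 (Pf.C 1 0x4060e08009))
 (Pq.cons (Pq.L [2,4] 63 (Pf.C 1 0x4060e10109))
 Pq.nil)))))))) (Pq.cons (Pq.D 3 (Pq.cons (Pq.L [0,3] 63 (Pf.C 1 0x4060e0c009))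
 (Pq.cons (Pq.L [0,3] 63 (Pf.C 1 0x4060e0c009))
 (Pq.cons (Pq.L [0,3] 63 (Pf.C 1 0x4060e0c009))
 (Pq.cons (Pq.L [0,4] 63 (Pf.C 1 0x4060e10009))
 (Pq.cons (Pq.L [0,3] 63 (Pf.C 1 0x4060e0c009))
 (Pq.cons (Pq.L [0,3] 63 (Pf.C 1 0x4060e0c009))
 (Pq.cons (Pq.L [3,4] 63 (Pf.C 1 0x4060e10189))
 Pq.nil)))))))) (Pq.cons (Pq.D 3 (Pq.cons (Pq.L [0,2] 63 (Pf.C 1 0x4060e08009))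
 (Pq.cons (Pq.L [0,2] 63 (Pf.C 1 0x4060e08009))
 (Pq.cons (Pq.L [0,2] 63 (Pf.C 1 0x4060e08009))
 (Pq.cons (Pq.L [0,2] 63 (Pf.C 1 0x4060e08009))
 (Pq.cons (Pq.L [0,3] 63 (Pf.C 1 0x4060e0c009))
 (Pq.cons (Pq.L [0,2] 63 (Pf.C 1 0x4060e08009))
 (Pq.cons (Pq.L [2,3] 63 (Pf.C 1 0x4060e0c109))
 Pq.nil)))))))) (Pq.cons (Pq.D 3 (Pq.cons (Pq.L [2,3] 63 (Pf.C 1 0x4060e0c109))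
 (Pq.cons (Pq.L [2,3] 63 (Pf.C 1 0x4060e0c109))
 (Pq.cons (Pq.L [2,3] 63 (Pf.C 1 0x4060e0c109))
 (Pq.cons (Pq.L [2,4] 63 (Pf.C 1 0x4060e10109))
 (Pq.cons (Pq.L [3,4] 63 (Pf.C 1 0x4060e10189))
 (Pq.cons (Pq.L [2,3] 63 (Pf.C 1 0x4060e0c109))
 (Pq.cons (Pq.L [2,3] 63 (Pf.C 1 0x4060e0c109))
 Pq.nil)))))))) Pq.nil)))))))) (Pq.cons (Pq.D 2 (Pq.cons (Pq.D 3 (Pq.cons (Pq.L [1,2] 63 (Pf.C 1 0x4060e08089))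
 (Pq.cons (Pq.L [1,2] 63 (Pf.C 1 0x4060e08089))
 (Pq.cons (Pq.L [1,2] 63 (Pf.C 1 0x4060e08089))
 (Pq.cons (Pq.L [1,2] 63 (Pf.C 1 0x4060e08089))
 (Pq.cons (Pq.L [1,3] 63 (Pf.C 1 0x4060e0c089))
 (Pq.cons (Pq.L [2,3] 63 (Pf.C 1 0x4060e0c109))
 (Pq.cons (Pq.L [1,2] 63 (Pf.C 1 0x4060e08089))
 Pq.nil)))))))) (Pq.cons (Pq.D 3 (Pq.cons (Pq.L [1,2] 63 (Pf.C 1 0x4060e08089))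
 (Pq.cons (Pq.L [1,2] 63 (Pf.C 1 0x4060e08089))
 (Pq.cons (Pq.L [1,2] 63 (Pf.C 1 0x4060e08089))
 (Pq.cons (Pq.L [1,2] 63 (Pf.C 1 0x4060e08089))
 (Pq.cons (Pq.L [1,3] 63 (Pf.C 1 0x4060e0c089))
 (Pq.cons (Pq.L [2,3] 63 (Pf.C 1 0x4060e0c109))
 (Pq.cons (Pq.L [1,2] 63 (Pf.C 1 0x4060e08089))
 Pq.nil)))))))) (Pq.cons (Pq.D 3 (Pq.cons (Pq.L [1,2] 63 (Pf.C 1 0x4060e08089))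
 (Pq.cons (Pq.L [1,2] 63 (Pf.C 1 0x4060e08089))
 (Pq.cons (Pq.L [1,2] 63 (Pf.C 1 0x4060e08089))
 (Pq.cons (Pq.L [1,2] 63 (Pf.C 1 0x4060e08089))
 (Pq.cons (Pq.L [1,3] 63 (Pf.C 1 0x4060e0c089))
 (Pq.cons (Pq.L [2,3] 63 (Pf.C 1 0x4060e0c109))
 (Pq.cons (Pq.L [1,2] 63 (Pf.C 1 0x4060e08089))
 Pq.nil)))))))) (Pq.cons (Pq.D 3 (Pq.cons (Pq.L [1,2] 63 (Pf.C 1 0x4060e08089))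
 (Pq.cons (Pq.L [1,2] 63 (Pf.C 1 0x4060e08089))
 (Pq.cons (Pq.L [1,2] 63 (Pf.C 1 0x4060e08089))
 (Pq.cons (Pq.L [1,2] 63 (Pf.C 1 0x4060e08089))
 (Pq.cons (Pq.L [1,4] 63 (Pf.C 1 0x4060e10089))
 (Pq.cons (Pq.L [2,4] 63 (Pf.C 1 0x4060e10109))
 (Pq.cons (Pq.L [1,2] 63 (Pf.C 1 0x4060e08089))
 Pq.nil)))))))) (Pq.cons (Pq.D 3 (Pq.cons (Pq.L [1,3] 63 (Pf.C 1 0x4060e0c089))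
 (Pq.cons (Pq.L [1,3] 63 (Pf.C 1 0x4060e0c089))
 (Pq.cons (Pq.L [1,3] 63 (Pf.C 1 0x4060e0c089))
 (Pq.cons (Pq.L [1,4] 63 (Pf.C 1 0x4060e10089))
 (Pq.cons (Pq.L [1,3] 63 (Pf.C 1 0x4060e0c089))
 (Pq.cons (Pq.L [3,4] 63 (Pf.C 1 0x4060e10189))
 (Pq.cons (Pq.L [1,3] 63 (Pf.C 1 0x4060e0c089))
 Pq.nil)))))))) (Pq.cons (Pq.D 3 (Pq.cons (Pq.L [2,3] 63 (Pf.C 1 0x4060e0c109))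
 (Pq.cons (Pq.L [2,3] 63 (Pf.C 1 0x4060e0c109))
 (Pq.cons (Pq.L [2,3] 63 (Pf.C 1 0x4060e0c109))
 (Pq.cons (Pq.L [2,4] 63 (Pf.C 1 0x4060e10109))
 (Pq.cons (Pq.L [3,4] 63 (Pf.C 1 0x4060e10189))
 (Pq.cons (Pq.L [2,3] 63 (Pf.C 1 0x4060e0c109))
 (Pq.cons (Pq.L [2,3] 63 (Pf.C 1 0x4060e0c109))
 Pq.nil)))))))) (Pq.cons (Pq.D 3 (Pq.cons (Pq.L [1,2] 63 (Pf.C 1 0x4060e08089))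
 (Pq.cons (Pq.L [1,2] 63 (Pf.C 1 0x4060e08089))
 (Pq.cons (Pq.L [1,2] 63 (Pf.C 1 0x4060e08089))
 (Pq.cons (Pq.L [1,2] 63 (Pf.C 1 0x4060e08089))
 (Pq.cons (Pq.L [1,3] 63 (Pf.C 1 0x4060e0c089))
 (Pq.cons (Pq.L [2,3] 63 (Pf.C 1 0x4060e0c109))
 (Pq.cons (Pq.L [1,2] 63 (Pf.C 1 0x4060e08089))
 Pq.nil)))))))) Pq.nil)))))))) Pq.nil)))))))) Pq.nil)
theorem e_o26 : AllRef e_T e_G4 (List.take 1 (List.take 3 (List.flatMap (splitP 0) (List.drop 4 (applyObl e1_T 5 [5,6,7,8,9,10,11,12] [1,1,1,1,1,1,1,2] []))))) :=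
  chkPq_sound e_o26c _ (by decide +kernel)
noncomputable def e_o27c : Pq := (Pq.cons (Pq.D 1 (Pq.cons (Pq.D 2 (Pq.cons (Pq.D 3 (Pq.cons (Pq.L [0,1] 63 (Pf.C 1 0x4060e04009))
 (Pq.cons (Pq.L [0,1] 63 (Pf.C 1 0x4060e04009))
 (Pq.cons (Pq.L [0,1] 63 (Pf.C 1 0x4060e04009))
 (Pq.cons (Pq.L [0,1] 63 (Pf.C 1 0x4060e04009))
 (Pq.cons (Pq.L [0,1] 63 (Pf.C 1 0x4060e04009))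
 (Pq.cons (Pq.L [0,2] 63 (Pf.C 1 0x4060e08009))
 (Pq.cons (Pq.L [1,2] 63 (Pf.C 1 0x4060e08089))
 Pq.nil)))))))) (Pq.cons (Pq.D 3 (Pq.cons (Pq.L [0,1] 63 (Pf.C 1 0x4060e04009))
 (Pq.cons (Pq.L [0,1] 63 (Pf.C 1 0x4060e04009))
 (Pq.cons (Pq.L [0,1] 63 (Pf.C 1 0x4060e04009))
 (Pq.cons (Pq.L [0,1] 63 (Pf.C 1 0x4060e04009))
 (Pq.cons (Pq.L [0,1] 63 (Pf.C 1 0x4060e04009))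
 (Pq.cons (Pq.L [0,2] 63 (Pf.C 1 0x4060e08009))
 (Pq.cons (Pq.L [1,2] 63 (Pf.C 1 0x4060e08089))
 Pq.nil)))))))) (Pq.cons (Pq.D 3 (Pq.cons (Pq.L [0,1] 63 (Pf.C 1 0x4060e04009))
 (Pq.cons (Pq.L [0,1] 63 (Pf.C 1 0x4060e04009))
 (Pq.cons (Pq.L [0,1] 63 (Pf.C 1 0x4060e04009))
 (Pq.cons (Pq.L [0,1] 63 (Pf.C 1 0x4060e04009))
 (Pq.cons (Pq.L [0,1] 63 (Pf.C 1 0x4060e04009))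
 (Pq.cons (Pq.L [0,2] 63 (Pf.C 1 0x4060e08009))
 (Pq.cons (Pq.L [1,2] 63 (Pf.C 1 0x4060e08089))
 Pq.nil)))))))) (Pq.cons (Pq.D 3 (Pq.cons (Pq.L [0,1] 63 (Pf.C 1 0x4060e04009))
 (Pq.cons (Pq.L [0,1] 63 (Pf.C 1 0x4060e04009))
 (Pq.cons (Pq.L [0,1] 63 (Pf.C 1 0x4060e04009))
 (Pq.cons (Pq.L [0,1] 63 (Pf.C 1 0x4060e04009))
 (Pq.cons (Pq.L [0,1] 63 (Pf.C 1 0x4060e04009))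
 (Pq.cons (Pq.L [0,2] 63 (Pf.C 1 0x4060e08009))
 (Pq.cons (Pq.L [1,2] 63 (Pf.C 1 0x4060e08089))
 Pq.nil)))))))) (Pq.cons (Pq.D 3 (Pq.cons (Pq.L [0,1] 63 (Pf.C 1 0x4060e04009))
 (Pq.cons (Pq.L [0,1] 63 (Pf.C 1 0x4060e04009))
 (Pq.cons (Pq.L [0,1] 63 (Pf.C 1 0x4060e04009))
 (Pq.cons (Pq.L [0,1] 63 (Pf.C 1 0x4060e04009))
 (Pq.cons (Pq.L [0,1] 63 (Pf.C 1 0x4060e04009))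
 (Pq.cons (Pq.L [0,3] 63 (Pf.C 1 0x4060e0c009))
 (Pq.cons (Pq.L [1,3] 63 (Pf.C 1 0x4060e0c089))
 Pq.nil)))))))) (Pq.cons (Pq.D 3 (Pq.cons (Pq.L [0,2] 63 (Pf.C 1 0x4060e08009))
 (Pq.cons (Pq.L [0,2] 63 (Pf.C 1 0x4060e08009))
 (Pq.cons (Pq.L [0,2] 63 (Pf.C 1 0x4060e08009))
 (Pq.cons (Pq.L [0,2] 63 (Pf.C 1 0x4060e08009))
 (Pq.cons (Pq.L [0,3] 63 (Pf.C 1 0x4060e0c009))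
 (Pq.cons (Pq.L [0,2] 63 (Pf.C 1 0x4060e08009))
 (Pq.cons (Pq.L [2,3] 63 (Pf.C 1 0x4060e0c109))
 Pq.nil)))))))) (Pq.cons (Pq.D 3 (Pq.cons (Pq.L [1,2] 63 (Pf.C 1 0x4060e08089))
 (Pq.cons (Pq.L [1,2] 63 (Pf.C 1 0x4060e08089))
 (Pq.cons (Pq.L [1,2] 63 (Pf.C 1 0x4060e08089))
 (Pq.cons (Pq.L [1,2] 63 (Pf.C 1 0x4060e08089))
 (Pq.cons (Pq.L [1,3] 63 (Pf.C 1 0x4060e0c089))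
 (Pq.cons (Pq.L [2,3] 63 (Pf.C 1 0x4060e0c109))
 (Pq.cons (Pq.L [1,2] 63 (Pf.C 1 0x4060e08089))
 Pq.nil)))))))) Pq.nil)))))))) (Pq.cons (Pq.D 2 (Pq.cons (Pq.D 3 (Pq.cons (Pq.L [0,1] 63 (Pf.C 1 0x4060e04009))
 (Pq.cons (Pq.L [0,1] 63 (Pf.C 1 0x4060e04009))
 (Pq.cons (Pq.L [0,1] 63 (Pf.C 1 0x4060e04009))
 (Pq.cons (Pq.L [0,1] 63 (Pf.C 1 0x4060e04009))
 (Pq.cons (Pq.L [0,1] 63 (Pf.C 1 0x4060e04009))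
 (Pq.cons (Pq.L [0,2] 63 (Pf.C 1 0x4060e08009))
 (Pq.cons (Pq.L [1,2] 63 (Pf.C 1 0x4060e08089))
 Pq.nil)))))))) (Pq.cons (Pq.L [5] 11 (Pf.C 0 0x1014307))
 (Pq.cons (Pq.D 3 (Pq.cons (Pq.L [0,1] 63 (Pf.C 1 0x4060e04009))
 (Pq.cons (Pq.L [0,1] 63 (Pf.C 1 0x4060e04009))
 (Pq.cons (Pq.L [0,1] 63 (Pf.C 1 0x4060e04009))
 (Pq.cons (Pq.L [0,1] 63 (Pf.C 1 0x4060e04009))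
 (Pq.cons (Pq.L [0,1] 63 (Pf.C 1 0x4060e04009))
 (Pq.cons (Pq.L [0,2] 63 (Pf.C 1 0x4060e08009))
 (Pq.cons (Pq.L [1,2] 63 (Pf.C 1 0x4060e08089))
 Pq.nil)))))))) (Pq.cons (Pq.D 3 (Pq.cons (Pq.L [0,1] 63 (Pf.C 1 0x4060e04009))
 (Pq.cons (Pq.L [0,1] 63 (Pf.C 1 0x4060e04009))
 (Pq.cons (Pq.L [0,1] 63 (Pf.C 1 0x4060e04009))
 (Pq.cons (Pq.L [0,1] 63 (Pf.C 1 0x4060e04009))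
 (Pq.cons (Pq.L [0,1] 63 (Pf.C 1 0x4060e04009))
 (Pq.cons (Pq.L [0,2] 63 (Pf.C 1 0x4060e08009))
 (Pq.cons (Pq.L [1,2] 63 (Pf.C 1 0x4060e08089))
 Pq.nil)))))))) (Pq.cons (Pq.D 3 (Pq.cons (Pq.L [0,1] 63 (Pf.C 1 0x4060e04009))
 (Pq.cons (Pq.L [0,1] 63 (Pf.C 1 0x4060e04009))
 (Pq.cons (Pq.L [0,1] 63 (Pf.C 1 0x4060e04009))
 (Pq.cons (Pq.L [0,1] 63 (Pf.C 1 0x4060e04009))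
 (Pq.cons (Pq.L [0,1] 63 (Pf.C 1 0x4060e04009))
 (Pq.cons (Pq.L [0,3] 63 (Pf.C 1 0x4060e0c009))
 (Pq.cons (Pq.L [1,3] 63 (Pf.C 1 0x4060e0c089))
 Pq.nil)))))))) (Pq.cons (Pq.D 3 (Pq.cons (Pq.L [0,2] 63 (Pf.C 1 0x4060e08009))
 (Pq.cons (Pq.L [0,2] 63 (Pf.C 1 0x4060e08009))
 (Pq.cons (Pq.L [0,2] 63 (Pf.C 1 0x4060e08009))
 (Pq.cons (Pq.L [0,2] 63 (Pf.C 1 0x4060e08009))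
 (Pq.cons (Pq.L [0,3] 63 (Pf.C 1 0x4060e0c009))
 (Pq.cons (Pq.L [0,2] 63 (Pf.C 1 0x4060e08009))
 (Pq.cons (Pq.L [2,3] 63 (Pf.C 1 0x4060e0c109))
 Pq.nil)))))))) (Pq.cons (Pq.D 3 (Pq.cons (Pq.L [1,2] 63 (Pf.C 1 0x4060e08089))
 (Pq.cons (Pq.L [1,2] 63 (Pf.C 1 0x4060e08089))
 (Pq.cons (Pq.L [1,2] 63 (Pf.C 1 0x4060e08089))
 (Pq.cons (Pq.L [1,2] 63 (Pf.C 1 0x4060e08089))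
 (Pq.cons (Pq.L [1,3] 63 (Pf.C 1 0x4060e0c089))
 (Pq.cons (Pq.L [2,3] 63 (Pf.C 1 0x4060e0c109))
 (Pq.cons (Pq.L [1,2] 63 (Pf.C 1 0x4060e08089))
 Pq.nil)))))))) Pq.nil)))))))) (Pq.cons (Pq.D 2 (Pq.cons (Pq.D 3 (Pq.cons (Pq.L [0,1] 63 (Pf.C 1 0x4060e04009))
 (Pq.cons (Pq.L [0,1] 63 (Pf.C 1 0x4060e04009))
 (Pq.cons (Pq.L [0,1] 63 (Pf.C 1 0x4060e04009))
 (Pq.cons (Pq.L [0,1] 63 (Pf.C 1 0x4060e04009))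
 (Pq.cons (Pq.L [0,1] 63 (Pf.C 1 0x4060e04009))
 (Pq.cons (Pq.L [0,2] 63 (Pf.C 1 0x4060e08009))
 (Pq.cons (Pq.L [1,2] 63 (Pf.C 1 0x4060e08089))
 Pq.nil)))))))) (Pq.cons (Pq.D 3 (Pq.cons (Pq.L [0,1] 63 (Pf.C 1 0x4060e04009))
 (Pq.cons (Pq.L [0,1] 63 (Pf.C 1 0x4060e04009))
 (Pq.cons (Pq.L [0,1] 63 (Pf.C 1 0x4060e04009))
 (Pq.cons (Pq.L [0,1] 63 (Pf.C 1 0x4060e04009))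
 (Pq.cons (Pq.L [0,1] 63 (Pf.C 1 0x4060e04009))
 (Pq.cons (Pq.L [0,2] 63 (Pf.C 1 0x4060e08009))
 (Pq.cons (Pq.L [1,2] 63 (Pf.C 1 0x4060e08089))
 Pq.nil)))))))) (Pq.cons (Pq.D 3 (Pq.cons (Pq.L [0,1] 63 (Pf.C 1 0x4060e04009))
 (Pq.cons (Pq.L [0,1] 63 (Pf.C 1 0x4060e04009))
 (Pq.cons (Pq.L [0,1] 63 (Pf.C 1 0x4060e04009))
 (Pq.cons (Pq.L [0,1] 63 (Pf.C 1 0x4060e04009))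
 (Pq.cons (Pq.L [0,1] 63 (Pf.C 1 0x4060e04009))
 (Pq.cons (Pq.L [0,2] 63 (Pf.C 1 0x4060e08009))
 (Pq.cons (Pq.L [1,2] 63 (Pf.C 1 0x4060e08089))
 Pq.nil)))))))) (Pq.cons (Pq.D 3 (Pq.cons (Pq.L [0,1] 63 (Pf.C 1 0x4060e04009))
 (Pq.cons (Pq.L [0,1] 63 (Pf.C 1 0x4060e04009))
 (Pq.cons (Pq.L [0,1] 63 (Pf.C 1 0x4060e04009))
 (Pq.cons (Pq.L [0,1] 63 (Pf.C 1 0x4060e04009))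
 (Pq.cons (Pq.L [0,1] 63 (Pf.C 1 0x4060e04009))
 (Pq.cons (Pq.L [0,2] 63 (Pf.C 1 0x4060e08009))
 (Pq.cons (Pq.L [1,2] 63 (Pf.C 1 0x4060e08089))
 Pq.nil)))))))) (Pq.cons (Pq.D 3 (Pq.cons (Pq.L [0,1] 63 (Pf.C 1 0x4060e04009))
 (Pq.cons (Pq.L [0,1] 63 (Pf.C 1 0x4060e04009))
 (Pq.cons (Pq.L [0,1] 63 (Pf.C 1 0x4060e04009))
 (Pq.cons (Pq.L [0,1] 63 (Pf.C 1 0x4060e04009))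
 (Pq.cons (Pq.L [0,1] 63 (Pf.C 1 0x4060e04009))
 (Pq.cons (Pq.L [0,3] 63 (Pf.C 1 0x4060e0c009))
 (Pq.cons (Pq.L [1,3] 63 (Pf.C 1 0x4060e0c089))
 Pq.nil)))))))) (Pq.cons (Pq.D 3 (Pq.cons (Pq.L [0,2] 63 (Pf.C 1 0x4060e08009))
 (Pq.cons (Pq.L [0,2] 63 (Pf.C 1 0x4060e08009))
 (Pq.cons (Pq.L [0,2] 63 (Pf.C 1 0x4060e08009))
 (Pq.cons (Pq.L [0,2] 63 (Pf.C 1 0x4060e08009))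
 (Pq.cons (Pq.L [0,3] 63 (Pf.C 1 0x4060e0c009))
 (Pq.cons (Pq.L [0,2] 63 (Pf.C 1 0x4060e08009))
 (Pq.cons (Pq.L [2,3] 63 (Pf.C 1 0x4060e0c109))
 Pq.nil)))))))) (Pq.cons (Pq.D 3 (Pq.cons (Pq.L [1,2] 63 (Pf.C 1 0x4060e08089))
 (Pq.cons (Pq.L [1,2] 63 (Pf.C 1 0x4060e08089))
 (Pq.cons (Pq.L [1,2] 63 (Pf.C 1 0x4060e08089))
 (Pq.cons (Pq.L [1,2] 63 (Pf.C 1 0x4060e08089))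
 (Pq.cons (Pq.L [1,3] 63 (Pf.C 1 0x4060e0c089))
 (Pq.cons (Pq.L [2,3] 63 (Pf.C 1 0x4060e0c109))
 (Pq.cons (Pq.L [1,2] 63 (Pf.C 1 0x4060e08089))
 Pq.nil)))))))) Pq.nil)))))))) (Pq.cons (Pq.D 2 (Pq.cons (Pq.D 3 (Pq.cons (Pq.L [0,1] 63 (Pf.C 1 0x4060e04009))
 (Pq.cons (Pq.L [0,1] 63 (Pf.C 1 0x4060e04009))
 (Pq.cons (Pq.L [0,1] 63 (Pf.C 1 0x4060e04009))
 (Pq.cons (Pq.L [0,1] 63 (Pf.C 1 0x4060e04009))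
 (Pq.cons (Pq.L [0,1] 63 (Pf.C 1 0x4060e04009))
 (Pq.cons (Pq.L [0,2] 63 (Pf.C 1 0x4060e08009))
 (Pq.cons (Pq.L [1,2] 63 (Pf.C 1 0x4060e08089))
 Pq.nil)))))))) (Pq.cons (Pq.D 3 (Pq.cons (Pq.L [0,1] 63 (Pf.C 1 0x4060e04009))
 (Pq.cons (Pq.L [0,1] 63 (Pf.C 1 0x4060e04009))
 (Pq.cons (Pq.L [0,1] 63 (Pf.C 1 0x4060e04009))
 (Pq.cons (Pq.L [0,1] 63 (Pf.C 1 0x4060e04009))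
 (Pq.cons (Pq.L [0,1] 63 (Pf.C 1 0x4060e04009))
 (Pq.cons (Pq.L [0,2] 63 (Pf.C 1 0x4060e08009))
 (Pq.cons (Pq.L [1,2] 63 (Pf.C 1 0x4060e08089))
 Pq.nil)))))))) (Pq.cons (Pq.D 3 (Pq.cons (Pq.L [0,1] 63 (Pf.C 1 0x4060e04009))
 (Pq.cons (Pq.L [0,1] 63 (Pf.C 1 0x4060e04009))
 (Pq.cons (Pq.L [0,1] 63 (Pf.C 1 0x4060e04009))
 (Pq.cons (Pq.L [0,1] 63 (Pf.C 1 0x4060e04009))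
 (Pq.cons (Pq.L [0,1] 63 (Pf.C 1 0x4060e04009))
 (Pq.cons (Pq.L [0,2] 63 (Pf.C 1 0x4060e08009))
 (Pq.cons (Pq.L [1,2] 63 (Pf.C 1 0x4060e08089))
 Pq.nil)))))))) (Pq.cons (Pq.D 3 (Pq.cons (Pq.L [0,1] 63 (Pf.C 1 0x4060e04009))
 (Pq.cons (Pq.L [0,1] 63 (Pf.C 1 0x4060e04009))
 (Pq.cons (Pq.L [0,1] 63 (Pf.C 1 0x4060e04009))
 (Pq.cons (Pq.L [0,1] 63 (Pf.C 1 0x4060e04009))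
 (Pq.cons (Pq.L [0,1] 63 (Pf.C 1 0x4060e04009))
 (Pq.cons (Pq.L [0,2] 63 (Pf.C 1 0x4060e08009))
 (Pq.cons (Pq.L [1,2] 63 (Pf.C 1 0x4060e08089))
 Pq.nil)))))))) (Pq.cons (Pq.D 3 (Pq.cons (Pq.L [0,1] 63 (Pf.C 1 0x4060e04009))
 (Pq.cons (Pq.L [0,1] 63 (Pf.C 1 0x4060e04009))
 (Pq.cons (Pq.L [0,1] 63 (Pf.C 1 0x4060e04009))
 (Pq.cons (Pq.L [0,1] 63 (Pf.C 1 0x4060e04009))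
 (Pq.cons (Pq.L [0,1] 63 (Pf.C 1 0x4060e04009))
 (Pq.cons (Pq.L [0,4] 63 (Pf.C 1 0x4060e10009))
 (Pq.cons (Pq.L [1,4] 63 (Pf.C 1 0x4060e10089))
 Pq.nil)))))))) (Pq.cons (Pq.D 3 (Pq.cons (Pq.L [0,2] 63 (Pf.C 1 0x4060e08009))
 (Pq.cons (Pq.L [0,2] 63 (Pf.C 1 0x4060e08009))
 (Pq.cons (Pq.L [0,2] 63 (Pf.C 1 0x4060e08009))
 (Pq.cons (Pq.L [0,2] 63 (Pf.C 1 0x4060e08009))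
 (Pq.cons (Pq.L [0,4] 63 (Pf.C 1 0x4060e10009))
 (Pq.cons (Pq.L [0,2] 63 (Pf.C 1 0x4060e08009))
 (Pq.cons (Pq.L [2,4] 63 (Pf.C 1 0x4060e10109))
 Pq.nil)))))))) (Pq.cons (Pq.D 3 (Pq.cons (Pq.L [1,2] 63 (Pf.C 1 0x4060e08089))
 (Pq.cons (Pq.L [1,2] 63 (Pf.C 1 0x4060e08089))
 (Pq.cons (Pq.L [1,2] 63 (Pf.C 1 0x4060e08089))
 (Pq.cons (Pq.L [1,2] 63 (Pf.C 1 0x4060e08089))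
 (Pq.cons (Pq.L [1,4] 63 (Pf.C 1 0x4060e10089))
 (Pq.cons (Pq.L [2,4] 63 (Pf.C 1 0x4060e10109))
 (Pq.cons (Pq.L [1,2] 63 (Pf.C 1 0x4060e08089))
 Pq.nil)))))))) Pq.nil)))))))) (Pq.cons (Pq.D 2 (Pq.cons (Pq.D 3 (Pq.cons (Pq.L [0,1] 63 (Pf.C 1 0x4060e04009))
 (Pq.cons (Pq.L [0,1] 63 (Pf.C 1 0x4060e04009))
 (Pq.cons (Pq.L [0,1] 63 (Pf.C 1 0x4060e04009))
 (Pq.cons (Pq.L [0,1] 63 (Pf.C 1 0x4060e04009))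
 (Pq.cons (Pq.L [0,1] 63 (Pf.C 1 0x4060e04009))
 (Pq.cons (Pq.L [0,3] 63 (Pf.C 1 0x4060e0c009))
 (Pq.cons (Pq.L [1,3] 63 (Pf.C 1 0x4060e0c089))
 Pq.nil)))))))) (Pq.cons (Pq.D 3 (Pq.cons (Pq.L [0,1] 63 (Pf.C 1 0x4060e04009))
 (Pq.cons (Pq.L [0,1] 63 (Pf.C 1 0x4060e04009))
 (Pq.cons (Pq.L [0,1] 63 (Pf.C 1 0x4060e04009))
 (Pq.cons (Pq.L [0,1] 63 (Pf.C 1 0x4060e04009))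
 (Pq.cons (Pq.L [0,1] 63 (Pf.C 1 0x4060e04009))
 (Pq.cons (Pq.L [0,3] 63 (Pf.C 1 0x4060e0c009))
 (Pq.cons (Pq.L [1,3] 63 (Pf.C 1 0x4060e0c089))
 Pq.nil)))))))) (Pq.cons (Pq.D 3 (Pq.cons (Pq.L [0,1] 63 (Pf.C 1 0x4060e04009))
 (Pq.cons (Pq.L [0,1] 63 (Pf.C 1 0x4060e04009))
 (Pq.cons (Pq.L [0,1] 63 (Pf.C 1 0x4060e04009))
 (Pq.cons (Pq.L [0,1] 63 (Pf.C 1 0x4060e04009))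
 (Pq.cons (Pq.L [0,1] 63 (Pf.C 1 0x4060e04009))
 (Pq.cons (Pq.L [0,3] 63 (Pf.C 1 0x4060e0c009))
 (Pq.cons (Pq.L [1,3] 63 (Pf.C 1 0x4060e0c089))
 Pq.nil)))))))) (Pq.cons (Pq.D 3 (Pq.cons (Pq.L [0,1] 63 (Pf.C 1 0x4060e04009))
 (Pq.cons (Pq.L [0,1] 63 (Pf.C 1 0x4060e04009))
 (Pq.cons (Pq.L [0,1] 63 (Pf.C 1 0x4060e04009))
 (Pq.cons (Pq.L [0,1] 63 (Pf.C 1 0x4060e04009))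
 (Pq.cons (Pq.L [0,1] 63 (Pf.C 1 0x4060e04009))
 (Pq.cons (Pq.L [0,4] 63 (Pf.C 1 0x4060e10009))
 (Pq.cons (Pq.L [1,4] 63 (Pf.C 1 0x4060e10089))
 Pq.nil)))))))) (Pq.cons (Pq.D 3 (Pq.cons (Pq.L [0,1] 63 (Pf.C 1 0x4060e04009))
 (Pq.cons (Pq.L [0,1] 63 (Pf.C 1 0x4060e04009))
 (Pq.cons (Pq.L [0,1] 63 (Pf.C 1 0x4060e04009))
 (Pq.cons (Pq.L [0,1] 63 (Pf.C 1 0x4060e04009))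
 (Pq.cons (Pq.L [0,1] 63 (Pf.C 1 0x4060e04009))
 (Pq.cons (Pq.L [0,3] 63 (Pf.C 1 0x4060e0c009))
 (Pq.cons (Pq.L [1,3] 63 (Pf.C 1 0x4060e0c089))
 Pq.nil)))))))) (Pq.cons (Pq.D 3 (Pq.cons (Pq.L [0,3] 63 (Pf.C 1 0x4060e0c009))
 (Pq.cons (Pq.L [0,3] 63 (Pf.C 1 0x4060e0c009))
 (Pq.cons (Pq.L [0,3] 63 (Pf.C 1 0x4060e0c009))
 (Pq.cons (Pq.L [0,4] 63 (Pf.C 1 0x4060e10009))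
 (Pq.cons (Pq.L [0,3] 63 (Pf.C 1 0x4060e0c009))
 (Pq.cons (Pq.L [0,3] 63 (Pf.C 1 0x4060e0c009))
 (Pq.cons (Pq.L [3,4] 63 (Pf.C 1 0x4060e10189))
 Pq.nil)))))))) (Pq.cons (Pq.D 3 (Pq.cons (Pq.L [1,3] 63 (Pf.C 1 0x4060e0c089))
 (Pq.cons (Pq.L [1,3] 63 (Pf.C 1 0x4060e0c089))
 (Pq.cons (Pq.L [1,3] 63 (Pf.C 1 0x4060e0c089))
 (Pq.cons (Pq.L [1,4] 63 (Pf.C 1 0x4060e10089))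
 (Pq.cons (Pq.L [1,3] 63 (Pf.C 1 0x4060e0c089))
 (Pq.cons (Pq.L [3,4] 63 (Pf.C 1 0x4060e10189))
 (Pq.cons (Pq.L [1,3] 63 (Pf.C 1 0x4060e0c089))
 Pq.nil)))))))) Pq.nil)))))))) (Pq.cons (Pq.D 2 (Pq.cons (Pq.D 3 (Pq.cons (Pq.L [0,2] 63 (Pf.C 1 0x4060e08009))
 (Pq.cons (Pq.L [0,2] 63 (Pf.C 1 0x4060e08009))
 (Pq.cons (Pq.L [0,2] 63 (Pf.C 1 0x4060e08009))
 (Pq.cons (Pq.L [0,2] 63 (Pf.C 1 0x4060e08009))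
 (Pq.cons (Pq.L [0,3] 63 (Pf.C 1 0x4060e0c009))
 (Pq.cons (Pq.L [0,2] 63 (Pf.C 1 0x4060e08009))
 (Pq.cons (Pq.L [2,3] 63 (Pf.C 1 0x4060e0c109))
 Pq.nil)))))))) (Pq.cons (Pq.D 3 (Pq.cons (Pq.L [0,2] 63 (Pf.C 1 0x4060e08009))
 (Pq.cons (Pq.L [0,2] 63 (Pf.C 1 0x4060e08009))
 (Pq.cons (Pq.L [0,2] 63 (Pf.C 1 0x4060e08009))
 (Pq.cons (Pq.L [0,2] 63 (Pf.C 1 0x4060e08009))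
 (Pq.cons (Pq.L [0,3] 63 (Pf.C 1 0x4060e0c009))
 (Pq.cons (Pq.L [0,2] 63 (Pf.C 1 0x4060e08009))
 (Pq.cons (Pq.L [2,3] 63 (Pf.C 1 0x4060e0c109))
 Pq.nil)))))))) (Pq.cons (Pq.D 3 (Pq.cons (Pq.L [0,2] 63 (Pf.C 1 0x4060e08009))
 (Pq.cons (Pq.L [0,2] 63 (Pf.C 1 0x4060e08009))
 (Pq.cons (Pq.L [0,2] 63 (Pf.C 1 0x4060e08009))
 (Pq.cons (Pq.L [0,2] 63 (Pf.C 1 0x4060e08009))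
 (Pq.cons (Pq.L [0,3] 63 (Pf.C 1 0x4060e0c009))
 (Pq.cons (Pq.L [0,2] 63 (Pf.C 1 0x4060e08009))
 (Pq.cons (Pq.L [2,3] 63 (Pf.C 1 0x4060e0c109))
 Pq.nil)))))))) (Pq.cons (Pq.D 3 (Pq.cons (Pq.L [0,2] 63 (Pf.C 1 0x4060e08009))
 (Pq.cons (Pq.L [0,2] 63 (Pf.C 1 0x4060e08009))
 (Pq.cons (Pq.L [0,2] 63 (Pf.C 1 0x4060e08009))
 (Pq.cons (Pq.L [0,2] 63 (Pf.C 1 0x4060e08009))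
 (Pq.cons (Pq.L [0,4] 63 (Pf.C 1 0x4060e10009))
 (Pq.cons (Pq.L [0,2] 63 (Pf.C 1 0x4060e08009))
 (Pq.cons (Pq.L [2,4] 63 (Pf.C 1 0x4060e10109))
 Pq.nil)))))))) (Pq.cons (Pq.D 3 (Pq.cons (Pq.L [0,3] 63 (Pf.C 1 0x4060e0c009))
 (Pq.cons (Pq.L [0,3] 63 (Pf.C 1 0x4060e0c009))
 (Pq.cons (Pq.L [0,3] 63 (Pf.C 1 0x4060e0c009))
 (Pq.cons (Pq.L [0,4] 63 (Pf.C 1 0x4060e10009))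
 (Pq.cons (Pq.L [0,3] 63 (Pf.C 1 0x4060e0c009))
 (Pq.cons (Pq.L [0,3] 63 (Pf.C 1 0x4060e0c009))
 (Pq.cons (Pq.L [3,4] 63 (Pf.C 1 0x4060e10189))
 Pq.nil)))))))) (Pq.cons (Pq.D 3 (Pq.cons (Pq.L [0,2] 63 (Pf.C 1 0x4060e08009))
 (Pq.cons (Pq.L [0,2] 63 (Pf.C 1 0x4060e08009))
 (Pq.cons (Pq.L [0,2] 63 (Pf.C 1 0x4060e08009))
 (Pq.cons (Pq.L [0,2] 63 (Pf.C 1 0x4060e08009))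
 (Pq.cons (Pq.L [0,3] 63 (Pf.C 1 0x4060e0c009))
 (Pq.cons (Pq.L [0,2] 63 (Pf.C 1 0x4060e08009))
 (Pq.cons (Pq.L [2,3] 63 (Pf.C 1 0x4060e0c109))
 Pq.nil)))))))) (Pq.cons (Pq.D 3 (Pq.cons (Pq.L [2,3] 63 (Pf.C 1 0x4060e0c109))
 (Pq.cons (Pq.L [2,3] 63 (Pf.C 1 0x4060e0c109))
 (Pq.cons (Pq.L [2,3] 63 (Pf.C 1 0x4060e0c109))
 (Pq.cons (Pq.L [2,4] 63 (Pf.C 1 0x4060e10109))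
 (Pq.cons (Pq.L [3,4] 63 (Pf.C 1 0x4060e10189))
 (Pq.cons (Pq.L [2,3] 63 (Pf.C 1 0x4060e0c109))
 (Pq.cons (Pq.L [2,3] 63 (Pf.C 1 0x4060e0c109))
 Pq.nil)))))))) Pq.nil)))))))) (Pq.cons (Pq.D 2 (Pq.cons (Pq.D 3 (Pq.cons (Pq.L [1,2] 63 (Pf.C 1 0x4060e08089))
 (Pq.cons (Pq.L [1,2] 63 (Pf.C 1 0x4060e08089))
 (Pq.cons (Pq.L [1,2] 63 (Pf.C 1 0x4060e08089))
 (Pq.cons (Pq.L [1,2] 63 (Pf.C 1 0x4060e08089))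
 (Pq.cons (Pq.L [1,3] 63 (Pf.C 1 0x4060e0c089))
 (Pq.cons (Pq.L [2,3] 63 (Pf.C 1 0x4060e0c109))
 (Pq.cons (Pq.L [1,2] 63 (Pf.C 1 0x4060e08089))
 Pq.nil)))))))) (Pq.cons (Pq.D 3 (Pq.cons (Pq.L [1,2] 63 (Pf.C 1 0x4060e08089))
 (Pq.cons (Pq.L [1,2] 63 (Pf.C 1 0x4060e08089))
 (Pq.cons (Pq.L [1,2] 63 (Pf.C 1 0x4060e08089))
 (Pq.cons (Pq.L [1,2] 63 (Pf.C 1 0x4060e08089))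
 (Pq.cons (Pq.L [1,3] 63 (Pf.C 1 0x4060e0c089))
 (Pq.cons (Pq.L [2,3] 63 (Pf.C 1 0x4060e0c109))
 (Pq.cons (Pq.L [1,2] 63 (Pf.C 1 0x4060e08089))
 Pq.nil)))))))) (Pq.cons (Pq.D 3 (Pq.cons (Pq.L [1,2] 63 (Pf.C 1 0x4060e08089))
 (Pq.cons (Pq.L [1,2] 63 (Pf.C 1 0x4060e08089))
 (Pq.cons (Pq.L [1,2] 63 (Pf.C 1 0x4060e08089))
 (Pq.cons (Pq.L [1,2] 63 (Pf.C 1 0x4060e08089))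
 (Pq.cons (Pq.L [1,3] 63 (Pf.C 1 0x4060e0c089))
 (Pq.cons (Pq.L [2,3] 63 (Pf.C 1 0x4060e0c109))
 (Pq.cons (Pq.L [1,2] 63 (Pf.C 1 0x4060e08089))
 Pq.nil)))))))) (Pq.cons (Pq.D 3 (Pq.cons (Pq.L [1,2] 63 (Pf.C 1 0x4060e08089))
 (Pq.cons (Pq.L [1,2] 63 (Pf.C 1 0x4060e08089))
 (Pq.cons (Pq.L [1,2] 63 (Pf.C 1 0x4060e08089))
 (Pq.cons (Pq.L [1,2] 63 (Pf.C 1 0x4060e08089))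
 (Pq.cons (Pq.L [1,4] 63 (Pf.C 1 0x4060e10089))
 (Pq.cons (Pq.L [2,4] 63 (Pf.C 1 0x4060e10109))
 (Pq.cons (Pq.L [1,2] 63 (Pf.C 1 0x4060e08089))
 Pq.nil)))))))) (Pq.cons (Pq.D 3 (Pq.cons (Pq.L [1,3] 63 (Pf.C 1 0x4060e0c089))
 (Pq.cons (Pq.L [1,3] 63 (Pf.C 1 0x4060e0c089))
 (Pq.cons (Pq.L [1,3] 63 (Pf.C 1 0x4060e0c089))
 (Pq.cons (Pq.L [1,4] 63 (Pf.C 1 0x4060e10089))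
 (Pq.cons (Pq.L [1,3] 63 (Pf.C 1 0x4060e0c089))
 (Pq.cons (Pq.L [3,4] 63 (Pf.C 1 0x4060e10189))
 (Pq.cons (Pq.L [1,3] 63 (Pf.C 1 0x4060e0c089))
 Pq.nil)))))))) (Pq.cons (Pq.D 3 (Pq.cons (Pq.L [2,3] 63 (Pf.C 1 0x4060e0c109))
 (Pq.cons (Pq.L [2,3] 63 (Pf.C 1 0x4060e0c109))
 (Pq.cons (Pq.L [2,3] 63 (Pf.C 1 0x4060e0c109))
 (Pq.cons (Pq.L [2,4] 63 (Pf.C 1 0x4060e10109))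
 (Pq.cons (Pq.L [3,4] 63 (Pf.C 1 0x4060e10189))
 (Pq.cons (Pq.L [2,3] 63 (Pf.C 1 0x4060e0c109))
 (Pq.cons (Pq.L [2,3] 63 (Pf.C 1 0x4060e0c109))
 Pq.nil)))))))) (Pq.cons (Pq.D 3 (Pq.cons (Pq.L [1,2] 63 (Pf.C 1 0x4060e08089))
 (Pq.cons (Pq.L [1,2] 63 (Pf.C 1 0x4060e08089))
 (Pq.cons (Pq.L [1,2] 63 (Pf.C 1 0x4060e08089))
 (Pq.cons (Pq.L [1,2] 63 (Pf.C 1 0x4060e08089))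
 (Pq.cons (Pq.L [1,3] 63 (Pf.C 1 0x4060e0c089))
 (Pq.cons (Pq.L [2,3] 63 (Pf.C 1 0x4060e0c109))
 (Pq.cons (Pq.L [1,2] 63 (Pf.C 1 0x4060e08089))
 Pq.nil)))))))) Pq.nil)))))))) Pq.nil)))))))) Pq.nil)
theorem e_o27 : AllRef e_T e_G4 (List.take 1 (List.drop 1 (List.take 3 (List.flatMap (splitP 0) (List.drop 4 (applyObl e1_T 5 [5,6,7,8,9,10,11,12] [1,1,1,1,1,1,1,2] [])))))) :=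
  chkPq_sound e_o27c _ (by decide +kernel)
noncomputable def e_o28c : Pq := (Pq.cons (Pq.D 1 (Pq.cons (Pq.D 2 (Pq.cons (Pq.D 3 (Pq.cons (Pq.L [0,1] 63 (Pf.C 1 0x4060e04009))
 (Pq.cons (Pq.L [0,1] 63 (Pf.C 1 0x4060e04009))
 (Pq.cons (Pq.L [0,1] 63 (Pf.C 1 0x4060e04009))
 (Pq.cons (Pq.L [0,1] 63 (Pf.C 1 0x4060e04009))
 (Pq.cons (Pq.L [0,1] 63 (Pf.C 1 0x4060e04009))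
 (Pq.cons (Pq.L [0,2] 63 (Pf.C 1 0x4060e08009))
 (Pq.cons (Pq.L [1,2] 63 (Pf.C 1 0x4060e08089))
 Pq.nil)))))))) (Pq.cons (Pq.D 3 (Pq.cons (Pq.L [0,1] 63 (Pf.C 1 0x4060e04009))
 (Pq.cons (Pq.L [0,1] 63 (Pf.C 1 0x4060e04009))
 (Pq.cons (Pq.L [0,1] 63 (Pf.C 1 0x4060e04009))
 (Pq.cons (Pq.L [0,1] 63 (Pf.C 1 0x4060e04009))
 (Pq.cons (Pq.L [0,1] 63 (Pf.C 1 0x4060e04009))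
 (Pq.cons (Pq.L [0,2] 63 (Pf.C 1 0x4060e08009))
 (Pq.cons (Pq.L [1,2] 63 (Pf.C 1 0x4060e08089))
 Pq.nil)))))))) (Pq.cons (Pq.D 3 (Pq.cons (Pq.L [0,1] 63 (Pf.C 1 0x4060e04009))
 (Pq.cons (Pq.L [0,1] 63 (Pf.C 1 0x4060e04009))
 (Pq.cons (Pq.L [0,1] 63 (Pf.C 1 0x4060e04009))
 (Pq.cons (Pq.L [0,1] 63 (Pf.C 1 0x4060e04009))
 (Pq.cons (Pq.L [0,1] 63 (Pf.C 1 0x4060e04009))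
 (Pq.cons (Pq.L [0,2] 63 (Pf.C 1 0x4060e08009))
 (Pq.cons (Pq.L [1,2] 63 (Pf.C 1 0x4060e08089))
 Pq.nil)))))))) (Pq.cons (Pq.D 3 (Pq.cons (Pq.L [0,1] 63 (Pf.C 1 0x4060e04009))
 (Pq.cons (Pq.L [0,1] 63 (Pf.C 1 0x4060e04009))
 (Pq.cons (Pq.L [0,1] 63 (Pf.C 1 0x4060e04009))
 (Pq.cons (Pq.L [0,1] 63 (Pf.C 1 0x4060e04009))
 (Pq.cons (Pq.L [0,1] 63 (Pf.C 1 0x4060e04009))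
 (Pq.cons (Pq.L [0,2] 63 (Pf.C 1 0x4060e08009))
 (Pq.cons (Pq.L [1,2] 63 (Pf.C 1 0x4060e08089))
 Pq.nil)))))))) (Pq.cons (Pq.D 3 (Pq.cons (Pq.L [0,1] 63 (Pf.C 1 0x4060e04009))
 (Pq.cons (Pq.L [0,1] 63 (Pf.C 1 0x4060e04009))
 (Pq.cons (Pq.L [0,1] 63 (Pf.C 1 0x4060e04009))
 (Pq.cons (Pq.L [0,1] 63 (Pf.C 1 0x4060e04009))
 (Pq.cons (Pq.L [0,1] 63 (Pf.C 1 0x4060e04009))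
 (Pq.cons (Pq.L [0,3] 63 (Pf.C 1 0x4060e0c009))
 (Pq.cons (Pq.L [1,3] 63 (Pf.C 1 0x4060e0c089))
 Pq.nil)))))))) (Pq.cons (Pq.D 3 (Pq.cons (Pq.L [0,2] 63 (Pf.C 1 0x4060e08009))
 (Pq.cons (Pq.L [0,2] 63 (Pf.C 1 0x4060e08009))
 (Pq.cons (Pq.L [0,2] 63 (Pf.C 1 0x4060e08009))
 (Pq.cons (Pq.L [0,2] 63 (Pf.C 1 0x4060e08009))
 (Pq.cons (Pq.L [0,3] 63 (Pf.C 1 0x4060e0c009))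
 (Pq.cons (Pq.L [0,2] 63 (Pf.C 1 0x4060e08009))
 (Pq.cons (Pq.L [2,3] 63 (Pf.C 1 0x4060e0c109))
 Pq.nil)))))))) (Pq.cons (Pq.D 3 (Pq.cons (Pq.L [1,2] 63 (Pf.C 1 0x4060e08089))
 (Pq.cons (Pq.L [1,2] 63 (Pf.C 1 0x4060e08089))
 (Pq.cons (Pq.L [1,2] 63 (Pf.C 1 0x4060e08089))
 (Pq.cons (Pq.L [1,2] 63 (Pf.C 1 0x4060e08089))
 (Pq.cons (Pq.L [1,3] 63 (Pf.C 1 0x4060e0c089))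
 (Pq.cons (Pq.L [2,3] 63 (Pf.C 1 0x4060e0c109))
 (Pq.cons (Pq.L [1,2] 63 (Pf.C 1 0x4060e08089))
 Pq.nil)))))))) Pq.nil)))))))) (Pq.cons (Pq.D 2 (Pq.cons (Pq.D 3 (Pq.cons (Pq.L [0,1] 63 (Pf.C 1 0x4060e04009))
 (Pq.cons (Pq.L [0,1] 63 (Pf.C 1 0x4060e04009))
 (Pq.cons (Pq.L [0,1] 63 (Pf.C 1 0x4060e04009))
 (Pq.cons (Pq.L [0,1] 63 (Pf.C 1 0x4060e04009))
 (Pq.cons (Pq.L [0,1] 63 (Pf.C 1 0x4060e04009))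
 (Pq.cons (Pq.L [0,2] 63 (Pf.C 1 0x4060e08009))
 (Pq.cons (Pq.L [1,2] 63 (Pf.C 1 0x4060e08089))
 Pq.nil)))))))) (Pq.cons (Pq.D 3 (Pq.cons (Pq.L [0,1] 63 (Pf.C 1 0x4060e04009))
 (Pq.cons (Pq.L [0,1] 63 (Pf.C 1 0x4060e04009))
 (Pq.cons (Pq.L [0,1] 63 (Pf.C 1 0x4060e04009))
 (Pq.cons (Pq.L [0,1] 63 (Pf.C 1 0x4060e04009))
 (Pq.cons (Pq.L [0,1] 63 (Pf.C 1 0x4060e04009))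
 (Pq.cons (Pq.L [0,2] 63 (Pf.C 1 0x4060e08009))
 (Pq.cons (Pq.L [1,2] 63 (Pf.C 1 0x4060e08089))
 Pq.nil)))))))) (Pq.cons (Pq.D 3 (Pq.cons (Pq.L [0,1] 63 (Pf.C 1 0x4060e04009))
 (Pq.cons (Pq.L [0,1] 63 (Pf.C 1 0x4060e04009))
 (Pq.cons (Pq.L [0,1] 63 (Pf.C 1 0x4060e04009))
 (Pq.cons (Pq.L [0,1] 63 (Pf.C 1 0x4060e04009))
 (Pq.cons (Pq.L [0,1] 63 (Pf.C 1 0x4060e04009))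
 (Pq.cons (Pq.L [0,2] 63 (Pf.C 1 0x4060e08009))
 (Pq.cons (Pq.L [1,2] 63 (Pf.C 1 0x4060e08089))
 Pq.nil)))))))) (Pq.cons (Pq.D 3 (Pq.cons (Pq.L [0,1] 63 (Pf.C 1 0x4060e04009))
 (Pq.cons (Pq.L [0,1] 63 (Pf.C 1 0x4060e04009))
 (Pq.cons (Pq.L [0,1] 63 (Pf.C 1 0x4060e04009))
 (Pq.cons (Pq.L [0,1] 63 (Pf.C 1 0x4060e04009))
 (Pq.cons (Pq.L [0,1] 63 (Pf.C 1 0x4060e04009))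
 (Pq.cons (Pq.L [0,2] 63 (Pf.C 1 0x4060e08009))
 (Pq.cons (Pq.L [1,2] 63 (Pf.C 1 0x4060e08089))
 Pq.nil)))))))) (Pq.cons (Pq.D 3 (Pq.cons (Pq.L [0,1] 63 (Pf.C 1 0x4060e04009))
 (Pq.cons (Pq.L [0,1] 63 (Pf.C 1 0x4060e04009))
 (Pq.cons (Pq.L [0,1] 63 (Pf.C 1 0x4060e04009))
 (Pq.cons (Pq.L [0,1] 63 (Pf.C 1 0x4060e04009))
 (Pq.cons (Pq.L [0,1] 63 (Pf.C 1 0x4060e04009))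
 (Pq.cons (Pq.L [0,3] 63 (Pf.C 1 0x4060e0c009))
 (Pq.cons (Pq.L [1,3] 63 (Pf.C 1 0x4060e0c089))
 Pq.nil)))))))) (Pq.cons (Pq.D 3 (Pq.cons (Pq.L [0,2] 63 (Pf.C 1 0x4060e08009))
 (Pq.cons (Pq.L [0,2] 63 (Pf.C 1 0x4060e08009))
 (Pq.cons (Pq.L [0,2] 63 (Pf.C 1 0x4060e08009))
 (Pq.cons (Pq.L [0,2] 63 (Pf.C 1 0x4060e08009))
 (Pq.cons (Pq.L [0,3] 63 (Pf.C 1 0x4060e0c009))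
 (Pq.cons (Pq.L [0,2] 63 (Pf.C 1 0x4060e08009))
 (Pq.cons (Pq.L [2,3] 63 (Pf.C 1 0x4060e0c109))
 Pq.nil)))))))) (Pq.cons (Pq.D 3 (Pq.cons (Pq.L [1,2] 63 (Pf.C 1 0x4060e08089))
 (Pq.cons (Pq.L [1,2] 63 (Pf.C 1 0x4060e08089))
 (Pq.cons (Pq.L [1,2] 63 (Pf.C 1 0x4060e08089))
 (Pq.cons (Pq.L [1,2] 63 (Pf.C 1 0x4060e08089))
 (Pq.cons (Pq.L [1,3] 63 (Pf.C 1 0x4060e0c089))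
 (Pq.cons (Pq.L [2,3] 63 (Pf.C 1 0x4060e0c109))
 (Pq.cons (Pq.L [1,2] 63 (Pf.C 1 0x4060e08089))
 Pq.nil)))))))) Pq.nil)))))))) (Pq.cons (Pq.D 2 (Pq.cons (Pq.D 3 (Pq.cons (Pq.L [0,1] 63 (Pf.C 1 0x4060e04009))
 (Pq.cons (Pq.L [0,1] 63 (Pf.C 1 0x4060e04009))
 (Pq.cons (Pq.L [0,1] 63 (Pf.C 1 0x4060e04009))
 (Pq.cons (Pq.L [0,1] 63 (Pf.C 1 0x4060e04009))
 (Pq.cons (Pq.L [0,1] 63 (Pf.C 1 0x4060e04009))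
 (Pq.cons (Pq.L [0,2] 63 (Pf.C 1 0x4060e08009))
 (Pq.cons (Pq.L [1,2] 63 (Pf.C 1 0x4060e08089))
 Pq.nil)))))))) (Pq.cons (Pq.D 3 (Pq.cons (Pq.L [0,1] 63 (Pf.C 1 0x4060e04009))
 (Pq.cons (Pq.L [0,1] 63 (Pf.C 1 0x4060e04009))
 (Pq.cons (Pq.L [0,1] 63 (Pf.C 1 0x4060e04009))
 (Pq.cons (Pq.L [0,1] 63 (Pf.C 1 0x4060e04009))
 (Pq.cons (Pq.L [0,1] 63 (Pf.C 1 0x4060e04009))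
 (Pq.cons (Pq.L [0,2] 63 (Pf.C 1 0x4060e08009))
 (Pq.cons (Pq.L [1,2] 63 (Pf.C 1 0x4060e08089))
 Pq.nil)))))))) (Pq.cons (Pq.L [4] 11 (Pf.C 0 0x1010307))
 (Pq.cons (Pq.D 3 (Pq.cons (Pq.L [0,1] 63 (Pf.C 1 0x4060e04009))
 (Pq.cons (Pq.L [0,1] 63 (Pf.C 1 0x4060e04009))
 (Pq.cons (Pq.L [0,1] 63 (Pf.C 1 0x4060e04009))
 (Pq.cons (Pq.L [0,1] 63 (Pf.C 1 0x4060e04009))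
 (Pq.cons (Pq.L [0,1] 63 (Pf.C 1 0x4060e04009))
 (Pq.cons (Pq.L [0,2] 63 (Pf.C 1 0x4060e08009))
 (Pq.cons (Pq.L [1,2] 63 (Pf.C 1 0x4060e08089))
 Pq.nil)))))))) (Pq.cons (Pq.D 3 (Pq.cons (Pq.L [0,1] 63 (Pf.C 1 0x4060e04009))
 (Pq.cons (Pq.L [0,1] 63 (Pf.C 1 0x4060e04009))
 (Pq.cons (Pq.L [0,1] 63 (Pf.C 1 0x4060e04009))
 (Pq.cons (Pq.L [0,1] 63 (Pf.C 1 0x4060e04009))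
 (Pq.cons (Pq.L [0,1] 63 (Pf.C 1 0x4060e04009))
 (Pq.cons (Pq.L [0,3] 63 (Pf.C 1 0x4060e0c009))
 (Pq.cons (Pq.L [1,3] 63 (Pf.C 1 0x4060e0c089))
 Pq.nil)))))))) (Pq.cons (Pq.D 3 (Pq.cons (Pq.L [0,2] 63 (Pf.C 1 0x4060e08009))
 (Pq.cons (Pq.L [0,2] 63 (Pf.C 1 0x4060e08009))
 (Pq.cons (Pq.L [0,2] 63 (Pf.C 1 0x4060e08009))
 (Pq.cons (Pq.L [0,2] 63 (Pf.C 1 0x4060e08009))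
 (Pq.cons (Pq.L [0,3] 63 (Pf.C 1 0x4060e0c009))
 (Pq.cons (Pq.L [0,2] 63 (Pf.C 1 0x4060e08009))
 (Pq.cons (Pq.L [2,3] 63 (Pf.C 1 0x4060e0c109))
 Pq.nil)))))))) (Pq.cons (Pq.D 3 (Pq.cons (Pq.L [1,2] 63 (Pf.C 1 0x4060e08089))
 (Pq.cons (Pq.L [1,2] 63 (Pf.C 1 0x4060e08089))
 (Pq.cons (Pq.L [1,2] 63 (Pf.C 1 0x4060e08089))
 (Pq.cons (Pq.L [1,2] 63 (Pf.C 1 0x4060e08089))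
 (Pq.cons (Pq.L [1,3] 63 (Pf.C 1 0x4060e0c089))
 (Pq.cons (Pq.L [2,3] 63 (Pf.C 1 0x4060e0c109))
 (Pq.cons (Pq.L [1,2] 63 (Pf.C 1 0x4060e08089))
 Pq.nil)))))))) Pq.nil)))))))) (Pq.cons (Pq.D 2 (Pq.cons (Pq.D 3 (Pq.cons (Pq.L [0,1] 63 (Pf.C 1 0x4060e04009))
 (Pq.cons (Pq.L [0,1] 63 (Pf.C 1 0x4060e04009))
 (Pq.cons (Pq.L [0,1] 63 (Pf.C 1 0x4060e04009))
 (Pq.cons (Pq.L [0,1] 63 (Pf.C 1 0x4060e04009))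
 (Pq.cons (Pq.L [0,1] 63 (Pf.C 1 0x4060e04009))
 (Pq.cons (Pq.L [0,2] 63 (Pf.C 1 0x4060e08009))
 (Pq.cons (Pq.L [1,2] 63 (Pf.C 1 0x4060e08089))
 Pq.nil)))))))) (Pq.cons (Pq.D 3 (Pq.cons (Pq.L [0,1] 63 (Pf.C 1 0x4060e04009))
 (Pq.cons (Pq.L [0,1] 63 (Pf.C 1 0x4060e04009))
 (Pq.cons (Pq.L [0,1] 63 (Pf.C 1 0x4060e04009))
 (Pq.cons (Pq.L [0,1] 63 (Pf.C 1 0x4060e04009))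
 (Pq.cons (Pq.L [0,1] 63 (Pf.C 1 0x4060e04009))
 (Pq.cons (Pq.L [0,2] 63 (Pf.C 1 0x4060e08009))
 (Pq.cons (Pq.L [1,2] 63 (Pf.C 1 0x4060e08089))
 Pq.nil)))))))) (Pq.cons (Pq.D 3 (Pq.cons (Pq.L [0,1] 63 (Pf.C 1 0x4060e04009))
 (Pq.cons (Pq.L [0,1] 63 (Pf.C 1 0x4060e04009))
 (Pq.cons (Pq.L [0,1] 63 (Pf.C 1 0x4060e04009))
 (Pq.cons (Pq.L [0,1] 63 (Pf.C 1 0x4060e04009))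
 (Pq.cons (Pq.L [0,1] 63 (Pf.C 1 0x4060e04009))
 (Pq.cons (Pq.L [0,2] 63 (Pf.C 1 0x4060e08009))
 (Pq.cons (Pq.L [1,2] 63 (Pf.C 1 0x4060e08089))
 Pq.nil)))))))) (Pq.cons (Pq.D 3 (Pq.cons (Pq.L [0,1] 63 (Pf.C 1 0x4060e04009))
 (Pq.cons (Pq.L [0,1] 63 (Pf.C 1 0x4060e04009))
 (Pq.cons (Pq.L [0,1] 63 (Pf.C 1 0x4060e04009))
 (Pq.cons (Pq.L [0,1] 63 (Pf.C 1 0x4060e04009))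
 (Pq.cons (Pq.L [0,1] 63 (Pf.C 1 0x4060e04009))
 (Pq.cons (Pq.L [0,2] 63 (Pf.C 1 0x4060e08009))
 (Pq.cons (Pq.L [1,2] 63 (Pf.C 1 0x4060e08089))
 Pq.nil)))))))) (Pq.cons (Pq.D 3 (Pq.cons (Pq.L [0,1] 63 (Pf.C 1 0x4060e04009))
 (Pq.cons (Pq.L [0,1] 63 (Pf.C 1 0x4060e04009))
 (Pq.cons (Pq.L [0,1] 63 (Pf.C 1 0x4060e04009))
 (Pq.cons (Pq.L [0,1] 63 (Pf.C 1 0x4060e04009))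
 (Pq.cons (Pq.L [0,1] 63 (Pf.C 1 0x4060e04009))
 (Pq.cons (Pq.L [0,5] 63 (Pf.C 1 0x4060e14009))
 (Pq.cons (Pq.L [1,5] 63 (Pf.C 1 0x4060e14089))
 Pq.nil)))))))) (Pq.cons (Pq.D 3 (Pq.cons (Pq.L [0,2] 63 (Pf.C 1 0x4060e08009))
 (Pq.cons (Pq.L [0,2] 63 (Pf.C 1 0x4060e08009))
 (Pq.cons (Pq.L [0,2] 63 (Pf.C 1 0x4060e08009))
 (Pq.cons (Pq.L [0,2] 63 (Pf.C 1 0x4060e08009))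
 (Pq.cons (Pq.L [0,5] 63 (Pf.C 1 0x4060e14009))
 (Pq.cons (Pq.L [0,2] 63 (Pf.C 1 0x4060e08009))
 (Pq.cons (Pq.L [2,5] 63 (Pf.C 1 0x4060e14109))
 Pq.nil)))))))) (Pq.cons (Pq.D 3 (Pq.cons (Pq.L [1,2] 63 (Pf.C 1 0x4060e08089))
 (Pq.cons (Pq.L [1,2] 63 (Pf.C 1 0x4060e08089))
 (Pq.cons (Pq.L [1,2] 63 (Pf.C 1 0x4060e08089))
 (Pq.cons (Pq.L [1,2] 63 (Pf.C 1 0x4060e08089))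
 (Pq.cons (Pq.L [1,5] 63 (Pf.C 1 0x4060e14089))
 (Pq.cons (Pq.L [2,5] 63 (Pf.C 1 0x4060e14109))
 (Pq.cons (Pq.L [1,2] 63 (Pf.C 1 0x4060e08089))
 Pq.nil)))))))) Pq.nil)))))))) (Pq.cons (Pq.D 2 (Pq.cons (Pq.D 3 (Pq.cons (Pq.L [0,1] 63 (Pf.C 1 0x4060e04009))
 (Pq.cons (Pq.L [0,1] 63 (Pf.C 1 0x4060e04009))
 (Pq.cons (Pq.L [0,1] 63 (Pf.C 1 0x4060e04009))
 (Pq.cons (Pq.L [0,1] 63 (Pf.C 1 0x4060e04009))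
 (Pq.cons (Pq.L [0,1] 63 (Pf.C 1 0x4060e04009))
 (Pq.cons (Pq.L [0,3] 63 (Pf.C 1 0x4060e0c009))
 (Pq.cons (Pq.L [1,3] 63 (Pf.C 1 0x4060e0c089))
 Pq.nil)))))))) (Pq.cons (Pq.D 3 (Pq.cons (Pq.L [0,1] 63 (Pf.C 1 0x4060e04009))
 (Pq.cons (Pq.L [0,1] 63 (Pf.C 1 0x4060e04009))
 (Pq.cons (Pq.L [0,1] 63 (Pf.C 1 0x4060e04009))
 (Pq.cons (Pq.L [0,1] 63 (Pf.C 1 0x4060e04009))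
 (Pq.cons (Pq.L [0,1] 63 (Pf.C 1 0x4060e04009))
 (Pq.cons (Pq.L [0,3] 63 (Pf.C 1 0x4060e0c009))
 (Pq.cons (Pq.L [1,3] 63 (Pf.C 1 0x4060e0c089))
 Pq.nil)))))))) (Pq.cons (Pq.D 3 (Pq.cons (Pq.L [0,1] 63 (Pf.C 1 0x4060e04009))
 (Pq.cons (Pq.L [0,1] 63 (Pf.C 1 0x4060e04009))
 (Pq.cons (Pq.L [0,1] 63 (Pf.C 1 0x4060e04009))
 (Pq.cons (Pq.L [0,1] 63 (Pf.C 1 0x4060e04009))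
 (Pq.cons (Pq.L [0,1] 63 (Pf.C 1 0x4060e04009))
 (Pq.cons (Pq.L [0,3] 63 (Pf.C 1 0x4060e0c009))
 (Pq.cons (Pq.L [1,3] 63 (Pf.C 1 0x4060e0c089))
 Pq.nil)))))))) (Pq.cons (Pq.D 3 (Pq.cons (Pq.L [0,1] 63 (Pf.C 1 0x4060e04009))
 (Pq.cons (Pq.L [0,1] 63 (Pf.C 1 0x4060e04009))
 (Pq.cons (Pq.L [0,1] 63 (Pf.C 1 0x4060e04009))
 (Pq.cons (Pq.L [0,1] 63 (Pf.C 1 0x4060e04009))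
 (Pq.cons (Pq.L [0,1] 63 (Pf.C 1 0x4060e04009))
 (Pq.cons (Pq.L [0,5] 63 (Pf.C 1 0x4060e14009))
 (Pq.cons (Pq.L [1,5] 63 (Pf.C 1 0x4060e14089))
 Pq.nil)))))))) (Pq.cons (Pq.D 3 (Pq.cons (Pq.L [0,1] 63 (Pf.C 1 0x4060e04009))
 (Pq.cons (Pq.L [0,1] 63 (Pf.C 1 0x4060e04009))
 (Pq.cons (Pq.L [0,1] 63 (Pf.C 1 0x4060e04009))
 (Pq.cons (Pq.L [0,1] 63 (Pf.C 1 0x4060e04009))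
 (Pq.cons (Pq.L [0,1] 63 (Pf.C 1 0x4060e04009))
 (Pq.cons (Pq.L [0,3] 63 (Pf.C 1 0x4060e0c009))
 (Pq.cons (Pq.L [1,3] 63 (Pf.C 1 0x4060e0c089))
 Pq.nil)))))))) (Pq.cons (Pq.D 3 (Pq.cons (Pq.L [0,3] 63 (Pf.C 1 0x4060e0c009))
 (Pq.cons (Pq.L [0,3] 63 (Pf.C 1 0x4060e0c009))
 (Pq.cons (Pq.L [0,3] 63 (Pf.C 1 0x4060e0c009))
 (Pq.cons (Pq.L [0,5] 63 (Pf.C 1 0x4060e14009))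
 (Pq.cons (Pq.L [0,3] 63 (Pf.C 1 0x4060e0c009))
 (Pq.cons (Pq.L [0,3] 63 (Pf.C 1 0x4060e0c009))
 (Pq.cons (Pq.L [3,5] 63 (Pf.C 1 0x4060e14189))
 Pq.nil)))))))) (Pq.cons (Pq.D 3 (Pq.cons (Pq.L [1,3] 63 (Pf.C 1 0x4060e0c089))
 (Pq.cons (Pq.L [1,3] 63 (Pf.C 1 0x4060e0c089))
 (Pq.cons (Pq.L [1,3] 63 (Pf.C 1 0x4060e0c089))
 (Pq.cons (Pq.L [1,5] 63 (Pf.C 1 0x4060e14089))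
 (Pq.cons (Pq.L [1,3] 63 (Pf.C 1 0x4060e0c089))
 (Pq.cons (Pq.L [3,5] 63 (Pf.C 1 0x4060e14189))
 (Pq.cons (Pq.L [1,3] 63 (Pf.C 1 0x4060e0c089))
 Pq.nil)))))))) Pq.nil)))))))) (Pq.cons (Pq.D 2 (Pq.cons (Pq.D 3 (Pq.cons (Pq.L [0,2] 63 (Pf.C 1 0x4060e08009))
 (Pq.cons (Pq.L [0,2] 63 (Pf.C 1 0x4060e08009))
 (Pq.cons (Pq.L [0,2] 63 (Pf.C 1 0x4060e08009))
 (Pq.cons (Pq.L [0,2] 63 (Pf.C 1 0x4060e08009))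
 (Pq.cons (Pq.L [0,3] 63 (Pf.C 1 0x4060e0c009))
 (Pq.cons (Pq.L [0,2] 63 (Pf.C 1 0x4060e08009))
 (Pq.cons (Pq.L [2,3] 63 (Pf.C 1 0x4060e0c109))
 Pq.nil)))))))) (Pq.cons (Pq.D 3 (Pq.cons (Pq.L [0,2] 63 (Pf.C 1 0x4060e08009))
 (Pq.cons (Pq.L [0,2] 63 (Pf.C 1 0x4060e08009))
 (Pq.cons (Pq.L [0,2] 63 (Pf.C 1 0x4060e08009))
 (Pq.cons (Pq.L [0,2] 63 (Pf.C 1 0x4060e08009))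
 (Pq.cons (Pq.L [0,3] 63 (Pf.C 1 0x4060e0c009))
 (Pq.cons (Pq.L [0,2] 63 (Pf.C 1 0x4060e08009))
 (Pq.cons (Pq.L [2,3] 63 (Pf.C 1 0x4060e0c109))
 Pq.nil)))))))) (Pq.cons (Pq.D 3 (Pq.cons (Pq.L [0,2] 63 (Pf.C 1 0x4060e08009))
 (Pq.cons (Pq.L [0,2] 63 (Pf.C 1 0x4060e08009))
 (Pq.cons (Pq.L [0,2] 63 (Pf.C 1 0x4060e08009))
 (Pq.cons (Pq.L [0,2] 63 (Pf.C 1 0x4060e08009))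
 (Pq.cons (Pq.L [0,3] 63 (Pf.C 1 0x4060e0c009))
 (Pq.cons (Pq.L [0,2] 63 (Pf.C 1 0x4060e08009))
 (Pq.cons (Pq.L [2,3] 63 (Pf.C 1 0x4060e0c109))
 Pq.nil)))))))) (Pq.cons (Pq.D 3 (Pq.cons (Pq.L [0,2] 63 (Pf.C 1 0x4060e08009))
 (Pq.cons (Pq.L [0,2] 63 (Pf.C 1 0x4060e08009))
 (Pq.cons (Pq.L [0,2] 63 (Pf.C 1 0x4060e08009))
 (Pq.cons (Pq.L [0,2] 63 (Pf.C 1 0x4060e08009))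
 (Pq.cons (Pq.L [0,5] 63 (Pf.C 1 0x4060e14009))
 (Pq.cons (Pq.L [0,2] 63 (Pf.C 1 0x4060e08009))
 (Pq.cons (Pq.L [2,5] 63 (Pf.C 1 0x4060e14109))
 Pq.nil)))))))) (Pq.cons (Pq.D 3 (Pq.cons (Pq.L [0,3] 63 (Pf.C 1 0x4060e0c009))
 (Pq.cons (Pq.L [0,3] 63 (Pf.C 1 0x4060e0c009))
 (Pq.cons (Pq.L [0,3] 63 (Pf.C 1 0x4060e0c009))
 (Pq.cons (Pq.L [0,5] 63 (Pf.C 1 0x4060e14009))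
 (Pq.cons (Pq.L [0,3] 63 (Pf.C 1 0x4060e0c009))
 (Pq.cons (Pq.L [0,3] 63 (Pf.C 1 0x4060e0c009))
 (Pq.cons (Pq.L [3,5] 63 (Pf.C 1 0x4060e14189))
 Pq.nil)))))))) (Pq.cons (Pq.D 3 (Pq.cons (Pq.L [0,2] 63 (Pf.C 1 0x4060e08009))
 (Pq.cons (Pq.L [0,2] 63 (Pf.C 1 0x4060e08009))
 (Pq.cons (Pq.L [0,2] 63 (Pf.C 1 0x4060e08009))
 (Pq.cons (Pq.L [0,2] 63 (Pf.C 1 0x4060e08009))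
 (Pq.cons (Pq.L [0,3] 63 (Pf.C 1 0x4060e0c009))
 (Pq.cons (Pq.L [0,2] 63 (Pf.C 1 0x4060e08009))
 (Pq.cons (Pq.L [2,3] 63 (Pf.C 1 0x4060e0c109))
 Pq.nil)))))))) (Pq.cons (Pq.D 3 (Pq.cons (Pq.L [2,3] 63 (Pf.C 1 0x4060e0c109))
 (Pq.cons (Pq.L [2,3] 63 (Pf.C 1 0x4060e0c109))
 (Pq.cons (Pq.L [2,3] 63 (Pf.C 1 0x4060e0c109))
 (Pq.cons (Pq.L [2,5] 63 (Pf.C 1 0x4060e14109))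
 (Pq.cons (Pq.L [3,5] 63 (Pf.C 1 0x4060e14189))
 (Pq.cons (Pq.L [2,3] 63 (Pf.C 1 0x4060e0c109))
 (Pq.cons (Pq.L [2,3] 63 (Pf.C 1 0x4060e0c109))
 Pq.nil)))))))) Pq.nil)))))))) (Pq.cons (Pq.D 2 (Pq.cons (Pq.D 3 (Pq.cons (Pq.L [1,2] 63 (Pf.C 1 0x4060e08089))
 (Pq.cons (Pq.L [1,2] 63 (Pf.C 1 0x4060e08089))
 (Pq.cons (Pq.L [1,2] 63 (Pf.C 1 0x4060e08089))
 (Pq.cons (Pq.L [1,2] 63 (Pf.C 1 0x4060e08089))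
 (Pq.cons (Pq.L [1,3] 63 (Pf.C 1 0x4060e0c089))
 (Pq.cons (Pq.L [2,3] 63 (Pf.C 1 0x4060e0c109))
 (Pq.cons (Pq.L [1,2] 63 (Pf.C 1 0x4060e08089))
 Pq.nil)))))))) (Pq.cons (Pq.D 3 (Pq.cons (Pq.L [1,2] 63 (Pf.C 1 0x4060e08089))
 (Pq.cons (Pq.L [1,2] 63 (Pf.C 1 0x4060e08089))
 (Pq.cons (Pq.L [1,2] 63 (Pf.C 1 0x4060e08089))
 (Pq.cons (Pq.L [1,2] 63 (Pf.C 1 0x4060e08089))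
 (Pq.cons (Pq.L [1,3] 63 (Pf.C 1 0x4060e0c089))
 (Pq.cons (Pq.L [2,3] 63 (Pf.C 1 0x4060e0c109))
 (Pq.cons (Pq.L [1,2] 63 (Pf.C 1 0x4060e08089))
 Pq.nil)))))))) (Pq.cons (Pq.D 3 (Pq.cons (Pq.L [1,2] 63 (Pf.C 1 0x4060e08089))
 (Pq.cons (Pq.L [1,2] 63 (Pf.C 1 0x4060e08089))
 (Pq.cons (Pq.L [1,2] 63 (Pf.C 1 0x4060e08089))
 (Pq.cons (Pq.L [1,2] 63 (Pf.C 1 0x4060e08089))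
 (Pq.cons (Pq.L [1,3] 63 (Pf.C 1 0x4060e0c089))
 (Pq.cons (Pq.L [2,3] 63 (Pf.C 1 0x4060e0c109))
 (Pq.cons (Pq.L [1,2] 63 (Pf.C 1 0x4060e08089))
 Pq.nil)))))))) (Pq.cons (Pq.D 3 (Pq.cons (Pq.L [1,2] 63 (Pf.C 1 0x4060e08089))
 (Pq.cons (Pq.L [1,2] 63 (Pf.C 1 0x4060e08089))
 (Pq.cons (Pq.L [1,2] 63 (Pf.C 1 0x4060e08089))
 (Pq.cons (Pq.L [1,2] 63 (Pf.C 1 0x4060e08089))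
 (Pq.cons (Pq.L [1,5] 63 (Pf.C 1 0x4060e14089))
 (Pq.cons (Pq.L [2,5] 63 (Pf.C 1 0x4060e14109))
 (Pq.cons (Pq.L [1,2] 63 (Pf.C 1 0x4060e08089))
 Pq.nil)))))))) (Pq.cons (Pq.D 3 (Pq.cons (Pq.L [1,3] 63 (Pf.C 1 0x4060e0c089))
 (Pq.cons (Pq.L [1,3] 63 (Pf.C 1 0x4060e0c089))
 (Pq.cons (Pq.L [1,3] 63 (Pf.C 1 0x4060e0c089))
 (Pq.cons (Pq.L [1,5] 63 (Pf.C 1 0x4060e14089))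
 (Pq.cons (Pq.L [1,3] 63 (Pf.C 1 0x4060e0c089))
 (Pq.cons (Pq.L [3,5] 63 (Pf.C 1 0x4060e14189))
 (Pq.cons (Pq.L [1,3] 63 (Pf.C 1 0x4060e0c089))
 Pq.nil)))))))) (Pq.cons (Pq.D 3 (Pq.cons (Pq.L [2,3] 63 (Pf.C 1 0x4060e0c109))
 (Pq.cons (Pq.L [2,3] 63 (Pf.C 1 0x4060e0c109))
 (Pq.cons (Pq.L [2,3] 63 (Pf.C 1 0x4060e0c109))
 (Pq.cons (Pq.L [2,5] 63 (Pf.C 1 0x4060e14109))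
 (Pq.cons (Pq.L [3,5] 63 (Pf.C 1 0x4060e14189))
 (Pq.cons (Pq.L [2,3] 63 (Pf.C 1 0x4060e0c109))
 (Pq.cons (Pq.L [2,3] 63 (Pf.C 1 0x4060e0c109))
 Pq.nil)))))))) (Pq.cons (Pq.D 3 (Pq.cons (Pq.L [1,2] 63 (Pf.C 1 0x4060e08089))
 (Pq.cons (Pq.L [1,2] 63 (Pf.C 1 0x4060e08089))
 (Pq.cons (Pq.L [1,2] 63 (Pf.C 1 0x4060e08089))
 (Pq.cons (Pq.L [1,2] 63 (Pf.C 1 0x4060e08089))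
 (Pq.cons (Pq.L [1,3] 63 (Pf.C 1 0x4060e0c089))
 (Pq.cons (Pq.L [2,3] 63 (Pf.C 1 0x4060e0c109))
 (Pq.cons (Pq.L [1,2] 63 (Pf.C 1 0x4060e08089))
 Pq.nil)))))))) Pq.nil)))))))) Pq.nil)))))))) Pq.nil)
theorem e_o28 : AllRef e_T e_G4 (List.drop 1 (List.drop 1 (List.take 3 (List.flatMap (splitP 0) (List.drop 4 (applyObl e1_T 5 [5,6,7,8,9,10,11,12] [1,1,1,1,1,1,1,2] [])))))) :=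
  chkPq_sound e_o28c _ (by decide +kernel)
noncomputable def e_o29c : Pq := (Pq.cons (Pq.D 1 (Pq.cons (Pq.D 2 (Pq.cons (Pq.D 3 (Pq.cons (Pq.L [0,1] 63 (Pf.C 1 0x4060e04009))
 (Pq.cons (Pq.L [0,1] 63 (Pf.C 1 0x4060e04009))
 (Pq.cons (Pq.L [0,1] 63 (Pf.C 1 0x4060e04009))
 (Pq.cons (Pq.L [0,1] 63 (Pf.C 1 0x4060e04009))
 (Pq.cons (Pq.L [0,1] 63 (Pf.C 1 0x4060e04009))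
 (Pq.cons (Pq.L [0,2] 63 (Pf.C 1 0x4060e08009))
 (Pq.cons (Pq.L [1,2] 63 (Pf.C 1 0x4060e08089))
 Pq.nil)))))))) (Pq.cons (Pq.D 3 (Pq.cons (Pq.L [0,1] 63 (Pf.C 1 0x4060e04009))
 (Pq.cons (Pq.L [0,1] 63 (Pf.C 1 0x4060e04009))
 (Pq.cons (Pq.L [0,1] 63 (Pf.C 1 0x4060e04009))
 (Pq.cons (Pq.L [0,1] 63 (Pf.C 1 0x4060e04009))
 (Pq.cons (Pq.L [0,1] 63 (Pf.C 1 0x4060e04009))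
 (Pq.cons (Pq.L [0,2] 63 (Pf.C 1 0x4060e08009))
 (Pq.cons (Pq.L [1,2] 63 (Pf.C 1 0x4060e08089))
 Pq.nil)))))))) (Pq.cons (Pq.D 3 (Pq.cons (Pq.L [0,1] 63 (Pf.C 1 0x4060e04009))
 (Pq.cons (Pq.L [0,1] 63 (Pf.C 1 0x4060e04009))
 (Pq.cons (Pq.L [0,1] 63 (Pf.C 1 0x4060e04009))
 (Pq.cons (Pq.L [0,1] 63 (Pf.C 1 0x4060e04009))
 (Pq.cons (Pq.L [0,1] 63 (Pf.C 1 0x4060e04009))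
 (Pq.cons (Pq.L [0,2] 63 (Pf.C 1 0x4060e08009))
 (Pq.cons (Pq.L [1,2] 63 (Pf.C 1 0x4060e08089))
 Pq.nil)))))))) (Pq.cons (Pq.D 3 (Pq.cons (Pq.L [0,1] 63 (Pf.C 1 0x4060e04009))
 (Pq.cons (Pq.L [0,1] 63 (Pf.C 1 0x4060e04009))
 (Pq.cons (Pq.L [0,1] 63 (Pf.C 1 0x4060e04009))
 (Pq.cons (Pq.L [0,1] 63 (Pf.C 1 0x4060e04009))
 (Pq.cons (Pq.L [0,1] 63 (Pf.C 1 0x4060e04009))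
 (Pq.cons (Pq.L [0,2] 63 (Pf.C 1 0x4060e08009))
 (Pq.cons (Pq.L [1,2] 63 (Pf.C 1 0x4060e08089))
 Pq.nil)))))))) (Pq.cons (Pq.D 3 (Pq.cons (Pq.L [0,1] 63 (Pf.C 1 0x4060e04009))
 (Pq.cons (Pq.L [0,1] 63 (Pf.C 1 0x4060e04009))
 (Pq.cons (Pq.L [0,1] 63 (Pf.C 1 0x4060e04009))
 (Pq.cons (Pq.L [0,1] 63 (Pf.C 1 0x4060e04009))
 (Pq.cons (Pq.L [0,1] 63 (Pf.C 1 0x4060e04009))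
 (Pq.cons (Pq.L [0,4] 63 (Pf.C 1 0x4060e10009))
 (Pq.cons (Pq.L [1,4] 63 (Pf.C 1 0x4060e10089))
 Pq.nil)))))))) (Pq.cons (Pq.D 3 (Pq.cons (Pq.L [0,2] 63 (Pf.C 1 0x4060e08009))
 (Pq.cons (Pq.L [0,2] 63 (Pf.C 1 0x4060e08009))
 (Pq.cons (Pq.L [0,2] 63 (Pf.C 1 0x4060e08009))
 (Pq.cons (Pq.L [0,2] 63 (Pf.C 1 0x4060e08009))
 (Pq.cons (Pq.L [0,4] 63 (Pf.C 1 0x4060e10009))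
 (Pq.cons (Pq.L [0,2] 63 (Pf.C 1 0x4060e08009))
 (Pq.cons (Pq.L [2,4] 63 (Pf.C 1 0x4060e10109))
 Pq.nil)))))))) (Pq.cons (Pq.D 3 (Pq.cons (Pq.L [1,2] 63 (Pf.C 1 0x4060e08089))
 (Pq.cons (Pq.L [1,2] 63 (Pf.C 1 0x4060e08089))
 (Pq.cons (Pq.L [1,2] 63 (Pf.C 1 0x4060e08089))
 (Pq.cons (Pq.L [1,2] 63 (Pf.C 1 0x4060e08089))
 (Pq.cons (Pq.L [1,4] 63 (Pf.C 1 0x4060e10089))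
 (Pq.cons (Pq.L [2,4] 63 (Pf.C 1 0x4060e10109))
 (Pq.cons (Pq.L [1,2] 63 (Pf.C 1 0x4060e08089))
 Pq.nil)))))))) Pq.nil)))))))) (Pq.cons (Pq.D 2 (Pq.cons (Pq.D 3 (Pq.cons (Pq.L [0,1] 63 (Pf.C 1 0x4060e04009))
 (Pq.cons (Pq.L [0,1] 63 (Pf.C 1 0x4060e04009))
 (Pq.cons (Pq.L [0,1] 63 (Pf.C 1 0x4060e04009))
 (Pq.cons (Pq.L [0,1] 63 (Pf.C 1 0x4060e04009))
 (Pq.cons (Pq.L [0,1] 63 (Pf.C 1 0x4060e04009))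
 (Pq.cons (Pq.L [0,2] 63 (Pf.C 1 0x4060e08009))
 (Pq.cons (Pq.L [1,2] 63 (Pf.C 1 0x4060e08089))
 Pq.nil)))))))) (Pq.cons (Pq.D 3 (Pq.cons (Pq.L [0,1] 63 (Pf.C 1 0x4060e04009))
 (Pq.cons (Pq.L [0,1] 63 (Pf.C 1 0x4060e04009))
 (Pq.cons (Pq.L [0,1] 63 (Pf.C 1 0x4060e04009))
 (Pq.cons (Pq.L [0,1] 63 (Pf.C 1 0x4060e04009))
 (Pq.cons (Pq.L [0,1] 63 (Pf.C 1 0x4060e04009))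
 (Pq.cons (Pq.L [0,2] 63 (Pf.C 1 0x4060e08009))
 (Pq.cons (Pq.L [1,2] 63 (Pf.C 1 0x4060e08089))
 Pq.nil)))))))) (Pq.cons (Pq.D 3 (Pq.cons (Pq.L [0,1] 63 (Pf.C 1 0x4060e04009))
 (Pq.cons (Pq.L [0,1] 63 (Pf.C 1 0x4060e04009))
 (Pq.cons (Pq.L [0,1] 63 (Pf.C 1 0x4060e04009))
 (Pq.cons (Pq.L [0,1] 63 (Pf.C 1 0x4060e04009))
 (Pq.cons (Pq.L [0,1] 63 (Pf.C 1 0x4060e04009))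
 (Pq.cons (Pq.L [0,2] 63 (Pf.C 1 0x4060e08009))
 (Pq.cons (Pq.L [1,2] 63 (Pf.C 1 0x4060e08089))
 Pq.nil)))))))) (Pq.cons (Pq.D 3 (Pq.cons (Pq.L [0,1] 63 (Pf.C 1 0x4060e04009))
 (Pq.cons (Pq.L [0,1] 63 (Pf.C 1 0x4060e04009))
 (Pq.cons (Pq.L [0,1] 63 (Pf.C 1 0x4060e04009))
 (Pq.cons (Pq.L [0,1] 63 (Pf.C 1 0x4060e04009))
 (Pq.cons (Pq.L [0,1] 63 (Pf.C 1 0x4060e04009))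
 (Pq.cons (Pq.L [0,2] 63 (Pf.C 1 0x4060e08009))
 (Pq.cons (Pq.L [1,2] 63 (Pf.C 1 0x4060e08089))
 Pq.nil)))))))) (Pq.cons (Pq.D 3 (Pq.cons (Pq.L [0,1] 63 (Pf.C 1 0x4060e04009))
 (Pq.cons (Pq.L [0,1] 63 (Pf.C 1 0x4060e04009))
 (Pq.cons (Pq.L [0,1] 63 (Pf.C 1 0x4060e04009))
 (Pq.cons (Pq.L [0,1] 63 (Pf.C 1 0x4060e04009))
 (Pq.cons (Pq.L [0,1] 63 (Pf.C 1 0x4060e04009))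
 (Pq.cons (Pq.L [0,4] 63 (Pf.C 1 0x4060e10009))
 (Pq.cons (Pq.L [1,4] 63 (Pf.C 1 0x4060e10089))
 Pq.nil)))))))) (Pq.cons (Pq.D 3 (Pq.cons (Pq.L [0,2] 63 (Pf.C 1 0x4060e08009))
 (Pq.cons (Pq.L [0,2] 63 (Pf.C 1 0x4060e08009))
 (Pq.cons (Pq.L [0,2] 63 (Pf.C 1 0x4060e08009))
 (Pq.cons (Pq.L [0,2] 63 (Pf.C 1 0x4060e08009))
 (Pq.cons (Pq.L [0,4] 63 (Pf.C 1 0x4060e10009))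
 (Pq.cons (Pq.L [0,2] 63 (Pf.C 1 0x4060e08009))
 (Pq.cons (Pq.L [2,4] 63 (Pf.C 1 0x4060e10109))
 Pq.nil)))))))) (Pq.cons (Pq.D 3 (Pq.cons (Pq.L [1,2] 63 (Pf.C 1 0x4060e08089))
 (Pq.cons (Pq.L [1,2] 63 (Pf.C 1 0x4060e08089))
 (Pq.cons (Pq.L [1,2] 63 (Pf.C 1 0x4060e08089))
 (Pq.cons (Pq.L [1,2] 63 (Pf.C 1 0x4060e08089))
 (Pq.cons (Pq.L [1,4] 63 (Pf.C 1 0x4060e10089))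
 (Pq.cons (Pq.L [2,4] 63 (Pf.C 1 0x4060e10109))
 (Pq.cons (Pq.L [1,2] 63 (Pf.C 1 0x4060e08089))
 Pq.nil)))))))) Pq.nil)))))))) (Pq.cons (Pq.D 2 (Pq.cons (Pq.D 3 (Pq.cons (Pq.L [0,1] 63 (Pf.C 1 0x4060e04009))
 (Pq.cons (Pq.L [0,1] 63 (Pf.C 1 0x4060e04009))
 (Pq.cons (Pq.L [0,1] 63 (Pf.C 1 0x4060e04009))
 (Pq.cons (Pq.L [0,1] 63 (Pf.C 1 0x4060e04009))
 (Pq.cons (Pq.L [0,1] 63 (Pf.C 1 0x4060e04009))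
 (Pq.cons (Pq.L [0,2] 63 (Pf.C 1 0x4060e08009))
 (Pq.cons (Pq.L [1,2] 63 (Pf.C 1 0x4060e08089))
 Pq.nil)))))))) (Pq.cons (Pq.D 3 (Pq.cons (Pq.L [0,1] 63 (Pf.C 1 0x4060e04009))
 (Pq.cons (Pq.L [0,1] 63 (Pf.C 1 0x4060e04009))
 (Pq.cons (Pq.L [0,1] 63 (Pf.C 1 0x4060e04009))
 (Pq.cons (Pq.L [0,1] 63 (Pf.C 1 0x4060e04009))
 (Pq.cons (Pq.L [0,1] 63 (Pf.C 1 0x4060e04009))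
 (Pq.cons (Pq.L [0,2] 63 (Pf.C 1 0x4060e08009))
 (Pq.cons (Pq.L [1,2] 63 (Pf.C 1 0x4060e08089))
 Pq.nil)))))))) (Pq.cons (Pq.D 3 (Pq.cons (Pq.L [0,1] 63 (Pf.C 1 0x4060e04009))
 (Pq.cons (Pq.L [0,1] 63 (Pf.C 1 0x4060e04009))
 (Pq.cons (Pq.L [0,1] 63 (Pf.C 1 0x4060e04009))
 (Pq.cons (Pq.L [0,1] 63 (Pf.C 1 0x4060e04009))
 (Pq.cons (Pq.L [0,1] 63 (Pf.C 1 0x4060e04009))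
 (Pq.cons (Pq.L [0,2] 63 (Pf.C 1 0x4060e08009))
 (Pq.cons (Pq.L [1,2] 63 (Pf.C 1 0x4060e08089))
 Pq.nil)))))))) (Pq.cons (Pq.D 3 (Pq.cons (Pq.L [0,1] 63 (Pf.C 1 0x4060e04009))
 (Pq.cons (Pq.L [0,1] 63 (Pf.C 1 0x4060e04009))
 (Pq.cons (Pq.L [0,1] 63 (Pf.C 1 0x4060e04009))
 (Pq.cons (Pq.L [0,1] 63 (Pf.C 1 0x4060e04009))
 (Pq.cons (Pq.L [0,1] 63 (Pf.C 1 0x4060e04009))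
 (Pq.cons (Pq.L [0,2] 63 (Pf.C 1 0x4060e08009))
 (Pq.cons (Pq.L [1,2] 63 (Pf.C 1 0x4060e08089))
 Pq.nil)))))))) (Pq.cons (Pq.D 3 (Pq.cons (Pq.L [0,1] 63 (Pf.C 1 0x4060e04009))
 (Pq.cons (Pq.L [0,1] 63 (Pf.C 1 0x4060e04009))
 (Pq.cons (Pq.L [0,1] 63 (Pf.C 1 0x4060e04009))
 (Pq.cons (Pq.L [0,1] 63 (Pf.C 1 0x4060e04009))
 (Pq.cons (Pq.L [0,1] 63 (Pf.C 1 0x4060e04009))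
 (Pq.cons (Pq.L [0,5] 63 (Pf.C 1 0x4060e14009))
 (Pq.cons (Pq.L [1,5] 63 (Pf.C 1 0x4060e14089))
 Pq.nil)))))))) (Pq.cons (Pq.D 3 (Pq.cons (Pq.L [0,2] 63 (Pf.C 1 0x4060e08009))
 (Pq.cons (Pq.L [0,2] 63 (Pf.C 1 0x4060e08009))
 (Pq.cons (Pq.L [0,2] 63 (Pf.C 1 0x4060e08009))
 (Pq.cons (Pq.L [0,2] 63 (Pf.C 1 0x4060e08009))
 (Pq.cons (Pq.L [0,5] 63 (Pf.C 1 0x4060e14009))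
 (Pq.cons (Pq.L [0,2] 63 (Pf.C 1 0x4060e08009))
 (Pq.cons (Pq.L [2,5] 63 (Pf.C 1 0x4060e14109))
 Pq.nil)))))))) (Pq.cons (Pq.D 3 (Pq.cons (Pq.L [1,2] 63 (Pf.C 1 0x4060e08089))
 (Pq.cons (Pq.L [1,2] 63 (Pf.C 1 0x4060e08089))
 (Pq.cons (Pq.L [1,2] 63 (Pf.C 1 0x4060e08089))
 (Pq.cons (Pq.L [1,2] 63 (Pf.C 1 0x4060e08089))
 (Pq.cons (Pq.L [1,5] 63 (Pf.C 1 0x4060e14089))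
 (Pq.cons (Pq.L [2,5] 63 (Pf.C 1 0x4060e14109))
 (Pq.cons (Pq.L [1,2] 63 (Pf.C 1 0x4060e08089))
 Pq.nil)))))))) Pq.nil)))))))) (Pq.cons (Pq.D 2 (Pq.cons (Pq.D 3 (Pq.cons (Pq.L [0,1] 63 (Pf.C 1 0x4060e04009))
 (Pq.cons (Pq.L [0,1] 63 (Pf.C 1 0x4060e04009))
 (Pq.cons (Pq.L [0,1] 63 (Pf.C 1 0x4060e04009))
 (Pq.cons (Pq.L [0,1] 63 (Pf.C 1 0x4060e04009))
 (Pq.cons (Pq.L [0,1] 63 (Pf.C 1 0x4060e04009))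
 (Pq.cons (Pq.L [0,2] 63 (Pf.C 1 0x4060e08009))
 (Pq.cons (Pq.L [1,2] 63 (Pf.C 1 0x4060e08089))
 Pq.nil)))))))) (Pq.cons (Pq.D 3 (Pq.cons (Pq.L [0,1] 63 (Pf.C 1 0x4060e04009))
 (Pq.cons (Pq.L [0,1] 63 (Pf.C 1 0x4060e04009))
 (Pq.cons (Pq.L [0,1] 63 (Pf.C 1 0x4060e04009))
 (Pq.cons (Pq.L [0,1] 63 (Pf.C 1 0x4060e04009))
 (Pq.cons (Pq.L [0,1] 63 (Pf.C 1 0x4060e04009))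
 (Pq.cons (Pq.L [0,2] 63 (Pf.C 1 0x4060e08009))
 (Pq.cons (Pq.L [1,2] 63 (Pf.C 1 0x4060e08089))
 Pq.nil)))))))) (Pq.cons (Pq.D 3 (Pq.cons (Pq.L [0,1] 63 (Pf.C 1 0x4060e04009))
 (Pq.cons (Pq.L [0,1] 63 (Pf.C 1 0x4060e04009))
 (Pq.cons (Pq.L [0,1] 63 (Pf.C 1 0x4060e04009))
 (Pq.cons (Pq.L [0,1] 63 (Pf.C 1 0x4060e04009))
 (Pq.cons (Pq.L [0,1] 63 (Pf.C 1 0x4060e04009))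
 (Pq.cons (Pq.L [0,2] 63 (Pf.C 1 0x4060e08009))
 (Pq.cons (Pq.L [1,2] 63 (Pf.C 1 0x4060e08089))
 Pq.nil)))))))) (Pq.cons (Pq.L [3] 11 (Pf.C 0 0x100c307))
 (Pq.cons (Pq.D 3 (Pq.cons (Pq.L [0,1] 63 (Pf.C 1 0x4060e04009))
 (Pq.cons (Pq.L [0,1] 63 (Pf.C 1 0x4060e04009))
 (Pq.cons (Pq.L [0,1] 63 (Pf.C 1 0x4060e04009))
 (Pq.cons (Pq.L [0,1] 63 (Pf.C 1 0x4060e04009))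
 (Pq.cons (Pq.L [0,1] 63 (Pf.C 1 0x4060e04009))
 (Pq.cons (Pq.L [0,4] 63 (Pf.C 1 0x4060e10009))
 (Pq.cons (Pq.L [1,4] 63 (Pf.C 1 0x4060e10089))
 Pq.nil)))))))) (Pq.cons (Pq.D 3 (Pq.cons (Pq.L [0,2] 63 (Pf.C 1 0x4060e08009))
 (Pq.cons (Pq.L [0,2] 63 (Pf.C 1 0x4060e08009))
 (Pq.cons (Pq.L [0,2] 63 (Pf.C 1 0x4060e08009))
 (Pq.cons (Pq.L [0,2] 63 (Pf.C 1 0x4060e08009))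
 (Pq.cons (Pq.L [0,4] 63 (Pf.C 1 0x4060e10009))
 (Pq.cons (Pq.L [0,2] 63 (Pf.C 1 0x4060e08009))
 (Pq.cons (Pq.L [2,4] 63 (Pf.C 1 0x4060e10109))
 Pq.nil)))))))) (Pq.cons (Pq.D 3 (Pq.cons (Pq.L [1,2] 63 (Pf.C 1 0x4060e08089))
 (Pq.cons (Pq.L [1,2] 63 (Pf.C 1 0x4060e08089))
 (Pq.cons (Pq.L [1,2] 63 (Pf.C 1 0x4060e08089))
 (Pq.cons (Pq.L [1,2] 63 (Pf.C 1 0x4060e08089))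
 (Pq.cons (Pq.L [1,4] 63 (Pf.C 1 0x4060e10089))
 (Pq.cons (Pq.L [2,4] 63 (Pf.C 1 0x4060e10109))
 (Pq.cons (Pq.L [1,2] 63 (Pf.C 1 0x4060e08089))
 Pq.nil)))))))) Pq.nil)))))))) (Pq.cons (Pq.D 2 (Pq.cons (Pq.D 3 (Pq.cons (Pq.L [0,1] 63 (Pf.C 1 0x4060e04009))
 (Pq.cons (Pq.L [0,1] 63 (Pf.C 1 0x4060e04009))
 (Pq.cons (Pq.L [0,1] 63 (Pf.C 1 0x4060e04009))
 (Pq.cons (Pq.L [0,1] 63 (Pf.C 1 0x4060e04009))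
 (Pq.cons (Pq.L [0,1] 63 (Pf.C 1 0x4060e04009))
 (Pq.cons (Pq.L [0,4] 63 (Pf.C 1 0x4060e10009))
 (Pq.cons (Pq.L [1,4] 63 (Pf.C 1 0x4060e10089))
 Pq.nil)))))))) (Pq.cons (Pq.D 3 (Pq.cons (Pq.L [0,1] 63 (Pf.C 1 0x4060e04009))
 (Pq.cons (Pq.L [0,1] 63 (Pf.C 1 0x4060e04009))
 (Pq.cons (Pq.L [0,1] 63 (Pf.C 1 0x4060e04009))
 (Pq.cons (Pq.L [0,1] 63 (Pf.C 1 0x4060e04009))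
 (Pq.cons (Pq.L [0,1] 63 (Pf.C 1 0x4060e04009))
 (Pq.cons (Pq.L [0,4] 63 (Pf.C 1 0x4060e10009))
 (Pq.cons (Pq.L [1,4] 63 (Pf.C 1 0x4060e10089))
 Pq.nil)))))))) (Pq.cons (Pq.D 3 (Pq.cons (Pq.L [0,1] 63 (Pf.C 1 0x4060e04009))
 (Pq.cons (Pq.L [0,1] 63 (Pf.C 1 0x4060e04009))
 (Pq.cons (Pq.L [0,1] 63 (Pf.C 1 0x4060e04009))
 (Pq.cons (Pq.L [0,1] 63 (Pf.C 1 0x4060e04009))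
 (Pq.cons (Pq.L [0,1] 63 (Pf.C 1 0x4060e04009))
 (Pq.cons (Pq.L [0,5] 63 (Pf.C 1 0x4060e14009))
 (Pq.cons (Pq.L [1,5] 63 (Pf.C 1 0x4060e14089))
 Pq.nil)))))))) (Pq.cons (Pq.D 3 (Pq.cons (Pq.L [0,1] 63 (Pf.C 1 0x4060e04009))
 (Pq.cons (Pq.L [0,1] 63 (Pf.C 1 0x4060e04009))
 (Pq.cons (Pq.L [0,1] 63 (Pf.C 1 0x4060e04009))
 (Pq.cons (Pq.L [0,1] 63 (Pf.C 1 0x4060e04009))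
 (Pq.cons (Pq.L [0,1] 63 (Pf.C 1 0x4060e04009))
 (Pq.cons (Pq.L [0,4] 63 (Pf.C 1 0x4060e10009))
 (Pq.cons (Pq.L [1,4] 63 (Pf.C 1 0x4060e10089))
 Pq.nil)))))))) (Pq.cons (Pq.D 3 (Pq.cons (Pq.L [0,1] 63 (Pf.C 1 0x4060e04009))
 (Pq.cons (Pq.L [0,1] 63 (Pf.C 1 0x4060e04009))
 (Pq.cons (Pq.L [0,1] 63 (Pf.C 1 0x4060e04009))
 (Pq.cons (Pq.L [0,1] 63 (Pf.C 1 0x4060e04009))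
 (Pq.cons (Pq.L [0,1] 63 (Pf.C 1 0x4060e04009))
 (Pq.cons (Pq.L [0,4] 63 (Pf.C 1 0x4060e10009))
 (Pq.cons (Pq.L [1,4] 63 (Pf.C 1 0x4060e10089))
 Pq.nil)))))))) (Pq.cons (Pq.D 3 (Pq.cons (Pq.L [0,4] 63 (Pf.C 1 0x4060e10009))
 (Pq.cons (Pq.L [0,4] 63 (Pf.C 1 0x4060e10009))
 (Pq.cons (Pq.L [0,5] 63 (Pf.C 1 0x4060e14009))
 (Pq.cons (Pq.L [0,4] 63 (Pf.C 1 0x4060e10009))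
 (Pq.cons (Pq.L [0,4] 63 (Pf.C 1 0x4060e10009))
 (Pq.cons (Pq.L [0,4] 63 (Pf.C 1 0x4060e10009))
 (Pq.cons (Pq.L [4,5] 63 (Pf.C 1 0x4060e14209))
 Pq.nil)))))))) (Pq.cons (Pq.D 3 (Pq.cons (Pq.L [1,4] 63 (Pf.C 1 0x4060e10089))
 (Pq.cons (Pq.L [1,4] 63 (Pf.C 1 0x4060e10089))
 (Pq.cons (Pq.L [1,5] 63 (Pf.C 1 0x4060e14089))
 (Pq.cons (Pq.L [1,4] 63 (Pf.C 1 0x4060e10089))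
 (Pq.cons (Pq.L [1,4] 63 (Pf.C 1 0x4060e10089))
 (Pq.cons (Pq.L [4,5] 63 (Pf.C 1 0x4060e14209))
 (Pq.cons (Pq.L [1,4] 63 (Pf.C 1 0x4060e10089))
 Pq.nil)))))))) Pq.nil)))))))) (Pq.cons (Pq.D 2 (Pq.cons (Pq.D 3 (Pq.cons (Pq.L [0,2] 63 (Pf.C 1 0x4060e08009))
 (Pq.cons (Pq.L [0,2] 63 (Pf.C 1 0x4060e08009))
 (Pq.cons (Pq.L [0,2] 63 (Pf.C 1 0x4060e08009))
 (Pq.cons (Pq.L [0,2] 63 (Pf.C 1 0x4060e08009))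
 (Pq.cons (Pq.L [0,4] 63 (Pf.C 1 0x4060e10009))
 (Pq.cons (Pq.L [0,2] 63 (Pf.C 1 0x4060e08009))
 (Pq.cons (Pq.L [2,4] 63 (Pf.C 1 0x4060e10109))
 Pq.nil)))))))) (Pq.cons (Pq.D 3 (Pq.cons (Pq.L [0,2] 63 (Pf.C 1 0x4060e08009))
 (Pq.cons (Pq.L [0,2] 63 (Pf.C 1 0x4060e08009))
 (Pq.cons (Pq.L [0,2] 63 (Pf.C 1 0x4060e08009))
 (Pq.cons (Pq.L [0,2] 63 (Pf.C 1 0x4060e08009))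
 (Pq.cons (Pq.L [0,4] 63 (Pf.C 1 0x4060e10009))
 (Pq.cons (Pq.L [0,2] 63 (Pf.C 1 0x4060e08009))
 (Pq.cons (Pq.L [2,4] 63 (Pf.C 1 0x4060e10109))
 Pq.nil)))))))) (Pq.cons (Pq.D 3 (Pq.cons (Pq.L [0,2] 63 (Pf.C 1 0x4060e08009))
 (Pq.cons (Pq.L [0,2] 63 (Pf.C 1 0x4060e08009))
 (Pq.cons (Pq.L [0,2] 63 (Pf.C 1 0x4060e08009))
 (Pq.cons (Pq.L [0,2] 63 (Pf.C 1 0x4060e08009))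
 (Pq.cons (Pq.L [0,5] 63 (Pf.C 1 0x4060e14009))
 (Pq.cons (Pq.L [0,2] 63 (Pf.C 1 0x4060e08009))
 (Pq.cons (Pq.L [2,5] 63 (Pf.C 1 0x4060e14109))
 Pq.nil)))))))) (Pq.cons (Pq.D 3 (Pq.cons (Pq.L [0,2] 63 (Pf.C 1 0x4060e08009))
 (Pq.cons (Pq.L [0,2] 63 (Pf.C 1 0x4060e08009))
 (Pq.cons (Pq.L [0,2] 63 (Pf.C 1 0x4060e08009))
 (Pq.cons (Pq.L [0,2] 63 (Pf.C 1 0x4060e08009))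
 (Pq.cons (Pq.L [0,4] 63 (Pf.C 1 0x4060e10009))
 (Pq.cons (Pq.L [0,2] 63 (Pf.C 1 0x4060e08009))
 (Pq.cons (Pq.L [2,4] 63 (Pf.C 1 0x4060e10109))
 Pq.nil)))))))) (Pq.cons (Pq.D 3 (Pq.cons (Pq.L [0,4] 63 (Pf.C 1 0x4060e10009))
 (Pq.cons (Pq.L [0,4] 63 (Pf.C 1 0x4060e10009))
 (Pq.cons (Pq.L [0,5] 63 (Pf.C 1 0x4060e14009))
 (Pq.cons (Pq.L [0,4] 63 (Pf.C 1 0x4060e10009))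
 (Pq.cons (Pq.L [0,4] 63 (Pf.C 1 0x4060e10009))
 (Pq.cons (Pq.L [0,4] 63 (Pf.C 1 0x4060e10009))
 (Pq.cons (Pq.L [4,5] 63 (Pf.C 1 0x4060e14209))
 Pq.nil)))))))) (Pq.cons (Pq.D 3 (Pq.cons (Pq.L [0,2] 63 (Pf.C 1 0x4060e08009))
 (Pq.cons (Pq.L [0,2] 63 (Pf.C 1 0x4060e08009))
 (Pq.cons (Pq.L [0,2] 63 (Pf.C 1 0x4060e08009))
 (Pq.cons (Pq.L [0,2] 63 (Pf.C 1 0x4060e08009))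
 (Pq.cons (Pq.L [0,4] 63 (Pf.C 1 0x4060e10009))
 (Pq.cons (Pq.L [0,2] 63 (Pf.C 1 0x4060e08009))
 (Pq.cons (Pq.L [2,4] 63 (Pf.C 1 0x4060e10109))
 Pq.nil)))))))) (Pq.cons (Pq.D 3 (Pq.cons (Pq.L [2,4] 63 (Pf.C 1 0x4060e10109))
 (Pq.cons (Pq.L [2,4] 63 (Pf.C 1 0x4060e10109))
 (Pq.cons (Pq.L [2,5] 63 (Pf.C 1 0x4060e14109))
 (Pq.cons (Pq.L [2,4] 63 (Pf.C 1 0x4060e10109))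
 (Pq.cons (Pq.L [4,5] 63 (Pf.C 1 0x4060e14209))
 (Pq.cons (Pq.L [2,4] 63 (Pf.C 1 0x4060e10109))
 (Pq.cons (Pq.L [2,4] 63 (Pf.C 1 0x4060e10109))
 Pq.nil)))))))) Pq.nil)))))))) (Pq.cons (Pq.D 2 (Pq.cons (Pq.D 3 (Pq.cons (Pq.L [1,2] 63 (Pf.C 1 0x4060e08089))
 (Pq.cons (Pq.L [1,2] 63 (Pf.C 1 0x4060e08089))
 (Pq.cons (Pq.L [1,2] 63 (Pf.C 1 0x4060e08089))
 (Pq.cons (Pq.L [1,2] 63 (Pf.C 1 0x4060e08089))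
 (Pq.cons (Pq.L [1,4] 63 (Pf.C 1 0x4060e10089))
 (Pq.cons (Pq.L [2,4] 63 (Pf.C 1 0x4060e10109))
 (Pq.cons (Pq.L [1,2] 63 (Pf.C 1 0x4060e08089))
 Pq.nil)))))))) (Pq.cons (Pq.D 3 (Pq.cons (Pq.L [1,2] 63 (Pf.C 1 0x4060e08089))
 (Pq.cons (Pq.L [1,2] 63 (Pf.C 1 0x4060e08089))
 (Pq.cons (Pq.L [1,2] 63 (Pf.C 1 0x4060e08089))
 (Pq.cons (Pq.L [1,2] 63 (Pf.C 1 0x4060e08089))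
 (Pq.cons (Pq.L [1,4] 63 (Pf.C 1 0x4060e10089))
 (Pq.cons (Pq.L [2,4] 63 (Pf.C 1 0x4060e10109))
 (Pq.cons (Pq.L [1,2] 63 (Pf.C 1 0x4060e08089))
 Pq.nil)))))))) (Pq.cons (Pq.D 3 (Pq.cons (Pq.L [1,2] 63 (Pf.C 1 0x4060e08089))
 (Pq.cons (Pq.L [1,2] 63 (Pf.C 1 0x4060e08089))
 (Pq.cons (Pq.L [1,2] 63 (Pf.C 1 0x4060e08089))
 (Pq.cons (Pq.L [1,2] 63 (Pf.C 1 0x4060e08089))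
 (Pq.cons (Pq.L [1,5] 63 (Pf.C 1 0x4060e14089))
 (Pq.cons (Pq.L [2,5] 63 (Pf.C 1 0x4060e14109))
 (Pq.cons (Pq.L [1,2] 63 (Pf.C 1 0x4060e08089))
 Pq.nil)))))))) (Pq.cons (Pq.D 3 (Pq.cons (Pq.L [1,2] 63 (Pf.C 1 0x4060e08089))
 (Pq.cons (Pq.L [1,2] 63 (Pf.C 1 0x4060e08089))
 (Pq.cons (Pq.L [1,2] 63 (Pf.C 1 0x4060e08089))
 (Pq.cons (Pq.L [1,2] 63 (Pf.C 1 0x4060e08089))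
 (Pq.cons (Pq.L [1,4] 63 (Pf.C 1 0x4060e10089))
 (Pq.cons (Pq.L [2,4] 63 (Pf.C 1 0x4060e10109))
 (Pq.cons (Pq.L [1,2] 63 (Pf.C 1 0x4060e08089))
 Pq.nil)))))))) (Pq.cons (Pq.D 3 (Pq.cons (Pq.L [1,4] 63 (Pf.C 1 0x4060e10089))
 (Pq.cons (Pq.L [1,4] 63 (Pf.C 1 0x4060e10089))
 (Pq.cons (Pq.L [1,5] 63 (Pf.C 1 0x4060e14089))
 (Pq.cons (Pq.L [1,4] 63 (Pf.C 1 0x4060e10089))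
 (Pq.cons (Pq.L [1,4] 63 (Pf.C 1 0x4060e10089))
 (Pq.cons (Pq.L [4,5] 63 (Pf.C 1 0x4060e14209))
 (Pq.cons (Pq.L [1,4] 63 (Pf.C 1 0x4060e10089))
 Pq.nil)))))))) (Pq.cons (Pq.D 3 (Pq.cons (Pq.L [2,4] 63 (Pf.C 1 0x4060e10109))
 (Pq.cons (Pq.L [2,4] 63 (Pf.C 1 0x4060e10109))
 (Pq.cons (Pq.L [2,5] 63 (Pf.C 1 0x4060e14109))
 (Pq.cons (Pq.L [2,4] 63 (Pf.C 1 0x4060e10109))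
 (Pq.cons (Pq.L [4,5] 63 (Pf.C 1 0x4060e14209))
 (Pq.cons (Pq.L [2,4] 63 (Pf.C 1 0x4060e10109))
 (Pq.cons (Pq.L [2,4] 63 (Pf.C 1 0x4060e10109))
 Pq.nil)))))))) (Pq.cons (Pq.D 3 (Pq.cons (Pq.L [1,2] 63 (Pf.C 1 0x4060e08089))
 (Pq.cons (Pq.L [1,2] 63 (Pf.C 1 0x4060e08089))
 (Pq.cons (Pq.L [1,2] 63 (Pf.C 1 0x4060e08089))
 (Pq.cons (Pq.L [1,2] 63 (Pf.C 1 0x4060e08089))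
 (Pq.cons (Pq.L [1,4] 63 (Pf.C 1 0x4060e10089))
 (Pq.cons (Pq.L [2,4] 63 (Pf.C 1 0x4060e10109))
 (Pq.cons (Pq.L [1,2] 63 (Pf.C 1 0x4060e08089))
 Pq.nil)))))))) Pq.nil)))))))) Pq.nil)))))))) Pq.nil)
theorem e_o29 : AllRef e_T e_G4 (List.take 1 (List.take 2 (List.drop 3 (List.flatMap (splitP 0) (List.drop 4 (applyObl e1_T 5 [5,6,7,8,9,10,11,12] [1,1,1,1,1,1,1,2] [])))))) :=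
  chkPq_sound e_o29c _ (by decide +kernel)
noncomputable def e_o30c : Pq := (Pq.cons (Pq.D 1 (Pq.cons (Pq.D 2 (Pq.cons (Pq.D 3 (Pq.cons (Pq.L [0,1] 63 (Pf.C 1 0x4060e04009))
 (Pq.cons (Pq.L [0,1] 63 (Pf.C 1 0x4060e04009))
 (Pq.cons (Pq.L [0,1] 63 (Pf.C 1 0x4060e04009))
 (Pq.cons (Pq.L [0,1] 63 (Pf.C 1 0x4060e04009))
 (Pq.cons (Pq.L [0,1] 63 (Pf.C 1 0x4060e04009))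
 (Pq.cons (Pq.L [0,3] 63 (Pf.C 1 0x4060e0c009))
 (Pq.cons (Pq.L [1,3] 63 (Pf.C 1 0x4060e0c089))
 Pq.nil)))))))) (Pq.cons (Pq.D 3 (Pq.cons (Pq.L [0,1] 63 (Pf.C 1 0x4060e04009))
 (Pq.cons (Pq.L [0,1] 63 (Pf.C 1 0x4060e04009))
 (Pq.cons (Pq.L [0,1] 63 (Pf.C 1 0x4060e04009))
 (Pq.cons (Pq.L [0,1] 63 (Pf.C 1 0x4060e04009))
 (Pq.cons (Pq.L [0,1] 63 (Pf.C 1 0x4060e04009))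
 (Pq.cons (Pq.L [0,3] 63 (Pf.C 1 0x4060e0c009))
 (Pq.cons (Pq.L [1,3] 63 (Pf.C 1 0x4060e0c089))
 Pq.nil)))))))) (Pq.cons (Pq.D 3 (Pq.cons (Pq.L [0,1] 63 (Pf.C 1 0x4060e04009))
 (Pq.cons (Pq.L [0,1] 63 (Pf.C 1 0x4060e04009))
 (Pq.cons (Pq.L [0,1] 63 (Pf.C 1 0x4060e04009))
 (Pq.cons (Pq.L [0,1] 63 (Pf.C 1 0x4060e04009))
 (Pq.cons (Pq.L [0,1] 63 (Pf.C 1 0x4060e04009))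
 (Pq.cons (Pq.L [0,3] 63 (Pf.C 1 0x4060e0c009))
 (Pq.cons (Pq.L [1,3] 63 (Pf.C 1 0x4060e0c089))
 Pq.nil)))))))) (Pq.cons (Pq.D 3 (Pq.cons (Pq.L [0,1] 63 (Pf.C 1 0x4060e04009))
 (Pq.cons (Pq.L [0,1] 63 (Pf.C 1 0x4060e04009))
 (Pq.cons (Pq.L [0,1] 63 (Pf.C 1 0x4060e04009))
 (Pq.cons (Pq.L [0,1] 63 (Pf.C 1 0x4060e04009))
 (Pq.cons (Pq.L [0,1] 63 (Pf.C 1 0x4060e04009))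
 (Pq.cons (Pq.L [0,4] 63 (Pf.C 1 0x4060e10009))
 (Pq.cons (Pq.L [1,4] 63 (Pf.C 1 0x4060e10089))
 Pq.nil)))))))) (Pq.cons (Pq.D 3 (Pq.cons (Pq.L [0,1] 63 (Pf.C 1 0x4060e04009))
 (Pq.cons (Pq.L [0,1] 63 (Pf.C 1 0x4060e04009))
 (Pq.cons (Pq.L [0,1] 63 (Pf.C 1 0x4060e04009))
 (Pq.cons (Pq.L [0,1] 63 (Pf.C 1 0x4060e04009))
 (Pq.cons (Pq.L [0,1] 63 (Pf.C 1 0x4060e04009))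
 (Pq.cons (Pq.L [0,3] 63 (Pf.C 1 0x4060e0c009))
 (Pq.cons (Pq.L [1,3] 63 (Pf.C 1 0x4060e0c089))
 Pq.nil)))))))) (Pq.cons (Pq.D 3 (Pq.cons (Pq.L [0,3] 63 (Pf.C 1 0x4060e0c009))
 (Pq.cons (Pq.L [0,3] 63 (Pf.C 1 0x4060e0c009))
 (Pq.cons (Pq.L [0,3] 63 (Pf.C 1 0x4060e0c009))
 (Pq.cons (Pq.L [0,4] 63 (Pf.C 1 0x4060e10009))
 (Pq.cons (Pq.L [0,3] 63 (Pf.C 1 0x4060e0c009))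
 (Pq.cons (Pq.L [0,3] 63 (Pf.C 1 0x4060e0c009))
 (Pq.cons (Pq.L [3,4] 63 (Pf.C 1 0x4060e10189))
 Pq.nil)))))))) (Pq.cons (Pq.D 3 (Pq.cons (Pq.L [1,3] 63 (Pf.C 1 0x4060e0c089))
 (Pq.cons (Pq.L [1,3] 63 (Pf.C 1 0x4060e0c089))
 (Pq.cons (Pq.L [1,3] 63 (Pf.C 1 0x4060e0c089))
 (Pq.cons (Pq.L [1,4] 63 (Pf.C 1 0x4060e10089))
 (Pq.cons (Pq.L [1,3] 63 (Pf.C 1 0x4060e0c089))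
 (Pq.cons (Pq.L [3,4] 63 (Pf.C 1 0x4060e10189))
 (Pq.cons (Pq.L [1,3] 63 (Pf.C 1 0x4060e0c089))
 Pq.nil)))))))) Pq.nil)))))))) (Pq.cons (Pq.D 2 (Pq.cons (Pq.D 3 (Pq.cons (Pq.L [0,1] 63 (Pf.C 1 0x4060e04009))
 (Pq.cons (Pq.L [0,1] 63 (Pf.C 1 0x4060e04009))
 (Pq.cons (Pq.L [0,1] 63 (Pf.C 1 0x4060e04009))
 (Pq.cons (Pq.L [0,1] 63 (Pf.C 1 0x4060e04009))
 (Pq.cons (Pq.L [0,1] 63 (Pf.C 1 0x4060e04009))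
 (Pq.cons (Pq.L [0,3] 63 (Pf.C 1 0x4060e0c009))
 (Pq.cons (Pq.L [1,3] 63 (Pf.C 1 0x4060e0c089))
 Pq.nil)))))))) (Pq.cons (Pq.D 3 (Pq.cons (Pq.L [0,1] 63 (Pf.C 1 0x4060e04009))
 (Pq.cons (Pq.L [0,1] 63 (Pf.C 1 0x4060e04009))
 (Pq.cons (Pq.L [0,1] 63 (Pf.C 1 0x4060e04009))
 (Pq.cons (Pq.L [0,1] 63 (Pf.C 1 0x4060e04009))
 (Pq.cons (Pq.L [0,1] 63 (Pf.C 1 0x4060e04009))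
 (Pq.cons (Pq.L [0,3] 63 (Pf.C 1 0x4060e0c009))
 (Pq.cons (Pq.L [1,3] 63 (Pf.C 1 0x4060e0c089))
 Pq.nil)))))))) (Pq.cons (Pq.D 3 (Pq.cons (Pq.L [0,1] 63 (Pf.C 1 0x4060e04009))
 (Pq.cons (Pq.L [0,1] 63 (Pf.C 1 0x4060e04009))
 (Pq.cons (Pq.L [0,1] 63 (Pf.C 1 0x4060e04009))
 (Pq.cons (Pq.L [0,1] 63 (Pf.C 1 0x4060e04009))
 (Pq.cons (Pq.L [0,1] 63 (Pf.C 1 0x4060e04009))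
 (Pq.cons (Pq.L [0,3] 63 (Pf.C 1 0x4060e0c009))
 (Pq.cons (Pq.L [1,3] 63 (Pf.C 1 0x4060e0c089))
 Pq.nil)))))))) (Pq.cons (Pq.D 3 (Pq.cons (Pq.L [0,1] 63 (Pf.C 1 0x4060e04009))
 (Pq.cons (Pq.L [0,1] 63 (Pf.C 1 0x4060e04009))
 (Pq.cons (Pq.L [0,1] 63 (Pf.C 1 0x4060e04009))
 (Pq.cons (Pq.L [0,1] 63 (Pf.C 1 0x4060e04009))
 (Pq.cons (Pq.L [0,1] 63 (Pf.C 1 0x4060e04009))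
 (Pq.cons (Pq.L [0,4] 63 (Pf.C 1 0x4060e10009))
 (Pq.cons (Pq.L [1,4] 63 (Pf.C 1 0x4060e10089))
 Pq.nil)))))))) (Pq.cons (Pq.D 3 (Pq.cons (Pq.L [0,1] 63 (Pf.C 1 0x4060e04009))
 (Pq.cons (Pq.L [0,1] 63 (Pf.C 1 0x4060e04009))
 (Pq.cons (Pq.L [0,1] 63 (Pf.C 1 0x4060e04009))
 (Pq.cons (Pq.L [0,1] 63 (Pf.C 1 0x4060e04009))
 (Pq.cons (Pq.L [0,1] 63 (Pf.C 1 0x4060e04009))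
 (Pq.cons (Pq.L [0,3] 63 (Pf.C 1 0x4060e0c009))
 (Pq.cons (Pq.L [1,3] 63 (Pf.C 1 0x4060e0c089))
 Pq.nil)))))))) (Pq.cons (Pq.D 3 (Pq.cons (Pq.L [0,3] 63 (Pf.C 1 0x4060e0c009))
 (Pq.cons (Pq.L [0,3] 63 (Pf.C 1 0x4060e0c009))
 (Pq.cons (Pq.L [0,3] 63 (Pf.C 1 0x4060e0c009))
 (Pq.cons (Pq.L [0,4] 63 (Pf.C 1 0x4060e10009))
 (Pq.cons (Pq.L [0,3] 63 (Pf.C 1 0x4060e0c009))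
 (Pq.cons (Pq.L [0,3] 63 (Pf.C 1 0x4060e0c009))
 (Pq.cons (Pq.L [3,4] 63 (Pf.C 1 0x4060e10189))
 Pq.nil)))))))) (Pq.cons (Pq.D 3 (Pq.cons (Pq.L [1,3] 63 (Pf.C 1 0x4060e0c089))
 (Pq.cons (Pq.L [1,3] 63 (Pf.C 1 0x4060e0c089))
 (Pq.cons (Pq.L [1,3] 63 (Pf.C 1 0x4060e0c089))
 (Pq.cons (Pq.L [1,4] 63 (Pf.C 1 0x4060e10089))
 (Pq.cons (Pq.L [1,3] 63 (Pf.C 1 0x4060e0c089))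
 (Pq.cons (Pq.L [3,4] 63 (Pf.C 1 0x4060e10189))
 (Pq.cons (Pq.L [1,3] 63 (Pf.C 1 0x4060e0c089))
 Pq.nil)))))))) Pq.nil)))))))) (Pq.cons (Pq.D 2 (Pq.cons (Pq.D 3 (Pq.cons (Pq.L [0,1] 63 (Pf.C 1 0x4060e04009))
 (Pq.cons (Pq.L [0,1] 63 (Pf.C 1 0x4060e04009))
 (Pq.cons (Pq.L [0,1] 63 (Pf.C 1 0x4060e04009))
 (Pq.cons (Pq.L [0,1] 63 (Pf.C 1 0x4060e04009))
 (Pq.cons (Pq.L [0,1] 63 (Pf.C 1 0x4060e04009))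
 (Pq.cons (Pq.L [0,3] 63 (Pf.C 1 0x4060e0c009))
 (Pq.cons (Pq.L [1,3] 63 (Pf.C 1 0x4060e0c089))
 Pq.nil)))))))) (Pq.cons (Pq.D 3 (Pq.cons (Pq.L [0,1] 63 (Pf.C 1 0x4060e04009))
 (Pq.cons (Pq.L [0,1] 63 (Pf.C 1 0x4060e04009))
 (Pq.cons (Pq.L [0,1] 63 (Pf.C 1 0x4060e04009))
 (Pq.cons (Pq.L [0,1] 63 (Pf.C 1 0x4060e04009))
 (Pq.cons (Pq.L [0,1] 63 (Pf.C 1 0x4060e04009))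
 (Pq.cons (Pq.L [0,3] 63 (Pf.C 1 0x4060e0c009))
 (Pq.cons (Pq.L [1,3] 63 (Pf.C 1 0x4060e0c089))
 Pq.nil)))))))) (Pq.cons (Pq.D 3 (Pq.cons (Pq.L [0,1] 63 (Pf.C 1 0x4060e04009))
 (Pq.cons (Pq.L [0,1] 63 (Pf.C 1 0x4060e04009))
 (Pq.cons (Pq.L [0,1] 63 (Pf.C 1 0x4060e04009))
 (Pq.cons (Pq.L [0,1] 63 (Pf.C 1 0x4060e04009))
 (Pq.cons (Pq.L [0,1] 63 (Pf.C 1 0x4060e04009))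
 (Pq.cons (Pq.L [0,3] 63 (Pf.C 1 0x4060e0c009))
 (Pq.cons (Pq.L [1,3] 63 (Pf.C 1 0x4060e0c089))
 Pq.nil)))))))) (Pq.cons (Pq.D 3 (Pq.cons (Pq.L [0,1] 63 (Pf.C 1 0x4060e04009))
 (Pq.cons (Pq.L [0,1] 63 (Pf.C 1 0x4060e04009))
 (Pq.cons (Pq.L [0,1] 63 (Pf.C 1 0x4060e04009))
 (Pq.cons (Pq.L [0,1] 63 (Pf.C 1 0x4060e04009))
 (Pq.cons (Pq.L [0,1] 63 (Pf.C 1 0x4060e04009))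
 (Pq.cons (Pq.L [0,5] 63 (Pf.C 1 0x4060e14009))
 (Pq.cons (Pq.L [1,5] 63 (Pf.C 1 0x4060e14089))
 Pq.nil)))))))) (Pq.cons (Pq.D 3 (Pq.cons (Pq.L [0,1] 63 (Pf.C 1 0x4060e04009))
 (Pq.cons (Pq.L [0,1] 63 (Pf.C 1 0x4060e04009))
 (Pq.cons (Pq.L [0,1] 63 (Pf.C 1 0x4060e04009))
 (Pq.cons (Pq.L [0,1] 63 (Pf.C 1 0x4060e04009))
 (Pq.cons (Pq.L [0,1] 63 (Pf.C 1 0x4060e04009))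
 (Pq.cons (Pq.L [0,3] 63 (Pf.C 1 0x4060e0c009))
 (Pq.cons (Pq.L [1,3] 63 (Pf.C 1 0x4060e0c089))
 Pq.nil)))))))) (Pq.cons (Pq.D 3 (Pq.cons (Pq.L [0,3] 63 (Pf.C 1 0x4060e0c009))
 (Pq.cons (Pq.L [0,3] 63 (Pf.C 1 0x4060e0c009))
 (Pq.cons (Pq.L [0,3] 63 (Pf.C 1 0x4060e0c009))
 (Pq.cons (Pq.L [0,5] 63 (Pf.C 1 0x4060e14009))
 (Pq.cons (Pq.L [0,3] 63 (Pf.C 1 0x4060e0c009))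
 (Pq.cons (Pq.L [0,3] 63 (Pf.C 1 0x4060e0c009))
 (Pq.cons (Pq.L [3,5] 63 (Pf.C 1 0x4060e14189))
 Pq.nil)))))))) (Pq.cons (Pq.D 3 (Pq.cons (Pq.L [1,3] 63 (Pf.C 1 0x4060e0c089))
 (Pq.cons (Pq.L [1,3] 63 (Pf.C 1 0x4060e0c089))
 (Pq.cons (Pq.L [1,3] 63 (Pf.C 1 0x4060e0c089))
 (Pq.cons (Pq.L [1,5] 63 (Pf.C 1 0x4060e14089))
 (Pq.cons (Pq.L [1,3] 63 (Pf.C 1 0x4060e0c089))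
 (Pq.cons (Pq.L [3,5] 63 (Pf.C 1 0x4060e14189))
 (Pq.cons (Pq.L [1,3] 63 (Pf.C 1 0x4060e0c089))
 Pq.nil)))))))) Pq.nil)))))))) (Pq.cons (Pq.D 2 (Pq.cons (Pq.D 3 (Pq.cons (Pq.L [0,1] 63 (Pf.C 1 0x4060e04009))
 (Pq.cons (Pq.L [0,1] 63 (Pf.C 1 0x4060e04009))
 (Pq.cons (Pq.L [0,1] 63 (Pf.C 1 0x4060e04009))
 (Pq.cons (Pq.L [0,1] 63 (Pf.C 1 0x4060e04009))
 (Pq.cons (Pq.L [0,1] 63 (Pf.C 1 0x4060e04009))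
 (Pq.cons (Pq.L [0,4] 63 (Pf.C 1 0x4060e10009))
 (Pq.cons (Pq.L [1,4] 63 (Pf.C 1 0x4060e10089))
 Pq.nil)))))))) (Pq.cons (Pq.D 3 (Pq.cons (Pq.L [0,1] 63 (Pf.C 1 0x4060e04009))
 (Pq.cons (Pq.L [0,1] 63 (Pf.C 1 0x4060e04009))
 (Pq.cons (Pq.L [0,1] 63 (Pf.C 1 0x4060e04009))
 (Pq.cons (Pq.L [0,1] 63 (Pf.C 1 0x4060e04009))
 (Pq.cons (Pq.L [0,1] 63 (Pf.C 1 0x4060e04009))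
 (Pq.cons (Pq.L [0,4] 63 (Pf.C 1 0x4060e10009))
 (Pq.cons (Pq.L [1,4] 63 (Pf.C 1 0x4060e10089))
 Pq.nil)))))))) (Pq.cons (Pq.D 3 (Pq.cons (Pq.L [0,1] 63 (Pf.C 1 0x4060e04009))
 (Pq.cons (Pq.L [0,1] 63 (Pf.C 1 0x4060e04009))
 (Pq.cons (Pq.L [0,1] 63 (Pf.C 1 0x4060e04009))
 (Pq.cons (Pq.L [0,1] 63 (Pf.C 1 0x4060e04009))
 (Pq.cons (Pq.L [0,1] 63 (Pf.C 1 0x4060e04009))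
 (Pq.cons (Pq.L [0,5] 63 (Pf.C 1 0x4060e14009))
 (Pq.cons (Pq.L [1,5] 63 (Pf.C 1 0x4060e14089))
 Pq.nil)))))))) (Pq.cons (Pq.D 3 (Pq.cons (Pq.L [0,1] 63 (Pf.C 1 0x4060e04009))
 (Pq.cons (Pq.L [0,1] 63 (Pf.C 1 0x4060e04009))
 (Pq.cons (Pq.L [0,1] 63 (Pf.C 1 0x4060e04009))
 (Pq.cons (Pq.L [0,1] 63 (Pf.C 1 0x4060e04009))
 (Pq.cons (Pq.L [0,1] 63 (Pf.C 1 0x4060e04009))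
 (Pq.cons (Pq.L [0,4] 63 (Pf.C 1 0x4060e10009))
 (Pq.cons (Pq.L [1,4] 63 (Pf.C 1 0x4060e10089))
 Pq.nil)))))))) (Pq.cons (Pq.D 3 (Pq.cons (Pq.L [0,1] 63 (Pf.C 1 0x4060e04009))
 (Pq.cons (Pq.L [0,1] 63 (Pf.C 1 0x4060e04009))
 (Pq.cons (Pq.L [0,1] 63 (Pf.C 1 0x4060e04009))
 (Pq.cons (Pq.L [0,1] 63 (Pf.C 1 0x4060e04009))
 (Pq.cons (Pq.L [0,1] 63 (Pf.C 1 0x4060e04009))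
 (Pq.cons (Pq.L [0,4] 63 (Pf.C 1 0x4060e10009))
 (Pq.cons (Pq.L [1,4] 63 (Pf.C 1 0x4060e10089))
 Pq.nil)))))))) (Pq.cons (Pq.D 3 (Pq.cons (Pq.L [0,4] 63 (Pf.C 1 0x4060e10009))
 (Pq.cons (Pq.L [0,4] 63 (Pf.C 1 0x4060e10009))
 (Pq.cons (Pq.L [0,5] 63 (Pf.C 1 0x4060e14009))
 (Pq.cons (Pq.L [0,4] 63 (Pf.C 1 0x4060e10009))
 (Pq.cons (Pq.L [0,4] 63 (Pf.C 1 0x4060e10009))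
 (Pq.cons (Pq.L [0,4] 63 (Pf.C 1 0x4060e10009))
 (Pq.cons (Pq.L [4,5] 63 (Pf.C 1 0x4060e14209))
 Pq.nil)))))))) (Pq.cons (Pq.D 3 (Pq.cons (Pq.L [1,4] 63 (Pf.C 1 0x4060e10089))
 (Pq.cons (Pq.L [1,4] 63 (Pf.C 1 0x4060e10089))
 (Pq.cons (Pq.L [1,5] 63 (Pf.C 1 0x4060e14089))
 (Pq.cons (Pq.L [1,4] 63 (Pf.C 1 0x4060e10089))
 (Pq.cons (Pq.L [1,4] 63 (Pf.C 1 0x4060e10089))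
 (Pq.cons (Pq.L [4,5] 63 (Pf.C 1 0x4060e14209))
 (Pq.cons (Pq.L [1,4] 63 (Pf.C 1 0x4060e10089))
 Pq.nil)))))))) Pq.nil)))))))) (Pq.cons (Pq.D 2 (Pq.cons (Pq.D 3 (Pq.cons (Pq.L [0,1] 63 (Pf.C 1 0x4060e04009))
 (Pq.cons (Pq.L [0,1] 63 (Pf.C 1 0x4060e04009))
 (Pq.cons (Pq.L [0,1] 63 (Pf.C 1 0x4060e04009))
 (Pq.cons (Pq.L [0,1] 63 (Pf.C 1 0x4060e04009))
 (Pq.cons (Pq.L [0,1] 63 (Pf.C 1 0x4060e04009))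
 (Pq.cons (Pq.L [0,3] 63 (Pf.C 1 0x4060e0c009))
 (Pq.cons (Pq.L [1,3] 63 (Pf.C 1 0x4060e0c089))
 Pq.nil)))))))) (Pq.cons (Pq.D 3 (Pq.cons (Pq.L [0,1] 63 (Pf.C 1 0x4060e04009))
 (Pq.cons (Pq.L [0,1] 63 (Pf.C 1 0x4060e04009))
 (Pq.cons (Pq.L [0,1] 63 (Pf.C 1 0x4060e04009))
 (Pq.cons (Pq.L [0,1] 63 (Pf.C 1 0x4060e04009))
 (Pq.cons (Pq.L [0,1] 63 (Pf.C 1 0x4060e04009))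
 (Pq.cons (Pq.L [0,3] 63 (Pf.C 1 0x4060e0c009))
 (Pq.cons (Pq.L [1,3] 63 (Pf.C 1 0x4060e0c089))
 Pq.nil)))))))) (Pq.cons (Pq.D 3 (Pq.cons (Pq.L [0,1] 63 (Pf.C 1 0x4060e04009))
 (Pq.cons (Pq.L [0,1] 63 (Pf.C 1 0x4060e04009))
 (Pq.cons (Pq.L [0,1] 63 (Pf.C 1 0x4060e04009))
 (Pq.cons (Pq.L [0,1] 63 (Pf.C 1 0x4060e04009))
 (Pq.cons (Pq.L [0,1] 63 (Pf.C 1 0x4060e04009))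
 (Pq.cons (Pq.L [0,3] 63 (Pf.C 1 0x4060e0c009))
 (Pq.cons (Pq.L [1,3] 63 (Pf.C 1 0x4060e0c089))
 Pq.nil)))))))) (Pq.cons (Pq.D 3 (Pq.cons (Pq.L [0,1] 63 (Pf.C 1 0x4060e04009))
 (Pq.cons (Pq.L [0,1] 63 (Pf.C 1 0x4060e04009))
 (Pq.cons (Pq.L [0,1] 63 (Pf.C 1 0x4060e04009))
 (Pq.cons (Pq.L [0,1] 63 (Pf.C 1 0x4060e04009))
 (Pq.cons (Pq.L [0,1] 63 (Pf.C 1 0x4060e04009))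
 (Pq.cons (Pq.L [0,4] 63 (Pf.C 1 0x4060e10009))
 (Pq.cons (Pq.L [1,4] 63 (Pf.C 1 0x4060e10089))
 Pq.nil)))))))) (Pq.cons (Pq.L [2] 11 (Pf.C 0 0x1008307))
 (Pq.cons (Pq.D 3 (Pq.cons (Pq.L [0,3] 63 (Pf.C 1 0x4060e0c009))
 (Pq.cons (Pq.L [0,3] 63 (Pf.C 1 0x4060e0c009))
 (Pq.cons (Pq.L [0,3] 63 (Pf.C 1 0x4060e0c009))
 (Pq.cons (Pq.L [0,4] 63 (Pf.C 1 0x4060e10009))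
 (Pq.cons (Pq.L [0,3] 63 (Pf.C 1 0x4060e0c009))
 (Pq.cons (Pq.L [0,3] 63 (Pf.C 1 0x4060e0c009))
 (Pq.cons (Pq.L [3,4] 63 (Pf.C 1 0x4060e10189))
 Pq.nil)))))))) (Pq.cons (Pq.D 3 (Pq.cons (Pq.L [1,3] 63 (Pf.C 1 0x4060e0c089))
 (Pq.cons (Pq.L [1,3] 63 (Pf.C 1 0x4060e0c089))
 (Pq.cons (Pq.L [1,3] 63 (Pf.C 1 0x4060e0c089))
 (Pq.cons (Pq.L [1,4] 63 (Pf.C 1 0x4060e10089))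
 (Pq.cons (Pq.L [1,3] 63 (Pf.C 1 0x4060e0c089))
 (Pq.cons (Pq.L [3,4] 63 (Pf.C 1 0x4060e10189))
 (Pq.cons (Pq.L [1,3] 63 (Pf.C 1 0x4060e0c089))
 Pq.nil)))))))) Pq.nil)))))))) (Pq.cons (Pq.D 2 (Pq.cons (Pq.D 3 (Pq.cons (Pq.L [0,3] 63 (Pf.C 1 0x4060e0c009))
 (Pq.cons (Pq.L [0,3] 63 (Pf.C 1 0x4060e0c009))
 (Pq.cons (Pq.L [0,3] 63 (Pf.C 1 0x4060e0c009))
 (Pq.cons (Pq.L [0,4] 63 (Pf.C 1 0x4060e10009))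
 (Pq.cons (Pq.L [0,3] 63 (Pf.C 1 0x4060e0c009))
 (Pq.cons (Pq.L [0,3] 63 (Pf.C 1 0x4060e0c009))
 (Pq.cons (Pq.L [3,4] 63 (Pf.C 1 0x4060e10189))
 Pq.nil)))))))) (Pq.cons (Pq.D 3 (Pq.cons (Pq.L [0,3] 63 (Pf.C 1 0x4060e0c009))
 (Pq.cons (Pq.L [0,3] 63 (Pf.C 1 0x4060e0c009))
 (Pq.cons (Pq.L [0,3] 63 (Pf.C 1 0x4060e0c009))
 (Pq.cons (Pq.L [0,4] 63 (Pf.C 1 0x4060e10009))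
 (Pq.cons (Pq.L [0,3] 63 (Pf.C 1 0x4060e0c009))
 (Pq.cons (Pq.L [0,3] 63 (Pf.C 1 0x4060e0c009))
 (Pq.cons (Pq.L [3,4] 63 (Pf.C 1 0x4060e10189))
 Pq.nil)))))))) (Pq.cons (Pq.D 3 (Pq.cons (Pq.L [0,3] 63 (Pf.C 1 0x4060e0c009))
 (Pq.cons (Pq.L [0,3] 63 (Pf.C 1 0x4060e0c009))
 (Pq.cons (Pq.L [0,3] 63 (Pf.C 1 0x4060e0c009))
 (Pq.cons (Pq.L [0,5] 63 (Pf.C 1 0x4060e14009))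
 (Pq.cons (Pq.L [0,3] 63 (Pf.C 1 0x4060e0c009))
 (Pq.cons (Pq.L [0,3] 63 (Pf.C 1 0x4060e0c009))
 (Pq.cons (Pq.L [3,5] 63 (Pf.C 1 0x4060e14189))
 Pq.nil)))))))) (Pq.cons (Pq.D 3 (Pq.cons (Pq.L [0,4] 63 (Pf.C 1 0x4060e10009))
 (Pq.cons (Pq.L [0,4] 63 (Pf.C 1 0x4060e10009))
 (Pq.cons (Pq.L [0,5] 63 (Pf.C 1 0x4060e14009))
 (Pq.cons (Pq.L [0,4] 63 (Pf.C 1 0x4060e10009))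
 (Pq.cons (Pq.L [0,4] 63 (Pf.C 1 0x4060e10009))
 (Pq.cons (Pq.L [0,4] 63 (Pf.C 1 0x4060e10009))
 (Pq.cons (Pq.L [4,5] 63 (Pf.C 1 0x4060e14209))
 Pq.nil)))))))) (Pq.cons (Pq.D 3 (Pq.cons (Pq.L [0,3] 63 (Pf.C 1 0x4060e0c009))
 (Pq.cons (Pq.L [0,3] 63 (Pf.C 1 0x4060e0c009))
 (Pq.cons (Pq.L [0,3] 63 (Pf.C 1 0x4060e0c009))
 (Pq.cons (Pq.L [0,4] 63 (Pf.C 1 0x4060e10009))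
 (Pq.cons (Pq.L [0,3] 63 (Pf.C 1 0x4060e0c009))
 (Pq.cons (Pq.L [0,3] 63 (Pf.C 1 0x4060e0c009))
 (Pq.cons (Pq.L [3,4] 63 (Pf.C 1 0x4060e10189))
 Pq.nil)))))))) (Pq.cons (Pq.D 3 (Pq.cons (Pq.L [0,3] 63 (Pf.C 1 0x4060e0c009))
 (Pq.cons (Pq.L [0,3] 63 (Pf.C 1 0x4060e0c009))
 (Pq.cons (Pq.L [0,3] 63 (Pf.C 1 0x4060e0c009))
 (Pq.cons (Pq.L [0,4] 63 (Pf.C 1 0x4060e10009))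
 (Pq.cons (Pq.L [0,3] 63 (Pf.C 1 0x4060e0c009))
 (Pq.cons (Pq.L [0,3] 63 (Pf.C 1 0x4060e0c009))
 (Pq.cons (Pq.L [3,4] 63 (Pf.C 1 0x4060e10189))
 Pq.nil)))))))) (Pq.cons (Pq.D 3 (Pq.cons (Pq.L [3,4] 63 (Pf.C 1 0x4060e10189))
 (Pq.cons (Pq.L [3,4] 63 (Pf.C 1 0x4060e10189))
 (Pq.cons (Pq.L [3,5] 63 (Pf.C 1 0x4060e14189))
 (Pq.cons (Pq.L [4,5] 63 (Pf.C 1 0x4060e14209))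
 (Pq.cons (Pq.L [3,4] 63 (Pf.C 1 0x4060e10189))
 (Pq.cons (Pq.L [3,4] 63 (Pf.C 1 0x4060e10189))
 (Pq.cons (Pq.L [3,4] 63 (Pf.C 1 0x4060e10189))
 Pq.nil)))))))) Pq.nil)))))))) (Pq.cons (Pq.D 2 (Pq.cons (Pq.D 3 (Pq.cons (Pq.L [1,3] 63 (Pf.C 1 0x4060e0c089))
 (Pq.cons (Pq.L [1,3] 63 (Pf.C 1 0x4060e0c089))
 (Pq.cons (Pq.L [1,3] 63 (Pf.C 1 0x4060e0c089))
 (Pq.cons (Pq.L [1,4] 63 (Pf.C 1 0x4060e10089))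
 (Pq.cons (Pq.L [1,3] 63 (Pf.C 1 0x4060e0c089))
 (Pq.cons (Pq.L [3,4] 63 (Pf.C 1 0x4060e10189))
 (Pq.cons (Pq.L [1,3] 63 (Pf.C 1 0x4060e0c089))
 Pq.nil)))))))) (Pq.cons (Pq.D 3 (Pq.cons (Pq.L [1,3] 63 (Pf.C 1 0x4060e0c089))
 (Pq.cons (Pq.L [1,3] 63 (Pf.C 1 0x4060e0c089))
 (Pq.cons (Pq.L [1,3] 63 (Pf.C 1 0x4060e0c089))
 (Pq.cons (Pq.L [1,4] 63 (Pf.C 1 0x4060e10089))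
 (Pq.cons (Pq.L [1,3] 63 (Pf.C 1 0x4060e0c089))
 (Pq.cons (Pq.L [3,4] 63 (Pf.C 1 0x4060e10189))
 (Pq.cons (Pq.L [1,3] 63 (Pf.C 1 0x4060e0c089))
 Pq.nil)))))))) (Pq.cons (Pq.D 3 (Pq.cons (Pq.L [1,3] 63 (Pf.C 1 0x4060e0c089))
 (Pq.cons (Pq.L [1,3] 63 (Pf.C 1 0x4060e0c089))
 (Pq.cons (Pq.L [1,3] 63 (Pf.C 1 0x4060e0c089))
 (Pq.cons (Pq.L [1,5] 63 (Pf.C 1 0x4060e14089))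
 (Pq.cons (Pq.L [1,3] 63 (Pf.C 1 0x4060e0c089))
 (Pq.cons (Pq.L [3,5] 63 (Pf.C 1 0x4060e14189))
 (Pq.cons (Pq.L [1,3] 63 (Pf.C 1 0x4060e0c089))
 Pq.nil)))))))) (Pq.cons (Pq.D 3 (Pq.cons (Pq.L [1,4] 63 (Pf.C 1 0x4060e10089))
 (Pq.cons (Pq.L [1,4] 63 (Pf.C 1 0x4060e10089))
 (Pq.cons (Pq.L [1,5] 63 (Pf.C 1 0x4060e14089))
 (Pq.cons (Pq.L [1,4] 63 (Pf.C 1 0x4060e10089))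
 (Pq.cons (Pq.L [1,4] 63 (Pf.C 1 0x4060e10089))
 (Pq.cons (Pq.L [4,5] 63 (Pf.C 1 0x4060e14209))
 (Pq.cons (Pq.L [1,4] 63 (Pf.C 1 0x4060e10089))
 Pq.nil)))))))) (Pq.cons (Pq.D 3 (Pq.cons (Pq.L [1,3] 63 (Pf.C 1 0x4060e0c089))
 (Pq.cons (Pq.L [1,3] 63 (Pf.C 1 0x4060e0c089))
 (Pq.cons (Pq.L [1,3] 63 (Pf.C 1 0x4060e0c089))
 (Pq.cons (Pq.L [1,4] 63 (Pf.C 1 0x4060e10089))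
 (Pq.cons (Pq.L [1,3] 63 (Pf.C 1 0x4060e0c089))
 (Pq.cons (Pq.L [3,4] 63 (Pf.C 1 0x4060e10189))
 (Pq.cons (Pq.L [1,3] 63 (Pf.C 1 0x4060e0c089))
 Pq.nil)))))))) (Pq.cons (Pq.D 3 (Pq.cons (Pq.L [3,4] 63 (Pf.C 1 0x4060e10189))
 (Pq.cons (Pq.L [3,4] 63 (Pf.C 1 0x4060e10189))
 (Pq.cons (Pq.L [3,5] 63 (Pf.C 1 0x4060e14189))
 (Pq.cons (Pq.L [4,5] 63 (Pf.C 1 0x4060e14209))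
 (Pq.cons (Pq.L [3,4] 63 (Pf.C 1 0x4060e10189))
 (Pq.cons (Pq.L [3,4] 63 (Pf.C 1 0x4060e10189))
 (Pq.cons (Pq.L [3,4] 63 (Pf.C 1 0x4060e10189))
 Pq.nil)))))))) (Pq.cons (Pq.D 3 (Pq.cons (Pq.L [1,3] 63 (Pf.C 1 0x4060e0c089))
 (Pq.cons (Pq.L [1,3] 63 (Pf.C 1 0x4060e0c089))
 (Pq.cons (Pq.L [1,3] 63 (Pf.C 1 0x4060e0c089))
 (Pq.cons (Pq.L [1,4] 63 (Pf.C 1 0x4060e10089))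
 (Pq.cons (Pq.L [1,3] 63 (Pf.C 1 0x4060e0c089))
 (Pq.cons (Pq.L [3,4] 63 (Pf.C 1 0x4060e10189))
 (Pq.cons (Pq.L [1,3] 63 (Pf.C 1 0x4060e0c089))
 Pq.nil)))))))) Pq.nil)))))))) Pq.nil)))))))) Pq.nil)
theorem e_o30 : AllRef e_T e_G4 (List.drop 1 (List.take 2 (List.drop 3 (List.flatMap (splitP 0) (List.drop 4 (applyObl e1_T 5 [5,6,7,8,9,10,11,12] [1,1,1,1,1,1,1,2] [])))))) :=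
  chkPq_sound e_o30c _ (by decide +kernel)
noncomputable def e_o31c : Pq := (Pq.cons (Pq.D 1 (Pq.cons (Pq.D 2 (Pq.cons (Pq.D 3 (Pq.cons (Pq.L [0,2] 63 (Pf.C 1 0x4060e08009))
 (Pq.cons (Pq.L [0,2] 63 (Pf.C 1 0x4060e08009))
 (Pq.cons (Pq.L [0,2] 63 (Pf.C 1 0x4060e08009))
 (Pq.cons (Pq.L [0,2] 63 (Pf.C 1 0x4060e08009))
 (Pq.cons (Pq.L [0,3] 63 (Pf.C 1 0x4060e0c009))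
 (Pq.cons (Pq.L [0,2] 63 (Pf.C 1 0x4060e08009))
 (Pq.cons (Pq.L [2,3] 63 (Pf.C 1 0x4060e0c109))
 Pq.nil)))))))) (Pq.cons (Pq.D 3 (Pq.cons (Pq.L [0,2] 63 (Pf.C 1 0x4060e08009))
 (Pq.cons (Pq.L [0,2] 63 (Pf.C 1 0x4060e08009))
 (Pq.cons (Pq.L [0,2] 63 (Pf.C 1 0x4060e08009))
 (Pq.cons (Pq.L [0,2] 63 (Pf.C 1 0x4060e08009))
 (Pq.cons (Pq.L [0,3] 63 (Pf.C 1 0x4060e0c009))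
 (Pq.cons (Pq.L [0,2] 63 (Pf.C 1 0x4060e08009))
 (Pq.cons (Pq.L [2,3] 63 (Pf.C 1 0x4060e0c109))
 Pq.nil)))))))) (Pq.cons (Pq.D 3 (Pq.cons (Pq.L [0,2] 63 (Pf.C 1 0x4060e08009))
 (Pq.cons (Pq.L [0,2] 63 (Pf.C 1 0x4060e08009))
 (Pq.cons (Pq.L [0,2] 63 (Pf.C 1 0x4060e08009))
 (Pq.cons (Pq.L [0,2] 63 (Pf.C 1 0x4060e08009))
 (Pq.cons (Pq.L [0,3] 63 (Pf.C 1 0x4060e0c009))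
 (Pq.cons (Pq.L [0,2] 63 (Pf.C 1 0x4060e08009))
 (Pq.cons (Pq.L [2,3] 63 (Pf.C 1 0x4060e0c109))
 Pq.nil)))))))) (Pq.cons (Pq.D 3 (Pq.cons (Pq.L [0,2] 63 (Pf.C 1 0x4060e08009))
 (Pq.cons (Pq.L [0,2] 63 (Pf.C 1 0x4060e08009))
 (Pq.cons (Pq.L [0,2] 63 (Pf.C 1 0x4060e08009))
 (Pq.cons (Pq.L [0,2] 63 (Pf.C 1 0x4060e08009))
 (Pq.cons (Pq.L [0,4] 63 (Pf.C 1 0x4060e10009))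
 (Pq.cons (Pq.L [0,2] 63 (Pf.C 1 0x4060e08009))
 (Pq.cons (Pq.L [2,4] 63 (Pf.C 1 0x4060e10109))
 Pq.nil)))))))) (Pq.cons (Pq.D 3 (Pq.cons (Pq.L [0,3] 63 (Pf.C 1 0x4060e0c009))
 (Pq.cons (Pq.L [0,3] 63 (Pf.C 1 0x4060e0c009))
 (Pq.cons (Pq.L [0,3] 63 (Pf.C 1 0x4060e0c009))
 (Pq.cons (Pq.L [0,4] 63 (Pf.C 1 0x4060e10009))
 (Pq.cons (Pq.L [0,3] 63 (Pf.C 1 0x4060e0c009))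
 (Pq.cons (Pq.L [0,3] 63 (Pf.C 1 0x4060e0c009))
 (Pq.cons (Pq.L [3,4] 63 (Pf.C 1 0x4060e10189))
 Pq.nil)))))))) (Pq.cons (Pq.D 3 (Pq.cons (Pq.L [0,2] 63 (Pf.C 1 0x4060e08009))
 (Pq.cons (Pq.L [0,2] 63 (Pf.C 1 0x4060e08009))
 (Pq.cons (Pq.L [0,2] 63 (Pf.C 1 0x4060e08009))
 (Pq.cons (Pq.L [0,2] 63 (Pf.C 1 0x4060e08009))
 (Pq.cons (Pq.L [0,3] 63 (Pf.C 1 0x4060e0c009))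
 (Pq.cons (Pq.L [0,2] 63 (Pf.C 1 0x4060e08009))
 (Pq.cons (Pq.L [2,3] 63 (Pf.C 1 0x4060e0c109))
 Pq.nil)))))))) (Pq.cons (Pq.D 3 (Pq.cons (Pq.L [2,3] 63 (Pf.C 1 0x4060e0c109))
 (Pq.cons (Pq.L [2,3] 63 (Pf.C 1 0x4060e0c109))
 (Pq.cons (Pq.L [2,3] 63 (Pf.C 1 0x4060e0c109))
 (Pq.cons (Pq.L [2,4] 63 (Pf.C 1 0x4060e10109))
 (Pq.cons (Pq.L [3,4] 63 (Pf.C 1 0x4060e10189))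
 (Pq.cons (Pq.L [2,3] 63 (Pf.C 1 0x4060e0c109))
 (Pq.cons (Pq.L [2,3] 63 (Pf.C 1 0x4060e0c109))
 Pq.nil)))))))) Pq.nil)))))))) (Pq.cons (Pq.D 2 (Pq.cons (Pq.D 3 (Pq.cons (Pq.L [0,2] 63 (Pf.C 1 0x4060e08009))
 (Pq.cons (Pq.L [0,2] 63 (Pf.C 1 0x4060e08009))
 (Pq.cons (Pq.L [0,2] 63 (Pf.C 1 0x4060e08009))
 (Pq.cons (Pq.L [0,2] 63 (Pf.C 1 0x4060e08009))
 (Pq.cons (Pq.L [0,3] 63 (Pf.C 1 0x4060e0c009))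
 (Pq.cons (Pq.L [0,2] 63 (Pf.C 1 0x4060e08009))
 (Pq.cons (Pq.L [2,3] 63 (Pf.C 1 0x4060e0c109))
 Pq.nil)))))))) (Pq.cons (Pq.D 3 (Pq.cons (Pq.L [0,2] 63 (Pf.C 1 0x4060e08009))
 (Pq.cons (Pq.L [0,2] 63 (Pf.C 1 0x4060e08009))
 (Pq.cons (Pq.L [0,2] 63 (Pf.C 1 0x4060e08009))
 (Pq.cons (Pq.L [0,2] 63 (Pf.C 1 0x4060e08009))
 (Pq.cons (Pq.L [0,3] 63 (Pf.C 1 0x4060e0c009))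
 (Pq.cons (Pq.L [0,2] 63 (Pf.C 1 0x4060e08009))
 (Pq.cons (Pq.L [2,3] 63 (Pf.C 1 0x4060e0c109))
 Pq.nil)))))))) (Pq.cons (Pq.D 3 (Pq.cons (Pq.L [0,2] 63 (Pf.C 1 0x4060e08009))
 (Pq.cons (Pq.L [0,2] 63 (Pf.C 1 0x4060e08009))
 (Pq.cons (Pq.L [0,2] 63 (Pf.C 1 0x4060e08009))
 (Pq.cons (Pq.L [0,2] 63 (Pf.C 1 0x4060e08009))
 (Pq.cons (Pq.L [0,3] 63 (Pf.C 1 0x4060e0c009))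
 (Pq.cons (Pq.L [0,2] 63 (Pf.C 1 0x4060e08009))
 (Pq.cons (Pq.L [2,3] 63 (Pf.C 1 0x4060e0c109))
 Pq.nil)))))))) (Pq.cons (Pq.D 3 (Pq.cons (Pq.L [0,2] 63 (Pf.C 1 0x4060e08009))
 (Pq.cons (Pq.L [0,2] 63 (Pf.C 1 0x4060e08009))
 (Pq.cons (Pq.L [0,2] 63 (Pf.C 1 0x4060e08009))
 (Pq.cons (Pq.L [0,2] 63 (Pf.C 1 0x4060e08009))
 (Pq.cons (Pq.L [0,4] 63 (Pf.C 1 0x4060e10009))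
 (Pq.cons (Pq.L [0,2] 63 (Pf.C 1 0x4060e08009))
 (Pq.cons (Pq.L [2,4] 63 (Pf.C 1 0x4060e10109))
 Pq.nil)))))))) (Pq.cons (Pq.D 3 (Pq.cons (Pq.L [0,3] 63 (Pf.C 1 0x4060e0c009))
 (Pq.cons (Pq.L [0,3] 63 (Pf.C 1 0x4060e0c009))
 (Pq.cons (Pq.L [0,3] 63 (Pf.C 1 0x4060e0c009))
 (Pq.cons (Pq.L [0,4] 63 (Pf.C 1 0x4060e10009))
 (Pq.cons (Pq.L [0,3] 63 (Pf.C 1 0x4060e0c009))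
 (Pq.cons (Pq.L [0,3] 63 (Pf.C 1 0x4060e0c009))
 (Pq.cons (Pq.L [3,4] 63 (Pf.C 1 0x4060e10189))
 Pq.nil)))))))) (Pq.cons (Pq.D 3 (Pq.cons (Pq.L [0,2] 63 (Pf.C 1 0x4060e08009))
 (Pq.cons (Pq.L [0,2] 63 (Pf.C 1 0x4060e08009))
 (Pq.cons (Pq.L [0,2] 63 (Pf.C 1 0x4060e08009))
 (Pq.cons (Pq.L [0,2] 63 (Pf.C 1 0x4060e08009))
 (Pq.cons (Pq.L [0,3] 63 (Pf.C 1 0x4060e0c009))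
 (Pq.cons (Pq.L [0,2] 63 (Pf.C 1 0x4060e08009))
 (Pq.cons (Pq.L [2,3] 63 (Pf.C 1 0x4060e0c109))
 Pq.nil)))))))) (Pq.cons (Pq.D 3 (Pq.cons (Pq.L [2,3] 63 (Pf.C 1 0x4060e0c109))
 (Pq.cons (Pq.L [2,3] 63 (Pf.C 1 0x4060e0c109))
 (Pq.cons (Pq.L [2,3] 63 (Pf.C 1 0x4060e0c109))
 (Pq.cons (Pq.L [2,4] 63 (Pf.C 1 0x4060e10109))
 (Pq.cons (Pq.L [3,4] 63 (Pf.C 1 0x4060e10189))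
 (Pq.cons (Pq.L [2,3] 63 (Pf.C 1 0x4060e0c109))
 (Pq.cons (Pq.L [2,3] 63 (Pf.C 1 0x4060e0c109))
 Pq.nil)))))))) Pq.nil)))))))) (Pq.cons (Pq.D 2 (Pq.cons (Pq.D 3 (Pq.cons (Pq.L [0,2] 63 (Pf.C 1 0x4060e08009))
 (Pq.cons (Pq.L [0,2] 63 (Pf.C 1 0x4060e08009))
 (Pq.cons (Pq.L [0,2] 63 (Pf.C 1 0x4060e08009))
 (Pq.cons (Pq.L [0,2] 63 (Pf.C 1 0x4060e08009))
 (Pq.cons (Pq.L [0,3] 63 (Pf.C 1 0x4060e0c009))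
 (Pq.cons (Pq.L [0,2] 63 (Pf.C 1 0x4060e08009))
 (Pq.cons (Pq.L [2,3] 63 (Pf.C 1 0x4060e0c109))
 Pq.nil)))))))) (Pq.cons (Pq.D 3 (Pq.cons (Pq.L [0,2] 63 (Pf.C 1 0x4060e08009))
 (Pq.cons (Pq.L [0,2] 63 (Pf.C 1 0x4060e08009))
 (Pq.cons (Pq.L [0,2] 63 (Pf.C 1 0x4060e08009))
 (Pq.cons (Pq.L [0,2] 63 (Pf.C 1 0x4060e08009))
 (Pq.cons (Pq.L [0,3] 63 (Pf.C 1 0x4060e0c009))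
 (Pq.cons (Pq.L [0,2] 63 (Pf.C 1 0x4060e08009))
 (Pq.cons (Pq.L [2,3] 63 (Pf.C 1 0x4060e0c109))
 Pq.nil)))))))) (Pq.cons (Pq.D 3 (Pq.cons (Pq.L [0,2] 63 (Pf.C 1 0x4060e08009))
 (Pq.cons (Pq.L [0,2] 63 (Pf.C 1 0x4060e08009))
 (Pq.cons (Pq.L [0,2] 63 (Pf.C 1 0x4060e08009))
 (Pq.cons (Pq.L [0,2] 63 (Pf.C 1 0x4060e08009))
 (Pq.cons (Pq.L [0,3] 63 (Pf.C 1 0x4060e0c009))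
 (Pq.cons (Pq.L [0,2] 63 (Pf.C 1 0x4060e08009))
 (Pq.cons (Pq.L [2,3] 63 (Pf.C 1 0x4060e0c109))
 Pq.nil)))))))) (Pq.cons (Pq.D 3 (Pq.cons (Pq.L [0,2] 63 (Pf.C 1 0x4060e08009))
 (Pq.cons (Pq.L [0,2] 63 (Pf.C 1 0x4060e08009))
 (Pq.cons (Pq.L [0,2] 63 (Pf.C 1 0x4060e08009))
 (Pq.cons (Pq.L [0,2] 63 (Pf.C 1 0x4060e08009))
 (Pq.cons (Pq.L [0,5] 63 (Pf.C 1 0x4060e14009))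
 (Pq.cons (Pq.L [0,2] 63 (Pf.C 1 0x4060e08009))
 (Pq.cons (Pq.L [2,5] 63 (Pf.C 1 0x4060e14109))
 Pq.nil)))))))) (Pq.cons (Pq.D 3 (Pq.cons (Pq.L [0,3] 63 (Pf.C 1 0x4060e0c009))
 (Pq.cons (Pq.L [0,3] 63 (Pf.C 1 0x4060e0c009))
 (Pq.cons (Pq.L [0,3] 63 (Pf.C 1 0x4060e0c009))
 (Pq.cons (Pq.L [0,5] 63 (Pf.C 1 0x4060e14009))
 (Pq.cons (Pq.L [0,3] 63 (Pf.C 1 0x4060e0c009))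
 (Pq.cons (Pq.L [0,3] 63 (Pf.C 1 0x4060e0c009))
 (Pq.cons (Pq.L [3,5] 63 (Pf.C 1 0x4060e14189))
 Pq.nil)))))))) (Pq.cons (Pq.D 3 (Pq.cons (Pq.L [0,2] 63 (Pf.C 1 0x4060e08009))
 (Pq.cons (Pq.L [0,2] 63 (Pf.C 1 0x4060e08009))
 (Pq.cons (Pq.L [0,2] 63 (Pf.C 1 0x4060e08009))
 (Pq.cons (Pq.L [0,2] 63 (Pf.C 1 0x4060e08009))
 (Pq.cons (Pq.L [0,3] 63 (Pf.C 1 0x4060e0c009))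
 (Pq.cons (Pq.L [0,2] 63 (Pf.C 1 0x4060e08009))
 (Pq.cons (Pq.L [2,3] 63 (Pf.C 1 0x4060e0c109))
 Pq.nil)))))))) (Pq.cons (Pq.D 3 (Pq.cons (Pq.L [2,3] 63 (Pf.C 1 0x4060e0c109))
 (Pq.cons (Pq.L [2,3] 63 (Pf.C 1 0x4060e0c109))
 (Pq.cons (Pq.L [2,3] 63 (Pf.C 1 0x4060e0c109))
 (Pq.cons (Pq.L [2,5] 63 (Pf.C 1 0x4060e14109))
 (Pq.cons (Pq.L [3,5] 63 (Pf.C 1 0x4060e14189))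
 (Pq.cons (Pq.L [2,3] 63 (Pf.C 1 0x4060e0c109))
 (Pq.cons (Pq.L [2,3] 63 (Pf.C 1 0x4060e0c109))
 Pq.nil)))))))) Pq.nil)))))))) (Pq.cons (Pq.D 2 (Pq.cons (Pq.D 3 (Pq.cons (Pq.L [0,2] 63 (Pf.C 1 0x4060e08009))
 (Pq.cons (Pq.L [0,2] 63 (Pf.C 1 0x4060e08009))
 (Pq.cons (Pq.L [0,2] 63 (Pf.C 1 0x4060e08009))
 (Pq.cons (Pq.L [0,2] 63 (Pf.C 1 0x4060e08009))
 (Pq.cons (Pq.L [0,4] 63 (Pf.C 1 0x4060e10009))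
 (Pq.cons (Pq.L [0,2] 63 (Pf.C 1 0x4060e08009))
 (Pq.cons (Pq.L [2,4] 63 (Pf.C 1 0x4060e10109))
 Pq.nil)))))))) (Pq.cons (Pq.D 3 (Pq.cons (Pq.L [0,2] 63 (Pf.C 1 0x4060e08009))
 (Pq.cons (Pq.L [0,2] 63 (Pf.C 1 0x4060e08009))
 (Pq.cons (Pq.L [0,2] 63 (Pf.C 1 0x4060e08009))
 (Pq.cons (Pq.L [0,2] 63 (Pf.C 1 0x4060e08009))
 (Pq.cons (Pq.L [0,4] 63 (Pf.C 1 0x4060e10009))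
 (Pq.cons (Pq.L [0,2] 63 (Pf.C 1 0x4060e08009))
 (Pq.cons (Pq.L [2,4] 63 (Pf.C 1 0x4060e10109))
 Pq.nil)))))))) (Pq.cons (Pq.D 3 (Pq.cons (Pq.L [0,2] 63 (Pf.C 1 0x4060e08009))
 (Pq.cons (Pq.L [0,2] 63 (Pf.C 1 0x4060e08009))
 (Pq.cons (Pq.L [0,2] 63 (Pf.C 1 0x4060e08009))
 (Pq.cons (Pq.L [0,2] 63 (Pf.C 1 0x4060e08009))
 (Pq.cons (Pq.L [0,5] 63 (Pf.C 1 0x4060e14009))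
 (Pq.cons (Pq.L [0,2] 63 (Pf.C 1 0x4060e08009))
 (Pq.cons (Pq.L [2,5] 63 (Pf.C 1 0x4060e14109))
 Pq.nil)))))))) (Pq.cons (Pq.D 3 (Pq.cons (Pq.L [0,2] 63 (Pf.C 1 0x4060e08009))
 (Pq.cons (Pq.L [0,2] 63 (Pf.C 1 0x4060e08009))
 (Pq.cons (Pq.L [0,2] 63 (Pf.C 1 0x4060e08009))
 (Pq.cons (Pq.L [0,2] 63 (Pf.C 1 0x4060e08009))
 (Pq.cons (Pq.L [0,4] 63 (Pf.C 1 0x4060e10009))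
 (Pq.cons (Pq.L [0,2] 63 (Pf.C 1 0x4060e08009))
 (Pq.cons (Pq.L [2,4] 63 (Pf.C 1 0x4060e10109))
 Pq.nil)))))))) (Pq.cons (Pq.D 3 (Pq.cons (Pq.L [0,4] 63 (Pf.C 1 0x4060e10009))
 (Pq.cons (Pq.L [0,4] 63 (Pf.C 1 0x4060e10009))
 (Pq.cons (Pq.L [0,5] 63 (Pf.C 1 0x4060e14009))
 (Pq.cons (Pq.L [0,4] 63 (Pf.C 1 0x4060e10009))
 (Pq.cons (Pq.L [0,4] 63 (Pf.C 1 0x4060e10009))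
 (Pq.cons (Pq.L [0,4] 63 (Pf.C 1 0x4060e10009))
 (Pq.cons (Pq.L [4,5] 63 (Pf.C 1 0x4060e14209))
 Pq.nil)))))))) (Pq.cons (Pq.D 3 (Pq.cons (Pq.L [0,2] 63 (Pf.C 1 0x4060e08009))
 (Pq.cons (Pq.L [0,2] 63 (Pf.C 1 0x4060e08009))
 (Pq.cons (Pq.L [0,2] 63 (Pf.C 1 0x4060e08009))
 (Pq.cons (Pq.L [0,2] 63 (Pf.C 1 0x4060e08009))
 (Pq.cons (Pq.L [0,4] 63 (Pf.C 1 0x4060e10009))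
 (Pq.cons (Pq.L [0,2] 63 (Pf.C 1 0x4060e08009))
 (Pq.cons (Pq.L [2,4] 63 (Pf.C 1 0x4060e10109))
 Pq.nil)))))))) (Pq.cons (Pq.D 3 (Pq.cons (Pq.L [2,4] 63 (Pf.C 1 0x4060e10109))
 (Pq.cons (Pq.L [2,4] 63 (Pf.C 1 0x4060e10109))
 (Pq.cons (Pq.L [2,5] 63 (Pf.C 1 0x4060e14109))
 (Pq.cons (Pq.L [2,4] 63 (Pf.C 1 0x4060e10109))
 (Pq.cons (Pq.L [4,5] 63 (Pf.C 1 0x4060e14209))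
 (Pq.cons (Pq.L [2,4] 63 (Pf.C 1 0x4060e10109))
 (Pq.cons (Pq.L [2,4] 63 (Pf.C 1 0x4060e10109))
 Pq.nil)))))))) Pq.nil)))))))) (Pq.cons (Pq.D 2 (Pq.cons (Pq.D 3 (Pq.cons (Pq.L [0,3] 63 (Pf.C 1 0x4060e0c009))
 (Pq.cons (Pq.L [0,3] 63 (Pf.C 1 0x4060e0c009))
 (Pq.cons (Pq.L [0,3] 63 (Pf.C 1 0x4060e0c009))
 (Pq.cons (Pq.L [0,4] 63 (Pf.C 1 0x4060e10009))
 (Pq.cons (Pq.L [0,3] 63 (Pf.C 1 0x4060e0c009))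
 (Pq.cons (Pq.L [0,3] 63 (Pf.C 1 0x4060e0c009))
 (Pq.cons (Pq.L [3,4] 63 (Pf.C 1 0x4060e10189))
 Pq.nil)))))))) (Pq.cons (Pq.D 3 (Pq.cons (Pq.L [0,3] 63 (Pf.C 1 0x4060e0c009))
 (Pq.cons (Pq.L [0,3] 63 (Pf.C 1 0x4060e0c009))
 (Pq.cons (Pq.L [0,3] 63 (Pf.C 1 0x4060e0c009))
 (Pq.cons (Pq.L [0,4] 63 (Pf.C 1 0x4060e10009))
 (Pq.cons (Pq.L [0,3] 63 (Pf.C 1 0x4060e0c009))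
 (Pq.cons (Pq.L [0,3] 63 (Pf.C 1 0x4060e0c009))
 (Pq.cons (Pq.L [3,4] 63 (Pf.C 1 0x4060e10189))
 Pq.nil)))))))) (Pq.cons (Pq.D 3 (Pq.cons (Pq.L [0,3] 63 (Pf.C 1 0x4060e0c009))
 (Pq.cons (Pq.L [0,3] 63 (Pf.C 1 0x4060e0c009))
 (Pq.cons (Pq.L [0,3] 63 (Pf.C 1 0x4060e0c009))
 (Pq.cons (Pq.L [0,5] 63 (Pf.C 1 0x4060e14009))
 (Pq.cons (Pq.L [0,3] 63 (Pf.C 1 0x4060e0c009))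
 (Pq.cons (Pq.L [0,3] 63 (Pf.C 1 0x4060e0c009))
 (Pq.cons (Pq.L [3,5] 63 (Pf.C 1 0x4060e14189))
 Pq.nil)))))))) (Pq.cons (Pq.D 3 (Pq.cons (Pq.L [0,4] 63 (Pf.C 1 0x4060e10009))
 (Pq.cons (Pq.L [0,4] 63 (Pf.C 1 0x4060e10009))
 (Pq.cons (Pq.L [0,5] 63 (Pf.C 1 0x4060e14009))
 (Pq.cons (Pq.L [0,4] 63 (Pf.C 1 0x4060e10009))
 (Pq.cons (Pq.L [0,4] 63 (Pf.C 1 0x4060e10009))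
 (Pq.cons (Pq.L [0,4] 63 (Pf.C 1 0x4060e10009))
 (Pq.cons (Pq.L [4,5] 63 (Pf.C 1 0x4060e14209))
 Pq.nil)))))))) (Pq.cons (Pq.D 3 (Pq.cons (Pq.L [0,3] 63 (Pf.C 1 0x4060e0c009))
 (Pq.cons (Pq.L [0,3] 63 (Pf.C 1 0x4060e0c009))
 (Pq.cons (Pq.L [0,3] 63 (Pf.C 1 0x4060e0c009))
 (Pq.cons (Pq.L [0,4] 63 (Pf.C 1 0x4060e10009))
 (Pq.cons (Pq.L [0,3] 63 (Pf.C 1 0x4060e0c009))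
 (Pq.cons (Pq.L [0,3] 63 (Pf.C 1 0x4060e0c009))
 (Pq.cons (Pq.L [3,4] 63 (Pf.C 1 0x4060e10189))
 Pq.nil)))))))) (Pq.cons (Pq.D 3 (Pq.cons (Pq.L [0,3] 63 (Pf.C 1 0x4060e0c009))
 (Pq.cons (Pq.L [0,3] 63 (Pf.C 1 0x4060e0c009))
 (Pq.cons (Pq.L [0,3] 63 (Pf.C 1 0x4060e0c009))
 (Pq.cons (Pq.L [0,4] 63 (Pf.C 1 0x4060e10009))
 (Pq.cons (Pq.L [0,3] 63 (Pf.C 1 0x4060e0c009))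
 (Pq.cons (Pq.L [0,3] 63 (Pf.C 1 0x4060e0c009))
 (Pq.cons (Pq.L [3,4] 63 (Pf.C 1 0x4060e10189))
 Pq.nil)))))))) (Pq.cons (Pq.D 3 (Pq.cons (Pq.L [3,4] 63 (Pf.C 1 0x4060e10189))
 (Pq.cons (Pq.L [3,4] 63 (Pf.C 1 0x4060e10189))
 (Pq.cons (Pq.L [3,5] 63 (Pf.C 1 0x4060e14189))
 (Pq.cons (Pq.L [4,5] 63 (Pf.C 1 0x4060e14209))
 (Pq.cons (Pq.L [3,4] 63 (Pf.C 1 0x4060e10189))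
 (Pq.cons (Pq.L [3,4] 63 (Pf.C 1 0x4060e10189))
 (Pq.cons (Pq.L [3,4] 63 (Pf.C 1 0x4060e10189))
 Pq.nil)))))))) Pq.nil)))))))) (Pq.cons (Pq.D 2 (Pq.cons (Pq.D 3 (Pq.cons (Pq.L [0,2] 63 (Pf.C 1 0x4060e08009))
 (Pq.cons (Pq.L [0,2] 63 (Pf.C 1 0x4060e08009))
 (Pq.cons (Pq.L [0,2] 63 (Pf.C 1 0x4060e08009))
 (Pq.cons (Pq.L [0,2] 63 (Pf.C 1 0x4060e08009))
 (Pq.cons (Pq.L [0,3] 63 (Pf.C 1 0x4060e0c009))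
 (Pq.cons (Pq.L [0,2] 63 (Pf.C 1 0x4060e08009))
 (Pq.cons (Pq.L [2,3] 63 (Pf.C 1 0x4060e0c109))
 Pq.nil)))))))) (Pq.cons (Pq.D 3 (Pq.cons (Pq.L [0,2] 63 (Pf.C 1 0x4060e08009))
 (Pq.cons (Pq.L [0,2] 63 (Pf.C 1 0x4060e08009))
 (Pq.cons (Pq.L [0,2] 63 (Pf.C 1 0x4060e08009))
 (Pq.cons (Pq.L [0,2] 63 (Pf.C 1 0x4060e08009))
 (Pq.cons (Pq.L [0,3] 63 (Pf.C 1 0x4060e0c009))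
 (Pq.cons (Pq.L [0,2] 63 (Pf.C 1 0x4060e08009))
 (Pq.cons (Pq.L [2,3] 63 (Pf.C 1 0x4060e0c109))
 Pq.nil)))))))) (Pq.cons (Pq.D 3 (Pq.cons (Pq.L [0,2] 63 (Pf.C 1 0x4060e08009))
 (Pq.cons (Pq.L [0,2] 63 (Pf.C 1 0x4060e08009))
 (Pq.cons (Pq.L [0,2] 63 (Pf.C 1 0x4060e08009))
 (Pq.cons (Pq.L [0,2] 63 (Pf.C 1 0x4060e08009))
 (Pq.cons (Pq.L [0,3] 63 (Pf.C 1 0x4060e0c009))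
 (Pq.cons (Pq.L [0,2] 63 (Pf.C 1 0x4060e08009))
 (Pq.cons (Pq.L [2,3] 63 (Pf.C 1 0x4060e0c109))
 Pq.nil)))))))) (Pq.cons (Pq.D 3 (Pq.cons (Pq.L [0,2] 63 (Pf.C 1 0x4060e08009))
 (Pq.cons (Pq.L [0,2] 63 (Pf.C 1 0x4060e08009))
 (Pq.cons (Pq.L [0,2] 63 (Pf.C 1 0x4060e08009))
 (Pq.cons (Pq.L [0,2] 63 (Pf.C 1 0x4060e08009))
 (Pq.cons (Pq.L [0,4] 63 (Pf.C 1 0x4060e10009))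
 (Pq.cons (Pq.L [0,2] 63 (Pf.C 1 0x4060e08009))
 (Pq.cons (Pq.L [2,4] 63 (Pf.C 1 0x4060e10109))
 Pq.nil)))))))) (Pq.cons (Pq.D 3 (Pq.cons (Pq.L [0,3] 63 (Pf.C 1 0x4060e0c009))
 (Pq.cons (Pq.L [0,3] 63 (Pf.C 1 0x4060e0c009))
 (Pq.cons (Pq.L [0,3] 63 (Pf.C 1 0x4060e0c009))
 (Pq.cons (Pq.L [0,4] 63 (Pf.C 1 0x4060e10009))
 (Pq.cons (Pq.L [0,3] 63 (Pf.C 1 0x4060e0c009))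
 (Pq.cons (Pq.L [0,3] 63 (Pf.C 1 0x4060e0c009))
 (Pq.cons (Pq.L [3,4] 63 (Pf.C 1 0x4060e10189))
 Pq.nil)))))))) (Pq.cons (Pq.L [1] 11 (Pf.C 0 0x1004307))
 (Pq.cons (Pq.D 3 (Pq.cons (Pq.L [2,3] 63 (Pf.C 1 0x4060e0c109))
 (Pq.cons (Pq.L [2,3] 63 (Pf.C 1 0x4060e0c109))
 (Pq.cons (Pq.L [2,3] 63 (Pf.C 1 0x4060e0c109))
 (Pq.cons (Pq.L [2,4] 63 (Pf.C 1 0x4060e10109))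
 (Pq.cons (Pq.L [3,4] 63 (Pf.C 1 0x4060e10189))
 (Pq.cons (Pq.L [2,3] 63 (Pf.C 1 0x4060e0c109))
 (Pq.cons (Pq.L [2,3] 63 (Pf.C 1 0x4060e0c109))
 Pq.nil)))))))) Pq.nil)))))))) (Pq.cons (Pq.D 2 (Pq.cons (Pq.D 3 (Pq.cons (Pq.L [2,3] 63 (Pf.C 1 0x4060e0c109))
 (Pq.cons (Pq.L [2,3] 63 (Pf.C 1 0x4060e0c109))
 (Pq.cons (Pq.L [2,3] 63 (Pf.C 1 0x4060e0c109))
 (Pq.cons (Pq.L [2,4] 63 (Pf.C 1 0x4060e10109))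
 (Pq.cons (Pq.L [3,4] 63 (Pf.C 1 0x4060e10189))
 (Pq.cons (Pq.L [2,3] 63 (Pf.C 1 0x4060e0c109))
 (Pq.cons (Pq.L [2,3] 63 (Pf.C 1 0x4060e0c109))
 Pq.nil)))))))) (Pq.cons (Pq.D 3 (Pq.cons (Pq.L [2,3] 63 (Pf.C 1 0x4060e0c109))
 (Pq.cons (Pq.L [2,3] 63 (Pf.C 1 0x4060e0c109))
 (Pq.cons (Pq.L [2,3] 63 (Pf.C 1 0x4060e0c109))
 (Pq.cons (Pq.L [2,4] 63 (Pf.C 1 0x4060e10109))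
 (Pq.cons (Pq.L [3,4] 63 (Pf.C 1 0x4060e10189))
 (Pq.cons (Pq.L [2,3] 63 (Pf.C 1 0x4060e0c109))
 (Pq.cons (Pq.L [2,3] 63 (Pf.C 1 0x4060e0c109))
 Pq.nil)))))))) (Pq.cons (Pq.D 3 (Pq.cons (Pq.L [2,3] 63 (Pf.C 1 0x4060e0c109))
 (Pq.cons (Pq.L [2,3] 63 (Pf.C 1 0x4060e0c109))
 (Pq.cons (Pq.L [2,3] 63 (Pf.C 1 0x4060e0c109))
 (Pq.cons (Pq.L [2,5] 63 (Pf.C 1 0x4060e14109))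
 (Pq.cons (Pq.L [3,5] 63 (Pf.C 1 0x4060e14189))
 (Pq.cons (Pq.L [2,3] 63 (Pf.C 1 0x4060e0c109))
 (Pq.cons (Pq.L [2,3] 63 (Pf.C 1 0x4060e0c109))
 Pq.nil)))))))) (Pq.cons (Pq.D 3 (Pq.cons (Pq.L [2,4] 63 (Pf.C 1 0x4060e10109))
 (Pq.cons (Pq.L [2,4] 63 (Pf.C 1 0x4060e10109))
 (Pq.cons (Pq.L [2,5] 63 (Pf.C 1 0x4060e14109))
 (Pq.cons (Pq.L [2,4] 63 (Pf.C 1 0x4060e10109))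
 (Pq.cons (Pq.L [4,5] 63 (Pf.C 1 0x4060e14209))
 (Pq.cons (Pq.L [2,4] 63 (Pf.C 1 0x4060e10109))
 (Pq.cons (Pq.L [2,4] 63 (Pf.C 1 0x4060e10109))
 Pq.nil)))))))) (Pq.cons (Pq.D 3 (Pq.cons (Pq.L [3,4] 63 (Pf.C 1 0x4060e10189))
 (Pq.cons (Pq.L [3,4] 63 (Pf.C 1 0x4060e10189))
 (Pq.cons (Pq.L [3,5] 63 (Pf.C 1 0x4060e14189))
 (Pq.cons (Pq.L [4,5] 63 (Pf.C 1 0x4060e14209))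
 (Pq.cons (Pq.L [3,4] 63 (Pf.C 1 0x4060e10189))
 (Pq.cons (Pq.L [3,4] 63 (Pf.C 1 0x4060e10189))
 (Pq.cons (Pq.L [3,4] 63 (Pf.C 1 0x4060e10189))
 Pq.nil)))))))) (Pq.cons (Pq.D 3 (Pq.cons (Pq.L [2,3] 63 (Pf.C 1 0x4060e0c109))
 (Pq.cons (Pq.L [2,3] 63 (Pf.C 1 0x4060e0c109))
 (Pq.cons (Pq.L [2,3] 63 (Pf.C 1 0x4060e0c109))
 (Pq.cons (Pq.L [2,4] 63 (Pf.C 1 0x4060e10109))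
 (Pq.cons (Pq.L [3,4] 63 (Pf.C 1 0x4060e10189))
 (Pq.cons (Pq.L [2,3] 63 (Pf.C 1 0x4060e0c109))
 (Pq.cons (Pq.L [2,3] 63 (Pf.C 1 0x4060e0c109))
 Pq.nil)))))))) (Pq.cons (Pq.D 3 (Pq.cons (Pq.L [2,3] 63 (Pf.C 1 0x4060e0c109))
 (Pq.cons (Pq.L [2,3] 63 (Pf.C 1 0x4060e0c109))
 (Pq.cons (Pq.L [2,3] 63 (Pf.C 1 0x4060e0c109))
 (Pq.cons (Pq.L [2,4] 63 (Pf.C 1 0x4060e10109))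
 (Pq.cons (Pq.L [3,4] 63 (Pf.C 1 0x4060e10189))
 (Pq.cons (Pq.L [2,3] 63 (Pf.C 1 0x4060e0c109))
 (Pq.cons (Pq.L [2,3] 63 (Pf.C 1 0x4060e0c109))
 Pq.nil)))))))) Pq.nil)))))))) Pq.nil)))))))) Pq.nil)
theorem e_o31 : AllRef e_T e_G4 (List.take 1 (List.drop 2 (List.drop 3 (List.flatMap (splitP 0) (List.drop 4 (applyObl e1_T 5 [5,6,7,8,9,10,11,12] [1,1,1,1,1,1,1,2] [])))))) :=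
  chkPq_sound e_o31c _ (by decide +kernel)
noncomputable def e_o32c : Pq := (Pq.cons (Pq.D 1 (Pq.cons (Pq.D 2 (Pq.cons (Pq.D 3 (Pq.cons (Pq.L [1,2] 63 (Pf.C 1 0x4060e08089))
 (Pq.cons (Pq.L [1,2] 63 (Pf.C 1 0x4060e08089))
 (Pq.cons (Pq.L [1,2] 63 (Pf.C 1 0x4060e08089))
 (Pq.cons (Pq.L [1,2] 63 (Pf.C 1 0x4060e08089))
 (Pq.cons (Pq.L [1,3] 63 (Pf.C 1 0x4060e0c089))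
 (Pq.cons (Pq.L [2,3] 63 (Pf.C 1 0x4060e0c109))
 (Pq.cons (Pq.L [1,2] 63 (Pf.C 1 0x4060e08089))
 Pq.nil)))))))) (Pq.cons (Pq.D 3 (Pq.cons (Pq.L [1,2] 63 (Pf.C 1 0x4060e08089))
 (Pq.cons (Pq.L [1,2] 63 (Pf.C 1 0x4060e08089))
 (Pq.cons (Pq.L [1,2] 63 (Pf.C 1 0x4060e08089))
 (Pq.cons (Pq.L [1,2] 63 (Pf.C 1 0x4060e08089))
 (Pq.cons (Pq.L [1,3] 63 (Pf.C 1 0x4060e0c089))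
 (Pq.cons (Pq.L [2,3] 63 (Pf.C 1 0x4060e0c109))
 (Pq.cons (Pq.L [1,2] 63 (Pf.C 1 0x4060e08089))
 Pq.nil)))))))) (Pq.cons (Pq.D 3 (Pq.cons (Pq.L [1,2] 63 (Pf.C 1 0x4060e08089))
 (Pq.cons (Pq.L [1,2] 63 (Pf.C 1 0x4060e08089))
 (Pq.cons (Pq.L [1,2] 63 (Pf.C 1 0x4060e08089))
 (Pq.cons (Pq.L [1,2] 63 (Pf.C 1 0x4060e08089))
 (Pq.cons (Pq.L [1,3] 63 (Pf.C 1 0x4060e0c089))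
 (Pq.cons (Pq.L [2,3] 63 (Pf.C 1 0x4060e0c109))
 (Pq.cons (Pq.L [1,2] 63 (Pf.C 1 0x4060e08089))
 Pq.nil)))))))) (Pq.cons (Pq.D 3 (Pq.cons (Pq.L [1,2] 63 (Pf.C 1 0x4060e08089))
 (Pq.cons (Pq.L [1,2] 63 (Pf.C 1 0x4060e08089))
 (Pq.cons (Pq.L [1,2] 63 (Pf.C 1 0x4060e08089))
 (Pq.cons (Pq.L [1,2] 63 (Pf.C 1 0x4060e08089))
 (Pq.cons (Pq.L [1,4] 63 (Pf.C 1 0x4060e10089))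
 (Pq.cons (Pq.L [2,4] 63 (Pf.C 1 0x4060e10109))
 (Pq.cons (Pq.L [1,2] 63 (Pf.C 1 0x4060e08089))
 Pq.nil)))))))) (Pq.cons (Pq.D 3 (Pq.cons (Pq.L [1,3] 63 (Pf.C 1 0x4060e0c089))
 (Pq.cons (Pq.L [1,3] 63 (Pf.C 1 0x4060e0c089))
 (Pq.cons (Pq.L [1,3] 63 (Pf.C 1 0x4060e0c089))
 (Pq.cons (Pq.L [1,4] 63 (Pf.C 1 0x4060e10089))
 (Pq.cons (Pq.L [1,3] 63 (Pf.C 1 0x4060e0c089))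
 (Pq.cons (Pq.L [3,4] 63 (Pf.C 1 0x4060e10189))
 (Pq.cons (Pq.L [1,3] 63 (Pf.C 1 0x4060e0c089))
 Pq.nil)))))))) (Pq.cons (Pq.D 3 (Pq.cons (Pq.L [2,3] 63 (Pf.C 1 0x4060e0c109))
 (Pq.cons (Pq.L [2,3] 63 (Pf.C 1 0x4060e0c109))
 (Pq.cons (Pq.L [2,3] 63 (Pf.C 1 0x4060e0c109))
 (Pq.cons (Pq.L [2,4] 63 (Pf.C 1 0x4060e10109))
 (Pq.cons (Pq.L [3,4] 63 (Pf.C 1 0x4060e10189))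
 (Pq.cons (Pq.L [2,3] 63 (Pf.C 1 0x4060e0c109))
 (Pq.cons (Pq.L [2,3] 63 (Pf.C 1 0x4060e0c109))
 Pq.nil)))))))) (Pq.cons (Pq.D 3 (Pq.cons (Pq.L [1,2] 63 (Pf.C 1 0x4060e08089))
 (Pq.cons (Pq.L [1,2] 63 (Pf.C 1 0x4060e08089))
 (Pq.cons (Pq.L [1,2] 63 (Pf.C 1 0x4060e08089))
 (Pq.cons (Pq.L [1,2] 63 (Pf.C 1 0x4060e08089))
 (Pq.cons (Pq.L [1,3] 63 (Pf.C 1 0x4060e0c089))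
 (Pq.cons (Pq.L [2,3] 63 (Pf.C 1 0x4060e0c109))
 (Pq.cons (Pq.L [1,2] 63 (Pf.C 1 0x4060e08089))
 Pq.nil)))))))) Pq.nil)))))))) (Pq.cons (Pq.D 2 (Pq.cons (Pq.D 3 (Pq.cons (Pq.L [1,2] 63 (Pf.C 1 0x4060e08089))
 (Pq.cons (Pq.L [1,2] 63 (Pf.C 1 0x4060e08089))
 (Pq.cons (Pq.L [1,2] 63 (Pf.C 1 0x4060e08089))
 (Pq.cons (Pq.L [1,2] 63 (Pf.C 1 0x4060e08089))
 (Pq.cons (Pq.L [1,3] 63 (Pf.C 1 0x4060e0c089))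
 (Pq.cons (Pq.L [2,3] 63 (Pf.C 1 0x4060e0c109))
 (Pq.cons (Pq.L [1,2] 63 (Pf.C 1 0x4060e08089))
 Pq.nil)))))))) (Pq.cons (Pq.D 3 (Pq.cons (Pq.L [1,2] 63 (Pf.C 1 0x4060e08089))
 (Pq.cons (Pq.L [1,2] 63 (Pf.C 1 0x4060e08089))
 (Pq.cons (Pq.L [1,2] 63 (Pf.C 1 0x4060e08089))
 (Pq.cons (Pq.L [1,2] 63 (Pf.C 1 0x4060e08089))
 (Pq.cons (Pq.L [1,3] 63 (Pf.C 1 0x4060e0c089))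
 (Pq.cons (Pq.L [2,3] 63 (Pf.C 1 0x4060e0c109))
 (Pq.cons (Pq.L [1,2] 63 (Pf.C 1 0x4060e08089))
 Pq.nil)))))))) (Pq.cons (Pq.D 3 (Pq.cons (Pq.L [1,2] 63 (Pf.C 1 0x4060e08089))
 (Pq.cons (Pq.L [1,2] 63 (Pf.C 1 0x4060e08089))
 (Pq.cons (Pq.L [1,2] 63 (Pf.C 1 0x4060e08089))
 (Pq.cons (Pq.L [1,2] 63 (Pf.C 1 0x4060e08089))
 (Pq.cons (Pq.L [1,3] 63 (Pf.C 1 0x4060e0c089))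
 (Pq.cons (Pq.L [2,3] 63 (Pf.C 1 0x4060e0c109))
 (Pq.cons (Pq.L [1,2] 63 (Pf.C 1 0x4060e08089))
 Pq.nil)))))))) (Pq.cons (Pq.D 3 (Pq.cons (Pq.L [1,2] 63 (Pf.C 1 0x4060e08089))
 (Pq.cons (Pq.L [1,2] 63 (Pf.C 1 0x4060e08089))
 (Pq.cons (Pq.L [1,2] 63 (Pf.C 1 0x4060e08089))
 (Pq.cons (Pq.L [1,2] 63 (Pf.C 1 0x4060e08089))
 (Pq.cons (Pq.L [1,4] 63 (Pf.C 1 0x4060e10089))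
 (Pq.cons (Pq.L [2,4] 63 (Pf.C 1 0x4060e10109))
 (Pq.cons (Pq.L [1,2] 63 (Pf.C 1 0x4060e08089))
 Pq.nil)))))))) (Pq.cons (Pq.D 3 (Pq.cons (Pq.L [1,3] 63 (Pf.C 1 0x4060e0c089))
 (Pq.cons (Pq.L [1,3] 63 (Pf.C 1 0x4060e0c089))
 (Pq.cons (Pq.L [1,3] 63 (Pf.C 1 0x4060e0c089))
 (Pq.cons (Pq.L [1,4] 63 (Pf.C 1 0x4060e10089))
 (Pq.cons (Pq.L [1,3] 63 (Pf.C 1 0x4060e0c089))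
 (Pq.cons (Pq.L [3,4] 63 (Pf.C 1 0x4060e10189))
 (Pq.cons (Pq.L [1,3] 63 (Pf.C 1 0x4060e0c089))
 Pq.nil)))))))) (Pq.cons (Pq.D 3 (Pq.cons (Pq.L [2,3] 63 (Pf.C 1 0x4060e0c109))
 (Pq.cons (Pq.L [2,3] 63 (Pf.C 1 0x4060e0c109))
 (Pq.cons (Pq.L [2,3] 63 (Pf.C 1 0x4060e0c109))
 (Pq.cons (Pq.L [2,4] 63 (Pf.C 1 0x4060e10109))
 (Pq.cons (Pq.L [3,4] 63 (Pf.C 1 0x4060e10189))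
 (Pq.cons (Pq.L [2,3] 63 (Pf.C 1 0x4060e0c109))
 (Pq.cons (Pq.L [2,3] 63 (Pf.C 1 0x4060e0c109))
 Pq.nil)))))))) (Pq.cons (Pq.D 3 (Pq.cons (Pq.L [1,2] 63 (Pf.C 1 0x4060e08089))
 (Pq.cons (Pq.L [1,2] 63 (Pf.C 1 0x4060e08089))
 (Pq.cons (Pq.L [1,2] 63 (Pf.C 1 0x4060e08089))
 (Pq.cons (Pq.L [1,2] 63 (Pf.C 1 0x4060e08089))
 (Pq.cons (Pq.L [1,3] 63 (Pf.C 1 0x4060e0c089))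
 (Pq.cons (Pq.L [2,3] 63 (Pf.C 1 0x4060e0c109))
 (Pq.cons (Pq.L [1,2] 63 (Pf.C 1 0x4060e08089))
 Pq.nil)))))))) Pq.nil)))))))) (Pq.cons (Pq.D 2 (Pq.cons (Pq.D 3 (Pq.cons (Pq.L [1,2] 63 (Pf.C 1 0x4060e08089))
 (Pq.cons (Pq.L [1,2] 63 (Pf.C 1 0x4060e08089))
 (Pq.cons (Pq.L [1,2] 63 (Pf.C 1 0x4060e08089))
 (Pq.cons (Pq.L [1,2] 63 (Pf.C 1 0x4060e08089))
 (Pq.cons (Pq.L [1,3] 63 (Pf.C 1 0x4060e0c089))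
 (Pq.cons (Pq.L [2,3] 63 (Pf.C 1 0x4060e0c109))
 (Pq.cons (Pq.L [1,2] 63 (Pf.C 1 0x4060e08089))
 Pq.nil)))))))) (Pq.cons (Pq.D 3 (Pq.cons (Pq.L [1,2] 63 (Pf.C 1 0x4060e08089))
 (Pq.cons (Pq.L [1,2] 63 (Pf.C 1 0x4060e08089))
 (Pq.cons (Pq.L [1,2] 63 (Pf.C 1 0x4060e08089))
 (Pq.cons (Pq.L [1,2] 63 (Pf.C 1 0x4060e08089))
 (Pq.cons (Pq.L [1,3] 63 (Pf.C 1 0x4060e0c089))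
 (Pq.cons (Pq.L [2,3] 63 (Pf.C 1 0x4060e0c109))
 (Pq.cons (Pq.L [1,2] 63 (Pf.C 1 0x4060e08089))
 Pq.nil)))))))) (Pq.cons (Pq.D 3 (Pq.cons (Pq.L [1,2] 63 (Pf.C 1 0x4060e08089))
 (Pq.cons (Pq.L [1,2] 63 (Pf.C 1 0x4060e08089))
 (Pq.cons (Pq.L [1,2] 63 (Pf.C 1 0x4060e08089))
 (Pq.cons (Pq.L [1,2] 63 (Pf.C 1 0x4060e08089))
 (Pq.cons (Pq.L [1,3] 63 (Pf.C 1 0x4060e0c089))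
 (Pq.cons (Pq.L [2,3] 63 (Pf.C 1 0x4060e0c109))
 (Pq.cons (Pq.L [1,2] 63 (Pf.C 1 0x4060e08089))
 Pq.nil)))))))) (Pq.cons (Pq.D 3 (Pq.cons (Pq.L [1,2] 63 (Pf.C 1 0x4060e08089))
 (Pq.cons (Pq.L [1,2] 63 (Pf.C 1 0x4060e08089))
 (Pq.cons (Pq.L [1,2] 63 (Pf.C 1 0x4060e08089))
 (Pq.cons (Pq.L [1,2] 63 (Pf.C 1 0x4060e08089))
 (Pq.cons (Pq.L [1,5] 63 (Pf.C 1 0x4060e14089))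
 (Pq.cons (Pq.L [2,5] 63 (Pf.C 1 0x4060e14109))
 (Pq.cons (Pq.L [1,2] 63 (Pf.C 1 0x4060e08089))
 Pq.nil)))))))) (Pq.cons (Pq.D 3 (Pq.cons (Pq.L [1,3] 63 (Pf.C 1 0x4060e0c089))
 (Pq.cons (Pq.L [1,3] 63 (Pf.C 1 0x4060e0c089))
 (Pq.cons (Pq.L [1,3] 63 (Pf.C 1 0x4060e0c089))
 (Pq.cons (Pq.L [1,5] 63 (Pf.C 1 0x4060e14089))
 (Pq.cons (Pq.L [1,3] 63 (Pf.C 1 0x4060e0c089))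
 (Pq.cons (Pq.L [3,5] 63 (Pf.C 1 0x4060e14189))
 (Pq.cons (Pq.L [1,3] 63 (Pf.C 1 0x4060e0c089))
 Pq.nil)))))))) (Pq.cons (Pq.D 3 (Pq.cons (Pq.L [2,3] 63 (Pf.C 1 0x4060e0c109))
 (Pq.cons (Pq.L [2,3] 63 (Pf.C 1 0x4060e0c109))
 (Pq.cons (Pq.L [2,3] 63 (Pf.C 1 0x4060e0c109))
 (Pq.cons (Pq.L [2,5] 63 (Pf.C 1 0x4060e14109))
 (Pq.cons (Pq.L [3,5] 63 (Pf.C 1 0x4060e14189))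
 (Pq.cons (Pq.L [2,3] 63 (Pf.C 1 0x4060e0c109))
 (Pq.cons (Pq.L [2,3] 63 (Pf.C 1 0x4060e0c109))
 Pq.nil)))))))) (Pq.cons (Pq.D 3 (Pq.cons (Pq.L [1,2] 63 (Pf.C 1 0x4060e08089))
 (Pq.cons (Pq.L [1,2] 63 (Pf.C 1 0x4060e08089))
 (Pq.cons (Pq.L [1,2] 63 (Pf.C 1 0x4060e08089))
 (Pq.cons (Pq.L [1,2] 63 (Pf.C 1 0x4060e08089))
 (Pq.cons (Pq.L [1,3] 63 (Pf.C 1 0x4060e0c089))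
 (Pq.cons (Pq.L [2,3] 63 (Pf.C 1 0x4060e0c109))
 (Pq.cons (Pq.L [1,2] 63 (Pf.C 1 0x4060e08089))
 Pq.nil)))))))) Pq.nil)))))))) (Pq.cons (Pq.D 2 (Pq.cons (Pq.D 3 (Pq.cons (Pq.L [1,2] 63 (Pf.C 1 0x4060e08089))
 (Pq.cons (Pq.L [1,2] 63 (Pf.C 1 0x4060e08089))
 (Pq.cons (Pq.L [1,2] 63 (Pf.C 1 0x4060e08089))
 (Pq.cons (Pq.L [1,2] 63 (Pf.C 1 0x4060e08089))
 (Pq.cons (Pq.L [1,4] 63 (Pf.C 1 0x4060e10089))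
 (Pq.cons (Pq.L [2,4] 63 (Pf.C 1 0x4060e10109))
 (Pq.cons (Pq.L [1,2] 63 (Pf.C 1 0x4060e08089))
 Pq.nil)))))))) (Pq.cons (Pq.D 3 (Pq.cons (Pq.L [1,2] 63 (Pf.C 1 0x4060e08089))
 (Pq.cons (Pq.L [1,2] 63 (Pf.C 1 0x4060e08089))
 (Pq.cons (Pq.L [1,2] 63 (Pf.C 1 0x4060e08089))
 (Pq.cons (Pq.L [1,2] 63 (Pf.C 1 0x4060e08089))
 (Pq.cons (Pq.L [1,4] 63 (Pf.C 1 0x4060e10089))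
 (Pq.cons (Pq.L [2,4] 63 (Pf.C 1 0x4060e10109))
 (Pq.cons (Pq.L [1,2] 63 (Pf.C 1 0x4060e08089))
 Pq.nil)))))))) (Pq.cons (Pq.D 3 (Pq.cons (Pq.L [1,2] 63 (Pf.C 1 0x4060e08089))
 (Pq.cons (Pq.L [1,2] 63 (Pf.C 1 0x4060e08089))
 (Pq.cons (Pq.L [1,2] 63 (Pf.C 1 0x4060e08089))
 (Pq.cons (Pq.L [1,2] 63 (Pf.C 1 0x4060e08089))
 (Pq.cons (Pq.L [1,5] 63 (Pf.C 1 0x4060e14089))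
 (Pq.cons (Pq.L [2,5] 63 (Pf.C 1 0x4060e14109))
 (Pq.cons (Pq.L [1,2] 63 (Pf.C 1 0x4060e08089))
 Pq.nil)))))))) (Pq.cons (Pq.D 3 (Pq.cons (Pq.L [1,2] 63 (Pf.C 1 0x4060e08089))
 (Pq.cons (Pq.L [1,2] 63 (Pf.C 1 0x4060e08089))
 (Pq.cons (Pq.L [1,2] 63 (Pf.C 1 0x4060e08089))
 (Pq.cons (Pq.L [1,2] 63 (Pf.C 1 0x4060e08089))
 (Pq.cons (Pq.L [1,4] 63 (Pf.C 1 0x4060e10089))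
 (Pq.cons (Pq.L [2,4] 63 (Pf.C 1 0x4060e10109))
 (Pq.cons (Pq.L [1,2] 63 (Pf.C 1 0x4060e08089))
 Pq.nil)))))))) (Pq.cons (Pq.D 3 (Pq.cons (Pq.L [1,4] 63 (Pf.C 1 0x4060e10089))
 (Pq.cons (Pq.L [1,4] 63 (Pf.C 1 0x4060e10089))
 (Pq.cons (Pq.L [1,5] 63 (Pf.C 1 0x4060e14089))
 (Pq.cons (Pq.L [1,4] 63 (Pf.C 1 0x4060e10089))
 (Pq.cons (Pq.L [1,4] 63 (Pf.C 1 0x4060e10089))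
 (Pq.cons (Pq.L [4,5] 63 (Pf.C 1 0x4060e14209))
 (Pq.cons (Pq.L [1,4] 63 (Pf.C 1 0x4060e10089))
 Pq.nil)))))))) (Pq.cons (Pq.D 3 (Pq.cons (Pq.L [2,4] 63 (Pf.C 1 0x4060e10109))
 (Pq.cons (Pq.L [2,4] 63 (Pf.C 1 0x4060e10109))
 (Pq.cons (Pq.L [2,5] 63 (Pf.C 1 0x4060e14109))
 (Pq.cons (Pq.L [2,4] 63 (Pf.C 1 0x4060e10109))
 (Pq.cons (Pq.L [4,5] 63 (Pf.C 1 0x4060e14209))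
 (Pq.cons (Pq.L [2,4] 63 (Pf.C 1 0x4060e10109))
 (Pq.cons (Pq.L [2,4] 63 (Pf.C 1 0x4060e10109))
 Pq.nil)))))))) (Pq.cons (Pq.D 3 (Pq.cons (Pq.L [1,2] 63 (Pf.C 1 0x4060e08089))
 (Pq.cons (Pq.L [1,2] 63 (Pf.C 1 0x4060e08089))
 (Pq.cons (Pq.L [1,2] 63 (Pf.C 1 0x4060e08089))
 (Pq.cons (Pq.L [1,2] 63 (Pf.C 1 0x4060e08089))
 (Pq.cons (Pq.L [1,4] 63 (Pf.C 1 0x4060e10089))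
 (Pq.cons (Pq.L [2,4] 63 (Pf.C 1 0x4060e10109))
 (Pq.cons (Pq.L [1,2] 63 (Pf.C 1 0x4060e08089))
 Pq.nil)))))))) Pq.nil)))))))) (Pq.cons (Pq.D 2 (Pq.cons (Pq.D 3 (Pq.cons (Pq.L [1,3] 63 (Pf.C 1 0x4060e0c089))
 (Pq.cons (Pq.L [1,3] 63 (Pf.C 1 0x4060e0c089))
 (Pq.cons (Pq.L [1,3] 63 (Pf.C 1 0x4060e0c089))
 (Pq.cons (Pq.L [1,4] 63 (Pf.C 1 0x4060e10089))
 (Pq.cons (Pq.L [1,3] 63 (Pf.C 1 0x4060e0c089))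
 (Pq.cons (Pq.L [3,4] 63 (Pf.C 1 0x4060e10189))
 (Pq.cons (Pq.L [1,3] 63 (Pf.C 1 0x4060e0c089))
 Pq.nil)))))))) (Pq.cons (Pq.D 3 (Pq.cons (Pq.L [1,3] 63 (Pf.C 1 0x4060e0c089))
 (Pq.cons (Pq.L [1,3] 63 (Pf.C 1 0x4060e0c089))
 (Pq.cons (Pq.L [1,3] 63 (Pf.C 1 0x4060e0c089))
 (Pq.cons (Pq.L [1,4] 63 (Pf.C 1 0x4060e10089))
 (Pq.cons (Pq.L [1,3] 63 (Pf.C 1 0x4060e0c089))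
 (Pq.cons (Pq.L [3,4] 63 (Pf.C 1 0x4060e10189))
 (Pq.cons (Pq.L [1,3] 63 (Pf.C 1 0x4060e0c089))
 Pq.nil)))))))) (Pq.cons (Pq.D 3 (Pq.cons (Pq.L [1,3] 63 (Pf.C 1 0x4060e0c089))
 (Pq.cons (Pq.L [1,3] 63 (Pf.C 1 0x4060e0c089))
 (Pq.cons (Pq.L [1,3] 63 (Pf.C 1 0x4060e0c089))
 (Pq.cons (Pq.L [1,5] 63 (Pf.C 1 0x4060e14089))
 (Pq.cons (Pq.L [1,3] 63 (Pf.C 1 0x4060e0c089))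
 (Pq.cons (Pq.L [3,5] 63 (Pf.C 1 0x4060e14189))
 (Pq.cons (Pq.L [1,3] 63 (Pf.C 1 0x4060e0c089))
 Pq.nil)))))))) (Pq.cons (Pq.D 3 (Pq.cons (Pq.L [1,4] 63 (Pf.C 1 0x4060e10089))
 (Pq.cons (Pq.L [1,4] 63 (Pf.C 1 0x4060e10089))
 (Pq.cons (Pq.L [1,5] 63 (Pf.C 1 0x4060e14089))
 (Pq.cons (Pq.L [1,4] 63 (Pf.C 1 0x4060e10089))
 (Pq.cons (Pq.L [1,4] 63 (Pf.C 1 0x4060e10089))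
 (Pq.cons (Pq.L [4,5] 63 (Pf.C 1 0x4060e14209))
 (Pq.cons (Pq.L [1,4] 63 (Pf.C 1 0x4060e10089))
 Pq.nil)))))))) (Pq.cons (Pq.D 3 (Pq.cons (Pq.L [1,3] 63 (Pf.C 1 0x4060e0c089))
 (Pq.cons (Pq.L [1,3] 63 (Pf.C 1 0x4060e0c089))
 (Pq.cons (Pq.L [1,3] 63 (Pf.C 1 0x4060e0c089))
 (Pq.cons (Pq.L [1,4] 63 (Pf.C 1 0x4060e10089))
 (Pq.cons (Pq.L [1,3] 63 (Pf.C 1 0x4060e0c089))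
 (Pq.cons (Pq.L [3,4] 63 (Pf.C 1 0x4060e10189))
 (Pq.cons (Pq.L [1,3] 63 (Pf.C 1 0x4060e0c089))
 Pq.nil)))))))) (Pq.cons (Pq.D 3 (Pq.cons (Pq.L [3,4] 63 (Pf.C 1 0x4060e10189))
 (Pq.cons (Pq.L [3,4] 63 (Pf.C 1 0x4060e10189))
 (Pq.cons (Pq.L [3,5] 63 (Pf.C 1 0x4060e14189))
 (Pq.cons (Pq.L [4,5] 63 (Pf.C 1 0x4060e14209))
 (Pq.cons (Pq.L [3,4] 63 (Pf.C 1 0x4060e10189))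
 (Pq.cons (Pq.L [3,4] 63 (Pf.C 1 0x4060e10189))
 (Pq.cons (Pq.L [3,4] 63 (Pf.C 1 0x4060e10189))
 Pq.nil)))))))) (Pq.cons (Pq.D 3 (Pq.cons (Pq.L [1,3] 63 (Pf.C 1 0x4060e0c089))
 (Pq.cons (Pq.L [1,3] 63 (Pf.C 1 0x4060e0c089))
 (Pq.cons (Pq.L [1,3] 63 (Pf.C 1 0x4060e0c089))
 (Pq.cons (Pq.L [1,4] 63 (Pf.C 1 0x4060e10089))
 (Pq.cons (Pq.L [1,3] 63 (Pf.C 1 0x4060e0c089))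
 (Pq.cons (Pq.L [3,4] 63 (Pf.C 1 0x4060e10189))
 (Pq.cons (Pq.L [1,3] 63 (Pf.C 1 0x4060e0c089))
 Pq.nil)))))))) Pq.nil)))))))) (Pq.cons (Pq.D 2 (Pq.cons (Pq.D 3 (Pq.cons (Pq.L [2,3] 63 (Pf.C 1 0x4060e0c109))
 (Pq.cons (Pq.L [2,3] 63 (Pf.C 1 0x4060e0c109))
 (Pq.cons (Pq.L [2,3] 63 (Pf.C 1 0x4060e0c109))
 (Pq.cons (Pq.L [2,4] 63 (Pf.C 1 0x4060e10109))
 (Pq.cons (Pq.L [3,4] 63 (Pf.C 1 0x4060e10189))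
 (Pq.cons (Pq.L [2,3] 63 (Pf.C 1 0x4060e0c109))
 (Pq.cons (Pq.L [2,3] 63 (Pf.C 1 0x4060e0c109))
 Pq.nil)))))))) (Pq.cons (Pq.D 3 (Pq.cons (Pq.L [2,3] 63 (Pf.C 1 0x4060e0c109))
 (Pq.cons (Pq.L [2,3] 63 (Pf.C 1 0x4060e0c109))
 (Pq.cons (Pq.L [2,3] 63 (Pf.C 1 0x4060e0c109))
 (Pq.cons (Pq.L [2,4] 63 (Pf.C 1 0x4060e10109))
 (Pq.cons (Pq.L [3,4] 63 (Pf.C 1 0x4060e10189))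
 (Pq.cons (Pq.L [2,3] 63 (Pf.C 1 0x4060e0c109))
 (Pq.cons (Pq.L [2,3] 63 (Pf.C 1 0x4060e0c109))
 Pq.nil)))))))) (Pq.cons (Pq.D 3 (Pq.cons (Pq.L [2,3] 63 (Pf.C 1 0x4060e0c109))
 (Pq.cons (Pq.L [2,3] 63 (Pf.C 1 0x4060e0c109))
 (Pq.cons (Pq.L [2,3] 63 (Pf.C 1 0x4060e0c109))
 (Pq.cons (Pq.L [2,5] 63 (Pf.C 1 0x4060e14109))
 (Pq.cons (Pq.L [3,5] 63 (Pf.C 1 0x4060e14189))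
 (Pq.cons (Pq.L [2,3] 63 (Pf.C 1 0x4060e0c109))
 (Pq.cons (Pq.L [2,3] 63 (Pf.C 1 0x4060e0c109))
 Pq.nil)))))))) (Pq.cons (Pq.D 3 (Pq.cons (Pq.L [2,4] 63 (Pf.C 1 0x4060e10109))
 (Pq.cons (Pq.L [2,4] 63 (Pf.C 1 0x4060e10109))
 (Pq.cons (Pq.L [2,5] 63 (Pf.C 1 0x4060e14109))
 (Pq.cons (Pq.L [2,4] 63 (Pf.C 1 0x4060e10109))
 (Pq.cons (Pq.L [4,5] 63 (Pf.C 1 0x4060e14209))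
 (Pq.cons (Pq.L [2,4] 63 (Pf.C 1 0x4060e10109))
 (Pq.cons (Pq.L [2,4] 63 (Pf.C 1 0x4060e10109))
 Pq.nil)))))))) (Pq.cons (Pq.D 3 (Pq.cons (Pq.L [3,4] 63 (Pf.C 1 0x4060e10189))
 (Pq.cons (Pq.L [3,4] 63 (Pf.C 1 0x4060e10189))
 (Pq.cons (Pq.L [3,5] 63 (Pf.C 1 0x4060e14189))
 (Pq.cons (Pq.L [4,5] 63 (Pf.C 1 0x4060e14209))
 (Pq.cons (Pq.L [3,4] 63 (Pf.C 1 0x4060e10189))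
 (Pq.cons (Pq.L [3,4] 63 (Pf.C 1 0x4060e10189))
 (Pq.cons (Pq.L [3,4] 63 (Pf.C 1 0x4060e10189))
 Pq.nil)))))))) (Pq.cons (Pq.D 3 (Pq.cons (Pq.L [2,3] 63 (Pf.C 1 0x4060e0c109))
 (Pq.cons (Pq.L [2,3] 63 (Pf.C 1 0x4060e0c109))
 (Pq.cons (Pq.L [2,3] 63 (Pf.C 1 0x4060e0c109))
 (Pq.cons (Pq.L [2,4] 63 (Pf.C 1 0x4060e10109))
 (Pq.cons (Pq.L [3,4] 63 (Pf.C 1 0x4060e10189))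
 (Pq.cons (Pq.L [2,3] 63 (Pf.C 1 0x4060e0c109))
 (Pq.cons (Pq.L [2,3] 63 (Pf.C 1 0x4060e0c109))
 Pq.nil)))))))) (Pq.cons (Pq.D 3 (Pq.cons (Pq.L [2,3] 63 (Pf.C 1 0x4060e0c109))
 (Pq.cons (Pq.L [2,3] 63 (Pf.C 1 0x4060e0c109))
 (Pq.cons (Pq.L [2,3] 63 (Pf.C 1 0x4060e0c109))
 (Pq.cons (Pq.L [2,4] 63 (Pf.C 1 0x4060e10109))
 (Pq.cons (Pq.L [3,4] 63 (Pf.C 1 0x4060e10189))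
 (Pq.cons (Pq.L [2,3] 63 (Pf.C 1 0x4060e0c109))
 (Pq.cons (Pq.L [2,3] 63 (Pf.C 1 0x4060e0c109))
 Pq.nil)))))))) Pq.nil)))))))) (Pq.cons (Pq.D 2 (Pq.cons (Pq.D 3 (Pq.cons (Pq.L [1,2] 63 (Pf.C 1 0x4060e08089))
 (Pq.cons (Pq.L [1,2] 63 (Pf.C 1 0x4060e08089))
 (Pq.cons (Pq.L [1,2] 63 (Pf.C 1 0x4060e08089))
 (Pq.cons (Pq.L [1,2] 63 (Pf.C 1 0x4060e08089))
 (Pq.cons (Pq.L [1,3] 63 (Pf.C 1 0x4060e0c089))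
 (Pq.cons (Pq.L [2,3] 63 (Pf.C 1 0x4060e0c109))
 (Pq.cons (Pq.L [1,2] 63 (Pf.C 1 0x4060e08089))
 Pq.nil)))))))) (Pq.cons (Pq.D 3 (Pq.cons (Pq.L [1,2] 63 (Pf.C 1 0x4060e08089))
 (Pq.cons (Pq.L [1,2] 63 (Pf.C 1 0x4060e08089))
 (Pq.cons (Pq.L [1,2] 63 (Pf.C 1 0x4060e08089))
 (Pq.cons (Pq.L [1,2] 63 (Pf.C 1 0x4060e08089))
 (Pq.cons (Pq.L [1,3] 63 (Pf.C 1 0x4060e0c089))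
 (Pq.cons (Pq.L [2,3] 63 (Pf.C 1 0x4060e0c109))
 (Pq.cons (Pq.L [1,2] 63 (Pf.C 1 0x4060e08089))
 Pq.nil)))))))) (Pq.cons (Pq.D 3 (Pq.cons (Pq.L [1,2] 63 (Pf.C 1 0x4060e08089))
 (Pq.cons (Pq.L [1,2] 63 (Pf.C 1 0x4060e08089))
 (Pq.cons (Pq.L [1,2] 63 (Pf.C 1 0x4060e08089))
 (Pq.cons (Pq.L [1,2] 63 (Pf.C 1 0x4060e08089))
 (Pq.cons (Pq.L [1,3] 63 (Pf.C 1 0x4060e0c089))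
 (Pq.cons (Pq.L [2,3] 63 (Pf.C 1 0x4060e0c109))
 (Pq.cons (Pq.L [1,2] 63 (Pf.C 1 0x4060e08089))
 Pq.nil)))))))) (Pq.cons (Pq.D 3 (Pq.cons (Pq.L [1,2] 63 (Pf.C 1 0x4060e08089))
 (Pq.cons (Pq.L [1,2] 63 (Pf.C 1 0x4060e08089))
 (Pq.cons (Pq.L [1,2] 63 (Pf.C 1 0x4060e08089))
 (Pq.cons (Pq.L [1,2] 63 (Pf.C 1 0x4060e08089))
 (Pq.cons (Pq.L [1,4] 63 (Pf.C 1 0x4060e10089))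
 (Pq.cons (Pq.L [2,4] 63 (Pf.C 1 0x4060e10109))
 (Pq.cons (Pq.L [1,2] 63 (Pf.C 1 0x4060e08089))
 Pq.nil)))))))) (Pq.cons (Pq.D 3 (Pq.cons (Pq.L [1,3] 63 (Pf.C 1 0x4060e0c089))
 (Pq.cons (Pq.L [1,3] 63 (Pf.C 1 0x4060e0c089))
 (Pq.cons (Pq.L [1,3] 63 (Pf.C 1 0x4060e0c089))
 (Pq.cons (Pq.L [1,4] 63 (Pf.C 1 0x4060e10089))
 (Pq.cons (Pq.L [1,3] 63 (Pf.C 1 0x4060e0c089))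
 (Pq.cons (Pq.L [3,4] 63 (Pf.C 1 0x4060e10189))
 (Pq.cons (Pq.L [1,3] 63 (Pf.C 1 0x4060e0c089))
 Pq.nil)))))))) (Pq.cons (Pq.D 3 (Pq.cons (Pq.L [2,3] 63 (Pf.C 1 0x4060e0c109))
 (Pq.cons (Pq.L [2,3] 63 (Pf.C 1 0x4060e0c109))
 (Pq.cons (Pq.L [2,3] 63 (Pf.C 1 0x4060e0c109))
 (Pq.cons (Pq.L [2,4] 63 (Pf.C 1 0x4060e10109))
 (Pq.cons (Pq.L [3,4] 63 (Pf.C 1 0x4060e10189))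
 (Pq.cons (Pq.L [2,3] 63 (Pf.C 1 0x4060e0c109))
 (Pq.cons (Pq.L [2,3] 63 (Pf.C 1 0x4060e0c109))
 Pq.nil)))))))) (Pq.cons (Pq.L [0] 11 (Pf.C 0 0x1000307))
 Pq.nil)))))))) Pq.nil)))))))) Pq.nil)
theorem e_o32 : AllRef e_T e_G4 (List.drop 1 (List.drop 2 (List.drop 3 (List.flatMap (splitP 0) (List.drop 4 (applyObl e1_T 5 [5,6,7,8,9,10,11,12] [1,1,1,1,1,1,1,2] [])))))) :=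
  chkPq_sound e_o32c _ (by decide +kernel)

end Pool.Agent.Lib.MP_849b2e_co
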