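import Pool.Agent.Lib.MP_849b2e_co.AllR
import Pool.Agent.Lib.MP_849b2e_co.Te
import Pool.Agent.Lib.MP_849b2e_co.Oe_0
import Pool.Agent.Lib.MP_849b2e_co.Oe_1
import Pool.Agent.Lib.MP_849b2e_co.Le1
import Pool.Agent.Lib.MP_849b2e_co.LeK

set_option maxRecDepth 100000
set_option linter.all false
namespace Pool.Agent.Lib.MP_849b2e_co

theorem e_n7  : Bd e_T e_G4 [5,6,7,8,9,10,11,12] :=
  r_apply lem_e1 [1,1,1,1,1,1,1,2] [] (by decide +kernel) (allRef_split 4 e_o25 (allRef_expand 0 (allRef_split 3 (allRef_split 1 e_o26 (allRef_split 1 e_o27 e_o28)) (allRef_split 2 (allRef_split 1 e_o29 e_o30) (allRef_split 1 e_o31 e_o32)))))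
theorem e_n6  : Bd e_T e_G4 [5,6,7,8,9,10,11,12] :=
  r_learn [[5,6,7,8,9,10,11],[5,6,7,8,9,10,11],[5,6,7,8,9,10,11],[5,6,7,8,9,10,11],[5,6,7,8,9,10,11]] [⟨0,1,true⟩,⟨0,2,false⟩,⟨0,3,false⟩,⟨0,4,false⟩,⟨1,2,false⟩,⟨1,3,false⟩,⟨1,4,false⟩,⟨2,3,true⟩,⟨2,4,false⟩,⟨3,4,true⟩] ⟨13,[],[],[]⟩ e_G4 [5,6,7,8,9,10,11,12] (by decide +kernel) (allRef_expand 0 (allRef_split 3 (allRef_split 1 (allRef_expand 1 (allRef_split 3 e_o4 (allRef_split 1 e_o5 e_o6))) (allRef_split 1 (allRef_expand 1 (allRef_split 3 e_o7 (allRef_split 1 e_o8 e_o9))) (allRef_expand 1 (allRef_split 3 e_o10 (allRef_split 1 e_o11 e_o12))))) (allRef_split 1 (allRef_expand 1 (allRef_split 3 e_o13 (allRef_split 1 e_o14 e_o15))) (allRef_split 1 (allRef_expand 1 (allRef_split 3 e_o16 (allRef_split 1 e_o17 e_o18))) (allRef_split 1 (allRef_expand 1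 (allRef_split 3 e_o19 (allRef_split 1 e_o20 e_o21))) (allRef_expand 1 (allRef_split 3 e_o22 (allRef_split 1 e_o23 e_o24)))))))) e_n7
theorem e_n5  : Bd e_T e_G4 [1] :=
  r_act [0,1] [5,6,7,8,9,10,11,12] (by decide +kernel) e_n6
theorem e_n4  : Bd e_T e_G3 [1] :=
  r_psplit 4 [] (PT.br 0 (PT.br 1 (PT.br 2 (PT.br 3 (PT.br 4 (PT.br 5 PT.kid PT.kid) (PT.br 5 PT.kid PT.ref)) (PT.br 4 (PT.br 5 PT.kid PT.ref) PT.ref)) (PT.br 3 (PT.br 4 (PT.br 5 PT.kid PT.ref) PT.ref) PT.ref)) (PT.br 2 (PT.br 3 (PT.br 4 (PT.br 5 PT.kid PT.ref) PT.ref) PT.ref) PT.ref)) (PT.br 1 (PT.br 2 (PT.br 3 (PT.br 4 (PT.br 5 PT.kid PT.ref) PT.ref) PT.ref) PT.ref) (PT.br 2 PT.ref (PT.br 3 PT.ref (PT.br 4 PT.ref (PT.br 5 PT.ref PT.kid)))))) ⟨5,[2],[],[]⟩ e_G4 [1] (by decide +kernel) e_o3 e_n5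
theorem e_n3  : Bd e_T e_G2 [1] :=
  r_psplit 1 [0,1,2,3,4,5] PT.kid ⟨4,[1],[],[]⟩ e_G3 [1] (by decide +kernel) e_o2 e_n4
theorem e_n2  : Bd e_T e_G1 [1] :=
  r_apply lem_eK [0] [] (by decide +kernel) e_o1
theorem e_n1  : Bd e_T e_G0 [1] :=
  r_case [1,1,1,1,1,1] [⟨0,1,true⟩,⟨0,2,true⟩,⟨0,3,true⟩,⟨0,4,true⟩,⟨0,5,true⟩,⟨1,2,true⟩,⟨1,3,true⟩,⟨1,4,true⟩,⟨1,5,true⟩,⟨2,3,true⟩,⟨2,4,true⟩,⟨2,5,true⟩,⟨3,4,true⟩,⟨3,5,true⟩,⟨4,5,true⟩] [] ⟨4,[],[3],[]⟩ e_G1 [1] e_G2 [1] (by decide +kernel) e_n2 e_n3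
theorem e_n0  : Bd e_T (pureCtx 0 2) (pureAct 0) :=
  show Bd _ _ [0] from r_block [0] [1] [1] ⟨1,[],[],[]⟩ e_G0 [1] (by decide +kernel) e_o0 e_n1
theorem lem_e  : Lem e_T 0 2 := ⟨by decide +kernel, e_n0⟩

end Pool.Agent.Lib.MP_849b2e_co
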