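import Pool.Agent.Lib.MP_849b2e_co.Rules

set_option maxRecDepth 100000
set_option linter.all false
namespace Pool.Agent.Lib.MP_849b2e_co

noncomputable def cl_ty : Tr Ty := (Tr.br (Tr.br (Tr.br (Tr.br (Tr.leaf ⟨1,0,0,0,0⟩) (Tr.leaf ⟨295,88,0,0,1⟩))
 (Tr.leaf ⟨19,12,0,0,0⟩))
 (Tr.br (Tr.br (Tr.leaf ⟨7,24,0,0,0⟩) (Tr.leaf ⟨1319,600,1,0,1⟩))
 (Tr.leaf ⟨71,56,0,0,0⟩))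
)
 (Tr.br (Tr.br (Tr.br (Tr.leaf ⟨3,0,0,0,0⟩) (Tr.leaf ⟨807,1112,0,1,1⟩))
 (Tr.leaf ⟨39,88,0,0,0⟩))
 (Tr.br (Tr.br (Tr.leaf ⟨11,20,0,0,0⟩) (Tr.leaf ⟨2119,56,0,1,0⟩))
 (Tr.leaf ⟨167,88,0,0,0⟩))
)
)

noncomputable def cl_ev : Tr Ev := (Tr.br (Tr.br (Tr.leaf ⟨2,[5,6],0⟩) (Tr.leaf ⟨8,[9,10],0⟩))
 (Tr.br (Tr.leaf ⟨5,[8],1⟩) (Tr.leaf ⟨6,[11],0⟩))
)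

noncomputable def cl_ax : Tr Ax := (Tr.br (Tr.br (Tr.leaf ⟨[1,1,1],[⟨0,1,true⟩,⟨0,2,false⟩,⟨1,2,true⟩],[],0⟩) (Tr.leaf ⟨[64,4,4,4],[⟨0,1,true⟩,⟨0,2,true⟩,⟨0,3,true⟩],[],0⟩))
 (Tr.leaf ⟨[32],[],[⟨2,[(0,true)]⟩],2⟩))

noncomputable def cl_sc : Tr Sc := (Tr.leaf ⟨[2],[0]⟩)
noncomputable def cl_T : Tab := ⟨12,cl_ty,cl_ev,cl_ax,cl_sc⟩
def cl_S0 : St := ⟨0,0,0,0,0⟩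
def cl_G0 : Ctx := ⟨2,0,1,0,0,cl_S0,none⟩
def cl_G1 : Ctx := ⟨5,0,1,1,0,cl_S0,none⟩
def cl_G2 : Ctx := ⟨7,1,7,1,0,cl_S0,none⟩
def cl_G3 : Ctx := ⟨7,1,7,1,32,cl_S0,none⟩
def cl_S1 : St := ⟨1,167,0,0,1⟩
def cl_G4 : Ctx := ⟨8,1,7,1,0,cl_S1,none⟩
def cl_G5 : Ctx := ⟨9,3,7,1,0,cl_S1,none⟩
def cl_G6 : Ctx := ⟨11,7,7,1,0,cl_S1,none⟩
def cl_G7 : Ctx := ⟨12,15,7,1,0,cl_S1,none⟩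
def cl_G8 : Ctx := ⟨12,15,7,1,2560,cl_S1,none⟩

end Pool.Agent.Lib.MP_849b2e_co
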