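import Pool.Agent.Lib.MP_849b2e_co.Fast
import Pool.Agent.Lib.MP_849b2e_co.Tcl
import Pool.Agent.Lib.MP_849b2e_co.RApply

set_option maxRecDepth 100000
set_option linter.all false
namespace Pool.Agent.Lib.MP_849b2e_co

noncomputable def cl_o0c : Pq := Pq.nil
theorem cl_o0 : AllRef cl_T (pureCtx 0 1) (twinObl [0] 0 [1]) :=
  chkPq_sound cl_o0c _ (by decide +kernel)
noncomputable def cl_o1c : Pq := Pq.nil
theorem cl_o1 : AllRef cl_T cl_G0 (blockObl [1] [0] [1] [1]) :=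
  chkPq_sound cl_o1c _ (by decide +kernel)
noncomputable def cl_o2c : Pq := Pq.nil
theorem cl_o2 : AllRef cl_T cl_G2 (extObl 5 [] []) :=
  chkPq_sound cl_o2c _ (by decide +kernel)
noncomputable def cl_o3c : Pq := (Pq.cons (Pq.L [] 7 (Pf.C 2 0x608080))
 Pq.nil)
theorem cl_o3 : AllRef cl_T cl_G3 (applyObl TD2 1 [6] [0] []) :=
  chkPq_sound cl_o3c _ (by decide +kernel)
noncomputable def cl_o4c : Pq := Pq.nil
theorem cl_o4 : AllRef cl_T cl_G4 (ptObl 5 PT.kid []) :=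
  chkPq_sound cl_o4c _ (by decide +kernel)
noncomputable def cl_o5c : Pq := Pq.nil
theorem cl_o5 : AllRef cl_T cl_G5 (ptObl 8 (PT.br 0 PT.kid PT.kid) []) :=
  chkPq_sound cl_o5c _ (by decide +kernel)
noncomputable def cl_o6c : Pq := (Pq.cons (Pq.L [0] 0 (Pf.W 1 0 [1] [] (Pf.cons (Pf.B 2 1 (Pf.C 0 16386) (Pf.W 1 0 [1,2] [] (Pf.cons (Pf.B 3 1 (Pf.C 0 16387) (Pf.C 2 0x400181)) Pf.nil))) Pf.nil)))
 Pq.nil)
theorem cl_o6 : AllRef cl_T cl_G6 (ptObl 6 (PT.br 0 PT.kid PT.ref) []) :=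
  chkPq_sound cl_o6c _ (by decide +kernel)
noncomputable def cl_o7c : Pq := (Pq.cons (Pq.L [] 0 (Pf.X 0 1))
 (Pq.cons (Pq.L [0] 1 (Pf.C 0 32896))
 (Pq.cons (Pq.L [] 0 (Pf.X 0 1))
 (Pq.cons (Pq.L [] 1 (Pf.W 1 1 [2] [] (Pf.cons (Pf.B 3 2 (Pf.C 0 32899) (Pf.W 1 1 [2,3] [] (Pf.cons (Pf.B 4 2 (Pf.C 0 32900) (Pf.C 2 0x604202)) Pf.nil))) Pf.nil)))
 Pq.nil))))
theorem cl_o7 : AllRef cl_T cl_G7 (closeObl (cl_T.sc.get 0) false [9,10,11] [0,0,0] [0] [0] 2) :=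
  chkPq_sound cl_o7c _ (by decide +kernel)
noncomputable def cl_o8c : Pq := (Pq.cons (Pq.L [0] 1 (Pf.C 0 32769))
 Pq.nil)
theorem cl_o8 : AllRef cl_T cl_G8 (applyObl TD2 1 [10] [0] [(10,1024)]) :=
  chkPq_sound cl_o8c _ (by decide +kernel)

end Pool.Agent.Lib.MP_849b2e_co
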