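import Pool.Agent.Lib.MP_849b2e_co.AllR
import Pool.Agent.Lib.MP_849b2e_co.Tcl
import Pool.Agent.Lib.MP_849b2e_co.Ocl_0

set_option maxRecDepth 100000
set_option linter.all false
namespace Pool.Agent.Lib.MP_849b2e_co

theorem cl_n11  : Bd cl_T cl_G8 [10] :=
  r_apply lem_D2 [0] [(10,1024)] (by decide +kernel) cl_o8
theorem cl_n10  : Bd cl_T cl_G7 [9,10,11] :=
  r_close false 0 [0,1,2,3] [9,10,11] [0,0,0] [0] [0] 2 ⟨12,[],[],[]⟩ cl_G8 [10] (by decide +kernel) cl_o7 cl_n11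
theorem cl_n9  : Bd cl_T cl_G7 [5,6] :=
  r_act [1,2,3] [9,10,11] (by decide +kernel) cl_n10
theorem cl_n8  : Bd cl_T cl_G6 [5,6] :=
  r_psplit 6 [] (PT.br 0 PT.kid PT.ref) ⟨11,[4],[],[]⟩ cl_G7 [5,6] (by decide +kernel) cl_o6 cl_n9
theorem cl_n7  : Bd cl_T cl_G5 [5,6] :=
  r_psplit 8 [] (PT.br 0 PT.kid PT.kid) ⟨9,[3],[],[]⟩ cl_G6 [5,6] (by decide +kernel) cl_o5 cl_n8
theorem cl_n6  : Bd cl_T cl_G4 [5,6] :=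
  r_psplit 5 [0] PT.kid ⟨8,[2],[],[]⟩ cl_G5 [5,6] (by decide +kernel) cl_o4 cl_n7
theorem cl_n5  : Bd cl_T cl_G3 [6] :=
  r_apply lem_D2 [0] [] (by decide +kernel) cl_o3
theorem cl_n4  : Bd cl_T cl_G2 [5,6] :=
  r_ext 5 2 [5] [] [] [] [] ⟨7,[],[],[]⟩ cl_G3 [6] ⟨7,[],[],[]⟩ cl_G4 [5,6] (by decide +kernel) cl_o2 cl_n5 cl_n6
theorem cl_n3  : Bd cl_T cl_G2 [2] :=
  r_act [0] [5,6] (by decide +kernel) cl_n4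
theorem cl_n2  : Bd cl_T cl_G1 [2] :=
  r_def 2 2 [2] [] ⟨5,[1],[2,0,0,0,3],[]⟩ cl_G2 [2] (by decide +kernel) cl_n3
theorem cl_n1  : Bd cl_T cl_G0 [1] :=
  r_block [0] [1] [1] ⟨2,[],[],[1]⟩ cl_G1 [2] (by decide +kernel) cl_o1 cl_n2
theorem cl_n0  : Bd cl_T (pureCtx 0 1) (pureAct 0) :=
  show Bd _ _ [0] from r_twin 0 [1] ⟨1,[],[],[]⟩ cl_G0 [1] (by decide +kernel) cl_o0 cl_n1
theorem lem_cl  : Lem cl_T 0 1 := ⟨by decide +kernel, cl_n0⟩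

end Pool.Agent.Lib.MP_849b2e_co
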