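import Pool.Agent.Lib.MP_849b2e_co.Rules

set_option maxRecDepth 100000
set_option linter.all false
namespace Pool.Agent.Lib.MP_849b2e_co

noncomputable def f3_ty : Tr Ty := (Tr.br (Tr.br (Tr.leaf ⟨1,0,0,0,0⟩) (Tr.leaf ⟨5,10,0,0,0⟩))
 (Tr.br (Tr.leaf ⟨3,12,0,0,0⟩) (Tr.leaf ⟨9,6,0,0,0⟩))
)

noncomputable def f3_ev : Tr Ev := (Tr.leaf ⟨0,[],0⟩)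
noncomputable def f3_ax : Tr Ax := (Tr.br (Tr.br (Tr.br (Tr.leaf ⟨[1,1,1,1],[⟨0,1,true⟩,⟨0,2,true⟩,⟨0,3,false⟩,⟨1,2,true⟩,⟨1,3,true⟩,⟨2,3,true⟩],[],0⟩) (Tr.leaf ⟨[2,4,8],[⟨0,1,false⟩,⟨0,2,false⟩,⟨1,2,false⟩],[],0⟩))
 (Tr.br (Tr.leaf ⟨[4,4],[⟨0,1,true⟩],[],0⟩) (Tr.leaf ⟨[2,2,8,8],[⟨0,2,false⟩,⟨0,3,true⟩,⟨1,2,true⟩,⟨1,3,false⟩],[],0⟩))
)
 (Tr.br (Tr.br (Tr.leaf ⟨[2,2],[⟨0,1,true⟩],[],0⟩) (Tr.leaf ⟨[2,2,4,4],[⟨0,2,false⟩,⟨0,3,true⟩,⟨1,2,true⟩,⟨1,3,false⟩],[],0⟩))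
 (Tr.br (Tr.leaf ⟨[8,8],[⟨0,1,true⟩],[],0⟩) (Tr.leaf ⟨[4,4,8,8],[⟨0,2,false⟩,⟨0,3,true⟩,⟨1,2,true⟩,⟨1,3,false⟩],[],0⟩))
)
)

noncomputable def f3_sc : Tr Sc := (Tr.leaf ⟨[],[]⟩)
noncomputable def f3_T : Tab := ⟨4,f3_ty,f3_ev,f3_ax,f3_sc⟩

end Pool.Agent.Lib.MP_849b2e_co
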