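import Pool.Agent.Lib.MP_849b2e_co.Fast
import Pool.Agent.Lib.MP_849b2e_co.Tf3
import Pool.Agent.Lib.MP_849b2e_co.Te

set_option maxRecDepth 100000
set_option linter.all false
namespace Pool.Agent.Lib.MP_849b2e_co

noncomputable def f3_o0c : Pq := (Pq.cons (Pq.L [] 63 (Pf.C 0 0x608080))
 (Pq.cons (Pq.D 0 (Pq.cons (Pq.D 1 (Pq.cons (Pq.D 2 (Pq.cons (Pq.L [] 32 (Pf.C 1 257))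
 (Pq.cons (Pq.D 3 (Pq.cons (Pq.D 4 (Pq.cons (Pq.L [] 4096 (Pf.C 1 515))
 (Pq.cons (Pq.L [] 4768 (Pf.C 5 0x410181))
 (Pq.cons (Pq.L [] 1034 (Pf.C 4 65792))
 Pq.nil)))) (Pq.cons (Pq.D 4 (Pq.cons (Pq.L [] 5216 (Pf.C 5 0x40c201))
 (Pq.cons (Pq.L [] 4096 (Pf.C 2 515))
 (Pq.cons (Pq.L [] 1034 (Pf.C 4 65792))
 Pq.nil)))) (Pq.cons (Pq.L [] 518 (Pf.C 4 49408))
 Pq.nil)))) (Pq.cons (Pq.D 3 (Pq.cons (Pq.D 4 (Pq.cons (Pq.L [] 4096 (Pf.C 1 515))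
 (Pq.cons (Pq.L [] 1034 (Pf.C 4 33280))
 (Pq.cons (Pq.L [] 4768 (Pf.C 6 0x410181))
 Pq.nil)))) (Pq.cons (Pq.L [] 518 (Pf.C 4 33152))
 (Pq.cons (Pq.D 4 (Pq.cons (Pq.L [] 5216 (Pf.C 6 0x40c201))
 (Pq.cons (Pq.L [] 1034 (Pf.C 4 33280))
 (Pq.cons (Pq.L [] 4096 (Pf.C 3 515))
 Pq.nil)))) Pq.nil)))) Pq.nil)))) (Pq.cons (Pq.D 2 (Pq.cons (Pq.D 3 (Pq.cons (Pq.D 4 (Pq.cons (Pq.L [] 4096 (Pf.C 1 515))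
 (Pq.cons (Pq.L [] 5216 (Pf.C 5 0x804103))
 (Pq.cons (Pq.L [] 137 (Pf.C 4 65664))
 Pq.nil)))) (Pq.cons (Pq.D 4 (Pq.cons (Pq.L [] 4768 (Pf.C 5 0x604104))
 (Pq.cons (Pq.L [] 4096 (Pf.C 2 515))
 (Pq.cons (Pq.L [] 137 (Pf.C 4 65664))
 Pq.nil)))) (Pq.cons (Pq.L [] 69 (Pf.C 4 49280))
 Pq.nil)))) (Pq.cons (Pq.L [] 32 (Pf.C 2 257))
 (Pq.cons (Pq.D 3 (Pq.cons (Pq.D 4 (Pq.cons (Pq.L [] 4096 (Pf.C 1 515))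
 (Pq.cons (Pq.L [] 1034 (Pf.C 4 33280))
 (Pq.cons (Pq.L [] 137 (Pf.C 4 65664))
 Pq.nil)))) (Pq.cons (Pq.L [] 518 (Pf.C 4 33152))
 (Pq.cons (Pq.L [] 69 (Pf.C 4 49280))
 Pq.nil)))) Pq.nil)))) (Pq.cons (Pq.D 2 (Pq.cons (Pq.D 3 (Pq.cons (Pq.D 4 (Pq.cons (Pq.L [] 4096 (Pf.C 1 515))
 (Pq.cons (Pq.L [] 137 (Pf.C 4 16896))
 (Pq.cons (Pq.L [] 5216 (Pf.C 6 0x804103))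
 Pq.nil)))) (Pq.cons (Pq.L [] 69 (Pf.C 4 16768))
 (Pq.cons (Pq.D 4 (Pq.cons (Pq.L [] 4768 (Pf.C 6 0x604104))
 (Pq.cons (Pq.L [] 137 (Pf.C 4 16896))
 (Pq.cons (Pq.L [] 4096 (Pf.C 3 515))
 Pq.nil)))) Pq.nil)))) (Pq.cons (Pq.D 3 (Pq.cons (Pq.D 4 (Pq.cons (Pq.L [] 4096 (Pf.C 1 515))
 (Pq.cons (Pq.L [] 137 (Pf.C 4 16896))
 (Pq.cons (Pq.L [] 1034 (Pf.C 4 65792))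
 Pq.nil)))) (Pq.cons (Pq.L [] 69 (Pf.C 4 16768))
 (Pq.cons (Pq.L [] 518 (Pf.C 4 49408))
 Pq.nil)))) (Pq.cons (Pq.L [] 32 (Pf.C 3 257))
 Pq.nil)))) Pq.nil)))) (Pq.cons (Pq.D 1 (Pq.cons (Pq.D 2 (Pq.cons (Pq.L [] 32 (Pf.C 1 257))
 (Pq.cons (Pq.D 3 (Pq.cons (Pq.D 4 (Pq.cons (Pq.L [] 4096 (Pf.C 1 515))
 (Pq.cons (Pq.L [] 4768 (Pf.C 5 0x410181))
 (Pq.cons (Pq.L [] 137 (Pf.C 4 65537))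
 Pq.nil)))) (Pq.cons (Pq.D 4 (Pq.cons (Pq.L [] 5216 (Pf.C 5 0x40c201))
 (Pq.cons (Pq.L [] 4096 (Pf.C 2 515))
 (Pq.cons (Pq.L [] 137 (Pf.C 4 65537))
 Pq.nil)))) (Pq.cons (Pq.L [] 69 (Pf.C 4 49153))
 Pq.nil)))) (Pq.cons (Pq.D 3 (Pq.cons (Pq.L [] 518 (Pf.C 4 32771))
 (Pq.cons (Pq.D 4 (Pq.cons (Pq.L [] 1034 (Pf.C 4 32772))
 (Pq.cons (Pq.L [] 4096 (Pf.C 2 515))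
 (Pq.cons (Pq.L [] 137 (Pf.C 4 65537))
 Pq.nil)))) (Pq.cons (Pq.L [] 69 (Pf.C 4 49153))
 Pq.nil)))) Pq.nil)))) (Pq.cons (Pq.D 2 (Pq.cons (Pq.D 3 (Pq.cons (Pq.D 4 (Pq.cons (Pq.L [] 4096 (Pf.C 1 515))
 (Pq.cons (Pq.L [] 5216 (Pf.C 5 0x804103))
 (Pq.cons (Pq.L [] 1034 (Pf.C 4 65538))
 Pq.nil)))) (Pq.cons (Pq.D 4 (Pq.cons (Pq.L [] 4768 (Pf.C 5 0x604104))
 (Pq.cons (Pq.L [] 4096 (Pf.C 2 515))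
 (Pq.cons (Pq.L [] 1034 (Pf.C 4 65538))
 Pq.nil)))) (Pq.cons (Pq.L [] 518 (Pf.C 4 49154))
 Pq.nil)))) (Pq.cons (Pq.L [] 32 (Pf.C 2 257))
 (Pq.cons (Pq.D 3 (Pq.cons (Pq.L [] 518 (Pf.C 4 32771))
 (Pq.cons (Pq.D 4 (Pq.cons (Pq.L [] 1034 (Pf.C 4 32772))
 (Pq.cons (Pq.L [] 4096 (Pf.C 2 515))
 (Pq.cons (Pq.L [] 4768 (Pf.C 7 0x410181))
 Pq.nil)))) (Pq.cons (Pq.D 4 (Pq.cons (Pq.L [] 1034 (Pf.C 4 32772))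
 (Pq.cons (Pq.L [] 5216 (Pf.C 7 0x40c201))
 (Pq.cons (Pq.L [] 4096 (Pf.C 3 515))
 Pq.nil)))) Pq.nil)))) Pq.nil)))) (Pq.cons (Pq.D 2 (Pq.cons (Pq.D 3 (Pq.cons (Pq.L [] 69 (Pf.C 4 16387))
 (Pq.cons (Pq.D 4 (Pq.cons (Pq.L [] 137 (Pf.C 4 16388))
 (Pq.cons (Pq.L [] 4096 (Pf.C 2 515))
 (Pq.cons (Pq.L [] 1034 (Pf.C 4 65538))
 Pq.nil)))) (Pq.cons (Pq.L [] 518 (Pf.C 4 49154))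
 Pq.nil)))) (Pq.cons (Pq.D 3 (Pq.cons (Pq.L [] 69 (Pf.C 4 16387))
 (Pq.cons (Pq.D 4 (Pq.cons (Pq.L [] 137 (Pf.C 4 16388))
 (Pq.cons (Pq.L [] 4096 (Pf.C 2 515))
 (Pq.cons (Pq.L [] 5216 (Pf.C 7 0x804103))
 Pq.nil)))) (Pq.cons (Pq.D 4 (Pq.cons (Pq.L [] 137 (Pf.C 4 16388))
 (Pq.cons (Pq.L [] 4768 (Pf.C 7 0x604104))
 (Pq.cons (Pq.L [] 4096 (Pf.C 3 515))
 Pq.nil)))) Pq.nil)))) (Pq.cons (Pq.L [] 32 (Pf.C 3 257))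
 Pq.nil)))) Pq.nil)))) (Pq.cons (Pq.D 1 (Pq.cons (Pq.D 2 (Pq.cons (Pq.L [] 32 (Pf.C 1 257))
 (Pq.cons (Pq.D 3 (Pq.cons (Pq.L [] 518 (Pf.C 4 259))
 (Pq.cons (Pq.L [] 69 (Pf.C 4 385))
 (Pq.cons (Pq.D 4 (Pq.cons (Pq.L [] 1034 (Pf.C 4 260))
 (Pq.cons (Pq.L [] 137 (Pf.C 4 513))
 (Pq.cons (Pq.L [] 4096 (Pf.C 3 515))
 Pq.nil)))) Pq.nil)))) (Pq.cons (Pq.D 3 (Pq.cons (Pq.D 4 (Pq.cons (Pq.L [] 4096 (Pf.C 1 515))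
 (Pq.cons (Pq.L [] 137 (Pf.C 4 513))
 (Pq.cons (Pq.L [] 4768 (Pf.C 6 0x410181))
 Pq.nil)))) (Pq.cons (Pq.L [] 69 (Pf.C 4 385))
 (Pq.cons (Pq.D 4 (Pq.cons (Pq.L [] 5216 (Pf.C 6 0x40c201))
 (Pq.cons (Pq.L [] 137 (Pf.C 4 513))
 (Pq.cons (Pq.L [] 4096 (Pf.C 3 515))
 Pq.nil)))) Pq.nil)))) Pq.nil)))) (Pq.cons (Pq.D 2 (Pq.cons (Pq.D 3 (Pq.cons (Pq.L [] 69 (Pf.C 4 131))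
 (Pq.cons (Pq.L [] 518 (Pf.C 4 386))
 (Pq.cons (Pq.D 4 (Pq.cons (Pq.L [] 137 (Pf.C 4 132))
 (Pq.cons (Pq.L [] 1034 (Pf.C 4 514))
 (Pq.cons (Pq.L [] 4096 (Pf.C 3 515))
 Pq.nil)))) Pq.nil)))) (Pq.cons (Pq.L [] 32 (Pf.C 2 257))
 (Pq.cons (Pq.D 3 (Pq.cons (Pq.L [] 69 (Pf.C 4 131))
 (Pq.cons (Pq.D 4 (Pq.cons (Pq.L [] 137 (Pf.C 4 132))
 (Pq.cons (Pq.L [] 4096 (Pf.C 2 515))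
 (Pq.cons (Pq.L [] 4768 (Pf.C 7 0x410181))
 Pq.nil)))) (Pq.cons (Pq.D 4 (Pq.cons (Pq.L [] 137 (Pf.C 4 132))
 (Pq.cons (Pq.L [] 5216 (Pf.C 7 0x40c201))
 (Pq.cons (Pq.L [] 4096 (Pf.C 3 515))
 Pq.nil)))) Pq.nil)))) Pq.nil)))) (Pq.cons (Pq.D 2 (Pq.cons (Pq.D 3 (Pq.cons (Pq.D 4 (Pq.cons (Pq.L [] 4096 (Pf.C 1 515))
 (Pq.cons (Pq.L [] 1034 (Pf.C 4 514))
 (Pq.cons (Pq.L [] 5216 (Pf.C 6 0x804103))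
 Pq.nil)))) (Pq.cons (Pq.L [] 518 (Pf.C 4 386))
 (Pq.cons (Pq.D 4 (Pq.cons (Pq.L [] 4768 (Pf.C 6 0x604104))
 (Pq.cons (Pq.L [] 1034 (Pf.C 4 514))
 (Pq.cons (Pq.L [] 4096 (Pf.C 3 515))
 Pq.nil)))) Pq.nil)))) (Pq.cons (Pq.D 3 (Pq.cons (Pq.L [] 518 (Pf.C 4 259))
 (Pq.cons (Pq.D 4 (Pq.cons (Pq.L [] 1034 (Pf.C 4 260))
 (Pq.cons (Pq.L [] 4096 (Pf.C 2 515))
 (Pq.cons (Pq.L [] 5216 (Pf.C 7 0x804103))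
 Pq.nil)))) (Pq.cons (Pq.D 4 (Pq.cons (Pq.L [] 1034 (Pf.C 4 260))
 (Pq.cons (Pq.L [] 4768 (Pf.C 7 0x604104))
 (Pq.cons (Pq.L [] 4096 (Pf.C 3 515))
 Pq.nil)))) Pq.nil)))) (Pq.cons (Pq.L [] 32 (Pf.C 3 257))
 Pq.nil)))) Pq.nil)))) Pq.nil)))) Pq.nil))
theorem f3_o0 : AllRef f3_T (pureCtx 3 8) (applyObl e_T 2 [1,2,3] [0,0,0] []) :=
  chkPq_sound f3_o0c _ (by decide +kernel)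

end Pool.Agent.Lib.MP_849b2e_co
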