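import Pool.Agent.Lib.MP_849b2e_co.AllR
import Pool.Agent.Lib.MP_849b2e_co.Tf3
import Pool.Agent.Lib.MP_849b2e_co.Of3_0
import Pool.Agent.Lib.MP_849b2e_co.Le

set_option maxRecDepth 100000
set_option linter.all false
namespace Pool.Agent.Lib.MP_849b2e_co

theorem f3_n0  : Bd f3_T (pureCtx 3 8) (pureAct 3) :=
  show Bd _ _ [1,2,3] from r_apply lem_e [0,0,0] [] (by decide +kernel) f3_o0
theorem lem_f3  : Lem f3_T 3 8 := ⟨by decide +kernel, f3_n0⟩

end Pool.Agent.Lib.MP_849b2e_co
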