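import Pool.Agent.Lib.MP_849b2e_co.Rules

set_option maxRecDepth 100000
set_option linter.all false
namespace Pool.Agent.Lib.MP_849b2e_co

noncomputable def f2_ty : Tr Ty := (Tr.br (Tr.br (Tr.br (Tr.br (Tr.br (Tr.br (Tr.br (Tr.leaf ⟨1,0,0,0,0⟩) (Tr.leaf ⟨0x12000000000000021,0xc000000000000fde,1,6,7⟩)) (Tr.br (Tr.leaf ⟨0x100000003,0x200000ffc,0,7,0⟩) (Tr.leaf ⟨0x1000000000000000000000003,4092,0,0,7⟩))) (Tr.br (Tr.br (Tr.leaf ⟨81929,0x28ff6,4,3,7⟩) (Tr.leaf ⟨0x120000000000000000005,0xc0000000000000000ffa,2,5,7⟩)) (Tr.br (Tr.leaf ⟨0x1000000000201,3582,0,0,7⟩) (Tr.leaf ⟨0x14000000000000000000000000401,0x28000000000000000000000000bfe,2,5,7⟩)))) (Tr.br (Tr.br (Tr.br (Tr.leaf ⟨257,3838,0,0,0⟩) (Tr.leaf ⟨0x1800000000000000401,0x6000000000000000bfe,0,7,7⟩))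 (Tr.br (Tr.leaf ⟨0x18000000011,0x60000000fee,0,7,7⟩) (Tr.leaf ⟨0x100000000000000000000000041,4030,0,0,7⟩))) (Tr.br (Tr.br (Tr.leaf ⟨0x1000081,3966,0,0,7⟩) (Tr.leaf ⟨0x10000000000000000000041,0x8000000000000000000fbe,4,3,0⟩)) (Tr.leaf ⟨0x180000000000005,0x600000000000ffa,0,7,7⟩))))
 (Tr.br (Tr.br (Tr.br (Tr.br (Tr.leaf ⟨17,4078,0,0,0⟩) (Tr.leaf ⟨0x100000000000000101,3838,1,6,0⟩)) (Tr.br (Tr.leaf ⟨0x1800000009,0x6000000ff6,0,7,7⟩) (Tr.leaf ⟨0x10000000000000000000000005,4090,1,6,0⟩))) (Tr.br (Tr.br (Tr.leaf ⟨0x100041,4030,0,0,7⟩) (Tr.leaf ⟨0x1400000000000000000011,0x2800000000000000000fee,4,3,7⟩)) (Tr.leaf ⟨0x10000000000401,3070,2,5,0⟩))) (Tr.br (Tr.br (Tr.br (Tr.leaf ⟨4099,4092,4,3,0⟩) (Tr.leaf ⟨0x10000000000000000003,4092,1,6,0⟩))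 (Tr.br (Tr.leaf ⟨0x100000000021,0x80000000fde,4,3,0⟩) (Tr.leaf ⟨0x1000000000000000000000000081,3966,1,6,0⟩))) (Tr.br (Tr.br (Tr.leaf ⟨0x10000201,3582,1,6,0⟩) (Tr.leaf ⟨0x100000000000000000000801,2046,0,0,7⟩)) (Tr.leaf ⟨0x1000000000000011,4078,4,3,0⟩))))
)
 (Tr.br (Tr.br (Tr.br (Tr.br (Tr.br (Tr.leaf ⟨5,4090,0,0,0⟩) (Tr.leaf ⟨0x40000000000000081,0x80000000000000f7e,0,7,0⟩)) (Tr.br (Tr.leaf ⟨0x400000005,4090,1,6,0⟩) (Tr.leaf ⟨0x5000000000000000000000003,0xa000000000000000000000ffc,4,3,7⟩))) (Tr.br (Tr.br (Tr.leaf ⟨0x40011,4078,4,3,0⟩) (Tr.leaf ⟨0x400000000000000000011,4078,0,0,7⟩)) (Tr.br (Tr.leaf ⟨0x5000000000201,0xa000000000dfe,2,5,7⟩) (Tr.leaf ⟨0x40000000000000000000000000801,0x800000000000000000000000007fe,0,7,0⟩)))) (Tr.br (Tr.br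 (Tr.br (Tr.leaf ⟨1025,3070,0,0,0⟩) (Tr.leaf ⟨0x4800000000000000401,0x3000000000000000bfe,1,6,7⟩)) (Tr.br (Tr.leaf ⟨0x48000000011,0x30000000fee,1,6,7⟩) (Tr.leaf ⟨0x500000000000000000000000041,0xa00000000000000000000000fbe,4,3,7⟩))) (Tr.br (Tr.br (Tr.leaf ⟨0x5000081,0xa000f7e,2,5,7⟩) (Tr.leaf ⟨0x40000000000000000000201,3582,2,5,0⟩)) (Tr.leaf ⟨0x480000000000005,0x300000000000ffa,2,5,7⟩))))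
 (Tr.br (Tr.br (Tr.br (Tr.br (Tr.leaf ⟨65,4030,0,0,0⟩) (Tr.leaf ⟨0x400000000000000201,0x200000000000000dfe,2,5,0⟩)) (Tr.br (Tr.leaf ⟨0x4800000009,0x3000000ff6,2,5,7⟩) (Tr.leaf ⟨0x40000000000000000000000011,4078,4,3,0⟩))) (Tr.br (Tr.br (Tr.leaf ⟨0x500041,0xa00fbe,4,3,7⟩) (Tr.leaf ⟨0x4000000000000000000021,4062,1,6,0⟩)) (Tr.leaf ⟨0x40000000000003,4092,1,6,0⟩))) (Tr.br (Tr.br (Tr.br (Tr.leaf ⟨16393,4086,0,0,7⟩) (Tr.leaf ⟨0x60000000000000000005,0x180000000000000000ffa,0,7,7⟩)) (Tr.br (Tr.leaf ⟨0x400000000081,3966,2,5,0⟩) (Tr.leaf ⟨0x4000000000000000000000000401,3070,0,0,7⟩))) (Tr.br (Tr.br (Tr.leaf ⟨0x40000801,0x800007fe,0,7,0⟩) (Tr.leaf ⟨0x500000000000000000000801,0xa000000000000000000007fe,2,5,7⟩)) (Tr.leaf ⟨0x6000000000000021,0x18000000000000fde,0,7,7⟩))))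
)
)
 (Tr.br (Tr.br (Tr.br (Tr.br (Tr.br (Tr.br (Tr.leaf ⟨3,4092,0,0,0⟩) (Tr.leaf ⟨0x20000000000000041,4030,4,3,0⟩)) (Tr.br (Tr.leaf ⟨0x200000003,0x100000ffc,4,3,0⟩) (Tr.leaf ⟨0x3000000000000000000000003,0xc000000000000000000000ffc,0,7,7⟩))) (Tr.br (Tr.br (Tr.leaf ⟨0x24009,0x18ff6,2,5,7⟩) (Tr.leaf ⟨0x200000000000000000009,4086,1,6,0⟩)) (Tr.br (Tr.leaf ⟨0x3000000000201,0xc000000000dfe,0,7,7⟩) (Tr.leaf ⟨0x24000000000000000000000000401,0x18000000000000000000000000bfe,1,6,7⟩)))) (Tr.br (Tr.br (Tr.br (Tr.leaf ⟨513,3582,0,0,0⟩) (Tr.leaf ⟨0x2800000000000000401,0x5000000000000000bfe,2,5,7⟩)) (Tr.br (Tr.leaf ⟨0x28000000011,0x50000000fee,4,3,7⟩) (Tr.leaf ⟨0x300000000000000000000000041,0xc00000000000000000000000fbe,0,7,7⟩))) (Tr.br (Tr.br (Tr.leaf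 ⟨0x3000081,0xc000f7e,0,7,7⟩) (Tr.leaf ⟨0x20000000000000000000081,3966,2,5,0⟩)) (Tr.leaf ⟨0x280000000000005,0x500000000000ffa,4,3,7⟩))))
 (Tr.br (Tr.br (Tr.br (Tr.br (Tr.leaf ⟨33,4062,0,0,0⟩) (Tr.leaf ⟨0x200000000000000201,0x400000000000000dfe,0,7,0⟩)) (Tr.br (Tr.leaf ⟨0x2800000009,0x5000000ff6,4,3,7⟩) (Tr.leaf ⟨0x20000000000000000000000009,4086,2,5,0⟩))) (Tr.br (Tr.br (Tr.leaf ⟨0x300041,0xc00fbe,0,7,7⟩) (Tr.leaf ⟨0x2400000000000000000011,0x1800000000000000000fee,1,6,7⟩)) (Tr.leaf ⟨0x20000000000801,2046,2,5,0⟩))) (Tr.br (Tr.br (Tr.br (Tr.leaf ⟨8197,4090,1,6,0⟩) (Tr.leaf ⟨0x20000000000000000005,4090,0,0,7⟩)) (Tr.br (Tr.leaf ⟨0x200000000041,4030,1,6,0⟩) (Tr.leaf ⟨0x2000000000000000000000000201,3582,1,6,0⟩))) (Tr.br (Tr.br (Tr.leaf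 ⟨0x20000401,3070,2,5,0⟩) (Tr.leaf ⟨0x300000000000000000000801,0xc000000000000000000007fe,0,7,7⟩)) (Tr.leaf ⟨0x2000000000000021,4062,0,0,7⟩))))
)
 (Tr.br (Tr.br (Tr.br (Tr.br (Tr.br (Tr.leaf ⟨9,4086,0,0,0⟩) (Tr.leaf ⟨0x80000000000000081,0x40000000000000f7e,2,5,0⟩)) (Tr.br (Tr.leaf ⟨0x800000009,4086,0,0,7⟩) (Tr.leaf ⟨0x9000000000000000000000003,0x6000000000000000000000ffc,2,5,7⟩))) (Tr.br (Tr.br (Tr.leaf ⟨0x80021,4062,4,3,0⟩) (Tr.leaf ⟨0xc00000000000000000011,0x3000000000000000000fee,0,7,7⟩)) (Tr.br (Tr.leaf ⟨0x9000000000201,0x6000000000dfe,1,6,7⟩) (Tr.leaf ⟨0x80000000000000000000000000801,0x400000000000000000000000007fe,2,5,0⟩)))) (Tr.br (Tr.br (Tr.br (Tr.leaf ⟨2049,2046,0,0,0⟩) (Tr.leaf ⟨0x8000000000000000801,2046,1,6,0⟩)) (Tr.br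 (Tr.leaf ⟨0x80000000021,0x100000000fde,0,7,0⟩) (Tr.leaf ⟨0x900000000000000000000000041,0x600000000000000000000000fbe,1,6,7⟩))) (Tr.br (Tr.br (Tr.leaf ⟨0x9000081,0x6000f7e,1,6,7⟩) (Tr.leaf ⟨0x80000000000000000000401,3070,2,5,0⟩)) (Tr.leaf ⟨0x800000000000009,4086,1,6,0⟩))))
 (Tr.br (Tr.br (Tr.br (Tr.br (Tr.leaf ⟨129,3966,0,0,0⟩) (Tr.leaf ⟨0x800000000000000401,3070,0,0,7⟩)) (Tr.br (Tr.leaf ⟨0x8000000011,4078,0,0,7⟩) (Tr.leaf ⟨0x80000000000000000000000021,4062,4,3,0⟩))) (Tr.br (Tr.br (Tr.leaf ⟨0x900041,0x600fbe,1,6,7⟩) (Tr.leaf ⟨0x8000000000000000000041,0x10000000000000000000fbe,0,7,0⟩)) (Tr.leaf ⟨0x80000000000005,4090,0,0,7⟩))) (Tr.br (Tr.br (Tr.br (Tr.leaf ⟨49161,0x30ff6,0,7,7⟩) (Tr.leaf ⟨0xa0000000000000000005,0x140000000000000000ffa,4,3,7⟩))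 (Tr.br (Tr.leaf ⟨0x800000000101,3838,2,5,0⟩) (Tr.leaf ⟨0xc000000000000000000000000401,0x30000000000000000000000000bfe,0,7,7⟩))) (Tr.br (Tr.br (Tr.leaf ⟨0x80000801,0x400007fe,2,5,0⟩) (Tr.leaf ⟨0x900000000000000000000801,0x6000000000000000000007fe,1,6,7⟩)) (Tr.leaf ⟨0xa000000000000021,0x14000000000000fde,4,3,7⟩))))
)
)
)

noncomputable def f2_ev : Tr Ev := (Tr.br (Tr.br (Tr.br (Tr.br (Tr.br (Tr.br (Tr.br (Tr.leaf ⟨1,[12],0⟩) (Tr.leaf ⟨7,[108],0⟩)) (Tr.leaf ⟨4,[60],0⟩)) (Tr.br (Tr.leaf ⟨3,[35],7⟩) (Tr.leaf ⟨5,[86],0⟩))) (Tr.br (Tr.br (Tr.leaf ⟨7,[24],7⟩) (Tr.leaf ⟨71,[72,73,74],0⟩)) (Tr.br (Tr.leaf ⟨9,[48],7⟩) (Tr.leaf ⟨1,[96],7⟩))))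
 (Tr.br (Tr.br (Tr.br (Tr.br (Tr.leaf ⟨4,[18],0⟩) (Tr.leaf ⟨110,[111,112,113],0⟩)) (Tr.leaf ⟨7,[66,67],0⟩)) (Tr.br (Tr.leaf ⟨5,[43,44],0⟩) (Tr.leaf ⟨9,[90],0⟩))) (Tr.br (Tr.br (Tr.leaf ⟨10,[29],0⟩) (Tr.leaf ⟨77,[78,79,80],0⟩)) (Tr.br (Tr.leaf ⟨1,[54],0⟩) (Tr.leaf ⟨4,[102],0⟩))))
)
 (Tr.br (Tr.br (Tr.br (Tr.br (Tr.br (Tr.leaf ⟨3,[14],7⟩) (Tr.leaf ⟨9,[109],0⟩)) (Tr.leaf ⟨61,[62,63,64],0⟩)) (Tr.br (Tr.leaf ⟨4,[39],7⟩) (Tr.leaf ⟨7,[89],0⟩))) (Tr.br (Tr.br (Tr.leaf ⟨8,[],0⟩) (Tr.leaf ⟨1,[76],0⟩)) (Tr.br (Tr.leaf ⟨10,[52],0⟩) (Tr.leaf ⟨2,[100],0⟩))))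
 (Tr.br (Tr.br (Tr.br (Tr.leaf ⟨6,[20],7⟩) (Tr.leaf ⟨9,[69,70],0⟩)) (Tr.br (Tr.leaf ⟨7,[46],0⟩) (Tr.leaf ⟨11,[92],7⟩))) (Tr.br (Tr.br (Tr.leaf ⟨1,[32,33],0⟩) (Tr.leaf ⟨4,[82],7⟩)) (Tr.br (Tr.leaf ⟨55,[56,57,58],0⟩) (Tr.leaf ⟨6,[104],7⟩))))
)
)
 (Tr.br (Tr.br (Tr.br (Tr.br (Tr.br (Tr.br (Tr.leaf ⟨2,[13],0⟩) (Tr.leaf ⟨8,[],0⟩)) (Tr.leaf ⟨5,[61],7⟩)) (Tr.br (Tr.leaf ⟨35,[36,37,38],0⟩) (Tr.leaf ⟨6,[87,88],0⟩))) (Tr.br (Tr.br (Tr.leaf ⟨24,[25,26,27],0⟩) (Tr.leaf ⟨11,[75],0⟩)) (Tr.br (Tr.leaf ⟨48,[49,50,51],0⟩) (Tr.leaf ⟨96,[97,98,99],0⟩))))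
 (Tr.br (Tr.br (Tr.br (Tr.br (Tr.leaf ⟨5,[19],0⟩) (Tr.leaf ⟨11,[114,115],0⟩)) (Tr.leaf ⟨8,[68],0⟩)) (Tr.br (Tr.leaf ⟨6,[45],0⟩) (Tr.leaf ⟨10,[91],0⟩))) (Tr.br (Tr.br (Tr.leaf ⟨11,[30,31],0⟩) (Tr.leaf ⟨3,[81],0⟩)) (Tr.br (Tr.leaf ⟨2,[55],7⟩) (Tr.leaf ⟨5,[103],0⟩))))
)
 (Tr.br (Tr.br (Tr.br (Tr.br (Tr.br (Tr.leaf ⟨14,[15,16,17],0⟩) (Tr.leaf ⟨10,[110],7⟩)) (Tr.leaf ⟨6,[65],0⟩)) (Tr.br (Tr.leaf ⟨39,[40,41,42],0⟩) (Tr.leaf ⟨8,[],0⟩))) (Tr.br (Tr.br (Tr.leaf ⟨9,[28],0⟩) (Tr.leaf ⟨2,[77],7⟩)) (Tr.br (Tr.leaf ⟨11,[53],0⟩) (Tr.leaf ⟨3,[101],0⟩))))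
 (Tr.br (Tr.br (Tr.br (Tr.leaf ⟨20,[21,22,23],0⟩) (Tr.leaf ⟨10,[71],7⟩)) (Tr.br (Tr.leaf ⟨8,[47],0⟩) (Tr.leaf ⟨92,[93,94,95],0⟩))) (Tr.br (Tr.br (Tr.leaf ⟨2,[34],0⟩) (Tr.leaf ⟨82,[83,84,85],0⟩)) (Tr.br (Tr.leaf ⟨3,[59],0⟩) (Tr.leaf ⟨104,[105,106,107],0⟩))))
)
)
)

noncomputable def f2_ax : Tr Ax := (Tr.br (Tr.br (Tr.br (Tr.br (Tr.br (Tr.br (Tr.br (Tr.leaf ⟨[1,1,1,1],[⟨0,1,true⟩,⟨0,2,true⟩,⟨0,3,false⟩,⟨1,2,true⟩,⟨1,3,true⟩,⟨2,3,true⟩],[],0⟩) (Tr.leaf ⟨[4,80,1664],[⟨0,1,true⟩,⟨0,2,false⟩,⟨1,2,false⟩],[],0⟩)) (Tr.leaf ⟨[128,512],[⟨0,1,true⟩],[],0⟩)) (Tr.br (Tr.br (Tr.leaf ⟨[4,8],[⟨0,1,false⟩],[],0⟩) (Tr.leaf ⟨[3466,48,48,3466],[⟨0,1,true⟩,⟨0,2,false⟩,⟨0,3,false⟩,⟨1,2,false⟩,⟨1,3,false⟩,⟨2,3,true⟩],[],0⟩)) (Tr.leaf ⟨[386,386,516],[⟨0,1,false⟩,⟨0,2,false⟩,⟨1,2,true⟩],[],0⟩)))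 (Tr.br (Tr.br (Tr.br (Tr.leaf ⟨[4,640],[⟨0,1,true⟩],[],0⟩) (Tr.leaf ⟨[4,8,16],[⟨0,1,true⟩,⟨0,2,true⟩,⟨1,2,true⟩],[],0⟩)) (Tr.leaf ⟨[4,4],[⟨0,1,true⟩],[],0⟩)) (Tr.br (Tr.br (Tr.leaf ⟨[8,256],[⟨0,1,true⟩],[],0⟩) (Tr.leaf ⟨[84,1664,1664,42],[⟨0,1,false⟩,⟨0,2,false⟩,⟨0,3,false⟩,⟨1,2,false⟩,⟨1,3,false⟩,⟨2,3,true⟩],[],0⟩)) (Tr.leaf ⟨[644,258,2056],[⟨0,1,false⟩,⟨0,2,false⟩,⟨1,2,false⟩],[],0⟩))))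
 (Tr.br (Tr.br (Tr.br (Tr.br (Tr.leaf ⟨[2056,2056],[⟨0,1,true⟩],[],0⟩) (Tr.leaf ⟨[644,1024,32],[⟨0,1,false⟩,⟨0,2,false⟩,⟨1,2,false⟩],[],0⟩)) (Tr.leaf ⟨[256,1024],[⟨0,1,true⟩],[],0⟩)) (Tr.br (Tr.br (Tr.leaf ⟨[2,256],[],[],0⟩) (Tr.leaf ⟨[118,896,896,118],[⟨0,1,true⟩,⟨0,2,false⟩,⟨0,3,false⟩,⟨1,2,false⟩,⟨1,3,false⟩,⟨2,3,true⟩],[],0⟩)) (Tr.leaf ⟨[50,384,3072],[⟨0,1,false⟩,⟨0,2,false⟩,⟨1,2,false⟩],[],0⟩))) (Tr.br (Tr.br (Tr.br (Tr.leaf ⟨[64,64],[⟨0,1,true⟩],[],0⟩) (Tr.leaf ⟨[118,118,118,896],[⟨0,1,true⟩,⟨0,2,false⟩,⟨0,3,false⟩,⟨1,2,true⟩,⟨1,3,false⟩,⟨2,3,true⟩],[],0⟩)) (Tr.leaf ⟨[1152,2314,516],[⟨0,1,true⟩,⟨0,2,false⟩,⟨1,2,false⟩],[],0⟩)) (Tr.br (Tr.br (Tr.leaf ⟨[32,256],[⟨0,1,true⟩],[],0⟩) (Tr.leaf ⟨[4,16,2048],[⟨0,1,true⟩,⟨0,2,true⟩,⟨1,2,true⟩],[],0⟩))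 (Tr.leaf ⟨[16,68,42],[⟨0,1,true⟩,⟨0,2,false⟩,⟨1,2,false⟩],[],0⟩))))
)
 (Tr.br (Tr.br (Tr.br (Tr.br (Tr.br (Tr.leaf ⟨[3072,3072],[⟨0,1,true⟩],[],0⟩) (Tr.leaf ⟨[4,1664,32],[⟨0,1,false⟩,⟨0,2,false⟩,⟨1,2,false⟩],[],0⟩)) (Tr.leaf ⟨[128,2048],[⟨0,1,true⟩],[],0⟩)) (Tr.br (Tr.br (Tr.leaf ⟨[2,8],[⟨0,1,true⟩],[],0⟩) (Tr.leaf ⟨[434,434,3080,580],[⟨0,1,false⟩,⟨0,2,false⟩,⟨0,3,false⟩,⟨1,2,true⟩,⟨1,3,false⟩,⟨2,3,false⟩],[],0⟩)) (Tr.leaf ⟨[50,384,68],[⟨0,1,false⟩,⟨0,2,false⟩,⟨1,2,true⟩],[],0⟩))) (Tr.br (Tr.br (Tr.br (Tr.leaf ⟨[2,4],[⟨0,1,false⟩],[],0⟩) (Tr.leaf ⟨[4,16,1024],[⟨0,1,true⟩,⟨0,2,true⟩,⟨1,2,true⟩],[],0⟩)) (Tr.leaf ⟨[128,128],[⟨0,1,true⟩],[],0⟩)) (Tr.br (Tr.br (Tr.leaf ⟨[16,64],[⟨0,1,true⟩],[],0⟩) (Tr.leaf ⟨[3982,3982,3982,3982,112],[⟨0,1,false⟩,⟨0,2,false⟩,⟨0,3,false⟩,⟨0,4,false⟩,⟨1,2,true⟩,⟨1,3,false⟩,⟨1,4,false⟩,⟨2,3,true⟩,⟨2,4,false⟩,⟨3,4,true⟩],[],0⟩))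 (Tr.leaf ⟨[50,8,68],[⟨0,1,true⟩,⟨0,2,false⟩,⟨1,2,false⟩],[],0⟩))))
 (Tr.br (Tr.br (Tr.br (Tr.br (Tr.leaf ⟨[128,258],[⟨0,1,false⟩],[],0⟩) (Tr.leaf ⟨[2,4,1024],[⟨0,1,true⟩,⟨0,2,true⟩,⟨1,2,true⟩],[],0⟩)) (Tr.leaf ⟨[512,2048],[⟨0,1,true⟩],[],0⟩)) (Tr.br (Tr.br (Tr.leaf ⟨[4,64],[⟨0,1,true⟩],[],0⟩) (Tr.leaf ⟨[58,68,68,58],[⟨0,1,true⟩,⟨0,2,false⟩,⟨0,3,false⟩,⟨1,2,false⟩,⟨1,3,false⟩,⟨2,3,true⟩],[],0⟩)) (Tr.leaf ⟨[644,80,2056],[⟨0,1,false⟩,⟨0,2,false⟩,⟨1,2,false⟩],[],0⟩))) (Tr.br (Tr.br (Tr.br (Tr.leaf ⟨[16,1024],[⟨0,1,false⟩],[],0⟩) (Tr.leaf ⟨[1668,2314,2314,1668],[⟨0,1,true⟩,⟨0,2,false⟩,⟨0,3,false⟩,⟨1,2,false⟩,⟨1,3,false⟩,⟨2,3,true⟩],[],0⟩)) (Tr.leaf ⟨[10,48,3456],[⟨0,1,true⟩,⟨0,2,false⟩,⟨1,2,false⟩],[],0⟩)) (Tr.br (Tr.br (Tr.leaf ⟨[64,512],[⟨0,1,true⟩],[],0⟩)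 (Tr.leaf ⟨[8,16,512],[⟨0,1,true⟩,⟨0,2,true⟩,⟨1,2,true⟩],[],0⟩)) (Tr.leaf ⟨[34,34,640],[⟨0,1,false⟩,⟨0,2,false⟩,⟨1,2,true⟩],[],0⟩))))
)
)
 (Tr.br (Tr.br (Tr.br (Tr.br (Tr.br (Tr.br (Tr.leaf ⟨[1,1,1,1,1,1],[⟨0,1,false⟩,⟨0,2,false⟩,⟨0,3,false⟩,⟨0,4,false⟩,⟨0,5,false⟩,⟨1,2,true⟩,⟨1,3,false⟩,⟨1,4,false⟩,⟨1,5,false⟩,⟨2,3,true⟩,⟨2,4,false⟩,⟨2,5,false⟩,⟨3,4,true⟩,⟨3,5,false⟩,⟨4,5,true⟩],[],0⟩) (Tr.leaf ⟨[644,80,1024],[⟨0,1,true⟩,⟨0,2,false⟩,⟨1,2,false⟩],[],0⟩)) (Tr.leaf ⟨[128,1024],[⟨0,1,true⟩],[],0⟩)) (Tr.br (Tr.br (Tr.leaf ⟨[4,256],[⟨0,1,false⟩],[],0⟩) (Tr.leaf ⟨[902,902,112,3080],[⟨0,1,false⟩,⟨0,2,false⟩,⟨0,3,false⟩,⟨1,2,true⟩,⟨1,3,false⟩,⟨2,3,false⟩],[],0⟩)) (Tr.leaf ⟨[386,48,516],[⟨0,1,false⟩,⟨0,2,false⟩,⟨1,2,false⟩],[],0⟩))) (Tr.br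 (Tr.br (Tr.br (Tr.leaf ⟨[128,16],[⟨0,1,false⟩],[],0⟩) (Tr.leaf ⟨[4,16,256],[⟨0,1,true⟩,⟨0,2,true⟩,⟨1,2,true⟩],[],0⟩)) (Tr.leaf ⟨[16,16],[⟨0,1,true⟩],[],0⟩)) (Tr.br (Tr.br (Tr.leaf ⟨[8,1024],[⟨0,1,true⟩],[],0⟩) (Tr.leaf ⟨[84,42,42,1664],[⟨0,1,false⟩,⟨0,2,false⟩,⟨0,3,false⟩,⟨1,2,false⟩,⟨1,3,false⟩,⟨2,3,true⟩],[],0⟩)) (Tr.leaf ⟨[1152,2314,64],[⟨0,1,false⟩,⟨0,2,false⟩,⟨1,2,false⟩],[],0⟩))))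
 (Tr.br (Tr.br (Tr.br (Tr.br (Tr.leaf ⟨[2,384],[⟨0,1,false⟩],[],0⟩) (Tr.leaf ⟨[16,42,512],[⟨0,1,false⟩,⟨0,2,false⟩,⟨1,2,false⟩],[],0⟩)) (Tr.leaf ⟨[512,1024],[⟨0,1,true⟩],[],0⟩)) (Tr.br (Tr.br (Tr.leaf ⟨[2,2048],[⟨0,1,true⟩],[],0⟩) (Tr.leaf ⟨[118,8,8,118],[⟨0,1,true⟩,⟨0,2,false⟩,⟨0,3,false⟩,⟨1,2,false⟩,⟨1,3,false⟩,⟨2,3,true⟩],[],0⟩)) (Tr.leaf ⟨[10,3456,64],[⟨0,1,false⟩,⟨0,2,false⟩,⟨1,2,false⟩],[],0⟩))) (Tr.br (Tr.br (Tr.br (Tr.leaf ⟨[32,32],[⟨0,1,true⟩],[],0⟩) (Tr.leaf ⟨[3466,516,516,3466],[⟨0,1,true⟩,⟨0,2,false⟩,⟨0,3,false⟩,⟨1,2,false⟩,⟨1,3,false⟩,⟨2,3,true⟩],[],0⟩)) (Tr.leaf ⟨[10,3456,48],[⟨0,1,true⟩,⟨0,2,false⟩,⟨1,2,false⟩],[],0⟩)) (Tr.br (Tr.br (Tr.leaf ⟨[32,2048],[⟨0,1,true⟩],[],0⟩) (Tr.leaf ⟨[4,32,1024],[⟨0,1,true⟩,⟨0,2,true⟩,⟨1,2,true⟩],[],0⟩))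 (Tr.leaf ⟨[640,640,34],[⟨0,1,false⟩,⟨0,2,false⟩,⟨1,2,true⟩],[],0⟩))))
)
 (Tr.br (Tr.br (Tr.br (Tr.br (Tr.br (Tr.leaf ⟨[2304,2304],[⟨0,1,true⟩],[],0⟩) (Tr.leaf ⟨[10,48,512],[⟨0,1,false⟩,⟨0,2,false⟩,⟨1,2,false⟩],[],0⟩)) (Tr.leaf ⟨[256,512],[⟨0,1,true⟩],[],0⟩)) (Tr.br (Tr.br (Tr.leaf ⟨[2,32],[⟨0,1,true⟩],[],0⟩) (Tr.leaf ⟨[434,434,580,3080],[⟨0,1,false⟩,⟨0,2,false⟩,⟨0,3,false⟩,⟨1,2,true⟩,⟨1,3,false⟩,⟨2,3,false⟩],[],0⟩)) (Tr.leaf ⟨[644,80,258],[⟨0,1,false⟩,⟨0,2,false⟩,⟨1,2,true⟩],[],0⟩))) (Tr.br (Tr.br (Tr.br (Tr.leaf ⟨[512,512],[⟨0,1,true⟩],[],0⟩) (Tr.leaf ⟨[8,16,128],[⟨0,1,true⟩,⟨0,2,true⟩,⟨1,2,true⟩],[],0⟩)) (Tr.leaf ⟨[1152,516,2314],[⟨0,1,true⟩,⟨0,2,false⟩,⟨1,2,false⟩],[],0⟩)) (Tr.br (Tr.br (Tr.leaf ⟨[32,64],[⟨0,1,true⟩],[],0⟩) (Tr.leaf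 ⟨[2,64,1024],[⟨0,1,true⟩,⟨0,2,true⟩,⟨1,2,true⟩],[],0⟩)) (Tr.leaf ⟨[50,68,8],[⟨0,1,true⟩,⟨0,2,false⟩,⟨1,2,false⟩],[],0⟩))))
 (Tr.br (Tr.br (Tr.br (Tr.br (Tr.leaf ⟨[16,34],[⟨0,1,true⟩],[],0⟩) (Tr.leaf ⟨[2,64,128],[⟨0,1,true⟩,⟨0,2,true⟩,⟨1,2,true⟩],[],0⟩)) (Tr.leaf ⟨[2,2],[⟨0,1,true⟩],[],0⟩)) (Tr.br (Tr.br (Tr.leaf ⟨[8,32],[⟨0,1,true⟩],[],0⟩) (Tr.leaf ⟨[84,1664,1664,84],[⟨0,1,true⟩,⟨0,2,false⟩,⟨0,3,false⟩,⟨1,2,false⟩,⟨1,3,false⟩,⟨2,3,true⟩],[],0⟩)) (Tr.leaf ⟨[50,68,3072],[⟨0,1,false⟩,⟨0,2,false⟩,⟨1,2,false⟩],[],0⟩))) (Tr.br (Tr.br (Tr.br (Tr.leaf ⟨[16,256],[⟨0,1,false⟩],[],0⟩) (Tr.leaf ⟨[58,3456,3456,58],[⟨0,1,true⟩,⟨0,2,false⟩,⟨0,3,false⟩,⟨1,2,false⟩,⟨1,3,false⟩,⟨2,3,true⟩],[],0⟩)) (Tr.leaf ⟨[386,386,48],[⟨0,1,false⟩,⟨0,2,false⟩,⟨1,2,true⟩],[],0⟩))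 (Tr.br (Tr.br (Tr.leaf ⟨[128,256],[],[],0⟩) (Tr.leaf ⟨[8,64,128],[⟨0,1,true⟩,⟨0,2,true⟩,⟨1,2,true⟩],[],0⟩)) (Tr.leaf ⟨[4,1664,80],[⟨0,1,true⟩,⟨0,2,false⟩,⟨1,2,false⟩],[],0⟩))))
)
)
)

noncomputable def f2_sc : Tr Sc := (Tr.leaf ⟨[],[]⟩)
noncomputable def f2_T : Tab := ⟨116,f2_ty,f2_ev,f2_ax,f2_sc⟩
def f2_S0 : St := ⟨0,0,0,0,0⟩
def f2_G0 : Ctx := ⟨12,0,0xfffffffffffffffffffffff,0,0,f2_S0,none⟩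
def f2_S1 : St := ⟨3,0x4010000000000000000000000000004100000000000000000000000000003,0x30000000000000000000000000000000500000000000000000000000000000006,0,7⟩
def f2_G1 : Ctx := ⟨12,0,0x7ffffffffffffffffffffff,0,0,f2_S1,none⟩
def f2_G2 : Ctx := ⟨12,0,0x1fffffffffffffffffffffff,0,0,f2_S0,none⟩
def f2_S2 : St := ⟨3,0x8010000000000000000000000000001100000000000000000000000000005,0x30000000000000000000000000000000500000000000000000000000000000006,0,7⟩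
def f2_G3 : Ctx := ⟨12,0,0xfffffffffffffffffffffff,0,0,f2_S2,none⟩
def f2_G4 : Ctx := ⟨12,0,0x3fffffffffffffffffffffff,0,0,f2_S0,none⟩
def f2_S3 : St := ⟨3,0x4010000000000000000000000000002100000000000000000000000000005,0x30000000000000000000000000000000500000000000000000000000000000006,0,7⟩
def f2_G5 : Ctx := ⟨12,0,0x1fffffffffffffffffffffff,0,0,f2_S3,none⟩
def f2_G6 : Ctx := ⟨12,0,0x7fffffffffffffffffffffff,0,0,f2_S0,none⟩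
def f2_S4 : St := ⟨3,0x2010000000000000000000000000001100000000000000000000000000009,0x30000000000000000000000000000000500000000000000000000000000000006,0,7⟩
def f2_G7 : Ctx := ⟨12,0,0x3fffffffffffffffffffffff,0,0,f2_S4,none⟩
def f2_G8 : Ctx := ⟨12,0,0xffffffffffffffffffffffff,0,0,f2_S0,none⟩
def f2_S5 : St := ⟨3,0x810000000000000000000000000004100000000000000000000000000009,0x30000000000000000000000000000000500000000000000000000000000000006,0,7⟩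
def f2_G9 : Ctx := ⟨12,0,0x7fffffffffffffffffffffff,0,0,f2_S5,none⟩
def f2_G10 : Ctx := ⟨13,1,0x7fffffffffffffffffffffff,0,0,f2_S5,none⟩
def f2_G11 : Ctx := ⟨14,3,0x7fffffffffffffffffffffff,0,0,f2_S5,none⟩
def f2_G12 : Ctx := ⟨15,7,0x7fffffffffffffffffffffff,0,0,f2_S5,none⟩
def f2_G13 : Ctx := ⟨18,15,0x7fffffffffffffffffffffff,0,0,f2_S5,none⟩
def f2_G14 : Ctx := ⟨19,31,0x7fffffffffffffffffffffff,0,0,f2_S5,none⟩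
def f2_G15 : Ctx := ⟨20,63,0x7fffffffffffffffffffffff,0,0,f2_S5,none⟩
def f2_G16 : Ctx := ⟨21,127,0x7fffffffffffffffffffffff,0,0,f2_S5,none⟩
def f2_G17 : Ctx := ⟨24,255,0x7fffffffffffffffffffffff,0,0,f2_S5,none⟩
def f2_G18 : Ctx := ⟨25,511,0x7fffffffffffffffffffffff,0,0,f2_S5,none⟩
def f2_G19 : Ctx := ⟨28,1023,0x7fffffffffffffffffffffff,0,0,f2_S5,none⟩
def f2_G20 : Ctx := ⟨28,2047,0x7fffffffffffffffffffffff,0,0,f2_S5,none⟩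
def f2_G21 : Ctx := ⟨29,4095,0x7fffffffffffffffffffffff,0,0,f2_S5,none⟩
def f2_G22 : Ctx := ⟨30,8191,0x7fffffffffffffffffffffff,0,0,f2_S5,none⟩
def f2_G23 : Ctx := ⟨32,16383,0x7fffffffffffffffffffffff,0,0,f2_S5,none⟩
def f2_G24 : Ctx := ⟨34,16384,0x3fffffffffffffffffffffff,0,0,f2_S4,none⟩
def f2_G25 : Ctx := ⟨35,49152,0x3fffffffffffffffffffffff,0,0,f2_S4,none⟩
def f2_G26 : Ctx := ⟨36,0x1c000,0x3fffffffffffffffffffffff,0,0,f2_S4,none⟩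
def f2_G27 : Ctx := ⟨39,0x3c000,0x3fffffffffffffffffffffff,0,0,f2_S4,none⟩
def f2_G28 : Ctx := ⟨40,0x7c000,0x3fffffffffffffffffffffff,0,0,f2_S4,none⟩
def f2_G29 : Ctx := ⟨43,0xfc000,0x3fffffffffffffffffffffff,0,0,f2_S4,none⟩
def f2_G30 : Ctx := ⟨45,0x1fc000,0x3fffffffffffffffffffffff,0,0,f2_S4,none⟩
def f2_G31 : Ctx := ⟨46,0x3fc000,0x3fffffffffffffffffffffff,0,0,f2_S4,none⟩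
def f2_G32 : Ctx := ⟨47,0x7fc000,0x3fffffffffffffffffffffff,0,0,f2_S4,none⟩
def f2_G33 : Ctx := ⟨48,0xffc000,0x3fffffffffffffffffffffff,0,0,f2_S4,none⟩
def f2_G34 : Ctx := ⟨49,0x1ffc000,0x3fffffffffffffffffffffff,0,0,f2_S4,none⟩
def f2_G35 : Ctx := ⟨52,0x3ffc000,0x3fffffffffffffffffffffff,0,0,f2_S4,none⟩
def f2_G36 : Ctx := ⟨53,0x7ffc000,0x3fffffffffffffffffffffff,0,0,f2_S4,none⟩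
def f2_G37 : Ctx := ⟨54,0xfffc000,0x3fffffffffffffffffffffff,0,0,f2_S4,none⟩
def f2_G38 : Ctx := ⟨55,0x10000000,0x1fffffffffffffffffffffff,0,0,f2_S3,none⟩
def f2_G39 : Ctx := ⟨56,0x30000000,0x1fffffffffffffffffffffff,0,0,f2_S3,none⟩
def f2_G40 : Ctx := ⟨59,0x70000000,0x1fffffffffffffffffffffff,0,0,f2_S3,none⟩
def f2_G41 : Ctx := ⟨60,0xf0000000,0x1fffffffffffffffffffffff,0,0,f2_S3,none⟩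
def f2_G42 : Ctx := ⟨61,0x1f0000000,0x1fffffffffffffffffffffff,0,0,f2_S3,none⟩
def f2_G43 : Ctx := ⟨62,0x3f0000000,0x1fffffffffffffffffffffff,0,0,f2_S3,none⟩
def f2_G44 : Ctx := ⟨65,0x7f0000000,0x1fffffffffffffffffffffff,0,0,f2_S3,none⟩
def f2_G45 : Ctx := ⟨66,0xff0000000,0x1fffffffffffffffffffffff,0,0,f2_S3,none⟩
def f2_G46 : Ctx := ⟨68,0x1ff0000000,0x1fffffffffffffffffffffff,0,0,f2_S3,none⟩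
def f2_G47 : Ctx := ⟨69,0x3ff0000000,0x1fffffffffffffffffffffff,0,0,f2_S3,none⟩
def f2_G48 : Ctx := ⟨71,0x7ff0000000,0x1fffffffffffffffffffffff,0,0,f2_S3,none⟩
def f2_G49 : Ctx := ⟨72,0xfff0000000,0x1fffffffffffffffffffffff,0,0,f2_S3,none⟩
def f2_G50 : Ctx := ⟨75,0x1fff0000000,0x1fffffffffffffffffffffff,0,0,f2_S3,none⟩
def f2_G51 : Ctx := ⟨76,0x3fff0000000,0x1fffffffffffffffffffffff,0,0,f2_S3,none⟩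
def f2_G52 : Ctx := ⟨77,0x40000000000,0xfffffffffffffffffffffff,0,0,f2_S2,none⟩
def f2_G53 : Ctx := ⟨78,0xc0000000000,0xfffffffffffffffffffffff,0,0,f2_S2,none⟩
def f2_G54 : Ctx := ⟨81,0x1c0000000000,0xfffffffffffffffffffffff,0,0,f2_S2,none⟩
def f2_G55 : Ctx := ⟨82,0x3c0000000000,0xfffffffffffffffffffffff,0,0,f2_S2,none⟩
def f2_G56 : Ctx := ⟨83,0x7c0000000000,0xfffffffffffffffffffffff,0,0,f2_S2,none⟩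
def f2_G57 : Ctx := ⟨86,0xfc0000000000,0xfffffffffffffffffffffff,0,0,f2_S2,none⟩
def f2_G58 : Ctx := ⟨87,0x1fc0000000000,0xfffffffffffffffffffffff,0,0,f2_S2,none⟩
def f2_G59 : Ctx := ⟨89,0x3fc0000000000,0xfffffffffffffffffffffff,0,0,f2_S2,none⟩
def f2_G60 : Ctx := ⟨90,0x7fc0000000000,0xfffffffffffffffffffffff,0,0,f2_S2,none⟩
def f2_G61 : Ctx := ⟨90,0xffc0000000000,0xfffffffffffffffffffffff,0,0,f2_S2,none⟩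
def f2_G62 : Ctx := ⟨91,0x1ffc0000000000,0xfffffffffffffffffffffff,0,0,f2_S2,none⟩
def f2_G63 : Ctx := ⟨92,0x3ffc0000000000,0xfffffffffffffffffffffff,0,0,f2_S2,none⟩
def f2_G64 : Ctx := ⟨93,0x7ffc0000000000,0xfffffffffffffffffffffff,0,0,f2_S2,none⟩
def f2_G65 : Ctx := ⟨96,0xfffc0000000000,0xfffffffffffffffffffffff,0,0,f2_S2,none⟩
def f2_G66 : Ctx := ⟨97,0x100000000000000,0x7ffffffffffffffffffffff,0,0,f2_S1,none⟩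
def f2_G67 : Ctx := ⟨100,0x300000000000000,0x7ffffffffffffffffffffff,0,0,f2_S1,none⟩
def f2_G68 : Ctx := ⟨101,0x700000000000000,0x7ffffffffffffffffffffff,0,0,f2_S1,none⟩
def f2_G69 : Ctx := ⟨102,0xf00000000000000,0x7ffffffffffffffffffffff,0,0,f2_S1,none⟩
def f2_G70 : Ctx := ⟨103,0x1f00000000000000,0x7ffffffffffffffffffffff,0,0,f2_S1,none⟩
def f2_G71 : Ctx := ⟨104,0x3f00000000000000,0x7ffffffffffffffffffffff,0,0,f2_S1,none⟩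
def f2_G72 : Ctx := ⟨105,0x7f00000000000000,0x7ffffffffffffffffffffff,0,0,f2_S1,none⟩
def f2_G73 : Ctx := ⟨108,0xff00000000000000,0x7ffffffffffffffffffffff,0,0,f2_S1,none⟩
def f2_G74 : Ctx := ⟨109,0x1ff00000000000000,0x7ffffffffffffffffffffff,0,0,f2_S1,none⟩
def f2_G75 : Ctx := ⟨109,0x3ff00000000000000,0x7ffffffffffffffffffffff,0,0,f2_S1,none⟩
def f2_G76 : Ctx := ⟨110,0x7ff00000000000000,0x7ffffffffffffffffffffff,0,0,f2_S1,none⟩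
def f2_G77 : Ctx := ⟨111,0xfff00000000000000,0x7ffffffffffffffffffffff,0,0,f2_S1,none⟩
def f2_G78 : Ctx := ⟨114,0x1fff00000000000000,0x7ffffffffffffffffffffff,0,0,f2_S1,none⟩
def f2_G79 : Ctx := ⟨116,0x3fff00000000000000,0x7ffffffffffffffffffffff,0,0,f2_S1,none⟩

end Pool.Agent.Lib.MP_849b2e_co
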