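import Pool.Agent.Lib.MP_849b2e_co.Fast
import Pool.Agent.Lib.MP_849b2e_co.Tf2
import Pool.Agent.Lib.MP_849b2e_co.RApply
import Pool.Agent.Lib.MP_849b2e_co.Td
import Pool.Agent.Lib.MP_849b2e_co.Tf3

set_option maxRecDepth 100000
set_option linter.all false
namespace Pool.Agent.Lib.MP_849b2e_co

noncomputable def f2_o0c : Pq := (Pq.cons (Pq.D 1 (Pq.cons (Pq.L [] 1 (Pf.C 39 128))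
 (Pq.cons (Pq.D 2 (Pq.cons (Pq.L [] 2 (Pf.C 39 256))
 (Pq.cons (Pq.L [] 4 (Pf.C 40 257))
 (Pq.cons (Pq.L [] 2 (Pf.C 18 256))
 (Pq.cons (Pq.L [] 2 (Pf.C 7 2))
 (Pq.cons (Pq.L [] 2 (Pf.C 19 256))
 (Pq.cons (Pq.L [] 4 (Pf.C 22 257))
 (Pq.cons (Pq.L [] 4 (Pf.C 8 257))
 (Pq.cons (Pq.L [] 0 (Pf.C 20 256))
 (Pq.cons (Pq.L [] 4 (Pf.C 8 257))
 (Pq.cons (Pq.L [] 7 (Pf.C 70 32896))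
 (Pq.cons (Pq.L [] 2 (Pf.C 21 256))
 Pq.nil)))))))))))) (Pq.cons (Pq.L [] 1 (Pf.C 18 128))
 (Pq.cons (Pq.L [] 1 (Pf.C 7 1))
 (Pq.cons (Pq.L [] 1 (Pf.C 19 128))
 (Pq.cons (Pq.D 2 (Pq.cons (Pq.L [] 2 (Pf.C 39 256))
 (Pq.cons (Pq.L [] 4 (Pf.C 22 130))
 (Pq.cons (Pq.L [] 2 (Pf.C 18 256))
 (Pq.cons (Pq.L [] 2 (Pf.C 7 2))
 (Pq.cons (Pq.L [] 2 (Pf.C 19 256))
 (Pq.cons (Pq.L [] 4 (Pf.C 12 257))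
 (Pq.cons (Pq.L [] 7 (Pf.C 71 32896))
 (Pq.cons (Pq.L [] 0 (Pf.C 20 256))
 (Pq.cons (Pq.L [] 4 (Pf.C 30 257))
 (Pq.cons (Pq.L [] 7 (Pf.C 91 32896))
 (Pq.cons (Pq.L [] 2 (Pf.C 21 256))
 Pq.nil)))))))))))) (Pq.cons (Pq.D 2 (Pq.cons (Pq.L [] 2 (Pf.C 39 256))
 (Pq.cons (Pq.L [] 4 (Pf.C 8 130))
 (Pq.cons (Pq.L [] 2 (Pf.C 18 256))
 (Pq.cons (Pq.L [] 2 (Pf.C 7 2))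
 (Pq.cons (Pq.L [] 2 (Pf.C 19 256))
 (Pq.cons (Pq.L [] 7 (Pf.C 71 16640))
 (Pq.cons (Pq.L [] 4 (Pf.C 42 257))
 (Pq.cons (Pq.L [] 0 (Pf.C 20 256))
 (Pq.cons (Pq.L [] 4 (Pf.C 32 257))
 (Pq.cons (Pq.L [] 4 (Pf.C 33 257))
 (Pq.cons (Pq.L [] 2 (Pf.C 21 256))
 Pq.nil)))))))))))) (Pq.cons (Pq.L [] 0 (Pf.C 20 128))
 (Pq.cons (Pq.D 2 (Pq.cons (Pq.L [] 2 (Pf.C 39 256))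
 (Pq.cons (Pq.L [] 4 (Pf.C 8 130))
 (Pq.cons (Pq.L [] 2 (Pf.C 18 256))
 (Pq.cons (Pq.L [] 2 (Pf.C 7 2))
 (Pq.cons (Pq.L [] 2 (Pf.C 19 256))
 (Pq.cons (Pq.L [] 4 (Pf.C 30 130))
 (Pq.cons (Pq.L [] 4 (Pf.C 32 130))
 (Pq.cons (Pq.L [] 0 (Pf.C 20 256))
 (Pq.cons (Pq.L [] 4 (Pf.C 11 257))
 (Pq.cons (Pq.L [] 4 (Pf.C 37 257))
 (Pq.cons (Pq.L [] 2 (Pf.C 21 256))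
 Pq.nil)))))))))))) (Pq.cons (Pq.D 2 (Pq.cons (Pq.L [] 2 (Pf.C 39 256))
 (Pq.cons (Pq.L [] 7 (Pf.C 70 16640))
 (Pq.cons (Pq.L [] 2 (Pf.C 18 256))
 (Pq.cons (Pq.L [] 2 (Pf.C 7 2))
 (Pq.cons (Pq.L [] 2 (Pf.C 19 256))
 (Pq.cons (Pq.L [] 7 (Pf.C 91 16640))
 (Pq.cons (Pq.L [] 4 (Pf.C 33 130))
 (Pq.cons (Pq.L [] 0 (Pf.C 20 256))
 (Pq.cons (Pq.L [] 4 (Pf.C 37 130))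
 (Pq.cons (Pq.L [] 4 (Pf.C 2 257))
 (Pq.cons (Pq.L [] 2 (Pf.C 21 256))
 Pq.nil)))))))))))) (Pq.cons (Pq.L [] 1 (Pf.C 21 128))
 Pq.nil)))))))))))) (Pq.cons (Pq.D 1 (Pq.cons (Pq.D 2 (Pq.cons (Pq.L [] 4 (Pf.C 39 257))
 (Pq.cons (Pq.L [] 2 (Pf.C 40 256))
 (Pq.cons (Pq.L [] 4 (Pf.C 18 257))
 (Pq.cons (Pq.L [] 4 (Pf.C 7 130))
 (Pq.cons (Pq.L [] 4 (Pf.C 19 257))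
 (Pq.cons (Pq.L [] 2 (Pf.C 22 256))
 (Pq.cons (Pq.L [] 2 (Pf.C 8 256))
 (Pq.cons (Pq.L [] 0 (Pf.C 20 257))
 (Pq.cons (Pq.L [] 2 (Pf.C 8 256))
 (Pq.cons (Pq.L [] 7 (Pf.C 70 32769))
 (Pq.cons (Pq.L [] 4 (Pf.C 21 257))
 Pq.nil)))))))))))) (Pq.cons (Pq.L [] 1 (Pf.C 40 128))
 (Pq.cons (Pq.D 2 (Pq.cons (Pq.L [] 4 (Pf.C 18 130))
 (Pq.cons (Pq.L [] 2 (Pf.C 40 256))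
 (Pq.cons (Pq.L [] 4 (Pf.C 4 257))
 (Pq.cons (Pq.L [] 7 (Pf.C 72 32896))
 (Pq.cons (Pq.L [] 4 (Pf.C 23 257))
 (Pq.cons (Pq.L [] 2 (Pf.C 22 256))
 (Pq.cons (Pq.L [] 2 (Pf.C 8 256))
 (Pq.cons (Pq.L [] 4 (Pf.C 24 257))
 (Pq.cons (Pq.L [] 2 (Pf.C 8 256))
 (Pq.cons (Pq.L [] 4 (Pf.C 25 257))
 (Pq.cons (Pq.L [] 4 (Pf.C 4 257))
 Pq.nil)))))))))))) (Pq.cons (Pq.D 2 (Pq.cons (Pq.L [] 4 (Pf.C 7 257))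
 (Pq.cons (Pq.L [] 2 (Pf.C 40 256))
 (Pq.cons (Pq.L [] 7 (Pf.C 72 16640))
 (Pq.cons (Pq.L [] 4 (Pf.C 41 257))
 (Pq.cons (Pq.L [] 4 (Pf.C 7 257))
 (Pq.cons (Pq.L [] 2 (Pf.C 22 256))
 (Pq.cons (Pq.L [] 2 (Pf.C 8 256))
 (Pq.cons (Pq.L [] 7 (Pf.C 73 32896))
 (Pq.cons (Pq.L [] 2 (Pf.C 8 256))
 (Pq.cons (Pq.L [] 7 (Pf.C 74 32896))
 (Pq.cons (Pq.L [] 7 (Pf.C 92 32896))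
 Pq.nil)))))))))))) (Pq.cons (Pq.D 2 (Pq.cons (Pq.L [] 4 (Pf.C 19 130))
 (Pq.cons (Pq.L [] 2 (Pf.C 40 256))
 (Pq.cons (Pq.L [] 4 (Pf.C 23 130))
 (Pq.cons (Pq.L [] 4 (Pf.C 7 130))
 (Pq.cons (Pq.L [] 4 (Pf.C 13 257))
 (Pq.cons (Pq.L [] 2 (Pf.C 22 256))
 (Pq.cons (Pq.L [] 2 (Pf.C 8 256))
 (Pq.cons (Pq.L [] 4 (Pf.C 28 257))
 (Pq.cons (Pq.L [] 2 (Pf.C 8 256))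
 (Pq.cons (Pq.L [] 7 (Pf.C 93 32896))
 (Pq.cons (Pq.L [] 4 (Pf.C 29 257))
 Pq.nil)))))))))))) (Pq.cons (Pq.L [] 1 (Pf.C 22 128))
 (Pq.cons (Pq.L [] 1 (Pf.C 8 128))
 (Pq.cons (Pq.D 2 (Pq.cons (Pq.L [] 0 (Pf.C 20 130))
 (Pq.cons (Pq.L [] 2 (Pf.C 40 256))
 (Pq.cons (Pq.L [] 4 (Pf.C 24 130))
 (Pq.cons (Pq.L [] 7 (Pf.C 73 16640))
 (Pq.cons (Pq.L [] 4 (Pf.C 28 130))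
 (Pq.cons (Pq.L [] 2 (Pf.C 22 256))
 (Pq.cons (Pq.L [] 2 (Pf.C 8 256))
 (Pq.cons (Pq.L [] 4 (Pf.C 3 257))
 (Pq.cons (Pq.L [] 2 (Pf.C 8 256))
 (Pq.cons (Pq.L [] 4 (Pf.C 36 257))
 (Pq.cons (Pq.L [] 4 (Pf.C 3 257))
 Pq.nil)))))))))))) (Pq.cons (Pq.L [] 1 (Pf.C 8 128))
 (Pq.cons (Pq.D 2 (Pq.cons (Pq.L [] 7 (Pf.C 70 16386))
 (Pq.cons (Pq.L [] 2 (Pf.C 40 256))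
 (Pq.cons (Pq.L [] 4 (Pf.C 25 130))
 (Pq.cons (Pq.L [] 7 (Pf.C 74 16640))
 (Pq.cons (Pq.L [] 7 (Pf.C 93 16640))
 (Pq.cons (Pq.L [] 2 (Pf.C 22 256))
 (Pq.cons (Pq.L [] 2 (Pf.C 8 256))
 (Pq.cons (Pq.L [] 4 (Pf.C 36 130))
 (Pq.cons (Pq.L [] 2 (Pf.C 8 256))
 (Pq.cons (Pq.L [] 4 (Pf.C 2 257))
 (Pq.cons (Pq.L [] 4 (Pf.C 2 257))
 Pq.nil)))))))))))) (Pq.cons (Pq.D 2 (Pq.cons (Pq.L [] 4 (Pf.C 21 130))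
 (Pq.cons (Pq.L [] 2 (Pf.C 40 256))
 (Pq.cons (Pq.L [] 4 (Pf.C 4 257))
 (Pq.cons (Pq.L [] 7 (Pf.C 92 16640))
 (Pq.cons (Pq.L [] 4 (Pf.C 29 130))
 (Pq.cons (Pq.L [] 2 (Pf.C 22 256))
 (Pq.cons (Pq.L [] 2 (Pf.C 8 256))
 (Pq.cons (Pq.L [] 4 (Pf.C 3 257))
 (Pq.cons (Pq.L [] 2 (Pf.C 8 256))
 (Pq.cons (Pq.L [] 4 (Pf.C 2 257))
 (Pq.cons (Pq.L [] 4 (Pf.C 2 257))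
 Pq.nil)))))))))))) Pq.nil)))))))))))) (Pq.cons (Pq.D 1 (Pq.cons (Pq.L [] 1 (Pf.C 18 1))
 (Pq.cons (Pq.D 2 (Pq.cons (Pq.L [] 2 (Pf.C 18 2))
 (Pq.cons (Pq.L [] 4 (Pf.C 40 257))
 (Pq.cons (Pq.L [] 2 (Pf.C 4 256))
 (Pq.cons (Pq.L [] 7 (Pf.C 72 32769))
 (Pq.cons (Pq.L [] 2 (Pf.C 23 256))
 (Pq.cons (Pq.L [] 4 (Pf.C 22 257))
 (Pq.cons (Pq.L [] 4 (Pf.C 8 257))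
 (Pq.cons (Pq.L [] 2 (Pf.C 24 256))
 (Pq.cons (Pq.L [] 4 (Pf.C 8 257))
 (Pq.cons (Pq.L [] 2 (Pf.C 25 256))
 (Pq.cons (Pq.L [] 2 (Pf.C 4 256))
 Pq.nil)))))))))))) (Pq.cons (Pq.L [] 1 (Pf.C 4 128))
 (Pq.cons (Pq.D 2 (Pq.cons (Pq.L [] 2 (Pf.C 18 2))
 (Pq.cons (Pq.L [] 7 (Pf.C 72 16386))
 (Pq.cons (Pq.L [] 2 (Pf.C 4 256))
 (Pq.cons (Pq.L [] 4 (Pf.C 41 257))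
 (Pq.cons (Pq.L [] 2 (Pf.C 23 256))
 (Pq.cons (Pq.L [] 4 (Pf.C 26 257))
 (Pq.cons (Pq.L [] 7 (Pf.C 75 32896))
 (Pq.cons (Pq.L [] 2 (Pf.C 24 256))
 (Pq.cons (Pq.L [] 7 (Pf.C 94 32896))
 (Pq.cons (Pq.L [] 2 (Pf.C 25 256))
 (Pq.cons (Pq.L [] 2 (Pf.C 4 256))
 Pq.nil)))))))))))) (Pq.cons (Pq.L [] 1 (Pf.C 23 128))
 (Pq.cons (Pq.D 2 (Pq.cons (Pq.L [] 2 (Pf.C 18 2))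
 (Pq.cons (Pq.L [] 4 (Pf.C 22 130))
 (Pq.cons (Pq.L [] 2 (Pf.C 4 256))
 (Pq.cons (Pq.L [] 4 (Pf.C 26 130))
 (Pq.cons (Pq.L [] 2 (Pf.C 23 256))
 (Pq.cons (Pq.L [] 4 (Pf.C 12 257))
 (Pq.cons (Pq.L [] 7 (Pf.C 95 32896))
 (Pq.cons (Pq.L [] 2 (Pf.C 24 256))
 (Pq.cons (Pq.L [] 4 (Pf.C 30 257))
 (Pq.cons (Pq.L [] 2 (Pf.C 25 256))
 (Pq.cons (Pq.L [] 2 (Pf.C 4 256))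
 Pq.nil)))))))))))) (Pq.cons (Pq.D 2 (Pq.cons (Pq.L [] 2 (Pf.C 18 2))
 (Pq.cons (Pq.L [] 4 (Pf.C 8 130))
 (Pq.cons (Pq.L [] 2 (Pf.C 4 256))
 (Pq.cons (Pq.L [] 7 (Pf.C 75 16640))
 (Pq.cons (Pq.L [] 2 (Pf.C 23 256))
 (Pq.cons (Pq.L [] 7 (Pf.C 95 16640))
 (Pq.cons (Pq.L [] 4 (Pf.C 42 257))
 (Pq.cons (Pq.L [] 2 (Pf.C 24 256))
 (Pq.cons (Pq.L [] 4 (Pf.C 32 257))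
 (Pq.cons (Pq.L [] 2 (Pf.C 25 256))
 (Pq.cons (Pq.L [] 2 (Pf.C 4 256))
 Pq.nil)))))))))))) (Pq.cons (Pq.L [] 1 (Pf.C 24 128))
 (Pq.cons (Pq.D 2 (Pq.cons (Pq.L [] 2 (Pf.C 18 2))
 (Pq.cons (Pq.L [] 4 (Pf.C 8 130))
 (Pq.cons (Pq.L [] 2 (Pf.C 4 256))
 (Pq.cons (Pq.L [] 7 (Pf.C 94 16640))
 (Pq.cons (Pq.L [] 2 (Pf.C 23 256))
 (Pq.cons (Pq.L [] 4 (Pf.C 30 130))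
 (Pq.cons (Pq.L [] 4 (Pf.C 32 130))
 (Pq.cons (Pq.L [] 2 (Pf.C 24 256))
 (Pq.cons (Pq.L [] 4 (Pf.C 11 257))
 (Pq.cons (Pq.L [] 2 (Pf.C 25 256))
 (Pq.cons (Pq.L [] 2 (Pf.C 4 256))
 Pq.nil)))))))))))) (Pq.cons (Pq.L [] 1 (Pf.C 25 128))
 (Pq.cons (Pq.L [] 1 (Pf.C 4 128))
 Pq.nil)))))))))))) (Pq.cons (Pq.D 1 (Pq.cons (Pq.L [] 1 (Pf.C 7 128))
 (Pq.cons (Pq.D 2 (Pq.cons (Pq.L [] 2 (Pf.C 7 256))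
 (Pq.cons (Pq.L [] 4 (Pf.C 40 257))
 (Pq.cons (Pq.L [] 7 (Pf.C 72 257))
 (Pq.cons (Pq.L [] 2 (Pf.C 41 256))
 (Pq.cons (Pq.L [] 2 (Pf.C 7 256))
 (Pq.cons (Pq.L [] 2 (Pf.C 26 256))
 (Pq.cons (Pq.L [] 4 (Pf.C 8 257))
 (Pq.cons (Pq.L [] 7 (Pf.C 73 32769))
 (Pq.cons (Pq.L [] 4 (Pf.C 8 257))
 (Pq.cons (Pq.L [] 7 (Pf.C 74 32769))
 (Pq.cons (Pq.L [] 7 (Pf.C 92 32769))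
 Pq.nil)))))))))))) (Pq.cons (Pq.D 2 (Pq.cons (Pq.L [] 2 (Pf.C 7 256))
 (Pq.cons (Pq.L [] 7 (Pf.C 72 130))
 (Pq.cons (Pq.L [] 4 (Pf.C 4 257))
 (Pq.cons (Pq.L [] 2 (Pf.C 41 256))
 (Pq.cons (Pq.L [] 2 (Pf.C 7 256))
 (Pq.cons (Pq.L [] 2 (Pf.C 26 256))
 (Pq.cons (Pq.L [] 7 (Pf.C 75 32769))
 (Pq.cons (Pq.L [] 4 (Pf.C 24 257))
 (Pq.cons (Pq.L [] 7 (Pf.C 94 32769))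
 (Pq.cons (Pq.L [] 4 (Pf.C 25 257))
 (Pq.cons (Pq.L [] 4 (Pf.C 4 257))
 Pq.nil)))))))))))) (Pq.cons (Pq.L [] 1 (Pf.C 41 128))
 (Pq.cons (Pq.L [] 1 (Pf.C 7 128))
 (Pq.cons (Pq.L [] 1 (Pf.C 26 128))
 (Pq.cons (Pq.D 2 (Pq.cons (Pq.L [] 2 (Pf.C 7 256))
 (Pq.cons (Pq.L [] 4 (Pf.C 8 130))
 (Pq.cons (Pq.L [] 7 (Pf.C 75 16386))
 (Pq.cons (Pq.L [] 2 (Pf.C 41 256))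
 (Pq.cons (Pq.L [] 2 (Pf.C 7 256))
 (Pq.cons (Pq.L [] 2 (Pf.C 26 256))
 (Pq.cons (Pq.L [] 4 (Pf.C 42 257))
 (Pq.cons (Pq.L [] 0 (Pf.C 31 257))
 (Pq.cons (Pq.L [] 4 (Pf.C 32 257))
 (Pq.cons (Pq.L [] 4 (Pf.C 33 257))
 (Pq.cons (Pq.L [] 4 (Pf.C 34 257))
 Pq.nil)))))))))))) (Pq.cons (Pq.D 2 (Pq.cons (Pq.L [] 2 (Pf.C 7 256))
 (Pq.cons (Pq.L [] 7 (Pf.C 73 16386))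
 (Pq.cons (Pq.L [] 4 (Pf.C 24 130))
 (Pq.cons (Pq.L [] 2 (Pf.C 41 256))
 (Pq.cons (Pq.L [] 2 (Pf.C 7 256))
 (Pq.cons (Pq.L [] 2 (Pf.C 26 256))
 (Pq.cons (Pq.L [] 0 (Pf.C 31 130))
 (Pq.cons (Pq.L [] 4 (Pf.C 3 257))
 (Pq.cons (Pq.L [] 4 (Pf.C 35 257))
 (Pq.cons (Pq.L [] 4 (Pf.C 36 257))
 (Pq.cons (Pq.L [] 4 (Pf.C 3 257))
 Pq.nil)))))))))))) (Pq.cons (Pq.D 2 (Pq.cons (Pq.L [] 2 (Pf.C 7 256))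
 (Pq.cons (Pq.L [] 4 (Pf.C 8 130))
 (Pq.cons (Pq.L [] 7 (Pf.C 94 16386))
 (Pq.cons (Pq.L [] 2 (Pf.C 41 256))
 (Pq.cons (Pq.L [] 2 (Pf.C 7 256))
 (Pq.cons (Pq.L [] 2 (Pf.C 26 256))
 (Pq.cons (Pq.L [] 4 (Pf.C 32 130))
 (Pq.cons (Pq.L [] 4 (Pf.C 35 130))
 (Pq.cons (Pq.L [] 4 (Pf.C 11 257))
 (Pq.cons (Pq.L [] 4 (Pf.C 37 257))
 (Pq.cons (Pq.L [] 4 (Pf.C 38 257))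
 Pq.nil)))))))))))) (Pq.cons (Pq.D 2 (Pq.cons (Pq.L [] 2 (Pf.C 7 256))
 (Pq.cons (Pq.L [] 7 (Pf.C 74 16386))
 (Pq.cons (Pq.L [] 4 (Pf.C 25 130))
 (Pq.cons (Pq.L [] 2 (Pf.C 41 256))
 (Pq.cons (Pq.L [] 2 (Pf.C 7 256))
 (Pq.cons (Pq.L [] 2 (Pf.C 26 256))
 (Pq.cons (Pq.L [] 4 (Pf.C 33 130))
 (Pq.cons (Pq.L [] 4 (Pf.C 36 130))
 (Pq.cons (Pq.L [] 4 (Pf.C 37 130))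
 (Pq.cons (Pq.L [] 4 (Pf.C 2 257))
 (Pq.cons (Pq.L [] 4 (Pf.C 2 257))
 Pq.nil)))))))))))) (Pq.cons (Pq.D 2 (Pq.cons (Pq.L [] 2 (Pf.C 7 256))
 (Pq.cons (Pq.L [] 7 (Pf.C 92 16386))
 (Pq.cons (Pq.L [] 4 (Pf.C 4 257))
 (Pq.cons (Pq.L [] 2 (Pf.C 41 256))
 (Pq.cons (Pq.L [] 2 (Pf.C 7 256))
 (Pq.cons (Pq.L [] 2 (Pf.C 26 256))
 (Pq.cons (Pq.L [] 4 (Pf.C 34 130))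
 (Pq.cons (Pq.L [] 4 (Pf.C 3 257))
 (Pq.cons (Pq.L [] 4 (Pf.C 38 130))
 (Pq.cons (Pq.L [] 4 (Pf.C 2 257))
 (Pq.cons (Pq.L [] 4 (Pf.C 2 257))
 Pq.nil)))))))))))) Pq.nil)))))))))))) Pq.nil))))
theorem f2_o0 : AllRef f2_T f2_G8 (List.take 4 (List.flatMap (splitP 0) [⟨[[1,2,3,4,5,6,7,8,9,10,11],[1,2,3,4,5,6,7,8,9,10,11],[1,2,3,4,5,6,7,8,9,10,11]],[⟨0,1,true⟩,⟨0,2,true⟩,⟨1,2,true⟩],[],[]⟩])) :=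
  chkPq_sound f2_o0c _ (by decide +kernel)
noncomputable def f2_o1c : Pq := (Pq.cons (Pq.D 1 (Pq.cons (Pq.L [] 1 (Pf.C 19 1))
 (Pq.cons (Pq.D 2 (Pq.cons (Pq.L [] 2 (Pf.C 19 2))
 (Pq.cons (Pq.L [] 4 (Pf.C 40 257))
 (Pq.cons (Pq.L [] 2 (Pf.C 23 2))
 (Pq.cons (Pq.L [] 2 (Pf.C 7 2))
 (Pq.cons (Pq.L [] 2 (Pf.C 13 256))
 (Pq.cons (Pq.L [] 2 (Pf.C 27 256))
 (Pq.cons (Pq.L [] 4 (Pf.C 8 257))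
 (Pq.cons (Pq.L [] 2 (Pf.C 28 256))
 (Pq.cons (Pq.L [] 4 (Pf.C 8 257))
 (Pq.cons (Pq.L [] 7 (Pf.C 93 32769))
 (Pq.cons (Pq.L [] 2 (Pf.C 29 256))
 Pq.nil)))))))))))) (Pq.cons (Pq.L [] 1 (Pf.C 23 1))
 (Pq.cons (Pq.L [] 1 (Pf.C 7 1))
 (Pq.cons (Pq.L [] 1 (Pf.C 13 128))
 (Pq.cons (Pq.L [] 1 (Pf.C 27 128))
 (Pq.cons (Pq.D 2 (Pq.cons (Pq.L [] 2 (Pf.C 19 2))
 (Pq.cons (Pq.L [] 4 (Pf.C 8 130))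
 (Pq.cons (Pq.L [] 2 (Pf.C 23 2))
 (Pq.cons (Pq.L [] 2 (Pf.C 7 2))
 (Pq.cons (Pq.L [] 2 (Pf.C 13 256))
 (Pq.cons (Pq.L [] 2 (Pf.C 27 256))
 (Pq.cons (Pq.L [] 4 (Pf.C 42 257))
 (Pq.cons (Pq.L [] 2 (Pf.C 28 256))
 (Pq.cons (Pq.L [] 4 (Pf.C 32 257))
 (Pq.cons (Pq.L [] 4 (Pf.C 33 257))
 (Pq.cons (Pq.L [] 2 (Pf.C 29 256))
 Pq.nil)))))))))))) (Pq.cons (Pq.L [] 1 (Pf.C 28 128))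
 (Pq.cons (Pq.D 2 (Pq.cons (Pq.L [] 2 (Pf.C 19 2))
 (Pq.cons (Pq.L [] 4 (Pf.C 8 130))
 (Pq.cons (Pq.L [] 2 (Pf.C 23 2))
 (Pq.cons (Pq.L [] 2 (Pf.C 7 2))
 (Pq.cons (Pq.L [] 2 (Pf.C 13 256))
 (Pq.cons (Pq.L [] 2 (Pf.C 27 256))
 (Pq.cons (Pq.L [] 4 (Pf.C 32 130))
 (Pq.cons (Pq.L [] 2 (Pf.C 28 256))
 (Pq.cons (Pq.L [] 4 (Pf.C 11 257))
 (Pq.cons (Pq.L [] 4 (Pf.C 37 257))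
 (Pq.cons (Pq.L [] 2 (Pf.C 29 256))
 Pq.nil)))))))))))) (Pq.cons (Pq.D 2 (Pq.cons (Pq.L [] 2 (Pf.C 19 2))
 (Pq.cons (Pq.L [] 7 (Pf.C 93 16386))
 (Pq.cons (Pq.L [] 2 (Pf.C 23 2))
 (Pq.cons (Pq.L [] 2 (Pf.C 7 2))
 (Pq.cons (Pq.L [] 2 (Pf.C 13 256))
 (Pq.cons (Pq.L [] 2 (Pf.C 27 256))
 (Pq.cons (Pq.L [] 4 (Pf.C 33 130))
 (Pq.cons (Pq.L [] 2 (Pf.C 28 256))
 (Pq.cons (Pq.L [] 4 (Pf.C 37 130))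
 (Pq.cons (Pq.L [] 4 (Pf.C 2 257))
 (Pq.cons (Pq.L [] 2 (Pf.C 29 256))
 Pq.nil)))))))))))) (Pq.cons (Pq.L [] 1 (Pf.C 29 128))
 Pq.nil)))))))))))) (Pq.cons (Pq.D 1 (Pq.cons (Pq.D 2 (Pq.cons (Pq.L [] 4 (Pf.C 39 257))
 (Pq.cons (Pq.L [] 2 (Pf.C 22 2))
 (Pq.cons (Pq.L [] 4 (Pf.C 18 257))
 (Pq.cons (Pq.L [] 2 (Pf.C 26 2))
 (Pq.cons (Pq.L [] 2 (Pf.C 27 2))
 (Pq.cons (Pq.L [] 2 (Pf.C 12 256))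
 (Pq.cons (Pq.L [] 7 (Pf.C 71 32769))
 (Pq.cons (Pq.L [] 0 (Pf.C 20 257))
 (Pq.cons (Pq.L [] 2 (Pf.C 30 256))
 (Pq.cons (Pq.L [] 7 (Pf.C 91 32769))
 (Pq.cons (Pq.L [] 4 (Pf.C 21 257))
 Pq.nil)))))))))))) (Pq.cons (Pq.L [] 1 (Pf.C 22 1))
 (Pq.cons (Pq.D 2 (Pq.cons (Pq.L [] 4 (Pf.C 18 130))
 (Pq.cons (Pq.L [] 2 (Pf.C 22 2))
 (Pq.cons (Pq.L [] 4 (Pf.C 4 257))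
 (Pq.cons (Pq.L [] 2 (Pf.C 26 2))
 (Pq.cons (Pq.L [] 2 (Pf.C 27 2))
 (Pq.cons (Pq.L [] 2 (Pf.C 12 256))
 (Pq.cons (Pq.L [] 7 (Pf.C 95 32769))
 (Pq.cons (Pq.L [] 4 (Pf.C 24 257))
 (Pq.cons (Pq.L [] 2 (Pf.C 30 256))
 (Pq.cons (Pq.L [] 4 (Pf.C 25 257))
 (Pq.cons (Pq.L [] 4 (Pf.C 4 257))
 Pq.nil)))))))))))) (Pq.cons (Pq.L [] 1 (Pf.C 26 1))
 (Pq.cons (Pq.L [] 1 (Pf.C 27 1))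
 (Pq.cons (Pq.L [] 1 (Pf.C 12 128))
 (Pq.cons (Pq.D 2 (Pq.cons (Pq.L [] 7 (Pf.C 71 16386))
 (Pq.cons (Pq.L [] 2 (Pf.C 22 2))
 (Pq.cons (Pq.L [] 7 (Pf.C 95 16386))
 (Pq.cons (Pq.L [] 2 (Pf.C 26 2))
 (Pq.cons (Pq.L [] 2 (Pf.C 27 2))
 (Pq.cons (Pq.L [] 2 (Pf.C 12 256))
 (Pq.cons (Pq.L [] 4 (Pf.C 42 257))
 (Pq.cons (Pq.L [] 0 (Pf.C 31 257))
 (Pq.cons (Pq.L [] 2 (Pf.C 30 256))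
 (Pq.cons (Pq.L [] 4 (Pf.C 33 257))
 (Pq.cons (Pq.L [] 4 (Pf.C 34 257))
 Pq.nil)))))))))))) (Pq.cons (Pq.D 2 (Pq.cons (Pq.L [] 0 (Pf.C 20 130))
 (Pq.cons (Pq.L [] 2 (Pf.C 22 2))
 (Pq.cons (Pq.L [] 4 (Pf.C 24 130))
 (Pq.cons (Pq.L [] 2 (Pf.C 26 2))
 (Pq.cons (Pq.L [] 2 (Pf.C 27 2))
 (Pq.cons (Pq.L [] 2 (Pf.C 12 256))
 (Pq.cons (Pq.L [] 0 (Pf.C 31 130))
 (Pq.cons (Pq.L [] 4 (Pf.C 3 257))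
 (Pq.cons (Pq.L [] 2 (Pf.C 30 256))
 (Pq.cons (Pq.L [] 4 (Pf.C 36 257))
 (Pq.cons (Pq.L [] 4 (Pf.C 3 257))
 Pq.nil)))))))))))) (Pq.cons (Pq.L [] 1 (Pf.C 30 128))
 (Pq.cons (Pq.D 2 (Pq.cons (Pq.L [] 7 (Pf.C 91 16386))
 (Pq.cons (Pq.L [] 2 (Pf.C 22 2))
 (Pq.cons (Pq.L [] 4 (Pf.C 25 130))
 (Pq.cons (Pq.L [] 2 (Pf.C 26 2))
 (Pq.cons (Pq.L [] 2 (Pf.C 27 2))
 (Pq.cons (Pq.L [] 2 (Pf.C 12 256))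
 (Pq.cons (Pq.L [] 4 (Pf.C 33 130))
 (Pq.cons (Pq.L [] 4 (Pf.C 36 130))
 (Pq.cons (Pq.L [] 2 (Pf.C 30 256))
 (Pq.cons (Pq.L [] 4 (Pf.C 2 257))
 (Pq.cons (Pq.L [] 4 (Pf.C 2 257))
 Pq.nil)))))))))))) (Pq.cons (Pq.D 2 (Pq.cons (Pq.L [] 4 (Pf.C 21 130))
 (Pq.cons (Pq.L [] 2 (Pf.C 22 2))
 (Pq.cons (Pq.L [] 4 (Pf.C 4 257))
 (Pq.cons (Pq.L [] 2 (Pf.C 26 2))
 (Pq.cons (Pq.L [] 2 (Pf.C 27 2))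
 (Pq.cons (Pq.L [] 2 (Pf.C 12 256))
 (Pq.cons (Pq.L [] 4 (Pf.C 34 130))
 (Pq.cons (Pq.L [] 4 (Pf.C 3 257))
 (Pq.cons (Pq.L [] 2 (Pf.C 30 256))
 (Pq.cons (Pq.L [] 4 (Pf.C 2 257))
 (Pq.cons (Pq.L [] 4 (Pf.C 2 257))
 Pq.nil)))))))))))) Pq.nil)))))))))))) (Pq.cons (Pq.D 1 (Pq.cons (Pq.D 2 (Pq.cons (Pq.L [] 4 (Pf.C 39 257))
 (Pq.cons (Pq.L [] 2 (Pf.C 8 2))
 (Pq.cons (Pq.L [] 4 (Pf.C 18 257))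
 (Pq.cons (Pq.L [] 4 (Pf.C 7 130))
 (Pq.cons (Pq.L [] 4 (Pf.C 19 257))
 (Pq.cons (Pq.L [] 7 (Pf.C 71 257))
 (Pq.cons (Pq.L [] 2 (Pf.C 42 256))
 (Pq.cons (Pq.L [] 0 (Pf.C 31 256))
 (Pq.cons (Pq.L [] 2 (Pf.C 32 256))
 (Pq.cons (Pq.L [] 2 (Pf.C 33 256))
 (Pq.cons (Pq.L [] 2 (Pf.C 34 256))
 Pq.nil)))))))))))) (Pq.cons (Pq.L [] 1 (Pf.C 8 1))
 (Pq.cons (Pq.D 2 (Pq.cons (Pq.L [] 4 (Pf.C 18 130))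
 (Pq.cons (Pq.L [] 2 (Pf.C 8 2))
 (Pq.cons (Pq.L [] 4 (Pf.C 4 257))
 (Pq.cons (Pq.L [] 7 (Pf.C 75 257))
 (Pq.cons (Pq.L [] 4 (Pf.C 23 257))
 (Pq.cons (Pq.L [] 7 (Pf.C 95 257))
 (Pq.cons (Pq.L [] 2 (Pf.C 42 256))
 (Pq.cons (Pq.L [] 0 (Pf.C 31 256))
 (Pq.cons (Pq.L [] 2 (Pf.C 32 256))
 (Pq.cons (Pq.L [] 2 (Pf.C 33 256))
 (Pq.cons (Pq.L [] 2 (Pf.C 34 256))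
 Pq.nil)))))))))))) (Pq.cons (Pq.D 2 (Pq.cons (Pq.L [] 4 (Pf.C 7 257))
 (Pq.cons (Pq.L [] 2 (Pf.C 8 2))
 (Pq.cons (Pq.L [] 7 (Pf.C 75 130))
 (Pq.cons (Pq.L [] 4 (Pf.C 41 257))
 (Pq.cons (Pq.L [] 4 (Pf.C 7 257))
 (Pq.cons (Pq.L [] 4 (Pf.C 26 257))
 (Pq.cons (Pq.L [] 2 (Pf.C 42 256))
 (Pq.cons (Pq.L [] 0 (Pf.C 31 256))
 (Pq.cons (Pq.L [] 2 (Pf.C 32 256))
 (Pq.cons (Pq.L [] 2 (Pf.C 33 256))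
 (Pq.cons (Pq.L [] 2 (Pf.C 34 256))
 Pq.nil)))))))))))) (Pq.cons (Pq.D 2 (Pq.cons (Pq.L [] 4 (Pf.C 19 130))
 (Pq.cons (Pq.L [] 2 (Pf.C 8 2))
 (Pq.cons (Pq.L [] 4 (Pf.C 23 130))
 (Pq.cons (Pq.L [] 4 (Pf.C 7 130))
 (Pq.cons (Pq.L [] 4 (Pf.C 13 257))
 (Pq.cons (Pq.L [] 4 (Pf.C 27 257))
 (Pq.cons (Pq.L [] 2 (Pf.C 42 256))
 (Pq.cons (Pq.L [] 0 (Pf.C 31 256))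
 (Pq.cons (Pq.L [] 2 (Pf.C 32 256))
 (Pq.cons (Pq.L [] 2 (Pf.C 33 256))
 (Pq.cons (Pq.L [] 2 (Pf.C 34 256))
 Pq.nil)))))))))))) (Pq.cons (Pq.D 2 (Pq.cons (Pq.L [] 7 (Pf.C 71 130))
 (Pq.cons (Pq.L [] 2 (Pf.C 8 2))
 (Pq.cons (Pq.L [] 7 (Pf.C 95 130))
 (Pq.cons (Pq.L [] 4 (Pf.C 26 130))
 (Pq.cons (Pq.L [] 4 (Pf.C 27 130))
 (Pq.cons (Pq.L [] 4 (Pf.C 12 257))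
 (Pq.cons (Pq.L [] 2 (Pf.C 42 256))
 (Pq.cons (Pq.L [] 0 (Pf.C 31 256))
 (Pq.cons (Pq.L [] 2 (Pf.C 32 256))
 (Pq.cons (Pq.L [] 2 (Pf.C 33 256))
 (Pq.cons (Pq.L [] 2 (Pf.C 34 256))
 Pq.nil)))))))))))) (Pq.cons (Pq.L [] 1 (Pf.C 42 128))
 (Pq.cons (Pq.L [] 0 (Pf.C 31 128))
 (Pq.cons (Pq.L [] 1 (Pf.C 32 128))
 (Pq.cons (Pq.L [] 1 (Pf.C 33 128))
 (Pq.cons (Pq.L [] 1 (Pf.C 34 128))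
 Pq.nil)))))))))))) (Pq.cons (Pq.D 1 (Pq.cons (Pq.L [] 0 (Pf.C 20 1))
 (Pq.cons (Pq.D 2 (Pq.cons (Pq.L [] 0 (Pf.C 20 2))
 (Pq.cons (Pq.L [] 4 (Pf.C 40 257))
 (Pq.cons (Pq.L [] 2 (Pf.C 24 2))
 (Pq.cons (Pq.L [] 7 (Pf.C 73 257))
 (Pq.cons (Pq.L [] 2 (Pf.C 28 2))
 (Pq.cons (Pq.L [] 4 (Pf.C 22 257))
 (Pq.cons (Pq.L [] 0 (Pf.C 31 2))
 (Pq.cons (Pq.L [] 2 (Pf.C 3 256))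
 (Pq.cons (Pq.L [] 2 (Pf.C 35 256))
 (Pq.cons (Pq.L [] 2 (Pf.C 36 256))
 (Pq.cons (Pq.L [] 2 (Pf.C 3 256))
 Pq.nil)))))))))))) (Pq.cons (Pq.L [] 1 (Pf.C 24 1))
 (Pq.cons (Pq.D 2 (Pq.cons (Pq.L [] 0 (Pf.C 20 2))
 (Pq.cons (Pq.L [] 7 (Pf.C 73 130))
 (Pq.cons (Pq.L [] 2 (Pf.C 24 2))
 (Pq.cons (Pq.L [] 4 (Pf.C 41 257))
 (Pq.cons (Pq.L [] 2 (Pf.C 28 2))
 (Pq.cons (Pq.L [] 4 (Pf.C 26 257))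
 (Pq.cons (Pq.L [] 0 (Pf.C 31 2))
 (Pq.cons (Pq.L [] 2 (Pf.C 3 256))
 (Pq.cons (Pq.L [] 2 (Pf.C 35 256))
 (Pq.cons (Pq.L [] 2 (Pf.C 36 256))
 (Pq.cons (Pq.L [] 2 (Pf.C 3 256))
 Pq.nil)))))))))))) (Pq.cons (Pq.L [] 1 (Pf.C 28 1))
 (Pq.cons (Pq.D 2 (Pq.cons (Pq.L [] 0 (Pf.C 20 2))
 (Pq.cons (Pq.L [] 4 (Pf.C 22 130))
 (Pq.cons (Pq.L [] 2 (Pf.C 24 2))
 (Pq.cons (Pq.L [] 4 (Pf.C 26 130))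
 (Pq.cons (Pq.L [] 2 (Pf.C 28 2))
 (Pq.cons (Pq.L [] 4 (Pf.C 12 257))
 (Pq.cons (Pq.L [] 0 (Pf.C 31 2))
 (Pq.cons (Pq.L [] 2 (Pf.C 3 256))
 (Pq.cons (Pq.L [] 2 (Pf.C 35 256))
 (Pq.cons (Pq.L [] 2 (Pf.C 36 256))
 (Pq.cons (Pq.L [] 2 (Pf.C 3 256))
 Pq.nil)))))))))))) (Pq.cons (Pq.L [] 0 (Pf.C 31 1))
 (Pq.cons (Pq.L [] 1 (Pf.C 3 128))
 (Pq.cons (Pq.L [] 1 (Pf.C 35 128))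
 (Pq.cons (Pq.L [] 1 (Pf.C 36 128))
 (Pq.cons (Pq.L [] 1 (Pf.C 3 128))
 Pq.nil)))))))))))) (Pq.cons (Pq.D 1 (Pq.cons (Pq.D 2 (Pq.cons (Pq.L [] 4 (Pf.C 39 257))
 (Pq.cons (Pq.L [] 2 (Pf.C 8 2))
 (Pq.cons (Pq.L [] 4 (Pf.C 18 257))
 (Pq.cons (Pq.L [] 4 (Pf.C 7 130))
 (Pq.cons (Pq.L [] 4 (Pf.C 19 257))
 (Pq.cons (Pq.L [] 2 (Pf.C 30 2))
 (Pq.cons (Pq.L [] 2 (Pf.C 32 2))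
 (Pq.cons (Pq.L [] 2 (Pf.C 35 2))
 (Pq.cons (Pq.L [] 2 (Pf.C 11 256))
 (Pq.cons (Pq.L [] 2 (Pf.C 37 256))
 (Pq.cons (Pq.L [] 2 (Pf.C 38 256))
 Pq.nil)))))))))))) (Pq.cons (Pq.L [] 1 (Pf.C 8 1))
 (Pq.cons (Pq.D 2 (Pq.cons (Pq.L [] 4 (Pf.C 18 130))
 (Pq.cons (Pq.L [] 2 (Pf.C 8 2))
 (Pq.cons (Pq.L [] 4 (Pf.C 4 257))
 (Pq.cons (Pq.L [] 7 (Pf.C 94 257))
 (Pq.cons (Pq.L [] 4 (Pf.C 23 257))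
 (Pq.cons (Pq.L [] 2 (Pf.C 30 2))
 (Pq.cons (Pq.L [] 2 (Pf.C 32 2))
 (Pq.cons (Pq.L [] 2 (Pf.C 35 2))
 (Pq.cons (Pq.L [] 2 (Pf.C 11 256))
 (Pq.cons (Pq.L [] 2 (Pf.C 37 256))
 (Pq.cons (Pq.L [] 2 (Pf.C 38 256))
 Pq.nil)))))))))))) (Pq.cons (Pq.D 2 (Pq.cons (Pq.L [] 4 (Pf.C 7 257))
 (Pq.cons (Pq.L [] 2 (Pf.C 8 2))
 (Pq.cons (Pq.L [] 7 (Pf.C 94 130))
 (Pq.cons (Pq.L [] 4 (Pf.C 41 257))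
 (Pq.cons (Pq.L [] 4 (Pf.C 7 257))
 (Pq.cons (Pq.L [] 2 (Pf.C 30 2))
 (Pq.cons (Pq.L [] 2 (Pf.C 32 2))
 (Pq.cons (Pq.L [] 2 (Pf.C 35 2))
 (Pq.cons (Pq.L [] 2 (Pf.C 11 256))
 (Pq.cons (Pq.L [] 2 (Pf.C 37 256))
 (Pq.cons (Pq.L [] 2 (Pf.C 38 256))
 Pq.nil)))))))))))) (Pq.cons (Pq.D 2 (Pq.cons (Pq.L [] 4 (Pf.C 19 130))
 (Pq.cons (Pq.L [] 2 (Pf.C 8 2))
 (Pq.cons (Pq.L [] 4 (Pf.C 23 130))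
 (Pq.cons (Pq.L [] 4 (Pf.C 7 130))
 (Pq.cons (Pq.L [] 4 (Pf.C 13 257))
 (Pq.cons (Pq.L [] 2 (Pf.C 30 2))
 (Pq.cons (Pq.L [] 2 (Pf.C 32 2))
 (Pq.cons (Pq.L [] 2 (Pf.C 35 2))
 (Pq.cons (Pq.L [] 2 (Pf.C 11 256))
 (Pq.cons (Pq.L [] 2 (Pf.C 37 256))
 (Pq.cons (Pq.L [] 2 (Pf.C 38 256))
 Pq.nil)))))))))))) (Pq.cons (Pq.L [] 1 (Pf.C 30 1))
 (Pq.cons (Pq.L [] 1 (Pf.C 32 1))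
 (Pq.cons (Pq.L [] 1 (Pf.C 35 1))
 (Pq.cons (Pq.L [] 1 (Pf.C 11 128))
 (Pq.cons (Pq.L [] 1 (Pf.C 37 128))
 (Pq.cons (Pq.L [] 1 (Pf.C 38 128))
 Pq.nil)))))))))))) (Pq.cons (Pq.D 1 (Pq.cons (Pq.D 2 (Pq.cons (Pq.L [] 4 (Pf.C 39 257))
 (Pq.cons (Pq.L [] 7 (Pf.C 70 257))
 (Pq.cons (Pq.L [] 2 (Pf.C 25 2))
 (Pq.cons (Pq.L [] 4 (Pf.C 7 130))
 (Pq.cons (Pq.L [] 4 (Pf.C 19 257))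
 (Pq.cons (Pq.L [] 7 (Pf.C 91 257))
 (Pq.cons (Pq.L [] 2 (Pf.C 33 2))
 (Pq.cons (Pq.L [] 2 (Pf.C 36 2))
 (Pq.cons (Pq.L [] 2 (Pf.C 37 2))
 (Pq.cons (Pq.L [] 2 (Pf.C 2 256))
 (Pq.cons (Pq.L [] 2 (Pf.C 2 256))
 Pq.nil)))))))))))) (Pq.cons (Pq.D 2 (Pq.cons (Pq.L [] 7 (Pf.C 70 130))
 (Pq.cons (Pq.L [] 4 (Pf.C 40 257))
 (Pq.cons (Pq.L [] 2 (Pf.C 25 2))
 (Pq.cons (Pq.L [] 7 (Pf.C 74 257))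
 (Pq.cons (Pq.L [] 7 (Pf.C 93 257))
 (Pq.cons (Pq.L [] 4 (Pf.C 22 257))
 (Pq.cons (Pq.L [] 2 (Pf.C 33 2))
 (Pq.cons (Pq.L [] 2 (Pf.C 36 2))
 (Pq.cons (Pq.L [] 2 (Pf.C 37 2))
 (Pq.cons (Pq.L [] 2 (Pf.C 2 256))
 (Pq.cons (Pq.L [] 2 (Pf.C 2 256))
 Pq.nil)))))))))))) (Pq.cons (Pq.L [] 1 (Pf.C 25 1))
 (Pq.cons (Pq.D 2 (Pq.cons (Pq.L [] 4 (Pf.C 7 257))
 (Pq.cons (Pq.L [] 7 (Pf.C 74 130))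
 (Pq.cons (Pq.L [] 2 (Pf.C 25 2))
 (Pq.cons (Pq.L [] 4 (Pf.C 41 257))
 (Pq.cons (Pq.L [] 4 (Pf.C 7 257))
 (Pq.cons (Pq.L [] 4 (Pf.C 26 257))
 (Pq.cons (Pq.L [] 2 (Pf.C 33 2))
 (Pq.cons (Pq.L [] 2 (Pf.C 36 2))
 (Pq.cons (Pq.L [] 2 (Pf.C 37 2))
 (Pq.cons (Pq.L [] 2 (Pf.C 2 256))
 (Pq.cons (Pq.L [] 2 (Pf.C 2 256))
 Pq.nil)))))))))))) (Pq.cons (Pq.D 2 (Pq.cons (Pq.L [] 4 (Pf.C 19 130))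
 (Pq.cons (Pq.L [] 7 (Pf.C 93 130))
 (Pq.cons (Pq.L [] 2 (Pf.C 25 2))
 (Pq.cons (Pq.L [] 4 (Pf.C 7 130))
 (Pq.cons (Pq.L [] 4 (Pf.C 13 257))
 (Pq.cons (Pq.L [] 4 (Pf.C 27 257))
 (Pq.cons (Pq.L [] 2 (Pf.C 33 2))
 (Pq.cons (Pq.L [] 2 (Pf.C 36 2))
 (Pq.cons (Pq.L [] 2 (Pf.C 37 2))
 (Pq.cons (Pq.L [] 2 (Pf.C 2 256))
 (Pq.cons (Pq.L [] 2 (Pf.C 2 256))
 Pq.nil)))))))))))) (Pq.cons (Pq.D 2 (Pq.cons (Pq.L [] 7 (Pf.C 91 130))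
 (Pq.cons (Pq.L [] 4 (Pf.C 22 130))
 (Pq.cons (Pq.L [] 2 (Pf.C 25 2))
 (Pq.cons (Pq.L [] 4 (Pf.C 26 130))
 (Pq.cons (Pq.L [] 4 (Pf.C 27 130))
 (Pq.cons (Pq.L [] 4 (Pf.C 12 257))
 (Pq.cons (Pq.L [] 2 (Pf.C 33 2))
 (Pq.cons (Pq.L [] 2 (Pf.C 36 2))
 (Pq.cons (Pq.L [] 2 (Pf.C 37 2))
 (Pq.cons (Pq.L [] 2 (Pf.C 2 256))
 (Pq.cons (Pq.L [] 2 (Pf.C 2 256))
 Pq.nil)))))))))))) (Pq.cons (Pq.L [] 1 (Pf.C 33 1))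
 (Pq.cons (Pq.L [] 1 (Pf.C 36 1))
 (Pq.cons (Pq.L [] 1 (Pf.C 37 1))
 (Pq.cons (Pq.L [] 1 (Pf.C 2 128))
 (Pq.cons (Pq.L [] 1 (Pf.C 2 128))
 Pq.nil)))))))))))) (Pq.cons (Pq.D 1 (Pq.cons (Pq.L [] 1 (Pf.C 21 1))
 (Pq.cons (Pq.D 2 (Pq.cons (Pq.L [] 2 (Pf.C 21 2))
 (Pq.cons (Pq.L [] 4 (Pf.C 40 257))
 (Pq.cons (Pq.L [] 2 (Pf.C 4 256))
 (Pq.cons (Pq.L [] 7 (Pf.C 92 257))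
 (Pq.cons (Pq.L [] 2 (Pf.C 29 2))
 (Pq.cons (Pq.L [] 4 (Pf.C 22 257))
 (Pq.cons (Pq.L [] 2 (Pf.C 34 2))
 (Pq.cons (Pq.L [] 2 (Pf.C 3 256))
 (Pq.cons (Pq.L [] 2 (Pf.C 38 2))
 (Pq.cons (Pq.L [] 2 (Pf.C 2 256))
 (Pq.cons (Pq.L [] 2 (Pf.C 2 256))
 Pq.nil)))))))))))) (Pq.cons (Pq.L [] 1 (Pf.C 4 128))
 (Pq.cons (Pq.D 2 (Pq.cons (Pq.L [] 2 (Pf.C 21 2))
 (Pq.cons (Pq.L [] 7 (Pf.C 92 130))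
 (Pq.cons (Pq.L [] 2 (Pf.C 4 256))
 (Pq.cons (Pq.L [] 4 (Pf.C 41 257))
 (Pq.cons (Pq.L [] 2 (Pf.C 29 2))
 (Pq.cons (Pq.L [] 4 (Pf.C 26 257))
 (Pq.cons (Pq.L [] 2 (Pf.C 34 2))
 (Pq.cons (Pq.L [] 2 (Pf.C 3 256))
 (Pq.cons (Pq.L [] 2 (Pf.C 38 2))
 (Pq.cons (Pq.L [] 2 (Pf.C 2 256))
 (Pq.cons (Pq.L [] 2 (Pf.C 2 256))
 Pq.nil)))))))))))) (Pq.cons (Pq.L [] 1 (Pf.C 29 1))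
 (Pq.cons (Pq.D 2 (Pq.cons (Pq.L [] 2 (Pf.C 21 2))
 (Pq.cons (Pq.L [] 4 (Pf.C 22 130))
 (Pq.cons (Pq.L [] 2 (Pf.C 4 256))
 (Pq.cons (Pq.L [] 4 (Pf.C 26 130))
 (Pq.cons (Pq.L [] 2 (Pf.C 29 2))
 (Pq.cons (Pq.L [] 4 (Pf.C 12 257))
 (Pq.cons (Pq.L [] 2 (Pf.C 34 2))
 (Pq.cons (Pq.L [] 2 (Pf.C 3 256))
 (Pq.cons (Pq.L [] 2 (Pf.C 38 2))
 (Pq.cons (Pq.L [] 2 (Pf.C 2 256))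
 (Pq.cons (Pq.L [] 2 (Pf.C 2 256))
 Pq.nil)))))))))))) (Pq.cons (Pq.L [] 1 (Pf.C 34 1))
 (Pq.cons (Pq.L [] 1 (Pf.C 3 128))
 (Pq.cons (Pq.L [] 1 (Pf.C 38 1))
 (Pq.cons (Pq.L [] 1 (Pf.C 2 128))
 (Pq.cons (Pq.L [] 1 (Pf.C 2 128))
 Pq.nil)))))))))))) Pq.nil)))))))
theorem f2_o1 : AllRef f2_T f2_G8 (List.drop 4 (List.flatMap (splitP 0) [⟨[[1,2,3,4,5,6,7,8,9,10,11],[1,2,3,4,5,6,7,8,9,10,11],[1,2,3,4,5,6,7,8,9,10,11]],[⟨0,1,true⟩,⟨0,2,true⟩,⟨1,2,true⟩],[],[]⟩])) :=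
  chkPq_sound f2_o1c _ (by decide +kernel)
noncomputable def f2_o2c : Pq := (Pq.cons (Pq.D 1 (Pq.cons (Pq.L [] 1 (Pf.C 39 128))
 (Pq.cons (Pq.D 2 (Pq.cons (Pq.L [] 2 (Pf.C 39 256))
 (Pq.cons (Pq.L [] 4 (Pf.C 40 257))
 (Pq.cons (Pq.L [] 2 (Pf.C 18 256))
 (Pq.cons (Pq.L [] 2 (Pf.C 7 2))
 (Pq.cons (Pq.L [] 2 (Pf.C 19 256))
 (Pq.cons (Pq.L [] 4 (Pf.C 22 257))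
 (Pq.cons (Pq.L [] 4 (Pf.C 8 257))
 (Pq.cons (Pq.L [] 0 (Pf.C 20 256))
 (Pq.cons (Pq.L [] 4 (Pf.C 8 257))
 (Pq.cons (Pq.L [] 7 (Pf.C 70 32896))
 (Pq.cons (Pq.L [] 2 (Pf.C 21 256))
 Pq.nil)))))))))))) (Pq.cons (Pq.L [] 1 (Pf.C 18 128))
 (Pq.cons (Pq.L [] 1 (Pf.C 7 1))
 (Pq.cons (Pq.L [] 1 (Pf.C 19 128))
 (Pq.cons (Pq.D 2 (Pq.cons (Pq.L [] 2 (Pf.C 39 256))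
 (Pq.cons (Pq.L [] 4 (Pf.C 22 130))
 (Pq.cons (Pq.L [] 2 (Pf.C 18 256))
 (Pq.cons (Pq.L [] 2 (Pf.C 7 2))
 (Pq.cons (Pq.L [] 2 (Pf.C 19 256))
 (Pq.cons (Pq.L [] 4 (Pf.C 12 257))
 (Pq.cons (Pq.L [] 7 (Pf.C 71 32896))
 (Pq.cons (Pq.L [] 0 (Pf.C 20 256))
 (Pq.cons (Pq.L [] 4 (Pf.C 30 257))
 (Pq.cons (Pq.L [] 7 (Pf.C 91 32896))
 (Pq.cons (Pq.L [] 2 (Pf.C 21 256))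
 Pq.nil)))))))))))) (Pq.cons (Pq.D 2 (Pq.cons (Pq.L [] 2 (Pf.C 39 256))
 (Pq.cons (Pq.L [] 4 (Pf.C 8 130))
 (Pq.cons (Pq.L [] 2 (Pf.C 18 256))
 (Pq.cons (Pq.L [] 2 (Pf.C 7 2))
 (Pq.cons (Pq.L [] 2 (Pf.C 19 256))
 (Pq.cons (Pq.L [] 7 (Pf.C 71 16640))
 (Pq.cons (Pq.L [] 4 (Pf.C 42 257))
 (Pq.cons (Pq.L [] 0 (Pf.C 20 256))
 (Pq.cons (Pq.L [] 4 (Pf.C 32 257))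
 (Pq.cons (Pq.L [] 4 (Pf.C 33 257))
 (Pq.cons (Pq.L [] 2 (Pf.C 21 256))
 Pq.nil)))))))))))) (Pq.cons (Pq.L [] 0 (Pf.C 20 128))
 (Pq.cons (Pq.D 2 (Pq.cons (Pq.L [] 2 (Pf.C 39 256))
 (Pq.cons (Pq.L [] 4 (Pf.C 8 130))
 (Pq.cons (Pq.L [] 2 (Pf.C 18 256))
 (Pq.cons (Pq.L [] 2 (Pf.C 7 2))
 (Pq.cons (Pq.L [] 2 (Pf.C 19 256))
 (Pq.cons (Pq.L [] 4 (Pf.C 30 130))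
 (Pq.cons (Pq.L [] 4 (Pf.C 32 130))
 (Pq.cons (Pq.L [] 0 (Pf.C 20 256))
 (Pq.cons (Pq.L [] 4 (Pf.C 11 257))
 (Pq.cons (Pq.L [] 4 (Pf.C 37 257))
 (Pq.cons (Pq.L [] 2 (Pf.C 21 256))
 Pq.nil)))))))))))) (Pq.cons (Pq.D 2 (Pq.cons (Pq.L [] 2 (Pf.C 39 256))
 (Pq.cons (Pq.L [] 7 (Pf.C 70 16640))
 (Pq.cons (Pq.L [] 2 (Pf.C 18 256))
 (Pq.cons (Pq.L [] 2 (Pf.C 7 2))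
 (Pq.cons (Pq.L [] 2 (Pf.C 19 256))
 (Pq.cons (Pq.L [] 7 (Pf.C 91 16640))
 (Pq.cons (Pq.L [] 4 (Pf.C 33 130))
 (Pq.cons (Pq.L [] 0 (Pf.C 20 256))
 (Pq.cons (Pq.L [] 4 (Pf.C 37 130))
 (Pq.cons (Pq.L [] 4 (Pf.C 2 257))
 (Pq.cons (Pq.L [] 2 (Pf.C 21 256))
 Pq.nil)))))))))))) (Pq.cons (Pq.L [] 1 (Pf.C 21 128))
 Pq.nil)))))))))))) (Pq.cons (Pq.D 1 (Pq.cons (Pq.D 2 (Pq.cons (Pq.L [] 4 (Pf.C 39 257))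
 (Pq.cons (Pq.L [] 2 (Pf.C 40 256))
 (Pq.cons (Pq.L [] 4 (Pf.C 18 257))
 (Pq.cons (Pq.L [] 4 (Pf.C 7 130))
 (Pq.cons (Pq.L [] 4 (Pf.C 19 257))
 (Pq.cons (Pq.L [] 2 (Pf.C 22 256))
 (Pq.cons (Pq.L [] 2 (Pf.C 8 256))
 (Pq.cons (Pq.L [] 0 (Pf.C 20 257))
 (Pq.cons (Pq.L [] 2 (Pf.C 8 256))
 (Pq.cons (Pq.L [] 7 (Pf.C 70 32769))
 (Pq.cons (Pq.L [] 4 (Pf.C 21 257))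
 Pq.nil)))))))))))) (Pq.cons (Pq.L [] 1 (Pf.C 40 128))
 (Pq.cons (Pq.D 2 (Pq.cons (Pq.L [] 4 (Pf.C 18 130))
 (Pq.cons (Pq.L [] 2 (Pf.C 40 256))
 (Pq.cons (Pq.L [] 4 (Pf.C 4 257))
 (Pq.cons (Pq.L [] 7 (Pf.C 72 32896))
 (Pq.cons (Pq.L [] 4 (Pf.C 23 257))
 (Pq.cons (Pq.L [] 2 (Pf.C 22 256))
 (Pq.cons (Pq.L [] 2 (Pf.C 8 256))
 (Pq.cons (Pq.L [] 4 (Pf.C 24 257))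
 (Pq.cons (Pq.L [] 2 (Pf.C 8 256))
 (Pq.cons (Pq.L [] 4 (Pf.C 25 257))
 (Pq.cons (Pq.L [] 4 (Pf.C 4 257))
 Pq.nil)))))))))))) (Pq.cons (Pq.D 2 (Pq.cons (Pq.L [] 4 (Pf.C 7 257))
 (Pq.cons (Pq.L [] 2 (Pf.C 40 256))
 (Pq.cons (Pq.L [] 7 (Pf.C 72 16640))
 (Pq.cons (Pq.L [] 4 (Pf.C 41 257))
 (Pq.cons (Pq.L [] 4 (Pf.C 7 257))
 (Pq.cons (Pq.L [] 2 (Pf.C 22 256))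
 (Pq.cons (Pq.L [] 2 (Pf.C 8 256))
 (Pq.cons (Pq.L [] 7 (Pf.C 73 32896))
 (Pq.cons (Pq.L [] 2 (Pf.C 8 256))
 (Pq.cons (Pq.L [] 7 (Pf.C 74 32896))
 (Pq.cons (Pq.L [] 7 (Pf.C 92 32896))
 Pq.nil)))))))))))) (Pq.cons (Pq.D 2 (Pq.cons (Pq.L [] 4 (Pf.C 19 130))
 (Pq.cons (Pq.L [] 2 (Pf.C 40 256))
 (Pq.cons (Pq.L [] 4 (Pf.C 23 130))
 (Pq.cons (Pq.L [] 4 (Pf.C 7 130))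
 (Pq.cons (Pq.L [] 4 (Pf.C 13 257))
 (Pq.cons (Pq.L [] 2 (Pf.C 22 256))
 (Pq.cons (Pq.L [] 2 (Pf.C 8 256))
 (Pq.cons (Pq.L [] 4 (Pf.C 28 257))
 (Pq.cons (Pq.L [] 2 (Pf.C 8 256))
 (Pq.cons (Pq.L [] 7 (Pf.C 93 32896))
 (Pq.cons (Pq.L [] 4 (Pf.C 29 257))
 Pq.nil)))))))))))) (Pq.cons (Pq.L [] 1 (Pf.C 22 128))
 (Pq.cons (Pq.L [] 1 (Pf.C 8 128))
 (Pq.cons (Pq.D 2 (Pq.cons (Pq.L [] 0 (Pf.C 20 130))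
 (Pq.cons (Pq.L [] 2 (Pf.C 40 256))
 (Pq.cons (Pq.L [] 4 (Pf.C 24 130))
 (Pq.cons (Pq.L [] 7 (Pf.C 73 16640))
 (Pq.cons (Pq.L [] 4 (Pf.C 28 130))
 (Pq.cons (Pq.L [] 2 (Pf.C 22 256))
 (Pq.cons (Pq.L [] 2 (Pf.C 8 256))
 (Pq.cons (Pq.L [] 4 (Pf.C 3 257))
 (Pq.cons (Pq.L [] 2 (Pf.C 8 256))
 (Pq.cons (Pq.L [] 4 (Pf.C 36 257))
 (Pq.cons (Pq.L [] 4 (Pf.C 3 257))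
 Pq.nil)))))))))))) (Pq.cons (Pq.L [] 1 (Pf.C 8 128))
 (Pq.cons (Pq.D 2 (Pq.cons (Pq.L [] 7 (Pf.C 70 16386))
 (Pq.cons (Pq.L [] 2 (Pf.C 40 256))
 (Pq.cons (Pq.L [] 4 (Pf.C 25 130))
 (Pq.cons (Pq.L [] 7 (Pf.C 74 16640))
 (Pq.cons (Pq.L [] 7 (Pf.C 93 16640))
 (Pq.cons (Pq.L [] 2 (Pf.C 22 256))
 (Pq.cons (Pq.L [] 2 (Pf.C 8 256))
 (Pq.cons (Pq.L [] 4 (Pf.C 36 130))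
 (Pq.cons (Pq.L [] 2 (Pf.C 8 256))
 (Pq.cons (Pq.L [] 4 (Pf.C 2 257))
 (Pq.cons (Pq.L [] 4 (Pf.C 2 257))
 Pq.nil)))))))))))) (Pq.cons (Pq.D 2 (Pq.cons (Pq.L [] 4 (Pf.C 21 130))
 (Pq.cons (Pq.L [] 2 (Pf.C 40 256))
 (Pq.cons (Pq.L [] 4 (Pf.C 4 257))
 (Pq.cons (Pq.L [] 7 (Pf.C 92 16640))
 (Pq.cons (Pq.L [] 4 (Pf.C 29 130))
 (Pq.cons (Pq.L [] 2 (Pf.C 22 256))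
 (Pq.cons (Pq.L [] 2 (Pf.C 8 256))
 (Pq.cons (Pq.L [] 4 (Pf.C 3 257))
 (Pq.cons (Pq.L [] 2 (Pf.C 8 256))
 (Pq.cons (Pq.L [] 4 (Pf.C 2 257))
 (Pq.cons (Pq.L [] 4 (Pf.C 2 257))
 Pq.nil)))))))))))) Pq.nil)))))))))))) (Pq.cons (Pq.D 1 (Pq.cons (Pq.L [] 1 (Pf.C 18 1))
 (Pq.cons (Pq.D 2 (Pq.cons (Pq.L [] 2 (Pf.C 18 2))
 (Pq.cons (Pq.L [] 4 (Pf.C 40 257))
 (Pq.cons (Pq.L [] 2 (Pf.C 4 256))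
 (Pq.cons (Pq.L [] 7 (Pf.C 72 32769))
 (Pq.cons (Pq.L [] 2 (Pf.C 23 256))
 (Pq.cons (Pq.L [] 4 (Pf.C 22 257))
 (Pq.cons (Pq.L [] 4 (Pf.C 8 257))
 (Pq.cons (Pq.L [] 2 (Pf.C 24 256))
 (Pq.cons (Pq.L [] 4 (Pf.C 8 257))
 (Pq.cons (Pq.L [] 2 (Pf.C 25 256))
 (Pq.cons (Pq.L [] 2 (Pf.C 4 256))
 Pq.nil)))))))))))) (Pq.cons (Pq.L [] 1 (Pf.C 4 128))
 (Pq.cons (Pq.D 2 (Pq.cons (Pq.L [] 2 (Pf.C 18 2))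
 (Pq.cons (Pq.L [] 7 (Pf.C 72 16386))
 (Pq.cons (Pq.L [] 2 (Pf.C 4 256))
 (Pq.cons (Pq.L [] 4 (Pf.C 41 257))
 (Pq.cons (Pq.L [] 2 (Pf.C 23 256))
 (Pq.cons (Pq.L [] 4 (Pf.C 26 257))
 (Pq.cons (Pq.L [] 7 (Pf.C 75 32896))
 (Pq.cons (Pq.L [] 2 (Pf.C 24 256))
 (Pq.cons (Pq.L [] 7 (Pf.C 94 32896))
 (Pq.cons (Pq.L [] 2 (Pf.C 25 256))
 (Pq.cons (Pq.L [] 2 (Pf.C 4 256))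
 Pq.nil)))))))))))) (Pq.cons (Pq.L [] 1 (Pf.C 23 128))
 (Pq.cons (Pq.D 2 (Pq.cons (Pq.L [] 2 (Pf.C 18 2))
 (Pq.cons (Pq.L [] 4 (Pf.C 22 130))
 (Pq.cons (Pq.L [] 2 (Pf.C 4 256))
 (Pq.cons (Pq.L [] 4 (Pf.C 26 130))
 (Pq.cons (Pq.L [] 2 (Pf.C 23 256))
 (Pq.cons (Pq.L [] 4 (Pf.C 12 257))
 (Pq.cons (Pq.L [] 7 (Pf.C 95 32896))
 (Pq.cons (Pq.L [] 2 (Pf.C 24 256))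
 (Pq.cons (Pq.L [] 4 (Pf.C 30 257))
 (Pq.cons (Pq.L [] 2 (Pf.C 25 256))
 (Pq.cons (Pq.L [] 2 (Pf.C 4 256))
 Pq.nil)))))))))))) (Pq.cons (Pq.D 2 (Pq.cons (Pq.L [] 2 (Pf.C 18 2))
 (Pq.cons (Pq.L [] 4 (Pf.C 8 130))
 (Pq.cons (Pq.L [] 2 (Pf.C 4 256))
 (Pq.cons (Pq.L [] 7 (Pf.C 75 16640))
 (Pq.cons (Pq.L [] 2 (Pf.C 23 256))
 (Pq.cons (Pq.L [] 7 (Pf.C 95 16640))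
 (Pq.cons (Pq.L [] 4 (Pf.C 42 257))
 (Pq.cons (Pq.L [] 2 (Pf.C 24 256))
 (Pq.cons (Pq.L [] 4 (Pf.C 32 257))
 (Pq.cons (Pq.L [] 2 (Pf.C 25 256))
 (Pq.cons (Pq.L [] 2 (Pf.C 4 256))
 Pq.nil)))))))))))) (Pq.cons (Pq.L [] 1 (Pf.C 24 128))
 (Pq.cons (Pq.D 2 (Pq.cons (Pq.L [] 2 (Pf.C 18 2))
 (Pq.cons (Pq.L [] 4 (Pf.C 8 130))
 (Pq.cons (Pq.L [] 2 (Pf.C 4 256))
 (Pq.cons (Pq.L [] 7 (Pf.C 94 16640))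
 (Pq.cons (Pq.L [] 2 (Pf.C 23 256))
 (Pq.cons (Pq.L [] 4 (Pf.C 30 130))
 (Pq.cons (Pq.L [] 4 (Pf.C 32 130))
 (Pq.cons (Pq.L [] 2 (Pf.C 24 256))
 (Pq.cons (Pq.L [] 4 (Pf.C 11 257))
 (Pq.cons (Pq.L [] 2 (Pf.C 25 256))
 (Pq.cons (Pq.L [] 2 (Pf.C 4 256))
 Pq.nil)))))))))))) (Pq.cons (Pq.L [] 1 (Pf.C 25 128))
 (Pq.cons (Pq.L [] 1 (Pf.C 4 128))
 Pq.nil)))))))))))) (Pq.cons (Pq.D 1 (Pq.cons (Pq.L [] 1 (Pf.C 7 128))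
 (Pq.cons (Pq.D 2 (Pq.cons (Pq.L [] 2 (Pf.C 7 256))
 (Pq.cons (Pq.L [] 4 (Pf.C 40 257))
 (Pq.cons (Pq.L [] 7 (Pf.C 72 257))
 (Pq.cons (Pq.L [] 2 (Pf.C 41 256))
 (Pq.cons (Pq.L [] 2 (Pf.C 7 256))
 (Pq.cons (Pq.L [] 2 (Pf.C 26 256))
 (Pq.cons (Pq.L [] 4 (Pf.C 8 257))
 (Pq.cons (Pq.L [] 7 (Pf.C 73 32769))
 (Pq.cons (Pq.L [] 4 (Pf.C 8 257))
 (Pq.cons (Pq.L [] 7 (Pf.C 74 32769))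
 (Pq.cons (Pq.L [] 7 (Pf.C 92 32769))
 Pq.nil)))))))))))) (Pq.cons (Pq.D 2 (Pq.cons (Pq.L [] 2 (Pf.C 7 256))
 (Pq.cons (Pq.L [] 7 (Pf.C 72 130))
 (Pq.cons (Pq.L [] 4 (Pf.C 4 257))
 (Pq.cons (Pq.L [] 2 (Pf.C 41 256))
 (Pq.cons (Pq.L [] 2 (Pf.C 7 256))
 (Pq.cons (Pq.L [] 2 (Pf.C 26 256))
 (Pq.cons (Pq.L [] 7 (Pf.C 75 32769))
 (Pq.cons (Pq.L [] 4 (Pf.C 24 257))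
 (Pq.cons (Pq.L [] 7 (Pf.C 94 32769))
 (Pq.cons (Pq.L [] 4 (Pf.C 25 257))
 (Pq.cons (Pq.L [] 4 (Pf.C 4 257))
 Pq.nil)))))))))))) (Pq.cons (Pq.L [] 1 (Pf.C 41 128))
 (Pq.cons (Pq.L [] 1 (Pf.C 7 128))
 (Pq.cons (Pq.L [] 1 (Pf.C 26 128))
 (Pq.cons (Pq.D 2 (Pq.cons (Pq.L [] 2 (Pf.C 7 256))
 (Pq.cons (Pq.L [] 4 (Pf.C 8 130))
 (Pq.cons (Pq.L [] 7 (Pf.C 75 16386))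
 (Pq.cons (Pq.L [] 2 (Pf.C 41 256))
 (Pq.cons (Pq.L [] 2 (Pf.C 7 256))
 (Pq.cons (Pq.L [] 2 (Pf.C 26 256))
 (Pq.cons (Pq.L [] 4 (Pf.C 42 257))
 (Pq.cons (Pq.L [] 0 (Pf.C 31 257))
 (Pq.cons (Pq.L [] 4 (Pf.C 32 257))
 (Pq.cons (Pq.L [] 4 (Pf.C 33 257))
 (Pq.cons (Pq.L [] 4 (Pf.C 34 257))
 Pq.nil)))))))))))) (Pq.cons (Pq.D 2 (Pq.cons (Pq.L [] 2 (Pf.C 7 256))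
 (Pq.cons (Pq.L [] 7 (Pf.C 73 16386))
 (Pq.cons (Pq.L [] 4 (Pf.C 24 130))
 (Pq.cons (Pq.L [] 2 (Pf.C 41 256))
 (Pq.cons (Pq.L [] 2 (Pf.C 7 256))
 (Pq.cons (Pq.L [] 2 (Pf.C 26 256))
 (Pq.cons (Pq.L [] 0 (Pf.C 31 130))
 (Pq.cons (Pq.L [] 4 (Pf.C 3 257))
 (Pq.cons (Pq.L [] 4 (Pf.C 35 257))
 (Pq.cons (Pq.L [] 4 (Pf.C 36 257))
 (Pq.cons (Pq.L [] 4 (Pf.C 3 257))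
 Pq.nil)))))))))))) (Pq.cons (Pq.D 2 (Pq.cons (Pq.L [] 2 (Pf.C 7 256))
 (Pq.cons (Pq.L [] 4 (Pf.C 8 130))
 (Pq.cons (Pq.L [] 7 (Pf.C 94 16386))
 (Pq.cons (Pq.L [] 2 (Pf.C 41 256))
 (Pq.cons (Pq.L [] 2 (Pf.C 7 256))
 (Pq.cons (Pq.L [] 2 (Pf.C 26 256))
 (Pq.cons (Pq.L [] 4 (Pf.C 32 130))
 (Pq.cons (Pq.L [] 4 (Pf.C 35 130))
 (Pq.cons (Pq.L [] 4 (Pf.C 11 257))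
 (Pq.cons (Pq.L [] 4 (Pf.C 37 257))
 (Pq.cons (Pq.L [] 4 (Pf.C 38 257))
 Pq.nil)))))))))))) (Pq.cons (Pq.D 2 (Pq.cons (Pq.L [] 2 (Pf.C 7 256))
 (Pq.cons (Pq.L [] 7 (Pf.C 74 16386))
 (Pq.cons (Pq.L [] 4 (Pf.C 25 130))
 (Pq.cons (Pq.L [] 2 (Pf.C 41 256))
 (Pq.cons (Pq.L [] 2 (Pf.C 7 256))
 (Pq.cons (Pq.L [] 2 (Pf.C 26 256))
 (Pq.cons (Pq.L [] 4 (Pf.C 33 130))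
 (Pq.cons (Pq.L [] 4 (Pf.C 36 130))
 (Pq.cons (Pq.L [] 4 (Pf.C 37 130))
 (Pq.cons (Pq.L [] 4 (Pf.C 2 257))
 (Pq.cons (Pq.L [] 4 (Pf.C 2 257))
 Pq.nil)))))))))))) (Pq.cons (Pq.D 2 (Pq.cons (Pq.L [] 2 (Pf.C 7 256))
 (Pq.cons (Pq.L [] 7 (Pf.C 92 16386))
 (Pq.cons (Pq.L [] 4 (Pf.C 4 257))
 (Pq.cons (Pq.L [] 2 (Pf.C 41 256))
 (Pq.cons (Pq.L [] 2 (Pf.C 7 256))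
 (Pq.cons (Pq.L [] 2 (Pf.C 26 256))
 (Pq.cons (Pq.L [] 4 (Pf.C 34 130))
 (Pq.cons (Pq.L [] 4 (Pf.C 3 257))
 (Pq.cons (Pq.L [] 4 (Pf.C 38 130))
 (Pq.cons (Pq.L [] 4 (Pf.C 2 257))
 (Pq.cons (Pq.L [] 4 (Pf.C 2 257))
 Pq.nil)))))))))))) Pq.nil)))))))))))) Pq.nil))))
theorem f2_o2 : AllRef f2_T f2_G8 (List.take 4 (List.flatMap (splitP 0) (List.take 1 (applyObl d_T 2 [1,2,3,4,5,6,7,8,9,10,11] [0,0,0,0,0,0,0,0,0,0,0] [])))) :=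
  chkPq_sound f2_o2c _ (by decide +kernel)
noncomputable def f2_o3c : Pq := (Pq.cons (Pq.D 1 (Pq.cons (Pq.L [] 1 (Pf.C 19 1))
 (Pq.cons (Pq.D 2 (Pq.cons (Pq.L [] 2 (Pf.C 19 2))
 (Pq.cons (Pq.L [] 4 (Pf.C 40 257))
 (Pq.cons (Pq.L [] 2 (Pf.C 23 2))
 (Pq.cons (Pq.L [] 2 (Pf.C 7 2))
 (Pq.cons (Pq.L [] 2 (Pf.C 13 256))
 (Pq.cons (Pq.L [] 2 (Pf.C 27 256))
 (Pq.cons (Pq.L [] 4 (Pf.C 8 257))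
 (Pq.cons (Pq.L [] 2 (Pf.C 28 256))
 (Pq.cons (Pq.L [] 4 (Pf.C 8 257))
 (Pq.cons (Pq.L [] 7 (Pf.C 93 32769))
 (Pq.cons (Pq.L [] 2 (Pf.C 29 256))
 Pq.nil)))))))))))) (Pq.cons (Pq.L [] 1 (Pf.C 23 1))
 (Pq.cons (Pq.L [] 1 (Pf.C 7 1))
 (Pq.cons (Pq.L [] 1 (Pf.C 13 128))
 (Pq.cons (Pq.L [] 1 (Pf.C 27 128))
 (Pq.cons (Pq.D 2 (Pq.cons (Pq.L [] 2 (Pf.C 19 2))
 (Pq.cons (Pq.L [] 4 (Pf.C 8 130))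
 (Pq.cons (Pq.L [] 2 (Pf.C 23 2))
 (Pq.cons (Pq.L [] 2 (Pf.C 7 2))
 (Pq.cons (Pq.L [] 2 (Pf.C 13 256))
 (Pq.cons (Pq.L [] 2 (Pf.C 27 256))
 (Pq.cons (Pq.L [] 4 (Pf.C 42 257))
 (Pq.cons (Pq.L [] 2 (Pf.C 28 256))
 (Pq.cons (Pq.L [] 4 (Pf.C 32 257))
 (Pq.cons (Pq.L [] 4 (Pf.C 33 257))
 (Pq.cons (Pq.L [] 2 (Pf.C 29 256))
 Pq.nil)))))))))))) (Pq.cons (Pq.L [] 1 (Pf.C 28 128))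
 (Pq.cons (Pq.D 2 (Pq.cons (Pq.L [] 2 (Pf.C 19 2))
 (Pq.cons (Pq.L [] 4 (Pf.C 8 130))
 (Pq.cons (Pq.L [] 2 (Pf.C 23 2))
 (Pq.cons (Pq.L [] 2 (Pf.C 7 2))
 (Pq.cons (Pq.L [] 2 (Pf.C 13 256))
 (Pq.cons (Pq.L [] 2 (Pf.C 27 256))
 (Pq.cons (Pq.L [] 4 (Pf.C 32 130))
 (Pq.cons (Pq.L [] 2 (Pf.C 28 256))
 (Pq.cons (Pq.L [] 4 (Pf.C 11 257))
 (Pq.cons (Pq.L [] 4 (Pf.C 37 257))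
 (Pq.cons (Pq.L [] 2 (Pf.C 29 256))
 Pq.nil)))))))))))) (Pq.cons (Pq.D 2 (Pq.cons (Pq.L [] 2 (Pf.C 19 2))
 (Pq.cons (Pq.L [] 7 (Pf.C 93 16386))
 (Pq.cons (Pq.L [] 2 (Pf.C 23 2))
 (Pq.cons (Pq.L [] 2 (Pf.C 7 2))
 (Pq.cons (Pq.L [] 2 (Pf.C 13 256))
 (Pq.cons (Pq.L [] 2 (Pf.C 27 256))
 (Pq.cons (Pq.L [] 4 (Pf.C 33 130))
 (Pq.cons (Pq.L [] 2 (Pf.C 28 256))
 (Pq.cons (Pq.L [] 4 (Pf.C 37 130))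
 (Pq.cons (Pq.L [] 4 (Pf.C 2 257))
 (Pq.cons (Pq.L [] 2 (Pf.C 29 256))
 Pq.nil)))))))))))) (Pq.cons (Pq.L [] 1 (Pf.C 29 128))
 Pq.nil)))))))))))) (Pq.cons (Pq.D 1 (Pq.cons (Pq.D 2 (Pq.cons (Pq.L [] 4 (Pf.C 39 257))
 (Pq.cons (Pq.L [] 2 (Pf.C 22 2))
 (Pq.cons (Pq.L [] 4 (Pf.C 18 257))
 (Pq.cons (Pq.L [] 2 (Pf.C 26 2))
 (Pq.cons (Pq.L [] 2 (Pf.C 27 2))
 (Pq.cons (Pq.L [] 2 (Pf.C 12 256))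
 (Pq.cons (Pq.L [] 7 (Pf.C 71 32769))
 (Pq.cons (Pq.L [] 0 (Pf.C 20 257))
 (Pq.cons (Pq.L [] 2 (Pf.C 30 256))
 (Pq.cons (Pq.L [] 7 (Pf.C 91 32769))
 (Pq.cons (Pq.L [] 4 (Pf.C 21 257))
 Pq.nil)))))))))))) (Pq.cons (Pq.L [] 1 (Pf.C 22 1))
 (Pq.cons (Pq.D 2 (Pq.cons (Pq.L [] 4 (Pf.C 18 130))
 (Pq.cons (Pq.L [] 2 (Pf.C 22 2))
 (Pq.cons (Pq.L [] 4 (Pf.C 4 257))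
 (Pq.cons (Pq.L [] 2 (Pf.C 26 2))
 (Pq.cons (Pq.L [] 2 (Pf.C 27 2))
 (Pq.cons (Pq.L [] 2 (Pf.C 12 256))
 (Pq.cons (Pq.L [] 7 (Pf.C 95 32769))
 (Pq.cons (Pq.L [] 4 (Pf.C 24 257))
 (Pq.cons (Pq.L [] 2 (Pf.C 30 256))
 (Pq.cons (Pq.L [] 4 (Pf.C 25 257))
 (Pq.cons (Pq.L [] 4 (Pf.C 4 257))
 Pq.nil)))))))))))) (Pq.cons (Pq.L [] 1 (Pf.C 26 1))
 (Pq.cons (Pq.L [] 1 (Pf.C 27 1))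
 (Pq.cons (Pq.L [] 1 (Pf.C 12 128))
 (Pq.cons (Pq.D 2 (Pq.cons (Pq.L [] 7 (Pf.C 71 16386))
 (Pq.cons (Pq.L [] 2 (Pf.C 22 2))
 (Pq.cons (Pq.L [] 7 (Pf.C 95 16386))
 (Pq.cons (Pq.L [] 2 (Pf.C 26 2))
 (Pq.cons (Pq.L [] 2 (Pf.C 27 2))
 (Pq.cons (Pq.L [] 2 (Pf.C 12 256))
 (Pq.cons (Pq.L [] 4 (Pf.C 42 257))
 (Pq.cons (Pq.L [] 0 (Pf.C 31 257))
 (Pq.cons (Pq.L [] 2 (Pf.C 30 256))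
 (Pq.cons (Pq.L [] 4 (Pf.C 33 257))
 (Pq.cons (Pq.L [] 4 (Pf.C 34 257))
 Pq.nil)))))))))))) (Pq.cons (Pq.D 2 (Pq.cons (Pq.L [] 0 (Pf.C 20 130))
 (Pq.cons (Pq.L [] 2 (Pf.C 22 2))
 (Pq.cons (Pq.L [] 4 (Pf.C 24 130))
 (Pq.cons (Pq.L [] 2 (Pf.C 26 2))
 (Pq.cons (Pq.L [] 2 (Pf.C 27 2))
 (Pq.cons (Pq.L [] 2 (Pf.C 12 256))
 (Pq.cons (Pq.L [] 0 (Pf.C 31 130))
 (Pq.cons (Pq.L [] 4 (Pf.C 3 257))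
 (Pq.cons (Pq.L [] 2 (Pf.C 30 256))
 (Pq.cons (Pq.L [] 4 (Pf.C 36 257))
 (Pq.cons (Pq.L [] 4 (Pf.C 3 257))
 Pq.nil)))))))))))) (Pq.cons (Pq.L [] 1 (Pf.C 30 128))
 (Pq.cons (Pq.D 2 (Pq.cons (Pq.L [] 7 (Pf.C 91 16386))
 (Pq.cons (Pq.L [] 2 (Pf.C 22 2))
 (Pq.cons (Pq.L [] 4 (Pf.C 25 130))
 (Pq.cons (Pq.L [] 2 (Pf.C 26 2))
 (Pq.cons (Pq.L [] 2 (Pf.C 27 2))
 (Pq.cons (Pq.L [] 2 (Pf.C 12 256))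
 (Pq.cons (Pq.L [] 4 (Pf.C 33 130))
 (Pq.cons (Pq.L [] 4 (Pf.C 36 130))
 (Pq.cons (Pq.L [] 2 (Pf.C 30 256))
 (Pq.cons (Pq.L [] 4 (Pf.C 2 257))
 (Pq.cons (Pq.L [] 4 (Pf.C 2 257))
 Pq.nil)))))))))))) (Pq.cons (Pq.D 2 (Pq.cons (Pq.L [] 4 (Pf.C 21 130))
 (Pq.cons (Pq.L [] 2 (Pf.C 22 2))
 (Pq.cons (Pq.L [] 4 (Pf.C 4 257))
 (Pq.cons (Pq.L [] 2 (Pf.C 26 2))
 (Pq.cons (Pq.L [] 2 (Pf.C 27 2))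
 (Pq.cons (Pq.L [] 2 (Pf.C 12 256))
 (Pq.cons (Pq.L [] 4 (Pf.C 34 130))
 (Pq.cons (Pq.L [] 4 (Pf.C 3 257))
 (Pq.cons (Pq.L [] 2 (Pf.C 30 256))
 (Pq.cons (Pq.L [] 4 (Pf.C 2 257))
 (Pq.cons (Pq.L [] 4 (Pf.C 2 257))
 Pq.nil)))))))))))) Pq.nil)))))))))))) (Pq.cons (Pq.D 1 (Pq.cons (Pq.D 2 (Pq.cons (Pq.L [] 4 (Pf.C 39 257))
 (Pq.cons (Pq.L [] 2 (Pf.C 8 2))
 (Pq.cons (Pq.L [] 4 (Pf.C 18 257))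
 (Pq.cons (Pq.L [] 4 (Pf.C 7 130))
 (Pq.cons (Pq.L [] 4 (Pf.C 19 257))
 (Pq.cons (Pq.L [] 7 (Pf.C 71 257))
 (Pq.cons (Pq.L [] 2 (Pf.C 42 256))
 (Pq.cons (Pq.L [] 0 (Pf.C 31 256))
 (Pq.cons (Pq.L [] 2 (Pf.C 32 256))
 (Pq.cons (Pq.L [] 2 (Pf.C 33 256))
 (Pq.cons (Pq.L [] 2 (Pf.C 34 256))
 Pq.nil)))))))))))) (Pq.cons (Pq.L [] 1 (Pf.C 8 1))
 (Pq.cons (Pq.D 2 (Pq.cons (Pq.L [] 4 (Pf.C 18 130))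
 (Pq.cons (Pq.L [] 2 (Pf.C 8 2))
 (Pq.cons (Pq.L [] 4 (Pf.C 4 257))
 (Pq.cons (Pq.L [] 7 (Pf.C 75 257))
 (Pq.cons (Pq.L [] 4 (Pf.C 23 257))
 (Pq.cons (Pq.L [] 7 (Pf.C 95 257))
 (Pq.cons (Pq.L [] 2 (Pf.C 42 256))
 (Pq.cons (Pq.L [] 0 (Pf.C 31 256))
 (Pq.cons (Pq.L [] 2 (Pf.C 32 256))
 (Pq.cons (Pq.L [] 2 (Pf.C 33 256))
 (Pq.cons (Pq.L [] 2 (Pf.C 34 256))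
 Pq.nil)))))))))))) (Pq.cons (Pq.D 2 (Pq.cons (Pq.L [] 4 (Pf.C 7 257))
 (Pq.cons (Pq.L [] 2 (Pf.C 8 2))
 (Pq.cons (Pq.L [] 7 (Pf.C 75 130))
 (Pq.cons (Pq.L [] 4 (Pf.C 41 257))
 (Pq.cons (Pq.L [] 4 (Pf.C 7 257))
 (Pq.cons (Pq.L [] 4 (Pf.C 26 257))
 (Pq.cons (Pq.L [] 2 (Pf.C 42 256))
 (Pq.cons (Pq.L [] 0 (Pf.C 31 256))
 (Pq.cons (Pq.L [] 2 (Pf.C 32 256))
 (Pq.cons (Pq.L [] 2 (Pf.C 33 256))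
 (Pq.cons (Pq.L [] 2 (Pf.C 34 256))
 Pq.nil)))))))))))) (Pq.cons (Pq.D 2 (Pq.cons (Pq.L [] 4 (Pf.C 19 130))
 (Pq.cons (Pq.L [] 2 (Pf.C 8 2))
 (Pq.cons (Pq.L [] 4 (Pf.C 23 130))
 (Pq.cons (Pq.L [] 4 (Pf.C 7 130))
 (Pq.cons (Pq.L [] 4 (Pf.C 13 257))
 (Pq.cons (Pq.L [] 4 (Pf.C 27 257))
 (Pq.cons (Pq.L [] 2 (Pf.C 42 256))
 (Pq.cons (Pq.L [] 0 (Pf.C 31 256))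
 (Pq.cons (Pq.L [] 2 (Pf.C 32 256))
 (Pq.cons (Pq.L [] 2 (Pf.C 33 256))
 (Pq.cons (Pq.L [] 2 (Pf.C 34 256))
 Pq.nil)))))))))))) (Pq.cons (Pq.D 2 (Pq.cons (Pq.L [] 7 (Pf.C 71 130))
 (Pq.cons (Pq.L [] 2 (Pf.C 8 2))
 (Pq.cons (Pq.L [] 7 (Pf.C 95 130))
 (Pq.cons (Pq.L [] 4 (Pf.C 26 130))
 (Pq.cons (Pq.L [] 4 (Pf.C 27 130))
 (Pq.cons (Pq.L [] 4 (Pf.C 12 257))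
 (Pq.cons (Pq.L [] 2 (Pf.C 42 256))
 (Pq.cons (Pq.L [] 0 (Pf.C 31 256))
 (Pq.cons (Pq.L [] 2 (Pf.C 32 256))
 (Pq.cons (Pq.L [] 2 (Pf.C 33 256))
 (Pq.cons (Pq.L [] 2 (Pf.C 34 256))
 Pq.nil)))))))))))) (Pq.cons (Pq.L [] 1 (Pf.C 42 128))
 (Pq.cons (Pq.L [] 0 (Pf.C 31 128))
 (Pq.cons (Pq.L [] 1 (Pf.C 32 128))
 (Pq.cons (Pq.L [] 1 (Pf.C 33 128))
 (Pq.cons (Pq.L [] 1 (Pf.C 34 128))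
 Pq.nil)))))))))))) (Pq.cons (Pq.D 1 (Pq.cons (Pq.L [] 0 (Pf.C 20 1))
 (Pq.cons (Pq.D 2 (Pq.cons (Pq.L [] 0 (Pf.C 20 2))
 (Pq.cons (Pq.L [] 4 (Pf.C 40 257))
 (Pq.cons (Pq.L [] 2 (Pf.C 24 2))
 (Pq.cons (Pq.L [] 7 (Pf.C 73 257))
 (Pq.cons (Pq.L [] 2 (Pf.C 28 2))
 (Pq.cons (Pq.L [] 4 (Pf.C 22 257))
 (Pq.cons (Pq.L [] 0 (Pf.C 31 2))
 (Pq.cons (Pq.L [] 2 (Pf.C 3 256))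
 (Pq.cons (Pq.L [] 2 (Pf.C 35 256))
 (Pq.cons (Pq.L [] 2 (Pf.C 36 256))
 (Pq.cons (Pq.L [] 2 (Pf.C 3 256))
 Pq.nil)))))))))))) (Pq.cons (Pq.L [] 1 (Pf.C 24 1))
 (Pq.cons (Pq.D 2 (Pq.cons (Pq.L [] 0 (Pf.C 20 2))
 (Pq.cons (Pq.L [] 7 (Pf.C 73 130))
 (Pq.cons (Pq.L [] 2 (Pf.C 24 2))
 (Pq.cons (Pq.L [] 4 (Pf.C 41 257))
 (Pq.cons (Pq.L [] 2 (Pf.C 28 2))
 (Pq.cons (Pq.L [] 4 (Pf.C 26 257))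
 (Pq.cons (Pq.L [] 0 (Pf.C 31 2))
 (Pq.cons (Pq.L [] 2 (Pf.C 3 256))
 (Pq.cons (Pq.L [] 2 (Pf.C 35 256))
 (Pq.cons (Pq.L [] 2 (Pf.C 36 256))
 (Pq.cons (Pq.L [] 2 (Pf.C 3 256))
 Pq.nil)))))))))))) (Pq.cons (Pq.L [] 1 (Pf.C 28 1))
 (Pq.cons (Pq.D 2 (Pq.cons (Pq.L [] 0 (Pf.C 20 2))
 (Pq.cons (Pq.L [] 4 (Pf.C 22 130))
 (Pq.cons (Pq.L [] 2 (Pf.C 24 2))
 (Pq.cons (Pq.L [] 4 (Pf.C 26 130))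
 (Pq.cons (Pq.L [] 2 (Pf.C 28 2))
 (Pq.cons (Pq.L [] 4 (Pf.C 12 257))
 (Pq.cons (Pq.L [] 0 (Pf.C 31 2))
 (Pq.cons (Pq.L [] 2 (Pf.C 3 256))
 (Pq.cons (Pq.L [] 2 (Pf.C 35 256))
 (Pq.cons (Pq.L [] 2 (Pf.C 36 256))
 (Pq.cons (Pq.L [] 2 (Pf.C 3 256))
 Pq.nil)))))))))))) (Pq.cons (Pq.L [] 0 (Pf.C 31 1))
 (Pq.cons (Pq.L [] 1 (Pf.C 3 128))
 (Pq.cons (Pq.L [] 1 (Pf.C 35 128))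
 (Pq.cons (Pq.L [] 1 (Pf.C 36 128))
 (Pq.cons (Pq.L [] 1 (Pf.C 3 128))
 Pq.nil)))))))))))) (Pq.cons (Pq.D 1 (Pq.cons (Pq.D 2 (Pq.cons (Pq.L [] 4 (Pf.C 39 257))
 (Pq.cons (Pq.L [] 2 (Pf.C 8 2))
 (Pq.cons (Pq.L [] 4 (Pf.C 18 257))
 (Pq.cons (Pq.L [] 4 (Pf.C 7 130))
 (Pq.cons (Pq.L [] 4 (Pf.C 19 257))
 (Pq.cons (Pq.L [] 2 (Pf.C 30 2))
 (Pq.cons (Pq.L [] 2 (Pf.C 32 2))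
 (Pq.cons (Pq.L [] 2 (Pf.C 35 2))
 (Pq.cons (Pq.L [] 2 (Pf.C 11 256))
 (Pq.cons (Pq.L [] 2 (Pf.C 37 256))
 (Pq.cons (Pq.L [] 2 (Pf.C 38 256))
 Pq.nil)))))))))))) (Pq.cons (Pq.L [] 1 (Pf.C 8 1))
 (Pq.cons (Pq.D 2 (Pq.cons (Pq.L [] 4 (Pf.C 18 130))
 (Pq.cons (Pq.L [] 2 (Pf.C 8 2))
 (Pq.cons (Pq.L [] 4 (Pf.C 4 257))
 (Pq.cons (Pq.L [] 7 (Pf.C 94 257))
 (Pq.cons (Pq.L [] 4 (Pf.C 23 257))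
 (Pq.cons (Pq.L [] 2 (Pf.C 30 2))
 (Pq.cons (Pq.L [] 2 (Pf.C 32 2))
 (Pq.cons (Pq.L [] 2 (Pf.C 35 2))
 (Pq.cons (Pq.L [] 2 (Pf.C 11 256))
 (Pq.cons (Pq.L [] 2 (Pf.C 37 256))
 (Pq.cons (Pq.L [] 2 (Pf.C 38 256))
 Pq.nil)))))))))))) (Pq.cons (Pq.D 2 (Pq.cons (Pq.L [] 4 (Pf.C 7 257))
 (Pq.cons (Pq.L [] 2 (Pf.C 8 2))
 (Pq.cons (Pq.L [] 7 (Pf.C 94 130))
 (Pq.cons (Pq.L [] 4 (Pf.C 41 257))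
 (Pq.cons (Pq.L [] 4 (Pf.C 7 257))
 (Pq.cons (Pq.L [] 2 (Pf.C 30 2))
 (Pq.cons (Pq.L [] 2 (Pf.C 32 2))
 (Pq.cons (Pq.L [] 2 (Pf.C 35 2))
 (Pq.cons (Pq.L [] 2 (Pf.C 11 256))
 (Pq.cons (Pq.L [] 2 (Pf.C 37 256))
 (Pq.cons (Pq.L [] 2 (Pf.C 38 256))
 Pq.nil)))))))))))) (Pq.cons (Pq.D 2 (Pq.cons (Pq.L [] 4 (Pf.C 19 130))
 (Pq.cons (Pq.L [] 2 (Pf.C 8 2))
 (Pq.cons (Pq.L [] 4 (Pf.C 23 130))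
 (Pq.cons (Pq.L [] 4 (Pf.C 7 130))
 (Pq.cons (Pq.L [] 4 (Pf.C 13 257))
 (Pq.cons (Pq.L [] 2 (Pf.C 30 2))
 (Pq.cons (Pq.L [] 2 (Pf.C 32 2))
 (Pq.cons (Pq.L [] 2 (Pf.C 35 2))
 (Pq.cons (Pq.L [] 2 (Pf.C 11 256))
 (Pq.cons (Pq.L [] 2 (Pf.C 37 256))
 (Pq.cons (Pq.L [] 2 (Pf.C 38 256))
 Pq.nil)))))))))))) (Pq.cons (Pq.L [] 1 (Pf.C 30 1))
 (Pq.cons (Pq.L [] 1 (Pf.C 32 1))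
 (Pq.cons (Pq.L [] 1 (Pf.C 35 1))
 (Pq.cons (Pq.L [] 1 (Pf.C 11 128))
 (Pq.cons (Pq.L [] 1 (Pf.C 37 128))
 (Pq.cons (Pq.L [] 1 (Pf.C 38 128))
 Pq.nil)))))))))))) (Pq.cons (Pq.D 1 (Pq.cons (Pq.D 2 (Pq.cons (Pq.L [] 4 (Pf.C 39 257))
 (Pq.cons (Pq.L [] 7 (Pf.C 70 257))
 (Pq.cons (Pq.L [] 2 (Pf.C 25 2))
 (Pq.cons (Pq.L [] 4 (Pf.C 7 130))
 (Pq.cons (Pq.L [] 4 (Pf.C 19 257))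
 (Pq.cons (Pq.L [] 7 (Pf.C 91 257))
 (Pq.cons (Pq.L [] 2 (Pf.C 33 2))
 (Pq.cons (Pq.L [] 2 (Pf.C 36 2))
 (Pq.cons (Pq.L [] 2 (Pf.C 37 2))
 (Pq.cons (Pq.L [] 2 (Pf.C 2 256))
 (Pq.cons (Pq.L [] 2 (Pf.C 2 256))
 Pq.nil)))))))))))) (Pq.cons (Pq.D 2 (Pq.cons (Pq.L [] 7 (Pf.C 70 130))
 (Pq.cons (Pq.L [] 4 (Pf.C 40 257))
 (Pq.cons (Pq.L [] 2 (Pf.C 25 2))
 (Pq.cons (Pq.L [] 7 (Pf.C 74 257))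
 (Pq.cons (Pq.L [] 7 (Pf.C 93 257))
 (Pq.cons (Pq.L [] 4 (Pf.C 22 257))
 (Pq.cons (Pq.L [] 2 (Pf.C 33 2))
 (Pq.cons (Pq.L [] 2 (Pf.C 36 2))
 (Pq.cons (Pq.L [] 2 (Pf.C 37 2))
 (Pq.cons (Pq.L [] 2 (Pf.C 2 256))
 (Pq.cons (Pq.L [] 2 (Pf.C 2 256))
 Pq.nil)))))))))))) (Pq.cons (Pq.L [] 1 (Pf.C 25 1))
 (Pq.cons (Pq.D 2 (Pq.cons (Pq.L [] 4 (Pf.C 7 257))
 (Pq.cons (Pq.L [] 7 (Pf.C 74 130))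
 (Pq.cons (Pq.L [] 2 (Pf.C 25 2))
 (Pq.cons (Pq.L [] 4 (Pf.C 41 257))
 (Pq.cons (Pq.L [] 4 (Pf.C 7 257))
 (Pq.cons (Pq.L [] 4 (Pf.C 26 257))
 (Pq.cons (Pq.L [] 2 (Pf.C 33 2))
 (Pq.cons (Pq.L [] 2 (Pf.C 36 2))
 (Pq.cons (Pq.L [] 2 (Pf.C 37 2))
 (Pq.cons (Pq.L [] 2 (Pf.C 2 256))
 (Pq.cons (Pq.L [] 2 (Pf.C 2 256))
 Pq.nil)))))))))))) (Pq.cons (Pq.D 2 (Pq.cons (Pq.L [] 4 (Pf.C 19 130))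
 (Pq.cons (Pq.L [] 7 (Pf.C 93 130))
 (Pq.cons (Pq.L [] 2 (Pf.C 25 2))
 (Pq.cons (Pq.L [] 4 (Pf.C 7 130))
 (Pq.cons (Pq.L [] 4 (Pf.C 13 257))
 (Pq.cons (Pq.L [] 4 (Pf.C 27 257))
 (Pq.cons (Pq.L [] 2 (Pf.C 33 2))
 (Pq.cons (Pq.L [] 2 (Pf.C 36 2))
 (Pq.cons (Pq.L [] 2 (Pf.C 37 2))
 (Pq.cons (Pq.L [] 2 (Pf.C 2 256))
 (Pq.cons (Pq.L [] 2 (Pf.C 2 256))
 Pq.nil)))))))))))) (Pq.cons (Pq.D 2 (Pq.cons (Pq.L [] 7 (Pf.C 91 130))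
 (Pq.cons (Pq.L [] 4 (Pf.C 22 130))
 (Pq.cons (Pq.L [] 2 (Pf.C 25 2))
 (Pq.cons (Pq.L [] 4 (Pf.C 26 130))
 (Pq.cons (Pq.L [] 4 (Pf.C 27 130))
 (Pq.cons (Pq.L [] 4 (Pf.C 12 257))
 (Pq.cons (Pq.L [] 2 (Pf.C 33 2))
 (Pq.cons (Pq.L [] 2 (Pf.C 36 2))
 (Pq.cons (Pq.L [] 2 (Pf.C 37 2))
 (Pq.cons (Pq.L [] 2 (Pf.C 2 256))
 (Pq.cons (Pq.L [] 2 (Pf.C 2 256))
 Pq.nil)))))))))))) (Pq.cons (Pq.L [] 1 (Pf.C 33 1))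
 (Pq.cons (Pq.L [] 1 (Pf.C 36 1))
 (Pq.cons (Pq.L [] 1 (Pf.C 37 1))
 (Pq.cons (Pq.L [] 1 (Pf.C 2 128))
 (Pq.cons (Pq.L [] 1 (Pf.C 2 128))
 Pq.nil)))))))))))) (Pq.cons (Pq.D 1 (Pq.cons (Pq.L [] 1 (Pf.C 21 1))
 (Pq.cons (Pq.D 2 (Pq.cons (Pq.L [] 2 (Pf.C 21 2))
 (Pq.cons (Pq.L [] 4 (Pf.C 40 257))
 (Pq.cons (Pq.L [] 2 (Pf.C 4 256))
 (Pq.cons (Pq.L [] 7 (Pf.C 92 257))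
 (Pq.cons (Pq.L [] 2 (Pf.C 29 2))
 (Pq.cons (Pq.L [] 4 (Pf.C 22 257))
 (Pq.cons (Pq.L [] 2 (Pf.C 34 2))
 (Pq.cons (Pq.L [] 2 (Pf.C 3 256))
 (Pq.cons (Pq.L [] 2 (Pf.C 38 2))
 (Pq.cons (Pq.L [] 2 (Pf.C 2 256))
 (Pq.cons (Pq.L [] 2 (Pf.C 2 256))
 Pq.nil)))))))))))) (Pq.cons (Pq.L [] 1 (Pf.C 4 128))
 (Pq.cons (Pq.D 2 (Pq.cons (Pq.L [] 2 (Pf.C 21 2))
 (Pq.cons (Pq.L [] 7 (Pf.C 92 130))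
 (Pq.cons (Pq.L [] 2 (Pf.C 4 256))
 (Pq.cons (Pq.L [] 4 (Pf.C 41 257))
 (Pq.cons (Pq.L [] 2 (Pf.C 29 2))
 (Pq.cons (Pq.L [] 4 (Pf.C 26 257))
 (Pq.cons (Pq.L [] 2 (Pf.C 34 2))
 (Pq.cons (Pq.L [] 2 (Pf.C 3 256))
 (Pq.cons (Pq.L [] 2 (Pf.C 38 2))
 (Pq.cons (Pq.L [] 2 (Pf.C 2 256))
 (Pq.cons (Pq.L [] 2 (Pf.C 2 256))
 Pq.nil)))))))))))) (Pq.cons (Pq.L [] 1 (Pf.C 29 1))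
 (Pq.cons (Pq.D 2 (Pq.cons (Pq.L [] 2 (Pf.C 21 2))
 (Pq.cons (Pq.L [] 4 (Pf.C 22 130))
 (Pq.cons (Pq.L [] 2 (Pf.C 4 256))
 (Pq.cons (Pq.L [] 4 (Pf.C 26 130))
 (Pq.cons (Pq.L [] 2 (Pf.C 29 2))
 (Pq.cons (Pq.L [] 4 (Pf.C 12 257))
 (Pq.cons (Pq.L [] 2 (Pf.C 34 2))
 (Pq.cons (Pq.L [] 2 (Pf.C 3 256))
 (Pq.cons (Pq.L [] 2 (Pf.C 38 2))
 (Pq.cons (Pq.L [] 2 (Pf.C 2 256))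
 (Pq.cons (Pq.L [] 2 (Pf.C 2 256))
 Pq.nil)))))))))))) (Pq.cons (Pq.L [] 1 (Pf.C 34 1))
 (Pq.cons (Pq.L [] 1 (Pf.C 3 128))
 (Pq.cons (Pq.L [] 1 (Pf.C 38 1))
 (Pq.cons (Pq.L [] 1 (Pf.C 2 128))
 (Pq.cons (Pq.L [] 1 (Pf.C 2 128))
 Pq.nil)))))))))))) Pq.nil)))))))
theorem f2_o3 : AllRef f2_T f2_G8 (List.drop 4 (List.flatMap (splitP 0) (List.take 1 (applyObl d_T 2 [1,2,3,4,5,6,7,8,9,10,11] [0,0,0,0,0,0,0,0,0,0,0] [])))) :=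
  chkPq_sound f2_o3c _ (by decide +kernel)
noncomputable def f2_o4c : Pq := (Pq.cons (Pq.L [] 0x1c777b (Pf.C 1 0x3050804100))
 Pq.nil)
theorem f2_o4 : AllRef f2_T f2_G8 (List.drop 1 (applyObl d_T 2 [1,2,3,4,5,6,7,8,9,10,11] [0,0,0,0,0,0,0,0,0,0,0] [])) :=
  chkPq_sound f2_o4c _ (by decide +kernel)
noncomputable def f2_o5c : Pq := (Pq.cons (Pq.L [2] 0 (Pf.C 5 259))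
 (Pq.cons (Pq.L [1,2] 0 (Pf.B 3 2 (Pf.C 5 259) (Pf.C 71 32899)))
 (Pq.cons (Pq.L [0] 0 (Pf.C 18 3))
 Pq.nil)))
theorem f2_o5 : AllRef f2_T f2_G9 (ptObl 1 (PT.br 0 (PT.br 1 (PT.br 2 PT.ref PT.kid) PT.ref) PT.ref) []) :=
  chkPq_sound f2_o5c _ (by decide +kernel)
noncomputable def f2_o6c : Pq := (Pq.cons (Pq.L [0] 0 (Pf.C 16 3))
 (Pq.cons (Pq.L [2] 0 (Pf.C 8 259))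
 (Pq.cons (Pq.L [1] 0 (Pf.C 22 131))
 Pq.nil)))
theorem f2_o6 : AllRef f2_T f2_G10 (ptObl 2 (PT.br 0 PT.ref (PT.br 1 (PT.br 2 PT.kid PT.ref) PT.ref)) []) :=
  chkPq_sound f2_o6c _ (by decide +kernel)
noncomputable def f2_o7c : Pq := Pq.nil
theorem f2_o7 : AllRef f2_T f2_G11 (ptObl 3 PT.kid []) :=
  chkPq_sound f2_o7c _ (by decide +kernel)
noncomputable def f2_o8c : Pq := (Pq.cons (Pq.L [0,1,2] 0 (Pf.C 0 32899))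
 (Pq.cons (Pq.L [0] 0 (Pf.C 4 3))
 Pq.nil))
theorem f2_o8 : AllRef f2_T f2_G12 (ptObl 14 (PT.br 0 (PT.br 1 (PT.br 2 PT.kid PT.kid) (PT.br 2 PT.kid PT.ref)) PT.ref) []) :=
  chkPq_sound f2_o8c _ (by decide +kernel)
noncomputable def f2_o9c : Pq := (Pq.cons (Pq.L [2] 0 (Pf.C 9 386))
 (Pq.cons (Pq.L [1] 0 (Pf.C 26 131))
 (Pq.cons (Pq.L [0,2] 0 (Pf.B 3 2 (Pf.C 9 386) (Pf.C 75 33152)))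
 Pq.nil)))
theorem f2_o9 : AllRef f2_T f2_G13 (ptObl 4 (PT.br 0 (PT.br 1 (PT.br 2 PT.ref PT.kid) PT.ref) PT.ref) []) :=
  chkPq_sound f2_o9c _ (by decide +kernel)
noncomputable def f2_o10c : Pq := (Pq.cons (Pq.L [0,2] 0 (Pf.C 45 49408))
 (Pq.cons (Pq.L [1] 0 (Pf.C 27 131))
 (Pq.cons (Pq.L [0] 0 (Pf.C 23 384))
 Pq.nil)))
theorem f2_o10 : AllRef f2_T f2_G14 (ptObl 5 (PT.br 0 (PT.br 1 (PT.br 2 PT.ref PT.kid) PT.ref) PT.ref) []) :=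
  chkPq_sound f2_o10c _ (by decide +kernel)
noncomputable def f2_o11c : Pq := Pq.nil
theorem f2_o11 : AllRef f2_T f2_G15 (ptObl 6 PT.kid []) :=
  chkPq_sound f2_o11c _ (by decide +kernel)
noncomputable def f2_o12c : Pq := (Pq.cons (Pq.L [1] 0 (Pf.C 12 131))
 (Pq.cons (Pq.L [0,1,2] 0 (Pf.C 0 0x208003))
 (Pq.cons (Pq.L [1] 0 (Pf.C 12 131))
 Pq.nil)))
theorem f2_o12 : AllRef f2_T f2_G16 (ptObl 20 (PT.br 0 (PT.br 1 (PT.br 2 PT.kid PT.kid) PT.ref) (PT.br 1 (PT.br 2 PT.kid PT.ref) PT.ref)) []) :=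
  chkPq_sound f2_o12c _ (by decide +kernel)
noncomputable def f2_o13c : Pq := Pq.nil
theorem f2_o13 : AllRef f2_T f2_G17 (ptObl 7 PT.kid []) :=
  chkPq_sound f2_o13c _ (by decide +kernel)
noncomputable def f2_o14c : Pq := (Pq.cons (Pq.L [2] 0 (Pf.C 42 259))
 (Pq.cons (Pq.L [2] 0 (Pf.C 42 259))
 (Pq.cons (Pq.L [2] 0 (Pf.C 42 259))
 (Pq.cons (Pq.L [0,1,2] 0 (Pf.B 3 2 (Pf.C 0 0x404003) (Pf.C 42 259)))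
 Pq.nil))))
theorem f2_o14 : AllRef f2_T f2_G18 (ptObl 24 (PT.br 0 (PT.br 1 (PT.br 2 PT.kid PT.ref) (PT.br 2 PT.kid PT.ref)) (PT.br 1 (PT.br 2 PT.kid PT.ref) PT.ref)) []) :=
  chkPq_sound f2_o14c _ (by decide +kernel)
noncomputable def f2_o15c : Pq := (Pq.cons (Pq.L [2] 0 (Pf.C 31 386))
 Pq.nil)
theorem f2_o15 : AllRef f2_T f2_G19 (ptObl 8 PT.ref []) :=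
  chkPq_sound f2_o15c _ (by decide +kernel)
noncomputable def f2_o16c : Pq := (Pq.cons (Pq.L [0,2] 0 (Pf.B 3 2 (Pf.C 44 49154) (Pf.C 32 386)))
 (Pq.cons (Pq.L [2] 0 (Pf.C 32 386))
 (Pq.cons (Pq.L [1] 0 (Pf.C 30 385))
 Pq.nil)))
theorem f2_o16 : AllRef f2_T f2_G20 (ptObl 9 (PT.br 0 PT.ref (PT.br 1 (PT.br 2 PT.kid PT.ref) PT.ref)) []) :=
  chkPq_sound f2_o16c _ (by decide +kernel)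
noncomputable def f2_o17c : Pq := (Pq.cons (Pq.L [1,2] 0 (Pf.B 3 2 (Pf.C 65 49282) (Pf.C 33 386)))
 (Pq.cons (Pq.L [2] 0 (Pf.C 33 386))
 (Pq.cons (Pq.L [0] 0 (Pf.C 25 384))
 Pq.nil)))
theorem f2_o17 : AllRef f2_T f2_G21 (ptObl 10 (PT.br 0 (PT.br 1 PT.ref (PT.br 2 PT.kid PT.ref)) PT.ref) []) :=
  chkPq_sound f2_o17c _ (by decide +kernel)
noncomputable def f2_o18c : Pq := (Pq.cons (Pq.L [2] 0 (Pf.C 34 386))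
 (Pq.cons (Pq.L [2] 0 (Pf.C 34 386))
 (Pq.cons (Pq.L [0] 0 (Pf.C 4 3))
 Pq.nil)))
theorem f2_o18 : AllRef f2_T f2_G22 (ptObl 11 (PT.br 0 (PT.br 1 (PT.br 2 PT.kid PT.ref) (PT.br 2 PT.kid PT.ref)) PT.ref) []) :=
  chkPq_sound f2_o18c _ (by decide +kernel)
noncomputable def f2_o19c : Pq := (Pq.cons (Pq.L [] 1 (Pf.C 18 388))
 (Pq.cons (Pq.L [0] 1 (Pf.C 59 388))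
 (Pq.cons (Pq.L [] 2 (Pf.C 5 389))
 (Pq.cons (Pq.L [] 1 (Pf.C 21 388))
 (Pq.cons (Pq.L [] 2 (Pf.C 16 389))
 (Pq.cons (Pq.L [] 1 (Pf.C 22 388))
 (Pq.cons (Pq.L [] 1 (Pf.C 8 388))
 (Pq.cons (Pq.L [1] 2 (Pf.C 54 49285))
 (Pq.cons (Pq.L [] 1 (Pf.C 4 515))
 (Pq.cons (Pq.L [0,1] 1 (Pf.C 85 0x200203))
 (Pq.cons (Pq.L [1] 2 (Pf.C 53 16773))
 (Pq.cons (Pq.L [] 1 (Pf.C 4 515))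
 (Pq.cons (Pq.L [] 1 (Pf.C 4 515))
 (Pq.cons (Pq.L [2] 2 (Pf.C 53 49413))
 (Pq.cons (Pq.L [0,2] 1 (Pf.C 78 0x400203))
 (Pq.cons (Pq.L [] 1 (Pf.C 4 515))
 (Pq.cons (Pq.L [1] 1 (Pf.C 58 16772))
 (Pq.cons (Pq.L [] 1 (Pf.C 26 388))
 (Pq.cons (Pq.L [] 2 (Pf.C 9 643))
 (Pq.cons (Pq.L [1] 2 (Pf.C 55 49285))
 (Pq.cons (Pq.L [] 1 (Pf.C 23 515))
 (Pq.cons (Pq.L [] 1 (Pf.C 27 388))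
 (Pq.cons (Pq.L [2] 2 (Pf.C 47 82179))
 (Pq.cons (Pq.L [] 1 (Pf.C 29 388))
 (Pq.cons (Pq.L [0,1] 1 (Pf.C 85 0x200184))
 (Pq.cons (Pq.L [] 1 (Pf.C 12 515))
 (Pq.cons (Pq.L [0] 2 (Pf.C 53 82304))
 (Pq.cons (Pq.L [0] 2 (Pf.C 53 82304))
 (Pq.cons (Pq.L [2] 2 (Pf.C 53 82179))
 (Pq.cons (Pq.L [] 1 (Pf.C 12 515))
 (Pq.cons (Pq.L [1,2] 1 (Pf.C 84 0x208184))
 (Pq.cons (Pq.L [2] 2 (Pf.C 54 49794))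
 (Pq.cons (Pq.L [0,2] 1 (Pf.C 78 0x400184))
 (Pq.cons (Pq.L [0] 2 (Pf.C 53 49792))
 (Pq.cons (Pq.L [] 1 (Pf.C 42 515))
 (Pq.cons (Pq.L [] 1 (Pf.C 34 388))
 (Pq.cons (Pq.L [1] 2 (Pf.C 53 17027))
 (Pq.cons (Pq.L [1,2] 1 (Pf.C 84 0x208203))
 (Pq.cons (Pq.L [] 1 (Pf.C 42 515))
 (Pq.cons (Pq.L [] 1 (Pf.C 34 388))
 (Pq.cons (Pq.L [1] 2 (Pf.C 54 49285))
 (Pq.cons (Pq.L [] 1 (Pf.C 30 515))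
 (Pq.cons (Pq.L [] 1 (Pf.C 32 515))
 (Pq.cons (Pq.L [] 1 (Pf.C 38 388))
 (Pq.cons (Pq.L [] 1 (Pf.C 25 515))
 (Pq.cons (Pq.L [0] 2 (Pf.C 53 49792))
 (Pq.cons (Pq.L [] 1 (Pf.C 33 515))
 (Pq.cons (Pq.L [] 1 (Pf.C 2 515))
 (Pq.cons (Pq.L [] 1 (Pf.C 4 515))
 (Pq.cons (Pq.L [0] 2 (Pf.C 53 49792))
 (Pq.cons (Pq.L [] 1 (Pf.C 34 515))
 (Pq.cons (Pq.L [] 1 (Pf.C 2 515))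
 Pq.nil))))))))))))))))))))))))))))))))))))))))))))))))))))
theorem f2_o19 : AllRef f2_T f2_G23 (splitObl [12,13,16,17,18,19,22,23,26,27,28,29,31] [15,21,25,30]) :=
  chkPq_sound f2_o19c _ (by decide +kernel)
noncomputable def f2_o20c : Pq := (Pq.cons (Pq.L [] 63 (Pf.C 0 0xc14203))
 (Pq.cons (Pq.D 0 (Pq.cons (Pq.D 1 (Pq.cons (Pq.L [] 1 (Pf.C 39 515))
 (Pq.cons (Pq.L [] 1 (Pf.C 18 515))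
 (Pq.cons (Pq.L [] 1 (Pf.C 7 388))
 (Pq.cons (Pq.L [] 1 (Pf.C 19 515))
 (Pq.cons (Pq.L [0] 1 (Pf.C 59 515))
 Pq.nil)))))) (Pq.cons (Pq.D 1 (Pq.cons (Pq.L [] 1 (Pf.C 18 388))
 (Pq.cons (Pq.L [] 1 (Pf.C 4 515))
 (Pq.cons (Pq.L [1] 1 (Pf.C 58 16772))
 (Pq.cons (Pq.L [] 1 (Pf.C 23 515))
 (Pq.cons (Pq.L [0,1] 1 (Pf.C 85 0x200184))
 Pq.nil)))))) (Pq.cons (Pq.D 1 (Pq.cons (Pq.L [] 1 (Pf.C 7 515))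
 (Pq.cons (Pq.L [1] 1 (Pf.C 58 16899))
 (Pq.cons (Pq.L [] 1 (Pf.C 41 515))
 (Pq.cons (Pq.L [] 1 (Pf.C 7 515))
 (Pq.cons (Pq.L [] 1 (Pf.C 26 515))
 Pq.nil)))))) (Pq.cons (Pq.D 1 (Pq.cons (Pq.L [] 1 (Pf.C 19 388))
 (Pq.cons (Pq.L [] 1 (Pf.C 23 388))
 (Pq.cons (Pq.L [] 1 (Pf.C 7 388))
 (Pq.cons (Pq.L [] 1 (Pf.C 13 515))
 (Pq.cons (Pq.L [] 1 (Pf.C 27 515))
 Pq.nil)))))) (Pq.cons (Pq.D 1 (Pq.cons (Pq.L [0] 1 (Pf.C 59 388))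
 (Pq.cons (Pq.L [0,1] 1 (Pf.C 85 0x200203))
 (Pq.cons (Pq.L [] 1 (Pf.C 26 388))
 (Pq.cons (Pq.L [] 1 (Pf.C 27 388))
 (Pq.cons (Pq.L [] 1 (Pf.C 12 515))
 Pq.nil)))))) Pq.nil)))))) (Pq.cons (Pq.D 0 (Pq.cons (Pq.D 1 (Pq.cons (Pq.L [] 1 (Pf.C 40 515))
 (Pq.cons (Pq.L [] 1 (Pf.C 22 515))
 (Pq.cons (Pq.L [] 1 (Pf.C 8 515))
 (Pq.cons (Pq.L [] 1 (Pf.C 8 515))
 Pq.nil))))) (Pq.cons (Pq.D 1 (Pq.cons (Pq.L [] 1 (Pf.C 22 388))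
 (Pq.cons (Pq.L [] 1 (Pf.C 12 515))
 (Pq.cons (Pq.L [1,2] 1 (Pf.C 84 0x208203))
 (Pq.cons (Pq.L [] 1 (Pf.C 30 515))
 Pq.nil))))) (Pq.cons (Pq.D 1 (Pq.cons (Pq.L [] 1 (Pf.C 8 388))
 (Pq.cons (Pq.L [1,2] 1 (Pf.C 84 0x208184))
 (Pq.cons (Pq.L [] 1 (Pf.C 42 515))
 (Pq.cons (Pq.L [] 1 (Pf.C 32 515))
 Pq.nil))))) (Pq.cons (Pq.D 1 (Pq.cons (Pq.L [] 1 (Pf.C 8 388))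
 (Pq.cons (Pq.L [] 1 (Pf.C 30 388))
 (Pq.cons (Pq.L [] 1 (Pf.C 32 388))
 (Pq.cons (Pq.L [] 1 (Pf.C 11 515))
 Pq.nil))))) Pq.nil))))) (Pq.cons (Pq.D 0 (Pq.cons (Pq.D 1 (Pq.cons (Pq.L [] 1 (Pf.C 4 515))
 (Pq.cons (Pq.L [0,2] 1 (Pf.C 78 0x400184))
 (Pq.cons (Pq.L [] 1 (Pf.C 25 515))
 (Pq.cons (Pq.L [] 1 (Pf.C 4 515))
 Pq.nil))))) (Pq.cons (Pq.D 1 (Pq.cons (Pq.L [0,2] 1 (Pf.C 78 0x400203))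
 (Pq.cons (Pq.L [] 1 (Pf.C 42 515))
 (Pq.cons (Pq.L [] 1 (Pf.C 33 515))
 (Pq.cons (Pq.L [] 1 (Pf.C 34 515))
 Pq.nil))))) (Pq.cons (Pq.D 1 (Pq.cons (Pq.L [] 1 (Pf.C 25 388))
 (Pq.cons (Pq.L [] 1 (Pf.C 33 388))
 (Pq.cons (Pq.L [] 1 (Pf.C 2 515))
 (Pq.cons (Pq.L [] 1 (Pf.C 2 515))
 Pq.nil))))) (Pq.cons (Pq.D 1 (Pq.cons (Pq.L [] 1 (Pf.C 4 515))
 (Pq.cons (Pq.L [] 1 (Pf.C 34 388))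
 (Pq.cons (Pq.L [] 1 (Pf.C 2 515))
 (Pq.cons (Pq.L [] 1 (Pf.C 2 515))
 Pq.nil))))) Pq.nil))))) (Pq.cons (Pq.D 1 (Pq.cons (Pq.D 2 (Pq.cons (Pq.L [] 4 (Pf.C 16 644))
 (Pq.cons (Pq.D 0 (Pq.cons (Pq.L [] 2 (Pf.C 5 643))
 (Pq.cons (Pq.L [] 1 (Pf.C 16 388))
 (Pq.cons (Pq.L [] 2 (Pf.C 9 389))
 (Pq.cons (Pq.L [2] 2 (Pf.C 47 49413))
 (Pq.cons (Pq.L [0] 2 (Pf.C 53 49792))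
 Pq.nil)))))) (Pq.cons (Pq.D 0 (Pq.cons (Pq.L [] 1 (Pf.C 10 515))
 (Pq.cons (Pq.L [] 1 (Pf.C 16 388))
 (Pq.cons (Pq.L [] 2 (Pf.C 14 643))
 (Pq.cons (Pq.L [] 7 (Pf.C 55 82435))
 (Pq.cons (Pq.L [0] 2 (Pf.C 53 49792))
 Pq.nil)))))) (Pq.cons (Pq.D 0 (Pq.cons (Pq.L [] 1 (Pf.C 10 515))
 (Pq.cons (Pq.L [] 1 (Pf.C 16 388))
 (Pq.cons (Pq.L [] 7 (Pf.C 54 82308))
 (Pq.cons (Pq.L [] 7 (Pf.C 55 82435))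
 (Pq.cons (Pq.L [0] 2 (Pf.C 53 49792))
 Pq.nil)))))) Pq.nil))))) (Pq.cons (Pq.D 2 (Pq.cons (Pq.L [2] 4 (Pf.C 53 65797))
 (Pq.cons (Pq.D 0 (Pq.cons (Pq.L [] 2 (Pf.C 5 643))
 (Pq.cons (Pq.L [] 7 (Pf.C 53 66179))
 (Pq.cons (Pq.L [] 2 (Pf.C 9 389))
 (Pq.cons (Pq.L [2] 2 (Pf.C 47 49413))
 (Pq.cons (Pq.L [0] 2 (Pf.C 53 49792))
 Pq.nil)))))) (Pq.cons (Pq.D 0 (Pq.cons (Pq.L [] 7 (Pf.C 53 66179))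
 (Pq.cons (Pq.L [] 7 (Pf.C 53 66179))
 (Pq.cons (Pq.L [] 2 (Pf.C 14 643))
 (Pq.cons (Pq.L [] 7 (Pf.C 55 82435))
 (Pq.cons (Pq.L [0] 2 (Pf.C 53 49792))
 Pq.nil)))))) (Pq.cons (Pq.L [2] 4 (Pf.C 54 82434))
 Pq.nil))))) (Pq.cons (Pq.D 2 (Pq.cons (Pq.D 0 (Pq.cons (Pq.L [] 1 (Pf.C 5 515))
 (Pq.cons (Pq.L [1] 1 (Pf.C 53 16899))
 (Pq.cons (Pq.L [] 1 (Pf.C 9 388))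
 (Pq.cons (Pq.L [0] 1 (Pf.C 45 49664))
 (Pq.cons (Pq.L [] 7 (Pf.C 53 49669))
 Pq.nil)))))) (Pq.cons (Pq.D 0 (Pq.cons (Pq.L [] 1 (Pf.C 5 515))
 (Pq.cons (Pq.L [1] 1 (Pf.C 53 16899))
 (Pq.cons (Pq.L [] 1 (Pf.C 9 388))
 (Pq.cons (Pq.L [0] 1 (Pf.C 45 49664))
 (Pq.cons (Pq.L [0] 2 (Pf.C 53 49792))
 Pq.nil)))))) (Pq.cons (Pq.D 0 (Pq.cons (Pq.L [] 1 (Pf.C 5 515))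
 (Pq.cons (Pq.L [1] 1 (Pf.C 53 16899))
 (Pq.cons (Pq.L [] 1 (Pf.C 9 388))
 (Pq.cons (Pq.L [0] 1 (Pf.C 45 49664))
 (Pq.cons (Pq.L [0] 2 (Pf.C 53 49792))
 Pq.nil)))))) (Pq.cons (Pq.D 0 (Pq.cons (Pq.L [] 1 (Pf.C 5 515))
 (Pq.cons (Pq.L [1] 1 (Pf.C 53 16899))
 (Pq.cons (Pq.L [] 1 (Pf.C 9 388))
 (Pq.cons (Pq.L [0] 1 (Pf.C 45 49664))
 (Pq.cons (Pq.L [0] 2 (Pf.C 53 49792))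
 Pq.nil)))))) Pq.nil))))) (Pq.cons (Pq.D 2 (Pq.cons (Pq.D 0 (Pq.cons (Pq.L [2] 1 (Pf.C 44 65922))
 (Pq.cons (Pq.L [2] 1 (Pf.C 44 65922))
 (Pq.cons (Pq.L [] 7 (Pf.C 54 82308))
 (Pq.cons (Pq.L [2] 1 (Pf.C 61 49412))
 (Pq.cons (Pq.L [] 7 (Pf.C 54 82308))
 Pq.nil)))))) (Pq.cons (Pq.D 0 (Pq.cons (Pq.L [] 2 (Pf.C 5 643))
 (Pq.cons (Pq.L [2] 1 (Pf.C 44 65922))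
 (Pq.cons (Pq.L [] 2 (Pf.C 9 389))
 (Pq.cons (Pq.L [2] 2 (Pf.C 47 49413))
 (Pq.cons (Pq.L [0] 2 (Pf.C 53 49792))
 Pq.nil)))))) (Pq.cons (Pq.D 0 (Pq.cons (Pq.L [2] 1 (Pf.C 44 65922))
 (Pq.cons (Pq.L [2] 1 (Pf.C 44 65922))
 (Pq.cons (Pq.L [] 2 (Pf.C 14 643))
 (Pq.cons (Pq.L [2] 1 (Pf.C 61 49412))
 (Pq.cons (Pq.L [0] 2 (Pf.C 53 49792))
 Pq.nil)))))) (Pq.cons (Pq.D 0 (Pq.cons (Pq.L [2] 1 (Pf.C 44 65922))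
 (Pq.cons (Pq.L [2] 1 (Pf.C 44 65922))
 (Pq.cons (Pq.L [] 7 (Pf.C 54 82308))
 (Pq.cons (Pq.L [2] 1 (Pf.C 61 49412))
 (Pq.cons (Pq.L [0] 2 (Pf.C 53 49792))
 Pq.nil)))))) Pq.nil))))) Pq.nil))))) (Pq.cons (Pq.D 2 (Pq.cons (Pq.D 1 (Pq.cons (Pq.D 3 (Pq.cons (Pq.L [] 8 (Pf.C 10 772))
 (Pq.cons (Pq.D 0 (Pq.cons (Pq.L [] 1 (Pf.C 10 643))
 (Pq.cons (Pq.L [] 1 (Pf.C 16 389))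
 (Pq.cons (Pq.L [] 2 (Pf.C 26 771))
 (Pq.cons (Pq.L [] 2 (Pf.C 27 771))
 (Pq.cons (Pq.L [] 2 (Pf.C 12 771))
 Pq.nil)))))) (Pq.cons (Pq.L [] 8 (Pf.C 5 772))
 (Pq.cons (Pq.L [2] 8 (Pf.C 44 98818))
 Pq.nil))))) (Pq.cons (Pq.D 3 (Pq.cons (Pq.L [] 8 (Pf.C 16 518))
 (Pq.cons (Pq.D 0 (Pq.cons (Pq.L [] 1 (Pf.C 10 643))
 (Pq.cons (Pq.L [] 1 (Pf.C 16 389))
 (Pq.cons (Pq.L [] 2 (Pf.C 26 771))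
 (Pq.cons (Pq.L [] 2 (Pf.C 27 771))
 (Pq.cons (Pq.L [] 2 (Pf.C 12 771))
 Pq.nil)))))) (Pq.cons (Pq.L [1] 8 (Pf.C 53 17156))
 (Pq.cons (Pq.L [2] 8 (Pf.C 44 98818))
 Pq.nil))))) (Pq.cons (Pq.D 3 (Pq.cons (Pq.D 0 (Pq.cons (Pq.L [] 1 (Pf.C 10 643))
 (Pq.cons (Pq.L [] 1 (Pf.C 16 389))
 (Pq.cons (Pq.L [] 15 (Pf.B 6 5 (Pf.B 4 3 (Pf.C 86 0x618284) (Pf.C 41 388)) (Pf.C 40 646)))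
 (Pq.cons (Pq.L [] 5 (Pf.B 4 3 (Pf.C 60 49796) (Pf.C 7 388)))
 (Pq.cons (Pq.L [] 2 (Pf.C 22 390))
 Pq.nil)))))) (Pq.cons (Pq.D 0 (Pq.cons (Pq.L [] 1 (Pf.C 10 643))
 (Pq.cons (Pq.L [] 1 (Pf.C 16 389))
 (Pq.cons (Pq.L [] 2 (Pf.C 26 771))
 (Pq.cons (Pq.L [] 2 (Pf.C 27 771))
 (Pq.cons (Pq.L [] 2 (Pf.C 12 771))
 Pq.nil)))))) (Pq.cons (Pq.L [] 8 (Pf.C 9 518))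
 (Pq.cons (Pq.L [] 12 (Pf.B 6 5 (Pf.C 64 98821) (Pf.C 8 773)))
 Pq.nil))))) (Pq.cons (Pq.D 3 (Pq.cons (Pq.D 0 (Pq.cons (Pq.L [] 1 (Pf.C 10 643))
 (Pq.cons (Pq.L [] 1 (Pf.C 16 389))
 (Pq.cons (Pq.L [] 10 (Pf.B 4 3 (Pf.C 60 66307) (Pf.C 7 515)))
 (Pq.cons (Pq.L [] 15 (Pf.B 6 5 (Pf.B 4 3 (Pf.C 86 0x618284) (Pf.C 13 388)) (Pf.C 40 646)))
 (Pq.cons (Pq.L [] 2 (Pf.C 22 390))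
 Pq.nil)))))) (Pq.cons (Pq.D 0 (Pq.cons (Pq.L [] 1 (Pf.C 10 643))
 (Pq.cons (Pq.L [] 1 (Pf.C 16 389))
 (Pq.cons (Pq.L [] 2 (Pf.C 26 771))
 (Pq.cons (Pq.L [] 2 (Pf.C 27 771))
 (Pq.cons (Pq.L [] 2 (Pf.C 12 771))
 Pq.nil)))))) (Pq.cons (Pq.L [0] 8 (Pf.C 45 66304))
 (Pq.cons (Pq.L [2] 8 (Pf.C 61 65798))
 Pq.nil))))) (Pq.cons (Pq.L [] 4 (Pf.C 22 517))
 Pq.nil)))))) (Pq.cons (Pq.D 1 (Pq.cons (Pq.D 3 (Pq.cons (Pq.L [] 8 (Pf.C 10 772))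
 (Pq.cons (Pq.D 0 (Pq.cons (Pq.L [] 15 (Pf.B 6 5 (Pf.B 4 3 (Pf.C 86 0x618284) (Pf.C 39 388)) (Pf.C 12 646)))
 (Pq.cons (Pq.L [] 5 (Pf.B 4 3 (Pf.C 59 49796) (Pf.C 18 388)))
 (Pq.cons (Pq.L [] 2 (Pf.C 26 771))
 (Pq.cons (Pq.L [] 2 (Pf.C 27 771))
 (Pq.cons (Pq.L [] 2 (Pf.C 12 771))
 Pq.nil)))))) (Pq.cons (Pq.L [] 8 (Pf.C 5 772))
 (Pq.cons (Pq.L [2] 8 (Pf.C 44 98818))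
 Pq.nil))))) (Pq.cons (Pq.D 3 (Pq.cons (Pq.L [] 8 (Pf.C 16 518))
 (Pq.cons (Pq.D 0 (Pq.cons (Pq.L [] 10 (Pf.B 4 3 (Pf.C 59 66307) (Pf.C 18 515)))
 (Pq.cons (Pq.L [] 15 (Pf.B 6 5 (Pf.B 4 3 (Pf.C 85 0xc0c205) (Pf.C 4 388)) (Pf.C 12 646)))
 (Pq.cons (Pq.L [] 2 (Pf.C 26 771))
 (Pq.cons (Pq.L [] 2 (Pf.C 27 771))
 (Pq.cons (Pq.L [] 2 (Pf.C 12 771))
 Pq.nil)))))) (Pq.cons (Pq.L [1] 8 (Pf.C 53 17156))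
 (Pq.cons (Pq.L [2] 8 (Pf.C 44 98818))
 Pq.nil))))) (Pq.cons (Pq.L [] 4 (Pf.C 26 644))
 (Pq.cons (Pq.L [] 4 (Pf.C 27 644))
 (Pq.cons (Pq.L [] 4 (Pf.C 12 644))
 Pq.nil)))))) (Pq.cons (Pq.D 1 (Pq.cons (Pq.D 3 (Pq.cons (Pq.L [] 8 (Pf.C 10 772))
 (Pq.cons (Pq.D 0 (Pq.cons (Pq.L [] 1 (Pf.C 5 643))
 (Pq.cons (Pq.L [1] 1 (Pf.C 53 17027))
 (Pq.cons (Pq.L [] 1 (Pf.C 9 389))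
 (Pq.cons (Pq.L [] 2 (Pf.C 27 771))
 (Pq.cons (Pq.L [] 2 (Pf.C 12 771))
 Pq.nil)))))) (Pq.cons (Pq.L [] 8 (Pf.C 5 772))
 (Pq.cons (Pq.L [2] 8 (Pf.C 44 98818))
 Pq.nil))))) (Pq.cons (Pq.D 3 (Pq.cons (Pq.L [] 8 (Pf.C 16 518))
 (Pq.cons (Pq.D 0 (Pq.cons (Pq.L [] 1 (Pf.C 5 643))
 (Pq.cons (Pq.L [1] 1 (Pf.C 53 17027))
 (Pq.cons (Pq.L [] 1 (Pf.C 9 389))
 (Pq.cons (Pq.L [] 2 (Pf.C 27 771))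
 (Pq.cons (Pq.L [] 2 (Pf.C 12 771))
 Pq.nil)))))) (Pq.cons (Pq.L [1] 8 (Pf.C 53 17156))
 (Pq.cons (Pq.L [2] 8 (Pf.C 44 98818))
 Pq.nil))))) (Pq.cons (Pq.D 3 (Pq.cons (Pq.D 0 (Pq.cons (Pq.L [] 1 (Pf.C 5 643))
 (Pq.cons (Pq.L [1] 1 (Pf.C 53 17027))
 (Pq.cons (Pq.L [] 1 (Pf.C 9 389))
 (Pq.cons (Pq.L [0] 1 (Pf.C 45 49792))
 (Pq.cons (Pq.L [] 2 (Pf.C 22 390))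
 Pq.nil)))))) (Pq.cons (Pq.D 0 (Pq.cons (Pq.L [] 1 (Pf.C 5 643))
 (Pq.cons (Pq.L [1] 1 (Pf.C 53 17027))
 (Pq.cons (Pq.L [] 1 (Pf.C 9 389))
 (Pq.cons (Pq.L [] 2 (Pf.C 27 771))
 (Pq.cons (Pq.L [] 2 (Pf.C 12 771))
 Pq.nil)))))) (Pq.cons (Pq.L [] 8 (Pf.C 9 518))
 (Pq.cons (Pq.D 0 (Pq.cons (Pq.L [] 1 (Pf.C 5 643))
 (Pq.cons (Pq.L [1] 1 (Pf.C 53 17027))
 (Pq.cons (Pq.L [] 1 (Pf.C 9 389))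
 (Pq.cons (Pq.L [0] 1 (Pf.C 45 49792))
 (Pq.cons (Pq.L [] 2 (Pf.C 30 771))
 Pq.nil)))))) Pq.nil))))) (Pq.cons (Pq.D 3 (Pq.cons (Pq.D 0 (Pq.cons (Pq.L [] 1 (Pf.C 5 643))
 (Pq.cons (Pq.L [1] 1 (Pf.C 53 17027))
 (Pq.cons (Pq.L [] 1 (Pf.C 9 389))
 (Pq.cons (Pq.L [0] 1 (Pf.C 45 49792))
 (Pq.cons (Pq.L [] 2 (Pf.C 22 390))
 Pq.nil)))))) (Pq.cons (Pq.D 0 (Pq.cons (Pq.L [] 1 (Pf.C 5 643))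
 (Pq.cons (Pq.L [1] 1 (Pf.C 53 17027))
 (Pq.cons (Pq.L [] 1 (Pf.C 9 389))
 (Pq.cons (Pq.L [] 2 (Pf.C 27 771))
 (Pq.cons (Pq.L [] 2 (Pf.C 12 771))
 Pq.nil)))))) (Pq.cons (Pq.L [0] 8 (Pf.C 45 66304))
 (Pq.cons (Pq.L [2] 8 (Pf.C 61 65798))
 Pq.nil))))) (Pq.cons (Pq.D 3 (Pq.cons (Pq.D 0 (Pq.cons (Pq.L [] 1 (Pf.C 5 643))
 (Pq.cons (Pq.L [1] 1 (Pf.C 53 17027))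
 (Pq.cons (Pq.L [] 1 (Pf.C 9 389))
 (Pq.cons (Pq.L [0] 1 (Pf.C 45 49792))
 (Pq.cons (Pq.L [] 2 (Pf.C 22 390))
 Pq.nil)))))) (Pq.cons (Pq.D 0 (Pq.cons (Pq.L [] 1 (Pf.C 5 643))
 (Pq.cons (Pq.L [1] 1 (Pf.C 53 17027))
 (Pq.cons (Pq.L [] 1 (Pf.C 9 389))
 (Pq.cons (Pq.L [] 2 (Pf.C 27 771))
 (Pq.cons (Pq.L [] 2 (Pf.C 12 771))
 Pq.nil)))))) (Pq.cons (Pq.D 0 (Pq.cons (Pq.L [] 1 (Pf.C 5 643))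
 (Pq.cons (Pq.L [1] 1 (Pf.C 53 17027))
 (Pq.cons (Pq.L [] 1 (Pf.C 9 389))
 (Pq.cons (Pq.L [0] 1 (Pf.C 45 49792))
 (Pq.cons (Pq.L [] 15 (Pf.B 6 5 (Pf.B 4 3 (Pf.C 84 0x618284) (Pf.C 12 388)) (Pf.C 42 646)))
 Pq.nil)))))) (Pq.cons (Pq.D 0 (Pq.cons (Pq.L [] 1 (Pf.C 5 643))
 (Pq.cons (Pq.L [1] 1 (Pf.C 53 17027))
 (Pq.cons (Pq.L [] 1 (Pf.C 9 389))
 (Pq.cons (Pq.L [0] 1 (Pf.C 45 49792))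
 (Pq.cons (Pq.L [] 2 (Pf.C 30 771))
 Pq.nil)))))) Pq.nil))))) Pq.nil)))))) (Pq.cons (Pq.D 1 (Pq.cons (Pq.D 3 (Pq.cons (Pq.L [] 8 (Pf.C 10 772))
 (Pq.cons (Pq.D 0 (Pq.cons (Pq.L [2] 1 (Pf.C 44 82306))
 (Pq.cons (Pq.L [2] 1 (Pf.C 44 82306))
 (Pq.cons (Pq.L [] 2 (Pf.C 26 771))
 (Pq.cons (Pq.L [] 2 (Pf.C 27 771))
 (Pq.cons (Pq.L [] 2 (Pf.C 12 771))
 Pq.nil)))))) (Pq.cons (Pq.L [] 8 (Pf.C 5 772))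
 (Pq.cons (Pq.L [2] 8 (Pf.C 44 98818))
 Pq.nil))))) (Pq.cons (Pq.D 3 (Pq.cons (Pq.L [] 8 (Pf.C 16 518))
 (Pq.cons (Pq.D 0 (Pq.cons (Pq.L [2] 1 (Pf.C 44 82306))
 (Pq.cons (Pq.L [2] 1 (Pf.C 44 82306))
 (Pq.cons (Pq.L [] 2 (Pf.C 26 771))
 (Pq.cons (Pq.L [] 2 (Pf.C 27 771))
 (Pq.cons (Pq.L [] 2 (Pf.C 12 771))
 Pq.nil)))))) (Pq.cons (Pq.L [1] 8 (Pf.C 53 17156))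
 (Pq.cons (Pq.L [2] 8 (Pf.C 44 98818))
 Pq.nil))))) (Pq.cons (Pq.D 3 (Pq.cons (Pq.D 0 (Pq.cons (Pq.L [2] 1 (Pf.C 44 82306))
 (Pq.cons (Pq.L [2] 1 (Pf.C 44 82306))
 (Pq.cons (Pq.L [] 3 (Pf.B 6 5 (Pf.C 64 82310) (Pf.C 8 646)))
 (Pq.cons (Pq.L [2] 1 (Pf.C 61 49413))
 (Pq.cons (Pq.L [] 2 (Pf.C 22 390))
 Pq.nil)))))) (Pq.cons (Pq.D 0 (Pq.cons (Pq.L [2] 1 (Pf.C 44 82306))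
 (Pq.cons (Pq.L [2] 1 (Pf.C 44 82306))
 (Pq.cons (Pq.L [] 2 (Pf.C 26 771))
 (Pq.cons (Pq.L [] 2 (Pf.C 27 771))
 (Pq.cons (Pq.L [] 2 (Pf.C 12 771))
 Pq.nil)))))) (Pq.cons (Pq.L [] 8 (Pf.C 9 518))
 (Pq.cons (Pq.D 0 (Pq.cons (Pq.L [2] 1 (Pf.C 44 82306))
 (Pq.cons (Pq.L [2] 1 (Pf.C 44 82306))
 (Pq.cons (Pq.L [] 15 (Pf.B 6 5 (Pf.B 4 3 (Pf.C 84 0x618284) (Pf.C 41 388)) (Pf.C 11 646)))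
 (Pq.cons (Pq.L [2] 1 (Pf.C 61 49413))
 (Pq.cons (Pq.L [] 2 (Pf.C 30 771))
 Pq.nil)))))) Pq.nil))))) (Pq.cons (Pq.D 3 (Pq.cons (Pq.D 0 (Pq.cons (Pq.L [2] 1 (Pf.C 44 82306))
 (Pq.cons (Pq.L [2] 1 (Pf.C 44 82306))
 (Pq.cons (Pq.L [] 3 (Pf.B 6 5 (Pf.C 64 82310) (Pf.C 8 646)))
 (Pq.cons (Pq.L [2] 1 (Pf.C 61 49413))
 (Pq.cons (Pq.L [] 2 (Pf.C 22 390))
 Pq.nil)))))) (Pq.cons (Pq.D 0 (Pq.cons (Pq.L [2] 1 (Pf.C 44 82306))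
 (Pq.cons (Pq.L [2] 1 (Pf.C 44 82306))
 (Pq.cons (Pq.L [] 2 (Pf.C 26 771))
 (Pq.cons (Pq.L [] 2 (Pf.C 27 771))
 (Pq.cons (Pq.L [] 2 (Pf.C 12 771))
 Pq.nil)))))) (Pq.cons (Pq.L [0] 8 (Pf.C 45 66304))
 (Pq.cons (Pq.L [2] 8 (Pf.C 61 65798))
 Pq.nil))))) (Pq.cons (Pq.L [] 4 (Pf.C 30 644))
 Pq.nil)))))) Pq.nil))))) Pq.nil))))))
theorem f2_o20 : AllRef f2_T f2_G23 (List.take 6 (applyObl f3_T 8 [12,13,16,17,18,19,22,23,26,27,28,29,31] [1,2,1,3,1,1,1,2,3,2,2,3,3] [])) :=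
  chkPq_sound f2_o20c _ (by decide +kernel)
noncomputable def f2_o21c : Pq := (Pq.cons (Pq.D 2 (Pq.cons (Pq.D 1 (Pq.cons (Pq.L [] 4 (Pf.C 18 644))
 (Pq.cons (Pq.L [] 4 (Pf.C 4 644))
 (Pq.cons (Pq.D 3 (Pq.cons (Pq.D 0 (Pq.cons (Pq.L [] 2 (Pf.C 18 771))
 (Pq.cons (Pq.L [] 2 (Pf.C 4 771))
 (Pq.cons (Pq.L [] 15 (Pf.B 6 5 (Pf.B 4 3 (Pf.C 80 0xc0c205) (Pf.C 41 388)) (Pf.C 4 646)))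
 (Pq.cons (Pq.L [] 2 (Pf.C 23 390))
 (Pq.cons (Pq.L [] 5 (Pf.B 4 3 (Pf.C 58 49796) (Pf.C 26 388)))
 Pq.nil)))))) (Pq.cons (Pq.L [] 8 (Pf.C 9 518))
 (Pq.cons (Pq.L [] 8 (Pf.C 14 772))
 (Pq.cons (Pq.L [] 12 (Pf.B 6 5 (Pf.C 46 98821) (Pf.C 4 646)))
 Pq.nil))))) (Pq.cons (Pq.L [] 4 (Pf.C 23 517))
 (Pq.cons (Pq.D 3 (Pq.cons (Pq.D 0 (Pq.cons (Pq.L [] 2 (Pf.C 18 771))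
 (Pq.cons (Pq.L [] 2 (Pf.C 4 771))
 (Pq.cons (Pq.L [] 10 (Pf.B 4 3 (Pf.C 58 66307) (Pf.C 26 515)))
 (Pq.cons (Pq.L [] 2 (Pf.C 23 390))
 (Pq.cons (Pq.L [] 15 (Pf.B 6 5 (Pf.B 4 3 (Pf.C 85 0x618284) (Pf.C 12 388)) (Pf.C 4 646)))
 Pq.nil)))))) (Pq.cons (Pq.L [0] 8 (Pf.C 53 66304))
 (Pq.cons (Pq.L [0] 8 (Pf.C 53 66304))
 (Pq.cons (Pq.L [0] 8 (Pf.C 53 66304))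
 Pq.nil))))) Pq.nil)))))) (Pq.cons (Pq.D 1 (Pq.cons (Pq.D 3 (Pq.cons (Pq.D 0 (Pq.cons (Pq.L [] 1 (Pf.C 5 643))
 (Pq.cons (Pq.L [] 2 (Pf.C 4 771))
 (Pq.cons (Pq.L [] 1 (Pf.C 9 389))
 (Pq.cons (Pq.L [] 2 (Pf.C 23 390))
 (Pq.cons (Pq.L [0] 1 (Pf.C 53 49792))
 Pq.nil)))))) (Pq.cons (Pq.L [] 8 (Pf.C 5 772))
 (Pq.cons (Pq.D 0 (Pq.cons (Pq.L [] 1 (Pf.C 5 643))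
 (Pq.cons (Pq.L [] 2 (Pf.C 25 771))
 (Pq.cons (Pq.L [] 1 (Pf.C 9 389))
 (Pq.cons (Pq.L [2] 1 (Pf.C 47 49413))
 (Pq.cons (Pq.L [0] 1 (Pf.C 53 49792))
 Pq.nil)))))) (Pq.cons (Pq.D 0 (Pq.cons (Pq.L [] 1 (Pf.C 5 643))
 (Pq.cons (Pq.L [] 2 (Pf.C 4 771))
 (Pq.cons (Pq.L [] 1 (Pf.C 9 389))
 (Pq.cons (Pq.L [] 2 (Pf.C 29 771))
 (Pq.cons (Pq.L [0] 1 (Pf.C 53 49792))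
 Pq.nil)))))) Pq.nil))))) (Pq.cons (Pq.D 3 (Pq.cons (Pq.D 0 (Pq.cons (Pq.L [] 1 (Pf.C 5 643))
 (Pq.cons (Pq.L [] 2 (Pf.C 4 771))
 (Pq.cons (Pq.L [] 1 (Pf.C 9 389))
 (Pq.cons (Pq.L [] 2 (Pf.C 23 390))
 (Pq.cons (Pq.L [0] 1 (Pf.C 53 49792))
 Pq.nil)))))) (Pq.cons (Pq.D 0 (Pq.cons (Pq.L [] 1 (Pf.C 5 643))
 (Pq.cons (Pq.L [] 15 (Pf.B 6 5 (Pf.B 4 3 (Pf.C 78 0xc0c205) (Pf.C 4 388)) (Pf.C 42 646)))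
 (Pq.cons (Pq.L [] 1 (Pf.C 9 389))
 (Pq.cons (Pq.L [2] 1 (Pf.C 47 49413))
 (Pq.cons (Pq.L [0] 1 (Pf.C 53 49792))
 Pq.nil)))))) (Pq.cons (Pq.D 0 (Pq.cons (Pq.L [] 1 (Pf.C 5 643))
 (Pq.cons (Pq.L [] 2 (Pf.C 25 771))
 (Pq.cons (Pq.L [] 1 (Pf.C 9 389))
 (Pq.cons (Pq.L [2] 1 (Pf.C 47 49413))
 (Pq.cons (Pq.L [0] 1 (Pf.C 53 49792))
 Pq.nil)))))) (Pq.cons (Pq.D 0 (Pq.cons (Pq.L [] 1 (Pf.C 5 643))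
 (Pq.cons (Pq.L [] 2 (Pf.C 4 771))
 (Pq.cons (Pq.L [] 1 (Pf.C 9 389))
 (Pq.cons (Pq.L [] 2 (Pf.C 29 771))
 (Pq.cons (Pq.L [0] 1 (Pf.C 53 49792))
 Pq.nil)))))) Pq.nil))))) (Pq.cons (Pq.D 3 (Pq.cons (Pq.D 0 (Pq.cons (Pq.L [] 1 (Pf.C 5 643))
 (Pq.cons (Pq.L [] 2 (Pf.C 4 771))
 (Pq.cons (Pq.L [] 1 (Pf.C 9 389))
 (Pq.cons (Pq.L [] 2 (Pf.C 23 390))
 (Pq.cons (Pq.L [0] 1 (Pf.C 53 49792))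
 Pq.nil)))))) (Pq.cons (Pq.L [] 8 (Pf.C 9 518))
 (Pq.cons (Pq.L [] 8 (Pf.C 14 772))
 (Pq.cons (Pq.D 0 (Pq.cons (Pq.L [] 1 (Pf.C 5 643))
 (Pq.cons (Pq.L [] 2 (Pf.C 4 771))
 (Pq.cons (Pq.L [] 1 (Pf.C 9 389))
 (Pq.cons (Pq.L [] 2 (Pf.C 29 771))
 (Pq.cons (Pq.L [0] 1 (Pf.C 53 49792))
 Pq.nil)))))) Pq.nil))))) (Pq.cons (Pq.D 3 (Pq.cons (Pq.D 0 (Pq.cons (Pq.L [] 1 (Pf.C 5 643))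
 (Pq.cons (Pq.L [] 2 (Pf.C 4 771))
 (Pq.cons (Pq.L [] 1 (Pf.C 9 389))
 (Pq.cons (Pq.L [] 2 (Pf.C 23 390))
 (Pq.cons (Pq.L [0] 1 (Pf.C 53 49792))
 Pq.nil)))))) (Pq.cons (Pq.L [2] 8 (Pf.C 47 65798))
 (Pq.cons (Pq.D 0 (Pq.cons (Pq.L [] 1 (Pf.C 5 643))
 (Pq.cons (Pq.L [] 2 (Pf.C 25 771))
 (Pq.cons (Pq.L [] 1 (Pf.C 9 389))
 (Pq.cons (Pq.L [2] 1 (Pf.C 47 49413))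
 (Pq.cons (Pq.L [0] 1 (Pf.C 53 49792))
 Pq.nil)))))) (Pq.cons (Pq.D 0 (Pq.cons (Pq.L [] 1 (Pf.C 5 643))
 (Pq.cons (Pq.L [] 2 (Pf.C 4 771))
 (Pq.cons (Pq.L [] 1 (Pf.C 9 389))
 (Pq.cons (Pq.L [] 2 (Pf.C 29 771))
 (Pq.cons (Pq.L [0] 1 (Pf.C 53 49792))
 Pq.nil)))))) Pq.nil))))) (Pq.cons (Pq.D 3 (Pq.cons (Pq.D 0 (Pq.cons (Pq.L [] 1 (Pf.C 5 643))
 (Pq.cons (Pq.L [] 2 (Pf.C 4 771))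
 (Pq.cons (Pq.L [] 1 (Pf.C 9 389))
 (Pq.cons (Pq.L [] 2 (Pf.C 23 390))
 (Pq.cons (Pq.L [0] 1 (Pf.C 53 49792))
 Pq.nil)))))) (Pq.cons (Pq.L [0] 8 (Pf.C 53 66304))
 (Pq.cons (Pq.L [0] 8 (Pf.C 53 66304))
 (Pq.cons (Pq.L [0] 8 (Pf.C 53 66304))
 Pq.nil))))) Pq.nil)))))) (Pq.cons (Pq.D 1 (Pq.cons (Pq.D 3 (Pq.cons (Pq.D 0 (Pq.cons (Pq.L [] 2 (Pf.C 18 771))
 (Pq.cons (Pq.L [] 2 (Pf.C 4 771))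
 (Pq.cons (Pq.L [] 1 (Pf.C 14 643))
 (Pq.cons (Pq.L [] 2 (Pf.C 23 390))
 (Pq.cons (Pq.L [0] 1 (Pf.C 53 49792))
 Pq.nil)))))) (Pq.cons (Pq.L [] 8 (Pf.C 5 772))
 (Pq.cons (Pq.D 0 (Pq.cons (Pq.L [] 15 (Pf.B 6 5 (Pf.B 4 3 (Pf.C 78 0xc0c205) (Pf.C 39 388)) (Pf.C 2 646)))
 (Pq.cons (Pq.L [] 2 (Pf.C 25 771))
 (Pq.cons (Pq.L [] 1 (Pf.C 14 643))
 (Pq.cons (Pq.L [] 5 (Pf.B 4 3 (Pf.C 45 49796) (Pf.C 19 388)))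
 (Pq.cons (Pq.L [0] 1 (Pf.C 53 49792))
 Pq.nil)))))) (Pq.cons (Pq.D 0 (Pq.cons (Pq.L [] 2 (Pf.C 21 771))
 (Pq.cons (Pq.L [] 2 (Pf.C 4 771))
 (Pq.cons (Pq.L [] 1 (Pf.C 14 643))
 (Pq.cons (Pq.L [] 2 (Pf.C 29 771))
 (Pq.cons (Pq.L [0] 1 (Pf.C 53 49792))
 Pq.nil)))))) Pq.nil))))) (Pq.cons (Pq.L [] 4 (Pf.C 25 644))
 (Pq.cons (Pq.D 3 (Pq.cons (Pq.D 0 (Pq.cons (Pq.L [] 2 (Pf.C 18 771))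
 (Pq.cons (Pq.L [] 2 (Pf.C 4 771))
 (Pq.cons (Pq.L [] 1 (Pf.C 14 643))
 (Pq.cons (Pq.L [] 2 (Pf.C 23 390))
 (Pq.cons (Pq.L [0] 1 (Pf.C 53 49792))
 Pq.nil)))))) (Pq.cons (Pq.L [] 8 (Pf.C 9 518))
 (Pq.cons (Pq.L [] 8 (Pf.C 14 772))
 (Pq.cons (Pq.D 0 (Pq.cons (Pq.L [] 2 (Pf.C 21 771))
 (Pq.cons (Pq.L [] 2 (Pf.C 4 771))
 (Pq.cons (Pq.L [] 1 (Pf.C 14 643))
 (Pq.cons (Pq.L [] 2 (Pf.C 29 771))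
 (Pq.cons (Pq.L [0] 1 (Pf.C 53 49792))
 Pq.nil)))))) Pq.nil))))) (Pq.cons (Pq.D 3 (Pq.cons (Pq.D 0 (Pq.cons (Pq.L [] 2 (Pf.C 18 771))
 (Pq.cons (Pq.L [] 2 (Pf.C 4 771))
 (Pq.cons (Pq.L [] 1 (Pf.C 14 643))
 (Pq.cons (Pq.L [] 2 (Pf.C 23 390))
 (Pq.cons (Pq.L [0] 1 (Pf.C 53 49792))
 Pq.nil)))))) (Pq.cons (Pq.L [2] 8 (Pf.C 47 65798))
 (Pq.cons (Pq.D 0 (Pq.cons (Pq.L [] 10 (Pf.B 4 3 (Pf.C 45 66307) (Pf.C 19 515)))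
 (Pq.cons (Pq.L [] 2 (Pf.C 25 771))
 (Pq.cons (Pq.L [] 1 (Pf.C 14 643))
 (Pq.cons (Pq.L [] 15 (Pf.B 6 5 (Pf.B 4 3 (Pf.C 79 0x618284) (Pf.C 13 388)) (Pf.C 2 646)))
 (Pq.cons (Pq.L [0] 1 (Pf.C 53 49792))
 Pq.nil)))))) (Pq.cons (Pq.D 0 (Pq.cons (Pq.L [] 2 (Pf.C 21 771))
 (Pq.cons (Pq.L [] 2 (Pf.C 4 771))
 (Pq.cons (Pq.L [] 1 (Pf.C 14 643))
 (Pq.cons (Pq.L [] 2 (Pf.C 29 771))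
 (Pq.cons (Pq.L [0] 1 (Pf.C 53 49792))
 Pq.nil)))))) Pq.nil))))) (Pq.cons (Pq.D 3 (Pq.cons (Pq.D 0 (Pq.cons (Pq.L [] 2 (Pf.C 18 771))
 (Pq.cons (Pq.L [] 2 (Pf.C 4 771))
 (Pq.cons (Pq.L [] 1 (Pf.C 14 643))
 (Pq.cons (Pq.L [] 2 (Pf.C 23 390))
 (Pq.cons (Pq.L [0] 1 (Pf.C 53 49792))
 Pq.nil)))))) (Pq.cons (Pq.L [0] 8 (Pf.C 53 66304))
 (Pq.cons (Pq.L [0] 8 (Pf.C 53 66304))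
 (Pq.cons (Pq.L [0] 8 (Pf.C 53 66304))
 Pq.nil))))) Pq.nil)))))) (Pq.cons (Pq.D 1 (Pq.cons (Pq.L [] 4 (Pf.C 21 644))
 (Pq.cons (Pq.L [] 4 (Pf.C 4 644))
 (Pq.cons (Pq.D 3 (Pq.cons (Pq.D 0 (Pq.cons (Pq.L [] 2 (Pf.C 18 771))
 (Pq.cons (Pq.L [] 2 (Pf.C 4 771))
 (Pq.cons (Pq.L [] 3 (Pf.B 6 5 (Pf.C 46 82310) (Pf.C 4 646)))
 (Pq.cons (Pq.L [] 2 (Pf.C 23 390))
 (Pq.cons (Pq.L [0] 1 (Pf.C 53 49792))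
 Pq.nil)))))) (Pq.cons (Pq.L [] 8 (Pf.C 9 518))
 (Pq.cons (Pq.L [] 8 (Pf.C 14 772))
 (Pq.cons (Pq.D 0 (Pq.cons (Pq.L [] 2 (Pf.C 21 771))
 (Pq.cons (Pq.L [] 2 (Pf.C 4 771))
 (Pq.cons (Pq.L [] 15 (Pf.B 6 5 (Pf.B 4 3 (Pf.C 79 0x618284) (Pf.C 41 388)) (Pf.C 2 646)))
 (Pq.cons (Pq.L [] 2 (Pf.C 29 771))
 (Pq.cons (Pq.L [0] 1 (Pf.C 53 49792))
 Pq.nil)))))) Pq.nil))))) (Pq.cons (Pq.L [] 4 (Pf.C 29 644))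
 (Pq.cons (Pq.D 3 (Pq.cons (Pq.D 0 (Pq.cons (Pq.L [] 2 (Pf.C 18 771))
 (Pq.cons (Pq.L [] 2 (Pf.C 4 771))
 (Pq.cons (Pq.L [] 3 (Pf.B 6 5 (Pf.C 46 82310) (Pf.C 4 646)))
 (Pq.cons (Pq.L [] 2 (Pf.C 23 390))
 (Pq.cons (Pq.L [0] 1 (Pf.C 53 49792))
 Pq.nil)))))) (Pq.cons (Pq.L [0] 8 (Pf.C 53 66304))
 (Pq.cons (Pq.L [0] 8 (Pf.C 53 66304))
 (Pq.cons (Pq.L [0] 8 (Pf.C 53 66304))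
 Pq.nil))))) Pq.nil)))))) Pq.nil))))) (Pq.cons (Pq.D 0 (Pq.cons (Pq.D 3 (Pq.cons (Pq.D 1 (Pq.cons (Pq.L [] 8 (Pf.C 16 772))
 (Pq.cons (Pq.L [2] 8 (Pf.C 53 65798))
 (Pq.cons (Pq.D 2 (Pq.cons (Pq.L [] 1 (Pf.C 16 643))
 (Pq.cons (Pq.L [] 4 (Pf.C 42 644))
 (Pq.cons (Pq.L [] 4 (Pf.C 33 644))
 (Pq.cons (Pq.L [] 4 (Pf.C 34 644))
 Pq.nil))))) (Pq.cons (Pq.D 2 (Pq.cons (Pq.L [] 1 (Pf.C 16 643))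
 (Pq.cons (Pq.L [] 4 (Pf.C 32 517))
 (Pq.cons (Pq.L [] 4 (Pf.C 37 644))
 (Pq.cons (Pq.L [] 4 (Pf.C 38 644))
 Pq.nil))))) Pq.nil))))) (Pq.cons (Pq.L [] 2 (Pf.C 8 771))
 (Pq.cons (Pq.D 1 (Pq.cons (Pq.D 2 (Pq.cons (Pq.L [] 1 (Pf.C 16 643))
 (Pq.cons (Pq.L [] 4 (Pf.C 8 644))
 (Pq.cons (Pq.L [] 15 (Pf.B 6 5 (Pf.B 4 3 (Pf.C 77 0xc0c205) (Pf.C 40 388)) (Pf.C 2 646)))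
 (Pq.cons (Pq.L [] 3 (Pf.B 6 5 (Pf.C 43 82310) (Pf.C 2 646)))
 Pq.nil))))) (Pq.cons (Pq.L [] 10 (Pf.B 4 3 (Pf.C 63 66307) (Pf.C 22 515)))
 (Pq.cons (Pq.D 2 (Pq.cons (Pq.L [] 1 (Pf.C 16 643))
 (Pq.cons (Pq.L [] 4 (Pf.C 42 644))
 (Pq.cons (Pq.L [] 4 (Pf.C 33 644))
 (Pq.cons (Pq.L [] 4 (Pf.C 34 644))
 Pq.nil))))) (Pq.cons (Pq.D 2 (Pq.cons (Pq.L [] 1 (Pf.C 16 643))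
 (Pq.cons (Pq.L [] 4 (Pf.C 32 517))
 (Pq.cons (Pq.L [] 4 (Pf.C 37 644))
 (Pq.cons (Pq.L [] 4 (Pf.C 38 644))
 Pq.nil))))) Pq.nil))))) (Pq.cons (Pq.D 1 (Pq.cons (Pq.D 2 (Pq.cons (Pq.L [] 1 (Pf.C 16 643))
 (Pq.cons (Pq.L [] 4 (Pf.C 8 644))
 (Pq.cons (Pq.L [] 12 (Pf.B 6 5 (Pf.C 43 98821) (Pf.C 2 646)))
 (Pq.cons (Pq.L [] 15 (Pf.B 6 5 (Pf.B 4 3 (Pf.C 77 0xc0c205) (Pf.C 40 388)) (Pf.C 2 646)))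
 Pq.nil))))) (Pq.cons (Pq.L [2] 8 (Pf.C 54 98818))
 (Pq.cons (Pq.D 2 (Pq.cons (Pq.L [] 1 (Pf.C 16 643))
 (Pq.cons (Pq.L [] 4 (Pf.C 42 644))
 (Pq.cons (Pq.L [] 4 (Pf.C 33 644))
 (Pq.cons (Pq.L [] 4 (Pf.C 34 644))
 Pq.nil))))) (Pq.cons (Pq.D 2 (Pq.cons (Pq.L [] 1 (Pf.C 16 643))
 (Pq.cons (Pq.L [] 4 (Pf.C 32 517))
 (Pq.cons (Pq.L [] 4 (Pf.C 37 644))
 (Pq.cons (Pq.L [] 4 (Pf.C 38 644))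
 Pq.nil))))) Pq.nil))))) Pq.nil))))) (Pq.cons (Pq.D 3 (Pq.cons (Pq.D 1 (Pq.cons (Pq.L [] 8 (Pf.C 16 772))
 (Pq.cons (Pq.L [2] 8 (Pf.C 53 65798))
 (Pq.cons (Pq.D 2 (Pq.cons (Pq.L [2] 1 (Pf.C 53 49413))
 (Pq.cons (Pq.L [] 4 (Pf.C 42 644))
 (Pq.cons (Pq.L [] 4 (Pf.C 33 644))
 (Pq.cons (Pq.L [2] 1 (Pf.C 54 82306))
 Pq.nil))))) (Pq.cons (Pq.D 2 (Pq.cons (Pq.L [2] 1 (Pf.C 53 49413))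
 (Pq.cons (Pq.L [] 4 (Pf.C 32 517))
 (Pq.cons (Pq.L [] 4 (Pf.C 37 644))
 (Pq.cons (Pq.L [2] 1 (Pf.C 54 82306))
 Pq.nil))))) Pq.nil))))) (Pq.cons (Pq.D 1 (Pq.cons (Pq.D 2 (Pq.cons (Pq.L [2] 1 (Pf.C 53 49413))
 (Pq.cons (Pq.L [] 4 (Pf.C 8 644))
 (Pq.cons (Pq.L [] 3 (Pf.B 6 5 (Pf.C 65 82310) (Pf.C 33 646)))
 (Pq.cons (Pq.L [2] 1 (Pf.C 54 82306))
 Pq.nil))))) (Pq.cons (Pq.D 2 (Pq.cons (Pq.L [2] 1 (Pf.C 53 49413))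
 (Pq.cons (Pq.L [] 15 (Pf.B 6 5 (Pf.B 4 3 (Pf.C 84 0x618284) (Pf.C 12 388)) (Pf.C 42 646)))
 (Pq.cons (Pq.L [] 3 (Pf.B 6 5 (Pf.C 65 82310) (Pf.C 33 646)))
 (Pq.cons (Pq.L [2] 1 (Pf.C 54 82306))
 Pq.nil))))) (Pq.cons (Pq.D 2 (Pq.cons (Pq.L [2] 1 (Pf.C 53 49413))
 (Pq.cons (Pq.L [] 4 (Pf.C 42 644))
 (Pq.cons (Pq.L [] 4 (Pf.C 33 644))
 (Pq.cons (Pq.L [2] 1 (Pf.C 54 82306))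
 Pq.nil))))) (Pq.cons (Pq.D 2 (Pq.cons (Pq.L [2] 1 (Pf.C 53 49413))
 (Pq.cons (Pq.L [] 4 (Pf.C 32 517))
 (Pq.cons (Pq.L [] 4 (Pf.C 37 644))
 (Pq.cons (Pq.L [2] 1 (Pf.C 54 82306))
 Pq.nil))))) Pq.nil))))) (Pq.cons (Pq.D 1 (Pq.cons (Pq.D 2 (Pq.cons (Pq.L [2] 1 (Pf.C 53 49413))
 (Pq.cons (Pq.L [] 4 (Pf.C 8 644))
 (Pq.cons (Pq.L [] 5 (Pf.B 4 3 (Pf.C 63 49796) (Pf.C 22 388)))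
 (Pq.cons (Pq.L [2] 1 (Pf.C 54 82306))
 Pq.nil))))) (Pq.cons (Pq.D 2 (Pq.cons (Pq.L [2] 1 (Pf.C 53 49413))
 (Pq.cons (Pq.L [] 12 (Pf.B 6 5 (Pf.C 65 98821) (Pf.C 33 773)))
 (Pq.cons (Pq.L [] 15 (Pf.B 6 5 (Pf.B 4 3 (Pf.C 87 0x618284) (Pf.C 12 388)) (Pf.C 2 646)))
 (Pq.cons (Pq.L [2] 1 (Pf.C 54 82306))
 Pq.nil))))) (Pq.cons (Pq.D 2 (Pq.cons (Pq.L [2] 1 (Pf.C 53 49413))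
 (Pq.cons (Pq.L [] 4 (Pf.C 42 644))
 (Pq.cons (Pq.L [] 4 (Pf.C 33 644))
 (Pq.cons (Pq.L [2] 1 (Pf.C 54 82306))
 Pq.nil))))) (Pq.cons (Pq.D 2 (Pq.cons (Pq.L [2] 1 (Pf.C 53 49413))
 (Pq.cons (Pq.L [] 4 (Pf.C 32 517))
 (Pq.cons (Pq.L [] 4 (Pf.C 37 644))
 (Pq.cons (Pq.L [2] 1 (Pf.C 54 82306))
 Pq.nil))))) Pq.nil))))) (Pq.cons (Pq.D 1 (Pq.cons (Pq.D 2 (Pq.cons (Pq.L [2] 1 (Pf.C 53 49413))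
 (Pq.cons (Pq.L [] 4 (Pf.C 8 644))
 (Pq.cons (Pq.L [] 12 (Pf.B 6 5 (Pf.C 43 98821) (Pf.C 2 646)))
 (Pq.cons (Pq.L [2] 1 (Pf.C 54 82306))
 Pq.nil))))) (Pq.cons (Pq.L [2] 8 (Pf.C 54 98818))
 (Pq.cons (Pq.D 2 (Pq.cons (Pq.L [2] 1 (Pf.C 53 49413))
 (Pq.cons (Pq.L [] 4 (Pf.C 42 644))
 (Pq.cons (Pq.L [] 4 (Pf.C 33 644))
 (Pq.cons (Pq.L [2] 1 (Pf.C 54 82306))
 Pq.nil))))) (Pq.cons (Pq.D 2 (Pq.cons (Pq.L [2] 1 (Pf.C 53 49413))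
 (Pq.cons (Pq.L [] 4 (Pf.C 32 517))
 (Pq.cons (Pq.L [] 4 (Pf.C 37 644))
 (Pq.cons (Pq.L [2] 1 (Pf.C 54 82306))
 Pq.nil))))) Pq.nil))))) Pq.nil))))) (Pq.cons (Pq.D 3 (Pq.cons (Pq.D 1 (Pq.cons (Pq.L [] 8 (Pf.C 16 772))
 (Pq.cons (Pq.L [2] 8 (Pf.C 53 65798))
 (Pq.cons (Pq.D 2 (Pq.cons (Pq.L [] 15 (Pf.B 6 5 (Pf.B 4 3 (Pf.C 78 0x618284) (Pf.C 42 388)) (Pf.C 4 646)))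
 (Pq.cons (Pq.L [] 4 (Pf.C 42 644))
 (Pq.cons (Pq.L [] 4 (Pf.C 33 644))
 (Pq.cons (Pq.L [] 4 (Pf.C 34 644))
 Pq.nil))))) (Pq.cons (Pq.L [] 10 (Pf.B 4 3 (Pf.C 44 66307) (Pf.C 32 515)))
 Pq.nil))))) (Pq.cons (Pq.L [] 2 (Pf.C 42 771))
 (Pq.cons (Pq.L [] 2 (Pf.C 33 771))
 (Pq.cons (Pq.L [] 2 (Pf.C 34 771))
 Pq.nil))))) (Pq.cons (Pq.D 3 (Pq.cons (Pq.D 1 (Pq.cons (Pq.L [] 8 (Pf.C 16 772))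
 (Pq.cons (Pq.L [2] 8 (Pf.C 53 65798))
 (Pq.cons (Pq.D 2 (Pq.cons (Pq.L [] 5 (Pf.B 4 3 (Pf.C 44 49796) (Pf.C 32 388)))
 (Pq.cons (Pq.L [] 4 (Pf.C 42 644))
 (Pq.cons (Pq.L [] 4 (Pf.C 33 644))
 (Pq.cons (Pq.L [] 4 (Pf.C 34 644))
 Pq.nil))))) (Pq.cons (Pq.D 2 (Pq.cons (Pq.L [] 15 (Pf.B 6 5 (Pf.B 4 3 (Pf.C 77 0xc0c205) (Pf.C 11 388)) (Pf.C 4 646)))
 (Pq.cons (Pq.L [] 4 (Pf.C 32 517))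
 (Pq.cons (Pq.L [] 4 (Pf.C 37 644))
 (Pq.cons (Pq.L [] 4 (Pf.C 38 644))
 Pq.nil))))) Pq.nil))))) (Pq.cons (Pq.L [] 2 (Pf.C 32 390))
 (Pq.cons (Pq.L [] 2 (Pf.C 37 771))
 (Pq.cons (Pq.L [] 2 (Pf.C 38 771))
 Pq.nil))))) Pq.nil))))) Pq.nil))
theorem f2_o21 : AllRef f2_T f2_G23 (List.drop 6 (applyObl f3_T 8 [12,13,16,17,18,19,22,23,26,27,28,29,31] [1,2,1,3,1,1,1,2,3,2,2,3,3] [])) :=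
  chkPq_sound f2_o21c _ (by decide +kernel)
noncomputable def f2_o22c : Pq := (Pq.cons (Pq.L [2] 2 (Pf.C 53 49413))
 (Pq.cons (Pq.L [1] 2 (Pf.C 53 16773))
 (Pq.cons (Pq.L [] 1 (Pf.C 4 515))
 Pq.nil)))
theorem f2_o22 : AllRef f2_T f2_G23 (splitObl [15] [21,25,30]) :=
  chkPq_sound f2_o22c _ (by decide +kernel)
noncomputable def f2_o23c : Pq := (Pq.cons (Pq.L [] 1 (Pf.C 4 515))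
 Pq.nil)
theorem f2_o23 : AllRef f2_T f2_G23 (applyObl TD2 1 [15] [0] []) :=
  chkPq_sound f2_o23c _ (by decide +kernel)
noncomputable def f2_o24c : Pq := (Pq.cons (Pq.L [0] 2 (Pf.C 53 82304))
 (Pq.cons (Pq.L [0] 2 (Pf.C 53 82304))
 Pq.nil))
theorem f2_o24 : AllRef f2_T f2_G23 (splitObl [21] [25,30]) :=
  chkPq_sound f2_o24c _ (by decide +kernel)
noncomputable def f2_o25c : Pq := (Pq.cons (Pq.L [] 1 (Pf.C 12 515))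
 Pq.nil)
theorem f2_o25 : AllRef f2_T f2_G23 (applyObl TD2 1 [21] [0] []) :=
  chkPq_sound f2_o25c _ (by decide +kernel)
noncomputable def f2_o26c : Pq := (Pq.cons (Pq.L [] 1 (Pf.C 34 388))
 Pq.nil)
theorem f2_o26 : AllRef f2_T f2_G23 (splitObl [25] [30]) :=
  chkPq_sound f2_o26c _ (by decide +kernel)
noncomputable def f2_o27c : Pq := (Pq.cons (Pq.L [] 1 (Pf.C 42 515))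
 Pq.nil)
theorem f2_o27 : AllRef f2_T f2_G23 (applyObl TD2 1 [25] [0] []) :=
  chkPq_sound f2_o27c _ (by decide +kernel)
noncomputable def f2_o28c : Pq := (Pq.cons (Pq.L [] 1 (Pf.C 2 515))
 Pq.nil)
theorem f2_o28 : AllRef f2_T f2_G23 (applyObl TD2 1 [30] [0] []) :=
  chkPq_sound f2_o28c _ (by decide +kernel)
noncomputable def f2_o29c : Pq := (Pq.cons (Pq.L [1] 0 (Pf.C 7 385))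
 (Pq.cons (Pq.L [0] 0 (Pf.C 18 3))
 Pq.nil))
theorem f2_o29 : AllRef f2_T f2_G7 (ptObl 1 (PT.br 0 (PT.br 1 (PT.br 2 PT.kid PT.kid) PT.ref) PT.ref) []) :=
  chkPq_sound f2_o29c _ (by decide +kernel)
noncomputable def f2_o30c : Pq := (Pq.cons (Pq.L [0] 0 (Pf.C 16 3))
 (Pq.cons (Pq.L [2] 0 (Pf.C 8 259))
 (Pq.cons (Pq.L [0,1] 0 (Pf.C 72 16387))
 Pq.nil)))
theorem f2_o30 : AllRef f2_T f2_G24 (ptObl 2 (PT.br 0 PT.ref (PT.br 1 (PT.br 2 PT.kid PT.ref) PT.ref)) []) :=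
  chkPq_sound f2_o30c _ (by decide +kernel)
noncomputable def f2_o31c : Pq := Pq.nil
theorem f2_o31 : AllRef f2_T f2_G25 (ptObl 3 PT.kid []) :=
  chkPq_sound f2_o31c _ (by decide +kernel)
noncomputable def f2_o32c : Pq := (Pq.cons (Pq.L [0,1,2] 0 (Pf.C 0 32899))
 (Pq.cons (Pq.L [0] 0 (Pf.C 4 3))
 Pq.nil))
theorem f2_o32 : AllRef f2_T f2_G26 (ptObl 35 (PT.br 0 (PT.br 1 (PT.br 2 PT.kid PT.kid) (PT.br 2 PT.kid PT.ref)) PT.ref) []) :=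
  chkPq_sound f2_o32c _ (by decide +kernel)
noncomputable def f2_o33c : Pq := Pq.nil
theorem f2_o33 : AllRef f2_T f2_G27 (ptObl 4 PT.kid []) :=
  chkPq_sound f2_o33c _ (by decide +kernel)
noncomputable def f2_o34c : Pq := (Pq.cons (Pq.L [1] 0 (Pf.C 41 131))
 (Pq.cons (Pq.L [0,1,2] 0 (Pf.C 0 0x208003))
 (Pq.cons (Pq.L [1] 0 (Pf.C 41 131))
 Pq.nil)))
theorem f2_o34 : AllRef f2_T f2_G28 (ptObl 39 (PT.br 0 (PT.br 1 (PT.br 2 PT.kid PT.kid) PT.ref) (PT.br 1 (PT.br 2 PT.kid PT.ref) PT.ref)) []) :=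
  chkPq_sound f2_o34c _ (by decide +kernel)
noncomputable def f2_o35c : Pq := (Pq.cons (Pq.L [1] 0 (Pf.C 7 385))
 (Pq.cons (Pq.L [0] 0 (Pf.C 23 384))
 Pq.nil))
theorem f2_o35 : AllRef f2_T f2_G29 (ptObl 5 (PT.br 0 (PT.br 1 (PT.br 2 PT.kid PT.kid) PT.ref) PT.ref) []) :=
  chkPq_sound f2_o35c _ (by decide +kernel)
noncomputable def f2_o36c : Pq := (Pq.cons (Pq.L [0,1] 0 (Pf.B 3 1 (Pf.C 58 49153) (Pf.C 26 385)))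
 (Pq.cons (Pq.L [2] 0 (Pf.C 30 259))
 (Pq.cons (Pq.L [1] 0 (Pf.C 26 385))
 Pq.nil)))
theorem f2_o36 : AllRef f2_T f2_G30 (ptObl 6 (PT.br 0 PT.ref (PT.br 1 (PT.br 2 PT.kid PT.ref) PT.ref)) []) :=
  chkPq_sound f2_o36c _ (by decide +kernel)
noncomputable def f2_o37c : Pq := (Pq.cons (Pq.L [1] 0 (Pf.C 9 131))
 (Pq.cons (Pq.L [2] 0 (Pf.C 32 259))
 (Pq.cons (Pq.L [0,1] 0 (Pf.B 3 1 (Pf.C 9 131) (Pf.C 75 49280)))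
 Pq.nil)))
theorem f2_o37 : AllRef f2_T f2_G31 (ptObl 7 (PT.br 0 (PT.br 1 PT.ref (PT.br 2 PT.kid PT.ref)) PT.ref) []) :=
  chkPq_sound f2_o37c _ (by decide +kernel)
noncomputable def f2_o38c : Pq := (Pq.cons (Pq.L [1] 0 (Pf.C 15 385))
 (Pq.cons (Pq.L [2] 0 (Pf.C 35 259))
 (Pq.cons (Pq.L [0] 0 (Pf.C 24 384))
 Pq.nil)))
theorem f2_o38 : AllRef f2_T f2_G32 (ptObl 8 (PT.br 0 (PT.br 1 PT.ref (PT.br 2 PT.kid PT.ref)) PT.ref) []) :=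
  chkPq_sound f2_o38c _ (by decide +kernel)
noncomputable def f2_o39c : Pq := Pq.nil
theorem f2_o39 : AllRef f2_T f2_G33 (ptObl 9 PT.kid []) :=
  chkPq_sound f2_o39c _ (by decide +kernel)
noncomputable def f2_o40c : Pq := (Pq.cons (Pq.L [2] 0 (Pf.C 11 259))
 (Pq.cons (Pq.L [2] 0 (Pf.C 11 259))
 (Pq.cons (Pq.L [2] 0 (Pf.C 11 259))
 (Pq.cons (Pq.L [0,1,2] 0 (Pf.B 3 2 (Pf.C 0 0x404003) (Pf.C 11 259)))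
 Pq.nil))))
theorem f2_o40 : AllRef f2_T f2_G34 (ptObl 48 (PT.br 0 (PT.br 1 (PT.br 2 PT.kid PT.ref) (PT.br 2 PT.kid PT.ref)) (PT.br 1 (PT.br 2 PT.kid PT.ref) PT.ref)) []) :=
  chkPq_sound f2_o40c _ (by decide +kernel)
noncomputable def f2_o41c : Pq := (Pq.cons (Pq.L [1] 0 (Pf.C 14 385))
 (Pq.cons (Pq.L [2] 0 (Pf.C 37 386))
 (Pq.cons (Pq.L [0] 0 (Pf.C 25 384))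
 Pq.nil)))
theorem f2_o41 : AllRef f2_T f2_G35 (ptObl 10 (PT.br 0 (PT.br 1 PT.ref (PT.br 2 PT.kid PT.ref)) PT.ref) []) :=
  chkPq_sound f2_o41c _ (by decide +kernel)
noncomputable def f2_o42c : Pq := (Pq.cons (Pq.L [0,1] 0 (Pf.C 46 49280))
 (Pq.cons (Pq.L [2] 0 (Pf.C 38 386))
 (Pq.cons (Pq.L [0] 0 (Pf.C 4 3))
 Pq.nil)))
theorem f2_o42 : AllRef f2_T f2_G36 (ptObl 11 (PT.br 0 (PT.br 1 PT.ref (PT.br 2 PT.kid PT.ref)) PT.ref) []) :=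
  chkPq_sound f2_o42c _ (by decide +kernel)
noncomputable def f2_o43c : Pq := (Pq.cons (Pq.L [] 1 (Pf.C 39 515))
 (Pq.cons (Pq.L [] 2 (Pf.C 10 389))
 (Pq.cons (Pq.L [] 1 (Pf.C 18 388))
 (Pq.cons (Pq.L [] 1 (Pf.C 18 388))
 (Pq.cons (Pq.L [] 1 (Pf.C 7 515))
 (Pq.cons (Pq.L [] 1 (Pf.C 7 515))
 (Pq.cons (Pq.L [] 1 (Pf.C 19 388))
 (Pq.cons (Pq.L [2] 1 (Pf.C 51 65922))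
 (Pq.cons (Pq.L [] 2 (Pf.C 5 389))
 (Pq.cons (Pq.L [0] 2 (Pf.C 56 643))
 (Pq.cons (Pq.L [1] 2 (Pf.C 49 49285))
 (Pq.cons (Pq.L [2] 1 (Pf.C 44 33283))
 (Pq.cons (Pq.L [] 1 (Pf.C 21 388))
 (Pq.cons (Pq.L [] 1 (Pf.C 18 388))
 (Pq.cons (Pq.L [] 1 (Pf.C 7 515))
 (Pq.cons (Pq.L [] 1 (Pf.C 19 388))
 (Pq.cons (Pq.L [] 2 (Pf.C 5 389))
 (Pq.cons (Pq.L [1] 2 (Pf.C 49 49285))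
 Pq.nil))))))))))))))))))
theorem f2_o43 : AllRef f2_T f2_G37 (splitObl [32] [33,34,37,38,41,42,44,45,46,50,51,52,53,36,40,43,47,49]) :=
  chkPq_sound f2_o43c _ (by decide +kernel)
noncomputable def f2_o44c : Pq := (Pq.cons (Pq.L [] 1 (Pf.C 39 515))
 Pq.nil)
theorem f2_o44 : AllRef f2_T f2_G37 (applyObl TD2 1 [32] [0] []) :=
  chkPq_sound f2_o44c _ (by decide +kernel)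
noncomputable def f2_o45c : Pq := (Pq.cons (Pq.L [] 1 (Pf.C 18 388))
 (Pq.cons (Pq.L [] 1 (Pf.C 7 515))
 (Pq.cons (Pq.L [] 1 (Pf.C 19 388))
 (Pq.cons (Pq.L [] 2 (Pf.C 5 389))
 (Pq.cons (Pq.L [1] 2 (Pf.C 49 49285))
 (Pq.cons (Pq.L [] 2 (Pf.C 16 389))
 (Pq.cons (Pq.L [2] 1 (Pf.C 64 33156))
 (Pq.cons (Pq.L [2] 2 (Pf.C 66 49413))
 (Pq.cons (Pq.L [] 2 (Pf.C 17 389))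
 (Pq.cons (Pq.L [] 1 (Pf.C 8 388))
 (Pq.cons (Pq.L [] 1 (Pf.C 4 515))
 (Pq.cons (Pq.L [0,1] 1 (Pf.C 80 16772))
 (Pq.cons (Pq.L [] 1 (Pf.C 23 388))
 (Pq.cons (Pq.L [] 1 (Pf.C 24 388))
 (Pq.cons (Pq.L [1] 2 (Pf.C 54 82051))
 (Pq.cons (Pq.L [] 1 (Pf.C 4 515))
 (Pq.cons (Pq.L [2] 2 (Pf.C 54 82306))
 (Pq.cons (Pq.L [] 1 (Pf.C 23 388))
 (Pq.cons (Pq.L [] 1 (Pf.C 24 388))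
 (Pq.cons (Pq.L [0,2] 1 (Pf.C 77 33156))
 (Pq.cons (Pq.L [0,1] 1 (Pf.C 80 16899))
 (Pq.cons (Pq.L [] 1 (Pf.C 41 515))
 (Pq.cons (Pq.L [] 1 (Pf.C 7 388))
 (Pq.cons (Pq.L [] 2 (Pf.C 15 389))
 (Pq.cons (Pq.L [0] 2 (Pf.C 54 643))
 (Pq.cons (Pq.L [2] 2 (Pf.C 54 49794))
 (Pq.cons (Pq.L [] 1 (Pf.C 41 515))
 (Pq.cons (Pq.L [] 1 (Pf.C 7 388))
 (Pq.cons (Pq.L [] 2 (Pf.C 15 389))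
 (Pq.cons (Pq.L [1,2] 1 (Pf.C 84 0x208184))
 (Pq.cons (Pq.L [] 1 (Pf.C 23 515))
 (Pq.cons (Pq.L [] 1 (Pf.C 7 515))
 (Pq.cons (Pq.L [] 1 (Pf.C 13 515))
 (Pq.cons (Pq.L [] 1 (Pf.C 28 388))
 (Pq.cons (Pq.L [2] 2 (Pf.C 61 82179))
 (Pq.cons (Pq.L [2] 2 (Pf.C 54 49794))
 (Pq.cons (Pq.L [] 1 (Pf.C 26 515))
 (Pq.cons (Pq.L [] 1 (Pf.C 27 515))
 (Pq.cons (Pq.L [2] 1 (Pf.C 51 49666))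
 (Pq.cons (Pq.L [] 1 (Pf.C 30 388))
 (Pq.cons (Pq.L [2] 1 (Pf.C 44 33156))
 (Pq.cons (Pq.L [] 2 (Pf.C 9 389))
 (Pq.cons (Pq.L [2] 2 (Pf.C 49 33157))
 (Pq.cons (Pq.L [] 2 (Pf.C 6 389))
 (Pq.cons (Pq.L [] 1 (Pf.C 32 388))
 (Pq.cons (Pq.L [0,2] 1 (Pf.C 77 33283))
 (Pq.cons (Pq.L [0] 2 (Pf.C 54 389))
 (Pq.cons (Pq.L [2] 1 (Pf.C 61 49666))
 (Pq.cons (Pq.L [] 1 (Pf.C 35 515))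
 (Pq.cons (Pq.L [] 1 (Pf.C 11 515))
 (Pq.cons (Pq.L [1] 2 (Pf.C 54 49285))
 (Pq.cons (Pq.L [1,2] 1 (Pf.C 84 0x208203))
 (Pq.cons (Pq.L [2] 1 (Pf.C 61 49666))
 (Pq.cons (Pq.L [] 1 (Pf.C 35 515))
 (Pq.cons (Pq.L [] 1 (Pf.C 11 515))
 (Pq.cons (Pq.L [] 1 (Pf.C 25 515))
 (Pq.cons (Pq.L [] 2 (Pf.C 14 643))
 (Pq.cons (Pq.L [2] 2 (Pf.C 68 49794))
 (Pq.cons (Pq.L [] 1 (Pf.C 36 515))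
 (Pq.cons (Pq.L [] 1 (Pf.C 37 515))
 (Pq.cons (Pq.L [] 1 (Pf.C 4 515))
 (Pq.cons (Pq.L [2] 2 (Pf.C 54 82306))
 (Pq.cons (Pq.L [] 1 (Pf.C 29 515))
 (Pq.cons (Pq.L [] 1 (Pf.C 3 515))
 (Pq.cons (Pq.L [] 1 (Pf.C 38 515))
 Pq.nil)))))))))))))))))))))))))))))))))))))))))))))))))))))))))))))))))
theorem f2_o45 : AllRef f2_T f2_G37 (splitObl [33,34,37,38,41,42,44,45,46,50,51,52,53] [36,40,43,47,49]) :=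
  chkPq_sound f2_o45c _ (by decide +kernel)
noncomputable def f2_o46c : Pq := (Pq.cons (Pq.L [] 63 (Pf.C 0 0xc14203))
 (Pq.cons (Pq.D 0 (Pq.cons (Pq.D 1 (Pq.cons (Pq.L [] 1 (Pf.C 39 515))
 (Pq.cons (Pq.L [] 1 (Pf.C 18 515))
 (Pq.cons (Pq.L [] 1 (Pf.C 7 388))
 (Pq.cons (Pq.L [] 1 (Pf.C 19 515))
 Pq.nil))))) (Pq.cons (Pq.D 1 (Pq.cons (Pq.L [] 1 (Pf.C 18 388))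
 (Pq.cons (Pq.L [] 1 (Pf.C 4 515))
 (Pq.cons (Pq.L [0,1] 1 (Pf.C 80 16899))
 (Pq.cons (Pq.L [] 1 (Pf.C 23 515))
 Pq.nil))))) (Pq.cons (Pq.D 1 (Pq.cons (Pq.L [] 1 (Pf.C 7 515))
 (Pq.cons (Pq.L [0,1] 1 (Pf.C 80 16772))
 (Pq.cons (Pq.L [] 1 (Pf.C 41 515))
 (Pq.cons (Pq.L [] 1 (Pf.C 7 515))
 Pq.nil))))) (Pq.cons (Pq.D 1 (Pq.cons (Pq.L [] 1 (Pf.C 19 388))
 (Pq.cons (Pq.L [] 1 (Pf.C 23 388))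
 (Pq.cons (Pq.L [] 1 (Pf.C 7 388))
 (Pq.cons (Pq.L [] 1 (Pf.C 13 515))
 Pq.nil))))) Pq.nil))))) (Pq.cons (Pq.D 0 (Pq.cons (Pq.D 1 (Pq.cons (Pq.L [] 1 (Pf.C 40 515))
 (Pq.cons (Pq.L [2] 1 (Pf.C 64 33283))
 (Pq.cons (Pq.L [] 1 (Pf.C 22 515))
 (Pq.cons (Pq.L [] 1 (Pf.C 8 515))
 Pq.nil))))) (Pq.cons (Pq.D 1 (Pq.cons (Pq.L [2] 1 (Pf.C 64 33156))
 (Pq.cons (Pq.L [] 1 (Pf.C 41 515))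
 (Pq.cons (Pq.L [] 1 (Pf.C 26 515))
 (Pq.cons (Pq.L [1,2] 1 (Pf.C 84 0x208203))
 Pq.nil))))) (Pq.cons (Pq.D 1 (Pq.cons (Pq.L [] 1 (Pf.C 22 388))
 (Pq.cons (Pq.L [] 1 (Pf.C 26 388))
 (Pq.cons (Pq.L [] 1 (Pf.C 12 515))
 (Pq.cons (Pq.L [] 1 (Pf.C 30 515))
 Pq.nil))))) (Pq.cons (Pq.D 1 (Pq.cons (Pq.L [] 1 (Pf.C 8 388))
 (Pq.cons (Pq.L [1,2] 1 (Pf.C 84 0x208184))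
 (Pq.cons (Pq.L [] 1 (Pf.C 30 388))
 (Pq.cons (Pq.L [] 1 (Pf.C 11 515))
 Pq.nil))))) Pq.nil))))) (Pq.cons (Pq.D 0 (Pq.cons (Pq.D 1 (Pq.cons (Pq.L [] 1 (Pf.C 4 515))
 (Pq.cons (Pq.L [2] 1 (Pf.C 44 33156))
 (Pq.cons (Pq.L [0,2] 1 (Pf.C 77 33283))
 (Pq.cons (Pq.L [] 1 (Pf.C 25 515))
 (Pq.cons (Pq.L [] 1 (Pf.C 4 515))
 Pq.nil)))))) (Pq.cons (Pq.D 1 (Pq.cons (Pq.L [2] 1 (Pf.C 44 33283))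
 (Pq.cons (Pq.L [] 1 (Pf.C 42 515))
 (Pq.cons (Pq.L [] 1 (Pf.C 32 515))
 (Pq.cons (Pq.L [] 1 (Pf.C 33 515))
 (Pq.cons (Pq.L [] 1 (Pf.C 34 515))
 Pq.nil)))))) (Pq.cons (Pq.D 1 (Pq.cons (Pq.L [0,2] 1 (Pf.C 77 33156))
 (Pq.cons (Pq.L [] 1 (Pf.C 32 388))
 (Pq.cons (Pq.L [] 1 (Pf.C 11 515))
 (Pq.cons (Pq.L [] 1 (Pf.C 37 515))
 (Pq.cons (Pq.L [] 1 (Pf.C 38 515))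
 Pq.nil)))))) (Pq.cons (Pq.D 1 (Pq.cons (Pq.L [] 1 (Pf.C 25 388))
 (Pq.cons (Pq.L [] 1 (Pf.C 33 388))
 (Pq.cons (Pq.L [] 1 (Pf.C 37 388))
 (Pq.cons (Pq.L [] 1 (Pf.C 2 515))
 (Pq.cons (Pq.L [] 1 (Pf.C 2 515))
 Pq.nil)))))) (Pq.cons (Pq.D 1 (Pq.cons (Pq.L [] 1 (Pf.C 4 515))
 (Pq.cons (Pq.L [] 1 (Pf.C 34 388))
 (Pq.cons (Pq.L [] 1 (Pf.C 38 388))
 (Pq.cons (Pq.L [] 1 (Pf.C 2 515))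
 (Pq.cons (Pq.L [] 1 (Pf.C 2 515))
 Pq.nil)))))) Pq.nil)))))) (Pq.cons (Pq.D 0 (Pq.cons (Pq.D 1 (Pq.cons (Pq.L [] 1 (Pf.C 10 515))
 (Pq.cons (Pq.D 2 (Pq.cons (Pq.L [2] 7 (Pf.C 83 0xa08184))
 (Pq.cons (Pq.L [] 2 (Pf.C 5 643))
 (Pq.cons (Pq.L [] 7 (Pf.C 49 82435))
 (Pq.cons (Pq.L [2] 7 (Pf.C 83 0xa08184))
 (Pq.cons (Pq.L [2] 7 (Pf.C 83 0xa08184))
 Pq.nil)))))) (Pq.cons (Pq.D 2 (Pq.cons (Pq.L [1] 7 (Pf.C 82 0x814083))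
 (Pq.cons (Pq.L [] 2 (Pf.C 5 643))
 (Pq.cons (Pq.L [0] 2 (Pf.C 56 389))
 (Pq.cons (Pq.L [] 7 (Pf.C 53 66179))
 (Pq.cons (Pq.L [] 7 (Pf.C 53 66179))
 Pq.nil)))))) (Pq.cons (Pq.L [1] 1 (Pf.C 49 65667))
 Pq.nil))))) (Pq.cons (Pq.D 1 (Pq.cons (Pq.L [] 1 (Pf.C 16 388))
 (Pq.cons (Pq.D 2 (Pq.cons (Pq.L [2] 7 (Pf.C 89 0x40c284))
 (Pq.cons (Pq.L [] 7 (Pf.C 54 49669))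
 (Pq.cons (Pq.L [] 7 (Pf.C 54 49669))
 (Pq.cons (Pq.L [2] 7 (Pf.C 88 0x608284))
 (Pq.cons (Pq.L [0,2] 7 (Pf.C 90 0x40008185))
 Pq.nil)))))) (Pq.cons (Pq.D 2 (Pq.cons (Pq.L [2] 7 (Pf.C 89 0x40c284))
 (Pq.cons (Pq.L [] 7 (Pf.C 53 66179))
 (Pq.cons (Pq.L [] 7 (Pf.C 54 49669))
 (Pq.cons (Pq.L [] 7 (Pf.C 53 66179))
 (Pq.cons (Pq.L [] 7 (Pf.C 53 66179))
 Pq.nil)))))) (Pq.cons (Pq.L [1] 1 (Pf.C 54 49284))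
 Pq.nil))))) (Pq.cons (Pq.D 1 (Pq.cons (Pq.D 2 (Pq.cons (Pq.L [] 7 (Pf.C 54 82308))
 (Pq.cons (Pq.L [] 2 (Pf.C 9 389))
 (Pq.cons (Pq.L [0] 2 (Pf.C 54 389))
 (Pq.cons (Pq.L [] 2 (Pf.C 14 643))
 (Pq.cons (Pq.L [] 7 (Pf.C 54 82308))
 Pq.nil)))))) (Pq.cons (Pq.D 2 (Pq.cons (Pq.L [2] 7 (Pf.C 83 0xa08184))
 (Pq.cons (Pq.L [] 2 (Pf.C 9 389))
 (Pq.cons (Pq.L [0] 2 (Pf.C 54 389))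
 (Pq.cons (Pq.L [] 2 (Pf.C 14 643))
 (Pq.cons (Pq.L [2] 7 (Pf.C 83 0xa08184))
 Pq.nil)))))) (Pq.cons (Pq.D 2 (Pq.cons (Pq.L [1] 7 (Pf.C 82 0x814083))
 (Pq.cons (Pq.L [] 2 (Pf.C 9 389))
 (Pq.cons (Pq.L [0] 2 (Pf.C 54 389))
 (Pq.cons (Pq.L [] 2 (Pf.C 14 643))
 (Pq.cons (Pq.L [] 7 (Pf.C 55 82435))
 Pq.nil)))))) (Pq.cons (Pq.D 2 (Pq.cons (Pq.L [] 7 (Pf.C 54 82308))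
 (Pq.cons (Pq.L [] 2 (Pf.C 9 389))
 (Pq.cons (Pq.L [0] 2 (Pf.C 54 389))
 (Pq.cons (Pq.L [] 2 (Pf.C 14 643))
 (Pq.cons (Pq.L [] 7 (Pf.C 54 82308))
 Pq.nil)))))) Pq.nil))))) (Pq.cons (Pq.D 1 (Pq.cons (Pq.D 2 (Pq.cons (Pq.L [2] 7 (Pf.C 81 0xa0c104))
 (Pq.cons (Pq.L [] 7 (Pf.C 49 65925))
 (Pq.cons (Pq.L [2] 2 (Pf.C 61 49413))
 (Pq.cons (Pq.L [] 7 (Pf.C 55 82435))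
 (Pq.cons (Pq.L [] 7 (Pf.C 55 82435))
 Pq.nil)))))) (Pq.cons (Pq.D 2 (Pq.cons (Pq.L [2] 7 (Pf.C 83 0xa08184))
 (Pq.cons (Pq.L [2] 2 (Pf.C 61 49413))
 (Pq.cons (Pq.L [2] 2 (Pf.C 61 49413))
 (Pq.cons (Pq.L [2] 7 (Pf.C 83 0xa08184))
 (Pq.cons (Pq.L [2] 7 (Pf.C 83 0xa08184))
 Pq.nil)))))) (Pq.cons (Pq.D 2 (Pq.cons (Pq.L [1] 7 (Pf.C 82 0x814083))
 (Pq.cons (Pq.L [2] 2 (Pf.C 61 49413))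
 (Pq.cons (Pq.L [2] 2 (Pf.C 61 49413))
 (Pq.cons (Pq.L [] 7 (Pf.C 55 82435))
 (Pq.cons (Pq.L [] 7 (Pf.C 55 82435))
 Pq.nil)))))) (Pq.cons (Pq.L [2] 1 (Pf.C 61 49412))
 Pq.nil))))) Pq.nil))))) (Pq.cons (Pq.D 0 (Pq.cons (Pq.D 3 (Pq.cons (Pq.D 1 (Pq.cons (Pq.L [] 8 (Pf.C 10 772))
 (Pq.cons (Pq.L [] 8 (Pf.C 16 518))
 (Pq.cons (Pq.D 2 (Pq.cons (Pq.L [] 1 (Pf.C 10 643))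
 (Pq.cons (Pq.L [] 4 (Pf.C 41 644))
 (Pq.cons (Pq.L [] 4 (Pf.C 26 644))
 (Pq.cons (Pq.L [1] 1 (Pf.C 49 82051))
 Pq.nil))))) (Pq.cons (Pq.D 2 (Pq.cons (Pq.L [] 1 (Pf.C 10 643))
 (Pq.cons (Pq.L [] 4 (Pf.C 7 517))
 (Pq.cons (Pq.L [] 4 (Pf.C 27 644))
 (Pq.cons (Pq.L [1] 1 (Pf.C 49 82051))
 Pq.nil))))) Pq.nil))))) (Pq.cons (Pq.L [] 2 (Pf.C 7 390))
 (Pq.cons (Pq.D 1 (Pq.cons (Pq.D 2 (Pq.cons (Pq.L [] 1 (Pf.C 10 643))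
 (Pq.cons (Pq.L [] 4 (Pf.C 7 517))
 (Pq.cons (Pq.L [] 15 (Pf.B 6 5 (Pf.B 4 3 (Pf.C 86 0x618284) (Pf.C 39 388)) (Pf.C 12 646)))
 (Pq.cons (Pq.L [1] 1 (Pf.C 49 82051))
 Pq.nil))))) (Pq.cons (Pq.L [] 10 (Pf.B 4 3 (Pf.C 59 66307) (Pf.C 18 515)))
 (Pq.cons (Pq.D 2 (Pq.cons (Pq.L [] 1 (Pf.C 10 643))
 (Pq.cons (Pq.L [] 4 (Pf.C 41 644))
 (Pq.cons (Pq.L [] 4 (Pf.C 26 644))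
 (Pq.cons (Pq.L [1] 1 (Pf.C 49 82051))
 Pq.nil))))) (Pq.cons (Pq.D 2 (Pq.cons (Pq.L [] 1 (Pf.C 10 643))
 (Pq.cons (Pq.L [] 4 (Pf.C 7 517))
 (Pq.cons (Pq.L [] 4 (Pf.C 27 644))
 (Pq.cons (Pq.L [1] 1 (Pf.C 49 82051))
 Pq.nil))))) Pq.nil))))) (Pq.cons (Pq.D 1 (Pq.cons (Pq.L [1] 8 (Pf.C 49 98436))
 (Pq.cons (Pq.L [1] 8 (Pf.C 54 65670))
 (Pq.cons (Pq.D 2 (Pq.cons (Pq.L [] 1 (Pf.C 10 643))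
 (Pq.cons (Pq.L [] 4 (Pf.C 41 644))
 (Pq.cons (Pq.L [] 4 (Pf.C 26 644))
 (Pq.cons (Pq.L [1] 1 (Pf.C 49 82051))
 Pq.nil))))) (Pq.cons (Pq.L [2] 8 (Pf.C 61 65798))
 Pq.nil))))) Pq.nil))))) (Pq.cons (Pq.D 3 (Pq.cons (Pq.D 1 (Pq.cons (Pq.L [] 8 (Pf.C 10 772))
 (Pq.cons (Pq.L [] 8 (Pf.C 16 518))
 (Pq.cons (Pq.D 2 (Pq.cons (Pq.L [] 1 (Pf.C 16 389))
 (Pq.cons (Pq.L [] 4 (Pf.C 41 644))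
 (Pq.cons (Pq.L [] 4 (Pf.C 26 644))
 (Pq.cons (Pq.L [1] 1 (Pf.C 54 49285))
 Pq.nil))))) (Pq.cons (Pq.D 2 (Pq.cons (Pq.L [] 1 (Pf.C 16 389))
 (Pq.cons (Pq.L [] 4 (Pf.C 7 517))
 (Pq.cons (Pq.L [] 4 (Pf.C 27 644))
 (Pq.cons (Pq.L [1] 1 (Pf.C 54 49285))
 Pq.nil))))) Pq.nil))))) (Pq.cons (Pq.D 1 (Pq.cons (Pq.D 2 (Pq.cons (Pq.L [] 1 (Pf.C 16 389))
 (Pq.cons (Pq.L [] 4 (Pf.C 7 517))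
 (Pq.cons (Pq.L [] 3 (Pf.B 6 5 (Pf.C 58 82310) (Pf.C 26 646)))
 (Pq.cons (Pq.L [1] 1 (Pf.C 54 49285))
 Pq.nil))))) (Pq.cons (Pq.D 2 (Pq.cons (Pq.L [] 1 (Pf.C 16 389))
 (Pq.cons (Pq.L [] 15 (Pf.B 6 5 (Pf.B 4 3 (Pf.C 80 0x618284) (Pf.C 4 388)) (Pf.C 41 646)))
 (Pq.cons (Pq.L [] 3 (Pf.B 6 5 (Pf.C 58 82310) (Pf.C 26 646)))
 (Pq.cons (Pq.L [1] 1 (Pf.C 54 49285))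
 Pq.nil))))) (Pq.cons (Pq.D 2 (Pq.cons (Pq.L [] 1 (Pf.C 16 389))
 (Pq.cons (Pq.L [] 4 (Pf.C 41 644))
 (Pq.cons (Pq.L [] 4 (Pf.C 26 644))
 (Pq.cons (Pq.L [1] 1 (Pf.C 54 49285))
 Pq.nil))))) (Pq.cons (Pq.D 2 (Pq.cons (Pq.L [] 1 (Pf.C 16 389))
 (Pq.cons (Pq.L [] 4 (Pf.C 7 517))
 (Pq.cons (Pq.L [] 4 (Pf.C 27 644))
 (Pq.cons (Pq.L [1] 1 (Pf.C 54 49285))
 Pq.nil))))) Pq.nil))))) (Pq.cons (Pq.D 1 (Pq.cons (Pq.D 2 (Pq.cons (Pq.L [] 1 (Pf.C 16 389))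
 (Pq.cons (Pq.L [] 4 (Pf.C 7 517))
 (Pq.cons (Pq.L [] 5 (Pf.B 4 3 (Pf.C 59 49796) (Pf.C 18 388)))
 (Pq.cons (Pq.L [1] 1 (Pf.C 54 49285))
 Pq.nil))))) (Pq.cons (Pq.D 2 (Pq.cons (Pq.L [] 1 (Pf.C 16 389))
 (Pq.cons (Pq.L [] 12 (Pf.B 6 5 (Pf.C 58 98821) (Pf.C 26 773)))
 (Pq.cons (Pq.L [] 15 (Pf.B 6 5 (Pf.B 4 3 (Pf.C 85 0xc0c205) (Pf.C 4 388)) (Pf.C 12 646)))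
 (Pq.cons (Pq.L [1] 1 (Pf.C 54 49285))
 Pq.nil))))) (Pq.cons (Pq.D 2 (Pq.cons (Pq.L [] 1 (Pf.C 16 389))
 (Pq.cons (Pq.L [] 4 (Pf.C 41 644))
 (Pq.cons (Pq.L [] 4 (Pf.C 26 644))
 (Pq.cons (Pq.L [1] 1 (Pf.C 54 49285))
 Pq.nil))))) (Pq.cons (Pq.D 2 (Pq.cons (Pq.L [] 1 (Pf.C 16 389))
 (Pq.cons (Pq.L [] 4 (Pf.C 7 517))
 (Pq.cons (Pq.L [] 4 (Pf.C 27 644))
 (Pq.cons (Pq.L [1] 1 (Pf.C 54 49285))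
 Pq.nil))))) Pq.nil))))) (Pq.cons (Pq.D 1 (Pq.cons (Pq.L [1] 8 (Pf.C 49 98436))
 (Pq.cons (Pq.L [1] 8 (Pf.C 54 65670))
 (Pq.cons (Pq.D 2 (Pq.cons (Pq.L [] 1 (Pf.C 16 389))
 (Pq.cons (Pq.L [] 4 (Pf.C 41 644))
 (Pq.cons (Pq.L [] 4 (Pf.C 26 644))
 (Pq.cons (Pq.L [1] 1 (Pf.C 54 49285))
 Pq.nil))))) (Pq.cons (Pq.L [2] 8 (Pf.C 61 65798))
 Pq.nil))))) Pq.nil))))) (Pq.cons (Pq.D 3 (Pq.cons (Pq.D 1 (Pq.cons (Pq.L [] 8 (Pf.C 10 772))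
 (Pq.cons (Pq.L [] 8 (Pf.C 16 518))
 (Pq.cons (Pq.D 2 (Pq.cons (Pq.L [] 15 (Pf.B 6 5 (Pf.B 4 3 (Pf.C 86 0x618284) (Pf.C 41 388)) (Pf.C 40 646)))
 (Pq.cons (Pq.L [] 4 (Pf.C 41 644))
 (Pq.cons (Pq.L [] 4 (Pf.C 26 644))
 (Pq.cons (Pq.L [] 3 (Pf.B 6 5 (Pf.C 64 82310) (Pf.C 8 646)))
 Pq.nil))))) (Pq.cons (Pq.L [] 10 (Pf.B 4 3 (Pf.C 60 66307) (Pf.C 7 515)))
 Pq.nil))))) (Pq.cons (Pq.L [] 2 (Pf.C 41 771))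
 (Pq.cons (Pq.L [] 2 (Pf.C 26 771))
 (Pq.cons (Pq.D 1 (Pq.cons (Pq.L [1] 8 (Pf.C 49 98436))
 (Pq.cons (Pq.L [1] 8 (Pf.C 54 65670))
 (Pq.cons (Pq.D 2 (Pq.cons (Pq.L [] 12 (Pf.B 6 5 (Pf.C 64 98821) (Pf.C 8 773)))
 (Pq.cons (Pq.L [] 4 (Pf.C 41 644))
 (Pq.cons (Pq.L [] 4 (Pf.C 26 644))
 (Pq.cons (Pq.L [] 15 (Pf.B 6 5 (Pf.B 4 3 (Pf.C 84 0x618284) (Pf.C 41 388)) (Pf.C 11 646)))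
 Pq.nil))))) (Pq.cons (Pq.L [2] 8 (Pf.C 61 65798))
 Pq.nil))))) Pq.nil))))) (Pq.cons (Pq.D 3 (Pq.cons (Pq.D 1 (Pq.cons (Pq.L [] 8 (Pf.C 10 772))
 (Pq.cons (Pq.L [] 8 (Pf.C 16 518))
 (Pq.cons (Pq.D 2 (Pq.cons (Pq.L [] 5 (Pf.B 4 3 (Pf.C 60 49796) (Pf.C 7 388)))
 (Pq.cons (Pq.L [] 4 (Pf.C 41 644))
 (Pq.cons (Pq.L [] 4 (Pf.C 26 644))
 (Pq.cons (Pq.L [2] 1 (Pf.C 61 49413))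
 Pq.nil))))) (Pq.cons (Pq.D 2 (Pq.cons (Pq.L [] 15 (Pf.B 6 5 (Pf.B 4 3 (Pf.C 86 0x618284) (Pf.C 13 388)) (Pf.C 40 646)))
 (Pq.cons (Pq.L [] 4 (Pf.C 7 517))
 (Pq.cons (Pq.L [] 4 (Pf.C 27 644))
 (Pq.cons (Pq.L [2] 1 (Pf.C 61 49413))
 Pq.nil))))) Pq.nil))))) (Pq.cons (Pq.L [] 2 (Pf.C 7 390))
 (Pq.cons (Pq.L [] 2 (Pf.C 27 771))
 (Pq.cons (Pq.D 1 (Pq.cons (Pq.L [1] 8 (Pf.C 49 98436))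
 (Pq.cons (Pq.L [1] 8 (Pf.C 54 65670))
 (Pq.cons (Pq.D 2 (Pq.cons (Pq.L [] 12 (Pf.B 6 5 (Pf.C 64 98821) (Pf.C 8 773)))
 (Pq.cons (Pq.L [] 4 (Pf.C 41 644))
 (Pq.cons (Pq.L [] 4 (Pf.C 26 644))
 (Pq.cons (Pq.L [2] 1 (Pf.C 61 49413))
 Pq.nil))))) (Pq.cons (Pq.L [2] 8 (Pf.C 61 65798))
 Pq.nil))))) Pq.nil))))) Pq.nil))))) Pq.nil))))))
theorem f2_o46 : AllRef f2_T f2_G37 (List.take 6 (applyObl f3_T 8 [33,34,37,38,41,42,44,45,46,50,51,52,53] [1,2,1,3,1,2,1,2,3,3,2,3,3] [])) :=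
  chkPq_sound f2_o46c _ (by decide +kernel)
noncomputable def f2_o47c : Pq := (Pq.cons (Pq.D 0 (Pq.cons (Pq.D 3 (Pq.cons (Pq.L [] 2 (Pf.C 18 771))
 (Pq.cons (Pq.D 1 (Pq.cons (Pq.L [] 8 (Pf.C 5 772))
 (Pq.cons (Pq.D 2 (Pq.cons (Pq.L [] 4 (Pf.C 4 644))
 (Pq.cons (Pq.L [] 1 (Pf.C 5 643))
 (Pq.cons (Pq.L [0] 1 (Pf.C 56 389))
 (Pq.cons (Pq.L [] 4 (Pf.C 25 644))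
 (Pq.cons (Pq.L [] 4 (Pf.C 4 644))
 Pq.nil)))))) (Pq.cons (Pq.L [] 8 (Pf.C 9 518))
 (Pq.cons (Pq.L [2] 8 (Pf.C 61 65798))
 Pq.nil))))) (Pq.cons (Pq.D 1 (Pq.cons (Pq.L [0] 8 (Pf.C 56 518))
 (Pq.cons (Pq.D 2 (Pq.cons (Pq.L [] 4 (Pf.C 4 644))
 (Pq.cons (Pq.L [] 1 (Pf.C 5 643))
 (Pq.cons (Pq.L [0] 1 (Pf.C 56 389))
 (Pq.cons (Pq.L [] 4 (Pf.C 25 644))
 (Pq.cons (Pq.L [] 4 (Pf.C 4 644))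
 Pq.nil)))))) (Pq.cons (Pq.L [0] 8 (Pf.C 54 518))
 (Pq.cons (Pq.L [2] 8 (Pf.C 61 65798))
 Pq.nil))))) (Pq.cons (Pq.D 1 (Pq.cons (Pq.D 2 (Pq.cons (Pq.L [] 4 (Pf.C 18 644))
 (Pq.cons (Pq.L [] 1 (Pf.C 5 643))
 (Pq.cons (Pq.L [0] 1 (Pf.C 56 389))
 (Pq.cons (Pq.L [] 15 (Pf.B 6 5 (Pf.B 4 3 (Pf.C 78 0xc0c205) (Pf.C 39 388)) (Pf.C 2 646)))
 (Pq.cons (Pq.L [] 4 (Pf.C 21 644))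
 Pq.nil)))))) (Pq.cons (Pq.D 2 (Pq.cons (Pq.L [] 4 (Pf.C 4 644))
 (Pq.cons (Pq.L [] 1 (Pf.C 5 643))
 (Pq.cons (Pq.L [0] 1 (Pf.C 56 389))
 (Pq.cons (Pq.L [] 4 (Pf.C 25 644))
 (Pq.cons (Pq.L [] 4 (Pf.C 4 644))
 Pq.nil)))))) (Pq.cons (Pq.L [] 8 (Pf.C 14 772))
 (Pq.cons (Pq.L [] 10 (Pf.B 4 3 (Pf.C 45 66307) (Pf.C 19 515)))
 Pq.nil))))) (Pq.cons (Pq.L [] 2 (Pf.C 21 771))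
 Pq.nil)))))) (Pq.cons (Pq.D 3 (Pq.cons (Pq.L [] 2 (Pf.C 4 771))
 (Pq.cons (Pq.D 1 (Pq.cons (Pq.L [] 8 (Pf.C 5 772))
 (Pq.cons (Pq.D 2 (Pq.cons (Pq.L [] 4 (Pf.C 4 644))
 (Pq.cons (Pq.L [] 15 (Pf.B 6 5 (Pf.B 4 3 (Pf.C 78 0xc0c205) (Pf.C 4 388)) (Pf.C 42 646)))
 (Pq.cons (Pq.L [] 3 (Pf.B 6 5 (Pf.C 44 82310) (Pf.C 32 646)))
 (Pq.cons (Pq.L [] 4 (Pf.C 25 644))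
 (Pq.cons (Pq.L [] 4 (Pf.C 4 644))
 Pq.nil)))))) (Pq.cons (Pq.L [] 8 (Pf.C 9 518))
 (Pq.cons (Pq.L [2] 8 (Pf.C 61 65798))
 Pq.nil))))) (Pq.cons (Pq.D 1 (Pq.cons (Pq.L [0] 8 (Pf.C 56 518))
 (Pq.cons (Pq.D 2 (Pq.cons (Pq.L [] 4 (Pf.C 4 644))
 (Pq.cons (Pq.L [] 12 (Pf.B 6 5 (Pf.C 44 98821) (Pf.C 32 773)))
 (Pq.cons (Pq.L [] 15 (Pf.B 6 5 (Pf.B 4 3 (Pf.C 77 0x618284) (Pf.C 4 388)) (Pf.C 11 646)))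
 (Pq.cons (Pq.L [] 4 (Pf.C 25 644))
 (Pq.cons (Pq.L [] 4 (Pf.C 4 644))
 Pq.nil)))))) (Pq.cons (Pq.L [0] 8 (Pf.C 54 518))
 (Pq.cons (Pq.L [2] 8 (Pf.C 61 65798))
 Pq.nil))))) (Pq.cons (Pq.L [] 2 (Pf.C 25 771))
 (Pq.cons (Pq.L [] 2 (Pf.C 4 771))
 Pq.nil)))))) (Pq.cons (Pq.D 3 (Pq.cons (Pq.D 1 (Pq.cons (Pq.D 2 (Pq.cons (Pq.L [] 4 (Pf.C 18 644))
 (Pq.cons (Pq.L [] 1 (Pf.C 9 389))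
 (Pq.cons (Pq.L [0] 1 (Pf.C 54 389))
 (Pq.cons (Pq.L [] 1 (Pf.C 14 643))
 (Pq.cons (Pq.L [] 4 (Pf.C 21 644))
 Pq.nil)))))) (Pq.cons (Pq.D 2 (Pq.cons (Pq.L [] 4 (Pf.C 4 644))
 (Pq.cons (Pq.L [] 1 (Pf.C 9 389))
 (Pq.cons (Pq.L [0] 1 (Pf.C 54 389))
 (Pq.cons (Pq.L [] 1 (Pf.C 14 643))
 (Pq.cons (Pq.L [] 4 (Pf.C 4 644))
 Pq.nil)))))) (Pq.cons (Pq.D 2 (Pq.cons (Pq.L [] 15 (Pf.B 6 5 (Pf.B 4 3 (Pf.C 80 0xc0c205) (Pf.C 41 388)) (Pf.C 4 646)))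
 (Pq.cons (Pq.L [] 1 (Pf.C 9 389))
 (Pq.cons (Pq.L [0] 1 (Pf.C 54 389))
 (Pq.cons (Pq.L [] 1 (Pf.C 14 643))
 (Pq.cons (Pq.L [] 3 (Pf.B 6 5 (Pf.C 46 82310) (Pf.C 4 646)))
 Pq.nil)))))) (Pq.cons (Pq.D 2 (Pq.cons (Pq.L [] 4 (Pf.C 23 517))
 (Pq.cons (Pq.L [] 1 (Pf.C 9 389))
 (Pq.cons (Pq.L [0] 1 (Pf.C 54 389))
 (Pq.cons (Pq.L [] 1 (Pf.C 14 643))
 (Pq.cons (Pq.L [] 4 (Pf.C 29 644))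
 Pq.nil)))))) Pq.nil))))) (Pq.cons (Pq.D 1 (Pq.cons (Pq.L [] 8 (Pf.C 5 772))
 (Pq.cons (Pq.D 2 (Pq.cons (Pq.L [] 4 (Pf.C 4 644))
 (Pq.cons (Pq.L [] 1 (Pf.C 9 389))
 (Pq.cons (Pq.L [0] 1 (Pf.C 54 389))
 (Pq.cons (Pq.L [] 1 (Pf.C 14 643))
 (Pq.cons (Pq.L [] 4 (Pf.C 4 644))
 Pq.nil)))))) (Pq.cons (Pq.L [] 8 (Pf.C 9 518))
 (Pq.cons (Pq.L [2] 8 (Pf.C 61 65798))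
 Pq.nil))))) (Pq.cons (Pq.D 1 (Pq.cons (Pq.L [0] 8 (Pf.C 56 518))
 (Pq.cons (Pq.D 2 (Pq.cons (Pq.L [] 4 (Pf.C 4 644))
 (Pq.cons (Pq.L [] 1 (Pf.C 9 389))
 (Pq.cons (Pq.L [0] 1 (Pf.C 54 389))
 (Pq.cons (Pq.L [] 1 (Pf.C 14 643))
 (Pq.cons (Pq.L [] 4 (Pf.C 4 644))
 Pq.nil)))))) (Pq.cons (Pq.L [0] 8 (Pf.C 54 518))
 (Pq.cons (Pq.L [2] 8 (Pf.C 61 65798))
 Pq.nil))))) (Pq.cons (Pq.D 1 (Pq.cons (Pq.D 2 (Pq.cons (Pq.L [] 4 (Pf.C 18 644))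
 (Pq.cons (Pq.L [] 1 (Pf.C 9 389))
 (Pq.cons (Pq.L [0] 1 (Pf.C 54 389))
 (Pq.cons (Pq.L [] 1 (Pf.C 14 643))
 (Pq.cons (Pq.L [] 4 (Pf.C 21 644))
 Pq.nil)))))) (Pq.cons (Pq.D 2 (Pq.cons (Pq.L [] 4 (Pf.C 4 644))
 (Pq.cons (Pq.L [] 1 (Pf.C 9 389))
 (Pq.cons (Pq.L [0] 1 (Pf.C 54 389))
 (Pq.cons (Pq.L [] 1 (Pf.C 14 643))
 (Pq.cons (Pq.L [] 4 (Pf.C 4 644))
 Pq.nil)))))) (Pq.cons (Pq.L [] 8 (Pf.C 14 772))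
 (Pq.cons (Pq.D 2 (Pq.cons (Pq.L [] 4 (Pf.C 23 517))
 (Pq.cons (Pq.L [] 1 (Pf.C 9 389))
 (Pq.cons (Pq.L [0] 1 (Pf.C 54 389))
 (Pq.cons (Pq.L [] 1 (Pf.C 14 643))
 (Pq.cons (Pq.L [] 4 (Pf.C 29 644))
 Pq.nil)))))) Pq.nil))))) (Pq.cons (Pq.D 1 (Pq.cons (Pq.D 2 (Pq.cons (Pq.L [] 4 (Pf.C 18 644))
 (Pq.cons (Pq.L [] 1 (Pf.C 9 389))
 (Pq.cons (Pq.L [0] 1 (Pf.C 54 389))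
 (Pq.cons (Pq.L [] 1 (Pf.C 14 643))
 (Pq.cons (Pq.L [] 4 (Pf.C 21 644))
 Pq.nil)))))) (Pq.cons (Pq.D 2 (Pq.cons (Pq.L [] 4 (Pf.C 4 644))
 (Pq.cons (Pq.L [] 1 (Pf.C 9 389))
 (Pq.cons (Pq.L [0] 1 (Pf.C 54 389))
 (Pq.cons (Pq.L [] 1 (Pf.C 14 643))
 (Pq.cons (Pq.L [] 4 (Pf.C 4 644))
 Pq.nil)))))) (Pq.cons (Pq.D 2 (Pq.cons (Pq.L [] 12 (Pf.B 6 5 (Pf.C 46 98821) (Pf.C 4 646)))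
 (Pq.cons (Pq.L [] 1 (Pf.C 9 389))
 (Pq.cons (Pq.L [0] 1 (Pf.C 54 389))
 (Pq.cons (Pq.L [] 1 (Pf.C 14 643))
 (Pq.cons (Pq.L [] 15 (Pf.B 6 5 (Pf.B 4 3 (Pf.C 79 0x618284) (Pf.C 41 388)) (Pf.C 2 646)))
 Pq.nil)))))) (Pq.cons (Pq.D 2 (Pq.cons (Pq.L [] 4 (Pf.C 23 517))
 (Pq.cons (Pq.L [] 1 (Pf.C 9 389))
 (Pq.cons (Pq.L [0] 1 (Pf.C 54 389))
 (Pq.cons (Pq.L [] 1 (Pf.C 14 643))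
 (Pq.cons (Pq.L [] 4 (Pf.C 29 644))
 Pq.nil)))))) Pq.nil))))) Pq.nil)))))) (Pq.cons (Pq.D 3 (Pq.cons (Pq.L [] 2 (Pf.C 23 390))
 (Pq.cons (Pq.D 1 (Pq.cons (Pq.L [] 8 (Pf.C 5 772))
 (Pq.cons (Pq.D 2 (Pq.cons (Pq.L [] 4 (Pf.C 4 644))
 (Pq.cons (Pq.L [2] 1 (Pf.C 61 49413))
 (Pq.cons (Pq.L [2] 1 (Pf.C 61 49413))
 (Pq.cons (Pq.L [] 4 (Pf.C 25 644))
 (Pq.cons (Pq.L [] 4 (Pf.C 4 644))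
 Pq.nil)))))) (Pq.cons (Pq.L [] 8 (Pf.C 9 518))
 (Pq.cons (Pq.L [2] 8 (Pf.C 61 65798))
 Pq.nil))))) (Pq.cons (Pq.D 1 (Pq.cons (Pq.L [0] 8 (Pf.C 56 518))
 (Pq.cons (Pq.D 2 (Pq.cons (Pq.L [] 4 (Pf.C 4 644))
 (Pq.cons (Pq.L [2] 1 (Pf.C 61 49413))
 (Pq.cons (Pq.L [2] 1 (Pf.C 61 49413))
 (Pq.cons (Pq.L [] 4 (Pf.C 25 644))
 (Pq.cons (Pq.L [] 4 (Pf.C 4 644))
 Pq.nil)))))) (Pq.cons (Pq.L [0] 8 (Pf.C 54 518))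
 (Pq.cons (Pq.L [2] 8 (Pf.C 61 65798))
 Pq.nil))))) (Pq.cons (Pq.D 1 (Pq.cons (Pq.D 2 (Pq.cons (Pq.L [] 4 (Pf.C 18 644))
 (Pq.cons (Pq.L [2] 1 (Pf.C 61 49413))
 (Pq.cons (Pq.L [2] 1 (Pf.C 61 49413))
 (Pq.cons (Pq.L [] 5 (Pf.B 4 3 (Pf.C 45 49796) (Pf.C 19 388)))
 (Pq.cons (Pq.L [] 4 (Pf.C 21 644))
 Pq.nil)))))) (Pq.cons (Pq.D 2 (Pq.cons (Pq.L [] 4 (Pf.C 4 644))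
 (Pq.cons (Pq.L [2] 1 (Pf.C 61 49413))
 (Pq.cons (Pq.L [2] 1 (Pf.C 61 49413))
 (Pq.cons (Pq.L [] 4 (Pf.C 25 644))
 (Pq.cons (Pq.L [] 4 (Pf.C 4 644))
 Pq.nil)))))) (Pq.cons (Pq.L [] 8 (Pf.C 14 772))
 (Pq.cons (Pq.D 2 (Pq.cons (Pq.L [] 4 (Pf.C 23 517))
 (Pq.cons (Pq.L [2] 1 (Pf.C 61 49413))
 (Pq.cons (Pq.L [2] 1 (Pf.C 61 49413))
 (Pq.cons (Pq.L [] 15 (Pf.B 6 5 (Pf.B 4 3 (Pf.C 79 0x618284) (Pf.C 13 388)) (Pf.C 2 646)))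
 (Pq.cons (Pq.L [] 4 (Pf.C 29 644))
 Pq.nil)))))) Pq.nil))))) (Pq.cons (Pq.L [] 2 (Pf.C 29 771))
 Pq.nil)))))) Pq.nil))))) (Pq.cons (Pq.D 0 (Pq.cons (Pq.D 3 (Pq.cons (Pq.D 1 (Pq.cons (Pq.L [] 8 (Pf.C 16 772))
 (Pq.cons (Pq.L [2] 8 (Pf.C 54 98818))
 (Pq.cons (Pq.L [2] 8 (Pf.C 54 98818))
 (Pq.cons (Pq.D 2 (Pq.cons (Pq.L [] 1 (Pf.C 16 643))
 (Pq.cons (Pq.L [] 4 (Pf.C 32 517))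
 (Pq.cons (Pq.L [] 4 (Pf.C 11 644))
 (Pq.cons (Pq.L [] 4 (Pf.C 37 644))
 (Pq.cons (Pq.L [] 4 (Pf.C 38 644))
 Pq.nil)))))) Pq.nil))))) (Pq.cons (Pq.L [] 2 (Pf.C 8 771))
 (Pq.cons (Pq.L [] 2 (Pf.C 8 771))
 (Pq.cons (Pq.D 1 (Pq.cons (Pq.D 2 (Pq.cons (Pq.L [] 1 (Pf.C 16 643))
 (Pq.cons (Pq.L [] 4 (Pf.C 8 644))
 (Pq.cons (Pq.L [] 4 (Pf.C 8 644))
 (Pq.cons (Pq.L [] 15 (Pf.B 6 5 (Pf.B 4 3 (Pf.C 77 0xc0c205) (Pf.C 40 388)) (Pf.C 2 646)))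
 (Pq.cons (Pq.L [] 3 (Pf.B 6 5 (Pf.C 43 82310) (Pf.C 2 646)))
 Pq.nil)))))) (Pq.cons (Pq.L [] 8 (Pf.C 14 772))
 (Pq.cons (Pq.L [] 10 (Pf.B 4 3 (Pf.C 63 66307) (Pf.C 22 515)))
 (Pq.cons (Pq.D 2 (Pq.cons (Pq.L [] 1 (Pf.C 16 643))
 (Pq.cons (Pq.L [] 4 (Pf.C 32 517))
 (Pq.cons (Pq.L [] 4 (Pf.C 11 644))
 (Pq.cons (Pq.L [] 4 (Pf.C 37 644))
 (Pq.cons (Pq.L [] 4 (Pf.C 38 644))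
 Pq.nil)))))) Pq.nil))))) (Pq.cons (Pq.D 1 (Pq.cons (Pq.D 2 (Pq.cons (Pq.L [] 1 (Pf.C 16 643))
 (Pq.cons (Pq.L [] 4 (Pf.C 8 644))
 (Pq.cons (Pq.L [] 4 (Pf.C 8 644))
 (Pq.cons (Pq.L [] 12 (Pf.B 6 5 (Pf.C 43 98821) (Pf.C 2 646)))
 (Pq.cons (Pq.L [] 15 (Pf.B 6 5 (Pf.B 4 3 (Pf.C 77 0xc0c205) (Pf.C 40 388)) (Pf.C 2 646)))
 Pq.nil)))))) (Pq.cons (Pq.L [0] 8 (Pf.C 46 98816))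
 (Pq.cons (Pq.L [2] 8 (Pf.C 54 98818))
 (Pq.cons (Pq.D 2 (Pq.cons (Pq.L [] 1 (Pf.C 16 643))
 (Pq.cons (Pq.L [] 4 (Pf.C 32 517))
 (Pq.cons (Pq.L [] 4 (Pf.C 11 644))
 (Pq.cons (Pq.L [] 4 (Pf.C 37 644))
 (Pq.cons (Pq.L [] 4 (Pf.C 38 644))
 Pq.nil)))))) Pq.nil))))) Pq.nil)))))) (Pq.cons (Pq.D 3 (Pq.cons (Pq.D 1 (Pq.cons (Pq.L [] 8 (Pf.C 16 772))
 (Pq.cons (Pq.L [2] 8 (Pf.C 54 98818))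
 (Pq.cons (Pq.L [2] 8 (Pf.C 54 98818))
 (Pq.cons (Pq.D 2 (Pq.cons (Pq.L [2] 1 (Pf.C 54 82306))
 (Pq.cons (Pq.L [] 1 (Pf.C 9 389))
 (Pq.cons (Pq.L [] 4 (Pf.C 11 644))
 (Pq.cons (Pq.L [] 1 (Pf.C 14 643))
 (Pq.cons (Pq.L [0] 1 (Pf.C 46 82304))
 Pq.nil)))))) Pq.nil))))) (Pq.cons (Pq.D 1 (Pq.cons (Pq.D 2 (Pq.cons (Pq.L [2] 1 (Pf.C 54 82306))
 (Pq.cons (Pq.L [] 1 (Pf.C 9 389))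
 (Pq.cons (Pq.L [] 4 (Pf.C 8 644))
 (Pq.cons (Pq.L [] 1 (Pf.C 14 643))
 (Pq.cons (Pq.L [0] 1 (Pf.C 46 82304))
 Pq.nil)))))) (Pq.cons (Pq.L [] 8 (Pf.C 9 518))
 (Pq.cons (Pq.D 2 (Pq.cons (Pq.L [2] 1 (Pf.C 54 82306))
 (Pq.cons (Pq.L [] 1 (Pf.C 9 389))
 (Pq.cons (Pq.L [] 4 (Pf.C 30 644))
 (Pq.cons (Pq.L [] 1 (Pf.C 14 643))
 (Pq.cons (Pq.L [0] 1 (Pf.C 46 82304))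
 Pq.nil)))))) (Pq.cons (Pq.D 2 (Pq.cons (Pq.L [2] 1 (Pf.C 54 82306))
 (Pq.cons (Pq.L [] 1 (Pf.C 9 389))
 (Pq.cons (Pq.L [] 4 (Pf.C 11 644))
 (Pq.cons (Pq.L [] 1 (Pf.C 14 643))
 (Pq.cons (Pq.L [0] 1 (Pf.C 46 82304))
 Pq.nil)))))) Pq.nil))))) (Pq.cons (Pq.D 1 (Pq.cons (Pq.D 2 (Pq.cons (Pq.L [2] 1 (Pf.C 54 82306))
 (Pq.cons (Pq.L [] 1 (Pf.C 9 389))
 (Pq.cons (Pq.L [] 4 (Pf.C 8 644))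
 (Pq.cons (Pq.L [] 1 (Pf.C 14 643))
 (Pq.cons (Pq.L [0] 1 (Pf.C 46 82304))
 Pq.nil)))))) (Pq.cons (Pq.D 2 (Pq.cons (Pq.L [2] 1 (Pf.C 54 82306))
 (Pq.cons (Pq.L [] 1 (Pf.C 9 389))
 (Pq.cons (Pq.L [] 15 (Pf.B 6 5 (Pf.B 4 3 (Pf.C 84 0x618284) (Pf.C 41 388)) (Pf.C 11 646)))
 (Pq.cons (Pq.L [] 1 (Pf.C 14 643))
 (Pq.cons (Pq.L [0] 1 (Pf.C 46 82304))
 Pq.nil)))))) (Pq.cons (Pq.D 2 (Pq.cons (Pq.L [2] 1 (Pf.C 54 82306))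
 (Pq.cons (Pq.L [] 1 (Pf.C 9 389))
 (Pq.cons (Pq.L [] 4 (Pf.C 30 644))
 (Pq.cons (Pq.L [] 1 (Pf.C 14 643))
 (Pq.cons (Pq.L [0] 1 (Pf.C 46 82304))
 Pq.nil)))))) (Pq.cons (Pq.D 2 (Pq.cons (Pq.L [2] 1 (Pf.C 54 82306))
 (Pq.cons (Pq.L [] 1 (Pf.C 9 389))
 (Pq.cons (Pq.L [] 4 (Pf.C 11 644))
 (Pq.cons (Pq.L [] 1 (Pf.C 14 643))
 (Pq.cons (Pq.L [0] 1 (Pf.C 46 82304))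
 Pq.nil)))))) Pq.nil))))) (Pq.cons (Pq.D 1 (Pq.cons (Pq.D 2 (Pq.cons (Pq.L [2] 1 (Pf.C 54 82306))
 (Pq.cons (Pq.L [] 1 (Pf.C 9 389))
 (Pq.cons (Pq.L [] 4 (Pf.C 8 644))
 (Pq.cons (Pq.L [] 1 (Pf.C 14 643))
 (Pq.cons (Pq.L [0] 1 (Pf.C 46 82304))
 Pq.nil)))))) (Pq.cons (Pq.L [] 8 (Pf.C 14 772))
 (Pq.cons (Pq.D 2 (Pq.cons (Pq.L [2] 1 (Pf.C 54 82306))
 (Pq.cons (Pq.L [] 1 (Pf.C 9 389))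
 (Pq.cons (Pq.L [] 4 (Pf.C 30 644))
 (Pq.cons (Pq.L [] 1 (Pf.C 14 643))
 (Pq.cons (Pq.L [0] 1 (Pf.C 46 82304))
 Pq.nil)))))) (Pq.cons (Pq.D 2 (Pq.cons (Pq.L [2] 1 (Pf.C 54 82306))
 (Pq.cons (Pq.L [] 1 (Pf.C 9 389))
 (Pq.cons (Pq.L [] 4 (Pf.C 11 644))
 (Pq.cons (Pq.L [] 1 (Pf.C 14 643))
 (Pq.cons (Pq.L [0] 1 (Pf.C 46 82304))
 Pq.nil)))))) Pq.nil))))) (Pq.cons (Pq.D 1 (Pq.cons (Pq.D 2 (Pq.cons (Pq.L [2] 1 (Pf.C 54 82306))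
 (Pq.cons (Pq.L [] 1 (Pf.C 9 389))
 (Pq.cons (Pq.L [] 4 (Pf.C 8 644))
 (Pq.cons (Pq.L [] 1 (Pf.C 14 643))
 (Pq.cons (Pq.L [0] 1 (Pf.C 46 82304))
 Pq.nil)))))) (Pq.cons (Pq.L [0] 8 (Pf.C 46 98816))
 (Pq.cons (Pq.L [2] 8 (Pf.C 54 98818))
 (Pq.cons (Pq.D 2 (Pq.cons (Pq.L [2] 1 (Pf.C 54 82306))
 (Pq.cons (Pq.L [] 1 (Pf.C 9 389))
 (Pq.cons (Pq.L [] 4 (Pf.C 11 644))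
 (Pq.cons (Pq.L [] 1 (Pf.C 14 643))
 (Pq.cons (Pq.L [0] 1 (Pf.C 46 82304))
 Pq.nil)))))) Pq.nil))))) Pq.nil)))))) (Pq.cons (Pq.D 3 (Pq.cons (Pq.D 1 (Pq.cons (Pq.L [] 8 (Pf.C 16 772))
 (Pq.cons (Pq.L [2] 8 (Pf.C 54 98818))
 (Pq.cons (Pq.L [2] 8 (Pf.C 54 98818))
 (Pq.cons (Pq.D 2 (Pq.cons (Pq.L [2] 1 (Pf.C 54 82306))
 (Pq.cons (Pq.L [] 4 (Pf.C 32 517))
 (Pq.cons (Pq.L [] 4 (Pf.C 11 644))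
 (Pq.cons (Pq.L [] 4 (Pf.C 37 644))
 (Pq.cons (Pq.L [2] 1 (Pf.C 54 82306))
 Pq.nil)))))) Pq.nil))))) (Pq.cons (Pq.D 1 (Pq.cons (Pq.D 2 (Pq.cons (Pq.L [2] 1 (Pf.C 54 82306))
 (Pq.cons (Pq.L [] 4 (Pf.C 8 644))
 (Pq.cons (Pq.L [] 4 (Pf.C 8 644))
 (Pq.cons (Pq.L [] 3 (Pf.B 6 5 (Pf.C 65 82310) (Pf.C 33 646)))
 (Pq.cons (Pq.L [2] 1 (Pf.C 54 82306))
 Pq.nil)))))) (Pq.cons (Pq.L [] 8 (Pf.C 9 518))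
 (Pq.cons (Pq.D 2 (Pq.cons (Pq.L [2] 1 (Pf.C 54 82306))
 (Pq.cons (Pq.L [] 15 (Pf.B 6 5 (Pf.B 4 3 (Pf.C 84 0x618284) (Pf.C 12 388)) (Pf.C 42 646)))
 (Pq.cons (Pq.L [] 4 (Pf.C 30 644))
 (Pq.cons (Pq.L [] 3 (Pf.B 6 5 (Pf.C 65 82310) (Pf.C 33 646)))
 (Pq.cons (Pq.L [2] 1 (Pf.C 54 82306))
 Pq.nil)))))) (Pq.cons (Pq.D 2 (Pq.cons (Pq.L [2] 1 (Pf.C 54 82306))
 (Pq.cons (Pq.L [] 4 (Pf.C 32 517))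
 (Pq.cons (Pq.L [] 4 (Pf.C 11 644))
 (Pq.cons (Pq.L [] 4 (Pf.C 37 644))
 (Pq.cons (Pq.L [2] 1 (Pf.C 54 82306))
 Pq.nil)))))) Pq.nil))))) (Pq.cons (Pq.L [] 2 (Pf.C 30 771))
 (Pq.cons (Pq.D 1 (Pq.cons (Pq.D 2 (Pq.cons (Pq.L [2] 1 (Pf.C 54 82306))
 (Pq.cons (Pq.L [] 4 (Pf.C 8 644))
 (Pq.cons (Pq.L [] 4 (Pf.C 8 644))
 (Pq.cons (Pq.L [] 5 (Pf.B 4 3 (Pf.C 63 49796) (Pf.C 22 388)))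
 (Pq.cons (Pq.L [2] 1 (Pf.C 54 82306))
 Pq.nil)))))) (Pq.cons (Pq.L [] 8 (Pf.C 14 772))
 (Pq.cons (Pq.D 2 (Pq.cons (Pq.L [2] 1 (Pf.C 54 82306))
 (Pq.cons (Pq.L [] 12 (Pf.B 6 5 (Pf.C 65 98821) (Pf.C 33 773)))
 (Pq.cons (Pq.L [] 4 (Pf.C 30 644))
 (Pq.cons (Pq.L [] 15 (Pf.B 6 5 (Pf.B 4 3 (Pf.C 87 0x618284) (Pf.C 12 388)) (Pf.C 2 646)))
 (Pq.cons (Pq.L [2] 1 (Pf.C 54 82306))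
 Pq.nil)))))) (Pq.cons (Pq.D 2 (Pq.cons (Pq.L [2] 1 (Pf.C 54 82306))
 (Pq.cons (Pq.L [] 4 (Pf.C 32 517))
 (Pq.cons (Pq.L [] 4 (Pf.C 11 644))
 (Pq.cons (Pq.L [] 4 (Pf.C 37 644))
 (Pq.cons (Pq.L [2] 1 (Pf.C 54 82306))
 Pq.nil)))))) Pq.nil))))) (Pq.cons (Pq.D 1 (Pq.cons (Pq.D 2 (Pq.cons (Pq.L [2] 1 (Pf.C 54 82306))
 (Pq.cons (Pq.L [] 4 (Pf.C 8 644))
 (Pq.cons (Pq.L [] 4 (Pf.C 8 644))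
 (Pq.cons (Pq.L [] 12 (Pf.B 6 5 (Pf.C 43 98821) (Pf.C 2 646)))
 (Pq.cons (Pq.L [2] 1 (Pf.C 54 82306))
 Pq.nil)))))) (Pq.cons (Pq.L [0] 8 (Pf.C 46 98816))
 (Pq.cons (Pq.L [2] 8 (Pf.C 54 98818))
 (Pq.cons (Pq.D 2 (Pq.cons (Pq.L [2] 1 (Pf.C 54 82306))
 (Pq.cons (Pq.L [] 4 (Pf.C 32 517))
 (Pq.cons (Pq.L [] 4 (Pf.C 11 644))
 (Pq.cons (Pq.L [] 4 (Pf.C 37 644))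
 (Pq.cons (Pq.L [2] 1 (Pf.C 54 82306))
 Pq.nil)))))) Pq.nil))))) Pq.nil)))))) (Pq.cons (Pq.D 3 (Pq.cons (Pq.D 1 (Pq.cons (Pq.L [] 8 (Pf.C 16 772))
 (Pq.cons (Pq.L [2] 8 (Pf.C 54 98818))
 (Pq.cons (Pq.L [2] 8 (Pf.C 54 98818))
 (Pq.cons (Pq.D 2 (Pq.cons (Pq.L [] 15 (Pf.B 6 5 (Pf.B 4 3 (Pf.C 77 0xc0c205) (Pf.C 11 388)) (Pf.C 4 646)))
 (Pq.cons (Pq.L [] 4 (Pf.C 32 517))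
 (Pq.cons (Pq.L [] 4 (Pf.C 11 644))
 (Pq.cons (Pq.L [] 4 (Pf.C 37 644))
 (Pq.cons (Pq.L [] 4 (Pf.C 38 644))
 Pq.nil)))))) Pq.nil))))) (Pq.cons (Pq.L [] 2 (Pf.C 32 390))
 (Pq.cons (Pq.L [] 2 (Pf.C 11 771))
 (Pq.cons (Pq.L [] 2 (Pf.C 37 771))
 (Pq.cons (Pq.L [] 2 (Pf.C 38 771))
 Pq.nil)))))) Pq.nil))))) Pq.nil))
theorem f2_o47 : AllRef f2_T f2_G37 (List.drop 6 (applyObl f3_T 8 [33,34,37,38,41,42,44,45,46,50,51,52,53] [1,2,1,3,1,2,1,2,3,3,2,3,3] [])) :=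
  chkPq_sound f2_o47c _ (by decide +kernel)
noncomputable def f2_o48c : Pq := (Pq.cons (Pq.L [2] 2 (Pf.C 54 82306))
 (Pq.cons (Pq.L [] 1 (Pf.C 23 388))
 (Pq.cons (Pq.L [] 1 (Pf.C 24 388))
 (Pq.cons (Pq.L [1] 2 (Pf.C 54 82051))
 Pq.nil))))
theorem f2_o48 : AllRef f2_T f2_G37 (splitObl [36] [40,43,47,49]) :=
  chkPq_sound f2_o48c _ (by decide +kernel)
noncomputable def f2_o49c : Pq := (Pq.cons (Pq.L [] 1 (Pf.C 4 515))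
 Pq.nil)
theorem f2_o49 : AllRef f2_T f2_G37 (applyObl TD2 1 [36] [0] []) :=
  chkPq_sound f2_o49c _ (by decide +kernel)
noncomputable def f2_o50c : Pq := (Pq.cons (Pq.L [] 1 (Pf.C 7 388))
 (Pq.cons (Pq.L [] 2 (Pf.C 15 389))
 (Pq.cons (Pq.L [0] 2 (Pf.C 54 643))
 Pq.nil)))
theorem f2_o50 : AllRef f2_T f2_G37 (splitObl [40] [43,47,49]) :=
  chkPq_sound f2_o50c _ (by decide +kernel)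
noncomputable def f2_o51c : Pq := (Pq.cons (Pq.L [] 1 (Pf.C 41 515))
 Pq.nil)
theorem f2_o51 : AllRef f2_T f2_G37 (applyObl TD2 1 [40] [0] []) :=
  chkPq_sound f2_o51c _ (by decide +kernel)
noncomputable def f2_o52c : Pq := (Pq.cons (Pq.L [] 1 (Pf.C 28 388))
 (Pq.cons (Pq.L [2] 1 (Pf.C 61 65922))
 Pq.nil))
theorem f2_o52 : AllRef f2_T f2_G37 (splitObl [43] [47,49]) :=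
  chkPq_sound f2_o52c _ (by decide +kernel)
noncomputable def f2_o53c : Pq := (Pq.cons (Pq.L [] 1 (Pf.C 13 515))
 Pq.nil)
theorem f2_o53 : AllRef f2_T f2_G37 (applyObl TD2 1 [43] [0] []) :=
  chkPq_sound f2_o53c _ (by decide +kernel)
noncomputable def f2_o54c : Pq := (Pq.cons (Pq.L [] 1 (Pf.C 35 388))
 Pq.nil)
theorem f2_o54 : AllRef f2_T f2_G37 (splitObl [47] [49]) :=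
  chkPq_sound f2_o54c _ (by decide +kernel)
noncomputable def f2_o55c : Pq := (Pq.cons (Pq.L [] 1 (Pf.C 3 515))
 Pq.nil)
theorem f2_o55 : AllRef f2_T f2_G37 (applyObl TD2 1 [47] [0] []) :=
  chkPq_sound f2_o55c _ (by decide +kernel)
noncomputable def f2_o56c : Pq := (Pq.cons (Pq.L [] 1 (Pf.C 11 515))
 Pq.nil)
theorem f2_o56 : AllRef f2_T f2_G37 (applyObl TD2 1 [49] [0] []) :=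
  chkPq_sound f2_o56c _ (by decide +kernel)
noncomputable def f2_o57c : Pq := (Pq.cons (Pq.L [0] 0 (Pf.C 10 3))
 (Pq.cons (Pq.L [0,2] 0 (Pf.C 70 32771))
 (Pq.cons (Pq.L [1] 0 (Pf.C 19 131))
 Pq.nil)))
theorem f2_o57 : AllRef f2_T f2_G5 (ptObl 1 (PT.br 0 PT.ref (PT.br 1 (PT.br 2 PT.kid PT.ref) PT.ref)) []) :=
  chkPq_sound f2_o57c _ (by decide +kernel)
noncomputable def f2_o58c : Pq := Pq.nil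
theorem f2_o58 : AllRef f2_T f2_G38 (ptObl 2 PT.kid []) :=
  chkPq_sound f2_o58c _ (by decide +kernel)
noncomputable def f2_o59c : Pq := (Pq.cons (Pq.L [0,1,2] 0 (Pf.C 0 32899))
 (Pq.cons (Pq.L [0] 0 (Pf.C 40 3))
 Pq.nil))
theorem f2_o59 : AllRef f2_T f2_G39 (ptObl 55 (PT.br 0 (PT.br 1 (PT.br 2 PT.kid PT.kid) (PT.br 2 PT.kid PT.ref)) PT.ref) []) :=
  chkPq_sound f2_o59c _ (by decide +kernel)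
noncomputable def f2_o60c : Pq := (Pq.cons (Pq.L [0] 0 (Pf.C 16 384))
 (Pq.cons (Pq.L [2] 0 (Pf.C 25 259))
 (Pq.cons (Pq.L [1] 0 (Pf.C 23 131))
 Pq.nil)))
theorem f2_o60 : AllRef f2_T f2_G40 (ptObl 3 (PT.br 0 PT.ref (PT.br 1 (PT.br 2 PT.kid PT.ref) PT.ref)) []) :=
  chkPq_sound f2_o60c _ (by decide +kernel)
noncomputable def f2_o61c : Pq := (Pq.cons (Pq.L [2] 0 (Pf.C 14 259))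
 (Pq.cons (Pq.L [1] 0 (Pf.C 7 131))
 (Pq.cons (Pq.L [0,2] 0 (Pf.B 3 2 (Pf.C 14 259) (Pf.C 74 33152)))
 Pq.nil)))
theorem f2_o61 : AllRef f2_T f2_G41 (ptObl 4 (PT.br 0 (PT.br 1 (PT.br 2 PT.ref PT.kid) PT.ref) PT.ref) []) :=
  chkPq_sound f2_o61c _ (by decide +kernel)
noncomputable def f2_o62c : Pq := Pq.nil
theorem f2_o62 : AllRef f2_T f2_G42 (ptObl 5 PT.kid []) :=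
  chkPq_sound f2_o62c _ (by decide +kernel)
noncomputable def f2_o63c : Pq := (Pq.cons (Pq.L [1] 0 (Pf.C 13 131))
 (Pq.cons (Pq.L [0,1,2] 0 (Pf.C 0 0x208003))
 (Pq.cons (Pq.L [1] 0 (Pf.C 13 131))
 Pq.nil)))
theorem f2_o63 : AllRef f2_T f2_G43 (ptObl 61 (PT.br 0 (PT.br 1 (PT.br 2 PT.kid PT.kid) PT.ref) (PT.br 1 (PT.br 2 PT.kid PT.ref) PT.ref)) []) :=
  chkPq_sound f2_o63c _ (by decide +kernel)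
noncomputable def f2_o64c : Pq := (Pq.cons (Pq.L [0,2] 0 (Pf.C 63 49408))
 (Pq.cons (Pq.L [1] 0 (Pf.C 27 385))
 (Pq.cons (Pq.L [0] 0 (Pf.C 22 384))
 Pq.nil)))
theorem f2_o64 : AllRef f2_T f2_G44 (ptObl 6 (PT.br 0 (PT.br 1 (PT.br 2 PT.ref PT.kid) PT.ref) PT.ref) []) :=
  chkPq_sound f2_o64c _ (by decide +kernel)
noncomputable def f2_o65c : Pq := (Pq.cons (Pq.L [2] 0 (Pf.C 33 259))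
 (Pq.cons (Pq.L [2] 0 (Pf.C 33 259))
 (Pq.cons (Pq.L [0] 0 (Pf.C 8 384))
 Pq.nil)))
theorem f2_o65 : AllRef f2_T f2_G45 (ptObl 7 (PT.br 0 (PT.br 1 (PT.br 2 PT.kid PT.ref) (PT.br 2 PT.kid PT.ref)) PT.ref) []) :=
  chkPq_sound f2_o65c _ (by decide +kernel)
noncomputable def f2_o66c : Pq := (Pq.cons (Pq.L [0] 0 (Pf.C 17 384))
 (Pq.cons (Pq.L [2] 0 (Pf.C 36 259))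
 (Pq.cons (Pq.L [1] 0 (Pf.C 28 385))
 Pq.nil)))
theorem f2_o66 : AllRef f2_T f2_G46 (ptObl 8 (PT.br 0 PT.ref (PT.br 1 (PT.br 2 PT.kid PT.ref) PT.ref)) []) :=
  chkPq_sound f2_o66c _ (by decide +kernel)
noncomputable def f2_o67c : Pq := (Pq.cons (Pq.L [2] 0 (Pf.C 37 259))
 (Pq.cons (Pq.L [2] 0 (Pf.C 37 259))
 (Pq.cons (Pq.L [0] 0 (Pf.C 8 384))
 Pq.nil)))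
theorem f2_o67 : AllRef f2_T f2_G47 (ptObl 9 (PT.br 0 (PT.br 1 (PT.br 2 PT.kid PT.ref) (PT.br 2 PT.kid PT.ref)) PT.ref) []) :=
  chkPq_sound f2_o67c _ (by decide +kernel)
noncomputable def f2_o68c : Pq := Pq.nil
theorem f2_o68 : AllRef f2_T f2_G48 (ptObl 10 PT.kid []) :=
  chkPq_sound f2_o68c _ (by decide +kernel)
noncomputable def f2_o69c : Pq := (Pq.cons (Pq.L [2] 0 (Pf.C 2 259))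
 (Pq.cons (Pq.L [2] 0 (Pf.C 2 259))
 (Pq.cons (Pq.L [2] 0 (Pf.C 2 259))
 (Pq.cons (Pq.L [0,1,2] 0 (Pf.B 3 2 (Pf.C 0 0x404003) (Pf.C 2 259)))
 Pq.nil))))
theorem f2_o69 : AllRef f2_T f2_G49 (ptObl 71 (PT.br 0 (PT.br 1 (PT.br 2 PT.kid PT.ref) (PT.br 2 PT.kid PT.ref)) (PT.br 1 (PT.br 2 PT.kid PT.ref) PT.ref)) []) :=
  chkPq_sound f2_o69c _ (by decide +kernel)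
noncomputable def f2_o70c : Pq := (Pq.cons (Pq.L [0,2] 0 (Pf.B 3 2 (Pf.C 43 49154) (Pf.C 2 259)))
 (Pq.cons (Pq.L [2] 0 (Pf.C 2 259))
 (Pq.cons (Pq.L [1] 0 (Pf.C 29 385))
 Pq.nil)))
theorem f2_o70 : AllRef f2_T f2_G50 (ptObl 11 (PT.br 0 PT.ref (PT.br 1 (PT.br 2 PT.kid PT.ref) PT.ref)) []) :=
  chkPq_sound f2_o70c _ (by decide +kernel)
noncomputable def f2_o71c : Pq := (Pq.cons (Pq.L [] 2 (Pf.C 10 389))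
 (Pq.cons (Pq.L [] 1 (Pf.C 19 388))
 (Pq.cons (Pq.L [] 2 (Pf.C 5 389))
 (Pq.cons (Pq.L [] 2 (Pf.C 5 389))
 (Pq.cons (Pq.L [1] 2 (Pf.C 49 49285))
 (Pq.cons (Pq.L [1] 1 (Pf.C 45 16772))
 (Pq.cons (Pq.L [] 1 (Pf.C 40 515))
 (Pq.cons (Pq.L [0,1] 1 (Pf.C 86 0x200203))
 (Pq.cons (Pq.L [] 1 (Pf.C 8 388))
 (Pq.cons (Pq.L [] 2 (Pf.C 17 389))
 (Pq.cons (Pq.L [] 1 (Pf.C 8 388))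
 (Pq.cons (Pq.L [1] 2 (Pf.C 55 49793))
 (Pq.cons (Pq.L [] 1 (Pf.C 40 515))
 (Pq.cons (Pq.L [2] 2 (Pf.C 55 33411))
 (Pq.cons (Pq.L [] 1 (Pf.C 8 388))
 (Pq.cons (Pq.L [] 2 (Pf.C 17 389))
 (Pq.cons (Pq.L [] 1 (Pf.C 8 388))
 (Pq.cons (Pq.L [0,2] 1 (Pf.C 77 0x400203))
 (Pq.cons (Pq.L [] 2 (Pf.C 16 643))
 (Pq.cons (Pq.L [] 1 (Pf.C 23 388))
 (Pq.cons (Pq.L [1] 1 (Pf.C 45 16772))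
 (Pq.cons (Pq.L [] 1 (Pf.C 24 388))
 (Pq.cons (Pq.L [1] 2 (Pf.C 67 49285))
 (Pq.cons (Pq.L [] 1 (Pf.C 25 388))
 (Pq.cons (Pq.L [1] 1 (Pf.C 60 16772))
 (Pq.cons (Pq.L [] 1 (Pf.C 7 388))
 (Pq.cons (Pq.L [] 2 (Pf.C 9 643))
 (Pq.cons (Pq.L [] 2 (Pf.C 15 389))
 (Pq.cons (Pq.L [1] 2 (Pf.C 69 49285))
 (Pq.cons (Pq.L [] 2 (Pf.C 14 389))
 (Pq.cons (Pq.L [0,1] 1 (Pf.C 86 0x200184))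
 (Pq.cons (Pq.L [] 1 (Pf.C 13 515))
 (Pq.cons (Pq.L [0] 2 (Pf.C 49 643))
 (Pq.cons (Pq.L [] 1 (Pf.C 28 388))
 (Pq.cons (Pq.L [1] 1 (Pf.C 62 49665))
 (Pq.cons (Pq.L [0] 2 (Pf.C 55 49157))
 (Pq.cons (Pq.L [2] 2 (Pf.C 55 33157))
 (Pq.cons (Pq.L [] 1 (Pf.C 13 515))
 (Pq.cons (Pq.L [2] 2 (Pf.C 52 33157))
 (Pq.cons (Pq.L [] 1 (Pf.C 28 388))
 (Pq.cons (Pq.L [1] 1 (Pf.C 62 49665))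
 (Pq.cons (Pq.L [1,2] 1 (Pf.C 79 0x208184))
 (Pq.cons (Pq.L [] 1 (Pf.C 22 515))
 (Pq.cons (Pq.L [] 1 (Pf.C 27 515))
 (Pq.cons (Pq.L [1] 1 (Pf.C 50 65921))
 (Pq.cons (Pq.L [1] 1 (Pf.C 50 65921))
 (Pq.cons (Pq.L [] 1 (Pf.C 30 388))
 (Pq.cons (Pq.L [1] 2 (Pf.C 55 49793))
 (Pq.cons (Pq.L [] 1 (Pf.C 8 515))
 (Pq.cons (Pq.L [0] 2 (Pf.C 49 389))
 (Pq.cons (Pq.L [] 1 (Pf.C 42 515))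
 (Pq.cons (Pq.L [] 2 (Pf.C 6 389))
 (Pq.cons (Pq.L [] 1 (Pf.C 32 388))
 (Pq.cons (Pq.L [] 1 (Pf.C 33 388))
 (Pq.cons (Pq.L [] 1 (Pf.C 8 515))
 (Pq.cons (Pq.L [1] 2 (Pf.C 62 82051))
 (Pq.cons (Pq.L [] 1 (Pf.C 32 515))
 (Pq.cons (Pq.L [] 1 (Pf.C 35 515))
 (Pq.cons (Pq.L [] 1 (Pf.C 11 515))
 (Pq.cons (Pq.L [] 1 (Pf.C 37 388))
 (Pq.cons (Pq.L [0,2] 1 (Pf.C 77 0x400184))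
 (Pq.cons (Pq.L [0] 2 (Pf.C 55 81923))
 (Pq.cons (Pq.L [] 1 (Pf.C 33 515))
 (Pq.cons (Pq.L [] 1 (Pf.C 36 515))
 (Pq.cons (Pq.L [] 1 (Pf.C 37 515))
 (Pq.cons (Pq.L [] 1 (Pf.C 2 515))
 (Pq.cons (Pq.L [1] 2 (Pf.C 55 82305))
 (Pq.cons (Pq.L [1,2] 1 (Pf.C 79 0x208203))
 (Pq.cons (Pq.L [] 1 (Pf.C 33 515))
 (Pq.cons (Pq.L [] 1 (Pf.C 36 515))
 (Pq.cons (Pq.L [] 1 (Pf.C 37 515))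
 (Pq.cons (Pq.L [] 1 (Pf.C 2 515))
 (Pq.cons (Pq.L [1] 2 (Pf.C 55 82305))
 (Pq.cons (Pq.L [] 1 (Pf.C 29 515))
 (Pq.cons (Pq.L [] 1 (Pf.C 34 515))
 (Pq.cons (Pq.L [] 1 (Pf.C 3 515))
 (Pq.cons (Pq.L [] 1 (Pf.C 38 515))
 (Pq.cons (Pq.L [] 1 (Pf.C 2 515))
 Pq.nil))))))))))))))))))))))))))))))))))))))))))))))))))))))))))))))))))))))))))))))
theorem f2_o71 : AllRef f2_T f2_G51 (splitObl [54,57,58,59,60,63,64,65,67,70,73,74,75] [56,62,66,68,69,72]) :=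
  chkPq_sound f2_o71c _ (by decide +kernel)
noncomputable def f2_o72c : Pq := (Pq.cons (Pq.L [] 63 (Pf.C 0 0xc14203))
 (Pq.cons (Pq.D 0 (Pq.cons (Pq.D 1 (Pq.cons (Pq.L [] 1 (Pf.C 39 515))
 (Pq.cons (Pq.L [] 1 (Pf.C 18 515))
 (Pq.cons (Pq.L [] 1 (Pf.C 19 515))
 (Pq.cons (Pq.L [1] 1 (Pf.C 45 16899))
 (Pq.cons (Pq.L [] 1 (Pf.C 21 515))
 Pq.nil)))))) (Pq.cons (Pq.D 1 (Pq.cons (Pq.L [] 1 (Pf.C 18 388))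
 (Pq.cons (Pq.L [] 1 (Pf.C 4 515))
 (Pq.cons (Pq.L [] 1 (Pf.C 23 515))
 (Pq.cons (Pq.L [] 1 (Pf.C 25 515))
 (Pq.cons (Pq.L [] 1 (Pf.C 4 515))
 Pq.nil)))))) (Pq.cons (Pq.D 1 (Pq.cons (Pq.L [] 1 (Pf.C 19 388))
 (Pq.cons (Pq.L [] 1 (Pf.C 23 388))
 (Pq.cons (Pq.L [] 1 (Pf.C 13 515))
 (Pq.cons (Pq.L [1,2] 1 (Pf.C 79 0x208203))
 (Pq.cons (Pq.L [] 1 (Pf.C 29 515))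
 Pq.nil)))))) (Pq.cons (Pq.D 1 (Pq.cons (Pq.L [1] 1 (Pf.C 45 16772))
 (Pq.cons (Pq.L [] 1 (Pf.C 25 388))
 (Pq.cons (Pq.L [1,2] 1 (Pf.C 79 0x208184))
 (Pq.cons (Pq.L [] 1 (Pf.C 2 515))
 (Pq.cons (Pq.L [] 1 (Pf.C 2 515))
 Pq.nil)))))) (Pq.cons (Pq.D 1 (Pq.cons (Pq.L [] 1 (Pf.C 21 388))
 (Pq.cons (Pq.L [] 1 (Pf.C 4 515))
 (Pq.cons (Pq.L [] 1 (Pf.C 29 388))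
 (Pq.cons (Pq.L [] 1 (Pf.C 2 515))
 (Pq.cons (Pq.L [] 1 (Pf.C 2 515))
 Pq.nil)))))) Pq.nil)))))) (Pq.cons (Pq.D 0 (Pq.cons (Pq.D 1 (Pq.cons (Pq.L [] 1 (Pf.C 40 515))
 (Pq.cons (Pq.L [1] 1 (Pf.C 60 16772))
 (Pq.cons (Pq.L [0,1] 1 (Pf.C 86 0x200184))
 (Pq.cons (Pq.L [] 1 (Pf.C 22 515))
 Pq.nil))))) (Pq.cons (Pq.D 1 (Pq.cons (Pq.L [1] 1 (Pf.C 60 16899))
 (Pq.cons (Pq.L [] 1 (Pf.C 41 515))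
 (Pq.cons (Pq.L [] 1 (Pf.C 7 515))
 (Pq.cons (Pq.L [] 1 (Pf.C 26 515))
 Pq.nil))))) (Pq.cons (Pq.D 1 (Pq.cons (Pq.L [0,1] 1 (Pf.C 86 0x200203))
 (Pq.cons (Pq.L [] 1 (Pf.C 7 388))
 (Pq.cons (Pq.L [] 1 (Pf.C 13 515))
 (Pq.cons (Pq.L [] 1 (Pf.C 27 515))
 Pq.nil))))) (Pq.cons (Pq.D 1 (Pq.cons (Pq.L [] 1 (Pf.C 22 388))
 (Pq.cons (Pq.L [] 1 (Pf.C 26 388))
 (Pq.cons (Pq.L [] 1 (Pf.C 27 388))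
 (Pq.cons (Pq.L [] 1 (Pf.C 12 515))
 Pq.nil))))) Pq.nil))))) (Pq.cons (Pq.D 0 (Pq.cons (Pq.D 1 (Pq.cons (Pq.L [] 1 (Pf.C 40 515))
 (Pq.cons (Pq.L [] 1 (Pf.C 8 515))
 (Pq.cons (Pq.L [] 1 (Pf.C 8 515))
 (Pq.cons (Pq.L [0,2] 1 (Pf.C 77 0x400184))
 Pq.nil))))) (Pq.cons (Pq.D 1 (Pq.cons (Pq.L [] 1 (Pf.C 8 388))
 (Pq.cons (Pq.L [] 1 (Pf.C 42 515))
 (Pq.cons (Pq.L [] 1 (Pf.C 32 515))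
 (Pq.cons (Pq.L [] 1 (Pf.C 33 515))
 Pq.nil))))) (Pq.cons (Pq.D 1 (Pq.cons (Pq.L [] 1 (Pf.C 8 388))
 (Pq.cons (Pq.L [] 1 (Pf.C 32 388))
 (Pq.cons (Pq.L [] 1 (Pf.C 11 515))
 (Pq.cons (Pq.L [] 1 (Pf.C 37 515))
 Pq.nil))))) (Pq.cons (Pq.D 1 (Pq.cons (Pq.L [0,2] 1 (Pf.C 77 0x400203))
 (Pq.cons (Pq.L [] 1 (Pf.C 33 388))
 (Pq.cons (Pq.L [] 1 (Pf.C 37 388))
 (Pq.cons (Pq.L [] 1 (Pf.C 2 515))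
 Pq.nil))))) Pq.nil))))) (Pq.cons (Pq.D 1 (Pq.cons (Pq.D 2 (Pq.cons (Pq.D 0 (Pq.cons (Pq.L [] 1 (Pf.C 10 515))
 (Pq.cons (Pq.L [] 1 (Pf.C 16 388))
 (Pq.cons (Pq.L [2] 2 (Pf.C 55 33411))
 (Pq.cons (Pq.L [1] 1 (Pf.C 55 49665))
 (Pq.cons (Pq.L [2] 1 (Pf.C 43 49666))
 Pq.nil)))))) (Pq.cons (Pq.D 0 (Pq.cons (Pq.L [] 2 (Pf.C 5 643))
 (Pq.cons (Pq.L [] 1 (Pf.C 16 388))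
 (Pq.cons (Pq.L [] 7 (Pf.C 49 65925))
 (Pq.cons (Pq.L [1] 1 (Pf.C 55 49665))
 (Pq.cons (Pq.L [2] 1 (Pf.C 43 49666))
 Pq.nil)))))) (Pq.cons (Pq.D 0 (Pq.cons (Pq.L [] 1 (Pf.C 10 515))
 (Pq.cons (Pq.L [] 1 (Pf.C 16 388))
 (Pq.cons (Pq.L [1] 2 (Pf.C 62 82051))
 (Pq.cons (Pq.L [1] 1 (Pf.C 55 49665))
 (Pq.cons (Pq.L [2] 1 (Pf.C 43 49666))
 Pq.nil)))))) (Pq.cons (Pq.D 0 (Pq.cons (Pq.L [] 1 (Pf.C 10 515))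
 (Pq.cons (Pq.L [] 1 (Pf.C 16 388))
 (Pq.cons (Pq.L [] 7 (Pf.C 55 82435))
 (Pq.cons (Pq.L [1] 1 (Pf.C 55 49665))
 (Pq.cons (Pq.L [2] 1 (Pf.C 43 49666))
 Pq.nil)))))) Pq.nil))))) (Pq.cons (Pq.D 2 (Pq.cons (Pq.D 0 (Pq.cons (Pq.L [] 2 (Pf.C 10 643))
 (Pq.cons (Pq.L [] 2 (Pf.C 16 389))
 (Pq.cons (Pq.L [2] 2 (Pf.C 55 33411))
 (Pq.cons (Pq.L [] 1 (Pf.C 14 388))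
 (Pq.cons (Pq.L [] 7 (Pf.C 54 49669))
 Pq.nil)))))) (Pq.cons (Pq.L [] 4 (Pf.C 9 517))
 (Pq.cons (Pq.D 0 (Pq.cons (Pq.L [] 7 (Pf.C 49 82435))
 (Pq.cons (Pq.L [] 7 (Pf.C 54 49669))
 (Pq.cons (Pq.L [1] 2 (Pf.C 62 82051))
 (Pq.cons (Pq.L [] 1 (Pf.C 14 388))
 (Pq.cons (Pq.L [] 7 (Pf.C 54 49669))
 Pq.nil)))))) (Pq.cons (Pq.L [] 4 (Pf.C 14 644))
 Pq.nil))))) (Pq.cons (Pq.D 2 (Pq.cons (Pq.D 0 (Pq.cons (Pq.L [] 2 (Pf.C 10 643))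
 (Pq.cons (Pq.L [] 2 (Pf.C 16 389))
 (Pq.cons (Pq.L [2] 2 (Pf.C 55 33411))
 (Pq.cons (Pq.L [] 7 (Pf.C 55 49796))
 (Pq.cons (Pq.L [] 7 (Pf.C 55 49796))
 Pq.nil)))))) (Pq.cons (Pq.L [0] 4 (Pf.C 49 517))
 (Pq.cons (Pq.L [1] 4 (Pf.C 62 82052))
 (Pq.cons (Pq.L [0] 4 (Pf.C 55 81924))
 Pq.nil))))) (Pq.cons (Pq.D 2 (Pq.cons (Pq.D 0 (Pq.cons (Pq.L [] 2 (Pf.C 10 643))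
 (Pq.cons (Pq.L [] 2 (Pf.C 16 389))
 (Pq.cons (Pq.L [2] 2 (Pf.C 55 33411))
 (Pq.cons (Pq.L [1] 1 (Pf.C 55 49665))
 (Pq.cons (Pq.L [] 7 (Pf.C 54 49669))
 Pq.nil)))))) (Pq.cons (Pq.D 0 (Pq.cons (Pq.L [] 2 (Pf.C 5 643))
 (Pq.cons (Pq.L [] 7 (Pf.C 53 66179))
 (Pq.cons (Pq.L [2] 2 (Pf.C 52 33411))
 (Pq.cons (Pq.L [1] 1 (Pf.C 55 49665))
 (Pq.cons (Pq.L [] 7 (Pf.C 54 49669))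
 Pq.nil)))))) (Pq.cons (Pq.D 0 (Pq.cons (Pq.L [1] 2 (Pf.C 62 82051))
 (Pq.cons (Pq.L [] 7 (Pf.C 54 49669))
 (Pq.cons (Pq.L [1] 2 (Pf.C 62 82051))
 (Pq.cons (Pq.L [1] 1 (Pf.C 55 49665))
 (Pq.cons (Pq.L [] 7 (Pf.C 54 49669))
 Pq.nil)))))) (Pq.cons (Pq.D 0 (Pq.cons (Pq.L [] 7 (Pf.C 53 66179))
 (Pq.cons (Pq.L [] 7 (Pf.C 53 66179))
 (Pq.cons (Pq.L [] 7 (Pf.C 55 82435))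
 (Pq.cons (Pq.L [1] 1 (Pf.C 55 49665))
 (Pq.cons (Pq.L [1] 1 (Pf.C 55 49665))
 Pq.nil)))))) Pq.nil))))) Pq.nil))))) (Pq.cons (Pq.D 2 (Pq.cons (Pq.D 1 (Pq.cons (Pq.D 3 (Pq.cons (Pq.L [] 8 (Pf.C 10 772))
 (Pq.cons (Pq.D 0 (Pq.cons (Pq.L [] 2 (Pf.C 7 390))
 (Pq.cons (Pq.L [] 1 (Pf.C 16 389))
 (Pq.cons (Pq.L [] 2 (Pf.C 7 390))
 (Pq.cons (Pq.L [1] 1 (Pf.C 55 49793))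
 (Pq.cons (Pq.L [2] 1 (Pf.C 43 49794))
 Pq.nil)))))) (Pq.cons (Pq.D 0 (Pq.cons (Pq.L [] 1 (Pf.C 10 643))
 (Pq.cons (Pq.L [] 1 (Pf.C 16 389))
 (Pq.cons (Pq.L [] 2 (Pf.C 13 771))
 (Pq.cons (Pq.L [1] 1 (Pf.C 55 49793))
 (Pq.cons (Pq.L [] 2 (Pf.C 29 390))
 Pq.nil)))))) (Pq.cons (Pq.D 0 (Pq.cons (Pq.L [] 1 (Pf.C 10 643))
 (Pq.cons (Pq.L [] 1 (Pf.C 16 389))
 (Pq.cons (Pq.L [] 2 (Pf.C 27 771))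
 (Pq.cons (Pq.L [1] 1 (Pf.C 55 49793))
 (Pq.cons (Pq.L [2] 1 (Pf.C 43 49794))
 Pq.nil)))))) Pq.nil))))) (Pq.cons (Pq.D 3 (Pq.cons (Pq.L [] 8 (Pf.C 16 518))
 (Pq.cons (Pq.D 0 (Pq.cons (Pq.L [] 2 (Pf.C 7 390))
 (Pq.cons (Pq.L [] 1 (Pf.C 16 389))
 (Pq.cons (Pq.L [] 2 (Pf.C 7 390))
 (Pq.cons (Pq.L [1] 1 (Pf.C 55 49793))
 (Pq.cons (Pq.L [2] 1 (Pf.C 43 49794))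
 Pq.nil)))))) (Pq.cons (Pq.D 0 (Pq.cons (Pq.L [] 1 (Pf.C 10 643))
 (Pq.cons (Pq.L [] 1 (Pf.C 16 389))
 (Pq.cons (Pq.L [] 2 (Pf.C 13 771))
 (Pq.cons (Pq.L [1] 1 (Pf.C 55 49793))
 (Pq.cons (Pq.L [] 2 (Pf.C 29 390))
 Pq.nil)))))) (Pq.cons (Pq.D 0 (Pq.cons (Pq.L [] 1 (Pf.C 10 643))
 (Pq.cons (Pq.L [] 1 (Pf.C 16 389))
 (Pq.cons (Pq.L [] 2 (Pf.C 27 771))
 (Pq.cons (Pq.L [1] 1 (Pf.C 55 49793))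
 (Pq.cons (Pq.L [2] 1 (Pf.C 43 49794))
 Pq.nil)))))) Pq.nil))))) (Pq.cons (Pq.D 3 (Pq.cons (Pq.D 0 (Pq.cons (Pq.L [] 1 (Pf.C 10 643))
 (Pq.cons (Pq.L [] 1 (Pf.C 16 389))
 (Pq.cons (Pq.L [] 15 (Pf.B 6 5 (Pf.B 4 3 (Pf.C 86 0x618284) (Pf.C 13 388)) (Pf.C 40 646)))
 (Pq.cons (Pq.L [1] 1 (Pf.C 55 49793))
 (Pq.cons (Pq.L [2] 1 (Pf.C 43 49794))
 Pq.nil)))))) (Pq.cons (Pq.D 0 (Pq.cons (Pq.L [] 2 (Pf.C 7 390))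
 (Pq.cons (Pq.L [] 1 (Pf.C 16 389))
 (Pq.cons (Pq.L [] 2 (Pf.C 7 390))
 (Pq.cons (Pq.L [1] 1 (Pf.C 55 49793))
 (Pq.cons (Pq.L [2] 1 (Pf.C 43 49794))
 Pq.nil)))))) (Pq.cons (Pq.D 0 (Pq.cons (Pq.L [] 1 (Pf.C 10 643))
 (Pq.cons (Pq.L [] 1 (Pf.C 16 389))
 (Pq.cons (Pq.L [] 2 (Pf.C 13 771))
 (Pq.cons (Pq.L [1] 1 (Pf.C 55 49793))
 (Pq.cons (Pq.L [] 2 (Pf.C 29 390))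
 Pq.nil)))))) (Pq.cons (Pq.D 0 (Pq.cons (Pq.L [] 1 (Pf.C 10 643))
 (Pq.cons (Pq.L [] 1 (Pf.C 16 389))
 (Pq.cons (Pq.L [] 2 (Pf.C 27 771))
 (Pq.cons (Pq.L [1] 1 (Pf.C 55 49793))
 (Pq.cons (Pq.L [2] 1 (Pf.C 43 49794))
 Pq.nil)))))) Pq.nil))))) (Pq.cons (Pq.D 3 (Pq.cons (Pq.L [1] 8 (Pf.C 55 66305))
 (Pq.cons (Pq.L [] 8 (Pf.C 14 518))
 (Pq.cons (Pq.D 0 (Pq.cons (Pq.L [] 1 (Pf.C 10 643))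
 (Pq.cons (Pq.L [] 1 (Pf.C 16 389))
 (Pq.cons (Pq.L [] 2 (Pf.C 13 771))
 (Pq.cons (Pq.L [1] 1 (Pf.C 55 49793))
 (Pq.cons (Pq.L [] 2 (Pf.C 29 390))
 Pq.nil)))))) (Pq.cons (Pq.L [1] 8 (Pf.C 55 66305))
 Pq.nil))))) (Pq.cons (Pq.D 3 (Pq.cons (Pq.L [2] 8 (Pf.C 43 66306))
 (Pq.cons (Pq.D 0 (Pq.cons (Pq.L [] 2 (Pf.C 7 390))
 (Pq.cons (Pq.L [] 1 (Pf.C 16 389))
 (Pq.cons (Pq.L [] 2 (Pf.C 7 390))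
 (Pq.cons (Pq.L [1] 1 (Pf.C 55 49793))
 (Pq.cons (Pq.L [2] 1 (Pf.C 43 49794))
 Pq.nil)))))) (Pq.cons (Pq.D 0 (Pq.cons (Pq.L [] 1 (Pf.C 10 643))
 (Pq.cons (Pq.L [] 1 (Pf.C 16 389))
 (Pq.cons (Pq.L [] 2 (Pf.C 13 771))
 (Pq.cons (Pq.L [1] 1 (Pf.C 55 49793))
 (Pq.cons (Pq.L [] 2 (Pf.C 29 390))
 Pq.nil)))))) (Pq.cons (Pq.L [1] 8 (Pf.C 55 66305))
 Pq.nil))))) Pq.nil)))))) (Pq.cons (Pq.D 1 (Pq.cons (Pq.L [] 4 (Pf.C 7 517))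
 (Pq.cons (Pq.D 3 (Pq.cons (Pq.L [] 8 (Pf.C 16 518))
 (Pq.cons (Pq.D 0 (Pq.cons (Pq.L [] 2 (Pf.C 7 390))
 (Pq.cons (Pq.L [] 15 (Pf.B 6 5 (Pf.B 4 3 (Pf.C 80 0x618284) (Pf.C 4 388)) (Pf.C 41 646)))
 (Pq.cons (Pq.L [] 2 (Pf.C 7 390))
 (Pq.cons (Pq.L [] 1 (Pf.C 14 389))
 (Pq.cons (Pq.L [] 5 (Pf.B 4 3 (Pf.C 46 49796) (Pf.C 4 388)))
 Pq.nil)))))) (Pq.cons (Pq.D 0 (Pq.cons (Pq.L [] 2 (Pf.C 19 771))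
 (Pq.cons (Pq.L [] 2 (Pf.C 23 771))
 (Pq.cons (Pq.L [] 2 (Pf.C 13 771))
 (Pq.cons (Pq.L [] 1 (Pf.C 14 389))
 (Pq.cons (Pq.L [] 2 (Pf.C 29 390))
 Pq.nil)))))) (Pq.cons (Pq.L [] 12 (Pf.B 6 5 (Pf.C 58 98821) (Pf.C 26 773)))
 Pq.nil))))) (Pq.cons (Pq.L [] 4 (Pf.C 7 517))
 (Pq.cons (Pq.D 3 (Pq.cons (Pq.L [1] 8 (Pf.C 55 66305))
 (Pq.cons (Pq.L [] 8 (Pf.C 14 518))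
 (Pq.cons (Pq.D 0 (Pq.cons (Pq.L [] 2 (Pf.C 19 771))
 (Pq.cons (Pq.L [] 2 (Pf.C 23 771))
 (Pq.cons (Pq.L [] 2 (Pf.C 13 771))
 (Pq.cons (Pq.L [] 1 (Pf.C 14 389))
 (Pq.cons (Pq.L [] 2 (Pf.C 29 390))
 Pq.nil)))))) (Pq.cons (Pq.L [1] 8 (Pf.C 55 66305))
 Pq.nil))))) (Pq.cons (Pq.D 3 (Pq.cons (Pq.L [2] 8 (Pf.C 43 66306))
 (Pq.cons (Pq.D 0 (Pq.cons (Pq.L [] 2 (Pf.C 7 390))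
 (Pq.cons (Pq.L [] 10 (Pf.B 4 3 (Pf.C 46 66307) (Pf.C 4 388)))
 (Pq.cons (Pq.L [] 2 (Pf.C 7 390))
 (Pq.cons (Pq.L [] 1 (Pf.C 14 389))
 (Pq.cons (Pq.L [] 15 (Pf.B 6 5 (Pf.B 4 3 (Pf.C 79 0xc0c205) (Pf.C 2 388)) (Pf.C 41 646)))
 Pq.nil)))))) (Pq.cons (Pq.D 0 (Pq.cons (Pq.L [] 2 (Pf.C 19 771))
 (Pq.cons (Pq.L [] 2 (Pf.C 23 771))
 (Pq.cons (Pq.L [] 2 (Pf.C 13 771))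
 (Pq.cons (Pq.L [] 1 (Pf.C 14 389))
 (Pq.cons (Pq.L [] 2 (Pf.C 29 390))
 Pq.nil)))))) (Pq.cons (Pq.L [1] 8 (Pf.C 55 66305))
 Pq.nil))))) Pq.nil)))))) (Pq.cons (Pq.D 1 (Pq.cons (Pq.L [] 4 (Pf.C 19 644))
 (Pq.cons (Pq.L [] 4 (Pf.C 23 644))
 (Pq.cons (Pq.L [] 4 (Pf.C 13 644))
 (Pq.cons (Pq.D 3 (Pq.cons (Pq.L [1] 8 (Pf.C 55 66305))
 (Pq.cons (Pq.L [] 8 (Pf.C 14 518))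
 (Pq.cons (Pq.D 0 (Pq.cons (Pq.L [] 2 (Pf.C 19 771))
 (Pq.cons (Pq.L [] 2 (Pf.C 23 771))
 (Pq.cons (Pq.L [] 2 (Pf.C 13 771))
 (Pq.cons (Pq.L [] 15 (Pf.B 6 5 (Pf.B 4 3 (Pf.C 79 0xc0c205) (Pf.C 2 388)) (Pf.C 13 646)))
 (Pq.cons (Pq.L [] 2 (Pf.C 29 390))
 Pq.nil)))))) (Pq.cons (Pq.L [1] 8 (Pf.C 55 66305))
 Pq.nil))))) (Pq.cons (Pq.L [] 4 (Pf.C 29 517))
 Pq.nil)))))) (Pq.cons (Pq.D 1 (Pq.cons (Pq.D 3 (Pq.cons (Pq.L [] 8 (Pf.C 10 772))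
 (Pq.cons (Pq.D 0 (Pq.cons (Pq.L [] 2 (Pf.C 7 390))
 (Pq.cons (Pq.L [] 3 (Pf.B 6 5 (Pf.C 58 82310) (Pf.C 26 646)))
 (Pq.cons (Pq.L [] 2 (Pf.C 7 390))
 (Pq.cons (Pq.L [1] 1 (Pf.C 55 49793))
 (Pq.cons (Pq.L [1] 1 (Pf.C 55 49793))
 Pq.nil)))))) (Pq.cons (Pq.D 0 (Pq.cons (Pq.L [] 2 (Pf.C 19 771))
 (Pq.cons (Pq.L [] 2 (Pf.C 23 771))
 (Pq.cons (Pq.L [] 2 (Pf.C 13 771))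
 (Pq.cons (Pq.L [1] 1 (Pf.C 55 49793))
 (Pq.cons (Pq.L [] 2 (Pf.C 29 390))
 Pq.nil)))))) (Pq.cons (Pq.D 0 (Pq.cons (Pq.L [] 15 (Pf.B 6 5 (Pf.B 4 3 (Pf.C 86 0x618284) (Pf.C 39 388)) (Pf.C 12 646)))
 (Pq.cons (Pq.L [] 5 (Pf.B 4 3 (Pf.C 59 49796) (Pf.C 18 388)))
 (Pq.cons (Pq.L [] 2 (Pf.C 27 771))
 (Pq.cons (Pq.L [1] 1 (Pf.C 55 49793))
 (Pq.cons (Pq.L [1] 1 (Pf.C 55 49793))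
 Pq.nil)))))) Pq.nil))))) (Pq.cons (Pq.D 3 (Pq.cons (Pq.L [] 8 (Pf.C 16 518))
 (Pq.cons (Pq.D 0 (Pq.cons (Pq.L [] 2 (Pf.C 7 390))
 (Pq.cons (Pq.L [] 3 (Pf.B 6 5 (Pf.C 58 82310) (Pf.C 26 646)))
 (Pq.cons (Pq.L [] 2 (Pf.C 7 390))
 (Pq.cons (Pq.L [1] 1 (Pf.C 55 49793))
 (Pq.cons (Pq.L [1] 1 (Pf.C 55 49793))
 Pq.nil)))))) (Pq.cons (Pq.D 0 (Pq.cons (Pq.L [] 2 (Pf.C 19 771))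
 (Pq.cons (Pq.L [] 2 (Pf.C 23 771))
 (Pq.cons (Pq.L [] 2 (Pf.C 13 771))
 (Pq.cons (Pq.L [1] 1 (Pf.C 55 49793))
 (Pq.cons (Pq.L [] 2 (Pf.C 29 390))
 Pq.nil)))))) (Pq.cons (Pq.D 0 (Pq.cons (Pq.L [] 10 (Pf.B 4 3 (Pf.C 59 66307) (Pf.C 18 515)))
 (Pq.cons (Pq.L [] 15 (Pf.B 6 5 (Pf.B 4 3 (Pf.C 85 0xc0c205) (Pf.C 4 388)) (Pf.C 12 646)))
 (Pq.cons (Pq.L [] 2 (Pf.C 27 771))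
 (Pq.cons (Pq.L [1] 1 (Pf.C 55 49793))
 (Pq.cons (Pq.L [1] 1 (Pf.C 55 49793))
 Pq.nil)))))) Pq.nil))))) (Pq.cons (Pq.L [] 4 (Pf.C 27 644))
 (Pq.cons (Pq.D 3 (Pq.cons (Pq.L [1] 8 (Pf.C 55 66305))
 (Pq.cons (Pq.L [] 8 (Pf.C 14 518))
 (Pq.cons (Pq.D 0 (Pq.cons (Pq.L [] 2 (Pf.C 19 771))
 (Pq.cons (Pq.L [] 2 (Pf.C 23 771))
 (Pq.cons (Pq.L [] 2 (Pf.C 13 771))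
 (Pq.cons (Pq.L [1] 1 (Pf.C 55 49793))
 (Pq.cons (Pq.L [] 2 (Pf.C 29 390))
 Pq.nil)))))) (Pq.cons (Pq.L [1] 8 (Pf.C 55 66305))
 Pq.nil))))) (Pq.cons (Pq.D 3 (Pq.cons (Pq.L [2] 8 (Pf.C 43 66306))
 (Pq.cons (Pq.D 0 (Pq.cons (Pq.L [] 2 (Pf.C 7 390))
 (Pq.cons (Pq.L [] 3 (Pf.B 6 5 (Pf.C 58 82310) (Pf.C 26 646)))
 (Pq.cons (Pq.L [] 2 (Pf.C 7 390))
 (Pq.cons (Pq.L [1] 1 (Pf.C 55 49793))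
 (Pq.cons (Pq.L [1] 1 (Pf.C 55 49793))
 Pq.nil)))))) (Pq.cons (Pq.D 0 (Pq.cons (Pq.L [] 2 (Pf.C 19 771))
 (Pq.cons (Pq.L [] 2 (Pf.C 23 771))
 (Pq.cons (Pq.L [] 2 (Pf.C 13 771))
 (Pq.cons (Pq.L [1] 1 (Pf.C 55 49793))
 (Pq.cons (Pq.L [] 2 (Pf.C 29 390))
 Pq.nil)))))) (Pq.cons (Pq.L [1] 8 (Pf.C 55 66305))
 Pq.nil))))) Pq.nil)))))) Pq.nil))))) Pq.nil))))))
theorem f2_o72 : AllRef f2_T f2_G51 (List.take 6 (applyObl f3_T 8 [54,57,58,59,60,63,64,65,67,70,73,74,75] [1,2,3,1,2,2,1,2,3,3,3,1,1] [])) :=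
  chkPq_sound f2_o72c _ (by decide +kernel)
noncomputable def f2_o73c : Pq := (Pq.cons (Pq.D 2 (Pq.cons (Pq.D 1 (Pq.cons (Pq.D 3 (Pq.cons (Pq.L [] 8 (Pf.C 10 772))
 (Pq.cons (Pq.L [] 8 (Pf.C 5 772))
 (Pq.cons (Pq.L [1] 8 (Pf.C 62 98436))
 (Pq.cons (Pq.D 0 (Pq.cons (Pq.L [] 1 (Pf.C 10 643))
 (Pq.cons (Pq.L [] 1 (Pf.C 16 389))
 (Pq.cons (Pq.L [2] 1 (Pf.C 55 33411))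
 (Pq.cons (Pq.L [] 2 (Pf.C 2 771))
 (Pq.cons (Pq.L [] 2 (Pf.C 2 771))
 Pq.nil)))))) Pq.nil))))) (Pq.cons (Pq.D 3 (Pq.cons (Pq.L [] 8 (Pf.C 16 518))
 (Pq.cons (Pq.D 0 (Pq.cons (Pq.L [] 1 (Pf.C 10 643))
 (Pq.cons (Pq.L [] 1 (Pf.C 16 389))
 (Pq.cons (Pq.L [2] 1 (Pf.C 55 33411))
 (Pq.cons (Pq.L [] 2 (Pf.C 33 390))
 (Pq.cons (Pq.L [] 2 (Pf.C 34 390))
 Pq.nil)))))) (Pq.cons (Pq.D 0 (Pq.cons (Pq.L [] 1 (Pf.C 10 643))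
 (Pq.cons (Pq.L [] 1 (Pf.C 16 389))
 (Pq.cons (Pq.L [2] 1 (Pf.C 55 33411))
 (Pq.cons (Pq.L [] 2 (Pf.C 37 390))
 (Pq.cons (Pq.L [] 2 (Pf.C 38 390))
 Pq.nil)))))) (Pq.cons (Pq.D 0 (Pq.cons (Pq.L [] 1 (Pf.C 10 643))
 (Pq.cons (Pq.L [] 1 (Pf.C 16 389))
 (Pq.cons (Pq.L [2] 1 (Pf.C 55 33411))
 (Pq.cons (Pq.L [] 2 (Pf.C 2 771))
 (Pq.cons (Pq.L [] 2 (Pf.C 2 771))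
 Pq.nil)))))) Pq.nil))))) (Pq.cons (Pq.D 3 (Pq.cons (Pq.L [2] 8 (Pf.C 55 33540))
 (Pq.cons (Pq.L [2] 8 (Pf.C 52 33540))
 (Pq.cons (Pq.L [1] 8 (Pf.C 62 98436))
 (Pq.cons (Pq.D 0 (Pq.cons (Pq.L [] 1 (Pf.C 10 643))
 (Pq.cons (Pq.L [] 1 (Pf.C 16 389))
 (Pq.cons (Pq.L [2] 1 (Pf.C 55 33411))
 (Pq.cons (Pq.L [] 2 (Pf.C 2 771))
 (Pq.cons (Pq.L [] 2 (Pf.C 2 771))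
 Pq.nil)))))) Pq.nil))))) (Pq.cons (Pq.D 3 (Pq.cons (Pq.D 0 (Pq.cons (Pq.L [] 1 (Pf.C 10 643))
 (Pq.cons (Pq.L [] 1 (Pf.C 16 389))
 (Pq.cons (Pq.L [2] 1 (Pf.C 55 33411))
 (Pq.cons (Pq.L [] 15 (Pf.B 6 5 (Pf.B 4 3 (Pf.C 77 0x618284) (Pf.C 2 388)) (Pf.C 40 646)))
 (Pq.cons (Pq.L [] 5 (Pf.B 4 3 (Pf.C 43 49796) (Pf.C 2 388)))
 Pq.nil)))))) (Pq.cons (Pq.D 0 (Pq.cons (Pq.L [] 1 (Pf.C 10 643))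
 (Pq.cons (Pq.L [] 1 (Pf.C 16 389))
 (Pq.cons (Pq.L [2] 1 (Pf.C 55 33411))
 (Pq.cons (Pq.L [] 2 (Pf.C 33 390))
 (Pq.cons (Pq.L [] 2 (Pf.C 34 390))
 Pq.nil)))))) (Pq.cons (Pq.D 0 (Pq.cons (Pq.L [] 1 (Pf.C 10 643))
 (Pq.cons (Pq.L [] 1 (Pf.C 16 389))
 (Pq.cons (Pq.L [2] 1 (Pf.C 55 33411))
 (Pq.cons (Pq.L [] 2 (Pf.C 37 390))
 (Pq.cons (Pq.L [] 2 (Pf.C 38 390))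
 Pq.nil)))))) (Pq.cons (Pq.D 0 (Pq.cons (Pq.L [] 1 (Pf.C 10 643))
 (Pq.cons (Pq.L [] 1 (Pf.C 16 389))
 (Pq.cons (Pq.L [2] 1 (Pf.C 55 33411))
 (Pq.cons (Pq.L [] 2 (Pf.C 2 771))
 (Pq.cons (Pq.L [] 2 (Pf.C 2 771))
 Pq.nil)))))) Pq.nil))))) (Pq.cons (Pq.D 3 (Pq.cons (Pq.D 0 (Pq.cons (Pq.L [] 1 (Pf.C 10 643))
 (Pq.cons (Pq.L [] 1 (Pf.C 16 389))
 (Pq.cons (Pq.L [2] 1 (Pf.C 55 33411))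
 (Pq.cons (Pq.L [] 10 (Pf.B 4 3 (Pf.C 43 66307) (Pf.C 2 388)))
 (Pq.cons (Pq.L [] 15 (Pf.B 6 5 (Pf.B 4 3 (Pf.C 77 0x618284) (Pf.C 2 388)) (Pf.C 40 646)))
 Pq.nil)))))) (Pq.cons (Pq.D 0 (Pq.cons (Pq.L [] 1 (Pf.C 10 643))
 (Pq.cons (Pq.L [] 1 (Pf.C 16 389))
 (Pq.cons (Pq.L [2] 1 (Pf.C 55 33411))
 (Pq.cons (Pq.L [] 2 (Pf.C 33 390))
 (Pq.cons (Pq.L [] 2 (Pf.C 34 390))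
 Pq.nil)))))) (Pq.cons (Pq.D 0 (Pq.cons (Pq.L [] 1 (Pf.C 10 643))
 (Pq.cons (Pq.L [] 1 (Pf.C 16 389))
 (Pq.cons (Pq.L [2] 1 (Pf.C 55 33411))
 (Pq.cons (Pq.L [] 2 (Pf.C 37 390))
 (Pq.cons (Pq.L [] 2 (Pf.C 38 390))
 Pq.nil)))))) (Pq.cons (Pq.D 0 (Pq.cons (Pq.L [] 1 (Pf.C 10 643))
 (Pq.cons (Pq.L [] 1 (Pf.C 16 389))
 (Pq.cons (Pq.L [2] 1 (Pf.C 55 33411))
 (Pq.cons (Pq.L [] 2 (Pf.C 2 771))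
 (Pq.cons (Pq.L [] 2 (Pf.C 2 771))
 Pq.nil)))))) Pq.nil))))) Pq.nil)))))) (Pq.cons (Pq.D 1 (Pq.cons (Pq.D 3 (Pq.cons (Pq.L [] 8 (Pf.C 10 772))
 (Pq.cons (Pq.L [] 8 (Pf.C 5 772))
 (Pq.cons (Pq.L [1] 8 (Pf.C 62 98436))
 (Pq.cons (Pq.D 0 (Pq.cons (Pq.L [] 1 (Pf.C 5 643))
 (Pq.cons (Pq.L [] 2 (Pf.C 25 771))
 (Pq.cons (Pq.L [2] 1 (Pf.C 52 33411))
 (Pq.cons (Pq.L [] 2 (Pf.C 2 771))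
 (Pq.cons (Pq.L [] 2 (Pf.C 2 771))
 Pq.nil)))))) Pq.nil))))) (Pq.cons (Pq.D 3 (Pq.cons (Pq.L [] 8 (Pf.C 16 518))
 (Pq.cons (Pq.D 0 (Pq.cons (Pq.L [] 1 (Pf.C 5 643))
 (Pq.cons (Pq.L [] 15 (Pf.B 6 5 (Pf.B 4 3 (Pf.C 78 0xc0c205) (Pf.C 4 388)) (Pf.C 42 646)))
 (Pq.cons (Pq.L [2] 1 (Pf.C 52 33411))
 (Pq.cons (Pq.L [] 2 (Pf.C 33 390))
 (Pq.cons (Pq.L [] 2 (Pf.C 34 390))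
 Pq.nil)))))) (Pq.cons (Pq.L [] 12 (Pf.B 6 5 (Pf.C 44 98821) (Pf.C 32 773)))
 (Pq.cons (Pq.D 0 (Pq.cons (Pq.L [] 1 (Pf.C 5 643))
 (Pq.cons (Pq.L [] 2 (Pf.C 25 771))
 (Pq.cons (Pq.L [2] 1 (Pf.C 52 33411))
 (Pq.cons (Pq.L [] 2 (Pf.C 2 771))
 (Pq.cons (Pq.L [] 2 (Pf.C 2 771))
 Pq.nil)))))) Pq.nil))))) (Pq.cons (Pq.D 3 (Pq.cons (Pq.L [2] 8 (Pf.C 55 33540))
 (Pq.cons (Pq.L [2] 8 (Pf.C 52 33540))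
 (Pq.cons (Pq.L [1] 8 (Pf.C 62 98436))
 (Pq.cons (Pq.D 0 (Pq.cons (Pq.L [] 1 (Pf.C 5 643))
 (Pq.cons (Pq.L [] 2 (Pf.C 25 771))
 (Pq.cons (Pq.L [2] 1 (Pf.C 52 33411))
 (Pq.cons (Pq.L [] 2 (Pf.C 2 771))
 (Pq.cons (Pq.L [] 2 (Pf.C 2 771))
 Pq.nil)))))) Pq.nil))))) (Pq.cons (Pq.L [] 4 (Pf.C 33 517))
 (Pq.cons (Pq.L [] 4 (Pf.C 34 517))
 Pq.nil)))))) (Pq.cons (Pq.D 1 (Pq.cons (Pq.D 3 (Pq.cons (Pq.L [] 8 (Pf.C 10 772))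
 (Pq.cons (Pq.L [] 8 (Pf.C 5 772))
 (Pq.cons (Pq.L [1] 8 (Pf.C 62 98436))
 (Pq.cons (Pq.D 0 (Pq.cons (Pq.L [1] 1 (Pf.C 62 82051))
 (Pq.cons (Pq.L [] 2 (Pf.C 25 771))
 (Pq.cons (Pq.L [1] 1 (Pf.C 62 82051))
 (Pq.cons (Pq.L [] 2 (Pf.C 2 771))
 (Pq.cons (Pq.L [] 2 (Pf.C 2 771))
 Pq.nil)))))) Pq.nil))))) (Pq.cons (Pq.D 3 (Pq.cons (Pq.L [] 8 (Pf.C 16 518))
 (Pq.cons (Pq.D 0 (Pq.cons (Pq.L [1] 1 (Pf.C 62 82051))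
 (Pq.cons (Pq.L [] 3 (Pf.B 6 5 (Pf.C 44 82310) (Pf.C 32 646)))
 (Pq.cons (Pq.L [1] 1 (Pf.C 62 82051))
 (Pq.cons (Pq.L [] 2 (Pf.C 33 390))
 (Pq.cons (Pq.L [] 2 (Pf.C 34 390))
 Pq.nil)))))) (Pq.cons (Pq.D 0 (Pq.cons (Pq.L [1] 1 (Pf.C 62 82051))
 (Pq.cons (Pq.L [] 15 (Pf.B 6 5 (Pf.B 4 3 (Pf.C 77 0x618284) (Pf.C 4 388)) (Pf.C 11 646)))
 (Pq.cons (Pq.L [1] 1 (Pf.C 62 82051))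
 (Pq.cons (Pq.L [] 2 (Pf.C 37 390))
 (Pq.cons (Pq.L [] 2 (Pf.C 38 390))
 Pq.nil)))))) (Pq.cons (Pq.D 0 (Pq.cons (Pq.L [1] 1 (Pf.C 62 82051))
 (Pq.cons (Pq.L [] 2 (Pf.C 25 771))
 (Pq.cons (Pq.L [1] 1 (Pf.C 62 82051))
 (Pq.cons (Pq.L [] 2 (Pf.C 2 771))
 (Pq.cons (Pq.L [] 2 (Pf.C 2 771))
 Pq.nil)))))) Pq.nil))))) (Pq.cons (Pq.D 3 (Pq.cons (Pq.L [2] 8 (Pf.C 55 33540))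
 (Pq.cons (Pq.L [2] 8 (Pf.C 52 33540))
 (Pq.cons (Pq.L [1] 8 (Pf.C 62 98436))
 (Pq.cons (Pq.D 0 (Pq.cons (Pq.L [1] 1 (Pf.C 62 82051))
 (Pq.cons (Pq.L [] 2 (Pf.C 25 771))
 (Pq.cons (Pq.L [1] 1 (Pf.C 62 82051))
 (Pq.cons (Pq.L [] 2 (Pf.C 2 771))
 (Pq.cons (Pq.L [] 2 (Pf.C 2 771))
 Pq.nil)))))) Pq.nil))))) (Pq.cons (Pq.L [] 4 (Pf.C 37 517))
 (Pq.cons (Pq.L [] 4 (Pf.C 38 517))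
 Pq.nil)))))) (Pq.cons (Pq.D 1 (Pq.cons (Pq.D 3 (Pq.cons (Pq.L [] 8 (Pf.C 10 772))
 (Pq.cons (Pq.L [] 8 (Pf.C 5 772))
 (Pq.cons (Pq.L [1] 8 (Pf.C 62 98436))
 (Pq.cons (Pq.D 0 (Pq.cons (Pq.L [] 15 (Pf.B 6 5 (Pf.B 4 3 (Pf.C 78 0xc0c205) (Pf.C 39 388)) (Pf.C 2 646)))
 (Pq.cons (Pq.L [] 2 (Pf.C 25 771))
 (Pq.cons (Pq.L [] 5 (Pf.B 4 3 (Pf.C 45 49796) (Pf.C 19 388)))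
 (Pq.cons (Pq.L [] 2 (Pf.C 2 771))
 (Pq.cons (Pq.L [] 2 (Pf.C 2 771))
 Pq.nil)))))) Pq.nil))))) (Pq.cons (Pq.L [] 4 (Pf.C 25 644))
 (Pq.cons (Pq.D 3 (Pq.cons (Pq.L [2] 8 (Pf.C 55 33540))
 (Pq.cons (Pq.L [2] 8 (Pf.C 52 33540))
 (Pq.cons (Pq.L [1] 8 (Pf.C 62 98436))
 (Pq.cons (Pq.D 0 (Pq.cons (Pq.L [] 10 (Pf.B 4 3 (Pf.C 45 66307) (Pf.C 19 515)))
 (Pq.cons (Pq.L [] 2 (Pf.C 25 771))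
 (Pq.cons (Pq.L [] 15 (Pf.B 6 5 (Pf.B 4 3 (Pf.C 79 0x618284) (Pf.C 13 388)) (Pf.C 2 646)))
 (Pq.cons (Pq.L [] 2 (Pf.C 2 771))
 (Pq.cons (Pq.L [] 2 (Pf.C 2 771))
 Pq.nil)))))) Pq.nil))))) (Pq.cons (Pq.L [] 4 (Pf.C 2 644))
 (Pq.cons (Pq.L [] 4 (Pf.C 2 644))
 Pq.nil)))))) Pq.nil))))) (Pq.cons (Pq.D 0 (Pq.cons (Pq.D 3 (Pq.cons (Pq.L [] 2 (Pf.C 40 771))
 (Pq.cons (Pq.L [] 2 (Pf.C 8 771))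
 (Pq.cons (Pq.L [] 2 (Pf.C 8 771))
 (Pq.cons (Pq.D 1 (Pq.cons (Pq.D 2 (Pq.cons (Pq.L [] 4 (Pf.C 40 644))
 (Pq.cons (Pq.L [] 4 (Pf.C 8 644))
 (Pq.cons (Pq.L [] 4 (Pf.C 8 644))
 (Pq.cons (Pq.L [] 15 (Pf.B 6 5 (Pf.B 4 3 (Pf.C 77 0xc0c205) (Pf.C 40 388)) (Pf.C 2 646)))
 Pq.nil))))) (Pq.cons (Pq.L [] 8 (Pf.C 14 772))
 (Pq.cons (Pq.L [0] 8 (Pf.C 55 98308))
 (Pq.cons (Pq.L [] 10 (Pf.B 4 3 (Pf.C 63 66307) (Pf.C 22 515)))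
 Pq.nil))))) Pq.nil))))) (Pq.cons (Pq.D 3 (Pq.cons (Pq.D 1 (Pq.cons (Pq.D 2 (Pq.cons (Pq.L [] 4 (Pf.C 40 644))
 (Pq.cons (Pq.L [] 1 (Pf.C 9 389))
 (Pq.cons (Pq.L [] 4 (Pf.C 8 644))
 (Pq.cons (Pq.L [] 1 (Pf.C 14 643))
 Pq.nil))))) (Pq.cons (Pq.D 2 (Pq.cons (Pq.L [] 15 (Pf.B 6 5 (Pf.B 4 3 (Pf.C 86 0x618284) (Pf.C 41 388)) (Pf.C 40 646)))
 (Pq.cons (Pq.L [] 1 (Pf.C 9 389))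
 (Pq.cons (Pq.L [] 3 (Pf.B 6 5 (Pf.C 64 82310) (Pf.C 8 646)))
 (Pq.cons (Pq.L [] 1 (Pf.C 14 643))
 Pq.nil))))) (Pq.cons (Pq.L [] 10 (Pf.B 4 3 (Pf.C 60 66307) (Pf.C 7 515)))
 (Pq.cons (Pq.D 2 (Pq.cons (Pq.L [] 4 (Pf.C 22 517))
 (Pq.cons (Pq.L [] 1 (Pf.C 9 389))
 (Pq.cons (Pq.L [] 4 (Pf.C 30 644))
 (Pq.cons (Pq.L [] 1 (Pf.C 14 643))
 Pq.nil))))) Pq.nil))))) (Pq.cons (Pq.D 1 (Pq.cons (Pq.D 2 (Pq.cons (Pq.L [] 4 (Pf.C 40 644))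
 (Pq.cons (Pq.L [] 1 (Pf.C 9 389))
 (Pq.cons (Pq.L [] 4 (Pf.C 8 644))
 (Pq.cons (Pq.L [] 1 (Pf.C 14 643))
 Pq.nil))))) (Pq.cons (Pq.L [] 8 (Pf.C 9 518))
 (Pq.cons (Pq.L [0] 8 (Pf.C 49 518))
 (Pq.cons (Pq.D 2 (Pq.cons (Pq.L [] 4 (Pf.C 22 517))
 (Pq.cons (Pq.L [] 1 (Pf.C 9 389))
 (Pq.cons (Pq.L [] 4 (Pf.C 30 644))
 (Pq.cons (Pq.L [] 1 (Pf.C 14 643))
 Pq.nil))))) Pq.nil))))) (Pq.cons (Pq.D 1 (Pq.cons (Pq.D 2 (Pq.cons (Pq.L [] 4 (Pf.C 40 644))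
 (Pq.cons (Pq.L [] 1 (Pf.C 9 389))
 (Pq.cons (Pq.L [] 4 (Pf.C 8 644))
 (Pq.cons (Pq.L [] 1 (Pf.C 14 643))
 Pq.nil))))) (Pq.cons (Pq.D 2 (Pq.cons (Pq.L [] 12 (Pf.B 6 5 (Pf.C 64 98821) (Pf.C 8 773)))
 (Pq.cons (Pq.L [] 1 (Pf.C 9 389))
 (Pq.cons (Pq.L [] 15 (Pf.B 6 5 (Pf.B 4 3 (Pf.C 84 0x618284) (Pf.C 41 388)) (Pf.C 11 646)))
 (Pq.cons (Pq.L [] 1 (Pf.C 14 643))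
 Pq.nil))))) (Pq.cons (Pq.L [1] 8 (Pf.C 62 98436))
 (Pq.cons (Pq.D 2 (Pq.cons (Pq.L [] 4 (Pf.C 22 517))
 (Pq.cons (Pq.L [] 1 (Pf.C 9 389))
 (Pq.cons (Pq.L [] 4 (Pf.C 30 644))
 (Pq.cons (Pq.L [] 1 (Pf.C 14 643))
 Pq.nil))))) Pq.nil))))) (Pq.cons (Pq.D 1 (Pq.cons (Pq.D 2 (Pq.cons (Pq.L [] 4 (Pf.C 40 644))
 (Pq.cons (Pq.L [] 1 (Pf.C 9 389))
 (Pq.cons (Pq.L [] 4 (Pf.C 8 644))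
 (Pq.cons (Pq.L [] 1 (Pf.C 14 643))
 Pq.nil))))) (Pq.cons (Pq.L [] 8 (Pf.C 14 772))
 (Pq.cons (Pq.L [0] 8 (Pf.C 55 98308))
 (Pq.cons (Pq.D 2 (Pq.cons (Pq.L [] 4 (Pf.C 22 517))
 (Pq.cons (Pq.L [] 1 (Pf.C 9 389))
 (Pq.cons (Pq.L [] 4 (Pf.C 30 644))
 (Pq.cons (Pq.L [] 1 (Pf.C 14 643))
 Pq.nil))))) Pq.nil))))) Pq.nil))))) (Pq.cons (Pq.D 3 (Pq.cons (Pq.D 1 (Pq.cons (Pq.D 2 (Pq.cons (Pq.L [] 4 (Pf.C 40 644))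
 (Pq.cons (Pq.L [0] 1 (Pf.C 49 389))
 (Pq.cons (Pq.L [1] 1 (Pf.C 62 82051))
 (Pq.cons (Pq.L [0] 1 (Pf.C 55 81923))
 Pq.nil))))) (Pq.cons (Pq.D 2 (Pq.cons (Pq.L [] 5 (Pf.B 4 3 (Pf.C 60 49796) (Pf.C 7 388)))
 (Pq.cons (Pq.L [0] 1 (Pf.C 49 389))
 (Pq.cons (Pq.L [1] 1 (Pf.C 62 82051))
 (Pq.cons (Pq.L [0] 1 (Pf.C 55 81923))
 Pq.nil))))) (Pq.cons (Pq.D 2 (Pq.cons (Pq.L [] 15 (Pf.B 6 5 (Pf.B 4 3 (Pf.C 86 0x618284) (Pf.C 13 388)) (Pf.C 40 646)))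
 (Pq.cons (Pq.L [0] 1 (Pf.C 49 389))
 (Pq.cons (Pq.L [1] 1 (Pf.C 62 82051))
 (Pq.cons (Pq.L [0] 1 (Pf.C 55 81923))
 Pq.nil))))) (Pq.cons (Pq.D 2 (Pq.cons (Pq.L [] 4 (Pf.C 22 517))
 (Pq.cons (Pq.L [0] 1 (Pf.C 49 389))
 (Pq.cons (Pq.L [1] 1 (Pf.C 62 82051))
 (Pq.cons (Pq.L [0] 1 (Pf.C 55 81923))
 Pq.nil))))) Pq.nil))))) (Pq.cons (Pq.D 1 (Pq.cons (Pq.D 2 (Pq.cons (Pq.L [] 4 (Pf.C 40 644))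
 (Pq.cons (Pq.L [0] 1 (Pf.C 49 389))
 (Pq.cons (Pq.L [1] 1 (Pf.C 62 82051))
 (Pq.cons (Pq.L [0] 1 (Pf.C 55 81923))
 Pq.nil))))) (Pq.cons (Pq.L [] 8 (Pf.C 9 518))
 (Pq.cons (Pq.L [0] 8 (Pf.C 49 518))
 (Pq.cons (Pq.D 2 (Pq.cons (Pq.L [] 4 (Pf.C 22 517))
 (Pq.cons (Pq.L [0] 1 (Pf.C 49 389))
 (Pq.cons (Pq.L [1] 1 (Pf.C 62 82051))
 (Pq.cons (Pq.L [0] 1 (Pf.C 55 81923))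
 Pq.nil))))) Pq.nil))))) (Pq.cons (Pq.D 1 (Pq.cons (Pq.D 2 (Pq.cons (Pq.L [] 4 (Pf.C 40 644))
 (Pq.cons (Pq.L [0] 1 (Pf.C 49 389))
 (Pq.cons (Pq.L [1] 1 (Pf.C 62 82051))
 (Pq.cons (Pq.L [0] 1 (Pf.C 55 81923))
 Pq.nil))))) (Pq.cons (Pq.D 2 (Pq.cons (Pq.L [] 12 (Pf.B 6 5 (Pf.C 64 98821) (Pf.C 8 773)))
 (Pq.cons (Pq.L [0] 1 (Pf.C 49 389))
 (Pq.cons (Pq.L [1] 1 (Pf.C 62 82051))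
 (Pq.cons (Pq.L [0] 1 (Pf.C 55 81923))
 Pq.nil))))) (Pq.cons (Pq.L [1] 8 (Pf.C 62 98436))
 (Pq.cons (Pq.D 2 (Pq.cons (Pq.L [] 4 (Pf.C 22 517))
 (Pq.cons (Pq.L [0] 1 (Pf.C 49 389))
 (Pq.cons (Pq.L [1] 1 (Pf.C 62 82051))
 (Pq.cons (Pq.L [0] 1 (Pf.C 55 81923))
 Pq.nil))))) Pq.nil))))) (Pq.cons (Pq.D 1 (Pq.cons (Pq.D 2 (Pq.cons (Pq.L [] 4 (Pf.C 40 644))
 (Pq.cons (Pq.L [0] 1 (Pf.C 49 389))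
 (Pq.cons (Pq.L [1] 1 (Pf.C 62 82051))
 (Pq.cons (Pq.L [0] 1 (Pf.C 55 81923))
 Pq.nil))))) (Pq.cons (Pq.L [] 8 (Pf.C 14 772))
 (Pq.cons (Pq.L [0] 8 (Pf.C 55 98308))
 (Pq.cons (Pq.D 2 (Pq.cons (Pq.L [] 4 (Pf.C 22 517))
 (Pq.cons (Pq.L [0] 1 (Pf.C 49 389))
 (Pq.cons (Pq.L [1] 1 (Pf.C 62 82051))
 (Pq.cons (Pq.L [0] 1 (Pf.C 55 81923))
 Pq.nil))))) Pq.nil))))) Pq.nil))))) (Pq.cons (Pq.D 3 (Pq.cons (Pq.L [] 2 (Pf.C 22 390))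
 (Pq.cons (Pq.D 1 (Pq.cons (Pq.D 2 (Pq.cons (Pq.L [] 4 (Pf.C 40 644))
 (Pq.cons (Pq.L [] 4 (Pf.C 8 644))
 (Pq.cons (Pq.L [] 4 (Pf.C 8 644))
 (Pq.cons (Pq.L [] 3 (Pf.B 6 5 (Pf.C 65 82310) (Pf.C 33 646)))
 Pq.nil))))) (Pq.cons (Pq.L [] 8 (Pf.C 9 518))
 (Pq.cons (Pq.L [0] 8 (Pf.C 49 518))
 (Pq.cons (Pq.D 2 (Pq.cons (Pq.L [] 4 (Pf.C 22 517))
 (Pq.cons (Pq.L [] 15 (Pf.B 6 5 (Pf.B 4 3 (Pf.C 84 0x618284) (Pf.C 12 388)) (Pf.C 42 646)))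
 (Pq.cons (Pq.L [] 4 (Pf.C 30 644))
 (Pq.cons (Pq.L [] 3 (Pf.B 6 5 (Pf.C 65 82310) (Pf.C 33 646)))
 Pq.nil))))) Pq.nil))))) (Pq.cons (Pq.L [] 2 (Pf.C 30 771))
 (Pq.cons (Pq.D 1 (Pq.cons (Pq.D 2 (Pq.cons (Pq.L [] 4 (Pf.C 40 644))
 (Pq.cons (Pq.L [] 4 (Pf.C 8 644))
 (Pq.cons (Pq.L [] 4 (Pf.C 8 644))
 (Pq.cons (Pq.L [] 5 (Pf.B 4 3 (Pf.C 63 49796) (Pf.C 22 388)))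
 Pq.nil))))) (Pq.cons (Pq.L [] 8 (Pf.C 14 772))
 (Pq.cons (Pq.L [0] 8 (Pf.C 55 98308))
 (Pq.cons (Pq.D 2 (Pq.cons (Pq.L [] 4 (Pf.C 22 517))
 (Pq.cons (Pq.L [] 12 (Pf.B 6 5 (Pf.C 65 98821) (Pf.C 33 773)))
 (Pq.cons (Pq.L [] 4 (Pf.C 30 644))
 (Pq.cons (Pq.L [] 15 (Pf.B 6 5 (Pf.B 4 3 (Pf.C 87 0x618284) (Pf.C 12 388)) (Pf.C 2 646)))
 Pq.nil))))) Pq.nil))))) Pq.nil))))) Pq.nil))))) Pq.nil))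
theorem f2_o73 : AllRef f2_T f2_G51 (List.drop 6 (applyObl f3_T 8 [54,57,58,59,60,63,64,65,67,70,73,74,75] [1,2,3,1,2,2,1,2,3,3,3,1,1] [])) :=
  chkPq_sound f2_o73c _ (by decide +kernel)
noncomputable def f2_o74c : Pq := (Pq.cons (Pq.L [2] 2 (Pf.C 55 33411))
 (Pq.cons (Pq.L [] 1 (Pf.C 8 388))
 (Pq.cons (Pq.L [] 2 (Pf.C 17 389))
 (Pq.cons (Pq.L [] 1 (Pf.C 8 388))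
 (Pq.cons (Pq.L [1] 2 (Pf.C 55 49793))
 Pq.nil)))))
theorem f2_o74 : AllRef f2_T f2_G51 (splitObl [56] [62,66,68,69,72]) :=
  chkPq_sound f2_o74c _ (by decide +kernel)
noncomputable def f2_o75c : Pq := (Pq.cons (Pq.L [] 1 (Pf.C 40 515))
 Pq.nil)
theorem f2_o75 : AllRef f2_T f2_G51 (applyObl TD2 1 [56] [0] []) :=
  chkPq_sound f2_o75c _ (by decide +kernel)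
noncomputable def f2_o76c : Pq := (Pq.cons (Pq.L [0] 2 (Pf.C 49 643))
 (Pq.cons (Pq.L [] 1 (Pf.C 28 388))
 (Pq.cons (Pq.L [1] 1 (Pf.C 62 49665))
 (Pq.cons (Pq.L [0] 2 (Pf.C 55 49157))
 Pq.nil))))
theorem f2_o76 : AllRef f2_T f2_G51 (splitObl [62] [66,68,69,72]) :=
  chkPq_sound f2_o76c _ (by decide +kernel)
noncomputable def f2_o77c : Pq := (Pq.cons (Pq.L [] 1 (Pf.C 13 515))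
 Pq.nil)
theorem f2_o77 : AllRef f2_T f2_G51 (applyObl TD2 1 [62] [0] []) :=
  chkPq_sound f2_o77c _ (by decide +kernel)
noncomputable def f2_o78c : Pq := (Pq.cons (Pq.L [] 2 (Pf.C 6 389))
 (Pq.cons (Pq.L [] 1 (Pf.C 32 388))
 (Pq.cons (Pq.L [] 1 (Pf.C 33 388))
 Pq.nil)))
theorem f2_o78 : AllRef f2_T f2_G51 (splitObl [66] [68,69,72]) :=
  chkPq_sound f2_o78c _ (by decide +kernel)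
noncomputable def f2_o79c : Pq := (Pq.cons (Pq.L [] 1 (Pf.C 42 515))
 Pq.nil)
theorem f2_o79 : AllRef f2_T f2_G51 (applyObl TD2 1 [66] [0] []) :=
  chkPq_sound f2_o79c _ (by decide +kernel)
noncomputable def f2_o80c : Pq := (Pq.cons (Pq.L [] 1 (Pf.C 35 388))
 (Pq.cons (Pq.L [] 1 (Pf.C 36 388))
 Pq.nil))
theorem f2_o80 : AllRef f2_T f2_G51 (splitObl [68] [69,72]) :=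
  chkPq_sound f2_o80c _ (by decide +kernel)
noncomputable def f2_o81c : Pq := (Pq.cons (Pq.L [] 1 (Pf.C 3 515))
 Pq.nil)
theorem f2_o81 : AllRef f2_T f2_G51 (applyObl TD2 1 [68] [0] []) :=
  chkPq_sound f2_o81c _ (by decide +kernel)
noncomputable def f2_o82c : Pq := (Pq.cons (Pq.L [] 1 (Pf.C 37 388))
 Pq.nil)
theorem f2_o82 : AllRef f2_T f2_G51 (splitObl [69] [72]) :=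
  chkPq_sound f2_o82c _ (by decide +kernel)
noncomputable def f2_o83c : Pq := (Pq.cons (Pq.L [] 1 (Pf.C 11 515))
 Pq.nil)
theorem f2_o83 : AllRef f2_T f2_G51 (applyObl TD2 1 [69] [0] []) :=
  chkPq_sound f2_o83c _ (by decide +kernel)
noncomputable def f2_o84c : Pq := (Pq.cons (Pq.L [] 1 (Pf.C 2 515))
 Pq.nil)
theorem f2_o84 : AllRef f2_T f2_G51 (applyObl TD2 1 [72] [0] []) :=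
  chkPq_sound f2_o84c _ (by decide +kernel)
noncomputable def f2_o85c : Pq := (Pq.cons (Pq.L [0] 0 (Pf.C 10 3))
 (Pq.cons (Pq.L [2] 0 (Pf.C 21 259))
 (Pq.cons (Pq.L [1] 0 (Pf.C 7 385))
 Pq.nil)))
theorem f2_o85 : AllRef f2_T f2_G3 (ptObl 1 (PT.br 0 PT.ref (PT.br 1 (PT.br 2 PT.kid PT.ref) PT.ref)) []) :=
  chkPq_sound f2_o85c _ (by decide +kernel)
noncomputable def f2_o86c : Pq := Pq.nil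
theorem f2_o86 : AllRef f2_T f2_G52 (ptObl 2 PT.kid []) :=
  chkPq_sound f2_o86c _ (by decide +kernel)
noncomputable def f2_o87c : Pq := (Pq.cons (Pq.L [0,1,2] 0 (Pf.C 0 32899))
 (Pq.cons (Pq.L [0] 0 (Pf.C 40 3))
 Pq.nil))
theorem f2_o87 : AllRef f2_T f2_G53 (ptObl 77 (PT.br 0 (PT.br 1 (PT.br 2 PT.kid PT.kid) (PT.br 2 PT.kid PT.ref)) PT.ref) []) :=
  chkPq_sound f2_o87c _ (by decide +kernel)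
noncomputable def f2_o88c : Pq := (Pq.cons (Pq.L [0] 0 (Pf.C 16 384))
 (Pq.cons (Pq.L [2] 0 (Pf.C 4 259))
 (Pq.cons (Pq.L [0,1] 0 (Pf.C 72 16768))
 Pq.nil)))
theorem f2_o88 : AllRef f2_T f2_G54 (ptObl 3 (PT.br 0 PT.ref (PT.br 1 (PT.br 2 PT.kid PT.ref) PT.ref)) []) :=
  chkPq_sound f2_o88c _ (by decide +kernel)
noncomputable def f2_o89c : Pq := Pq.nil
theorem f2_o89 : AllRef f2_T f2_G55 (ptObl 4 PT.kid []) :=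
  chkPq_sound f2_o89c _ (by decide +kernel)
noncomputable def f2_o90c : Pq := (Pq.cons (Pq.L [1] 0 (Pf.C 41 131))
 (Pq.cons (Pq.L [0,1,2] 0 (Pf.C 0 0x208003))
 (Pq.cons (Pq.L [1] 0 (Pf.C 41 131))
 Pq.nil)))
theorem f2_o90 : AllRef f2_T f2_G56 (ptObl 82 (PT.br 0 (PT.br 1 (PT.br 2 PT.kid PT.kid) PT.ref) (PT.br 1 (PT.br 2 PT.kid PT.ref) PT.ref)) []) :=
  chkPq_sound f2_o90c _ (by decide +kernel)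
noncomputable def f2_o91c : Pq := (Pq.cons (Pq.L [0,1] 0 (Pf.B 3 1 (Pf.C 60 49153) (Pf.C 7 385)))
 (Pq.cons (Pq.L [2] 0 (Pf.C 29 259))
 (Pq.cons (Pq.L [1] 0 (Pf.C 7 385))
 Pq.nil)))
theorem f2_o91 : AllRef f2_T f2_G57 (ptObl 5 (PT.br 0 PT.ref (PT.br 1 (PT.br 2 PT.kid PT.ref) PT.ref)) []) :=
  chkPq_sound f2_o91c _ (by decide +kernel)
noncomputable def f2_o92c : Pq := (Pq.cons (Pq.L [1] 0 (Pf.C 26 385))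
 (Pq.cons (Pq.L [0] 0 (Pf.C 22 384))
 Pq.nil))
theorem f2_o92 : AllRef f2_T f2_G58 (ptObl 6 (PT.br 0 (PT.br 1 (PT.br 2 PT.kid PT.kid) PT.ref) PT.ref) []) :=
  chkPq_sound f2_o92c _ (by decide +kernel)
noncomputable def f2_o93c : Pq := (Pq.cons (Pq.L [1] 0 (Pf.C 9 131))
 (Pq.cons (Pq.L [2] 0 (Pf.C 34 259))
 (Pq.cons (Pq.L [0] 0 (Pf.C 8 384))
 Pq.nil)))
theorem f2_o93 : AllRef f2_T f2_G59 (ptObl 7 (PT.br 0 (PT.br 1 PT.ref (PT.br 2 PT.kid PT.ref)) PT.ref) []) :=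
  chkPq_sound f2_o93c _ (by decide +kernel)
noncomputable def f2_o94c : Pq := (Pq.cons (Pq.L [0,1] 0 (Pf.B 3 1 (Pf.C 15 385) (Pf.B 3 0 (Pf.C 17 384) (Pf.C 73 49280))))
 Pq.nil)
theorem f2_o94 : AllRef f2_T f2_G60 (ptObl 8 PT.ref []) :=
  chkPq_sound f2_o94c _ (by decide +kernel)
noncomputable def f2_o95c : Pq := (Pq.cons (Pq.L [0,1] 0 (Pf.C 64 49280))
 (Pq.cons (Pq.L [2] 0 (Pf.C 38 259))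
 (Pq.cons (Pq.L [0] 0 (Pf.C 8 384))
 Pq.nil)))
theorem f2_o95 : AllRef f2_T f2_G61 (ptObl 9 (PT.br 0 (PT.br 1 PT.ref (PT.br 2 PT.kid PT.ref)) PT.ref) []) :=
  chkPq_sound f2_o95c _ (by decide +kernel)
noncomputable def f2_o96c : Pq := (Pq.cons (Pq.L [1] 0 (Pf.C 14 385))
 (Pq.cons (Pq.L [2] 0 (Pf.C 2 259))
 (Pq.cons (Pq.L [0,1] 0 (Pf.B 3 1 (Pf.C 14 385) (Pf.C 74 49280)))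
 Pq.nil)))
theorem f2_o96 : AllRef f2_T f2_G62 (ptObl 10 (PT.br 0 (PT.br 1 PT.ref (PT.br 2 PT.kid PT.ref)) PT.ref) []) :=
  chkPq_sound f2_o96c _ (by decide +kernel)
noncomputable def f2_o97c : Pq := Pq.nil
theorem f2_o97 : AllRef f2_T f2_G63 (ptObl 11 PT.kid []) :=
  chkPq_sound f2_o97c _ (by decide +kernel)
noncomputable def f2_o98c : Pq := (Pq.cons (Pq.L [2] 0 (Pf.C 2 259))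
 (Pq.cons (Pq.L [2] 0 (Pf.C 2 259))
 (Pq.cons (Pq.L [2] 0 (Pf.C 2 259))
 (Pq.cons (Pq.L [0,1,2] 0 (Pf.B 3 2 (Pf.C 0 0x404003) (Pf.C 2 259)))
 Pq.nil))))
theorem f2_o98 : AllRef f2_T f2_G64 (ptObl 92 (PT.br 0 (PT.br 1 (PT.br 2 PT.kid PT.ref) (PT.br 2 PT.kid PT.ref)) (PT.br 1 (PT.br 2 PT.kid PT.ref) PT.ref)) []) :=
  chkPq_sound f2_o98c _ (by decide +kernel)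
noncomputable def f2_o99c : Pq := (Pq.cons (Pq.L [] 2 (Pf.C 10 389))
 (Pq.cons (Pq.L [] 1 (Pf.C 7 515))
 (Pq.cons (Pq.L [2] 2 (Pf.C 53 49413))
 (Pq.cons (Pq.L [] 1 (Pf.C 21 388))
 (Pq.cons (Pq.L [] 1 (Pf.C 40 515))
 (Pq.cons (Pq.L [0,1] 1 (Pf.C 86 0x200203))
 (Pq.cons (Pq.L [] 1 (Pf.C 22 388))
 (Pq.cons (Pq.L [1] 2 (Pf.C 54 49285))
 (Pq.cons (Pq.L [] 1 (Pf.C 40 515))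
 (Pq.cons (Pq.L [2] 2 (Pf.C 54 33157))
 (Pq.cons (Pq.L [] 1 (Pf.C 22 388))
 (Pq.cons (Pq.L [0,2] 1 (Pf.C 77 0x400203))
 (Pq.cons (Pq.L [] 2 (Pf.C 16 643))
 (Pq.cons (Pq.L [2] 1 (Pf.C 46 33156))
 (Pq.cons (Pq.L [2] 2 (Pf.C 53 49413))
 (Pq.cons (Pq.L [] 1 (Pf.C 4 515))
 (Pq.cons (Pq.L [0,1] 1 (Pf.C 86 0x200184))
 (Pq.cons (Pq.L [] 1 (Pf.C 41 515))
 (Pq.cons (Pq.L [] 1 (Pf.C 26 388))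
 (Pq.cons (Pq.L [0] 2 (Pf.C 54 49792))
 (Pq.cons (Pq.L [2] 2 (Pf.C 54 33411))
 (Pq.cons (Pq.L [] 1 (Pf.C 41 515))
 (Pq.cons (Pq.L [] 1 (Pf.C 26 388))
 (Pq.cons (Pq.L [1,2] 1 (Pf.C 79 0x208184))
 (Pq.cons (Pq.L [2] 2 (Pf.C 55 33157))
 (Pq.cons (Pq.L [] 1 (Pf.C 7 515))
 (Pq.cons (Pq.L [] 1 (Pf.C 27 388))
 (Pq.cons (Pq.L [] 1 (Pf.C 29 388))
 (Pq.cons (Pq.L [] 1 (Pf.C 22 515))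
 (Pq.cons (Pq.L [] 1 (Pf.C 26 515))
 (Pq.cons (Pq.L [] 1 (Pf.C 12 515))
 (Pq.cons (Pq.L [0] 2 (Pf.C 54 49792))
 (Pq.cons (Pq.L [] 1 (Pf.C 8 515))
 (Pq.cons (Pq.L [] 2 (Pf.C 9 389))
 (Pq.cons (Pq.L [2] 2 (Pf.C 54 33157))
 (Pq.cons (Pq.L [] 1 (Pf.C 34 388))
 (Pq.cons (Pq.L [] 1 (Pf.C 8 515))
 (Pq.cons (Pq.L [2] 2 (Pf.C 54 33157))
 (Pq.cons (Pq.L [] 1 (Pf.C 30 515))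
 (Pq.cons (Pq.L [] 1 (Pf.C 38 388))
 (Pq.cons (Pq.L [2] 1 (Pf.C 43 33156))
 (Pq.cons (Pq.L [] 2 (Pf.C 14 643))
 (Pq.cons (Pq.L [2] 2 (Pf.C 57 49413))
 (Pq.cons (Pq.L [] 1 (Pf.C 2 515))
 (Pq.cons (Pq.L [0,2] 1 (Pf.C 77 0x400184))
 (Pq.cons (Pq.L [0] 2 (Pf.C 54 82304))
 (Pq.cons (Pq.L [0] 2 (Pf.C 54 82304))
 (Pq.cons (Pq.L [] 1 (Pf.C 2 515))
 (Pq.cons (Pq.L [1] 2 (Pf.C 54 82051))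
 (Pq.cons (Pq.L [1,2] 1 (Pf.C 79 0x208203))
 (Pq.cons (Pq.L [1] 2 (Pf.C 55 82305))
 (Pq.cons (Pq.L [] 1 (Pf.C 2 515))
 Pq.nil))))))))))))))))))))))))))))))))))))))))))))))))))))
theorem f2_o99 : AllRef f2_T f2_G65 (splitObl [76,79,80,81,84,85,86,88,89,90,91,94,95] [78,83,87,93]) :=
  chkPq_sound f2_o99c _ (by decide +kernel)
noncomputable def f2_o100c : Pq := (Pq.cons (Pq.L [] 63 (Pf.C 0 0xc14203))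
 (Pq.cons (Pq.D 0 (Pq.cons (Pq.D 1 (Pq.cons (Pq.L [] 1 (Pf.C 39 515))
 (Pq.cons (Pq.L [] 1 (Pf.C 18 515))
 (Pq.cons (Pq.L [] 1 (Pf.C 7 388))
 (Pq.cons (Pq.L [] 1 (Pf.C 19 515))
 (Pq.cons (Pq.L [] 1 (Pf.C 21 515))
 Pq.nil)))))) (Pq.cons (Pq.D 1 (Pq.cons (Pq.L [] 1 (Pf.C 18 388))
 (Pq.cons (Pq.L [] 1 (Pf.C 4 515))
 (Pq.cons (Pq.L [2] 1 (Pf.C 46 33283))
 (Pq.cons (Pq.L [] 1 (Pf.C 23 515))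
 (Pq.cons (Pq.L [] 1 (Pf.C 4 515))
 Pq.nil)))))) (Pq.cons (Pq.D 1 (Pq.cons (Pq.L [] 1 (Pf.C 7 515))
 (Pq.cons (Pq.L [2] 1 (Pf.C 46 33156))
 (Pq.cons (Pq.L [] 1 (Pf.C 41 515))
 (Pq.cons (Pq.L [] 1 (Pf.C 7 515))
 (Pq.cons (Pq.L [1,2] 1 (Pf.C 79 0x208203))
 Pq.nil)))))) (Pq.cons (Pq.D 1 (Pq.cons (Pq.L [] 1 (Pf.C 19 388))
 (Pq.cons (Pq.L [] 1 (Pf.C 23 388))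
 (Pq.cons (Pq.L [] 1 (Pf.C 7 388))
 (Pq.cons (Pq.L [] 1 (Pf.C 13 515))
 (Pq.cons (Pq.L [] 1 (Pf.C 29 515))
 Pq.nil)))))) (Pq.cons (Pq.D 1 (Pq.cons (Pq.L [] 1 (Pf.C 21 388))
 (Pq.cons (Pq.L [] 1 (Pf.C 4 515))
 (Pq.cons (Pq.L [1,2] 1 (Pf.C 79 0x208184))
 (Pq.cons (Pq.L [] 1 (Pf.C 29 388))
 (Pq.cons (Pq.L [] 1 (Pf.C 2 515))
 Pq.nil)))))) Pq.nil)))))) (Pq.cons (Pq.D 0 (Pq.cons (Pq.D 1 (Pq.cons (Pq.L [] 1 (Pf.C 40 515))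
 (Pq.cons (Pq.L [0,1] 1 (Pf.C 86 0x200184))
 (Pq.cons (Pq.L [] 1 (Pf.C 22 515))
 Pq.nil)))) (Pq.cons (Pq.D 1 (Pq.cons (Pq.L [0,1] 1 (Pf.C 86 0x200203))
 (Pq.cons (Pq.L [] 1 (Pf.C 41 515))
 (Pq.cons (Pq.L [] 1 (Pf.C 26 515))
 Pq.nil)))) (Pq.cons (Pq.D 1 (Pq.cons (Pq.L [] 1 (Pf.C 22 388))
 (Pq.cons (Pq.L [] 1 (Pf.C 26 388))
 (Pq.cons (Pq.L [] 1 (Pf.C 12 515))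
 Pq.nil)))) Pq.nil)))) (Pq.cons (Pq.D 0 (Pq.cons (Pq.D 1 (Pq.cons (Pq.L [] 1 (Pf.C 40 515))
 (Pq.cons (Pq.L [] 1 (Pf.C 8 515))
 (Pq.cons (Pq.L [] 1 (Pf.C 8 515))
 (Pq.cons (Pq.L [2] 1 (Pf.C 43 33156))
 (Pq.cons (Pq.L [0,2] 1 (Pf.C 77 0x400184))
 Pq.nil)))))) (Pq.cons (Pq.D 1 (Pq.cons (Pq.L [] 1 (Pf.C 8 388))
 (Pq.cons (Pq.L [] 1 (Pf.C 42 515))
 (Pq.cons (Pq.L [] 1 (Pf.C 32 515))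
 (Pq.cons (Pq.L [] 1 (Pf.C 33 515))
 (Pq.cons (Pq.L [] 1 (Pf.C 34 515))
 Pq.nil)))))) (Pq.cons (Pq.D 1 (Pq.cons (Pq.L [] 1 (Pf.C 8 388))
 (Pq.cons (Pq.L [] 1 (Pf.C 32 388))
 (Pq.cons (Pq.L [] 1 (Pf.C 11 515))
 (Pq.cons (Pq.L [] 1 (Pf.C 37 515))
 (Pq.cons (Pq.L [] 1 (Pf.C 38 515))
 Pq.nil)))))) (Pq.cons (Pq.D 1 (Pq.cons (Pq.L [2] 1 (Pf.C 43 33283))
 (Pq.cons (Pq.L [] 1 (Pf.C 33 388))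
 (Pq.cons (Pq.L [] 1 (Pf.C 37 388))
 (Pq.cons (Pq.L [] 1 (Pf.C 2 515))
 (Pq.cons (Pq.L [] 1 (Pf.C 2 515))
 Pq.nil)))))) (Pq.cons (Pq.D 1 (Pq.cons (Pq.L [0,2] 1 (Pf.C 77 0x400203))
 (Pq.cons (Pq.L [] 1 (Pf.C 34 388))
 (Pq.cons (Pq.L [] 1 (Pf.C 38 388))
 (Pq.cons (Pq.L [] 1 (Pf.C 2 515))
 (Pq.cons (Pq.L [] 1 (Pf.C 2 515))
 Pq.nil)))))) Pq.nil)))))) (Pq.cons (Pq.D 1 (Pq.cons (Pq.D 0 (Pq.cons (Pq.L [] 1 (Pf.C 10 515))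
 (Pq.cons (Pq.L [] 1 (Pf.C 16 388))
 (Pq.cons (Pq.D 2 (Pq.cons (Pq.L [2] 2 (Pf.C 54 33157))
 (Pq.cons (Pq.L [] 2 (Pf.C 9 389))
 (Pq.cons (Pq.L [2] 2 (Pf.C 54 33157))
 (Pq.cons (Pq.L [] 2 (Pf.C 14 643))
 (Pq.cons (Pq.L [] 7 (Pf.C 54 82308))
 Pq.nil)))))) (Pq.cons (Pq.D 2 (Pq.cons (Pq.L [2] 2 (Pf.C 55 33411))
 (Pq.cons (Pq.L [] 7 (Pf.C 49 65925))
 (Pq.cons (Pq.L [] 7 (Pf.C 66 49796))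
 (Pq.cons (Pq.L [] 7 (Pf.C 55 82435))
 (Pq.cons (Pq.L [] 7 (Pf.C 55 82435))
 Pq.nil)))))) (Pq.cons (Pq.L [1] 1 (Pf.C 54 49284))
 Pq.nil)))))) (Pq.cons (Pq.D 0 (Pq.cons (Pq.D 2 (Pq.cons (Pq.L [] 2 (Pf.C 10 643))
 (Pq.cons (Pq.L [] 2 (Pf.C 5 643))
 (Pq.cons (Pq.L [] 7 (Pf.C 49 82435))
 (Pq.cons (Pq.L [0] 7 (Pf.C 83 0xa00184))
 (Pq.cons (Pq.L [0] 7 (Pf.C 83 0xa00184))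
 Pq.nil)))))) (Pq.cons (Pq.D 2 (Pq.cons (Pq.L [] 2 (Pf.C 16 389))
 (Pq.cons (Pq.L [] 7 (Pf.C 54 49669))
 (Pq.cons (Pq.L [] 7 (Pf.C 54 49669))
 (Pq.cons (Pq.L [0,2] 7 (Pf.C 90 0x40400185))
 (Pq.cons (Pq.L [0,2] 7 (Pf.C 90 0x40400185))
 Pq.nil)))))) (Pq.cons (Pq.D 2 (Pq.cons (Pq.L [2] 2 (Pf.C 54 33157))
 (Pq.cons (Pq.L [] 2 (Pf.C 9 389))
 (Pq.cons (Pq.L [2] 2 (Pf.C 54 33157))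
 (Pq.cons (Pq.L [] 2 (Pf.C 14 643))
 (Pq.cons (Pq.L [0] 7 (Pf.C 83 0xa00184))
 Pq.nil)))))) (Pq.cons (Pq.D 2 (Pq.cons (Pq.L [2] 2 (Pf.C 55 33411))
 (Pq.cons (Pq.L [2] 2 (Pf.C 52 33411))
 (Pq.cons (Pq.L [] 7 (Pf.C 69 82308))
 (Pq.cons (Pq.L [0] 7 (Pf.C 83 0xa00184))
 (Pq.cons (Pq.L [0] 7 (Pf.C 83 0xa00184))
 Pq.nil)))))) (Pq.cons (Pq.D 2 (Pq.cons (Pq.L [] 7 (Pf.C 54 49669))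
 (Pq.cons (Pq.L [] 7 (Pf.C 52 49796))
 (Pq.cons (Pq.L [] 7 (Pf.C 54 49669))
 (Pq.cons (Pq.L [0,2] 7 (Pf.C 90 0x40400185))
 (Pq.cons (Pq.L [0,2] 7 (Pf.C 90 0x40400185))
 Pq.nil)))))) Pq.nil)))))) (Pq.cons (Pq.D 0 (Pq.cons (Pq.D 2 (Pq.cons (Pq.L [] 2 (Pf.C 10 643))
 (Pq.cons (Pq.L [] 2 (Pf.C 5 643))
 (Pq.cons (Pq.L [2] 2 (Pf.C 56 33157))
 (Pq.cons (Pq.L [] 7 (Pf.C 53 66179))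
 (Pq.cons (Pq.L [] 7 (Pf.C 53 66179))
 Pq.nil)))))) (Pq.cons (Pq.D 2 (Pq.cons (Pq.L [] 2 (Pf.C 16 389))
 (Pq.cons (Pq.L [] 7 (Pf.C 53 66179))
 (Pq.cons (Pq.L [] 7 (Pf.C 54 49669))
 (Pq.cons (Pq.L [] 7 (Pf.C 53 66179))
 (Pq.cons (Pq.L [] 7 (Pf.C 53 66179))
 Pq.nil)))))) (Pq.cons (Pq.D 2 (Pq.cons (Pq.L [2] 2 (Pf.C 54 33157))
 (Pq.cons (Pq.L [] 2 (Pf.C 9 389))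
 (Pq.cons (Pq.L [2] 2 (Pf.C 54 33157))
 (Pq.cons (Pq.L [] 2 (Pf.C 14 643))
 (Pq.cons (Pq.L [] 7 (Pf.C 55 82435))
 Pq.nil)))))) (Pq.cons (Pq.D 2 (Pq.cons (Pq.L [2] 2 (Pf.C 55 33411))
 (Pq.cons (Pq.L [2] 2 (Pf.C 52 33411))
 (Pq.cons (Pq.L [0,1] 2 (Pf.C 76 0xa04003))
 (Pq.cons (Pq.L [] 7 (Pf.C 55 82435))
 (Pq.cons (Pq.L [] 7 (Pf.C 55 82435))
 Pq.nil)))))) (Pq.cons (Pq.L [1] 1 (Pf.C 55 49665))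
 Pq.nil)))))) Pq.nil)))) (Pq.cons (Pq.D 2 (Pq.cons (Pq.D 1 (Pq.cons (Pq.D 3 (Pq.cons (Pq.L [] 8 (Pf.C 10 772))
 (Pq.cons (Pq.D 0 (Pq.cons (Pq.L [] 2 (Pf.C 7 390))
 (Pq.cons (Pq.L [] 1 (Pf.C 16 389))
 (Pq.cons (Pq.L [] 2 (Pf.C 41 771))
 (Pq.cons (Pq.L [] 2 (Pf.C 7 390))
 (Pq.cons (Pq.L [1] 1 (Pf.C 54 49285))
 Pq.nil)))))) (Pq.cons (Pq.D 0 (Pq.cons (Pq.L [] 1 (Pf.C 10 643))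
 (Pq.cons (Pq.L [] 1 (Pf.C 16 389))
 (Pq.cons (Pq.L [] 2 (Pf.C 26 771))
 (Pq.cons (Pq.L [] 2 (Pf.C 27 771))
 (Pq.cons (Pq.L [1] 1 (Pf.C 54 49285))
 Pq.nil)))))) Pq.nil)))) (Pq.cons (Pq.D 3 (Pq.cons (Pq.L [] 8 (Pf.C 16 518))
 (Pq.cons (Pq.D 0 (Pq.cons (Pq.L [] 2 (Pf.C 7 390))
 (Pq.cons (Pq.L [] 1 (Pf.C 16 389))
 (Pq.cons (Pq.L [] 2 (Pf.C 41 771))
 (Pq.cons (Pq.L [] 2 (Pf.C 7 390))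
 (Pq.cons (Pq.L [1] 1 (Pf.C 54 49285))
 Pq.nil)))))) (Pq.cons (Pq.D 0 (Pq.cons (Pq.L [] 1 (Pf.C 10 643))
 (Pq.cons (Pq.L [] 1 (Pf.C 16 389))
 (Pq.cons (Pq.L [] 2 (Pf.C 26 771))
 (Pq.cons (Pq.L [] 2 (Pf.C 27 771))
 (Pq.cons (Pq.L [1] 1 (Pf.C 54 49285))
 Pq.nil)))))) Pq.nil)))) (Pq.cons (Pq.D 3 (Pq.cons (Pq.D 0 (Pq.cons (Pq.L [] 1 (Pf.C 10 643))
 (Pq.cons (Pq.L [] 1 (Pf.C 16 389))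
 (Pq.cons (Pq.L [] 15 (Pf.B 6 5 (Pf.B 4 3 (Pf.C 86 0x618284) (Pf.C 41 388)) (Pf.C 40 646)))
 (Pq.cons (Pq.L [] 5 (Pf.B 4 3 (Pf.C 60 49796) (Pf.C 7 388)))
 (Pq.cons (Pq.L [1] 1 (Pf.C 54 49285))
 Pq.nil)))))) (Pq.cons (Pq.D 0 (Pq.cons (Pq.L [] 2 (Pf.C 7 390))
 (Pq.cons (Pq.L [] 1 (Pf.C 16 389))
 (Pq.cons (Pq.L [] 2 (Pf.C 41 771))
 (Pq.cons (Pq.L [] 2 (Pf.C 7 390))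
 (Pq.cons (Pq.L [1] 1 (Pf.C 54 49285))
 Pq.nil)))))) (Pq.cons (Pq.D 0 (Pq.cons (Pq.L [] 1 (Pf.C 10 643))
 (Pq.cons (Pq.L [] 1 (Pf.C 16 389))
 (Pq.cons (Pq.L [] 2 (Pf.C 26 771))
 (Pq.cons (Pq.L [] 2 (Pf.C 27 771))
 (Pq.cons (Pq.L [1] 1 (Pf.C 54 49285))
 Pq.nil)))))) Pq.nil)))) (Pq.cons (Pq.D 3 (Pq.cons (Pq.D 0 (Pq.cons (Pq.L [] 1 (Pf.C 10 643))
 (Pq.cons (Pq.L [] 1 (Pf.C 16 389))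
 (Pq.cons (Pq.L [] 10 (Pf.B 4 3 (Pf.C 60 66307) (Pf.C 7 515)))
 (Pq.cons (Pq.L [] 15 (Pf.B 6 5 (Pf.B 4 3 (Pf.C 86 0x618284) (Pf.C 13 388)) (Pf.C 40 646)))
 (Pq.cons (Pq.L [1] 1 (Pf.C 54 49285))
 Pq.nil)))))) (Pq.cons (Pq.D 0 (Pq.cons (Pq.L [] 2 (Pf.C 7 390))
 (Pq.cons (Pq.L [] 1 (Pf.C 16 389))
 (Pq.cons (Pq.L [] 2 (Pf.C 41 771))
 (Pq.cons (Pq.L [] 2 (Pf.C 7 390))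
 (Pq.cons (Pq.L [1] 1 (Pf.C 54 49285))
 Pq.nil)))))) (Pq.cons (Pq.D 0 (Pq.cons (Pq.L [] 1 (Pf.C 10 643))
 (Pq.cons (Pq.L [] 1 (Pf.C 16 389))
 (Pq.cons (Pq.L [] 2 (Pf.C 26 771))
 (Pq.cons (Pq.L [] 2 (Pf.C 27 771))
 (Pq.cons (Pq.L [1] 1 (Pf.C 54 49285))
 Pq.nil)))))) Pq.nil)))) (Pq.cons (Pq.D 3 (Pq.cons (Pq.L [1] 8 (Pf.C 54 65670))
 (Pq.cons (Pq.D 0 (Pq.cons (Pq.L [] 2 (Pf.C 7 390))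
 (Pq.cons (Pq.L [] 1 (Pf.C 16 389))
 (Pq.cons (Pq.L [] 2 (Pf.C 41 771))
 (Pq.cons (Pq.L [] 2 (Pf.C 7 390))
 (Pq.cons (Pq.L [1] 1 (Pf.C 54 49285))
 Pq.nil)))))) (Pq.cons (Pq.L [1] 8 (Pf.C 55 66305))
 Pq.nil)))) Pq.nil)))))) (Pq.cons (Pq.D 1 (Pq.cons (Pq.L [] 4 (Pf.C 7 517))
 (Pq.cons (Pq.D 3 (Pq.cons (Pq.L [] 8 (Pf.C 16 518))
 (Pq.cons (Pq.D 0 (Pq.cons (Pq.L [] 2 (Pf.C 7 390))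
 (Pq.cons (Pq.L [] 15 (Pf.B 6 5 (Pf.B 4 3 (Pf.C 80 0x618284) (Pf.C 4 388)) (Pf.C 41 646)))
 (Pq.cons (Pq.L [] 2 (Pf.C 41 771))
 (Pq.cons (Pq.L [] 2 (Pf.C 7 390))
 (Pq.cons (Pq.L [] 5 (Pf.B 4 3 (Pf.C 46 49796) (Pf.C 4 388)))
 Pq.nil)))))) (Pq.cons (Pq.L [] 12 (Pf.B 6 5 (Pf.C 58 98821) (Pf.C 26 773)))
 Pq.nil)))) (Pq.cons (Pq.L [] 4 (Pf.C 41 644))
 (Pq.cons (Pq.L [] 4 (Pf.C 7 517))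
 (Pq.cons (Pq.D 3 (Pq.cons (Pq.L [1] 8 (Pf.C 54 65670))
 (Pq.cons (Pq.D 0 (Pq.cons (Pq.L [] 2 (Pf.C 7 390))
 (Pq.cons (Pq.L [] 10 (Pf.B 4 3 (Pf.C 46 66307) (Pf.C 4 388)))
 (Pq.cons (Pq.L [] 2 (Pf.C 41 771))
 (Pq.cons (Pq.L [] 2 (Pf.C 7 390))
 (Pq.cons (Pq.L [] 15 (Pf.B 6 5 (Pf.B 4 3 (Pf.C 79 0xc0c205) (Pf.C 2 388)) (Pf.C 41 646)))
 Pq.nil)))))) (Pq.cons (Pq.L [1] 8 (Pf.C 55 66305))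
 Pq.nil)))) Pq.nil)))))) (Pq.cons (Pq.D 1 (Pq.cons (Pq.D 3 (Pq.cons (Pq.L [] 8 (Pf.C 10 772))
 (Pq.cons (Pq.D 0 (Pq.cons (Pq.L [] 2 (Pf.C 7 390))
 (Pq.cons (Pq.L [] 3 (Pf.B 6 5 (Pf.C 58 82310) (Pf.C 26 646)))
 (Pq.cons (Pq.L [] 2 (Pf.C 41 771))
 (Pq.cons (Pq.L [] 2 (Pf.C 7 390))
 (Pq.cons (Pq.L [1] 1 (Pf.C 55 49793))
 Pq.nil)))))) (Pq.cons (Pq.D 0 (Pq.cons (Pq.L [] 15 (Pf.B 6 5 (Pf.B 4 3 (Pf.C 86 0x618284) (Pf.C 39 388)) (Pf.C 12 646)))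
 (Pq.cons (Pq.L [] 5 (Pf.B 4 3 (Pf.C 59 49796) (Pf.C 18 388)))
 (Pq.cons (Pq.L [] 2 (Pf.C 26 771))
 (Pq.cons (Pq.L [] 2 (Pf.C 27 771))
 (Pq.cons (Pq.L [1] 1 (Pf.C 55 49793))
 Pq.nil)))))) Pq.nil)))) (Pq.cons (Pq.D 3 (Pq.cons (Pq.L [] 8 (Pf.C 16 518))
 (Pq.cons (Pq.D 0 (Pq.cons (Pq.L [] 2 (Pf.C 7 390))
 (Pq.cons (Pq.L [] 3 (Pf.B 6 5 (Pf.C 58 82310) (Pf.C 26 646)))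
 (Pq.cons (Pq.L [] 2 (Pf.C 41 771))
 (Pq.cons (Pq.L [] 2 (Pf.C 7 390))
 (Pq.cons (Pq.L [1] 1 (Pf.C 55 49793))
 Pq.nil)))))) (Pq.cons (Pq.D 0 (Pq.cons (Pq.L [] 10 (Pf.B 4 3 (Pf.C 59 66307) (Pf.C 18 515)))
 (Pq.cons (Pq.L [] 15 (Pf.B 6 5 (Pf.B 4 3 (Pf.C 85 0xc0c205) (Pf.C 4 388)) (Pf.C 12 646)))
 (Pq.cons (Pq.L [] 2 (Pf.C 26 771))
 (Pq.cons (Pq.L [] 2 (Pf.C 27 771))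
 (Pq.cons (Pq.L [1] 1 (Pf.C 55 49793))
 Pq.nil)))))) Pq.nil)))) (Pq.cons (Pq.L [] 4 (Pf.C 26 644))
 (Pq.cons (Pq.L [] 4 (Pf.C 27 644))
 (Pq.cons (Pq.D 3 (Pq.cons (Pq.L [1] 8 (Pf.C 54 65670))
 (Pq.cons (Pq.D 0 (Pq.cons (Pq.L [] 2 (Pf.C 7 390))
 (Pq.cons (Pq.L [] 3 (Pf.B 6 5 (Pf.C 58 82310) (Pf.C 26 646)))
 (Pq.cons (Pq.L [] 2 (Pf.C 41 771))
 (Pq.cons (Pq.L [] 2 (Pf.C 7 390))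
 (Pq.cons (Pq.L [1] 1 (Pf.C 55 49793))
 Pq.nil)))))) (Pq.cons (Pq.L [1] 8 (Pf.C 55 66305))
 Pq.nil)))) Pq.nil)))))) Pq.nil)))) Pq.nil))))))
theorem f2_o100 : AllRef f2_T f2_G65 (List.take 6 (applyObl f3_T 8 [76,79,80,81,84,85,86,88,89,90,91,94,95] [1,2,3,1,2,1,1,2,3,3,3,3,1] [])) :=
  chkPq_sound f2_o100c _ (by decide +kernel)
noncomputable def f2_o101c : Pq := (Pq.cons (Pq.D 0 (Pq.cons (Pq.D 3 (Pq.cons (Pq.D 1 (Pq.cons (Pq.L [] 8 (Pf.C 10 772))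
 (Pq.cons (Pq.L [] 8 (Pf.C 16 518))
 (Pq.cons (Pq.L [2] 8 (Pf.C 54 33286))
 (Pq.cons (Pq.L [2] 8 (Pf.C 55 33540))
 (Pq.cons (Pq.D 2 (Pq.cons (Pq.L [] 1 (Pf.C 10 643))
 (Pq.cons (Pq.L [] 1 (Pf.C 5 643))
 (Pq.cons (Pq.L [2] 1 (Pf.C 56 33157))
 (Pq.cons (Pq.L [] 4 (Pf.C 2 644))
 (Pq.cons (Pq.L [] 4 (Pf.C 2 644))
 Pq.nil)))))) Pq.nil)))))) (Pq.cons (Pq.D 1 (Pq.cons (Pq.L [] 8 (Pf.C 5 772))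
 (Pq.cons (Pq.D 2 (Pq.cons (Pq.L [] 1 (Pf.C 10 643))
 (Pq.cons (Pq.L [] 1 (Pf.C 5 643))
 (Pq.cons (Pq.L [2] 1 (Pf.C 56 33157))
 (Pq.cons (Pq.L [] 4 (Pf.C 25 644))
 (Pq.cons (Pq.L [] 4 (Pf.C 4 644))
 Pq.nil)))))) (Pq.cons (Pq.L [] 8 (Pf.C 9 518))
 (Pq.cons (Pq.L [2] 8 (Pf.C 52 33540))
 (Pq.cons (Pq.D 2 (Pq.cons (Pq.L [] 1 (Pf.C 10 643))
 (Pq.cons (Pq.L [] 1 (Pf.C 5 643))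
 (Pq.cons (Pq.L [2] 1 (Pf.C 56 33157))
 (Pq.cons (Pq.L [] 4 (Pf.C 2 644))
 (Pq.cons (Pq.L [] 4 (Pf.C 2 644))
 Pq.nil)))))) Pq.nil)))))) (Pq.cons (Pq.D 1 (Pq.cons (Pq.L [2] 8 (Pf.C 56 33286))
 (Pq.cons (Pq.D 2 (Pq.cons (Pq.L [] 1 (Pf.C 10 643))
 (Pq.cons (Pq.L [] 1 (Pf.C 5 643))
 (Pq.cons (Pq.L [2] 1 (Pf.C 56 33157))
 (Pq.cons (Pq.L [] 4 (Pf.C 25 644))
 (Pq.cons (Pq.L [] 4 (Pf.C 4 644))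
 Pq.nil)))))) (Pq.cons (Pq.L [2] 8 (Pf.C 54 33286))
 (Pq.cons (Pq.L [0,1] 8 (Pf.C 76 0xc04004))
 (Pq.cons (Pq.D 2 (Pq.cons (Pq.L [] 1 (Pf.C 10 643))
 (Pq.cons (Pq.L [] 1 (Pf.C 5 643))
 (Pq.cons (Pq.L [2] 1 (Pf.C 56 33157))
 (Pq.cons (Pq.L [] 4 (Pf.C 2 644))
 (Pq.cons (Pq.L [] 4 (Pf.C 2 644))
 Pq.nil)))))) Pq.nil)))))) (Pq.cons (Pq.D 1 (Pq.cons (Pq.D 2 (Pq.cons (Pq.L [] 1 (Pf.C 10 643))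
 (Pq.cons (Pq.L [] 1 (Pf.C 5 643))
 (Pq.cons (Pq.L [2] 1 (Pf.C 56 33157))
 (Pq.cons (Pq.L [] 15 (Pf.B 6 5 (Pf.B 4 3 (Pf.C 78 0xc0c205) (Pf.C 39 388)) (Pf.C 2 646)))
 (Pq.cons (Pq.L [] 4 (Pf.C 21 644))
 Pq.nil)))))) (Pq.cons (Pq.D 2 (Pq.cons (Pq.L [] 1 (Pf.C 10 643))
 (Pq.cons (Pq.L [] 1 (Pf.C 5 643))
 (Pq.cons (Pq.L [2] 1 (Pf.C 56 33157))
 (Pq.cons (Pq.L [] 4 (Pf.C 25 644))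
 (Pq.cons (Pq.L [] 4 (Pf.C 4 644))
 Pq.nil)))))) (Pq.cons (Pq.L [] 8 (Pf.C 14 772))
 (Pq.cons (Pq.L [] 10 (Pf.B 4 3 (Pf.C 45 66307) (Pf.C 19 515)))
 (Pq.cons (Pq.D 2 (Pq.cons (Pq.L [] 1 (Pf.C 10 643))
 (Pq.cons (Pq.L [] 1 (Pf.C 5 643))
 (Pq.cons (Pq.L [2] 1 (Pf.C 56 33157))
 (Pq.cons (Pq.L [] 4 (Pf.C 2 644))
 (Pq.cons (Pq.L [] 4 (Pf.C 2 644))
 Pq.nil)))))) Pq.nil)))))) (Pq.cons (Pq.L [] 2 (Pf.C 21 771))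
 Pq.nil)))))) (Pq.cons (Pq.D 3 (Pq.cons (Pq.D 1 (Pq.cons (Pq.L [] 8 (Pf.C 10 772))
 (Pq.cons (Pq.L [] 8 (Pf.C 16 518))
 (Pq.cons (Pq.L [2] 8 (Pf.C 54 33286))
 (Pq.cons (Pq.L [2] 8 (Pf.C 55 33540))
 (Pq.cons (Pq.D 2 (Pq.cons (Pq.L [] 1 (Pf.C 16 389))
 (Pq.cons (Pq.L [] 4 (Pf.C 34 517))
 (Pq.cons (Pq.L [] 4 (Pf.C 38 517))
 (Pq.cons (Pq.L [] 4 (Pf.C 2 644))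
 (Pq.cons (Pq.L [] 4 (Pf.C 2 644))
 Pq.nil)))))) Pq.nil)))))) (Pq.cons (Pq.D 1 (Pq.cons (Pq.L [] 8 (Pf.C 5 772))
 (Pq.cons (Pq.D 2 (Pq.cons (Pq.L [] 1 (Pf.C 16 389))
 (Pq.cons (Pq.L [] 15 (Pf.B 6 5 (Pf.B 4 3 (Pf.C 78 0xc0c205) (Pf.C 4 388)) (Pf.C 42 646)))
 (Pq.cons (Pq.L [] 3 (Pf.B 6 5 (Pf.C 44 82310) (Pf.C 32 646)))
 (Pq.cons (Pq.L [] 4 (Pf.C 25 644))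
 (Pq.cons (Pq.L [] 4 (Pf.C 4 644))
 Pq.nil)))))) (Pq.cons (Pq.L [] 8 (Pf.C 9 518))
 (Pq.cons (Pq.L [2] 8 (Pf.C 52 33540))
 (Pq.cons (Pq.D 2 (Pq.cons (Pq.L [] 1 (Pf.C 16 389))
 (Pq.cons (Pq.L [] 4 (Pf.C 34 517))
 (Pq.cons (Pq.L [] 4 (Pf.C 38 517))
 (Pq.cons (Pq.L [] 4 (Pf.C 2 644))
 (Pq.cons (Pq.L [] 4 (Pf.C 2 644))
 Pq.nil)))))) Pq.nil)))))) (Pq.cons (Pq.D 1 (Pq.cons (Pq.L [2] 8 (Pf.C 56 33286))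
 (Pq.cons (Pq.D 2 (Pq.cons (Pq.L [] 1 (Pf.C 16 389))
 (Pq.cons (Pq.L [] 12 (Pf.B 6 5 (Pf.C 44 98821) (Pf.C 32 773)))
 (Pq.cons (Pq.L [] 15 (Pf.B 6 5 (Pf.B 4 3 (Pf.C 77 0x618284) (Pf.C 4 388)) (Pf.C 11 646)))
 (Pq.cons (Pq.L [] 4 (Pf.C 25 644))
 (Pq.cons (Pq.L [] 4 (Pf.C 4 644))
 Pq.nil)))))) (Pq.cons (Pq.L [2] 8 (Pf.C 54 33286))
 (Pq.cons (Pq.L [0,1] 8 (Pf.C 76 0xc04004))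
 (Pq.cons (Pq.D 2 (Pq.cons (Pq.L [] 1 (Pf.C 16 389))
 (Pq.cons (Pq.L [] 4 (Pf.C 34 517))
 (Pq.cons (Pq.L [] 4 (Pf.C 38 517))
 (Pq.cons (Pq.L [] 4 (Pf.C 2 644))
 (Pq.cons (Pq.L [] 4 (Pf.C 2 644))
 Pq.nil)))))) Pq.nil)))))) (Pq.cons (Pq.L [] 2 (Pf.C 25 771))
 (Pq.cons (Pq.L [] 2 (Pf.C 4 771))
 Pq.nil)))))) (Pq.cons (Pq.D 3 (Pq.cons (Pq.D 1 (Pq.cons (Pq.L [] 8 (Pf.C 10 772))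
 (Pq.cons (Pq.L [] 8 (Pf.C 16 518))
 (Pq.cons (Pq.L [2] 8 (Pf.C 54 33286))
 (Pq.cons (Pq.L [2] 8 (Pf.C 55 33540))
 (Pq.cons (Pq.D 2 (Pq.cons (Pq.L [2] 1 (Pf.C 54 33157))
 (Pq.cons (Pq.L [] 1 (Pf.C 9 389))
 (Pq.cons (Pq.L [2] 1 (Pf.C 54 33157))
 (Pq.cons (Pq.L [] 1 (Pf.C 14 643))
 (Pq.cons (Pq.L [] 4 (Pf.C 2 644))
 Pq.nil)))))) Pq.nil)))))) (Pq.cons (Pq.D 1 (Pq.cons (Pq.L [] 8 (Pf.C 5 772))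
 (Pq.cons (Pq.D 2 (Pq.cons (Pq.L [2] 1 (Pf.C 54 33157))
 (Pq.cons (Pq.L [] 1 (Pf.C 9 389))
 (Pq.cons (Pq.L [2] 1 (Pf.C 54 33157))
 (Pq.cons (Pq.L [] 1 (Pf.C 14 643))
 (Pq.cons (Pq.L [] 4 (Pf.C 4 644))
 Pq.nil)))))) (Pq.cons (Pq.L [] 8 (Pf.C 9 518))
 (Pq.cons (Pq.L [2] 8 (Pf.C 52 33540))
 (Pq.cons (Pq.D 2 (Pq.cons (Pq.L [2] 1 (Pf.C 54 33157))
 (Pq.cons (Pq.L [] 1 (Pf.C 9 389))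
 (Pq.cons (Pq.L [2] 1 (Pf.C 54 33157))
 (Pq.cons (Pq.L [] 1 (Pf.C 14 643))
 (Pq.cons (Pq.L [] 4 (Pf.C 2 644))
 Pq.nil)))))) Pq.nil)))))) (Pq.cons (Pq.D 1 (Pq.cons (Pq.L [2] 8 (Pf.C 56 33286))
 (Pq.cons (Pq.D 2 (Pq.cons (Pq.L [2] 1 (Pf.C 54 33157))
 (Pq.cons (Pq.L [] 1 (Pf.C 9 389))
 (Pq.cons (Pq.L [2] 1 (Pf.C 54 33157))
 (Pq.cons (Pq.L [] 1 (Pf.C 14 643))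
 (Pq.cons (Pq.L [] 4 (Pf.C 4 644))
 Pq.nil)))))) (Pq.cons (Pq.L [2] 8 (Pf.C 54 33286))
 (Pq.cons (Pq.L [0,1] 8 (Pf.C 76 0xc04004))
 (Pq.cons (Pq.D 2 (Pq.cons (Pq.L [2] 1 (Pf.C 54 33157))
 (Pq.cons (Pq.L [] 1 (Pf.C 9 389))
 (Pq.cons (Pq.L [2] 1 (Pf.C 54 33157))
 (Pq.cons (Pq.L [] 1 (Pf.C 14 643))
 (Pq.cons (Pq.L [] 4 (Pf.C 2 644))
 Pq.nil)))))) Pq.nil)))))) (Pq.cons (Pq.D 1 (Pq.cons (Pq.D 2 (Pq.cons (Pq.L [2] 1 (Pf.C 54 33157))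
 (Pq.cons (Pq.L [] 1 (Pf.C 9 389))
 (Pq.cons (Pq.L [2] 1 (Pf.C 54 33157))
 (Pq.cons (Pq.L [] 1 (Pf.C 14 643))
 (Pq.cons (Pq.L [] 4 (Pf.C 21 644))
 Pq.nil)))))) (Pq.cons (Pq.D 2 (Pq.cons (Pq.L [2] 1 (Pf.C 54 33157))
 (Pq.cons (Pq.L [] 1 (Pf.C 9 389))
 (Pq.cons (Pq.L [2] 1 (Pf.C 54 33157))
 (Pq.cons (Pq.L [] 1 (Pf.C 14 643))
 (Pq.cons (Pq.L [] 4 (Pf.C 4 644))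
 Pq.nil)))))) (Pq.cons (Pq.L [] 8 (Pf.C 14 772))
 (Pq.cons (Pq.D 2 (Pq.cons (Pq.L [2] 1 (Pf.C 54 33157))
 (Pq.cons (Pq.L [] 1 (Pf.C 9 389))
 (Pq.cons (Pq.L [2] 1 (Pf.C 54 33157))
 (Pq.cons (Pq.L [] 1 (Pf.C 14 643))
 (Pq.cons (Pq.L [] 4 (Pf.C 29 644))
 Pq.nil)))))) (Pq.cons (Pq.D 2 (Pq.cons (Pq.L [2] 1 (Pf.C 54 33157))
 (Pq.cons (Pq.L [] 1 (Pf.C 9 389))
 (Pq.cons (Pq.L [2] 1 (Pf.C 54 33157))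
 (Pq.cons (Pq.L [] 1 (Pf.C 14 643))
 (Pq.cons (Pq.L [] 4 (Pf.C 2 644))
 Pq.nil)))))) Pq.nil)))))) (Pq.cons (Pq.D 1 (Pq.cons (Pq.D 2 (Pq.cons (Pq.L [2] 1 (Pf.C 54 33157))
 (Pq.cons (Pq.L [] 1 (Pf.C 9 389))
 (Pq.cons (Pq.L [2] 1 (Pf.C 54 33157))
 (Pq.cons (Pq.L [] 1 (Pf.C 14 643))
 (Pq.cons (Pq.L [] 4 (Pf.C 21 644))
 Pq.nil)))))) (Pq.cons (Pq.D 2 (Pq.cons (Pq.L [2] 1 (Pf.C 54 33157))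
 (Pq.cons (Pq.L [] 1 (Pf.C 9 389))
 (Pq.cons (Pq.L [2] 1 (Pf.C 54 33157))
 (Pq.cons (Pq.L [] 1 (Pf.C 14 643))
 (Pq.cons (Pq.L [] 4 (Pf.C 4 644))
 Pq.nil)))))) (Pq.cons (Pq.D 2 (Pq.cons (Pq.L [2] 1 (Pf.C 54 33157))
 (Pq.cons (Pq.L [] 1 (Pf.C 9 389))
 (Pq.cons (Pq.L [2] 1 (Pf.C 54 33157))
 (Pq.cons (Pq.L [] 1 (Pf.C 14 643))
 (Pq.cons (Pq.L [] 15 (Pf.B 6 5 (Pf.B 4 3 (Pf.C 79 0x618284) (Pf.C 41 388)) (Pf.C 2 646)))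
 Pq.nil)))))) (Pq.cons (Pq.D 2 (Pq.cons (Pq.L [2] 1 (Pf.C 54 33157))
 (Pq.cons (Pq.L [] 1 (Pf.C 9 389))
 (Pq.cons (Pq.L [2] 1 (Pf.C 54 33157))
 (Pq.cons (Pq.L [] 1 (Pf.C 14 643))
 (Pq.cons (Pq.L [] 4 (Pf.C 29 644))
 Pq.nil)))))) (Pq.cons (Pq.D 2 (Pq.cons (Pq.L [2] 1 (Pf.C 54 33157))
 (Pq.cons (Pq.L [] 1 (Pf.C 9 389))
 (Pq.cons (Pq.L [2] 1 (Pf.C 54 33157))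
 (Pq.cons (Pq.L [] 1 (Pf.C 14 643))
 (Pq.cons (Pq.L [] 4 (Pf.C 2 644))
 Pq.nil)))))) Pq.nil)))))) Pq.nil)))))) (Pq.cons (Pq.D 3 (Pq.cons (Pq.D 1 (Pq.cons (Pq.L [] 8 (Pf.C 10 772))
 (Pq.cons (Pq.L [] 8 (Pf.C 16 518))
 (Pq.cons (Pq.L [2] 8 (Pf.C 54 33286))
 (Pq.cons (Pq.L [2] 8 (Pf.C 55 33540))
 (Pq.cons (Pq.D 2 (Pq.cons (Pq.L [2] 1 (Pf.C 55 33411))
 (Pq.cons (Pq.L [2] 1 (Pf.C 52 33411))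
 (Pq.cons (Pq.L [0,1] 1 (Pf.C 76 0xa04003))
 (Pq.cons (Pq.L [] 4 (Pf.C 2 644))
 (Pq.cons (Pq.L [] 4 (Pf.C 2 644))
 Pq.nil)))))) Pq.nil)))))) (Pq.cons (Pq.D 1 (Pq.cons (Pq.L [] 8 (Pf.C 5 772))
 (Pq.cons (Pq.D 2 (Pq.cons (Pq.L [2] 1 (Pf.C 55 33411))
 (Pq.cons (Pq.L [2] 1 (Pf.C 52 33411))
 (Pq.cons (Pq.L [0,1] 1 (Pf.C 76 0xa04003))
 (Pq.cons (Pq.L [] 4 (Pf.C 25 644))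
 (Pq.cons (Pq.L [] 4 (Pf.C 4 644))
 Pq.nil)))))) (Pq.cons (Pq.L [] 8 (Pf.C 9 518))
 (Pq.cons (Pq.L [2] 8 (Pf.C 52 33540))
 (Pq.cons (Pq.D 2 (Pq.cons (Pq.L [2] 1 (Pf.C 55 33411))
 (Pq.cons (Pq.L [2] 1 (Pf.C 52 33411))
 (Pq.cons (Pq.L [0,1] 1 (Pf.C 76 0xa04003))
 (Pq.cons (Pq.L [] 4 (Pf.C 2 644))
 (Pq.cons (Pq.L [] 4 (Pf.C 2 644))
 Pq.nil)))))) Pq.nil)))))) (Pq.cons (Pq.D 1 (Pq.cons (Pq.L [2] 8 (Pf.C 56 33286))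
 (Pq.cons (Pq.D 2 (Pq.cons (Pq.L [2] 1 (Pf.C 55 33411))
 (Pq.cons (Pq.L [2] 1 (Pf.C 52 33411))
 (Pq.cons (Pq.L [0,1] 1 (Pf.C 76 0xa04003))
 (Pq.cons (Pq.L [] 4 (Pf.C 25 644))
 (Pq.cons (Pq.L [] 4 (Pf.C 4 644))
 Pq.nil)))))) (Pq.cons (Pq.L [2] 8 (Pf.C 54 33286))
 (Pq.cons (Pq.L [0,1] 8 (Pf.C 76 0xc04004))
 (Pq.cons (Pq.D 2 (Pq.cons (Pq.L [2] 1 (Pf.C 55 33411))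
 (Pq.cons (Pq.L [2] 1 (Pf.C 52 33411))
 (Pq.cons (Pq.L [0,1] 1 (Pf.C 76 0xa04003))
 (Pq.cons (Pq.L [] 4 (Pf.C 2 644))
 (Pq.cons (Pq.L [] 4 (Pf.C 2 644))
 Pq.nil)))))) Pq.nil)))))) (Pq.cons (Pq.D 1 (Pq.cons (Pq.D 2 (Pq.cons (Pq.L [2] 1 (Pf.C 55 33411))
 (Pq.cons (Pq.L [2] 1 (Pf.C 52 33411))
 (Pq.cons (Pq.L [0,1] 1 (Pf.C 76 0xa04003))
 (Pq.cons (Pq.L [] 5 (Pf.B 4 3 (Pf.C 45 49796) (Pf.C 19 388)))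
 (Pq.cons (Pq.L [] 4 (Pf.C 21 644))
 Pq.nil)))))) (Pq.cons (Pq.D 2 (Pq.cons (Pq.L [2] 1 (Pf.C 55 33411))
 (Pq.cons (Pq.L [2] 1 (Pf.C 52 33411))
 (Pq.cons (Pq.L [0,1] 1 (Pf.C 76 0xa04003))
 (Pq.cons (Pq.L [] 4 (Pf.C 25 644))
 (Pq.cons (Pq.L [] 4 (Pf.C 4 644))
 Pq.nil)))))) (Pq.cons (Pq.L [] 8 (Pf.C 14 772))
 (Pq.cons (Pq.D 2 (Pq.cons (Pq.L [2] 1 (Pf.C 55 33411))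
 (Pq.cons (Pq.L [2] 1 (Pf.C 52 33411))
 (Pq.cons (Pq.L [0,1] 1 (Pf.C 76 0xa04003))
 (Pq.cons (Pq.L [] 15 (Pf.B 6 5 (Pf.B 4 3 (Pf.C 79 0x618284) (Pf.C 13 388)) (Pf.C 2 646)))
 (Pq.cons (Pq.L [] 4 (Pf.C 29 644))
 Pq.nil)))))) (Pq.cons (Pq.D 2 (Pq.cons (Pq.L [2] 1 (Pf.C 55 33411))
 (Pq.cons (Pq.L [2] 1 (Pf.C 52 33411))
 (Pq.cons (Pq.L [0,1] 1 (Pf.C 76 0xa04003))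
 (Pq.cons (Pq.L [] 4 (Pf.C 2 644))
 (Pq.cons (Pq.L [] 4 (Pf.C 2 644))
 Pq.nil)))))) Pq.nil)))))) (Pq.cons (Pq.L [] 2 (Pf.C 29 771))
 Pq.nil)))))) (Pq.cons (Pq.D 3 (Pq.cons (Pq.D 1 (Pq.cons (Pq.L [] 8 (Pf.C 10 772))
 (Pq.cons (Pq.L [] 8 (Pf.C 16 518))
 (Pq.cons (Pq.L [2] 8 (Pf.C 54 33286))
 (Pq.cons (Pq.L [2] 8 (Pf.C 55 33540))
 (Pq.cons (Pq.D 2 (Pq.cons (Pq.L [] 15 (Pf.B 6 5 (Pf.B 4 3 (Pf.C 77 0x618284) (Pf.C 2 388)) (Pf.C 40 646)))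
 (Pq.cons (Pq.L [] 4 (Pf.C 34 517))
 (Pq.cons (Pq.L [] 4 (Pf.C 38 517))
 (Pq.cons (Pq.L [] 4 (Pf.C 2 644))
 (Pq.cons (Pq.L [] 4 (Pf.C 2 644))
 Pq.nil)))))) Pq.nil)))))) (Pq.cons (Pq.L [] 2 (Pf.C 34 390))
 (Pq.cons (Pq.L [] 2 (Pf.C 38 390))
 (Pq.cons (Pq.L [] 2 (Pf.C 2 771))
 (Pq.cons (Pq.L [] 2 (Pf.C 2 771))
 Pq.nil)))))) Pq.nil)))))) (Pq.cons (Pq.D 0 (Pq.cons (Pq.D 3 (Pq.cons (Pq.L [] 2 (Pf.C 40 771))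
 (Pq.cons (Pq.L [] 2 (Pf.C 8 771))
 (Pq.cons (Pq.L [] 2 (Pf.C 8 771))
 (Pq.cons (Pq.D 1 (Pq.cons (Pq.D 2 (Pq.cons (Pq.L [] 4 (Pf.C 40 644))
 (Pq.cons (Pq.L [] 4 (Pf.C 8 644))
 (Pq.cons (Pq.L [] 4 (Pf.C 8 644))
 (Pq.cons (Pq.L [] 15 (Pf.B 6 5 (Pf.B 4 3 (Pf.C 77 0xc0c205) (Pf.C 40 388)) (Pf.C 2 646)))
 (Pq.cons (Pq.L [] 3 (Pf.B 6 5 (Pf.C 43 82310) (Pf.C 2 646)))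
 Pq.nil)))))) (Pq.cons (Pq.L [] 8 (Pf.C 14 772))
 (Pq.cons (Pq.L [] 10 (Pf.B 4 3 (Pf.C 63 66307) (Pf.C 22 515)))
 Pq.nil)))) (Pq.cons (Pq.D 1 (Pq.cons (Pq.D 2 (Pq.cons (Pq.L [] 4 (Pf.C 40 644))
 (Pq.cons (Pq.L [] 4 (Pf.C 8 644))
 (Pq.cons (Pq.L [] 4 (Pf.C 8 644))
 (Pq.cons (Pq.L [] 12 (Pf.B 6 5 (Pf.C 43 98821) (Pf.C 2 646)))
 (Pq.cons (Pq.L [] 15 (Pf.B 6 5 (Pf.B 4 3 (Pf.C 77 0xc0c205) (Pf.C 40 388)) (Pf.C 2 646)))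
 Pq.nil)))))) (Pq.cons (Pq.L [0] 8 (Pf.C 54 98816))
 (Pq.cons (Pq.L [0] 8 (Pf.C 54 98816))
 Pq.nil)))) Pq.nil)))))) (Pq.cons (Pq.D 3 (Pq.cons (Pq.D 1 (Pq.cons (Pq.D 2 (Pq.cons (Pq.L [] 4 (Pf.C 40 644))
 (Pq.cons (Pq.L [] 1 (Pf.C 9 389))
 (Pq.cons (Pq.L [] 4 (Pf.C 8 644))
 (Pq.cons (Pq.L [] 1 (Pf.C 14 643))
 (Pq.cons (Pq.L [0] 1 (Pf.C 54 82304))
 Pq.nil)))))) (Pq.cons (Pq.D 2 (Pq.cons (Pq.L [] 15 (Pf.B 6 5 (Pf.B 4 3 (Pf.C 86 0x618284) (Pf.C 41 388)) (Pf.C 40 646)))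
 (Pq.cons (Pq.L [] 1 (Pf.C 9 389))
 (Pq.cons (Pq.L [] 3 (Pf.B 6 5 (Pf.C 64 82310) (Pf.C 8 646)))
 (Pq.cons (Pq.L [] 1 (Pf.C 14 643))
 (Pq.cons (Pq.L [0] 1 (Pf.C 54 82304))
 Pq.nil)))))) (Pq.cons (Pq.D 2 (Pq.cons (Pq.L [] 4 (Pf.C 22 517))
 (Pq.cons (Pq.L [] 1 (Pf.C 9 389))
 (Pq.cons (Pq.L [] 4 (Pf.C 30 644))
 (Pq.cons (Pq.L [] 1 (Pf.C 14 643))
 (Pq.cons (Pq.L [0] 1 (Pf.C 54 82304))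
 Pq.nil)))))) Pq.nil)))) (Pq.cons (Pq.D 1 (Pq.cons (Pq.D 2 (Pq.cons (Pq.L [] 4 (Pf.C 40 644))
 (Pq.cons (Pq.L [] 1 (Pf.C 9 389))
 (Pq.cons (Pq.L [] 4 (Pf.C 8 644))
 (Pq.cons (Pq.L [] 1 (Pf.C 14 643))
 (Pq.cons (Pq.L [0] 1 (Pf.C 54 82304))
 Pq.nil)))))) (Pq.cons (Pq.L [] 8 (Pf.C 9 518))
 (Pq.cons (Pq.D 2 (Pq.cons (Pq.L [] 4 (Pf.C 22 517))
 (Pq.cons (Pq.L [] 1 (Pf.C 9 389))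
 (Pq.cons (Pq.L [] 4 (Pf.C 30 644))
 (Pq.cons (Pq.L [] 1 (Pf.C 14 643))
 (Pq.cons (Pq.L [0] 1 (Pf.C 54 82304))
 Pq.nil)))))) Pq.nil)))) (Pq.cons (Pq.D 1 (Pq.cons (Pq.D 2 (Pq.cons (Pq.L [] 4 (Pf.C 40 644))
 (Pq.cons (Pq.L [] 1 (Pf.C 9 389))
 (Pq.cons (Pq.L [] 4 (Pf.C 8 644))
 (Pq.cons (Pq.L [] 1 (Pf.C 14 643))
 (Pq.cons (Pq.L [0] 1 (Pf.C 54 82304))
 Pq.nil)))))) (Pq.cons (Pq.D 2 (Pq.cons (Pq.L [] 12 (Pf.B 6 5 (Pf.C 64 98821) (Pf.C 8 773)))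
 (Pq.cons (Pq.L [] 1 (Pf.C 9 389))
 (Pq.cons (Pq.L [] 15 (Pf.B 6 5 (Pf.B 4 3 (Pf.C 84 0x618284) (Pf.C 41 388)) (Pf.C 11 646)))
 (Pq.cons (Pq.L [] 1 (Pf.C 14 643))
 (Pq.cons (Pq.L [0] 1 (Pf.C 54 82304))
 Pq.nil)))))) (Pq.cons (Pq.D 2 (Pq.cons (Pq.L [] 4 (Pf.C 22 517))
 (Pq.cons (Pq.L [] 1 (Pf.C 9 389))
 (Pq.cons (Pq.L [] 4 (Pf.C 30 644))
 (Pq.cons (Pq.L [] 1 (Pf.C 14 643))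
 (Pq.cons (Pq.L [0] 1 (Pf.C 54 82304))
 Pq.nil)))))) Pq.nil)))) (Pq.cons (Pq.D 1 (Pq.cons (Pq.D 2 (Pq.cons (Pq.L [] 4 (Pf.C 40 644))
 (Pq.cons (Pq.L [] 1 (Pf.C 9 389))
 (Pq.cons (Pq.L [] 4 (Pf.C 8 644))
 (Pq.cons (Pq.L [] 1 (Pf.C 14 643))
 (Pq.cons (Pq.L [0] 1 (Pf.C 54 82304))
 Pq.nil)))))) (Pq.cons (Pq.L [] 8 (Pf.C 14 772))
 (Pq.cons (Pq.D 2 (Pq.cons (Pq.L [] 4 (Pf.C 22 517))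
 (Pq.cons (Pq.L [] 1 (Pf.C 9 389))
 (Pq.cons (Pq.L [] 4 (Pf.C 30 644))
 (Pq.cons (Pq.L [] 1 (Pf.C 14 643))
 (Pq.cons (Pq.L [0] 1 (Pf.C 54 82304))
 Pq.nil)))))) Pq.nil)))) (Pq.cons (Pq.D 1 (Pq.cons (Pq.D 2 (Pq.cons (Pq.L [] 4 (Pf.C 40 644))
 (Pq.cons (Pq.L [] 1 (Pf.C 9 389))
 (Pq.cons (Pq.L [] 4 (Pf.C 8 644))
 (Pq.cons (Pq.L [] 1 (Pf.C 14 643))
 (Pq.cons (Pq.L [0] 1 (Pf.C 54 82304))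
 Pq.nil)))))) (Pq.cons (Pq.L [0] 8 (Pf.C 54 98816))
 (Pq.cons (Pq.L [0] 8 (Pf.C 54 98816))
 Pq.nil)))) Pq.nil)))))) (Pq.cons (Pq.D 3 (Pq.cons (Pq.L [] 2 (Pf.C 22 390))
 (Pq.cons (Pq.D 1 (Pq.cons (Pq.D 2 (Pq.cons (Pq.L [] 4 (Pf.C 40 644))
 (Pq.cons (Pq.L [] 4 (Pf.C 8 644))
 (Pq.cons (Pq.L [] 4 (Pf.C 8 644))
 (Pq.cons (Pq.L [] 3 (Pf.B 6 5 (Pf.C 65 82310) (Pf.C 33 646)))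
 (Pq.cons (Pq.L [0] 1 (Pf.C 54 82304))
 Pq.nil)))))) (Pq.cons (Pq.L [] 8 (Pf.C 9 518))
 (Pq.cons (Pq.D 2 (Pq.cons (Pq.L [] 4 (Pf.C 22 517))
 (Pq.cons (Pq.L [] 15 (Pf.B 6 5 (Pf.B 4 3 (Pf.C 84 0x618284) (Pf.C 12 388)) (Pf.C 42 646)))
 (Pq.cons (Pq.L [] 4 (Pf.C 30 644))
 (Pq.cons (Pq.L [] 3 (Pf.B 6 5 (Pf.C 65 82310) (Pf.C 33 646)))
 (Pq.cons (Pq.L [0] 1 (Pf.C 54 82304))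
 Pq.nil)))))) Pq.nil)))) (Pq.cons (Pq.L [] 2 (Pf.C 30 771))
 (Pq.cons (Pq.D 1 (Pq.cons (Pq.D 2 (Pq.cons (Pq.L [] 4 (Pf.C 40 644))
 (Pq.cons (Pq.L [] 4 (Pf.C 8 644))
 (Pq.cons (Pq.L [] 4 (Pf.C 8 644))
 (Pq.cons (Pq.L [] 5 (Pf.B 4 3 (Pf.C 63 49796) (Pf.C 22 388)))
 (Pq.cons (Pq.L [0] 1 (Pf.C 54 82304))
 Pq.nil)))))) (Pq.cons (Pq.L [] 8 (Pf.C 14 772))
 (Pq.cons (Pq.D 2 (Pq.cons (Pq.L [] 4 (Pf.C 22 517))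
 (Pq.cons (Pq.L [] 12 (Pf.B 6 5 (Pf.C 65 98821) (Pf.C 33 773)))
 (Pq.cons (Pq.L [] 4 (Pf.C 30 644))
 (Pq.cons (Pq.L [] 15 (Pf.B 6 5 (Pf.B 4 3 (Pf.C 87 0x618284) (Pf.C 12 388)) (Pf.C 2 646)))
 (Pq.cons (Pq.L [0] 1 (Pf.C 54 82304))
 Pq.nil)))))) Pq.nil)))) (Pq.cons (Pq.D 1 (Pq.cons (Pq.D 2 (Pq.cons (Pq.L [] 4 (Pf.C 40 644))
 (Pq.cons (Pq.L [] 4 (Pf.C 8 644))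
 (Pq.cons (Pq.L [] 4 (Pf.C 8 644))
 (Pq.cons (Pq.L [] 12 (Pf.B 6 5 (Pf.C 43 98821) (Pf.C 2 646)))
 (Pq.cons (Pq.L [0] 1 (Pf.C 54 82304))
 Pq.nil)))))) (Pq.cons (Pq.L [0] 8 (Pf.C 54 98816))
 (Pq.cons (Pq.L [0] 8 (Pf.C 54 98816))
 Pq.nil)))) Pq.nil)))))) Pq.nil)))) Pq.nil))
theorem f2_o101 : AllRef f2_T f2_G65 (List.drop 6 (applyObl f3_T 8 [76,79,80,81,84,85,86,88,89,90,91,94,95] [1,2,3,1,2,1,1,2,3,3,3,3,1] [])) :=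
  chkPq_sound f2_o101c _ (by decide +kernel)
noncomputable def f2_o102c : Pq := (Pq.cons (Pq.L [2] 2 (Pf.C 54 33157))
 (Pq.cons (Pq.L [] 1 (Pf.C 22 388))
 (Pq.cons (Pq.L [1] 2 (Pf.C 54 49285))
 Pq.nil)))
theorem f2_o102 : AllRef f2_T f2_G65 (splitObl [78] [83,87,93]) :=
  chkPq_sound f2_o102c _ (by decide +kernel)
noncomputable def f2_o103c : Pq := (Pq.cons (Pq.L [] 1 (Pf.C 40 515))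
 Pq.nil)
theorem f2_o103 : AllRef f2_T f2_G65 (applyObl TD2 1 [78] [0] []) :=
  chkPq_sound f2_o103c _ (by decide +kernel)
noncomputable def f2_o104c : Pq := (Pq.cons (Pq.L [] 1 (Pf.C 26 388))
 (Pq.cons (Pq.L [0] 2 (Pf.C 54 49792))
 Pq.nil))
theorem f2_o104 : AllRef f2_T f2_G65 (splitObl [83] [87,93]) :=
  chkPq_sound f2_o104c _ (by decide +kernel)
noncomputable def f2_o105c : Pq := (Pq.cons (Pq.L [] 1 (Pf.C 41 515))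
 Pq.nil)
theorem f2_o105 : AllRef f2_T f2_G65 (applyObl TD2 1 [83] [0] []) :=
  chkPq_sound f2_o105c _ (by decide +kernel)
noncomputable def f2_o106c : Pq := (Pq.cons (Pq.L [0] 2 (Pf.C 54 49792))
 Pq.nil)
theorem f2_o106 : AllRef f2_T f2_G65 (splitObl [87] [93]) :=
  chkPq_sound f2_o106c _ (by decide +kernel)
noncomputable def f2_o107c : Pq := (Pq.cons (Pq.L [] 1 (Pf.C 12 515))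
 Pq.nil)
theorem f2_o107 : AllRef f2_T f2_G65 (applyObl TD2 1 [87] [0] []) :=
  chkPq_sound f2_o107c _ (by decide +kernel)
noncomputable def f2_o108c : Pq := (Pq.cons (Pq.L [] 1 (Pf.C 2 515))
 Pq.nil)
theorem f2_o108 : AllRef f2_T f2_G65 (applyObl TD2 1 [93] [0] []) :=
  chkPq_sound f2_o108c _ (by decide +kernel)
noncomputable def f2_o109c : Pq := Pq.nil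
theorem f2_o109 : AllRef f2_T f2_G1 (ptObl 1 PT.kid []) :=
  chkPq_sound f2_o109c _ (by decide +kernel)
noncomputable def f2_o110c : Pq := (Pq.cons (Pq.L [0,1,2] 0 (Pf.C 0 32899))
 (Pq.cons (Pq.L [0] 0 (Pf.C 39 3))
 Pq.nil))
theorem f2_o110 : AllRef f2_T f2_G66 (ptObl 96 (PT.br 0 (PT.br 1 (PT.br 2 PT.kid PT.kid) (PT.br 2 PT.kid PT.ref)) PT.ref) []) :=
  chkPq_sound f2_o110c _ (by decide +kernel)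
noncomputable def f2_o111c : Pq := (Pq.cons (Pq.L [0] 0 (Pf.C 10 384))
 (Pq.cons (Pq.L [0,2] 0 (Pf.C 70 33152))
 (Pq.cons (Pq.L [1] 0 (Pf.C 22 131))
 Pq.nil)))
theorem f2_o111 : AllRef f2_T f2_G67 (ptObl 2 (PT.br 0 PT.ref (PT.br 1 (PT.br 2 PT.kid PT.ref) PT.ref)) []) :=
  chkPq_sound f2_o111c _ (by decide +kernel)
noncomputable def f2_o112c : Pq := (Pq.cons (Pq.L [0,1] 0 (Pf.C 59 49280))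
 (Pq.cons (Pq.L [2] 0 (Pf.C 25 259))
 (Pq.cons (Pq.L [0] 0 (Pf.C 18 384))
 Pq.nil)))
theorem f2_o112 : AllRef f2_T f2_G68 (ptObl 3 (PT.br 0 (PT.br 1 PT.ref (PT.br 2 PT.kid PT.ref)) PT.ref) []) :=
  chkPq_sound f2_o112c _ (by decide +kernel)
noncomputable def f2_o113c : Pq := (Pq.cons (Pq.L [2] 0 (Pf.C 14 259))
 (Pq.cons (Pq.L [1] 0 (Pf.C 26 131))
 (Pq.cons (Pq.L [0] 0 (Pf.C 7 3))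
 Pq.nil)))
theorem f2_o113 : AllRef f2_T f2_G69 (ptObl 4 (PT.br 0 (PT.br 1 (PT.br 2 PT.ref PT.kid) PT.ref) PT.ref) []) :=
  chkPq_sound f2_o113c _ (by decide +kernel)
noncomputable def f2_o114c : Pq := (Pq.cons (Pq.L [0,2] 0 (Pf.C 45 49408))
 (Pq.cons (Pq.L [1] 0 (Pf.C 27 131))
 (Pq.cons (Pq.L [0] 0 (Pf.C 19 384))
 Pq.nil)))
theorem f2_o114 : AllRef f2_T f2_G70 (ptObl 5 (PT.br 0 (PT.br 1 (PT.br 2 PT.ref PT.kid) PT.ref) PT.ref) []) :=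
  chkPq_sound f2_o114c _ (by decide +kernel)
noncomputable def f2_o115c : Pq := Pq.nil
theorem f2_o115 : AllRef f2_T f2_G71 (ptObl 6 PT.kid []) :=
  chkPq_sound f2_o115c _ (by decide +kernel)
noncomputable def f2_o116c : Pq := (Pq.cons (Pq.L [1] 0 (Pf.C 12 131))
 (Pq.cons (Pq.L [0,1,2] 0 (Pf.C 0 0x208003))
 (Pq.cons (Pq.L [1] 0 (Pf.C 12 131))
 Pq.nil)))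
theorem f2_o116 : AllRef f2_T f2_G72 (ptObl 104 (PT.br 0 (PT.br 1 (PT.br 2 PT.kid PT.kid) PT.ref) (PT.br 1 (PT.br 2 PT.kid PT.ref) PT.ref)) []) :=
  chkPq_sound f2_o116c _ (by decide +kernel)
noncomputable def f2_o117c : Pq := (Pq.cons (Pq.L [0] 0 (Pf.C 5 384))
 (Pq.cons (Pq.L [2] 0 (Pf.C 33 259))
 (Pq.cons (Pq.L [0,1] 0 (Pf.C 71 49280))
 Pq.nil)))
theorem f2_o117 : AllRef f2_T f2_G73 (ptObl 7 (PT.br 0 PT.ref (PT.br 1 (PT.br 2 PT.kid PT.ref) PT.ref)) []) :=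
  chkPq_sound f2_o117c _ (by decide +kernel)
noncomputable def f2_o118c : Pq := (Pq.cons (Pq.L [0] 0 (Pf.C 20 384))
 Pq.nil)
theorem f2_o118 : AllRef f2_T f2_G74 (ptObl 8 PT.ref []) :=
  chkPq_sound f2_o118c _ (by decide +kernel)
noncomputable def f2_o119c : Pq := (Pq.cons (Pq.L [0,2] 0 (Pf.B 3 2 (Pf.C 44 49154) (Pf.C 37 259)))
 (Pq.cons (Pq.L [2] 0 (Pf.C 37 259))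
 (Pq.cons (Pq.L [1] 0 (Pf.C 30 385))
 Pq.nil)))
theorem f2_o119 : AllRef f2_T f2_G75 (ptObl 9 (PT.br 0 PT.ref (PT.br 1 (PT.br 2 PT.kid PT.ref) PT.ref)) []) :=
  chkPq_sound f2_o119c _ (by decide +kernel)
noncomputable def f2_o120c : Pq := Pq.nil
theorem f2_o120 : AllRef f2_T f2_G76 (ptObl 10 PT.kid []) :=
  chkPq_sound f2_o120c _ (by decide +kernel)
noncomputable def f2_o121c : Pq := (Pq.cons (Pq.L [2] 0 (Pf.C 2 259))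
 (Pq.cons (Pq.L [2] 0 (Pf.C 2 259))
 (Pq.cons (Pq.L [2] 0 (Pf.C 2 259))
 (Pq.cons (Pq.L [0,1,2] 0 (Pf.B 3 2 (Pf.C 0 0x404003) (Pf.C 2 259)))
 Pq.nil))))
theorem f2_o121 : AllRef f2_T f2_G77 (ptObl 110 (PT.br 0 (PT.br 1 (PT.br 2 PT.kid PT.ref) (PT.br 2 PT.kid PT.ref)) (PT.br 1 (PT.br 2 PT.kid PT.ref) PT.ref)) []) :=
  chkPq_sound f2_o121c _ (by decide +kernel)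
noncomputable def f2_o122c : Pq := (Pq.cons (Pq.L [2] 0 (Pf.C 2 259))
 (Pq.cons (Pq.L [2] 0 (Pf.C 2 259))
 (Pq.cons (Pq.L [0] 0 (Pf.C 21 384))
 Pq.nil)))
theorem f2_o122 : AllRef f2_T f2_G78 (ptObl 11 (PT.br 0 (PT.br 1 (PT.br 2 PT.kid PT.ref) (PT.br 2 PT.kid PT.ref)) PT.ref) []) :=
  chkPq_sound f2_o122c _ (by decide +kernel)
noncomputable def f2_o123c : Pq := (Pq.cons (Pq.L [] 1 (Pf.C 39 515))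
 (Pq.cons (Pq.L [] 1 (Pf.C 39 515))
 (Pq.cons (Pq.L [] 2 (Pf.C 10 389))
 (Pq.cons (Pq.L [] 1 (Pf.C 18 388))
 (Pq.cons (Pq.L [] 1 (Pf.C 7 515))
 (Pq.cons (Pq.L [] 1 (Pf.C 19 388))
 (Pq.cons (Pq.L [0,1] 1 (Pf.C 86 16772))
 (Pq.cons (Pq.L [2] 2 (Pf.C 53 49413))
 (Pq.cons (Pq.L [] 2 (Pf.C 5 389))
 (Pq.cons (Pq.L [0] 2 (Pf.C 48 49157))
 (Pq.cons (Pq.L [0,2] 1 (Pf.C 78 0x400203))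
 (Pq.cons (Pq.L [1] 2 (Pf.C 53 16773))
 (Pq.cons (Pq.L [] 1 (Pf.C 21 388))
 (Pq.cons (Pq.L [2] 2 (Pf.C 53 49413))
 (Pq.cons (Pq.L [1] 2 (Pf.C 53 16773))
 (Pq.cons (Pq.L [] 1 (Pf.C 21 388))
 Pq.nil))))))))))))))))
theorem f2_o123 : AllRef f2_T f2_G79 (splitObl [97] [98,99,100,101,102,103,106,107,108,109,112,113,115,105,111,114]) :=
  chkPq_sound f2_o123c _ (by decide +kernel)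
noncomputable def f2_o124c : Pq := (Pq.cons (Pq.L [] 1 (Pf.C 39 515))
 Pq.nil)
theorem f2_o124 : AllRef f2_T f2_G79 (applyObl TD2 1 [97] [0] []) :=
  chkPq_sound f2_o124c _ (by decide +kernel)
noncomputable def f2_o125c : Pq := (Pq.cons (Pq.L [0,1] 1 (Pf.C 86 16772))
 (Pq.cons (Pq.L [1] 2 (Pf.C 53 16773))
 (Pq.cons (Pq.L [] 1 (Pf.C 21 388))
 (Pq.cons (Pq.L [2] 2 (Pf.C 53 49413))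
 (Pq.cons (Pq.L [0,2] 1 (Pf.C 78 0x400203))
 (Pq.cons (Pq.L [] 1 (Pf.C 21 388))
 (Pq.cons (Pq.L [] 1 (Pf.C 22 388))
 (Pq.cons (Pq.L [1] 1 (Pf.C 63 16772))
 (Pq.cons (Pq.L [1] 2 (Pf.C 54 49285))
 (Pq.cons (Pq.L [2] 2 (Pf.C 53 49413))
 (Pq.cons (Pq.L [] 1 (Pf.C 25 388))
 (Pq.cons (Pq.L [] 1 (Pf.C 4 515))
 (Pq.cons (Pq.L [] 1 (Pf.C 26 388))
 (Pq.cons (Pq.L [] 2 (Pf.C 14 389))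
 (Pq.cons (Pq.L [1] 2 (Pf.C 55 49285))
 (Pq.cons (Pq.L [] 1 (Pf.C 27 388))
 (Pq.cons (Pq.L [1] 2 (Pf.C 55 49285))
 (Pq.cons (Pq.L [] 1 (Pf.C 29 388))
 (Pq.cons (Pq.L [] 1 (Pf.C 12 515))
 (Pq.cons (Pq.L [0] 2 (Pf.C 53 82304))
 (Pq.cons (Pq.L [0] 2 (Pf.C 53 82304))
 (Pq.cons (Pq.L [] 1 (Pf.C 12 515))
 (Pq.cons (Pq.L [1,2] 1 (Pf.C 87 0x208184))
 (Pq.cons (Pq.L [2] 2 (Pf.C 57 82306))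
 (Pq.cons (Pq.L [2] 1 (Pf.C 65 33156))
 (Pq.cons (Pq.L [] 1 (Pf.C 33 388))
 (Pq.cons (Pq.L [] 1 (Pf.C 34 388))
 (Pq.cons (Pq.L [] 1 (Pf.C 30 515))
 (Pq.cons (Pq.L [] 1 (Pf.C 37 388))
 (Pq.cons (Pq.L [] 1 (Pf.C 38 388))
 (Pq.cons (Pq.L [0] 2 (Pf.C 53 49792))
 (Pq.cons (Pq.L [] 1 (Pf.C 2 515))
 (Pq.cons (Pq.L [] 1 (Pf.C 2 515))
 (Pq.cons (Pq.L [1,2] 1 (Pf.C 87 0x208203))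
 (Pq.cons (Pq.L [] 1 (Pf.C 2 515))
 (Pq.cons (Pq.L [] 1 (Pf.C 2 515))
 (Pq.cons (Pq.L [0] 2 (Pf.C 53 49792))
 (Pq.cons (Pq.L [] 1 (Pf.C 2 515))
 (Pq.cons (Pq.L [] 1 (Pf.C 2 515))
 Pq.nil)))))))))))))))))))))))))))))))))))))))
theorem f2_o125 : AllRef f2_T f2_G79 (splitObl [98,99,100,101,102,103,106,107,108,109,112,113,115] [105,111,114]) :=
  chkPq_sound f2_o125c _ (by decide +kernel)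
noncomputable def f2_o126c : Pq := (Pq.cons (Pq.L [] 63 (Pf.C 0 0xc14203))
 (Pq.cons (Pq.D 0 (Pq.cons (Pq.D 1 (Pq.cons (Pq.L [] 1 (Pf.C 40 515))
 (Pq.cons (Pq.L [] 1 (Pf.C 22 515))
 (Pq.cons (Pq.L [] 1 (Pf.C 8 515))
 (Pq.cons (Pq.L [] 1 (Pf.C 8 515))
 (Pq.cons (Pq.L [1] 1 (Pf.C 63 16899))
 Pq.nil)))))) (Pq.cons (Pq.D 1 (Pq.cons (Pq.L [] 1 (Pf.C 22 388))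
 (Pq.cons (Pq.L [] 1 (Pf.C 12 515))
 (Pq.cons (Pq.L [2] 1 (Pf.C 65 33156))
 (Pq.cons (Pq.L [] 1 (Pf.C 30 515))
 (Pq.cons (Pq.L [1,2] 1 (Pf.C 87 0x208203))
 Pq.nil)))))) (Pq.cons (Pq.D 1 (Pq.cons (Pq.L [] 1 (Pf.C 8 388))
 (Pq.cons (Pq.L [2] 1 (Pf.C 65 33283))
 (Pq.cons (Pq.L [] 1 (Pf.C 42 515))
 (Pq.cons (Pq.L [] 1 (Pf.C 32 515))
 (Pq.cons (Pq.L [] 1 (Pf.C 33 515))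
 Pq.nil)))))) (Pq.cons (Pq.D 1 (Pq.cons (Pq.L [] 1 (Pf.C 8 388))
 (Pq.cons (Pq.L [] 1 (Pf.C 30 388))
 (Pq.cons (Pq.L [] 1 (Pf.C 32 388))
 (Pq.cons (Pq.L [] 1 (Pf.C 11 515))
 (Pq.cons (Pq.L [] 1 (Pf.C 37 515))
 Pq.nil)))))) (Pq.cons (Pq.D 1 (Pq.cons (Pq.L [1] 1 (Pf.C 63 16772))
 (Pq.cons (Pq.L [1,2] 1 (Pf.C 87 0x208184))
 (Pq.cons (Pq.L [] 1 (Pf.C 33 388))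
 (Pq.cons (Pq.L [] 1 (Pf.C 37 388))
 (Pq.cons (Pq.L [] 1 (Pf.C 2 515))
 Pq.nil)))))) Pq.nil)))))) (Pq.cons (Pq.D 0 (Pq.cons (Pq.D 1 (Pq.cons (Pq.L [] 1 (Pf.C 39 515))
 (Pq.cons (Pq.L [] 1 (Pf.C 18 515))
 (Pq.cons (Pq.L [0,2] 1 (Pf.C 78 0x400184))
 (Pq.cons (Pq.L [] 1 (Pf.C 21 515))
 Pq.nil))))) (Pq.cons (Pq.D 1 (Pq.cons (Pq.L [] 1 (Pf.C 18 388))
 (Pq.cons (Pq.L [] 1 (Pf.C 4 515))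
 (Pq.cons (Pq.L [] 1 (Pf.C 25 515))
 (Pq.cons (Pq.L [] 1 (Pf.C 4 515))
 Pq.nil))))) (Pq.cons (Pq.D 1 (Pq.cons (Pq.L [0,2] 1 (Pf.C 78 0x400203))
 (Pq.cons (Pq.L [] 1 (Pf.C 25 388))
 (Pq.cons (Pq.L [] 1 (Pf.C 2 515))
 (Pq.cons (Pq.L [] 1 (Pf.C 2 515))
 Pq.nil))))) (Pq.cons (Pq.D 1 (Pq.cons (Pq.L [] 1 (Pf.C 21 388))
 (Pq.cons (Pq.L [] 1 (Pf.C 4 515))
 (Pq.cons (Pq.L [] 1 (Pf.C 2 515))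
 (Pq.cons (Pq.L [] 1 (Pf.C 2 515))
 Pq.nil))))) Pq.nil))))) (Pq.cons (Pq.D 0 (Pq.cons (Pq.D 1 (Pq.cons (Pq.L [] 1 (Pf.C 39 515))
 (Pq.cons (Pq.L [] 1 (Pf.C 7 388))
 (Pq.cons (Pq.L [] 1 (Pf.C 19 515))
 (Pq.cons (Pq.L [0,1] 1 (Pf.C 86 16899))
 Pq.nil))))) (Pq.cons (Pq.D 1 (Pq.cons (Pq.L [] 1 (Pf.C 7 515))
 (Pq.cons (Pq.L [] 1 (Pf.C 41 515))
 (Pq.cons (Pq.L [] 1 (Pf.C 7 515))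
 (Pq.cons (Pq.L [] 1 (Pf.C 26 515))
 Pq.nil))))) (Pq.cons (Pq.D 1 (Pq.cons (Pq.L [] 1 (Pf.C 19 388))
 (Pq.cons (Pq.L [] 1 (Pf.C 7 388))
 (Pq.cons (Pq.L [] 1 (Pf.C 13 515))
 (Pq.cons (Pq.L [] 1 (Pf.C 27 515))
 Pq.nil))))) (Pq.cons (Pq.D 1 (Pq.cons (Pq.L [0,1] 1 (Pf.C 86 16772))
 (Pq.cons (Pq.L [] 1 (Pf.C 26 388))
 (Pq.cons (Pq.L [] 1 (Pf.C 27 388))
 (Pq.cons (Pq.L [] 1 (Pf.C 12 515))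
 Pq.nil))))) Pq.nil))))) (Pq.cons (Pq.D 1 (Pq.cons (Pq.D 2 (Pq.cons (Pq.D 0 (Pq.cons (Pq.L [] 1 (Pf.C 10 388))
 (Pq.cons (Pq.L [2] 1 (Pf.C 53 49412))
 (Pq.cons (Pq.L [] 1 (Pf.C 5 388))
 (Pq.cons (Pq.L [2] 2 (Pf.C 44 49794))
 (Pq.cons (Pq.L [1] 2 (Pf.C 53 16773))
 Pq.nil)))))) (Pq.cons (Pq.D 0 (Pq.cons (Pq.L [] 1 (Pf.C 10 388))
 (Pq.cons (Pq.L [2] 1 (Pf.C 53 49412))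
 (Pq.cons (Pq.L [] 1 (Pf.C 5 388))
 (Pq.cons (Pq.L [0] 1 (Pf.C 48 49156))
 (Pq.cons (Pq.L [] 2 (Pf.C 14 389))
 Pq.nil)))))) (Pq.cons (Pq.D 0 (Pq.cons (Pq.L [] 1 (Pf.C 10 388))
 (Pq.cons (Pq.L [2] 1 (Pf.C 53 49412))
 (Pq.cons (Pq.L [] 1 (Pf.C 5 388))
 (Pq.cons (Pq.L [0] 1 (Pf.C 48 49156))
 (Pq.cons (Pq.L [0] 2 (Pf.C 45 82304))
 Pq.nil)))))) (Pq.cons (Pq.D 0 (Pq.cons (Pq.L [] 1 (Pf.C 10 388))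
 (Pq.cons (Pq.L [2] 1 (Pf.C 53 49412))
 (Pq.cons (Pq.L [] 1 (Pf.C 5 388))
 (Pq.cons (Pq.L [0] 1 (Pf.C 48 49156))
 (Pq.cons (Pq.L [] 7 (Pf.C 53 82308))
 Pq.nil)))))) Pq.nil))))) (Pq.cons (Pq.D 2 (Pq.cons (Pq.D 0 (Pq.cons (Pq.L [] 2 (Pf.C 10 389))
 (Pq.cons (Pq.L [2] 1 (Pf.C 53 49412))
 (Pq.cons (Pq.L [] 2 (Pf.C 5 389))
 (Pq.cons (Pq.L [2] 2 (Pf.C 44 49794))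
 (Pq.cons (Pq.L [1] 2 (Pf.C 53 16773))
 Pq.nil)))))) (Pq.cons (Pq.D 0 (Pq.cons (Pq.L [] 1 (Pf.C 16 515))
 (Pq.cons (Pq.L [2] 1 (Pf.C 53 49412))
 (Pq.cons (Pq.L [] 2 (Pf.C 9 643))
 (Pq.cons (Pq.L [] 7 (Pf.C 54 66179))
 (Pq.cons (Pq.L [] 2 (Pf.C 14 389))
 Pq.nil)))))) (Pq.cons (Pq.D 0 (Pq.cons (Pq.L [] 1 (Pf.C 16 515))
 (Pq.cons (Pq.L [2] 1 (Pf.C 53 49412))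
 (Pq.cons (Pq.L [0] 2 (Pf.C 45 82304))
 (Pq.cons (Pq.L [0] 2 (Pf.C 62 49157))
 (Pq.cons (Pq.L [0] 2 (Pf.C 45 82304))
 Pq.nil)))))) (Pq.cons (Pq.D 0 (Pq.cons (Pq.L [] 1 (Pf.C 16 515))
 (Pq.cons (Pq.L [2] 1 (Pf.C 53 49412))
 (Pq.cons (Pq.L [] 7 (Pf.C 53 82308))
 (Pq.cons (Pq.L [] 7 (Pf.C 54 66179))
 (Pq.cons (Pq.L [] 7 (Pf.C 53 82308))
 Pq.nil)))))) Pq.nil))))) (Pq.cons (Pq.D 2 (Pq.cons (Pq.D 0 (Pq.cons (Pq.L [] 2 (Pf.C 10 389))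
 (Pq.cons (Pq.L [] 7 (Pf.C 53 49669))
 (Pq.cons (Pq.L [] 2 (Pf.C 5 389))
 (Pq.cons (Pq.L [2] 2 (Pf.C 44 49794))
 (Pq.cons (Pq.L [1] 2 (Pf.C 53 16773))
 Pq.nil)))))) (Pq.cons (Pq.L [] 4 (Pf.C 14 517))
 (Pq.cons (Pq.D 0 (Pq.cons (Pq.L [] 7 (Pf.C 55 65925))
 (Pq.cons (Pq.L [] 7 (Pf.C 55 65925))
 (Pq.cons (Pq.L [0] 2 (Pf.C 45 82304))
 (Pq.cons (Pq.L [0] 2 (Pf.C 62 49157))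
 (Pq.cons (Pq.L [0] 2 (Pf.C 45 82304))
 Pq.nil)))))) (Pq.cons (Pq.L [0] 4 (Pf.C 53 82432))
 Pq.nil))))) (Pq.cons (Pq.D 2 (Pq.cons (Pq.D 0 (Pq.cons (Pq.L [] 2 (Pf.C 10 389))
 (Pq.cons (Pq.L [] 7 (Pf.C 53 49669))
 (Pq.cons (Pq.L [] 2 (Pf.C 5 389))
 (Pq.cons (Pq.L [2] 2 (Pf.C 44 49794))
 (Pq.cons (Pq.L [1] 2 (Pf.C 53 16773))
 Pq.nil)))))) (Pq.cons (Pq.D 0 (Pq.cons (Pq.L [] 7 (Pf.C 54 66179))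
 (Pq.cons (Pq.L [] 7 (Pf.C 55 65925))
 (Pq.cons (Pq.L [] 2 (Pf.C 9 643))
 (Pq.cons (Pq.L [] 7 (Pf.C 54 66179))
 (Pq.cons (Pq.L [] 2 (Pf.C 14 389))
 Pq.nil)))))) (Pq.cons (Pq.D 0 (Pq.cons (Pq.L [] 7 (Pf.C 55 65925))
 (Pq.cons (Pq.L [] 7 (Pf.C 55 65925))
 (Pq.cons (Pq.L [0] 2 (Pf.C 45 82304))
 (Pq.cons (Pq.L [0] 2 (Pf.C 62 49157))
 (Pq.cons (Pq.L [0] 2 (Pf.C 45 82304))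
 Pq.nil)))))) (Pq.cons (Pq.L [0] 4 (Pf.C 53 82432))
 Pq.nil))))) Pq.nil))))) (Pq.cons (Pq.D 2 (Pq.cons (Pq.D 1 (Pq.cons (Pq.D 3 (Pq.cons (Pq.L [] 8 (Pf.C 10 518))
 (Pq.cons (Pq.L [] 8 (Pf.C 16 772))
 (Pq.cons (Pq.D 0 (Pq.cons (Pq.L [] 1 (Pf.C 10 389))
 (Pq.cons (Pq.L [2] 1 (Pf.C 53 49413))
 (Pq.cons (Pq.L [] 1 (Pf.C 5 389))
 (Pq.cons (Pq.L [] 2 (Pf.C 37 771))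
 (Pq.cons (Pq.L [] 2 (Pf.C 2 771))
 Pq.nil)))))) (Pq.cons (Pq.D 0 (Pq.cons (Pq.L [] 1 (Pf.C 10 389))
 (Pq.cons (Pq.L [2] 1 (Pf.C 53 49413))
 (Pq.cons (Pq.L [] 1 (Pf.C 5 389))
 (Pq.cons (Pq.L [] 2 (Pf.C 38 771))
 (Pq.cons (Pq.L [] 2 (Pf.C 2 771))
 Pq.nil)))))) Pq.nil))))) (Pq.cons (Pq.D 3 (Pq.cons (Pq.L [2] 8 (Pf.C 53 65798))
 (Pq.cons (Pq.L [2] 8 (Pf.C 53 65798))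
 (Pq.cons (Pq.D 0 (Pq.cons (Pq.L [] 1 (Pf.C 10 389))
 (Pq.cons (Pq.L [2] 1 (Pf.C 53 49413))
 (Pq.cons (Pq.L [] 1 (Pf.C 5 389))
 (Pq.cons (Pq.L [] 2 (Pf.C 37 771))
 (Pq.cons (Pq.L [] 2 (Pf.C 2 771))
 Pq.nil)))))) (Pq.cons (Pq.L [2] 8 (Pf.C 57 66306))
 Pq.nil))))) (Pq.cons (Pq.D 3 (Pq.cons (Pq.L [] 8 (Pf.C 5 518))
 (Pq.cons (Pq.D 0 (Pq.cons (Pq.L [] 1 (Pf.C 10 389))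
 (Pq.cons (Pq.L [2] 1 (Pf.C 53 49413))
 (Pq.cons (Pq.L [] 1 (Pf.C 5 389))
 (Pq.cons (Pq.L [0] 1 (Pf.C 48 49157))
 (Pq.cons (Pq.L [] 2 (Pf.C 25 390))
 Pq.nil)))))) (Pq.cons (Pq.D 0 (Pq.cons (Pq.L [] 1 (Pf.C 10 389))
 (Pq.cons (Pq.L [2] 1 (Pf.C 53 49413))
 (Pq.cons (Pq.L [] 1 (Pf.C 5 389))
 (Pq.cons (Pq.L [] 2 (Pf.C 37 771))
 (Pq.cons (Pq.L [] 2 (Pf.C 2 771))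
 Pq.nil)))))) (Pq.cons (Pq.D 0 (Pq.cons (Pq.L [] 1 (Pf.C 10 389))
 (Pq.cons (Pq.L [2] 1 (Pf.C 53 49413))
 (Pq.cons (Pq.L [] 1 (Pf.C 5 389))
 (Pq.cons (Pq.L [] 2 (Pf.C 38 771))
 (Pq.cons (Pq.L [] 2 (Pf.C 2 771))
 Pq.nil)))))) Pq.nil))))) (Pq.cons (Pq.D 3 (Pq.cons (Pq.L [0] 8 (Pf.C 48 65542))
 (Pq.cons (Pq.D 0 (Pq.cons (Pq.L [] 1 (Pf.C 10 389))
 (Pq.cons (Pq.L [2] 1 (Pf.C 53 49413))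
 (Pq.cons (Pq.L [] 1 (Pf.C 5 389))
 (Pq.cons (Pq.L [0] 1 (Pf.C 48 49157))
 (Pq.cons (Pq.L [] 2 (Pf.C 25 390))
 Pq.nil)))))) (Pq.cons (Pq.D 0 (Pq.cons (Pq.L [] 1 (Pf.C 10 389))
 (Pq.cons (Pq.L [2] 1 (Pf.C 53 49413))
 (Pq.cons (Pq.L [] 1 (Pf.C 5 389))
 (Pq.cons (Pq.L [] 2 (Pf.C 37 771))
 (Pq.cons (Pq.L [] 2 (Pf.C 2 771))
 Pq.nil)))))) (Pq.cons (Pq.D 0 (Pq.cons (Pq.L [] 1 (Pf.C 10 389))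
 (Pq.cons (Pq.L [2] 1 (Pf.C 53 49413))
 (Pq.cons (Pq.L [] 1 (Pf.C 5 389))
 (Pq.cons (Pq.L [] 2 (Pf.C 38 771))
 (Pq.cons (Pq.L [] 2 (Pf.C 2 771))
 Pq.nil)))))) Pq.nil))))) (Pq.cons (Pq.D 3 (Pq.cons (Pq.D 0 (Pq.cons (Pq.L [] 1 (Pf.C 10 389))
 (Pq.cons (Pq.L [2] 1 (Pf.C 53 49413))
 (Pq.cons (Pq.L [] 1 (Pf.C 5 389))
 (Pq.cons (Pq.L [0] 1 (Pf.C 48 49157))
 (Pq.cons (Pq.L [] 15 (Pf.B 6 5 (Pf.B 4 3 (Pf.C 78 0x618284) (Pf.C 2 388)) (Pf.C 39 646)))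
 Pq.nil)))))) (Pq.cons (Pq.D 0 (Pq.cons (Pq.L [] 1 (Pf.C 10 389))
 (Pq.cons (Pq.L [2] 1 (Pf.C 53 49413))
 (Pq.cons (Pq.L [] 1 (Pf.C 5 389))
 (Pq.cons (Pq.L [0] 1 (Pf.C 48 49157))
 (Pq.cons (Pq.L [] 2 (Pf.C 25 390))
 Pq.nil)))))) (Pq.cons (Pq.D 0 (Pq.cons (Pq.L [] 1 (Pf.C 10 389))
 (Pq.cons (Pq.L [2] 1 (Pf.C 53 49413))
 (Pq.cons (Pq.L [] 1 (Pf.C 5 389))
 (Pq.cons (Pq.L [] 2 (Pf.C 37 771))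
 (Pq.cons (Pq.L [] 2 (Pf.C 2 771))
 Pq.nil)))))) (Pq.cons (Pq.D 0 (Pq.cons (Pq.L [] 1 (Pf.C 10 389))
 (Pq.cons (Pq.L [2] 1 (Pf.C 53 49413))
 (Pq.cons (Pq.L [] 1 (Pf.C 5 389))
 (Pq.cons (Pq.L [] 2 (Pf.C 38 771))
 (Pq.cons (Pq.L [] 2 (Pf.C 2 771))
 Pq.nil)))))) Pq.nil))))) Pq.nil)))))) (Pq.cons (Pq.D 1 (Pq.cons (Pq.D 3 (Pq.cons (Pq.L [] 8 (Pf.C 10 518))
 (Pq.cons (Pq.L [] 8 (Pf.C 16 772))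
 (Pq.cons (Pq.D 0 (Pq.cons (Pq.L [] 1 (Pf.C 16 643))
 (Pq.cons (Pq.L [2] 1 (Pf.C 53 49413))
 (Pq.cons (Pq.L [] 2 (Pf.C 33 771))
 (Pq.cons (Pq.L [] 2 (Pf.C 37 771))
 (Pq.cons (Pq.L [] 2 (Pf.C 2 771))
 Pq.nil)))))) (Pq.cons (Pq.D 0 (Pq.cons (Pq.L [] 1 (Pf.C 16 643))
 (Pq.cons (Pq.L [2] 1 (Pf.C 53 49413))
 (Pq.cons (Pq.L [] 2 (Pf.C 34 771))
 (Pq.cons (Pq.L [] 2 (Pf.C 38 771))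
 (Pq.cons (Pq.L [] 2 (Pf.C 2 771))
 Pq.nil)))))) Pq.nil))))) (Pq.cons (Pq.D 3 (Pq.cons (Pq.L [2] 8 (Pf.C 53 65798))
 (Pq.cons (Pq.L [2] 8 (Pf.C 53 65798))
 (Pq.cons (Pq.D 0 (Pq.cons (Pq.L [] 1 (Pf.C 16 643))
 (Pq.cons (Pq.L [2] 1 (Pf.C 53 49413))
 (Pq.cons (Pq.L [] 2 (Pf.C 33 771))
 (Pq.cons (Pq.L [] 2 (Pf.C 37 771))
 (Pq.cons (Pq.L [] 2 (Pf.C 2 771))
 Pq.nil)))))) (Pq.cons (Pq.L [2] 8 (Pf.C 57 66306))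
 Pq.nil))))) (Pq.cons (Pq.D 3 (Pq.cons (Pq.L [] 8 (Pf.C 5 518))
 (Pq.cons (Pq.D 0 (Pq.cons (Pq.L [] 1 (Pf.C 16 643))
 (Pq.cons (Pq.L [2] 1 (Pf.C 53 49413))
 (Pq.cons (Pq.L [] 15 (Pf.B 6 5 (Pf.B 4 3 (Pf.C 78 0x618284) (Pf.C 42 388)) (Pf.C 4 646)))
 (Pq.cons (Pq.L [] 5 (Pf.B 4 3 (Pf.C 44 49796) (Pf.C 32 388)))
 (Pq.cons (Pq.L [] 2 (Pf.C 25 390))
 Pq.nil)))))) (Pq.cons (Pq.D 0 (Pq.cons (Pq.L [] 1 (Pf.C 16 643))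
 (Pq.cons (Pq.L [2] 1 (Pf.C 53 49413))
 (Pq.cons (Pq.L [] 2 (Pf.C 33 771))
 (Pq.cons (Pq.L [] 2 (Pf.C 37 771))
 (Pq.cons (Pq.L [] 2 (Pf.C 2 771))
 Pq.nil)))))) (Pq.cons (Pq.D 0 (Pq.cons (Pq.L [] 1 (Pf.C 16 643))
 (Pq.cons (Pq.L [2] 1 (Pf.C 53 49413))
 (Pq.cons (Pq.L [] 2 (Pf.C 34 771))
 (Pq.cons (Pq.L [] 2 (Pf.C 38 771))
 (Pq.cons (Pq.L [] 2 (Pf.C 2 771))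
 Pq.nil)))))) Pq.nil))))) (Pq.cons (Pq.D 3 (Pq.cons (Pq.L [0] 8 (Pf.C 48 65542))
 (Pq.cons (Pq.D 0 (Pq.cons (Pq.L [] 1 (Pf.C 16 643))
 (Pq.cons (Pq.L [2] 1 (Pf.C 53 49413))
 (Pq.cons (Pq.L [] 10 (Pf.B 4 3 (Pf.C 44 66307) (Pf.C 32 515)))
 (Pq.cons (Pq.L [] 15 (Pf.B 6 5 (Pf.B 4 3 (Pf.C 77 0xc0c205) (Pf.C 11 388)) (Pf.C 4 646)))
 (Pq.cons (Pq.L [] 2 (Pf.C 25 390))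
 Pq.nil)))))) (Pq.cons (Pq.D 0 (Pq.cons (Pq.L [] 1 (Pf.C 16 643))
 (Pq.cons (Pq.L [2] 1 (Pf.C 53 49413))
 (Pq.cons (Pq.L [] 2 (Pf.C 33 771))
 (Pq.cons (Pq.L [] 2 (Pf.C 37 771))
 (Pq.cons (Pq.L [] 2 (Pf.C 2 771))
 Pq.nil)))))) (Pq.cons (Pq.D 0 (Pq.cons (Pq.L [] 1 (Pf.C 16 643))
 (Pq.cons (Pq.L [2] 1 (Pf.C 53 49413))
 (Pq.cons (Pq.L [] 2 (Pf.C 34 771))
 (Pq.cons (Pq.L [] 2 (Pf.C 38 771))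
 (Pq.cons (Pq.L [] 2 (Pf.C 2 771))
 Pq.nil)))))) Pq.nil))))) (Pq.cons (Pq.L [] 4 (Pf.C 25 517))
 Pq.nil)))))) (Pq.cons (Pq.D 1 (Pq.cons (Pq.D 3 (Pq.cons (Pq.L [] 8 (Pf.C 10 518))
 (Pq.cons (Pq.L [] 8 (Pf.C 16 772))
 (Pq.cons (Pq.D 0 (Pq.cons (Pq.L [] 15 (Pf.B 6 5 (Pf.B 4 3 (Pf.C 77 0xc0c205) (Pf.C 40 388)) (Pf.C 2 646)))
 (Pq.cons (Pq.L [] 5 (Pf.B 4 3 (Pf.C 63 49796) (Pf.C 22 388)))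
 (Pq.cons (Pq.L [] 2 (Pf.C 33 771))
 (Pq.cons (Pq.L [] 2 (Pf.C 37 771))
 (Pq.cons (Pq.L [] 2 (Pf.C 2 771))
 Pq.nil)))))) (Pq.cons (Pq.L [] 12 (Pf.B 6 5 (Pf.C 43 98821) (Pf.C 2 646)))
 Pq.nil))))) (Pq.cons (Pq.D 3 (Pq.cons (Pq.L [2] 8 (Pf.C 53 65798))
 (Pq.cons (Pq.L [2] 8 (Pf.C 53 65798))
 (Pq.cons (Pq.D 0 (Pq.cons (Pq.L [] 10 (Pf.B 4 3 (Pf.C 63 66307) (Pf.C 22 515)))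
 (Pq.cons (Pq.L [] 15 (Pf.B 6 5 (Pf.B 4 3 (Pf.C 87 0x618284) (Pf.C 12 388)) (Pf.C 2 646)))
 (Pq.cons (Pq.L [] 2 (Pf.C 33 771))
 (Pq.cons (Pq.L [] 2 (Pf.C 37 771))
 (Pq.cons (Pq.L [] 2 (Pf.C 2 771))
 Pq.nil)))))) (Pq.cons (Pq.L [2] 8 (Pf.C 57 66306))
 Pq.nil))))) (Pq.cons (Pq.L [] 4 (Pf.C 33 644))
 (Pq.cons (Pq.L [] 4 (Pf.C 37 644))
 (Pq.cons (Pq.L [] 4 (Pf.C 2 644))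
 Pq.nil)))))) (Pq.cons (Pq.D 1 (Pq.cons (Pq.D 3 (Pq.cons (Pq.L [] 8 (Pf.C 10 518))
 (Pq.cons (Pq.L [] 8 (Pf.C 16 772))
 (Pq.cons (Pq.D 0 (Pq.cons (Pq.L [] 3 (Pf.B 6 5 (Pf.C 43 82310) (Pf.C 2 646)))
 (Pq.cons (Pq.L [2] 1 (Pf.C 57 49794))
 (Pq.cons (Pq.L [] 2 (Pf.C 33 771))
 (Pq.cons (Pq.L [] 2 (Pf.C 37 771))
 (Pq.cons (Pq.L [] 2 (Pf.C 2 771))
 Pq.nil)))))) (Pq.cons (Pq.D 0 (Pq.cons (Pq.L [] 15 (Pf.B 6 5 (Pf.B 4 3 (Pf.C 77 0xc0c205) (Pf.C 40 388)) (Pf.C 2 646)))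
 (Pq.cons (Pq.L [2] 1 (Pf.C 57 49794))
 (Pq.cons (Pq.L [] 2 (Pf.C 34 771))
 (Pq.cons (Pq.L [] 2 (Pf.C 38 771))
 (Pq.cons (Pq.L [] 2 (Pf.C 2 771))
 Pq.nil)))))) Pq.nil))))) (Pq.cons (Pq.D 3 (Pq.cons (Pq.L [2] 8 (Pf.C 53 65798))
 (Pq.cons (Pq.L [2] 8 (Pf.C 53 65798))
 (Pq.cons (Pq.D 0 (Pq.cons (Pq.L [] 3 (Pf.B 6 5 (Pf.C 43 82310) (Pf.C 2 646)))
 (Pq.cons (Pq.L [2] 1 (Pf.C 57 49794))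
 (Pq.cons (Pq.L [] 2 (Pf.C 33 771))
 (Pq.cons (Pq.L [] 2 (Pf.C 37 771))
 (Pq.cons (Pq.L [] 2 (Pf.C 2 771))
 Pq.nil)))))) (Pq.cons (Pq.L [2] 8 (Pf.C 57 66306))
 Pq.nil))))) (Pq.cons (Pq.L [] 4 (Pf.C 34 644))
 (Pq.cons (Pq.L [] 4 (Pf.C 38 644))
 (Pq.cons (Pq.L [] 4 (Pf.C 2 644))
 Pq.nil)))))) Pq.nil))))) Pq.nil))))))
theorem f2_o126 : AllRef f2_T f2_G79 (List.take 6 (applyObl f3_T 8 [98,99,100,101,102,103,106,107,108,109,112,113,115] [3,2,1,2,3,3,3,1,1,1,2,1,2] [])) :=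
  chkPq_sound f2_o126c _ (by decide +kernel)
noncomputable def f2_o127c : Pq := (Pq.cons (Pq.D 2 (Pq.cons (Pq.D 1 (Pq.cons (Pq.D 3 (Pq.cons (Pq.L [] 8 (Pf.C 10 518))
 (Pq.cons (Pq.D 0 (Pq.cons (Pq.L [] 1 (Pf.C 10 389))
 (Pq.cons (Pq.L [] 2 (Pf.C 26 390))
 (Pq.cons (Pq.L [] 1 (Pf.C 5 389))
 (Pq.cons (Pq.L [2] 1 (Pf.C 44 49794))
 (Pq.cons (Pq.L [1] 1 (Pf.C 53 16773))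
 Pq.nil)))))) (Pq.cons (Pq.D 0 (Pq.cons (Pq.L [] 1 (Pf.C 10 389))
 (Pq.cons (Pq.L [] 2 (Pf.C 27 390))
 (Pq.cons (Pq.L [] 1 (Pf.C 5 389))
 (Pq.cons (Pq.L [2] 1 (Pf.C 44 49794))
 (Pq.cons (Pq.L [1] 1 (Pf.C 53 16773))
 Pq.nil)))))) (Pq.cons (Pq.D 0 (Pq.cons (Pq.L [] 1 (Pf.C 10 389))
 (Pq.cons (Pq.L [] 2 (Pf.C 12 771))
 (Pq.cons (Pq.L [] 1 (Pf.C 5 389))
 (Pq.cons (Pq.L [] 2 (Pf.C 30 390))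
 (Pq.cons (Pq.L [1] 1 (Pf.C 53 16773))
 Pq.nil)))))) Pq.nil))))) (Pq.cons (Pq.D 3 (Pq.cons (Pq.D 0 (Pq.cons (Pq.L [] 1 (Pf.C 10 389))
 (Pq.cons (Pq.L [] 15 (Pf.B 6 5 (Pf.B 4 3 (Pf.C 86 0xc0c205) (Pf.C 12 388)) (Pf.C 39 646)))
 (Pq.cons (Pq.L [] 1 (Pf.C 5 389))
 (Pq.cons (Pq.L [2] 1 (Pf.C 44 49794))
 (Pq.cons (Pq.L [1] 1 (Pf.C 53 16773))
 Pq.nil)))))) (Pq.cons (Pq.D 0 (Pq.cons (Pq.L [] 1 (Pf.C 10 389))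
 (Pq.cons (Pq.L [] 2 (Pf.C 26 390))
 (Pq.cons (Pq.L [] 1 (Pf.C 5 389))
 (Pq.cons (Pq.L [2] 1 (Pf.C 44 49794))
 (Pq.cons (Pq.L [1] 1 (Pf.C 53 16773))
 Pq.nil)))))) (Pq.cons (Pq.D 0 (Pq.cons (Pq.L [] 1 (Pf.C 10 389))
 (Pq.cons (Pq.L [] 2 (Pf.C 27 390))
 (Pq.cons (Pq.L [] 1 (Pf.C 5 389))
 (Pq.cons (Pq.L [2] 1 (Pf.C 44 49794))
 (Pq.cons (Pq.L [1] 1 (Pf.C 53 16773))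
 Pq.nil)))))) (Pq.cons (Pq.D 0 (Pq.cons (Pq.L [] 1 (Pf.C 10 389))
 (Pq.cons (Pq.L [] 2 (Pf.C 12 771))
 (Pq.cons (Pq.L [] 1 (Pf.C 5 389))
 (Pq.cons (Pq.L [] 2 (Pf.C 30 390))
 (Pq.cons (Pq.L [1] 1 (Pf.C 53 16773))
 Pq.nil)))))) Pq.nil))))) (Pq.cons (Pq.D 3 (Pq.cons (Pq.L [] 8 (Pf.C 5 518))
 (Pq.cons (Pq.L [] 8 (Pf.C 9 772))
 (Pq.cons (Pq.L [0] 8 (Pf.C 45 98816))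
 (Pq.cons (Pq.D 0 (Pq.cons (Pq.L [] 1 (Pf.C 10 389))
 (Pq.cons (Pq.L [] 2 (Pf.C 12 771))
 (Pq.cons (Pq.L [] 1 (Pf.C 5 389))
 (Pq.cons (Pq.L [] 2 (Pf.C 30 390))
 (Pq.cons (Pq.L [1] 1 (Pf.C 53 16773))
 Pq.nil)))))) Pq.nil))))) (Pq.cons (Pq.D 3 (Pq.cons (Pq.L [2] 8 (Pf.C 44 66306))
 (Pq.cons (Pq.D 0 (Pq.cons (Pq.L [] 1 (Pf.C 10 389))
 (Pq.cons (Pq.L [] 2 (Pf.C 26 390))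
 (Pq.cons (Pq.L [] 1 (Pf.C 5 389))
 (Pq.cons (Pq.L [2] 1 (Pf.C 44 49794))
 (Pq.cons (Pq.L [1] 1 (Pf.C 53 16773))
 Pq.nil)))))) (Pq.cons (Pq.L [0] 8 (Pf.C 62 65542))
 (Pq.cons (Pq.D 0 (Pq.cons (Pq.L [] 1 (Pf.C 10 389))
 (Pq.cons (Pq.L [] 2 (Pf.C 12 771))
 (Pq.cons (Pq.L [] 1 (Pf.C 5 389))
 (Pq.cons (Pq.L [] 2 (Pf.C 30 390))
 (Pq.cons (Pq.L [1] 1 (Pf.C 53 16773))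
 Pq.nil)))))) Pq.nil))))) (Pq.cons (Pq.D 3 (Pq.cons (Pq.L [1] 8 (Pf.C 53 16902))
 (Pq.cons (Pq.L [] 8 (Pf.C 14 518))
 (Pq.cons (Pq.L [0] 8 (Pf.C 45 98816))
 (Pq.cons (Pq.D 0 (Pq.cons (Pq.L [] 1 (Pf.C 10 389))
 (Pq.cons (Pq.L [] 2 (Pf.C 12 771))
 (Pq.cons (Pq.L [] 1 (Pf.C 5 389))
 (Pq.cons (Pq.L [] 2 (Pf.C 30 390))
 (Pq.cons (Pq.L [1] 1 (Pf.C 53 16773))
 Pq.nil)))))) Pq.nil))))) Pq.nil)))))) (Pq.cons (Pq.D 1 (Pq.cons (Pq.D 3 (Pq.cons (Pq.L [] 8 (Pf.C 10 518))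
 (Pq.cons (Pq.D 0 (Pq.cons (Pq.L [] 15 (Pf.B 6 5 (Pf.B 4 3 (Pf.C 86 0xc0c205) (Pf.C 40 388)) (Pf.C 41 646)))
 (Pq.cons (Pq.L [] 2 (Pf.C 26 390))
 (Pq.cons (Pq.L [] 1 (Pf.C 9 643))
 (Pq.cons (Pq.L [] 5 (Pf.B 4 3 (Pf.C 64 49796) (Pf.C 8 388)))
 (Pq.cons (Pq.L [] 1 (Pf.C 14 389))
 Pq.nil)))))) (Pq.cons (Pq.L [] 12 (Pf.B 6 5 (Pf.C 60 98821) (Pf.C 7 773)))
 (Pq.cons (Pq.D 0 (Pq.cons (Pq.L [] 2 (Pf.C 22 771))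
 (Pq.cons (Pq.L [] 2 (Pf.C 12 771))
 (Pq.cons (Pq.L [] 1 (Pf.C 9 643))
 (Pq.cons (Pq.L [] 2 (Pf.C 30 390))
 (Pq.cons (Pq.L [] 1 (Pf.C 14 389))
 Pq.nil)))))) Pq.nil))))) (Pq.cons (Pq.L [] 4 (Pf.C 26 517))
 (Pq.cons (Pq.D 3 (Pq.cons (Pq.L [] 8 (Pf.C 5 518))
 (Pq.cons (Pq.L [] 8 (Pf.C 9 772))
 (Pq.cons (Pq.L [0] 8 (Pf.C 45 98816))
 (Pq.cons (Pq.D 0 (Pq.cons (Pq.L [] 2 (Pf.C 22 771))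
 (Pq.cons (Pq.L [] 2 (Pf.C 12 771))
 (Pq.cons (Pq.L [] 1 (Pf.C 9 643))
 (Pq.cons (Pq.L [] 2 (Pf.C 30 390))
 (Pq.cons (Pq.L [] 1 (Pf.C 14 389))
 Pq.nil)))))) Pq.nil))))) (Pq.cons (Pq.D 3 (Pq.cons (Pq.L [2] 8 (Pf.C 44 66306))
 (Pq.cons (Pq.D 0 (Pq.cons (Pq.L [] 10 (Pf.B 4 3 (Pf.C 64 66307) (Pf.C 8 515)))
 (Pq.cons (Pq.L [] 2 (Pf.C 26 390))
 (Pq.cons (Pq.L [] 1 (Pf.C 9 643))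
 (Pq.cons (Pq.L [] 15 (Pf.B 6 5 (Pf.B 4 3 (Pf.C 84 0xc0c205) (Pf.C 11 388)) (Pf.C 41 646)))
 (Pq.cons (Pq.L [] 1 (Pf.C 14 389))
 Pq.nil)))))) (Pq.cons (Pq.L [0] 8 (Pf.C 62 65542))
 (Pq.cons (Pq.D 0 (Pq.cons (Pq.L [] 2 (Pf.C 22 771))
 (Pq.cons (Pq.L [] 2 (Pf.C 12 771))
 (Pq.cons (Pq.L [] 1 (Pf.C 9 643))
 (Pq.cons (Pq.L [] 2 (Pf.C 30 390))
 (Pq.cons (Pq.L [] 1 (Pf.C 14 389))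
 Pq.nil)))))) Pq.nil))))) (Pq.cons (Pq.D 3 (Pq.cons (Pq.L [1] 8 (Pf.C 53 16902))
 (Pq.cons (Pq.L [] 8 (Pf.C 14 518))
 (Pq.cons (Pq.L [0] 8 (Pf.C 45 98816))
 (Pq.cons (Pq.D 0 (Pq.cons (Pq.L [] 2 (Pf.C 22 771))
 (Pq.cons (Pq.L [] 2 (Pf.C 12 771))
 (Pq.cons (Pq.L [] 1 (Pf.C 9 643))
 (Pq.cons (Pq.L [] 2 (Pf.C 30 390))
 (Pq.cons (Pq.L [] 1 (Pf.C 14 389))
 Pq.nil)))))) Pq.nil))))) Pq.nil)))))) (Pq.cons (Pq.D 1 (Pq.cons (Pq.D 3 (Pq.cons (Pq.L [] 8 (Pf.C 10 518))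
 (Pq.cons (Pq.D 0 (Pq.cons (Pq.L [] 3 (Pf.B 6 5 (Pf.C 60 82310) (Pf.C 7 646)))
 (Pq.cons (Pq.L [] 2 (Pf.C 26 390))
 (Pq.cons (Pq.L [0] 1 (Pf.C 45 82304))
 (Pq.cons (Pq.L [0] 1 (Pf.C 62 49157))
 (Pq.cons (Pq.L [0] 1 (Pf.C 45 82304))
 Pq.nil)))))) (Pq.cons (Pq.D 0 (Pq.cons (Pq.L [] 15 (Pf.B 6 5 (Pf.B 4 3 (Pf.C 86 0xc0c205) (Pf.C 40 388)) (Pf.C 13 646)))
 (Pq.cons (Pq.L [] 2 (Pf.C 27 390))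
 (Pq.cons (Pq.L [0] 1 (Pf.C 45 82304))
 (Pq.cons (Pq.L [0] 1 (Pf.C 62 49157))
 (Pq.cons (Pq.L [0] 1 (Pf.C 45 82304))
 Pq.nil)))))) (Pq.cons (Pq.D 0 (Pq.cons (Pq.L [] 2 (Pf.C 22 771))
 (Pq.cons (Pq.L [] 2 (Pf.C 12 771))
 (Pq.cons (Pq.L [0] 1 (Pf.C 45 82304))
 (Pq.cons (Pq.L [] 2 (Pf.C 30 390))
 (Pq.cons (Pq.L [0] 1 (Pf.C 45 82304))
 Pq.nil)))))) Pq.nil))))) (Pq.cons (Pq.L [] 4 (Pf.C 27 517))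
 (Pq.cons (Pq.D 3 (Pq.cons (Pq.L [] 8 (Pf.C 5 518))
 (Pq.cons (Pq.L [] 8 (Pf.C 9 772))
 (Pq.cons (Pq.L [0] 8 (Pf.C 45 98816))
 (Pq.cons (Pq.D 0 (Pq.cons (Pq.L [] 2 (Pf.C 22 771))
 (Pq.cons (Pq.L [] 2 (Pf.C 12 771))
 (Pq.cons (Pq.L [0] 1 (Pf.C 45 82304))
 (Pq.cons (Pq.L [] 2 (Pf.C 30 390))
 (Pq.cons (Pq.L [0] 1 (Pf.C 45 82304))
 Pq.nil)))))) Pq.nil))))) (Pq.cons (Pq.D 3 (Pq.cons (Pq.L [2] 8 (Pf.C 44 66306))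
 (Pq.cons (Pq.D 0 (Pq.cons (Pq.L [] 3 (Pf.B 6 5 (Pf.C 60 82310) (Pf.C 7 646)))
 (Pq.cons (Pq.L [] 2 (Pf.C 26 390))
 (Pq.cons (Pq.L [0] 1 (Pf.C 45 82304))
 (Pq.cons (Pq.L [0] 1 (Pf.C 62 49157))
 (Pq.cons (Pq.L [0] 1 (Pf.C 45 82304))
 Pq.nil)))))) (Pq.cons (Pq.L [0] 8 (Pf.C 62 65542))
 (Pq.cons (Pq.D 0 (Pq.cons (Pq.L [] 2 (Pf.C 22 771))
 (Pq.cons (Pq.L [] 2 (Pf.C 12 771))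
 (Pq.cons (Pq.L [0] 1 (Pf.C 45 82304))
 (Pq.cons (Pq.L [] 2 (Pf.C 30 390))
 (Pq.cons (Pq.L [0] 1 (Pf.C 45 82304))
 Pq.nil)))))) Pq.nil))))) (Pq.cons (Pq.D 3 (Pq.cons (Pq.L [1] 8 (Pf.C 53 16902))
 (Pq.cons (Pq.L [] 8 (Pf.C 14 518))
 (Pq.cons (Pq.L [0] 8 (Pf.C 45 98816))
 (Pq.cons (Pq.D 0 (Pq.cons (Pq.L [] 2 (Pf.C 22 771))
 (Pq.cons (Pq.L [] 2 (Pf.C 12 771))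
 (Pq.cons (Pq.L [0] 1 (Pf.C 45 82304))
 (Pq.cons (Pq.L [] 2 (Pf.C 30 390))
 (Pq.cons (Pq.L [0] 1 (Pf.C 45 82304))
 Pq.nil)))))) Pq.nil))))) Pq.nil)))))) (Pq.cons (Pq.D 1 (Pq.cons (Pq.L [] 4 (Pf.C 22 644))
 (Pq.cons (Pq.L [] 4 (Pf.C 12 644))
 (Pq.cons (Pq.D 3 (Pq.cons (Pq.L [] 8 (Pf.C 5 518))
 (Pq.cons (Pq.L [] 8 (Pf.C 9 772))
 (Pq.cons (Pq.L [0] 8 (Pf.C 45 98816))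
 (Pq.cons (Pq.D 0 (Pq.cons (Pq.L [] 2 (Pf.C 22 771))
 (Pq.cons (Pq.L [] 2 (Pf.C 12 771))
 (Pq.cons (Pq.L [] 15 (Pf.B 6 5 (Pf.B 4 3 (Pf.C 84 0xc0c205) (Pf.C 42 388)) (Pf.C 12 646)))
 (Pq.cons (Pq.L [] 2 (Pf.C 30 390))
 (Pq.cons (Pq.L [] 5 (Pf.B 4 3 (Pf.C 65 49796) (Pf.C 33 388)))
 Pq.nil)))))) Pq.nil))))) (Pq.cons (Pq.L [] 4 (Pf.C 30 517))
 (Pq.cons (Pq.D 3 (Pq.cons (Pq.L [1] 8 (Pf.C 53 16902))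
 (Pq.cons (Pq.L [] 8 (Pf.C 14 518))
 (Pq.cons (Pq.L [0] 8 (Pf.C 45 98816))
 (Pq.cons (Pq.D 0 (Pq.cons (Pq.L [] 2 (Pf.C 22 771))
 (Pq.cons (Pq.L [] 2 (Pf.C 12 771))
 (Pq.cons (Pq.L [] 10 (Pf.B 4 3 (Pf.C 65 66307) (Pf.C 33 515)))
 (Pq.cons (Pq.L [] 2 (Pf.C 30 390))
 (Pq.cons (Pq.L [] 15 (Pf.B 6 5 (Pf.B 4 3 (Pf.C 87 0xc0c205) (Pf.C 2 388)) (Pf.C 12 646)))
 Pq.nil)))))) Pq.nil))))) Pq.nil)))))) Pq.nil))))) (Pq.cons (Pq.D 0 (Pq.cons (Pq.D 3 (Pq.cons (Pq.L [] 2 (Pf.C 39 771))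
 (Pq.cons (Pq.L [] 2 (Pf.C 7 390))
 (Pq.cons (Pq.L [] 2 (Pf.C 19 771))
 (Pq.cons (Pq.D 1 (Pq.cons (Pq.D 2 (Pq.cons (Pq.L [] 4 (Pf.C 39 644))
 (Pq.cons (Pq.L [] 4 (Pf.C 7 517))
 (Pq.cons (Pq.L [] 4 (Pf.C 19 644))
 (Pq.cons (Pq.L [] 15 (Pf.B 6 5 (Pf.B 4 3 (Pf.C 86 0x618284) (Pf.C 39 388)) (Pf.C 12 646)))
 Pq.nil))))) (Pq.cons (Pq.L [] 10 (Pf.B 4 3 (Pf.C 59 66307) (Pf.C 18 515)))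
 (Pq.cons (Pq.L [0] 8 (Pf.C 53 98816))
 (Pq.cons (Pq.L [0] 8 (Pf.C 53 98816))
 Pq.nil))))) Pq.nil))))) (Pq.cons (Pq.D 3 (Pq.cons (Pq.L [] 2 (Pf.C 18 390))
 (Pq.cons (Pq.D 1 (Pq.cons (Pq.D 2 (Pq.cons (Pq.L [] 4 (Pf.C 39 644))
 (Pq.cons (Pq.L [] 4 (Pf.C 7 517))
 (Pq.cons (Pq.L [] 4 (Pf.C 19 644))
 (Pq.cons (Pq.L [] 3 (Pf.B 6 5 (Pf.C 58 82310) (Pf.C 26 646)))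
 Pq.nil))))) (Pq.cons (Pq.D 2 (Pq.cons (Pq.L [] 4 (Pf.C 18 517))
 (Pq.cons (Pq.L [] 15 (Pf.B 6 5 (Pf.B 4 3 (Pf.C 80 0x618284) (Pf.C 4 388)) (Pf.C 41 646)))
 (Pq.cons (Pq.L [] 4 (Pf.C 23 644))
 (Pq.cons (Pq.L [] 3 (Pf.B 6 5 (Pf.C 58 82310) (Pf.C 26 646)))
 Pq.nil))))) (Pq.cons (Pq.L [] 8 (Pf.C 14 518))
 (Pq.cons (Pq.L [] 10 (Pf.B 4 3 (Pf.C 46 66307) (Pf.C 4 388)))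
 Pq.nil))))) (Pq.cons (Pq.L [] 2 (Pf.C 23 771))
 (Pq.cons (Pq.D 1 (Pq.cons (Pq.D 2 (Pq.cons (Pq.L [] 4 (Pf.C 39 644))
 (Pq.cons (Pq.L [] 4 (Pf.C 7 517))
 (Pq.cons (Pq.L [] 4 (Pf.C 19 644))
 (Pq.cons (Pq.L [] 5 (Pf.B 4 3 (Pf.C 59 49796) (Pf.C 18 388)))
 Pq.nil))))) (Pq.cons (Pq.D 2 (Pq.cons (Pq.L [] 4 (Pf.C 18 517))
 (Pq.cons (Pq.L [] 12 (Pf.B 6 5 (Pf.C 58 98821) (Pf.C 26 773)))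
 (Pq.cons (Pq.L [] 4 (Pf.C 23 644))
 (Pq.cons (Pq.L [] 15 (Pf.B 6 5 (Pf.B 4 3 (Pf.C 85 0xc0c205) (Pf.C 4 388)) (Pf.C 12 646)))
 Pq.nil))))) (Pq.cons (Pq.L [0] 8 (Pf.C 53 98816))
 (Pq.cons (Pq.L [0] 8 (Pf.C 53 98816))
 Pq.nil))))) Pq.nil))))) (Pq.cons (Pq.D 3 (Pq.cons (Pq.D 1 (Pq.cons (Pq.D 2 (Pq.cons (Pq.L [] 4 (Pf.C 39 644))
 (Pq.cons (Pq.L [] 1 (Pf.C 14 389))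
 (Pq.cons (Pq.L [] 4 (Pf.C 19 644))
 (Pq.cons (Pq.L [0] 1 (Pf.C 53 82304))
 Pq.nil))))) (Pq.cons (Pq.D 2 (Pq.cons (Pq.L [] 4 (Pf.C 18 517))
 (Pq.cons (Pq.L [] 1 (Pf.C 14 389))
 (Pq.cons (Pq.L [] 4 (Pf.C 23 644))
 (Pq.cons (Pq.L [0] 1 (Pf.C 53 82304))
 Pq.nil))))) (Pq.cons (Pq.D 2 (Pq.cons (Pq.L [] 15 (Pf.B 6 5 (Pf.B 4 3 (Pf.C 78 0x618284) (Pf.C 2 388)) (Pf.C 39 646)))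
 (Pq.cons (Pq.L [] 1 (Pf.C 14 389))
 (Pq.cons (Pq.L [] 3 (Pf.B 6 5 (Pf.C 45 82310) (Pf.C 19 646)))
 (Pq.cons (Pq.L [0] 1 (Pf.C 53 82304))
 Pq.nil))))) (Pq.cons (Pq.D 2 (Pq.cons (Pq.L [] 4 (Pf.C 21 517))
 (Pq.cons (Pq.L [] 1 (Pf.C 14 389))
 (Pq.cons (Pq.L [] 4 (Pf.C 29 517))
 (Pq.cons (Pq.L [0] 1 (Pf.C 53 82304))
 Pq.nil))))) Pq.nil))))) (Pq.cons (Pq.D 1 (Pq.cons (Pq.D 2 (Pq.cons (Pq.L [] 4 (Pf.C 39 644))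
 (Pq.cons (Pq.L [] 1 (Pf.C 14 389))
 (Pq.cons (Pq.L [] 4 (Pf.C 19 644))
 (Pq.cons (Pq.L [0] 1 (Pf.C 53 82304))
 Pq.nil))))) (Pq.cons (Pq.D 2 (Pq.cons (Pq.L [] 4 (Pf.C 18 517))
 (Pq.cons (Pq.L [] 1 (Pf.C 14 389))
 (Pq.cons (Pq.L [] 4 (Pf.C 23 644))
 (Pq.cons (Pq.L [0] 1 (Pf.C 53 82304))
 Pq.nil))))) (Pq.cons (Pq.L [] 8 (Pf.C 14 518))
 (Pq.cons (Pq.D 2 (Pq.cons (Pq.L [] 4 (Pf.C 21 517))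
 (Pq.cons (Pq.L [] 1 (Pf.C 14 389))
 (Pq.cons (Pq.L [] 4 (Pf.C 29 517))
 (Pq.cons (Pq.L [0] 1 (Pf.C 53 82304))
 Pq.nil))))) Pq.nil))))) (Pq.cons (Pq.D 1 (Pq.cons (Pq.D 2 (Pq.cons (Pq.L [] 4 (Pf.C 39 644))
 (Pq.cons (Pq.L [] 1 (Pf.C 14 389))
 (Pq.cons (Pq.L [] 4 (Pf.C 19 644))
 (Pq.cons (Pq.L [0] 1 (Pf.C 53 82304))
 Pq.nil))))) (Pq.cons (Pq.D 2 (Pq.cons (Pq.L [] 4 (Pf.C 18 517))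
 (Pq.cons (Pq.L [] 1 (Pf.C 14 389))
 (Pq.cons (Pq.L [] 4 (Pf.C 23 644))
 (Pq.cons (Pq.L [0] 1 (Pf.C 53 82304))
 Pq.nil))))) (Pq.cons (Pq.D 2 (Pq.cons (Pq.L [] 12 (Pf.B 6 5 (Pf.C 45 98821) (Pf.C 19 773)))
 (Pq.cons (Pq.L [] 1 (Pf.C 14 389))
 (Pq.cons (Pq.L [] 15 (Pf.B 6 5 (Pf.B 4 3 (Pf.C 79 0xc0c205) (Pf.C 2 388)) (Pf.C 13 646)))
 (Pq.cons (Pq.L [0] 1 (Pf.C 53 82304))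
 Pq.nil))))) (Pq.cons (Pq.D 2 (Pq.cons (Pq.L [] 4 (Pf.C 21 517))
 (Pq.cons (Pq.L [] 1 (Pf.C 14 389))
 (Pq.cons (Pq.L [] 4 (Pf.C 29 517))
 (Pq.cons (Pq.L [0] 1 (Pf.C 53 82304))
 Pq.nil))))) Pq.nil))))) (Pq.cons (Pq.D 1 (Pq.cons (Pq.D 2 (Pq.cons (Pq.L [] 4 (Pf.C 39 644))
 (Pq.cons (Pq.L [] 1 (Pf.C 14 389))
 (Pq.cons (Pq.L [] 4 (Pf.C 19 644))
 (Pq.cons (Pq.L [0] 1 (Pf.C 53 82304))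
 Pq.nil))))) (Pq.cons (Pq.D 2 (Pq.cons (Pq.L [] 4 (Pf.C 18 517))
 (Pq.cons (Pq.L [] 1 (Pf.C 14 389))
 (Pq.cons (Pq.L [] 4 (Pf.C 23 644))
 (Pq.cons (Pq.L [0] 1 (Pf.C 53 82304))
 Pq.nil))))) (Pq.cons (Pq.L [0] 8 (Pf.C 53 98816))
 (Pq.cons (Pq.L [0] 8 (Pf.C 53 98816))
 Pq.nil))))) Pq.nil))))) (Pq.cons (Pq.D 3 (Pq.cons (Pq.L [] 2 (Pf.C 21 390))
 (Pq.cons (Pq.D 1 (Pq.cons (Pq.D 2 (Pq.cons (Pq.L [] 4 (Pf.C 39 644))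
 (Pq.cons (Pq.L [] 4 (Pf.C 7 517))
 (Pq.cons (Pq.L [] 4 (Pf.C 19 644))
 (Pq.cons (Pq.L [0] 1 (Pf.C 53 82304))
 Pq.nil))))) (Pq.cons (Pq.D 2 (Pq.cons (Pq.L [] 4 (Pf.C 18 517))
 (Pq.cons (Pq.L [] 5 (Pf.B 4 3 (Pf.C 46 49796) (Pf.C 4 388)))
 (Pq.cons (Pq.L [] 4 (Pf.C 23 644))
 (Pq.cons (Pq.L [0] 1 (Pf.C 53 82304))
 Pq.nil))))) (Pq.cons (Pq.L [] 8 (Pf.C 14 518))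
 (Pq.cons (Pq.D 2 (Pq.cons (Pq.L [] 4 (Pf.C 21 517))
 (Pq.cons (Pq.L [] 15 (Pf.B 6 5 (Pf.B 4 3 (Pf.C 79 0xc0c205) (Pf.C 2 388)) (Pf.C 41 646)))
 (Pq.cons (Pq.L [] 4 (Pf.C 29 517))
 (Pq.cons (Pq.L [0] 1 (Pf.C 53 82304))
 Pq.nil))))) Pq.nil))))) (Pq.cons (Pq.L [] 2 (Pf.C 29 390))
 (Pq.cons (Pq.D 1 (Pq.cons (Pq.D 2 (Pq.cons (Pq.L [] 4 (Pf.C 39 644))
 (Pq.cons (Pq.L [] 4 (Pf.C 7 517))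
 (Pq.cons (Pq.L [] 4 (Pf.C 19 644))
 (Pq.cons (Pq.L [0] 1 (Pf.C 53 82304))
 Pq.nil))))) (Pq.cons (Pq.D 2 (Pq.cons (Pq.L [] 4 (Pf.C 18 517))
 (Pq.cons (Pq.L [] 12 (Pf.B 6 5 (Pf.C 58 98821) (Pf.C 26 773)))
 (Pq.cons (Pq.L [] 4 (Pf.C 23 644))
 (Pq.cons (Pq.L [0] 1 (Pf.C 53 82304))
 Pq.nil))))) (Pq.cons (Pq.L [0] 8 (Pf.C 53 98816))
 (Pq.cons (Pq.L [0] 8 (Pf.C 53 98816))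
 Pq.nil))))) Pq.nil))))) Pq.nil))))) Pq.nil))
theorem f2_o127 : AllRef f2_T f2_G79 (List.drop 6 (applyObl f3_T 8 [98,99,100,101,102,103,106,107,108,109,112,113,115] [3,2,1,2,3,3,3,1,1,1,2,1,2] [])) :=
  chkPq_sound f2_o127c _ (by decide +kernel)
noncomputable def f2_o128c : Pq := (Pq.cons (Pq.L [0] 2 (Pf.C 53 82304))
 (Pq.cons (Pq.L [0] 2 (Pf.C 53 82304))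
 Pq.nil))
theorem f2_o128 : AllRef f2_T f2_G79 (splitObl [105] [111,114]) :=
  chkPq_sound f2_o128c _ (by decide +kernel)
noncomputable def f2_o129c : Pq := (Pq.cons (Pq.L [] 1 (Pf.C 12 515))
 Pq.nil)
theorem f2_o129 : AllRef f2_T f2_G79 (applyObl TD2 1 [105] [0] []) :=
  chkPq_sound f2_o129c _ (by decide +kernel)
noncomputable def f2_o130c : Pq := (Pq.cons (Pq.L [] 1 (Pf.C 2 515))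
 Pq.nil)
theorem f2_o130 : AllRef f2_T f2_G79 (splitObl [111] [114]) :=
  chkPq_sound f2_o130c _ (by decide +kernel)
noncomputable def f2_o131c : Pq := (Pq.cons (Pq.L [] 1 (Pf.C 2 515))
 Pq.nil)
theorem f2_o131 : AllRef f2_T f2_G79 (applyObl TD2 1 [111] [0] []) :=
  chkPq_sound f2_o131c _ (by decide +kernel)
noncomputable def f2_o132c : Pq := (Pq.cons (Pq.L [] 1 (Pf.C 2 515))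
 Pq.nil)
theorem f2_o132 : AllRef f2_T f2_G79 (applyObl TD2 1 [114] [0] []) :=
  chkPq_sound f2_o132c _ (by decide +kernel)

end Pool.Agent.Lib.MP_849b2e_co
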