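import Pool.Agent.Lib.MP_849b2e_co.AllR
import Pool.Agent.Lib.MP_849b2e_co.Tf2
import Pool.Agent.Lib.MP_849b2e_co.Of2_0
import Pool.Agent.Lib.MP_849b2e_co.Ld
import Pool.Agent.Lib.MP_849b2e_co.Lf3

set_option maxRecDepth 100000
set_option linter.all false
namespace Pool.Agent.Lib.MP_849b2e_co

theorem f2_n134  : Bd f2_T f2_G79 [114] :=
  r_apply lem_D2 [0] [] (by decide +kernel) f2_o132
theorem f2_n133  : Bd f2_T f2_G79 [111] :=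
  r_apply lem_D2 [0] [] (by decide +kernel) f2_o131
theorem f2_n132  : Bd f2_T f2_G79 [111,114] :=
  r_split [111] [114] (by decide +kernel) f2_o130 f2_n133 f2_n134
theorem f2_n131  : Bd f2_T f2_G79 [105] :=
  r_apply lem_D2 [0] [] (by decide +kernel) f2_o129
theorem f2_n130  : Bd f2_T f2_G79 [105,111,114] :=
  r_split [105] [111,114] (by decide +kernel) f2_o128 f2_n131 f2_n132
theorem f2_n129  : Bd f2_T f2_G79 [98,99,100,101,102,103,106,107,108,109,112,113,115] :=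
  r_apply lem_f3 [3,2,1,2,3,3,3,1,1,1,2,1,2] [] (by decide +kernel) (allRef_split 6 f2_o126 f2_o127)
theorem f2_n128  : Bd f2_T f2_G79 [98,99,100,101,102,103,106,107,108,109,112,113,115,105,111,114] :=
  r_split [98,99,100,101,102,103,106,107,108,109,112,113,115] [105,111,114] (by decide +kernel) f2_o125 f2_n129 f2_n130
theorem f2_n127  : Bd f2_T f2_G79 [97] :=
  r_apply lem_D2 [0] [] (by decide +kernel) f2_o124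
theorem f2_n126  : Bd f2_T f2_G79 [97,98,99,100,101,102,103,105,106,107,108,109,111,112,113,114,115] :=
  r_split [97] [98,99,100,101,102,103,106,107,108,109,112,113,115,105,111,114] (by decide +kernel) f2_o123 f2_n127 f2_n128
theorem f2_n125  : Bd f2_T f2_G79 [1,2,3,4,5,6,7,8,9,10,11] :=
  r_act [56,57,58,59,60,61,62,63,64,65,66,67,68,69] [97,98,99,100,101,102,103,105,106,107,108,109,111,112,113,114,115] (by decide +kernel) f2_n126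
theorem f2_n124  : Bd f2_T f2_G78 [1,2,3,4,5,6,7,8,9,10,11] :=
  r_psplit 11 [] (PT.br 0 (PT.br 1 (PT.br 2 PT.kid PT.ref) (PT.br 2 PT.kid PT.ref)) PT.ref) ⟨114,[70],[],[]⟩ f2_G79 [1,2,3,4,5,6,7,8,9,10,11] (by decide +kernel) f2_o122 f2_n125
theorem f2_n123  : Bd f2_T f2_G77 [1,2,3,4,5,6,7,8,9,10,11] :=
  r_psplit 110 [] (PT.br 0 (PT.br 1 (PT.br 2 PT.kid PT.ref) (PT.br 2 PT.kid PT.ref)) (PT.br 1 (PT.br 2 PT.kid PT.ref) PT.ref)) ⟨111,[69],[],[]⟩ f2_G78 [1,2,3,4,5,6,7,8,9,10,11] (by decide +kernel) f2_o121 f2_n124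
theorem f2_n122  : Bd f2_T f2_G76 [1,2,3,4,5,6,7,8,9,10,11] :=
  r_psplit 10 [0,1,2] PT.kid ⟨110,[68],[],[]⟩ f2_G77 [1,2,3,4,5,6,7,8,9,10,11] (by decide +kernel) f2_o120 f2_n123
theorem f2_n121  : Bd f2_T f2_G75 [1,2,3,4,5,6,7,8,9,10,11] :=
  r_psplit 9 [] (PT.br 0 PT.ref (PT.br 1 (PT.br 2 PT.kid PT.ref) PT.ref)) ⟨109,[67],[],[]⟩ f2_G76 [1,2,3,4,5,6,7,8,9,10,11] (by decide +kernel) f2_o119 f2_n122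
theorem f2_n120  : Bd f2_T f2_G74 [1,2,3,4,5,6,7,8,9,10,11] :=
  r_psplit 8 [] PT.ref ⟨109,[66],[],[]⟩ f2_G75 [1,2,3,4,5,6,7,8,9,10,11] (by decide +kernel) f2_o118 f2_n121
theorem f2_n119  : Bd f2_T f2_G73 [1,2,3,4,5,6,7,8,9,10,11] :=
  r_psplit 7 [] (PT.br 0 PT.ref (PT.br 1 (PT.br 2 PT.kid PT.ref) PT.ref)) ⟨108,[65],[],[]⟩ f2_G74 [1,2,3,4,5,6,7,8,9,10,11] (by decide +kernel) f2_o117 f2_n120
theorem f2_n118  : Bd f2_T f2_G72 [1,2,3,4,5,6,7,8,9,10,11] :=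
  r_psplit 104 [] (PT.br 0 (PT.br 1 (PT.br 2 PT.kid PT.kid) PT.ref) (PT.br 1 (PT.br 2 PT.kid PT.ref) PT.ref)) ⟨105,[64],[],[]⟩ f2_G73 [1,2,3,4,5,6,7,8,9,10,11] (by decide +kernel) f2_o116 f2_n119
theorem f2_n117  : Bd f2_T f2_G71 [1,2,3,4,5,6,7,8,9,10,11] :=
  r_psplit 6 [0,1,2] PT.kid ⟨104,[63],[],[]⟩ f2_G72 [1,2,3,4,5,6,7,8,9,10,11] (by decide +kernel) f2_o115 f2_n118
theorem f2_n116  : Bd f2_T f2_G70 [1,2,3,4,5,6,7,8,9,10,11] :=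
  r_psplit 5 [] (PT.br 0 (PT.br 1 (PT.br 2 PT.ref PT.kid) PT.ref) PT.ref) ⟨103,[62],[],[]⟩ f2_G71 [1,2,3,4,5,6,7,8,9,10,11] (by decide +kernel) f2_o114 f2_n117
theorem f2_n115  : Bd f2_T f2_G69 [1,2,3,4,5,6,7,8,9,10,11] :=
  r_psplit 4 [] (PT.br 0 (PT.br 1 (PT.br 2 PT.ref PT.kid) PT.ref) PT.ref) ⟨102,[61],[],[]⟩ f2_G70 [1,2,3,4,5,6,7,8,9,10,11] (by decide +kernel) f2_o113 f2_n116
theorem f2_n114  : Bd f2_T f2_G68 [1,2,3,4,5,6,7,8,9,10,11] :=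
  r_psplit 3 [] (PT.br 0 (PT.br 1 PT.ref (PT.br 2 PT.kid PT.ref)) PT.ref) ⟨101,[60],[],[]⟩ f2_G69 [1,2,3,4,5,6,7,8,9,10,11] (by decide +kernel) f2_o112 f2_n115
theorem f2_n113  : Bd f2_T f2_G67 [1,2,3,4,5,6,7,8,9,10,11] :=
  r_psplit 2 [] (PT.br 0 PT.ref (PT.br 1 (PT.br 2 PT.kid PT.ref) PT.ref)) ⟨100,[59],[],[]⟩ f2_G68 [1,2,3,4,5,6,7,8,9,10,11] (by decide +kernel) f2_o111 f2_n114
theorem f2_n112  : Bd f2_T f2_G66 [1,2,3,4,5,6,7,8,9,10,11] :=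
  r_psplit 96 [] (PT.br 0 (PT.br 1 (PT.br 2 PT.kid PT.kid) (PT.br 2 PT.kid PT.ref)) PT.ref) ⟨97,[58],[],[]⟩ f2_G67 [1,2,3,4,5,6,7,8,9,10,11] (by decide +kernel) f2_o110 f2_n113
theorem f2_n111  : Bd f2_T f2_G1 [1,2,3,4,5,6,7,8,9,10,11] :=
  r_psplit 1 [0,1,2] PT.kid ⟨96,[57],[],[]⟩ f2_G66 [1,2,3,4,5,6,7,8,9,10,11] (by decide +kernel) f2_o109 f2_n112
theorem f2_n110  : Bd f2_T f2_G65 [93] :=
  r_apply lem_D2 [0] [] (by decide +kernel) f2_o108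
theorem f2_n109  : Bd f2_T f2_G65 [87] :=
  r_apply lem_D2 [0] [] (by decide +kernel) f2_o107
theorem f2_n108  : Bd f2_T f2_G65 [87,93] :=
  r_split [87] [93] (by decide +kernel) f2_o106 f2_n109 f2_n110
theorem f2_n107  : Bd f2_T f2_G65 [83] :=
  r_apply lem_D2 [0] [] (by decide +kernel) f2_o105
theorem f2_n106  : Bd f2_T f2_G65 [83,87,93] :=
  r_split [83] [87,93] (by decide +kernel) f2_o104 f2_n107 f2_n108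
theorem f2_n105  : Bd f2_T f2_G65 [78] :=
  r_apply lem_D2 [0] [] (by decide +kernel) f2_o103
theorem f2_n104  : Bd f2_T f2_G65 [78,83,87,93] :=
  r_split [78] [83,87,93] (by decide +kernel) f2_o102 f2_n105 f2_n106
theorem f2_n103  : Bd f2_T f2_G65 [76,79,80,81,84,85,86,88,89,90,91,94,95] :=
  r_apply lem_f3 [1,2,3,1,2,1,1,2,3,3,3,3,1] [] (by decide +kernel) (allRef_split 6 f2_o100 f2_o101)
theorem f2_n102  : Bd f2_T f2_G65 [76,78,79,80,81,83,84,85,86,87,88,89,90,91,93,94,95] :=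
  r_split [76,79,80,81,84,85,86,88,89,90,91,94,95] [78,83,87,93] (by decide +kernel) f2_o99 f2_n103 f2_n104
theorem f2_n101  : Bd f2_T f2_G65 [1,2,3,4,5,6,7,8,9,10,11] :=
  r_act [42,43,44,45,46,47,48,49,50,51,52,53,54,55] [76,78,79,80,81,83,84,85,86,87,88,89,90,91,93,94,95] (by decide +kernel) f2_n102
theorem f2_n100  : Bd f2_T f2_G64 [1,2,3,4,5,6,7,8,9,10,11] :=
  r_psplit 92 [] (PT.br 0 (PT.br 1 (PT.br 2 PT.kid PT.ref) (PT.br 2 PT.kid PT.ref)) (PT.br 1 (PT.br 2 PT.kid PT.ref) PT.ref)) ⟨93,[56],[],[]⟩ f2_G65 [1,2,3,4,5,6,7,8,9,10,11] (by decide +kernel) f2_o98 f2_n101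
theorem f2_n99  : Bd f2_T f2_G63 [1,2,3,4,5,6,7,8,9,10,11] :=
  r_psplit 11 [0,1,2] PT.kid ⟨92,[55],[],[]⟩ f2_G64 [1,2,3,4,5,6,7,8,9,10,11] (by decide +kernel) f2_o97 f2_n100
theorem f2_n98  : Bd f2_T f2_G62 [1,2,3,4,5,6,7,8,9,10,11] :=
  r_psplit 10 [] (PT.br 0 (PT.br 1 PT.ref (PT.br 2 PT.kid PT.ref)) PT.ref) ⟨91,[54],[],[]⟩ f2_G63 [1,2,3,4,5,6,7,8,9,10,11] (by decide +kernel) f2_o96 f2_n99
theorem f2_n97  : Bd f2_T f2_G61 [1,2,3,4,5,6,7,8,9,10,11] :=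
  r_psplit 9 [] (PT.br 0 (PT.br 1 PT.ref (PT.br 2 PT.kid PT.ref)) PT.ref) ⟨90,[53],[],[]⟩ f2_G62 [1,2,3,4,5,6,7,8,9,10,11] (by decide +kernel) f2_o95 f2_n98
theorem f2_n96  : Bd f2_T f2_G60 [1,2,3,4,5,6,7,8,9,10,11] :=
  r_psplit 8 [] PT.ref ⟨90,[52],[],[]⟩ f2_G61 [1,2,3,4,5,6,7,8,9,10,11] (by decide +kernel) f2_o94 f2_n97
theorem f2_n95  : Bd f2_T f2_G59 [1,2,3,4,5,6,7,8,9,10,11] :=
  r_psplit 7 [] (PT.br 0 (PT.br 1 PT.ref (PT.br 2 PT.kid PT.ref)) PT.ref) ⟨89,[51],[],[]⟩ f2_G60 [1,2,3,4,5,6,7,8,9,10,11] (by decide +kernel) f2_o93 f2_n96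
theorem f2_n94  : Bd f2_T f2_G58 [1,2,3,4,5,6,7,8,9,10,11] :=
  r_psplit 6 [] (PT.br 0 (PT.br 1 (PT.br 2 PT.kid PT.kid) PT.ref) PT.ref) ⟨87,[50],[],[]⟩ f2_G59 [1,2,3,4,5,6,7,8,9,10,11] (by decide +kernel) f2_o92 f2_n95
theorem f2_n93  : Bd f2_T f2_G57 [1,2,3,4,5,6,7,8,9,10,11] :=
  r_psplit 5 [] (PT.br 0 PT.ref (PT.br 1 (PT.br 2 PT.kid PT.ref) PT.ref)) ⟨86,[49],[],[]⟩ f2_G58 [1,2,3,4,5,6,7,8,9,10,11] (by decide +kernel) f2_o91 f2_n94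
theorem f2_n92  : Bd f2_T f2_G56 [1,2,3,4,5,6,7,8,9,10,11] :=
  r_psplit 82 [] (PT.br 0 (PT.br 1 (PT.br 2 PT.kid PT.kid) PT.ref) (PT.br 1 (PT.br 2 PT.kid PT.ref) PT.ref)) ⟨83,[48],[],[]⟩ f2_G57 [1,2,3,4,5,6,7,8,9,10,11] (by decide +kernel) f2_o90 f2_n93
theorem f2_n91  : Bd f2_T f2_G55 [1,2,3,4,5,6,7,8,9,10,11] :=
  r_psplit 4 [0,1,2] PT.kid ⟨82,[47],[],[]⟩ f2_G56 [1,2,3,4,5,6,7,8,9,10,11] (by decide +kernel) f2_o89 f2_n92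
theorem f2_n90  : Bd f2_T f2_G54 [1,2,3,4,5,6,7,8,9,10,11] :=
  r_psplit 3 [] (PT.br 0 PT.ref (PT.br 1 (PT.br 2 PT.kid PT.ref) PT.ref)) ⟨81,[46],[],[]⟩ f2_G55 [1,2,3,4,5,6,7,8,9,10,11] (by decide +kernel) f2_o88 f2_n91
theorem f2_n89  : Bd f2_T f2_G53 [1,2,3,4,5,6,7,8,9,10,11] :=
  r_psplit 77 [] (PT.br 0 (PT.br 1 (PT.br 2 PT.kid PT.kid) (PT.br 2 PT.kid PT.ref)) PT.ref) ⟨78,[45],[],[]⟩ f2_G54 [1,2,3,4,5,6,7,8,9,10,11] (by decide +kernel) f2_o87 f2_n90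
theorem f2_n88  : Bd f2_T f2_G52 [1,2,3,4,5,6,7,8,9,10,11] :=
  r_psplit 2 [0,1,2] PT.kid ⟨77,[44],[],[]⟩ f2_G53 [1,2,3,4,5,6,7,8,9,10,11] (by decide +kernel) f2_o86 f2_n89
theorem f2_n87  : Bd f2_T f2_G3 [1,2,3,4,5,6,7,8,9,10,11] :=
  r_psplit 1 [] (PT.br 0 PT.ref (PT.br 1 (PT.br 2 PT.kid PT.ref) PT.ref)) ⟨76,[43],[],[]⟩ f2_G52 [1,2,3,4,5,6,7,8,9,10,11] (by decide +kernel) f2_o85 f2_n88
theorem f2_n86  : Bd f2_T f2_G51 [72] :=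
  r_apply lem_D2 [0] [] (by decide +kernel) f2_o84
theorem f2_n85  : Bd f2_T f2_G51 [69] :=
  r_apply lem_D2 [0] [] (by decide +kernel) f2_o83
theorem f2_n84  : Bd f2_T f2_G51 [69,72] :=
  r_split [69] [72] (by decide +kernel) f2_o82 f2_n85 f2_n86
theorem f2_n83  : Bd f2_T f2_G51 [68] :=
  r_apply lem_D2 [0] [] (by decide +kernel) f2_o81
theorem f2_n82  : Bd f2_T f2_G51 [68,69,72] :=
  r_split [68] [69,72] (by decide +kernel) f2_o80 f2_n83 f2_n84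
theorem f2_n81  : Bd f2_T f2_G51 [66] :=
  r_apply lem_D2 [0] [] (by decide +kernel) f2_o79
theorem f2_n80  : Bd f2_T f2_G51 [66,68,69,72] :=
  r_split [66] [68,69,72] (by decide +kernel) f2_o78 f2_n81 f2_n82
theorem f2_n79  : Bd f2_T f2_G51 [62] :=
  r_apply lem_D2 [0] [] (by decide +kernel) f2_o77
theorem f2_n78  : Bd f2_T f2_G51 [62,66,68,69,72] :=
  r_split [62] [66,68,69,72] (by decide +kernel) f2_o76 f2_n79 f2_n80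
theorem f2_n77  : Bd f2_T f2_G51 [56] :=
  r_apply lem_D2 [0] [] (by decide +kernel) f2_o75
theorem f2_n76  : Bd f2_T f2_G51 [56,62,66,68,69,72] :=
  r_split [56] [62,66,68,69,72] (by decide +kernel) f2_o74 f2_n77 f2_n78
theorem f2_n75  : Bd f2_T f2_G51 [54,57,58,59,60,63,64,65,67,70,73,74,75] :=
  r_apply lem_f3 [1,2,3,1,2,2,1,2,3,3,3,1,1] [] (by decide +kernel) (allRef_split 6 f2_o72 f2_o73)
theorem f2_n74  : Bd f2_T f2_G51 [54,56,57,58,59,60,62,63,64,65,66,67,68,69,70,72,73,74,75] :=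
  r_split [54,57,58,59,60,63,64,65,67,70,73,74,75] [56,62,66,68,69,72] (by decide +kernel) f2_o71 f2_n75 f2_n76
theorem f2_n73  : Bd f2_T f2_G51 [1,2,3,4,5,6,7,8,9,10,11] :=
  r_act [28,29,30,31,32,33,34,35,36,37,38,39,40,41] [54,56,57,58,59,60,62,63,64,65,66,67,68,69,70,72,73,74,75] (by decide +kernel) f2_n74
theorem f2_n72  : Bd f2_T f2_G50 [1,2,3,4,5,6,7,8,9,10,11] :=
  r_psplit 11 [] (PT.br 0 PT.ref (PT.br 1 (PT.br 2 PT.kid PT.ref) PT.ref)) ⟨75,[42],[],[]⟩ f2_G51 [1,2,3,4,5,6,7,8,9,10,11] (by decide +kernel) f2_o70 f2_n73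
theorem f2_n71  : Bd f2_T f2_G49 [1,2,3,4,5,6,7,8,9,10,11] :=
  r_psplit 71 [] (PT.br 0 (PT.br 1 (PT.br 2 PT.kid PT.ref) (PT.br 2 PT.kid PT.ref)) (PT.br 1 (PT.br 2 PT.kid PT.ref) PT.ref)) ⟨72,[41],[],[]⟩ f2_G50 [1,2,3,4,5,6,7,8,9,10,11] (by decide +kernel) f2_o69 f2_n72
theorem f2_n70  : Bd f2_T f2_G48 [1,2,3,4,5,6,7,8,9,10,11] :=
  r_psplit 10 [0,1,2] PT.kid ⟨71,[40],[],[]⟩ f2_G49 [1,2,3,4,5,6,7,8,9,10,11] (by decide +kernel) f2_o68 f2_n71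
theorem f2_n69  : Bd f2_T f2_G47 [1,2,3,4,5,6,7,8,9,10,11] :=
  r_psplit 9 [] (PT.br 0 (PT.br 1 (PT.br 2 PT.kid PT.ref) (PT.br 2 PT.kid PT.ref)) PT.ref) ⟨69,[39],[],[]⟩ f2_G48 [1,2,3,4,5,6,7,8,9,10,11] (by decide +kernel) f2_o67 f2_n70
theorem f2_n68  : Bd f2_T f2_G46 [1,2,3,4,5,6,7,8,9,10,11] :=
  r_psplit 8 [] (PT.br 0 PT.ref (PT.br 1 (PT.br 2 PT.kid PT.ref) PT.ref)) ⟨68,[38],[],[]⟩ f2_G47 [1,2,3,4,5,6,7,8,9,10,11] (by decide +kernel) f2_o66 f2_n69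
theorem f2_n67  : Bd f2_T f2_G45 [1,2,3,4,5,6,7,8,9,10,11] :=
  r_psplit 7 [] (PT.br 0 (PT.br 1 (PT.br 2 PT.kid PT.ref) (PT.br 2 PT.kid PT.ref)) PT.ref) ⟨66,[37],[],[]⟩ f2_G46 [1,2,3,4,5,6,7,8,9,10,11] (by decide +kernel) f2_o65 f2_n68
theorem f2_n66  : Bd f2_T f2_G44 [1,2,3,4,5,6,7,8,9,10,11] :=
  r_psplit 6 [] (PT.br 0 (PT.br 1 (PT.br 2 PT.ref PT.kid) PT.ref) PT.ref) ⟨65,[36],[],[]⟩ f2_G45 [1,2,3,4,5,6,7,8,9,10,11] (by decide +kernel) f2_o64 f2_n67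
theorem f2_n65  : Bd f2_T f2_G43 [1,2,3,4,5,6,7,8,9,10,11] :=
  r_psplit 61 [] (PT.br 0 (PT.br 1 (PT.br 2 PT.kid PT.kid) PT.ref) (PT.br 1 (PT.br 2 PT.kid PT.ref) PT.ref)) ⟨62,[35],[],[]⟩ f2_G44 [1,2,3,4,5,6,7,8,9,10,11] (by decide +kernel) f2_o63 f2_n66
theorem f2_n64  : Bd f2_T f2_G42 [1,2,3,4,5,6,7,8,9,10,11] :=
  r_psplit 5 [0,1,2] PT.kid ⟨61,[34],[],[]⟩ f2_G43 [1,2,3,4,5,6,7,8,9,10,11] (by decide +kernel) f2_o62 f2_n65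
theorem f2_n63  : Bd f2_T f2_G41 [1,2,3,4,5,6,7,8,9,10,11] :=
  r_psplit 4 [] (PT.br 0 (PT.br 1 (PT.br 2 PT.ref PT.kid) PT.ref) PT.ref) ⟨60,[33],[],[]⟩ f2_G42 [1,2,3,4,5,6,7,8,9,10,11] (by decide +kernel) f2_o61 f2_n64
theorem f2_n62  : Bd f2_T f2_G40 [1,2,3,4,5,6,7,8,9,10,11] :=
  r_psplit 3 [] (PT.br 0 PT.ref (PT.br 1 (PT.br 2 PT.kid PT.ref) PT.ref)) ⟨59,[32],[],[]⟩ f2_G41 [1,2,3,4,5,6,7,8,9,10,11] (by decide +kernel) f2_o60 f2_n63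
theorem f2_n61  : Bd f2_T f2_G39 [1,2,3,4,5,6,7,8,9,10,11] :=
  r_psplit 55 [] (PT.br 0 (PT.br 1 (PT.br 2 PT.kid PT.kid) (PT.br 2 PT.kid PT.ref)) PT.ref) ⟨56,[31],[],[]⟩ f2_G40 [1,2,3,4,5,6,7,8,9,10,11] (by decide +kernel) f2_o59 f2_n62
theorem f2_n60  : Bd f2_T f2_G38 [1,2,3,4,5,6,7,8,9,10,11] :=
  r_psplit 2 [0,1,2] PT.kid ⟨55,[30],[],[]⟩ f2_G39 [1,2,3,4,5,6,7,8,9,10,11] (by decide +kernel) f2_o58 f2_n61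
theorem f2_n59  : Bd f2_T f2_G5 [1,2,3,4,5,6,7,8,9,10,11] :=
  r_psplit 1 [] (PT.br 0 PT.ref (PT.br 1 (PT.br 2 PT.kid PT.ref) PT.ref)) ⟨54,[29],[],[]⟩ f2_G38 [1,2,3,4,5,6,7,8,9,10,11] (by decide +kernel) f2_o57 f2_n60
theorem f2_n58  : Bd f2_T f2_G37 [49] :=
  r_apply lem_D2 [0] [] (by decide +kernel) f2_o56
theorem f2_n57  : Bd f2_T f2_G37 [47] :=
  r_apply lem_D2 [0] [] (by decide +kernel) f2_o55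
theorem f2_n56  : Bd f2_T f2_G37 [47,49] :=
  r_split [47] [49] (by decide +kernel) f2_o54 f2_n57 f2_n58
theorem f2_n55  : Bd f2_T f2_G37 [43] :=
  r_apply lem_D2 [0] [] (by decide +kernel) f2_o53
theorem f2_n54  : Bd f2_T f2_G37 [43,47,49] :=
  r_split [43] [47,49] (by decide +kernel) f2_o52 f2_n55 f2_n56
theorem f2_n53  : Bd f2_T f2_G37 [40] :=
  r_apply lem_D2 [0] [] (by decide +kernel) f2_o51
theorem f2_n52  : Bd f2_T f2_G37 [40,43,47,49] :=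
  r_split [40] [43,47,49] (by decide +kernel) f2_o50 f2_n53 f2_n54
theorem f2_n51  : Bd f2_T f2_G37 [36] :=
  r_apply lem_D2 [0] [] (by decide +kernel) f2_o49
theorem f2_n50  : Bd f2_T f2_G37 [36,40,43,47,49] :=
  r_split [36] [40,43,47,49] (by decide +kernel) f2_o48 f2_n51 f2_n52
theorem f2_n49  : Bd f2_T f2_G37 [33,34,37,38,41,42,44,45,46,50,51,52,53] :=
  r_apply lem_f3 [1,2,1,3,1,2,1,2,3,3,2,3,3] [] (by decide +kernel) (allRef_split 6 f2_o46 f2_o47)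
theorem f2_n48  : Bd f2_T f2_G37 [33,34,37,38,41,42,44,45,46,50,51,52,53,36,40,43,47,49] :=
  r_split [33,34,37,38,41,42,44,45,46,50,51,52,53] [36,40,43,47,49] (by decide +kernel) f2_o45 f2_n49 f2_n50
theorem f2_n47  : Bd f2_T f2_G37 [32] :=
  r_apply lem_D2 [0] [] (by decide +kernel) f2_o44
theorem f2_n46  : Bd f2_T f2_G37 [32,33,34,36,37,38,40,41,42,43,44,45,46,47,49,50,51,52,53] :=
  r_split [32] [33,34,37,38,41,42,44,45,46,50,51,52,53,36,40,43,47,49] (by decide +kernel) f2_o43 f2_n47 f2_n48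
theorem f2_n45  : Bd f2_T f2_G37 [1,2,3,4,5,6,7,8,9,10,11] :=
  r_act [14,15,16,17,18,19,20,21,22,23,24,25,26,27] [32,33,34,36,37,38,40,41,42,43,44,45,46,47,49,50,51,52,53] (by decide +kernel) f2_n46
theorem f2_n44  : Bd f2_T f2_G36 [1,2,3,4,5,6,7,8,9,10,11] :=
  r_psplit 11 [] (PT.br 0 (PT.br 1 PT.ref (PT.br 2 PT.kid PT.ref)) PT.ref) ⟨53,[28],[],[]⟩ f2_G37 [1,2,3,4,5,6,7,8,9,10,11] (by decide +kernel) f2_o42 f2_n45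
theorem f2_n43  : Bd f2_T f2_G35 [1,2,3,4,5,6,7,8,9,10,11] :=
  r_psplit 10 [] (PT.br 0 (PT.br 1 PT.ref (PT.br 2 PT.kid PT.ref)) PT.ref) ⟨52,[27],[],[]⟩ f2_G36 [1,2,3,4,5,6,7,8,9,10,11] (by decide +kernel) f2_o41 f2_n44
theorem f2_n42  : Bd f2_T f2_G34 [1,2,3,4,5,6,7,8,9,10,11] :=
  r_psplit 48 [] (PT.br 0 (PT.br 1 (PT.br 2 PT.kid PT.ref) (PT.br 2 PT.kid PT.ref)) (PT.br 1 (PT.br 2 PT.kid PT.ref) PT.ref)) ⟨49,[26],[],[]⟩ f2_G35 [1,2,3,4,5,6,7,8,9,10,11] (by decide +kernel) f2_o40 f2_n43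
theorem f2_n41  : Bd f2_T f2_G33 [1,2,3,4,5,6,7,8,9,10,11] :=
  r_psplit 9 [0,1,2] PT.kid ⟨48,[25],[],[]⟩ f2_G34 [1,2,3,4,5,6,7,8,9,10,11] (by decide +kernel) f2_o39 f2_n42
theorem f2_n40  : Bd f2_T f2_G32 [1,2,3,4,5,6,7,8,9,10,11] :=
  r_psplit 8 [] (PT.br 0 (PT.br 1 PT.ref (PT.br 2 PT.kid PT.ref)) PT.ref) ⟨47,[24],[],[]⟩ f2_G33 [1,2,3,4,5,6,7,8,9,10,11] (by decide +kernel) f2_o38 f2_n41
theorem f2_n39  : Bd f2_T f2_G31 [1,2,3,4,5,6,7,8,9,10,11] :=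
  r_psplit 7 [] (PT.br 0 (PT.br 1 PT.ref (PT.br 2 PT.kid PT.ref)) PT.ref) ⟨46,[23],[],[]⟩ f2_G32 [1,2,3,4,5,6,7,8,9,10,11] (by decide +kernel) f2_o37 f2_n40
theorem f2_n38  : Bd f2_T f2_G30 [1,2,3,4,5,6,7,8,9,10,11] :=
  r_psplit 6 [] (PT.br 0 PT.ref (PT.br 1 (PT.br 2 PT.kid PT.ref) PT.ref)) ⟨45,[22],[],[]⟩ f2_G31 [1,2,3,4,5,6,7,8,9,10,11] (by decide +kernel) f2_o36 f2_n39
theorem f2_n37  : Bd f2_T f2_G29 [1,2,3,4,5,6,7,8,9,10,11] :=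
  r_psplit 5 [] (PT.br 0 (PT.br 1 (PT.br 2 PT.kid PT.kid) PT.ref) PT.ref) ⟨43,[21],[],[]⟩ f2_G30 [1,2,3,4,5,6,7,8,9,10,11] (by decide +kernel) f2_o35 f2_n38
theorem f2_n36  : Bd f2_T f2_G28 [1,2,3,4,5,6,7,8,9,10,11] :=
  r_psplit 39 [] (PT.br 0 (PT.br 1 (PT.br 2 PT.kid PT.kid) PT.ref) (PT.br 1 (PT.br 2 PT.kid PT.ref) PT.ref)) ⟨40,[20],[],[]⟩ f2_G29 [1,2,3,4,5,6,7,8,9,10,11] (by decide +kernel) f2_o34 f2_n37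
theorem f2_n35  : Bd f2_T f2_G27 [1,2,3,4,5,6,7,8,9,10,11] :=
  r_psplit 4 [0,1,2] PT.kid ⟨39,[19],[],[]⟩ f2_G28 [1,2,3,4,5,6,7,8,9,10,11] (by decide +kernel) f2_o33 f2_n36
theorem f2_n34  : Bd f2_T f2_G26 [1,2,3,4,5,6,7,8,9,10,11] :=
  r_psplit 35 [] (PT.br 0 (PT.br 1 (PT.br 2 PT.kid PT.kid) (PT.br 2 PT.kid PT.ref)) PT.ref) ⟨36,[18],[],[]⟩ f2_G27 [1,2,3,4,5,6,7,8,9,10,11] (by decide +kernel) f2_o32 f2_n35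
theorem f2_n33  : Bd f2_T f2_G25 [1,2,3,4,5,6,7,8,9,10,11] :=
  r_psplit 3 [0,1,2] PT.kid ⟨35,[17],[],[]⟩ f2_G26 [1,2,3,4,5,6,7,8,9,10,11] (by decide +kernel) f2_o31 f2_n34
theorem f2_n32  : Bd f2_T f2_G24 [1,2,3,4,5,6,7,8,9,10,11] :=
  r_psplit 2 [] (PT.br 0 PT.ref (PT.br 1 (PT.br 2 PT.kid PT.ref) PT.ref)) ⟨34,[16],[],[]⟩ f2_G25 [1,2,3,4,5,6,7,8,9,10,11] (by decide +kernel) f2_o30 f2_n33
theorem f2_n31  : Bd f2_T f2_G7 [1,2,3,4,5,6,7,8,9,10,11] :=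
  r_psplit 1 [] (PT.br 0 (PT.br 1 (PT.br 2 PT.kid PT.kid) PT.ref) PT.ref) ⟨32,[15],[],[]⟩ f2_G24 [1,2,3,4,5,6,7,8,9,10,11] (by decide +kernel) f2_o29 f2_n32
theorem f2_n30  : Bd f2_T f2_G23 [30] :=
  r_apply lem_D2 [0] [] (by decide +kernel) f2_o28
theorem f2_n29  : Bd f2_T f2_G23 [25] :=
  r_apply lem_D2 [0] [] (by decide +kernel) f2_o27
theorem f2_n28  : Bd f2_T f2_G23 [25,30] :=
  r_split [25] [30] (by decide +kernel) f2_o26 f2_n29 f2_n30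
theorem f2_n27  : Bd f2_T f2_G23 [21] :=
  r_apply lem_D2 [0] [] (by decide +kernel) f2_o25
theorem f2_n26  : Bd f2_T f2_G23 [21,25,30] :=
  r_split [21] [25,30] (by decide +kernel) f2_o24 f2_n27 f2_n28
theorem f2_n25  : Bd f2_T f2_G23 [15] :=
  r_apply lem_D2 [0] [] (by decide +kernel) f2_o23
theorem f2_n24  : Bd f2_T f2_G23 [15,21,25,30] :=
  r_split [15] [21,25,30] (by decide +kernel) f2_o22 f2_n25 f2_n26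
theorem f2_n23  : Bd f2_T f2_G23 [12,13,16,17,18,19,22,23,26,27,28,29,31] :=
  r_apply lem_f3 [1,2,1,3,1,1,1,2,3,2,2,3,3] [] (by decide +kernel) (allRef_split 6 f2_o20 f2_o21)
theorem f2_n22  : Bd f2_T f2_G23 [12,13,15,16,17,18,19,21,22,23,25,26,27,28,29,30,31] :=
  r_split [12,13,16,17,18,19,22,23,26,27,28,29,31] [15,21,25,30] (by decide +kernel) f2_o19 f2_n23 f2_n24
theorem f2_n21  : Bd f2_T f2_G23 [1,2,3,4,5,6,7,8,9,10,11] :=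
  r_act [0,1,2,3,4,5,6,7,8,9,10,11,12,13] [12,13,15,16,17,18,19,21,22,23,25,26,27,28,29,30,31] (by decide +kernel) f2_n22
theorem f2_n20  : Bd f2_T f2_G22 [1,2,3,4,5,6,7,8,9,10,11] :=
  r_psplit 11 [] (PT.br 0 (PT.br 1 (PT.br 2 PT.kid PT.ref) (PT.br 2 PT.kid PT.ref)) PT.ref) ⟨30,[14],[],[]⟩ f2_G23 [1,2,3,4,5,6,7,8,9,10,11] (by decide +kernel) f2_o18 f2_n21
theorem f2_n19  : Bd f2_T f2_G21 [1,2,3,4,5,6,7,8,9,10,11] :=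
  r_psplit 10 [] (PT.br 0 (PT.br 1 PT.ref (PT.br 2 PT.kid PT.ref)) PT.ref) ⟨29,[13],[],[]⟩ f2_G22 [1,2,3,4,5,6,7,8,9,10,11] (by decide +kernel) f2_o17 f2_n20
theorem f2_n18  : Bd f2_T f2_G20 [1,2,3,4,5,6,7,8,9,10,11] :=
  r_psplit 9 [] (PT.br 0 PT.ref (PT.br 1 (PT.br 2 PT.kid PT.ref) PT.ref)) ⟨28,[12],[],[]⟩ f2_G21 [1,2,3,4,5,6,7,8,9,10,11] (by decide +kernel) f2_o16 f2_n19
theorem f2_n17  : Bd f2_T f2_G19 [1,2,3,4,5,6,7,8,9,10,11] :=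
  r_psplit 8 [] PT.ref ⟨28,[11],[],[]⟩ f2_G20 [1,2,3,4,5,6,7,8,9,10,11] (by decide +kernel) f2_o15 f2_n18
theorem f2_n16  : Bd f2_T f2_G18 [1,2,3,4,5,6,7,8,9,10,11] :=
  r_psplit 24 [] (PT.br 0 (PT.br 1 (PT.br 2 PT.kid PT.ref) (PT.br 2 PT.kid PT.ref)) (PT.br 1 (PT.br 2 PT.kid PT.ref) PT.ref)) ⟨25,[10],[],[]⟩ f2_G19 [1,2,3,4,5,6,7,8,9,10,11] (by decide +kernel) f2_o14 f2_n17
theorem f2_n15  : Bd f2_T f2_G17 [1,2,3,4,5,6,7,8,9,10,11] :=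
  r_psplit 7 [0,1,2] PT.kid ⟨24,[9],[],[]⟩ f2_G18 [1,2,3,4,5,6,7,8,9,10,11] (by decide +kernel) f2_o13 f2_n16
theorem f2_n14  : Bd f2_T f2_G16 [1,2,3,4,5,6,7,8,9,10,11] :=
  r_psplit 20 [] (PT.br 0 (PT.br 1 (PT.br 2 PT.kid PT.kid) PT.ref) (PT.br 1 (PT.br 2 PT.kid PT.ref) PT.ref)) ⟨21,[8],[],[]⟩ f2_G17 [1,2,3,4,5,6,7,8,9,10,11] (by decide +kernel) f2_o12 f2_n15
theorem f2_n13  : Bd f2_T f2_G15 [1,2,3,4,5,6,7,8,9,10,11] :=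
  r_psplit 6 [0,1,2] PT.kid ⟨20,[7],[],[]⟩ f2_G16 [1,2,3,4,5,6,7,8,9,10,11] (by decide +kernel) f2_o11 f2_n14
theorem f2_n12  : Bd f2_T f2_G14 [1,2,3,4,5,6,7,8,9,10,11] :=
  r_psplit 5 [] (PT.br 0 (PT.br 1 (PT.br 2 PT.ref PT.kid) PT.ref) PT.ref) ⟨19,[6],[],[]⟩ f2_G15 [1,2,3,4,5,6,7,8,9,10,11] (by decide +kernel) f2_o10 f2_n13
theorem f2_n11  : Bd f2_T f2_G13 [1,2,3,4,5,6,7,8,9,10,11] :=
  r_psplit 4 [] (PT.br 0 (PT.br 1 (PT.br 2 PT.ref PT.kid) PT.ref) PT.ref) ⟨18,[5],[],[]⟩ f2_G14 [1,2,3,4,5,6,7,8,9,10,11] (by decide +kernel) f2_o9 f2_n12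
theorem f2_n10  : Bd f2_T f2_G12 [1,2,3,4,5,6,7,8,9,10,11] :=
  r_psplit 14 [] (PT.br 0 (PT.br 1 (PT.br 2 PT.kid PT.kid) (PT.br 2 PT.kid PT.ref)) PT.ref) ⟨15,[4],[],[]⟩ f2_G13 [1,2,3,4,5,6,7,8,9,10,11] (by decide +kernel) f2_o8 f2_n11
theorem f2_n9  : Bd f2_T f2_G11 [1,2,3,4,5,6,7,8,9,10,11] :=
  r_psplit 3 [0,1,2] PT.kid ⟨14,[3],[],[]⟩ f2_G12 [1,2,3,4,5,6,7,8,9,10,11] (by decide +kernel) f2_o7 f2_n10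
theorem f2_n8  : Bd f2_T f2_G10 [1,2,3,4,5,6,7,8,9,10,11] :=
  r_psplit 2 [] (PT.br 0 PT.ref (PT.br 1 (PT.br 2 PT.kid PT.ref) PT.ref)) ⟨13,[2],[],[]⟩ f2_G11 [1,2,3,4,5,6,7,8,9,10,11] (by decide +kernel) f2_o6 f2_n9
theorem f2_n7  : Bd f2_T f2_G9 [1,2,3,4,5,6,7,8,9,10,11] :=
  r_psplit 1 [] (PT.br 0 (PT.br 1 (PT.br 2 PT.ref PT.kid) PT.ref) PT.ref) ⟨12,[1],[],[]⟩ f2_G10 [1,2,3,4,5,6,7,8,9,10,11] (by decide +kernel) f2_o5 f2_n8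
theorem f2_n6  : Bd f2_T f2_G8 [1,2,3,4,5,6,7,8,9,10,11] :=
  r_apply lem_d [0,0,0,0,0,0,0,0,0,0,0] [] (by decide +kernel) (allRef_split 1 (allRef_expand 0 (allRef_split 4 f2_o2 f2_o3)) f2_o4)
theorem f2_n5  : Bd f2_T f2_G8 [1,2,3,4,5,6,7,8,9,10,11] :=
  r_learn [[1,2,3,4,5,6,7,8,9,10,11],[1,2,3,4,5,6,7,8,9,10,11],[1,2,3,4,5,6,7,8,9,10,11]] [⟨0,1,true⟩,⟨0,2,true⟩,⟨1,2,true⟩] ⟨12,[],[],[]⟩ f2_G8 [1,2,3,4,5,6,7,8,9,10,11] (by decide +kernel) (allRef_expand 0 (allRef_split 4 f2_o0 f2_o1)) f2_n6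
theorem f2_n4  : Bd f2_T f2_G6 [1,2,3,4,5,6,7,8,9,10,11] :=
  r_case [3,6,7] [⟨0,1,true⟩,⟨0,2,true⟩,⟨1,2,true⟩] [] ⟨12,[],[96],[]⟩ f2_G8 [1,2,3,4,5,6,7,8,9,10,11] f2_G9 [1,2,3,4,5,6,7,8,9,10,11] (by decide +kernel) f2_n5 f2_n7
theorem f2_n3  : Bd f2_T f2_G4 [1,2,3,4,5,6,7,8,9,10,11] :=
  r_case [3,4,9] [⟨0,1,true⟩,⟨0,2,true⟩,⟨1,2,true⟩] [] ⟨12,[],[95],[]⟩ f2_G6 [1,2,3,4,5,6,7,8,9,10,11] f2_G7 [1,2,3,4,5,6,7,8,9,10,11] (by decide +kernel) f2_n4 f2_n31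
theorem f2_n2  : Bd f2_T f2_G2 [1,2,3,4,5,6,7,8,9,10,11] :=
  r_case [2,5,10] [⟨0,1,true⟩,⟨0,2,true⟩,⟨1,2,true⟩] [] ⟨12,[],[94],[]⟩ f2_G4 [1,2,3,4,5,6,7,8,9,10,11] f2_G5 [1,2,3,4,5,6,7,8,9,10,11] (by decide +kernel) f2_n3 f2_n59
theorem f2_n1  : Bd f2_T f2_G0 [1,2,3,4,5,6,7,8,9,10,11] :=
  r_case [2,4,11] [⟨0,1,true⟩,⟨0,2,true⟩,⟨1,2,true⟩] [] ⟨12,[],[93],[]⟩ f2_G2 [1,2,3,4,5,6,7,8,9,10,11] f2_G3 [1,2,3,4,5,6,7,8,9,10,11] (by decide +kernel) f2_n2 f2_n87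
theorem f2_n0  : Bd f2_T (pureCtx 11 91) (pureAct 11) :=
  show Bd _ _ [1,2,3,4,5,6,7,8,9,10,11] from r_case [1,6,10] [⟨0,1,true⟩,⟨0,2,true⟩,⟨1,2,true⟩] [] ⟨12,[],[92],[]⟩ f2_G0 [1,2,3,4,5,6,7,8,9,10,11] f2_G1 [1,2,3,4,5,6,7,8,9,10,11] (by decide +kernel) f2_n1 f2_n111
theorem lem_f2  : Lem f2_T 11 91 := ⟨by decide +kernel, f2_n0⟩

end Pool.Agent.Lib.MP_849b2e_co
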