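import Pool.Agent.Lib.MP_849b2e_co.Fast
import Pool.Agent.Lib.MP_849b2e_co.Tf1
import Pool.Agent.Lib.MP_849b2e_co.RApply
import Pool.Agent.Lib.MP_849b2e_co.Tcl
import Pool.Agent.Lib.MP_849b2e_co.Td
import Pool.Agent.Lib.MP_849b2e_co.Tf2

set_option maxRecDepth 100000
set_option linter.all false
namespace Pool.Agent.Lib.MP_849b2e_co

noncomputable def f1_o0c : Pq := (Pq.cons (Pq.L [] 3 (Pf.B 3 1 (Pf.C 26 131) (Pf.B 2 1 (Pf.B 2 0 (Pf.C 87 16386) (Pf.C 206 2)) (Pf.C 68 49282))))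
 (Pq.cons (Pq.L [] 3 (Pf.B 3 1 (Pf.C 24 131) (Pf.B 2 1 (Pf.B 2 0 (Pf.C 86 16386) (Pf.C 206 2)) (Pf.C 67 49282))))
 (Pq.cons (Pq.L [] 1 (Pf.B 3 1 (Pf.B 3 0 (Pf.C 109 131) (Pf.C 151 16768)) (Pf.C 210 131)))
 (Pq.cons (Pq.L [] 1 (Pf.B 3 1 (Pf.B 3 0 (Pf.C 89 131) (Pf.C 166 16768)) (Pf.C 214 131)))
 (Pq.cons (Pq.L [] 3 (Pf.B 3 1 (Pf.C 24 131) (Pf.B 2 1 (Pf.B 2 0 (Pf.C 119 16386) (Pf.C 210 2)) (Pf.C 67 49282))))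
 (Pq.cons (Pq.L [] 1 (Pf.B 3 1 (Pf.B 3 0 (Pf.C 88 131) (Pf.C 182 16768)) (Pf.C 214 131)))
 Pq.nil))))))
theorem f1_o0 : AllRef f1_T f1_G4 (hitObl [3,6,10,16,18,22,26] f1_h10) :=
  chkPq_sound f1_o0c _ (by decide +kernel)
noncomputable def f1_o1c : Pq := (Pq.cons (Pq.L [] 2 (Pf.C 17 2))
 (Pq.cons (Pq.L [] 2 (Pf.C 13 256))
 (Pq.cons (Pq.L [] 1 (Pf.C 21 128))
 (Pq.cons (Pq.L [] 2 (Pf.C 17 2))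
 (Pq.cons (Pq.L [] 2 (Pf.C 13 256))
 (Pq.cons (Pq.L [] 1 (Pf.C 21 128))
 (Pq.cons (Pq.L [] 1 (Pf.C 208 1))
 (Pq.cons (Pq.L [] 1 (Pf.C 23 1))
 (Pq.cons (Pq.L [] 1 (Pf.W 211 0 [] [1] (Pf.cons (Pf.B 3 1 (Pf.C 105 16387) (Pf.C 70 385)) Pf.nil)))
 (Pq.cons (Pq.L [] 1 (Pf.C 9 128))
 (Pq.cons (Pq.L [] 1 (Pf.C 217 1))
 (Pq.cons (Pq.L [] 1 (Pf.W 211 0 [] [1] (Pf.cons (Pf.B 3 1 (Pf.C 105 16387) (Pf.C 70 385)) Pf.nil)))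
 (Pq.cons (Pq.L [] 1 (Pf.C 23 128))
 (Pq.cons (Pq.L [] 1 (Pf.C 210 128))
 (Pq.cons (Pq.L [] 1 (Pf.C 20 128))
 (Pq.cons (Pq.L [] 2 (Pf.C 34 256))
 (Pq.cons (Pq.L [] 1 (Pf.C 43 128))
 (Pq.cons (Pq.L [] 1 (Pf.W 211 0 [] [1] (Pf.cons (Pf.B 3 1 (Pf.C 104 16387) (Pf.C 70 385)) Pf.nil)))
 (Pq.cons (Pq.L [] 1 (Pf.C 8 128))
 (Pq.cons (Pq.L [] 1 (Pf.C 4 128))
 (Pq.cons (Pq.L [] 1 (Pf.C 48 1))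
 (Pq.cons (Pq.L [] 1 (Pf.W 207 0 [] [1] (Pf.cons (Pf.B 3 1 (Pf.C 114 16387) (Pf.C 71 385)) Pf.nil)))
 (Pq.cons (Pq.L [] 1 (Pf.C 20 1))
 (Pq.cons (Pq.L [] 1 (Pf.C 212 1))
 (Pq.cons (Pq.L [] 1 (Pf.W 207 0 [] [1] (Pf.cons (Pf.B 3 1 (Pf.C 138 16768) (Pf.C 71 385)) Pf.nil)))
 (Pq.cons (Pq.L [] 2 (Pf.C 13 256))
 (Pq.cons (Pq.L [] 1 (Pf.C 21 128))
 (Pq.cons (Pq.L [] 1 (Pf.C 41 128))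
 (Pq.cons (Pq.L [] 2 (Pf.C 33 256))
 (Pq.cons (Pq.L [] 1 (Pf.C 52 128))
 (Pq.cons (Pq.L [] 1 (Pf.C 42 128))
 (Pq.cons (Pq.L [] 1 (Pf.C 3 128))
 (Pq.cons (Pq.L [] 1 (Pf.C 7 128))
 (Pq.cons (Pq.L [] 1 (Pf.C 22 128))
 (Pq.cons (Pq.L [] 2 (Pf.C 14 2))
 (Pq.cons (Pq.L [] 2 (Pf.C 16 2))
 (Pq.cons (Pq.L [] 1 (Pf.C 22 128))
 (Pq.cons (Pq.L [] 2 (Pf.C 14 2))
 (Pq.cons (Pq.L [] 2 (Pf.C 16 2))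
 (Pq.cons (Pq.L [] 2 (Pf.C 35 256))
 (Pq.cons (Pq.L [] 2 (Pf.C 19 256))
 (Pq.cons (Pq.L [] 2 (Pf.C 32 256))
 (Pq.cons (Pq.L [] 1 (Pf.C 22 128))
 (Pq.cons (Pq.L [] 2 (Pf.C 14 2))
 (Pq.cons (Pq.L [] 1 (Pf.W 211 0 [] [1] (Pf.cons (Pf.B 3 1 (Pf.C 179 16768) (Pf.C 70 385)) Pf.nil)))
 (Pq.cons (Pq.L [] 1 (Pf.W 207 0 [] [1] (Pf.cons (Pf.B 3 1 (Pf.C 113 16387) (Pf.C 71 385)) Pf.nil)))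
 (Pq.cons (Pq.L [] 1 (Pf.C 44 128))
 (Pq.cons (Pq.L [] 2 (Pf.C 31 256))
 (Pq.cons (Pq.L [] 1 (Pf.W 207 0 [] [1] (Pf.cons (Pf.B 3 1 (Pf.C 139 16768) (Pf.C 71 385)) Pf.nil)))
 (Pq.cons (Pq.L [] 2 (Pf.C 19 256))
 (Pq.cons (Pq.L [] 1 (Pf.W 211 0 [] [1] (Pf.cons (Pf.B 3 1 (Pf.C 180 16768) (Pf.C 70 385)) Pf.nil)))
 (Pq.cons (Pq.L [] 1 (Pf.W 207 0 [] [1] (Pf.cons (Pf.B 3 1 (Pf.C 115 16387) (Pf.C 71 385)) Pf.nil)))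
 (Pq.cons (Pq.L [] 1 (Pf.C 219 128))
 (Pq.cons (Pq.L [] 1 (Pf.C 6 128))
 Pq.nil))))))))))))))))))))))))))))))))))))))))))))))))))))))
theorem f1_o1 : AllRef f1_T f1_G5 (splitObl [17,31,20,27,21,5,28,24,8,9,29,25,33,12,13,14,15,30] [19,32,23]) :=
  chkPq_sound f1_o1c _ (by decide +kernel)
noncomputable def f1_o2c : Pq := (Pq.cons (Pq.L [] 1 (Pf.C 206 128))
 (Pq.cons (Pq.L [] 2 (Pf.C 17 2))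
 (Pq.cons (Pq.L [] 1 (Pf.C 36 1))
 (Pq.cons (Pq.L [] 1 (Pf.C 21 128))
 (Pq.cons (Pq.L [] 1 (Pf.C 37 1))
 (Pq.cons (Pq.L [] 3 (Pf.B 2 1 (Pf.W 205 1 [] [0] (Pf.cons (Pf.B 3 0 (Pf.C 105 131) (Pf.C 69 16768)) Pf.nil)) (Pf.C 105 130)))
 (Pq.cons (Pq.L [] 2 (Pf.C 15 2))
 (Pq.cons (Pq.L [] 2 (Pf.C 15 2))
 (Pq.cons (Pq.L [] 3 (Pf.B 2 1 (Pf.C 85 130) (Pf.C 132 257)))
 (Pq.cons (Pq.L [] 3 (Pf.B 2 1 (Pf.W 205 1 [] [0] (Pf.cons (Pf.B 3 0 (Pf.C 82 131) (Pf.C 69 16768)) Pf.nil)) (Pf.C 82 130)))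
 (Pq.cons (Pq.L [] 1 (Pf.C 40 1))
 (Pq.cons (Pq.L [] 2 (Pf.C 17 256))
 (Pq.cons (Pq.L [] 1 (Pf.C 208 128))
 (Pq.cons (Pq.L [] 2 (Pf.C 34 2))
 (Pq.cons (Pq.L [] 1 (Pf.B 2 1 (Pf.W 225 1 [] [0] (Pf.cons (Pf.B 3 0 (Pf.C 148 49153) (Pf.C 6 384)) Pf.nil)) (Pf.C 208 130)))
 (Pq.cons (Pq.L [] 1 (Pf.B 2 1 (Pf.W 225 1 [] [0] (Pf.cons (Pf.B 3 0 (Pf.C 112 131) (Pf.C 6 384)) Pf.nil)) (Pf.C 208 130)))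
 (Pq.cons (Pq.L [] 1 (Pf.C 41 1))
 (Pq.cons (Pq.L [] 1 (Pf.C 22 1))
 (Pq.cons (Pq.L [] 2 (Pf.C 35 2))
 (Pq.cons (Pq.L [] 1 (Pf.C 22 1))
 (Pq.cons (Pq.L [] 1 (Pf.B 2 1 (Pf.W 225 1 [] [0] (Pf.cons (Pf.B 3 0 (Pf.C 149 49153) (Pf.C 2 384)) Pf.nil)) (Pf.C 208 130)))
 (Pq.cons (Pq.L [] 2 (Pf.B 2 1 (Pf.W 225 1 [] [0,2] (Pf.cons (Pf.B 3 0 (Pf.B 3 2 (Pf.C 123 386) (Pf.C 150 49154)) (Pf.C 2 384)) Pf.nil)) (Pf.C 208 130)))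
 (Pq.cons (Pq.L [] 1 (Pf.C 5 128))
 (Pq.cons (Pq.L [] 1 (Pf.C 9 128))
 (Pq.cons (Pq.L [] 1 (Pf.C 5 128))
 (Pq.cons (Pq.L [] 1 (Pf.C 222 128))
 (Pq.cons (Pq.L [] 1 (Pf.C 5 128))
 (Pq.cons (Pq.L [] 1 (Pf.C 9 128))
 (Pq.cons (Pq.L [] 1 (Pf.C 218 1))
 (Pq.cons (Pq.L [] 1 (Pf.C 5 128))
 (Pq.cons (Pq.L [] 1 (Pf.C 9 128))
 (Pq.cons (Pq.L [] 1 (Pf.C 224 128))
 (Pq.cons (Pq.L [] 1 (Pf.C 5 128))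
 (Pq.cons (Pq.L [] 2 (Pf.C 13 2))
 (Pq.cons (Pq.L [] 1 (Pf.C 23 128))
 (Pq.cons (Pq.L [] 1 (Pf.C 43 1))
 (Pq.cons (Pq.L [] 1 (Pf.C 20 128))
 (Pq.cons (Pq.L [] 2 (Pf.C 13 2))
 (Pq.cons (Pq.L [] 2 (Pf.C 33 2))
 (Pq.cons (Pq.L [] 2 (Pf.C 14 256))
 (Pq.cons (Pq.L [] 2 (Pf.C 19 2))
 (Pq.cons (Pq.L [] 2 (Pf.C 14 256))
 (Pq.cons (Pq.L [] 1 (Pf.C 44 1))
 (Pq.cons (Pq.L [] 2 (Pf.C 19 2))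
 (Pq.cons (Pq.L [] 1 (Pf.C 36 128))
 (Pq.cons (Pq.L [] 2 (Pf.C 34 256))
 (Pq.cons (Pq.L [] 1 (Pf.C 12 128))
 (Pq.cons (Pq.L [] 1 (Pf.B 2 1 (Pf.W 227 1 [] [0] (Pf.cons (Pf.B 3 0 (Pf.C 176 49153) (Pf.C 6 384)) Pf.nil)) (Pf.C 12 130)))
 (Pq.cons (Pq.L [] 1 (Pf.C 45 1))
 (Pq.cons (Pq.L [] 3 (Pf.B 2 1 (Pf.W 227 1 [] [0,2] (Pf.cons (Pf.B 3 0 (Pf.B 3 2 (Pf.C 197 16770) (Pf.C 177 49154)) (Pf.C 6 384)) Pf.nil)) (Pf.C 12 130)))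
 (Pq.cons (Pq.L [] 0 (Pf.B 2 1 (Pf.W 227 1 [] [0] (Pf.cons (Pf.B 3 0 (Pf.C 16 384) (Pf.C 2 384)) Pf.nil)) (Pf.C 12 130)))
 (Pq.cons (Pq.L [] 1 (Pf.C 46 1))
 (Pq.cons (Pq.L [] 2 (Pf.B 2 1 (Pf.W 227 1 [] [0,2] (Pf.cons (Pf.B 3 0 (Pf.B 3 2 (Pf.C 123 33152) (Pf.C 178 49154)) (Pf.C 2 384)) Pf.nil)) (Pf.C 12 130)))
 (Pq.cons (Pq.L [] 1 (Pf.C 47 1))
 (Pq.cons (Pq.L [] 1 (Pf.C 12 128))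
 (Pq.cons (Pq.L [] 1 (Pf.C 215 128))
 (Pq.cons (Pq.L [] 1 (Pf.C 8 128))
 (Pq.cons (Pq.L [] 1 (Pf.C 4 128))
 (Pq.cons (Pq.L [] 1 (Pf.C 48 1))
 (Pq.cons (Pq.L [] 1 (Pf.C 49 1))
 (Pq.cons (Pq.L [] 1 (Pf.C 8 128))
 (Pq.cons (Pq.L [] 2 (Pf.C 14 256))
 (Pq.cons (Pq.L [] 1 (Pf.C 51 1))
 (Pq.cons (Pq.L [] 1 (Pf.C 8 128))
 (Pq.cons (Pq.L [] 1 (Pf.C 4 128))
 (Pq.cons (Pq.L [] 1 (Pf.C 4 128))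
 (Pq.cons (Pq.L [] 1 (Pf.C 21 1))
 (Pq.cons (Pq.L [] 1 (Pf.B 2 1 (Pf.W 221 1 [] [0] (Pf.cons (Pf.B 3 0 (Pf.C 140 16768) (Pf.C 9 384)) Pf.nil)) (Pf.C 212 130)))
 (Pq.cons (Pq.L [] 1 (Pf.B 2 1 (Pf.W 221 1 [] [0] (Pf.cons (Pf.B 3 0 (Pf.C 155 16387) (Pf.C 5 384)) Pf.nil)) (Pf.C 212 130)))
 (Pq.cons (Pq.L [] 1 (Pf.C 212 128))
 (Pq.cons (Pq.L [] 1 (Pf.C 21 1))
 (Pq.cons (Pq.L [] 1 (Pf.C 52 1))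
 (Pq.cons (Pq.L [] 2 (Pf.C 16 256))
 (Pq.cons (Pq.L [] 2 (Pf.C 32 2))
 (Pq.cons (Pq.L [] 1 (Pf.B 2 1 (Pf.W 221 1 [] [0] (Pf.cons (Pf.B 3 0 (Pf.C 112 49280) (Pf.C 9 384)) Pf.nil)) (Pf.C 212 130)))
 (Pq.cons (Pq.L [] 2 (Pf.C 31 2))
 (Pq.cons (Pq.L [] 2 (Pf.B 2 1 (Pf.W 221 1 [] [0,2] (Pf.cons (Pf.B 3 0 (Pf.B 3 2 (Pf.C 124 386) (Pf.C 160 259)) (Pf.C 5 384)) Pf.nil)) (Pf.C 212 130)))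
 (Pq.cons (Pq.L [] 2 (Pf.C 13 2))
 (Pq.cons (Pq.L [] 1 (Pf.C 42 128))
 (Pq.cons (Pq.L [] 1 (Pf.C 3 128))
 (Pq.cons (Pq.L [] 1 (Pf.C 7 128))
 (Pq.cons (Pq.L [] 1 (Pf.C 7 128))
 (Pq.cons (Pq.L [] 1 (Pf.C 7 128))
 (Pq.cons (Pq.L [] 1 (Pf.C 220 1))
 (Pq.cons (Pq.L [] 1 (Pf.C 57 1))
 (Pq.cons (Pq.L [] 1 (Pf.C 58 1))
 (Pq.cons (Pq.L [] 1 (Pf.C 3 128))
 (Pq.cons (Pq.L [] 1 (Pf.C 3 128))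
 (Pq.cons (Pq.L [] 2 (Pf.C 15 256))
 (Pq.cons (Pq.L [] 1 (Pf.C 22 128))
 (Pq.cons (Pq.L [] 3 (Pf.B 2 1 (Pf.W 213 1 [] [0] (Pf.cons (Pf.B 3 0 (Pf.C 79 131) (Pf.C 67 16768)) Pf.nil)) (Pf.C 79 130)))
 (Pq.cons (Pq.L [] 2 (Pf.C 16 2))
 (Pq.cons (Pq.L [] 3 (Pf.B 2 1 (Pf.C 86 130) (Pf.C 181 32896)))
 (Pq.cons (Pq.L [] 3 (Pf.B 2 1 (Pf.W 213 1 [] [0] (Pf.cons (Pf.B 3 0 (Pf.C 115 131) (Pf.C 67 16768)) Pf.nil)) (Pf.C 115 130)))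
 (Pq.cons (Pq.L [] 1 (Pf.C 214 128))
 (Pq.cons (Pq.L [] 2 (Pf.C 18 2))
 (Pq.cons (Pq.L [] 1 (Pf.C 60 1))
 (Pq.cons (Pq.L [] 1 (Pf.C 61 1))
 (Pq.cons (Pq.L [] 1 (Pf.C 62 1))
 (Pq.cons (Pq.L [] 0 (Pf.B 2 1 (Pf.W 223 1 [] [0] (Pf.cons (Pf.B 3 0 (Pf.C 17 384) (Pf.C 5 384)) Pf.nil)) (Pf.C 10 130)))
 (Pq.cons (Pq.L [] 1 (Pf.B 2 1 (Pf.W 223 1 [] [0] (Pf.cons (Pf.B 3 0 (Pf.C 141 16768) (Pf.C 9 384)) Pf.nil)) (Pf.C 10 130)))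
 (Pq.cons (Pq.L [] 1 (Pf.C 47 128))
 (Pq.cons (Pq.L [] 2 (Pf.C 31 256))
 (Pq.cons (Pq.L [] 2 (Pf.B 2 1 (Pf.W 223 1 [] [0,2] (Pf.cons (Pf.B 3 0 (Pf.B 3 2 (Pf.C 124 33152) (Pf.C 162 32771)) (Pf.C 5 384)) Pf.nil)) (Pf.C 10 130)))
 (Pq.cons (Pq.L [] 3 (Pf.B 2 1 (Pf.W 223 1 [] [0,2] (Pf.cons (Pf.B 3 0 (Pf.B 3 2 (Pf.C 198 0x604002) (Pf.C 163 32771)) (Pf.C 9 384)) Pf.nil)) (Pf.C 10 130)))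
 (Pq.cons (Pq.L [] 1 (Pf.C 61 128))
 (Pq.cons (Pq.L [] 1 (Pf.C 64 128))
 (Pq.cons (Pq.L [] 1 (Pf.C 65 128))
 (Pq.cons (Pq.L [] 1 (Pf.C 10 128))
 (Pq.cons (Pq.L [] 1 (Pf.C 10 128))
 (Pq.cons (Pq.L [] 1 (Pf.C 216 128))
 (Pq.cons (Pq.L [] 1 (Pf.C 226 128))
 (Pq.cons (Pq.L [] 1 (Pf.C 228 128))
 (Pq.cons (Pq.L [] 1 (Pf.C 6 128))
 (Pq.cons (Pq.L [] 1 (Pf.C 6 128))
 (Pq.cons (Pq.L [] 1 (Pf.C 6 128))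
 (Pq.cons (Pq.L [] 1 (Pf.C 2 128))
 (Pq.cons (Pq.L [] 1 (Pf.C 2 128))
 (Pq.cons (Pq.L [] 1 (Pf.C 2 128))
 (Pq.cons (Pq.L [] 1 (Pf.C 2 128))
 (Pq.cons (Pq.L [] 1 (Pf.C 2 128))
 Pq.nil)))))))))))))))))))))))))))))))))))))))))))))))))))))))))))))))))))))))))))))))))))))))))))))))))))))))))))))))))))))))))
theorem f1_o2 : AllRef f1_T f1_G9 (splitObl [17,38,27,21,40,28,34,29,25,36,30] [31,39,41,35,8,9,33,12,13,37,15]) :=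
  chkPq_sound f1_o2c _ (by decide +kernel)
noncomputable def f1_o3c : Pq := (Pq.cons (Pq.L [] 0 (Pf.C 229 0))
 Pq.nil)
theorem f1_o3 : AllRef f1_T f1_G10 (List.map pat1 [17]) :=
  chkPq_sound f1_o3c _ (by decide +kernel)
noncomputable def f1_o4c : Pq := (Pq.cons (Pq.L [] 0 (Pf.C 231 0))
 Pq.nil)
theorem f1_o4 : AllRef f1_T f1_G13 (List.map pat1 [40]) :=
  chkPq_sound f1_o4c _ (by decide +kernel)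
noncomputable def f1_o5c : Pq := (Pq.cons (Pq.L [] 0 (Pf.C 233 0))
 Pq.nil)
theorem f1_o5 : AllRef f1_T f1_G16 (List.map pat1 [38]) :=
  chkPq_sound f1_o5c _ (by decide +kernel)
noncomputable def f1_o6c : Pq := (Pq.cons (Pq.L [] 0 (Pf.C 235 0))
 Pq.nil)
theorem f1_o6 : AllRef f1_T f1_G19 (List.map pat1 [25]) :=
  chkPq_sound f1_o6c _ (by decide +kernel)
noncomputable def f1_o7c : Pq := (Pq.cons (Pq.L [] 0 (Pf.C 237 0))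
 Pq.nil)
theorem f1_o7 : AllRef f1_T f1_G22 (List.map pat1 [36]) :=
  chkPq_sound f1_o7c _ (by decide +kernel)
noncomputable def f1_o8c : Pq := (Pq.cons (Pq.L [] 0 (Pf.C 239 0))
 Pq.nil)
theorem f1_o8 : AllRef f1_T f1_G25 (List.map pat1 [34]) :=
  chkPq_sound f1_o8c _ (by decide +kernel)
noncomputable def f1_o9c : Pq := (Pq.cons (Pq.L [] 7 (Pf.C 74 32769))
 (Pq.cons (Pq.L [] 2 (Pf.C 8 256))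
 (Pq.cons (Pq.L [] 7 (Pf.C 109 32769))
 (Pq.cons (Pq.L [] 2 (Pf.C 4 256))
 (Pq.cons (Pq.L [] 2 (Pf.C 3 256))
 (Pq.cons (Pq.L [] 7 (Pf.C 119 32769))
 (Pq.cons (Pq.L [] 2 (Pf.C 8 2))
 (Pq.cons (Pq.L [] 2 (Pf.C 4 2))
 (Pq.cons (Pq.L [] 7 (Pf.C 73 32769))
 (Pq.cons (Pq.L [] 2 (Pf.C 3 256))
 (Pq.cons (Pq.L [] 2 (Pf.C 3 2))
 (Pq.cons (Pq.L [] 2 (Pf.C 3 2))
 (Pq.cons (Pq.L [] 7 (Pf.C 73 32769))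
 (Pq.cons (Pq.L [] 2 (Pf.C 6 256))
 (Pq.cons (Pq.L [] 2 (Pf.C 6 2))
 (Pq.cons (Pq.L [] 7 (Pf.C 72 32769))
 Pq.nil))))))))))))))))
theorem f1_o9 : AllRef f1_T f1_G27 (twinObl [27,21,28,29,30] 29 [26,2,16,1,7]) :=
  chkPq_sound f1_o9c _ (by decide +kernel)
noncomputable def f1_o10c : Pq := (Pq.cons (Pq.L [] 1 (Pf.C 27 128))
 (Pq.cons (Pq.L [] 1 (Pf.C 8 128))
 (Pq.cons (Pq.L [] 1 (Pf.C 4 128))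
 (Pq.cons (Pq.L [] 1 (Pf.C 3 128))
 (Pq.cons (Pq.L [] 1 (Pf.C 8 1))
 (Pq.cons (Pq.L [] 1 (Pf.C 4 1))
 (Pq.cons (Pq.L [] 1 (Pf.C 26 128))
 (Pq.cons (Pq.L [] 1 (Pf.C 3 128))
 (Pq.cons (Pq.L [] 1 (Pf.C 3 1))
 (Pq.cons (Pq.L [] 1 (Pf.C 3 1))
 (Pq.cons (Pq.L [] 1 (Pf.C 25 128))
 (Pq.cons (Pq.L [] 1 (Pf.C 6 128))
 (Pq.cons (Pq.L [] 1 (Pf.C 6 1))
 (Pq.cons (Pq.L [] 1 (Pf.C 24 128))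
 (Pq.cons (Pq.L [] 1 (Pf.C 27 128))
 (Pq.cons (Pq.L [] 1 (Pf.C 8 128))
 (Pq.cons (Pq.L [] 1 (Pf.C 4 128))
 (Pq.cons (Pq.L [] 1 (Pf.C 3 128))
 (Pq.cons (Pq.L [] 1 (Pf.C 8 1))
 (Pq.cons (Pq.L [] 1 (Pf.C 4 1))
 (Pq.cons (Pq.L [] 1 (Pf.C 26 128))
 (Pq.cons (Pq.L [] 1 (Pf.C 3 128))
 (Pq.cons (Pq.L [] 1 (Pf.C 3 1))
 (Pq.cons (Pq.L [] 1 (Pf.C 3 1))
 (Pq.cons (Pq.L [] 1 (Pf.C 25 128))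
 (Pq.cons (Pq.L [] 1 (Pf.C 6 128))
 (Pq.cons (Pq.L [] 1 (Pf.C 6 1))
 (Pq.cons (Pq.L [] 1 (Pf.C 24 128))
 Pq.nil))))))))))))))))))))))))))))
theorem f1_o10 : AllRef f1_T f1_G28 (blockObl [42,43,44,45,46] [1,0,4,8,16] [26,19,16,1,7] [26,19,16,1,7]) :=
  chkPq_sound f1_o10c _ (by decide +kernel)
noncomputable def f1_o11c : Pq := (Pq.cons (Pq.L [] 0 (Pf.W 243 0 [] [] (Pf.cons (Pf.T 1 10 (Pf.cons (Pf.W 243 0 [1] [] (Pf.cons (Pf.B 2 1 (Pf.C 151 16640) (Pf.C 68 16640)) (Pf.cons (Pf.B 2 1 (Pf.C 153 32896) (Pf.C 3 257)) (Pf.cons (Pf.W 243 0 [1,2] [] (Pf.cons (Pf.B 3 1 (Pf.C 151 16768) (Pf.C 68 16768)) (Pf.cons (Pf.B 3 1 (Pf.C 153 49280) (Pf.C 3 385)) (Pf.cons (Pf.B 3 2 (Pf.C 24 259) (Pf.C 67 33152)) Pf.nil)))) Pf.nil)))) (Pf.cons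 (Pf.W 243 0 [1] [] (Pf.cons (Pf.B 2 1 (Pf.C 151 16640) (Pf.C 68 16640)) (Pf.cons (Pf.B 2 1 (Pf.C 153 32896) (Pf.C 3 257)) (Pf.cons (Pf.W 243 0 [1,2] [] (Pf.cons (Pf.B 3 1 (Pf.C 151 16768) (Pf.C 68 16768)) (Pf.cons (Pf.B 3 1 (Pf.C 153 49280) (Pf.C 3 385)) (Pf.cons (Pf.B 3 2 (Pf.C 24 259) (Pf.C 67 33152)) Pf.nil)))) Pf.nil)))) Pf.nil))) (Pf.cons (Pf.T 1 12 (Pf.cons (Pf.W 247 1 [0] [] (Pf.cons (Pf.B 2 0 (Pf.C 27 2) (Pf.C 69 257)) Pf.nil)) (Pf.cons (Pf.W 243 0 [1] [] (Pf.cons (Pf.B 2 1 (Pf.C 153 16640) (Pf.C 3 130)) (Pf.cons (Pf.B 2 1 (Pf.C 25 130) (Pf.C 68 16640)) (Pf.cons (Pf.W 243 0 [1,2] [] (Pf.cons (Pf.B 3 1 (Pf.C 153 16768) (Pf.C 3 131)) (Pf.cons (Pf.B 3 1 (Pf.C 25 131) (Pf.C 68 16768)) (Pf.cons (Pf.B 3 2 (Pf.C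 24 259) (Pf.C 67 33152)) Pf.nil)))) Pf.nil)))) Pf.nil))) (Pf.cons (Pf.T 1 13 (Pf.cons (Pf.W 243 0 [1] [] (Pf.cons (Pf.W 243 0 [1,2] [] (Pf.cons (Pf.B 3 2 (Pf.C 151 33152) (Pf.C 68 33152)) (Pf.cons (Pf.B 3 2 (Pf.C 153 49408) (Pf.C 3 386)) (Pf.cons (Pf.B 3 1 (Pf.C 24 131) (Pf.C 67 16768)) Pf.nil)))) (Pf.cons (Pf.W 243 0 [1,2] [] (Pf.cons (Pf.B 3 2 (Pf.C 153 33152) (Pf.C 3 259)) (Pf.cons (Pf.B 3 2 (Pf.C 25 259) (Pf.C 68 33152)) (Pf.cons (Pf.B 3 1 (Pf.C 24 131) (Pf.C 67 16768)) Pf.nil)))) (Pf.cons (Pf.B 2 1 (Pf.C 24 130) (Pf.C 67 16640)) Pf.nil)))) (Pf.cons (Pf.W 243 0 [1] [] (Pf.cons (Pf.W 243 0 [1,2] [] (Pf.cons (Pf.B 3 2 (Pf.C 151 33152) (Pf.C 68 33152)) (Pf.cons (Pf.B 3 2 (Pf.C 153 49408) (Pf.C 3 386)) (Pf.cons (Pf.B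 3 1 (Pf.C 24 131) (Pf.C 67 16768)) Pf.nil)))) (Pf.cons (Pf.W 243 0 [1,2] [] (Pf.cons (Pf.B 3 2 (Pf.C 153 33152) (Pf.C 3 259)) (Pf.cons (Pf.B 3 2 (Pf.C 25 259) (Pf.C 68 33152)) (Pf.cons (Pf.B 3 1 (Pf.C 24 131) (Pf.C 67 16768)) Pf.nil)))) (Pf.cons (Pf.B 2 1 (Pf.C 24 130) (Pf.C 67 16640)) Pf.nil)))) Pf.nil))) Pf.nil)))))
 (Pq.cons (Pq.L [] 0 (Pf.W 246 0 [] [] (Pf.cons (Pf.W 246 0 [1] [] (Pf.cons (Pf.B 2 1 (Pf.C 24 130) (Pf.C 67 16640)) Pf.nil)) Pf.nil)))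
 (Pq.cons (Pq.L [] 0 (Pf.W 247 0 [] [] (Pf.cons (Pf.W 247 0 [1] [] (Pf.cons (Pf.B 2 1 (Pf.C 27 130) (Pf.C 69 16640)) Pf.nil)) Pf.nil)))
 (Pq.cons (Pq.L [] 0 (Pf.W 248 0 [] [] (Pf.cons (Pf.T 1 9 (Pf.cons (Pf.W 248 0 [1] [] (Pf.cons (Pf.B 2 1 (Pf.C 27 130) (Pf.C 69 16640)) (Pf.cons (Pf.W 248 0 [1,2] [] (Pf.cons (Pf.B 3 1 (Pf.C 27 131) (Pf.C 69 16768)) (Pf.cons (Pf.B 3 2 (Pf.C 170 259) (Pf.C 68 33152)) (Pf.cons (Pf.B 3 2 (Pf.C 172 386) (Pf.C 4 386)) Pf.nil)))) (Pf.cons (Pf.W 248 0 [1,2] [] (Pf.cons (Pf.B 3 1 (Pf.C 27 131) (Pf.C 69 16768)) (Pf.cons (Pf.B 3 2 (Pf.C 172 259) (Pf.C 4 259)) (Pf.cons (Pf.B 3 2 (Pf.C 26 259) (Pf.C 68 33152)) Pf.nil)))) Pf.nil)))) (Pf.cons (Pf.W 248 0 [1] [] (Pf.cons (Pf.B 2 1 (Pf.C 27 130)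 (Pf.C 69 16640)) (Pf.cons (Pf.W 248 0 [1,2] [] (Pf.cons (Pf.B 3 1 (Pf.C 27 131) (Pf.C 69 16768)) (Pf.cons (Pf.B 3 2 (Pf.C 170 259) (Pf.C 68 33152)) (Pf.cons (Pf.B 3 2 (Pf.C 172 386) (Pf.C 4 386)) Pf.nil)))) (Pf.cons (Pf.W 248 0 [1,2] [] (Pf.cons (Pf.B 3 1 (Pf.C 27 131) (Pf.C 69 16768)) (Pf.cons (Pf.B 3 2 (Pf.C 172 259) (Pf.C 4 259)) (Pf.cons (Pf.B 3 2 (Pf.C 26 259) (Pf.C 68 33152)) Pf.nil)))) Pf.nil)))) Pf.nil))) (Pf.cons (Pf.T 1 10 (Pf.cons (Pf.W 248 0 [1] [] (Pf.cons (Pf.W 248 0 [1,2] [] (Pf.cons (Pf.B 3 2 (Pf.C 27 259) (Pf.C 69 33152)) (Pf.cons (Pf.B 3 1 (Pf.C 170 131) (Pf.C 68 16768)) (Pf.cons (Pf.B 3 1 (Pf.C 172 385) (Pf.C 4 385)) Pf.nil)))) (Pf.cons (Pf.B 2 1 (Pf.C 170 130) (Pf.C 68 16640)) (Pf.cons (Pf.B 2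 1 (Pf.C 172 257) (Pf.C 4 257)) Pf.nil)))) (Pf.cons (Pf.W 248 0 [1] [] (Pf.cons (Pf.W 248 0 [1,2] [] (Pf.cons (Pf.B 3 2 (Pf.C 27 259) (Pf.C 69 33152)) (Pf.cons (Pf.B 3 1 (Pf.C 170 131) (Pf.C 68 16768)) (Pf.cons (Pf.B 3 1 (Pf.C 172 385) (Pf.C 4 385)) Pf.nil)))) (Pf.cons (Pf.B 2 1 (Pf.C 170 130) (Pf.C 68 16640)) (Pf.cons (Pf.B 2 1 (Pf.C 172 257) (Pf.C 4 257)) Pf.nil)))) Pf.nil))) (Pf.cons (Pf.T 1 11 (Pf.cons (Pf.W 246 1 [0] [] (Pf.cons (Pf.B 2 0 (Pf.C 24 2) (Pf.C 67 257)) Pf.nil)) (Pf.cons (Pf.W 248 0 [1] [] (Pf.cons (Pf.W 248 0 [1,2] [] (Pf.cons (Pf.B 3 2 (Pf.C 27 259) (Pf.C 69 33152)) (Pf.cons (Pf.B 3 1 (Pf.C 172 131) (Pf.C 4 131)) (Pf.cons (Pf.B 3 1 (Pf.C 26 131) (Pf.C 68 16768)) Pf.nil)))) (Pf.cons (Pf.B 2 1 (Pf.C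 172 130) (Pf.C 4 130)) (Pf.cons (Pf.B 2 1 (Pf.C 26 130) (Pf.C 68 16640)) Pf.nil)))) Pf.nil))) Pf.nil)))))
 Pq.nil))))
theorem f1_o11 : AllRef f1_T f1_G34 (List.map pat1 [62,66,68,70]) :=
  chkPq_sound f1_o11c _ (by decide +kernel)
noncomputable def f1_o12c : Pq := Pq.nil
theorem f1_o12 : AllRef f1_T f1_G35 (extObl 64 [] []) :=
  chkPq_sound f1_o12c _ (by decide +kernel)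
noncomputable def f1_o13c : Pq := (Pq.cons (Pq.D 0 (Pq.cons (Pq.D 1 (Pq.cons (Pq.L [] 1 (Pf.C 27 128))
 (Pq.cons (Pq.D 2 (Pq.cons (Pq.L [] 2 (Pf.C 27 256))
 (Pq.cons (Pq.L [] 3 (Pf.B 2 1 (Pf.C 151 16640) (Pf.C 68 16640)))
 (Pq.cons (Pq.L [] 2 (Pf.C 8 256))
 (Pq.cons (Pq.L [] 3 (Pf.B 2 1 (Pf.C 153 32896) (Pf.C 3 257)))
 (Pq.cons (Pq.D 3 (Pq.cons (Pq.L [] 4 (Pf.C 27 384))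
 (Pq.cons (Pq.L [] 7 (Pf.C 244 0x608080))
 (Pq.cons (Pq.L [] 4 (Pf.C 8 384))
 (Pq.cons (Pq.L [] 7 (Pf.C 244 0x608080))
 (Pq.cons (Pq.L [] 7 (Pf.C 244 0x608080))
 Pq.nil)))))) Pq.nil)))))) (Pq.cons (Pq.L [] 1 (Pf.C 8 128))
 (Pq.cons (Pq.D 2 (Pq.cons (Pq.L [] 2 (Pf.C 27 256))
 (Pq.cons (Pq.L [] 3 (Pf.B 2 1 (Pf.C 153 16640) (Pf.C 3 130)))
 (Pq.cons (Pq.L [] 2 (Pf.C 8 256))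
 (Pq.cons (Pq.L [] 3 (Pf.B 2 1 (Pf.C 25 130) (Pf.C 68 16640)))
 (Pq.cons (Pq.D 3 (Pq.cons (Pq.L [] 4 (Pf.C 27 384))
 (Pq.cons (Pq.L [] 7 (Pf.C 244 0x608080))
 (Pq.cons (Pq.L [] 4 (Pf.C 8 384))
 (Pq.cons (Pq.L [] 7 (Pf.C 244 0x608080))
 (Pq.cons (Pq.L [] 7 (Pf.C 244 0x608080))
 Pq.nil)))))) Pq.nil)))))) (Pq.cons (Pq.D 2 (Pq.cons (Pq.L [] 2 (Pf.C 27 256))
 (Pq.cons (Pq.D 3 (Pq.cons (Pq.L [] 4 (Pf.C 27 384))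
 (Pq.cons (Pq.L [] 7 (Pf.C 244 0x608080))
 (Pq.cons (Pq.L [] 4 (Pf.C 8 384))
 (Pq.cons (Pq.L [] 7 (Pf.C 244 0x608080))
 (Pq.cons (Pq.L [] 7 (Pf.C 244 0x608080))
 Pq.nil)))))) (Pq.cons (Pq.L [] 2 (Pf.C 8 256))
 (Pq.cons (Pq.D 3 (Pq.cons (Pq.L [] 4 (Pf.C 27 384))
 (Pq.cons (Pq.L [] 7 (Pf.C 244 0x608080))
 (Pq.cons (Pq.L [] 4 (Pf.C 8 384))
 (Pq.cons (Pq.L [] 7 (Pf.C 244 0x608080))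
 (Pq.cons (Pq.L [] 7 (Pf.C 244 0x608080))
 Pq.nil)))))) (Pq.cons (Pq.L [] 3 (Pf.B 2 1 (Pf.C 24 130) (Pf.C 67 16640)))
 Pq.nil)))))) Pq.nil)))))) (Pq.cons (Pq.D 1 (Pq.cons (Pq.D 2 (Pq.cons (Pq.L [] 3 (Pf.B 2 1 (Pf.C 27 130) (Pf.C 69 16640)))
 (Pq.cons (Pq.D 3 (Pq.cons (Pq.L [] 7 (Pf.C 245 0x608080))
 (Pq.cons (Pq.L [] 7 (Pf.C 245 0x608080))
 (Pq.cons (Pq.L [] 5 (Pf.B 3 1 (Pf.C 109 16387) (Pf.C 8 385)))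
 (Pq.cons (Pq.L [] 5 (Pf.B 3 1 (Pf.C 109 16387) (Pf.C 153 49153)))
 (Pq.cons (Pq.L [] 7 (Pf.C 245 0x608080))
 Pq.nil)))))) (Pq.cons (Pq.L [] 3 (Pf.B 2 1 (Pf.C 109 16386) (Pf.C 8 257)))
 (Pq.cons (Pq.L [] 3 (Pf.B 2 1 (Pf.C 109 16386) (Pf.C 153 32769)))
 (Pq.cons (Pq.D 3 (Pq.cons (Pq.L [] 7 (Pf.C 245 0x608080))
 (Pq.cons (Pq.L [] 7 (Pf.C 245 0x608080))
 (Pq.cons (Pq.L [] 6 (Pf.B 3 2 (Pf.C 119 32771) (Pf.C 172 33152)))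
 (Pq.cons (Pq.L [] 6 (Pf.B 3 2 (Pf.C 119 32771) (Pf.C 6 259)))
 (Pq.cons (Pq.L [] 7 (Pf.C 245 0x608080))
 Pq.nil)))))) Pq.nil)))))) (Pq.cons (Pq.D 2 (Pq.cons (Pq.D 3 (Pq.cons (Pq.L [] 7 (Pf.C 245 0x608080))
 (Pq.cons (Pq.L [] 7 (Pf.C 245 0x608080))
 (Pq.cons (Pq.L [] 6 (Pf.B 3 2 (Pf.C 109 32771) (Pf.C 8 386)))
 (Pq.cons (Pq.L [] 6 (Pf.B 3 2 (Pf.C 109 32771) (Pf.C 153 49154)))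
 (Pq.cons (Pq.L [] 7 (Pf.C 245 0x608080))
 Pq.nil)))))) (Pq.cons (Pq.D 3 (Pq.cons (Pq.L [] 7 (Pf.C 245 0x608080))
 (Pq.cons (Pq.L [] 7 (Pf.C 245 0x608080))
 (Pq.cons (Pq.L [] 0 (Pf.B 3 2 (Pf.B 3 1 (Pf.W 241 3 [] [2] (Pf.cons (Pf.B 4 2 (Pf.C 96 49666) (Pf.C 172 65922)) Pf.nil)) (Pf.C 4 385)) (Pf.C 4 386)))
 (Pq.cons (Pq.L [] 0 (Pf.B 3 2 (Pf.B 3 1 (Pf.W 242 3 [] [2] (Pf.cons (Pf.B 4 2 (Pf.C 98 65922) (Pf.C 153 49412)) Pf.nil)) (Pf.C 3 385)) (Pf.C 3 386)))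
 (Pq.cons (Pq.L [] 7 (Pf.C 245 0x608080))
 Pq.nil)))))) (Pq.cons (Pq.L [] 0 (Pf.B 2 1 (Pf.B 3 2 (Pf.W 241 2 [] [1] (Pf.cons (Pf.B 4 1 (Pf.C 96 33281) (Pf.C 172 65793)) Pf.nil)) (Pf.B 3 1 (Pf.W 241 2 [] [1] (Pf.cons (Pf.B 4 1 (Pf.C 96 33281) (Pf.C 172 65793)) Pf.nil)) (Pf.B 3 0 (Pf.W 241 2 [] [1] (Pf.cons (Pf.B 4 1 (Pf.C 96 33281) (Pf.C 172 65793)) Pf.nil)) (Pf.W 241 2 [] [1] (Pf.cons (Pf.B 4 1 (Pf.C 96 33281) (Pf.C 172 65793)) Pf.nil))))) (Pf.C 4 257)))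
 (Pq.cons (Pq.L [] 0 (Pf.B 2 1 (Pf.B 3 2 (Pf.W 242 2 [] [1] (Pf.cons (Pf.B 4 1 (Pf.C 98 65793) (Pf.C 153 32900)) Pf.nil)) (Pf.B 3 1 (Pf.W 242 2 [] [1] (Pf.cons (Pf.B 4 1 (Pf.C 98 65793) (Pf.C 153 32900)) Pf.nil)) (Pf.B 3 0 (Pf.W 242 2 [] [1] (Pf.cons (Pf.B 4 1 (Pf.C 98 65793) (Pf.C 153 32900)) Pf.nil)) (Pf.W 242 2 [] [1] (Pf.cons (Pf.B 4 1 (Pf.C 98 65793) (Pf.C 153 32900)) Pf.nil))))) (Pf.C 3 257)))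
 (Pq.cons (Pq.D 3 (Pq.cons (Pq.L [] 7 (Pf.C 245 0x608080))
 (Pq.cons (Pq.L [] 7 (Pf.C 245 0x608080))
 (Pq.cons (Pq.L [] 6 (Pf.B 3 2 (Pf.C 119 32771) (Pf.C 172 33152)))
 (Pq.cons (Pq.L [] 6 (Pf.B 3 2 (Pf.C 119 32771) (Pf.C 6 259)))
 (Pq.cons (Pq.L [] 7 (Pf.C 245 0x608080))
 Pq.nil)))))) Pq.nil)))))) (Pq.cons (Pq.D 2 (Pq.cons (Pq.L [] 3 (Pf.B 2 1 (Pf.C 109 32769) (Pf.C 8 130)))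
 (Pq.cons (Pq.L [] 0 (Pf.B 2 1 (Pf.B 3 2 (Pf.B 3 1 (Pf.W 241 1 [] [2] (Pf.cons (Pf.B 4 2 (Pf.C 96 16898) (Pf.C 172 65666)) Pf.nil)) (Pf.W 241 1 [] [2] (Pf.cons (Pf.B 4 2 (Pf.C 96 16898) (Pf.C 172 65666)) Pf.nil))) (Pf.B 3 1 (Pf.W 241 1 [] [2] (Pf.cons (Pf.B 4 2 (Pf.C 96 16898) (Pf.C 172 65666)) Pf.nil)) (Pf.B 3 0 (Pf.W 241 1 [] [2] (Pf.cons (Pf.B 4 2 (Pf.C 96 16898) (Pf.C 172 65666)) Pf.nil)) (Pf.W 241 1 [] [2] (Pf.cons (Pf.B 4 2 (Pf.C 96 16898) (Pf.C 172 65666)) Pf.nil))))) (Pf.C 4 130)))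
 (Pq.cons (Pq.L [] 3 (Pf.B 2 1 (Pf.C 26 130) (Pf.B 3 2 (Pf.B 3 1 (Pf.W 241 1 [] [0,2] (Pf.cons (Pf.B 4 2 (Pf.B 4 0 (Pf.C 96 16896) (Pf.C 119 65538)) (Pf.C 68 16644)) Pf.nil)) (Pf.B 3 0 (Pf.W 241 1 [] [0,2] (Pf.cons (Pf.B 4 2 (Pf.B 4 0 (Pf.C 96 16896) (Pf.C 119 65538)) (Pf.C 68 16644)) Pf.nil)) (Pf.W 241 1 [] [0,2] (Pf.cons (Pf.B 4 2 (Pf.B 4 0 (Pf.C 96 16896) (Pf.C 119 65538)) (Pf.C 68 16644)) Pf.nil)))) (Pf.B 3 1 (Pf.W 241 1 [] [0,2] (Pf.cons (Pf.B 4 2 (Pf.B 4 0 (Pf.C 96 16896) (Pf.C 119 65538)) (Pf.C 68 16644)) Pf.nil)) (Pf.W 241 1 [] [0,2] (Pf.cons (Pf.B 4 2 (Pf.B 4 0 (Pf.C 96 16896) (Pf.C 119 65538)) (Pf.C 68 16644)) Pf.nil))))))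
 (Pq.cons (Pq.L [] 0 (Pf.B 2 1 (Pf.B 3 2 (Pf.B 3 1 (Pf.W 241 1 [] [2] (Pf.cons (Pf.B 4 2 (Pf.C 96 16898) (Pf.C 6 514)) Pf.nil)) (Pf.W 241 1 [] [2] (Pf.cons (Pf.B 4 2 (Pf.C 96 16898) (Pf.C 6 514)) Pf.nil))) (Pf.W 241 1 [] [2] (Pf.cons (Pf.B 4 2 (Pf.C 96 16898) (Pf.C 6 514)) Pf.nil))) (Pf.C 3 257)))
 (Pq.cons (Pq.L [] 3 (Pf.B 2 1 (Pf.C 119 32769) (Pf.C 172 32896)))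
 Pq.nil)))))) (Pq.cons (Pq.D 2 (Pq.cons (Pq.L [] 3 (Pf.B 2 1 (Pf.C 109 32769) (Pf.C 153 16386)))
 (Pq.cons (Pq.L [] 0 (Pf.B 2 1 (Pf.B 3 2 (Pf.B 3 1 (Pf.W 242 1 [] [2] (Pf.cons (Pf.B 4 2 (Pf.C 98 65666) (Pf.C 153 16644)) Pf.nil)) (Pf.W 242 1 [] [2] (Pf.cons (Pf.B 4 2 (Pf.C 98 65666) (Pf.C 153 16644)) Pf.nil))) (Pf.B 3 1 (Pf.W 242 1 [] [2] (Pf.cons (Pf.B 4 2 (Pf.C 98 65666) (Pf.C 153 16644)) Pf.nil)) (Pf.B 3 0 (Pf.W 242 1 [] [2] (Pf.cons (Pf.B 4 2 (Pf.C 98 65666) (Pf.C 153 16644)) Pf.nil)) (Pf.W 242 1 [] [2] (Pf.cons (Pf.B 4 2 (Pf.C 98 65666) (Pf.C 153 16644)) Pf.nil))))) (Pf.C 3 130)))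
 (Pq.cons (Pq.L [] 0 (Pf.B 2 1 (Pf.B 3 2 (Pf.W 241 2 [] [1] (Pf.cons (Pf.B 4 1 (Pf.C 96 33281) (Pf.C 6 513)) Pf.nil)) (Pf.B 3 1 (Pf.W 241 2 [] [1] (Pf.cons (Pf.B 4 1 (Pf.C 96 33281) (Pf.C 6 513)) Pf.nil)) (Pf.W 241 2 [] [1] (Pf.cons (Pf.B 4 1 (Pf.C 96 33281) (Pf.C 6 513)) Pf.nil)))) (Pf.C 3 130)))
 (Pq.cons (Pq.L [] 3 (Pf.B 2 1 (Pf.C 25 130) (Pf.B 3 2 (Pf.B 3 1 (Pf.W 242 1 [] [0,2] (Pf.cons (Pf.B 4 2 (Pf.B 4 0 (Pf.C 98 65664) (Pf.C 109 65538)) (Pf.C 68 16644)) Pf.nil)) (Pf.B 3 0 (Pf.W 242 1 [] [0,2] (Pf.cons (Pf.B 4 2 (Pf.B 4 0 (Pf.C 98 65664) (Pf.C 109 65538)) (Pf.C 68 16644)) Pf.nil)) (Pf.W 242 1 [] [0,2] (Pf.cons (Pf.B 4 2 (Pf.B 4 0 (Pf.C 98 65664) (Pf.C 109 65538)) (Pf.C 68 16644)) Pf.nil)))) (Pf.B 3 1 (Pf.W 242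 1 [] [0,2] (Pf.cons (Pf.B 4 2 (Pf.B 4 0 (Pf.C 98 65664) (Pf.C 109 65538)) (Pf.C 68 16644)) Pf.nil)) (Pf.W 242 1 [] [0,2] (Pf.cons (Pf.B 4 2 (Pf.B 4 0 (Pf.C 98 65664) (Pf.C 109 65538)) (Pf.C 68 16644)) Pf.nil))))))
 (Pq.cons (Pq.L [] 3 (Pf.B 2 1 (Pf.C 119 32769) (Pf.C 6 257)))
 Pq.nil)))))) (Pq.cons (Pq.D 2 (Pq.cons (Pq.D 3 (Pq.cons (Pq.L [] 7 (Pf.C 245 0x608080))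
 (Pq.cons (Pq.L [] 7 (Pf.C 245 0x608080))
 (Pq.cons (Pq.L [] 6 (Pf.B 3 2 (Pf.C 109 32771) (Pf.C 8 386)))
 (Pq.cons (Pq.L [] 6 (Pf.B 3 2 (Pf.C 109 32771) (Pf.C 153 49154)))
 (Pq.cons (Pq.L [] 7 (Pf.C 245 0x608080))
 Pq.nil)))))) (Pq.cons (Pq.D 3 (Pq.cons (Pq.L [] 7 (Pf.C 245 0x608080))
 (Pq.cons (Pq.L [] 7 (Pf.C 245 0x608080))
 (Pq.cons (Pq.L [] 5 (Pf.B 3 1 (Pf.C 119 16387) (Pf.C 172 16768)))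
 (Pq.cons (Pq.L [] 5 (Pf.B 3 1 (Pf.C 119 16387) (Pf.C 6 131)))
 (Pq.cons (Pq.L [] 7 (Pf.C 245 0x608080))
 Pq.nil)))))) (Pq.cons (Pq.L [] 3 (Pf.B 2 1 (Pf.C 119 16386) (Pf.C 172 16640)))
 (Pq.cons (Pq.L [] 3 (Pf.B 2 1 (Pf.C 119 16386) (Pf.C 6 130)))
 (Pq.cons (Pq.L [] 3 (Pf.B 2 1 (Pf.C 24 130) (Pf.C 67 16640)))
 Pq.nil)))))) Pq.nil)))))) (Pq.cons (Pq.D 1 (Pq.cons (Pq.L [] 1 (Pf.C 8 1))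
 (Pq.cons (Pq.D 2 (Pq.cons (Pq.L [] 2 (Pf.C 8 2))
 (Pq.cons (Pq.D 3 (Pq.cons (Pq.L [] 4 (Pf.C 8 3))
 (Pq.cons (Pq.L [] 4 (Pf.W 241 0 [] [3] (Pf.cons (Pf.B 4 3 (Pf.C 96 515) (Pf.C 172 65539)) Pf.nil)))
 (Pq.cons (Pq.L [] 4 (Pf.C 26 384))
 (Pq.cons (Pq.L [] 4 (Pf.W 241 0 [] [3] (Pf.cons (Pf.B 4 3 (Pf.C 96 515) (Pf.C 6 515)) Pf.nil)))
 (Pq.cons (Pq.L [] 6 (Pf.B 3 2 (Pf.C 96 386) (Pf.C 172 49154)))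
 Pq.nil)))))) (Pq.cons (Pq.L [] 2 (Pf.C 26 256))
 (Pq.cons (Pq.L [] 2 (Pf.B 3 2 (Pf.B 3 0 (Pf.W 241 0 [] [2] (Pf.cons (Pf.B 4 2 (Pf.C 96 514) (Pf.C 6 514)) Pf.nil)) (Pf.W 241 0 [] [2] (Pf.cons (Pf.B 4 2 (Pf.C 96 514) (Pf.C 6 514)) Pf.nil))) (Pf.W 241 0 [] [2] (Pf.cons (Pf.B 4 2 (Pf.C 96 514) (Pf.C 6 514)) Pf.nil))))
 (Pq.cons (Pq.L [] 3 (Pf.B 2 1 (Pf.C 96 257) (Pf.C 172 32769)))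
 Pq.nil)))))) (Pq.cons (Pq.L [] 1 (Pf.C 26 128))
 (Pq.cons (Pq.D 2 (Pq.cons (Pq.L [] 2 (Pf.C 8 2))
 (Pq.cons (Pq.L [] 2 (Pf.B 3 1 (Pf.B 3 0 (Pf.W 241 0 [] [2] (Pf.cons (Pf.B 4 2 (Pf.C 96 514) (Pf.C 172 65538)) Pf.nil)) (Pf.W 241 0 [] [2] (Pf.cons (Pf.B 4 2 (Pf.C 96 514) (Pf.C 172 65538)) Pf.nil))) (Pf.W 241 0 [] [2] (Pf.cons (Pf.B 4 2 (Pf.C 96 514) (Pf.C 172 65538)) Pf.nil))))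
 (Pq.cons (Pq.L [] 2 (Pf.C 26 256))
 (Pq.cons (Pq.L [] 2 (Pf.B 3 1 (Pf.B 3 0 (Pf.W 241 0 [] [2] (Pf.cons (Pf.B 4 2 (Pf.C 96 514) (Pf.C 6 514)) Pf.nil)) (Pf.W 241 0 [] [2] (Pf.cons (Pf.B 4 2 (Pf.C 96 514) (Pf.C 6 514)) Pf.nil))) (Pf.W 241 0 [] [2] (Pf.cons (Pf.B 4 2 (Pf.C 96 514) (Pf.C 6 514)) Pf.nil))))
 (Pq.cons (Pq.L [] 3 (Pf.B 2 1 (Pf.C 96 257) (Pf.C 6 257)))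
 Pq.nil)))))) (Pq.cons (Pq.D 2 (Pq.cons (Pq.L [] 2 (Pf.C 8 2))
 (Pq.cons (Pq.L [] 3 (Pf.B 2 1 (Pf.C 96 130) (Pf.C 172 16386)))
 (Pq.cons (Pq.L [] 2 (Pf.C 26 256))
 (Pq.cons (Pq.L [] 3 (Pf.B 2 1 (Pf.C 96 130) (Pf.C 6 130)))
 (Pq.cons (Pq.L [] 3 (Pf.B 2 1 (Pf.C 24 130) (Pf.C 67 16640)))
 Pq.nil)))))) Pq.nil)))))) (Pq.cons (Pq.D 1 (Pq.cons (Pq.D 2 (Pq.cons (Pq.L [] 3 (Pf.B 2 1 (Pf.C 27 130) (Pf.C 69 16640)))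
 (Pq.cons (Pq.L [] 3 (Pf.B 2 1 (Pf.C 98 16386) (Pf.C 153 257)))
 (Pq.cons (Pq.L [] 3 (Pf.B 2 1 (Pf.C 99 16386) (Pf.C 8 257)))
 (Pq.cons (Pq.L [] 2 (Pf.C 25 256))
 (Pq.cons (Pq.L [] 2 (Pf.C 6 256))
 Pq.nil)))))) (Pq.cons (Pq.D 2 (Pq.cons (Pq.L [] 3 (Pf.B 2 1 (Pf.C 98 32769) (Pf.C 153 130)))
 (Pq.cons (Pq.D 3 (Pq.cons (Pq.L [] 6 (Pf.B 3 2 (Pf.C 98 49154) (Pf.C 153 259)))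
 (Pq.cons (Pq.L [] 4 (Pf.W 242 0 [] [3] (Pf.cons (Pf.B 4 3 (Pf.C 98 65539) (Pf.C 153 388)) Pf.nil)))
 (Pq.cons (Pq.L [] 0 (Pf.B 3 2 (Pf.B 3 1 (Pf.W 241 3 [] [2] (Pf.cons (Pf.B 4 2 (Pf.C 96 49666) (Pf.C 172 65922)) Pf.nil)) (Pf.C 4 385)) (Pf.C 4 386)))
 (Pq.cons (Pq.L [] 4 (Pf.C 25 384))
 (Pq.cons (Pq.L [] 4 (Pf.C 6 384))
 Pq.nil)))))) (Pq.cons (Pq.L [] 0 (Pf.B 2 1 (Pf.B 3 2 (Pf.W 241 2 [] [1] (Pf.cons (Pf.B 4 1 (Pf.C 96 33281) (Pf.C 172 65793)) Pf.nil)) (Pf.B 3 0 (Pf.W 241 2 [] [1] (Pf.cons (Pf.B 4 1 (Pf.C 96 33281) (Pf.C 172 65793)) Pf.nil)) (Pf.W 241 2 [] [1] (Pf.cons (Pf.B 4 1 (Pf.C 96 33281) (Pf.C 172 65793)) Pf.nil)))) (Pf.C 4 257)))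
 (Pq.cons (Pq.L [] 2 (Pf.C 25 256))
 (Pq.cons (Pq.L [] 2 (Pf.C 6 256))
 Pq.nil)))))) (Pq.cons (Pq.L [] 1 (Pf.B 3 1 (Pf.B 2 1 (Pf.W 241 1 [] [0] (Pf.cons (Pf.B 4 0 (Pf.C 96 16896) (Pf.C 6 512)) Pf.nil)) (Pf.B 2 0 (Pf.W 241 1 [] [0] (Pf.cons (Pf.B 4 0 (Pf.C 96 16896) (Pf.C 6 512)) Pf.nil)) (Pf.W 241 1 [] [0] (Pf.cons (Pf.B 4 0 (Pf.C 96 16896) (Pf.C 6 512)) Pf.nil)))) (Pf.B 3 0 (Pf.B 2 1 (Pf.W 241 1 [] [0] (Pf.cons (Pf.B 4 0 (Pf.C 96 16896) (Pf.C 6 512)) Pf.nil)) (Pf.B 2 0 (Pf.W 241 1 [] [0] (Pf.cons (Pf.B 4 0 (Pf.C 96 16896) (Pf.C 6 512)) Pf.nil)) (Pf.W 241 1 [] [0] (Pf.cons (Pf.B 4 0 (Pf.C 96 16896) (Pf.C 6 512)) Pf.nil)))) (Pf.B 2 1 (Pf.W 241 1 [] [0] (Pf.cons (Pf.B 4 0 (Pf.C 96 16896) (Pf.C 6 512)) Pf.nil)) (Pf.B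 2 0 (Pf.W 241 1 [] [0] (Pf.cons (Pf.B 4 0 (Pf.C 96 16896) (Pf.C 6 512)) Pf.nil)) (Pf.W 241 1 [] [0] (Pf.cons (Pf.B 4 0 (Pf.C 96 16896) (Pf.C 6 512)) Pf.nil)))))))
 (Pq.cons (Pq.L [] 1 (Pf.C 25 128))
 (Pq.cons (Pq.L [] 1 (Pf.C 6 128))
 Pq.nil)))))) (Pq.cons (Pq.D 1 (Pq.cons (Pq.D 2 (Pq.cons (Pq.L [] 3 (Pf.B 2 1 (Pf.C 27 130) (Pf.C 69 16640)))
 (Pq.cons (Pq.D 3 (Pq.cons (Pq.L [] 7 (Pf.C 249 0x608080))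
 (Pq.cons (Pq.L [] 7 (Pf.C 249 0x608080))
 (Pq.cons (Pq.L [] 7 (Pf.C 249 0x608080))
 (Pq.cons (Pq.L [] 4 (Pf.C 6 3))
 (Pq.cons (Pq.L [] 4 (Pf.C 24 384))
 Pq.nil)))))) (Pq.cons (Pq.D 3 (Pq.cons (Pq.L [] 7 (Pf.C 249 0x608080))
 (Pq.cons (Pq.L [] 7 (Pf.C 249 0x608080))
 (Pq.cons (Pq.L [] 7 (Pf.C 249 0x608080))
 (Pq.cons (Pq.L [] 4 (Pf.C 6 3))
 (Pq.cons (Pq.L [] 4 (Pf.C 24 384))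
 Pq.nil)))))) (Pq.cons (Pq.L [] 2 (Pf.C 6 2))
 (Pq.cons (Pq.L [] 2 (Pf.C 24 256))
 Pq.nil)))))) (Pq.cons (Pq.D 2 (Pq.cons (Pq.D 3 (Pq.cons (Pq.L [] 7 (Pf.C 249 0x608080))
 (Pq.cons (Pq.L [] 7 (Pf.C 249 0x608080))
 (Pq.cons (Pq.L [] 7 (Pf.C 249 0x608080))
 (Pq.cons (Pq.L [] 4 (Pf.C 6 3))
 (Pq.cons (Pq.L [] 4 (Pf.C 24 384))
 Pq.nil)))))) (Pq.cons (Pq.L [] 3 (Pf.B 2 1 (Pf.C 170 130) (Pf.C 68 16640)))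
 (Pq.cons (Pq.L [] 3 (Pf.B 2 1 (Pf.C 172 257) (Pf.C 4 257)))
 (Pq.cons (Pq.L [] 2 (Pf.C 6 2))
 (Pq.cons (Pq.L [] 2 (Pf.C 24 256))
 Pq.nil)))))) (Pq.cons (Pq.D 2 (Pq.cons (Pq.D 3 (Pq.cons (Pq.L [] 7 (Pf.C 249 0x608080))
 (Pq.cons (Pq.L [] 7 (Pf.C 249 0x608080))
 (Pq.cons (Pq.L [] 7 (Pf.C 249 0x608080))
 (Pq.cons (Pq.L [] 4 (Pf.C 6 3))
 (Pq.cons (Pq.L [] 4 (Pf.C 24 384))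
 Pq.nil)))))) (Pq.cons (Pq.L [] 3 (Pf.B 2 1 (Pf.C 172 130) (Pf.C 4 130)))
 (Pq.cons (Pq.L [] 3 (Pf.B 2 1 (Pf.C 26 130) (Pf.C 68 16640)))
 (Pq.cons (Pq.L [] 2 (Pf.C 6 2))
 (Pq.cons (Pq.L [] 2 (Pf.C 24 256))
 Pq.nil)))))) (Pq.cons (Pq.L [] 1 (Pf.C 6 1))
 (Pq.cons (Pq.L [] 1 (Pf.C 24 128))
 Pq.nil)))))) Pq.nil)))))) Pq.nil)
theorem f1_o13 : AllRef f1_T f1_G36 (applyObl TD2 1 [63,65,67,69,71] [0,0,0,0,0] [(63,0x8000000000000000),(65,0x280000000000000000),(67,0x2a0000000000000000),(69,0x2a0000000000000000),(71,0x800000000000000000)]) :=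
  chkPq_sound f1_o13c _ (by decide +kernel)
noncomputable def f1_o14c : Pq := Pq.nil
theorem f1_o14 : AllRef f1_T f1_G37 (ptObl 63 (PT.br 0 PT.kid PT.kid) []) :=
  chkPq_sound f1_o14c _ (by decide +kernel)
noncomputable def f1_o15c : Pq := Pq.nil
theorem f1_o15 : AllRef f1_T f1_G38 (ptObl 64 PT.kid []) :=
  chkPq_sound f1_o15c _ (by decide +kernel)
noncomputable def f1_o16c : Pq := Pq.nil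
theorem f1_o16 : AllRef f1_T f1_G39 (ptObl 75 (PT.br 0 PT.kid PT.kid) []) :=
  chkPq_sound f1_o16c _ (by decide +kernel)
noncomputable def f1_o17c : Pq := Pq.nil
theorem f1_o17 : AllRef f1_T f1_G40 (ptObl 65 (PT.br 0 PT.kid PT.kid) []) :=
  chkPq_sound f1_o17c _ (by decide +kernel)
noncomputable def f1_o18c : Pq := (Pq.cons (Pq.L [0] 0 (Pf.B 1 0 (Pf.W 241 1 [] [0] (Pf.cons (Pf.B 2 0 (Pf.C 96 16640) (Pf.C 172 32896)) Pf.nil)) (Pf.C 4 128)))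
 Pq.nil)
theorem f1_o18 : AllRef f1_T f1_G41 (ptObl 67 PT.ref []) :=
  chkPq_sound f1_o18c _ (by decide +kernel)
noncomputable def f1_o19c : Pq := (Pq.cons (Pq.L [0] 0 (Pf.B 1 0 (Pf.W 242 1 [] [0] (Pf.cons (Pf.B 2 0 (Pf.C 98 32896) (Pf.C 153 16386)) Pf.nil)) (Pf.C 3 128)))
 Pq.nil)
theorem f1_o19 : AllRef f1_T f1_G42 (ptObl 69 PT.ref []) :=
  chkPq_sound f1_o19c _ (by decide +kernel)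
noncomputable def f1_o20c : Pq := Pq.nil
theorem f1_o20 : AllRef f1_T f1_G43 (ptObl 71 (PT.br 0 PT.kid PT.kid) []) :=
  chkPq_sound f1_o20c _ (by decide +kernel)
noncomputable def f1_o21c : Pq := (Pq.cons (Pq.L [] 0 (Pf.X 0 1))
 (Pq.cons (Pq.L [0] 1 (Pf.C 109 16640))
 (Pq.cons (Pq.L [0] 1 (Pf.C 151 32769))
 (Pq.cons (Pq.L [0] 1 (Pf.C 73 32896))
 (Pq.cons (Pq.L [0] 1 (Pf.C 73 32896))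
 (Pq.cons (Pq.L [0] 1 (Pf.C 119 16640))
 (Pq.cons (Pq.L [0] 1 (Pf.C 170 16640))
 (Pq.cons (Pq.L [] 0 (Pf.X 0 1))
 (Pq.cons (Pq.L [0] 1 (Pf.C 109 16640))
 (Pq.cons (Pq.L [0] 1 (Pf.C 151 32769))
 (Pq.cons (Pq.L [0] 1 (Pf.C 73 32896))
 (Pq.cons (Pq.L [0] 1 (Pf.C 73 32896))
 (Pq.cons (Pq.L [0] 1 (Pf.C 119 16640))
 (Pq.cons (Pq.L [0] 1 (Pf.C 170 16640))
 Pq.nil))))))))))))))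
theorem f1_o21 : AllRef f1_T f1_G44 (closeObl (f1_T.sc.get 0) false [73,74,76,77,78,79,80,81] [0,0,1,1,1,1,4,4] [0] [1] 235) :=
  chkPq_sound f1_o21c _ (by decide +kernel)
noncomputable def f1_o22c : Pq := (Pq.cons (Pq.L [] 0 (Pf.X 0 1))
 (Pq.cons (Pq.L [] 1 (Pf.C 27 257))
 (Pq.cons (Pq.L [] 1 (Pf.C 27 257))
 (Pq.cons (Pq.L [] 1 (Pf.C 27 257))
 (Pq.cons (Pq.L [] 1 (Pf.C 250 130))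
 (Pq.cons (Pq.L [] 1 (Pf.C 250 130))
 (Pq.cons (Pq.L [] 1 (Pf.C 253 130))
 (Pq.cons (Pq.L [] 1 (Pf.W 254 1 [] [2] (Pf.cons (Pf.B 3 2 (Pf.C 27 259) (Pf.C 69 33153)) Pf.nil)))
 (Pq.cons (Pq.L [] 1 (Pf.C 250 130))
 (Pq.cons (Pq.L [] 0 (Pf.X 0 1))
 (Pq.cons (Pq.L [] 1 (Pf.C 255 130))
 (Pq.cons (Pq.L [] 1 (Pf.W 252 1 [] [2] (Pf.cons (Pf.B 3 2 (Pf.C 24 259) (Pf.C 67 33153)) Pf.nil)))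
 (Pq.cons (Pq.L [] 1 (Pf.C 251 130))
 (Pq.cons (Pq.L [] 1 (Pf.C 251 130))
 (Pq.cons (Pq.L [] 1 (Pf.C 251 130))
 (Pq.cons (Pq.L [] 1 (Pf.C 24 257))
 (Pq.cons (Pq.L [] 1 (Pf.C 24 257))
 (Pq.cons (Pq.L [] 1 (Pf.C 24 257))
 Pq.nil))))))))))))))))))
theorem f1_o22 : AllRef f1_T f1_G49 (closeObl (f1_T.sc.get 0) false [82,86,87,74,77,79,84,88,89,81] [0,0,0,0,1,1,4,4,4,4] [0] [1] 763) :=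
  chkPq_sound f1_o22c _ (by decide +kernel)
noncomputable def f1_o23c : Pq := (Pq.cons (Pq.L [0] 0 (Pf.B 2 1 (Pf.C 27 130) (Pf.C 69 16640)))
 (Pq.cons (Pq.L [0] 0 (Pf.B 3 2 (Pf.C 73 32771) (Pf.B 3 1 (Pf.C 73 16387) (Pf.C 245 0x400083))))
 (Pq.cons (Pq.L [0] 0 (Pf.B 2 1 (Pf.C 24 130) (Pf.C 67 16640)))
 Pq.nil)))
theorem f1_o23 : AllRef f1_T f1_G50 (hitObl [74,79,81] f1_h59) :=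
  chkPq_sound f1_o23c _ (by decide +kernel)
noncomputable def f1_o24c : Pq := (Pq.cons (Pq.L [] 0 (Pf.C 256 1))
 (Pq.cons (Pq.L [] 0 (Pf.C 257 1))
 (Pq.cons (Pq.L [] 0 (Pf.C 258 1))
 Pq.nil)))
theorem f1_o24 : AllRef f1_T f1_G51 (List.map pat1 [90,91,92]) :=
  chkPq_sound f1_o24c _ (by decide +kernel)
noncomputable def f1_o25c : Pq := (Pq.cons (Pq.D 0 (Pq.cons (Pq.D 1 (Pq.cons (Pq.L [] 1 (Pf.C 27 257))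
 (Pq.cons (Pq.D 2 (Pq.cons (Pq.L [] 2 (Pf.C 27 385))
 (Pq.cons (Pq.L [0] 3 (Pf.B 3 2 (Pf.C 73 32771) (Pf.C 68 33153)))
 (Pq.cons (Pq.D 3 (Pq.cons (Pq.L [] 4 (Pf.C 27 513))
 (Pq.cons (Pq.L [] 7 (Pf.C 244 0x80c101))
 (Pq.cons (Pq.L [] 7 (Pf.C 244 0x80c101))
 Pq.nil)))) Pq.nil)))) (Pq.cons (Pq.D 2 (Pq.cons (Pq.L [] 2 (Pf.C 27 385))
 (Pq.cons (Pq.D 3 (Pq.cons (Pq.L [] 4 (Pf.C 27 513))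
 (Pq.cons (Pq.L [] 7 (Pf.C 244 0x80c101))
 (Pq.cons (Pq.L [] 7 (Pf.C 244 0x80c101))
 Pq.nil)))) (Pq.cons (Pq.L [] 3 (Pf.B 3 2 (Pf.C 24 259) (Pf.C 67 33153)))
 Pq.nil)))) Pq.nil)))) (Pq.cons (Pq.D 1 (Pq.cons (Pq.D 2 (Pq.cons (Pq.L [] 3 (Pf.B 3 2 (Pf.C 27 259) (Pf.C 69 33153)))
 (Pq.cons (Pq.L [0] 2 (Pf.C 73 49153))
 (Pq.cons (Pq.D 3 (Pq.cons (Pq.L [] 5 (Pf.B 4 2 (Pf.C 27 260) (Pf.C 69 33281)))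
 (Pq.cons (Pq.L [0] 4 (Pf.C 73 65537))
 (Pq.cons (Pq.L [] 6 (Pf.B 4 3 (Pf.C 24 388) (Pf.C 67 49665)))
 Pq.nil)))) Pq.nil)))) (Pq.cons (Pq.L [0] 1 (Pf.C 73 32769))
 (Pq.cons (Pq.D 2 (Pq.cons (Pq.D 3 (Pq.cons (Pq.L [] 6 (Pf.B 4 3 (Pf.C 27 388) (Pf.C 69 49665)))
 (Pq.cons (Pq.L [0] 4 (Pf.C 73 65537))
 (Pq.cons (Pq.L [] 5 (Pf.B 4 2 (Pf.C 24 260) (Pf.C 67 33281)))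
 Pq.nil)))) (Pq.cons (Pq.L [0] 2 (Pf.C 73 49153))
 (Pq.cons (Pq.L [] 3 (Pf.B 3 2 (Pf.C 24 259) (Pf.C 67 33153)))
 Pq.nil)))) Pq.nil)))) (Pq.cons (Pq.D 1 (Pq.cons (Pq.D 2 (Pq.cons (Pq.L [] 3 (Pf.B 3 2 (Pf.C 27 259) (Pf.C 69 33153)))
 (Pq.cons (Pq.D 3 (Pq.cons (Pq.L [] 7 (Pf.C 249 0x80c101))
 (Pq.cons (Pq.L [] 7 (Pf.C 249 0x80c101))
 (Pq.cons (Pq.L [] 4 (Pf.C 24 513))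
 Pq.nil)))) (Pq.cons (Pq.L [] 2 (Pf.C 24 385))
 Pq.nil)))) (Pq.cons (Pq.D 2 (Pq.cons (Pq.D 3 (Pq.cons (Pq.L [] 7 (Pf.C 249 0x80c101))
 (Pq.cons (Pq.L [] 7 (Pf.C 249 0x80c101))
 (Pq.cons (Pq.L [] 4 (Pf.C 24 513))
 Pq.nil)))) (Pq.cons (Pq.L [0] 3 (Pf.B 3 2 (Pf.C 73 32771) (Pf.C 68 33153)))
 (Pq.cons (Pq.L [] 2 (Pf.C 24 385))
 Pq.nil)))) (Pq.cons (Pq.L [] 1 (Pf.C 24 257))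
 Pq.nil)))) Pq.nil)))) Pq.nil)
theorem f1_o25 : AllRef f1_T f1_G52 (applyObl TD2 1 [73,77,80] [0,0,0] [(73,0x2000000000000000000),(77,0x20000000000000000000),(80,0x100000000000000000000)]) :=
  chkPq_sound f1_o25c _ (by decide +kernel)
noncomputable def f1_o26c : Pq := (Pq.cons (Pq.L [] 0 (Pf.W 209 0 [] [] (Pf.cons (Pf.T 1 2 (Pf.cons (Pf.W 240 0 [] [0,1] (Pf.cons (Pf.B 2 1 (Pf.B 2 0 (Pf.W 221 2 [] [1] (Pf.cons (Pf.B 3 1 (Pf.C 98 49409) (Pf.C 152 32899)) Pf.nil)) (Pf.C 20 2)) (Pf.C 20 130)) Pf.nil)) (Pf.cons (Pf.C 210 1) Pf.nil))) Pf.nil)))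
 (Pq.cons (Pq.L [] 0 (Pf.W 240 0 [] [0] (Pf.cons (Pf.B 1 0 (Pf.W 221 1 [] [0] (Pf.cons (Pf.B 2 0 (Pf.C 99 32896) (Pf.C 8 2)) Pf.nil)) (Pf.C 48 128)) Pf.nil)))
 (Pq.cons (Pq.L [] 0 (Pf.W 240 0 [] [0] (Pf.cons (Pf.B 1 0 (Pf.W 221 1 [] [0] (Pf.cons (Pf.B 2 0 (Pf.C 107 257) (Pf.C 158 130)) Pf.nil)) (Pf.C 7 1)) Pf.nil)))
 Pq.nil)))
theorem f1_o26 : AllRef f1_T f1_G26 (List.map pat1 [21,28,29]) :=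
  chkPq_sound f1_o26c _ (by decide +kernel)
noncomputable def f1_o27c : Pq := (Pq.cons (Pq.L [] 1 (Pf.W 240 0 [] [0,1] (Pf.cons (Pf.B 3 0 (Pf.B 3 1 (Pf.C 95 16387) (Pf.C 161 385)) (Pf.C 6 3)) Pf.nil)))
 (Pq.cons (Pq.L [] 1 (Pf.C 6 1))
 Pq.nil))
theorem f1_o27 : AllRef f1_T f1_G53 (splitObl [27,34] [30]) :=
  chkPq_sound f1_o27c _ (by decide +kernel)
noncomputable def f1_o28c : Pq := (Pq.cons (Pq.D 0 (Pq.cons (Pq.D 1 (Pq.cons (Pq.L [] 1 (Pf.C 27 128))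
 (Pq.cons (Pq.D 2 (Pq.cons (Pq.L [] 2 (Pf.C 27 256))
 (Pq.cons (Pq.L [] 7 (Pf.C 70 32896))
 Pq.nil))) Pq.nil))) (Pq.cons (Pq.D 1 (Pq.cons (Pq.D 2 (Pq.cons (Pq.L [] 4 (Pf.C 27 257))
 (Pq.cons (Pq.L [] 2 (Pf.C 212 256))
 Pq.nil))) (Pq.cons (Pq.L [] 1 (Pf.C 212 128))
 Pq.nil))) Pq.nil))) (Pq.cons (Pq.D 0 (Pq.cons (Pq.D 1 (Pq.cons (Pq.D 2 (Pq.cons (Pq.L [] 67 (Pf.C 74 32769))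
 (Pq.cons (Pq.D 3 (Pq.cons (Pq.L [] 133 (Pf.C 74 49153))
 (Pq.cons (Pq.D 4 (Pq.cons (Pq.L [] 265 (Pf.C 74 65537))
 (Pq.cons (Pq.D 5 (Pq.cons (Pq.L [] 0x40319 (Pf.C 0 0x814080))
 (Pq.cons (Pq.L [] 0x40300 (Pf.C 105 16901))
 Pq.nil))) Pq.nil))) Pq.nil))) Pq.nil))) (Pq.cons (Pq.D 2 (Pq.cons (Pq.D 3 (Pq.cons (Pq.L [] 2247 (Pf.C 0 0x20c100))
 (Pq.cons (Pq.L [] 128 (Pf.C 212 385))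
 Pq.nil))) (Pq.cons (Pq.L [] 64 (Pf.C 212 257))
 Pq.nil))) Pq.nil))) (Pq.cons (Pq.D 1 (Pq.cons (Pq.D 2 (Pq.cons (Pq.L [] 64 (Pf.C 27 257))
 (Pq.cons (Pq.D 3 (Pq.cons (Pq.L [] 128 (Pf.C 27 385))
 (Pq.cons (Pq.D 4 (Pq.cons (Pq.L [] 256 (Pf.C 27 513))
 (Pq.cons (Pq.D 5 (Pq.cons (Pq.L [] 0x40300 (Pf.C 69 82052))
 (Pq.cons (Pq.L [] 0x40319 (Pf.C 185 0x210280))
 Pq.nil))) Pq.nil))) Pq.nil))) Pq.nil))) (Pq.cons (Pq.D 2 (Pq.cons (Pq.D 3 (Pq.cons (Pq.L [] 2240 (Pf.C 69 49409))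
 (Pq.cons (Pq.L [] 2247 (Pf.C 185 0x404180))
 Pq.nil))) (Pq.cons (Pq.L [] 64 (Pf.C 212 257))
 Pq.nil))) Pq.nil))) Pq.nil))) Pq.nil))
theorem f1_o28 : AllRef f1_T f1_G53 (applyObl d_T 2 [27,34] [0,0] [(27,0x8000000)]) :=
  chkPq_sound f1_o28c _ (by decide +kernel)
noncomputable def f1_o29c : Pq := (Pq.cons (Pq.L [] 1 (Pf.C 24 128))
 Pq.nil)
theorem f1_o29 : AllRef f1_T f1_G53 (applyObl TD2 1 [30] [0] [(30,0x40000000)]) :=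
  chkPq_sound f1_o29c _ (by decide +kernel)
noncomputable def f1_o30c : Pq := (Pq.cons (Pq.L [] 0 (Pf.W 209 0 [] [] (Pf.cons (Pf.T 1 2 (Pf.cons (Pf.W 238 0 [] [0,1] (Pf.cons (Pf.B 2 1 (Pf.B 2 0 (Pf.W 223 2 [] [1] (Pf.cons (Pf.B 3 1 (Pf.C 78 49409) (Pf.C 154 32899)) Pf.nil)) (Pf.C 44 256)) (Pf.C 44 257)) Pf.nil)) (Pf.cons (Pf.C 210 1) Pf.nil))) Pf.nil)))
 (Pq.cons (Pq.L [] 0 (Pf.W 238 0 [] [0] (Pf.cons (Pf.B 1 0 (Pf.W 223 1 [] [0] (Pf.cons (Pf.B 2 0 (Pf.C 101 32896) (Pf.C 8 2)) Pf.nil)) (Pf.C 4 1)) Pf.nil)))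
 (Pq.cons (Pq.L [] 0 (Pf.W 238 0 [] [0] (Pf.cons (Pf.B 1 0 (Pf.W 223 1 [] [0] (Pf.cons (Pf.B 2 0 (Pf.C 164 16386) (Pf.C 165 16386)) Pf.nil)) (Pf.C 3 1)) Pf.nil)))
 (Pq.cons (Pq.L [] 0 (Pf.W 238 0 [] [0] (Pf.cons (Pf.B 1 0 (Pf.W 223 1 [] [0] (Pf.cons (Pf.B 2 0 (Pf.C 168 130) (Pf.C 169 130)) Pf.nil)) (Pf.C 2 1)) Pf.nil)))
 Pq.nil))))
theorem f1_o30 : AllRef f1_T f1_G23 (List.map pat1 [21,28,29,30]) :=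
  chkPq_sound f1_o30c _ (by decide +kernel)
noncomputable def f1_o31c : Pq := (Pq.cons (Pq.D 0 (Pq.cons (Pq.D 1 (Pq.cons (Pq.L [] 1 (Pf.C 27 128))
 (Pq.cons (Pq.D 2 (Pq.cons (Pq.L [] 2 (Pf.C 27 256))
 (Pq.cons (Pq.L [] 7 (Pf.C 70 32896))
 (Pq.cons (Pq.L [] 4 (Pf.C 31 257))
 Pq.nil)))) (Pq.cons (Pq.D 2 (Pq.cons (Pq.L [] 2 (Pf.C 27 256))
 (Pq.cons (Pq.L [] 4 (Pf.C 31 130))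
 (Pq.cons (Pq.L [] 7 (Pf.C 67 32896))
 Pq.nil)))) Pq.nil)))) (Pq.cons (Pq.D 1 (Pq.cons (Pq.D 2 (Pq.cons (Pq.L [] 4 (Pf.C 27 257))
 (Pq.cons (Pq.L [] 2 (Pf.C 212 256))
 (Pq.cons (Pq.L [] 2 (Pf.C 31 256))
 Pq.nil)))) (Pq.cons (Pq.L [] 1 (Pf.C 212 128))
 (Pq.cons (Pq.L [] 1 (Pf.C 31 128))
 Pq.nil)))) (Pq.cons (Pq.D 1 (Pq.cons (Pq.D 2 (Pq.cons (Pq.L [] 4 (Pf.C 27 257))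
 (Pq.cons (Pq.L [] 2 (Pf.C 31 2))
 (Pq.cons (Pq.L [] 2 (Pf.C 10 256))
 Pq.nil)))) (Pq.cons (Pq.L [] 1 (Pf.C 31 1))
 (Pq.cons (Pq.L [] 1 (Pf.C 10 128))
 Pq.nil)))) Pq.nil)))) (Pq.cons (Pq.D 0 (Pq.cons (Pq.D 1 (Pq.cons (Pq.D 2 (Pq.cons (Pq.L [] 67 (Pf.C 74 32769))
 (Pq.cons (Pq.D 3 (Pq.cons (Pq.L [] 133 (Pf.C 74 49153))
 (Pq.cons (Pq.D 4 (Pq.cons (Pq.L [] 265 (Pf.C 74 65537))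
 (Pq.cons (Pq.D 5 (Pq.cons (Pq.L [] 0x40319 (Pf.C 0 0x814080))
 (Pq.cons (Pq.L [] 0x40300 (Pf.C 105 16901))
 (Pq.cons (Pq.L [] 0x40018 (Pf.C 124 81924))
 Pq.nil)))) (Pq.cons (Pq.L [] 39360 (Pf.C 0 0x610082))
 Pq.nil)))) (Pq.cons (Pq.D 4 (Pq.cons (Pq.L [] 265 (Pf.C 74 65537))
 (Pq.cons (Pq.L [] 39360 (Pf.C 0 0x80c082))
 (Pq.cons (Pq.L [] 39360 (Pf.C 0 0x808083))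
 Pq.nil)))) Pq.nil)))) (Pq.cons (Pq.D 3 (Pq.cons (Pq.L [] 133 (Pf.C 74 49153))
 (Pq.cons (Pq.D 4 (Pq.cons (Pq.L [] 265 (Pf.C 74 65537))
 (Pq.cons (Pq.L [] 39360 (Pf.C 0 0x808083))
 (Pq.cons (Pq.L [] 39360 (Pf.C 0 0x80c082))
 Pq.nil)))) (Pq.cons (Pq.D 4 (Pq.cons (Pq.L [] 265 (Pf.C 74 65537))
 (Pq.cons (Pq.L [] 39360 (Pf.C 0 0x610082))
 (Pq.cons (Pq.D 5 (Pq.cons (Pq.L [] 0x40319 (Pf.C 0 0x814080))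
 (Pq.cons (Pq.L [] 0x40018 (Pf.C 124 65541))
 (Pq.cons (Pq.L [] 0x40000 (Pf.C 10 644))
 Pq.nil)))) Pq.nil)))) Pq.nil)))) Pq.nil)))) (Pq.cons (Pq.D 2 (Pq.cons (Pq.D 3 (Pq.cons (Pq.L [] 2247 (Pf.C 0 0x20c100))
 (Pq.cons (Pq.L [] 128 (Pf.C 212 385))
 (Pq.cons (Pq.L [] 133 (Pf.C 124 49153))
 Pq.nil)))) (Pq.cons (Pq.L [] 64 (Pf.C 212 257))
 (Pq.cons (Pq.L [] 67 (Pf.C 124 32769))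
 Pq.nil)))) (Pq.cons (Pq.D 2 (Pq.cons (Pq.D 3 (Pq.cons (Pq.L [] 2247 (Pf.C 0 0x20c100))
 (Pq.cons (Pq.L [] 133 (Pf.C 124 16387))
 (Pq.cons (Pq.L [] 128 (Pf.C 10 385))
 Pq.nil)))) (Pq.cons (Pq.L [] 67 (Pf.C 124 16386))
 (Pq.cons (Pq.L [] 64 (Pf.C 10 257))
 Pq.nil)))) Pq.nil)))) (Pq.cons (Pq.D 1 (Pq.cons (Pq.D 2 (Pq.cons (Pq.L [] 64 (Pf.C 27 257))
 (Pq.cons (Pq.D 3 (Pq.cons (Pq.L [] 128 (Pf.C 27 385))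
 (Pq.cons (Pq.D 4 (Pq.cons (Pq.L [] 256 (Pf.C 27 513))
 (Pq.cons (Pq.D 5 (Pq.cons (Pq.L [] 0x40300 (Pf.C 69 82052))
 (Pq.cons (Pq.L [] 0x40319 (Pf.C 185 0x210280))
 (Pq.cons (Pq.L [] 0x40018 (Pf.C 88 81924))
 Pq.nil)))) (Pq.cons (Pq.L [] 39360 (Pf.C 0 0x610082))
 Pq.nil)))) (Pq.cons (Pq.D 4 (Pq.cons (Pq.L [] 256 (Pf.C 27 513))
 (Pq.cons (Pq.L [] 39360 (Pf.C 0 0x80c082))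
 (Pq.cons (Pq.L [] 39360 (Pf.C 0 0x808083))
 Pq.nil)))) Pq.nil)))) (Pq.cons (Pq.D 3 (Pq.cons (Pq.L [] 128 (Pf.C 27 385))
 (Pq.cons (Pq.D 4 (Pq.cons (Pq.L [] 256 (Pf.C 27 513))
 (Pq.cons (Pq.L [] 39360 (Pf.C 0 0x808083))
 (Pq.cons (Pq.L [] 39360 (Pf.C 0 0x80c082))
 Pq.nil)))) (Pq.cons (Pq.D 4 (Pq.cons (Pq.L [] 256 (Pf.C 27 513))
 (Pq.cons (Pq.L [] 39360 (Pf.C 0 0x610082))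
 (Pq.cons (Pq.D 5 (Pq.cons (Pq.L [] 0x40300 (Pf.C 69 82052))
 (Pq.cons (Pq.L [] 0x40018 (Pf.C 88 65541))
 (Pq.cons (Pq.L [] 0x40018 (Pf.C 67 82432))
 Pq.nil)))) Pq.nil)))) Pq.nil)))) Pq.nil)))) (Pq.cons (Pq.D 2 (Pq.cons (Pq.D 3 (Pq.cons (Pq.L [] 2240 (Pf.C 69 49409))
 (Pq.cons (Pq.L [] 2247 (Pf.C 185 0x404180))
 (Pq.cons (Pq.L [] 133 (Pf.C 88 49153))
 Pq.nil)))) (Pq.cons (Pq.L [] 64 (Pf.C 212 257))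
 (Pq.cons (Pq.L [] 67 (Pf.C 88 32769))
 Pq.nil)))) (Pq.cons (Pq.D 2 (Pq.cons (Pq.D 3 (Pq.cons (Pq.L [] 2240 (Pf.C 69 49409))
 (Pq.cons (Pq.L [] 133 (Pf.C 88 16387))
 (Pq.cons (Pq.L [] 133 (Pf.C 67 49280))
 Pq.nil)))) (Pq.cons (Pq.L [] 67 (Pf.C 88 16386))
 (Pq.cons (Pq.L [] 67 (Pf.C 67 32896))
 Pq.nil)))) Pq.nil)))) (Pq.cons (Pq.D 1 (Pq.cons (Pq.D 2 (Pq.cons (Pq.L [] 64 (Pf.C 27 257))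
 (Pq.cons (Pq.D 3 (Pq.cons (Pq.L [] 128 (Pf.C 27 385))
 (Pq.cons (Pq.D 4 (Pq.cons (Pq.L [] 256 (Pf.C 27 513))
 (Pq.cons (Pq.D 5 (Pq.cons (Pq.L [] 0x40300 (Pf.C 69 82052))
 (Pq.cons (Pq.L [] 0x40018 (Pf.C 70 82432))
 (Pq.cons (Pq.L [] 0x43000 (Pf.C 88 82180))
 Pq.nil)))) (Pq.cons (Pq.L [] 39360 (Pf.C 0 0x610082))
 Pq.nil)))) (Pq.cons (Pq.D 4 (Pq.cons (Pq.L [] 256 (Pf.C 27 513))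
 (Pq.cons (Pq.L [] 39360 (Pf.C 0 0x80c082))
 (Pq.cons (Pq.L [] 39360 (Pf.C 0 0x808083))
 Pq.nil)))) Pq.nil)))) (Pq.cons (Pq.D 3 (Pq.cons (Pq.L [] 128 (Pf.C 27 385))
 (Pq.cons (Pq.D 4 (Pq.cons (Pq.L [] 256 (Pf.C 27 513))
 (Pq.cons (Pq.L [] 39360 (Pf.C 0 0x808083))
 (Pq.cons (Pq.L [] 39360 (Pf.C 0 0x80c082))
 Pq.nil)))) (Pq.cons (Pq.D 4 (Pq.cons (Pq.L [] 256 (Pf.C 27 513))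
 (Pq.cons (Pq.L [] 39360 (Pf.C 0 0x610082))
 (Pq.cons (Pq.D 5 (Pq.cons (Pq.L [] 0x40300 (Pf.C 69 82052))
 (Pq.cons (Pq.L [] 0x40000 (Pf.C 31 517))
 (Pq.cons (Pq.L [] 0x40000 (Pf.C 10 644))
 Pq.nil)))) Pq.nil)))) Pq.nil)))) Pq.nil)))) (Pq.cons (Pq.D 2 (Pq.cons (Pq.D 3 (Pq.cons (Pq.L [] 2240 (Pf.C 69 49409))
 (Pq.cons (Pq.L [] 133 (Pf.C 70 49280))
 (Pq.cons (Pq.L [] 128 (Pf.C 31 385))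
 Pq.nil)))) (Pq.cons (Pq.L [] 67 (Pf.C 70 32896))
 (Pq.cons (Pq.L [] 64 (Pf.C 31 257))
 Pq.nil)))) (Pq.cons (Pq.D 2 (Pq.cons (Pq.D 3 (Pq.cons (Pq.L [] 2240 (Pf.C 69 49409))
 (Pq.cons (Pq.L [] 128 (Pf.C 31 131))
 (Pq.cons (Pq.L [] 128 (Pf.C 10 385))
 Pq.nil)))) (Pq.cons (Pq.L [] 64 (Pf.C 31 130))
 (Pq.cons (Pq.L [] 64 (Pf.C 10 257))
 Pq.nil)))) Pq.nil)))) Pq.nil)))) Pq.nil))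
theorem f1_o31 : AllRef f1_T f1_G54 (applyObl d_T 2 [27,34,36] [0,0,0] [(27,0x8000000),(34,0x1000000000),(36,0x400000000)]) :=
  chkPq_sound f1_o31c _ (by decide +kernel)
noncomputable def f1_o32c : Pq := (Pq.cons (Pq.L [] 0 (Pf.W 209 0 [] [] (Pf.cons (Pf.T 1 2 (Pf.cons (Pf.W 236 0 [] [0,1] (Pf.cons (Pf.B 2 1 (Pf.C 14 130) (Pf.B 2 0 (Pf.C 14 2) (Pf.C 68 16386))) Pf.nil)) (Pf.cons (Pf.C 210 1) Pf.nil))) Pf.nil)))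
 (Pq.cons (Pq.L [] 0 (Pf.W 236 0 [] [0] (Pf.cons (Pf.C 50 128) Pf.nil)))
 (Pq.cons (Pq.L [] 0 (Pf.W 221 0 [] [] (Pf.cons (Pf.W 236 0 [] [0,1] (Pf.cons (Pf.B 2 0 (Pf.C 16 2) (Pf.B 2 1 (Pf.C 112 16386) (Pf.C 159 32769))) Pf.nil)) Pf.nil)))
 (Pq.cons (Pq.L [] 0 (Pf.W 223 0 [] [] (Pf.cons (Pf.W 236 0 [] [0,1] (Pf.cons (Pf.B 2 0 (Pf.B 2 1 (Pf.C 102 16386) (Pf.C 167 257)) (Pf.C 61 2)) Pf.nil)) Pf.nil)))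
 (Pq.cons (Pq.L [] 0 (Pf.W 236 0 [] [0] (Pf.cons (Pf.B 1 0 (Pf.C 16 1) (Pf.C 2 1)) Pf.nil)))
 Pq.nil)))))
theorem f1_o32 : AllRef f1_T f1_G20 (List.map pat1 [21,28,34,36,30]) :=
  chkPq_sound f1_o32c _ (by decide +kernel)
noncomputable def f1_o33c : Pq := (Pq.cons (Pq.L [] 7 (Pf.C 74 32769))
 (Pq.cons (Pq.L [] 7 (Pf.C 73 32769))
 (Pq.cons (Pq.L [] 7 (Pf.C 89 32769))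
 (Pq.cons (Pq.L [] 7 (Pf.C 88 32769))
 Pq.nil))))
theorem f1_o33 : AllRef f1_T f1_G55 (twinObl [27,29,25] 3 [6,5,4]) :=
  chkPq_sound f1_o33c _ (by decide +kernel)
noncomputable def f1_o34c : Pq := (Pq.cons (Pq.L [] 1 (Pf.C 27 128))
 (Pq.cons (Pq.L [] 1 (Pf.C 25 128))
 (Pq.cons (Pq.L [] 1 (Pf.C 27 128))
 (Pq.cons (Pq.L [] 1 (Pf.C 25 128))
 Pq.nil))))
theorem f1_o34 : AllRef f1_T f1_G56 (blockObl [93,94,95] [1,2,0] [6,5,7] [6,5,7]) :=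
  chkPq_sound f1_o34c _ (by decide +kernel)
noncomputable def f1_o35c : Pq := (Pq.cons (Pq.L [] 0 (Pf.W 259 0 [] [] (Pf.cons (Pf.T 1 26 (Pf.cons (Pf.W 259 0 [1] [] (Pf.cons (Pf.B 2 1 (Pf.C 25 130) (Pf.C 68 16640)) (Pf.cons (Pf.W 259 0 [1,2] [] (Pf.cons (Pf.B 3 1 (Pf.C 25 131) (Pf.C 68 16768)) (Pf.cons (Pf.B 3 2 (Pf.C 166 33152) (Pf.C 67 33152)) Pf.nil))) Pf.nil))) (Pf.cons (Pf.W 259 0 [1] [] (Pf.cons (Pf.B 2 1 (Pf.C 25 130) (Pf.C 68 16640)) (Pf.cons (Pf.W 259 0 [1,2] [] (Pf.cons (Pf.B 3 1 (Pf.C 25 131) (Pf.C 68 16768)) (Pf.cons (Pf.B 3 2 (Pf.C 166 33152) (Pf.C 67 33152)) Pf.nil))) Pf.nil))) Pf.nil))) (Pf.cons (Pf.T 1 27 (Pf.cons (Pf.W 259 0 [1] [] (Pf.cons (Pf.W 259 0 [1,2] [] (Pf.cons (Pf.B 3 2 (Pf.C 25 259) (Pf.C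 68 33152)) (Pf.cons (Pf.B 3 1 (Pf.C 166 16768) (Pf.C 67 16768)) Pf.nil))) (Pf.cons (Pf.B 2 1 (Pf.C 166 16640) (Pf.C 67 16640)) Pf.nil))) (Pf.cons (Pf.W 259 0 [1] [] (Pf.cons (Pf.W 259 0 [1,2] [] (Pf.cons (Pf.B 3 2 (Pf.C 25 259) (Pf.C 68 33152)) (Pf.cons (Pf.B 3 1 (Pf.C 166 16768) (Pf.C 67 16768)) Pf.nil))) (Pf.cons (Pf.B 2 1 (Pf.C 166 16640) (Pf.C 67 16640)) Pf.nil))) Pf.nil))) Pf.nil))))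
 (Pq.cons (Pq.L [] 0 (Pf.W 261 0 [] [] (Pf.cons (Pf.T 1 25 (Pf.cons (Pf.W 261 0 [1] [] (Pf.cons (Pf.B 2 1 (Pf.C 27 130) (Pf.C 69 16640)) (Pf.cons (Pf.W 261 0 [1,2] [] (Pf.cons (Pf.B 3 1 (Pf.C 27 131) (Pf.C 69 16768)) (Pf.cons (Pf.B 3 2 (Pf.C 182 33152) (Pf.C 67 33152)) Pf.nil))) Pf.nil))) (Pf.cons (Pf.W 261 0 [1] [] (Pf.cons (Pf.B 2 1 (Pf.C 27 130) (Pf.C 69 16640)) (Pf.cons (Pf.W 261 0 [1,2] [] (Pf.cons (Pf.B 3 1 (Pf.C 27 131) (Pf.C 69 16768)) (Pf.cons (Pf.B 3 2 (Pf.C 182 33152) (Pf.C 67 33152)) Pf.nil))) Pf.nil))) Pf.nil))) (Pf.cons (Pf.T 1 27 (Pf.cons (Pf.W 261 0 [1] [] (Pf.cons (Pf.W 261 0 [1,2] [] (Pf.cons (Pf.B 3 2 (Pf.C 27 259) (Pf.C 69 33152)) (Pf.cons (Pf.B 3 1 (Pf.C 182 16768) (Pf.C 67 16768)) Pf.nil))) (Pf.cons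 (Pf.B 2 1 (Pf.C 182 16640) (Pf.C 67 16640)) Pf.nil))) (Pf.cons (Pf.W 261 0 [1] [] (Pf.cons (Pf.W 261 0 [1,2] [] (Pf.cons (Pf.B 3 2 (Pf.C 27 259) (Pf.C 69 33152)) (Pf.cons (Pf.B 3 1 (Pf.C 182 16768) (Pf.C 67 16768)) Pf.nil))) (Pf.cons (Pf.B 2 1 (Pf.C 182 16640) (Pf.C 67 16640)) Pf.nil))) Pf.nil))) Pf.nil))))
 Pq.nil))
theorem f1_o35 : AllRef f1_T f1_G60 (List.map pat1 [105,107]) :=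
  chkPq_sound f1_o35c _ (by decide +kernel)
noncomputable def f1_o36c : Pq := Pq.nil
theorem f1_o36 : AllRef f1_T f1_G61 (extObl 109 [] []) :=
  chkPq_sound f1_o36c _ (by decide +kernel)
noncomputable def f1_o37c : Pq := (Pq.cons (Pq.D 0 (Pq.cons (Pq.D 1 (Pq.cons (Pq.L [] 1 (Pf.C 27 128))
 (Pq.cons (Pq.D 2 (Pq.cons (Pq.L [] 2 (Pf.C 27 256))
 (Pq.cons (Pq.L [] 3 (Pf.B 2 1 (Pf.C 25 130) (Pf.C 68 16640)))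
 (Pq.cons (Pq.D 3 (Pq.cons (Pq.L [] 4 (Pf.C 27 384))
 (Pq.cons (Pq.L [] 7 (Pf.C 260 0x608080))
 (Pq.cons (Pq.L [] 7 (Pf.C 260 0x608080))
 Pq.nil)))) Pq.nil)))) (Pq.cons (Pq.D 2 (Pq.cons (Pq.L [] 2 (Pf.C 27 256))
 (Pq.cons (Pq.D 3 (Pq.cons (Pq.L [] 4 (Pf.C 27 384))
 (Pq.cons (Pq.L [] 7 (Pf.C 260 0x608080))
 (Pq.cons (Pq.L [] 7 (Pf.C 260 0x608080))
 Pq.nil)))) (Pq.cons (Pq.L [] 3 (Pf.B 2 1 (Pf.C 166 16640) (Pf.C 67 16640)))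
 Pq.nil)))) Pq.nil)))) (Pq.cons (Pq.D 1 (Pq.cons (Pq.D 2 (Pq.cons (Pq.L [] 3 (Pf.B 2 1 (Pf.C 27 130) (Pf.C 69 16640)))
 (Pq.cons (Pq.L [] 2 (Pf.C 25 256))
 (Pq.cons (Pq.D 3 (Pq.cons (Pq.L [] 7 (Pf.C 262 0x608080))
 (Pq.cons (Pq.L [] 4 (Pf.C 25 384))
 (Pq.cons (Pq.L [] 7 (Pf.C 262 0x608080))
 Pq.nil)))) Pq.nil)))) (Pq.cons (Pq.L [] 1 (Pf.C 25 128))
 (Pq.cons (Pq.D 2 (Pq.cons (Pq.D 3 (Pq.cons (Pq.L [] 7 (Pf.C 262 0x608080))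
 (Pq.cons (Pq.L [] 4 (Pf.C 25 384))
 (Pq.cons (Pq.L [] 7 (Pf.C 262 0x608080))
 Pq.nil)))) (Pq.cons (Pq.L [] 2 (Pf.C 25 256))
 (Pq.cons (Pq.L [] 3 (Pf.B 2 1 (Pf.C 182 16640) (Pf.C 67 16640)))
 Pq.nil)))) Pq.nil)))) (Pq.cons (Pq.D 1 (Pq.cons (Pq.D 2 (Pq.cons (Pq.L [] 3 (Pf.B 2 1 (Pf.C 27 130) (Pf.C 69 16640)))
 (Pq.cons (Pq.D 3 (Pq.cons (Pq.L [] 7 (Pf.C 263 0x608080))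
 (Pq.cons (Pq.L [] 7 (Pf.C 263 0x608080))
 (Pq.cons (Pq.L [] 7 (Pf.C 263 0x608080))
 Pq.nil)))) (Pq.cons (Pq.D 3 (Pq.cons (Pq.L [] 7 (Pf.C 263 0x608080))
 (Pq.cons (Pq.L [] 7 (Pf.C 263 0x608080))
 (Pq.cons (Pq.L [] 7 (Pf.C 263 0x608080))
 Pq.nil)))) Pq.nil)))) (Pq.cons (Pq.D 2 (Pq.cons (Pq.D 3 (Pq.cons (Pq.L [] 7 (Pf.C 263 0x608080))
 (Pq.cons (Pq.L [] 7 (Pf.C 263 0x608080))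
 (Pq.cons (Pq.L [] 7 (Pf.C 263 0x608080))
 Pq.nil)))) (Pq.cons (Pq.L [] 3 (Pf.B 2 1 (Pf.C 25 130) (Pf.C 68 16640)))
 (Pq.cons (Pq.D 3 (Pq.cons (Pq.L [] 7 (Pf.C 263 0x608080))
 (Pq.cons (Pq.L [] 7 (Pf.C 263 0x608080))
 (Pq.cons (Pq.L [] 7 (Pf.C 263 0x608080))
 Pq.nil)))) Pq.nil)))) (Pq.cons (Pq.D 2 (Pq.cons (Pq.D 3 (Pq.cons (Pq.L [] 7 (Pf.C 263 0x608080))
 (Pq.cons (Pq.L [] 7 (Pf.C 263 0x608080))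
 (Pq.cons (Pq.L [] 7 (Pf.C 263 0x608080))
 Pq.nil)))) (Pq.cons (Pq.D 3 (Pq.cons (Pq.L [] 7 (Pf.C 263 0x608080))
 (Pq.cons (Pq.L [] 7 (Pf.C 263 0x608080))
 (Pq.cons (Pq.L [] 7 (Pf.C 263 0x608080))
 Pq.nil)))) (Pq.cons (Pq.D 3 (Pq.cons (Pq.L [] 7 (Pf.C 263 0x608080))
 (Pq.cons (Pq.L [] 7 (Pf.C 263 0x608080))
 (Pq.cons (Pq.L [] 7 (Pf.C 263 0x608080))
 Pq.nil)))) Pq.nil)))) Pq.nil)))) Pq.nil)))) Pq.nil)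
theorem f1_o37 : AllRef f1_T f1_G62 (applyObl TD2 1 [106,108,110] [0,0,0] [(106,0x400000000000000000000000000),(108,0x1000000000000000000000000000)]) :=
  chkPq_sound f1_o37c _ (by decide +kernel)
noncomputable def f1_o38c : Pq := Pq.nil
theorem f1_o38 : AllRef f1_T f1_G63 (ptObl 106 (PT.br 0 PT.kid PT.kid) []) :=
  chkPq_sound f1_o38c _ (by decide +kernel)
noncomputable def f1_o39c : Pq := Pq.nil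
theorem f1_o39 : AllRef f1_T f1_G64 (ptObl 108 (PT.br 0 PT.kid PT.kid) []) :=
  chkPq_sound f1_o39c _ (by decide +kernel)
noncomputable def f1_o40c : Pq := Pq.nil
theorem f1_o40 : AllRef f1_T f1_G65 (ptObl 109 PT.kid []) :=
  chkPq_sound f1_o40c _ (by decide +kernel)
noncomputable def f1_o41c : Pq := Pq.nil
theorem f1_o41 : AllRef f1_T f1_G66 (ptObl 116 (PT.br 0 PT.kid PT.kid) []) :=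
  chkPq_sound f1_o41c _ (by decide +kernel)
noncomputable def f1_o42c : Pq := Pq.nil
theorem f1_o42 : AllRef f1_T f1_G67 (ptObl 110 (PT.br 0 PT.kid PT.kid) []) :=
  chkPq_sound f1_o42c _ (by decide +kernel)
noncomputable def f1_o43c : Pq := (Pq.cons (Pq.L [] 0 (Pf.X 0 1))
 (Pq.cons (Pq.L [0] 1 (Pf.C 89 16640))
 (Pq.cons (Pq.L [0] 1 (Pf.C 166 32769))
 (Pq.cons (Pq.L [0] 1 (Pf.C 88 16640))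
 (Pq.cons (Pq.L [0] 1 (Pf.C 182 32769))
 (Pq.cons (Pq.L [0] 1 (Pf.C 72 32896))
 (Pq.cons (Pq.L [0] 1 (Pf.C 72 32896))
 (Pq.cons (Pq.L [] 0 (Pf.X 0 1))
 (Pq.cons (Pq.L [0] 1 (Pf.C 89 16640))
 (Pq.cons (Pq.L [0] 1 (Pf.C 166 32769))
 (Pq.cons (Pq.L [0] 1 (Pf.C 88 16640))
 (Pq.cons (Pq.L [0] 1 (Pf.C 182 32769))
 (Pq.cons (Pq.L [0] 1 (Pf.C 72 32896))
 (Pq.cons (Pq.L [0] 1 (Pf.C 72 32896))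
 Pq.nil))))))))))))))
theorem f1_o43 : AllRef f1_T f1_G68 (closeObl (f1_T.sc.get 1) false [112,113,114,115,117,118,119,120] [0,0,1,1,2,2,2,2] [0] [2] 175) :=
  chkPq_sound f1_o43c _ (by decide +kernel)
noncomputable def f1_o44c : Pq := (Pq.cons (Pq.L [] 0 (Pf.X 0 1))
 (Pq.cons (Pq.L [] 1 (Pf.C 27 257))
 (Pq.cons (Pq.L [] 1 (Pf.C 27 257))
 (Pq.cons (Pq.L [] 1 (Pf.C 27 257))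
 (Pq.cons (Pq.L [] 1 (Pf.C 267 130))
 (Pq.cons (Pq.L [] 1 (Pf.W 268 1 [] [2] (Pf.cons (Pf.B 3 2 (Pf.C 27 259) (Pf.C 69 33153)) Pf.nil)))
 (Pq.cons (Pq.L [] 1 (Pf.C 264 130))
 (Pq.cons (Pq.L [] 1 (Pf.C 264 130))
 (Pq.cons (Pq.L [] 1 (Pf.C 264 130))
 (Pq.cons (Pq.L [] 0 (Pf.X 0 1))
 (Pq.cons (Pq.L [] 1 (Pf.C 269 130))
 (Pq.cons (Pq.L [] 1 (Pf.W 266 1 [] [2] (Pf.cons (Pf.B 3 2 (Pf.C 25 259) (Pf.C 68 33153)) Pf.nil)))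
 (Pq.cons (Pq.L [] 1 (Pf.C 265 130))
 (Pq.cons (Pq.L [] 1 (Pf.C 25 257))
 (Pq.cons (Pq.L [] 1 (Pf.C 25 257))
 (Pq.cons (Pq.L [] 1 (Pf.C 25 257))
 (Pq.cons (Pq.L [] 1 (Pf.C 265 130))
 (Pq.cons (Pq.L [] 1 (Pf.C 265 130))
 Pq.nil))))))))))))))))))
theorem f1_o44 : AllRef f1_T f1_G73 (closeObl (f1_T.sc.get 1) false [121,125,126,113,123,127,128,115,118,120] [0,0,0,0,1,1,1,1,2,2] [0] [2] 955) :=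
  chkPq_sound f1_o44c _ (by decide +kernel)
noncomputable def f1_o45c : Pq := (Pq.cons (Pq.L [0] 0 (Pf.B 2 1 (Pf.C 27 130) (Pf.C 69 16640)))
 (Pq.cons (Pq.L [0] 0 (Pf.B 2 1 (Pf.C 25 130) (Pf.C 68 16640)))
 (Pq.cons (Pq.L [0] 0 (Pf.B 3 2 (Pf.C 72 32771) (Pf.B 3 1 (Pf.C 72 16387) (Pf.C 263 0x400083))))
 Pq.nil)))
theorem f1_o45 : AllRef f1_T f1_G74 (hitObl [113,115,120] f1_h93) :=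
  chkPq_sound f1_o45c _ (by decide +kernel)
noncomputable def f1_o46c : Pq := (Pq.cons (Pq.L [] 0 (Pf.C 270 1))
 (Pq.cons (Pq.L [] 0 (Pf.C 271 1))
 (Pq.cons (Pq.L [] 0 (Pf.C 272 1))
 Pq.nil)))
theorem f1_o46 : AllRef f1_T f1_G75 (List.map pat1 [129,130,131]) :=
  chkPq_sound f1_o46c _ (by decide +kernel)
noncomputable def f1_o47c : Pq := (Pq.cons (Pq.D 0 (Pq.cons (Pq.D 1 (Pq.cons (Pq.L [] 1 (Pf.C 27 257))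
 (Pq.cons (Pq.D 2 (Pq.cons (Pq.L [] 2 (Pf.C 27 385))
 (Pq.cons (Pq.L [] 3 (Pf.B 3 2 (Pf.C 25 259) (Pf.C 68 33153)))
 (Pq.cons (Pq.D 3 (Pq.cons (Pq.L [] 4 (Pf.C 27 513))
 (Pq.cons (Pq.L [] 7 (Pf.C 260 0x80c101))
 (Pq.cons (Pq.L [] 7 (Pf.C 260 0x80c101))
 Pq.nil)))) Pq.nil)))) (Pq.cons (Pq.D 2 (Pq.cons (Pq.L [] 2 (Pf.C 27 385))
 (Pq.cons (Pq.D 3 (Pq.cons (Pq.L [] 4 (Pf.C 27 513))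
 (Pq.cons (Pq.L [] 7 (Pf.C 260 0x80c101))
 (Pq.cons (Pq.L [] 7 (Pf.C 260 0x80c101))
 Pq.nil)))) (Pq.cons (Pq.L [0] 3 (Pf.B 3 2 (Pf.C 72 32771) (Pf.C 67 33153)))
 Pq.nil)))) Pq.nil)))) (Pq.cons (Pq.D 1 (Pq.cons (Pq.D 2 (Pq.cons (Pq.L [] 3 (Pf.B 3 2 (Pf.C 27 259) (Pf.C 69 33153)))
 (Pq.cons (Pq.L [] 2 (Pf.C 25 385))
 (Pq.cons (Pq.D 3 (Pq.cons (Pq.L [] 7 (Pf.C 262 0x80c101))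
 (Pq.cons (Pq.L [] 4 (Pf.C 25 513))
 (Pq.cons (Pq.L [] 7 (Pf.C 262 0x80c101))
 Pq.nil)))) Pq.nil)))) (Pq.cons (Pq.L [] 1 (Pf.C 25 257))
 (Pq.cons (Pq.D 2 (Pq.cons (Pq.D 3 (Pq.cons (Pq.L [] 7 (Pf.C 262 0x80c101))
 (Pq.cons (Pq.L [] 4 (Pf.C 25 513))
 (Pq.cons (Pq.L [] 7 (Pf.C 262 0x80c101))
 Pq.nil)))) (Pq.cons (Pq.L [] 2 (Pf.C 25 385))
 (Pq.cons (Pq.L [0] 3 (Pf.B 3 2 (Pf.C 72 32771) (Pf.C 67 33153)))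
 Pq.nil)))) Pq.nil)))) (Pq.cons (Pq.D 1 (Pq.cons (Pq.D 2 (Pq.cons (Pq.L [] 3 (Pf.B 3 2 (Pf.C 27 259) (Pf.C 69 33153)))
 (Pq.cons (Pq.D 3 (Pq.cons (Pq.L [] 5 (Pf.B 4 2 (Pf.C 27 260) (Pf.C 69 33281)))
 (Pq.cons (Pq.L [] 6 (Pf.B 4 3 (Pf.C 25 388) (Pf.C 68 49665)))
 (Pq.cons (Pq.L [0] 4 (Pf.C 72 65537))
 Pq.nil)))) (Pq.cons (Pq.L [0] 2 (Pf.C 72 49153))
 Pq.nil)))) (Pq.cons (Pq.D 2 (Pq.cons (Pq.D 3 (Pq.cons (Pq.L [] 6 (Pf.B 4 3 (Pf.C 27 388) (Pf.C 69 49665)))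
 (Pq.cons (Pq.L [] 5 (Pf.B 4 2 (Pf.C 25 260) (Pf.C 68 33281)))
 (Pq.cons (Pq.L [0] 4 (Pf.C 72 65537))
 Pq.nil)))) (Pq.cons (Pq.L [] 3 (Pf.B 3 2 (Pf.C 25 259) (Pf.C 68 33153)))
 (Pq.cons (Pq.L [0] 2 (Pf.C 72 49153))
 Pq.nil)))) (Pq.cons (Pq.L [0] 1 (Pf.C 72 32769))
 Pq.nil)))) Pq.nil)))) Pq.nil)
theorem f1_o47 : AllRef f1_T f1_G76 (applyObl TD2 1 [112,114,118] [0,0,0] [(112,0x10000000000000000000000000000),(114,0x40000000000000000000000000000),(118,0x400000000000000000000000000000)]) :=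
  chkPq_sound f1_o47c _ (by decide +kernel)
noncomputable def f1_o48c : Pq := (Pq.cons (Pq.L [] 0 (Pf.W 209 0 [] [] (Pf.cons (Pf.T 1 2 (Pf.cons (Pf.W 234 0 [] [0,1] (Pf.cons (Pf.B 2 1 (Pf.B 2 0 (Pf.W 225 2 [] [1] (Pf.cons (Pf.B 3 1 (Pf.C 96 33153) (Pf.C 143 49282)) Pf.nil)) (Pf.C 23 2)) (Pf.C 23 130)) Pf.nil)) (Pf.cons (Pf.C 210 1) Pf.nil))) Pf.nil)))
 (Pq.cons (Pq.L [] 0 (Pf.W 234 0 [] [0] (Pf.cons (Pf.B 1 0 (Pf.W 225 1 [] [0] (Pf.cons (Pf.B 2 0 (Pf.C 118 257) (Pf.C 145 32769)) Pf.nil)) (Pf.C 8 1)) Pf.nil)))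
 (Pq.cons (Pq.L [] 0 (Pf.W 221 0 [] [] (Pf.cons (Pf.W 234 0 [] [0,1] (Pf.cons (Pf.B 2 1 (Pf.B 2 0 (Pf.C 99 16386) (Pf.C 140 130)) (Pf.C 9 130)) Pf.nil)) Pf.nil)))
 (Pq.cons (Pq.L [] 0 (Pf.W 234 0 [] [0] (Pf.cons (Pf.B 1 0 (Pf.W 225 1 [] [0] (Pf.cons (Pf.B 2 0 (Pf.C 96 16640) (Pf.C 6 256)) Pf.nil)) (Pf.C 42 1)) Pf.nil)))
 (Pq.cons (Pq.L [] 0 (Pf.W 213 0 [] [] (Pf.cons (Pf.T 1 4 (Pf.cons (Pf.W 234 0 [] [0,1] (Pf.cons (Pf.B 2 1 (Pf.B 2 0 (Pf.W 225 2 [] [1] (Pf.cons (Pf.B 3 1 (Pf.C 16 385) (Pf.C 2 385)) Pf.nil)) (Pf.C 22 2)) (Pf.C 22 130)) Pf.nil)) (Pf.cons (Pf.C 214 1) Pf.nil))) Pf.nil)))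
 (Pq.cons (Pq.L [] 0 (Pf.W 223 0 [] [] (Pf.cons (Pf.W 234 0 [] [0,1] (Pf.cons (Pf.B 2 1 (Pf.B 2 0 (Pf.C 101 16386) (Pf.C 141 130)) (Pf.C 9 130)) Pf.nil)) Pf.nil)))
 Pq.nil))))))
theorem f1_o48 : AllRef f1_T f1_G17 (List.map pat1 [21,28,34,29,25,36]) :=
  chkPq_sound f1_o48c _ (by decide +kernel)
noncomputable def f1_o49c : Pq := (Pq.cons (Pq.L [] 1 (Pf.C 9 1))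
 (Pq.cons (Pq.L [] 1 (Pf.W 234 0 [] [0,1] (Pf.cons (Pf.B 3 0 (Pf.B 3 1 (Pf.C 103 131) (Pf.C 142 16387)) (Pf.C 9 3)) Pf.nil)))
 Pq.nil))
theorem f1_o49 : AllRef f1_T f1_G77 (splitObl [38,30] [27]) :=
  chkPq_sound f1_o49c _ (by decide +kernel)
noncomputable def f1_o50c : Pq := (Pq.cons (Pq.D 0 (Pq.cons (Pq.D 1 (Pq.cons (Pq.L [] 1 (Pf.C 208 128))
 (Pq.cons (Pq.D 2 (Pq.cons (Pq.L [] 2 (Pf.C 208 256))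
 (Pq.cons (Pq.L [] 4 (Pf.C 24 257))
 Pq.nil))) Pq.nil))) (Pq.cons (Pq.D 1 (Pq.cons (Pq.D 2 (Pq.cons (Pq.L [] 7 (Pf.C 71 32896))
 (Pq.cons (Pq.L [] 2 (Pf.C 24 256))
 Pq.nil))) (Pq.cons (Pq.L [] 1 (Pf.C 24 128))
 Pq.nil))) Pq.nil))) (Pq.cons (Pq.D 0 (Pq.cons (Pq.D 1 (Pq.cons (Pq.D 2 (Pq.cons (Pq.L [] 64 (Pf.C 208 257))
 (Pq.cons (Pq.D 3 (Pq.cons (Pq.L [] 2247 (Pf.C 184 0x404180))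
 (Pq.cons (Pq.L [] 2240 (Pf.C 67 49409))
 Pq.nil))) Pq.nil))) (Pq.cons (Pq.D 2 (Pq.cons (Pq.D 3 (Pq.cons (Pq.D 4 (Pq.cons (Pq.D 5 (Pq.cons (Pq.L [] 0x40319 (Pf.C 184 0x210280))
 (Pq.cons (Pq.L [] 0x40300 (Pf.C 67 82052))
 Pq.nil))) (Pq.cons (Pq.L [] 256 (Pf.C 24 513))
 Pq.nil))) (Pq.cons (Pq.L [] 128 (Pf.C 24 385))
 Pq.nil))) (Pq.cons (Pq.L [] 64 (Pf.C 24 257))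
 Pq.nil))) Pq.nil))) (Pq.cons (Pq.D 1 (Pq.cons (Pq.D 2 (Pq.cons (Pq.L [] 64 (Pf.C 208 257))
 (Pq.cons (Pq.D 3 (Pq.cons (Pq.L [] 128 (Pf.C 208 385))
 (Pq.cons (Pq.L [] 2247 (Pf.C 0 0x20c100))
 Pq.nil))) Pq.nil))) (Pq.cons (Pq.D 2 (Pq.cons (Pq.D 3 (Pq.cons (Pq.D 4 (Pq.cons (Pq.D 5 (Pq.cons (Pq.L [] 0x40300 (Pf.C 115 16901))
 (Pq.cons (Pq.L [] 0x40319 (Pf.C 0 0x814080))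
 Pq.nil))) (Pq.cons (Pq.L [] 265 (Pf.C 72 65537))
 Pq.nil))) (Pq.cons (Pq.L [] 133 (Pf.C 72 49153))
 Pq.nil))) (Pq.cons (Pq.L [] 67 (Pf.C 72 32769))
 Pq.nil))) Pq.nil))) Pq.nil))) Pq.nil))
theorem f1_o50 : AllRef f1_T f1_G77 (applyObl d_T 2 [38,30] [0,0] [(30,0x40000000)]) :=
  chkPq_sound f1_o50c _ (by decide +kernel)
noncomputable def f1_o51c : Pq := (Pq.cons (Pq.L [] 1 (Pf.C 27 128))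
 Pq.nil)
theorem f1_o51 : AllRef f1_T f1_G77 (applyObl TD2 1 [27] [0] [(27,0x8000000)]) :=
  chkPq_sound f1_o51c _ (by decide +kernel)
noncomputable def f1_o52c : Pq := (Pq.cons (Pq.L [] 0 (Pf.W 232 0 [] [0] (Pf.cons (Pf.B 1 0 (Pf.W 227 1 [] [0] (Pf.cons (Pf.B 2 0 (Pf.C 156 32896) (Pf.C 157 32896)) Pf.nil)) (Pf.C 5 1)) Pf.nil)))
 (Pq.cons (Pq.L [] 0 (Pf.W 209 0 [] [] (Pf.cons (Pf.T 1 2 (Pf.cons (Pf.W 232 0 [] [0,1] (Pf.cons (Pf.B 2 1 (Pf.B 2 0 (Pf.W 227 2 [] [1] (Pf.cons (Pf.B 3 1 (Pf.C 77 33153) (Pf.C 171 49409)) Pf.nil)) (Pf.C 43 256)) (Pf.C 43 257)) Pf.nil)) (Pf.cons (Pf.C 210 1) Pf.nil))) Pf.nil)))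
 (Pq.cons (Pq.L [] 0 (Pf.W 232 0 [] [0] (Pf.cons (Pf.B 1 0 (Pf.W 227 1 [] [0] (Pf.cons (Pf.B 2 0 (Pf.C 173 32769) (Pf.C 174 32769)) Pf.nil)) (Pf.C 4 1)) Pf.nil)))
 (Pq.cons (Pq.L [] 0 (Pf.W 221 0 [] [] (Pf.cons (Pf.W 232 0 [] [0,1] (Pf.cons (Pf.B 2 1 (Pf.B 2 0 (Pf.C 98 16386) (Pf.C 155 257)) (Pf.C 5 130)) Pf.nil)) Pf.nil)))
 (Pq.cons (Pq.L [] 0 (Pf.W 232 0 [] [0] (Pf.cons (Pf.B 1 0 (Pf.W 227 1 [] [0] (Pf.cons (Pf.B 2 0 (Pf.C 97 16640) (Pf.C 6 256)) Pf.nil)) (Pf.C 3 1)) Pf.nil)))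
 (Pq.cons (Pq.L [] 0 (Pf.W 213 0 [] [] (Pf.cons (Pf.T 1 4 (Pf.cons (Pf.W 232 0 [] [0,1] (Pf.cons (Pf.B 2 1 (Pf.B 2 0 (Pf.W 227 2 [] [1] (Pf.cons (Pf.B 3 1 (Pf.C 16 385) (Pf.C 2 385)) Pf.nil)) (Pf.C 79 32769)) (Pf.B 2 0 (Pf.C 79 32896) (Pf.C 67 16386))) Pf.nil)) (Pf.cons (Pf.C 214 1) Pf.nil))) Pf.nil)))
 (Pq.cons (Pq.L [] 0 (Pf.W 223 0 [] [] (Pf.cons (Pf.W 232 0 [] [0,1] (Pf.cons (Pf.B 2 1 (Pf.B 2 0 (Pf.C 78 16386) (Pf.C 47 2)) (Pf.C 5 130)) Pf.nil)) Pf.nil)))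
 Pq.nil)))))))
theorem f1_o52 : AllRef f1_T f1_G14 (List.map pat1 [27,21,28,34,29,25,36]) :=
  chkPq_sound f1_o52c _ (by decide +kernel)
noncomputable def f1_o53c : Pq := (Pq.cons (Pq.D 0 (Pq.cons (Pq.D 1 (Pq.cons (Pq.L [] 1 (Pf.C 208 128))
 (Pq.cons (Pq.L [] 1 (Pf.C 34 128))
 (Pq.cons (Pq.D 2 (Pq.cons (Pq.L [] 2 (Pf.C 208 256))
 (Pq.cons (Pq.L [] 2 (Pf.C 34 256))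
 (Pq.cons (Pq.L [] 4 (Pf.C 24 257))
 Pq.nil)))) Pq.nil)))) (Pq.cons (Pq.D 1 (Pq.cons (Pq.L [] 1 (Pf.C 34 1))
 (Pq.cons (Pq.L [] 1 (Pf.C 12 128))
 (Pq.cons (Pq.D 2 (Pq.cons (Pq.L [] 2 (Pf.C 34 2))
 (Pq.cons (Pq.L [] 2 (Pf.C 12 256))
 (Pq.cons (Pq.L [] 4 (Pf.C 24 257))
 Pq.nil)))) Pq.nil)))) (Pq.cons (Pq.D 1 (Pq.cons (Pq.D 2 (Pq.cons (Pq.L [] 7 (Pf.C 71 32896))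
 (Pq.cons (Pq.L [] 4 (Pf.C 34 257))
 (Pq.cons (Pq.L [] 2 (Pf.C 24 256))
 Pq.nil)))) (Pq.cons (Pq.D 2 (Pq.cons (Pq.L [] 4 (Pf.C 34 130))
 (Pq.cons (Pq.L [] 7 (Pf.C 68 32896))
 (Pq.cons (Pq.L [] 2 (Pf.C 24 256))
 Pq.nil)))) (Pq.cons (Pq.L [] 1 (Pf.C 24 128))
 Pq.nil)))) Pq.nil)))) (Pq.cons (Pq.D 0 (Pq.cons (Pq.D 1 (Pq.cons (Pq.D 2 (Pq.cons (Pq.L [] 64 (Pf.C 208 257))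
 (Pq.cons (Pq.L [] 67 (Pf.C 87 32769))
 (Pq.cons (Pq.D 3 (Pq.cons (Pq.L [] 2247 (Pf.C 184 0x404180))
 (Pq.cons (Pq.L [] 133 (Pf.C 87 49153))
 (Pq.cons (Pq.L [] 2240 (Pf.C 67 49409))
 Pq.nil)))) Pq.nil)))) (Pq.cons (Pq.D 2 (Pq.cons (Pq.L [] 67 (Pf.C 87 16386))
 (Pq.cons (Pq.L [] 67 (Pf.C 68 32896))
 (Pq.cons (Pq.D 3 (Pq.cons (Pq.L [] 133 (Pf.C 87 16387))
 (Pq.cons (Pq.L [] 133 (Pf.C 68 49280))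
 (Pq.cons (Pq.L [] 2240 (Pf.C 67 49409))
 Pq.nil)))) Pq.nil)))) (Pq.cons (Pq.D 2 (Pq.cons (Pq.D 3 (Pq.cons (Pq.D 4 (Pq.cons (Pq.D 5 (Pq.cons (Pq.L [] 0x40319 (Pf.C 184 0x210280))
 (Pq.cons (Pq.L [] 0x40018 (Pf.C 87 81924))
 (Pq.cons (Pq.L [] 0x40300 (Pf.C 67 82052))
 Pq.nil)))) (Pq.cons (Pq.L [] 39360 (Pf.C 0 0x610082))
 (Pq.cons (Pq.L [] 256 (Pf.C 24 513))
 Pq.nil)))) (Pq.cons (Pq.D 4 (Pq.cons (Pq.L [] 39360 (Pf.C 0 0x80c082))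
 (Pq.cons (Pq.L [] 39360 (Pf.C 0 0x808083))
 (Pq.cons (Pq.L [] 256 (Pf.C 24 513))
 Pq.nil)))) (Pq.cons (Pq.L [] 128 (Pf.C 24 385))
 Pq.nil)))) (Pq.cons (Pq.D 3 (Pq.cons (Pq.D 4 (Pq.cons (Pq.L [] 39360 (Pf.C 0 0x808083))
 (Pq.cons (Pq.L [] 39360 (Pf.C 0 0x80c082))
 (Pq.cons (Pq.L [] 256 (Pf.C 24 513))
 Pq.nil)))) (Pq.cons (Pq.D 4 (Pq.cons (Pq.L [] 39360 (Pf.C 0 0x610082))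
 (Pq.cons (Pq.D 5 (Pq.cons (Pq.L [] 0x40018 (Pf.C 87 65541))
 (Pq.cons (Pq.L [] 0x40018 (Pf.C 68 82432))
 (Pq.cons (Pq.L [] 0x40300 (Pf.C 67 82052))
 Pq.nil)))) (Pq.cons (Pq.L [] 256 (Pf.C 24 513))
 Pq.nil)))) (Pq.cons (Pq.L [] 128 (Pf.C 24 385))
 Pq.nil)))) (Pq.cons (Pq.L [] 64 (Pf.C 24 257))
 Pq.nil)))) Pq.nil)))) (Pq.cons (Pq.D 1 (Pq.cons (Pq.D 2 (Pq.cons (Pq.L [] 67 (Pf.C 71 32896))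
 (Pq.cons (Pq.L [] 64 (Pf.C 34 257))
 (Pq.cons (Pq.D 3 (Pq.cons (Pq.L [] 133 (Pf.C 71 49280))
 (Pq.cons (Pq.L [] 128 (Pf.C 34 385))
 (Pq.cons (Pq.L [] 2240 (Pf.C 67 49409))
 Pq.nil)))) Pq.nil)))) (Pq.cons (Pq.D 2 (Pq.cons (Pq.L [] 64 (Pf.C 34 130))
 (Pq.cons (Pq.L [] 64 (Pf.C 12 257))
 (Pq.cons (Pq.D 3 (Pq.cons (Pq.L [] 128 (Pf.C 34 131))
 (Pq.cons (Pq.L [] 128 (Pf.C 12 385))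
 (Pq.cons (Pq.L [] 2240 (Pf.C 67 49409))
 Pq.nil)))) Pq.nil)))) (Pq.cons (Pq.D 2 (Pq.cons (Pq.D 3 (Pq.cons (Pq.D 4 (Pq.cons (Pq.D 5 (Pq.cons (Pq.L [] 0x40018 (Pf.C 71 82432))
 (Pq.cons (Pq.L [] 0x43000 (Pf.C 87 82180))
 (Pq.cons (Pq.L [] 0x40300 (Pf.C 67 82052))
 Pq.nil)))) (Pq.cons (Pq.L [] 39360 (Pf.C 0 0x610082))
 (Pq.cons (Pq.L [] 256 (Pf.C 24 513))
 Pq.nil)))) (Pq.cons (Pq.D 4 (Pq.cons (Pq.L [] 39360 (Pf.C 0 0x80c082))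
 (Pq.cons (Pq.L [] 39360 (Pf.C 0 0x808083))
 (Pq.cons (Pq.L [] 256 (Pf.C 24 513))
 Pq.nil)))) (Pq.cons (Pq.L [] 128 (Pf.C 24 385))
 Pq.nil)))) (Pq.cons (Pq.D 3 (Pq.cons (Pq.D 4 (Pq.cons (Pq.L [] 39360 (Pf.C 0 0x808083))
 (Pq.cons (Pq.L [] 39360 (Pf.C 0 0x80c082))
 (Pq.cons (Pq.L [] 256 (Pf.C 24 513))
 Pq.nil)))) (Pq.cons (Pq.D 4 (Pq.cons (Pq.L [] 39360 (Pf.C 0 0x610082))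
 (Pq.cons (Pq.D 5 (Pq.cons (Pq.L [] 0x40000 (Pf.C 34 517))
 (Pq.cons (Pq.L [] 0x40000 (Pf.C 12 644))
 (Pq.cons (Pq.L [] 0x40300 (Pf.C 67 82052))
 Pq.nil)))) (Pq.cons (Pq.L [] 256 (Pf.C 24 513))
 Pq.nil)))) (Pq.cons (Pq.L [] 128 (Pf.C 24 385))
 Pq.nil)))) (Pq.cons (Pq.L [] 64 (Pf.C 24 257))
 Pq.nil)))) Pq.nil)))) (Pq.cons (Pq.D 1 (Pq.cons (Pq.D 2 (Pq.cons (Pq.L [] 64 (Pf.C 208 257))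
 (Pq.cons (Pq.L [] 67 (Pf.C 123 32769))
 (Pq.cons (Pq.D 3 (Pq.cons (Pq.L [] 128 (Pf.C 208 385))
 (Pq.cons (Pq.L [] 133 (Pf.C 123 49153))
 (Pq.cons (Pq.L [] 2247 (Pf.C 0 0x20c100))
 Pq.nil)))) Pq.nil)))) (Pq.cons (Pq.D 2 (Pq.cons (Pq.L [] 67 (Pf.C 123 16386))
 (Pq.cons (Pq.L [] 64 (Pf.C 12 257))
 (Pq.cons (Pq.D 3 (Pq.cons (Pq.L [] 133 (Pf.C 123 16387))
 (Pq.cons (Pq.L [] 128 (Pf.C 12 385))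
 (Pq.cons (Pq.L [] 2247 (Pf.C 0 0x20c100))
 Pq.nil)))) Pq.nil)))) (Pq.cons (Pq.D 2 (Pq.cons (Pq.D 3 (Pq.cons (Pq.D 4 (Pq.cons (Pq.D 5 (Pq.cons (Pq.L [] 0x40300 (Pf.C 115 16901))
 (Pq.cons (Pq.L [] 0x40018 (Pf.C 123 81924))
 (Pq.cons (Pq.L [] 0x40319 (Pf.C 0 0x814080))
 Pq.nil)))) (Pq.cons (Pq.L [] 39360 (Pf.C 0 0x610082))
 (Pq.cons (Pq.L [] 265 (Pf.C 72 65537))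
 Pq.nil)))) (Pq.cons (Pq.D 4 (Pq.cons (Pq.L [] 39360 (Pf.C 0 0x80c082))
 (Pq.cons (Pq.L [] 39360 (Pf.C 0 0x808083))
 (Pq.cons (Pq.L [] 265 (Pf.C 72 65537))
 Pq.nil)))) (Pq.cons (Pq.L [] 133 (Pf.C 72 49153))
 Pq.nil)))) (Pq.cons (Pq.D 3 (Pq.cons (Pq.D 4 (Pq.cons (Pq.L [] 39360 (Pf.C 0 0x808083))
 (Pq.cons (Pq.L [] 39360 (Pf.C 0 0x80c082))
 (Pq.cons (Pq.L [] 265 (Pf.C 72 65537))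
 Pq.nil)))) (Pq.cons (Pq.D 4 (Pq.cons (Pq.L [] 39360 (Pf.C 0 0x610082))
 (Pq.cons (Pq.D 5 (Pq.cons (Pq.L [] 0x40018 (Pf.C 123 65541))
 (Pq.cons (Pq.L [] 0x40000 (Pf.C 12 644))
 (Pq.cons (Pq.L [] 0x40319 (Pf.C 0 0x814080))
 Pq.nil)))) (Pq.cons (Pq.L [] 265 (Pf.C 72 65537))
 Pq.nil)))) (Pq.cons (Pq.L [] 133 (Pf.C 72 49153))
 Pq.nil)))) (Pq.cons (Pq.L [] 67 (Pf.C 72 32769))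
 Pq.nil)))) Pq.nil)))) Pq.nil)))) Pq.nil))
theorem f1_o53 : AllRef f1_T f1_G78 (applyObl d_T 2 [38,40,30] [0,0,0] [(38,0x10000000000),(40,0x4000000000),(30,0x40000000)]) :=
  chkPq_sound f1_o53c _ (by decide +kernel)
noncomputable def f1_o54c : Pq := (Pq.cons (Pq.L [] 0 (Pf.W 225 0 [] [] (Pf.cons (Pf.W 230 0 [] [0,1] (Pf.cons (Pf.B 2 0 (Pf.C 17 2) (Pf.B 2 1 (Pf.C 112 32769) (Pf.C 135 16386))) Pf.nil)) Pf.nil)))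
 (Pq.cons (Pq.L [] 0 (Pf.W 230 0 [] [0] (Pf.cons (Pf.B 1 0 (Pf.C 17 1) (Pf.C 5 1)) Pf.nil)))
 (Pq.cons (Pq.L [] 0 (Pf.W 209 0 [] [] (Pf.cons (Pf.T 1 2 (Pf.cons (Pf.W 230 0 [] [0,1] (Pf.cons (Pf.B 2 1 (Pf.C 13 257) (Pf.B 2 0 (Pf.C 13 256) (Pf.C 68 16386))) Pf.nil)) (Pf.cons (Pf.C 210 1) Pf.nil))) Pf.nil)))
 (Pq.cons (Pq.L [] 0 (Pf.W 227 0 [] [] (Pf.cons (Pf.W 230 0 [] [0,1] (Pf.cons (Pf.B 2 0 (Pf.B 2 1 (Pf.C 94 130) (Pf.C 136 16386)) (Pf.C 36 2)) Pf.nil)) Pf.nil)))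
 (Pq.cons (Pq.L [] 0 (Pf.W 221 0 [] [] (Pf.cons (Pf.W 230 0 [] [1] (Pf.cons (Pf.B 2 1 (Pf.C 17 130) (Pf.C 5 130)) Pf.nil)) Pf.nil)))
 (Pq.cons (Pq.L [] 0 (Pf.W 230 0 [] [0] (Pf.cons (Pf.C 38 1) Pf.nil)))
 (Pq.cons (Pq.L [] 0 (Pf.W 213 0 [] [] (Pf.cons (Pf.T 1 4 (Pf.cons (Pf.W 230 0 [] [0,1] (Pf.cons (Pf.B 2 1 (Pf.C 15 130) (Pf.B 2 0 (Pf.C 15 2) (Pf.C 67 16386))) Pf.nil)) (Pf.cons (Pf.C 214 1) Pf.nil))) Pf.nil)))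
 (Pq.cons (Pq.L [] 0 (Pf.W 223 0 [] [] (Pf.cons (Pf.W 230 0 [] [1] (Pf.cons (Pf.B 2 1 (Pf.C 17 130) (Pf.C 5 130)) Pf.nil)) Pf.nil)))
 Pq.nil))))))))
theorem f1_o54 : AllRef f1_T f1_G11 (List.map pat1 [38,27,21,40,34,29,25,36]) :=
  chkPq_sound f1_o54c _ (by decide +kernel)
noncomputable def f1_o55c : Pq := (Pq.cons (Pq.L [] 7 (Pf.C 87 32769))
 (Pq.cons (Pq.L [] 7 (Pf.C 86 32769))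
 (Pq.cons (Pq.L [] 7 (Pf.C 73 32769))
 (Pq.cons (Pq.L [] 7 (Pf.C 72 32769))
 Pq.nil))))
theorem f1_o55 : AllRef f1_T f1_G79 (twinObl [17,28,30] 6 [1,5,3]) :=
  chkPq_sound f1_o55c _ (by decide +kernel)
noncomputable def f1_o56c : Pq := (Pq.cons (Pq.L [] 1 (Pf.C 26 128))
 (Pq.cons (Pq.L [] 1 (Pf.C 24 128))
 (Pq.cons (Pq.L [] 1 (Pf.C 26 128))
 (Pq.cons (Pq.L [] 1 (Pf.C 24 128))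
 Pq.nil))))
theorem f1_o56 : AllRef f1_T f1_G80 (blockObl [132,133,134] [0,2,4] [7,5,3] [7,5,3]) :=
  chkPq_sound f1_o56c _ (by decide +kernel)
noncomputable def f1_o57c : Pq := (Pq.cons (Pq.L [] 0 (Pf.W 274 0 [] [] (Pf.cons (Pf.T 1 37 (Pf.cons (Pf.W 274 0 [1] [] (Pf.cons (Pf.B 2 1 (Pf.C 131 130) (Pf.C 69 16640)) (Pf.cons (Pf.W 274 0 [1,2] [] (Pf.cons (Pf.B 3 1 (Pf.C 131 131) (Pf.C 69 16768)) (Pf.cons (Pf.B 3 2 (Pf.C 24 259) (Pf.C 67 33152)) Pf.nil))) Pf.nil))) (Pf.cons (Pf.W 274 0 [1] [] (Pf.cons (Pf.B 2 1 (Pf.C 131 130) (Pf.C 69 16640)) (Pf.cons (Pf.W 274 0 [1,2] [] (Pf.cons (Pf.B 3 1 (Pf.C 131 131) (Pf.C 69 16768)) (Pf.cons (Pf.B 3 2 (Pf.C 24 259) (Pf.C 67 33152)) Pf.nil))) Pf.nil))) Pf.nil))) (Pf.cons (Pf.T 1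 39 (Pf.cons (Pf.W 274 0 [1] [] (Pf.cons (Pf.W 274 0 [1,2] [] (Pf.cons (Pf.B 3 2 (Pf.C 131 259) (Pf.C 69 33152)) (Pf.cons (Pf.B 3 1 (Pf.C 24 131) (Pf.C 67 16768)) Pf.nil))) (Pf.cons (Pf.B 2 1 (Pf.C 24 130) (Pf.C 67 16640)) Pf.nil))) (Pf.cons (Pf.W 274 0 [1] [] (Pf.cons (Pf.W 274 0 [1,2] [] (Pf.cons (Pf.B 3 2 (Pf.C 131 259) (Pf.C 69 33152)) (Pf.cons (Pf.B 3 1 (Pf.C 24 131) (Pf.C 67 16768)) Pf.nil))) (Pf.cons (Pf.B 2 1 (Pf.C 24 130) (Pf.C 67 16640)) Pf.nil))) Pf.nil))) Pf.nil))))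
 (Pq.cons (Pq.L [] 0 (Pf.W 276 0 [] [] (Pf.cons (Pf.T 1 37 (Pf.cons (Pf.W 276 0 [1] [] (Pf.cons (Pf.B 2 1 (Pf.C 133 130) (Pf.C 69 16640)) (Pf.cons (Pf.W 276 0 [1,2] [] (Pf.cons (Pf.B 3 1 (Pf.C 133 131) (Pf.C 69 16768)) (Pf.cons (Pf.B 3 2 (Pf.C 26 259) (Pf.C 68 33152)) Pf.nil))) Pf.nil))) (Pf.cons (Pf.W 276 0 [1] [] (Pf.cons (Pf.B 2 1 (Pf.C 133 130) (Pf.C 69 16640)) (Pf.cons (Pf.W 276 0 [1,2] [] (Pf.cons (Pf.B 3 1 (Pf.C 133 131) (Pf.C 69 16768)) (Pf.cons (Pf.B 3 2 (Pf.C 26 259) (Pf.C 68 33152)) Pf.nil))) Pf.nil))) Pf.nil))) (Pf.cons (Pf.T 1 38 (Pf.cons (Pf.W 276 0 [1] [] (Pf.cons (Pf.W 276 0 [1,2] [] (Pf.cons (Pf.B 3 2 (Pf.C 133 259) (Pf.C 69 33152)) (Pf.cons (Pf.B 3 1 (Pf.C 26 131) (Pf.C 68 16768)) Pf.nil))) (Pf.cons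 (Pf.B 2 1 (Pf.C 26 130) (Pf.C 68 16640)) Pf.nil))) (Pf.cons (Pf.W 276 0 [1] [] (Pf.cons (Pf.W 276 0 [1,2] [] (Pf.cons (Pf.B 3 2 (Pf.C 133 259) (Pf.C 69 33152)) (Pf.cons (Pf.B 3 1 (Pf.C 26 131) (Pf.C 68 16768)) Pf.nil))) (Pf.cons (Pf.B 2 1 (Pf.C 26 130) (Pf.C 68 16640)) Pf.nil))) Pf.nil))) Pf.nil))))
 Pq.nil))
theorem f1_o57 : AllRef f1_T f1_G84 (List.map pat1 [146,148]) :=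
  chkPq_sound f1_o57c _ (by decide +kernel)
noncomputable def f1_o58c : Pq := Pq.nil
theorem f1_o58 : AllRef f1_T f1_G85 (extObl 144 [] []) :=
  chkPq_sound f1_o58c _ (by decide +kernel)
noncomputable def f1_o59c : Pq := (Pq.cons (Pq.D 0 (Pq.cons (Pq.D 1 (Pq.cons (Pq.D 2 (Pq.cons (Pq.D 3 (Pq.cons (Pq.L [] 7 (Pf.C 273 0x608080))
 (Pq.cons (Pq.L [] 7 (Pf.C 273 0x608080))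
 (Pq.cons (Pq.L [] 7 (Pf.C 273 0x608080))
 Pq.nil)))) (Pq.cons (Pq.D 3 (Pq.cons (Pq.L [] 7 (Pf.C 273 0x608080))
 (Pq.cons (Pq.L [] 7 (Pf.C 273 0x608080))
 (Pq.cons (Pq.L [] 7 (Pf.C 273 0x608080))
 Pq.nil)))) (Pq.cons (Pq.D 3 (Pq.cons (Pq.L [] 7 (Pf.C 273 0x608080))
 (Pq.cons (Pq.L [] 7 (Pf.C 273 0x608080))
 (Pq.cons (Pq.L [] 7 (Pf.C 273 0x608080))
 Pq.nil)))) Pq.nil)))) (Pq.cons (Pq.D 2 (Pq.cons (Pq.D 3 (Pq.cons (Pq.L [] 7 (Pf.C 273 0x608080))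
 (Pq.cons (Pq.L [] 7 (Pf.C 273 0x608080))
 (Pq.cons (Pq.L [] 7 (Pf.C 273 0x608080))
 Pq.nil)))) (Pq.cons (Pq.L [] 3 (Pf.B 2 1 (Pf.C 26 130) (Pf.C 68 16640)))
 (Pq.cons (Pq.D 3 (Pq.cons (Pq.L [] 7 (Pf.C 273 0x608080))
 (Pq.cons (Pq.L [] 7 (Pf.C 273 0x608080))
 (Pq.cons (Pq.L [] 7 (Pf.C 273 0x608080))
 Pq.nil)))) Pq.nil)))) (Pq.cons (Pq.D 2 (Pq.cons (Pq.D 3 (Pq.cons (Pq.L [] 7 (Pf.C 273 0x608080))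
 (Pq.cons (Pq.L [] 7 (Pf.C 273 0x608080))
 (Pq.cons (Pq.L [] 7 (Pf.C 273 0x608080))
 Pq.nil)))) (Pq.cons (Pq.D 3 (Pq.cons (Pq.L [] 7 (Pf.C 273 0x608080))
 (Pq.cons (Pq.L [] 7 (Pf.C 273 0x608080))
 (Pq.cons (Pq.L [] 7 (Pf.C 273 0x608080))
 Pq.nil)))) (Pq.cons (Pq.L [] 3 (Pf.B 2 1 (Pf.C 24 130) (Pf.C 67 16640)))
 Pq.nil)))) Pq.nil)))) (Pq.cons (Pq.D 1 (Pq.cons (Pq.D 2 (Pq.cons (Pq.L [] 3 (Pf.B 2 1 (Pf.C 131 130) (Pf.C 69 16640)))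
 (Pq.cons (Pq.L [] 2 (Pf.C 26 256))
 (Pq.cons (Pq.D 3 (Pq.cons (Pq.L [] 7 (Pf.C 275 0x608080))
 (Pq.cons (Pq.L [] 4 (Pf.C 26 384))
 (Pq.cons (Pq.L [] 7 (Pf.C 275 0x608080))
 Pq.nil)))) Pq.nil)))) (Pq.cons (Pq.L [] 1 (Pf.C 26 128))
 (Pq.cons (Pq.D 2 (Pq.cons (Pq.D 3 (Pq.cons (Pq.L [] 7 (Pf.C 275 0x608080))
 (Pq.cons (Pq.L [] 4 (Pf.C 26 384))
 (Pq.cons (Pq.L [] 7 (Pf.C 275 0x608080))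
 Pq.nil)))) (Pq.cons (Pq.L [] 2 (Pf.C 26 256))
 (Pq.cons (Pq.L [] 3 (Pf.B 2 1 (Pf.C 24 130) (Pf.C 67 16640)))
 Pq.nil)))) Pq.nil)))) (Pq.cons (Pq.D 1 (Pq.cons (Pq.D 2 (Pq.cons (Pq.L [] 3 (Pf.B 2 1 (Pf.C 133 130) (Pf.C 69 16640)))
 (Pq.cons (Pq.D 3 (Pq.cons (Pq.L [] 7 (Pf.C 277 0x608080))
 (Pq.cons (Pq.L [] 7 (Pf.C 277 0x608080))
 (Pq.cons (Pq.L [] 4 (Pf.C 24 384))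
 Pq.nil)))) (Pq.cons (Pq.L [] 2 (Pf.C 24 256))
 Pq.nil)))) (Pq.cons (Pq.D 2 (Pq.cons (Pq.D 3 (Pq.cons (Pq.L [] 7 (Pf.C 277 0x608080))
 (Pq.cons (Pq.L [] 7 (Pf.C 277 0x608080))
 (Pq.cons (Pq.L [] 4 (Pf.C 24 384))
 Pq.nil)))) (Pq.cons (Pq.L [] 3 (Pf.B 2 1 (Pf.C 26 130) (Pf.C 68 16640)))
 (Pq.cons (Pq.L [] 2 (Pf.C 24 256))
 Pq.nil)))) (Pq.cons (Pq.L [] 1 (Pf.C 24 128))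
 Pq.nil)))) Pq.nil)))) Pq.nil)
theorem f1_o59 : AllRef f1_T f1_G86 (applyObl TD2 1 [145,147,149] [0,0,0] [(147,0x8000000000000000000000000000000000000),(149,0x20000000000000000000000000000000000000)]) :=
  chkPq_sound f1_o59c _ (by decide +kernel)
noncomputable def f1_o60c : Pq := Pq.nil
theorem f1_o60 : AllRef f1_T f1_G87 (ptObl 144 PT.kid []) :=
  chkPq_sound f1_o60c _ (by decide +kernel)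
noncomputable def f1_o61c : Pq := Pq.nil
theorem f1_o61 : AllRef f1_T f1_G88 (ptObl 151 (PT.br 0 PT.kid PT.kid) []) :=
  chkPq_sound f1_o61c _ (by decide +kernel)
noncomputable def f1_o62c : Pq := Pq.nil
theorem f1_o62 : AllRef f1_T f1_G89 (ptObl 145 (PT.br 0 PT.kid PT.kid) []) :=
  chkPq_sound f1_o62c _ (by decide +kernel)
noncomputable def f1_o63c : Pq := Pq.nil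
theorem f1_o63 : AllRef f1_T f1_G90 (ptObl 147 (PT.br 0 PT.kid PT.kid) []) :=
  chkPq_sound f1_o63c _ (by decide +kernel)
noncomputable def f1_o64c : Pq := Pq.nil
theorem f1_o64 : AllRef f1_T f1_G91 (ptObl 149 (PT.br 0 PT.kid PT.kid) []) :=
  chkPq_sound f1_o64c _ (by decide +kernel)
noncomputable def f1_o65c : Pq := (Pq.cons (Pq.L [] 0 (Pf.X 0 1))
 (Pq.cons (Pq.L [0] 1 (Pf.C 74 32896))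
 (Pq.cons (Pq.L [0] 1 (Pf.C 74 32896))
 (Pq.cons (Pq.L [0] 1 (Pf.C 87 16640))
 (Pq.cons (Pq.L [0] 1 (Pf.C 131 16640))
 (Pq.cons (Pq.L [0] 1 (Pf.C 86 16640))
 (Pq.cons (Pq.L [0] 1 (Pf.C 133 16640))
 (Pq.cons (Pq.L [] 0 (Pf.X 0 1))
 (Pq.cons (Pq.L [0] 1 (Pf.C 74 32896))
 (Pq.cons (Pq.L [0] 1 (Pf.C 74 32896))
 (Pq.cons (Pq.L [0] 1 (Pf.C 87 16640))
 (Pq.cons (Pq.L [0] 1 (Pf.C 131 16640))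
 (Pq.cons (Pq.L [0] 1 (Pf.C 86 16640))
 (Pq.cons (Pq.L [0] 1 (Pf.C 133 16640))
 Pq.nil))))))))))))))
theorem f1_o65 : AllRef f1_T f1_G92 (closeObl (f1_T.sc.get 2) false [152,153,154,155,156,157,158,159] [0,0,0,0,1,1,2,2] [0] [0] 250) :=
  chkPq_sound f1_o65c _ (by decide +kernel)
noncomputable def f1_o66c : Pq := (Pq.cons (Pq.L [] 0 (Pf.X 0 1))
 (Pq.cons (Pq.L [] 1 (Pf.C 278 130))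
 (Pq.cons (Pq.L [] 1 (Pf.C 278 130))
 (Pq.cons (Pq.L [] 1 (Pf.C 26 257))
 (Pq.cons (Pq.L [] 1 (Pf.C 26 257))
 (Pq.cons (Pq.L [] 1 (Pf.C 26 257))
 (Pq.cons (Pq.L [] 1 (Pf.C 281 130))
 (Pq.cons (Pq.L [] 1 (Pf.W 282 1 [] [2] (Pf.cons (Pf.B 3 2 (Pf.C 26 259) (Pf.C 68 33153)) Pf.nil)))
 (Pq.cons (Pq.L [] 1 (Pf.C 278 130))
 (Pq.cons (Pq.L [] 0 (Pf.X 0 1))
 (Pq.cons (Pq.L [] 1 (Pf.C 279 130))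
 (Pq.cons (Pq.L [] 1 (Pf.C 279 130))
 (Pq.cons (Pq.L [] 1 (Pf.C 283 130))
 (Pq.cons (Pq.L [] 1 (Pf.W 280 1 [] [2] (Pf.cons (Pf.B 3 2 (Pf.C 24 259) (Pf.C 67 33153)) Pf.nil)))
 (Pq.cons (Pq.L [] 1 (Pf.C 279 130))
 (Pq.cons (Pq.L [] 1 (Pf.C 24 257))
 (Pq.cons (Pq.L [] 1 (Pf.C 24 257))
 (Pq.cons (Pq.L [] 1 (Pf.C 24 257))
 Pq.nil))))))))))))))))))
theorem f1_o66 : AllRef f1_T f1_G97 (closeObl (f1_T.sc.get 2) false [153,155,160,164,165,157,162,166,167,159] [0,0,1,1,1,1,2,2,2,2] [0] [0] 751) :=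
  chkPq_sound f1_o66c _ (by decide +kernel)
noncomputable def f1_o67c : Pq := (Pq.cons (Pq.L [0] 0 (Pf.B 3 2 (Pf.C 74 32771) (Pf.B 3 1 (Pf.C 74 16387) (Pf.C 273 0x400083))))
 (Pq.cons (Pq.L [0] 0 (Pf.B 2 1 (Pf.C 26 130) (Pf.C 68 16640)))
 (Pq.cons (Pq.L [0] 0 (Pf.B 2 1 (Pf.C 24 130) (Pf.C 67 16640)))
 Pq.nil)))
theorem f1_o67 : AllRef f1_T f1_G98 (hitObl [155,157,159] f1_h127) :=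
  chkPq_sound f1_o67c _ (by decide +kernel)
noncomputable def f1_o68c : Pq := (Pq.cons (Pq.L [] 0 (Pf.C 284 1))
 (Pq.cons (Pq.L [] 0 (Pf.C 285 1))
 (Pq.cons (Pq.L [] 0 (Pf.C 286 1))
 Pq.nil)))
theorem f1_o68 : AllRef f1_T f1_G99 (List.map pat1 [168,169,170]) :=
  chkPq_sound f1_o68c _ (by decide +kernel)
noncomputable def f1_o69c : Pq := (Pq.cons (Pq.D 0 (Pq.cons (Pq.D 1 (Pq.cons (Pq.L [0] 1 (Pf.C 74 32769))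
 (Pq.cons (Pq.D 2 (Pq.cons (Pq.L [0] 2 (Pf.C 74 49153))
 (Pq.cons (Pq.L [] 3 (Pf.B 3 2 (Pf.C 26 259) (Pf.C 68 33153)))
 (Pq.cons (Pq.D 3 (Pq.cons (Pq.L [0] 4 (Pf.C 74 65537))
 (Pq.cons (Pq.L [] 5 (Pf.B 4 2 (Pf.C 26 260) (Pf.C 68 33281)))
 (Pq.cons (Pq.L [] 6 (Pf.B 4 3 (Pf.C 24 388) (Pf.C 67 49665)))
 Pq.nil)))) Pq.nil)))) (Pq.cons (Pq.D 2 (Pq.cons (Pq.L [0] 2 (Pf.C 74 49153))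
 (Pq.cons (Pq.D 3 (Pq.cons (Pq.L [0] 4 (Pf.C 74 65537))
 (Pq.cons (Pq.L [] 6 (Pf.B 4 3 (Pf.C 26 388) (Pf.C 68 49665)))
 (Pq.cons (Pq.L [] 5 (Pf.B 4 2 (Pf.C 24 260) (Pf.C 67 33281)))
 Pq.nil)))) (Pq.cons (Pq.L [] 3 (Pf.B 3 2 (Pf.C 24 259) (Pf.C 67 33153)))
 Pq.nil)))) Pq.nil)))) (Pq.cons (Pq.D 1 (Pq.cons (Pq.D 2 (Pq.cons (Pq.L [0] 3 (Pf.B 3 2 (Pf.C 74 32771) (Pf.C 69 33153)))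
 (Pq.cons (Pq.L [] 2 (Pf.C 26 385))
 (Pq.cons (Pq.D 3 (Pq.cons (Pq.L [] 7 (Pf.C 275 0x80c101))
 (Pq.cons (Pq.L [] 4 (Pf.C 26 513))
 (Pq.cons (Pq.L [] 7 (Pf.C 275 0x80c101))
 Pq.nil)))) Pq.nil)))) (Pq.cons (Pq.L [] 1 (Pf.C 26 257))
 (Pq.cons (Pq.D 2 (Pq.cons (Pq.D 3 (Pq.cons (Pq.L [] 7 (Pf.C 275 0x80c101))
 (Pq.cons (Pq.L [] 4 (Pf.C 26 513))
 (Pq.cons (Pq.L [] 7 (Pf.C 275 0x80c101))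
 Pq.nil)))) (Pq.cons (Pq.L [] 2 (Pf.C 26 385))
 (Pq.cons (Pq.L [] 3 (Pf.B 3 2 (Pf.C 24 259) (Pf.C 67 33153)))
 Pq.nil)))) Pq.nil)))) (Pq.cons (Pq.D 1 (Pq.cons (Pq.D 2 (Pq.cons (Pq.L [0] 3 (Pf.B 3 2 (Pf.C 74 32771) (Pf.C 69 33153)))
 (Pq.cons (Pq.D 3 (Pq.cons (Pq.L [] 7 (Pf.C 277 0x80c101))
 (Pq.cons (Pq.L [] 7 (Pf.C 277 0x80c101))
 (Pq.cons (Pq.L [] 4 (Pf.C 24 513))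
 Pq.nil)))) (Pq.cons (Pq.L [] 2 (Pf.C 24 385))
 Pq.nil)))) (Pq.cons (Pq.D 2 (Pq.cons (Pq.D 3 (Pq.cons (Pq.L [] 7 (Pf.C 277 0x80c101))
 (Pq.cons (Pq.L [] 7 (Pf.C 277 0x80c101))
 (Pq.cons (Pq.L [] 4 (Pf.C 24 513))
 Pq.nil)))) (Pq.cons (Pq.L [] 3 (Pf.B 3 2 (Pf.C 26 259) (Pf.C 68 33153)))
 (Pq.cons (Pq.L [] 2 (Pf.C 24 385))
 Pq.nil)))) (Pq.cons (Pq.L [] 1 (Pf.C 24 257))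
 Pq.nil)))) Pq.nil)))) Pq.nil)
theorem f1_o69 : AllRef f1_T f1_G100 (applyObl TD2 1 [153,156,158] [0,0,0] [(153,0x200000000000000000000000000000000000000),(156,0x1000000000000000000000000000000000000000),(158,0x4000000000000000000000000000000000000000)]) :=
  chkPq_sound f1_o69c _ (by decide +kernel)
noncomputable def f1_o70c : Pq := (Pq.cons (Pq.L [] 63 (Pf.C 0 0x608080))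
 (Pq.cons (Pq.L [] 32767 (Pf.C 1 0x2840608080))
 (Pq.cons (Pq.D 0 (Pq.cons (Pq.D 1 (Pq.cons (Pq.L [] 1 (Pf.C 10 128))
 (Pq.cons (Pq.L [] 1 (Pf.C 10 128))
 Pq.nil))) (Pq.cons (Pq.D 1 (Pq.cons (Pq.L [] 1 (Pf.C 10 128))
 (Pq.cons (Pq.L [] 1 (Pf.C 10 128))
 Pq.nil))) Pq.nil))) (Pq.cons (Pq.D 0 (Pq.cons (Pq.D 1 (Pq.cons (Pq.L [] 1 (Pf.C 11 128))
 (Pq.cons (Pq.L [] 1 (Pf.C 11 128))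
 Pq.nil))) (Pq.cons (Pq.D 1 (Pq.cons (Pq.L [] 1 (Pf.C 11 128))
 (Pq.cons (Pq.L [] 1 (Pf.C 10 128))
 Pq.nil))) Pq.nil))) (Pq.cons (Pq.D 0 (Pq.cons (Pq.D 1 (Pq.cons (Pq.L [] 1 (Pf.C 12 128))
 (Pq.cons (Pq.L [] 1 (Pf.C 12 128))
 Pq.nil))) (Pq.cons (Pq.D 1 (Pq.cons (Pq.L [] 1 (Pf.C 12 128))
 (Pq.cons (Pq.L [] 1 (Pf.C 10 128))
 Pq.nil))) Pq.nil))) (Pq.cons (Pq.D 1 (Pq.cons (Pq.L [] 1 (Pf.C 15 128))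
 (Pq.cons (Pq.L [] 1 (Pf.C 15 128))
 Pq.nil))) (Pq.cons (Pq.D 1 (Pq.cons (Pq.L [] 1 (Pf.C 15 1))
 (Pq.cons (Pq.L [] 1 (Pf.C 18 128))
 Pq.nil))) (Pq.cons (Pq.D 1 (Pq.cons (Pq.L [] 1 (Pf.C 21 128))
 (Pq.cons (Pq.L [] 1 (Pf.C 21 128))
 Pq.nil))) (Pq.cons (Pq.D 1 (Pq.cons (Pq.L [] 1 (Pf.C 22 128))
 (Pq.cons (Pq.L [] 1 (Pf.C 22 128))
 Pq.nil))) (Pq.cons (Pq.L [] 1 (Pf.C 16 128))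
 (Pq.cons (Pq.L [] 1 (Pf.C 17 128))
 (Pq.cons (Pq.L [] 1 (Pf.C 28 128))
 (Pq.cons (Pq.L [] 1 (Pf.C 29 128))
 (Pq.cons (Pq.L [] 1 (Pf.C 30 128))
 (Pq.cons (Pq.L [] 1 (Pf.C 31 128))
 (Pq.cons (Pq.L [] 1 (Pf.C 32 128))
 (Pq.cons (Pq.L [] 1 (Pf.C 34 128))
 (Pq.cons (Pq.L [] 1 (Pf.C 35 128))
 (Pq.cons (Pq.L [] 1 (Pf.C 36 128))
 (Pq.cons (Pq.L [] 1 (Pf.C 37 128))
 (Pq.cons (Pq.L [] 0 (Pf.C 39 128))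
 (Pq.cons (Pq.L [] 1 (Pf.C 40 128))
 (Pq.cons (Pq.L [] 1 (Pf.C 41 128))
 (Pq.cons (Pq.L [] 1 (Pf.C 45 128))
 (Pq.cons (Pq.L [] 1 (Pf.C 46 128))
 (Pq.cons (Pq.L [] 1 (Pf.C 47 128))
 (Pq.cons (Pq.L [] 1 (Pf.C 52 128))
 (Pq.cons (Pq.L [] 1 (Pf.C 53 128))
 (Pq.cons (Pq.L [] 1 (Pf.C 54 128))
 (Pq.cons (Pq.L [] 1 (Pf.C 55 128))
 (Pq.cons (Pq.L [] 1 (Pf.C 56 128))
 (Pq.cons (Pq.L [] 0 (Pf.C 59 128))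
 (Pq.cons (Pq.L [] 1 (Pf.C 60 128))
 (Pq.cons (Pq.L [] 1 (Pf.C 61 128))
 (Pq.cons (Pq.L [] 1 (Pf.C 62 128))
 (Pq.cons (Pq.L [] 1 (Pf.C 63 128))
 (Pq.cons (Pq.L [] 1 (Pf.C 64 128))
 (Pq.cons (Pq.L [] 1 (Pf.C 65 128))
 (Pq.cons (Pq.L [] 1 (Pf.C 66 128))
 (Pq.cons (Pq.L [] 1 (Pf.C 206 128))
 (Pq.cons (Pq.L [] 1 (Pf.C 208 128))
 (Pq.cons (Pq.L [] 1 (Pf.C 212 128))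
 (Pq.cons (Pq.L [] 1 (Pf.C 214 128))
 (Pq.cons (Pq.D 0 (Pq.cons (Pq.D 1 (Pq.cons (Pq.L [] 1 (Pf.C 22 1))
 (Pq.cons (Pq.L [] 1 (Pf.C 60 128))
 Pq.nil))) (Pq.cons (Pq.D 1 (Pq.cons (Pq.D 2 (Pq.cons (Pq.L [] 7 (Pf.C 78 16386))
 (Pq.cons (Pq.L [] 7 (Pf.C 78 16386))
 (Pq.cons (Pq.L [] 7 (Pf.C 80 32896))
 (Pq.cons (Pq.L [] 7 (Pf.C 80 32896))
 Pq.nil))))) (Pq.cons (Pq.L [] 1 (Pf.C 65 1))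
 Pq.nil))) Pq.nil))) (Pq.cons (Pq.D 0 (Pq.cons (Pq.D 1 (Pq.cons (Pq.D 2 (Pq.cons (Pq.L [] 7 (Pf.C 81 32896))
 (Pq.cons (Pq.L [] 7 (Pf.C 81 32896))
 Pq.nil))) (Pq.cons (Pq.D 2 (Pq.cons (Pq.L [] 7 (Pf.C 81 32896))
 (Pq.cons (Pq.L [] 7 (Pf.C 81 32896))
 Pq.nil))) (Pq.cons (Pq.L [] 0 (Pf.C 59 128))
 (Pq.cons (Pq.L [] 1 (Pf.C 62 128))
 Pq.nil))))) (Pq.cons (Pq.D 1 (Pq.cons (Pq.D 2 (Pq.cons (Pq.L [] 7 (Pf.C 81 32896))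
 (Pq.cons (Pq.L [] 7 (Pf.C 81 32896))
 Pq.nil))) (Pq.cons (Pq.L [] 1 (Pf.C 47 1))
 (Pq.cons (Pq.L [] 1 (Pf.C 64 1))
 (Pq.cons (Pq.L [] 1 (Pf.C 10 128))
 Pq.nil))))) Pq.nil))) (Pq.cons (Pq.D 0 (Pq.cons (Pq.D 1 (Pq.cons (Pq.D 2 (Pq.cons (Pq.L [] 7 (Pf.C 83 32896))
 (Pq.cons (Pq.L [] 7 (Pf.C 83 32896))
 Pq.nil))) (Pq.cons (Pq.L [] 0 (Pf.C 39 128))
 (Pq.cons (Pq.D 2 (Pq.cons (Pq.L [] 7 (Pf.C 83 32896))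
 (Pq.cons (Pq.L [] 7 (Pf.C 83 32896))
 Pq.nil))) (Pq.cons (Pq.L [] 1 (Pf.C 40 128))
 Pq.nil))))) (Pq.cons (Pq.D 1 (Pq.cons (Pq.D 2 (Pq.cons (Pq.L [] 7 (Pf.C 83 32896))
 (Pq.cons (Pq.L [] 7 (Pf.C 83 32896))
 Pq.nil))) (Pq.cons (Pq.L [] 1 (Pf.C 46 128))
 (Pq.cons (Pq.L [] 1 (Pf.C 47 128))
 (Pq.cons (Pq.L [] 1 (Pf.C 12 128))
 Pq.nil))))) Pq.nil))) (Pq.cons (Pq.D 0 (Pq.cons (Pq.D 1 (Pq.cons (Pq.L [] 1 (Pf.C 21 1))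
 (Pq.cons (Pq.L [] 1 (Pf.C 37 128))
 Pq.nil))) (Pq.cons (Pq.D 1 (Pq.cons (Pq.D 2 (Pq.cons (Pq.L [] 7 (Pf.C 77 130))
 (Pq.cons (Pq.L [] 7 (Pf.C 84 32896))
 (Pq.cons (Pq.L [] 7 (Pf.C 77 130))
 (Pq.cons (Pq.L [] 7 (Pf.C 84 32896))
 Pq.nil))))) (Pq.cons (Pq.L [] 1 (Pf.C 45 128))
 Pq.nil))) Pq.nil))) (Pq.cons (Pq.D 2 (Pq.cons (Pq.D 1 (Pq.cons (Pq.L [] 4 (Pf.C 21 130))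
 (Pq.cons (Pq.D 0 (Pq.cons (Pq.L [] 1 (Pf.C 15 128))
 (Pq.cons (Pq.L [] 2 (Pf.C 16 256))
 (Pq.cons (Pq.L [] 1 (Pf.C 18 1))
 Pq.nil)))) (Pq.cons (Pq.D 0 (Pq.cons (Pq.L [] 1 (Pf.C 15 128))
 (Pq.cons (Pq.L [] 2 (Pf.C 16 256))
 (Pq.cons (Pq.L [] 2 (Pf.C 32 2))
 Pq.nil)))) Pq.nil)))) (Pq.cons (Pq.D 1 (Pq.cons (Pq.L [] 4 (Pf.C 37 257))
 (Pq.cons (Pq.D 0 (Pq.cons (Pq.L [] 1 (Pf.C 15 128))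
 (Pq.cons (Pq.L [] 7 (Pf.C 86 32896))
 (Pq.cons (Pq.L [] 1 (Pf.C 18 1))
 Pq.nil)))) (Pq.cons (Pq.L [] 4 (Pf.C 54 130))
 Pq.nil)))) Pq.nil))) (Pq.cons (Pq.D 2 (Pq.cons (Pq.D 1 (Pq.cons (Pq.D 0 (Pq.cons (Pq.L [] 2 (Pf.C 17 256))
 (Pq.cons (Pq.L [] 1 (Pf.C 15 1))
 (Pq.cons (Pq.L [] 1 (Pf.C 15 1))
 Pq.nil)))) (Pq.cons (Pq.L [] 4 (Pf.C 22 130))
 (Pq.cons (Pq.D 0 (Pq.cons (Pq.L [] 1 (Pf.C 15 128))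
 (Pq.cons (Pq.L [] 1 (Pf.C 18 128))
 (Pq.cons (Pq.L [] 2 (Pf.C 35 2))
 Pq.nil)))) Pq.nil)))) (Pq.cons (Pq.D 1 (Pq.cons (Pq.D 0 (Pq.cons (Pq.L [] 7 (Pf.C 85 32896))
 (Pq.cons (Pq.L [] 1 (Pf.C 15 1))
 (Pq.cons (Pq.L [] 1 (Pf.C 15 1))
 Pq.nil)))) (Pq.cons (Pq.L [] 4 (Pf.C 60 257))
 (Pq.cons (Pq.L [] 4 (Pf.C 63 257))
 Pq.nil)))) Pq.nil))) (Pq.cons (Pq.D 1 (Pq.cons (Pq.D 2 (Pq.cons (Pq.D 0 (Pq.cons (Pq.L [] 2 (Pf.C 17 256))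
 (Pq.cons (Pq.L [] 1 (Pf.C 16 128))
 (Pq.cons (Pq.L [] 1 (Pf.C 32 1))
 Pq.nil)))) (Pq.cons (Pq.D 0 (Pq.cons (Pq.L [] 7 (Pf.C 92 32896))
 (Pq.cons (Pq.L [] 1 (Pf.C 16 128))
 (Pq.cons (Pq.L [] 1 (Pf.C 32 1))
 Pq.nil)))) Pq.nil))) (Pq.cons (Pq.D 2 (Pq.cons (Pq.D 0 (Pq.cons (Pq.L [] 2 (Pf.C 17 256))
 (Pq.cons (Pq.L [] 7 (Pf.C 92 32896))
 (Pq.cons (Pq.L [] 2 (Pf.C 35 2))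
 Pq.nil)))) (Pq.cons (Pq.D 0 (Pq.cons (Pq.L [] 7 (Pf.C 92 32896))
 (Pq.cons (Pq.L [] 7 (Pf.C 92 32896))
 (Pq.cons (Pq.L [] 7 (Pf.C 92 32896))
 Pq.nil)))) Pq.nil))) Pq.nil))) (Pq.cons (Pq.D 1 (Pq.cons (Pq.D 2 (Pq.cons (Pq.L [] 4 (Pf.C 22 130))
 (Pq.cons (Pq.D 0 (Pq.cons (Pq.L [] 1 (Pf.C 15 128))
 (Pq.cons (Pq.L [] 1 (Pf.C 16 1))
 (Pq.cons (Pq.L [] 7 (Pf.C 95 32896))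
 Pq.nil)))) Pq.nil))) (Pq.cons (Pq.D 2 (Pq.cons (Pq.D 0 (Pq.cons (Pq.L [] 1 (Pf.C 15 128))
 (Pq.cons (Pq.L [] 1 (Pf.C 32 128))
 (Pq.cons (Pq.L [] 7 (Pf.C 95 32896))
 Pq.nil)))) (Pq.cons (Pq.D 0 (Pq.cons (Pq.L [] 1 (Pf.C 15 128))
 (Pq.cons (Pq.L [] 1 (Pf.C 32 128))
 (Pq.cons (Pq.L [] 7 (Pf.C 95 32896))
 Pq.nil)))) Pq.nil))) Pq.nil))) (Pq.cons (Pq.D 1 (Pq.cons (Pq.D 2 (Pq.cons (Pq.L [] 4 (Pf.C 21 257))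
 (Pq.cons (Pq.D 0 (Pq.cons (Pq.L [] 2 (Pf.C 35 256))
 (Pq.cons (Pq.L [] 1 (Pf.C 16 128))
 (Pq.cons (Pq.L [] 7 (Pf.C 103 32896))
 Pq.nil)))) Pq.nil))) (Pq.cons (Pq.D 2 (Pq.cons (Pq.D 0 (Pq.cons (Pq.L [] 2 (Pf.C 17 2))
 (Pq.cons (Pq.L [] 2 (Pf.C 15 2))
 (Pq.cons (Pq.L [] 7 (Pf.C 103 32896))
 Pq.nil)))) (Pq.cons (Pq.D 0 (Pq.cons (Pq.L [] 2 (Pf.C 35 256))
 (Pq.cons (Pq.L [] 2 (Pf.C 18 256))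
 (Pq.cons (Pq.L [] 7 (Pf.C 103 32896))
 Pq.nil)))) Pq.nil))) Pq.nil))) (Pq.cons (Pq.D 1 (Pq.cons (Pq.D 2 (Pq.cons (Pq.D 0 (Pq.cons (Pq.L [] 1 (Pf.C 15 128))
 (Pq.cons (Pq.L [] 1 (Pf.C 16 1))
 (Pq.cons (Pq.L [] 7 (Pf.C 93 257))
 Pq.nil)))) (Pq.cons (Pq.D 0 (Pq.cons (Pq.L [] 1 (Pf.C 15 128))
 (Pq.cons (Pq.L [] 1 (Pf.C 16 1))
 (Pq.cons (Pq.L [] 7 (Pf.C 120 32896))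
 Pq.nil)))) Pq.nil))) (Pq.cons (Pq.D 2 (Pq.cons (Pq.D 0 (Pq.cons (Pq.L [] 1 (Pf.C 15 128))
 (Pq.cons (Pq.L [] 2 (Pf.C 31 256))
 (Pq.cons (Pq.L [] 7 (Pf.C 120 32896))
 Pq.nil)))) (Pq.cons (Pq.D 0 (Pq.cons (Pq.L [] 1 (Pf.C 15 128))
 (Pq.cons (Pq.L [] 1 (Pf.C 32 128))
 (Pq.cons (Pq.L [] 7 (Pf.C 120 32896))
 Pq.nil)))) Pq.nil))) Pq.nil))) (Pq.cons (Pq.D 0 (Pq.cons (Pq.D 1 (Pq.cons (Pq.L [] 1 (Pf.C 15 128))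
 (Pq.cons (Pq.L [] 1 (Pf.C 15 128))
 (Pq.cons (Pq.L [] 7 (Pf.C 121 32896))
 (Pq.cons (Pq.L [] 7 (Pf.C 121 32896))
 Pq.nil))))) (Pq.cons (Pq.D 1 (Pq.cons (Pq.L [] 7 (Pf.C 121 32896))
 (Pq.cons (Pq.L [] 7 (Pf.C 121 32896))
 (Pq.cons (Pq.L [] 7 (Pf.C 121 32896))
 (Pq.cons (Pq.L [] 7 (Pf.C 121 32896))
 Pq.nil))))) Pq.nil))) (Pq.cons (Pq.D 1 (Pq.cons (Pq.D 2 (Pq.cons (Pq.D 0 (Pq.cons (Pq.L [] 2 (Pf.C 34 256))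
 (Pq.cons (Pq.L [] 1 (Pf.C 16 128))
 (Pq.cons (Pq.L [] 7 (Pf.C 123 32896))
 Pq.nil)))) (Pq.cons (Pq.D 0 (Pq.cons (Pq.L [] 7 (Pf.C 122 32896))
 (Pq.cons (Pq.L [] 1 (Pf.C 16 128))
 (Pq.cons (Pq.L [] 7 (Pf.C 123 32896))
 Pq.nil)))) Pq.nil))) (Pq.cons (Pq.D 2 (Pq.cons (Pq.D 0 (Pq.cons (Pq.L [] 2 (Pf.C 34 256))
 (Pq.cons (Pq.L [] 7 (Pf.C 121 16386))
 (Pq.cons (Pq.L [] 7 (Pf.C 123 32896))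
 Pq.nil)))) (Pq.cons (Pq.D 0 (Pq.cons (Pq.L [] 7 (Pf.C 122 32896))
 (Pq.cons (Pq.L [] 7 (Pf.C 123 32896))
 (Pq.cons (Pq.L [] 7 (Pf.C 123 32896))
 Pq.nil)))) Pq.nil))) Pq.nil))) (Pq.cons (Pq.D 1 (Pq.cons (Pq.D 2 (Pq.cons (Pq.D 0 (Pq.cons (Pq.L [] 1 (Pf.C 17 128))
 (Pq.cons (Pq.L [] 2 (Pf.C 31 256))
 (Pq.cons (Pq.L [] 7 (Pf.C 124 32896))
 Pq.nil)))) (Pq.cons (Pq.D 0 (Pq.cons (Pq.L [] 1 (Pf.C 17 128))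
 (Pq.cons (Pq.L [] 7 (Pf.C 122 32769))
 (Pq.cons (Pq.L [] 7 (Pf.C 124 32896))
 Pq.nil)))) Pq.nil))) (Pq.cons (Pq.D 2 (Pq.cons (Pq.D 0 (Pq.cons (Pq.L [] 7 (Pf.C 121 16640))
 (Pq.cons (Pq.L [] 2 (Pf.C 31 256))
 (Pq.cons (Pq.L [] 7 (Pf.C 124 32896))
 Pq.nil)))) (Pq.cons (Pq.D 0 (Pq.cons (Pq.L [] 7 (Pf.C 121 16640))
 (Pq.cons (Pq.L [] 7 (Pf.C 124 32896))
 (Pq.cons (Pq.L [] 7 (Pf.C 124 32896))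
 Pq.nil)))) Pq.nil))) Pq.nil))) (Pq.cons (Pq.D 1 (Pq.cons (Pq.D 2 (Pq.cons (Pq.D 0 (Pq.cons (Pq.L [] 1 (Pf.C 17 1))
 (Pq.cons (Pq.L [] 1 (Pf.C 15 1))
 (Pq.cons (Pq.L [] 7 (Pf.C 91 32769))
 Pq.nil)))) (Pq.cons (Pq.D 0 (Pq.cons (Pq.L [] 1 (Pf.C 17 1))
 (Pq.cons (Pq.L [] 1 (Pf.C 15 1))
 (Pq.cons (Pq.L [] 7 (Pf.C 125 32896))
 Pq.nil)))) Pq.nil))) (Pq.cons (Pq.D 2 (Pq.cons (Pq.D 0 (Pq.cons (Pq.L [] 2 (Pf.C 34 256))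
 (Pq.cons (Pq.L [] 1 (Pf.C 18 128))
 (Pq.cons (Pq.L [] 7 (Pf.C 125 32896))
 Pq.nil)))) (Pq.cons (Pq.D 0 (Pq.cons (Pq.L [] 1 (Pf.C 35 128))
 (Pq.cons (Pq.L [] 1 (Pf.C 18 128))
 (Pq.cons (Pq.L [] 7 (Pf.C 125 32896))
 Pq.nil)))) Pq.nil))) Pq.nil))) (Pq.cons (Pq.D 0 (Pq.cons (Pq.D 1 (Pq.cons (Pq.L [] 1 (Pf.C 15 1))
 (Pq.cons (Pq.L [] 7 (Pf.C 121 32769))
 (Pq.cons (Pq.L [] 1 (Pf.C 18 128))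
 (Pq.cons (Pq.L [] 7 (Pf.C 123 16640))
 Pq.nil))))) (Pq.cons (Pq.D 1 (Pq.cons (Pq.L [] 7 (Pf.C 121 32769))
 (Pq.cons (Pq.L [] 7 (Pf.C 121 32769))
 (Pq.cons (Pq.L [] 7 (Pf.C 126 32896))
 (Pq.cons (Pq.L [] 7 (Pf.C 126 32896))
 Pq.nil))))) Pq.nil))) (Pq.cons (Pq.D 0 (Pq.cons (Pq.L [] 1 (Pf.C 36 128))
 (Pq.cons (Pq.D 2 (Pq.cons (Pq.L [] 7 (Pf.C 99 16386))
 (Pq.cons (Pq.L [] 7 (Pf.C 106 32896))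
 Pq.nil))) (Pq.cons (Pq.L [] 1 (Pf.C 45 1))
 Pq.nil)))) (Pq.cons (Pq.D 1 (Pq.cons (Pq.L [] 4 (Pf.C 34 257))
 (Pq.cons (Pq.D 0 (Pq.cons (Pq.L [] 7 (Pf.C 107 32896))
 (Pq.cons (Pq.L [] 1 (Pf.C 52 128))
 (Pq.cons (Pq.L [] 1 (Pf.C 53 128))
 Pq.nil)))) Pq.nil))) (Pq.cons (Pq.D 1 (Pq.cons (Pq.D 2 (Pq.cons (Pq.L [] 7 (Pf.C 98 16386))
 (Pq.cons (Pq.L [] 7 (Pf.C 98 16386))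
 (Pq.cons (Pq.L [] 7 (Pf.C 108 32896))
 Pq.nil)))) (Pq.cons (Pq.L [] 1 (Pf.C 52 128))
 Pq.nil))) (Pq.cons (Pq.D 0 (Pq.cons (Pq.D 1 (Pq.cons (Pq.D 2 (Pq.cons (Pq.L [] 2 (Pf.C 15 2))
 (Pq.cons (Pq.L [] 7 (Pf.C 86 32896))
 Pq.nil))) (Pq.cons (Pq.D 2 (Pq.cons (Pq.L [] 2 (Pf.C 15 2))
 (Pq.cons (Pq.L [] 7 (Pf.C 110 32896))
 Pq.nil))) Pq.nil))) (Pq.cons (Pq.D 1 (Pq.cons (Pq.D 2 (Pq.cons (Pq.L [] 7 (Pf.C 81 257))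
 (Pq.cons (Pq.L [] 7 (Pf.C 110 32896))
 Pq.nil))) (Pq.cons (Pq.D 2 (Pq.cons (Pq.L [] 7 (Pf.C 110 32896))
 (Pq.cons (Pq.L [] 7 (Pf.C 110 32896))
 Pq.nil))) Pq.nil))) Pq.nil))) (Pq.cons (Pq.D 0 (Pq.cons (Pq.D 1 (Pq.cons (Pq.D 2 (Pq.cons (Pq.L [] 2 (Pf.C 15 256))
 (Pq.cons (Pq.L [] 7 (Pf.C 85 32896))
 Pq.nil))) (Pq.cons (Pq.D 2 (Pq.cons (Pq.L [] 2 (Pf.C 15 256))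
 (Pq.cons (Pq.L [] 7 (Pf.C 111 32896))
 Pq.nil))) Pq.nil))) (Pq.cons (Pq.D 1 (Pq.cons (Pq.D 2 (Pq.cons (Pq.L [] 7 (Pf.C 83 257))
 (Pq.cons (Pq.L [] 7 (Pf.C 111 32896))
 Pq.nil))) (Pq.cons (Pq.D 2 (Pq.cons (Pq.L [] 7 (Pf.C 111 32896))
 (Pq.cons (Pq.L [] 7 (Pf.C 111 32896))
 Pq.nil))) Pq.nil))) Pq.nil))) (Pq.cons (Pq.D 1 (Pq.cons (Pq.L [] 1 (Pf.C 22 128))
 (Pq.cons (Pq.L [] 1 (Pf.C 22 128))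
 (Pq.cons (Pq.D 2 (Pq.cons (Pq.L [] 7 (Pf.C 96 130))
 (Pq.cons (Pq.L [] 7 (Pf.C 116 32896))
 Pq.nil))) Pq.nil)))) (Pq.cons (Pq.D 1 (Pq.cons (Pq.D 2 (Pq.cons (Pq.L [] 7 (Pf.C 100 130))
 (Pq.cons (Pq.L [] 7 (Pf.C 117 32896))
 (Pq.cons (Pq.L [] 7 (Pf.C 100 130))
 Pq.nil)))) (Pq.cons (Pq.L [] 1 (Pf.C 41 128))
 Pq.nil))) (Pq.cons (Pq.D 1 (Pq.cons (Pq.L [] 4 (Pf.C 31 257))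
 (Pq.cons (Pq.D 0 (Pq.cons (Pq.L [] 1 (Pf.C 41 128))
 (Pq.cons (Pq.L [] 7 (Pf.C 118 32896))
 (Pq.cons (Pq.L [] 1 (Pf.C 56 1))
 Pq.nil)))) Pq.nil))) (Pq.cons (Pq.D 1 (Pq.cons (Pq.L [] 7 (Pf.C 92 257))
 (Pq.cons (Pq.L [] 7 (Pf.C 127 32896))
 (Pq.cons (Pq.L [] 7 (Pf.C 124 16386))
 Pq.nil)))) (Pq.cons (Pq.D 0 (Pq.cons (Pq.D 1 (Pq.cons (Pq.L [] 7 (Pf.C 92 32896))
 (Pq.cons (Pq.L [] 7 (Pf.C 92 32896))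
 Pq.nil))) (Pq.cons (Pq.D 1 (Pq.cons (Pq.L [] 7 (Pf.C 123 130))
 (Pq.cons (Pq.L [] 7 (Pf.C 128 32896))
 Pq.nil))) Pq.nil))) (Pq.cons (Pq.D 0 (Pq.cons (Pq.L [] 7 (Pf.C 124 16386))
 (Pq.cons (Pq.L [] 7 (Pf.C 93 32896))
 (Pq.cons (Pq.L [] 7 (Pf.C 129 32896))
 Pq.nil)))) (Pq.cons (Pq.D 1 (Pq.cons (Pq.L [] 7 (Pf.C 92 32769))
 (Pq.cons (Pq.L [] 7 (Pf.C 123 16386))
 (Pq.cons (Pq.L [] 7 (Pf.C 130 32896))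
 Pq.nil)))) (Pq.cons (Pq.L [] 7 (Pf.C 134 32896))
 (Pq.cons (Pq.L [] 7 (Pf.C 137 32896))
 (Pq.cons (Pq.L [] 7 (Pf.C 144 32896))
 (Pq.cons (Pq.L [] 7 (Pf.C 146 32896))
 (Pq.cons (Pq.L [] 7 (Pf.C 147 32896))
 (Pq.cons (Pq.L [] 7 (Pf.C 175 32896))
 (Pq.cons (Pq.D 3 (Pq.cons (Pq.D 2 (Pq.cons (Pq.D 1 (Pq.cons (Pq.L [] 16 (Pf.C 15 385))
 (Pq.cons (Pq.D 0 (Pq.cons (Pq.L [] 4 (Pf.C 15 384))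
 (Pq.cons (Pq.L [] 2 (Pf.C 17 2))
 (Pq.cons (Pq.L [] 4 (Pf.C 16 3))
 (Pq.cons (Pq.L [] 38 (Pf.C 83 386))
 (Pq.cons (Pq.L [] 1 (Pf.C 41 1))
 Pq.nil)))))) (Pq.cons (Pq.L [] 16 (Pf.C 16 131))
 (Pq.cons (Pq.L [] 8 (Pf.C 37 130))
 (Pq.cons (Pq.D 0 (Pq.cons (Pq.L [] 4 (Pf.C 15 384))
 (Pq.cons (Pq.L [] 2 (Pf.C 17 2))
 (Pq.cons (Pq.L [] 4 (Pf.C 16 3))
 (Pq.cons (Pq.L [] 1 (Pf.C 53 128))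
 (Pq.cons (Pq.L [] 1 (Pf.C 29 128))
 Pq.nil)))))) Pq.nil)))))) (Pq.cons (Pq.L [] 32 (Pf.C 22 386))
 (Pq.cons (Pq.D 1 (Pq.cons (Pq.L [] 16 (Pf.C 15 385))
 (Pq.cons (Pq.D 0 (Pq.cons (Pq.L [] 4 (Pf.C 15 384))
 (Pq.cons (Pq.L [] 1 (Pf.C 208 128))
 (Pq.cons (Pq.L [] 4 (Pf.C 16 3))
 (Pq.cons (Pq.L [] 63 (Pf.C 188 0x608080))
 (Pq.cons (Pq.L [] 1 (Pf.C 41 1))
 Pq.nil)))))) (Pq.cons (Pq.L [] 16 (Pf.C 16 131))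
 (Pq.cons (Pq.L [] 8 (Pf.C 21 130))
 (Pq.cons (Pq.L [] 8 (Pf.C 52 130))
 Pq.nil)))))) (Pq.cons (Pq.D 1 (Pq.cons (Pq.L [] 16 (Pf.C 15 385))
 (Pq.cons (Pq.D 0 (Pq.cons (Pq.L [] 4 (Pf.C 15 384))
 (Pq.cons (Pq.L [] 1 (Pf.C 208 128))
 (Pq.cons (Pq.L [] 4 (Pf.C 16 3))
 (Pq.cons (Pq.L [] 38 (Pf.C 111 49408))
 (Pq.cons (Pq.L [] 1 (Pf.C 41 1))
 Pq.nil)))))) (Pq.cons (Pq.L [] 16 (Pf.C 16 131))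
 (Pq.cons (Pq.L [] 8 (Pf.C 30 257))
 (Pq.cons (Pq.L [] 8 (Pf.C 53 130))
 Pq.nil)))))) (Pq.cons (Pq.D 1 (Pq.cons (Pq.L [] 16 (Pf.C 15 385))
 (Pq.cons (Pq.L [] 8 (Pf.C 41 257))
 (Pq.cons (Pq.L [] 16 (Pf.C 16 131))
 (Pq.cons (Pq.L [] 8 (Pf.C 53 257))
 (Pq.cons (Pq.L [] 8 (Pf.C 29 257))
 Pq.nil)))))) Pq.nil)))))) (Pq.cons (Pq.D 2 (Pq.cons (Pq.L [] 0 (Pf.C 39 386))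
 (Pq.cons (Pq.D 1 (Pq.cons (Pq.L [] 16 (Pf.C 15 385))
 (Pq.cons (Pq.L [] 16 (Pf.C 35 385))
 (Pq.cons (Pq.L [] 16 (Pf.C 32 385))
 (Pq.cons (Pq.D 0 (Pq.cons (Pq.L [] 4 (Pf.C 15 384))
 (Pq.cons (Pq.L [] 4 (Pf.C 35 384))
 (Pq.cons (Pq.L [] 1 (Pf.C 21 128))
 (Pq.cons (Pq.L [] 1 (Pf.C 30 128))
 (Pq.cons (Pq.L [] 1 (Pf.C 53 1))
 Pq.nil)))))) (Pq.cons (Pq.L [] 8 (Pf.C 41 130))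
 Pq.nil)))))) (Pq.cons (Pq.D 1 (Pq.cons (Pq.L [] 16 (Pf.C 15 385))
 (Pq.cons (Pq.L [] 16 (Pf.C 35 385))
 (Pq.cons (Pq.L [] 16 (Pf.C 32 385))
 (Pq.cons (Pq.L [] 8 (Pf.C 21 130))
 (Pq.cons (Pq.L [] 8 (Pf.C 52 130))
 Pq.nil)))))) (Pq.cons (Pq.L [] 32 (Pf.C 54 386))
 (Pq.cons (Pq.D 1 (Pq.cons (Pq.L [] 16 (Pf.C 15 385))
 (Pq.cons (Pq.L [] 16 (Pf.C 35 385))
 (Pq.cons (Pq.L [] 16 (Pf.C 32 385))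
 (Pq.cons (Pq.L [] 8 (Pf.C 53 257))
 (Pq.cons (Pq.L [] 8 (Pf.C 29 257))
 Pq.nil)))))) Pq.nil)))))) (Pq.cons (Pq.D 2 (Pq.cons (Pq.D 1 (Pq.cons (Pq.L [] 8 (Pf.C 206 257))
 (Pq.cons (Pq.D 0 (Pq.cons (Pq.L [] 38 (Pf.C 85 49408))
 (Pq.cons (Pq.L [] 2 (Pf.C 17 2))
 (Pq.cons (Pq.L [] 21 (Pf.C 117 49153))
 (Pq.cons (Pq.L [] 38 (Pf.C 111 49408))
 (Pq.cons (Pq.L [] 1 (Pf.C 41 1))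
 Pq.nil)))))) (Pq.cons (Pq.L [] 8 (Pf.C 21 257))
 (Pq.cons (Pq.L [] 8 (Pf.C 37 130))
 (Pq.cons (Pq.D 0 (Pq.cons (Pq.L [] 38 (Pf.C 85 49408))
 (Pq.cons (Pq.L [] 2 (Pf.C 17 2))
 (Pq.cons (Pq.L [] 1 (Pf.C 52 128))
 (Pq.cons (Pq.L [] 1 (Pf.C 53 128))
 (Pq.cons (Pq.L [] 1 (Pf.C 29 128))
 Pq.nil)))))) Pq.nil)))))) (Pq.cons (Pq.L [] 32 (Pf.C 22 386))
 (Pq.cons (Pq.D 1 (Pq.cons (Pq.L [] 8 (Pf.C 21 130))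
 (Pq.cons (Pq.D 0 (Pq.cons (Pq.L [] 63 (Pf.C 188 0x608080))
 (Pq.cons (Pq.L [] 1 (Pf.C 208 128))
 (Pq.cons (Pq.L [] 21 (Pf.C 117 49153))
 (Pq.cons (Pq.L [] 63 (Pf.C 188 0x608080))
 (Pq.cons (Pq.L [] 1 (Pf.C 41 1))
 Pq.nil)))))) (Pq.cons (Pq.L [] 8 (Pf.C 212 257))
 (Pq.cons (Pq.L [] 8 (Pf.C 21 130))
 (Pq.cons (Pq.L [] 8 (Pf.C 52 130))
 Pq.nil)))))) (Pq.cons (Pq.D 1 (Pq.cons (Pq.L [] 8 (Pf.C 37 257))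
 (Pq.cons (Pq.D 0 (Pq.cons (Pq.L [] 38 (Pf.C 111 49408))
 (Pq.cons (Pq.L [] 1 (Pf.C 208 128))
 (Pq.cons (Pq.L [] 21 (Pf.C 117 49153))
 (Pq.cons (Pq.L [] 38 (Pf.C 111 49408))
 (Pq.cons (Pq.L [] 1 (Pf.C 41 1))
 Pq.nil)))))) (Pq.cons (Pq.L [] 8 (Pf.C 21 257))
 (Pq.cons (Pq.L [] 8 (Pf.C 30 257))
 (Pq.cons (Pq.L [] 8 (Pf.C 53 130))
 Pq.nil)))))) (Pq.cons (Pq.L [] 32 (Pf.C 56 386))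
 Pq.nil)))))) Pq.nil)))) (Pq.cons (Pq.D 1 (Pq.cons (Pq.D 0 (Pq.cons (Pq.D 2 (Pq.cons (Pq.L [] 2 (Pf.C 17 256))
 (Pq.cons (Pq.D 3 (Pq.cons (Pq.L [] 38 (Pf.C 85 33152))
 (Pq.cons (Pq.L [] 21 (Pf.C 107 49280))
 (Pq.cons (Pq.L [] 4 (Pf.C 15 384))
 (Pq.cons (Pq.L [] 4 (Pf.C 15 384))
 (Pq.cons (Pq.L [] 38 (Pf.C 80 259))
 (Pq.cons (Pq.L [] 63 (Pf.C 186 0x608080))
 Pq.nil))))))) Pq.nil))) (Pq.cons (Pq.D 2 (Pq.cons (Pq.L [] 2 (Pf.C 34 2))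
 (Pq.cons (Pq.D 3 (Pq.cons (Pq.L [] 21 (Pf.C 87 131))
 (Pq.cons (Pq.L [] 63 (Pf.C 186 0x608080))
 (Pq.cons (Pq.L [] 38 (Pf.C 80 259))
 (Pq.cons (Pq.L [] 63 (Pf.C 186 0x608080))
 (Pq.cons (Pq.L [] 38 (Pf.C 80 259))
 (Pq.cons (Pq.L [] 63 (Pf.C 186 0x608080))
 Pq.nil))))))) Pq.nil))) (Pq.cons (Pq.L [] 1 (Pf.C 22 1))
 (Pq.cons (Pq.D 2 (Pq.cons (Pq.L [] 2 (Pf.C 35 2))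
 (Pq.cons (Pq.D 3 (Pq.cons (Pq.L [] 4 (Pf.C 15 3))
 (Pq.cons (Pq.L [] 21 (Pf.C 78 16387))
 (Pq.cons (Pq.L [] 4 (Pf.C 18 3))
 (Pq.cons (Pq.L [] 38 (Pf.C 89 33152))
 (Pq.cons (Pq.L [] 38 (Pf.C 80 259))
 (Pq.cons (Pq.L [] 63 (Pf.C 186 0x608080))
 Pq.nil))))))) Pq.nil))) (Pq.cons (Pq.D 2 (Pq.cons (Pq.D 3 (Pq.cons (Pq.L [] 21 (Pf.C 78 16387))
 (Pq.cons (Pq.L [] 21 (Pf.C 78 16387))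
 (Pq.cons (Pq.L [] 63 (Pf.C 186 0x608080))
 (Pq.cons (Pq.L [] 21 (Pf.C 80 49280))
 (Pq.cons (Pq.L [] 63 (Pf.C 186 0x608080))
 (Pq.cons (Pq.L [] 21 (Pf.C 80 49280))
 Pq.nil))))))) (Pq.cons (Pq.D 3 (Pq.cons (Pq.L [] 21 (Pf.C 78 16387))
 (Pq.cons (Pq.L [] 21 (Pf.C 78 16387))
 (Pq.cons (Pq.L [] 63 (Pf.C 186 0x608080))
 (Pq.cons (Pq.L [] 21 (Pf.C 80 49280))
 (Pq.cons (Pq.L [] 63 (Pf.C 186 0x608080))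
 (Pq.cons (Pq.L [] 21 (Pf.C 80 49280))
 Pq.nil))))))) Pq.nil))) (Pq.cons (Pq.D 2 (Pq.cons (Pq.D 3 (Pq.cons (Pq.L [] 21 (Pf.C 78 16387))
 (Pq.cons (Pq.L [] 21 (Pf.C 78 16387))
 (Pq.cons (Pq.L [] 38 (Pf.C 80 259))
 (Pq.cons (Pq.L [] 63 (Pf.C 186 0x608080))
 (Pq.cons (Pq.L [] 38 (Pf.C 80 259))
 (Pq.cons (Pq.L [] 63 (Pf.C 186 0x608080))
 Pq.nil))))))) (Pq.cons (Pq.D 3 (Pq.cons (Pq.L [] 21 (Pf.C 78 16387))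
 (Pq.cons (Pq.L [] 21 (Pf.C 78 16387))
 (Pq.cons (Pq.L [] 38 (Pf.C 80 259))
 (Pq.cons (Pq.L [] 63 (Pf.C 186 0x608080))
 (Pq.cons (Pq.L [] 38 (Pf.C 80 259))
 (Pq.cons (Pq.L [] 63 (Pf.C 186 0x608080))
 Pq.nil))))))) Pq.nil))) Pq.nil))))))) (Pq.cons (Pq.D 0 (Pq.cons (Pq.D 2 (Pq.cons (Pq.L [] 2 (Pf.C 17 256))
 (Pq.cons (Pq.L [] 11 (Pf.C 110 130))
 Pq.nil))) (Pq.cons (Pq.D 2 (Pq.cons (Pq.L [] 2 (Pf.C 34 2))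
 (Pq.cons (Pq.D 3 (Pq.cons (Pq.L [] 63 (Pf.C 186 0x608080))
 (Pq.cons (Pq.L [] 63 (Pf.C 186 0x608080))
 (Pq.cons (Pq.L [] 38 (Pf.C 80 259))
 (Pq.cons (Pq.L [] 63 (Pf.C 186 0x608080))
 (Pq.cons (Pq.L [] 38 (Pf.C 80 259))
 (Pq.cons (Pq.L [] 63 (Pf.C 186 0x608080))
 Pq.nil))))))) Pq.nil))) (Pq.cons (Pq.L [] 1 (Pf.C 60 128))
 (Pq.cons (Pq.L [] 1 (Pf.C 63 128))
 (Pq.cons (Pq.L [] 1 (Pf.C 65 1))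
 (Pq.cons (Pq.L [] 1 (Pf.C 66 1))
 Pq.nil))))))) Pq.nil))) (Pq.cons (Pq.D 0 (Pq.cons (Pq.D 1 (Pq.cons (Pq.D 2 (Pq.cons (Pq.L [] 2 (Pf.C 17 2))
 (Pq.cons (Pq.L [] 2 (Pf.C 34 256))
 (Pq.cons (Pq.L [] 2 (Pf.C 35 256))
 (Pq.cons (Pq.D 3 (Pq.cons (Pq.L [] 63 (Pf.C 186 0x40c001))
 (Pq.cons (Pq.L [] 38 (Pf.C 81 259))
 (Pq.cons (Pq.L [] 63 (Pf.C 186 0x40c001))
 (Pq.cons (Pq.L [] 38 (Pf.C 81 259))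
 Pq.nil))))) Pq.nil))))) (Pq.cons (Pq.D 2 (Pq.cons (Pq.L [] 2 (Pf.C 17 2))
 (Pq.cons (Pq.L [] 2 (Pf.C 34 256))
 (Pq.cons (Pq.L [] 2 (Pf.C 35 256))
 (Pq.cons (Pq.D 3 (Pq.cons (Pq.L [] 21 (Pf.C 87 16387))
 (Pq.cons (Pq.L [] 38 (Pf.C 81 259))
 (Pq.cons (Pq.L [] 63 (Pf.C 186 0x40c001))
 (Pq.cons (Pq.L [] 38 (Pf.C 81 259))
 Pq.nil))))) Pq.nil))))) (Pq.cons (Pq.D 2 (Pq.cons (Pq.L [] 2 (Pf.C 17 2))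
 (Pq.cons (Pq.L [] 2 (Pf.C 34 256))
 (Pq.cons (Pq.L [] 2 (Pf.C 35 256))
 (Pq.cons (Pq.D 3 (Pq.cons (Pq.L [] 21 (Pf.C 85 16387))
 (Pq.cons (Pq.L [] 38 (Pf.C 81 259))
 (Pq.cons (Pq.L [] 63 (Pf.C 186 0x40c001))
 (Pq.cons (Pq.L [] 38 (Pf.C 81 259))
 Pq.nil))))) Pq.nil))))) (Pq.cons (Pq.D 2 (Pq.cons (Pq.L [] 2 (Pf.C 17 2))
 (Pq.cons (Pq.L [] 2 (Pf.C 34 256))
 (Pq.cons (Pq.L [] 2 (Pf.C 35 256))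
 (Pq.cons (Pq.D 3 (Pq.cons (Pq.L [] 63 (Pf.C 186 0x40c001))
 (Pq.cons (Pq.L [] 38 (Pf.C 81 259))
 (Pq.cons (Pq.L [] 63 (Pf.C 186 0x40c001))
 (Pq.cons (Pq.L [] 38 (Pf.C 81 259))
 Pq.nil))))) Pq.nil))))) Pq.nil))))) (Pq.cons (Pq.D 1 (Pq.cons (Pq.D 2 (Pq.cons (Pq.L [] 2 (Pf.C 15 2))
 (Pq.cons (Pq.D 3 (Pq.cons (Pq.L [] 21 (Pf.C 81 49280))
 (Pq.cons (Pq.L [] 21 (Pf.C 90 16387))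
 (Pq.cons (Pq.L [] 21 (Pf.C 81 49280))
 (Pq.cons (Pq.L [] 63 (Pf.C 187 0x608080))
 Pq.nil))))) (Pq.cons (Pq.L [] 2 (Pf.C 18 256))
 (Pq.cons (Pq.D 3 (Pq.cons (Pq.L [] 21 (Pf.C 81 49280))
 (Pq.cons (Pq.L [] 21 (Pf.C 90 16387))
 (Pq.cons (Pq.L [] 21 (Pf.C 81 49280))
 (Pq.cons (Pq.L [] 63 (Pf.C 187 0x608080))
 Pq.nil))))) Pq.nil))))) (Pq.cons (Pq.D 2 (Pq.cons (Pq.L [] 2 (Pf.C 15 2))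
 (Pq.cons (Pq.D 3 (Pq.cons (Pq.L [] 21 (Pf.C 81 49280))
 (Pq.cons (Pq.L [] 63 (Pf.C 187 0x608080))
 (Pq.cons (Pq.L [] 21 (Pf.C 81 49280))
 (Pq.cons (Pq.L [] 63 (Pf.C 187 0x608080))
 Pq.nil))))) (Pq.cons (Pq.L [] 2 (Pf.C 18 256))
 (Pq.cons (Pq.D 3 (Pq.cons (Pq.L [] 21 (Pf.C 81 49280))
 (Pq.cons (Pq.L [] 63 (Pf.C 187 0x608080))
 (Pq.cons (Pq.L [] 21 (Pf.C 81 49280))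
 (Pq.cons (Pq.L [] 63 (Pf.C 187 0x608080))
 Pq.nil))))) Pq.nil))))) (Pq.cons (Pq.L [] 0 (Pf.C 59 128))
 (Pq.cons (Pq.L [] 1 (Pf.C 62 128))
 Pq.nil))))) (Pq.cons (Pq.D 1 (Pq.cons (Pq.D 2 (Pq.cons (Pq.L [] 11 (Pf.C 85 130))
 (Pq.cons (Pq.D 3 (Pq.cons (Pq.L [] 21 (Pf.C 85 131))
 (Pq.cons (Pq.L [] 38 (Pf.C 81 259))
 (Pq.cons (Pq.L [] 21 (Pf.C 110 16387))
 (Pq.cons (Pq.L [] 38 (Pf.C 81 259))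
 Pq.nil))))) (Pq.cons (Pq.L [] 11 (Pf.C 89 130))
 (Pq.cons (Pq.D 3 (Pq.cons (Pq.L [] 21 (Pf.C 85 131))
 (Pq.cons (Pq.L [] 38 (Pf.C 81 259))
 (Pq.cons (Pq.L [] 21 (Pf.C 110 16387))
 (Pq.cons (Pq.L [] 38 (Pf.C 81 259))
 Pq.nil))))) Pq.nil))))) (Pq.cons (Pq.D 2 (Pq.cons (Pq.D 3 (Pq.cons (Pq.L [] 21 (Pf.C 101 16387))
 (Pq.cons (Pq.L [] 38 (Pf.C 81 259))
 (Pq.cons (Pq.L [] 38 (Pf.C 110 33152))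
 (Pq.cons (Pq.L [] 38 (Pf.C 81 259))
 Pq.nil))))) (Pq.cons (Pq.D 3 (Pq.cons (Pq.L [] 21 (Pf.C 101 16387))
 (Pq.cons (Pq.L [] 38 (Pf.C 81 259))
 (Pq.cons (Pq.L [] 63 (Pf.C 186 0x40c001))
 (Pq.cons (Pq.L [] 38 (Pf.C 81 259))
 Pq.nil))))) (Pq.cons (Pq.D 3 (Pq.cons (Pq.L [] 21 (Pf.C 101 16387))
 (Pq.cons (Pq.L [] 38 (Pf.C 81 259))
 (Pq.cons (Pq.L [] 63 (Pf.C 186 0x40c001))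
 (Pq.cons (Pq.L [] 38 (Pf.C 81 259))
 Pq.nil))))) (Pq.cons (Pq.D 3 (Pq.cons (Pq.L [] 21 (Pf.C 101 16387))
 (Pq.cons (Pq.L [] 38 (Pf.C 81 259))
 (Pq.cons (Pq.L [] 63 (Pf.C 186 0x40c001))
 (Pq.cons (Pq.L [] 38 (Pf.C 81 259))
 Pq.nil))))) Pq.nil))))) (Pq.cons (Pq.L [] 1 (Pf.C 63 1))
 (Pq.cons (Pq.L [] 1 (Pf.C 66 128))
 Pq.nil))))) (Pq.cons (Pq.D 1 (Pq.cons (Pq.D 2 (Pq.cons (Pq.D 3 (Pq.cons (Pq.L [] 21 (Pf.C 81 49280))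
 (Pq.cons (Pq.L [] 21 (Pf.C 102 16387))
 (Pq.cons (Pq.L [] 21 (Pf.C 81 49280))
 (Pq.cons (Pq.L [] 63 (Pf.C 187 0x608080))
 Pq.nil))))) (Pq.cons (Pq.D 3 (Pq.cons (Pq.L [] 21 (Pf.C 81 49280))
 (Pq.cons (Pq.L [] 21 (Pf.C 102 16387))
 (Pq.cons (Pq.L [] 21 (Pf.C 81 49280))
 (Pq.cons (Pq.L [] 63 (Pf.C 187 0x608080))
 Pq.nil))))) (Pq.cons (Pq.L [] 8 (Pf.C 15 257))
 (Pq.cons (Pq.D 3 (Pq.cons (Pq.L [] 21 (Pf.C 81 49280))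
 (Pq.cons (Pq.L [] 21 (Pf.C 102 16387))
 (Pq.cons (Pq.L [] 21 (Pf.C 81 49280))
 (Pq.cons (Pq.L [] 63 (Pf.C 187 0x608080))
 Pq.nil))))) Pq.nil))))) (Pq.cons (Pq.L [] 1 (Pf.C 47 1))
 (Pq.cons (Pq.L [] 1 (Pf.C 64 1))
 (Pq.cons (Pq.L [] 1 (Pf.C 10 128))
 Pq.nil))))) Pq.nil))))) Pq.nil)))))))))))))))))))))))))))))))))))))))))))))))))))))))))))))))))))))))))))))))
theorem f1_o70 : AllRef f1_T f1_G9 (List.take 79 (List.take 86 (applyObl f2_T 91 [31,39,41,35,8,9,33,12,13,37,15] [1,2,3,4,5,6,7,8,9,10,11] []))) :=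
  chkPq_sound f1_o70c _ (by decide +kernel)
noncomputable def f1_o71c : Pq := (Pq.cons (Pq.D 0 (Pq.cons (Pq.D 1 (Pq.cons (Pq.D 2 (Pq.cons (Pq.L [] 2 (Pf.C 15 256))
 (Pq.cons (Pq.L [] 2 (Pf.C 15 256))
 (Pq.cons (Pq.D 3 (Pq.cons (Pq.L [] 21 (Pf.C 85 16387))
 (Pq.cons (Pq.L [] 63 (Pf.C 187 0x40c001))
 (Pq.cons (Pq.L [] 21 (Pf.C 83 49280))
 (Pq.cons (Pq.L [] 21 (Pf.C 83 49280))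
 Pq.nil))))) (Pq.cons (Pq.D 3 (Pq.cons (Pq.L [] 21 (Pf.C 85 16387))
 (Pq.cons (Pq.L [] 63 (Pf.C 189 0x608080))
 (Pq.cons (Pq.L [] 21 (Pf.C 83 49280))
 (Pq.cons (Pq.L [] 21 (Pf.C 83 49280))
 Pq.nil))))) Pq.nil))))) (Pq.cons (Pq.L [] 0 (Pf.C 39 128))
 (Pq.cons (Pq.D 2 (Pq.cons (Pq.L [] 2 (Pf.C 15 256))
 (Pq.cons (Pq.L [] 2 (Pf.C 15 256))
 (Pq.cons (Pq.D 3 (Pq.cons (Pq.L [] 63 (Pf.C 187 0x40c001))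
 (Pq.cons (Pq.L [] 63 (Pf.C 187 0x40c001))
 (Pq.cons (Pq.L [] 21 (Pf.C 83 49280))
 (Pq.cons (Pq.L [] 21 (Pf.C 83 49280))
 Pq.nil))))) (Pq.cons (Pq.D 3 (Pq.cons (Pq.L [] 63 (Pf.C 189 0x608080))
 (Pq.cons (Pq.L [] 63 (Pf.C 189 0x608080))
 (Pq.cons (Pq.L [] 21 (Pf.C 83 49280))
 (Pq.cons (Pq.L [] 21 (Pf.C 83 49280))
 Pq.nil))))) Pq.nil))))) (Pq.cons (Pq.L [] 1 (Pf.C 40 128))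
 Pq.nil))))) (Pq.cons (Pq.D 1 (Pq.cons (Pq.D 2 (Pq.cons (Pq.D 3 (Pq.cons (Pq.L [] 21 (Pf.C 94 131))
 (Pq.cons (Pq.L [] 63 (Pf.C 187 0x40c001))
 (Pq.cons (Pq.L [] 21 (Pf.C 83 49280))
 (Pq.cons (Pq.L [] 21 (Pf.C 83 49280))
 Pq.nil))))) (Pq.cons (Pq.L [] 8 (Pf.C 18 257))
 (Pq.cons (Pq.D 3 (Pq.cons (Pq.L [] 21 (Pf.C 94 131))
 (Pq.cons (Pq.L [] 63 (Pf.C 187 0x40c001))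
 (Pq.cons (Pq.L [] 21 (Pf.C 83 49280))
 (Pq.cons (Pq.L [] 21 (Pf.C 83 49280))
 Pq.nil))))) (Pq.cons (Pq.D 3 (Pq.cons (Pq.L [] 21 (Pf.C 94 131))
 (Pq.cons (Pq.L [] 63 (Pf.C 189 0x608080))
 (Pq.cons (Pq.L [] 21 (Pf.C 83 49280))
 (Pq.cons (Pq.L [] 21 (Pf.C 83 49280))
 Pq.nil))))) Pq.nil))))) (Pq.cons (Pq.L [] 1 (Pf.C 46 128))
 (Pq.cons (Pq.L [] 1 (Pf.C 47 128))
 (Pq.cons (Pq.L [] 1 (Pf.C 12 128))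
 Pq.nil))))) (Pq.cons (Pq.D 1 (Pq.cons (Pq.D 2 (Pq.cons (Pq.L [] 2 (Pf.C 16 2))
 (Pq.cons (Pq.L [] 2 (Pf.C 32 256))
 (Pq.cons (Pq.L [] 2 (Pf.C 31 256))
 (Pq.cons (Pq.D 3 (Pq.cons (Pq.L [] 38 (Pf.C 83 259))
 (Pq.cons (Pq.L [] 38 (Pf.C 83 259))
 (Pq.cons (Pq.L [] 63 (Pf.C 189 0x608080))
 (Pq.cons (Pq.L [] 63 (Pf.C 189 0x608080))
 Pq.nil))))) Pq.nil))))) (Pq.cons (Pq.D 2 (Pq.cons (Pq.L [] 2 (Pf.C 16 2))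
 (Pq.cons (Pq.L [] 2 (Pf.C 32 256))
 (Pq.cons (Pq.L [] 2 (Pf.C 31 256))
 (Pq.cons (Pq.D 3 (Pq.cons (Pq.L [] 38 (Pf.C 83 259))
 (Pq.cons (Pq.L [] 38 (Pf.C 83 259))
 (Pq.cons (Pq.L [] 21 (Pf.C 90 16387))
 (Pq.cons (Pq.L [] 63 (Pf.C 189 0x608080))
 Pq.nil))))) Pq.nil))))) (Pq.cons (Pq.D 2 (Pq.cons (Pq.L [] 2 (Pf.C 16 2))
 (Pq.cons (Pq.L [] 2 (Pf.C 32 256))
 (Pq.cons (Pq.L [] 2 (Pf.C 31 256))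
 (Pq.cons (Pq.D 3 (Pq.cons (Pq.L [] 38 (Pf.C 83 259))
 (Pq.cons (Pq.L [] 38 (Pf.C 83 259))
 (Pq.cons (Pq.L [] 21 (Pf.C 88 16387))
 (Pq.cons (Pq.L [] 63 (Pf.C 189 0x608080))
 Pq.nil))))) Pq.nil))))) (Pq.cons (Pq.D 2 (Pq.cons (Pq.L [] 2 (Pf.C 16 2))
 (Pq.cons (Pq.L [] 2 (Pf.C 32 256))
 (Pq.cons (Pq.L [] 2 (Pf.C 31 256))
 (Pq.cons (Pq.D 3 (Pq.cons (Pq.L [] 38 (Pf.C 83 259))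
 (Pq.cons (Pq.L [] 38 (Pf.C 83 259))
 (Pq.cons (Pq.L [] 63 (Pf.C 189 0x608080))
 (Pq.cons (Pq.L [] 63 (Pf.C 189 0x608080))
 Pq.nil))))) Pq.nil))))) Pq.nil))))) (Pq.cons (Pq.D 1 (Pq.cons (Pq.D 2 (Pq.cons (Pq.L [] 11 (Pf.C 86 130))
 (Pq.cons (Pq.L [] 11 (Pf.C 86 130))
 (Pq.cons (Pq.D 3 (Pq.cons (Pq.L [] 38 (Pf.C 83 259))
 (Pq.cons (Pq.L [] 38 (Pf.C 83 259))
 (Pq.cons (Pq.L [] 21 (Pf.C 90 131))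
 (Pq.cons (Pq.L [] 21 (Pf.C 111 16387))
 Pq.nil))))) (Pq.cons (Pq.D 3 (Pq.cons (Pq.L [] 38 (Pf.C 83 259))
 (Pq.cons (Pq.L [] 38 (Pf.C 83 259))
 (Pq.cons (Pq.L [] 21 (Pf.C 90 131))
 (Pq.cons (Pq.L [] 21 (Pf.C 111 16387))
 Pq.nil))))) Pq.nil))))) (Pq.cons (Pq.L [] 1 (Pf.C 54 128))
 (Pq.cons (Pq.D 2 (Pq.cons (Pq.D 3 (Pq.cons (Pq.L [] 38 (Pf.C 83 259))
 (Pq.cons (Pq.L [] 38 (Pf.C 83 259))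
 (Pq.cons (Pq.L [] 21 (Pf.C 97 131))
 (Pq.cons (Pq.L [] 38 (Pf.C 111 33152))
 Pq.nil))))) (Pq.cons (Pq.D 3 (Pq.cons (Pq.L [] 38 (Pf.C 83 259))
 (Pq.cons (Pq.L [] 38 (Pf.C 83 259))
 (Pq.cons (Pq.L [] 21 (Pf.C 97 131))
 (Pq.cons (Pq.L [] 63 (Pf.C 189 0x608080))
 Pq.nil))))) (Pq.cons (Pq.D 3 (Pq.cons (Pq.L [] 38 (Pf.C 83 259))
 (Pq.cons (Pq.L [] 38 (Pf.C 83 259))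
 (Pq.cons (Pq.L [] 21 (Pf.C 97 131))
 (Pq.cons (Pq.L [] 63 (Pf.C 189 0x608080))
 Pq.nil))))) (Pq.cons (Pq.D 3 (Pq.cons (Pq.L [] 38 (Pf.C 83 259))
 (Pq.cons (Pq.L [] 38 (Pf.C 83 259))
 (Pq.cons (Pq.L [] 21 (Pf.C 97 131))
 (Pq.cons (Pq.L [] 63 (Pf.C 189 0x608080))
 Pq.nil))))) Pq.nil))))) (Pq.cons (Pq.L [] 1 (Pf.C 55 128))
 Pq.nil))))) Pq.nil))))) (Pq.cons (Pq.D 1 (Pq.cons (Pq.D 0 (Pq.cons (Pq.L [] 1 (Pf.C 21 1))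
 (Pq.cons (Pq.D 2 (Pq.cons (Pq.D 3 (Pq.cons (Pq.L [] 63 (Pf.C 190 0x608080))
 (Pq.cons (Pq.L [] 63 (Pf.C 190 0x608080))
 (Pq.cons (Pq.L [] 21 (Pf.C 77 131))
 (Pq.cons (Pq.L [] 21 (Pf.C 84 49280))
 (Pq.cons (Pq.L [] 21 (Pf.C 77 131))
 (Pq.cons (Pq.L [] 21 (Pf.C 84 49280))
 Pq.nil))))))) (Pq.cons (Pq.D 3 (Pq.cons (Pq.L [] 63 (Pf.C 190 0x608080))
 (Pq.cons (Pq.L [] 63 (Pf.C 190 0x608080))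
 (Pq.cons (Pq.L [] 21 (Pf.C 77 131))
 (Pq.cons (Pq.L [] 21 (Pf.C 84 49280))
 (Pq.cons (Pq.L [] 21 (Pf.C 77 131))
 (Pq.cons (Pq.L [] 21 (Pf.C 84 49280))
 Pq.nil))))))) Pq.nil))) (Pq.cons (Pq.D 2 (Pq.cons (Pq.L [] 2 (Pf.C 16 256))
 (Pq.cons (Pq.D 3 (Pq.cons (Pq.L [] 4 (Pf.C 15 3))
 (Pq.cons (Pq.L [] 38 (Pf.C 84 259))
 (Pq.cons (Pq.L [] 38 (Pf.C 86 33152))
 (Pq.cons (Pq.L [] 4 (Pf.C 18 384))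
 (Pq.cons (Pq.L [] 21 (Pf.C 118 49280))
 (Pq.cons (Pq.L [] 63 (Pf.C 189 0x40c001))
 Pq.nil))))))) Pq.nil))) (Pq.cons (Pq.D 2 (Pq.cons (Pq.L [] 2 (Pf.C 32 2))
 (Pq.cons (Pq.D 3 (Pq.cons (Pq.L [] 4 (Pf.C 15 3))
 (Pq.cons (Pq.L [] 38 (Pf.C 84 259))
 (Pq.cons (Pq.L [] 4 (Pf.C 18 3))
 (Pq.cons (Pq.L [] 38 (Pf.C 86 33152))
 (Pq.cons (Pq.L [] 21 (Pf.C 77 131))
 (Pq.cons (Pq.L [] 63 (Pf.C 189 0x40c001))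
 Pq.nil))))))) Pq.nil))) (Pq.cons (Pq.D 2 (Pq.cons (Pq.L [] 2 (Pf.C 31 2))
 (Pq.cons (Pq.D 3 (Pq.cons (Pq.L [] 38 (Pf.C 84 259))
 (Pq.cons (Pq.L [] 38 (Pf.C 84 259))
 (Pq.cons (Pq.L [] 21 (Pf.C 88 131))
 (Pq.cons (Pq.L [] 63 (Pf.C 189 0x40c001))
 (Pq.cons (Pq.L [] 63 (Pf.C 189 0x40c001))
 (Pq.cons (Pq.L [] 63 (Pf.C 189 0x40c001))
 Pq.nil))))))) Pq.nil))) (Pq.cons (Pq.D 2 (Pq.cons (Pq.D 3 (Pq.cons (Pq.L [] 38 (Pf.C 84 259))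
 (Pq.cons (Pq.L [] 38 (Pf.C 84 259))
 (Pq.cons (Pq.L [] 21 (Pf.C 77 131))
 (Pq.cons (Pq.L [] 63 (Pf.C 189 0x40c001))
 (Pq.cons (Pq.L [] 21 (Pf.C 77 131))
 (Pq.cons (Pq.L [] 63 (Pf.C 189 0x40c001))
 Pq.nil))))))) (Pq.cons (Pq.D 3 (Pq.cons (Pq.L [] 38 (Pf.C 84 259))
 (Pq.cons (Pq.L [] 38 (Pf.C 84 259))
 (Pq.cons (Pq.L [] 21 (Pf.C 77 131))
 (Pq.cons (Pq.L [] 63 (Pf.C 189 0x40c001))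
 (Pq.cons (Pq.L [] 21 (Pf.C 77 131))
 (Pq.cons (Pq.L [] 63 (Pf.C 189 0x40c001))
 Pq.nil))))))) Pq.nil))) Pq.nil))))))) (Pq.cons (Pq.D 0 (Pq.cons (Pq.L [] 1 (Pf.C 37 128))
 (Pq.cons (Pq.L [] 1 (Pf.C 45 128))
 (Pq.cons (Pq.D 2 (Pq.cons (Pq.L [] 2 (Pf.C 16 256))
 (Pq.cons (Pq.L [] 11 (Pf.C 111 130))
 Pq.nil))) (Pq.cons (Pq.L [] 1 (Pf.C 54 1))
 (Pq.cons (Pq.D 2 (Pq.cons (Pq.L [] 2 (Pf.C 31 2))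
 (Pq.cons (Pq.D 3 (Pq.cons (Pq.L [] 38 (Pf.C 84 259))
 (Pq.cons (Pq.L [] 38 (Pf.C 84 259))
 (Pq.cons (Pq.L [] 63 (Pf.C 189 0x40c001))
 (Pq.cons (Pq.L [] 63 (Pf.C 189 0x40c001))
 (Pq.cons (Pq.L [] 63 (Pf.C 189 0x40c001))
 (Pq.cons (Pq.L [] 63 (Pf.C 189 0x40c001))
 Pq.nil))))))) Pq.nil))) (Pq.cons (Pq.L [] 1 (Pf.C 55 1))
 Pq.nil))))))) Pq.nil))) (Pq.cons (Pq.D 2 (Pq.cons (Pq.D 1 (Pq.cons (Pq.L [] 8 (Pf.C 21 130))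
 (Pq.cons (Pq.D 3 (Pq.cons (Pq.L [] 16 (Pf.C 34 385))
 (Pq.cons (Pq.L [] 56 (Pf.C 100 16643))
 (Pq.cons (Pq.D 0 (Pq.cons (Pq.L [] 1 (Pf.C 17 128))
 (Pq.cons (Pq.L [] 38 (Pf.C 122 49408))
 (Pq.cons (Pq.L [] 2 (Pf.C 16 256))
 (Pq.cons (Pq.L [] 2 (Pf.C 32 2))
 (Pq.cons (Pq.L [] 11 (Pf.C 117 257))
 Pq.nil)))))) Pq.nil)))) (Pq.cons (Pq.D 3 (Pq.cons (Pq.D 0 (Pq.cons (Pq.L [] 1 (Pf.C 15 128))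
 (Pq.cons (Pq.L [] 4 (Pf.C 34 384))
 (Pq.cons (Pq.L [] 2 (Pf.C 16 256))
 (Pq.cons (Pq.L [] 1 (Pf.C 18 1))
 (Pq.cons (Pq.L [] 38 (Pf.C 123 49408))
 Pq.nil)))))) (Pq.cons (Pq.L [] 56 (Pf.C 118 49409))
 (Pq.cons (Pq.D 0 (Pq.cons (Pq.L [] 1 (Pf.C 15 128))
 (Pq.cons (Pq.L [] 38 (Pf.C 122 49408))
 (Pq.cons (Pq.L [] 2 (Pf.C 16 256))
 (Pq.cons (Pq.L [] 1 (Pf.C 18 1))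
 (Pq.cons (Pq.L [] 38 (Pf.C 123 49408))
 Pq.nil)))))) Pq.nil)))) (Pq.cons (Pq.D 3 (Pq.cons (Pq.D 0 (Pq.cons (Pq.L [] 1 (Pf.C 15 128))
 (Pq.cons (Pq.L [] 4 (Pf.C 34 384))
 (Pq.cons (Pq.L [] 2 (Pf.C 16 256))
 (Pq.cons (Pq.L [] 2 (Pf.C 32 2))
 (Pq.cons (Pq.L [] 11 (Pf.C 103 16640))
 Pq.nil)))))) (Pq.cons (Pq.L [] 56 (Pf.C 77 16643))
 (Pq.cons (Pq.D 0 (Pq.cons (Pq.L [] 1 (Pf.C 15 128))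
 (Pq.cons (Pq.L [] 1 (Pf.C 35 128))
 (Pq.cons (Pq.L [] 2 (Pf.C 16 256))
 (Pq.cons (Pq.L [] 2 (Pf.C 32 2))
 (Pq.cons (Pq.L [] 11 (Pf.C 103 16640))
 Pq.nil)))))) Pq.nil)))) (Pq.cons (Pq.D 3 (Pq.cons (Pq.D 0 (Pq.cons (Pq.L [] 21 (Pf.C 91 49280))
 (Pq.cons (Pq.L [] 4 (Pf.C 34 384))
 (Pq.cons (Pq.L [] 2 (Pf.C 16 256))
 (Pq.cons (Pq.L [] 2 (Pf.C 32 2))
 (Pq.cons (Pq.L [] 38 (Pf.C 123 49408))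
 Pq.nil)))))) (Pq.cons (Pq.L [] 56 (Pf.C 100 16643))
 (Pq.cons (Pq.D 0 (Pq.cons (Pq.L [] 21 (Pf.C 125 49153))
 (Pq.cons (Pq.L [] 38 (Pf.C 122 49408))
 (Pq.cons (Pq.L [] 2 (Pf.C 16 256))
 (Pq.cons (Pq.L [] 2 (Pf.C 32 2))
 (Pq.cons (Pq.L [] 38 (Pf.C 123 49408))
 Pq.nil)))))) Pq.nil)))) Pq.nil)))))) (Pq.cons (Pq.D 1 (Pq.cons (Pq.L [] 8 (Pf.C 37 257))
 (Pq.cons (Pq.D 3 (Pq.cons (Pq.L [] 16 (Pf.C 34 385))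
 (Pq.cons (Pq.D 0 (Pq.cons (Pq.L [] 1 (Pf.C 17 128))
 (Pq.cons (Pq.L [] 38 (Pf.C 124 49154))
 (Pq.cons (Pq.L [] 38 (Pf.C 93 33152))
 (Pq.cons (Pq.L [] 1 (Pf.C 35 1))
 (Pq.cons (Pq.L [] 38 (Pf.C 129 33152))
 Pq.nil)))))) (Pq.cons (Pq.D 0 (Pq.cons (Pq.L [] 1 (Pf.C 17 128))
 (Pq.cons (Pq.L [] 38 (Pf.C 124 49154))
 (Pq.cons (Pq.L [] 38 (Pf.C 120 49154))
 (Pq.cons (Pq.L [] 1 (Pf.C 35 1))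
 (Pq.cons (Pq.L [] 63 (Pf.C 192 0x608080))
 Pq.nil)))))) Pq.nil)))) (Pq.cons (Pq.D 3 (Pq.cons (Pq.D 0 (Pq.cons (Pq.L [] 1 (Pf.C 15 128))
 (Pq.cons (Pq.L [] 4 (Pf.C 34 384))
 (Pq.cons (Pq.L [] 11 (Pf.C 86 32896))
 (Pq.cons (Pq.L [] 1 (Pf.C 18 1))
 (Pq.cons (Pq.L [] 11 (Pf.C 110 32896))
 Pq.nil)))))) (Pq.cons (Pq.D 0 (Pq.cons (Pq.L [] 1 (Pf.C 15 128))
 (Pq.cons (Pq.L [] 38 (Pf.C 124 49154))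
 (Pq.cons (Pq.L [] 11 (Pf.C 86 32896))
 (Pq.cons (Pq.L [] 1 (Pf.C 18 1))
 (Pq.cons (Pq.L [] 11 (Pf.C 110 32896))
 Pq.nil)))))) (Pq.cons (Pq.D 0 (Pq.cons (Pq.L [] 1 (Pf.C 15 128))
 (Pq.cons (Pq.L [] 38 (Pf.C 124 49154))
 (Pq.cons (Pq.L [] 11 (Pf.C 86 32896))
 (Pq.cons (Pq.L [] 1 (Pf.C 18 1))
 (Pq.cons (Pq.L [] 11 (Pf.C 110 32896))
 Pq.nil)))))) Pq.nil)))) (Pq.cons (Pq.L [] 8 (Pf.C 54 130))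
 (Pq.cons (Pq.D 3 (Pq.cons (Pq.D 0 (Pq.cons (Pq.L [] 21 (Pf.C 91 49280))
 (Pq.cons (Pq.L [] 4 (Pf.C 34 384))
 (Pq.cons (Pq.L [] 11 (Pf.C 110 32896))
 (Pq.cons (Pq.L [] 21 (Pf.C 125 49153))
 (Pq.cons (Pq.L [] 11 (Pf.C 110 32896))
 Pq.nil)))))) (Pq.cons (Pq.D 0 (Pq.cons (Pq.L [] 11 (Pf.C 111 16640))
 (Pq.cons (Pq.L [] 38 (Pf.C 124 49154))
 (Pq.cons (Pq.L [] 38 (Pf.C 93 33152))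
 (Pq.cons (Pq.L [] 38 (Pf.C 120 49154))
 (Pq.cons (Pq.L [] 11 (Pf.C 110 32896))
 Pq.nil)))))) (Pq.cons (Pq.D 0 (Pq.cons (Pq.L [] 11 (Pf.C 111 16640))
 (Pq.cons (Pq.L [] 38 (Pf.C 124 49154))
 (Pq.cons (Pq.L [] 11 (Pf.C 110 32896))
 (Pq.cons (Pq.L [] 38 (Pf.C 120 49154))
 (Pq.cons (Pq.L [] 11 (Pf.C 110 32896))
 Pq.nil)))))) Pq.nil)))) Pq.nil)))))) (Pq.cons (Pq.D 1 (Pq.cons (Pq.D 3 (Pq.cons (Pq.L [] 56 (Pf.C 107 49409))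
 (Pq.cons (Pq.D 0 (Pq.cons (Pq.L [] 38 (Pf.C 121 33152))
 (Pq.cons (Pq.L [] 1 (Pf.C 17 1))
 (Pq.cons (Pq.L [] 1 (Pf.C 15 1))
 (Pq.cons (Pq.L [] 1 (Pf.C 15 1))
 (Pq.cons (Pq.L [] 11 (Pf.C 103 16640))
 Pq.nil)))))) (Pq.cons (Pq.D 0 (Pq.cons (Pq.L [] 38 (Pf.C 121 33152))
 (Pq.cons (Pq.L [] 1 (Pf.C 17 1))
 (Pq.cons (Pq.L [] 1 (Pf.C 15 1))
 (Pq.cons (Pq.L [] 1 (Pf.C 15 1))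
 (Pq.cons (Pq.L [] 11 (Pf.C 103 16640))
 Pq.nil)))))) Pq.nil)))) (Pq.cons (Pq.L [] 8 (Pf.C 41 257))
 (Pq.cons (Pq.D 3 (Pq.cons (Pq.D 0 (Pq.cons (Pq.L [] 1 (Pf.C 15 128))
 (Pq.cons (Pq.L [] 4 (Pf.C 34 384))
 (Pq.cons (Pq.L [] 38 (Pf.C 121 32771))
 (Pq.cons (Pq.L [] 1 (Pf.C 18 1))
 (Pq.cons (Pq.L [] 38 (Pf.C 123 49408))
 Pq.nil)))))) (Pq.cons (Pq.L [] 56 (Pf.C 118 49409))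
 (Pq.cons (Pq.D 0 (Pq.cons (Pq.L [] 1 (Pf.C 15 128))
 (Pq.cons (Pq.L [] 38 (Pf.C 122 49408))
 (Pq.cons (Pq.L [] 38 (Pf.C 123 49408))
 (Pq.cons (Pq.L [] 1 (Pf.C 18 1))
 (Pq.cons (Pq.L [] 38 (Pf.C 123 49408))
 Pq.nil)))))) Pq.nil)))) (Pq.cons (Pq.D 3 (Pq.cons (Pq.D 0 (Pq.cons (Pq.L [] 1 (Pf.C 15 128))
 (Pq.cons (Pq.L [] 4 (Pf.C 34 384))
 (Pq.cons (Pq.L [] 1 (Pf.C 18 128))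
 (Pq.cons (Pq.L [] 38 (Pf.C 121 32771))
 (Pq.cons (Pq.L [] 11 (Pf.C 103 16640))
 Pq.nil)))))) (Pq.cons (Pq.D 0 (Pq.cons (Pq.L [] 1 (Pf.C 15 128))
 (Pq.cons (Pq.L [] 1 (Pf.C 35 128))
 (Pq.cons (Pq.L [] 1 (Pf.C 18 128))
 (Pq.cons (Pq.L [] 38 (Pf.C 126 32771))
 (Pq.cons (Pq.L [] 11 (Pf.C 103 16640))
 Pq.nil)))))) (Pq.cons (Pq.D 0 (Pq.cons (Pq.L [] 1 (Pf.C 15 128))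
 (Pq.cons (Pq.L [] 1 (Pf.C 35 128))
 (Pq.cons (Pq.L [] 1 (Pf.C 18 128))
 (Pq.cons (Pq.L [] 63 (Pf.C 192 0x608080))
 (Pq.cons (Pq.L [] 11 (Pf.C 103 16640))
 Pq.nil)))))) Pq.nil)))) (Pq.cons (Pq.L [] 8 (Pf.C 56 130))
 Pq.nil)))))) Pq.nil)))) (Pq.cons (Pq.D 2 (Pq.cons (Pq.D 1 (Pq.cons (Pq.L [] 8 (Pf.C 36 257))
 (Pq.cons (Pq.D 3 (Pq.cons (Pq.L [] 56 (Pf.C 99 32899))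
 (Pq.cons (Pq.L [] 56 (Pf.C 106 49409))
 (Pq.cons (Pq.D 0 (Pq.cons (Pq.L [] 38 (Pf.C 91 33152))
 (Pq.cons (Pq.L [] 38 (Pf.C 123 32771))
 (Pq.cons (Pq.L [] 38 (Pf.C 128 49154))
 (Pq.cons (Pq.L [] 1 (Pf.C 16 128))
 (Pq.cons (Pq.L [] 1 (Pf.C 32 1))
 Pq.nil)))))) Pq.nil)))) (Pq.cons (Pq.L [] 8 (Pf.C 45 130))
 (Pq.cons (Pq.D 3 (Pq.cons (Pq.L [] 56 (Pf.C 81 49409))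
 (Pq.cons (Pq.D 0 (Pq.cons (Pq.L [] 1 (Pf.C 15 128))
 (Pq.cons (Pq.L [] 1 (Pf.C 16 1))
 (Pq.cons (Pq.L [] 11 (Pf.C 83 130))
 (Pq.cons (Pq.L [] 38 (Pf.C 121 49154))
 (Pq.cons (Pq.L [] 1 (Pf.C 18 1))
 Pq.nil)))))) (Pq.cons (Pq.L [] 56 (Pf.C 81 49409))
 Pq.nil)))) (Pq.cons (Pq.L [] 8 (Pf.C 46 130))
 Pq.nil)))))) (Pq.cons (Pq.D 1 (Pq.cons (Pq.D 3 (Pq.cons (Pq.L [] 16 (Pf.C 17 385))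
 (Pq.cons (Pq.D 0 (Pq.cons (Pq.L [] 38 (Pf.C 121 49408))
 (Pq.cons (Pq.L [] 2 (Pf.C 31 256))
 (Pq.cons (Pq.L [] 11 (Pf.C 83 257))
 (Pq.cons (Pq.L [] 1 (Pf.C 15 1))
 (Pq.cons (Pq.L [] 1 (Pf.C 15 1))
 Pq.nil)))))) (Pq.cons (Pq.L [] 56 (Pf.C 81 49282))
 Pq.nil)))) (Pq.cons (Pq.D 3 (Pq.cons (Pq.D 0 (Pq.cons (Pq.L [] 4 (Pf.C 17 384))
 (Pq.cons (Pq.L [] 2 (Pf.C 31 256))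
 (Pq.cons (Pq.L [] 38 (Pf.C 124 33152))
 (Pq.cons (Pq.L [] 1 (Pf.C 16 128))
 (Pq.cons (Pq.L [] 1 (Pf.C 32 1))
 Pq.nil)))))) (Pq.cons (Pq.D 0 (Pq.cons (Pq.L [] 38 (Pf.C 121 49408))
 (Pq.cons (Pq.L [] 2 (Pf.C 31 256))
 (Pq.cons (Pq.L [] 38 (Pf.C 124 33152))
 (Pq.cons (Pq.L [] 1 (Pf.C 16 128))
 (Pq.cons (Pq.L [] 1 (Pf.C 32 1))
 Pq.nil)))))) (Pq.cons (Pq.D 0 (Pq.cons (Pq.L [] 21 (Pf.C 92 49280))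
 (Pq.cons (Pq.L [] 2 (Pf.C 31 256))
 (Pq.cons (Pq.L [] 38 (Pf.C 129 259))
 (Pq.cons (Pq.L [] 1 (Pf.C 16 128))
 (Pq.cons (Pq.L [] 1 (Pf.C 32 1))
 Pq.nil)))))) Pq.nil)))) (Pq.cons (Pq.D 3 (Pq.cons (Pq.D 0 (Pq.cons (Pq.L [] 4 (Pf.C 17 384))
 (Pq.cons (Pq.L [] 2 (Pf.C 31 256))
 (Pq.cons (Pq.L [] 38 (Pf.C 124 33152))
 (Pq.cons (Pq.L [] 21 (Pf.C 92 49280))
 (Pq.cons (Pq.L [] 4 (Pf.C 35 3))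
 Pq.nil)))))) (Pq.cons (Pq.D 0 (Pq.cons (Pq.L [] 38 (Pf.C 121 49408))
 (Pq.cons (Pq.L [] 2 (Pf.C 31 256))
 (Pq.cons (Pq.L [] 38 (Pf.C 124 33152))
 (Pq.cons (Pq.L [] 63 (Pf.C 194 0x608080))
 (Pq.cons (Pq.L [] 38 (Pf.C 126 49154))
 Pq.nil)))))) (Pq.cons (Pq.D 0 (Pq.cons (Pq.L [] 21 (Pf.C 92 49280))
 (Pq.cons (Pq.L [] 2 (Pf.C 31 256))
 (Pq.cons (Pq.L [] 38 (Pf.C 129 259))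
 (Pq.cons (Pq.L [] 21 (Pf.C 92 49280))
 (Pq.cons (Pq.L [] 21 (Pf.C 92 49280))
 Pq.nil)))))) Pq.nil)))) (Pq.cons (Pq.L [] 8 (Pf.C 61 257))
 (Pq.cons (Pq.L [] 8 (Pf.C 64 257))
 Pq.nil)))))) (Pq.cons (Pq.D 1 (Pq.cons (Pq.L [] 8 (Pf.C 40 257))
 (Pq.cons (Pq.D 3 (Pq.cons (Pq.D 0 (Pq.cons (Pq.L [] 4 (Pf.C 17 384))
 (Pq.cons (Pq.L [] 38 (Pf.C 122 32771))
 (Pq.cons (Pq.L [] 38 (Pf.C 124 33152))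
 (Pq.cons (Pq.L [] 1 (Pf.C 16 128))
 (Pq.cons (Pq.L [] 1 (Pf.C 32 1))
 Pq.nil)))))) (Pq.cons (Pq.D 0 (Pq.cons (Pq.L [] 38 (Pf.C 121 49408))
 (Pq.cons (Pq.L [] 38 (Pf.C 124 33152))
 (Pq.cons (Pq.L [] 38 (Pf.C 124 33152))
 (Pq.cons (Pq.L [] 1 (Pf.C 16 128))
 (Pq.cons (Pq.L [] 1 (Pf.C 32 1))
 Pq.nil)))))) (Pq.cons (Pq.D 0 (Pq.cons (Pq.L [] 21 (Pf.C 92 49280))
 (Pq.cons (Pq.L [] 38 (Pf.C 123 32771))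
 (Pq.cons (Pq.L [] 21 (Pf.C 130 49153))
 (Pq.cons (Pq.L [] 1 (Pf.C 16 128))
 (Pq.cons (Pq.L [] 1 (Pf.C 32 1))
 Pq.nil)))))) Pq.nil)))) (Pq.cons (Pq.L [] 8 (Pf.C 55 257))
 (Pq.cons (Pq.L [] 8 (Pf.C 62 257))
 (Pq.cons (Pq.L [] 8 (Pf.C 11 257))
 Pq.nil)))))) Pq.nil)))) (Pq.cons (Pq.D 2 (Pq.cons (Pq.D 1 (Pq.cons (Pq.D 3 (Pq.cons (Pq.L [] 56 (Pf.C 107 49409))
 (Pq.cons (Pq.D 0 (Pq.cons (Pq.L [] 2 (Pf.C 17 256))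
 (Pq.cons (Pq.L [] 4 (Pf.C 31 384))
 (Pq.cons (Pq.L [] 38 (Pf.C 124 49408))
 (Pq.cons (Pq.L [] 1 (Pf.C 15 1))
 (Pq.cons (Pq.L [] 1 (Pf.C 15 1))
 Pq.nil)))))) (Pq.cons (Pq.D 0 (Pq.cons (Pq.L [] 2 (Pf.C 17 256))
 (Pq.cons (Pq.L [] 38 (Pf.C 122 49154))
 (Pq.cons (Pq.L [] 38 (Pf.C 124 49408))
 (Pq.cons (Pq.L [] 1 (Pf.C 15 1))
 (Pq.cons (Pq.L [] 1 (Pf.C 15 1))
 Pq.nil)))))) Pq.nil)))) (Pq.cons (Pq.D 3 (Pq.cons (Pq.L [] 56 (Pf.C 98 32899))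
 (Pq.cons (Pq.L [] 16 (Pf.C 31 385))
 (Pq.cons (Pq.D 0 (Pq.cons (Pq.L [] 2 (Pf.C 17 256))
 (Pq.cons (Pq.L [] 38 (Pf.C 122 49154))
 (Pq.cons (Pq.L [] 11 (Pf.C 108 257))
 (Pq.cons (Pq.L [] 1 (Pf.C 16 128))
 (Pq.cons (Pq.L [] 1 (Pf.C 32 1))
 Pq.nil)))))) Pq.nil)))) (Pq.cons (Pq.D 3 (Pq.cons (Pq.L [] 56 (Pf.C 98 32899))
 (Pq.cons (Pq.D 0 (Pq.cons (Pq.L [] 2 (Pf.C 17 256))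
 (Pq.cons (Pq.L [] 4 (Pf.C 31 384))
 (Pq.cons (Pq.L [] 38 (Pf.C 124 49408))
 (Pq.cons (Pq.L [] 21 (Pf.C 93 16768))
 (Pq.cons (Pq.L [] 2 (Pf.C 35 2))
 Pq.nil)))))) (Pq.cons (Pq.D 0 (Pq.cons (Pq.L [] 2 (Pf.C 17 256))
 (Pq.cons (Pq.L [] 38 (Pf.C 122 49154))
 (Pq.cons (Pq.L [] 38 (Pf.C 124 49408))
 (Pq.cons (Pq.L [] 21 (Pf.C 120 49153))
 (Pq.cons (Pq.L [] 2 (Pf.C 35 2))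
 Pq.nil)))))) Pq.nil)))) (Pq.cons (Pq.L [] 8 (Pf.C 22 130))
 (Pq.cons (Pq.D 3 (Pq.cons (Pq.L [] 56 (Pf.C 78 32899))
 (Pq.cons (Pq.D 0 (Pq.cons (Pq.L [] 1 (Pf.C 15 128))
 (Pq.cons (Pq.L [] 4 (Pf.C 31 384))
 (Pq.cons (Pq.L [] 11 (Pf.C 95 32896))
 (Pq.cons (Pq.L [] 1 (Pf.C 18 128))
 (Pq.cons (Pq.L [] 2 (Pf.C 35 2))
 Pq.nil)))))) (Pq.cons (Pq.D 0 (Pq.cons (Pq.L [] 1 (Pf.C 15 128))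
 (Pq.cons (Pq.L [] 1 (Pf.C 32 128))
 (Pq.cons (Pq.L [] 11 (Pf.C 95 32896))
 (Pq.cons (Pq.L [] 1 (Pf.C 18 128))
 (Pq.cons (Pq.L [] 2 (Pf.C 35 2))
 Pq.nil)))))) Pq.nil)))) Pq.nil)))))) (Pq.cons (Pq.D 1 (Pq.cons (Pq.D 3 (Pq.cons (Pq.L [] 56 (Pf.C 107 49409))
 (Pq.cons (Pq.D 0 (Pq.cons (Pq.L [] 38 (Pf.C 121 33152))
 (Pq.cons (Pq.L [] 4 (Pf.C 31 384))
 (Pq.cons (Pq.L [] 38 (Pf.C 124 49408))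
 (Pq.cons (Pq.L [] 1 (Pf.C 15 1))
 (Pq.cons (Pq.L [] 1 (Pf.C 15 1))
 Pq.nil)))))) (Pq.cons (Pq.D 0 (Pq.cons (Pq.L [] 38 (Pf.C 121 33152))
 (Pq.cons (Pq.L [] 38 (Pf.C 124 49408))
 (Pq.cons (Pq.L [] 38 (Pf.C 124 49408))
 (Pq.cons (Pq.L [] 1 (Pf.C 15 1))
 (Pq.cons (Pq.L [] 1 (Pf.C 15 1))
 Pq.nil)))))) Pq.nil)))) (Pq.cons (Pq.L [] 8 (Pf.C 52 257))
 (Pq.cons (Pq.L [] 8 (Pf.C 53 257))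
 (Pq.cons (Pq.D 3 (Pq.cons (Pq.D 0 (Pq.cons (Pq.L [] 1 (Pf.C 15 128))
 (Pq.cons (Pq.L [] 1 (Pf.C 16 1))
 (Pq.cons (Pq.L [] 11 (Pf.C 95 32896))
 (Pq.cons (Pq.L [] 38 (Pf.C 121 32771))
 (Pq.cons (Pq.L [] 1 (Pf.C 18 1))
 Pq.nil)))))) (Pq.cons (Pq.L [] 56 (Pf.C 118 49409))
 (Pq.cons (Pq.D 0 (Pq.cons (Pq.L [] 1 (Pf.C 15 128))
 (Pq.cons (Pq.L [] 1 (Pf.C 16 1))
 (Pq.cons (Pq.L [] 11 (Pf.C 95 32896))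
 (Pq.cons (Pq.L [] 38 (Pf.C 123 49408))
 (Pq.cons (Pq.L [] 1 (Pf.C 18 1))
 Pq.nil)))))) Pq.nil)))) (Pq.cons (Pq.D 3 (Pq.cons (Pq.D 0 (Pq.cons (Pq.L [] 1 (Pf.C 15 128))
 (Pq.cons (Pq.L [] 1 (Pf.C 32 128))
 (Pq.cons (Pq.L [] 11 (Pf.C 95 32896))
 (Pq.cons (Pq.L [] 1 (Pf.C 18 128))
 (Pq.cons (Pq.L [] 38 (Pf.C 121 32771))
 Pq.nil)))))) (Pq.cons (Pq.D 0 (Pq.cons (Pq.L [] 1 (Pf.C 15 128))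
 (Pq.cons (Pq.L [] 4 (Pf.C 31 384))
 (Pq.cons (Pq.L [] 11 (Pf.C 95 32896))
 (Pq.cons (Pq.L [] 1 (Pf.C 18 128))
 (Pq.cons (Pq.L [] 38 (Pf.C 126 32771))
 Pq.nil)))))) (Pq.cons (Pq.D 0 (Pq.cons (Pq.L [] 1 (Pf.C 15 128))
 (Pq.cons (Pq.L [] 1 (Pf.C 32 128))
 (Pq.cons (Pq.L [] 11 (Pf.C 95 32896))
 (Pq.cons (Pq.L [] 1 (Pf.C 18 128))
 (Pq.cons (Pq.L [] 63 (Pf.C 192 0x608080))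
 Pq.nil)))))) Pq.nil)))) Pq.nil)))))) (Pq.cons (Pq.D 1 (Pq.cons (Pq.D 3 (Pq.cons (Pq.D 0 (Pq.cons (Pq.L [] 11 (Pf.C 85 32896))
 (Pq.cons (Pq.L [] 38 (Pf.C 123 49154))
 (Pq.cons (Pq.L [] 11 (Pf.C 111 32896))
 (Pq.cons (Pq.L [] 1 (Pf.C 15 1))
 (Pq.cons (Pq.L [] 1 (Pf.C 15 1))
 Pq.nil)))))) (Pq.cons (Pq.D 0 (Pq.cons (Pq.L [] 11 (Pf.C 85 32896))
 (Pq.cons (Pq.L [] 4 (Pf.C 31 384))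
 (Pq.cons (Pq.L [] 11 (Pf.C 111 32896))
 (Pq.cons (Pq.L [] 1 (Pf.C 15 1))
 (Pq.cons (Pq.L [] 1 (Pf.C 15 1))
 Pq.nil)))))) (Pq.cons (Pq.D 0 (Pq.cons (Pq.L [] 11 (Pf.C 85 32896))
 (Pq.cons (Pq.L [] 38 (Pf.C 123 49154))
 (Pq.cons (Pq.L [] 11 (Pf.C 111 32896))
 (Pq.cons (Pq.L [] 1 (Pf.C 15 1))
 (Pq.cons (Pq.L [] 1 (Pf.C 15 1))
 Pq.nil)))))) Pq.nil)))) (Pq.cons (Pq.D 3 (Pq.cons (Pq.D 0 (Pq.cons (Pq.L [] 38 (Pf.C 91 49408))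
 (Pq.cons (Pq.L [] 38 (Pf.C 123 49154))
 (Pq.cons (Pq.L [] 38 (Pf.C 128 32771))
 (Pq.cons (Pq.L [] 1 (Pf.C 16 128))
 (Pq.cons (Pq.L [] 1 (Pf.C 32 1))
 Pq.nil)))))) (Pq.cons (Pq.L [] 16 (Pf.C 31 385))
 (Pq.cons (Pq.D 0 (Pq.cons (Pq.L [] 38 (Pf.C 125 49154))
 (Pq.cons (Pq.L [] 38 (Pf.C 123 49154))
 (Pq.cons (Pq.L [] 63 (Pf.C 195 0x608080))
 (Pq.cons (Pq.L [] 1 (Pf.C 16 128))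
 (Pq.cons (Pq.L [] 1 (Pf.C 32 1))
 Pq.nil)))))) Pq.nil)))) (Pq.cons (Pq.D 3 (Pq.cons (Pq.D 0 (Pq.cons (Pq.L [] 38 (Pf.C 91 49408))
 (Pq.cons (Pq.L [] 38 (Pf.C 123 49154))
 (Pq.cons (Pq.L [] 11 (Pf.C 111 32896))
 (Pq.cons (Pq.L [] 11 (Pf.C 110 16640))
 (Pq.cons (Pq.L [] 38 (Pf.C 125 49154))
 Pq.nil)))))) (Pq.cons (Pq.D 0 (Pq.cons (Pq.L [] 11 (Pf.C 111 32896))
 (Pq.cons (Pq.L [] 4 (Pf.C 31 384))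
 (Pq.cons (Pq.L [] 11 (Pf.C 111 32896))
 (Pq.cons (Pq.L [] 21 (Pf.C 93 16768))
 (Pq.cons (Pq.L [] 21 (Pf.C 120 49153))
 Pq.nil)))))) (Pq.cons (Pq.D 0 (Pq.cons (Pq.L [] 11 (Pf.C 111 32896))
 (Pq.cons (Pq.L [] 38 (Pf.C 123 49154))
 (Pq.cons (Pq.L [] 11 (Pf.C 111 32896))
 (Pq.cons (Pq.L [] 11 (Pf.C 110 16640))
 (Pq.cons (Pq.L [] 21 (Pf.C 120 49153))
 Pq.nil)))))) Pq.nil)))) (Pq.cons (Pq.L [] 8 (Pf.C 60 257))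
 (Pq.cons (Pq.L [] 8 (Pf.C 63 257))
 Pq.nil)))))) Pq.nil)))) (Pq.cons (Pq.D 1 (Pq.cons (Pq.D 0 (Pq.cons (Pq.D 2 (Pq.cons (Pq.L [] 2 (Pf.C 15 256))
 (Pq.cons (Pq.L [] 2 (Pf.C 15 256))
 (Pq.cons (Pq.L [] 11 (Pf.C 81 32769))
 Pq.nil)))) (Pq.cons (Pq.L [] 1 (Pf.C 22 128))
 (Pq.cons (Pq.D 2 (Pq.cons (Pq.L [] 2 (Pf.C 16 2))
 (Pq.cons (Pq.L [] 2 (Pf.C 32 256))
 (Pq.cons (Pq.D 3 (Pq.cons (Pq.L [] 21 (Pf.C 86 131))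
 (Pq.cons (Pq.L [] 38 (Pf.C 116 259))
 (Pq.cons (Pq.L [] 63 (Pf.C 201 0x608080))
 (Pq.cons (Pq.L [] 63 (Pf.C 201 0x608080))
 (Pq.cons (Pq.L [] 63 (Pf.C 201 0x608080))
 Pq.nil)))))) Pq.nil)))) (Pq.cons (Pq.D 2 (Pq.cons (Pq.L [] 11 (Pf.C 86 130))
 (Pq.cons (Pq.L [] 11 (Pf.C 86 130))
 (Pq.cons (Pq.L [] 11 (Pf.C 110 130))
 Pq.nil)))) (Pq.cons (Pq.D 2 (Pq.cons (Pq.D 3 (Pq.cons (Pq.L [] 21 (Pf.C 95 131))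
 (Pq.cons (Pq.L [] 38 (Pf.C 116 259))
 (Pq.cons (Pq.L [] 21 (Pf.C 95 131))
 (Pq.cons (Pq.L [] 21 (Pf.C 95 131))
 (Pq.cons (Pq.L [] 63 (Pf.C 201 0x608080))
 Pq.nil)))))) (Pq.cons (Pq.L [] 8 (Pf.C 18 257))
 (Pq.cons (Pq.D 3 (Pq.cons (Pq.L [] 21 (Pf.C 95 131))
 (Pq.cons (Pq.L [] 38 (Pf.C 116 259))
 (Pq.cons (Pq.L [] 21 (Pf.C 95 131))
 (Pq.cons (Pq.L [] 21 (Pf.C 95 131))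
 (Pq.cons (Pq.L [] 63 (Pf.C 201 0x608080))
 Pq.nil)))))) Pq.nil)))) Pq.nil)))))) (Pq.cons (Pq.D 0 (Pq.cons (Pq.L [] 0 (Pf.C 39 128))
 (Pq.cons (Pq.D 2 (Pq.cons (Pq.L [] 11 (Pf.C 89 130))
 (Pq.cons (Pq.L [] 2 (Pf.C 35 256))
 (Pq.cons (Pq.D 3 (Pq.cons (Pq.L [] 4 (Pf.C 17 3))
 (Pq.cons (Pq.L [] 38 (Pf.C 85 33152))
 (Pq.cons (Pq.L [] 21 (Pf.C 95 131))
 (Pq.cons (Pq.L [] 21 (Pf.C 95 131))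
 (Pq.cons (Pq.L [] 63 (Pf.C 201 0x608080))
 Pq.nil)))))) Pq.nil)))) (Pq.cons (Pq.D 2 (Pq.cons (Pq.L [] 2 (Pf.C 16 2))
 (Pq.cons (Pq.L [] 2 (Pf.C 32 256))
 (Pq.cons (Pq.L [] 11 (Pf.C 103 16386))
 Pq.nil)))) (Pq.cons (Pq.L [] 1 (Pf.C 54 128))
 (Pq.cons (Pq.D 2 (Pq.cons (Pq.L [] 11 (Pf.C 103 16386))
 (Pq.cons (Pq.D 3 (Pq.cons (Pq.L [] 21 (Pf.C 95 131))
 (Pq.cons (Pq.L [] 21 (Pf.C 103 16387))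
 (Pq.cons (Pq.L [] 21 (Pf.C 95 131))
 (Pq.cons (Pq.L [] 21 (Pf.C 95 131))
 (Pq.cons (Pq.L [] 63 (Pf.C 201 0x608080))
 Pq.nil)))))) (Pq.cons (Pq.L [] 11 (Pf.C 103 16386))
 Pq.nil)))) Pq.nil)))))) (Pq.cons (Pq.D 0 (Pq.cons (Pq.D 2 (Pq.cons (Pq.L [] 2 (Pf.C 15 256))
 (Pq.cons (Pq.L [] 2 (Pf.C 15 256))
 (Pq.cons (Pq.L [] 11 (Pf.C 110 130))
 Pq.nil)))) (Pq.cons (Pq.L [] 1 (Pf.C 22 128))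
 (Pq.cons (Pq.D 2 (Pq.cons (Pq.L [] 2 (Pf.C 16 2))
 (Pq.cons (Pq.L [] 2 (Pf.C 32 256))
 (Pq.cons (Pq.D 3 (Pq.cons (Pq.L [] 63 (Pf.C 201 0x608080))
 (Pq.cons (Pq.L [] 38 (Pf.C 116 259))
 (Pq.cons (Pq.L [] 63 (Pf.C 201 0x608080))
 (Pq.cons (Pq.L [] 63 (Pf.C 201 0x608080))
 (Pq.cons (Pq.L [] 63 (Pf.C 201 0x608080))
 Pq.nil)))))) Pq.nil)))) (Pq.cons (Pq.D 2 (Pq.cons (Pq.L [] 11 (Pf.C 110 130))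
 (Pq.cons (Pq.D 3 (Pq.cons (Pq.L [] 38 (Pf.C 83 259))
 (Pq.cons (Pq.L [] 38 (Pf.C 95 49408))
 (Pq.cons (Pq.L [] 63 (Pf.C 201 0x608080))
 (Pq.cons (Pq.L [] 21 (Pf.C 111 16387))
 (Pq.cons (Pq.L [] 38 (Pf.C 95 49408))
 Pq.nil)))))) (Pq.cons (Pq.L [] 11 (Pf.C 110 130))
 Pq.nil)))) (Pq.cons (Pq.L [] 1 (Pf.C 56 128))
 Pq.nil)))))) Pq.nil)))) (Pq.cons (Pq.D 0 (Pq.cons (Pq.L [] 1 (Pf.C 36 128))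
 (Pq.cons (Pq.L [] 2 (Pf.C 34 256))
 (Pq.cons (Pq.D 3 (Pq.cons (Pq.L [] 63 (Pf.C 199 0x608080))
 (Pq.cons (Pq.L [] 21 (Pf.C 99 16387))
 (Pq.cons (Pq.L [] 63 (Pf.C 190 0x40c001))
 (Pq.cons (Pq.L [] 63 (Pf.C 190 0x40c001))
 (Pq.cons (Pq.L [] 21 (Pf.C 106 49280))
 Pq.nil)))))) (Pq.cons (Pq.L [] 1 (Pf.C 45 1))
 (Pq.cons (Pq.D 3 (Pq.cons (Pq.L [] 38 (Pf.C 106 259))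
 (Pq.cons (Pq.L [] 21 (Pf.C 99 16387))
 (Pq.cons (Pq.L [] 38 (Pf.C 106 259))
 (Pq.cons (Pq.L [] 38 (Pf.C 106 259))
 (Pq.cons (Pq.L [] 63 (Pf.C 199 0x608080))
 Pq.nil)))))) Pq.nil)))))) Pq.nil)))))))
theorem f1_o71 : AllRef f1_T f1_G9 (List.drop 79 (List.take 86 (applyObl f2_T 91 [31,39,41,35,8,9,33,12,13,37,15] [1,2,3,4,5,6,7,8,9,10,11] []))) :=
  chkPq_sound f1_o71c _ (by decide +kernel)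
noncomputable def f1_o72c : Pq := (Pq.cons (Pq.D 1 (Pq.cons (Pq.D 0 (Pq.cons (Pq.D 2 (Pq.cons (Pq.L [] 2 (Pf.C 17 256))
 (Pq.cons (Pq.D 3 (Pq.cons (Pq.L [] 21 (Pf.C 89 16387))
 (Pq.cons (Pq.L [] 21 (Pf.C 107 49280))
 (Pq.cons (Pq.L [] 38 (Pf.C 108 259))
 (Pq.cons (Pq.L [] 63 (Pf.C 200 0x608080))
 Pq.nil))))) Pq.nil))) (Pq.cons (Pq.D 2 (Pq.cons (Pq.L [] 2 (Pf.C 34 2))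
 (Pq.cons (Pq.D 3 (Pq.cons (Pq.L [] 21 (Pf.C 87 131))
 (Pq.cons (Pq.L [] 63 (Pf.C 199 0x40c001))
 (Pq.cons (Pq.L [] 38 (Pf.C 107 259))
 (Pq.cons (Pq.L [] 38 (Pf.C 107 259))
 Pq.nil))))) Pq.nil))) (Pq.cons (Pq.D 2 (Pq.cons (Pq.D 3 (Pq.cons (Pq.L [] 21 (Pf.C 98 16387))
 (Pq.cons (Pq.L [] 21 (Pf.C 98 16387))
 (Pq.cons (Pq.L [] 63 (Pf.C 200 0x608080))
 (Pq.cons (Pq.L [] 21 (Pf.C 108 49280))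
 Pq.nil))))) (Pq.cons (Pq.D 3 (Pq.cons (Pq.L [] 21 (Pf.C 98 16387))
 (Pq.cons (Pq.L [] 21 (Pf.C 98 16387))
 (Pq.cons (Pq.L [] 63 (Pf.C 200 0x608080))
 (Pq.cons (Pq.L [] 21 (Pf.C 108 49280))
 Pq.nil))))) Pq.nil))) (Pq.cons (Pq.D 2 (Pq.cons (Pq.D 3 (Pq.cons (Pq.L [] 21 (Pf.C 98 16387))
 (Pq.cons (Pq.L [] 21 (Pf.C 98 16387))
 (Pq.cons (Pq.L [] 38 (Pf.C 108 259))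
 (Pq.cons (Pq.L [] 63 (Pf.C 200 0x608080))
 Pq.nil))))) (Pq.cons (Pq.D 3 (Pq.cons (Pq.L [] 21 (Pf.C 98 16387))
 (Pq.cons (Pq.L [] 21 (Pf.C 98 16387))
 (Pq.cons (Pq.L [] 38 (Pf.C 108 259))
 (Pq.cons (Pq.L [] 63 (Pf.C 200 0x608080))
 Pq.nil))))) Pq.nil))) Pq.nil))))) (Pq.cons (Pq.D 0 (Pq.cons (Pq.D 2 (Pq.cons (Pq.L [] 2 (Pf.C 17 256))
 (Pq.cons (Pq.D 3 (Pq.cons (Pq.L [] 63 (Pf.C 200 0x608080))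
 (Pq.cons (Pq.L [] 21 (Pf.C 107 49280))
 (Pq.cons (Pq.L [] 38 (Pf.C 108 259))
 (Pq.cons (Pq.L [] 63 (Pf.C 200 0x608080))
 Pq.nil))))) Pq.nil))) (Pq.cons (Pq.D 2 (Pq.cons (Pq.L [] 2 (Pf.C 34 2))
 (Pq.cons (Pq.D 3 (Pq.cons (Pq.L [] 38 (Pf.C 107 259))
 (Pq.cons (Pq.L [] 63 (Pf.C 199 0x40c001))
 (Pq.cons (Pq.L [] 38 (Pf.C 107 259))
 (Pq.cons (Pq.L [] 38 (Pf.C 107 259))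
 Pq.nil))))) Pq.nil))) (Pq.cons (Pq.L [] 1 (Pf.C 52 128))
 (Pq.cons (Pq.L [] 1 (Pf.C 53 128))
 Pq.nil))))) Pq.nil))) (Pq.cons (Pq.D 0 (Pq.cons (Pq.D 1 (Pq.cons (Pq.L [] 1 (Pf.C 22 128))
 (Pq.cons (Pq.L [] 1 (Pf.C 22 128))
 (Pq.cons (Pq.D 2 (Pq.cons (Pq.D 3 (Pq.cons (Pq.L [] 38 (Pf.C 85 33152))
 (Pq.cons (Pq.L [] 21 (Pf.C 96 131))
 (Pq.cons (Pq.L [] 21 (Pf.C 116 49280))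
 Pq.nil)))) (Pq.cons (Pq.D 3 (Pq.cons (Pq.L [] 38 (Pf.C 85 33152))
 (Pq.cons (Pq.L [] 21 (Pf.C 96 131))
 (Pq.cons (Pq.L [] 21 (Pf.C 116 49280))
 Pq.nil)))) (Pq.cons (Pq.D 3 (Pq.cons (Pq.L [] 63 (Pf.C 186 0x40c001))
 (Pq.cons (Pq.L [] 21 (Pf.C 96 131))
 (Pq.cons (Pq.L [] 21 (Pf.C 116 49280))
 Pq.nil)))) Pq.nil)))) Pq.nil)))) (Pq.cons (Pq.D 1 (Pq.cons (Pq.D 2 (Pq.cons (Pq.L [] 2 (Pf.C 16 2))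
 (Pq.cons (Pq.D 3 (Pq.cons (Pq.L [] 38 (Pf.C 116 259))
 (Pq.cons (Pq.L [] 63 (Pf.C 201 0x608080))
 (Pq.cons (Pq.L [] 63 (Pf.C 201 0x608080))
 Pq.nil)))) (Pq.cons (Pq.L [] 2 (Pf.C 31 256))
 Pq.nil)))) (Pq.cons (Pq.D 2 (Pq.cons (Pq.L [] 2 (Pf.C 16 2))
 (Pq.cons (Pq.D 3 (Pq.cons (Pq.L [] 38 (Pf.C 116 259))
 (Pq.cons (Pq.L [] 63 (Pf.C 201 0x608080))
 (Pq.cons (Pq.L [] 63 (Pf.C 201 0x608080))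
 Pq.nil)))) (Pq.cons (Pq.L [] 2 (Pf.C 31 256))
 Pq.nil)))) (Pq.cons (Pq.D 2 (Pq.cons (Pq.L [] 2 (Pf.C 16 2))
 (Pq.cons (Pq.D 3 (Pq.cons (Pq.L [] 38 (Pf.C 116 259))
 (Pq.cons (Pq.L [] 21 (Pf.C 88 16387))
 (Pq.cons (Pq.L [] 63 (Pf.C 202 0x608080))
 Pq.nil)))) (Pq.cons (Pq.L [] 2 (Pf.C 31 256))
 Pq.nil)))) Pq.nil)))) (Pq.cons (Pq.D 1 (Pq.cons (Pq.D 2 (Pq.cons (Pq.D 3 (Pq.cons (Pq.L [] 38 (Pf.C 116 259))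
 (Pq.cons (Pq.L [] 21 (Pf.C 95 131))
 (Pq.cons (Pq.L [] 63 (Pf.C 201 0x608080))
 Pq.nil)))) (Pq.cons (Pq.D 3 (Pq.cons (Pq.L [] 38 (Pf.C 116 259))
 (Pq.cons (Pq.L [] 21 (Pf.C 95 131))
 (Pq.cons (Pq.L [] 63 (Pf.C 201 0x608080))
 Pq.nil)))) (Pq.cons (Pq.L [] 11 (Pf.C 118 32769))
 Pq.nil)))) (Pq.cons (Pq.L [] 1 (Pf.C 56 128))
 (Pq.cons (Pq.D 2 (Pq.cons (Pq.D 3 (Pq.cons (Pq.L [] 38 (Pf.C 116 259))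
 (Pq.cons (Pq.L [] 21 (Pf.C 96 131))
 (Pq.cons (Pq.L [] 63 (Pf.C 202 0x608080))
 Pq.nil)))) (Pq.cons (Pq.D 3 (Pq.cons (Pq.L [] 38 (Pf.C 116 259))
 (Pq.cons (Pq.L [] 21 (Pf.C 96 131))
 (Pq.cons (Pq.L [] 63 (Pf.C 202 0x608080))
 Pq.nil)))) (Pq.cons (Pq.D 3 (Pq.cons (Pq.L [] 38 (Pf.C 116 259))
 (Pq.cons (Pq.L [] 21 (Pf.C 96 131))
 (Pq.cons (Pq.L [] 63 (Pf.C 202 0x608080))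
 Pq.nil)))) Pq.nil)))) Pq.nil)))) Pq.nil)))) (Pq.cons (Pq.D 0 (Pq.cons (Pq.D 1 (Pq.cons (Pq.D 2 (Pq.cons (Pq.D 3 (Pq.cons (Pq.L [] 4 (Pf.C 17 3))
 (Pq.cons (Pq.L [] 4 (Pf.C 34 384))
 (Pq.cons (Pq.L [] 21 (Pf.C 92 385))
 Pq.nil)))) (Pq.cons (Pq.D 3 (Pq.cons (Pq.L [] 4 (Pf.C 17 3))
 (Pq.cons (Pq.L [] 4 (Pf.C 34 384))
 (Pq.cons (Pq.L [] 21 (Pf.C 92 385))
 Pq.nil)))) (Pq.cons (Pq.D 3 (Pq.cons (Pq.L [] 4 (Pf.C 17 3))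
 (Pq.cons (Pq.L [] 4 (Pf.C 34 384))
 (Pq.cons (Pq.L [] 21 (Pf.C 92 385))
 Pq.nil)))) Pq.nil)))) (Pq.cons (Pq.D 2 (Pq.cons (Pq.D 3 (Pq.cons (Pq.L [] 4 (Pf.C 17 3))
 (Pq.cons (Pq.L [] 4 (Pf.C 34 384))
 (Pq.cons (Pq.L [] 21 (Pf.C 127 49280))
 Pq.nil)))) (Pq.cons (Pq.D 3 (Pq.cons (Pq.L [] 4 (Pf.C 17 3))
 (Pq.cons (Pq.L [] 4 (Pf.C 34 384))
 (Pq.cons (Pq.L [] 21 (Pf.C 127 49280))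
 Pq.nil)))) (Pq.cons (Pq.D 3 (Pq.cons (Pq.L [] 4 (Pf.C 17 3))
 (Pq.cons (Pq.L [] 4 (Pf.C 34 384))
 (Pq.cons (Pq.L [] 21 (Pf.C 127 49280))
 Pq.nil)))) Pq.nil)))) (Pq.cons (Pq.D 2 (Pq.cons (Pq.D 3 (Pq.cons (Pq.L [] 4 (Pf.C 17 3))
 (Pq.cons (Pq.L [] 4 (Pf.C 34 384))
 (Pq.cons (Pq.L [] 21 (Pf.C 124 16387))
 Pq.nil)))) (Pq.cons (Pq.D 3 (Pq.cons (Pq.L [] 4 (Pf.C 17 3))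
 (Pq.cons (Pq.L [] 4 (Pf.C 34 384))
 (Pq.cons (Pq.L [] 21 (Pf.C 124 16387))
 Pq.nil)))) (Pq.cons (Pq.D 3 (Pq.cons (Pq.L [] 4 (Pf.C 17 3))
 (Pq.cons (Pq.L [] 4 (Pf.C 34 384))
 (Pq.cons (Pq.L [] 21 (Pf.C 124 16387))
 Pq.nil)))) Pq.nil)))) Pq.nil)))) (Pq.cons (Pq.D 1 (Pq.cons (Pq.L [] 1 (Pf.C 16 1))
 (Pq.cons (Pq.D 2 (Pq.cons (Pq.L [] 2 (Pf.C 16 2))
 (Pq.cons (Pq.D 3 (Pq.cons (Pq.L [] 21 (Pf.C 92 16387))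
 (Pq.cons (Pq.L [] 21 (Pf.C 123 49153))
 (Pq.cons (Pq.L [] 21 (Pf.C 130 16768))
 Pq.nil)))) (Pq.cons (Pq.L [] 2 (Pf.C 31 256))
 Pq.nil)))) (Pq.cons (Pq.L [] 1 (Pf.C 31 128))
 Pq.nil)))) (Pq.cons (Pq.D 1 (Pq.cons (Pq.D 2 (Pq.cons (Pq.D 3 (Pq.cons (Pq.L [] 21 (Pf.C 121 131))
 (Pq.cons (Pq.L [] 21 (Pf.C 121 131))
 (Pq.cons (Pq.L [] 63 (Pf.C 196 49409))
 Pq.nil)))) (Pq.cons (Pq.D 3 (Pq.cons (Pq.L [] 21 (Pf.C 121 131))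
 (Pq.cons (Pq.L [] 21 (Pf.C 121 131))
 (Pq.cons (Pq.L [] 63 (Pf.C 203 0x608080))
 Pq.nil)))) (Pq.cons (Pq.D 3 (Pq.cons (Pq.L [] 21 (Pf.C 121 131))
 (Pq.cons (Pq.L [] 21 (Pf.C 121 131))
 (Pq.cons (Pq.L [] 63 (Pf.C 194 33153))
 Pq.nil)))) Pq.nil)))) (Pq.cons (Pq.D 2 (Pq.cons (Pq.D 3 (Pq.cons (Pq.L [] 63 (Pf.C 203 0x608080))
 (Pq.cons (Pq.L [] 21 (Pf.C 123 49153))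
 (Pq.cons (Pq.L [] 63 (Pf.C 203 0x608080))
 Pq.nil)))) (Pq.cons (Pq.D 3 (Pq.cons (Pq.L [] 63 (Pf.C 203 0x608080))
 (Pq.cons (Pq.L [] 21 (Pf.C 123 49153))
 (Pq.cons (Pq.L [] 63 (Pf.C 203 0x608080))
 Pq.nil)))) (Pq.cons (Pq.D 3 (Pq.cons (Pq.L [] 63 (Pf.C 193 33153))
 (Pq.cons (Pq.L [] 21 (Pf.C 123 49153))
 (Pq.cons (Pq.L [] 63 (Pf.C 203 0x608080))
 Pq.nil)))) Pq.nil)))) (Pq.cons (Pq.D 2 (Pq.cons (Pq.D 3 (Pq.cons (Pq.L [] 21 (Pf.C 121 131))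
 (Pq.cons (Pq.L [] 21 (Pf.C 121 131))
 (Pq.cons (Pq.L [] 21 (Pf.C 124 16387))
 Pq.nil)))) (Pq.cons (Pq.D 3 (Pq.cons (Pq.L [] 21 (Pf.C 121 131))
 (Pq.cons (Pq.L [] 21 (Pf.C 121 131))
 (Pq.cons (Pq.L [] 21 (Pf.C 124 16387))
 Pq.nil)))) (Pq.cons (Pq.D 3 (Pq.cons (Pq.L [] 21 (Pf.C 121 131))
 (Pq.cons (Pq.L [] 21 (Pf.C 121 131))
 (Pq.cons (Pq.L [] 21 (Pf.C 124 16387))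
 Pq.nil)))) Pq.nil)))) Pq.nil)))) Pq.nil)))) (Pq.cons (Pq.D 0 (Pq.cons (Pq.D 1 (Pq.cons (Pq.L [] 1 (Pf.C 17 1))
 (Pq.cons (Pq.L [] 1 (Pf.C 34 128))
 (Pq.cons (Pq.D 2 (Pq.cons (Pq.L [] 2 (Pf.C 17 2))
 (Pq.cons (Pq.L [] 2 (Pf.C 34 256))
 (Pq.cons (Pq.D 3 (Pq.cons (Pq.L [] 21 (Pf.C 92 131))
 (Pq.cons (Pq.L [] 21 (Pf.C 127 16768))
 (Pq.cons (Pq.L [] 21 (Pf.C 124 49153))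
 Pq.nil)))) Pq.nil)))) Pq.nil)))) (Pq.cons (Pq.D 1 (Pq.cons (Pq.D 2 (Pq.cons (Pq.D 3 (Pq.cons (Pq.L [] 4 (Pf.C 16 3))
 (Pq.cons (Pq.L [] 21 (Pf.C 92 49153))
 (Pq.cons (Pq.L [] 4 (Pf.C 31 384))
 Pq.nil)))) (Pq.cons (Pq.D 3 (Pq.cons (Pq.L [] 4 (Pf.C 16 3))
 (Pq.cons (Pq.L [] 21 (Pf.C 92 49153))
 (Pq.cons (Pq.L [] 4 (Pf.C 31 384))
 Pq.nil)))) (Pq.cons (Pq.D 3 (Pq.cons (Pq.L [] 4 (Pf.C 16 3))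
 (Pq.cons (Pq.L [] 21 (Pf.C 92 49153))
 (Pq.cons (Pq.L [] 4 (Pf.C 31 384))
 Pq.nil)))) Pq.nil)))) (Pq.cons (Pq.D 2 (Pq.cons (Pq.D 3 (Pq.cons (Pq.L [] 4 (Pf.C 16 3))
 (Pq.cons (Pq.L [] 21 (Pf.C 123 16387))
 (Pq.cons (Pq.L [] 4 (Pf.C 31 384))
 Pq.nil)))) (Pq.cons (Pq.D 3 (Pq.cons (Pq.L [] 4 (Pf.C 16 3))
 (Pq.cons (Pq.L [] 21 (Pf.C 123 16387))
 (Pq.cons (Pq.L [] 4 (Pf.C 31 384))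
 Pq.nil)))) (Pq.cons (Pq.D 3 (Pq.cons (Pq.L [] 4 (Pf.C 16 3))
 (Pq.cons (Pq.L [] 21 (Pf.C 123 16387))
 (Pq.cons (Pq.L [] 4 (Pf.C 31 384))
 Pq.nil)))) Pq.nil)))) (Pq.cons (Pq.D 2 (Pq.cons (Pq.D 3 (Pq.cons (Pq.L [] 4 (Pf.C 16 3))
 (Pq.cons (Pq.L [] 21 (Pf.C 130 49280))
 (Pq.cons (Pq.L [] 4 (Pf.C 31 384))
 Pq.nil)))) (Pq.cons (Pq.D 3 (Pq.cons (Pq.L [] 4 (Pf.C 16 3))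
 (Pq.cons (Pq.L [] 21 (Pf.C 130 49280))
 (Pq.cons (Pq.L [] 4 (Pf.C 31 384))
 Pq.nil)))) (Pq.cons (Pq.D 3 (Pq.cons (Pq.L [] 4 (Pf.C 16 3))
 (Pq.cons (Pq.L [] 21 (Pf.C 130 49280))
 (Pq.cons (Pq.L [] 4 (Pf.C 31 384))
 Pq.nil)))) Pq.nil)))) Pq.nil)))) (Pq.cons (Pq.D 1 (Pq.cons (Pq.D 2 (Pq.cons (Pq.D 3 (Pq.cons (Pq.L [] 21 (Pf.C 121 385))
 (Pq.cons (Pq.L [] 63 (Pf.C 191 49409))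
 (Pq.cons (Pq.L [] 21 (Pf.C 121 385))
 Pq.nil)))) (Pq.cons (Pq.D 3 (Pq.cons (Pq.L [] 21 (Pf.C 121 385))
 (Pq.cons (Pq.L [] 63 (Pf.C 191 49409))
 (Pq.cons (Pq.L [] 21 (Pf.C 121 385))
 Pq.nil)))) (Pq.cons (Pq.D 3 (Pq.cons (Pq.L [] 21 (Pf.C 121 385))
 (Pq.cons (Pq.L [] 63 (Pf.C 204 0x608080))
 (Pq.cons (Pq.L [] 21 (Pf.C 121 385))
 Pq.nil)))) Pq.nil)))) (Pq.cons (Pq.D 2 (Pq.cons (Pq.D 3 (Pq.cons (Pq.L [] 21 (Pf.C 121 385))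
 (Pq.cons (Pq.L [] 21 (Pf.C 123 16387))
 (Pq.cons (Pq.L [] 21 (Pf.C 121 385))
 Pq.nil)))) (Pq.cons (Pq.D 3 (Pq.cons (Pq.L [] 21 (Pf.C 121 385))
 (Pq.cons (Pq.L [] 21 (Pf.C 123 16387))
 (Pq.cons (Pq.L [] 21 (Pf.C 121 385))
 Pq.nil)))) (Pq.cons (Pq.D 3 (Pq.cons (Pq.L [] 21 (Pf.C 121 385))
 (Pq.cons (Pq.L [] 21 (Pf.C 123 16387))
 (Pq.cons (Pq.L [] 21 (Pf.C 121 385))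
 Pq.nil)))) Pq.nil)))) (Pq.cons (Pq.D 2 (Pq.cons (Pq.D 3 (Pq.cons (Pq.L [] 63 (Pf.C 204 0x608080))
 (Pq.cons (Pq.L [] 63 (Pf.C 204 0x608080))
 (Pq.cons (Pq.L [] 21 (Pf.C 124 49153))
 Pq.nil)))) (Pq.cons (Pq.D 3 (Pq.cons (Pq.L [] 63 (Pf.C 194 33153))
 (Pq.cons (Pq.L [] 63 (Pf.C 204 0x608080))
 (Pq.cons (Pq.L [] 21 (Pf.C 124 49153))
 Pq.nil)))) (Pq.cons (Pq.D 3 (Pq.cons (Pq.L [] 63 (Pf.C 204 0x608080))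
 (Pq.cons (Pq.L [] 63 (Pf.C 204 0x608080))
 (Pq.cons (Pq.L [] 21 (Pf.C 124 49153))
 Pq.nil)))) Pq.nil)))) Pq.nil)))) Pq.nil)))) Pq.nil))))
theorem f1_o72 : AllRef f1_T f1_G9 (List.take 4 (List.drop 86 (applyObl f2_T 91 [31,39,41,35,8,9,33,12,13,37,15] [1,2,3,4,5,6,7,8,9,10,11] []))) :=
  chkPq_sound f1_o72c _ (by decide +kernel)
noncomputable def f1_o73c : Pq := (Pq.cons (Pq.D 3 (Pq.cons (Pq.L [] 512 (Pf.C 21 388))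
 (Pq.cons (Pq.D 2 (Pq.cons (Pq.D 1 (Pq.cons (Pq.L [] 32 (Pf.C 17 385))
 (Pq.cons (Pq.D 0 (Pq.cons (Pq.L [] 1 (Pf.C 17 128))
 (Pq.cons (Pq.L [] 2 (Pf.C 17 2))
 (Pq.cons (Pq.L [] 1 (Pf.C 34 1))
 (Pq.cons (Pq.L [] 2 (Pf.C 15 2))
 (Pq.cons (Pq.L [] 2 (Pf.C 15 2))
 (Pq.cons (Pq.L [] 266 (Pf.C 92 514))
 (Pq.cons (Pq.L [] 8 (Pf.C 31 4))
 (Pq.cons (Pq.L [] 73 (Pf.C 122 513))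
 Pq.nil))))))))) (Pq.cons (Pq.L [] 32 (Pf.C 34 131))
 (Pq.cons (Pq.L [] 64 (Pf.C 16 513))
 (Pq.cons (Pq.L [] 64 (Pf.C 32 132))
 (Pq.cons (Pq.L [] 608 (Pf.C 117 16899))
 (Pq.cons (Pq.L [] 64 (Pf.C 31 132))
 (Pq.cons (Pq.L [] 16 (Pf.C 40 130))
 Pq.nil))))))))) (Pq.cons (Pq.L [] 128 (Pf.C 208 386))
 (Pq.cons (Pq.D 1 (Pq.cons (Pq.L [] 32 (Pf.C 17 385))
 (Pq.cons (Pq.D 0 (Pq.cons (Pq.L [] 1 (Pf.C 17 128))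
 (Pq.cons (Pq.L [] 2 (Pf.C 34 256))
 (Pq.cons (Pq.L [] 1 (Pf.C 34 1))
 (Pq.cons (Pq.L [] 8 (Pf.C 16 512))
 (Pq.cons (Pq.L [] 8 (Pf.C 32 4))
 (Pq.cons (Pq.L [] 524 (Pf.C 117 515))
 (Pq.cons (Pq.L [] 8 (Pf.C 31 4))
 (Pq.cons (Pq.L [] 73 (Pf.C 122 513))
 Pq.nil))))))))) (Pq.cons (Pq.L [] 16 (Pf.C 12 257))
 (Pq.cons (Pq.L [] 64 (Pf.C 16 513))
 (Pq.cons (Pq.L [] 64 (Pf.C 32 132))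
 (Pq.cons (Pq.L [] 608 (Pf.C 117 16899))
 (Pq.cons (Pq.L [] 64 (Pf.C 31 132))
 (Pq.cons (Pq.L [] 16 (Pf.C 12 257))
 Pq.nil))))))))) (Pq.cons (Pq.L [] 256 (Pf.C 16 514))
 (Pq.cons (Pq.L [] 256 (Pf.C 32 260))
 (Pq.cons (Pq.L [] 128 (Pf.C 22 259))
 (Pq.cons (Pq.L [] 256 (Pf.C 31 260))
 (Pq.cons (Pq.D 1 (Pq.cons (Pq.L [] 32 (Pf.C 17 385))
 (Pq.cons (Pq.D 0 (Pq.cons (Pq.L [] 1 (Pf.C 17 128))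
 (Pq.cons (Pq.L [] 266 (Pf.C 122 33280))
 (Pq.cons (Pq.L [] 1 (Pf.C 34 1))
 (Pq.cons (Pq.L [] 8 (Pf.C 16 512))
 (Pq.cons (Pq.L [] 8 (Pf.C 32 4))
 (Pq.cons (Pq.L [] 524 (Pf.C 117 515))
 (Pq.cons (Pq.L [] 8 (Pf.C 31 4))
 (Pq.cons (Pq.L [] 73 (Pf.C 122 513))
 Pq.nil))))))))) (Pq.cons (Pq.L [] 16 (Pf.C 12 257))
 (Pq.cons (Pq.L [] 64 (Pf.C 16 513))
 (Pq.cons (Pq.L [] 16 (Pf.C 11 257))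
 (Pq.cons (Pq.L [] 16 (Pf.C 66 257))
 (Pq.cons (Pq.L [] 16 (Pf.C 10 257))
 (Pq.cons (Pq.L [] 16 (Pf.C 10 257))
 Pq.nil))))))))) Pq.nil))))))))) (Pq.cons (Pq.D 2 (Pq.cons (Pq.L [] 128 (Pf.C 36 386))
 (Pq.cons (Pq.D 1 (Pq.cons (Pq.D 0 (Pq.cons (Pq.L [] 2 (Pf.C 17 256))
 (Pq.cons (Pq.L [] 1 (Pf.C 17 1))
 (Pq.cons (Pq.L [] 2 (Pf.C 34 2))
 (Pq.cons (Pq.L [] 1 (Pf.C 15 1))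
 (Pq.cons (Pq.L [] 1 (Pf.C 15 1))
 (Pq.cons (Pq.L [] 37 (Pf.C 91 49153))
 (Pq.cons (Pq.L [] 8 (Pf.C 31 4))
 (Pq.cons (Pq.L [] 524 (Pf.C 84 515))
 Pq.nil))))))))) (Pq.cons (Pq.L [] 32 (Pf.C 34 385))
 (Pq.cons (Pq.D 0 (Pq.cons (Pq.L [] 2 (Pf.C 17 256))
 (Pq.cons (Pq.L [] 1 (Pf.C 34 128))
 (Pq.cons (Pq.L [] 2 (Pf.C 34 2))
 (Pq.cons (Pq.L [] 8 (Pf.C 16 512))
 (Pq.cons (Pq.L [] 8 (Pf.C 32 4))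
 (Pq.cons (Pq.L [] 73 (Pf.C 123 16896))
 (Pq.cons (Pq.L [] 8 (Pf.C 31 4))
 (Pq.cons (Pq.L [] 524 (Pf.C 84 515))
 Pq.nil))))))))) (Pq.cons (Pq.L [] 64 (Pf.C 16 513))
 (Pq.cons (Pq.L [] 64 (Pf.C 32 132))
 (Pq.cons (Pq.L [] 16 (Pf.C 22 130))
 (Pq.cons (Pq.L [] 64 (Pf.C 31 132))
 (Pq.cons (Pq.L [] 608 (Pf.C 84 16899))
 Pq.nil))))))))) (Pq.cons (Pq.L [] 128 (Pf.C 12 386))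
 (Pq.cons (Pq.L [] 256 (Pf.C 16 514))
 (Pq.cons (Pq.L [] 256 (Pf.C 32 260))
 (Pq.cons (Pq.D 1 (Pq.cons (Pq.D 0 (Pq.cons (Pq.L [] 19 (Pf.C 85 32896))
 (Pq.cons (Pq.L [] 1 (Pf.C 17 1))
 (Pq.cons (Pq.L [] 266 (Pf.C 123 514))
 (Pq.cons (Pq.L [] 1 (Pf.C 15 1))
 (Pq.cons (Pq.L [] 1 (Pf.C 15 1))
 (Pq.cons (Pq.L [] 37 (Pf.C 91 49153))
 (Pq.cons (Pq.L [] 8 (Pf.C 31 4))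
 (Pq.cons (Pq.L [] 524 (Pf.C 84 515))
 Pq.nil))))))))) (Pq.cons (Pq.L [] 16 (Pf.C 22 257))
 (Pq.cons (Pq.D 0 (Pq.cons (Pq.L [] 266 (Pf.C 92 33280))
 (Pq.cons (Pq.L [] 1 (Pf.C 34 128))
 (Pq.cons (Pq.L [] 266 (Pf.C 123 514))
 (Pq.cons (Pq.L [] 8 (Pf.C 16 512))
 (Pq.cons (Pq.L [] 8 (Pf.C 32 4))
 (Pq.cons (Pq.L [] 73 (Pf.C 123 16896))
 (Pq.cons (Pq.L [] 8 (Pf.C 31 4))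
 (Pq.cons (Pq.L [] 524 (Pf.C 84 515))
 Pq.nil))))))))) (Pq.cons (Pq.L [] 64 (Pf.C 16 513))
 (Pq.cons (Pq.L [] 64 (Pf.C 32 132))
 (Pq.cons (Pq.L [] 16 (Pf.C 28 257))
 (Pq.cons (Pq.L [] 64 (Pf.C 31 132))
 (Pq.cons (Pq.L [] 16 (Pf.C 66 130))
 Pq.nil))))))))) (Pq.cons (Pq.L [] 256 (Pf.C 31 260))
 (Pq.cons (Pq.L [] 128 (Pf.C 12 386))
 Pq.nil))))))))) (Pq.cons (Pq.D 2 (Pq.cons (Pq.D 1 (Pq.cons (Pq.L [] 32 (Pf.C 15 385))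
 (Pq.cons (Pq.D 0 (Pq.cons (Pq.L [] 4 (Pf.C 15 384))
 (Pq.cons (Pq.L [] 2 (Pf.C 17 2))
 (Pq.cons (Pq.L [] 1 (Pf.C 34 1))
 (Pq.cons (Pq.L [] 2 (Pf.C 15 2))
 (Pq.cons (Pq.L [] 2 (Pf.C 15 2))
 (Pq.cons (Pq.L [] 134 (Pf.C 81 259))
 (Pq.cons (Pq.L [] 8 (Pf.C 31 4))
 (Pq.cons (Pq.L [] 73 (Pf.C 122 513))
 Pq.nil))))))))) (Pq.cons (Pq.L [] 16 (Pf.C 36 130))
 (Pq.cons (Pq.L [] 64 (Pf.C 16 513))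
 (Pq.cons (Pq.L [] 32 (Pf.C 18 131))
 (Pq.cons (Pq.D 0 (Pq.cons (Pq.L [] 4 (Pf.C 15 384))
 (Pq.cons (Pq.L [] 2 (Pf.C 17 2))
 (Pq.cons (Pq.L [] 73 (Pf.C 123 513))
 (Pq.cons (Pq.L [] 2 (Pf.C 15 2))
 (Pq.cons (Pq.L [] 2 (Pf.C 15 2))
 (Pq.cons (Pq.L [] 134 (Pf.C 81 259))
 (Pq.cons (Pq.L [] 8 (Pf.C 31 4))
 (Pq.cons (Pq.L [] 73 (Pf.C 123 513))
 Pq.nil))))))))) (Pq.cons (Pq.L [] 64 (Pf.C 31 132))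
 (Pq.cons (Pq.L [] 16 (Pf.C 40 130))
 Pq.nil))))))))) (Pq.cons (Pq.L [] 128 (Pf.C 22 386))
 (Pq.cons (Pq.D 1 (Pq.cons (Pq.L [] 32 (Pf.C 15 385))
 (Pq.cons (Pq.D 0 (Pq.cons (Pq.L [] 4 (Pf.C 15 384))
 (Pq.cons (Pq.L [] 2 (Pf.C 34 256))
 (Pq.cons (Pq.L [] 1 (Pf.C 34 1))
 (Pq.cons (Pq.L [] 8 (Pf.C 16 512))
 (Pq.cons (Pq.L [] 4 (Pf.C 18 3))
 (Pq.cons (Pq.L [] 134 (Pf.C 81 259))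
 (Pq.cons (Pq.L [] 8 (Pf.C 31 4))
 (Pq.cons (Pq.L [] 73 (Pf.C 122 513))
 Pq.nil))))))))) (Pq.cons (Pq.L [] 16 (Pf.C 12 257))
 (Pq.cons (Pq.L [] 64 (Pf.C 16 513))
 (Pq.cons (Pq.L [] 32 (Pf.C 18 131))
 (Pq.cons (Pq.D 0 (Pq.cons (Pq.L [] 4 (Pf.C 15 384))
 (Pq.cons (Pq.L [] 2 (Pf.C 34 256))
 (Pq.cons (Pq.L [] 73 (Pf.C 123 513))
 (Pq.cons (Pq.L [] 8 (Pf.C 16 512))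
 (Pq.cons (Pq.L [] 4 (Pf.C 18 3))
 (Pq.cons (Pq.L [] 134 (Pf.C 81 259))
 (Pq.cons (Pq.L [] 8 (Pf.C 31 4))
 (Pq.cons (Pq.L [] 73 (Pf.C 123 513))
 Pq.nil))))))))) (Pq.cons (Pq.L [] 64 (Pf.C 31 132))
 (Pq.cons (Pq.L [] 16 (Pf.C 12 257))
 Pq.nil))))))))) (Pq.cons (Pq.L [] 256 (Pf.C 16 514))
 (Pq.cons (Pq.L [] 256 (Pf.C 32 260))
 (Pq.cons (Pq.L [] 128 (Pf.C 60 259))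
 (Pq.cons (Pq.L [] 256 (Pf.C 31 260))
 (Pq.cons (Pq.L [] 128 (Pf.C 62 259))
 Pq.nil))))))))) (Pq.cons (Pq.D 2 (Pq.cons (Pq.L [] 0 (Pf.C 39 386))
 (Pq.cons (Pq.D 1 (Pq.cons (Pq.L [] 32 (Pf.C 15 385))
 (Pq.cons (Pq.L [] 32 (Pf.C 35 385))
 (Pq.cons (Pq.D 0 (Pq.cons (Pq.L [] 4 (Pf.C 15 384))
 (Pq.cons (Pq.L [] 1 (Pf.C 34 128))
 (Pq.cons (Pq.L [] 2 (Pf.C 34 2))
 (Pq.cons (Pq.L [] 8 (Pf.C 16 512))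
 (Pq.cons (Pq.L [] 8 (Pf.C 32 4))
 (Pq.cons (Pq.L [] 524 (Pf.C 103 49664))
 (Pq.cons (Pq.L [] 8 (Pf.C 31 4))
 (Pq.cons (Pq.L [] 266 (Pf.C 122 514))
 Pq.nil))))))))) (Pq.cons (Pq.L [] 64 (Pf.C 16 513))
 (Pq.cons (Pq.L [] 64 (Pf.C 32 132))
 (Pq.cons (Pq.L [] 16 (Pf.C 22 130))
 (Pq.cons (Pq.L [] 64 (Pf.C 31 132))
 (Pq.cons (Pq.D 0 (Pq.cons (Pq.L [] 4 (Pf.C 15 384))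
 (Pq.cons (Pq.L [] 4 (Pf.C 35 384))
 (Pq.cons (Pq.L [] 2 (Pf.C 34 2))
 (Pq.cons (Pq.L [] 8 (Pf.C 16 512))
 (Pq.cons (Pq.L [] 8 (Pf.C 32 4))
 (Pq.cons (Pq.L [] 524 (Pf.C 103 49664))
 (Pq.cons (Pq.L [] 8 (Pf.C 31 4))
 (Pq.cons (Pq.L [] 266 (Pf.C 122 514))
 Pq.nil))))))))) Pq.nil))))))))) (Pq.cons (Pq.L [] 128 (Pf.C 46 386))
 (Pq.cons (Pq.L [] 256 (Pf.C 16 514))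
 (Pq.cons (Pq.L [] 128 (Pf.C 11 386))
 (Pq.cons (Pq.L [] 128 (Pf.C 63 259))
 (Pq.cons (Pq.L [] 256 (Pf.C 31 260))
 (Pq.cons (Pq.L [] 128 (Pf.C 11 386))
 Pq.nil))))))))) (Pq.cons (Pq.D 2 (Pq.cons (Pq.D 1 (Pq.cons (Pq.L [] 16 (Pf.C 206 257))
 (Pq.cons (Pq.D 0 (Pq.cons (Pq.L [] 1 (Pf.C 17 128))
 (Pq.cons (Pq.L [] 2 (Pf.C 17 2))
 (Pq.cons (Pq.L [] 1 (Pf.C 34 1))
 (Pq.cons (Pq.L [] 2 (Pf.C 15 2))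
 (Pq.cons (Pq.L [] 2 (Pf.C 15 2))
 (Pq.cons (Pq.L [] 266 (Pf.C 92 514))
 (Pq.cons (Pq.L [] 8 (Pf.C 31 4))
 (Pq.cons (Pq.L [] 73 (Pf.C 122 513))
 Pq.nil))))))))) (Pq.cons (Pq.L [] 16 (Pf.C 36 130))
 (Pq.cons (Pq.L [] 64 (Pf.C 16 513))
 (Pq.cons (Pq.L [] 64 (Pf.C 32 132))
 (Pq.cons (Pq.D 0 (Pq.cons (Pq.L [] 19 (Pf.C 85 16640))
 (Pq.cons (Pq.L [] 2 (Pf.C 17 2))
 (Pq.cons (Pq.L [] 73 (Pf.C 123 513))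
 (Pq.cons (Pq.L [] 2 (Pf.C 15 2))
 (Pq.cons (Pq.L [] 2 (Pf.C 15 2))
 (Pq.cons (Pq.L [] 266 (Pf.C 92 514))
 (Pq.cons (Pq.L [] 8 (Pf.C 31 4))
 (Pq.cons (Pq.L [] 73 (Pf.C 123 513))
 Pq.nil))))))))) (Pq.cons (Pq.L [] 64 (Pf.C 31 132))
 (Pq.cons (Pq.L [] 16 (Pf.C 40 130))
 Pq.nil))))))))) (Pq.cons (Pq.L [] 128 (Pf.C 22 386))
 (Pq.cons (Pq.D 1 (Pq.cons (Pq.L [] 16 (Pf.C 36 257))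
 (Pq.cons (Pq.D 0 (Pq.cons (Pq.L [] 1 (Pf.C 17 128))
 (Pq.cons (Pq.L [] 2 (Pf.C 34 256))
 (Pq.cons (Pq.L [] 1 (Pf.C 34 1))
 (Pq.cons (Pq.L [] 8 (Pf.C 16 512))
 (Pq.cons (Pq.L [] 8 (Pf.C 32 4))
 (Pq.cons (Pq.L [] 266 (Pf.C 123 33280))
 (Pq.cons (Pq.L [] 8 (Pf.C 31 4))
 (Pq.cons (Pq.L [] 73 (Pf.C 122 513))
 Pq.nil))))))))) (Pq.cons (Pq.L [] 16 (Pf.C 12 257))
 (Pq.cons (Pq.L [] 64 (Pf.C 16 513))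
 (Pq.cons (Pq.L [] 64 (Pf.C 32 132))
 (Pq.cons (Pq.D 0 (Pq.cons (Pq.L [] 73 (Pf.C 92 16896))
 (Pq.cons (Pq.L [] 2 (Pf.C 34 256))
 (Pq.cons (Pq.L [] 73 (Pf.C 123 513))
 (Pq.cons (Pq.L [] 8 (Pf.C 16 512))
 (Pq.cons (Pq.L [] 8 (Pf.C 32 4))
 (Pq.cons (Pq.L [] 266 (Pf.C 123 33280))
 (Pq.cons (Pq.L [] 8 (Pf.C 31 4))
 (Pq.cons (Pq.L [] 73 (Pf.C 123 513))
 Pq.nil))))))))) (Pq.cons (Pq.L [] 64 (Pf.C 31 132))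
 (Pq.cons (Pq.L [] 16 (Pf.C 12 257))
 Pq.nil))))))))) (Pq.cons (Pq.L [] 256 (Pf.C 16 514))
 (Pq.cons (Pq.L [] 256 (Pf.C 32 260))
 (Pq.cons (Pq.L [] 128 (Pf.C 28 386))
 (Pq.cons (Pq.L [] 256 (Pf.C 31 260))
 (Pq.cons (Pq.L [] 128 (Pf.C 66 259))
 Pq.nil))))))))) (Pq.cons (Pq.D 2 (Pq.cons (Pq.D 1 (Pq.cons (Pq.L [] 16 (Pf.C 206 257))
 (Pq.cons (Pq.D 0 (Pq.cons (Pq.L [] 1 (Pf.C 17 128))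
 (Pq.cons (Pq.L [] 2 (Pf.C 17 2))
 (Pq.cons (Pq.L [] 1 (Pf.C 34 1))
 (Pq.cons (Pq.L [] 2 (Pf.C 15 2))
 (Pq.cons (Pq.L [] 2 (Pf.C 15 2))
 (Pq.cons (Pq.L [] 134 (Pf.C 81 259))
 (Pq.cons (Pq.L [] 8 (Pf.C 31 4))
 (Pq.cons (Pq.L [] 73 (Pf.C 122 513))
 Pq.nil))))))))) (Pq.cons (Pq.L [] 16 (Pf.C 36 130))
 (Pq.cons (Pq.L [] 64 (Pf.C 16 513))
 (Pq.cons (Pq.L [] 64 (Pf.C 32 132))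
 (Pq.cons (Pq.D 0 (Pq.cons (Pq.L [] 19 (Pf.C 85 16640))
 (Pq.cons (Pq.L [] 2 (Pf.C 17 2))
 (Pq.cons (Pq.L [] 73 (Pf.C 123 513))
 (Pq.cons (Pq.L [] 2 (Pf.C 15 2))
 (Pq.cons (Pq.L [] 2 (Pf.C 15 2))
 (Pq.cons (Pq.L [] 134 (Pf.C 81 259))
 (Pq.cons (Pq.L [] 8 (Pf.C 31 4))
 (Pq.cons (Pq.L [] 73 (Pf.C 123 513))
 Pq.nil))))))))) (Pq.cons (Pq.L [] 64 (Pf.C 31 132))
 (Pq.cons (Pq.L [] 16 (Pf.C 40 130))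
 Pq.nil))))))))) (Pq.cons (Pq.D 1 (Pq.cons (Pq.D 0 (Pq.cons (Pq.L [] 2 (Pf.C 17 256))
 (Pq.cons (Pq.L [] 1 (Pf.C 17 1))
 (Pq.cons (Pq.L [] 2 (Pf.C 34 2))
 (Pq.cons (Pq.L [] 1 (Pf.C 15 1))
 (Pq.cons (Pq.L [] 1 (Pf.C 15 1))
 (Pq.cons (Pq.L [] 73 (Pf.C 92 513))
 (Pq.cons (Pq.L [] 8 (Pf.C 31 4))
 (Pq.cons (Pq.L [] 134 (Pf.C 80 259))
 Pq.nil))))))))) (Pq.cons (Pq.L [] 16 (Pf.C 208 257))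
 (Pq.cons (Pq.D 0 (Pq.cons (Pq.L [] 2 (Pf.C 17 256))
 (Pq.cons (Pq.L [] 1 (Pf.C 34 128))
 (Pq.cons (Pq.L [] 2 (Pf.C 34 2))
 (Pq.cons (Pq.L [] 8 (Pf.C 16 512))
 (Pq.cons (Pq.L [] 8 (Pf.C 32 4))
 (Pq.cons (Pq.L [] 73 (Pf.C 123 16896))
 (Pq.cons (Pq.L [] 8 (Pf.C 31 4))
 (Pq.cons (Pq.L [] 134 (Pf.C 80 259))
 Pq.nil))))))))) (Pq.cons (Pq.L [] 64 (Pf.C 16 513))
 (Pq.cons (Pq.L [] 64 (Pf.C 32 132))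
 (Pq.cons (Pq.L [] 16 (Pf.C 22 130))
 (Pq.cons (Pq.L [] 64 (Pf.C 31 132))
 (Pq.cons (Pq.D 0 (Pq.cons (Pq.L [] 2 (Pf.C 17 256))
 (Pq.cons (Pq.L [] 73 (Pf.C 122 16896))
 (Pq.cons (Pq.L [] 2 (Pf.C 34 2))
 (Pq.cons (Pq.L [] 8 (Pf.C 16 512))
 (Pq.cons (Pq.L [] 8 (Pf.C 32 4))
 (Pq.cons (Pq.L [] 73 (Pf.C 123 16896))
 (Pq.cons (Pq.L [] 8 (Pf.C 31 4))
 (Pq.cons (Pq.L [] 134 (Pf.C 80 259))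
 Pq.nil))))))))) Pq.nil))))))))) (Pq.cons (Pq.L [] 128 (Pf.C 47 386))
 (Pq.cons (Pq.L [] 256 (Pf.C 16 514))
 (Pq.cons (Pq.L [] 256 (Pf.C 32 260))
 (Pq.cons (Pq.L [] 128 (Pf.C 65 386))
 (Pq.cons (Pq.L [] 128 (Pf.C 10 386))
 (Pq.cons (Pq.L [] 128 (Pf.C 10 386))
 Pq.nil))))))))) (Pq.cons (Pq.D 2 (Pq.cons (Pq.L [] 128 (Pf.C 40 386))
 (Pq.cons (Pq.D 1 (Pq.cons (Pq.D 0 (Pq.cons (Pq.L [] 2 (Pf.C 17 256))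
 (Pq.cons (Pq.L [] 1 (Pf.C 17 1))
 (Pq.cons (Pq.L [] 2 (Pf.C 34 2))
 (Pq.cons (Pq.L [] 1 (Pf.C 15 1))
 (Pq.cons (Pq.L [] 1 (Pf.C 15 1))
 (Pq.cons (Pq.L [] 73 (Pf.C 92 513))
 (Pq.cons (Pq.L [] 8 (Pf.C 31 4))
 (Pq.cons (Pq.L [] 266 (Pf.C 122 514))
 Pq.nil))))))))) (Pq.cons (Pq.L [] 16 (Pf.C 208 257))
 (Pq.cons (Pq.D 0 (Pq.cons (Pq.L [] 2 (Pf.C 17 256))
 (Pq.cons (Pq.L [] 1 (Pf.C 34 128))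
 (Pq.cons (Pq.L [] 2 (Pf.C 34 2))
 (Pq.cons (Pq.L [] 8 (Pf.C 16 512))
 (Pq.cons (Pq.L [] 8 (Pf.C 32 4))
 (Pq.cons (Pq.L [] 73 (Pf.C 123 16896))
 (Pq.cons (Pq.L [] 8 (Pf.C 31 4))
 (Pq.cons (Pq.L [] 266 (Pf.C 122 514))
 Pq.nil))))))))) (Pq.cons (Pq.L [] 64 (Pf.C 16 513))
 (Pq.cons (Pq.L [] 64 (Pf.C 32 132))
 (Pq.cons (Pq.L [] 16 (Pf.C 22 130))
 (Pq.cons (Pq.L [] 64 (Pf.C 31 132))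
 (Pq.cons (Pq.D 0 (Pq.cons (Pq.L [] 2 (Pf.C 17 256))
 (Pq.cons (Pq.L [] 73 (Pf.C 122 16896))
 (Pq.cons (Pq.L [] 2 (Pf.C 34 2))
 (Pq.cons (Pq.L [] 8 (Pf.C 16 512))
 (Pq.cons (Pq.L [] 8 (Pf.C 32 4))
 (Pq.cons (Pq.L [] 73 (Pf.C 123 16896))
 (Pq.cons (Pq.L [] 8 (Pf.C 31 4))
 (Pq.cons (Pq.L [] 266 (Pf.C 122 514))
 Pq.nil))))))))) Pq.nil))))))))) (Pq.cons (Pq.L [] 128 (Pf.C 12 386))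
 (Pq.cons (Pq.L [] 256 (Pf.C 16 514))
 (Pq.cons (Pq.L [] 128 (Pf.C 11 386))
 (Pq.cons (Pq.L [] 128 (Pf.C 66 386))
 (Pq.cons (Pq.L [] 128 (Pf.C 10 386))
 (Pq.cons (Pq.L [] 128 (Pf.C 10 386))
 Pq.nil))))))))) Pq.nil))))))))) Pq.nil)
theorem f1_o73 : AllRef f1_T f1_G9 (List.take 1 (List.flatMap (splitP 4) (List.drop 4 (List.drop 86 (applyObl f2_T 91 [31,39,41,35,8,9,33,12,13,37,15] [1,2,3,4,5,6,7,8,9,10,11] []))))) :=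
  chkPq_sound f1_o73c _ (by decide +kernel)
noncomputable def f1_o74c : Pq := (Pq.cons (Pq.D 3 (Pq.cons (Pq.L [] 512 (Pf.C 37 515))
 (Pq.cons (Pq.D 2 (Pq.cons (Pq.D 1 (Pq.cons (Pq.L [] 32 (Pf.C 17 385))
 (Pq.cons (Pq.D 0 (Pq.cons (Pq.L [] 1 (Pf.C 17 128))
 (Pq.cons (Pq.L [] 2 (Pf.C 17 2))
 (Pq.cons (Pq.L [] 1 (Pf.C 34 1))
 (Pq.cons (Pq.L [] 2 (Pf.C 15 2))
 (Pq.cons (Pq.L [] 2 (Pf.C 15 2))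
 (Pq.cons (Pq.L [] 266 (Pf.C 92 514))
 (Pq.cons (Pq.L [] 73 (Pf.C 124 132))
 (Pq.cons (Pq.L [] 73 (Pf.C 124 132))
 Pq.nil))))))))) (Pq.cons (Pq.L [] 32 (Pf.C 34 131))
 (Pq.cons (Pq.L [] 336 (Pf.C 83 65666))
 (Pq.cons (Pq.L [] 32 (Pf.C 35 131))
 (Pq.cons (Pq.L [] 336 (Pf.C 111 16644))
 (Pq.cons (Pq.L [] 336 (Pf.C 83 65666))
 (Pq.cons (Pq.L [] 16 (Pf.C 40 130))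
 Pq.nil))))))))) (Pq.cons (Pq.L [] 128 (Pf.C 208 386))
 (Pq.cons (Pq.D 1 (Pq.cons (Pq.L [] 32 (Pf.C 17 385))
 (Pq.cons (Pq.D 0 (Pq.cons (Pq.L [] 1 (Pf.C 17 128))
 (Pq.cons (Pq.L [] 2 (Pf.C 34 256))
 (Pq.cons (Pq.L [] 1 (Pf.C 34 1))
 (Pq.cons (Pq.L [] 73 (Pf.C 92 16896))
 (Pq.cons (Pq.L [] 1 (Pf.C 35 1))
 (Pq.cons (Pq.L [] 73 (Pf.C 127 65537))
 (Pq.cons (Pq.L [] 73 (Pf.C 124 132))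
 (Pq.cons (Pq.L [] 73 (Pf.C 124 132))
 Pq.nil))))))))) (Pq.cons (Pq.L [] 16 (Pf.C 12 257))
 (Pq.cons (Pq.L [] 336 (Pf.C 83 65666))
 (Pq.cons (Pq.L [] 32 (Pf.C 35 131))
 (Pq.cons (Pq.D 0 (Pq.cons (Pq.L [] 4 (Pf.C 17 384))
 (Pq.cons (Pq.L [] 2 (Pf.C 34 256))
 (Pq.cons (Pq.L [] 4 (Pf.C 34 3))
 (Pq.cons (Pq.L [] 73 (Pf.C 92 16896))
 (Pq.cons (Pq.L [] 4 (Pf.C 35 3))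
 (Pq.cons (Pq.L [] 266 (Pf.C 128 514))
 (Pq.cons (Pq.L [] 73 (Pf.C 129 65537))
 (Pq.cons (Pq.L [] 621 (Pf.C 192 65921))
 Pq.nil))))))))) (Pq.cons (Pq.L [] 16 (Pf.C 47 130))
 (Pq.cons (Pq.L [] 16 (Pf.C 12 257))
 Pq.nil))))))))) (Pq.cons (Pq.L [] 128 (Pf.C 22 259))
 (Pq.cons (Pq.D 1 (Pq.cons (Pq.L [] 32 (Pf.C 17 385))
 (Pq.cons (Pq.L [] 336 (Pf.C 95 16644))
 (Pq.cons (Pq.L [] 32 (Pf.C 34 131))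
 (Pq.cons (Pq.L [] 0 (Pf.C 59 257))
 (Pq.cons (Pq.L [] 16 (Pf.C 11 257))
 (Pq.cons (Pq.L [] 16 (Pf.C 63 130))
 (Pq.cons (Pq.L [] 16 (Pf.C 64 130))
 (Pq.cons (Pq.L [] 16 (Pf.C 11 257))
 Pq.nil))))))))) (Pq.cons (Pq.L [] 128 (Pf.C 22 259))
 (Pq.cons (Pq.D 1 (Pq.cons (Pq.L [] 32 (Pf.C 17 385))
 (Pq.cons (Pq.D 0 (Pq.cons (Pq.L [] 1 (Pf.C 17 128))
 (Pq.cons (Pq.L [] 266 (Pf.C 124 32772))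
 (Pq.cons (Pq.L [] 1 (Pf.C 34 1))
 (Pq.cons (Pq.L [] 73 (Pf.C 92 16896))
 (Pq.cons (Pq.L [] 1 (Pf.C 35 1))
 (Pq.cons (Pq.L [] 73 (Pf.C 127 65537))
 (Pq.cons (Pq.L [] 73 (Pf.C 124 132))
 (Pq.cons (Pq.L [] 19 (Pf.C 80 130))
 Pq.nil))))))))) (Pq.cons (Pq.L [] 32 (Pf.C 34 131))
 (Pq.cons (Pq.L [] 16 (Pf.C 61 257))
 (Pq.cons (Pq.L [] 32 (Pf.C 35 131))
 (Pq.cons (Pq.L [] 16 (Pf.C 65 257))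
 (Pq.cons (Pq.L [] 16 (Pf.C 10 257))
 (Pq.cons (Pq.L [] 16 (Pf.C 10 257))
 Pq.nil))))))))) (Pq.cons (Pq.D 1 (Pq.cons (Pq.L [] 32 (Pf.C 17 385))
 (Pq.cons (Pq.D 0 (Pq.cons (Pq.L [] 1 (Pf.C 17 128))
 (Pq.cons (Pq.L [] 266 (Pf.C 124 32772))
 (Pq.cons (Pq.L [] 1 (Pf.C 34 1))
 (Pq.cons (Pq.L [] 73 (Pf.C 92 16896))
 (Pq.cons (Pq.L [] 1 (Pf.C 35 1))
 (Pq.cons (Pq.L [] 73 (Pf.C 127 65537))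
 (Pq.cons (Pq.L [] 73 (Pf.C 124 132))
 (Pq.cons (Pq.L [] 73 (Pf.C 124 132))
 Pq.nil))))))))) (Pq.cons (Pq.L [] 16 (Pf.C 12 257))
 (Pq.cons (Pq.L [] 16 (Pf.C 62 257))
 (Pq.cons (Pq.L [] 16 (Pf.C 11 257))
 (Pq.cons (Pq.L [] 16 (Pf.C 66 257))
 (Pq.cons (Pq.L [] 16 (Pf.C 10 257))
 (Pq.cons (Pq.L [] 16 (Pf.C 10 257))
 Pq.nil))))))))) Pq.nil))))))))) (Pq.cons (Pq.L [] 512 (Pf.C 45 515))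
 (Pq.cons (Pq.D 2 (Pq.cons (Pq.D 1 (Pq.cons (Pq.L [] 32 (Pf.C 15 385))
 (Pq.cons (Pq.D 0 (Pq.cons (Pq.L [] 4 (Pf.C 15 384))
 (Pq.cons (Pq.L [] 2 (Pf.C 17 2))
 (Pq.cons (Pq.L [] 1 (Pf.C 34 1))
 (Pq.cons (Pq.L [] 2 (Pf.C 15 2))
 (Pq.cons (Pq.L [] 2 (Pf.C 15 2))
 (Pq.cons (Pq.L [] 134 (Pf.C 81 259))
 (Pq.cons (Pq.L [] 73 (Pf.C 124 132))
 (Pq.cons (Pq.L [] 73 (Pf.C 124 132))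
 Pq.nil))))))))) (Pq.cons (Pq.L [] 16 (Pf.C 36 130))
 (Pq.cons (Pq.L [] 336 (Pf.C 83 65666))
 (Pq.cons (Pq.L [] 32 (Pf.C 18 131))
 (Pq.cons (Pq.L [] 608 (Pf.C 110 65921))
 (Pq.cons (Pq.L [] 336 (Pf.C 83 65666))
 (Pq.cons (Pq.L [] 16 (Pf.C 40 130))
 Pq.nil))))))))) (Pq.cons (Pq.L [] 128 (Pf.C 22 386))
 (Pq.cons (Pq.D 1 (Pq.cons (Pq.L [] 32 (Pf.C 15 385))
 (Pq.cons (Pq.D 0 (Pq.cons (Pq.L [] 4 (Pf.C 15 384))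
 (Pq.cons (Pq.L [] 2 (Pf.C 34 256))
 (Pq.cons (Pq.L [] 1 (Pf.C 34 1))
 (Pq.cons (Pq.L [] 524 (Pf.C 86 65920))
 (Pq.cons (Pq.L [] 4 (Pf.C 18 3))
 (Pq.cons (Pq.L [] 134 (Pf.C 81 259))
 (Pq.cons (Pq.L [] 73 (Pf.C 124 132))
 (Pq.cons (Pq.L [] 73 (Pf.C 124 132))
 Pq.nil))))))))) (Pq.cons (Pq.L [] 16 (Pf.C 12 257))
 (Pq.cons (Pq.L [] 336 (Pf.C 83 65666))
 (Pq.cons (Pq.L [] 32 (Pf.C 18 131))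
 (Pq.cons (Pq.L [] 608 (Pf.C 110 65921))
 (Pq.cons (Pq.L [] 16 (Pf.C 47 130))
 (Pq.cons (Pq.L [] 16 (Pf.C 12 257))
 Pq.nil))))))))) (Pq.cons (Pq.L [] 128 (Pf.C 214 386))
 (Pq.cons (Pq.L [] 0 (Pf.C 59 259))
 (Pq.cons (Pq.L [] 128 (Pf.C 60 259))
 (Pq.cons (Pq.L [] 128 (Pf.C 61 259))
 (Pq.cons (Pq.L [] 128 (Pf.C 62 259))
 Pq.nil))))))))) (Pq.cons (Pq.L [] 512 (Pf.C 54 388))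
 (Pq.cons (Pq.D 2 (Pq.cons (Pq.D 1 (Pq.cons (Pq.L [] 16 (Pf.C 206 257))
 (Pq.cons (Pq.D 0 (Pq.cons (Pq.L [] 1 (Pf.C 17 128))
 (Pq.cons (Pq.L [] 2 (Pf.C 17 2))
 (Pq.cons (Pq.L [] 1 (Pf.C 34 1))
 (Pq.cons (Pq.L [] 2 (Pf.C 15 2))
 (Pq.cons (Pq.L [] 2 (Pf.C 15 2))
 (Pq.cons (Pq.L [] 266 (Pf.C 92 514))
 (Pq.cons (Pq.L [] 73 (Pf.C 124 132))
 (Pq.cons (Pq.L [] 73 (Pf.C 124 132))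
 Pq.nil))))))))) (Pq.cons (Pq.L [] 16 (Pf.C 36 130))
 (Pq.cons (Pq.L [] 336 (Pf.C 83 65666))
 (Pq.cons (Pq.L [] 0 (Pf.C 39 130))
 (Pq.cons (Pq.L [] 608 (Pf.C 110 65921))
 (Pq.cons (Pq.L [] 336 (Pf.C 83 65666))
 (Pq.cons (Pq.L [] 16 (Pf.C 40 130))
 Pq.nil))))))))) (Pq.cons (Pq.L [] 128 (Pf.C 22 386))
 (Pq.cons (Pq.D 1 (Pq.cons (Pq.L [] 16 (Pf.C 36 257))
 (Pq.cons (Pq.D 0 (Pq.cons (Pq.L [] 1 (Pf.C 17 128))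
 (Pq.cons (Pq.L [] 2 (Pf.C 34 256))
 (Pq.cons (Pq.L [] 1 (Pf.C 34 1))
 (Pq.cons (Pq.L [] 73 (Pf.C 92 16896))
 (Pq.cons (Pq.L [] 1 (Pf.C 35 1))
 (Pq.cons (Pq.L [] 524 (Pf.C 110 65920))
 (Pq.cons (Pq.L [] 73 (Pf.C 124 132))
 (Pq.cons (Pq.L [] 73 (Pf.C 124 132))
 Pq.nil))))))))) (Pq.cons (Pq.L [] 16 (Pf.C 12 257))
 (Pq.cons (Pq.L [] 336 (Pf.C 83 65666))
 (Pq.cons (Pq.L [] 16 (Pf.C 46 130))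
 (Pq.cons (Pq.L [] 608 (Pf.C 110 65921))
 (Pq.cons (Pq.L [] 16 (Pf.C 47 130))
 (Pq.cons (Pq.L [] 16 (Pf.C 12 257))
 Pq.nil))))))))) (Pq.cons (Pq.L [] 128 (Pf.C 60 386))
 (Pq.cons (Pq.L [] 128 (Pf.C 63 386))
 (Pq.cons (Pq.L [] 128 (Pf.C 28 386))
 (Pq.cons (Pq.L [] 128 (Pf.C 65 259))
 (Pq.cons (Pq.L [] 128 (Pf.C 66 259))
 Pq.nil))))))))) (Pq.cons (Pq.D 2 (Pq.cons (Pq.D 1 (Pq.cons (Pq.L [] 16 (Pf.C 206 257))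
 (Pq.cons (Pq.D 0 (Pq.cons (Pq.L [] 1 (Pf.C 17 128))
 (Pq.cons (Pq.L [] 2 (Pf.C 17 2))
 (Pq.cons (Pq.L [] 1 (Pf.C 34 1))
 (Pq.cons (Pq.L [] 2 (Pf.C 15 2))
 (Pq.cons (Pq.L [] 2 (Pf.C 15 2))
 (Pq.cons (Pq.L [] 134 (Pf.C 81 259))
 (Pq.cons (Pq.L [] 73 (Pf.C 124 132))
 (Pq.cons (Pq.L [] 73 (Pf.C 124 132))
 Pq.nil))))))))) (Pq.cons (Pq.L [] 16 (Pf.C 36 130))
 (Pq.cons (Pq.L [] 336 (Pf.C 83 65666))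
 (Pq.cons (Pq.L [] 0 (Pf.C 39 130))
 (Pq.cons (Pq.L [] 336 (Pf.C 111 16644))
 (Pq.cons (Pq.L [] 336 (Pf.C 83 65666))
 (Pq.cons (Pq.L [] 16 (Pf.C 40 130))
 Pq.nil))))))))) (Pq.cons (Pq.D 1 (Pq.cons (Pq.D 0 (Pq.cons (Pq.L [] 2 (Pf.C 17 256))
 (Pq.cons (Pq.L [] 1 (Pf.C 17 1))
 (Pq.cons (Pq.L [] 2 (Pf.C 34 2))
 (Pq.cons (Pq.L [] 1 (Pf.C 15 1))
 (Pq.cons (Pq.L [] 1 (Pf.C 15 1))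
 (Pq.cons (Pq.L [] 73 (Pf.C 92 513))
 (Pq.cons (Pq.L [] 266 (Pf.C 124 260))
 (Pq.cons (Pq.L [] 134 (Pf.C 80 259))
 Pq.nil))))))))) (Pq.cons (Pq.L [] 16 (Pf.C 208 257))
 (Pq.cons (Pq.D 0 (Pq.cons (Pq.L [] 2 (Pf.C 17 256))
 (Pq.cons (Pq.L [] 1 (Pf.C 34 128))
 (Pq.cons (Pq.L [] 2 (Pf.C 34 2))
 (Pq.cons (Pq.L [] 266 (Pf.C 92 33280))
 (Pq.cons (Pq.L [] 2 (Pf.C 35 2))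
 (Pq.cons (Pq.L [] 266 (Pf.C 127 65538))
 (Pq.cons (Pq.L [] 266 (Pf.C 124 260))
 (Pq.cons (Pq.L [] 134 (Pf.C 80 259))
 Pq.nil))))))))) (Pq.cons (Pq.L [] 16 (Pf.C 22 130))
 (Pq.cons (Pq.L [] 336 (Pf.C 95 32900))
 (Pq.cons (Pq.L [] 16 (Pf.C 22 130))
 (Pq.cons (Pq.D 0 (Pq.cons (Pq.L [] 2 (Pf.C 17 256))
 (Pq.cons (Pq.L [] 73 (Pf.C 124 16388))
 (Pq.cons (Pq.L [] 2 (Pf.C 34 2))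
 (Pq.cons (Pq.L [] 266 (Pf.C 92 33280))
 (Pq.cons (Pq.L [] 2 (Pf.C 35 2))
 (Pq.cons (Pq.L [] 266 (Pf.C 127 65538))
 (Pq.cons (Pq.L [] 266 (Pf.C 124 260))
 (Pq.cons (Pq.L [] 19 (Pf.C 80 257))
 Pq.nil))))))))) (Pq.cons (Pq.D 0 (Pq.cons (Pq.L [] 2 (Pf.C 17 256))
 (Pq.cons (Pq.L [] 73 (Pf.C 124 16388))
 (Pq.cons (Pq.L [] 2 (Pf.C 34 2))
 (Pq.cons (Pq.L [] 266 (Pf.C 92 33280))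
 (Pq.cons (Pq.L [] 2 (Pf.C 35 2))
 (Pq.cons (Pq.L [] 266 (Pf.C 127 65538))
 (Pq.cons (Pq.L [] 266 (Pf.C 124 260))
 (Pq.cons (Pq.L [] 134 (Pf.C 80 259))
 Pq.nil))))))))) Pq.nil))))))))) (Pq.cons (Pq.L [] 128 (Pf.C 47 386))
 (Pq.cons (Pq.L [] 128 (Pf.C 61 386))
 (Pq.cons (Pq.L [] 128 (Pf.C 64 386))
 (Pq.cons (Pq.L [] 128 (Pf.C 65 386))
 (Pq.cons (Pq.L [] 128 (Pf.C 10 386))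
 (Pq.cons (Pq.L [] 128 (Pf.C 10 386))
 Pq.nil))))))))) (Pq.cons (Pq.L [] 512 (Pf.C 55 388))
 Pq.nil))))))))) (Pq.cons (Pq.D 3 (Pq.cons (Pq.D 2 (Pq.cons (Pq.L [] 128 (Pf.C 206 386))
 (Pq.cons (Pq.D 1 (Pq.cons (Pq.D 0 (Pq.cons (Pq.L [] 2 (Pf.C 17 256))
 (Pq.cons (Pq.L [] 1 (Pf.C 17 1))
 (Pq.cons (Pq.L [] 2 (Pf.C 34 2))
 (Pq.cons (Pq.L [] 1 (Pf.C 15 1))
 (Pq.cons (Pq.L [] 1 (Pf.C 15 1))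
 (Pq.cons (Pq.L [] 524 (Pf.C 103 49664))
 (Pq.cons (Pq.L [] 73 (Pf.C 121 65537))
 (Pq.cons (Pq.L [] 73 (Pf.C 121 65537))
 Pq.nil))))))))) (Pq.cons (Pq.L [] 32 (Pf.C 17 131))
 (Pq.cons (Pq.L [] 608 (Pf.C 107 16899))
 (Pq.cons (Pq.L [] 32 (Pf.C 15 131))
 (Pq.cons (Pq.L [] 32 (Pf.C 15 131))
 (Pq.cons (Pq.L [] 16 (Pf.C 22 130))
 (Pq.cons (Pq.L [] 336 (Pf.C 116 65666))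
 (Pq.cons (Pq.D 0 (Pq.cons (Pq.L [] 2 (Pf.C 17 256))
 (Pq.cons (Pq.L [] 4 (Pf.C 17 3))
 (Pq.cons (Pq.L [] 2 (Pf.C 34 2))
 (Pq.cons (Pq.L [] 4 (Pf.C 15 3))
 (Pq.cons (Pq.L [] 4 (Pf.C 15 3))
 (Pq.cons (Pq.L [] 524 (Pf.C 103 49664))
 (Pq.cons (Pq.L [] 73 (Pf.C 126 65664))
 (Pq.cons (Pq.L [] 266 (Pf.C 122 514))
 Pq.nil))))))))) Pq.nil))))))))) (Pq.cons (Pq.L [] 128 (Pf.C 36 259))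
 (Pq.cons (Pq.D 1 (Pq.cons (Pq.D 0 (Pq.cons (Pq.L [] 2 (Pf.C 15 256))
 (Pq.cons (Pq.L [] 1 (Pf.C 17 1))
 (Pq.cons (Pq.L [] 524 (Pf.C 107 515))
 (Pq.cons (Pq.L [] 1 (Pf.C 15 1))
 (Pq.cons (Pq.L [] 1 (Pf.C 15 1))
 (Pq.cons (Pq.L [] 19 (Pf.C 81 130))
 (Pq.cons (Pq.L [] 73 (Pf.C 121 65537))
 (Pq.cons (Pq.L [] 73 (Pf.C 121 65537))
 Pq.nil))))))))) (Pq.cons (Pq.L [] 32 (Pf.C 17 131))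
 (Pq.cons (Pq.L [] 608 (Pf.C 107 16899))
 (Pq.cons (Pq.L [] 32 (Pf.C 15 131))
 (Pq.cons (Pq.L [] 32 (Pf.C 15 131))
 (Pq.cons (Pq.L [] 16 (Pf.C 60 130))
 (Pq.cons (Pq.L [] 16 (Pf.C 61 130))
 (Pq.cons (Pq.L [] 16 (Pf.C 62 130))
 Pq.nil))))))))) (Pq.cons (Pq.L [] 0 (Pf.C 39 259))
 (Pq.cons (Pq.D 1 (Pq.cons (Pq.D 0 (Pq.cons (Pq.L [] 19 (Pf.C 85 32896))
 (Pq.cons (Pq.L [] 1 (Pf.C 17 1))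
 (Pq.cons (Pq.L [] 524 (Pf.C 107 515))
 (Pq.cons (Pq.L [] 1 (Pf.C 15 1))
 (Pq.cons (Pq.L [] 1 (Pf.C 15 1))
 (Pq.cons (Pq.L [] 524 (Pf.C 103 49664))
 (Pq.cons (Pq.L [] 73 (Pf.C 121 65537))
 (Pq.cons (Pq.L [] 73 (Pf.C 121 65537))
 Pq.nil))))))))) (Pq.cons (Pq.L [] 32 (Pf.C 17 131))
 (Pq.cons (Pq.L [] 608 (Pf.C 107 16899))
 (Pq.cons (Pq.L [] 32 (Pf.C 15 131))
 (Pq.cons (Pq.L [] 32 (Pf.C 15 131))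
 (Pq.cons (Pq.L [] 16 (Pf.C 28 257))
 (Pq.cons (Pq.L [] 16 (Pf.C 65 130))
 (Pq.cons (Pq.L [] 16 (Pf.C 66 130))
 Pq.nil))))))))) (Pq.cons (Pq.D 1 (Pq.cons (Pq.D 0 (Pq.cons (Pq.L [] 266 (Pf.C 121 65792))
 (Pq.cons (Pq.L [] 1 (Pf.C 17 1))
 (Pq.cons (Pq.L [] 524 (Pf.C 107 515))
 (Pq.cons (Pq.L [] 1 (Pf.C 15 1))
 (Pq.cons (Pq.L [] 1 (Pf.C 15 1))
 (Pq.cons (Pq.L [] 19 (Pf.C 81 130))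
 (Pq.cons (Pq.L [] 73 (Pf.C 121 65537))
 (Pq.cons (Pq.L [] 73 (Pf.C 121 65537))
 Pq.nil))))))))) (Pq.cons (Pq.L [] 32 (Pf.C 17 131))
 (Pq.cons (Pq.L [] 16 (Pf.C 47 257))
 (Pq.cons (Pq.L [] 32 (Pf.C 15 131))
 (Pq.cons (Pq.L [] 32 (Pf.C 15 131))
 (Pq.cons (Pq.L [] 16 (Pf.C 65 257))
 (Pq.cons (Pq.L [] 16 (Pf.C 10 257))
 (Pq.cons (Pq.L [] 16 (Pf.C 10 257))
 Pq.nil))))))))) (Pq.cons (Pq.L [] 128 (Pf.C 40 259))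
 Pq.nil))))))))) (Pq.cons (Pq.L [] 512 (Pf.C 41 515))
 (Pq.cons (Pq.D 2 (Pq.cons (Pq.L [] 128 (Pf.C 36 386))
 (Pq.cons (Pq.D 1 (Pq.cons (Pq.D 0 (Pq.cons (Pq.L [] 2 (Pf.C 17 256))
 (Pq.cons (Pq.L [] 1 (Pf.C 17 1))
 (Pq.cons (Pq.L [] 2 (Pf.C 34 2))
 (Pq.cons (Pq.L [] 1 (Pf.C 15 1))
 (Pq.cons (Pq.L [] 1 (Pf.C 15 1))
 (Pq.cons (Pq.L [] 37 (Pf.C 91 49153))
 (Pq.cons (Pq.L [] 73 (Pf.C 121 65537))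
 (Pq.cons (Pq.L [] 73 (Pf.C 121 65537))
 Pq.nil))))))))) (Pq.cons (Pq.L [] 32 (Pf.C 34 385))
 (Pq.cons (Pq.D 0 (Pq.cons (Pq.L [] 2 (Pf.C 17 256))
 (Pq.cons (Pq.L [] 1 (Pf.C 34 128))
 (Pq.cons (Pq.L [] 2 (Pf.C 34 2))
 (Pq.cons (Pq.L [] 73 (Pf.C 121 65537))
 (Pq.cons (Pq.L [] 2 (Pf.C 35 2))
 (Pq.cons (Pq.L [] 73 (Pf.C 123 16896))
 (Pq.cons (Pq.L [] 73 (Pf.C 121 65537))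
 (Pq.cons (Pq.L [] 73 (Pf.C 121 65537))
 Pq.nil))))))))) (Pq.cons (Pq.L [] 16 (Pf.C 22 130))
 (Pq.cons (Pq.D 0 (Pq.cons (Pq.L [] 1 (Pf.C 15 128))
 (Pq.cons (Pq.L [] 4 (Pf.C 34 384))
 (Pq.cons (Pq.L [] 2 (Pf.C 34 2))
 (Pq.cons (Pq.L [] 1 (Pf.C 18 128))
 (Pq.cons (Pq.L [] 2 (Pf.C 35 2))
 (Pq.cons (Pq.L [] 37 (Pf.C 125 49280))
 (Pq.cons (Pq.L [] 73 (Pf.C 126 65664))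
 (Pq.cons (Pq.L [] 266 (Pf.C 122 514))
 Pq.nil))))))))) (Pq.cons (Pq.L [] 16 (Pf.C 22 130))
 (Pq.cons (Pq.L [] 336 (Pf.C 116 65666))
 (Pq.cons (Pq.D 0 (Pq.cons (Pq.L [] 2 (Pf.C 17 256))
 (Pq.cons (Pq.L [] 4 (Pf.C 34 384))
 (Pq.cons (Pq.L [] 2 (Pf.C 34 2))
 (Pq.cons (Pq.L [] 73 (Pf.C 123 16896))
 (Pq.cons (Pq.L [] 2 (Pf.C 35 2))
 (Pq.cons (Pq.L [] 73 (Pf.C 123 16896))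
 (Pq.cons (Pq.L [] 73 (Pf.C 126 65664))
 (Pq.cons (Pq.L [] 266 (Pf.C 122 514))
 Pq.nil))))))))) Pq.nil))))))))) (Pq.cons (Pq.L [] 128 (Pf.C 12 386))
 (Pq.cons (Pq.D 1 (Pq.cons (Pq.D 0 (Pq.cons (Pq.L [] 2 (Pf.C 15 256))
 (Pq.cons (Pq.L [] 1 (Pf.C 17 1))
 (Pq.cons (Pq.L [] 266 (Pf.C 121 65792))
 (Pq.cons (Pq.L [] 1 (Pf.C 15 1))
 (Pq.cons (Pq.L [] 1 (Pf.C 15 1))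
 (Pq.cons (Pq.L [] 19 (Pf.C 81 130))
 (Pq.cons (Pq.L [] 73 (Pf.C 121 65537))
 (Pq.cons (Pq.L [] 73 (Pf.C 121 65537))
 Pq.nil))))))))) (Pq.cons (Pq.L [] 16 (Pf.C 22 257))
 (Pq.cons (Pq.D 0 (Pq.cons (Pq.L [] 2 (Pf.C 15 256))
 (Pq.cons (Pq.L [] 1 (Pf.C 34 128))
 (Pq.cons (Pq.L [] 266 (Pf.C 121 65792))
 (Pq.cons (Pq.L [] 73 (Pf.C 121 65537))
 (Pq.cons (Pq.L [] 2 (Pf.C 18 2))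
 (Pq.cons (Pq.L [] 19 (Pf.C 81 130))
 (Pq.cons (Pq.L [] 73 (Pf.C 121 65537))
 (Pq.cons (Pq.L [] 73 (Pf.C 121 65537))
 Pq.nil))))))))) (Pq.cons (Pq.L [] 16 (Pf.C 214 257))
 (Pq.cons (Pq.L [] 0 (Pf.C 59 130))
 (Pq.cons (Pq.L [] 16 (Pf.C 60 130))
 (Pq.cons (Pq.L [] 16 (Pf.C 61 130))
 (Pq.cons (Pq.L [] 16 (Pf.C 62 130))
 Pq.nil))))))))) (Pq.cons (Pq.L [] 128 (Pf.C 46 259))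
 (Pq.cons (Pq.D 1 (Pq.cons (Pq.D 0 (Pq.cons (Pq.L [] 19 (Pf.C 85 32896))
 (Pq.cons (Pq.L [] 1 (Pf.C 17 1))
 (Pq.cons (Pq.L [] 266 (Pf.C 123 514))
 (Pq.cons (Pq.L [] 1 (Pf.C 15 1))
 (Pq.cons (Pq.L [] 1 (Pf.C 15 1))
 (Pq.cons (Pq.L [] 37 (Pf.C 91 49153))
 (Pq.cons (Pq.L [] 73 (Pf.C 121 65537))
 (Pq.cons (Pq.L [] 73 (Pf.C 121 65537))
 Pq.nil))))))))) (Pq.cons (Pq.L [] 16 (Pf.C 22 257))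
 (Pq.cons (Pq.D 0 (Pq.cons (Pq.L [] 347 (Pf.C 191 0x808080))
 (Pq.cons (Pq.L [] 1 (Pf.C 34 128))
 (Pq.cons (Pq.L [] 266 (Pf.C 123 514))
 (Pq.cons (Pq.L [] 73 (Pf.C 121 65537))
 (Pq.cons (Pq.L [] 73 (Pf.C 121 65537))
 (Pq.cons (Pq.L [] 73 (Pf.C 123 16896))
 (Pq.cons (Pq.L [] 73 (Pf.C 121 65537))
 (Pq.cons (Pq.L [] 73 (Pf.C 121 65537))
 Pq.nil))))))))) (Pq.cons (Pq.L [] 16 (Pf.C 60 257))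
 (Pq.cons (Pq.L [] 16 (Pf.C 63 257))
 (Pq.cons (Pq.L [] 16 (Pf.C 28 257))
 (Pq.cons (Pq.L [] 16 (Pf.C 65 130))
 (Pq.cons (Pq.L [] 16 (Pf.C 66 130))
 Pq.nil))))))))) (Pq.cons (Pq.L [] 128 (Pf.C 47 259))
 (Pq.cons (Pq.L [] 128 (Pf.C 12 386))
 Pq.nil))))))))) (Pq.cons (Pq.D 2 (Pq.cons (Pq.D 1 (Pq.cons (Pq.L [] 32 (Pf.C 15 385))
 (Pq.cons (Pq.D 0 (Pq.cons (Pq.L [] 4 (Pf.C 15 384))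
 (Pq.cons (Pq.L [] 2 (Pf.C 17 2))
 (Pq.cons (Pq.L [] 1 (Pf.C 34 1))
 (Pq.cons (Pq.L [] 2 (Pf.C 15 2))
 (Pq.cons (Pq.L [] 2 (Pf.C 15 2))
 (Pq.cons (Pq.L [] 134 (Pf.C 81 259))
 (Pq.cons (Pq.L [] 524 (Pf.C 118 515))
 (Pq.cons (Pq.L [] 266 (Pf.C 121 65538))
 Pq.nil))))))))) (Pq.cons (Pq.L [] 16 (Pf.C 36 130))
 (Pq.cons (Pq.D 0 (Pq.cons (Pq.L [] 1 (Pf.C 15 128))
 (Pq.cons (Pq.L [] 2 (Pf.C 17 2))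
 (Pq.cons (Pq.L [] 73 (Pf.C 121 65664))
 (Pq.cons (Pq.L [] 2 (Pf.C 15 2))
 (Pq.cons (Pq.L [] 2 (Pf.C 15 2))
 (Pq.cons (Pq.L [] 19 (Pf.C 81 257))
 (Pq.cons (Pq.L [] 524 (Pf.C 118 515))
 (Pq.cons (Pq.L [] 266 (Pf.C 121 65538))
 Pq.nil))))))))) (Pq.cons (Pq.L [] 32 (Pf.C 18 131))
 (Pq.cons (Pq.D 0 (Pq.cons (Pq.L [] 4 (Pf.C 15 384))
 (Pq.cons (Pq.L [] 2 (Pf.C 17 2))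
 (Pq.cons (Pq.L [] 73 (Pf.C 123 513))
 (Pq.cons (Pq.L [] 2 (Pf.C 15 2))
 (Pq.cons (Pq.L [] 2 (Pf.C 15 2))
 (Pq.cons (Pq.L [] 134 (Pf.C 81 259))
 (Pq.cons (Pq.L [] 524 (Pf.C 118 515))
 (Pq.cons (Pq.L [] 266 (Pf.C 121 65538))
 Pq.nil))))))))) (Pq.cons (Pq.L [] 608 (Pf.C 118 16899))
 (Pq.cons (Pq.L [] 16 (Pf.C 40 130))
 Pq.nil))))))))) (Pq.cons (Pq.L [] 128 (Pf.C 22 386))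
 (Pq.cons (Pq.D 1 (Pq.cons (Pq.L [] 32 (Pf.C 15 385))
 (Pq.cons (Pq.D 0 (Pq.cons (Pq.L [] 4 (Pf.C 15 384))
 (Pq.cons (Pq.L [] 2 (Pf.C 34 256))
 (Pq.cons (Pq.L [] 1 (Pf.C 34 1))
 (Pq.cons (Pq.L [] 266 (Pf.C 121 65538))
 (Pq.cons (Pq.L [] 4 (Pf.C 18 3))
 (Pq.cons (Pq.L [] 134 (Pf.C 81 259))
 (Pq.cons (Pq.L [] 524 (Pf.C 118 515))
 (Pq.cons (Pq.L [] 266 (Pf.C 121 65538))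
 Pq.nil))))))))) (Pq.cons (Pq.L [] 16 (Pf.C 12 257))
 (Pq.cons (Pq.D 0 (Pq.cons (Pq.L [] 1 (Pf.C 15 128))
 (Pq.cons (Pq.L [] 2 (Pf.C 34 256))
 (Pq.cons (Pq.L [] 73 (Pf.C 121 65664))
 (Pq.cons (Pq.L [] 266 (Pf.C 121 65538))
 (Pq.cons (Pq.L [] 1 (Pf.C 18 1))
 (Pq.cons (Pq.L [] 19 (Pf.C 81 257))
 (Pq.cons (Pq.L [] 524 (Pf.C 118 515))
 (Pq.cons (Pq.L [] 266 (Pf.C 121 65538))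
 Pq.nil))))))))) (Pq.cons (Pq.L [] 32 (Pf.C 18 131))
 (Pq.cons (Pq.D 0 (Pq.cons (Pq.L [] 4 (Pf.C 15 384))
 (Pq.cons (Pq.L [] 2 (Pf.C 34 256))
 (Pq.cons (Pq.L [] 73 (Pf.C 123 513))
 (Pq.cons (Pq.L [] 266 (Pf.C 121 65538))
 (Pq.cons (Pq.L [] 4 (Pf.C 18 3))
 (Pq.cons (Pq.L [] 134 (Pf.C 81 259))
 (Pq.cons (Pq.L [] 524 (Pf.C 118 515))
 (Pq.cons (Pq.L [] 266 (Pf.C 121 65538))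
 Pq.nil))))))))) (Pq.cons (Pq.L [] 16 (Pf.C 47 130))
 (Pq.cons (Pq.L [] 16 (Pf.C 12 257))
 Pq.nil))))))))) (Pq.cons (Pq.L [] 128 (Pf.C 214 386))
 (Pq.cons (Pq.L [] 0 (Pf.C 59 259))
 (Pq.cons (Pq.L [] 128 (Pf.C 60 259))
 (Pq.cons (Pq.L [] 128 (Pf.C 61 259))
 (Pq.cons (Pq.L [] 128 (Pf.C 62 259))
 Pq.nil))))))))) (Pq.cons (Pq.D 2 (Pq.cons (Pq.L [] 0 (Pf.C 39 386))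
 (Pq.cons (Pq.D 1 (Pq.cons (Pq.L [] 32 (Pf.C 15 385))
 (Pq.cons (Pq.L [] 32 (Pf.C 35 385))
 (Pq.cons (Pq.D 0 (Pq.cons (Pq.L [] 4 (Pf.C 15 384))
 (Pq.cons (Pq.L [] 1 (Pf.C 34 128))
 (Pq.cons (Pq.L [] 2 (Pf.C 34 2))
 (Pq.cons (Pq.L [] 4 (Pf.C 18 384))
 (Pq.cons (Pq.L [] 2 (Pf.C 35 2))
 (Pq.cons (Pq.L [] 524 (Pf.C 103 49664))
 (Pq.cons (Pq.L [] 73 (Pf.C 121 65537))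
 (Pq.cons (Pq.L [] 73 (Pf.C 121 65537))
 Pq.nil))))))))) (Pq.cons (Pq.L [] 32 (Pf.C 18 385))
 (Pq.cons (Pq.D 0 (Pq.cons (Pq.L [] 1 (Pf.C 15 128))
 (Pq.cons (Pq.L [] 1 (Pf.C 35 128))
 (Pq.cons (Pq.L [] 2 (Pf.C 34 2))
 (Pq.cons (Pq.L [] 1 (Pf.C 18 128))
 (Pq.cons (Pq.L [] 2 (Pf.C 35 2))
 (Pq.cons (Pq.L [] 524 (Pf.C 103 49664))
 (Pq.cons (Pq.L [] 73 (Pf.C 126 65664))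
 (Pq.cons (Pq.L [] 266 (Pf.C 122 514))
 Pq.nil))))))))) (Pq.cons (Pq.L [] 16 (Pf.C 22 130))
 (Pq.cons (Pq.L [] 336 (Pf.C 116 65666))
 (Pq.cons (Pq.D 0 (Pq.cons (Pq.L [] 4 (Pf.C 15 384))
 (Pq.cons (Pq.L [] 4 (Pf.C 35 384))
 (Pq.cons (Pq.L [] 2 (Pf.C 34 2))
 (Pq.cons (Pq.L [] 4 (Pf.C 18 384))
 (Pq.cons (Pq.L [] 2 (Pf.C 35 2))
 (Pq.cons (Pq.L [] 524 (Pf.C 103 49664))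
 (Pq.cons (Pq.L [] 73 (Pf.C 126 65664))
 (Pq.cons (Pq.L [] 266 (Pf.C 122 514))
 Pq.nil))))))))) Pq.nil))))))))) (Pq.cons (Pq.L [] 128 (Pf.C 46 386))
 (Pq.cons (Pq.L [] 0 (Pf.C 59 386))
 (Pq.cons (Pq.L [] 128 (Pf.C 11 386))
 (Pq.cons (Pq.L [] 128 (Pf.C 63 259))
 (Pq.cons (Pq.L [] 128 (Pf.C 64 259))
 (Pq.cons (Pq.L [] 128 (Pf.C 11 386))
 Pq.nil))))))))) (Pq.cons (Pq.L [] 512 (Pf.C 56 388))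
 (Pq.cons (Pq.D 2 (Pq.cons (Pq.D 1 (Pq.cons (Pq.L [] 16 (Pf.C 206 257))
 (Pq.cons (Pq.D 0 (Pq.cons (Pq.L [] 1 (Pf.C 17 128))
 (Pq.cons (Pq.L [] 2 (Pf.C 17 2))
 (Pq.cons (Pq.L [] 1 (Pf.C 34 1))
 (Pq.cons (Pq.L [] 2 (Pf.C 15 2))
 (Pq.cons (Pq.L [] 2 (Pf.C 15 2))
 (Pq.cons (Pq.L [] 134 (Pf.C 81 259))
 (Pq.cons (Pq.L [] 266 (Pf.C 121 65538))
 (Pq.cons (Pq.L [] 266 (Pf.C 121 65538))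
 Pq.nil))))))))) (Pq.cons (Pq.L [] 16 (Pf.C 36 130))
 (Pq.cons (Pq.D 0 (Pq.cons (Pq.L [] 1 (Pf.C 15 128))
 (Pq.cons (Pq.L [] 2 (Pf.C 17 2))
 (Pq.cons (Pq.L [] 73 (Pf.C 121 65664))
 (Pq.cons (Pq.L [] 2 (Pf.C 15 2))
 (Pq.cons (Pq.L [] 2 (Pf.C 15 2))
 (Pq.cons (Pq.L [] 19 (Pf.C 81 257))
 (Pq.cons (Pq.L [] 266 (Pf.C 121 65538))
 (Pq.cons (Pq.L [] 266 (Pf.C 121 65538))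
 Pq.nil))))))))) (Pq.cons (Pq.L [] 0 (Pf.C 39 130))
 (Pq.cons (Pq.D 0 (Pq.cons (Pq.L [] 19 (Pf.C 85 16640))
 (Pq.cons (Pq.L [] 2 (Pf.C 17 2))
 (Pq.cons (Pq.L [] 73 (Pf.C 123 513))
 (Pq.cons (Pq.L [] 2 (Pf.C 15 2))
 (Pq.cons (Pq.L [] 2 (Pf.C 15 2))
 (Pq.cons (Pq.L [] 134 (Pf.C 81 259))
 (Pq.cons (Pq.L [] 266 (Pf.C 121 65538))
 (Pq.cons (Pq.L [] 266 (Pf.C 121 65538))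
 Pq.nil))))))))) (Pq.cons (Pq.D 0 (Pq.cons (Pq.L [] 73 (Pf.C 121 65664))
 (Pq.cons (Pq.L [] 2 (Pf.C 17 2))
 (Pq.cons (Pq.L [] 73 (Pf.C 121 65664))
 (Pq.cons (Pq.L [] 2 (Pf.C 15 2))
 (Pq.cons (Pq.L [] 2 (Pf.C 15 2))
 (Pq.cons (Pq.L [] 19 (Pf.C 81 257))
 (Pq.cons (Pq.L [] 266 (Pf.C 121 65538))
 (Pq.cons (Pq.L [] 266 (Pf.C 121 65538))
 Pq.nil))))))))) (Pq.cons (Pq.L [] 16 (Pf.C 40 130))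
 Pq.nil))))))))) (Pq.cons (Pq.D 1 (Pq.cons (Pq.D 0 (Pq.cons (Pq.L [] 2 (Pf.C 17 256))
 (Pq.cons (Pq.L [] 1 (Pf.C 17 1))
 (Pq.cons (Pq.L [] 2 (Pf.C 34 2))
 (Pq.cons (Pq.L [] 1 (Pf.C 15 1))
 (Pq.cons (Pq.L [] 1 (Pf.C 15 1))
 (Pq.cons (Pq.L [] 183 (Pf.C 183 0x608080))
 (Pq.cons (Pq.L [] 73 (Pf.C 121 65537))
 (Pq.cons (Pq.L [] 134 (Pf.C 80 259))
 Pq.nil))))))))) (Pq.cons (Pq.L [] 16 (Pf.C 208 257))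
 (Pq.cons (Pq.D 0 (Pq.cons (Pq.L [] 2 (Pf.C 17 256))
 (Pq.cons (Pq.L [] 1 (Pf.C 34 128))
 (Pq.cons (Pq.L [] 2 (Pf.C 34 2))
 (Pq.cons (Pq.L [] 73 (Pf.C 121 65537))
 (Pq.cons (Pq.L [] 2 (Pf.C 35 2))
 (Pq.cons (Pq.L [] 73 (Pf.C 123 16896))
 (Pq.cons (Pq.L [] 73 (Pf.C 121 65537))
 (Pq.cons (Pq.L [] 134 (Pf.C 80 259))
 Pq.nil))))))))) (Pq.cons (Pq.L [] 16 (Pf.C 22 130))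
 (Pq.cons (Pq.D 0 (Pq.cons (Pq.L [] 1 (Pf.C 15 128))
 (Pq.cons (Pq.L [] 1 (Pf.C 35 128))
 (Pq.cons (Pq.L [] 2 (Pf.C 34 2))
 (Pq.cons (Pq.L [] 1 (Pf.C 18 128))
 (Pq.cons (Pq.L [] 2 (Pf.C 35 2))
 (Pq.cons (Pq.L [] 183 (Pf.C 183 0x608080))
 (Pq.cons (Pq.L [] 73 (Pf.C 126 65664))
 (Pq.cons (Pq.L [] 134 (Pf.C 80 259))
 Pq.nil))))))))) (Pq.cons (Pq.L [] 16 (Pf.C 22 130))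
 (Pq.cons (Pq.L [] 336 (Pf.C 116 65666))
 (Pq.cons (Pq.D 0 (Pq.cons (Pq.L [] 2 (Pf.C 17 256))
 (Pq.cons (Pq.L [] 73 (Pf.C 122 16896))
 (Pq.cons (Pq.L [] 2 (Pf.C 34 2))
 (Pq.cons (Pq.L [] 73 (Pf.C 123 16896))
 (Pq.cons (Pq.L [] 2 (Pf.C 35 2))
 (Pq.cons (Pq.L [] 73 (Pf.C 123 16896))
 (Pq.cons (Pq.L [] 73 (Pf.C 126 65664))
 (Pq.cons (Pq.L [] 134 (Pf.C 80 259))
 Pq.nil))))))))) Pq.nil))))))))) (Pq.cons (Pq.L [] 128 (Pf.C 47 386))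
 (Pq.cons (Pq.L [] 128 (Pf.C 61 386))
 (Pq.cons (Pq.L [] 128 (Pf.C 64 386))
 (Pq.cons (Pq.L [] 128 (Pf.C 65 386))
 (Pq.cons (Pq.L [] 128 (Pf.C 10 386))
 (Pq.cons (Pq.L [] 128 (Pf.C 10 386))
 Pq.nil))))))))) (Pq.cons (Pq.D 2 (Pq.cons (Pq.L [] 128 (Pf.C 40 386))
 (Pq.cons (Pq.D 1 (Pq.cons (Pq.D 0 (Pq.cons (Pq.L [] 2 (Pf.C 17 256))
 (Pq.cons (Pq.L [] 1 (Pf.C 17 1))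
 (Pq.cons (Pq.L [] 2 (Pf.C 34 2))
 (Pq.cons (Pq.L [] 1 (Pf.C 15 1))
 (Pq.cons (Pq.L [] 1 (Pf.C 15 1))
 (Pq.cons (Pq.L [] 37 (Pf.C 125 49280))
 (Pq.cons (Pq.L [] 73 (Pf.C 121 65537))
 (Pq.cons (Pq.L [] 73 (Pf.C 121 65537))
 Pq.nil))))))))) (Pq.cons (Pq.L [] 16 (Pf.C 208 257))
 (Pq.cons (Pq.D 0 (Pq.cons (Pq.L [] 2 (Pf.C 17 256))
 (Pq.cons (Pq.L [] 1 (Pf.C 34 128))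
 (Pq.cons (Pq.L [] 2 (Pf.C 34 2))
 (Pq.cons (Pq.L [] 73 (Pf.C 121 65537))
 (Pq.cons (Pq.L [] 2 (Pf.C 35 2))
 (Pq.cons (Pq.L [] 73 (Pf.C 123 16896))
 (Pq.cons (Pq.L [] 73 (Pf.C 121 65537))
 (Pq.cons (Pq.L [] 73 (Pf.C 121 65537))
 Pq.nil))))))))) (Pq.cons (Pq.L [] 16 (Pf.C 22 130))
 (Pq.cons (Pq.D 0 (Pq.cons (Pq.L [] 1 (Pf.C 15 128))
 (Pq.cons (Pq.L [] 1 (Pf.C 35 128))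
 (Pq.cons (Pq.L [] 2 (Pf.C 34 2))
 (Pq.cons (Pq.L [] 1 (Pf.C 18 128))
 (Pq.cons (Pq.L [] 2 (Pf.C 35 2))
 (Pq.cons (Pq.L [] 37 (Pf.C 125 49280))
 (Pq.cons (Pq.L [] 73 (Pf.C 126 65664))
 (Pq.cons (Pq.L [] 266 (Pf.C 122 514))
 Pq.nil))))))))) (Pq.cons (Pq.L [] 16 (Pf.C 22 130))
 (Pq.cons (Pq.L [] 336 (Pf.C 116 65666))
 (Pq.cons (Pq.D 0 (Pq.cons (Pq.L [] 2 (Pf.C 17 256))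
 (Pq.cons (Pq.L [] 73 (Pf.C 122 16896))
 (Pq.cons (Pq.L [] 2 (Pf.C 34 2))
 (Pq.cons (Pq.L [] 73 (Pf.C 123 16896))
 (Pq.cons (Pq.L [] 2 (Pf.C 35 2))
 (Pq.cons (Pq.L [] 73 (Pf.C 123 16896))
 (Pq.cons (Pq.L [] 73 (Pf.C 126 65664))
 (Pq.cons (Pq.L [] 266 (Pf.C 122 514))
 Pq.nil))))))))) Pq.nil))))))))) (Pq.cons (Pq.L [] 128 (Pf.C 12 386))
 (Pq.cons (Pq.L [] 128 (Pf.C 62 386))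
 (Pq.cons (Pq.L [] 128 (Pf.C 11 386))
 (Pq.cons (Pq.L [] 128 (Pf.C 66 386))
 (Pq.cons (Pq.L [] 128 (Pf.C 10 386))
 (Pq.cons (Pq.L [] 128 (Pf.C 10 386))
 Pq.nil))))))))) Pq.nil))))))))) Pq.nil))
theorem f1_o74 : AllRef f1_T f1_G9 (List.drop 1 (List.flatMap (splitP 4) (List.drop 4 (List.drop 86 (applyObl f2_T 91 [31,39,41,35,8,9,33,12,13,37,15] [1,2,3,4,5,6,7,8,9,10,11] []))))) :=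
  chkPq_sound f1_o74c _ (by decide +kernel)
noncomputable def f1_o75c : Pq := (Pq.cons (Pq.L [] 1 (Pf.C 23 1))
 (Pq.cons (Pq.L [] 3 (Pf.B 2 1 (Pf.W 207 1 [] [0] (Pf.cons (Pf.B 3 0 (Pf.C 114 131) (Pf.C 71 16768)) Pf.nil)) (Pf.C 114 130)))
 Pq.nil))
theorem f1_o75 : AllRef f1_T f1_G5 (splitObl [19] [32,23]) :=
  chkPq_sound f1_o75c _ (by decide +kernel)
noncomputable def f1_o76c : Pq := (Pq.cons (Pq.L [] 7 (Pf.C 76 32896))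
 Pq.nil)
theorem f1_o76 : AllRef f1_T f1_G5 (applyObl cl_T 1 [19] [0] []) :=
  chkPq_sound f1_o76c _ (by decide +kernel)
noncomputable def f1_o77c : Pq := (Pq.cons (Pq.L [] 1 (Pf.C 20 128))
 Pq.nil)
theorem f1_o77 : AllRef f1_T f1_G5 (splitObl [32] [23]) :=
  chkPq_sound f1_o77c _ (by decide +kernel)
noncomputable def f1_o78c : Pq := (Pq.cons (Pq.L [] 1 (Pf.C 210 128))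
 Pq.nil)
theorem f1_o78 : AllRef f1_T f1_G5 (applyObl TD2 1 [32] [0] []) :=
  chkPq_sound f1_o78c _ (by decide +kernel)
noncomputable def f1_o79c : Pq := (Pq.cons (Pq.L [] 7 (Pf.C 75 32896))
 Pq.nil)
theorem f1_o79 : AllRef f1_T f1_G5 (applyObl cl_T 1 [23] [0] []) :=
  chkPq_sound f1_o79c _ (by decide +kernel)

end Pool.Agent.Lib.MP_849b2e_co
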