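import Pool.Agent.Lib.MP_849b2e_co.AllR
import Pool.Agent.Lib.MP_849b2e_co.Tf1
import Pool.Agent.Lib.MP_849b2e_co.Of1_0
import Pool.Agent.Lib.MP_849b2e_co.Lcl
import Pool.Agent.Lib.MP_849b2e_co.Ld
import Pool.Agent.Lib.MP_849b2e_co.Lf2

set_option maxRecDepth 100000
set_option linter.all false
namespace Pool.Agent.Lib.MP_849b2e_co

theorem f1_n135  : Bd f1_T f1_G5 [23] :=
  r_apply lem_cl [0] [] (by decide +kernel) f1_o79
theorem f1_n134  : Bd f1_T f1_G5 [32] :=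
  r_apply lem_D2 [0] [] (by decide +kernel) f1_o78
theorem f1_n133  : Bd f1_T f1_G5 [32,23] :=
  r_split [32] [23] (by decide +kernel) f1_o77 f1_n134 f1_n135
theorem f1_n132  : Bd f1_T f1_G5 [19] :=
  r_apply lem_cl [0] [] (by decide +kernel) f1_o76
theorem f1_n131  : Bd f1_T f1_G5 [19,32,23] :=
  r_split [19] [32,23] (by decide +kernel) f1_o75 f1_n132 f1_n133
theorem f1_n130  : Bd f1_T f1_G9 [31,39,41,35,8,9,33,12,13,37,15] :=
  r_apply lem_f2 [1,2,3,4,5,6,7,8,9,10,11] [] (by decide +kernel) (allRef_split 86 (allRef_split 79 f1_o70 f1_o71) (allRef_split 4 f1_o72 (allRef_expand 4 (allRef_split 1 f1_o73 f1_o74))))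
theorem f1_n129  : Bd f1_T f1_G100 [153,156,158] :=
  r_apply lem_D2 [0,0,0] [(153,0x200000000000000000000000000000000000000),(156,0x1000000000000000000000000000000000000000),(158,0x4000000000000000000000000000000000000000)] (by decide +kernel) f1_o69
theorem f1_n128  : Bd f1_T f1_G99 [153,168,156,169,158,170] :=
  r_kill [168,169,170] ⟨171,[],[],[]⟩ f1_G100 [153,156,158] (by decide +kernel) f1_o68 f1_n129
theorem f1_n127  : Bd f1_T f1_G98 [153,155,156,157,158,159] :=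
  r_hit [155,157,159] f1_h127 ⟨168,[],[285,286,287],[]⟩ f1_G99 [153,168,156,169,158,170] (by decide +kernel) f1_o67 f1_n128
theorem f1_n126  : Bd f1_T f1_G98 [153,155,160,164,157,162,166,159] :=
  r_act [] [153,155,156,157,158,159] (by decide +kernel) f1_n127
theorem f1_n125  : Bd f1_T f1_G97 [153,155,160,164,165,157,162,166,167,159] :=
  r_close false 2 [37,40,41,42,38,43,45,47,39,44,46,48] [153,155,160,164,165,157,162,166,167,159] [0,0,1,1,1,1,2,2,2,2] [0] [0] 751 ⟨168,[],[],[]⟩ f1_G98 [153,155,160,164,157,162,166,159] (by decide +kernel) f1_o66 f1_n126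
theorem f1_n124  : Bd f1_T f1_G97 [153,155,160,161,157,162,163,159] :=
  r_act [47,48] [153,155,160,164,165,157,162,166,167,159] (by decide +kernel) f1_n125
theorem f1_n123  : Bd f1_T f1_G96 [153,155,160,161,157,162,163,159] :=
  r_def 163 0 [160] [] ⟨166,[49],[283,0,284],[]⟩ f1_G97 [153,155,160,161,157,162,163,159] (by decide +kernel) f1_n124
theorem f1_n122  : Bd f1_T f1_G95 [153,155,160,161,157,162,163,159] :=
  r_def 161 0 [162] [] ⟨164,[48],[281,0,282],[]⟩ f1_G96 [153,155,160,161,157,162,163,159] (by decide +kernel) f1_n123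
theorem f1_n121  : Bd f1_T f1_G95 [153,155,156,157,158,159] :=
  r_act [45,46] [153,155,160,161,157,162,163,159] (by decide +kernel) f1_n122
theorem f1_n120  : Bd f1_T f1_G94 [153,155,156,157,158,159] :=
  r_def 158 0 [153,155,157] [] ⟨162,[47],[0,0,280],[]⟩ f1_G95 [153,155,156,157,158,159] (by decide +kernel) f1_n121
theorem f1_n119  : Bd f1_T f1_G93 [153,155,156,157,158,159] :=
  r_def 156 0 [153,155,159] [] ⟨160,[46],[0,0,279],[]⟩ f1_G94 [153,155,156,157,158,159] (by decide +kernel) f1_n120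
theorem f1_n118  : Bd f1_T f1_G92 [152,153,154,155,156,157,158,159] :=
  r_close false 2 [37,40,41,42,38,43,39,44] [152,153,154,155,156,157,158,159] [0,0,0,0,1,1,2,2] [0] [0] 250 ⟨160,[],[],[]⟩ f1_G93 [153,155,156,157,158,159] (by decide +kernel) f1_o65 f1_n119
theorem f1_n117  : Bd f1_T f1_G92 [144,145,147,149] :=
  r_act [40,41,42,43,44] [152,153,154,155,156,157,158,159] (by decide +kernel) f1_n118
theorem f1_n116  : Bd f1_T f1_G91 [144,145,147,149] :=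
  r_psplit 149 [] (PT.br 0 PT.kid PT.kid) ⟨158,[45],[],[]⟩ f1_G92 [144,145,147,149] (by decide +kernel) f1_o64 f1_n117
theorem f1_n115  : Bd f1_T f1_G90 [144,145,147,149] :=
  r_psplit 147 [] (PT.br 0 PT.kid PT.kid) ⟨156,[44],[],[]⟩ f1_G91 [144,145,147,149] (by decide +kernel) f1_o63 f1_n116
theorem f1_n114  : Bd f1_T f1_G89 [144,145,147,149] :=
  r_psplit 145 [] (PT.br 0 PT.kid PT.kid) ⟨154,[43],[],[]⟩ f1_G90 [144,145,147,149] (by decide +kernel) f1_o62 f1_n115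
theorem f1_n113  : Bd f1_T f1_G88 [144,145,147,149] :=
  r_psplit 151 [] (PT.br 0 PT.kid PT.kid) ⟨152,[42],[],[]⟩ f1_G89 [144,145,147,149] (by decide +kernel) f1_o61 f1_n114
theorem f1_n112  : Bd f1_T f1_G87 [144,145,147,149] :=
  r_psplit 144 [0] PT.kid ⟨151,[41],[],[]⟩ f1_G88 [144,145,147,149] (by decide +kernel) f1_o60 f1_n113
theorem f1_n111  : Bd f1_T f1_G86 [145,147,149] :=
  r_apply lem_D2 [0,0,0] [(147,0x8000000000000000000000000000000000000),(149,0x20000000000000000000000000000000000000)] (by decide +kernel) f1_o59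
theorem f1_n110  : Bd f1_T f1_G85 [144,145,147,149] :=
  r_ext 144 2 [144,145,147,149] [] [] [] [] ⟨150,[],[],[]⟩ f1_G86 [145,147,149] ⟨150,[],[],[]⟩ f1_G87 [144,145,147,149] (by decide +kernel) f1_o58 f1_n111 f1_n112
theorem f1_n109  : Bd f1_T f1_G84 [144,145,146,147,148,149] :=
  r_kill [146,148] ⟨150,[],[],[]⟩ f1_G85 [144,145,147,149] (by decide +kernel) f1_o57 f1_n110
theorem f1_n108  : Bd f1_T f1_G84 [135,138,141] :=
  r_act [37,38,39] [144,145,146,147,148,149] (by decide +kernel) f1_n109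
theorem f1_n107  : Bd f1_T f1_G83 [135,138,141] :=
  r_def 141 2 [135,138] [] ⟨148,[40],[277,0,0,0,278],[]⟩ f1_G84 [135,138,141] (by decide +kernel) f1_n108
theorem f1_n106  : Bd f1_T f1_G82 [135,138,141] :=
  r_def 138 2 [135,141] [] ⟨146,[39],[275,0,0,0,276],[]⟩ f1_G83 [135,138,141] (by decide +kernel) f1_n107
theorem f1_n105  : Bd f1_T f1_G81 [135,138,141] :=
  r_def 135 2 [135,138,141] [] ⟨144,[38],[0,0,0,0,274],[]⟩ f1_G82 [135,138,141] (by decide +kernel) f1_n106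
theorem f1_n104  : Bd f1_T f1_G80 [132,133,134] :=
  r_block [0,2,4] [7,5,3] [7,5,3] ⟨135,[],[],[3]⟩ f1_G81 [135,138,141] (by decide +kernel) f1_o56 f1_n105
theorem f1_n103  : Bd f1_T f1_G79 [17,28,30] :=
  r_twin 6 [1,5,3] ⟨132,[],[],[]⟩ f1_G80 [132,133,134] (by decide +kernel) f1_o55 f1_n104
theorem f1_n102  : Bd f1_T f1_G11 [17,38,27,21,40,28,34,29,25,36,30] :=
  r_kill [38,27,21,40,34,29,25,36] ⟨42,[],[],[]⟩ f1_G79 [17,28,30] (by decide +kernel) f1_o54 f1_n103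
theorem f1_n101  : Bd f1_T f1_G78 [38,40,30] :=
  r_apply lem_d [0,0,0] [(38,0x10000000000),(40,0x4000000000),(30,0x40000000)] (by decide +kernel) f1_o53
theorem f1_n100  : Bd f1_T f1_G14 [38,27,21,40,28,34,29,25,36,30] :=
  r_kill [27,21,28,34,29,25,36] ⟨42,[],[],[]⟩ f1_G78 [38,40,30] (by decide +kernel) f1_o52 f1_n101
theorem f1_n99  : Bd f1_T f1_G77 [27] :=
  r_apply lem_D2 [0] [(27,0x8000000)] (by decide +kernel) f1_o51
theorem f1_n98  : Bd f1_T f1_G77 [38,30] :=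
  r_apply lem_d [0,0] [(30,0x40000000)] (by decide +kernel) f1_o50
theorem f1_n97  : Bd f1_T f1_G77 [38,27,30] :=
  r_split [38,30] [27] (by decide +kernel) f1_o49 f1_n98 f1_n99
theorem f1_n96  : Bd f1_T f1_G17 [38,27,21,28,34,29,25,36,30] :=
  r_kill [21,28,34,29,25,36] ⟨42,[],[],[]⟩ f1_G77 [38,27,30] (by decide +kernel) f1_o48 f1_n97
theorem f1_n95  : Bd f1_T f1_G76 [112,114,118] :=
  r_apply lem_D2 [0,0,0] [(112,0x10000000000000000000000000000),(114,0x40000000000000000000000000000),(118,0x400000000000000000000000000000)] (by decide +kernel) f1_o47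
theorem f1_n94  : Bd f1_T f1_G75 [112,129,114,130,118,131] :=
  r_kill [129,130,131] ⟨132,[],[],[]⟩ f1_G76 [112,114,118] (by decide +kernel) f1_o46 f1_n95
theorem f1_n93  : Bd f1_T f1_G74 [112,113,114,115,118,120] :=
  r_hit [113,115,120] f1_h93 ⟨129,[],[271,272,273],[]⟩ f1_G75 [112,129,114,130,118,131] (by decide +kernel) f1_o45 f1_n94
theorem f1_n92  : Bd f1_T f1_G74 [121,125,113,123,127,115,118,120] :=
  r_act [] [112,113,114,115,118,120] (by decide +kernel) f1_n93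
theorem f1_n91  : Bd f1_T f1_G73 [121,125,126,113,123,127,128,115,118,120] :=
  r_close false 1 [25,28,33,35,26,29,34,36,27,30,31,32] [121,125,126,113,123,127,128,115,118,120] [0,0,0,0,1,1,1,1,2,2] [0] [2] 955 ⟨129,[],[],[]⟩ f1_G74 [121,125,113,123,127,115,118,120] (by decide +kernel) f1_o44 f1_n92
theorem f1_n90  : Bd f1_T f1_G73 [121,122,113,123,124,115,118,120] :=
  r_act [35,36] [121,125,126,113,123,127,128,115,118,120] (by decide +kernel) f1_n91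
theorem f1_n89  : Bd f1_T f1_G72 [121,122,113,123,124,115,118,120] :=
  r_def 124 0 [121] [] ⟨127,[37],[269,0,270],[]⟩ f1_G73 [121,122,113,123,124,115,118,120] (by decide +kernel) f1_n90
theorem f1_n88  : Bd f1_T f1_G71 [121,122,113,123,124,115,118,120] :=
  r_def 122 0 [123] [] ⟨125,[36],[267,0,268],[]⟩ f1_G72 [121,122,113,123,124,115,118,120] (by decide +kernel) f1_n89
theorem f1_n87  : Bd f1_T f1_G71 [112,113,114,115,118,120] :=
  r_act [33,34] [121,122,113,123,124,115,118,120] (by decide +kernel) f1_n88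
theorem f1_n86  : Bd f1_T f1_G70 [112,113,114,115,118,120] :=
  r_def 114 0 [113,118,120] [] ⟨123,[35],[0,0,266],[]⟩ f1_G71 [112,113,114,115,118,120] (by decide +kernel) f1_n87
theorem f1_n85  : Bd f1_T f1_G69 [112,113,114,115,118,120] :=
  r_def 112 0 [115,118,120] [] ⟨121,[34],[0,0,265],[]⟩ f1_G70 [112,113,114,115,118,120] (by decide +kernel) f1_n86
theorem f1_n84  : Bd f1_T f1_G68 [112,113,114,115,117,118,119,120] :=
  r_close false 1 [25,28,26,29,27,30,31,32] [112,113,114,115,117,118,119,120] [0,0,1,1,2,2,2,2] [0] [2] 175 ⟨121,[],[],[]⟩ f1_G69 [112,113,114,115,118,120] (by decide +kernel) f1_o43 f1_n85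
theorem f1_n83  : Bd f1_T f1_G68 [106,108,109,110] :=
  r_act [28,29,30,31,32] [112,113,114,115,117,118,119,120] (by decide +kernel) f1_n84
theorem f1_n82  : Bd f1_T f1_G67 [106,108,109,110] :=
  r_psplit 110 [] (PT.br 0 PT.kid PT.kid) ⟨119,[33],[],[]⟩ f1_G68 [106,108,109,110] (by decide +kernel) f1_o42 f1_n83
theorem f1_n81  : Bd f1_T f1_G66 [106,108,109,110] :=
  r_psplit 116 [] (PT.br 0 PT.kid PT.kid) ⟨117,[32],[],[]⟩ f1_G67 [106,108,109,110] (by decide +kernel) f1_o41 f1_n82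
theorem f1_n80  : Bd f1_T f1_G65 [106,108,109,110] :=
  r_psplit 109 [0] PT.kid ⟨116,[31],[],[]⟩ f1_G66 [106,108,109,110] (by decide +kernel) f1_o40 f1_n81
theorem f1_n79  : Bd f1_T f1_G64 [106,108,109,110] :=
  r_psplit 108 [] (PT.br 0 PT.kid PT.kid) ⟨114,[30],[],[]⟩ f1_G65 [106,108,109,110] (by decide +kernel) f1_o39 f1_n80
theorem f1_n78  : Bd f1_T f1_G63 [106,108,109,110] :=
  r_psplit 106 [] (PT.br 0 PT.kid PT.kid) ⟨112,[29],[],[]⟩ f1_G64 [106,108,109,110] (by decide +kernel) f1_o38 f1_n79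
theorem f1_n77  : Bd f1_T f1_G62 [106,108,110] :=
  r_apply lem_D2 [0,0,0] [(106,0x400000000000000000000000000),(108,0x1000000000000000000000000000)] (by decide +kernel) f1_o37
theorem f1_n76  : Bd f1_T f1_G61 [106,108,109,110] :=
  r_ext 109 2 [106,108,109,110] [] [] [] [] ⟨111,[],[],[]⟩ f1_G62 [106,108,110] ⟨111,[],[],[]⟩ f1_G63 [106,108,109,110] (by decide +kernel) f1_o36 f1_n77 f1_n78
theorem f1_n75  : Bd f1_T f1_G60 [105,106,107,108,109,110] :=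
  r_kill [105,107] ⟨111,[],[],[]⟩ f1_G61 [106,108,109,110] (by decide +kernel) f1_o35 f1_n76
theorem f1_n74  : Bd f1_T f1_G60 [96,99,102] :=
  r_act [25,26,27] [105,106,107,108,109,110] (by decide +kernel) f1_n75
theorem f1_n73  : Bd f1_T f1_G59 [96,99,102] :=
  r_def 102 2 [96,99,102] [] ⟨109,[28],[0,0,0,0,264],[]⟩ f1_G60 [96,99,102] (by decide +kernel) f1_n74
theorem f1_n72  : Bd f1_T f1_G58 [96,99,102] :=
  r_def 99 2 [96,102] [] ⟨107,[27],[262,0,0,0,263],[]⟩ f1_G59 [96,99,102] (by decide +kernel) f1_n73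
theorem f1_n71  : Bd f1_T f1_G57 [96,99,102] :=
  r_def 96 2 [99,102] [] ⟨105,[26],[260,0,0,0,261],[]⟩ f1_G58 [96,99,102] (by decide +kernel) f1_n72
theorem f1_n70  : Bd f1_T f1_G56 [93,94,95] :=
  r_block [1,2,0] [6,5,7] [6,5,7] ⟨96,[],[],[2]⟩ f1_G57 [96,99,102] (by decide +kernel) f1_o34 f1_n71
theorem f1_n69  : Bd f1_T f1_G55 [27,29,25] :=
  r_twin 3 [6,5,4] ⟨93,[],[],[]⟩ f1_G56 [93,94,95] (by decide +kernel) f1_o33 f1_n70
theorem f1_n68  : Bd f1_T f1_G20 [27,21,28,34,29,25,36,30] :=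
  r_kill [21,28,34,36,30] ⟨42,[],[],[]⟩ f1_G55 [27,29,25] (by decide +kernel) f1_o32 f1_n69
theorem f1_n67  : Bd f1_T f1_G54 [27,34,36] :=
  r_apply lem_d [0,0,0] [(27,0x8000000),(34,0x1000000000),(36,0x400000000)] (by decide +kernel) f1_o31
theorem f1_n66  : Bd f1_T f1_G23 [27,21,28,34,29,36,30] :=
  r_kill [21,28,29,30] ⟨42,[],[],[]⟩ f1_G54 [27,34,36] (by decide +kernel) f1_o30 f1_n67
theorem f1_n65  : Bd f1_T f1_G53 [30] :=
  r_apply lem_D2 [0] [(30,0x40000000)] (by decide +kernel) f1_o29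
theorem f1_n64  : Bd f1_T f1_G53 [27,34] :=
  r_apply lem_d [0,0] [(27,0x8000000)] (by decide +kernel) f1_o28
theorem f1_n63  : Bd f1_T f1_G53 [27,34,30] :=
  r_split [27,34] [30] (by decide +kernel) f1_o27 f1_n64 f1_n65
theorem f1_n62  : Bd f1_T f1_G26 [27,21,28,34,29,30] :=
  r_kill [21,28,29] ⟨42,[],[],[]⟩ f1_G53 [27,34,30] (by decide +kernel) f1_o26 f1_n63
theorem f1_n61  : Bd f1_T f1_G52 [73,77,80] :=
  r_apply lem_D2 [0,0,0] [(73,0x2000000000000000000),(77,0x20000000000000000000),(80,0x100000000000000000000)] (by decide +kernel) f1_o25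
theorem f1_n60  : Bd f1_T f1_G51 [73,90,77,91,80,92] :=
  r_kill [90,91,92] ⟨93,[],[],[]⟩ f1_G52 [73,77,80] (by decide +kernel) f1_o24 f1_n61
theorem f1_n59  : Bd f1_T f1_G50 [73,74,77,79,80,81] :=
  r_hit [74,79,81] f1_h59 ⟨90,[],[257,258,259],[]⟩ f1_G51 [73,90,77,91,80,92] (by decide +kernel) f1_o23 f1_n60
theorem f1_n58  : Bd f1_T f1_G50 [82,86,74,77,79,84,88,81] :=
  r_act [] [73,74,77,79,80,81] (by decide +kernel) f1_n59
theorem f1_n57  : Bd f1_T f1_G49 [82,86,87,74,77,79,84,88,89,81] :=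
  r_close false 0 [9,14,21,23,10,15,16,17,11,18,12,19,13,20,22,24] [82,86,87,74,77,79,84,88,89,81] [0,0,0,0,1,1,4,4,4,4] [0] [1] 763 ⟨90,[],[],[]⟩ f1_G50 [82,86,74,77,79,84,88,81] (by decide +kernel) f1_o22 f1_n58
theorem f1_n56  : Bd f1_T f1_G49 [82,83,74,77,79,84,85,81] :=
  r_act [23,24] [82,86,87,74,77,79,84,88,89,81] (by decide +kernel) f1_n57
theorem f1_n55  : Bd f1_T f1_G48 [82,83,74,77,79,84,85,81] :=
  r_def 85 0 [82] [] ⟨88,[25],[255,0,256],[]⟩ f1_G49 [82,83,74,77,79,84,85,81] (by decide +kernel) f1_n56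
theorem f1_n54  : Bd f1_T f1_G47 [82,83,74,77,79,84,85,81] :=
  r_def 83 0 [84] [] ⟨86,[24],[253,0,254],[]⟩ f1_G48 [82,83,74,77,79,84,85,81] (by decide +kernel) f1_n55
theorem f1_n53  : Bd f1_T f1_G47 [73,74,77,79,80,81] :=
  r_act [21,22] [82,83,74,77,79,84,85,81] (by decide +kernel) f1_n54
theorem f1_n52  : Bd f1_T f1_G46 [73,74,77,79,80,81] :=
  r_def 80 0 [74,77,79] [] ⟨84,[23],[0,0,252],[]⟩ f1_G47 [73,74,77,79,80,81] (by decide +kernel) f1_n53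
theorem f1_n51  : Bd f1_T f1_G45 [73,74,77,79,80,81] :=
  r_def 73 0 [77,79,81] [] ⟨82,[22],[0,0,251],[]⟩ f1_G46 [73,74,77,79,80,81] (by decide +kernel) f1_n52
theorem f1_n50  : Bd f1_T f1_G44 [73,74,76,77,78,79,80,81] :=
  r_close false 0 [9,14,10,15,16,17,11,18,12,19,13,20] [73,74,76,77,78,79,80,81] [0,0,1,1,1,1,4,4] [0] [1] 235 ⟨82,[],[],[]⟩ f1_G45 [73,74,77,79,80,81] (by decide +kernel) f1_o21 f1_n51
theorem f1_n49  : Bd f1_T f1_G44 [63,64,65,67,69,71] :=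
  r_act [14,15,16,17,18,19,20] [73,74,76,77,78,79,80,81] (by decide +kernel) f1_n50
theorem f1_n48  : Bd f1_T f1_G43 [63,64,65,67,69,71] :=
  r_psplit 71 [] (PT.br 0 PT.kid PT.kid) ⟨80,[21],[],[]⟩ f1_G44 [63,64,65,67,69,71] (by decide +kernel) f1_o20 f1_n49
theorem f1_n47  : Bd f1_T f1_G42 [63,64,65,67,69,71] :=
  r_psplit 69 [] PT.ref ⟨80,[20],[],[]⟩ f1_G43 [63,64,65,67,69,71] (by decide +kernel) f1_o19 f1_n48
theorem f1_n46  : Bd f1_T f1_G41 [63,64,65,67,69,71] :=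
  r_psplit 67 [] PT.ref ⟨80,[19],[],[]⟩ f1_G42 [63,64,65,67,69,71] (by decide +kernel) f1_o18 f1_n47
theorem f1_n45  : Bd f1_T f1_G40 [63,64,65,67,69,71] :=
  r_psplit 65 [] (PT.br 0 PT.kid PT.kid) ⟨78,[18],[],[]⟩ f1_G41 [63,64,65,67,69,71] (by decide +kernel) f1_o17 f1_n46
theorem f1_n44  : Bd f1_T f1_G39 [63,64,65,67,69,71] :=
  r_psplit 75 [] (PT.br 0 PT.kid PT.kid) ⟨76,[17],[],[]⟩ f1_G40 [63,64,65,67,69,71] (by decide +kernel) f1_o16 f1_n45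
theorem f1_n43  : Bd f1_T f1_G38 [63,64,65,67,69,71] :=
  r_psplit 64 [0] PT.kid ⟨75,[16],[],[]⟩ f1_G39 [63,64,65,67,69,71] (by decide +kernel) f1_o15 f1_n44
theorem f1_n42  : Bd f1_T f1_G37 [63,64,65,67,69,71] :=
  r_psplit 63 [] (PT.br 0 PT.kid PT.kid) ⟨73,[15],[],[]⟩ f1_G38 [63,64,65,67,69,71] (by decide +kernel) f1_o14 f1_n43
theorem f1_n41  : Bd f1_T f1_G36 [63,65,67,69,71] :=
  r_apply lem_D2 [0,0,0,0,0] [(63,0x8000000000000000),(65,0x280000000000000000),(67,0x2a0000000000000000),(69,0x2a0000000000000000),(71,0x800000000000000000)] (by decide +kernel) f1_o13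
theorem f1_n40  : Bd f1_T f1_G35 [63,64,65,67,69,71] :=
  r_ext 64 2 [63,64,65,71] [] [] [] [] ⟨72,[],[],[]⟩ f1_G36 [63,65,67,69,71] ⟨72,[],[],[]⟩ f1_G37 [63,64,65,67,69,71] (by decide +kernel) f1_o12 f1_n41 f1_n42
theorem f1_n39  : Bd f1_T f1_G34 [62,63,64,65,66,67,68,69,70,71] :=
  r_kill [62,66,68,70] ⟨72,[],[],[]⟩ f1_G35 [63,64,65,67,69,71] (by decide +kernel) f1_o11 f1_n40
theorem f1_n38  : Bd f1_T f1_G34 [47,50,53,56,59] :=
  r_act [9,10,11,12,13] [62,63,64,65,66,67,68,69,70,71] (by decide +kernel) f1_n39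
theorem f1_n37  : Bd f1_T f1_G33 [47,50,53,56,59] :=
  r_def 59 2 [47,50,53] [] ⟨70,[14],[249,0,0,0,250],[]⟩ f1_G34 [47,50,53,56,59] (by decide +kernel) f1_n38
theorem f1_n36  : Bd f1_T f1_G32 [47,50,53,56,59] :=
  r_def 56 2 [47] [] ⟨68,[13],[248],[]⟩ f1_G33 [47,50,53,56,59] (by decide +kernel) f1_n37
theorem f1_n35  : Bd f1_T f1_G31 [47,50,53,56,59] :=
  r_def 53 2 [59] [] ⟨66,[12],[247],[]⟩ f1_G32 [47,50,53,56,59] (by decide +kernel) f1_n36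
theorem f1_n34  : Bd f1_T f1_G30 [47,50,53,56,59] :=
  r_def 50 2 [47,50,59] [] ⟨64,[11],[0,0,0,0,246],[]⟩ f1_G31 [47,50,53,56,59] (by decide +kernel) f1_n35
theorem f1_n33  : Bd f1_T f1_G29 [47,50,53,56,59] :=
  r_def 47 2 [50,56,59] [] ⟨62,[10],[244,0,0,0,245],[]⟩ f1_G30 [47,50,53,56,59] (by decide +kernel) f1_n34
theorem f1_n32  : Bd f1_T f1_G28 [42,43,44,45,46] :=
  r_block [1,0,4,8,16] [26,19,16,1,7] [26,19,16,1,7] ⟨47,[],[0,0,0,0,0,0,0,0,0,0,0,0,0,0,0,0,0,0,0,0,0,0,242,243],[1]⟩ f1_G29 [47,50,53,56,59] (by decide +kernel) f1_o10 f1_n33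
theorem f1_n31  : Bd f1_T f1_G27 [27,21,28,29,30] :=
  r_twin 29 [26,2,16,1,7] ⟨42,[],[],[]⟩ f1_G28 [42,43,44,45,46] (by decide +kernel) f1_o9 f1_n32
theorem f1_n30  : Bd f1_T f1_G25 [27,21,28,34,29,30] :=
  r_kill [34] ⟨42,[],[],[]⟩ f1_G27 [27,21,28,29,30] (by decide +kernel) f1_o8 f1_n31
theorem f1_n29  : Bd f1_T f1_G24 [27,21,28,34,29,30] :=
  r_ex 34 0 ⟨42,[],[240],[]⟩ f1_G25 [27,21,28,34,29,30] ⟨42,[],[241],[]⟩ f1_G26 [27,21,28,34,29,30] (by decide +kernel) f1_n30 f1_n62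
theorem f1_n28  : Bd f1_T f1_G22 [27,21,28,34,29,36,30] :=
  r_kill [36] ⟨42,[],[],[]⟩ f1_G24 [27,21,28,34,29,30] (by decide +kernel) f1_o7 f1_n29
theorem f1_n27  : Bd f1_T f1_G21 [27,21,28,34,29,36,30] :=
  r_ex 36 0 ⟨42,[],[238],[]⟩ f1_G22 [27,21,28,34,29,36,30] ⟨42,[],[239],[]⟩ f1_G23 [27,21,28,34,29,36,30] (by decide +kernel) f1_n28 f1_n66
theorem f1_n26  : Bd f1_T f1_G19 [27,21,28,34,29,25,36,30] :=
  r_kill [25] ⟨42,[],[],[]⟩ f1_G21 [27,21,28,34,29,36,30] (by decide +kernel) f1_o6 f1_n27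
theorem f1_n25  : Bd f1_T f1_G18 [27,21,28,34,29,25,36,30] :=
  r_ex 25 0 ⟨42,[],[236],[]⟩ f1_G19 [27,21,28,34,29,25,36,30] ⟨42,[],[237],[]⟩ f1_G20 [27,21,28,34,29,25,36,30] (by decide +kernel) f1_n26 f1_n68
theorem f1_n24  : Bd f1_T f1_G16 [38,27,21,28,34,29,25,36,30] :=
  r_kill [38] ⟨42,[],[],[]⟩ f1_G18 [27,21,28,34,29,25,36,30] (by decide +kernel) f1_o5 f1_n25
theorem f1_n23  : Bd f1_T f1_G15 [38,27,21,28,34,29,25,36,30] :=
  r_ex 38 0 ⟨42,[],[234],[]⟩ f1_G16 [38,27,21,28,34,29,25,36,30] ⟨42,[],[235],[]⟩ f1_G17 [38,27,21,28,34,29,25,36,30] (by decide +kernel) f1_n24 f1_n96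
theorem f1_n22  : Bd f1_T f1_G13 [38,27,21,40,28,34,29,25,36,30] :=
  r_kill [40] ⟨42,[],[],[]⟩ f1_G15 [38,27,21,28,34,29,25,36,30] (by decide +kernel) f1_o4 f1_n23
theorem f1_n21  : Bd f1_T f1_G12 [38,27,21,40,28,34,29,25,36,30] :=
  r_ex 40 0 ⟨42,[],[232],[]⟩ f1_G13 [38,27,21,40,28,34,29,25,36,30] ⟨42,[],[233],[]⟩ f1_G14 [38,27,21,40,28,34,29,25,36,30] (by decide +kernel) f1_n22 f1_n100
theorem f1_n20  : Bd f1_T f1_G10 [17,38,27,21,40,28,34,29,25,36,30] :=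
  r_kill [17] ⟨42,[],[],[]⟩ f1_G12 [38,27,21,40,28,34,29,25,36,30] (by decide +kernel) f1_o3 f1_n21
theorem f1_n19  : Bd f1_T f1_G9 [17,38,27,21,40,28,34,29,25,36,30] :=
  r_ex 17 0 ⟨42,[],[230],[]⟩ f1_G10 [17,38,27,21,40,28,34,29,25,36,30] ⟨42,[],[231],[]⟩ f1_G11 [17,38,27,21,40,28,34,29,25,36,30] (by decide +kernel) f1_n20 f1_n102
theorem f1_n18  : Bd f1_T f1_G9 [17,31,38,39,27,21,40,41,28,34,35,8,9,29,25,33,12,13,36,37,15,30] :=
  r_split [17,38,27,21,40,28,34,29,25,36,30] [31,39,41,35,8,9,33,12,13,37,15] (by decide +kernel) f1_o2 f1_n19 f1_n130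
theorem f1_n17  : Bd f1_T f1_G9 [17,31,20,27,21,5,28,34,35,8,9,29,25,33,12,13,36,37,15,30] :=
  r_act [7,8] [17,31,38,39,27,21,40,41,28,34,35,8,9,29,25,33,12,13,36,37,15,30] (by decide +kernel) f1_n18
theorem f1_n16  : Bd f1_T f1_G8 [17,31,20,27,21,5,28,34,35,8,9,29,25,33,12,13,36,37,15,30] :=
  r_def 5 0 [30] [] ⟨40,[9],[228,0,229],[]⟩ f1_G9 [17,31,20,27,21,5,28,34,35,8,9,29,25,33,12,13,36,37,15,30] (by decide +kernel) f1_n17
theorem f1_n15  : Bd f1_T f1_G7 [17,31,20,27,21,5,28,34,35,8,9,29,25,33,12,13,36,37,15,30] :=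
  r_def 20 0 [30] [] ⟨38,[8],[226,0,227],[]⟩ f1_G8 [17,31,20,27,21,5,28,34,35,8,9,29,25,33,12,13,36,37,15,30] (by decide +kernel) f1_n16
theorem f1_n14  : Bd f1_T f1_G7 [17,31,20,27,21,5,28,24,8,9,29,25,33,12,13,14,15,30] :=
  r_act [5,6] [17,31,20,27,21,5,28,34,35,8,9,29,25,33,12,13,36,37,15,30] (by decide +kernel) f1_n15
theorem f1_n13  : Bd f1_T f1_G6 [17,31,20,27,21,5,28,24,8,9,29,25,33,12,13,14,15,30] :=
  r_def 14 0 [27] [] ⟨36,[7],[224,0,225],[]⟩ f1_G7 [17,31,20,27,21,5,28,24,8,9,29,25,33,12,13,14,15,30] (by decide +kernel) f1_n14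
theorem f1_n12  : Bd f1_T f1_G5 [17,31,20,27,21,5,28,24,8,9,29,25,33,12,13,14,15,30] :=
  r_def 24 0 [27] [] ⟨34,[6],[222,0,223],[]⟩ f1_G6 [17,31,20,27,21,5,28,24,8,9,29,25,33,12,13,14,15,30] (by decide +kernel) f1_n13
theorem f1_n11  : Bd f1_T f1_G5 [17,31,19,20,27,21,32,5,28,23,24,8,9,29,25,33,12,13,14,15,30] :=
  r_split [17,31,20,27,21,5,28,24,8,9,29,25,33,12,13,14,15,30] [19,32,23] (by decide +kernel) f1_o1 f1_n12 f1_n131
theorem f1_n10  : Bd f1_T f1_G4 [17,18,19,20,3,21,22,5,6,23,24,8,9,10,25,26,12,13,14,15,16] :=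
  r_hit [3,6,10,16,18,22,26] f1_h10 ⟨27,[],[216,217,218,219,220,221],[]⟩ f1_G5 [17,31,19,20,27,21,32,5,28,23,24,8,9,29,25,33,12,13,14,15,30] (by decide +kernel) f1_o0 f1_n11
theorem f1_n9  : Bd f1_T f1_G4 [17,18,19,20,3,21,22,5,6,23,24,8,9,10,11,12,13,14,15,16] :=
  r_act [4] [17,18,19,20,3,21,22,5,6,23,24,8,9,10,25,26,12,13,14,15,16] (by decide +kernel) f1_n10
theorem f1_n8  : Bd f1_T f1_G3 [17,18,19,20,3,21,22,5,6,23,24,8,9,10,11,12,13,14,15,16] :=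
  r_def 11 0 [11] [] ⟨25,[5],[214,0,215],[]⟩ f1_G4 [17,18,19,20,3,21,22,5,6,23,24,8,9,10,11,12,13,14,15,16] (by decide +kernel) f1_n9
theorem f1_n7  : Bd f1_T f1_G3 [17,18,19,20,3,21,22,5,6,7,8,9,10,11,12,13,14,15,16] :=
  r_act [3] [17,18,19,20,3,21,22,5,6,23,24,8,9,10,11,12,13,14,15,16] (by decide +kernel) f1_n8
theorem f1_n6  : Bd f1_T f1_G2 [17,18,19,20,3,21,22,5,6,7,8,9,10,11,12,13,14,15,16] :=
  r_def 7 0 [7] [] ⟨23,[4],[212,0,213],[]⟩ f1_G3 [17,18,19,20,3,21,22,5,6,7,8,9,10,11,12,13,14,15,16] (by decide +kernel) f1_n7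
theorem f1_n5  : Bd f1_T f1_G2 [17,18,19,20,3,4,5,6,7,8,9,10,11,12,13,14,15,16] :=
  r_act [2] [17,18,19,20,3,21,22,5,6,7,8,9,10,11,12,13,14,15,16] (by decide +kernel) f1_n6
theorem f1_n4  : Bd f1_T f1_G1 [17,18,19,20,3,4,5,6,7,8,9,10,11,12,13,14,15,16] :=
  r_def 4 0 [4] [] ⟨21,[3],[210,0,211],[]⟩ f1_G2 [17,18,19,20,3,4,5,6,7,8,9,10,11,12,13,14,15,16] (by decide +kernel) f1_n5
theorem f1_n3  : Bd f1_T f1_G1 [17,18,2,3,4,5,6,7,8,9,10,11,12,13,14,15,16] :=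
  r_act [1] [17,18,19,20,3,4,5,6,7,8,9,10,11,12,13,14,15,16] (by decide +kernel) f1_n4
theorem f1_n2  : Bd f1_T f1_G0 [17,18,2,3,4,5,6,7,8,9,10,11,12,13,14,15,16] :=
  r_def 2 0 [2] [] ⟨19,[2],[208,0,209],[]⟩ f1_G1 [17,18,2,3,4,5,6,7,8,9,10,11,12,13,14,15,16] (by decide +kernel) f1_n3
theorem f1_n1  : Bd f1_T f1_G0 [1,2,3,4,5,6,7,8,9,10,11,12,13,14,15,16] :=
  r_act [0] [17,18,2,3,4,5,6,7,8,9,10,11,12,13,14,15,16] (by decide +kernel) f1_n2
theorem f1_n0  : Bd f1_T (pureCtx 16 205) (pureAct 16) :=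
  show Bd _ _ [1,2,3,4,5,6,7,8,9,10,11,12,13,14,15,16] from r_def 1 0 [1] [] ⟨17,[1],[206,0,207],[]⟩ f1_G0 [1,2,3,4,5,6,7,8,9,10,11,12,13,14,15,16] (by decide +kernel) f1_n1
theorem lem_f1  : Lem f1_T 16 205 := ⟨by decide +kernel, f1_n0⟩

end Pool.Agent.Lib.MP_849b2e_co
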