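import Pool.Agent.Lib.MP_849b2e_co.Fast
import Pool.Agent.Lib.MP_849b2e_co.TfS
import Pool.Agent.Lib.MP_849b2e_co.RApply
import Pool.Agent.Lib.MP_849b2e_co.Tcl
import Pool.Agent.Lib.MP_849b2e_co.Td

set_option maxRecDepth 100000
set_option linter.all false
namespace Pool.Agent.Lib.MP_849b2e_co

noncomputable def fS_o0c : Pq := Pq.nil
theorem fS_o0 : AllRef fS_T (pureCtx 0 2) (blockObl [0] [0] [1] [1]) :=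
  chkPq_sound fS_o0c _ (by decide +kernel)
noncomputable def fS_o1c : Pq := (Pq.cons (Pq.L [] 7 (Pf.C 3 32896))
 (Pq.cons (Pq.L [] 0x1c0700 (Pf.C 2 0xc14201))
 Pq.nil))
theorem fS_o1 : AllRef fS_T fS_G3 (applyObl d_T 2 [1] [0] []) :=
  chkPq_sound fS_o1c _ (by decide +kernel)
noncomputable def fS_o2c : Pq := Pq.nil
theorem fS_o2 : AllRef fS_T fS_G4 (ptObl 1 PT.kid []) :=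
  chkPq_sound fS_o2c _ (by decide +kernel)
noncomputable def fS_o3c : Pq := (Pq.cons (Pq.L [0,1,2] 0 (Pf.C 0 32899))
 (Pq.cons (Pq.L [0,1,2] 0 (Pf.C 0 0x208003))
 (Pq.cons (Pq.L [0,1,2] 0 (Pf.C 0 0x404003))
 Pq.nil)))
theorem fS_o3 : AllRef fS_T fS_G5 (ptObl 4 (PT.br 0 (PT.br 1 (PT.br 2 PT.kid PT.kid) (PT.br 2 PT.kid PT.ref)) (PT.br 1 (PT.br 2 PT.kid PT.ref) (PT.br 2 PT.ref PT.kid))) []) :=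
  chkPq_sound fS_o3c _ (by decide +kernel)
noncomputable def fS_o4c : Pq := (Pq.cons (Pq.L [0,2] 1 (Pf.C 2 33156))
 (Pq.cons (Pq.L [0,1] 1 (Pf.C 2 16772))
 (Pq.cons (Pq.L [0,1] 1 (Pf.C 2 0x200184))
 (Pq.cons (Pq.L [0,2] 1 (Pf.C 0 65795))
 (Pq.cons (Pq.L [0,1] 1 (Pf.C 0 65667))
 (Pq.cons (Pq.L [0,1] 1 (Pf.C 0 0x210003))
 Pq.nil))))))
theorem fS_o4 : AllRef fS_T fS_G6 (splitObl [5,9] [6,7,8]) :=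
  chkPq_sound fS_o4c _ (by decide +kernel)
noncomputable def fS_o5c : Pq := (Pq.cons (Pq.L [0] 7 (Pf.C 0 0xa00184))
 Pq.nil)
theorem fS_o5 : AllRef fS_T fS_G6 (twinObl [5,9] 2 [3,1]) :=
  chkPq_sound fS_o5c _ (by decide +kernel)
noncomputable def fS_o6c : Pq := (Pq.cons (Pq.L [0,1] 1 (Pf.C 0 0x804003))
 (Pq.cons (Pq.L [0] 7 (Pf.W 5 515 [] [0,5] (Pf.cons (Pf.B 6 5 (Pf.W 5 644 [] [0,3,6] (Pf.cons (Pf.B 7 6 (Pf.B 7 3 (Pf.C 2 0xc0c207) (Pf.C 0 65927)) (Pf.C 2 66438)) (Pf.cons (Pf.B 7 6 (Pf.B 7 3 (Pf.C 2 0xc0c287) (Pf.C 0 82311)) (Pf.C 2 82822)) Pf.nil))) (Pf.C 0 49798)) (Pf.cons (Pf.B 6 5 (Pf.W 5 643 [] [0,4,6] (Pf.cons (Pf.B 7 6 (Pf.B 7 4 (Pf.C 2 0xc10187) (Pf.C 0 49671)) (Pf.C 2 50054)) (Pf.cons (Pf.B 7 6 (Pf.B 7 4 (Pf.C 2 0xc10287) (Pf.C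 0 82439)) (Pf.C 2 82822)) Pf.nil))) (Pf.C 0 66182)) Pf.nil))))
 Pq.nil))
theorem fS_o6 : AllRef fS_T fS_G7 (hitObl [11] fS_h9) :=
  chkPq_sound fS_o6c _ (by decide +kernel)
noncomputable def fS_o7c : Pq := (Pq.cons (Pq.L [] 0 (Pf.C 6 3))
 Pq.nil)
theorem fS_o7 : AllRef fS_T fS_G8 (List.map pat1 [12]) :=
  chkPq_sound fS_o7c _ (by decide +kernel)
noncomputable def fS_o8c : Pq := Pq.nil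
theorem fS_o8 : AllRef fS_T fS_G9 (twinObl [10] 0 [1]) :=
  chkPq_sound fS_o8c _ (by decide +kernel)
noncomputable def fS_o9c : Pq := Pq.nil
theorem fS_o9 : AllRef fS_T fS_G10 (blockObl [13] [0] [1] [1]) :=
  chkPq_sound fS_o9c _ (by decide +kernel)
noncomputable def fS_o10c : Pq := Pq.nil
theorem fS_o10 : AllRef fS_T fS_G12 (extObl 17 [] []) :=
  chkPq_sound fS_o10c _ (by decide +kernel)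
noncomputable def fS_o11c : Pq := (Pq.cons (Pq.L [] 7 (Pf.C 8 0xc14203))
 Pq.nil)
theorem fS_o11 : AllRef fS_T fS_G13 (applyObl TD2 1 [18] [0] []) :=
  chkPq_sound fS_o11c _ (by decide +kernel)
noncomputable def fS_o12c : Pq := Pq.nil
theorem fS_o12 : AllRef fS_T fS_G14 (ptObl 17 PT.kid []) :=
  chkPq_sound fS_o12c _ (by decide +kernel)
noncomputable def fS_o13c : Pq := Pq.nil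
theorem fS_o13 : AllRef fS_T fS_G15 (ptObl 20 (PT.br 3 PT.kid PT.kid) []) :=
  chkPq_sound fS_o13c _ (by decide +kernel)
noncomputable def fS_o14c : Pq := Pq.nil
theorem fS_o14 : AllRef fS_T fS_G16 (ptObl 18 (PT.br 3 PT.kid PT.kid) []) :=
  chkPq_sound fS_o14c _ (by decide +kernel)
noncomputable def fS_o15c : Pq := (Pq.cons (Pq.L [] 0 (Pf.X 3 4))
 (Pq.cons (Pq.L [0,3] 1 (Pf.W 7 3 [4] [0,5] (Pf.cons (Pf.B 6 5 (Pf.B 6 4 (Pf.C 2 0xa10186) (Pf.W 9 82308 [] [6] (Pf.cons (Pf.B 7 6 (Pf.B 7 5 (Pf.C 2 0xa10187) (Pf.C 2 0xc10287)) (Pf.C 0 0x80c307)) (Pf.cons (Pf.B 7 6 (Pf.B 7 5 (Pf.C 2 0xa10187) (Pf.C 2 0xc10287)) (Pf.C 0 0x80c307)) Pf.nil)))) (Pf.B 6 4 (Pf.W 4 643 [] [0,4,6] (Pf.cons (Pf.B 7 6 (Pf.C 2 0xa18187) (Pf.B 7 4 (Pf.C 2 0xa10187) (Pf.C 0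 0xc0c384))) (Pf.cons (Pf.B 7 6 (Pf.C 2 0x618287) (Pf.B 7 4 (Pf.C 2 0x610287) (Pf.C 0 0xc14384))) (Pf.cons (Pf.B 7 6 (Pf.C 2 0xa18187) (Pf.C 2 0xa18380)) (Pf.cons (Pf.B 7 6 (Pf.C 2 0x618287) (Pf.C 2 0x618380)) Pf.nil))))) (Pf.C 0 0xa10303))) Pf.nil)))
 (Pq.cons (Pq.L [0,3] 1 (Pf.W 7 3 [4] [0,5] (Pf.cons (Pf.B 6 4 (Pf.B 6 5 (Pf.C 2 0xa10186) (Pf.W 4 643 [] [0,4,6] (Pf.cons (Pf.B 7 6 (Pf.C 2 0xa18187) (Pf.B 7 4 (Pf.C 2 0xa10187) (Pf.C 0 0xc0c384))) (Pf.cons (Pf.B 7 6 (Pf.C 2 0x618287) (Pf.B 7 4 (Pf.C 2 0x610287) (Pf.C 0 0xc14384))) (Pf.cons (Pf.B 7 6 (Pf.C 2 0xa18187) (Pf.C 2 0xa18380)) (Pf.cons (Pf.B 7 6 (Pf.C 2 0x618287) (Pf.C 2 0x618380)) Pf.nil)))))) (Pf.C 8 0xa0c304)) Pf.nil)))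
 (Pq.cons (Pq.L [] 0 (Pf.X 3 4))
 (Pq.cons (Pq.L [3] 1 (Pf.W 7 3 [4] [5] (Pf.cons (Pf.B 6 5 (Pf.B 6 4 (Pf.C 2 0xa10186) (Pf.W 9 82308 [] [6] (Pf.cons (Pf.B 7 6 (Pf.B 7 5 (Pf.C 2 0xa10187) (Pf.C 2 0xc10287)) (Pf.C 0 0x80c307)) (Pf.cons (Pf.B 7 6 (Pf.B 7 5 (Pf.C 2 0xa10187) (Pf.C 2 0xc10287)) (Pf.C 0 0x80c307)) Pf.nil)))) (Pf.B 6 4 (Pf.W 7 3 [4,6] [5] (Pf.cons (Pf.B 7 5 (Pf.B 7 6 (Pf.C 2 0xa18187) (Pf.B 7 4 (Pf.C 2 0xa10187) (Pf.C 0 0xc0c384))) (Pf.C 8 0xc10385)) Pf.nil)) (Pf.C 0 0xa10303))) Pf.nil)))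
 (Pq.cons (Pq.L [3] 1 (Pf.W 7 3 [4] [5] (Pf.cons (Pf.B 6 4 (Pf.B 6 5 (Pf.C 2 0xa10186) (Pf.W 7 3 [4,6] [5] (Pf.cons (Pf.B 7 5 (Pf.B 7 6 (Pf.C 2 0xa18187) (Pf.B 7 4 (Pf.C 2 0xa10187) (Pf.C 0 0xc0c384))) (Pf.C 8 0xc10385)) Pf.nil))) (Pf.C 8 0xa0c304)) Pf.nil)))
 Pq.nil))))))
theorem fS_o15 : AllRef fS_T fS_G17 (closeObl (fS_T.sc.get 1) false [21,22,23,24] [0,0,0,0] [3] [0] 10) :=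
  chkPq_sound fS_o15c _ (by decide +kernel)
noncomputable def fS_o16c : Pq := (Pq.cons (Pq.L [3] 3 (Pf.B 6 5 (Pf.W 7 5 [3,4] [6] (Pf.cons (Pf.B 7 4 (Pf.B 7 6 (Pf.B 7 3 (Pf.C 2 0xc0c287) (Pf.C 0 0x814187)) (Pf.C 2 0x814386)) (Pf.C 8 0xa0c384)) Pf.nil)) (Pf.C 0 0x80c286)))
 Pq.nil)
theorem fS_o16 : AllRef fS_T fS_G18 (splitObl [22] [24]) :=
  chkPq_sound fS_o16c _ (by decide +kernel)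
noncomputable def fS_o17c : Pq := (Pq.cons (Pq.L [3] 7 (Pf.C 0 0xc14184))
 Pq.nil)
theorem fS_o17 : AllRef fS_T fS_G18 (applyObl cl_T 1 [22] [0] []) :=
  chkPq_sound fS_o17c _ (by decide +kernel)
noncomputable def fS_o18c : Pq := (Pq.cons (Pq.L [3] 3 (Pf.C 8 0xc14184))
 Pq.nil)
theorem fS_o18 : AllRef fS_T fS_G18 (applyObl TD2 1 [24] [0] []) :=
  chkPq_sound fS_o18c _ (by decide +kernel)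
noncomputable def fS_o19c : Pq := (Pq.cons (Pq.L [1,2] 2 (Pf.C 2 0xa08083))
 (Pq.cons (Pq.L [0,2] 2 (Pf.C 2 0xa08003))
 Pq.nil))
theorem fS_o19 : AllRef fS_T fS_G6 (splitObl [6] [7,8]) :=
  chkPq_sound fS_o19c _ (by decide +kernel)
noncomputable def fS_o20c : Pq := (Pq.cons (Pq.L [2] 7 (Pf.C 0 0xa10103))
 Pq.nil)
theorem fS_o20 : AllRef fS_T fS_G6 (applyObl cl_T 1 [6] [0] []) :=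
  chkPq_sound fS_o20c _ (by decide +kernel)
noncomputable def fS_o21c : Pq := (Pq.cons (Pq.L [0,1] 2 (Pf.C 2 0xa04003))
 Pq.nil)
theorem fS_o21 : AllRef fS_T fS_G6 (splitObl [7] [8]) :=
  chkPq_sound fS_o21c _ (by decide +kernel)
noncomputable def fS_o22c : Pq := (Pq.cons (Pq.L [1] 7 (Pf.C 0 0xa10083))
 Pq.nil)
theorem fS_o22 : AllRef fS_T fS_G6 (applyObl cl_T 1 [7] [0] []) :=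
  chkPq_sound fS_o22c _ (by decide +kernel)
noncomputable def fS_o23c : Pq := (Pq.cons (Pq.L [0] 7 (Pf.C 0 0xa10003))
 Pq.nil)
theorem fS_o23 : AllRef fS_T fS_G6 (applyObl cl_T 1 [8] [0] []) :=
  chkPq_sound fS_o23c _ (by decide +kernel)
noncomputable def fS_o24c : Pq := Pq.nil
theorem fS_o24 : AllRef fS_T fS_G2 (ptObl 1 PT.kid []) :=
  chkPq_sound fS_o24c _ (by decide +kernel)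
noncomputable def fS_o25c : Pq := (Pq.cons (Pq.L [0,1,2,3] 0 (Pf.C 1 0x208184))
 (Pq.cons (Pq.L [1,2,3] 0 (Pf.C 0 0x608201))
 (Pq.cons (Pq.L [0,1,2,3] 0 (Pf.C 1 0x30404004))
 (Pq.cons (Pq.L [0,1,2] 0 (Pf.C 0 0x404200))
 Pq.nil))))
theorem fS_o25 : AllRef fS_T fS_G19 (ptObl 25 (PT.br 0 (PT.br 1 (PT.br 2 (PT.br 3 PT.kid PT.ref) (PT.br 3 PT.kid PT.kid)) (PT.br 2 (PT.br 3 PT.kid PT.kid) (PT.br 3 PT.kid PT.ref))) (PT.br 1 (PT.br 2 (PT.br 3 PT.ref PT.kid) (PT.br 3 PT.kid PT.kid)) (PT.br 2 (PT.br 3 PT.kid PT.kid) PT.ref))) []) :=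
  chkPq_sound fS_o25c _ (by decide +kernel)
noncomputable def fS_o26c : Pq := (Pq.cons (Pq.L [] 0 (Pf.X 0 4))
 (Pq.cons (Pq.L [] 0 (Pf.X 1 4))
 (Pq.cons (Pq.L [] 0 (Pf.X 2 4))
 (Pq.cons (Pq.L [] 0 (Pf.X 3 4))
 (Pq.cons (Pq.L [0,1,2] 1 (Pf.W 10 4 [] [0,1,2,5] (Pf.cons (Pf.B 6 5 (Pf.C 1 0x218205) (Pf.C 11 773)) (Pf.cons (Pf.B 6 5 (Pf.C 1 0x218205) (Pf.C 11 773)) (Pf.cons (Pf.B 6 5 (Pf.C 1 0x10018205) (Pf.C 11 773)) (Pf.cons (Pf.B 6 5 (Pf.C 1 0x10018205) (Pf.C 11 773)) (Pf.cons (Pf.B 6 5 (Pf.C 1 0x20218205) (Pf.C 11 773)) Pf.nil)))))))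
 (Pq.cons (Pq.L [0,1,2] 1 (Pf.C 1 0x208205))
 (Pq.cons (Pq.L [0,1,2] 1 (Pf.C 1 0x208205))
 (Pq.cons (Pq.L [1,2,3] 1 (Pf.C 1 0x30404205))
 (Pq.cons (Pq.L [] 1 (Pf.C 11 517))
 (Pq.cons (Pq.L [] 1 (Pf.C 11 517))
 (Pq.cons (Pq.L [0,1,2] 1 (Pf.C 1 0x20200205))
 (Pq.cons (Pq.L [] 1 (Pf.C 11 517))
 (Pq.cons (Pq.L [] 1 (Pf.C 11 517))
 (Pq.cons (Pq.L [1,2,3] 1 (Pf.C 1 0x30404205))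
 (Pq.cons (Pq.L [] 1 (Pf.C 11 517))
 Pq.nil)))))))))))))))
theorem fS_o26 : AllRef fS_T fS_G21 (closeObl (fS_T.sc.get 0) false [37,38,27,28,29,30,31,32,33,34,35,36] [0,0,0,0,0,0,0,0,0,0,0,0] [0,1,2,3] [0,0,0,0] 4093) :=
  chkPq_sound fS_o26c _ (by decide +kernel)
noncomputable def fS_o27c : Pq := (Pq.cons (Pq.L [0,2,3] 0 (Pf.B 7 5 (Pf.C 0 0xa0c107) (Pf.C 0 0x414380)))
 (Pq.cons (Pq.L [0,1,3] 0 (Pf.B 7 5 (Pf.C 0 0xa04007) (Pf.C 0 0x614380)))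
 (Pq.cons (Pq.L [0,2] 3 (Pf.B 7 5 (Pf.B 7 4 (Pf.B 6 5 (Pf.B 6 4 (Pf.C 1 0x40a00386) (Pf.C 0 0xa08206)) (Pf.C 0 0xe08305)) (Pf.C 0 0xa08207)) (Pf.C 0 0x414380)))
 (Pq.cons (Pq.L [0,2,3] 0 (Pf.B 7 5 (Pf.C 0 0xa0c107) (Pf.C 0 0x414380)))
 (Pq.cons (Pq.L [0,1,3] 0 (Pf.B 7 5 (Pf.C 0 0xa04007) (Pf.C 0 0x614380)))
 (Pq.cons (Pq.L [0,2,3] 0 (Pf.B 7 5 (Pf.C 0 0xa0c107) (Pf.C 0 0x414380)))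
 (Pq.cons (Pq.L [0,1,3] 0 (Pf.B 7 5 (Pf.C 0 0xa04007) (Pf.C 0 0x614380)))
 (Pq.cons (Pq.L [1,3] 3 (Pf.B 7 5 (Pf.B 7 4 (Pf.B 6 5 (Pf.B 6 4 (Pf.C 1 0x40a0c386) (Pf.C 0 0xa04206)) (Pf.C 0 0xe04305)) (Pf.C 0 0xa04207)) (Pf.C 0 0x614381)))
 (Pq.cons (Pq.L [0,2,3] 0 (Pf.B 7 5 (Pf.C 0 0xa0c107) (Pf.C 0 0x414380)))
 (Pq.cons (Pq.L [0,1,3] 0 (Pf.B 7 5 (Pf.C 0 0xa04007) (Pf.C 0 0x614380)))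
 (Pq.cons (Pq.L [0,3] 3 (Pf.B 7 5 (Pf.B 7 4 (Pf.B 6 5 (Pf.B 6 4 (Pf.C 1 0x40a00386) (Pf.C 0 0xa0c206)) (Pf.C 0 0xe0c305)) (Pf.C 0 0xa0c207)) (Pf.C 0 0x614380)))
 (Pq.cons (Pq.L [0,2,3] 0 (Pf.B 7 5 (Pf.C 0 0xa0c107) (Pf.C 0 0x414380)))
 (Pq.cons (Pq.L [0,1,3] 0 (Pf.B 7 5 (Pf.C 0 0xa04007) (Pf.C 0 0x614380)))
 (Pq.cons (Pq.L [0,1,2,3] 0 (Pf.B 7 6 (Pf.C 1 0x6040c380) (Pf.B 7 4 (Pf.C 1 0x4040c380) (Pf.B 6 4 (Pf.C 0 0x808086) (Pf.C 0 0xe10301)))))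
 (Pq.cons (Pq.L [0,2] 3 (Pf.B 7 5 (Pf.B 7 4 (Pf.B 6 5 (Pf.B 6 4 (Pf.C 1 0x40a08386) (Pf.C 0 0xa00206)) (Pf.C 0 0xe00305)) (Pf.C 0 0xa00207)) (Pf.C 0 0x414380)))
 (Pq.cons (Pq.L [0,2,3] 0 (Pf.B 7 5 (Pf.C 0 0xa0c107) (Pf.C 0 0x414380)))
 (Pq.cons (Pq.L [0,1,3] 0 (Pf.B 7 5 (Pf.C 0 0xa04007) (Pf.C 0 0x614380)))
 (Pq.cons (Pq.L [0,2,3] 0 (Pf.B 7 5 (Pf.C 0 0xa0c107) (Pf.C 0 0x414380)))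
 (Pq.cons (Pq.L [0,1,3] 0 (Pf.B 7 5 (Pf.C 0 0xa04007) (Pf.C 0 0x614380)))
 (Pq.cons (Pq.L [0,2,3] 0 (Pf.B 6 4 (Pf.C 0 0x80c106) (Pf.C 0 0x410300)))
 (Pq.cons (Pq.L [0,1,3] 0 (Pf.B 7 5 (Pf.C 0 0xa04007) (Pf.C 0 0x614380)))
 (Pq.cons (Pq.L [0,1,3] 0 (Pf.B 7 5 (Pf.C 0 0xa04007) (Pf.C 0 0x614380)))
 Pq.nil))))))))))))))))))))))
theorem fS_o27 : AllRef fS_T fS_G22 (hitObl [27,28,29,30,31,32,33,34,35,36,37] fS_h36) :=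
  chkPq_sound fS_o27c _ (by decide +kernel)
noncomputable def fS_o28c : Pq := (Pq.cons (Pq.L [0,1,3] 63 (Pf.B 9 6 (Pf.B 9 5 (Pf.B 8 5 (Pf.B 8 6 (Pf.C 1 0x50c04488) (Pf.B 7 6 (Pf.C 1 0x218407) (Pf.C 0 0x1220386))) (Pf.C 1 0x224405)) (Pf.B 9 4 (Pf.C 1 0x224284) (Pf.C 0 0xc14209))) (Pf.C 0 0x618481)))
 (Pq.cons (Pq.L [0,1,2] 63 (Pf.B 9 6 (Pf.B 9 5 (Pf.B 8 5 (Pf.B 8 6 (Pf.C 1 0x50c00488) (Pf.B 7 6 (Pf.C 1 0x10018407) (Pf.C 0 0x1220386))) (Pf.C 1 0x10024405)) (Pf.B 9 4 (Pf.C 1 0x10024284) (Pf.C 0 0xc14209))) (Pf.C 0 0x418480)))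
 (Pq.cons (Pq.L [0,1,2,3] 0 (Pf.B 9 8 (Pf.B 9 6 (Pf.C 0 0xc08089) (Pf.B 8 6 (Pf.B 6 5 (Pf.B 9 4 (Pf.B 8 4 (Pf.B 6 4 (Pf.B 5 4 (Pf.W 10 4 [] [0,1,2,3,8,9] (Pf.cons (Pf.B 10 9 (Pf.C 1 0x9040c504) (Pf.C 0 0x40448a)) (Pf.cons (Pf.B 10 8 (Pf.C 1 0x31004504) (Pf.C 0 0x404508)) (Pf.cons (Pf.B 10 9 (Pf.C 1 0x90200504) (Pf.C 0 0x20848a)) (Pf.cons (Pf.B 10 9 (Pf.C 1 0x90200503) (Pf.C 0 0x20848a)) (Pf.cons (Pf.B 10 9 (Pf.C 1 0x9040c500) (Pf.C 0 0x40448a)) Pf.nil)))))) (Pf.C 1 0x6040c284)) (Pf.C 1 0x31004304)) (Pf.C 1 0x9040c404)) (Pf.B 8 4 (Pf.C 1 0x41208188) (Pf.B 6 4 (Pf.C 1 0x31010486) (Pf.C 0 0x224304)))) (Pf.C 0 0x404305)) (Pf.C 0 0x404308))) (Pf.C 0 0x404488)))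
 (Pq.cons (Pq.L [0,1,2,3] 63 (Pf.B 9 5 (Pf.C 1 0x30a04009) (Pf.B 8 6 (Pf.C 1 0xc08188) (Pf.B 8 5 (Pf.B 8 4 (Pf.B 7 5 (Pf.B 7 4 (Pf.C 1 0x40a04407) (Pf.C 1 0x214207)) (Pf.C 0 0x1024385)) (Pf.C 0 0xa18208)) (Pf.C 0 0x614401)))))
 (Pq.cons (Pq.L [0,1,2,3] 0 (Pf.B 9 8 (Pf.B 9 6 (Pf.B 8 6 (Pf.B 8 5 (Pf.C 0 0xa08088) (Pf.B 6 5 (Pf.B 9 4 (Pf.B 8 4 (Pf.B 6 4 (Pf.B 5 4 (Pf.W 10 4 [] [0,1,2,3,8,9] (Pf.cons (Pf.B 10 8 (Pf.C 1 0x8040c504) (Pf.C 0 0x40440a)) (Pf.cons (Pf.B 10 9 (Pf.C 1 0x1208504) (Pf.C 0 0x208509)) (Pf.cons (Pf.B 10 8 (Pf.C 1 0x80200504) (Pf.C 0 0x20840a)) (Pf.cons (Pf.B 10 8 (Pf.C 1 0x80200503) (Pf.C 0 0x20840a)) (Pf.cons (Pf.B 10 9 (Pf.C 1 0x21200504) (Pf.C 0 0x200509)) Pf.nil)))))) (Pf.C 1 0x60004284)) (Pf.C 1 0x80200304)) (Pf.C 1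 0x90004404)) (Pf.B 8 4 (Pf.C 1 0x41200088) (Pf.B 6 4 (Pf.C 1 0x80824006) (Pf.B 5 4 (Pf.C 1 0xc10405) (Pf.C 0 0x220284))))) (Pf.C 0 0x208286))) (Pf.C 0 0x208406)) (Pf.C 0 0x418480)) (Pf.C 0 0x208409)))
 (Pq.cons (Pq.L [0,1,2,3] 7 (Pf.B 9 6 (Pf.B 9 5 (Pf.C 1 0x10a18189) (Pf.B 9 4 (Pf.C 1 0x20818009) (Pf.C 0 0xc14209))) (Pf.C 0 0x618480)))
 Pq.nil))))))
theorem fS_o28 : AllRef fS_T fS_G23 (hitObl [39,41,42,43,44,45,49] fS_h37) :=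
  chkPq_sound fS_o28c _ (by decide +kernel)
noncomputable def fS_o29c : Pq := (Pq.cons (Pq.L [0,2,3] 0 (Pf.B 5 4 (Pf.C 0 0x80c105) (Pf.C 0 0x410280)))
 (Pq.cons (Pq.L [0,1,3] 0 (Pf.B 5 4 (Pf.C 0 0x804005) (Pf.C 0 0x610280)))
 Pq.nil))
theorem fS_o29 : AllRef fS_T fS_G24 (hitObl [46,48] fS_h38) :=
  chkPq_sound fS_o29c _ (by decide +kernel)
noncomputable def fS_o30c : Pq := (Pq.cons (Pq.L [] 0 (Pf.C 22 4))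
 (Pq.cons (Pq.L [] 0 (Pf.C 23 4))
 Pq.nil))
theorem fS_o30 : AllRef fS_T fS_G25 (List.map pat1 [57,58]) :=
  chkPq_sound fS_o30c _ (by decide +kernel)
noncomputable def fS_o31c : Pq := (Pq.cons (Pq.L [0,1,2] 1 (Pf.C 1 0x208205))
 (Pq.cons (Pq.L [1,2,3] 1 (Pf.C 1 0x30404205))
 (Pq.cons (Pq.L [0,1,2] 1 (Pf.C 1 0x20200205))
 (Pq.cons (Pq.L [2,3] 1 (Pf.C 0 0xa08203))
 (Pq.cons (Pq.L [0,2,3] 1 (Pf.C 1 0x30414200))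
 (Pq.cons (Pq.L [0,1,2] 2 (Pf.C 1 0x60404004))
 (Pq.cons (Pq.L [0,1,3] 1 (Pf.C 1 0x214203))
 (Pq.cons (Pq.L [0,1] 1 (Pf.C 0 0xa04200))
 (Pq.cons (Pq.L [1,2,3] 2 (Pf.C 1 0x60208184))
 (Pq.cons (Pq.L [2,3] 1 (Pf.C 0 0xa0c202))
 (Pq.cons (Pq.L [0,1] 1 (Pf.C 0 0xa04200))
 (Pq.cons (Pq.L [] 1 (Pf.C 14 517))
 (Pq.cons (Pq.L [1,2] 1 (Pf.C 0 0x214104))
 (Pq.cons (Pq.L [1,2] 1 (Pf.C 0 0x414084))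
 (Pq.cons (Pq.L [] 0 (Pf.C 15 517))
 (Pq.cons (Pq.L [2,3] 1 (Pf.C 0 0xa08203))
 (Pq.cons (Pq.L [0,1] 1 (Pf.C 0 0xa00201))
 (Pq.cons (Pq.L [] 1 (Pf.C 16 644))
 Pq.nil))))))))))))))))))
theorem fS_o31 : AllRef fS_T fS_G26 (splitObl [56,50,51,52,53,55] [40,47,54]) :=
  chkPq_sound fS_o31c _ (by decide +kernel)
noncomputable def fS_o32c : Pq := (Pq.cons (Pq.L [] 1 (Pf.C 25 644))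
 (Pq.cons (Pq.L [0,1,2] 1 (Pf.C 1 0x208205))
 (Pq.cons (Pq.L [1,2,3] 1 (Pf.C 1 0x30404205))
 (Pq.cons (Pq.L [0,1] 3 (Pf.B 6 5 (Pf.W 24 5 [] [0,1,4] (Pf.cons (Pf.B 7 4 (Pf.C 1 0x210287) (Pf.C 17 66183)) (Pf.cons (Pf.C 19 0x1c205) Pf.nil))) (Pf.C 1 0x210286)))
 (Pq.cons (Pq.L [0,1] 3 (Pf.B 6 5 (Pf.W 24 5 [] [0,1,4] (Pf.cons (Pf.B 7 4 (Pf.C 1 0x10010287) (Pf.C 18 66183)) (Pf.cons (Pf.C 21 66437) Pf.nil))) (Pf.C 1 0x10010286)))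
 (Pq.cons (Pq.L [0,1,2] 1 (Pf.C 1 0x208205))
 (Pq.cons (Pq.L [1,2,3] 1 (Pf.C 1 0x30404205))
 (Pq.cons (Pq.L [] 1 (Pf.C 25 644))
 (Pq.cons (Pq.L [1,2] 1 (Pf.C 0 0x214104))
 (Pq.cons (Pq.L [1,2] 1 (Pf.C 0 0x414084))
 (Pq.cons (Pq.L [1,2] 1 (Pf.C 0 0x414084))
 (Pq.cons (Pq.L [1,2] 1 (Pf.C 0 0x214104))
 (Pq.cons (Pq.L [1,2] 1 (Pf.C 0 0x214104))
 (Pq.cons (Pq.L [1,2] 1 (Pf.C 0 0x414084))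
 Pq.nil))))))))))))))
theorem fS_o32 : AllRef fS_T fS_G29 (splitObl [59,53] [60,62,64,52,55,61,63]) :=
  chkPq_sound fS_o32c _ (by decide +kernel)
noncomputable def fS_o33c : Pq := (Pq.cons (Pq.L [1] 7 (Pf.C 0 0xc04205))
 Pq.nil)
theorem fS_o33 : AllRef fS_T fS_G30 (twinObl [59,53] 2 [3,1]) :=
  chkPq_sound fS_o33c _ (by decide +kernel)
noncomputable def fS_o34c : Pq := (Pq.cons (Pq.L [1,2] 1 (Pf.C 0 0xa08084))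
 (Pq.cons (Pq.L [1,2] 1 (Pf.C 0 0xa08084))
 Pq.nil))
theorem fS_o34 : AllRef fS_T fS_G32 (blockObl [65,66] [0,2] [3,1] [3,1]) :=
  chkPq_sound fS_o34c _ (by decide +kernel)
noncomputable def fS_o35c : Pq := (Pq.cons (Pq.L [0,1,2,3] 0 (Pf.W 10 4 [] [0,1,2,3] (Pf.cons (Pf.W 24 4 [] [0,1,2,5] (Pf.cons (Pf.B 6 5 (Pf.C 1 0x214206) (Pf.T 6 9 (Pf.cons (Pf.W 31 4 [] [0,1,2,5,6] (Pf.cons (Pf.W 31 4 [6] [0,1,2,5] (Pf.cons (Pf.B 7 6 (Pf.B 7 5 (Pf.C 1 0x214207) (Pf.C 0 0xc10287)) (Pf.C 30 66311)) (Pf.cons (Pf.B 7 6 (Pf.C 1 0x21c206) (Pf.B 7 5 (Pf.C 0 0xa18207) (Pf.C 0 0x404385))) Pf.nil))) (Pf.cons (Pf.B 7 6 (Pf.B 7 5 (Pf.C 1 0x214207) (Pf.C 0 0xc10287)) (Pf.C 30 66311)) (Pf.cons (Pf.B 7 6 (Pf.C 1 0x21c206) (Pf.B 7 5 (Pf.C 0 0xa18207) (Pf.C 0 0x404385)))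 Pf.nil)))) (Pf.cons (Pf.C 25 518) Pf.nil)))) (Pf.cons (Pf.B 6 5 (Pf.W 31 4 [] [0,1,2,5,6] (Pf.cons (Pf.B 7 6 (Pf.C 1 0x218207) (Pf.B 7 5 (Pf.C 1 0x214207) (Pf.C 0 0xc10385))) (Pf.cons (Pf.W 31 4 [6] [0,1,2,5] (Pf.cons (Pf.B 7 6 (Pf.C 1 0x218207) (Pf.B 7 5 (Pf.C 1 0x214207) (Pf.C 0 0xc10385))) (Pf.cons (Pf.B 7 6 (Pf.C 0 0xc08087) (Pf.C 0 0x818381)) Pf.nil))) (Pf.cons (Pf.B 7 6 (Pf.C 0 0xc08087) (Pf.C 0 0x818381)) Pf.nil)))) (Pf.C 0 0x404305)) Pf.nil))) (Pf.cons (Pf.W 24 4 [] [0,1,2,5] (Pf.cons (Pf.B 6 5 (Pf.C 1 0x214206) (Pf.T 6 9 (Pf.cons (Pf.W 31 4 [] [0,1,2,5,6] (Pf.cons (Pf.W 31 4 [6] [0,1,2,5] (Pf.cons (Pf.B 7 6 (Pf.B 7 5 (Pf.C 1 0x214207) (Pf.C 0 0xc10287)) (Pf.C 30 66311)) (Pf.cons (Pf.W 31 4 [5,6] [0,1,2] (Pf.cons (Pf.B 7 6 (Pf.B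 7 5 (Pf.C 1 0x214207) (Pf.C 0 0xc10287)) (Pf.C 30 66311)) (Pf.cons (Pf.B 7 5 (Pf.C 0 0xa08087) (Pf.C 0 0x814381)) Pf.nil))) (Pf.cons (Pf.B 7 5 (Pf.C 0 0xa08087) (Pf.C 0 0x814381)) Pf.nil)))) (Pf.cons (Pf.B 7 6 (Pf.B 7 5 (Pf.C 1 0x214207) (Pf.C 0 0xc10287)) (Pf.C 30 66311)) (Pf.cons (Pf.W 31 4 [5] [0,1,2,6] (Pf.cons (Pf.W 31 4 [5,6] [0,1,2] (Pf.cons (Pf.B 7 6 (Pf.B 7 5 (Pf.C 1 0x214207) (Pf.C 0 0xc10287)) (Pf.C 30 66311)) (Pf.cons (Pf.B 7 5 (Pf.C 0 0xa08087) (Pf.C 0 0x814381)) Pf.nil))) (Pf.cons (Pf.B 7 6 (Pf.B 7 5 (Pf.C 1 0x214207) (Pf.C 0 0xc10287)) (Pf.C 30 66311)) (Pf.cons (Pf.B 7 5 (Pf.C 0 0xa08087) (Pf.C 0 0x814381)) Pf.nil)))) (Pf.cons (Pf.B 7 5 (Pf.C 0 0xa08087) (Pf.C 0 0x814381)) Pf.nil))))) (Pf.cons (Pf.C 25 518) Pf.nil)))) (Pf.cons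 (Pf.W 31 4 [] [0,1,2,5] (Pf.cons (Pf.B 6 5 (Pf.C 1 0x214206) (Pf.W 31 4 [6] [0,1,2,5] (Pf.cons (Pf.B 7 6 (Pf.B 7 5 (Pf.C 1 0x214207) (Pf.C 0 0xc10287)) (Pf.C 30 66311)) (Pf.cons (Pf.W 31 4 [5,6] [0,1,2] (Pf.cons (Pf.B 7 6 (Pf.B 7 5 (Pf.C 1 0x214207) (Pf.C 0 0xc10287)) (Pf.C 30 66311)) (Pf.cons (Pf.B 7 5 (Pf.C 0 0xa08087) (Pf.C 0 0x814381)) Pf.nil))) (Pf.cons (Pf.B 7 5 (Pf.C 0 0xa08087) (Pf.C 0 0x814381)) Pf.nil))))) (Pf.cons (Pf.T 5 13 (Pf.cons (Pf.W 31 4 [5] [0,1,2] (Pf.cons (Pf.B 6 5 (Pf.C 1 0x214206) (Pf.W 31 4 [5,6] [0,1,2] (Pf.cons (Pf.B 7 6 (Pf.B 7 5 (Pf.C 1 0x214207) (Pf.C 0 0xc10287)) (Pf.C 30 66311)) (Pf.cons (Pf.B 7 5 (Pf.C 0 0xa08087) (Pf.C 0 0x814381)) Pf.nil)))) (Pf.cons (Pf.B 6 5 (Pf.C 0 0xa08086) (Pf.C 0 0x814301)) Pf.nil)))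 (Pf.cons (Pf.W 31 4 [5] [0,1,2] (Pf.cons (Pf.B 6 5 (Pf.C 1 0x214206) (Pf.W 31 4 [5,6] [0,1,2] (Pf.cons (Pf.B 7 6 (Pf.B 7 5 (Pf.C 1 0x214207) (Pf.C 0 0xc10287)) (Pf.C 30 66311)) (Pf.cons (Pf.B 7 5 (Pf.C 0 0xa08087) (Pf.C 0 0x814381)) Pf.nil)))) (Pf.cons (Pf.B 6 5 (Pf.C 0 0xa08086) (Pf.C 0 0x814301)) Pf.nil))) Pf.nil))) (Pf.cons (Pf.B 6 5 (Pf.C 0 0xa08086) (Pf.C 0 0x814301)) Pf.nil)))) (Pf.cons (Pf.B 6 5 (Pf.C 0 0xa08086) (Pf.C 0 0x814301)) Pf.nil)))) (Pf.cons (Pf.W 24 4 [] [0,1,2,5] (Pf.cons (Pf.B 6 5 (Pf.C 1 0x10014206) (Pf.T 6 9 (Pf.cons (Pf.W 31 4 [] [0,1,2,5,6] (Pf.cons (Pf.W 31 4 [6] [0,1,2,5] (Pf.cons (Pf.B 7 6 (Pf.B 7 5 (Pf.C 1 0x10014207) (Pf.C 0 0xc10287)) (Pf.C 30 66311)) (Pf.cons (Pf.B 7 6 (Pf.C 1 0x21c206) (Pf.B 7 5 (Pf.C 0 0xa18207)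 (Pf.C 0 0x208385))) Pf.nil))) (Pf.cons (Pf.B 7 6 (Pf.B 7 5 (Pf.C 1 0x10014207) (Pf.C 0 0xc10287)) (Pf.C 30 66311)) (Pf.cons (Pf.B 7 6 (Pf.C 1 0x21c206) (Pf.B 7 5 (Pf.C 0 0xa18207) (Pf.C 0 0x208385))) Pf.nil)))) (Pf.cons (Pf.C 25 518) Pf.nil)))) (Pf.cons (Pf.B 6 5 (Pf.W 31 4 [] [0,1,2,5,6] (Pf.cons (Pf.B 7 6 (Pf.C 1 0x218207) (Pf.B 7 5 (Pf.C 1 0x10014207) (Pf.C 0 0xc10385))) (Pf.cons (Pf.W 31 4 [6] [0,1,2,5] (Pf.cons (Pf.B 7 6 (Pf.C 1 0x218207) (Pf.B 7 5 (Pf.C 1 0x10014207) (Pf.C 0 0xc10385))) (Pf.cons (Pf.B 7 6 (Pf.C 0 0xc08087) (Pf.C 0 0x818381)) Pf.nil))) (Pf.cons (Pf.B 7 6 (Pf.C 0 0xc08087) (Pf.C 0 0x818381)) Pf.nil)))) (Pf.C 0 0x208305)) Pf.nil))) (Pf.cons (Pf.W 24 4 [] [0,1,2,3,5] (Pf.cons (Pf.B 6 5 (Pf.C 1 0x10014206) (Pf.T 6 9 (Pf.cons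 (Pf.W 31 4 [] [0,1,2,3,5,6] (Pf.cons (Pf.W 31 4 [6] [0,1,2,3,5] (Pf.cons (Pf.B 7 6 (Pf.B 7 5 (Pf.C 1 0x10014207) (Pf.C 0 0xc10287)) (Pf.C 30 66311)) (Pf.cons (Pf.B 7 6 (Pf.C 1 0x21c206) (Pf.B 7 5 (Pf.C 0 0xa18207) (Pf.C 0 0x608287))) Pf.nil))) (Pf.cons (Pf.B 7 6 (Pf.B 7 5 (Pf.C 1 0x10014207) (Pf.C 0 0xc10287)) (Pf.C 30 66311)) (Pf.cons (Pf.B 7 6 (Pf.C 1 0x21c206) (Pf.B 7 5 (Pf.C 0 0xa18207) (Pf.C 0 0x608287))) Pf.nil)))) (Pf.cons (Pf.C 25 518) Pf.nil)))) (Pf.cons (Pf.B 6 5 (Pf.C 1 0x30a00086) (Pf.C 0 0x608286)) Pf.nil))) (Pf.cons (Pf.W 24 4 [] [0,1,2,3,5] (Pf.cons (Pf.B 6 5 (Pf.C 1 0x20214206) (Pf.T 6 9 (Pf.cons (Pf.W 31 4 [] [0,1,2,5,6] (Pf.cons (Pf.W 31 4 [6] [0,1,2,5] (Pf.cons (Pf.B 7 6 (Pf.B 7 5 (Pf.C 1 0x20214207) (Pf.C 0 0xc10287))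 (Pf.C 30 66311)) (Pf.cons (Pf.B 7 6 (Pf.C 1 0x21c206) (Pf.B 7 5 (Pf.C 0 0xa18207) (Pf.C 0 17031))) Pf.nil))) (Pf.cons (Pf.B 7 6 (Pf.B 7 5 (Pf.C 1 0x20214207) (Pf.C 0 0xc10287)) (Pf.C 30 66311)) (Pf.cons (Pf.B 7 6 (Pf.C 1 0x21c206) (Pf.B 7 5 (Pf.C 0 0xa18207) (Pf.C 0 17031))) Pf.nil)))) (Pf.cons (Pf.C 25 518) Pf.nil)))) (Pf.cons (Pf.B 6 5 (Pf.C 1 0xa0c106) (Pf.C 0 17030)) Pf.nil))) Pf.nil)))))))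
 Pq.nil)
theorem fS_o35 : AllRef fS_T fS_G35 (List.map pat1 [73]) :=
  chkPq_sound fS_o35c _ (by decide +kernel)
noncomputable def fS_o36c : Pq := Pq.nil
theorem fS_o36 : AllRef fS_T fS_G36 (extObl 75 [] []) :=
  chkPq_sound fS_o36c _ (by decide +kernel)
noncomputable def fS_o37c : Pq := (Pq.cons (Pq.D 0 (Pq.cons (Pq.D 1 (Pq.cons (Pq.D 2 (Pq.cons (Pq.L [0,1,2,3] 7 (Pf.B 6 5 (Pf.B 7 6 (Pf.B 7 2 (Pf.B 7 1 (Pf.W 10 4 [] [0,1,2,6,7] (Pf.cons (Pf.B 8 7 (Pf.C 1 0x220207) (Pf.B 8 6 (Pf.C 1 0x220206) (Pf.C 0 0xe10406))) (Pf.cons (Pf.B 8 7 (Pf.C 1 0x220207) (Pf.B 8 6 (Pf.C 1 0x220206) (Pf.C 0 0xe10406))) (Pf.cons (Pf.B 8 7 (Pf.C 1 0x10020207) (Pf.B 8 6 (Pf.C 1 0x10020206) (Pf.C 0 0xe10406))) (Pf.cons (Pf.B 8 7 (Pf.C 1 0x10020207) (Pf.B 8 6 (Pf.C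 1 0x10020206) (Pf.C 0 0xe10406))) (Pf.cons (Pf.B 8 7 (Pf.C 1 0x20220207) (Pf.B 8 6 (Pf.C 1 0x20220206) (Pf.C 0 0xe10406))) Pf.nil)))))) (Pf.C 1 0x30404384)) (Pf.C 1 0x6081c103)) (Pf.B 7 5 (Pf.B 7 2 (Pf.B 7 1 (Pf.W 10 4 [] [0,1,2,5,6,7] (Pf.cons (Pf.B 8 7 (Pf.C 1 0x220207) (Pf.B 8 6 (Pf.C 0 0xc1c208) (Pf.B 8 5 (Pf.C 1 0x220205) (Pf.C 0 0xc10405)))) (Pf.cons (Pf.B 8 7 (Pf.C 1 0x220207) (Pf.B 8 6 (Pf.C 0 0xc1c208) (Pf.B 8 5 (Pf.C 1 0x220205) (Pf.C 0 0xc10405)))) (Pf.cons (Pf.B 8 7 (Pf.C 1 0x10020207) (Pf.B 8 6 (Pf.C 0 0xc1c208) (Pf.B 8 5 (Pf.C 1 0x10020205) (Pf.C 0 0xc10405)))) (Pf.cons (Pf.B 8 7 (Pf.C 1 0x10020207) (Pf.B 8 6 (Pf.C 0 0xc1c208) (Pf.B 8 5 (Pf.C 1 0x10020205) (Pf.C 0 0xc10405)))) (Pf.cons (Pf.B 8 7 (Pf.C 1 0x20220207) (Pf.B 8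 6 (Pf.C 0 0xc1c208) (Pf.B 8 5 (Pf.C 1 0x20220205) (Pf.C 0 0xc10405)))) Pf.nil)))))) (Pf.C 1 0x30404384)) (Pf.C 1 0x5081c103)) (Pf.C 0 0xc10385))) (Pf.C 30 66182)))
 (Pq.cons (Pq.D 3 (Pq.cons (Pq.L [] 7 (Pf.C 32 0xe18284))
 (Pq.cons (Pq.L [] 7 (Pf.C 32 0xe18284))
 Pq.nil))) Pq.nil))) (Pq.cons (Pq.D 2 (Pq.cons (Pq.D 3 (Pq.cons (Pq.L [] 7 (Pf.C 32 0xe18284))
 (Pq.cons (Pq.L [] 7 (Pf.C 32 0xe18284))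
 Pq.nil))) (Pq.cons (Pq.L [1,2] 3 (Pf.B 6 5 (Pf.C 0 0xa08086) (Pf.C 0 0x814301)))
 Pq.nil))) Pq.nil))) (Pq.cons (Pq.D 1 (Pq.cons (Pq.D 2 (Pq.cons (Pq.D 3 (Pq.cons (Pq.L [] 7 (Pf.C 33 0xe18284))
 (Pq.cons (Pq.L [1,2] 4 (Pf.C 0 0xe08084))
 Pq.nil))) (Pq.cons (Pq.L [1,2] 2 (Pf.C 0 0xc08084))
 Pq.nil))) (Pq.cons (Pq.L [1,2] 1 (Pf.C 0 0xa08084))
 Pq.nil))) Pq.nil))) Pq.nil)
theorem fS_o37 : AllRef fS_T fS_G37 (applyObl TD2 1 [74,76] [0,0] [(76,0x10000000000000000000)]) :=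
  chkPq_sound fS_o37c _ (by decide +kernel)
noncomputable def fS_o38c : Pq := Pq.nil
theorem fS_o38 : AllRef fS_T fS_G38 (ptObl 74 (PT.br 4 PT.kid PT.kid) []) :=
  chkPq_sound fS_o38c _ (by decide +kernel)
noncomputable def fS_o39c : Pq := Pq.nil
theorem fS_o39 : AllRef fS_T fS_G39 (ptObl 75 PT.kid []) :=
  chkPq_sound fS_o39c _ (by decide +kernel)
noncomputable def fS_o40c : Pq := (Pq.cons (Pq.L [1,2,4] 0 (Pf.C 0 0x808085))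
 Pq.nil)
theorem fS_o40 : AllRef fS_T fS_G40 (ptObl 80 (PT.br 4 PT.ref PT.kid) []) :=
  chkPq_sound fS_o40c _ (by decide +kernel)
noncomputable def fS_o41c : Pq := (Pq.cons (Pq.L [1,2,4] 0 (Pf.C 0 0x808085))
 Pq.nil)
theorem fS_o41 : AllRef fS_T fS_G41 (ptObl 76 (PT.br 4 PT.ref PT.kid) []) :=
  chkPq_sound fS_o41c _ (by decide +kernel)
noncomputable def fS_o42c : Pq := (Pq.cons (Pq.L [] 0 (Pf.X 4 5))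
 (Pq.cons (Pq.L [0,1,4] 1 (Pf.C 1 0x210286))
 (Pq.cons (Pq.L [] 0 (Pf.X 4 5))
 (Pq.cons (Pq.L [1,4] 1 (Pf.C 0 0x218205))
 (Pq.cons (Pq.L [] 0 (Pf.X 4 5))
 (Pq.cons (Pq.L [1,4] 1 (Pf.C 0 0x218205))
 Pq.nil))))))
theorem fS_o42 : AllRef fS_T fS_G42 (closeObl (fS_T.sc.get 2) false [78,79,81,82] [0,0,1,1] [4] [1] 2) :=
  chkPq_sound fS_o42c _ (by decide +kernel)
noncomputable def fS_o43c : Pq := (Pq.cons (Pq.L [0,1,2] 6 (Pf.B 8 7 (Pf.W 10 5 [] [0,1,2,7,8] (Pf.cons (Pf.B 9 8 (Pf.C 1 0x224288) (Pf.B 9 7 (Pf.C 1 0x224287) (Pf.C 0 0x1014487))) (Pf.cons (Pf.B 9 8 (Pf.C 1 0x224288) (Pf.B 9 7 (Pf.C 1 0x224287) (Pf.C 0 0x1014487))) (Pf.cons (Pf.B 9 8 (Pf.C 1 0x10024288) (Pf.B 9 7 (Pf.C 1 0x10024287) (Pf.C 0 0x1014487))) (Pf.cons (Pf.B 9 8 (Pf.C 1 0x10024288)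 (Pf.B 9 7 (Pf.C 1 0x10024287) (Pf.C 0 0x1014487))) (Pf.cons (Pf.B 9 8 (Pf.C 1 0x20224288) (Pf.B 9 7 (Pf.C 1 0x20224287) (Pf.C 0 0x1014487))) Pf.nil)))))) (Pf.C 30 82824)))
 Pq.nil)
theorem fS_o43 : AllRef fS_T fS_G43 (applyObl TD2 1 [79] [0] []) :=
  chkPq_sound fS_o43c _ (by decide +kernel)
noncomputable def fS_o44c : Pq := Pq.nil
theorem fS_o44 : AllRef fS_T fS_G31 (ptObl 59 PT.kid []) :=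
  chkPq_sound fS_o44c _ (by decide +kernel)
noncomputable def fS_o45c : Pq := (Pq.cons (Pq.L [0,1,2,4,6] 0 (Pf.W 10 4 [] [0,1,2,6,7] (Pf.cons (Pf.B 8 6 (Pf.C 1 0x220206) (Pf.B 8 7 (Pf.C 1 0x220307) (Pf.C 0 0x818407))) (Pf.cons (Pf.B 8 6 (Pf.C 1 0x220206) (Pf.B 8 7 (Pf.C 1 0x220307) (Pf.C 0 0x818407))) (Pf.cons (Pf.B 8 6 (Pf.C 1 0x10020206) (Pf.B 8 7 (Pf.C 1 0x10020307) (Pf.C 0 0x818407))) (Pf.cons (Pf.B 8 6 (Pf.C 1 0x10020206) (Pf.B 8 7 (Pf.C 1 0x10020307) (Pf.C 0 0x818407))) (Pf.cons (Pf.B 8 6 (Pf.C 1 0x20220206) (Pf.B 8 7 (Pf.C 1 0x20220307) (Pf.C 0 0x818407))) Pf.nil)))))))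
 (Pq.cons (Pq.L [0,1,2,4,5,6] 0 (Pf.W 10 4 [] [0,1,2,5,6,7] (Pf.cons (Pf.B 8 6 (Pf.C 1 0x220206) (Pf.B 8 5 (Pf.C 0 0xa18208) (Pf.B 8 7 (Pf.C 1 0x220287) (Pf.C 0 0x814407)))) (Pf.cons (Pf.B 8 6 (Pf.C 1 0x220206) (Pf.B 8 5 (Pf.C 0 0xa18208) (Pf.B 8 7 (Pf.C 1 0x220287) (Pf.C 0 0x814407)))) (Pf.cons (Pf.B 8 6 (Pf.C 1 0x10020206) (Pf.B 8 5 (Pf.C 0 0xa18208) (Pf.B 8 7 (Pf.C 1 0x10020287) (Pf.C 0 0x814407)))) (Pf.cons (Pf.B 8 6 (Pf.C 1 0x10020206) (Pf.B 8 5 (Pf.C 0 0xa18208) (Pf.B 8 7 (Pf.C 1 0x10020287) (Pf.C 0 0x814407)))) (Pf.cons (Pf.B 8 6 (Pf.C 1 0x20220206) (Pf.B 8 5 (Pf.C 0 0xa18208) (Pf.B 8 7 (Pf.C 1 0x20220287) (Pf.C 0 0x814407)))) Pf.nil)))))))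
 (Pq.cons (Pq.L [0,1,2,4,5,6] 0 (Pf.B 7 6 (Pf.W 10 4 [] [0,1,2,6,7] (Pf.cons (Pf.B 8 7 (Pf.C 1 0x220207) (Pf.B 8 6 (Pf.C 1 0x220206) (Pf.C 0 0xe10406))) (Pf.cons (Pf.B 8 7 (Pf.C 1 0x220207) (Pf.B 8 6 (Pf.C 1 0x220206) (Pf.C 0 0xe10406))) (Pf.cons (Pf.B 8 7 (Pf.C 1 0x10020207) (Pf.B 8 6 (Pf.C 1 0x10020206) (Pf.C 0 0xe10406))) (Pf.cons (Pf.B 8 7 (Pf.C 1 0x10020207) (Pf.B 8 6 (Pf.C 1 0x10020206) (Pf.C 0 0xe10406))) (Pf.cons (Pf.B 8 7 (Pf.C 1 0x20220207) (Pf.B 8 6 (Pf.C 1 0x20220206) (Pf.C 0 0xe10406))) Pf.nil)))))) (Pf.C 0 0xa10307)))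
 (Pq.cons (Pq.L [4,5,6] 0 (Pf.C 0 0xc14207))
 Pq.nil))))
theorem fS_o45 : AllRef fS_T fS_G44 (ptObl 83 (PT.br 4 (PT.br 5 (PT.br 6 PT.kid PT.ref) PT.ref) (PT.br 5 PT.ref (PT.br 6 PT.ref PT.kid))) []) :=
  chkPq_sound fS_o45c _ (by decide +kernel)
noncomputable def fS_o46c : Pq := (Pq.cons (Pq.L [0,1,4,6] 0 (Pf.C 1 0x40c1c080))
 (Pq.cons (Pq.L [0,1,4,5] 0 (Pf.C 1 0x40a1c080))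
 (Pq.cons (Pq.L [0,1,4,5] 0 (Pf.C 1 0x5081c080))
 (Pq.cons (Pq.L [4,5,6] 0 (Pf.C 0 0xc14207))
 Pq.nil))))
theorem fS_o46 : AllRef fS_T fS_G45 (ptObl 53 (PT.br 4 (PT.br 5 (PT.br 6 PT.kid PT.ref) PT.ref) (PT.br 5 PT.ref (PT.br 6 PT.ref PT.kid))) []) :=
  chkPq_sound fS_o46c _ (by decide +kernel)
noncomputable def fS_o47c : Pq := (Pq.cons (Pq.L [1,2,4] 0 (Pf.B 8 7 (Pf.C 0 0xe08088) (Pf.C 0 0x81c401)))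
 Pq.nil)
theorem fS_o47 : AllRef fS_T fS_G46 (hitObl [87] fS_h68) :=
  chkPq_sound fS_o47c _ (by decide +kernel)
noncomputable def fS_o48c : Pq := (Pq.cons (Pq.L [] 0 (Pf.C 34 7))
 Pq.nil)
theorem fS_o48 : AllRef fS_T fS_G47 (List.map pat1 [88]) :=
  chkPq_sound fS_o48c _ (by decide +kernel)
noncomputable def fS_o49c : Pq := (Pq.cons (Pq.L [0,1,2,4] 1 (Pf.W 10 4 [] [0,1,2,7,8] (Pf.cons (Pf.B 10 7 (Pf.C 1 0x228207) (Pf.B 10 8 (Pf.C 1 0x228388) (Pf.C 0 0x81c508))) (Pf.cons (Pf.B 10 7 (Pf.C 1 0x228207) (Pf.B 10 8 (Pf.C 1 0x228388) (Pf.C 0 0x81c508))) (Pf.cons (Pf.B 10 7 (Pf.C 1 0x10028207) (Pf.B 10 8 (Pf.C 1 0x10028388) (Pf.C 0 0x81c508))) (Pf.cons (Pf.B 10 7 (Pf.C 1 0x10028207) (Pf.B 10 8 (Pf.C 1 0x10028388) (Pf.C 0 0x81c508))) (Pf.cons (Pf.B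 10 7 (Pf.C 1 0x20228207) (Pf.B 10 8 (Pf.C 1 0x20228388) (Pf.C 0 0x81c508))) Pf.nil)))))))
 (Pq.cons (Pq.L [0,1,4] 1 (Pf.C 1 0x220384))
 Pq.nil))
theorem fS_o49 : AllRef fS_T fS_G48 (splitObl [84,86] [85]) :=
  chkPq_sound fS_o49c _ (by decide +kernel)
noncomputable def fS_o50c : Pq := (Pq.cons (Pq.L [0,1,2] 3 (Pf.B 9 8 (Pf.W 35 8 [] [0,1,7] (Pf.cons (Pf.B 10 7 (Pf.C 1 0x228407) (Pf.C 36 1287)) Pf.nil)) (Pf.W 10 7 [] [0,1,2,8,9] (Pf.cons (Pf.B 10 8 (Pf.C 1 0x228388) (Pf.B 10 9 (Pf.C 1 0x228409) (Pf.C 0 0xe20509))) (Pf.cons (Pf.B 10 8 (Pf.C 1 0x228388) (Pf.B 10 9 (Pf.C 1 0x228409) (Pf.C 0 0xe20509))) (Pf.cons (Pf.B 10 8 (Pf.C 1 0x10028388) (Pf.B 10 9 (Pf.C 1 0x10028409) (Pf.C 0 0xe20509))) (Pf.cons (Pf.B 10 8 (Pf.C 1 0x10028388) (Pf.B 10 9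 (Pf.C 1 0x10028409) (Pf.C 0 0xe20509))) (Pf.cons (Pf.B 10 8 (Pf.C 1 0x20228388) (Pf.B 10 9 (Pf.C 1 0x20228409) (Pf.C 0 0xe20509))) Pf.nil))))))))
 (Pq.cons (Pq.L [] 1 (Pf.C 36 1031))
 Pq.nil))
theorem fS_o50 : AllRef fS_T fS_G49 (splitObl [89,86] [90]) :=
  chkPq_sound fS_o50c _ (by decide +kernel)
noncomputable def fS_o51c : Pq := (Pq.cons (Pq.L [1] 7 (Pf.C 0 0x1204388))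
 Pq.nil)
theorem fS_o51 : AllRef fS_T fS_G49 (twinObl [89,86] 2 [3,1]) :=
  chkPq_sound fS_o51c _ (by decide +kernel)
noncomputable def fS_o52c : Pq := (Pq.cons (Pq.L [1,2] 1 (Pf.C 0 0x1008087))
 (Pq.cons (Pq.L [1,2] 1 (Pf.C 0 0x1008087))
 Pq.nil))
theorem fS_o52 : AllRef fS_T fS_G50 (blockObl [91,92] [0,2] [3,1] [3,1]) :=
  chkPq_sound fS_o52c _ (by decide +kernel)
noncomputable def fS_o53c : Pq := Pq.nil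
theorem fS_o53 : AllRef fS_T fS_G53 (extObl 99 [] []) :=
  chkPq_sound fS_o53c _ (by decide +kernel)
noncomputable def fS_o54c : Pq := Pq.nil
theorem fS_o54 : AllRef fS_T fS_G54 (extObl 101 [] []) :=
  chkPq_sound fS_o54c _ (by decide +kernel)
noncomputable def fS_o55c : Pq := (Pq.cons (Pq.D 0 (Pq.cons (Pq.D 1 (Pq.cons (Pq.D 2 (Pq.cons (Pq.D 3 (Pq.cons (Pq.L [] 7 (Pf.C 38 0x1424407))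
 (Pq.cons (Pq.L [] 7 (Pf.C 38 0x1424407))
 Pq.nil))) (Pq.cons (Pq.D 3 (Pq.cons (Pq.L [] 7 (Pf.C 38 0x1424407))
 (Pq.cons (Pq.L [] 7 (Pf.C 38 0x1424407))
 Pq.nil))) Pq.nil))) (Pq.cons (Pq.D 2 (Pq.cons (Pq.D 3 (Pq.cons (Pq.L [] 7 (Pf.C 38 0x1424407))
 (Pq.cons (Pq.L [] 7 (Pf.C 38 0x1424407))
 Pq.nil))) (Pq.cons (Pq.L [1,2] 3 (Pf.B 9 8 (Pf.C 0 0x1008089) (Pf.C 0 0xe20481)))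
 Pq.nil))) Pq.nil))) (Pq.cons (Pq.D 1 (Pq.cons (Pq.D 2 (Pq.cons (Pq.D 3 (Pq.cons (Pq.L [] 7 (Pf.C 39 0x1424407))
 (Pq.cons (Pq.L [1,2] 4 (Pf.C 0 0x1408087))
 Pq.nil))) (Pq.cons (Pq.L [1,2] 2 (Pf.C 0 0x1208087))
 Pq.nil))) (Pq.cons (Pq.L [1,2] 1 (Pf.C 0 0x1008087))
 Pq.nil))) Pq.nil))) Pq.nil)
theorem fS_o55 : AllRef fS_T fS_G56 (applyObl TD2 1 [100,102] [0,0] [(102,0x40000000000000000000000000)]) :=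
  chkPq_sound fS_o55c _ (by decide +kernel)
noncomputable def fS_o56c : Pq := Pq.nil
theorem fS_o56 : AllRef fS_T fS_G57 (ptObl 100 (PT.br 7 PT.kid PT.kid) []) :=
  chkPq_sound fS_o56c _ (by decide +kernel)
noncomputable def fS_o57c : Pq := Pq.nil
theorem fS_o57 : AllRef fS_T fS_G58 (ptObl 101 PT.kid []) :=
  chkPq_sound fS_o57c _ (by decide +kernel)
noncomputable def fS_o58c : Pq := (Pq.cons (Pq.L [1,2,7] 0 (Pf.C 0 0xe08088))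
 Pq.nil)
theorem fS_o58 : AllRef fS_T fS_G59 (ptObl 107 (PT.br 7 PT.ref PT.kid) []) :=
  chkPq_sound fS_o58c _ (by decide +kernel)
noncomputable def fS_o59c : Pq := (Pq.cons (Pq.L [1,2,7] 0 (Pf.C 0 0xe08088))
 Pq.nil)
theorem fS_o59 : AllRef fS_T fS_G60 (ptObl 102 (PT.br 7 PT.ref PT.kid) []) :=
  chkPq_sound fS_o59c _ (by decide +kernel)
noncomputable def fS_o60c : Pq := (Pq.cons (Pq.L [] 0 (Pf.X 7 8))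
 (Pq.cons (Pq.L [0,1,7] 1 (Pf.C 1 0x21c409))
 (Pq.cons (Pq.L [] 0 (Pf.X 7 8))
 (Pq.cons (Pq.L [1,7] 1 (Pf.C 0 0x224388))
 (Pq.cons (Pq.L [] 0 (Pf.X 7 8))
 (Pq.cons (Pq.L [1,7] 1 (Pf.C 0 0x224388))
 Pq.nil))))))
theorem fS_o60 : AllRef fS_T fS_G61 (closeObl (fS_T.sc.get 3) false [105,106,108,109] [0,0,1,1] [7] [1] 2) :=
  chkPq_sound fS_o60c _ (by decide +kernel)
noncomputable def fS_o61c : Pq := (Pq.cons (Pq.L [7] 3 (Pf.C 38 0x1424388))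
 Pq.nil)
theorem fS_o61 : AllRef fS_T fS_G62 (applyObl TD2 1 [106] [0] []) :=
  chkPq_sound fS_o61c _ (by decide +kernel)
noncomputable def fS_o62c : Pq := Pq.nil
theorem fS_o62 : AllRef fS_T fS_G55 (ptObl 99 PT.kid []) :=
  chkPq_sound fS_o62c _ (by decide +kernel)
noncomputable def fS_o63c : Pq := Pq.nil
theorem fS_o63 : AllRef fS_T fS_G63 (ptObl 110 (PT.br 7 PT.kid PT.kid) []) :=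
  chkPq_sound fS_o63c _ (by decide +kernel)
noncomputable def fS_o64c : Pq := (Pq.cons (Pq.L [0,1,2,7] 0 (Pf.W 35 7 [] [0,1,2,8] (Pf.cons (Pf.B 9 8 (Pf.C 1 0x224388) (Pf.W 37 7 [8] [0,1,2,9] (Pf.cons (Pf.B 10 9 (Pf.C 1 0x22438a) (Pf.B 10 8 (Pf.C 0 0x102438a) (Pf.W 37 7 [8,10] [0,1,2,9] (Pf.cons (Pf.B 11 9 (Pf.C 1 0x22438b) (Pf.B 11 8 (Pf.C 0 0x102438b) (Pf.C 38 0x141c588))) (Pf.cons (Pf.C 38 0x141c488) (Pf.cons (Pf.B 11 9 (Pf.C 0 0x120808b) (Pf.C 0 0xe24581)) Pf.nil)))))) (Pf.cons (Pf.W 37 7 [8,9] [0,1,2] (Pf.cons (Pf.B 10 9 (Pf.C 1 0x22438a) (Pf.B 10 8 (Pf.C 0 0x102438a) (Pf.C 38 0x121c508))) (Pf.cons (Pf.B 10 9 (Pf.C 0 0x120808a) (Pf.C 0 0xe24501)) Pf.nil))) (Pf.cons (Pf.B 10 9 (Pf.C 0 0x120808a) (Pf.C 0 0xe24501)) Pf.nil))))) Pf.nil)))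
 Pq.nil)
theorem fS_o64 : AllRef fS_T fS_G64 (ptObl 100 (PT.br 7 PT.kid PT.ref) []) :=
  chkPq_sound fS_o64c _ (by decide +kernel)
noncomputable def fS_o65c : Pq := Pq.nil
theorem fS_o65 : AllRef fS_T fS_G65 (ptObl 101 (PT.br 7 PT.kid PT.kid) []) :=
  chkPq_sound fS_o65c _ (by decide +kernel)
noncomputable def fS_o66c : Pq := (Pq.cons (Pq.L [0,1,2,7] 0 (Pf.W 37 7 [8] [0,1,2] (Pf.cons (Pf.B 9 8 (Pf.C 1 0x220389) (Pf.W 37 7 [8,9] [0,1,2] (Pf.cons (Pf.B 10 8 (Pf.C 1 0x22038a) (Pf.C 39 0x121c508)) (Pf.cons (Pf.B 10 8 (Pf.C 0 0x100808a) (Pf.C 0 0xe20501)) Pf.nil)))) (Pf.cons (Pf.B 9 8 (Pf.C 0 0x1008089) (Pf.C 0 0xe20481)) Pf.nil))))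
 Pq.nil)
theorem fS_o66 : AllRef fS_T fS_G66 (ptObl 102 (PT.br 7 PT.kid PT.ref) []) :=
  chkPq_sound fS_o66c _ (by decide +kernel)
noncomputable def fS_o67c : Pq := (Pq.cons (Pq.L [] 0 (Pf.X 7 8))
 (Pq.cons (Pq.L [0,1] 1 (Pf.W 40 8 [] [0,1,9] (Pf.cons (Pf.B 10 9 (Pf.C 1 0x228409) (Pf.C 41 1289)) Pf.nil)))
 (Pq.cons (Pq.L [0,1,2,7] 1 (Pf.W 10 7 [] [0,1,2,8,9] (Pf.cons (Pf.B 10 8 (Pf.C 1 0x228388) (Pf.B 10 9 (Pf.C 1 0x228409) (Pf.C 0 0xe20509))) (Pf.cons (Pf.B 10 8 (Pf.C 1 0x228388) (Pf.B 10 9 (Pf.C 1 0x228409) (Pf.C 0 0xe20509))) (Pf.cons (Pf.B 10 8 (Pf.C 1 0x10028388) (Pf.B 10 9 (Pf.C 1 0x10028409) (Pf.C 0 0xe20509))) (Pf.cons (Pf.B 10 8 (Pf.C 1 0x10028388) (Pf.B 10 9 (Pf.C 1 0x10028409) (Pf.C 0 0xe20509))) (Pf.cons (Pf.B 10 8 (Pf.C 1 0x20228388)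 (Pf.B 10 9 (Pf.C 1 0x20228409) (Pf.C 0 0xe20509))) Pf.nil)))))))
 (Pq.cons (Pq.L [0,1] 1 (Pf.W 42 8 [] [0,1,9] (Pf.cons (Pf.B 10 9 (Pf.C 1 0x228409) (Pf.C 41 1289)) Pf.nil)))
 (Pq.cons (Pq.L [] 1 (Pf.C 41 1033))
 (Pq.cons (Pq.L [] 0 (Pf.X 7 8))
 (Pq.cons (Pq.L [0,1,2] 1 (Pf.W 35 8 [] [0,1,2,9] (Pf.cons (Pf.B 10 9 (Pf.C 1 0x228409) (Pf.W 37 8 [9] [0,1,2,10] (Pf.cons (Pf.B 11 10 (Pf.C 1 0x22840b) (Pf.B 11 9 (Pf.C 0 0x122840b) (Pf.W 37 8 [9,11] [0,1,2,10] (Pf.cons (Pf.B 12 10 (Pf.C 1 0x22840c) (Pf.B 12 9 (Pf.C 0 0x122840c) (Pf.C 38 0x1620609))) (Pf.cons (Pf.C 38 0x1620509) (Pf.cons (Pf.B 12 10 (Pf.C 0 0x140808c) (Pf.C 0 0x1028601)) Pf.nil)))))) (Pf.cons (Pf.W 37 8 [9,10] [0,1,2] (Pf.cons (Pf.B 11 10 (Pf.C 1 0x22840b) (Pf.B 11 9 (Pf.C 0 0x122840b)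 (Pf.C 38 0x1420589))) (Pf.cons (Pf.B 11 10 (Pf.C 0 0x140808b) (Pf.C 0 0x1028581)) Pf.nil))) (Pf.cons (Pf.B 11 10 (Pf.C 0 0x140808b) (Pf.C 0 0x1028581)) Pf.nil))))) Pf.nil)))
 (Pq.cons (Pq.L [0,1,2] 1 (Pf.W 35 8 [] [0,1,2,9] (Pf.cons (Pf.B 10 9 (Pf.C 1 0x228409) (Pf.W 37 8 [9] [0,1,2,10] (Pf.cons (Pf.B 11 10 (Pf.C 1 0x22840b) (Pf.B 11 9 (Pf.C 0 0x122840b) (Pf.W 37 8 [9,11] [0,1,2,10] (Pf.cons (Pf.B 12 10 (Pf.C 1 0x22840c) (Pf.B 12 9 (Pf.C 0 0x122840c) (Pf.C 38 0x1620609))) (Pf.cons (Pf.C 38 0x1620509) (Pf.cons (Pf.B 12 10 (Pf.C 0 0x140808c) (Pf.C 0 0x1028601)) Pf.nil)))))) (Pf.cons (Pf.W 37 8 [9,10] [0,1,2] (Pf.cons (Pf.B 11 10 (Pf.C 1 0x22840b) (Pf.B 11 9 (Pf.C 0 0x122840b) (Pf.C 38 0x1420589))) (Pf.cons (Pf.B 11 10 (Pf.C 0 0x140808b) (Pf.C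 0 0x1028581)) Pf.nil))) (Pf.cons (Pf.B 11 10 (Pf.C 0 0x140808b) (Pf.C 0 0x1028581)) Pf.nil))))) Pf.nil)))
 (Pq.cons (Pq.L [0,1] 1 (Pf.W 42 8 [] [0,1,9] (Pf.cons (Pf.B 10 9 (Pf.C 1 0x228409) (Pf.C 43 1289)) Pf.nil)))
 (Pq.cons (Pq.L [] 1 (Pf.C 43 1033))
 (Pq.cons (Pq.L [] 0 (Pf.X 7 8))
 (Pq.cons (Pq.L [1,2] 1 (Pf.W 40 8 [] [1,2,9] (Pf.cons (Pf.B 10 9 (Pf.C 0 0x120808a) (Pf.C 0 0x1024501)) Pf.nil)))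
 (Pq.cons (Pq.L [0,1,7] 1 (Pf.C 1 0x224407))
 (Pq.cons (Pq.L [1,2] 1 (Pf.W 42 8 [] [1,2,9] (Pf.cons (Pf.B 10 9 (Pf.C 0 0x120808a) (Pf.C 0 0x1024501)) Pf.nil)))
 (Pq.cons (Pq.L [1,2] 1 (Pf.C 0 0x1208088))
 (Pq.cons (Pq.L [] 0 (Pf.X 7 8))
 (Pq.cons (Pq.L [0,1,2] 1 (Pf.W 37 8 [9] [0,1,2] (Pf.cons (Pf.B 10 9 (Pf.C 1 0x22440a) (Pf.W 37 8 [9,10] [0,1,2] (Pf.cons (Pf.B 11 9 (Pf.C 1 0x22440b) (Pf.C 39 0x1420589)) (Pf.cons (Pf.B 11 9 (Pf.C 0 0x120808b) (Pf.C 0 0x1024581)) Pf.nil)))) (Pf.cons (Pf.B 10 9 (Pf.C 0 0x120808a) (Pf.C 0 0x1024501)) Pf.nil))))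
 (Pq.cons (Pq.L [0,1,2] 1 (Pf.W 37 8 [9] [0,1,2] (Pf.cons (Pf.B 10 9 (Pf.C 1 0x22440a) (Pf.W 37 8 [9,10] [0,1,2] (Pf.cons (Pf.B 11 9 (Pf.C 1 0x22440b) (Pf.C 39 0x1420589)) (Pf.cons (Pf.B 11 9 (Pf.C 0 0x120808b) (Pf.C 0 0x1024581)) Pf.nil)))) (Pf.cons (Pf.B 10 9 (Pf.C 0 0x120808a) (Pf.C 0 0x1024501)) Pf.nil))))
 (Pq.cons (Pq.L [1,2] 1 (Pf.W 42 8 [] [1,2,9] (Pf.cons (Pf.B 10 9 (Pf.C 0 0x120808a) (Pf.C 0 0x1024501)) Pf.nil)))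
 (Pq.cons (Pq.L [1,2] 1 (Pf.C 0 0x1208088))
 Pq.nil))))))))))))))))))))
theorem fS_o67 : AllRef fS_T fS_G69 (closeObl (fS_T.sc.get 3) false [117,118,112,119,120,114,115,116] [0,0,0,0,0,1,1,1] [7] [0] 77) :=
  chkPq_sound fS_o67c _ (by decide +kernel)
noncomputable def fS_o68c : Pq := (Pq.cons (Pq.L [1,2,7] 0 (Pf.B 9 8 (Pf.C 0 0x1008089) (Pf.C 0 0xe20481)))
 Pq.nil)
theorem fS_o68 : AllRef fS_T fS_G70 (hitObl [115] fS_h100) :=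
  chkPq_sound fS_o68c _ (by decide +kernel)
noncomputable def fS_o69c : Pq := (Pq.cons (Pq.L [] 0 (Pf.C 44 8))
 Pq.nil)
theorem fS_o69 : AllRef fS_T fS_G71 (List.map pat1 [121]) :=
  chkPq_sound fS_o69c _ (by decide +kernel)
noncomputable def fS_o70c : Pq := (Pq.cons (Pq.L [0,1,2,7] 1 (Pf.W 10 7 [] [0,1,2,8,9] (Pf.cons (Pf.B 11 8 (Pf.C 1 0x22c388) (Pf.B 11 9 (Pf.C 1 0x22c409) (Pf.C 0 0xe20589))) (Pf.cons (Pf.B 11 8 (Pf.C 1 0x22c388) (Pf.B 11 9 (Pf.C 1 0x22c409) (Pf.C 0 0xe20589))) (Pf.cons (Pf.B 11 8 (Pf.C 1 0x1002c388) (Pf.B 11 9 (Pf.C 1 0x1002c409) (Pf.C 0 0xe20589))) (Pf.cons (Pf.B 11 8 (Pf.C 1 0x1002c388) (Pf.B 11 9 (Pf.C 1 0x1002c409) (Pf.C 0 0xe20589))) (Pf.cons (Pf.B 11 8 (Pf.C 1 0x2022c388) (Pf.B 11 9 (Pf.C 1 0x2022c409) (Pf.C 0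 0xe20589))) Pf.nil)))))))
 (Pq.cons (Pq.L [0,1,2] 3 (Pf.B 10 9 (Pf.T 9 33 (Pf.cons (Pf.T 8 34 (Pf.cons (Pf.W 35 8 [] [0,1,2,9] (Pf.cons (Pf.B 11 9 (Pf.C 1 0x22c409) (Pf.W 42 8 [] [1,2,11,0,9] (Pf.cons (Pf.W 37 9 [8,11] [0,1,2] (Pf.cons (Pf.B 12 11 (Pf.C 1 0x22c48c) (Pf.B 12 8 (Pf.C 0 0x102c48c) (Pf.C 38 0x1624608))) (Pf.cons (Pf.B 12 11 (Pf.C 0 0x160808c) (Pf.C 0 0x122c601)) Pf.nil))) (Pf.cons (Pf.B 12 11 (Pf.C 0 0x160808c) (Pf.C 0 0x102c601)) Pf.nil)))) Pf.nil)) Pf.nil)) Pf.nil)) (Pf.W 10 8 [] [0,1,2,9,10] (Pf.cons (Pf.B 11 9 (Pf.C 1 0x22c409) (Pf.B 11 10 (Pf.C 1 0x22c48a) (Pf.C 0 0x102458a))) (Pf.cons (Pf.B 11 9 (Pf.C 1 0x22c409) (Pf.B 11 10 (Pf.C 1 0x22c48a) (Pf.C 0 0x102458a))) (Pf.cons (Pf.B 11 9 (Pf.C 1 0x1002c409) (Pf.B 11 10 (Pf.C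 1 0x1002c48a) (Pf.C 0 0x102458a))) (Pf.cons (Pf.B 11 9 (Pf.C 1 0x1002c409) (Pf.B 11 10 (Pf.C 1 0x1002c48a) (Pf.C 0 0x102458a))) (Pf.cons (Pf.B 11 9 (Pf.C 1 0x2022c409) (Pf.B 11 10 (Pf.C 1 0x2022c48a) (Pf.C 0 0x102458a))) Pf.nil))))))))
 Pq.nil))
theorem fS_o70 : AllRef fS_T fS_G72 (splitObl [111] [112,113]) :=
  chkPq_sound fS_o70c _ (by decide +kernel)
noncomputable def fS_o71c : Pq := (Pq.cons (Pq.L [0,1,2] 7 (Pf.W 10 8 [] [0,1,2,9,10] (Pf.cons (Pf.B 11 9 (Pf.C 1 0x22c409) (Pf.B 11 10 (Pf.C 1 0x22c48a) (Pf.C 0 0x102458a))) (Pf.cons (Pf.B 11 9 (Pf.C 1 0x22c409) (Pf.B 11 10 (Pf.C 1 0x22c48a) (Pf.C 0 0x102458a))) (Pf.cons (Pf.B 11 9 (Pf.C 1 0x1002c409) (Pf.B 11 10 (Pf.C 1 0x1002c48a) (Pf.C 0 0x102458a))) (Pf.cons (Pf.B 11 9 (Pf.C 1 0x1002c409)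 (Pf.B 11 10 (Pf.C 1 0x1002c48a) (Pf.C 0 0x102458a))) (Pf.cons (Pf.B 11 9 (Pf.C 1 0x2022c409) (Pf.B 11 10 (Pf.C 1 0x2022c48a) (Pf.C 0 0x102458a))) Pf.nil)))))))
 Pq.nil)
theorem fS_o71 : AllRef fS_T fS_G72 (applyObl cl_T 1 [111] [0] []) :=
  chkPq_sound fS_o71c _ (by decide +kernel)
noncomputable def fS_o72c : Pq := (Pq.cons (Pq.L [0,1,2,7] 1 (Pf.B 10 9 (Pf.W 10 7 [] [0,1,2,9,10] (Pf.cons (Pf.B 11 10 (Pf.C 1 0x22c38a) (Pf.B 11 9 (Pf.C 1 0x22c389) (Pf.C 0 0x141c589))) (Pf.cons (Pf.B 11 10 (Pf.C 1 0x22c38a) (Pf.B 11 9 (Pf.C 1 0x22c389) (Pf.C 0 0x141c589))) (Pf.cons (Pf.B 11 10 (Pf.C 1 0x1002c38a) (Pf.B 11 9 (Pf.C 1 0x1002c389) (Pf.C 0 0x141c589))) (Pf.cons (Pf.B 11 10 (Pf.C 1 0x1002c38a) (Pf.B 11 9 (Pf.C 1 0x1002c389) (Pf.C 0 0x141c589))) (Pf.cons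 (Pf.B 11 10 (Pf.C 1 0x2022c38a) (Pf.B 11 9 (Pf.C 1 0x2022c389) (Pf.C 0 0x141c589))) Pf.nil)))))) (Pf.W 10 7 [] [0,1,2,8,9,10] (Pf.cons (Pf.B 11 10 (Pf.C 1 0x22c38a) (Pf.B 11 9 (Pf.C 0 0x122838b) (Pf.B 11 8 (Pf.C 1 0x22c488) (Pf.C 0 0xe24588)))) (Pf.cons (Pf.B 11 10 (Pf.C 1 0x22c38a) (Pf.B 11 9 (Pf.C 0 0x122838b) (Pf.B 11 8 (Pf.C 1 0x22c488) (Pf.C 0 0xe24588)))) (Pf.cons (Pf.B 11 10 (Pf.C 1 0x1002c38a) (Pf.B 11 9 (Pf.C 0 0x122838b) (Pf.B 11 8 (Pf.C 1 0x1002c488) (Pf.C 0 0xe24588)))) (Pf.cons (Pf.B 11 10 (Pf.C 1 0x1002c38a) (Pf.B 11 9 (Pf.C 0 0x122838b) (Pf.B 11 8 (Pf.C 1 0x1002c488) (Pf.C 0 0xe24588)))) (Pf.cons (Pf.B 11 10 (Pf.C 1 0x2022c38a) (Pf.B 11 9 (Pf.C 0 0x122838b) (Pf.B 11 8 (Pf.C 1 0x2022c488) (Pf.C 0 0xe24588)))) Pf.nil))))))))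
 Pq.nil)
theorem fS_o72 : AllRef fS_T fS_G72 (splitObl [112] [113]) :=
  chkPq_sound fS_o72c _ (by decide +kernel)
noncomputable def fS_o73c : Pq := (Pq.cons (Pq.L [0,1,2,7] 1 (Pf.B 11 10 (Pf.B 11 9 (Pf.W 35 11 [] [0,1,7,10] (Pf.cons (Pf.B 12 7 (Pf.C 1 0x230587) (Pf.B 12 10 (Pf.C 1 0x23038a) (Pf.C 0 0x161c60a))) Pf.nil)) (Pf.B 10 9 (Pf.W 35 11 [] [0,1,7,9,10] (Pf.cons (Pf.B 12 9 (Pf.C 1 0x230589) (Pf.B 12 7 (Pf.C 0 0xe2c48c) (Pf.B 12 10 (Pf.C 1 0x23038a) (Pf.C 0 0x121c60a)))) Pf.nil)) (Pf.C 0 0x161c48a))) (Pf.B 11 9 (Pf.B 10 9 (Pf.W 35 11 [] [0,1,7,9,10] (Pf.cons (Pf.B 12 10 (Pf.C 1 0x23058a) (Pf.B 12 7 (Pf.C 0 0xe2c50c) (Pf.B 12 9 (Pf.C 1 0x230389) (Pf.C 0 0x141c609)))) Pf.nil)) (Pf.C 0 0x161c509)) (Pf.B 10 9 (Pf.C 0 0x122c38a) (Pf.W 10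 7 [] [0,1,2,8,9,10,11] (Pf.cons (Pf.B 12 11 (Pf.C 1 0x23038b) (Pf.B 12 10 (Pf.C 0 0x142c38c) (Pf.B 12 9 (Pf.C 0 0x122838c) (Pf.B 12 8 (Pf.C 1 0x230388) (Pf.C 0 0x121c608))))) (Pf.cons (Pf.B 12 11 (Pf.C 1 0x23038b) (Pf.B 12 10 (Pf.C 0 0x142c38c) (Pf.B 12 9 (Pf.C 0 0x122838c) (Pf.B 12 8 (Pf.C 1 0x230388) (Pf.C 0 0x121c608))))) (Pf.cons (Pf.B 12 11 (Pf.C 1 0x1003038b) (Pf.B 12 10 (Pf.C 0 0x142c38c) (Pf.B 12 9 (Pf.C 0 0x122838c) (Pf.B 12 8 (Pf.C 1 0x10030388) (Pf.C 0 0x121c608))))) (Pf.cons (Pf.B 12 11 (Pf.C 1 0x1003038b) (Pf.B 12 10 (Pf.C 0 0x142c38c) (Pf.B 12 9 (Pf.C 0 0x122838c) (Pf.B 12 8 (Pf.C 1 0x10030388) (Pf.C 0 0x121c608))))) (Pf.cons (Pf.B 12 11 (Pf.C 1 0x2023038b) (Pf.B 12 10 (Pf.C 0 0x142c38c) (Pf.B 12 9 (Pf.C 0 0x122838c) (Pf.B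 12 8 (Pf.C 1 0x20230388) (Pf.C 0 0x121c608))))) Pf.nil))))))))))
 Pq.nil)
theorem fS_o73 : AllRef fS_T fS_G72 (applyObl TD2 1 [112] [0] [(112,0x10000000000000000000000000000)]) :=
  chkPq_sound fS_o73c _ (by decide +kernel)
noncomputable def fS_o74c : Pq := (Pq.cons (Pq.L [] 7 (Pf.C 38 0x1628488))
 Pq.nil)
theorem fS_o74 : AllRef fS_T fS_G72 (applyObl TD2 1 [113] [0] []) :=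
  chkPq_sound fS_o74c _ (by decide +kernel)
noncomputable def fS_o75c : Pq := (Pq.cons (Pq.L [0,1,2] 7 (Pf.W 10 7 [] [0,1,2,8,9] (Pf.cons (Pf.B 10 8 (Pf.C 1 0x228388) (Pf.B 10 9 (Pf.C 1 0x228409) (Pf.C 0 0xe20509))) (Pf.cons (Pf.B 10 8 (Pf.C 1 0x228388) (Pf.B 10 9 (Pf.C 1 0x228409) (Pf.C 0 0xe20509))) (Pf.cons (Pf.B 10 8 (Pf.C 1 0x10028388) (Pf.B 10 9 (Pf.C 1 0x10028409) (Pf.C 0 0xe20509))) (Pf.cons (Pf.B 10 8 (Pf.C 1 0x10028388) (Pf.B 10 9 (Pf.C 1 0x10028409) (Pf.C 0 0xe20509))) (Pf.cons (Pf.B 10 8 (Pf.C 1 0x20228388) (Pf.B 10 9 (Pf.C 1 0x20228409) (Pf.C 0 0xe20509))) Pf.nil)))))))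
 Pq.nil)
theorem fS_o75 : AllRef fS_T fS_G49 (applyObl cl_T 1 [90] [0] []) :=
  chkPq_sound fS_o75c _ (by decide +kernel)
noncomputable def fS_o76c : Pq := (Pq.cons (Pq.L [4,5] 1 (Pf.C 0 0x1014207))
 Pq.nil)
theorem fS_o76 : AllRef fS_T fS_G48 (applyObl TD2 1 [85] [0] [(85,0x2000000000000000000000)]) :=
  chkPq_sound fS_o76c _ (by decide +kernel)
noncomputable def fS_o77c : Pq := (Pq.cons (Pq.L [0,1,2] 1 (Pf.C 1 0x208205))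
 (Pq.cons (Pq.L [1,2,3] 1 (Pf.C 1 0x30404205))
 (Pq.cons (Pq.L [] 1 (Pf.C 27 517))
 (Pq.cons (Pq.L [1,2,3] 1 (Pf.W 28 4 [] [1,2,3,5] (Pf.cons (Pf.B 7 5 (Pf.C 1 0x30414207) (Pf.C 0 0x210385)) Pf.nil)))
 (Pq.cons (Pq.L [0,1,2] 1 (Pf.W 26 4 [] [0,1,2,5] (Pf.cons (Pf.B 7 5 (Pf.C 1 0x214207) (Pf.C 0 0x410385)) Pf.nil)))
 (Pq.cons (Pq.L [] 1 (Pf.C 29 517))
 (Pq.cons (Pq.L [0,1,2] 1 (Pf.W 26 4 [] [0,1,2,5] (Pf.cons (Pf.B 7 5 (Pf.C 1 0x214207) (Pf.C 0 0x410385)) Pf.nil)))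
 (Pq.cons (Pq.L [] 1 (Pf.C 13 644))
 (Pq.cons (Pq.L [] 1 (Pf.C 12 644))
 (Pq.cons (Pq.L [0,1,2,3] 3 (Pf.B 6 5 (Pf.W 28 4 [] [0,1,2,3,5,6] (Pf.cons (Pf.B 7 6 (Pf.B 7 5 (Pf.C 1 0x60014207) (Pf.C 0 0x210385)) (Pf.C 1 0x30418384)) Pf.nil)) (Pf.C 0 0x414300)))
 Pq.nil))))))))))
theorem fS_o77 : AllRef fS_T fS_G29 (splitObl [60,62,64,52,55] [61,63]) :=
  chkPq_sound fS_o77c _ (by decide +kernel)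
noncomputable def fS_o78c : Pq := (Pq.cons (Pq.D 0 (Pq.cons (Pq.D 1 (Pq.cons (Pq.L [] 1 (Pf.C 25 644))
 (Pq.cons (Pq.L [0,1,2] 1 (Pf.C 1 0x208284))
 (Pq.cons (Pq.L [1,2,3] 1 (Pf.C 1 0x30404284))
 (Pq.cons (Pq.D 2 (Pq.cons (Pq.L [] 2 (Pf.C 25 772))
 (Pq.cons (Pq.L [0,1,2] 2 (Pf.C 1 0x208304))
 (Pq.cons (Pq.L [1] 7 (Pf.C 0 0x218284))
 (Pq.cons (Pq.L [1] 7 (Pf.C 0 0x218284))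
 (Pq.cons (Pq.L [] 7 (Pf.C 20 98948))
 Pq.nil)))))) (Pq.cons (Pq.D 2 (Pq.cons (Pq.L [] 2 (Pf.C 25 772))
 (Pq.cons (Pq.L [2] 7 (Pf.C 0 0x418284))
 (Pq.cons (Pq.L [1,2,3] 2 (Pf.C 1 0x30404304))
 (Pq.cons (Pq.L [] 7 (Pf.C 20 82692))
 (Pq.cons (Pq.L [0] 7 (Pf.C 0 98948))
 Pq.nil)))))) Pq.nil)))))) (Pq.cons (Pq.D 1 (Pq.cons (Pq.L [0,1,2] 1 (Pf.C 1 0x208205))
 (Pq.cons (Pq.L [] 1 (Pf.C 27 644))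
 (Pq.cons (Pq.D 2 (Pq.cons (Pq.L [0,1,2] 2 (Pf.C 1 0x208206))
 (Pq.cons (Pq.L [] 2 (Pf.C 27 772))
 (Pq.cons (Pq.L [1] 7 (Pf.C 0 0x218284))
 (Pq.cons (Pq.L [1] 7 (Pf.C 0 0x218284))
 (Pq.cons (Pq.L [] 2 (Pf.C 12 772))
 Pq.nil)))))) (Pq.cons (Pq.L [0,1,2,3] 7 (Pf.B 6 3 (Pf.B 6 2 (Pf.B 6 1 (Pf.B 6 0 (Pf.C 1 0x208206) (Pf.C 1 0x30404006)) (Pf.C 0 0x814301)) (Pf.C 0 0xa10302)) (Pf.C 0 0x814303)))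
 (Pq.cons (Pq.L [] 1 (Pf.C 12 644))
 Pq.nil)))))) (Pq.cons (Pq.D 1 (Pq.cons (Pq.L [1,2,3] 1 (Pf.C 1 0x30404205))
 (Pq.cons (Pq.D 2 (Pq.cons (Pq.L [1,2,3] 2 (Pf.C 1 0x30404206))
 (Pq.cons (Pq.L [2] 7 (Pf.C 0 0x418284))
 (Pq.cons (Pq.L [] 2 (Pf.C 29 772))
 (Pq.cons (Pq.L [] 2 (Pf.C 13 772))
 (Pq.cons (Pq.L [2] 7 (Pf.C 0 0x418284))
 Pq.nil)))))) (Pq.cons (Pq.L [] 1 (Pf.C 29 644))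
 (Pq.cons (Pq.L [] 1 (Pf.C 13 644))
 (Pq.cons (Pq.L [0,1,2,3] 7 (Pf.B 6 2 (Pf.B 6 1 (Pf.B 6 3 (Pf.C 1 0x30404206) (Pf.B 6 0 (Pf.C 1 0x208186) (Pf.C 0 0x814300))) (Pf.C 0 0xa10301)) (Pf.C 0 0x814302)))
 Pq.nil)))))) (Pq.cons (Pq.D 1 (Pq.cons (Pq.D 2 (Pq.cons (Pq.L [] 7 (Pf.C 17 66309))
 (Pq.cons (Pq.L [0,1,2] 4 (Pf.C 1 0x208305))
 (Pq.cons (Pq.L [] 2 (Pf.C 13 518))
 (Pq.cons (Pq.L [1,3] 2 (Pf.C 0 0x618201))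
 (Pq.cons (Pq.L [] 7 (Pf.C 20 98821))
 Pq.nil)))))) (Pq.cons (Pq.L [0,1,2,3] 7 (Pf.B 6 3 (Pf.B 6 2 (Pf.B 6 1 (Pf.B 6 0 (Pf.C 1 0x208286) (Pf.C 1 0x30404006)) (Pf.C 0 0xa10301)) (Pf.C 0 0x814302)) (Pf.C 0 0xa10303)))
 (Pq.cons (Pq.L [] 1 (Pf.C 13 517))
 (Pq.cons (Pq.L [1,3] 1 (Pf.C 0 0x614201))
 (Pq.cons (Pq.D 2 (Pq.cons (Pq.L [] 7 (Pf.C 20 82438))
 (Pq.cons (Pq.L [2] 7 (Pf.C 0 0x418284))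
 (Pq.cons (Pq.L [] 2 (Pf.C 13 518))
 (Pq.cons (Pq.L [1,3] 2 (Pf.C 0 0x618201))
 (Pq.cons (Pq.L [0] 7 (Pf.C 0 98948))
 Pq.nil)))))) Pq.nil)))))) (Pq.cons (Pq.D 1 (Pq.cons (Pq.D 2 (Pq.cons (Pq.L [] 7 (Pf.C 18 66309))
 (Pq.cons (Pq.L [] 2 (Pf.C 12 518))
 (Pq.cons (Pq.L [1,2,3] 4 (Pf.C 1 0x30404305))
 (Pq.cons (Pq.L [] 7 (Pf.C 20 66309))
 (Pq.cons (Pq.L [0,2] 2 (Pf.C 0 0x418200))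
 Pq.nil)))))) (Pq.cons (Pq.L [] 1 (Pf.C 12 517))
 (Pq.cons (Pq.L [0,1,2,3] 7 (Pf.B 6 2 (Pf.B 6 1 (Pf.B 6 3 (Pf.C 1 0x30404286) (Pf.B 6 0 (Pf.C 1 0x208186) (Pf.C 0 0xa10300))) (Pf.C 0 0x814301)) (Pf.C 0 0xa10302)))
 (Pq.cons (Pq.D 2 (Pq.cons (Pq.L [] 7 (Pf.C 20 66182))
 (Pq.cons (Pq.L [] 2 (Pf.C 12 518))
 (Pq.cons (Pq.L [1] 7 (Pf.C 0 0x218284))
 (Pq.cons (Pq.L [1] 7 (Pf.C 0 0x218284))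
 (Pq.cons (Pq.L [0,2] 2 (Pf.C 0 0x418200))
 Pq.nil)))))) (Pq.cons (Pq.L [0,2] 1 (Pf.C 0 0x414200))
 Pq.nil)))))) Pq.nil)))))) (Pq.cons (Pq.L [] 0x1c7740 (Pf.C 1 0xa1220286))
 Pq.nil))
theorem fS_o78 : AllRef fS_T fS_G29 (applyObl d_T 2 [60,62,64,52,55] [0,0,0,0,0] []) :=
  chkPq_sound fS_o78c _ (by decide +kernel)
noncomputable def fS_o79c : Pq := (Pq.cons (Pq.L [0,1,2] 3 (Pf.B 6 5 (Pf.W 26 5 [] [0,1,2,4] (Pf.cons (Pf.B 7 4 (Pf.C 1 0x210287) (Pf.C 0 0x414384)) Pf.nil)) (Pf.C 1 0x210286)))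
 Pq.nil)
theorem fS_o79 : AllRef fS_T fS_G29 (splitObl [61] [63]) :=
  chkPq_sound fS_o79c _ (by decide +kernel)
noncomputable def fS_o80c : Pq := (Pq.cons (Pq.L [2] 7 (Pf.C 0 0xc14104))
 Pq.nil)
theorem fS_o80 : AllRef fS_T fS_G29 (applyObl cl_T 1 [61] [0] []) :=
  chkPq_sound fS_o80c _ (by decide +kernel)
noncomputable def fS_o81c : Pq := (Pq.cons (Pq.L [1] 7 (Pf.C 0 0xc14084))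
 Pq.nil)
theorem fS_o81 : AllRef fS_T fS_G29 (applyObl cl_T 1 [63] [0] []) :=
  chkPq_sound fS_o81c _ (by decide +kernel)
noncomputable def fS_o82c : Pq := (Pq.cons (Pq.L [2,3] 1 (Pf.C 0 0x414184))
 (Pq.cons (Pq.L [0,1] 1 (Pf.C 0 0x214004))
 Pq.nil))
theorem fS_o82 : AllRef fS_T fS_G26 (splitObl [40,47] [54]) :=
  chkPq_sound fS_o82c _ (by decide +kernel)
noncomputable def fS_o83c : Pq := (Pq.cons (Pq.D 0 (Pq.cons (Pq.D 1 (Pq.cons (Pq.L [2,3] 1 (Pf.C 0 0xa0c104))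
 (Pq.cons (Pq.D 2 (Pq.cons (Pq.L [2,3] 2 (Pf.C 0 0xc0c104))
 (Pq.cons (Pq.L [0,1] 3 (Pf.B 6 5 (Pf.C 0 0xa04006) (Pf.C 0 0x814300)))
 Pq.nil))) Pq.nil))) (Pq.cons (Pq.D 1 (Pq.cons (Pq.D 2 (Pq.cons (Pq.L [2,3] 3 (Pf.B 6 5 (Pf.C 0 0xa0c106) (Pf.C 0 0x814302)))
 (Pq.cons (Pq.L [0,1] 2 (Pf.C 0 0xc04004))
 Pq.nil))) (Pq.cons (Pq.L [0,1] 1 (Pf.C 0 0xa04004))
 Pq.nil))) Pq.nil))) Pq.nil)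
theorem fS_o83 : AllRef fS_T fS_G26 (applyObl TD2 1 [40,47] [0,0] [(40,0x10000000000),(47,0x800000000000)]) :=
  chkPq_sound fS_o83c _ (by decide +kernel)
noncomputable def fS_o84c : Pq := (Pq.cons (Pq.L [0,3] 1 (Pf.C 0 0x614200))
 Pq.nil)
theorem fS_o84 : AllRef fS_T fS_G26 (applyObl TD2 1 [54] [0] []) :=
  chkPq_sound fS_o84c _ (by decide +kernel)

end Pool.Agent.Lib.MP_849b2e_co
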