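import Pool.Agent.Lib.MP_849b2e_co.AllR
import Pool.Agent.Lib.MP_849b2e_co.TfS
import Pool.Agent.Lib.MP_849b2e_co.OfS_0
import Pool.Agent.Lib.MP_849b2e_co.Lcl
import Pool.Agent.Lib.MP_849b2e_co.Ld

set_option maxRecDepth 100000
set_option linter.all false
namespace Pool.Agent.Lib.MP_849b2e_co

theorem fS_n116  : Bd fS_T fS_G26 [54] :=
  r_apply lem_D2 [0] [] (by decide +kernel) fS_o84
theorem fS_n115  : Bd fS_T fS_G26 [40,47] :=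
  r_apply lem_D2 [0,0] [(40,0x10000000000),(47,0x800000000000)] (by decide +kernel) fS_o83
theorem fS_n114  : Bd fS_T fS_G26 [40,47,54] :=
  r_split [40,47] [54] (by decide +kernel) fS_o82 fS_n115 fS_n116
theorem fS_n113  : Bd fS_T fS_G29 [63] :=
  r_apply lem_cl [0] [] (by decide +kernel) fS_o81
theorem fS_n112  : Bd fS_T fS_G29 [61] :=
  r_apply lem_cl [0] [] (by decide +kernel) fS_o80
theorem fS_n111  : Bd fS_T fS_G29 [61,63] :=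
  r_split [61] [63] (by decide +kernel) fS_o79 fS_n112 fS_n113
theorem fS_n110  : Bd fS_T fS_G29 [60,62,64,52,55] :=
  r_apply lem_d [0,0,0,0,0] [] (by decide +kernel) fS_o78
theorem fS_n109  : Bd fS_T fS_G29 [60,62,64,52,55,61,63] :=
  r_split [60,62,64,52,55] [61,63] (by decide +kernel) fS_o77 fS_n110 fS_n111
theorem fS_n108  : Bd fS_T fS_G48 [85] :=
  r_apply lem_D2 [0] [(85,0x2000000000000000000000)] (by decide +kernel) fS_o76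
theorem fS_n107  : Bd fS_T fS_G49 [90] :=
  r_apply lem_cl [0] [] (by decide +kernel) fS_o75
theorem fS_n106  : Bd fS_T fS_G72 [113] :=
  r_apply lem_D2 [0] [] (by decide +kernel) fS_o74
theorem fS_n105  : Bd fS_T fS_G72 [112] :=
  r_apply lem_D2 [0] [(112,0x10000000000000000000000000000)] (by decide +kernel) fS_o73
theorem fS_n104  : Bd fS_T fS_G72 [112,113] :=
  r_split [112] [113] (by decide +kernel) fS_o72 fS_n105 fS_n106
theorem fS_n103  : Bd fS_T fS_G72 [111] :=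
  r_apply lem_cl [0] [] (by decide +kernel) fS_o71
theorem fS_n102  : Bd fS_T fS_G72 [111,112,113] :=
  r_split [111] [112,113] (by decide +kernel) fS_o70 fS_n103 fS_n104
theorem fS_n101  : Bd fS_T fS_G71 [111,112,113,121] :=
  r_kill [121] ⟨122,[],[],[]⟩ fS_G72 [111,112,113] (by decide +kernel) fS_o69 fS_n102
theorem fS_n100  : Bd fS_T fS_G70 [111,112,113,115] :=
  r_hit [115] fS_h100 ⟨121,[],[45],[]⟩ fS_G71 [111,112,113,121] (by decide +kernel) fS_o68 fS_n101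
theorem fS_n99  : Bd fS_T fS_G70 [117,112,119,115] :=
  r_act [] [111,112,113,115] (by decide +kernel) fS_n100
theorem fS_n98  : Bd fS_T fS_G69 [117,118,112,119,120,114,115,116] :=
  r_close false 3 [22,28,29,33,30,34,23,31,32] [117,118,112,119,120,114,115,116] [0,0,0,0,0,1,1,1] [7] [0] 77 ⟨121,[],[],[]⟩ fS_G70 [117,112,119,115] (by decide +kernel) fS_o67 fS_n99
theorem fS_n97  : Bd fS_T fS_G69 [111,112,113,114,115,116] :=
  r_act [33,34] [117,118,112,119,120,114,115,116] (by decide +kernel) fS_n98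
theorem fS_n96  : Bd fS_T fS_G68 [111,112,113,114,115,116] :=
  r_def 113 0 [115] [] ⟨119,[35],[43,0,44],[]⟩ fS_G69 [111,112,113,114,115,116] (by decide +kernel) fS_n97
theorem fS_n95  : Bd fS_T fS_G67 [111,112,113,114,115,116] :=
  r_def 111 0 [115] [] ⟨117,[34],[41,0,42],[]⟩ fS_G68 [111,112,113,114,115,116] (by decide +kernel) fS_n96
theorem fS_n94  : Bd fS_T fS_G67 [99,100,101,102] :=
  r_act [28,29,30,31,32] [111,112,113,114,115,116] (by decide +kernel) fS_n95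
theorem fS_n93  : Bd fS_T fS_G66 [99,100,101,102] :=
  r_psplit 102 [] (PT.br 7 PT.kid PT.ref) ⟨116,[33],[],[]⟩ fS_G67 [99,100,101,102] (by decide +kernel) fS_o66 fS_n94
theorem fS_n92  : Bd fS_T fS_G65 [99,100,101,102] :=
  r_psplit 101 [] (PT.br 7 PT.kid PT.kid) ⟨114,[32],[],[]⟩ fS_G66 [99,100,101,102] (by decide +kernel) fS_o65 fS_n93
theorem fS_n91  : Bd fS_T fS_G64 [99,100,101,102] :=
  r_psplit 100 [] (PT.br 7 PT.kid PT.ref) ⟨113,[31],[],[]⟩ fS_G65 [99,100,101,102] (by decide +kernel) fS_o64 fS_n92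
theorem fS_n90  : Bd fS_T fS_G63 [99,100,101,102] :=
  r_psplit 110 [] (PT.br 7 PT.kid PT.kid) ⟨111,[30],[],[]⟩ fS_G64 [99,100,101,102] (by decide +kernel) fS_o63 fS_n91
theorem fS_n89  : Bd fS_T fS_G55 [99,100,101,102] :=
  r_psplit 99 [7] PT.kid ⟨110,[29],[],[]⟩ fS_G63 [99,100,101,102] (by decide +kernel) fS_o62 fS_n90
theorem fS_n88  : Bd fS_T fS_G62 [106] :=
  r_apply lem_D2 [0] [] (by decide +kernel) fS_o61
theorem fS_n87  : Bd fS_T fS_G61 [105,106,108,109] :=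
  r_close false 3 [22,24,23,25,26,27] [105,106,108,109] [0,0,1,1] [7] [1] 2 ⟨110,[],[],[]⟩ fS_G62 [106] (by decide +kernel) fS_o60 fS_n88
theorem fS_n86  : Bd fS_T fS_G61 [100,101,102] :=
  r_act [24,25,26,27] [105,106,108,109] (by decide +kernel) fS_n87
theorem fS_n85  : Bd fS_T fS_G60 [100,101,102] :=
  r_psplit 102 [] (PT.br 7 PT.ref PT.kid) ⟨109,[28],[],[]⟩ fS_G61 [100,101,102] (by decide +kernel) fS_o59 fS_n86
theorem fS_n84  : Bd fS_T fS_G59 [100,101,102] :=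
  r_psplit 107 [] (PT.br 7 PT.ref PT.kid) ⟨108,[27],[],[]⟩ fS_G60 [100,101,102] (by decide +kernel) fS_o58 fS_n85
theorem fS_n83  : Bd fS_T fS_G58 [100,101,102] :=
  r_psplit 101 [7] PT.kid ⟨107,[26],[],[]⟩ fS_G59 [100,101,102] (by decide +kernel) fS_o57 fS_n84
theorem fS_n82  : Bd fS_T fS_G57 [100,101,102] :=
  r_psplit 100 [] (PT.br 7 PT.kid PT.kid) ⟨105,[25],[],[]⟩ fS_G58 [100,101,102] (by decide +kernel) fS_o56 fS_n83
theorem fS_n81  : Bd fS_T fS_G56 [100,102] :=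
  r_apply lem_D2 [0,0] [(102,0x40000000000000000000000000)] (by decide +kernel) fS_o55
theorem fS_n80  : Bd fS_T fS_G54 [100,101,102] :=
  r_ext 101 2 [100] [] [] [] [0,1,2,3,4,5,6] ⟨103,[],[],[]⟩ fS_G56 [100,102] ⟨104,[],[],[]⟩ fS_G57 [100,101,102] (by decide +kernel) fS_o54 fS_n81 fS_n82
theorem fS_n79  : Bd fS_T fS_G53 [99,100,101,102] :=
  r_ext 99 2 [99,101] [] [] [] [0,1,2,3,4,5,6] ⟨103,[],[],[]⟩ fS_G54 [100,101,102] ⟨103,[],[],[]⟩ fS_G55 [99,100,101,102] (by decide +kernel) fS_o53 fS_n80 fS_n89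
theorem fS_n78  : Bd fS_T fS_G53 [93,96] :=
  r_act [22,23] [99,100,101,102] (by decide +kernel) fS_n79
theorem fS_n77  : Bd fS_T fS_G52 [93,96] :=
  r_def 96 2 [93] [] ⟨101,[24],[0,0,0,0,40],[]⟩ fS_G53 [93,96] (by decide +kernel) fS_n78
theorem fS_n76  : Bd fS_T fS_G51 [93,96] :=
  r_def 93 2 [93,96] [] ⟨99,[23],[38,0,0,0,39],[]⟩ fS_G52 [93,96] (by decide +kernel) fS_n77
theorem fS_n75  : Bd fS_T fS_G50 [91,92] :=
  r_block [0,2] [3,1] [3,1] ⟨93,[],[],[4]⟩ fS_G51 [93,96] (by decide +kernel) fS_o52 fS_n76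
theorem fS_n74  : Bd fS_T fS_G49 [89,86] :=
  r_twin 2 [3,1] ⟨91,[],[],[]⟩ fS_G50 [91,92] (by decide +kernel) fS_o51 fS_n75
theorem fS_n73  : Bd fS_T fS_G49 [89,90,86] :=
  r_split [89,86] [90] (by decide +kernel) fS_o50 fS_n74 fS_n107
theorem fS_n72  : Bd fS_T fS_G49 [84,86] :=
  r_act [21] [89,90,86] (by decide +kernel) fS_n73
theorem fS_n71  : Bd fS_T fS_G48 [84,86] :=
  r_def 84 0 [86] [] ⟨89,[22],[36,0,37],[]⟩ fS_G49 [84,86] (by decide +kernel) fS_n72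
theorem fS_n70  : Bd fS_T fS_G48 [84,85,86] :=
  r_split [84,86] [85] (by decide +kernel) fS_o49 fS_n71 fS_n108
theorem fS_n69  : Bd fS_T fS_G47 [84,85,86,88] :=
  r_kill [88] ⟨89,[],[],[]⟩ fS_G48 [84,85,86] (by decide +kernel) fS_o48 fS_n70
theorem fS_n68  : Bd fS_T fS_G46 [84,85,86,87] :=
  r_hit [87] fS_h68 ⟨88,[],[35],[]⟩ fS_G47 [84,85,86,88] (by decide +kernel) fS_o47 fS_n69
theorem fS_n67  : Bd fS_T fS_G46 [59,53] :=
  r_act [18,19,20] [84,85,86,87] (by decide +kernel) fS_n68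
theorem fS_n66  : Bd fS_T fS_G45 [59,53] :=
  r_psplit 53 [] (PT.br 4 (PT.br 5 (PT.br 6 PT.kid PT.ref) PT.ref) (PT.br 5 PT.ref (PT.br 6 PT.ref PT.kid))) ⟨86,[21],[],[]⟩ fS_G46 [59,53] (by decide +kernel) fS_o46 fS_n67
theorem fS_n65  : Bd fS_T fS_G44 [59,53] :=
  r_psplit 83 [] (PT.br 4 (PT.br 5 (PT.br 6 PT.kid PT.ref) PT.ref) (PT.br 5 PT.ref (PT.br 6 PT.ref PT.kid))) ⟨84,[20],[],[]⟩ fS_G45 [59,53] (by decide +kernel) fS_o45 fS_n66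
theorem fS_n64  : Bd fS_T fS_G31 [59,53] :=
  r_psplit 59 [4,5,6] PT.kid ⟨83,[19],[],[]⟩ fS_G44 [59,53] (by decide +kernel) fS_o44 fS_n65
theorem fS_n63  : Bd fS_T fS_G43 [79] :=
  r_apply lem_D2 [0] [] (by decide +kernel) fS_o43
theorem fS_n62  : Bd fS_T fS_G42 [78,79,81,82] :=
  r_close false 2 [12,14,13,15,16,17] [78,79,81,82] [0,0,1,1] [4] [1] 2 ⟨83,[],[],[]⟩ fS_G43 [79] (by decide +kernel) fS_o42 fS_n63
theorem fS_n61  : Bd fS_T fS_G42 [74,75,76] :=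
  r_act [14,15,16,17] [78,79,81,82] (by decide +kernel) fS_n62
theorem fS_n60  : Bd fS_T fS_G41 [74,75,76] :=
  r_psplit 76 [] (PT.br 4 PT.ref PT.kid) ⟨82,[18],[],[]⟩ fS_G42 [74,75,76] (by decide +kernel) fS_o41 fS_n61
theorem fS_n59  : Bd fS_T fS_G40 [74,75,76] :=
  r_psplit 80 [] (PT.br 4 PT.ref PT.kid) ⟨81,[17],[],[]⟩ fS_G41 [74,75,76] (by decide +kernel) fS_o40 fS_n60
theorem fS_n58  : Bd fS_T fS_G39 [74,75,76] :=
  r_psplit 75 [4] PT.kid ⟨80,[16],[],[]⟩ fS_G40 [74,75,76] (by decide +kernel) fS_o39 fS_n59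
theorem fS_n57  : Bd fS_T fS_G38 [74,75,76] :=
  r_psplit 74 [] (PT.br 4 PT.kid PT.kid) ⟨78,[15],[],[]⟩ fS_G39 [74,75,76] (by decide +kernel) fS_o38 fS_n58
theorem fS_n56  : Bd fS_T fS_G37 [74,76] :=
  r_apply lem_D2 [0,0] [(76,0x10000000000000000000)] (by decide +kernel) fS_o37
theorem fS_n55  : Bd fS_T fS_G36 [74,75,76] :=
  r_ext 75 2 [74] [] [] [] [0,1,2,3] ⟨77,[],[],[]⟩ fS_G37 [74,76] ⟨77,[],[],[]⟩ fS_G38 [74,75,76] (by decide +kernel) fS_o36 fS_n56 fS_n57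
theorem fS_n54  : Bd fS_T fS_G35 [73,74,75,76] :=
  r_kill [73] ⟨77,[],[],[]⟩ fS_G36 [74,75,76] (by decide +kernel) fS_o35 fS_n55
theorem fS_n53  : Bd fS_T fS_G35 [67,70] :=
  r_act [12,13] [73,74,75,76] (by decide +kernel) fS_n54
theorem fS_n52  : Bd fS_T fS_G34 [67,70] :=
  r_def 70 2 [67] [] ⟨75,[14],[0,0,0,0,34],[]⟩ fS_G35 [67,70] (by decide +kernel) fS_n53
theorem fS_n51  : Bd fS_T fS_G33 [67,70] :=
  r_def 67 2 [67,70] [] ⟨73,[13],[32,0,0,0,33],[]⟩ fS_G34 [67,70] (by decide +kernel) fS_n52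
theorem fS_n50  : Bd fS_T fS_G32 [65,66] :=
  r_block [0,2] [3,1] [3,1] ⟨67,[],[],[3]⟩ fS_G33 [67,70] (by decide +kernel) fS_o34 fS_n51
theorem fS_n49  : Bd fS_T fS_G30 [59,53] :=
  r_twin 2 [3,1] ⟨65,[],[],[]⟩ fS_G32 [65,66] (by decide +kernel) fS_o33 fS_n50
theorem fS_n48  : Bd fS_T fS_G29 [59,53] :=
  r_case [59,59,59] [⟨0,1,true⟩,⟨0,2,true⟩,⟨1,2,true⟩] [0,1,2,3] ⟨65,[],[31],[]⟩ fS_G30 [59,53] fS_G31 [59,53] (by decide +kernel) fS_n49 fS_n64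
theorem fS_n47  : Bd fS_T fS_G29 [59,60,61,62,63,64,52,53,55] :=
  r_split [59,53] [60,62,64,52,55,61,63] (by decide +kernel) fS_o32 fS_n48 fS_n109
theorem fS_n46  : Bd fS_T fS_G29 [59,60,61,62,51,52,53,55] :=
  r_act [11] [59,60,61,62,63,64,52,53,55] (by decide +kernel) fS_n47
theorem fS_n45  : Bd fS_T fS_G28 [59,60,61,62,51,52,53,55] :=
  r_def 51 0 [51] [] ⟨63,[12],[29,0,30],[]⟩ fS_G29 [59,60,61,62,51,52,53,55] (by decide +kernel) fS_n46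
theorem fS_n44  : Bd fS_T fS_G28 [59,60,50,51,52,53,55] :=
  r_act [10] [59,60,61,62,51,52,53,55] (by decide +kernel) fS_n45
theorem fS_n43  : Bd fS_T fS_G27 [59,60,50,51,52,53,55] :=
  r_def 50 0 [50] [] ⟨61,[11],[27,0,28],[]⟩ fS_G28 [59,60,50,51,52,53,55] (by decide +kernel) fS_n44
theorem fS_n42  : Bd fS_T fS_G27 [56,50,51,52,53,55] :=
  r_act [9] [59,60,50,51,52,53,55] (by decide +kernel) fS_n43
theorem fS_n41  : Bd fS_T fS_G26 [56,50,51,52,53,55] :=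
  r_def 56 0 [56,53] [] ⟨59,[10],[25,0,26],[]⟩ fS_G27 [56,50,51,52,53,55] (by decide +kernel) fS_n42
theorem fS_n40  : Bd fS_T fS_G26 [56,50,40,51,52,53,54,55,47] :=
  r_split [56,50,51,52,53,55] [40,47,54] (by decide +kernel) fS_o31 fS_n41 fS_n114
theorem fS_n39  : Bd fS_T fS_G25 [56,50,40,51,52,53,54,55,57,47,58] :=
  r_kill [57,58] ⟨59,[],[],[]⟩ fS_G26 [56,50,40,51,52,53,54,55,47] (by decide +kernel) fS_o30 fS_n40
theorem fS_n38  : Bd fS_T fS_G24 [56,50,40,51,52,53,54,55,46,47,48] :=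
  r_hit [46,48] fS_h38 ⟨57,[],[23,24],[]⟩ fS_G25 [56,50,40,51,52,53,54,55,57,47,58] (by decide +kernel) fS_o29 fS_n39
theorem fS_n37  : Bd fS_T fS_G23 [49,39,40,41,42,43,44,45,46,47,48] :=
  r_hit [39,41,42,43,44,45,49] fS_h37 ⟨50,[],[18,19,20,21,22],[]⟩ fS_G24 [56,50,40,51,52,53,54,55,46,47,48] (by decide +kernel) fS_o28 fS_n38
theorem fS_n36  : Bd fS_T fS_G22 [37,27,28,29,30,31,32,33,34,35,36] :=
  r_hit [27,28,29,30,31,32,33,34,35,36,37] fS_h36 ⟨39,[],[0,0,13,0,0,0,0,14,0,0,15,0,0,16,17],[]⟩ fS_G23 [49,39,40,41,42,43,44,45,46,47,48] (by decide +kernel) fS_o27 fS_n37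
theorem fS_n35  : Bd fS_T fS_G21 [37,38,27,28,29,30,31,32,33,34,35,36] :=
  r_close false 0 [6,7,8] [37,38,27,28,29,30,31,32,33,34,35,36] [0,0,0,0,0,0,0,0,0,0,0,0] [0,1,2,3] [0,0,0,0] 4093 ⟨39,[],[],[]⟩ fS_G22 [37,27,28,29,30,31,32,33,34,35,36] (by decide +kernel) fS_o26 fS_n36
theorem fS_n34  : Bd fS_T fS_G21 [26,27,28,29,30,31,32,33,34,35,36] :=
  r_act [8] [37,38,27,28,29,30,31,32,33,34,35,36] (by decide +kernel) fS_n35
theorem fS_n33  : Bd fS_T fS_G20 [26,27,28,29,30,31,32,33,34,35,36] :=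
  r_def 26 0 [30,31,33,34,36] [] ⟨37,[9],[11,0,12],[]⟩ fS_G21 [26,27,28,29,30,31,32,33,34,35,36] (by decide +kernel) fS_n34
theorem fS_n32  : Bd fS_T fS_G20 [1] :=
  r_act [6,7] [26,27,28,29,30,31,32,33,34,35,36] (by decide +kernel) fS_n33
theorem fS_n31  : Bd fS_T fS_G19 [1] :=
  r_psplit 25 [] (PT.br 0 (PT.br 1 (PT.br 2 (PT.br 3 PT.kid PT.ref) (PT.br 3 PT.kid PT.kid)) (PT.br 2 (PT.br 3 PT.kid PT.kid) (PT.br 3 PT.kid PT.ref))) (PT.br 1 (PT.br 2 (PT.br 3 PT.ref PT.kid) (PT.br 3 PT.kid PT.kid)) (PT.br 2 (PT.br 3 PT.kid PT.kid) PT.ref))) ⟨26,[8],[],[]⟩ fS_G20 [1] (by decide +kernel) fS_o25 fS_n32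
theorem fS_n30  : Bd fS_T fS_G2 [1] :=
  r_psplit 1 [0,1,2,3] PT.kid ⟨25,[7],[],[]⟩ fS_G19 [1] (by decide +kernel) fS_o24 fS_n31
theorem fS_n29  : Bd fS_T fS_G6 [8] :=
  r_apply lem_cl [0] [] (by decide +kernel) fS_o23
theorem fS_n28  : Bd fS_T fS_G6 [7] :=
  r_apply lem_cl [0] [] (by decide +kernel) fS_o22
theorem fS_n27  : Bd fS_T fS_G6 [7,8] :=
  r_split [7] [8] (by decide +kernel) fS_o21 fS_n28 fS_n29
theorem fS_n26  : Bd fS_T fS_G6 [6] :=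
  r_apply lem_cl [0] [] (by decide +kernel) fS_o20
theorem fS_n25  : Bd fS_T fS_G6 [6,7,8] :=
  r_split [6] [7,8] (by decide +kernel) fS_o19 fS_n26 fS_n27
theorem fS_n24  : Bd fS_T fS_G18 [24] :=
  r_apply lem_D2 [0] [] (by decide +kernel) fS_o18
theorem fS_n23  : Bd fS_T fS_G18 [22] :=
  r_apply lem_cl [0] [] (by decide +kernel) fS_o17
theorem fS_n22  : Bd fS_T fS_G18 [22,24] :=
  r_split [22] [24] (by decide +kernel) fS_o16 fS_n23 fS_n24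
theorem fS_n21  : Bd fS_T fS_G17 [21,22,23,24] :=
  r_close false 1 [2,3,4,5] [21,22,23,24] [0,0,0,0] [3] [0] 10 ⟨25,[],[],[]⟩ fS_G18 [22,24] (by decide +kernel) fS_o15 fS_n22
theorem fS_n20  : Bd fS_T fS_G17 [17,18] :=
  r_act [3,4,5] [21,22,23,24] (by decide +kernel) fS_n21
theorem fS_n19  : Bd fS_T fS_G16 [17,18] :=
  r_psplit 18 [] (PT.br 3 PT.kid PT.kid) ⟨23,[6],[],[]⟩ fS_G17 [17,18] (by decide +kernel) fS_o14 fS_n20
theorem fS_n18  : Bd fS_T fS_G15 [17,18] :=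
  r_psplit 20 [] (PT.br 3 PT.kid PT.kid) ⟨21,[5],[],[]⟩ fS_G16 [17,18] (by decide +kernel) fS_o13 fS_n19
theorem fS_n17  : Bd fS_T fS_G14 [17,18] :=
  r_psplit 17 [3] PT.kid ⟨20,[4],[],[]⟩ fS_G15 [17,18] (by decide +kernel) fS_o12 fS_n18
theorem fS_n16  : Bd fS_T fS_G13 [18] :=
  r_apply lem_D2 [0] [] (by decide +kernel) fS_o11
theorem fS_n15  : Bd fS_T fS_G12 [17,18] :=
  r_ext 17 2 [17,18] [] [] [] [0,1,2] ⟨19,[],[],[]⟩ fS_G13 [18] ⟨19,[],[0,10],[]⟩ fS_G14 [17,18] (by decide +kernel) fS_o10 fS_n16 fS_n17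
theorem fS_n14  : Bd fS_T fS_G12 [14] :=
  r_act [2] [17,18] (by decide +kernel) fS_n15
theorem fS_n13  : Bd fS_T fS_G11 [14] :=
  r_def 14 2 [14] [] ⟨17,[3],[8,0,0,0,9],[]⟩ fS_G12 [14] (by decide +kernel) fS_n14
theorem fS_n12  : Bd fS_T fS_G10 [13] :=
  r_block [0] [1] [1] ⟨14,[],[],[2]⟩ fS_G11 [14] (by decide +kernel) fS_o9 fS_n13
theorem fS_n11  : Bd fS_T fS_G9 [10] :=
  r_twin 0 [1] ⟨13,[],[],[]⟩ fS_G10 [13] (by decide +kernel) fS_o8 fS_n12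
theorem fS_n10  : Bd fS_T fS_G8 [10,12] :=
  r_kill [12] ⟨13,[],[],[]⟩ fS_G9 [10] (by decide +kernel) fS_o7 fS_n11
theorem fS_n9  : Bd fS_T fS_G7 [10,11] :=
  r_hit [11] fS_h9 ⟨12,[],[7],[]⟩ fS_G8 [10,12] (by decide +kernel) fS_o6 fS_n10
theorem fS_n8  : Bd fS_T fS_G6 [5,9] :=
  r_twin 2 [3,1] ⟨10,[],[5,6],[]⟩ fS_G7 [10,11] (by decide +kernel) fS_o5 fS_n9
theorem fS_n7  : Bd fS_T fS_G6 [5,6,7,8,9] :=
  r_split [5,9] [6,7,8] (by decide +kernel) fS_o4 fS_n8 fS_n25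
theorem fS_n6  : Bd fS_T fS_G6 [1] :=
  r_act [0,1] [5,6,7,8,9] (by decide +kernel) fS_n7
theorem fS_n5  : Bd fS_T fS_G5 [1] :=
  r_psplit 4 [] (PT.br 0 (PT.br 1 (PT.br 2 PT.kid PT.kid) (PT.br 2 PT.kid PT.ref)) (PT.br 1 (PT.br 2 PT.kid PT.ref) (PT.br 2 PT.ref PT.kid))) ⟨5,[2],[],[]⟩ fS_G6 [1] (by decide +kernel) fS_o3 fS_n6
theorem fS_n4  : Bd fS_T fS_G4 [1] :=
  r_psplit 1 [0,1,2] PT.kid ⟨4,[1],[],[]⟩ fS_G5 [1] (by decide +kernel) fS_o2 fS_n5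
theorem fS_n3  : Bd fS_T fS_G3 [1] :=
  r_apply lem_d [0] [] (by decide +kernel) fS_o1
theorem fS_n2  : Bd fS_T fS_G1 [1] :=
  r_case [1,1,1] [⟨0,1,true⟩,⟨0,2,true⟩,⟨1,2,true⟩] [] ⟨4,[],[4],[]⟩ fS_G3 [1] fS_G4 [1] (by decide +kernel) fS_n3 fS_n4
theorem fS_n1  : Bd fS_T fS_G0 [1] :=
  r_case [1,1,1,1] [⟨0,1,true⟩,⟨1,2,true⟩,⟨2,3,true⟩,⟨0,2,false⟩,⟨0,3,false⟩,⟨1,3,false⟩] [] ⟨4,[],[3],[]⟩ fS_G1 [1] fS_G2 [1] (by decide +kernel) fS_n2 fS_n30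
theorem fS_n0  : Bd fS_T (pureCtx 0 2) (pureAct 0) :=
  show Bd _ _ [0] from r_block [0] [1] [1] ⟨1,[],[],[1]⟩ fS_G0 [1] (by decide +kernel) fS_o0 fS_n1
theorem lem_fS  : Lem fS_T 0 2 := ⟨by decide +kernel, fS_n0⟩

end Pool.Agent.Lib.MP_849b2e_co
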