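import Pool.Agent.Lib.MP_849b2e_co.Rules

set_option maxRecDepth 100000
set_option linter.all false
namespace Pool.Agent.Lib.MP_849b2e_co

noncomputable def f_ty : Tr Ty := (Tr.br (Tr.br (Tr.br (Tr.br (Tr.br (Tr.br (Tr.leaf ⟨1,0,0,0,0⟩) (Tr.leaf ⟨0x100000007,0x1fffff8,16,15,31⟩)) (Tr.br (Tr.leaf ⟨65539,0x1fefffc,9,22,31⟩) (Tr.leaf ⟨0x1000100000007,0x1fffff8,16,15,31⟩))) (Tr.br (Tr.br (Tr.leaf ⟨259,0x1fffefc,2,29,31⟩) (Tr.leaf ⟨0x10000001003,0x1ffeffc,6,25,31⟩)) (Tr.br (Tr.leaf ⟨0x1000003,0xfffffc,27,4,31⟩) (Tr.leaf ⟨0x100010000001003,0x1ffeffc,6,25,31⟩))))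
 (Tr.br (Tr.br (Tr.br (Tr.leaf ⟨19,0x1ffffec,24,7,31⟩) (Tr.leaf ⟨0x1000000083,0x1ffff7c,12,19,31⟩)) (Tr.br (Tr.leaf ⟨0x100003,0x1effffc,13,18,31⟩) (Tr.leaf ⟨0x10001000000083,0x1ffff7c,12,19,31⟩))) (Tr.br (Tr.br (Tr.leaf ⟨4099,0x1ffeffc,6,25,31⟩) (Tr.leaf ⟨0x100000040003,0x1fbfffc,5,26,31⟩)) (Tr.br (Tr.leaf ⟨0x10100003,0x1effffc,13,18,31⟩) (Tr.leaf ⟨0x1000100000040003,0x1fbfffc,5,26,31⟩))))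
)
 (Tr.br (Tr.br (Tr.br (Tr.br (Tr.leaf ⟨7,0x1fffff8,16,15,31⟩) (Tr.leaf ⟨0x400000023,0x1ffffdc,4,27,31⟩)) (Tr.br (Tr.leaf ⟨0x40003,0x1fbfffc,5,26,31⟩) (Tr.leaf ⟨0x4000400000023,0x1ffffdc,4,27,31⟩))) (Tr.br (Tr.br (Tr.leaf ⟨1027,0x1fffbfc,10,21,31⟩) (Tr.leaf ⟨0x40000008003,0x1ff7ffc,17,14,31⟩)) (Tr.br (Tr.leaf ⟨0x4002003,0x1ffdffc,22,9,31⟩) (Tr.leaf ⟨0x400040000008003,0x1ff7ffc,17,14,31⟩))))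
 (Tr.br (Tr.br (Tr.br (Tr.leaf ⟨67,0x1ffffbc,20,11,31⟩) (Tr.leaf ⟨0x4000000203,0x1fffdfc,18,13,31⟩)) (Tr.br (Tr.leaf ⟨0x400003,0x1bffffc,19,12,31⟩) (Tr.leaf ⟨0x40004000000203,0x1fffdfc,18,13,31⟩))) (Tr.br (Tr.br (Tr.leaf ⟨16387,0x1ffbffc,1,30,31⟩) (Tr.leaf ⟨0x400000000013,0x1ffffec,24,7,31⟩)) (Tr.leaf ⟨0x40800003,0x17ffffc,11,20,31⟩)))
)
)
 (Tr.br (Tr.br (Tr.br (Tr.br (Tr.br (Tr.leaf ⟨3,0,0,0,31⟩) (Tr.leaf ⟨0x20000000b,0x1fffff4,8,23,31⟩)) (Tr.br (Tr.leaf ⟨0x20003,0x1fdfffc,25,6,31⟩) (Tr.leaf ⟨0x200020000000b,0x1fffff4,8,23,31⟩))) (Tr.br (Tr.br (Tr.leaf ⟨515,0x1fffdfc,18,13,31⟩) (Tr.leaf ⟨0x20000004003,0x1ffbffc,1,30,31⟩)) (Tr.br (Tr.leaf ⟨0x2000803,0x1fff7fc,26,5,31⟩) (Tr.leaf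 ⟨0x200020000004003,0x1ffbffc,1,30,31⟩))))
 (Tr.br (Tr.br (Tr.br (Tr.leaf ⟨35,0x1ffffdc,4,27,31⟩) (Tr.leaf ⟨0x2000000103,0x1fffefc,2,29,31⟩)) (Tr.br (Tr.leaf ⟨0x200003,0x1dffffc,3,28,31⟩) (Tr.leaf ⟨0x20002000000103,0x1fffefc,2,29,31⟩))) (Tr.br (Tr.br (Tr.leaf ⟨8195,0x1ffdffc,22,9,31⟩) (Tr.leaf ⟨0x200000080003,0x1f7fffc,21,10,31⟩)) (Tr.br (Tr.leaf ⟨0x20400003,0x1bffffc,19,12,31⟩) (Tr.leaf ⟨0x2000200000080003,0x1f7fffc,21,10,31⟩))))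
)
 (Tr.br (Tr.br (Tr.br (Tr.br (Tr.leaf ⟨11,0x1fffff4,8,23,31⟩) (Tr.leaf ⟨0x800000043,0x1ffffbc,20,11,31⟩)) (Tr.br (Tr.leaf ⟨0x80003,0x1f7fffc,21,10,31⟩) (Tr.leaf ⟨0x8000800000043,0x1ffffbc,20,11,31⟩))) (Tr.br (Tr.br (Tr.leaf ⟨2051,0x1fff7fc,26,5,31⟩) (Tr.leaf ⟨0x80000010003,0x1fefffc,9,22,31⟩)) (Tr.br (Tr.leaf ⟨0x8020003,0x1fdfffc,25,6,31⟩) (Tr.leaf ⟨0x800080000010003,0x1fefffc,9,22,31⟩))))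
 (Tr.br (Tr.br (Tr.br (Tr.leaf ⟨131,0x1ffff7c,12,19,31⟩) (Tr.leaf ⟨0x8000000403,0x1fffbfc,10,21,31⟩)) (Tr.br (Tr.leaf ⟨0x800003,0x17ffffc,11,20,31⟩) (Tr.leaf ⟨0x80008000000403,0x1fffbfc,10,21,31⟩))) (Tr.br (Tr.br (Tr.leaf ⟨32771,0x1ff7ffc,17,14,31⟩) (Tr.leaf ⟨0x800000200003,0x1dffffc,3,28,31⟩)) (Tr.leaf ⟨0x81000003,0xfffffc,27,4,31⟩)))
)
)
)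

noncomputable def f_ev : Tr Ev := (Tr.br (Tr.leaf ⟨0,[1],31⟩) (Tr.leaf ⟨1,[2,3,4,5,6,7,8,9,10,11,12,13,14,15,16,17,18,19,20,21,22,23,24],0⟩))

noncomputable def f_ax : Tr Ax := (Tr.br (Tr.br (Tr.br (Tr.br (Tr.br (Tr.br (Tr.br (Tr.leaf ⟨[1,1,1,1],[⟨0,1,true⟩,⟨0,2,true⟩,⟨0,3,false⟩,⟨1,2,true⟩,⟨1,3,true⟩,⟨2,3,true⟩],[],0⟩) (Tr.leaf ⟨[0x400000000000,0x4000000000000,0x1000000000000000],[⟨0,1,true⟩,⟨0,2,true⟩,⟨1,2,false⟩],[],0⟩)) (Tr.leaf ⟨[0x10000000000,0x80000000000],[⟨0,1,true⟩],[],0⟩)) (Tr.br (Tr.br (Tr.leaf ⟨[0x200000000,0x10000000000],[⟨0,1,true⟩],[],0⟩) (Tr.leaf ⟨[0x4000000000000,0x4000000000000,0x800000000000],[⟨0,1,false⟩,⟨0,2,true⟩,⟨1,2,true⟩],[],0⟩)) (Tr.leaf ⟨[0x2000000000000,0x2000000000000,0x40000000000000],[⟨0,1,true⟩,⟨0,2,true⟩,⟨1,2,false⟩],[],0⟩)))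 (Tr.br (Tr.br (Tr.br (Tr.leaf ⟨[0x40000000],[],[],0⟩) (Tr.leaf ⟨[0x400000000000,0x40000000000000,0x1000000000000000],[⟨0,1,false⟩,⟨0,2,true⟩,⟨1,2,false⟩],[],0⟩)) (Tr.leaf ⟨[0x80000000000,0x200000000000],[⟨0,1,true⟩],[],0⟩)) (Tr.br (Tr.br (Tr.leaf ⟨[0x1000000000,0x20000000000],[],[],0⟩) (Tr.leaf ⟨[0x8000000000000,0x800000000000000,0x800000000000],[⟨0,1,false⟩,⟨0,2,true⟩,⟨1,2,false⟩],[],0⟩)) (Tr.leaf ⟨[0x2000000000000,0x20000000000000,0x400000000000000],[⟨0,1,true⟩,⟨0,2,true⟩,⟨1,2,true⟩],[],0⟩))))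
 (Tr.br (Tr.br (Tr.br (Tr.br (Tr.leaf ⟨[0x4000000],[],[],0⟩) (Tr.leaf ⟨[0x400000000000,0x20000000000000,0x100000000000000],[⟨0,1,true⟩,⟨0,2,true⟩,⟨1,2,false⟩],[],0⟩)) (Tr.leaf ⟨[0x20000000000,0x200000000000],[⟨0,1,true⟩],[],0⟩)) (Tr.br (Tr.br (Tr.leaf ⟨[0x800000000,0x40000000000],[⟨0,1,true⟩],[],0⟩) (Tr.leaf ⟨[0x8000000000000,0x10000000000000,0x800000000000],[⟨0,1,false⟩,⟨0,2,true⟩,⟨1,2,true⟩],[],0⟩)) (Tr.leaf ⟨[0x2000000000000,0x400000000000,0x800000000000],[⟨0,1,false⟩,⟨0,2,true⟩,⟨1,2,true⟩],[],0⟩))) (Tr.br (Tr.br (Tr.br (Tr.leaf ⟨[0x100000000,0x10000000000],[],[],0⟩) (Tr.leaf ⟨[0x400000000000,0x200000000000000,0x200000000000000],[⟨0,1,true⟩,⟨0,2,true⟩,⟨1,2,false⟩],[],0⟩)) (Tr.leaf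 ⟨[0x1000000000000,0x2000000000000,0x1000000000000000],[⟨0,1,true⟩,⟨0,2,true⟩,⟨1,2,true⟩],[],0⟩)) (Tr.br (Tr.br (Tr.leaf ⟨[0x4000000000,0x40000000000],[⟨0,1,true⟩],[],0⟩) (Tr.leaf ⟨[0x100000000000000,0x200000000000000,0x200000000000000],[⟨0,1,true⟩,⟨0,2,true⟩,⟨1,2,false⟩],[],0⟩)) (Tr.leaf ⟨[0x2000000000000,0x2000000000000000,0x800000000000],[⟨0,1,false⟩,⟨0,2,true⟩,⟨1,2,false⟩],[],0⟩))))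
)
 (Tr.br (Tr.br (Tr.br (Tr.br (Tr.br (Tr.leaf ⟨[1,1,1,1,1],[⟨0,1,true⟩,⟨1,2,true⟩,⟨2,3,true⟩,⟨3,4,true⟩,⟨0,2,false⟩,⟨0,3,false⟩,⟨0,4,false⟩,⟨1,3,false⟩,⟨1,4,false⟩,⟨2,4,false⟩],[],0⟩) (Tr.leaf ⟨[0x400000000000,0x8000000000000,0x800000000000],[⟨0,1,false⟩,⟨0,2,false⟩,⟨1,2,true⟩],[],0⟩)) (Tr.leaf ⟨[0x20000000000,0x80000000000],[⟨0,1,true⟩],[],0⟩)) (Tr.br (Tr.br (Tr.leaf ⟨[0x400000000,0x100000000000],[⟨0,1,true⟩],[],0⟩) (Tr.leaf ⟨[0x4000000000000,0x10000000000000,0x800000000000],[⟨0,1,false⟩,⟨0,2,true⟩,⟨1,2,true⟩],[],0⟩)) (Tr.leaf ⟨[0x2000000000000,0x400000000000,0x20000000000000],[⟨0,1,false⟩,⟨0,2,true⟩,⟨1,2,true⟩],[],0⟩))) (Tr.br (Tr.br (Tr.br (Tr.leaf ⟨[0x100000000,0x800000000],[⟨0,1,true⟩],[],0⟩)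 (Tr.leaf ⟨[0x400000000000,0x100000000000000,0x1000000000000000],[⟨0,1,false⟩,⟨0,2,true⟩,⟨1,2,false⟩],[],0⟩)) (Tr.leaf ⟨[0x1000000000000,0x1000000000000,0x800000000000000],[⟨0,1,true⟩,⟨0,2,true⟩,⟨1,2,false⟩],[],0⟩)) (Tr.br (Tr.br (Tr.leaf ⟨[0x2000000000,0x8000000000],[⟨0,1,true⟩],[],0⟩) (Tr.leaf ⟨[0x20000000000000,0x20000000000000,0x2000000000000000],[⟨0,1,true⟩,⟨0,2,true⟩,⟨1,2,false⟩],[],0⟩)) (Tr.leaf ⟨[0x2000000000000,0x20000000000000,0x800000000000],[⟨0,1,true⟩,⟨0,2,true⟩,⟨1,2,false⟩],[],0⟩))))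
 (Tr.br (Tr.br (Tr.br (Tr.br (Tr.leaf ⟨[0x10000000],[],[],0⟩) (Tr.leaf ⟨[0x400000000000,0x20000000000000,0x2000000000000000],[⟨0,1,true⟩,⟨0,2,false⟩,⟨1,2,false⟩],[],0⟩)) (Tr.leaf ⟨[0x40000000000,0x100000000000],[⟨0,1,true⟩],[],0⟩)) (Tr.br (Tr.br (Tr.leaf ⟨[0x1000000000,0x2000000000],[⟨0,1,true⟩],[],0⟩) (Tr.leaf ⟨[0x8000000000000,0x20000000000000,0x800000000000],[⟨0,1,true⟩,⟨0,2,true⟩,⟨1,2,false⟩],[],0⟩)) (Tr.leaf ⟨[0x2000000000000,0x8000000000000,0x20000000000000],[⟨0,1,true⟩,⟨0,2,true⟩,⟨1,2,true⟩],[],0⟩))) (Tr.br (Tr.br (Tr.br (Tr.leaf ⟨[0x100000000,0x200000000000],[⟨0,1,true⟩],[],0⟩) (Tr.leaf ⟨[0x400000000000,0x1000000000000000,0x800000000000],[⟨0,1,true⟩,⟨0,2,false⟩,⟨1,2,false⟩],[],0⟩))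 (Tr.leaf ⟨[0x1000000000000,0x8000000000000,0x800000000000],[⟨0,1,false⟩,⟨0,2,true⟩,⟨1,2,true⟩],[],0⟩)) (Tr.br (Tr.leaf ⟨[0x8000000000,0x80000000000],[⟨0,1,true⟩],[],0⟩) (Tr.leaf ⟨[0x400000000000,0x4000000000000,0x20000000000000],[⟨0,1,true⟩,⟨0,2,true⟩,⟨1,2,false⟩],[],0⟩))))
)
)
 (Tr.br (Tr.br (Tr.br (Tr.br (Tr.br (Tr.br (Tr.leaf ⟨[1,1,1,1,1,1],[⟨0,1,false⟩,⟨0,2,false⟩,⟨0,3,false⟩,⟨0,4,false⟩,⟨0,5,false⟩,⟨1,2,true⟩,⟨1,3,false⟩,⟨1,4,false⟩,⟨1,5,false⟩,⟨2,3,true⟩,⟨2,4,false⟩,⟨2,5,false⟩,⟨3,4,true⟩,⟨3,5,false⟩,⟨4,5,true⟩],[],0⟩) (Tr.leaf ⟨[0x400000000000,0x8000000000000,0x20000000000000],[⟨0,1,false⟩,⟨0,2,true⟩,⟨1,2,true⟩],[],0⟩)) (Tr.leaf ⟨[0x20000000000,0x40000000000],[],[],0⟩))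 (Tr.br (Tr.br (Tr.leaf ⟨[0x400000000,0x800000000],[⟨0,1,true⟩],[],0⟩) (Tr.leaf ⟨[0x4000000000000,0x8000000000000,0x800000000000],[⟨0,1,false⟩,⟨0,2,true⟩,⟨1,2,true⟩],[],0⟩)) (Tr.leaf ⟨[0x2000000000000,0x2000000000000,0x2000000000000000],[⟨0,1,true⟩,⟨0,2,true⟩,⟨1,2,false⟩],[],0⟩))) (Tr.br (Tr.br (Tr.br (Tr.leaf ⟨[0x80000000],[],[],0⟩) (Tr.leaf ⟨[0x400000000000,0x80000000000000,0x1000000000000000],[⟨0,1,false⟩,⟨0,2,true⟩,⟨1,2,false⟩],[],0⟩)) (Tr.leaf ⟨[0x1000000000000,0x1000000000000,0x10000000000000],[⟨0,1,false⟩,⟨0,2,true⟩,⟨1,2,true⟩],[],0⟩)) (Tr.br (Tr.br (Tr.leaf ⟨[0x1000000000,0x40000000000],[⟨0,1,true⟩],[],0⟩) (Tr.leaf ⟨[0x20000000000000,0x20000000000000,0x800000000000000],[⟨0,1,true⟩,⟨0,2,true⟩,⟨1,2,false⟩],[],0⟩))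 (Tr.leaf ⟨[0x2000000000000,0x20000000000000,0x1000000000000000],[⟨0,1,true⟩,⟨0,2,true⟩,⟨1,2,true⟩],[],0⟩))))
 (Tr.br (Tr.br (Tr.br (Tr.br (Tr.leaf ⟨[0x8000000],[],[],0⟩) (Tr.leaf ⟨[0x400000000000,0x20000000000000,0x200000000000000],[⟨0,1,true⟩,⟨0,2,true⟩,⟨1,2,true⟩],[],0⟩)) (Tr.leaf ⟨[0x40000000000,0x80000000000],[⟨0,1,true⟩],[],0⟩)) (Tr.br (Tr.br (Tr.leaf ⟨[0x800000000,0x100000000000],[⟨0,1,true⟩],[],0⟩) (Tr.leaf ⟨[0x8000000000000,0x20000000000000,0x200000000000000],[⟨0,1,true⟩,⟨0,2,true⟩,⟨1,2,true⟩],[],0⟩)) (Tr.leaf ⟨[0x2000000000000,0x4000000000000,0x800000000000],[⟨0,1,false⟩,⟨0,2,true⟩,⟨1,2,true⟩],[],0⟩))) (Tr.br (Tr.br (Tr.br (Tr.leaf ⟨[0x100000000,0x40000000000],[],[],0⟩)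 (Tr.leaf ⟨[0x400000000000,0x200000000000000,0x1000000000000000],[⟨0,1,true⟩,⟨0,2,true⟩,⟨1,2,false⟩],[],0⟩)) (Tr.leaf ⟨[0x1000000000000,0x2000000000000,0x800000000000],[⟨0,1,true⟩,⟨0,2,true⟩,⟨1,2,true⟩],[],0⟩)) (Tr.br (Tr.leaf ⟨[0x4000000000,0x200000000000],[⟨0,1,true⟩],[],0⟩) (Tr.leaf ⟨[0x400000000000,0x4000000000000,0x4000000000000],[⟨0,1,true⟩,⟨0,2,true⟩,⟨1,2,false⟩],[],0⟩))))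
)
 (Tr.br (Tr.br (Tr.br (Tr.br (Tr.br (Tr.leaf ⟨[0x2000000],[],[],0⟩) (Tr.leaf ⟨[0x400000000000,0x8000000000000,0x800000000000],[⟨0,1,false⟩,⟨0,2,true⟩,⟨1,2,true⟩],[],0⟩)) (Tr.leaf ⟨[0x20000000000,0x100000000000],[⟨0,1,true⟩],[],0⟩)) (Tr.br (Tr.br (Tr.leaf ⟨[0x800000000,0x4000000000],[⟨0,1,true⟩],[],0⟩) (Tr.leaf ⟨[0x8000000000000,0x10000000000000,0x800000000000],[⟨0,1,false⟩,⟨0,2,true⟩,⟨1,2,false⟩],[],0⟩)) (Tr.leaf ⟨[0x2000000000000,0x400000000000,0x1000000000000000],[⟨0,1,false⟩,⟨0,2,true⟩,⟨1,2,true⟩],[],0⟩))) (Tr.br (Tr.br (Tr.br (Tr.leaf ⟨[0x100000000,0x4000000000],[⟨0,1,true⟩],[],0⟩) (Tr.leaf ⟨[0x400000000000,0x100000000000000,0x1000000000000000],[⟨0,1,true⟩,⟨0,2,true⟩,⟨1,2,false⟩],[],0⟩))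 (Tr.leaf ⟨[0x1000000000000,0x1000000000000,0x800000000000],[⟨0,1,false⟩,⟨0,2,true⟩,⟨1,2,true⟩],[],0⟩)) (Tr.br (Tr.br (Tr.leaf ⟨[0x4000000000,0x8000000000],[⟨0,1,true⟩],[],0⟩) (Tr.leaf ⟨[0x40000000000000,0x200000000000000,0x200000000000000],[⟨0,1,true⟩,⟨0,2,false⟩,⟨1,2,true⟩],[],0⟩)) (Tr.leaf ⟨[0x2000000000000,0x1000000000000000,0x800000000000],[⟨0,1,true⟩,⟨0,2,true⟩,⟨1,2,false⟩],[],0⟩))))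
 (Tr.br (Tr.br (Tr.br (Tr.br (Tr.leaf ⟨[0x20000000],[],[],0⟩) (Tr.leaf ⟨[0x400000000000,0x20000000000000,0x800000000000],[⟨0,1,true⟩,⟨0,2,true⟩,⟨1,2,false⟩],[],0⟩)) (Tr.leaf ⟨[0x80000000000,0x100000000000],[⟨0,1,true⟩],[],0⟩)) (Tr.br (Tr.br (Tr.leaf ⟨[0x1000000000,0x4000000000],[⟨0,1,true⟩],[],0⟩) (Tr.leaf ⟨[0x8000000000000,0x80000000000000,0x800000000000],[⟨0,1,false⟩,⟨0,2,true⟩,⟨1,2,false⟩],[],0⟩)) (Tr.leaf ⟨[0x2000000000000,0x10000000000000,0x800000000000],[⟨0,1,false⟩,⟨0,2,true⟩,⟨1,2,true⟩],[],0⟩))) (Tr.br (Tr.br (Tr.br (Tr.leaf ⟨[0x200000000,0x8000000000],[⟨0,1,true⟩],[],0⟩) (Tr.leaf ⟨[0x400000000000,0x1000000000000000,0x800000000000],[⟨0,1,true⟩,⟨0,2,true⟩,⟨1,2,false⟩],[],0⟩))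 (Tr.leaf ⟨[0x1000000000000,0x80000000000000,0x200000000000000],[⟨0,1,true⟩,⟨0,2,true⟩,⟨1,2,true⟩],[],0⟩)) (Tr.br (Tr.leaf ⟨[0x10000000000,0x40000000000],[⟨0,1,true⟩],[],0⟩) (Tr.leaf ⟨[0x400000000000,0x4000000000000,0x100000000000000],[⟨0,1,true⟩,⟨0,2,true⟩,⟨1,2,false⟩],[],0⟩))))
)
)
)

noncomputable def f_sc : Tr Sc := (Tr.leaf ⟨[],[]⟩)
noncomputable def f_T : Tab := ⟨62,f_ty,f_ev,f_ax,f_sc⟩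
def f_S0 : St := ⟨0,0,0,0,0⟩
def f_G0 : Ctx := ⟨1,0,7,0,0,f_S0,none⟩
def f_S1 : St := ⟨5,0x100000000000000040000000000000010000000000000004000000000000001,0x8000000000000000000000000000000140000000000000000000000000000000a0000000000000000000000000000000500000000000000000000000000000002,0x70000000000000000000000000000000300000000000000000000000000000011000000000000000000000000000000180000000000000000000000000000001c,31⟩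
def f_G1 : Ctx := ⟨1,0,3,0,0,f_S1,none⟩
def f_G2 : Ctx := ⟨2,1,3,0,0,f_S1,none⟩
def f_G3 : Ctx := ⟨25,3,3,0,0,f_S1,none⟩
def f_G4 : Ctx := ⟨32,3,1019,0,0,f_S1,none⟩
def f_G5 : Ctx := ⟨32,3,1019,0,0xfe000000,f_S1,none⟩
def f_G6 : Ctx := ⟨46,3,0x1fffffffffb,0,0xfe000000,f_S1,none⟩
def f_G7 : Ctx := ⟨62,3,0x1ffffffffffffffffffffffb,0,0xfe000000,f_S1,none⟩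
def f_h5 : List HP := [⟨[0],[],(HT.leaf 2)⟩,⟨[1],[],(HT.leaf 2)⟩,⟨[2],[],(HT.leaf 2)⟩,⟨[3],[],(HT.leaf 2)⟩,⟨[4],[],(HT.leaf 2)⟩,⟨[5],[],(HT.leaf 2)⟩,⟨[6],[],(HT.leaf 2)⟩]
def f_h7 : List HP := [⟨[0,3],[⟨0,1,true⟩],(HT.leaf 2)⟩,⟨[0,6],[⟨0,1,true⟩],(HT.leaf 2)⟩,⟨[0,8],[],(HT.leaf 2)⟩,⟨[0,10],[],(HT.leaf 2)⟩,⟨[0,13],[⟨0,1,true⟩],(HT.leaf 2)⟩,⟨[1,7],[⟨0,1,true⟩],(HT.leaf 2)⟩,⟨[1,8],[⟨0,1,true⟩],(HT.leaf 2)⟩,⟨[2,3],[⟨0,1,true⟩],(HT.leaf 2)⟩,⟨[2,12],[⟨0,1,true⟩],(HT.leaf 2)⟩,⟨[2,13],[],(HT.leaf 2)⟩,⟨[3,6],[⟨0,1,true⟩],(HT.leaf 2)⟩,⟨[3,10],[⟨0,1,true⟩],(HT.leaf 2)⟩,⟨[3,12],[⟨0,1,true⟩],(HT.leaf 2)⟩,⟨[4,5],[⟨0,1,true⟩],(HT.leaf 2)⟩,⟨[4,6],[⟨0,1,true⟩],(HT.leaf 2)⟩,⟨[4,9],[],(HT.leaf 2)⟩,⟨[4,10],[⟨0,1,true⟩],(HT.leaf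 3)⟩,⟨[5,7],[⟨0,1,true⟩],(HT.leaf 2)⟩,⟨[6,7],[⟨0,1,true⟩],(HT.leaf 2)⟩,⟨[6,10],[⟨0,1,true⟩],(HT.leaf 2)⟩,⟨[6,13],[⟨0,1,true⟩],(HT.leaf 2)⟩,⟨[7,11],[⟨0,1,true⟩],(HT.leaf 2)⟩,⟨[8,10],[⟨0,1,true⟩],(HT.leaf 3)⟩,⟨[8,11],[⟨0,1,true⟩],(HT.leaf 2)⟩,⟨[9,10],[],(HT.leaf 2)⟩,⟨[9,11],[⟨0,1,true⟩],(HT.leaf 2)⟩,⟨[9,12],[⟨0,1,true⟩],(HT.leaf 2)⟩,⟨[9,13],[⟨0,1,true⟩],(HT.leaf 2)⟩,⟨[10,11],[⟨0,1,true⟩],(HT.leaf 2)⟩,⟨[10,12],[⟨0,1,true⟩],(HT.leaf 2)⟩,⟨[11,12],[⟨0,1,true⟩],(HT.leaf 2)⟩,⟨[11,13],[⟨0,1,true⟩],(HT.leaf 2)⟩]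
def f_h8 : List HP := [⟨[2,2,6],[⟨0,1,false⟩,⟨0,2,true⟩,⟨1,2,true⟩],(HT.leaf 2)⟩,⟨[2,2,13],[⟨0,1,true⟩,⟨0,2,true⟩,⟨1,2,false⟩],(HT.leaf 2)⟩,⟨[2,2,1],[⟨0,1,false⟩,⟨0,2,true⟩,⟨1,2,true⟩],(HT.leaf 2)⟩,⟨[2,3,6],[⟨0,1,true⟩,⟨0,2,true⟩,⟨1,2,false⟩],(HT.leaf 2)⟩,⟨[2,3,14],[⟨0,1,true⟩,⟨0,2,true⟩,⟨1,2,true⟩],(HT.leaf 2)⟩,⟨[2,3,1],[⟨0,1,true⟩,⟨0,2,true⟩,⟨1,2,false⟩],(HT.leaf 2)⟩,⟨[2,3,1],[⟨0,1,true⟩,⟨0,2,true⟩,⟨1,2,true⟩],(HT.leaf 2)⟩,⟨[2,4,6],[],(HT.leaf 2)⟩,⟨[2,4,9],[⟨0,1,true⟩,⟨0,2,true⟩,⟨1,2,true⟩],(HT.leaf 2)⟩,⟨[2,4,11],[],(HT.leaf 2)⟩,⟨[2,4,13],[⟨0,1,true⟩,⟨0,2,true⟩,⟨1,2,true⟩],(HT.leaf 2)⟩,⟨[2,4,1],[⟨0,1,true⟩,⟨0,2,true⟩,⟨1,2,false⟩],(HT.leaf 2)⟩,⟨[2,4,1],[⟨0,1,true⟩,⟨0,2,false⟩,⟨1,2,true⟩],(HT.leaf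 2)⟩,⟨[2,4,1],[⟨0,1,true⟩,⟨0,2,true⟩,⟨1,2,true⟩],(HT.leaf 2)⟩,⟨[2,5,6],[],(HT.leaf 2)⟩,⟨[2,5,1],[⟨0,1,false⟩,⟨0,2,true⟩,⟨1,2,true⟩],(HT.leaf 2)⟩,⟨[2,6,9],[],(HT.leaf 2)⟩,⟨[2,6,14],[⟨0,1,true⟩,⟨0,2,true⟩,⟨1,2,false⟩],(HT.leaf 2)⟩,⟨[2,6,15],[],(HT.leaf 2)⟩,⟨[2,9,11],[⟨0,1,true⟩,⟨0,2,true⟩,⟨1,2,true⟩],(HT.leaf 2)⟩,⟨[2,9,1],[⟨0,1,true⟩,⟨0,2,true⟩,⟨1,2,false⟩],(HT.leaf 2)⟩,⟨[2,13,1],[],(HT.leaf 2)⟩,⟨[2,14,1],[⟨0,1,true⟩,⟨0,2,true⟩,⟨1,2,false⟩],(HT.leaf 2)⟩,⟨[2,15,1],[],(HT.leaf 2)⟩,⟨[3,3,8],[⟨0,1,true⟩,⟨0,2,true⟩,⟨1,2,false⟩],(HT.leaf 2)⟩,⟨[3,3,15],[⟨0,1,true⟩,⟨0,2,true⟩,⟨1,2,false⟩],(HT.leaf 2)⟩,⟨[3,0,7],[⟨0,1,false⟩,⟨0,2,true⟩,⟨1,2,true⟩],(HT.leaf 2)⟩,⟨[3,0,14],[⟨0,1,false⟩,⟨0,2,true⟩,⟨1,2,true⟩],(HT.leaf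 2)⟩,⟨[3,0,1],[⟨0,1,false⟩,⟨0,2,true⟩,⟨1,2,true⟩],(HT.leaf 2)⟩,⟨[3,4,1],[⟨0,1,false⟩,⟨0,2,true⟩,⟨1,2,true⟩],(HT.leaf 2)⟩,⟨[3,5,7],[⟨0,1,true⟩,⟨0,2,true⟩,⟨1,2,true⟩],(HT.leaf 2)⟩,⟨[3,6,1],[⟨0,1,false⟩,⟨0,2,true⟩,⟨1,2,true⟩],(HT.leaf 2)⟩,⟨[3,7,12],[⟨0,1,true⟩,⟨0,2,true⟩,⟨1,2,true⟩],(HT.leaf 2)⟩,⟨[3,7,14],[⟨0,1,true⟩,⟨0,2,true⟩,⟨1,2,true⟩],(HT.leaf 2)⟩,⟨[3,7,1],[⟨0,1,true⟩,⟨0,2,true⟩,⟨1,2,false⟩],(HT.leaf 2)⟩,⟨[3,12,1],[⟨0,1,true⟩,⟨0,2,true⟩,⟨1,2,false⟩],(HT.leaf 2)⟩,⟨[3,14,1],[⟨0,1,true⟩,⟨0,2,true⟩,⟨1,2,false⟩],(HT.leaf 2)⟩,⟨[3,15,1],[⟨0,1,false⟩,⟨0,2,true⟩,⟨1,2,false⟩],(HT.leaf 2)⟩,⟨[0,4,4],[⟨0,1,true⟩,⟨0,2,true⟩,⟨1,2,false⟩],(HT.leaf 2)⟩,⟨[0,4,5],[],(HT.leaf 2)⟩,⟨[0,4,7],[⟨0,1,true⟩,⟨0,2,true⟩,⟨1,2,false⟩],(HT.leaf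 2)⟩,⟨[0,4,8],[],(HT.leaf 2)⟩,⟨[0,4,9],[⟨0,1,true⟩,⟨0,2,false⟩,⟨1,2,true⟩],(HT.leaf 2)⟩,⟨[0,4,10],[⟨0,1,true⟩,⟨0,2,true⟩,⟨1,2,false⟩],(HT.leaf 2)⟩,⟨[0,4,11],[⟨0,1,true⟩,⟨0,2,false⟩,⟨1,2,true⟩],(HT.leaf 2)⟩,⟨[0,4,11],[⟨0,1,false⟩,⟨0,2,true⟩,⟨1,2,true⟩],(HT.leaf 2)⟩,⟨[0,4,11],[⟨0,1,true⟩,⟨0,2,true⟩,⟨1,2,true⟩],(HT.leaf 2)⟩,⟨[0,4,12],[⟨0,1,true⟩,⟨0,2,false⟩,⟨1,2,true⟩],(HT.leaf 2)⟩,⟨[0,4,13],[⟨0,1,true⟩,⟨0,2,false⟩,⟨1,2,true⟩],(HT.leaf 2)⟩,⟨[0,4,14],[⟨0,1,true⟩,⟨0,2,true⟩,⟨1,2,false⟩],(HT.leaf 2)⟩,⟨[0,5,7],[⟨0,1,false⟩,⟨0,2,true⟩,⟨1,2,true⟩],(HT.leaf 2)⟩,⟨[0,5,11],[⟨0,1,false⟩,⟨0,2,true⟩,⟨1,2,true⟩],(HT.leaf 2)⟩,⟨[0,5,1],[⟨0,1,false⟩,⟨0,2,false⟩,⟨1,2,true⟩],(HT.leaf 2)⟩,⟨[0,5,1],[⟨0,1,false⟩,⟨0,2,true⟩,⟨1,2,true⟩],(HT.leaf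 2)⟩,⟨[0,7,10],[⟨0,1,true⟩,⟨0,2,true⟩,⟨1,2,false⟩],(HT.leaf 2)⟩,⟨[0,7,11],[⟨0,1,false⟩,⟨0,2,true⟩,⟨1,2,true⟩],(HT.leaf 2)⟩,⟨[0,7,11],[⟨0,1,true⟩,⟨0,2,true⟩,⟨1,2,true⟩],(HT.leaf 2)⟩,⟨[0,7,12],[⟨0,1,true⟩,⟨0,2,false⟩,⟨1,2,true⟩],(HT.leaf 2)⟩,⟨[0,7,15],[⟨0,1,true⟩,⟨0,2,false⟩,⟨1,2,false⟩],(HT.leaf 2)⟩,⟨[0,7,1],[⟨0,1,true⟩,⟨0,2,true⟩,⟨1,2,false⟩],(HT.leaf 2)⟩,⟨[0,8,11],[],(HT.leaf 2)⟩,⟨[0,8,14],[⟨0,1,false⟩,⟨0,2,true⟩,⟨1,2,false⟩],(HT.leaf 2)⟩,⟨[0,9,10],[⟨0,1,false⟩,⟨0,2,true⟩,⟨1,2,false⟩],(HT.leaf 2)⟩,⟨[0,9,11],[⟨0,1,false⟩,⟨0,2,true⟩,⟨1,2,true⟩],(HT.leaf 2)⟩,⟨[0,9,14],[⟨0,1,false⟩,⟨0,2,true⟩,⟨1,2,false⟩],(HT.leaf 2)⟩,⟨[0,10,14],[⟨0,1,false⟩,⟨0,2,true⟩,⟨1,2,false⟩],(HT.leaf 2)⟩,⟨[0,10,14],[⟨0,1,true⟩,⟨0,2,true⟩,⟨1,2,false⟩],(HT.leaf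 2)⟩,⟨[0,11,11],[⟨0,1,true⟩,⟨0,2,true⟩,⟨1,2,false⟩],(HT.leaf 2)⟩,⟨[0,11,14],[⟨0,1,true⟩,⟨0,2,true⟩,⟨1,2,false⟩],(HT.leaf 2)⟩,⟨[0,11,15],[],(HT.leaf 2)⟩,⟨[0,12,14],[⟨0,1,false⟩,⟨0,2,true⟩,⟨1,2,false⟩],(HT.leaf 2)⟩,⟨[0,12,1],[],(HT.leaf 2)⟩,⟨[0,14,1],[⟨0,1,true⟩,⟨0,2,false⟩,⟨1,2,false⟩],(HT.leaf 2)⟩,⟨[0,14,1],[⟨0,1,true⟩,⟨0,2,true⟩,⟨1,2,false⟩],(HT.leaf 2)⟩,⟨[4,4,1],[⟨0,1,false⟩,⟨0,2,true⟩,⟨1,2,true⟩],(HT.leaf 2)⟩,⟨[4,5,1],[⟨0,1,false⟩,⟨0,2,true⟩,⟨1,2,true⟩],(HT.leaf 2)⟩,⟨[4,6,1],[⟨0,1,false⟩,⟨0,2,true⟩,⟨1,2,true⟩],(HT.leaf 2)⟩,⟨[4,8,11],[⟨0,1,true⟩,⟨0,2,true⟩,⟨1,2,true⟩],(HT.leaf 2)⟩,⟨[4,8,13],[⟨0,1,true⟩,⟨0,2,true⟩,⟨1,2,true⟩],(HT.leaf 2)⟩,⟨[4,8,1],[⟨0,1,true⟩,⟨0,2,true⟩,⟨1,2,false⟩],(HT.leaf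 2)⟩,⟨[4,9,11],[⟨0,1,true⟩,⟨0,2,true⟩,⟨1,2,true⟩],(HT.leaf 2)⟩,⟨[4,9,12],[⟨0,1,true⟩,⟨0,2,true⟩,⟨1,2,true⟩],(HT.leaf 2)⟩,⟨[4,9,1],[⟨0,1,true⟩,⟨0,2,true⟩,⟨1,2,false⟩],(HT.leaf 2)⟩,⟨[4,10,11],[],(HT.leaf 2)⟩,⟨[4,12,1],[⟨0,1,true⟩,⟨0,2,true⟩,⟨1,2,false⟩],(HT.leaf 2)⟩,⟨[4,13,1],[],(HT.leaf 2)⟩,⟨[4,14,1],[],(HT.leaf 2)⟩,⟨[5,6,1],[⟨0,1,false⟩,⟨0,2,true⟩,⟨1,2,false⟩],(HT.leaf 2)⟩,⟨[5,6,1],[⟨0,1,false⟩,⟨0,2,true⟩,⟨1,2,true⟩],(HT.leaf 2)⟩,⟨[5,7,11],[⟨0,1,true⟩,⟨0,2,true⟩,⟨1,2,true⟩],(HT.leaf 2)⟩,⟨[5,7,1],[⟨0,1,true⟩,⟨0,2,true⟩,⟨1,2,false⟩],(HT.leaf 2)⟩,⟨[5,9,1],[⟨0,1,false⟩,⟨0,2,true⟩,⟨1,2,false⟩],(HT.leaf 2)⟩,⟨[5,10,11],[⟨0,1,false⟩,⟨0,2,true⟩,⟨1,2,true⟩],(HT.leaf 2)⟩,⟨[5,12,1],[⟨0,1,false⟩,⟨0,2,true⟩,⟨1,2,false⟩],(HT.leaf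 2)⟩,⟨[5,13,1],[⟨0,1,false⟩,⟨0,2,true⟩,⟨1,2,false⟩],(HT.leaf 2)⟩,⟨[6,9,1],[⟨0,1,false⟩,⟨0,2,true⟩,⟨1,2,false⟩],(HT.leaf 2)⟩,⟨[7,7,13],[⟨0,1,true⟩,⟨0,2,true⟩,⟨1,2,false⟩],(HT.leaf 2)⟩,⟨[7,7,15],[⟨0,1,true⟩,⟨0,2,true⟩,⟨1,2,false⟩],(HT.leaf 2)⟩,⟨[7,10,11],[⟨0,1,false⟩,⟨0,2,true⟩,⟨1,2,true⟩],(HT.leaf 2)⟩,⟨[8,11,11],[⟨0,1,true⟩,⟨0,2,false⟩,⟨1,2,true⟩],(HT.leaf 2)⟩,⟨[9,10,11],[],(HT.leaf 2)⟩,⟨[10,11,11],[⟨0,1,true⟩,⟨0,2,true⟩,⟨1,2,false⟩],(HT.leaf 2)⟩,⟨[10,11,14],[],(HT.leaf 2)⟩,⟨[10,11,15],[],(HT.leaf 2)⟩]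

end Pool.Agent.Lib.MP_849b2e_co
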