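import Pool.Agent.Lib.MP_849b2e_co.Fast
import Pool.Agent.Lib.MP_849b2e_co.Tf
import Pool.Agent.Lib.MP_849b2e_co.Tf1
import Pool.Agent.Lib.MP_849b2e_co.TfS

set_option maxRecDepth 100000
set_option linter.all false
namespace Pool.Agent.Lib.MP_849b2e_co

noncomputable def f_o0c : Pq := (Pq.cons (Pq.L [] 63 (Pf.C 0 0x608080))
 (Pq.cons (Pq.L [] 1023 (Pf.C 2 0x40608080))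
 Pq.nil))
theorem f_o0 : AllRef f_T f_G0 (applyObl fS_T 2 [0] [0] []) :=
  chkPq_sound f_o0c _ (by decide +kernel)
noncomputable def f_o1c : Pq := Pq.nil
theorem f_o1 : AllRef f_T f_G1 (ptObl 0 PT.kid []) :=
  chkPq_sound f_o1c _ (by decide +kernel)
noncomputable def f_o2c : Pq := (Pq.cons (Pq.L [0,1,2,3,4] 0 (Pf.C 1 0x2030404005))
 (Pq.cons (Pq.L [2,3,4] 0 (Pf.C 0 0x80c282))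
 (Pq.cons (Pq.L [1,2,3] 0 (Pf.C 0 0x608281))
 (Pq.cons (Pq.L [2,3,4] 0 (Pf.C 0 0x80c282))
 (Pq.cons (Pq.L [0,1,2] 0 (Pf.C 0 0x404280))
 Pq.nil)))))
theorem f_o2 : AllRef f_T f_G2 (ptObl 1 (PT.br 0 (PT.br 1 (PT.br 2 (PT.br 3 (PT.br 4 PT.ref PT.kid) (PT.br 4 PT.kid PT.kid)) (PT.br 3 (PT.br 4 PT.kid PT.kid) (PT.br 4 PT.kid PT.ref))) (PT.br 2 (PT.br 3 (PT.br 4 PT.kid PT.kid) (PT.br 4 PT.kid PT.kid)) (PT.br 3 (PT.br 4 PT.kid PT.kid) PT.ref))) (PT.br 1 (PT.br 2 (PT.br 3 (PT.br 4 PT.kid PT.kid) (PT.br 4 PT.kid PT.kid)) (PT.br 3 (PT.br 4 PT.kid PT.kid) (PT.br 4 PT.kid PT.ref))) (PT.br 2 (PT.br 3 (PT.br 4 PT.kid PT.kid) (PT.br 4 PT.kid PT.kid)) PT.ref))) []) :=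
  chkPq_sound f_o2c _ (by decide +kernel)
noncomputable def f_o3c : Pq := (Pq.cons (Pq.L [1,3,4] 0 (Pf.B 6 5 (Pf.C 0 0xa10186) (Pf.C 0 0x614301)))
 (Pq.cons (Pq.L [1,2,4] 0 (Pf.B 6 5 (Pf.C 0 0xa08086) (Pf.C 0 0x814301)))
 (Pq.cons (Pq.L [0,3,4] 0 (Pf.B 6 5 (Pf.C 0 0xa10186) (Pf.C 0 0x614300)))
 (Pq.cons (Pq.L [0,2,3] 0 (Pf.B 6 5 (Pf.C 0 0xa0c106) (Pf.C 0 0x414300)))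
 (Pq.cons (Pq.L [0,1,4] 0 (Pf.B 6 5 (Pf.C 0 0xa04006) (Pf.C 0 0x814300)))
 (Pq.cons (Pq.L [0,1,3] 0 (Pf.B 6 5 (Pf.C 0 0xa04006) (Pf.C 0 0x614300)))
 (Pq.cons (Pq.L [0,1,3] 0 (Pf.B 6 5 (Pf.C 0 0xa04006) (Pf.C 0 0x614300)))
 Pq.nil)))))))
theorem f_o3 : AllRef f_T f_G3 (hitObl [11,13,17,20,22,23,24] f_h5) :=
  chkPq_sound f_o3c _ (by decide +kernel)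
noncomputable def f_o4c : Pq := (Pq.cons (Pq.L [] 0 (Pf.C 3 5))
 (Pq.cons (Pq.L [] 0 (Pf.C 4 5))
 (Pq.cons (Pq.L [] 0 (Pf.C 5 5))
 (Pq.cons (Pq.L [] 0 (Pf.C 6 5))
 (Pq.cons (Pq.L [] 0 (Pf.C 7 5))
 (Pq.cons (Pq.L [] 0 (Pf.C 8 5))
 (Pq.cons (Pq.L [] 0 (Pf.C 9 5))
 Pq.nil)))))))
theorem f_o4 : AllRef f_T f_G4 (List.map pat1 [25,26,27,28,29,30,31]) :=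
  chkPq_sound f_o4c _ (by decide +kernel)
noncomputable def f_o5c : Pq := (Pq.cons (Pq.L [0,1,2,4] 3 (Pf.B 8 6 (Pf.B 7 6 (Pf.B 7 5 (Pf.C 1 0x10418287) (Pf.C 0 0xc10287)) (Pf.C 0 0x1010386)) (Pf.C 0 0x818402)))
 (Pq.cons (Pq.L [1,2,3,4] 3 (Pf.B 8 6 (Pf.B 7 6 (Pf.B 7 5 (Pf.C 1 0x1820218287) (Pf.C 0 0xc10287)) (Pf.C 0 0x1010386)) (Pf.C 0 0x818401)))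
 (Pq.cons (Pq.L [0,1,2,3,4] 0 (Pf.B 8 7 (Pf.C 1 0x3840608400) (Pf.B 8 6 (Pf.C 0 0xc08088) (Pf.B 7 6 (Pf.C 1 0x3020610380) (Pf.C 0 0x220307)))))
 (Pq.cons (Pq.L [0,1,2,3,4] 0 (Pf.B 8 7 (Pf.C 1 0x1820200407) (Pf.B 8 6 (Pf.B 7 6 (Pf.C 1 0x1820200307) (Pf.C 0 0x1010386)) (Pf.C 0 0x818400))))
 (Pq.cons (Pq.L [0,2,3,4] 3 (Pf.B 8 6 (Pf.B 8 5 (Pf.B 7 6 (Pf.B 7 5 (Pf.C 1 0x2860020383) (Pf.C 0 0xc10287)) (Pf.C 0 0x1010386)) (Pf.C 0 0xc10288)) (Pf.C 0 0x418400)))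
 (Pq.cons (Pq.L [1,3,4] 3 (Pf.B 8 6 (Pf.B 8 5 (Pf.B 7 6 (Pf.B 7 5 (Pf.C 1 0x2860220384) (Pf.C 0 0xc0c287)) (Pf.C 0 0x100c386)) (Pf.C 0 0xc0c288)) (Pf.C 0 0x618401)))
 (Pq.cons (Pq.L [0,1,2,3,4] 1 (Pf.B 8 6 (Pf.C 0 0xc08088) (Pf.B 8 5 (Pf.C 1 0x2030a18400) (Pf.C 0 0x218405))))
 (Pq.cons (Pq.L [0,2,4] 3 (Pf.B 8 6 (Pf.B 8 5 (Pf.B 7 6 (Pf.B 7 5 (Pf.C 1 0x2860820380) (Pf.C 0 0xc08287)) (Pf.C 0 0x1008386)) (Pf.C 0 0xc08288)) (Pf.C 0 0x818402)))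
 (Pq.cons (Pq.L [0,2,3] 3 (Pf.B 8 6 (Pf.B 8 5 (Pf.B 7 6 (Pf.B 7 5 (Pf.C 1 0x2860020383) (Pf.C 0 0xc08287)) (Pf.C 0 0x1008386)) (Pf.C 0 0xc08288)) (Pf.C 0 0x418400)))
 (Pq.cons (Pq.L [0,1,2,3,4] 0 (Pf.B 8 7 (Pf.C 1 0x1841000087) (Pf.B 8 6 (Pf.B 7 6 (Pf.C 1 0x1840c00087) (Pf.C 0 0x1008386)) (Pf.C 0 0x418400))))
 (Pq.cons (Pq.L [1,3,4] 3 (Pf.B 8 6 (Pf.B 8 5 (Pf.B 7 6 (Pf.B 7 5 (Pf.C 1 0x2860220383) (Pf.C 0 0xc10287)) (Pf.C 0 0x1010386)) (Pf.C 0 0xc10288)) (Pf.C 0 0x818401)))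
 (Pq.cons (Pq.L [0,3,4] 3 (Pf.B 8 6 (Pf.B 8 5 (Pf.B 7 6 (Pf.B 7 5 (Pf.C 1 0x2860020383) (Pf.C 0 0xc10287)) (Pf.C 0 0x1010386)) (Pf.C 0 0xc10288)) (Pf.C 0 0x818400)))
 (Pq.cons (Pq.L [0,2,3] 3 (Pf.B 8 6 (Pf.B 8 5 (Pf.B 7 6 (Pf.B 7 5 (Pf.C 1 0x2860020383) (Pf.C 0 0xc08287)) (Pf.C 0 0x1008386)) (Pf.C 0 0xc08288)) (Pf.C 0 0x418400)))
 (Pq.cons (Pq.L [0,1,2,3,4] 2 (Pf.B 7 5 (Pf.C 0 0xa0c107) (Pf.B 8 5 (Pf.C 1 0x1101c284) (Pf.C 0 0x41c288))))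
 (Pq.cons (Pq.L [0,1,2,3,4] 3 (Pf.B 8 6 (Pf.B 7 6 (Pf.C 1 0x304101c100) (Pf.B 7 5 (Pf.C 0 0xa0c107) (Pf.C 0 0xc14382))) (Pf.C 0 0x818401)))
 (Pq.cons (Pq.L [0,1,2,3,4] 0 (Pf.B 8 7 (Pf.C 1 0x3820200404) (Pf.B 8 5 (Pf.C 1 0x2820200404) (Pf.B 7 5 (Pf.C 0 0xa0c107) (Pf.C 0 0x1014382)))))
 (Pq.cons (Pq.L [0,1,2,3,4] 5 (Pf.B 10 6 (Pf.B 9 7 (Pf.C 0 0xe0c109) (Pf.B 10 7 (Pf.B 9 5 (Pf.C 0 0xa0c109) (Pf.B 9 6 (Pf.B 7 6 (Pf.C 1 0x3041424381) (Pf.B 7 5 (Pf.C 0 0xa0c107) (Pf.C 0 0xc14382))) (Pf.C 0 0x414486))) (Pf.C 0 0x42438a))) (Pf.C 0 0x818500)))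
 (Pq.cons (Pq.L [0,1,3] 3 (Pf.B 8 6 (Pf.B 8 5 (Pf.B 7 6 (Pf.B 7 5 (Pf.C 1 0x2860620380) (Pf.C 0 0xc04287)) (Pf.C 0 0x1004386)) (Pf.C 0 0xc04288)) (Pf.C 0 0x618401)))
 (Pq.cons (Pq.L [0,1,3] 3 (Pf.B 8 6 (Pf.B 8 5 (Pf.B 7 6 (Pf.B 7 5 (Pf.C 1 0x2860620380) (Pf.C 0 0xc04287)) (Pf.C 0 0x1004386)) (Pf.C 0 0xc04288)) (Pf.C 0 0x618401)))
 (Pq.cons (Pq.L [0,1,2,3,4] 1 (Pf.B 8 6 (Pf.B 8 5 (Pf.C 1 0x1820214308) (Pf.C 0 0xc10288)) (Pf.C 0 0x818400)))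
 (Pq.cons (Pq.L [0,2,3,4] 3 (Pf.B 8 6 (Pf.B 8 5 (Pf.B 7 6 (Pf.B 7 5 (Pf.C 1 0x2860020383) (Pf.C 0 0xc10287)) (Pf.C 0 0x1010386)) (Pf.C 0 0xc10288)) (Pf.C 0 0x418400)))
 (Pq.cons (Pq.L [0,2,3] 3 (Pf.B 8 6 (Pf.B 8 5 (Pf.B 7 6 (Pf.B 7 5 (Pf.C 1 0x2860020382) (Pf.C 0 0xc0c287)) (Pf.C 0 0x100c386)) (Pf.C 0 0xc0c288)) (Pf.C 0 0x618400)))
 (Pq.cons (Pq.L [0,1,2,3,4] 5 (Pf.B 10 6 (Pf.B 9 7 (Pf.C 0 0xe08089) (Pf.B 10 7 (Pf.B 9 5 (Pf.C 0 0xa08089) (Pf.B 9 6 (Pf.B 7 6 (Pf.C 1 0x3001424383) (Pf.B 7 5 (Pf.C 0 0xa08087) (Pf.C 0 0xc14381))) (Pf.C 0 0x214486))) (Pf.C 0 0x22438a))) (Pf.C 0 0x818500)))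
 (Pq.cons (Pq.L [0,1,2,3,4] 3 (Pf.B 8 6 (Pf.B 7 6 (Pf.C 1 0x300101c104) (Pf.B 7 5 (Pf.C 0 0xa08087) (Pf.C 0 0xc14381))) (Pf.C 0 0x618400)))
 (Pq.cons (Pq.L [0,1,2,3,4] 0 (Pf.B 8 7 (Pf.C 1 0x820610407) (Pf.B 8 6 (Pf.B 7 6 (Pf.C 1 0x820610307) (Pf.C 0 0x1000386)) (Pf.C 0 0x818400))))
 (Pq.cons (Pq.L [0,1,2,3] 3 (Pf.B 8 6 (Pf.B 7 6 (Pf.B 7 5 (Pf.C 1 0x820618287) (Pf.C 0 0xc00287)) (Pf.C 0 0x1000386)) (Pf.C 0 0x618400)))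
 (Pq.cons (Pq.L [0,2,3,4] 3 (Pf.B 8 6 (Pf.B 7 6 (Pf.B 7 5 (Pf.C 1 0x2030418287) (Pf.C 0 0xc00287)) (Pf.C 0 0x1000386)) (Pf.C 0 0x418400)))
 (Pq.cons (Pq.L [0,1,2,4] 3 (Pf.B 8 6 (Pf.B 8 5 (Pf.B 7 6 (Pf.B 7 5 (Pf.C 1 0x2860820381) (Pf.C 0 0xc00287)) (Pf.C 0 0x1000386)) (Pf.C 0 0xc00288)) (Pf.C 0 0x418400)))
 (Pq.cons (Pq.L [0,1,2,3] 3 (Pf.B 8 6 (Pf.B 7 6 (Pf.B 7 5 (Pf.C 1 0x820618287) (Pf.C 0 0xc00287)) (Pf.C 0 0x1000386)) (Pf.C 0 0x618400)))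
 (Pq.cons (Pq.L [0,1,2,4] 3 (Pf.B 8 6 (Pf.B 8 5 (Pf.B 7 6 (Pf.B 7 5 (Pf.C 1 0x305081c401) (Pf.C 0 0xc00287)) (Pf.C 0 0x1000386)) (Pf.C 0 0xc00288)) (Pf.C 0 0x418400)))
 (Pq.cons (Pq.L [0,2,4] 3 (Pf.B 8 6 (Pf.B 8 5 (Pf.B 7 6 (Pf.B 7 5 (Pf.C 1 0x2860420384) (Pf.C 0 0xc00287)) (Pf.C 0 0x1000386)) (Pf.C 0 0xc00288)) (Pf.C 0 0x418400)))
 (Pq.cons (Pq.L [0,1,2,4] 3 (Pf.B 8 6 (Pf.B 8 5 (Pf.B 7 6 (Pf.B 7 5 (Pf.C 1 0x2860820381) (Pf.C 0 0xc00287)) (Pf.C 0 0x1000386)) (Pf.C 0 0xc00288)) (Pf.C 0 0x418400)))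
 Pq.nil))))))))))))))))))))))))))))))))
theorem f_o5 : AllRef f_T f_G5 (hitObl [2,3,5,6,7,8,9,10,12,14,15,16,18,19] f_h7) :=
  chkPq_sound f_o5c _ (by decide +kernel)
noncomputable def f_o6c : Pq := (Pq.cons (Pq.L [0,1,2,3,4] 39 (Pf.B 10 7 (Pf.C 0 0xe0c10a) (Pf.B 9 7 (Pf.B 9 6 (Pf.C 1 0x1041c309) (Pf.B 9 5 (Pf.C 1 0x1041c289) (Pf.C 0 0xc10485))) (Pf.C 0 0x428389))))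
 (Pq.cons (Pq.L [0,1,2,3,4] 59 (Pf.B 10 7 (Pf.B 9 7 (Pf.B 9 5 (Pf.C 1 0x101001c289) (Pf.B 9 6 (Pf.C 0 0xc14209) (Pf.B 8 7 (Pf.C 1 0x3831420481) (Pf.B 8 6 (Pf.C 0 0xc24208) (Pf.B 8 5 (Pf.C 0 0xa18208) (Pf.C 0 0xe14404)))))) (Pf.C 1 0x5000e24202)) (Pf.C 0 0x61c500)))
 (Pq.cons (Pq.L [0,1,2,3,4] 39 (Pf.B 10 7 (Pf.C 0 0xe0400a) (Pf.B 9 7 (Pf.B 9 6 (Pf.C 1 0x182021c309) (Pf.B 9 5 (Pf.C 1 0x182021c289) (Pf.C 0 0xc10485))) (Pf.C 0 0x28389))))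
 (Pq.cons (Pq.L [0,1,2,3,4] 19 (Pf.B 10 7 (Pf.C 0 0xe0c10a) (Pf.B 8 7 (Pf.B 8 6 (Pf.C 1 0x1040c308) (Pf.B 8 5 (Pf.C 1 0x1041c288) (Pf.C 0 0xc14404))) (Pf.C 0 0x428388))))
 (Pq.cons (Pq.L [0,1,2,3] 63 (Pf.B 10 7 (Pf.B 9 5 (Pf.C 1 0x1040c485) (Pf.B 9 6 (Pf.B 9 7 (Pf.B 10 6 (Pf.C 1 0x3860624501) (Pf.B 8 6 (Pf.C 1 0x1040c308) (Pf.C 0 0x1228406))) (Pf.C 0 0xc14389)) (Pf.C 0 0xa18483))) (Pf.C 0 0x41c500)))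
 (Pq.cons (Pq.L [0,1,2,3,4] 19 (Pf.B 10 7 (Pf.C 0 0xe0400a) (Pf.B 8 7 (Pf.B 8 6 (Pf.C 1 0x1040c308) (Pf.B 8 5 (Pf.C 1 0x182021c288) (Pf.C 0 0xc14404))) (Pf.C 0 0x28388))))
 (Pq.cons (Pq.L [0,1,2,4] 39 (Pf.B 10 7 (Pf.C 0 0xe0400a) (Pf.B 10 6 (Pf.B 10 5 (Pf.B 9 7 (Pf.B 9 5 (Pf.C 1 0x1010e14209) (Pf.C 1 0xa1214202)) (Pf.C 0 0x28389)) (Pf.C 0 0xc1c28a)) (Pf.C 0 0x1c506))))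
 (Pq.cons (Pq.L [0,2,3,4] 0 (Pf.B 10 9 (Pf.B 10 7 (Pf.C 0 0xe0c10a) (Pf.B 9 8 (Pf.C 1 0x4040608480) (Pf.B 10 8 (Pf.C 1 0x2081208500) (Pf.B 9 7 (Pf.B 8 7 (Pf.C 1 0x3821220200) (Pf.C 0 0x428388)) (Pf.C 0 0x608389))))) (Pf.C 0 0x608509)))
 (Pq.cons (Pq.L [0,1,2,3,4] 7 (Pf.B 9 7 (Pf.C 1 0x2030e04009) (Pf.B 9 6 (Pf.B 9 5 (Pf.C 1 0x2050c08480) (Pf.C 0 0xc1c289)) (Pf.C 0 0xe18482))))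
 (Pq.cons (Pq.L [0,1,2,3,4] 0 (Pf.B 10 9 (Pf.C 1 0x4820200504) (Pf.B 10 8 (Pf.C 1 0x82061040a) (Pf.B 9 8 (Pf.C 1 0x1841028481) (Pf.B 9 7 (Pf.C 1 0x3800208484) (Pf.B 10 7 (Pf.B 8 7 (Pf.C 1 0x1820200388) (Pf.C 0 0x1424407)) (Pf.C 0 0x121c500)))))))
 (Pq.cons (Pq.L [0,2,3,4] 7 (Pf.B 10 7 (Pf.B 10 6 (Pf.C 1 0x1060e00504) (Pf.B 10 5 (Pf.C 1 0x2050e00502) (Pf.C 0 0xe1828a))) (Pf.C 0 0x61c500)))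
 (Pq.cons (Pq.L [0,1,2,3,4] 19 (Pf.B 10 7 (Pf.C 0 0xe0400a) (Pf.B 8 7 (Pf.B 8 6 (Pf.C 1 0x3020610400) (Pf.B 8 5 (Pf.C 1 0x182021c288) (Pf.C 0 0xc14404))) (Pf.C 0 0x28388))))
 (Pq.cons (Pq.L [0,1,2,3,4] 37 (Pf.B 10 7 (Pf.C 0 0xe0400a) (Pf.B 9 7 (Pf.B 9 6 (Pf.C 1 0x70c08484) (Pf.B 9 5 (Pf.C 1 0x1840a18480) (Pf.C 0 0x418485))) (Pf.C 0 0x28389))))
 (Pq.cons (Pq.L [0,1,2,3,4] 39 (Pf.B 10 7 (Pf.C 0 0xe0400a) (Pf.B 9 7 (Pf.B 9 6 (Pf.C 1 0x70c08484) (Pf.B 9 5 (Pf.C 1 0x70a10189) (Pf.C 0 0xe18289))) (Pf.C 0 0x28389))))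
 (Pq.cons (Pq.L [0,2,3,4] 0 (Pf.B 10 9 (Pf.B 10 7 (Pf.C 0 0xe0c10a) (Pf.B 9 8 (Pf.B 10 8 (Pf.C 1 0x4041208500) (Pf.B 9 7 (Pf.B 8 7 (Pf.C 1 0x3821210400) (Pf.C 0 0x428388)) (Pf.C 0 0x608389))) (Pf.C 10 1160))) (Pf.C 0 0x608509)))
 (Pq.cons (Pq.L [0,1,2,3] 34 (Pf.B 10 7 (Pf.C 0 0xe0400a) (Pf.B 10 5 (Pf.B 9 5 (Pf.C 1 0xa1208185) (Pf.C 10 1157)) (Pf.C 0 0x1c505))))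
 (Pq.cons (Pq.L [0,1,2,3,4] 0 (Pf.B 10 9 (Pf.B 10 6 (Pf.B 9 6 (Pf.C 0 0xc0c109) (Pf.B 10 8 (Pf.B 9 8 (Pf.C 1 0x1140c488) (Pf.B 8 6 (Pf.C 1 0x1140c308) (Pf.C 0 0x424308))) (Pf.B 9 8 (Pf.C 1 0x11420209) (Pf.B 8 6 (Pf.C 1 0x11420206) (Pf.C 0 0x424308))))) (Pf.C 0 0x40c30a)) (Pf.C 0 0x40c48a)))
 (Pq.cons (Pq.L [0,1,2,3,4] 3 (Pf.B 9 7 (Pf.B 9 6 (Pf.C 0 0xc0c109) (Pf.B 9 5 (Pf.C 1 0x800e14209) (Pf.C 0 0x418485))) (Pf.C 0 0x608487)))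
 (Pq.cons (Pq.L [0,1,2,3,4] 0 (Pf.B 10 9 (Pf.B 10 8 (Pf.B 10 6 (Pf.B 9 8 (Pf.C 1 0x801410409) (Pf.B 9 6 (Pf.C 0 0xc0c109) (Pf.B 8 6 (Pf.C 1 0x801410406) (Pf.C 0 0x424308)))) (Pf.C 0 0x60830a)) (Pf.C 14 1288)) (Pf.C 0 0x60848a)))
 (Pq.cons (Pq.L [0,1,2,3,4] 63 (Pf.B 10 5 (Pf.C 1 0x82061028a) (Pf.B 10 7 (Pf.B 10 6 (Pf.B 9 6 (Pf.B 9 7 (Pf.C 1 0x3070028482) (Pf.B 8 7 (Pf.C 1 0x1820200388) (Pf.C 0 0x1424407))) (Pf.C 0 0x618481)) (Pf.C 0 0xe1430a)) (Pf.C 0 0xa1c500))))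
 (Pq.cons (Pq.L [0,1,2,3,4] 26 (Pf.B 10 7 (Pf.C 0 0xe0400a) (Pf.B 9 7 (Pf.B 8 7 (Pf.B 8 5 (Pf.C 1 0x182021c288) (Pf.B 9 5 (Pf.C 1 0x70a20482) (Pf.C 0 0x820289))) (Pf.C 0 0x28388)) (Pf.C 0 17289))))
 (Pq.cons (Pq.L [0,1,2,3,4] 0 (Pf.B 10 9 (Pf.B 10 7 (Pf.C 0 0xe0400a) (Pf.B 9 7 (Pf.B 10 8 (Pf.B 9 8 (Pf.C 1 0x501040c488) (Pf.C 1 0x5001220202)) (Pf.B 9 8 (Pf.C 1 0x1011420209) (Pf.B 8 7 (Pf.C 1 0x3801220202) (Pf.C 0 0x28388)))) (Pf.C 0 0x200389))) (Pf.C 0 0x200509)))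
 (Pq.cons (Pq.L [0,1,2,3,4] 23 (Pf.B 10 7 (Pf.C 0 0xe0400a) (Pf.B 8 7 (Pf.B 8 6 (Pf.C 1 0x1820c00388) (Pf.B 8 5 (Pf.C 1 0x182021c288) (Pf.C 0 0xc14404))) (Pf.C 0 0x28388))))
 (Pq.cons (Pq.L [0,1,2,3] 0 (Pf.B 10 9 (Pf.B 10 7 (Pf.C 0 0xe0400a) (Pf.B 9 8 (Pf.B 10 8 (Pf.C 1 0x1821200508) (Pf.B 9 7 (Pf.B 8 7 (Pf.C 1 0x1821200388) (Pf.C 0 0x28388)) (Pf.C 0 0x200389))) (Pf.C 14 1160))) (Pf.C 0 0x200509)))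
 (Pq.cons (Pq.L [0,1,3,4] 63 (Pf.B 10 7 (Pf.B 10 6 (Pf.B 10 5 (Pf.C 1 0x3050e10500) (Pf.B 8 5 (Pf.B 9 5 (Pf.B 9 6 (Pf.C 1 0x11414309) (Pf.C 0 0xa0c309)) (Pf.C 0 0x100c485)) (Pf.C 0 0x1414403))) (Pf.B 10 5 (Pf.B 8 6 (Pf.B 9 6 (Pf.B 9 5 (Pf.C 1 0x11418289) (Pf.C 0 0xc0c289)) (Pf.C 0 0x100c486)) (Pf.C 0 0x1418403)) (Pf.C 0 0x61828a))) (Pf.C 0 0x81c501)))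
 (Pq.cons (Pq.L [0,1,2,3,4] 63 (Pf.B 10 7 (Pf.B 10 6 (Pf.B 10 5 (Pf.C 1 0x3050e10501) (Pf.B 8 5 (Pf.B 9 5 (Pf.B 9 6 (Pf.C 1 0x801414309) (Pf.C 0 0xa0c309)) (Pf.C 0 0x100c485)) (Pf.C 0 0x1414403))) (Pf.B 10 5 (Pf.B 8 6 (Pf.B 9 6 (Pf.B 9 5 (Pf.C 1 0x801418289) (Pf.C 0 0xc0c289)) (Pf.C 0 0x100c486)) (Pf.C 0 0x1418403)) (Pf.C 0 0x61828a))) (Pf.C 0 0x41c500)))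
 (Pq.cons (Pq.L [0,1,2,3,4] 39 (Pf.B 9 6 (Pf.C 0 0xc10189) (Pf.B 10 6 (Pf.B 10 7 (Pf.B 10 5 (Pf.B 9 5 (Pf.C 1 0x11424205) (Pf.C 0 0x80c485)) (Pf.C 1 0x2060e14500)) (Pf.C 1 0x1030c1c500)) (Pf.C 0 0x62430a))))
 (Pq.cons (Pq.L [0,1,2,3,4] 39 (Pf.B 10 7 (Pf.B 9 6 (Pf.C 0 0xc10189) (Pf.B 10 6 (Pf.B 10 5 (Pf.B 9 5 (Pf.C 1 0x801424205) (Pf.C 0 0x80c485)) (Pf.C 1 0x2060e14501)) (Pf.C 0 0x62430a))) (Pf.C 0 0x41c500)))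
 (Pq.cons (Pq.L [0,1,2,3,4] 34 (Pf.B 10 7 (Pf.C 0 0xe0400a) (Pf.B 10 5 (Pf.B 9 5 (Pf.C 1 0x1011424205) (Pf.C 0 0x80c485)) (Pf.C 0 0x1c505))))
 (Pq.cons (Pq.L [0,1,2,3,4] 34 (Pf.B 10 7 (Pf.C 0 0xe0400a) (Pf.B 9 7 (Pf.B 9 5 (Pf.C 1 0x70a0c209) (Pf.C 1 0x10424284)) (Pf.C 0 0x28389))))
 (Pq.cons (Pq.L [0,1,2,3,4] 63 (Pf.B 9 6 (Pf.B 9 5 (Pf.C 1 0x10424205) (Pf.B 9 7 (Pf.B 10 7 (Pf.B 10 6 (Pf.C 1 0x3860424500) (Pf.B 8 6 (Pf.C 1 0x10418208) (Pf.C 0 0x1228406))) (Pf.C 1 0x1821228380)) (Pf.C 0 0xc14389))) (Pf.C 0 0x818482)))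
 (Pq.cons (Pq.L [0,1,2,3,4] 34 (Pf.B 10 7 (Pf.C 0 0xe0400a) (Pf.B 9 7 (Pf.B 9 5 (Pf.C 1 0x2870208484) (Pf.C 0 0x40c485)) (Pf.C 0 0x28389))))
 (Pq.cons (Pq.L [0,1,2,3,4] 7 (Pf.B 10 7 (Pf.B 10 6 (Pf.C 1 0x182021838a) (Pf.B 10 5 (Pf.C 1 0x82061438a) (Pf.C 0 0xe1828a))) (Pf.C 0 0x81c500)))
 (Pq.cons (Pq.L [0,1,2,3,4] 63 (Pf.B 10 6 (Pf.C 1 0x2030428006) (Pf.B 9 7 (Pf.C 1 0x203041c009) (Pf.B 9 6 (Pf.B 9 5 (Pf.B 8 6 (Pf.B 8 5 (Pf.C 1 0x2860224404) (Pf.C 1 0x10c14404)) (Pf.C 0 0x1228406)) (Pf.C 0 0xc1c289)) (Pf.C 0 0xe18481)))))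
 (Pq.cons (Pq.L [0,1,2,3] 23 (Pf.B 10 7 (Pf.C 0 0xe0400a) (Pf.B 10 6 (Pf.B 8 7 (Pf.B 8 6 (Pf.C 1 0xa100c106) (Pf.B 8 5 (Pf.C 1 0x70a18402) (Pf.C 0 0xc14403))) (Pf.C 0 0x28388)) (Pf.C 0 17670))))
 (Pq.cons (Pq.L [0,1,2,4] 7 (Pf.B 10 7 (Pf.C 0 0xe0400a) (Pf.B 10 6 (Pf.B 10 5 (Pf.C 1 0x2060a1c502) (Pf.C 0 0x1c505)) (Pf.C 0 0x200506))))
 (Pq.cons (Pq.L [0,1,2,4] 7 (Pf.B 10 7 (Pf.C 0 0xe0400a) (Pf.B 10 6 (Pf.B 10 5 (Pf.C 1 0x1060a1c504) (Pf.C 0 0x1c505)) (Pf.C 0 0x200506))))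
 (Pq.cons (Pq.L [0,1,2,4] 3 (Pf.B 10 7 (Pf.C 0 0xe0400a) (Pf.B 10 6 (Pf.B 10 5 (Pf.C 1 0x2060404505) (Pf.C 0 0x1c505)) (Pf.C 0 0x200506))))
 (Pq.cons (Pq.L [0,2,3,4] 23 (Pf.B 8 5 (Pf.C 0 0xa10188) (Pf.B 10 5 (Pf.B 10 7 (Pf.C 1 0x2050e08500) (Pf.B 10 6 (Pf.C 1 0x2050c08500) (Pf.C 0 0xe08506))) (Pf.C 0 0x62028a))))
 (Pq.cons (Pq.L [0,2,3,4] 0 (Pf.B 10 9 (Pf.B 10 8 (Pf.B 10 5 (Pf.B 9 8 (Pf.C 1 0x4041408480) (Pf.B 9 5 (Pf.C 1 0x2841408480) (Pf.B 8 5 (Pf.C 0 0xa10188) (Pf.C 0 0x1214403)))) (Pf.C 0 0x61028a)) (Pf.C 0 0x61040a)) (Pf.C 17 1289)))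
 (Pq.cons (Pq.L [0,1,2,3,4] 17 (Pf.B 10 6 (Pf.B 8 6 (Pf.C 1 0x11420186) (Pf.B 8 5 (Pf.C 0 0xa10188) (Pf.C 0 0xc14403))) (Pf.C 1 0x2030418500)))
 (Pq.cons (Pq.L [0,2,3,4] 0 (Pf.B 10 9 (Pf.C 1 0x4820610500) (Pf.B 10 8 (Pf.B 10 5 (Pf.B 9 8 (Pf.C 1 0x4041424100) (Pf.B 9 5 (Pf.C 1 0x2841424100) (Pf.B 8 5 (Pf.C 0 0xa10188) (Pf.C 0 0x1214403)))) (Pf.C 0 0x61028a)) (Pf.C 0 0x61040a))))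
 (Pq.cons (Pq.L [0,1,2,3,4] 13 (Pf.B 9 7 (Pf.C 1 0x2030e04009) (Pf.B 9 6 (Pf.B 8 6 (Pf.C 1 0x3021220200) (Pf.B 8 5 (Pf.C 0 0xa10188) (Pf.C 0 0xc14403))) (Pf.C 0 0xe18482))))
 (Pq.cons (Pq.L [0,1,2,4] 3 (Pf.B 10 7 (Pf.C 0 0xe0808a) (Pf.B 10 6 (Pf.B 10 5 (Pf.C 1 0x2050c08500) (Pf.C 0 0x21c505)) (Pf.C 0 0x208506))))
 (Pq.cons (Pq.L [0,1,2,3,4] 13 (Pf.B 9 7 (Pf.C 1 0x3800208484) (Pf.B 9 6 (Pf.B 8 6 (Pf.C 1 0x3021220200) (Pf.B 8 5 (Pf.C 0 0xa10188) (Pf.C 0 0xc14403))) (Pf.C 0 0xe18482))))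
 (Pq.cons (Pq.L [0,1,2,3,4] 22 (Pf.B 10 6 (Pf.C 1 0x3020200504) (Pf.B 10 7 (Pf.B 8 7 (Pf.C 1 0x820620507) (Pf.B 8 5 (Pf.C 0 0xa10188) (Pf.C 0 0xe14403))) (Pf.C 0 0xc1c500))))
 (Pq.cons (Pq.L [0,1,2,3,4] 7 (Pf.B 10 6 (Pf.C 1 0x3020200504) (Pf.B 10 7 (Pf.B 10 5 (Pf.C 1 0x82061438a) (Pf.C 0 0xe1828a)) (Pf.C 0 0xc1c500))))
 (Pq.cons (Pq.L [0,1,2,3,4] 13 (Pf.B 9 7 (Pf.C 1 0x1840e00089) (Pf.B 9 6 (Pf.B 8 6 (Pf.C 1 0x3021220200) (Pf.B 8 5 (Pf.C 0 0xa10188) (Pf.C 0 0xc14403))) (Pf.C 0 0xe18482))))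
 (Pq.cons (Pq.L [0,1,2,3,4] 13 (Pf.B 9 7 (Pf.C 1 0x2030e00089) (Pf.B 9 6 (Pf.B 8 6 (Pf.C 1 0x3021220200) (Pf.B 8 5 (Pf.C 0 0xa10188) (Pf.C 0 0xc14403))) (Pf.C 0 0xe18482))))
 (Pq.cons (Pq.L [0,1,3,4] 17 (Pf.B 10 6 (Pf.B 8 6 (Pf.C 1 0x801420186) (Pf.B 8 5 (Pf.C 0 0xa10188) (Pf.C 0 0xc14403))) (Pf.C 18 1286)))
 (Pq.cons (Pq.L [0,1,2,3,4] 10 (Pf.B 9 5 (Pf.B 9 7 (Pf.C 1 0x1850e04009) (Pf.B 8 7 (Pf.C 1 0x389040c400) (Pf.B 8 5 (Pf.C 0 0xa10188) (Pf.C 0 0xe14403)))) (Pf.C 0 0x610289)))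
 (Pq.cons (Pq.L [0,1,2,3,4] 50 (Pf.B 9 5 (Pf.B 9 7 (Pf.C 1 0x1850e00089) (Pf.B 10 7 (Pf.B 8 7 (Pf.C 1 0x820620507) (Pf.B 8 5 (Pf.C 0 0xa10188) (Pf.C 0 0xe14403))) (Pf.C 0 0x121c500))) (Pf.C 0 0x610289)))
 (Pq.cons (Pq.L [0,1,2,3,4] 39 (Pf.B 10 7 (Pf.C 0 0xe0400a) (Pf.B 9 7 (Pf.B 9 6 (Pf.B 9 5 (Pf.C 1 0x70c08485) (Pf.C 0 0x610289)) (Pf.C 0 0x818482)) (Pf.C 0 0x28389))))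
 (Pq.cons (Pq.L [0,1,2,3,4] 39 (Pf.B 10 7 (Pf.C 0 0xe0400a) (Pf.B 10 6 (Pf.B 10 5 (Pf.B 9 6 (Pf.B 9 5 (Pf.C 1 0xa1208305) (Pf.C 0 0x610289)) (Pf.C 0 0x818482)) (Pf.C 0 0x1c505)) (Pf.C 0 0x1c506))))
 (Pq.cons (Pq.L [0,1,2,3] 3 (Pf.B 10 7 (Pf.C 0 0xe0808a) (Pf.B 10 6 (Pf.B 10 5 (Pf.C 1 0x3050608500) (Pf.C 0 0x21c505)) (Pf.C 0 0x404506))))
 (Pq.cons (Pq.L [0,1,2,3,4] 22 (Pf.B 10 6 (Pf.C 1 0x203040430a) (Pf.B 10 7 (Pf.B 8 7 (Pf.C 1 0x820620507) (Pf.B 8 5 (Pf.C 0 0xa10188) (Pf.C 0 0xe14403))) (Pf.C 0 0xc1c500))))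
 (Pq.cons (Pq.L [0,1,2,3,4] 7 (Pf.B 10 6 (Pf.C 1 0x203040430a) (Pf.B 10 7 (Pf.B 10 5 (Pf.C 1 0x82061438a) (Pf.C 0 0xe1828a)) (Pf.C 0 0xc1c500))))
 (Pq.cons (Pq.L [0,2,3,4] 10 (Pf.B 9 7 (Pf.C 1 0x103081c009) (Pf.B 8 7 (Pf.B 8 5 (Pf.C 0 0xa10188) (Pf.B 9 5 (Pf.C 1 0x71220282) (Pf.C 0 0x620289))) (Pf.C 0 0x610407))))
 (Pq.cons (Pq.L [0,2,3,4] 5 (Pf.B 8 7 (Pf.B 8 6 (Pf.C 1 0x7040c406) (Pf.B 8 5 (Pf.C 0 0xa10188) (Pf.C 0 0xc14403))) (Pf.C 0 0x610407)))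
 (Pq.cons (Pq.L [0,1,2,3,4] 17 (Pf.B 10 6 (Pf.B 8 6 (Pf.C 1 0x1031028006) (Pf.B 8 5 (Pf.C 0 0xa10188) (Pf.C 0 0xc14403))) (Pf.C 0 17670)))
 (Pq.cons (Pq.L [0,1,2,3,4] 0 (Pf.B 9 8 (Pf.B 8 6 (Pf.B 8 5 (Pf.C 0 0xa10188) (Pf.B 6 5 (Pf.B 10 9 (Pf.B 10 8 (Pf.C 1 0x481040c40a) (Pf.C 1 0x4841028002)) (Pf.B 10 8 (Pf.C 1 0x4041228002) (Pf.B 10 6 (Pf.C 1 0x1031028006) (Pf.B 10 5 (Pf.C 1 0x2840c28002) (Pf.C 0 0x62028a))))) (Pf.C 0 0x610286))) (Pf.C 0 0x610406)) (Pf.C 0 0x610409)))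
 (Pq.cons (Pq.L [0,2,3,4] 6 (Pf.B 8 6 (Pf.B 8 7 (Pf.C 1 0x7040c406) (Pf.B 8 5 (Pf.C 0 0xa10188) (Pf.C 0 0xe14403))) (Pf.C 0 0x610406)))
 (Pq.cons (Pq.L [0,1,2,3] 7 (Pf.B 10 7 (Pf.C 0 0xe0808a) (Pf.B 10 6 (Pf.B 10 5 (Pf.C 1 0x3030a1c500) (Pf.C 0 0x21c505)) (Pf.C 0 0x404506))))
 (Pq.cons (Pq.L [0,1,2,3,4] 22 (Pf.B 8 5 (Pf.C 0 0xa10188) (Pf.B 10 5 (Pf.B 10 7 (Pf.C 1 0x82061438a) (Pf.B 10 6 (Pf.C 1 0x1010c1c504) (Pf.C 0 0x1c506))) (Pf.C 0 0x62028a))))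
 (Pq.cons (Pq.L [0,1,2,3,4] 55 (Pf.B 10 7 (Pf.B 9 6 (Pf.B 9 5 (Pf.B 8 5 (Pf.C 0 0xa10188) (Pf.B 10 5 (Pf.B 10 6 (Pf.C 1 0x385061808a) (Pf.B 9 7 (Pf.C 1 0x30a001c289) (Pf.C 1 0x30a001c484))) (Pf.C 0 0x62028a))) (Pf.C 0 0x80c289)) (Pf.C 0 0x618481)) (Pf.C 0 0x41c500)))
 (Pq.cons (Pq.L [0,1,2,3,4] 58 (Pf.B 10 7 (Pf.B 9 7 (Pf.B 8 7 (Pf.C 1 0x3801420189) (Pf.B 8 5 (Pf.C 0 0xa10188) (Pf.C 0 0xe14403))) (Pf.C 0 0x208487)) (Pf.C 0 0x41c500)))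
 (Pq.cons (Pq.L [0,1,2,3,4] 30 (Pf.B 10 7 (Pf.B 10 6 (Pf.B 9 6 (Pf.C 0 0xc08089) (Pf.B 8 6 (Pf.B 8 7 (Pf.C 1 0x3801420186) (Pf.B 8 5 (Pf.C 0 0xa10188) (Pf.C 0 0xe14403))) (Pf.C 0 0x224308))) (Pf.C 0 0x20830a)) (Pf.C 0 0x41c500)))
 (Pq.cons (Pq.L [0,1,2,3,4] 23 (Pf.B 8 5 (Pf.C 0 0xa10188) (Pf.B 10 5 (Pf.B 10 7 (Pf.C 1 0x82061438a) (Pf.B 10 6 (Pf.C 1 0x82061430a) (Pf.C 0 0xe00506))) (Pf.C 0 0x62028a))))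
 (Pq.cons (Pq.L [1,2,3,4] 17 (Pf.B 10 6 (Pf.B 8 6 (Pf.C 1 0x821420206) (Pf.B 8 5 (Pf.C 0 0xa10188) (Pf.C 0 0xc14403))) (Pf.C 35 1286)))
 (Pq.cons (Pq.L [1,2,3,4] 0 (Pf.B 10 9 (Pf.B 10 8 (Pf.B 10 5 (Pf.B 9 8 (Pf.C 1 0x821410409) (Pf.B 9 5 (Pf.C 1 0x821410289) (Pf.B 8 5 (Pf.C 0 0xa10188) (Pf.C 0 0x1214403)))) (Pf.C 0 0x61028a)) (Pf.C 0 0x61040a)) (Pf.C 36 1289)))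
 (Pq.cons (Pq.L [1,2,3,4] 17 (Pf.B 10 6 (Pf.B 8 6 (Pf.B 8 5 (Pf.C 0 0xa10188) (Pf.B 10 5 (Pf.C 1 0x821420286) (Pf.C 0 0x62028a))) (Pf.C 0 0x610406)) (Pf.C 38 1286)))
 (Pq.cons (Pq.L [0,1,2,3,4] 0 (Pf.B 10 9 (Pf.B 10 7 (Pf.C 0 0xe0400a) (Pf.B 9 8 (Pf.B 10 8 (Pf.C 1 0x4041200502) (Pf.B 9 7 (Pf.B 8 7 (Pf.C 1 0x3801210402) (Pf.C 0 0x28388)) (Pf.C 0 0x200389))) (Pf.C 0 0x610409))) (Pf.C 0 0x200509)))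
 (Pq.cons (Pq.L [0,1,2,3,4] 57 (Pf.B 10 6 (Pf.B 9 6 (Pf.B 8 6 (Pf.C 1 0x302122020a) (Pf.B 8 5 (Pf.C 0 0xa10188) (Pf.C 0 0xc14403))) (Pf.C 0 0x418480)) (Pf.C 0 0x200506)))
 (Pq.cons (Pq.L [0,1,2,3,4] 29 (Pf.B 10 7 (Pf.C 0 0xe0400a) (Pf.B 9 7 (Pf.B 9 6 (Pf.B 8 7 (Pf.B 8 6 (Pf.C 1 0x3021220207) (Pf.B 8 5 (Pf.C 0 0xa10188) (Pf.C 0 0xc14403))) (Pf.C 0 0x28388)) (Pf.C 0 0x418480)) (Pf.C 0 0x200389))))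
 (Pq.cons (Pq.L [0,1,2,4] 39 (Pf.B 10 7 (Pf.C 0 0xe0400a) (Pf.B 9 7 (Pf.B 9 6 (Pf.C 1 0x70c08484) (Pf.B 9 5 (Pf.C 1 0x70a08484) (Pf.C 0 0xc08485))) (Pf.C 0 0x28389))))
 (Pq.cons (Pq.L [0,1,3,4] 34 (Pf.B 10 7 (Pf.C 0 0xe0400a) (Pf.B 10 5 (Pf.B 9 5 (Pf.C 1 0xa1210185) (Pf.C 17 1157)) (Pf.C 0 0x1c505))))
 (Pq.cons (Pq.L [0,1,2,3,4] 34 (Pf.B 10 7 (Pf.C 0 0xe0400a) (Pf.B 9 7 (Pf.B 9 5 (Pf.C 1 0x70a08484) (Pf.C 0 0x608485)) (Pf.C 0 0x28389))))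
 (Pq.cons (Pq.L [0,1,2,3,4] 7 (Pf.B 10 5 (Pf.C 1 0x2820200504) (Pf.B 10 7 (Pf.B 10 6 (Pf.C 1 0x182021838a) (Pf.C 0 0xe1430a)) (Pf.C 0 0xa1c500))))
 (Pq.cons (Pq.L [0,2,3,4] 7 (Pf.B 10 7 (Pf.B 10 6 (Pf.C 1 0x2060e00502) (Pf.B 10 5 (Pf.C 1 0x1050e00504) (Pf.C 0 0xe1828a))) (Pf.C 0 0x61c500)))
 (Pq.cons (Pq.L [0,1,2,3,4] 23 (Pf.B 10 7 (Pf.C 0 0xe0400a) (Pf.B 8 7 (Pf.B 8 6 (Pf.C 1 0x1840c04008) (Pf.B 8 5 (Pf.C 1 0x70a18403) (Pf.C 0 0xc14402))) (Pf.C 0 0x28388))))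
 (Pq.cons (Pq.L [0,1,2,3,4] 39 (Pf.B 10 5 (Pf.C 1 0x2820200504) (Pf.B 10 7 (Pf.B 10 6 (Pf.B 9 6 (Pf.B 9 7 (Pf.C 1 0x3070028482) (Pf.B 9 5 (Pf.C 1 0x2031204005) (Pf.C 0 0xc1c289))) (Pf.C 0 0x618481)) (Pf.C 0 0xe1430a)) (Pf.C 0 0xa1c500))))
 (Pq.cons (Pq.L [0,1,2,3,4] 39 (Pf.B 10 7 (Pf.B 10 5 (Pf.C 1 0x1841400085) (Pf.B 10 6 (Pf.B 9 6 (Pf.B 9 7 (Pf.C 1 0x3070028482) (Pf.B 9 5 (Pf.C 1 0x2031204005) (Pf.C 0 0xc1c289))) (Pf.C 0 0x618481)) (Pf.C 0 0xe1430a))) (Pf.C 0 0x81c500)))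
 (Pq.cons (Pq.L [0,1,2,3,4] 19 (Pf.B 10 7 (Pf.C 0 0xe0400a) (Pf.B 8 7 (Pf.B 8 6 (Pf.C 1 0x2030c04008) (Pf.B 8 5 (Pf.C 1 0x70a08404) (Pf.C 0 0xc14402))) (Pf.C 0 0x28388))))
 (Pq.cons (Pq.L [0,1,2,3,4] 0 (Pf.B 10 8 (Pf.C 1 0x4020200504) (Pf.B 9 8 (Pf.B 10 9 (Pf.C 1 0x4810028403) (Pf.B 9 6 (Pf.C 0 0xc08089) (Pf.B 10 6 (Pf.B 8 6 (Pf.C 1 0x3010028403) (Pf.C 0 0x208308)) (Pf.C 0 0x22430a)))) (Pf.C 0 0x208488))))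
 (Pq.cons (Pq.L [0,1,2,3,4] 23 (Pf.B 10 7 (Pf.C 0 0xe0400a) (Pf.B 8 7 (Pf.B 8 6 (Pf.C 1 0x1840c00088) (Pf.B 8 5 (Pf.C 1 0x870a18403) (Pf.C 0 0xc14402))) (Pf.C 0 0x28388))))
 (Pq.cons (Pq.L [0,1,2,4] 0 (Pf.B 10 9 (Pf.B 10 7 (Pf.C 0 0xe0400a) (Pf.B 9 8 (Pf.C 1 0x4020200484) (Pf.B 10 8 (Pf.C 1 0x1081200504) (Pf.B 9 7 (Pf.B 8 7 (Pf.C 1 0x3801220104) (Pf.C 0 0x28388)) (Pf.C 0 0x200389))))) (Pf.C 0 0x200509)))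
 (Pq.cons (Pq.L [0,1,2,4] 0 (Pf.B 10 9 (Pf.B 10 7 (Pf.C 0 0xe0400a) (Pf.B 9 8 (Pf.B 10 8 (Pf.C 1 0x4021200504) (Pf.B 9 7 (Pf.B 8 7 (Pf.C 1 0x3801208404) (Pf.C 0 0x28388)) (Pf.C 0 0x200389))) (Pf.C 18 1160))) (Pf.C 0 0x200509)))
 (Pq.cons (Pq.L [0,1,2,3,4] 23 (Pf.B 10 7 (Pf.C 0 0xe0400a) (Pf.B 8 7 (Pf.B 8 6 (Pf.B 8 5 (Pf.C 1 0x70a10406) (Pf.C 0 0x814402)) (Pf.C 0 0x608308)) (Pf.C 0 0x28388))))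
 (Pq.cons (Pq.L [0,1,2,3,4] 58 (Pf.B 10 7 (Pf.C 0 0xe0400a) (Pf.B 9 7 (Pf.B 9 5 (Pf.B 8 7 (Pf.B 8 5 (Pf.C 1 0x70a10409) (Pf.C 0 0x814402)) (Pf.C 0 0x28388)) (Pf.C 0 0x608485)) (Pf.C 0 0x28389))))
 (Pq.cons (Pq.L [1,2,3,4] 63 (Pf.B 10 6 (Pf.C 1 0x203040430a) (Pf.B 9 7 (Pf.C 1 0x2030404487) (Pf.B 9 6 (Pf.B 9 5 (Pf.B 8 6 (Pf.B 8 5 (Pf.C 1 0x2860224403) (Pf.C 0 0x814402)) (Pf.C 0 0x1228406)) (Pf.C 0 0xc1c289)) (Pf.C 0 0xe18481)))))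
 (Pq.cons (Pq.L [0,1,2,3,4] 23 (Pf.B 10 7 (Pf.C 0 0xe0400a) (Pf.B 10 6 (Pf.B 8 7 (Pf.B 8 6 (Pf.C 1 0x1821028006) (Pf.B 8 5 (Pf.C 1 0x70a18403) (Pf.C 0 0x814402))) (Pf.C 0 0x28388)) (Pf.C 0 17670))))
 (Pq.cons (Pq.L [0,1,2,3,4] 58 (Pf.B 10 7 (Pf.C 0 0xe0400a) (Pf.B 10 5 (Pf.B 9 7 (Pf.B 8 7 (Pf.B 8 5 (Pf.B 9 5 (Pf.C 1 0xa1008289) (Pf.C 1 0x70a24188)) (Pf.C 0 0x814402)) (Pf.C 0 0x28388)) (Pf.C 0 17289)) (Pf.C 0 0x1c505))))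
 (Pq.cons (Pq.L [0,1,2,3,4] 38 (Pf.B 9 6 (Pf.C 0 0xc08089) (Pf.B 10 6 (Pf.B 10 7 (Pf.C 1 0x203041838a) (Pf.B 10 5 (Pf.C 1 0x1840a1c501) (Pf.C 0 0x1c505))) (Pf.C 0 0x22430a))))
 (Pq.cons (Pq.L [0,1,2,3] 7 (Pf.B 10 7 (Pf.C 0 0xe0400a) (Pf.B 10 6 (Pf.B 10 5 (Pf.C 1 0x1820a1c506) (Pf.C 0 0x1c505)) (Pf.C 0 0x200506))))
 (Pq.cons (Pq.L [0,1,2,4] 3 (Pf.B 10 7 (Pf.C 0 0xe0400a) (Pf.B 10 6 (Pf.B 10 5 (Pf.C 1 0x2050404506) (Pf.C 0 0x1c505)) (Pf.C 0 0x200506))))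
 (Pq.cons (Pq.L [0,1,2,3,4] 23 (Pf.B 10 7 (Pf.C 0 0xe0400a) (Pf.B 8 7 (Pf.B 8 6 (Pf.B 8 5 (Pf.C 0 0xa0c108) (Pf.C 1 0x3010e14404)) (Pf.C 0 0x40c406)) (Pf.C 0 0x28388))))
 (Pq.cons (Pq.L [0,1,2,3] 63 (Pf.B 10 7 (Pf.B 10 6 (Pf.B 10 5 (Pf.C 1 0x3050e00502) (Pf.B 8 5 (Pf.B 9 5 (Pf.B 9 6 (Pf.C 1 0x1031414309) (Pf.C 0 0xa04309)) (Pf.C 0 0x1004485)) (Pf.C 0 0x1414401))) (Pf.B 10 5 (Pf.B 8 6 (Pf.B 9 6 (Pf.B 9 5 (Pf.C 1 0x1031418289) (Pf.C 0 0xc04289)) (Pf.C 0 0x1004486)) (Pf.C 0 0x1418401)) (Pf.C 0 0x21828a))) (Pf.C 0 0x61c500)))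
 (Pq.cons (Pq.L [0,1,2,3] 63 (Pf.B 10 7 (Pf.B 10 6 (Pf.B 10 5 (Pf.C 1 0x3050e00503) (Pf.B 8 5 (Pf.B 9 5 (Pf.B 9 6 (Pf.C 1 0x1821414309) (Pf.C 0 0xa04309)) (Pf.C 0 0x1004485)) (Pf.C 0 0x1414401))) (Pf.B 10 5 (Pf.B 8 6 (Pf.B 9 6 (Pf.B 9 5 (Pf.C 1 0x1821418289) (Pf.C 0 0xc04289)) (Pf.C 0 0x1004486)) (Pf.C 0 0x1418401)) (Pf.C 0 0x21828a))) (Pf.C 0 0x41c500)))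
 (Pq.cons (Pq.L [0,1,2,3,4] 38 (Pf.B 10 5 (Pf.C 1 0x203040428a) (Pf.B 10 7 (Pf.B 9 7 (Pf.C 1 0x2030424507) (Pf.B 9 6 (Pf.C 0 0xc08089) (Pf.C 0 0xe18481))) (Pf.C 0 0xa1c500))))
 (Pq.cons (Pq.L [0,1,2,3,4] 61 (Pf.B 8 5 (Pf.B 10 5 (Pf.B 10 6 (Pf.C 1 0x182021430a) (Pf.B 10 7 (Pf.C 0 0xe1800a) (Pf.B 9 7 (Pf.C 0 0xe28009) (Pf.B 9 6 (Pf.C 0 0xc1c009) (Pf.B 9 5 (Pf.C 1 0x2841024002) (Pf.C 0 99461)))))) (Pf.C 1 0x4040a28002)) (Pf.C 0 0x814401)))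
 (Pq.cons (Pq.L [0,1,2,3,4] 0 (Pf.B 9 8 (Pf.B 9 6 (Pf.C 0 0xc08089) (Pf.B 8 6 (Pf.B 10 9 (Pf.B 10 8 (Pf.C 1 0x203100448a) (Pf.C 1 0x2031028009)) (Pf.B 10 6 (Pf.B 10 8 (Pf.C 1 0x203100430a) (Pf.C 1 0x2031028006)) (Pf.C 0 0x22430a))) (Pf.C 0 0x404308))) (Pf.C 0 0x404488)))
 (Pq.cons (Pq.L [0,1,2,3,4] 23 (Pf.B 8 5 (Pf.C 0 0xa08088) (Pf.B 10 5 (Pf.B 10 7 (Pf.C 1 0x203041438a) (Pf.B 10 6 (Pf.C 1 0x203041430a) (Pf.C 0 0xe00506))) (Pf.C 0 0x22028a))))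
 (Pq.cons (Pq.L [0,1,2,4] 0 (Pf.B 10 9 (Pf.B 10 8 (Pf.B 10 5 (Pf.B 9 8 (Pf.C 1 0x4021400484) (Pf.B 9 5 (Pf.C 1 0x2821400484) (Pf.B 8 5 (Pf.C 0 0xa08088) (Pf.C 0 0x1214401)))) (Pf.C 0 0x20828a)) (Pf.C 0 0x20840a)) (Pf.C 35 1289)))
 (Pq.cons (Pq.L [0,1,2,3,4] 0 (Pf.B 10 9 (Pf.B 10 8 (Pf.B 10 5 (Pf.B 9 8 (Pf.C 1 0x1841400488) (Pf.B 9 5 (Pf.C 1 0x1841400485) (Pf.B 8 5 (Pf.C 0 0xa08088) (Pf.C 0 0x1214401)))) (Pf.C 0 0x20828a)) (Pf.C 0 0x20840a)) (Pf.C 36 1289)))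
 Pq.nil))))))))))))))))))))))))))))))))))))))))))))))))))))))))))))))))))))))))))))))))))))))))))))))))))))))))
theorem f_o6 : AllRef f_T f_G6 (hitObl [4,21,32,33,34,35,36,37,38,39,40,41,42,43,44,45] f_h8) :=
  chkPq_sound f_o6c _ (by decide +kernel)
noncomputable def f_o7c : Pq := (Pq.cons (Pq.L [] 63 (Pf.C 0 0x101c305))
 (Pq.cons (Pq.L [] 32767 (Pf.C 1 0x509101c305))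
 (Pq.cons (Pq.L [0,1] 1 (Pf.C 0 0x218005))
 (Pq.cons (Pq.L [1,2] 1 (Pf.C 0 0x218105))
 (Pq.cons (Pq.L [2,3] 1 (Pf.C 0 0x618105))
 (Pq.cons (Pq.L [3,4] 1 (Pf.C 0 0x618205))
 (Pq.cons (Pq.L [0,1] 1 (Pf.C 0 98437))
 (Pq.cons (Pq.L [1,2] 1 (Pf.C 0 0x418085))
 (Pq.cons (Pq.L [2,3] 1 (Pf.C 0 0x418185))
 (Pq.cons (Pq.L [3,4] 1 (Pf.C 0 0x818185))
 (Pq.cons (Pq.L [0,2] 1 (Pf.C 0 0x418280))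
 (Pq.cons (Pq.L [0,4] 1 (Pf.C 0 0x818280))
 (Pq.cons (Pq.L [2,4] 1 (Pf.C 0 0x818282))
 (Pq.cons (Pq.L [0,2,3,4] 1 (Pf.C 1 0x3040608280))
 (Pq.cons (Pq.L [0,1,2,4] 1 (Pf.C 1 0x3020200284))
 (Pq.cons (Pq.L [0,1,2,3] 1 (Pf.C 1 0x3000208185))
 (Pq.cons (Pq.L [1,2,3,4] 1 (Pf.C 1 0x301040c205))
 (Pq.cons (Pq.L [0,1,2,3] 1 (Pf.C 1 0x3030404005))
 (Pq.cons (Pq.L [1,2,3,4] 1 (Pf.C 1 0x3040608085))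
 (Pq.cons (Pq.L [0,1,3,4] 1 (Pf.C 1 0x1840c00085))
 (Pq.cons (Pq.L [0,2,3,4] 1 (Pf.C 1 0x2030418280))
 (Pq.cons (Pq.L [0,2,3,4] 1 (Pf.C 1 0x1030818280))
 (Pq.cons (Pq.L [0,1,2,4] 1 (Pf.C 1 0x1010018284))
 (Pq.cons (Pq.L [0,1,2,4] 1 (Pf.C 1 0x10418284))
 (Pq.cons (Pq.L [0,1] 1 (Pf.C 0 0xc04005))
 (Pq.cons (Pq.L [1,2] 1 (Pf.C 0 0xc08085))
 (Pq.cons (Pq.L [2,3] 1 (Pf.C 0 0xc0c105))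
 (Pq.cons (Pq.L [3,4] 1 (Pf.C 0 0xc10185))
 (Pq.cons (Pq.L [0,3] 1 (Pf.C 0 0x618280))
 (Pq.cons (Pq.L [1,3] 1 (Pf.C 0 0x618281))
 (Pq.cons (Pq.L [1,4] 1 (Pf.C 0 0x818281))
 (Pq.cons (Pq.L [0,2,3,4] 1 (Pf.C 1 0x2030418005))
 (Pq.cons (Pq.L [0,2,3,4] 1 (Pf.C 1 0x1030818005))
 (Pq.cons (Pq.L [0,1,3,4] 1 (Pf.C 1 0x2030c04005))
 (Pq.cons (Pq.L [0,1,2,4] 1 (Pf.C 1 0x2060404005))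
 (Pq.cons (Pq.L [0,1,2,4] 1 (Pf.C 1 0x2060004105))
 (Pq.cons (Pq.L [] 1 (Pf.C 10 773))
 (Pq.cons (Pq.L [] 1 (Pf.C 11 773))
 (Pq.cons (Pq.L [] 0 (Pf.C 12 773))
 (Pq.cons (Pq.L [] 0 (Pf.C 13 773))
 (Pq.cons (Pq.L [] 1 (Pf.C 14 773))
 (Pq.cons (Pq.L [] 1 (Pf.C 15 773))
 (Pq.cons (Pq.L [] 1 (Pf.C 16 773))
 (Pq.cons (Pq.L [] 1 (Pf.C 17 773))
 (Pq.cons (Pq.L [] 1 (Pf.C 18 773))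
 (Pq.cons (Pq.L [] 1 (Pf.C 19 773))
 (Pq.cons (Pq.L [] 1 (Pf.C 20 773))
 (Pq.cons (Pq.L [] 1 (Pf.C 21 773))
 (Pq.cons (Pq.L [] 1 (Pf.C 22 773))
 (Pq.cons (Pq.L [] 1 (Pf.C 23 773))
 (Pq.cons (Pq.L [] 0 (Pf.C 24 773))
 (Pq.cons (Pq.L [] 1 (Pf.C 25 773))
 (Pq.cons (Pq.L [] 1 (Pf.C 26 773))
 (Pq.cons (Pq.L [] 1 (Pf.C 27 773))
 (Pq.cons (Pq.L [] 1 (Pf.C 28 773))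
 (Pq.cons (Pq.L [] 1 (Pf.C 29 773))
 (Pq.cons (Pq.L [] 1 (Pf.C 30 773))
 (Pq.cons (Pq.L [] 1 (Pf.C 31 773))
 (Pq.cons (Pq.L [] 1 (Pf.C 32 773))
 (Pq.cons (Pq.L [] 0 (Pf.C 33 773))
 (Pq.cons (Pq.L [] 1 (Pf.C 34 773))
 (Pq.cons (Pq.L [] 1 (Pf.C 35 773))
 (Pq.cons (Pq.L [] 1 (Pf.C 36 773))
 (Pq.cons (Pq.L [] 1 (Pf.C 37 773))
 (Pq.cons (Pq.L [] 1 (Pf.C 38 773))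
 (Pq.cons (Pq.L [] 1 (Pf.C 39 773))
 (Pq.cons (Pq.L [] 1 (Pf.C 40 773))
 (Pq.cons (Pq.L [0] 7 (Pf.C 0 0x1c305))
 (Pq.cons (Pq.L [2] 7 (Pf.C 0 0x41c305))
 (Pq.cons (Pq.L [4] 7 (Pf.C 0 0x81c305))
 (Pq.cons (Pq.L [1] 7 (Pf.C 0 0x21c305))
 (Pq.cons (Pq.L [3] 7 (Pf.C 0 0x61c305))
 (Pq.cons (Pq.L [0] 7 (Pf.C 0 0xe18005))
 (Pq.cons (Pq.L [2] 7 (Pf.C 0 0xe18105))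
 (Pq.cons (Pq.L [4] 7 (Pf.C 0 0xe18205))
 (Pq.cons (Pq.L [1] 7 (Pf.C 0 0xe18085))
 (Pq.cons (Pq.L [3] 7 (Pf.C 0 0xe18185))
 (Pq.cons (Pq.L [1,3,4] 7 (Pf.C 1 0x1840e18085))
 (Pq.cons (Pq.L [0,1,3] 7 (Pf.C 1 0x1870c00085))
 (Pq.cons (Pq.L [1,3,4] 7 (Pf.C 1 0x1840e18281))
 (Pq.cons (Pq.L [1,3,4] 7 (Pf.C 1 0x3840618281))
 (Pq.cons (Pq.L [1,3,4] 7 (Pf.C 1 0x3830818281))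
 (Pq.cons (Pq.L [0,1,3] 7 (Pf.C 1 0x800e18283))
 (Pq.cons (Pq.L [0,1,3] 7 (Pf.C 1 0x3810018283))
 (Pq.cons (Pq.L [0,1,3] 7 (Pf.C 1 0x3800218283))
 (Pq.cons (Pq.L [0,1,2] 7 (Pf.C 1 0x3070004105))
 (Pq.cons (Pq.L [1,2,3] 7 (Pf.C 1 0x3070208185))
 (Pq.cons (Pq.L [0,1,2] 7 (Pf.C 1 0x3070404005))
 (Pq.cons (Pq.L [2,3,4] 7 (Pf.C 1 0x307040c205))
 (Pq.cons (Pq.L [1,2,3] 7 (Pf.C 1 0x3070608085))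
 (Pq.cons (Pq.L [2,3,4] 7 (Pf.C 1 0x307080c105))
 (Pq.cons (Pq.L [0,1,2] 7 (Pf.C 1 0x3820200305))
 (Pq.cons (Pq.L [1,2,3] 7 (Pf.C 1 0x3830404305))
 (Pq.cons (Pq.L [2,3,4] 7 (Pf.C 1 0x3840608305))
 (Pq.cons (Pq.L [0,2,3] 7 (Pf.C 1 0x1820e18005))
 (Pq.cons (Pq.L [0,2,3] 7 (Pf.C 1 0x1030e18005))
 (Pq.cons (Pq.L [0,3,4] 7 (Pf.C 1 0x2030e18005))
 (Pq.cons (Pq.L [0,3,4] 7 (Pf.C 1 0x1840e18005))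
 (Pq.cons (Pq.L [0,1,3] 7 (Pf.C 1 0x1870c04005))
 (Pq.cons (Pq.L [0,1,4] 7 (Pf.C 1 0x2070c04005))
 (Pq.cons (Pq.L [1,3,4] 7 (Pf.C 1 0x2030e18085))
 (Pq.cons (Pq.L [0,1,4] 7 (Pf.C 1 0x2070c00085))
 (Pq.cons (Pq.L [1,2,4] 7 (Pf.C 1 0x2070c08085))
 (Pq.cons (Pq.L [1,2,4] 7 (Pf.C 1 0x2070c04105))
 (Pq.cons (Pq.L [0,2,3] 7 (Pf.C 1 0x1820e18280))
 (Pq.cons (Pq.L [0,2,3] 7 (Pf.C 1 0x1030e18280))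
 (Pq.cons (Pq.L [0,2,3] 7 (Pf.C 1 0x3830418280))
 (Pq.cons (Pq.L [0,2,3] 7 (Pf.C 1 0x3820618280))
 (Pq.cons (Pq.L [0,3,4] 7 (Pf.C 1 0x3840618280))
 (Pq.cons (Pq.L [0,2,4] 7 (Pf.C 1 0x2070c08280))
 (Pq.cons (Pq.L [0,2,4] 7 (Pf.C 1 0x2070c00282))
 (Pq.cons (Pq.L [0,2,4] 7 (Pf.C 1 0x70c10282))
 (Pq.cons (Pq.L [0,2,4] 7 (Pf.C 1 0x2070c14002))
 (Pq.cons (Pq.L [0,1,4] 7 (Pf.C 1 0x800e18284))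
 (Pq.cons (Pq.L [0,1,4] 7 (Pf.C 1 0x10e18284))
 (Pq.cons (Pq.L [1,2,4] 7 (Pf.C 1 0x1010e18284))
 (Pq.cons (Pq.L [0,1,4] 7 (Pf.C 1 0x3810018284))
 (Pq.cons (Pq.L [0,1,4] 7 (Pf.C 1 0x3800218284))
 (Pq.cons (Pq.L [1,2,4] 7 (Pf.C 1 0x3820218284))
 (Pq.cons (Pq.L [0,2,4] 7 (Pf.C 1 0x70c08284))
 (Pq.cons (Pq.L [0,2,3] 7 (Pf.C 1 0x3000e08185))
 (Pq.cons (Pq.L [0,1,3] 7 (Pf.C 1 0x300021c185))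
 (Pq.cons (Pq.L [0,1,4] 7 (Pf.C 1 0x301001c205))
 (Pq.cons (Pq.L [1,2,4] 7 (Pf.C 1 0x301041c205))
 (Pq.cons (Pq.L [0,2,3] 7 (Pf.C 1 0x303041c005))
 (Pq.cons (Pq.L [1,2,4] 7 (Pf.C 1 0x3040e08085))
 (Pq.cons (Pq.L [1,3,4] 7 (Pf.C 1 0x304061c085))
 (Pq.cons (Pq.L [0,1,4] 7 (Pf.C 1 0x300021c205))
 (Pq.cons (Pq.L [0,1,3] 7 (Pf.C 1 0x301001c185))
 (Pq.cons (Pq.L [1,2,4] 7 (Pf.C 1 0x302021c205))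
 (Pq.cons (Pq.L [0,3,4] 7 (Pf.C 1 0x304061c005))
 (Pq.cons (Pq.L [] 7 (Pf.C 41 0x1c305))
 (Pq.cons (Pq.L [] 7 (Pf.C 42 0x1c305))
 (Pq.cons (Pq.L [] 7 (Pf.C 43 0x1c305))
 (Pq.cons (Pq.L [] 7 (Pf.C 44 0x1c305))
 (Pq.cons (Pq.L [] 7 (Pf.C 45 0x1c305))
 (Pq.cons (Pq.L [] 7 (Pf.C 46 0x1c305))
 (Pq.cons (Pq.L [] 7 (Pf.C 47 0x1c305))
 (Pq.cons (Pq.L [] 7 (Pf.C 48 0x1c305))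
 (Pq.cons (Pq.L [] 7 (Pf.C 49 0x1c305))
 (Pq.cons (Pq.L [] 7 (Pf.C 50 0x1c305))
 (Pq.cons (Pq.L [] 7 (Pf.C 51 0x1c305))
 (Pq.cons (Pq.L [] 7 (Pf.C 52 0x1c305))
 (Pq.cons (Pq.L [] 7 (Pf.C 53 0x1c305))
 (Pq.cons (Pq.L [] 7 (Pf.C 54 0x1c305))
 (Pq.cons (Pq.L [] 7 (Pf.C 55 0x1c305))
 (Pq.cons (Pq.L [] 7 (Pf.C 56 0x1c305))
 (Pq.cons (Pq.L [] 7 (Pf.C 57 0x1c305))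
 (Pq.cons (Pq.L [] 7 (Pf.C 58 0x1c305))
 (Pq.cons (Pq.L [] 7 (Pf.C 59 0x1c305))
 (Pq.cons (Pq.L [] 7 (Pf.C 60 0x1c305))
 (Pq.cons (Pq.L [] 7 (Pf.C 61 0x1c305))
 (Pq.cons (Pq.L [] 7 (Pf.C 62 0x1c305))
 (Pq.cons (Pq.L [] 7 (Pf.C 63 0x1c305))
 (Pq.cons (Pq.L [] 7 (Pf.C 64 0x1c305))
 (Pq.cons (Pq.L [] 7 (Pf.C 65 0x1c305))
 (Pq.cons (Pq.L [] 7 (Pf.C 66 0x1c305))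
 (Pq.cons (Pq.L [] 7 (Pf.C 67 0x1c305))
 (Pq.cons (Pq.L [] 7 (Pf.C 68 0x1c305))
 (Pq.cons (Pq.L [] 7 (Pf.C 69 0x1c305))
 (Pq.cons (Pq.L [] 7 (Pf.C 70 0x1c305))
 (Pq.cons (Pq.L [] 7 (Pf.C 71 0x1c305))
 (Pq.cons (Pq.L [] 7 (Pf.C 72 0x1c305))
 (Pq.cons (Pq.L [] 7 (Pf.C 73 0x1c305))
 (Pq.cons (Pq.L [] 7 (Pf.C 74 0x1c305))
 (Pq.cons (Pq.L [] 7 (Pf.C 75 0x1c305))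
 (Pq.cons (Pq.L [] 7 (Pf.C 76 0x1c305))
 (Pq.cons (Pq.L [] 7 (Pf.C 77 0x1c305))
 (Pq.cons (Pq.L [] 7 (Pf.C 78 0x1c305))
 (Pq.cons (Pq.L [] 7 (Pf.C 79 0x1c305))
 (Pq.cons (Pq.L [] 7 (Pf.C 80 0x1c305))
 (Pq.cons (Pq.L [] 7 (Pf.C 81 0x1c305))
 (Pq.cons (Pq.L [] 7 (Pf.C 82 0x1c305))
 (Pq.cons (Pq.L [] 7 (Pf.C 83 0x1c305))
 (Pq.cons (Pq.L [] 7 (Pf.C 84 0x1c305))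
 (Pq.cons (Pq.L [] 7 (Pf.C 85 0x1c305))
 (Pq.cons (Pq.L [] 7 (Pf.C 86 0x1c305))
 (Pq.cons (Pq.L [] 7 (Pf.C 87 0x1c305))
 (Pq.cons (Pq.L [] 7 (Pf.C 88 0x1c305))
 (Pq.cons (Pq.L [] 7 (Pf.C 89 0x1c305))
 (Pq.cons (Pq.L [] 7 (Pf.C 90 0x1c305))
 (Pq.cons (Pq.L [] 7 (Pf.C 91 0x1c305))
 (Pq.cons (Pq.L [] 7 (Pf.C 92 0x1c305))
 (Pq.cons (Pq.L [1,2] 63 (Pf.C 1 0x3071008085))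
 (Pq.cons (Pq.L [1,2] 63 (Pf.C 1 0x3071004105))
 (Pq.cons (Pq.L [2,3] 63 (Pf.C 1 0x307100c105))
 (Pq.cons (Pq.L [1,3] 63 (Pf.C 1 0x4070618281))
 (Pq.cons (Pq.L [1,4] 63 (Pf.C 1 0x4070818281))
 (Pq.cons (Pq.L [0,2] 63 (Pf.C 1 0x80e18282))
 (Pq.cons (Pq.L [0,3] 63 (Pf.C 1 0x4070018283))
 (Pq.cons (Pq.L [1,3] 63 (Pf.C 1 0x4070218283))
 (Pq.cons (Pq.L [0,1] 63 (Pf.C 1 0x401001c305))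
 (Pq.cons (Pq.L [1,2] 63 (Pf.C 1 0x402021c305))
 (Pq.cons (Pq.L [1,2] 63 (Pf.C 1 0x401041c305))
 (Pq.cons (Pq.L [2,3] 63 (Pf.C 1 0x403041c305))
 (Pq.cons (Pq.L [2,3] 63 (Pf.C 1 0x402061c305))
 (Pq.cons (Pq.L [3,4] 63 (Pf.C 1 0x403081c305))
 (Pq.cons (Pq.L [0,3] 63 (Pf.C 1 0x1880e18005))
 (Pq.cons (Pq.L [1,4] 63 (Pf.C 1 0x2080e18085))
 (Pq.cons (Pq.L [0,2] 63 (Pf.C 1 0x4070418280))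
 (Pq.cons (Pq.L [0,3] 63 (Pf.C 1 0x4070618280))
 (Pq.cons (Pq.L [0,2] 63 (Pf.C 1 0x4070018282))
 (Pq.cons (Pq.L [0,4] 63 (Pf.C 1 0x4070018284))
 (Pq.cons (Pq.L [0,4] 63 (Pf.C 1 0x3000e20205))
 (Pq.cons (Pq.L [0,4] 63 (Pf.C 1 0x3040e20005))
 Pq.nil)))))))))))))))))))))))))))))))))))))))))))))))))))))))))))))))))))))))))))))))))))))))))))))))))))))))))))))))))))))))))))))))))))))))))))))))))))))))))))))))))))))))))))))))))))))))))))))))))))))))))))))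
theorem f_o7 : AllRef f_T f_G7 (applyObl f1_T 205 [48,49,46,50,51,52,53,54,55,56,57,58,59,60,61,47] [1,2,3,4,5,6,7,8,9,10,11,12,13,14,15,16] []) :=
  chkPq_sound f_o7c _ (by decide +kernel)

end Pool.Agent.Lib.MP_849b2e_co
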