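import Pool.Agent.Lib.MP_849b2e_co.AllR
import Pool.Agent.Lib.MP_849b2e_co.Tf
import Pool.Agent.Lib.MP_849b2e_co.Of_0
import Pool.Agent.Lib.MP_849b2e_co.Lf1
import Pool.Agent.Lib.MP_849b2e_co.LfS

set_option maxRecDepth 100000
set_option linter.all false
namespace Pool.Agent.Lib.MP_849b2e_co

theorem f_n9  : Bd f_T f_G7 [48,49,46,50,51,52,53,54,55,56,57,58,59,60,61,47] :=
  r_apply lem_f1 [1,2,3,4,5,6,7,8,9,10,11,12,13,14,15,16] [] (by decide +kernel) f_o7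
theorem f_n8  : Bd f_T f_G6 [32,33,4,34,35,36,37,38,39,40,41,42,43,44,45,21] :=
  r_hit [4,21,32,33,34,35,36,37,38,39,40,41,42,43,44,45] f_h8 ⟨46,[],[42,43,44,0,45,0,46,0,0,0,0,0,0,0,0,47,0,0,0,48,0,0,0,0,49,50,51,52,53,54,55,56,57,58,59,0,60,61,62,0,63,0,0,64,0,0,0,0,0,65,66,0,67,68,69,0,70,0,71,72,0,73,0,0,74,75,76,77,78,0,0,0,79,80,81,82,83,0,0,0,0,0,0,0,0,0,0,84,85,86,87,88,0,0,89,0,90,91,0,92,0,93],[]⟩ f_G7 [48,49,46,50,51,52,53,54,55,56,57,58,59,60,61,47] (by decide +kernel) f_o6 f_n9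
theorem f_n7  : Bd f_T f_G5 [2,3,4,5,6,7,8,9,10,12,14,15,16,18,19,21] :=
  r_hit [2,3,5,6,7,8,9,10,12,14,15,16,18,19] f_h7 ⟨32,[],[11,12,13,14,15,16,17,18,19,0,20,21,22,23,24,25,26,27,28,29,30,31,32,33,34,35,36,37,38,39,40,41],[]⟩ f_G6 [32,33,4,34,35,36,37,38,39,40,41,42,43,44,45,21] (by decide +kernel) f_o5 f_n8
theorem f_n6  : Bd f_T f_G4 [2,3,4,5,6,7,8,9,10,25,12,26,14,15,16,27,18,19,28,21,29,30,31] :=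
  r_kill [25,26,27,28,29,30,31] ⟨32,[],[],[]⟩ f_G5 [2,3,4,5,6,7,8,9,10,12,14,15,16,18,19,21] (by decide +kernel) f_o4 f_n7
theorem f_n5  : Bd f_T f_G3 [2,3,4,5,6,7,8,9,10,11,12,13,14,15,16,17,18,19,20,21,22,23,24] :=
  r_hit [11,13,17,20,22,23,24] f_h5 ⟨25,[],[4,5,6,7,8,9,10],[]⟩ f_G4 [2,3,4,5,6,7,8,9,10,25,12,26,14,15,16,27,18,19,28,21,29,30,31] (by decide +kernel) f_o3 f_n6
theorem f_n4  : Bd f_T f_G3 [0] :=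
  r_act [0,1] [2,3,4,5,6,7,8,9,10,11,12,13,14,15,16,17,18,19,20,21,22,23,24] (by decide +kernel) f_n5
theorem f_n3  : Bd f_T f_G2 [0] :=
  r_psplit 1 [] (PT.br 0 (PT.br 1 (PT.br 2 (PT.br 3 (PT.br 4 PT.ref PT.kid) (PT.br 4 PT.kid PT.kid)) (PT.br 3 (PT.br 4 PT.kid PT.kid) (PT.br 4 PT.kid PT.ref))) (PT.br 2 (PT.br 3 (PT.br 4 PT.kid PT.kid) (PT.br 4 PT.kid PT.kid)) (PT.br 3 (PT.br 4 PT.kid PT.kid) PT.ref))) (PT.br 1 (PT.br 2 (PT.br 3 (PT.br 4 PT.kid PT.kid) (PT.br 4 PT.kid PT.kid)) (PT.br 3 (PT.br 4 PT.kid PT.kid) (PT.br 4 PT.kid PT.ref))) (PT.br 2 (PT.br 3 (PT.br 4 PT.kid PT.kid) (PT.br 4 PT.kid PT.kid)) PT.ref))) ⟨2,[2],[],[]⟩ f_G3 [0] (by decide +kernel) f_o2 f_n4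
theorem f_n2  : Bd f_T f_G1 [0] :=
  r_psplit 0 [0,1,2,3,4] PT.kid ⟨1,[1],[],[]⟩ f_G2 [0] (by decide +kernel) f_o1 f_n3
theorem f_n1  : Bd f_T f_G0 [0] :=
  r_apply lem_fS [0] [] (by decide +kernel) f_o0
theorem f_n0  : Bd f_T (pureCtx 0 2) (pureAct 0) :=
  show Bd _ _ [0] from r_case [0,0,0,0,0] [⟨0,1,true⟩,⟨1,2,true⟩,⟨2,3,true⟩,⟨3,4,true⟩,⟨0,2,false⟩,⟨0,3,false⟩,⟨0,4,false⟩,⟨1,3,false⟩,⟨1,4,false⟩,⟨2,4,false⟩] [] ⟨1,[],[3],[]⟩ f_G0 [0] f_G1 [0] (by decide +kernel) f_n1 f_n2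
theorem lem_f  : Lem f_T 0 2 := ⟨by decide +kernel, f_n0⟩

end Pool.Agent.Lib.MP_849b2e_co
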