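import Pool.Agent.Lib.MP_849b2e_co.Rules

set_option maxRecDepth 100000
set_option linter.all false
namespace Pool.Agent.Lib.MP_849b2e_co

noncomputable def g_ty : Tr Ty := (Tr.br (Tr.br (Tr.br (Tr.br (Tr.br (Tr.leaf ⟨1,0,0,0,0⟩) (Tr.leaf ⟨67655,36920,0,1,0⟩)) (Tr.leaf ⟨295,88,0,0,1⟩))
 (Tr.br (Tr.leaf ⟨19,12,0,0,0⟩) (Tr.leaf ⟨4167,2104,1,0,0⟩))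
)
 (Tr.br (Tr.br (Tr.br (Tr.leaf ⟨7,24,0,0,0⟩) (Tr.leaf ⟨0x40847,4152,0,1,0⟩)) (Tr.leaf ⟨1319,600,1,0,1⟩))
 (Tr.br (Tr.leaf ⟨71,56,0,0,0⟩) (Tr.leaf ⟨17191,9304,0,1,1⟩))
)
)
 (Tr.br (Tr.br (Tr.br (Tr.br (Tr.leaf ⟨3,0,0,0,0⟩) (Tr.leaf ⟨0x20327,1112,0,1,1⟩)) (Tr.leaf ⟨807,1112,0,1,1⟩))
 (Tr.br (Tr.leaf ⟨39,88,0,0,0⟩) (Tr.leaf ⟨8999,17496,0,1,1⟩))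
)
 (Tr.br (Tr.br (Tr.br (Tr.leaf ⟨11,20,0,0,0⟩) (Tr.leaf ⟨0x81047,2104,1,0,0⟩)) (Tr.leaf ⟨2119,4152,0,1,0⟩))
 (Tr.br (Tr.leaf ⟨167,88,0,0,0⟩) (Tr.leaf ⟨34887,69688,0,1,0⟩))
)
)
)

noncomputable def g_ev : Tr Ev := (Tr.br (Tr.br (Tr.br (Tr.leaf ⟨2,[5,6],0⟩) (Tr.leaf ⟨9,[13,14],0⟩))
 (Tr.leaf ⟨8,[9,10],0⟩))
 (Tr.br (Tr.br (Tr.leaf ⟨5,[8],1⟩) (Tr.leaf ⟨11,[15,16],0⟩))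
 (Tr.leaf ⟨6,[11,12],0⟩))
)

noncomputable def g_ax : Tr Ax := (Tr.br (Tr.br (Tr.br (Tr.br (Tr.leaf ⟨[1,1,1,1],[⟨0,1,true⟩,⟨0,2,true⟩,⟨0,3,false⟩,⟨1,2,true⟩,⟨1,3,false⟩,⟨2,3,false⟩],[],0⟩) (Tr.leaf ⟨[0x20000],[],[],0⟩))
 (Tr.leaf ⟨[8192],[],[⟨10,[(0,true)]⟩],0⟩))
 (Tr.br (Tr.br (Tr.leaf ⟨[32],[],[⟨2,[(0,true)]⟩],2⟩) (Tr.leaf ⟨[0x80000],[],[],0⟩))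
 (Tr.leaf ⟨[32768],[],[⟨10,[(0,true)]⟩,⟨12,[(0,true)]⟩],0⟩))
)
 (Tr.br (Tr.br (Tr.br (Tr.leaf ⟨[1,1,1,1],[⟨0,1,true⟩,⟨0,2,true⟩,⟨0,3,true⟩,⟨1,2,false⟩,⟨1,3,false⟩,⟨2,3,false⟩],[],0⟩) (Tr.leaf ⟨[0x40000],[],[],0⟩))
 (Tr.leaf ⟨[16384,1024],[⟨0,1,true⟩],[],0⟩))
 (Tr.br (Tr.leaf ⟨[64,4,4,4],[⟨0,1,true⟩,⟨0,2,true⟩,⟨0,3,true⟩],[],0⟩) (Tr.leaf ⟨[65536,5120],[⟨0,1,true⟩],[],0⟩))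
)
)

noncomputable def g_sc : Tr Sc := (Tr.leaf ⟨[],[]⟩)
noncomputable def g_T : Tab := ⟨20,g_ty,g_ev,g_ax,g_sc⟩
def g_S0 : St := ⟨0,0,0,0,0⟩
def g_G0 : Ctx := ⟨2,0,3,0,0,g_S0,none⟩
def g_G1 : Ctx := ⟨5,0,3,0,0,g_S0,none⟩
def g_G2 : Ctx := ⟨7,1,15,0,0,g_S0,none⟩
def g_G3 : Ctx := ⟨7,1,15,0,32,g_S0,none⟩
def g_S1 : St := ⟨1,167,0,0,1⟩
def g_G4 : Ctx := ⟨8,1,15,0,0,g_S1,none⟩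
def g_G5 : Ctx := ⟨9,3,15,0,0,g_S1,none⟩
def g_G6 : Ctx := ⟨11,7,15,0,0,g_S1,none⟩
def g_G7 : Ctx := ⟨13,15,15,0,0,g_S1,none⟩
def g_G8 : Ctx := ⟨15,31,63,0,0,g_S1,none⟩
def g_G9 : Ctx := ⟨17,63,255,0,0,g_S1,none⟩
def g_G10 : Ctx := ⟨17,63,255,0,81920,g_S1,none⟩
def g_G11 : Ctx := ⟨20,63,2047,0,81920,g_S1,none⟩
def g_G12 : Ctx := ⟨20,63,2047,0,0xf4000,g_S1,none⟩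
def g_h15 : List HP := [⟨[0],[],(HT.br true 0 0 (HT.leaf 3) (HT.leaf 3))⟩,⟨[1],[],(HT.br true 0 0 (HT.leaf 3) (HT.leaf 3))⟩,⟨[2],[],(HT.leaf 5)⟩]

end Pool.Agent.Lib.MP_849b2e_co
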