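import Pool.Agent.Lib.MP_849b2e_co.Fast
import Pool.Agent.Lib.MP_849b2e_co.Tg
import Pool.Agent.Lib.MP_849b2e_co.RApply

set_option maxRecDepth 100000
set_option linter.all false
namespace Pool.Agent.Lib.MP_849b2e_co

noncomputable def g_o0c : Pq := Pq.nil
theorem g_o0 : AllRef g_T (pureCtx 0 2) (twinObl [0] 0 [1]) :=
  chkPq_sound g_o0c _ (by decide +kernel)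
noncomputable def g_o1c : Pq := Pq.nil
theorem g_o1 : AllRef g_T g_G0 (blockObl [1] [0] [1] [1]) :=
  chkPq_sound g_o1c _ (by decide +kernel)
noncomputable def g_o2c : Pq := Pq.nil
theorem g_o2 : AllRef g_T g_G2 (extObl 5 [] []) :=
  chkPq_sound g_o2c _ (by decide +kernel)
noncomputable def g_o3c : Pq := (Pq.cons (Pq.L [] 7 (Pf.C 3 0x608080))
 Pq.nil)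
theorem g_o3 : AllRef g_T g_G3 (applyObl TD2 1 [6] [0] []) :=
  chkPq_sound g_o3c _ (by decide +kernel)
noncomputable def g_o4c : Pq := Pq.nil
theorem g_o4 : AllRef g_T g_G4 (ptObl 5 PT.kid []) :=
  chkPq_sound g_o4c _ (by decide +kernel)
noncomputable def g_o5c : Pq := Pq.nil
theorem g_o5 : AllRef g_T g_G5 (ptObl 8 (PT.br 0 PT.kid PT.kid) []) :=
  chkPq_sound g_o5c _ (by decide +kernel)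
noncomputable def g_o6c : Pq := Pq.nil
theorem g_o6 : AllRef g_T g_G6 (ptObl 6 (PT.br 0 PT.kid PT.kid) []) :=
  chkPq_sound g_o6c _ (by decide +kernel)
noncomputable def g_o7c : Pq := (Pq.cons (Pq.L [0] 0 (Pf.W 2 0 [] [1] (Pf.cons (Pf.B 2 1 (Pf.T 2 0 (Pf.cons (Pf.T 2 1 (Pf.cons (Pf.T 2 2 (Pf.cons (Pf.W 2 0 [2] [1] (Pf.cons (Pf.B 3 2 (Pf.B 3 1 (Pf.T 3 0 (Pf.cons (Pf.T 3 1 (Pf.cons (Pf.T 3 2 (Pf.cons (Pf.W 2 0 [2,3] [1] (Pf.cons (Pf.B 4 3 (Pf.B 4 2 (Pf.C 1 0x608200) (Pf.B 4 1 (Pf.C 0 0x208004) (Pf.T 4 0 (Pf.cons (Pf.T 4 1 (Pf.cons (Pf.T 4 2 (Pf.cons (Pf.C 5 513) Pf.nil)) Pf.nil)) (Pf.cons (Pf.C 3 0x404004) Pf.nil))))) (Pf.B 4 1 (Pf.C 0 0x20c004) (Pf.T 4 0 (Pf.cons (Pf.T 4 1 (Pf.cons (Pf.T 4 2 (Pf.cons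 (Pf.C 5 513) Pf.nil)) Pf.nil)) (Pf.cons (Pf.C 3 0x604004) Pf.nil))))) Pf.nil)) Pf.nil)) Pf.nil)) (Pf.cons (Pf.T 3 3 (Pf.cons (Pf.W 2 0 [2,3] [1] (Pf.cons (Pf.B 4 3 (Pf.B 4 2 (Pf.C 1 0x608200) (Pf.B 4 1 (Pf.C 0 0x208004) (Pf.T 4 0 (Pf.cons (Pf.T 4 1 (Pf.cons (Pf.T 4 2 (Pf.cons (Pf.C 5 513) Pf.nil)) Pf.nil)) (Pf.cons (Pf.C 3 0x404004) Pf.nil))))) (Pf.B 4 1 (Pf.C 0 0x20c004) (Pf.T 4 0 (Pf.cons (Pf.T 4 1 (Pf.cons (Pf.T 4 2 (Pf.cons (Pf.C 5 513) Pf.nil)) Pf.nil)) (Pf.cons (Pf.C 3 0x604004) Pf.nil))))) Pf.nil)) Pf.nil)) Pf.nil))) (Pf.T 3 0 (Pf.cons (Pf.T 3 1 (Pf.cons (Pf.T 3 2 (Pf.cons (Pf.C 5 385) Pf.nil)) Pf.nil)) (Pf.cons (Pf.T 3 3 (Pf.cons (Pf.W 2 0 [2,3] [1] (Pf.cons (Pf.B 4 3 (Pf.B 4 2 (Pf.C 1 0x608200)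 (Pf.B 4 1 (Pf.C 0 0x208004) (Pf.T 4 0 (Pf.cons (Pf.T 4 1 (Pf.cons (Pf.T 4 2 (Pf.cons (Pf.C 5 513) Pf.nil)) Pf.nil)) (Pf.cons (Pf.C 3 0x404004) Pf.nil))))) (Pf.C 3 0x200203)) Pf.nil)) Pf.nil)) Pf.nil)))) (Pf.B 3 1 (Pf.C 0 0x208003) (Pf.T 3 0 (Pf.cons (Pf.T 3 1 (Pf.cons (Pf.T 3 2 (Pf.cons (Pf.C 5 385) Pf.nil)) Pf.nil)) (Pf.cons (Pf.C 3 0x404003) Pf.nil))))) Pf.nil)) Pf.nil)) Pf.nil)) (Pf.cons (Pf.T 2 3 (Pf.cons (Pf.W 2 0 [2] [1] (Pf.cons (Pf.B 3 2 (Pf.B 3 1 (Pf.T 3 0 (Pf.cons (Pf.T 3 1 (Pf.cons (Pf.T 3 2 (Pf.cons (Pf.W 2 0 [2,3] [1] (Pf.cons (Pf.B 4 3 (Pf.B 4 2 (Pf.C 1 0x608200) (Pf.B 4 1 (Pf.C 0 0x208004) (Pf.T 4 0 (Pf.cons (Pf.T 4 1 (Pf.cons (Pf.T 4 2 (Pf.cons (Pf.C 5 513) Pf.nil)) Pf.nil)) (Pf.cons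 (Pf.C 3 0x404004) Pf.nil))))) (Pf.B 4 1 (Pf.C 0 0x20c004) (Pf.T 4 0 (Pf.cons (Pf.T 4 1 (Pf.cons (Pf.T 4 2 (Pf.cons (Pf.C 5 513) Pf.nil)) Pf.nil)) (Pf.cons (Pf.C 3 0x604004) Pf.nil))))) Pf.nil)) Pf.nil)) Pf.nil)) (Pf.cons (Pf.T 3 3 (Pf.cons (Pf.W 2 0 [2,3] [1] (Pf.cons (Pf.B 4 3 (Pf.B 4 2 (Pf.C 1 0x608200) (Pf.B 4 1 (Pf.C 0 0x208004) (Pf.T 4 0 (Pf.cons (Pf.T 4 1 (Pf.cons (Pf.T 4 2 (Pf.cons (Pf.C 5 513) Pf.nil)) Pf.nil)) (Pf.cons (Pf.C 3 0x404004) Pf.nil))))) (Pf.B 4 1 (Pf.C 0 0x20c004) (Pf.T 4 0 (Pf.cons (Pf.T 4 1 (Pf.cons (Pf.T 4 2 (Pf.cons (Pf.C 5 513) Pf.nil)) Pf.nil)) (Pf.cons (Pf.C 3 0x604004) Pf.nil))))) Pf.nil)) Pf.nil)) Pf.nil))) (Pf.T 3 0 (Pf.cons (Pf.T 3 1 (Pf.cons (Pf.T 3 2 (Pf.cons (Pf.C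 5 385) Pf.nil)) Pf.nil)) (Pf.cons (Pf.T 3 3 (Pf.cons (Pf.W 2 0 [2,3] [1] (Pf.cons (Pf.B 4 3 (Pf.B 4 2 (Pf.C 1 0x608200) (Pf.B 4 1 (Pf.C 0 0x208004) (Pf.T 4 0 (Pf.cons (Pf.T 4 1 (Pf.cons (Pf.T 4 2 (Pf.cons (Pf.C 5 513) Pf.nil)) Pf.nil)) (Pf.cons (Pf.C 3 0x404004) Pf.nil))))) (Pf.C 3 0x200203)) Pf.nil)) Pf.nil)) Pf.nil)))) (Pf.B 3 1 (Pf.C 0 0x208003) (Pf.T 3 0 (Pf.cons (Pf.T 3 1 (Pf.cons (Pf.T 3 2 (Pf.cons (Pf.C 5 385) Pf.nil)) Pf.nil)) (Pf.cons (Pf.C 3 0x404003) Pf.nil))))) Pf.nil)) Pf.nil)) Pf.nil))) (Pf.T 2 0 (Pf.cons (Pf.T 2 1 (Pf.cons (Pf.T 2 2 (Pf.cons (Pf.C 5 257) Pf.nil)) Pf.nil)) (Pf.cons (Pf.T 2 3 (Pf.cons (Pf.W 2 0 [2] [1] (Pf.cons (Pf.B 3 2 (Pf.B 3 1 (Pf.T 3 0 (Pf.cons (Pf.T 3 1 (Pf.cons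 (Pf.T 3 2 (Pf.cons (Pf.W 2 0 [2,3] [1] (Pf.cons (Pf.B 4 2 (Pf.B 4 3 (Pf.C 1 0x40c200) (Pf.B 4 1 (Pf.C 0 0x20c004) (Pf.T 4 0 (Pf.cons (Pf.T 4 1 (Pf.cons (Pf.T 4 2 (Pf.cons (Pf.C 5 513) Pf.nil)) Pf.nil)) (Pf.cons (Pf.C 3 0x604004) Pf.nil))))) (Pf.C 3 0x200202)) Pf.nil)) Pf.nil)) Pf.nil)) (Pf.cons (Pf.T 3 3 (Pf.cons (Pf.W 2 0 [2,3] [1] (Pf.cons (Pf.B 4 2 (Pf.B 4 3 (Pf.C 1 0x40c200) (Pf.B 4 1 (Pf.C 0 0x20c004) (Pf.T 4 0 (Pf.cons (Pf.T 4 1 (Pf.cons (Pf.T 4 2 (Pf.cons (Pf.C 5 513) Pf.nil)) Pf.nil)) (Pf.cons (Pf.C 3 0x604004) Pf.nil))))) (Pf.C 3 0x200202)) Pf.nil)) Pf.nil)) Pf.nil))) (Pf.T 3 0 (Pf.cons (Pf.T 3 1 (Pf.cons (Pf.T 3 2 (Pf.cons (Pf.C 5 385) Pf.nil)) Pf.nil)) (Pf.cons (Pf.T 3 3 (Pf.cons (Pf.W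 2 0 [2,3] [1] (Pf.cons (Pf.B 4 3 (Pf.B 4 2 (Pf.C 1 0x608200) (Pf.C 3 0x200202)) (Pf.C 3 0x200203)) Pf.nil)) Pf.nil)) Pf.nil)))) (Pf.C 3 0x200182)) Pf.nil)) Pf.nil)) Pf.nil)))) Pf.nil)))
 (Pq.cons (Pq.L [0] 0 (Pf.W 2 0 [] [1] (Pf.cons (Pf.B 2 1 (Pf.T 2 0 (Pf.cons (Pf.T 2 1 (Pf.cons (Pf.T 2 2 (Pf.cons (Pf.W 2 0 [2] [1] (Pf.cons (Pf.B 3 2 (Pf.B 3 1 (Pf.T 3 0 (Pf.cons (Pf.T 3 1 (Pf.cons (Pf.T 3 2 (Pf.cons (Pf.W 2 0 [2,3] [1] (Pf.cons (Pf.B 4 3 (Pf.B 4 2 (Pf.C 1 0x608200) (Pf.B 4 1 (Pf.C 0 0x208004) (Pf.T 4 0 (Pf.cons (Pf.T 4 1 (Pf.cons (Pf.T 4 2 (Pf.cons (Pf.C 7 513) Pf.nil)) Pf.nil)) (Pf.cons (Pf.C 3 0x404004) Pf.nil))))) (Pf.B 4 1 (Pf.C 0 0x20c004) (Pf.T 4 0 (Pf.cons (Pf.T 4 1 (Pf.cons (Pf.T 4 2 (Pf.cons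 (Pf.C 7 513) Pf.nil)) Pf.nil)) (Pf.cons (Pf.C 3 0x604004) Pf.nil))))) Pf.nil)) Pf.nil)) Pf.nil)) (Pf.cons (Pf.T 3 3 (Pf.cons (Pf.W 2 0 [2,3] [1] (Pf.cons (Pf.B 4 3 (Pf.B 4 2 (Pf.C 1 0x608200) (Pf.B 4 1 (Pf.C 0 0x208004) (Pf.T 4 0 (Pf.cons (Pf.T 4 1 (Pf.cons (Pf.T 4 2 (Pf.cons (Pf.C 7 513) Pf.nil)) Pf.nil)) (Pf.cons (Pf.C 3 0x404004) Pf.nil))))) (Pf.B 4 1 (Pf.C 0 0x20c004) (Pf.T 4 0 (Pf.cons (Pf.T 4 1 (Pf.cons (Pf.T 4 2 (Pf.cons (Pf.C 7 513) Pf.nil)) Pf.nil)) (Pf.cons (Pf.C 3 0x604004) Pf.nil))))) Pf.nil)) Pf.nil)) Pf.nil))) (Pf.T 3 0 (Pf.cons (Pf.T 3 1 (Pf.cons (Pf.T 3 2 (Pf.cons (Pf.C 7 385) Pf.nil)) Pf.nil)) (Pf.cons (Pf.T 3 3 (Pf.cons (Pf.C 7 385) Pf.nil)) Pf.nil)))) (Pf.B 3 1 (Pf.C 0 0x208003)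 (Pf.T 3 0 (Pf.cons (Pf.T 3 1 (Pf.cons (Pf.T 3 2 (Pf.cons (Pf.C 7 385) Pf.nil)) Pf.nil)) (Pf.cons (Pf.C 3 0x404003) Pf.nil))))) Pf.nil)) Pf.nil)) Pf.nil)) (Pf.cons (Pf.T 2 3 (Pf.cons (Pf.W 2 0 [2] [1] (Pf.cons (Pf.B 3 2 (Pf.B 3 1 (Pf.T 3 0 (Pf.cons (Pf.T 3 1 (Pf.cons (Pf.T 3 2 (Pf.cons (Pf.W 2 0 [2,3] [1] (Pf.cons (Pf.B 4 3 (Pf.B 4 2 (Pf.C 1 0x608200) (Pf.B 4 1 (Pf.C 0 0x208004) (Pf.T 4 0 (Pf.cons (Pf.T 4 1 (Pf.cons (Pf.T 4 2 (Pf.cons (Pf.C 7 513) Pf.nil)) Pf.nil)) (Pf.cons (Pf.C 3 0x404004) Pf.nil))))) (Pf.B 4 1 (Pf.C 0 0x20c004) (Pf.T 4 0 (Pf.cons (Pf.T 4 1 (Pf.cons (Pf.T 4 2 (Pf.cons (Pf.C 7 513) Pf.nil)) Pf.nil)) (Pf.cons (Pf.C 3 0x604004) Pf.nil))))) Pf.nil)) Pf.nil)) Pf.nil)) (Pf.cons (Pf.T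 3 3 (Pf.cons (Pf.W 2 0 [2,3] [1] (Pf.cons (Pf.B 4 3 (Pf.B 4 2 (Pf.C 1 0x608200) (Pf.B 4 1 (Pf.C 0 0x208004) (Pf.T 4 0 (Pf.cons (Pf.T 4 1 (Pf.cons (Pf.T 4 2 (Pf.cons (Pf.C 7 513) Pf.nil)) Pf.nil)) (Pf.cons (Pf.C 3 0x404004) Pf.nil))))) (Pf.B 4 1 (Pf.C 0 0x20c004) (Pf.T 4 0 (Pf.cons (Pf.T 4 1 (Pf.cons (Pf.T 4 2 (Pf.cons (Pf.C 7 513) Pf.nil)) Pf.nil)) (Pf.cons (Pf.C 3 0x604004) Pf.nil))))) Pf.nil)) Pf.nil)) Pf.nil))) (Pf.T 3 0 (Pf.cons (Pf.T 3 1 (Pf.cons (Pf.T 3 2 (Pf.cons (Pf.C 7 385) Pf.nil)) Pf.nil)) (Pf.cons (Pf.T 3 3 (Pf.cons (Pf.C 7 385) Pf.nil)) Pf.nil)))) (Pf.B 3 1 (Pf.C 0 0x208003) (Pf.T 3 0 (Pf.cons (Pf.T 3 1 (Pf.cons (Pf.T 3 2 (Pf.cons (Pf.C 7 385) Pf.nil)) Pf.nil)) (Pf.cons (Pf.C 3 0x404003)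 Pf.nil))))) Pf.nil)) Pf.nil)) Pf.nil))) (Pf.T 2 0 (Pf.cons (Pf.T 2 1 (Pf.cons (Pf.T 2 2 (Pf.cons (Pf.C 7 257) Pf.nil)) Pf.nil)) (Pf.cons (Pf.T 2 3 (Pf.cons (Pf.C 7 257) Pf.nil)) Pf.nil)))) Pf.nil)))
 Pq.nil))
theorem g_o7 : AllRef g_T g_G9 (List.map pat1 [14,16]) :=
  chkPq_sound g_o7c _ (by decide +kernel)
noncomputable def g_o8c : Pq := (Pq.cons (Pq.L [0] 7 (Pf.T 3 4 (Pf.cons (Pf.T 2 4 (Pf.cons (Pf.T 1 4 (Pf.cons (Pf.W 4 3 [] [0,1,2] (Pf.cons (Pf.B 4 2 (Pf.B 4 1 (Pf.W 4 1 [] [0,2,3,4] (Pf.cons (Pf.B 5 3 (Pf.B 5 2 (Pf.B 5 4 (Pf.W 4 2 [] [0,1,3,4,5] (Pf.cons (Pf.B 6 3 (Pf.B 6 5 (Pf.B 6 4 (Pf.C 1 0xa10300) (Pf.B 6 1 (Pf.C 0 0x210006) (Pf.C 1 0x400086))) (Pf.C 0 0x600286)) (Pf.C 1 0x400186)) Pf.nil))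 (Pf.C 0 0x400205)) (Pf.C 1 0x200105)) (Pf.C 1 0x200185)) Pf.nil)) (Pf.C 1 0x600084)) (Pf.C 1 0x600104)) Pf.nil)) Pf.nil)) Pf.nil)) Pf.nil)))
 (Pq.cons (Pq.L [0] 7 (Pf.C 0 49409))
 (Pq.cons (Pq.L [0] 7 (Pf.T 3 5 (Pf.cons (Pf.T 2 5 (Pf.cons (Pf.T 1 5 (Pf.cons (Pf.W 6 3 [] [0,1,2] (Pf.cons (Pf.B 4 2 (Pf.B 4 1 (Pf.W 6 1 [] [0,2,3,4] (Pf.cons (Pf.B 5 3 (Pf.B 5 2 (Pf.B 5 4 (Pf.W 6 2 [] [0,1,3,4,5] (Pf.cons (Pf.B 6 3 (Pf.B 6 5 (Pf.B 6 4 (Pf.C 1 0xa10300) (Pf.B 6 1 (Pf.C 0 0x210006) (Pf.C 1 0x400086))) (Pf.C 0 0x600286)) (Pf.C 1 0x400186)) (Pf.cons (Pf.B 6 5 (Pf.B 6 4 (Pf.C 1 0xa10300) (Pf.C 3 0x400206)) (Pf.C 3 0x400286)) Pf.nil))) (Pf.C 0 0x400205)) (Pf.C 1 0x200105)) (Pf.C 1 0x200185)) (Pf.cons (Pf.B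 5 4 (Pf.B 5 2 (Pf.W 6 2 [] [0,1,4,5] (Pf.cons (Pf.B 6 5 (Pf.B 6 4 (Pf.C 1 0xa10300) (Pf.B 6 1 (Pf.C 0 0x210006) (Pf.C 1 0x400086))) (Pf.C 3 0x200305)) (Pf.cons (Pf.B 6 5 (Pf.B 6 4 (Pf.C 1 0xa10300) (Pf.C 3 0x400206)) (Pf.C 3 0x400286)) Pf.nil))) (Pf.C 1 0x200105)) (Pf.C 3 0x200205)) Pf.nil))) (Pf.C 1 0x600084)) (Pf.C 1 0x600104)) (Pf.cons (Pf.B 4 2 (Pf.B 4 1 (Pf.W 6 1 [] [0,2,3,4] (Pf.cons (Pf.B 5 4 (Pf.B 5 3 (Pf.B 5 2 (Pf.W 6 2 [] [0,3,4,5] (Pf.cons (Pf.B 6 4 (Pf.B 6 5 (Pf.C 1 0x814300) (Pf.B 6 3 (Pf.C 0 0x614006) (Pf.C 1 0x400186))) (Pf.C 3 0x600304)) (Pf.cons (Pf.B 6 5 (Pf.B 6 4 (Pf.C 1 0xa10300) (Pf.C 3 0x400206)) (Pf.C 3 0x400286)) Pf.nil))) (Pf.C 1 0x200105)) (Pf.C 1 0x200185)) (Pf.C 3 0x600284))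 (Pf.cons (Pf.B 5 4 (Pf.B 5 2 (Pf.W 6 2 [] [0,1,3,4,5] (Pf.cons (Pf.B 6 5 (Pf.B 6 4 (Pf.C 1 0xa10300) (Pf.C 3 0x600304)) (Pf.C 3 0x200305)) (Pf.cons (Pf.B 6 5 (Pf.B 6 4 (Pf.C 1 0xa10300) (Pf.C 3 0x400206)) (Pf.C 3 0x400286)) Pf.nil))) (Pf.C 1 0x200105)) (Pf.C 3 0x200205)) Pf.nil))) (Pf.C 1 0x600084)) (Pf.C 1 0x600104)) Pf.nil))) Pf.nil)) Pf.nil)) Pf.nil)))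
 (Pq.cons (Pq.L [0] 7 (Pf.C 0 49409))
 (Pq.cons (Pq.L [0] 0 (Pf.B 5 4 (Pf.B 5 3 (Pf.B 4 3 (Pf.C 1 0xa0c200) (Pf.B 4 2 (Pf.B 5 2 (Pf.C 1 0x808280) (Pf.B 5 1 (Pf.B 4 1 (Pf.C 1 0xa04200) (Pf.C 3 0x600084)) (Pf.C 3 0x400085))) (Pf.C 3 0x600104))) (Pf.B 5 2 (Pf.B 5 1 (Pf.B 4 2 (Pf.C 1 0xa08200) (Pf.B 4 1 (Pf.C 1 0xa04200) (Pf.C 3 0x400084))) (Pf.C 3 0x600085)) (Pf.C 3 0x600105))) (Pf.B 4 3 (Pf.B 4 2 (Pf.B 4 1 (Pf.B 3 2 (Pf.C 1 0x808180) (Pf.B 3 1 (Pf.C 1 0x804180) (Pf.C 3 0x400083))) (Pf.C 3 0xa00084)) (Pf.C 3 0xa00104)) (Pf.C 3 0xa00184))))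
 Pq.nil)))))
theorem g_o8 : AllRef g_T g_G10 (hitObl [9,11,12] g_h15) :=
  chkPq_sound g_o8c _ (by decide +kernel)
noncomputable def g_o9c : Pq := (Pq.cons (Pq.L [] 0 (Pf.C 8 1))
 (Pq.cons (Pq.L [] 0 (Pf.C 9 1))
 (Pq.cons (Pq.L [] 0 (Pf.C 10 1))
 Pq.nil)))
theorem g_o9 : AllRef g_T g_G11 (List.map pat1 [17,18,19]) :=
  chkPq_sound g_o9c _ (by decide +kernel)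
noncomputable def g_o10c : Pq := (Pq.cons (Pq.L [0] 7 (Pf.B 4 3 (Pf.C 1 0x20c200) (Pf.B 4 2 (Pf.C 1 0x208200) (Pf.B 3 2 (Pf.C 1 0x208180) (Pf.C 0 0x210103)))))
 Pq.nil)
theorem g_o10 : AllRef g_T g_G12 (applyObl TD2 1 [10] [0] [(10,1024)]) :=
  chkPq_sound g_o10c _ (by decide +kernel)

end Pool.Agent.Lib.MP_849b2e_co
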