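import Pool.Agent.Lib.MP_849b2e_co.AllR
import Pool.Agent.Lib.MP_849b2e_co.Tg
import Pool.Agent.Lib.MP_849b2e_co.Og_0

set_option maxRecDepth 100000
set_option linter.all false
namespace Pool.Agent.Lib.MP_849b2e_co

theorem g_n17  : Bd g_T g_G12 [10] :=
  r_apply lem_D2 [0] [(10,1024)] (by decide +kernel) g_o10
theorem g_n16  : Bd g_T g_G11 [17,10,18,19] :=
  r_kill [17,18,19] ⟨20,[],[],[]⟩ g_G12 [10] (by decide +kernel) g_o9 g_n17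
theorem g_n15  : Bd g_T g_G10 [9,10,11,12] :=
  r_hit [9,11,12] g_h15 ⟨17,[],[9,10,11],[]⟩ g_G11 [17,10,18,19] (by decide +kernel) g_o8 g_n16
theorem g_n14  : Bd g_T g_G10 [13,10,15,12] :=
  r_act [] [9,10,11,12] (by decide +kernel) g_n15
theorem g_n13  : Bd g_T g_G9 [13,14,10,15,16,12] :=
  r_kill [14,16] ⟨17,[],[],[]⟩ g_G10 [13,10,15,12] (by decide +kernel) g_o7 g_n14
theorem g_n12  : Bd g_T g_G9 [9,10,11,12] :=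
  r_act [4,5] [13,14,10,15,16,12] (by decide +kernel) g_n13
theorem g_n11  : Bd g_T g_G8 [9,10,11,12] :=
  r_def 11 0 [10,12] [] ⟨15,[6],[7,0,8],[]⟩ g_G9 [9,10,11,12] (by decide +kernel) g_n12
theorem g_n10  : Bd g_T g_G7 [9,10,11,12] :=
  r_def 9 0 [10] [] ⟨13,[5],[5,0,6],[]⟩ g_G8 [9,10,11,12] (by decide +kernel) g_n11
theorem g_n9  : Bd g_T g_G7 [5,6] :=
  r_act [1,2,3] [9,10,11,12] (by decide +kernel) g_n10
theorem g_n8  : Bd g_T g_G6 [5,6] :=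
  r_psplit 6 [] (PT.br 0 PT.kid PT.kid) ⟨11,[4],[],[]⟩ g_G7 [5,6] (by decide +kernel) g_o6 g_n9
theorem g_n7  : Bd g_T g_G5 [5,6] :=
  r_psplit 8 [] (PT.br 0 PT.kid PT.kid) ⟨9,[3],[],[]⟩ g_G6 [5,6] (by decide +kernel) g_o5 g_n8
theorem g_n6  : Bd g_T g_G4 [5,6] :=
  r_psplit 5 [0] PT.kid ⟨8,[2],[],[]⟩ g_G5 [5,6] (by decide +kernel) g_o4 g_n7
theorem g_n5  : Bd g_T g_G3 [6] :=
  r_apply lem_D2 [0] [] (by decide +kernel) g_o3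
theorem g_n4  : Bd g_T g_G2 [5,6] :=
  r_ext 5 2 [5,6] [] [] [] [] ⟨7,[],[],[]⟩ g_G3 [6] ⟨7,[],[],[]⟩ g_G4 [5,6] (by decide +kernel) g_o2 g_n5 g_n6
theorem g_n3  : Bd g_T g_G2 [2] :=
  r_act [0] [5,6] (by decide +kernel) g_n4
theorem g_n2  : Bd g_T g_G1 [2] :=
  r_def 2 2 [2] [] ⟨5,[1],[3,0,0,0,4],[]⟩ g_G2 [2] (by decide +kernel) g_n3
theorem g_n1  : Bd g_T g_G0 [1] :=
  r_block [0] [1] [1] ⟨2,[],[],[]⟩ g_G1 [2] (by decide +kernel) g_o1 g_n2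
theorem g_n0  : Bd g_T (pureCtx 0 2) (pureAct 0) :=
  show Bd _ _ [0] from r_twin 0 [1] ⟨1,[],[],[]⟩ g_G0 [1] (by decide +kernel) g_o0 g_n1
theorem lem_g  : Lem g_T 0 2 := ⟨by decide +kernel, g_n0⟩

end Pool.Agent.Lib.MP_849b2e_co
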