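import Pool.Agent.Lib.MP_849b2e_co.Graph

/-!
The bounded cases that are proved by hand.
-/

namespace Pool.Agent.Lib.MP_849b2e_co

variable {α β : Type}

theorem hand_blocks {E : Adj} {S : Finset ℕ} {c : ℕ} (r : ℕ → ℕ → Prop)
    (hrefl : ∀ u, r u u) (hsymm : ∀ u ∈ S, ∀ v ∈ S, r u v → r v u)
    (htrans : ∀ u ∈ S, ∀ v ∈ S, ∀ w ∈ S, r u v → r v w → r u w)
    (hE : ∀ u ∈ S, ∀ v ∈ S, ¬ r u v → E u v = false)
    (hc : ∀ x ∈ S, ∀ K : Finset ℕ, (∀ v, v ∈ K ↔ v ∈ S ∧ r x v) → LW E K c) :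
    LW E S (1 + c * 1) := by
  classical
  let b : ℕ → ℕ := fun v => sInf {u | u ∈ S ∧ r v u}
  have hb : ∀ v ∈ S, b v ∈ S ∧ r v (b v) := fun v hv =>
    Nat.sInf_mem (s := {u | u ∈ S ∧ r v u}) ⟨v, hv, hrefl v⟩
  have hb2 : ∀ u ∈ S, ∀ v ∈ S, r u v → b u = b v := by
    intro u hu v hv h
    have : {w | w ∈ S ∧ r u w} = {w | w ∈ S ∧ r v w} := by
      ext w
      exact ⟨fun hw => ⟨hw.1, htrans v hv u hu w hw.1 (hsymm u hu v hv h) hw.2⟩,
        fun hw => ⟨hw.1, htrans u hu v hv w hw.1 h hw.2⟩⟩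
    simp only [b, this]
  refine LW.blocks b (fun i => ?_) (fun i => ?_)
  · by_cases hi : i ∈ S
    · refine (hc i hi (S.filter (r i)) (fun v => Finset.mem_filter)).mono (fun v hv => ?_) le_rfl
      rw [Finset.mem_filter] at hv ⊢
      refine ⟨hv.1, hsymm v hv.1 i hi ?_⟩
      rw [← hv.2]; exact (hb v hv.1).2
    · refine (LW.empty E c).mono (fun v hv => ?_) le_rfl
      rw [Finset.mem_filter] at hv
      exact absurd (hv.2 ▸ (hb v hv.1).1) hi
  · refine ⟨fun _ => 0, fun _ _ => Nat.one_pos, fun u hu v hv _ w hw => ?_⟩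
    rw [Finset.mem_filter] at hu hv hw
    rw [hE u hu.1 w hw.1 (fun h => by have := hb2 u hu.1 w hw.1 h; omega),
      hE v hv.1 w hw.1 (fun h => by have := hb2 v hv.1 w hw.1 h; omega)]

theorem hand_clique {E : Adj} {K : Finset ℕ}
    (h : ∀ u ∈ K, ∀ v ∈ K, u ≠ v → E u v = true) : LW E K 1 := by
  refine ⟨id, fun _ _ _ _ e => e, fun i => ⟨fun _ => 0, fun _ _ => Nat.one_pos, ?_⟩⟩
  intro u hu v hv _ w hw
  simp only [Finset.mem_filter, id] at hu hv hw
  rw [h u hu.1 w hw.1 (by omega), h v hv.1 w hw.1 (by omega)]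

theorem hand_P3 {E : Adj} (hE : ∀ u v, E u v = E v u) {S : Finset ℕ}
    (h : ∀ u ∈ S, ∀ v ∈ S, ∀ w ∈ S, u ≠ v → v ≠ w → u ≠ w → E u v = true → E v w = true →
      E u w = true) : LW E S 2 := by
  have htrans : ∀ u ∈ S, ∀ v ∈ S, ∀ w ∈ S, (u = v ∨ E u v = true) → (v = w ∨ E v w = true) →
      (u = w ∨ E u w = true) := by
    intro u hu v hv w hw h1 h2
    by_cases a : u = v
    · rw [a]; exact h2
    by_cases b : v = w
    · rw [← b]; exact h1
    by_cases d : u = w
    · exact Or.inl d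
    exact Or.inr (h u hu v hv w hw a b d (h1.resolve_left a) (h2.resolve_left b))
  have hsymm : ∀ u v, (u = v ∨ E u v = true) → (v = u ∨ E v u = true) := by
    intro u v h1
    rw [hE v u]
    exact h1.imp Eq.symm id
  refine hand_blocks (c := 1) (fun u v => u = v ∨ E u v = true) (fun u => Or.inl rfl)
    (fun u _ v _ => hsymm u v) htrans (fun u _ v _ h1 => ?_) (fun x hx K hK => ?_)
  · cases e : E u v
    · rfl
    · exact absurd (Or.inr e) h1
  · refine hand_clique fun u hu v hv uv => ?_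
    have a := (hK u).1 hu
    have b := (hK v).1 hv
    exact (htrans u a.1 x hx v b.1 (hsymm _ _ a.2) b.2).resolve_left uv

theorem hand_ind3 {E : Adj} (hE : ∀ u v, E u v = E v u) {S : Finset ℕ} (l : List (ℕ × ℕ))
    {a b c : ℕ} (ha : a ∈ S) (hb : b ∈ S) (hc : c ∈ S) (ab : a ≠ b) (ac : a ≠ c) (bc : b ≠ c)
    (e1 : E a b = adjL l 0 1) (e2 : E a c = adjL l 0 2) (e3 : E b c = adjL l 1 2) :
    IndIn (gr 3 l) E S := by
  have hs : ∀ i j, adjL l i j = adjL l j i := by
    intro i j; simp only [adjL, Bool.or_comm]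
  refine ⟨![a, b, c], ?_, ?_, ?_⟩
  · intro i j
    fin_cases i <;> fin_cases j <;> simp [ab, ac, bc, ab.symm, ac.symm, bc.symm]
  · intro i
    fin_cases i <;> simpa
  · intro i j ij
    rw [gr_adj]
    fin_cases i <;> fin_cases j <;>
      simp [e1, e2, e3, hE b a, hE c a, hE c b, hs 1 0, hs 2 0, hs 2 1] at ij ⊢

theorem hand_paw {E : Adj} (hE : ∀ u v, E u v = E v u) {S : Finset ℕ}
    {a b c d : ℕ} (ha : a ∈ S) (hb : b ∈ S) (hc : c ∈ S) (hd : d ∈ S) (ab : a ≠ b) (ac : a ≠ c)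
    (bc : b ≠ c) (ad : a ≠ d) (bd : b ≠ d) (cd : c ≠ d)
    (e1 : E a b = true) (e2 : E a c = true) (e3 : E b c = true) (e4 : E c d = true)
    (e5 : E a d = false) (e6 : E b d = false) : IndIn gPaw E S := by
  refine ⟨![a, b, c, d], ?_, ?_, ?_⟩
  · intro i j
    fin_cases i <;> fin_cases j <;>
      simp [ab, ac, bc, ad, bd, cd, ab.symm, ac.symm, bc.symm, ad.symm, bd.symm, cd.symm]
  · intro i
    fin_cases i <;> simpa
  · intro i j ij
    rw [gr_adj]
    fin_cases i <;> fin_cases j <;>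
      simp [e1, e2, e3, e4, e5, e6, hE b a, hE c a, hE c b, hE d a, hE d b, hE d c, adjL] at ij ⊢

/-- In a connected paw-free graph with a triangle every edge is dominating. -/
theorem hand_olariu {V : Type} (A : V → V → Prop) (hs : ∀ u v, A u v → A v u)
    (hp : ∀ a b c d, A a b → A a c → A b c → A c d → a ≠ d → b ≠ d → A a d ∨ A b d)
    {a b c : V} (hab : A a b) (hac : A a c) (hbc : A b c) {u v w : V}
    (hu : Relation.ReflTransGen A a u) (huv : A u v) (hw : Relation.ReflTransGen A u w) :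
    w = u ∨ w = v ∨ A u w ∨ A v w := by
  have edge : ∀ x y, (∃ p q, A x p ∧ A x q ∧ A p q) → A x y → ∃ z, A x z ∧ A y z := by
    rintro x y ⟨p, q, h1, h2, h3⟩ hxy
    by_cases e1 : p = y
    · exact ⟨q, h2, e1 ▸ h3⟩
    by_cases e2 : q = y
    · exact ⟨p, h1, e2 ▸ hs _ _ h3⟩
    rcases hp p q x y h3 (hs _ _ h1) (hs _ _ h2) hxy e1 e2 with h | h
    · exact ⟨p, h1, hs _ _ h⟩
    · exact ⟨q, h2, hs _ _ h⟩
  have tri : ∀ x, Relation.ReflTransGen A a x → ∃ p q, A x p ∧ A x q ∧ A p q := by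
    intro x hx
    induction hx with
    | refl => exact ⟨b, c, hab, hac, hbc⟩
    | tail _ hxy ih =>
      obtain ⟨z, h1, h2⟩ := edge _ _ ih hxy
      exact ⟨_, z, hs _ _ hxy, h2, h1⟩
  obtain ⟨z, huz, hvz⟩ := edge u v (tri u hu) huv
  have step : ∀ x y p q, A x y → A x z → A y z → A x p → A p q → p ≠ y →
      q = x ∨ q = y ∨ A x q ∨ A y q := by
    intro x y p q hxy hxz hyz hxp hpq py
    by_contra hn
    simp only [not_or] at hn
    obtain ⟨n1, n2, n3, n4⟩ := hn
    by_cases hyp : A y p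
    · rcases hp x y p q hxy hxp hyp hpq (Ne.symm n1) (Ne.symm n2) with h | h
      · exact n3 h
      · exact n4 h
    have zp : z ≠ p := fun e => hyp (e ▸ hyz)
    have hzp : A z p :=
      (hp y z x p hyz (hs _ _ hxy) (hs _ _ hxz) hxp (Ne.symm py) zp).resolve_left hyp
    have zq : z ≠ q := fun e => n3 (e ▸ hxz)
    have hzq : A z q := (hp x z p q hxz hxp hzp hpq (Ne.symm n1) zq).resolve_left n3
    rcases hp x y z q hxy hxz hyz hzq (Ne.symm n1) (Ne.symm n2) with h | h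
    · exact n3 h
    · exact n4 h
  induction hw with
  | refl => exact Or.inl rfl
  | @tail p q _ hpq ih =>
    by_cases pu : p = u
    · exact Or.inr (Or.inr (Or.inl (pu ▸ hpq)))
    by_cases pv : p = v
    · exact Or.inr (Or.inr (Or.inr (pv ▸ hpq)))
    rcases ih with h | h | h | h
    · exact absurd h pu
    · exact absurd h pv
    · exact step u v p q huv huz hvz h hpq pv
    · have := step v u p q (hs _ _ huv) hvz huz h hpq pu
      tauto

/-- `P₃`-free graphs. -/
theorem bdN_P3 (B : SimpleGraph β) : BdN gP3 B := by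
  refine ⟨2, fun E hE S h _ => hand_P3 hE fun u hu v hv w hw uv vw uw e1 e2 => ?_⟩
  cases e3 : E u w
  · exact absurd (hand_ind3 hE [(0, 1), (1, 2)] hu hv hw uv uw vw e1 e3 e2) h
  · rfl

/-- Ramsey. -/
theorem bdN_ramsey [Fintype α] [Fintype β] :
    BdN (⊤ : SimpleGraph α) (⊥ : SimpleGraph β) := by
  obtain ⟨N, hN⟩ := ramsey2 (Fintype.card β) (Fintype.card α)
  refine ⟨N, fun E hE S h1 h2 => ?_⟩
  have key : ∀ (γ : Type) [Fintype γ] (t : Finset ℕ) (x : Bool), Fintype.card γ ≤ t.card →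
      (∀ i ∈ t, ∀ j ∈ t, i < j → E i j = x) →
      ∃ f : γ → ℕ, Function.Injective f ∧ (∀ a, f a ∈ t) ∧ ∀ a b, a ≠ b → E (f a) (f b) = x := by
    intro γ _ t x hc ht
    obtain ⟨f⟩ : Nonempty (γ ↪ t) :=
      Function.Embedding.nonempty_of_card_le (by simpa using hc)
    have hf : Function.Injective fun a => (f a : ℕ) := Subtype.val_injective.comp f.injective
    refine ⟨fun a => f a, hf, fun a => (f a).2, fun a b ab => ?_⟩
    rcases lt_or_gt_of_ne (hf.ne ab) with h | h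
    · exact ht _ (f a).2 _ (f b).2 h
    · rw [hE]; exact ht _ (f b).2 _ (f a).2 h
  by_cases hS : N ≤ S.card
  · exfalso
    obtain ⟨t, ht, h | h⟩ := hN E S hS
    · obtain ⟨f, f1, f2, f3⟩ := key β t false h.1 h.2
      exact h2 ⟨f, f1, fun a => ht (f2 a), fun a b ab => by simp [f3 a b ab]⟩
    · obtain ⟨f, f1, f2, f3⟩ := key α t true h.1 h.2
      exact h1 ⟨f, f1, fun a => ht (f2 a), fun a b ab => by simp [f3 a b ab, ab]⟩
  · exact (LW.card E S).mono subset_rfl (by omega)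

/-- Paw-free graphs (Olariu). -/
theorem bdN_paw {B : SimpleGraph β} (h : BdN gK3 B) : BdN gPaw B := by
  obtain ⟨c, h⟩ := h
  refine ⟨1 + (c + 2) * 1, fun E hE S h1 h2 => ?_⟩
  let A : ℕ → ℕ → Prop := fun u v => u ∈ S ∧ v ∈ S ∧ u ≠ v ∧ E u v = true
  have hs : ∀ u v, A u v → A v u := fun u v a => ⟨a.2.1, a.1, a.2.2.1.symm, hE u v ▸ a.2.2.2⟩
  have hrs : ∀ u v, Relation.ReflTransGen A u v → Relation.ReflTransGen A v u := by
    intro u v a
    induction a with
    | refl => exact Relation.ReflTransGen.refl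
    | tail _ e ih => exact Relation.ReflTransGen.head (hs _ _ e) ih
  have hp : ∀ a b c d, A a b → A a c → A b c → A c d → a ≠ d → b ≠ d → A a d ∨ A b d := by
    intro a b c d e1 e2 e3 e4 ad bd
    cases e5 : E a d
    · cases e6 : E b d
      · exact absurd (hand_paw hE e1.1 e1.2.1 e4.1 e4.2.1 e1.2.2.1 e2.2.2.1 e3.2.2.1 ad bd
          e4.2.2.1 e1.2.2.2 e2.2.2.2 e3.2.2.2 e4.2.2.2 e5 e6) h1
      · exact Or.inr ⟨e3.1, e4.2.1, bd, e6⟩
    · exact Or.inl ⟨e1.1, e4.2.1, ad, e5⟩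
  refine hand_blocks (Relation.ReflTransGen A) (fun _ => Relation.ReflTransGen.refl)
    (fun u _ v _ => hrs u v) (fun _ _ _ _ _ _ a b => a.trans b) (fun u hu v hv a => ?_)
    (fun x _ K hK => ?_)
  · cases e : E u v
    · rfl
    · refine absurd ?_ a
      by_cases uv : u = v
      · rw [uv]
      · exact Relation.ReflTransGen.single ⟨hu, hv, uv, e⟩
  · have hKS : K ⊆ S := fun v hv => ((hK v).1 hv).1
    by_cases ht : IndIn gK3 E K
    · obtain ⟨y, y1, y2, y3⟩ := ht
      have hA : ∀ i j : Fin 3, i ≠ j → A (y i) (y j) := fun i j ij =>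
        ⟨hKS (y2 i), hKS (y2 j), y1.ne ij, (y3 i j ij).2 (by
          rw [gr_adj]; revert i j; decide)⟩
      have hc : LW (fun u v => !E u v) K 2 := by
        refine hand_P3 (fun u v => by rw [hE]) fun u hu v hv w hw uv vw uw e1 e2 => ?_
        cases e3 : E u w
        · rfl
        · exfalso
          have ru := ((hK u).1 hu).2
          have rv := ((hK v).1 hv).2
          have r0 := ((hK _).1 (y2 0)).2
          have := hand_olariu A hs hp (hA 0 1 (by decide)) (hA 0 2 (by decide))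
            (hA 1 2 (by decide)) ((hrs _ _ r0).trans ru) ⟨hKS hu, hKS hw, uw, e3⟩
            ((hrs _ _ ru).trans rv)
          rcases this with a | a | a | a
          · exact uv a.symm
          · exact vw a
          · simp [a.2.2.2] at e1
          · simp [hE v w, a.2.2.2] at e2
      have := LW.flip (E := E) (fun _ => 0) (fun _ _ => true) (k := 1) (by simp) (by simp) hc
      exact this.mono subset_rfl (by omega)
    · exact (h E hE K ht (fun a => h2 (a.mono hKS))).mono subset_rfl (by omega)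

end Pool.Agent.Lib.MP_849b2e_co
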