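import Pool.Agent.Lib.MP_849b2e_co.Codes
import Pool.Agent.Lib.MP_849b2e_co.Ld
import Pool.Agent.Lib.MP_849b2e_co.Hand

/-!
The pair (paw, P₁ + S₁,₁,₃).
-/

namespace Pool.Agent.Lib.MP_849b2e_co

theorem bdN_paw_d : BdN cPaw.g cP1S113.g := bdN_paw (lem_d.bdN 3 _ 7 _ (by decide +kernel))

end Pool.Agent.Lib.MP_849b2e_co
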