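import Pool.Agent.Lib.MP_849b2e_co.FinalBad
import Pool.Agent.Lib.MP_849b2e_co.Cls
import Pool.Agent.Lib.MP_849b2e_co.Cogr
import Pool.Agent.Lib.MP_849b2e_co.Bridge
import Pool.Agent.Lib.MP_849b2e_co.PairsD
import Pool.Agent.Lib.MP_849b2e_co.La
import Pool.Agent.Lib.MP_849b2e_co.Lb
import Pool.Agent.Lib.MP_849b2e_co.Lc
import Pool.Agent.Lib.MP_849b2e_co.Le
import Pool.Agent.Lib.MP_849b2e_co.Lf
import Pool.Agent.Lib.MP_849b2e_co.Lg
import Pool.Agent.Lib.MP_849b2e_co.Lh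

/-!
The dichotomy.
-/

namespace Pool.Agent.Lib.MP_849b2e_co

theorem Good.bdN {α β : Type} [Fintype α] [Fintype β] {A : SimpleGraph α} {B : SimpleGraph β}
    (h : Good A B) : BdN A B := by
  have r : ∀ {γ : Type} (X : SimpleGraph γ), X.IsIndContained X := fun X => ⟨.refl⟩
  rcases h with h | ⟨h, h1, h2, h3⟩ | ⟨rfl, rfl⟩ | ⟨h, h'⟩ | ⟨h, h'⟩ | ⟨h, h'⟩ | ⟨h, h'⟩
  · exact (bdN_P3 B).mono h (r _)
  · exact (bdN_P4 B h1 h2 h3).mono h (r _)
  · exact bdN_ramsey
  · rcases h' with rfl | h' | h' | h' | h'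
    · have e : gK3 = ⊤ := by
        ext a b
        rw [gr_adj]
        revert a b
        decide
      refine (bdN_paw ?_).mono h (r _)
      rw [e]
      exact bdN_ramsey
    · exact (bdN_paw (lem_a.bdN 3 _ 7 _ (by decide +kernel))).mono h h'
    · exact (bdN_paw (lem_b.bdN 3 _ 6 _ (by decide +kernel))).mono h h'
    · exact (bdN_paw (lem_c.bdN 3 _ 6 _ (by decide +kernel))).mono h h'
    · exact bdN_paw_d.mono h h'
  · rcases h' with h' | h'
    · exact (lem_e.bdN 4 _ 6 _ (by decide +kernel)).mono h h'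
    · exact (lem_f.bdN 4 _ 6 _ (by decide +kernel)).mono h h'
  · exact (lem_g.bdN 4 _ 4 _ (by decide +kernel)).mono h h'
  · rw [← show gr 5 (Code.co (5, [(2, 3), (3, 4)])).2 = (gr 5 [(2, 3), (3, 4)])ᶜ from
      Code.co_g (5, [(2, 3), (3, 4)])] at h
    exact (lem_h.bdN 5 _ 5 _ (by decide +kernel)).mono h h'

theorem dichotomy {α β : Type} [Fintype α] [Fintype β] (A : SimpleGraph α) (B : SimpleGraph β) :
    BoundedLcw A B ↔ Good A B ∨ Good B A ∨ Good Aᶜ Bᶜ ∨ Good Bᶜ Aᶜ := by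
  rw [bounded_iff]
  constructor
  · intro h
    refine (classify A B).resolve_right ?_
    rintro (c | c | c | c)
    · exact c.not_bdN h
    · exact c.not_bdN h.symm
    · exact c.not_bdN h.compl
    · exact c.not_bdN h.compl.symm
  · rintro (c | c | c | c)
    · exact c.bdN
    · exact c.bdN.symm
    · exact c.bdN.of_compl
    · exact c.bdN.symm.of_compl

end Pool.Agent.Lib.MP_849b2e_co
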