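import Pool.Agent.Lib.MP_849b2e_co.Graph

/-!
Lower bounds on the order width for grid-like graphs.
-/

namespace Pool.Agent.Lib.MP_849b2e_co

/-- Left vertices pairwise separated by right vertices are at most as many as the classes. -/
theorem grid_tool {E : Adj} {S : Finset ℕ} {pos : ℕ → ℕ} {t k : ℕ}
    (h : Cut E (S.filter (fun v => pos v < t)) (S.filter (fun v => t ≤ pos v)) k)
    (I : Finset ℕ) (u : ℕ → ℕ) (hu : ∀ i ∈ I, u i ∈ S ∧ pos (u i) < t)
    (sep : ∀ i ∈ I, ∀ j ∈ I, i < j → ∃ w ∈ S, t ≤ pos w ∧ E (u i) w ≠ E (u j) w) :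
    I.card ≤ k := by
  obtain ⟨f, h1, h2⟩ := h
  have hm : ∀ i ∈ I, u i ∈ S.filter (fun v => pos v < t) :=
    fun i hi => Finset.mem_filter.2 (hu i hi)
  have key : ∀ i ∈ I, ∀ j ∈ I, i < j → f (u i) ≠ f (u j) := by
    intro i hi j hj hij e
    obtain ⟨w, hw, hw', hne⟩ := sep i hi j hj hij
    exact hne (h2 _ (hm i hi) _ (hm j hj) e w (Finset.mem_filter.2 ⟨hw, hw'⟩))
  have : I.card ≤ (Finset.range k).card := by
    refine Finset.card_le_card_of_injOn (fun i => f (u i)) ?_ ?_
    · intro i hi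
      exact Finset.mem_coe.2 (Finset.mem_range.2 (h1 _ (hm i (Finset.mem_coe.1 hi))))
    · intro i hi j hj e
      rcases lt_trichotomy i j with hij | hij | hij
      · exact absurd e (key i (Finset.mem_coe.1 hi) j (Finset.mem_coe.1 hj) hij)
      · exact hij
      · exact absurd e.symm (key j (Finset.mem_coe.1 hj) i (Finset.mem_coe.1 hi) hij)
  simpa using this

/-- At most `2k` lines have cells on both sides of a cut. -/
theorem grid_mixed {E : Adj} (hE : ∀ u v, E u v = E v u) {S : Finset ℕ} {pos : ℕ → ℕ}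
    {t k n : ℕ}
    (h : Cut E (S.filter (fun v => pos v < t)) (S.filter (fun v => t ≤ pos v)) k)
    (a : ℕ → ℕ) (g : ℕ → ℕ → ℕ) (ha : ∀ i < n, a i ∈ S) (hg : ∀ i < n, ∀ j < n, g i j ∈ S)
    (hadj : ∀ i < n, ∀ j < n, ∀ l < n, E (g i j) (a l) = decide (l ≤ i))
    (M : Finset ℕ)
    (hM : ∀ i ∈ M, i < n ∧ (∃ j < n, pos (g i j) < t) ∧ ∃ j < n, t ≤ pos (g i j)) :
    M.card ≤ 2 * k := by
  classical
  have hsplit := Finset.card_filter_add_card_filter_not (s := M) (fun i => pos (a i) < t)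
  have b1 : (M.filter (fun i => pos (a i) < t)).card ≤ k := by
    refine grid_tool h _ a ?_ ?_
    · intro i hi
      obtain ⟨hi1, hi2⟩ := Finset.mem_filter.1 hi
      exact ⟨ha i (hM i hi1).1, hi2⟩
    · intro i hi i' hi' hlt
      obtain ⟨hi1, _⟩ := Finset.mem_filter.1 hi
      obtain ⟨hi1', _⟩ := Finset.mem_filter.1 hi'
      obtain ⟨hin, _, j, hj, hjr⟩ := hM i hi1
      have hin' := (hM i' hi1').1
      refine ⟨g i j, hg i hin j hj, hjr, ?_⟩
      rw [hE (a i), hE (a i'), hadj i hin j hj i hin, hadj i hin j hj i' hin']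
      have : ¬ i' ≤ i := by omega
      simp [this]
  have b2 : (M.filter (fun i => ¬ pos (a i) < t)).card ≤ k := by
    have hex : ∀ i, ∃ j, i ∈ M → j < n ∧ pos (g i j) < t := by
      intro i
      by_cases hi : i ∈ M
      · obtain ⟨_, ⟨j, hj, hjl⟩, _⟩ := hM i hi
        exact ⟨j, fun _ => ⟨hj, hjl⟩⟩
      · exact ⟨0, fun h => absurd h hi⟩
    choose J hJ using hex
    refine grid_tool h _ (fun i => g i (J i)) ?_ ?_
    · intro i hi
      obtain ⟨hi1, _⟩ := Finset.mem_filter.1 hi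
      exact ⟨hg i (hM i hi1).1 _ (hJ i hi1).1, (hJ i hi1).2⟩
    · intro i hi i' hi' hlt
      obtain ⟨hi1, _⟩ := Finset.mem_filter.1 hi
      obtain ⟨hi1', hi2'⟩ := Finset.mem_filter.1 hi'
      have hin := (hM i hi1).1
      have hin' := (hM i' hi1').1
      refine ⟨a i', ha i' hin', by omega, ?_⟩
      rw [hadj i hin _ (hJ i hi1).1 i' hin', hadj i' hin' _ (hJ i' hi1').1 i' hin']
      have : ¬ i' ≤ i := by omega
      simp [this]
  omega

/-- Grid lemma: cells `c i j`, `d i j` (equal or matched), rows cut by `a`, columns by `b`. -/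
theorem grid_not_lw (k : ℕ) : ∃ n, ∀ (E : Adj), (∀ u v, E u v = E v u) → ∀ (S : Finset ℕ)
    (a b : ℕ → ℕ) (c d : ℕ → ℕ → ℕ),
    (∀ i < n, a i ∈ S ∧ b i ∈ S ∧ ∀ j < n, c i j ∈ S ∧ d i j ∈ S) →
    (∀ i < n, ∀ j < n, ∀ i' < n, ∀ j' < n, c i j = c i' j' → i = i' ∧ j = j') →
    (∀ i < n, ∀ j < n, ∀ l < n, E (c i j) (a l) = decide (l ≤ i)) →
    (∀ i < n, ∀ j < n, ∀ l < n, E (d i j) (b l) = decide (l ≤ j)) →
    ((∀ i < n, ∀ j < n, d i j = c i j) ∨
      ∀ i < n, ∀ j < n, ∀ i' < n, ∀ j' < n, E (c i j) (d i' j') = decide (i = i' ∧ j = j')) →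
    ¬ LW E S k := by
  classical
  refine ⟨4 * k + 2, ?_⟩
  generalize hn : 4 * k + 2 = n
  intro E hE S a b c d hS hinj hrow hcol hcd ⟨pos, hpos, hcut⟩
  have hcS : ∀ i < n, ∀ j < n, c i j ∈ S := fun i hi j hj => ((hS i hi).2.2 j hj).1
  have hdS : ∀ i < n, ∀ j < n, d i j ∈ S := fun i hi j hj => ((hS i hi).2.2 j hj).2
  have hex : ∃ t, ∃ i < n, ∀ j < n, pos (c i j) < t := by
    refine ⟨(Finset.range n).sup (fun j => pos (c 0 j)) + 1, 0, by omega, fun j hj => ?_⟩
    exact Nat.lt_succ_of_le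
      (Finset.le_sup (f := fun j => pos (c 0 j)) (Finset.mem_range.2 hj))
  obtain ⟨i0, hi0, hleft⟩ := Nat.find_spec hex
  have hmin := fun s (hs : s < Nat.find hex) => Nat.find_min hex hs
  generalize Nat.find hex = t at hleft hmin
  have ht : 0 < t := by
    have := hleft 0 (by omega)
    omega
  obtain ⟨s, rfl⟩ : ∃ s, t = s + 1 := ⟨t - 1, by omega⟩
  have hno := hmin s (by omega)
  -- a row entirely on the right of the cut `s + 1`
  have hright : ∃ i < n, ∀ j < n, s + 1 ≤ pos (c i j) := by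
    have hsplit := Finset.card_filter_add_card_filter_not (s := Finset.range n)
      (fun i => ∃ j < n, pos (c i j) < s)
    have hM := grid_mixed hE (hcut s) a c (fun i hi => (hS i hi).1) hcS hrow
      ((Finset.range n).filter (fun i => ∃ j < n, pos (c i j) < s)) (by
        intro i hi
        obtain ⟨hi1, hi2⟩ := Finset.mem_filter.1 hi
        have hin := Finset.mem_range.1 hi1
        refine ⟨hin, hi2, ?_⟩
        by_contra hc
        refine hno ⟨i, hin, fun j hj => ?_⟩
        by_contra hj'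
        exact hc ⟨j, hj, by omega⟩)
    rw [Finset.card_range] at hsplit
    obtain ⟨i1, h1, i2, h2, hne⟩ := Finset.one_lt_card.1
      (show 1 < ((Finset.range n).filter (fun i => ¬ ∃ j < n, pos (c i j) < s)).card by omega)
    obtain ⟨h1a, h1b⟩ := Finset.mem_filter.1 h1
    obtain ⟨h2a, h2b⟩ := Finset.mem_filter.1 h2
    have h1n := Finset.mem_range.1 h1a
    have h2n := Finset.mem_range.1 h2a
    by_contra hc
    have hc' : ∀ i < n, ∃ j < n, pos (c i j) < s + 1 := by
      intro i hi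
      by_contra hh
      refine hc ⟨i, hi, fun j hj => ?_⟩
      by_contra hj'
      exact hh ⟨j, hj, by omega⟩
    obtain ⟨j1, hj1, e1⟩ := hc' i1 h1n
    obtain ⟨j2, hj2, e2⟩ := hc' i2 h2n
    have f1 : ¬ pos (c i1 j1) < s := fun hh => h1b ⟨j1, hj1, hh⟩
    have f2 : ¬ pos (c i2 j2) < s := fun hh => h2b ⟨j2, hj2, hh⟩
    have e : c i1 j1 = c i2 j2 :=
      hpos (Finset.mem_coe.2 (hcS i1 h1n j1 hj1)) (Finset.mem_coe.2 (hcS i2 h2n j2 hj2))
        (by omega)
    exact hne (hinj i1 h1n j1 hj1 i2 h2n j2 hj2 e).1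
  obtain ⟨i1, hi1, hright⟩ := hright
  -- few cells of these two rows have their partner on the other side
  have m0 : ((Finset.range n).filter (fun j => s + 1 ≤ pos (d i0 j))).card ≤ k := by
    rcases hcd with hcd | hcd
    · have : (Finset.range n).filter (fun j => s + 1 ≤ pos (d i0 j)) = ∅ := by
        refine Finset.filter_eq_empty_iff.2 fun j hj => ?_
        have hj' := Finset.mem_range.1 hj
        rw [hcd i0 hi0 j hj']
        have := hleft j hj'
        omega
      rw [this]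
      simp
    · refine grid_tool (hcut (s + 1)) _ (fun j => c i0 j) ?_ ?_
      · intro j hj
        have hj' := Finset.mem_range.1 (Finset.mem_filter.1 hj).1
        exact ⟨hcS i0 hi0 j hj', hleft j hj'⟩
      · intro j hj j' hj' hlt
        have a1 := Finset.mem_range.1 (Finset.mem_filter.1 hj).1
        have a2 := Finset.mem_range.1 (Finset.mem_filter.1 hj').1
        refine ⟨d i0 j, hdS i0 hi0 j a1, (Finset.mem_filter.1 hj).2, ?_⟩
        rw [hcd i0 hi0 j a1 i0 hi0 j a1, hcd i0 hi0 j' a2 i0 hi0 j a1]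
        have : ¬ j' = j := by omega
        simp [this]
  have m1 : ((Finset.range n).filter (fun j => pos (d i1 j) < s + 1)).card ≤ k := by
    rcases hcd with hcd | hcd
    · have : (Finset.range n).filter (fun j => pos (d i1 j) < s + 1) = ∅ := by
        refine Finset.filter_eq_empty_iff.2 fun j hj => ?_
        have hj' := Finset.mem_range.1 hj
        rw [hcd i1 hi1 j hj']
        have := hright j hj'
        omega
      rw [this]
      simp
    · refine grid_tool (hcut (s + 1)) _ (fun j => d i1 j) ?_ ?_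
      · intro j hj
        have hj' := Finset.mem_range.1 (Finset.mem_filter.1 hj).1
        exact ⟨hdS i1 hi1 j hj', (Finset.mem_filter.1 hj).2⟩
      · intro j hj j' hj' hlt
        have a1 := Finset.mem_range.1 (Finset.mem_filter.1 hj).1
        have a2 := Finset.mem_range.1 (Finset.mem_filter.1 hj').1
        refine ⟨c i1 j, hcS i1 hi1 j a1, hright j a1, ?_⟩
        rw [hE (d i1 j), hE (d i1 j'), hcd i1 hi1 j a1 i1 hi1 j a1, hcd i1 hi1 j a1 i1 hi1 j' a2]
        have : ¬ j = j' := by omega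
        simp [this]
  -- all other columns are mixed
  have m2 := grid_mixed hE (hcut (s + 1)) b (fun j i => d i j) (fun i hi => (hS i hi).2.1)
    (fun j hj i hi => hdS i hi j hj) (fun j hj i hi l hl => hcol i hi j hj l hl)
    ((Finset.range n).filter (fun j => pos (d i0 j) < s + 1 ∧ s + 1 ≤ pos (d i1 j))) (by
      intro j hj
      obtain ⟨a1, a2, a3⟩ := Finset.mem_filter.1 hj
      exact ⟨Finset.mem_range.1 a1, ⟨i0, hi0, a2⟩, ⟨i1, hi1, a3⟩⟩)
  have hsub : Finset.range n ⊆
      ((Finset.range n).filter (fun j => s + 1 ≤ pos (d i0 j)) ∪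
        (Finset.range n).filter (fun j => pos (d i1 j) < s + 1)) ∪
      (Finset.range n).filter (fun j => pos (d i0 j) < s + 1 ∧ s + 1 ≤ pos (d i1 j)) := by
    intro j hj
    simp only [Finset.mem_union, Finset.mem_filter]
    by_cases a1 : s + 1 ≤ pos (d i0 j)
    · exact Or.inl (Or.inl ⟨hj, a1⟩)
    · by_cases a2 : pos (d i1 j) < s + 1
      · exact Or.inl (Or.inr ⟨hj, a2⟩)
      · exact Or.inr ⟨hj, by omega, by omega⟩
  have c1 := Finset.card_le_card hsub
  have c2 := Finset.card_union_le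
    ((Finset.range n).filter (fun j => s + 1 ≤ pos (d i0 j)) ∪
        (Finset.range n).filter (fun j => pos (d i1 j) < s + 1))
    ((Finset.range n).filter (fun j => pos (d i0 j) < s + 1 ∧ s + 1 ≤ pos (d i1 j)))
  have c3 := Finset.card_union_le ((Finset.range n).filter (fun j => s + 1 ≤ pos (d i0 j)))
    ((Finset.range n).filter (fun j => pos (d i1 j) < s + 1))
  rw [Finset.card_range] at c1
  omega

end Pool.Agent.Lib.MP_849b2e_co
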