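import Pool.Agent.Lib.MP_849b2e_co.Bases
import Pool.Agent.Lib.MP_849b2e_co.Grid

/-!
Grid families.
-/

namespace Pool.Agent.Lib.MP_849b2e_co

theorem unbg_eg {E : Adj} {τ : ℕ → ℕ} {s t : ℕ} (hs : s.testBit 0 = false)
    (ht : t.testBit 0 = false)
    (h : ∀ u v, s.testBit (τ u) = true → t.testBit (τ v) = true → E u v = false) :
    ClOK E τ (eg s t) := by
  intro x h1 _ h3
  have a0 := h1 0 (by simp [eg, cl])
  have a1 := h1 1 (by simp [eg, cl])
  have b := h3 ⟨0, 1, true⟩ (by simp [eg, cl])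
  simp only [eg, cl, List.getD_cons_zero, List.getD_cons_succ, hs, ht, Bool.false_eq_true,
    false_or] at a0 a1 b
  rw [h _ _ a0 a1] at b
  exact Bool.false_ne_true b

theorem unbg_two {E : Adj} {τ : ℕ → ℕ} {s t : ℕ} (hs : s.testBit 0 = false)
    (ht : t.testBit 0 = false)
    (h : ∀ u v w, s.testBit (τ u) = true → t.testBit (τ v) = true → t.testBit (τ w) = true →
      E u v = true → E u w = true → v = w) :
    ClOK E τ (two s t) := by
  intro x h1 h2 h3
  have a0 := h1 0 (by simp [two, cl])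
  have a1 := h1 1 (by simp [two, cl])
  have a2 := h1 2 (by simp [two, cl])
  have b := h3 ⟨0, 1, true⟩ (by simp [two, cl])
  have b' := h3 ⟨0, 2, true⟩ (by simp [two, cl])
  have c := h2 1 (by simp [two, cl]) 2 (by simp [two, cl])
  simp only [two, cl, List.getD_cons_zero, List.getD_cons_succ, hs, ht, Bool.false_eq_true,
    false_or] at a0 a1 a2 b b'
  have := c (h _ _ _ a0 a1 a2 b b')
  omega

theorem unbg_chain {E : Adj} {τ : ℕ → ℕ} {s t : ℕ} (hs : s.testBit 0 = false)
    (ht : t.testBit 0 = false)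
    (h : ∀ u u' v w, s.testBit (τ u) = true → s.testBit (τ u') = true →
      t.testBit (τ v) = true → t.testBit (τ w) = true →
      E u v = true → E u w = false → E u' v = false → E u' w = true → False) :
    ClOK E τ (chain s t) := by
  intro x h1 _ h3
  have a0 := h1 0 (by simp [chain, cl])
  have a1 := h1 1 (by simp [chain, cl])
  have a2 := h1 2 (by simp [chain, cl])
  have a3 := h1 3 (by simp [chain, cl])
  have b := h3 ⟨0, 2, true⟩ (by simp [chain, cl])
  have b' := h3 ⟨0, 3, false⟩ (by simp [chain, cl])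
  have c := h3 ⟨1, 2, false⟩ (by simp [chain, cl])
  have c' := h3 ⟨1, 3, true⟩ (by simp [chain, cl])
  simp only [chain, cl, List.getD_cons_zero, List.getD_cons_succ, hs, ht, Bool.false_eq_true,
    false_or] at a0 a1 a2 a3 b b' c c'
  exact h _ _ _ _ a0 a1 a2 a3 b b' c c'

theorem unbg_b2 {j : ℕ} (h : (2 : ℕ).testBit j = true) : j = 1 := by
  have := Nat.testBit_two_pow (n := 1) (m := j)
  rw [show (2 : ℕ) ^ 1 = 2 from rfl, h] at this
  simpa [eq_comm] using this

theorem unbg_b4 {j : ℕ} (h : (4 : ℕ).testBit j = true) : j = 2 := by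
  have := Nat.testBit_two_pow (n := 2) (m := j)
  rw [show (2 : ℕ) ^ 2 = 4 from rfl, h] at this
  simpa [eq_comm] using this

theorem unbg_b8 {j : ℕ} (h : (8 : ℕ).testBit j = true) : j = 3 := by
  have := Nat.testBit_two_pow (n := 3) (m := j)
  rw [show (2 : ℕ) ^ 3 = 8 from rfl, h] at this
  simpa [eq_comm] using this

theorem unbg_b16 {j : ℕ} (h : (16 : ℕ).testBit j = true) : j = 4 := by
  have := Nat.testBit_two_pow (n := 4) (m := j)
  rw [show (2 : ℕ) ^ 4 = 16 from rfl, h] at this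
  simpa [eq_comm] using this

theorem unbg_b6 {j : ℕ} (h : (6 : ℕ).testBit j = true) : j = 1 ∨ j = 2 := by
  rw [show (6 : ℕ) = 2 ||| 4 from rfl, Nat.testBit_or, Bool.or_eq_true] at h
  exact h.imp unbg_b2 unbg_b4

/-- Directed part of the first grid graph. -/
def unbg_R1 (u v : ℕ) : Prop :=
  u % 3 = 2 ∧ ((v % 3 = 0 ∧ v / 3 ≤ (Nat.unpair (u / 3)).1) ∨
    (v % 3 = 1 ∧ v / 3 ≤ (Nat.unpair (u / 3)).2))

instance (u v : ℕ) : Decidable (unbg_R1 u v) := by unfold unbg_R1; infer_instance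

/-- Directed part of the second grid graph. -/
def unbg_R2 (u v : ℕ) : Prop :=
  (u % 4 = 2 ∧ v % 4 = 0 ∧ v / 4 ≤ (Nat.unpair (u / 4)).1) ∨
    (u % 4 = 3 ∧ v % 4 = 1 ∧ v / 4 ≤ (Nat.unpair (u / 4)).2) ∨
    (u % 4 = 2 ∧ v % 4 = 3 ∧ u / 4 = v / 4)

instance (u v : ℕ) : Decidable (unbg_R2 u v) := by unfold unbg_R2; infer_instance

theorem unbg_ac {u v : ℕ} (hu : u % 4 = 0) (hv : v % 4 = 2) :
    (unbg_R2 u v ∨ unbg_R2 v u) ↔ u / 4 ≤ (Nat.unpair (v / 4)).1 := by
  simp [unbg_R2, hu, hv]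

theorem unbg_bd {u v : ℕ} (hu : u % 4 = 1) (hv : v % 4 = 3) :
    (unbg_R2 u v ∨ unbg_R2 v u) ↔ u / 4 ≤ (Nat.unpair (v / 4)).2 := by
  simp [unbg_R2, hu, hv]

theorem unbg_cd {u v : ℕ} (hu : u % 4 = 2) (hv : v % 4 = 3) :
    (unbg_R2 u v ∨ unbg_R2 v u) ↔ u / 4 = v / 4 := by
  simp [unbg_R2, hu, hv]

theorem unbg_ac1 {u v : ℕ} (hu : u % 3 = 0) (hv : v % 3 = 2) :
    (unbg_R1 u v ∨ unbg_R1 v u) ↔ u / 3 ≤ (Nat.unpair (v / 3)).1 := by
  simp [unbg_R1, hu, hv]

theorem unbg_bc1 {u v : ℕ} (hu : u % 3 = 1) (hv : v % 3 = 2) :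
    (unbg_R1 u v ∨ unbg_R1 v u) ↔ u / 3 ≤ (Nat.unpair (v / 3)).2 := by
  simp [unbg_R1, hu, hv]

theorem unbg_S (n : ℕ) (a b : ℕ → ℕ) (c d : ℕ → ℕ → ℕ) : ∃ S : Finset ℕ,
    ∀ i < n, a i ∈ S ∧ b i ∈ S ∧ ∀ j < n, c i j ∈ S ∧ d i j ∈ S := by
  refine ⟨(Finset.range n).biUnion fun i => {a i, b i} ∪
    (Finset.range n).biUnion fun j => {c i j, d i j}, fun i hi => ⟨?_, ?_, fun j hj => ⟨?_, ?_⟩⟩⟩
  · exact Finset.mem_biUnion.2 ⟨i, Finset.mem_range.2 hi, by simp⟩
  · exact Finset.mem_biUnion.2 ⟨i, Finset.mem_range.2 hi, by simp⟩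
  · exact Finset.mem_biUnion.2 ⟨i, Finset.mem_range.2 hi, Finset.mem_union_right _
      (Finset.mem_biUnion.2 ⟨j, Finset.mem_range.2 hj, by simp⟩)⟩
  · exact Finset.mem_biUnion.2 ⟨i, Finset.mem_range.2 hi, Finset.mem_union_right _
      (Finset.mem_biUnion.2 ⟨j, Finset.mem_range.2 hj, by simp⟩)⟩

theorem unb_G1 : Unb 3 axG1 := by
  refine ⟨fun u v => decide (unbg_R1 u v ∨ unbg_R1 v u), fun u v => by simp only [or_comm],
    fun v => v % 3 + 1, fun v => by dsimp only; omega, ?_, fun k => ?_⟩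
  · simp only [axG1, List.forall_mem_cons, List.not_mem_nil, false_imp_iff, implies_true,
      and_true]
    refine ⟨unbg_eg rfl rfl fun u v hu hv => ?_, unbg_eg rfl rfl fun u v hu hv => ?_,
      unbg_chain rfl rfl fun u u' v w h1 h2 h3 h4 => ?_,
      unbg_chain rfl rfl fun u u' v w h1 h2 h3 h4 => ?_⟩
    · have := unbg_b6 hu
      have := unbg_b6 hv
      simp only [decide_eq_false_iff_not, unbg_R1]
      omega
    · have := unbg_b8 hu
      have := unbg_b8 hv
      simp only [decide_eq_false_iff_not, unbg_R1]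
      omega
    · have a1 : u % 3 = 0 := by have := unbg_b2 h1; omega
      have a2 : u' % 3 = 0 := by have := unbg_b2 h2; omega
      have a3 : v % 3 = 2 := by have := unbg_b8 h3; omega
      have a4 : w % 3 = 2 := by have := unbg_b8 h4; omega
      simp only [decide_eq_false_iff_not, decide_eq_true_eq, unbg_ac1 a1 a3, unbg_ac1 a1 a4,
        unbg_ac1 a2 a3, unbg_ac1 a2 a4]
      omega
    · have a1 : u % 3 = 1 := by have := unbg_b4 h1; omega
      have a2 : u' % 3 = 1 := by have := unbg_b4 h2; omega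
      have a3 : v % 3 = 2 := by have := unbg_b8 h3; omega
      have a4 : w % 3 = 2 := by have := unbg_b8 h4; omega
      simp only [decide_eq_false_iff_not, decide_eq_true_eq, unbg_bc1 a1 a3, unbg_bc1 a1 a4,
        unbg_bc1 a2 a3, unbg_bc1 a2 a4]
      omega
  · obtain ⟨n, hn⟩ := grid_not_lw k
    obtain ⟨S, hS⟩ := unbg_S n (fun i => 3 * i) (fun i => 3 * i + 1)
      (fun i j => 3 * Nat.pair i j + 2) (fun i j => 3 * Nat.pair i j + 2)
    refine ⟨S, hn _ (fun u v => by simp only [or_comm]) S _ _ _ _ hS ?_ ?_ ?_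
      (Or.inl fun _ _ _ _ => rfl)⟩
    · intro i _ j _ i' _ j' _ e
      exact Nat.pair_eq_pair.1 (by omega)
    · intro i _ j _ l _
      have e : (3 * Nat.pair i j + 2) / 3 = Nat.pair i j := by omega
      rw [decide_eq_decide, or_comm, unbg_ac1 (by omega) (by omega), e, Nat.unpair_pair]
      dsimp only
      omega
    · intro i _ j _ l _
      have e : (3 * Nat.pair i j + 2) / 3 = Nat.pair i j := by omega
      rw [decide_eq_decide, or_comm, unbg_bc1 (by omega) (by omega), e, Nat.unpair_pair]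
      dsimp only
      omega

theorem unb_G2 : Unb 4 axG2 := by
  refine ⟨fun u v => decide (unbg_R2 u v ∨ unbg_R2 v u), fun u v => by simp only [or_comm],
    fun v => v % 4 + 1, fun v => by dsimp only; omega, ?_, fun k => ?_⟩
  · simp only [axG2, List.forall_mem_cons, List.not_mem_nil, false_imp_iff, implies_true,
      and_true]
    refine ⟨unbg_eg rfl rfl fun u v hu hv => ?_, unbg_eg rfl rfl fun u v hu hv => ?_,
      unbg_eg rfl rfl fun u v hu hv => ?_, unbg_eg rfl rfl fun u v hu hv => ?_,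
      unbg_eg rfl rfl fun u v hu hv => ?_,
      unbg_chain rfl rfl fun u u' v w h1 h2 h3 h4 => ?_,
      unbg_chain rfl rfl fun u u' v w h1 h2 h3 h4 => ?_,
      unbg_two rfl rfl fun u v w h1 h2 h3 => ?_, unbg_two rfl rfl fun u v w h1 h2 h3 => ?_⟩
    · have := unbg_b6 hu
      have := unbg_b6 hv
      simp only [decide_eq_false_iff_not, unbg_R2]
      omega
    · have := unbg_b8 hu
      have := unbg_b8 hv
      simp only [decide_eq_false_iff_not, unbg_R2]
      omega
    · have := unbg_b16 hu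
      have := unbg_b16 hv
      simp only [decide_eq_false_iff_not, unbg_R2]
      omega
    · have := unbg_b2 hu
      have := unbg_b16 hv
      simp only [decide_eq_false_iff_not, unbg_R2]
      omega
    · have := unbg_b4 hu
      have := unbg_b8 hv
      simp only [decide_eq_false_iff_not, unbg_R2]
      omega
    · have a1 : u % 4 = 0 := by have := unbg_b2 h1; omega
      have a2 : u' % 4 = 0 := by have := unbg_b2 h2; omega
      have a3 : v % 4 = 2 := by have := unbg_b8 h3; omega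
      have a4 : w % 4 = 2 := by have := unbg_b8 h4; omega
      simp only [decide_eq_false_iff_not, decide_eq_true_eq, unbg_ac a1 a3, unbg_ac a1 a4,
        unbg_ac a2 a3, unbg_ac a2 a4]
      omega
    · have a1 : u % 4 = 1 := by have := unbg_b4 h1; omega
      have a2 : u' % 4 = 1 := by have := unbg_b4 h2; omega
      have a3 : v % 4 = 3 := by have := unbg_b16 h3; omega
      have a4 : w % 4 = 3 := by have := unbg_b16 h4; omega
      simp only [decide_eq_false_iff_not, decide_eq_true_eq, unbg_bd a1 a3, unbg_bd a1 a4,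
        unbg_bd a2 a3, unbg_bd a2 a4]
      omega
    · have a1 : u % 4 = 2 := by have := unbg_b8 h1; omega
      have a2 : v % 4 = 3 := by have := unbg_b16 h2; omega
      have a3 : w % 4 = 3 := by have := unbg_b16 h3; omega
      simp only [decide_eq_true_eq, unbg_cd a1 a2, unbg_cd a1 a3]
      omega
    · have a1 : u % 4 = 3 := by have := unbg_b16 h1; omega
      have a2 : v % 4 = 2 := by have := unbg_b8 h2; omega
      have a3 : w % 4 = 2 := by have := unbg_b8 h3; omega
      rw [decide_eq_true_eq, decide_eq_true_eq, or_comm, unbg_cd a2 a1, or_comm, unbg_cd a3 a1]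
      omega
  · obtain ⟨n, hn⟩ := grid_not_lw k
    obtain ⟨S, hS⟩ := unbg_S n (fun i => 4 * i) (fun i => 4 * i + 1)
      (fun i j => 4 * Nat.pair i j + 2) (fun i j => 4 * Nat.pair i j + 3)
    refine ⟨S, hn _ (fun u v => by simp only [or_comm]) S _ _ _ _ hS ?_ ?_ ?_ (Or.inr ?_)⟩
    · intro i _ j _ i' _ j' _ e
      exact Nat.pair_eq_pair.1 (by omega)
    · intro i _ j _ l _
      have e : (4 * Nat.pair i j + 2) / 4 = Nat.pair i j := by omega
      rw [decide_eq_decide, or_comm, unbg_ac (by omega) (by omega), e, Nat.unpair_pair]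
      dsimp only
      omega
    · intro i _ j _ l _
      have e : (4 * Nat.pair i j + 3) / 4 = Nat.pair i j := by omega
      rw [decide_eq_decide, or_comm, unbg_bd (by omega) (by omega), e, Nat.unpair_pair]
      dsimp only
      omega
    · intro i _ j _ i' _ j' _
      rw [decide_eq_decide, ← Nat.pair_eq_pair, unbg_cd (by omega) (by omega)]
      omega

end Pool.Agent.Lib.MP_849b2e_co
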