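import Pool.Agent.Lib.MP_849b2e_co.Graph

/-!
Lower bounds on the order width for tree-like graphs.
-/

namespace Pool.Agent.Lib.MP_849b2e_co

/-- `Tri E Z S k`: there are `k` vertices of `S ∩ Z` with pairwise different nonempty
neighbourhoods in `S \ Z`. -/
def Tri (E : Adj) (Z S : Finset ℕ) (k : ℕ) : Prop :=
  ∃ A, A ⊆ S ∩ Z ∧ A.card = k ∧ (∀ a ∈ A, ∃ w ∈ S \ Z, E a w = true) ∧
    ∀ a ∈ A, ∀ b ∈ A, a ≠ b → ∃ w ∈ S \ Z, E a w ≠ E b w

/-- Every linear order of a superset of `S` has a cut with `Tri` on `S`. -/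
def Wide (E : Adj) (S : Finset ℕ) (k : ℕ) : Prop :=
  S.Nonempty ∧ ∀ pos : ℕ → ℕ, Set.InjOn pos S → ∃ i, Tri E (S.filter fun v => pos v < i) S k

theorem Wide.not_lw {E : Adj} {S : Finset ℕ} {k : ℕ} (h : Wide E S (k + 1)) : ¬ LW E S k := by
  rintro ⟨pos, hinj, hcut⟩
  obtain ⟨i, A, hA, hcard, -, hsep⟩ := h.2 pos hinj
  obtain ⟨f, hf1, hf2⟩ := hcut i
  have hAZ : ∀ a ∈ A, a ∈ S.filter fun v => pos v < i := fun a ha =>
    (Finset.mem_inter.1 (hA ha)).2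
  have hinjf : Set.InjOn f A := by
    intro a ha b hb e
    by_contra ne
    obtain ⟨w, hw, hne⟩ := hsep a ha b hb ne
    refine hne (hf2 a (hAZ a ha) b (hAZ b hb) e w ?_)
    rw [Finset.mem_sdiff, Finset.mem_filter] at hw
    exact Finset.mem_filter.2 ⟨hw.1, not_lt.1 fun c => hw.2 ⟨hw.1, c⟩⟩
  have hle : A.card ≤ (Finset.range k).card :=
    Finset.card_le_card_of_injOn f
      (fun a ha => Finset.mem_coe.2 (Finset.mem_range.2 (hf1 a (hAZ a ha)))) hinjf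
  rw [hcard, Finset.card_range] at hle
  omega

theorem Wide.zero (E : Adj) {S : Finset ℕ} (h : S.Nonempty) : Wide E S 0 :=
  ⟨h, fun _ _ => ⟨0, ∅, Finset.empty_subset _, rfl, by simp, by simp⟩⟩

/-- An edge of `S \ R` with an end that has no neighbour in `R`. -/
def Side (E : Adj) (S R : Finset ℕ) (u v : ℕ) : Prop :=
  u ∈ S ∧ v ∈ S ∧ u ∉ R ∧ v ∉ R ∧ E u v = true ∧
    ((∀ x ∈ R, E u x = false) ∨ ∀ x ∈ R, E v x = false)

theorem three_step {R : ℕ → ℕ → Prop} (Q : ℕ → Prop) {x y : ℕ}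
    (h : Relation.ReflTransGen R x y) (hx : Q x) (hy : ¬ Q y) :
    ∃ u v, R u v ∧ Q u ∧ ¬ Q v := by
  induction h with
  | refl => exact absurd hx hy
  | @tail b c _ hbc ih =>
    by_cases hb : Q b
    · exact ⟨b, c, hbc, hb, hy⟩
    · exact ih hb

theorem three_side_symm {E : Adj} (hE : ∀ u v, E u v = E v u) {S R : Finset ℕ} {u v : ℕ}
    (h : Side E S R u v) : Side E S R v u := by
  obtain ⟨a, b, c, d, e, f⟩ := h
  exact ⟨b, a, d, c, by rw [hE]; exact e, f.symm⟩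

theorem three_rev {E : Adj} (hE : ∀ u v, E u v = E v u) {S R : Finset ℕ} {x y : ℕ}
    (h : Relation.ReflTransGen (Side E S R) x y) : Relation.ReflTransGen (Side E S R) y x := by
  induction h with
  | refl => exact Relation.ReflTransGen.refl
  | tail _ hbc ih => exact Relation.ReflTransGen.head (three_side_symm hE hbc) ih

theorem three_core {E : Adj} (hE : ∀ u v, E u v = E v u) {S T : Finset ℕ} {k i x y : ℕ}
    {pos : ℕ → ℕ} (hT : T ⊆ S) (h : Tri E (T.filter fun v => pos v < i) T k)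
    (hx : pos x < i) (hy : i ≤ pos y) (p : Relation.ReflTransGen (Side E S T) x y) :
    Tri E (S.filter fun v => pos v < i) S (k + 1) := by
  obtain ⟨A, hA, hcard, hnb, hsep⟩ := h
  obtain ⟨u, v, ⟨uS, vS, uT, vT, huv, hno⟩, hu, hv⟩ :=
    three_step (fun z => pos z < i) p hx (not_lt.2 hy)
  have hAT : ∀ a ∈ A, a ∈ T := fun a ha => (Finset.mem_inter.1 (hA ha)).1
  have hAp : ∀ a ∈ A, pos a < i := fun a ha =>
    (Finset.mem_filter.1 (Finset.mem_inter.1 (hA ha)).2).2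
  have huA : u ∉ A := fun c => uT (hAT u c)
  have lift : ∀ w ∈ T \ T.filter fun v => pos v < i,
      w ∈ T ∧ w ∈ S \ S.filter fun v => pos v < i := by
    intro w hw
    rw [Finset.mem_sdiff, Finset.mem_filter] at hw
    refine ⟨hw.1, Finset.mem_sdiff.2 ⟨hT hw.1, fun c => hw.2 ⟨hw.1, (Finset.mem_filter.1 c).2⟩⟩⟩
  have hvm : v ∈ S \ S.filter fun v => pos v < i :=
    Finset.mem_sdiff.2 ⟨vS, fun c => hv (Finset.mem_filter.1 c).2⟩
  have key : ∀ a ∈ A, ∃ w ∈ S \ S.filter fun v => pos v < i, E u w ≠ E a w := by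
    intro a ha
    rcases hno with hno | hno
    · obtain ⟨w, hw, e⟩ := hnb a ha
      obtain ⟨w1, w2⟩ := lift w hw
      exact ⟨w, w2, by rw [hno w w1, e]; decide⟩
    · exact ⟨v, hvm, by rw [huv, hE a v, hno a (hAT a ha)]; decide⟩
  refine ⟨insert u A, ?_, by rw [Finset.card_insert_of_notMem huA, hcard], ?_, ?_⟩
  · intro a ha
    rcases Finset.mem_insert.1 ha with rfl | ha
    · exact Finset.mem_inter.2 ⟨uS, Finset.mem_filter.2 ⟨uS, hu⟩⟩
    · exact Finset.mem_inter.2 ⟨hT (hAT a ha), Finset.mem_filter.2 ⟨hT (hAT a ha), hAp a ha⟩⟩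
  · intro a ha
    rcases Finset.mem_insert.1 ha with rfl | ha
    · exact ⟨v, hvm, huv⟩
    · obtain ⟨w, hw, e⟩ := hnb a ha
      exact ⟨w, (lift w hw).2, e⟩
  · intro a ha b hb ne
    rcases Finset.mem_insert.1 ha with rfl | ha' <;> rcases Finset.mem_insert.1 hb with rfl | hb'
    · exact absurd rfl ne
    · exact key b hb'
    · obtain ⟨w, hw, e⟩ := key a ha'
      exact ⟨w, hw, e.symm⟩
    · obtain ⟨w, hw, e⟩ := hsep a ha' b hb' ne
      exact ⟨w, (lift w hw).2, e⟩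

theorem three_ends {E : Adj} {T : Finset ℕ} {k i : ℕ} {pos : ℕ → ℕ}
    (h : Tri E (T.filter fun v => pos v < i) T (k + 1)) :
    (∃ x ∈ T, pos x < i) ∧ ∃ y ∈ T, i ≤ pos y := by
  obtain ⟨A, hA, hcard, hnb, -⟩ := h
  obtain ⟨a, ha⟩ : A.Nonempty := Finset.card_pos.1 (by omega)
  obtain ⟨w, hw, -⟩ := hnb a ha
  rw [Finset.mem_sdiff, Finset.mem_filter] at hw
  exact ⟨⟨a, (Finset.mem_inter.1 (hA ha)).1,
    (Finset.mem_filter.1 (Finset.mem_inter.1 (hA ha)).2).2⟩,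
    w, hw.1, not_lt.1 fun c => hw.2 ⟨hw.1, c⟩⟩

theorem three_edge {E : Adj} {S : Finset ℕ} {pos : ℕ → ℕ} {u v : ℕ} (hu : u ∈ S) (hv : v ∈ S)
    (e : E u v = true) (lt : pos u < pos v) :
    Tri E (S.filter fun z => pos z < pos v) S 1 := by
  refine ⟨{u}, ?_, rfl, ?_, ?_⟩
  · intro a ha
    rw [Finset.mem_singleton.1 ha]
    exact Finset.mem_inter.2 ⟨hu, Finset.mem_filter.2 ⟨hu, lt⟩⟩
  · intro a ha
    rw [Finset.mem_singleton.1 ha]
    exact ⟨v, Finset.mem_sdiff.2 ⟨hv, fun c => lt_irrefl _ (Finset.mem_filter.1 c).2⟩, e⟩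
  · intro a ha b hb ne
    exact absurd ((Finset.mem_singleton.1 ha).trans (Finset.mem_singleton.1 hb).symm) ne

theorem Wide.three {E : Adj} (hE : ∀ u v, E u v = E v u) {S S₁ S₂ S₃ : Finset ℕ} {k : ℕ}
    (h₁ : Wide E S₁ k) (h₂ : Wide E S₂ k) (h₃ : Wide E S₃ k)
    (s₁ : S₁ ⊆ S) (s₂ : S₂ ⊆ S) (s₃ : S₃ ⊆ S)
    (p₁ : ∀ x ∈ S₂, ∀ y ∈ S₃, Relation.ReflTransGen (Side E S S₁) x y)
    (p₂ : ∀ x ∈ S₁, ∀ y ∈ S₃, Relation.ReflTransGen (Side E S S₂) x y)
    (p₃ : ∀ x ∈ S₁, ∀ y ∈ S₂, Relation.ReflTransGen (Side E S S₃) x y)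
    (d₁₂ : Disjoint S₁ S₂) (d₁₃ : Disjoint S₁ S₃) (d₂₃ : Disjoint S₂ S₃) :
    Wide E S (k + 1) := by
  refine ⟨h₁.1.mono s₁, fun pos hinj => ?_⟩
  cases k with
  | zero =>
    obtain ⟨x, hx⟩ := h₁.1
    obtain ⟨y, hy⟩ := h₃.1
    have ne : ¬ y = x := fun c => Finset.disjoint_left.1 d₁₃ hx (c ▸ hy)
    obtain ⟨u, v, ⟨uS, vS, -, -, huv, -⟩, hu, hv⟩ :=
      three_step (fun z => z = x) (p₂ x hx y hy) rfl ne
    have nuv : pos u ≠ pos v := fun c => hv ((hinj uS vS c).symm.trans hu)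
    rcases lt_or_gt_of_ne nuv with lt | lt
    · exact ⟨_, three_edge uS vS huv lt⟩
    · exact ⟨_, three_edge vS uS (by rw [hE]; exact huv) lt⟩
  | succ k =>
    obtain ⟨i₁, t₁⟩ := h₁.2 pos (hinj.mono (Finset.coe_subset.2 s₁))
    obtain ⟨i₂, t₂⟩ := h₂.2 pos (hinj.mono (Finset.coe_subset.2 s₂))
    obtain ⟨i₃, t₃⟩ := h₃.2 pos (hinj.mono (Finset.coe_subset.2 s₃))
    obtain ⟨⟨x₁, a₁, b₁⟩, y₁, c₁, e₁⟩ := three_ends t₁
    obtain ⟨⟨x₂, a₂, b₂⟩, y₂, c₂, e₂⟩ := three_ends t₂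
    obtain ⟨⟨x₃, a₃, b₃⟩, y₃, c₃, e₃⟩ := three_ends t₃
    rcases le_total i₁ i₂ with l12 | l12
    · rcases le_total i₂ i₃ with l23 | l23
      · exact ⟨i₂, three_core hE s₂ t₂ (by omega) (by omega) (p₂ x₁ a₁ y₃ c₃)⟩
      · rcases le_total i₁ i₃ with l13 | l13
        · exact ⟨i₃, three_core hE s₃ t₃ (by omega) (by omega) (p₃ x₁ a₁ y₂ c₂)⟩
        · exact ⟨i₁, three_core hE s₁ t₁ (by omega) (by omega) (three_rev hE (p₁ y₂ c₂ x₃ a₃))⟩
    · rcases le_total i₁ i₃ with l13 | l13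
      · exact ⟨i₁, three_core hE s₁ t₁ (by omega) (by omega) (p₁ x₂ a₂ y₃ c₃)⟩
      · rcases le_total i₂ i₃ with l23 | l23
        · exact ⟨i₃, three_core hE s₃ t₃ (by omega) (by omega) (three_rev hE (p₃ y₁ c₁ x₂ a₂))⟩
        · exact ⟨i₂, three_core hE s₂ t₂ (by omega) (by omega) (three_rev hE (p₂ y₁ c₁ x₃ a₃))⟩

/-- The version of `Side` for infinite sets. -/
def SideS (E : Adj) (S R : Set ℕ) (u v : ℕ) : Prop :=
  u ∈ S ∧ v ∈ S ∧ u ∉ R ∧ v ∉ R ∧ E u v = true ∧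
    ((∀ x ∈ R, E u x = false) ∨ ∀ x ∈ R, E v x = false)

theorem three_fin {E : Adj} {D R' : Set ℕ} {x y : ℕ}
    (h : Relation.ReflTransGen (SideS E D R') x y) :
    ∃ F : Finset ℕ, (F : Set ℕ) ⊆ D ∧ ∀ S R : Finset ℕ, F ⊆ S → (R : Set ℕ) ⊆ R' →
      Relation.ReflTransGen (Side E S R) x y := by
  induction h with
  | refl => exact ⟨∅, by simp, fun _ _ _ _ => Relation.ReflTransGen.refl⟩
  | @tail b c _ hbc ih =>
    obtain ⟨F, hF, hp⟩ := ih
    obtain ⟨bD, cD, bR, cR, e, hno⟩ := hbc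
    refine ⟨insert b (insert c F), ?_, fun S R hS hR => ?_⟩
    · intro z hz
      rw [Finset.mem_coe, Finset.mem_insert, Finset.mem_insert] at hz
      rcases hz with rfl | rfl | hz
      · exact bD
      · exact cD
      · exact hF hz
    · refine (hp S R (fun z hz => hS ?_) hR).tail
        ⟨hS (by simp), hS (by simp), fun c => bR (hR c), fun c => cR (hR c), e, ?_⟩
      · exact Finset.mem_insert_of_mem (Finset.mem_insert_of_mem hz)
      · rcases hno with hno | hno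
        · exact Or.inl fun z hz => hno z (hR hz)
        · exact Or.inr fun z hz => hno z (hR hz)

theorem three_all {E : Adj} {D R' : Set ℕ} {y : ℕ} (T : Finset ℕ)
    (h : ∀ x ∈ T, Relation.ReflTransGen (SideS E D R') x y) :
    ∃ F : Finset ℕ, (F : Set ℕ) ⊆ D ∧ ∀ S R : Finset ℕ, F ⊆ S → (R : Set ℕ) ⊆ R' →
      ∀ x ∈ T, Relation.ReflTransGen (Side E S R) x y := by
  choose! F hF hp using fun x hx => three_fin (h x hx)
  refine ⟨T.biUnion F, ?_, fun S R hS hR x hx => hp x hx S R (fun z hz => hS ?_) hR⟩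
  · intro z hz
    obtain ⟨x, hx, hz⟩ := Finset.mem_biUnion.1 (Finset.mem_coe.1 hz)
    exact hF x hx hz
  · exact Finset.mem_biUnion.2 ⟨x, hx, hz⟩

/-- Ternary recursion: regions `D r` (for `r` with `P r`) with three disjoint subregions. -/
theorem unb_of_tree {E : Adj} (hE : ∀ u v, E u v = E v u) (P : ℕ → Prop) (D : ℕ → Set ℕ)
    (ch : ℕ → Fin 3 → ℕ) (root : ℕ → ℕ) (r₀ : ℕ) (h₀ : P r₀)
    (hP : ∀ r, P r → ∀ i, P (ch r i))
    (hroot : ∀ r, P r → root r ∈ D r)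
    (hsub : ∀ r, P r → ∀ i, D (ch r i) ⊆ D r)
    (hdis : ∀ r, P r → ∀ i j, i ≠ j → Disjoint (D (ch r i)) (D (ch r j)))
    (hpath : ∀ r, P r → ∀ i j, i ≠ j → ∀ x ∈ D (ch r i),
      Relation.ReflTransGen (SideS E (D r) (D (ch r j))) x (root r)) :
    ∀ c, ∃ S, ¬ LW E S c := by
  have main : ∀ k r, P r → ∃ S : Finset ℕ, (S : Set ℕ) ⊆ D r ∧ Wide E S k := by
    intro k
    induction k with
    | zero =>
      intro r hr
      exact ⟨{root r}, by simpa using hroot r hr, Wide.zero E (Finset.singleton_nonempty _)⟩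
    | succ k ih =>
      intro r hr
      choose T hT hW using fun i : Fin 3 => ih (ch r i) (hP r hr i)
      have hF : ∀ i j : Fin 3, ∃ F : Finset ℕ, (F : Set ℕ) ⊆ D r ∧ (i ≠ j →
          ∀ S : Finset ℕ, F ⊆ S → ∀ x ∈ T i,
            Relation.ReflTransGen (Side E S (T j)) x (root r)) := by
        intro i j
        by_cases ij : i = j
        · exact ⟨∅, by simp, fun c => absurd ij c⟩
        · obtain ⟨F, h1, h2⟩ := three_all (T i) fun x hx => hpath r hr i j ij x (hT i hx)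
          exact ⟨F, h1, fun _ S hS => h2 S (T j) hS (hT j)⟩
      choose F hF1 hF2 using hF
      set S : Finset ℕ := Finset.univ.biUnion T ∪
        Finset.univ.biUnion fun i => Finset.univ.biUnion fun j => F i j with hS
      have hTS : ∀ i, T i ⊆ S := fun i z hz =>
        Finset.mem_union_left _ (Finset.mem_biUnion.2 ⟨i, Finset.mem_univ _, hz⟩)
      have hFS : ∀ i j, F i j ⊆ S := fun i j z hz =>
        Finset.mem_union_right _ (Finset.mem_biUnion.2 ⟨i, Finset.mem_univ _,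
          Finset.mem_biUnion.2 ⟨j, Finset.mem_univ _, hz⟩⟩)
      have hp : ∀ i j l : Fin 3, i ≠ l → j ≠ l → ∀ x ∈ T i, ∀ y ∈ T j,
          Relation.ReflTransGen (Side E S (T l)) x y := fun i j l il jl x hx y hy =>
        (hF2 i l il S (hFS i l) x hx).trans (three_rev hE (hF2 j l jl S (hFS j l) y hy))
      have hd : ∀ i j : Fin 3, i ≠ j → Disjoint (T i) (T j) := fun i j ij =>
        Finset.disjoint_left.2 fun z a b =>
          Set.disjoint_left.1 (hdis r hr i j ij) (hT i a) (hT j b)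
      refine ⟨S, ?_, Wide.three hE (hW 0) (hW 1) (hW 2) (hTS 0) (hTS 1) (hTS 2)
        (hp 1 2 0 (by decide) (by decide)) (hp 0 2 1 (by decide) (by decide))
        (hp 0 1 2 (by decide) (by decide)) (hd 0 1 (by decide)) (hd 0 2 (by decide))
        (hd 1 2 (by decide))⟩
      intro z hz
      rcases Finset.mem_union.1 (Finset.mem_coe.1 hz) with hz | hz
      · obtain ⟨i, -, hz⟩ := Finset.mem_biUnion.1 hz
        exact hsub r hr i (hT i hz)
      · obtain ⟨i, -, hz⟩ := Finset.mem_biUnion.1 hz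
        obtain ⟨j, -, hz⟩ := Finset.mem_biUnion.1 hz
        exact hF1 i j hz
  intro c
  obtain ⟨S, -, hW⟩ := main (c + 1) r₀ h₀
  exact ⟨S, hW.not_lw⟩

end Pool.Agent.Lib.MP_849b2e_co
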