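import Pool.Agent.Lib.MP_849b2e_co.Bases
import Pool.Agent.Lib.MP_849b2e_co.Three

/-!
Families defined by the ancestor relation of binary trees.
-/

namespace Pool.Agent.Lib.MP_849b2e_co

/-- `u` is an ancestor of `v` in the heap order. -/
def unbl_anc (u v : ℕ) : Prop := ∃ n, v / 2 ^ n = u

theorem unbl_refl (u : ℕ) : unbl_anc u u := ⟨0, by simp⟩

theorem unbl_trans {u v w : ℕ} (h : unbl_anc u v) (h' : unbl_anc v w) : unbl_anc u w := by
  obtain ⟨n, rfl⟩ := h
  obtain ⟨m, rfl⟩ := h'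
  exact ⟨m + n, by rw [Nat.div_div_eq_div_mul, pow_add]⟩

theorem unbl_le {u v : ℕ} (h : unbl_anc u v) : u ≤ v := by
  obtain ⟨n, rfl⟩ := h
  exact Nat.div_le_self _ _

theorem unbl_cmp {u u' v : ℕ} (h : unbl_anc u v) (h' : unbl_anc u' v) :
    unbl_anc u u' ∨ unbl_anc u' u := by
  obtain ⟨n, rfl⟩ := h
  obtain ⟨m, rfl⟩ := h'
  rcases le_total n m with h | h
  · obtain ⟨k, rfl⟩ := Nat.exists_eq_add_of_le h
    exact Or.inr ⟨k, by rw [Nat.div_div_eq_div_mul, pow_add]⟩
  · obtain ⟨k, rfl⟩ := Nat.exists_eq_add_of_le h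
    exact Or.inl ⟨k, by rw [Nat.div_div_eq_div_mul, pow_add]⟩

theorem unbl_ch (r : ℕ) (i : Fin 3) : unbl_anc r (4 * r + i) :=
  ⟨2, by have := i.2; omega⟩

theorem unbl_ch_inc {r : ℕ} (hr : 0 < r) {i j : Fin 3} (hij : i ≠ j) :
    ¬ unbl_anc (4 * r + i) (4 * r + j) := by
  rintro ⟨n, hn⟩
  have hi := i.2
  have hj := j.2
  rcases n with _ | n
  · exact hij (Fin.ext (by simp at hn; omega))
  · rw [pow_succ', ← Nat.div_div_eq_div_mul] at hn
    have := Nat.div_le_self ((4 * r + j) / 2) (2 ^ n)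
    omega

theorem unbl_dis {r : ℕ} (hr : 0 < r) {i j : Fin 3} (hij : i ≠ j) {x : ℕ}
    (hi : unbl_anc (4 * r + i) x) : ¬ unbl_anc (4 * r + j) x := fun hj =>
  (unbl_cmp hi hj).elim (unbl_ch_inc hr hij) (unbl_ch_inc hr hij.symm)

theorem unbl_far {r : ℕ} (hr : 0 < r) {i j : Fin 3} (hij : i ≠ j) {x y : ℕ}
    (hi : unbl_anc (4 * r + i) x) (hj : unbl_anc (4 * r + j) y) :
    ¬ unbl_anc x y ∧ ¬ unbl_anc y x :=
  ⟨fun h => unbl_dis hr hij (unbl_trans hi h) hj, fun h => unbl_dis hr hij hi (unbl_trans hj h)⟩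

theorem unbl_mid {a b c : ℕ} (h1 : unbl_anc a b ∨ unbl_anc b a) (h2 : unbl_anc b c ∨ unbl_anc c b)
    (h3 : ¬ (unbl_anc a c ∨ unbl_anc c a)) : unbl_anc b c := by
  rcases h2 with h2 | h2
  · exact h2
  · rcases h1 with h1 | h1
    · exact absurd (unbl_cmp h1 h2) h3
    · exact absurd (Or.inr (unbl_trans h2 h1)) h3

/-- The bipartite ancestor relation. -/
def unbl_RL (u v : ℕ) : Prop :=
  (u % 2 = 0 ∧ v % 2 = 1 ∧ unbl_anc (u / 2) (v / 2)) ∨
    (v % 2 = 0 ∧ u % 2 = 1 ∧ unbl_anc (v / 2) (u / 2))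

open Classical in
/-- The bipartite ancestor graph. -/
noncomputable def unbl_EL : Adj := fun u v => decide (unbl_RL u v)

theorem unbl_EL_t {u v : ℕ} : unbl_EL u v = true ↔ unbl_RL u v := by simp [unbl_EL]
theorem unbl_EL_f {u v : ℕ} : unbl_EL u v = false ↔ ¬ unbl_RL u v := by simp [unbl_EL]

theorem unbl_EL_symm (u v : ℕ) : unbl_EL u v = unbl_EL v u := by
  rw [Bool.eq_iff_iff, unbl_EL_t, unbl_EL_t]
  exact or_comm

theorem unbl_bit2 {v : ℕ} (h : (2 : ℕ).testBit 0 = true ∨ (2 : ℕ).testBit (1 + v % 2) = true) :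
    v % 2 = 0 := by
  rcases Nat.mod_two_eq_zero_or_one v with h0 | h0
  · exact h0
  · rw [h0] at h
    exact absurd h (by decide)

theorem unbl_bit4 {v : ℕ} (h : (4 : ℕ).testBit 0 = true ∨ (4 : ℕ).testBit (1 + v % 2) = true) :
    v % 2 = 1 := by
  rcases Nat.mod_two_eq_zero_or_one v with h0 | h0
  · rw [h0] at h
    exact absurd h (by decide)
  · exact h0

theorem unbl_RL_iff {u v : ℕ} (hu : u % 2 = 0) (hv : v % 2 = 1) :
    unbl_RL u v ↔ unbl_anc (u / 2) (v / 2) :=
  ⟨fun h => h.elim (fun h => h.2.2) (fun h => by omega), fun h => Or.inl ⟨hu, hv, h⟩⟩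

theorem unb_L : Unb 2 axL := by
  refine ⟨unbl_EL, unbl_EL_symm, fun v => 1 + v % 2, fun v => by
    simp only; omega, ?_, ?_⟩
  · intro a ha
    simp only [axL, List.mem_cons, List.not_mem_nil, or_false] at ha
    rcases ha with rfl | rfl | rfl
    · intro x h1 _ h3
      have a0 := unbl_bit2 (h1 0 (by decide))
      have a1 := unbl_bit2 (h1 1 (by decide))
      have e := unbl_EL_t.mp (h3 ⟨0, 1, true⟩ (by simp [eg, cl]))
      rcases e with e | e <;> simp only at e <;> omega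
    · intro x h1 _ h3
      have a0 := unbl_bit4 (h1 0 (by decide))
      have a1 := unbl_bit4 (h1 1 (by decide))
      have e := unbl_EL_t.mp (h3 ⟨0, 1, true⟩ (by simp [eg, cl]))
      rcases e with e | e <;> simp only at e <;> omega
    · intro x h1 _ h3
      have a0 := unbl_bit2 (h1 0 (by decide))
      have a1 := unbl_bit2 (h1 1 (by decide))
      have a2 := unbl_bit4 (h1 2 (by decide))
      have a3 := unbl_bit4 (h1 3 (by decide))
      have a4 := unbl_bit4 (h1 4 (by decide))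
      have e02 := (unbl_RL_iff a0 a2).mp (unbl_EL_t.mp (h3 ⟨0, 2, true⟩ (by simp [cl])))
      have e03 := (unbl_RL_iff a0 a3).mp (unbl_EL_t.mp (h3 ⟨0, 3, true⟩ (by simp [cl])))
      have e04 := (unbl_RL_iff a0 a4).not.mp (unbl_EL_f.mp (h3 ⟨0, 4, false⟩ (by simp [cl])))
      have e12 := (unbl_RL_iff a1 a2).mp (unbl_EL_t.mp (h3 ⟨1, 2, true⟩ (by simp [cl])))
      have e13 := (unbl_RL_iff a1 a3).not.mp (unbl_EL_f.mp (h3 ⟨1, 3, false⟩ (by simp [cl])))
      have e14 := (unbl_RL_iff a1 a4).mp (unbl_EL_t.mp (h3 ⟨1, 4, true⟩ (by simp [cl])))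
      rcases unbl_cmp e02 e12 with h | h
      · exact e04 (unbl_trans h e14)
      · exact e13 (unbl_trans h e03)
  · refine unb_of_tree unbl_EL_symm (fun r => 0 < r) (fun r => {z | unbl_anc r (z / 2)})
      (fun r i => 4 * r + i) (fun r => 2 * r) 1 one_pos (fun r hr i => by omega) ?_ ?_ ?_ ?_
    · intro r _
      change unbl_anc r (2 * r / 2)
      rw [Nat.mul_div_cancel_left r two_pos]
      exact unbl_refl r
    · intro r _ i z hz
      exact unbl_trans (unbl_ch r i) hz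
    · intro r hr i j hij
      exact Set.disjoint_left.mpr fun z hz => unbl_dis hr hij hz
    · intro r hr i j hij
      have hno : ∀ x, unbl_anc (4 * r + i) (x / 2) →
          ∀ y ∈ {z | unbl_anc (4 * r + j) (z / 2)}, unbl_EL x y = false := fun x hx y hy =>
        unbl_EL_f.mpr fun h => h.elim (fun h => (unbl_far hr hij hx hy).1 h.2.2)
          (fun h => (unbl_far hr hij hx hy).2 h.2.2)
      have e2 : 2 * r / 2 = r := Nat.mul_div_cancel_left r two_pos
      have hodd : ∀ x, x % 2 = 1 → unbl_anc (4 * r + i) (x / 2) →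
          SideS unbl_EL {z | unbl_anc r (z / 2)} {z | unbl_anc (4 * r + j) (z / 2)} x (2 * r) := by
        intro x h1 hx
        refine ⟨unbl_trans (unbl_ch r i) hx, ?_, unbl_dis hr hij hx, ?_, ?_, Or.inl (hno x hx)⟩
        · change unbl_anc r (2 * r / 2)
          rw [e2]
          exact unbl_refl r
        · intro h
          have := unbl_le h
          omega
        · refine unbl_EL_t.mpr (Or.inr ⟨by omega, h1, ?_⟩)
          rw [e2]
          exact unbl_trans (unbl_ch r i) hx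
      intro x hx
      change unbl_anc (4 * r + i) (x / 2) at hx
      rcases Nat.mod_two_eq_zero_or_one x with h0 | h0
      · have e : (x + 1) / 2 = x / 2 := by omega
        have hx' : unbl_anc (4 * r + i) ((x + 1) / 2) := by rw [e]; exact hx
        refine Relation.ReflTransGen.head (b := x + 1) ?_
          (Relation.ReflTransGen.single (hodd (x + 1) (by omega) hx'))
        refine ⟨unbl_trans (unbl_ch r i) hx, unbl_trans (unbl_ch r i) hx', unbl_dis hr hij hx,
          unbl_dis hr hij hx', unbl_EL_t.mpr (Or.inl ⟨h0, by omega, ?_⟩), Or.inl (hno x hx)⟩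
        rw [e]
        exact unbl_refl _
      · exact Relation.ReflTransGen.single (hodd x h0 hx)

/-- The comparability relation. -/
def unbl_RQ (u v : ℕ) : Prop := u ≠ v ∧ (unbl_anc u v ∨ unbl_anc v u)

open Classical in
/-- The comparability graph. -/
noncomputable def unbl_EQ : Adj := fun u v => decide (unbl_RQ u v)

theorem unbl_EQ_t {u v : ℕ} : unbl_EQ u v = true ↔ unbl_RQ u v := by simp [unbl_EQ]
theorem unbl_EQ_f {u v : ℕ} : unbl_EQ u v = false ↔ ¬ unbl_RQ u v := by simp [unbl_EQ]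

theorem unbl_EQ_symm (u v : ℕ) : unbl_EQ u v = unbl_EQ v u := by
  rw [Bool.eq_iff_iff, unbl_EQ_t, unbl_EQ_t]
  exact ⟨fun h => ⟨h.1.symm, h.2.symm⟩, fun h => ⟨h.1.symm, h.2.symm⟩⟩

theorem unb_Q : Unb 1 axQ := by
  refine ⟨unbl_EQ, unbl_EQ_symm, fun _ => 1, fun _ => ⟨le_rfl, le_rfl⟩, ?_, ?_⟩
  · intro a ha
    simp only [axQ, List.mem_cons, List.not_mem_nil, or_false] at ha
    subst ha
    intro x _ h2 h3
    have e01 := unbl_EQ_t.mp (h3 ⟨0, 1, true⟩ (by simp [cl]))
    have e02 := unbl_EQ_f.mp (h3 ⟨0, 2, false⟩ (by simp [cl]))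
    have e12 := unbl_EQ_t.mp (h3 ⟨1, 2, true⟩ (by simp [cl]))
    have e13 := unbl_EQ_f.mp (h3 ⟨1, 3, false⟩ (by simp [cl]))
    have e23 := unbl_EQ_t.mp (h3 ⟨2, 3, true⟩ (by simp [cl]))
    have n02 : x 0 ≠ x 2 := fun h => absurd (h2 0 (by decide) 2 (by decide) h) (by decide)
    have n13 : x 1 ≠ x 3 := fun h => absurd (h2 1 (by decide) 3 (by decide) h) (by decide)
    have k1 : unbl_anc (x 1) (x 2) := unbl_mid e01.2 e12.2 fun h => e02 ⟨n02, h⟩
    have k2 : unbl_anc (x 2) (x 1) :=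
      unbl_mid e23.2.symm e12.2.symm fun h => e13 ⟨n13, h.symm⟩
    exact e12.1 (le_antisymm (unbl_le k1) (unbl_le k2))
  · refine unb_of_tree unbl_EQ_symm (fun r => 0 < r) (fun r => {z | unbl_anc r z})
      (fun r i => 4 * r + i) (fun r => r) 1 one_pos (fun r hr i => by omega)
      (fun r _ => unbl_refl r) (fun r _ i z hz => unbl_trans (unbl_ch r i) hz)
      (fun r hr i j hij => Set.disjoint_left.mpr fun z hz => unbl_dis hr hij hz) ?_
    intro r hr i j hij x hx
    change unbl_anc (4 * r + i) x at hx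
    have hle := unbl_le hx
    refine Relation.ReflTransGen.single ⟨unbl_trans (unbl_ch r i) hx, unbl_refl r,
      unbl_dis hr hij hx, ?_, ?_, Or.inl fun y hy => ?_⟩
    · intro h
      have := unbl_le h
      omega
    · exact unbl_EQ_t.mpr ⟨by omega, Or.inr (unbl_trans (unbl_ch r i) hx)⟩
    · exact unbl_EQ_f.mpr fun h => h.2.elim (unbl_far hr hij hx hy).1 (unbl_far hr hij hx hy).2

end Pool.Agent.Lib.MP_849b2e_co
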