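import Pool.Agent.Lib.MP_849b2e_co.Bases
import Pool.Agent.Lib.MP_849b2e_co.Three

/-!
Line graphs of binary trees.
-/

namespace Pool.Agent.Lib.MP_849b2e_co

/-- Parent, child or sibling in the binary heap on the positive integers. -/
def unblnE (u v : ℕ) : Bool :=
  decide (u ≠ v ∧ 1 ≤ u ∧ 1 ≤ v ∧ (u / 2 = v ∨ v / 2 = u ∨ u / 2 = v / 2))

/-- Descendants of `r` in the binary heap. -/
def unblnD (r : ℕ) : Set ℕ := {v | ∃ n, v / 2 ^ n = r}

theorem unbln_self (r : ℕ) : r ∈ unblnD r := ⟨0, by simp⟩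

theorem unbln_le {r v : ℕ} (h : v ∈ unblnD r) : r ≤ v := by
  obtain ⟨n, rfl⟩ := h
  exact Nat.div_le_self _ _

theorem unbln_up {r v : ℕ} (h : v / 2 ∈ unblnD r) : v ∈ unblnD r := by
  obtain ⟨n, hn⟩ := h
  exact ⟨n + 1, by rw [pow_succ', ← Nat.div_div_eq_div_mul, hn]⟩

theorem unbln_cases {r v : ℕ} (h : v ∈ unblnD r) : v = r ∨ v / 2 ∈ unblnD r := by
  obtain ⟨n, hn⟩ := h
  rcases n with _ | n
  · exact Or.inl (by simpa using hn)
  · exact Or.inr ⟨n, by rw [Nat.div_div_eq_div_mul, ← pow_succ', hn]⟩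

theorem unbln_trans {a b v : ℕ} (h : v ∈ unblnD a) (h' : a ∈ unblnD b) : v ∈ unblnD b := by
  obtain ⟨n, hn⟩ := h
  obtain ⟨m, hm⟩ := h'
  exact ⟨n + m, by rw [pow_add, ← Nat.div_div_eq_div_mul, hn, hm]⟩

theorem unbln_cmp {a b v : ℕ} (h : v ∈ unblnD a) (h' : v ∈ unblnD b) :
    a ∈ unblnD b ∨ b ∈ unblnD a := by
  obtain ⟨n, hn⟩ := h
  obtain ⟨m, hm⟩ := h'
  rcases le_total n m with l | l
  · obtain ⟨d, rfl⟩ := Nat.exists_eq_add_of_le l
    exact Or.inl ⟨d, by rw [← hn, Nat.div_div_eq_div_mul, ← pow_add, hm]⟩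
  · obtain ⟨d, rfl⟩ := Nat.exists_eq_add_of_le l
    exact Or.inr ⟨d, by rw [← hm, Nat.div_div_eq_div_mul, ← pow_add, hn]⟩

theorem unbln_half {r v : ℕ} (h : v ∈ unblnD r) : v = r ∨ r ≤ v / 2 :=
  (unbln_cases h).imp id unbln_le

theorem unbln_nb {c v w : ℕ} (hv : v ∉ unblnD c) (hw : w ∈ unblnD c) (h : unblnE v w = true) :
    v = c / 2 ∨ v / 2 = c / 2 := by
  have h1 : v / 2 = w ∨ w / 2 = v ∨ v / 2 = w / 2 := (of_decide_eq_true h).2.2.2
  rcases h1 with e | e | e
  · exact (hv (unbln_up (e ▸ hw))).elim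
  · rcases unbln_cases hw with e' | e'
    · exact Or.inl (by rw [← e, e'])
    · exact (hv (e ▸ e')).elim
  · rcases unbln_cases hw with e' | e'
    · exact Or.inr (by rw [e, e'])
    · exact (hv (unbln_up (e ▸ e'))).elim

theorem unbln_step {r c y : ℕ} (hr : 1 ≤ r) (hy : y ∈ unblnD r) (hne : y ≠ r)
    (hc : y ∉ unblnD c) (h1 : y ≠ c / 2) (h2 : y / 2 ≠ c / 2) :
    SideS unblnE (unblnD r) (unblnD c) y (y / 2) := by
  have h3 : y / 2 ∈ unblnD r := (unbln_cases hy).resolve_left hne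
  have h4 := unbln_le h3
  refine ⟨hy, h3, hc, fun h => hc (unbln_up h), decide_eq_true (by omega), Or.inl fun x hx => ?_⟩
  by_contra h
  rcases unbln_nb hc hx (by simpa using h) with e | e
  · exact h1 e
  · exact h2 e

theorem unbln_dis {r i j : ℕ} (hr : 1 ≤ r) (hi : i < 3) (hj : j < 3) (hij : i ≠ j) {x : ℕ}
    (h : x ∈ unblnD (8 * r + 2 * i)) : x ∉ unblnD (8 * r + 2 * j) := fun h' => by
  rcases unbln_cmp h h' with e | e <;> have := unbln_half e <;> omega

theorem unbln_ch {r i : ℕ} (hi : i < 3) : 8 * r + 2 * i ∈ unblnD r := ⟨3, by omega⟩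

theorem unbln_path {r i j : ℕ} (hr : 1 ≤ r) (hi : i < 3) (hj : j < 3) (hij : i ≠ j) (x : ℕ) :
    x ∈ unblnD (8 * r + 2 * i) →
      Relation.ReflTransGen (SideS unblnE (unblnD r) (unblnD (8 * r + 2 * j))) x r := by
  induction x using Nat.strong_induction_on with
  | _ x ih =>
    intro h
    have hl := unbln_le h
    have hh := unbln_half h
    refine Relation.ReflTransGen.head (unbln_step hr (unbln_trans h (unbln_ch hi)) (by omega)
      (unbln_dis hr hi hj hij h) (by omega) (by omega)) ?_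
    rcases unbln_cases h with e | e
    · have small : ∀ y, y < 8 * r → y ∉ unblnD (8 * r + 2 * j) := fun y hy h' => by
        have := unbln_le h'
        omega
      refine Relation.ReflTransGen.head (unbln_step hr ⟨2, by omega⟩ (by omega)
        (small _ (by omega)) (by omega) (by omega)) ?_
      refine Relation.ReflTransGen.head (unbln_step hr ⟨1, by omega⟩ (by omega)
        (small _ (by omega)) (by omega) (by omega)) ?_
      rw [show x / 2 / 2 / 2 = r by omega]
    · exact ih _ (by omega) e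

theorem unbln_inj {x : ℕ → ℕ} (h : ∀ i < 4, ∀ j < 4, x i = x j → i = j) :
    x 0 ≠ x 2 ∧ x 1 ≠ x 3 ∧ x 1 ≠ x 2 ∧ x 2 ≠ x 3 :=
  ⟨fun e => by simpa using h 0 (by omega) 2 (by omega) e,
    fun e => by simpa using h 1 (by omega) 3 (by omega) e,
    fun e => by simpa using h 1 (by omega) 2 (by omega) e,
    fun e => by simpa using h 2 (by omega) 3 (by omega) e⟩

theorem unb_Ln : Unb 1 axLn := by
  have hE : ∀ u v, unblnE u v = unblnE v u := fun u v => decide_eq_decide.2 (by omega)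
  refine ⟨unblnE, hE, fun _ => 1, fun _ => ⟨le_rfl, le_rfl⟩, ?_,
    unb_of_tree hE (fun r => 1 ≤ r) unblnD (fun r i => 8 * r + 2 * i) id 1 le_rfl
      (fun r hr i => by omega) (fun r _ => unbln_self r)
      (fun r _ i x hx => unbln_trans hx (unbln_ch i.2))
      (fun r hr i j hij => Set.disjoint_left.2 fun x hx =>
        unbln_dis hr i.2 j.2 (fun e => hij (Fin.ext e)) hx)
      (fun r hr i j hij x hx => unbln_path hr i.2 j.2 (fun e => hij (Fin.ext e)) x hx)⟩
  simp only [axLn, List.forall_mem_cons, List.not_mem_nil, false_imp_iff, implies_true, and_true]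
  constructor
  · intro x _ hi hl
    have h := unbln_inj hi
    simp only [cl, List.forall_mem_cons, unblnE, decide_eq_true_eq] at hl
    omega
  · intro x _ hi hl
    have h := unbln_inj hi
    simp only [cl, List.forall_mem_cons, unblnE, decide_eq_true_eq, decide_eq_false_iff_not] at hl
    omega

end Pool.Agent.Lib.MP_849b2e_co
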