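import Pool.Agent.Lib.MP_849b2e_co.Bases
import Pool.Agent.Lib.MP_849b2e_co.Three

/-!
Subdivided binary trees.
-/

namespace Pool.Agent.Lib.MP_849b2e_co

/-- The tree given by a parent function. -/
def unbtE (p : ℕ → ℕ) : Adj := fun u v => decide ((p u = v ∧ v < u) ∨ (p v = u ∧ u < v))

theorem unbtE_symm (p : ℕ → ℕ) (u v : ℕ) : unbtE p u v = unbtE p v u := by
  unfold unbtE
  exact decide_eq_decide.2 or_comm

theorem unbtE_iff (p : ℕ → ℕ) (u v : ℕ) :
    unbtE p u v = true ↔ (p u = v ∧ v < u) ∨ (p v = u ∧ u < v) := by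
  unfold unbtE
  exact decide_eq_true_iff

theorem unbt_le {p : ℕ → ℕ} (h0 : p 0 = 0) (hp : ∀ v, 0 < v → p v < v) (m v : ℕ) :
    p^[m] v ≤ v := by
  induction m with
  | zero => exact le_rfl
  | succ m ih =>
    rw [Function.iterate_succ_apply']
    rcases Nat.eq_zero_or_pos (p^[m] v) with h | h
    · rw [h, h0]; exact Nat.zero_le _
    · exact (hp _ h).le.trans ih

theorem unbt_lt {p : ℕ → ℕ} (h0 : p 0 = 0) (hp : ∀ v, 0 < v → p v < v) {m v : ℕ}
    (hm : 0 < m) (hv : 0 < v) : p^[m] v < v := by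
  obtain ⟨m, rfl⟩ : ∃ k, m = k + 1 := ⟨m - 1, by omega⟩
  rw [Function.iterate_succ_apply]
  exact lt_of_le_of_lt (unbt_le h0 hp m _) (hp v hv)

theorem unbt_inc {p : ℕ → ℕ} (h0 : p 0 = 0) (hp : ∀ v, 0 < v → p v < v) {n r c c' a b v : ℕ}
    (hr : 0 < r) (hc : p^[n] c = r) (hc' : p^[n] c' = r) (hne : c ≠ c') (hab : a ≤ b)
    (ha : p^[a] v = c) (hb : p^[b] v = c') : False := by
  obtain ⟨m, rfl⟩ := Nat.exists_eq_add_of_le' hab
  rw [Function.iterate_add_apply, ha] at hb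
  have hm : 0 < m := by
    rcases Nat.eq_zero_or_pos m with h | h
    · subst h; exact absurd hb hne
    · exact h
  have e : p^[n] c' = p^[m] r := by
    rw [← hb, ← hc, ← Function.iterate_add_apply, ← Function.iterate_add_apply, add_comm]
  have := unbt_lt h0 hp hm hr
  omega

theorem unbt_dis {p : ℕ → ℕ} (h0 : p 0 = 0) (hp : ∀ v, 0 < v → p v < v) {n r c c' a b v : ℕ}
    (hr : 0 < r) (hc : p^[n] c = r) (hc' : p^[n] c' = r) (hne : c ≠ c')
    (ha : p^[a] v = c) (hb : p^[b] v = c') : False := by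
  rcases le_total a b with h | h
  · exact unbt_inc h0 hp hr hc hc' hne h ha hb
  · exact unbt_inc h0 hp hr hc' hc hne.symm h hb ha

theorem unbt_path {p : ℕ → ℕ} (h0 : p 0 = 0) (hp : ∀ v, 0 < v → p v < v) {r c : ℕ}
    (hr : 0 < r) (Q : ℕ → Prop) (hQ : ∀ v, Q v → Q (p v))
    (hn : ∀ v, Q v → ∀ b, p^[b] v ≠ c) (k : ℕ) :
    ∀ v, Q v → p^[k] v = r → Relation.ReflTransGen
      (SideS (unbtE p) {v | ∃ n, p^[n] v = r} {v | ∃ n, p^[n] v = c}) v r := by
  have key : ∀ v, Q v → ∀ y, (∃ n, p^[n] y = c) → unbtE p v y = true → v = p c := by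
    intro v hv y ⟨b, hb⟩ he
    rcases (unbtE_iff p v y).1 he with ⟨h, -⟩ | ⟨h, -⟩
    · exact absurd (h ▸ hb) (hn _ (hQ v hv) b)
    · cases b with
      | zero => rw [← h]; exact congrArg p hb
      | succ b =>
        rw [Function.iterate_succ_apply, h] at hb
        exact absurd hb (hn v hv b)
  induction k with
  | zero => intro v _ h; exact h ▸ Relation.ReflTransGen.refl
  | succ k ih =>
    intro v hv h
    have hpos : 0 < v := lt_of_lt_of_le hr (h ▸ unbt_le h0 hp _ v)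
    have h' : p^[k] (p v) = r := by rw [← Function.iterate_succ_apply]; exact h
    refine Relation.ReflTransGen.head ?_ (ih (p v) (hQ v hv) h')
    refine ⟨⟨k + 1, h⟩, ⟨k, h'⟩, fun ⟨b, hb⟩ => hn v hv b hb,
      fun ⟨b, hb⟩ => hn _ (hQ v hv) b hb, (unbtE_iff p _ _).2 (Or.inl ⟨rfl, hp v hpos⟩), ?_⟩
    by_cases hc : v = p c
    · refine Or.inr fun y hy => ?_
      by_contra he
      have := key _ (hQ v hv) y hy (by simpa using he)
      have := hp v hpos
      omega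
    · refine Or.inl fun y hy => ?_
      by_contra he
      exact hc (key v hv y hy (by simpa using he))

theorem unbt_tree {p : ℕ → ℕ} (h0 : p 0 = 0) (hp : ∀ v, 0 < v → p v < v) (P : ℕ → Prop)
    (ch : ℕ → Fin 3 → ℕ) (n r₀ : ℕ) (h₀ : P r₀) (hP : ∀ r, P r → ∀ i, P (ch r i))
    (hpos : ∀ r, P r → 0 < r) (hch : ∀ r, P r → ∀ i, p^[n] (ch r i) = r)
    (hinj : ∀ r, P r → ∀ i j, i ≠ j → ch r i ≠ ch r j) :
    ∀ c, ∃ S, ¬ LW (unbtE p) S c := by
  refine unb_of_tree (unbtE_symm p) P (fun r => {v | ∃ n, p^[n] v = r}) ch id r₀ h₀ hP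
    (fun r _ => ⟨0, rfl⟩) ?_ ?_ ?_
  · rintro r hr i v ⟨m, hm⟩
    exact ⟨n + m, by rw [Function.iterate_add_apply, hm, hch r hr i]⟩
  · intro r hr i j hij
    refine Set.disjoint_left.2 ?_
    rintro v ⟨a, ha⟩ ⟨b, hb⟩
    exact unbt_dis h0 hp (hpos r hr) (hch r hr i) (hch r hr j) (hinj r hr i j hij) ha hb
  · rintro r hr i j hij x ⟨m, hm⟩
    refine unbt_path h0 hp (hpos r hr) (fun v => ∃ a, p^[a] x = v) ?_ ?_ (n + m) x ⟨0, rfl⟩ ?_
    · rintro v ⟨a, ha⟩
      exact ⟨a + 1, by rw [Function.iterate_succ_apply', ha]⟩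
    · rintro v ⟨a, ha⟩ b hb
      refine unbt_dis h0 hp (hpos r hr) (hch r hr i) (hch r hr j) (hinj r hr i j hij) hm
        (b := b + a) ?_
      rw [Function.iterate_add_apply, ha, hb]
    · rw [Function.iterate_add_apply, hm, hch r hr i]

/-- An edge clause. -/
theorem unbt_eg {E : Adj} {τ : ℕ → ℕ} {s t : ℕ} (hs : s.testBit 0 = false)
    (ht : t.testBit 0 = false)
    (h : ∀ u v, s.testBit (τ u) = true → t.testBit (τ v) = true → E u v = true → False) :
    ClOK E τ (eg s t) := by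
  intro x h1 _ h3
  have a0 := h1 0 (by simp [eg, cl])
  have a1 := h1 1 (by simp [eg, cl])
  have e := h3 ⟨0, 1, true⟩ (by simp [eg, cl])
  simp only [eg, cl, List.getD_cons_zero, List.getD_cons_succ, hs, ht, Bool.false_eq_true,
    false_or] at a0 a1
  exact h _ _ a0 a1 e

/-- A two-neighbours clause. -/
theorem unbt_two {E : Adj} {τ : ℕ → ℕ} {s t : ℕ} (hs : s.testBit 0 = false)
    (ht : t.testBit 0 = false)
    (h : ∀ u v w, s.testBit (τ u) = true → t.testBit (τ v) = true → t.testBit (τ w) = true →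
      E u v = true → E u w = true → v = w) :
    ClOK E τ (two s t) := by
  intro x h1 h2 h3
  have a0 := h1 0 (by simp [two, cl])
  have a1 := h1 1 (by simp [two, cl])
  have a2 := h1 2 (by simp [two, cl])
  have e1 := h3 ⟨0, 1, true⟩ (by simp [two, cl])
  have e2 := h3 ⟨0, 2, true⟩ (by simp [two, cl])
  simp only [two, cl, List.getD_cons_zero, List.getD_cons_succ, hs, ht, Bool.false_eq_true,
    false_or] at a0 a1 a2
  have := h2 1 (by simp [two, cl]) 2 (by simp [two, cl]) (h _ _ _ a0 a1 a2 e1 e2)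
  omega

theorem unbt_c3 (p τ : ℕ → ℕ) :
    ClOK (unbtE p) τ (cl [1, 1, 1] [⟨0, 1, true⟩, ⟨0, 2, true⟩, ⟨1, 2, true⟩]) := by
  intro x _ _ h3
  have e1 := (unbtE_iff p _ _).1 (h3 ⟨0, 1, true⟩ (by simp [cl]))
  have e2 := (unbtE_iff p _ _).1 (h3 ⟨0, 2, true⟩ (by simp [cl]))
  have e3 := (unbtE_iff p _ _).1 (h3 ⟨1, 2, true⟩ (by simp [cl]))
  dsimp only at e1 e2 e3
  omega

theorem unbt_c4 (p τ : ℕ → ℕ) :
    ClOK (unbtE p) τ
      (cl [1, 1, 1, 1] [⟨0, 1, true⟩, ⟨0, 3, true⟩, ⟨1, 2, true⟩, ⟨2, 3, true⟩]) := by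
  intro x _ h2 h3
  have e1 := (unbtE_iff p _ _).1 (h3 ⟨0, 1, true⟩ (by simp [cl]))
  have e2 := (unbtE_iff p _ _).1 (h3 ⟨0, 3, true⟩ (by simp [cl]))
  have e3 := (unbtE_iff p _ _).1 (h3 ⟨1, 2, true⟩ (by simp [cl]))
  have e4 := (unbtE_iff p _ _).1 (h3 ⟨2, 3, true⟩ (by simp [cl]))
  have n1 : x 0 ≠ x 2 := fun h => by simpa using h2 0 (by simp [cl]) 2 (by simp [cl]) h
  have n2 : x 1 ≠ x 3 := fun h => by simpa using h2 1 (by simp [cl]) 3 (by simp [cl]) h
  dsimp only at e1 e2 e3 e4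
  omega

theorem unbt_c6 (p τ : ℕ → ℕ) :
    ClOK (unbtE p) τ (cl [1, 1, 1, 1, 1, 1]
      [⟨0, 1, true⟩, ⟨0, 5, true⟩, ⟨1, 2, true⟩, ⟨2, 3, true⟩, ⟨3, 4, true⟩, ⟨4, 5, true⟩]) := by
  intro x _ h2 h3
  have e1 := (unbtE_iff p _ _).1 (h3 ⟨0, 1, true⟩ (by simp [cl]))
  have e2 := (unbtE_iff p _ _).1 (h3 ⟨0, 5, true⟩ (by simp [cl]))
  have e3 := (unbtE_iff p _ _).1 (h3 ⟨1, 2, true⟩ (by simp [cl]))
  have e4 := (unbtE_iff p _ _).1 (h3 ⟨2, 3, true⟩ (by simp [cl]))
  have e5 := (unbtE_iff p _ _).1 (h3 ⟨3, 4, true⟩ (by simp [cl]))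
  have e6 := (unbtE_iff p _ _).1 (h3 ⟨4, 5, true⟩ (by simp [cl]))
  have n0 : x 0 ≠ x 2 := fun h => by simpa using h2 0 (by simp [cl]) 2 (by simp [cl]) h
  have n1 : x 1 ≠ x 3 := fun h => by simpa using h2 1 (by simp [cl]) 3 (by simp [cl]) h
  have n2 : x 2 ≠ x 4 := fun h => by simpa using h2 2 (by simp [cl]) 4 (by simp [cl]) h
  have n3 : x 3 ≠ x 5 := fun h => by simpa using h2 3 (by simp [cl]) 5 (by simp [cl]) h
  have n4 : x 4 ≠ x 0 := fun h => by simpa using h2 4 (by simp [cl]) 0 (by simp [cl]) h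
  have n5 : x 5 ≠ x 1 := fun h => by simpa using h2 5 (by simp [cl]) 1 (by simp [cl]) h
  dsimp only at e1 e2 e3 e4 e5 e6
  omega

/-- Parent function of the once subdivided binary tree. -/
def unbtP2 (v : ℕ) : ℕ := if v % 2 = 1 then v - 1 else if v = 0 then 0 else 2 * (v / 4) + 1

def unbtT2 (v : ℕ) : ℕ := if v % 2 = 1 then 1 else 2

theorem unbtP2_spec (v : ℕ) : (v % 2 = 1 ∧ unbtP2 v = v - 1) ∨ (v = 0 ∧ unbtP2 v = 0) ∨
    (v % 2 = 0 ∧ 0 < v ∧ unbtP2 v = 2 * (v / 4) + 1) := by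
  unfold unbtP2
  split_ifs <;> omega

theorem unbtE2 {u v : ℕ} (h : unbtE unbtP2 u v = true) :
    (u % 2 = 1 ∧ v % 2 = 0 ∧ (v + 1 = u ∨ u = 2 * (v / 4) + 1)) ∨
      (u % 2 = 0 ∧ v % 2 = 1 ∧ (u + 1 = v ∨ v = 2 * (u / 4) + 1)) := by
  have := (unbtE_iff _ _ _).1 h
  have := unbtP2_spec u
  have := unbtP2_spec v
  omega

theorem unbt_even3 {u a b c : ℕ} (hu : u % 2 = 0) (ha : unbtE unbtP2 u a = true)
    (hb : unbtE unbtP2 u b = true) (hc : unbtE unbtP2 u c = true) : a = b ∨ a = c ∨ b = c := by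
  have := unbtE2 ha
  have := unbtE2 hb
  have := unbtE2 hc
  omega

theorem unbt_star2 : ClOK (unbtE unbtP2) unbtT2
    (cl [1, 1, 1, 1, 1] [⟨0, 1, true⟩, ⟨0, 2, true⟩, ⟨0, 3, true⟩, ⟨0, 4, true⟩]) := by
  intro x _ h2 h3
  have e1 := unbtE2 (h3 ⟨0, 1, true⟩ (by simp [cl]))
  have e2 := unbtE2 (h3 ⟨0, 2, true⟩ (by simp [cl]))
  have e3 := unbtE2 (h3 ⟨0, 3, true⟩ (by simp [cl]))
  have e4 := unbtE2 (h3 ⟨0, 4, true⟩ (by simp [cl]))
  have n12 : x 1 ≠ x 2 := fun h => by simpa using h2 1 (by simp [cl]) 2 (by simp [cl]) h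
  have n13 : x 1 ≠ x 3 := fun h => by simpa using h2 1 (by simp [cl]) 3 (by simp [cl]) h
  have n14 : x 1 ≠ x 4 := fun h => by simpa using h2 1 (by simp [cl]) 4 (by simp [cl]) h
  have n23 : x 2 ≠ x 3 := fun h => by simpa using h2 2 (by simp [cl]) 3 (by simp [cl]) h
  have n24 : x 2 ≠ x 4 := fun h => by simpa using h2 2 (by simp [cl]) 4 (by simp [cl]) h
  have n34 : x 3 ≠ x 4 := fun h => by simpa using h2 3 (by simp [cl]) 4 (by simp [cl]) h
  dsimp only at e1 e2 e3 e4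
  omega

theorem unbt_dbl2 : ClOK (unbtE unbtP2) unbtT2 (cl [1, 1, 1, 1, 1, 1]
    [⟨0, 1, true⟩, ⟨0, 2, true⟩, ⟨0, 3, true⟩, ⟨1, 4, true⟩, ⟨1, 5, true⟩]) := by
  intro x _ h2 h3
  have e1 : unbtE unbtP2 (x 0) (x 1) = true := h3 ⟨0, 1, true⟩ (by simp [cl])
  have e2 : unbtE unbtP2 (x 0) (x 2) = true := h3 ⟨0, 2, true⟩ (by simp [cl])
  have e3 : unbtE unbtP2 (x 0) (x 3) = true := h3 ⟨0, 3, true⟩ (by simp [cl])
  have e4 : unbtE unbtP2 (x 1) (x 4) = true := h3 ⟨1, 4, true⟩ (by simp [cl])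
  have e5 : unbtE unbtP2 (x 1) (x 5) = true := h3 ⟨1, 5, true⟩ (by simp [cl])
  have n12 : x 1 ≠ x 2 := fun h => by simpa using h2 1 (by simp [cl]) 2 (by simp [cl]) h
  have n13 : x 1 ≠ x 3 := fun h => by simpa using h2 1 (by simp [cl]) 3 (by simp [cl]) h
  have n23 : x 2 ≠ x 3 := fun h => by simpa using h2 2 (by simp [cl]) 3 (by simp [cl]) h
  have n04 : x 0 ≠ x 4 := fun h => by simpa using h2 0 (by simp [cl]) 4 (by simp [cl]) h
  have n05 : x 0 ≠ x 5 := fun h => by simpa using h2 0 (by simp [cl]) 5 (by simp [cl]) h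
  have n45 : x 4 ≠ x 5 := fun h => by simpa using h2 4 (by simp [cl]) 5 (by simp [cl]) h
  have e0 := unbtE2 e1
  by_cases h : x 0 % 2 = 0
  · have := unbt_even3 h e1 e2 e3
    omega
  · have := unbt_even3 (u := x 1) (by omega) (unbtE_symm _ _ _ ▸ e1) e4 e5
    omega

theorem unbtT2_1 {u : ℕ} (h : (2 : ℕ).testBit (unbtT2 u) = true) : u % 2 = 1 := by
  unfold unbtT2 at h
  split_ifs at h with c
  · exact c
  · exact absurd h (by decide)

theorem unbtT2_2 {u : ℕ} (h : (4 : ℕ).testBit (unbtT2 u) = true) : u % 2 = 0 := by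
  unfold unbtT2 at h
  split_ifs at h with c
  · exact absurd h (by decide)
  · omega

theorem unbtP2_two {u : ℕ} (hu : 0 < u) : unbtP2 (unbtP2 (2 * u + 1)) = 2 * (u / 2) + 1 := by
  have := unbtP2_spec (2 * u + 1)
  have := unbtP2_spec (unbtP2 (2 * u + 1))
  omega

theorem unb_T2 : Unb 2 axT2 := by
  refine ⟨unbtE unbtP2, unbtE_symm _, unbtT2, fun v => by unfold unbtT2; split_ifs <;> omega,
    ?_, ?_⟩
  · simp only [axT2, List.forall_mem_cons, List.not_mem_nil, false_imp_iff, implies_true, and_true]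
    refine ⟨unbt_eg (by decide) (by decide) fun u v hu hv h => ?_,
      unbt_eg (by decide) (by decide) fun u v hu hv h => ?_,
      unbt_c4 _ _, unbt_c6 _ _, unbt_star2, unbt_dbl2⟩
    · have := unbtT2_1 hu
      have := unbtT2_1 hv
      have := unbtE2 h
      omega
    · have := unbtT2_2 hu
      have := unbtT2_2 hv
      have := unbtE2 h
      omega
  · refine unbt_tree rfl (fun v hv => by have := unbtP2_spec v; omega)
      (fun r => r % 2 = 1 ∧ 3 ≤ r) (fun r i => 2 * (4 * (r / 2) + i) + 1) 4 3 (by decide)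
      (fun r hr i => by constructor <;> omega) (fun r hr => by omega) (fun r hr i => ?_)
      (fun r hr i j hij h => hij (Fin.ext (by omega)))
    have hi := i.2
    show unbtP2 (unbtP2 (unbtP2 (unbtP2 (2 * (4 * (r / 2) + i) + 1)))) = r
    rw [unbtP2_two (by omega), unbtP2_two (by omega)]
    omega

/-- Parent function of the twice subdivided binary tree. -/
def unbtP4 (v : ℕ) : ℕ := if v % 3 = 0 then (if v = 0 then 0 else 3 * (v / 6) + 2) else v - 1

def unbtT4 (v : ℕ) : ℕ :=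
  if v % 6 = 0 then 1 else if v % 6 = 3 then 2 else if v % 3 = 1 then 3 else 4

theorem unbtP4_spec (v : ℕ) : (v % 3 ≠ 0 ∧ unbtP4 v = v - 1) ∨ (v = 0 ∧ unbtP4 v = 0) ∨
    (v % 3 = 0 ∧ 0 < v ∧ unbtP4 v = 3 * (v / 6) + 2) := by
  unfold unbtP4
  split_ifs <;> omega

theorem unbtE4 {u v : ℕ} (h : unbtE unbtP4 u v = true) :
    (u % 3 ≠ 0 ∧ v + 1 = u) ∨ (u % 3 = 0 ∧ v = 3 * (u / 6) + 2) ∨
      (v % 3 ≠ 0 ∧ u + 1 = v) ∨ (v % 3 = 0 ∧ u = 3 * (v / 6) + 2) := by
  have := (unbtE_iff _ _ _).1 h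
  have := unbtP4_spec u
  have := unbtP4_spec v
  omega

theorem unbtT4_2 {u : ℕ} (h : (2 : ℕ).testBit (unbtT4 u) = true) : u % 6 = 0 := by
  unfold unbtT4 at h
  split_ifs at h <;> first | omega | exact absurd h (by decide)

theorem unbtT4_4 {u : ℕ} (h : (4 : ℕ).testBit (unbtT4 u) = true) : u % 6 = 3 := by
  unfold unbtT4 at h
  split_ifs at h <;> first | omega | exact absurd h (by decide)

theorem unbtT4_6 {u : ℕ} (h : (6 : ℕ).testBit (unbtT4 u) = true) : u % 3 = 0 := by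
  unfold unbtT4 at h
  split_ifs at h <;> first | omega | exact absurd h (by decide)

theorem unbtT4_8 {u : ℕ} (h : (8 : ℕ).testBit (unbtT4 u) = true) : u % 3 = 1 := by
  unfold unbtT4 at h
  split_ifs at h <;> first | omega | exact absurd h (by decide)

theorem unbtT4_16 {u : ℕ} (h : (16 : ℕ).testBit (unbtT4 u) = true) : u % 3 = 2 := by
  unfold unbtT4 at h
  split_ifs at h <;> first | omega | exact absurd h (by decide)

theorem unbtP4_three {u : ℕ} (hu : 0 < u) :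
    unbtP4 (unbtP4 (unbtP4 (3 * u + 2))) = 3 * (u / 2) + 2 := by
  have := unbtP4_spec (3 * u + 2)
  have := unbtP4_spec (unbtP4 (3 * u + 2))
  have := unbtP4_spec (unbtP4 (unbtP4 (3 * u + 2)))
  omega

theorem unb_T4 : Unb 4 axT4 := by
  refine ⟨unbtE unbtP4, unbtE_symm _, unbtT4, fun v => by unfold unbtT4; split_ifs <;> omega,
    ?_, ?_⟩
  · simp only [axT4, List.forall_mem_cons, List.not_mem_nil, false_imp_iff, implies_true, and_true]
    refine ⟨unbt_eg (by decide) (by decide) fun u v hu hv h => ?_,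
      unbt_eg (by decide) (by decide) fun u v hu hv h => ?_,
      unbt_eg (by decide) (by decide) fun u v hu hv h => ?_,
      unbt_two (by decide) (by decide) fun u v w hu hv hw h h' => ?_,
      unbt_two (by decide) (by decide) fun u v w hu hv hw h h' => ?_,
      unbt_two (by decide) (by decide) fun u v w hu hv hw h h' => ?_,
      unbt_two (by decide) (by decide) fun u v w hu hv hw h h' => ?_,
      unbt_two (by decide) (by decide) fun u v w hu hv hw h h' => ?_,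
      unbt_two (by decide) (by decide) fun u v w hu hv hw h h' => ?_,
      unbt_two (by decide) (by decide) fun u v w hu hv hw h h' => ?_,
      unbt_c3 _ _⟩
    · have := unbtT4_6 hu; have := unbtT4_6 hv; have := unbtE4 h; omega
    · have := unbtT4_8 hu; have := unbtT4_8 hv; have := unbtE4 h; omega
    · have := unbtT4_16 hu; have := unbtT4_16 hv; have := unbtE4 h; omega
    · have := unbtT4_6 hu; have := unbtT4_8 hv; have := unbtT4_8 hw
      have := unbtE4 h; have := unbtE4 h'; omega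
    · have := unbtT4_6 hu; have := unbtT4_16 hv; have := unbtT4_16 hw
      have := unbtE4 h; have := unbtE4 h'; omega
    · have := unbtT4_8 hu; have := unbtT4_6 hv; have := unbtT4_6 hw
      have := unbtE4 h; have := unbtE4 h'; omega
    · have := unbtT4_8 hu; have := unbtT4_16 hv; have := unbtT4_16 hw
      have := unbtE4 h; have := unbtE4 h'; omega
    · have := unbtT4_16 hu; have := unbtT4_8 hv; have := unbtT4_8 hw
      have := unbtE4 h; have := unbtE4 h'; omega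
    · have := unbtT4_16 hu; have := unbtT4_2 hv; have := unbtT4_2 hw
      have := unbtE4 h; have := unbtE4 h'; omega
    · have := unbtT4_16 hu; have := unbtT4_4 hv; have := unbtT4_4 hw
      have := unbtE4 h; have := unbtE4 h'; omega
  · refine unbt_tree rfl (fun v hv => by have := unbtP4_spec v; omega)
      (fun r => r % 3 = 2 ∧ 5 ≤ r) (fun r i => 3 * (4 * (r / 3) + i) + 2) 6 5 (by decide)
      (fun r hr i => by constructor <;> omega) (fun r hr => by omega) (fun r hr i => ?_)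
      (fun r hr i j hij h => hij (Fin.ext (by omega)))
    have hi := i.2
    show unbtP4 (unbtP4 (unbtP4 (unbtP4 (unbtP4 (unbtP4 (3 * (4 * (r / 3) + i) + 2)))))) = r
    rw [unbtP4_three (by omega), unbtP4_three (by omega)]
    omega

end Pool.Agent.Lib.MP_849b2e_co
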