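import Pool.Agent.Lib.MP_849b2e_co.UnbAll
import Pool.Agent.Lib.MP_849b2e_co.UnbT
import Pool.Agent.Lib.MP_849b2e_co.UnbL
import Pool.Agent.Lib.MP_849b2e_co.UnbLn
import Pool.Agent.Lib.MP_849b2e_co.UnbG

/-!
The bad pairs give unbounded width.
-/

namespace Pool.Agent.Lib.MP_849b2e_co

theorem badPairs_unb : ∀ p ∈ badPairs, ¬ BdN p.1.g p.2.g := by
  simp only [badPairs, List.forall_mem_cons]
  exact ⟨nb_u00 unb_T2, nb_u01 unb_T2, nb_u02 unb_T2, nb_u03 unb_T2, nb_u04 unb_T2, nb_u05 unb_T2,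
    nb_u06 unb_T2, nb_u07 unb_T2, nb_u08 unb_T2, nb_u09 unb_T2, nb_u10 unb_T2, nb_u11 unb_T2,
    nb_u12 unb_T4, nb_u13 unb_T4, nb_u14 unb_T4, nb_u15 unb_L, nb_u16 unb_L, nb_u17 unb_G1,
    nb_u18 unb_G2, nb_u19 unb_Ln, nb_u20 unb_Ln, nb_u21 unb_Ln, nb_u22 unb_Q, nb_u23 unb_Q,
    fun _ h => absurd h List.not_mem_nil⟩

theorem Bad.not_bdN {α β : Type} {A : SimpleGraph α} {B : SimpleGraph β} (h : Bad A B) :
    ¬ BdN A B := by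
  obtain ⟨p, hp, h1, h2⟩ := h
  exact fun hb => badPairs_unb p hp (hb.mono h1 h2)

end Pool.Agent.Lib.MP_849b2e_co
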