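import Pool.Agent.Lib.MP_849b2e_co.Defs

/-!
The list of the pairs with bounded linear clique-width (up to swapping and complementation).
-/

namespace Pool.Agent.Lib.MP_849b2e_co

/-- `A ≤ X` below means that `A` is an induced subgraph of `X`. -/
def Good {α β : Type} (A : SimpleGraph α) (B : SimpleGraph β) : Prop :=
  -- A ≤ P₃
  A.IsIndContained (gr 3 [(0, 1), (1, 2)]) ∨
  -- A ≤ P₄ and B is a threshold graph, i.e. (2P₂, C₄, P₄)-free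
  (A.IsIndContained (gr 4 [(0, 1), (1, 2), (2, 3)]) ∧
    ¬ (gr 4 [(0, 1), (2, 3)]).IsIndContained B ∧
    ¬ (gr 4 [(0, 1), (1, 2), (2, 3), (0, 3)]).IsIndContained B ∧
    ¬ (gr 4 [(0, 1), (1, 2), (2, 3)]).IsIndContained B) ∨
  -- A complete and B edgeless
  (A = ⊤ ∧ B = ⊥) ∨
  -- A ≤ paw and B edgeless or B ≤ K₁,₃ + 3P₁, K₁,₃ + P₂, S₁,₂,₂, P₁ + S₁,₁,₃
  (A.IsIndContained (gr 4 [(0, 1), (0, 2), (1, 2), (2, 3)]) ∧
    (B = ⊥ ∨ B.IsIndContained (gr 7 [(0, 1), (0, 2), (0, 3)]) ∨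
      B.IsIndContained (gr 6 [(0, 1), (0, 2), (0, 3), (4, 5)]) ∨
      B.IsIndContained (gr 6 [(0, 1), (0, 2), (2, 3), (0, 4), (4, 5)]) ∨
      B.IsIndContained (gr 7 [(1, 2), (1, 3), (1, 4), (4, 5), (5, 6)]))) ∨
  -- A ≤ diamond and B ≤ P₁ + P₂ + P₃, P₁ + P₅
  (A.IsIndContained (gr 4 [(0, 1), (0, 2), (1, 2), (1, 3), (2, 3)]) ∧
    (B.IsIndContained (gr 6 [(1, 2), (3, 4), (4, 5)]) ∨
      B.IsIndContained (gr 6 [(1, 2), (2, 3), (3, 4), (4, 5)]))) ∨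
  -- A ≤ K₃ + P₁ and B ≤ K₁,₃
  (A.IsIndContained (gr 4 [(0, 1), (0, 2), (1, 2)]) ∧
    B.IsIndContained (gr 4 [(0, 1), (0, 2), (0, 3)])) ∨
  -- A ≤ complement of 2P₁ + P₃ and B ≤ 2P₁ + P₃
  (A.IsIndContained (gr 5 [(2, 3), (3, 4)])ᶜ ∧ B.IsIndContained (gr 5 [(2, 3), (3, 4)]))

end Pool.Agent.Lib.MP_849b2e_co
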