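import Pool.Agent.Lib.MP_849b2e_co.ChkSound
import Pool.Agent.Lib.MP_849b2e_co.Ext

/-!
Soundness of the pattern checker `chkPt`, and new parameters.
-/

namespace Pool.Agent.Lib.MP_849b2e_co

variable {T : Tab} {Γ : Ctx} {e : Env}

/-- The labelling extending the parameters by the pattern vertices. -/
def parFn (e : Env) (n : ℕ) (x : ℕ → ℕ) : ℕ → ℕ := fun u => if u < n then e.P u else x (u - n)

theorem init_parFn_lt (e : Env) {n u : ℕ} (x : ℕ → ℕ) (h : u < n) : parFn e n x u = e.P u := by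
  simp [parFn, h]

theorem init_parFn_add (e : Env) (n i : ℕ) (x : ℕ → ℕ) : parFn e n x (n + i) = x i := by
  have : ¬ n + i < n := by omega
  simp [parFn, this]

theorem init_sel (b : Bool) (x y : ℕ) : sel b x y = if b = true then x else y := by
  cases b <;> rfl

theorem init_unique {w u u' t t' : ℕ} (ht : t < w) (ht' : t' < w) (h : w * u + t = w * u' + t') :
    u = u' ∧ t = t' := by
  have hw : 0 < w := by omega
  have h1 : (w * u + t) / w = u := by
    rw [Nat.mul_add_div hw, Nat.div_eq_of_lt ht, Nat.add_zero]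
  have h2 : (w * u' + t') / w = u' := by
    rw [Nat.mul_add_div hw, Nat.div_eq_of_lt ht', Nat.add_zero]
  have h3 : u = u' := by rw [← h1, h, h2]
  subst h3
  exact ⟨rfl, by omega⟩

theorem init_andL (f : Ty → ℕ) (l : List ℕ) {s : ℕ} (hs : (andL T f l).testBit s = true) :
    ∀ t ∈ l, (f (T.ty.get t)).testBit s = true := by
  induction l with
  | nil => simp
  | cons a l ih =>
    cases l with
    | nil =>
      have e1 : andL T f [a] = f (T.ty.get a) := rfl
      rw [e1] at hs
      simpa using hs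
    | cons b l =>
      have e1 : andL T f (a :: b :: l) = f (T.ty.get a) &&& andL T f (b :: l) := rfl
      rw [e1, Nat.testBit_and, Bool.and_eq_true] at hs
      intro t ht
      rcases List.mem_cons.1 ht with rfl | ht
      · exact hs.1
      · exact ih hs.2 t ht

theorem init_rows (f : Ty → ℕ) (w : ℕ) (S : List (List ℕ)) :
    ∀ u j, (rows T f w S u).testBit j = true →
      ∃ i < S.length, ∃ s, j = w * (u + i) + s ∧ (andL T f (S.getD i [])).testBit s = true := by
  induction S with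
  | nil =>
    intro u j h
    have e1 : rows T f w [] u = 0 := rfl
    rw [e1] at h
    simp at h
  | cons l S ih =>
    intro u j h
    have e1 : rows T f w (l :: S) u = rows T f w S (u + 1) ||| (andL T f l <<< (w * u)) := rfl
    rw [e1, Nat.testBit_or, Bool.or_eq_true] at h
    rcases h with h | h
    · obtain ⟨i, hi, s, h1, h2⟩ := ih _ _ h
      refine ⟨i + 1, by simpa using hi, s, ?_, by simpa using h2⟩
      rw [h1]
      congr 2
      omega
    · rw [Nat.testBit_shiftLeft, Bool.and_eq_true, decide_eq_true_eq] at h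
      refine ⟨0, by simp, j - w * u, ?_, by simpa using h.2⟩
      have := h.1
      simp only [Nat.add_zero]
      omega

/-- All recorded pairs are labels below `N` with adjacency `b`. -/
def InitGood (e : Env) (φ : ℕ → ℕ) (N : ℕ) (b : Bool) (P : ℕ) : Prop :=
  ∀ u v, v < 128 → P.testBit (128 * u + v) = true → u < N ∧ v < N ∧ e.E (φ u) (φ v) = b

theorem InitGood.setP {φ : ℕ → ℕ} {N P u v : ℕ} {b : Bool} (h : InitGood e φ N b P)
    (hN : N ≤ 128) (hu : u < N) (hv : v < N) (huv : e.E (φ u) (φ v) = b) :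
    InitGood e φ N b (setP P u v) := by
  intro u' v' hv' hb
  have e1 : Pool.Agent.Lib.MP_849b2e_co.setP P u v
      = (P ||| pw (128 * u + v)) ||| pw (128 * v + u) := rfl
  rw [e1, Nat.testBit_or, Nat.testBit_or, testBit_pw, testBit_pw] at hb
  simp only [Bool.or_eq_true, decide_eq_true_eq] at hb
  rcases hb with (hb | hb) | hb
  · exact h u' v' hv' hb
  · obtain ⟨rfl, rfl⟩ := init_unique (by omega) hv' hb
    exact ⟨hu, hv, huv⟩
  · obtain ⟨rfl, rfl⟩ := init_unique (by omega) hv' hb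
    exact ⟨hv, hu, by rw [e.symm]; exact huv⟩

theorem init_flipIs {F : List (ℕ × ℕ)} {A B : List ℕ} {g : Bool} (h : flipIs F A B g = true)
    {s t : ℕ} (hs : s ∈ A) (ht : t ∈ B) : flipOf F s t = g := by
  cases F with
  | nil =>
    have e1 : flipIs [] A B g = !g := rfl
    have e2 : flipOf [] s t = bit 0 t := rfl
    rw [e1] at h
    rw [e2, bit_eq, Nat.zero_testBit]
    cases g
    · rfl
    · simp at h
  | cons a F =>
    have e2 : flipOf (a :: F) s t = bit (look (a :: F) s) t := rfl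
    rw [e2, bit_eq]
    cases g
    · have e1 : flipIs (a :: F) A B false
          = allb (fun s => Bool.not (meets (look (a :: F) s) (mask B))) A := rfl
      rw [e1, allb_eq, List.all_eq_true] at h
      have h1 := h s hs
      by_contra c
      have c' : (look (a :: F) s).testBit t = true := by simpa using c
      have h2 : meets (look (a :: F) s) (mask B) = true :=
        meets_iff.2 ⟨t, c', by simpa using ht⟩
      simp [h2] at h1
    · have e1 : flipIs (a :: F) A B true = allb (fun s => sub (mask B) (look (a :: F) s)) A := rfl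
      rw [e1, allb_eq, List.all_eq_true] at h
      exact sub_iff.1 (h s hs) t (by simpa using ht)

/-- A conditional sequence of `setP` operations preserves `InitGood`. -/
theorem init_fold {φ : ℕ → ℕ} {N P : ℕ} {b : Bool} (hN : N ≤ 128) (h : InitGood e φ N b P)
    (c : Lit → Bool) (u v : Lit → ℕ) (L : List Lit)
    (hL : ∀ l ∈ L, c l = true → u l < N ∧ v l < N ∧ e.E (φ (u l)) (φ (v l)) = b) :
    InitGood e φ N b (List.rec (motive := fun _ => ℕ) P
      (fun l _ ih => sel (c l) (setP ih (u l) (v l)) ih) L) := by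
  induction L with
  | nil => exact h
  | cons l L ih =>
    have ih' := ih fun l' hl' => hL l' (List.mem_cons_of_mem _ hl')
    show InitGood e φ N b (sel (c l) (setP (List.rec (motive := fun _ => ℕ) P
      (fun l _ ih => sel (c l) (setP ih (u l) (v l)) ih) L) (u l) (v l))
      (List.rec (motive := fun _ => ℕ) P (fun l _ ih => sel (c l) (setP ih (u l) (v l)) ih) L))
    rw [init_sel]
    split_ifs with hc
    · obtain ⟨h1, h2, h3⟩ := hL l List.mem_cons_self hc
      exact ih'.setP hN h1 h2 h3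
    · exact ih'

theorem init_ok {p : Pat} {lv : List ℕ} (h : initOK T Γ p lv = true) :
    Γ.st.n + p.S.length ≤ 128 ∧ (∀ q ∈ lv, Γ.st.live.testBit q = true) ∧
      ∀ l ∈ p.S, ∀ t ∈ l, t < Γ.nt ∧ ∀ q ∈ lv, notPar T Γ t q = true := by
  unfold initOK at h
  simp only [andb_eq, allb_eq, Bool.and_eq_true, List.all_eq_true, bit_eq, ltb_iff,
    Nat.ble_eq] at h
  exact ⟨h.1, h.2.1, h.2.2⟩

theorem init_getD_mem {S : List (List ℕ)} {i : ℕ} (hi : i < S.length) : S.getD i [] ∈ S := by
  rw [List.getD_eq_getElem _ _ hi]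
  exact List.getElem_mem hi

theorem init_adj {p : Pat} {lv : List ℕ} {x τ : ℕ → ℕ} (h : initOK T Γ p lv = true)
    (hx : PEmb e p x τ) (b : Bool) (P : ℕ) (f : Ty → ℕ)
    (hP : InitGood e e.P Γ.st.n b P)
    (hf : ∀ t < Γ.nt, ∀ v ∈ e.U t, ∀ q, (f (T.ty.get t)).testBit q = true →
      q < Γ.st.n ∧ e.E v (e.P q) = b) :
    InitGood e (parFn e Γ.st.n x) (Γ.st.n + p.S.length) b
      (initPl b Γ.st.n p.S.length p (initLits b Γ.st.n p.S.length p
        (Nat.lor P (rows T f 128 p.S Γ.st.n)))) := by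
  obtain ⟨hN, -, hS⟩ := init_ok h
  obtain ⟨hx1, -, hx3, hx4⟩ := hx
  have h0 : InitGood e (parFn e Γ.st.n x) (Γ.st.n + p.S.length) b
      (Nat.lor P (rows T f 128 p.S Γ.st.n)) := by
    intro u v hv hb
    rw [lor_eq, Nat.testBit_or, Bool.or_eq_true] at hb
    rcases hb with hb | hb
    · obtain ⟨h1, h2, h3⟩ := hP u v hv hb
      refine ⟨by omega, by omega, ?_⟩
      rw [init_parFn_lt e x h1, init_parFn_lt e x h2]
      exact h3
    · obtain ⟨i, hi, s, h1, h2⟩ := init_rows f 128 p.S _ _ hb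
      obtain ⟨h3, h4⟩ := hx1 i hi
      obtain ⟨h5, h6⟩ := hf _ (hS _ (init_getD_mem hi) _ h3).1 _ h4 s (init_andL f _ h2 _ h3)
      obtain ⟨rfl, rfl⟩ := init_unique hv (by omega) h1
      refine ⟨by omega, by omega, ?_⟩
      rw [init_parFn_add, init_parFn_lt e x h5]
      exact h6
  have h1 : InitGood e (parFn e Γ.st.n x) (Γ.st.n + p.S.length) b
      (initLits b Γ.st.n p.S.length p (Nat.lor P (rows T f 128 p.S Γ.st.n))) := by
    refine init_fold hN h0 _ (fun l => Nat.add Γ.st.n l.i) (fun l => Nat.add Γ.st.n l.j) p.lits ?_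
    intro l hl hc
    simp only [andb_eq, Bool.and_eq_true, ltb_iff] at hc
    obtain ⟨hi, hj, hc⟩ := hc
    refine ⟨Nat.add_lt_add_left hi _, Nat.add_lt_add_left hj _, ?_⟩
    show e.E (parFn e Γ.st.n x (Γ.st.n + l.i)) (parFn e Γ.st.n x (Γ.st.n + l.j)) = b
    rw [init_parFn_add, init_parFn_add, hx3 l hl, init_flipIs hc (hx1 _ hi).1 (hx1 _ hj).1]
    cases l.b <;> cases b <;> rfl
  refine init_fold hN h1 _ (fun l => Nat.add Γ.st.n l.i) (fun l => l.j) p.pl ?_
  intro l hl hc
  simp only [andb_eq, Bool.and_eq_true, ltb_iff] at hc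
  obtain ⟨hi, hj, hc⟩ := hc
  refine ⟨Nat.add_lt_add_left hi _, by omega, ?_⟩
  show e.E (parFn e Γ.st.n x (Γ.st.n + l.i)) (parFn e Γ.st.n x l.j) = b
  rw [init_parFn_add, init_parFn_lt e x hj, hx4 l hl]
  revert hc
  cases l.b <;> cases b <;> simp

theorem init_live {p : Pat} {lv : List ℕ} {u : ℕ}
    (hu : (initSt T Γ p lv).live.testBit u = true) :
    u ∈ lv ∨ ∃ i < p.S.length, u = Γ.st.n + i := by
  have e1 : (initSt T Γ p lv).live = mask lv ||| ((pw p.S.length - 1) <<< Γ.st.n) := rfl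
  rw [e1, Nat.testBit_or, testBit_mask, Nat.testBit_shiftLeft, pw_eq,
    Nat.testBit_two_pow_sub_one] at hu
  simp only [Bool.or_eq_true, Bool.and_eq_true, decide_eq_true_eq] at hu
  rcases hu with hu | hu
  · exact Or.inl hu
  · exact Or.inr ⟨u - Γ.st.n, hu.2, by omega⟩

theorem initSt_sound {p : Pat} {lv : List ℕ} {x τ : ℕ → ℕ} (h : initOK T Γ p lv = true)
    (H : Holds T Γ e) (hx : PEmb e p x τ) :
    LS T.w Γ.nt e (parFn e Γ.st.n x) (initSt T Γ p lv) := by
  obtain ⟨hN, hlv, hS⟩ := init_ok h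
  have hn : (initSt T Γ p lv).n = Γ.st.n + p.S.length := rfl
  refine ⟨hN, ?_, ?_, ?_, ?_, ?_⟩
  · intro u t ht hb
    have e1 : (initSt T Γ p lv).M = Γ.st.M ||| rows T Ty.anc T.w p.S Γ.st.n := rfl
    rw [e1, Nat.testBit_or, Bool.or_eq_true] at hb
    rw [hn]
    rcases hb with hb | hb
    · obtain ⟨h1, h2, h3⟩ := H.par.m u t ht hb
      refine ⟨by omega, h2, ?_⟩
      rw [init_parFn_lt e x h1]
      exact h3
    · obtain ⟨i, hi, s, h1, h2⟩ := init_rows Ty.anc T.w p.S _ _ hb
      obtain ⟨h3, h4⟩ := hx.1 i hi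
      obtain ⟨h5, h6⟩ := (H.ty _ (hS _ (init_getD_mem hi) _ h3).1 _ h4).1 s
        (init_andL Ty.anc _ h2 _ h3)
      obtain ⟨rfl, rfl⟩ := init_unique ht (lt_of_lt_of_le h5 H.ntw) h1
      refine ⟨by omega, h5, ?_⟩
      rw [init_parFn_add]
      exact h6
  · exact init_adj h hx true Γ.st.P1 Ty.p1 H.par.p1 fun t ht v hv => (H.ty t ht v hv).2.2.1
  · exact init_adj h hx false Γ.st.P0 Ty.p0 H.par.p0 fun t ht v hv => (H.ty t ht v hv).2.2.2.1
  · intro u hu
    rw [hn]
    rcases init_live hu with hu | ⟨i, hi, rfl⟩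
    · have := H.par.live u (hlv u hu)
      omega
    · omega
  · have key : ∀ q ∈ lv, ∀ i < p.S.length, x i ≠ e.P q := by
      intro q hq i hi
      obtain ⟨h3, h4⟩ := hx.1 i hi
      obtain ⟨h5, h6⟩ := hS _ (init_getD_mem hi) _ h3
      exact notPar_sound (h6 q hq) h5 H h4
    intro u v hu hv huv
    rcases init_live hu with hu | ⟨i, hi, rfl⟩ <;> rcases init_live hv with hv | ⟨j, hj, rfl⟩
    · rw [init_parFn_lt e x (H.par.live u (hlv u hu)),
        init_parFn_lt e x (H.par.live v (hlv v hv))] at huv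
      exact H.par.inj u v (hlv u hu) (hlv v hv) huv
    · rw [init_parFn_lt e x (H.par.live u (hlv u hu)), init_parFn_add] at huv
      exact absurd huv.symm (key u hu j hj)
    · rw [init_parFn_lt e x (H.par.live v (hlv v hv)), init_parFn_add] at huv
      exact absurd huv (key v hv i hi)
    · rw [init_parFn_add, init_parFn_add] at huv
      rw [hx.2.1 i hi j hj huv]

theorem splitP_sound {i : ℕ} {p : Pat} (h : AllRef T Γ (splitP i p)) : Refuted T Γ p := by
  unfold splitP at h
  split_ifs at h with hi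
  · intro e H x τ hx
    refine h ⟨p.S.set i [τ i], p.lits, p.pl, p.F⟩
      (List.mem_map.2 ⟨τ i, (hx.1 i hi).1, rfl⟩) e H x τ ⟨?_, ?_, hx.2.2.1, hx.2.2.2⟩
    · intro j hj
      have hj' : j < p.S.length := by simpa using hj
      refine ⟨?_, (hx.1 j hj').2⟩
      have h1 := (hx.1 j hj').1
      by_cases c : i = j
      · subst c
        simp [List.getD_eq_getElem?_getD, hi]
      · simpa [List.getD_eq_getElem?_getD, List.getElem?_set_ne c] using h1
    · intro a ha b hb
      exact hx.2.1 a (by simpa using ha) b (by simpa using hb)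
  · exact h p (List.mem_singleton_self p)

theorem init_oneP {f : Pat → Bool} {L : List Pat} (h : oneP f L = true) :
    ∃ p, L = [p] ∧ f p = true := by
  rcases L with _ | ⟨p, _ | ⟨q, L⟩⟩
  · exact absurd h Bool.false_ne_true
  · exact ⟨p, rfl, h⟩
  · exact absurd h Bool.false_ne_true

theorem init_forceSt (s : St) (f : ℕ → ℕ → ℕ → ℕ → ℕ → Bool) :
    forceSt s f = f s.n s.M s.P1 s.P0 s.live := by
  obtain ⟨n, M, P1, P0, lv⟩ := s
  show (force n fun n => forceH M fun M => forceH P1 fun P1 => forceH P0 fun P0 =>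
    force lv fun lv => f n M P1 P0 lv) = _
  simp only [force_eq, forceH_eq]

theorem chkPt_sound (c : Pt) : ∀ l, chkPt T Γ c l = true → AllRef T Γ l := by
  induction c with
  | L lv q =>
    intro l h
    obtain ⟨p, rfl, hp⟩ := init_oneP (f := fun p => andb (initOK T Γ p lv)
      (forceSt (initSt T Γ p lv) fun n M P1 P0 l => chk T Γ q [⟨n, M, P1, P0, l⟩])) h
    rw [andb_eq, Bool.and_eq_true, init_forceSt] at hp
    intro p' hp' e H x τ hx
    obtain rfl := List.mem_singleton.1 hp'
    exact chk_sound T Γ q _ hp.2 (initSt T Γ p' lv) (List.mem_singleton_self _) e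
      (parFn e Γ.st.n x) H (Nat.le_add_right _ _) (fun u hu => init_parFn_lt e x hu)
      (initSt_sound hp.1 H hx)
  | D i ks ih =>
    intro l h
    obtain ⟨p, rfl, hp⟩ := init_oneP (f := fun p => chkPt T Γ ks (splitP i p)) h
    intro p' hp'
    obtain rfl := List.mem_singleton.1 hp'
    exact splitP_sound (ih _ hp)
  | nil =>
    intro l h
    have h' : isNil l = true := h
    rw [isNil_iff.1 h']
    exact allRef_nil T Γ
  | cons a b iha ihb =>
    intro l h
    cases l with
    | nil => exact allRef_nil T Γ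
    | cons s L =>
      have h' : andb (chkPt T Γ a [s]) (chkPt T Γ b L) = true := h
      rw [andb_eq, Bool.and_eq_true] at h'
      intro p hp
      rcases List.mem_cons.1 hp with rfl | hp
      · exact iha _ h'.1 p (List.mem_singleton_self _)
      · exact ihb _ h'.2 p hp

theorem allRef_expand {l : List Pat} (i : ℕ) (h : AllRef T Γ (l.flatMap (splitP i))) :
    AllRef T Γ l := fun p hp =>
  splitP_sound (i := i) fun q hq => h q (List.mem_flatMap.2 ⟨p, hp, hq⟩)

def Env.setP (e : Env) (P : ℕ → ℕ) : Env := ⟨e.E, e.symm, e.U, P⟩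

theorem holds_par {p : Pat} {lv : List ℕ} {x τ : ℕ → ℕ} (h : initOK T Γ p lv = true)
    (H : Holds T Γ e) (hx : PEmb e p x τ) :
    Holds T (parCtx T Γ p lv) (e.setP (parFn e Γ.st.n x)) := by
  have hle : Γ.st.n ≤ (parCtx T Γ p lv).st.n := Nat.le_add_right _ _
  have hP : ∀ q < Γ.st.n, (e.setP (parFn e Γ.st.n x)).P q = e.P q :=
    fun q hq => init_parFn_lt e x hq
  have L := initSt_sound h H hx
  refine ⟨H.ntw, ?_, ?_, H.ax, H.sc, H.dead, ⟨L.n, L.m, L.p1, L.p0, L.live, L.inj⟩, H.md⟩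
  · intro t ht v hv
    obtain ⟨h1, h2, h3, h4, h5⟩ := H.ty t ht v hv
    refine ⟨h1, h2, fun q hq => ?_, fun q hq => ?_, fun q hq => ?_⟩
    · obtain ⟨a, b⟩ := h3 q hq
      exact ⟨lt_of_lt_of_le a hle, by rw [hP q a]; exact b⟩
    · obtain ⟨a, b⟩ := h4 q hq
      exact ⟨lt_of_lt_of_le a hle, by rw [hP q a]; exact b⟩
    · obtain ⟨a, b⟩ := h5 q hq
      exact ⟨lt_of_lt_of_le a hle, by rw [hP q a]; exact b⟩
  · intro i hi
    obtain ⟨⟨w1, w2, w3⟩, hs⟩ := H.ev i hi
    refine ⟨⟨w1, w2, fun q hq => lt_of_lt_of_le (w3 q hq) hle⟩, fun v hv hq => ?_⟩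
    refine hs v hv fun q hq' => ?_
    rw [← hP q (w3 q hq')]
    exact hq q hq'

theorem init_mu_setP {md : Option (List ℕ × List ℕ)} {P : ℕ → ℕ} {S : Finset ℕ} {c : ℕ}
    (h : Mu md (e.setP P) S c) : Mu md e S c := by
  rcases md with _ | ⟨lo, hi⟩
  · exact h
  · exact h

/-- Passing to a context with new parameters. -/
theorem mu_par {p : Pat} {lv : List ℕ} {x τ : ℕ → ℕ} {Γ' : Ctx} {nt c : ℕ} {A A' : List ℕ}
    (h : initOK T Γ p lv = true) (hle : Ctx.le Γ' (parCtx T Γ p lv) = true)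
    (hA : subD nt Γ' A A' = true) (k : ∀ e, Holds T Γ' e → Mu Γ'.md e (e.un A') c)
    (H : Holds T Γ e) (hx : PEmb e p x τ) : Mu Γ.md e (e.un A) c := by
  have H' := holds_le hle (holds_par h H hx)
  have h1 := (k _ H').mono (subD_un hA H') le_rfl
  have h2 : Γ'.md = Γ.md := le_md (Γ := parCtx T Γ p lv) hle
  rw [h2] at h1
  exact init_mu_setP h1

end Pool.Agent.Lib.MP_849b2e_co
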