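import Pool.Agent.Lib.MP_849b2e_co.Rules

set_option maxRecDepth 100000
set_option linter.all false
namespace Pool.Agent.Lib.MP_849b2e_co

noncomputable def h2_ty : Tr Ty := (Tr.br (Tr.br (Tr.br (Tr.br (Tr.br (Tr.br (Tr.br (Tr.br (Tr.leaf ⟨1,0,0,0,0⟩) (Tr.leaf ⟨0x100000000000000000000000000001a11,9518,0,0,0⟩)) (Tr.leaf ⟨0x10008000102010003,0x400060000003c,0,0,0⟩)) (Tr.br (Tr.leaf ⟨0x102010003,0x60000003c,0,0,0⟩) (Tr.leaf ⟨0x1001000000200020010080089,0x8020000001000c0000000076,0,1,0⟩))) (Tr.br (Tr.br (Tr.leaf ⟨65539,60,0,0,0⟩) (Tr.leaf ⟨0x100000080004009040049,0x400180008000b6,0,1,0⟩)) (Tr.br (Tr.leaf ⟨0x1000080408021,0x280000000401e,0,0,0⟩) (Tr.leaf ⟨0x10000001000000200020010080089,0x20000001000c0000000076,0,1,0⟩)))) (Tr.br (Tr.br (Tr.br (Tr.leaf ⟨273,558,0,0,0⟩) (Tr.leaf ⟨0x1000800100040204021,0x40060000000801e,0,1,0⟩))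 (Tr.br (Tr.leaf ⟨0x10009040049,0xc0008000b6,0,0,0⟩) (Tr.leaf ⟨0x104100020000008000102010003,0x8208004000000400060000003c,0,1,0⟩))) (Tr.br (Tr.br (Tr.leaf ⟨0x1040049,0x8000b6,0,0,0⟩) (Tr.leaf ⟨0x10000001000800080408021,0x2000000200300000000401e,0,1,0⟩)) (Tr.br (Tr.leaf ⟨0x100020010080089,0x2000c0000000076,0,0,0⟩) (Tr.leaf ⟨0x1000000000a00000100020010080089,0x4000002000c0000000076,1,0,1⟩)))))
 (Tr.br (Tr.br (Tr.br (Tr.br (Tr.leaf ⟨17,46,0,0,0⟩) (Tr.leaf ⟨0x100080004009040049,0x400180008000b6,0,1,0⟩)) (Tr.br (Tr.leaf ⟨0x1004020005,0x280000003a,0,0,0⟩) (Tr.leaf ⟨0x10400600000100020010080089,0x82008000002000c0000000076,0,1,1⟩))) (Tr.br (Tr.br (Tr.leaf ⟨0x102a11,5422,0,0,0⟩) (Tr.leaf ⟨0x1000000200020010080089,0x20000001000c0000000076,0,1,0⟩)) (Tr.br (Tr.leaf ⟨0x10000804020005,0x2000300000003a,0,0,0⟩)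 (Tr.leaf ⟨0x100000000600000100020010080089,0x800000008000002000c0000000076,0,1,1⟩)))) (Tr.br (Tr.br (Tr.br (Tr.leaf ⟨6673,9518,0,0,0⟩) (Tr.leaf ⟨0x10200200020010080089,0x1000c0000000076,1,0,0⟩)) (Tr.br (Tr.leaf ⟨0x100040204021,0x60000000801e,0,0,0⟩) (Tr.leaf ⟨0x1041001000000200020010080089,0x8208020000001000c0000000076,0,1,0⟩))) (Tr.br (Tr.br (Tr.leaf ⟨0x10080089,118,0,0,0⟩) (Tr.leaf ⟨0x100020000008000102010003,0x8004000000400060000003c,0,1,0⟩)) (Tr.br (Tr.leaf ⟨0x1000800080408021,0x200300000000401e,0,0,0⟩) (Tr.leaf ⟨0x10000000000000000000000009040049,0x8000b6,0,1,0⟩)))))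
)
 (Tr.br (Tr.br (Tr.br (Tr.br (Tr.br (Tr.br (Tr.leaf ⟨5,58,0,0,0⟩) (Tr.leaf ⟨0x400000000000000000000000000000021,30,0,0,0⟩)) (Tr.leaf ⟨0x40020000804020005,0x8001000300000003a,0,1,0⟩)) (Tr.br (Tr.leaf ⟨0x402010003,0x30000003c,0,0,0⟩) (Tr.leaf ⟨0x4100020000008000102010003,0x208004000000400060000003c,0,1,0⟩))) (Tr.br (Tr.br (Tr.leaf ⟨0x40049,182,0,0,0⟩) (Tr.leaf ⟨0x600000100020010080089,0x8000002000c0000000076,0,1,1⟩)) (Tr.br (Tr.leaf ⟨0x4000102010003,0x800060000003c,0,0,0⟩) (Tr.leaf ⟨0x40000020000001000800080408021,0x1000000200300000000401e,1,0,0⟩)))) (Tr.br (Tr.br (Tr.br (Tr.leaf ⟨1553,2350,0,0,0⟩) (Tr.leaf ⟨0x4040020000804020005,0x8001000300000003a,0,1,0⟩)) (Tr.br (Tr.leaf ⟨0x40010080089,0xa0000000076,0,0,0⟩) (Tr.leaf ⟨0x410400600000100020010080089,0x2082008000002000c0000000076,0,1,1⟩)))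 (Tr.br (Tr.br (Tr.leaf ⟨0x4020005,58,0,0,0⟩) (Tr.leaf ⟨0x40000002000800080408021,0x100300000000401e,0,1,0⟩)) (Tr.br (Tr.leaf ⟨0x400100040204021,0x80060000000801e,0,0,0⟩) (Tr.leaf ⟨0x4480000000600000100020010080089,0x1000000008000002000c0000000076,0,1,7⟩)))))
 (Tr.br (Tr.br (Tr.br (Tr.br (Tr.leaf ⟨73,182,0,0,0⟩) (Tr.leaf ⟨0x400400100040204021,0x80060000000801e,0,0,1⟩)) (Tr.br (Tr.leaf ⟨0x4009040049,0x180008000b6,0,0,0⟩) (Tr.leaf ⟨0x41001000000200020010080089,0x208020000001000c0000000076,0,1,0⟩))) (Tr.br (Tr.br (Tr.leaf ⟨0x408021,16414,0,0,0⟩) (Tr.leaf ⟨0x4000000400100040204021,0x80060000000801e,0,1,0⟩)) (Tr.br (Tr.leaf ⟨0x40004009040049,0x800180008000b6,0,0,0⟩) (Tr.leaf ⟨0x480000000600000100020010080089,0x1000000008000002000c0000000076,0,1,1⟩)))) (Tr.br (Tr.br (Tr.br (Tr.leaf ⟨16417,32798,0,0,0⟩)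 (Tr.leaf ⟨0x40000008000102010003,0x2000000400060000003c,1,0,0⟩)) (Tr.br (Tr.leaf ⟨0x400040204021,0x30000000801e,0,0,0⟩) (Tr.leaf ⟨0x4104100020000008000102010003,0x208208004000000400060000003c,0,1,0⟩))) (Tr.br (Tr.br (Tr.leaf ⟨0x40204021,32798,0,0,0⟩) (Tr.leaf ⟨0x400600000100020010080089,0x2008000002000c0000000076,0,1,1⟩)) (Tr.br (Tr.leaf ⟨0x4100020010080089,0x2000c0000000076,0,0,0⟩) (Tr.leaf ⟨0x50000000000000000000000009040049,0x8000b6,0,1,0⟩)))))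
)
)
 (Tr.br (Tr.br (Tr.br (Tr.br (Tr.br (Tr.br (Tr.br (Tr.leaf ⟨3,60,0,0,0⟩) (Tr.leaf ⟨0x200000000000000000000000000002a11,5422,0,0,0⟩)) (Tr.leaf ⟨0x20008000102010003,0x400060000003c,1,0,0⟩)) (Tr.br (Tr.leaf ⟨0x202010003,0x50000003c,0,0,0⟩) (Tr.leaf ⟨0x2100020000008000102010003,0x408004000000400060000003c,0,1,0⟩))) (Tr.br (Tr.br (Tr.leaf ⟨0x20005,58,0,0,0⟩) (Tr.leaf ⟨0x200000100020010080089,0x2000c0000000076,0,0,1⟩)) (Tr.br (Tr.leaf ⟨0x2000080408021,0x180000000401e,0,0,0⟩) (Tr.leaf ⟨0x20000002000000200020010080089,0x10000001000c0000000076,1,0,0⟩)))) (Tr.br (Tr.br (Tr.br (Tr.leaf ⟨529,302,0,0,0⟩) (Tr.leaf ⟨0x2002000800080408021,0x100300000000401e,0,1,0⟩)) (Tr.br (Tr.leaf ⟨0x20010080089,0xc0000000076,0,0,0⟩) (Tr.leaf ⟨0x210400600000100020010080089,0x4082008000002000c0000000076,0,1,1⟩)))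 (Tr.br (Tr.br (Tr.leaf ⟨0x2010003,60,0,0,0⟩) (Tr.leaf ⟨0x20000001000800080408021,0x1000000200300000000401e,1,0,0⟩)) (Tr.br (Tr.leaf ⟨0x200020010080089,0x1000c0000000076,0,0,0⟩) (Tr.leaf ⟨0x2480000000600000100020010080089,0x1000000008000002000c0000000076,0,1,1⟩)))))
 (Tr.br (Tr.br (Tr.br (Tr.br (Tr.leaf ⟨33,30,0,0,0⟩) (Tr.leaf ⟨0x200200020010080089,0x1000c0000000076,1,0,0⟩)) (Tr.br (Tr.leaf ⟨0x2004020005,0x180000003a,0,0,0⟩) (Tr.leaf ⟨0x21001000000200020010080089,0x408020000001000c0000000076,0,1,0⟩))) (Tr.br (Tr.br (Tr.leaf ⟨0x204021,32798,0,0,0⟩) (Tr.leaf ⟨0x2000000200020010080089,0x10000001000c0000000076,1,0,0⟩)) (Tr.br (Tr.leaf ⟨0x20000804020005,0x1000300000003a,0,0,0⟩) (Tr.leaf ⟨0x200000000020000008000102010003,0x4000000400060000003c,0,1,0⟩)))) (Tr.br (Tr.br (Tr.br (Tr.leaf ⟨10769,5422,0,0,0⟩)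 (Tr.leaf ⟨0x20000008000102010003,0x4000000400060000003c,0,1,0⟩)) (Tr.br (Tr.leaf ⟨0x200040204021,0x50000000801e,0,0,0⟩) (Tr.leaf ⟨0x2104100020000008000102010003,0x408208004000000400060000003c,0,1,0⟩))) (Tr.br (Tr.br (Tr.leaf ⟨0x20102a11,5422,0,0,0⟩) (Tr.leaf ⟨0x200600000100020010080089,0x4008000002000c0000000076,0,1,1⟩)) (Tr.br (Tr.leaf ⟨0x2000800080408021,0x100300000000401e,0,0,0⟩) (Tr.leaf ⟨0x20000000000000000000000020102a11,5422,0,0,1⟩)))))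
)
 (Tr.br (Tr.br (Tr.br (Tr.br (Tr.br (Tr.br (Tr.leaf ⟨9,54,0,0,0⟩) (Tr.leaf ⟨0xa00000000000000000000000000002a11,5422,0,0,0⟩)) (Tr.leaf ⟨0x80020000804020005,0x4001000300000003a,1,0,0⟩)) (Tr.br (Tr.leaf ⟨0x804020005,0x300000003a,0,0,0⟩) (Tr.leaf ⟨0x8400600000100020010080089,0x102008000002000c0000000076,0,1,1⟩))) (Tr.br (Tr.br (Tr.leaf ⟨0x80089,118,0,0,0⟩) (Tr.leaf ⟨0xa00000100020010080089,0x4000002000c0000000076,1,0,1⟩)) (Tr.br (Tr.leaf ⟨0x8000102010003,0x400060000003c,0,0,0⟩) (Tr.leaf ⟨0x80000000600000100020010080089,0x1000000008000002000c0000000076,0,1,1⟩)))) (Tr.br (Tr.br (Tr.br (Tr.leaf ⟨2577,1326,0,0,0⟩) (Tr.leaf ⟨0x8100080004009040049,0x400180008000b6,0,1,0⟩)) (Tr.br (Tr.leaf ⟨0x80010080089,0x60000000076,0,0,0⟩) (Tr.leaf ⟨0x841001000000200020010080089,0x10208020000001000c0000000076,0,1,0⟩)))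 (Tr.br (Tr.br (Tr.leaf ⟨0x9040049,0x8000b6,0,0,0⟩) (Tr.leaf ⟨0x80020000008000102010003,0x10004000000400060000003c,0,1,0⟩)) (Tr.br (Tr.leaf ⟨0x800100040204021,0x40060000000801e,0,0,0⟩) (Tr.leaf ⟨0x8900000000600000100020010080089,0x800000008000002000c0000000076,6,1,1⟩)))))
 (Tr.br (Tr.br (Tr.br (Tr.br (Tr.leaf ⟨137,118,0,0,0⟩) (Tr.leaf ⟨0xc00400100040204021,0x80060000000801e,0,1,1⟩)) (Tr.br (Tr.leaf ⟨0x8009040049,0x140008000b6,0,0,0⟩) (Tr.leaf ⟨0x84100020000008000102010003,0x10208004000000400060000003c,0,1,0⟩))) (Tr.br (Tr.br (Tr.leaf ⟨0x840049,0x10000b6,0,0,0⟩) (Tr.leaf ⟨0x8000000800100040204021,0x40060000000801e,0,1,0⟩)) (Tr.br (Tr.leaf ⟨0x80004009040049,0x400180008000b6,0,0,0⟩) (Tr.leaf ⟨0x900000000600000100020010080089,0x800000008000002000c0000000076,0,1,1⟩)))) (Tr.br (Tr.br (Tr.br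 (Tr.leaf ⟨32801,16414,0,0,0⟩) (Tr.leaf ⟨0x80000020000804020005,0x1000300000003a,1,0,0⟩)) (Tr.br (Tr.leaf ⟨0x800080408021,0x300000000401e,0,0,0⟩) (Tr.leaf ⟨0x8000000040000008000102010003,0x2000000400060000003c,1,0,0⟩))) (Tr.br (Tr.br (Tr.leaf ⟨0x80408021,16414,0,0,0⟩) (Tr.leaf ⟨0x801000000200020010080089,0x10020000001000c0000000076,0,1,0⟩)) (Tr.br (Tr.leaf ⟨0x8400100040204021,0x80060000000801e,0,0,0⟩) (Tr.leaf ⟨0x80000000000000000000000000000005,58,0,0,0⟩)))))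
)
)
)

noncomputable def h2_ev : Tr Ev := (Tr.br (Tr.br (Tr.br (Tr.br (Tr.br (Tr.br (Tr.leaf ⟨3,[6,7],0⟩) (Tr.leaf ⟨84,[95,96],0⟩)) (Tr.leaf ⟨58,[70],1⟩)) (Tr.br (Tr.br (Tr.leaf ⟨38,[54,55],0⟩) (Tr.leaf ⟨82,[115,116],0⟩)) (Tr.leaf ⟨81,[82,83],0⟩)))
 (Tr.br (Tr.br (Tr.br (Tr.leaf ⟨5,[14,15],0⟩) (Tr.leaf ⟨98,[103,104],0⟩)) (Tr.leaf ⟨51,[77,78],0⟩)) (Tr.br (Tr.br (Tr.leaf ⟨51,[65],0⟩) (Tr.leaf ⟨29,[125],1⟩)) (Tr.leaf ⟨60,[88,89],0⟩)))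
)
 (Tr.br (Tr.br (Tr.br (Tr.br (Tr.leaf ⟨9,[10,11],0⟩) (Tr.leaf ⟨94,[99,100],0⟩)) (Tr.leaf ⟨59,[72],0⟩)) (Tr.br (Tr.br (Tr.leaf ⟨44,[58,59],0⟩) (Tr.leaf ⟨119,[123],0⟩)) (Tr.leaf ⟨58,[86],0⟩)))
 (Tr.br (Tr.br (Tr.br (Tr.leaf ⟨32,[50,51],0⟩) (Tr.leaf ⟨102,[107,108],0⟩)) (Tr.leaf ⟨55,[80],0⟩)) (Tr.br (Tr.leaf ⟨55,[68],0⟩) (Tr.leaf ⟨77,[91,92],0⟩)))
)
)
 (Tr.br (Tr.br (Tr.br (Tr.br (Tr.br (Tr.leaf ⟨4,[8,9],0⟩) (Tr.leaf ⟨92,[97,98],0⟩)) (Tr.leaf ⟨70,[71],0⟩)) (Tr.br (Tr.br (Tr.leaf ⟨41,[56,57],0⟩) (Tr.leaf ⟨118,[122],6⟩)) (Tr.leaf ⟨57,[84,85],0⟩)))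
 (Tr.br (Tr.br (Tr.br (Tr.leaf ⟨18,[23,24],0⟩) (Tr.leaf ⟨100,[105,106],0⟩)) (Tr.leaf ⟨53,[79],0⟩)) (Tr.br (Tr.leaf ⟨53,[66,67],0⟩) (Tr.leaf ⟨61,[90],0⟩)))
)
 (Tr.br (Tr.br (Tr.br (Tr.br (Tr.leaf ⟨11,[12,13],0⟩) (Tr.leaf ⟨96,[101,102],0⟩)) (Tr.leaf ⟨61,[73],0⟩)) (Tr.br (Tr.br (Tr.leaf ⟨47,[60,61],0⟩) (Tr.leaf ⟨27,[124],0⟩)) (Tr.leaf ⟨59,[87],0⟩)))
 (Tr.br (Tr.br (Tr.br (Tr.leaf ⟨35,[52,53],0⟩) (Tr.leaf ⟨104,[109,110],0⟩)) (Tr.leaf ⟨56,[81],1⟩)) (Tr.br (Tr.leaf ⟨57,[69],0⟩) (Tr.leaf ⟨82,[93,94],0⟩)))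
)
)
)

noncomputable def h2_ax : Tr Ax := (Tr.br (Tr.br (Tr.br (Tr.br (Tr.br (Tr.br (Tr.br (Tr.leaf ⟨[1,1,1,1,1],[⟨0,1,false⟩,⟨0,2,false⟩,⟨0,3,false⟩,⟨0,4,false⟩,⟨1,2,false⟩,⟨1,3,false⟩,⟨1,4,false⟩,⟨2,3,true⟩,⟨2,4,false⟩,⟨3,4,true⟩],[],0⟩) (Tr.leaf ⟨[0x800000000000000,0x20000000000,0x20000000000,0x20000000000],[⟨0,1,true⟩,⟨0,2,true⟩,⟨0,3,true⟩],[],0⟩)) (Tr.br (Tr.leaf ⟨[128,32,32],[⟨0,1,true⟩,⟨0,2,true⟩],[],0⟩) (Tr.leaf ⟨[0x20000000000000000000000000000],[],[],0⟩))) (Tr.br (Tr.br (Tr.leaf ⟨[2,16,32],[⟨1,2,true⟩],[],0⟩) (Tr.leaf ⟨[0x2000000000000000000000000],[],[⟨93,[(0,true)]⟩,⟨95,[(0,true)]⟩],0⟩)) (Tr.leaf ⟨[0x1000000,0x40000],[⟨0,1,true⟩],[],0⟩))) (Tr.br (Tr.br (Tr.br (Tr.leaf ⟨[34,34,12],[⟨0,1,true⟩,⟨0,2,true⟩,⟨1,2,true⟩],[],0⟩) (Tr.leaf ⟨[0x8000000000000000000],[],[],0⟩)) (Tr.br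 (Tr.leaf ⟨[8192,32,32],[⟨0,1,true⟩,⟨0,2,true⟩],[],0⟩) (Tr.leaf ⟨[0x800000000000000000000000000000000],[],[],0⟩))) (Tr.br (Tr.br (Tr.leaf ⟨[56,56,56,56],[⟨0,1,true⟩,⟨0,2,true⟩,⟨0,3,true⟩,⟨1,2,true⟩,⟨1,3,false⟩,⟨2,3,false⟩],[],0⟩) (Tr.leaf ⟨[0x200000000000000000000000000],[],[⟨99,[(0,true)]⟩],0⟩)) (Tr.leaf ⟨[0x10000000000000],[],[⟨44,[(0,false)]⟩,⟨47,[(0,false)]⟩],2⟩))))
 (Tr.br (Tr.br (Tr.br (Tr.br (Tr.leaf ⟨[32,32],[⟨0,1,true⟩],[],0⟩) (Tr.leaf ⟨[0x2000000000000000,0x20000000000,0x20000000000,0x20000000000],[⟨0,1,true⟩,⟨0,2,true⟩,⟨0,3,true⟩],[],0⟩)) (Tr.br (Tr.leaf ⟨[],[],[⟨8,[]⟩],0⟩) (Tr.leaf ⟨[0x400000000000000000000000000000,0x400000000000000000000000000000],[⟨0,1,true⟩],[],0⟩))) (Tr.br (Tr.br (Tr.leaf ⟨[8,16,32],[⟨0,2,false⟩,⟨1,2,false⟩],[],0⟩) (Tr.leaf ⟨[0x20000000000000000000000000],[],[⟨91,[(0,true)]⟩,⟨93,[(0,true)]⟩,⟨95,[(0,true)]⟩],0⟩))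 (Tr.leaf ⟨[0x20000000000],[],[⟨32,[(0,true)]⟩,⟨41,[(0,true)]⟩,⟨44,[(0,true)]⟩,⟨47,[(0,true)]⟩],0⟩))) (Tr.br (Tr.br (Tr.br (Tr.leaf ⟨[8,8,32],[⟨0,1,true⟩,⟨0,2,true⟩,⟨1,2,false⟩],[],0⟩) (Tr.leaf ⟨[0x200000000000000000000000],[],[⟨78,[(0,true)]⟩,⟨83,[(0,true)]⟩,⟨85,[(0,true)]⟩],0⟩)) (Tr.leaf ⟨[32768,64],[⟨0,1,true⟩],[],0⟩)) (Tr.br (Tr.br (Tr.leaf ⟨[16,16,16,32],[⟨0,1,false⟩,⟨0,2,false⟩,⟨0,3,false⟩,⟨1,2,false⟩,⟨1,3,false⟩,⟨2,3,false⟩],[],0⟩) (Tr.leaf ⟨[0x2000000000000000000000000000],[],[⟨105,[(0,true)]⟩,⟨107,[(0,true)]⟩],0⟩)) (Tr.leaf ⟨[0x400000000000000],[],[⟨35,[(0,false)]⟩,⟨38,[(0,false)]⟩,⟨41,[(0,true)]⟩],2⟩))))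
)
 (Tr.br (Tr.br (Tr.br (Tr.br (Tr.br (Tr.leaf ⟨[2,2],[⟨0,1,false⟩],[],0⟩) (Tr.leaf ⟨[0x2000000000000000,0x20000000000,0x800000000,0x800000000],[⟨0,1,true⟩,⟨0,2,false⟩,⟨0,3,false⟩],[],0⟩)) (Tr.br (Tr.leaf ⟨[512,2],[⟨0,1,true⟩],[],0⟩) (Tr.leaf ⟨[0x80000000000000000000000000000],[],[⟨83,[(0,false)]⟩],0⟩))) (Tr.br (Tr.br (Tr.leaf ⟨[8,8,16],[⟨0,2,true⟩,⟨1,2,false⟩],[],0⟩) (Tr.leaf ⟨[0x8000000000000000000000000],[],[⟨91,[(0,true)]⟩,⟨93,[(0,true)]⟩],0⟩)) (Tr.leaf ⟨[0x100000000],[],[⟨41,[(0,true)]⟩],0⟩))) (Tr.br (Tr.br (Tr.br (Tr.leaf ⟨[4,32,32],[⟨0,1,false⟩,⟨0,2,false⟩,⟨1,2,false⟩],[],0⟩) (Tr.leaf ⟨[0x80000000000000000000000],[],[⟨83,[(0,true)]⟩,⟨85,[(0,true)]⟩],0⟩)) (Tr.leaf ⟨[],[],[⟨12,[]⟩],0⟩)) (Tr.br (Tr.br (Tr.leaf ⟨[12,12,12,34],[⟨0,1,false⟩,⟨0,2,false⟩,⟨0,3,false⟩,⟨1,2,false⟩,⟨1,3,false⟩,⟨2,3,true⟩],[],0⟩)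 (Tr.leaf ⟨[0x800000000000000000000000000],[],[⟨99,[(0,true)]⟩,⟨101,[(0,true)]⟩],0⟩)) (Tr.leaf ⟨[0x100000000000000],[],[⟨32,[(0,true)]⟩,⟨41,[(0,true)]⟩,⟨44,[(0,true)]⟩,⟨47,[(0,true)]⟩],2⟩))))
 (Tr.br (Tr.br (Tr.br (Tr.br (Tr.leaf ⟨[4,16],[⟨0,1,false⟩],[],0⟩) (Tr.leaf ⟨[0x10000000000000000],[],[],0⟩)) (Tr.br (Tr.leaf ⟨[2048,128],[⟨0,1,true⟩],[],0⟩) (Tr.leaf ⟨[0x40000000000000000000000000000000],[],[],0⟩))) (Tr.br (Tr.br (Tr.leaf ⟨[8,16,32],[⟨0,2,true⟩,⟨1,2,true⟩],[],0⟩) (Tr.leaf ⟨[0x80000000000000000000000000],[],[⟨99,[(0,true)]⟩,⟨101,[(0,true)]⟩],0⟩)) (Tr.leaf ⟨[0x4000000000000],[],[⟨41,[(0,true)]⟩],2⟩))) (Tr.br (Tr.br (Tr.br (Tr.leaf ⟨[2,8,16],[⟨0,1,true⟩,⟨0,2,true⟩,⟨1,2,true⟩],[],0⟩) (Tr.leaf ⟨[0x800000000000000000000000],[],[⟨78,[(0,true)]⟩,⟨83,[(0,true)]⟩,⟨85,[(0,true)]⟩],0⟩))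 (Tr.leaf ⟨[0x80000,0x80000],[⟨0,1,false⟩],[⟨16,[(0,true),(1,false)]⟩,⟨16,[(0,false),(1,true)]⟩,⟨19,[(0,true),(1,false)]⟩,⟨19,[(0,false),(1,true)]⟩,⟨21,[(0,true),(1,false)]⟩,⟨21,[(0,false),(1,true)]⟩,⟨22,[(0,true),(1,false)]⟩,⟨22,[(0,false),(1,true)]⟩],0⟩)) (Tr.br (Tr.br (Tr.leaf ⟨[16,16,32,32],[⟨0,2,true⟩,⟨0,3,false⟩,⟨1,2,true⟩,⟨1,3,false⟩],[],0⟩) (Tr.leaf ⟨[0x8000000000000000000000000000],[],[],0⟩)) (Tr.leaf ⟨[0x800000000000000,0x20000000000,0x4800000000,0x4800000000],[⟨0,1,true⟩,⟨0,2,false⟩,⟨0,3,false⟩],[],0⟩))))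
)
)
 (Tr.br (Tr.br (Tr.br (Tr.br (Tr.br (Tr.br (Tr.leaf ⟨[4,6],[⟨0,1,true⟩],[],0⟩) (Tr.leaf ⟨[0x1000000000000000],[],[⟨35,[(0,false)]⟩,⟨41,[(0,true)]⟩],2⟩)) (Tr.br (Tr.leaf ⟨[256],[],[⟨1,[(0,true)]⟩],0⟩) (Tr.leaf ⟨[0x40000000000000000000000000000],[],[],0⟩))) (Tr.br (Tr.br (Tr.leaf ⟨[8,8,16],[⟨0,1,false⟩,⟨1,2,false⟩],[],0⟩) (Tr.leaf ⟨[0x4000000000000000000000000,0xa00000000000000000000000],[⟨0,1,true⟩],[],0⟩)) (Tr.leaf ⟨[0x20000000],[],[],0⟩))) (Tr.br (Tr.br (Tr.br (Tr.leaf ⟨[2,8,8],[⟨0,1,true⟩,⟨0,2,true⟩,⟨1,2,true⟩],[],0⟩) (Tr.leaf ⟨[0x10000000000000000000],[],[],0⟩)) (Tr.leaf ⟨[4096],[],[],0⟩)) (Tr.br (Tr.br (Tr.leaf ⟨[6,56,56,56],[⟨0,1,true⟩,⟨0,2,true⟩,⟨0,3,false⟩,⟨1,2,true⟩,⟨1,3,true⟩,⟨2,3,true⟩],[],0⟩) (Tr.leaf ⟨[0x400000000000000000000000000,0x8000000000000000000000000],[⟨0,1,true⟩],[],0⟩))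 (Tr.leaf ⟨[0x40000000000000],[],[⟨44,[(0,false)]⟩],2⟩))))
 (Tr.br (Tr.br (Tr.br (Tr.br (Tr.leaf ⟨[2,32],[⟨0,1,false⟩],[],0⟩) (Tr.leaf ⟨[0x100000000000000,0x4000000000000000,0x1308000000000000,0x1308000000000000],[⟨0,2,true⟩,⟨1,2,false⟩,⟨0,3,true⟩,⟨1,3,false⟩],[⟨51,[(0,false),(1,true)]⟩,⟨56,[(0,false),(1,true)]⟩,⟨57,[(0,false),(1,true)]⟩,⟨60,[(0,false),(1,true)]⟩],1⟩)) (Tr.br (Tr.leaf ⟨[1024],[],[⟨7,[(0,true)]⟩],0⟩) (Tr.leaf ⟨[0x2000000000000000000000000000000],[],[],0⟩))) (Tr.br (Tr.br (Tr.leaf ⟨[8,16,32],[⟨0,1,true⟩],[],0⟩) (Tr.leaf ⟨[0x40000000000000000000000000,0xa80000000000000000000000],[⟨0,1,true⟩],[],0⟩)) (Tr.leaf ⟨[0x100000000],[],[⟨41,[(0,true)]⟩],0⟩))) (Tr.br (Tr.br (Tr.br (Tr.leaf ⟨[2,2,16],[⟨0,2,true⟩,⟨1,2,false⟩],[],0⟩) (Tr.leaf ⟨[0x400000000000000000000000,0x2840000000000000000000],[⟨0,1,true⟩],[],0⟩))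 (Tr.leaf ⟨[0x40000,0x40000],[⟨0,1,false⟩],[⟨21,[(0,true),(1,false)]⟩,⟨21,[(0,false),(1,true)]⟩],0⟩)) (Tr.br (Tr.br (Tr.leaf ⟨[16,16,16,32],[⟨0,1,true⟩,⟨0,2,true⟩,⟨1,2,false⟩],[],0⟩) (Tr.leaf ⟨[0x4000000000000000000000000000,0xa00000000000000000000000000],[⟨0,1,true⟩],[],0⟩)) (Tr.leaf ⟨[0x800000000000000,0x4800000000,0x4800000000,0x4800000000],[⟨0,1,false⟩,⟨0,2,false⟩,⟨0,3,false⟩],[],0⟩))))
)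
 (Tr.br (Tr.br (Tr.br (Tr.br (Tr.br (Tr.leaf ⟨[4,8],[⟨0,1,false⟩],[],0⟩) (Tr.leaf ⟨[0x2000000000000000,0x20000000000,0x20000000000,0x800000000],[⟨0,1,true⟩,⟨0,2,true⟩,⟨0,3,false⟩],[],0⟩)) (Tr.br (Tr.leaf ⟨[256],[],[],0⟩) (Tr.leaf ⟨[0x100000000000000000000000000000,0x800000000000000000000],[⟨0,1,false⟩],[],0⟩))) (Tr.br (Tr.br (Tr.leaf ⟨[8,16,16],[⟨0,1,true⟩,⟨0,2,false⟩,⟨1,2,true⟩],[],0⟩) (Tr.leaf ⟨[0x10000000000000000000000000,0x280000000000000000000000],[⟨0,1,true⟩],[],0⟩)) (Tr.leaf ⟨[0x4000000000],[],[⟨44,[(0,false)]⟩],0⟩))) (Tr.br (Tr.br (Tr.br (Tr.leaf ⟨[8,8,32],[⟨0,1,false⟩,⟨0,2,false⟩,⟨1,2,false⟩],[],0⟩) (Tr.leaf ⟨[0x100000000000000000000000,0x2800000000000000000000],[⟨0,1,true⟩],[],0⟩)) (Tr.leaf ⟨[16384],[],[⟨6,[(0,true)]⟩],0⟩)) (Tr.br (Tr.br (Tr.leaf ⟨[12,12,12,12],[⟨0,1,false⟩,⟨0,2,false⟩,⟨0,3,false⟩,⟨1,2,true⟩,⟨1,3,false⟩,⟨2,3,true⟩],[],0⟩)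 (Tr.leaf ⟨[0x1000000000000000000000000000,0x28000000000000000000000000],[⟨0,1,true⟩],[],0⟩)) (Tr.leaf ⟨[0x200000000000000,0x920100000000,0x920100000000,0x920100000000],[⟨0,1,true⟩,⟨0,2,true⟩,⟨0,3,true⟩],[],0⟩))))
 (Tr.br (Tr.br (Tr.br (Tr.br (Tr.leaf ⟨[6,6,56],[⟨0,1,false⟩,⟨0,2,false⟩,⟨1,2,false⟩],[],0⟩) (Tr.leaf ⟨[0x4000000000000000000],[],[],0⟩)) (Tr.br (Tr.leaf ⟨[4096],[],[⟨5,[(0,true)]⟩],1⟩) (Tr.leaf ⟨[0x200000000000000000000000000000000,0x200000000000000000000000000000000],[⟨0,1,true⟩],[],0⟩))) (Tr.br (Tr.br (Tr.leaf ⟨[16,16,32],[⟨0,1,true⟩,⟨0,2,true⟩],[],0⟩) (Tr.leaf ⟨[0x100000000000000000000000000,0x28000000000000000000000000],[⟨0,1,true⟩],[],0⟩)) (Tr.leaf ⟨[0x8000000000000,0x20000000000,0x20000000000,0x20000000000],[⟨0,1,true⟩,⟨0,2,true⟩,⟨0,3,true⟩],[],0⟩))) (Tr.br (Tr.br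 (Tr.br (Tr.leaf ⟨[2,16,32],[⟨0,1,true⟩],[],0⟩) (Tr.leaf ⟨[0x1000000000000000000000000,0x2840000000000000000000],[⟨0,1,true⟩],[],0⟩)) (Tr.leaf ⟨[0x800000],[],[⟨18,[(0,true)]⟩],0⟩)) (Tr.br (Tr.br (Tr.leaf ⟨[64],[],[⟨5,[(0,true)]⟩],1⟩) (Tr.leaf ⟨[0x10000000000000000000000000000],[],[],0⟩)) (Tr.leaf ⟨[0x800000000000000,0x20000000000,0x20000000000,0x4800000000],[⟨0,1,true⟩,⟨0,2,true⟩,⟨0,3,false⟩],[],0⟩))))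
)
)
)

noncomputable def h2_sc : Tr Sc := (Tr.leaf ⟨[32,35,38,41,44,47],[49,60,18,2,7,3]⟩)
noncomputable def h2_T : Tab := ⟨132,h2_ty,h2_ev,h2_ax,h2_sc⟩
def h2_S0 : St := ⟨0,0,0,0,0⟩
def h2_G0 : Ctx := ⟨8,1,0x1ffffffff,0,0,h2_S0,none⟩
def h2_G1 : Ctx := ⟨10,3,0x7ffffffff,0,0,h2_S0,none⟩
def h2_G2 : Ctx := ⟨10,3,0xfffffffff,0,0,h2_S0,none⟩
def h2_G3 : Ctx := ⟨10,3,0x17ffffffff,0,0,h2_S0,none⟩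
def h2_G4 : Ctx := ⟨10,3,0xfffffffff,0,256,h2_S0,none⟩
def h2_G5 : Ctx := ⟨12,7,0x6fffffffff,0,256,h2_S0,none⟩
def h2_G6 : Ctx := ⟨14,15,0x1efffffffff,0,256,h2_S0,none⟩
def h2_G7 : Ctx := ⟨14,15,0x3efffffffff,0,256,h2_S0,none⟩
def h2_G8 : Ctx := ⟨14,15,0x5efffffffff,0,256,h2_S0,none⟩
def h2_G9 : Ctx := ⟨14,15,0x3efffffffff,0,4352,h2_S0,none⟩
def h2_G10 : Ctx := ⟨16,31,0x1befffffffff,0,4352,h2_S0,none⟩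
def h2_G11 : Ctx := ⟨23,31,0x7befffffffff,0,4352,h2_S0,none⟩
def h2_G12 : Ctx := ⟨25,63,0x1fbefffffffff,0,4352,h2_S0,none⟩
def h2_G13 : Ctx := ⟨32,63,0x1fbefffffffff,0,4352,h2_S0,none⟩
def h2_G14 : Ctx := ⟨32,63,0x3fbefffffffff,0,4352,h2_S0,none⟩
def h2_S1 : St := ⟨1,0x20102a11,0,0,1⟩
def h2_G15 : Ctx := ⟨32,63,0x1fbefffffffff,0,4352,h2_S1,none⟩
def h2_G16 : Ctx := ⟨32,63,0x3fbefffffffff,0,0x20001100,h2_S0,none⟩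
def h2_G17 : Ctx := ⟨50,63,0x3ffbefffffffff,1,0x20001100,h2_S0,none⟩
def h2_G18 : Ctx := ⟨52,127,0xfffbefffffffff,1,0x20001100,h2_S0,none⟩
def h2_G19 : Ctx := ⟨54,255,0x1fffbefffffffff,1,0x20001100,h2_S0,none⟩
def h2_G20 : Ctx := ⟨56,511,0x3fffbefffffffff,1,0x20001100,h2_S0,none⟩
def h2_G21 : Ctx := ⟨58,1023,0xffffbefffffffff,1,0x20001100,h2_S0,none⟩
def h2_G22 : Ctx := ⟨60,2047,0x1fffffbefffffffff,1,0x20001100,h2_S0,none⟩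
def h2_G23 : Ctx := ⟨62,4095,0x1ffffffbefffffffff,1,0x20001100,h2_S0,none⟩
def h2_G24 : Ctx := ⟨62,4095,0x1ffffffbefffffffff,1,0x54000020001100,h2_S0,none⟩
def h2_G25 : Ctx := ⟨62,4095,0x1ffffffbefffffffff,1,0x154000020001100,h2_S0,none⟩
def h2_S2 : St := ⟨1,0x4100020010080089,0,0,1⟩
def h2_G26 : Ctx := ⟨63,4095,0x3ffffffbefffffffff,1,0x54000020001100,h2_S2,none⟩
def h2_G27 : Ctx := ⟨62,4095,0x1ffffffbefffffffff,1,0x1154000020001100,h2_S0,none⟩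
def h2_G28 : Ctx := ⟨62,4095,0x1ffffffbefffffffff,1,0x1554000020001100,h2_S0,none⟩
def h2_S3 : St := ⟨1,0x8400100040204021,0,0,1⟩
def h2_G29 : Ctx := ⟨64,4095,0x1ffffffbefffffffff,1,0x1154000020001100,h2_S3,none⟩
def h2_G30 : Ctx := ⟨65,4095,0x5ffffffbefffffffff,1,0x1554000020001100,h2_S0,none⟩
def h2_G31 : Ctx := ⟨65,4095,0x5ffffffbefffffffff,1,0x11554000020001100,h2_S0,none⟩
def h2_G32 : Ctx := ⟨66,8191,0x1ffffffbefffffffff,1,0x1154000020001100,h2_S3,none⟩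
def h2_G33 : Ctx := ⟨68,16383,0x1ffffffbefffffffff,1,0x1154000020001100,h2_S3,none⟩
def h2_G34 : Ctx := ⟨69,32767,0x1ffffffbefffffffff,1,0x1154000020001100,h2_S3,none⟩
def h2_G35 : Ctx := ⟨70,65535,0x1ffffffbefffffffff,1,0x1154000020001100,h2_S3,none⟩
def h2_G36 : Ctx := ⟨71,0x1ffff,0x1ffffffbefffffffff,1,0x1154000020001100,h2_S3,none⟩
def h2_G37 : Ctx := ⟨72,0x3ffff,0x1ffffffbefffffffff,1,0x1154000020001100,h2_S3,none⟩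
def h2_G38 : Ctx := ⟨73,0x7ffff,0x1ffffffbefffffffff,1,0x1154000020001100,h2_S3,none⟩
def h2_G39 : Ctx := ⟨74,0xfffff,0x1ffffffbefffffffff,1,0x1154000020001100,h2_S3,none⟩
def h2_G40 : Ctx := ⟨74,0xfffff,0x1ffffffbefffffffff,1,0x2821154000020001100,h2_S3,none⟩
def h2_G41 : Ctx := ⟨74,0xfffff,0x1ffffffbefffffffff,1,0x38a1154000020001100,h2_S3,none⟩
def h2_G42 : Ctx := ⟨77,0xfffff,0x39ffffffbefffffffff,1,0x38a1154000020001100,h2_S3,none⟩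
def h2_G43 : Ctx := ⟨77,0xfffff,0x39ffffffbefffffffff,1,0x1f8a1154000020001100,h2_S3,none⟩
def h2_G44 : Ctx := ⟨79,0x100fff,0x3ffffffbefffffffff,1,0x54000020001100,h2_S2,none⟩
def h2_G45 : Ctx := ⟨80,0x300fff,0x3ffffffbefffffffff,1,0x54000020001100,h2_S2,none⟩
def h2_G46 : Ctx := ⟨81,0x700fff,0x3ffffffbefffffffff,1,0x54000020001100,h2_S2,none⟩
def h2_G47 : Ctx := ⟨82,0xf00fff,0x3ffffffbefffffffff,1,0x54000020001100,h2_S2,none⟩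
def h2_G48 : Ctx := ⟨84,0x1f00fff,0x3ffffffbefffffffff,1,0x54000020001100,h2_S2,none⟩
def h2_G49 : Ctx := ⟨86,0x3f00fff,0x3ffffffbefffffffff,1,0x54000020001100,h2_S2,none⟩
def h2_G50 : Ctx := ⟨87,0x7f00fff,0x3ffffffbefffffffff,1,0x54000020001100,h2_S2,none⟩
def h2_G51 : Ctx := ⟨88,0xff00fff,0x3ffffffbefffffffff,1,0x54000020001100,h2_S2,none⟩
def h2_G52 : Ctx := ⟨90,0x1ff00fff,0x3ffffffbefffffffff,1,0x54000020001100,h2_S2,none⟩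
def h2_G53 : Ctx := ⟨91,0x3ff00fff,0x3ffffffbefffffffff,1,0x54000020001100,h2_S2,none⟩
def h2_G54 : Ctx := ⟨91,0x3ff00fff,0x3ffffffbefffffffff,1,0x4100000054000020001100,h2_S2,none⟩
def h2_G55 : Ctx := ⟨93,0x7ff00fff,0xc3ffffffbefffffffff,1,0x4100000054000020001100,h2_S2,none⟩
def h2_G56 : Ctx := ⟨95,0xfff00fff,0x3c3ffffffbefffffffff,1,0x4100000054000020001100,h2_S2,none⟩
def h2_G57 : Ctx := ⟨97,0x1fff00fff,0xfc3ffffffbefffffffff,1,0x4100000054000020001100,h2_S2,none⟩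
def h2_G58 : Ctx := ⟨99,0x3fff00fff,0x3fc3ffffffbefffffffff,1,0x4100000054000020001100,h2_S2,none⟩
def h2_G59 : Ctx := ⟨101,0x7fff00fff,0xffc3ffffffbefffffffff,1,0x4100000054000020001100,h2_S2,none⟩
def h2_G60 : Ctx := ⟨103,0xffff00fff,0x3ffc3ffffffbefffffffff,1,0x4100000054000020001100,h2_S2,none⟩
def h2_G61 : Ctx := ⟨105,0x1ffff00fff,0xfffc3ffffffbefffffffff,1,0x4100000054000020001100,h2_S2,none⟩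
def h2_G62 : Ctx := ⟨107,0x3ffff00fff,0x3fffc3ffffffbefffffffff,1,0x4100000054000020001100,h2_S2,none⟩
def h2_G63 : Ctx := ⟨109,0x7ffff00fff,0xffffc3ffffffbefffffffff,1,0x4100000054000020001100,h2_S2,none⟩
def h2_G64 : Ctx := ⟨111,0xfffff00fff,0x3ffffc3ffffffbefffffffff,1,0x4100000054000020001100,h2_S2,none⟩
def h2_G65 : Ctx := ⟨111,0xfffff00fff,0x3ffffc3ffffffbefffffffff,1,0x540005c180000054000020001100,h2_S2,none⟩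
def h2_G66 : Ctx := ⟨115,0xfffff00fff,0x3fffffc3ffffffbefffffffff,1,0x540005c180000054000020001100,h2_S2,none⟩
def h2_G67 : Ctx := ⟨115,0xfffff00fff,0x3fffffc3ffffffbefffffffff,1,0x7d40005c180000054000020001100,h2_S2,none⟩
def h2_G68 : Ctx := ⟨117,0x1fffff00fff,0xffffffc3ffffffbefffffffff,1,0x7d40005c180000054000020001100,h2_S2,none⟩
def h2_G69 : Ctx := ⟨121,0x1fffff00fff,0xffffffc3ffffffbefffffffff,1,0x7d40005c180000054000020001100,h2_S2,none⟩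
def h2_G70 : Ctx := ⟨121,0x1fffff00fff,0x1ffffffc3ffffffbefffffffff,1,0x7d40005c180000054000020001100,h2_S2,none⟩
def h2_S4 : St := ⟨3,0x480000000600000100020010080089000480000000600000100020010080089000000000000000004100020010080089,0x20000000000000000000000000000000400000000000000000000000000000000,0x10000000000000000000000000000000100000000000000000000000000000000,7⟩
def h2_G71 : Ctx := ⟨121,0x1fffff00fff,0xffffffc3ffffffbefffffffff,1,0x7d40005c180000054000020001100,h2_S4,none⟩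
def h2_G72 : Ctx := ⟨122,0x1fffff00fff,0x3ffffffc3ffffffbefffffffff,1,0x7d40005c180000054000020001100,h2_S2,none⟩
def h2_G73 : Ctx := ⟨122,0x1fffff00fff,0x3ffffffc3ffffffbefffffffff,1,0x207d40005c180000054000020001100,h2_S2,none⟩
def h2_G74 : Ctx := ⟨123,0x3fffff00fff,0xffffffc3ffffffbefffffffff,1,0x7d40005c180000054000020001100,h2_S4,none⟩
def h2_G75 : Ctx := ⟨124,0x7fffff00fff,0xffffffc3ffffffbefffffffff,1,0x7d40005c180000054000020001100,h2_S4,none⟩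
def h2_G76 : Ctx := ⟨124,0x7fffff00fff,0xffffffc3ffffffbefffffffff,1,0x807d40005c180000054000020001100,h2_S4,none⟩
def h2_G77 : Ctx := ⟨125,0x8000000003f,0x1fbefffffffff,0,4352,h2_S1,none⟩
def h2_G78 : Ctx := ⟨126,0x18000000003f,0x1fbefffffffff,0,4352,h2_S1,none⟩
def h2_G79 : Ctx := ⟨127,0x18000000003f,0x40000000000001fbefffffffff,0,4352,h2_S1,none⟩
def h2_G80 : Ctx := ⟨127,0x18000000003f,0x40000000000001fbefffffffff,0,0x40000000000000000000000000001100,h2_S1,none⟩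
def h2_G81 : Ctx := ⟨14,15,0x5efffffffff,0,322,h2_S0,none⟩
def h2_G82 : Ctx := ⟨131,15,0x8000000000000005efffffffff,0,322,h2_S0,none⟩
def h2_G83 : Ctx := ⟨132,15,0x18000000000000005efffffffff,0,322,h2_S0,none⟩
def h2_G84 : Ctx := ⟨132,15,0x18000000000000005efffffffff,0,0x800000000000000000000000000000142,h2_S0,none⟩
def h2_G85 : Ctx := ⟨10,3,0x17ffffffff,0,96,h2_S0,none⟩
def h2_h34 : List HP := [⟨[0],[],(HT.br true 0 0 (HT.leaf 2) (HT.leaf 5))⟩]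
def h2_h48 : List HP := [⟨[0],[],(HT.leaf 2)⟩,⟨[1],[],(HT.leaf 2)⟩,⟨[2],[],(HT.leaf 3)⟩]
def h2_h79 : List HP := [⟨[0],[],(HT.leaf 2)⟩,⟨[1],[],(HT.br true 0 0 (HT.leaf 2) (HT.leaf 3))⟩,⟨[2],[],(HT.br true 0 0 (HT.leaf 3) (HT.leaf 3))⟩,⟨[3],[],(HT.leaf 2)⟩]
def h2_h85 : List HP := [⟨[0],[],(HT.br true 0 0 (HT.leaf 2) (HT.leaf 2))⟩]
def h2_h96 : List HP := [⟨[0],[],(HT.leaf 2)⟩]
def h2_h106 : List HP := [⟨[0],[],(HT.br true 0 0 (HT.leaf 3) (HT.leaf 2))⟩]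

end Pool.Agent.Lib.MP_849b2e_co
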