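import Pool.Agent.Lib.MP_849b2e_co.Fast
import Pool.Agent.Lib.MP_849b2e_co.Th2
import Pool.Agent.Lib.MP_849b2e_co.RApply
import Pool.Agent.Lib.MP_849b2e_co.Codes

set_option maxRecDepth 100000
set_option linter.all false
namespace Pool.Agent.Lib.MP_849b2e_co

noncomputable def h2_o0c : Pq := (Pq.cons (Pq.L [] 0 (Pf.C 35 0))
 Pq.nil)
theorem h2_o0 : AllRef h2_T h2_G2 (List.map pat1 [8]) :=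
  chkPq_sound h2_o0c _ (by decide +kernel)
noncomputable def h2_o1c : Pq := (Pq.cons (Pq.L [] 3 (Pf.C 13 257))
 (Pq.cons (Pq.L [] 2 (Pf.C 6 2))
 (Pq.cons (Pq.L [] 3 (Pf.C 18 257))
 (Pq.cons (Pq.L [] 3 (Pf.C 18 257))
 (Pq.cons (Pq.L [] 1 (Pf.W 37 0 [] [1] (Pf.cons (Pf.B 3 1 (Pf.C 19 16387) (Pf.C 38 385)) Pf.nil)))
 (Pq.cons (Pq.L [] 0 (Pf.W 37 0 [] [1] (Pf.cons (Pf.C 21 16387) Pf.nil)))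
 Pq.nil))))))
theorem h2_o1 : AllRef h2_T h2_G5 (splitObl [1,2,6,7,11,5] [10]) :=
  chkPq_sound h2_o1c _ (by decide +kernel)
noncomputable def h2_o2c : Pq := (Pq.cons (Pq.L [] 0 (Pf.C 41 0))
 Pq.nil)
theorem h2_o2 : AllRef h2_T h2_G7 (List.map pat1 [12]) :=
  chkPq_sound h2_o2c _ (by decide +kernel)
noncomputable def h2_o3c : Pq := (Pq.cons (Pq.L [] 4 (Pf.C 2 257))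
 (Pq.cons (Pq.L [] 2 (Pf.C 1 2))
 (Pq.cons (Pq.L [] 2 (Pf.W 31 2 [] [0] (Pf.cons (Pf.B 3 0 (Pf.C 5 384) (Pf.C 8 32771)) Pf.nil)))
 (Pq.cons (Pq.L [] 2 (Pf.C 34 2))
 (Pq.cons (Pq.L [] 4 (Pf.C 5 257))
 (Pq.cons (Pq.L [] 4 (Pf.C 5 257))
 (Pq.cons (Pq.L [] 2 (Pf.C 1 256))
 (Pq.cons (Pq.L [] 2 (Pf.C 1 256))
 (Pq.cons (Pq.L [] 4 (Pf.C 3 257))
 (Pq.cons (Pq.L [] 4 (Pf.C 3 257))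
 (Pq.cons (Pq.L [] 4 (Pf.C 6 257))
 (Pq.cons (Pq.L [] 2 (Pf.W 31 0 [] [2] (Pf.cons (Pf.B 3 2 (Pf.C 5 386) (Pf.C 8 259)) Pf.nil)))
 (Pq.cons (Pq.L [] 4 (Pf.C 3 130))
 (Pq.cons (Pq.L [] 7 (Pf.W 31 0 [] [1,2] (Pf.cons (Pf.B 3 2 (Pf.C 12 49408) (Pf.B 3 1 (Pf.T 3 4 (Pf.cons (Pf.W 31 0 [3] [1,2] (Pf.cons (Pf.B 4 3 (Pf.B 4 2 (Pf.C 12 65792) (Pf.B 4 1 (Pf.T 4 4 (Pf.cons (Pf.W 31 1 [] [3,4] (Pf.cons (Pf.B 5 4 (Pf.B 5 3 (Pf.T 5 4 (Pf.cons (Pf.W 31 1 [5] [3,4] (Pf.cons (Pf.B 6 5 (Pf.B 6 4 (Pf.B 6 3 (Pf.C 0 0x50218203) (Pf.C 4 390)) (Pf.C 4 518)) (Pf.C 4 646)) Pf.nil)) (Pf.cons (Pf.C 44 133) Pf.nil))) (Pf.C 4 389)) (Pf.C 4 517)) Pf.nil)) (Pf.cons (Pf.C 44 4) Pf.nil))) (Pf.C 24 0x208004))) (Pf.C 4 388)) Pf.nil))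 (Pf.cons (Pf.C 44 3) Pf.nil))) (Pf.C 24 0x208003))) Pf.nil)))
 (Pq.cons (Pq.L [] 2 (Pf.W 31 0 [] [2] (Pf.cons (Pf.B 3 2 (Pf.C 12 49408) (Pf.T 3 4 (Pf.cons (Pf.W 31 0 [3] [2] (Pf.cons (Pf.B 4 2 (Pf.C 12 65792) (Pf.C 32 49666)) Pf.nil)) (Pf.cons (Pf.C 44 3) Pf.nil)))) Pf.nil)))
 (Pq.cons (Pq.L [] 5 (Pf.C 17 32896))
 (Pq.cons (Pq.L [] 2 (Pf.C 44 2))
 (Pq.cons (Pq.L [] 4 (Pf.C 3 130))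
 (Pq.cons (Pq.L [] 2 (Pf.W 31 2 [] [0] (Pf.cons (Pf.B 3 0 (Pf.C 12 49154) (Pf.T 3 4 (Pf.cons (Pf.W 31 2 [3] [0] (Pf.cons (Pf.B 4 0 (Pf.C 12 65538) (Pf.C 32 49664)) Pf.nil)) (Pf.cons (Pf.C 44 259) Pf.nil)))) Pf.nil)))
 (Pq.cons (Pq.L [] 2 (Pf.C 38 2))
 (Pq.cons (Pq.L [] 2 (Pf.C 34 256))
 (Pq.cons (Pq.L [] 4 (Pf.C 6 130))
 (Pq.cons (Pq.L [] 2 (Pf.W 31 2 [] [0] (Pf.cons (Pf.C 21 49154) Pf.nil)))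
 (Pq.cons (Pq.L [] 2 (Pf.C 38 256))
 (Pq.cons (Pq.L [] 2 (Pf.W 43 2 [] [0] (Pf.cons (Pf.C 22 32771) Pf.nil)))
 (Pq.cons (Pq.L [] 4 (Pf.C 5 130))
 (Pq.cons (Pq.L [] 2 (Pf.W 43 0 [] [2] (Pf.cons (Pf.C 22 259) Pf.nil)))
 (Pq.cons (Pq.L [] 2 (Pf.C 4 256))
 (Pq.cons (Pq.L [] 2 (Pf.C 4 256))
 (Pq.cons (Pq.L [] 4 (Pf.C 5 130))
 (Pq.cons (Pq.L [] 2 (Pf.C 44 256))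
 (Pq.cons (Pq.L [] 2 (Pf.C 4 256))
 (Pq.cons (Pq.L [] 2 (Pf.C 4 256))
 Pq.nil)))))))))))))))))))))))))))))))))
theorem h2_o3 : AllRef h2_T h2_G10 (twinObl [1,2,6,7,13,14,15] 1 [8,96,32,105,80,14,26]) :=
  chkPq_sound h2_o3c _ (by decide +kernel)
noncomputable def h2_o4c : Pq := (Pq.cons (Pq.L [] 1 (Pf.W 31 0 [] [1] (Pf.cons (Pf.B 3 1 (Pf.C 5 385) (Pf.C 8 131)) Pf.nil)))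
 (Pq.cons (Pq.L [] 2 (Pf.C 3 2))
 (Pq.cons (Pq.L [] 3 (Pf.B 2 1 (Pf.W 31 0 [] [1,2] (Pf.cons (Pf.B 3 1 (Pf.C 12 49280) (Pf.B 3 2 (Pf.T 3 4 (Pf.cons (Pf.W 31 0 [3] [1,2] (Pf.cons (Pf.B 4 3 (Pf.B 4 1 (Pf.C 12 65664) (Pf.B 4 2 (Pf.T 4 4 (Pf.cons (Pf.W 31 2 [] [3,4] (Pf.cons (Pf.B 5 4 (Pf.B 5 3 (Pf.T 5 4 (Pf.cons (Pf.W 31 2 [5] [3,4] (Pf.cons (Pf.B 6 5 (Pf.B 6 4 (Pf.B 6 3 (Pf.C 0 0x50418203) (Pf.C 4 390)) (Pf.C 4 518)) (Pf.C 4 646)) Pf.nil)) (Pf.cons (Pf.C 44 261) Pf.nil))) (Pf.C 4 389)) (Pf.C 4 517)) Pf.nil)) (Pf.cons (Pf.C 44 4) Pf.nil))) (Pf.C 24 0x404004))) (Pf.C 4 388)) Pf.nil)) (Pf.cons (Pf.C 44 3) Pf.nil))) (Pf.C 24 0x404003))) Pf.nil)) (Pf.W 45 256 [] [1] (Pf.cons (Pf.B 3 1 (Pf.C 12 49280) (Pf.C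 12 49409)) (Pf.cons (Pf.B 3 1 (Pf.C 12 49282) (Pf.C 12 49153)) Pf.nil)))))
 (Pq.cons (Pq.L [] 1 (Pf.W 31 0 [] [1] (Pf.cons (Pf.B 3 1 (Pf.C 12 49280) (Pf.W 31 0 [3] [1] (Pf.cons (Pf.B 4 1 (Pf.C 12 65664) (Pf.C 32 49665)) Pf.nil))) Pf.nil)))
 (Pq.cons (Pq.L [] 1 (Pf.W 31 0 [] [1] (Pf.cons (Pf.C 21 49280) Pf.nil)))
 (Pq.cons (Pq.L [] 3 (Pf.B 2 1 (Pf.W 31 0 [1] [2] (Pf.cons (Pf.B 3 2 (Pf.B 3 1 (Pf.T 3 4 (Pf.cons (Pf.W 43 2 [] [0,1,3] (Pf.cons (Pf.B 4 0 (Pf.B 4 3 (Pf.B 4 1 (Pf.W 31 4 [2] [1,3] (Pf.cons (Pf.B 5 3 (Pf.B 5 2 (Pf.B 5 1 (Pf.C 0 0x20814181) (Pf.C 4 133)) (Pf.C 4 261)) (Pf.C 4 389)) Pf.nil)) (Pf.W 47 0 [] [1,3,4] (Pf.cons (Pf.B 5 3 (Pf.C 12 49792) (Pf.B 5 4 (Pf.B 5 1 (Pf.C 12 17024) (Pf.C 24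 0x800281)) (Pf.C 12 49669))) Pf.nil))) (Pf.W 47 0 [] [2,3,4] (Pf.cons (Pf.B 5 3 (Pf.C 12 49792) (Pf.B 5 4 (Pf.C 24 0x800283) (Pf.B 5 2 (Pf.C 12 33412) (Pf.C 12 32773)))) Pf.nil))) (Pf.C 12 32772)) Pf.nil)) (Pf.cons (Pf.C 44 3) Pf.nil))) (Pf.C 4 131)) (Pf.C 4 259)) Pf.nil)) (Pf.C 4 130)))
 (Pq.cons (Pq.L [] 1 (Pf.C 44 1))
 Pq.nil)))))))
theorem h2_o4 : AllRef h2_T h2_G12 (splitObl [16,17,24,19,20,21,22] [23]) :=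
  chkPq_sound h2_o4c _ (by decide +kernel)
noncomputable def h2_o5c : Pq := (Pq.cons (Pq.L [] 4 (Pf.C 2 257))
 (Pq.cons (Pq.L [] 2 (Pf.C 1 2))
 (Pq.cons (Pq.L [] 2 (Pf.W 31 2 [] [0] (Pf.cons (Pf.B 3 0 (Pf.C 5 384) (Pf.C 8 32771)) Pf.nil)))
 (Pq.cons (Pq.L [] 2 (Pf.C 34 2))
 (Pq.cons (Pq.L [] 4 (Pf.C 5 257))
 (Pq.cons (Pq.L [] 4 (Pf.C 5 257))
 (Pq.cons (Pq.L [] 2 (Pf.C 1 256))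
 (Pq.cons (Pq.L [] 2 (Pf.C 1 256))
 (Pq.cons (Pq.L [] 4 (Pf.C 3 257))
 (Pq.cons (Pq.L [] 4 (Pf.C 3 257))
 (Pq.cons (Pq.L [] 4 (Pf.C 6 257))
 (Pq.cons (Pq.L [] 2 (Pf.W 31 0 [] [2] (Pf.cons (Pf.B 3 2 (Pf.C 5 386) (Pf.C 8 259)) Pf.nil)))
 (Pq.cons (Pq.L [] 4 (Pf.C 3 130))
 (Pq.cons (Pq.L [] 7 (Pf.W 31 0 [] [1,2] (Pf.cons (Pf.B 3 2 (Pf.C 12 49408) (Pf.B 3 1 (Pf.T 3 4 (Pf.cons (Pf.W 31 0 [3] [1,2] (Pf.cons (Pf.B 4 3 (Pf.B 4 2 (Pf.C 12 65792) (Pf.B 4 1 (Pf.T 4 4 (Pf.cons (Pf.W 31 1 [] [3,4] (Pf.cons (Pf.B 5 4 (Pf.B 5 3 (Pf.T 5 4 (Pf.cons (Pf.W 31 1 [5] [3,4] (Pf.cons (Pf.B 6 5 (Pf.B 6 4 (Pf.B 6 3 (Pf.C 0 0x50218203) (Pf.C 4 390)) (Pf.C 4 518)) (Pf.C 4 646)) Pf.nil)) (Pf.cons (Pf.C 44 133) Pf.nil))) (Pf.C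 4 389)) (Pf.C 4 517)) Pf.nil)) (Pf.cons (Pf.C 44 4) Pf.nil))) (Pf.C 24 0x208004))) (Pf.C 4 388)) Pf.nil)) (Pf.cons (Pf.C 44 3) Pf.nil))) (Pf.C 24 0x208003))) Pf.nil)))
 (Pq.cons (Pq.L [] 2 (Pf.W 31 0 [] [2] (Pf.cons (Pf.B 3 2 (Pf.C 12 49408) (Pf.T 3 4 (Pf.cons (Pf.W 31 0 [3] [2] (Pf.cons (Pf.B 4 2 (Pf.C 12 65792) (Pf.C 32 49666)) Pf.nil)) (Pf.cons (Pf.C 44 3) Pf.nil)))) Pf.nil)))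
 (Pq.cons (Pq.L [] 5 (Pf.C 17 32896))
 (Pq.cons (Pq.L [] 2 (Pf.C 44 2))
 (Pq.cons (Pq.L [] 4 (Pf.C 3 130))
 (Pq.cons (Pq.L [] 2 (Pf.W 31 2 [] [0] (Pf.cons (Pf.B 3 0 (Pf.C 12 49154) (Pf.T 3 4 (Pf.cons (Pf.W 31 2 [3] [0] (Pf.cons (Pf.B 4 0 (Pf.C 12 65538) (Pf.C 32 49664)) Pf.nil)) (Pf.cons (Pf.C 44 259) Pf.nil)))) Pf.nil)))
 (Pq.cons (Pq.L [] 2 (Pf.C 38 2))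
 (Pq.cons (Pq.L [] 2 (Pf.C 34 256))
 (Pq.cons (Pq.L [] 4 (Pf.C 6 130))
 (Pq.cons (Pq.L [] 2 (Pf.W 31 2 [] [0] (Pf.cons (Pf.C 21 49154) Pf.nil)))
 (Pq.cons (Pq.L [] 2 (Pf.C 38 256))
 (Pq.cons (Pq.L [] 2 (Pf.W 43 2 [] [0] (Pf.cons (Pf.C 22 32771) Pf.nil)))
 (Pq.cons (Pq.L [] 4 (Pf.C 5 130))
 (Pq.cons (Pq.L [] 2 (Pf.W 43 0 [] [2] (Pf.cons (Pf.C 22 259) Pf.nil)))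
 (Pq.cons (Pq.L [] 2 (Pf.C 4 256))
 (Pq.cons (Pq.L [] 2 (Pf.C 4 256))
 (Pq.cons (Pq.L [] 4 (Pf.C 5 130))
 (Pq.cons (Pq.L [] 2 (Pf.C 44 256))
 (Pq.cons (Pq.L [] 2 (Pf.C 4 256))
 (Pq.cons (Pq.L [] 2 (Pf.C 4 256))
 Pq.nil)))))))))))))))))))))))))))))))))
theorem h2_o5 : AllRef h2_T h2_G12 (twinObl [16,17,24,19,20,21,22] 1 [8,96,32,105,80,14,26]) :=
  chkPq_sound h2_o5c _ (by decide +kernel)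
noncomputable def h2_o6c : Pq := (Pq.cons (Pq.L [] 0 (Pf.C 49 0))
 Pq.nil)
theorem h2_o6 : AllRef h2_T h2_G14 (List.map pat1 [29]) :=
  chkPq_sound h2_o6c _ (by decide +kernel)
noncomputable def h2_o7c : Pq := (Pq.cons (Pq.L [] 1 (Pf.C 2 128))
 (Pq.cons (Pq.L [] 1 (Pf.C 1 1))
 (Pq.cons (Pq.L [] 1 (Pf.W 31 1 [] [0] (Pf.cons (Pf.B 2 0 (Pf.C 5 256) (Pf.C 8 16386)) Pf.nil)))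
 (Pq.cons (Pq.L [] 1 (Pf.C 5 128))
 (Pq.cons (Pq.L [] 1 (Pf.C 5 128))
 (Pq.cons (Pq.L [] 1 (Pf.C 1 128))
 (Pq.cons (Pq.L [] 1 (Pf.C 1 128))
 (Pq.cons (Pq.L [] 1 (Pf.C 3 128))
 (Pq.cons (Pq.L [] 1 (Pf.C 3 128))
 (Pq.cons (Pq.L [] 1 (Pf.W 31 0 [] [1] (Pf.cons (Pf.B 2 1 (Pf.C 5 257) (Pf.C 8 130)) Pf.nil)))
 (Pq.cons (Pq.L [] 1 (Pf.C 3 1))
 (Pq.cons (Pq.L [] 1 (Pf.C 48 128))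
 (Pq.cons (Pq.L [] 1 (Pf.W 31 0 [] [1] (Pf.cons (Pf.B 2 1 (Pf.C 12 32896) (Pf.W 31 0 [2] [1] (Pf.cons (Pf.B 3 1 (Pf.C 12 49280) (Pf.C 32 33153)) Pf.nil))) Pf.nil)))
 (Pq.cons (Pq.L [] 1 (Pf.C 44 1))
 (Pq.cons (Pq.L [] 1 (Pf.C 3 1))
 (Pq.cons (Pq.L [] 1 (Pf.W 31 1 [] [0] (Pf.cons (Pf.B 2 0 (Pf.C 12 32769) (Pf.W 31 1 [2] [0] (Pf.cons (Pf.B 3 0 (Pf.C 12 49153) (Pf.C 32 33152)) Pf.nil))) Pf.nil)))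
 (Pq.cons (Pq.L [] 1 (Pf.C 5 1))
 (Pq.cons (Pq.L [] 1 (Pf.C 4 128))
 (Pq.cons (Pq.L [] 1 (Pf.C 4 128))
 (Pq.cons (Pq.L [] 1 (Pf.C 5 1))
 (Pq.cons (Pq.L [] 1 (Pf.C 44 128))
 (Pq.cons (Pq.L [] 1 (Pf.C 4 128))
 (Pq.cons (Pq.L [] 1 (Pf.C 4 128))
 (Pq.cons (Pq.L [] 1 (Pf.C 2 128))
 (Pq.cons (Pq.L [] 1 (Pf.C 1 1))
 (Pq.cons (Pq.L [] 1 (Pf.W 31 1 [] [0] (Pf.cons (Pf.B 2 0 (Pf.C 5 256) (Pf.C 8 16386)) Pf.nil)))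
 (Pq.cons (Pq.L [] 1 (Pf.C 5 128))
 (Pq.cons (Pq.L [] 1 (Pf.C 5 128))
 (Pq.cons (Pq.L [] 1 (Pf.C 1 128))
 (Pq.cons (Pq.L [] 1 (Pf.C 1 128))
 (Pq.cons (Pq.L [] 1 (Pf.C 3 128))
 (Pq.cons (Pq.L [] 1 (Pf.C 3 128))
 (Pq.cons (Pq.L [] 1 (Pf.W 31 0 [] [1] (Pf.cons (Pf.B 2 1 (Pf.C 5 257) (Pf.C 8 130)) Pf.nil)))
 (Pq.cons (Pq.L [] 1 (Pf.C 3 1))
 (Pq.cons (Pq.L [] 1 (Pf.C 48 128))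
 (Pq.cons (Pq.L [] 1 (Pf.W 31 0 [] [1] (Pf.cons (Pf.B 2 1 (Pf.C 12 32896) (Pf.W 31 0 [2] [1] (Pf.cons (Pf.B 3 1 (Pf.C 12 49280) (Pf.C 32 33153)) Pf.nil))) Pf.nil)))
 (Pq.cons (Pq.L [] 1 (Pf.C 44 1))
 (Pq.cons (Pq.L [] 1 (Pf.C 3 1))
 (Pq.cons (Pq.L [] 1 (Pf.W 31 1 [] [0] (Pf.cons (Pf.B 2 0 (Pf.C 12 32769) (Pf.W 31 1 [2] [0] (Pf.cons (Pf.B 3 0 (Pf.C 12 49153) (Pf.C 32 33152)) Pf.nil))) Pf.nil)))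
 (Pq.cons (Pq.L [] 1 (Pf.C 5 1))
 (Pq.cons (Pq.L [] 1 (Pf.C 4 128))
 (Pq.cons (Pq.L [] 1 (Pf.C 4 128))
 (Pq.cons (Pq.L [] 1 (Pf.C 5 1))
 (Pq.cons (Pq.L [] 1 (Pf.C 44 128))
 (Pq.cons (Pq.L [] 1 (Pf.C 4 128))
 (Pq.cons (Pq.L [] 1 (Pf.C 4 128))
 Pq.nil))))))))))))))))))))))))))))))))))))))))))))))
theorem h2_o7 : AllRef h2_T h2_G16 (blockObl [25,26,27,28,30,31] [49,60,18,2,7,3] [8,48,16,57,14,10] [8,48,16,57,14,10]) :=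
  chkPq_sound h2_o7c _ (by decide +kernel)
noncomputable def h2_o8c : Pq := (Pq.cons (Pq.L [] 0 (Pf.W 54 0 [] [] (Pf.cons (Pf.T 1 9 (Pf.cons (Pf.W 54 0 [1] [] (Pf.cons (Pf.B 2 1 (Pf.T 2 9 (Pf.cons (Pf.W 54 0 [1,2] [] (Pf.cons (Pf.B 3 2 (Pf.B 3 1 (Pf.T 3 9 (Pf.cons (Pf.W 58 1 [0] [2,3] (Pf.cons (Pf.B 4 0 (Pf.C 2 4) (Pf.C 8 16388)) (Pf.cons (Pf.B 4 0 (Pf.B 4 3 (Pf.B 4 2 (Pf.W 46 386 [] [0,1,4] (Pf.cons (Pf.B 5 4 (Pf.C 26 0xa08184) (Pf.B 5 1 (Pf.C 26 0xa08181) (Pf.C 9 65669))) (Pf.cons (Pf.B 5 4 (Pf.C 26 0xa0c104) (Pf.B 5 1 (Pf.C 26 0xa0c101) (Pf.C 9 65669))) (Pf.cons (Pf.B 5 4 (Pf.B 5 0 (Pf.C 26 49669) (Pf.C 9 33408)) (Pf.C 27 0x414203)) (Pf.cons (Pf.B 5 4 (Pf.B 5 0 (Pf.C 26 33285) (Pf.C 9 49792)) (Pf.C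 27 0x614202)) (Pf.cons (Pf.B 5 4 (Pf.C 11 82308) (Pf.B 5 1 (Pf.C 11 82305) (Pf.C 24 0x410085))) (Pf.cons (Pf.B 5 4 (Pf.C 11 82180) (Pf.B 5 1 (Pf.C 11 82177) (Pf.C 24 0x610085))) (Pf.cons (Pf.B 5 4 (Pf.C 11 82308) (Pf.B 5 1 (Pf.C 11 82305) (Pf.C 24 0x410085))) (Pf.cons (Pf.B 5 4 (Pf.C 11 82180) (Pf.B 5 1 (Pf.C 11 82177) (Pf.C 24 0x610085))) Pf.nil))))))))) (Pf.C 27 0x210103)) (Pf.B 4 2 (Pf.C 27 0x610082) (Pf.T 4 9 (Pf.cons (Pf.W 46 257 [] [0,3,4] (Pf.cons (Pf.B 5 0 (Pf.C 2 5) (Pf.C 8 16389)) (Pf.cons (Pf.B 5 0 (Pf.C 2 5) (Pf.C 8 32773)) (Pf.cons (Pf.B 5 4 (Pf.B 5 3 (Pf.C 27 0x410185) (Pf.C 27 0x214182)) (Pf.C 24 0x404284)) (Pf.cons (Pf.B 5 4 (Pf.B 5 3 (Pf.C 27 0x210185) (Pf.C 27 0x414181)) (Pf.C 24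 0x208284)) (Pf.cons (Pf.B 5 4 (Pf.C 12 82433) (Pf.C 12 82180)) (Pf.cons (Pf.B 5 4 (Pf.C 12 82434) (Pf.C 12 82052)) (Pf.cons (Pf.B 5 4 (Pf.C 12 82433) (Pf.C 12 82180)) (Pf.cons (Pf.B 5 4 (Pf.C 12 82434) (Pf.C 12 82052)) Pf.nil))))))))) (Pf.cons (Pf.C 59 0x608084) Pf.nil))))) (Pf.C 9 16896)) (Pf.cons (Pf.B 4 0 (Pf.C 5 512) (Pf.C 8 16388)) (Pf.cons (Pf.B 4 0 (Pf.C 5 512) (Pf.C 8 16388)) Pf.nil))))) (Pf.cons (Pf.W 58 1 [0] [2,3] (Pf.cons (Pf.B 4 0 (Pf.C 2 4) (Pf.C 8 16388)) (Pf.cons (Pf.B 4 0 (Pf.B 4 3 (Pf.B 4 2 (Pf.W 46 386 [] [0,1,4] (Pf.cons (Pf.B 5 4 (Pf.C 26 0xa08184) (Pf.B 5 1 (Pf.C 26 0xa08181) (Pf.C 9 65669))) (Pf.cons (Pf.B 5 4 (Pf.C 26 0xa0c104) (Pf.B 5 1 (Pf.C 26 0xa0c101) (Pf.C 9 65669)))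 (Pf.cons (Pf.B 5 4 (Pf.B 5 0 (Pf.C 26 49669) (Pf.C 9 33408)) (Pf.C 27 0x414203)) (Pf.cons (Pf.B 5 4 (Pf.B 5 0 (Pf.C 26 33285) (Pf.C 9 49792)) (Pf.C 27 0x614202)) (Pf.cons (Pf.B 5 4 (Pf.C 11 82308) (Pf.B 5 1 (Pf.C 11 82305) (Pf.C 24 0x410085))) (Pf.cons (Pf.B 5 4 (Pf.C 11 82180) (Pf.B 5 1 (Pf.C 11 82177) (Pf.C 24 0x610085))) (Pf.cons (Pf.B 5 4 (Pf.C 11 82308) (Pf.B 5 1 (Pf.C 11 82305) (Pf.C 24 0x410085))) (Pf.cons (Pf.B 5 4 (Pf.C 11 82180) (Pf.B 5 1 (Pf.C 11 82177) (Pf.C 24 0x610085))) Pf.nil))))))))) (Pf.C 27 0x210103)) (Pf.B 4 2 (Pf.C 27 0x610082) (Pf.T 4 9 (Pf.cons (Pf.W 58 1 [0,4] [2,3] (Pf.cons (Pf.B 5 0 (Pf.C 2 5) (Pf.C 8 16389)) (Pf.cons (Pf.B 5 3 (Pf.B 5 4 (Pf.B 5 2 (Pf.C 27 0x610105) (Pf.C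 27 0x214103)) (Pf.C 24 0x604284)) (Pf.C 59 0x800283)) (Pf.cons (Pf.B 5 4 (Pf.C 12 82433) (Pf.B 5 3 (Pf.C 12 82308) (Pf.C 59 0x800283))) (Pf.cons (Pf.B 5 4 (Pf.C 12 82433) (Pf.B 5 3 (Pf.C 12 82308) (Pf.C 59 0x800283))) Pf.nil))))) (Pf.cons (Pf.C 59 0x608084) Pf.nil))))) (Pf.C 9 16896)) (Pf.cons (Pf.B 4 0 (Pf.C 5 512) (Pf.C 8 16388)) (Pf.cons (Pf.B 4 0 (Pf.C 5 512) (Pf.C 8 16388)) Pf.nil))))) Pf.nil))) (Pf.C 9 16768)) (Pf.C 9 33152)) Pf.nil)) (Pf.cons (Pf.W 54 0 [1,2] [] (Pf.cons (Pf.B 3 2 (Pf.B 3 1 (Pf.T 3 9 (Pf.cons (Pf.W 58 1 [0] [2,3] (Pf.cons (Pf.B 4 0 (Pf.C 2 4) (Pf.C 8 16388)) (Pf.cons (Pf.B 4 0 (Pf.B 4 3 (Pf.B 4 2 (Pf.W 46 386 [] [0,1,4] (Pf.cons (Pf.B 5 4 (Pf.C 26 0xa08184) (Pf.B 5 1 (Pf.C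 26 0xa08181) (Pf.C 9 65669))) (Pf.cons (Pf.B 5 4 (Pf.C 26 0xa0c104) (Pf.B 5 1 (Pf.C 26 0xa0c101) (Pf.C 9 65669))) (Pf.cons (Pf.B 5 4 (Pf.B 5 0 (Pf.C 26 49669) (Pf.C 9 33408)) (Pf.C 27 0x414203)) (Pf.cons (Pf.B 5 4 (Pf.B 5 0 (Pf.C 26 33285) (Pf.C 9 49792)) (Pf.C 27 0x614202)) (Pf.cons (Pf.B 5 4 (Pf.C 11 82308) (Pf.B 5 1 (Pf.C 11 82305) (Pf.C 24 0x410085))) (Pf.cons (Pf.B 5 4 (Pf.C 11 82180) (Pf.B 5 1 (Pf.C 11 82177) (Pf.C 24 0x610085))) (Pf.cons (Pf.B 5 4 (Pf.C 11 82308) (Pf.B 5 1 (Pf.C 11 82305) (Pf.C 24 0x410085))) (Pf.cons (Pf.B 5 4 (Pf.C 11 82180) (Pf.B 5 1 (Pf.C 11 82177) (Pf.C 24 0x610085))) Pf.nil))))))))) (Pf.C 27 0x210103)) (Pf.B 4 2 (Pf.C 27 0x610082) (Pf.T 4 9 (Pf.cons (Pf.W 58 1 [0,4] [2,3]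 (Pf.cons (Pf.B 5 0 (Pf.C 2 5) (Pf.C 8 16389)) (Pf.cons (Pf.B 5 2 (Pf.B 5 4 (Pf.B 5 3 (Pf.C 27 0x410185) (Pf.C 27 0x214182)) (Pf.C 24 0x404284)) (Pf.C 59 0x800282)) (Pf.cons (Pf.B 5 4 (Pf.C 12 82433) (Pf.B 5 2 (Pf.C 12 82180) (Pf.C 59 0x800282))) (Pf.cons (Pf.B 5 4 (Pf.C 12 82433) (Pf.B 5 2 (Pf.C 12 82180) (Pf.C 59 0x800282))) Pf.nil))))) (Pf.cons (Pf.C 59 0x608084) Pf.nil))))) (Pf.C 9 16896)) (Pf.cons (Pf.B 4 0 (Pf.C 5 512) (Pf.C 8 16388)) (Pf.cons (Pf.B 4 0 (Pf.C 5 512) (Pf.C 8 16388)) Pf.nil))))) (Pf.cons (Pf.W 58 1 [0] [2,3] (Pf.cons (Pf.B 4 0 (Pf.C 2 4) (Pf.C 8 16388)) (Pf.cons (Pf.B 4 0 (Pf.B 4 3 (Pf.B 4 2 (Pf.W 46 386 [] [0,1,4] (Pf.cons (Pf.B 5 4 (Pf.C 26 0xa08184) (Pf.B 5 1 (Pf.C 26 0xa08181)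 (Pf.C 9 65669))) (Pf.cons (Pf.B 5 4 (Pf.C 26 0xa0c104) (Pf.B 5 1 (Pf.C 26 0xa0c101) (Pf.C 9 65669))) (Pf.cons (Pf.B 5 4 (Pf.B 5 0 (Pf.C 26 49669) (Pf.C 9 33408)) (Pf.C 27 0x414203)) (Pf.cons (Pf.B 5 4 (Pf.B 5 0 (Pf.C 26 33285) (Pf.C 9 49792)) (Pf.C 27 0x614202)) (Pf.cons (Pf.B 5 4 (Pf.C 11 82308) (Pf.B 5 1 (Pf.C 11 82305) (Pf.C 24 0x410085))) (Pf.cons (Pf.B 5 4 (Pf.C 11 82180) (Pf.B 5 1 (Pf.C 11 82177) (Pf.C 24 0x610085))) (Pf.cons (Pf.B 5 4 (Pf.C 11 82308) (Pf.B 5 1 (Pf.C 11 82305) (Pf.C 24 0x410085))) (Pf.cons (Pf.B 5 4 (Pf.C 11 82180) (Pf.B 5 1 (Pf.C 11 82177) (Pf.C 24 0x610085))) Pf.nil))))))))) (Pf.C 27 0x210103)) (Pf.B 4 2 (Pf.C 27 0x610082) (Pf.T 4 9 (Pf.cons (Pf.W 58 1 [0,4] [2,3] (Pf.cons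 (Pf.B 5 3 (Pf.B 5 2 (Pf.C 26 0xa04182) (Pf.C 59 0x800282)) (Pf.C 59 0x800283)) (Pf.cons (Pf.B 5 3 (Pf.B 5 4 (Pf.B 5 2 (Pf.C 27 0x610105) (Pf.C 27 0x214103)) (Pf.C 24 0x604284)) (Pf.C 59 0x800283)) (Pf.cons (Pf.B 5 4 (Pf.C 12 82433) (Pf.B 5 3 (Pf.C 12 82308) (Pf.C 59 0x800283))) (Pf.cons (Pf.B 5 4 (Pf.C 12 82433) (Pf.B 5 3 (Pf.C 12 82308) (Pf.C 59 0x800283))) Pf.nil))))) (Pf.cons (Pf.C 59 0x608084) Pf.nil))))) (Pf.C 9 16896)) (Pf.cons (Pf.B 4 0 (Pf.C 5 512) (Pf.C 8 16388)) (Pf.cons (Pf.B 4 0 (Pf.C 5 512) (Pf.C 8 16388)) Pf.nil))))) Pf.nil))) (Pf.C 9 16768)) (Pf.C 9 33152)) Pf.nil)) Pf.nil))) (Pf.C 9 16640)) Pf.nil)) (Pf.cons (Pf.W 54 0 [1] [] (Pf.cons (Pf.B 2 1 (Pf.T 2 9 (Pf.cons (Pf.W 54 0 [1,2] []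 (Pf.cons (Pf.B 3 2 (Pf.B 3 1 (Pf.T 3 9 (Pf.cons (Pf.W 58 2 [0] [1,3] (Pf.cons (Pf.B 4 0 (Pf.C 2 4) (Pf.C 8 32772)) (Pf.cons (Pf.B 4 0 (Pf.B 4 3 (Pf.B 4 1 (Pf.W 46 385 [] [0,2,4] (Pf.cons (Pf.B 5 4 (Pf.C 26 0xa04184) (Pf.B 5 2 (Pf.C 26 0xa04182) (Pf.C 9 65797))) (Pf.cons (Pf.B 5 4 (Pf.C 26 0xa0c084) (Pf.B 5 2 (Pf.C 26 0xa0c082) (Pf.C 9 65797))) (Pf.cons (Pf.B 5 4 (Pf.B 5 0 (Pf.C 26 49669) (Pf.C 9 17024)) (Pf.C 27 0x214203)) (Pf.cons (Pf.B 5 4 (Pf.B 5 0 (Pf.C 26 16901) (Pf.C 9 49792)) (Pf.C 27 0x614201)) (Pf.cons (Pf.B 5 4 (Pf.C 11 82308) (Pf.B 5 2 (Pf.C 11 82306) (Pf.C 24 0x210105))) (Pf.cons (Pf.B 5 4 (Pf.C 11 82052) (Pf.B 5 2 (Pf.C 11 82050) (Pf.C 24 0x610105))) (Pf.cons (Pf.B 5 4 (Pf.C 11 82308)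 (Pf.B 5 2 (Pf.C 11 82306) (Pf.C 24 0x210105))) (Pf.cons (Pf.B 5 4 (Pf.C 11 82052) (Pf.B 5 2 (Pf.C 11 82050) (Pf.C 24 0x610105))) Pf.nil))))))))) (Pf.C 27 0x410083)) (Pf.B 4 1 (Pf.C 27 0x610101) (Pf.T 4 9 (Pf.cons (Pf.W 58 2 [0,4] [1,3] (Pf.cons (Pf.B 5 0 (Pf.C 2 5) (Pf.C 8 32773)) (Pf.cons (Pf.B 5 1 (Pf.B 5 4 (Pf.B 5 3 (Pf.C 27 0x210185) (Pf.C 27 0x414181)) (Pf.C 24 0x208284)) (Pf.C 59 0x800281)) (Pf.cons (Pf.B 5 4 (Pf.C 12 82434) (Pf.B 5 1 (Pf.C 12 82052) (Pf.C 59 0x800281))) (Pf.cons (Pf.B 5 4 (Pf.C 12 82434) (Pf.B 5 1 (Pf.C 12 82052) (Pf.C 59 0x800281))) Pf.nil))))) (Pf.cons (Pf.C 59 0x608084) Pf.nil))))) (Pf.C 9 33280)) (Pf.cons (Pf.B 4 0 (Pf.C 5 512) (Pf.C 8 32772)) (Pf.cons (Pf.B 4 0 (Pf.C 5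 512) (Pf.C 8 32772)) Pf.nil))))) (Pf.cons (Pf.W 58 2 [0] [1,3] (Pf.cons (Pf.B 4 0 (Pf.C 2 4) (Pf.C 8 32772)) (Pf.cons (Pf.B 4 0 (Pf.B 4 3 (Pf.B 4 1 (Pf.W 46 385 [] [0,2,4] (Pf.cons (Pf.B 5 4 (Pf.C 26 0xa04184) (Pf.B 5 2 (Pf.C 26 0xa04182) (Pf.C 9 65797))) (Pf.cons (Pf.B 5 4 (Pf.C 26 0xa0c084) (Pf.B 5 2 (Pf.C 26 0xa0c082) (Pf.C 9 65797))) (Pf.cons (Pf.B 5 4 (Pf.B 5 0 (Pf.C 26 49669) (Pf.C 9 17024)) (Pf.C 27 0x214203)) (Pf.cons (Pf.B 5 4 (Pf.B 5 0 (Pf.C 26 16901) (Pf.C 9 49792)) (Pf.C 27 0x614201)) (Pf.cons (Pf.B 5 4 (Pf.C 11 82308) (Pf.B 5 2 (Pf.C 11 82306) (Pf.C 24 0x210105))) (Pf.cons (Pf.B 5 4 (Pf.C 11 82052) (Pf.B 5 2 (Pf.C 11 82050) (Pf.C 24 0x610105))) (Pf.cons (Pf.B 5 4 (Pf.C 11 82308) (Pf.B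 5 2 (Pf.C 11 82306) (Pf.C 24 0x210105))) (Pf.cons (Pf.B 5 4 (Pf.C 11 82052) (Pf.B 5 2 (Pf.C 11 82050) (Pf.C 24 0x610105))) Pf.nil))))))))) (Pf.C 27 0x410083)) (Pf.B 4 1 (Pf.C 27 0x610101) (Pf.T 4 9 (Pf.cons (Pf.W 58 2 [0,4] [1,3] (Pf.cons (Pf.B 5 3 (Pf.B 5 1 (Pf.C 26 0xa08181) (Pf.C 59 0x800281)) (Pf.C 59 0x800283)) (Pf.cons (Pf.B 5 3 (Pf.B 5 4 (Pf.B 5 1 (Pf.C 27 0x610085) (Pf.C 27 0x414083)) (Pf.C 24 0x608284)) (Pf.C 59 0x800283)) (Pf.cons (Pf.B 5 4 (Pf.C 12 82434) (Pf.B 5 3 (Pf.C 12 82308) (Pf.C 59 0x800283))) (Pf.cons (Pf.B 5 4 (Pf.C 12 82434) (Pf.B 5 3 (Pf.C 12 82308) (Pf.C 59 0x800283))) Pf.nil))))) (Pf.cons (Pf.C 59 0x608084) Pf.nil))))) (Pf.C 9 33280)) (Pf.cons (Pf.B 4 0 (Pf.C 5 512) (Pf.C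 8 32772)) (Pf.cons (Pf.B 4 0 (Pf.C 5 512) (Pf.C 8 32772)) Pf.nil))))) Pf.nil))) (Pf.C 9 16768)) (Pf.C 9 33152)) Pf.nil)) (Pf.cons (Pf.W 54 0 [1,2] [] (Pf.cons (Pf.B 3 2 (Pf.B 3 1 (Pf.T 3 9 (Pf.cons (Pf.W 58 3 [0] [1,2] (Pf.cons (Pf.B 4 0 (Pf.C 2 4) (Pf.C 8 49156)) (Pf.cons (Pf.B 4 0 (Pf.B 4 2 (Pf.B 4 1 (Pf.W 46 257 [] [0,3,4] (Pf.cons (Pf.B 5 4 (Pf.C 26 0xa04104) (Pf.B 5 3 (Pf.C 26 0xa04103) (Pf.C 9 65925))) (Pf.cons (Pf.B 5 4 (Pf.C 26 0xa08084) (Pf.B 5 3 (Pf.C 26 0xa08083) (Pf.C 9 65925))) (Pf.cons (Pf.B 5 4 (Pf.B 5 0 (Pf.C 26 33285) (Pf.C 9 17024)) (Pf.C 27 0x214202)) (Pf.cons (Pf.B 5 4 (Pf.B 5 0 (Pf.C 26 16901) (Pf.C 9 33408)) (Pf.C 27 0x414201)) (Pf.cons (Pf.B 5 4 (Pf.C 11 82180) (Pf.B 5 3 (Pf.C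 11 82179) (Pf.C 24 0x210185))) (Pf.cons (Pf.B 5 4 (Pf.C 11 82052) (Pf.B 5 3 (Pf.C 11 82051) (Pf.C 24 0x410185))) (Pf.cons (Pf.B 5 4 (Pf.C 11 82180) (Pf.B 5 3 (Pf.C 11 82179) (Pf.C 24 0x210185))) (Pf.cons (Pf.B 5 4 (Pf.C 11 82052) (Pf.B 5 3 (Pf.C 11 82051) (Pf.C 24 0x410185))) Pf.nil))))))))) (Pf.C 27 0x610082)) (Pf.B 4 1 (Pf.C 27 0x610101) (Pf.T 4 9 (Pf.cons (Pf.W 58 3 [0,4] [1,2] (Pf.cons (Pf.B 5 2 (Pf.B 5 1 (Pf.C 26 0xa0c101) (Pf.C 59 0x800281)) (Pf.C 59 0x800282)) (Pf.cons (Pf.B 5 2 (Pf.B 5 4 (Pf.B 5 1 (Pf.C 27 0x410085) (Pf.C 27 0x614082)) (Pf.C 24 0x40c284)) (Pf.C 59 0x800282)) (Pf.cons (Pf.B 5 4 (Pf.C 12 82435) (Pf.B 5 2 (Pf.C 12 82180) (Pf.C 59 0x800282))) (Pf.cons (Pf.B 5 4 (Pf.C 12 82435)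 (Pf.B 5 2 (Pf.C 12 82180) (Pf.C 59 0x800282))) Pf.nil))))) (Pf.cons (Pf.C 59 0x608084) Pf.nil))))) (Pf.C 9 49664)) (Pf.cons (Pf.B 4 0 (Pf.C 5 512) (Pf.C 8 49156)) (Pf.cons (Pf.B 4 0 (Pf.C 5 512) (Pf.C 8 49156)) Pf.nil))))) (Pf.cons (Pf.W 46 257 [] [0,3] (Pf.cons (Pf.B 4 0 (Pf.C 2 4) (Pf.C 8 16388)) (Pf.cons (Pf.B 4 0 (Pf.C 2 4) (Pf.C 8 32772)) (Pf.cons (Pf.B 4 3 (Pf.B 4 0 (Pf.W 46 386 [] [0,1,4] (Pf.cons (Pf.B 5 4 (Pf.C 26 0xa08184) (Pf.B 5 1 (Pf.C 26 0xa08181) (Pf.C 9 65669))) (Pf.cons (Pf.B 5 4 (Pf.C 26 0xa0c104) (Pf.B 5 1 (Pf.C 26 0xa0c101) (Pf.C 9 65669))) (Pf.cons (Pf.B 5 4 (Pf.B 5 0 (Pf.C 26 49669) (Pf.C 9 33408)) (Pf.C 27 0x414203)) (Pf.cons (Pf.B 5 4 (Pf.B 5 0 (Pf.C 26 33285) (Pf.C 9 49792))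 (Pf.C 27 0x614202)) (Pf.cons (Pf.B 5 4 (Pf.C 11 82308) (Pf.B 5 1 (Pf.C 11 82305) (Pf.C 24 0x410085))) (Pf.cons (Pf.B 5 4 (Pf.C 11 82180) (Pf.B 5 1 (Pf.C 11 82177) (Pf.C 24 0x610085))) (Pf.cons (Pf.B 5 4 (Pf.C 11 82308) (Pf.B 5 1 (Pf.C 11 82305) (Pf.C 24 0x410085))) (Pf.cons (Pf.B 5 4 (Pf.C 11 82180) (Pf.B 5 1 (Pf.C 11 82177) (Pf.C 24 0x610085))) Pf.nil))))))))) (Pf.C 9 16896)) (Pf.C 27 0x210182)) (Pf.cons (Pf.B 4 3 (Pf.B 4 0 (Pf.W 46 385 [] [0,2,4] (Pf.cons (Pf.B 5 4 (Pf.C 26 0xa04184) (Pf.B 5 2 (Pf.C 26 0xa04182) (Pf.C 9 65797))) (Pf.cons (Pf.B 5 4 (Pf.C 26 0xa0c084) (Pf.B 5 2 (Pf.C 26 0xa0c082) (Pf.C 9 65797))) (Pf.cons (Pf.B 5 4 (Pf.B 5 0 (Pf.C 26 49669) (Pf.C 9 17024)) (Pf.C 27 0x214203)) (Pf.cons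 (Pf.B 5 4 (Pf.B 5 0 (Pf.C 26 16901) (Pf.C 9 49792)) (Pf.C 27 0x614201)) (Pf.cons (Pf.B 5 4 (Pf.C 11 82308) (Pf.B 5 2 (Pf.C 11 82306) (Pf.C 24 0x210105))) (Pf.cons (Pf.B 5 4 (Pf.C 11 82052) (Pf.B 5 2 (Pf.C 11 82050) (Pf.C 24 0x610105))) (Pf.cons (Pf.B 5 4 (Pf.C 11 82308) (Pf.B 5 2 (Pf.C 11 82306) (Pf.C 24 0x210105))) (Pf.cons (Pf.B 5 4 (Pf.C 11 82052) (Pf.B 5 2 (Pf.C 11 82050) (Pf.C 24 0x610105))) Pf.nil))))))))) (Pf.C 9 33280)) (Pf.C 27 0x410181)) (Pf.cons (Pf.B 4 0 (Pf.C 5 512) (Pf.C 8 16388)) (Pf.cons (Pf.B 4 0 (Pf.C 5 512) (Pf.C 8 32772)) (Pf.cons (Pf.B 4 0 (Pf.C 5 512) (Pf.C 8 16388)) (Pf.cons (Pf.B 4 0 (Pf.C 5 512) (Pf.C 8 32772)) Pf.nil))))))))) Pf.nil))) (Pf.C 9 16768)) (Pf.C 9 33152)) Pf.nil))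 Pf.nil))) (Pf.C 9 16640)) Pf.nil)) Pf.nil))) Pf.nil)))
 (Pq.cons (Pq.L [] 0 (Pf.W 56 0 [] [] (Pf.cons (Pf.W 56 0 [1] [] (Pf.cons (Pf.B 2 1 (Pf.C 10 16640) (Pf.C 4 130)) (Pf.cons (Pf.B 2 1 (Pf.C 10 16640) (Pf.C 4 130)) Pf.nil))) (Pf.cons (Pf.W 56 0 [1] [] (Pf.cons (Pf.B 2 1 (Pf.C 10 16640) (Pf.C 4 130)) (Pf.cons (Pf.B 2 1 (Pf.C 10 16640) (Pf.C 4 130)) Pf.nil))) Pf.nil))))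
 (Pq.cons (Pq.L [] 0 (Pf.W 31 0 [] [] (Pf.cons (Pf.T 1 4 (Pf.cons (Pf.W 31 0 [1] [] (Pf.cons (Pf.B 2 1 (Pf.T 2 4 (Pf.cons (Pf.W 57 0 [] [1,2] (Pf.cons (Pf.B 3 2 (Pf.B 3 1 (Pf.W 57 0 [3] [1,2] (Pf.cons (Pf.B 4 3 (Pf.B 4 2 (Pf.B 4 1 (Pf.C 0 0x20004184) (Pf.C 4 132)) (Pf.C 4 260)) (Pf.C 4 388)) Pf.nil)) (Pf.C 4 131)) (Pf.C 4 259)) Pf.nil)) (Pf.cons (Pf.C 44 2) Pf.nil))) (Pf.C 4 130)) Pf.nil)) (Pf.cons (Pf.C 44 1) Pf.nil))) Pf.nil)))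
 Pq.nil)))
theorem h2_o8 : AllRef h2_T h2_G23 (List.map pat1 [50,52,54]) :=
  chkPq_sound h2_o8c _ (by decide +kernel)
noncomputable def h2_o9c : Pq := Pq.nil
theorem h2_o9 : AllRef h2_T h2_G24 (extObl 56 [] []) :=
  chkPq_sound h2_o9c _ (by decide +kernel)
noncomputable def h2_o10c : Pq := (Pq.cons (Pq.L [] 0 (Pf.W 65 0 [] [] (Pf.cons (Pf.T 1 7 (Pf.cons (Pf.W 65 0 [1] [] (Pf.cons (Pf.B 2 1 (Pf.C 7 130) (Pf.C 1 130)) (Pf.cons (Pf.B 2 1 (Pf.C 3 257) (Pf.T 2 9 (Pf.cons (Pf.W 65 0 [1,2] [] (Pf.cons (Pf.B 3 1 (Pf.C 7 131) (Pf.C 1 131)) (Pf.cons (Pf.B 3 1 (Pf.C 3 385) (Pf.B 3 2 (Pf.T 3 9 (Pf.cons (Pf.W 46 386 [] [0] (Pf.cons (Pf.B 4 0 (Pf.C 5 4) (Pf.C 8 32772)) (Pf.cons (Pf.B 4 0 (Pf.C 5 4) (Pf.C 8 49156))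 (Pf.cons (Pf.B 4 0 (Pf.C 12 514) (Pf.C 24 0x608200)) (Pf.cons (Pf.B 4 0 (Pf.C 12 515) (Pf.C 24 0x40c200)) (Pf.cons (Pf.C 32 514) (Pf.cons (Pf.C 32 515) (Pf.cons (Pf.C 32 514) (Pf.cons (Pf.C 32 515) Pf.nil))))))))) Pf.nil)) (Pf.C 25 33153))) Pf.nil))) Pf.nil))) Pf.nil))) Pf.nil)) (Pf.cons (Pf.T 1 9 (Pf.cons (Pf.W 65 0 [1] [] (Pf.cons (Pf.B 2 1 (Pf.C 3 130) (Pf.T 2 7 (Pf.cons (Pf.W 65 0 [1,2] [] (Pf.cons (Pf.B 3 2 (Pf.C 7 259) (Pf.C 1 259)) (Pf.cons (Pf.B 3 2 (Pf.C 3 386) (Pf.B 3 1 (Pf.T 3 9 (Pf.cons (Pf.W 46 385 [] [0] (Pf.cons (Pf.B 4 0 (Pf.C 5 4) (Pf.C 8 16388)) (Pf.cons (Pf.B 4 0 (Pf.C 5 4) (Pf.C 8 49156)) (Pf.cons (Pf.B 4 0 (Pf.C 12 513) (Pf.C 24 0x604200)) (Pf.cons (Pf.B 4 0 (Pf.C 12 515) (Pf.C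 24 0x20c200)) (Pf.cons (Pf.C 32 513) (Pf.cons (Pf.C 32 515) (Pf.cons (Pf.C 32 513) (Pf.cons (Pf.C 32 515) Pf.nil))))))))) Pf.nil)) (Pf.C 25 16770))) Pf.nil))) Pf.nil))) (Pf.cons (Pf.B 2 1 (Pf.T 2 9 (Pf.cons (Pf.W 46 257 [] [0] (Pf.cons (Pf.B 3 0 (Pf.C 5 3) (Pf.C 8 16387)) (Pf.cons (Pf.B 3 0 (Pf.C 5 3) (Pf.C 8 32771)) (Pf.cons (Pf.B 3 0 (Pf.C 12 385) (Pf.C 24 0x404180)) (Pf.cons (Pf.B 3 0 (Pf.C 12 386) (Pf.C 24 0x208180)) (Pf.cons (Pf.C 32 385) (Pf.cons (Pf.C 32 386) (Pf.cons (Pf.C 32 385) (Pf.cons (Pf.C 32 386) Pf.nil))))))))) Pf.nil)) (Pf.T 2 9 (Pf.cons (Pf.W 65 0 [1,2] [] (Pf.cons (Pf.B 3 2 (Pf.C 3 259) (Pf.B 3 1 (Pf.C 3 131) (Pf.C 25 32899))) (Pf.cons (Pf.B 3 2 (Pf.B 3 1 (Pf.C 24 0x608080) (Pf.C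 59 0x400181)) (Pf.C 59 0x200182)) Pf.nil))) Pf.nil))) Pf.nil))) Pf.nil)) Pf.nil))))
 Pq.nil)
theorem h2_o10 : AllRef h2_T h2_G25 (List.map pat1 [60]) :=
  chkPq_sound h2_o10c _ (by decide +kernel)
noncomputable def h2_o11c : Pq := (Pq.cons (Pq.L [] 1 (Pf.W 43 0 [] [1] (Pf.cons (Pf.B 2 1 (Pf.W 31 2 [0] [1] (Pf.cons (Pf.B 3 0 (Pf.B 3 1 (Pf.T 3 4 (Pf.cons (Pf.W 60 0 [] [1,3] (Pf.cons (Pf.T 4 7 (Pf.cons (Pf.W 60 0 [4] [1,3] (Pf.cons (Pf.B 5 4 (Pf.C 7 517) (Pf.C 1 517)) (Pf.cons (Pf.B 5 1 (Pf.C 11 133) (Pf.B 5 3 (Pf.T 5 8 (Pf.cons (Pf.W 60 0 [4,5] [3] (Pf.cons (Pf.B 6 4 (Pf.C 7 518) (Pf.C 1 518)) (Pf.cons (Pf.B 6 5 (Pf.C 11 646) (Pf.C 48 646)) (Pf.cons (Pf.B 6 5 (Pf.B 6 3 (Pf.C 11 49798) (Pf.C 32 390))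 (Pf.C 12 646)) Pf.nil)))) Pf.nil)) (Pf.C 12 49285))) (Pf.cons (Pf.B 5 3 (Pf.B 5 1 (Pf.C 11 49285) (Pf.C 12 133)) (Pf.C 32 389)) Pf.nil)))) Pf.nil)) (Pf.cons (Pf.B 4 1 (Pf.C 11 132) (Pf.B 4 3 (Pf.T 4 8 (Pf.cons (Pf.W 60 0 [4] [3] (Pf.cons (Pf.T 5 7 (Pf.cons (Pf.W 60 0 [4,5] [3] (Pf.cons (Pf.B 6 5 (Pf.C 7 646) (Pf.C 1 646)) (Pf.cons (Pf.B 6 4 (Pf.C 11 518) (Pf.C 48 518)) (Pf.cons (Pf.B 6 4 (Pf.B 6 3 (Pf.C 11 49670) (Pf.C 32 390)) (Pf.C 12 518)) Pf.nil)))) Pf.nil)) (Pf.cons (Pf.B 5 4 (Pf.C 11 517) (Pf.C 48 517)) (Pf.cons (Pf.B 5 4 (Pf.B 5 3 (Pf.C 11 49669) (Pf.C 32 389)) (Pf.C 12 517)) Pf.nil)))) Pf.nil)) (Pf.C 12 49284))) (Pf.cons (Pf.B 4 3 (Pf.B 4 1 (Pf.C 11 49284) (Pf.C 12 132)) (Pf.C 32 388)) Pf.nil))))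 (Pf.cons (Pf.C 44 259) Pf.nil))) (Pf.W 52 1 [] [0,2,3] (Pf.cons (Pf.B 4 3 (Pf.C 5 388) (Pf.C 8 16772)) (Pf.cons (Pf.B 4 3 (Pf.C 12 49665) (Pf.B 4 2 (Pf.C 24 0x404203) (Pf.B 4 0 (Pf.C 12 514) (Pf.C 12 132)))) (Pf.cons (Pf.T 3 10 (Pf.cons (Pf.W 60 0 [] [1,2,3] (Pf.cons (Pf.T 4 7 (Pf.cons (Pf.W 60 0 [4] [1,2,3] (Pf.cons (Pf.B 5 4 (Pf.C 7 517) (Pf.C 1 517)) (Pf.cons (Pf.B 5 2 (Pf.B 5 1 (Pf.C 11 133) (Pf.B 5 3 (Pf.C 12 49793) (Pf.C 24 0x404283))) (Pf.C 12 642)) (Pf.cons (Pf.B 5 4 (Pf.C 3 644) (Pf.B 5 3 (Pf.T 5 9 (Pf.cons (Pf.W 60 0 [4,5] [1,2,3] (Pf.cons (Pf.B 6 4 (Pf.C 7 518) (Pf.C 1 518)) (Pf.cons (Pf.B 6 5 (Pf.B 6 3 (Pf.C 11 49798) (Pf.B 6 2 (Pf.B 6 1 (Pf.C 11 134) (Pf.C 24 0x404303)) (Pf.C 12 770)))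 (Pf.C 12 773)) (Pf.cons (Pf.B 6 4 (Pf.C 3 772) (Pf.B 6 5 (Pf.B 6 3 (Pf.C 11 49798) (Pf.C 32 390)) (Pf.C 25 82692))) Pf.nil)))) Pf.nil)) (Pf.C 32 389))) Pf.nil)))) Pf.nil)) (Pf.cons (Pf.B 4 2 (Pf.B 4 1 (Pf.C 11 132) (Pf.B 4 3 (Pf.C 12 49665) (Pf.C 24 0x404203))) (Pf.C 12 514)) (Pf.cons (Pf.B 4 3 (Pf.B 4 2 (Pf.T 4 9 (Pf.cons (Pf.W 60 0 [4] [1,2,3] (Pf.cons (Pf.B 5 4 (Pf.C 3 517) (Pf.T 5 7 (Pf.cons (Pf.W 60 0 [4,5] [1,2,3] (Pf.cons (Pf.B 6 5 (Pf.C 7 646) (Pf.C 1 646)) (Pf.cons (Pf.B 6 4 (Pf.B 6 3 (Pf.C 11 49670) (Pf.B 6 2 (Pf.B 6 1 (Pf.C 11 134) (Pf.C 24 0x404303)) (Pf.C 12 770))) (Pf.C 12 772)) (Pf.cons (Pf.B 6 5 (Pf.C 3 773) (Pf.B 6 4 (Pf.B 6 3 (Pf.C 11 49670) (Pf.C 32 390)) (Pf.C 25 66309))) Pf.nil))))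 Pf.nil))) (Pf.cons (Pf.B 5 4 (Pf.B 5 3 (Pf.C 11 49669) (Pf.B 5 2 (Pf.B 5 1 (Pf.C 11 133) (Pf.C 24 0x404283)) (Pf.C 12 642))) (Pf.C 12 644)) (Pf.cons (Pf.B 5 3 (Pf.B 5 4 (Pf.C 11 49669) (Pf.B 5 2 (Pf.C 24 0x410280) (Pf.C 12 49794))) (Pf.C 32 389)) Pf.nil)))) Pf.nil)) (Pf.C 12 49666)) (Pf.C 32 388)) Pf.nil)))) (Pf.cons (Pf.W 60 0 [] [1,2,3] (Pf.cons (Pf.T 4 7 (Pf.cons (Pf.W 60 0 [4] [1,2,3] (Pf.cons (Pf.B 5 4 (Pf.C 7 517) (Pf.C 1 517)) (Pf.cons (Pf.B 5 2 (Pf.B 5 1 (Pf.C 11 133) (Pf.B 5 3 (Pf.C 12 49793) (Pf.C 24 0x404283))) (Pf.C 12 642)) (Pf.cons (Pf.B 5 4 (Pf.C 3 644) (Pf.B 5 3 (Pf.T 5 9 (Pf.cons (Pf.W 60 0 [4,5] [1,2,3] (Pf.cons (Pf.B 6 4 (Pf.C 7 518) (Pf.C 1 518)) (Pf.cons (Pf.B 6 5 (Pf.B 6 3 (Pf.C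 11 49798) (Pf.B 6 2 (Pf.B 6 1 (Pf.C 11 134) (Pf.C 24 0x404303)) (Pf.C 12 770))) (Pf.C 12 773)) (Pf.cons (Pf.B 6 4 (Pf.C 3 772) (Pf.B 6 5 (Pf.B 6 3 (Pf.C 11 49798) (Pf.C 32 390)) (Pf.C 25 82692))) Pf.nil)))) Pf.nil)) (Pf.C 32 389))) Pf.nil)))) Pf.nil)) (Pf.cons (Pf.B 4 2 (Pf.B 4 1 (Pf.C 11 132) (Pf.B 4 3 (Pf.C 12 49665) (Pf.C 24 0x404203))) (Pf.C 12 514)) (Pf.cons (Pf.B 4 3 (Pf.B 4 2 (Pf.T 4 9 (Pf.cons (Pf.W 60 0 [4] [1,2,3] (Pf.cons (Pf.B 5 4 (Pf.C 3 517) (Pf.T 5 7 (Pf.cons (Pf.W 60 0 [4,5] [1,2,3] (Pf.cons (Pf.B 6 5 (Pf.C 7 646) (Pf.C 1 646)) (Pf.cons (Pf.B 6 4 (Pf.B 6 3 (Pf.C 11 49670) (Pf.B 6 2 (Pf.B 6 1 (Pf.C 11 134) (Pf.C 24 0x404303)) (Pf.C 12 770))) (Pf.C 12 772)) (Pf.cons (Pf.B 6 5 (Pf.C 3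 773) (Pf.B 6 4 (Pf.B 6 3 (Pf.C 11 49670) (Pf.C 32 390)) (Pf.C 25 66309))) Pf.nil)))) Pf.nil))) (Pf.cons (Pf.B 5 4 (Pf.B 5 3 (Pf.C 11 49669) (Pf.B 5 2 (Pf.B 5 1 (Pf.C 11 133) (Pf.C 24 0x404283)) (Pf.C 12 642))) (Pf.C 12 644)) (Pf.cons (Pf.B 5 3 (Pf.B 5 4 (Pf.C 11 49669) (Pf.B 5 2 (Pf.C 24 0x410280) (Pf.C 12 49794))) (Pf.C 32 389)) Pf.nil)))) Pf.nil)) (Pf.C 12 49666)) (Pf.C 32 388)) Pf.nil)))) Pf.nil))) (Pf.cons (Pf.C 32 49665) (Pf.cons (Pf.C 44 259) (Pf.cons (Pf.C 32 49665) Pf.nil)))))))) (Pf.C 4 3)) Pf.nil)) (Pf.C 12 130)) Pf.nil)))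
 (Pq.cons (Pq.L [] 1 (Pf.W 31 1 [0] [] (Pf.cons (Pf.B 2 0 (Pf.T 2 4 (Pf.cons (Pf.W 51 1 [] [0,2] (Pf.cons (Pf.B 3 0 (Pf.T 3 10 (Pf.cons (Pf.W 60 0 [] [1,2,3] (Pf.cons (Pf.T 4 7 (Pf.cons (Pf.W 60 0 [4] [1,2,3] (Pf.cons (Pf.B 5 4 (Pf.C 7 517) (Pf.C 1 517)) (Pf.cons (Pf.T 5 8 (Pf.cons (Pf.W 60 0 [4,5] [1,2,3] (Pf.cons (Pf.B 6 4 (Pf.C 7 518) (Pf.C 1 518)) (Pf.cons (Pf.B 6 5 (Pf.C 11 646) (Pf.C 48 646)) (Pf.cons (Pf.B 6 3 (Pf.B 6 2 (Pf.B 6 1 (Pf.C 11 49286) (Pf.C 12 33537)) (Pf.C 32 262)) (Pf.C 32 390)) Pf.nil)))) Pf.nil)) (Pf.cons (Pf.B 5 3 (Pf.B 5 2 (Pf.B 5 1 (Pf.C 11 49285) (Pf.C 12 33409)) (Pf.C 32 261)) (Pf.C 32 389)) Pf.nil)))) Pf.nil)) (Pf.cons (Pf.T 4 8 (Pf.cons (Pf.W 60 0 [4] [1,2,3] (Pf.cons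 (Pf.T 5 7 (Pf.cons (Pf.W 60 0 [4,5] [1,2,3] (Pf.cons (Pf.B 6 5 (Pf.C 7 646) (Pf.C 1 646)) (Pf.cons (Pf.B 6 4 (Pf.C 11 518) (Pf.C 48 518)) (Pf.cons (Pf.B 6 3 (Pf.B 6 2 (Pf.B 6 1 (Pf.C 11 49286) (Pf.C 12 33537)) (Pf.C 32 262)) (Pf.C 32 390)) Pf.nil)))) Pf.nil)) (Pf.cons (Pf.B 5 4 (Pf.C 11 517) (Pf.C 48 517)) (Pf.cons (Pf.B 5 3 (Pf.B 5 2 (Pf.B 5 1 (Pf.C 11 49285) (Pf.C 12 33409)) (Pf.C 32 261)) (Pf.C 32 389)) Pf.nil)))) Pf.nil)) (Pf.cons (Pf.B 4 3 (Pf.B 4 2 (Pf.B 4 1 (Pf.C 11 49284) (Pf.C 12 33281)) (Pf.C 32 260)) (Pf.C 32 388)) Pf.nil)))) (Pf.cons (Pf.W 60 0 [] [1,2,3] (Pf.cons (Pf.T 4 7 (Pf.cons (Pf.W 60 0 [4] [1,2,3] (Pf.cons (Pf.B 5 4 (Pf.C 7 517) (Pf.C 1 517)) (Pf.cons (Pf.T 5 8 (Pf.cons (Pf.W 60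 0 [4,5] [1,2,3] (Pf.cons (Pf.B 6 4 (Pf.C 7 518) (Pf.C 1 518)) (Pf.cons (Pf.B 6 5 (Pf.C 11 646) (Pf.C 48 646)) (Pf.cons (Pf.B 6 3 (Pf.B 6 2 (Pf.B 6 1 (Pf.C 11 49286) (Pf.C 12 33537)) (Pf.C 32 262)) (Pf.C 32 390)) Pf.nil)))) Pf.nil)) (Pf.cons (Pf.B 5 3 (Pf.B 5 2 (Pf.B 5 1 (Pf.C 11 49285) (Pf.C 12 33409)) (Pf.C 32 261)) (Pf.C 32 389)) Pf.nil)))) Pf.nil)) (Pf.cons (Pf.T 4 8 (Pf.cons (Pf.W 60 0 [4] [1,2,3] (Pf.cons (Pf.T 5 7 (Pf.cons (Pf.W 60 0 [4,5] [1,2,3] (Pf.cons (Pf.B 6 5 (Pf.C 7 646) (Pf.C 1 646)) (Pf.cons (Pf.B 6 4 (Pf.C 11 518) (Pf.C 48 518)) (Pf.cons (Pf.B 6 3 (Pf.B 6 2 (Pf.B 6 1 (Pf.C 11 49286) (Pf.C 12 33537)) (Pf.C 32 262)) (Pf.C 32 390)) Pf.nil)))) Pf.nil)) (Pf.cons (Pf.B 5 4 (Pf.C 11 517)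 (Pf.C 48 517)) (Pf.cons (Pf.B 5 3 (Pf.B 5 2 (Pf.B 5 1 (Pf.C 11 49285) (Pf.C 12 33409)) (Pf.C 32 261)) (Pf.C 32 389)) Pf.nil)))) Pf.nil)) (Pf.cons (Pf.B 4 3 (Pf.B 4 2 (Pf.B 4 1 (Pf.C 11 49284) (Pf.C 12 33281)) (Pf.C 32 260)) (Pf.C 32 388)) Pf.nil)))) Pf.nil))) (Pf.C 4 3)) Pf.nil)) (Pf.cons (Pf.C 44 130) Pf.nil))) (Pf.C 4 2)) Pf.nil)))
 Pq.nil))
theorem h2_o11 : AllRef h2_T h2_G27 (extObl 58 [57] [55]) :=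
  chkPq_sound h2_o11c _ (by decide +kernel)
noncomputable def h2_o12c : Pq := (Pq.cons (Pq.L [] 1 (Pf.C 2 128))
 (Pq.cons (Pq.L [] 1023 (Pf.W 53 4 [] [0,1,2,3] (Pf.cons (Pf.B 5 3 (Pf.B 5 2 (Pf.B 5 1 (Pf.B 5 0 (Pf.T 5 9 (Pf.cons (Pf.W 53 3 [] [0,1,2,5] (Pf.cons (Pf.B 6 2 (Pf.B 6 1 (Pf.B 6 0 (Pf.B 6 5 (Pf.T 6 9 (Pf.cons (Pf.W 50 0 [] [1,2,3,5,6] (Pf.cons (Pf.B 7 3 (Pf.B 7 2 (Pf.B 7 1 (Pf.B 7 6 (Pf.B 7 5 (Pf.C 26 0x618287) (Pf.T 7 9 (Pf.cons (Pf.W 50 1 [] [0,2,5,6,7] (Pf.cons (Pf.B 8 7 (Pf.B 8 6 (Pf.C 26 0x220386) (Pf.B 8 2 (Pf.T 8 9 (Pf.cons (Pf.W 50 2 [] [0,1,5,6,7,8] (Pf.cons (Pf.B 9 8 (Pf.B 9 7 (Pf.C 26 0x424407) (Pf.C 59 0xa00487)) (Pf.C 59 0xc04488)) Pf.nil)) Pf.nil)) (Pf.C 8 0x20082))) (Pf.C 59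 0xa00407)) Pf.nil)) Pf.nil))) (Pf.T 7 9 (Pf.cons (Pf.W 50 1 [] [0,2,3,5,6,7] (Pf.cons (Pf.B 8 7 (Pf.B 8 6 (Pf.B 8 5 (Pf.C 26 0x220305) (Pf.B 8 2 (Pf.T 8 9 (Pf.cons (Pf.W 50 2 [] [0,1,5,6,7,8] (Pf.cons (Pf.B 9 8 (Pf.B 9 7 (Pf.C 26 0x424407) (Pf.C 59 0xc00487)) (Pf.C 59 0xa04488)) Pf.nil)) Pf.nil)) (Pf.C 8 0x20082))) (Pf.C 59 0xe0c406)) (Pf.C 59 0xc00407)) Pf.nil)) Pf.nil))) (Pf.C 8 0x1c001)) (Pf.C 8 0x1c002)) (Pf.C 8 0x1c003)) Pf.nil)) Pf.nil)) (Pf.T 6 9 (Pf.cons (Pf.W 50 0 [] [1,2,3,5,6] (Pf.cons (Pf.B 7 6 (Pf.B 7 2 (Pf.B 7 1 (Pf.T 7 9 (Pf.cons (Pf.W 50 1 [] [0,2,3,5,6,7] (Pf.cons (Pf.B 8 6 (Pf.B 8 7 (Pf.C 26 0x220307) (Pf.B 8 2 (Pf.T 8 9 (Pf.cons (Pf.W 50 2 [] [0,3,5,6,7,8] (Pf.cons (Pf.B 9 7 (Pf.B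 9 6 (Pf.C 26 0x424386) (Pf.C 59 0xa0c486)) (Pf.C 59 0x1000487)) Pf.nil)) Pf.nil)) (Pf.C 8 0x20082))) (Pf.C 59 0xa0c406)) Pf.nil)) Pf.nil)) (Pf.C 8 0x1c001)) (Pf.C 8 0x1c002)) (Pf.C 59 0xa0c386)) Pf.nil)) Pf.nil))) (Pf.C 8 98688)) (Pf.C 8 98689)) (Pf.C 8 98690)) Pf.nil)) Pf.nil)) (Pf.C 8 82432)) (Pf.C 8 82433)) (Pf.C 8 82434)) (Pf.C 8 82435)) Pf.nil)))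
 Pq.nil))
theorem h2_o12 : AllRef h2_T h2_G28 (hitObl [51] h2_h34) :=
  chkPq_sound h2_o12c _ (by decide +kernel)
noncomputable def h2_o13c : Pq := (Pq.cons (Pq.L [] 0 (Pf.C 70 0))
 Pq.nil)
theorem h2_o13 : AllRef h2_T h2_G30 (List.map pat1 [64]) :=
  chkPq_sound h2_o13c _ (by decide +kernel)
noncomputable def h2_o14c : Pq := (Pq.cons (Pq.D 0 (Pq.cons (Pq.D 1 (Pq.cons (Pq.L [] 1 (Pf.C 1 128))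
 (Pq.cons (Pq.L [] 1 (Pf.C 3 128))
 (Pq.cons (Pq.L [] 1 (Pf.C 3 128))
 (Pq.cons (Pq.D 2 (Pq.cons (Pq.L [] 2 (Pf.C 1 256))
 (Pq.cons (Pq.L [] 2 (Pf.C 3 256))
 (Pq.cons (Pq.L [] 2 (Pf.C 3 256))
 (Pq.cons (Pq.L [] 3 (Pf.B 2 1 (Pf.C 10 16640) (Pf.C 4 130)))
 (Pq.cons (Pq.L [] 3 (Pf.B 2 1 (Pf.C 10 16640) (Pf.C 4 130)))
 Pq.nil)))))) (Pq.cons (Pq.D 2 (Pq.cons (Pq.L [] 2 (Pf.C 1 256))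
 (Pq.cons (Pq.L [] 2 (Pf.C 3 256))
 (Pq.cons (Pq.L [] 2 (Pf.C 3 256))
 (Pq.cons (Pq.L [] 3 (Pf.B 2 1 (Pf.C 10 16640) (Pf.C 4 130)))
 (Pq.cons (Pq.L [] 3 (Pf.B 2 1 (Pf.C 10 16640) (Pf.C 4 130)))
 Pq.nil)))))) Pq.nil)))))) (Pq.cons (Pq.D 1 (Pq.cons (Pq.L [] 1 (Pf.C 3 1))
 (Pq.cons (Pq.L [] 1 (Pf.C 48 128))
 (Pq.cons (Pq.D 2 (Pq.cons (Pq.L [] 2 (Pf.C 3 2))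
 (Pq.cons (Pq.L [] 2 (Pf.C 48 256))
 (Pq.cons (Pq.D 3 (Pq.cons (Pq.L [] 4 (Pf.C 3 3))
 (Pq.cons (Pq.L [] 4 (Pf.C 48 384))
 (Pq.cons (Pq.L [] 4 (Pf.W 31 0 [] [3] (Pf.cons (Pf.B 4 3 (Pf.C 12 65920) (Pf.T 4 4 (Pf.cons (Pf.W 31 0 [4] [3] (Pf.cons (Pf.B 5 3 (Pf.C 12 82304) (Pf.C 32 66179)) Pf.nil)) (Pf.cons (Pf.C 44 4) Pf.nil)))) Pf.nil)))
 (Pq.cons (Pq.L [] 2 (Pf.W 31 0 [] [2] (Pf.cons (Pf.B 4 2 (Pf.C 12 65792) (Pf.T 4 4 (Pf.cons (Pf.W 31 0 [4] [2] (Pf.cons (Pf.B 5 2 (Pf.C 12 82176) (Pf.C 32 66178)) Pf.nil)) (Pf.cons (Pf.C 44 4) Pf.nil)))) Pf.nil)))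
 (Pq.cons (Pq.L [] 2 (Pf.W 31 0 [] [2] (Pf.cons (Pf.B 4 2 (Pf.C 12 65792) (Pf.T 4 4 (Pf.cons (Pf.W 31 0 [4] [2] (Pf.cons (Pf.B 5 2 (Pf.C 12 82176) (Pf.C 32 66178)) Pf.nil)) (Pf.cons (Pf.C 44 4) Pf.nil)))) Pf.nil)))
 Pq.nil)))))) (Pq.cons (Pq.D 3 (Pq.cons (Pq.L [] 4 (Pf.C 3 3))
 (Pq.cons (Pq.L [] 4 (Pf.C 48 384))
 (Pq.cons (Pq.L [] 4 (Pf.W 31 0 [] [3] (Pf.cons (Pf.B 4 3 (Pf.C 12 65920) (Pf.T 4 4 (Pf.cons (Pf.W 31 0 [4] [3] (Pf.cons (Pf.B 5 3 (Pf.C 12 82304) (Pf.C 32 66179)) Pf.nil)) (Pf.cons (Pf.C 44 4) Pf.nil)))) Pf.nil)))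
 (Pq.cons (Pq.L [] 6 (Pf.B 3 2 (Pf.W 31 0 [] [2,3] (Pf.cons (Pf.B 4 3 (Pf.B 4 2 (Pf.T 4 4 (Pf.cons (Pf.W 31 0 [4] [2,3] (Pf.cons (Pf.B 5 4 (Pf.B 5 3 (Pf.B 5 2 (Pf.C 0 0x40014182) (Pf.C 4 261)) (Pf.C 4 389)) (Pf.C 4 517)) Pf.nil)) (Pf.cons (Pf.C 44 4) Pf.nil))) (Pf.C 4 260)) (Pf.C 4 388)) Pf.nil)) (Pf.C 4 259)))
 (Pq.cons (Pq.L [] 7 (Pf.B 3 2 (Pf.B 3 1 (Pf.B 2 1 (Pf.W 43 2 [] [1,3] (Pf.cons (Pf.B 4 3 (Pf.B 4 1 (Pf.C 11 49284) (Pf.C 12 32900)) (Pf.C 44 515)) Pf.nil)) (Pf.C 12 32769)) (Pf.C 12 49153)) (Pf.C 4 259)))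
 Pq.nil)))))) (Pq.cons (Pq.D 3 (Pq.cons (Pq.L [] 4 (Pf.C 3 3))
 (Pq.cons (Pq.L [] 4 (Pf.C 48 384))
 (Pq.cons (Pq.L [] 4 (Pf.W 31 0 [] [3] (Pf.cons (Pf.B 4 3 (Pf.C 12 65920) (Pf.T 4 4 (Pf.cons (Pf.W 31 0 [4] [3] (Pf.cons (Pf.B 5 3 (Pf.C 12 82304) (Pf.C 32 66179)) Pf.nil)) (Pf.cons (Pf.C 44 4) Pf.nil)))) Pf.nil)))
 (Pq.cons (Pq.L [] 7 (Pf.B 3 2 (Pf.B 3 1 (Pf.B 2 1 (Pf.W 43 3 [] [1,2] (Pf.cons (Pf.B 4 2 (Pf.B 4 1 (Pf.C 11 32900) (Pf.C 12 49284)) (Pf.C 44 514)) Pf.nil)) (Pf.C 12 32769)) (Pf.C 12 49153)) (Pf.C 4 259)))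
 (Pq.cons (Pq.L [] 6 (Pf.B 3 2 (Pf.W 31 0 [] [2,3] (Pf.cons (Pf.B 4 3 (Pf.B 4 2 (Pf.T 4 4 (Pf.cons (Pf.W 31 0 [4] [2,3] (Pf.cons (Pf.B 5 4 (Pf.B 5 3 (Pf.B 5 2 (Pf.C 0 0x40014182) (Pf.C 4 261)) (Pf.C 4 389)) (Pf.C 4 517)) Pf.nil)) (Pf.cons (Pf.C 44 4) Pf.nil))) (Pf.C 4 260)) (Pf.C 4 388)) Pf.nil)) (Pf.C 4 259)))
 Pq.nil)))))) Pq.nil)))))) (Pq.cons (Pq.D 2 (Pq.cons (Pq.L [] 2 (Pf.C 3 2))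
 (Pq.cons (Pq.L [] 2 (Pf.C 48 256))
 (Pq.cons (Pq.D 3 (Pq.cons (Pq.L [] 4 (Pf.C 3 3))
 (Pq.cons (Pq.L [] 4 (Pf.C 48 384))
 (Pq.cons (Pq.L [] 4 (Pf.W 31 0 [] [3] (Pf.cons (Pf.B 4 3 (Pf.C 12 65920) (Pf.T 4 4 (Pf.cons (Pf.W 31 0 [4] [3] (Pf.cons (Pf.B 5 3 (Pf.C 12 82304) (Pf.C 32 66179)) Pf.nil)) (Pf.cons (Pf.C 44 4) Pf.nil)))) Pf.nil)))
 (Pq.cons (Pq.L [] 2 (Pf.W 31 0 [] [2] (Pf.cons (Pf.B 4 2 (Pf.C 12 65792) (Pf.T 4 4 (Pf.cons (Pf.W 31 0 [4] [2] (Pf.cons (Pf.B 5 2 (Pf.C 12 82176) (Pf.C 32 66178)) Pf.nil)) (Pf.cons (Pf.C 44 4) Pf.nil)))) Pf.nil)))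
 (Pq.cons (Pq.L [] 7 (Pf.B 3 2 (Pf.B 3 1 (Pf.B 2 1 (Pf.W 43 1 [] [2,3] (Pf.cons (Pf.B 4 3 (Pf.B 4 2 (Pf.C 11 49412) (Pf.C 12 16644)) (Pf.C 44 515)) Pf.nil)) (Pf.C 12 16386)) (Pf.C 4 131)) (Pf.C 12 49154)))
 Pq.nil)))))) (Pq.cons (Pq.D 3 (Pq.cons (Pq.L [] 4 (Pf.C 3 3))
 (Pq.cons (Pq.L [] 4 (Pf.C 48 384))
 (Pq.cons (Pq.L [] 4 (Pf.W 31 0 [] [3] (Pf.cons (Pf.B 4 3 (Pf.C 12 65920) (Pf.T 4 4 (Pf.cons (Pf.W 31 0 [4] [3] (Pf.cons (Pf.B 5 3 (Pf.C 12 82304) (Pf.C 32 66179)) Pf.nil)) (Pf.cons (Pf.C 44 4) Pf.nil)))) Pf.nil)))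
 (Pq.cons (Pq.L [] 6 (Pf.B 3 2 (Pf.W 31 0 [] [2,3] (Pf.cons (Pf.B 4 3 (Pf.B 4 2 (Pf.T 4 4 (Pf.cons (Pf.W 31 0 [4] [2,3] (Pf.cons (Pf.B 5 4 (Pf.B 5 3 (Pf.B 5 2 (Pf.C 0 0x40014182) (Pf.C 4 261)) (Pf.C 4 389)) (Pf.C 4 517)) Pf.nil)) (Pf.cons (Pf.C 44 4) Pf.nil))) (Pf.C 4 260)) (Pf.C 4 388)) Pf.nil)) (Pf.C 4 259)))
 (Pq.cons (Pq.L [] 5 (Pf.B 3 1 (Pf.B 2 1 (Pf.W 43 1 [] [0,3] (Pf.cons (Pf.B 4 3 (Pf.B 4 0 (Pf.C 11 49156) (Pf.C 12 16388)) (Pf.C 44 515)) Pf.nil)) (Pf.C 4 130)) (Pf.C 4 131)))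
 Pq.nil)))))) (Pq.cons (Pq.L [] 3 (Pf.B 2 1 (Pf.B 3 2 (Pf.B 3 1 (Pf.W 43 1 [] [0,2] (Pf.cons (Pf.B 4 2 (Pf.B 4 0 (Pf.C 11 32772) (Pf.C 12 16388)) (Pf.C 44 514)) Pf.nil)) (Pf.B 3 0 (Pf.W 43 1 [] [0,2] (Pf.cons (Pf.B 4 2 (Pf.B 4 0 (Pf.C 11 32772) (Pf.C 12 16388)) (Pf.C 44 514)) Pf.nil)) (Pf.W 43 1 [] [0,2] (Pf.cons (Pf.B 4 2 (Pf.B 4 0 (Pf.C 11 32772) (Pf.C 12 16388)) (Pf.C 44 514)) Pf.nil)))) (Pf.W 43 1 [] [0,2] (Pf.cons (Pf.B 4 2 (Pf.B 4 0 (Pf.C 11 32772) (Pf.C 12 16388)) (Pf.C 44 514)) Pf.nil))) (Pf.C 4 130)))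
 Pq.nil)))))) (Pq.cons (Pq.D 2 (Pq.cons (Pq.L [] 2 (Pf.C 3 2))
 (Pq.cons (Pq.L [] 2 (Pf.C 48 256))
 (Pq.cons (Pq.D 3 (Pq.cons (Pq.L [] 4 (Pf.C 3 3))
 (Pq.cons (Pq.L [] 4 (Pf.C 48 384))
 (Pq.cons (Pq.L [] 4 (Pf.W 31 0 [] [3] (Pf.cons (Pf.B 4 3 (Pf.C 12 65920) (Pf.T 4 4 (Pf.cons (Pf.W 31 0 [4] [3] (Pf.cons (Pf.B 5 3 (Pf.C 12 82304) (Pf.C 32 66179)) Pf.nil)) (Pf.cons (Pf.C 44 4) Pf.nil)))) Pf.nil)))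
 (Pq.cons (Pq.L [] 7 (Pf.B 3 2 (Pf.B 3 1 (Pf.B 2 1 (Pf.W 43 3 [] [1,2] (Pf.cons (Pf.B 4 2 (Pf.B 4 1 (Pf.C 11 16644) (Pf.C 44 513)) (Pf.C 12 49412)) Pf.nil)) (Pf.C 12 16386)) (Pf.C 4 131)) (Pf.C 12 49154)))
 (Pq.cons (Pq.L [] 2 (Pf.W 31 0 [] [2] (Pf.cons (Pf.B 4 2 (Pf.C 12 65792) (Pf.T 4 4 (Pf.cons (Pf.W 31 0 [4] [2] (Pf.cons (Pf.B 5 2 (Pf.C 12 82176) (Pf.C 32 66178)) Pf.nil)) (Pf.cons (Pf.C 44 4) Pf.nil)))) Pf.nil)))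
 Pq.nil)))))) (Pq.cons (Pq.L [] 3 (Pf.B 2 1 (Pf.B 3 2 (Pf.W 43 2 [] [0,1] (Pf.cons (Pf.B 4 1 (Pf.B 4 0 (Pf.C 11 16388) (Pf.C 12 32772)) (Pf.C 44 513)) Pf.nil)) (Pf.B 3 1 (Pf.B 3 0 (Pf.W 43 2 [] [0,1] (Pf.cons (Pf.B 4 1 (Pf.B 4 0 (Pf.C 11 16388) (Pf.C 12 32772)) (Pf.C 44 513)) Pf.nil)) (Pf.W 43 2 [] [0,1] (Pf.cons (Pf.B 4 1 (Pf.B 4 0 (Pf.C 11 16388) (Pf.C 12 32772)) (Pf.C 44 513)) Pf.nil))) (Pf.W 43 2 [] [0,1] (Pf.cons (Pf.B 4 1 (Pf.B 4 0 (Pf.C 11 16388) (Pf.C 12 32772)) (Pf.C 44 513)) Pf.nil)))) (Pf.C 4 130)))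
 (Pq.cons (Pq.D 3 (Pq.cons (Pq.L [] 4 (Pf.C 3 3))
 (Pq.cons (Pq.L [] 4 (Pf.C 48 384))
 (Pq.cons (Pq.L [] 4 (Pf.W 31 0 [] [3] (Pf.cons (Pf.B 4 3 (Pf.C 12 65920) (Pf.T 4 4 (Pf.cons (Pf.W 31 0 [4] [3] (Pf.cons (Pf.B 5 3 (Pf.C 12 82304) (Pf.C 32 66179)) Pf.nil)) (Pf.cons (Pf.C 44 4) Pf.nil)))) Pf.nil)))
 (Pq.cons (Pq.L [] 5 (Pf.B 3 2 (Pf.B 3 1 (Pf.W 43 3 [] [0,1] (Pf.cons (Pf.B 4 1 (Pf.B 4 0 (Pf.C 11 16388) (Pf.C 12 49156)) (Pf.C 44 513)) Pf.nil)) (Pf.C 4 131)) (Pf.C 4 259)))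
 (Pq.cons (Pq.L [] 6 (Pf.B 3 2 (Pf.W 31 0 [] [2,3] (Pf.cons (Pf.B 4 3 (Pf.B 4 2 (Pf.T 4 4 (Pf.cons (Pf.W 31 0 [4] [2,3] (Pf.cons (Pf.B 5 4 (Pf.B 5 3 (Pf.B 5 2 (Pf.C 0 0x40014182) (Pf.C 4 261)) (Pf.C 4 389)) (Pf.C 4 517)) Pf.nil)) (Pf.cons (Pf.C 44 4) Pf.nil))) (Pf.C 4 260)) (Pf.C 4 388)) Pf.nil)) (Pf.C 4 259)))
 Pq.nil)))))) Pq.nil)))))) Pq.nil)))))) (Pq.cons (Pq.D 1 (Pq.cons (Pq.L [] 1 (Pf.C 3 1))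
 (Pq.cons (Pq.D 2 (Pq.cons (Pq.L [] 2 (Pf.C 3 2))
 (Pq.cons (Pq.L [] 3 (Pf.B 2 1 (Pf.B 3 2 (Pf.B 3 1 (Pf.W 51 1 [] [0,2] (Pf.cons (Pf.B 4 2 (Pf.C 11 65666) (Pf.B 4 0 (Pf.C 12 65538) (Pf.C 12 65664))) Pf.nil)) (Pf.W 51 1 [] [0,2] (Pf.cons (Pf.B 4 2 (Pf.C 11 65666) (Pf.B 4 0 (Pf.C 12 65538) (Pf.C 12 65664))) Pf.nil))) (Pf.B 3 1 (Pf.B 3 0 (Pf.W 51 1 [] [0,2] (Pf.cons (Pf.B 4 2 (Pf.C 11 65666) (Pf.B 4 0 (Pf.C 12 65538) (Pf.C 12 65664))) Pf.nil)) (Pf.W 51 1 [] [0,2] (Pf.cons (Pf.B 4 2 (Pf.C 11 65666) (Pf.B 4 0 (Pf.C 12 65538) (Pf.C 12 65664))) Pf.nil))) (Pf.W 51 1 [] [0,2] (Pf.cons (Pf.B 4 2 (Pf.C 11 65666) (Pf.B 4 0 (Pf.C 12 65538) (Pf.C 12 65664))) Pf.nil)))) (Pf.C 48 130)))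
 (Pq.cons (Pq.D 3 (Pq.cons (Pq.L [] 4 (Pf.C 3 3))
 (Pq.cons (Pq.L [] 7 (Pf.B 3 1 (Pf.B 3 2 (Pf.B 2 1 (Pf.W 51 1 [] [0,2] (Pf.cons (Pf.B 4 2 (Pf.C 11 65666) (Pf.B 4 0 (Pf.C 12 65538) (Pf.C 12 65664))) Pf.nil)) (Pf.C 24 0x604100)) (Pf.B 2 1 (Pf.C 24 0x20c100) (Pf.W 51 1 [] [2,3] (Pf.cons (Pf.B 4 3 (Pf.C 11 65667) (Pf.B 4 2 (Pf.C 12 65795) (Pf.C 12 65666))) Pf.nil)))) (Pf.C 48 131)))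
 (Pq.cons (Pq.L [] 7 (Pf.B 3 2 (Pf.B 3 1 (Pf.B 2 1 (Pf.W 51 1 [] [0,2] (Pf.cons (Pf.B 4 2 (Pf.C 11 65666) (Pf.B 4 0 (Pf.C 12 65538) (Pf.C 12 65664))) Pf.nil)) (Pf.C 24 0x604100)) (Pf.B 2 1 (Pf.C 24 0x40c080) (Pf.W 51 1 [] [2,3] (Pf.cons (Pf.B 4 3 (Pf.B 4 2 (Pf.C 11 65922) (Pf.C 12 65666)) (Pf.C 12 65667)) Pf.nil)))) (Pf.B 3 1 (Pf.B 2 1 (Pf.C 24 0x20c100) (Pf.W 51 1 [] [0,2,3] (Pf.cons (Pf.B 4 3 (Pf.C 11 65667) (Pf.C 59 0x400203)) Pf.nil))) (Pf.W 31 1 [] [3] (Pf.cons (Pf.B 4 3 (Pf.C 12 65921) (Pf.T 4 4 (Pf.cons (Pf.W 31 1 [4] [3] (Pf.cons (Pf.B 5 3 (Pf.C 12 82305) (Pf.C 32 66179)) Pf.nil)) (Pf.cons (Pf.C 44 132) Pf.nil)))) Pf.nil)))))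
 (Pq.cons (Pq.L [] 7 (Pf.B 3 2 (Pf.C 12 49408) (Pf.B 2 1 (Pf.W 31 1 [3] [0,2] (Pf.cons (Pf.B 4 2 (Pf.B 4 0 (Pf.C 12 65537) (Pf.C 12 65792)) (Pf.C 32 49666)) Pf.nil)) (Pf.W 31 1 [3] [2] (Pf.cons (Pf.B 4 2 (Pf.C 12 65793) (Pf.C 32 49666)) Pf.nil)))))
 (Pq.cons (Pq.L [] 5 (Pf.B 3 1 (Pf.C 12 49280) (Pf.C 44 131)))
 Pq.nil)))))) (Pq.cons (Pq.L [] 3 (Pf.B 3 1 (Pf.W 31 1 [2] [0] (Pf.cons (Pf.B 4 0 (Pf.C 12 65537) (Pf.C 32 33280)) Pf.nil)) (Pf.B 3 0 (Pf.W 31 1 [2] [0] (Pf.cons (Pf.B 4 0 (Pf.C 12 65537) (Pf.C 32 33280)) Pf.nil)) (Pf.W 31 1 [2] [0] (Pf.cons (Pf.B 4 0 (Pf.C 12 65537) (Pf.C 32 33280)) Pf.nil)))))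
 (Pq.cons (Pq.L [] 3 (Pf.B 2 1 (Pf.C 12 32896) (Pf.C 44 130)))
 Pq.nil)))))) (Pq.cons (Pq.D 2 (Pq.cons (Pq.L [] 2 (Pf.C 3 2))
 (Pq.cons (Pq.D 3 (Pq.cons (Pq.L [] 4 (Pf.C 3 3))
 (Pq.cons (Pq.L [] 7 (Pf.B 3 2 (Pf.B 3 1 (Pf.B 2 1 (Pf.W 51 2 [] [0,1] (Pf.cons (Pf.B 4 1 (Pf.C 11 65793) (Pf.B 4 0 (Pf.C 12 65537) (Pf.C 12 65792))) Pf.nil)) (Pf.C 24 0x604100)) (Pf.B 2 1 (Pf.C 24 0x40c080) (Pf.W 51 2 [] [1,3] (Pf.cons (Pf.B 4 3 (Pf.C 11 65795) (Pf.B 4 1 (Pf.C 12 65667) (Pf.C 12 65793))) Pf.nil)))) (Pf.C 48 259)))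
 (Pq.cons (Pq.L [] 7 (Pf.B 3 2 (Pf.B 3 1 (Pf.B 2 1 (Pf.W 51 2 [] [0,1] (Pf.cons (Pf.B 4 1 (Pf.C 11 65793) (Pf.B 4 0 (Pf.C 12 65537) (Pf.C 12 65792))) Pf.nil)) (Pf.C 24 0x604100)) (Pf.B 2 1 (Pf.C 24 0x40c080) (Pf.W 51 2 [] [0,1,3] (Pf.cons (Pf.B 4 3 (Pf.C 11 65795) (Pf.C 59 0x200203)) Pf.nil)))) (Pf.W 31 2 [] [3] (Pf.cons (Pf.B 4 3 (Pf.C 12 65922) (Pf.T 4 4 (Pf.cons (Pf.W 31 2 [4] [3] (Pf.cons (Pf.B 5 3 (Pf.C 12 82306) (Pf.C 32 66179)) Pf.nil)) (Pf.cons (Pf.C 44 260) Pf.nil)))) Pf.nil))))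
 (Pq.cons (Pq.L [] 7 (Pf.B 3 1 (Pf.C 12 49280) (Pf.B 2 1 (Pf.W 31 2 [3] [0,1] (Pf.cons (Pf.B 4 1 (Pf.B 4 0 (Pf.C 12 65538) (Pf.C 12 65664)) (Pf.C 32 49665)) Pf.nil)) (Pf.W 31 2 [3] [1] (Pf.cons (Pf.B 4 1 (Pf.C 12 65666) (Pf.C 32 49665)) Pf.nil)))))
 (Pq.cons (Pq.L [] 6 (Pf.B 3 2 (Pf.C 12 49408) (Pf.C 44 259)))
 Pq.nil)))))) (Pq.cons (Pq.D 3 (Pq.cons (Pq.L [] 4 (Pf.C 3 3))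
 (Pq.cons (Pq.L [] 7 (Pf.B 3 2 (Pf.B 3 1 (Pf.W 51 3 [] [0,1] (Pf.cons (Pf.B 4 1 (Pf.C 11 65921) (Pf.B 4 0 (Pf.C 12 65537) (Pf.C 12 65920))) Pf.nil)) (Pf.B 2 1 (Pf.C 24 0x40c080) (Pf.W 51 3 [] [0,1,2] (Pf.cons (Pf.B 4 2 (Pf.C 11 65922) (Pf.C 59 0x200202)) Pf.nil)))) (Pf.W 31 3 [] [2] (Pf.cons (Pf.B 4 2 (Pf.C 12 65795) (Pf.T 4 4 (Pf.cons (Pf.W 31 3 [4] [2] (Pf.cons (Pf.B 5 2 (Pf.C 12 82179) (Pf.C 32 66178)) Pf.nil)) (Pf.cons (Pf.C 44 388) Pf.nil)))) Pf.nil))))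
 (Pq.cons (Pq.L [] 7 (Pf.C 59 0x608080))
 (Pq.cons (Pq.L [] 7 (Pf.C 59 0x608080))
 (Pq.cons (Pq.L [] 7 (Pf.C 59 0x608080))
 Pq.nil)))))) (Pq.cons (Pq.D 3 (Pq.cons (Pq.L [] 4 (Pf.C 3 3))
 (Pq.cons (Pq.L [] 7 (Pf.B 2 1 (Pf.C 12 32896) (Pf.B 3 1 (Pf.W 31 3 [2] [0,1] (Pf.cons (Pf.B 4 1 (Pf.B 4 0 (Pf.C 12 65539) (Pf.C 12 65664)) (Pf.C 32 33281)) Pf.nil)) (Pf.W 31 3 [2] [1] (Pf.cons (Pf.B 4 1 (Pf.C 12 65667) (Pf.C 32 33281)) Pf.nil)))))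
 (Pq.cons (Pq.L [] 7 (Pf.C 59 0x608080))
 (Pq.cons (Pq.L [] 6 (Pf.C 32 49408))
 (Pq.cons (Pq.L [] 6 (Pf.C 32 49408))
 Pq.nil)))))) (Pq.cons (Pq.D 3 (Pq.cons (Pq.L [] 4 (Pf.C 3 3))
 (Pq.cons (Pq.L [] 6 (Pf.B 3 2 (Pf.C 12 33152) (Pf.C 44 386)))
 (Pq.cons (Pq.L [] 7 (Pf.C 59 0x608080))
 (Pq.cons (Pq.L [] 6 (Pf.C 32 49408))
 (Pq.cons (Pq.L [] 6 (Pf.C 32 49408))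
 Pq.nil)))))) Pq.nil)))))) (Pq.cons (Pq.D 2 (Pq.cons (Pq.L [] 2 (Pf.C 3 2))
 (Pq.cons (Pq.L [] 3 (Pf.B 3 2 (Pf.W 31 2 [1] [0] (Pf.cons (Pf.B 4 0 (Pf.C 12 65538) (Pf.C 32 16896)) Pf.nil)) (Pf.B 3 0 (Pf.W 31 2 [1] [0] (Pf.cons (Pf.B 4 0 (Pf.C 12 65538) (Pf.C 32 16896)) Pf.nil)) (Pf.W 31 2 [1] [0] (Pf.cons (Pf.B 4 0 (Pf.C 12 65538) (Pf.C 32 16896)) Pf.nil)))))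
 (Pq.cons (Pq.D 3 (Pq.cons (Pq.L [] 4 (Pf.C 3 3))
 (Pq.cons (Pq.L [] 7 (Pf.B 2 1 (Pf.C 12 16640) (Pf.B 3 2 (Pf.W 31 3 [1] [0,2] (Pf.cons (Pf.B 4 2 (Pf.B 4 0 (Pf.C 12 65539) (Pf.C 12 65792)) (Pf.C 32 16898)) Pf.nil)) (Pf.W 31 3 [1] [2] (Pf.cons (Pf.B 4 2 (Pf.C 12 65795) (Pf.C 32 16898)) Pf.nil)))))
 (Pq.cons (Pq.L [] 7 (Pf.C 59 0x608080))
 (Pq.cons (Pq.L [] 5 (Pf.C 32 49280))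
 (Pq.cons (Pq.L [] 5 (Pf.C 32 49280))
 Pq.nil)))))) (Pq.cons (Pq.L [] 3 (Pf.C 32 32896))
 (Pq.cons (Pq.L [] 3 (Pf.C 32 32896))
 Pq.nil)))))) (Pq.cons (Pq.D 2 (Pq.cons (Pq.L [] 2 (Pf.C 3 2))
 (Pq.cons (Pq.L [] 3 (Pf.B 2 1 (Pf.C 12 16640) (Pf.C 44 257)))
 (Pq.cons (Pq.D 3 (Pq.cons (Pq.L [] 4 (Pf.C 3 3))
 (Pq.cons (Pq.L [] 5 (Pf.B 3 1 (Pf.C 12 16768) (Pf.C 44 385)))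
 (Pq.cons (Pq.L [] 7 (Pf.C 59 0x608080))
 (Pq.cons (Pq.L [] 5 (Pf.C 32 49280))
 (Pq.cons (Pq.L [] 5 (Pf.C 32 49280))
 Pq.nil)))))) (Pq.cons (Pq.L [] 3 (Pf.C 32 32896))
 (Pq.cons (Pq.L [] 3 (Pf.C 32 32896))
 Pq.nil)))))) Pq.nil)))))) (Pq.cons (Pq.D 1 (Pq.cons (Pq.D 2 (Pq.cons (Pq.L [] 3 (Pf.B 2 1 (Pf.C 7 130) (Pf.C 1 130)))
 (Pq.cons (Pq.D 3 (Pq.cons (Pq.L [] 7 (Pf.C 61 0x608080))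
 (Pq.cons (Pq.L [] 7 (Pf.C 61 0x608080))
 (Pq.cons (Pq.L [] 7 (Pf.C 62 0x404180))
 (Pq.cons (Pq.L [] 4 (Pf.C 4 384))
 (Pq.cons (Pq.L [] 4 (Pf.C 4 384))
 Pq.nil)))))) (Pq.cons (Pq.D 3 (Pq.cons (Pq.L [] 7 (Pf.C 62 0x604100))
 (Pq.cons (Pq.L [] 7 (Pf.C 62 0x604100))
 (Pq.cons (Pq.L [] 7 (Pf.C 63 0x20c100))
 (Pq.cons (Pq.L [] 4 (Pf.C 4 384))
 (Pq.cons (Pq.L [] 4 (Pf.C 4 384))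
 Pq.nil)))))) (Pq.cons (Pq.L [] 2 (Pf.C 4 256))
 (Pq.cons (Pq.L [] 2 (Pf.C 4 256))
 Pq.nil)))))) (Pq.cons (Pq.D 2 (Pq.cons (Pq.D 3 (Pq.cons (Pq.L [] 7 (Pf.C 61 0x608080))
 (Pq.cons (Pq.L [] 7 (Pf.C 61 0x608080))
 (Pq.cons (Pq.L [] 7 (Pf.C 62 0x404180))
 (Pq.cons (Pq.L [] 4 (Pf.C 4 384))
 (Pq.cons (Pq.L [] 4 (Pf.C 4 384))
 Pq.nil)))))) (Pq.cons (Pq.L [] 3 (Pf.B 2 1 (Pf.C 11 130) (Pf.C 48 130)))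
 (Pq.cons (Pq.D 3 (Pq.cons (Pq.L [] 7 (Pf.C 62 0x604100))
 (Pq.cons (Pq.L [] 7 (Pf.C 62 0x604100))
 (Pq.cons (Pq.L [] 7 (Pf.C 63 0x20c100))
 (Pq.cons (Pq.L [] 4 (Pf.C 4 384))
 (Pq.cons (Pq.L [] 4 (Pf.C 4 384))
 Pq.nil)))))) (Pq.cons (Pq.L [] 2 (Pf.C 4 256))
 (Pq.cons (Pq.L [] 2 (Pf.C 4 256))
 Pq.nil)))))) (Pq.cons (Pq.D 2 (Pq.cons (Pq.D 3 (Pq.cons (Pq.L [] 7 (Pf.C 62 0x608080))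
 (Pq.cons (Pq.L [] 7 (Pf.C 62 0x608080))
 (Pq.cons (Pq.L [] 7 (Pf.C 63 0x40c080))
 (Pq.cons (Pq.L [] 4 (Pf.C 4 384))
 (Pq.cons (Pq.L [] 4 (Pf.C 4 384))
 Pq.nil)))))) (Pq.cons (Pq.D 3 (Pq.cons (Pq.L [] 7 (Pf.C 62 0x608080))
 (Pq.cons (Pq.L [] 7 (Pf.C 62 0x608080))
 (Pq.cons (Pq.L [] 7 (Pf.C 63 0x40c080))
 (Pq.cons (Pq.L [] 4 (Pf.C 4 384))
 (Pq.cons (Pq.L [] 4 (Pf.C 4 384))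
 Pq.nil)))))) (Pq.cons (Pq.D 3 (Pq.cons (Pq.L [] 7 (Pf.C 63 0x608080))
 (Pq.cons (Pq.L [] 7 (Pf.C 63 0x608080))
 (Pq.cons (Pq.L [] 7 (Pf.C 64 0x608080))
 (Pq.cons (Pq.L [] 4 (Pf.C 4 384))
 (Pq.cons (Pq.L [] 4 (Pf.C 4 384))
 Pq.nil)))))) (Pq.cons (Pq.L [] 2 (Pf.C 4 256))
 (Pq.cons (Pq.L [] 2 (Pf.C 4 256))
 Pq.nil)))))) (Pq.cons (Pq.L [] 1 (Pf.C 4 128))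
 (Pq.cons (Pq.L [] 1 (Pf.C 4 128))
 Pq.nil)))))) (Pq.cons (Pq.D 1 (Pq.cons (Pq.D 2 (Pq.cons (Pq.L [] 3 (Pf.B 2 1 (Pf.C 7 130) (Pf.C 1 130)))
 (Pq.cons (Pq.D 3 (Pq.cons (Pq.L [] 5 (Pf.B 3 1 (Pf.C 7 131) (Pf.C 1 131)))
 (Pq.cons (Pq.L [] 6 (Pf.B 3 2 (Pf.C 11 259) (Pf.C 48 259)))
 (Pq.cons (Pq.L [] 6 (Pf.B 3 2 (Pf.B 2 1 (Pf.C 3 257) (Pf.W 51 2 [] [0,3] (Pf.cons (Pf.B 4 3 (Pf.C 11 65795) (Pf.C 32 515)) Pf.nil))) (Pf.C 12 259)))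
 (Pq.cons (Pq.L [] 4 (Pf.C 4 384))
 (Pq.cons (Pq.L [] 4 (Pf.C 4 384))
 Pq.nil)))))) (Pq.cons (Pq.D 3 (Pq.cons (Pq.L [] 7 (Pf.C 66 0x604100))
 (Pq.cons (Pq.L [] 6 (Pf.B 3 2 (Pf.B 3 1 (Pf.C 3 385) (Pf.W 51 3 [] [0,2] (Pf.cons (Pf.B 4 2 (Pf.C 11 65922) (Pf.C 32 514)) Pf.nil))) (Pf.C 12 386)))
 (Pq.cons (Pq.L [] 7 (Pf.C 67 0x20c100))
 (Pq.cons (Pq.L [] 4 (Pf.C 4 384))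
 (Pq.cons (Pq.L [] 4 (Pf.C 4 384))
 Pq.nil)))))) (Pq.cons (Pq.L [] 2 (Pf.C 4 256))
 (Pq.cons (Pq.L [] 2 (Pf.C 4 256))
 Pq.nil)))))) (Pq.cons (Pq.D 2 (Pq.cons (Pq.D 3 (Pq.cons (Pq.L [] 6 (Pf.B 3 2 (Pf.C 7 259) (Pf.C 1 259)))
 (Pq.cons (Pq.L [] 5 (Pf.B 3 1 (Pf.C 11 131) (Pf.C 48 131)))
 (Pq.cons (Pq.L [] 5 (Pf.B 3 1 (Pf.B 2 1 (Pf.C 3 130) (Pf.W 51 1 [] [0,3] (Pf.cons (Pf.B 4 3 (Pf.C 11 65667) (Pf.C 32 515)) Pf.nil))) (Pf.C 12 131)))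
 (Pq.cons (Pq.L [] 4 (Pf.C 4 384))
 (Pq.cons (Pq.L [] 4 (Pf.C 4 384))
 Pq.nil)))))) (Pq.cons (Pq.L [] 3 (Pf.B 2 1 (Pf.C 11 130) (Pf.C 48 130)))
 (Pq.cons (Pq.L [] 3 (Pf.B 2 1 (Pf.B 3 2 (Pf.B 3 1 (Pf.W 51 1 [] [0,2] (Pf.cons (Pf.B 4 2 (Pf.C 11 65666) (Pf.C 32 514)) Pf.nil)) (Pf.W 51 1 [] [0,2] (Pf.cons (Pf.B 4 2 (Pf.C 11 65666) (Pf.C 32 514)) Pf.nil))) (Pf.W 51 1 [] [0,2] (Pf.cons (Pf.B 4 2 (Pf.C 11 65666) (Pf.C 32 514)) Pf.nil))) (Pf.C 12 130)))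
 (Pq.cons (Pq.L [] 2 (Pf.C 4 256))
 (Pq.cons (Pq.L [] 2 (Pf.C 4 256))
 Pq.nil)))))) (Pq.cons (Pq.D 2 (Pq.cons (Pq.D 3 (Pq.cons (Pq.L [] 7 (Pf.C 66 0x608080))
 (Pq.cons (Pq.L [] 5 (Pf.B 3 2 (Pf.C 3 386) (Pf.B 3 1 (Pf.W 51 3 [] [0,1] (Pf.cons (Pf.B 4 1 (Pf.C 11 65921) (Pf.C 32 513)) Pf.nil)) (Pf.C 12 385))))
 (Pq.cons (Pq.L [] 7 (Pf.C 67 0x40c080))
 (Pq.cons (Pq.L [] 4 (Pf.C 4 384))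
 (Pq.cons (Pq.L [] 4 (Pf.C 4 384))
 Pq.nil)))))) (Pq.cons (Pq.L [] 3 (Pf.B 2 1 (Pf.B 3 2 (Pf.B 3 1 (Pf.W 51 2 [] [0,1] (Pf.cons (Pf.B 4 1 (Pf.C 11 65793) (Pf.C 32 513)) Pf.nil)) (Pf.W 51 2 [] [0,1] (Pf.cons (Pf.B 4 1 (Pf.C 11 65793) (Pf.C 32 513)) Pf.nil))) (Pf.W 51 2 [] [0,1] (Pf.cons (Pf.B 4 1 (Pf.C 11 65793) (Pf.C 32 513)) Pf.nil))) (Pf.C 12 257)))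
 (Pq.cons (Pq.D 3 (Pq.cons (Pq.L [] 7 (Pf.C 67 0x608080))
 (Pq.cons (Pq.L [] 6 (Pf.B 3 2 (Pf.W 51 3 [] [0,2] (Pf.cons (Pf.B 4 2 (Pf.C 11 65922) (Pf.C 32 514)) Pf.nil)) (Pf.C 12 386)))
 (Pq.cons (Pq.L [] 7 (Pf.C 68 0x608080))
 (Pq.cons (Pq.L [] 4 (Pf.C 4 384))
 (Pq.cons (Pq.L [] 4 (Pf.C 4 384))
 Pq.nil)))))) (Pq.cons (Pq.L [] 2 (Pf.C 4 256))
 (Pq.cons (Pq.L [] 2 (Pf.C 4 256))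
 Pq.nil)))))) (Pq.cons (Pq.L [] 1 (Pf.C 4 128))
 (Pq.cons (Pq.L [] 1 (Pf.C 4 128))
 Pq.nil)))))) Pq.nil)))))) Pq.nil)
theorem h2_o14 : AllRef h2_T h2_G31 (applyObl TD2 1 [53,55,57,59,61] [0,0,0,0,0] [(53,0x2a80000000000000),(55,0x2820000000000000),(57,0x20000000000000),(59,0xa0000000000000),(61,0xa0000000000000)]) :=
  chkPq_sound h2_o14c _ (by decide +kernel)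
noncomputable def h2_o15c : Pq := (Pq.cons (Pq.L [0] 0 (Pf.C 5 1))
 Pq.nil)
theorem h2_o15 : AllRef h2_T h2_G29 (ptObl 51 (PT.br 0 PT.ref PT.kid) []) :=
  chkPq_sound h2_o15c _ (by decide +kernel)
noncomputable def h2_o16c : Pq := Pq.nil
theorem h2_o16 : AllRef h2_T h2_G32 (ptObl 53 (PT.br 0 PT.kid PT.kid) []) :=
  chkPq_sound h2_o16c _ (by decide +kernel)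
noncomputable def h2_o17c : Pq := (Pq.cons (Pq.L [0] 0 (Pf.W 31 1 [0] [] (Pf.cons (Pf.B 2 0 (Pf.T 2 4 (Pf.cons (Pf.W 51 1 [] [0,2] (Pf.cons (Pf.B 3 0 (Pf.T 3 10 (Pf.cons (Pf.W 60 0 [] [1,2,3] (Pf.cons (Pf.T 4 7 (Pf.cons (Pf.W 60 0 [4] [1,2,3] (Pf.cons (Pf.B 5 4 (Pf.C 7 517) (Pf.C 1 517)) (Pf.cons (Pf.T 5 8 (Pf.cons (Pf.W 60 0 [4,5] [1,2,3] (Pf.cons (Pf.B 6 4 (Pf.C 7 518) (Pf.C 1 518)) (Pf.cons (Pf.B 6 5 (Pf.C 11 646) (Pf.C 48 646)) (Pf.cons (Pf.B 6 3 (Pf.B 6 2 (Pf.B 6 1 (Pf.C 11 49286) (Pf.C 12 33537)) (Pf.C 32 262)) (Pf.C 32 390)) Pf.nil)))) Pf.nil)) (Pf.cons (Pf.B 5 3 (Pf.B 5 2 (Pf.B 5 1 (Pf.C 11 49285) (Pf.C 12 33409)) (Pf.C 32 261)) (Pf.C 32 389)) Pf.nil)))) Pf.nil)) (Pf.cons (Pf.T 4 8 (Pf.cons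 (Pf.W 60 0 [4] [1,2,3] (Pf.cons (Pf.T 5 7 (Pf.cons (Pf.W 60 0 [4,5] [1,2,3] (Pf.cons (Pf.B 6 5 (Pf.C 7 646) (Pf.C 1 646)) (Pf.cons (Pf.B 6 4 (Pf.C 11 518) (Pf.C 48 518)) (Pf.cons (Pf.B 6 3 (Pf.B 6 2 (Pf.B 6 1 (Pf.C 11 49286) (Pf.C 12 33537)) (Pf.C 32 262)) (Pf.C 32 390)) Pf.nil)))) Pf.nil)) (Pf.cons (Pf.B 5 4 (Pf.C 11 517) (Pf.C 48 517)) (Pf.cons (Pf.B 5 3 (Pf.B 5 2 (Pf.B 5 1 (Pf.C 11 49285) (Pf.C 12 33409)) (Pf.C 32 261)) (Pf.C 32 389)) Pf.nil)))) Pf.nil)) (Pf.cons (Pf.B 4 3 (Pf.B 4 2 (Pf.B 4 1 (Pf.C 11 49284) (Pf.C 12 33281)) (Pf.C 32 260)) (Pf.C 32 388)) Pf.nil)))) (Pf.cons (Pf.W 60 0 [] [1,2,3] (Pf.cons (Pf.T 4 7 (Pf.cons (Pf.W 60 0 [4] [1,2,3] (Pf.cons (Pf.B 5 4 (Pf.C 7 517) (Pf.C 1 517)) (Pf.cons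 (Pf.T 5 8 (Pf.cons (Pf.W 60 0 [4,5] [1,2,3] (Pf.cons (Pf.B 6 4 (Pf.C 7 518) (Pf.C 1 518)) (Pf.cons (Pf.B 6 5 (Pf.C 11 646) (Pf.C 48 646)) (Pf.cons (Pf.B 6 3 (Pf.B 6 2 (Pf.B 6 1 (Pf.C 11 49286) (Pf.C 12 33537)) (Pf.C 32 262)) (Pf.C 32 390)) Pf.nil)))) Pf.nil)) (Pf.cons (Pf.B 5 3 (Pf.B 5 2 (Pf.B 5 1 (Pf.C 11 49285) (Pf.C 12 33409)) (Pf.C 32 261)) (Pf.C 32 389)) Pf.nil)))) Pf.nil)) (Pf.cons (Pf.T 4 8 (Pf.cons (Pf.W 60 0 [4] [1,2,3] (Pf.cons (Pf.T 5 7 (Pf.cons (Pf.W 60 0 [4,5] [1,2,3] (Pf.cons (Pf.B 6 5 (Pf.C 7 646) (Pf.C 1 646)) (Pf.cons (Pf.B 6 4 (Pf.C 11 518) (Pf.C 48 518)) (Pf.cons (Pf.B 6 3 (Pf.B 6 2 (Pf.B 6 1 (Pf.C 11 49286) (Pf.C 12 33537)) (Pf.C 32 262)) (Pf.C 32 390)) Pf.nil)))) Pf.nil)) (Pf.cons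 (Pf.B 5 4 (Pf.C 11 517) (Pf.C 48 517)) (Pf.cons (Pf.B 5 3 (Pf.B 5 2 (Pf.B 5 1 (Pf.C 11 49285) (Pf.C 12 33409)) (Pf.C 32 261)) (Pf.C 32 389)) Pf.nil)))) Pf.nil)) (Pf.cons (Pf.B 4 3 (Pf.B 4 2 (Pf.B 4 1 (Pf.C 11 49284) (Pf.C 12 33281)) (Pf.C 32 260)) (Pf.C 32 388)) Pf.nil)))) Pf.nil))) (Pf.C 4 3)) Pf.nil)) (Pf.cons (Pf.C 44 130) Pf.nil))) (Pf.C 4 2)) Pf.nil)))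
 Pq.nil)
theorem h2_o17 : AllRef h2_T h2_G33 (ptObl 55 (PT.br 0 PT.kid PT.ref) []) :=
  chkPq_sound h2_o17c _ (by decide +kernel)
noncomputable def h2_o18c : Pq := (Pq.cons (Pq.L [0] 0 (Pf.W 43 0 [] [1] (Pf.cons (Pf.B 2 1 (Pf.W 31 2 [0] [1] (Pf.cons (Pf.B 3 0 (Pf.B 3 1 (Pf.T 3 4 (Pf.cons (Pf.W 60 0 [] [1,3] (Pf.cons (Pf.T 4 7 (Pf.cons (Pf.W 60 0 [4] [1,3] (Pf.cons (Pf.B 5 4 (Pf.C 7 517) (Pf.C 1 517)) (Pf.cons (Pf.B 5 1 (Pf.C 11 133) (Pf.B 5 3 (Pf.T 5 8 (Pf.cons (Pf.W 60 0 [4,5] [3] (Pf.cons (Pf.B 6 4 (Pf.C 7 518) (Pf.C 1 518)) (Pf.cons (Pf.B 6 5 (Pf.C 11 646) (Pf.C 48 646)) (Pf.cons (Pf.B 6 5 (Pf.B 6 3 (Pf.C 11 49798) (Pf.C 32 390)) (Pf.C 12 646)) Pf.nil)))) Pf.nil)) (Pf.C 12 49285))) (Pf.cons (Pf.B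 5 3 (Pf.B 5 1 (Pf.C 11 49285) (Pf.C 12 133)) (Pf.C 32 389)) Pf.nil)))) Pf.nil)) (Pf.cons (Pf.B 4 1 (Pf.C 11 132) (Pf.B 4 3 (Pf.T 4 8 (Pf.cons (Pf.W 60 0 [4] [3] (Pf.cons (Pf.T 5 7 (Pf.cons (Pf.W 60 0 [4,5] [3] (Pf.cons (Pf.B 6 5 (Pf.C 7 646) (Pf.C 1 646)) (Pf.cons (Pf.B 6 4 (Pf.C 11 518) (Pf.C 48 518)) (Pf.cons (Pf.B 6 4 (Pf.B 6 3 (Pf.C 11 49670) (Pf.C 32 390)) (Pf.C 12 518)) Pf.nil)))) Pf.nil)) (Pf.cons (Pf.B 5 4 (Pf.C 11 517) (Pf.C 48 517)) (Pf.cons (Pf.B 5 4 (Pf.B 5 3 (Pf.C 11 49669) (Pf.C 32 389)) (Pf.C 12 517)) Pf.nil)))) Pf.nil)) (Pf.C 12 49284))) (Pf.cons (Pf.B 4 3 (Pf.B 4 1 (Pf.C 11 49284) (Pf.C 12 132)) (Pf.C 32 388)) Pf.nil)))) (Pf.cons (Pf.C 44 259) Pf.nil))) (Pf.W 52 1 [] [0,2,3] (Pf.cons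 (Pf.B 4 3 (Pf.C 5 388) (Pf.C 8 16772)) (Pf.cons (Pf.B 4 3 (Pf.C 12 49665) (Pf.B 4 2 (Pf.C 24 0x404203) (Pf.B 4 0 (Pf.C 12 514) (Pf.C 12 132)))) (Pf.cons (Pf.T 3 10 (Pf.cons (Pf.W 60 0 [] [1,2,3] (Pf.cons (Pf.T 4 7 (Pf.cons (Pf.W 60 0 [4] [1,2,3] (Pf.cons (Pf.B 5 4 (Pf.C 7 517) (Pf.C 1 517)) (Pf.cons (Pf.B 5 2 (Pf.B 5 1 (Pf.C 11 133) (Pf.B 5 3 (Pf.C 12 49793) (Pf.C 24 0x404283))) (Pf.C 12 642)) (Pf.cons (Pf.B 5 4 (Pf.C 3 644) (Pf.B 5 3 (Pf.T 5 9 (Pf.cons (Pf.W 60 0 [4,5] [1,2,3] (Pf.cons (Pf.B 6 4 (Pf.C 7 518) (Pf.C 1 518)) (Pf.cons (Pf.B 6 5 (Pf.B 6 3 (Pf.C 11 49798) (Pf.B 6 2 (Pf.B 6 1 (Pf.C 11 134) (Pf.C 24 0x404303)) (Pf.C 12 770))) (Pf.C 12 773)) (Pf.cons (Pf.B 6 4 (Pf.C 3 772) (Pf.B 6 5 (Pf.B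 6 3 (Pf.C 11 49798) (Pf.C 32 390)) (Pf.C 25 82692))) Pf.nil)))) Pf.nil)) (Pf.C 32 389))) Pf.nil)))) Pf.nil)) (Pf.cons (Pf.B 4 2 (Pf.B 4 1 (Pf.C 11 132) (Pf.B 4 3 (Pf.C 12 49665) (Pf.C 24 0x404203))) (Pf.C 12 514)) (Pf.cons (Pf.B 4 3 (Pf.B 4 2 (Pf.T 4 9 (Pf.cons (Pf.W 60 0 [4] [1,2,3] (Pf.cons (Pf.B 5 4 (Pf.C 3 517) (Pf.T 5 7 (Pf.cons (Pf.W 60 0 [4,5] [1,2,3] (Pf.cons (Pf.B 6 5 (Pf.C 7 646) (Pf.C 1 646)) (Pf.cons (Pf.B 6 4 (Pf.B 6 3 (Pf.C 11 49670) (Pf.B 6 2 (Pf.B 6 1 (Pf.C 11 134) (Pf.C 24 0x404303)) (Pf.C 12 770))) (Pf.C 12 772)) (Pf.cons (Pf.B 6 5 (Pf.C 3 773) (Pf.B 6 4 (Pf.B 6 3 (Pf.C 11 49670) (Pf.C 32 390)) (Pf.C 25 66309))) Pf.nil)))) Pf.nil))) (Pf.cons (Pf.B 5 4 (Pf.B 5 3 (Pf.C 11 49669) (Pf.B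 5 2 (Pf.B 5 1 (Pf.C 11 133) (Pf.C 24 0x404283)) (Pf.C 12 642))) (Pf.C 12 644)) (Pf.cons (Pf.B 5 3 (Pf.B 5 4 (Pf.C 11 49669) (Pf.B 5 2 (Pf.C 24 0x410280) (Pf.C 12 49794))) (Pf.C 32 389)) Pf.nil)))) Pf.nil)) (Pf.C 12 49666)) (Pf.C 32 388)) Pf.nil)))) (Pf.cons (Pf.W 60 0 [] [1,2,3] (Pf.cons (Pf.T 4 7 (Pf.cons (Pf.W 60 0 [4] [1,2,3] (Pf.cons (Pf.B 5 4 (Pf.C 7 517) (Pf.C 1 517)) (Pf.cons (Pf.B 5 2 (Pf.B 5 1 (Pf.C 11 133) (Pf.B 5 3 (Pf.C 12 49793) (Pf.C 24 0x404283))) (Pf.C 12 642)) (Pf.cons (Pf.B 5 4 (Pf.C 3 644) (Pf.B 5 3 (Pf.T 5 9 (Pf.cons (Pf.W 60 0 [4,5] [1,2,3] (Pf.cons (Pf.B 6 4 (Pf.C 7 518) (Pf.C 1 518)) (Pf.cons (Pf.B 6 5 (Pf.B 6 3 (Pf.C 11 49798) (Pf.B 6 2 (Pf.B 6 1 (Pf.C 11 134) (Pf.C 24 0x404303))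 (Pf.C 12 770))) (Pf.C 12 773)) (Pf.cons (Pf.B 6 4 (Pf.C 3 772) (Pf.B 6 5 (Pf.B 6 3 (Pf.C 11 49798) (Pf.C 32 390)) (Pf.C 25 82692))) Pf.nil)))) Pf.nil)) (Pf.C 32 389))) Pf.nil)))) Pf.nil)) (Pf.cons (Pf.B 4 2 (Pf.B 4 1 (Pf.C 11 132) (Pf.B 4 3 (Pf.C 12 49665) (Pf.C 24 0x404203))) (Pf.C 12 514)) (Pf.cons (Pf.B 4 3 (Pf.B 4 2 (Pf.T 4 9 (Pf.cons (Pf.W 60 0 [4] [1,2,3] (Pf.cons (Pf.B 5 4 (Pf.C 3 517) (Pf.T 5 7 (Pf.cons (Pf.W 60 0 [4,5] [1,2,3] (Pf.cons (Pf.B 6 5 (Pf.C 7 646) (Pf.C 1 646)) (Pf.cons (Pf.B 6 4 (Pf.B 6 3 (Pf.C 11 49670) (Pf.B 6 2 (Pf.B 6 1 (Pf.C 11 134) (Pf.C 24 0x404303)) (Pf.C 12 770))) (Pf.C 12 772)) (Pf.cons (Pf.B 6 5 (Pf.C 3 773) (Pf.B 6 4 (Pf.B 6 3 (Pf.C 11 49670) (Pf.C 32 390)) (Pf.C 25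 66309))) Pf.nil)))) Pf.nil))) (Pf.cons (Pf.B 5 4 (Pf.B 5 3 (Pf.C 11 49669) (Pf.B 5 2 (Pf.B 5 1 (Pf.C 11 133) (Pf.C 24 0x404283)) (Pf.C 12 642))) (Pf.C 12 644)) (Pf.cons (Pf.B 5 3 (Pf.B 5 4 (Pf.C 11 49669) (Pf.B 5 2 (Pf.C 24 0x410280) (Pf.C 12 49794))) (Pf.C 32 389)) Pf.nil)))) Pf.nil)) (Pf.C 12 49666)) (Pf.C 32 388)) Pf.nil)))) Pf.nil))) (Pf.cons (Pf.C 32 49665) (Pf.cons (Pf.C 44 259) (Pf.cons (Pf.C 32 49665) Pf.nil)))))))) (Pf.C 4 3)) Pf.nil)) (Pf.C 12 130)) Pf.nil)))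
 Pq.nil)
theorem h2_o18 : AllRef h2_T h2_G34 (ptObl 57 (PT.br 0 PT.ref PT.kid) []) :=
  chkPq_sound h2_o18c _ (by decide +kernel)
noncomputable def h2_o19c : Pq := Pq.nil
theorem h2_o19 : AllRef h2_T h2_G35 (ptObl 58 PT.kid []) :=
  chkPq_sound h2_o19c _ (by decide +kernel)
noncomputable def h2_o20c : Pq := (Pq.cons (Pq.L [0] 0 (Pf.C 4 1))
 Pq.nil)
theorem h2_o20 : AllRef h2_T h2_G36 (ptObl 70 (PT.br 0 PT.kid PT.ref) []) :=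
  chkPq_sound h2_o20c _ (by decide +kernel)
noncomputable def h2_o21c : Pq := (Pq.cons (Pq.L [0] 0 (Pf.C 4 1))
 Pq.nil)
theorem h2_o21 : AllRef h2_T h2_G37 (ptObl 59 (PT.br 0 PT.kid PT.ref) []) :=
  chkPq_sound h2_o21c _ (by decide +kernel)
noncomputable def h2_o22c : Pq := (Pq.cons (Pq.L [0] 0 (Pf.C 4 1))
 Pq.nil)
theorem h2_o22 : AllRef h2_T h2_G38 (ptObl 61 (PT.br 0 PT.kid PT.ref) []) :=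
  chkPq_sound h2_o22c _ (by decide +kernel)
noncomputable def h2_o23c : Pq := (Pq.cons (Pq.L [0] 0 (Pf.W 50 1 [] [0] (Pf.cons (Pf.B 2 0 (Pf.T 2 9 (Pf.cons (Pf.T 2 15 Pf.nil) Pf.nil)) (Pf.C 8 32896)) Pf.nil)))
 (Pq.cons (Pq.L [0] 0 (Pf.W 43 0 [] [1] (Pf.cons (Pf.B 2 1 (Pf.W 60 0 [] [1,2] (Pf.cons (Pf.B 3 2 (Pf.C 3 259) (Pf.T 3 7 (Pf.cons (Pf.T 3 13 (Pf.cons (Pf.W 60 0 [3] [1,2] (Pf.cons (Pf.B 4 3 (Pf.C 7 388) (Pf.C 1 388)) (Pf.cons (Pf.T 4 8 (Pf.cons (Pf.T 4 14 (Pf.cons (Pf.W 60 0 [3,4] [1,2] (Pf.cons (Pf.B 5 3 (Pf.C 7 389) (Pf.C 1 389)) (Pf.cons (Pf.B 5 4 (Pf.C 11 517) (Pf.C 48 517)) (Pf.cons (Pf.B 5 3 (Pf.C 3 643) (Pf.B 5 2 (Pf.B 5 1 (Pf.C 11 16645) (Pf.C 32 133)) (Pf.C 25 33411))) Pf.nil)))) Pf.nil))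 Pf.nil)) (Pf.cons (Pf.B 4 3 (Pf.C 3 515) (Pf.B 4 2 (Pf.B 4 1 (Pf.C 11 16644) (Pf.C 32 132)) (Pf.C 25 33283))) Pf.nil)))) Pf.nil)) Pf.nil))) (Pf.cons (Pf.T 3 8 (Pf.cons (Pf.T 3 14 (Pf.cons (Pf.W 60 0 [3] [1,2] (Pf.cons (Pf.B 4 2 (Pf.C 3 260) (Pf.T 4 7 (Pf.cons (Pf.T 4 13 (Pf.cons (Pf.W 60 0 [3,4] [1,2] (Pf.cons (Pf.B 5 4 (Pf.C 7 517) (Pf.C 1 517)) (Pf.cons (Pf.B 5 3 (Pf.C 11 389) (Pf.C 48 389)) (Pf.cons (Pf.B 5 4 (Pf.C 3 644) (Pf.B 5 2 (Pf.B 5 1 (Pf.C 11 16645) (Pf.C 32 133)) (Pf.C 25 33412))) Pf.nil)))) Pf.nil)) Pf.nil))) (Pf.cons (Pf.B 4 3 (Pf.C 11 388) (Pf.C 48 388)) (Pf.cons (Pf.B 4 1 (Pf.B 4 2 (Pf.C 11 16644) (Pf.T 4 9 (Pf.cons (Pf.T 4 15 (Pf.cons (Pf.W 31 2 [0] [4] (Pf.cons (Pf.B 5 4 (Pf.C 12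 82434) (Pf.C 32 644)) Pf.nil)) Pf.nil)) Pf.nil))) (Pf.C 32 132)) Pf.nil)))) Pf.nil)) Pf.nil)) (Pf.cons (Pf.B 3 1 (Pf.B 3 2 (Pf.C 11 16643) (Pf.T 3 9 (Pf.cons (Pf.T 3 15 (Pf.cons (Pf.W 31 2 [0] [3] (Pf.cons (Pf.B 4 3 (Pf.C 12 65922) (Pf.C 32 515)) Pf.nil)) Pf.nil)) Pf.nil))) (Pf.C 32 131)) Pf.nil)))) (Pf.W 60 0 [] [1,2] (Pf.cons (Pf.B 3 2 (Pf.C 3 259) (Pf.B 3 1 (Pf.C 10 131) (Pf.T 3 7 (Pf.cons (Pf.T 3 13 (Pf.cons (Pf.W 60 0 [3] [1,2] (Pf.cons (Pf.B 4 3 (Pf.C 7 388) (Pf.C 1 388)) (Pf.cons (Pf.B 4 2 (Pf.B 4 1 (Pf.T 4 8 (Pf.cons (Pf.T 4 14 (Pf.cons (Pf.W 60 0 [3,4] [1] (Pf.cons (Pf.B 5 3 (Pf.C 7 389) (Pf.C 1 389)) (Pf.cons (Pf.B 5 4 (Pf.C 11 517) (Pf.C 48 517)) (Pf.cons (Pf.B 5 4 (Pf.B 5 1 (Pf.C 11 16901)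 (Pf.C 32 133)) (Pf.C 12 517)) Pf.nil)))) Pf.nil)) Pf.nil)) (Pf.T 4 8 (Pf.cons (Pf.T 4 14 (Pf.cons (Pf.W 60 0 [3,4] [1,2] (Pf.cons (Pf.B 5 3 (Pf.C 7 389) (Pf.C 1 389)) (Pf.cons (Pf.B 5 4 (Pf.C 11 517) (Pf.C 48 517)) (Pf.cons (Pf.B 5 3 (Pf.C 3 643) (Pf.B 5 2 (Pf.B 5 1 (Pf.T 5 9 (Pf.cons (Pf.T 5 15 (Pf.cons (Pf.W 60 1 [] [0,2,3,4,5] (Pf.cons (Pf.B 6 4 (Pf.C 3 518) (Pf.B 6 3 (Pf.B 6 0 (Pf.C 7 390) (Pf.T 6 7 (Pf.cons (Pf.T 6 13 (Pf.cons (Pf.W 60 1 [6] [0,2,4,5] (Pf.cons (Pf.B 7 6 (Pf.C 7 17159) (Pf.C 1 775)) (Pf.cons (Pf.B 7 5 (Pf.C 11 17031) (Pf.B 7 4 (Pf.B 7 2 (Pf.B 7 0 (Pf.C 11 519) (Pf.C 24 0x414380)) (Pf.C 12 17282)) (Pf.C 48 519))) (Pf.cons (Pf.B 7 6 (Pf.C 3 902) (Pf.B 7 4 (Pf.B 7 0 (Pf.C 11 519)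 (Pf.C 32 16391)) (Pf.C 25 0x210386))) Pf.nil)))) Pf.nil)) Pf.nil))) (Pf.C 1 390))) (Pf.cons (Pf.B 6 5 (Pf.C 11 17030) (Pf.B 6 4 (Pf.B 6 2 (Pf.B 6 0 (Pf.C 11 518) (Pf.C 24 0x414300)) (Pf.C 12 17154)) (Pf.C 48 518))) (Pf.cons (Pf.B 6 0 (Pf.B 6 4 (Pf.C 11 518) (Pf.B 6 2 (Pf.C 24 0x410301) (Pf.C 12 770))) (Pf.C 32 16390)) Pf.nil)))) Pf.nil)) Pf.nil)) (Pf.C 32 133)) (Pf.C 25 33411))) Pf.nil)))) Pf.nil)) Pf.nil))) (Pf.C 12 514)) (Pf.cons (Pf.B 4 3 (Pf.C 3 515) (Pf.B 4 2 (Pf.B 4 1 (Pf.T 4 9 (Pf.cons (Pf.T 4 15 (Pf.cons (Pf.W 60 0 [3,4] [1,2] (Pf.cons (Pf.B 5 3 (Pf.C 7 389) (Pf.C 1 389)) (Pf.cons (Pf.B 5 4 (Pf.B 5 2 (Pf.B 5 1 (Pf.C 11 16901) (Pf.T 5 8 (Pf.cons (Pf.T 5 14 (Pf.cons (Pf.W 60 1 [] [0,2,3,4,5]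 (Pf.cons (Pf.B 6 5 (Pf.C 3 646) (Pf.B 6 3 (Pf.B 6 0 (Pf.C 7 390) (Pf.T 6 7 (Pf.cons (Pf.T 6 13 (Pf.cons (Pf.W 60 1 [6] [0,2,4,5] (Pf.cons (Pf.B 7 6 (Pf.C 7 17159) (Pf.C 1 775)) (Pf.cons (Pf.B 7 5 (Pf.B 7 4 (Pf.C 11 16903) (Pf.B 7 2 (Pf.B 7 0 (Pf.C 11 647) (Pf.C 24 0x410380)) (Pf.C 12 17282))) (Pf.C 48 647)) (Pf.cons (Pf.B 7 6 (Pf.C 3 902) (Pf.B 7 5 (Pf.B 7 0 (Pf.C 11 647) (Pf.C 32 16391)) (Pf.C 25 0x214386))) Pf.nil)))) Pf.nil)) Pf.nil))) (Pf.C 1 390))) (Pf.cons (Pf.B 6 5 (Pf.B 6 4 (Pf.C 11 16902) (Pf.B 6 2 (Pf.B 6 0 (Pf.C 11 646) (Pf.C 24 0x410300)) (Pf.C 12 17154))) (Pf.C 48 646)) (Pf.cons (Pf.B 6 0 (Pf.B 6 5 (Pf.C 11 646) (Pf.B 6 2 (Pf.C 24 0x414301) (Pf.C 12 770))) (Pf.C 32 16390)) Pf.nil))))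 Pf.nil)) Pf.nil))) (Pf.C 12 642)) (Pf.C 12 644)) (Pf.cons (Pf.B 5 3 (Pf.C 3 643) (Pf.B 5 4 (Pf.B 5 1 (Pf.C 11 16901) (Pf.C 32 133)) (Pf.C 25 66179))) Pf.nil)))) Pf.nil)) Pf.nil)) (Pf.C 32 132)) (Pf.C 25 33283))) Pf.nil)))) Pf.nil)) Pf.nil)))) (Pf.cons (Pf.B 3 2 (Pf.B 3 1 (Pf.T 3 8 (Pf.cons (Pf.T 3 14 (Pf.cons (Pf.W 60 0 [3] [1] (Pf.cons (Pf.T 4 7 (Pf.cons (Pf.T 4 13 (Pf.cons (Pf.W 60 0 [3,4] [1] (Pf.cons (Pf.B 5 4 (Pf.C 7 517) (Pf.C 1 517)) (Pf.cons (Pf.B 5 3 (Pf.C 11 389) (Pf.C 48 389)) (Pf.cons (Pf.B 5 3 (Pf.B 5 1 (Pf.C 11 16773) (Pf.C 32 133)) (Pf.C 12 389)) Pf.nil)))) Pf.nil)) Pf.nil)) (Pf.cons (Pf.B 4 3 (Pf.C 11 388) (Pf.C 48 388)) (Pf.cons (Pf.B 4 3 (Pf.B 4 1 (Pf.C 11 16772) (Pf.C 32 132)) (Pf.C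 12 388)) Pf.nil)))) Pf.nil)) Pf.nil)) (Pf.T 3 8 (Pf.cons (Pf.T 3 14 (Pf.cons (Pf.W 60 0 [3] [1,2] (Pf.cons (Pf.B 4 2 (Pf.C 3 260) (Pf.B 4 1 (Pf.C 10 132) (Pf.T 4 7 (Pf.cons (Pf.T 4 13 (Pf.cons (Pf.W 60 0 [3,4] [1,2] (Pf.cons (Pf.B 5 4 (Pf.C 7 517) (Pf.C 1 517)) (Pf.cons (Pf.B 5 3 (Pf.C 11 389) (Pf.C 48 389)) (Pf.cons (Pf.B 5 4 (Pf.C 3 644) (Pf.B 5 2 (Pf.B 5 1 (Pf.T 5 9 (Pf.cons (Pf.T 5 15 (Pf.cons (Pf.W 60 1 [] [0,2,3,4,5] (Pf.cons (Pf.B 6 4 (Pf.B 6 3 (Pf.C 3 390) (Pf.B 6 0 (Pf.C 7 518) (Pf.T 6 7 (Pf.cons (Pf.T 6 13 (Pf.cons (Pf.W 60 1 [6] [0,2,3,5] (Pf.cons (Pf.B 7 6 (Pf.C 7 17159) (Pf.C 1 775)) (Pf.cons (Pf.B 7 5 (Pf.C 11 17031) (Pf.B 7 3 (Pf.B 7 2 (Pf.B 7 0 (Pf.C 11 391) (Pf.C 24 0x414380)) (Pf.C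 12 17282)) (Pf.C 48 391))) (Pf.cons (Pf.B 7 6 (Pf.C 3 902) (Pf.B 7 3 (Pf.B 7 0 (Pf.C 11 391) (Pf.C 32 16391)) (Pf.C 25 0x20c386))) Pf.nil)))) Pf.nil)) Pf.nil)))) (Pf.C 1 518)) (Pf.cons (Pf.B 6 5 (Pf.C 11 17030) (Pf.B 6 3 (Pf.B 6 2 (Pf.B 6 0 (Pf.C 11 390) (Pf.C 24 0x414300)) (Pf.C 12 17154)) (Pf.C 48 390))) (Pf.cons (Pf.B 6 0 (Pf.B 6 3 (Pf.C 11 390) (Pf.B 6 2 (Pf.C 24 0x40c301) (Pf.C 12 770))) (Pf.C 32 16390)) Pf.nil)))) Pf.nil)) Pf.nil)) (Pf.C 32 133)) (Pf.C 25 33412))) Pf.nil)))) Pf.nil)) Pf.nil)))) (Pf.cons (Pf.B 4 3 (Pf.C 11 388) (Pf.C 48 388)) (Pf.cons (Pf.B 4 1 (Pf.B 4 2 (Pf.T 4 9 (Pf.cons (Pf.T 4 15 (Pf.cons (Pf.W 60 0 [3,4] [1,2] (Pf.cons (Pf.B 5 1 (Pf.C 10 133) (Pf.T 5 7 (Pf.cons (Pf.T 5 13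 (Pf.cons (Pf.W 60 1 [] [0,2,3,4,5] (Pf.cons (Pf.B 6 5 (Pf.B 6 3 (Pf.C 3 390) (Pf.B 6 0 (Pf.C 7 646) (Pf.T 6 7 (Pf.cons (Pf.T 6 13 (Pf.cons (Pf.W 60 1 [6] [0,2,3,4] (Pf.cons (Pf.B 7 6 (Pf.C 7 17159) (Pf.C 1 775)) (Pf.cons (Pf.B 7 4 (Pf.C 11 16903) (Pf.B 7 3 (Pf.B 7 2 (Pf.B 7 0 (Pf.C 11 391) (Pf.C 24 0x410380)) (Pf.C 12 17282)) (Pf.C 48 391))) (Pf.cons (Pf.B 7 6 (Pf.C 3 902) (Pf.B 7 3 (Pf.B 7 0 (Pf.C 11 391) (Pf.C 32 16391)) (Pf.C 25 0x20c386))) Pf.nil)))) Pf.nil)) Pf.nil)))) (Pf.C 1 646)) (Pf.cons (Pf.B 6 4 (Pf.C 11 16902) (Pf.B 6 3 (Pf.B 6 2 (Pf.B 6 0 (Pf.C 11 390) (Pf.C 24 0x410300)) (Pf.C 12 17154)) (Pf.C 48 390))) (Pf.cons (Pf.B 6 0 (Pf.B 6 3 (Pf.C 11 390) (Pf.B 6 2 (Pf.C 24 0x40c301) (Pf.C 12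 770))) (Pf.C 32 16390)) Pf.nil)))) Pf.nil)) Pf.nil))) (Pf.cons (Pf.B 5 3 (Pf.C 11 389) (Pf.C 48 389)) (Pf.cons (Pf.B 5 1 (Pf.B 5 4 (Pf.C 11 16901) (Pf.B 5 2 (Pf.C 24 0x410280) (Pf.C 12 17026))) (Pf.C 32 133)) Pf.nil)))) Pf.nil)) Pf.nil)) (Pf.C 12 16898)) (Pf.C 32 132)) Pf.nil)))) Pf.nil)) Pf.nil))) (Pf.C 12 386)) (Pf.cons (Pf.B 3 1 (Pf.B 3 2 (Pf.T 3 9 (Pf.cons (Pf.T 3 15 (Pf.cons (Pf.W 60 0 [3] [1,2] (Pf.cons (Pf.B 4 3 (Pf.C 3 388) (Pf.B 4 1 (Pf.C 10 132) (Pf.T 4 7 (Pf.cons (Pf.T 4 13 (Pf.cons (Pf.W 60 0 [3,4] [1,2] (Pf.cons (Pf.B 5 4 (Pf.C 7 517) (Pf.C 1 517)) (Pf.cons (Pf.B 5 3 (Pf.B 5 2 (Pf.B 5 1 (Pf.C 11 16773) (Pf.T 5 8 (Pf.cons (Pf.T 5 14 (Pf.cons (Pf.W 60 1 [] [0,2,3,4,5] (Pf.cons (Pf.B 6 5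 (Pf.C 3 646) (Pf.B 6 4 (Pf.B 6 0 (Pf.C 7 518) (Pf.T 6 7 (Pf.cons (Pf.T 6 13 (Pf.cons (Pf.W 60 1 [6] [0,2,3,5] (Pf.cons (Pf.B 7 6 (Pf.C 7 17159) (Pf.C 1 775)) (Pf.cons (Pf.B 7 5 (Pf.B 7 3 (Pf.C 11 16775) (Pf.B 7 2 (Pf.B 7 0 (Pf.C 11 647) (Pf.C 24 0x40c380)) (Pf.C 12 17282))) (Pf.C 48 647)) (Pf.cons (Pf.B 7 6 (Pf.C 3 902) (Pf.B 7 5 (Pf.B 7 0 (Pf.C 11 647) (Pf.C 32 16391)) (Pf.C 25 0x214386))) Pf.nil)))) Pf.nil)) Pf.nil))) (Pf.C 1 518))) (Pf.cons (Pf.B 6 5 (Pf.B 6 3 (Pf.C 11 16774) (Pf.B 6 2 (Pf.B 6 0 (Pf.C 11 646) (Pf.C 24 0x40c300)) (Pf.C 12 17154))) (Pf.C 48 646)) (Pf.cons (Pf.B 6 0 (Pf.B 6 5 (Pf.C 11 646) (Pf.B 6 2 (Pf.C 24 0x414301) (Pf.C 12 770))) (Pf.C 32 16390)) Pf.nil)))) Pf.nil)) Pf.nil)))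 (Pf.C 12 642)) (Pf.C 12 643)) (Pf.cons (Pf.B 5 4 (Pf.C 3 644) (Pf.B 5 3 (Pf.B 5 1 (Pf.C 11 16773) (Pf.C 32 133)) (Pf.C 25 49796))) Pf.nil)))) Pf.nil)) Pf.nil)))) (Pf.cons (Pf.B 4 3 (Pf.B 4 2 (Pf.B 4 1 (Pf.C 11 16772) (Pf.T 4 8 (Pf.cons (Pf.T 4 14 (Pf.cons (Pf.W 60 0 [3,4] [1,2] (Pf.cons (Pf.B 5 1 (Pf.C 10 133) (Pf.T 5 7 (Pf.cons (Pf.T 5 13 (Pf.cons (Pf.W 60 1 [] [0,2,3,4,5] (Pf.cons (Pf.B 6 5 (Pf.B 6 4 (Pf.C 3 518) (Pf.B 6 0 (Pf.C 7 646) (Pf.T 6 7 (Pf.cons (Pf.T 6 13 (Pf.cons (Pf.W 60 1 [6] [0,2,3,4] (Pf.cons (Pf.B 7 6 (Pf.C 7 17159) (Pf.C 1 775)) (Pf.cons (Pf.B 7 4 (Pf.B 7 3 (Pf.C 11 16775) (Pf.B 7 2 (Pf.B 7 0 (Pf.C 11 519) (Pf.C 24 0x40c380)) (Pf.C 12 17282))) (Pf.C 48 519)) (Pf.cons (Pf.B 7 6 (Pf.C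 3 902) (Pf.B 7 4 (Pf.B 7 0 (Pf.C 11 519) (Pf.C 32 16391)) (Pf.C 25 0x210386))) Pf.nil)))) Pf.nil)) Pf.nil)))) (Pf.C 1 646)) (Pf.cons (Pf.B 6 4 (Pf.B 6 3 (Pf.C 11 16774) (Pf.B 6 2 (Pf.B 6 0 (Pf.C 11 518) (Pf.C 24 0x40c300)) (Pf.C 12 17154))) (Pf.C 48 518)) (Pf.cons (Pf.B 6 0 (Pf.B 6 4 (Pf.C 11 518) (Pf.B 6 2 (Pf.C 24 0x410301) (Pf.C 12 770))) (Pf.C 32 16390)) Pf.nil)))) Pf.nil)) Pf.nil))) (Pf.cons (Pf.B 5 4 (Pf.C 11 517) (Pf.C 48 517)) (Pf.cons (Pf.B 5 1 (Pf.B 5 3 (Pf.C 11 16773) (Pf.B 5 2 (Pf.C 24 0x40c280) (Pf.C 12 17026))) (Pf.C 32 133)) Pf.nil)))) Pf.nil)) Pf.nil))) (Pf.C 12 514)) (Pf.C 12 515)) (Pf.cons (Pf.B 4 1 (Pf.B 4 3 (Pf.C 11 16772) (Pf.B 4 2 (Pf.C 24 0x40c200) (Pf.C 12 16898))) (Pf.C 32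 132)) Pf.nil)))) Pf.nil)) Pf.nil)) (Pf.C 12 16770)) (Pf.C 32 131)) Pf.nil))))) Pf.nil)))
 (Pq.cons (Pq.L [0] 0 (Pf.W 43 0 [] [1] (Pf.cons (Pf.B 2 1 (Pf.W 60 0 [] [1,2] (Pf.cons (Pf.B 3 2 (Pf.C 3 259) (Pf.T 3 7 (Pf.cons (Pf.T 3 13 (Pf.cons (Pf.W 60 0 [3] [1,2] (Pf.cons (Pf.B 4 3 (Pf.C 7 388) (Pf.C 1 388)) (Pf.cons (Pf.B 4 2 (Pf.B 4 1 (Pf.C 11 16644) (Pf.C 44 513)) (Pf.C 12 514)) (Pf.cons (Pf.B 4 3 (Pf.C 3 515) (Pf.B 4 2 (Pf.B 4 1 (Pf.C 11 16644) (Pf.C 32 132)) (Pf.C 25 33283))) Pf.nil)))) Pf.nil)) Pf.nil))) (Pf.cons (Pf.B 3 2 (Pf.B 3 1 (Pf.C 11 16643) (Pf.C 44 385)) (Pf.C 12 386)) (Pf.cons (Pf.B 3 1 (Pf.B 3 2 (Pf.C 11 16643) (Pf.T 3 9 (Pf.cons (Pf.T 3 15 (Pf.cons (Pf.W 31 2 [0] [3] (Pf.cons (Pf.B 4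 3 (Pf.C 12 65922) (Pf.C 32 515)) Pf.nil)) Pf.nil)) Pf.nil))) (Pf.C 32 131)) Pf.nil)))) (Pf.C 44 257)) Pf.nil)))
 Pq.nil)))
theorem h2_o23 : AllRef h2_T h2_G39 (List.map pat1 [65,71,73]) :=
  chkPq_sound h2_o23c _ (by decide +kernel)
noncomputable def h2_o24c : Pq := (Pq.cons (Pq.L [] 0 (Pf.X 0 1))
 (Pq.cons (Pq.L [] 1 (Pf.C 1 257))
 (Pq.cons (Pq.L [] 1 (Pf.C 3 130))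
 (Pq.cons (Pq.L [] 1 (Pf.C 3 130))
 (Pq.cons (Pq.L [] 0 (Pf.X 0 1))
 (Pq.cons (Pq.L [0] 1 (Pf.C 10 32769))
 (Pq.cons (Pq.L [0] 1 (Pf.W 31 1 [] [0,2] (Pf.cons (Pf.B 3 2 (Pf.B 3 0 (Pf.T 3 4 (Pf.cons (Pf.W 31 1 [3] [0,2] (Pf.cons (Pf.B 4 3 (Pf.B 4 2 (Pf.B 4 0 (Pf.C 0 0x30210100) (Pf.C 4 4)) (Pf.C 4 260)) (Pf.C 4 388)) Pf.nil)) (Pf.cons (Pf.C 44 131) Pf.nil))) (Pf.C 4 3)) (Pf.C 4 259)) Pf.nil)))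
 (Pq.cons (Pq.L [0] 1 (Pf.C 32 32769))
 Pq.nil))))))))
theorem h2_o24 : AllRef h2_T h2_G40 (closeObl (h2_T.sc.get 0) false [66,67,68,69,72] [1,1,2,3,4] [0] [4] 13) :=
  chkPq_sound h2_o24c _ (by decide +kernel)
noncomputable def h2_o25c : Pq := (Pq.cons (Pq.L [0] 0 (Pf.B 2 1 (Pf.C 7 130) (Pf.C 1 130)))
 (Pq.cons (Pq.L [0] 0 (Pf.B 2 1 (Pf.C 11 130) (Pf.C 48 130)))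
 (Pq.cons (Pq.L [0] 0 (Pf.B 3 2 (Pf.B 3 1 (Pf.B 2 1 (Pf.W 46 257 [] [0] (Pf.cons (Pf.B 4 0 (Pf.C 5 4) (Pf.C 8 16388)) (Pf.cons (Pf.B 4 0 (Pf.C 5 4) (Pf.C 8 32772)) (Pf.cons (Pf.B 4 0 (Pf.C 12 513) (Pf.C 24 0x404200)) (Pf.cons (Pf.B 4 0 (Pf.C 12 514) (Pf.C 24 0x208200)) (Pf.cons (Pf.C 32 513) (Pf.cons (Pf.C 32 514) (Pf.cons (Pf.C 32 513) (Pf.cons (Pf.C 32 514) Pf.nil))))))))) (Pf.C 24 0x604100)) (Pf.B 2 1 (Pf.C 24 0x40c080) (Pf.C 59 0x600101))) (Pf.B 3 1 (Pf.B 2 1 (Pf.C 24 0x20c100) (Pf.C 59 0x600082)) (Pf.C 59 0x400083))))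
 Pq.nil)))
theorem h2_o25 : AllRef h2_T h2_G41 (hitObl [66,68,69] h2_h48) :=
  chkPq_sound h2_o25c _ (by decide +kernel)
noncomputable def h2_o26c : Pq := (Pq.cons (Pq.L [] 0 (Pf.C 71 1))
 (Pq.cons (Pq.L [] 0 (Pf.C 72 1))
 (Pq.cons (Pq.L [] 0 (Pf.C 73 1))
 Pq.nil)))
theorem h2_o26 : AllRef h2_T h2_G42 (List.map pat1 [74,75,76]) :=
  chkPq_sound h2_o26c _ (by decide +kernel)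
noncomputable def h2_o27c : Pq := Pq.nil
theorem h2_o27 : AllRef h2_T h2_G26 (ptObl 51 (PT.br 0 PT.kid PT.kid) []) :=
  chkPq_sound h2_o27c _ (by decide +kernel)
noncomputable def h2_o28c : Pq := (Pq.cons (Pq.L [0] 0 (Pf.C 3 1))
 Pq.nil)
theorem h2_o28 : AllRef h2_T h2_G44 (ptObl 53 (PT.br 0 PT.ref PT.kid) []) :=
  chkPq_sound h2_o28c _ (by decide +kernel)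
noncomputable def h2_o29c : Pq := (Pq.cons (Pq.L [0] 0 (Pf.W 31 1 [] [0] (Pf.cons (Pf.B 2 0 (Pf.C 12 32769) (Pf.T 2 4 (Pf.cons (Pf.W 31 1 [2] [0] (Pf.cons (Pf.B 3 0 (Pf.C 12 49153) (Pf.C 32 33152)) Pf.nil)) (Pf.cons (Pf.C 44 130) Pf.nil)))) Pf.nil)))
 Pq.nil)
theorem h2_o29 : AllRef h2_T h2_G45 (ptObl 55 (PT.br 0 PT.kid PT.ref) []) :=
  chkPq_sound h2_o29c _ (by decide +kernel)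
noncomputable def h2_o30c : Pq := Pq.nil
theorem h2_o30 : AllRef h2_T h2_G46 (ptObl 56 PT.kid []) :=
  chkPq_sound h2_o30c _ (by decide +kernel)
noncomputable def h2_o31c : Pq := Pq.nil
theorem h2_o31 : AllRef h2_T h2_G47 (ptObl 81 (PT.br 0 PT.kid PT.kid) []) :=
  chkPq_sound h2_o31c _ (by decide +kernel)
noncomputable def h2_o32c : Pq := Pq.nil
theorem h2_o32 : AllRef h2_T h2_G48 (ptObl 57 (PT.br 0 PT.kid PT.kid) []) :=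
  chkPq_sound h2_o32c _ (by decide +kernel)
noncomputable def h2_o33c : Pq := (Pq.cons (Pq.L [0] 0 (Pf.W 43 1 [] [0] (Pf.cons (Pf.W 58 0 [1] [2] (Pf.cons (Pf.B 3 1 (Pf.C 5 131) (Pf.C 8 131)) (Pf.cons (Pf.B 3 1 (Pf.C 12 16768) (Pf.B 3 2 (Pf.B 2 0 (Pf.C 24 0x40c001) (Pf.W 31 2 [1] [0,3] (Pf.cons (Pf.B 4 3 (Pf.B 4 0 (Pf.C 12 65538) (Pf.C 12 65920)) (Pf.C 32 16899)) Pf.nil))) (Pf.W 31 2 [1] [3] (Pf.cons (Pf.B 4 3 (Pf.C 12 65922) (Pf.C 32 16899)) Pf.nil)))) (Pf.cons (Pf.C 32 16768) (Pf.cons (Pf.C 32 16768) Pf.nil))))) Pf.nil)))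
 Pq.nil)
theorem h2_o33 : AllRef h2_T h2_G49 (ptObl 58 (PT.br 0 PT.kid PT.ref) []) :=
  chkPq_sound h2_o33c _ (by decide +kernel)
noncomputable def h2_o34c : Pq := (Pq.cons (Pq.L [0] 0 (Pf.W 58 0 [1] [] (Pf.cons (Pf.B 2 1 (Pf.C 5 130) (Pf.C 8 130)) (Pf.cons (Pf.B 2 1 (Pf.C 12 16640) (Pf.W 58 0 [1,2] [] (Pf.cons (Pf.B 3 1 (Pf.C 5 131) (Pf.C 8 131)) (Pf.cons (Pf.B 3 1 (Pf.C 12 16768) (Pf.C 64 0x400181)) (Pf.cons (Pf.C 32 16768) (Pf.cons (Pf.C 32 16768) Pf.nil)))))) (Pf.cons (Pf.C 32 16640) (Pf.cons (Pf.C 32 16640) Pf.nil))))))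
 Pq.nil)
theorem h2_o34 : AllRef h2_T h2_G50 (ptObl 59 (PT.br 0 PT.kid PT.ref) []) :=
  chkPq_sound h2_o34c _ (by decide +kernel)
noncomputable def h2_o35c : Pq := Pq.nil
theorem h2_o35 : AllRef h2_T h2_G51 (ptObl 60 (PT.br 0 PT.kid PT.kid) []) :=
  chkPq_sound h2_o35c _ (by decide +kernel)
noncomputable def h2_o36c : Pq := (Pq.cons (Pq.L [0] 0 (Pf.W 58 0 [1] [] (Pf.cons (Pf.B 2 1 (Pf.C 5 130) (Pf.C 8 130)) (Pf.cons (Pf.B 2 1 (Pf.C 12 16640) (Pf.W 58 0 [1,2] [] (Pf.cons (Pf.B 3 1 (Pf.C 5 131) (Pf.C 8 131)) (Pf.cons (Pf.B 3 1 (Pf.C 12 16768) (Pf.C 68 0x400181)) (Pf.cons (Pf.C 32 16768) (Pf.cons (Pf.C 32 16768) Pf.nil)))))) (Pf.cons (Pf.C 32 16640) (Pf.cons (Pf.C 32 16640) Pf.nil))))))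
 Pq.nil)
theorem h2_o36 : AllRef h2_T h2_G52 (ptObl 61 (PT.br 0 PT.kid PT.ref) []) :=
  chkPq_sound h2_o36c _ (by decide +kernel)
noncomputable def h2_o37c : Pq := (Pq.cons (Pq.L [0] 0 (Pf.W 51 1 [] [0] (Pf.cons (Pf.B 2 0 (Pf.C 11 32896) (Pf.T 2 10 (Pf.cons (Pf.T 2 26 Pf.nil) (Pf.cons (Pf.T 2 27 Pf.nil) Pf.nil)))) Pf.nil)))
 (Pq.cons (Pq.L [0] 0 (Pf.W 43 1 [] [0] (Pf.cons (Pf.B 2 0 (Pf.W 31 2 [1] [0] (Pf.cons (Pf.B 3 1 (Pf.T 3 4 (Pf.cons (Pf.W 60 1 [] [0,2,3] (Pf.cons (Pf.T 4 7 (Pf.cons (Pf.T 4 21 (Pf.cons (Pf.W 60 1 [4] [0,2,3] (Pf.cons (Pf.B 5 4 (Pf.C 7 16901) (Pf.C 1 517)) (Pf.cons (Pf.B 5 0 (Pf.C 11 16389) (Pf.T 5 8 (Pf.cons (Pf.T 5 22 Pf.nil) Pf.nil))) (Pf.cons (Pf.B 5 3 (Pf.B 5 2 (Pf.B 5 0 (Pf.B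 3 0 (Pf.C 11 49792) (Pf.W 58 0 [] [2,3,5] (Pf.cons (Pf.B 6 3 (Pf.C 5 390) (Pf.C 8 390)) (Pf.cons (Pf.B 6 3 (Pf.C 12 49920) (Pf.B 6 5 (Pf.B 6 2 (Pf.C 24 0x400303) (Pf.C 27 98565)) (Pf.C 12 49798))) (Pf.cons (Pf.W 58 0 [3] [2,5] (Pf.cons (Pf.B 6 3 (Pf.C 5 390) (Pf.C 8 390)) (Pf.cons (Pf.B 6 3 (Pf.C 12 49920) (Pf.B 6 5 (Pf.B 6 2 (Pf.C 24 0x400303) (Pf.C 27 98565)) (Pf.C 12 49798))) (Pf.cons (Pf.C 32 49920) (Pf.cons (Pf.C 32 49920) Pf.nil))))) (Pf.cons (Pf.C 32 49920) (Pf.cons (Pf.C 32 49920) Pf.nil))))))) (Pf.C 12 16389)) (Pf.C 12 49794)) (Pf.C 32 16773)) Pf.nil)))) Pf.nil)) Pf.nil)) (Pf.cons (Pf.B 4 0 (Pf.C 11 16388) (Pf.T 4 8 (Pf.cons (Pf.T 4 22 Pf.nil) Pf.nil))) (Pf.cons (Pf.B 4 3 (Pf.B 4 2 (Pf.B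 4 0 (Pf.B 3 0 (Pf.C 11 49664) (Pf.W 58 0 [] [2,3,4] (Pf.cons (Pf.B 5 3 (Pf.C 5 389) (Pf.C 8 389)) (Pf.cons (Pf.B 5 3 (Pf.C 12 49792) (Pf.B 5 4 (Pf.B 5 2 (Pf.C 24 0x400283) (Pf.C 27 82180)) (Pf.C 12 49669))) (Pf.cons (Pf.W 58 0 [3] [2,4] (Pf.cons (Pf.B 5 3 (Pf.C 5 389) (Pf.C 8 389)) (Pf.cons (Pf.B 5 3 (Pf.C 12 49792) (Pf.B 5 4 (Pf.B 5 2 (Pf.C 24 0x400283) (Pf.C 27 82180)) (Pf.C 12 49669))) (Pf.cons (Pf.C 32 49792) (Pf.cons (Pf.C 32 49792) Pf.nil))))) (Pf.cons (Pf.C 32 49792) (Pf.cons (Pf.C 32 49792) Pf.nil))))))) (Pf.C 12 16388)) (Pf.C 12 49666)) (Pf.C 32 16772)) Pf.nil)))) (Pf.cons (Pf.C 44 259) Pf.nil))) (Pf.C 4 131)) Pf.nil)) (Pf.C 12 16386)) Pf.nil)))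
 Pq.nil))
theorem h2_o37 : AllRef h2_T h2_G53 (List.map pat1 [80,86]) :=
  chkPq_sound h2_o37c _ (by decide +kernel)
noncomputable def h2_o38c : Pq := (Pq.cons (Pq.L [] 0 (Pf.X 0 1))
 (Pq.cons (Pq.L [] 1 (Pf.C 2 257))
 (Pq.cons (Pq.L [] 1 (Pf.C 2 257))
 (Pq.cons (Pq.L [] 1 (Pf.C 2 257))
 (Pq.cons (Pq.L [] 1 (Pf.C 2 257))
 (Pq.cons (Pq.L [] 1 (Pf.C 2 257))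
 (Pq.cons (Pq.L [] 1 (Pf.C 81 130))
 (Pq.cons (Pq.L [] 1 (Pf.C 87 130))
 (Pq.cons (Pq.L [] 1 (Pf.C 93 130))
 (Pq.cons (Pq.L [] 1 (Pf.C 75 130))
 (Pq.cons (Pq.L [] 1 (Pf.C 81 130))
 (Pq.cons (Pq.L [] 1 (Pf.C 87 130))
 (Pq.cons (Pq.L [] 1 (Pf.C 93 130))
 (Pq.cons (Pq.L [] 1 (Pf.C 75 130))
 (Pq.cons (Pq.L [] 1 (Pf.C 5 130))
 (Pq.cons (Pq.L [] 0 (Pf.X 0 1))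
 (Pq.cons (Pq.L [] 1 (Pf.C 1 130))
 (Pq.cons (Pq.L [] 1 (Pf.C 1 130))
 (Pq.cons (Pq.L [] 1 (Pf.C 1 130))
 (Pq.cons (Pq.L [] 1 (Pf.C 1 130))
 (Pq.cons (Pq.L [] 1 (Pf.C 1 130))
 (Pq.cons (Pq.L [] 1 (Pf.C 3 130))
 (Pq.cons (Pq.L [] 1 (Pf.C 3 130))
 (Pq.cons (Pq.L [] 1 (Pf.C 3 130))
 (Pq.cons (Pq.L [] 1 (Pf.C 3 130))
 (Pq.cons (Pq.L [] 1 (Pf.C 3 130))
 (Pq.cons (Pq.L [] 1 (Pf.C 3 130))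
 (Pq.cons (Pq.L [] 1 (Pf.C 3 130))
 (Pq.cons (Pq.L [] 1 (Pf.C 3 130))
 (Pq.cons (Pq.L [0] 1 (Pf.W 58 0 [1] [2] (Pf.cons (Pf.B 3 1 (Pf.C 5 131) (Pf.C 8 131)) (Pf.cons (Pf.B 3 2 (Pf.C 3 386) (Pf.B 3 1 (Pf.C 12 16768) (Pf.C 25 0x200182))) (Pf.cons (Pf.C 32 16768) (Pf.cons (Pf.C 32 16768) Pf.nil))))))
 (Pq.cons (Pq.L [] 0 (Pf.X 0 1))
 (Pq.cons (Pq.L [] 1 (Pf.C 83 130))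
 (Pq.cons (Pq.L [0] 1 (Pf.W 80 1 [] [0,2] (Pf.cons (Pf.B 3 2 (Pf.W 76 3 [] [0,1,2] (Pf.cons (Pf.B 4 1 (Pf.C 2 132) (Pf.C 8 49284)) (Pf.cons (Pf.B 4 2 (Pf.C 27 0x610002) (Pf.C 77 514)) (Pf.cons (Pf.B 4 2 (Pf.C 27 0x610002) (Pf.C 77 514)) Pf.nil)))) (Pf.C 83 386)) (Pf.cons (Pf.B 3 2 (Pf.W 78 3 [] [0,1,2] (Pf.cons (Pf.B 4 1 (Pf.C 2 132) (Pf.C 8 49284)) (Pf.cons (Pf.B 4 2 (Pf.C 27 0x610002) (Pf.C 77 514)) (Pf.cons (Pf.B 4 2 (Pf.C 27 0x610002) (Pf.C 77 514)) Pf.nil)))) (Pf.C 9 33153)) Pf.nil))))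
 (Pq.cons (Pq.L [0] 1 (Pf.W 86 1 [] [0,2] (Pf.cons (Pf.B 3 2 (Pf.W 82 3 [] [0,1,2] (Pf.cons (Pf.B 4 2 (Pf.C 26 0x80c002) (Pf.C 83 514)) (Pf.cons (Pf.B 4 2 (Pf.B 4 1 (Pf.C 26 0x208004) (Pf.C 81 513)) (Pf.C 83 514)) Pf.nil))) (Pf.C 89 386)) (Pf.cons (Pf.B 3 2 (Pf.W 84 3 [] [0,1,2] (Pf.cons (Pf.B 4 2 (Pf.C 26 0x80c002) (Pf.C 83 514)) (Pf.cons (Pf.B 4 2 (Pf.B 4 1 (Pf.C 26 0x208004) (Pf.C 81 513)) (Pf.C 83 514)) (Pf.cons (Pf.B 4 2 (Pf.B 4 1 (Pf.C 26 0x208004) (Pf.C 81 513)) (Pf.C 27 0x610100)) Pf.nil)))) (Pf.C 9 33153)) Pf.nil))))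
 (Pq.cons (Pq.L [0] 1 (Pf.W 92 1 [] [0,2] (Pf.cons (Pf.B 3 2 (Pf.W 88 3 [] [0,1,2] (Pf.cons (Pf.B 4 2 (Pf.B 4 1 (Pf.C 26 0x208004) (Pf.C 87 513)) (Pf.C 89 514)) Pf.nil)) (Pf.C 9 33153)) (Pf.cons (Pf.B 3 2 (Pf.W 90 3 [] [0,1,2] (Pf.cons (Pf.B 4 2 (Pf.B 4 1 (Pf.C 26 0x208004) (Pf.C 87 513)) (Pf.C 89 514)) (Pf.cons (Pf.B 4 2 (Pf.B 4 1 (Pf.C 26 0x208004) (Pf.C 87 513)) (Pf.C 27 0x610100)) Pf.nil))) (Pf.C 9 33153)) Pf.nil))))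
 (Pq.cons (Pq.L [] 1 (Pf.C 77 130))
 (Pq.cons (Pq.L [] 1 (Pf.C 83 130))
 (Pq.cons (Pq.L [] 1 (Pf.C 89 130))
 (Pq.cons (Pq.L [0] 1 (Pf.W 88 1 [] [0,2] (Pf.cons (Pf.B 3 2 (Pf.C 27 0x404180) (Pf.C 89 386)) Pf.nil)))
 (Pq.cons (Pq.L [] 1 (Pf.C 77 130))
 (Pq.cons (Pq.L [0] 1 (Pf.W 78 1 [] [0,2] (Pf.cons (Pf.B 3 2 (Pf.W 58 0 [3] [1,2] (Pf.cons (Pf.B 4 3 (Pf.C 2 388) (Pf.C 8 388)) (Pf.cons (Pf.B 4 3 (Pf.B 4 1 (Pf.B 4 2 (Pf.T 4 9 (Pf.cons (Pf.T 4 23 (Pf.cons (Pf.T 4 24 (Pf.cons (Pf.W 58 0 [3,4] [1,2] (Pf.cons (Pf.B 5 3 (Pf.C 2 389) (Pf.C 8 389)) (Pf.cons (Pf.B 5 3 (Pf.B 5 1 (Pf.B 5 4 (Pf.C 26 0x604205) (Pf.B 5 2 (Pf.T 5 9 (Pf.cons (Pf.T 5 23 (Pf.cons (Pf.T 5 24 (Pf.cons (Pf.W 58 2 [1] [0,3,4,5] (Pf.cons (Pf.B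 6 3 (Pf.C 2 390) (Pf.B 6 0 (Pf.T 6 6 (Pf.cons (Pf.T 6 20 (Pf.cons (Pf.W 58 2 [1,6] [0,3,4,5] (Pf.cons (Pf.B 7 6 (Pf.C 2 775) (Pf.C 8 33543)) (Pf.cons (Pf.B 7 3 (Pf.B 7 1 (Pf.B 7 5 (Pf.C 26 0x604287) (Pf.B 7 4 (Pf.C 26 0x604207) (Pf.C 24 0x414207))) (Pf.C 59 0x608381)) (Pf.C 55 0x200383)) (Pf.cons (Pf.B 7 6 (Pf.C 5 902) (Pf.C 8 33543)) (Pf.cons (Pf.B 7 6 (Pf.C 5 902) (Pf.C 8 33543)) Pf.nil))))) Pf.nil)) Pf.nil)) (Pf.C 8 390))) (Pf.cons (Pf.B 6 3 (Pf.B 6 1 (Pf.B 6 5 (Pf.C 26 0x604286) (Pf.B 6 4 (Pf.C 26 0x604206) (Pf.C 24 0x414206))) (Pf.C 59 0x608301)) (Pf.C 55 0x200303)) (Pf.cons (Pf.B 6 3 (Pf.C 5 771) (Pf.B 6 1 (Pf.C 12 98434) (Pf.C 8 16774))) (Pf.cons (Pf.B 6 3 (Pf.C 5 771) (Pf.B 6 1 (Pf.C 12 98434)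 (Pf.C 8 16774))) Pf.nil))))) Pf.nil)) Pf.nil)) (Pf.cons (Pf.T 5 25 (Pf.cons (Pf.W 58 2 [1] [0,3,4,5] (Pf.cons (Pf.B 6 3 (Pf.C 2 390) (Pf.B 6 0 (Pf.T 6 6 (Pf.cons (Pf.T 6 20 (Pf.cons (Pf.W 58 2 [1,6] [0,3,4,5] (Pf.cons (Pf.B 7 6 (Pf.C 2 775) (Pf.C 8 33543)) (Pf.cons (Pf.B 7 5 (Pf.B 7 3 (Pf.B 7 1 (Pf.C 26 0x604287) (Pf.C 59 0x608381)) (Pf.C 55 0x200383)) (Pf.C 59 0x800385)) (Pf.cons (Pf.B 7 6 (Pf.C 5 902) (Pf.C 8 33543)) (Pf.cons (Pf.B 7 6 (Pf.C 5 902) (Pf.C 8 33543)) Pf.nil))))) Pf.nil)) Pf.nil)) (Pf.C 8 390))) (Pf.cons (Pf.B 6 5 (Pf.B 6 3 (Pf.B 6 1 (Pf.C 26 0x604286) (Pf.C 59 0x608301)) (Pf.C 55 0x200303)) (Pf.C 59 0x800305)) (Pf.cons (Pf.B 6 5 (Pf.B 6 4 (Pf.B 6 3 (Pf.C 5 771) (Pf.B 6 1 (Pf.C 11 98817)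 (Pf.C 8 16774))) (Pf.C 12 98948)) (Pf.C 59 0x800305)) (Pf.cons (Pf.B 6 5 (Pf.B 6 4 (Pf.B 6 3 (Pf.C 5 771) (Pf.B 6 1 (Pf.C 11 98817) (Pf.C 8 16774))) (Pf.C 12 98948)) (Pf.C 59 0x800305)) Pf.nil))))) Pf.nil)) Pf.nil))) (Pf.C 24 0x410005))) (Pf.C 59 0x608281)) (Pf.C 9 643)) (Pf.cons (Pf.B 5 3 (Pf.C 5 643) (Pf.C 8 389)) (Pf.cons (Pf.B 5 3 (Pf.C 5 643) (Pf.C 8 389)) Pf.nil))))) Pf.nil)) Pf.nil)) (Pf.cons (Pf.T 4 25 (Pf.cons (Pf.W 58 0 [3,4] [1,2] (Pf.cons (Pf.B 5 3 (Pf.C 2 389) (Pf.C 8 389)) (Pf.cons (Pf.B 5 3 (Pf.B 5 1 (Pf.B 5 4 (Pf.C 26 0x604205) (Pf.B 5 2 (Pf.T 5 9 (Pf.cons (Pf.T 5 23 (Pf.cons (Pf.T 5 24 (Pf.cons (Pf.W 58 2 [1] [0,3,4,5] (Pf.cons (Pf.B 6 3 (Pf.C 2 390) (Pf.B 6 0 (Pf.T 6 6 (Pf.cons (Pf.T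 6 20 (Pf.cons (Pf.W 58 2 [1,6] [0,3,4,5] (Pf.cons (Pf.B 7 6 (Pf.C 2 775) (Pf.C 8 33543)) (Pf.cons (Pf.B 7 4 (Pf.B 7 3 (Pf.B 7 1 (Pf.C 26 0x604207) (Pf.C 59 0x608381)) (Pf.C 55 0x200383)) (Pf.C 59 0xa00384)) (Pf.cons (Pf.B 7 6 (Pf.C 5 902) (Pf.C 8 33543)) (Pf.cons (Pf.B 7 6 (Pf.C 5 902) (Pf.C 8 33543)) Pf.nil))))) Pf.nil)) Pf.nil)) (Pf.C 8 390))) (Pf.cons (Pf.B 6 4 (Pf.B 6 3 (Pf.B 6 1 (Pf.C 26 0x604206) (Pf.C 59 0x608301)) (Pf.C 55 0x200303)) (Pf.C 59 0xa00304)) (Pf.cons (Pf.B 6 4 (Pf.B 6 3 (Pf.C 5 771) (Pf.B 6 1 (Pf.C 11 98817) (Pf.C 8 16774))) (Pf.C 59 0xa00304)) (Pf.cons (Pf.B 6 4 (Pf.B 6 3 (Pf.C 5 771) (Pf.B 6 1 (Pf.C 11 98817) (Pf.C 8 16774))) (Pf.C 59 0xa00304)) Pf.nil))))) Pf.nil)) Pf.nil))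 (Pf.cons (Pf.T 5 25 (Pf.cons (Pf.W 58 2 [1] [0,3,4,5] (Pf.cons (Pf.B 6 3 (Pf.C 2 390) (Pf.B 6 0 (Pf.T 6 6 (Pf.cons (Pf.T 6 20 (Pf.cons (Pf.W 58 2 [1,6] [0,3,4,5] (Pf.cons (Pf.B 7 6 (Pf.C 2 775) (Pf.C 8 33543)) (Pf.cons (Pf.B 7 4 (Pf.B 7 3 (Pf.B 7 1 (Pf.C 26 0x604207) (Pf.C 59 0x608381)) (Pf.C 55 0x200383)) (Pf.C 59 0xa00384)) (Pf.cons (Pf.B 7 6 (Pf.C 5 902) (Pf.C 8 33543)) (Pf.cons (Pf.B 7 6 (Pf.C 5 902) (Pf.C 8 33543)) Pf.nil))))) Pf.nil)) Pf.nil)) (Pf.C 8 390))) (Pf.cons (Pf.B 6 4 (Pf.B 6 3 (Pf.B 6 1 (Pf.C 26 0x604206) (Pf.C 59 0x608301)) (Pf.C 55 0x200303)) (Pf.C 59 0xa00304)) (Pf.cons (Pf.B 6 5 (Pf.B 6 4 (Pf.B 6 3 (Pf.C 5 771) (Pf.B 6 1 (Pf.C 11 98817) (Pf.C 8 16774))) (Pf.C 12 98948)) (Pf.C 59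 0x800305)) (Pf.cons (Pf.B 6 5 (Pf.B 6 4 (Pf.B 6 3 (Pf.C 5 771) (Pf.B 6 1 (Pf.C 11 98817) (Pf.C 8 16774))) (Pf.C 12 98948)) (Pf.C 59 0x800305)) Pf.nil))))) Pf.nil)) Pf.nil))) (Pf.C 24 0x410005))) (Pf.C 59 0x608281)) (Pf.C 9 643)) (Pf.cons (Pf.B 5 3 (Pf.C 5 643) (Pf.C 8 389)) (Pf.cons (Pf.B 5 3 (Pf.C 5 643) (Pf.C 8 389)) Pf.nil))))) Pf.nil)) Pf.nil))) (Pf.W 58 0 [3,4] [1,2] (Pf.cons (Pf.B 5 3 (Pf.C 2 389) (Pf.C 8 389)) (Pf.cons (Pf.B 5 3 (Pf.B 5 1 (Pf.B 5 4 (Pf.C 26 0x604205) (Pf.B 5 2 (Pf.C 24 0x400284) (Pf.C 24 0x210282))) (Pf.C 59 0x608281)) (Pf.C 9 643)) (Pf.cons (Pf.B 5 3 (Pf.C 5 643) (Pf.C 8 389)) (Pf.cons (Pf.B 5 3 (Pf.C 5 643) (Pf.C 8 389)) Pf.nil)))))) (Pf.C 59 0x608201)) (Pf.C 9 515)) (Pf.cons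 (Pf.B 4 3 (Pf.C 5 515) (Pf.C 8 388)) (Pf.cons (Pf.B 4 3 (Pf.C 5 515) (Pf.C 8 388)) Pf.nil))))) (Pf.C 77 386)) (Pf.cons (Pf.B 3 2 (Pf.W 58 0 [3] [1,2] (Pf.cons (Pf.T 4 6 (Pf.cons (Pf.T 4 20 (Pf.cons (Pf.W 58 0 [3,4] [1,2] (Pf.cons (Pf.B 5 4 (Pf.C 2 517) (Pf.C 8 517)) (Pf.cons (Pf.B 5 1 (Pf.B 5 3 (Pf.B 5 2 (Pf.C 27 0x604105) (Pf.T 5 9 (Pf.cons (Pf.T 5 23 (Pf.cons (Pf.T 5 24 (Pf.cons (Pf.C 77 642) Pf.nil)) Pf.nil)) (Pf.cons (Pf.T 5 25 (Pf.cons (Pf.C 77 642) Pf.nil)) Pf.nil)))) (Pf.C 24 0x200283)) (Pf.C 59 0x608281)) (Pf.cons (Pf.B 5 4 (Pf.C 5 644) (Pf.C 8 517)) (Pf.cons (Pf.B 5 4 (Pf.C 5 644) (Pf.C 8 517)) Pf.nil))))) Pf.nil)) Pf.nil)) (Pf.cons (Pf.B 4 1 (Pf.B 4 3 (Pf.B 4 2 (Pf.C 27 0x604104) (Pf.T 4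 9 (Pf.cons (Pf.T 4 23 (Pf.cons (Pf.T 4 24 (Pf.cons (Pf.C 77 514) Pf.nil)) Pf.nil)) (Pf.cons (Pf.T 4 25 (Pf.cons (Pf.C 77 514) Pf.nil)) Pf.nil)))) (Pf.C 24 0x200203)) (Pf.C 59 0x608201)) (Pf.cons (Pf.B 4 3 (Pf.C 12 65920) (Pf.B 4 2 (Pf.B 4 1 (Pf.C 12 65667) (Pf.C 12 65793)) (Pf.C 24 0x40c004))) (Pf.cons (Pf.B 4 3 (Pf.C 12 65920) (Pf.B 4 2 (Pf.B 4 1 (Pf.C 12 65667) (Pf.C 12 65793)) (Pf.C 24 0x40c004))) Pf.nil))))) (Pf.C 77 386)) (Pf.cons (Pf.B 3 2 (Pf.W 58 0 [3] [1,2] (Pf.cons (Pf.T 4 6 (Pf.cons (Pf.T 4 20 (Pf.cons (Pf.W 58 0 [3,4] [1,2] (Pf.cons (Pf.B 5 4 (Pf.C 2 517) (Pf.C 8 517)) (Pf.cons (Pf.B 5 3 (Pf.B 5 2 (Pf.C 27 0x600282) (Pf.T 5 9 (Pf.cons (Pf.T 5 23 (Pf.cons (Pf.T 5 24 (Pf.cons (Pf.C 77 642)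 Pf.nil)) Pf.nil)) (Pf.cons (Pf.T 5 25 (Pf.cons (Pf.C 77 642) Pf.nil)) Pf.nil)))) (Pf.C 59 0x200283)) (Pf.cons (Pf.B 5 4 (Pf.C 5 644) (Pf.C 8 517)) (Pf.cons (Pf.B 5 4 (Pf.C 5 644) (Pf.C 8 517)) Pf.nil))))) Pf.nil)) Pf.nil)) (Pf.cons (Pf.B 4 3 (Pf.B 4 2 (Pf.C 27 0x600202) (Pf.T 4 9 (Pf.cons (Pf.T 4 23 (Pf.cons (Pf.T 4 24 (Pf.cons (Pf.C 77 514) Pf.nil)) Pf.nil)) (Pf.cons (Pf.T 4 25 (Pf.cons (Pf.C 77 514) Pf.nil)) Pf.nil)))) (Pf.C 59 0x200203)) (Pf.cons (Pf.B 4 3 (Pf.C 12 65920) (Pf.C 59 0x200203)) (Pf.cons (Pf.B 4 3 (Pf.C 12 65920) (Pf.C 59 0x200203)) Pf.nil))))) (Pf.C 77 386)) Pf.nil)))))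
 (Pq.cons (Pq.L [0] 1 (Pf.W 84 1 [] [0,2] (Pf.cons (Pf.B 3 2 (Pf.W 74 3 [] [0,1,2] (Pf.cons (Pf.B 4 2 (Pf.B 4 1 (Pf.W 58 2 [1] [0,3,4] (Pf.cons (Pf.T 5 6 (Pf.cons (Pf.T 5 20 (Pf.cons (Pf.T 5 30 (Pf.cons (Pf.C 83 642) (Pf.cons (Pf.W 58 2 [1,5] [0,3,4] (Pf.cons (Pf.B 6 5 (Pf.C 2 646) (Pf.C 8 33414)) (Pf.cons (Pf.B 6 3 (Pf.B 6 1 (Pf.B 6 4 (Pf.C 27 0x208304) (Pf.B 6 0 (Pf.C 26 0x604006) (Pf.C 24 0x410006))) (Pf.C 59 0x608301)) (Pf.C 55 0x804303)) (Pf.cons (Pf.B 6 5 (Pf.C 5 773) (Pf.C 8 33414)) (Pf.cons (Pf.B 6 5 (Pf.C 5 773) (Pf.C 8 33414)) Pf.nil))))) Pf.nil))) (Pf.cons (Pf.C 77 642) Pf.nil))) Pf.nil)) (Pf.cons (Pf.B 5 3 (Pf.B 5 1 (Pf.B 5 4 (Pf.C 27 0x208284) (Pf.B 5 0 (Pf.C 26 0x604005) (Pf.C 24 0x410005)))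 (Pf.C 59 0x608281)) (Pf.C 55 0x804283)) (Pf.cons (Pf.B 5 3 (Pf.C 5 643) (Pf.B 5 4 (Pf.B 5 1 (Pf.C 11 82433) (Pf.C 8 16773)) (Pf.C 8 65925))) (Pf.cons (Pf.B 5 3 (Pf.C 5 643) (Pf.B 5 4 (Pf.B 5 1 (Pf.C 11 82433) (Pf.C 8 16773)) (Pf.C 8 65925))) Pf.nil))))) (Pf.C 79 513)) (Pf.C 77 514)) (Pf.cons (Pf.B 4 2 (Pf.B 4 1 (Pf.W 58 0 [4] [1,2,3] (Pf.cons (Pf.T 5 6 (Pf.cons (Pf.T 5 20 (Pf.cons (Pf.W 58 0 [4,5] [1,2,3] (Pf.cons (Pf.B 6 5 (Pf.C 2 646) (Pf.C 8 646)) (Pf.cons (Pf.B 6 4 (Pf.B 6 3 (Pf.B 6 2 (Pf.C 26 0x610106) (Pf.B 6 1 (Pf.C 27 0x800301) (Pf.C 24 32902))) (Pf.C 55 0x804303)) (Pf.C 59 0x600304)) (Pf.cons (Pf.B 6 5 (Pf.C 5 773) (Pf.C 8 646)) (Pf.cons (Pf.B 6 5 (Pf.C 5 773) (Pf.C 8 646)) Pf.nil))))) Pf.nil))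 Pf.nil)) (Pf.cons (Pf.B 5 4 (Pf.B 5 3 (Pf.B 5 2 (Pf.C 26 0x610105) (Pf.B 5 1 (Pf.C 27 0x800281) (Pf.C 24 32901))) (Pf.C 55 0x804283)) (Pf.C 59 0x600284)) (Pf.cons (Pf.B 5 4 (Pf.C 12 82432) (Pf.C 59 0x600284)) (Pf.cons (Pf.B 5 4 (Pf.C 12 82432) (Pf.C 59 0x600284)) Pf.nil))))) (Pf.C 79 513)) (Pf.C 77 514)) Pf.nil))) (Pf.C 83 386)) (Pf.cons (Pf.B 3 2 (Pf.C 27 0x404180) (Pf.C 83 386)) (Pf.cons (Pf.B 3 2 (Pf.C 27 0x404180) (Pf.W 78 3 [] [1,2] (Pf.cons (Pf.C 59 0x404203) (Pf.cons (Pf.C 59 0x404203) (Pf.cons (Pf.C 59 0x404203) Pf.nil))))) Pf.nil)))))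
 (Pq.cons (Pq.L [0] 1 (Pf.W 90 1 [] [0,2] (Pf.cons (Pf.B 3 2 (Pf.C 27 0x404180) (Pf.C 89 386)) (Pf.cons (Pf.B 3 2 (Pf.C 27 0x404180) (Pf.W 84 3 [] [1,2] (Pf.cons (Pf.C 59 0x404203) (Pf.cons (Pf.C 59 0x404203) (Pf.cons (Pf.C 59 0x404203) Pf.nil))))) Pf.nil))))
 (Pq.cons (Pq.L [] 1 (Pf.C 77 130))
 (Pq.cons (Pq.L [0] 1 (Pf.W 46 256 [] [1] (Pf.cons (Pf.B 3 1 (Pf.C 5 131) (Pf.C 8 131)) (Pf.cons (Pf.B 3 1 (Pf.C 5 131) (Pf.C 8 32899)) (Pf.cons (Pf.B 3 1 (Pf.C 12 16768) (Pf.C 24 0x400181)) (Pf.cons (Pf.B 3 1 (Pf.C 12 16770) (Pf.C 24 33153)) (Pf.cons (Pf.C 32 16768) (Pf.cons (Pf.C 32 16770) (Pf.cons (Pf.C 32 16768) (Pf.cons (Pf.C 32 16770) Pf.nil))))))))))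
 (Pq.cons (Pq.L [] 0 (Pf.X 0 1))
 (Pq.cons (Pq.L [] 1 (Pf.C 85 130))
 (Pq.cons (Pq.L [0] 0 (Pf.W 80 1 [] [0,2] (Pf.cons (Pf.B 3 2 (Pf.W 76 3 [] [0,1,2] (Pf.cons (Pf.B 4 1 (Pf.C 2 132) (Pf.C 8 49284)) (Pf.cons (Pf.B 4 2 (Pf.C 27 0x610002) (Pf.C 79 514)) (Pf.cons (Pf.B 4 2 (Pf.C 27 0x610002) (Pf.C 79 514)) Pf.nil)))) (Pf.C 85 386)) (Pf.cons (Pf.B 3 2 (Pf.W 78 3 [] [0,1,2] (Pf.cons (Pf.B 4 1 (Pf.C 2 132) (Pf.C 8 49284)) (Pf.cons (Pf.B 4 2 (Pf.C 27 0x610002) (Pf.C 79 514)) (Pf.cons (Pf.B 4 2 (Pf.C 27 0x610002) (Pf.C 79 514)) Pf.nil)))) (Pf.C 85 386)) Pf.nil))))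
 (Pq.cons (Pq.L [0] 1 (Pf.W 86 1 [] [0,2] (Pf.cons (Pf.B 3 2 (Pf.W 82 3 [] [0,1,2] (Pf.cons (Pf.B 4 2 (Pf.C 26 0x80c002) (Pf.C 85 514)) (Pf.cons (Pf.B 4 2 (Pf.B 4 1 (Pf.C 26 0x208004) (Pf.C 81 513)) (Pf.C 85 514)) Pf.nil))) (Pf.C 91 386)) (Pf.cons (Pf.B 3 2 (Pf.W 84 3 [] [0,1,2] (Pf.cons (Pf.B 4 2 (Pf.C 26 0x80c002) (Pf.C 85 514)) (Pf.cons (Pf.B 4 2 (Pf.B 4 1 (Pf.C 26 0x208004) (Pf.C 81 513)) (Pf.C 85 514)) (Pf.cons (Pf.B 4 2 (Pf.B 4 1 (Pf.C 26 0x208004) (Pf.C 81 513)) (Pf.C 85 514)) Pf.nil)))) (Pf.C 91 386)) Pf.nil))))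
 (Pq.cons (Pq.L [0] 1 (Pf.W 92 1 [] [0,2] (Pf.cons (Pf.B 3 2 (Pf.W 88 3 [] [0,1,2] (Pf.cons (Pf.B 4 2 (Pf.B 4 1 (Pf.C 26 0x208004) (Pf.C 87 513)) (Pf.C 91 514)) Pf.nil)) (Pf.C 9 33153)) (Pf.cons (Pf.B 3 2 (Pf.W 90 3 [] [0,1,2] (Pf.cons (Pf.B 4 2 (Pf.B 4 1 (Pf.C 26 0x208004) (Pf.C 87 513)) (Pf.C 91 514)) (Pf.cons (Pf.B 4 2 (Pf.B 4 1 (Pf.C 26 0x208004) (Pf.C 87 513)) (Pf.C 91 514)) Pf.nil))) (Pf.C 9 33153)) Pf.nil))))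
 (Pq.cons (Pq.L [] 1 (Pf.C 79 130))
 (Pq.cons (Pq.L [] 1 (Pf.C 85 130))
 (Pq.cons (Pq.L [] 1 (Pf.C 91 130))
 (Pq.cons (Pq.L [0] 1 (Pf.W 88 1 [] [0,2] (Pf.cons (Pf.B 3 2 (Pf.C 27 0x404180) (Pf.C 91 386)) Pf.nil)))
 (Pq.cons (Pq.L [] 1 (Pf.C 79 130))
 (Pq.cons (Pq.L [] 1 (Pf.C 85 130))
 (Pq.cons (Pq.L [] 1 (Pf.C 91 130))
 (Pq.cons (Pq.L [0] 1 (Pf.W 90 1 [] [0,2] (Pf.cons (Pf.B 3 2 (Pf.C 27 0x404180) (Pf.C 91 386)) (Pf.cons (Pf.B 3 2 (Pf.C 27 0x404180) (Pf.C 91 386)) Pf.nil))))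
 (Pq.cons (Pq.L [] 1 (Pf.C 79 130))
 (Pq.cons (Pq.L [0] 1 (Pf.W 46 256 [] [1] (Pf.cons (Pf.B 3 1 (Pf.C 5 131) (Pf.C 8 131)) (Pf.cons (Pf.B 3 1 (Pf.C 5 131) (Pf.C 8 32899)) (Pf.cons (Pf.B 3 1 (Pf.C 12 16768) (Pf.C 24 0x400181)) (Pf.cons (Pf.B 3 1 (Pf.C 12 16770) (Pf.C 24 33153)) (Pf.cons (Pf.C 32 16768) (Pf.cons (Pf.C 32 16770) (Pf.cons (Pf.C 32 16768) (Pf.cons (Pf.C 32 16770) Pf.nil))))))))))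
 (Pq.cons (Pq.L [] 0 (Pf.X 0 1))
 (Pq.cons (Pq.L [] 1 (Pf.C 5 257))
 (Pq.cons (Pq.L [] 1 (Pf.C 5 257))
 (Pq.cons (Pq.L [] 1 (Pf.C 5 257))
 (Pq.cons (Pq.L [] 1 (Pf.C 5 257))
 (Pq.cons (Pq.L [] 1 (Pf.C 5 257))
 (Pq.cons (Pq.L [] 1 (Pf.W 58 1 [2] [] (Pf.cons (Pf.B 3 2 (Pf.C 5 259) (Pf.C 8 16643)) (Pf.cons (Pf.B 3 2 (Pf.C 12 33153) (Pf.W 58 1 [2,3] [] (Pf.cons (Pf.B 4 2 (Pf.C 5 260) (Pf.C 8 16644)) (Pf.cons (Pf.B 4 2 (Pf.C 12 33281) (Pf.C 64 0x604202)) (Pf.cons (Pf.C 32 33281) (Pf.cons (Pf.C 32 33281) Pf.nil)))))) (Pf.cons (Pf.C 32 33153) (Pf.cons (Pf.C 32 33153) Pf.nil))))))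
 (Pq.cons (Pq.L [] 1 (Pf.W 58 1 [2] [] (Pf.cons (Pf.B 3 2 (Pf.C 5 259) (Pf.C 8 16643)) (Pf.cons (Pf.B 3 2 (Pf.C 12 33153) (Pf.W 58 1 [2,3] [] (Pf.cons (Pf.B 4 2 (Pf.C 5 260) (Pf.C 8 16644)) (Pf.cons (Pf.B 4 2 (Pf.C 12 33281) (Pf.C 64 0x604202)) (Pf.cons (Pf.C 32 33281) (Pf.cons (Pf.C 32 33281) Pf.nil)))))) (Pf.cons (Pf.C 32 33153) (Pf.cons (Pf.C 32 33153) Pf.nil))))))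
 (Pq.cons (Pq.L [] 1 (Pf.W 58 1 [2] [] (Pf.cons (Pf.B 3 2 (Pf.C 5 259) (Pf.C 8 16643)) (Pf.cons (Pf.B 3 2 (Pf.C 12 33153) (Pf.W 58 1 [2,3] [] (Pf.cons (Pf.B 4 2 (Pf.C 5 260) (Pf.C 8 16644)) (Pf.cons (Pf.B 4 2 (Pf.C 12 33281) (Pf.C 64 0x604202)) (Pf.cons (Pf.C 32 33281) (Pf.cons (Pf.C 32 33281) Pf.nil)))))) (Pf.cons (Pf.C 32 33153) (Pf.cons (Pf.C 32 33153) Pf.nil))))))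
 (Pq.cons (Pq.L [] 1 (Pf.W 58 1 [2] [] (Pf.cons (Pf.B 3 2 (Pf.C 5 259) (Pf.C 8 16643)) (Pf.cons (Pf.B 3 2 (Pf.C 12 33153) (Pf.W 58 1 [2,3] [] (Pf.cons (Pf.B 4 2 (Pf.C 5 260) (Pf.C 8 16644)) (Pf.cons (Pf.B 4 2 (Pf.C 12 33281) (Pf.C 64 0x604202)) (Pf.cons (Pf.C 32 33281) (Pf.cons (Pf.C 32 33281) Pf.nil)))))) (Pf.cons (Pf.C 32 33153) (Pf.cons (Pf.C 32 33153) Pf.nil))))))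
 (Pq.cons (Pq.L [0] 1 (Pf.W 43 2 [] [0,1] (Pf.cons (Pf.B 3 0 (Pf.B 3 1 (Pf.W 58 0 [] [1,2,3] (Pf.cons (Pf.B 4 2 (Pf.C 5 260) (Pf.B 4 3 (Pf.B 4 1 (Pf.C 26 0x800181) (Pf.C 8 16644)) (Pf.C 8 49412))) (Pf.cons (Pf.B 4 2 (Pf.B 4 3 (Pf.B 4 1 (Pf.W 31 3 [2] [0,1,4] (Pf.cons (Pf.B 5 1 (Pf.B 5 4 (Pf.C 11 82052) (Pf.B 5 0 (Pf.C 11 82048) (Pf.C 24 0x610005))) (Pf.C 32 33409)) Pf.nil)) (Pf.C 12 33281)) (Pf.C 12 33283)) (Pf.C 12 32772)) (Pf.cons (Pf.B 4 1 (Pf.B 4 3 (Pf.C 11 65667) (Pf.W 58 0 [4] [2,3] (Pf.cons (Pf.B 5 4 (Pf.C 5 517) (Pf.C 8 517)) (Pf.cons (Pf.B 5 4 (Pf.C 12 66176) (Pf.B 5 3 (Pf.C 24 0x600284) (Pf.B 5 2 (Pf.C 12 33411) (Pf.C 12 32773)))) (Pf.cons (Pf.C 32 66176) (Pf.cons (Pf.C 32 66176) Pf.nil))))))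 (Pf.C 32 33281)) (Pf.cons (Pf.B 4 3 (Pf.B 4 1 (Pf.C 11 65921) (Pf.C 32 33281)) (Pf.C 44 388)) Pf.nil))))) (Pf.W 31 3 [2] [1] (Pf.cons (Pf.B 4 1 (Pf.C 12 65667) (Pf.C 32 33281)) Pf.nil))) (Pf.C 12 32771)) Pf.nil)))
 (Pq.cons (Pq.L [0] 1 (Pf.W 43 2 [] [0,1] (Pf.cons (Pf.B 3 0 (Pf.B 3 1 (Pf.W 58 0 [] [1,2,3] (Pf.cons (Pf.B 4 2 (Pf.C 5 260) (Pf.B 4 3 (Pf.B 4 1 (Pf.C 26 0x800181) (Pf.C 8 16644)) (Pf.C 8 49412))) (Pf.cons (Pf.B 4 2 (Pf.B 4 3 (Pf.B 4 1 (Pf.W 31 3 [2] [0,1,4] (Pf.cons (Pf.B 5 1 (Pf.B 5 4 (Pf.C 11 82052) (Pf.B 5 0 (Pf.C 11 82048) (Pf.C 24 0x610005))) (Pf.C 32 33409)) Pf.nil)) (Pf.C 12 33281)) (Pf.C 12 33283)) (Pf.C 12 32772)) (Pf.cons (Pf.B 4 1 (Pf.B 4 3 (Pf.C 11 65667) (Pf.W 58 0 [4] [2,3]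 (Pf.cons (Pf.B 5 4 (Pf.C 5 517) (Pf.C 8 517)) (Pf.cons (Pf.B 5 4 (Pf.C 12 66176) (Pf.B 5 3 (Pf.C 24 0x600284) (Pf.B 5 2 (Pf.C 12 33411) (Pf.C 12 32773)))) (Pf.cons (Pf.C 32 66176) (Pf.cons (Pf.C 32 66176) Pf.nil)))))) (Pf.C 32 33281)) (Pf.cons (Pf.B 4 3 (Pf.B 4 1 (Pf.C 11 65921) (Pf.C 32 33281)) (Pf.C 44 388)) Pf.nil))))) (Pf.W 31 3 [2] [1] (Pf.cons (Pf.B 4 1 (Pf.C 12 65667) (Pf.C 32 33281)) Pf.nil))) (Pf.C 12 32771)) Pf.nil)))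
 (Pq.cons (Pq.L [0] 1 (Pf.W 43 2 [] [0,1] (Pf.cons (Pf.B 3 0 (Pf.B 3 1 (Pf.W 58 0 [] [1,2,3] (Pf.cons (Pf.B 4 2 (Pf.C 5 260) (Pf.B 4 3 (Pf.B 4 1 (Pf.C 26 0x800181) (Pf.C 8 16644)) (Pf.C 8 49412))) (Pf.cons (Pf.B 4 2 (Pf.B 4 3 (Pf.B 4 1 (Pf.W 31 3 [2] [0,1,4] (Pf.cons (Pf.B 5 1 (Pf.B 5 4 (Pf.C 11 82052) (Pf.B 5 0 (Pf.C 11 82048) (Pf.C 24 0x610005))) (Pf.C 32 33409)) Pf.nil)) (Pf.C 12 33281)) (Pf.C 12 33283)) (Pf.C 12 32772)) (Pf.cons (Pf.B 4 1 (Pf.B 4 3 (Pf.C 11 65667) (Pf.W 58 0 [4] [2,3] (Pf.cons (Pf.B 5 4 (Pf.C 5 517) (Pf.C 8 517)) (Pf.cons (Pf.B 5 4 (Pf.C 12 66176) (Pf.B 5 3 (Pf.C 24 0x600284) (Pf.B 5 2 (Pf.C 12 33411) (Pf.C 12 32773)))) (Pf.cons (Pf.C 32 66176) (Pf.cons (Pf.C 32 66176) Pf.nil))))))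 (Pf.C 32 33281)) (Pf.cons (Pf.B 4 3 (Pf.B 4 1 (Pf.C 11 65921) (Pf.C 32 33281)) (Pf.C 44 388)) Pf.nil))))) (Pf.W 31 3 [2] [1] (Pf.cons (Pf.B 4 1 (Pf.C 12 65667) (Pf.C 32 33281)) Pf.nil))) (Pf.C 12 32771)) Pf.nil)))
 (Pq.cons (Pq.L [0] 1 (Pf.C 12 32769))
 (Pq.cons (Pq.L [] 1 (Pf.C 4 257))
 (Pq.cons (Pq.L [] 0 (Pf.X 0 1))
 (Pq.cons (Pq.L [] 1 (Pf.C 5 257))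
 (Pq.cons (Pq.L [] 1 (Pf.C 5 257))
 (Pq.cons (Pq.L [] 1 (Pf.C 5 257))
 (Pq.cons (Pq.L [] 1 (Pf.C 5 257))
 (Pq.cons (Pq.L [] 1 (Pf.C 5 257))
 (Pq.cons (Pq.L [0] 1 (Pf.W 76 1 [] [0,2] (Pf.cons (Pf.B 3 2 (Pf.C 5 259) (Pf.C 8 16643)) (Pf.cons (Pf.B 3 2 (Pf.C 12 33153) (Pf.C 12 32771)) (Pf.cons (Pf.B 3 2 (Pf.C 12 33153) (Pf.C 12 32771)) Pf.nil)))))
 (Pq.cons (Pq.L [0] 1 (Pf.W 82 1 [] [0,2] (Pf.cons (Pf.B 3 2 (Pf.C 5 259) (Pf.C 8 16643)) (Pf.cons (Pf.B 3 2 (Pf.C 11 32771) (Pf.W 76 3 [] [0,2] (Pf.cons (Pf.B 4 2 (Pf.C 5 260) (Pf.C 8 49412)) (Pf.cons (Pf.B 4 2 (Pf.C 12 33283) (Pf.C 12 32772)) (Pf.cons (Pf.B 4 2 (Pf.C 12 33283) (Pf.C 12 32772)) Pf.nil))))) Pf.nil))))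
 (Pq.cons (Pq.L [0] 0 (Pf.W 88 1 [] [0,2] (Pf.cons (Pf.B 3 2 (Pf.C 11 32771) (Pf.W 82 3 [] [0,1,2] (Pf.cons (Pf.B 4 2 (Pf.C 5 260) (Pf.C 8 49412)) (Pf.cons (Pf.B 4 1 (Pf.C 27 0x20c200) (Pf.C 83 513)) Pf.nil)))) Pf.nil)))
 (Pq.cons (Pq.L [0] 1 (Pf.C 12 32769))
 (Pq.cons (Pq.L [0] 1 (Pf.W 65 2 [1] [0] (Pf.cons (Pf.B 3 1 (Pf.C 3 131) (Pf.T 3 7 (Pf.cons (Pf.T 3 21 (Pf.cons (Pf.W 65 2 [1,3] [] (Pf.cons (Pf.B 4 3 (Pf.C 7 33156) (Pf.C 1 388)) (Pf.cons (Pf.B 4 3 (Pf.C 3 515) (Pf.B 4 1 (Pf.W 46 513 [] [2] (Pf.cons (Pf.B 5 2 (Pf.C 5 261) (Pf.C 8 16645)) (Pf.cons (Pf.B 5 2 (Pf.C 5 261) (Pf.C 8 65797)) (Pf.cons (Pf.B 5 2 (Pf.C 12 33409) (Pf.C 24 0x804282)) (Pf.cons (Pf.B 5 2 (Pf.C 12 33412) (Pf.C 24 0x210282))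 (Pf.cons (Pf.C 32 33409) (Pf.cons (Pf.C 32 33412) (Pf.cons (Pf.C 32 33409) (Pf.cons (Pf.C 32 33412) Pf.nil))))))))) (Pf.C 25 0x404203))) Pf.nil))) Pf.nil)) Pf.nil))) (Pf.cons (Pf.B 3 0 (Pf.B 3 1 (Pf.W 46 385 [] [2] (Pf.cons (Pf.B 4 2 (Pf.C 5 260) (Pf.C 8 16644)) (Pf.cons (Pf.B 4 2 (Pf.C 5 260) (Pf.C 8 49412)) (Pf.cons (Pf.B 4 2 (Pf.C 12 33281) (Pf.C 24 0x604202)) (Pf.cons (Pf.B 4 2 (Pf.C 12 33283) (Pf.C 24 0x20c202)) (Pf.cons (Pf.C 32 33281) (Pf.cons (Pf.C 32 33283) (Pf.cons (Pf.C 32 33281) (Pf.cons (Pf.C 32 33283) Pf.nil))))))))) (Pf.W 65 2 [1,3] [0] (Pf.cons (Pf.B 4 3 (Pf.C 3 388) (Pf.B 4 1 (Pf.C 3 132) (Pf.C 25 0x40c084))) (Pf.cons (Pf.B 4 1 (Pf.B 4 3 (Pf.C 24 0x804182) (Pf.B 4 0 (Pf.C 27 0x20c200)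 (Pf.C 12 32772))) (Pf.C 59 0x608201)) Pf.nil)))) (Pf.C 12 32771)) Pf.nil))))
 (Pq.cons (Pq.L [0] 1 (Pf.W 65 2 [1] [0] (Pf.cons (Pf.B 3 1 (Pf.C 3 131) (Pf.T 3 7 (Pf.cons (Pf.T 3 21 (Pf.cons (Pf.W 65 2 [1,3] [] (Pf.cons (Pf.B 4 3 (Pf.C 7 33156) (Pf.C 1 388)) (Pf.cons (Pf.B 4 3 (Pf.C 3 515) (Pf.B 4 1 (Pf.W 46 513 [] [2] (Pf.cons (Pf.B 5 2 (Pf.C 5 261) (Pf.C 8 16645)) (Pf.cons (Pf.B 5 2 (Pf.C 5 261) (Pf.C 8 65797)) (Pf.cons (Pf.B 5 2 (Pf.C 12 33409) (Pf.C 24 0x804282)) (Pf.cons (Pf.B 5 2 (Pf.C 12 33412) (Pf.C 24 0x210282)) (Pf.cons (Pf.C 32 33409) (Pf.cons (Pf.C 32 33412) (Pf.cons (Pf.C 32 33409) (Pf.cons (Pf.C 32 33412) Pf.nil))))))))) (Pf.C 25 0x404203))) Pf.nil))) Pf.nil)) Pf.nil))) (Pf.cons (Pf.B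 3 0 (Pf.B 3 1 (Pf.W 46 385 [] [2] (Pf.cons (Pf.B 4 2 (Pf.C 5 260) (Pf.C 8 16644)) (Pf.cons (Pf.B 4 2 (Pf.C 5 260) (Pf.C 8 49412)) (Pf.cons (Pf.B 4 2 (Pf.C 12 33281) (Pf.C 24 0x604202)) (Pf.cons (Pf.B 4 2 (Pf.C 12 33283) (Pf.C 24 0x20c202)) (Pf.cons (Pf.C 32 33281) (Pf.cons (Pf.C 32 33283) (Pf.cons (Pf.C 32 33281) (Pf.cons (Pf.C 32 33283) Pf.nil))))))))) (Pf.W 65 2 [1,3] [0] (Pf.cons (Pf.B 4 3 (Pf.C 3 388) (Pf.B 4 1 (Pf.C 3 132) (Pf.C 25 0x40c084))) (Pf.cons (Pf.B 4 1 (Pf.B 4 3 (Pf.C 24 0x804182) (Pf.B 4 0 (Pf.C 27 0x20c200) (Pf.C 12 32772))) (Pf.C 59 0x608201)) Pf.nil)))) (Pf.C 12 32771)) Pf.nil))))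
 (Pq.cons (Pq.L [0] 1 (Pf.W 65 2 [1] [0] (Pf.cons (Pf.B 3 1 (Pf.C 3 131) (Pf.T 3 7 (Pf.cons (Pf.T 3 21 (Pf.cons (Pf.W 65 2 [1,3] [] (Pf.cons (Pf.B 4 3 (Pf.C 7 33156) (Pf.C 1 388)) (Pf.cons (Pf.B 4 3 (Pf.C 3 515) (Pf.B 4 1 (Pf.W 46 513 [] [2] (Pf.cons (Pf.B 5 2 (Pf.C 5 261) (Pf.C 8 16645)) (Pf.cons (Pf.B 5 2 (Pf.C 5 261) (Pf.C 8 65797)) (Pf.cons (Pf.B 5 2 (Pf.C 12 33409) (Pf.C 24 0x804282)) (Pf.cons (Pf.B 5 2 (Pf.C 12 33412) (Pf.C 24 0x210282)) (Pf.cons (Pf.C 32 33409) (Pf.cons (Pf.C 32 33412) (Pf.cons (Pf.C 32 33409) (Pf.cons (Pf.C 32 33412) Pf.nil))))))))) (Pf.C 25 0x404203))) Pf.nil))) Pf.nil)) Pf.nil))) (Pf.cons (Pf.B 3 0 (Pf.B 3 1 (Pf.W 46 385 [] [2] (Pf.cons (Pf.B 4 2 (Pf.C 5 260) (Pf.C 8 16644))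 (Pf.cons (Pf.B 4 2 (Pf.C 5 260) (Pf.C 8 49412)) (Pf.cons (Pf.B 4 2 (Pf.C 12 33281) (Pf.C 24 0x604202)) (Pf.cons (Pf.B 4 2 (Pf.C 12 33283) (Pf.C 24 0x20c202)) (Pf.cons (Pf.C 32 33281) (Pf.cons (Pf.C 32 33283) (Pf.cons (Pf.C 32 33281) (Pf.cons (Pf.C 32 33283) Pf.nil))))))))) (Pf.W 65 2 [1,3] [0] (Pf.cons (Pf.B 4 3 (Pf.C 3 388) (Pf.B 4 1 (Pf.C 3 132) (Pf.C 25 0x40c084))) (Pf.cons (Pf.B 4 1 (Pf.B 4 3 (Pf.C 24 0x804182) (Pf.B 4 0 (Pf.C 27 0x20c200) (Pf.C 12 32772))) (Pf.C 59 0x608201)) Pf.nil)))) (Pf.C 12 32771)) Pf.nil))))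
 (Pq.cons (Pq.L [0] 1 (Pf.C 12 32769))
 (Pq.cons (Pq.L [] 1 (Pf.C 4 257))
 (Pq.cons (Pq.L [] 0 (Pf.X 0 1))
 (Pq.cons (Pq.L [] 1 (Pf.C 5 257))
 (Pq.cons (Pq.L [] 1 (Pf.C 5 257))
 (Pq.cons (Pq.L [] 1 (Pf.C 5 257))
 (Pq.cons (Pq.L [] 1 (Pf.C 5 257))
 (Pq.cons (Pq.L [] 1 (Pf.C 5 257))
 (Pq.cons (Pq.L [] 1 (Pf.W 58 1 [2] [] (Pf.cons (Pf.B 3 2 (Pf.C 5 259) (Pf.C 8 16643)) (Pf.cons (Pf.B 3 2 (Pf.C 12 33153) (Pf.W 58 1 [2,3] [] (Pf.cons (Pf.B 4 2 (Pf.C 5 260) (Pf.C 8 16644)) (Pf.cons (Pf.B 4 2 (Pf.C 12 33281) (Pf.C 68 0x604202)) (Pf.cons (Pf.C 32 33281) (Pf.cons (Pf.C 32 33281) Pf.nil)))))) (Pf.cons (Pf.C 32 33153) (Pf.cons (Pf.C 32 33153) Pf.nil))))))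
 (Pq.cons (Pq.L [] 1 (Pf.W 58 1 [2] [] (Pf.cons (Pf.B 3 2 (Pf.C 5 259) (Pf.C 8 16643)) (Pf.cons (Pf.B 3 2 (Pf.C 12 33153) (Pf.W 58 1 [2,3] [] (Pf.cons (Pf.B 4 2 (Pf.C 5 260) (Pf.C 8 16644)) (Pf.cons (Pf.B 4 2 (Pf.C 12 33281) (Pf.C 68 0x604202)) (Pf.cons (Pf.C 32 33281) (Pf.cons (Pf.C 32 33281) Pf.nil)))))) (Pf.cons (Pf.C 32 33153) (Pf.cons (Pf.C 32 33153) Pf.nil))))))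
 (Pq.cons (Pq.L [] 1 (Pf.W 58 1 [2] [] (Pf.cons (Pf.B 3 2 (Pf.C 5 259) (Pf.C 8 16643)) (Pf.cons (Pf.B 3 2 (Pf.C 12 33153) (Pf.W 58 1 [2,3] [] (Pf.cons (Pf.B 4 2 (Pf.C 5 260) (Pf.C 8 16644)) (Pf.cons (Pf.B 4 2 (Pf.C 12 33281) (Pf.C 68 0x604202)) (Pf.cons (Pf.C 32 33281) (Pf.cons (Pf.C 32 33281) Pf.nil)))))) (Pf.cons (Pf.C 32 33153) (Pf.cons (Pf.C 32 33153) Pf.nil))))))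
 (Pq.cons (Pq.L [] 1 (Pf.W 58 1 [2] [] (Pf.cons (Pf.B 3 2 (Pf.C 5 259) (Pf.C 8 16643)) (Pf.cons (Pf.B 3 2 (Pf.C 12 33153) (Pf.W 58 1 [2,3] [] (Pf.cons (Pf.B 4 2 (Pf.C 5 260) (Pf.C 8 16644)) (Pf.cons (Pf.B 4 2 (Pf.C 12 33281) (Pf.C 68 0x604202)) (Pf.cons (Pf.C 32 33281) (Pf.cons (Pf.C 32 33281) Pf.nil)))))) (Pf.cons (Pf.C 32 33153) (Pf.cons (Pf.C 32 33153) Pf.nil))))))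
 (Pq.cons (Pq.L [0] 1 (Pf.W 78 1 [] [0,2] (Pf.cons (Pf.B 3 2 (Pf.C 5 259) (Pf.C 8 16643)) (Pf.cons (Pf.B 3 2 (Pf.C 12 33153) (Pf.C 12 32771)) (Pf.cons (Pf.B 3 2 (Pf.C 12 33153) (Pf.C 12 32771)) Pf.nil)))))
 (Pq.cons (Pq.L [0] 1 (Pf.W 84 1 [] [0,2] (Pf.cons (Pf.B 3 2 (Pf.C 5 259) (Pf.C 8 16643)) (Pf.cons (Pf.B 3 2 (Pf.C 11 32771) (Pf.W 76 3 [] [0,2] (Pf.cons (Pf.B 4 2 (Pf.C 5 260) (Pf.C 8 49412)) (Pf.cons (Pf.B 4 2 (Pf.C 12 33283) (Pf.C 12 32772)) (Pf.cons (Pf.B 4 2 (Pf.C 12 33283) (Pf.C 12 32772)) Pf.nil))))) (Pf.cons (Pf.B 3 2 (Pf.C 11 32771) (Pf.W 78 3 [] [1,2] (Pf.cons (Pf.C 59 0x404203) (Pf.cons (Pf.C 59 0x404203) (Pf.cons (Pf.C 59 0x404203) Pf.nil))))) Pf.nil)))))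
 (Pq.cons (Pq.L [0] 1 (Pf.W 90 1 [] [0,2] (Pf.cons (Pf.B 3 2 (Pf.C 11 32771) (Pf.W 82 3 [] [0,1,2] (Pf.cons (Pf.B 4 2 (Pf.C 5 260) (Pf.C 8 49412)) (Pf.cons (Pf.B 4 2 (Pf.C 11 32772) (Pf.C 68 0x604202)) Pf.nil)))) (Pf.cons (Pf.B 3 2 (Pf.C 11 32771) (Pf.W 84 3 [] [1,2] (Pf.cons (Pf.C 59 0x404203) (Pf.cons (Pf.C 59 0x404203) (Pf.cons (Pf.C 59 0x404203) Pf.nil))))) Pf.nil))))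
 (Pq.cons (Pq.L [0] 1 (Pf.C 12 32769))
 (Pq.cons (Pq.L [] 1 (Pf.C 4 257))
 Pq.nil)))))))))))))))))))))))))))))))))))))))))))))))))))))))))))))))))))))))))))))))))))))))))))))))))))))))))
theorem h2_o38 : AllRef h2_T h2_G64 (closeObl (h2_T.sc.get 0) false [91,97,103,109,110,78,79,93,99,105,106,83,95,101,107,108,85,87,88,89,90] [0,0,0,0,0,0,1,3,3,3,3,3,3,3,3,3,3,4,5,5,5] [0] [3] 0x97baf) :=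
  chkPq_sound h2_o38c _ (by decide +kernel)
noncomputable def h2_o39c : Pq := (Pq.cons (Pq.L [0] 0 (Pf.B 2 1 (Pf.C 2 130) (Pf.C 8 130)))
 (Pq.cons (Pq.L [0] 1 (Pf.T 1 32 (Pf.cons (Pf.W 78 1 [] [0,2] (Pf.cons (Pf.B 3 2 (Pf.W 46 128 [] [2,3] (Pf.cons (Pf.B 4 3 (Pf.C 2 388) (Pf.C 8 388)) (Pf.cons (Pf.B 4 3 (Pf.C 2 388) (Pf.C 8 16772)) (Pf.cons (Pf.B 4 3 (Pf.B 4 2 (Pf.C 26 0x604104) (Pf.C 27 65793)) (Pf.C 9 515)) (Pf.cons (Pf.B 4 3 (Pf.B 4 2 (Pf.C 26 0x600104) (Pf.C 27 0x210100)) (Pf.C 9 16899)) (Pf.cons (Pf.B 4 3 (Pf.C 5 515) (Pf.C 8 388)) (Pf.cons (Pf.B 4 3 (Pf.C 5 515) (Pf.C 8 16772)) (Pf.cons (Pf.B 4 3 (Pf.C 5 515) (Pf.C 8 388)) (Pf.cons (Pf.B 4 3 (Pf.C 5 515) (Pf.C 8 16772)) Pf.nil))))))))) (Pf.C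 55 0x200103)) (Pf.cons (Pf.B 3 2 (Pf.C 27 0x20c002) (Pf.T 2 32 (Pf.cons (Pf.W 46 128 [] [2,3] (Pf.cons (Pf.B 4 2 (Pf.C 26 0x800082) (Pf.W 46 256 [] [1,4] (Pf.cons (Pf.B 5 4 (Pf.C 2 517) (Pf.C 8 517)) (Pf.cons (Pf.B 5 4 (Pf.C 2 517) (Pf.C 8 33285)) (Pf.cons (Pf.B 5 4 (Pf.B 5 1 (Pf.C 26 0x808085) (Pf.C 27 82050)) (Pf.C 9 644)) (Pf.cons (Pf.B 5 4 (Pf.B 5 1 (Pf.C 26 0x800085) (Pf.C 27 0x414080)) (Pf.C 9 33412)) (Pf.cons (Pf.B 5 4 (Pf.C 5 644) (Pf.C 8 517)) (Pf.cons (Pf.B 5 4 (Pf.C 5 644) (Pf.C 8 33285)) (Pf.cons (Pf.B 5 4 (Pf.C 5 644) (Pf.C 8 517)) (Pf.cons (Pf.B 5 4 (Pf.C 5 644) (Pf.C 8 33285)) Pf.nil)))))))))) (Pf.cons (Pf.B 4 2 (Pf.C 26 0x804002) (Pf.W 46 257 [] [0,4] (Pf.cons (Pf.B 5 4 (Pf.C 2 517)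 (Pf.C 8 16901)) (Pf.cons (Pf.B 5 4 (Pf.C 2 517) (Pf.C 8 33285)) (Pf.cons (Pf.B 5 4 (Pf.B 5 0 (Pf.C 26 0x808005) (Pf.C 27 0x214002)) (Pf.C 9 17028)) (Pf.cons (Pf.B 5 4 (Pf.B 5 0 (Pf.C 26 0x804005) (Pf.C 27 0x414001)) (Pf.C 9 33412)) (Pf.cons (Pf.B 5 4 (Pf.C 5 644) (Pf.C 8 16901)) (Pf.cons (Pf.B 5 4 (Pf.C 5 644) (Pf.C 8 33285)) (Pf.cons (Pf.B 5 4 (Pf.C 5 644) (Pf.C 8 16901)) (Pf.cons (Pf.B 5 4 (Pf.C 5 644) (Pf.C 8 33285)) Pf.nil)))))))))) (Pf.cons (Pf.B 4 3 (Pf.B 4 2 (Pf.C 27 0x20c104) (Pf.C 27 65793)) (Pf.C 24 0x200203)) (Pf.cons (Pf.B 4 3 (Pf.B 4 2 (Pf.C 27 49412) (Pf.C 27 0x210100)) (Pf.C 24 16899)) (Pf.cons (Pf.B 4 3 (Pf.C 12 65920) (Pf.C 12 65667)) (Pf.cons (Pf.B 4 3 (Pf.C 12 65921) (Pf.C 12 65539))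 (Pf.cons (Pf.B 4 3 (Pf.C 12 65920) (Pf.C 12 65667)) (Pf.cons (Pf.B 4 3 (Pf.C 12 65921) (Pf.C 12 65539)) Pf.nil))))))))) (Pf.cons (Pf.C 79 386) Pf.nil)))) (Pf.cons (Pf.B 3 2 (Pf.C 27 0x20c002) (Pf.C 59 0x200103)) Pf.nil)))) (Pf.cons (Pf.T 1 35 (Pf.cons (Pf.W 84 1 [] [0,2] (Pf.cons (Pf.B 3 2 (Pf.C 26 0x604002) (Pf.W 74 3 [] [1,2] (Pf.cons (Pf.C 55 0x404203) (Pf.cons (Pf.C 55 0x404203) Pf.nil)))) (Pf.cons (Pf.B 3 2 (Pf.W 76 3 [] [0,1,2] (Pf.cons (Pf.B 4 2 (Pf.B 4 1 (Pf.C 26 0x800101) (Pf.C 79 513)) (Pf.C 55 0x600104)) (Pf.cons (Pf.B 4 2 (Pf.C 27 0x610002) (Pf.B 4 1 (Pf.C 27 0x410001) (Pf.C 79 513))) (Pf.cons (Pf.B 4 2 (Pf.C 27 0x610002) (Pf.C 59 0x600104)) Pf.nil)))) (Pf.C 27 0x20c100)) (Pf.cons (Pf.B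 3 2 (Pf.W 78 3 [] [0,1,2] (Pf.cons (Pf.B 4 2 (Pf.B 4 1 (Pf.C 26 0x800101) (Pf.C 79 513)) (Pf.C 55 0x600104)) (Pf.cons (Pf.B 4 2 (Pf.C 27 0x610002) (Pf.B 4 1 (Pf.C 27 0x410001) (Pf.C 79 513))) (Pf.cons (Pf.B 4 2 (Pf.C 27 0x610002) (Pf.C 59 0x600104)) Pf.nil)))) (Pf.C 27 0x20c100)) Pf.nil)))) (Pf.cons (Pf.T 1 38 (Pf.cons (Pf.W 90 1 [] [0,2] (Pf.cons (Pf.B 3 2 (Pf.W 82 3 [] [0,1,2] (Pf.cons (Pf.B 4 2 (Pf.C 26 0x80c002) (Pf.B 4 1 (Pf.C 26 0x808001) (Pf.C 85 513))) (Pf.cons (Pf.B 4 1 (Pf.C 27 0x20c200) (Pf.C 85 513)) Pf.nil))) (Pf.C 27 0x20c100)) (Pf.cons (Pf.B 3 2 (Pf.W 84 3 [] [0,1,2] (Pf.cons (Pf.B 4 2 (Pf.C 26 0x80c002) (Pf.B 4 1 (Pf.C 26 0x808001) (Pf.C 85 513))) (Pf.cons (Pf.B 4 1 (Pf.C 27 0x20c200)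 (Pf.C 85 513)) (Pf.cons (Pf.B 4 1 (Pf.C 27 0x20c200) (Pf.C 85 513)) Pf.nil)))) (Pf.C 27 0x20c100)) Pf.nil))) Pf.nil)) Pf.nil))) Pf.nil))))
 (Pq.cons (Pq.L [] 7 (Pf.T 1 32 (Pf.cons (Pf.W 78 1 [] [2,3] (Pf.cons (Pf.C 59 0x608201) (Pf.cons (Pf.C 59 0x608201) (Pf.cons (Pf.C 59 0x608201) Pf.nil)))) (Pf.cons (Pf.T 1 35 (Pf.cons (Pf.W 84 1 [] [2,3] (Pf.cons (Pf.C 59 0x608201) (Pf.cons (Pf.C 59 0x608201) (Pf.cons (Pf.W 78 2 [] [1,3] (Pf.cons (Pf.C 59 0x604202) (Pf.cons (Pf.C 59 0x604202) (Pf.cons (Pf.C 59 0x604202) Pf.nil)))) (Pf.cons (Pf.W 78 3 [] [1,2] (Pf.cons (Pf.C 59 0x404203) (Pf.cons (Pf.C 59 0x404203) (Pf.cons (Pf.C 59 0x404203) Pf.nil)))) (Pf.cons (Pf.C 59 0x608201) Pf.nil)))))) (Pf.cons (Pf.T 1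 38 (Pf.cons (Pf.W 90 1 [] [2,3] (Pf.cons (Pf.C 59 0x608201) (Pf.cons (Pf.W 84 2 [] [1,3] (Pf.cons (Pf.C 59 0x604202) (Pf.cons (Pf.C 59 0x604202) (Pf.cons (Pf.C 85 385) (Pf.cons (Pf.C 59 0x604202) Pf.nil))))) (Pf.cons (Pf.W 84 3 [] [1,2] (Pf.cons (Pf.C 59 0x404203) (Pf.cons (Pf.C 59 0x404203) (Pf.cons (Pf.C 85 257) (Pf.cons (Pf.C 59 0x404203) Pf.nil))))) (Pf.cons (Pf.C 59 0x608201) Pf.nil))))) Pf.nil)) Pf.nil))) Pf.nil))))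
 (Pq.cons (Pq.L [0] 7 (Pf.W 46 257 [] [0,3] (Pf.cons (Pf.B 4 3 (Pf.C 26 0x804103) (Pf.W 46 385 [] [2,4] (Pf.cons (Pf.B 5 4 (Pf.C 2 517) (Pf.C 8 16901)) (Pf.cons (Pf.B 5 4 (Pf.C 2 517) (Pf.C 8 49669)) (Pf.cons (Pf.B 5 4 (Pf.B 5 2 (Pf.C 26 0x80c105) (Pf.C 27 0x214103)) (Pf.C 9 17028)) (Pf.cons (Pf.B 5 4 (Pf.B 5 2 (Pf.C 26 0x804105) (Pf.C 27 0x614101)) (Pf.C 9 49796)) (Pf.cons (Pf.B 5 4 (Pf.C 5 644) (Pf.C 8 16901)) (Pf.cons (Pf.B 5 4 (Pf.C 5 644) (Pf.C 8 49669)) (Pf.cons (Pf.B 5 4 (Pf.C 5 644) (Pf.C 8 16901)) (Pf.cons (Pf.B 5 4 (Pf.C 5 644) (Pf.C 8 49669)) Pf.nil)))))))))) (Pf.cons (Pf.B 4 3 (Pf.C 26 0x808083) (Pf.W 46 386 [] [1,4] (Pf.cons (Pf.B 5 4 (Pf.C 2 517) (Pf.C 8 33285)) (Pf.cons (Pf.B 5 4 (Pf.C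 2 517) (Pf.C 8 49669)) (Pf.cons (Pf.B 5 4 (Pf.B 5 1 (Pf.C 26 0x80c085) (Pf.C 27 0x414083)) (Pf.C 9 33412)) (Pf.cons (Pf.B 5 4 (Pf.B 5 1 (Pf.C 26 0x808085) (Pf.C 27 0x614082)) (Pf.C 9 49796)) (Pf.cons (Pf.B 5 4 (Pf.C 5 644) (Pf.C 8 33285)) (Pf.cons (Pf.B 5 4 (Pf.C 5 644) (Pf.C 8 49669)) (Pf.cons (Pf.B 5 4 (Pf.C 5 644) (Pf.C 8 33285)) (Pf.cons (Pf.B 5 4 (Pf.C 5 644) (Pf.C 8 49669)) Pf.nil)))))))))) (Pf.cons (Pf.B 4 3 (Pf.B 4 0 (Pf.C 27 0x600104) (Pf.C 24 0x404200)) (Pf.C 27 0x210182)) (Pf.cons (Pf.B 4 3 (Pf.B 4 0 (Pf.C 27 0x600084) (Pf.C 24 0x208200)) (Pf.C 27 0x410181)) (Pf.cons (Pf.B 4 0 (Pf.C 12 65537) (Pf.C 12 65792)) (Pf.cons (Pf.B 4 0 (Pf.C 12 65538) (Pf.C 12 65664)) (Pf.cons (Pf.B 4 0 (Pf.C 12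 65537) (Pf.C 12 65792)) (Pf.cons (Pf.B 4 0 (Pf.C 12 65538) (Pf.C 12 65664)) Pf.nil))))))))))
 (Pq.cons (Pq.L [0] 3 (Pf.C 59 0x608001))
 (Pq.cons (Pq.L [0] 0 (Pf.C 32 32896))
 Pq.nil))))))
theorem h2_o39 : AllRef h2_T h2_G65 (hitObl [78,84,85,89] h2_h79) :=
  chkPq_sound h2_o39c _ (by decide +kernel)
noncomputable def h2_o40c : Pq := (Pq.cons (Pq.L [] 0 (Pf.C 94 1))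
 (Pq.cons (Pq.L [] 0 (Pf.C 95 1))
 (Pq.cons (Pq.L [] 0 (Pf.C 96 1))
 (Pq.cons (Pq.L [] 0 (Pf.C 97 1))
 Pq.nil))))
theorem h2_o40 : AllRef h2_T h2_G66 (List.map pat1 [111,112,113,114]) :=
  chkPq_sound h2_o40c _ (by decide +kernel)
noncomputable def h2_o41c : Pq := (Pq.cons (Pq.L [] 4 (Pf.C 2 386))
 (Pq.cons (Pq.L [0] 7 (Pf.C 27 0x604100))
 (Pq.cons (Pq.L [0] 7 (Pf.C 27 0x604100))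
 (Pq.cons (Pq.L [0] 7 (Pf.C 27 0x604100))
 (Pq.cons (Pq.L [0] 7 (Pf.C 27 0x604100))
 (Pq.cons (Pq.L [] 4 (Pf.C 99 386))
 (Pq.cons (Pq.L [0] 7 (Pf.C 24 0x608001))
 (Pq.cons (Pq.L [0] 7 (Pf.C 24 0x608001))
 Pq.nil))))))))
theorem h2_o41 : AllRef h2_T h2_G68 (twinObl [77,115,116,83] 15 [14,9,1,9]) :=
  chkPq_sound h2_o41c _ (by decide +kernel)
noncomputable def h2_o42c : Pq := (Pq.cons (Pq.L [0] 1 (Pf.T 2 31 (Pf.cons (Pf.W 76 2 [] [0,1] (Pf.cons (Pf.B 3 1 (Pf.W 46 256 [] [1,3] (Pf.cons (Pf.B 4 3 (Pf.C 2 388) (Pf.C 8 388)) (Pf.cons (Pf.B 4 3 (Pf.C 2 388) (Pf.C 8 33156)) (Pf.cons (Pf.B 4 3 (Pf.B 4 1 (Pf.C 26 0x608084) (Pf.C 27 65666)) (Pf.C 9 515)) (Pf.cons (Pf.B 4 3 (Pf.B 4 1 (Pf.C 26 0x600084) (Pf.C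 27 0x410080)) (Pf.C 9 33283)) (Pf.cons (Pf.B 4 3 (Pf.C 5 515) (Pf.C 8 388)) (Pf.cons (Pf.B 4 3 (Pf.C 5 515) (Pf.C 8 33156)) (Pf.cons (Pf.B 4 3 (Pf.C 5 515) (Pf.C 8 388)) (Pf.cons (Pf.B 4 3 (Pf.C 5 515) (Pf.C 8 33156)) Pf.nil))))))))) (Pf.C 55 0x400083)) (Pf.cons (Pf.B 3 1 (Pf.C 27 0x40c001) (Pf.T 1 31 (Pf.cons (Pf.W 46 128 [] [2,3] (Pf.cons (Pf.B 4 2 (Pf.C 26 0x800082) (Pf.W 46 256 [] [1,4] (Pf.cons (Pf.B 5 4 (Pf.C 2 517) (Pf.C 8 517)) (Pf.cons (Pf.B 5 4 (Pf.C 2 517) (Pf.C 8 33285)) (Pf.cons (Pf.B 5 4 (Pf.B 5 1 (Pf.C 26 0x808085) (Pf.C 27 82050)) (Pf.C 9 644)) (Pf.cons (Pf.B 5 4 (Pf.B 5 1 (Pf.C 26 0x800085) (Pf.C 27 0x414080)) (Pf.C 9 33412)) (Pf.cons (Pf.B 5 4 (Pf.C 5 644) (Pf.C 8 517)) (Pf.cons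 (Pf.B 5 4 (Pf.C 5 644) (Pf.C 8 33285)) (Pf.cons (Pf.B 5 4 (Pf.C 5 644) (Pf.C 8 517)) (Pf.cons (Pf.B 5 4 (Pf.C 5 644) (Pf.C 8 33285)) Pf.nil)))))))))) (Pf.cons (Pf.B 4 2 (Pf.C 26 0x804002) (Pf.W 46 257 [] [0,4] (Pf.cons (Pf.B 5 4 (Pf.C 2 517) (Pf.C 8 16901)) (Pf.cons (Pf.B 5 4 (Pf.C 2 517) (Pf.C 8 33285)) (Pf.cons (Pf.B 5 4 (Pf.B 5 0 (Pf.C 26 0x808005) (Pf.C 27 0x214002)) (Pf.C 9 17028)) (Pf.cons (Pf.B 5 4 (Pf.B 5 0 (Pf.C 26 0x804005) (Pf.C 27 0x414001)) (Pf.C 9 33412)) (Pf.cons (Pf.B 5 4 (Pf.C 5 644) (Pf.C 8 16901)) (Pf.cons (Pf.B 5 4 (Pf.C 5 644) (Pf.C 8 33285)) (Pf.cons (Pf.B 5 4 (Pf.C 5 644) (Pf.C 8 16901)) (Pf.cons (Pf.B 5 4 (Pf.C 5 644) (Pf.C 8 33285)) Pf.nil)))))))))) (Pf.cons (Pf.B 4 3 (Pf.B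 4 2 (Pf.C 27 0x20c104) (Pf.C 27 65793)) (Pf.C 24 0x200203)) (Pf.cons (Pf.B 4 3 (Pf.B 4 2 (Pf.C 27 49412) (Pf.C 27 0x210100)) (Pf.C 24 16899)) (Pf.cons (Pf.B 4 3 (Pf.C 12 65920) (Pf.C 12 65667)) (Pf.cons (Pf.B 4 3 (Pf.C 12 65921) (Pf.C 12 65539)) (Pf.cons (Pf.B 4 3 (Pf.C 12 65920) (Pf.C 12 65667)) (Pf.cons (Pf.B 4 3 (Pf.C 12 65921) (Pf.C 12 65539)) Pf.nil))))))))) (Pf.cons (Pf.C 77 385) Pf.nil)))) (Pf.cons (Pf.B 3 1 (Pf.C 27 0x40c001) (Pf.C 59 0x400083)) Pf.nil)))) (Pf.cons (Pf.T 2 34 (Pf.cons (Pf.W 82 2 [] [0,1] (Pf.cons (Pf.B 3 1 (Pf.C 26 0x608001) (Pf.W 74 3 [] [1,2] (Pf.cons (Pf.C 55 0x404203) (Pf.cons (Pf.C 55 0x404203) Pf.nil)))) (Pf.cons (Pf.B 3 1 (Pf.W 76 3 [] [0,1,2] (Pf.cons (Pf.B 4 2 (Pf.B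 4 1 (Pf.C 26 0x800101) (Pf.C 55 0x600084)) (Pf.C 77 514)) (Pf.cons (Pf.B 4 2 (Pf.B 4 1 (Pf.C 27 0x40c201) (Pf.C 27 65666)) (Pf.C 77 514)) (Pf.cons (Pf.B 4 2 (Pf.B 4 1 (Pf.C 27 0x40c201) (Pf.C 27 65666)) (Pf.C 77 514)) Pf.nil)))) (Pf.C 27 0x40c080)) Pf.nil))) (Pf.cons (Pf.T 2 37 (Pf.cons (Pf.W 88 2 [] [0,1] (Pf.cons (Pf.B 3 1 (Pf.W 82 3 [] [0,1,2] (Pf.cons (Pf.B 4 2 (Pf.B 4 1 (Pf.C 26 0x80c001) (Pf.C 26 0x804100)) (Pf.C 83 514)) (Pf.cons (Pf.B 4 2 (Pf.C 27 0x40c200) (Pf.C 83 514)) Pf.nil))) (Pf.C 27 0x40c080)) Pf.nil)) Pf.nil)) Pf.nil))) Pf.nil))))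
 (Pq.cons (Pq.L [] 1 (Pf.C 100 257))
 Pq.nil))
theorem h2_o42 : AllRef h2_T h2_G70 (hitObl [118] h2_h85) :=
  chkPq_sound h2_o42c _ (by decide +kernel)
noncomputable def h2_o43c : Pq := (Pq.cons (Pq.L [] 0 (Pf.C 101 1))
 Pq.nil)
theorem h2_o43 : AllRef h2_T h2_G72 (List.map pat1 [121]) :=
  chkPq_sound h2_o43c _ (by decide +kernel)
noncomputable def h2_o44c : Pq := (Pq.cons (Pq.D 0 (Pq.cons (Pq.D 1 (Pq.cons (Pq.L [] 1 (Pf.C 2 257))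
 (Pq.cons (Pq.D 2 (Pq.cons (Pq.L [] 2 (Pf.C 2 385))
 (Pq.cons (Pq.D 3 (Pq.cons (Pq.L [] 4 (Pf.C 2 513))
 (Pq.cons (Pq.L [] 7 (Pf.B 4 3 (Pf.B 4 2 (Pf.B 3 2 (Pf.W 46 386 [] [1,4] (Pf.cons (Pf.B 5 1 (Pf.C 2 133) (Pf.C 8 32901)) (Pf.cons (Pf.B 5 1 (Pf.C 2 133) (Pf.C 8 49285)) (Pf.cons (Pf.B 5 4 (Pf.B 5 1 (Pf.W 46 515 [] [1,2,5] (Pf.cons (Pf.B 6 5 (Pf.C 26 0xc0c205) (Pf.B 6 2 (Pf.C 26 0xc0c202) (Pf.C 9 82182))) (Pf.cons (Pf.B 6 5 (Pf.C 26 0xc10185) (Pf.B 6 2 (Pf.C 26 0xc10182) (Pf.C 9 82182))) (Pf.cons (Pf.B 6 5 (Pf.B 6 1 (Pf.C 26 0x210286) (Pf.C 9 49921)) (Pf.C 27 0x618284)) (Pf.cons (Pf.B 6 5 (Pf.B 6 1 (Pf.C 26 0x20c286) (Pf.C 9 66305)) (Pf.C 27 0x818283)) (Pf.cons (Pf.B 6 5 (Pf.C 11 98821) (Pf.B 6 2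 (Pf.C 11 98818) (Pf.C 24 0x614106))) (Pf.cons (Pf.B 6 5 (Pf.C 11 98693) (Pf.B 6 2 (Pf.C 11 98690) (Pf.C 24 0x814106))) (Pf.cons (Pf.B 6 5 (Pf.C 11 98821) (Pf.B 6 2 (Pf.C 11 98818) (Pf.C 24 0x614106))) (Pf.cons (Pf.B 6 5 (Pf.C 11 98693) (Pf.B 6 2 (Pf.C 11 98690) (Pf.C 24 0x814106))) Pf.nil))))))))) (Pf.C 9 33409)) (Pf.C 27 0x414203)) (Pf.cons (Pf.B 5 4 (Pf.B 5 1 (Pf.W 46 514 [] [1,3,5] (Pf.cons (Pf.B 6 5 (Pf.C 26 0xc08205) (Pf.B 6 3 (Pf.C 26 0xc08203) (Pf.C 9 82310))) (Pf.cons (Pf.B 6 5 (Pf.C 26 0xc10105) (Pf.B 6 3 (Pf.C 26 0xc10103) (Pf.C 9 82310))) (Pf.cons (Pf.B 6 5 (Pf.B 6 1 (Pf.C 26 0x210286) (Pf.C 9 33537)) (Pf.C 27 0x418284)) (Pf.cons (Pf.B 6 5 (Pf.B 6 1 (Pf.C 26 0x208286) (Pf.C 9 66305)) (Pf.C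 27 0x818282)) (Pf.cons (Pf.B 6 5 (Pf.C 11 98821) (Pf.B 6 3 (Pf.C 11 98819) (Pf.C 24 0x414186))) (Pf.cons (Pf.B 6 5 (Pf.C 11 98565) (Pf.B 6 3 (Pf.C 11 98563) (Pf.C 24 0x814186))) (Pf.cons (Pf.B 6 5 (Pf.C 11 98821) (Pf.B 6 3 (Pf.C 11 98819) (Pf.C 24 0x414186))) (Pf.cons (Pf.B 6 5 (Pf.C 11 98565) (Pf.B 6 3 (Pf.C 11 98563) (Pf.C 24 0x814186))) Pf.nil))))))))) (Pf.C 9 49793)) (Pf.C 27 0x614202)) (Pf.cons (Pf.B 5 1 (Pf.C 5 641) (Pf.C 8 32901)) (Pf.cons (Pf.B 5 1 (Pf.C 5 641) (Pf.C 8 49285)) (Pf.cons (Pf.B 5 1 (Pf.C 5 641) (Pf.C 8 32901)) (Pf.cons (Pf.B 5 1 (Pf.C 5 641) (Pf.C 8 49285)) Pf.nil))))))))) (Pf.C 9 33153)) (Pf.C 9 33281)) (Pf.C 9 49665)))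
 (Pq.cons (Pq.L [] 7 (Pf.B 4 3 (Pf.B 4 2 (Pf.B 3 2 (Pf.W 46 386 [] [1,4] (Pf.cons (Pf.B 5 1 (Pf.C 2 133) (Pf.C 8 32901)) (Pf.cons (Pf.B 5 1 (Pf.C 2 133) (Pf.C 8 49285)) (Pf.cons (Pf.B 5 4 (Pf.B 5 1 (Pf.W 46 515 [] [1,2,5] (Pf.cons (Pf.B 6 5 (Pf.C 26 0xc0c205) (Pf.B 6 2 (Pf.C 26 0xc0c202) (Pf.C 9 82182))) (Pf.cons (Pf.B 6 5 (Pf.C 26 0xc10185) (Pf.B 6 2 (Pf.C 26 0xc10182) (Pf.C 9 82182))) (Pf.cons (Pf.B 6 5 (Pf.B 6 1 (Pf.C 26 0x210286) (Pf.C 9 49921)) (Pf.C 27 0x618284)) (Pf.cons (Pf.B 6 5 (Pf.B 6 1 (Pf.C 26 0x20c286) (Pf.C 9 66305)) (Pf.C 27 0x818283)) (Pf.cons (Pf.B 6 5 (Pf.C 11 98821) (Pf.B 6 2 (Pf.C 11 98818) (Pf.C 24 0x614106))) (Pf.cons (Pf.B 6 5 (Pf.C 11 98693) (Pf.B 6 2 (Pf.C 11 98690) (Pf.C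 24 0x814106))) (Pf.cons (Pf.B 6 5 (Pf.C 11 98821) (Pf.B 6 2 (Pf.C 11 98818) (Pf.C 24 0x614106))) (Pf.cons (Pf.B 6 5 (Pf.C 11 98693) (Pf.B 6 2 (Pf.C 11 98690) (Pf.C 24 0x814106))) Pf.nil))))))))) (Pf.C 9 33409)) (Pf.C 27 0x414203)) (Pf.cons (Pf.B 5 4 (Pf.B 5 1 (Pf.W 46 514 [] [1,3,5] (Pf.cons (Pf.B 6 5 (Pf.C 26 0xc08205) (Pf.B 6 3 (Pf.C 26 0xc08203) (Pf.C 9 82310))) (Pf.cons (Pf.B 6 5 (Pf.C 26 0xc10105) (Pf.B 6 3 (Pf.C 26 0xc10103) (Pf.C 9 82310))) (Pf.cons (Pf.B 6 5 (Pf.B 6 1 (Pf.C 26 0x210286) (Pf.C 9 33537)) (Pf.C 27 0x418284)) (Pf.cons (Pf.B 6 5 (Pf.B 6 1 (Pf.C 26 0x208286) (Pf.C 9 66305)) (Pf.C 27 0x818282)) (Pf.cons (Pf.B 6 5 (Pf.C 11 98821) (Pf.B 6 3 (Pf.C 11 98819) (Pf.C 24 0x414186))) (Pf.cons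 (Pf.B 6 5 (Pf.C 11 98565) (Pf.B 6 3 (Pf.C 11 98563) (Pf.C 24 0x814186))) (Pf.cons (Pf.B 6 5 (Pf.C 11 98821) (Pf.B 6 3 (Pf.C 11 98819) (Pf.C 24 0x414186))) (Pf.cons (Pf.B 6 5 (Pf.C 11 98565) (Pf.B 6 3 (Pf.C 11 98563) (Pf.C 24 0x814186))) Pf.nil))))))))) (Pf.C 9 49793)) (Pf.C 27 0x614202)) (Pf.cons (Pf.B 5 1 (Pf.C 5 641) (Pf.C 8 32901)) (Pf.cons (Pf.B 5 1 (Pf.C 5 641) (Pf.C 8 49285)) (Pf.cons (Pf.B 5 1 (Pf.C 5 641) (Pf.C 8 32901)) (Pf.cons (Pf.B 5 1 (Pf.C 5 641) (Pf.C 8 49285)) Pf.nil))))))))) (Pf.C 9 33153)) (Pf.C 9 33281)) (Pf.C 9 49665)))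
 Pq.nil)))) (Pq.cons (Pq.L [] 3 (Pf.B 3 2 (Pf.C 99 386) (Pf.C 9 33153)))
 Pq.nil)))) (Pq.cons (Pq.D 2 (Pq.cons (Pq.L [] 2 (Pf.C 2 385))
 (Pq.cons (Pq.L [] 3 (Pf.B 3 2 (Pf.C 99 259) (Pf.C 9 33153)))
 (Pq.cons (Pq.D 3 (Pq.cons (Pq.L [] 4 (Pf.C 2 513))
 (Pq.cons (Pq.L [] 7 (Pf.B 4 3 (Pf.B 4 2 (Pf.B 3 2 (Pf.W 46 386 [] [1,4] (Pf.cons (Pf.B 5 1 (Pf.C 2 133) (Pf.C 8 32901)) (Pf.cons (Pf.B 5 1 (Pf.C 2 133) (Pf.C 8 49285)) (Pf.cons (Pf.B 5 4 (Pf.B 5 1 (Pf.W 46 515 [] [1,2,5] (Pf.cons (Pf.B 6 5 (Pf.C 26 0xc0c205) (Pf.B 6 2 (Pf.C 26 0xc0c202) (Pf.C 9 82182))) (Pf.cons (Pf.B 6 5 (Pf.C 26 0xc10185) (Pf.B 6 2 (Pf.C 26 0xc10182) (Pf.C 9 82182))) (Pf.cons (Pf.B 6 5 (Pf.B 6 1 (Pf.C 26 0x210286) (Pf.C 9 49921)) (Pf.C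 27 0x618284)) (Pf.cons (Pf.B 6 5 (Pf.B 6 1 (Pf.C 26 0x20c286) (Pf.C 9 66305)) (Pf.C 27 0x818283)) (Pf.cons (Pf.B 6 5 (Pf.C 11 98821) (Pf.B 6 2 (Pf.C 11 98818) (Pf.C 24 0x614106))) (Pf.cons (Pf.B 6 5 (Pf.C 11 98693) (Pf.B 6 2 (Pf.C 11 98690) (Pf.C 24 0x814106))) (Pf.cons (Pf.B 6 5 (Pf.C 11 98821) (Pf.B 6 2 (Pf.C 11 98818) (Pf.C 24 0x614106))) (Pf.cons (Pf.B 6 5 (Pf.C 11 98693) (Pf.B 6 2 (Pf.C 11 98690) (Pf.C 24 0x814106))) Pf.nil))))))))) (Pf.C 9 33409)) (Pf.C 27 0x414203)) (Pf.cons (Pf.B 5 4 (Pf.B 5 1 (Pf.W 46 514 [] [1,3,5] (Pf.cons (Pf.B 6 5 (Pf.C 26 0xc08205) (Pf.B 6 3 (Pf.C 26 0xc08203) (Pf.C 9 82310))) (Pf.cons (Pf.B 6 5 (Pf.C 26 0xc10105) (Pf.B 6 3 (Pf.C 26 0xc10103) (Pf.C 9 82310))) (Pf.cons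 (Pf.B 6 5 (Pf.B 6 1 (Pf.C 26 0x210286) (Pf.C 9 33537)) (Pf.C 27 0x418284)) (Pf.cons (Pf.B 6 5 (Pf.B 6 1 (Pf.C 26 0x208286) (Pf.C 9 66305)) (Pf.C 27 0x818282)) (Pf.cons (Pf.B 6 5 (Pf.C 11 98821) (Pf.B 6 3 (Pf.C 11 98819) (Pf.C 24 0x414186))) (Pf.cons (Pf.B 6 5 (Pf.C 11 98565) (Pf.B 6 3 (Pf.C 11 98563) (Pf.C 24 0x814186))) (Pf.cons (Pf.B 6 5 (Pf.C 11 98821) (Pf.B 6 3 (Pf.C 11 98819) (Pf.C 24 0x414186))) (Pf.cons (Pf.B 6 5 (Pf.C 11 98565) (Pf.B 6 3 (Pf.C 11 98563) (Pf.C 24 0x814186))) Pf.nil))))))))) (Pf.C 9 49793)) (Pf.C 27 0x614202)) (Pf.cons (Pf.B 5 1 (Pf.C 5 641) (Pf.C 8 32901)) (Pf.cons (Pf.B 5 1 (Pf.C 5 641) (Pf.C 8 49285)) (Pf.cons (Pf.B 5 1 (Pf.C 5 641) (Pf.C 8 32901)) (Pf.cons (Pf.B 5 1 (Pf.C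 5 641) (Pf.C 8 49285)) Pf.nil))))))))) (Pf.C 9 33153)) (Pf.C 9 33281)) (Pf.C 9 49665)))
 (Pq.cons (Pq.L [] 7 (Pf.B 4 3 (Pf.B 4 2 (Pf.B 3 2 (Pf.W 46 386 [] [1,4] (Pf.cons (Pf.B 5 1 (Pf.C 2 133) (Pf.C 8 32901)) (Pf.cons (Pf.B 5 1 (Pf.C 2 133) (Pf.C 8 49285)) (Pf.cons (Pf.B 5 4 (Pf.B 5 1 (Pf.W 46 515 [] [1,2,5] (Pf.cons (Pf.B 6 5 (Pf.C 26 0xc0c205) (Pf.B 6 2 (Pf.C 26 0xc0c202) (Pf.C 9 82182))) (Pf.cons (Pf.B 6 5 (Pf.C 26 0xc10185) (Pf.B 6 2 (Pf.C 26 0xc10182) (Pf.C 9 82182))) (Pf.cons (Pf.B 6 5 (Pf.B 6 1 (Pf.C 26 0x210286) (Pf.C 9 49921)) (Pf.C 27 0x618284)) (Pf.cons (Pf.B 6 5 (Pf.B 6 1 (Pf.C 26 0x20c286) (Pf.C 9 66305)) (Pf.C 27 0x818283)) (Pf.cons (Pf.B 6 5 (Pf.C 11 98821) (Pf.B 6 2 (Pf.C 11 98818)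 (Pf.C 24 0x614106))) (Pf.cons (Pf.B 6 5 (Pf.C 11 98693) (Pf.B 6 2 (Pf.C 11 98690) (Pf.C 24 0x814106))) (Pf.cons (Pf.B 6 5 (Pf.C 11 98821) (Pf.B 6 2 (Pf.C 11 98818) (Pf.C 24 0x614106))) (Pf.cons (Pf.B 6 5 (Pf.C 11 98693) (Pf.B 6 2 (Pf.C 11 98690) (Pf.C 24 0x814106))) Pf.nil))))))))) (Pf.C 9 33409)) (Pf.C 27 0x414203)) (Pf.cons (Pf.B 5 4 (Pf.B 5 1 (Pf.W 46 514 [] [1,3,5] (Pf.cons (Pf.B 6 5 (Pf.C 26 0xc08205) (Pf.B 6 3 (Pf.C 26 0xc08203) (Pf.C 9 82310))) (Pf.cons (Pf.B 6 5 (Pf.C 26 0xc10105) (Pf.B 6 3 (Pf.C 26 0xc10103) (Pf.C 9 82310))) (Pf.cons (Pf.B 6 5 (Pf.B 6 1 (Pf.C 26 0x210286) (Pf.C 9 33537)) (Pf.C 27 0x418284)) (Pf.cons (Pf.B 6 5 (Pf.B 6 1 (Pf.C 26 0x208286) (Pf.C 9 66305)) (Pf.C 27 0x818282))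 (Pf.cons (Pf.B 6 5 (Pf.C 11 98821) (Pf.B 6 3 (Pf.C 11 98819) (Pf.C 24 0x414186))) (Pf.cons (Pf.B 6 5 (Pf.C 11 98565) (Pf.B 6 3 (Pf.C 11 98563) (Pf.C 24 0x814186))) (Pf.cons (Pf.B 6 5 (Pf.C 11 98821) (Pf.B 6 3 (Pf.C 11 98819) (Pf.C 24 0x414186))) (Pf.cons (Pf.B 6 5 (Pf.C 11 98565) (Pf.B 6 3 (Pf.C 11 98563) (Pf.C 24 0x814186))) Pf.nil))))))))) (Pf.C 9 49793)) (Pf.C 27 0x614202)) (Pf.cons (Pf.B 5 1 (Pf.C 5 641) (Pf.C 8 32901)) (Pf.cons (Pf.B 5 1 (Pf.C 5 641) (Pf.C 8 49285)) (Pf.cons (Pf.B 5 1 (Pf.C 5 641) (Pf.C 8 32901)) (Pf.cons (Pf.B 5 1 (Pf.C 5 641) (Pf.C 8 49285)) Pf.nil))))))))) (Pf.C 9 33153)) (Pf.C 9 33281)) (Pf.C 9 49665)))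
 Pq.nil)))) Pq.nil)))) Pq.nil)))) (Pq.cons (Pq.D 1 (Pq.cons (Pq.D 2 (Pq.cons (Pq.L [] 3 (Pf.B 3 2 (Pf.C 2 259) (Pf.C 8 16643)))
 (Pq.cons (Pq.D 3 (Pq.cons (Pq.L [] 5 (Pf.B 4 2 (Pf.C 2 260) (Pf.C 8 16644)))
 (Pq.cons (Pq.L [0] 7 (Pf.B 4 2 (Pf.C 26 0x404004) (Pf.B 3 2 (Pf.C 26 0x404003) (Pf.C 55 0x804182))))
 (Pq.cons (Pq.L [] 4 (Pf.C 99 513))
 Pq.nil)))) (Pq.cons (Pq.L [] 2 (Pf.C 99 385))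
 Pq.nil)))) (Pq.cons (Pq.D 2 (Pq.cons (Pq.D 3 (Pq.cons (Pq.L [] 6 (Pf.B 4 3 (Pf.C 2 388) (Pf.C 8 16772)))
 (Pq.cons (Pq.L [0] 7 (Pf.B 4 3 (Pf.C 26 0x604004) (Pf.B 3 2 (Pf.C 26 0x604002) (Pf.C 55 0x804103))))
 (Pq.cons (Pq.L [] 4 (Pf.C 99 513))
 Pq.nil)))) (Pq.cons (Pq.D 3 (Pq.cons (Pq.L [0] 7 (Pf.B 4 3 (Pf.C 26 0x804003) (Pf.B 4 2 (Pf.C 26 0x804002) (Pf.C 55 0x604104))))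
 (Pq.cons (Pq.L [0] 7 (Pf.B 4 3 (Pf.B 4 2 (Pf.B 3 2 (Pf.T 4 31 (Pf.cons (Pf.W 76 4 [] [0,1,2,3] (Pf.cons (Pf.B 5 3 (Pf.B 5 2 (Pf.C 26 0xa00182) (Pf.C 55 0x800105)) (Pf.C 55 0x800185)) (Pf.cons (Pf.B 5 3 (Pf.C 27 0x814003) (Pf.B 5 2 (Pf.C 27 0x614002) (Pf.B 5 1 (Pf.C 27 0x414001) (Pf.T 3 31 (Pf.cons (Pf.T 2 31 (Pf.cons (Pf.T 1 31 (Pf.cons (Pf.W 46 256 [] [1,3,4,5] (Pf.cons (Pf.B 6 3 (Pf.C 26 0xc00103) (Pf.W 46 384 [] [4,5,6] (Pf.cons (Pf.B 7 6 (Pf.C 2 775) (Pf.C 8 775)) (Pf.cons (Pf.B 7 6 (Pf.C 2 775) (Pf.C 8 49927)) (Pf.cons (Pf.B 7 5 (Pf.B 7 4 (Pf.C 27 0x614207) (Pf.C 27 0x1c203)) (Pf.C 24 0x600385)) (Pf.cons (Pf.B 7 5 (Pf.B 7 4 (Pf.C 27 82439) (Pf.C 27 0x61c200)) (Pf.C 24 50053)) (Pf.cons (Pf.B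 7 6 (Pf.C 5 902) (Pf.C 8 775)) (Pf.cons (Pf.B 7 6 (Pf.C 5 902) (Pf.C 8 49927)) (Pf.cons (Pf.B 7 6 (Pf.C 5 902) (Pf.C 8 775)) (Pf.cons (Pf.B 7 6 (Pf.C 5 902) (Pf.C 8 49927)) Pf.nil)))))))))) (Pf.cons (Pf.B 6 3 (Pf.C 26 0xc08003) (Pf.B 6 1 (Pf.C 26 0xc08001) (Pf.W 46 385 [] [4,5,6] (Pf.cons (Pf.B 7 6 (Pf.C 2 775) (Pf.C 8 17159)) (Pf.cons (Pf.B 7 6 (Pf.C 2 775) (Pf.C 8 49927)) (Pf.cons (Pf.B 7 5 (Pf.B 7 4 (Pf.C 27 0x614207) (Pf.C 27 0x21c203)) (Pf.C 24 0x604385)) (Pf.cons (Pf.B 7 5 (Pf.B 7 4 (Pf.C 27 0x214207) (Pf.C 27 0x61c201)) (Pf.C 24 0x20c385)) (Pf.cons (Pf.B 7 6 (Pf.C 5 902) (Pf.C 8 17159)) (Pf.cons (Pf.B 7 6 (Pf.C 5 902) (Pf.C 8 49927)) (Pf.cons (Pf.B 7 6 (Pf.C 5 902) (Pf.C 8 17159)) (Pf.cons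 (Pf.B 7 6 (Pf.C 5 902) (Pf.C 8 49927)) Pf.nil))))))))))) (Pf.cons (Pf.B 6 5 (Pf.B 6 4 (Pf.C 27 0x414206) (Pf.C 27 98818)) (Pf.C 24 0x400305)) (Pf.cons (Pf.B 6 5 (Pf.B 6 4 (Pf.C 27 82438) (Pf.C 27 0x418200)) (Pf.C 24 33541)) (Pf.cons (Pf.B 6 5 (Pf.C 12 98944) (Pf.C 12 98565)) (Pf.cons (Pf.B 6 5 (Pf.C 12 98946) (Pf.C 12 98309)) (Pf.cons (Pf.B 6 5 (Pf.C 12 98944) (Pf.C 12 98565)) (Pf.cons (Pf.B 6 5 (Pf.C 12 98946) (Pf.C 12 98309)) Pf.nil))))))))) (Pf.cons (Pf.C 77 641) Pf.nil))) (Pf.cons (Pf.C 77 642) Pf.nil))) (Pf.cons (Pf.C 77 643) Pf.nil)))))) (Pf.cons (Pf.B 5 3 (Pf.C 27 0x814003) (Pf.C 59 0x800185)) Pf.nil)))) (Pf.cons (Pf.T 4 34 (Pf.cons (Pf.W 82 4 [] [0,1,2,3] (Pf.cons (Pf.B 5 3 (Pf.C 26 0xa10003)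 (Pf.B 5 2 (Pf.C 26 0xa0c002) (Pf.C 55 0x80c105))) (Pf.cons (Pf.B 5 3 (Pf.B 5 2 (Pf.B 5 1 (Pf.W 76 5 [] [0,3,4] (Pf.cons (Pf.B 6 4 (Pf.B 6 3 (Pf.C 26 0xc00203) (Pf.C 55 0xa00186)) (Pf.C 77 772)) (Pf.cons (Pf.B 6 4 (Pf.B 6 3 (Pf.C 27 0x814303) (Pf.C 27 98692)) (Pf.C 77 772)) (Pf.cons (Pf.B 6 4 (Pf.B 6 3 (Pf.C 27 0x814303) (Pf.C 27 98692)) (Pf.C 77 772)) Pf.nil)))) (Pf.C 27 0x814080)) (Pf.C 27 0x814100)) (Pf.C 27 0x814180)) Pf.nil))) (Pf.cons (Pf.T 4 37 (Pf.cons (Pf.W 88 4 [] [0,1,2,3] (Pf.cons (Pf.B 5 3 (Pf.B 5 2 (Pf.B 5 1 (Pf.W 82 5 [] [0,3,4] (Pf.cons (Pf.B 6 4 (Pf.B 6 3 (Pf.C 26 0xc14003) (Pf.C 26 0xc0c200)) (Pf.C 83 772)) (Pf.cons (Pf.B 6 4 (Pf.C 27 0x814300) (Pf.C 83 772)) Pf.nil))) (Pf.C 27 0x814080))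 (Pf.C 27 0x814100)) (Pf.C 27 0x814180)) Pf.nil)) Pf.nil)) Pf.nil))) Pf.nil))) (Pf.T 4 31 (Pf.cons (Pf.W 76 4 [] [0,1,2,3] (Pf.cons (Pf.B 5 2 (Pf.B 5 1 (Pf.C 26 0xa00101) (Pf.C 55 0x800085)) (Pf.C 55 0x800105)) (Pf.cons (Pf.B 5 3 (Pf.C 27 0x814003) (Pf.B 5 2 (Pf.C 27 0x814002) (Pf.C 24 49413))) (Pf.cons (Pf.B 5 3 (Pf.C 27 0x814003) (Pf.C 59 0x800185)) Pf.nil)))) (Pf.cons (Pf.T 4 34 (Pf.cons (Pf.W 82 4 [] [0,1,2,3] (Pf.cons (Pf.B 5 3 (Pf.C 26 0xa10003) (Pf.B 5 2 (Pf.C 26 0xa10002) (Pf.C 9 49413))) (Pf.cons (Pf.B 5 3 (Pf.B 5 2 (Pf.B 5 1 (Pf.W 76 5 [] [0,3,4] (Pf.cons (Pf.B 6 4 (Pf.B 6 3 (Pf.C 26 0xc00203) (Pf.C 55 0xa00186)) (Pf.C 77 772)) (Pf.cons (Pf.B 6 4 (Pf.B 6 3 (Pf.C 27 0x814303) (Pf.C 27 98692))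 (Pf.C 77 772)) (Pf.cons (Pf.B 6 4 (Pf.B 6 3 (Pf.C 27 0x814303) (Pf.C 27 98692)) (Pf.C 77 772)) Pf.nil)))) (Pf.C 27 0x814080)) (Pf.C 27 0x608280)) (Pf.C 27 0x814180)) Pf.nil))) (Pf.cons (Pf.T 4 37 (Pf.cons (Pf.W 88 4 [] [0,1,2,3] (Pf.cons (Pf.B 5 3 (Pf.B 5 2 (Pf.B 5 1 (Pf.W 82 5 [] [0,3,4] (Pf.cons (Pf.B 6 4 (Pf.B 6 3 (Pf.C 26 0xc14003) (Pf.C 26 0xc0c200)) (Pf.C 83 772)) (Pf.cons (Pf.B 6 4 (Pf.C 27 0x814300) (Pf.C 83 772)) Pf.nil))) (Pf.C 27 0x814080)) (Pf.C 27 0x608280)) (Pf.C 27 0x814180)) Pf.nil)) Pf.nil)) Pf.nil))) Pf.nil)))) (Pf.B 3 2 (Pf.T 4 31 (Pf.cons (Pf.W 76 4 [] [0,2,3] (Pf.cons (Pf.B 5 3 (Pf.B 5 2 (Pf.C 26 0xa00182) (Pf.C 9 65797)) (Pf.C 55 0x800185)) (Pf.cons (Pf.B 5 3 (Pf.C 27 0x814003)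 (Pf.B 5 2 (Pf.C 27 0x614002) (Pf.C 24 65797))) (Pf.cons (Pf.B 5 3 (Pf.C 27 0x814003) (Pf.C 59 0x800185)) Pf.nil)))) (Pf.cons (Pf.T 4 34 (Pf.cons (Pf.W 82 4 [] [0,1,2,3] (Pf.cons (Pf.B 5 3 (Pf.C 26 0xa10003) (Pf.B 5 2 (Pf.C 26 0xa0c002) (Pf.C 9 65797))) (Pf.cons (Pf.W 76 2 [] [0,3,4] (Pf.cons (Pf.B 5 4 (Pf.B 5 3 (Pf.C 26 0xa00203) (Pf.C 55 0x400185)) (Pf.C 77 644)) (Pf.cons (Pf.B 5 4 (Pf.B 5 3 (Pf.C 27 0x808283) (Pf.C 27 82308)) (Pf.C 77 644)) (Pf.cons (Pf.B 5 4 (Pf.B 5 3 (Pf.C 27 0x808283) (Pf.C 27 82308)) (Pf.C 77 644)) Pf.nil)))) (Pf.cons (Pf.B 5 3 (Pf.B 5 2 (Pf.C 27 0x410280) (Pf.B 5 1 (Pf.W 76 5 [] [0,3,4] (Pf.cons (Pf.B 6 4 (Pf.B 6 3 (Pf.C 26 0xc00203) (Pf.C 55 0xa00186)) (Pf.C 77 772)) (Pf.cons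 (Pf.B 6 4 (Pf.B 6 3 (Pf.C 27 0x814303) (Pf.C 27 98692)) (Pf.C 77 772)) (Pf.cons (Pf.B 6 4 (Pf.B 6 3 (Pf.C 27 0x814303) (Pf.C 27 98692)) (Pf.C 77 772)) Pf.nil)))) (Pf.C 24 0x210105))) (Pf.C 27 0x814180)) Pf.nil)))) (Pf.cons (Pf.T 4 37 (Pf.cons (Pf.T 2 31 (Pf.cons (Pf.C 83 260) (Pf.cons (Pf.W 88 4 [] [0,1,2,3] (Pf.cons (Pf.W 82 2 [] [0,3,4] (Pf.cons (Pf.B 5 4 (Pf.B 5 3 (Pf.C 26 0xa08003) (Pf.C 26 0xa0c200)) (Pf.C 83 644)) (Pf.cons (Pf.B 5 4 (Pf.C 27 0x808280) (Pf.C 83 644)) Pf.nil))) (Pf.cons (Pf.B 5 3 (Pf.B 5 2 (Pf.C 27 0x410280) (Pf.B 5 1 (Pf.W 82 5 [] [0,3,4] (Pf.cons (Pf.B 6 4 (Pf.B 6 3 (Pf.C 26 0xc14003) (Pf.C 26 0xc0c200)) (Pf.C 83 772)) (Pf.cons (Pf.B 6 4 (Pf.C 27 0x814300) (Pf.C 83 772)) Pf.nil)))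 (Pf.C 24 0x210105))) (Pf.C 27 0x814180)) Pf.nil))) Pf.nil))) Pf.nil)) Pf.nil))) Pf.nil))) (Pf.C 27 0x808180))) (Pf.B 4 2 (Pf.B 3 2 (Pf.T 4 31 (Pf.cons (Pf.W 76 4 [] [0,2,3] (Pf.cons (Pf.B 5 3 (Pf.B 5 2 (Pf.C 26 0xa00182) (Pf.C 55 0x800105)) (Pf.C 9 65925)) (Pf.cons (Pf.B 5 3 (Pf.B 5 2 (Pf.C 27 0x610282) (Pf.C 27 82179)) (Pf.C 24 65925)) (Pf.cons (Pf.B 5 3 (Pf.B 5 2 (Pf.C 27 0x610282) (Pf.C 27 82179)) (Pf.C 24 65925)) Pf.nil)))) (Pf.cons (Pf.T 4 34 (Pf.cons (Pf.W 82 4 [] [0,1,2,3] (Pf.cons (Pf.B 5 3 (Pf.B 5 2 (Pf.C 26 0xa10002) (Pf.C 26 0xa08180)) (Pf.C 9 65925)) (Pf.cons (Pf.W 76 3 [] [0,2,4] (Pf.cons (Pf.B 5 4 (Pf.B 5 2 (Pf.C 26 0xa00202) (Pf.C 55 0x600105)) (Pf.C 77 644)) (Pf.cons (Pf.B 5 4 (Pf.B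 5 2 (Pf.C 27 0x80c282) (Pf.C 27 82180)) (Pf.C 77 644)) (Pf.cons (Pf.B 5 4 (Pf.B 5 2 (Pf.C 27 0x80c282) (Pf.C 27 82180)) (Pf.C 77 644)) Pf.nil)))) (Pf.cons (Pf.B 5 3 (Pf.C 27 0x610280) (Pf.B 5 2 (Pf.B 5 1 (Pf.W 76 5 [] [0,2,3,4] (Pf.cons (Pf.B 6 3 (Pf.B 6 2 (Pf.C 26 0xc00182) (Pf.C 55 0xa00106)) (Pf.C 9 82310)) (Pf.cons (Pf.B 6 4 (Pf.B 6 3 (Pf.C 24 0xc10185) (Pf.C 24 82310)) (Pf.C 77 772)) (Pf.cons (Pf.B 6 4 (Pf.B 6 3 (Pf.C 24 0xc10185) (Pf.C 24 82310)) (Pf.C 77 772)) Pf.nil)))) (Pf.C 24 0x210185)) (Pf.C 24 0x410185))) Pf.nil)))) (Pf.cons (Pf.T 4 37 (Pf.cons (Pf.T 3 31 (Pf.cons (Pf.C 83 388) (Pf.cons (Pf.W 88 4 [] [0,1,2,3] (Pf.cons (Pf.W 82 3 [] [0,2,4] (Pf.cons (Pf.B 5 4 (Pf.B 5 2 (Pf.C 26 0xa0c002)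 (Pf.C 26 0xa08200)) (Pf.C 83 644)) (Pf.cons (Pf.B 5 4 (Pf.C 27 0x80c280) (Pf.C 83 644)) Pf.nil))) (Pf.cons (Pf.B 5 3 (Pf.C 27 0x610280) (Pf.B 5 2 (Pf.B 5 1 (Pf.W 82 5 [] [0,2,3,4] (Pf.cons (Pf.B 6 3 (Pf.B 6 2 (Pf.C 26 0xc14002) (Pf.C 26 0xc08180)) (Pf.C 9 82310)) (Pf.cons (Pf.B 6 4 (Pf.C 27 0x814300) (Pf.C 83 772)) Pf.nil))) (Pf.C 24 0x210185)) (Pf.C 24 0x410185))) Pf.nil))) Pf.nil))) Pf.nil)) Pf.nil))) Pf.nil))) (Pf.C 27 0x80c100)) (Pf.B 3 2 (Pf.C 27 0x410180) (Pf.T 4 31 (Pf.cons (Pf.W 76 4 [] [0,1,2,3] (Pf.cons (Pf.B 5 2 (Pf.B 5 1 (Pf.C 26 0xa00101) (Pf.C 55 0x800085)) (Pf.C 9 65797)) (Pf.cons (Pf.B 5 3 (Pf.B 5 2 (Pf.C 24 0xa0c104) (Pf.C 24 65797)) (Pf.C 24 65925)) (Pf.cons (Pf.B 5 3 (Pf.B 5 2 (Pf.C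 24 0xa0c104) (Pf.C 24 65797)) (Pf.C 24 65925)) Pf.nil)))) (Pf.cons (Pf.T 4 34 (Pf.cons (Pf.W 82 4 [] [0,1,2,3] (Pf.cons (Pf.B 5 2 (Pf.B 5 1 (Pf.C 26 0xa10001) (Pf.C 26 0xa04100)) (Pf.C 9 65797)) (Pf.cons (Pf.W 76 2 [] [0,1,3,4] (Pf.cons (Pf.B 5 3 (Pf.B 5 1 (Pf.C 26 0xa00181) (Pf.C 55 0x400085)) (Pf.C 9 33157)) (Pf.cons (Pf.B 5 4 (Pf.B 5 3 (Pf.C 24 0xa10182) (Pf.C 24 33157)) (Pf.C 77 644)) (Pf.cons (Pf.B 5 4 (Pf.B 5 3 (Pf.C 24 0xa10182) (Pf.C 24 33157)) (Pf.C 77 644)) Pf.nil)))) (Pf.cons (Pf.W 76 3 [] [0,1,2,4] (Pf.cons (Pf.B 5 2 (Pf.B 5 1 (Pf.C 26 0xa00101) (Pf.C 55 0x600085)) (Pf.C 9 49413)) (Pf.cons (Pf.B 5 4 (Pf.B 5 2 (Pf.C 24 0xa10103) (Pf.C 24 49413)) (Pf.C 77 644)) (Pf.cons (Pf.B 5 4 (Pf.B 5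 2 (Pf.C 24 0xa10103) (Pf.C 24 49413)) (Pf.C 77 644)) Pf.nil)))) (Pf.cons (Pf.B 5 3 (Pf.C 27 0x610280) (Pf.B 5 2 (Pf.C 27 0x40c280) (Pf.B 5 1 (Pf.W 76 5 [] [0,1,2,3,4] (Pf.cons (Pf.B 6 2 (Pf.B 6 1 (Pf.C 26 0xc00101) (Pf.C 55 0xa00086)) (Pf.C 9 82182)) (Pf.cons (Pf.B 6 4 (Pf.B 6 3 (Pf.C 24 0xc10185) (Pf.C 24 82310)) (Pf.C 77 772)) (Pf.cons (Pf.B 6 4 (Pf.B 6 3 (Pf.C 24 0xc10185) (Pf.C 24 82310)) (Pf.C 77 772)) Pf.nil)))) (Pf.C 24 0x20c105)))) Pf.nil))))) (Pf.cons (Pf.T 4 37 (Pf.cons (Pf.T 3 31 (Pf.cons (Pf.C 83 388) (Pf.cons (Pf.T 2 31 (Pf.cons (Pf.C 83 260) (Pf.cons (Pf.W 88 4 [] [0,1,2,3] (Pf.cons (Pf.W 82 2 [] [0,1,3,4] (Pf.cons (Pf.B 5 3 (Pf.B 5 1 (Pf.C 26 0xa08001) (Pf.C 26 0xa04180)) (Pf.C 9 33157))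 (Pf.cons (Pf.B 5 4 (Pf.C 27 0x808280) (Pf.C 83 644)) Pf.nil))) (Pf.cons (Pf.W 82 3 [] [0,1,2,4] (Pf.cons (Pf.B 5 2 (Pf.B 5 1 (Pf.C 26 0xa0c001) (Pf.C 26 0xa04100)) (Pf.C 9 49413)) (Pf.cons (Pf.B 5 4 (Pf.C 27 0x80c280) (Pf.C 83 644)) Pf.nil))) (Pf.cons (Pf.B 5 3 (Pf.C 27 0x610280) (Pf.B 5 2 (Pf.C 27 0x40c280) (Pf.B 5 1 (Pf.W 82 5 [] [0,1,2,4] (Pf.cons (Pf.B 6 2 (Pf.B 6 1 (Pf.C 26 0xc14001) (Pf.C 26 0xc04100)) (Pf.C 9 82182)) (Pf.cons (Pf.B 6 4 (Pf.C 27 0x814300) (Pf.C 83 772)) Pf.nil))) (Pf.C 24 0x20c105)))) Pf.nil)))) Pf.nil))) Pf.nil))) Pf.nil)) Pf.nil))) Pf.nil)))))))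
 (Pq.cons (Pq.L [] 4 (Pf.C 99 513))
 Pq.nil)))) (Pq.cons (Pq.L [] 2 (Pf.C 99 385))
 Pq.nil)))) (Pq.cons (Pq.L [] 1 (Pf.C 99 257))
 Pq.nil)))) (Pq.cons (Pq.D 1 (Pq.cons (Pq.D 2 (Pq.cons (Pq.L [] 3 (Pf.B 3 2 (Pf.C 2 259) (Pf.C 8 16643)))
 (Pq.cons (Pq.L [] 2 (Pf.C 99 131))
 (Pq.cons (Pq.D 3 (Pq.cons (Pq.L [] 5 (Pf.B 4 2 (Pf.C 2 260) (Pf.C 8 16644)))
 (Pq.cons (Pq.L [] 4 (Pf.C 99 132))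
 (Pq.cons (Pq.L [0] 7 (Pf.B 4 3 (Pf.B 4 2 (Pf.B 3 2 (Pf.C 26 0x404203) (Pf.T 2 30 (Pf.cons (Pf.W 46 385 [] [2,4] (Pf.cons (Pf.B 5 2 (Pf.C 2 261) (Pf.C 8 16645)) (Pf.cons (Pf.B 5 2 (Pf.C 2 261) (Pf.C 8 49413)) (Pf.cons (Pf.B 5 4 (Pf.B 5 2 (Pf.C 26 0x40c205) (Pf.C 9 17026)) (Pf.C 27 0x214203)) (Pf.cons (Pf.B 5 4 (Pf.B 5 2 (Pf.C 26 0x404205) (Pf.C 9 49794)) (Pf.C 27 0x614201)) (Pf.cons (Pf.B 5 2 (Pf.C 5 642) (Pf.C 8 16645)) (Pf.cons (Pf.B 5 2 (Pf.C 5 642) (Pf.C 8 49413)) (Pf.cons (Pf.B 5 2 (Pf.C 5 642) (Pf.C 8 16645)) (Pf.cons (Pf.B 5 2 (Pf.C 5 642) (Pf.C 8 49413)) Pf.nil))))))))) (Pf.cons (Pf.C 75 130) Pf.nil)))) (Pf.B 3 2 (Pf.T 2 30 (Pf.cons (Pf.W 46 513 [] [2,3] (Pf.cons (Pf.B 5 2 (Pf.C 2 261) (Pf.C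 8 16645)) (Pf.cons (Pf.B 5 2 (Pf.C 2 261) (Pf.C 8 65797)) (Pf.cons (Pf.B 5 3 (Pf.B 5 2 (Pf.C 26 0x410185) (Pf.C 9 17026)) (Pf.C 27 0x214184)) (Pf.cons (Pf.B 5 3 (Pf.B 5 2 (Pf.C 26 0x404185) (Pf.C 9 66178)) (Pf.C 27 0x814181)) (Pf.cons (Pf.B 5 2 (Pf.C 5 642) (Pf.C 8 16645)) (Pf.cons (Pf.B 5 2 (Pf.C 5 642) (Pf.C 8 65797)) (Pf.cons (Pf.B 5 2 (Pf.C 5 642) (Pf.C 8 16645)) (Pf.cons (Pf.B 5 2 (Pf.C 5 642) (Pf.C 8 65797)) Pf.nil))))))))) (Pf.cons (Pf.C 75 130) Pf.nil))) (Pf.C 55 0x804182))) (Pf.C 24 0x20c200)))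
 Pq.nil)))) Pq.nil)))) (Pq.cons (Pq.L [] 1 (Pf.C 99 130))
 (Pq.cons (Pq.D 2 (Pq.cons (Pq.D 3 (Pq.cons (Pq.L [] 6 (Pf.B 4 3 (Pf.C 2 388) (Pf.C 8 16772)))
 (Pq.cons (Pq.L [] 4 (Pf.C 99 132))
 (Pq.cons (Pq.L [0] 7 (Pf.B 4 2 (Pf.B 4 3 (Pf.B 3 2 (Pf.C 26 0x604202) (Pf.T 3 30 (Pf.cons (Pf.W 46 257 [] [3,4] (Pf.cons (Pf.B 5 3 (Pf.C 2 389) (Pf.C 8 16773)) (Pf.cons (Pf.B 5 3 (Pf.C 2 389) (Pf.C 8 33157)) (Pf.cons (Pf.B 5 4 (Pf.B 5 3 (Pf.C 26 0x608205) (Pf.C 9 17027)) (Pf.C 27 0x214202)) (Pf.cons (Pf.B 5 4 (Pf.B 5 3 (Pf.C 26 0x604205) (Pf.C 9 33411)) (Pf.C 27 0x414201)) (Pf.cons (Pf.B 5 3 (Pf.C 5 643) (Pf.C 8 16773)) (Pf.cons (Pf.B 5 3 (Pf.C 5 643) (Pf.C 8 33157)) (Pf.cons (Pf.B 5 3 (Pf.C 5 643) (Pf.C 8 16773))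 (Pf.cons (Pf.B 5 3 (Pf.C 5 643) (Pf.C 8 33157)) Pf.nil))))))))) (Pf.cons (Pf.C 75 131) Pf.nil)))) (Pf.B 3 2 (Pf.T 3 30 (Pf.cons (Pf.W 46 513 [] [2,3] (Pf.cons (Pf.B 5 3 (Pf.C 2 389) (Pf.C 8 16773)) (Pf.cons (Pf.B 5 3 (Pf.C 2 389) (Pf.C 8 65925)) (Pf.cons (Pf.B 5 3 (Pf.B 5 2 (Pf.C 26 0x610105) (Pf.C 27 0x214104)) (Pf.C 9 17027)) (Pf.cons (Pf.B 5 3 (Pf.B 5 2 (Pf.C 26 0x604105) (Pf.C 27 0x814101)) (Pf.C 9 66179)) (Pf.cons (Pf.B 5 3 (Pf.C 5 643) (Pf.C 8 16773)) (Pf.cons (Pf.B 5 3 (Pf.C 5 643) (Pf.C 8 65925)) (Pf.cons (Pf.B 5 3 (Pf.C 5 643) (Pf.C 8 16773)) (Pf.cons (Pf.B 5 3 (Pf.C 5 643) (Pf.C 8 65925)) Pf.nil))))))))) (Pf.cons (Pf.C 75 131) Pf.nil))) (Pf.C 55 0x804103))) (Pf.C 24 0x208200)))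
 Pq.nil)))) (Pq.cons (Pq.L [] 2 (Pf.C 99 131))
 (Pq.cons (Pq.D 3 (Pq.cons (Pq.L [0] 7 (Pf.B 3 2 (Pf.B 4 3 (Pf.B 4 2 (Pf.C 26 0x804182) (Pf.T 4 30 (Pf.cons (Pf.W 46 257 [] [3,4] (Pf.cons (Pf.B 5 4 (Pf.C 2 517) (Pf.C 8 16901)) (Pf.cons (Pf.B 5 4 (Pf.C 2 517) (Pf.C 8 33285)) (Pf.cons (Pf.B 5 4 (Pf.B 5 3 (Pf.C 26 0x808185) (Pf.C 27 0x214182)) (Pf.C 9 17028)) (Pf.cons (Pf.B 5 4 (Pf.B 5 3 (Pf.C 26 0x804185) (Pf.C 27 0x414181)) (Pf.C 9 33412)) (Pf.cons (Pf.B 5 4 (Pf.C 5 644) (Pf.C 8 16901)) (Pf.cons (Pf.B 5 4 (Pf.C 5 644) (Pf.C 8 33285)) (Pf.cons (Pf.B 5 4 (Pf.C 5 644) (Pf.C 8 16901)) (Pf.cons (Pf.B 5 4 (Pf.C 5 644) (Pf.C 8 33285)) Pf.nil))))))))) (Pf.cons (Pf.C 75 132) Pf.nil)))) (Pf.B 4 2 (Pf.T 4 30 (Pf.cons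 (Pf.W 46 385 [] [2,4] (Pf.cons (Pf.B 5 4 (Pf.C 2 517) (Pf.C 8 16901)) (Pf.cons (Pf.B 5 4 (Pf.C 2 517) (Pf.C 8 49669)) (Pf.cons (Pf.B 5 4 (Pf.B 5 2 (Pf.C 26 0x80c105) (Pf.C 27 0x214103)) (Pf.C 9 17028)) (Pf.cons (Pf.B 5 4 (Pf.B 5 2 (Pf.C 26 0x804105) (Pf.C 27 0x614101)) (Pf.C 9 49796)) (Pf.cons (Pf.B 5 4 (Pf.C 5 644) (Pf.C 8 16901)) (Pf.cons (Pf.B 5 4 (Pf.C 5 644) (Pf.C 8 49669)) (Pf.cons (Pf.B 5 4 (Pf.C 5 644) (Pf.C 8 16901)) (Pf.cons (Pf.B 5 4 (Pf.C 5 644) (Pf.C 8 49669)) Pf.nil))))))))) (Pf.cons (Pf.C 75 132) Pf.nil))) (Pf.C 55 0x604104))) (Pf.C 24 0x208180)))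
 (Pq.cons (Pq.L [] 4 (Pf.C 99 132))
 (Pq.cons (Pq.L [0] 7 (Pf.B 4 3 (Pf.B 4 2 (Pf.B 3 2 (Pf.W 46 257 [] [0,3] (Pf.cons (Pf.B 5 3 (Pf.C 26 0xa04103) (Pf.W 46 385 [] [2,5] (Pf.cons (Pf.B 6 5 (Pf.C 2 646) (Pf.C 8 17030)) (Pf.cons (Pf.B 6 5 (Pf.C 2 646) (Pf.C 8 49798)) (Pf.cons (Pf.B 6 5 (Pf.B 6 2 (Pf.C 26 0xa0c106) (Pf.C 27 0x218103)) (Pf.C 9 17157)) (Pf.cons (Pf.B 6 5 (Pf.B 6 2 (Pf.C 26 0xa04106) (Pf.C 27 0x618101)) (Pf.C 9 49925)) (Pf.cons (Pf.B 6 5 (Pf.C 5 773) (Pf.C 8 17030)) (Pf.cons (Pf.B 6 5 (Pf.C 5 773) (Pf.C 8 49798)) (Pf.cons (Pf.B 6 5 (Pf.C 5 773) (Pf.C 8 17030)) (Pf.cons (Pf.B 6 5 (Pf.C 5 773) (Pf.C 8 49798)) Pf.nil)))))))))) (Pf.cons (Pf.B 5 3 (Pf.C 26 0xa08083) (Pf.W 46 386 [] [1,5] (Pf.cons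 (Pf.B 6 5 (Pf.C 2 646) (Pf.C 8 33414)) (Pf.cons (Pf.B 6 5 (Pf.C 2 646) (Pf.C 8 49798)) (Pf.cons (Pf.B 6 5 (Pf.B 6 1 (Pf.C 26 0xa0c086) (Pf.C 27 0x418083)) (Pf.C 9 33541)) (Pf.cons (Pf.B 6 5 (Pf.B 6 1 (Pf.C 26 0xa08086) (Pf.C 27 0x618082)) (Pf.C 9 49925)) (Pf.cons (Pf.B 6 5 (Pf.C 5 773) (Pf.C 8 33414)) (Pf.cons (Pf.B 6 5 (Pf.C 5 773) (Pf.C 8 49798)) (Pf.cons (Pf.B 6 5 (Pf.C 5 773) (Pf.C 8 33414)) (Pf.cons (Pf.B 6 5 (Pf.C 5 773) (Pf.C 8 49798)) Pf.nil)))))))))) (Pf.cons (Pf.B 5 3 (Pf.B 5 0 (Pf.C 27 0x600105) (Pf.C 24 0x404280)) (Pf.C 27 0x214182)) (Pf.cons (Pf.B 5 3 (Pf.B 5 0 (Pf.C 27 0x600085) (Pf.C 24 0x208280)) (Pf.C 27 0x414181)) (Pf.cons (Pf.B 5 0 (Pf.C 12 81921) (Pf.C 12 82176)) (Pf.cons (Pf.B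 5 0 (Pf.C 12 81922) (Pf.C 12 82048)) (Pf.cons (Pf.B 5 0 (Pf.C 12 81921) (Pf.C 12 82176)) (Pf.cons (Pf.B 5 0 (Pf.C 12 81922) (Pf.C 12 82048)) Pf.nil))))))))) (Pf.C 24 0x208180)) (Pf.C 24 0x208200)) (Pf.C 24 0x20c200)))
 Pq.nil)))) Pq.nil)))) Pq.nil)))) Pq.nil)))) Pq.nil)
theorem h2_o44 : AllRef h2_T h2_G73 (applyObl TD2 1 [117,119,120] [0,0,0] [(117,0x200000000000000000000000000000),(119,0x1800000000000000000000000000000),(120,0x1800000000000000000000000000000)]) :=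
  chkPq_sound h2_o44c _ (by decide +kernel)
noncomputable def h2_o45c : Pq := Pq.nil
theorem h2_o45 : AllRef h2_T h2_G71 (ptObl 118 PT.kid []) :=
  chkPq_sound h2_o45c _ (by decide +kernel)
noncomputable def h2_o46c : Pq := (Pq.cons (Pq.L [0,1,2] 0 (Pf.B 3 2 (Pf.T 3 31 (Pf.cons (Pf.T 2 31 (Pf.cons (Pf.W 76 2 [] [0,1,3] (Pf.cons (Pf.B 4 3 (Pf.B 4 1 (Pf.C 26 0x800181) (Pf.C 9 32900)) (Pf.C 55 0x400184)) (Pf.cons (Pf.B 4 3 (Pf.C 99 515) (Pf.B 4 1 (Pf.C 27 0x610001) (Pf.C 24 32900))) (Pf.cons (Pf.B 4 3 (Pf.C 27 0x410003) (Pf.C 59 0x400184)) Pf.nil)))) (Pf.cons (Pf.T 2 34 (Pf.cons (Pf.W 98 2 [] [0,3] (Pf.cons (Pf.B 4 3 (Pf.C 99 515) (Pf.C 27 65922)) Pf.nil)) (Pf.cons (Pf.T 2 37 (Pf.cons (Pf.W 98 2 [] [0,3]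 (Pf.cons (Pf.B 4 3 (Pf.C 99 515) (Pf.C 27 65922)) Pf.nil)) Pf.nil)) Pf.nil))) Pf.nil))) (Pf.cons (Pf.T 3 34 (Pf.cons (Pf.T 2 31 (Pf.cons (Pf.W 76 2 [] [0,1,3] (Pf.cons (Pf.B 4 3 (Pf.B 4 1 (Pf.C 26 0x800181) (Pf.C 9 32900)) (Pf.C 77 515)) (Pf.cons (Pf.B 4 3 (Pf.C 99 515) (Pf.C 77 515)) (Pf.cons (Pf.B 4 3 (Pf.C 27 0x410003) (Pf.C 77 515)) Pf.nil)))) (Pf.cons (Pf.T 2 34 (Pf.cons (Pf.W 98 2 [] [3] (Pf.cons (Pf.B 4 3 (Pf.C 99 515) (Pf.C 77 515)) Pf.nil)) (Pf.cons (Pf.T 2 37 (Pf.cons (Pf.W 98 2 [] [3] (Pf.cons (Pf.B 4 3 (Pf.C 99 515) (Pf.C 77 515)) Pf.nil)) Pf.nil)) Pf.nil))) Pf.nil))) (Pf.cons (Pf.T 3 37 (Pf.cons (Pf.T 2 31 (Pf.cons (Pf.W 76 2 [] [0,1,3] (Pf.cons (Pf.B 4 3 (Pf.B 4 1 (Pf.C 26 0x800181)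 (Pf.C 9 32900)) (Pf.C 77 515)) (Pf.cons (Pf.B 4 3 (Pf.C 99 515) (Pf.C 77 515)) (Pf.cons (Pf.B 4 3 (Pf.C 27 0x410003) (Pf.C 77 515)) Pf.nil)))) (Pf.cons (Pf.T 2 34 (Pf.cons (Pf.W 98 2 [] [3] (Pf.cons (Pf.B 4 3 (Pf.C 99 515) (Pf.C 77 515)) Pf.nil)) (Pf.cons (Pf.T 2 37 (Pf.cons (Pf.W 98 2 [] [3] (Pf.cons (Pf.B 4 3 (Pf.C 99 515) (Pf.C 77 515)) Pf.nil)) Pf.nil)) Pf.nil))) Pf.nil))) Pf.nil)) Pf.nil))) Pf.nil))) (Pf.C 27 0x208180)))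
 (Pq.cons (Pq.L [0,1,2] 0 (Pf.C 27 0x404180))
 Pq.nil))
theorem h2_o46 : AllRef h2_T h2_G74 (ptObl 119 (PT.br 1 PT.ref (PT.br 2 PT.ref PT.kid)) []) :=
  chkPq_sound h2_o46c _ (by decide +kernel)
noncomputable def h2_o47c : Pq := (Pq.cons (Pq.L [0,1,2] 0 (Pf.W 98 2 [] [0,1,3] (Pf.cons (Pf.B 4 3 (Pf.C 99 515) (Pf.B 4 1 (Pf.C 24 0x808083) (Pf.C 24 49284))) Pf.nil)))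
 Pq.nil)
theorem h2_o47 : AllRef h2_T h2_G75 (List.map pat1 [123]) :=
  chkPq_sound h2_o47c _ (by decide +kernel)
noncomputable def h2_o48c : Pq := (Pq.cons (Pq.D 1 (Pq.cons (Pq.L [] 1 (Pf.C 2 515))
 (Pq.cons (Pq.D 2 (Pq.cons (Pq.L [] 2 (Pf.C 2 643))
 (Pq.cons (Pq.L [0,2] 3 (Pf.B 5 4 (Pf.B 3 2 (Pf.B 5 2 (Pf.C 26 0x614002) (Pf.B 4 2 (Pf.C 26 0x610002) (Pf.C 27 0xa08200))) (Pf.C 55 0xa10103)) (Pf.C 9 66179)))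
 (Pq.cons (Pq.D 3 (Pq.cons (Pq.L [] 4 (Pf.C 2 771))
 (Pq.cons (Pq.L [] 7 (Pf.B 6 5 (Pf.B 6 4 (Pf.B 5 4 (Pf.W 46 644 [] [3,6] (Pf.cons (Pf.B 7 3 (Pf.C 2 391) (Pf.C 8 65927)) (Pf.cons (Pf.B 7 3 (Pf.C 2 391) (Pf.C 8 82311)) (Pf.cons (Pf.B 7 6 (Pf.B 7 3 (Pf.W 46 773 [] [3,4,7] (Pf.cons (Pf.B 8 7 (Pf.C 26 0x1014307) (Pf.B 8 4 (Pf.C 26 0x1014304) (Pf.C 9 0x1c208))) (Pf.cons (Pf.B 8 7 (Pf.C 26 0x1018287) (Pf.B 8 4 (Pf.C 26 0x1018284) (Pf.C 9 0x1c208))) (Pf.cons (Pf.B 8 7 (Pf.B 8 3 (Pf.C 26 0x618388) (Pf.C 9 82947)) (Pf.C 27 0xa20386)) (Pf.cons (Pf.B 8 7 (Pf.B 8 3 (Pf.C 26 0x614388) (Pf.C 9 99331)) (Pf.C 27 0xc20385)) (Pf.cons (Pf.B 8 7 (Pf.C 11 0x20307) (Pf.B 8 4 (Pf.C 11 0x20304) (Pf.C 24 0xa1c208))) (Pf.cons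 (Pf.B 8 7 (Pf.C 11 0x20287) (Pf.B 8 4 (Pf.C 11 0x20284) (Pf.C 24 0xc1c208))) (Pf.cons (Pf.B 8 7 (Pf.C 11 0x20307) (Pf.B 8 4 (Pf.C 11 0x20304) (Pf.C 24 0xa1c208))) (Pf.cons (Pf.B 8 7 (Pf.C 11 0x20287) (Pf.B 8 4 (Pf.C 11 0x20284) (Pf.C 24 0xc1c208))) Pf.nil))))))))) (Pf.C 9 66435)) (Pf.C 27 0x81c305)) (Pf.cons (Pf.B 7 6 (Pf.B 7 3 (Pf.W 46 772 [] [3,5,7] (Pf.cons (Pf.B 8 7 (Pf.C 26 0x1010307) (Pf.B 8 5 (Pf.C 26 0x1010305) (Pf.C 9 0x1c288))) (Pf.cons (Pf.B 8 7 (Pf.C 26 0x1018207) (Pf.B 8 5 (Pf.C 26 0x1018205) (Pf.C 9 0x1c288))) (Pf.cons (Pf.B 8 7 (Pf.B 8 3 (Pf.C 26 0x618388) (Pf.C 9 66563)) (Pf.C 27 0x820386)) (Pf.cons (Pf.B 8 7 (Pf.B 8 3 (Pf.C 26 0x610388) (Pf.C 9 99331)) (Pf.C 27 0xc20384)) (Pf.cons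 (Pf.B 8 7 (Pf.C 11 0x20307) (Pf.B 8 5 (Pf.C 11 0x20305) (Pf.C 24 0x81c288))) (Pf.cons (Pf.B 8 7 (Pf.C 11 0x20207) (Pf.B 8 5 (Pf.C 11 0x20205) (Pf.C 24 0xc1c288))) (Pf.cons (Pf.B 8 7 (Pf.C 11 0x20307) (Pf.B 8 5 (Pf.C 11 0x20305) (Pf.C 24 0x81c288))) (Pf.cons (Pf.B 8 7 (Pf.C 11 0x20207) (Pf.B 8 5 (Pf.C 11 0x20205) (Pf.C 24 0xc1c288))) Pf.nil))))))))) (Pf.C 9 82819)) (Pf.C 27 0xa1c304)) (Pf.cons (Pf.B 7 3 (Pf.C 5 899) (Pf.C 8 65927)) (Pf.cons (Pf.B 7 3 (Pf.C 5 899) (Pf.C 8 82311)) (Pf.cons (Pf.B 7 3 (Pf.C 5 899) (Pf.C 8 65927)) (Pf.cons (Pf.B 7 3 (Pf.C 5 899) (Pf.C 8 82311)) Pf.nil))))))))) (Pf.C 9 66179)) (Pf.C 9 66307)) (Pf.C 9 82691)))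
 (Pq.cons (Pq.L [] 7 (Pf.B 6 5 (Pf.B 6 4 (Pf.B 5 4 (Pf.W 46 644 [] [3,6] (Pf.cons (Pf.B 7 3 (Pf.C 2 391) (Pf.C 8 65927)) (Pf.cons (Pf.B 7 3 (Pf.C 2 391) (Pf.C 8 82311)) (Pf.cons (Pf.B 7 6 (Pf.B 7 3 (Pf.W 46 773 [] [3,4,7] (Pf.cons (Pf.B 8 7 (Pf.C 26 0x1014307) (Pf.B 8 4 (Pf.C 26 0x1014304) (Pf.C 9 0x1c208))) (Pf.cons (Pf.B 8 7 (Pf.C 26 0x1018287) (Pf.B 8 4 (Pf.C 26 0x1018284) (Pf.C 9 0x1c208))) (Pf.cons (Pf.B 8 7 (Pf.B 8 3 (Pf.C 26 0x618388) (Pf.C 9 82947)) (Pf.C 27 0xa20386)) (Pf.cons (Pf.B 8 7 (Pf.B 8 3 (Pf.C 26 0x614388) (Pf.C 9 99331)) (Pf.C 27 0xc20385)) (Pf.cons (Pf.B 8 7 (Pf.C 11 0x20307) (Pf.B 8 4 (Pf.C 11 0x20304) (Pf.C 24 0xa1c208))) (Pf.cons (Pf.B 8 7 (Pf.C 11 0x20287) (Pf.B 8 4 (Pf.C 11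 0x20284) (Pf.C 24 0xc1c208))) (Pf.cons (Pf.B 8 7 (Pf.C 11 0x20307) (Pf.B 8 4 (Pf.C 11 0x20304) (Pf.C 24 0xa1c208))) (Pf.cons (Pf.B 8 7 (Pf.C 11 0x20287) (Pf.B 8 4 (Pf.C 11 0x20284) (Pf.C 24 0xc1c208))) Pf.nil))))))))) (Pf.C 9 66435)) (Pf.C 27 0x81c305)) (Pf.cons (Pf.B 7 6 (Pf.B 7 3 (Pf.W 46 772 [] [3,5,7] (Pf.cons (Pf.B 8 7 (Pf.C 26 0x1010307) (Pf.B 8 5 (Pf.C 26 0x1010305) (Pf.C 9 0x1c288))) (Pf.cons (Pf.B 8 7 (Pf.C 26 0x1018207) (Pf.B 8 5 (Pf.C 26 0x1018205) (Pf.C 9 0x1c288))) (Pf.cons (Pf.B 8 7 (Pf.B 8 3 (Pf.C 26 0x618388) (Pf.C 9 66563)) (Pf.C 27 0x820386)) (Pf.cons (Pf.B 8 7 (Pf.B 8 3 (Pf.C 26 0x610388) (Pf.C 9 99331)) (Pf.C 27 0xc20384)) (Pf.cons (Pf.B 8 7 (Pf.C 11 0x20307) (Pf.B 8 5 (Pf.C 11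 0x20305) (Pf.C 24 0x81c288))) (Pf.cons (Pf.B 8 7 (Pf.C 11 0x20207) (Pf.B 8 5 (Pf.C 11 0x20205) (Pf.C 24 0xc1c288))) (Pf.cons (Pf.B 8 7 (Pf.C 11 0x20307) (Pf.B 8 5 (Pf.C 11 0x20305) (Pf.C 24 0x81c288))) (Pf.cons (Pf.B 8 7 (Pf.C 11 0x20207) (Pf.B 8 5 (Pf.C 11 0x20205) (Pf.C 24 0xc1c288))) Pf.nil))))))))) (Pf.C 9 82819)) (Pf.C 27 0xa1c304)) (Pf.cons (Pf.B 7 3 (Pf.C 5 899) (Pf.C 8 65927)) (Pf.cons (Pf.B 7 3 (Pf.C 5 899) (Pf.C 8 82311)) (Pf.cons (Pf.B 7 3 (Pf.C 5 899) (Pf.C 8 65927)) (Pf.cons (Pf.B 7 3 (Pf.C 5 899) (Pf.C 8 82311)) Pf.nil))))))))) (Pf.C 9 66179)) (Pf.C 9 66307)) (Pf.C 9 82691)))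
 Pq.nil)))) Pq.nil)))) (Pq.cons (Pq.D 2 (Pq.cons (Pq.L [] 2 (Pf.C 2 643))
 (Pq.cons (Pq.D 3 (Pq.cons (Pq.L [] 4 (Pf.C 2 771))
 (Pq.cons (Pq.L [] 7 (Pf.B 6 5 (Pf.B 6 4 (Pf.B 5 4 (Pf.W 46 644 [] [3,6] (Pf.cons (Pf.B 7 3 (Pf.C 2 391) (Pf.C 8 65927)) (Pf.cons (Pf.B 7 3 (Pf.C 2 391) (Pf.C 8 82311)) (Pf.cons (Pf.B 7 6 (Pf.B 7 3 (Pf.W 46 773 [] [3,4,7] (Pf.cons (Pf.B 8 7 (Pf.C 26 0x1014307) (Pf.B 8 4 (Pf.C 26 0x1014304) (Pf.C 9 0x1c208))) (Pf.cons (Pf.B 8 7 (Pf.C 26 0x1018287) (Pf.B 8 4 (Pf.C 26 0x1018284) (Pf.C 9 0x1c208))) (Pf.cons (Pf.B 8 7 (Pf.B 8 3 (Pf.C 26 0x618388) (Pf.C 9 82947)) (Pf.C 27 0xa20386)) (Pf.cons (Pf.B 8 7 (Pf.B 8 3 (Pf.C 26 0x614388) (Pf.C 9 99331)) (Pf.C 27 0xc20385)) (Pf.cons (Pf.B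 8 7 (Pf.C 11 0x20307) (Pf.B 8 4 (Pf.C 11 0x20304) (Pf.C 24 0xa1c208))) (Pf.cons (Pf.B 8 7 (Pf.C 11 0x20287) (Pf.B 8 4 (Pf.C 11 0x20284) (Pf.C 24 0xc1c208))) (Pf.cons (Pf.B 8 7 (Pf.C 11 0x20307) (Pf.B 8 4 (Pf.C 11 0x20304) (Pf.C 24 0xa1c208))) (Pf.cons (Pf.B 8 7 (Pf.C 11 0x20287) (Pf.B 8 4 (Pf.C 11 0x20284) (Pf.C 24 0xc1c208))) Pf.nil))))))))) (Pf.C 9 66435)) (Pf.C 27 0x81c305)) (Pf.cons (Pf.B 7 6 (Pf.B 7 3 (Pf.W 46 772 [] [3,5,7] (Pf.cons (Pf.B 8 7 (Pf.C 26 0x1010307) (Pf.B 8 5 (Pf.C 26 0x1010305) (Pf.C 9 0x1c288))) (Pf.cons (Pf.B 8 7 (Pf.C 26 0x1018207) (Pf.B 8 5 (Pf.C 26 0x1018205) (Pf.C 9 0x1c288))) (Pf.cons (Pf.B 8 7 (Pf.B 8 3 (Pf.C 26 0x618388) (Pf.C 9 66563)) (Pf.C 27 0x820386)) (Pf.cons (Pf.B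 8 7 (Pf.B 8 3 (Pf.C 26 0x610388) (Pf.C 9 99331)) (Pf.C 27 0xc20384)) (Pf.cons (Pf.B 8 7 (Pf.C 11 0x20307) (Pf.B 8 5 (Pf.C 11 0x20305) (Pf.C 24 0x81c288))) (Pf.cons (Pf.B 8 7 (Pf.C 11 0x20207) (Pf.B 8 5 (Pf.C 11 0x20205) (Pf.C 24 0xc1c288))) (Pf.cons (Pf.B 8 7 (Pf.C 11 0x20307) (Pf.B 8 5 (Pf.C 11 0x20305) (Pf.C 24 0x81c288))) (Pf.cons (Pf.B 8 7 (Pf.C 11 0x20207) (Pf.B 8 5 (Pf.C 11 0x20205) (Pf.C 24 0xc1c288))) Pf.nil))))))))) (Pf.C 9 82819)) (Pf.C 27 0xa1c304)) (Pf.cons (Pf.B 7 3 (Pf.C 5 899) (Pf.C 8 65927)) (Pf.cons (Pf.B 7 3 (Pf.C 5 899) (Pf.C 8 82311)) (Pf.cons (Pf.B 7 3 (Pf.C 5 899) (Pf.C 8 65927)) (Pf.cons (Pf.B 7 3 (Pf.C 5 899) (Pf.C 8 82311)) Pf.nil))))))))) (Pf.C 9 66179)) (Pf.C 9 66307)) (Pf.C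 9 82691)))
 (Pq.cons (Pq.L [] 7 (Pf.B 6 5 (Pf.B 6 4 (Pf.B 5 4 (Pf.W 46 644 [] [3,6] (Pf.cons (Pf.B 7 3 (Pf.C 2 391) (Pf.C 8 65927)) (Pf.cons (Pf.B 7 3 (Pf.C 2 391) (Pf.C 8 82311)) (Pf.cons (Pf.B 7 6 (Pf.B 7 3 (Pf.W 46 773 [] [3,4,7] (Pf.cons (Pf.B 8 7 (Pf.C 26 0x1014307) (Pf.B 8 4 (Pf.C 26 0x1014304) (Pf.C 9 0x1c208))) (Pf.cons (Pf.B 8 7 (Pf.C 26 0x1018287) (Pf.B 8 4 (Pf.C 26 0x1018284) (Pf.C 9 0x1c208))) (Pf.cons (Pf.B 8 7 (Pf.B 8 3 (Pf.C 26 0x618388) (Pf.C 9 82947)) (Pf.C 27 0xa20386)) (Pf.cons (Pf.B 8 7 (Pf.B 8 3 (Pf.C 26 0x614388) (Pf.C 9 99331)) (Pf.C 27 0xc20385)) (Pf.cons (Pf.B 8 7 (Pf.C 11 0x20307) (Pf.B 8 4 (Pf.C 11 0x20304) (Pf.C 24 0xa1c208))) (Pf.cons (Pf.B 8 7 (Pf.C 11 0x20287) (Pf.B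 8 4 (Pf.C 11 0x20284) (Pf.C 24 0xc1c208))) (Pf.cons (Pf.B 8 7 (Pf.C 11 0x20307) (Pf.B 8 4 (Pf.C 11 0x20304) (Pf.C 24 0xa1c208))) (Pf.cons (Pf.B 8 7 (Pf.C 11 0x20287) (Pf.B 8 4 (Pf.C 11 0x20284) (Pf.C 24 0xc1c208))) Pf.nil))))))))) (Pf.C 9 66435)) (Pf.C 27 0x81c305)) (Pf.cons (Pf.B 7 6 (Pf.B 7 3 (Pf.W 46 772 [] [3,5,7] (Pf.cons (Pf.B 8 7 (Pf.C 26 0x1010307) (Pf.B 8 5 (Pf.C 26 0x1010305) (Pf.C 9 0x1c288))) (Pf.cons (Pf.B 8 7 (Pf.C 26 0x1018207) (Pf.B 8 5 (Pf.C 26 0x1018205) (Pf.C 9 0x1c288))) (Pf.cons (Pf.B 8 7 (Pf.B 8 3 (Pf.C 26 0x618388) (Pf.C 9 66563)) (Pf.C 27 0x820386)) (Pf.cons (Pf.B 8 7 (Pf.B 8 3 (Pf.C 26 0x610388) (Pf.C 9 99331)) (Pf.C 27 0xc20384)) (Pf.cons (Pf.B 8 7 (Pf.C 11 0x20307) (Pf.B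 8 5 (Pf.C 11 0x20305) (Pf.C 24 0x81c288))) (Pf.cons (Pf.B 8 7 (Pf.C 11 0x20207) (Pf.B 8 5 (Pf.C 11 0x20205) (Pf.C 24 0xc1c288))) (Pf.cons (Pf.B 8 7 (Pf.C 11 0x20307) (Pf.B 8 5 (Pf.C 11 0x20305) (Pf.C 24 0x81c288))) (Pf.cons (Pf.B 8 7 (Pf.C 11 0x20207) (Pf.B 8 5 (Pf.C 11 0x20205) (Pf.C 24 0xc1c288))) Pf.nil))))))))) (Pf.C 9 82819)) (Pf.C 27 0xa1c304)) (Pf.cons (Pf.B 7 3 (Pf.C 5 899) (Pf.C 8 65927)) (Pf.cons (Pf.B 7 3 (Pf.C 5 899) (Pf.C 8 82311)) (Pf.cons (Pf.B 7 3 (Pf.C 5 899) (Pf.C 8 65927)) (Pf.cons (Pf.B 7 3 (Pf.C 5 899) (Pf.C 8 82311)) Pf.nil))))))))) (Pf.C 9 66179)) (Pf.C 9 66307)) (Pf.C 9 82691)))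
 Pq.nil)))) (Pq.cons (Pq.D 3 (Pq.cons (Pq.L [] 4 (Pf.C 2 771))
 (Pq.cons (Pq.L [] 7 (Pf.B 6 5 (Pf.B 6 4 (Pf.B 5 4 (Pf.W 46 644 [] [3,6] (Pf.cons (Pf.B 7 3 (Pf.C 2 391) (Pf.C 8 65927)) (Pf.cons (Pf.B 7 3 (Pf.C 2 391) (Pf.C 8 82311)) (Pf.cons (Pf.B 7 6 (Pf.B 7 3 (Pf.W 46 773 [] [3,4,7] (Pf.cons (Pf.B 8 7 (Pf.C 26 0x1014307) (Pf.B 8 4 (Pf.C 26 0x1014304) (Pf.C 9 0x1c208))) (Pf.cons (Pf.B 8 7 (Pf.C 26 0x1018287) (Pf.B 8 4 (Pf.C 26 0x1018284) (Pf.C 9 0x1c208))) (Pf.cons (Pf.B 8 7 (Pf.B 8 3 (Pf.C 26 0x618388) (Pf.C 9 82947)) (Pf.C 27 0xa20386)) (Pf.cons (Pf.B 8 7 (Pf.B 8 3 (Pf.C 26 0x614388) (Pf.C 9 99331)) (Pf.C 27 0xc20385)) (Pf.cons (Pf.B 8 7 (Pf.C 11 0x20307) (Pf.B 8 4 (Pf.C 11 0x20304) (Pf.C 24 0xa1c208)))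 (Pf.cons (Pf.B 8 7 (Pf.C 11 0x20287) (Pf.B 8 4 (Pf.C 11 0x20284) (Pf.C 24 0xc1c208))) (Pf.cons (Pf.B 8 7 (Pf.C 11 0x20307) (Pf.B 8 4 (Pf.C 11 0x20304) (Pf.C 24 0xa1c208))) (Pf.cons (Pf.B 8 7 (Pf.C 11 0x20287) (Pf.B 8 4 (Pf.C 11 0x20284) (Pf.C 24 0xc1c208))) Pf.nil))))))))) (Pf.C 9 66435)) (Pf.C 27 0x81c305)) (Pf.cons (Pf.B 7 6 (Pf.B 7 3 (Pf.W 46 772 [] [3,5,7] (Pf.cons (Pf.B 8 7 (Pf.C 26 0x1010307) (Pf.B 8 5 (Pf.C 26 0x1010305) (Pf.C 9 0x1c288))) (Pf.cons (Pf.B 8 7 (Pf.C 26 0x1018207) (Pf.B 8 5 (Pf.C 26 0x1018205) (Pf.C 9 0x1c288))) (Pf.cons (Pf.B 8 7 (Pf.B 8 3 (Pf.C 26 0x618388) (Pf.C 9 66563)) (Pf.C 27 0x820386)) (Pf.cons (Pf.B 8 7 (Pf.B 8 3 (Pf.C 26 0x610388) (Pf.C 9 99331)) (Pf.C 27 0xc20384))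 (Pf.cons (Pf.B 8 7 (Pf.C 11 0x20307) (Pf.B 8 5 (Pf.C 11 0x20305) (Pf.C 24 0x81c288))) (Pf.cons (Pf.B 8 7 (Pf.C 11 0x20207) (Pf.B 8 5 (Pf.C 11 0x20205) (Pf.C 24 0xc1c288))) (Pf.cons (Pf.B 8 7 (Pf.C 11 0x20307) (Pf.B 8 5 (Pf.C 11 0x20305) (Pf.C 24 0x81c288))) (Pf.cons (Pf.B 8 7 (Pf.C 11 0x20207) (Pf.B 8 5 (Pf.C 11 0x20205) (Pf.C 24 0xc1c288))) Pf.nil))))))))) (Pf.C 9 82819)) (Pf.C 27 0xa1c304)) (Pf.cons (Pf.B 7 3 (Pf.C 5 899) (Pf.C 8 65927)) (Pf.cons (Pf.B 7 3 (Pf.C 5 899) (Pf.C 8 82311)) (Pf.cons (Pf.B 7 3 (Pf.C 5 899) (Pf.C 8 65927)) (Pf.cons (Pf.B 7 3 (Pf.C 5 899) (Pf.C 8 82311)) Pf.nil))))))))) (Pf.C 9 66179)) (Pf.C 9 66307)) (Pf.C 9 82691)))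
 (Pq.cons (Pq.L [] 7 (Pf.B 6 5 (Pf.B 6 4 (Pf.B 5 4 (Pf.W 46 644 [] [3,6] (Pf.cons (Pf.B 7 3 (Pf.C 2 391) (Pf.C 8 65927)) (Pf.cons (Pf.B 7 3 (Pf.C 2 391) (Pf.C 8 82311)) (Pf.cons (Pf.B 7 6 (Pf.B 7 3 (Pf.W 46 773 [] [3,4,7] (Pf.cons (Pf.B 8 7 (Pf.C 26 0x1014307) (Pf.B 8 4 (Pf.C 26 0x1014304) (Pf.C 9 0x1c208))) (Pf.cons (Pf.B 8 7 (Pf.C 26 0x1018287) (Pf.B 8 4 (Pf.C 26 0x1018284) (Pf.C 9 0x1c208))) (Pf.cons (Pf.B 8 7 (Pf.B 8 3 (Pf.C 26 0x618388) (Pf.C 9 82947)) (Pf.C 27 0xa20386)) (Pf.cons (Pf.B 8 7 (Pf.B 8 3 (Pf.C 26 0x614388) (Pf.C 9 99331)) (Pf.C 27 0xc20385)) (Pf.cons (Pf.B 8 7 (Pf.C 11 0x20307) (Pf.B 8 4 (Pf.C 11 0x20304) (Pf.C 24 0xa1c208))) (Pf.cons (Pf.B 8 7 (Pf.C 11 0x20287) (Pf.B 8 4 (Pf.C 11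 0x20284) (Pf.C 24 0xc1c208))) (Pf.cons (Pf.B 8 7 (Pf.C 11 0x20307) (Pf.B 8 4 (Pf.C 11 0x20304) (Pf.C 24 0xa1c208))) (Pf.cons (Pf.B 8 7 (Pf.C 11 0x20287) (Pf.B 8 4 (Pf.C 11 0x20284) (Pf.C 24 0xc1c208))) Pf.nil))))))))) (Pf.C 9 66435)) (Pf.C 27 0x81c305)) (Pf.cons (Pf.B 7 6 (Pf.B 7 3 (Pf.W 46 772 [] [3,5,7] (Pf.cons (Pf.B 8 7 (Pf.C 26 0x1010307) (Pf.B 8 5 (Pf.C 26 0x1010305) (Pf.C 9 0x1c288))) (Pf.cons (Pf.B 8 7 (Pf.C 26 0x1018207) (Pf.B 8 5 (Pf.C 26 0x1018205) (Pf.C 9 0x1c288))) (Pf.cons (Pf.B 8 7 (Pf.B 8 3 (Pf.C 26 0x618388) (Pf.C 9 66563)) (Pf.C 27 0x820386)) (Pf.cons (Pf.B 8 7 (Pf.B 8 3 (Pf.C 26 0x610388) (Pf.C 9 99331)) (Pf.C 27 0xc20384)) (Pf.cons (Pf.B 8 7 (Pf.C 11 0x20307) (Pf.B 8 5 (Pf.C 11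 0x20305) (Pf.C 24 0x81c288))) (Pf.cons (Pf.B 8 7 (Pf.C 11 0x20207) (Pf.B 8 5 (Pf.C 11 0x20205) (Pf.C 24 0xc1c288))) (Pf.cons (Pf.B 8 7 (Pf.C 11 0x20307) (Pf.B 8 5 (Pf.C 11 0x20305) (Pf.C 24 0x81c288))) (Pf.cons (Pf.B 8 7 (Pf.C 11 0x20207) (Pf.B 8 5 (Pf.C 11 0x20205) (Pf.C 24 0xc1c288))) Pf.nil))))))))) (Pf.C 9 82819)) (Pf.C 27 0xa1c304)) (Pf.cons (Pf.B 7 3 (Pf.C 5 899) (Pf.C 8 65927)) (Pf.cons (Pf.B 7 3 (Pf.C 5 899) (Pf.C 8 82311)) (Pf.cons (Pf.B 7 3 (Pf.C 5 899) (Pf.C 8 65927)) (Pf.cons (Pf.B 7 3 (Pf.C 5 899) (Pf.C 8 82311)) Pf.nil))))))))) (Pf.C 9 66179)) (Pf.C 9 66307)) (Pf.C 9 82691)))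
 Pq.nil)))) Pq.nil)))) Pq.nil)))) Pq.nil)
theorem h2_o48 : AllRef h2_T h2_G76 (List.take 1 (List.flatMap (splitP 0) (applyObl TD2 1 [117,122,120] [0,0,0] [(117,0x200000000000000000000000000000),(122,0x4000000000000000000000000000000),(120,0x1000000000000000000000000000000)]))) :=
  chkPq_sound h2_o48c _ (by decide +kernel)
noncomputable def h2_o49c : Pq := (Pq.cons (Pq.D 1 (Pq.cons (Pq.D 2 (Pq.cons (Pq.L [] 3 (Pf.B 5 4 (Pf.C 2 517) (Pf.C 8 49669)))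
 (Pq.cons (Pq.L [0,2] 3 (Pf.B 5 4 (Pf.C 26 0x80c005) (Pf.B 4 2 (Pf.B 5 2 (Pf.C 26 0x814002) (Pf.B 3 2 (Pf.C 26 0x80c002) (Pf.C 27 0xa08180))) (Pf.C 55 0xa0c104))))
 (Pq.cons (Pq.D 3 (Pq.cons (Pq.L [] 5 (Pf.B 6 4 (Pf.C 2 518) (Pf.C 8 49670)))
 (Pq.cons (Pq.L [0,1,2] 7 (Pf.B 6 5 (Pf.C 27 0x614006) (Pf.B 6 4 (Pf.C 26 0x80c006) (Pf.B 4 2 (Pf.B 6 2 (Pf.C 26 0x818002) (Pf.B 6 1 (Pf.C 27 0x208300) (Pf.B 5 2 (Pf.B 5 1 (Pf.C 24 0xa08086) (Pf.C 24 98437)) (Pf.C 24 98565)))) (Pf.C 55 0xc0c104)))))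
 (Pq.cons (Pq.L [0] 6 (Pf.B 6 5 (Pf.T 3 31 (Pf.cons (Pf.W 98 3 [] [0,5,6] (Pf.cons (Pf.B 7 6 (Pf.B 7 5 (Pf.C 27 0xc0c287) (Pf.C 24 0x600385)) (Pf.C 24 0x600386)) Pf.nil)) (Pf.cons (Pf.C 77 643) Pf.nil))) (Pf.T 3 31 (Pf.cons (Pf.W 98 3 [] [0,5,6] (Pf.cons (Pf.B 7 6 (Pf.B 7 5 (Pf.C 24 0xe18280) (Pf.C 24 0x600385)) (Pf.C 24 0x600386)) Pf.nil)) (Pf.cons (Pf.C 77 643) Pf.nil)))))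
 Pq.nil)))) Pq.nil)))) (Pq.cons (Pq.D 2 (Pq.cons (Pq.L [0,2] 3 (Pf.B 5 4 (Pf.C 26 0xa0c004) (Pf.B 5 2 (Pf.B 4 2 (Pf.C 26 0xa10002) (Pf.B 3 2 (Pf.C 26 0xa0c002) (Pf.C 27 0x808180))) (Pf.C 55 0x80c105))))
 (Pq.cons (Pq.D 3 (Pq.cons (Pq.L [0] 7 (Pf.B 6 5 (Pf.C 26 0xc0c005) (Pf.B 6 4 (Pf.C 26 0xc0c004) (Pf.C 55 0xa0c206))))
 (Pq.cons (Pq.L [0] 7 (Pf.B 6 5 (Pf.B 6 4 (Pf.B 5 4 (Pf.T 6 31 (Pf.cons (Pf.W 76 6 [] [0,3,4,5] (Pf.cons (Pf.B 7 5 (Pf.B 7 4 (Pf.C 26 0xe00284) (Pf.C 55 0xc00207)) (Pf.C 55 0xc00287)) (Pf.cons (Pf.B 7 5 (Pf.C 27 0xc1c005) (Pf.B 7 4 (Pf.C 27 0xa1c004) (Pf.B 7 3 (Pf.C 27 0x81c003) (Pf.T 5 31 (Pf.cons (Pf.T 4 31 (Pf.cons (Pf.T 3 31 (Pf.cons (Pf.W 46 512 [] [3,5,6,7] (Pf.cons (Pf.B 8 5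 (Pf.C 26 0x1000205) (Pf.W 46 640 [] [6,7,8] (Pf.cons (Pf.B 9 8 (Pf.C 2 1033) (Pf.C 8 1033)) (Pf.cons (Pf.B 9 8 (Pf.C 2 1033) (Pf.C 8 82953)) (Pf.cons (Pf.B 9 7 (Pf.B 9 6 (Pf.C 27 0xa1c309) (Pf.C 27 0x24305)) (Pf.C 24 0xa00487)) (Pf.cons (Pf.B 9 7 (Pf.B 9 6 (Pf.C 27 0x1c309) (Pf.C 27 0xa24300)) (Pf.C 24 83079)) (Pf.cons (Pf.B 9 8 (Pf.C 5 1160) (Pf.C 8 1033)) (Pf.cons (Pf.B 9 8 (Pf.C 5 1160) (Pf.C 8 82953)) (Pf.cons (Pf.B 9 8 (Pf.C 5 1160) (Pf.C 8 1033)) (Pf.cons (Pf.B 9 8 (Pf.C 5 1160) (Pf.C 8 82953)) Pf.nil)))))))))) (Pf.cons (Pf.B 8 5 (Pf.C 26 0x1010005) (Pf.B 8 3 (Pf.C 26 0x1010003) (Pf.W 46 643 [] [6,7,8] (Pf.cons (Pf.B 9 8 (Pf.C 2 1033) (Pf.C 8 50185)) (Pf.cons (Pf.B 9 8 (Pf.C 2 1033) (Pf.C 8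 82953)) (Pf.cons (Pf.B 9 7 (Pf.B 9 6 (Pf.C 27 0xa1c309) (Pf.C 27 0x624305)) (Pf.C 24 0xa0c487)) (Pf.cons (Pf.B 9 7 (Pf.B 9 6 (Pf.C 27 0x61c309) (Pf.C 27 0xa24303)) (Pf.C 24 0x614487)) (Pf.cons (Pf.B 9 8 (Pf.C 5 1160) (Pf.C 8 50185)) (Pf.cons (Pf.B 9 8 (Pf.C 5 1160) (Pf.C 8 82953)) (Pf.cons (Pf.B 9 8 (Pf.C 5 1160) (Pf.C 8 50185)) (Pf.cons (Pf.B 9 8 (Pf.C 5 1160) (Pf.C 8 82953)) Pf.nil))))))))))) (Pf.cons (Pf.B 8 7 (Pf.B 8 6 (Pf.C 27 0x81c308) (Pf.C 27 0x20304)) (Pf.C 24 0x800407)) (Pf.cons (Pf.B 8 7 (Pf.B 8 6 (Pf.C 27 0x1c308) (Pf.C 27 0x820300)) (Pf.C 24 66567)) (Pf.cons (Pf.B 8 7 (Pf.C 12 0x20380) (Pf.C 12 0x20207)) (Pf.cons (Pf.B 8 7 (Pf.C 12 0x20384) (Pf.C 12 0x20007)) (Pf.cons (Pf.B 8 7 (Pf.C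 12 0x20380) (Pf.C 12 0x20207)) (Pf.cons (Pf.B 8 7 (Pf.C 12 0x20384) (Pf.C 12 0x20007)) Pf.nil))))))))) (Pf.cons (Pf.C 77 899) Pf.nil))) (Pf.cons (Pf.C 77 900) Pf.nil))) (Pf.cons (Pf.C 77 901) Pf.nil)))))) (Pf.cons (Pf.B 7 5 (Pf.C 27 0xc1c005) (Pf.C 59 0xc00287)) Pf.nil)))) (Pf.cons (Pf.T 6 34 (Pf.cons (Pf.W 82 6 [] [0,3,4,5] (Pf.cons (Pf.B 7 5 (Pf.C 26 0xe18005) (Pf.B 7 4 (Pf.C 26 0xe14004) (Pf.C 55 0xc14207))) (Pf.cons (Pf.B 7 5 (Pf.B 7 4 (Pf.B 7 3 (Pf.W 76 7 [] [0,5,6] (Pf.cons (Pf.B 8 6 (Pf.B 8 5 (Pf.C 26 0x1000305) (Pf.C 55 0xe00288)) (Pf.C 77 1030)) (Pf.cons (Pf.B 8 6 (Pf.B 8 5 (Pf.C 27 0xc1c405) (Pf.C 27 0x20286)) (Pf.C 77 1030)) (Pf.cons (Pf.B 8 6 (Pf.B 8 5 (Pf.C 27 0xc1c405) (Pf.C 27 0x20286))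 (Pf.C 77 1030)) Pf.nil)))) (Pf.C 27 0xc1c180)) (Pf.C 27 0xc1c200)) (Pf.C 27 0xc1c280)) Pf.nil))) (Pf.cons (Pf.T 6 37 (Pf.cons (Pf.W 88 6 [] [0,3,4,5] (Pf.cons (Pf.B 7 5 (Pf.B 7 4 (Pf.B 7 3 (Pf.W 82 7 [] [0,5,6] (Pf.cons (Pf.B 8 6 (Pf.B 8 5 (Pf.C 26 0x101c005) (Pf.C 26 0x1014300)) (Pf.C 83 1030)) (Pf.cons (Pf.B 8 6 (Pf.C 27 0xc1c400) (Pf.C 83 1030)) Pf.nil))) (Pf.C 27 0xc1c180)) (Pf.C 27 0xc1c200)) (Pf.C 27 0xc1c280)) Pf.nil)) Pf.nil)) Pf.nil))) Pf.nil))) (Pf.T 6 31 (Pf.cons (Pf.W 76 6 [] [0,3,4,5] (Pf.cons (Pf.B 7 4 (Pf.B 7 3 (Pf.C 26 0xe00203) (Pf.C 55 0xc00187)) (Pf.C 55 0xc00207)) (Pf.cons (Pf.B 7 5 (Pf.C 27 0xc1c005) (Pf.B 7 4 (Pf.C 27 0xc1c004) (Pf.C 24 82439))) (Pf.cons (Pf.B 7 5 (Pf.C 27 0xc1c005)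 (Pf.C 59 0xc00287)) Pf.nil)))) (Pf.cons (Pf.T 6 34 (Pf.cons (Pf.W 82 6 [] [0,3,4,5] (Pf.cons (Pf.B 7 5 (Pf.C 26 0xe18005) (Pf.B 7 4 (Pf.C 26 0xe18004) (Pf.C 9 82439))) (Pf.cons (Pf.B 7 5 (Pf.B 7 4 (Pf.B 7 3 (Pf.W 76 7 [] [0,5,6] (Pf.cons (Pf.B 8 6 (Pf.B 8 5 (Pf.C 26 0x1000305) (Pf.C 55 0xe00288)) (Pf.C 77 1030)) (Pf.cons (Pf.B 8 6 (Pf.B 8 5 (Pf.C 27 0xc1c405) (Pf.C 27 0x20286)) (Pf.C 77 1030)) (Pf.cons (Pf.B 8 6 (Pf.B 8 5 (Pf.C 27 0xc1c405) (Pf.C 27 0x20286)) (Pf.C 77 1030)) Pf.nil)))) (Pf.C 27 0xc1c180)) (Pf.C 27 0xa10380)) (Pf.C 27 0xc1c280)) Pf.nil))) (Pf.cons (Pf.T 6 37 (Pf.cons (Pf.W 88 6 [] [0,3,4,5] (Pf.cons (Pf.B 7 5 (Pf.B 7 4 (Pf.B 7 3 (Pf.W 82 7 [] [0,5,6] (Pf.cons (Pf.B 8 6 (Pf.B 8 5 (Pf.C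 26 0x101c005) (Pf.C 26 0x1014300)) (Pf.C 83 1030)) (Pf.cons (Pf.B 8 6 (Pf.C 27 0xc1c400) (Pf.C 83 1030)) Pf.nil))) (Pf.C 27 0xc1c180)) (Pf.C 27 0xa10380)) (Pf.C 27 0xc1c280)) Pf.nil)) Pf.nil)) Pf.nil))) Pf.nil)))) (Pf.B 5 4 (Pf.T 6 31 (Pf.cons (Pf.W 76 6 [] [0,4,5] (Pf.cons (Pf.B 7 5 (Pf.B 7 4 (Pf.C 26 0xe00284) (Pf.C 9 98823)) (Pf.C 55 0xc00287)) (Pf.cons (Pf.B 7 5 (Pf.C 27 0xc1c005) (Pf.B 7 4 (Pf.C 27 0xa1c004) (Pf.C 24 98823))) (Pf.cons (Pf.B 7 5 (Pf.C 27 0xc1c005) (Pf.C 59 0xc00287)) Pf.nil)))) (Pf.cons (Pf.T 6 34 (Pf.cons (Pf.W 82 6 [] [0,3,4,5] (Pf.cons (Pf.B 7 5 (Pf.C 26 0xe18005) (Pf.B 7 4 (Pf.C 26 0xe14004) (Pf.C 9 98823))) (Pf.cons (Pf.W 76 4 [] [0,5,6] (Pf.cons (Pf.B 7 6 (Pf.B 7 5 (Pf.C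 26 0xe00305) (Pf.C 55 0x800287)) (Pf.C 77 902)) (Pf.cons (Pf.B 7 6 (Pf.B 7 5 (Pf.C 27 0xc10385) (Pf.C 27 0x1c286)) (Pf.C 77 902)) (Pf.cons (Pf.B 7 6 (Pf.B 7 5 (Pf.C 27 0xc10385) (Pf.C 27 0x1c286)) (Pf.C 77 902)) Pf.nil)))) (Pf.cons (Pf.B 7 5 (Pf.B 7 4 (Pf.C 27 0x818380) (Pf.B 7 3 (Pf.W 76 7 [] [0,5,6] (Pf.cons (Pf.B 8 6 (Pf.B 8 5 (Pf.C 26 0x1000305) (Pf.C 55 0xe00288)) (Pf.C 77 1030)) (Pf.cons (Pf.B 8 6 (Pf.B 8 5 (Pf.C 27 0xc1c405) (Pf.C 27 0x20286)) (Pf.C 77 1030)) (Pf.cons (Pf.B 8 6 (Pf.B 8 5 (Pf.C 27 0xc1c405) (Pf.C 27 0x20286)) (Pf.C 77 1030)) Pf.nil)))) (Pf.C 24 0x618207))) (Pf.C 27 0xc1c280)) Pf.nil)))) (Pf.cons (Pf.T 6 37 (Pf.cons (Pf.T 4 31 (Pf.cons (Pf.C 83 518) (Pf.cons (Pf.W 88 6 [] [0,3,4,5]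 (Pf.cons (Pf.W 82 4 [] [0,5,6] (Pf.cons (Pf.B 7 6 (Pf.B 7 5 (Pf.C 26 0xe10005) (Pf.C 26 0xe14300)) (Pf.C 83 902)) (Pf.cons (Pf.B 7 6 (Pf.C 27 0xc10380) (Pf.C 83 902)) Pf.nil))) (Pf.cons (Pf.B 7 5 (Pf.B 7 4 (Pf.C 27 0x818380) (Pf.B 7 3 (Pf.W 82 7 [] [0,5,6] (Pf.cons (Pf.B 8 6 (Pf.B 8 5 (Pf.C 26 0x101c005) (Pf.C 26 0x1014300)) (Pf.C 83 1030)) (Pf.cons (Pf.B 8 6 (Pf.C 27 0xc1c400) (Pf.C 83 1030)) Pf.nil))) (Pf.C 24 0x618207))) (Pf.C 27 0xc1c280)) Pf.nil))) Pf.nil))) Pf.nil)) Pf.nil))) Pf.nil))) (Pf.C 27 0xc10280))) (Pf.B 6 4 (Pf.B 5 4 (Pf.T 6 31 (Pf.cons (Pf.W 76 6 [] [0,4,5] (Pf.cons (Pf.B 7 5 (Pf.B 7 4 (Pf.C 26 0xe00284) (Pf.C 55 0xc00207)) (Pf.C 9 98951)) (Pf.cons (Pf.B 7 5 (Pf.B 7 4 (Pf.C 27 0xa18384)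 (Pf.C 27 0x1c205)) (Pf.C 24 98951)) (Pf.cons (Pf.B 7 5 (Pf.B 7 4 (Pf.C 27 0xa18384) (Pf.C 27 0x1c205)) (Pf.C 24 98951)) Pf.nil)))) (Pf.cons (Pf.T 6 34 (Pf.cons (Pf.W 82 6 [] [0,3,4,5] (Pf.cons (Pf.B 7 5 (Pf.B 7 4 (Pf.C 26 0xe18004) (Pf.C 26 0xe10280)) (Pf.C 9 98951)) (Pf.cons (Pf.W 76 5 [] [0,4,6] (Pf.cons (Pf.B 7 6 (Pf.B 7 4 (Pf.C 26 0xe00304) (Pf.C 55 0xa00207)) (Pf.C 77 902)) (Pf.cons (Pf.B 7 6 (Pf.B 7 4 (Pf.C 27 0xc14384) (Pf.C 27 0x1c206)) (Pf.C 77 902)) (Pf.cons (Pf.B 7 6 (Pf.B 7 4 (Pf.C 27 0xc14384) (Pf.C 27 0x1c206)) (Pf.C 77 902)) Pf.nil)))) (Pf.cons (Pf.B 7 5 (Pf.C 27 0xa18380) (Pf.B 7 4 (Pf.B 7 3 (Pf.W 76 7 [] [0,4,5,6] (Pf.cons (Pf.B 8 5 (Pf.B 8 4 (Pf.C 26 0x1000284) (Pf.C 55 0xe00208))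 (Pf.C 9 0x1c288)) (Pf.cons (Pf.B 8 6 (Pf.B 8 5 (Pf.C 24 0x1018287) (Pf.C 24 0x1c288)) (Pf.C 77 1030)) (Pf.cons (Pf.B 8 6 (Pf.B 8 5 (Pf.C 24 0x1018287) (Pf.C 24 0x1c288)) (Pf.C 77 1030)) Pf.nil)))) (Pf.C 24 0x618287)) (Pf.C 24 0x818287))) Pf.nil)))) (Pf.cons (Pf.T 6 37 (Pf.cons (Pf.T 5 31 (Pf.cons (Pf.C 83 646) (Pf.cons (Pf.W 88 6 [] [0,3,4,5] (Pf.cons (Pf.W 82 5 [] [0,4,6] (Pf.cons (Pf.B 7 6 (Pf.B 7 4 (Pf.C 26 0xe14004) (Pf.C 26 0xe10300)) (Pf.C 83 902)) (Pf.cons (Pf.B 7 6 (Pf.C 27 0xc14380) (Pf.C 83 902)) Pf.nil))) (Pf.cons (Pf.B 7 5 (Pf.C 27 0xa18380) (Pf.B 7 4 (Pf.B 7 3 (Pf.W 82 7 [] [0,4,5,6] (Pf.cons (Pf.B 8 5 (Pf.B 8 4 (Pf.C 26 0x101c004) (Pf.C 26 0x1010280)) (Pf.C 9 0x1c288)) (Pf.cons (Pf.B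 8 6 (Pf.C 27 0xc1c400) (Pf.C 83 1030)) Pf.nil))) (Pf.C 24 0x618287)) (Pf.C 24 0x818287))) Pf.nil))) Pf.nil))) Pf.nil)) Pf.nil))) Pf.nil))) (Pf.C 27 0xc14200)) (Pf.B 5 4 (Pf.C 27 0x818280) (Pf.T 6 31 (Pf.cons (Pf.W 76 6 [] [0,3,4,5] (Pf.cons (Pf.B 7 4 (Pf.B 7 3 (Pf.C 26 0xe00203) (Pf.C 55 0xc00187)) (Pf.C 9 98823)) (Pf.cons (Pf.B 7 5 (Pf.B 7 4 (Pf.C 24 0xe14206) (Pf.C 24 98823)) (Pf.C 24 98951)) (Pf.cons (Pf.B 7 5 (Pf.B 7 4 (Pf.C 24 0xe14206) (Pf.C 24 98823)) (Pf.C 24 98951)) Pf.nil)))) (Pf.cons (Pf.T 6 34 (Pf.cons (Pf.W 82 6 [] [0,3,4,5] (Pf.cons (Pf.B 7 4 (Pf.B 7 3 (Pf.C 26 0xe18003) (Pf.C 26 0xe0c200)) (Pf.C 9 98823)) (Pf.cons (Pf.W 76 4 [] [0,3,5,6] (Pf.cons (Pf.B 7 5 (Pf.B 7 3 (Pf.C 26 0xe00283)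 (Pf.C 55 0x800187)) (Pf.C 9 66183)) (Pf.cons (Pf.B 7 6 (Pf.B 7 5 (Pf.C 24 0xe18284) (Pf.C 24 66183)) (Pf.C 77 902)) (Pf.cons (Pf.B 7 6 (Pf.B 7 5 (Pf.C 24 0xe18284) (Pf.C 24 66183)) (Pf.C 77 902)) Pf.nil)))) (Pf.cons (Pf.W 76 5 [] [0,3,4,6] (Pf.cons (Pf.B 7 4 (Pf.B 7 3 (Pf.C 26 0xe00203) (Pf.C 55 0xa00187)) (Pf.C 9 82439)) (Pf.cons (Pf.B 7 6 (Pf.B 7 4 (Pf.C 24 0xe18205) (Pf.C 24 82439)) (Pf.C 77 902)) (Pf.cons (Pf.B 7 6 (Pf.B 7 4 (Pf.C 24 0xe18205) (Pf.C 24 82439)) (Pf.C 77 902)) Pf.nil)))) (Pf.cons (Pf.B 7 5 (Pf.C 27 0xa18380) (Pf.B 7 4 (Pf.C 27 0x814380) (Pf.B 7 3 (Pf.W 76 7 [] [0,3,4,5,6] (Pf.cons (Pf.B 8 4 (Pf.B 8 3 (Pf.C 26 0x1000203) (Pf.C 55 0xe00188)) (Pf.C 9 0x1c208)) (Pf.cons (Pf.B 8 6 (Pf.B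 8 5 (Pf.C 24 0x1018287) (Pf.C 24 0x1c288)) (Pf.C 77 1030)) (Pf.cons (Pf.B 8 6 (Pf.B 8 5 (Pf.C 24 0x1018287) (Pf.C 24 0x1c288)) (Pf.C 77 1030)) Pf.nil)))) (Pf.C 24 0x614207)))) Pf.nil))))) (Pf.cons (Pf.T 6 37 (Pf.cons (Pf.T 5 31 (Pf.cons (Pf.C 83 646) (Pf.cons (Pf.T 4 31 (Pf.cons (Pf.C 83 518) (Pf.cons (Pf.W 88 6 [] [0,3,4,5] (Pf.cons (Pf.W 82 4 [] [0,3,5,6] (Pf.cons (Pf.B 7 5 (Pf.B 7 3 (Pf.C 26 0xe10003) (Pf.C 26 0xe0c280)) (Pf.C 9 66183)) (Pf.cons (Pf.B 7 6 (Pf.C 27 0xc10380) (Pf.C 83 902)) Pf.nil))) (Pf.cons (Pf.W 82 5 [] [0,3,4,6] (Pf.cons (Pf.B 7 4 (Pf.B 7 3 (Pf.C 26 0xe14003) (Pf.C 26 0xe0c200)) (Pf.C 9 82439)) (Pf.cons (Pf.B 7 6 (Pf.C 27 0xc14380) (Pf.C 83 902)) Pf.nil))) (Pf.cons (Pf.B 7 5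 (Pf.C 27 0xa18380) (Pf.B 7 4 (Pf.C 27 0x814380) (Pf.B 7 3 (Pf.W 82 7 [] [0,3,4,6] (Pf.cons (Pf.B 8 4 (Pf.B 8 3 (Pf.C 26 0x101c003) (Pf.C 26 0x100c200)) (Pf.C 9 0x1c208)) (Pf.cons (Pf.B 8 6 (Pf.C 27 0xc1c400) (Pf.C 83 1030)) Pf.nil))) (Pf.C 24 0x614207)))) Pf.nil)))) Pf.nil))) Pf.nil))) Pf.nil)) Pf.nil))) Pf.nil)))))))
 (Pq.cons (Pq.L [0] 7 (Pf.B 6 5 (Pf.C 27 0x618005) (Pf.B 6 4 (Pf.C 27 0x618004) (Pf.B 5 4 (Pf.T 5 31 (Pf.cons (Pf.T 4 31 (Pf.cons (Pf.T 3 31 (Pf.cons (Pf.W 98 5 [] [0,4,6] (Pf.cons (Pf.B 7 6 (Pf.B 7 4 (Pf.C 27 0xa18207) (Pf.C 27 0x1c205)) (Pf.C 24 0xa00386)) Pf.nil)) (Pf.cons (Pf.C 77 771) Pf.nil))) (Pf.cons (Pf.C 77 772) Pf.nil))) (Pf.cons (Pf.C 77 773) Pf.nil))) (Pf.C 24 66182)))))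
 Pq.nil)))) (Pq.cons (Pq.D 3 (Pq.cons (Pq.L [0,1,2] 7 (Pf.B 6 4 (Pf.C 26 0xc0c004) (Pf.B 6 2 (Pf.B 6 1 (Pf.B 5 4 (Pf.C 27 0x614004) (Pf.B 4 2 (Pf.C 26 0xc10002) (Pf.B 5 2 (Pf.B 4 1 (Pf.C 26 0xc10001) (Pf.B 5 1 (Pf.C 24 0xa08084) (Pf.C 24 65669))) (Pf.C 24 65797)))) (Pf.C 55 0x80c086)) (Pf.C 55 0x80c106))))
 (Pq.cons (Pq.L [0] 7 (Pf.B 6 5 (Pf.C 27 0x614006) (Pf.B 5 4 (Pf.C 27 0x614004) (Pf.B 6 4 (Pf.T 6 31 (Pf.cons (Pf.T 4 31 (Pf.cons (Pf.T 3 31 (Pf.cons (Pf.W 98 6 [] [0,4,5] (Pf.cons (Pf.B 7 5 (Pf.B 7 4 (Pf.C 27 0xc14207) (Pf.C 27 0x1c206)) (Pf.C 24 0xc00385)) Pf.nil)) (Pf.cons (Pf.C 77 643) Pf.nil))) (Pf.cons (Pf.C 77 644) Pf.nil))) (Pf.cons (Pf.C 77 646) Pf.nil))) (Pf.C 24 66309)))))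
 (Pq.cons (Pq.L [0] 7 (Pf.B 6 4 (Pf.C 27 0x618004) (Pf.B 5 4 (Pf.C 27 0x614004) (Pf.B 6 5 (Pf.T 4 31 (Pf.cons (Pf.T 3 31 (Pf.cons (Pf.W 98 4 [] [0,5,6] (Pf.cons (Pf.B 7 6 (Pf.B 7 5 (Pf.C 27 0xc10287) (Pf.C 24 0x800385)) (Pf.C 24 0x800386)) Pf.nil)) (Pf.cons (Pf.C 77 643) Pf.nil))) (Pf.cons (Pf.C 77 644) Pf.nil))) (Pf.T 4 31 (Pf.cons (Pf.T 3 31 (Pf.cons (Pf.W 98 4 [] [0,5,6] (Pf.cons (Pf.B 7 6 (Pf.B 7 5 (Pf.C 24 0xe18280) (Pf.C 24 0x800385)) (Pf.C 24 0x800386)) Pf.nil)) (Pf.cons (Pf.C 77 643) Pf.nil))) (Pf.cons (Pf.C 77 644) Pf.nil)))))))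
 Pq.nil)))) Pq.nil)))) (Pq.cons (Pq.D 2 (Pq.cons (Pq.D 3 (Pq.cons (Pq.L [] 6 (Pf.B 6 5 (Pf.C 2 646) (Pf.C 8 49798)))
 (Pq.cons (Pq.L [0,1,2] 7 (Pf.B 6 5 (Pf.C 26 0xa0c006) (Pf.B 6 4 (Pf.C 27 0x610006) (Pf.B 5 2 (Pf.B 6 2 (Pf.C 26 0xa18002) (Pf.B 6 1 (Pf.C 27 0x208300) (Pf.B 4 2 (Pf.B 4 1 (Pf.C 24 0x808086) (Pf.C 24 98436)) (Pf.C 24 98564)))) (Pf.C 55 0xc0c105)))))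
 (Pq.cons (Pq.L [0,1,2] 5 (Pf.B 6 4 (Pf.T 3 31 (Pf.cons (Pf.T 2 31 (Pf.cons (Pf.T 1 31 (Pf.cons (Pf.B 6 2 (Pf.B 4 2 (Pf.C 27 0xc00202) (Pf.B 3 2 (Pf.C 27 98690) (Pf.C 24 0xc10103))) (Pf.B 6 1 (Pf.B 4 1 (Pf.C 27 0xc00201) (Pf.B 4 2 (Pf.B 3 2 (Pf.C 27 65922) (Pf.C 24 0x818103)) (Pf.C 24 16644))) (Pf.C 24 32902))) (Pf.cons (Pf.B 6 1 (Pf.B 4 1 (Pf.C 27 0xc00201) (Pf.C 77 513)) (Pf.C 77 769)) Pf.nil))) (Pf.cons (Pf.B 6 2 (Pf.B 4 2 (Pf.C 27 0xc00202) (Pf.C 77 514)) (Pf.C 77 770)) Pf.nil))) (Pf.cons (Pf.C 77 515) Pf.nil))) (Pf.T 3 31 (Pf.cons (Pf.T 1 31 (Pf.cons (Pf.T 2 31 (Pf.cons (Pf.B 6 2 (Pf.B 4 2 (Pf.B 3 2 (Pf.C 27 65922) (Pf.C 24 0x418203)) (Pf.C 24 0x418004)) (Pf.B 6 1 (Pf.B 4 2 (Pf.C 24 0x400206)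 (Pf.B 4 1 (Pf.C 24 0x218202) (Pf.C 24 32900))) (Pf.C 24 32902))) (Pf.cons (Pf.B 6 2 (Pf.B 4 2 (Pf.B 3 2 (Pf.C 27 65922) (Pf.C 24 0x418203)) (Pf.C 77 514)) (Pf.C 77 770)) Pf.nil))) (Pf.cons (Pf.B 6 1 (Pf.B 4 1 (Pf.B 3 1 (Pf.C 27 65921) (Pf.C 24 0x218203)) (Pf.C 77 513)) (Pf.C 77 769)) Pf.nil))) (Pf.cons (Pf.C 77 515) Pf.nil)))))
 Pq.nil)))) (Pq.cons (Pq.D 3 (Pq.cons (Pq.L [0,1,2] 7 (Pf.B 6 5 (Pf.C 26 0xc0c005) (Pf.B 6 2 (Pf.B 6 1 (Pf.B 5 4 (Pf.C 27 0x610005) (Pf.B 5 2 (Pf.C 26 0xc14002) (Pf.B 5 1 (Pf.C 26 0xc14001) (Pf.B 4 2 (Pf.B 4 1 (Pf.C 24 0x808085) (Pf.C 24 82052)) (Pf.C 24 82180))))) (Pf.C 55 0xa0c086)) (Pf.C 55 0xa0c106))))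
 (Pq.cons (Pq.L [0] 7 (Pf.B 6 4 (Pf.C 27 0x610006) (Pf.B 5 4 (Pf.C 27 0x610005) (Pf.B 6 5 (Pf.T 6 31 (Pf.cons (Pf.T 5 31 (Pf.cons (Pf.T 3 31 (Pf.cons (Pf.W 98 6 [] [0,4,5] (Pf.cons (Pf.B 7 5 (Pf.B 7 4 (Pf.C 27 0xc10287) (Pf.C 24 0xa00384)) (Pf.C 27 0x1c286)) Pf.nil)) (Pf.cons (Pf.C 77 515) Pf.nil))) (Pf.cons (Pf.C 77 517) Pf.nil))) (Pf.cons (Pf.C 77 518) Pf.nil))) (Pf.C 24 82692)))))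
 (Pq.cons (Pq.L [0] 7 (Pf.B 6 5 (Pf.C 27 0x618005) (Pf.B 5 4 (Pf.C 27 0x610005) (Pf.B 6 4 (Pf.T 5 31 (Pf.cons (Pf.T 3 31 (Pf.cons (Pf.W 98 5 [] [0,4,6] (Pf.cons (Pf.B 7 6 (Pf.B 7 4 (Pf.C 27 0xc14207) (Pf.C 24 0xa00384)) (Pf.C 24 0xa00386)) Pf.nil)) (Pf.cons (Pf.C 77 515) Pf.nil))) (Pf.cons (Pf.C 77 517) Pf.nil))) (Pf.T 5 31 (Pf.cons (Pf.T 3 31 (Pf.cons (Pf.W 98 5 [] [0,4,6] (Pf.cons (Pf.B 7 6 (Pf.B 7 4 (Pf.C 24 0xe18200) (Pf.C 24 0xa00384)) (Pf.C 24 0xa00386)) Pf.nil)) (Pf.cons (Pf.C 77 515) Pf.nil))) (Pf.cons (Pf.C 77 517) Pf.nil)))))))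
 Pq.nil)))) (Pq.cons (Pq.D 3 (Pq.cons (Pq.L [0,1,2] 7 (Pf.B 6 5 (Pf.B 6 4 (Pf.B 5 4 (Pf.T 3 31 (Pf.cons (Pf.T 2 31 (Pf.cons (Pf.T 1 31 (Pf.cons (Pf.T 6 30 (Pf.cons (Pf.W 74 6 [] [0,3,4,5] (Pf.cons (Pf.B 7 3 (Pf.B 7 5 (Pf.B 7 4 (Pf.C 26 0xc1c284) (Pf.C 24 0x600384)) (Pf.C 24 0x600385)) (Pf.C 9 50054)) (Pf.cons (Pf.B 7 5 (Pf.B 7 4 (Pf.C 26 0xc1c284) (Pf.C 24 0xa10380)) (Pf.C 59 0xc00287)) Pf.nil))) (Pf.cons (Pf.T 6 33 (Pf.cons (Pf.B 6 2 (Pf.B 3 2 (Pf.C 26 0xc0c002) (Pf.B 5 2 (Pf.B 4 2 (Pf.C 27 0xa00202) (Pf.C 24 49412)) (Pf.C 24 49413))) (Pf.B 3 2 (Pf.B 5 2 (Pf.C 27 0x614002) (Pf.B 5 1 (Pf.B 4 2 (Pf.C 27 0x610002) (Pf.B 4 1 (Pf.C 27 0xa00201) (Pf.C 24 32900))) (Pf.C 24 32901))) (Pf.C 9 33158))) (Pf.cons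 (Pf.C 81 390) Pf.nil))) Pf.nil))) (Pf.cons (Pf.B 5 1 (Pf.B 4 1 (Pf.C 27 0xa00201) (Pf.C 77 513)) (Pf.C 77 641)) Pf.nil))) (Pf.cons (Pf.B 5 2 (Pf.B 4 2 (Pf.C 27 0xa00202) (Pf.C 77 514)) (Pf.C 77 642)) Pf.nil))) (Pf.cons (Pf.C 77 515) Pf.nil))) (Pf.T 3 31 (Pf.cons (Pf.T 1 31 (Pf.cons (Pf.T 2 31 (Pf.cons (Pf.T 6 30 (Pf.cons (Pf.W 74 6 [] [0,3,4,5] (Pf.cons (Pf.B 7 3 (Pf.B 7 5 (Pf.B 7 4 (Pf.C 24 0xe14200) (Pf.C 24 0x600384)) (Pf.C 24 0x600385)) (Pf.C 9 50054)) (Pf.cons (Pf.B 7 5 (Pf.B 7 4 (Pf.C 24 0xe14200) (Pf.C 59 0xc00207)) (Pf.C 59 0xc00287)) Pf.nil))) (Pf.cons (Pf.T 6 33 (Pf.cons (Pf.B 6 2 (Pf.B 3 2 (Pf.C 26 0xc0c002) (Pf.B 5 2 (Pf.B 4 2 (Pf.C 24 0x414203) (Pf.C 24 49412)) (Pf.C 24 49413))) (Pf.B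 3 2 (Pf.B 5 2 (Pf.C 27 0x614002) (Pf.B 5 1 (Pf.B 4 2 (Pf.C 24 0x400205) (Pf.B 4 1 (Pf.C 24 0x214202) (Pf.C 24 32900))) (Pf.C 24 32901))) (Pf.C 9 33158))) (Pf.cons (Pf.C 81 390) Pf.nil))) Pf.nil))) (Pf.cons (Pf.B 5 2 (Pf.B 4 2 (Pf.B 3 2 (Pf.C 27 65922) (Pf.C 24 0x414203)) (Pf.C 77 514)) (Pf.C 77 642)) Pf.nil))) (Pf.cons (Pf.B 5 1 (Pf.B 4 1 (Pf.B 3 1 (Pf.C 27 65921) (Pf.C 24 0x214203)) (Pf.C 77 513)) (Pf.C 77 641)) Pf.nil))) (Pf.cons (Pf.C 77 515) Pf.nil)))) (Pf.C 9 49670)) (Pf.C 9 49798)))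
 (Pq.cons (Pq.L [0] 7 (Pf.B 6 5 (Pf.C 27 0x614006) (Pf.B 6 4 (Pf.C 27 0x610006) (Pf.B 5 4 (Pf.T 6 31 (Pf.cons (Pf.T 3 31 (Pf.cons (Pf.W 98 6 [] [0,4,5] (Pf.cons (Pf.B 7 5 (Pf.B 7 4 (Pf.C 27 0xa18207) (Pf.C 24 0xc00384)) (Pf.C 24 0xc00385)) Pf.nil)) (Pf.cons (Pf.C 77 515) Pf.nil))) (Pf.cons (Pf.C 77 518) Pf.nil))) (Pf.T 6 31 (Pf.cons (Pf.T 3 31 (Pf.cons (Pf.W 98 6 [] [0,4,5] (Pf.cons (Pf.B 7 5 (Pf.B 7 4 (Pf.C 24 0xe14200) (Pf.C 24 0xc00384)) (Pf.C 24 0xc00385)) Pf.nil)) (Pf.cons (Pf.C 77 515) Pf.nil))) (Pf.cons (Pf.C 77 518) Pf.nil)))))))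
 (Pq.cons (Pq.L [0] 7 (Pf.B 6 5 (Pf.T 3 31 (Pf.cons (Pf.W 98 3 [] [0,5,6] (Pf.cons (Pf.B 7 6 (Pf.B 7 5 (Pf.C 27 0xc0c287) (Pf.C 24 0x600385)) (Pf.C 24 0x600386)) Pf.nil)) (Pf.cons (Pf.C 77 515) Pf.nil))) (Pf.T 3 31 (Pf.cons (Pf.W 98 3 [] [0,5,6] (Pf.cons (Pf.B 7 6 (Pf.B 7 5 (Pf.C 24 0xe18280) (Pf.C 24 0x600385)) (Pf.C 24 0x600386)) Pf.nil)) (Pf.cons (Pf.C 77 515) Pf.nil)))))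
 Pq.nil)))) Pq.nil)))) Pq.nil)))) (Pq.cons (Pq.D 1 (Pq.cons (Pq.D 2 (Pq.cons (Pq.L [] 3 (Pf.B 5 4 (Pf.C 2 517) (Pf.C 8 49669)))
 (Pq.cons (Pq.D 3 (Pq.cons (Pq.L [] 5 (Pf.B 6 4 (Pf.C 2 518) (Pf.C 8 49670)))
 (Pq.cons (Pq.L [0] 7 (Pf.B 6 5 (Pf.T 6 31 (Pf.cons (Pf.T 5 31 (Pf.cons (Pf.T 4 30 (Pf.cons (Pf.W 98 6 [] [0,3,5] (Pf.cons (Pf.B 7 5 (Pf.B 7 3 (Pf.C 27 0xc0c287) (Pf.C 24 0xa00383)) (Pf.C 27 0x1c286)) Pf.nil)) (Pf.cons (Pf.C 75 388) Pf.nil))) (Pf.cons (Pf.C 77 389) Pf.nil))) (Pf.cons (Pf.C 77 390) Pf.nil))) (Pf.C 24 82691)))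
 (Pq.cons (Pq.L [0,1,2] 6 (Pf.B 6 5 (Pf.T 1 31 (Pf.cons (Pf.T 2 31 (Pf.cons (Pf.T 5 31 (Pf.cons (Pf.B 6 2 (Pf.B 3 2 (Pf.C 27 0xc00182) (Pf.B 5 2 (Pf.C 27 0x40c286) (Pf.C 24 33411))) (Pf.B 6 1 (Pf.B 5 2 (Pf.C 27 98565) (Pf.B 5 1 (Pf.C 27 0x208280) (Pf.C 24 0xc04282))) (Pf.C 24 32902))) (Pf.cons (Pf.C 77 389) Pf.nil))) (Pf.cons (Pf.B 6 2 (Pf.B 3 2 (Pf.C 27 0xc00182) (Pf.C 77 386)) (Pf.C 77 770)) Pf.nil))) (Pf.cons (Pf.B 6 1 (Pf.B 3 1 (Pf.C 27 0xc00181) (Pf.C 77 385)) (Pf.C 77 769)) Pf.nil))) (Pf.T 5 31 (Pf.cons (Pf.T 1 31 (Pf.cons (Pf.T 2 31 (Pf.cons (Pf.B 6 2 (Pf.B 5 2 (Pf.C 27 98946) (Pf.B 5 1 (Pf.C 27 0x208280) (Pf.B 6 1 (Pf.C 24 0xc08085) (Pf.C 24 82054)))) (Pf.B 6 1 (Pf.B 5 2 (Pf.B 5 1 (Pf.C 27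 98945) (Pf.C 27 0x404280)) (Pf.C 24 33414)) (Pf.C 24 32902))) (Pf.cons (Pf.B 6 2 (Pf.B 5 2 (Pf.C 27 98946) (Pf.B 5 1 (Pf.C 27 0x208280) (Pf.B 6 1 (Pf.C 24 0xc08085) (Pf.C 24 82054)))) (Pf.C 77 770)) Pf.nil))) (Pf.cons (Pf.B 6 1 (Pf.B 5 1 (Pf.C 27 98945) (Pf.B 5 2 (Pf.C 27 0x404280) (Pf.B 6 2 (Pf.C 24 0xc04105) (Pf.C 24 82182)))) (Pf.C 77 769)) Pf.nil))) (Pf.cons (Pf.C 77 389) Pf.nil)))))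
 Pq.nil)))) (Pq.cons (Pq.D 3 (Pq.cons (Pq.L [] 5 (Pf.B 6 4 (Pf.C 2 518) (Pf.C 8 49670)))
 (Pq.cons (Pq.L [0,1,2] 7 (Pf.B 6 4 (Pf.B 6 5 (Pf.B 5 4 (Pf.T 1 31 (Pf.cons (Pf.T 2 31 (Pf.cons (Pf.T 4 30 (Pf.cons (Pf.T 6 31 (Pf.cons (Pf.B 6 2 (Pf.B 5 2 (Pf.B 4 2 (Pf.B 3 2 (Pf.C 26 0x80c282) (Pf.C 27 0xc0c105)) (Pf.C 26 0x808300)) (Pf.C 27 82182)) (Pf.B 6 1 (Pf.C 27 0x208300) (Pf.B 3 2 (Pf.B 5 2 (Pf.C 27 0x618105) (Pf.B 5 1 (Pf.C 24 0xa18082) (Pf.C 24 32901))) (Pf.C 24 98563)))) (Pf.cons (Pf.C 77 390) Pf.nil))) (Pf.cons (Pf.C 75 388) Pf.nil))) (Pf.cons (Pf.B 5 2 (Pf.B 3 2 (Pf.C 27 0xa00182) (Pf.C 77 386)) (Pf.C 77 642)) Pf.nil))) (Pf.cons (Pf.B 5 1 (Pf.B 3 1 (Pf.C 27 0xa00181) (Pf.C 77 385)) (Pf.C 77 641))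 Pf.nil))) (Pf.B 4 2 (Pf.B 4 1 (Pf.T 1 31 (Pf.cons (Pf.T 2 31 (Pf.cons (Pf.T 4 30 (Pf.cons (Pf.T 6 31 (Pf.cons (Pf.B 6 2 (Pf.B 5 2 (Pf.C 26 0x814302) (Pf.C 27 82182)) (Pf.B 6 1 (Pf.C 27 0x208300) (Pf.B 3 2 (Pf.B 5 2 (Pf.C 27 0x618105) (Pf.B 5 1 (Pf.C 24 0xa18082) (Pf.C 24 32901))) (Pf.C 24 98563)))) (Pf.cons (Pf.C 77 390) Pf.nil))) (Pf.cons (Pf.C 75 388) Pf.nil))) (Pf.cons (Pf.B 5 2 (Pf.B 3 2 (Pf.C 27 0xa00182) (Pf.C 77 386)) (Pf.C 77 642)) Pf.nil))) (Pf.cons (Pf.B 5 1 (Pf.B 6 1 (Pf.C 26 0x814086) (Pf.B 6 2 (Pf.C 27 0x404300) (Pf.B 5 2 (Pf.B 3 2 (Pf.C 27 0xa00182) (Pf.C 24 98563)) (Pf.C 24 0xa18082)))) (Pf.C 77 641)) Pf.nil))) (Pf.C 55 0xa0c084)) (Pf.C 55 0xa0c104))) (Pf.T 6 31 (Pf.cons (Pf.T 1 31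 (Pf.cons (Pf.T 2 31 (Pf.cons (Pf.B 6 2 (Pf.B 6 1 (Pf.B 5 2 (Pf.C 27 0xc14002) (Pf.B 5 1 (Pf.C 27 0xc14001) (Pf.C 24 32901))) (Pf.C 27 0x404300)) (Pf.B 6 1 (Pf.C 27 0x208300) (Pf.B 5 2 (Pf.B 5 1 (Pf.C 24 0xa08086) (Pf.C 24 98437)) (Pf.C 24 98565)))) (Pf.cons (Pf.B 5 2 (Pf.B 6 2 (Pf.C 27 82690) (Pf.B 6 1 (Pf.C 27 0x208300) (Pf.B 5 1 (Pf.C 24 0xa08086) (Pf.C 24 98437)))) (Pf.C 77 642)) Pf.nil))) (Pf.cons (Pf.B 5 1 (Pf.B 6 1 (Pf.C 27 82689) (Pf.B 6 2 (Pf.C 27 0x404300) (Pf.B 5 2 (Pf.C 24 0xa04106) (Pf.C 24 98565)))) (Pf.C 77 641)) Pf.nil))) (Pf.cons (Pf.C 77 390) Pf.nil)))) (Pf.C 9 49924)))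
 (Pq.cons (Pq.L [0,1,2] 7 (Pf.B 6 5 (Pf.B 6 4 (Pf.B 5 4 (Pf.C 26 0x80c305) (Pf.B 4 2 (Pf.B 4 1 (Pf.T 1 31 (Pf.cons (Pf.T 2 31 (Pf.cons (Pf.T 4 30 (Pf.cons (Pf.B 6 2 (Pf.B 5 2 (Pf.C 26 0x814302) (Pf.B 3 2 (Pf.C 26 0x80c302) (Pf.C 27 0xa08186))) (Pf.B 6 1 (Pf.B 5 1 (Pf.C 26 0x814301) (Pf.B 5 2 (Pf.B 3 2 (Pf.C 27 0xa00182) (Pf.C 27 0xc08185)) (Pf.C 24 16645))) (Pf.C 24 32902))) (Pf.cons (Pf.C 75 388) Pf.nil))) (Pf.cons (Pf.B 6 2 (Pf.B 5 2 (Pf.C 26 0x814302) (Pf.C 77 642)) (Pf.C 77 770)) Pf.nil))) (Pf.cons (Pf.B 6 1 (Pf.B 5 1 (Pf.C 26 0x814301) (Pf.C 77 641)) (Pf.C 77 769)) Pf.nil))) (Pf.C 55 0xa0c084)) (Pf.C 55 0xa0c104))) (Pf.B 5 4 (Pf.B 4 2 (Pf.B 4 1 (Pf.T 1 31 (Pf.cons (Pf.T 2 31 (Pf.cons (Pf.T 4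 30 (Pf.cons (Pf.B 6 2 (Pf.B 5 2 (Pf.C 26 0x818105) (Pf.B 3 2 (Pf.C 27 0xc00182) (Pf.C 27 0xa08186))) (Pf.B 6 1 (Pf.B 5 1 (Pf.C 26 0x818085) (Pf.B 5 2 (Pf.B 3 2 (Pf.C 26 0x80c282) (Pf.C 27 0xc08185)) (Pf.C 24 16645))) (Pf.C 24 32902))) (Pf.cons (Pf.C 75 388) Pf.nil))) (Pf.cons (Pf.B 6 2 (Pf.B 5 2 (Pf.C 26 0x818105) (Pf.C 77 642)) (Pf.C 77 770)) Pf.nil))) (Pf.cons (Pf.B 6 1 (Pf.B 5 1 (Pf.C 26 0x818085) (Pf.C 77 641)) (Pf.C 77 769)) Pf.nil))) (Pf.C 55 0xc0c084)) (Pf.C 55 0xc0c104)) (Pf.C 55 0xc0c284))) (Pf.C 24 0x614300)))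
 Pq.nil)))) Pq.nil)))) (Pq.cons (Pq.D 2 (Pq.cons (Pq.D 3 (Pq.cons (Pq.L [] 6 (Pf.B 6 5 (Pf.C 2 646) (Pf.C 8 49798)))
 (Pq.cons (Pq.L [0] 7 (Pf.B 6 4 (Pf.T 6 31 (Pf.cons (Pf.T 5 30 (Pf.cons (Pf.T 4 31 (Pf.cons (Pf.W 98 6 [] [0,3,4] (Pf.cons (Pf.B 7 4 (Pf.B 7 3 (Pf.C 27 0xc0c207) (Pf.C 24 0x800383)) (Pf.C 27 0x1c206)) Pf.nil)) (Pf.cons (Pf.C 77 388) Pf.nil))) (Pf.cons (Pf.C 75 389) Pf.nil))) (Pf.cons (Pf.C 77 390) Pf.nil))) (Pf.C 24 66307)))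
 (Pq.cons (Pq.L [0,1,2] 5 (Pf.B 6 4 (Pf.T 1 31 (Pf.cons (Pf.T 2 31 (Pf.cons (Pf.T 4 31 (Pf.cons (Pf.B 6 2 (Pf.B 3 2 (Pf.C 27 0xc00182) (Pf.B 4 2 (Pf.C 27 0x40c206) (Pf.C 24 33283))) (Pf.B 6 1 (Pf.B 4 2 (Pf.C 27 98564) (Pf.B 4 1 (Pf.C 27 0x208200) (Pf.C 24 0xc04202))) (Pf.C 24 32902))) (Pf.cons (Pf.C 77 388) Pf.nil))) (Pf.cons (Pf.B 6 2 (Pf.B 3 2 (Pf.C 27 0xc00182) (Pf.C 77 386)) (Pf.C 77 770)) Pf.nil))) (Pf.cons (Pf.B 6 1 (Pf.B 3 1 (Pf.C 27 0xc00181) (Pf.C 77 385)) (Pf.C 77 769)) Pf.nil))) (Pf.T 4 31 (Pf.cons (Pf.T 1 31 (Pf.cons (Pf.T 2 31 (Pf.cons (Pf.B 6 2 (Pf.B 4 2 (Pf.C 27 98818) (Pf.B 4 1 (Pf.C 27 0x208200) (Pf.B 6 1 (Pf.C 24 0xc08084) (Pf.C 24 65670)))) (Pf.B 6 1 (Pf.B 4 2 (Pf.B 4 1 (Pf.C 27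 98817) (Pf.C 27 0x404200)) (Pf.C 24 33286)) (Pf.C 24 32902))) (Pf.cons (Pf.B 6 2 (Pf.B 4 2 (Pf.C 27 98818) (Pf.B 4 1 (Pf.C 27 0x208200) (Pf.B 6 1 (Pf.C 24 0xc08084) (Pf.C 24 65670)))) (Pf.C 77 770)) Pf.nil))) (Pf.cons (Pf.B 6 1 (Pf.B 4 1 (Pf.C 27 98817) (Pf.B 4 2 (Pf.C 27 0x404200) (Pf.B 6 2 (Pf.C 24 0xc04104) (Pf.C 24 65798)))) (Pf.C 77 769)) Pf.nil))) (Pf.cons (Pf.C 77 388) Pf.nil)))))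
 Pq.nil)))) (Pq.cons (Pq.D 3 (Pq.cons (Pq.L [0] 7 (Pf.B 5 4 (Pf.T 6 30 (Pf.cons (Pf.T 5 31 (Pf.cons (Pf.T 4 31 (Pf.cons (Pf.W 98 5 [] [0,3,4] (Pf.cons (Pf.B 7 4 (Pf.B 7 3 (Pf.C 27 0xa0c207) (Pf.C 24 0x800383)) (Pf.C 27 0x1c205)) Pf.nil)) (Pf.cons (Pf.C 77 388) Pf.nil))) (Pf.cons (Pf.C 77 389) Pf.nil))) (Pf.cons (Pf.C 75 390) Pf.nil))) (Pf.C 24 66179)))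
 (Pq.cons (Pq.L [0] 7 (Pf.B 6 5 (Pf.B 6 4 (Pf.B 5 4 (Pf.T 6 31 (Pf.cons (Pf.T 5 31 (Pf.cons (Pf.T 4 31 (Pf.cons (Pf.W 69 0xc14003 [] [4] (Pf.cons (Pf.B 7 6 (Pf.B 7 5 (Pf.C 26 0xe00305) (Pf.B 7 4 (Pf.C 26 0xe00304) (Pf.C 55 0xa00207))) (Pf.B 7 5 (Pf.B 7 4 (Pf.C 26 0xe00284) (Pf.C 55 0xc00207)) (Pf.C 55 0xc00287))) (Pf.cons (Pf.B 7 6 (Pf.B 7 5 (Pf.C 27 0xc0c287) (Pf.C 27 0x1c286)) (Pf.B 7 5 (Pf.C 27 0xc1c005) (Pf.B 7 4 (Pf.C 27 0xa1c004) (Pf.T 7 23 (Pf.cons (Pf.T 7 24 (Pf.cons (Pf.W 69 0xc14003 [7] [4] (Pf.cons (Pf.B 8 6 (Pf.B 8 5 (Pf.C 26 0x1000305) (Pf.B 8 4 (Pf.C 26 0x1000304) (Pf.C 55 0xa00208))) (Pf.B 8 5 (Pf.B 8 4 (Pf.C 26 0x1000284) (Pf.C 55 0xc00208)) (Pf.C 55 0xc00288))) (Pf.cons (Pf.B 8 7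 (Pf.B 8 5 (Pf.C 27 0xe14188) (Pf.B 8 4 (Pf.C 27 0xe10188) (Pf.T 8 23 (Pf.cons (Pf.T 8 24 (Pf.cons (Pf.W 46 640 [] [4,7,8] (Pf.cons (Pf.B 9 4 (Pf.C 26 0x1200284) (Pf.W 46 512 [] [7,8,9] (Pf.cons (Pf.B 10 9 (Pf.C 2 1162) (Pf.C 8 1162)) (Pf.cons (Pf.B 10 9 (Pf.C 2 1162) (Pf.C 8 66698)) (Pf.cons (Pf.B 10 8 (Pf.B 10 7 (Pf.C 27 0x101038a) (Pf.C 24 0x800507)) (Pf.C 24 0x800508)) (Pf.cons (Pf.B 10 8 (Pf.B 10 7 (Pf.C 27 0x100038a) (Pf.C 24 66823)) (Pf.C 24 66824)) (Pf.cons (Pf.B 10 9 (Pf.C 5 1289) (Pf.C 8 1162)) (Pf.cons (Pf.B 10 9 (Pf.C 5 1289) (Pf.C 8 66698)) (Pf.cons (Pf.B 10 9 (Pf.C 5 1289) (Pf.C 8 1162)) (Pf.cons (Pf.B 10 9 (Pf.C 5 1289) (Pf.C 8 66698)) Pf.nil)))))))))) (Pf.cons (Pf.B 9 4 (Pf.C 26 0x1214004)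 (Pf.W 46 644 [] [7,8,9] (Pf.cons (Pf.B 10 9 (Pf.C 2 1162) (Pf.C 8 66698)) (Pf.cons (Pf.B 10 9 (Pf.C 2 1162) (Pf.C 8 83082)) (Pf.cons (Pf.B 10 8 (Pf.B 10 7 (Pf.C 27 0x101438a) (Pf.C 24 0xa10507)) (Pf.C 24 0xa10508)) (Pf.cons (Pf.B 10 8 (Pf.B 10 7 (Pf.C 27 0x101038a) (Pf.C 24 0x814507)) (Pf.C 24 0x814508)) (Pf.cons (Pf.B 10 9 (Pf.C 5 1289) (Pf.C 8 66698)) (Pf.cons (Pf.B 10 9 (Pf.C 5 1289) (Pf.C 8 83082)) (Pf.cons (Pf.B 10 9 (Pf.C 5 1289) (Pf.C 8 66698)) (Pf.cons (Pf.B 10 9 (Pf.C 5 1289) (Pf.C 8 83082)) Pf.nil)))))))))) (Pf.cons (Pf.B 9 8 (Pf.B 9 7 (Pf.C 27 0x1014389) (Pf.C 24 0xa00487)) (Pf.C 24 0xa00488)) (Pf.cons (Pf.B 9 8 (Pf.B 9 7 (Pf.C 27 0x1000389) (Pf.C 24 83079)) (Pf.C 24 83080)) (Pf.cons (Pf.B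 9 8 (Pf.C 12 0x24400) (Pf.C 12 0x24288)) (Pf.cons (Pf.B 9 8 (Pf.C 12 0x24405) (Pf.C 12 0x24008)) (Pf.cons (Pf.B 9 8 (Pf.C 12 0x24400) (Pf.C 12 0x24288)) (Pf.cons (Pf.B 9 8 (Pf.C 12 0x24405) (Pf.C 12 0x24008)) Pf.nil))))))))) Pf.nil)) Pf.nil)))) (Pf.C 24 0x61c400)) (Pf.cons (Pf.B 8 7 (Pf.B 8 6 (Pf.C 27 0xe18188) (Pf.B 8 5 (Pf.C 27 0xe14188) (Pf.C 59 0xc00288))) (Pf.C 24 0x61c400)) (Pf.cons (Pf.C 12 0x20180) Pf.nil))))) Pf.nil)) Pf.nil))))) (Pf.cons (Pf.B 7 6 (Pf.B 7 5 (Pf.C 27 0xc0c287) (Pf.C 27 0x1c286)) (Pf.B 7 5 (Pf.C 27 0xc1c005) (Pf.C 59 0xc00287))) (Pf.cons (Pf.C 12 0x1c180) Pf.nil))))) (Pf.cons (Pf.C 77 388) Pf.nil))) (Pf.cons (Pf.C 77 389) Pf.nil))) (Pf.cons (Pf.C 77 390) Pf.nil))) (Pf.C 24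 66179)) (Pf.C 24 66307)) (Pf.C 24 82691)))
 (Pq.cons (Pq.L [0] 7 (Pf.B 5 4 (Pf.B 6 5 (Pf.B 6 4 (Pf.C 27 0xa0c206) (Pf.C 27 98821)) (Pf.B 6 4 (Pf.C 27 0xa18004) (Pf.T 5 31 (Pf.cons (Pf.T 4 31 (Pf.cons (Pf.W 98 5 [] [0,4,6] (Pf.cons (Pf.B 7 6 (Pf.B 7 4 (Pf.C 27 0xa18207) (Pf.C 27 0x1c205)) (Pf.C 24 0xa00386)) Pf.nil)) (Pf.cons (Pf.C 77 388) Pf.nil))) (Pf.cons (Pf.C 77 389) Pf.nil))))) (Pf.C 24 66179)))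
 Pq.nil)))) (Pq.cons (Pq.D 3 (Pq.cons (Pq.L [0,1,2] 7 (Pf.B 6 4 (Pf.B 6 5 (Pf.B 5 4 (Pf.T 1 31 (Pf.cons (Pf.T 2 31 (Pf.cons (Pf.T 4 31 (Pf.cons (Pf.T 6 30 (Pf.cons (Pf.B 6 2 (Pf.B 5 2 (Pf.B 3 2 (Pf.C 26 0xc0c282) (Pf.B 4 2 (Pf.C 27 0x40c205) (Pf.C 24 33283))) (Pf.B 5 1 (Pf.B 4 2 (Pf.C 27 82180) (Pf.B 4 1 (Pf.C 27 0x208200) (Pf.C 24 0xa04202))) (Pf.C 24 32901))) (Pf.B 4 2 (Pf.C 26 0xc08004) (Pf.B 4 1 (Pf.C 27 0x208200) (Pf.B 3 2 (Pf.B 5 2 (Pf.C 27 0x610105) (Pf.B 5 1 (Pf.C 24 0xa10082) (Pf.C 24 32901))) (Pf.C 9 33158))))) (Pf.cons (Pf.C 75 390) Pf.nil))) (Pf.cons (Pf.C 77 388) Pf.nil))) (Pf.cons (Pf.B 5 2 (Pf.B 3 2 (Pf.C 27 0xa00182) (Pf.C 77 386)) (Pf.C 77 642)) Pf.nil))) (Pf.cons (Pf.B 5 1 (Pf.B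 3 1 (Pf.C 27 0xa00181) (Pf.C 77 385)) (Pf.C 77 641)) Pf.nil))) (Pf.T 4 31 (Pf.cons (Pf.T 1 31 (Pf.cons (Pf.T 2 31 (Pf.cons (Pf.B 5 2 (Pf.B 4 2 (Pf.C 27 82434) (Pf.B 4 1 (Pf.C 27 0x208200) (Pf.B 5 1 (Pf.C 24 0xa08084) (Pf.C 24 65669)))) (Pf.B 5 1 (Pf.B 4 2 (Pf.B 4 1 (Pf.C 27 82433) (Pf.C 27 0x404200)) (Pf.C 24 33285)) (Pf.C 24 32901))) (Pf.cons (Pf.B 5 2 (Pf.B 4 2 (Pf.C 27 82434) (Pf.B 4 1 (Pf.C 27 0x208200) (Pf.B 5 1 (Pf.C 24 0xa08084) (Pf.C 24 65669)))) (Pf.C 77 642)) Pf.nil))) (Pf.cons (Pf.B 5 1 (Pf.B 4 1 (Pf.C 27 82433) (Pf.B 4 2 (Pf.C 27 0x404200) (Pf.B 5 2 (Pf.C 24 0xa04104) (Pf.C 24 65797)))) (Pf.C 77 641)) Pf.nil))) (Pf.cons (Pf.C 77 388) Pf.nil)))) (Pf.B 6 2 (Pf.B 6 1 (Pf.B 5 4 (Pf.T 1 31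 (Pf.cons (Pf.T 2 31 (Pf.cons (Pf.T 4 31 (Pf.cons (Pf.T 6 30 (Pf.cons (Pf.B 5 2 (Pf.B 4 2 (Pf.C 26 0xc14104) (Pf.B 3 2 (Pf.C 27 0xa00182) (Pf.C 24 65795))) (Pf.B 5 1 (Pf.B 4 2 (Pf.C 27 82180) (Pf.B 4 1 (Pf.C 26 0xc14084) (Pf.C 24 0xa04202))) (Pf.C 24 32901))) (Pf.cons (Pf.C 75 390) Pf.nil))) (Pf.cons (Pf.C 77 388) Pf.nil))) (Pf.cons (Pf.B 5 2 (Pf.B 3 2 (Pf.C 27 0xa00182) (Pf.C 77 386)) (Pf.C 77 642)) Pf.nil))) (Pf.cons (Pf.B 5 1 (Pf.B 4 1 (Pf.C 26 0xc14084) (Pf.B 4 2 (Pf.C 27 0x404200) (Pf.B 5 2 (Pf.B 3 2 (Pf.C 27 0xa00182) (Pf.C 24 65795)) (Pf.C 24 0xa10082)))) (Pf.C 77 641)) Pf.nil))) (Pf.T 6 30 (Pf.cons (Pf.T 4 31 (Pf.cons (Pf.W 98 4 [] [0,3,5] (Pf.cons (Pf.B 7 5 (Pf.B 7 3 (Pf.C 27 0xa10187) (Pf.C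 24 0x800383)) (Pf.C 24 0x800385)) Pf.nil)) (Pf.cons (Pf.C 77 388) Pf.nil))) (Pf.cons (Pf.C 75 390) Pf.nil)))) (Pf.C 55 0xa0c086)) (Pf.C 55 0xa0c106))) (Pf.C 9 49670)))
 (Pq.cons (Pq.L [0] 7 (Pf.B 6 4 (Pf.B 6 5 (Pf.B 5 4 (Pf.C 27 0xc0c205) (Pf.C 27 82438)) (Pf.B 5 4 (Pf.C 27 0xc14004) (Pf.T 6 31 (Pf.cons (Pf.T 4 31 (Pf.cons (Pf.W 98 6 [] [0,4,5] (Pf.cons (Pf.B 7 5 (Pf.B 7 4 (Pf.C 27 0xc14207) (Pf.C 27 0x1c206)) (Pf.C 24 0xc00385)) Pf.nil)) (Pf.cons (Pf.C 77 388) Pf.nil))) (Pf.cons (Pf.C 77 390) Pf.nil))))) (Pf.C 24 66307)))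
 (Pq.cons (Pq.L [0] 7 (Pf.B 6 5 (Pf.B 6 4 (Pf.B 5 4 (Pf.C 27 0xc00284) (Pf.C 27 0x610286)) (Pf.B 5 4 (Pf.C 27 0xc10185) (Pf.T 4 31 (Pf.cons (Pf.W 98 4 [] [0,5,6] (Pf.cons (Pf.B 7 6 (Pf.B 7 5 (Pf.C 27 0xc10287) (Pf.C 24 0x800385)) (Pf.C 24 0x800386)) Pf.nil)) (Pf.cons (Pf.C 77 388) Pf.nil))))) (Pf.C 24 0x614300)))
 Pq.nil)))) Pq.nil)))) (Pq.cons (Pq.D 2 (Pq.cons (Pq.D 3 (Pq.cons (Pq.L [] 6 (Pf.B 6 5 (Pf.C 2 646) (Pf.C 8 49798)))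
 (Pq.cons (Pq.L [0,1,2] 7 (Pf.B 6 5 (Pf.B 6 4 (Pf.B 5 4 (Pf.T 1 31 (Pf.cons (Pf.T 2 31 (Pf.cons (Pf.T 5 30 (Pf.cons (Pf.T 6 31 (Pf.cons (Pf.B 6 2 (Pf.B 5 2 (Pf.B 4 2 (Pf.B 3 2 (Pf.C 26 0xa0c202) (Pf.C 27 0xc0c104)) (Pf.C 27 65798)) (Pf.C 26 0xa08300)) (Pf.B 6 1 (Pf.C 27 0x208300) (Pf.B 3 2 (Pf.B 4 2 (Pf.C 27 0x618104) (Pf.B 4 1 (Pf.C 24 0x818082) (Pf.C 24 32900))) (Pf.C 24 98563)))) (Pf.cons (Pf.C 77 390) Pf.nil))) (Pf.cons (Pf.C 75 389) Pf.nil))) (Pf.cons (Pf.B 4 2 (Pf.B 3 2 (Pf.C 27 0x800182) (Pf.C 77 386)) (Pf.C 77 514)) Pf.nil))) (Pf.cons (Pf.B 4 1 (Pf.B 3 1 (Pf.C 27 0x800181) (Pf.C 77 385)) (Pf.C 77 513)) Pf.nil))) (Pf.B 5 2 (Pf.B 5 1 (Pf.T 1 31 (Pf.cons (Pf.T 2 31 (Pf.cons (Pf.T 5 30 (Pf.cons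 (Pf.T 6 31 (Pf.cons (Pf.B 6 2 (Pf.B 4 2 (Pf.C 26 0xa10302) (Pf.C 27 65798)) (Pf.B 6 1 (Pf.C 27 0x208300) (Pf.B 3 2 (Pf.B 4 2 (Pf.C 27 0x618104) (Pf.B 4 1 (Pf.C 24 0x818082) (Pf.C 24 32900))) (Pf.C 24 98563)))) (Pf.cons (Pf.C 77 390) Pf.nil))) (Pf.cons (Pf.C 75 389) Pf.nil))) (Pf.cons (Pf.B 4 2 (Pf.B 3 2 (Pf.C 27 0x800182) (Pf.C 77 386)) (Pf.C 77 514)) Pf.nil))) (Pf.cons (Pf.B 4 1 (Pf.B 6 1 (Pf.C 26 0xa10086) (Pf.B 6 2 (Pf.C 27 0x404300) (Pf.B 4 2 (Pf.B 3 2 (Pf.C 27 0x800182) (Pf.C 24 98563)) (Pf.C 24 0x818082)))) (Pf.C 77 513)) Pf.nil))) (Pf.C 55 0x80c085)) (Pf.C 55 0x80c105))) (Pf.T 6 31 (Pf.cons (Pf.T 1 31 (Pf.cons (Pf.T 2 31 (Pf.cons (Pf.B 6 2 (Pf.B 6 1 (Pf.B 4 2 (Pf.C 27 0xc10002) (Pf.B 4 1 (Pf.C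 27 0xc10001) (Pf.C 24 32900))) (Pf.C 27 0x404300)) (Pf.B 6 1 (Pf.C 27 0x208300) (Pf.B 4 2 (Pf.B 4 1 (Pf.C 24 0x808086) (Pf.C 24 98436)) (Pf.C 24 98564)))) (Pf.cons (Pf.B 4 2 (Pf.B 6 2 (Pf.C 27 66306) (Pf.B 6 1 (Pf.C 27 0x208300) (Pf.B 4 1 (Pf.C 24 0x808086) (Pf.C 24 98436)))) (Pf.C 77 514)) Pf.nil))) (Pf.cons (Pf.B 4 1 (Pf.B 6 1 (Pf.C 27 66305) (Pf.B 6 2 (Pf.C 27 0x404300) (Pf.B 4 2 (Pf.C 24 0x804106) (Pf.C 24 98564)))) (Pf.C 77 513)) Pf.nil))) (Pf.cons (Pf.C 77 390) Pf.nil)))) (Pf.C 9 49925)))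
 (Pq.cons (Pq.L [0,1,2] 7 (Pf.B 6 4 (Pf.B 6 5 (Pf.B 5 4 (Pf.C 26 0xa0c304) (Pf.B 5 2 (Pf.B 5 1 (Pf.T 1 31 (Pf.cons (Pf.T 2 31 (Pf.cons (Pf.T 5 30 (Pf.cons (Pf.B 6 2 (Pf.B 4 2 (Pf.C 26 0xa10302) (Pf.B 3 2 (Pf.C 26 0xa0c302) (Pf.C 27 0x808186))) (Pf.B 6 1 (Pf.B 4 1 (Pf.C 26 0xa10301) (Pf.B 4 2 (Pf.B 3 2 (Pf.C 27 0x800182) (Pf.C 27 0xc08184)) (Pf.C 24 16644))) (Pf.C 24 32902))) (Pf.cons (Pf.C 75 389) Pf.nil))) (Pf.cons (Pf.B 6 2 (Pf.B 4 2 (Pf.C 26 0xa10302) (Pf.C 77 514)) (Pf.C 77 770)) Pf.nil))) (Pf.cons (Pf.B 6 1 (Pf.B 4 1 (Pf.C 26 0xa10301) (Pf.C 77 513)) (Pf.C 77 769)) Pf.nil))) (Pf.C 55 0x80c085)) (Pf.C 55 0x80c105))) (Pf.B 5 4 (Pf.B 5 2 (Pf.B 5 1 (Pf.T 1 31 (Pf.cons (Pf.T 2 31 (Pf.cons (Pf.T 5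 30 (Pf.cons (Pf.B 6 2 (Pf.B 4 2 (Pf.C 26 0xa18104) (Pf.B 3 2 (Pf.C 27 0xc00182) (Pf.C 27 0x808186))) (Pf.B 6 1 (Pf.B 4 1 (Pf.C 26 0xa18084) (Pf.B 4 2 (Pf.B 3 2 (Pf.C 26 0xa0c202) (Pf.C 27 0xc08184)) (Pf.C 24 16644))) (Pf.C 24 32902))) (Pf.cons (Pf.C 75 389) Pf.nil))) (Pf.cons (Pf.B 6 2 (Pf.B 4 2 (Pf.C 26 0xa18104) (Pf.C 77 514)) (Pf.C 77 770)) Pf.nil))) (Pf.cons (Pf.B 6 1 (Pf.B 4 1 (Pf.C 26 0xa18084) (Pf.C 77 513)) (Pf.C 77 769)) Pf.nil))) (Pf.C 55 0xc0c085)) (Pf.C 55 0xc0c105)) (Pf.C 55 0xc0c205))) (Pf.C 24 0x610300)))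
 Pq.nil)))) (Pq.cons (Pq.D 3 (Pq.cons (Pq.L [0,1,2] 7 (Pf.B 6 5 (Pf.B 6 4 (Pf.B 5 4 (Pf.T 1 31 (Pf.cons (Pf.T 2 31 (Pf.cons (Pf.T 5 31 (Pf.cons (Pf.T 6 30 (Pf.cons (Pf.B 6 2 (Pf.B 5 2 (Pf.B 4 2 (Pf.B 3 2 (Pf.C 26 0xc0c202) (Pf.C 27 0xa0c104)) (Pf.C 27 65797)) (Pf.B 5 1 (Pf.C 27 0x208280) (Pf.B 3 2 (Pf.B 4 2 (Pf.C 26 0xc0c104) (Pf.B 4 1 (Pf.C 24 0x814082) (Pf.C 24 32900))) (Pf.C 24 82179)))) (Pf.B 5 2 (Pf.C 26 0xc08005) (Pf.B 5 1 (Pf.C 27 0x208280) (Pf.B 3 2 (Pf.B 4 2 (Pf.C 27 0x614104) (Pf.B 4 1 (Pf.C 24 0x814082) (Pf.C 24 32900))) (Pf.C 9 33158))))) (Pf.cons (Pf.C 75 390) Pf.nil))) (Pf.cons (Pf.C 77 389) Pf.nil))) (Pf.cons (Pf.B 4 2 (Pf.B 3 2 (Pf.C 27 0x800182) (Pf.C 77 386)) (Pf.C 77 514)) Pf.nil)))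 (Pf.cons (Pf.B 4 1 (Pf.B 3 1 (Pf.C 27 0x800181) (Pf.C 77 385)) (Pf.C 77 513)) Pf.nil))) (Pf.T 5 31 (Pf.cons (Pf.T 1 31 (Pf.cons (Pf.T 2 31 (Pf.cons (Pf.B 5 2 (Pf.B 5 1 (Pf.B 4 2 (Pf.C 27 0xa10002) (Pf.B 4 1 (Pf.C 27 0xa10001) (Pf.C 24 32900))) (Pf.C 27 0x404280)) (Pf.B 5 1 (Pf.C 27 0x208280) (Pf.B 4 2 (Pf.B 4 1 (Pf.C 24 0x808085) (Pf.C 24 82052)) (Pf.C 24 82180)))) (Pf.cons (Pf.B 4 2 (Pf.B 5 2 (Pf.C 27 66178) (Pf.B 5 1 (Pf.C 27 0x208280) (Pf.B 4 1 (Pf.C 24 0x808085) (Pf.C 24 82052)))) (Pf.C 77 514)) Pf.nil))) (Pf.cons (Pf.B 4 1 (Pf.B 5 1 (Pf.C 27 66177) (Pf.B 5 2 (Pf.C 27 0x404280) (Pf.B 4 2 (Pf.C 24 0x804105) (Pf.C 24 82180)))) (Pf.C 77 513)) Pf.nil))) (Pf.cons (Pf.C 77 389) Pf.nil)))) (Pf.B 6 2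 (Pf.B 6 1 (Pf.B 5 4 (Pf.T 1 31 (Pf.cons (Pf.T 2 31 (Pf.cons (Pf.T 5 31 (Pf.cons (Pf.T 6 30 (Pf.cons (Pf.B 5 2 (Pf.B 4 2 (Pf.C 26 0xc10282) (Pf.C 27 65797)) (Pf.B 5 1 (Pf.C 27 0x208280) (Pf.B 3 2 (Pf.B 4 2 (Pf.C 27 0x614104) (Pf.B 4 1 (Pf.C 24 0x814082) (Pf.C 24 32900))) (Pf.C 24 82179)))) (Pf.cons (Pf.C 75 390) Pf.nil))) (Pf.cons (Pf.C 77 389) Pf.nil))) (Pf.cons (Pf.B 4 2 (Pf.B 3 2 (Pf.C 27 0x800182) (Pf.C 77 386)) (Pf.C 77 514)) Pf.nil))) (Pf.cons (Pf.B 4 1 (Pf.B 5 1 (Pf.C 26 0xc10085) (Pf.B 5 2 (Pf.C 27 0x404280) (Pf.B 4 2 (Pf.B 3 2 (Pf.C 27 0x800182) (Pf.C 24 82179)) (Pf.C 24 0x814082)))) (Pf.C 77 513)) Pf.nil))) (Pf.T 6 30 (Pf.cons (Pf.T 5 31 (Pf.cons (Pf.W 98 5 [] [0,3,4] (Pf.cons (Pf.B 7 4 (Pf.B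 7 3 (Pf.C 27 0x814187) (Pf.C 24 0xa00383)) (Pf.C 24 0xa00384)) Pf.nil)) (Pf.cons (Pf.C 77 389) Pf.nil))) (Pf.cons (Pf.C 75 390) Pf.nil)))) (Pf.C 55 0x80c086)) (Pf.C 55 0x80c106))) (Pf.C 9 49798)))
 (Pq.cons (Pq.L [0] 7 (Pf.B 6 5 (Pf.B 6 4 (Pf.B 5 4 (Pf.C 27 0xc0c284) (Pf.C 27 66182)) (Pf.B 5 4 (Pf.C 27 0xc10005) (Pf.T 6 31 (Pf.cons (Pf.T 5 31 (Pf.cons (Pf.W 98 6 [] [0,4,5] (Pf.cons (Pf.B 7 5 (Pf.B 7 4 (Pf.C 27 0xc10287) (Pf.C 24 0xa00384)) (Pf.C 27 0x1c286)) Pf.nil)) (Pf.cons (Pf.C 77 389) Pf.nil))) (Pf.cons (Pf.C 77 390) Pf.nil))))) (Pf.C 24 82691)))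
 (Pq.cons (Pq.L [0] 7 (Pf.B 6 4 (Pf.B 6 5 (Pf.B 5 4 (Pf.C 27 0xc00205) (Pf.C 27 0x614206)) (Pf.B 5 4 (Pf.C 27 0xc14184) (Pf.T 5 31 (Pf.cons (Pf.W 98 5 [] [0,4,6] (Pf.cons (Pf.B 7 6 (Pf.B 7 4 (Pf.C 27 0xc14207) (Pf.C 24 0xa00384)) (Pf.C 24 0xa00386)) Pf.nil)) (Pf.cons (Pf.C 77 389) Pf.nil))))) (Pf.C 24 0x610300)))
 Pq.nil)))) (Pq.cons (Pq.D 3 (Pq.cons (Pq.L [0,1,2] 7 (Pf.B 5 4 (Pf.B 6 5 (Pf.B 6 4 (Pf.C 26 0xc0c284) (Pf.B 6 2 (Pf.B 6 1 (Pf.T 1 31 (Pf.cons (Pf.T 2 31 (Pf.cons (Pf.T 6 30 (Pf.cons (Pf.B 5 2 (Pf.B 4 2 (Pf.C 26 0xc10282) (Pf.B 3 2 (Pf.C 26 0xc0c282) (Pf.C 27 0x808185))) (Pf.B 5 1 (Pf.B 4 1 (Pf.C 26 0xc10281) (Pf.B 4 2 (Pf.B 3 2 (Pf.C 27 0x800182) (Pf.C 27 0xa08184)) (Pf.C 24 16644))) (Pf.C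 24 32901))) (Pf.cons (Pf.C 75 390) Pf.nil))) (Pf.cons (Pf.B 5 2 (Pf.B 4 2 (Pf.C 26 0xc10282) (Pf.C 77 514)) (Pf.C 77 642)) Pf.nil))) (Pf.cons (Pf.B 5 1 (Pf.B 4 1 (Pf.C 26 0xc10281) (Pf.C 77 513)) (Pf.C 77 641)) Pf.nil))) (Pf.C 55 0x80c086)) (Pf.C 55 0x80c106))) (Pf.B 6 4 (Pf.B 6 2 (Pf.B 6 1 (Pf.T 1 31 (Pf.cons (Pf.T 2 31 (Pf.cons (Pf.T 6 30 (Pf.cons (Pf.B 5 2 (Pf.B 4 2 (Pf.C 26 0xc14104) (Pf.B 3 2 (Pf.C 27 0xa00182) (Pf.C 27 0x808185))) (Pf.B 5 1 (Pf.B 4 1 (Pf.C 26 0xc14084) (Pf.B 4 2 (Pf.B 3 2 (Pf.C 26 0xc0c202) (Pf.C 27 0xa08184)) (Pf.C 24 16644))) (Pf.C 24 32901))) (Pf.cons (Pf.C 75 390) Pf.nil))) (Pf.cons (Pf.B 5 2 (Pf.B 4 2 (Pf.C 26 0xc14104) (Pf.C 77 514)) (Pf.C 77 642)) Pf.nil))) (Pf.cons (Pf.B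 5 1 (Pf.B 4 1 (Pf.C 26 0xc14084) (Pf.C 77 513)) (Pf.C 77 641)) Pf.nil))) (Pf.C 55 0xa0c086)) (Pf.C 55 0xa0c106)) (Pf.C 55 0xa0c206))) (Pf.C 24 0x610280)))
 (Pq.cons (Pq.L [0] 7 (Pf.B 5 4 (Pf.B 6 5 (Pf.B 6 4 (Pf.C 27 0xa00206) (Pf.C 27 0x618205)) (Pf.B 6 4 (Pf.C 27 0xa18184) (Pf.T 6 31 (Pf.cons (Pf.W 98 6 [] [0,4,5] (Pf.cons (Pf.B 7 5 (Pf.B 7 4 (Pf.C 27 0xa18207) (Pf.C 24 0xc00384)) (Pf.C 24 0xc00385)) Pf.nil)) (Pf.cons (Pf.C 77 390) Pf.nil))))) (Pf.C 24 0x610280)))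
 (Pq.cons (Pq.L [0] 7 (Pf.B 6 5 (Pf.B 6 4 (Pf.B 5 4 (Pf.W 46 515 [] [0,5] (Pf.cons (Pf.B 7 5 (Pf.C 26 0xe0c205) (Pf.W 46 643 [] [4,7] (Pf.cons (Pf.B 8 7 (Pf.C 2 904) (Pf.C 8 50056)) (Pf.cons (Pf.B 8 7 (Pf.C 2 904) (Pf.C 8 82824)) (Pf.cons (Pf.B 8 7 (Pf.B 8 4 (Pf.C 26 0xe14208) (Pf.C 27 0x620205)) (Pf.C 9 50183)) (Pf.cons (Pf.B 8 7 (Pf.B 8 4 (Pf.C 26 0xe0c208) (Pf.C 27 0xa20203)) (Pf.C 9 82951)) (Pf.cons (Pf.B 8 7 (Pf.C 5 1031) (Pf.C 8 50056)) (Pf.cons (Pf.B 8 7 (Pf.C 5 1031) (Pf.C 8 82824)) (Pf.cons (Pf.B 8 7 (Pf.C 5 1031) (Pf.C 8 50056)) (Pf.cons (Pf.B 8 7 (Pf.C 5 1031) (Pf.C 8 82824)) Pf.nil)))))))))) (Pf.cons (Pf.B 7 5 (Pf.C 26 0xe10185) (Pf.W 46 644 [] [3,7] (Pf.cons (Pf.B 8 7 (Pf.C 2 904) (Pf.C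 8 66440)) (Pf.cons (Pf.B 8 7 (Pf.C 2 904) (Pf.C 8 82824)) (Pf.cons (Pf.B 8 7 (Pf.B 8 3 (Pf.C 26 0xe14188) (Pf.C 27 0x820185)) (Pf.C 9 66567)) (Pf.cons (Pf.B 8 7 (Pf.B 8 3 (Pf.C 26 0xe10188) (Pf.C 27 0xa20184)) (Pf.C 9 82951)) (Pf.cons (Pf.B 8 7 (Pf.C 5 1031) (Pf.C 8 66440)) (Pf.cons (Pf.B 8 7 (Pf.C 5 1031) (Pf.C 8 82824)) (Pf.cons (Pf.B 8 7 (Pf.C 5 1031) (Pf.C 8 66440)) (Pf.cons (Pf.B 8 7 (Pf.C 5 1031) (Pf.C 8 82824)) Pf.nil)))))))))) (Pf.cons (Pf.B 7 5 (Pf.B 7 0 (Pf.C 27 0xa00207) (Pf.C 24 0x80c380)) (Pf.C 27 0x61c284)) (Pf.cons (Pf.B 7 5 (Pf.B 7 0 (Pf.C 27 0xa00187) (Pf.C 24 0x610380)) (Pf.C 27 0x81c283)) (Pf.cons (Pf.B 7 0 (Pf.C 12 0x1c003) (Pf.C 12 0x1c200)) (Pf.cons (Pf.B 7 0 (Pf.C 12 0x1c004)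 (Pf.C 12 0x1c180)) (Pf.cons (Pf.B 7 0 (Pf.C 12 0x1c003) (Pf.C 12 0x1c200)) (Pf.cons (Pf.B 7 0 (Pf.C 12 0x1c004) (Pf.C 12 0x1c180)) Pf.nil))))))))) (Pf.C 24 0x610280)) (Pf.C 24 0x610300)) (Pf.C 24 0x614300)))
 Pq.nil)))) Pq.nil)))) Pq.nil)))) Pq.nil))
theorem h2_o49 : AllRef h2_T h2_G76 (List.drop 1 (List.flatMap (splitP 0) (applyObl TD2 1 [117,122,120] [0,0,0] [(117,0x200000000000000000000000000000),(122,0x4000000000000000000000000000000),(120,0x1000000000000000000000000000000)]))) :=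
  chkPq_sound h2_o49c _ (by decide +kernel)
noncomputable def h2_o50c : Pq := (Pq.cons (Pq.L [0] 0 (Pf.W 31 1 [] [0] (Pf.cons (Pf.C 21 32769) Pf.nil)))
 Pq.nil)
theorem h2_o50 : AllRef h2_T h2_G15 (ptObl 27 (PT.br 0 PT.kid PT.ref) []) :=
  chkPq_sound h2_o50c _ (by decide +kernel)
noncomputable def h2_o51c : Pq := Pq.nil
theorem h2_o51 : AllRef h2_T h2_G77 (ptObl 29 PT.kid []) :=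
  chkPq_sound h2_o51c _ (by decide +kernel)
noncomputable def h2_o52c : Pq := (Pq.cons (Pq.L [0] 0 (Pf.B 2 1 (Pf.C 17 130) (Pf.C 48 130)))
 Pq.nil)
theorem h2_o52 : AllRef h2_T h2_G78 (hitObl [124] h2_h96) :=
  chkPq_sound h2_o52c _ (by decide +kernel)
noncomputable def h2_o53c : Pq := (Pq.cons (Pq.L [] 0 (Pf.C 102 1))
 Pq.nil)
theorem h2_o53 : AllRef h2_T h2_G79 (List.map pat1 [126]) :=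
  chkPq_sound h2_o53c _ (by decide +kernel)
noncomputable def h2_o54c : Pq := (Pq.cons (Pq.L [] 1 (Pf.C 1 257))
 (Pq.cons (Pq.L [] 3 (Pf.C 13 16770))
 (Pq.cons (Pq.L [] 2 (Pf.C 5 131))
 (Pq.cons (Pq.L [] 2 (Pf.C 5 131))
 (Pq.cons (Pq.L [] 2 (Pf.C 3 385))
 (Pq.cons (Pq.L [] 3 (Pf.C 18 16770))
 (Pq.cons (Pq.L [0] 3 (Pf.B 3 2 (Pf.B 3 0 (Pf.C 17 386) (Pf.C 38 384)) (Pf.C 12 16770)))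
 (Pq.cons (Pq.L [0] 3 (Pf.B 3 2 (Pf.B 3 0 (Pf.C 17 386) (Pf.C 38 384)) (Pf.C 12 16770)))
 Pq.nil))))))))
theorem h2_o54 : AllRef h2_T h2_G80 (splitObl [25,28] [26,125,30,31]) :=
  chkPq_sound h2_o54c _ (by decide +kernel)
noncomputable def h2_o55c : Pq := (Pq.cons (Pq.D 0 (Pq.cons (Pq.D 1 (Pq.cons (Pq.L [] 1 (Pf.C 2 257))
 (Pq.cons (Pq.D 2 (Pq.cons (Pq.L [] 2 (Pf.C 2 385))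
 (Pq.cons (Pq.L [0] 3 (Pf.B 3 2 (Pf.B 3 0 (Pf.C 17 386) (Pf.C 38 384)) (Pf.C 9 33153)))
 Pq.nil))) Pq.nil))) (Pq.cons (Pq.D 1 (Pq.cons (Pq.D 2 (Pq.cons (Pq.L [] 3 (Pf.B 3 2 (Pf.C 2 259) (Pf.C 8 16643)))
 (Pq.cons (Pq.L [0] 2 (Pf.B 3 0 (Pf.C 17 385) (Pf.C 38 384)))
 Pq.nil))) (Pq.cons (Pq.L [0] 1 (Pf.B 2 0 (Pf.C 17 257) (Pf.C 38 256)))
 Pq.nil))) Pq.nil))) Pq.nil)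
theorem h2_o55 : AllRef h2_T h2_G80 (applyObl TD2 1 [25,28] [0,0] [(25,0x2000000),(28,0x10000000)]) :=
  chkPq_sound h2_o55c _ (by decide +kernel)
noncomputable def h2_o56c : Pq := (Pq.cons (Pq.D 0 (Pq.cons (Pq.D 1 (Pq.cons (Pq.L [] 1 (Pf.C 1 257))
 (Pq.cons (Pq.L [] 1 (Pf.C 6 257))
 (Pq.cons (Pq.D 2 (Pq.cons (Pq.L [] 2 (Pf.C 1 385))
 (Pq.cons (Pq.L [] 2 (Pf.C 6 385))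
 (Pq.cons (Pq.L [] 11 (Pf.C 8 16770))
 (Pq.cons (Pq.L [] 8 (Pf.C 4 386))
 Pq.nil))))) (Pq.cons (Pq.D 2 (Pq.cons (Pq.L [] 2 (Pf.C 1 385))
 (Pq.cons (Pq.L [] 2 (Pf.C 6 385))
 (Pq.cons (Pq.L [] 8 (Pf.C 4 386))
 (Pq.cons (Pq.L [] 8 (Pf.C 4 386))
 Pq.nil))))) Pq.nil))))) (Pq.cons (Pq.D 1 (Pq.cons (Pq.L [] 1 (Pf.C 6 130))
 (Pq.cons (Pq.D 2 (Pq.cons (Pq.L [] 2 (Pf.C 6 131))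
 (Pq.cons (Pq.D 3 (Pq.cons (Pq.L [] 63 (Pf.C 25 0x608084))
 (Pq.cons (Pq.L [] 63 (Pf.C 24 0x808083))
 (Pq.cons (Pq.L [] 34 (Pf.C 23 65667))
 (Pq.cons (Pq.L [] 34 (Pf.C 23 65667))
 Pq.nil))))) (Pq.cons (Pq.L [] 3 (Pf.C 23 49409))
 (Pq.cons (Pq.L [] 3 (Pf.C 23 49409))
 Pq.nil))))) (Pq.cons (Pq.L [] 1 (Pf.W 43 2 [] [1] (Pf.cons (Pf.C 22 32901) Pf.nil)))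
 (Pq.cons (Pq.D 2 (Pq.cons (Pq.L [] 2 (Pf.C 6 131))
 (Pq.cons (Pq.L [] 3 (Pf.C 23 33153))
 (Pq.cons (Pq.L [] 3 (Pf.C 40 49409))
 (Pq.cons (Pq.L [] 3 (Pf.C 40 49409))
 Pq.nil))))) Pq.nil))))) (Pq.cons (Pq.D 1 (Pq.cons (Pq.D 2 (Pq.cons (Pq.L [] 8 (Pf.C 1 386))
 (Pq.cons (Pq.L [] 8 (Pf.C 6 386))
 (Pq.cons (Pq.L [] 2 (Pf.C 4 385))
 (Pq.cons (Pq.L [] 2 (Pf.C 4 385))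
 Pq.nil))))) (Pq.cons (Pq.L [] 1 (Pf.W 43 1 [] [2] (Pf.cons (Pf.C 22 16645) Pf.nil)))
 (Pq.cons (Pq.L [] 1 (Pf.C 4 257))
 (Pq.cons (Pq.L [] 1 (Pf.C 4 257))
 Pq.nil))))) (Pq.cons (Pq.D 1 (Pq.cons (Pq.D 2 (Pq.cons (Pq.L [] 8 (Pf.C 1 386))
 (Pq.cons (Pq.L [] 8 (Pf.C 6 386))
 (Pq.cons (Pq.L [] 2 (Pf.C 4 385))
 (Pq.cons (Pq.L [] 2 (Pf.C 4 385))
 Pq.nil))))) (Pq.cons (Pq.D 2 (Pq.cons (Pq.L [] 8 (Pf.C 6 259))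
 (Pq.cons (Pq.L [] 9 (Pf.C 23 16770))
 (Pq.cons (Pq.L [] 2 (Pf.C 4 385))
 (Pq.cons (Pq.L [] 2 (Pf.C 4 385))
 Pq.nil))))) (Pq.cons (Pq.L [] 1 (Pf.C 4 257))
 (Pq.cons (Pq.L [] 1 (Pf.C 4 257))
 Pq.nil))))) Pq.nil))))) (Pq.cons (Pq.D 0 (Pq.cons (Pq.D 1 (Pq.cons (Pq.D 2 (Pq.cons (Pq.L [] 64 (Pf.C 1 386))
 (Pq.cons (Pq.L [] 64 (Pf.C 6 386))
 (Pq.cons (Pq.D 3 (Pq.cons (Pq.L [] 2054 (Pf.C 7 49665))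
 (Pq.cons (Pq.L [] 128 (Pf.C 6 514))
 (Pq.cons (Pq.L [] 2054 (Pf.C 10 65921))
 (Pq.cons (Pq.D 4 (Pq.cons (Pq.L [] 4106 (Pf.C 7 49793))
 (Pq.cons (Pq.L [] 256 (Pf.C 6 642))
 (Pq.cons (Pq.L [] 4106 (Pf.C 10 82305))
 (Pq.cons (Pq.L [] 33152 (Pf.C 10 82434))
 Pq.nil))))) Pq.nil))))) (Pq.cons (Pq.D 3 (Pq.cons (Pq.L [] 128 (Pf.C 1 514))
 (Pq.cons (Pq.L [] 128 (Pf.C 6 514))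
 (Pq.cons (Pq.D 4 (Pq.cons (Pq.L [] 32780 (Pf.C 7 66177))
 (Pq.cons (Pq.L [] 256 (Pf.C 6 642))
 (Pq.cons (Pq.L [] 32780 (Pf.C 10 82433))
 (Pq.cons (Pq.L [] 4416 (Pf.C 10 82306))
 Pq.nil))))) (Pq.cons (Pq.L [] 2240 (Pf.C 10 65922))
 Pq.nil))))) Pq.nil))))) (Pq.cons (Pq.D 2 (Pq.cons (Pq.L [] 64 (Pf.C 6 259))
 (Pq.cons (Pq.D 3 (Pq.cons (Pq.L [] 128 (Pf.C 6 260))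
 (Pq.cons (Pq.D 4 (Pq.cons (Pq.L [] 256 (Pf.C 6 261))
 (Pq.cons (Pq.D 5 (Pq.cons (Pq.L [] 0x40000 (Pf.C 6 646))
 (Pq.cons (Pq.D 6 (Pq.cons (Pq.L [] 0x100000 (Pf.C 6 775))
 (Pq.cons (Pq.L [] 0x1ff800 (Pf.C 0 0x70c14203))
 (Pq.cons (Pq.L [] 2240 (Pf.C 29 0xe10182))
 (Pq.cons (Pq.L [] 2240 (Pf.C 29 0xe10182))
 Pq.nil))))) (Pq.cons (Pq.L [] 0x40100 (Pf.C 23 98565))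
 (Pq.cons (Pq.L [] 0x40100 (Pf.C 23 98565))
 Pq.nil))))) (Pq.cons (Pq.L [] 320 (Pf.C 23 82306))
 (Pq.cons (Pq.L [] 320 (Pf.C 23 82306))
 Pq.nil))))) (Pq.cons (Pq.L [] 192 (Pf.C 23 65922))
 (Pq.cons (Pq.L [] 192 (Pf.C 23 65922))
 Pq.nil))))) (Pq.cons (Pq.D 3 (Pq.cons (Pq.L [] 2054 (Pf.C 7 49665))
 (Pq.cons (Pq.L [] 192 (Pf.C 23 49666))
 (Pq.cons (Pq.L [] 2054 (Pf.C 10 65921))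
 (Pq.cons (Pq.L [] 192 (Pf.C 40 65922))
 Pq.nil))))) (Pq.cons (Pq.D 3 (Pq.cons (Pq.L [] 128 (Pf.C 6 260))
 (Pq.cons (Pq.L [] 192 (Pf.C 23 49666))
 (Pq.cons (Pq.L [] 192 (Pf.C 40 65922))
 (Pq.cons (Pq.L [] 192 (Pf.C 40 65922))
 Pq.nil))))) Pq.nil))))) (Pq.cons (Pq.D 2 (Pq.cons (Pq.D 3 (Pq.cons (Pq.D 4 (Pq.cons (Pq.D 5 (Pq.cons (Pq.L [] 529 (Pf.C 7 33537))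
 (Pq.cons (Pq.L [] 0x40000 (Pf.C 6 773))
 (Pq.cons (Pq.L [] 8210 (Pf.C 7 98689))
 (Pq.cons (Pq.D 6 (Pq.cons (Pq.L [] 1057 (Pf.C 7 33665))
 (Pq.cons (Pq.L [0] 0x100400 (Pf.B 6 0 (Pf.B 2 0 (Pf.W 43 2 [] [0,6] (Pf.cons (Pf.B 8 6 (Pf.C 20 98312) (Pf.C 44 1030)) Pf.nil)) (Pf.W 43 2 [] [0] (Pf.cons (Pf.C 22 32776) Pf.nil))) (Pf.B 2 0 (Pf.C 30 0x418380) (Pf.C 40 98560))))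
 (Pq.cons (Pq.L [] 16418 (Pf.C 7 0x1c181))
 (Pq.cons (Pq.L [] 0x100030 (Pf.C 8 17286))
 Pq.nil))))) Pq.nil))))) (Pq.cons (Pq.L [] 256 (Pf.W 43 2 [] [5] (Pf.cons (Pf.C 22 33416) Pf.nil)))
 (Pq.cons (Pq.L [] 4106 (Pf.C 7 82305))
 (Pq.cons (Pq.L [] 256 (Pf.C 4 642))
 Pq.nil))))) (Pq.cons (Pq.D 4 (Pq.cons (Pq.L [] 128 (Pf.W 43 2 [] [4] (Pf.cons (Pf.C 22 33288) Pf.nil)))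
 (Pq.cons (Pq.L [] 128 (Pf.W 43 2 [] [4] (Pf.cons (Pf.C 22 33288) Pf.nil)))
 (Pq.cons (Pq.L [] 4106 (Pf.C 7 82305))
 (Pq.cons (Pq.L [] 256 (Pf.C 4 642))
 Pq.nil))))) (Pq.cons (Pq.L [] 2054 (Pf.C 7 65921))
 (Pq.cons (Pq.L [] 128 (Pf.C 4 514))
 Pq.nil))))) (Pq.cons (Pq.D 3 (Pq.cons (Pq.D 4 (Pq.cons (Pq.L [] 64 (Pf.W 43 2 [] [3] (Pf.cons (Pf.C 22 33160) Pf.nil)))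
 (Pq.cons (Pq.L [] 64 (Pf.W 43 2 [] [3] (Pf.cons (Pf.C 22 33160) Pf.nil)))
 (Pq.cons (Pq.L [] 32780 (Pf.C 7 82433))
 (Pq.cons (Pq.L [] 256 (Pf.C 4 642))
 Pq.nil))))) (Pq.cons (Pq.D 4 (Pq.cons (Pq.L [] 64 (Pf.W 43 2 [] [3] (Pf.cons (Pf.C 22 33160) Pf.nil)))
 (Pq.cons (Pq.L [] 64 (Pf.W 43 2 [] [3] (Pf.cons (Pf.C 22 33160) Pf.nil)))
 (Pq.cons (Pq.L [] 256 (Pf.C 4 642))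
 (Pq.cons (Pq.L [] 256 (Pf.C 4 642))
 Pq.nil))))) (Pq.cons (Pq.L [] 128 (Pf.C 4 514))
 (Pq.cons (Pq.L [] 128 (Pf.C 4 514))
 Pq.nil))))) (Pq.cons (Pq.L [] 64 (Pf.C 4 386))
 (Pq.cons (Pq.L [] 64 (Pf.C 4 386))
 Pq.nil))))) (Pq.cons (Pq.D 2 (Pq.cons (Pq.D 3 (Pq.cons (Pq.L [] 2247 (Pf.C 26 0x404203))
 (Pq.cons (Pq.D 4 (Pq.cons (Pq.L [] 4427 (Pf.C 26 0x404283))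
 (Pq.cons (Pq.D 5 (Pq.cons (Pq.L [] 0x40000 (Pf.C 6 646))
 (Pq.cons (Pq.L [] 0x40100 (Pf.C 23 33541))
 (Pq.cons (Pq.L [] 8210 (Pf.C 7 98689))
 (Pq.cons (Pq.L [] 0x40100 (Pf.C 40 98565))
 Pq.nil))))) (Pq.cons (Pq.L [] 4106 (Pf.C 7 82305))
 (Pq.cons (Pq.L [] 265 (Pf.C 8 17026))
 Pq.nil))))) (Pq.cons (Pq.L [] 2054 (Pf.C 7 65921))
 (Pq.cons (Pq.L [] 133 (Pf.C 8 16898))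
 Pq.nil))))) (Pq.cons (Pq.D 3 (Pq.cons (Pq.D 4 (Pq.cons (Pq.L [] 33165 (Pf.C 26 0x404284))
 (Pq.cons (Pq.D 5 (Pq.cons (Pq.L [] 0x40000 (Pf.C 6 646))
 (Pq.cons (Pq.L [] 0x40100 (Pf.C 23 33541))
 (Pq.cons (Pq.L [] 65556 (Pf.C 7 98817))
 (Pq.cons (Pq.L [] 0x40100 (Pf.C 40 98565))
 Pq.nil))))) (Pq.cons (Pq.L [] 32780 (Pf.C 7 82433))
 (Pq.cons (Pq.L [] 265 (Pf.C 8 17026))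
 Pq.nil))))) (Pq.cons (Pq.D 4 (Pq.cons (Pq.D 5 (Pq.cons (Pq.L [] 0x40000 (Pf.C 1 773))
 (Pq.cons (Pq.L [] 0x40000 (Pf.C 6 773))
 (Pq.cons (Pq.L [] 73920 (Pf.C 30 0xc08203))
 (Pq.cons (Pq.L [] 0x40300 (Pf.C 10 98565))
 Pq.nil))))) (Pq.cons (Pq.D 5 (Pq.cons (Pq.L [] 0x40000 (Pf.C 6 646))
 (Pq.cons (Pq.L [] 0x40100 (Pf.C 23 33541))
 (Pq.cons (Pq.L [] 0x40100 (Pf.C 40 98565))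
 (Pq.cons (Pq.L [] 0x40100 (Pf.C 40 98565))
 Pq.nil))))) (Pq.cons (Pq.L [] 256 (Pf.C 4 642))
 (Pq.cons (Pq.L [] 265 (Pf.C 8 17026))
 Pq.nil))))) (Pq.cons (Pq.L [] 128 (Pf.C 4 514))
 (Pq.cons (Pq.L [] 133 (Pf.C 8 16898))
 Pq.nil))))) (Pq.cons (Pq.L [] 64 (Pf.C 4 386))
 (Pq.cons (Pq.L [] 67 (Pf.C 8 16770))
 Pq.nil))))) Pq.nil))))) (Pq.cons (Pq.D 1 (Pq.cons (Pq.D 2 (Pq.cons (Pq.L [] 64 (Pf.C 1 386))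
 (Pq.cons (Pq.L [] 64 (Pf.C 6 386))
 (Pq.cons (Pq.D 3 (Pq.cons (Pq.L [] 128 (Pf.C 1 514))
 (Pq.cons (Pq.L [] 128 (Pf.C 6 514))
 (Pq.cons (Pq.D 4 (Pq.cons (Pq.L [] 256 (Pf.C 1 642))
 (Pq.cons (Pq.L [] 256 (Pf.C 6 642))
 (Pq.cons (Pq.D 5 (Pq.cons (Pq.L [] 0x5b81e (Pf.C 0 0x50c04203))
 (Pq.cons (Pq.L [] 0x40008 (Pf.W 43 3 [] [1,5,6] (Pf.cons (Pf.B 8 5 (Pf.C 20 82056) (Pf.C 22 82696)) Pf.nil)))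
 (Pq.cons (Pq.L [] 0x1ff800 (Pf.C 0 0x70c14203))
 (Pq.cons (Pq.L [] 0x40300 (Pf.C 8 33541))
 Pq.nil))))) (Pq.cons (Pq.L [] 8 (Pf.W 43 3 [] [1,5] (Pf.cons (Pf.B 8 5 (Pf.C 20 82056) (Pf.C 44 1029)) Pf.nil)))
 Pq.nil))))) (Pq.cons (Pq.D 4 (Pq.cons (Pq.L [] 256 (Pf.C 1 642))
 (Pq.cons (Pq.L [] 39375 (Pf.C 0 0x30404284))
 (Pq.cons (Pq.L [] 4 (Pf.W 43 3 [] [1,4] (Pf.cons (Pf.B 8 4 (Pf.C 20 65672) (Pf.C 44 1028)) Pf.nil)))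
 (Pq.cons (Pq.L [] 39375 (Pf.C 0 0x30404284))
 Pq.nil))))) Pq.nil))))) (Pq.cons (Pq.D 3 (Pq.cons (Pq.L [] 128 (Pf.C 1 514))
 (Pq.cons (Pq.L [] 128 (Pf.C 6 514))
 (Pq.cons (Pq.D 4 (Pq.cons (Pq.L [] 256 (Pf.C 1 642))
 (Pq.cons (Pq.L [] 39375 (Pf.C 0 0x40404283))
 (Pq.cons (Pq.L [] 2 (Pf.W 43 4 [] [1,3] (Pf.cons (Pf.B 8 3 (Pf.C 20 49288) (Pf.C 44 1027)) Pf.nil)))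
 (Pq.cons (Pq.L [] 39375 (Pf.C 0 0x40404283))
 Pq.nil))))) (Pq.cons (Pq.L [] 2240 (Pf.C 10 65922))
 Pq.nil))))) Pq.nil))))) (Pq.cons (Pq.D 2 (Pq.cons (Pq.L [] 64 (Pf.C 6 259))
 (Pq.cons (Pq.D 3 (Pq.cons (Pq.L [] 128 (Pf.C 6 260))
 (Pq.cons (Pq.D 4 (Pq.cons (Pq.L [] 256 (Pf.C 6 261))
 (Pq.cons (Pq.D 5 (Pq.cons (Pq.L [] 0x40000 (Pf.C 6 646))
 (Pq.cons (Pq.L [] 76503 (Pf.C 0 0x4040c301))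
 (Pq.cons (Pq.L [] 75798 (Pf.C 28 0xc10181))
 (Pq.cons (Pq.L [] 75798 (Pf.C 28 0xc10181))
 Pq.nil))))) (Pq.cons (Pq.L [] 38926 (Pf.C 28 0xa10181))
 (Pq.cons (Pq.L [] 38926 (Pf.C 28 0xa10181))
 Pq.nil))))) (Pq.cons (Pq.L [] 192 (Pf.C 23 65922))
 (Pq.cons (Pq.L [] 192 (Pf.C 23 65922))
 Pq.nil))))) (Pq.cons (Pq.D 3 (Pq.cons (Pq.L [] 128 (Pf.C 6 260))
 (Pq.cons (Pq.L [] 192 (Pf.C 23 49666))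
 (Pq.cons (Pq.L [] 192 (Pf.C 40 65922))
 (Pq.cons (Pq.L [] 192 (Pf.C 40 65922))
 Pq.nil))))) (Pq.cons (Pq.D 3 (Pq.cons (Pq.L [] 128 (Pf.C 6 260))
 (Pq.cons (Pq.L [] 192 (Pf.C 23 49666))
 (Pq.cons (Pq.L [] 192 (Pf.C 40 65922))
 (Pq.cons (Pq.L [] 192 (Pf.C 40 65922))
 Pq.nil))))) Pq.nil))))) (Pq.cons (Pq.D 2 (Pq.cons (Pq.D 3 (Pq.cons (Pq.D 4 (Pq.cons (Pq.D 5 (Pq.cons (Pq.L [] 0x40000 (Pf.C 1 773))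
 (Pq.cons (Pq.L [] 0x40000 (Pf.C 6 773))
 (Pq.cons (Pq.L [] 75776 (Pf.C 7 98819))
 (Pq.cons (Pq.L [] 16 (Pf.W 43 2 [] [1,6] (Pf.cons (Pf.B 8 6 (Pf.C 20 98440) (Pf.C 44 1030)) Pf.nil)))
 Pq.nil))))) (Pq.cons (Pq.L [] 256 (Pf.W 43 2 [] [5] (Pf.cons (Pf.C 22 33416) Pf.nil)))
 (Pq.cons (Pq.L [] 256 (Pf.C 4 642))
 (Pq.cons (Pq.L [] 256 (Pf.C 4 642))
 Pq.nil))))) (Pq.cons (Pq.D 4 (Pq.cons (Pq.L [] 128 (Pf.W 43 2 [] [4] (Pf.cons (Pf.C 22 33288) Pf.nil)))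
 (Pq.cons (Pq.L [] 128 (Pf.W 43 2 [] [4] (Pf.cons (Pf.C 22 33288) Pf.nil)))
 (Pq.cons (Pq.L [] 256 (Pf.C 4 642))
 (Pq.cons (Pq.L [] 256 (Pf.C 4 642))
 Pq.nil))))) (Pq.cons (Pq.L [] 128 (Pf.C 4 514))
 (Pq.cons (Pq.L [] 128 (Pf.C 4 514))
 Pq.nil))))) (Pq.cons (Pq.D 3 (Pq.cons (Pq.D 4 (Pq.cons (Pq.L [] 64 (Pf.W 43 2 [] [3] (Pf.cons (Pf.C 22 33160) Pf.nil)))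
 (Pq.cons (Pq.L [] 64 (Pf.W 43 2 [] [3] (Pf.cons (Pf.C 22 33160) Pf.nil)))
 (Pq.cons (Pq.L [] 256 (Pf.C 4 642))
 (Pq.cons (Pq.L [] 256 (Pf.C 4 642))
 Pq.nil))))) (Pq.cons (Pq.D 4 (Pq.cons (Pq.L [] 64 (Pf.W 43 2 [] [3] (Pf.cons (Pf.C 22 33160) Pf.nil)))
 (Pq.cons (Pq.L [] 64 (Pf.W 43 2 [] [3] (Pf.cons (Pf.C 22 33160) Pf.nil)))
 (Pq.cons (Pq.L [] 38926 (Pf.C 28 0xa10181))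
 (Pq.cons (Pq.L [] 38926 (Pf.C 28 0xa10181))
 Pq.nil))))) (Pq.cons (Pq.L [] 128 (Pf.C 4 514))
 (Pq.cons (Pq.L [] 128 (Pf.C 4 514))
 Pq.nil))))) (Pq.cons (Pq.L [] 64 (Pf.C 4 386))
 (Pq.cons (Pq.L [] 64 (Pf.C 4 386))
 Pq.nil))))) (Pq.cons (Pq.D 2 (Pq.cons (Pq.D 3 (Pq.cons (Pq.L [] 2240 (Pf.C 7 33283))
 (Pq.cons (Pq.D 4 (Pq.cons (Pq.L [] 4416 (Pf.C 7 33411))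
 (Pq.cons (Pq.D 5 (Pq.cons (Pq.L [] 0x40000 (Pf.C 6 646))
 (Pq.cons (Pq.L [] 0x40100 (Pf.C 23 33541))
 (Pq.cons (Pq.L [] 8768 (Pf.C 10 98563))
 (Pq.cons (Pq.L [] 0x40100 (Pf.C 40 98565))
 Pq.nil))))) (Pq.cons (Pq.L [] 256 (Pf.C 4 642))
 (Pq.cons (Pq.L [] 256 (Pf.C 4 642))
 Pq.nil))))) (Pq.cons (Pq.L [] 128 (Pf.C 4 514))
 (Pq.cons (Pq.L [] 128 (Pf.C 4 514))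
 Pq.nil))))) (Pq.cons (Pq.D 3 (Pq.cons (Pq.D 4 (Pq.cons (Pq.L [] 33152 (Pf.C 7 33412))
 (Pq.cons (Pq.D 5 (Pq.cons (Pq.L [] 0x40000 (Pf.C 6 646))
 (Pq.cons (Pq.L [] 0x40100 (Pf.C 23 33541))
 (Pq.cons (Pq.L [] 66176 (Pf.C 10 98564))
 (Pq.cons (Pq.L [] 0x40100 (Pf.C 40 98565))
 Pq.nil))))) (Pq.cons (Pq.L [] 256 (Pf.C 4 642))
 (Pq.cons (Pq.L [] 256 (Pf.C 4 642))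
 Pq.nil))))) (Pq.cons (Pq.D 4 (Pq.cons (Pq.D 5 (Pq.cons (Pq.L [] 0x40000 (Pf.C 1 773))
 (Pq.cons (Pq.L [] 76503 (Pf.C 0 0x4040c301))
 (Pq.cons (Pq.L [] 75798 (Pf.C 28 0xc10181))
 (Pq.cons (Pq.L [] 75798 (Pf.C 28 0xc10181))
 Pq.nil))))) (Pq.cons (Pq.D 5 (Pq.cons (Pq.L [] 0x40000 (Pf.C 6 646))
 (Pq.cons (Pq.L [] 76503 (Pf.C 0 0x4040c301))
 (Pq.cons (Pq.L [] 75798 (Pf.C 28 0xc10181))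
 (Pq.cons (Pq.L [] 75798 (Pf.C 28 0xc10181))
 Pq.nil))))) (Pq.cons (Pq.L [] 38926 (Pf.C 28 0xa10181))
 (Pq.cons (Pq.L [] 38926 (Pf.C 28 0xa10181))
 Pq.nil))))) (Pq.cons (Pq.L [] 128 (Pf.C 4 514))
 (Pq.cons (Pq.L [] 128 (Pf.C 4 514))
 Pq.nil))))) (Pq.cons (Pq.L [] 64 (Pf.C 4 386))
 (Pq.cons (Pq.L [] 64 (Pf.C 4 386))
 Pq.nil))))) Pq.nil))))) (Pq.cons (Pq.D 1 (Pq.cons (Pq.D 2 (Pq.cons (Pq.L [] 64 (Pf.C 1 386))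
 (Pq.cons (Pq.L [] 64 (Pf.C 6 386))
 (Pq.cons (Pq.D 3 (Pq.cons (Pq.L [] 2054 (Pf.C 10 49284))
 (Pq.cons (Pq.L [] 128 (Pf.C 6 514))
 (Pq.cons (Pq.D 4 (Pq.cons (Pq.L [] 4106 (Pf.C 10 49285))
 (Pq.cons (Pq.L [] 39375 (Pf.C 0 0x4040c281))
 (Pq.cons (Pq.D 5 (Pq.cons (Pq.L [] 529 (Pf.C 7 17154))
 (Pq.cons (Pq.L [] 0x40000 (Pf.W 43 5 [] [6] (Pf.cons (Pf.C 22 82696) Pf.nil)))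
 (Pq.cons (Pq.L [] 529 (Pf.C 10 98434))
 (Pq.cons (Pq.L [] 0x40300 (Pf.C 8 33541))
 Pq.nil))))) (Pq.cons (Pq.L [] 265 (Pf.C 10 82050))
 Pq.nil))))) (Pq.cons (Pq.L [] 133 (Pf.C 10 65666))
 Pq.nil))))) (Pq.cons (Pq.L [] 67 (Pf.C 10 49282))
 Pq.nil))))) (Pq.cons (Pq.D 2 (Pq.cons (Pq.L [] 64 (Pf.C 6 259))
 (Pq.cons (Pq.D 3 (Pq.cons (Pq.L [] 128 (Pf.C 6 260))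
 (Pq.cons (Pq.L [] 2240 (Pf.C 29 0x210182))
 (Pq.cons (Pq.L [] 192 (Pf.C 23 65922))
 (Pq.cons (Pq.L [] 192 (Pf.C 23 65922))
 Pq.nil))))) (Pq.cons (Pq.L [] 64 (Pf.W 43 3 [] [2] (Pf.cons (Pf.C 22 49416) Pf.nil)))
 (Pq.cons (Pq.D 3 (Pq.cons (Pq.L [] 128 (Pf.C 6 260))
 (Pq.cons (Pq.L [] 192 (Pf.C 23 49666))
 (Pq.cons (Pq.L [] 192 (Pf.C 40 65922))
 (Pq.cons (Pq.L [] 192 (Pf.C 40 65922))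
 Pq.nil))))) Pq.nil))))) (Pq.cons (Pq.D 2 (Pq.cons (Pq.D 3 (Pq.cons (Pq.L [] 2054 (Pf.C 7 16899))
 (Pq.cons (Pq.L [] 128 (Pf.W 43 2 [] [4] (Pf.cons (Pf.C 22 33288) Pf.nil)))
 (Pq.cons (Pq.L [] 2054 (Pf.C 10 65667))
 (Pq.cons (Pq.L [] 128 (Pf.C 4 514))
 Pq.nil))))) (Pq.cons (Pq.L [] 64 (Pf.W 43 2 [] [3] (Pf.cons (Pf.C 22 33160) Pf.nil)))
 (Pq.cons (Pq.L [] 64 (Pf.C 4 386))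
 (Pq.cons (Pq.L [] 64 (Pf.C 4 386))
 Pq.nil))))) (Pq.cons (Pq.D 2 (Pq.cons (Pq.L [] 67 (Pf.C 10 32899))
 (Pq.cons (Pq.D 3 (Pq.cons (Pq.L [] 133 (Pf.C 10 32900))
 (Pq.cons (Pq.L [] 198 (Pf.C 30 0x208203))
 (Pq.cons (Pq.L [] 128 (Pf.C 4 514))
 (Pq.cons (Pq.L [] 128 (Pf.C 4 514))
 Pq.nil))))) (Pq.cons (Pq.L [] 64 (Pf.C 4 386))
 (Pq.cons (Pq.L [] 64 (Pf.C 4 386))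
 Pq.nil))))) Pq.nil))))) (Pq.cons (Pq.D 1 (Pq.cons (Pq.D 2 (Pq.cons (Pq.L [] 64 (Pf.C 1 386))
 (Pq.cons (Pq.L [] 64 (Pf.C 6 386))
 (Pq.cons (Pq.D 3 (Pq.cons (Pq.L [] 128 (Pf.C 1 514))
 (Pq.cons (Pq.L [] 128 (Pf.C 6 514))
 (Pq.cons (Pq.D 4 (Pq.cons (Pq.L [] 256 (Pf.C 1 642))
 (Pq.cons (Pq.L [] 256 (Pf.C 6 642))
 (Pq.cons (Pq.D 5 (Pq.cons (Pq.L [] 0x5b81e (Pf.C 0 0x50c04203))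
 (Pq.cons (Pq.L [] 16 (Pf.W 43 3 [] [1,6] (Pf.cons (Pf.B 8 1 (Pf.C 20 17160) (Pf.C 44 1025)) Pf.nil)))
 (Pq.cons (Pq.L [] 0x1ff800 (Pf.C 0 0x70c14203))
 (Pq.cons (Pq.L [] 0x40300 (Pf.C 8 33541))
 Pq.nil))))) (Pq.cons (Pq.D 5 (Pq.cons (Pq.L [] 0x40300 (Pf.C 7 82690))
 (Pq.cons (Pq.L [] 16 (Pf.W 43 3 [] [1,6] (Pf.cons (Pf.B 8 1 (Pf.C 20 17160) (Pf.C 44 1025)) Pf.nil)))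
 (Pq.cons (Pq.L [] 0x40000 (Pf.C 4 773))
 (Pq.cons (Pq.L [] 0x40000 (Pf.C 4 773))
 Pq.nil))))) Pq.nil))))) (Pq.cons (Pq.D 4 (Pq.cons (Pq.L [] 256 (Pf.C 1 642))
 (Pq.cons (Pq.L [] 39375 (Pf.C 0 0x30404284))
 (Pq.cons (Pq.D 5 (Pq.cons (Pq.L [0] 0 (Pf.B 4 0 (Pf.B 3 0 (Pf.W 43 3 [] [0,4] (Pf.cons (Pf.B 8 4 (Pf.C 20 65544) (Pf.C 44 1028)) Pf.nil)) (Pf.W 43 3 [] [0] (Pf.cons (Pf.C 22 49160) Pf.nil))) (Pf.B 3 0 (Pf.B 1 0 (Pf.W 43 3 [] [0,1] (Pf.cons (Pf.B 8 1 (Pf.C 20 16392) (Pf.C 44 1025)) Pf.nil)) (Pf.C 40 65664)) (Pf.C 40 65920))))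
 (Pq.cons (Pq.L [] 65536 (Pf.W 43 3 [] [4,6] (Pf.cons (Pf.B 8 4 (Pf.C 20 66312) (Pf.C 44 1028)) Pf.nil)))
 (Pq.cons (Pq.L [] 76503 (Pf.C 0 0x30404304))
 (Pq.cons (Pq.L [] 0x40300 (Pf.C 8 33541))
 Pq.nil))))) (Pq.cons (Pq.L [] 39375 (Pf.C 0 0x30404284))
 Pq.nil))))) Pq.nil))))) (Pq.cons (Pq.D 3 (Pq.cons (Pq.L [] 128 (Pf.C 1 514))
 (Pq.cons (Pq.L [] 128 (Pf.C 6 514))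
 (Pq.cons (Pq.D 4 (Pq.cons (Pq.L [] 256 (Pf.C 1 642))
 (Pq.cons (Pq.L [] 39375 (Pf.C 0 0x40404283))
 (Pq.cons (Pq.D 5 (Pq.cons (Pq.L [0] 0 (Pf.B 4 0 (Pf.B 3 0 (Pf.W 43 4 [] [0,3] (Pf.cons (Pf.B 8 3 (Pf.C 20 49160) (Pf.C 44 1027)) Pf.nil)) (Pf.B 1 0 (Pf.W 43 4 [] [0,1] (Pf.cons (Pf.B 8 1 (Pf.C 20 16392) (Pf.C 44 1025)) Pf.nil)) (Pf.C 40 49280))) (Pf.W 43 4 [] [0] (Pf.cons (Pf.C 22 65544) Pf.nil))))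
 (Pq.cons (Pq.L [] 8192 (Pf.W 43 4 [] [3,6] (Pf.cons (Pf.B 8 3 (Pf.C 20 49928) (Pf.C 44 1027)) Pf.nil)))
 (Pq.cons (Pq.L [] 76503 (Pf.C 0 0x40404303))
 (Pq.cons (Pq.L [] 0x40300 (Pf.C 8 33541))
 Pq.nil))))) (Pq.cons (Pq.L [] 39375 (Pf.C 0 0x40404283))
 Pq.nil))))) (Pq.cons (Pq.L [] 2240 (Pf.C 10 65922))
 Pq.nil))))) Pq.nil))))) (Pq.cons (Pq.D 2 (Pq.cons (Pq.L [] 64 (Pf.C 6 259))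
 (Pq.cons (Pq.D 3 (Pq.cons (Pq.L [] 128 (Pf.C 6 260))
 (Pq.cons (Pq.L [] 2240 (Pf.C 29 0x210182))
 (Pq.cons (Pq.L [] 192 (Pf.C 23 65922))
 (Pq.cons (Pq.L [] 192 (Pf.C 23 65922))
 Pq.nil))))) (Pq.cons (Pq.D 3 (Pq.cons (Pq.L [] 128 (Pf.C 6 260))
 (Pq.cons (Pq.L [] 192 (Pf.C 23 49666))
 (Pq.cons (Pq.L [] 192 (Pf.C 40 65922))
 (Pq.cons (Pq.L [] 192 (Pf.C 40 65922))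
 Pq.nil))))) (Pq.cons (Pq.D 3 (Pq.cons (Pq.L [] 128 (Pf.C 6 260))
 (Pq.cons (Pq.L [] 192 (Pf.C 23 49666))
 (Pq.cons (Pq.L [] 192 (Pf.C 40 65922))
 (Pq.cons (Pq.L [] 192 (Pf.C 40 65922))
 Pq.nil))))) Pq.nil))))) (Pq.cons (Pq.D 2 (Pq.cons (Pq.D 3 (Pq.cons (Pq.D 4 (Pq.cons (Pq.D 5 (Pq.cons (Pq.L [] 0x40000 (Pf.C 1 773))
 (Pq.cons (Pq.L [] 0x40000 (Pf.C 6 773))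
 (Pq.cons (Pq.L [] 75776 (Pf.C 7 98819))
 (Pq.cons (Pq.D 6 (Pq.cons (Pq.L [] 0x100600 (Pf.C 10 98567))
 (Pq.cons (Pq.L [] 32 (Pf.W 43 2 [] [1,7] (Pf.cons (Pf.B 8 1 (Pf.C 20 17288) (Pf.C 44 1025)) Pf.nil)))
 (Pq.cons (Pq.L [] 0x24800 (Pf.C 7 0x1c203))
 (Pq.cons (Pq.L [] 0x106000 (Pf.C 8 50054))
 Pq.nil))))) Pq.nil))))) (Pq.cons (Pq.L [] 256 (Pf.W 43 2 [] [5] (Pf.cons (Pf.C 22 33416) Pf.nil)))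
 (Pq.cons (Pq.L [] 256 (Pf.C 4 642))
 (Pq.cons (Pq.L [] 256 (Pf.C 4 642))
 Pq.nil))))) (Pq.cons (Pq.D 4 (Pq.cons (Pq.L [] 128 (Pf.W 43 2 [] [4] (Pf.cons (Pf.C 22 33288) Pf.nil)))
 (Pq.cons (Pq.L [] 396 (Pf.C 30 0x208284))
 (Pq.cons (Pq.L [] 256 (Pf.C 4 642))
 (Pq.cons (Pq.L [] 256 (Pf.C 4 642))
 Pq.nil))))) (Pq.cons (Pq.L [] 128 (Pf.C 4 514))
 (Pq.cons (Pq.L [] 128 (Pf.C 4 514))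
 Pq.nil))))) (Pq.cons (Pq.D 3 (Pq.cons (Pq.D 4 (Pq.cons (Pq.L [] 64 (Pf.W 43 2 [] [3] (Pf.cons (Pf.C 22 33160) Pf.nil)))
 (Pq.cons (Pq.L [] 330 (Pf.C 30 0x208283))
 (Pq.cons (Pq.L [] 256 (Pf.C 4 642))
 (Pq.cons (Pq.L [] 256 (Pf.C 4 642))
 Pq.nil))))) (Pq.cons (Pq.L [] 198 (Pf.C 30 0x208203))
 (Pq.cons (Pq.L [] 128 (Pf.C 4 514))
 (Pq.cons (Pq.L [] 128 (Pf.C 4 514))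
 Pq.nil))))) (Pq.cons (Pq.L [] 64 (Pf.C 4 386))
 (Pq.cons (Pq.L [] 64 (Pf.C 4 386))
 Pq.nil))))) (Pq.cons (Pq.D 2 (Pq.cons (Pq.D 3 (Pq.cons (Pq.L [] 2240 (Pf.C 7 33283))
 (Pq.cons (Pq.D 4 (Pq.cons (Pq.L [] 4416 (Pf.C 7 33411))
 (Pq.cons (Pq.L [] 396 (Pf.C 30 0x208284))
 (Pq.cons (Pq.L [] 256 (Pf.C 4 642))
 (Pq.cons (Pq.L [] 256 (Pf.C 4 642))
 Pq.nil))))) (Pq.cons (Pq.L [] 128 (Pf.C 4 514))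
 (Pq.cons (Pq.L [] 128 (Pf.C 4 514))
 Pq.nil))))) (Pq.cons (Pq.D 3 (Pq.cons (Pq.D 4 (Pq.cons (Pq.L [] 33152 (Pf.C 7 33412))
 (Pq.cons (Pq.L [] 330 (Pf.C 30 0x208283))
 (Pq.cons (Pq.L [] 256 (Pf.C 4 642))
 (Pq.cons (Pq.L [] 256 (Pf.C 4 642))
 Pq.nil))))) (Pq.cons (Pq.L [] 198 (Pf.C 30 0x208203))
 (Pq.cons (Pq.L [] 128 (Pf.C 4 514))
 (Pq.cons (Pq.L [] 128 (Pf.C 4 514))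
 Pq.nil))))) (Pq.cons (Pq.L [] 64 (Pf.C 4 386))
 (Pq.cons (Pq.L [] 64 (Pf.C 4 386))
 Pq.nil))))) Pq.nil))))) Pq.nil))))) Pq.nil))
theorem h2_o56 : AllRef h2_T h2_G80 (applyObl (pairTab (cPaw, cP1S113)) 2 [26,125,30,31] [0,0,0,0] [(26,0x20000000000000000000000080000000),(125,0x4000000),(31,0x4000000)]) :=
  chkPq_sound h2_o56c _ (by decide +kernel)
noncomputable def h2_o57c : Pq := (Pq.cons (Pq.L [] 7 (Pf.B 3 2 (Pf.B 3 1 (Pf.B 2 1 (Pf.W 31 0 [] [1,2,3] (Pf.cons (Pf.B 4 3 (Pf.B 4 2 (Pf.C 11 65922) (Pf.T 4 4 (Pf.cons (Pf.W 47 0 [] [2,3,4] (Pf.cons (Pf.B 5 4 (Pf.C 12 66176) (Pf.B 5 3 (Pf.B 5 2 (Pf.C 24 0x400284) (Pf.C 27 82179)) (Pf.C 12 65925))) Pf.nil)) (Pf.cons (Pf.C 44 4) Pf.nil)))) (Pf.B 4 2 (Pf.T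 4 4 (Pf.cons (Pf.W 47 0 [] [2,3,4] (Pf.cons (Pf.B 5 4 (Pf.C 12 66176) (Pf.B 5 3 (Pf.C 24 0x600284) (Pf.B 5 2 (Pf.C 27 0x614002) (Pf.C 12 65797)))) Pf.nil)) (Pf.cons (Pf.C 44 4) Pf.nil))) (Pf.B 4 1 (Pf.T 4 4 (Pf.cons (Pf.W 47 0 [] [1,2,4] (Pf.cons (Pf.B 5 4 (Pf.C 12 66176) (Pf.B 5 2 (Pf.C 24 0x400284) (Pf.B 5 1 (Pf.C 27 0x414001) (Pf.C 12 65669)))) Pf.nil)) (Pf.cons (Pf.C 44 4) Pf.nil))) (Pf.T 4 4 (Pf.cons (Pf.W 47 0 [] [1,4] (Pf.cons (Pf.B 5 4 (Pf.C 12 66176) (Pf.B 5 1 (Pf.C 24 0x200284) (Pf.T 5 5 (Pf.cons (Pf.W 45 128 [] [5] (Pf.cons (Pf.B 6 5 (Pf.C 12 98944) (Pf.C 12 98437)) (Pf.cons (Pf.B 6 5 (Pf.C 12 98945) (Pf.C 12 98309)) Pf.nil))) (Pf.cons (Pf.C 48 5) Pf.nil))))) Pf.nil)) (Pf.cons (Pf.C 44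 4) Pf.nil)))))) Pf.nil)) (Pf.W 31 1 [] [0,2,3] (Pf.cons (Pf.B 4 2 (Pf.C 12 65793) (Pf.B 4 3 (Pf.B 4 0 (Pf.C 11 65920) (Pf.C 24 32900)) (Pf.C 24 0x608084))) Pf.nil))) (Pf.B 2 1 (Pf.W 31 1 [] [0,2,3] (Pf.cons (Pf.B 4 3 (Pf.C 12 65921) (Pf.B 4 2 (Pf.B 4 0 (Pf.C 11 65792) (Pf.C 24 49284)) (Pf.C 24 0x40c084))) Pf.nil)) (Pf.C 27 0x604100))) (Pf.B 3 1 (Pf.B 2 1 (Pf.W 31 2 [] [0,1,3] (Pf.cons (Pf.B 4 3 (Pf.C 12 65922) (Pf.B 4 1 (Pf.B 4 0 (Pf.C 11 65664) (Pf.C 24 49412)) (Pf.C 24 0x20c104))) Pf.nil)) (Pf.C 27 0x608080)) (Pf.B 2 1 (Pf.C 27 0x20c100) (Pf.W 31 0 [] [1,2,3] (Pf.cons (Pf.B 4 3 (Pf.B 4 2 (Pf.B 4 1 (Pf.T 4 4 (Pf.cons (Pf.W 31 0 [4] [1,2,3] (Pf.cons (Pf.B 5 4 (Pf.B 5 3 (Pf.B 5 2 (Pf.B 5 1 (Pf.T 5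 4 (Pf.cons (Pf.W 31 1 [] [4,5] (Pf.cons (Pf.B 6 5 (Pf.B 6 4 (Pf.T 6 4 (Pf.cons (Pf.W 31 1 [6] [4,5] (Pf.cons (Pf.B 7 6 (Pf.B 7 5 (Pf.B 7 4 (Pf.C 0 0x6021c284) (Pf.C 4 519)) (Pf.C 4 647)) (Pf.C 4 775)) Pf.nil)) (Pf.cons (Pf.C 44 134) Pf.nil))) (Pf.C 4 518)) (Pf.C 4 646)) Pf.nil)) (Pf.cons (Pf.C 44 5) Pf.nil))) (Pf.C 12 82177)) (Pf.C 12 82306)) (Pf.B 5 2 (Pf.C 12 82179) (Pf.C 24 49413))) (Pf.C 4 517)) Pf.nil)) (Pf.cons (Pf.C 44 4) Pf.nil))) (Pf.C 12 65793)) (Pf.C 12 65922)) (Pf.B 4 2 (Pf.C 12 65795) (Pf.C 24 49412))) Pf.nil))))))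
 Pq.nil)
theorem h2_o57 : AllRef h2_T h2_G12 (applyObl TD2 1 [23] [0] [(23,0x800000)]) :=
  chkPq_sound h2_o57c _ (by decide +kernel)
noncomputable def h2_o58c : Pq := (Pq.cons (Pq.L [] 0 (Pf.W 42 0 [] [0] (Pf.cons (Pf.B 1 0 (Pf.W 39 1 [] [0] (Pf.cons (Pf.C 16 32896) Pf.nil)) (Pf.C 34 1)) Pf.nil)))
 (Pq.cons (Pq.L [] 0 (Pf.W 31 0 [] [] (Pf.cons (Pf.W 31 0 [1] [] (Pf.cons (Pf.B 2 1 (Pf.W 42 0 [] [0,1,2] (Pf.cons (Pf.B 3 2 (Pf.B 3 1 (Pf.B 3 0 (Pf.W 39 3 [] [1,2] (Pf.cons (Pf.B 4 2 (Pf.B 4 1 (Pf.W 39 3 [4] [1,2] (Pf.cons (Pf.B 5 4 (Pf.B 5 2 (Pf.B 5 1 (Pf.C 0 0x40614101) (Pf.C 4 133)) (Pf.C 4 261)) (Pf.C 4 517)) Pf.nil)) (Pf.C 4 132)) (Pf.C 4 260)) Pf.nil)) (Pf.C 21 16768)) (Pf.C 22 16768)) (Pf.C 22 33152))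 Pf.nil)) (Pf.C 4 130)) Pf.nil)) Pf.nil)))
 Pq.nil))
theorem h2_o58 : AllRef h2_T h2_G8 (List.map pat1 [1,6]) :=
  chkPq_sound h2_o58c _ (by decide +kernel)
noncomputable def h2_o59c : Pq := (Pq.cons (Pq.L [] 2 (Pf.C 3 256))
 (Pq.cons (Pq.L [] 3 (Pf.C 18 257))
 (Pq.cons (Pq.L [] 3 (Pf.C 18 257))
 (Pq.cons (Pq.L [] 3 (Pf.B 2 1 (Pf.W 42 0 [] [1,2] (Pf.cons (Pf.B 3 2 (Pf.C 17 49409) (Pf.C 38 259)) Pf.nil)) (Pf.C 12 257)))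
 Pq.nil))))
theorem h2_o59 : AllRef h2_T h2_G81 (splitObl [7] [2,12,13,5]) :=
  chkPq_sound h2_o59c _ (by decide +kernel)
noncomputable def h2_o60c : Pq := (Pq.cons (Pq.L [] 4 (Pf.W 42 0 [] [0,3] (Pf.cons (Pf.B 4 3 (Pf.C 17 65920) (Pf.C 38 388)) Pf.nil)))
 Pq.nil)
theorem h2_o60 : AllRef h2_T h2_G81 (applyObl TD2 1 [7] [0] [(7,128)]) :=
  chkPq_sound h2_o60c _ (by decide +kernel)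
noncomputable def h2_o61c : Pq := (Pq.cons (Pq.L [] 2 (Pf.C 1 256))
 (Pq.cons (Pq.L [] 4 (Pf.C 6 257))
 (Pq.cons (Pq.L [] 4 (Pf.C 6 257))
 (Pq.cons (Pq.L [] 4 (Pf.C 6 130))
 (Pq.cons (Pq.L [] 2 (Pf.W 39 0 [] [2] (Pf.cons (Pf.C 23 49408) Pf.nil)))
 (Pq.cons (Pq.L [] 2 (Pf.W 39 0 [] [2] (Pf.cons (Pf.C 23 49408) Pf.nil)))
 (Pq.cons (Pq.L [] 4 (Pf.C 6 130))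
 (Pq.cons (Pq.L [] 2 (Pf.W 39 2 [] [0] (Pf.cons (Pf.C 23 49154) Pf.nil)))
 (Pq.cons (Pq.L [] 7 (Pf.W 42 0 [] [0,1,2] (Pf.cons (Pf.B 3 2 (Pf.B 3 1 (Pf.B 3 0 (Pf.W 39 3 [] [0,1,2] (Pf.cons (Pf.C 29 0x808080) Pf.nil)) (Pf.W 39 3 [] [0] (Pf.cons (Pf.C 23 65539) Pf.nil))) (Pf.B 3 0 (Pf.W 39 3 [] [1] (Pf.cons (Pf.C 23 65667) Pf.nil)) (Pf.C 24 0x404180))) (Pf.B 3 1 (Pf.B 3 0 (Pf.W 39 3 [] [2] (Pf.cons (Pf.C 23 65795) Pf.nil)) (Pf.C 24 0x208180)) (Pf.B 3 0 (Pf.W 39 3 [] [1] (Pf.cons (Pf.C 23 65667) Pf.nil)) (Pf.W 39 3 [] [0] (Pf.cons (Pf.C 23 65539) Pf.nil))))) Pf.nil)))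
 (Pq.cons (Pq.L [] 3 (Pf.C 23 32896))
 (Pq.cons (Pq.L [] 2 (Pf.C 4 256))
 Pq.nil)))))))))))
theorem h2_o61 : AllRef h2_T h2_G81 (twinObl [2,12,13,5] 4 [8,8,0,7]) :=
  chkPq_sound h2_o61c _ (by decide +kernel)
noncomputable def h2_o62c : Pq := (Pq.cons (Pq.L [] 7 (Pf.W 42 0 [] [0,1,2] (Pf.cons (Pf.B 3 2 (Pf.B 3 1 (Pf.B 3 0 (Pf.W 39 3 [] [0,1,2] (Pf.cons (Pf.B 4 2 (Pf.B 4 1 (Pf.B 4 0 (Pf.C 28 0x808080) (Pf.C 0 0x30800101)) (Pf.B 4 0 (Pf.C 0 0x30804100) (Pf.W 39 3 [4] [0,1] (Pf.cons (Pf.B 5 1 (Pf.B 5 0 (Pf.C 30 0xa10080) (Pf.C 40 66176)) (Pf.C 40 66177)) Pf.nil)))) (Pf.B 4 1 (Pf.B 4 0 (Pf.C 0 0x30808080) (Pf.W 39 3 [4] [0,2] (Pf.cons (Pf.B 5 2 (Pf.B 5 0 (Pf.C 30 0xa10100) (Pf.C 40 66176)) (Pf.C 40 66178))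 Pf.nil))) (Pf.W 39 3 [4] [1,2] (Pf.cons (Pf.B 5 2 (Pf.B 5 1 (Pf.C 30 0xa10101) (Pf.C 40 66177)) (Pf.C 40 66178)) Pf.nil)))) Pf.nil)) (Pf.W 39 3 [] [0] (Pf.cons (Pf.C 23 65539) Pf.nil))) (Pf.B 3 0 (Pf.W 39 3 [] [1] (Pf.cons (Pf.C 23 65667) Pf.nil)) (Pf.W 39 3 [] [0] (Pf.cons (Pf.C 23 65539) Pf.nil)))) (Pf.B 3 1 (Pf.B 3 0 (Pf.W 39 3 [] [2] (Pf.cons (Pf.C 23 65795) Pf.nil)) (Pf.W 39 3 [] [0] (Pf.cons (Pf.C 23 65539) Pf.nil))) (Pf.B 3 0 (Pf.W 39 3 [] [1] (Pf.cons (Pf.C 23 65667) Pf.nil)) (Pf.W 39 3 [] [0] (Pf.cons (Pf.C 23 65539) Pf.nil))))) Pf.nil)))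
 (Pq.cons (Pq.L [] 1 (Pf.C 103 128))
 Pq.nil))
theorem h2_o62 : AllRef h2_T h2_G82 (hitObl [129] h2_h106) :=
  chkPq_sound h2_o62c _ (by decide +kernel)
noncomputable def h2_o63c : Pq := (Pq.cons (Pq.L [] 0 (Pf.C 104 0))
 Pq.nil)
theorem h2_o63 : AllRef h2_T h2_G83 (List.map pat1 [131]) :=
  chkPq_sound h2_o63c _ (by decide +kernel)
noncomputable def h2_o64c : Pq := (Pq.cons (Pq.D 0 (Pq.cons (Pq.D 1 (Pq.cons (Pq.L [] 1 (Pf.C 1 128))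
 (Pq.cons (Pq.L [] 1 (Pf.C 6 128))
 (Pq.cons (Pq.D 2 (Pq.cons (Pq.L [] 2 (Pf.C 1 256))
 (Pq.cons (Pq.L [] 2 (Pf.C 6 256))
 (Pq.cons (Pq.L [] 3 (Pf.B 2 1 (Pf.C 10 16640) (Pf.C 4 130)))
 Pq.nil)))) Pq.nil)))) (Pq.cons (Pq.D 1 (Pq.cons (Pq.L [] 1 (Pf.C 6 1))
 (Pq.cons (Pq.L [] 1 (Pf.B 3 0 (Pf.B 2 0 (Pf.W 39 0 [] [1] (Pf.cons (Pf.C 23 65664) Pf.nil)) (Pf.W 39 0 [] [1] (Pf.cons (Pf.C 23 65664) Pf.nil))) (Pf.B 2 0 (Pf.W 39 0 [] [1] (Pf.cons (Pf.C 23 65664) Pf.nil)) (Pf.W 39 0 [] [1] (Pf.cons (Pf.C 23 65664) Pf.nil)))))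
 (Pq.cons (Pq.D 2 (Pq.cons (Pq.L [] 2 (Pf.C 6 2))
 (Pq.cons (Pq.L [] 2 (Pf.B 3 0 (Pf.W 39 0 [] [2] (Pf.cons (Pf.C 23 65792) Pf.nil)) (Pf.W 39 0 [] [2] (Pf.cons (Pf.C 23 65792) Pf.nil))))
 (Pq.cons (Pq.D 3 (Pq.cons (Pq.L [] 4 (Pf.C 6 3))
 (Pq.cons (Pq.L [] 4 (Pf.W 39 0 [] [3] (Pf.cons (Pf.C 23 65920) Pf.nil)))
 (Pq.cons (Pq.L [] 6 (Pf.B 3 2 (Pf.W 39 0 [] [2,3] (Pf.cons (Pf.B 4 3 (Pf.B 4 2 (Pf.W 39 0 [4] [2,3] (Pf.cons (Pf.B 5 4 (Pf.B 5 3 (Pf.B 5 2 (Pf.C 0 0x40014182) (Pf.C 4 261)) (Pf.C 4 389)) (Pf.C 4 517)) Pf.nil)) (Pf.C 4 260)) (Pf.C 4 388)) Pf.nil)) (Pf.C 4 259)))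
 Pq.nil)))) Pq.nil)))) Pq.nil)))) (Pq.cons (Pq.D 1 (Pq.cons (Pq.D 2 (Pq.cons (Pq.L [] 3 (Pf.B 2 1 (Pf.C 7 130) (Pf.C 1 130)))
 (Pq.cons (Pq.D 3 (Pq.cons (Pq.L [] 5 (Pf.B 3 1 (Pf.C 7 131) (Pf.C 1 131)))
 (Pq.cons (Pq.L [] 6 (Pf.B 3 2 (Pf.W 39 2 [] [0,3] (Pf.cons (Pf.B 4 3 (Pf.B 4 0 (Pf.W 39 2 [4] [0,3] (Pf.cons (Pf.B 5 4 (Pf.B 5 3 (Pf.B 5 0 (Pf.C 0 0x40414180) (Pf.C 4 5)) (Pf.C 30 82179)) (Pf.C 4 517)) Pf.nil)) (Pf.C 4 4)) (Pf.C 30 65795)) Pf.nil)) (Pf.W 39 2 [] [3] (Pf.cons (Pf.C 23 65922) Pf.nil))))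
 (Pq.cons (Pq.L [] 4 (Pf.C 4 384))
 Pq.nil)))) (Pq.cons (Pq.L [] 2 (Pf.C 4 256))
 Pq.nil)))) (Pq.cons (Pq.D 2 (Pq.cons (Pq.D 3 (Pq.cons (Pq.L [] 6 (Pf.B 3 2 (Pf.C 7 259) (Pf.C 1 259)))
 (Pq.cons (Pq.L [] 5 (Pf.B 3 1 (Pf.W 39 1 [] [0,3] (Pf.cons (Pf.B 4 3 (Pf.B 4 0 (Pf.W 39 1 [4] [0,3] (Pf.cons (Pf.B 5 4 (Pf.B 5 3 (Pf.B 5 0 (Pf.C 0 0x40214180) (Pf.C 4 5)) (Pf.C 30 82051)) (Pf.C 4 517)) Pf.nil)) (Pf.C 4 4)) (Pf.C 30 65667)) Pf.nil)) (Pf.W 39 1 [] [3] (Pf.cons (Pf.C 23 65921) Pf.nil))))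
 (Pq.cons (Pq.L [] 4 (Pf.C 4 384))
 Pq.nil)))) (Pq.cons (Pq.D 3 (Pq.cons (Pq.L [] 3 (Pf.B 2 1 (Pf.W 39 1 [] [0,2] (Pf.cons (Pf.B 4 2 (Pf.B 4 0 (Pf.W 39 1 [4] [0,2] (Pf.cons (Pf.B 5 4 (Pf.B 5 2 (Pf.B 5 0 (Pf.C 0 0x40214100) (Pf.C 4 5)) (Pf.C 30 82050)) (Pf.C 4 517)) Pf.nil)) (Pf.C 4 4)) (Pf.C 30 65666)) Pf.nil)) (Pf.W 39 1 [] [2] (Pf.cons (Pf.C 23 65793) Pf.nil))))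
 (Pq.cons (Pq.L [] 7 (Pf.B 3 2 (Pf.B 3 1 (Pf.B 2 1 (Pf.C 28 49282) (Pf.W 39 1 [] [2] (Pf.cons (Pf.C 23 65793) Pf.nil))) (Pf.B 2 1 (Pf.W 39 1 [] [3] (Pf.cons (Pf.C 23 65921) Pf.nil)) (Pf.C 29 49409))) (Pf.B 3 1 (Pf.B 2 1 (Pf.W 39 2 [] [3] (Pf.cons (Pf.C 23 65922) Pf.nil)) (Pf.C 29 49282)) (Pf.B 2 1 (Pf.C 29 16643) (Pf.W 39 1 [] [2] (Pf.cons (Pf.C 23 65793) Pf.nil))))))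
 (Pq.cons (Pq.L [] 4 (Pf.C 4 384))
 Pq.nil)))) (Pq.cons (Pq.L [] 2 (Pf.C 4 256))
 Pq.nil)))) (Pq.cons (Pq.L [] 1 (Pf.C 4 128))
 Pq.nil)))) Pq.nil)))) Pq.nil)
theorem h2_o64 : AllRef h2_T h2_G84 (applyObl TD2 1 [127,128,130] [0,0,0] [(127,0x500000000000000000000000000000000),(128,0x480000000000000000000000000000000),(130,0x180000000000000000000000000000000)]) :=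
  chkPq_sound h2_o64c _ (by decide +kernel)
noncomputable def h2_o65c : Pq := (Pq.cons (Pq.L [] 63 (Pf.C 24 0x604002))
 (Pq.cons (Pq.L [] 0x1c703a (Pf.C 0 0x60a10100))
 Pq.nil))
theorem h2_o65 : AllRef h2_T h2_G5 (applyObl (pairTab (cPaw, cP1S113)) 2 [10] [0] []) :=
  chkPq_sound h2_o65c _ (by decide +kernel)
noncomputable def h2_o66c : Pq := (Pq.cons (Pq.L [] 0 (Pf.W 31 0 [] [] (Pf.cons (Pf.W 36 0 [] [0,1] (Pf.cons (Pf.B 2 1 (Pf.B 2 0 (Pf.W 33 2 [] [1] (Pf.cons (Pf.C 15 16643) Pf.nil)) (Pf.C 21 16640)) (Pf.C 22 16640)) Pf.nil)) Pf.nil)))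
 (Pq.cons (Pq.L [] 0 (Pf.W 36 0 [] [0] (Pf.cons (Pf.W 33 1 [] [0] (Pf.cons (Pf.C 15 130) Pf.nil)) Pf.nil)))
 Pq.nil))
theorem h2_o66 : AllRef h2_T h2_G3 (List.map pat1 [6,5]) :=
  chkPq_sound h2_o66c _ (by decide +kernel)
noncomputable def h2_o67c : Pq := (Pq.cons (Pq.L [] 1 (Pf.C 1 128))
 (Pq.cons (Pq.L [] 3 (Pf.C 13 257))
 (Pq.cons (Pq.L [] 3 (Pf.C 13 257))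
 (Pq.cons (Pq.L [] 2 (Pf.C 3 256))
 (Pq.cons (Pq.L [] 3 (Pf.C 18 257))
 (Pq.cons (Pq.L [] 3 (Pf.C 18 257))
 Pq.nil))))))
theorem h2_o67 : AllRef h2_T h2_G85 (splitObl [1,7] [2,8,9]) :=
  chkPq_sound h2_o67c _ (by decide +kernel)
noncomputable def h2_o68c : Pq := (Pq.cons (Pq.D 0 (Pq.cons (Pq.D 1 (Pq.cons (Pq.D 2 (Pq.cons (Pq.D 3 (Pq.cons (Pq.L [] 4 (Pf.C 2 384))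
 (Pq.cons (Pq.L [] 21 (Pf.C 8 49280))
 Pq.nil))) (Pq.cons (Pq.D 3 (Pq.cons (Pq.L [] 4 (Pf.C 2 384))
 (Pq.cons (Pq.L [] 21 (Pf.C 8 49280))
 Pq.nil))) Pq.nil))) (Pq.cons (Pq.D 2 (Pq.cons (Pq.D 3 (Pq.cons (Pq.L [] 4 (Pf.C 2 384))
 (Pq.cons (Pq.L [] 20 (Pf.W 36 0 [] [0,1,2,3] (Pf.cons (Pf.B 4 3 (Pf.C 17 65921) (Pf.B 4 0 (Pf.B 4 2 (Pf.W 33 4 [] [0] (Pf.cons (Pf.C 13 65541) Pf.nil)) (Pf.C 13 65538)) (Pf.C 14 65920))) Pf.nil)))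
 Pq.nil))) (Pq.cons (Pq.D 3 (Pq.cons (Pq.L [] 4 (Pf.C 2 384))
 (Pq.cons (Pq.L [] 20 (Pf.W 36 0 [] [0,1,3] (Pf.cons (Pf.B 4 3 (Pf.C 17 65921) (Pf.B 4 0 (Pf.W 33 4 [] [0] (Pf.cons (Pf.C 13 65541) Pf.nil)) (Pf.C 14 65920))) Pf.nil)))
 Pq.nil))) Pq.nil))) Pq.nil))) (Pq.cons (Pq.D 1 (Pq.cons (Pq.D 2 (Pq.cons (Pq.D 3 (Pq.cons (Pq.L [] 16 (Pf.C 2 385))
 (Pq.cons (Pq.L [] 20 (Pf.W 36 0 [] [0,1,2,3] (Pf.cons (Pf.B 4 3 (Pf.C 17 65920) (Pf.B 4 1 (Pf.B 4 2 (Pf.W 33 4 [] [1] (Pf.cons (Pf.C 13 65669) Pf.nil)) (Pf.C 13 65666)) (Pf.C 14 65921))) Pf.nil)))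
 Pq.nil))) (Pq.cons (Pq.D 3 (Pq.cons (Pq.L [] 16 (Pf.C 2 385))
 (Pq.cons (Pq.L [] 20 (Pf.W 36 0 [] [0,1,3] (Pf.cons (Pf.B 4 3 (Pf.C 17 65920) (Pf.B 4 1 (Pf.W 33 4 [] [1] (Pf.cons (Pf.C 13 65669) Pf.nil)) (Pf.C 14 65921))) Pf.nil)))
 Pq.nil))) Pq.nil))) (Pq.cons (Pq.D 2 (Pq.cons (Pq.D 3 (Pq.cons (Pq.L [] 21 (Pf.C 9 16387))
 (Pq.cons (Pq.L [] 21 (Pf.W 36 0 [] [0,1,3] (Pf.cons (Pf.B 4 3 (Pf.C 17 65920) (Pf.B 4 1 (Pf.C 17 65667) (Pf.B 4 0 (Pf.C 17 65539) (Pf.C 24 0x604004)))) Pf.nil)))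
 Pq.nil))) (Pq.cons (Pq.D 3 (Pq.cons (Pq.L [] 21 (Pf.C 9 16387))
 (Pq.cons (Pq.L [] 63 (Pf.C 24 0x604002))
 Pq.nil))) Pq.nil))) Pq.nil))) Pq.nil))) (Pq.cons (Pq.D 0 (Pq.cons (Pq.D 1 (Pq.cons (Pq.L [] 1 (Pf.C 2 128))
 (Pq.cons (Pq.D 2 (Pq.cons (Pq.L [] 2 (Pf.C 2 256))
 (Pq.cons (Pq.L [] 67 (Pf.C 9 32896))
 Pq.nil))) Pq.nil))) (Pq.cons (Pq.D 1 (Pq.cons (Pq.D 2 (Pq.cons (Pq.L [] 67 (Pf.C 8 257))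
 (Pq.cons (Pq.D 3 (Pq.cons (Pq.L [] 133 (Pf.C 8 385))
 (Pq.cons (Pq.L [] 2247 (Pf.C 26 0x200182))
 Pq.nil))) Pq.nil))) (Pq.cons (Pq.D 2 (Pq.cons (Pq.D 3 (Pq.cons (Pq.L [] 2240 (Pf.C 7 16770))
 (Pq.cons (Pq.D 4 (Pq.cons (Pq.L [] 4416 (Pf.C 7 16898))
 (Pq.cons (Pq.L [] 33165 (Pf.C 27 0x804180))
 Pq.nil))) Pq.nil))) (Pq.cons (Pq.D 3 (Pq.cons (Pq.D 4 (Pq.cons (Pq.L [] 33152 (Pf.C 7 16899))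
 (Pq.cons (Pq.L [] 4427 (Pf.C 27 0x804100))
 Pq.nil))) (Pq.cons (Pq.L [] 2247 (Pf.C 27 0x604100))
 Pq.nil))) Pq.nil))) Pq.nil))) Pq.nil))) Pq.nil))
theorem h2_o68 : AllRef h2_T h2_G85 (applyObl (pairTab (cPaw, cP1S113)) 2 [1,7] [0,0] [(1,128),(7,2)]) :=
  chkPq_sound h2_o68c _ (by decide +kernel)
noncomputable def h2_o69c : Pq := (Pq.cons (Pq.L [] 2 (Pf.C 6 2))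
 (Pq.cons (Pq.L [] 2 (Pf.C 6 2))
 Pq.nil))
theorem h2_o69 : AllRef h2_T h2_G85 (splitObl [2] [8,9]) :=
  chkPq_sound h2_o69c _ (by decide +kernel)
noncomputable def h2_o70c : Pq := (Pq.cons (Pq.L [] 1 (Pf.C 1 128))
 Pq.nil)
theorem h2_o70 : AllRef h2_T h2_G85 (applyObl TD2 1 [2] [0] []) :=
  chkPq_sound h2_o70c _ (by decide +kernel)
noncomputable def h2_o71c : Pq := (Pq.cons (Pq.L [] 63 (Pf.C 24 0x604002))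
 (Pq.cons (Pq.L [] 0x1c703a (Pf.C 0 0x60a10100))
 Pq.nil))
theorem h2_o71 : AllRef h2_T h2_G85 (applyObl (pairTab (cPaw, cP1S113)) 2 [8,9] [0,0] []) :=
  chkPq_sound h2_o71c _ (by decide +kernel)

end Pool.Agent.Lib.MP_849b2e_co
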