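import Pool.Agent.Lib.MP_849b2e_co.AllR
import Pool.Agent.Lib.MP_849b2e_co.Th2
import Pool.Agent.Lib.MP_849b2e_co.Oh2_0
import Pool.Agent.Lib.MP_849b2e_co.PairsD

set_option maxRecDepth 100000
set_option linter.all false
namespace Pool.Agent.Lib.MP_849b2e_co

theorem h2_n115  : Bd h2_T h2_G85 [8,9] :=
  r_apply (lem_of_bdN (cPaw, cP1S113) ( bdN_paw_d)) [0,0] [] (by decide +kernel) h2_o71
theorem h2_n114  : Bd h2_T h2_G85 [2] :=
  r_apply lem_D2 [0] [] (by decide +kernel) h2_o70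
theorem h2_n113  : Bd h2_T h2_G85 [2,8,9] :=
  r_split [2] [8,9] (by decide +kernel) h2_o69 h2_n114 h2_n115
theorem h2_n112  : Bd h2_T h2_G85 [1,7] :=
  r_apply (lem_of_bdN (cPaw, cP1S113) ( bdN_paw_d)) [0,0] [(1,128),(7,2)] (by decide +kernel) h2_o68
theorem h2_n111  : Bd h2_T h2_G85 [1,2,7,8,9] :=
  r_split [1,7] [2,8,9] (by decide +kernel) h2_o67 h2_n112 h2_n113
theorem h2_n110  : Bd h2_T h2_G3 [1,2,6,7,8,9,5] :=
  r_kill [6,5] ⟨10,[],[],[]⟩ h2_G85 [1,2,7,8,9] (by decide +kernel) h2_o66 h2_n111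
theorem h2_n109  : Bd h2_T h2_G5 [10] :=
  r_apply (lem_of_bdN (cPaw, cP1S113) ( bdN_paw_d)) [0] [] (by decide +kernel) h2_o65
theorem h2_n108  : Bd h2_T h2_G84 [127,128,130] :=
  r_apply lem_D2 [0,0,0] [(127,0x500000000000000000000000000000000),(128,0x480000000000000000000000000000000),(130,0x180000000000000000000000000000000)] (by decide +kernel) h2_o64
theorem h2_n107  : Bd h2_T h2_G83 [127,128,131,130] :=
  r_kill [131] ⟨132,[],[],[]⟩ h2_G84 [127,128,130] (by decide +kernel) h2_o63 h2_n108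
theorem h2_n106  : Bd h2_T h2_G82 [127,128,129,130] :=
  r_hit [129] h2_h106 ⟨131,[],[105],[]⟩ h2_G83 [127,128,131,130] (by decide +kernel) h2_o62 h2_n107
theorem h2_n105  : Bd h2_T h2_G81 [2,12,13,5] :=
  r_twin 4 [8,8,0,7] ⟨127,[],[0,0,104],[]⟩ h2_G82 [127,128,129,130] (by decide +kernel) h2_o61 h2_n106
theorem h2_n104  : Bd h2_T h2_G81 [7] :=
  r_apply lem_D2 [0] [(7,128)] (by decide +kernel) h2_o60
theorem h2_n103  : Bd h2_T h2_G81 [2,7,12,13,5] :=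
  r_split [7] [2,12,13,5] (by decide +kernel) h2_o59 h2_n104 h2_n105
theorem h2_n102  : Bd h2_T h2_G8 [1,2,6,7,12,13,5] :=
  r_kill [1,6] ⟨14,[],[],[]⟩ h2_G81 [2,7,12,13,5] (by decide +kernel) h2_o58 h2_n103
theorem h2_n101  : Bd h2_T h2_G12 [23] :=
  r_apply lem_D2 [0] [(23,0x800000)] (by decide +kernel) h2_o57
theorem h2_n100  : Bd h2_T h2_G80 [26,125,30,31] :=
  r_apply (lem_of_bdN (cPaw, cP1S113) ( bdN_paw_d)) [0,0,0,0] [(26,0x20000000000000000000000080000000),(125,0x4000000),(31,0x4000000)] (by decide +kernel) h2_o56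
theorem h2_n99  : Bd h2_T h2_G80 [25,28] :=
  r_apply lem_D2 [0,0] [(25,0x2000000),(28,0x10000000)] (by decide +kernel) h2_o55
theorem h2_n98  : Bd h2_T h2_G80 [25,26,28,125,30,31] :=
  r_split [25,28] [26,125,30,31] (by decide +kernel) h2_o54 h2_n99 h2_n100
theorem h2_n97  : Bd h2_T h2_G79 [25,26,126,28,125,30,31] :=
  r_kill [126] ⟨127,[],[],[]⟩ h2_G80 [25,26,28,125,30,31] (by decide +kernel) h2_o53 h2_n98
theorem h2_n96  : Bd h2_T h2_G78 [25,26,124,28,125,30,31] :=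
  r_hit [124] h2_h96 ⟨126,[],[103],[]⟩ h2_G79 [25,26,126,28,125,30,31] (by decide +kernel) h2_o52 h2_n97
theorem h2_n95  : Bd h2_T h2_G78 [25,26,27,28,29,30,31] :=
  r_act [43,44] [25,26,124,28,125,30,31] (by decide +kernel) h2_n96
theorem h2_n94  : Bd h2_T h2_G77 [25,26,27,28,29,30,31] :=
  r_psplit 29 [0] PT.kid ⟨125,[45],[],[]⟩ h2_G78 [25,26,27,28,29,30,31] (by decide +kernel) h2_o51 h2_n95
theorem h2_n93  : Bd h2_T h2_G15 [25,26,27,28,29,30,31] :=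
  r_psplit 27 [] (PT.br 0 PT.kid PT.ref) ⟨124,[44],[],[]⟩ h2_G77 [25,26,27,28,29,30,31] (by decide +kernel) h2_o50 h2_n94
theorem h2_n92  : Bd h2_T h2_G76 [117,122,120] :=
  r_apply lem_D2 [0,0,0] [(117,0x200000000000000000000000000000),(122,0x4000000000000000000000000000000),(120,0x1000000000000000000000000000000)] (by decide +kernel) (allRef_expand 0 (allRef_split 1 h2_o48 h2_o49))
theorem h2_n91  : Bd h2_T h2_G75 [117,122,123,120] :=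
  r_kill [123] ⟨124,[],[],[]⟩ h2_G76 [117,122,120] (by decide +kernel) h2_o47 h2_n92
theorem h2_n90  : Bd h2_T h2_G75 [117,118,119,120] :=
  r_act [41,42] [117,122,123,120] (by decide +kernel) h2_n91
theorem h2_n89  : Bd h2_T h2_G74 [117,118,119,120] :=
  r_psplit 119 [] (PT.br 1 PT.ref (PT.br 2 PT.ref PT.kid)) ⟨123,[43],[],[]⟩ h2_G75 [117,118,119,120] (by decide +kernel) h2_o46 h2_n90
theorem h2_n88  : Bd h2_T h2_G71 [117,118,119,120] :=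
  r_psplit 118 [1,2] PT.kid ⟨122,[42],[],[]⟩ h2_G74 [117,118,119,120] (by decide +kernel) h2_o45 h2_n89
theorem h2_n87  : Bd h2_T h2_G73 [117,119,120] :=
  r_apply lem_D2 [0,0,0] [(117,0x200000000000000000000000000000),(119,0x1800000000000000000000000000000),(120,0x1800000000000000000000000000000)] (by decide +kernel) h2_o44
theorem h2_n86  : Bd h2_T h2_G72 [117,121,119,120] :=
  r_kill [121] ⟨122,[],[],[]⟩ h2_G73 [117,119,120] (by decide +kernel) h2_o43 h2_n87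
theorem h2_n85  : Bd h2_T h2_G70 [117,118,119,120] :=
  r_hit [118] h2_h85 ⟨121,[],[102],[]⟩ h2_G72 [117,121,119,120] (by decide +kernel) h2_o42 h2_n86
theorem h2_n84  : Bd h2_T h2_G69 [117,118,119,120] :=
  r_case [118,118] [⟨0,1,true⟩] [0] ⟨121,[],[101],[]⟩ h2_G70 [117,118,119,120] h2_G71 [117,118,119,120] (by decide +kernel) h2_n85 h2_n88
theorem h2_n83  : Bd h2_T h2_G68 [77,115,116,83] :=
  r_twin 15 [14,9,1,9] ⟨117,[],[],[]⟩ h2_G69 [117,118,119,120] (by decide +kernel) h2_o41 h2_n84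
theorem h2_n82  : Bd h2_T h2_G68 [77,82,83] :=
  r_act [40] [77,115,116,83] (by decide +kernel) h2_n83
theorem h2_n81  : Bd h2_T h2_G67 [77,82,83] :=
  r_def 82 0 [] [83] ⟨115,[41],[99,100],[]⟩ h2_G68 [77,82,83] (by decide +kernel) h2_n82
theorem h2_n80  : Bd h2_T h2_G66 [77,111,82,83,112,113,114] :=
  r_kill [111,112,113,114] ⟨115,[],[],[]⟩ h2_G67 [77,82,83] (by decide +kernel) h2_o40 h2_n81
theorem h2_n79  : Bd h2_T h2_G65 [77,78,82,83,84,85,89] :=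
  r_hit [78,84,85,89] h2_h79 ⟨111,[],[95,96,97,98],[]⟩ h2_G66 [77,111,82,83,112,113,114] (by decide +kernel) h2_o39 h2_n80
theorem h2_n78  : Bd h2_T h2_G65 [91,97,103,109,78,93,99,105,83,95,101,107,85,89] :=
  r_act [] [77,78,82,83,84,85,89] (by decide +kernel) h2_n79
theorem h2_n77  : Bd h2_T h2_G64 [91,97,103,109,110,78,79,93,99,105,106,83,95,101,107,108,85,87,88,89,90] :=
  r_close false 0 [6,20,30,33,36,39,7,21,8,22,9,23,24,31,34,37,25,32,35,38,10,26,27,11,28,29] [91,97,103,109,110,78,79,93,99,105,106,83,95,101,107,108,85,87,88,89,90] [0,0,0,0,0,0,1,3,3,3,3,3,3,3,3,3,3,4,5,5,5] [0] [3] 0x97baf ⟨111,[],[],[]⟩ h2_G65 [91,97,103,109,78,93,99,105,83,95,101,107,85,89] (by decide +kernel) h2_o38 h2_n78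
theorem h2_n76  : Bd h2_T h2_G64 [91,97,103,104,78,79,93,99,105,106,83,95,101,107,108,85,87,88,89,90] :=
  r_act [39] [91,97,103,109,110,78,79,93,99,105,106,83,95,101,107,108,85,87,88,89,90] (by decide +kernel) h2_n77
theorem h2_n75  : Bd h2_T h2_G63 [91,97,103,104,78,79,93,99,105,106,83,95,101,107,108,85,87,88,89,90] :=
  r_def 104 0 [105,107] [] ⟨109,[40],[93,0,94],[]⟩ h2_G64 [91,97,103,104,78,79,93,99,105,106,83,95,101,107,108,85,87,88,89,90] (by decide +kernel) h2_n76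
theorem h2_n74  : Bd h2_T h2_G63 [91,97,98,78,79,93,99,100,83,95,101,102,85,87,88,89,90] :=
  r_act [36,37,38] [91,97,103,104,78,79,93,99,105,106,83,95,101,107,108,85,87,88,89,90] (by decide +kernel) h2_n75
theorem h2_n73  : Bd h2_T h2_G62 [91,97,98,78,79,93,99,100,83,95,101,102,85,87,88,89,90] :=
  r_def 102 0 [99,101] [] ⟨107,[39],[91,0,92],[]⟩ h2_G63 [91,97,98,78,79,93,99,100,83,95,101,102,85,87,88,89,90] (by decide +kernel) h2_n74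
theorem h2_n72  : Bd h2_T h2_G61 [91,97,98,78,79,93,99,100,83,95,101,102,85,87,88,89,90] :=
  r_def 100 0 [99] [] ⟨105,[38],[89,0,90],[]⟩ h2_G62 [91,97,98,78,79,93,99,100,83,95,101,102,85,87,88,89,90] (by decide +kernel) h2_n73
theorem h2_n71  : Bd h2_T h2_G60 [91,97,98,78,79,93,99,100,83,95,101,102,85,87,88,89,90] :=
  r_def 98 0 [99,101] [] ⟨103,[37],[87,0,88],[]⟩ h2_G61 [91,97,98,78,79,93,99,100,83,95,101,102,85,87,88,89,90] (by decide +kernel) h2_n72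
theorem h2_n70  : Bd h2_T h2_G60 [91,92,78,79,93,94,83,95,96,85,87,88,89,90] :=
  r_act [33,34,35] [91,97,98,78,79,93,99,100,83,95,101,102,85,87,88,89,90] (by decide +kernel) h2_n71
theorem h2_n69  : Bd h2_T h2_G59 [91,92,78,79,93,94,83,95,96,85,87,88,89,90] :=
  r_def 96 0 [91,93,95] [] ⟨101,[36],[85,0,86],[]⟩ h2_G60 [91,92,78,79,93,94,83,95,96,85,87,88,89,90] (by decide +kernel) h2_n70
theorem h2_n68  : Bd h2_T h2_G58 [91,92,78,79,93,94,83,95,96,85,87,88,89,90] :=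
  r_def 94 0 [91,93] [] ⟨99,[35],[83,0,84],[]⟩ h2_G59 [91,92,78,79,93,94,83,95,96,85,87,88,89,90] (by decide +kernel) h2_n69
theorem h2_n67  : Bd h2_T h2_G57 [91,92,78,79,93,94,83,95,96,85,87,88,89,90] :=
  r_def 92 0 [93,95] [] ⟨97,[34],[81,0,82],[]⟩ h2_G58 [91,92,78,79,93,94,83,95,96,85,87,88,89,90] (by decide +kernel) h2_n68
theorem h2_n66  : Bd h2_T h2_G57 [77,78,79,82,83,84,85,87,88,89,90] :=
  r_act [30,31,32] [91,92,78,79,93,94,83,95,96,85,87,88,89,90] (by decide +kernel) h2_n67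
theorem h2_n65  : Bd h2_T h2_G56 [77,78,79,82,83,84,85,87,88,89,90] :=
  r_def 84 0 [78,83,85] [] ⟨95,[33],[79,0,80],[]⟩ h2_G57 [77,78,79,82,83,84,85,87,88,89,90] (by decide +kernel) h2_n66
theorem h2_n64  : Bd h2_T h2_G55 [77,78,79,82,83,84,85,87,88,89,90] :=
  r_def 82 0 [78,83,85] [] ⟨93,[32],[77,0,78],[]⟩ h2_G56 [77,78,79,82,83,84,85,87,88,89,90] (by decide +kernel) h2_n65
theorem h2_n63  : Bd h2_T h2_G54 [77,78,79,82,83,84,85,87,88,89,90] :=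
  r_def 77 0 [83,85] [] ⟨91,[31],[75,0,76],[]⟩ h2_G55 [77,78,79,82,83,84,85,87,88,89,90] (by decide +kernel) h2_n64
theorem h2_n62  : Bd h2_T h2_G53 [77,78,79,80,82,83,84,85,86,87,88,89,90] :=
  r_kill [80,86] ⟨91,[],[],[]⟩ h2_G54 [77,78,79,82,83,84,85,87,88,89,90] (by decide +kernel) h2_o37 h2_n63
theorem h2_n61  : Bd h2_T h2_G53 [51,53,55,56,57,58,59,60,61] :=
  r_act [20,21,22,23,24,25,26,27,28,29] [77,78,79,80,82,83,84,85,86,87,88,89,90] (by decide +kernel) h2_n62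
theorem h2_n60  : Bd h2_T h2_G52 [51,53,55,56,57,58,59,60,61] :=
  r_psplit 61 [] (PT.br 0 PT.kid PT.ref) ⟨90,[30],[],[]⟩ h2_G53 [51,53,55,56,57,58,59,60,61] (by decide +kernel) h2_o36 h2_n61
theorem h2_n59  : Bd h2_T h2_G51 [51,53,55,56,57,58,59,60,61] :=
  r_psplit 60 [] (PT.br 0 PT.kid PT.kid) ⟨88,[29],[],[]⟩ h2_G52 [51,53,55,56,57,58,59,60,61] (by decide +kernel) h2_o35 h2_n60
theorem h2_n58  : Bd h2_T h2_G50 [51,53,55,56,57,58,59,60,61] :=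
  r_psplit 59 [] (PT.br 0 PT.kid PT.ref) ⟨87,[28],[],[]⟩ h2_G51 [51,53,55,56,57,58,59,60,61] (by decide +kernel) h2_o34 h2_n59
theorem h2_n57  : Bd h2_T h2_G49 [51,53,55,56,57,58,59,60,61] :=
  r_psplit 58 [] (PT.br 0 PT.kid PT.ref) ⟨86,[27],[],[]⟩ h2_G50 [51,53,55,56,57,58,59,60,61] (by decide +kernel) h2_o33 h2_n58
theorem h2_n56  : Bd h2_T h2_G48 [51,53,55,56,57,58,59,60,61] :=
  r_psplit 57 [] (PT.br 0 PT.kid PT.kid) ⟨84,[26],[],[]⟩ h2_G49 [51,53,55,56,57,58,59,60,61] (by decide +kernel) h2_o32 h2_n57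
theorem h2_n55  : Bd h2_T h2_G47 [51,53,55,56,57,58,59,60,61] :=
  r_psplit 81 [] (PT.br 0 PT.kid PT.kid) ⟨82,[25],[],[]⟩ h2_G48 [51,53,55,56,57,58,59,60,61] (by decide +kernel) h2_o31 h2_n56
theorem h2_n54  : Bd h2_T h2_G46 [51,53,55,56,57,58,59,60,61] :=
  r_psplit 56 [0] PT.kid ⟨81,[24],[],[]⟩ h2_G47 [51,53,55,56,57,58,59,60,61] (by decide +kernel) h2_o30 h2_n55
theorem h2_n53  : Bd h2_T h2_G45 [51,53,55,56,57,58,59,60,61] :=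
  r_psplit 55 [] (PT.br 0 PT.kid PT.ref) ⟨80,[23],[],[]⟩ h2_G46 [51,53,55,56,57,58,59,60,61] (by decide +kernel) h2_o29 h2_n54
theorem h2_n52  : Bd h2_T h2_G44 [51,53,55,56,57,58,59,60,61] :=
  r_psplit 53 [] (PT.br 0 PT.ref PT.kid) ⟨79,[22],[],[]⟩ h2_G45 [51,53,55,56,57,58,59,60,61] (by decide +kernel) h2_o28 h2_n53
theorem h2_n51  : Bd h2_T h2_G26 [51,53,55,56,57,58,59,60,61] :=
  r_psplit 51 [] (PT.br 0 PT.kid PT.kid) ⟨77,[21],[],[]⟩ h2_G44 [51,53,55,56,57,58,59,60,61] (by decide +kernel) h2_o27 h2_n52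
theorem h2_n50  : Bd h2_T h2_G43 [] :=
  r_empty (by decide +kernel) 
theorem h2_n49  : Bd h2_T h2_G42 [74,75,76] :=
  r_kill [74,75,76] ⟨77,[],[],[]⟩ h2_G43 [] (by decide +kernel) h2_o26 h2_n50
theorem h2_n48  : Bd h2_T h2_G41 [66,68,69] :=
  r_hit [66,68,69] h2_h48 ⟨74,[],[72,73,74],[]⟩ h2_G42 [74,75,76] (by decide +kernel) h2_o25 h2_n49
theorem h2_n47  : Bd h2_T h2_G40 [66,67,68,69,72] :=
  r_close false 0 [6,12,7,13,8,14,9,15,10,16,17,18,11,19] [66,67,68,69,72] [1,1,2,3,4] [0] [4] 13 ⟨74,[],[],[]⟩ h2_G41 [66,68,69] (by decide +kernel) h2_o24 h2_n48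
theorem h2_n46  : Bd h2_T h2_G39 [65,66,67,68,69,71,72,73] :=
  r_kill [65,71,73] ⟨74,[],[],[]⟩ h2_G40 [66,67,68,69,72] (by decide +kernel) h2_o23 h2_n47
theorem h2_n45  : Bd h2_T h2_G39 [51,53,55,57,58,59,61] :=
  r_act [12,13,14,15,16,17,18,19] [65,66,67,68,69,71,72,73] (by decide +kernel) h2_n46
theorem h2_n44  : Bd h2_T h2_G38 [51,53,55,57,58,59,61] :=
  r_psplit 61 [] (PT.br 0 PT.kid PT.ref) ⟨73,[20],[],[]⟩ h2_G39 [51,53,55,57,58,59,61] (by decide +kernel) h2_o22 h2_n45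
theorem h2_n43  : Bd h2_T h2_G37 [51,53,55,57,58,59,61] :=
  r_psplit 59 [] (PT.br 0 PT.kid PT.ref) ⟨72,[19],[],[]⟩ h2_G38 [51,53,55,57,58,59,61] (by decide +kernel) h2_o21 h2_n44
theorem h2_n42  : Bd h2_T h2_G36 [51,53,55,57,58,59,61] :=
  r_psplit 70 [] (PT.br 0 PT.kid PT.ref) ⟨71,[18],[],[]⟩ h2_G37 [51,53,55,57,58,59,61] (by decide +kernel) h2_o20 h2_n43
theorem h2_n41  : Bd h2_T h2_G35 [51,53,55,57,58,59,61] :=
  r_psplit 58 [0] PT.kid ⟨70,[17],[],[]⟩ h2_G36 [51,53,55,57,58,59,61] (by decide +kernel) h2_o19 h2_n42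
theorem h2_n40  : Bd h2_T h2_G34 [51,53,55,57,58,59,61] :=
  r_psplit 57 [] (PT.br 0 PT.ref PT.kid) ⟨69,[16],[],[]⟩ h2_G35 [51,53,55,57,58,59,61] (by decide +kernel) h2_o18 h2_n41
theorem h2_n39  : Bd h2_T h2_G33 [51,53,55,57,58,59,61] :=
  r_psplit 55 [] (PT.br 0 PT.kid PT.ref) ⟨68,[15],[],[]⟩ h2_G34 [51,53,55,57,58,59,61] (by decide +kernel) h2_o17 h2_n40
theorem h2_n38  : Bd h2_T h2_G32 [51,53,55,57,58,59,61] :=
  r_psplit 53 [] (PT.br 0 PT.kid PT.kid) ⟨66,[14],[],[]⟩ h2_G33 [51,53,55,57,58,59,61] (by decide +kernel) h2_o16 h2_n39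
theorem h2_n37  : Bd h2_T h2_G29 [51,53,55,57,58,59,61] :=
  r_psplit 51 [] (PT.br 0 PT.ref PT.kid) ⟨65,[13],[],[]⟩ h2_G32 [51,53,55,57,58,59,61] (by decide +kernel) h2_o15 h2_n38
theorem h2_n36  : Bd h2_T h2_G31 [53,55,57,59,61] :=
  r_apply lem_D2 [0,0,0,0,0] [(53,0x2a80000000000000),(55,0x2820000000000000),(57,0x20000000000000),(59,0xa0000000000000),(61,0xa0000000000000)] (by decide +kernel) h2_o14
theorem h2_n35  : Bd h2_T h2_G30 [64,53,55,57,59,61] :=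
  r_kill [64] ⟨65,[],[],[]⟩ h2_G31 [53,55,57,59,61] (by decide +kernel) h2_o13 h2_n36
theorem h2_n34  : Bd h2_T h2_G28 [51,53,55,57,59,61] :=
  r_hit [51] h2_h34 ⟨64,[],[71],[]⟩ h2_G30 [64,53,55,57,59,61] (by decide +kernel) h2_o12 h2_n35
theorem h2_n33  : Bd h2_T h2_G27 [51,53,55,57,58,59,61] :=
  r_ext 58 2 [] [57] [53] [55] [] ⟨62,[],[],[]⟩ h2_G28 [51,53,55,57,59,61] ⟨63,[],[],[]⟩ h2_G29 [51,53,55,57,58,59,61] (by decide +kernel) h2_o11 h2_n34 h2_n37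
theorem h2_n32  : Bd h2_T h2_G25 [51,53,55,57,58,59,60,61] :=
  r_kill [60] ⟨62,[],[],[]⟩ h2_G27 [51,53,55,57,58,59,61] (by decide +kernel) h2_o10 h2_n33
theorem h2_n31  : Bd h2_T h2_G24 [51,53,55,56,57,58,59,60,61] :=
  r_ext 56 2 [51,56,57,60] [] [] [] [] ⟨62,[],[],[]⟩ h2_G25 [51,53,55,57,58,59,60,61] ⟨62,[],[0,0,0,0,70],[]⟩ h2_G26 [51,53,55,56,57,58,59,60,61] (by decide +kernel) h2_o9 h2_n32 h2_n51
theorem h2_n30  : Bd h2_T h2_G23 [50,51,52,53,54,55,56,57,58,59,60,61] :=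
  r_kill [50,52,54] ⟨62,[],[],[]⟩ h2_G24 [51,53,55,56,57,58,59,60,61] (by decide +kernel) h2_o8 h2_n31
theorem h2_n29  : Bd h2_T h2_G23 [32,35,38,41,44,47] :=
  r_act [6,7,8,9,10,11] [50,51,52,53,54,55,56,57,58,59,60,61] (by decide +kernel) h2_n30
theorem h2_n28  : Bd h2_T h2_G22 [32,35,38,41,44,47] :=
  r_def 47 2 [41] [35] ⟨60,[12],[66,0,67,68,69],[]⟩ h2_G23 [32,35,38,41,44,47] (by decide +kernel) h2_n29
theorem h2_n27  : Bd h2_T h2_G21 [32,35,38,41,44,47] :=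
  r_def 44 2 [41] [35,38] ⟨58,[11],[61,62,63,64,65],[]⟩ h2_G22 [32,35,38,41,44,47] (by decide +kernel) h2_n28
theorem h2_n26  : Bd h2_T h2_G20 [32,35,38,41,44,47] :=
  r_def 41 2 [32,41,44,47] [] ⟨56,[10],[59,0,0,0,60],[]⟩ h2_G21 [32,35,38,41,44,47] (by decide +kernel) h2_n27
theorem h2_n25  : Bd h2_T h2_G19 [32,35,38,41,44,47] :=
  r_def 38 2 [] [44] ⟨54,[9],[58],[]⟩ h2_G20 [32,35,38,41,44,47] (by decide +kernel) h2_n26
theorem h2_n24  : Bd h2_T h2_G18 [32,35,38,41,44,47] :=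
  r_def 35 2 [] [44,47] ⟨52,[8],[57],[]⟩ h2_G19 [32,35,38,41,44,47] (by decide +kernel) h2_n25
theorem h2_n23  : Bd h2_T h2_G17 [32,35,38,41,44,47] :=
  r_def 32 2 [41] [] ⟨50,[7],[55,0,0,0,56],[]⟩ h2_G18 [32,35,38,41,44,47] (by decide +kernel) h2_n24
theorem h2_n22  : Bd h2_T h2_G16 [25,26,27,28,30,31] :=
  r_block [49,60,18,2,7,3] [8,48,16,57,14,10] [8,48,16,57,14,10] ⟨32,[],[0,0,0,0,0,0,0,0,0,0,0,0,0,0,0,0,0,0,0,0,0,0,0,0,51,0,52,53,0,0,54],[1]⟩ h2_G17 [32,35,38,41,44,47] (by decide +kernel) h2_o7 h2_n23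
theorem h2_n21  : Bd h2_T h2_G14 [25,26,27,28,29,30,31] :=
  r_kill [29] ⟨32,[],[],[]⟩ h2_G16 [25,26,27,28,30,31] (by decide +kernel) h2_o6 h2_n22
theorem h2_n20  : Bd h2_T h2_G13 [25,26,27,28,29,30,31] :=
  r_case [29] [] [] ⟨32,[],[50],[]⟩ h2_G14 [25,26,27,28,29,30,31] h2_G15 [25,26,27,28,29,30,31] (by decide +kernel) h2_n21 h2_n93
theorem h2_n19  : Bd h2_T h2_G12 [16,17,24,19,20,21,22] :=
  r_twin 1 [8,96,32,105,80,14,26] ⟨25,[],[],[]⟩ h2_G13 [25,26,27,28,29,30,31] (by decide +kernel) h2_o5 h2_n20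
theorem h2_n18  : Bd h2_T h2_G12 [16,17,23,24,19,20,21,22] :=
  r_split [16,17,24,19,20,21,22] [23] (by decide +kernel) h2_o4 h2_n19 h2_n101
theorem h2_n17  : Bd h2_T h2_G12 [16,17,18,19,20,21,22] :=
  r_act [5] [16,17,23,24,19,20,21,22] (by decide +kernel) h2_n18
theorem h2_n16  : Bd h2_T h2_G11 [16,17,18,19,20,21,22] :=
  r_def 18 0 [18] [] ⟨23,[6],[48,0,49],[]⟩ h2_G12 [16,17,18,19,20,21,22] (by decide +kernel) h2_n17
theorem h2_n15  : Bd h2_T h2_G10 [1,2,6,7,13,14,15] :=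
  r_twin 1 [8,96,32,105,80,14,26] ⟨16,[],[0,0,46,47],[]⟩ h2_G11 [16,17,18,19,20,21,22] (by decide +kernel) h2_o3 h2_n16
theorem h2_n14  : Bd h2_T h2_G10 [1,2,6,7,13,5] :=
  r_act [4] [1,2,6,7,13,14,15] (by decide +kernel) h2_n15
theorem h2_n13  : Bd h2_T h2_G9 [1,2,6,7,13,5] :=
  r_def 5 0 [6] [] ⟨14,[5],[44,0,45],[]⟩ h2_G10 [1,2,6,7,13,5] (by decide +kernel) h2_n14
theorem h2_n12  : Bd h2_T h2_G7 [1,2,6,7,12,13,5] :=
  r_kill [12] ⟨14,[],[],[]⟩ h2_G9 [1,2,6,7,13,5] (by decide +kernel) h2_o2 h2_n13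
theorem h2_n11  : Bd h2_T h2_G6 [1,2,6,7,12,13,5] :=
  r_ex 12 0 ⟨14,[],[42],[]⟩ h2_G7 [1,2,6,7,12,13,5] ⟨14,[],[43],[]⟩ h2_G8 [1,2,6,7,12,13,5] (by decide +kernel) h2_n12 h2_n102
theorem h2_n10  : Bd h2_T h2_G6 [1,2,6,7,11,5] :=
  r_act [3] [1,2,6,7,12,13,5] (by decide +kernel) h2_n11
theorem h2_n9  : Bd h2_T h2_G5 [1,2,6,7,11,5] :=
  r_def 11 1 [5] [] ⟨12,[4],[40,0,0,41],[]⟩ h2_G6 [1,2,6,7,11,5] (by decide +kernel) h2_n10
theorem h2_n8  : Bd h2_T h2_G5 [1,2,6,7,10,11,5] :=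
  r_split [1,2,6,7,11,5] [10] (by decide +kernel) h2_o1 h2_n9 h2_n109
theorem h2_n7  : Bd h2_T h2_G5 [1,2,6,7,9,5] :=
  r_act [2] [1,2,6,7,10,11,5] (by decide +kernel) h2_n8
theorem h2_n6  : Bd h2_T h2_G4 [1,2,6,7,9,5] :=
  r_def 9 0 [7] [] ⟨10,[3],[38,0,39],[]⟩ h2_G5 [1,2,6,7,9,5] (by decide +kernel) h2_n7
theorem h2_n5  : Bd h2_T h2_G2 [1,2,6,7,8,9,5] :=
  r_kill [8] ⟨10,[],[],[]⟩ h2_G4 [1,2,6,7,9,5] (by decide +kernel) h2_o0 h2_n6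
theorem h2_n4  : Bd h2_T h2_G1 [1,2,6,7,8,9,5] :=
  r_ex 8 0 ⟨10,[],[36],[]⟩ h2_G2 [1,2,6,7,8,9,5] ⟨10,[],[37],[]⟩ h2_G3 [1,2,6,7,8,9,5] (by decide +kernel) h2_n5 h2_n110
theorem h2_n3  : Bd h2_T h2_G1 [1,2,6,7,4,5] :=
  r_act [1] [1,2,6,7,8,9,5] (by decide +kernel) h2_n4
theorem h2_n2  : Bd h2_T h2_G0 [1,2,6,7,4,5] :=
  r_def 4 0 [1] [] ⟨8,[2],[34,0,35],[]⟩ h2_G1 [1,2,6,7,4,5] (by decide +kernel) h2_n3
theorem h2_n1  : Bd h2_T h2_G0 [1,2,3,4,5] :=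
  r_act [0] [1,2,6,7,4,5] (by decide +kernel) h2_n2
theorem h2_n0  : Bd h2_T (pureCtx 5 31) (pureAct 5) :=
  show Bd _ _ [1,2,3,4,5] from r_def 3 1 [5] [] ⟨6,[1],[32,0,0,33],[]⟩ h2_G0 [1,2,3,4,5] (by decide +kernel) h2_n1
theorem lem_h2  : Lem h2_T 5 31 := ⟨by decide +kernel, h2_n0⟩

end Pool.Agent.Lib.MP_849b2e_co
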