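import Pool.Agent.Lib.MP_849b2e_co.Fast
import Pool.Agent.Lib.MP_849b2e_co.Th3
import Pool.Agent.Lib.MP_849b2e_co.RApply
import Pool.Agent.Lib.MP_849b2e_co.Codes

set_option maxRecDepth 100000
set_option linter.all false
namespace Pool.Agent.Lib.MP_849b2e_co

noncomputable def h3_o0c : Pq := (Pq.cons (Pq.L [] 63 (Pf.C 7 0x608080))
 (Pq.cons (Pq.L [] 7 (Pf.C 6 32896))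
 Pq.nil))
theorem h3_o0 : AllRef h3_T h3_G2 (hitObl [2] h3_h2) :=
  chkPq_sound h3_o0c _ (by decide +kernel)
noncomputable def h3_o1c : Pq := (Pq.cons (Pq.L [] 0 (Pf.C 8 0))
 Pq.nil)
theorem h3_o1 : AllRef h3_T h3_G4 (List.map pat1 [3]) :=
  chkPq_sound h3_o1c _ (by decide +kernel)
noncomputable def h3_o2c : Pq := (Pq.cons (Pq.L [] 1 (Pf.C 2 128))
 Pq.nil)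
theorem h3_o2 : AllRef h3_T h3_G5 (applyObl TD2 1 [1] [0] []) :=
  chkPq_sound h3_o2c _ (by decide +kernel)
noncomputable def h3_o3c : Pq := (Pq.cons (Pq.L [0,1,2,3] 0 (Pf.C 1 0x30808080))
 (Pq.cons (Pq.L [0,1,2,3] 0 (Pf.C 1 0x30804100))
 (Pq.cons (Pq.L [0,1,2,3] 0 (Pf.C 1 0x20804180))
 (Pq.cons (Pq.L [0,1,2,3] 0 (Pf.C 1 0x30800101))
 (Pq.cons (Pq.L [0,1,2,3] 0 (Pf.C 1 0x20800181))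
 (Pq.cons (Pq.L [0,1,2,3] 0 (Pf.C 1 0x10800182))
 Pq.nil))))))
theorem h3_o3 : AllRef h3_T h3_G3 (ptObl 1 (PT.br 0 (PT.br 1 (PT.br 2 (PT.br 3 PT.kid PT.kid) (PT.br 3 PT.kid PT.ref)) (PT.br 2 (PT.br 3 PT.kid PT.ref) (PT.br 3 PT.ref PT.kid))) (PT.br 1 (PT.br 2 (PT.br 3 PT.kid PT.ref) (PT.br 3 PT.ref PT.kid)) (PT.br 2 (PT.br 3 PT.ref PT.kid) (PT.br 3 PT.kid PT.kid)))) []) :=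
  chkPq_sound h3_o3c _ (by decide +kernel)
noncomputable def h3_o4c : Pq := Pq.nil
theorem h3_o4 : AllRef h3_T h3_G6 (ptObl 2 PT.kid []) :=
  chkPq_sound h3_o4c _ (by decide +kernel)
noncomputable def h3_o5c : Pq := (Pq.cons (Pq.L [0,1,2,3] 0 (Pf.C 1 0x30808080))
 (Pq.cons (Pq.L [0,1,2,3] 0 (Pf.C 1 0x30804100))
 (Pq.cons (Pq.L [0,1,2,3] 0 (Pf.C 1 0x20804180))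
 (Pq.cons (Pq.L [0,1,2,3] 0 (Pf.C 1 0x30800101))
 (Pq.cons (Pq.L [0,1,2,3] 0 (Pf.C 1 0x20800181))
 (Pq.cons (Pq.L [0,1,2,3] 0 (Pf.C 1 0x10800182))
 Pq.nil))))))
theorem h3_o5 : AllRef h3_T h3_G7 (ptObl 14 (PT.br 0 (PT.br 1 (PT.br 2 (PT.br 3 PT.kid PT.kid) (PT.br 3 PT.kid PT.ref)) (PT.br 2 (PT.br 3 PT.kid PT.ref) (PT.br 3 PT.ref PT.kid))) (PT.br 1 (PT.br 2 (PT.br 3 PT.kid PT.ref) (PT.br 3 PT.ref PT.kid)) (PT.br 2 (PT.br 3 PT.ref PT.kid) (PT.br 3 PT.kid PT.kid)))) []) :=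
  chkPq_sound h3_o5c _ (by decide +kernel)
noncomputable def h3_o6c : Pq := (Pq.cons (Pq.L [0] 0 (Pf.B 5 4 (Pf.C 3 517) (Pf.C 2 517)))
 (Pq.cons (Pq.L [0] 0 (Pf.B 5 4 (Pf.C 3 517) (Pf.C 2 517)))
 (Pq.cons (Pq.L [0] 0 (Pf.B 5 4 (Pf.C 3 517) (Pf.C 2 517)))
 (Pq.cons (Pq.L [0] 0 (Pf.B 5 4 (Pf.C 3 517) (Pf.C 2 517)))
 (Pq.cons (Pq.L [0] 0 (Pf.B 5 4 (Pf.C 3 517) (Pf.C 2 517)))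
 (Pq.cons (Pq.L [1] 0 (Pf.B 5 4 (Pf.C 3 16901) (Pf.C 2 517)))
 (Pq.cons (Pq.L [1] 0 (Pf.B 5 4 (Pf.C 3 16901) (Pf.C 2 517)))
 (Pq.cons (Pq.L [2] 0 (Pf.B 5 4 (Pf.C 3 33285) (Pf.C 2 517)))
 (Pq.cons (Pq.L [3] 0 (Pf.B 5 4 (Pf.C 3 49669) (Pf.C 2 517)))
 (Pq.cons (Pq.L [0,1,3] 0 (Pf.B 5 4 (Pf.C 1 0x40614080) (Pf.C 6 49669)))
 (Pq.cons (Pq.L [0,1,2] 0 (Pf.B 5 4 (Pf.C 1 0x40414080) (Pf.C 6 33285)))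
 (Pq.cons (Pq.L [0,1,2] 0 (Pf.B 5 4 (Pf.C 1 0x40214100) (Pf.C 6 16901)))
 (Pq.cons (Pq.L [0,1,2] 0 (Pf.B 5 4 (Pf.C 1 0x40014101) (Pf.C 6 517)))
 Pq.nil)))))))))))))
theorem h3_o6 : AllRef h3_T h3_G8 (hitObl [4,5,6,7,8,9,10,11,12,16,17,18,20] h3_h9) :=
  chkPq_sound h3_o6c _ (by decide +kernel)
noncomputable def h3_o7c : Pq := (Pq.cons (Pq.L [] 0 (Pf.C 9 4))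
 (Pq.cons (Pq.L [] 0 (Pf.C 10 4))
 (Pq.cons (Pq.L [] 0 (Pf.C 11 4))
 (Pq.cons (Pq.L [] 0 (Pf.C 12 4))
 (Pq.cons (Pq.L [] 0 (Pf.C 13 4))
 (Pq.cons (Pq.L [] 0 (Pf.C 14 4))
 (Pq.cons (Pq.L [] 0 (Pf.C 15 4))
 (Pq.cons (Pq.L [] 0 (Pf.C 16 4))
 (Pq.cons (Pq.L [] 0 (Pf.C 17 4))
 (Pq.cons (Pq.L [] 0 (Pf.C 18 4))
 (Pq.cons (Pq.L [] 0 (Pf.C 19 4))
 (Pq.cons (Pq.L [] 0 (Pf.C 20 4))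
 (Pq.cons (Pq.L [] 0 (Pf.C 21 4))
 Pq.nil)))))))))))))
theorem h3_o7 : AllRef h3_T h3_G9 (List.map pat1 [25,26,27,28,29,30,31,32,33,34,35,36,37]) :=
  chkPq_sound h3_o7c _ (by decide +kernel)
noncomputable def h3_o8c : Pq := (Pq.cons (Pq.L [0,1,2] 0 (Pf.B 7 6 (Pf.B 7 5 (Pf.B 7 4 (Pf.B 6 5 (Pf.B 6 4 (Pf.B 5 4 (Pf.C 1 0x60210385) (Pf.C 6 33285)) (Pf.C 6 16902)) (Pf.C 6 33414)) (Pf.C 6 33287)) (Pf.C 6 647)) (Pf.C 6 33543)))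
 (Pq.cons (Pq.L [0,1,2] 0 (Pf.B 7 6 (Pf.B 7 5 (Pf.B 7 4 (Pf.B 6 5 (Pf.B 6 4 (Pf.B 5 4 (Pf.C 1 0x60410385) (Pf.C 6 16901)) (Pf.C 6 16902)) (Pf.C 6 17030)) (Pf.C 6 16903)) (Pf.C 6 647)) (Pf.C 6 17159)))
 (Pq.cons (Pq.L [0,1,3] 0 (Pf.B 7 6 (Pf.B 7 5 (Pf.B 7 4 (Pf.B 6 5 (Pf.B 6 4 (Pf.B 5 4 (Pf.C 1 0x60610385) (Pf.C 6 16901)) (Pf.C 6 16902)) (Pf.C 6 17030)) (Pf.C 6 16903)) (Pf.C 6 647)) (Pf.C 6 17159)))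
 (Pq.cons (Pq.L [0,1] 0 (Pf.B 7 6 (Pf.B 7 5 (Pf.B 7 4 (Pf.B 6 5 (Pf.B 6 4 (Pf.B 5 4 (Pf.C 1 0x70014304) (Pf.C 6 16901)) (Pf.C 6 16902)) (Pf.C 6 17030)) (Pf.C 6 16903)) (Pf.C 6 647)) (Pf.C 6 17159)))
 (Pq.cons (Pq.L [0,2] 0 (Pf.B 7 6 (Pf.B 7 5 (Pf.B 7 4 (Pf.B 6 5 (Pf.B 6 4 (Pf.B 5 4 (Pf.C 1 0x60410385) (Pf.C 6 517)) (Pf.C 6 518)) (Pf.C 6 646)) (Pf.C 6 519)) (Pf.C 6 647)) (Pf.C 6 775)))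
 (Pq.cons (Pq.L [0,3] 0 (Pf.B 7 6 (Pf.B 7 5 (Pf.B 7 4 (Pf.B 6 5 (Pf.B 6 4 (Pf.B 5 4 (Pf.C 1 0x60610385) (Pf.C 6 517)) (Pf.C 6 518)) (Pf.C 6 646)) (Pf.C 6 519)) (Pf.C 6 647)) (Pf.C 6 775)))
 (Pq.cons (Pq.L [0,1] 0 (Pf.B 7 6 (Pf.B 7 5 (Pf.B 7 4 (Pf.B 6 5 (Pf.B 6 4 (Pf.B 5 4 (Pf.C 1 0x70214304) (Pf.C 6 517)) (Pf.C 6 518)) (Pf.C 6 646)) (Pf.C 6 519)) (Pf.C 6 647)) (Pf.C 6 775)))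
 (Pq.cons (Pq.L [0,3] 0 (Pf.B 7 6 (Pf.B 7 5 (Pf.B 7 4 (Pf.B 6 5 (Pf.B 6 4 (Pf.B 5 4 (Pf.C 1 0x60610385) (Pf.C 6 517)) (Pf.C 6 518)) (Pf.C 6 646)) (Pf.C 6 519)) (Pf.C 6 647)) (Pf.C 6 775)))
 (Pq.cons (Pq.L [0,2] 0 (Pf.B 7 6 (Pf.B 7 5 (Pf.B 7 4 (Pf.B 6 5 (Pf.B 6 4 (Pf.B 5 4 (Pf.C 1 0x70414304) (Pf.C 6 517)) (Pf.C 6 518)) (Pf.C 6 646)) (Pf.C 6 519)) (Pf.C 6 647)) (Pf.C 6 775)))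
 (Pq.cons (Pq.L [0,3] 0 (Pf.B 7 6 (Pf.B 7 5 (Pf.B 7 4 (Pf.B 6 5 (Pf.B 6 4 (Pf.B 5 4 (Pf.C 1 0x70614304) (Pf.C 6 517)) (Pf.C 6 518)) (Pf.C 6 646)) (Pf.C 6 519)) (Pf.C 6 647)) (Pf.C 6 775)))
 Pq.nil))))))))))
theorem h3_o8 : AllRef h3_T h3_G10 (hitObl [19,21,22,23,24] h3_h11) :=
  chkPq_sound h3_o8c _ (by decide +kernel)
noncomputable def h3_o9c : Pq := (Pq.cons (Pq.L [0,1] 61 (Pf.B 9 6 (Pf.B 8 6 (Pf.B 8 5 (Pf.B 7 6 (Pf.B 7 5 (Pf.B 7 4 (Pf.C 3 82439) (Pf.C 2 519)) (Pf.C 1 0xe14406)) (Pf.C 1 0xe18488)) (Pf.C 6 17032)) (Pf.C 6 17160)) (Pf.C 6 17161)))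
 (Pq.cons (Pq.L [0,1] 61 (Pf.B 9 6 (Pf.B 8 6 (Pf.B 8 5 (Pf.B 7 6 (Pf.B 7 5 (Pf.B 7 4 (Pf.C 3 82439) (Pf.C 2 519)) (Pf.C 1 0x10e14406)) (Pf.C 1 0x10e18488)) (Pf.C 6 648)) (Pf.C 6 776)) (Pf.C 6 777)))
 (Pq.cons (Pq.L [0,2] 61 (Pf.B 9 6 (Pf.B 8 6 (Pf.B 8 5 (Pf.B 7 6 (Pf.B 7 5 (Pf.B 7 4 (Pf.C 3 82439) (Pf.C 2 519)) (Pf.C 1 0x20e14406)) (Pf.C 1 0x20e18488)) (Pf.C 6 648)) (Pf.C 6 776)) (Pf.C 6 777)))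
 (Pq.cons (Pq.L [0,3] 61 (Pf.B 9 6 (Pf.B 8 6 (Pf.B 8 5 (Pf.B 7 6 (Pf.B 7 5 (Pf.B 7 4 (Pf.C 3 82439) (Pf.C 2 519)) (Pf.C 1 0x30e14406)) (Pf.C 1 0x30e18488)) (Pf.C 6 648)) (Pf.C 6 776)) (Pf.C 6 777)))
 (Pq.cons (Pq.L [0] 63 (Pf.B 9 6 (Pf.B 9 5 (Pf.B 8 6 (Pf.B 8 5 (Pf.B 7 4 (Pf.B 9 4 (Pf.C 3 0x24384) (Pf.B 8 4 (Pf.C 3 0x20384) (Pf.C 1 0x90820305))) (Pf.C 2 519)) (Pf.C 6 648)) (Pf.C 6 776)) (Pf.C 6 649)) (Pf.C 6 777)))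
 (Pq.cons (Pq.L [0,1] 33 (Pf.B 9 5 (Pf.B 8 5 (Pf.C 1 0x11200288) (Pf.B 8 4 (Pf.C 1 0x40a20080) (Pf.C 6 82440))) (Pf.B 9 4 (Pf.B 8 4 (Pf.C 1 0x11200208) (Pf.B 8 5 (Pf.C 1 0x50820080) (Pf.C 6 66184))) (Pf.C 6 82441))))
 (Pq.cons (Pq.L [0,1] 39 (Pf.B 9 5 (Pf.B 8 5 (Pf.C 1 0x11200288) (Pf.B 8 4 (Pf.C 1 0x40a20080) (Pf.C 6 82440))) (Pf.B 9 4 (Pf.B 8 4 (Pf.C 1 0x11200208) (Pf.B 8 6 (Pf.B 8 5 (Pf.C 1 0x10c00288) (Pf.C 6 66184)) (Pf.C 6 66312))) (Pf.C 6 82441))))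
 (Pq.cons (Pq.L [0,1] 511 (Pf.B 12 9 (Pf.B 12 8 (Pf.B 12 6 (Pf.B 12 5 (Pf.B 11 9 (Pf.B 11 8 (Pf.B 11 6 (Pf.B 11 5 (Pf.B 9 6 (Pf.B 9 5 (Pf.B 8 6 (Pf.B 8 5 (Pf.B 12 7 (Pf.B 10 7 (Pf.C 1 0x1180038a) (Pf.B 12 4 (Pf.B 10 4 (Pf.C 1 0x1180020a) (Pf.B 7 4 (Pf.C 1 0x11800207) (Pf.C 6 0x28207))) (Pf.B 11 4 (Pf.B 10 4 (Pf.C 1 0x1160020a) (Pf.B 10 6 (Pf.C 1 0xc0828586) (Pf.B 10 9 (Pf.B 10 8 (Pf.B 10 5 (Pf.C 1 0xc0828585) (Pf.C 1 0x61414488)) (Pf.C 1 0x61420589)) (Pf.C 1 0x6142460b)))) (Pf.C 1 0xc082c305)))) (Pf.B 11 7 (Pf.B 10 7 (Pf.C 1 0x1160038a) (Pf.B 10 9 (Pf.C 1 0xc0e28589) (Pf.B 10 8 (Pf.C 1 0xc0e28588) (Pf.C 1 0x9142060b)))) (Pf.C 1 0xc0e2c488))) (Pf.C 6 648)) (Pf.C 6 776)) (Pf.C 6 649)) (Pf.C 6 777)) (Pf.C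 6 651)) (Pf.C 6 779)) (Pf.C 6 1035)) (Pf.C 6 1163)) (Pf.C 6 652)) (Pf.C 6 780)) (Pf.C 6 1036)) (Pf.C 6 1164)))
 Pq.nil))))))))
theorem h3_o9 : AllRef h3_T h3_G11 (hitObl [13,15,38,39,40,41,42] h3_h12) :=
  chkPq_sound h3_o9c _ (by decide +kernel)
noncomputable def h3_o10c : Pq := (Pq.cons (Pq.D 0 (Pq.cons (Pq.D 1 (Pq.cons (Pq.L [] 1 (Pf.C 2 644))
 (Pq.cons (Pq.D 2 (Pq.cons (Pq.L [] 2 (Pf.C 2 772))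
 (Pq.cons (Pq.D 3 (Pq.cons (Pq.L [] 4 (Pf.C 2 900))
 (Pq.cons (Pq.L [0,1] 7 (Pf.B 7 6 (Pf.C 1 0x10800307) (Pf.B 7 5 (Pf.C 1 0x10800287) (Pf.B 6 5 (Pf.C 1 0x10800286) (Pf.C 6 0x1c286)))))
 (Pq.cons (Pq.L [0,1,2] 3 (Pf.B 7 6 (Pf.C 1 0x20e04006) (Pf.B 7 5 (Pf.C 1 0x20e04005) (Pf.B 6 5 (Pf.C 1 0x10800286) (Pf.C 6 0x1c286)))))
 (Pq.cons (Pq.L [0,1,2] 3 (Pf.B 7 6 (Pf.C 1 0x20e00086) (Pf.B 7 5 (Pf.C 1 0x20e00085) (Pf.B 6 5 (Pf.C 1 0x10800286) (Pf.C 6 0x1c286)))))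
 (Pq.cons (Pq.L [0,1,2] 3 (Pf.B 7 6 (Pf.C 1 0x10e00106) (Pf.B 7 5 (Pf.C 1 0x10e00105) (Pf.B 6 5 (Pf.C 1 0x10800286) (Pf.C 6 0x1c286)))))
 (Pq.cons (Pq.L [0,1,3] 3 (Pf.B 7 6 (Pf.C 1 0x10e00186) (Pf.B 7 5 (Pf.C 1 0x10e00185) (Pf.B 6 5 (Pf.C 1 0x10800286) (Pf.C 6 0x1c286)))))
 (Pq.cons (Pq.L [0,1] 3 (Pf.B 6 5 (Pf.C 1 0x10800286) (Pf.B 7 6 (Pf.B 7 5 (Pf.C 37 0x1c305) (Pf.C 38 0x1c305)) (Pf.B 7 5 (Pf.C 38 0x1c286) (Pf.C 6 98951)))))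
 Pq.nil)))))))) (Pq.cons (Pq.D 3 (Pq.cons (Pq.L [] 4 (Pf.C 2 900))
 (Pq.cons (Pq.L [0,1,2] 5 (Pf.B 7 6 (Pf.C 1 0x20c04007) (Pf.B 7 5 (Pf.C 1 0x10800287) (Pf.B 6 5 (Pf.C 1 0x20c04005) (Pf.C 6 0x1c286)))))
 (Pq.cons (Pq.L [1] 6 (Pf.B 7 6 (Pf.C 32 99204) (Pf.C 6 17159)))
 (Pq.cons (Pq.L [] 0 (Pf.C 22 902))
 (Pq.cons (Pq.L [] 0 (Pf.C 23 902))
 (Pq.cons (Pq.L [] 0 (Pf.C 24 902))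
 (Pq.cons (Pq.L [] 0 (Pf.C 25 902))
 Pq.nil)))))))) (Pq.cons (Pq.D 3 (Pq.cons (Pq.L [] 4 (Pf.C 2 900))
 (Pq.cons (Pq.L [0,1,2] 5 (Pf.B 7 6 (Pf.C 1 0x20c00087) (Pf.B 7 5 (Pf.C 1 0x10800287) (Pf.B 6 5 (Pf.C 1 0x20c00085) (Pf.C 6 0x1c286)))))
 (Pq.cons (Pq.L [] 0 (Pf.C 22 775))
 (Pq.cons (Pq.L [0] 6 (Pf.B 7 6 (Pf.C 33 99204) (Pf.C 6 775)))
 (Pq.cons (Pq.L [] 0 (Pf.C 26 902))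
 (Pq.cons (Pq.L [] 0 (Pf.C 27 902))
 (Pq.cons (Pq.L [] 0 (Pf.C 28 902))
 Pq.nil)))))))) (Pq.cons (Pq.D 3 (Pq.cons (Pq.L [] 4 (Pf.C 2 900))
 (Pq.cons (Pq.L [0,1,2] 5 (Pf.B 7 6 (Pf.C 1 0x10c00107) (Pf.B 7 5 (Pf.C 1 0x10800287) (Pf.B 6 5 (Pf.C 1 0x10c00105) (Pf.C 6 0x1c286)))))
 (Pq.cons (Pq.L [] 0 (Pf.C 23 775))
 (Pq.cons (Pq.L [] 0 (Pf.C 26 775))
 (Pq.cons (Pq.L [0] 6 (Pf.B 7 6 (Pf.C 34 99204) (Pf.C 6 775)))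
 (Pq.cons (Pq.L [] 0 (Pf.C 29 902))
 (Pq.cons (Pq.L [] 0 (Pf.C 30 902))
 Pq.nil)))))))) (Pq.cons (Pq.D 3 (Pq.cons (Pq.L [] 4 (Pf.C 2 900))
 (Pq.cons (Pq.L [0,1,3] 5 (Pf.B 7 6 (Pf.C 1 0x10c00187) (Pf.B 7 5 (Pf.C 1 0x10800287) (Pf.B 6 5 (Pf.C 1 0x10c00185) (Pf.C 6 0x1c286)))))
 (Pq.cons (Pq.L [] 0 (Pf.C 24 775))
 (Pq.cons (Pq.L [] 0 (Pf.C 27 775))
 (Pq.cons (Pq.L [] 0 (Pf.C 29 775))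
 (Pq.cons (Pq.L [0] 6 (Pf.B 7 6 (Pf.C 35 99204) (Pf.C 6 775)))
 (Pq.cons (Pq.L [] 0 (Pf.C 31 902))
 Pq.nil)))))))) (Pq.cons (Pq.D 3 (Pq.cons (Pq.L [] 4 (Pf.C 2 900))
 (Pq.cons (Pq.L [0,1] 5 (Pf.B 7 5 (Pf.C 1 0x10800287) (Pf.B 7 6 (Pf.B 6 5 (Pf.C 37 99205) (Pf.C 38 99205)) (Pf.B 6 5 (Pf.C 38 98951) (Pf.C 6 0x1c286)))))
 (Pq.cons (Pq.L [] 0 (Pf.C 25 775))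
 (Pq.cons (Pq.L [] 0 (Pf.C 28 775))
 (Pq.cons (Pq.L [] 0 (Pf.C 30 775))
 (Pq.cons (Pq.L [] 0 (Pf.C 31 775))
 (Pq.cons (Pq.L [0] 6 (Pf.B 7 6 (Pf.C 36 99204) (Pf.C 6 775)))
 Pq.nil)))))))) Pq.nil)))))))) (Pq.cons (Pq.D 2 (Pq.cons (Pq.L [] 2 (Pf.C 2 772))
 (Pq.cons (Pq.D 3 (Pq.cons (Pq.L [] 4 (Pf.C 2 900))
 (Pq.cons (Pq.L [0,1,2] 6 (Pf.B 7 6 (Pf.C 1 0x10800307) (Pf.B 7 5 (Pf.C 1 0x20a04007) (Pf.B 6 5 (Pf.C 1 0x20a04006) (Pf.C 6 0x1c286)))))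
 (Pq.cons (Pq.L [1] 5 (Pf.B 7 5 (Pf.C 32 82820) (Pf.C 6 17031)))
 (Pq.cons (Pq.L [] 0 (Pf.C 22 901))
 (Pq.cons (Pq.L [] 0 (Pf.C 23 901))
 (Pq.cons (Pq.L [] 0 (Pf.C 24 901))
 (Pq.cons (Pq.L [] 0 (Pf.C 25 901))
 Pq.nil)))))))) (Pq.cons (Pq.L [1] 3 (Pf.B 6 5 (Pf.C 32 82692) (Pf.C 6 17030)))
 (Pq.cons (Pq.L [] 0 (Pf.C 22 773))
 (Pq.cons (Pq.L [] 0 (Pf.C 23 773))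
 (Pq.cons (Pq.L [] 0 (Pf.C 24 773))
 (Pq.cons (Pq.L [] 0 (Pf.C 25 773))
 Pq.nil)))))))) (Pq.cons (Pq.D 2 (Pq.cons (Pq.L [] 2 (Pf.C 2 772))
 (Pq.cons (Pq.D 3 (Pq.cons (Pq.L [] 4 (Pf.C 2 900))
 (Pq.cons (Pq.L [0,1,2] 6 (Pf.B 7 6 (Pf.C 1 0x10800307) (Pf.B 7 5 (Pf.C 1 0x20a00087) (Pf.B 6 5 (Pf.C 1 0x20a00086) (Pf.C 6 0x1c286)))))
 (Pq.cons (Pq.L [] 0 (Pf.C 22 647))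
 (Pq.cons (Pq.L [0] 5 (Pf.B 7 5 (Pf.C 33 82820) (Pf.C 6 647)))
 (Pq.cons (Pq.L [] 0 (Pf.C 26 901))
 (Pq.cons (Pq.L [] 0 (Pf.C 27 901))
 (Pq.cons (Pq.L [] 0 (Pf.C 28 901))
 Pq.nil)))))))) (Pq.cons (Pq.L [] 0 (Pf.C 22 646))
 (Pq.cons (Pq.L [0] 3 (Pf.B 6 5 (Pf.C 33 82692) (Pf.C 6 646)))
 (Pq.cons (Pq.L [] 0 (Pf.C 26 773))
 (Pq.cons (Pq.L [] 0 (Pf.C 27 773))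
 (Pq.cons (Pq.L [] 0 (Pf.C 28 773))
 Pq.nil)))))))) (Pq.cons (Pq.D 2 (Pq.cons (Pq.L [] 2 (Pf.C 2 772))
 (Pq.cons (Pq.D 3 (Pq.cons (Pq.L [] 4 (Pf.C 2 900))
 (Pq.cons (Pq.L [0,1,2] 6 (Pf.B 7 6 (Pf.C 1 0x10800307) (Pf.B 7 5 (Pf.C 1 0x10a00107) (Pf.B 6 5 (Pf.C 1 0x10a00106) (Pf.C 6 0x1c286)))))
 (Pq.cons (Pq.L [] 0 (Pf.C 23 647))
 (Pq.cons (Pq.L [] 0 (Pf.C 26 647))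
 (Pq.cons (Pq.L [0] 5 (Pf.B 7 5 (Pf.C 34 82820) (Pf.C 6 647)))
 (Pq.cons (Pq.L [] 0 (Pf.C 29 901))
 (Pq.cons (Pq.L [] 0 (Pf.C 30 901))
 Pq.nil)))))))) (Pq.cons (Pq.L [] 0 (Pf.C 23 646))
 (Pq.cons (Pq.L [] 0 (Pf.C 26 646))
 (Pq.cons (Pq.L [0] 3 (Pf.B 6 5 (Pf.C 34 82692) (Pf.C 6 646)))
 (Pq.cons (Pq.L [] 0 (Pf.C 29 773))
 (Pq.cons (Pq.L [] 0 (Pf.C 30 773))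
 Pq.nil)))))))) (Pq.cons (Pq.D 2 (Pq.cons (Pq.L [] 2 (Pf.C 2 772))
 (Pq.cons (Pq.D 3 (Pq.cons (Pq.L [] 4 (Pf.C 2 900))
 (Pq.cons (Pq.L [0,1,3] 6 (Pf.B 7 6 (Pf.C 1 0x10800307) (Pf.B 7 5 (Pf.C 1 0x10a00187) (Pf.B 6 5 (Pf.C 1 0x10a00186) (Pf.C 6 0x1c286)))))
 (Pq.cons (Pq.L [] 0 (Pf.C 24 647))
 (Pq.cons (Pq.L [] 0 (Pf.C 27 647))
 (Pq.cons (Pq.L [] 0 (Pf.C 29 647))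
 (Pq.cons (Pq.L [0] 5 (Pf.B 7 5 (Pf.C 35 82820) (Pf.C 6 647)))
 (Pq.cons (Pq.L [] 0 (Pf.C 31 901))
 Pq.nil)))))))) (Pq.cons (Pq.L [] 0 (Pf.C 24 646))
 (Pq.cons (Pq.L [] 0 (Pf.C 27 646))
 (Pq.cons (Pq.L [] 0 (Pf.C 29 646))
 (Pq.cons (Pq.L [0] 3 (Pf.B 6 5 (Pf.C 35 82692) (Pf.C 6 646)))
 (Pq.cons (Pq.L [] 0 (Pf.C 31 773))
 Pq.nil)))))))) (Pq.cons (Pq.D 2 (Pq.cons (Pq.L [] 2 (Pf.C 2 772))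
 (Pq.cons (Pq.D 3 (Pq.cons (Pq.L [] 4 (Pf.C 2 900))
 (Pq.cons (Pq.L [0,1] 6 (Pf.B 7 6 (Pf.C 1 0x10800307) (Pf.B 7 5 (Pf.B 6 5 (Pf.C 37 82822) (Pf.C 38 82822)) (Pf.B 6 5 (Pf.C 38 82695) (Pf.C 6 0x1c286)))))
 (Pq.cons (Pq.L [] 0 (Pf.C 25 647))
 (Pq.cons (Pq.L [] 0 (Pf.C 28 647))
 (Pq.cons (Pq.L [] 0 (Pf.C 30 647))
 (Pq.cons (Pq.L [] 0 (Pf.C 31 647))
 (Pq.cons (Pq.L [0] 5 (Pf.B 7 5 (Pf.C 36 82820) (Pf.C 6 647)))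
 Pq.nil)))))))) (Pq.cons (Pq.L [] 0 (Pf.C 25 646))
 (Pq.cons (Pq.L [] 0 (Pf.C 28 646))
 (Pq.cons (Pq.L [] 0 (Pf.C 30 646))
 (Pq.cons (Pq.L [] 0 (Pf.C 31 646))
 (Pq.cons (Pq.L [0] 3 (Pf.B 6 5 (Pf.C 36 82692) (Pf.C 6 646)))
 Pq.nil)))))))) Pq.nil)))))))) (Pq.cons (Pq.D 1 (Pq.cons (Pq.D 2 (Pq.cons (Pq.L [] 3 (Pf.B 6 5 (Pf.C 3 66182) (Pf.C 2 646)))
 (Pq.cons (Pq.D 3 (Pq.cons (Pq.L [] 5 (Pf.B 7 5 (Pf.C 3 66183) (Pf.C 2 647)))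
 (Pq.cons (Pq.L [0,1] 6 (Pf.B 7 6 (Pf.C 1 0x6081c080) (Pf.C 6 66311)))
 (Pq.cons (Pq.L [0,1,2] 4 (Pf.C 1 0x20e04004))
 (Pq.cons (Pq.L [0,1,2] 4 (Pf.C 1 0x20e00084))
 (Pq.cons (Pq.L [0,1,2] 4 (Pf.C 1 0x10e00104))
 (Pq.cons (Pq.L [0,1,3] 4 (Pf.C 1 0x10e00184))
 (Pq.cons (Pq.L [] 6 (Pf.B 7 6 (Pf.C 37 0x1c206) (Pf.C 38 0x1c206)))
 Pq.nil)))))))) (Pq.cons (Pq.L [0,1,2] 2 (Pf.C 1 0x20c04004))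
 (Pq.cons (Pq.L [0,1,2] 2 (Pf.C 1 0x20c00084))
 (Pq.cons (Pq.L [0,1,2] 2 (Pf.C 1 0x10c00104))
 (Pq.cons (Pq.L [0,1,3] 2 (Pf.C 1 0x10c00184))
 (Pq.cons (Pq.D 3 (Pq.cons (Pq.L [] 5 (Pf.B 7 5 (Pf.C 3 66183) (Pf.C 2 647)))
 (Pq.cons (Pq.L [] 6 (Pf.B 7 6 (Pf.C 37 98823) (Pf.C 38 98823)))
 (Pq.cons (Pq.L [0,1,2] 4 (Pf.C 1 0x20e04004))
 (Pq.cons (Pq.L [0,1,2] 4 (Pf.C 1 0x20e00084))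
 (Pq.cons (Pq.L [0,1,2] 4 (Pf.C 1 0x10e00104))
 (Pq.cons (Pq.L [0,1,3] 4 (Pf.C 1 0x10e00184))
 (Pq.cons (Pq.L [0] 6 (Pf.B 7 6 (Pf.C 39 99204) (Pf.C 6 775)))
 Pq.nil)))))))) Pq.nil)))))))) (Pq.cons (Pq.D 2 (Pq.cons (Pq.D 3 (Pq.cons (Pq.L [] 6 (Pf.B 7 6 (Pf.C 3 66311) (Pf.C 2 775)))
 (Pq.cons (Pq.L [0,1] 5 (Pf.B 7 5 (Pf.C 1 0x5081c080) (Pf.C 6 66183)))
 (Pq.cons (Pq.L [0,1,2] 4 (Pf.C 1 0x20e04004))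
 (Pq.cons (Pq.L [0,1,2] 4 (Pf.C 1 0x20e00084))
 (Pq.cons (Pq.L [0,1,2] 4 (Pf.C 1 0x10e00104))
 (Pq.cons (Pq.L [0,1,3] 4 (Pf.C 1 0x10e00184))
 (Pq.cons (Pq.L [] 5 (Pf.B 7 5 (Pf.C 37 0x1c205) (Pf.C 38 0x1c205)))
 Pq.nil)))))))) (Pq.cons (Pq.L [0,1] 3 (Pf.B 6 5 (Pf.C 1 0x50818080) (Pf.C 6 66182)))
 (Pq.cons (Pq.L [0,1,2] 2 (Pf.C 1 0x20c04004))
 (Pq.cons (Pq.L [0,1,2] 2 (Pf.C 1 0x20c00084))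
 (Pq.cons (Pq.L [0,1,2] 2 (Pf.C 1 0x10c00104))
 (Pq.cons (Pq.L [0,1,3] 2 (Pf.C 1 0x10c00184))
 (Pq.cons (Pq.L [] 3 (Pf.B 6 5 (Pf.C 37 98821) (Pf.C 38 98821)))
 Pq.nil)))))))) (Pq.cons (Pq.L [0,1,2] 1 (Pf.C 1 0x20a04004))
 (Pq.cons (Pq.L [0,1,2] 1 (Pf.C 1 0x20a00084))
 (Pq.cons (Pq.L [0,1,2] 1 (Pf.C 1 0x10a00104))
 (Pq.cons (Pq.L [0,1,3] 1 (Pf.C 1 0x10a00184))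
 (Pq.cons (Pq.D 2 (Pq.cons (Pq.D 3 (Pq.cons (Pq.L [] 6 (Pf.B 7 6 (Pf.C 3 66311) (Pf.C 2 775)))
 (Pq.cons (Pq.L [] 5 (Pf.B 7 5 (Pf.C 37 82439) (Pf.C 38 82439)))
 (Pq.cons (Pq.L [0,1,2] 4 (Pf.C 1 0x20e04004))
 (Pq.cons (Pq.L [0,1,2] 4 (Pf.C 1 0x20e00084))
 (Pq.cons (Pq.L [0,1,2] 4 (Pf.C 1 0x10e00104))
 (Pq.cons (Pq.L [0,1,3] 4 (Pf.C 1 0x10e00184))
 (Pq.cons (Pq.L [0] 5 (Pf.B 7 5 (Pf.C 39 82820) (Pf.C 6 647)))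
 Pq.nil)))))))) (Pq.cons (Pq.L [] 3 (Pf.B 6 5 (Pf.C 37 82438) (Pf.C 38 82438)))
 (Pq.cons (Pq.L [0,1,2] 2 (Pf.C 1 0x20c04004))
 (Pq.cons (Pq.L [0,1,2] 2 (Pf.C 1 0x20c00084))
 (Pq.cons (Pq.L [0,1,2] 2 (Pf.C 1 0x10c00104))
 (Pq.cons (Pq.L [0,1,3] 2 (Pf.C 1 0x10c00184))
 (Pq.cons (Pq.L [0] 3 (Pf.B 6 5 (Pf.C 39 82692) (Pf.C 6 646)))
 Pq.nil)))))))) Pq.nil)))))))) (Pq.cons (Pq.D 1 (Pq.cons (Pq.D 2 (Pq.cons (Pq.L [] 3 (Pf.B 6 5 (Pf.C 3 66182) (Pf.C 2 646)))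
 (Pq.cons (Pq.L [0,1,2] 2 (Pf.C 1 0x20804300))
 (Pq.cons (Pq.L [1] 2 (Pf.C 6 98436))
 (Pq.cons (Pq.L [] 0 (Pf.C 22 772))
 (Pq.cons (Pq.L [] 0 (Pf.C 23 772))
 (Pq.cons (Pq.L [] 0 (Pf.C 24 772))
 (Pq.cons (Pq.L [] 0 (Pf.C 25 772))
 Pq.nil)))))))) (Pq.cons (Pq.L [0,1,2] 1 (Pf.C 1 0x20804280))
 (Pq.cons (Pq.L [1] 1 (Pf.C 6 82052))
 (Pq.cons (Pq.L [] 0 (Pf.C 22 644))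
 (Pq.cons (Pq.L [] 0 (Pf.C 23 644))
 (Pq.cons (Pq.L [] 0 (Pf.C 24 644))
 (Pq.cons (Pq.L [] 0 (Pf.C 25 644))
 Pq.nil)))))))) (Pq.cons (Pq.D 1 (Pq.cons (Pq.D 2 (Pq.cons (Pq.L [] 3 (Pf.B 6 5 (Pf.C 3 66182) (Pf.C 2 646)))
 (Pq.cons (Pq.L [0,1,2] 2 (Pf.C 1 0x20800301))
 (Pq.cons (Pq.L [] 0 (Pf.C 22 518))
 (Pq.cons (Pq.L [0] 2 (Pf.C 6 98308))
 (Pq.cons (Pq.L [] 0 (Pf.C 26 772))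
 (Pq.cons (Pq.L [] 0 (Pf.C 27 772))
 (Pq.cons (Pq.L [] 0 (Pf.C 28 772))
 Pq.nil)))))))) (Pq.cons (Pq.L [0,1,2] 1 (Pf.C 1 0x20800281))
 (Pq.cons (Pq.L [] 0 (Pf.C 22 517))
 (Pq.cons (Pq.L [0] 1 (Pf.C 6 81924))
 (Pq.cons (Pq.L [] 0 (Pf.C 26 644))
 (Pq.cons (Pq.L [] 0 (Pf.C 27 644))
 (Pq.cons (Pq.L [] 0 (Pf.C 28 644))
 Pq.nil)))))))) (Pq.cons (Pq.D 1 (Pq.cons (Pq.D 2 (Pq.cons (Pq.L [] 3 (Pf.B 6 5 (Pf.C 3 66182) (Pf.C 2 646)))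
 (Pq.cons (Pq.L [0,1,2] 2 (Pf.C 1 0x10800302))
 (Pq.cons (Pq.L [] 0 (Pf.C 23 518))
 (Pq.cons (Pq.L [] 0 (Pf.C 26 518))
 (Pq.cons (Pq.L [0] 2 (Pf.C 6 98308))
 (Pq.cons (Pq.L [] 0 (Pf.C 29 772))
 (Pq.cons (Pq.L [] 0 (Pf.C 30 772))
 Pq.nil)))))))) (Pq.cons (Pq.L [0,1,2] 1 (Pf.C 1 0x10800282))
 (Pq.cons (Pq.L [] 0 (Pf.C 23 517))
 (Pq.cons (Pq.L [] 0 (Pf.C 26 517))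
 (Pq.cons (Pq.L [0] 1 (Pf.C 6 81924))
 (Pq.cons (Pq.L [] 0 (Pf.C 29 644))
 (Pq.cons (Pq.L [] 0 (Pf.C 30 644))
 Pq.nil)))))))) (Pq.cons (Pq.D 1 (Pq.cons (Pq.D 2 (Pq.cons (Pq.L [] 3 (Pf.B 6 5 (Pf.C 3 66182) (Pf.C 2 646)))
 (Pq.cons (Pq.L [0,1,3] 2 (Pf.C 1 0x10800303))
 (Pq.cons (Pq.L [] 0 (Pf.C 24 518))
 (Pq.cons (Pq.L [] 0 (Pf.C 27 518))
 (Pq.cons (Pq.L [] 0 (Pf.C 29 518))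
 (Pq.cons (Pq.L [0] 2 (Pf.C 6 98308))
 (Pq.cons (Pq.L [] 0 (Pf.C 31 772))
 Pq.nil)))))))) (Pq.cons (Pq.L [0,1,3] 1 (Pf.C 1 0x10800283))
 (Pq.cons (Pq.L [] 0 (Pf.C 24 517))
 (Pq.cons (Pq.L [] 0 (Pf.C 27 517))
 (Pq.cons (Pq.L [] 0 (Pf.C 29 517))
 (Pq.cons (Pq.L [0] 1 (Pf.C 6 81924))
 (Pq.cons (Pq.L [] 0 (Pf.C 31 644))
 Pq.nil)))))))) (Pq.cons (Pq.D 1 (Pq.cons (Pq.D 2 (Pq.cons (Pq.L [] 3 (Pf.B 6 5 (Pf.C 3 66182) (Pf.C 2 646)))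
 (Pq.cons (Pq.D 3 (Pq.cons (Pq.L [] 5 (Pf.B 7 5 (Pf.C 3 66183) (Pf.C 2 647)))
 (Pq.cons (Pq.L [0,1] 6 (Pf.B 7 6 (Pf.C 1 0x10800307) (Pf.C 37 66311)))
 (Pq.cons (Pq.L [] 0 (Pf.C 25 519))
 (Pq.cons (Pq.L [] 0 (Pf.C 28 519))
 (Pq.cons (Pq.L [] 0 (Pf.C 30 519))
 (Pq.cons (Pq.L [] 0 (Pf.C 31 519))
 (Pq.cons (Pq.L [0] 4 (Pf.C 6 0x1c004))
 Pq.nil)))))))) (Pq.cons (Pq.L [] 0 (Pf.C 25 518))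
 (Pq.cons (Pq.L [] 0 (Pf.C 28 518))
 (Pq.cons (Pq.L [] 0 (Pf.C 30 518))
 (Pq.cons (Pq.L [] 0 (Pf.C 31 518))
 (Pq.cons (Pq.L [0] 2 (Pf.C 6 98308))
 Pq.nil)))))))) (Pq.cons (Pq.D 2 (Pq.cons (Pq.D 3 (Pq.cons (Pq.L [] 6 (Pf.B 7 6 (Pf.C 3 66311) (Pf.C 2 775)))
 (Pq.cons (Pq.L [0,1] 5 (Pf.B 7 5 (Pf.C 1 0x10800287) (Pf.C 37 66183)))
 (Pq.cons (Pq.L [] 0 (Pf.C 25 519))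
 (Pq.cons (Pq.L [] 0 (Pf.C 28 519))
 (Pq.cons (Pq.L [] 0 (Pf.C 30 519))
 (Pq.cons (Pq.L [] 0 (Pf.C 31 519))
 (Pq.cons (Pq.L [0] 4 (Pf.C 6 0x1c004))
 Pq.nil)))))))) (Pq.cons (Pq.L [0,1] 3 (Pf.B 6 5 (Pf.C 1 0x10800286) (Pf.C 37 66182)))
 (Pq.cons (Pq.L [] 0 (Pf.C 25 518))
 (Pq.cons (Pq.L [] 0 (Pf.C 28 518))
 (Pq.cons (Pq.L [] 0 (Pf.C 30 518))
 (Pq.cons (Pq.L [] 0 (Pf.C 31 518))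
 (Pq.cons (Pq.L [0] 2 (Pf.C 6 98308))
 Pq.nil)))))))) (Pq.cons (Pq.L [] 0 (Pf.C 25 517))
 (Pq.cons (Pq.L [] 0 (Pf.C 28 517))
 (Pq.cons (Pq.L [] 0 (Pf.C 30 517))
 (Pq.cons (Pq.L [] 0 (Pf.C 31 517))
 (Pq.cons (Pq.L [0] 1 (Pf.C 6 81924))
 Pq.nil)))))))) Pq.nil)))))))) Pq.nil)
theorem h3_o10 : AllRef h3_T h3_G12 (applyObl TD2 1 [43,44,45,46,47,48,49] [0,0,0,0,0,0,0] [(43,0x3f00000000000),(44,0x3e80000000000),(45,0x3d80000000000),(46,0x3b80000000000),(47,0x3780000000000),(48,0x2f80000000000),(49,0x1f80000000000)]) :=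
  chkPq_sound h3_o10c _ (by decide +kernel)
noncomputable def h3_o11c : Pq := (Pq.cons (Pq.L [0,1,2] 0 (Pf.C 4 32899))
 (Pq.cons (Pq.L [0,1,2] 0 (Pf.C 4 0x208003))
 (Pq.cons (Pq.L [0,1,2] 0 (Pf.C 4 0x404003))
 Pq.nil)))
theorem h3_o11 : AllRef h3_T h3_G1 (ptObl 1 (PT.br 0 (PT.br 1 (PT.br 2 PT.kid PT.kid) (PT.br 2 PT.kid PT.ref)) (PT.br 1 (PT.br 2 PT.kid PT.ref) (PT.br 2 PT.ref PT.kid))) []) :=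
  chkPq_sound h3_o11c _ (by decide +kernel)
noncomputable def h3_o12c : Pq := Pq.nil
theorem h3_o12 : AllRef h3_T h3_G13 (ptObl 2 PT.kid []) :=
  chkPq_sound h3_o12c _ (by decide +kernel)
noncomputable def h3_o13c : Pq := (Pq.cons (Pq.L [0,1,2] 0 (Pf.C 5 0x604002))
 (Pq.cons (Pq.L [0,1,2] 0 (Pf.C 5 0x608001))
 (Pq.cons (Pq.L [0,1,2] 0 (Pf.C 5 0x608080))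
 Pq.nil)))
theorem h3_o13 : AllRef h3_T h3_G14 (ptObl 55 (PT.br 0 (PT.br 1 (PT.br 2 PT.kid PT.ref) (PT.br 2 PT.ref PT.kid)) (PT.br 1 (PT.br 2 PT.ref PT.kid) (PT.br 2 PT.kid PT.kid))) []) :=
  chkPq_sound h3_o13c _ (by decide +kernel)
noncomputable def h3_o14c : Pq := (Pq.cons (Pq.L [0] 0 (Pf.B 4 3 (Pf.C 3 388) (Pf.C 2 388)))
 (Pq.cons (Pq.L [0] 0 (Pf.B 4 3 (Pf.C 3 388) (Pf.C 2 388)))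
 (Pq.cons (Pq.L [0] 0 (Pf.B 4 3 (Pf.C 3 388) (Pf.C 2 388)))
 (Pq.cons (Pq.L [1] 0 (Pf.B 4 3 (Pf.C 3 16772) (Pf.C 2 388)))
 Pq.nil))))
theorem h3_o14 : AllRef h3_T h3_G15 (hitObl [50,51,52,53] h3_h18) :=
  chkPq_sound h3_o14c _ (by decide +kernel)
noncomputable def h3_o15c : Pq := (Pq.cons (Pq.L [] 0 (Pf.C 40 3))
 (Pq.cons (Pq.L [] 0 (Pf.C 41 3))
 (Pq.cons (Pq.L [] 0 (Pf.C 42 3))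
 (Pq.cons (Pq.L [] 0 (Pf.C 43 3))
 Pq.nil))))
theorem h3_o15 : AllRef h3_T h3_G16 (List.map pat1 [61,62,63,64]) :=
  chkPq_sound h3_o15c _ (by decide +kernel)
noncomputable def h3_o16c : Pq := (Pq.cons (Pq.L [1,2] 2 (Pf.C 4 0x608085))
 (Pq.cons (Pq.L [0,2] 2 (Pf.C 4 0x608005))
 (Pq.cons (Pq.L [0,1] 2 (Pf.C 4 0x604005))
 (Pq.cons (Pq.L [0,1] 2 (Pf.C 4 0x604005))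
 (Pq.cons (Pq.L [1,2] 1 (Pf.C 5 0x808083))
 (Pq.cons (Pq.L [0,2] 1 (Pf.C 5 0x808003))
 (Pq.cons (Pq.L [0,1] 1 (Pf.C 5 0x804003))
 (Pq.cons (Pq.L [0,1] 1 (Pf.C 5 0x804003))
 Pq.nil))))))))
theorem h3_o16 : AllRef h3_T h3_G17 (splitObl [54,56] [57,58,59,60]) :=
  chkPq_sound h3_o16c _ (by decide +kernel)
noncomputable def h3_o17c : Pq := (Pq.cons (Pq.L [0] 511 (Pf.B 9 6 (Pf.B 11 6 (Pf.C 3 0x2c486) (Pf.B 10 6 (Pf.C 3 0x28486) (Pf.B 9 8 (Pf.C 3 0x20309) (Pf.B 9 7 (Pf.C 3 0x1c309) (Pf.B 9 3 (Pf.B 11 3 (Pf.C 3 0x2c483) (Pf.B 10 3 (Pf.C 3 0x28483) (Pf.B 9 5 (Pf.C 3 82313) (Pf.B 9 4 (Pf.C 3 65929) (Pf.B 6 3 (Pf.B 8 3 (Pf.C 3 0x20303) (Pf.B 6 5 (Pf.C 3 82310) (Pf.B 6 4 (Pf.C 3 65926) (Pf.B 11 8 (Pf.B 11 7 (Pf.C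 1 0xc2c407) (Pf.B 10 8 (Pf.C 1 0x122058a) (Pf.B 11 5 (Pf.B 10 5 (Pf.C 1 0x121458a) (Pf.B 8 5 (Pf.C 1 0x51420580) (Pf.C 4 0x1414409))) (Pf.B 7 5 (Pf.B 8 5 (Pf.C 1 0xc14388) (Pf.B 10 5 (Pf.B 10 7 (Pf.C 1 0x5161c00a) (Pf.B 10 4 (Pf.C 1 0x628284) (Pf.B 8 4 (Pf.B 7 4 (Pf.C 1 0xc10407) (Pf.C 4 0x1410389)) (Pf.C 4 0x1410409)))) (Pf.C 4 0x1014506))) (Pf.C 4 0x1614389))))) (Pf.B 11 7 (Pf.B 10 7 (Pf.C 1 0x121c58a) (Pf.B 11 5 (Pf.B 11 4 (Pf.C 1 0x62c284) (Pf.B 10 5 (Pf.C 1 0x121458a) (Pf.B 8 4 (Pf.B 8 5 (Pf.C 1 0x620205) (Pf.B 7 5 (Pf.C 1 0xb1014007) (Pf.C 4 0x1414389))) (Pf.C 4 0x1610409)))) (Pf.B 8 5 (Pf.B 8 4 (Pf.C 1 0x620284) (Pf.B 11 4 (Pf.B 10 4 (Pf.C 1 0x121058a) (Pf.B 10 8 (Pf.B 10 5 (Pf.C 1 0x8161400a)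 (Pf.B 7 5 (Pf.C 1 0xc14407) (Pf.C 4 0x1414389))) (Pf.C 4 0x820503))) (Pf.C 4 0x1010586))) (Pf.C 4 0x1614409)))) (Pf.B 11 5 (Pf.B 11 4 (Pf.C 1 0x62c284) (Pf.B 10 5 (Pf.C 1 0x121458a) (Pf.B 8 4 (Pf.B 8 5 (Pf.C 1 0x620205) (Pf.B 10 8 (Pf.B 10 7 (Pf.C 1 0x8161c00a) (Pf.B 10 4 (Pf.C 1 0x8161000a) (Pf.B 7 4 (Pf.C 1 0xc10407) (Pf.C 4 0x1410389)))) (Pf.C 4 0xa20503))) (Pf.C 4 0x1610409)))) (Pf.B 8 5 (Pf.B 8 4 (Pf.C 1 0x620284) (Pf.B 11 4 (Pf.B 10 4 (Pf.C 1 0x121058a) (Pf.B 10 8 (Pf.B 10 7 (Pf.C 1 0x8161c00a) (Pf.B 10 5 (Pf.C 1 0x8161400a) (Pf.B 7 5 (Pf.C 1 0xc14407) (Pf.C 4 0x1414389)))) (Pf.C 4 0x820503))) (Pf.C 4 0x1010586))) (Pf.C 4 0x1614409)))))))) (Pf.C 2 390)))))) (Pf.C 2 393)))))) (Pf.C 2 777)))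
 Pq.nil)
theorem h3_o17 : AllRef h3_T h3_G17 (hitObl [54,56] h3_h21) :=
  chkPq_sound h3_o17c _ (by decide +kernel)
noncomputable def h3_o18c : Pq := (Pq.cons (Pq.L [] 2 (Pf.C 2 643))
 Pq.nil)
theorem h3_o18 : AllRef h3_T h3_G18 (twinObl [65,66] 0 [2,3]) :=
  chkPq_sound h3_o18c _ (by decide +kernel)
noncomputable def h3_o19c : Pq := (Pq.cons (Pq.L [] 1 (Pf.C 2 515))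
 (Pq.cons (Pq.L [] 1 (Pf.C 2 515))
 Pq.nil))
theorem h3_o19 : AllRef h3_T h3_G19 (blockObl [67,68] [2,1] [2,3] [2,3]) :=
  chkPq_sound h3_o19c _ (by decide +kernel)
noncomputable def h3_o20c : Pq := Pq.nil
theorem h3_o20 : AllRef h3_T h3_G22 (extObl 75 [] []) :=
  chkPq_sound h3_o20c _ (by decide +kernel)
noncomputable def h3_o21c : Pq := Pq.nil
theorem h3_o21 : AllRef h3_T h3_G23 (extObl 77 [] []) :=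
  chkPq_sound h3_o21c _ (by decide +kernel)
noncomputable def h3_o22c : Pq := (Pq.cons (Pq.D 0 (Pq.cons (Pq.D 1 (Pq.cons (Pq.L [] 1 (Pf.C 2 515))
 (Pq.cons (Pq.D 2 (Pq.cons (Pq.L [] 2 (Pf.C 2 643))
 (Pq.cons (Pq.D 3 (Pq.cons (Pq.L [] 4 (Pf.C 2 771))
 (Pq.cons (Pq.L [] 7 (Pf.C 48 0xc14203))
 Pq.nil))) Pq.nil))) Pq.nil))) (Pq.cons (Pq.D 1 (Pq.cons (Pq.D 2 (Pq.cons (Pq.L [] 3 (Pf.B 5 4 (Pf.C 3 49669) (Pf.C 2 517)))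
 (Pq.cons (Pq.D 3 (Pq.cons (Pq.L [] 7 (Pf.C 50 0xc10283))
 (Pq.cons (Pq.L [] 7 (Pf.C 51 0x818283))
 Pq.nil))) Pq.nil))) (Pq.cons (Pq.D 2 (Pq.cons (Pq.D 3 (Pq.cons (Pq.L [] 7 (Pf.C 50 0xc14203))
 (Pq.cons (Pq.L [] 7 (Pf.C 51 0xa18203))
 Pq.nil))) (Pq.cons (Pq.D 3 (Pq.cons (Pq.L [] 7 (Pf.C 51 0xc14203))
 (Pq.cons (Pq.L [] 7 (Pf.C 52 0xc14203))
 Pq.nil))) Pq.nil))) Pq.nil))) Pq.nil))) Pq.nil)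
theorem h3_o22 : AllRef h3_T h3_G25 (applyObl TD2 1 [76,78] [0,0] [(76,0x40000000000000000000),(78,0x10000000000000000000)]) :=
  chkPq_sound h3_o22c _ (by decide +kernel)
noncomputable def h3_o23c : Pq := Pq.nil
theorem h3_o23 : AllRef h3_T h3_G26 (ptObl 76 (PT.br 3 PT.kid PT.kid) []) :=
  chkPq_sound h3_o23c _ (by decide +kernel)
noncomputable def h3_o24c : Pq := Pq.nil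
theorem h3_o24 : AllRef h3_T h3_G27 (ptObl 77 PT.kid []) :=
  chkPq_sound h3_o24c _ (by decide +kernel)
noncomputable def h3_o25c : Pq := Pq.nil
theorem h3_o25 : AllRef h3_T h3_G28 (ptObl 83 (PT.br 3 PT.kid PT.kid) []) :=
  chkPq_sound h3_o25c _ (by decide +kernel)
noncomputable def h3_o26c : Pq := Pq.nil
theorem h3_o26 : AllRef h3_T h3_G29 (ptObl 78 (PT.br 3 PT.kid PT.kid) []) :=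
  chkPq_sound h3_o26c _ (by decide +kernel)
noncomputable def h3_o27c : Pq := (Pq.cons (Pq.L [] 0 (Pf.X 3 4))
 (Pq.cons (Pq.L [] 1 (Pf.C 2 644))
 (Pq.cons (Pq.L [] 1 (Pf.C 2 644))
 (Pq.cons (Pq.L [] 1 (Pf.C 2 644))
 (Pq.cons (Pq.L [] 1 (Pf.C 63 517))
 (Pq.cons (Pq.L [] 1 (Pf.C 57 517))
 (Pq.cons (Pq.L [] 1 (Pf.C 63 517))
 (Pq.cons (Pq.L [] 1 (Pf.C 57 517))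
 (Pq.cons (Pq.L [] 0 (Pf.X 3 4))
 (Pq.cons (Pq.L [3] 1 (Pf.C 44 82308))
 (Pq.cons (Pq.L [] 1 (Pf.W 56 4 [] [5] (Pf.cons (Pf.B 6 5 (Pf.C 44 82692) (Pf.C 59 773)) (Pf.cons (Pf.B 6 5 (Pf.C 44 82692) (Pf.C 59 773)) Pf.nil))))
 (Pq.cons (Pq.L [0,3] 1 (Pf.W 62 4 [] [0,3,5] (Pf.cons (Pf.B 6 5 (Pf.C 44 82692) (Pf.W 58 6 [] [0,3,4,5] (Pf.cons (Pf.B 7 5 (Pf.B 7 4 (Pf.C 57 900) (Pf.W 49 5 [4,6] [0,3,7] (Pf.cons (Pf.B 8 4 (Pf.C 3 82440) (Pf.C 2 520)) (Pf.cons (Pf.B 8 4 (Pf.C 48 0xc14404) (Pf.B 8 7 (Pf.B 8 6 (Pf.B 8 3 (Pf.C 1 0x60e0c008) (Pf.T 8 8 (Pf.cons (Pf.T 8 10 (Pf.cons (Pf.T 8 11 (Pf.cons (Pf.C 59 1029) Pf.nil)) Pf.nil)) (Pf.cons (Pf.T 8 12 (Pf.cons (Pf.C 59 1029) Pf.nil)) Pf.nil)))) (Pf.C 5 0xe14406)) (Pf.B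 8 6 (Pf.B 8 3 (Pf.C 1 0x60a20003) (Pf.C 5 0xa1c188)) (Pf.C 4 0xc1c404)))) Pf.nil)))) (Pf.C 59 901)) (Pf.cons (Pf.B 7 5 (Pf.W 49 5 [4,6] [0,3,7] (Pf.cons (Pf.B 8 4 (Pf.C 3 82440) (Pf.C 2 520)) (Pf.cons (Pf.B 8 7 (Pf.B 8 6 (Pf.B 8 3 (Pf.C 1 0x60e0c008) (Pf.T 8 8 (Pf.cons (Pf.T 8 10 (Pf.cons (Pf.T 8 11 (Pf.cons (Pf.C 59 1029) Pf.nil)) Pf.nil)) (Pf.cons (Pf.T 8 12 (Pf.cons (Pf.C 59 1029) Pf.nil)) Pf.nil)))) (Pf.C 5 0xe14406)) (Pf.C 52 0xc0c407)) Pf.nil))) (Pf.C 59 901)) Pf.nil)))) (Pf.cons (Pf.B 6 5 (Pf.C 44 82692) (Pf.W 60 6 [] [4,5] (Pf.cons (Pf.C 51 0x814386) (Pf.cons (Pf.C 51 0x814386) Pf.nil)))) Pf.nil))))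
 (Pq.cons (Pq.L [0,3] 1 (Pf.W 58 4 [] [0,3,5] (Pf.cons (Pf.B 6 5 (Pf.W 49 3 [6] [0,4,5] (Pf.cons (Pf.B 7 4 (Pf.C 44 49671) (Pf.B 7 6 (Pf.T 7 7 (Pf.cons (Pf.T 7 9 (Pf.cons (Pf.W 49 3 [6,7] [0,4,5] (Pf.cons (Pf.B 8 7 (Pf.C 3 50056) (Pf.C 2 904)) (Pf.cons (Pf.B 8 7 (Pf.C 48 0xc0c407) (Pf.B 8 6 (Pf.B 8 5 (Pf.C 1 0x60620005) (Pf.W 53 65926 [] [0,5,7,8] (Pf.cons (Pf.T 8 10 (Pf.cons (Pf.T 8 11 (Pf.cons (Pf.C 59 1029) Pf.nil)) Pf.nil)) (Pf.cons (Pf.B 9 8 (Pf.B 9 5 (Pf.C 1 0x60624005) (Pf.C 1 0x80a24300)) (Pf.C 5 0xc20483)) (Pf.cons (Pf.T 8 12 (Pf.cons (Pf.C 59 1029) Pf.nil)) (Pf.cons (Pf.B 9 8 (Pf.B 9 5 (Pf.C 1 0x60624005) (Pf.C 1 0x80a24300)) (Pf.C 5 0xc20483)) (Pf.cons (Pf.B 9 7 (Pf.C 3 50057) (Pf.C 2 905))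 Pf.nil))))))) (Pf.B 8 4 (Pf.C 5 0x80c406) (Pf.C 4 0xc10407)))) Pf.nil))) Pf.nil)) Pf.nil)) (Pf.T 7 7 (Pf.cons (Pf.T 7 9 (Pf.cons (Pf.W 49 3 [6,7] [0,4,5] (Pf.cons (Pf.B 8 7 (Pf.C 3 50056) (Pf.C 2 904)) (Pf.cons (Pf.B 8 7 (Pf.B 8 6 (Pf.B 8 5 (Pf.C 1 0x60620005) (Pf.T 8 8 (Pf.cons (Pf.T 8 10 (Pf.cons (Pf.T 8 11 (Pf.cons (Pf.C 59 1029) Pf.nil)) Pf.nil)) (Pf.cons (Pf.C 51 0xe14188) Pf.nil)))) (Pf.B 8 4 (Pf.C 5 0x80c406) (Pf.C 4 0x1018207))) (Pf.B 8 6 (Pf.B 8 5 (Pf.C 1 0x60620005) (Pf.T 8 8 (Pf.cons (Pf.T 8 10 (Pf.cons (Pf.T 8 11 (Pf.cons (Pf.C 59 1029) Pf.nil)) Pf.nil)) (Pf.cons (Pf.T 8 12 (Pf.cons (Pf.C 59 1029) Pf.nil)) Pf.nil)))) (Pf.C 4 0x618407))) Pf.nil))) Pf.nil)) Pf.nil)))) (Pf.cons (Pf.B 7 6 (Pf.B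 7 5 (Pf.C 1 0x6061c005) (Pf.T 7 8 (Pf.cons (Pf.T 7 10 (Pf.cons (Pf.T 7 11 (Pf.cons (Pf.C 59 901) Pf.nil)) Pf.nil)) (Pf.cons (Pf.T 7 12 (Pf.cons (Pf.C 59 901) Pf.nil)) Pf.nil)))) (Pf.B 7 5 (Pf.B 7 4 (Pf.C 5 0x80c386) (Pf.C 5 0xa18384)) (Pf.C 5 0xa18187))) Pf.nil))) (Pf.C 59 773)) (Pf.cons (Pf.B 6 5 (Pf.W 49 4 [5,6] [0,3] (Pf.cons (Pf.B 7 6 (Pf.C 51 0xe10186) (Pf.B 7 3 (Pf.C 44 65927) (Pf.B 7 5 (Pf.T 7 7 (Pf.cons (Pf.T 7 9 (Pf.cons (Pf.T 7 13 (Pf.cons (Pf.W 56 7 [] [4,5] (Pf.cons (Pf.C 48 0xa10407) (Pf.cons (Pf.C 48 0xa10407) Pf.nil))) (Pf.cons (Pf.T 7 16 (Pf.cons (Pf.W 49 5 [4,7] [0,3,6] (Pf.cons (Pf.B 8 7 (Pf.C 3 82824) (Pf.C 2 904)) (Pf.cons (Pf.B 8 6 (Pf.B 8 4 (Pf.B 8 3 (Pf.C 1 0x40c0c008) (Pf.T 8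 8 (Pf.cons (Pf.T 8 10 (Pf.cons (Pf.T 8 11 (Pf.cons (Pf.C 59 1029) Pf.nil)) Pf.nil)) (Pf.cons (Pf.T 8 12 (Pf.cons (Pf.C 59 1029) Pf.nil)) Pf.nil)))) (Pf.C 5 0xc14404)) (Pf.C 52 0x80c406)) Pf.nil))) (Pf.cons (Pf.C 63 519) Pf.nil))) Pf.nil))) Pf.nil)) Pf.nil)) (Pf.T 7 7 (Pf.cons (Pf.T 7 9 (Pf.cons (Pf.T 7 13 (Pf.cons (Pf.W 56 7 [] [0,3,5,6] (Pf.cons (Pf.B 8 6 (Pf.B 8 5 (Pf.C 1 0x60620005) (Pf.C 59 1029)) (Pf.C 4 0x100c307)) (Pf.cons (Pf.B 8 6 (Pf.B 8 5 (Pf.C 1 0x60620005) (Pf.C 59 1029)) (Pf.C 4 0x100c307)) Pf.nil))) (Pf.cons (Pf.T 7 16 (Pf.cons (Pf.W 49 3 [6] [0,4,5,7] (Pf.cons (Pf.T 8 7 (Pf.cons (Pf.T 8 9 (Pf.cons (Pf.W 49 3 [6,8] [0,4,5,7] (Pf.cons (Pf.B 9 8 (Pf.C 3 50185) (Pf.C 2 1033)) (Pf.cons (Pf.B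 9 6 (Pf.B 9 5 (Pf.C 1 0x60624005) (Pf.B 9 4 (Pf.B 9 8 (Pf.T 9 8 (Pf.cons (Pf.T 9 10 (Pf.cons (Pf.T 9 11 (Pf.cons (Pf.C 59 1157) Pf.nil)) Pf.nil)) (Pf.cons (Pf.C 51 0x1014189) Pf.nil))) (Pf.W 54 0xe14184 [8] [0,6,9] (Pf.cons (Pf.T 9 10 (Pf.cons (Pf.T 9 11 (Pf.cons (Pf.C 59 1157) Pf.nil)) Pf.nil)) (Pf.cons (Pf.B 10 9 (Pf.C 1 0x90628200) (Pf.B 10 6 (Pf.C 5 0xc24503) (Pf.C 5 0x80c506))) (Pf.cons (Pf.T 9 12 (Pf.cons (Pf.C 59 1157) Pf.nil)) (Pf.cons (Pf.B 10 9 (Pf.C 1 0x90628200) (Pf.B 10 8 (Pf.C 51 0x102418a) (Pf.C 4 0x624508))) (Pf.cons (Pf.B 10 8 (Pf.C 3 50186) (Pf.C 2 1034)) Pf.nil))))))) (Pf.C 5 0x614209))) (Pf.C 52 0x80c486)) Pf.nil))) Pf.nil)) Pf.nil)) (Pf.cons (Pf.B 8 6 (Pf.B 8 5 (Pf.C 1 0x60620005)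 (Pf.T 8 8 (Pf.cons (Pf.T 8 10 (Pf.cons (Pf.T 8 11 (Pf.cons (Pf.C 59 1029) Pf.nil)) Pf.nil)) (Pf.cons (Pf.T 8 12 (Pf.cons (Pf.C 59 1029) Pf.nil)) Pf.nil)))) (Pf.C 52 0x80c406)) Pf.nil))) (Pf.cons (Pf.C 63 519) Pf.nil))) Pf.nil))) Pf.nil)) Pf.nil))))) (Pf.cons (Pf.B 7 6 (Pf.B 7 5 (Pf.B 7 3 (Pf.C 1 0x5081c003) (Pf.C 1 0x6061c280)) (Pf.C 5 0xc14384)) (Pf.C 52 0x80c386)) Pf.nil))) (Pf.C 59 773)) Pf.nil))))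
 (Pq.cons (Pq.L [] 1 (Pf.C 59 517))
 (Pq.cons (Pq.L [0,3] 1 (Pf.W 60 4 [] [0,3,5] (Pf.cons (Pf.B 6 5 (Pf.W 49 3 [6] [0,4,5] (Pf.cons (Pf.T 7 7 (Pf.cons (Pf.T 7 9 (Pf.cons (Pf.W 49 3 [6,7] [0,4,5] (Pf.cons (Pf.B 8 7 (Pf.C 3 50056) (Pf.C 2 904)) (Pf.cons (Pf.B 8 4 (Pf.B 8 6 (Pf.B 8 5 (Pf.C 1 0x60814008) (Pf.T 8 8 (Pf.cons (Pf.T 8 10 (Pf.cons (Pf.T 8 11 (Pf.cons (Pf.C 59 1029) Pf.nil)) Pf.nil)) (Pf.cons (Pf.T 8 12 (Pf.cons (Pf.C 59 1029) Pf.nil)) Pf.nil)))) (Pf.C 5 0x80c406)) (Pf.C 52 0xc14404)) Pf.nil))) Pf.nil)) Pf.nil)) (Pf.cons (Pf.B 7 4 (Pf.B 7 6 (Pf.B 7 5 (Pf.C 1 0x60814007) (Pf.T 7 8 (Pf.cons (Pf.T 7 10 (Pf.cons (Pf.T 7 11 (Pf.cons (Pf.C 59 901) Pf.nil)) Pf.nil)) (Pf.cons (Pf.T 7 12 (Pf.cons (Pf.C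 59 901) Pf.nil)) Pf.nil)))) (Pf.C 5 0x80c386)) (Pf.C 52 0xc14384)) Pf.nil))) (Pf.C 59 773)) (Pf.cons (Pf.B 6 5 (Pf.W 49 3 [6] [0,4,5] (Pf.cons (Pf.T 7 7 (Pf.cons (Pf.T 7 9 (Pf.cons (Pf.W 49 3 [6,7] [0,4,5] (Pf.cons (Pf.B 8 7 (Pf.C 3 50056) (Pf.C 2 904)) (Pf.cons (Pf.B 8 6 (Pf.B 8 5 (Pf.C 1 0x60620005) (Pf.T 8 8 (Pf.cons (Pf.T 8 10 (Pf.cons (Pf.T 8 11 (Pf.cons (Pf.C 59 1029) Pf.nil)) Pf.nil)) (Pf.cons (Pf.T 8 12 (Pf.cons (Pf.C 59 1029) Pf.nil)) Pf.nil)))) (Pf.C 52 0x80c406)) Pf.nil))) Pf.nil)) Pf.nil)) (Pf.cons (Pf.B 7 6 (Pf.B 7 5 (Pf.C 1 0x6061c005) (Pf.T 7 8 (Pf.cons (Pf.T 7 10 (Pf.cons (Pf.T 7 11 (Pf.cons (Pf.C 59 901) Pf.nil)) Pf.nil)) (Pf.cons (Pf.T 7 12 (Pf.cons (Pf.C 59 901) Pf.nil)) Pf.nil))))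 (Pf.C 52 0x80c386)) Pf.nil))) (Pf.C 59 773)) Pf.nil))))
 (Pq.cons (Pq.L [] 1 (Pf.C 59 517))
 (Pq.cons (Pq.L [] 0 (Pf.X 3 4))
 (Pq.cons (Pq.L [3] 1 (Pf.C 44 82308))
 (Pq.cons (Pq.L [] 1 (Pf.W 56 4 [] [5] (Pf.cons (Pf.B 6 5 (Pf.C 44 82692) (Pf.C 61 773)) (Pf.cons (Pf.B 6 5 (Pf.C 44 82692) (Pf.C 61 773)) Pf.nil))))
 (Pq.cons (Pq.L [0,3] 1 (Pf.W 62 4 [] [0,3,5] (Pf.cons (Pf.B 6 5 (Pf.C 44 82692) (Pf.W 58 6 [] [0,3,4,5] (Pf.cons (Pf.B 7 5 (Pf.W 49 3 [7] [0,4,5,6] (Pf.cons (Pf.B 8 6 (Pf.C 44 49928) (Pf.B 8 7 (Pf.T 8 7 (Pf.cons (Pf.T 8 9 (Pf.cons (Pf.W 49 3 [7,8] [0,4,5,6] (Pf.cons (Pf.B 9 8 (Pf.C 3 50185) (Pf.C 2 1033)) (Pf.cons (Pf.B 9 8 (Pf.C 48 0xe0c488) (Pf.B 9 5 (Pf.B 9 7 (Pf.C 1 0x70624280) (Pf.B 9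 6 (Pf.C 5 0xc0c487) (Pf.C 4 0xe18488))) (Pf.C 51 0x818485))) Pf.nil))) Pf.nil)) Pf.nil)) (Pf.T 8 7 (Pf.cons (Pf.T 8 9 (Pf.cons (Pf.W 49 3 [7,8] [0,4,5,6] (Pf.cons (Pf.B 9 8 (Pf.C 3 50185) (Pf.C 2 1033)) (Pf.cons (Pf.B 9 5 (Pf.B 9 7 (Pf.C 1 0x70624280) (Pf.B 9 8 (Pf.B 9 6 (Pf.C 5 0xc0c487) (Pf.C 4 0x121c308)) (Pf.C 4 0x61c488))) (Pf.C 51 0x818485)) Pf.nil))) Pf.nil)) Pf.nil)))) (Pf.cons (Pf.B 8 5 (Pf.B 8 7 (Pf.C 1 0x70620280) (Pf.B 8 6 (Pf.C 5 0xc0c407) (Pf.C 5 0xa1c406))) (Pf.C 51 0x818405)) Pf.nil))) (Pf.C 61 901)) (Pf.cons (Pf.B 7 5 (Pf.W 49 3 [7] [0,4,5,6] (Pf.cons (Pf.T 8 7 (Pf.cons (Pf.T 8 9 (Pf.cons (Pf.W 49 3 [7,8] [0,4,5,6] (Pf.cons (Pf.B 9 8 (Pf.C 3 50185) (Pf.C 2 1033)) (Pf.cons (Pf.B 9 7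 (Pf.B 9 5 (Pf.C 1 0x70624005) (Pf.C 51 0x818485)) (Pf.C 52 0xc0c487)) Pf.nil))) Pf.nil)) Pf.nil)) (Pf.cons (Pf.B 8 7 (Pf.B 8 5 (Pf.C 1 0x70620005) (Pf.C 51 0x818405)) (Pf.C 52 0xc0c407)) Pf.nil))) (Pf.C 61 901)) Pf.nil)))) (Pf.cons (Pf.B 6 5 (Pf.C 44 82692) (Pf.W 60 6 [] [4,5] (Pf.cons (Pf.C 51 0x814386) (Pf.cons (Pf.C 51 0x814386) Pf.nil)))) Pf.nil))))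
 (Pq.cons (Pq.L [0,3] 1 (Pf.W 58 4 [] [0,3,5] (Pf.cons (Pf.B 6 5 (Pf.W 49 3 [6] [0,4,5] (Pf.cons (Pf.B 7 4 (Pf.C 44 49671) (Pf.B 7 6 (Pf.T 7 7 (Pf.cons (Pf.T 7 9 (Pf.cons (Pf.W 49 3 [6,7] [0,4,5] (Pf.cons (Pf.B 8 7 (Pf.C 3 50056) (Pf.C 2 904)) (Pf.cons (Pf.B 8 7 (Pf.C 48 0xc0c407) (Pf.B 8 6 (Pf.B 8 5 (Pf.C 1 0x60620005) (Pf.W 53 65926 [] [0,5,7,8] (Pf.cons (Pf.T 8 10 (Pf.cons (Pf.T 8 11 (Pf.cons (Pf.C 61 1029) Pf.nil)) Pf.nil)) (Pf.cons (Pf.B 9 5 (Pf.C 1 0x60624005) (Pf.C 52 0x1010485)) (Pf.cons (Pf.T 8 12 (Pf.cons (Pf.C 61 1029) Pf.nil)) (Pf.cons (Pf.B 9 5 (Pf.C 1 0x60624005) (Pf.C 52 0x1010485)) (Pf.cons (Pf.B 9 7 (Pf.C 3 50057) (Pf.C 2 905)) Pf.nil))))))) (Pf.B 8 4 (Pf.C 5 0x80c406) (Pf.C 4 0xc10407))))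 Pf.nil))) Pf.nil)) Pf.nil)) (Pf.T 7 7 (Pf.cons (Pf.T 7 9 (Pf.cons (Pf.W 49 3 [6,7] [0,4,5] (Pf.cons (Pf.B 8 7 (Pf.C 3 50056) (Pf.C 2 904)) (Pf.cons (Pf.B 8 7 (Pf.B 8 6 (Pf.B 8 5 (Pf.C 1 0x60620005) (Pf.T 8 8 (Pf.cons (Pf.T 8 10 (Pf.cons (Pf.T 8 11 (Pf.cons (Pf.C 61 1029) Pf.nil)) Pf.nil)) (Pf.cons (Pf.C 51 0xe14188) Pf.nil)))) (Pf.B 8 4 (Pf.C 5 0x80c406) (Pf.C 4 0x1018207))) (Pf.B 8 6 (Pf.B 8 5 (Pf.C 1 0x60620005) (Pf.T 8 8 (Pf.cons (Pf.T 8 10 (Pf.cons (Pf.T 8 11 (Pf.cons (Pf.C 61 1029) Pf.nil)) Pf.nil)) (Pf.cons (Pf.T 8 12 (Pf.cons (Pf.C 61 1029) Pf.nil)) Pf.nil)))) (Pf.C 4 0x618407))) Pf.nil))) Pf.nil)) Pf.nil)))) (Pf.cons (Pf.B 7 6 (Pf.B 7 5 (Pf.C 1 0x6061c005) (Pf.T 7 8 (Pf.cons (Pf.T 7 10 (Pf.cons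 (Pf.T 7 11 (Pf.cons (Pf.C 61 901) Pf.nil)) Pf.nil)) (Pf.cons (Pf.T 7 12 (Pf.cons (Pf.C 61 901) Pf.nil)) Pf.nil)))) (Pf.B 7 5 (Pf.B 7 4 (Pf.C 5 0x80c386) (Pf.C 5 0xa18384)) (Pf.C 5 0xa18187))) Pf.nil))) (Pf.C 61 773)) (Pf.cons (Pf.B 6 5 (Pf.W 49 4 [5,6] [0,3] (Pf.cons (Pf.B 7 6 (Pf.C 51 0xe10186) (Pf.B 7 3 (Pf.C 44 65927) (Pf.B 7 5 (Pf.T 7 7 (Pf.cons (Pf.T 7 9 (Pf.cons (Pf.T 7 13 (Pf.cons (Pf.W 56 7 [] [4,5] (Pf.cons (Pf.C 48 0xa10407) (Pf.cons (Pf.C 48 0xa10407) Pf.nil))) (Pf.cons (Pf.T 7 16 (Pf.cons (Pf.W 49 3 [6] [0,4,5,7] (Pf.cons (Pf.T 8 7 (Pf.cons (Pf.T 8 9 (Pf.cons (Pf.W 49 3 [6,8] [0,4,5,7] (Pf.cons (Pf.B 9 8 (Pf.C 3 50185) (Pf.C 2 1033)) (Pf.cons (Pf.B 9 6 (Pf.B 9 5 (Pf.C 1 0x60624005) (Pf.C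 51 0xe10485)) (Pf.C 52 0x80c486)) Pf.nil))) Pf.nil)) Pf.nil)) (Pf.cons (Pf.B 8 6 (Pf.B 8 5 (Pf.C 1 0x60620005) (Pf.C 51 0xe10405)) (Pf.C 52 0x80c406)) Pf.nil))) (Pf.cons (Pf.C 63 519) Pf.nil))) Pf.nil))) Pf.nil)) Pf.nil)) (Pf.T 7 7 (Pf.cons (Pf.T 7 9 (Pf.cons (Pf.T 7 13 (Pf.cons (Pf.W 56 7 [] [0,3,5,6] (Pf.cons (Pf.B 8 6 (Pf.B 8 5 (Pf.C 1 0x60620005) (Pf.C 61 1029)) (Pf.C 4 0x100c307)) (Pf.cons (Pf.B 8 6 (Pf.B 8 5 (Pf.C 1 0x60620005) (Pf.C 61 1029)) (Pf.C 4 0x100c307)) Pf.nil))) (Pf.cons (Pf.T 7 16 (Pf.cons (Pf.W 49 3 [6] [0,4,5,7] (Pf.cons (Pf.T 8 7 (Pf.cons (Pf.T 8 9 (Pf.cons (Pf.W 49 3 [6,8] [0,4,5,7] (Pf.cons (Pf.B 9 8 (Pf.C 3 50185) (Pf.C 2 1033)) (Pf.cons (Pf.B 9 6 (Pf.B 9 5 (Pf.C 1 0x60624005)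 (Pf.B 9 4 (Pf.B 9 8 (Pf.T 9 8 (Pf.cons (Pf.T 9 10 (Pf.cons (Pf.T 9 11 (Pf.cons (Pf.C 61 1157) Pf.nil)) Pf.nil)) (Pf.cons (Pf.C 51 0x1014189) Pf.nil))) (Pf.W 54 0xe14184 [8] [0,6,9] (Pf.cons (Pf.T 9 10 (Pf.cons (Pf.T 9 11 (Pf.cons (Pf.C 61 1157) Pf.nil)) Pf.nil)) (Pf.cons (Pf.B 10 9 (Pf.C 1 0x90628200) (Pf.B 10 6 (Pf.C 5 0xc24503) (Pf.C 5 0x80c506))) (Pf.cons (Pf.T 9 12 (Pf.cons (Pf.C 61 1157) Pf.nil)) (Pf.cons (Pf.B 10 9 (Pf.C 1 0x90628200) (Pf.B 10 8 (Pf.C 51 0x102418a) (Pf.C 4 0x624508))) (Pf.cons (Pf.B 10 8 (Pf.C 3 50186) (Pf.C 2 1034)) Pf.nil))))))) (Pf.C 5 0x614209))) (Pf.C 52 0x80c486)) Pf.nil))) Pf.nil)) Pf.nil)) (Pf.cons (Pf.B 8 6 (Pf.B 8 5 (Pf.C 1 0x60620005) (Pf.T 8 8 (Pf.cons (Pf.T 8 10 (Pf.cons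 (Pf.T 8 11 (Pf.cons (Pf.C 61 1029) Pf.nil)) Pf.nil)) (Pf.cons (Pf.T 8 12 (Pf.cons (Pf.C 61 1029) Pf.nil)) Pf.nil)))) (Pf.C 52 0x80c406)) Pf.nil))) (Pf.cons (Pf.C 63 519) Pf.nil))) Pf.nil))) Pf.nil)) Pf.nil))))) (Pf.cons (Pf.B 7 6 (Pf.B 7 5 (Pf.B 7 3 (Pf.C 1 0x5081c003) (Pf.C 1 0x6061c280)) (Pf.C 5 0xc14384)) (Pf.C 52 0x80c386)) Pf.nil))) (Pf.C 61 773)) Pf.nil))))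
 (Pq.cons (Pq.L [] 1 (Pf.C 61 517))
 (Pq.cons (Pq.L [0,3] 1 (Pf.W 60 4 [] [0,3,5] (Pf.cons (Pf.B 6 5 (Pf.W 49 3 [6] [0,4,5] (Pf.cons (Pf.T 7 7 (Pf.cons (Pf.T 7 9 (Pf.cons (Pf.W 49 3 [6,7] [0,4,5] (Pf.cons (Pf.B 8 7 (Pf.C 3 50056) (Pf.C 2 904)) (Pf.cons (Pf.B 8 4 (Pf.B 8 6 (Pf.B 8 5 (Pf.C 1 0x60814008) (Pf.T 8 8 (Pf.cons (Pf.T 8 10 (Pf.cons (Pf.T 8 11 (Pf.cons (Pf.C 61 1029) Pf.nil)) Pf.nil)) (Pf.cons (Pf.T 8 12 (Pf.cons (Pf.C 61 1029) Pf.nil)) Pf.nil)))) (Pf.C 5 0x80c406)) (Pf.C 52 0xc14404)) Pf.nil))) Pf.nil)) Pf.nil)) (Pf.cons (Pf.B 7 4 (Pf.B 7 6 (Pf.B 7 5 (Pf.C 1 0x60814007) (Pf.T 7 8 (Pf.cons (Pf.T 7 10 (Pf.cons (Pf.T 7 11 (Pf.cons (Pf.C 61 901) Pf.nil)) Pf.nil)) (Pf.cons (Pf.T 7 12 (Pf.cons (Pf.C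 61 901) Pf.nil)) Pf.nil)))) (Pf.C 5 0x80c386)) (Pf.C 52 0xc14384)) Pf.nil))) (Pf.C 61 773)) (Pf.cons (Pf.B 6 5 (Pf.W 49 3 [6] [0,4,5] (Pf.cons (Pf.T 7 7 (Pf.cons (Pf.T 7 9 (Pf.cons (Pf.W 49 3 [6,7] [0,4,5] (Pf.cons (Pf.B 8 7 (Pf.C 3 50056) (Pf.C 2 904)) (Pf.cons (Pf.B 8 6 (Pf.B 8 5 (Pf.C 1 0x60620005) (Pf.T 8 8 (Pf.cons (Pf.T 8 10 (Pf.cons (Pf.T 8 11 (Pf.cons (Pf.C 61 1029) Pf.nil)) Pf.nil)) (Pf.cons (Pf.T 8 12 (Pf.cons (Pf.C 61 1029) Pf.nil)) Pf.nil)))) (Pf.C 52 0x80c406)) Pf.nil))) Pf.nil)) Pf.nil)) (Pf.cons (Pf.B 7 6 (Pf.B 7 5 (Pf.C 1 0x6061c005) (Pf.T 7 8 (Pf.cons (Pf.T 7 10 (Pf.cons (Pf.T 7 11 (Pf.cons (Pf.C 61 901) Pf.nil)) Pf.nil)) (Pf.cons (Pf.T 7 12 (Pf.cons (Pf.C 61 901) Pf.nil)) Pf.nil))))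 (Pf.C 52 0x80c386)) Pf.nil))) (Pf.C 61 773)) Pf.nil))))
 (Pq.cons (Pq.L [] 1 (Pf.C 61 517))
 Pq.nil))))))))))))))))))))))))
theorem h3_o27 : AllRef h3_T h3_G34 (closeObl (h3_T.sc.get 0) false [81,88,94,95,90,91,85,92,93,87] [0,0,0,0,1,1,1,1,1,1] [3] [1] 727) :=
  chkPq_sound h3_o27c _ (by decide +kernel)
noncomputable def h3_o28c : Pq := (Pq.cons (Pq.L [3] 0 (Pf.B 5 4 (Pf.C 3 49669) (Pf.C 2 517)))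
 (Pq.cons (Pq.L [0,3] 1 (Pf.T 4 15 (Pf.cons (Pf.T 5 15 (Pf.cons (Pf.W 60 4 [] [0,3,5] (Pf.cons (Pf.B 6 5 (Pf.C 1 0x40c0c005) (Pf.W 49 3 [6] [0,4,5] (Pf.cons (Pf.B 7 5 (Pf.C 44 49799) (Pf.B 7 6 (Pf.T 7 7 (Pf.cons (Pf.T 7 9 (Pf.cons (Pf.W 49 3 [6,7] [0,4,5] (Pf.cons (Pf.B 8 7 (Pf.C 3 50056) (Pf.C 2 904)) (Pf.cons (Pf.B 8 7 (Pf.C 48 0xc0c407) (Pf.B 8 6 (Pf.B 8 5 (Pf.B 8 4 (Pf.C 1 0x50c10008) (Pf.C 1 0x31010280)) (Pf.B 8 4 (Pf.C 1 0x5100c004) (Pf.T 8 8 (Pf.cons (Pf.T 8 10 (Pf.cons (Pf.T 8 11 (Pf.cons (Pf.W 55 0xa10186 [8] [0,7] (Pf.cons (Pf.B 9 8 (Pf.B 9 5 (Pf.C 1 0x80a18009) (Pf.C 52 0x1018485)) (Pf.C 5 0xc20483)) (Pf.cons (Pf.B 9 8 (Pf.B 9 5 (Pf.C 1 0x80a18009) (Pf.C 52 0x1018485)) (Pf.C 5 0xc20483))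 (Pf.cons (Pf.B 9 7 (Pf.C 3 50057) (Pf.C 2 905)) Pf.nil)))) Pf.nil)) Pf.nil)) (Pf.cons (Pf.C 52 0xa10188) Pf.nil))))) (Pf.B 8 5 (Pf.C 5 0xa0c406) (Pf.C 4 0xc14407)))) Pf.nil))) Pf.nil)) Pf.nil)) (Pf.T 7 7 (Pf.cons (Pf.T 7 9 (Pf.cons (Pf.W 49 3 [6,7] [0,4,5] (Pf.cons (Pf.B 8 7 (Pf.C 3 50056) (Pf.C 2 904)) (Pf.cons (Pf.B 8 7 (Pf.B 8 6 (Pf.B 8 5 (Pf.B 8 4 (Pf.C 1 0x50c10008) (Pf.C 1 0x31010280)) (Pf.B 8 4 (Pf.C 1 0x5100c004) (Pf.T 8 8 (Pf.cons (Pf.T 8 10 (Pf.cons (Pf.T 8 11 (Pf.cons (Pf.W 55 0xa10188 [6] [0,7] (Pf.cons (Pf.B 9 7 (Pf.C 44 0x20487) (Pf.B 9 6 (Pf.B 9 5 (Pf.C 1 0x80a18009) (Pf.C 52 0x1018485)) (Pf.C 4 0x618487))) (Pf.cons (Pf.B 9 7 (Pf.C 44 0x20487) (Pf.B 9 6 (Pf.B 9 5 (Pf.C 1 0x80a18009) (Pf.C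 52 0x1018485)) (Pf.C 4 0x618487))) (Pf.cons (Pf.B 9 7 (Pf.C 3 50057) (Pf.C 2 905)) Pf.nil)))) Pf.nil)) Pf.nil)) (Pf.cons (Pf.C 51 0xe10188) Pf.nil))))) (Pf.B 8 5 (Pf.C 5 0xa0c406) (Pf.C 4 0x1018287))) (Pf.B 8 6 (Pf.B 8 5 (Pf.B 8 4 (Pf.C 1 0x50c10008) (Pf.C 1 0x31010280)) (Pf.B 8 4 (Pf.C 1 0x5100c004) (Pf.T 8 8 (Pf.cons (Pf.T 8 10 (Pf.cons (Pf.T 8 11 (Pf.cons (Pf.W 45 644 [] [0,6,8] (Pf.cons (Pf.T 9 6 (Pf.cons (Pf.C 51 0x1220305) (Pf.cons (Pf.C 46 649) Pf.nil))) (Pf.cons (Pf.T 9 6 (Pf.cons (Pf.C 51 0x1220304) (Pf.cons (Pf.C 46 521) Pf.nil))) (Pf.cons (Pf.B 9 8 (Pf.B 9 6 (Pf.C 1 0x80a18009) (Pf.C 5 0xa10486)) (Pf.C 5 0xa10488)) (Pf.cons (Pf.B 9 8 (Pf.B 9 6 (Pf.C 1 0x80818009) (Pf.C 5 0x814486)) (Pf.C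 5 0x814488)) Pf.nil))))) Pf.nil)) Pf.nil)) (Pf.cons (Pf.C 52 0xa10188) Pf.nil))))) (Pf.C 4 0x618407))) Pf.nil))) Pf.nil)) Pf.nil)))) (Pf.cons (Pf.B 7 6 (Pf.B 7 5 (Pf.B 7 4 (Pf.C 1 0x50c10007) (Pf.C 1 0x30e10280)) (Pf.B 7 4 (Pf.C 1 0x50e0c004) (Pf.T 7 8 (Pf.cons (Pf.T 7 10 (Pf.cons (Pf.T 7 11 (Pf.cons (Pf.W 45 644 [] [0,6,7] (Pf.cons (Pf.T 8 6 (Pf.cons (Pf.C 51 0x101c305) (Pf.cons (Pf.C 46 648) Pf.nil))) (Pf.cons (Pf.T 8 6 (Pf.cons (Pf.C 51 0x101c304) (Pf.cons (Pf.C 46 520) Pf.nil))) (Pf.cons (Pf.B 8 7 (Pf.B 8 6 (Pf.C 1 0x70a18008) (Pf.C 5 0xa10406)) (Pf.C 5 0xa10407)) (Pf.cons (Pf.B 8 7 (Pf.B 8 6 (Pf.C 1 0x70818008) (Pf.C 5 0x814406)) (Pf.C 5 0x814407)) Pf.nil))))) Pf.nil)) Pf.nil)) (Pf.cons (Pf.C 52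 0xa10187) Pf.nil))))) (Pf.B 7 5 (Pf.C 5 0xa0c386) (Pf.B 7 4 (Pf.C 5 0x80c386) (Pf.T 7 8 (Pf.cons (Pf.T 7 10 (Pf.cons (Pf.T 7 11 (Pf.cons (Pf.W 53 65926 [] [5,7] (Pf.cons (Pf.B 8 7 (Pf.C 5 0x1018383) (Pf.B 8 5 (Pf.C 5 0xa0c407) (Pf.C 52 0xe18405))) (Pf.cons (Pf.B 8 7 (Pf.C 5 0x1018383) (Pf.B 8 5 (Pf.C 5 0xa0c407) (Pf.C 52 0xe0c288))) (Pf.cons (Pf.B 8 7 (Pf.B 8 5 (Pf.C 44 49800) (Pf.C 4 0xe18288)) (Pf.C 4 0x618388)) Pf.nil)))) Pf.nil)) Pf.nil)) (Pf.cons (Pf.C 52 0xa10187) Pf.nil)))))) Pf.nil)))) (Pf.cons (Pf.B 6 5 (Pf.C 1 0x40c0c005) (Pf.C 52 0x80c286)) Pf.nil))) Pf.nil)) Pf.nil)))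
 (Pq.cons (Pq.L [] 3 (Pf.T 4 15 (Pf.cons (Pf.W 60 4 [] [5,6] (Pf.cons (Pf.C 52 0xc14384) (Pf.cons (Pf.C 52 0xc14384) Pf.nil))) Pf.nil)))
 Pq.nil)))
theorem h3_o28 : AllRef h3_T h3_G35 (hitObl [81,86] h3_h43) :=
  chkPq_sound h3_o28c _ (by decide +kernel)
noncomputable def h3_o29c : Pq := (Pq.cons (Pq.L [] 0 (Pf.C 64 4))
 (Pq.cons (Pq.L [] 0 (Pf.C 65 4))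
 Pq.nil))
theorem h3_o29 : AllRef h3_T h3_G36 (List.map pat1 [96,97]) :=
  chkPq_sound h3_o29c _ (by decide +kernel)
noncomputable def h3_o30c : Pq := (Pq.cons (Pq.L [0,3] 3 (Pf.B 6 5 (Pf.T 6 13 (Pf.cons (Pf.T 5 13 (Pf.cons (Pf.W 56 5 [] [3,4,6] (Pf.cons (Pf.B 7 6 (Pf.C 3 0x1c286) (Pf.B 7 4 (Pf.W 66 4 [] [3,6,7] (Pf.cons (Pf.B 8 7 (Pf.C 5 0xe10403) (Pf.B 8 6 (Pf.C 4 0x101c186) (Pf.C 4 0x80c406))) Pf.nil)) (Pf.C 4 0x80c386))) (Pf.cons (Pf.B 7 6 (Pf.C 3 0x1c286) (Pf.B 7 4 (Pf.W 66 4 [] [3,5,7] (Pf.cons (Pf.B 8 7 (Pf.C 5 0xe10403) (Pf.C 51 0xa0c407)) Pf.nil)) (Pf.C 4 0x80c386))) Pf.nil))) (Pf.cons (Pf.T 5 16 (Pf.cons (Pf.W 62 5 [] [0,3,4,6] (Pf.cons (Pf.B 7 4 (Pf.W 58 7 [] [3,4,6] (Pf.cons (Pf.B 8 4 (Pf.W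 66 4 [] [3,7,8] (Pf.cons (Pf.B 9 8 (Pf.C 5 0x1010483) (Pf.B 9 7 (Pf.C 5 0xe0c488) (Pf.C 5 0x820389))) Pf.nil)) (Pf.C 5 0xe0c208)) (Pf.cons (Pf.B 8 6 (Pf.C 51 0xc1c188) (Pf.B 8 4 (Pf.W 66 4 [] [3,7,8] (Pf.cons (Pf.B 9 8 (Pf.C 5 0x1010483) (Pf.C 52 0xe0c488)) Pf.nil)) (Pf.C 4 0x80c406))) Pf.nil))) (Pf.W 66 4 [] [3,5,7] (Pf.cons (Pf.B 8 7 (Pf.C 5 0xe0c404) (Pf.B 8 5 (Pf.C 57 1029) (Pf.C 4 0xe10405))) Pf.nil))) (Pf.cons (Pf.B 7 4 (Pf.W 60 7 [] [0,3,4,5,6] (Pf.cons (Pf.B 8 4 (Pf.W 49 4 [3,6] [0,5,7,8] (Pf.cons (Pf.B 9 6 (Pf.C 3 66313) (Pf.C 2 777)) (Pf.cons (Pf.B 9 7 (Pf.B 9 3 (Pf.C 1 0x30824380) (Pf.B 9 8 (Pf.C 5 0x1010483) (Pf.C 5 0xe0c488))) (Pf.C 51 0xa20487)) Pf.nil))) (Pf.C 5 0xe0c208)) (Pf.cons (Pf.B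 8 6 (Pf.C 51 0xc1c188) (Pf.B 8 4 (Pf.W 49 4 [3,6] [0,5,7,8] (Pf.cons (Pf.B 9 6 (Pf.C 3 66313) (Pf.C 2 777)) (Pf.cons (Pf.B 9 8 (Pf.B 9 7 (Pf.B 9 3 (Pf.C 1 0x7100c009) (Pf.C 5 0x1010483)) (Pf.C 51 0xa20487)) (Pf.C 52 0xe0c488)) Pf.nil))) (Pf.C 4 0x80c406))) Pf.nil))) (Pf.W 66 4 [] [3,5,7] (Pf.cons (Pf.B 8 7 (Pf.C 5 0xe0c404) (Pf.C 51 0xa10407)) Pf.nil))) Pf.nil))) Pf.nil)) Pf.nil))) (Pf.cons (Pf.C 57 518) Pf.nil))) (Pf.C 2 646)))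
 (Pq.cons (Pq.L [0,3] 3 (Pf.B 6 5 (Pf.C 1 0x30814006) (Pf.T 5 14 (Pf.cons (Pf.T 6 14 (Pf.cons (Pf.W 66 4 [] [3,5,6] (Pf.cons (Pf.B 7 6 (Pf.B 7 5 (Pf.C 5 0xa0c384) (Pf.C 5 0xc10385)) (Pf.C 5 0xc10187)) Pf.nil)) Pf.nil)) Pf.nil))))
 (Pq.cons (Pq.L [0,3] 3 (Pf.B 6 5 (Pf.C 5 0xc10283) (Pf.W 49 4 [3,5] [0,6] (Pf.cons (Pf.B 7 6 (Pf.C 44 66311) (Pf.B 7 5 (Pf.B 7 3 (Pf.T 7 7 (Pf.cons (Pf.C 48 0xa10187) Pf.nil)) (Pf.C 4 0xa18187)) (Pf.B 7 3 (Pf.C 4 0x618287) (Pf.C 4 0x814187)))) (Pf.cons (Pf.B 7 6 (Pf.B 7 5 (Pf.B 7 3 (Pf.C 5 0xe14184) (Pf.C 5 0xc10383)) (Pf.C 5 0xc10385)) (Pf.B 7 5 (Pf.B 7 3 (Pf.C 5 0xe14184) (Pf.T 7 8 (Pf.cons (Pf.T 7 10 (Pf.cons (Pf.T 7 11 (Pf.cons (Pf.W 45 772 [] [0,3,5,7] (Pf.cons (Pf.B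 8 7 (Pf.B 8 5 (Pf.C 44 0x1c288) (Pf.B 8 3 (Pf.C 4 0x614208) (Pf.C 4 0xe10188))) (Pf.B 8 3 (Pf.C 4 0x61c208) (Pf.C 4 0xc1c188))) (Pf.cons (Pf.B 8 7 (Pf.B 8 5 (Pf.C 44 0x1c288) (Pf.B 8 3 (Pf.C 4 0x618288) (Pf.C 4 0x814188))) (Pf.B 8 3 (Pf.C 4 0x61c308) (Pf.C 4 0x81c188))) (Pf.cons (Pf.B 8 7 (Pf.B 8 5 (Pf.C 1 0x70c14008) (Pf.C 5 0xc10405)) (Pf.C 5 0xc10407)) (Pf.cons (Pf.B 8 7 (Pf.B 8 5 (Pf.C 1 0x70814008) (Pf.C 5 0x818405)) (Pf.C 5 0x818407)) Pf.nil))))) Pf.nil)) Pf.nil)) (Pf.cons (Pf.C 52 0xc10187) Pf.nil)))) (Pf.T 7 8 (Pf.cons (Pf.T 7 10 (Pf.cons (Pf.T 7 11 (Pf.cons (Pf.T 7 14 (Pf.cons (Pf.W 45 772 [] [3,5,7] (Pf.cons (Pf.B 8 7 (Pf.B 8 5 (Pf.B 8 3 (Pf.C 44 0x1c188) (Pf.C 4 0xa10188)) (Pf.C 4 0xe10288))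 (Pf.B 8 5 (Pf.C 4 0xa1c208) (Pf.C 4 0xc1c288))) (Pf.cons (Pf.B 8 7 (Pf.B 8 5 (Pf.B 8 3 (Pf.C 44 0x1c188) (Pf.C 4 0xa18188)) (Pf.C 4 0xe18288)) (Pf.B 8 5 (Pf.C 4 0xa1c308) (Pf.C 4 0x81c288))) (Pf.cons (Pf.B 8 7 (Pf.B 8 5 (Pf.C 5 0x101c284) (Pf.C 5 0xc10405)) (Pf.C 5 0xc10407)) (Pf.cons (Pf.B 8 7 (Pf.B 8 5 (Pf.C 5 0x101c286) (Pf.C 5 0x818405)) (Pf.C 5 0x818407)) Pf.nil))))) Pf.nil)) (Pf.cons (Pf.W 45 772 [] [3,5,7] (Pf.cons (Pf.B 8 7 (Pf.B 8 5 (Pf.B 8 3 (Pf.T 8 6 (Pf.cons (Pf.T 8 7 (Pf.cons (Pf.C 48 0xc14188) Pf.nil)) (Pf.cons (Pf.C 46 392) Pf.nil))) (Pf.C 4 0xa10188)) (Pf.C 4 0xe10288)) (Pf.B 8 5 (Pf.C 4 0xa1c208) (Pf.C 4 0xc1c288))) (Pf.cons (Pf.B 8 7 (Pf.B 8 5 (Pf.B 8 3 (Pf.T 8 6 (Pf.cons (Pf.T 8 7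 (Pf.cons (Pf.C 48 0xa10188) Pf.nil)) (Pf.cons (Pf.C 46 392) Pf.nil))) (Pf.C 4 0xa18188)) (Pf.C 4 0xe18288)) (Pf.B 8 5 (Pf.C 4 0xa1c308) (Pf.C 4 0x81c288))) (Pf.cons (Pf.B 8 7 (Pf.B 8 5 (Pf.C 5 0x101c284) (Pf.C 5 0xc10405)) (Pf.C 5 0xc10407)) (Pf.cons (Pf.B 8 7 (Pf.B 8 5 (Pf.C 5 0x101c286) (Pf.C 5 0x818405)) (Pf.C 5 0x818407)) Pf.nil))))) Pf.nil))) Pf.nil)) (Pf.cons (Pf.C 52 0xc14207) Pf.nil))))) Pf.nil)))))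
 (Pq.cons (Pq.L [3] 3 (Pf.B 6 5 (Pf.C 5 0xc10283) (Pf.C 52 0x80c305)))
 Pq.nil))))
theorem h3_o30 : AllRef h3_T h3_G38 (splitObl [82,84,99,87] [98]) :=
  chkPq_sound h3_o30c _ (by decide +kernel)
noncomputable def h3_o31c : Pq := (Pq.cons (Pq.L [] 2 (Pf.C 2 772))
 (Pq.cons (Pq.L [0,3] 7 (Pf.T 4 14 (Pf.cons (Pf.W 58 4 [] [0,3,5,6] (Pf.cons (Pf.B 7 6 (Pf.B 7 5 (Pf.C 1 0x6081c005) (Pf.C 1 0x30e14300)) (Pf.C 5 0x610307)) (Pf.cons (Pf.B 7 6 (Pf.B 7 5 (Pf.C 1 0x6081c005) (Pf.C 52 0x80c287)) (Pf.C 5 0x610307)) Pf.nil))) Pf.nil)))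
 (Pq.cons (Pq.L [0,3] 7 (Pf.C 1 0x30c10280))
 (Pq.cons (Pq.L [0,3] 7 (Pf.C 1 0x30c10280))
 (Pq.cons (Pq.L [] 2 (Pf.C 67 772))
 (Pq.cons (Pq.L [3] 7 (Pf.C 5 0xa18203))
 (Pq.cons (Pq.L [3] 7 (Pf.C 5 0xa18203))
 (Pq.cons (Pq.L [3] 7 (Pf.C 5 0xa18203))
 Pq.nil))))))))
theorem h3_o31 : AllRef h3_T h3_G38 (twinObl [82,84,99,87] 0 [14,1,3,3]) :=
  chkPq_sound h3_o31c _ (by decide +kernel)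
noncomputable def h3_o32c : Pq := (Pq.cons (Pq.L [] 0 (Pf.C 69 644))
 Pq.nil)
theorem h3_o32 : AllRef h3_T h3_G40 (hitObl [101] h3_h50) :=
  chkPq_sound h3_o32c _ (by decide +kernel)
noncomputable def h3_o33c : Pq := (Pq.cons (Pq.L [] 0 (Pf.C 70 4))
 Pq.nil)
theorem h3_o33 : AllRef h3_T h3_G42 (List.map pat1 [104]) :=
  chkPq_sound h3_o33c _ (by decide +kernel)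
noncomputable def h3_o34c : Pq := (Pq.cons (Pq.D 0 (Pq.cons (Pq.D 1 (Pq.cons (Pq.L [] 1 (Pf.C 2 644))
 (Pq.cons (Pq.D 2 (Pq.cons (Pq.L [] 2 (Pf.C 2 772))
 (Pq.cons (Pq.L [] 3 (Pf.B 6 5 (Pf.C 44 82692) (Pf.C 67 646)))
 (Pq.cons (Pq.L [3] 3 (Pf.B 6 5 (Pf.C 44 82692) (Pf.C 51 0x80c286)))
 Pq.nil)))) (Pq.cons (Pq.D 2 (Pq.cons (Pq.L [] 2 (Pf.C 2 772))
 (Pq.cons (Pq.L [3] 3 (Pf.B 6 5 (Pf.C 44 82692) (Pf.C 51 0x80c305)))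
 (Pq.cons (Pq.L [3] 3 (Pf.B 6 5 (Pf.C 44 82692) (Pf.C 51 0x80c286)))
 Pq.nil)))) Pq.nil)))) (Pq.cons (Pq.D 1 (Pq.cons (Pq.D 2 (Pq.cons (Pq.L [] 3 (Pf.B 6 5 (Pf.C 3 66182) (Pf.C 2 646)))
 (Pq.cons (Pq.L [] 2 (Pf.C 67 772))
 (Pq.cons (Pq.L [3] 3 (Pf.B 6 5 (Pf.C 51 0xa10186) (Pf.C 4 0x80c305)))
 Pq.nil)))) (Pq.cons (Pq.L [] 1 (Pf.C 67 644))
 (Pq.cons (Pq.D 2 (Pq.cons (Pq.L [3] 3 (Pf.B 6 5 (Pf.C 51 0xc10185) (Pf.C 4 0x80c286)))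
 (Pq.cons (Pq.L [] 2 (Pf.C 67 772))
 (Pq.cons (Pq.L [3] 7 (Pf.B 6 5 (Pf.B 7 6 (Pf.B 7 5 (Pf.W 68 773 [] [3,4] (Pf.cons (Pf.C 51 0x1010186) (Pf.cons (Pf.C 51 0x1010185) (Pf.cons (Pf.C 52 0x80c405) (Pf.cons (Pf.C 52 0x80c406) Pf.nil))))) (Pf.B 7 4 (Pf.W 68 773 [] [3,4] (Pf.cons (Pf.C 51 0x1010186) (Pf.cons (Pf.C 51 0x1010185) (Pf.cons (Pf.C 52 0x80c405) (Pf.cons (Pf.C 52 0x80c406) Pf.nil))))) (Pf.C 0 0x50c1c184))) (Pf.B 7 5 (Pf.B 7 4 (Pf.W 68 773 [] [3,4] (Pf.cons (Pf.C 51 0x1010186) (Pf.cons (Pf.C 51 0x1010185) (Pf.cons (Pf.C 52 0x80c405) (Pf.cons (Pf.C 52 0x80c406) Pf.nil))))) (Pf.C 0 0x60a1c184)) (Pf.W 68 773 [] [3,4] (Pf.cons (Pf.C 51 0x1010186) (Pf.cons (Pf.C 51 0x1010185) (Pf.cons (Pf.C 52 0x80c405)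 (Pf.cons (Pf.C 52 0x80c406) Pf.nil))))))) (Pf.C 52 0x80c286)))
 Pq.nil)))) Pq.nil)))) (Pq.cons (Pq.D 1 (Pq.cons (Pq.D 2 (Pq.cons (Pq.L [3] 3 (Pf.C 50 0xc14184))
 (Pq.cons (Pq.L [3] 3 (Pf.C 51 0xa18184))
 (Pq.cons (Pq.L [3] 3 (Pf.C 51 0xa18184))
 Pq.nil)))) (Pq.cons (Pq.D 2 (Pq.cons (Pq.L [3] 3 (Pf.C 51 0xc14184))
 (Pq.cons (Pq.L [3] 3 (Pf.C 52 0xc14184))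
 (Pq.cons (Pq.L [3] 3 (Pf.C 52 0xc14184))
 Pq.nil)))) (Pq.cons (Pq.D 2 (Pq.cons (Pq.L [3] 3 (Pf.C 51 0xc14184))
 (Pq.cons (Pq.L [3] 3 (Pf.C 52 0xc14184))
 (Pq.cons (Pq.L [3] 3 (Pf.C 52 0xc14184))
 Pq.nil)))) Pq.nil)))) Pq.nil)))) Pq.nil)
theorem h3_o34 : AllRef h3_T h3_G43 (applyObl TD2 1 [100,102,103] [0,0,0] [(100,0xc0000000000000000000000000),(102,0x10000000000000000000000000),(103,0x10000000000000000000000000)]) :=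
  chkPq_sound h3_o34c _ (by decide +kernel)
noncomputable def h3_o35c : Pq := Pq.nil
theorem h3_o35 : AllRef h3_T h3_G41 (ptObl 101 PT.kid []) :=
  chkPq_sound h3_o35c _ (by decide +kernel)
noncomputable def h3_o36c : Pq := (Pq.cons (Pq.L [3,4,5] 0 (Pf.C 52 0xa10186))
 Pq.nil)
theorem h3_o36 : AllRef h3_T h3_G44 (ptObl 103 (PT.br 4 (PT.br 5 PT.kid PT.kid) (PT.br 5 PT.kid PT.ref)) []) :=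
  chkPq_sound h3_o36c _ (by decide +kernel)
noncomputable def h3_o37c : Pq := (Pq.cons (Pq.L [0,3,4] 0 (Pf.B 7 6 (Pf.C 1 0x6061c200) (Pf.T 4 14 (Pf.cons (Pf.W 58 4 [] [3,6,7] (Pf.cons (Pf.B 8 7 (Pf.B 8 6 (Pf.C 5 0x101c303) (Pf.C 5 0x80c308)) (Pf.C 5 0x80c388)) (Pf.cons (Pf.B 8 7 (Pf.B 8 6 (Pf.C 5 0x101c303) (Pf.C 5 0x80c308)) (Pf.C 5 0x80c388)) Pf.nil))) Pf.nil))))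
 (Pq.cons (Pq.L [0,3,4,5] 0 (Pf.B 7 6 (Pf.C 1 0x6061c200) (Pf.C 52 0xa0c307)))
 (Pq.cons (Pq.L [0,3,4,5] 0 (Pf.B 7 6 (Pf.C 1 0x6061c280) (Pf.C 52 0x80c307)))
 Pq.nil)))
theorem h3_o37 : AllRef h3_T h3_G45 (hitObl [106,107,108] h3_h56) :=
  chkPq_sound h3_o37c _ (by decide +kernel)
noncomputable def h3_o38c : Pq := (Pq.cons (Pq.L [] 0 (Pf.C 71 6))
 (Pq.cons (Pq.L [] 0 (Pf.C 72 6))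
 (Pq.cons (Pq.L [] 0 (Pf.C 73 6))
 Pq.nil)))
theorem h3_o38 : AllRef h3_T h3_G46 (List.map pat1 [109,110,111]) :=
  chkPq_sound h3_o38c _ (by decide +kernel)
noncomputable def h3_o39c : Pq := (Pq.cons (Pq.D 0 (Pq.cons (Pq.D 1 (Pq.cons (Pq.L [] 1 (Pf.C 2 902))
 (Pq.cons (Pq.D 2 (Pq.cons (Pq.L [] 2 (Pf.C 2 1030))
 (Pq.cons (Pq.D 3 (Pq.cons (Pq.L [] 4 (Pf.C 2 1158))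
 (Pq.cons (Pq.L [] 7 (Pf.C 48 0x1220386))
 (Pq.cons (Pq.L [] 7 (Pf.C 48 0x1220386))
 Pq.nil)))) (Pq.cons (Pq.D 3 (Pq.cons (Pq.L [] 4 (Pf.C 2 1158))
 (Pq.cons (Pq.L [] 7 (Pf.C 48 0x1220386))
 (Pq.cons (Pq.L [] 7 (Pf.C 48 0x1220386))
 Pq.nil)))) Pq.nil)))) (Pq.cons (Pq.D 2 (Pq.cons (Pq.L [] 2 (Pf.C 2 1030))
 (Pq.cons (Pq.D 3 (Pq.cons (Pq.L [] 4 (Pf.C 2 1158))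
 (Pq.cons (Pq.L [] 7 (Pf.C 48 0x1220386))
 (Pq.cons (Pq.L [] 7 (Pf.C 48 0x1220386))
 Pq.nil)))) (Pq.cons (Pq.L [] 3 (Pf.B 8 7 (Pf.C 44 0x1c406) (Pf.C 67 904)))
 Pq.nil)))) Pq.nil)))) (Pq.cons (Pq.D 1 (Pq.cons (Pq.D 2 (Pq.cons (Pq.L [] 3 (Pf.B 8 7 (Pf.C 3 99208) (Pf.C 2 904)))
 (Pq.cons (Pq.D 3 (Pq.cons (Pq.L [] 5 (Pf.B 9 7 (Pf.C 3 99209) (Pf.C 2 905)))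
 (Pq.cons (Pq.L [0,3] 7 (Pf.B 9 8 (Pf.C 1 0x80c24180) (Pf.B 9 7 (Pf.T 9 14 (Pf.cons (Pf.W 58 9 [] [3,6,8] (Pf.cons (Pf.B 10 8 (Pf.B 10 6 (Pf.C 5 0x1420309) (Pf.C 5 0x62430a)) (Pf.C 5 0x62440a)) (Pf.cons (Pf.B 10 8 (Pf.B 10 6 (Pf.C 5 0x1420309) (Pf.C 5 0x62430a)) (Pf.C 5 0x62440a)) Pf.nil))) Pf.nil)) (Pf.B 8 7 (Pf.T 9 14 (Pf.cons (Pf.W 58 9 [] [3,6,7,8] (Pf.cons (Pf.B 10 8 (Pf.B 10 7 (Pf.C 44 0x20507) (Pf.B 10 6 (Pf.C 5 0x1420309) (Pf.C 4 0xc24507))) (Pf.C 5 0x62440a)) (Pf.cons (Pf.B 10 8 (Pf.B 10 7 (Pf.C 44 0x20507) (Pf.B 10 6 (Pf.C 5 0x1420309) (Pf.C 4 0xc24507))) (Pf.C 5 0x62440a)) Pf.nil))) Pf.nil)) (Pf.C 4 0xc24407)))))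
 (Pq.cons (Pq.L [0,3,5] 7 (Pf.B 9 8 (Pf.B 8 7 (Pf.T 8 14 (Pf.cons (Pf.W 58 8 [] [0,3,6,9] (Pf.cons (Pf.B 10 9 (Pf.B 10 6 (Pf.C 1 0x90628006) (Pf.C 5 0x62030a)) (Pf.C 67 1289)) (Pf.cons (Pf.B 10 9 (Pf.B 10 6 (Pf.C 1 0x90628006) (Pf.C 5 0x62030a)) (Pf.C 5 0x100c48a)) Pf.nil))) Pf.nil)) (Pf.T 8 14 (Pf.cons (Pf.W 58 8 [] [0,3,6,7,9] (Pf.cons (Pf.B 10 9 (Pf.B 10 6 (Pf.C 1 0x90628006) (Pf.C 5 0x62030a)) (Pf.C 67 1289)) (Pf.cons (Pf.B 10 9 (Pf.B 10 7 (Pf.C 51 0xe2018a) (Pf.B 10 6 (Pf.C 1 0x90628006) (Pf.C 4 0xc20507))) (Pf.C 5 0x100c48a)) Pf.nil))) Pf.nil))) (Pf.T 8 14 (Pf.cons (Pf.T 6 14 (Pf.cons (Pf.T 5 14 (Pf.cons (Pf.B 9 5 (Pf.B 8 5 (Pf.C 1 0x31220005) (Pf.B 6 5 (Pf.C 1 0x51018180) (Pf.C 5 0x1214308)))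 (Pf.B 8 5 (Pf.B 6 5 (Pf.C 1 0x31214006) (Pf.C 1 0x80c14180)) (Pf.C 5 0x614409))) Pf.nil)) Pf.nil)) Pf.nil))))
 Pq.nil)))) (Pq.cons (Pq.D 3 (Pq.cons (Pq.L [] 5 (Pf.B 9 7 (Pf.C 3 99209) (Pf.C 2 905)))
 (Pq.cons (Pq.L [0,3,5] 7 (Pf.B 9 8 (Pf.B 9 7 (Pf.T 9 14 (Pf.cons (Pf.W 58 9 [] [0,3,6,8] (Pf.cons (Pf.B 10 8 (Pf.B 10 6 (Pf.C 1 0x80628006) (Pf.C 5 0x62430a)) (Pf.C 67 1288)) (Pf.cons (Pf.B 10 8 (Pf.B 10 6 (Pf.C 1 0x80628006) (Pf.C 5 0x62430a)) (Pf.C 5 0x120c40a)) Pf.nil))) Pf.nil)) (Pf.T 9 14 (Pf.cons (Pf.W 58 9 [] [0,3,6,7,8] (Pf.cons (Pf.B 10 8 (Pf.B 10 6 (Pf.C 1 0x80628006) (Pf.C 5 0x62430a)) (Pf.C 67 1288)) (Pf.cons (Pf.B 10 8 (Pf.B 10 7 (Pf.C 51 0xe2418a) (Pf.B 10 6 (Pf.C 1 0x80628006) (Pf.C 4 0xc24507)))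 (Pf.C 5 0x120c40a)) Pf.nil))) Pf.nil))) (Pf.T 9 14 (Pf.cons (Pf.T 6 14 (Pf.cons (Pf.T 5 14 (Pf.cons (Pf.B 9 5 (Pf.B 8 5 (Pf.C 1 0x9100c005) (Pf.B 6 5 (Pf.C 1 0x31014006) (Pf.C 1 0x90c14180))) (Pf.B 8 5 (Pf.B 6 5 (Pf.C 1 0x51218180) (Pf.C 5 0x1014309)) (Pf.C 5 0x624288))) Pf.nil)) Pf.nil)) Pf.nil))))
 (Pq.cons (Pq.L [0,3] 6 (Pf.B 9 8 (Pf.C 1 0x80624300) (Pf.C 67 1033)))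
 Pq.nil)))) Pq.nil)))) (Pq.cons (Pq.D 2 (Pq.cons (Pq.D 3 (Pq.cons (Pq.L [] 6 (Pf.B 9 8 (Pf.C 3 99337) (Pf.C 2 1033)))
 (Pq.cons (Pq.L [0,3] 7 (Pf.B 9 7 (Pf.C 1 0x70c24180) (Pf.B 9 8 (Pf.B 8 7 (Pf.C 48 0x1218388) (Pf.T 9 14 (Pf.cons (Pf.W 58 9 [] [3,6,7,8] (Pf.cons (Pf.B 10 8 (Pf.C 48 0x1218508) (Pf.B 10 7 (Pf.B 10 6 (Pf.C 5 0x141c309) (Pf.C 5 0x62430a)) (Pf.C 4 0x121c508))) (Pf.cons (Pf.B 10 8 (Pf.C 48 0x1218508) (Pf.B 10 7 (Pf.B 10 6 (Pf.C 5 0x141c309) (Pf.C 5 0x62430a)) (Pf.C 4 0x121c508))) Pf.nil))) Pf.nil))) (Pf.B 8 7 (Pf.T 9 14 (Pf.cons (Pf.W 58 9 [] [6,7,8] (Pf.cons (Pf.B 10 8 (Pf.C 48 0xe18508) (Pf.B 10 7 (Pf.B 10 6 (Pf.C 5 0x141c309) (Pf.C 4 0xc24508)) (Pf.C 4 0xe24508))) (Pf.cons (Pf.B 10 8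 (Pf.C 48 0xe18508) (Pf.B 10 7 (Pf.B 10 6 (Pf.C 5 0x141c309) (Pf.C 4 0xc24508)) (Pf.C 4 0xe24508))) Pf.nil))) Pf.nil)) (Pf.C 4 0xc24388)))))
 (Pq.cons (Pq.L [0,3,5] 7 (Pf.B 9 7 (Pf.B 8 7 (Pf.T 7 14 (Pf.cons (Pf.W 58 7 [] [0,3,6,9] (Pf.cons (Pf.B 10 9 (Pf.B 10 6 (Pf.C 1 0x90628006) (Pf.C 5 0x61c30a)) (Pf.C 67 1289)) (Pf.cons (Pf.B 10 9 (Pf.B 10 6 (Pf.C 1 0x90628006) (Pf.C 5 0x61c30a)) (Pf.C 5 0xe0c48a)) Pf.nil))) Pf.nil)) (Pf.T 7 14 (Pf.cons (Pf.W 58 7 [] [0,3,6,8,9] (Pf.cons (Pf.B 10 9 (Pf.B 10 6 (Pf.C 1 0x90628006) (Pf.C 5 0x61c30a)) (Pf.C 67 1289)) (Pf.cons (Pf.B 10 9 (Pf.B 10 8 (Pf.C 51 0x101c18a) (Pf.B 10 6 (Pf.C 1 0x90628006) (Pf.C 4 0xc1c508))) (Pf.C 5 0xe0c48a)) Pf.nil))) Pf.nil))) (Pf.T 7 14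 (Pf.cons (Pf.T 6 14 (Pf.cons (Pf.T 5 14 (Pf.cons (Pf.B 9 5 (Pf.B 7 5 (Pf.C 1 0x3121c005) (Pf.B 6 5 (Pf.C 1 0x50e18180) (Pf.C 5 0x1214307))) (Pf.B 7 5 (Pf.B 6 5 (Pf.C 1 0x31214006) (Pf.C 1 0x70c14180)) (Pf.C 5 0x614389))) Pf.nil)) Pf.nil)) Pf.nil))))
 Pq.nil)))) (Pq.cons (Pq.D 3 (Pq.cons (Pq.L [0,3] 7 (Pf.B 8 7 (Pf.C 1 0x70c20180) (Pf.B 9 8 (Pf.B 9 7 (Pf.C 48 0x1018389) (Pf.T 8 14 (Pf.cons (Pf.W 58 8 [] [3,6,7,9] (Pf.cons (Pf.B 10 9 (Pf.C 48 0x1018509) (Pf.B 10 7 (Pf.B 10 6 (Pf.C 5 0x141c308) (Pf.C 5 0x62030a)) (Pf.C 4 0x101c509))) (Pf.cons (Pf.B 10 9 (Pf.C 48 0x1018509) (Pf.B 10 7 (Pf.B 10 6 (Pf.C 5 0x141c308) (Pf.C 5 0x62030a)) (Pf.C 4 0x101c509))) Pf.nil))) Pf.nil))) (Pf.B 9 7 (Pf.T 8 14 (Pf.cons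 (Pf.W 58 8 [] [6,7,9] (Pf.cons (Pf.B 10 9 (Pf.C 48 0xe18509) (Pf.B 10 7 (Pf.B 10 6 (Pf.C 5 0x141c308) (Pf.C 4 0xc20509)) (Pf.C 4 0xe20509))) (Pf.cons (Pf.B 10 9 (Pf.C 48 0xe18509) (Pf.B 10 7 (Pf.B 10 6 (Pf.C 5 0x141c308) (Pf.C 4 0xc20509)) (Pf.C 4 0xe20509))) Pf.nil))) Pf.nil)) (Pf.C 4 0xc20389)))))
 (Pq.cons (Pq.L [0,3] 7 (Pf.B 9 8 (Pf.C 1 0x80c24180) (Pf.B 9 7 (Pf.C 1 0x70c24180) (Pf.B 8 7 (Pf.C 1 0x70c20180) (Pf.T 9 14 (Pf.cons (Pf.W 58 9 [] [3,7,8] (Pf.cons (Pf.B 10 8 (Pf.B 10 7 (Pf.C 5 0x1420389) (Pf.C 5 0x62438a)) (Pf.C 5 0x62440a)) (Pf.cons (Pf.B 10 8 (Pf.B 10 7 (Pf.C 5 0x1420389) (Pf.C 5 0x62438a)) (Pf.C 5 0x62440a)) Pf.nil))) Pf.nil))))))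
 (Pq.cons (Pq.L [0,3] 7 (Pf.B 8 7 (Pf.C 1 0x70c20180) (Pf.B 9 8 (Pf.B 9 7 (Pf.T 8 14 (Pf.cons (Pf.W 58 8 [] [0,3,7,9] (Pf.cons (Pf.B 10 9 (Pf.B 10 7 (Pf.C 1 0x90628007) (Pf.C 5 0x62038a)) (Pf.C 67 1289)) (Pf.cons (Pf.B 10 9 (Pf.B 10 7 (Pf.C 1 0x90628007) (Pf.C 5 0x62038a)) (Pf.C 5 0x100c48a)) Pf.nil))) Pf.nil)) (Pf.C 5 0x1220307)) (Pf.B 9 7 (Pf.C 5 0x1218388) (Pf.C 5 0x620389)))))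
 Pq.nil)))) (Pq.cons (Pq.D 3 (Pq.cons (Pq.L [0,3,5] 7 (Pf.B 9 8 (Pf.C 44 99337) (Pf.B 9 7 (Pf.B 9 5 (Pf.C 48 0xe18289) (Pf.B 8 7 (Pf.T 7 14 (Pf.cons (Pf.W 58 7 [] [0,3,6,8] (Pf.cons (Pf.B 10 8 (Pf.B 10 6 (Pf.C 1 0x80628006) (Pf.C 5 0x61c30a)) (Pf.C 67 1288)) (Pf.cons (Pf.B 10 8 (Pf.B 10 6 (Pf.C 1 0x80628006) (Pf.C 5 0x61c30a)) (Pf.C 5 0xe0c40a)) Pf.nil))) Pf.nil)) (Pf.T 7 14 (Pf.cons (Pf.T 6 14 (Pf.cons (Pf.T 5 14 (Pf.cons (Pf.T 9 13 (Pf.cons (Pf.W 56 9 [] [6,7] (Pf.cons (Pf.C 48 0xe18509) (Pf.cons (Pf.C 48 0xe18509) Pf.nil))) (Pf.cons (Pf.T 9 16 (Pf.cons (Pf.B 8 5 (Pf.B 7 5 (Pf.C 1 0x3101c005) (Pf.B 6 5 (Pf.C 1 0x50e18180) (Pf.C 5 0x1014307))) (Pf.B 7 5 (Pf.B 6 5 (Pf.C 1 0x31014006) (Pf.C 1 0x70c14180))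 (Pf.C 4 0xe20289))) Pf.nil)) Pf.nil))) Pf.nil)) Pf.nil)) Pf.nil)))) (Pf.B 8 7 (Pf.T 7 14 (Pf.cons (Pf.W 58 7 [] [0,3,6,8,9] (Pf.cons (Pf.B 10 8 (Pf.B 10 6 (Pf.C 1 0x80628006) (Pf.C 5 0x61c30a)) (Pf.C 67 1288)) (Pf.cons (Pf.B 10 9 (Pf.C 51 0x121c18a) (Pf.B 10 8 (Pf.B 10 6 (Pf.C 1 0x80628006) (Pf.C 4 0xc1c509)) (Pf.C 5 0xe0c40a))) Pf.nil))) Pf.nil)) (Pf.T 7 14 (Pf.cons (Pf.T 6 14 (Pf.cons (Pf.T 5 14 (Pf.cons (Pf.T 9 13 (Pf.cons (Pf.B 9 5 (Pf.B 6 5 (Pf.C 44 82697) (Pf.B 7 5 (Pf.C 1 0x50c1c180) (Pf.B 8 5 (Pf.C 5 0x1018287) (Pf.C 4 0xa1c409)))) (Pf.B 8 5 (Pf.B 7 5 (Pf.C 1 0x3101c005) (Pf.B 6 5 (Pf.C 1 0x50e18180) (Pf.C 4 0xc1c289))) (Pf.B 7 5 (Pf.B 6 5 (Pf.C 1 0x31014006) (Pf.C 1 0x70c14180)) (Pf.C 5 0x614388))))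 (Pf.cons (Pf.T 9 16 (Pf.cons (Pf.B 9 5 (Pf.B 6 5 (Pf.C 44 82697) (Pf.B 7 5 (Pf.C 1 0x50c1c180) (Pf.B 8 5 (Pf.C 5 0x1018287) (Pf.C 4 0xa1c409)))) (Pf.B 8 5 (Pf.B 7 5 (Pf.C 1 0x3101c005) (Pf.B 6 5 (Pf.C 1 0x50e18180) (Pf.C 4 0xc1c289))) (Pf.B 7 5 (Pf.B 6 5 (Pf.C 1 0x31014006) (Pf.C 1 0x70c14180)) (Pf.C 5 0x614388)))) Pf.nil)) Pf.nil))) Pf.nil)) Pf.nil)) Pf.nil))))))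
 (Pq.cons (Pq.L [0,3] 7 (Pf.B 9 7 (Pf.C 1 0x70c24180) (Pf.B 9 8 (Pf.B 8 7 (Pf.T 9 14 (Pf.cons (Pf.W 58 9 [] [0,3,7,8] (Pf.cons (Pf.B 10 8 (Pf.B 10 7 (Pf.C 1 0x80628007) (Pf.C 5 0x62438a)) (Pf.C 67 1288)) (Pf.cons (Pf.B 10 8 (Pf.B 10 7 (Pf.C 1 0x80628007) (Pf.C 5 0x62438a)) (Pf.C 5 0x120c40a)) Pf.nil))) Pf.nil)) (Pf.C 5 0x1024307)) (Pf.B 8 7 (Pf.C 5 0x1018389) (Pf.C 5 0x624388)))))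
 (Pq.cons (Pq.L [0,3] 6 (Pf.B 9 8 (Pf.C 1 0x80624300) (Pf.C 67 1033)))
 Pq.nil)))) Pq.nil)))) (Pq.cons (Pq.D 2 (Pq.cons (Pq.D 3 (Pq.cons (Pq.L [] 6 (Pf.B 9 8 (Pf.C 3 99337) (Pf.C 2 1033)))
 (Pq.cons (Pq.L [0,3,5] 7 (Pf.B 8 7 (Pf.C 44 99208) (Pf.B 9 8 (Pf.B 8 5 (Pf.C 48 0x1218288) (Pf.B 9 7 (Pf.T 9 14 (Pf.cons (Pf.W 58 9 [] [0,3,6,7] (Pf.cons (Pf.B 10 7 (Pf.B 10 6 (Pf.C 1 0x70628006) (Pf.C 5 0x62430a)) (Pf.C 67 1287)) (Pf.cons (Pf.B 10 7 (Pf.B 10 6 (Pf.C 1 0x70628006) (Pf.C 5 0x62430a)) (Pf.C 5 0x120c38a)) Pf.nil))) Pf.nil)) (Pf.T 9 14 (Pf.cons (Pf.T 6 14 (Pf.cons (Pf.T 5 14 (Pf.cons (Pf.T 8 13 (Pf.cons (Pf.W 56 8 [] [6,9] (Pf.cons (Pf.C 48 0x1218508) (Pf.cons (Pf.C 48 0x1218508) Pf.nil))) (Pf.cons (Pf.T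 8 16 (Pf.cons (Pf.B 9 5 (Pf.B 7 5 (Pf.C 1 0x90e0c005) (Pf.B 6 5 (Pf.C 1 0x30e14006) (Pf.C 1 0x90c14180))) (Pf.B 7 5 (Pf.B 6 5 (Pf.C 1 0x51218180) (Pf.C 5 0xe14309)) (Pf.C 4 0x1214388))) Pf.nil)) Pf.nil))) Pf.nil)) Pf.nil)) Pf.nil)))) (Pf.B 9 7 (Pf.T 9 14 (Pf.cons (Pf.W 58 9 [] [0,3,6,7,8] (Pf.cons (Pf.B 10 7 (Pf.B 10 6 (Pf.C 1 0x70628006) (Pf.C 5 0x62430a)) (Pf.C 67 1287)) (Pf.cons (Pf.B 10 8 (Pf.C 51 0x102418a) (Pf.B 10 7 (Pf.B 10 6 (Pf.C 1 0x70628006) (Pf.C 4 0xc24508)) (Pf.C 5 0x120c38a))) Pf.nil))) Pf.nil)) (Pf.T 9 14 (Pf.cons (Pf.T 6 14 (Pf.cons (Pf.T 5 14 (Pf.cons (Pf.B 9 5 (Pf.B 7 5 (Pf.C 1 0x90e0c005) (Pf.B 6 5 (Pf.C 1 0x30e14006) (Pf.C 1 0x90c14180))) (Pf.B 7 5 (Pf.B 6 5 (Pf.C 1 0x51218180)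 (Pf.C 5 0xe14309)) (Pf.C 5 0x624287))) Pf.nil)) Pf.nil)) Pf.nil))))))
 (Pq.cons (Pq.L [0,3] 5 (Pf.B 9 7 (Pf.C 1 0x70624300) (Pf.C 67 905)))
 Pq.nil)))) (Pq.cons (Pq.D 3 (Pq.cons (Pq.L [0,3,5] 7 (Pf.B 9 7 (Pf.C 44 99209) (Pf.B 9 8 (Pf.B 9 5 (Pf.C 48 0x1018289) (Pf.B 8 7 (Pf.T 8 14 (Pf.cons (Pf.W 58 8 [] [0,3,6,7] (Pf.cons (Pf.B 10 7 (Pf.B 10 6 (Pf.C 1 0x70628006) (Pf.C 5 0x62030a)) (Pf.C 67 1287)) (Pf.cons (Pf.B 10 7 (Pf.B 10 6 (Pf.C 1 0x70628006) (Pf.C 5 0x62030a)) (Pf.C 5 0x100c38a)) Pf.nil))) Pf.nil)) (Pf.T 8 14 (Pf.cons (Pf.T 6 14 (Pf.cons (Pf.T 5 14 (Pf.cons (Pf.T 9 13 (Pf.cons (Pf.W 56 9 [] [6,8] (Pf.cons (Pf.C 48 0x1018509) (Pf.cons (Pf.C 48 0x1018509) Pf.nil))) (Pf.cons (Pf.T 9 16 (Pf.cons (Pf.B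 8 5 (Pf.B 7 5 (Pf.C 1 0x80e0c005) (Pf.B 6 5 (Pf.C 1 0x30e14006) (Pf.C 1 0x80c14180))) (Pf.B 7 5 (Pf.B 6 5 (Pf.C 1 0x51018180) (Pf.C 5 0xe14308)) (Pf.C 4 0x1014389))) Pf.nil)) Pf.nil))) Pf.nil)) Pf.nil)) Pf.nil)))) (Pf.B 8 7 (Pf.T 8 14 (Pf.cons (Pf.W 58 8 [] [0,3,6,7,9] (Pf.cons (Pf.B 10 7 (Pf.B 10 6 (Pf.C 1 0x70628006) (Pf.C 5 0x62030a)) (Pf.C 67 1287)) (Pf.cons (Pf.B 10 9 (Pf.C 51 0x122018a) (Pf.B 10 7 (Pf.B 10 6 (Pf.C 1 0x70628006) (Pf.C 4 0xc20509)) (Pf.C 5 0x100c38a))) Pf.nil))) Pf.nil)) (Pf.T 8 14 (Pf.cons (Pf.T 6 14 (Pf.cons (Pf.T 5 14 (Pf.cons (Pf.T 9 13 (Pf.cons (Pf.B 9 5 (Pf.B 6 5 (Pf.C 44 82697) (Pf.B 8 5 (Pf.C 1 0x50c20180) (Pf.B 7 5 (Pf.C 5 0xe18288) (Pf.C 4 0xa20389)))) (Pf.B 8 5 (Pf.B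 7 5 (Pf.C 1 0x80e0c005) (Pf.B 6 5 (Pf.C 1 0x30e14006) (Pf.C 1 0x80c14180))) (Pf.B 6 5 (Pf.C 1 0x51018180) (Pf.C 4 0xc20289)))) (Pf.cons (Pf.T 9 16 (Pf.cons (Pf.B 9 5 (Pf.B 6 5 (Pf.C 44 82697) (Pf.B 8 5 (Pf.C 1 0x50c20180) (Pf.B 7 5 (Pf.C 5 0xe18288) (Pf.C 4 0xa20389)))) (Pf.B 8 5 (Pf.B 7 5 (Pf.C 1 0x80e0c005) (Pf.B 6 5 (Pf.C 1 0x30e14006) (Pf.C 1 0x80c14180))) (Pf.B 6 5 (Pf.C 1 0x51018180) (Pf.C 4 0xc20289)))) Pf.nil)) Pf.nil))) Pf.nil)) Pf.nil)) Pf.nil))))))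
 (Pq.cons (Pq.L [0,3] 7 (Pf.B 9 8 (Pf.C 1 0x80c24180) (Pf.B 9 7 (Pf.B 8 7 (Pf.T 9 14 (Pf.cons (Pf.W 58 9 [] [0,3,7,8] (Pf.cons (Pf.B 10 8 (Pf.B 10 7 (Pf.C 1 0x81228007) (Pf.C 67 1287)) (Pf.C 5 0x62440a)) (Pf.cons (Pf.B 10 8 (Pf.B 10 7 (Pf.C 1 0x81228007) (Pf.C 5 0x120c38a)) (Pf.C 5 0x62440a)) Pf.nil))) Pf.nil)) (Pf.C 5 0xe24308)) (Pf.B 8 7 (Pf.C 5 0xe18409) (Pf.C 5 0x624407)))))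
 (Pq.cons (Pq.L [0,3] 5 (Pf.B 9 7 (Pf.C 1 0x70624300) (Pf.C 67 905)))
 Pq.nil)))) (Pq.cons (Pq.L [0,3] 3 (Pf.B 8 7 (Pf.C 1 0x70620300) (Pf.C 67 904)))
 Pq.nil)))) Pq.nil)))) (Pq.cons (Pq.D 1 (Pq.cons (Pq.D 2 (Pq.cons (Pq.L [] 3 (Pf.B 8 7 (Pf.C 3 99208) (Pf.C 2 904)))
 (Pq.cons (Pq.D 3 (Pq.cons (Pq.L [] 5 (Pf.B 9 7 (Pf.C 3 99209) (Pf.C 2 905)))
 (Pq.cons (Pq.L [0,3] 7 (Pf.B 9 8 (Pf.T 9 14 (Pf.cons (Pf.W 58 9 [] [0,3,6,8] (Pf.cons (Pf.B 10 8 (Pf.C 1 0x9140c008) (Pf.B 10 6 (Pf.C 1 0x91420006) (Pf.C 67 1286))) (Pf.cons (Pf.B 10 8 (Pf.C 1 0x9140c008) (Pf.C 52 0x120c40a)) Pf.nil))) Pf.nil)) (Pf.T 9 14 (Pf.cons (Pf.W 58 9 [] [0,3,6,7,8] (Pf.cons (Pf.B 10 8 (Pf.B 10 6 (Pf.C 1 0x81228006) (Pf.C 67 1286)) (Pf.C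 5 0x62440a)) (Pf.cons (Pf.B 10 8 (Pf.B 10 7 (Pf.C 51 0xe2418a) (Pf.B 10 6 (Pf.C 1 0x81228006) (Pf.C 4 0xc0c507))) (Pf.C 5 0x62440a)) Pf.nil))) Pf.nil))))
 (Pq.cons (Pq.L [] 4 (Pf.C 67 1158))
 Pq.nil)))) (Pq.cons (Pq.L [] 2 (Pf.C 67 1030))
 Pq.nil)))) (Pq.cons (Pq.D 2 (Pq.cons (Pq.D 3 (Pq.cons (Pq.L [] 6 (Pf.B 9 8 (Pf.C 3 99337) (Pf.C 2 1033)))
 (Pq.cons (Pq.L [0,3] 7 (Pf.B 9 7 (Pf.T 9 14 (Pf.cons (Pf.W 58 9 [] [0,3,6,7] (Pf.cons (Pf.B 10 7 (Pf.C 1 0x9140c007) (Pf.B 10 6 (Pf.C 1 0x9141c006) (Pf.C 67 1286))) (Pf.cons (Pf.B 10 7 (Pf.C 1 0x9140c007) (Pf.C 52 0x120c38a)) Pf.nil))) Pf.nil)) (Pf.T 9 14 (Pf.cons (Pf.W 58 9 [] [0,3,6,7,8] (Pf.cons (Pf.B 10 7 (Pf.B 10 6 (Pf.C 1 0x71228006) (Pf.C 67 1286)) (Pf.C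 5 0x62438a)) (Pf.cons (Pf.B 10 8 (Pf.C 51 0x102418a) (Pf.B 10 7 (Pf.B 10 6 (Pf.C 1 0x71228006) (Pf.C 4 0xc0c508)) (Pf.C 5 0x62438a))) Pf.nil))) Pf.nil))))
 (Pq.cons (Pq.L [] 4 (Pf.C 67 1158))
 Pq.nil)))) (Pq.cons (Pq.D 3 (Pq.cons (Pq.L [0,3] 7 (Pf.B 8 7 (Pf.T 9 13 (Pf.cons (Pf.T 8 14 (Pf.cons (Pf.W 58 8 [] [0,3,6,7] (Pf.cons (Pf.B 10 7 (Pf.C 1 0x8140c007) (Pf.B 10 6 (Pf.C 1 0x8141c006) (Pf.C 67 1286))) (Pf.cons (Pf.B 10 7 (Pf.C 1 0x8140c007) (Pf.C 52 0x100c38a)) Pf.nil))) Pf.nil)) (Pf.cons (Pf.C 57 777) Pf.nil))) (Pf.T 9 13 (Pf.cons (Pf.T 8 14 (Pf.cons (Pf.W 58 8 [] [0,3,6,7,9] (Pf.cons (Pf.B 10 7 (Pf.B 10 6 (Pf.C 1 0x71028006) (Pf.C 67 1286)) (Pf.C 5 0x62038a)) (Pf.cons (Pf.B 10 9 (Pf.C 51 0x122018a)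 (Pf.B 10 7 (Pf.B 10 6 (Pf.C 1 0x71028006) (Pf.C 4 0xc0c509)) (Pf.C 5 0x62038a))) Pf.nil))) Pf.nil)) (Pf.cons (Pf.C 57 777) Pf.nil)))))
 (Pq.cons (Pq.L [0,3] 7 (Pf.B 9 8 (Pf.B 9 7 (Pf.B 8 7 (Pf.T 9 14 (Pf.cons (Pf.W 58 9 [] [0,3,6,7,8] (Pf.cons (Pf.B 10 8 (Pf.C 1 0x9140c008) (Pf.B 10 7 (Pf.C 1 0x8140c007) (Pf.B 10 6 (Pf.C 1 0x8141c006) (Pf.C 5 0xe0c30a)))) (Pf.cons (Pf.B 10 8 (Pf.C 1 0x9140c008) (Pf.C 52 0x120c40a)) Pf.nil))) Pf.nil)) (Pf.T 7 14 (Pf.cons (Pf.W 58 7 [] [0,3,8,9] (Pf.cons (Pf.B 10 9 (Pf.C 1 0x7140c009) (Pf.B 10 8 (Pf.C 1 0x9140c008) (Pf.C 5 0x61c40a))) (Pf.cons (Pf.B 10 9 (Pf.C 1 0x7140c009) (Pf.C 52 0xe0c48a)) Pf.nil))) Pf.nil))) (Pf.B 8 7 (Pf.T 7 14 (Pf.cons (Pf.W 58 7 [] [0,3,8,9] (Pf.cons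 (Pf.B 10 9 (Pf.B 10 8 (Pf.C 1 0x90e28008) (Pf.C 1 0x31420480)) (Pf.C 5 0x61c48a)) (Pf.cons (Pf.B 10 9 (Pf.B 10 8 (Pf.C 1 0x90e28008) (Pf.C 52 0xe0c40a)) (Pf.C 5 0x61c48a)) Pf.nil))) Pf.nil)) (Pf.C 1 0x90e20180))) (Pf.B 9 7 (Pf.B 8 7 (Pf.T 7 14 (Pf.cons (Pf.W 58 7 [] [0,3,8,9] (Pf.cons (Pf.B 10 9 (Pf.C 1 0x7140c009) (Pf.B 10 8 (Pf.C 1 0x7140c008) (Pf.C 5 0x62440a))) (Pf.cons (Pf.B 10 9 (Pf.C 1 0x7140c009) (Pf.C 52 0xe0c48a)) Pf.nil))) Pf.nil)) (Pf.C 1 0x9101c180)) (Pf.B 8 7 (Pf.C 1 0x71220180) (Pf.T 7 14 (Pf.cons (Pf.W 58 7 [] [3,8,9] (Pf.cons (Pf.B 10 9 (Pf.B 10 8 (Pf.C 5 0x1424407) (Pf.C 5 0x61c40a)) (Pf.C 5 0x61c48a)) (Pf.cons (Pf.B 10 9 (Pf.B 10 8 (Pf.C 5 0x1424407) (Pf.C 5 0x61c40a)) (Pf.C 5 0x61c48a))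 Pf.nil))) Pf.nil))))))
 (Pq.cons (Pq.L [] 4 (Pf.C 67 1158))
 Pq.nil)))) (Pq.cons (Pq.L [] 2 (Pf.C 67 1030))
 Pq.nil)))) (Pq.cons (Pq.L [] 1 (Pf.C 67 902))
 Pq.nil)))) Pq.nil)))) Pq.nil)
theorem h3_o39 : AllRef h3_T h3_G47 (applyObl TD2 1 [100,105,102] [0,0,0] [(100,0x240000000000000000000000000),(105,0x50000000000000000000000000),(102,0x210000000000000000000000000)]) :=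
  chkPq_sound h3_o39c _ (by decide +kernel)
noncomputable def h3_o40c : Pq := (Pq.cons (Pq.L [0,3] 7 (Pf.B 7 5 (Pf.B 6 5 (Pf.W 66 4 [] [0,3,5,6] (Pf.cons (Pf.B 8 6 (Pf.C 5 0xc10403) (Pf.B 8 5 (Pf.C 5 0xa10403) (Pf.T 8 17 (Pf.cons (Pf.W 49 4 [3,8] [0,5,6] (Pf.cons (Pf.B 9 5 (Pf.C 44 66185) (Pf.B 9 8 (Pf.B 9 3 (Pf.T 9 7 (Pf.cons (Pf.C 48 0x1010189) Pf.nil)) (Pf.C 4 0x1014189)) (Pf.B 9 3 (Pf.C 4 0x620289) (Pf.C 4 0x820189)))) (Pf.cons (Pf.B 9 8 (Pf.B 9 3 (Pf.C 5 0x1220184) (Pf.B 9 5 (Pf.C 5 0xa10483) (Pf.T 9 8 (Pf.cons (Pf.T 9 10 (Pf.cons (Pf.T 9 11 (Pf.cons (Pf.T 9 17 (Pf.cons (Pf.W 45 644 [] [0,3,8,9] (Pf.cons (Pf.B 10 9 (Pf.B 10 8 (Pf.C 44 0x2440a) (Pf.B 10 3 (Pf.C 4 0x62020a) (Pf.C 4 0xa2018a))) (Pf.B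 10 3 (Pf.C 4 0x62420a) (Pf.C 4 0xa2418a))) (Pf.cons (Pf.B 10 9 (Pf.B 10 8 (Pf.C 44 0x2440a) (Pf.B 10 3 (Pf.C 4 0x62028a) (Pf.C 4 0x82018a))) (Pf.B 10 3 (Pf.C 4 0x62428a) (Pf.C 4 0x82418a))) (Pf.cons (Pf.B 10 9 (Pf.B 10 8 (Pf.C 1 0x90a2000a) (Pf.C 5 0xa10508)) (Pf.C 5 0xa10509)) (Pf.cons (Pf.B 10 9 (Pf.B 10 8 (Pf.C 1 0x9082000a) (Pf.C 5 0x814508)) (Pf.C 5 0x814509)) Pf.nil))))) (Pf.cons (Pf.C 67 521) Pf.nil))) Pf.nil)) Pf.nil)) (Pf.cons (Pf.C 52 0xa10189) Pf.nil))))) (Pf.B 9 6 (Pf.C 5 0xc10488) (Pf.B 9 5 (Pf.C 5 0xa10488) (Pf.T 9 8 (Pf.cons (Pf.T 9 10 (Pf.cons (Pf.T 9 11 (Pf.cons (Pf.T 9 14 (Pf.cons (Pf.W 45 644 [] [3,8,9] (Pf.cons (Pf.B 10 9 (Pf.B 10 8 (Pf.B 10 3 (Pf.C 44 0x2418a) (Pf.C 4 0x101018a))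 (Pf.C 4 0x121040a)) (Pf.B 10 8 (Pf.C 4 0x102420a) (Pf.C 4 0xa2440a))) (Pf.cons (Pf.B 10 9 (Pf.B 10 8 (Pf.B 10 3 (Pf.C 44 0x2418a) (Pf.C 4 0x101418a)) (Pf.C 4 0x121440a)) (Pf.B 10 8 (Pf.C 4 0x102428a) (Pf.C 4 0x82440a))) (Pf.cons (Pf.B 10 9 (Pf.B 10 8 (Pf.C 5 0x1424404) (Pf.C 5 0xa10508)) (Pf.C 5 0xa10509)) (Pf.cons (Pf.B 10 9 (Pf.B 10 8 (Pf.C 5 0x1424405) (Pf.C 5 0x814508)) (Pf.C 5 0x814509)) Pf.nil))))) Pf.nil)) (Pf.cons (Pf.T 9 17 (Pf.cons (Pf.W 45 644 [] [3,8,9] (Pf.cons (Pf.B 10 9 (Pf.B 10 8 (Pf.B 10 3 (Pf.T 10 6 (Pf.cons (Pf.T 10 7 (Pf.cons (Pf.C 48 0x101418a) Pf.nil)) (Pf.cons (Pf.C 46 394) Pf.nil))) (Pf.C 4 0x101018a)) (Pf.C 4 0x121040a)) (Pf.B 10 8 (Pf.C 4 0x102420a) (Pf.C 4 0xa2440a))) (Pf.cons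 (Pf.B 10 9 (Pf.B 10 8 (Pf.B 10 3 (Pf.T 10 6 (Pf.cons (Pf.T 10 7 (Pf.cons (Pf.C 48 0x101018a) Pf.nil)) (Pf.cons (Pf.C 46 394) Pf.nil))) (Pf.C 4 0x101418a)) (Pf.C 4 0x121440a)) (Pf.B 10 8 (Pf.C 4 0x102428a) (Pf.C 4 0x82440a))) (Pf.cons (Pf.B 10 9 (Pf.B 10 8 (Pf.C 5 0x1424404) (Pf.C 5 0xa10508)) (Pf.C 5 0xa10509)) (Pf.cons (Pf.B 10 9 (Pf.B 10 8 (Pf.C 5 0x1424405) (Pf.C 5 0x814508)) (Pf.C 5 0x814509)) Pf.nil))))) (Pf.cons (Pf.C 67 521) Pf.nil))) Pf.nil))) Pf.nil)) (Pf.cons (Pf.C 52 0xc14209) Pf.nil)))))) Pf.nil))) (Pf.cons (Pf.C 67 520) Pf.nil))))) Pf.nil)) (Pf.C 5 0x814303)) (Pf.C 5 0x814383)))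
 Pq.nil)
theorem h3_o40 : AllRef h3_T h3_G38 (applyObl TD2 1 [98] [0] [(98,0x4000000000000000000000000)]) :=
  chkPq_sound h3_o40c _ (by decide +kernel)
noncomputable def h3_o41c : Pq := Pq.nil
theorem h3_o41 : AllRef h3_T h3_G24 (ptObl 75 PT.kid []) :=
  chkPq_sound h3_o41c _ (by decide +kernel)
noncomputable def h3_o42c : Pq := (Pq.cons (Pq.L [3] 0 (Pf.C 2 388))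
 Pq.nil)
theorem h3_o42 : AllRef h3_T h3_G48 (ptObl 112 (PT.br 3 PT.kid PT.ref) []) :=
  chkPq_sound h3_o42c _ (by decide +kernel)
noncomputable def h3_o43c : Pq := (Pq.cons (Pq.L [3] 0 (Pf.C 2 388))
 Pq.nil)
theorem h3_o43 : AllRef h3_T h3_G49 (ptObl 76 (PT.br 3 PT.kid PT.ref) []) :=
  chkPq_sound h3_o43c _ (by decide +kernel)
noncomputable def h3_o44c : Pq := Pq.nil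
theorem h3_o44 : AllRef h3_T h3_G50 (ptObl 77 (PT.br 3 PT.kid PT.kid) []) :=
  chkPq_sound h3_o44c _ (by decide +kernel)
noncomputable def h3_o45c : Pq := Pq.nil
theorem h3_o45 : AllRef h3_T h3_G51 (ptObl 78 (PT.br 3 PT.kid PT.kid) []) :=
  chkPq_sound h3_o45c _ (by decide +kernel)
noncomputable def h3_o46c : Pq := (Pq.cons (Pq.L [3] 0 (Pf.W 47 3 [4] [] (Pf.cons (Pf.B 5 4 (Pf.C 44 66179) (Pf.W 47 3 [4,5] [] (Pf.cons (Pf.B 6 4 (Pf.C 44 66307) (Pf.C 51 0x614304)) Pf.nil))) Pf.nil)))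
 Pq.nil)
theorem h3_o46 : AllRef h3_T h3_G52 (List.map pat1 [117]) :=
  chkPq_sound h3_o46c _ (by decide +kernel)
noncomputable def h3_o47c : Pq := (Pq.cons (Pq.L [] 0 (Pf.X 3 4))
 (Pq.cons (Pq.L [3] 1 (Pf.C 3 66179))
 (Pq.cons (Pq.L [3] 1 (Pf.W 74 4 [] [3,5] (Pf.cons (Pf.B 6 5 (Pf.C 3 98693) (Pf.W 47 3 [6] [4,5] (Pf.cons (Pf.B 7 6 (Pf.C 44 99203) (Pf.B 7 5 (Pf.C 3 0x1c185) (Pf.B 7 4 (Pf.W 47 3 [6,7] [4,5] (Pf.cons (Pf.B 8 7 (Pf.C 44 0x1c403) (Pf.B 8 6 (Pf.C 44 99331) (Pf.B 8 5 (Pf.C 3 0x20185) (Pf.B 8 4 (Pf.C 5 0x81c406) (Pf.C 4 0x818405))))) Pf.nil)) (Pf.C 4 0x818385)))) Pf.nil))) Pf.nil)))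
 (Pq.cons (Pq.L [] 1 (Pf.W 47 5 [4] [] (Pf.cons (Pf.B 6 4 (Pf.C 44 66309) (Pf.W 47 5 [4,6] [] (Pf.cons (Pf.B 7 4 (Pf.C 44 66437) (Pf.C 51 0xa18384)) Pf.nil))) Pf.nil)))
 (Pq.cons (Pq.L [] 0 (Pf.X 3 4))
 (Pq.cons (Pq.L [3] 1 (Pf.C 3 66179))
 (Pq.cons (Pq.L [3] 1 (Pf.W 74 4 [] [3,5] (Pf.cons (Pf.B 6 5 (Pf.C 3 98693) (Pf.W 47 3 [6] [4,5] (Pf.cons (Pf.B 7 6 (Pf.C 44 99203) (Pf.B 7 5 (Pf.C 3 0x1c185) (Pf.B 7 4 (Pf.W 47 3 [6,7] [4,5] (Pf.cons (Pf.B 8 7 (Pf.C 44 0x1c403) (Pf.B 8 6 (Pf.C 44 99331) (Pf.B 8 5 (Pf.C 3 0x20185) (Pf.B 8 4 (Pf.C 5 0x81c406) (Pf.C 4 0x818405))))) Pf.nil)) (Pf.C 4 0x818385)))) Pf.nil))) Pf.nil)))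
 (Pq.cons (Pq.L [3] 1 (Pf.W 76 4 [] [3,5] (Pf.cons (Pf.B 6 5 (Pf.C 3 98693) (Pf.W 47 3 [6] [4,5] (Pf.cons (Pf.B 7 6 (Pf.C 44 99203) (Pf.B 7 5 (Pf.C 3 0x1c185) (Pf.B 7 4 (Pf.W 47 3 [6,7] [4,5] (Pf.cons (Pf.B 8 7 (Pf.C 44 0x1c403) (Pf.B 8 6 (Pf.C 44 99331) (Pf.B 8 5 (Pf.C 3 0x20185) (Pf.B 8 4 (Pf.C 5 0x81c406) (Pf.C 4 0x818405))))) Pf.nil)) (Pf.C 4 0x818385)))) Pf.nil))) Pf.nil)))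
 (Pq.cons (Pq.L [] 0 (Pf.X 3 4))
 (Pq.cons (Pq.L [] 1 (Pf.C 75 517))
 (Pq.cons (Pq.L [3] 1 (Pf.W 74 4 [] [3,5] (Pf.cons (Pf.B 6 5 (Pf.W 47 3 [6] [4,5] (Pf.cons (Pf.B 7 6 (Pf.C 44 99203) (Pf.B 7 5 (Pf.B 7 4 (Pf.W 47 3 [6,7] [4,5] (Pf.cons (Pf.B 8 7 (Pf.C 44 0x1c403) (Pf.B 8 6 (Pf.C 44 99331) (Pf.B 8 5 (Pf.B 8 4 (Pf.C 5 0x81c406) (Pf.C 5 0xa18404)) (Pf.C 5 0xa1c308)))) Pf.nil)) (Pf.C 5 0xa18384)) (Pf.T 7 8 (Pf.cons (Pf.T 7 23 (Pf.cons (Pf.C 75 901) Pf.nil)) (Pf.cons (Pf.C 51 0x618287) Pf.nil))))) Pf.nil)) (Pf.C 75 773)) Pf.nil)))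
 (Pq.cons (Pq.L [3] 1 (Pf.W 76 4 [] [3,5] (Pf.cons (Pf.B 6 5 (Pf.W 47 3 [6] [4,5] (Pf.cons (Pf.B 7 6 (Pf.C 44 99203) (Pf.B 7 4 (Pf.B 7 5 (Pf.W 47 3 [6,7] [4,5] (Pf.cons (Pf.B 8 7 (Pf.C 44 0x1c403) (Pf.B 8 6 (Pf.C 44 99331) (Pf.B 8 5 (Pf.B 8 4 (Pf.C 5 0x81c406) (Pf.C 5 0xa18404)) (Pf.C 5 0xa1c308)))) Pf.nil)) (Pf.T 7 8 (Pf.cons (Pf.T 7 23 (Pf.cons (Pf.C 75 901) Pf.nil)) (Pf.cons (Pf.C 51 0x618287) Pf.nil)))) (Pf.C 52 0xc14384))) Pf.nil)) (Pf.C 75 773)) Pf.nil)))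
 (Pq.cons (Pq.L [] 0 (Pf.X 3 4))
 (Pq.cons (Pq.L [] 1 (Pf.C 77 517))
 (Pq.cons (Pq.L [3] 1 (Pf.W 74 4 [] [3,5] (Pf.cons (Pf.B 6 5 (Pf.W 47 3 [6] [4,5] (Pf.cons (Pf.B 7 6 (Pf.C 44 99203) (Pf.B 7 5 (Pf.B 7 4 (Pf.W 47 3 [6,7] [4,5] (Pf.cons (Pf.B 8 7 (Pf.C 44 0x1c403) (Pf.B 8 6 (Pf.C 44 99331) (Pf.B 8 5 (Pf.B 8 4 (Pf.C 5 0x81c406) (Pf.C 5 0xa18404)) (Pf.C 5 0xa1c308)))) Pf.nil)) (Pf.C 5 0xa18384)) (Pf.T 7 8 (Pf.cons (Pf.T 7 23 (Pf.cons (Pf.C 77 901) Pf.nil)) (Pf.cons (Pf.C 51 0x618287) Pf.nil))))) Pf.nil)) (Pf.C 77 773)) Pf.nil)))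
 (Pq.cons (Pq.L [3] 1 (Pf.W 76 4 [] [3,5] (Pf.cons (Pf.B 6 5 (Pf.W 47 3 [6] [4,5] (Pf.cons (Pf.B 7 6 (Pf.C 44 99203) (Pf.B 7 4 (Pf.B 7 5 (Pf.W 47 3 [6,7] [4,5] (Pf.cons (Pf.B 8 7 (Pf.C 44 0x1c403) (Pf.B 8 6 (Pf.C 44 99331) (Pf.B 8 5 (Pf.B 8 4 (Pf.C 5 0x81c406) (Pf.C 5 0xa18404)) (Pf.C 5 0xa1c308)))) Pf.nil)) (Pf.T 7 8 (Pf.cons (Pf.T 7 23 (Pf.cons (Pf.C 77 901) Pf.nil)) (Pf.cons (Pf.C 51 0x618287) Pf.nil)))) (Pf.C 52 0xc14384))) Pf.nil)) (Pf.C 77 773)) Pf.nil)))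
 Pq.nil))))))))))))))))
theorem h3_o47 : AllRef h3_T h3_G55 (closeObl (h3_T.sc.get 0) false [113,114,115,119,120,121,122] [0,0,1,1,1,1,1] [3] [0] 44) :=
  chkPq_sound h3_o47c _ (by decide +kernel)
noncomputable def h3_o48c : Pq := (Pq.cons (Pq.L [0,3] 1 (Pf.T 4 25 (Pf.cons (Pf.T 5 25 (Pf.cons (Pf.W 74 4 [] [0,3,5] (Pf.cons (Pf.B 6 5 (Pf.W 74 5 [] [3,4,6] (Pf.cons (Pf.B 7 6 (Pf.C 44 99203) (Pf.B 7 4 (Pf.W 47 3 [6,7] [4,5] (Pf.cons (Pf.B 8 7 (Pf.C 44 0x1c403) (Pf.B 8 6 (Pf.C 44 99331) (Pf.B 8 5 (Pf.C 5 0xa18407) (Pf.B 8 4 (Pf.C 5 0x81c406) (Pf.C 5 0xa18208))))) Pf.nil)) (Pf.C 5 0xa18207))) Pf.nil)) (Pf.W 47 3 [6] [0,4,5] (Pf.cons (Pf.B 7 6 (Pf.C 44 99203) (Pf.B 7 5 (Pf.B 7 4 (Pf.T 7 8 (Pf.cons (Pf.T 7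 23 (Pf.cons (Pf.W 47 3 [6,7] [0,4,5] (Pf.cons (Pf.B 8 7 (Pf.C 44 0x1c403) (Pf.B 8 6 (Pf.C 44 99331) (Pf.B 8 5 (Pf.C 5 0xa1c406) (Pf.B 8 4 (Pf.C 5 0x814406) (Pf.T 8 8 (Pf.cons (Pf.T 8 23 (Pf.cons (Pf.W 45 644 [] [0,3,6,7,8] (Pf.cons (Pf.B 9 3 (Pf.B 9 8 (Pf.C 3 0x20189) (Pf.B 9 6 (Pf.C 3 98697) (Pf.C 4 0xa20309))) (Pf.C 2 393)) (Pf.cons (Pf.B 9 3 (Pf.B 9 8 (Pf.C 3 0x20189) (Pf.B 9 6 (Pf.C 3 98697) (Pf.C 4 0x820309))) (Pf.C 2 393)) (Pf.cons (Pf.B 9 8 (Pf.B 9 7 (Pf.C 1 0x5101c009) (Pf.C 1 0x4121c280)) (Pf.C 5 0xa10488)) (Pf.cons (Pf.B 9 8 (Pf.B 9 7 (Pf.C 1 0x4101c009) (Pf.C 1 0x5121c200)) (Pf.C 5 0x814488)) Pf.nil))))) Pf.nil)) (Pf.cons (Pf.C 51 0x614208) Pf.nil))))))) Pf.nil)) Pf.nil)) (Pf.cons (Pf.T 7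 24 Pf.nil) Pf.nil))) (Pf.C 5 0xa10386)) (Pf.B 7 4 (Pf.C 5 0x814386) (Pf.T 7 8 (Pf.cons (Pf.T 7 23 (Pf.cons (Pf.W 45 644 [] [3,6,7] (Pf.cons (Pf.B 8 3 (Pf.B 8 7 (Pf.C 3 0x1c188) (Pf.B 8 6 (Pf.C 3 98696) (Pf.C 4 0xa1c308))) (Pf.C 2 392)) (Pf.cons (Pf.B 8 3 (Pf.B 8 7 (Pf.C 3 0x1c188) (Pf.B 8 6 (Pf.C 3 98696) (Pf.C 4 0x81c308))) (Pf.C 2 392)) (Pf.cons (Pf.B 8 7 (Pf.B 8 6 (Pf.C 5 0x101c304) (Pf.C 5 0xa10406)) (Pf.C 5 0xa10407)) (Pf.cons (Pf.B 8 7 (Pf.B 8 6 (Pf.C 5 0x101c305) (Pf.C 5 0x814406)) (Pf.C 5 0x814407)) Pf.nil))))) Pf.nil)) (Pf.cons (Pf.C 51 0x614207) Pf.nil)))))) Pf.nil))) Pf.nil)) Pf.nil)) Pf.nil)))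
 (Pq.cons (Pq.L [3] 1 (Pf.T 4 25 (Pf.cons (Pf.T 5 25 (Pf.cons (Pf.W 74 4 [] [3,5] (Pf.cons (Pf.B 6 5 (Pf.W 74 5 [] [3,4,6] (Pf.cons (Pf.B 7 6 (Pf.C 44 99203) (Pf.B 7 4 (Pf.W 47 3 [6,7] [4,5] (Pf.cons (Pf.B 8 7 (Pf.C 44 0x1c403) (Pf.B 8 6 (Pf.C 44 99331) (Pf.B 8 5 (Pf.C 5 0xa18407) (Pf.B 8 4 (Pf.C 5 0x81c405) (Pf.C 4 0x1014203))))) Pf.nil)) (Pf.C 4 0xe14203))) Pf.nil)) (Pf.C 4 0xc10283)) Pf.nil)) Pf.nil)) Pf.nil)))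
 (Pq.cons (Pq.L [0,3] 1 (Pf.T 4 26 (Pf.cons (Pf.T 5 26 (Pf.cons (Pf.W 76 4 [] [0,3,5] (Pf.cons (Pf.B 6 5 (Pf.W 76 5 [] [3,4,6] (Pf.cons (Pf.B 7 6 (Pf.C 44 99203) (Pf.B 7 4 (Pf.W 47 3 [6,7] [4,5] (Pf.cons (Pf.B 8 7 (Pf.C 44 0x1c403) (Pf.B 8 6 (Pf.C 44 99331) (Pf.B 8 5 (Pf.C 5 0xa18407) (Pf.B 8 4 (Pf.C 5 0x81c406) (Pf.C 5 0xa18208))))) Pf.nil)) (Pf.C 5 0xa18207))) Pf.nil)) (Pf.W 47 3 [6] [0,4,5] (Pf.cons (Pf.B 7 6 (Pf.C 44 99203) (Pf.B 7 5 (Pf.B 7 4 (Pf.T 7 8 (Pf.cons (Pf.T 7 23 (Pf.cons (Pf.W 47 3 [6,7] [0,4,5] (Pf.cons (Pf.B 8 7 (Pf.C 44 0x1c403) (Pf.B 8 6 (Pf.C 44 99331) (Pf.B 8 5 (Pf.C 5 0xa1c406) (Pf.B 8 4 (Pf.C 5 0x814406) (Pf.T 8 8 (Pf.cons (Pf.T 8 23 (Pf.cons (Pf.W 45 644 [] [0,3,6,7,8] (Pf.cons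 (Pf.B 9 3 (Pf.B 9 8 (Pf.C 3 0x20189) (Pf.B 9 6 (Pf.C 3 98697) (Pf.C 4 0xa20309))) (Pf.C 2 393)) (Pf.cons (Pf.B 9 3 (Pf.B 9 8 (Pf.C 3 0x20189) (Pf.B 9 6 (Pf.C 3 98697) (Pf.C 4 0x820309))) (Pf.C 2 393)) (Pf.cons (Pf.B 9 8 (Pf.B 9 7 (Pf.C 1 0x5101c009) (Pf.C 1 0x4121c280)) (Pf.C 5 0xa10488)) (Pf.cons (Pf.B 9 8 (Pf.B 9 7 (Pf.C 1 0x4101c009) (Pf.C 1 0x5121c200)) (Pf.C 5 0x814488)) Pf.nil))))) Pf.nil)) (Pf.cons (Pf.C 51 0x614208) Pf.nil))))))) Pf.nil)) Pf.nil)) (Pf.cons (Pf.T 7 24 Pf.nil) Pf.nil))) (Pf.C 5 0xa10386)) (Pf.B 7 4 (Pf.C 5 0x814386) (Pf.T 7 8 (Pf.cons (Pf.T 7 23 (Pf.cons (Pf.W 45 644 [] [3,6,7] (Pf.cons (Pf.B 8 3 (Pf.B 8 7 (Pf.C 3 0x1c188) (Pf.B 8 6 (Pf.C 3 98696) (Pf.C 4 0xa1c308))) (Pf.C 2 392))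 (Pf.cons (Pf.B 8 3 (Pf.B 8 7 (Pf.C 3 0x1c188) (Pf.B 8 6 (Pf.C 3 98696) (Pf.C 4 0x81c308))) (Pf.C 2 392)) (Pf.cons (Pf.B 8 7 (Pf.B 8 6 (Pf.C 5 0x101c304) (Pf.C 5 0xa10406)) (Pf.C 5 0xa10407)) (Pf.cons (Pf.B 8 7 (Pf.B 8 6 (Pf.C 5 0x101c305) (Pf.C 5 0x814406)) (Pf.C 5 0x814407)) Pf.nil))))) Pf.nil)) (Pf.cons (Pf.C 51 0x614207) Pf.nil)))))) Pf.nil))) Pf.nil)) Pf.nil)) Pf.nil)))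
 (Pq.cons (Pq.L [3] 1 (Pf.T 4 26 (Pf.cons (Pf.T 5 26 (Pf.cons (Pf.W 76 4 [] [3,5] (Pf.cons (Pf.B 6 5 (Pf.W 76 5 [] [3,4,6] (Pf.cons (Pf.B 7 6 (Pf.C 44 99203) (Pf.W 47 3 [6,7] [4,5] (Pf.cons (Pf.B 8 7 (Pf.C 44 0x1c403) (Pf.B 8 6 (Pf.C 44 99331) (Pf.B 8 5 (Pf.C 5 0xa18407) (Pf.C 52 0xe10405)))) Pf.nil))) Pf.nil)) (Pf.C 4 0xc10283)) Pf.nil)) Pf.nil)) Pf.nil)))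
 Pq.nil))))
theorem h3_o48 : AllRef h3_T h3_G56 (hitObl [116,118] h3_h72) :=
  chkPq_sound h3_o48c _ (by decide +kernel)
noncomputable def h3_o49c : Pq := (Pq.cons (Pq.L [] 0 (Pf.C 78 4))
 (Pq.cons (Pq.L [] 0 (Pf.C 79 4))
 Pq.nil))
theorem h3_o49 : AllRef h3_T h3_G57 (List.map pat1 [123,124]) :=
  chkPq_sound h3_o49c _ (by decide +kernel)
noncomputable def h3_o50c : Pq := (Pq.cons (Pq.L [3] 1 (Pf.C 44 82435))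
 Pq.nil)
theorem h3_o50 : AllRef h3_T h3_G58 (applyObl TD2 1 [115] [0] [(115,0x80000000000000000000000000000)]) :=
  chkPq_sound h3_o50c _ (by decide +kernel)
noncomputable def h3_o51c : Pq := (Pq.cons (Pq.L [0,2] 2 (Pf.C 5 0xa00182))
 (Pq.cons (Pq.L [0,1] 2 (Pf.C 5 0xa00181))
 (Pq.cons (Pq.L [0,1] 2 (Pf.C 5 0xa00181))
 Pq.nil)))
theorem h3_o51 : AllRef h3_T h3_G17 (splitObl [57] [58,59,60]) :=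
  chkPq_sound h3_o51c _ (by decide +kernel)
noncomputable def h3_o52c : Pq := (Pq.cons (Pq.L [0,1] 1 (Pf.C 5 65921))
 Pq.nil)
theorem h3_o52 : AllRef h3_T h3_G17 (applyObl TD2 1 [57] [0] []) :=
  chkPq_sound h3_o52c _ (by decide +kernel)
noncomputable def h3_o53c : Pq := (Pq.cons (Pq.L [0,1] 2 (Pf.C 5 0xa04180))
 (Pq.cons (Pq.L [0,1] 2 (Pf.C 5 0xa04180))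
 Pq.nil))
theorem h3_o53 : AllRef h3_T h3_G17 (splitObl [58] [59,60]) :=
  chkPq_sound h3_o53c _ (by decide +kernel)
noncomputable def h3_o54c : Pq := (Pq.cons (Pq.L [0,1] 1 (Pf.C 5 0x210180))
 Pq.nil)
theorem h3_o54 : AllRef h3_T h3_G17 (applyObl TD2 1 [58] [0] []) :=
  chkPq_sound h3_o54c _ (by decide +kernel)
noncomputable def h3_o55c : Pq := (Pq.cons (Pq.L [0,2] 2 (Pf.C 5 0xa08180))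
 Pq.nil)
theorem h3_o55 : AllRef h3_T h3_G17 (splitObl [59] [60]) :=
  chkPq_sound h3_o55c _ (by decide +kernel)
noncomputable def h3_o56c : Pq := (Pq.cons (Pq.L [0,2] 1 (Pf.C 5 0x410180))
 Pq.nil)
theorem h3_o56 : AllRef h3_T h3_G17 (applyObl TD2 1 [59] [0] []) :=
  chkPq_sound h3_o56c _ (by decide +kernel)
noncomputable def h3_o57c : Pq := (Pq.cons (Pq.L [0] 21 (Pf.C 5 0xc10180))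
 (Pq.cons (Pq.L [0] 67 (Pf.C 5 0x614200))
 Pq.nil))
theorem h3_o57 : AllRef h3_T h3_G17 (applyObl (pairTab (cPaw, cP1S113)) 2 [60] [0] []) :=
  chkPq_sound h3_o57c _ (by decide +kernel)

end Pool.Agent.Lib.MP_849b2e_co
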