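import Pool.Agent.Lib.MP_849b2e_co.AllR
import Pool.Agent.Lib.MP_849b2e_co.Th3
import Pool.Agent.Lib.MP_849b2e_co.Oh3_0
import Pool.Agent.Lib.MP_849b2e_co.PairsD

set_option maxRecDepth 100000
set_option linter.all false
namespace Pool.Agent.Lib.MP_849b2e_co

theorem h3_n81  : Bd h3_T h3_G17 [60] :=
  r_apply (lem_of_bdN (cPaw, cP1S113) ( bdN_paw_d)) [0] [] (by decide +kernel) h3_o57
theorem h3_n80  : Bd h3_T h3_G17 [59] :=
  r_apply lem_D2 [0] [] (by decide +kernel) h3_o56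
theorem h3_n79  : Bd h3_T h3_G17 [59,60] :=
  r_split [59] [60] (by decide +kernel) h3_o55 h3_n80 h3_n81
theorem h3_n78  : Bd h3_T h3_G17 [58] :=
  r_apply lem_D2 [0] [] (by decide +kernel) h3_o54
theorem h3_n77  : Bd h3_T h3_G17 [58,59,60] :=
  r_split [58] [59,60] (by decide +kernel) h3_o53 h3_n78 h3_n79
theorem h3_n76  : Bd h3_T h3_G17 [57] :=
  r_apply lem_D2 [0] [] (by decide +kernel) h3_o52
theorem h3_n75  : Bd h3_T h3_G17 [57,58,59,60] :=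
  r_split [57] [58,59,60] (by decide +kernel) h3_o51 h3_n76 h3_n77
theorem h3_n74  : Bd h3_T h3_G58 [115] :=
  r_apply lem_D2 [0] [(115,0x80000000000000000000000000000)] (by decide +kernel) h3_o50
theorem h3_n73  : Bd h3_T h3_G57 [115,123,124] :=
  r_kill [123,124] ⟨125,[],[],[]⟩ h3_G58 [115] (by decide +kernel) h3_o49 h3_n74
theorem h3_n72  : Bd h3_T h3_G56 [115,116,118] :=
  r_hit [116,118] h3_h72 ⟨123,[],[79,80],[]⟩ h3_G57 [115,123,124] (by decide +kernel) h3_o48 h3_n73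
theorem h3_n71  : Bd h3_T h3_G56 [115,119,121] :=
  r_act [] [115,116,118] (by decide +kernel) h3_n72
theorem h3_n70  : Bd h3_T h3_G55 [113,114,115,119,120,121,122] :=
  r_close false 0 [7,20,21,22,8,23,25,24,26] [113,114,115,119,120,121,122] [0,0,1,1,1,1,1] [3] [0] 44 ⟨123,[],[],[]⟩ h3_G56 [115,119,121] (by decide +kernel) h3_o47 h3_n71
theorem h3_n69  : Bd h3_T h3_G55 [113,114,115,116,118] :=
  r_act [25,26] [113,114,115,119,120,121,122] (by decide +kernel) h3_n70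
theorem h3_n68  : Bd h3_T h3_G54 [113,114,115,116,118] :=
  r_def 118 0 [115] [] ⟨121,[27],[77,0,78],[]⟩ h3_G55 [113,114,115,116,118] (by decide +kernel) h3_n69
theorem h3_n67  : Bd h3_T h3_G53 [113,114,115,116,118] :=
  r_def 116 0 [115] [] ⟨119,[26],[75,0,76],[]⟩ h3_G54 [113,114,115,116,118] (by decide +kernel) h3_n68
theorem h3_n66  : Bd h3_T h3_G52 [113,114,115,116,117,118] :=
  r_kill [117] ⟨119,[],[],[]⟩ h3_G53 [113,114,115,116,118] (by decide +kernel) h3_o46 h3_n67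
theorem h3_n65  : Bd h3_T h3_G52 [75,76,77,78] :=
  r_act [20,21,22,23,24] [113,114,115,116,117,118] (by decide +kernel) h3_n66
theorem h3_n64  : Bd h3_T h3_G51 [75,76,77,78] :=
  r_psplit 78 [] (PT.br 3 PT.kid PT.kid) ⟨117,[25],[],[]⟩ h3_G52 [75,76,77,78] (by decide +kernel) h3_o45 h3_n65
theorem h3_n63  : Bd h3_T h3_G50 [75,76,77,78] :=
  r_psplit 77 [] (PT.br 3 PT.kid PT.kid) ⟨115,[24],[],[]⟩ h3_G51 [75,76,77,78] (by decide +kernel) h3_o44 h3_n64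
theorem h3_n62  : Bd h3_T h3_G49 [75,76,77,78] :=
  r_psplit 76 [] (PT.br 3 PT.kid PT.ref) ⟨114,[23],[],[]⟩ h3_G50 [75,76,77,78] (by decide +kernel) h3_o43 h3_n63
theorem h3_n61  : Bd h3_T h3_G48 [75,76,77,78] :=
  r_psplit 112 [] (PT.br 3 PT.kid PT.ref) ⟨113,[22],[],[]⟩ h3_G49 [75,76,77,78] (by decide +kernel) h3_o42 h3_n62
theorem h3_n60  : Bd h3_T h3_G24 [75,76,77,78] :=
  r_psplit 75 [3] PT.kid ⟨112,[21],[],[]⟩ h3_G48 [75,76,77,78] (by decide +kernel) h3_o41 h3_n61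
theorem h3_n59  : Bd h3_T h3_G38 [98] :=
  r_apply lem_D2 [0] [(98,0x4000000000000000000000000)] (by decide +kernel) h3_o40
theorem h3_n58  : Bd h3_T h3_G47 [100,105,102] :=
  r_apply lem_D2 [0,0,0] [(100,0x240000000000000000000000000),(105,0x50000000000000000000000000),(102,0x210000000000000000000000000)] (by decide +kernel) h3_o39
theorem h3_n57  : Bd h3_T h3_G46 [100,105,102,109,110,111] :=
  r_kill [109,110,111] ⟨112,[],[],[]⟩ h3_G47 [100,105,102] (by decide +kernel) h3_o38 h3_n58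
theorem h3_n56  : Bd h3_T h3_G45 [100,105,102,106,107,108] :=
  r_hit [106,107,108] h3_h56 ⟨109,[],[72,73,74],[]⟩ h3_G46 [100,105,102,109,110,111] (by decide +kernel) h3_o37 h3_n57
theorem h3_n55  : Bd h3_T h3_G45 [100,101,102,103] :=
  r_act [18,19] [100,105,102,106,107,108] (by decide +kernel) h3_n56
theorem h3_n54  : Bd h3_T h3_G44 [100,101,102,103] :=
  r_psplit 103 [] (PT.br 4 (PT.br 5 PT.kid PT.kid) (PT.br 5 PT.kid PT.ref)) ⟨106,[20],[],[]⟩ h3_G45 [100,101,102,103] (by decide +kernel) h3_o36 h3_n55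
theorem h3_n53  : Bd h3_T h3_G41 [100,101,102,103] :=
  r_psplit 101 [4,5] PT.kid ⟨105,[19],[],[]⟩ h3_G44 [100,101,102,103] (by decide +kernel) h3_o35 h3_n54
theorem h3_n52  : Bd h3_T h3_G43 [100,102,103] :=
  r_apply lem_D2 [0,0,0] [(100,0xc0000000000000000000000000),(102,0x10000000000000000000000000),(103,0x10000000000000000000000000)] (by decide +kernel) h3_o34
theorem h3_n51  : Bd h3_T h3_G42 [100,104,102,103] :=
  r_kill [104] ⟨105,[],[],[]⟩ h3_G43 [100,102,103] (by decide +kernel) h3_o33 h3_n52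
theorem h3_n50  : Bd h3_T h3_G40 [100,101,102,103] :=
  r_hit [101] h3_h50 ⟨104,[],[71],[]⟩ h3_G42 [100,104,102,103] (by decide +kernel) h3_o32 h3_n51
theorem h3_n49  : Bd h3_T h3_G39 [100,101,102,103] :=
  r_case [101,101] [] [0,1,2,3] ⟨104,[],[70],[]⟩ h3_G40 [100,101,102,103] h3_G41 [100,101,102,103] (by decide +kernel) h3_n50 h3_n53
theorem h3_n48  : Bd h3_T h3_G38 [82,84,99,87] :=
  r_twin 0 [14,1,3,3] ⟨100,[],[0,0,0,69],[]⟩ h3_G39 [100,101,102,103] (by decide +kernel) h3_o31 h3_n49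
theorem h3_n47  : Bd h3_T h3_G38 [82,84,98,99,87] :=
  r_split [82,84,99,87] [98] (by decide +kernel) h3_o30 h3_n48 h3_n59
theorem h3_n46  : Bd h3_T h3_G38 [82,84,85,87] :=
  r_act [17] [82,84,98,99,87] (by decide +kernel) h3_n47
theorem h3_n45  : Bd h3_T h3_G37 [82,84,85,87] :=
  r_def 85 0 [85] [] ⟨98,[18],[67,0,68],[]⟩ h3_G38 [82,84,85,87] (by decide +kernel) h3_n46
theorem h3_n44  : Bd h3_T h3_G36 [96,82,84,85,97,87] :=
  r_kill [96,97] ⟨98,[],[],[]⟩ h3_G37 [82,84,85,87] (by decide +kernel) h3_o29 h3_n45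
theorem h3_n43  : Bd h3_T h3_G35 [81,82,84,85,86,87] :=
  r_hit [81,86] h3_h43 ⟨96,[],[65,66],[]⟩ h3_G36 [96,82,84,85,97,87] (by decide +kernel) h3_o28 h3_n44
theorem h3_n42  : Bd h3_T h3_G35 [81,88,94,90,85,92,87] :=
  r_act [] [81,82,84,85,86,87] (by decide +kernel) h3_n43
theorem h3_n41  : Bd h3_T h3_G34 [81,88,94,95,90,91,85,92,93,87] :=
  r_close false 0 [7,9,13,16,8,10,11,14,12,15] [81,88,94,95,90,91,85,92,93,87] [0,0,0,0,1,1,1,1,1,1] [3] [1] 727 ⟨96,[],[],[]⟩ h3_G35 [81,88,94,90,85,92,87] (by decide +kernel) h3_o27 h3_n42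
theorem h3_n40  : Bd h3_T h3_G34 [81,88,89,90,91,85,92,93,87] :=
  r_act [16] [81,88,94,95,90,91,85,92,93,87] (by decide +kernel) h3_n41
theorem h3_n39  : Bd h3_T h3_G33 [81,88,89,90,91,85,92,93,87] :=
  r_def 89 0 [] [90,92] ⟨94,[17],[63,64],[]⟩ h3_G34 [81,88,89,90,91,85,92,93,87] (by decide +kernel) h3_n40
theorem h3_n38  : Bd h3_T h3_G33 [81,82,84,85,86,87] :=
  r_act [13,14,15] [81,88,89,90,91,85,92,93,87] (by decide +kernel) h3_n39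
theorem h3_n37  : Bd h3_T h3_G32 [81,82,84,85,86,87] :=
  r_def 86 0 [85,87] [] ⟨92,[16],[61,0,62],[]⟩ h3_G33 [81,82,84,85,86,87] (by decide +kernel) h3_n38
theorem h3_n36  : Bd h3_T h3_G31 [81,82,84,85,86,87] :=
  r_def 84 0 [85,87] [] ⟨90,[15],[59,0,60],[]⟩ h3_G32 [81,82,84,85,86,87] (by decide +kernel) h3_n37
theorem h3_n35  : Bd h3_T h3_G30 [81,82,84,85,86,87] :=
  r_def 82 0 [] [85,87] ⟨88,[14],[57,58],[]⟩ h3_G31 [81,82,84,85,86,87] (by decide +kernel) h3_n36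
theorem h3_n34  : Bd h3_T h3_G30 [76,77,78] :=
  r_act [9,10,11,12] [81,82,84,85,86,87] (by decide +kernel) h3_n35
theorem h3_n33  : Bd h3_T h3_G29 [76,77,78] :=
  r_psplit 78 [] (PT.br 3 PT.kid PT.kid) ⟨86,[13],[],[]⟩ h3_G30 [76,77,78] (by decide +kernel) h3_o26 h3_n34
theorem h3_n32  : Bd h3_T h3_G28 [76,77,78] :=
  r_psplit 83 [] (PT.br 3 PT.kid PT.kid) ⟨84,[12],[],[]⟩ h3_G29 [76,77,78] (by decide +kernel) h3_o25 h3_n33
theorem h3_n31  : Bd h3_T h3_G27 [76,77,78] :=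
  r_psplit 77 [3] PT.kid ⟨83,[11],[],[]⟩ h3_G28 [76,77,78] (by decide +kernel) h3_o24 h3_n32
theorem h3_n30  : Bd h3_T h3_G26 [76,77,78] :=
  r_psplit 76 [] (PT.br 3 PT.kid PT.kid) ⟨81,[10],[],[]⟩ h3_G27 [76,77,78] (by decide +kernel) h3_o23 h3_n31
theorem h3_n29  : Bd h3_T h3_G25 [76,78] :=
  r_apply lem_D2 [0,0] [(76,0x40000000000000000000),(78,0x10000000000000000000)] (by decide +kernel) h3_o22
theorem h3_n28  : Bd h3_T h3_G23 [76,77,78] :=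
  r_ext 77 2 [77,78] [] [76] [] [0,1,2] ⟨79,[],[],[]⟩ h3_G25 [76,78] ⟨80,[],[0,54,0,55,56],[]⟩ h3_G26 [76,77,78] (by decide +kernel) h3_o21 h3_n29 h3_n30
theorem h3_n27  : Bd h3_T h3_G22 [75,76,77,78] :=
  r_ext 75 2 [] [] [77] [] [0,1,2] ⟨79,[],[],[]⟩ h3_G23 [76,77,78] ⟨79,[],[],[]⟩ h3_G24 [75,76,77,78] (by decide +kernel) h3_o20 h3_n28 h3_n60
theorem h3_n26  : Bd h3_T h3_G22 [69,72] :=
  r_act [7,8] [75,76,77,78] (by decide +kernel) h3_n27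
theorem h3_n25  : Bd h3_T h3_G21 [69,72] :=
  r_def 72 2 [72] [69] ⟨77,[9],[50,0,51,52,53],[]⟩ h3_G22 [69,72] (by decide +kernel) h3_n26
theorem h3_n24  : Bd h3_T h3_G20 [69,72] :=
  r_def 69 2 [] [72] ⟨75,[8],[48,49],[]⟩ h3_G21 [69,72] (by decide +kernel) h3_n25
theorem h3_n23  : Bd h3_T h3_G19 [67,68] :=
  r_block [2,1] [2,3] [2,3] ⟨69,[7],[0,47],[1]⟩ h3_G20 [69,72] (by decide +kernel) h3_o19 h3_n24
theorem h3_n22  : Bd h3_T h3_G18 [65,66] :=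
  r_twin 0 [2,3] ⟨67,[],[0,46],[]⟩ h3_G19 [67,68] (by decide +kernel) h3_o18 h3_n23
theorem h3_n21  : Bd h3_T h3_G17 [54,56] :=
  r_hit [54,56] h3_h21 ⟨65,[],[45],[]⟩ h3_G18 [65,66] (by decide +kernel) h3_o17 h3_n22
theorem h3_n20  : Bd h3_T h3_G17 [54,56,57,58,59,60] :=
  r_split [54,56] [57,58,59,60] (by decide +kernel) h3_o16 h3_n21 h3_n75
theorem h3_n19  : Bd h3_T h3_G16 [61,62,63,64,54,56,57,58,59,60] :=
  r_kill [61,62,63,64] ⟨65,[],[],[]⟩ h3_G17 [54,56,57,58,59,60] (by decide +kernel) h3_o15 h3_n20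
theorem h3_n18  : Bd h3_T h3_G15 [50,51,52,53,54,56,57,58,59,60] :=
  r_hit [50,51,52,53] h3_h18 ⟨61,[],[41,42,43,44],[]⟩ h3_G16 [61,62,63,64,54,56,57,58,59,60] (by decide +kernel) h3_o14 h3_n19
theorem h3_n17  : Bd h3_T h3_G15 [1,2] :=
  r_act [3,4,5] [50,51,52,53,54,56,57,58,59,60] (by decide +kernel) h3_n18
theorem h3_n16  : Bd h3_T h3_G14 [1,2] :=
  r_psplit 55 [] (PT.br 0 (PT.br 1 (PT.br 2 PT.kid PT.ref) (PT.br 2 PT.ref PT.kid)) (PT.br 1 (PT.br 2 PT.ref PT.kid) (PT.br 2 PT.kid PT.kid))) ⟨56,[6],[],[]⟩ h3_G15 [1,2] (by decide +kernel) h3_o13 h3_n17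
theorem h3_n15  : Bd h3_T h3_G13 [1,2] :=
  r_psplit 2 [0,1,2] PT.kid ⟨55,[5],[],[]⟩ h3_G14 [1,2] (by decide +kernel) h3_o12 h3_n16
theorem h3_n14  : Bd h3_T h3_G1 [1,2] :=
  r_psplit 1 [] (PT.br 0 (PT.br 1 (PT.br 2 PT.kid PT.kid) (PT.br 2 PT.kid PT.ref)) (PT.br 1 (PT.br 2 PT.kid PT.ref) (PT.br 2 PT.ref PT.kid))) ⟨50,[4],[],[]⟩ h3_G13 [1,2] (by decide +kernel) h3_o11 h3_n15
theorem h3_n13  : Bd h3_T h3_G12 [43,44,45,46,47,48,49] :=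
  r_apply lem_D2 [0,0,0,0,0,0,0] [(43,0x3f00000000000),(44,0x3e80000000000),(45,0x3d80000000000),(46,0x3b80000000000),(47,0x3780000000000),(48,0x2f80000000000),(49,0x1f80000000000)] (by decide +kernel) h3_o10
theorem h3_n12  : Bd h3_T h3_G11 [13,15,38,39,40,41,42] :=
  r_hit [13,15,38,39,40,41,42] h3_h12 ⟨43,[],[33,34,35,36,37,38,39,40],[]⟩ h3_G12 [43,44,45,46,47,48,49] (by decide +kernel) h3_o9 h3_n13
theorem h3_n11  : Bd h3_T h3_G10 [13,15,19,21,22,23,24] :=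
  r_hit [19,21,22,23,24] h3_h11 ⟨38,[],[23,24,25,26,27,28,29,30,31,32],[]⟩ h3_G11 [13,15,38,39,40,41,42] (by decide +kernel) h3_o8 h3_n12
theorem h3_n10  : Bd h3_T h3_G9 [25,26,27,28,29,30,31,32,33,13,15,34,35,36,19,37,21,22,23,24] :=
  r_kill [25,26,27,28,29,30,31,32,33,34,35,36,37] ⟨38,[],[],[]⟩ h3_G10 [13,15,19,21,22,23,24] (by decide +kernel) h3_o7 h3_n11
theorem h3_n9  : Bd h3_T h3_G8 [4,5,6,7,8,9,10,11,12,13,15,16,17,18,19,20,21,22,23,24] :=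
  r_hit [4,5,6,7,8,9,10,11,12,16,17,18,20] h3_h9 ⟨25,[],[10,11,12,13,14,15,16,17,18,19,20,21,22],[]⟩ h3_G9 [25,26,27,28,29,30,31,32,33,13,15,34,35,36,19,37,21,22,23,24] (by decide +kernel) h3_o6 h3_n10
theorem h3_n8  : Bd h3_T h3_G8 [1,2] :=
  r_act [0,1,2] [4,5,6,7,8,9,10,11,12,13,15,16,17,18,19,20,21,22,23,24] (by decide +kernel) h3_n9
theorem h3_n7  : Bd h3_T h3_G7 [1,2] :=
  r_psplit 14 [] (PT.br 0 (PT.br 1 (PT.br 2 (PT.br 3 PT.kid PT.kid) (PT.br 3 PT.kid PT.ref)) (PT.br 2 (PT.br 3 PT.kid PT.ref) (PT.br 3 PT.ref PT.kid))) (PT.br 1 (PT.br 2 (PT.br 3 PT.kid PT.ref) (PT.br 3 PT.ref PT.kid)) (PT.br 2 (PT.br 3 PT.ref PT.kid) (PT.br 3 PT.kid PT.kid)))) ⟨15,[3],[],[]⟩ h3_G8 [1,2] (by decide +kernel) h3_o5 h3_n8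
theorem h3_n6  : Bd h3_T h3_G6 [1,2] :=
  r_psplit 2 [0,1,2,3] PT.kid ⟨14,[2],[],[]⟩ h3_G7 [1,2] (by decide +kernel) h3_o4 h3_n7
theorem h3_n5  : Bd h3_T h3_G3 [1,2] :=
  r_psplit 1 [] (PT.br 0 (PT.br 1 (PT.br 2 (PT.br 3 PT.kid PT.kid) (PT.br 3 PT.kid PT.ref)) (PT.br 2 (PT.br 3 PT.kid PT.ref) (PT.br 3 PT.ref PT.kid))) (PT.br 1 (PT.br 2 (PT.br 3 PT.kid PT.ref) (PT.br 3 PT.ref PT.kid)) (PT.br 2 (PT.br 3 PT.ref PT.kid) (PT.br 3 PT.kid PT.kid)))) ⟨4,[1],[],[]⟩ h3_G6 [1,2] (by decide +kernel) h3_o3 h3_n6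
theorem h3_n4  : Bd h3_T h3_G5 [1] :=
  r_apply lem_D2 [0] [] (by decide +kernel) h3_o2
theorem h3_n3  : Bd h3_T h3_G4 [1,3] :=
  r_kill [3] ⟨4,[],[],[]⟩ h3_G5 [1] (by decide +kernel) h3_o1 h3_n4
theorem h3_n2  : Bd h3_T h3_G2 [1,2] :=
  r_hit [2] h3_h2 ⟨3,[],[9],[]⟩ h3_G4 [1,3] (by decide +kernel) h3_o0 h3_n3
theorem h3_n1  : Bd h3_T h3_G0 [1,2] :=
  r_case [2,2,2,2] [⟨0,1,false⟩,⟨0,2,false⟩,⟨0,3,false⟩,⟨1,2,false⟩,⟨1,3,false⟩,⟨2,3,false⟩] [] ⟨3,[],[8],[]⟩ h3_G2 [1,2] h3_G3 [1,2] (by decide +kernel) h3_n2 h3_n5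
theorem h3_n0  : Bd h3_T (pureCtx 2 6) (pureAct 2) :=
  show Bd _ _ [1,2] from r_case [2,2,2] [⟨0,1,true⟩,⟨0,2,true⟩,⟨1,2,true⟩] [] ⟨3,[],[7],[]⟩ h3_G0 [1,2] h3_G1 [1,2] (by decide +kernel) h3_n1 h3_n14
theorem lem_h3  : Lem h3_T 2 6 := ⟨by decide +kernel, h3_n0⟩

end Pool.Agent.Lib.MP_849b2e_co
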