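import Pool.Agent.Lib.MP_849b2e_co.Fast
import Pool.Agent.Lib.MP_849b2e_co.Thh
import Pool.Agent.Lib.MP_849b2e_co.RApply
import Pool.Agent.Lib.MP_849b2e_co.Th2
import Pool.Agent.Lib.MP_849b2e_co.Th3
import Pool.Agent.Lib.MP_849b2e_co.Codes

set_option maxRecDepth 100000
set_option linter.all false
namespace Pool.Agent.Lib.MP_849b2e_co

noncomputable def hh_o0c : Pq := (Pq.cons (Pq.L [] 63 (Pf.B 5 2 (Pf.B 5 3 (Pf.B 5 0 (Pf.B 5 1 (Pf.B 4 3 (Pf.B 4 1 (Pf.B 3 0 (Pf.B 3 1 (Pf.B 2 1 (Pf.C 7 0x2840004182) (Pf.C 2 49282)) (Pf.C 2 385)) (Pf.C 2 32771)) (Pf.C 2 82052)) (Pf.C 2 82308)) (Pf.C 2 641)) (Pf.C 2 65541)) (Pf.C 2 33411)) (Pf.C 2 65797)))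
 Pq.nil)
theorem hh_o0 : AllRef hh_T hh_G0 [⟨[[1],[1],[1],[1],[1],[1]],[⟨0,1,true⟩,⟨2,3,true⟩,⟨4,5,true⟩,⟨0,2,false⟩,⟨0,4,false⟩,⟨2,4,false⟩],[],[]⟩] :=
  chkPq_sound hh_o0c _ (by decide +kernel)
noncomputable def hh_o1c : Pq := (Pq.cons (Pq.L [] 7 (Pf.B 3 0 (Pf.B 3 1 (Pf.B 2 1 (Pf.C 8 16770) (Pf.C 2 49282)) (Pf.C 2 385)) (Pf.C 2 32771)))
 Pq.nil)
theorem hh_o1 : AllRef hh_T hh_G2 [⟨[[1],[1],[1],[1]],[⟨0,1,true⟩,⟨2,3,true⟩,⟨0,2,false⟩],[],[]⟩] :=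
  chkPq_sound hh_o1c _ (by decide +kernel)
noncomputable def hh_o2c : Pq := (Pq.cons (Pq.L [] 0 (Pf.W 10 0 [] [] (Pf.cons (Pf.T 1 0 (Pf.cons (Pf.C 12 1) (Pf.cons (Pf.C 11 1) Pf.nil))) Pf.nil)))
 Pq.nil)
theorem hh_o2 : AllRef hh_T hh_G6 (List.map pat1 [3]) :=
  chkPq_sound hh_o2c _ (by decide +kernel)
noncomputable def hh_o3c : Pq := (Pq.cons (Pq.L [] 1023 (Pf.C 0 0x40608080))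
 (Pq.cons (Pq.L [] 1023 (Pf.C 1 0x40608080))
 (Pq.cons (Pq.L [] 1 (Pf.C 11 128))
 (Pq.cons (Pq.L [] 7 (Pf.C 3 32896))
 (Pq.cons (Pq.L [] 63 (Pf.C 5 0x608080))
 (Pq.cons (Pq.L [] 63 (Pf.C 6 0x608080))
 Pq.nil))))))
theorem hh_o3 : AllRef hh_T hh_G8 (applyObl h3_T 6 [4,2] [1,2] []) :=
  chkPq_sound hh_o3c _ (by decide +kernel)
noncomputable def hh_o4c : Pq := Pq.nil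
theorem hh_o4 : AllRef hh_T hh_G7 (ptObl 3 PT.kid []) :=
  chkPq_sound hh_o4c _ (by decide +kernel)
noncomputable def hh_o5c : Pq := (Pq.cons (Pq.L [0,1] 0 (Pf.B 2 1 (Pf.W 10 2 [] [0,1] (Pf.cons (Pf.C 9 0x200182) Pf.nil)) (Pf.C 2 257)))
 (Pq.cons (Pq.L [0,1] 0 (Pf.C 2 16640))
 Pq.nil))
theorem hh_o5 : AllRef hh_T hh_G9 (ptObl 5 (PT.br 0 PT.ref (PT.br 1 PT.ref PT.kid)) []) :=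
  chkPq_sound hh_o5c _ (by decide +kernel)
noncomputable def hh_o6c : Pq := (Pq.cons (Pq.L [1] 0 (Pf.C 11 130))
 (Pq.cons (Pq.L [0] 0 (Pf.C 11 2))
 Pq.nil))
theorem hh_o6 : AllRef hh_T hh_G10 (ptObl 4 (PT.br 0 (PT.br 1 PT.kid PT.ref) PT.ref) []) :=
  chkPq_sound hh_o6c _ (by decide +kernel)
noncomputable def hh_o7c : Pq := Pq.nil
theorem hh_o7 : AllRef hh_T hh_G11 (ptObl 2 (PT.br 0 (PT.br 1 PT.kid PT.kid) (PT.br 1 PT.kid PT.kid)) []) :=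
  chkPq_sound hh_o7c _ (by decide +kernel)
noncomputable def hh_o8c : Pq := (Pq.cons (Pq.L [0,1] 3 (Pf.B 5 3 (Pf.B 4 3 (Pf.B 4 2 (Pf.C 2 33280) (Pf.C 0 0x20610080)) (Pf.C 0 0x30a10080)) (Pf.C 4 0x614080)))
 Pq.nil)
theorem hh_o8 : AllRef hh_T hh_G12 (hitObl [6,11] hh_h14) :=
  chkPq_sound hh_o8c _ (by decide +kernel)
noncomputable def hh_o9c : Pq := (Pq.cons (Pq.L [0,1] 511 (Pf.B 8 5 (Pf.C 2 82944) (Pf.B 10 5 (Pf.B 9 5 (Pf.B 8 7 (Pf.B 8 6 (Pf.B 8 2 (Pf.C 2 33792) (Pf.B 10 2 (Pf.B 9 2 (Pf.B 8 4 (Pf.B 8 3 (Pf.B 5 2 (Pf.C 2 33408) (Pf.B 7 2 (Pf.B 5 4 (Pf.B 5 3 (Pf.B 10 7 (Pf.B 10 4 (Pf.B 7 4 (Pf.C 1 0xa1000207) (Pf.B 7 3 (Pf.B 10 3 (Pf.C 1 0x70a0018a) (Pf.B 9 3 (Pf.B 9 7 (Pf.C 1 0x30400389) (Pf.B 9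 6 (Pf.B 9 4 (Pf.B 6 4 (Pf.C 1 0x91000206) (Pf.C 5 0x81c305)) (Pf.C 6 0x141c209)) (Pf.C 5 0x121c305))) (Pf.C 5 0x628488))) (Pf.C 5 0xe10182))) (Pf.B 10 3 (Pf.B 9 4 (Pf.B 7 3 (Pf.C 1 0xa1000187) (Pf.B 7 4 (Pf.B 9 7 (Pf.C 1 0x40400389) (Pf.B 9 6 (Pf.B 9 3 (Pf.B 6 3 (Pf.C 1 0x91000186) (Pf.C 5 0x61c305)) (Pf.C 6 0x141c189)) (Pf.C 5 0x121c305))) (Pf.C 5 0xe0c202))) (Pf.C 5 0x828488)) (Pf.C 5 0x1410182))) (Pf.B 10 6 (Pf.B 9 7 (Pf.B 10 4 (Pf.B 6 4 (Pf.C 1 0xa1000206) (Pf.B 7 4 (Pf.B 9 4 (Pf.C 1 0x70a00209) (Pf.B 9 6 (Pf.B 9 3 (Pf.B 7 3 (Pf.C 1 0x91000187) (Pf.B 6 3 (Pf.C 1 0x91000186) (Pf.C 5 0x61c305))) (Pf.C 5 0x1210182)) (Pf.C 6 0x1410309))) (Pf.C 5 0x818385))) (Pf.B 9 4 (Pf.B 7 4 (Pf.C 1 0x91000207)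 (Pf.C 6 0x121038a)) (Pf.C 5 0x828488))) (Pf.C 5 0xe28488)) (Pf.C 5 0x141c305))) (Pf.C 0 0x10600105)) (Pf.C 0 0x10800105)) (Pf.C 0 0x10e00282))) (Pf.C 0 0x10600108)) (Pf.C 0 0x10800108)) (Pf.C 0 0x11200402)) (Pf.C 0 0x11400402))) (Pf.C 0 0x10c00288)) (Pf.C 0 0x10e00288)) (Pf.C 0 0x11200405)) (Pf.C 0 0x11400405))))
 (Pq.cons (Pq.L [0,1] 56 (Pf.B 5 2 (Pf.C 2 33408) (Pf.B 7 2 (Pf.C 0 0xe08281) (Pf.B 6 2 (Pf.C 0 0x10c08385) (Pf.C 4 0xe18282)))))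
 (Pq.cons (Pq.L [0,1] 56 (Pf.B 5 2 (Pf.C 2 33408) (Pf.B 7 2 (Pf.C 0 0x10e08280) (Pf.B 6 2 (Pf.C 0 0xc08385) (Pf.C 4 0xe18282)))))
 (Pq.cons (Pq.L [0,1] 56 (Pf.B 5 2 (Pf.C 2 33408) (Pf.B 7 2 (Pf.B 6 2 (Pf.C 0 0xc08281) (Pf.C 0 0x50e08086)) (Pf.C 0 0x50e00082))))
 (Pq.cons (Pq.L [0,1] 56 (Pf.B 5 2 (Pf.C 2 33408) (Pf.B 7 2 (Pf.C 0 0x10e08280) (Pf.B 6 2 (Pf.C 0 0xc08281) (Pf.C 0 0x10e18282)))))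
 (Pq.cons (Pq.L [0,1] 56 (Pf.B 5 2 (Pf.C 2 33408) (Pf.B 7 2 (Pf.C 0 0x10e08280) (Pf.B 6 2 (Pf.C 0 0xc08281) (Pf.C 4 0xe18282)))))
 (Pq.cons (Pq.L [0,1] 56 (Pf.B 5 2 (Pf.C 2 33408) (Pf.B 7 2 (Pf.B 6 2 (Pf.C 0 0x10c08280) (Pf.C 0 0x50e08006)) (Pf.C 0 0x50e04002))))
 (Pq.cons (Pq.L [0,1] 63 (Pf.B 7 4 (Pf.B 7 3 (Pf.B 6 4 (Pf.B 6 3 (Pf.B 5 2 (Pf.B 7 2 (Pf.C 3 0x1c282) (Pf.B 6 2 (Pf.C 3 98946) (Pf.C 1 0x70418203))) (Pf.C 11 261)) (Pf.C 4 0x618080)) (Pf.C 4 0x818080)) (Pf.C 4 0x61c080)) (Pf.C 4 0x81c080)))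
 (Pq.cons (Pq.L [0,1] 511 (Pf.B 10 7 (Pf.B 10 6 (Pf.B 10 5 (Pf.C 1 0x228305) (Pf.C 1 0x70a28300)) (Pf.B 10 5 (Pf.B 9 5 (Pf.C 1 0xa0200289) (Pf.B 9 7 (Pf.C 1 0x70a24500) (Pf.B 9 6 (Pf.B 8 6 (Pf.C 1 0x61420480) (Pf.B 8 7 (Pf.B 10 4 (Pf.B 10 3 (Pf.B 10 2 (Pf.C 1 0x228182) (Pf.C 1 0x40428180)) (Pf.B 10 2 (Pf.B 9 2 (Pf.C 1 0xa0200109) (Pf.B 9 4 (Pf.C 1 0x40424500) (Pf.B 9 3 (Pf.B 8 3 (Pf.C 1 0x31420480) (Pf.B 8 4 (Pf.B 7 4 (Pf.C 1 0x4121c400) (Pf.C 5 0x1210381)) (Pf.C 6 0x828188))) (Pf.C 6 0x610109)))) (Pf.B 9 4 (Pf.B 9 3 (Pf.C 1 0x40200189) (Pf.C 1 0xa0624200)) (Pf.B 9 2 (Pf.B 9 3 (Pf.C 1 0x2140c009) (Pf.B 8 3 (Pf.B 8 4 (Pf.C 1 0x31210008) (Pf.B 8 2 (Pf.C 1 0x20820180) (Pf.C 6 0x1208404))) (Pf.C 6 0x1228403)))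 (Pf.C 6 0x1410482))))) (Pf.B 10 2 (Pf.B 9 2 (Pf.C 1 0xa0200109) (Pf.B 9 4 (Pf.B 8 4 (Pf.C 1 0x210488) (Pf.C 5 0x1028201)) (Pf.C 6 0x1408484))) (Pf.C 5 0x410501))) (Pf.C 6 0xe28308))) (Pf.C 6 0xc1c289)))) (Pf.B 9 7 (Pf.B 9 6 (Pf.C 1 0x70200309) (Pf.C 1 0xa0c24380)) (Pf.B 9 5 (Pf.B 9 6 (Pf.C 1 0x51418009) (Pf.B 8 6 (Pf.B 8 7 (Pf.C 1 0x6121c008) (Pf.B 8 5 (Pf.C 1 0x50e20300) (Pf.C 6 0x1214407))) (Pf.C 6 0x1228406))) (Pf.C 6 0x141c485))))) (Pf.B 10 5 (Pf.B 9 5 (Pf.C 1 0xa0200289) (Pf.B 9 7 (Pf.B 8 7 (Pf.C 1 0x21c488) (Pf.C 5 0x1028381)) (Pf.C 6 0x1414487))) (Pf.C 5 0xa1c501))))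
 (Pq.cons (Pq.L [0,1] 39 (Pf.B 7 4 (Pf.B 7 3 (Pf.B 7 2 (Pf.C 1 0x4040c007) (Pf.B 6 3 (Pf.C 1 0x70200186) (Pf.B 6 4 (Pf.B 6 2 (Pf.C 1 0x70410006) (Pf.C 6 0x80c302)) (Pf.C 1 0x30c10380)))) (Pf.B 7 2 (Pf.B 6 2 (Pf.C 1 0x70200106) (Pf.B 6 4 (Pf.C 1 0x40418380) (Pf.B 6 3 (Pf.C 6 0x610302) (Pf.C 6 0xe08303)))) (Pf.C 6 0x80c382))) (Pf.B 7 2 (Pf.B 6 2 (Pf.C 1 0x70200106) (Pf.B 6 4 (Pf.B 6 3 (Pf.C 1 0x40200186) (Pf.C 6 0x80c302)) (Pf.C 6 0xe08304))) (Pf.C 5 0x410381))))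
 (Pq.cons (Pq.L [0,1] 511 (Pf.B 10 7 (Pf.B 10 6 (Pf.B 10 5 (Pf.C 1 0x10028305) (Pf.C 1 0x70a28301)) (Pf.B 10 5 (Pf.B 9 5 (Pf.C 1 0xa0004289) (Pf.B 9 7 (Pf.C 1 0x70a24501) (Pf.B 9 6 (Pf.B 8 6 (Pf.C 1 0x61420481) (Pf.B 8 7 (Pf.B 10 4 (Pf.B 10 3 (Pf.B 10 2 (Pf.C 1 0x10028182) (Pf.C 1 0x40428181)) (Pf.B 10 2 (Pf.B 9 2 (Pf.C 1 0xa0004109) (Pf.B 9 4 (Pf.C 1 0x40424501) (Pf.B 9 3 (Pf.B 8 3 (Pf.C 1 0x31420481) (Pf.B 8 4 (Pf.B 7 4 (Pf.C 1 0x4121c401) (Pf.C 5 0x1210380)) (Pf.C 6 0x828188))) (Pf.C 6 0x610109)))) (Pf.B 9 4 (Pf.B 9 3 (Pf.C 1 0x40004189) (Pf.C 1 0xa0624201)) (Pf.B 9 2 (Pf.B 9 3 (Pf.C 1 0x2140c089) (Pf.B 8 3 (Pf.B 8 4 (Pf.C 1 0x31210088) (Pf.B 8 2 (Pf.C 1 0x20820181) (Pf.C 6 0x1208404))) (Pf.C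 6 0x1228403))) (Pf.C 6 0x1410482))))) (Pf.B 10 2 (Pf.B 9 2 (Pf.C 1 0xa0004109) (Pf.B 9 4 (Pf.B 8 4 (Pf.C 1 0x10010488) (Pf.C 5 0x1028200)) (Pf.C 6 0x1408484))) (Pf.C 5 0x410500))) (Pf.C 6 0xe28308))) (Pf.C 6 0xc1c289)))) (Pf.B 9 7 (Pf.B 9 6 (Pf.C 1 0x70004309) (Pf.C 1 0xa0c24381)) (Pf.B 9 5 (Pf.B 9 6 (Pf.C 1 0x51418089) (Pf.B 8 6 (Pf.B 8 7 (Pf.C 1 0x6121c088) (Pf.B 8 5 (Pf.C 1 0x50e20301) (Pf.C 6 0x1214407))) (Pf.C 6 0x1228406))) (Pf.C 6 0x141c485))))) (Pf.B 10 5 (Pf.B 9 5 (Pf.C 1 0xa0004289) (Pf.B 9 7 (Pf.B 8 7 (Pf.C 1 0x1001c488) (Pf.C 5 0x1028380)) (Pf.C 6 0x1414487))) (Pf.C 5 0xa1c500))))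
 (Pq.cons (Pq.L [0,1] 39 (Pf.B 7 4 (Pf.B 7 3 (Pf.B 7 2 (Pf.C 1 0x4040c087) (Pf.B 6 3 (Pf.C 1 0x70004186) (Pf.B 6 4 (Pf.B 6 2 (Pf.C 1 0x70410086) (Pf.C 6 0x80c302)) (Pf.C 1 0x30c10381)))) (Pf.B 7 2 (Pf.B 6 2 (Pf.C 1 0x70004106) (Pf.B 6 4 (Pf.C 1 0x40418381) (Pf.B 6 3 (Pf.C 6 0x610302) (Pf.C 6 0xe08303)))) (Pf.C 6 0x80c382))) (Pf.B 7 2 (Pf.B 6 2 (Pf.C 1 0x70004106) (Pf.B 6 4 (Pf.B 6 3 (Pf.C 1 0x40004186) (Pf.C 6 0x80c302)) (Pf.C 6 0xe08304))) (Pf.C 5 0x410380))))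
 (Pq.cons (Pq.L [0,1] 4055 (Pf.B 10 7 (Pf.B 10 4 (Pf.B 7 4 (Pf.B 10 5 (Pf.B 10 2 (Pf.B 10 3 (Pf.C 1 0x40028103) (Pf.B 8 7 (Pf.C 1 0xa001c288) (Pf.B 8 3 (Pf.C 1 0x140c108) (Pf.B 7 3 (Pf.B 7 2 (Pf.C 1 0x4001c182) (Pf.C 1 0x80e08505)) (Pf.C 6 0x1420383))))) (Pf.C 1 0x1408405)) (Pf.B 10 2 (Pf.C 1 0x51400402) (Pf.B 9 5 (Pf.C 1 0x1414409) (Pf.B 9 2 (Pf.C 1 0x1408409) (Pf.C 1 0x51208400))))) (Pf.C 4 0x81c080)) (Pf.C 4 0x828080)) (Pf.C 4 0xe28080)))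
 (Pq.cons (Pq.L [0,1] 4095 (Pf.B 10 7 (Pf.B 10 4 (Pf.B 7 4 (Pf.B 10 6 (Pf.B 10 5 (Pf.C 1 0x70028305) (Pf.B 10 2 (Pf.C 6 0x1420105) (Pf.B 7 2 (Pf.B 8 7 (Pf.B 8 6 (Pf.C 1 0xa001c308) (Pf.B 8 4 (Pf.C 1 0xa0420384) (Pf.B 6 4 (Pf.C 1 0x41018507) (Pf.B 6 2 (Pf.C 6 0x410308) (Pf.C 6 0x1420302))))) (Pf.C 6 0xe14108)) (Pf.C 6 0xe28282)))) (Pf.B 10 5 (Pf.B 10 2 (Pf.B 10 3 (Pf.C 1 0x40028103) (Pf.B 9 7 (Pf.B 9 5 (Pf.C 1 0xa001c289) (Pf.B 9 2 (Pf.C 6 0x1220105) (Pf.B 8 7 (Pf.C 1 0xa001c488) (Pf.B 7 2 (Pf.C 6 0xe14108) (Pf.C 6 0x1220382))))) (Pf.B 9 5 (Pf.B 9 2 (Pf.B 9 3 (Pf.C 1 0x140c109) (Pf.B 7 3 (Pf.B 7 2 (Pf.C 1 0x4001c182) (Pf.B 8 7 (Pf.C 6 0xe14402) (Pf.C 6 0x1208407))) (Pf.C 6 0x1424383))) (Pf.C 6 0x1220282))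 (Pf.B 9 2 (Pf.C 6 0x1220105) (Pf.B 7 2 (Pf.C 6 0xe14109) (Pf.B 9 4 (Pf.B 8 7 (Pf.C 6 0xe14402) (Pf.B 8 4 (Pf.C 1 0xa0010488) (Pf.C 6 0x81c108))) (Pf.C 6 0x81c109))))))) (Pf.C 6 0x1420282)) (Pf.B 10 2 (Pf.C 6 0x1420105) (Pf.B 7 2 (Pf.B 8 7 (Pf.B 8 4 (Pf.C 1 0xa0420384) (Pf.B 6 2 (Pf.C 6 0xc1410a) (Pf.B 8 6 (Pf.C 6 0xc14402) (Pf.B 6 4 (Pf.C 6 0x808308) (Pf.C 6 0x1420206))))) (Pf.C 6 0xe14108)) (Pf.C 6 0xe28282))))) (Pf.C 4 0x81c080)) (Pf.C 4 0x828080)) (Pf.C 4 0xe28080)))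
 (Pq.cons (Pq.L [0,1] 4095 (Pf.B 10 7 (Pf.B 10 4 (Pf.B 7 4 (Pf.B 10 6 (Pf.B 10 5 (Pf.B 10 2 (Pf.C 1 0x81400282) (Pf.B 9 7 (Pf.B 9 6 (Pf.C 1 0xa001c309) (Pf.B 9 5 (Pf.B 9 2 (Pf.C 1 0x1408289) (Pf.C 1 0x81208280)) (Pf.C 6 0xe18485))) (Pf.B 8 7 (Pf.B 9 5 (Pf.B 9 2 (Pf.C 1 0x1408289) (Pf.C 1 0x81208280)) (Pf.C 6 0x101c289)) (Pf.C 6 0x1424388)))) (Pf.B 10 3 (Pf.B 10 2 (Pf.B 9 7 (Pf.B 9 6 (Pf.C 1 0xa001c309) (Pf.B 9 5 (Pf.B 9 2 (Pf.C 1 0x51400109) (Pf.C 1 0x81208280)) (Pf.C 6 0xe18485))) (Pf.B 9 5 (Pf.B 9 2 (Pf.C 1 0x51400109) (Pf.C 1 0x81208280)) (Pf.C 6 0x141c485))) (Pf.B 9 7 (Pf.B 9 6 (Pf.C 1 0xa001c309) (Pf.B 9 5 (Pf.B 9 2 (Pf.B 8 6 (Pf.B 7 2 (Pf.C 1 0x50e00482) (Pf.B 7 3 (Pf.B 9 3 (Pf.C 1 0xa001c189)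 (Pf.B 8 3 (Pf.B 6 3 (Pf.C 1 0x81400186) (Pf.C 6 0x100c309)) (Pf.C 6 0x1424188))) (Pf.C 6 0x80c382))) (Pf.C 6 0x1424308)) (Pf.C 1 0x81208280)) (Pf.C 6 0xe18485))) (Pf.B 9 5 (Pf.B 9 2 (Pf.B 8 7 (Pf.B 7 2 (Pf.C 1 0x50e00402) (Pf.B 7 3 (Pf.B 6 3 (Pf.C 1 0xa001c186) (Pf.B 6 4 (Pf.B 6 2 (Pf.B 9 6 (Pf.C 1 0x21400309) (Pf.C 1 0x50c24100)) (Pf.C 6 0x80c302)) (Pf.C 1 0x30c10507))) (Pf.C 6 0x80c382))) (Pf.C 6 0x1424388)) (Pf.C 1 0x81208280)) (Pf.C 6 0x141c485)))) (Pf.B 10 2 (Pf.B 8 3 (Pf.B 5 3 (Pf.B 9 7 (Pf.B 9 6 (Pf.C 1 0xa001c309) (Pf.B 9 5 (Pf.B 9 3 (Pf.B 9 2 (Pf.C 1 0x51400109) (Pf.C 1 0x30424280)) (Pf.C 1 0x8120c280)) (Pf.C 6 0xe18485))) (Pf.B 9 5 (Pf.B 9 3 (Pf.B 9 2 (Pf.C 1 0x51400109) (Pf.C 1 0x30424280))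 (Pf.C 1 0x8120c280)) (Pf.C 6 0x141c485))) (Pf.C 6 0x428283)) (Pf.C 6 0x428403)) (Pf.C 6 0x80c502)))) (Pf.B 10 5 (Pf.B 10 2 (Pf.C 1 0x81400282) (Pf.B 8 6 (Pf.B 6 2 (Pf.B 9 6 (Pf.B 9 2 (Pf.B 9 5 (Pf.C 1 0x21400289) (Pf.C 1 0x60a24100)) (Pf.C 1 0x81208300)) (Pf.B 9 5 (Pf.B 9 2 (Pf.C 1 0x1408289) (Pf.C 1 0x81208280)) (Pf.C 6 0x1018289))) (Pf.C 6 0xa28106)) (Pf.C 6 0xa28406))) (Pf.C 6 0xe18505))) (Pf.C 4 0x81c080)) (Pf.C 4 0x828080)) (Pf.C 4 0xe28080)))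
 (Pq.cons (Pq.L [0,1] 4095 (Pf.B 10 7 (Pf.B 10 4 (Pf.B 10 6 (Pf.B 10 5 (Pf.B 10 2 (Pf.C 6 0x1414108) (Pf.B 10 3 (Pf.B 9 5 (Pf.B 9 2 (Pf.C 6 0x1214108) (Pf.B 9 4 (Pf.B 9 3 (Pf.C 1 0xa0010189) (Pf.C 6 0x80c482)) (Pf.C 6 0x1410482))) (Pf.C 6 0x1414488)) (Pf.C 6 0x80c502))) (Pf.B 9 5 (Pf.C 6 0x1228288) (Pf.B 9 7 (Pf.B 9 6 (Pf.C 1 0xa001c309) (Pf.C 6 0xe18485)) (Pf.C 6 0x141c485)))) (Pf.B 10 5 (Pf.B 10 2 (Pf.C 6 0x1414108) (Pf.B 10 3 (Pf.B 9 5 (Pf.B 9 2 (Pf.C 6 0x1214108) (Pf.B 9 4 (Pf.B 9 3 (Pf.C 1 0xa0010189) (Pf.C 6 0x80c482)) (Pf.C 6 0x1410482))) (Pf.C 6 0x1414488)) (Pf.C 6 0x80c502))) (Pf.C 6 0xe18505))) (Pf.C 4 0x828080)) (Pf.C 4 0xe28080)))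
 (Pq.cons (Pq.L [0,1] 63 (Pf.B 7 4 (Pf.B 7 3 (Pf.B 7 2 (Pf.B 5 2 (Pf.C 1 0x70200105) (Pf.B 6 2 (Pf.C 1 0x20a18380) (Pf.B 6 4 (Pf.B 6 3 (Pf.C 1 0x30418200) (Pf.C 5 0x40c301)) (Pf.C 1 0x20c10380)))) (Pf.C 1 0x3041c200)) (Pf.B 7 2 (Pf.C 1 0x2061c200) (Pf.C 5 0x40c381))) (Pf.B 7 3 (Pf.B 7 2 (Pf.B 5 2 (Pf.C 1 0x70200105) (Pf.B 6 2 (Pf.C 1 0x20a18380) (Pf.B 6 3 (Pf.C 1 0x30418380) (Pf.C 5 0x40c301)))) (Pf.B 6 4 (Pf.B 6 2 (Pf.C 1 0x40e08006) (Pf.B 6 3 (Pf.C 1 0x30418200) (Pf.C 5 0x40c301))) (Pf.B 6 3 (Pf.C 1 0x70818003) (Pf.B 5 3 (Pf.C 1 0x30c14380) (Pf.C 5 0xa18181))))) (Pf.B 7 2 (Pf.B 5 2 (Pf.C 1 0x70200105) (Pf.B 6 2 (Pf.C 1 0x20a18380) (Pf.B 6 3 (Pf.B 6 4 (Pf.C 1 0x30e10006) (Pf.B 5 4 (Pf.C 6 0x808286)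 (Pf.C 5 0xa18201))) (Pf.C 5 0x40c301)))) (Pf.C 5 0x40c381)))))
 (Pq.cons (Pq.L [0,1] 511 (Pf.B 10 7 (Pf.B 10 6 (Pf.B 10 5 (Pf.C 1 0x70c1400a) (Pf.B 9 5 (Pf.B 9 7 (Pf.C 1 0x51424007) (Pf.B 9 6 (Pf.B 8 7 (Pf.B 8 6 (Pf.C 1 0xa1220006) (Pf.C 1 0x70c20500)) (Pf.C 5 0x1024381)) (Pf.C 6 0x141c309))) (Pf.C 5 0xa28481))) (Pf.B 10 5 (Pf.B 8 5 (Pf.C 1 0xa0200288) (Pf.B 9 5 (Pf.B 9 7 (Pf.B 9 6 (Pf.C 1 0x70c14009) (Pf.C 6 0xa28486)) (Pf.C 1 0xa121c280)) (Pf.C 6 0x1420289))) (Pf.C 5 0xa18501))) (Pf.B 10 6 (Pf.B 10 5 (Pf.B 8 5 (Pf.C 1 0xa0200288) (Pf.B 9 5 (Pf.B 9 7 (Pf.C 1 0x71424280) (Pf.B 9 6 (Pf.C 6 0xc28487) (Pf.C 6 0xa1c486))) (Pf.C 6 0x1420289))) (Pf.B 9 5 (Pf.B 9 7 (Pf.B 9 6 (Pf.C 1 0x70c14009) (Pf.B 8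 6 (Pf.B 8 7 (Pf.C 1 0xa0e18008) (Pf.B 8 5 (Pf.C 1 0xa0a18008) (Pf.B 10 4 (Pf.B 10 3 (Pf.B 10 2 (Pf.C 1 0x4060800a) (Pf.B 9 2 (Pf.B 9 4 (Pf.C 1 0x21424004) (Pf.B 9 3 (Pf.B 8 4 (Pf.B 8 3 (Pf.C 1 0xa1220003) (Pf.C 1 0x40620500)) (Pf.C 5 0x1024201)) (Pf.C 6 0x1410189))) (Pf.C 5 0x428481))) (Pf.B 10 2 (Pf.B 8 2 (Pf.C 1 0xa0200108) (Pf.B 9 2 (Pf.B 9 4 (Pf.B 9 3 (Pf.C 1 0x40608009) (Pf.C 6 0x428483)) (Pf.C 1 0xa1210100)) (Pf.C 6 0x1420109))) (Pf.C 5 0x40c501))) (Pf.B 5 4 (Pf.B 9 4 (Pf.B 8 4 (Pf.C 1 0x91014004) (Pf.B 8 3 (Pf.B 10 3 (Pf.B 9 3 (Pf.C 1 0xa1220003) (Pf.B 7 4 (Pf.B 7 3 (Pf.C 1 0x90610007) (Pf.B 5 3 (Pf.C 1 0x70610005) (Pf.B 5 2 (Pf.C 1 0x40200105) (Pf.C 6 0x808283)))) (Pf.C 5 0x1010381))) (Pf.C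 6 0x100c504)) (Pf.C 5 0x1010181))) (Pf.C 6 0xa1048a)) (Pf.C 5 0xa28201))))) (Pf.C 5 0x1024301))) (Pf.C 6 0xa1c48a)) (Pf.C 5 0xa28481))) (Pf.B 10 5 (Pf.C 6 0xa1c506) (Pf.C 5 0xa18501)))))
 (Pq.cons (Pq.L [0,1] 4088 (Pf.B 10 7 (Pf.B 10 6 (Pf.B 10 5 (Pf.B 10 2 (Pf.C 1 0x10028282) (Pf.C 1 0x81408281)) (Pf.B 9 7 (Pf.B 9 6 (Pf.C 1 0xa001c309) (Pf.B 9 5 (Pf.B 9 2 (Pf.C 1 0x224282) (Pf.C 1 0x81208280)) (Pf.C 5 0xa18481))) (Pf.B 9 5 (Pf.B 9 2 (Pf.C 1 0x224282) (Pf.C 1 0x81208280)) (Pf.C 6 0x141c485)))) (Pf.B 10 5 (Pf.B 10 2 (Pf.C 1 0x10028282) (Pf.C 1 0x81408281)) (Pf.C 6 0xe18505))) (Pf.B 10 5 (Pf.B 10 2 (Pf.C 1 0x10028282) (Pf.C 1 0x81408281)) (Pf.C 5 0xa1c500))))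
 (Pq.cons (Pq.L [0,1] 4095 (Pf.B 10 7 (Pf.B 10 6 (Pf.B 10 5 (Pf.B 10 2 (Pf.C 6 0x1414108) (Pf.B 10 4 (Pf.B 10 3 (Pf.B 9 5 (Pf.B 9 2 (Pf.C 6 0x1214108) (Pf.B 9 4 (Pf.B 9 3 (Pf.C 1 0xa0010189) (Pf.C 5 0x40c481)) (Pf.C 6 0x1410482))) (Pf.C 6 0x1414488)) (Pf.C 6 0x80c502)) (Pf.C 5 0x410500))) (Pf.B 9 5 (Pf.C 6 0x1228288) (Pf.B 9 7 (Pf.B 9 6 (Pf.C 1 0xa001c309) (Pf.C 5 0xa18481)) (Pf.C 6 0x141c485)))) (Pf.B 10 5 (Pf.B 10 2 (Pf.C 6 0x1414108) (Pf.B 10 4 (Pf.B 10 3 (Pf.B 9 5 (Pf.B 9 2 (Pf.C 6 0x1214108) (Pf.B 9 4 (Pf.B 9 3 (Pf.C 1 0xa0010189) (Pf.C 5 0x40c481)) (Pf.C 6 0x1410482))) (Pf.C 6 0x1414488)) (Pf.C 6 0x80c502)) (Pf.C 5 0x410500))) (Pf.C 6 0xe18505))) (Pf.B 10 5 (Pf.B 10 2 (Pf.C 6 0x1414108) (Pf.B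 10 4 (Pf.B 10 3 (Pf.B 9 5 (Pf.B 9 2 (Pf.C 6 0x1214108) (Pf.B 9 4 (Pf.B 9 3 (Pf.C 1 0xa0010189) (Pf.C 5 0x40c481)) (Pf.C 6 0x1410482))) (Pf.C 6 0x1414488)) (Pf.C 6 0x80c502)) (Pf.C 5 0x410500))) (Pf.C 5 0xa1c500))))
 (Pq.cons (Pq.L [0,1] 511 (Pf.B 10 7 (Pf.B 10 6 (Pf.B 10 5 (Pf.B 8 5 (Pf.C 1 0xa0004288) (Pf.B 9 5 (Pf.B 9 7 (Pf.C 1 0xa1204287) (Pf.B 9 6 (Pf.B 8 7 (Pf.B 8 6 (Pf.C 1 0x70c04508) (Pf.C 6 0x1214308)) (Pf.C 6 0xa24388)) (Pf.C 5 0xe18481))) (Pf.C 6 0x1420289))) (Pf.B 10 4 (Pf.B 10 3 (Pf.B 10 2 (Pf.B 8 2 (Pf.C 1 0xa0004108) (Pf.B 9 2 (Pf.B 9 4 (Pf.C 1 0xa1204104) (Pf.B 9 3 (Pf.B 8 4 (Pf.B 8 3 (Pf.C 1 0x40604508) (Pf.C 6 0x1208188)) (Pf.C 6 0x424208)) (Pf.C 5 0x80c481))) (Pf.C 6 0x1420109)))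 (Pf.B 9 7 (Pf.B 9 6 (Pf.B 9 4 (Pf.B 7 4 (Pf.C 1 0xa1204207) (Pf.B 7 3 (Pf.B 6 4 (Pf.B 9 3 (Pf.B 9 2 (Pf.B 6 3 (Pf.C 1 0x91400186) (Pf.B 6 2 (Pf.C 1 0x91408206) (Pf.C 5 0x40c301))) (Pf.C 6 0x628482)) (Pf.B 8 3 (Pf.B 8 7 (Pf.C 1 0xa001c188) (Pf.B 8 6 (Pf.B 8 4 (Pf.C 1 0xa0010308) (Pf.C 5 0x101c200)) (Pf.C 6 0x121c308))) (Pf.C 5 0x1024181))) (Pf.C 5 0xc1c200)) (Pf.C 5 0x610380))) (Pf.B 9 3 (Pf.B 9 2 (Pf.B 8 4 (Pf.B 8 3 (Pf.C 1 0x40604508) (Pf.B 8 2 (Pf.C 1 0x40004108) (Pf.C 6 0x120c108))) (Pf.C 6 0x1410409)) (Pf.C 6 0x828109)) (Pf.C 5 0x80c481))) (Pf.B 8 6 (Pf.B 8 7 (Pf.C 1 0x10c1c508) (Pf.B 9 4 (Pf.B 7 4 (Pf.C 1 0xa1204207) (Pf.B 8 4 (Pf.C 1 0x40e20501) (Pf.C 5 0x101c200))) (Pf.B 9 3 (Pf.B 9 2 (Pf.B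 8 4 (Pf.B 8 3 (Pf.C 1 0x40604508) (Pf.B 8 2 (Pf.C 1 0x40004108) (Pf.C 6 0x120c108))) (Pf.C 6 0x1410409)) (Pf.C 6 0x828109)) (Pf.C 5 0x80c481)))) (Pf.C 5 0x1024301))) (Pf.B 9 6 (Pf.B 9 5 (Pf.B 8 7 (Pf.B 8 6 (Pf.C 1 0x70c04508) (Pf.B 8 5 (Pf.C 1 0x70004288) (Pf.C 6 0x1218288))) (Pf.C 6 0x141c409)) (Pf.C 6 0xe28289)) (Pf.C 5 0xe18481)))) (Pf.B 10 2 (Pf.B 8 2 (Pf.C 1 0xa0004108) (Pf.B 9 2 (Pf.B 9 7 (Pf.B 7 2 (Pf.C 1 0xa1204107) (Pf.B 8 7 (Pf.C 1 0x70420501) (Pf.C 6 0x1208388))) (Pf.B 9 6 (Pf.B 9 5 (Pf.B 8 7 (Pf.B 8 6 (Pf.C 1 0x70c04508) (Pf.B 8 5 (Pf.C 1 0x70004288) (Pf.C 6 0x1218288))) (Pf.C 6 0x141c409)) (Pf.C 6 0xe28289)) (Pf.C 5 0xe18481))) (Pf.C 6 0x1420109))) (Pf.C 6 0x808503))) (Pf.B 9 4 (Pf.B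 5 4 (Pf.B 9 5 (Pf.B 7 4 (Pf.C 1 0x51410087) (Pf.B 6 4 (Pf.B 5 2 (Pf.C 1 0x40004105) (Pf.B 10 2 (Pf.B 8 2 (Pf.C 1 0xa0004108) (Pf.B 9 2 (Pf.B 8 5 (Pf.B 8 7 (Pf.C 1 0x1001c288) (Pf.B 8 6 (Pf.B 8 4 (Pf.C 1 0x50c04208) (Pf.C 5 0x101c200)) (Pf.C 6 0xa1c406))) (Pf.C 6 0x1208288)) (Pf.C 6 0x1420109))) (Pf.C 6 0x81410a))) (Pf.C 5 0xc1c200))) (Pf.C 6 0x81448a)) (Pf.C 5 0xa28200)) (Pf.C 5 0x1228200)))) (Pf.B 10 5 (Pf.B 9 6 (Pf.B 8 5 (Pf.C 1 0xa0004288) (Pf.B 9 5 (Pf.B 9 7 (Pf.C 1 0xa1204287) (Pf.B 8 7 (Pf.B 8 6 (Pf.B 10 4 (Pf.B 10 3 (Pf.B 10 2 (Pf.B 8 2 (Pf.C 1 0xa0004108) (Pf.B 9 2 (Pf.B 9 4 (Pf.C 1 0xa1204104) (Pf.B 9 3 (Pf.B 8 4 (Pf.B 8 3 (Pf.C 1 0x40604508) (Pf.C 6 0x1208188)) (Pf.C 6 0x424208)) (Pf.C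 5 0x80c481))) (Pf.C 6 0x1420109))) (Pf.B 9 4 (Pf.B 5 4 (Pf.C 1 0xa1204205) (Pf.B 8 4 (Pf.C 1 0x40a20501) (Pf.C 6 0x1214208))) (Pf.B 9 3 (Pf.B 9 2 (Pf.B 8 4 (Pf.B 8 3 (Pf.C 1 0x40604508) (Pf.B 8 2 (Pf.C 1 0x40004108) (Pf.C 6 0x120c108))) (Pf.C 6 0x1410409)) (Pf.C 6 0x828109)) (Pf.C 5 0x80c481)))) (Pf.B 10 2 (Pf.B 9 3 (Pf.B 8 2 (Pf.C 1 0xa0004108) (Pf.B 9 2 (Pf.B 9 4 (Pf.C 1 0xa1204104) (Pf.B 8 4 (Pf.B 7 4 (Pf.B 6 4 (Pf.C 1 0x70c04404) (Pf.B 6 3 (Pf.B 6 2 (Pf.C 1 0x91008006) (Pf.C 1 0x30418480)) (Pf.C 5 0x80c301))) (Pf.C 5 0x1210380)) (Pf.C 6 0x424208))) (Pf.C 6 0x1420109))) (Pf.C 5 0x140c481)) (Pf.C 6 0x808503))) (Pf.B 9 4 (Pf.B 6 4 (Pf.B 10 2 (Pf.B 8 2 (Pf.C 1 0xa0004108) (Pf.B 9 2 (Pf.B 7 2 (Pf.B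 7 4 (Pf.C 1 0x1121c104) (Pf.C 1 0xa081c101)) (Pf.C 1 0x8041c501)) (Pf.C 6 0x1420109))) (Pf.B 9 2 (Pf.B 6 2 (Pf.C 1 0x90218202) (Pf.C 6 0x80830a)) (Pf.C 6 0x80848a))) (Pf.C 5 0xc28200)) (Pf.C 5 0x1228200))) (Pf.C 6 0x1214308)) (Pf.C 6 0xa24388))) (Pf.C 6 0x1420289))) (Pf.C 5 0x1418481)) (Pf.C 6 0xe14506))) (Pf.B 9 7 (Pf.B 10 5 (Pf.B 8 5 (Pf.C 1 0xa0004288) (Pf.B 9 5 (Pf.B 10 4 (Pf.B 10 3 (Pf.B 10 2 (Pf.B 8 2 (Pf.C 1 0xa0004108) (Pf.B 9 2 (Pf.B 9 4 (Pf.C 1 0xa1204104) (Pf.B 9 3 (Pf.B 8 4 (Pf.B 8 3 (Pf.C 1 0x40604508) (Pf.C 6 0x1208188)) (Pf.C 6 0x424208)) (Pf.C 5 0x80c481))) (Pf.C 6 0x1420109))) (Pf.B 7 2 (Pf.B 7 4 (Pf.C 1 0x2141c084) (Pf.B 5 4 (Pf.C 1 0xa0e10085) (Pf.B 8 4 (Pf.C 1 0x40a20501) (Pf.B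 9 4 (Pf.C 6 0x1214208) (Pf.C 6 0x1420209))))) (Pf.C 5 0x428380))) (Pf.B 10 2 (Pf.B 8 2 (Pf.C 1 0xa0004108) (Pf.B 9 2 (Pf.B 9 4 (Pf.C 1 0xa1204104) (Pf.B 8 4 (Pf.B 5 4 (Pf.B 7 4 (Pf.C 1 0x11210287) (Pf.C 1 0xa0e10281)) (Pf.C 1 0x80a10501)) (Pf.C 6 0x424208))) (Pf.C 6 0x1420109))) (Pf.C 6 0x808503))) (Pf.B 9 4 (Pf.B 7 4 (Pf.B 5 4 (Pf.C 1 0x70010485) (Pf.B 8 4 (Pf.B 8 7 (Pf.C 1 0x4141c088) (Pf.B 8 2 (Pf.C 1 0x40004108) (Pf.B 7 2 (Pf.C 1 0x2101c201) (Pf.B 10 2 (Pf.C 6 0x1420107) (Pf.C 5 0x41c500))))) (Pf.C 6 0x1214208))) (Pf.C 6 0x121038a)) (Pf.C 5 0x1228200))) (Pf.C 6 0x1420289))) (Pf.B 9 5 (Pf.B 10 4 (Pf.B 10 3 (Pf.B 10 2 (Pf.B 8 2 (Pf.C 1 0xa0004108) (Pf.B 9 2 (Pf.B 9 4 (Pf.C 1 0xa1204104) (Pf.B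 9 3 (Pf.B 8 4 (Pf.B 8 3 (Pf.C 1 0x40604508) (Pf.C 6 0x1208188)) (Pf.C 6 0x424208)) (Pf.C 5 0x80c481))) (Pf.C 6 0x1420109))) (Pf.B 7 2 (Pf.B 9 2 (Pf.B 5 2 (Pf.C 1 0x90200105) (Pf.C 6 0xe0828a)) (Pf.C 6 0xe0848a)) (Pf.C 5 0x428380))) (Pf.B 9 3 (Pf.B 7 3 (Pf.B 5 3 (Pf.C 1 0x9020c385) (Pf.C 6 0xe0c28a)) (Pf.C 5 0x628380)) (Pf.C 5 0x140c481))) (Pf.B 9 4 (Pf.B 7 4 (Pf.B 5 4 (Pf.C 1 0x70010485) (Pf.C 5 0xa28200)) (Pf.C 6 0x121038a)) (Pf.C 5 0x1228200))) (Pf.C 6 0xe1448a))) (Pf.C 5 0x1228380))))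
 (Pq.cons (Pq.L [0,1] 511 (Pf.B 10 7 (Pf.B 10 6 (Pf.B 10 5 (Pf.B 10 4 (Pf.B 10 2 (Pf.B 5 2 (Pf.C 1 0xa0004105) (Pf.B 7 2 (Pf.C 1 0x20a1c501) (Pf.B 7 4 (Pf.C 1 0x4041c501) (Pf.C 5 0x410380)))) (Pf.B 9 4 (Pf.B 9 2 (Pf.B 8 2 (Pf.C 1 0x90200108) (Pf.C 6 0x120840a)) (Pf.C 6 0x828482)) (Pf.B 9 3 (Pf.B 9 2 (Pf.B 8 2 (Pf.C 1 0x90200108) (Pf.C 6 0x120840a)) (Pf.C 6 0x608484)) (Pf.C 5 0x80c481)))) (Pf.B 10 2 (Pf.B 8 4 (Pf.B 5 2 (Pf.C 1 0xa0004105) (Pf.B 7 2 (Pf.C 1 0x20a1c501) (Pf.B 7 4 (Pf.B 8 7 (Pf.C 1 0x41420087) (Pf.B 8 6 (Pf.B 8 5 (Pf.C 1 0x60200288) (Pf.C 6 0x141c288)) (Pf.C 6 0x141c308))) (Pf.C 5 0x410380)))) (Pf.C 5 0x1028200)) (Pf.C 5 0x410500))) (Pf.B 9 7 (Pf.B 9 5 (Pf.B 8 5 (Pf.C 1 0x90200288)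 (Pf.C 6 0x121440a)) (Pf.C 6 0xe28485)) (Pf.B 9 6 (Pf.B 9 5 (Pf.B 8 5 (Pf.C 1 0x90200288) (Pf.C 6 0x121440a)) (Pf.C 6 0xc14487)) (Pf.C 5 0xe18481)))) (Pf.B 9 6 (Pf.B 8 6 (Pf.B 8 5 (Pf.C 1 0x60200288) (Pf.B 10 5 (Pf.B 9 5 (Pf.B 8 7 (Pf.B 9 7 (Pf.C 1 0x60e00409) (Pf.B 10 4 (Pf.B 10 3 (Pf.B 10 2 (Pf.B 5 2 (Pf.C 1 0xa0004105) (Pf.B 8 2 (Pf.B 9 2 (Pf.C 1 0x80a08009) (Pf.B 9 4 (Pf.B 8 3 (Pf.C 1 0x20c108) (Pf.B 8 4 (Pf.B 7 4 (Pf.C 1 0x1121c404) (Pf.B 7 3 (Pf.B 7 2 (Pf.C 1 0x80604107) (Pf.C 5 0x410380)) (Pf.C 5 0x610380))) (Pf.C 6 0x140c208))) (Pf.C 6 0x1408209))) (Pf.C 6 0x1414108))) (Pf.B 9 4 (Pf.B 9 2 (Pf.B 8 2 (Pf.C 1 0x90200108) (Pf.C 6 0x120840a)) (Pf.C 6 0x828482)) (Pf.B 9 3 (Pf.B 9 2 (Pf.B 8 2 (Pf.C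 1 0x90200108) (Pf.C 6 0x120840a)) (Pf.C 6 0x608484)) (Pf.C 5 0x80c481)))) (Pf.B 9 3 (Pf.B 8 3 (Pf.B 8 2 (Pf.C 1 0x30200108) (Pf.B 10 2 (Pf.B 8 4 (Pf.B 9 4 (Pf.C 1 0x30800409) (Pf.B 7 4 (Pf.B 7 2 (Pf.C 1 0xa1008087) (Pf.C 1 0x4041c501)) (Pf.C 5 0x1210380))) (Pf.C 6 0x1408208)) (Pf.C 6 0x62010a))) (Pf.C 6 0x120c40a)) (Pf.C 5 0x140c481))) (Pf.B 10 3 (Pf.B 10 2 (Pf.B 8 4 (Pf.B 7 4 (Pf.C 1 0x81410087) (Pf.B 7 3 (Pf.B 7 2 (Pf.C 1 0xa001c182) (Pf.C 5 0x410380)) (Pf.C 5 0x610380))) (Pf.C 5 0x1028200)) (Pf.C 5 0x410500)) (Pf.C 5 0x610500)))) (Pf.C 6 0x1414388)) (Pf.C 1 0x80a24300)) (Pf.C 6 0xc2028a))) (Pf.C 6 0x121840a)) (Pf.C 5 0x1418481))) (Pf.B 10 6 (Pf.B 10 5 (Pf.B 9 7 (Pf.B 8 7 (Pf.B 10 4 (Pf.B 10 3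 (Pf.B 10 2 (Pf.B 5 2 (Pf.C 1 0xa0004105) (Pf.B 7 2 (Pf.B 8 2 (Pf.C 1 0x70004108) (Pf.B 8 5 (Pf.B 9 5 (Pf.C 1 0xe14409) (Pf.B 9 2 (Pf.B 9 3 (Pf.C 1 0x1424103) (Pf.B 9 4 (Pf.B 8 6 (Pf.C 1 0x218288) (Pf.B 8 4 (Pf.B 7 4 (Pf.C 1 0x80410087) (Pf.B 7 3 (Pf.B 6 4 (Pf.B 6 2 (Pf.B 9 6 (Pf.C 1 0x20800309) (Pf.B 6 3 (Pf.C 1 0x2080c506) (Pf.C 6 0xe24186))) (Pf.C 6 0xe20106)) (Pf.C 5 0xc1c200)) (Pf.C 5 0x610380))) (Pf.C 6 0x1408208))) (Pf.C 5 0x80c481))) (Pf.C 6 0x1414109))) (Pf.C 6 0x1408288))) (Pf.C 6 0x1414107))) (Pf.B 7 2 (Pf.B 9 2 (Pf.B 8 2 (Pf.C 1 0x90200108) (Pf.C 6 0xe0840a)) (Pf.C 6 0xe0848a)) (Pf.C 5 0x428380))) (Pf.B 9 3 (Pf.B 8 3 (Pf.B 8 2 (Pf.C 1 0x30200108) (Pf.B 10 2 (Pf.B 8 4 (Pf.B 9 4 (Pf.C 1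 0x30800409) (Pf.B 7 4 (Pf.C 1 0x11210407) (Pf.B 7 3 (Pf.C 1 0x9020c407) (Pf.C 5 0x610380)))) (Pf.C 6 0x1408208)) (Pf.C 6 0x62010a))) (Pf.C 6 0x120c40a)) (Pf.C 5 0x140c481))) (Pf.B 9 4 (Pf.B 8 4 (Pf.B 7 4 (Pf.C 1 0x4001c488) (Pf.C 6 0x101038a)) (Pf.C 5 0x1028200)) (Pf.C 5 0x1228200))) (Pf.C 5 0x1028380)) (Pf.C 5 0x1228380)) (Pf.C 5 0xa1c500)) (Pf.C 5 0xc1c500))))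
 (Pq.cons (Pq.L [0,1] 511 (Pf.B 10 7 (Pf.B 10 4 (Pf.B 7 4 (Pf.B 10 6 (Pf.B 10 5 (Pf.C 1 0x70028305) (Pf.B 10 3 (Pf.B 10 2 (Pf.C 1 0x40028182) (Pf.B 9 7 (Pf.B 9 6 (Pf.C 1 0xa001c309) (Pf.B 8 7 (Pf.C 1 0xa001c488) (Pf.B 9 4 (Pf.B 8 4 (Pf.C 1 0xa0010488) (Pf.C 1 0x71010509)) (Pf.B 6 4 (Pf.C 1 0x41218507) (Pf.C 0 0x90018084))))) (Pf.B 9 6 (Pf.B 9 5 (Pf.C 1 0x1414309) (Pf.B 9 4 (Pf.B 9 3 (Pf.C 1 0xa0010189) (Pf.B 7 3 (Pf.C 1 0x3121c504) (Pf.C 0 0x9000c087))) (Pf.B 5 4 (Pf.B 9 3 (Pf.B 9 2 (Pf.C 1 0x1408189) (Pf.B 7 2 (Pf.B 5 2 (Pf.C 1 0x70010105) (Pf.C 6 0x808289)) (Pf.C 5 0x424381))) (Pf.B 7 3 (Pf.B 7 2 (Pf.C 1 0x4001c182) (Pf.C 1 0xa041c203)) (Pf.C 6 0x80c389))) (Pf.C 5 0xa24201)))) (Pf.B 9 4 (Pf.B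 9 3 (Pf.C 1 0xa0010189) (Pf.B 7 3 (Pf.C 1 0x3121c504) (Pf.C 0 0x9000c087))) (Pf.B 6 4 (Pf.B 6 3 (Pf.C 1 0xa0010186) (Pf.B 9 3 (Pf.B 7 3 (Pf.C 1 0x4121c503) (Pf.C 1 0x6061c504)) (Pf.C 6 0x818189))) (Pf.C 6 0xe10309)))))) (Pf.B 5 3 (Pf.B 5 2 (Pf.C 1 0x30200105) (Pf.B 10 2 (Pf.B 9 7 (Pf.B 9 6 (Pf.C 1 0xa001c309) (Pf.B 8 7 (Pf.C 1 0xa001c488) (Pf.B 9 5 (Pf.B 8 5 (Pf.C 1 0x90200288) (Pf.B 8 2 (Pf.B 8 4 (Pf.C 1 0xa0010108) (Pf.B 9 4 (Pf.C 1 0x71010509) (Pf.B 6 4 (Pf.C 1 0x41218507) (Pf.C 0 0x90018084)))) (Pf.C 6 0x1408405))) (Pf.B 9 2 (Pf.B 9 4 (Pf.C 1 0xa0010109) (Pf.B 9 3 (Pf.C 1 0x140c109) (Pf.B 8 2 (Pf.C 1 0x90200108) (Pf.B 8 5 (Pf.B 8 3 (Pf.C 1 0x5120c008) (Pf.B 7 3 (Pf.B 7 2 (Pf.C 1 0x4120c107)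 (Pf.C 6 0xa20382)) (Pf.C 5 0x100c381))) (Pf.C 6 0x1208405))))) (Pf.C 6 0x1408485))))) (Pf.B 9 5 (Pf.B 8 5 (Pf.C 1 0x90200288) (Pf.B 8 2 (Pf.B 9 2 (Pf.C 1 0x80a08009) (Pf.B 9 3 (Pf.C 1 0x50424003) (Pf.B 7 3 (Pf.B 7 2 (Pf.C 1 0x4001c182) (Pf.C 5 0x424381)) (Pf.C 6 0x1424383)))) (Pf.C 6 0x1408405))) (Pf.B 9 2 (Pf.B 9 4 (Pf.C 1 0xa0010109) (Pf.B 9 3 (Pf.C 1 0x140c109) (Pf.B 8 2 (Pf.C 1 0x90200108) (Pf.B 8 5 (Pf.B 8 6 (Pf.C 1 0x51400308) (Pf.B 8 3 (Pf.C 1 0x5120c008) (Pf.B 7 3 (Pf.B 7 2 (Pf.C 1 0x4001c182) (Pf.B 8 7 (Pf.B 8 4 (Pf.C 1 0x71210508) (Pf.B 6 4 (Pf.C 1 0x41018507) (Pf.C 5 0x1010301))) (Pf.C 6 0x608388))) (Pf.C 6 0x1424383)))) (Pf.C 6 0x1208405))))) (Pf.C 6 0x1408485)))) (Pf.C 6 0x61410a)))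 (Pf.C 5 0xa28181)))) (Pf.B 10 5 (Pf.B 10 3 (Pf.B 10 2 (Pf.C 1 0x40028182) (Pf.B 6 2 (Pf.B 5 2 (Pf.C 1 0x60200105) (Pf.B 9 7 (Pf.B 9 5 (Pf.C 1 0xa001c289) (Pf.B 9 2 (Pf.B 9 6 (Pf.C 1 0x20a24006) (Pf.B 9 3 (Pf.C 1 0x21400189) (Pf.B 8 7 (Pf.C 1 0xa001c488) (Pf.B 8 2 (Pf.C 1 0x90200108) (Pf.B 8 5 (Pf.B 8 6 (Pf.C 1 0x51218008) (Pf.B 7 2 (Pf.B 9 4 (Pf.C 1 0x70010109) (Pf.B 7 3 (Pf.C 1 0x4120c107) (Pf.B 8 3 (Pf.B 8 4 (Pf.C 1 0xa0010188) (Pf.B 6 4 (Pf.C 1 0x70010106) (Pf.C 5 0x1010301))) (Pf.C 5 0x101c181)))) (Pf.C 6 0xa20382))) (Pf.C 6 0x1208405)))))) (Pf.C 6 0x1414482))) (Pf.B 9 6 (Pf.B 9 5 (Pf.C 1 0x61400289) (Pf.B 9 2 (Pf.C 1 0x20a24300) (Pf.C 6 0x1414482))) (Pf.B 9 5 (Pf.B 8 5 (Pf.C 1 0x90200288) (Pf.B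 8 2 (Pf.B 9 2 (Pf.C 1 0x80a08009) (Pf.B 8 6 (Pf.C 1 0x21218008) (Pf.B 8 3 (Pf.C 1 0x21400188) (Pf.B 7 2 (Pf.B 7 3 (Pf.C 1 0x4001c103) (Pf.B 8 7 (Pf.B 8 4 (Pf.C 1 0x70010108) (Pf.B 6 4 (Pf.C 1 0x70010106) (Pf.C 5 0x1010301))) (Pf.C 5 0x100c381))) (Pf.C 5 0x424381))))) (Pf.C 6 0x1414402))) (Pf.B 9 2 (Pf.B 9 3 (Pf.C 1 0x21400189) (Pf.B 8 2 (Pf.C 1 0x90200108) (Pf.B 8 5 (Pf.B 8 7 (Pf.C 1 0xa001c288) (Pf.B 7 3 (Pf.B 7 2 (Pf.C 1 0x4001c182) (Pf.C 6 0x1220107)) (Pf.C 0 0x9000c087))) (Pf.C 6 0x1208405)))) (Pf.C 6 0xc14109)))))) (Pf.C 5 0x428301))) (Pf.B 6 3 (Pf.B 10 2 (Pf.B 9 7 (Pf.B 9 5 (Pf.C 1 0xa001c289) (Pf.B 8 7 (Pf.C 1 0xa001c488) (Pf.B 9 4 (Pf.B 8 4 (Pf.C 1 0xa0010488) (Pf.C 1 0x71010509)) (Pf.B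 5 4 (Pf.C 1 0x41214507) (Pf.C 5 0xa24201))))) (Pf.B 9 6 (Pf.B 9 5 (Pf.C 1 0x61400289) (Pf.B 9 4 (Pf.B 9 2 (Pf.C 1 0xa0010109) (Pf.B 7 2 (Pf.C 1 0x2121c504) (Pf.C 5 0x424381))) (Pf.B 5 4 (Pf.B 6 4 (Pf.C 1 0x70010286) (Pf.C 1 0xa0c10385)) (Pf.C 5 0xa24201)))) (Pf.B 9 4 (Pf.B 9 2 (Pf.C 1 0xa0010109) (Pf.B 7 2 (Pf.C 1 0x2121c504) (Pf.C 5 0x424381))) (Pf.B 6 4 (Pf.B 7 3 (Pf.C 1 0x6140c207) (Pf.B 9 3 (Pf.B 9 2 (Pf.C 1 0x31400109) (Pf.B 7 2 (Pf.C 1 0xa061c202) (Pf.C 5 0x424381))) (Pf.C 6 0x81c189))) (Pf.C 6 0x1424206))))) (Pf.B 6 2 (Pf.B 6 4 (Pf.B 7 3 (Pf.C 1 0x6140c207) (Pf.B 7 2 (Pf.C 1 0x61408207) (Pf.C 1 0x30e08304))) (Pf.C 1 0x818182)) (Pf.C 5 0x428301))) (Pf.C 0 0x30018501))) (Pf.B 10 3 (Pf.B 10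 2 (Pf.C 1 0x40028182) (Pf.B 6 2 (Pf.B 5 2 (Pf.C 1 0x60200105) (Pf.C 6 0xc0828a)) (Pf.C 5 0x428301))) (Pf.B 6 3 (Pf.B 5 3 (Pf.B 7 3 (Pf.B 6 4 (Pf.C 1 0x70010186) (Pf.B 5 4 (Pf.C 1 0x70010185) (Pf.C 1 0x60814383))) (Pf.C 1 0xe0c305)) (Pf.C 5 0xa28181)) (Pf.C 0 0x30018501))))) (Pf.C 4 0x81c080)) (Pf.C 4 0x828080)) (Pf.C 4 0xe28080)))
 (Pq.cons (Pq.L [0,1] 511 (Pf.B 10 7 (Pf.B 10 4 (Pf.B 7 4 (Pf.B 10 6 (Pf.B 10 5 (Pf.B 9 7 (Pf.B 9 6 (Pf.C 1 0xa001c309) (Pf.B 9 5 (Pf.C 1 0xa001c289) (Pf.C 5 0xa18481))) (Pf.B 8 7 (Pf.B 8 6 (Pf.C 1 0xa001c308) (Pf.B 9 6 (Pf.B 8 5 (Pf.C 1 0xa001c288) (Pf.B 9 5 (Pf.C 6 0x1218288) (Pf.C 6 0xe20289))) (Pf.C 5 0x1018481))) (Pf.C 5 0x1024381))) (Pf.B 10 3 (Pf.B 9 7 (Pf.B 9 6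 (Pf.C 1 0xa001c309) (Pf.B 8 6 (Pf.B 8 7 (Pf.C 1 0xa001c308) (Pf.B 9 4 (Pf.B 9 3 (Pf.C 1 0xa0010189) (Pf.B 8 4 (Pf.C 1 0x9101c504) (Pf.B 8 3 (Pf.B 7 3 (Pf.C 1 0x4101c503) (Pf.C 1 0x9061c504)) (Pf.C 5 0x1024181)))) (Pf.B 8 4 (Pf.B 8 3 (Pf.C 1 0xa0010188) (Pf.B 9 3 (Pf.B 7 3 (Pf.C 1 0xa001c483) (Pf.C 5 0x100c381)) (Pf.C 5 0x100c481))) (Pf.C 5 0x1024201)))) (Pf.C 5 0x1024301))) (Pf.B 8 7 (Pf.B 9 4 (Pf.B 9 3 (Pf.C 1 0xa0010189) (Pf.B 8 3 (Pf.B 7 3 (Pf.C 1 0xa001c403) (Pf.C 6 0x100c389)) (Pf.C 5 0x1024181))) (Pf.B 8 4 (Pf.B 8 3 (Pf.C 1 0xa0010188) (Pf.B 9 3 (Pf.B 7 3 (Pf.C 1 0x4121c503) (Pf.C 1 0x8061c504)) (Pf.C 5 0x100c481))) (Pf.C 5 0x1024201))) (Pf.C 5 0x1024381))) (Pf.B 10 2 (Pf.B 5 3 (Pf.B 9 7 (Pf.B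 9 6 (Pf.C 1 0xa001c309) (Pf.B 9 5 (Pf.B 8 6 (Pf.B 8 7 (Pf.C 1 0xa001c308) (Pf.B 9 4 (Pf.B 9 2 (Pf.C 1 0xa0010109) (Pf.B 9 3 (Pf.B 7 3 (Pf.C 1 0x5140c487) (Pf.C 1 0xa061c484)) (Pf.C 5 0x40c481))) (Pf.B 8 4 (Pf.B 8 2 (Pf.C 1 0xa0010108) (Pf.B 9 2 (Pf.B 7 2 (Pf.C 1 0xa001c482) (Pf.C 6 0x1208388)) (Pf.C 6 0x820109))) (Pf.C 5 0x1024201)))) (Pf.C 5 0x1024301)) (Pf.C 5 0xa18481))) (Pf.B 8 7 (Pf.B 8 6 (Pf.C 1 0xa001c308) (Pf.B 8 5 (Pf.B 8 3 (Pf.C 1 0x20c288) (Pf.B 8 2 (Pf.B 8 4 (Pf.C 1 0xa0010108) (Pf.B 9 4 (Pf.B 9 2 (Pf.C 1 0xa0010109) (Pf.B 7 2 (Pf.C 1 0xa001c402) (Pf.C 5 0x424381))) (Pf.C 5 0x1010481))) (Pf.C 6 0x1408403))) (Pf.C 6 0x1418405))) (Pf.C 5 0x1024381))) (Pf.C 5 0xa28181)) (Pf.C 5 0x40c501))))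 (Pf.B 10 5 (Pf.B 10 3 (Pf.B 10 2 (Pf.B 9 4 (Pf.B 9 3 (Pf.C 1 0xa0010189) (Pf.B 9 2 (Pf.C 1 0xa0010109) (Pf.C 5 0x40c481))) (Pf.B 8 4 (Pf.B 8 3 (Pf.C 1 0xa0010188) (Pf.B 9 3 (Pf.B 8 2 (Pf.C 1 0xa0010108) (Pf.B 9 2 (Pf.C 6 0x120c108) (Pf.C 6 0x820109))) (Pf.C 5 0x100c481))) (Pf.C 5 0x1024201))) (Pf.B 6 2 (Pf.B 9 7 (Pf.B 9 4 (Pf.B 9 3 (Pf.C 1 0xa0010189) (Pf.B 8 3 (Pf.B 8 4 (Pf.C 1 0xa0010188) (Pf.B 8 7 (Pf.C 1 0x91010507) (Pf.B 7 3 (Pf.C 1 0x4101c503) (Pf.C 1 0x9061c504)))) (Pf.C 5 0x1024181))) (Pf.B 8 4 (Pf.B 8 7 (Pf.C 1 0x41220507) (Pf.B 8 3 (Pf.C 1 0xa0010188) (Pf.B 9 3 (Pf.B 7 3 (Pf.C 1 0xa001c483) (Pf.C 5 0x100c381)) (Pf.C 5 0x100c481)))) (Pf.C 5 0x1024201))) (Pf.B 8 7 (Pf.B 8 5 (Pf.C 1 0xa001c288)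 (Pf.B 8 6 (Pf.B 8 2 (Pf.C 1 0x60200108) (Pf.B 8 3 (Pf.B 8 4 (Pf.C 1 0xa0010188) (Pf.B 9 4 (Pf.B 9 3 (Pf.C 1 0xa0010189) (Pf.B 7 3 (Pf.C 1 0xa001c403) (Pf.C 6 0x100c389))) (Pf.C 5 0x1010481))) (Pf.C 6 0x140c402))) (Pf.C 6 0x1414406))) (Pf.C 5 0x1024381))) (Pf.C 5 0x428301))) (Pf.B 10 2 (Pf.B 6 3 (Pf.B 9 7 (Pf.B 9 5 (Pf.C 1 0xa001c289) (Pf.B 9 6 (Pf.B 9 4 (Pf.B 9 2 (Pf.C 1 0xa0010109) (Pf.B 9 3 (Pf.B 7 3 (Pf.C 1 0x6140c487) (Pf.C 1 0xa061c484)) (Pf.C 5 0x40c481))) (Pf.B 8 4 (Pf.B 8 7 (Pf.C 1 0x41220507) (Pf.B 8 2 (Pf.C 1 0xa0010108) (Pf.B 9 2 (Pf.B 7 2 (Pf.C 1 0xa001c482) (Pf.C 6 0x1208388)) (Pf.C 6 0x820109)))) (Pf.C 5 0x1024201))) (Pf.C 5 0xa18481))) (Pf.B 8 7 (Pf.B 8 5 (Pf.C 1 0xa001c288) (Pf.B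 8 6 (Pf.B 9 6 (Pf.B 9 4 (Pf.B 9 2 (Pf.C 1 0xa0010109) (Pf.B 9 3 (Pf.B 8 3 (Pf.B 7 3 (Pf.C 1 0x6140c407) (Pf.C 1 0xe0c406)) (Pf.C 1 0x9100c300)) (Pf.C 5 0x40c481))) (Pf.B 8 4 (Pf.B 8 2 (Pf.C 1 0xa0010108) (Pf.B 8 3 (Pf.B 7 3 (Pf.C 1 0x6140c407) (Pf.C 1 0xa061c404)) (Pf.C 6 0x1408403))) (Pf.C 5 0x1024201))) (Pf.B 9 4 (Pf.B 9 2 (Pf.C 1 0xa0010109) (Pf.B 9 3 (Pf.B 8 4 (Pf.C 1 0x71220504) (Pf.B 8 3 (Pf.C 1 0x61220003) (Pf.B 8 2 (Pf.B 7 2 (Pf.C 1 0xa001c402) (Pf.C 5 0x424381)) (Pf.C 6 0x80c108)))) (Pf.C 5 0x40c481))) (Pf.B 8 4 (Pf.B 8 2 (Pf.C 1 0xa0010108) (Pf.B 8 3 (Pf.B 9 3 (Pf.C 1 0x81218003) (Pf.B 7 3 (Pf.C 1 0x6140c407) (Pf.C 6 0x1424383))) (Pf.C 6 0x1408403))) (Pf.C 5 0x1024201)))) (Pf.C 6 0x1414406)))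 (Pf.C 5 0x1024381))) (Pf.C 0 0x30018501)) (Pf.C 5 0x40c501))) (Pf.C 5 0xa18501))) (Pf.C 4 0x81c080)) (Pf.C 4 0x828080)) (Pf.C 4 0xe28080)))
 (Pq.cons (Pq.L [0,1] 4088 (Pf.B 10 7 (Pf.B 10 6 (Pf.B 9 7 (Pf.B 9 6 (Pf.C 1 0xa001c309) (Pf.B 9 5 (Pf.B 9 2 (Pf.C 1 0x224282) (Pf.C 1 0x81208280)) (Pf.C 5 0xa18481))) (Pf.B 9 5 (Pf.B 9 2 (Pf.C 1 0x224282) (Pf.C 1 0x81208280)) (Pf.C 5 0xa1c481))) (Pf.B 10 5 (Pf.B 10 2 (Pf.C 1 0x81400282) (Pf.B 8 6 (Pf.B 6 2 (Pf.C 1 0x218402) (Pf.C 5 0x428301)) (Pf.C 5 0x1028301))) (Pf.C 5 0xa18501))) (Pf.C 4 0xe28080)))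
 (Pq.cons (Pq.L [0,1] 4095 (Pf.B 10 7 (Pf.B 10 4 (Pf.B 10 6 (Pf.B 10 5 (Pf.B 10 2 (Pf.C 6 0x1414108) (Pf.B 10 3 (Pf.B 9 5 (Pf.B 9 2 (Pf.C 6 0x1214108) (Pf.B 9 4 (Pf.B 9 3 (Pf.C 1 0xa0010189) (Pf.C 5 0x40c481)) (Pf.C 5 0x410481))) (Pf.C 6 0x1414488)) (Pf.C 5 0x40c501))) (Pf.B 9 5 (Pf.C 6 0x1228288) (Pf.B 9 7 (Pf.B 9 6 (Pf.C 1 0xa001c309) (Pf.C 5 0xa18481)) (Pf.C 5 0xa1c481)))) (Pf.B 10 5 (Pf.B 10 2 (Pf.C 6 0x1414108) (Pf.B 10 3 (Pf.B 9 5 (Pf.B 9 2 (Pf.C 6 0x1214108) (Pf.B 9 4 (Pf.B 9 3 (Pf.C 1 0xa0010189) (Pf.C 5 0x40c481)) (Pf.C 5 0x410481))) (Pf.C 6 0x1414488)) (Pf.C 5 0x40c501))) (Pf.C 5 0xa18501))) (Pf.C 4 0x828080)) (Pf.C 4 0xe28080)))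
 (Pq.cons (Pq.L [0,1] 3984 (Pf.B 10 7 (Pf.B 10 5 (Pf.B 10 2 (Pf.B 8 7 (Pf.C 1 0xa001c288) (Pf.B 7 2 (Pf.C 1 0xa001c282) (Pf.C 1 0x80e08505))) (Pf.C 1 0x1408405)) (Pf.B 10 2 (Pf.C 1 0x51400402) (Pf.B 9 5 (Pf.B 9 2 (Pf.C 1 0x224282) (Pf.C 5 0x428481)) (Pf.C 5 0xa28481)))) (Pf.C 4 0xe28080)))
 (Pq.cons (Pq.L [1] 4032 (Pf.B 10 5 (Pf.B 10 2 (Pf.B 9 5 (Pf.B 9 2 (Pf.C 6 0x1214108) (Pf.C 6 0x1420109)) (Pf.C 6 0x1420289)) (Pf.C 6 0x1420282)) (Pf.B 10 2 (Pf.C 6 0x1420105) (Pf.B 9 5 (Pf.B 9 2 (Pf.C 6 0x1214108) (Pf.C 5 0x428481)) (Pf.C 5 0xa28481)))))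
 Pq.nil))))))))))))))))))))))))))))
theorem hh_o9 : AllRef hh_T hh_G13 (List.take 28 (hitObl [7,8,9,10,12,13] hh_h15)) :=
  chkPq_sound hh_o9c _ (by decide +kernel)
noncomputable def hh_o10c : Pq := (Pq.cons (Pq.L [0,1] 511 (Pf.B 10 7 (Pf.B 10 4 (Pf.B 7 4 (Pf.B 10 6 (Pf.B 10 5 (Pf.B 10 3 (Pf.B 10 2 (Pf.B 9 7 (Pf.B 9 6 (Pf.B 9 5 (Pf.C 1 0x1424305) (Pf.B 9 3 (Pf.B 6 3 (Pf.C 1 0x91400186) (Pf.B 7 3 (Pf.B 6 4 (Pf.B 5 4 (Pf.C 1 0xa0010305) (Pf.B 5 3 (Pf.B 5 2 (Pf.C 1 0x30200105) (Pf.C 6 0x608284)) (Pf.C 5 0xa10181))) (Pf.C 6 0xe0c206)) (Pf.C 0 0x6000c087))) (Pf.B 5 3 (Pf.B 6 3 (Pf.C 1 0x5120c006) (Pf.B 7 3 (Pf.B 6 4 (Pf.B 5 4 (Pf.C 1 0xa0010305) (Pf.B 5 2 (Pf.C 1 0x30200105) (Pf.C 6 0x608284))) (Pf.C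 6 0xe0c206)) (Pf.C 6 0xa18187))) (Pf.C 5 0xa24181)))) (Pf.B 9 5 (Pf.B 8 5 (Pf.C 1 0x90200288) (Pf.B 8 7 (Pf.B 9 4 (Pf.B 8 4 (Pf.C 1 0x70010488) (Pf.B 8 3 (Pf.B 8 2 (Pf.C 1 0x30200108) (Pf.C 6 0x1410108)) (Pf.C 5 0x1010181))) (Pf.B 9 3 (Pf.B 9 2 (Pf.C 1 0x1424182) (Pf.C 5 0x410481)) (Pf.C 6 0x1410189))) (Pf.C 6 0x1414388))) (Pf.B 9 4 (Pf.B 9 3 (Pf.B 9 2 (Pf.C 1 0x1424182) (Pf.B 6 2 (Pf.B 6 3 (Pf.C 1 0x21218003) (Pf.B 7 3 (Pf.B 6 4 (Pf.B 5 4 (Pf.C 1 0xa0010305) (Pf.B 5 3 (Pf.B 5 2 (Pf.C 1 0x30200105) (Pf.C 6 0x608284)) (Pf.C 5 0xa10181))) (Pf.C 6 0xe0c206)) (Pf.C 6 0x120c386))) (Pf.C 5 0x424301))) (Pf.B 5 3 (Pf.B 5 2 (Pf.C 1 0x30200105) (Pf.B 9 2 (Pf.B 8 2 (Pf.C 1 0x90200108) (Pf.B 8 5 (Pf.B 8 6 (Pf.C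 1 0x51218008) (Pf.B 8 7 (Pf.B 8 4 (Pf.C 1 0x70010488) (Pf.C 6 0x1408208)) (Pf.C 5 0x1018381))) (Pf.C 6 0x1408288))) (Pf.C 6 0x614109))) (Pf.C 5 0xa24181))) (Pf.B 9 3 (Pf.B 9 2 (Pf.C 1 0x1424182) (Pf.C 5 0x410481)) (Pf.C 6 0x1410189))))) (Pf.B 9 6 (Pf.B 9 5 (Pf.C 1 0x1424305) (Pf.C 5 0xa1c481)) (Pf.C 6 0x141c309))) (Pf.B 9 2 (Pf.B 8 2 (Pf.C 1 0x90200108) (Pf.C 6 0x120840a)) (Pf.C 5 0x428481))) (Pf.B 9 3 (Pf.B 8 3 (Pf.B 8 2 (Pf.C 1 0x30200108) (Pf.B 10 2 (Pf.B 9 2 (Pf.B 8 4 (Pf.B 9 4 (Pf.C 1 0x30800409) (Pf.B 9 7 (Pf.B 9 6 (Pf.B 6 2 (Pf.C 1 0x91400106) (Pf.B 8 6 (Pf.C 1 0x60420480) (Pf.C 6 0x1408308))) (Pf.B 6 4 (Pf.B 5 4 (Pf.C 1 0xa0010305) (Pf.B 9 5 (Pf.B 8 5 (Pf.C 1 0x90200288) (Pf.B 8 7 (Pf.B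 7 3 (Pf.C 1 0x9080c407) (Pf.C 1 0xe0c488)) (Pf.C 6 0x1414388))) (Pf.C 5 0xa10481))) (Pf.C 6 0xe24206))) (Pf.B 9 6 (Pf.B 9 5 (Pf.C 1 0x1424305) (Pf.C 5 0xa1c481)) (Pf.C 6 0x141c309)))) (Pf.C 6 0x1408208)) (Pf.C 1 0x80424180)) (Pf.C 6 0x62010a))) (Pf.C 5 0x1028181)) (Pf.C 0 0x30024501))) (Pf.B 9 5 (Pf.B 8 5 (Pf.C 1 0x90200288) (Pf.C 6 0x121440a)) (Pf.C 5 0xa28481))) (Pf.B 9 6 (Pf.B 8 6 (Pf.B 8 5 (Pf.C 1 0x60200288) (Pf.B 10 5 (Pf.B 8 7 (Pf.B 9 7 (Pf.C 1 0x60e00409) (Pf.B 10 3 (Pf.B 10 2 (Pf.B 9 4 (Pf.B 9 3 (Pf.B 9 2 (Pf.C 1 0x1424182) (Pf.B 7 2 (Pf.B 7 3 (Pf.C 1 0x2080c507) (Pf.B 6 3 (Pf.B 6 4 (Pf.C 1 0x30800486) (Pf.B 8 4 (Pf.C 1 0x60800488) (Pf.B 8 3 (Pf.B 8 2 (Pf.C 1 0x30200108) (Pf.C 6 0x1410108))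 (Pf.C 5 0x1010181)))) (Pf.C 6 0x141c186))) (Pf.C 5 0x424381))) (Pf.B 7 3 (Pf.B 7 2 (Pf.C 1 0x30808507) (Pf.B 9 2 (Pf.B 8 2 (Pf.C 1 0x90200108) (Pf.B 8 4 (Pf.B 6 4 (Pf.C 1 0x90e18404) (Pf.C 1 0x818488)) (Pf.C 6 0x1408208))) (Pf.C 5 0x41c481))) (Pf.C 6 0x824383))) (Pf.B 9 3 (Pf.B 9 2 (Pf.C 1 0x1424182) (Pf.C 5 0x410481)) (Pf.C 6 0x1410189))) (Pf.B 9 2 (Pf.B 8 2 (Pf.C 1 0x90200108) (Pf.C 6 0x120840a)) (Pf.C 5 0x428481))) (Pf.B 9 3 (Pf.B 8 3 (Pf.B 8 2 (Pf.C 1 0x30200108) (Pf.B 10 2 (Pf.B 7 3 (Pf.C 1 0x90e00403) (Pf.B 5 3 (Pf.B 5 2 (Pf.C 1 0x30200105) (Pf.C 6 0x1408288)) (Pf.C 5 0xa1c181))) (Pf.C 6 0x62010a))) (Pf.C 5 0x1028181)) (Pf.C 0 0x30024501)))) (Pf.C 6 0x1414388)) (Pf.C 6 0xc2028a))) (Pf.C 5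 0x1028301)) (Pf.C 0 0x60024501))) (Pf.C 4 0x81c080)) (Pf.C 4 0x828080)) (Pf.C 4 0xe28080)))
 (Pq.cons (Pq.L [0,1] 63 (Pf.B 7 4 (Pf.B 7 3 (Pf.B 7 2 (Pf.B 5 2 (Pf.C 1 0x70004105) (Pf.B 6 2 (Pf.C 1 0x20a18381) (Pf.B 6 4 (Pf.B 6 3 (Pf.C 1 0x30418201) (Pf.C 5 0x40c300)) (Pf.C 1 0x20c10381)))) (Pf.C 1 0x3041c201)) (Pf.B 7 2 (Pf.C 1 0x2061c201) (Pf.C 5 0x40c380))) (Pf.B 7 3 (Pf.B 7 2 (Pf.B 5 2 (Pf.C 1 0x70004105) (Pf.B 6 2 (Pf.C 1 0x20a18381) (Pf.B 6 3 (Pf.C 1 0x30418381) (Pf.C 5 0x40c300)))) (Pf.B 6 4 (Pf.B 6 2 (Pf.C 1 0x40e08086) (Pf.B 6 3 (Pf.C 1 0x30418201) (Pf.C 5 0x40c300))) (Pf.B 6 3 (Pf.C 1 0x70818083) (Pf.B 5 3 (Pf.C 1 0x30c14381) (Pf.C 5 0xa18180))))) (Pf.B 7 2 (Pf.B 5 2 (Pf.C 1 0x70004105) (Pf.B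 6 2 (Pf.C 1 0x20a18381) (Pf.B 6 3 (Pf.B 6 4 (Pf.C 1 0x30e10086) (Pf.B 5 4 (Pf.C 6 0x808286) (Pf.C 5 0xa18200))) (Pf.C 5 0x40c300)))) (Pf.C 5 0x40c380)))))
 (Pq.cons (Pq.L [0,1] 511 (Pf.B 10 7 (Pf.B 10 6 (Pf.B 10 5 (Pf.C 1 0x70c1408a) (Pf.B 9 5 (Pf.B 9 7 (Pf.C 1 0x51424087) (Pf.B 9 6 (Pf.B 8 7 (Pf.B 8 6 (Pf.C 1 0xa1220086) (Pf.C 1 0x70c20501)) (Pf.C 5 0x1024380)) (Pf.C 6 0x141c309))) (Pf.C 5 0xa28480))) (Pf.B 10 5 (Pf.B 8 5 (Pf.C 1 0xa0004288) (Pf.B 9 5 (Pf.B 9 7 (Pf.B 9 6 (Pf.C 1 0x70c14089) (Pf.C 6 0xa28486)) (Pf.C 1 0xa121c281)) (Pf.C 6 0x1420289))) (Pf.C 5 0xa18500))) (Pf.B 10 6 (Pf.B 10 5 (Pf.B 8 5 (Pf.C 1 0xa0004288) (Pf.B 9 5 (Pf.B 9 7 (Pf.C 1 0x71424281) (Pf.B 9 6 (Pf.C 6 0xc28487) (Pf.C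 6 0xa1c486))) (Pf.C 6 0x1420289))) (Pf.B 9 5 (Pf.B 9 7 (Pf.B 9 6 (Pf.C 1 0x70c14089) (Pf.B 8 6 (Pf.B 8 7 (Pf.C 1 0xa0e18088) (Pf.B 8 5 (Pf.C 1 0xa0a18088) (Pf.B 10 4 (Pf.B 10 3 (Pf.B 10 2 (Pf.C 1 0x4060808a) (Pf.B 9 2 (Pf.B 9 4 (Pf.C 1 0x21424084) (Pf.B 9 3 (Pf.B 8 4 (Pf.B 8 3 (Pf.C 1 0xa1220083) (Pf.C 1 0x40620501)) (Pf.C 5 0x1024200)) (Pf.C 6 0x1410189))) (Pf.C 5 0x428480))) (Pf.B 10 2 (Pf.B 8 2 (Pf.C 1 0xa0004108) (Pf.B 9 2 (Pf.B 9 4 (Pf.B 9 3 (Pf.C 1 0x40608089) (Pf.C 6 0x428483)) (Pf.C 1 0xa1210101)) (Pf.C 6 0x1420109))) (Pf.C 5 0x40c500))) (Pf.B 5 4 (Pf.B 9 4 (Pf.B 8 4 (Pf.C 1 0x91014084) (Pf.B 8 3 (Pf.B 10 3 (Pf.B 9 3 (Pf.C 1 0xa1220083) (Pf.B 7 4 (Pf.B 7 3 (Pf.C 1 0x90610087) (Pf.B 5 3 (Pf.C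 1 0x70610085) (Pf.B 5 2 (Pf.C 1 0x40004105) (Pf.C 6 0x808283)))) (Pf.C 5 0x1010380))) (Pf.C 6 0x100c504)) (Pf.C 5 0x1010180))) (Pf.C 6 0xa1048a)) (Pf.C 5 0xa28200))))) (Pf.C 5 0x1024300))) (Pf.C 6 0xa1c48a)) (Pf.C 5 0xa28480))) (Pf.B 10 5 (Pf.C 6 0xa1c506) (Pf.C 5 0xa18500)))))
 (Pq.cons (Pq.L [0,1] 511 (Pf.B 10 7 (Pf.B 10 4 (Pf.B 7 4 (Pf.B 10 6 (Pf.B 10 5 (Pf.C 1 0x70228305) (Pf.B 10 3 (Pf.B 10 2 (Pf.C 1 0x40228182) (Pf.B 9 7 (Pf.B 9 6 (Pf.C 1 0xa021c309) (Pf.B 8 7 (Pf.C 1 0xa021c488) (Pf.B 9 4 (Pf.B 8 4 (Pf.C 1 0xa0210488) (Pf.C 1 0x71010509)) (Pf.B 6 4 (Pf.C 1 0x41218507) (Pf.C 0 0x90218004))))) (Pf.B 9 6 (Pf.B 9 5 (Pf.C 1 0x11414309) (Pf.B 9 4 (Pf.B 9 3 (Pf.C 1 0xa0210189) (Pf.B 7 3 (Pf.C 1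 0x3121c504) (Pf.C 0 0x9020c007))) (Pf.B 5 4 (Pf.B 9 3 (Pf.B 9 2 (Pf.C 1 0x11408189) (Pf.B 7 2 (Pf.B 5 2 (Pf.C 1 0x70010105) (Pf.C 6 0x808289)) (Pf.C 5 0x424380))) (Pf.B 7 3 (Pf.B 7 2 (Pf.C 1 0x4021c182) (Pf.C 1 0xa041c203)) (Pf.C 6 0x80c389))) (Pf.C 5 0xa24200)))) (Pf.B 9 4 (Pf.B 9 3 (Pf.C 1 0xa0210189) (Pf.B 7 3 (Pf.C 1 0x3121c504) (Pf.C 0 0x9020c007))) (Pf.B 6 4 (Pf.B 6 3 (Pf.C 1 0xa0210186) (Pf.B 9 3 (Pf.B 7 3 (Pf.C 1 0x4121c503) (Pf.C 1 0x6061c504)) (Pf.C 6 0x818189))) (Pf.C 6 0xe10309)))))) (Pf.B 5 3 (Pf.B 5 2 (Pf.C 1 0x30004105) (Pf.B 10 2 (Pf.B 9 7 (Pf.B 9 6 (Pf.C 1 0xa021c309) (Pf.B 8 7 (Pf.C 1 0xa021c488) (Pf.B 9 5 (Pf.B 8 5 (Pf.C 1 0x90004288) (Pf.B 8 2 (Pf.B 8 4 (Pf.C 1 0xa0010108) (Pf.B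 9 4 (Pf.C 1 0x71010509) (Pf.B 6 4 (Pf.C 1 0x41218507) (Pf.C 0 0x90218004)))) (Pf.C 6 0x1408405))) (Pf.B 9 2 (Pf.B 9 4 (Pf.C 1 0xa0210109) (Pf.B 9 3 (Pf.C 1 0x1140c109) (Pf.B 8 2 (Pf.C 1 0x90004108) (Pf.B 8 5 (Pf.B 8 3 (Pf.C 1 0x5120c088) (Pf.B 7 3 (Pf.B 7 2 (Pf.C 1 0x4120c107) (Pf.C 6 0xa20382)) (Pf.C 5 0x100c380))) (Pf.C 6 0x1208405))))) (Pf.C 6 0x1408485))))) (Pf.B 9 5 (Pf.B 8 5 (Pf.C 1 0x90004288) (Pf.B 8 2 (Pf.B 9 2 (Pf.C 1 0x80a08089) (Pf.B 9 3 (Pf.C 1 0x50424083) (Pf.B 7 3 (Pf.B 7 2 (Pf.C 1 0x4021c182) (Pf.C 5 0x424380)) (Pf.C 6 0x1424383)))) (Pf.C 6 0x1408405))) (Pf.B 9 2 (Pf.B 9 4 (Pf.C 1 0xa0210109) (Pf.B 9 3 (Pf.C 1 0x1140c109) (Pf.B 8 2 (Pf.C 1 0x90004108) (Pf.B 8 5 (Pf.B 8 6 (Pf.C 1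 0x51404308) (Pf.B 8 3 (Pf.C 1 0x5120c088) (Pf.B 7 3 (Pf.B 7 2 (Pf.C 1 0x4021c182) (Pf.B 8 7 (Pf.B 8 4 (Pf.C 1 0x71210508) (Pf.B 6 4 (Pf.C 1 0x41018507) (Pf.C 5 0x1010300))) (Pf.C 6 0x608388))) (Pf.C 6 0x1424383)))) (Pf.C 6 0x1208405))))) (Pf.C 6 0x1408485)))) (Pf.C 6 0x61410a))) (Pf.C 5 0xa28180)))) (Pf.B 10 5 (Pf.B 10 3 (Pf.B 10 2 (Pf.C 1 0x40228182) (Pf.B 6 2 (Pf.B 5 2 (Pf.C 1 0x60004105) (Pf.B 9 7 (Pf.B 9 5 (Pf.C 1 0xa021c289) (Pf.B 9 2 (Pf.B 9 6 (Pf.C 1 0x20a24086) (Pf.B 9 3 (Pf.C 1 0x21404189) (Pf.B 8 7 (Pf.C 1 0xa021c488) (Pf.B 8 2 (Pf.C 1 0x90004108) (Pf.B 8 5 (Pf.B 8 6 (Pf.C 1 0x51218088) (Pf.B 7 2 (Pf.B 9 4 (Pf.C 1 0x70210109) (Pf.B 7 3 (Pf.C 1 0x4120c107) (Pf.B 8 3 (Pf.B 8 4 (Pf.C 1 0xa0210188)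 (Pf.B 6 4 (Pf.C 1 0x70210106) (Pf.C 5 0x1010300))) (Pf.C 5 0x101c180)))) (Pf.C 6 0xa20382))) (Pf.C 6 0x1208405)))))) (Pf.C 6 0x1414482))) (Pf.B 9 6 (Pf.B 9 5 (Pf.C 1 0x61404289) (Pf.B 9 2 (Pf.C 1 0x20a24301) (Pf.C 6 0x1414482))) (Pf.B 9 5 (Pf.B 8 5 (Pf.C 1 0x90004288) (Pf.B 8 2 (Pf.B 9 2 (Pf.C 1 0x80a08089) (Pf.B 8 6 (Pf.C 1 0x21218088) (Pf.B 8 3 (Pf.C 1 0x21404188) (Pf.B 7 2 (Pf.B 7 3 (Pf.C 1 0x4021c103) (Pf.B 8 7 (Pf.B 8 4 (Pf.C 1 0x70010108) (Pf.B 6 4 (Pf.C 1 0x70210106) (Pf.C 5 0x1010300))) (Pf.C 5 0x100c380))) (Pf.C 5 0x424380))))) (Pf.C 6 0x1414402))) (Pf.B 9 2 (Pf.B 9 3 (Pf.C 1 0x21404189) (Pf.B 8 2 (Pf.C 1 0x90004108) (Pf.B 8 5 (Pf.B 8 7 (Pf.C 1 0xa001c288) (Pf.B 7 3 (Pf.B 7 2 (Pf.C 1 0x4021c182)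 (Pf.C 6 0x1220107)) (Pf.C 0 0x9020c007))) (Pf.C 6 0x1208405)))) (Pf.C 6 0xc14109)))))) (Pf.C 5 0x428300))) (Pf.B 6 3 (Pf.B 10 2 (Pf.B 9 7 (Pf.B 9 5 (Pf.C 1 0xa021c289) (Pf.B 8 7 (Pf.C 1 0xa021c488) (Pf.B 9 4 (Pf.B 8 4 (Pf.C 1 0xa0210488) (Pf.C 1 0x71010509)) (Pf.B 5 4 (Pf.C 1 0x41214507) (Pf.C 5 0xa24200))))) (Pf.B 9 6 (Pf.B 9 5 (Pf.C 1 0x61404289) (Pf.B 9 4 (Pf.B 9 2 (Pf.C 1 0xa0210109) (Pf.B 7 2 (Pf.C 1 0x2121c504) (Pf.C 5 0x424380))) (Pf.B 5 4 (Pf.B 6 4 (Pf.C 1 0x70210286) (Pf.C 1 0xa0c10385)) (Pf.C 5 0xa24200)))) (Pf.B 9 4 (Pf.B 9 2 (Pf.C 1 0xa0210109) (Pf.B 7 2 (Pf.C 1 0x2121c504) (Pf.C 5 0x424380))) (Pf.B 6 4 (Pf.B 7 3 (Pf.C 1 0x6140c207) (Pf.B 9 3 (Pf.B 9 2 (Pf.C 1 0x31404109) (Pf.B 7 2 (Pf.C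 1 0xa061c202) (Pf.C 5 0x424380))) (Pf.C 6 0x81c189))) (Pf.C 6 0x1424206))))) (Pf.B 6 2 (Pf.B 6 4 (Pf.B 7 3 (Pf.C 1 0x6140c207) (Pf.B 7 2 (Pf.C 1 0x61408207) (Pf.C 1 0x30e08304))) (Pf.C 1 0x10818182)) (Pf.C 5 0x428300))) (Pf.C 0 0x30218500))) (Pf.B 10 3 (Pf.B 10 2 (Pf.C 1 0x40228182) (Pf.B 6 2 (Pf.B 5 2 (Pf.C 1 0x60004105) (Pf.C 6 0xc0828a)) (Pf.C 5 0x428300))) (Pf.B 6 3 (Pf.B 5 3 (Pf.B 7 3 (Pf.B 6 4 (Pf.C 1 0x70210186) (Pf.B 5 4 (Pf.C 1 0x70210185) (Pf.C 1 0x60814383))) (Pf.C 1 0x10e0c305)) (Pf.C 5 0xa28180)) (Pf.C 0 0x30218500))))) (Pf.C 4 0x81c080)) (Pf.C 4 0x828080)) (Pf.C 4 0xe28080)))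
 (Pq.cons (Pq.L [0,1] 511 (Pf.B 10 7 (Pf.B 10 4 (Pf.B 7 4 (Pf.B 10 6 (Pf.B 10 5 (Pf.B 9 7 (Pf.B 9 6 (Pf.C 1 0xa021c309) (Pf.B 9 5 (Pf.C 1 0xa021c289) (Pf.C 5 0xa18480))) (Pf.B 8 7 (Pf.B 8 6 (Pf.C 1 0xa021c308) (Pf.B 9 6 (Pf.B 8 5 (Pf.C 1 0xa001c288) (Pf.B 9 5 (Pf.C 6 0x1218288) (Pf.C 6 0xe20289))) (Pf.C 5 0x1018480))) (Pf.C 5 0x1024380))) (Pf.B 10 3 (Pf.B 9 7 (Pf.B 9 6 (Pf.C 1 0xa021c309) (Pf.B 8 6 (Pf.B 8 7 (Pf.C 1 0xa021c308) (Pf.B 9 4 (Pf.B 9 3 (Pf.C 1 0xa0210189) (Pf.B 8 4 (Pf.C 1 0x9101c504) (Pf.B 8 3 (Pf.B 7 3 (Pf.C 1 0x4101c503) (Pf.C 1 0x9061c504)) (Pf.C 5 0x1024180)))) (Pf.B 8 4 (Pf.B 8 3 (Pf.C 1 0xa0210188) (Pf.B 9 3 (Pf.B 7 3 (Pf.C 1 0xa021c483) (Pf.C 5 0x100c380)) (Pf.C 5 0x100c480)))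 (Pf.C 5 0x1024200)))) (Pf.C 5 0x1024300))) (Pf.B 8 7 (Pf.B 9 4 (Pf.B 9 3 (Pf.C 1 0xa0210189) (Pf.B 8 3 (Pf.B 7 3 (Pf.C 1 0xa021c403) (Pf.C 6 0x100c389)) (Pf.C 5 0x1024180))) (Pf.B 8 4 (Pf.B 8 3 (Pf.C 1 0xa0210188) (Pf.B 9 3 (Pf.B 7 3 (Pf.C 1 0x4121c503) (Pf.C 1 0x8061c504)) (Pf.C 5 0x100c480))) (Pf.C 5 0x1024200))) (Pf.C 5 0x1024380))) (Pf.B 10 2 (Pf.B 5 3 (Pf.B 9 7 (Pf.B 9 6 (Pf.C 1 0xa021c309) (Pf.B 9 5 (Pf.B 8 6 (Pf.B 8 7 (Pf.C 1 0xa021c308) (Pf.B 9 4 (Pf.B 9 2 (Pf.C 1 0xa0210109) (Pf.B 9 3 (Pf.B 7 3 (Pf.C 1 0x5140c487) (Pf.C 1 0xa061c484)) (Pf.C 5 0x40c480))) (Pf.B 8 4 (Pf.B 8 2 (Pf.C 1 0xa0010108) (Pf.B 9 2 (Pf.B 7 2 (Pf.C 1 0xa021c482) (Pf.C 6 0x1208388)) (Pf.C 6 0x820109))) (Pf.C 5 0x1024200))))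 (Pf.C 5 0x1024300)) (Pf.C 5 0xa18480))) (Pf.B 8 7 (Pf.B 8 6 (Pf.C 1 0xa021c308) (Pf.B 8 5 (Pf.B 8 3 (Pf.C 1 0x1000c288) (Pf.B 8 2 (Pf.B 8 4 (Pf.C 1 0xa0010108) (Pf.B 9 4 (Pf.B 9 2 (Pf.C 1 0xa0210109) (Pf.B 7 2 (Pf.C 1 0xa001c402) (Pf.C 5 0x424380))) (Pf.C 5 0x1010480))) (Pf.C 6 0x1408403))) (Pf.C 6 0x1418405))) (Pf.C 5 0x1024380))) (Pf.C 5 0xa28180)) (Pf.C 5 0x40c500)))) (Pf.B 10 5 (Pf.B 10 3 (Pf.B 10 2 (Pf.B 9 4 (Pf.B 9 3 (Pf.C 1 0xa0210189) (Pf.B 9 2 (Pf.C 1 0xa0210109) (Pf.C 5 0x40c480))) (Pf.B 8 4 (Pf.B 8 3 (Pf.C 1 0xa0210188) (Pf.B 9 3 (Pf.B 8 2 (Pf.C 1 0xa0010108) (Pf.B 9 2 (Pf.C 6 0x120c108) (Pf.C 6 0x820109))) (Pf.C 5 0x100c480))) (Pf.C 5 0x1024200))) (Pf.B 6 2 (Pf.B 9 7 (Pf.B 9 4 (Pf.B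 9 3 (Pf.C 1 0xa0210189) (Pf.B 8 3 (Pf.B 8 4 (Pf.C 1 0xa0210188) (Pf.B 8 7 (Pf.C 1 0x91010507) (Pf.B 7 3 (Pf.C 1 0x4101c503) (Pf.C 1 0x9061c504)))) (Pf.C 5 0x1024180))) (Pf.B 8 4 (Pf.B 8 7 (Pf.C 1 0x41220507) (Pf.B 8 3 (Pf.C 1 0xa0210188) (Pf.B 9 3 (Pf.B 7 3 (Pf.C 1 0xa021c483) (Pf.C 5 0x100c380)) (Pf.C 5 0x100c480)))) (Pf.C 5 0x1024200))) (Pf.B 8 7 (Pf.B 8 5 (Pf.C 1 0xa001c288) (Pf.B 8 6 (Pf.B 8 2 (Pf.C 1 0x60004108) (Pf.B 8 3 (Pf.B 8 4 (Pf.C 1 0xa0210188) (Pf.B 9 4 (Pf.B 9 3 (Pf.C 1 0xa0210189) (Pf.B 7 3 (Pf.C 1 0xa021c403) (Pf.C 6 0x100c389))) (Pf.C 5 0x1010480))) (Pf.C 6 0x140c402))) (Pf.C 6 0x1414406))) (Pf.C 5 0x1024380))) (Pf.C 5 0x428300))) (Pf.B 10 2 (Pf.B 6 3 (Pf.B 9 7 (Pf.B 9 5 (Pf.C 1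 0xa021c289) (Pf.B 9 6 (Pf.B 9 4 (Pf.B 9 2 (Pf.C 1 0xa0210109) (Pf.B 9 3 (Pf.B 7 3 (Pf.C 1 0x6140c487) (Pf.C 1 0xa061c484)) (Pf.C 5 0x40c480))) (Pf.B 8 4 (Pf.B 8 7 (Pf.C 1 0x41220507) (Pf.B 8 2 (Pf.C 1 0xa0010108) (Pf.B 9 2 (Pf.B 7 2 (Pf.C 1 0xa021c482) (Pf.C 6 0x1208388)) (Pf.C 6 0x820109)))) (Pf.C 5 0x1024200))) (Pf.C 5 0xa18480))) (Pf.B 8 7 (Pf.B 8 5 (Pf.C 1 0xa001c288) (Pf.B 8 6 (Pf.B 9 6 (Pf.B 9 4 (Pf.B 9 2 (Pf.C 1 0xa0210109) (Pf.B 9 3 (Pf.B 8 3 (Pf.B 7 3 (Pf.C 1 0x6140c407) (Pf.C 1 0x10e0c406)) (Pf.C 1 0x9100c301)) (Pf.C 5 0x40c480))) (Pf.B 8 4 (Pf.B 8 2 (Pf.C 1 0xa0010108) (Pf.B 8 3 (Pf.B 7 3 (Pf.C 1 0x6140c407) (Pf.C 1 0xa061c404)) (Pf.C 6 0x1408403))) (Pf.C 5 0x1024200))) (Pf.B 9 4 (Pf.B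 9 2 (Pf.C 1 0xa0210109) (Pf.B 9 3 (Pf.B 8 4 (Pf.C 1 0x71220504) (Pf.B 8 3 (Pf.C 1 0x61220083) (Pf.B 8 2 (Pf.B 7 2 (Pf.C 1 0xa001c402) (Pf.C 5 0x424380)) (Pf.C 6 0x80c108)))) (Pf.C 5 0x40c480))) (Pf.B 8 4 (Pf.B 8 2 (Pf.C 1 0xa0010108) (Pf.B 8 3 (Pf.B 9 3 (Pf.C 1 0x81218083) (Pf.B 7 3 (Pf.C 1 0x6140c407) (Pf.C 6 0x1424383))) (Pf.C 6 0x1408403))) (Pf.C 5 0x1024200)))) (Pf.C 6 0x1414406))) (Pf.C 5 0x1024380))) (Pf.C 0 0x30218500)) (Pf.C 5 0x40c500))) (Pf.C 5 0xa18500))) (Pf.C 4 0x81c080)) (Pf.C 4 0x828080)) (Pf.C 4 0xe28080)))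
 (Pq.cons (Pq.L [0,1] 4088 (Pf.B 10 7 (Pf.B 10 6 (Pf.B 9 7 (Pf.B 9 6 (Pf.C 1 0xa021c309) (Pf.B 9 5 (Pf.B 9 2 (Pf.C 1 0x10024282) (Pf.C 1 0x81208281)) (Pf.C 5 0xa18480))) (Pf.B 9 5 (Pf.B 9 2 (Pf.C 1 0x10024282) (Pf.C 1 0x81208281)) (Pf.C 5 0xa1c480))) (Pf.B 10 5 (Pf.B 10 2 (Pf.C 1 0x81400282) (Pf.B 8 6 (Pf.B 6 2 (Pf.C 1 0x10018402) (Pf.C 5 0x428300)) (Pf.C 5 0x1028300))) (Pf.C 5 0xa18500))) (Pf.C 4 0xe28080)))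
 (Pq.cons (Pq.L [0,1] 4095 (Pf.B 10 7 (Pf.B 10 4 (Pf.B 10 6 (Pf.B 10 5 (Pf.B 10 2 (Pf.C 6 0x1414108) (Pf.B 10 3 (Pf.B 9 5 (Pf.B 9 2 (Pf.C 6 0x1214108) (Pf.B 9 4 (Pf.B 9 3 (Pf.C 1 0xa0210189) (Pf.C 5 0x40c480)) (Pf.C 5 0x410480))) (Pf.C 6 0x1414488)) (Pf.C 5 0x40c500))) (Pf.B 9 5 (Pf.C 6 0x1228288) (Pf.B 9 7 (Pf.B 9 6 (Pf.C 1 0xa021c309) (Pf.C 5 0xa18480)) (Pf.C 5 0xa1c480)))) (Pf.B 10 5 (Pf.B 10 2 (Pf.C 6 0x1414108) (Pf.B 10 3 (Pf.B 9 5 (Pf.B 9 2 (Pf.C 6 0x1214108) (Pf.B 9 4 (Pf.B 9 3 (Pf.C 1 0xa0210189) (Pf.C 5 0x40c480)) (Pf.C 5 0x410480))) (Pf.C 6 0x1414488)) (Pf.C 5 0x40c500))) (Pf.C 5 0xa18500))) (Pf.C 4 0x828080)) (Pf.C 4 0xe28080)))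
 (Pq.cons (Pq.L [0,1] 3984 (Pf.B 10 7 (Pf.B 10 5 (Pf.B 10 2 (Pf.B 8 7 (Pf.C 1 0xa001c288) (Pf.B 7 2 (Pf.C 1 0xa001c282) (Pf.C 1 0x80e08505))) (Pf.C 1 0x1408405)) (Pf.B 10 2 (Pf.C 1 0x51400402) (Pf.B 9 5 (Pf.B 9 2 (Pf.C 1 0x10024282) (Pf.C 5 0x428480)) (Pf.C 5 0xa28480)))) (Pf.C 4 0xe28080)))
 (Pq.cons (Pq.L [0] 4032 (Pf.B 10 5 (Pf.B 10 2 (Pf.B 9 5 (Pf.B 9 2 (Pf.C 6 0x1214108) (Pf.C 6 0x1420109)) (Pf.C 6 0x1420289)) (Pf.C 6 0x1420282)) (Pf.B 10 2 (Pf.C 6 0x1420105) (Pf.B 9 5 (Pf.B 9 2 (Pf.C 6 0x1214108) (Pf.C 5 0x428480)) (Pf.C 5 0xa28480)))))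
 Pq.nil)))))))))
theorem hh_o10 : AllRef hh_T hh_G13 (List.take 9 (List.drop 28 (hitObl [7,8,9,10,12,13] hh_h15))) :=
  chkPq_sound hh_o10c _ (by decide +kernel)
noncomputable def hh_o11c : Pq := (Pq.cons (Pq.L [0,1] 511 (Pf.B 10 7 (Pf.B 10 4 (Pf.B 7 4 (Pf.B 10 6 (Pf.B 10 5 (Pf.B 10 3 (Pf.B 10 2 (Pf.B 9 7 (Pf.B 9 6 (Pf.B 9 5 (Pf.C 1 0x11424305) (Pf.B 9 3 (Pf.B 6 3 (Pf.C 1 0x91404186) (Pf.B 7 3 (Pf.B 6 4 (Pf.B 5 4 (Pf.C 1 0xa0210305) (Pf.B 5 3 (Pf.B 5 2 (Pf.C 1 0x30004105) (Pf.C 6 0x608284)) (Pf.C 5 0xa10180))) (Pf.C 6 0xe0c206)) (Pf.C 0 0x6020c007))) (Pf.B 5 3 (Pf.B 6 3 (Pf.C 1 0x5120c086) (Pf.B 7 3 (Pf.B 6 4 (Pf.B 5 4 (Pf.C 1 0xa0210305) (Pf.B 5 2 (Pf.C 1 0x30004105) (Pf.C 6 0x608284))) (Pf.C 6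 0xe0c206)) (Pf.C 6 0xa18187))) (Pf.C 5 0xa24180)))) (Pf.B 9 5 (Pf.B 8 5 (Pf.C 1 0x90004288) (Pf.B 8 7 (Pf.B 9 4 (Pf.B 8 4 (Pf.C 1 0x70210488) (Pf.B 8 3 (Pf.B 8 2 (Pf.C 1 0x30004108) (Pf.C 6 0x1410108)) (Pf.C 5 0x1010180))) (Pf.B 9 3 (Pf.B 9 2 (Pf.C 1 0x11424182) (Pf.C 5 0x410480)) (Pf.C 6 0x1410189))) (Pf.C 6 0x1414388))) (Pf.B 9 4 (Pf.B 9 3 (Pf.B 9 2 (Pf.C 1 0x11424182) (Pf.B 6 2 (Pf.B 6 3 (Pf.C 1 0x21218083) (Pf.B 7 3 (Pf.B 6 4 (Pf.B 5 4 (Pf.C 1 0xa0210305) (Pf.B 5 3 (Pf.B 5 2 (Pf.C 1 0x30004105) (Pf.C 6 0x608284)) (Pf.C 5 0xa10180))) (Pf.C 6 0xe0c206)) (Pf.C 6 0x120c386))) (Pf.C 5 0x424300))) (Pf.B 5 3 (Pf.B 5 2 (Pf.C 1 0x30004105) (Pf.B 9 2 (Pf.B 8 2 (Pf.C 1 0x90004108) (Pf.B 8 5 (Pf.B 8 6 (Pf.C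 1 0x51218088) (Pf.B 8 7 (Pf.B 8 4 (Pf.C 1 0x70210488) (Pf.C 6 0x1408208)) (Pf.C 5 0x1018380))) (Pf.C 6 0x1408288))) (Pf.C 6 0x614109))) (Pf.C 5 0xa24180))) (Pf.B 9 3 (Pf.B 9 2 (Pf.C 1 0x11424182) (Pf.C 5 0x410480)) (Pf.C 6 0x1410189))))) (Pf.B 9 6 (Pf.B 9 5 (Pf.C 1 0x11424305) (Pf.C 5 0xa1c480)) (Pf.C 6 0x141c309))) (Pf.B 9 2 (Pf.B 8 2 (Pf.C 1 0x90004108) (Pf.C 6 0x120840a)) (Pf.C 5 0x428480))) (Pf.B 9 3 (Pf.B 8 3 (Pf.B 8 2 (Pf.C 1 0x30004108) (Pf.B 10 2 (Pf.B 9 2 (Pf.B 8 4 (Pf.B 9 4 (Pf.C 1 0x30804409) (Pf.B 9 7 (Pf.B 9 6 (Pf.B 6 2 (Pf.C 1 0x91404106) (Pf.B 8 6 (Pf.C 1 0x60420481) (Pf.C 6 0x1408308))) (Pf.B 6 4 (Pf.B 5 4 (Pf.C 1 0xa0210305) (Pf.B 9 5 (Pf.B 8 5 (Pf.C 1 0x90004288) (Pf.B 8 7 (Pf.B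 7 3 (Pf.C 1 0x9080c407) (Pf.C 1 0x10e0c488)) (Pf.C 6 0x1414388))) (Pf.C 5 0xa10480))) (Pf.C 6 0xe24206))) (Pf.B 9 6 (Pf.B 9 5 (Pf.C 1 0x11424305) (Pf.C 5 0xa1c480)) (Pf.C 6 0x141c309)))) (Pf.C 6 0x1408208)) (Pf.C 1 0x80424181)) (Pf.C 6 0x62010a))) (Pf.C 5 0x1028180)) (Pf.C 0 0x30224500))) (Pf.B 9 5 (Pf.B 8 5 (Pf.C 1 0x90004288) (Pf.C 6 0x121440a)) (Pf.C 5 0xa28480))) (Pf.B 9 6 (Pf.B 8 6 (Pf.B 8 5 (Pf.C 1 0x60004288) (Pf.B 10 5 (Pf.B 8 7 (Pf.B 9 7 (Pf.C 1 0x60e04409) (Pf.B 10 3 (Pf.B 10 2 (Pf.B 9 4 (Pf.B 9 3 (Pf.B 9 2 (Pf.C 1 0x11424182) (Pf.B 7 2 (Pf.B 7 3 (Pf.C 1 0x2080c507) (Pf.B 6 3 (Pf.B 6 4 (Pf.C 1 0x30804486) (Pf.B 8 4 (Pf.C 1 0x60804488) (Pf.B 8 3 (Pf.B 8 2 (Pf.C 1 0x30004108) (Pf.C 6 0x1410108))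 (Pf.C 5 0x1010180)))) (Pf.C 6 0x141c186))) (Pf.C 5 0x424380))) (Pf.B 7 3 (Pf.B 7 2 (Pf.C 1 0x30808507) (Pf.B 9 2 (Pf.B 8 2 (Pf.C 1 0x90004108) (Pf.B 8 4 (Pf.B 6 4 (Pf.C 1 0x90e18404) (Pf.C 1 0x10818488)) (Pf.C 6 0x1408208))) (Pf.C 5 0x41c480))) (Pf.C 6 0x824383))) (Pf.B 9 3 (Pf.B 9 2 (Pf.C 1 0x11424182) (Pf.C 5 0x410480)) (Pf.C 6 0x1410189))) (Pf.B 9 2 (Pf.B 8 2 (Pf.C 1 0x90004108) (Pf.C 6 0x120840a)) (Pf.C 5 0x428480))) (Pf.B 9 3 (Pf.B 8 3 (Pf.B 8 2 (Pf.C 1 0x30004108) (Pf.B 10 2 (Pf.B 7 3 (Pf.C 1 0x90e04403) (Pf.B 5 3 (Pf.B 5 2 (Pf.C 1 0x30004105) (Pf.C 6 0x1408288)) (Pf.C 5 0xa1c180))) (Pf.C 6 0x62010a))) (Pf.C 5 0x1028180)) (Pf.C 0 0x30224500)))) (Pf.C 6 0x1414388)) (Pf.C 6 0xc2028a))) (Pf.C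 5 0x1028300)) (Pf.C 0 0x60224500))) (Pf.C 4 0x81c080)) (Pf.C 4 0x828080)) (Pf.C 4 0xe28080)))
 (Pq.cons (Pq.L [0,1] 4095 (Pf.B 10 7 (Pf.B 10 6 (Pf.B 10 5 (Pf.B 10 2 (Pf.C 1 0x81400282) (Pf.B 9 7 (Pf.B 9 6 (Pf.C 1 0xa001c309) (Pf.B 9 5 (Pf.B 9 2 (Pf.C 1 0x1408289) (Pf.C 1 0x81208280)) (Pf.C 6 0xe18485))) (Pf.B 9 5 (Pf.B 9 2 (Pf.C 1 0x1408289) (Pf.C 1 0x81208280)) (Pf.C 5 0xe14481)))) (Pf.B 10 4 (Pf.B 10 3 (Pf.B 9 7 (Pf.B 9 6 (Pf.C 1 0xa001c309) (Pf.B 9 5 (Pf.B 9 2 (Pf.B 8 6 (Pf.B 7 2 (Pf.C 1 0x50e00482) (Pf.B 7 4 (Pf.B 9 4 (Pf.B 9 3 (Pf.C 1 0xa0010189) (Pf.B 8 3 (Pf.B 6 3 (Pf.C 1 0x81400186) (Pf.C 6 0x100c309)) (Pf.C 6 0x1424188))) (Pf.C 1 0x11210507)) (Pf.C 5 0x410380))) (Pf.C 6 0x1424308)) (Pf.C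 1 0x81208280)) (Pf.C 6 0xe18485))) (Pf.B 8 7 (Pf.B 7 2 (Pf.C 1 0x50e00402) (Pf.B 7 4 (Pf.B 9 4 (Pf.C 1 0x71204504) (Pf.B 8 4 (Pf.C 1 0xa1004384) (Pf.C 5 0x824401))) (Pf.C 5 0x410380))) (Pf.C 5 0xe24401))) (Pf.B 10 2 (Pf.B 8 3 (Pf.B 5 3 (Pf.B 9 7 (Pf.B 9 6 (Pf.C 1 0xa001c309) (Pf.B 9 5 (Pf.B 9 3 (Pf.B 9 2 (Pf.C 1 0x51400109) (Pf.C 1 0x30424280)) (Pf.C 1 0x8120c280)) (Pf.C 6 0xe18485))) (Pf.B 9 5 (Pf.B 9 3 (Pf.B 9 2 (Pf.C 1 0x51400109) (Pf.C 1 0x30424280)) (Pf.C 1 0x8120c280)) (Pf.C 5 0xe14481))) (Pf.C 5 0x140c281)) (Pf.C 5 0x140c401)) (Pf.C 5 0x140c101))) (Pf.B 8 4 (Pf.B 5 4 (Pf.C 1 0x20800405) (Pf.C 5 0xa28200)) (Pf.C 5 0x1028200)))) (Pf.B 10 5 (Pf.B 10 2 (Pf.C 1 0x81400282) (Pf.B 8 6 (Pf.B 6 2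 (Pf.B 9 6 (Pf.B 9 2 (Pf.B 9 5 (Pf.C 1 0x21400289) (Pf.C 1 0x60a24100)) (Pf.C 1 0x81208300)) (Pf.B 9 5 (Pf.B 9 2 (Pf.C 1 0x1408289) (Pf.C 1 0x81208280)) (Pf.C 6 0x1018289))) (Pf.C 5 0x1408301)) (Pf.C 5 0x1418401))) (Pf.C 5 0x1418281))) (Pf.B 10 5 (Pf.B 10 2 (Pf.C 1 0x81400282) (Pf.B 8 7 (Pf.B 7 2 (Pf.C 1 0x50e00402) (Pf.C 5 0x428380)) (Pf.C 5 0x1028380))) (Pf.C 5 0xa1c500))))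
 (Pq.cons (Pq.L [1] 3712 (Pf.B 10 5 (Pf.B 10 2 (Pf.C 6 0x1414108) (Pf.C 5 0x1420101)) (Pf.C 5 0x1420281)))
 (Pq.cons (Pq.L [0,1] 4055 (Pf.B 10 7 (Pf.B 10 4 (Pf.B 7 4 (Pf.B 10 5 (Pf.B 10 2 (Pf.B 10 3 (Pf.C 1 0x40028103) (Pf.B 8 7 (Pf.C 1 0xa001c288) (Pf.B 8 3 (Pf.C 1 0x140c108) (Pf.B 7 3 (Pf.B 7 2 (Pf.C 1 0x4001c182) (Pf.C 1 0x80e08505)) (Pf.C 6 0x1420383))))) (Pf.C 1 0x1408405)) (Pf.B 10 2 (Pf.C 1 0x51400402) (Pf.B 9 5 (Pf.C 1 0x1414409) (Pf.B 9 2 (Pf.C 1 0x1408409) (Pf.C 1 0x51208400))))) (Pf.C 4 0x81c080)) (Pf.C 4 0x828080)) (Pf.C 4 0xe28080)))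
 (Pq.cons (Pq.L [0,1] 4055 (Pf.B 10 7 (Pf.B 10 4 (Pf.B 7 4 (Pf.B 10 5 (Pf.B 10 2 (Pf.B 10 3 (Pf.C 1 0x40028103) (Pf.B 9 7 (Pf.B 9 5 (Pf.C 1 0xa001c289) (Pf.B 9 2 (Pf.C 6 0x1220105) (Pf.B 8 7 (Pf.C 1 0xa001c488) (Pf.B 7 2 (Pf.C 6 0xe14108) (Pf.C 6 0x1220382))))) (Pf.B 9 5 (Pf.B 9 2 (Pf.B 9 3 (Pf.C 1 0x140c109) (Pf.B 7 3 (Pf.B 7 2 (Pf.C 1 0x4001c182) (Pf.B 8 7 (Pf.C 6 0xe14402) (Pf.C 6 0x1208407))) (Pf.C 6 0x1424383))) (Pf.C 6 0x1220282)) (Pf.B 9 2 (Pf.C 6 0x1220105) (Pf.B 7 2 (Pf.C 6 0xe14109) (Pf.C 0 0x90008087)))))) (Pf.C 6 0x1420282)) (Pf.B 10 2 (Pf.C 6 0x1420105) (Pf.C 0 0x5000808a))) (Pf.C 4 0x81c080)) (Pf.C 4 0x828080)) (Pf.C 4 0xe28080)))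
 (Pq.cons (Pq.L [0,1] 4095 (Pf.B 10 7 (Pf.B 10 4 (Pf.B 7 4 (Pf.B 10 6 (Pf.B 10 5 (Pf.B 10 2 (Pf.C 1 0x81400282) (Pf.B 9 7 (Pf.B 9 6 (Pf.C 1 0xa001c309) (Pf.B 9 5 (Pf.B 9 2 (Pf.C 1 0x1408289) (Pf.C 1 0x81208280)) (Pf.C 6 0xe18485))) (Pf.B 9 5 (Pf.B 9 2 (Pf.C 1 0x1408289) (Pf.C 1 0x81208280)) (Pf.C 0 0x50024381)))) (Pf.B 10 3 (Pf.B 10 2 (Pf.B 9 7 (Pf.B 9 6 (Pf.C 1 0xa001c309) (Pf.B 9 5 (Pf.B 9 2 (Pf.C 1 0x51400109) (Pf.C 1 0x81208280)) (Pf.C 6 0xe18485))) (Pf.B 9 5 (Pf.B 9 2 (Pf.C 1 0x51400109) (Pf.C 1 0x81208280)) (Pf.C 6 0x141c485))) (Pf.B 9 7 (Pf.B 9 6 (Pf.C 1 0xa001c309) (Pf.B 9 5 (Pf.B 9 2 (Pf.B 8 6 (Pf.B 7 2 (Pf.C 1 0x50e00482) (Pf.B 7 3 (Pf.B 9 3 (Pf.C 1 0xa001c189) (Pf.B 8 3 (Pf.B 6 3 (Pf.C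 1 0x81400186) (Pf.C 6 0x100c309)) (Pf.C 6 0x1424188))) (Pf.C 6 0x80c382))) (Pf.C 6 0x1424308)) (Pf.C 1 0x81208280)) (Pf.C 6 0xe18485))) (Pf.B 9 5 (Pf.B 9 2 (Pf.B 8 7 (Pf.B 7 2 (Pf.C 1 0x50e00402) (Pf.B 7 3 (Pf.B 6 3 (Pf.C 1 0xa001c186) (Pf.B 6 4 (Pf.B 6 2 (Pf.B 9 6 (Pf.C 1 0x21400309) (Pf.C 1 0x50c24100)) (Pf.C 6 0x80c302)) (Pf.C 1 0x30c10507))) (Pf.C 6 0x80c382))) (Pf.C 6 0x1424388)) (Pf.C 1 0x81208280)) (Pf.C 6 0x141c485)))) (Pf.B 10 2 (Pf.B 8 3 (Pf.B 5 3 (Pf.B 9 7 (Pf.B 9 6 (Pf.C 1 0xa001c309) (Pf.B 9 5 (Pf.B 9 3 (Pf.B 9 2 (Pf.C 1 0x51400109) (Pf.C 1 0x30424280)) (Pf.C 1 0x8120c280)) (Pf.C 6 0xe18485))) (Pf.B 9 5 (Pf.B 9 3 (Pf.B 9 2 (Pf.C 1 0x51400109) (Pf.C 1 0x30424280)) (Pf.C 1 0x8120c280))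 (Pf.C 6 0x141c485))) (Pf.C 6 0x428283)) (Pf.C 6 0x428403)) (Pf.C 6 0x80c502)))) (Pf.B 10 5 (Pf.B 10 2 (Pf.C 1 0x81400282) (Pf.B 8 6 (Pf.B 6 2 (Pf.B 9 6 (Pf.B 9 2 (Pf.B 9 5 (Pf.C 1 0x21400289) (Pf.C 1 0x60a24100)) (Pf.C 1 0x81208300)) (Pf.B 9 5 (Pf.B 9 2 (Pf.C 1 0x1408289) (Pf.C 1 0x81208280)) (Pf.C 6 0x1018289))) (Pf.C 6 0xa28106)) (Pf.C 6 0xa28406))) (Pf.C 6 0xe18505))) (Pf.C 4 0x81c080)) (Pf.C 4 0x828080)) (Pf.C 4 0xe28080)))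
 (Pq.cons (Pq.L [0,1] 3712 (Pf.B 10 5 (Pf.B 10 2 (Pf.C 6 0x1414108) (Pf.C 0 0x8000808a)) (Pf.C 0 0x8001408a)))
 (Pq.cons (Pq.L [0,1] 4095 (Pf.B 10 7 (Pf.B 10 5 (Pf.B 10 2 (Pf.B 8 7 (Pf.C 1 0xa001c288) (Pf.B 7 2 (Pf.C 1 0x50208507) (Pf.C 1 0x80e08505))) (Pf.C 1 0x1408405)) (Pf.B 10 2 (Pf.C 1 0x51400402) (Pf.B 9 5 (Pf.B 9 2 (Pf.C 1 0x81200282) (Pf.C 5 0x428480)) (Pf.C 5 0xa28480)))) (Pf.B 10 6 (Pf.B 10 5 (Pf.B 10 2 (Pf.B 10 4 (Pf.B 8 4 (Pf.C 1 0xa0010108) (Pf.B 5 4 (Pf.C 1 0xa0010105) (Pf.C 1 0x80814502))) (Pf.B 10 3 (Pf.B 9 7 (Pf.B 9 6 (Pf.B 9 4 (Pf.B 7 4 (Pf.B 6 4 (Pf.C 1 0x91410086) (Pf.C 1 0x70c10481)) (Pf.C 6 0x121038a)) (Pf.B 9 3 (Pf.C 6 0x628484) (Pf.B 9 2 (Pf.C 6 0x410483) (Pf.C 5 0x40c480))))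 (Pf.B 9 5 (Pf.B 9 2 (Pf.C 1 0x81200282) (Pf.B 9 4 (Pf.B 9 3 (Pf.B 7 4 (Pf.B 7 3 (Pf.C 1 0x9141c083) (Pf.C 1 0x4061c481)) (Pf.C 6 0x121038a)) (Pf.C 5 0x40c480)) (Pf.C 6 0x428209))) (Pf.C 5 0xa18480))) (Pf.B 9 6 (Pf.C 6 0xc28487) (Pf.B 9 5 (Pf.C 6 0xa1c486) (Pf.C 5 0xa18480)))) (Pf.C 6 0x410503))) (Pf.C 1 0x1408405)) (Pf.B 10 2 (Pf.C 1 0x51400402) (Pf.B 9 5 (Pf.B 9 2 (Pf.C 1 0x81200282) (Pf.C 5 0x428480)) (Pf.C 5 0xa28480)))) (Pf.B 10 5 (Pf.C 6 0xa1c506) (Pf.C 5 0xa18500)))))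
 (Pq.cons (Pq.L [1] 3648 (Pf.B 9 5 (Pf.B 9 2 (Pf.C 6 0x1214108) (Pf.C 5 0x1220101)) (Pf.C 5 0x1220281)))
 (Pq.cons (Pq.L [0,1] 511 (Pf.B 10 7 (Pf.B 10 4 (Pf.B 7 4 (Pf.B 10 6 (Pf.B 10 5 (Pf.B 9 7 (Pf.B 9 6 (Pf.C 1 0xa021c309) (Pf.B 9 5 (Pf.C 1 0x50c24507) (Pf.C 5 0xa18480))) (Pf.B 8 7 (Pf.B 8 5 (Pf.C 1 0xa001c288) (Pf.B 8 6 (Pf.C 1 0x60a20507) (Pf.C 5 0xc14401))) (Pf.C 5 0x121c401))) (Pf.B 10 3 (Pf.B 9 7 (Pf.B 9 6 (Pf.C 1 0xa021c309) (Pf.B 8 6 (Pf.B 8 7 (Pf.C 1 0x61220507) (Pf.B 9 4 (Pf.B 9 3 (Pf.C 1 0xa0210189) (Pf.B 8 4 (Pf.C 1 0x9101c504) (Pf.B 8 3 (Pf.B 7 3 (Pf.C 1 0x4101c503) (Pf.C 1 0x9061c504)) (Pf.C 5 0x1024180)))) (Pf.B 8 4 (Pf.B 6 4 (Pf.C 1 0x41218507) (Pf.C 6 0x1010309)) (Pf.C 5 0x1210401))))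 (Pf.C 5 0x1024300))) (Pf.B 8 7 (Pf.B 9 6 (Pf.B 8 6 (Pf.C 1 0x71220506) (Pf.B 9 4 (Pf.B 9 3 (Pf.C 1 0xa0210189) (Pf.B 8 3 (Pf.B 7 3 (Pf.C 1 0x3121c504) (Pf.C 6 0x100c389)) (Pf.C 5 0x1024180))) (Pf.B 8 4 (Pf.B 6 4 (Pf.C 1 0x71210506) (Pf.C 1 0x80c10507)) (Pf.C 5 0x1210401)))) (Pf.B 8 6 (Pf.B 9 4 (Pf.B 9 3 (Pf.C 1 0xa0210189) (Pf.B 8 3 (Pf.B 7 3 (Pf.C 1 0x3121c504) (Pf.C 6 0x100c389)) (Pf.C 5 0x1024180))) (Pf.B 8 4 (Pf.B 6 4 (Pf.B 6 3 (Pf.C 1 0xa0210186) (Pf.B 9 3 (Pf.B 8 3 (Pf.C 1 0x41220503) (Pf.C 1 0x60620504)) (Pf.C 6 0x818189))) (Pf.C 6 0xe10309)) (Pf.C 5 0x1210401))) (Pf.C 5 0x1024300))) (Pf.C 5 0x121c401))) (Pf.B 10 2 (Pf.B 5 3 (Pf.B 9 7 (Pf.B 9 6 (Pf.C 1 0xa021c309) (Pf.B 8 6 (Pf.B 8 7 (Pf.C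 1 0x61220507) (Pf.B 9 4 (Pf.B 8 4 (Pf.C 1 0x9101c504) (Pf.B 6 4 (Pf.C 1 0x71010506) (Pf.C 1 0x90c10507))) (Pf.B 8 4 (Pf.B 8 2 (Pf.C 1 0xa0010108) (Pf.B 9 2 (Pf.B 7 2 (Pf.C 1 0x2101c504) (Pf.C 6 0x1208388)) (Pf.C 5 0x1220101))) (Pf.C 5 0x1210401)))) (Pf.C 5 0x1024300))) (Pf.B 8 7 (Pf.B 9 6 (Pf.B 8 6 (Pf.C 1 0x71220506) (Pf.B 8 5 (Pf.B 9 4 (Pf.B 8 4 (Pf.C 1 0x71220504) (Pf.B 6 4 (Pf.C 1 0xa0210486) (Pf.C 5 0x1010300))) (Pf.B 8 4 (Pf.B 8 2 (Pf.C 1 0xa0010108) (Pf.B 8 3 (Pf.B 7 3 (Pf.C 1 0x5140c407) (Pf.C 1 0xa061c404)) (Pf.C 5 0x608401))) (Pf.C 5 0x1210401))) (Pf.C 5 0xc14401))) (Pf.B 8 6 (Pf.B 9 4 (Pf.B 8 4 (Pf.C 1 0x71220504) (Pf.B 6 4 (Pf.C 1 0x71218504) (Pf.C 1 0x80818507))) (Pf.B 8 4 (Pf.B 8 2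 (Pf.C 1 0xa0010108) (Pf.B 8 3 (Pf.B 7 3 (Pf.B 7 2 (Pf.C 1 0xa0608207) (Pf.C 1 0x8041c504)) (Pf.C 1 0xa061c404)) (Pf.C 5 0x608401))) (Pf.C 5 0x1210401))) (Pf.C 5 0x1024300))) (Pf.C 5 0x121c401))) (Pf.C 5 0x628281)) (Pf.C 5 0x608501)))) (Pf.B 10 5 (Pf.B 10 3 (Pf.B 10 2 (Pf.B 9 4 (Pf.B 9 3 (Pf.C 1 0xa0210189) (Pf.B 9 2 (Pf.C 1 0x20624504) (Pf.C 5 0x40c480))) (Pf.B 8 4 (Pf.B 8 2 (Pf.C 1 0xa0010108) (Pf.B 8 3 (Pf.C 1 0x30420504) (Pf.C 5 0x608401))) (Pf.C 5 0x1210401))) (Pf.B 6 2 (Pf.B 9 7 (Pf.B 9 6 (Pf.B 9 5 (Pf.C 1 0xa0c14389) (Pf.B 8 5 (Pf.B 8 7 (Pf.C 1 0xa001c288) (Pf.B 9 4 (Pf.B 9 3 (Pf.C 1 0xa0210189) (Pf.B 8 4 (Pf.C 1 0x9101c504) (Pf.B 8 3 (Pf.B 7 3 (Pf.C 1 0x4101c503) (Pf.C 1 0x9061c504)) (Pf.C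 5 0x1024180)))) (Pf.B 8 4 (Pf.B 5 4 (Pf.C 1 0xa0010405) (Pf.C 5 0x1210281)) (Pf.C 5 0x1210401)))) (Pf.C 5 0x1214401))) (Pf.B 8 6 (Pf.B 9 4 (Pf.B 9 3 (Pf.C 1 0xa0210189) (Pf.B 8 3 (Pf.B 8 4 (Pf.C 1 0x31220504) (Pf.B 8 7 (Pf.C 1 0x91010507) (Pf.B 7 3 (Pf.C 1 0x4101c503) (Pf.C 1 0x9061c504)))) (Pf.C 5 0x1024180))) (Pf.B 8 4 (Pf.B 8 7 (Pf.C 1 0x41220507) (Pf.B 6 4 (Pf.B 8 2 (Pf.C 1 0x60010108) (Pf.B 8 3 (Pf.B 9 3 (Pf.C 1 0x81210503) (Pf.B 7 3 (Pf.C 1 0x4120c507) (Pf.C 1 0x80e0c504))) (Pf.C 5 0x608401))) (Pf.C 6 0x1424206))) (Pf.C 5 0x1210401))) (Pf.C 5 0x1024300))) (Pf.B 8 7 (Pf.B 8 5 (Pf.C 1 0xa001c288) (Pf.B 8 6 (Pf.B 9 4 (Pf.B 9 3 (Pf.C 1 0xa0210189) (Pf.B 8 3 (Pf.B 7 3 (Pf.C 1 0x3121c504) (Pf.C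 6 0x100c389)) (Pf.C 5 0x1024180))) (Pf.B 8 4 (Pf.B 6 4 (Pf.B 8 2 (Pf.C 1 0x60010108) (Pf.B 7 2 (Pf.C 1 0x61408207) (Pf.C 1 0x8041c304))) (Pf.C 1 0xa0c10407)) (Pf.C 5 0x1210401))) (Pf.C 5 0xc14401))) (Pf.C 5 0x121c401))) (Pf.C 5 0x428300))) (Pf.B 10 2 (Pf.B 6 3 (Pf.B 9 7 (Pf.B 9 6 (Pf.B 9 5 (Pf.C 1 0xa0c14389) (Pf.B 8 5 (Pf.B 8 7 (Pf.C 1 0xa001c288) (Pf.B 9 4 (Pf.B 6 4 (Pf.C 1 0x70210486) (Pf.C 1 0xa0c10487)) (Pf.B 8 4 (Pf.B 8 2 (Pf.C 1 0xa0010108) (Pf.B 9 2 (Pf.B 7 2 (Pf.C 1 0x2101c504) (Pf.C 6 0x1208388)) (Pf.C 5 0x1220101))) (Pf.C 5 0x1210401)))) (Pf.C 5 0x1214401))) (Pf.B 9 5 (Pf.B 9 4 (Pf.B 6 4 (Pf.C 1 0xa0c24384) (Pf.B 5 4 (Pf.B 5 2 (Pf.C 1 0xa0010105) (Pf.B 9 2 (Pf.B 9 3 (Pf.C 1 0xa0608209)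 (Pf.B 7 3 (Pf.C 1 0xa0624207) (Pf.B 7 2 (Pf.B 6 2 (Pf.C 1 0x90c10382) (Pf.C 5 0xc14101)) (Pf.C 5 0x608381)))) (Pf.C 1 0x50424504))) (Pf.C 5 0xc10281))) (Pf.B 8 4 (Pf.B 8 7 (Pf.C 1 0x41220507) (Pf.B 8 2 (Pf.C 1 0xa0010108) (Pf.B 9 2 (Pf.B 7 2 (Pf.C 1 0x2101c504) (Pf.C 6 0x1208388)) (Pf.C 5 0x1220101)))) (Pf.C 5 0x1210401))) (Pf.C 5 0xa18480))) (Pf.B 8 7 (Pf.B 8 5 (Pf.C 1 0xa001c288) (Pf.B 9 5 (Pf.B 8 6 (Pf.B 9 4 (Pf.B 8 4 (Pf.C 1 0x71220504) (Pf.B 5 4 (Pf.C 1 0x41014507) (Pf.C 6 0x1210288))) (Pf.B 8 4 (Pf.B 8 2 (Pf.C 1 0xa0010108) (Pf.B 8 3 (Pf.B 7 3 (Pf.C 1 0x6140c407) (Pf.C 1 0xa061c404)) (Pf.C 5 0x608401))) (Pf.C 5 0x1210401))) (Pf.C 5 0xc14401)) (Pf.C 5 0x1220281))) (Pf.C 5 0x121c401))) (Pf.C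 0 0x30218500)) (Pf.C 5 0x608501))) (Pf.C 5 0xc14501))) (Pf.C 4 0x81c080)) (Pf.C 4 0x828080)) (Pf.C 4 0xe28080)))
 (Pq.cons (Pq.L [0,1] 4095 (Pf.B 10 7 (Pf.B 10 4 (Pf.B 10 6 (Pf.B 10 5 (Pf.B 10 2 (Pf.C 1 0x81400282) (Pf.B 10 3 (Pf.B 9 7 (Pf.B 9 6 (Pf.C 1 0xa021c309) (Pf.B 9 5 (Pf.B 9 2 (Pf.C 1 0x81200282) (Pf.B 9 4 (Pf.B 9 3 (Pf.C 1 0xa0210189) (Pf.C 5 0x40c480)) (Pf.C 5 0x410480))) (Pf.C 5 0xa18480))) (Pf.B 9 5 (Pf.B 9 2 (Pf.C 1 0x81200282) (Pf.B 9 4 (Pf.B 9 3 (Pf.C 1 0xa0210189) (Pf.C 5 0x40c480)) (Pf.C 5 0x410480))) (Pf.C 5 0xa1c480))) (Pf.C 5 0x40c500))) (Pf.B 10 3 (Pf.B 9 7 (Pf.B 9 6 (Pf.C 1 0xa021c309) (Pf.B 9 5 (Pf.B 9 2 (Pf.C 1 0x81200282) (Pf.B 9 4 (Pf.B 9 3 (Pf.C 1 0xa0210189) (Pf.C 5 0x40c480))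 (Pf.C 5 0x410480))) (Pf.C 5 0xa18480))) (Pf.B 9 5 (Pf.B 9 2 (Pf.C 1 0x81200282) (Pf.B 9 4 (Pf.B 9 3 (Pf.C 1 0xa0210189) (Pf.C 5 0x40c480)) (Pf.C 5 0x410480))) (Pf.C 5 0xa1c480))) (Pf.B 8 3 (Pf.B 5 3 (Pf.C 1 0x20600405) (Pf.C 5 0x628281)) (Pf.C 5 0x628401)))) (Pf.B 10 5 (Pf.B 10 2 (Pf.C 1 0x81400282) (Pf.B 8 6 (Pf.B 6 2 (Pf.C 1 0x50c00402) (Pf.C 5 0x428300)) (Pf.C 5 0xc28401))) (Pf.C 5 0xc14501))) (Pf.C 4 0x828080)) (Pf.C 4 0xe28080)))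
 (Pq.cons (Pq.L [0,1] 3712 (Pf.B 10 5 (Pf.B 10 2 (Pf.C 6 0x1414108) (Pf.C 0 0x8000808a)) (Pf.C 0 0x8001408a)))
 (Pq.cons (Pq.L [0,1] 4048 (Pf.B 10 7 (Pf.B 10 5 (Pf.B 10 2 (Pf.B 8 7 (Pf.C 1 0xa001c288) (Pf.B 7 2 (Pf.C 1 0xa001c282) (Pf.C 1 0x80e08505))) (Pf.C 1 0x1408405)) (Pf.B 10 2 (Pf.C 1 0x51400402) (Pf.B 9 5 (Pf.B 9 2 (Pf.C 1 0x81200282) (Pf.C 5 0x428480)) (Pf.C 5 0xa28480)))) (Pf.C 4 0xe28080)))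
 (Pq.cons (Pq.L [1] 3648 (Pf.B 9 5 (Pf.B 9 2 (Pf.C 6 0x1214108) (Pf.C 5 0x1220101)) (Pf.C 5 0x1220281)))
 (Pq.cons (Pq.L [0,1] 4095 (Pf.B 10 7 (Pf.B 10 4 (Pf.B 7 4 (Pf.B 10 6 (Pf.B 10 5 (Pf.B 10 2 (Pf.C 1 0x81400282) (Pf.B 9 2 (Pf.B 9 5 (Pf.B 10 3 (Pf.B 9 7 (Pf.B 9 6 (Pf.B 8 6 (Pf.C 1 0x90018288) (Pf.B 8 7 (Pf.B 7 2 (Pf.C 1 0x9001c402) (Pf.C 1 0x50e08488)) (Pf.C 5 0xc1c401))) (Pf.B 9 4 (Pf.B 9 3 (Pf.B 8 3 (Pf.C 1 0x9000c108) (Pf.B 8 4 (Pf.B 8 7 (Pf.C 1 0x91420207) (Pf.B 8 6 (Pf.B 7 3 (Pf.B 7 2 (Pf.C 1 0x91408187) (Pf.B 6 2 (Pf.C 1 0x81408286) (Pf.C 5 0x41c300))) (Pf.C 5 0x100c380)) (Pf.C 5 0xc1c401))) (Pf.C 5 0x610401))) (Pf.B 6 3 (Pf.B 5 3 (Pf.C 1 0xa0214303) (Pf.B 8 3 (Pf.C 1 0x50600108) (Pf.B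 8 4 (Pf.B 8 7 (Pf.C 1 0x91420207) (Pf.B 8 6 (Pf.B 7 2 (Pf.C 1 0x80e14482) (Pf.B 6 2 (Pf.C 1 0x80614106) (Pf.C 5 0x41c300))) (Pf.C 5 0xc1c401))) (Pf.C 5 0x610401)))) (Pf.C 6 0x140c309))) (Pf.B 9 3 (Pf.B 8 3 (Pf.C 1 0x9000c108) (Pf.B 8 4 (Pf.B 5 4 (Pf.C 1 0x20800405) (Pf.B 5 3 (Pf.C 1 0x91408185) (Pf.C 5 0x610281))) (Pf.C 5 0x610401))) (Pf.C 6 0x1410189)))) (Pf.B 9 6 (Pf.B 8 6 (Pf.C 1 0x90018288) (Pf.B 8 7 (Pf.B 7 2 (Pf.C 1 0x50e00402) (Pf.B 6 2 (Pf.C 1 0x91408286) (Pf.C 5 0x41c300))) (Pf.C 5 0xc1c401))) (Pf.C 6 0x141c309))) (Pf.B 9 3 (Pf.B 8 3 (Pf.C 1 0x9000c108) (Pf.C 5 0x628401)) (Pf.C 6 0x40c48a))) (Pf.C 1 0x1214402)) (Pf.C 5 0x428480))) (Pf.B 9 5 (Pf.B 9 2 (Pf.B 10 3 (Pf.B 9 7 (Pf.B 9 6 (Pf.B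 8 6 (Pf.C 1 0x90018288) (Pf.B 8 7 (Pf.B 7 2 (Pf.C 1 0x9001c402) (Pf.C 1 0x50e08488)) (Pf.C 5 0xc1c401))) (Pf.B 9 4 (Pf.B 9 3 (Pf.B 8 3 (Pf.C 1 0x9000c108) (Pf.B 8 4 (Pf.B 5 4 (Pf.C 1 0x90010405) (Pf.C 1 0x20814488)) (Pf.C 5 0x610401))) (Pf.B 6 3 (Pf.B 8 7 (Pf.B 8 4 (Pf.C 1 0x91420384) (Pf.B 7 2 (Pf.C 1 0x80808487) (Pf.C 1 0x50e08488))) (Pf.B 8 6 (Pf.B 7 2 (Pf.C 1 0x80e14482) (Pf.B 6 2 (Pf.B 8 3 (Pf.C 1 0x6000c108) (Pf.B 8 4 (Pf.B 5 4 (Pf.C 1 0x90010405) (Pf.C 1 0x20814488)) (Pf.C 5 0x610401))) (Pf.C 5 0x41c300))) (Pf.C 5 0xc1c401))) (Pf.C 6 0x140c309))) (Pf.B 9 3 (Pf.B 8 3 (Pf.C 1 0x9000c108) (Pf.B 8 4 (Pf.B 5 4 (Pf.C 1 0x20800405) (Pf.B 5 3 (Pf.C 1 0x9000c105) (Pf.C 5 0x610281))) (Pf.C 5 0x610401)))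 (Pf.C 6 0x1410189)))) (Pf.B 9 6 (Pf.B 8 6 (Pf.C 1 0x90018288) (Pf.B 8 7 (Pf.B 7 2 (Pf.C 1 0x50e00402) (Pf.B 6 2 (Pf.C 1 0x50208486) (Pf.C 5 0x41c300))) (Pf.C 5 0xc1c401))) (Pf.C 6 0x141c309))) (Pf.B 9 3 (Pf.B 8 3 (Pf.C 1 0x9000c108) (Pf.C 5 0x628401)) (Pf.C 0 0x30224500))) (Pf.C 1 0x1208405)) (Pf.C 5 0xa28480))) (Pf.B 9 6 (Pf.B 8 6 (Pf.B 9 5 (Pf.C 1 0x80214309) (Pf.B 10 5 (Pf.B 10 2 (Pf.C 1 0x81400282) (Pf.B 9 2 (Pf.C 1 0x51200402) (Pf.C 5 0x428480))) (Pf.C 5 0x1214501))) (Pf.C 5 0xc28401)) (Pf.C 0 0x60224500))) (Pf.C 4 0x81c080)) (Pf.C 4 0x828080)) (Pf.C 4 0xe28080)))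
 (Pq.cons (Pq.L [0,1] 3712 (Pf.B 10 5 (Pf.B 10 2 (Pf.C 6 0x1414108) (Pf.C 0 0x8000808a)) (Pf.C 0 0x8001408a)))
 (Pq.cons (Pq.L [0,1] 4055 (Pf.B 10 7 (Pf.B 10 4 (Pf.B 7 4 (Pf.B 10 5 (Pf.B 10 2 (Pf.B 10 3 (Pf.C 1 0x40228103) (Pf.B 8 7 (Pf.C 1 0xa021c288) (Pf.B 8 3 (Pf.C 1 0x1140c108) (Pf.B 7 3 (Pf.B 7 2 (Pf.C 1 0x4021c182) (Pf.C 1 0x80e08505)) (Pf.C 6 0x1420383))))) (Pf.C 1 0x11408405)) (Pf.B 10 2 (Pf.C 1 0x51404402) (Pf.B 9 5 (Pf.C 1 0x11414409) (Pf.B 9 2 (Pf.C 1 0x11408409) (Pf.C 1 0x51208401))))) (Pf.C 4 0x81c080)) (Pf.C 4 0x828080)) (Pf.C 4 0xe28080)))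
 (Pq.cons (Pq.L [0,1] 4055 (Pf.B 10 7 (Pf.B 10 4 (Pf.B 7 4 (Pf.B 10 5 (Pf.B 10 2 (Pf.B 10 3 (Pf.C 1 0x40228103) (Pf.B 9 7 (Pf.B 9 5 (Pf.C 1 0xa021c289) (Pf.B 9 2 (Pf.C 6 0x1220105) (Pf.B 8 7 (Pf.C 1 0xa021c488) (Pf.B 7 2 (Pf.C 6 0xe14108) (Pf.C 6 0x1220382))))) (Pf.B 9 5 (Pf.B 9 2 (Pf.B 9 3 (Pf.C 1 0x1140c109) (Pf.B 7 3 (Pf.B 7 2 (Pf.C 1 0x4021c182) (Pf.B 8 7 (Pf.C 6 0xe14402) (Pf.C 6 0x1208407))) (Pf.C 6 0x1424383))) (Pf.C 6 0x1220282)) (Pf.B 9 2 (Pf.C 6 0x1220105) (Pf.B 7 2 (Pf.C 6 0xe14109) (Pf.C 0 0x90208007)))))) (Pf.C 6 0x1420282)) (Pf.B 10 2 (Pf.C 6 0x1420105) (Pf.C 0 0x5020800a))) (Pf.C 4 0x81c080)) (Pf.C 4 0x828080)) (Pf.C 4 0xe28080)))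
 (Pq.cons (Pq.L [0,1] 4095 (Pf.B 10 7 (Pf.B 10 4 (Pf.B 7 4 (Pf.B 10 6 (Pf.B 10 5 (Pf.B 10 2 (Pf.C 1 0x81404282) (Pf.B 9 7 (Pf.B 9 6 (Pf.C 1 0xa021c309) (Pf.B 9 5 (Pf.B 9 2 (Pf.C 1 0x11408289) (Pf.C 1 0x81208281)) (Pf.C 6 0xe18485))) (Pf.B 9 5 (Pf.B 9 2 (Pf.C 1 0x11408289) (Pf.C 1 0x81208281)) (Pf.C 0 0x50224380)))) (Pf.B 10 3 (Pf.B 10 2 (Pf.B 9 7 (Pf.B 9 6 (Pf.C 1 0xa021c309) (Pf.B 9 5 (Pf.B 9 2 (Pf.C 1 0x51404109) (Pf.C 1 0x81208281)) (Pf.C 6 0xe18485))) (Pf.B 9 5 (Pf.B 9 2 (Pf.C 1 0x51404109) (Pf.C 1 0x81208281)) (Pf.C 6 0x141c485))) (Pf.B 9 7 (Pf.B 9 6 (Pf.C 1 0xa021c309) (Pf.B 9 5 (Pf.B 9 2 (Pf.B 8 6 (Pf.B 7 2 (Pf.C 1 0x50e04482) (Pf.B 7 3 (Pf.B 9 3 (Pf.C 1 0xa021c189) (Pf.B 8 3 (Pf.B 6 3 (Pf.C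 1 0x81404186) (Pf.C 6 0x100c309)) (Pf.C 6 0x1424188))) (Pf.C 6 0x80c382))) (Pf.C 6 0x1424308)) (Pf.C 1 0x81208281)) (Pf.C 6 0xe18485))) (Pf.B 9 5 (Pf.B 9 2 (Pf.B 8 7 (Pf.B 7 2 (Pf.C 1 0x50e04402) (Pf.B 7 3 (Pf.B 6 3 (Pf.C 1 0xa021c186) (Pf.B 6 4 (Pf.B 6 2 (Pf.B 9 6 (Pf.C 1 0x21404309) (Pf.C 1 0x50c24101)) (Pf.C 6 0x80c302)) (Pf.C 1 0x30c10507))) (Pf.C 6 0x80c382))) (Pf.C 6 0x1424388)) (Pf.C 1 0x81208281)) (Pf.C 6 0x141c485)))) (Pf.B 10 2 (Pf.B 8 3 (Pf.B 5 3 (Pf.B 9 7 (Pf.B 9 6 (Pf.C 1 0xa021c309) (Pf.B 9 5 (Pf.B 9 3 (Pf.B 9 2 (Pf.C 1 0x51404109) (Pf.C 1 0x30424281)) (Pf.C 1 0x8120c281)) (Pf.C 6 0xe18485))) (Pf.B 9 5 (Pf.B 9 3 (Pf.B 9 2 (Pf.C 1 0x51404109) (Pf.C 1 0x30424281)) (Pf.C 1 0x8120c281))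 (Pf.C 6 0x141c485))) (Pf.C 6 0x428283)) (Pf.C 6 0x428403)) (Pf.C 6 0x80c502)))) (Pf.B 10 5 (Pf.B 10 2 (Pf.C 1 0x81404282) (Pf.B 8 6 (Pf.B 6 2 (Pf.B 9 6 (Pf.B 9 2 (Pf.B 9 5 (Pf.C 1 0x21404289) (Pf.C 1 0x60a24101)) (Pf.C 1 0x81208301)) (Pf.B 9 5 (Pf.B 9 2 (Pf.C 1 0x11408289) (Pf.C 1 0x81208281)) (Pf.C 6 0x1018289))) (Pf.C 6 0xa28106)) (Pf.C 6 0xa28406))) (Pf.C 6 0xe18505))) (Pf.C 4 0x81c080)) (Pf.C 4 0x828080)) (Pf.C 4 0xe28080)))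
 (Pq.cons (Pq.L [0,1] 3712 (Pf.B 10 5 (Pf.B 10 2 (Pf.C 6 0x1414108) (Pf.C 0 0x8020800a)) (Pf.C 0 0x8021400a)))
 Pq.nil))))))))))))))))))))
theorem hh_o11 : AllRef hh_T hh_G13 (List.drop 9 (List.drop 28 (hitObl [7,8,9,10,12,13] hh_h15))) :=
  chkPq_sound hh_o11c _ (by decide +kernel)
noncomputable def hh_o12c : Pq := (Pq.cons (Pq.L [] 1023 (Pf.C 1 0x60a10182))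
 (Pq.cons (Pq.L [] 1 (Pf.C 11 386))
 (Pq.cons (Pq.L [] 1 (Pf.W 10 2 [] [3] (Pf.cons (Pf.B 4 3 (Pf.T 4 0 (Pf.cons (Pf.W 10 3 [] [2,4] (Pf.cons (Pf.C 9 0x808283) Pf.nil)) (Pf.cons (Pf.C 11 260) Pf.nil))) (Pf.C 2 33156)) Pf.nil)))
 (Pq.cons (Pq.L [0] 1 (Pf.C 3 49154))
 (Pq.cons (Pq.L [0,1] 1 (Pf.C 4 0x608080))
 (Pq.cons (Pq.L [] 1 (Pf.C 13 386))
 (Pq.cons (Pq.D 1 (Pq.cons (Pq.L [0] 1 (Pf.C 3 49154))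
 (Pq.cons (Pq.L [1] 1 (Pf.C 3 49282))
 Pq.nil))) (Pq.cons (Pq.L [] 7 (Pf.C 3 65922))
 (Pq.cons (Pq.L [0,1] 7 (Pf.C 0 0x10800182))
 (Pq.cons (Pq.L [] 7 (Pf.C 14 65922))
 (Pq.cons (Pq.L [] 7 (Pf.C 17 65922))
 (Pq.cons (Pq.L [] 7 (Pf.C 22 65922))
 (Pq.cons (Pq.L [] 7 (Pf.C 23 65922))
 (Pq.cons (Pq.D 2 (Pq.cons (Pq.L [0,1] 3 (Pf.B 3 2 (Pf.C 2 33152) (Pf.C 0 0x80c082)))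
 (Pq.cons (Pq.L [0,1] 3 (Pf.B 3 2 (Pf.C 2 33152) (Pf.C 0 0x1080c002)))
 Pq.nil))) (Pq.cons (Pq.D 2 (Pq.cons (Pq.L [] 7 (Pf.C 15 65922))
 (Pq.cons (Pq.L [] 7 (Pf.C 16 65922))
 Pq.nil))) (Pq.cons (Pq.D 1 (Pq.cons (Pq.L [0,1] 1 (Pf.B 4 2 (Pf.C 13 514) (Pf.B 4 3 (Pf.C 0 0x610101) (Pf.C 4 0x610101))))
 (Pq.cons (Pq.L [0,1] 1 (Pf.B 4 2 (Pf.C 13 514) (Pf.B 4 3 (Pf.C 0 0x10610100) (Pf.C 4 0x610100))))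
 Pq.nil))) (Pq.cons (Pq.D 1 (Pq.cons (Pq.L [0,1] 1 (Pf.B 4 2 (Pf.C 13 514) (Pf.B 3 2 (Pf.C 0 0x608201) (Pf.C 4 0x80c082))))
 (Pq.cons (Pq.L [0,1] 1 (Pf.B 4 2 (Pf.C 13 514) (Pf.B 3 2 (Pf.C 0 0x10608200) (Pf.C 4 0x80c002))))
 Pq.nil))) (Pq.cons (Pq.D 2 (Pq.cons (Pq.L [0,1] 3 (Pf.B 4 2 (Pf.C 1 0x210182) (Pf.C 18 65922)))
 (Pq.cons (Pq.L [0,1] 3 (Pf.B 4 2 (Pf.C 1 0x10010182) (Pf.C 20 65922)))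
 Pq.nil))) (Pq.cons (Pq.D 2 (Pq.cons (Pq.L [] 3 (Pf.B 3 2 (Pf.C 18 65922) (Pf.C 19 65922)))
 (Pq.cons (Pq.L [] 3 (Pf.B 3 2 (Pf.C 20 65922) (Pf.C 21 65922)))
 Pq.nil))) (Pq.cons (Pq.D 1 (Pq.cons (Pq.D 2 (Pq.cons (Pq.L [] 7 (Pf.C 24 65922))
 (Pq.cons (Pq.L [] 7 (Pf.C 25 65922))
 Pq.nil))) (Pq.cons (Pq.D 2 (Pq.cons (Pq.L [] 7 (Pf.C 26 49666))
 (Pq.cons (Pq.L [] 7 (Pf.C 32 65922))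
 Pq.nil))) Pq.nil))) (Pq.cons (Pq.D 1 (Pq.cons (Pq.L [] 3 (Pf.B 3 2 (Pf.C 27 65922) (Pf.C 28 65922)))
 (Pq.cons (Pq.L [] 3 (Pf.B 3 2 (Pf.C 33 65922) (Pf.C 34 65922)))
 Pq.nil))) (Pq.cons (Pq.D 1 (Pq.cons (Pq.L [1] 1 (Pf.B 4 3 (Pf.B 4 2 (Pf.C 28 65922) (Pf.C 29 65922)) (Pf.B 4 2 (Pf.C 30 65922) (Pf.C 5 0x40c201))))
 (Pq.cons (Pq.L [0] 1 (Pf.B 4 3 (Pf.B 4 2 (Pf.C 34 65922) (Pf.C 35 65922)) (Pf.B 4 2 (Pf.C 36 65922) (Pf.C 5 0x40c200))))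
 Pq.nil))) (Pq.cons (Pq.D 1 (Pq.cons (Pq.L [1] 3 (Pf.B 3 2 (Pf.C 31 65922) (Pf.C 5 0x410181)))
 (Pq.cons (Pq.L [0] 3 (Pf.B 3 2 (Pf.C 37 65922) (Pf.C 5 0x410180)))
 Pq.nil))) (Pq.cons (Pq.D 0 (Pq.cons (Pq.D 1 (Pq.cons (Pq.L [0,1] 3 (Pf.B 4 3 (Pf.C 40 65922) (Pf.C 0 0x2000c084)))
 (Pq.cons (Pq.L [0] 3 (Pf.B 4 3 (Pf.C 43 65922) (Pf.C 5 0x40c200)))
 Pq.nil))) (Pq.cons (Pq.D 1 (Pq.cons (Pq.L [1] 3 (Pf.B 4 3 (Pf.C 44 65795) (Pf.C 5 0x40c201)))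
 (Pq.cons (Pq.L [0,1] 3 (Pf.B 4 3 (Pf.C 47 65922) (Pf.C 0 0x2020c004)))
 Pq.nil))) Pq.nil))) (Pq.cons (Pq.L [] 63 (Pf.C 6 0xa10182))
 (Pq.cons (Pq.L [] 63 (Pf.C 5 0xa10182))
 (Pq.cons (Pq.L [0] 63 (Pf.C 1 0x40a00182))
 (Pq.cons (Pq.L [0] 63 (Pf.C 1 0x5080c002))
 (Pq.cons (Pq.D 0 (Pq.cons (Pq.D 1 (Pq.cons (Pq.L [] 21 (Pf.C 39 82306))
 (Pq.cons (Pq.D 2 (Pq.cons (Pq.L [] 38 (Pf.C 39 82434))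
 (Pq.cons (Pq.L [1] 63 (Pf.C 1 0x50208203))
 Pq.nil))) Pq.nil))) (Pq.cons (Pq.D 1 (Pq.cons (Pq.D 2 (Pq.cons (Pq.L [0] 63 (Pf.C 1 0x50008203))
 (Pq.cons (Pq.L [] 38 (Pf.C 46 82434))
 Pq.nil))) (Pq.cons (Pq.L [] 21 (Pf.C 46 82306))
 Pq.nil))) Pq.nil))) (Pq.cons (Pq.D 0 (Pq.cons (Pq.D 1 (Pq.cons (Pq.D 2 (Pq.cons (Pq.L [0,1] 7 (Pf.B 5 4 (Pf.B 5 3 (Pf.C 39 82435) (Pf.B 5 2 (Pf.C 40 82179) (Pf.C 40 82434))) (Pf.B 5 2 (Pf.C 40 82180) (Pf.C 0 0x40008085))))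
 (Pq.cons (Pq.L [] 7 (Pf.C 38 65922))
 Pq.nil))) (Pq.cons (Pq.L [1] 1 (Pf.B 5 3 (Pf.B 5 2 (Pf.C 42 82306) (Pf.C 43 82306)) (Pf.B 5 2 (Pf.C 44 82306) (Pf.C 5 0x608281))))
 Pq.nil))) (Pq.cons (Pq.D 1 (Pq.cons (Pq.L [0] 1 (Pf.B 5 3 (Pf.B 5 2 (Pf.C 42 82179) (Pf.C 44 82179)) (Pf.B 5 2 (Pf.C 43 82179) (Pf.C 5 0x608280))))
 (Pq.cons (Pq.D 2 (Pq.cons (Pq.L [] 7 (Pf.C 41 49412))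
 (Pq.cons (Pq.L [0,1] 7 (Pf.B 5 4 (Pf.B 5 3 (Pf.C 46 82435) (Pf.B 5 2 (Pf.C 47 82179) (Pf.C 47 82434))) (Pf.B 5 2 (Pf.C 47 82180) (Pf.C 0 0x40208005))))
 Pq.nil))) Pq.nil))) Pq.nil))) (Pq.cons (Pq.D 0 (Pq.cons (Pq.D 1 (Pq.cons (Pq.L [0,1] 15 (Pf.B 3 2 (Pf.C 39 82179) (Pf.C 0 0x2000c201)))
 (Pq.cons (Pq.L [] 15 (Pf.B 3 2 (Pf.C 45 65922) (Pf.C 42 82306)))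
 Pq.nil))) (Pq.cons (Pq.D 1 (Pq.cons (Pq.L [] 15 (Pf.B 3 2 (Pf.C 45 65795) (Pf.C 42 82179)))
 (Pq.cons (Pq.L [0,1] 15 (Pf.B 3 2 (Pf.C 46 82179) (Pf.C 0 0x2020c200)))
 Pq.nil))) Pq.nil))) Pq.nil)))))))))))))))))))))))))))))))
theorem hh_o12 : AllRef hh_T hh_G14 (applyObl h2_T 31 [18,14,15,16,17,19] [1,2,3,4,4,5] []) :=
  chkPq_sound hh_o12c _ (by decide +kernel)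
noncomputable def hh_o13c : Pq := Pq.nil
theorem hh_o13 : AllRef hh_T hh_G3 (ptObl 1 PT.kid []) :=
  chkPq_sound hh_o13c _ (by decide +kernel)
noncomputable def hh_o14c : Pq := (Pq.cons (Pq.L [2,3] 0 (Pf.C 2 33283))
 (Pq.cons (Pq.L [2,3] 0 (Pf.C 2 49666))
 (Pq.cons (Pq.L [0,1] 0 (Pf.C 2 513))
 (Pq.cons (Pq.L [0,1] 0 (Pf.C 2 16896))
 (Pq.cons (Pq.L [0,3] 0 (Pf.C 2 49156))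
 (Pq.cons (Pq.L [0,2] 0 (Pf.C 2 32772))
 Pq.nil))))))
theorem hh_o14 : AllRef hh_T hh_G15 (ptObl 20 (PT.br 0 (PT.br 1 (PT.br 2 (PT.br 3 PT.kid PT.ref) (PT.br 3 PT.ref PT.kid)) PT.ref) (PT.br 1 PT.ref (PT.br 2 (PT.br 3 PT.kid PT.ref) PT.ref))) []) :=
  chkPq_sound hh_o14c _ (by decide +kernel)
noncomputable def hh_o15c : Pq := (Pq.cons (Pq.L [0,2] 0 (Pf.C 3 65792))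
 (Pq.cons (Pq.L [0,3] 0 (Pf.C 3 65920))
 (Pq.cons (Pq.L [0,2] 0 (Pf.C 3 65792))
 (Pq.cons (Pq.L [0,3] 0 (Pf.C 3 65920))
 (Pq.cons (Pq.L [1,2] 0 (Pf.C 3 65793))
 (Pq.cons (Pq.L [1,3] 0 (Pf.C 3 65921))
 Pq.nil))))))
theorem hh_o15 : AllRef hh_T hh_G16 (ptObl 2 (PT.br 0 (PT.br 1 (PT.br 2 PT.ref (PT.br 3 PT.ref PT.kid)) (PT.br 2 PT.ref (PT.br 3 PT.ref PT.kid))) (PT.br 1 (PT.br 2 PT.ref (PT.br 3 PT.ref PT.kid)) (PT.br 2 (PT.br 3 PT.kid PT.kid) (PT.br 3 PT.kid PT.kid)))) []) :=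
  chkPq_sound hh_o15c _ (by decide +kernel)
noncomputable def hh_o16c : Pq := (Pq.cons (Pq.L [2] 1 (Pf.C 2 82180))
 (Pq.cons (Pq.L [0] 1 (Pf.C 2 81924))
 (Pq.cons (Pq.L [0] 2 (Pf.C 3 66304))
 (Pq.cons (Pq.L [0] 2 (Pf.C 3 66304))
 (Pq.cons (Pq.L [1] 2 (Pf.C 3 66305))
 (Pq.cons (Pq.L [2] 2 (Pf.C 3 66306))
 (Pq.cons (Pq.L [2] 2 (Pf.C 3 66306))
 (Pq.cons (Pq.L [3] 2 (Pf.C 3 66307))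
 (Pq.cons (Pq.L [0,1,2,3] 3 (Pf.B 6 5 (Pf.C 0 0x40c14182) (Pf.C 4 0xa18080)))
 (Pq.cons (Pq.L [0,1] 3 (Pf.B 6 5 (Pf.C 0 0x40c14080) (Pf.C 4 0xa18080)))
 (Pq.cons (Pq.L [2,3] 1 (Pf.C 4 0xa10182))
 (Pq.cons (Pq.L [2,3] 1 (Pf.C 4 0xa10182))
 (Pq.cons (Pq.L [2,3] 1 (Pf.C 4 0xa10182))
 (Pq.cons (Pq.L [0,1] 1 (Pf.C 4 0xa10080))
 (Pq.cons (Pq.L [0,1] 1 (Pf.C 4 0xa10080))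
 (Pq.cons (Pq.L [0,1] 1 (Pf.C 4 0xa10080))
 Pq.nil))))))))))))))))
theorem hh_o16 : AllRef hh_T hh_G17 (splitObl [21,30] [22,23,24,25,26,27,28,29]) :=
  chkPq_sound hh_o16c _ (by decide +kernel)
noncomputable def hh_o17c : Pq := (Pq.cons (Pq.D 0 (Pq.cons (Pq.D 1 (Pq.cons (Pq.L [0,1,2,3] 1 (Pf.C 7 0x1820200284))
 (Pq.cons (Pq.D 2 (Pq.cons (Pq.L [0,1,2,3] 2 (Pf.C 7 0x1820200304))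
 (Pq.cons (Pq.L [0,1] 11 (Pf.C 0 0x10800305))
 Pq.nil))) Pq.nil))) (Pq.cons (Pq.D 1 (Pq.cons (Pq.D 2 (Pq.cons (Pq.L [0,1,2,3] 8 (Pf.C 7 0x1820200305))
 (Pq.cons (Pq.L [0,1] 2 (Pf.C 4 0xc10080))
 Pq.nil))) (Pq.cons (Pq.L [0,1] 1 (Pf.C 4 0xa10080))
 Pq.nil))) Pq.nil))) (Pq.cons (Pq.L [] 0x1c703a (Pf.C 1 0xa1220304))
 Pq.nil))
theorem hh_o17 : AllRef hh_T hh_G17 (applyObl (pairTab (cPaw, cP1S113)) 2 [21,30] [0,0] []) :=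
  chkPq_sound hh_o17c _ (by decide +kernel)
noncomputable def hh_o18c : Pq := (Pq.cons (Pq.L [0,1,2,3] 7 (Pf.B 9 7 (Pf.B 9 5 (Pf.B 8 6 (Pf.C 2 99330) (Pf.B 8 7 (Pf.B 8 4 (Pf.C 2 66562) (Pf.B 8 5 (Pf.B 7 5 (Pf.C 1 0x91008287) (Pf.C 4 0xa1c080)) (Pf.C 0 0x30a08208))) (Pf.C 0 0x30e08308))) (Pf.C 4 0xa24080)) (Pf.C 4 0xe24080)))
 (Pq.cons (Pq.L [0,1,2,3] 7 (Pf.B 9 7 (Pf.B 9 5 (Pf.B 8 6 (Pf.C 2 99328) (Pf.B 8 7 (Pf.B 8 4 (Pf.C 2 66560) (Pf.B 8 5 (Pf.B 7 5 (Pf.C 1 0x91000287) (Pf.C 4 0xa1c182)) (Pf.C 0 0x10a00208))) (Pf.C 0 0x10e00308))) (Pf.C 4 0xa24182)) (Pf.C 4 0xe24182)))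
 (Pq.cons (Pq.L [0,1,2,3] 0 (Pf.B 7 6 (Pf.B 7 4 (Pf.B 6 4 (Pf.C 1 0x70200206) (Pf.C 4 0x818182)) (Pf.C 4 0x81c182)) (Pf.C 4 0xc1c182)))
 (Pq.cons (Pq.L [0,1,2,3] 0 (Pf.B 7 6 (Pf.B 7 4 (Pf.B 6 4 (Pf.C 1 0x70004206) (Pf.C 4 0x818182)) (Pf.C 4 0x81c182)) (Pf.C 4 0xc1c182)))
 (Pq.cons (Pq.L [1,2,3] 0 (Pf.B 7 6 (Pf.B 7 5 (Pf.B 7 4 (Pf.B 6 5 (Pf.B 6 4 (Pf.B 5 4 (Pf.C 1 0x60210385) (Pf.C 4 0x814182)) (Pf.C 4 0x818182)) (Pf.C 4 0xa18182)) (Pf.C 4 0x81c182)) (Pf.C 4 0xa1c182)) (Pf.C 4 0xc1c182)))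
 (Pq.cons (Pq.L [0,1,2,3] 0 (Pf.B 7 6 (Pf.B 7 4 (Pf.B 6 4 (Pf.C 1 0x70608206) (Pf.C 4 0x818080)) (Pf.C 4 0x81c080)) (Pf.C 4 0xc1c080)))
 (Pq.cons (Pq.L [0,1,2,3] 0 (Pf.B 7 6 (Pf.B 7 4 (Pf.B 6 4 (Pf.C 1 0x7040c206) (Pf.C 4 0x818080)) (Pf.C 4 0x81c080)) (Pf.C 4 0xc1c080)))
 (Pq.cons (Pq.L [0,1,3] 0 (Pf.B 7 6 (Pf.B 7 5 (Pf.B 7 4 (Pf.B 6 5 (Pf.B 6 4 (Pf.B 5 4 (Pf.C 1 0x60610385) (Pf.C 4 0x814080)) (Pf.C 4 0x818080)) (Pf.C 4 0xa18080)) (Pf.C 4 0x81c080)) (Pf.C 4 0xa1c080)) (Pf.C 4 0xc1c080)))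
 Pq.nil))))))))
theorem hh_o18 : AllRef hh_T hh_G17 (hitObl [22,23,24,25,26,27,28,29] hh_h23) :=
  chkPq_sound hh_o18c _ (by decide +kernel)
noncomputable def hh_o19c : Pq := (Pq.cons (Pq.L [0,1,2,3] 0 (Pf.B 9 6 (Pf.B 8 7 (Pf.C 3 0x20007) (Pf.B 8 5 (Pf.B 7 5 (Pf.C 3 81927) (Pf.B 9 8 (Pf.B 9 7 (Pf.B 9 5 (Pf.B 8 6 (Pf.B 7 6 (Pf.B 6 5 (Pf.C 1 0x80414486) (Pf.C 0 0x70c08185)) (Pf.C 0 0x80c08187)) (Pf.B 7 6 (Pf.C 0 0x20c1c403) (Pf.C 4 0x1018187))) (Pf.C 0 0x71208185)) (Pf.C 0 0x81208187)) (Pf.B 9 7 (Pf.C 0 0x2121c403) (Pf.C 4 0x1024187)))) (Pf.C 4 0xa20182))) (Pf.C 4 0xc24080)))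
 (Pq.cons (Pq.L [0,1,2,3] 0 (Pf.B 9 6 (Pf.B 8 7 (Pf.C 3 0x20007) (Pf.B 8 5 (Pf.B 7 5 (Pf.C 3 81927) (Pf.B 9 8 (Pf.B 9 7 (Pf.B 9 5 (Pf.B 8 6 (Pf.B 7 6 (Pf.B 6 5 (Pf.C 1 0x80614486) (Pf.C 0 0x70c0c105)) (Pf.C 0 0x80c0c107)) (Pf.B 7 6 (Pf.C 0 0x30c1c402) (Pf.C 4 0x1018107))) (Pf.C 0 0x7120c105)) (Pf.C 0 0x8120c107)) (Pf.B 9 7 (Pf.C 0 0x3121c402) (Pf.C 4 0x1024107)))) (Pf.C 4 0xa20182))) (Pf.C 4 0xc24080)))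
 (Pq.cons (Pq.L [0,1,2,3] 0 (Pf.B 9 6 (Pf.B 8 7 (Pf.C 3 0x20007) (Pf.B 8 5 (Pf.B 7 5 (Pf.C 3 81927) (Pf.B 9 8 (Pf.B 9 7 (Pf.B 9 5 (Pf.B 8 6 (Pf.B 7 6 (Pf.B 6 5 (Pf.C 1 0x80414486) (Pf.C 0 0x70c08185)) (Pf.C 0 0x80c08187)) (Pf.B 7 6 (Pf.C 0 0x20c1c403) (Pf.C 4 0x1018187))) (Pf.C 0 0x71208185)) (Pf.C 0 0x81208187)) (Pf.B 9 7 (Pf.C 0 0x2121c403) (Pf.C 4 0x1024187)))) (Pf.C 4 0xa20182))) (Pf.C 4 0xc24080)))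
 (Pq.cons (Pq.L [0,1,2,3] 0 (Pf.B 9 6 (Pf.B 8 7 (Pf.C 3 0x20007) (Pf.B 8 5 (Pf.B 7 5 (Pf.C 3 81927) (Pf.B 9 8 (Pf.B 9 7 (Pf.B 9 5 (Pf.B 8 6 (Pf.B 7 6 (Pf.B 6 5 (Pf.C 1 0x80614486) (Pf.C 0 0x70c0c105)) (Pf.C 0 0x80c0c107)) (Pf.B 7 6 (Pf.C 0 0x30c1c402) (Pf.C 4 0x1018107))) (Pf.C 0 0x7120c105)) (Pf.C 0 0x8120c107)) (Pf.B 9 7 (Pf.C 0 0x3121c402) (Pf.C 4 0x1024107)))) (Pf.C 4 0xa20182))) (Pf.C 4 0xc24080)))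
 (Pq.cons (Pq.L [0,1,2,3] 0 (Pf.B 9 6 (Pf.B 8 7 (Pf.C 3 0x20087) (Pf.B 8 5 (Pf.B 7 5 (Pf.C 3 82055) (Pf.B 9 8 (Pf.B 9 7 (Pf.B 9 5 (Pf.B 8 6 (Pf.B 7 6 (Pf.B 6 5 (Pf.C 1 0x80414486) (Pf.C 0 0x70c08185)) (Pf.C 0 0x80c08187)) (Pf.B 7 6 (Pf.C 0 0x20c1c403) (Pf.C 4 0x1018187))) (Pf.C 0 0x71208185)) (Pf.C 0 0x81208187)) (Pf.B 9 7 (Pf.C 0 0x2121c403) (Pf.C 4 0x1024187)))) (Pf.C 4 0xa20182))) (Pf.C 4 0xc24080)))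
 (Pq.cons (Pq.L [0,1,2,3] 0 (Pf.B 9 6 (Pf.B 8 7 (Pf.C 3 0x20087) (Pf.B 8 5 (Pf.B 7 5 (Pf.C 3 82055) (Pf.B 9 8 (Pf.B 9 7 (Pf.B 9 5 (Pf.B 8 6 (Pf.B 7 6 (Pf.B 6 5 (Pf.C 1 0x80614486) (Pf.C 0 0x70c0c105)) (Pf.C 0 0x80c0c107)) (Pf.B 7 6 (Pf.C 0 0x30c1c402) (Pf.C 4 0x1018107))) (Pf.C 0 0x7120c105)) (Pf.C 0 0x8120c107)) (Pf.B 9 7 (Pf.C 0 0x3121c402) (Pf.C 4 0x1024107)))) (Pf.C 4 0xa20182))) (Pf.C 4 0xc24080)))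
 (Pq.cons (Pq.L [0,1,2,3] 58 (Pf.B 9 6 (Pf.B 8 6 (Pf.B 7 6 (Pf.C 1 0x80e08486) (Pf.B 7 4 (Pf.C 2 66434) (Pf.C 0 0x20c10187))) (Pf.C 4 0xc20080)) (Pf.C 4 0xc24080)))
 (Pq.cons (Pq.L [0,1,2,3] 58 (Pf.B 9 6 (Pf.B 8 6 (Pf.B 7 6 (Pf.C 1 0x80e0c486) (Pf.B 7 4 (Pf.C 2 66434) (Pf.C 0 0x30c10107))) (Pf.C 4 0xc20080)) (Pf.C 4 0xc24080)))
 (Pq.cons (Pq.L [0,1,2,3] 58 (Pf.B 9 6 (Pf.B 8 6 (Pf.B 7 6 (Pf.C 1 0x80e00486) (Pf.B 7 4 (Pf.C 2 66432) (Pf.C 0 0xc10087))) (Pf.C 4 0xc20182)) (Pf.C 4 0xc24182)))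
 (Pq.cons (Pq.L [0,1,2,3] 0 (Pf.B 9 7 (Pf.C 3 0x24107) (Pf.B 9 6 (Pf.B 8 5 (Pf.B 7 6 (Pf.C 3 98567) (Pf.B 9 8 (Pf.B 8 7 (Pf.B 8 6 (Pf.B 9 5 (Pf.B 7 5 (Pf.B 6 5 (Pf.C 1 0x80414486) (Pf.C 0 0x70a00086)) (Pf.C 0 0x90a00087)) (Pf.B 7 5 (Pf.C 0 0xa1c481) (Pf.C 4 0x1214087))) (Pf.C 0 0x71000086)) (Pf.C 0 0x91000087)) (Pf.B 8 7 (Pf.C 0 0x101c481) (Pf.C 4 0x1220087)))) (Pf.C 4 0xa20182)) (Pf.C 4 0xc24080))))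
 (Pq.cons (Pq.L [0,1,2,3] 0 (Pf.B 9 7 (Pf.C 3 0x24107) (Pf.B 9 6 (Pf.B 8 5 (Pf.B 7 6 (Pf.C 3 98567) (Pf.B 9 8 (Pf.B 8 7 (Pf.B 8 6 (Pf.B 9 5 (Pf.B 7 5 (Pf.B 6 5 (Pf.C 1 0x80414486) (Pf.C 0 0x70a00086)) (Pf.C 0 0x90a00087)) (Pf.B 7 5 (Pf.C 0 0xa1c481) (Pf.C 4 0x1214087))) (Pf.C 0 0x71000086)) (Pf.C 0 0x91000087)) (Pf.B 8 7 (Pf.C 0 0x101c481) (Pf.C 4 0x1220087)))) (Pf.C 4 0xa20182)) (Pf.C 4 0xc24080))))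
 (Pq.cons (Pq.L [0,1,2,3] 0 (Pf.B 9 7 (Pf.C 3 0x24187) (Pf.B 9 6 (Pf.B 8 5 (Pf.B 7 6 (Pf.C 3 98695) (Pf.B 9 8 (Pf.B 8 7 (Pf.B 8 6 (Pf.B 9 5 (Pf.B 7 5 (Pf.B 6 5 (Pf.C 1 0x80614486) (Pf.C 0 0x70a00086)) (Pf.C 0 0x90a00087)) (Pf.B 7 5 (Pf.C 0 0xa1c481) (Pf.C 4 0x1214087))) (Pf.C 0 0x71000086)) (Pf.C 0 0x91000087)) (Pf.B 8 7 (Pf.C 0 0x101c481) (Pf.C 4 0x1220087)))) (Pf.C 4 0xa20182)) (Pf.C 4 0xc24080))))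
 (Pq.cons (Pq.L [0,1,2,3] 58 (Pf.B 9 6 (Pf.B 8 6 (Pf.B 7 6 (Pf.C 1 0x80e04486) (Pf.B 7 4 (Pf.C 2 66432) (Pf.C 0 0x10c10007))) (Pf.C 4 0xc20182)) (Pf.C 4 0xc24182)))
 (Pq.cons (Pq.L [0,1,2,3] 0 (Pf.B 9 7 (Pf.C 3 0x24107) (Pf.B 9 6 (Pf.B 8 5 (Pf.B 7 6 (Pf.C 3 98567) (Pf.B 9 8 (Pf.B 8 7 (Pf.B 8 6 (Pf.B 9 5 (Pf.B 7 5 (Pf.B 6 5 (Pf.C 1 0x80414486) (Pf.C 0 0x70a04006)) (Pf.C 0 0x90a04007)) (Pf.B 7 5 (Pf.C 0 0x10a1c480) (Pf.C 4 0x1214007))) (Pf.C 0 0x71004006)) (Pf.C 0 0x91004007)) (Pf.B 8 7 (Pf.C 0 0x1101c480) (Pf.C 4 0x1220007)))) (Pf.C 4 0xa20182)) (Pf.C 4 0xc24080))))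
 (Pq.cons (Pq.L [0,1,2,3] 0 (Pf.B 9 7 (Pf.C 3 0x24107) (Pf.B 9 6 (Pf.B 8 5 (Pf.B 7 6 (Pf.C 3 98567) (Pf.B 9 8 (Pf.B 8 7 (Pf.B 8 6 (Pf.B 9 5 (Pf.B 7 5 (Pf.B 6 5 (Pf.C 1 0x80414486) (Pf.C 0 0x70a04006)) (Pf.C 0 0x90a04007)) (Pf.B 7 5 (Pf.C 0 0x10a1c480) (Pf.C 4 0x1214007))) (Pf.C 0 0x71004006)) (Pf.C 0 0x91004007)) (Pf.B 8 7 (Pf.C 0 0x1101c480) (Pf.C 4 0x1220007)))) (Pf.C 4 0xa20182)) (Pf.C 4 0xc24080))))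
 (Pq.cons (Pq.L [0,1,2,3] 0 (Pf.B 9 7 (Pf.C 3 0x24187) (Pf.B 9 6 (Pf.B 8 5 (Pf.B 7 6 (Pf.C 3 98695) (Pf.B 9 8 (Pf.B 8 7 (Pf.B 8 6 (Pf.B 9 5 (Pf.B 7 5 (Pf.B 6 5 (Pf.C 1 0x80614486) (Pf.C 0 0x70a04006)) (Pf.C 0 0x90a04007)) (Pf.B 7 5 (Pf.C 0 0x10a1c480) (Pf.C 4 0x1214007))) (Pf.C 0 0x71004006)) (Pf.C 0 0x91004007)) (Pf.B 8 7 (Pf.C 0 0x1101c480) (Pf.C 4 0x1220007)))) (Pf.C 4 0xa20182)) (Pf.C 4 0xc24080))))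
 (Pq.cons (Pq.L [0,1,2,3] 39 (Pf.B 9 6 (Pf.B 8 5 (Pf.B 8 4 (Pf.B 8 6 (Pf.B 9 5 (Pf.C 1 0x80414309) (Pf.B 9 4 (Pf.C 1 0x80410309) (Pf.C 1 0x51210406))) (Pf.C 1 0xc20284)) (Pf.C 4 0x820182)) (Pf.C 4 0xa20182)) (Pf.C 4 0xc24080)))
 (Pq.cons (Pq.L [0,1,2,3] 39 (Pf.B 9 6 (Pf.B 8 5 (Pf.B 8 4 (Pf.B 8 6 (Pf.B 9 5 (Pf.C 1 0x80414309) (Pf.B 9 4 (Pf.C 1 0x80410309) (Pf.C 1 0x51210406))) (Pf.C 1 0xc20284)) (Pf.C 4 0x820182)) (Pf.C 4 0xa20182)) (Pf.C 4 0xc24080)))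
 (Pq.cons (Pq.L [0,1,2,3] 39 (Pf.B 9 6 (Pf.B 8 5 (Pf.B 8 4 (Pf.B 8 6 (Pf.B 9 5 (Pf.C 1 0x80614309) (Pf.B 9 4 (Pf.C 1 0x80610309) (Pf.C 1 0x51210406))) (Pf.C 1 0xc20284)) (Pf.C 4 0x820182)) (Pf.C 4 0xa20182)) (Pf.C 4 0xc24080)))
 (Pq.cons (Pq.L [0,1,2,3] 63 (Pf.B 9 6 (Pf.B 8 6 (Pf.B 8 5 (Pf.B 7 6 (Pf.B 7 5 (Pf.B 7 4 (Pf.C 1 0x60014207) (Pf.C 4 0x81c182)) (Pf.C 1 0x20e14406)) (Pf.C 1 0x20e18488)) (Pf.C 4 0xa20080)) (Pf.C 4 0xc20080)) (Pf.C 4 0xc24080)))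
 (Pq.cons (Pq.L [0,1,2,3] 63 (Pf.B 9 6 (Pf.B 8 6 (Pf.B 8 5 (Pf.B 7 6 (Pf.B 7 5 (Pf.B 7 4 (Pf.C 1 0x60014207) (Pf.C 4 0x81c182)) (Pf.C 1 0x20e14406)) (Pf.C 1 0x20e18488)) (Pf.C 4 0xa20080)) (Pf.C 4 0xc20080)) (Pf.C 4 0xc24080)))
 (Pq.cons (Pq.L [0,1,2,3] 63 (Pf.B 9 6 (Pf.B 8 6 (Pf.B 8 5 (Pf.B 7 6 (Pf.B 7 5 (Pf.B 7 4 (Pf.C 1 0x60014207) (Pf.C 4 0x81c182)) (Pf.C 1 0x30e14406)) (Pf.C 1 0x30e18488)) (Pf.C 4 0xa20080)) (Pf.C 4 0xc20080)) (Pf.C 4 0xc24080)))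
 (Pq.cons (Pq.L [0,1,2,3] 39 (Pf.B 9 6 (Pf.B 8 5 (Pf.B 8 4 (Pf.B 8 6 (Pf.B 9 5 (Pf.C 1 0x80414309) (Pf.B 9 4 (Pf.C 1 0x80410309) (Pf.C 1 0x51210406))) (Pf.C 1 0xc20284)) (Pf.C 4 0x820182)) (Pf.C 4 0xa20182)) (Pf.C 4 0xc24080)))
 (Pq.cons (Pq.L [0,1,2,3] 39 (Pf.B 9 6 (Pf.B 8 5 (Pf.B 8 4 (Pf.B 8 6 (Pf.B 9 5 (Pf.C 1 0x80414309) (Pf.B 9 4 (Pf.C 1 0x80410309) (Pf.C 1 0x51210406))) (Pf.C 1 0xc20284)) (Pf.C 4 0x820182)) (Pf.C 4 0xa20182)) (Pf.C 4 0xc24080)))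
 (Pq.cons (Pq.L [0,1,2,3] 39 (Pf.B 9 6 (Pf.B 8 5 (Pf.B 8 4 (Pf.B 8 6 (Pf.B 9 5 (Pf.C 1 0x80614309) (Pf.B 9 4 (Pf.C 1 0x80610309) (Pf.C 1 0x51210406))) (Pf.C 1 0xc20284)) (Pf.C 4 0x820182)) (Pf.C 4 0xa20182)) (Pf.C 4 0xc24080)))
 (Pq.cons (Pq.L [0,1,2,3] 63 (Pf.B 9 6 (Pf.B 8 6 (Pf.B 8 5 (Pf.B 7 6 (Pf.B 7 5 (Pf.B 7 4 (Pf.C 1 0x60014207) (Pf.C 4 0x81c182)) (Pf.C 1 0x20e14406)) (Pf.C 1 0x20e18488)) (Pf.C 4 0xa20080)) (Pf.C 4 0xc20080)) (Pf.C 4 0xc24080)))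
 (Pq.cons (Pq.L [0,1,2,3] 63 (Pf.B 9 6 (Pf.B 8 6 (Pf.B 8 5 (Pf.B 7 6 (Pf.B 7 5 (Pf.B 7 4 (Pf.C 1 0x60014207) (Pf.C 4 0x81c182)) (Pf.C 1 0x20e14406)) (Pf.C 1 0x20e18488)) (Pf.C 4 0xa20080)) (Pf.C 4 0xc20080)) (Pf.C 4 0xc24080)))
 (Pq.cons (Pq.L [0,1,2,3] 63 (Pf.B 9 6 (Pf.B 8 6 (Pf.B 8 5 (Pf.B 7 6 (Pf.B 7 5 (Pf.B 7 4 (Pf.C 1 0x60014207) (Pf.C 4 0x81c182)) (Pf.C 1 0x30e14406)) (Pf.C 1 0x30e18488)) (Pf.C 4 0xa20080)) (Pf.C 4 0xc20080)) (Pf.C 4 0xc24080)))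
 (Pq.cons (Pq.L [0,1,2,3] 39 (Pf.B 9 6 (Pf.B 8 5 (Pf.B 8 4 (Pf.B 8 6 (Pf.B 9 5 (Pf.C 1 0x80414309) (Pf.B 9 4 (Pf.C 1 0x80410309) (Pf.C 1 0x51210406))) (Pf.C 1 0x10c20284)) (Pf.C 4 0x820182)) (Pf.C 4 0xa20182)) (Pf.C 4 0xc24080)))
 (Pq.cons (Pq.L [0,1,2,3] 39 (Pf.B 9 6 (Pf.B 8 5 (Pf.B 8 4 (Pf.B 8 6 (Pf.B 9 5 (Pf.C 1 0x80414309) (Pf.B 9 4 (Pf.C 1 0x80410309) (Pf.C 1 0x51210406))) (Pf.C 1 0x10c20284)) (Pf.C 4 0x820182)) (Pf.C 4 0xa20182)) (Pf.C 4 0xc24080)))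
 (Pq.cons (Pq.L [0,1,2,3] 39 (Pf.B 9 6 (Pf.B 8 5 (Pf.B 8 4 (Pf.B 8 6 (Pf.B 9 5 (Pf.C 1 0x80614309) (Pf.B 9 4 (Pf.C 1 0x80610309) (Pf.C 1 0x51210406))) (Pf.C 1 0x10c20284)) (Pf.C 4 0x820182)) (Pf.C 4 0xa20182)) (Pf.C 4 0xc24080)))
 (Pq.cons (Pq.L [0,1,2,3] 63 (Pf.B 9 6 (Pf.B 8 6 (Pf.B 8 5 (Pf.B 7 6 (Pf.B 7 5 (Pf.B 7 4 (Pf.C 1 0x60214207) (Pf.C 4 0x81c182)) (Pf.C 1 0x20e14406)) (Pf.C 1 0x20e18488)) (Pf.C 4 0xa20080)) (Pf.C 4 0xc20080)) (Pf.C 4 0xc24080)))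
 (Pq.cons (Pq.L [0,1,2,3] 63 (Pf.B 9 6 (Pf.B 8 6 (Pf.B 8 5 (Pf.B 7 6 (Pf.B 7 5 (Pf.B 7 4 (Pf.C 1 0x60214207) (Pf.C 4 0x81c182)) (Pf.C 1 0x20e14406)) (Pf.C 1 0x20e18488)) (Pf.C 4 0xa20080)) (Pf.C 4 0xc20080)) (Pf.C 4 0xc24080)))
 (Pq.cons (Pq.L [0,1,2,3] 63 (Pf.B 9 6 (Pf.B 8 6 (Pf.B 8 5 (Pf.B 7 6 (Pf.B 7 5 (Pf.B 7 4 (Pf.C 1 0x60214207) (Pf.C 4 0x81c182)) (Pf.C 1 0x30e14406)) (Pf.C 1 0x30e18488)) (Pf.C 4 0xa20080)) (Pf.C 4 0xc20080)) (Pf.C 4 0xc24080)))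
 Pq.nil))))))))))))))))))))))))))))))))))
theorem hh_o19 : AllRef hh_T hh_G18 (hitObl [31,32,33,34,35,36,37,38] hh_h24) :=
  chkPq_sound hh_o19c _ (by decide +kernel)
noncomputable def hh_o20c : Pq := (Pq.cons (Pq.L [0] 1 (Pf.C 2 81924))
 (Pq.cons (Pq.L [0] 2 (Pf.C 3 66304))
 (Pq.cons (Pq.L [0] 2 (Pf.C 3 66304))
 (Pq.cons (Pq.L [1] 2 (Pf.C 3 66305))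
 (Pq.cons (Pq.L [] 1 (Pf.C 48 517))
 (Pq.cons (Pq.L [2,3] 3 (Pf.B 6 5 (Pf.C 2 82690) (Pf.C 0 0x20818185)))
 (Pq.cons (Pq.L [2,3] 3 (Pf.B 6 5 (Pf.C 2 82690) (Pf.C 0 0x30818105)))
 Pq.nil)))))))
theorem hh_o20 : AllRef hh_T hh_G19 (splitObl [39] [40,41,42,43,44,45,46]) :=
  chkPq_sound hh_o20c _ (by decide +kernel)
noncomputable def hh_o21c : Pq := (Pq.cons (Pq.L [2] 1 (Pf.C 2 82434))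
 Pq.nil)
theorem hh_o21 : AllRef hh_T hh_G19 (applyObl TD2 1 [39] [0] [(39,0x8000000000)]) :=
  chkPq_sound hh_o21c _ (by decide +kernel)
noncomputable def hh_o22c : Pq := (Pq.cons (Pq.L [] 1 (Pf.C 49 517))
 (Pq.cons (Pq.L [0,1] 3 (Pf.B 6 5 (Pf.C 2 82688) (Pf.C 0 0x818085)))
 (Pq.cons (Pq.L [0,1] 3 (Pf.B 6 5 (Pf.C 2 82688) (Pf.C 0 0x10818005)))
 (Pq.cons (Pq.L [2] 2 (Pf.C 3 66306))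
 (Pq.cons (Pq.L [2] 2 (Pf.C 3 66306))
 (Pq.cons (Pq.L [3] 2 (Pf.C 3 66307))
 Pq.nil))))))
theorem hh_o22 : AllRef hh_T hh_G19 (splitObl [40] [41,42,43,44,45,46]) :=
  chkPq_sound hh_o22c _ (by decide +kernel)
noncomputable def hh_o23c : Pq := (Pq.cons (Pq.L [0] 1 (Pf.C 2 82432))
 Pq.nil)
theorem hh_o23 : AllRef hh_T hh_G19 (applyObl TD2 1 [40] [0] [(40,0x10000000000)]) :=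
  chkPq_sound hh_o23c _ (by decide +kernel)
noncomputable def hh_o24c : Pq := (Pq.cons (Pq.D 0 (Pq.cons (Pq.D 1 (Pq.cons (Pq.L [2,3] 1 (Pf.C 4 0xa10182))
 (Pq.cons (Pq.L [] 0 (Pf.C 50 644))
 (Pq.cons (Pq.L [] 0 (Pf.C 51 644))
 (Pq.cons (Pq.D 2 (Pq.cons (Pq.L [2,3] 2 (Pf.C 4 0xc10182))
 (Pq.cons (Pq.L [] 0 (Pf.C 50 772))
 (Pq.cons (Pq.L [] 0 (Pf.C 51 772))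
 (Pq.cons (Pq.L [0,1] 3 (Pf.B 6 5 (Pf.C 59 82692) (Pf.C 4 0xa18080)))
 (Pq.cons (Pq.L [] 0 (Pf.C 53 773))
 (Pq.cons (Pq.L [] 0 (Pf.C 54 773))
 Pq.nil))))))) (Pq.cons (Pq.D 2 (Pq.cons (Pq.L [2,3] 2 (Pf.C 4 0xc10182))
 (Pq.cons (Pq.L [] 0 (Pf.C 50 772))
 (Pq.cons (Pq.L [] 0 (Pf.C 51 772))
 (Pq.cons (Pq.L [] 0 (Pf.C 53 646))
 (Pq.cons (Pq.L [0,1] 3 (Pf.B 6 5 (Pf.C 60 82692) (Pf.C 4 0xa18080)))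
 (Pq.cons (Pq.L [] 0 (Pf.C 55 773))
 Pq.nil))))))) (Pq.cons (Pq.D 2 (Pq.cons (Pq.L [2,3] 2 (Pf.C 4 0xc10182))
 (Pq.cons (Pq.L [] 0 (Pf.C 50 772))
 (Pq.cons (Pq.L [] 0 (Pf.C 51 772))
 (Pq.cons (Pq.L [] 0 (Pf.C 54 646))
 (Pq.cons (Pq.L [] 0 (Pf.C 55 646))
 (Pq.cons (Pq.L [0,1] 3 (Pf.B 6 5 (Pf.C 61 82692) (Pf.C 4 0xa18080)))
 Pq.nil))))))) Pq.nil))))))) (Pq.cons (Pq.D 1 (Pq.cons (Pq.L [] 0 (Pf.C 50 517))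
 (Pq.cons (Pq.L [2,3] 1 (Pf.C 4 0xa10182))
 (Pq.cons (Pq.L [] 0 (Pf.C 52 644))
 (Pq.cons (Pq.D 2 (Pq.cons (Pq.L [] 0 (Pf.C 50 518))
 (Pq.cons (Pq.L [2,3] 2 (Pf.C 4 0xc10182))
 (Pq.cons (Pq.L [] 0 (Pf.C 52 772))
 (Pq.cons (Pq.L [0,1] 3 (Pf.B 6 5 (Pf.C 65 82692) (Pf.C 4 0xa18080)))
 (Pq.cons (Pq.L [] 0 (Pf.C 53 773))
 (Pq.cons (Pq.L [] 0 (Pf.C 54 773))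
 Pq.nil))))))) (Pq.cons (Pq.D 2 (Pq.cons (Pq.L [] 0 (Pf.C 50 518))
 (Pq.cons (Pq.L [2,3] 2 (Pf.C 4 0xc10182))
 (Pq.cons (Pq.L [] 0 (Pf.C 52 772))
 (Pq.cons (Pq.L [] 0 (Pf.C 53 646))
 (Pq.cons (Pq.L [0,1] 3 (Pf.B 6 5 (Pf.C 66 82692) (Pf.C 4 0xa18080)))
 (Pq.cons (Pq.L [] 0 (Pf.C 55 773))
 Pq.nil))))))) (Pq.cons (Pq.D 2 (Pq.cons (Pq.L [] 0 (Pf.C 50 518))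
 (Pq.cons (Pq.L [2,3] 2 (Pf.C 4 0xc10182))
 (Pq.cons (Pq.L [] 0 (Pf.C 52 772))
 (Pq.cons (Pq.L [] 0 (Pf.C 54 646))
 (Pq.cons (Pq.L [] 0 (Pf.C 55 646))
 (Pq.cons (Pq.L [0,1] 3 (Pf.B 6 5 (Pf.C 67 82692) (Pf.C 4 0xa18080)))
 Pq.nil))))))) Pq.nil))))))) (Pq.cons (Pq.D 1 (Pq.cons (Pq.L [] 0 (Pf.C 51 517))
 (Pq.cons (Pq.L [] 0 (Pf.C 52 517))
 (Pq.cons (Pq.L [2,3] 1 (Pf.C 4 0xa10182))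
 (Pq.cons (Pq.D 2 (Pq.cons (Pq.L [] 0 (Pf.C 51 518))
 (Pq.cons (Pq.L [] 0 (Pf.C 52 518))
 (Pq.cons (Pq.L [2,3] 2 (Pf.C 4 0xc10182))
 (Pq.cons (Pq.L [0,1] 3 (Pf.B 6 5 (Pf.C 71 82692) (Pf.C 4 0xa18080)))
 (Pq.cons (Pq.L [] 0 (Pf.C 53 773))
 (Pq.cons (Pq.L [] 0 (Pf.C 54 773))
 Pq.nil))))))) (Pq.cons (Pq.D 2 (Pq.cons (Pq.L [] 0 (Pf.C 51 518))
 (Pq.cons (Pq.L [] 0 (Pf.C 52 518))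
 (Pq.cons (Pq.L [2,3] 2 (Pf.C 4 0xc10182))
 (Pq.cons (Pq.L [] 0 (Pf.C 53 646))
 (Pq.cons (Pq.L [0,1] 3 (Pf.B 6 5 (Pf.C 72 82692) (Pf.C 4 0xa18080)))
 (Pq.cons (Pq.L [] 0 (Pf.C 55 773))
 Pq.nil))))))) (Pq.cons (Pq.D 2 (Pq.cons (Pq.L [] 0 (Pf.C 51 518))
 (Pq.cons (Pq.L [] 0 (Pf.C 52 518))
 (Pq.cons (Pq.L [2,3] 2 (Pf.C 4 0xc10182))
 (Pq.cons (Pq.L [] 0 (Pf.C 54 646))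
 (Pq.cons (Pq.L [] 0 (Pf.C 55 646))
 (Pq.cons (Pq.L [0,1] 3 (Pf.B 6 5 (Pf.C 73 82692) (Pf.C 4 0xa18080)))
 Pq.nil))))))) Pq.nil))))))) (Pq.cons (Pq.D 1 (Pq.cons (Pq.D 2 (Pq.cons (Pq.L [2,3] 3 (Pf.B 6 5 (Pf.C 56 66182) (Pf.C 4 0xa18182)))
 (Pq.cons (Pq.L [] 0 (Pf.C 50 773))
 (Pq.cons (Pq.L [] 0 (Pf.C 51 773))
 (Pq.cons (Pq.L [0,1] 2 (Pf.C 4 0xc10080))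
 (Pq.cons (Pq.L [] 0 (Pf.C 53 772))
 (Pq.cons (Pq.L [] 0 (Pf.C 54 772))
 Pq.nil))))))) (Pq.cons (Pq.D 2 (Pq.cons (Pq.L [] 0 (Pf.C 50 646))
 (Pq.cons (Pq.L [2,3] 3 (Pf.B 6 5 (Pf.C 62 66182) (Pf.C 4 0xa18182)))
 (Pq.cons (Pq.L [] 0 (Pf.C 52 773))
 (Pq.cons (Pq.L [0,1] 2 (Pf.C 4 0xc10080))
 (Pq.cons (Pq.L [] 0 (Pf.C 53 772))
 (Pq.cons (Pq.L [] 0 (Pf.C 54 772))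
 Pq.nil))))))) (Pq.cons (Pq.D 2 (Pq.cons (Pq.L [] 0 (Pf.C 51 646))
 (Pq.cons (Pq.L [] 0 (Pf.C 52 646))
 (Pq.cons (Pq.L [2,3] 3 (Pf.B 6 5 (Pf.C 68 66182) (Pf.C 4 0xa18182)))
 (Pq.cons (Pq.L [0,1] 2 (Pf.C 4 0xc10080))
 (Pq.cons (Pq.L [] 0 (Pf.C 53 772))
 (Pq.cons (Pq.L [] 0 (Pf.C 54 772))
 Pq.nil))))))) (Pq.cons (Pq.L [0,1] 1 (Pf.C 4 0xa10080))
 (Pq.cons (Pq.L [] 0 (Pf.C 53 644))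
 (Pq.cons (Pq.L [] 0 (Pf.C 54 644))
 Pq.nil))))))) (Pq.cons (Pq.D 1 (Pq.cons (Pq.D 2 (Pq.cons (Pq.L [2,3] 3 (Pf.B 6 5 (Pf.C 57 66182) (Pf.C 4 0xa18182)))
 (Pq.cons (Pq.L [] 0 (Pf.C 50 773))
 (Pq.cons (Pq.L [] 0 (Pf.C 51 773))
 (Pq.cons (Pq.L [] 0 (Pf.C 53 518))
 (Pq.cons (Pq.L [0,1] 2 (Pf.C 4 0xc10080))
 (Pq.cons (Pq.L [] 0 (Pf.C 55 772))
 Pq.nil))))))) (Pq.cons (Pq.D 2 (Pq.cons (Pq.L [] 0 (Pf.C 50 646))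
 (Pq.cons (Pq.L [2,3] 3 (Pf.B 6 5 (Pf.C 63 66182) (Pf.C 4 0xa18182)))
 (Pq.cons (Pq.L [] 0 (Pf.C 52 773))
 (Pq.cons (Pq.L [] 0 (Pf.C 53 518))
 (Pq.cons (Pq.L [0,1] 2 (Pf.C 4 0xc10080))
 (Pq.cons (Pq.L [] 0 (Pf.C 55 772))
 Pq.nil))))))) (Pq.cons (Pq.D 2 (Pq.cons (Pq.L [] 0 (Pf.C 51 646))
 (Pq.cons (Pq.L [] 0 (Pf.C 52 646))
 (Pq.cons (Pq.L [2,3] 3 (Pf.B 6 5 (Pf.C 69 66182) (Pf.C 4 0xa18182)))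
 (Pq.cons (Pq.L [] 0 (Pf.C 53 518))
 (Pq.cons (Pq.L [0,1] 2 (Pf.C 4 0xc10080))
 (Pq.cons (Pq.L [] 0 (Pf.C 55 772))
 Pq.nil))))))) (Pq.cons (Pq.L [] 0 (Pf.C 53 517))
 (Pq.cons (Pq.L [0,1] 1 (Pf.C 4 0xa10080))
 (Pq.cons (Pq.L [] 0 (Pf.C 55 644))
 Pq.nil))))))) (Pq.cons (Pq.D 1 (Pq.cons (Pq.D 2 (Pq.cons (Pq.L [2,3] 3 (Pf.B 6 5 (Pf.C 58 66182) (Pf.C 4 0xa18182)))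
 (Pq.cons (Pq.L [] 0 (Pf.C 50 773))
 (Pq.cons (Pq.L [] 0 (Pf.C 51 773))
 (Pq.cons (Pq.L [] 0 (Pf.C 54 518))
 (Pq.cons (Pq.L [] 0 (Pf.C 55 518))
 (Pq.cons (Pq.L [0,1] 2 (Pf.C 4 0xc10080))
 Pq.nil))))))) (Pq.cons (Pq.D 2 (Pq.cons (Pq.L [] 0 (Pf.C 50 646))
 (Pq.cons (Pq.L [2,3] 3 (Pf.B 6 5 (Pf.C 64 66182) (Pf.C 4 0xa18182)))
 (Pq.cons (Pq.L [] 0 (Pf.C 52 773))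
 (Pq.cons (Pq.L [] 0 (Pf.C 54 518))
 (Pq.cons (Pq.L [] 0 (Pf.C 55 518))
 (Pq.cons (Pq.L [0,1] 2 (Pf.C 4 0xc10080))
 Pq.nil))))))) (Pq.cons (Pq.D 2 (Pq.cons (Pq.L [] 0 (Pf.C 51 646))
 (Pq.cons (Pq.L [] 0 (Pf.C 52 646))
 (Pq.cons (Pq.L [2,3] 3 (Pf.B 6 5 (Pf.C 70 66182) (Pf.C 4 0xa18182)))
 (Pq.cons (Pq.L [] 0 (Pf.C 54 518))
 (Pq.cons (Pq.L [] 0 (Pf.C 55 518))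
 (Pq.cons (Pq.L [0,1] 2 (Pf.C 4 0xc10080))
 Pq.nil))))))) (Pq.cons (Pq.L [] 0 (Pf.C 54 517))
 (Pq.cons (Pq.L [] 0 (Pf.C 55 517))
 (Pq.cons (Pq.L [0,1] 1 (Pf.C 4 0xa10080))
 Pq.nil))))))) Pq.nil))))))) Pq.nil)
theorem hh_o24 : AllRef hh_T hh_G19 (applyObl TD2 1 [41,42,43,44,45,46] [0,0,0,0,0,0] [(41,0x7c0000000000),(42,0x7a0000000000),(43,0x760000000000),(44,0x6e0000000000),(45,0x5e0000000000),(46,0x3e0000000000)]) :=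
  chkPq_sound hh_o24c _ (by decide +kernel)
noncomputable def hh_o25c : Pq := Pq.nil
theorem hh_o25 : AllRef hh_T hh_G1 (ptObl 1 PT.kid []) :=
  chkPq_sound hh_o25c _ (by decide +kernel)
noncomputable def hh_o26c : Pq := (Pq.cons (Pq.L [4,5] 0 (Pf.C 2 66309))
 (Pq.cons (Pq.L [4,5] 0 (Pf.C 2 82692))
 (Pq.cons (Pq.L [2,3] 0 (Pf.C 2 33539))
 (Pq.cons (Pq.L [2,3] 0 (Pf.C 2 49922))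
 (Pq.cons (Pq.L [2,5] 0 (Pf.C 2 82182))
 (Pq.cons (Pq.L [2,4] 0 (Pf.C 2 65798))
 (Pq.cons (Pq.L [0,1] 0 (Pf.C 2 769))
 (Pq.cons (Pq.L [0,1] 0 (Pf.C 2 17152))
 (Pq.cons (Pq.L [0,5] 0 (Pf.C 2 81926))
 (Pq.cons (Pq.L [0,4] 0 (Pf.C 2 65542))
 (Pq.cons (Pq.L [0,3] 0 (Pf.C 2 49158))
 (Pq.cons (Pq.L [0,2] 0 (Pf.C 2 32774))
 Pq.nil))))))))))))
theorem hh_o26 : AllRef hh_T hh_G20 (ptObl 47 (PT.br 0 (PT.br 1 (PT.br 2 (PT.br 3 (PT.br 4 (PT.br 5 PT.kid PT.ref) (PT.br 5 PT.ref PT.kid)) PT.ref) (PT.br 3 PT.ref (PT.br 4 (PT.br 5 PT.kid PT.ref) PT.ref))) PT.ref) (PT.br 1 PT.ref (PT.br 2 (PT.br 3 (PT.br 4 (PT.br 5 PT.kid PT.ref) PT.ref) PT.ref) PT.ref))) []) :=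
  chkPq_sound hh_o26c _ (by decide +kernel)
noncomputable def hh_o27c : Pq := (Pq.cons (Pq.L [0,2] 0 (Pf.C 3 98560))
 (Pq.cons (Pq.L [0,3] 0 (Pf.C 3 98688))
 (Pq.cons (Pq.L [0,4] 0 (Pf.C 3 98816))
 (Pq.cons (Pq.L [0,5] 0 (Pf.C 3 98944))
 (Pq.cons (Pq.L [0,2] 0 (Pf.C 3 98560))
 (Pq.cons (Pq.L [0,3] 0 (Pf.C 3 98688))
 (Pq.cons (Pq.L [0,4] 0 (Pf.C 3 98816))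
 (Pq.cons (Pq.L [0,5] 0 (Pf.C 3 98944))
 (Pq.cons (Pq.L [1,2] 0 (Pf.C 3 98561))
 (Pq.cons (Pq.L [1,3] 0 (Pf.C 3 98689))
 (Pq.cons (Pq.L [1,4] 0 (Pf.C 3 98817))
 (Pq.cons (Pq.L [1,5] 0 (Pf.C 3 98945))
 (Pq.cons (Pq.L [2,4] 0 (Pf.C 3 98818))
 (Pq.cons (Pq.L [2,5] 0 (Pf.C 3 98946))
 (Pq.cons (Pq.L [2,4] 0 (Pf.C 3 98818))
 (Pq.cons (Pq.L [2,5] 0 (Pf.C 3 98946))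
 (Pq.cons (Pq.L [3,4] 0 (Pf.C 3 98819))
 (Pq.cons (Pq.L [3,5] 0 (Pf.C 3 98947))
 Pq.nil))))))))))))))))))
theorem hh_o27 : AllRef hh_T hh_G21 (ptObl 2 (PT.br 0 (PT.br 1 (PT.br 2 PT.ref (PT.br 3 PT.ref (PT.br 4 PT.ref (PT.br 5 PT.ref PT.kid)))) (PT.br 2 PT.ref (PT.br 3 PT.ref (PT.br 4 PT.ref (PT.br 5 PT.ref PT.kid))))) (PT.br 1 (PT.br 2 PT.ref (PT.br 3 PT.ref (PT.br 4 PT.ref (PT.br 5 PT.ref PT.kid)))) (PT.br 2 (PT.br 3 (PT.br 4 PT.ref (PT.br 5 PT.ref PT.kid)) (PT.br 4 PT.ref (PT.br 5 PT.ref PT.kid))) (PT.br 3 (PT.br 4 PT.ref (PT.br 5 PT.ref PT.kid)) (PT.br 4 (PT.br 5 PT.kid PT.kid) (PT.br 5 PT.kid PT.kid)))))) []) :=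
  chkPq_sound hh_o27c _ (by decide +kernel)
noncomputable def hh_o28c : Pq := (Pq.cons (Pq.L [4] 1 (Pf.C 2 0x1c206))
 (Pq.cons (Pq.L [4] 2 (Pf.C 3 99332))
 (Pq.cons (Pq.L [2] 1 (Pf.C 2 0x1c106))
 (Pq.cons (Pq.L [2] 2 (Pf.C 3 99330))
 (Pq.cons (Pq.L [0] 1 (Pf.C 2 0x1c006))
 (Pq.cons (Pq.L [0] 2 (Pf.C 3 99328))
 (Pq.cons (Pq.L [0] 2 (Pf.C 3 99328))
 (Pq.cons (Pq.L [1] 2 (Pf.C 3 99329))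
 (Pq.cons (Pq.L [2] 2 (Pf.C 3 99330))
 (Pq.cons (Pq.L [3] 2 (Pf.C 3 99331))
 (Pq.cons (Pq.L [4] 2 (Pf.C 3 99332))
 (Pq.cons (Pq.L [5] 2 (Pf.C 3 99333))
 (Pq.cons (Pq.L [0,1,4,5] 3 (Pf.B 8 7 (Pf.C 0 0x6101c284) (Pf.C 4 0xe20080)))
 (Pq.cons (Pq.L [0,1] 1 (Pf.C 4 0xe18080))
 (Pq.cons (Pq.L [0,1,2,3] 3 (Pf.B 8 7 (Pf.C 0 0x6101c182) (Pf.C 4 0xe20080)))
 (Pq.cons (Pq.L [0,1] 1 (Pf.C 4 0xe18080))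
 (Pq.cons (Pq.L [0,1] 3 (Pf.B 8 7 (Pf.C 0 0x6101c080) (Pf.C 4 0xe20080)))
 (Pq.cons (Pq.L [2,3] 1 (Pf.C 4 0xe18182))
 (Pq.cons (Pq.L [2,3] 1 (Pf.C 4 0xe18182))
 (Pq.cons (Pq.L [2,3] 1 (Pf.C 4 0xe18182))
 (Pq.cons (Pq.L [0,1] 1 (Pf.C 4 0xe18080))
 (Pq.cons (Pq.L [0,1] 1 (Pf.C 4 0xe18080))
 (Pq.cons (Pq.L [0,1] 1 (Pf.C 4 0xe18080))
 (Pq.cons (Pq.L [0,1] 1 (Pf.C 4 0xe18080))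
 Pq.nil))))))))))))))))))))))))
theorem hh_o28 : AllRef hh_T hh_G22 (splitObl [48,61] [49,58,50,55,51,52,53,54,56,57,59,60]) :=
  chkPq_sound hh_o28c _ (by decide +kernel)
noncomputable def hh_o29c : Pq := (Pq.cons (Pq.L [0,1] 2 (Pf.C 4 0x1018080))
 Pq.nil)
theorem hh_o29 : AllRef hh_T hh_G23 (twinObl [62,63,61] 0 [7,7,3]) :=
  chkPq_sound hh_o29c _ (by decide +kernel)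
noncomputable def hh_o30c : Pq := (Pq.cons (Pq.L [0,1] 1 (Pf.C 4 0xe18080))
 (Pq.cons (Pq.L [0,1] 1 (Pf.C 4 0xe18080))
 Pq.nil))
theorem hh_o30 : AllRef hh_T hh_G24 (blockObl [64,65,66] [4,0,1] [7,7,3] [7,7,3]) :=
  chkPq_sound hh_o30c _ (by decide +kernel)
noncomputable def hh_o31c : Pq := Pq.nil
theorem hh_o31 : AllRef hh_T hh_G28 (extObl 76 [] []) :=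
  chkPq_sound hh_o31c _ (by decide +kernel)
noncomputable def hh_o32c : Pq := Pq.nil
theorem hh_o32 : AllRef hh_T hh_G29 (extObl 78 [] []) :=
  chkPq_sound hh_o32c _ (by decide +kernel)
noncomputable def hh_o33c : Pq := Pq.nil
theorem hh_o33 : AllRef hh_T hh_G31 (extObl 80 [] []) :=
  chkPq_sound hh_o33c _ (by decide +kernel)
noncomputable def hh_o34c : Pq := (Pq.cons (Pq.D 0 (Pq.cons (Pq.D 1 (Pq.cons (Pq.D 2 (Pq.cons (Pq.D 3 (Pq.cons (Pq.L [] 7 (Pf.C 82 0x1220386))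
 (Pq.cons (Pq.L [] 7 (Pf.C 82 0x1220386))
 (Pq.cons (Pq.L [] 7 (Pf.C 81 0x1220386))
 Pq.nil)))) (Pq.cons (Pq.D 3 (Pq.cons (Pq.L [] 7 (Pf.C 82 0x1220386))
 (Pq.cons (Pq.L [] 7 (Pf.C 82 0x1220386))
 (Pq.cons (Pq.L [] 7 (Pf.C 81 0x1220386))
 Pq.nil)))) (Pq.cons (Pq.D 3 (Pq.cons (Pq.L [] 7 (Pf.C 81 0x1024386))
 (Pq.cons (Pq.L [] 7 (Pf.C 81 0x1024386))
 (Pq.cons (Pq.L [] 7 (Pf.C 80 0x1220386))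
 Pq.nil)))) Pq.nil)))) (Pq.cons (Pq.D 2 (Pq.cons (Pq.D 3 (Pq.cons (Pq.L [] 7 (Pf.C 82 0x1220386))
 (Pq.cons (Pq.L [] 7 (Pf.C 82 0x1220386))
 (Pq.cons (Pq.L [] 7 (Pf.C 81 0x1220386))
 Pq.nil)))) (Pq.cons (Pq.D 3 (Pq.cons (Pq.L [] 7 (Pf.C 82 0x1220386))
 (Pq.cons (Pq.L [] 7 (Pf.C 82 0x1220386))
 (Pq.cons (Pq.L [] 7 (Pf.C 81 0x1220386))
 Pq.nil)))) (Pq.cons (Pq.D 3 (Pq.cons (Pq.L [] 7 (Pf.C 81 0x1024386))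
 (Pq.cons (Pq.L [] 7 (Pf.C 81 0x1024386))
 (Pq.cons (Pq.L [] 7 (Pf.C 80 0x1220386))
 Pq.nil)))) Pq.nil)))) (Pq.cons (Pq.D 2 (Pq.cons (Pq.D 3 (Pq.cons (Pq.L [] 7 (Pf.C 81 0xe24406))
 (Pq.cons (Pq.L [] 7 (Pf.C 81 0xe24406))
 (Pq.cons (Pq.L [] 7 (Pf.C 80 0x121c406))
 Pq.nil)))) (Pq.cons (Pq.D 3 (Pq.cons (Pq.L [] 7 (Pf.C 81 0xe24406))
 (Pq.cons (Pq.L [] 7 (Pf.C 81 0xe24406))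
 (Pq.cons (Pq.L [] 7 (Pf.C 80 0x121c406))
 Pq.nil)))) (Pq.cons (Pq.D 3 (Pq.cons (Pq.L [] 7 (Pf.C 80 0x101c486))
 (Pq.cons (Pq.L [] 7 (Pf.C 80 0x101c486))
 (Pq.cons (Pq.L [] 7 (Pf.C 79 0x1220386))
 Pq.nil)))) Pq.nil)))) Pq.nil)))) (Pq.cons (Pq.D 1 (Pq.cons (Pq.D 2 (Pq.cons (Pq.D 3 (Pq.cons (Pq.L [] 7 (Pf.C 84 0x1220386))
 (Pq.cons (Pq.L [] 7 (Pf.C 84 0x1220386))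
 (Pq.cons (Pq.L [] 7 (Pf.C 84 0x1220386))
 Pq.nil)))) (Pq.cons (Pq.D 3 (Pq.cons (Pq.L [] 7 (Pf.C 84 0x1220386))
 (Pq.cons (Pq.L [] 7 (Pf.C 84 0x1220386))
 (Pq.cons (Pq.L [] 7 (Pf.C 84 0x1220386))
 Pq.nil)))) (Pq.cons (Pq.D 3 (Pq.cons (Pq.L [] 7 (Pf.C 84 0x1220386))
 (Pq.cons (Pq.L [] 7 (Pf.C 84 0x1220386))
 (Pq.cons (Pq.L [] 6 (Pf.C 75 0x24406))
 Pq.nil)))) Pq.nil)))) (Pq.cons (Pq.D 2 (Pq.cons (Pq.D 3 (Pq.cons (Pq.L [] 7 (Pf.C 84 0x1220386))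
 (Pq.cons (Pq.L [] 7 (Pf.C 84 0x1220386))
 (Pq.cons (Pq.L [] 7 (Pf.C 84 0x1220386))
 Pq.nil)))) (Pq.cons (Pq.D 3 (Pq.cons (Pq.L [] 7 (Pf.C 84 0x1220386))
 (Pq.cons (Pq.L [] 7 (Pf.C 84 0x1220386))
 (Pq.cons (Pq.L [] 7 (Pf.C 84 0x1220386))
 Pq.nil)))) (Pq.cons (Pq.D 3 (Pq.cons (Pq.L [] 7 (Pf.C 84 0x1220386))
 (Pq.cons (Pq.L [] 7 (Pf.C 84 0x1220386))
 (Pq.cons (Pq.L [] 6 (Pf.C 75 0x24406))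
 Pq.nil)))) Pq.nil)))) (Pq.cons (Pq.D 2 (Pq.cons (Pq.D 3 (Pq.cons (Pq.L [] 7 (Pf.C 84 0x1220386))
 (Pq.cons (Pq.L [] 7 (Pf.C 84 0x1220386))
 (Pq.cons (Pq.L [] 5 (Pf.C 75 0x24386))
 Pq.nil)))) (Pq.cons (Pq.D 3 (Pq.cons (Pq.L [] 7 (Pf.C 84 0x1220386))
 (Pq.cons (Pq.L [] 7 (Pf.C 84 0x1220386))
 (Pq.cons (Pq.L [] 5 (Pf.C 75 0x24386))
 Pq.nil)))) (Pq.cons (Pq.L [] 3 (Pf.C 75 0x20386))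
 Pq.nil)))) Pq.nil)))) (Pq.cons (Pq.D 1 (Pq.cons (Pq.D 2 (Pq.cons (Pq.D 3 (Pq.cons (Pq.L [] 7 (Pf.C 86 0x1220386))
 (Pq.cons (Pq.L [] 7 (Pf.C 87 0x101c486))
 (Pq.cons (Pq.L [0,1] 4 (Pf.C 4 0x1218080))
 Pq.nil)))) (Pq.cons (Pq.D 3 (Pq.cons (Pq.L [] 7 (Pf.C 87 0x121c406))
 (Pq.cons (Pq.L [] 7 (Pf.C 88 0xe24406))
 (Pq.cons (Pq.L [0,1] 4 (Pf.C 4 0x1218080))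
 Pq.nil)))) (Pq.cons (Pq.L [0,1] 2 (Pf.C 4 0x1018080))
 Pq.nil)))) (Pq.cons (Pq.D 2 (Pq.cons (Pq.D 3 (Pq.cons (Pq.L [] 7 (Pf.C 87 0x1220386))
 (Pq.cons (Pq.L [] 7 (Pf.C 88 0x1024386))
 (Pq.cons (Pq.L [0,1] 4 (Pf.C 4 0x1218080))
 Pq.nil)))) (Pq.cons (Pq.D 3 (Pq.cons (Pq.L [] 7 (Pf.C 88 0x1220386))
 (Pq.cons (Pq.L [] 7 (Pf.C 89 0x1220386))
 (Pq.cons (Pq.L [0,1] 4 (Pf.C 4 0x1218080))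
 Pq.nil)))) (Pq.cons (Pq.L [0,1] 2 (Pf.C 4 0x1018080))
 Pq.nil)))) (Pq.cons (Pq.L [0,1] 1 (Pf.C 4 0xe18080))
 Pq.nil)))) Pq.nil)))) Pq.nil)
theorem hh_o34 : AllRef hh_T hh_G33 (applyObl TD2 1 [77,79,81] [0,0,0] [(77,0x200000000000000000000),(81,0x20000000000000000000)]) :=
  chkPq_sound hh_o34c _ (by decide +kernel)
noncomputable def hh_o35c : Pq := Pq.nil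
theorem hh_o35 : AllRef hh_T hh_G34 (ptObl 77 (PT.br 6 PT.kid PT.kid) []) :=
  chkPq_sound hh_o35c _ (by decide +kernel)
noncomputable def hh_o36c : Pq := Pq.nil
theorem hh_o36 : AllRef hh_T hh_G35 (ptObl 79 (PT.br 6 PT.kid PT.kid) []) :=
  chkPq_sound hh_o36c _ (by decide +kernel)
noncomputable def hh_o37c : Pq := Pq.nil
theorem hh_o37 : AllRef hh_T hh_G36 (ptObl 80 PT.kid []) :=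
  chkPq_sound hh_o37c _ (by decide +kernel)
noncomputable def hh_o38c : Pq := (Pq.cons (Pq.L [0,1,6] 0 (Pf.C 4 0xc1c080))
 Pq.nil)
theorem hh_o38 : AllRef hh_T hh_G37 (ptObl 89 (PT.br 6 PT.kid PT.ref) []) :=
  chkPq_sound hh_o38c _ (by decide +kernel)
noncomputable def hh_o39c : Pq := (Pq.cons (Pq.L [0,1,6] 0 (Pf.C 4 0xc1c080))
 Pq.nil)
theorem hh_o39 : AllRef hh_T hh_G38 (ptObl 81 (PT.br 6 PT.kid PT.ref) []) :=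
  chkPq_sound hh_o39c _ (by decide +kernel)
noncomputable def hh_o40c : Pq := (Pq.cons (Pq.L [6] 0 (Pf.W 85 6 [] [7] (Pf.cons (Pf.B 8 7 (Pf.T 8 12 (Pf.cons (Pf.T 8 15 (Pf.cons (Pf.W 85 6 [8] [7] (Pf.cons (Pf.B 9 8 (Pf.C 3 99337) (Pf.C 80 0xe18488)) (Pf.cons (Pf.B 9 8 (Pf.B 9 7 (Pf.C 3 0x1c409) (Pf.C 75 99209)) (Pf.C 80 0xe18488)) Pf.nil))) Pf.nil)) Pf.nil)) (Pf.T 8 12 (Pf.cons (Pf.T 8 15 (Pf.cons (Pf.W 85 6 [8] [7] (Pf.cons (Pf.B 9 8 (Pf.C 3 99337) (Pf.B 9 7 (Pf.T 9 12 (Pf.cons (Pf.C 80 0xe18409) Pf.nil)) (Pf.T 9 12 (Pf.cons (Pf.T 9 15 (Pf.cons (Pf.W 85 6 [8,9] [7] (Pf.cons (Pf.B 10 9 (Pf.C 3 99466) (Pf.C 81 0xc20509)) (Pf.cons (Pf.B 10 9 (Pf.B 10 8 (Pf.B 10 7 (Pf.T 10 13 (Pf.cons (Pf.T 10 16 (Pf.cons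 (Pf.W 85 7 [] [6,8,9,10] (Pf.cons (Pf.B 11 10 (Pf.C 3 0x1c50b) (Pf.B 11 8 (Pf.B 11 6 (Pf.C 3 99339) (Pf.T 11 12 (Pf.cons (Pf.T 11 15 (Pf.cons (Pf.W 85 7 [11] [6,8,9,10] (Pf.cons (Pf.B 12 11 (Pf.C 3 0x1c58c) (Pf.C 81 0xe2860b)) (Pf.cons (Pf.B 12 9 (Pf.B 12 8 (Pf.B 12 6 (Pf.C 3 99340) (Pf.C 75 0x1c30c)) (Pf.C 2 0x24608)) (Pf.C 81 0xc20609)) Pf.nil))) Pf.nil)) Pf.nil))) (Pf.C 2 0x2840b))) (Pf.cons (Pf.B 11 9 (Pf.B 11 8 (Pf.B 11 6 (Pf.C 3 99339) (Pf.C 75 0x1c30b)) (Pf.C 2 0x24588)) (Pf.C 81 0xc20589)) Pf.nil))) Pf.nil)) Pf.nil)) (Pf.C 75 99210)) (Pf.C 2 0x24508)) (Pf.C 81 0xc20509)) Pf.nil))) Pf.nil)) Pf.nil)))) (Pf.cons (Pf.B 9 7 (Pf.B 9 8 (Pf.T 9 13 (Pf.cons (Pf.T 9 16 (Pf.cons (Pf.W 85 6 [8,9] [7]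 (Pf.cons (Pf.B 10 8 (Pf.C 3 99338) (Pf.B 10 9 (Pf.B 10 7 (Pf.C 3 0x1c48a) (Pf.T 10 12 (Pf.cons (Pf.T 10 15 (Pf.cons (Pf.W 85 7 [] [6,8,9,10] (Pf.cons (Pf.B 11 9 (Pf.C 3 0x1c48b) (Pf.B 11 8 (Pf.B 11 6 (Pf.C 3 99339) (Pf.T 11 12 (Pf.cons (Pf.T 11 15 (Pf.cons (Pf.W 85 7 [11] [6,8,9,10] (Pf.cons (Pf.B 12 11 (Pf.C 3 0x1c58c) (Pf.C 81 0xe2460b)) (Pf.cons (Pf.B 12 10 (Pf.B 12 8 (Pf.B 12 6 (Pf.C 3 99340) (Pf.C 75 0x1c30c)) (Pf.C 2 0x28608)) (Pf.C 81 0xc2060a)) Pf.nil))) Pf.nil)) Pf.nil))) (Pf.C 2 0x2440b))) (Pf.cons (Pf.B 11 10 (Pf.B 11 8 (Pf.B 11 6 (Pf.C 3 99339) (Pf.C 75 0x1c30b)) (Pf.C 2 0x28588)) (Pf.C 81 0xc2058a)) Pf.nil))) Pf.nil)) Pf.nil))) (Pf.C 2 0x2048a))) (Pf.cons (Pf.B 10 7 (Pf.B 10 9 (Pf.C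 3 0x1c48a) (Pf.T 10 13 (Pf.cons (Pf.T 10 16 (Pf.cons (Pf.W 85 7 [] [6,8,9,10] (Pf.cons (Pf.B 11 10 (Pf.C 3 0x1c50b) (Pf.C 84 0x121858a)) (Pf.cons (Pf.B 11 6 (Pf.B 11 8 (Pf.C 3 99339) (Pf.T 11 13 (Pf.cons (Pf.T 11 16 (Pf.cons (Pf.W 85 7 [11] [6,8,9,10] (Pf.cons (Pf.B 12 10 (Pf.C 3 0x1c50c) (Pf.C 84 0x121860a)) (Pf.cons (Pf.B 12 11 (Pf.B 12 8 (Pf.B 12 6 (Pf.C 3 99340) (Pf.C 75 0x1c30c)) (Pf.C 2 0x2c608)) (Pf.C 84 0x101c60b)) Pf.nil))) Pf.nil)) Pf.nil))) (Pf.C 75 0x1c30b)) Pf.nil))) Pf.nil)) Pf.nil))) (Pf.C 75 99210)) Pf.nil))) Pf.nil)) Pf.nil)) (Pf.T 9 13 (Pf.cons (Pf.T 9 16 (Pf.cons (Pf.W 85 6 [8,9] [7] (Pf.cons (Pf.B 10 9 (Pf.B 10 8 (Pf.C 3 99338) (Pf.C 2 0x24508)) (Pf.C 84 0x1018509)) (Pf.cons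 (Pf.B 10 9 (Pf.B 10 7 (Pf.C 3 0x1c48a) (Pf.C 75 99210)) (Pf.C 84 0x1018509)) Pf.nil))) Pf.nil)) Pf.nil))) (Pf.C 75 99209)) Pf.nil))) Pf.nil)) Pf.nil))) (Pf.cons (Pf.B 8 7 (Pf.T 8 13 (Pf.cons (Pf.T 8 16 (Pf.cons (Pf.W 85 6 [8] [7] (Pf.cons (Pf.B 9 8 (Pf.B 9 7 (Pf.C 3 0x1c409) (Pf.T 9 12 (Pf.cons (Pf.T 9 15 (Pf.cons (Pf.W 85 6 [8,9] [7] (Pf.cons (Pf.B 10 9 (Pf.C 3 99466) (Pf.B 10 8 (Pf.B 10 7 (Pf.C 3 0x1c40a) (Pf.T 10 12 (Pf.cons (Pf.T 10 15 (Pf.cons (Pf.W 85 7 [] [6,8,9,10] (Pf.cons (Pf.B 11 10 (Pf.B 11 9 (Pf.B 11 8 (Pf.C 3 0x1c40b) (Pf.B 11 6 (Pf.C 3 99467) (Pf.T 11 12 (Pf.cons (Pf.T 11 15 (Pf.cons (Pf.W 85 7 [11] [6,8,9,10] (Pf.cons (Pf.B 12 11 (Pf.C 3 0x1c58c) (Pf.C 81 0xe2060b)) (Pf.cons (Pf.B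 12 10 (Pf.B 12 9 (Pf.B 12 6 (Pf.C 3 99468) (Pf.C 75 0x1c30c)) (Pf.C 2 0x28609)) (Pf.C 81 0xc2460a)) Pf.nil))) Pf.nil)) Pf.nil)))) (Pf.C 2 0x28589)) (Pf.C 81 0xc2458a)) (Pf.cons (Pf.B 11 10 (Pf.B 11 9 (Pf.B 11 6 (Pf.C 3 99467) (Pf.C 75 0x1c30b)) (Pf.C 2 0x28589)) (Pf.C 81 0xc2458a)) Pf.nil))) Pf.nil)) Pf.nil))) (Pf.C 2 0x2440a))) (Pf.cons (Pf.B 10 7 (Pf.B 10 8 (Pf.C 3 0x1c40a) (Pf.T 10 13 (Pf.cons (Pf.T 10 16 (Pf.cons (Pf.W 85 7 [] [6,8,9,10] (Pf.cons (Pf.B 11 10 (Pf.C 3 0x1c50b) (Pf.C 84 0x101858a)) (Pf.cons (Pf.B 11 6 (Pf.B 11 9 (Pf.C 3 99467) (Pf.T 11 13 (Pf.cons (Pf.T 11 16 (Pf.cons (Pf.W 85 7 [11] [6,8,9,10] (Pf.cons (Pf.B 12 10 (Pf.C 3 0x1c50c) (Pf.C 84 0x101860a)) (Pf.cons (Pf.B 12 11 (Pf.B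 12 9 (Pf.B 12 6 (Pf.C 3 99468) (Pf.C 75 0x1c30c)) (Pf.C 2 0x2c609)) (Pf.C 84 0x121c60b)) Pf.nil))) Pf.nil)) Pf.nil))) (Pf.C 75 0x1c30b)) Pf.nil))) Pf.nil)) Pf.nil))) (Pf.C 75 99210)) Pf.nil))) Pf.nil)) Pf.nil))) (Pf.T 9 12 (Pf.cons (Pf.T 9 15 (Pf.cons (Pf.W 85 6 [8,9] [7] (Pf.cons (Pf.B 10 9 (Pf.C 3 99466) (Pf.C 81 0xc20509)) (Pf.cons (Pf.B 10 9 (Pf.B 10 8 (Pf.B 10 7 (Pf.C 3 0x1c40a) (Pf.C 75 99210)) (Pf.C 2 0x24508)) (Pf.C 81 0xc20509)) Pf.nil))) Pf.nil)) Pf.nil))) (Pf.cons (Pf.B 9 7 (Pf.B 9 8 (Pf.C 3 0x1c409) (Pf.T 9 13 (Pf.cons (Pf.T 9 16 (Pf.cons (Pf.W 85 6 [8,9] [7] (Pf.cons (Pf.B 10 9 (Pf.B 10 8 (Pf.B 10 7 (Pf.C 3 0x1c40a) (Pf.T 10 12 (Pf.cons (Pf.T 10 15 (Pf.cons (Pf.W 85 7 [] [6,8,9,10]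 (Pf.cons (Pf.B 11 9 (Pf.C 3 0x1c48b) (Pf.C 84 0x1018589)) (Pf.cons (Pf.B 11 6 (Pf.B 11 10 (Pf.C 3 99595) (Pf.T 11 13 (Pf.cons (Pf.T 11 16 (Pf.cons (Pf.W 85 7 [11] [6,8,9,10] (Pf.cons (Pf.B 12 9 (Pf.C 3 0x1c48c) (Pf.C 84 0x1018609)) (Pf.cons (Pf.B 12 11 (Pf.B 12 10 (Pf.B 12 6 (Pf.C 3 99596) (Pf.C 75 0x1c30c)) (Pf.C 2 0x2c60a)) (Pf.C 84 0x141c60b)) Pf.nil))) Pf.nil)) Pf.nil))) (Pf.C 75 0x1c30b)) Pf.nil))) Pf.nil)) Pf.nil))) (Pf.C 2 0x24508)) (Pf.C 84 0x1018509)) (Pf.cons (Pf.B 10 9 (Pf.B 10 8 (Pf.B 10 7 (Pf.C 3 0x1c40a) (Pf.C 75 99210)) (Pf.C 2 0x24508)) (Pf.C 84 0x1018509)) Pf.nil))) Pf.nil)) Pf.nil))) (Pf.C 75 99209)) Pf.nil))) Pf.nil)) Pf.nil)) (Pf.C 75 99208)) Pf.nil))))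
 Pq.nil)
theorem hh_o40 : AllRef hh_T hh_G39 (List.map pat1 [90]) :=
  chkPq_sound hh_o40c _ (by decide +kernel)
noncomputable def hh_o41c : Pq := (Pq.cons (Pq.L [] 0 (Pf.X 6 7))
 (Pq.cons (Pq.L [] 1 (Pf.C 93 904))
 (Pq.cons (Pq.L [] 1 (Pf.W 92 7 [] [8] (Pf.cons (Pf.B 9 8 (Pf.C 2 0x20487) (Pf.C 93 1160)) (Pf.cons (Pf.B 9 8 (Pf.C 2 0x20487) (Pf.C 93 1160)) Pf.nil))))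
 (Pq.cons (Pq.L [] 1 (Pf.W 94 7 [] [8] (Pf.cons (Pf.B 9 8 (Pf.C 2 0x20487) (Pf.C 93 1160)) Pf.nil)))
 (Pq.cons (Pq.L [] 1 (Pf.C 93 904))
 (Pq.cons (Pq.L [6] 1 (Pf.W 85 6 [] [7,8] (Pf.cons (Pf.T 9 12 (Pf.cons (Pf.T 9 15 (Pf.cons (Pf.W 85 6 [9] [7,8] (Pf.cons (Pf.B 10 9 (Pf.C 3 99466) (Pf.T 10 12 (Pf.cons (Pf.T 10 15 (Pf.cons (Pf.W 85 6 [9,10] [7,8] (Pf.cons (Pf.B 11 10 (Pf.C 3 99595) (Pf.C 81 0xc2458a)) (Pf.cons (Pf.B 11 7 (Pf.B 11 8 (Pf.C 3 0x1c40b) (Pf.T 11 13 (Pf.cons (Pf.T 11 16 (Pf.cons (Pf.C 93 1416) Pf.nil)) Pf.nil))) (Pf.C 75 99211)) Pf.nil))) Pf.nil)) Pf.nil))) (Pf.cons (Pf.B 10 7 (Pf.B 10 8 (Pf.C 3 0x1c40a) (Pf.T 10 13 (Pf.cons (Pf.T 10 16 (Pf.cons (Pf.C 93 1288) Pf.nil)) Pf.nil))) (Pf.C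 75 99210)) Pf.nil))) Pf.nil)) Pf.nil)) (Pf.cons (Pf.B 9 7 (Pf.B 9 8 (Pf.C 3 0x1c409) (Pf.T 9 13 (Pf.cons (Pf.T 9 16 (Pf.cons (Pf.C 93 1160) Pf.nil)) Pf.nil))) (Pf.C 75 99209)) Pf.nil))))
 (Pq.cons (Pq.L [] 0 (Pf.X 6 7))
 (Pq.cons (Pq.L [0,1,6] 1 (Pf.W 74 7 [] [0,1,6,8] (Pf.cons (Pf.B 9 6 (Pf.B 9 8 (Pf.W 85 6 [7] [8,9] (Pf.cons (Pf.B 10 8 (Pf.C 3 99338) (Pf.B 10 7 (Pf.C 2 0x1c508) (Pf.C 81 0xc20507))) (Pf.cons (Pf.B 10 9 (Pf.B 10 8 (Pf.C 3 0x2440a) (Pf.B 10 7 (Pf.C 2 0x1c508) (Pf.C 81 0xc20507))) (Pf.C 75 99466)) Pf.nil))) (Pf.W 74 7 [9] [0,1,6,8] (Pf.cons (Pf.B 10 8 (Pf.B 10 6 (Pf.W 85 6 [7] [8,10] (Pf.cons (Pf.B 11 8 (Pf.C 3 99339) (Pf.B 11 7 (Pf.C 2 0x1c588) (Pf.C 81 0xc20587))) (Pf.cons (Pf.B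 11 10 (Pf.B 11 8 (Pf.C 3 0x2840b) (Pf.B 11 7 (Pf.C 2 0x1c588) (Pf.C 81 0xc20587))) (Pf.C 75 99595)) Pf.nil))) (Pf.C 4 0xc28080)) (Pf.C 75 0x24508)) Pf.nil))) (Pf.C 4 0xc24080)) Pf.nil)))
 (Pq.cons (Pq.L [6] 1 (Pf.W 92 7 [] [6,8] (Pf.cons (Pf.B 9 8 (Pf.C 2 0x20487) (Pf.C 81 0xc1c409)) (Pf.cons (Pf.B 9 8 (Pf.C 2 0x20487) (Pf.C 95 1160)) Pf.nil))))
 (Pq.cons (Pq.L [] 1 (Pf.W 94 7 [] [8] (Pf.cons (Pf.B 9 8 (Pf.C 2 0x20487) (Pf.C 95 1160)) Pf.nil)))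
 (Pq.cons (Pq.L [] 1 (Pf.C 95 904))
 (Pq.cons (Pq.L [6] 1 (Pf.W 85 6 [] [7,8] (Pf.cons (Pf.B 9 8 (Pf.C 3 99337) (Pf.T 9 12 (Pf.cons (Pf.T 9 15 (Pf.cons (Pf.W 85 6 [9] [7,8] (Pf.cons (Pf.B 10 9 (Pf.C 3 99466) (Pf.C 81 0xc20509)) (Pf.cons (Pf.B 10 9 (Pf.B 10 8 (Pf.T 10 13 (Pf.cons (Pf.T 10 16 (Pf.cons (Pf.W 74 9 [7] [6,8,10] (Pf.cons (Pf.B 11 10 (Pf.B 11 8 (Pf.C 3 0x2c508) (Pf.C 75 0x1c588)) (Pf.C 75 99722)) Pf.nil)) Pf.nil)) Pf.nil)) (Pf.C 2 0x24508)) (Pf.C 81 0xc20509)) Pf.nil))) Pf.nil)) Pf.nil))) (Pf.cons (Pf.B 9 7 (Pf.B 9 8 (Pf.T 9 13 (Pf.cons (Pf.T 9 16 (Pf.cons (Pf.W 85 6 [9] [7,8] (Pf.cons (Pf.B 10 8 (Pf.C 3 99338) (Pf.B 10 9 (Pf.T 10 12 (Pf.cons (Pf.T 10 15 (Pf.cons (Pf.W 74 10 [7] [6,8,9]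 (Pf.cons (Pf.B 11 9 (Pf.B 11 8 (Pf.C 3 0x2c488) (Pf.C 75 0x1c588)) (Pf.C 75 99721)) Pf.nil)) Pf.nil)) Pf.nil)) (Pf.C 2 0x2048a))) (Pf.cons (Pf.B 10 7 (Pf.B 10 9 (Pf.C 3 0x1c48a) (Pf.T 10 13 (Pf.cons (Pf.T 10 16 (Pf.cons (Pf.W 85 6 [9,10] [7,8] (Pf.cons (Pf.B 11 10 (Pf.B 11 9 (Pf.T 11 12 (Pf.cons (Pf.T 11 15 (Pf.cons (Pf.W 74 11 [7] [6,8,9] (Pf.cons (Pf.B 12 9 (Pf.B 12 8 (Pf.C 3 0x30488) (Pf.C 75 0x1c608)) (Pf.C 75 99849)) Pf.nil)) Pf.nil)) Pf.nil)) (Pf.C 2 0x28589)) (Pf.C 84 0x121858a)) (Pf.cons (Pf.B 11 10 (Pf.B 11 9 (Pf.B 11 7 (Pf.C 3 0x1c48b) (Pf.C 75 99211)) (Pf.C 2 0x28589)) (Pf.C 84 0x121858a)) Pf.nil))) Pf.nil)) Pf.nil))) (Pf.C 75 99210)) Pf.nil))) Pf.nil)) Pf.nil)) (Pf.T 9 13 (Pf.cons (Pf.T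 9 16 (Pf.cons (Pf.C 95 1160) Pf.nil)) Pf.nil))) (Pf.C 75 99209)) Pf.nil))))
 Pq.nil))))))))))))
theorem hh_o41 : AllRef hh_T hh_G42 (closeObl (hh_T.sc.get 0) false [85,92,93,94,95,88,91] [0,0,0,1,1,1,2] [6] [2] 107) :=
  chkPq_sound hh_o41c _ (by decide +kernel)
noncomputable def hh_o42c : Pq := (Pq.cons (Pq.L [6] 0 (Pf.W 85 6 [] [7] (Pf.cons (Pf.B 8 7 (Pf.T 8 12 (Pf.cons (Pf.T 8 15 (Pf.cons (Pf.W 85 6 [8] [7] (Pf.cons (Pf.B 9 8 (Pf.C 3 99337) (Pf.C 80 0xe18488)) (Pf.cons (Pf.B 9 8 (Pf.B 9 7 (Pf.C 3 0x1c409) (Pf.C 75 99209)) (Pf.C 80 0xe18488)) Pf.nil))) Pf.nil)) Pf.nil)) (Pf.T 8 12 (Pf.cons (Pf.T 8 15 (Pf.cons (Pf.W 85 6 [8] [7] (Pf.cons (Pf.B 9 8 (Pf.C 3 99337) (Pf.B 9 7 (Pf.T 9 12 (Pf.cons (Pf.C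 80 0xe18409) Pf.nil)) (Pf.T 9 12 (Pf.cons (Pf.T 9 15 (Pf.cons (Pf.W 85 6 [8,9] [7] (Pf.cons (Pf.B 10 9 (Pf.C 3 99466) (Pf.C 81 0xc20509)) (Pf.cons (Pf.B 10 9 (Pf.B 10 8 (Pf.B 10 7 (Pf.T 10 13 (Pf.cons (Pf.T 10 16 (Pf.cons (Pf.W 77 7 [] [6,8,9,10] (Pf.cons (Pf.B 11 10 (Pf.C 3 0x1c50b) (Pf.B 11 8 (Pf.B 11 6 (Pf.C 3 99339) (Pf.T 11 12 (Pf.cons (Pf.T 11 15 (Pf.cons (Pf.T 11 20 (Pf.cons (Pf.C 97 1415) Pf.nil)) Pf.nil)) Pf.nil))) (Pf.C 2 0x2840b))) (Pf.cons (Pf.B 11 9 (Pf.B 11 8 (Pf.B 11 6 (Pf.C 3 99339) (Pf.C 75 0x1c30b)) (Pf.C 2 0x24588)) (Pf.C 81 0xc20589)) Pf.nil))) Pf.nil)) Pf.nil)) (Pf.C 75 99210)) (Pf.C 2 0x24508)) (Pf.C 81 0xc20509)) Pf.nil))) Pf.nil)) Pf.nil)))) (Pf.cons (Pf.B 9 7 (Pf.B 9 8 (Pf.T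 9 13 (Pf.cons (Pf.T 9 16 (Pf.cons (Pf.W 85 6 [8,9] [7] (Pf.cons (Pf.B 10 8 (Pf.C 3 99338) (Pf.B 10 9 (Pf.B 10 7 (Pf.C 3 0x1c48a) (Pf.T 10 12 (Pf.cons (Pf.T 10 15 (Pf.cons (Pf.W 77 7 [] [6,8,9,10] (Pf.cons (Pf.B 11 9 (Pf.C 3 0x1c48b) (Pf.B 11 8 (Pf.B 11 6 (Pf.C 3 99339) (Pf.T 11 12 (Pf.cons (Pf.T 11 15 (Pf.cons (Pf.T 11 20 (Pf.cons (Pf.C 97 1415) Pf.nil)) Pf.nil)) Pf.nil))) (Pf.C 2 0x2440b))) (Pf.cons (Pf.B 11 10 (Pf.B 11 8 (Pf.B 11 6 (Pf.C 3 99339) (Pf.C 75 0x1c30b)) (Pf.C 2 0x28588)) (Pf.C 81 0xc2058a)) Pf.nil))) Pf.nil)) Pf.nil))) (Pf.C 2 0x2048a))) (Pf.cons (Pf.B 10 7 (Pf.B 10 9 (Pf.C 3 0x1c48a) (Pf.T 10 13 (Pf.cons (Pf.T 10 16 (Pf.cons (Pf.W 77 7 [] [6,8,9,10] (Pf.cons (Pf.B 11 10 (Pf.C 3 0x1c50b)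 (Pf.C 84 0x121858a)) (Pf.cons (Pf.B 11 6 (Pf.B 11 8 (Pf.C 3 99339) (Pf.T 11 13 (Pf.cons (Pf.T 11 16 (Pf.cons (Pf.T 11 21 (Pf.cons (Pf.W 94 11 [] [7,8] (Pf.cons (Pf.C 84 0x101c60b) Pf.nil)) Pf.nil)) Pf.nil)) Pf.nil))) (Pf.C 75 0x1c30b)) Pf.nil))) Pf.nil)) Pf.nil))) (Pf.C 75 99210)) Pf.nil))) Pf.nil)) Pf.nil)) (Pf.T 9 13 (Pf.cons (Pf.T 9 16 (Pf.cons (Pf.W 85 6 [8,9] [7] (Pf.cons (Pf.B 10 9 (Pf.B 10 8 (Pf.C 3 99338) (Pf.C 2 0x24508)) (Pf.C 84 0x1018509)) (Pf.cons (Pf.B 10 9 (Pf.B 10 7 (Pf.C 3 0x1c48a) (Pf.C 75 99210)) (Pf.C 84 0x1018509)) Pf.nil))) Pf.nil)) Pf.nil))) (Pf.C 75 99209)) Pf.nil))) Pf.nil)) Pf.nil))) (Pf.cons (Pf.B 8 7 (Pf.T 8 13 (Pf.cons (Pf.T 8 16 (Pf.cons (Pf.W 85 6 [8] [7] (Pf.cons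 (Pf.B 9 8 (Pf.B 9 7 (Pf.C 3 0x1c409) (Pf.T 9 12 (Pf.cons (Pf.T 9 15 (Pf.cons (Pf.W 85 6 [8,9] [7] (Pf.cons (Pf.B 10 9 (Pf.C 3 99466) (Pf.B 10 8 (Pf.B 10 7 (Pf.C 3 0x1c40a) (Pf.T 10 12 (Pf.cons (Pf.T 10 15 (Pf.cons (Pf.W 77 7 [] [6,9,10] (Pf.cons (Pf.B 11 10 (Pf.B 11 9 (Pf.B 11 6 (Pf.C 3 99467) (Pf.T 11 12 (Pf.cons (Pf.T 11 15 (Pf.cons (Pf.T 11 20 (Pf.cons (Pf.C 97 1415) Pf.nil)) Pf.nil)) Pf.nil))) (Pf.C 2 0x28589)) (Pf.C 81 0xc2458a)) (Pf.cons (Pf.B 11 10 (Pf.B 11 9 (Pf.B 11 6 (Pf.C 3 99467) (Pf.C 75 0x1c30b)) (Pf.C 2 0x28589)) (Pf.C 81 0xc2458a)) Pf.nil))) Pf.nil)) Pf.nil))) (Pf.C 2 0x2440a))) (Pf.cons (Pf.B 10 7 (Pf.B 10 8 (Pf.C 3 0x1c40a) (Pf.T 10 13 (Pf.cons (Pf.T 10 16 (Pf.cons (Pf.W 77 7 []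 [6,8,9,10] (Pf.cons (Pf.B 11 10 (Pf.C 3 0x1c50b) (Pf.C 84 0x101858a)) (Pf.cons (Pf.B 11 6 (Pf.B 11 9 (Pf.C 3 99467) (Pf.T 11 13 (Pf.cons (Pf.T 11 16 (Pf.cons (Pf.T 11 21 (Pf.cons (Pf.W 94 11 [] [7,9] (Pf.cons (Pf.C 84 0x121c60b) Pf.nil)) Pf.nil)) Pf.nil)) Pf.nil))) (Pf.C 75 0x1c30b)) Pf.nil))) Pf.nil)) Pf.nil))) (Pf.C 75 99210)) Pf.nil))) Pf.nil)) Pf.nil))) (Pf.T 9 12 (Pf.cons (Pf.T 9 15 (Pf.cons (Pf.W 85 6 [8,9] [7] (Pf.cons (Pf.B 10 9 (Pf.C 3 99466) (Pf.C 81 0xc20509)) (Pf.cons (Pf.B 10 9 (Pf.B 10 8 (Pf.B 10 7 (Pf.C 3 0x1c40a) (Pf.C 75 99210)) (Pf.C 2 0x24508)) (Pf.C 81 0xc20509)) Pf.nil))) Pf.nil)) Pf.nil))) (Pf.cons (Pf.B 9 7 (Pf.B 9 8 (Pf.C 3 0x1c409) (Pf.T 9 13 (Pf.cons (Pf.T 9 16 (Pf.cons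 (Pf.W 85 6 [8,9] [7] (Pf.cons (Pf.B 10 9 (Pf.B 10 8 (Pf.B 10 7 (Pf.C 3 0x1c40a) (Pf.T 10 12 (Pf.cons (Pf.T 10 15 (Pf.cons (Pf.W 77 7 [] [6,8,9,10] (Pf.cons (Pf.B 11 9 (Pf.C 3 0x1c48b) (Pf.C 84 0x1018589)) (Pf.cons (Pf.B 11 6 (Pf.B 11 10 (Pf.C 3 99595) (Pf.T 11 13 (Pf.cons (Pf.T 11 16 (Pf.cons (Pf.T 11 21 (Pf.cons (Pf.W 94 11 [] [7,10] (Pf.cons (Pf.C 84 0x141c60b) Pf.nil)) Pf.nil)) Pf.nil)) Pf.nil))) (Pf.C 75 0x1c30b)) Pf.nil))) Pf.nil)) Pf.nil))) (Pf.C 2 0x24508)) (Pf.C 84 0x1018509)) (Pf.cons (Pf.B 10 9 (Pf.B 10 8 (Pf.B 10 7 (Pf.C 3 0x1c40a) (Pf.C 75 99210)) (Pf.C 2 0x24508)) (Pf.C 84 0x1018509)) Pf.nil))) Pf.nil)) Pf.nil))) (Pf.C 75 99209)) Pf.nil))) Pf.nil)) Pf.nil)) (Pf.C 75 99208)) Pf.nil))))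
 Pq.nil)
theorem hh_o42 : AllRef hh_T hh_G44 (List.map pat1 [97]) :=
  chkPq_sound hh_o42c _ (by decide +kernel)
noncomputable def hh_o43c : Pq := (Pq.cons (Pq.L [6] 0 (Pf.B 9 8 (Pf.C 3 99337) (Pf.B 9 7 (Pf.C 3 99209) (Pf.C 81 0xc20389))))
 (Pq.cons (Pq.L [0,1,6] 1 (Pf.T 7 20 (Pf.cons (Pf.T 8 20 (Pf.cons (Pf.W 92 7 [] [0,1,6,8] (Pf.cons (Pf.B 9 8 (Pf.W 92 8 [] [0,1,6,7,9] (Pf.cons (Pf.B 10 9 (Pf.C 3 99466) (Pf.C 2 0x2048a)) (Pf.cons (Pf.B 10 7 (Pf.W 74 7 [6] [0,1,8,9,10] (Pf.cons (Pf.B 11 10 (Pf.B 11 6 (Pf.W 85 6 [9,10] [7,8,11] (Pf.cons (Pf.B 12 9 (Pf.C 3 99468) (Pf.C 81 0xc1c609)) (Pf.cons (Pf.B 12 11 (Pf.B 12 10 (Pf.C 3 0x2c50c) (Pf.C 84 0x101860a)) (Pf.C 75 99724)) Pf.nil))) (Pf.C 4 0xc2c080))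 (Pf.C 75 99722)) Pf.nil)) (Pf.C 2 0x2038a)) Pf.nil))) (Pf.C 2 0x1c409)) (Pf.cons (Pf.B 9 8 (Pf.W 92 8 [] [0,1,6,7,9] (Pf.cons (Pf.B 10 7 (Pf.W 74 7 [6] [0,1,8,9,10] (Pf.cons (Pf.B 11 9 (Pf.B 11 6 (Pf.W 85 6 [9,10] [7,8,11] (Pf.cons (Pf.B 12 10 (Pf.C 3 99596) (Pf.C 81 0xc2060a)) (Pf.cons (Pf.B 12 11 (Pf.B 12 9 (Pf.C 3 0x2c48c) (Pf.C 84 0xe18609)) (Pf.C 75 99724)) Pf.nil))) (Pf.C 4 0xc2c080)) (Pf.C 75 99721)) Pf.nil)) (Pf.C 2 0x2038a)) (Pf.cons (Pf.B 10 9 (Pf.B 10 7 (Pf.W 74 7 [6] [9,10] (Pf.cons (Pf.B 11 10 (Pf.B 11 9 (Pf.C 3 0x2c509) (Pf.C 75 99721)) (Pf.C 75 99722)) Pf.nil)) (Pf.C 2 0x2038a)) (Pf.C 2 0x2048a)) Pf.nil))) (Pf.C 2 0x1c409)) Pf.nil))) Pf.nil)) Pf.nil)))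
 (Pq.cons (Pq.L [6] 1 (Pf.T 7 20 (Pf.cons (Pf.W 92 7 [] [6,8] (Pf.cons (Pf.B 9 8 (Pf.C 2 0x20487) (Pf.C 81 0xc1c409)) (Pf.cons (Pf.B 9 8 (Pf.C 2 0x20487) (Pf.C 84 0xe18409)) Pf.nil))) Pf.nil)))
 (Pq.cons (Pq.L [6] 0 (Pf.B 8 7 (Pf.C 3 99208) (Pf.T 7 21 (Pf.cons (Pf.W 94 7 [] [6,8] (Pf.cons (Pf.B 9 8 (Pf.C 2 0x20487) (Pf.C 84 0xe18409)) Pf.nil)) Pf.nil))))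
 (Pq.cons (Pq.L [6] 0 (Pf.T 7 22 (Pf.cons (Pf.T 8 22 (Pf.cons (Pf.W 96 7 [] [6,8] (Pf.cons (Pf.B 9 8 (Pf.W 92 9 [] [7,8] (Pf.cons (Pf.C 80 0x101c509) (Pf.cons (Pf.C 80 0x101c509) Pf.nil))) (Pf.W 96 8 [] [6,7,9] (Pf.cons (Pf.B 10 9 (Pf.W 92 9 [] [6,7,8,10] (Pf.cons (Pf.B 11 10 (Pf.W 92 10 [] [6,7,9,11] (Pf.cons (Pf.B 12 11 (Pf.C 3 99724) (Pf.C 2 0x2858c)) (Pf.cons (Pf.B 12 9 (Pf.B 12 7 (Pf.C 3 0x1c48c) (Pf.C 75 99212)) (Pf.C 2 0x2848c)) Pf.nil))) (Pf.C 2 0x2450b)) (Pf.cons (Pf.B 11 10 (Pf.B 11 8 (Pf.C 3 0x2050b) (Pf.C 75 99339)) (Pf.C 2 0x2450b)) Pf.nil))) (Pf.W 92 9 [] [7,10] (Pf.cons (Pf.C 81 0xe28589) (Pf.cons (Pf.C 81 0xe28589) Pf.nil)))) Pf.nil))) Pf.nil)) Pf.nil)) Pf.nil)))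
 (Pq.cons (Pq.L [0,1] 1 (Pf.C 4 0x101c080))
 Pq.nil))))))
theorem hh_o43 : AllRef hh_T hh_G45 (hitObl [85,86,87,91] hh_h62) :=
  chkPq_sound hh_o43c _ (by decide +kernel)
noncomputable def hh_o44c : Pq := (Pq.cons (Pq.L [] 0 (Pf.C 98 7))
 (Pq.cons (Pq.L [] 0 (Pf.C 99 7))
 (Pq.cons (Pq.L [] 0 (Pf.C 100 7))
 (Pq.cons (Pq.L [] 0 (Pf.C 101 7))
 Pq.nil))))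
theorem hh_o44 : AllRef hh_T hh_G46 (List.map pat1 [98,99,100,101]) :=
  chkPq_sound hh_o44c _ (by decide +kernel)
noncomputable def hh_o45c : Pq := (Pq.cons (Pq.L [6] 3 (Pf.C 84 0x1220307))
 Pq.nil)
theorem hh_o45 : AllRef hh_T hh_G47 (applyObl TD2 1 [88] [0] []) :=
  chkPq_sound hh_o45c _ (by decide +kernel)
noncomputable def hh_o46c : Pq := Pq.nil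
theorem hh_o46 : AllRef hh_T hh_G32 (ptObl 77 (PT.br 6 PT.kid PT.kid) []) :=
  chkPq_sound hh_o46c _ (by decide +kernel)
noncomputable def hh_o47c : Pq := Pq.nil
theorem hh_o47 : AllRef hh_T hh_G48 (ptObl 78 PT.kid []) :=
  chkPq_sound hh_o47c _ (by decide +kernel)
noncomputable def hh_o48c : Pq := Pq.nil
theorem hh_o48 : AllRef hh_T hh_G49 (ptObl 104 (PT.br 6 PT.kid PT.kid) []) :=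
  chkPq_sound hh_o48c _ (by decide +kernel)
noncomputable def hh_o49c : Pq := Pq.nil
theorem hh_o49 : AllRef hh_T hh_G50 (ptObl 79 (PT.br 6 PT.kid PT.kid) []) :=
  chkPq_sound hh_o49c _ (by decide +kernel)
noncomputable def hh_o50c : Pq := Pq.nil
theorem hh_o50 : AllRef hh_T hh_G51 (ptObl 80 (PT.br 6 PT.kid PT.kid) []) :=
  chkPq_sound hh_o50c _ (by decide +kernel)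
noncomputable def hh_o51c : Pq := Pq.nil
theorem hh_o51 : AllRef hh_T hh_G52 (ptObl 81 (PT.br 6 PT.kid PT.kid) []) :=
  chkPq_sound hh_o51c _ (by decide +kernel)
noncomputable def hh_o52c : Pq := (Pq.cons (Pq.L [] 0 (Pf.X 6 7))
 (Pq.cons (Pq.L [] 1 (Pf.C 113 904))
 (Pq.cons (Pq.L [] 1 (Pf.W 112 7 [] [8] (Pf.cons (Pf.B 9 8 (Pf.C 2 0x20487) (Pf.C 113 1160)) Pf.nil)))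
 (Pq.cons (Pq.L [6] 1 (Pf.C 2 0x20307))
 (Pq.cons (Pq.L [6] 0 (Pf.W 104 7 [] [6,8] (Pf.cons (Pf.W 74 8 [9] [6,7] (Pf.cons (Pf.B 10 7 (Pf.B 10 6 (Pf.C 3 0x28386) (Pf.C 75 0x24506)) (Pf.C 75 0x24507)) Pf.nil)) Pf.nil)))
 (Pq.cons (Pq.L [6] 0 (Pf.W 114 7 [] [6,8] (Pf.cons (Pf.W 104 9 [] [6,8] (Pf.cons (Pf.W 74 8 [10] [6,9] (Pf.cons (Pf.B 11 9 (Pf.B 11 6 (Pf.C 3 0x2c486) (Pf.C 75 0x28586)) (Pf.C 75 0x28589)) Pf.nil)) Pf.nil)) Pf.nil)))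
 (Pq.cons (Pq.L [6] 1 (Pf.C 2 0x20307))
 (Pq.cons (Pq.L [6] 0 (Pf.W 106 7 [] [6,8] (Pf.cons (Pf.W 74 8 [9] [6,7] (Pf.cons (Pf.B 10 7 (Pf.B 10 6 (Pf.C 3 0x28386) (Pf.C 75 0x24506)) (Pf.C 75 0x24507)) Pf.nil)) (Pf.cons (Pf.W 74 8 [9] [6,7] (Pf.cons (Pf.B 10 7 (Pf.B 10 6 (Pf.C 3 0x28386) (Pf.C 75 0x24506)) (Pf.C 75 0x24507)) Pf.nil)) Pf.nil))))
 (Pq.cons (Pq.L [6] 1 (Pf.W 116 7 [] [6,8] (Pf.cons (Pf.W 104 9 [] [6,8] (Pf.cons (Pf.W 74 8 [10] [6,9] (Pf.cons (Pf.B 11 9 (Pf.B 11 6 (Pf.C 3 0x2c486) (Pf.C 75 0x28586)) (Pf.C 75 0x28589)) Pf.nil)) Pf.nil)) (Pf.cons (Pf.B 9 8 (Pf.C 2 0x20487) (Pf.W 106 9 [] [7,8] (Pf.cons (Pf.C 84 0x101c509) (Pf.cons (Pf.C 84 0x101c509) Pf.nil)))) Pf.nil))))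
 (Pq.cons (Pq.L [6] 1 (Pf.C 2 0x20307))
 (Pq.cons (Pq.L [6] 1 (Pf.C 3 0x1c406))
 (Pq.cons (Pq.L [] 1 (Pf.C 103 904))
 (Pq.cons (Pq.L [6] 1 (Pf.C 3 0x1c406))
 (Pq.cons (Pq.L [] 1 (Pf.C 103 904))
 (Pq.cons (Pq.L [] 0 (Pf.X 6 7))
 (Pq.cons (Pq.L [6] 0 (Pf.W 102 7 [] [6,8] (Pf.cons (Pf.W 74 7 [] [6,8,9] (Pf.cons (Pf.B 10 6 (Pf.B 10 8 (Pf.C 3 0x28308) (Pf.W 74 7 [10] [6,8,9] (Pf.cons (Pf.B 11 8 (Pf.B 11 6 (Pf.C 3 0x2c406) (Pf.C 75 0x24586)) (Pf.C 75 0x28588)) Pf.nil))) (Pf.C 75 0x24506)) Pf.nil)) (Pf.cons (Pf.W 74 7 [] [6,8,9] (Pf.cons (Pf.B 10 6 (Pf.B 10 8 (Pf.C 3 0x28308) (Pf.W 74 7 [10] [6,8,9] (Pf.cons (Pf.B 11 8 (Pf.B 11 6 (Pf.C 3 0x2c406) (Pf.C 75 0x24586)) (Pf.C 75 0x28588)) Pf.nil))) (Pf.C 75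 0x24506)) Pf.nil)) Pf.nil))))
 (Pq.cons (Pq.L [] 1 (Pf.W 112 7 [] [8] (Pf.cons (Pf.B 9 8 (Pf.C 2 0x20487) (Pf.W 102 9 [] [7,8] (Pf.cons (Pf.C 81 0x1420389) (Pf.cons (Pf.C 81 0x1420389) Pf.nil)))) Pf.nil)))
 (Pq.cons (Pq.L [6] 1 (Pf.C 2 0x20307))
 (Pq.cons (Pq.L [] 1 (Pf.C 115 904))
 (Pq.cons (Pq.L [] 1 (Pf.W 114 7 [] [8] (Pf.cons (Pf.B 9 8 (Pf.C 2 0x20487) (Pf.C 115 1160)) Pf.nil)))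
 (Pq.cons (Pq.L [6] 1 (Pf.C 2 0x20307))
 (Pq.cons (Pq.L [6] 1 (Pf.W 106 7 [] [6,8] (Pf.cons (Pf.B 9 8 (Pf.W 83 8 [7] [6,9] (Pf.cons (Pf.B 10 7 (Pf.C 2 0x1c508) (Pf.C 84 0x1220507)) (Pf.cons (Pf.B 10 7 (Pf.C 2 0x1c508) (Pf.C 84 0x1220507)) (Pf.cons (Pf.B 10 7 (Pf.B 10 6 (Pf.C 3 0x28386) (Pf.C 75 0x24506)) (Pf.C 75 0x24507)) Pf.nil)))) (Pf.C 105 1160)) (Pf.cons (Pf.B 9 8 (Pf.W 83 8 [7] [6,9] (Pf.cons (Pf.B 10 7 (Pf.C 2 0x1c508) (Pf.C 84 0x1220507)) (Pf.cons (Pf.B 10 7 (Pf.C 2 0x1c508) (Pf.C 84 0x1220507)) (Pf.cons (Pf.B 10 7 (Pf.B 10 6 (Pf.C 3 0x28386) (Pf.C 75 0x24506)) (Pf.C 75 0x24507)) Pf.nil)))) (Pf.C 89 0xe18409)) Pf.nil))))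
 (Pq.cons (Pq.L [0,1,6] 1 (Pf.W 83 6 [] [0,1,7,8] (Pf.cons (Pf.B 9 8 (Pf.B 9 7 (Pf.T 9 12 (Pf.cons (Pf.T 9 23 (Pf.cons (Pf.W 74 9 [] [0,1,6,7,8] (Pf.cons (Pf.B 10 8 (Pf.B 10 6 (Pf.C 3 0x28406) (Pf.W 83 6 [9] [0,1,7,8,10] (Pf.cons (Pf.B 11 9 (Pf.C 2 0x24586) (Pf.B 11 8 (Pf.B 11 10 (Pf.C 3 0x2840b) (Pf.T 11 12 (Pf.cons (Pf.T 11 23 (Pf.cons (Pf.W 83 6 [9,11] [10,0,1,7,8] (Pf.cons (Pf.B 12 11 (Pf.C 2 0x2c606) (Pf.C 82 0x121860b)) (Pf.cons (Pf.B 12 11 (Pf.C 2 0x2c606) (Pf.C 82 0x121860b)) (Pf.cons (Pf.T 10 14 (Pf.cons (Pf.T 10 27 (Pf.cons (Pf.W 83 8 [7] [0,1,6,9,10,11] (Pf.cons (Pf.B 12 7 (Pf.C 2 0x1c608) (Pf.B 12 6 (Pf.T 12 12 (Pf.cons (Pf.T 12 23 (Pf.cons (Pf.W 83 8 [7,12] [6,10] (Pf.cons (Pf.B 13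 12 (Pf.C 2 0x30688) (Pf.C 82 0x101c68c)) (Pf.cons (Pf.B 13 12 (Pf.C 2 0x30688) (Pf.C 82 0x101c68c)) (Pf.cons (Pf.B 13 7 (Pf.B 13 6 (Pf.C 3 0x34386) (Pf.C 75 0x28686)) (Pf.C 84 0x1820687)) Pf.nil)))) Pf.nil)) Pf.nil)) (Pf.C 2 0x1c30c))) (Pf.cons (Pf.B 12 7 (Pf.C 2 0x1c608) (Pf.W 83 8 [7,12] [6,10] (Pf.cons (Pf.B 13 7 (Pf.C 2 0x1c688) (Pf.C 84 0x1820687)) (Pf.cons (Pf.B 13 7 (Pf.C 2 0x1c688) (Pf.C 84 0x1820687)) (Pf.cons (Pf.B 13 7 (Pf.B 13 6 (Pf.C 3 0x34386) (Pf.C 75 0x28686)) (Pf.C 84 0x1820687)) Pf.nil))))) (Pf.cons (Pf.B 12 11 (Pf.C 81 0x182430b) (Pf.B 12 10 (Pf.B 12 9 (Pf.C 81 0x182c309) (Pf.B 12 6 (Pf.C 0 0xa1818589) (Pf.C 75 0x28606))) (Pf.C 4 0x1430080))) Pf.nil)))) Pf.nil)) (Pf.cons (Pf.T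 10 28 (Pf.cons (Pf.W 83 8 [7] [0,1,6,9,10,11] (Pf.cons (Pf.B 12 7 (Pf.C 2 0x1c608) (Pf.B 12 6 (Pf.T 12 12 (Pf.cons (Pf.T 12 23 (Pf.cons (Pf.W 83 8 [7,12] [6,10] (Pf.cons (Pf.B 13 12 (Pf.C 2 0x30688) (Pf.C 82 0x101c68c)) (Pf.cons (Pf.B 13 12 (Pf.C 2 0x30688) (Pf.C 82 0x101c68c)) (Pf.cons (Pf.B 13 7 (Pf.B 13 6 (Pf.C 3 0x34386) (Pf.C 75 0x28686)) (Pf.C 84 0x1820687)) Pf.nil)))) Pf.nil)) Pf.nil)) (Pf.C 2 0x1c30c))) (Pf.cons (Pf.B 12 7 (Pf.C 2 0x1c608) (Pf.W 83 8 [7,12] [6,10] (Pf.cons (Pf.B 13 7 (Pf.C 2 0x1c688) (Pf.C 84 0x1820687)) (Pf.cons (Pf.B 13 7 (Pf.C 2 0x1c688) (Pf.C 84 0x1820687)) (Pf.cons (Pf.B 13 7 (Pf.B 13 6 (Pf.C 3 0x34386) (Pf.C 75 0x28686)) (Pf.C 84 0x1820687)) Pf.nil))))) (Pf.cons (Pf.B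 12 11 (Pf.C 81 0x182430b) (Pf.B 12 10 (Pf.B 12 9 (Pf.C 81 0x182c309) (Pf.B 12 6 (Pf.C 0 0xa1818589) (Pf.C 75 0x28606))) (Pf.C 4 0x1430080))) Pf.nil)))) Pf.nil)) Pf.nil))) (Pf.cons (Pf.C 75 0x28606) Pf.nil))))) Pf.nil)) Pf.nil))) (Pf.C 2 99339))) (Pf.cons (Pf.B 11 9 (Pf.C 2 0x24586) (Pf.B 11 8 (Pf.B 11 10 (Pf.C 3 0x2840b) (Pf.B 11 7 (Pf.W 83 6 [9,11] [10,7,8] (Pf.cons (Pf.B 12 9 (Pf.C 2 0x24606) (Pf.C 82 0x1618609)) (Pf.cons (Pf.B 12 9 (Pf.C 2 0x24606) (Pf.C 82 0x1618609)) (Pf.cons (Pf.T 11 13 (Pf.cons (Pf.T 11 24 (Pf.cons (Pf.T 11 25 (Pf.cons (Pf.T 10 14 (Pf.cons (Pf.T 10 27 (Pf.cons (Pf.W 74 9 [10] [6,7,8,11] (Pf.cons (Pf.B 12 11 (Pf.B 12 8 (Pf.C 3 0x30588) (Pf.B 12 7 (Pf.C 3 0x30587) (Pf.W 83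 8 [7] [6,12] (Pf.cons (Pf.B 13 7 (Pf.C 2 0x1c688) (Pf.B 13 6 (Pf.T 13 12 (Pf.cons (Pf.T 13 23 (Pf.cons (Pf.W 83 8 [7,13] [12] (Pf.cons (Pf.B 14 13 (Pf.C 2 0x34708) (Pf.C 82 0x101c70d)) (Pf.cons (Pf.B 14 13 (Pf.C 2 0x34708) (Pf.C 82 0x101c70d)) (Pf.cons (Pf.C 84 0x1a20607) (Pf.cons (Pf.C 75 0x30708) Pf.nil))))) Pf.nil)) Pf.nil)) (Pf.C 2 0x1c30d))) (Pf.cons (Pf.B 13 7 (Pf.C 2 0x1c688) (Pf.W 83 8 [7,13] [12] (Pf.cons (Pf.B 14 7 (Pf.C 2 0x1c708) (Pf.C 84 0x1a20707)) (Pf.cons (Pf.B 14 7 (Pf.C 2 0x1c708) (Pf.C 84 0x1a20707)) (Pf.cons (Pf.C 84 0x1a20607) (Pf.cons (Pf.C 75 0x30708) Pf.nil)))))) (Pf.cons (Pf.W 83 8 [7,12] [] (Pf.cons (Pf.B 13 7 (Pf.C 2 0x1c688) (Pf.C 84 0x1820687)) (Pf.cons (Pf.B 13 7 (Pf.C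 2 0x1c688) (Pf.C 84 0x1820687)) (Pf.cons (Pf.C 75 0x30688) Pf.nil)))) (Pf.cons (Pf.C 75 0x30688) Pf.nil))))))) (Pf.C 75 0x2860b)) Pf.nil)) Pf.nil)) (Pf.cons (Pf.T 10 28 (Pf.cons (Pf.W 74 9 [10] [6,7,8,11] (Pf.cons (Pf.B 12 11 (Pf.B 12 8 (Pf.C 3 0x30588) (Pf.B 12 7 (Pf.C 3 0x30587) (Pf.W 83 8 [7] [6,12] (Pf.cons (Pf.B 13 7 (Pf.C 2 0x1c688) (Pf.B 13 6 (Pf.T 13 12 (Pf.cons (Pf.T 13 23 (Pf.cons (Pf.W 83 8 [7,13] [12] (Pf.cons (Pf.B 14 13 (Pf.C 2 0x34708) (Pf.C 82 0x101c70d)) (Pf.cons (Pf.B 14 13 (Pf.C 2 0x34708) (Pf.C 82 0x101c70d)) (Pf.cons (Pf.C 84 0x1a20607) (Pf.cons (Pf.C 75 0x30708) Pf.nil))))) Pf.nil)) Pf.nil)) (Pf.C 2 0x1c30d))) (Pf.cons (Pf.B 13 7 (Pf.C 2 0x1c688) (Pf.W 83 8 [7,13] [12] (Pf.cons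 (Pf.B 14 7 (Pf.C 2 0x1c708) (Pf.C 84 0x1a20707)) (Pf.cons (Pf.B 14 7 (Pf.C 2 0x1c708) (Pf.C 84 0x1a20707)) (Pf.cons (Pf.C 84 0x1a20607) (Pf.cons (Pf.C 75 0x30708) Pf.nil)))))) (Pf.cons (Pf.W 83 8 [7,12] [] (Pf.cons (Pf.B 13 7 (Pf.C 2 0x1c688) (Pf.C 84 0x1820687)) (Pf.cons (Pf.B 13 7 (Pf.C 2 0x1c688) (Pf.C 84 0x1820687)) (Pf.cons (Pf.C 75 0x30688) Pf.nil)))) (Pf.cons (Pf.C 75 0x30688) Pf.nil))))))) (Pf.C 75 0x2860b)) Pf.nil)) Pf.nil)) Pf.nil))) Pf.nil)) Pf.nil)) (Pf.cons (Pf.C 84 0x142430b) Pf.nil))) (Pf.cons (Pf.C 75 0x28606) Pf.nil))))) (Pf.C 2 99211))) (Pf.C 2 99339))) (Pf.cons (Pf.T 10 14 (Pf.cons (Pf.T 10 27 (Pf.cons (Pf.W 83 6 [9,10] [0,1,7,8] (Pf.cons (Pf.B 11 9 (Pf.C 2 0x24586) (Pf.B 11 8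 (Pf.B 11 10 (Pf.C 3 0x2840b) (Pf.T 11 12 (Pf.cons (Pf.T 11 23 (Pf.cons (Pf.W 83 8 [7] [0,1,6,9,10,11] (Pf.cons (Pf.B 12 7 (Pf.C 2 0x1c608) (Pf.B 12 6 (Pf.T 12 12 (Pf.cons (Pf.T 12 23 (Pf.cons (Pf.W 83 8 [7,12] [6,10] (Pf.cons (Pf.B 13 12 (Pf.C 2 0x30688) (Pf.C 82 0x101c68c)) (Pf.cons (Pf.B 13 12 (Pf.C 2 0x30688) (Pf.C 82 0x101c68c)) (Pf.cons (Pf.B 13 7 (Pf.B 13 6 (Pf.C 3 0x34386) (Pf.C 75 0x28686)) (Pf.C 84 0x1820687)) Pf.nil)))) Pf.nil)) Pf.nil)) (Pf.C 2 0x1c30c))) (Pf.cons (Pf.B 12 7 (Pf.C 2 0x1c608) (Pf.W 83 8 [7,12] [6,10] (Pf.cons (Pf.B 13 7 (Pf.C 2 0x1c688) (Pf.C 84 0x1820687)) (Pf.cons (Pf.B 13 7 (Pf.C 2 0x1c688) (Pf.C 84 0x1820687)) (Pf.cons (Pf.B 13 7 (Pf.B 13 6 (Pf.C 3 0x34386) (Pf.C 75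 0x28686)) (Pf.C 84 0x1820687)) Pf.nil))))) (Pf.cons (Pf.B 12 11 (Pf.C 81 0x182430b) (Pf.B 12 10 (Pf.B 12 9 (Pf.C 81 0x182c309) (Pf.B 12 6 (Pf.C 0 0xa1818589) (Pf.C 75 0x28606))) (Pf.C 4 0x1430080))) Pf.nil)))) Pf.nil)) Pf.nil))) (Pf.C 2 99339))) (Pf.cons (Pf.B 11 9 (Pf.C 2 0x24586) (Pf.B 11 8 (Pf.B 11 10 (Pf.C 3 0x2840b) (Pf.B 11 7 (Pf.T 11 13 (Pf.cons (Pf.T 11 24 (Pf.cons (Pf.T 11 25 (Pf.cons (Pf.W 74 9 [10] [6,7,8,11] (Pf.cons (Pf.B 12 11 (Pf.B 12 8 (Pf.C 3 0x30588) (Pf.B 12 7 (Pf.C 3 0x30587) (Pf.W 83 8 [7] [6,12] (Pf.cons (Pf.B 13 7 (Pf.C 2 0x1c688) (Pf.B 13 6 (Pf.T 13 12 (Pf.cons (Pf.T 13 23 (Pf.cons (Pf.W 83 8 [7,13] [12] (Pf.cons (Pf.B 14 13 (Pf.C 2 0x34708) (Pf.C 82 0x101c70d)) (Pf.cons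 (Pf.B 14 13 (Pf.C 2 0x34708) (Pf.C 82 0x101c70d)) (Pf.cons (Pf.C 84 0x1a20607) (Pf.cons (Pf.C 75 0x30708) Pf.nil))))) Pf.nil)) Pf.nil)) (Pf.C 2 0x1c30d))) (Pf.cons (Pf.B 13 7 (Pf.C 2 0x1c688) (Pf.W 83 8 [7,13] [12] (Pf.cons (Pf.B 14 7 (Pf.C 2 0x1c708) (Pf.C 84 0x1a20707)) (Pf.cons (Pf.B 14 7 (Pf.C 2 0x1c708) (Pf.C 84 0x1a20707)) (Pf.cons (Pf.C 84 0x1a20607) (Pf.cons (Pf.C 75 0x30708) Pf.nil)))))) (Pf.cons (Pf.W 83 8 [7,12] [] (Pf.cons (Pf.B 13 7 (Pf.C 2 0x1c688) (Pf.C 84 0x1820687)) (Pf.cons (Pf.B 13 7 (Pf.C 2 0x1c688) (Pf.C 84 0x1820687)) (Pf.cons (Pf.C 75 0x30688) Pf.nil)))) (Pf.cons (Pf.C 75 0x30688) Pf.nil))))))) (Pf.C 75 0x2860b)) Pf.nil)) Pf.nil)) Pf.nil)) (Pf.cons (Pf.C 84 0x142430b) Pf.nil)))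 (Pf.C 2 99211))) (Pf.C 2 99339))) (Pf.cons (Pf.C 75 0x28586) Pf.nil)))) Pf.nil)) (Pf.cons (Pf.T 10 28 (Pf.cons (Pf.W 83 6 [9,10] [0,1,7,8] (Pf.cons (Pf.B 11 9 (Pf.C 2 0x24586) (Pf.B 11 8 (Pf.B 11 10 (Pf.C 3 0x2840b) (Pf.T 11 12 (Pf.cons (Pf.T 11 23 (Pf.cons (Pf.W 83 8 [7] [0,1,6,9,10,11] (Pf.cons (Pf.B 12 7 (Pf.C 2 0x1c608) (Pf.B 12 6 (Pf.T 12 12 (Pf.cons (Pf.T 12 23 (Pf.cons (Pf.W 83 8 [7,12] [6,10] (Pf.cons (Pf.B 13 12 (Pf.C 2 0x30688) (Pf.C 82 0x101c68c)) (Pf.cons (Pf.B 13 12 (Pf.C 2 0x30688) (Pf.C 82 0x101c68c)) (Pf.cons (Pf.B 13 7 (Pf.B 13 6 (Pf.C 3 0x34386) (Pf.C 75 0x28686)) (Pf.C 84 0x1820687)) Pf.nil)))) Pf.nil)) Pf.nil)) (Pf.C 2 0x1c30c))) (Pf.cons (Pf.B 12 7 (Pf.C 2 0x1c608) (Pf.W 83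 8 [7,12] [6,10] (Pf.cons (Pf.B 13 7 (Pf.C 2 0x1c688) (Pf.C 84 0x1820687)) (Pf.cons (Pf.B 13 7 (Pf.C 2 0x1c688) (Pf.C 84 0x1820687)) (Pf.cons (Pf.B 13 7 (Pf.B 13 6 (Pf.C 3 0x34386) (Pf.C 75 0x28686)) (Pf.C 84 0x1820687)) Pf.nil))))) (Pf.cons (Pf.B 12 11 (Pf.C 81 0x182430b) (Pf.B 12 10 (Pf.B 12 9 (Pf.C 81 0x182c309) (Pf.B 12 6 (Pf.C 0 0xa1818589) (Pf.C 75 0x28606))) (Pf.C 4 0x1430080))) Pf.nil)))) Pf.nil)) Pf.nil))) (Pf.C 2 99339))) (Pf.cons (Pf.B 11 9 (Pf.C 2 0x24586) (Pf.B 11 8 (Pf.B 11 10 (Pf.C 3 0x2840b) (Pf.B 11 7 (Pf.T 11 13 (Pf.cons (Pf.T 11 24 (Pf.cons (Pf.T 11 25 (Pf.cons (Pf.W 74 9 [10] [6,7,8,11] (Pf.cons (Pf.B 12 11 (Pf.B 12 8 (Pf.C 3 0x30588) (Pf.B 12 7 (Pf.C 3 0x30587) (Pf.W 83 8 [7]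 [6,12] (Pf.cons (Pf.B 13 7 (Pf.C 2 0x1c688) (Pf.B 13 6 (Pf.T 13 12 (Pf.cons (Pf.T 13 23 (Pf.cons (Pf.W 83 8 [7,13] [12] (Pf.cons (Pf.B 14 13 (Pf.C 2 0x34708) (Pf.C 82 0x101c70d)) (Pf.cons (Pf.B 14 13 (Pf.C 2 0x34708) (Pf.C 82 0x101c70d)) (Pf.cons (Pf.C 84 0x1a20607) (Pf.cons (Pf.C 75 0x30708) Pf.nil))))) Pf.nil)) Pf.nil)) (Pf.C 2 0x1c30d))) (Pf.cons (Pf.B 13 7 (Pf.C 2 0x1c688) (Pf.W 83 8 [7,13] [12] (Pf.cons (Pf.B 14 7 (Pf.C 2 0x1c708) (Pf.C 84 0x1a20707)) (Pf.cons (Pf.B 14 7 (Pf.C 2 0x1c708) (Pf.C 84 0x1a20707)) (Pf.cons (Pf.C 84 0x1a20607) (Pf.cons (Pf.C 75 0x30708) Pf.nil)))))) (Pf.cons (Pf.W 83 8 [7,12] [] (Pf.cons (Pf.B 13 7 (Pf.C 2 0x1c688) (Pf.C 84 0x1820687)) (Pf.cons (Pf.B 13 7 (Pf.C 2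 0x1c688) (Pf.C 84 0x1820687)) (Pf.cons (Pf.C 75 0x30688) Pf.nil)))) (Pf.cons (Pf.C 75 0x30688) Pf.nil))))))) (Pf.C 75 0x2860b)) Pf.nil)) Pf.nil)) Pf.nil)) (Pf.cons (Pf.C 84 0x142430b) Pf.nil))) (Pf.C 2 99211))) (Pf.C 2 99339))) (Pf.cons (Pf.C 75 0x28586) Pf.nil)))) Pf.nil)) Pf.nil))) (Pf.cons (Pf.C 75 0x28586) Pf.nil)))))) (Pf.B 10 7 (Pf.B 10 6 (Pf.C 3 0x28386) (Pf.W 74 9 [10] [6,8] (Pf.cons (Pf.B 11 8 (Pf.B 11 6 (Pf.C 3 0x2c406) (Pf.C 75 0x28586)) (Pf.C 75 0x28588)) Pf.nil))) (Pf.W 83 8 [7] [6,10] (Pf.cons (Pf.B 11 7 (Pf.C 2 0x1c588) (Pf.B 11 6 (Pf.T 11 12 (Pf.cons (Pf.T 11 23 (Pf.cons (Pf.W 83 8 [7,11] [10] (Pf.cons (Pf.B 12 11 (Pf.C 2 0x2c608) (Pf.C 82 0x101c60b)) (Pf.cons (Pf.B 12 11 (Pf.C 2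 0x2c608) (Pf.C 82 0x101c60b)) (Pf.cons (Pf.C 84 0x1620507) (Pf.cons (Pf.C 75 0x28608) Pf.nil))))) Pf.nil)) Pf.nil)) (Pf.C 2 0x1c30b))) (Pf.cons (Pf.B 11 7 (Pf.C 2 0x1c588) (Pf.W 83 8 [7,11] [10] (Pf.cons (Pf.B 12 7 (Pf.C 2 0x1c608) (Pf.C 84 0x1620607)) (Pf.cons (Pf.B 12 7 (Pf.C 2 0x1c608) (Pf.C 84 0x1620607)) (Pf.cons (Pf.C 84 0x1620507) (Pf.cons (Pf.C 75 0x28608) Pf.nil)))))) (Pf.cons (Pf.W 83 8 [7,10] [] (Pf.cons (Pf.B 11 7 (Pf.C 2 0x1c588) (Pf.C 84 0x1420587)) (Pf.cons (Pf.B 11 7 (Pf.C 2 0x1c588) (Pf.C 84 0x1420587)) (Pf.cons (Pf.C 75 0x28588) Pf.nil)))) (Pf.cons (Pf.C 75 0x28588) Pf.nil))))))) Pf.nil)) Pf.nil)) Pf.nil)) (Pf.C 2 99209)) (Pf.C 2 99337)) (Pf.cons (Pf.B 9 8 (Pf.B 9 7 (Pf.T 9 13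 (Pf.cons (Pf.T 9 24 (Pf.cons (Pf.T 9 25 (Pf.cons (Pf.W 83 6 [9] [7,8] (Pf.cons (Pf.B 10 9 (Pf.C 2 0x24506) (Pf.B 10 8 (Pf.B 10 7 (Pf.T 10 12 (Pf.cons (Pf.T 10 23 (Pf.cons (Pf.W 83 6 [9,10] [7,8] (Pf.cons (Pf.B 11 10 (Pf.C 2 0x28586) (Pf.C 82 0x121858a)) (Pf.cons (Pf.B 11 10 (Pf.C 2 0x28586) (Pf.C 82 0x121858a)) (Pf.cons (Pf.B 11 9 (Pf.B 11 8 (Pf.C 3 0x2c488) (Pf.B 11 7 (Pf.C 3 0x2c487) (Pf.T 11 14 (Pf.cons (Pf.T 11 27 (Pf.cons (Pf.C 105 1416) Pf.nil)) (Pf.cons (Pf.C 89 0x101c30b) Pf.nil))))) (Pf.T 11 14 (Pf.cons (Pf.T 11 27 (Pf.cons (Pf.W 74 10 [11] [6,7,8,9] (Pf.cons (Pf.B 12 9 (Pf.B 12 8 (Pf.C 3 0x30488) (Pf.B 12 7 (Pf.C 3 0x30487) (Pf.W 83 8 [7] [6,12] (Pf.cons (Pf.B 13 7 (Pf.C 2 0x1c688) (Pf.B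 13 6 (Pf.T 13 12 (Pf.cons (Pf.T 13 23 (Pf.cons (Pf.W 83 8 [7,13] [12] (Pf.cons (Pf.B 14 13 (Pf.C 2 0x34708) (Pf.C 82 0x101c70d)) (Pf.cons (Pf.B 14 13 (Pf.C 2 0x34708) (Pf.C 82 0x101c70d)) (Pf.cons (Pf.C 84 0x1a20607) (Pf.cons (Pf.C 75 0x30708) Pf.nil))))) Pf.nil)) Pf.nil)) (Pf.C 2 0x1c30d))) (Pf.cons (Pf.B 13 7 (Pf.C 2 0x1c688) (Pf.W 83 8 [7,13] [12] (Pf.cons (Pf.B 14 7 (Pf.C 2 0x1c708) (Pf.C 84 0x1a20707)) (Pf.cons (Pf.B 14 7 (Pf.C 2 0x1c708) (Pf.C 84 0x1a20707)) (Pf.cons (Pf.C 84 0x1a20607) (Pf.cons (Pf.C 75 0x30708) Pf.nil)))))) (Pf.cons (Pf.W 83 8 [7,12] [] (Pf.cons (Pf.B 13 7 (Pf.C 2 0x1c688) (Pf.C 84 0x1820687)) (Pf.cons (Pf.B 13 7 (Pf.C 2 0x1c688) (Pf.C 84 0x1820687)) (Pf.cons (Pf.C 75 0x30688)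 Pf.nil)))) (Pf.cons (Pf.C 75 0x30688) Pf.nil))))))) (Pf.C 75 0x2c609)) Pf.nil)) Pf.nil)) (Pf.cons (Pf.T 11 28 (Pf.cons (Pf.W 74 10 [11] [6,7,8,9] (Pf.cons (Pf.B 12 9 (Pf.B 12 8 (Pf.C 3 0x30488) (Pf.B 12 7 (Pf.C 3 0x30487) (Pf.W 83 8 [7] [6,12] (Pf.cons (Pf.B 13 7 (Pf.C 2 0x1c688) (Pf.B 13 6 (Pf.T 13 12 (Pf.cons (Pf.T 13 23 (Pf.cons (Pf.W 83 8 [7,13] [12] (Pf.cons (Pf.B 14 13 (Pf.C 2 0x34708) (Pf.C 82 0x101c70d)) (Pf.cons (Pf.B 14 13 (Pf.C 2 0x34708) (Pf.C 82 0x101c70d)) (Pf.cons (Pf.C 84 0x1a20607) (Pf.cons (Pf.C 75 0x30708) Pf.nil))))) Pf.nil)) Pf.nil)) (Pf.C 2 0x1c30d))) (Pf.cons (Pf.B 13 7 (Pf.C 2 0x1c688) (Pf.W 83 8 [7,13] [12] (Pf.cons (Pf.B 14 7 (Pf.C 2 0x1c708) (Pf.C 84 0x1a20707)) (Pf.cons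 (Pf.B 14 7 (Pf.C 2 0x1c708) (Pf.C 84 0x1a20707)) (Pf.cons (Pf.C 84 0x1a20607) (Pf.cons (Pf.C 75 0x30708) Pf.nil)))))) (Pf.cons (Pf.W 83 8 [7,12] [] (Pf.cons (Pf.B 13 7 (Pf.C 2 0x1c688) (Pf.C 84 0x1820687)) (Pf.cons (Pf.B 13 7 (Pf.C 2 0x1c688) (Pf.C 84 0x1820687)) (Pf.cons (Pf.C 75 0x30688) Pf.nil)))) (Pf.cons (Pf.C 75 0x30688) Pf.nil))))))) (Pf.C 75 0x2c609)) Pf.nil)) Pf.nil)) Pf.nil)))) Pf.nil)))) Pf.nil)) Pf.nil)) (Pf.C 2 99210)) (Pf.C 2 99338))) (Pf.cons (Pf.B 10 9 (Pf.C 2 0x24506) (Pf.B 10 8 (Pf.B 10 7 (Pf.T 10 13 (Pf.cons (Pf.T 10 24 (Pf.cons (Pf.T 10 25 (Pf.cons (Pf.W 83 6 [9,10] [7,8] (Pf.cons (Pf.B 11 10 (Pf.C 2 0x28586) (Pf.B 11 9 (Pf.C 2 0x24586) (Pf.T 11 12 (Pf.cons (Pf.C 82 0x142430b)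 Pf.nil)))) (Pf.cons (Pf.B 11 10 (Pf.C 2 0x28586) (Pf.B 11 9 (Pf.C 2 0x24586) (Pf.B 11 8 (Pf.B 11 7 (Pf.T 11 13 (Pf.cons (Pf.T 11 24 (Pf.cons (Pf.T 11 25 (Pf.cons (Pf.W 83 8 [7] [6,9,10,11] (Pf.cons (Pf.B 12 7 (Pf.C 2 0x1c608) (Pf.B 12 6 (Pf.T 12 12 (Pf.cons (Pf.T 12 23 (Pf.cons (Pf.T 12 29 (Pf.cons (Pf.W 102 12 [] [7,8] (Pf.cons (Pf.C 81 0x1a2038c) (Pf.cons (Pf.C 81 0x1a2038c) Pf.nil))) (Pf.cons (Pf.W 83 8 [7,12] [6,9] (Pf.cons (Pf.B 13 12 (Pf.C 2 0x30688) (Pf.C 82 0x101c68c)) (Pf.cons (Pf.B 13 12 (Pf.C 2 0x30688) (Pf.C 82 0x101c68c)) (Pf.cons (Pf.B 13 7 (Pf.B 13 9 (Pf.C 3 0x34389) (Pf.B 13 6 (Pf.C 3 0x34386) (Pf.T 13 14 (Pf.cons (Pf.T 13 27 (Pf.cons (Pf.C 105 1672) Pf.nil)) (Pf.cons (Pf.C 89 0x122030d)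 Pf.nil))))) (Pf.C 84 0x1820687)) Pf.nil)))) Pf.nil))) Pf.nil)) Pf.nil)) (Pf.C 2 0x1c30c))) (Pf.cons (Pf.B 12 11 (Pf.B 12 9 (Pf.B 12 7 (Pf.C 2 0x1c608) (Pf.B 12 6 (Pf.T 12 13 (Pf.cons (Pf.T 12 24 (Pf.cons (Pf.T 12 25 (Pf.cons (Pf.T 12 30 (Pf.cons (Pf.W 104 12 [] [7,8,11] (Pf.cons (Pf.B 13 8 (Pf.B 13 11 (Pf.C 3 0x3440b) (Pf.W 83 8 [7,12] [11,13] (Pf.cons (Pf.B 14 7 (Pf.C 2 0x1c708) (Pf.C 84 0x1820707)) (Pf.cons (Pf.B 14 7 (Pf.C 2 0x1c708) (Pf.C 84 0x1820707)) (Pf.cons (Pf.B 14 12 (Pf.B 14 11 (Pf.C 3 0x3860b) (Pf.C 75 0x3470b)) (Pf.C 75 0x3470c)) Pf.nil))))) (Pf.C 105 1672)) Pf.nil)) (Pf.cons (Pf.W 83 8 [7,12] [6,9] (Pf.cons (Pf.B 13 7 (Pf.C 2 0x1c688) (Pf.C 84 0x1820687)) (Pf.cons (Pf.B 13 7 (Pf.C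 2 0x1c688) (Pf.C 84 0x1820687)) (Pf.cons (Pf.B 13 7 (Pf.B 13 9 (Pf.C 3 0x34389) (Pf.B 13 6 (Pf.C 3 0x34386) (Pf.T 13 14 (Pf.cons (Pf.T 13 27 (Pf.cons (Pf.C 105 1672) Pf.nil)) (Pf.cons (Pf.C 89 0x122030d) Pf.nil))))) (Pf.C 84 0x1820687)) Pf.nil)))) Pf.nil))) Pf.nil)) Pf.nil)) (Pf.cons (Pf.T 12 26 (Pf.cons (Pf.T 12 31 (Pf.cons (Pf.W 106 12 [] [7,8] (Pf.cons (Pf.C 84 0x101c68c) (Pf.cons (Pf.C 84 0x101c68c) Pf.nil))) (Pf.cons (Pf.W 83 8 [7,12] [6,9] (Pf.cons (Pf.B 13 12 (Pf.C 2 0x30688) (Pf.C 84 0x101c68c)) (Pf.cons (Pf.B 13 12 (Pf.C 2 0x30688) (Pf.C 84 0x101c68c)) (Pf.cons (Pf.B 13 12 (Pf.B 13 9 (Pf.C 3 0x34609) (Pf.B 13 7 (Pf.B 13 6 (Pf.C 3 0x34386) (Pf.T 13 14 (Pf.cons (Pf.T 13 27 (Pf.cons (Pf.C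 105 1672) Pf.nil)) (Pf.cons (Pf.C 89 0x122030d) Pf.nil)))) (Pf.C 84 0x1820687))) (Pf.C 84 0x101c68c)) Pf.nil)))) Pf.nil))) Pf.nil)) Pf.nil))) (Pf.C 2 0x1c30c))) (Pf.C 2 0x2048c)) (Pf.C 2 0x2058c)) (Pf.cons (Pf.B 12 11 (Pf.B 12 7 (Pf.C 3 0x30587) (Pf.W 83 8 [7,12] [] (Pf.cons (Pf.B 13 7 (Pf.C 2 0x1c688) (Pf.C 84 0x1820687)) (Pf.cons (Pf.B 13 7 (Pf.C 2 0x1c688) (Pf.C 84 0x1820687)) (Pf.cons (Pf.C 75 0x30688) Pf.nil))))) (Pf.B 12 10 (Pf.B 12 7 (Pf.C 3 0x30507) (Pf.B 12 9 (Pf.B 12 6 (Pf.T 12 14 (Pf.cons (Pf.T 12 27 (Pf.cons (Pf.T 12 32 (Pf.cons (Pf.W 83 8 [7,12] [] (Pf.cons (Pf.B 13 7 (Pf.C 2 0x1c688) (Pf.C 84 0x1820687)) (Pf.cons (Pf.B 13 7 (Pf.C 2 0x1c688) (Pf.C 84 0x1820687)) (Pf.cons (Pf.C 75 0x30688)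 Pf.nil)))) (Pf.cons (Pf.C 109 1420) Pf.nil))) Pf.nil)) (Pf.cons (Pf.C 89 0x162038c) Pf.nil))) (Pf.C 0 0xa1824586)) (Pf.B 12 6 (Pf.C 0 0xa1818589) (Pf.T 12 14 (Pf.cons (Pf.T 12 27 (Pf.cons (Pf.C 105 1544) Pf.nil)) (Pf.cons (Pf.C 89 0x101c30c) Pf.nil)))))) (Pf.B 12 9 (Pf.B 12 7 (Pf.C 3 0x30487) (Pf.B 12 6 (Pf.C 0 0x9181858a) (Pf.T 12 14 (Pf.cons (Pf.T 12 27 (Pf.cons (Pf.C 105 1544) Pf.nil)) (Pf.cons (Pf.C 89 0x101c30c) Pf.nil))))) (Pf.B 12 7 (Pf.B 12 6 (Pf.C 3 0x30386) (Pf.T 12 14 (Pf.cons (Pf.T 12 27 (Pf.cons (Pf.C 105 1544) Pf.nil)) (Pf.cons (Pf.C 89 0x122030c) Pf.nil)))) (Pf.T 12 14 (Pf.cons (Pf.T 12 27 (Pf.cons (Pf.T 12 32 (Pf.cons (Pf.W 83 8 [7,12] [] (Pf.cons (Pf.B 13 7 (Pf.C 2 0x1c688) (Pf.C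 84 0x1820687)) (Pf.cons (Pf.B 13 7 (Pf.C 2 0x1c688) (Pf.C 84 0x1820687)) (Pf.cons (Pf.C 75 0x30688) Pf.nil)))) (Pf.cons (Pf.C 109 1164) Pf.nil))) (Pf.cons (Pf.C 105 1544) Pf.nil))) (Pf.cons (Pf.C 89 0x122038c) Pf.nil))))))) Pf.nil)))) Pf.nil)) Pf.nil)) (Pf.cons (Pf.C 84 0x142430b) Pf.nil))) (Pf.C 2 99211)) (Pf.C 2 99339)))) (Pf.cons (Pf.B 11 10 (Pf.B 11 8 (Pf.C 3 0x2c508) (Pf.B 11 7 (Pf.C 3 0x2c507) (Pf.T 11 14 (Pf.cons (Pf.T 11 27 (Pf.cons (Pf.C 105 1416) Pf.nil)) (Pf.cons (Pf.C 89 0x101c30b) Pf.nil))))) (Pf.B 11 9 (Pf.B 11 8 (Pf.C 3 0x2c488) (Pf.B 11 7 (Pf.C 3 0x2c487) (Pf.T 11 14 (Pf.cons (Pf.T 11 27 (Pf.cons (Pf.C 105 1416) Pf.nil)) (Pf.cons (Pf.C 89 0x101c30b) Pf.nil))))) (Pf.B 11 8 (Pf.T 11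 14 (Pf.cons (Pf.T 11 27 (Pf.cons (Pf.W 83 8 [7] [6,9,11] (Pf.cons (Pf.B 12 7 (Pf.C 2 0x1c608) (Pf.B 12 6 (Pf.T 12 12 (Pf.cons (Pf.T 12 23 (Pf.cons (Pf.W 83 8 [7,12] [9,11] (Pf.cons (Pf.B 13 12 (Pf.C 2 0x30688) (Pf.C 82 0x101c68c)) (Pf.cons (Pf.B 13 12 (Pf.C 2 0x30688) (Pf.C 82 0x101c68c)) (Pf.cons (Pf.B 13 9 (Pf.B 13 7 (Pf.C 3 0x34487) (Pf.C 84 0x1820687)) (Pf.C 75 0x2c689)) Pf.nil)))) Pf.nil)) Pf.nil)) (Pf.C 2 0x1c30c))) (Pf.cons (Pf.B 12 7 (Pf.C 2 0x1c608) (Pf.W 83 8 [7,12] [9,11] (Pf.cons (Pf.B 13 7 (Pf.C 2 0x1c688) (Pf.C 84 0x1820687)) (Pf.cons (Pf.B 13 7 (Pf.C 2 0x1c688) (Pf.C 84 0x1820687)) (Pf.cons (Pf.B 13 9 (Pf.B 13 7 (Pf.C 3 0x34487) (Pf.C 84 0x1820687)) (Pf.C 75 0x2c689)) Pf.nil)))))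 (Pf.cons (Pf.B 12 9 (Pf.B 12 7 (Pf.C 3 0x30487) (Pf.W 83 8 [7,12] [] (Pf.cons (Pf.B 13 7 (Pf.C 2 0x1c688) (Pf.C 84 0x1820687)) (Pf.cons (Pf.B 13 7 (Pf.C 2 0x1c688) (Pf.C 84 0x1820687)) (Pf.cons (Pf.C 75 0x30688) Pf.nil))))) (Pf.C 75 0x2c609)) Pf.nil)))) Pf.nil)) (Pf.cons (Pf.C 89 0x142430b) Pf.nil))) (Pf.T 11 14 (Pf.cons (Pf.T 11 27 (Pf.cons (Pf.C 105 1416) Pf.nil)) (Pf.cons (Pf.C 89 0x122030b) Pf.nil)))))) Pf.nil)))) Pf.nil)) Pf.nil)) (Pf.cons (Pf.T 10 26 (Pf.cons (Pf.W 83 6 [9,10] [7,8] (Pf.cons (Pf.B 11 10 (Pf.C 2 0x28586) (Pf.C 84 0x121858a)) (Pf.cons (Pf.B 11 10 (Pf.C 2 0x28586) (Pf.C 84 0x121858a)) (Pf.cons (Pf.B 11 10 (Pf.B 11 8 (Pf.C 3 0x2c508) (Pf.B 11 7 (Pf.C 3 0x2c507) (Pf.T 11 14 (Pf.cons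 (Pf.T 11 27 (Pf.cons (Pf.C 105 1416) Pf.nil)) (Pf.cons (Pf.C 89 0x101c30b) Pf.nil))))) (Pf.C 84 0x121858a)) Pf.nil)))) Pf.nil)) Pf.nil))) (Pf.C 2 99210)) (Pf.C 2 99338))) (Pf.cons (Pf.B 10 9 (Pf.B 10 8 (Pf.C 3 0x28488) (Pf.B 10 7 (Pf.C 3 0x28487) (Pf.T 10 14 (Pf.cons (Pf.T 10 27 (Pf.cons (Pf.C 105 1288) Pf.nil)) (Pf.cons (Pf.C 89 0x101c30a) Pf.nil))))) (Pf.B 10 8 (Pf.T 10 14 (Pf.cons (Pf.T 10 27 (Pf.cons (Pf.W 83 8 [7] [6,9,10] (Pf.cons (Pf.B 11 7 (Pf.C 2 0x1c588) (Pf.B 11 6 (Pf.T 11 12 (Pf.cons (Pf.T 11 23 (Pf.cons (Pf.W 83 8 [7,11] [9,10] (Pf.cons (Pf.B 12 11 (Pf.C 2 0x2c608) (Pf.C 82 0x101c60b)) (Pf.cons (Pf.B 12 11 (Pf.C 2 0x2c608) (Pf.C 82 0x101c60b)) (Pf.cons (Pf.B 12 9 (Pf.B 12 7 (Pf.C 3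 0x30487) (Pf.C 84 0x1620607)) (Pf.C 75 0x28609)) Pf.nil)))) Pf.nil)) Pf.nil)) (Pf.C 2 0x1c30b))) (Pf.cons (Pf.B 11 7 (Pf.C 2 0x1c588) (Pf.W 83 8 [7,11] [9,10] (Pf.cons (Pf.B 12 7 (Pf.C 2 0x1c608) (Pf.C 84 0x1620607)) (Pf.cons (Pf.B 12 7 (Pf.C 2 0x1c608) (Pf.C 84 0x1620607)) (Pf.cons (Pf.B 12 9 (Pf.B 12 7 (Pf.C 3 0x30487) (Pf.C 84 0x1620607)) (Pf.C 75 0x28609)) Pf.nil))))) (Pf.cons (Pf.B 11 9 (Pf.B 11 7 (Pf.C 3 0x2c487) (Pf.W 83 8 [7,11] [] (Pf.cons (Pf.B 12 7 (Pf.C 2 0x1c608) (Pf.C 84 0x1620607)) (Pf.cons (Pf.B 12 7 (Pf.C 2 0x1c608) (Pf.C 84 0x1620607)) (Pf.cons (Pf.C 75 0x2c608) Pf.nil))))) (Pf.C 75 0x28589)) Pf.nil)))) Pf.nil)) (Pf.cons (Pf.T 10 28 (Pf.cons (Pf.W 83 6 [9,10] [7,8] (Pf.cons (Pf.B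 11 8 (Pf.B 11 7 (Pf.T 11 12 (Pf.cons (Pf.T 11 23 (Pf.cons (Pf.W 74 11 [10] [6,7,8,9] (Pf.cons (Pf.B 12 9 (Pf.B 12 8 (Pf.C 3 0x30488) (Pf.B 12 7 (Pf.C 3 0x30487) (Pf.W 83 8 [7] [6,12] (Pf.cons (Pf.B 13 7 (Pf.C 2 0x1c688) (Pf.B 13 6 (Pf.T 13 12 (Pf.cons (Pf.T 13 23 (Pf.cons (Pf.W 83 8 [7,13] [12] (Pf.cons (Pf.B 14 13 (Pf.C 2 0x34708) (Pf.C 82 0x101c70d)) (Pf.cons (Pf.B 14 13 (Pf.C 2 0x34708) (Pf.C 82 0x101c70d)) (Pf.cons (Pf.C 84 0x1a20607) (Pf.cons (Pf.C 75 0x30708) Pf.nil))))) Pf.nil)) Pf.nil)) (Pf.C 2 0x1c30d))) (Pf.cons (Pf.B 13 7 (Pf.C 2 0x1c688) (Pf.W 83 8 [7,13] [12] (Pf.cons (Pf.B 14 7 (Pf.C 2 0x1c708) (Pf.C 84 0x1a20707)) (Pf.cons (Pf.B 14 7 (Pf.C 2 0x1c708) (Pf.C 84 0x1a20707)) (Pf.cons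 (Pf.C 84 0x1a20607) (Pf.cons (Pf.C 75 0x30708) Pf.nil)))))) (Pf.cons (Pf.W 83 8 [7,12] [] (Pf.cons (Pf.B 13 7 (Pf.C 2 0x1c688) (Pf.C 84 0x1820687)) (Pf.cons (Pf.B 13 7 (Pf.C 2 0x1c688) (Pf.C 84 0x1820687)) (Pf.cons (Pf.C 75 0x30688) Pf.nil)))) (Pf.cons (Pf.C 75 0x30688) Pf.nil))))))) (Pf.C 75 0x28609)) Pf.nil)) Pf.nil)) Pf.nil)) (Pf.C 2 99211)) (Pf.C 2 99339)) (Pf.cons (Pf.B 11 10 (Pf.B 11 8 (Pf.C 3 0x2840b) (Pf.C 2 99339)) (Pf.C 89 0x121858a)) (Pf.cons (Pf.C 75 0x28586) Pf.nil)))) Pf.nil)) Pf.nil))) (Pf.T 10 14 (Pf.cons (Pf.T 10 27 (Pf.cons (Pf.C 105 1288) Pf.nil)) (Pf.cons (Pf.C 89 0x122030a) Pf.nil))))) Pf.nil)))) Pf.nil)) Pf.nil)) (Pf.cons (Pf.T 9 26 (Pf.cons (Pf.W 83 6 [9] [7,8] (Pf.cons (Pf.B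 10 9 (Pf.C 2 0x24506) (Pf.T 10 12 (Pf.cons (Pf.T 10 23 (Pf.cons (Pf.W 83 6 [9,10] [7,8] (Pf.cons (Pf.B 11 10 (Pf.C 2 0x28586) (Pf.C 82 0x121858a)) (Pf.cons (Pf.B 11 10 (Pf.C 2 0x28586) (Pf.C 82 0x121858a)) (Pf.cons (Pf.B 11 9 (Pf.B 11 8 (Pf.C 3 0x2c488) (Pf.B 11 7 (Pf.C 3 0x2c487) (Pf.T 11 14 (Pf.cons (Pf.T 11 27 (Pf.cons (Pf.C 105 1416) Pf.nil)) (Pf.cons (Pf.C 89 0x101c30b) Pf.nil))))) (Pf.C 84 0x1418589)) Pf.nil)))) Pf.nil)) Pf.nil))) (Pf.cons (Pf.B 10 9 (Pf.C 2 0x24506) (Pf.T 10 13 (Pf.cons (Pf.T 10 24 (Pf.cons (Pf.T 10 25 (Pf.cons (Pf.W 83 6 [9,10] [7,8] (Pf.cons (Pf.B 11 9 (Pf.C 2 0x24586) (Pf.C 84 0x1418589)) (Pf.cons (Pf.B 11 9 (Pf.C 2 0x24586) (Pf.C 84 0x1418589)) (Pf.cons (Pf.B 11 9 (Pf.B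 11 8 (Pf.C 3 0x2c488) (Pf.B 11 7 (Pf.C 3 0x2c487) (Pf.T 11 14 (Pf.cons (Pf.T 11 27 (Pf.cons (Pf.C 105 1416) Pf.nil)) (Pf.cons (Pf.C 89 0x101c30b) Pf.nil))))) (Pf.C 84 0x1418589)) Pf.nil)))) Pf.nil)) Pf.nil)) (Pf.cons (Pf.T 10 26 (Pf.cons (Pf.W 83 6 [9,10] [7,8] (Pf.cons (Pf.B 11 10 (Pf.C 2 0x28586) (Pf.C 84 0x121858a)) (Pf.cons (Pf.B 11 10 (Pf.C 2 0x28586) (Pf.C 84 0x121858a)) (Pf.cons (Pf.B 11 9 (Pf.B 11 8 (Pf.C 3 0x2c488) (Pf.B 11 7 (Pf.C 3 0x2c487) (Pf.T 11 14 (Pf.cons (Pf.T 11 27 (Pf.cons (Pf.C 105 1416) Pf.nil)) (Pf.cons (Pf.C 89 0x101c30b) Pf.nil))))) (Pf.C 84 0x1418589)) Pf.nil)))) Pf.nil)) Pf.nil)))) (Pf.cons (Pf.B 10 9 (Pf.B 10 8 (Pf.C 3 0x28488) (Pf.B 10 7 (Pf.C 3 0x28487) (Pf.T 10 14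 (Pf.cons (Pf.T 10 27 (Pf.cons (Pf.C 105 1288) Pf.nil)) (Pf.cons (Pf.C 89 0x101c30a) Pf.nil))))) (Pf.W 83 6 [9,10] [] (Pf.cons (Pf.B 11 9 (Pf.C 2 0x24586) (Pf.C 84 0x1418589)) (Pf.cons (Pf.B 11 9 (Pf.C 2 0x24586) (Pf.C 84 0x1418589)) (Pf.cons (Pf.C 75 0x28586) Pf.nil))))) Pf.nil)))) Pf.nil)) Pf.nil))) (Pf.C 2 99209)) (Pf.C 2 99337)) (Pf.cons (Pf.B 9 8 (Pf.T 9 14 (Pf.cons (Pf.T 9 27 (Pf.cons (Pf.W 83 6 [9] [0,1,7,8] (Pf.cons (Pf.B 10 8 (Pf.B 10 9 (Pf.C 3 0x2440a) (Pf.B 10 7 (Pf.T 10 12 (Pf.cons (Pf.T 10 23 (Pf.cons (Pf.W 83 6 [9,10] [0,1,7,8] (Pf.cons (Pf.B 11 10 (Pf.C 2 0x28586) (Pf.B 11 8 (Pf.B 11 9 (Pf.C 3 0x2440b) (Pf.T 11 12 (Pf.cons (Pf.T 11 23 (Pf.cons (Pf.W 83 8 [7] [0,1,6,9,10,11] (Pf.cons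 (Pf.B 12 7 (Pf.C 2 0x1c608) (Pf.B 12 6 (Pf.T 12 12 (Pf.cons (Pf.T 12 23 (Pf.cons (Pf.W 83 8 [7,12] [6,9] (Pf.cons (Pf.B 13 12 (Pf.C 2 0x30688) (Pf.C 82 0x101c68c)) (Pf.cons (Pf.B 13 12 (Pf.C 2 0x30688) (Pf.C 82 0x101c68c)) (Pf.cons (Pf.B 13 7 (Pf.B 13 6 (Pf.C 3 0x34386) (Pf.C 75 0x24686)) (Pf.C 84 0x1820687)) Pf.nil)))) Pf.nil)) Pf.nil)) (Pf.C 2 0x1c30c))) (Pf.cons (Pf.B 12 7 (Pf.C 2 0x1c608) (Pf.W 83 8 [7,12] [6,9] (Pf.cons (Pf.B 13 7 (Pf.C 2 0x1c688) (Pf.C 84 0x1820687)) (Pf.cons (Pf.B 13 7 (Pf.C 2 0x1c688) (Pf.C 84 0x1820687)) (Pf.cons (Pf.B 13 7 (Pf.B 13 6 (Pf.C 3 0x34386) (Pf.C 75 0x24686)) (Pf.C 84 0x1820687)) Pf.nil))))) (Pf.cons (Pf.B 12 11 (Pf.C 81 0x182830b) (Pf.B 12 10 (Pf.C 81 0x182c30a)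 (Pf.B 12 9 (Pf.B 12 6 (Pf.C 0 0x9181858a) (Pf.C 75 0x24606)) (Pf.C 4 0x1230080)))) Pf.nil)))) Pf.nil)) Pf.nil))) (Pf.C 2 99339))) (Pf.cons (Pf.B 11 10 (Pf.C 2 0x28586) (Pf.B 11 8 (Pf.B 11 9 (Pf.C 3 0x2440b) (Pf.B 11 7 (Pf.T 11 13 (Pf.cons (Pf.T 11 24 (Pf.cons (Pf.T 11 25 (Pf.cons (Pf.W 74 10 [9] [6,7,8,11] (Pf.cons (Pf.B 12 11 (Pf.B 12 8 (Pf.C 3 0x30588) (Pf.B 12 7 (Pf.C 3 0x30587) (Pf.W 83 8 [7] [6,12] (Pf.cons (Pf.B 13 7 (Pf.C 2 0x1c688) (Pf.B 13 6 (Pf.T 13 12 (Pf.cons (Pf.T 13 23 (Pf.cons (Pf.W 83 8 [7,13] [12] (Pf.cons (Pf.B 14 13 (Pf.C 2 0x34708) (Pf.C 82 0x101c70d)) (Pf.cons (Pf.B 14 13 (Pf.C 2 0x34708) (Pf.C 82 0x101c70d)) (Pf.cons (Pf.C 84 0x1a20607) (Pf.cons (Pf.C 75 0x30708) Pf.nil)))))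 Pf.nil)) Pf.nil)) (Pf.C 2 0x1c30d))) (Pf.cons (Pf.B 13 7 (Pf.C 2 0x1c688) (Pf.W 83 8 [7,13] [12] (Pf.cons (Pf.B 14 7 (Pf.C 2 0x1c708) (Pf.C 84 0x1a20707)) (Pf.cons (Pf.B 14 7 (Pf.C 2 0x1c708) (Pf.C 84 0x1a20707)) (Pf.cons (Pf.C 84 0x1a20607) (Pf.cons (Pf.C 75 0x30708) Pf.nil)))))) (Pf.cons (Pf.W 83 8 [7,12] [] (Pf.cons (Pf.B 13 7 (Pf.C 2 0x1c688) (Pf.C 84 0x1820687)) (Pf.cons (Pf.B 13 7 (Pf.C 2 0x1c688) (Pf.C 84 0x1820687)) (Pf.cons (Pf.C 75 0x30688) Pf.nil)))) (Pf.cons (Pf.C 75 0x30688) Pf.nil))))))) (Pf.C 75 0x2460b)) Pf.nil)) Pf.nil)) Pf.nil)) (Pf.cons (Pf.C 84 0x142430b) Pf.nil))) (Pf.C 2 99211))) (Pf.C 2 99339))) (Pf.cons (Pf.C 75 0x24586) Pf.nil)))) Pf.nil)) Pf.nil)) (Pf.C 2 99210))) (Pf.C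 2 99338)) (Pf.cons (Pf.B 10 8 (Pf.B 10 9 (Pf.C 3 0x2440a) (Pf.B 10 7 (Pf.T 10 13 (Pf.cons (Pf.T 10 24 (Pf.cons (Pf.T 10 25 (Pf.cons (Pf.W 83 8 [7] [6,9,10] (Pf.cons (Pf.B 11 7 (Pf.C 2 0x1c588) (Pf.B 11 6 (Pf.T 11 12 (Pf.cons (Pf.T 11 23 (Pf.cons (Pf.W 83 8 [7,11] [9,10] (Pf.cons (Pf.B 12 11 (Pf.C 2 0x2c608) (Pf.C 82 0x101c60b)) (Pf.cons (Pf.B 12 11 (Pf.C 2 0x2c608) (Pf.C 82 0x101c60b)) (Pf.cons (Pf.B 12 10 (Pf.B 12 7 (Pf.C 3 0x30507) (Pf.C 84 0x1620607)) (Pf.C 75 0x2460a)) Pf.nil)))) Pf.nil)) Pf.nil)) (Pf.C 2 0x1c30b))) (Pf.cons (Pf.B 11 7 (Pf.C 2 0x1c588) (Pf.W 83 8 [7,11] [9,10] (Pf.cons (Pf.B 12 7 (Pf.C 2 0x1c608) (Pf.C 84 0x1620607)) (Pf.cons (Pf.B 12 7 (Pf.C 2 0x1c608) (Pf.C 84 0x1620607))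 (Pf.cons (Pf.B 12 10 (Pf.B 12 7 (Pf.C 3 0x30507) (Pf.C 84 0x1620607)) (Pf.C 75 0x2460a)) Pf.nil))))) (Pf.cons (Pf.B 11 10 (Pf.B 11 7 (Pf.C 3 0x2c507) (Pf.W 83 8 [7,11] [] (Pf.cons (Pf.B 12 7 (Pf.C 2 0x1c608) (Pf.C 84 0x1620607)) (Pf.cons (Pf.B 12 7 (Pf.C 2 0x1c608) (Pf.C 84 0x1620607)) (Pf.cons (Pf.C 75 0x2c608) Pf.nil))))) (Pf.C 75 0x2458a)) Pf.nil)))) Pf.nil)) Pf.nil)) (Pf.cons (Pf.T 10 26 (Pf.cons (Pf.W 83 6 [9,10] [] (Pf.cons (Pf.B 11 10 (Pf.C 2 0x28586) (Pf.C 84 0x121858a)) (Pf.cons (Pf.B 11 10 (Pf.C 2 0x28586) (Pf.C 84 0x121858a)) (Pf.cons (Pf.C 75 0x24586) Pf.nil)))) Pf.nil)) Pf.nil))) (Pf.C 2 99210))) (Pf.C 2 99338)) (Pf.cons (Pf.C 75 0x24506) Pf.nil)))) Pf.nil)) (Pf.cons (Pf.T 9 28 (Pf.cons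 (Pf.W 83 6 [9] [0,1,7,8] (Pf.cons (Pf.B 10 8 (Pf.B 10 9 (Pf.C 3 0x2440a) (Pf.B 10 7 (Pf.T 10 12 (Pf.cons (Pf.T 10 23 (Pf.cons (Pf.W 83 6 [9,10] [0,1,7,8] (Pf.cons (Pf.B 11 10 (Pf.C 2 0x28586) (Pf.B 11 8 (Pf.B 11 9 (Pf.C 3 0x2440b) (Pf.T 11 12 (Pf.cons (Pf.T 11 23 (Pf.cons (Pf.W 83 8 [7] [0,1,6,9,10,11] (Pf.cons (Pf.B 12 7 (Pf.C 2 0x1c608) (Pf.B 12 6 (Pf.T 12 12 (Pf.cons (Pf.T 12 23 (Pf.cons (Pf.W 83 8 [7,12] [6,9] (Pf.cons (Pf.B 13 12 (Pf.C 2 0x30688) (Pf.C 82 0x101c68c)) (Pf.cons (Pf.B 13 12 (Pf.C 2 0x30688) (Pf.C 82 0x101c68c)) (Pf.cons (Pf.B 13 7 (Pf.B 13 6 (Pf.C 3 0x34386) (Pf.C 75 0x24686)) (Pf.C 84 0x1820687)) Pf.nil)))) Pf.nil)) Pf.nil)) (Pf.C 2 0x1c30c))) (Pf.cons (Pf.B 12 7 (Pf.C 2 0x1c608)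 (Pf.W 83 8 [7,12] [6,9] (Pf.cons (Pf.B 13 7 (Pf.C 2 0x1c688) (Pf.C 84 0x1820687)) (Pf.cons (Pf.B 13 7 (Pf.C 2 0x1c688) (Pf.C 84 0x1820687)) (Pf.cons (Pf.B 13 7 (Pf.B 13 6 (Pf.C 3 0x34386) (Pf.C 75 0x24686)) (Pf.C 84 0x1820687)) Pf.nil))))) (Pf.cons (Pf.B 12 11 (Pf.C 81 0x182830b) (Pf.B 12 10 (Pf.C 81 0x182c30a) (Pf.B 12 9 (Pf.B 12 6 (Pf.C 0 0x9181858a) (Pf.C 75 0x24606)) (Pf.C 4 0x1230080)))) Pf.nil)))) Pf.nil)) Pf.nil))) (Pf.C 2 99339))) (Pf.cons (Pf.B 11 10 (Pf.C 2 0x28586) (Pf.B 11 8 (Pf.B 11 9 (Pf.C 3 0x2440b) (Pf.B 11 7 (Pf.T 11 13 (Pf.cons (Pf.T 11 24 (Pf.cons (Pf.T 11 25 (Pf.cons (Pf.W 74 10 [9] [6,7,8,11] (Pf.cons (Pf.B 12 11 (Pf.B 12 8 (Pf.C 3 0x30588) (Pf.B 12 7 (Pf.C 3 0x30587) (Pf.W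 83 8 [7] [6,12] (Pf.cons (Pf.B 13 7 (Pf.C 2 0x1c688) (Pf.B 13 6 (Pf.T 13 12 (Pf.cons (Pf.T 13 23 (Pf.cons (Pf.W 83 8 [7,13] [12] (Pf.cons (Pf.B 14 13 (Pf.C 2 0x34708) (Pf.C 82 0x101c70d)) (Pf.cons (Pf.B 14 13 (Pf.C 2 0x34708) (Pf.C 82 0x101c70d)) (Pf.cons (Pf.C 84 0x1a20607) (Pf.cons (Pf.C 75 0x30708) Pf.nil))))) Pf.nil)) Pf.nil)) (Pf.C 2 0x1c30d))) (Pf.cons (Pf.B 13 7 (Pf.C 2 0x1c688) (Pf.W 83 8 [7,13] [12] (Pf.cons (Pf.B 14 7 (Pf.C 2 0x1c708) (Pf.C 84 0x1a20707)) (Pf.cons (Pf.B 14 7 (Pf.C 2 0x1c708) (Pf.C 84 0x1a20707)) (Pf.cons (Pf.C 84 0x1a20607) (Pf.cons (Pf.C 75 0x30708) Pf.nil)))))) (Pf.cons (Pf.W 83 8 [7,12] [] (Pf.cons (Pf.B 13 7 (Pf.C 2 0x1c688) (Pf.C 84 0x1820687)) (Pf.cons (Pf.B 13 7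 (Pf.C 2 0x1c688) (Pf.C 84 0x1820687)) (Pf.cons (Pf.C 75 0x30688) Pf.nil)))) (Pf.cons (Pf.C 75 0x30688) Pf.nil))))))) (Pf.C 75 0x2460b)) Pf.nil)) Pf.nil)) Pf.nil)) (Pf.cons (Pf.C 84 0x142430b) Pf.nil))) (Pf.C 2 99211))) (Pf.C 2 99339))) (Pf.cons (Pf.C 75 0x24586) Pf.nil)))) Pf.nil)) Pf.nil)) (Pf.C 2 99210))) (Pf.C 2 99338)) (Pf.cons (Pf.B 10 8 (Pf.B 10 9 (Pf.C 3 0x2440a) (Pf.B 10 7 (Pf.T 10 13 (Pf.cons (Pf.T 10 24 (Pf.cons (Pf.T 10 25 (Pf.cons (Pf.W 83 6 [9,10] [7,8] (Pf.cons (Pf.B 11 8 (Pf.B 11 7 (Pf.T 11 12 (Pf.cons (Pf.T 11 23 (Pf.cons (Pf.W 74 11 [9] [6,7,8,10] (Pf.cons (Pf.B 12 10 (Pf.B 12 8 (Pf.C 3 0x30508) (Pf.B 12 7 (Pf.C 3 0x30507) (Pf.W 83 8 [7] [6,12] (Pf.cons (Pf.B 13 7 (Pf.C 2 0x1c688)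 (Pf.B 13 6 (Pf.T 13 12 (Pf.cons (Pf.T 13 23 (Pf.cons (Pf.W 83 8 [7,13] [12] (Pf.cons (Pf.B 14 13 (Pf.C 2 0x34708) (Pf.C 82 0x101c70d)) (Pf.cons (Pf.B 14 13 (Pf.C 2 0x34708) (Pf.C 82 0x101c70d)) (Pf.cons (Pf.C 84 0x1a20607) (Pf.cons (Pf.C 75 0x30708) Pf.nil))))) Pf.nil)) Pf.nil)) (Pf.C 2 0x1c30d))) (Pf.cons (Pf.B 13 7 (Pf.C 2 0x1c688) (Pf.W 83 8 [7,13] [12] (Pf.cons (Pf.B 14 7 (Pf.C 2 0x1c708) (Pf.C 84 0x1a20707)) (Pf.cons (Pf.B 14 7 (Pf.C 2 0x1c708) (Pf.C 84 0x1a20707)) (Pf.cons (Pf.C 84 0x1a20607) (Pf.cons (Pf.C 75 0x30708) Pf.nil)))))) (Pf.cons (Pf.W 83 8 [7,12] [] (Pf.cons (Pf.B 13 7 (Pf.C 2 0x1c688) (Pf.C 84 0x1820687)) (Pf.cons (Pf.B 13 7 (Pf.C 2 0x1c688) (Pf.C 84 0x1820687)) (Pf.cons (Pf.C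 75 0x30688) Pf.nil)))) (Pf.cons (Pf.C 75 0x30688) Pf.nil))))))) (Pf.C 75 0x2460a)) Pf.nil)) Pf.nil)) Pf.nil)) (Pf.C 2 99211)) (Pf.C 2 99339)) (Pf.cons (Pf.B 11 9 (Pf.B 11 8 (Pf.C 3 0x2440b) (Pf.C 2 99339)) (Pf.C 89 0x1418589)) (Pf.cons (Pf.C 75 0x24586) Pf.nil)))) Pf.nil)) Pf.nil)) (Pf.cons (Pf.T 10 26 (Pf.cons (Pf.W 83 6 [9,10] [] (Pf.cons (Pf.B 11 10 (Pf.C 2 0x28586) (Pf.C 84 0x121858a)) (Pf.cons (Pf.B 11 10 (Pf.C 2 0x28586) (Pf.C 84 0x121858a)) (Pf.cons (Pf.C 75 0x24586) Pf.nil)))) Pf.nil)) Pf.nil))) (Pf.C 2 99210))) (Pf.C 2 99338)) (Pf.cons (Pf.C 75 0x24506) Pf.nil)))) Pf.nil)) Pf.nil))) (Pf.B 9 7 (Pf.T 9 14 (Pf.cons (Pf.T 9 27 (Pf.cons (Pf.C 105 1160) Pf.nil)) (Pf.cons (Pf.T 9 28 (Pf.cons (Pf.W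 83 6 [9] [7,8] (Pf.cons (Pf.B 10 8 (Pf.B 10 7 (Pf.T 10 12 (Pf.cons (Pf.T 10 23 (Pf.cons (Pf.W 74 10 [9] [6,8] (Pf.cons (Pf.B 11 8 (Pf.B 11 6 (Pf.C 3 0x2c406) (Pf.C 75 0x24586)) (Pf.C 75 0x24588)) Pf.nil)) Pf.nil)) Pf.nil)) (Pf.C 2 99210)) (Pf.C 2 99338)) (Pf.cons (Pf.B 10 9 (Pf.B 10 7 (Pf.C 3 0x2438a) (Pf.C 2 99210)) (Pf.C 89 0x1018509)) (Pf.cons (Pf.C 75 0x24506) Pf.nil)))) Pf.nil)) Pf.nil))) (Pf.T 9 14 (Pf.cons (Pf.T 9 27 (Pf.cons (Pf.C 105 1160) Pf.nil)) (Pf.cons (Pf.C 89 0x101c309) Pf.nil))))) Pf.nil)))))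
 (Pq.cons (Pq.L [6] 1 (Pf.C 2 0x20307))
 (Pq.cons (Pq.L [6] 1 (Pf.W 108 7 [] [6,8] (Pf.cons (Pf.B 9 8 (Pf.W 91 0x1c309 [] [8] (Pf.cons (Pf.C 2 0x24506) (Pf.cons (Pf.C 2 0x24506) (Pf.cons (Pf.C 2 0x24506) (Pf.cons (Pf.B 10 8 (Pf.C 3 0x28488) (Pf.C 75 0x1c508)) (Pf.cons (Pf.B 10 8 (Pf.C 3 0x28488) (Pf.C 75 0x1c508)) Pf.nil)))))) (Pf.C 2 99337)) Pf.nil)))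
 (Pq.cons (Pq.L [] 1 (Pf.C 105 904))
 (Pq.cons (Pq.L [6] 1 (Pf.W 110 7 [] [6,8] (Pf.cons (Pf.B 9 8 (Pf.W 91 0x1c309 [] [8] (Pf.cons (Pf.C 2 0x24506) (Pf.cons (Pf.C 2 0x24506) (Pf.cons (Pf.C 2 0x24506) (Pf.cons (Pf.B 10 8 (Pf.C 3 0x28488) (Pf.C 75 0x1c508)) (Pf.cons (Pf.B 10 8 (Pf.C 3 0x28488) (Pf.C 75 0x1c508)) Pf.nil)))))) (Pf.C 2 99337)) Pf.nil)))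
 (Pq.cons (Pq.L [6] 1 (Pf.W 83 6 [7] [8] (Pf.cons (Pf.B 9 8 (Pf.T 9 12 (Pf.cons (Pf.T 9 23 (Pf.cons (Pf.W 74 9 [7] [6,8] (Pf.cons (Pf.B 10 8 (Pf.B 10 6 (Pf.C 3 0x28406) (Pf.C 75 0x1c506)) (Pf.C 75 0x1c508)) Pf.nil)) Pf.nil)) Pf.nil)) (Pf.C 2 99337)) (Pf.cons (Pf.B 9 8 (Pf.B 9 7 (Pf.T 9 13 (Pf.cons (Pf.T 9 24 (Pf.cons (Pf.T 9 25 (Pf.cons (Pf.W 83 8 [7] [6,9] (Pf.cons (Pf.B 10 6 (Pf.T 10 12 (Pf.cons (Pf.T 10 23 (Pf.cons (Pf.W 74 10 [7] [6,8] (Pf.cons (Pf.B 11 8 (Pf.B 11 6 (Pf.C 3 0x2c406) (Pf.C 75 0x1c586)) (Pf.C 75 0x1c588)) Pf.nil)) Pf.nil)) Pf.nil)) (Pf.C 2 0x2030a)) (Pf.cons (Pf.B 10 9 (Pf.B 10 7 (Pf.C 3 0x1c48a) (Pf.C 89 0x1018507)) (Pf.C 2 0x2048a)) (Pf.cons (Pf.C 75 0x1c508) Pf.nil)))) Pf.nil))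 Pf.nil)) (Pf.cons (Pf.T 9 26 (Pf.cons (Pf.W 83 8 [7] [6,9] (Pf.cons (Pf.B 10 6 (Pf.T 10 12 (Pf.cons (Pf.T 10 23 (Pf.cons (Pf.W 74 10 [7] [6,8] (Pf.cons (Pf.B 11 8 (Pf.B 11 6 (Pf.C 3 0x2c406) (Pf.C 75 0x1c586)) (Pf.C 75 0x1c588)) Pf.nil)) Pf.nil)) Pf.nil)) (Pf.C 2 0x2030a)) (Pf.cons (Pf.B 10 9 (Pf.B 10 7 (Pf.C 3 0x1c48a) (Pf.C 89 0x1018507)) (Pf.C 2 0x2048a)) (Pf.cons (Pf.C 75 0x1c508) Pf.nil)))) Pf.nil)) Pf.nil))) (Pf.C 89 0x1018487)) (Pf.C 2 99337)) (Pf.cons (Pf.C 75 0x1c486) Pf.nil)))))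
 (Pq.cons (Pq.L [] 0 (Pf.X 6 7))
 (Pq.cons (Pq.L [6] 0 (Pf.W 102 7 [] [6,8] (Pf.cons (Pf.W 74 7 [] [6,8,9] (Pf.cons (Pf.B 10 6 (Pf.B 10 8 (Pf.C 3 0x28308) (Pf.W 74 7 [10] [6,8,9] (Pf.cons (Pf.B 11 8 (Pf.B 11 6 (Pf.C 3 0x2c406) (Pf.C 75 0x24586)) (Pf.C 75 0x28588)) Pf.nil))) (Pf.C 75 0x24506)) Pf.nil)) (Pf.cons (Pf.W 74 7 [] [6,8,9] (Pf.cons (Pf.B 10 6 (Pf.B 10 8 (Pf.C 3 0x28308) (Pf.W 74 7 [10] [6,8,9] (Pf.cons (Pf.B 11 8 (Pf.B 11 6 (Pf.C 3 0x2c406) (Pf.C 75 0x24586)) (Pf.C 75 0x28588)) Pf.nil))) (Pf.C 75 0x24506)) Pf.nil)) Pf.nil))))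
 (Pq.cons (Pq.L [] 1 (Pf.W 112 7 [] [8] (Pf.cons (Pf.B 9 8 (Pf.C 2 0x20487) (Pf.W 102 9 [] [7,8] (Pf.cons (Pf.C 81 0x1420389) (Pf.cons (Pf.C 81 0x1420389) Pf.nil)))) Pf.nil)))
 (Pq.cons (Pq.L [6] 1 (Pf.C 2 0x20307))
 (Pq.cons (Pq.L [] 1 (Pf.C 117 904))
 (Pq.cons (Pq.L [] 1 (Pf.W 114 7 [] [8] (Pf.cons (Pf.B 9 8 (Pf.C 2 0x20487) (Pf.C 117 1160)) Pf.nil)))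
 (Pq.cons (Pq.L [6] 1 (Pf.C 2 0x20307))
 (Pq.cons (Pq.L [] 1 (Pf.C 117 904))
 (Pq.cons (Pq.L [] 1 (Pf.W 116 7 [] [8] (Pf.cons (Pf.B 9 8 (Pf.C 2 0x20487) (Pf.C 117 1160)) (Pf.cons (Pf.B 9 8 (Pf.C 2 0x20487) (Pf.C 117 1160)) Pf.nil))))
 (Pq.cons (Pq.L [6] 1 (Pf.C 2 0x20307))
 (Pq.cons (Pq.L [6] 1 (Pf.W 108 7 [] [6,8] (Pf.cons (Pf.B 9 8 (Pf.W 91 0x1c309 [] [8] (Pf.cons (Pf.C 2 0x24506) (Pf.cons (Pf.C 2 0x24506) (Pf.cons (Pf.C 2 0x24506) (Pf.cons (Pf.B 10 8 (Pf.C 3 0x28488) (Pf.C 75 0x1c508)) (Pf.cons (Pf.B 10 8 (Pf.C 3 0x28488) (Pf.C 75 0x1c508)) Pf.nil)))))) (Pf.C 2 99337)) Pf.nil)))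
 (Pq.cons (Pq.L [] 1 (Pf.C 107 904))
 (Pq.cons (Pq.L [6] 1 (Pf.W 110 7 [] [6,8] (Pf.cons (Pf.B 9 8 (Pf.W 91 0x1c309 [] [8] (Pf.cons (Pf.C 2 0x24506) (Pf.cons (Pf.C 2 0x24506) (Pf.cons (Pf.C 2 0x24506) (Pf.cons (Pf.B 10 8 (Pf.C 3 0x28488) (Pf.C 75 0x1c508)) (Pf.cons (Pf.B 10 8 (Pf.C 3 0x28488) (Pf.C 75 0x1c508)) Pf.nil)))))) (Pf.C 2 99337)) Pf.nil)))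
 (Pq.cons (Pq.L [] 1 (Pf.C 107 904))
 (Pq.cons (Pq.L [] 0 (Pf.X 6 7))
 (Pq.cons (Pq.L [6] 1 (Pf.C 3 0x20307))
 (Pq.cons (Pq.L [6] 1 (Pf.C 3 0x20307))
 (Pq.cons (Pq.L [6] 1 (Pf.W 83 6 [7] [8] (Pf.cons (Pf.B 9 7 (Pf.C 2 0x1c486) (Pf.C 81 0x1018487)) (Pf.cons (Pf.B 9 7 (Pf.C 2 0x1c486) (Pf.C 81 0x1018487)) (Pf.cons (Pf.W 83 6 [7,9] [8] (Pf.cons (Pf.B 10 7 (Pf.C 2 0x1c506) (Pf.C 81 0x1018507)) (Pf.cons (Pf.B 10 7 (Pf.C 2 0x1c506) (Pf.C 81 0x1018507)) (Pf.cons (Pf.C 75 0x24506) Pf.nil)))) Pf.nil)))))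
 (Pq.cons (Pq.L [] 1 (Pf.W 104 7 [] [8] (Pf.cons (Pf.C 75 0x20487) Pf.nil)))
 (Pq.cons (Pq.L [6] 0 (Pf.W 114 7 [] [6,8] (Pf.cons (Pf.B 9 8 (Pf.C 3 0x20309) (Pf.W 104 9 [] [8] (Pf.cons (Pf.C 75 0x20509) Pf.nil))) Pf.nil)))
 (Pq.cons (Pq.L [] 1 (Pf.C 109 904))
 (Pq.cons (Pq.L [] 1 (Pf.W 106 7 [] [8] (Pf.cons (Pf.C 75 0x20487) (Pf.cons (Pf.C 75 0x20487) Pf.nil))))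
 (Pq.cons (Pq.L [6] 0 (Pf.W 116 7 [] [6,8] (Pf.cons (Pf.B 9 8 (Pf.C 3 0x20309) (Pf.W 104 9 [] [8] (Pf.cons (Pf.C 75 0x20509) Pf.nil))) (Pf.cons (Pf.B 9 8 (Pf.C 3 0x20309) (Pf.W 106 9 [] [8] (Pf.cons (Pf.C 75 0x20509) (Pf.cons (Pf.C 75 0x20509) Pf.nil)))) Pf.nil))))
 (Pq.cons (Pq.L [6] 1 (Pf.W 83 6 [7] [8] (Pf.cons (Pf.B 9 7 (Pf.C 2 0x1c486) (Pf.C 84 0x1018487)) (Pf.cons (Pf.B 9 7 (Pf.C 2 0x1c486) (Pf.C 84 0x1018487)) (Pf.cons (Pf.W 83 6 [7,9] [8] (Pf.cons (Pf.B 10 7 (Pf.C 2 0x1c506) (Pf.C 84 0x1018507)) (Pf.cons (Pf.B 10 7 (Pf.C 2 0x1c506) (Pf.C 84 0x1018507)) (Pf.cons (Pf.C 75 0x24506) Pf.nil)))) Pf.nil)))))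
 (Pq.cons (Pq.L [0,1] 1 (Pf.C 4 0x101c080))
 (Pq.cons (Pq.L [0,1] 1 (Pf.C 4 0x101c080))
 (Pq.cons (Pq.L [0,1] 1 (Pf.C 4 0x101c080))
 (Pq.cons (Pq.L [0,1] 1 (Pf.C 4 0x101c080))
 (Pq.cons (Pq.L [] 0 (Pf.X 6 7))
 (Pq.cons (Pq.L [6] 1 (Pf.C 3 0x20307))
 (Pq.cons (Pq.L [6] 1 (Pf.C 3 0x20307))
 (Pq.cons (Pq.L [6] 1 (Pf.W 83 6 [7] [8] (Pf.cons (Pf.B 9 7 (Pf.C 2 0x1c486) (Pf.C 81 0x1018487)) (Pf.cons (Pf.B 9 7 (Pf.C 2 0x1c486) (Pf.C 81 0x1018487)) (Pf.cons (Pf.W 83 6 [7,9] [8] (Pf.cons (Pf.B 10 7 (Pf.C 2 0x1c506) (Pf.C 81 0x1018507)) (Pf.cons (Pf.B 10 7 (Pf.C 2 0x1c506) (Pf.C 81 0x1018507)) (Pf.cons (Pf.C 75 0x24506) Pf.nil)))) Pf.nil)))))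
 (Pq.cons (Pq.L [] 1 (Pf.W 104 7 [] [8] (Pf.cons (Pf.C 75 0x20487) Pf.nil)))
 (Pq.cons (Pq.L [6] 0 (Pf.W 114 7 [] [6,8] (Pf.cons (Pf.B 9 8 (Pf.C 3 0x20309) (Pf.W 104 9 [] [8] (Pf.cons (Pf.C 75 0x20509) Pf.nil))) Pf.nil)))
 (Pq.cons (Pq.L [] 1 (Pf.C 111 904))
 (Pq.cons (Pq.L [] 1 (Pf.W 106 7 [] [8] (Pf.cons (Pf.C 75 0x20487) (Pf.cons (Pf.C 75 0x20487) Pf.nil))))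
 (Pq.cons (Pq.L [6] 0 (Pf.W 116 7 [] [6,8] (Pf.cons (Pf.B 9 8 (Pf.C 3 0x20309) (Pf.W 104 9 [] [8] (Pf.cons (Pf.C 75 0x20509) Pf.nil))) (Pf.cons (Pf.B 9 8 (Pf.C 3 0x20309) (Pf.W 106 9 [] [8] (Pf.cons (Pf.C 75 0x20509) (Pf.cons (Pf.C 75 0x20509) Pf.nil)))) Pf.nil))))
 (Pq.cons (Pq.L [6] 1 (Pf.W 83 6 [7] [8] (Pf.cons (Pf.B 9 7 (Pf.C 2 0x1c486) (Pf.C 84 0x1018487)) (Pf.cons (Pf.B 9 7 (Pf.C 2 0x1c486) (Pf.C 84 0x1018487)) (Pf.cons (Pf.W 83 6 [7,9] [8] (Pf.cons (Pf.B 10 7 (Pf.C 2 0x1c506) (Pf.C 84 0x1018507)) (Pf.cons (Pf.B 10 7 (Pf.C 2 0x1c506) (Pf.C 84 0x1018507)) (Pf.cons (Pf.C 75 0x24506) Pf.nil)))) Pf.nil)))))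
 (Pq.cons (Pq.L [0,1] 1 (Pf.C 4 0x101c080))
 (Pq.cons (Pq.L [0,1] 1 (Pf.C 4 0x101c080))
 (Pq.cons (Pq.L [0,1] 1 (Pf.C 4 0x101c080))
 (Pq.cons (Pq.L [0,1] 1 (Pf.C 4 0x101c080))
 Pq.nil))))))))))))))))))))))))))))))))))))))))))))))))))))))))))))))))))))))
theorem hh_o52 : AllRef hh_T hh_G61 (closeObl (hh_T.sc.get 0) false [113,123,124,103,115,125,126,106,117,127,128,108,119,120,110,121,122,112] [0,0,0,0,1,1,1,1,1,1,1,1,2,2,2,2,2,2] [6] [1] 0x2dbbb) :=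
  chkPq_sound hh_o52c _ (by decide +kernel)
noncomputable def hh_o53c : Pq := (Pq.cons (Pq.L [6] 1 (Pf.T 7 29 (Pf.cons (Pf.W 102 7 [] [6,8] (Pf.cons (Pf.B 9 8 (Pf.C 3 0x24388) (Pf.T 8 29 (Pf.cons (Pf.W 102 8 [] [6,9] (Pf.cons (Pf.C 75 0x24506) (Pf.cons (Pf.C 75 0x24506) Pf.nil))) (Pf.cons (Pf.T 8 34 (Pf.cons (Pf.W 112 8 [] [6,7,9] (Pf.cons (Pf.B 10 7 (Pf.B 10 9 (Pf.C 3 0x2438a) (Pf.W 102 10 [] [6,9] (Pf.cons (Pf.C 75 0x24586) (Pf.cons (Pf.C 75 0x24586) Pf.nil)))) (Pf.C 2 0x2038a)) Pf.nil)) Pf.nil)) Pf.nil)))) (Pf.cons (Pf.B 9 8 (Pf.C 3 0x24388) (Pf.T 8 29 (Pf.cons (Pf.W 102 8 [] [6,9] (Pf.cons (Pf.C 75 0x24506) (Pf.cons (Pf.C 75 0x24506) Pf.nil))) (Pf.cons (Pf.T 8 34 (Pf.cons (Pf.W 112 8 [] [6,7,9]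 (Pf.cons (Pf.B 10 9 (Pf.C 87 0xe28309) (Pf.W 102 10 [] [6,9] (Pf.cons (Pf.C 75 0x24586) (Pf.cons (Pf.C 75 0x24586) Pf.nil)))) Pf.nil)) Pf.nil)) Pf.nil)))) Pf.nil))) (Pf.cons (Pf.T 7 34 (Pf.cons (Pf.W 112 7 [] [6,8] (Pf.cons (Pf.B 9 8 (Pf.W 102 9 [] [6,8] (Pf.cons (Pf.B 10 8 (Pf.C 3 0x28488) (Pf.T 8 29 (Pf.cons (Pf.W 102 8 [] [6,10] (Pf.cons (Pf.C 75 0x28586) (Pf.cons (Pf.C 75 0x28586) Pf.nil))) (Pf.cons (Pf.T 8 34 (Pf.cons (Pf.W 112 8 [] [6,9,10] (Pf.cons (Pf.B 11 9 (Pf.B 11 10 (Pf.C 3 0x2848b) (Pf.W 102 11 [] [6,10] (Pf.cons (Pf.C 75 0x28606) (Pf.cons (Pf.C 75 0x28606) Pf.nil)))) (Pf.C 2 0x2048b)) Pf.nil)) Pf.nil)) Pf.nil)))) (Pf.cons (Pf.B 10 8 (Pf.C 3 0x28488) (Pf.T 8 29 (Pf.cons (Pf.W 102 8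 [] [6,10] (Pf.cons (Pf.C 75 0x28586) (Pf.cons (Pf.C 75 0x28586) Pf.nil))) (Pf.cons (Pf.T 8 34 (Pf.cons (Pf.W 112 8 [] [6,9,10] (Pf.cons (Pf.B 11 10 (Pf.C 87 0x122c30a) (Pf.W 102 11 [] [6,10] (Pf.cons (Pf.C 75 0x28606) (Pf.cons (Pf.C 75 0x28606) Pf.nil)))) Pf.nil)) Pf.nil)) Pf.nil)))) Pf.nil))) (Pf.C 2 0x1c409)) Pf.nil)) Pf.nil)) Pf.nil))))
 (Pq.cons (Pq.L [] 7 (Pf.T 7 29 (Pf.cons (Pf.W 102 7 [] [8,9] (Pf.cons (Pf.C 81 0x1424407) (Pf.cons (Pf.C 81 0x1424407) Pf.nil))) (Pf.cons (Pf.T 7 34 (Pf.cons (Pf.W 112 7 [] [8,9] (Pf.cons (Pf.W 102 8 [] [7,9] (Pf.cons (Pf.C 81 0x1424388) (Pf.cons (Pf.C 81 0x1424388) Pf.nil))) (Pf.cons (Pf.W 102 9 [] [7,8] (Pf.cons (Pf.C 81 0x1420389) (Pf.cons (Pf.C 81 0x1420389)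 Pf.nil))) (Pf.cons (Pf.C 82 0x1220507) Pf.nil)))) Pf.nil)) Pf.nil))))
 (Pq.cons (Pq.L [6] 0 (Pf.B 9 8 (Pf.C 2 0x20486) (Pf.B 9 7 (Pf.C 2 0x1c486) (Pf.C 82 0x1018389))))
 (Pq.cons (Pq.L [6] 0 (Pf.B 9 8 (Pf.C 2 0x20486) (Pf.B 9 7 (Pf.C 2 0x1c486) (Pf.C 84 0x1018389))))
 (Pq.cons (Pq.L [0,1,6] 0 (Pf.B 9 8 (Pf.B 9 7 (Pf.B 8 7 (Pf.T 9 32 (Pf.cons (Pf.W 108 9 [] [6,7,8] (Pf.cons (Pf.B 10 8 (Pf.B 10 7 (Pf.C 1 0x91418407) (Pf.C 75 0x2438a)) (Pf.C 75 0x2440a)) Pf.nil)) Pf.nil)) (Pf.C 4 0xe20080)) (Pf.C 4 0xe24080)) (Pf.C 4 0x1024080)))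
 (Pq.cons (Pq.L [6] 0 (Pf.C 75 0x20386))
 (Pq.cons (Pq.L [0,1,6] 0 (Pf.B 9 8 (Pf.B 9 7 (Pf.B 8 7 (Pf.T 7 33 (Pf.cons (Pf.W 110 7 [] [6,8,9] (Pf.cons (Pf.B 10 9 (Pf.B 10 8 (Pf.C 1 0x71418488) (Pf.C 75 0x1c40a)) (Pf.C 75 0x1c48a)) Pf.nil)) Pf.nil)) (Pf.C 4 0xe20080)) (Pf.C 4 0xe24080)) (Pf.C 4 0x1024080)))
 (Pq.cons (Pq.L [6] 0 (Pf.C 75 0x20386))
 Pq.nil))))))))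
theorem hh_o53 : AllRef hh_T hh_G62 (hitObl [102,103,108,109,110,111,112] hh_h84) :=
  chkPq_sound hh_o53c _ (by decide +kernel)
noncomputable def hh_o54c : Pq := (Pq.cons (Pq.L [] 0 (Pf.C 118 7))
 (Pq.cons (Pq.L [] 0 (Pf.C 119 7))
 (Pq.cons (Pq.L [] 0 (Pf.C 120 7))
 (Pq.cons (Pq.L [] 0 (Pf.C 121 7))
 (Pq.cons (Pq.L [] 0 (Pf.C 122 7))
 (Pq.cons (Pq.L [] 0 (Pf.C 123 7))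
 (Pq.cons (Pq.L [] 0 (Pf.C 124 7))
 Pq.nil)))))))
theorem hh_o54 : AllRef hh_T hh_G63 (List.map pat1 [129,130,131,132,133,134,135]) :=
  chkPq_sound hh_o54c _ (by decide +kernel)
noncomputable def hh_o55c : Pq := (Pq.cons (Pq.L [6] 1 (Pf.C 2 0x20307))
 (Pq.cons (Pq.L [6] 1 (Pf.C 2 0x20307))
 Pq.nil))
theorem hh_o55 : AllRef hh_T hh_G64 (splitObl [105,107] [106]) :=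
  chkPq_sound hh_o55c _ (by decide +kernel)
noncomputable def hh_o56c : Pq := (Pq.cons (Pq.L [] 38 (Pf.C 2 0x28389))
 (Pq.cons (Pq.L [0] 0x40319 (Pf.C 1 0xc1620007))
 Pq.nil))
theorem hh_o56 : AllRef hh_T hh_G64 (applyObl (pairTab (cPaw, cP1S113)) 2 [105,107] [0,0] []) :=
  chkPq_sound hh_o56c _ (by decide +kernel)
noncomputable def hh_o57c : Pq := (Pq.cons (Pq.L [6] 1 (Pf.C 2 0x20386))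
 Pq.nil)
theorem hh_o57 : AllRef hh_T hh_G64 (applyObl TD2 1 [106] [0] [(106,0x400000000000000000000000000)]) :=
  chkPq_sound hh_o57c _ (by decide +kernel)
noncomputable def hh_o58c : Pq := Pq.nil
theorem hh_o58 : AllRef hh_T hh_G30 (ptObl 76 PT.kid []) :=
  chkPq_sound hh_o58c _ (by decide +kernel)
noncomputable def hh_o59c : Pq := Pq.nil
theorem hh_o59 : AllRef hh_T hh_G65 (ptObl 136 (PT.br 6 PT.kid PT.kid) []) :=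
  chkPq_sound hh_o59c _ (by decide +kernel)
noncomputable def hh_o60c : Pq := Pq.nil
theorem hh_o60 : AllRef hh_T hh_G66 (ptObl 77 (PT.br 6 PT.kid PT.kid) []) :=
  chkPq_sound hh_o60c _ (by decide +kernel)
noncomputable def hh_o61c : Pq := Pq.nil
theorem hh_o61 : AllRef hh_T hh_G67 (ptObl 78 (PT.br 6 PT.kid PT.kid) []) :=
  chkPq_sound hh_o61c _ (by decide +kernel)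
noncomputable def hh_o62c : Pq := Pq.nil
theorem hh_o62 : AllRef hh_T hh_G68 (ptObl 79 (PT.br 6 PT.kid PT.kid) []) :=
  chkPq_sound hh_o62c _ (by decide +kernel)
noncomputable def hh_o63c : Pq := Pq.nil
theorem hh_o63 : AllRef hh_T hh_G69 (ptObl 80 (PT.br 6 PT.kid PT.kid) []) :=
  chkPq_sound hh_o63c _ (by decide +kernel)
noncomputable def hh_o64c : Pq := Pq.nil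
theorem hh_o64 : AllRef hh_T hh_G70 (ptObl 81 (PT.br 6 PT.kid PT.kid) []) :=
  chkPq_sound hh_o64c _ (by decide +kernel)
noncomputable def hh_o65c : Pq := (Pq.cons (Pq.L [] 0 (Pf.X 6 7))
 (Pq.cons (Pq.L [] 1 (Pf.C 141 904))
 (Pq.cons (Pq.L [] 1 (Pf.W 140 7 [] [8] (Pf.cons (Pf.B 9 8 (Pf.C 2 0x20487) (Pf.C 141 1160)) Pf.nil)))
 (Pq.cons (Pq.L [6] 1 (Pf.C 2 0x20307))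
 (Pq.cons (Pq.L [6] 1 (Pf.W 137 7 [] [6,8] (Pf.cons (Pf.B 9 8 (Pf.C 135 1160) (Pf.W 129 9 [] [6,7,8] (Pf.cons (Pf.B 10 8 (Pf.W 78 8 [7] [9,10] (Pf.cons (Pf.B 11 10 (Pf.C 3 0x2c40a) (Pf.C 75 0x2458a)) (Pf.cons (Pf.B 11 7 (Pf.C 2 0x1c588) (Pf.C 81 0x1220587)) (Pf.cons (Pf.B 11 7 (Pf.C 2 0x1c588) (Pf.C 81 0x1220587)) Pf.nil)))) (Pf.C 2 99338)) Pf.nil))) (Pf.cons (Pf.B 9 8 (Pf.W 131 9 [] [7,8] (Pf.cons (Pf.C 86 0x101c509) (Pf.cons (Pf.C 87 0x101c509) Pf.nil))) (Pf.W 131 9 [] [6,7,8] (Pf.cons (Pf.B 10 7 (Pf.C 3 0x2438a) (Pf.C 2 99210)) (Pf.cons (Pf.B 10 8 (Pf.W 78 8 [7] [9,10] (Pf.cons (Pf.B 11 10 (Pf.C 3 0x2c40a) (Pf.C 75 0x2458a)) (Pf.cons (Pf.B 11 7 (Pf.C 2 0x1c588) (Pf.C 81 0x1220587)) (Pf.cons (Pf.B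 11 7 (Pf.C 2 0x1c588) (Pf.C 81 0x1220587)) Pf.nil)))) (Pf.C 2 99338)) Pf.nil)))) (Pf.cons (Pf.B 9 8 (Pf.C 2 0x20487) (Pf.C 136 1160)) (Pf.cons (Pf.B 9 8 (Pf.C 2 0x20487) (Pf.W 127 9 [] [7,8] (Pf.cons (Pf.C 84 0x101c509) Pf.nil))) Pf.nil))))))
 (Pq.cons (Pq.L [] 1 (Pf.W 142 7 [] [8] (Pf.cons (Pf.B 9 8 (Pf.C 2 0x20487) (Pf.C 141 1160)) (Pf.cons (Pf.B 9 8 (Pf.C 2 0x20487) (Pf.W 137 9 [] [7,8] (Pf.cons (Pf.C 81 0x1420389) (Pf.cons (Pf.C 81 0x1420389) (Pf.cons (Pf.C 82 0x101c509) (Pf.cons (Pf.C 82 0x101c509) Pf.nil)))))) Pf.nil))))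
 (Pq.cons (Pq.L [6] 1 (Pf.C 2 0x20307))
 (Pq.cons (Pq.L [] 1 (Pf.C 136 904))
 (Pq.cons (Pq.L [6] 1 (Pf.C 2 0x20307))
 (Pq.cons (Pq.L [0,1,6] 1 (Pf.W 127 7 [] [0,1,6,8] (Pf.cons (Pf.B 9 8 (Pf.C 3 0x24308) (Pf.W 74 6 [] [0,1,7,8,9] (Pf.cons (Pf.B 10 9 (Pf.B 10 8 (Pf.W 74 6 [10] [0,1,7,8,9] (Pf.cons (Pf.B 11 10 (Pf.B 11 9 (Pf.B 11 8 (Pf.W 74 8 [9] [0,1,10,11] (Pf.cons (Pf.B 12 11 (Pf.B 12 10 (Pf.B 12 9 (Pf.C 1 0x9103058a) (Pf.C 4 0x1230080)) (Pf.C 4 0x1430080)) (Pf.C 4 0x1630080)) Pf.nil)) (Pf.W 78 8 [7] [0,1,9,10,11] (Pf.cons (Pf.W 78 8 [7,10] [0,1,9,11] (Pf.cons (Pf.B 12 11 (Pf.B 12 10 (Pf.B 12 9 (Pf.C 1 0xb102450c) (Pf.C 4 0x1230080)) (Pf.C 4 0x1430080)) (Pf.C 4 0x1630080)) (Pf.cons (Pf.B 12 7 (Pf.C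 2 0x1c608) (Pf.C 84 0x1220607)) (Pf.cons (Pf.B 12 7 (Pf.C 2 0x1c608) (Pf.C 84 0x1220607)) Pf.nil)))) (Pf.cons (Pf.B 12 11 (Pf.B 12 10 (Pf.B 12 9 (Pf.C 1 0xb102450c) (Pf.C 4 0x1230080)) (Pf.C 4 0x1430080)) (Pf.C 4 0x1630080)) (Pf.cons (Pf.B 12 7 (Pf.C 2 0x1c608) (Pf.C 84 0x1220607)) (Pf.cons (Pf.B 12 7 (Pf.C 2 0x1c608) (Pf.C 84 0x1220607)) Pf.nil)))))) (Pf.C 4 0x122c080)) (Pf.C 4 0x142c080)) Pf.nil)) (Pf.W 74 6 [10] [0,1,7,8,9] (Pf.cons (Pf.B 11 10 (Pf.B 11 9 (Pf.B 11 8 (Pf.W 78 8 [7] [0,1,9,10,11] (Pf.cons (Pf.W 78 8 [7,11] [0,1,9,10] (Pf.cons (Pf.B 12 11 (Pf.B 12 10 (Pf.B 12 9 (Pf.C 1 0xa102458c) (Pf.C 4 0x1230080)) (Pf.C 4 0x1430080)) (Pf.C 4 0x1630080)) (Pf.cons (Pf.B 12 7 (Pf.C 2 0x1c608) (Pf.C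 84 0x1220607)) (Pf.cons (Pf.B 12 7 (Pf.C 2 0x1c608) (Pf.C 84 0x1220607)) Pf.nil)))) (Pf.cons (Pf.B 12 11 (Pf.B 12 10 (Pf.B 12 9 (Pf.C 1 0xa102458c) (Pf.C 4 0x1230080)) (Pf.C 4 0x1430080)) (Pf.C 4 0x1630080)) (Pf.cons (Pf.B 12 7 (Pf.C 2 0x1c608) (Pf.C 84 0x1220607)) (Pf.cons (Pf.B 12 7 (Pf.C 2 0x1c608) (Pf.C 84 0x1220607)) Pf.nil))))) (Pf.W 78 8 [7] [0,1,9,10,11] (Pf.cons (Pf.B 12 11 (Pf.B 12 10 (Pf.W 78 8 [7,12] [0,1,9,10,11] (Pf.cons (Pf.B 13 12 (Pf.B 13 11 (Pf.B 13 10 (Pf.C 1 0xb102860d) (Pf.C 4 0x1434080)) (Pf.C 4 0x1634080)) (Pf.C 4 0x1834080)) (Pf.cons (Pf.B 13 7 (Pf.C 2 0x1c688) (Pf.C 84 0x1220687)) (Pf.cons (Pf.B 13 7 (Pf.C 2 0x1c688) (Pf.C 84 0x1220687)) Pf.nil)))) (Pf.C 4 0x1430080)) (Pf.C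 4 0x1630080)) (Pf.cons (Pf.B 12 7 (Pf.C 2 0x1c608) (Pf.C 84 0x1220607)) (Pf.cons (Pf.B 12 7 (Pf.C 2 0x1c608) (Pf.C 84 0x1220607)) Pf.nil))))) (Pf.C 4 0x122c080)) (Pf.C 4 0x142c080)) Pf.nil))) (Pf.C 4 0x1228080)) Pf.nil))) Pf.nil)))
 (Pq.cons (Pq.L [6] 1 (Pf.C 2 0x20307))
 (Pq.cons (Pq.L [6] 1 (Pf.C 3 0x1c406))
 (Pq.cons (Pq.L [] 1 (Pf.C 135 904))
 (Pq.cons (Pq.L [6] 1 (Pf.C 3 0x1c406))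
 (Pq.cons (Pq.L [0,1,6] 1 (Pf.W 131 7 [] [0,1,6,8] (Pf.cons (Pf.B 9 8 (Pf.C 3 0x1c409) (Pf.C 2 99337)) (Pf.cons (Pf.B 9 8 (Pf.W 74 6 [7] [0,1,8,9] (Pf.cons (Pf.B 10 9 (Pf.B 10 8 (Pf.C 3 0x28488) (Pf.B 10 7 (Pf.W 74 8 [10] [7,9] (Pf.cons (Pf.B 11 9 (Pf.W 78 8 [7] [9,10,11] (Pf.cons (Pf.B 12 9 (Pf.C 3 0x30409) (Pf.C 75 0x1c609)) (Pf.cons (Pf.B 12 9 (Pf.B 12 10 (Pf.C 3 0x2848c) (Pf.B 12 7 (Pf.C 87 0x1030487) (Pf.W 78 8 [7,12] [9,10,11] (Pf.cons (Pf.B 13 9 (Pf.C 3 0x34409) (Pf.C 75 0x1c689)) (Pf.cons (Pf.B 13 12 (Pf.C 2 0x30688) (Pf.B 13 9 (Pf.B 13 10 (Pf.C 3 0x2848d) (Pf.B 13 7 (Pf.C 87 0x1034487) (Pf.C 0 0xa0e2060d))) (Pf.C 2 0x2048d))) (Pf.cons (Pf.B 13 9 (Pf.B 13 11 (Pf.C 3 0x2c48d) (Pf.B 13 10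 (Pf.C 3 0x2848d) (Pf.C 75 0x2c50d))) (Pf.C 2 0x2048d)) Pf.nil)))))) (Pf.C 2 0x2048c)) (Pf.cons (Pf.B 12 9 (Pf.B 12 11 (Pf.C 3 0x2c48c) (Pf.B 12 10 (Pf.C 3 0x2848c) (Pf.C 75 0x2c50c))) (Pf.C 2 0x2048c)) Pf.nil)))) (Pf.C 75 0x1c589)) Pf.nil)) (Pf.C 4 0xe28080))) (Pf.C 75 0x1c509)) Pf.nil)) (Pf.C 2 99337)) Pf.nil))))
 (Pq.cons (Pq.L [] 1 (Pf.W 144 7 [] [8] (Pf.cons (Pf.B 9 8 (Pf.C 3 0x1c409) (Pf.C 141 1160)) (Pf.cons (Pf.B 9 8 (Pf.C 3 0x1c409) (Pf.W 137 9 [] [7,8] (Pf.cons (Pf.C 80 0xe28409) (Pf.cons (Pf.C 80 0xe28409) (Pf.cons (Pf.C 81 0xe20509) (Pf.cons (Pf.C 81 0xe20509) Pf.nil)))))) Pf.nil))))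
 (Pq.cons (Pq.L [] 0 (Pf.X 6 7))
 (Pq.cons (Pq.L [] 1 (Pf.C 143 904))
 (Pq.cons (Pq.L [] 1 (Pf.W 140 7 [] [8] (Pf.cons (Pf.B 9 8 (Pf.C 2 0x20487) (Pf.C 143 1160)) Pf.nil)))
 (Pq.cons (Pq.L [6] 1 (Pf.C 2 0x20307))
 (Pq.cons (Pq.L [] 1 (Pf.C 143 904))
 (Pq.cons (Pq.L [] 1 (Pf.W 142 7 [] [8] (Pf.cons (Pf.B 9 8 (Pf.C 2 0x20487) (Pf.C 143 1160)) (Pf.cons (Pf.B 9 8 (Pf.C 2 0x20487) (Pf.C 143 1160)) Pf.nil))))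
 (Pq.cons (Pq.L [6] 1 (Pf.C 2 0x20307))
 (Pq.cons (Pq.L [] 1 (Pf.C 139 904))
 (Pq.cons (Pq.L [6] 1 (Pf.C 2 0x20307))
 (Pq.cons (Pq.L [] 1 (Pf.C 139 904))
 (Pq.cons (Pq.L [6] 1 (Pf.C 2 0x20307))
 (Pq.cons (Pq.L [6] 1 (Pf.C 3 0x1c406))
 (Pq.cons (Pq.L [] 1 (Pf.C 138 904))
 (Pq.cons (Pq.L [6] 1 (Pf.C 3 0x1c406))
 (Pq.cons (Pq.L [] 1 (Pf.C 138 904))
 (Pq.cons (Pq.L [] 1 (Pf.W 144 7 [] [8] (Pf.cons (Pf.B 9 8 (Pf.C 3 0x1c409) (Pf.C 143 1160)) (Pf.cons (Pf.B 9 8 (Pf.C 3 0x1c409) (Pf.C 143 1160)) Pf.nil))))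
 (Pq.cons (Pq.L [] 0 (Pf.X 6 7))
 (Pq.cons (Pq.L [6] 0 (Pf.W 134 7 [] [6,8] (Pf.cons (Pf.B 9 8 (Pf.W 129 9 [] [6,7,8] (Pf.cons (Pf.B 10 8 (Pf.B 10 7 (Pf.W 74 6 [9] [7,8,10] (Pf.cons (Pf.B 11 10 (Pf.B 11 8 (Pf.C 3 0x2c508) (Pf.W 74 7 [11] [8,9,10] (Pf.cons (Pf.B 12 10 (Pf.B 12 8 (Pf.C 3 0x30508) (Pf.C 75 0x2c608)) (Pf.C 75 0x2460a)) Pf.nil))) (Pf.C 75 0x2458a)) Pf.nil)) (Pf.C 2 99210)) (Pf.C 2 99338)) Pf.nil)) (Pf.W 129 9 [] [6,8] (Pf.cons (Pf.B 10 8 (Pf.W 74 6 [9] [8,10] (Pf.cons (Pf.B 11 10 (Pf.B 11 8 (Pf.C 3 0x2c508) (Pf.C 75 0x24588)) (Pf.C 75 0x2458a)) Pf.nil)) (Pf.C 2 99338)) Pf.nil))) (Pf.cons (Pf.W 125 9 [] [6,8] (Pf.cons (Pf.B 10 8 (Pf.C 3 0x28308) (Pf.C 126 1288)) Pf.nil)) Pf.nil))))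
 (Pq.cons (Pq.L [6] 1 (Pf.W 140 7 [] [6,8] (Pf.cons (Pf.B 9 8 (Pf.C 2 0x20487) (Pf.W 134 9 [] [6,7,8] (Pf.cons (Pf.B 10 8 (Pf.W 129 10 [] [6,8,9] (Pf.cons (Pf.B 11 9 (Pf.B 11 8 (Pf.W 74 6 [10] [8,9,11] (Pf.cons (Pf.B 12 11 (Pf.B 12 8 (Pf.C 3 0x30588) (Pf.W 74 9 [12] [8,10,11] (Pf.cons (Pf.B 13 11 (Pf.B 13 8 (Pf.C 3 0x34588) (Pf.C 75 0x30688)) (Pf.C 75 0x2868b)) Pf.nil))) (Pf.C 75 0x2860b)) Pf.nil)) (Pf.C 2 99339)) (Pf.C 2 99467)) Pf.nil)) (Pf.W 129 10 [] [6,8] (Pf.cons (Pf.B 11 8 (Pf.W 74 6 [10] [8,11] (Pf.cons (Pf.B 12 11 (Pf.B 12 8 (Pf.C 3 0x30588) (Pf.C 75 0x28608)) (Pf.C 75 0x2860b)) Pf.nil)) (Pf.C 2 99339)) Pf.nil))) (Pf.cons (Pf.B 10 8 (Pf.C 2 0x20509) (Pf.B 10 7 (Pf.C 2 0x1c508) (Pf.C 136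 1287))) Pf.nil)))) Pf.nil)))
 (Pq.cons (Pq.L [6] 1 (Pf.C 2 0x20307))
 (Pq.cons (Pq.L [6] 1 (Pf.W 137 7 [] [6,8] (Pf.cons (Pf.B 9 8 (Pf.W 129 9 [] [6,7,8] (Pf.cons (Pf.B 10 8 (Pf.B 10 7 (Pf.W 74 6 [9] [7,8,10] (Pf.cons (Pf.B 11 10 (Pf.B 11 8 (Pf.C 3 0x2c508) (Pf.W 74 7 [11] [8,9,10] (Pf.cons (Pf.B 12 10 (Pf.B 12 8 (Pf.C 3 0x30508) (Pf.C 75 0x2c608)) (Pf.C 75 0x2460a)) Pf.nil))) (Pf.C 75 0x2458a)) Pf.nil)) (Pf.C 2 99210)) (Pf.C 2 99338)) Pf.nil)) (Pf.W 83 8 [7,9] [] (Pf.cons (Pf.B 10 7 (Pf.C 2 0x1c508) (Pf.C 81 0x1220507)) (Pf.cons (Pf.B 10 7 (Pf.C 2 0x1c508) (Pf.C 81 0x1220507)) (Pf.cons (Pf.C 75 0x24508) Pf.nil))))) (Pf.cons (Pf.B 9 8 (Pf.W 131 9 [] [6,7,8] (Pf.cons (Pf.B 10 8 (Pf.C 3 0x2440a) (Pf.C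 2 99338)) (Pf.cons (Pf.B 10 8 (Pf.B 10 7 (Pf.W 74 6 [9] [7,8,10] (Pf.cons (Pf.B 11 10 (Pf.B 11 8 (Pf.C 3 0x2c508) (Pf.W 74 7 [11] [8,9,10] (Pf.cons (Pf.B 12 10 (Pf.B 12 8 (Pf.C 3 0x30508) (Pf.C 75 0x2c608)) (Pf.C 75 0x2460a)) Pf.nil))) (Pf.C 75 0x2458a)) Pf.nil)) (Pf.C 2 99210)) (Pf.C 2 99338)) Pf.nil))) (Pf.W 131 9 [] [7,8] (Pf.cons (Pf.C 87 0xe28409) (Pf.cons (Pf.C 88 0xe20509) Pf.nil)))) (Pf.cons (Pf.W 125 9 [] [6,8] (Pf.cons (Pf.B 10 8 (Pf.C 3 0x28308) (Pf.C 126 1288)) Pf.nil)) (Pf.cons (Pf.B 9 8 (Pf.C 2 0x20487) (Pf.W 127 9 [] [7,8] (Pf.cons (Pf.C 84 0x101c509) Pf.nil))) Pf.nil))))))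
 (Pq.cons (Pq.L [6] 1 (Pf.W 142 7 [] [6,8] (Pf.cons (Pf.B 9 8 (Pf.C 2 0x20487) (Pf.W 134 9 [] [6,7,8] (Pf.cons (Pf.B 10 8 (Pf.W 129 10 [] [6,7,8,9] (Pf.cons (Pf.B 11 9 (Pf.B 11 8 (Pf.W 74 6 [10] [7,8,9,11] (Pf.cons (Pf.B 12 11 (Pf.B 12 8 (Pf.C 3 0x30588) (Pf.W 83 8 [7,9] [12,10,11] (Pf.cons (Pf.B 13 7 (Pf.C 2 0x1c688) (Pf.C 82 0x1220687)) (Pf.cons (Pf.B 13 7 (Pf.C 2 0x1c688) (Pf.C 82 0x1220687)) (Pf.cons (Pf.W 74 9 [12] [8,10,11] (Pf.cons (Pf.B 13 11 (Pf.B 13 8 (Pf.C 3 0x34588) (Pf.C 75 0x30688)) (Pf.C 75 0x2868b)) Pf.nil)) (Pf.cons (Pf.C 75 0x30688) Pf.nil)))))) (Pf.C 75 0x2860b)) Pf.nil)) (Pf.C 2 99339)) (Pf.C 2 99467)) Pf.nil)) (Pf.W 129 10 [] [6,8] (Pf.cons (Pf.B 11 8 (Pf.W 74 6 [10] [8,11]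 (Pf.cons (Pf.B 12 11 (Pf.B 12 8 (Pf.C 3 0x30588) (Pf.C 75 0x28608)) (Pf.C 75 0x2860b)) Pf.nil)) (Pf.C 2 99339)) Pf.nil))) (Pf.cons (Pf.B 10 8 (Pf.C 2 0x20509) (Pf.B 10 7 (Pf.C 2 0x1c508) (Pf.C 139 1287))) Pf.nil)))) (Pf.cons (Pf.B 9 8 (Pf.C 2 0x20487) (Pf.W 137 9 [] [7,8] (Pf.cons (Pf.C 81 0x1420389) (Pf.cons (Pf.C 81 0x1420389) (Pf.cons (Pf.C 82 0x101c509) (Pf.cons (Pf.C 82 0x101c509) Pf.nil)))))) Pf.nil))))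
 (Pq.cons (Pq.L [6] 1 (Pf.C 2 0x20307))
 (Pq.cons (Pq.L [6] 0 (Pf.W 125 7 [] [6,8] (Pf.cons (Pf.B 9 8 (Pf.C 3 0x24308) (Pf.C 126 1160)) Pf.nil)))
 (Pq.cons (Pq.L [6] 1 (Pf.C 2 0x20307))
 (Pq.cons (Pq.L [6] 0 (Pf.W 127 7 [] [6,8] (Pf.cons (Pf.B 9 8 (Pf.C 3 0x24308) (Pf.C 126 1160)) Pf.nil)))
 (Pq.cons (Pq.L [6] 1 (Pf.C 2 0x20307))
 (Pq.cons (Pq.L [] 1 (Pf.C 126 904))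
 (Pq.cons (Pq.L [6] 1 (Pf.W 129 7 [] [6,8] (Pf.cons (Pf.B 9 8 (Pf.W 74 6 [7] [8,9] (Pf.cons (Pf.B 10 9 (Pf.B 10 8 (Pf.C 3 0x28488) (Pf.C 75 0x1c508)) (Pf.C 75 0x1c509)) Pf.nil)) (Pf.C 2 99337)) Pf.nil)))
 (Pq.cons (Pq.L [0,1,6] 1 (Pf.W 74 6 [] [0,1,7,8] (Pf.cons (Pf.B 9 8 (Pf.B 9 7 (Pf.W 74 6 [9] [7,8] (Pf.cons (Pf.B 10 8 (Pf.W 78 6 [7] [8,9,10] (Pf.cons (Pf.B 11 8 (Pf.C 3 0x2c308) (Pf.C 75 0x1c588)) (Pf.cons (Pf.B 11 8 (Pf.B 11 9 (Pf.C 3 0x2440b) (Pf.B 11 7 (Pf.C 87 0xc2c407) (Pf.W 78 6 [7,11] [8,9,10] (Pf.cons (Pf.B 12 8 (Pf.C 3 0x30308) (Pf.C 75 0x1c608)) (Pf.cons (Pf.B 12 11 (Pf.C 2 0x2c606) (Pf.B 12 8 (Pf.B 12 9 (Pf.C 3 0x2440c) (Pf.B 12 7 (Pf.C 87 0xc30407) (Pf.C 0 0x90e1858c))) (Pf.C 2 99340)))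 (Pf.cons (Pf.B 12 8 (Pf.B 12 10 (Pf.C 3 0x2840c) (Pf.B 12 9 (Pf.C 3 0x2440c) (Pf.C 75 0x2848c))) (Pf.C 2 99340)) Pf.nil)))))) (Pf.C 2 99339)) (Pf.cons (Pf.B 11 8 (Pf.B 11 10 (Pf.C 3 0x2840b) (Pf.B 11 9 (Pf.C 3 0x2440b) (Pf.C 75 0x2848b))) (Pf.C 2 99339)) Pf.nil)))) (Pf.C 75 0x1c508)) Pf.nil)) (Pf.C 4 0xe24080)) (Pf.C 75 0x1c488)) Pf.nil)))
 (Pq.cons (Pq.L [6] 1 (Pf.W 131 7 [] [6,8] (Pf.cons (Pf.B 9 8 (Pf.W 90 0x1c309 [] [8] (Pf.cons (Pf.C 2 0x24506) (Pf.cons (Pf.C 2 0x24506) (Pf.cons (Pf.C 2 0x24506) (Pf.cons (Pf.C 2 0x24506) (Pf.cons (Pf.B 10 8 (Pf.C 3 0x28308) (Pf.C 75 0x1c508)) (Pf.cons (Pf.B 10 8 (Pf.C 3 0x28308) (Pf.C 75 0x1c508)) Pf.nil))))))) (Pf.C 2 99337)) (Pf.cons (Pf.B 9 8 (Pf.W 74 6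 [7] [8,9] (Pf.cons (Pf.B 10 9 (Pf.B 10 8 (Pf.C 3 0x28488) (Pf.C 75 0x1c508)) (Pf.C 75 0x1c509)) Pf.nil)) (Pf.C 2 99337)) Pf.nil))))
 (Pq.cons (Pq.L [0,1,6] 1 (Pf.W 144 7 [] [0,1,6,8] (Pf.cons (Pf.B 9 8 (Pf.W 134 9 [] [6,7,8] (Pf.cons (Pf.B 10 8 (Pf.C 3 0x28488) (Pf.C 75 0x1c508)) (Pf.cons (Pf.B 10 8 (Pf.B 10 7 (Pf.W 125 10 [] [6,8] (Pf.cons (Pf.B 11 8 (Pf.C 3 0x2c308) (Pf.C 126 1416)) Pf.nil)) (Pf.C 88 0x1220507)) (Pf.C 2 0x2440a)) Pf.nil))) (Pf.W 134 9 [] [0,1,6,7,8] (Pf.cons (Pf.B 10 8 (Pf.B 10 7 (Pf.W 129 10 [] [6,7,9] (Pf.cons (Pf.B 11 9 (Pf.B 11 7 (Pf.C 3 0x1c48b) (Pf.C 133 1415)) (Pf.C 2 99467)) Pf.nil)) (Pf.C 4 0xe28080)) (Pf.C 75 0x1c508)) (Pf.cons (Pf.B 10 7 (Pf.W 125 10 [] [6,8] (Pf.cons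 (Pf.B 11 8 (Pf.C 3 0x2c308) (Pf.C 126 1416)) Pf.nil)) (Pf.C 88 0x1220507)) Pf.nil)))) (Pf.cons (Pf.B 9 8 (Pf.W 137 9 [] [6,7,8] (Pf.cons (Pf.B 10 8 (Pf.C 3 0x28488) (Pf.C 75 0x1c508)) (Pf.cons (Pf.B 10 8 (Pf.C 3 0x28488) (Pf.C 75 0x1c508)) (Pf.cons (Pf.B 10 8 (Pf.B 10 7 (Pf.W 125 10 [] [6,8] (Pf.cons (Pf.B 11 8 (Pf.C 3 0x2c308) (Pf.C 126 1416)) Pf.nil)) (Pf.C 88 0x1220507)) (Pf.C 2 0x2440a)) (Pf.cons (Pf.B 10 8 (Pf.B 10 7 (Pf.W 127 10 [] [6,8] (Pf.cons (Pf.B 11 8 (Pf.C 3 0x2c308) (Pf.C 126 1416)) Pf.nil)) (Pf.C 88 0x1220507)) (Pf.C 2 0x2440a)) Pf.nil))))) (Pf.W 137 9 [] [7,8] (Pf.cons (Pf.C 80 0xe28409) (Pf.cons (Pf.C 80 0xe28409) (Pf.cons (Pf.C 81 0xe20509) (Pf.cons (Pf.C 81 0xe20509) Pf.nil))))))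 Pf.nil))))
 (Pq.cons (Pq.L [] 0 (Pf.X 6 7))
 (Pq.cons (Pq.L [6] 0 (Pf.W 134 7 [] [6,8] (Pf.cons (Pf.B 9 8 (Pf.W 129 9 [] [6,7,8] (Pf.cons (Pf.B 10 8 (Pf.B 10 7 (Pf.W 74 6 [9] [7,8,10] (Pf.cons (Pf.B 11 10 (Pf.B 11 8 (Pf.C 3 0x2c508) (Pf.W 74 7 [11] [8,9,10] (Pf.cons (Pf.B 12 10 (Pf.B 12 8 (Pf.C 3 0x30508) (Pf.C 75 0x2c608)) (Pf.C 75 0x2460a)) Pf.nil))) (Pf.C 75 0x2458a)) Pf.nil)) (Pf.C 2 99210)) (Pf.C 2 99338)) Pf.nil)) (Pf.W 129 9 [] [6,8] (Pf.cons (Pf.B 10 8 (Pf.W 74 6 [9] [8,10] (Pf.cons (Pf.B 11 10 (Pf.B 11 8 (Pf.C 3 0x2c508) (Pf.C 75 0x24588)) (Pf.C 75 0x2458a)) Pf.nil)) (Pf.C 2 99338)) Pf.nil))) (Pf.cons (Pf.W 125 9 [] [6,8] (Pf.cons (Pf.B 10 8 (Pf.C 3 0x28308) (Pf.C 128 1288)) Pf.nil)) Pf.nil))))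
 (Pq.cons (Pq.L [6] 1 (Pf.W 140 7 [] [6,8] (Pf.cons (Pf.B 9 8 (Pf.C 2 0x20487) (Pf.W 134 9 [] [6,7,8] (Pf.cons (Pf.B 10 8 (Pf.B 10 7 (Pf.C 135 1287) (Pf.W 129 10 [] [6,7,8,9] (Pf.cons (Pf.B 11 7 (Pf.W 78 7 [8,9] [10,11] (Pf.cons (Pf.B 12 11 (Pf.C 3 0x3038b) (Pf.C 75 0x2860b)) (Pf.cons (Pf.B 12 8 (Pf.C 2 0x20607) (Pf.C 84 0x121c608)) (Pf.cons (Pf.B 12 8 (Pf.C 2 0x20607) (Pf.C 84 0x121c608)) Pf.nil)))) (Pf.C 2 99211)) Pf.nil))) (Pf.C 84 0x121c508)) (Pf.cons (Pf.B 10 8 (Pf.C 2 0x20509) (Pf.C 84 0x121c508)) Pf.nil)))) Pf.nil)))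
 (Pq.cons (Pq.L [6] 1 (Pf.C 2 0x20307))
 (Pq.cons (Pq.L [6] 1 (Pf.W 137 7 [] [6,8] (Pf.cons (Pf.B 9 8 (Pf.W 129 9 [] [6,7,8] (Pf.cons (Pf.B 10 8 (Pf.B 10 7 (Pf.W 74 6 [9] [7,8,10] (Pf.cons (Pf.B 11 10 (Pf.B 11 8 (Pf.C 3 0x2c508) (Pf.W 74 7 [11] [8,9,10] (Pf.cons (Pf.B 12 10 (Pf.B 12 8 (Pf.C 3 0x30508) (Pf.C 75 0x2c608)) (Pf.C 75 0x2460a)) Pf.nil))) (Pf.C 75 0x2458a)) Pf.nil)) (Pf.C 2 99210)) (Pf.C 2 99338)) Pf.nil)) (Pf.W 129 9 [] [6,8] (Pf.cons (Pf.B 10 8 (Pf.W 74 6 [9] [8,10] (Pf.cons (Pf.B 11 10 (Pf.B 11 8 (Pf.C 3 0x2c508) (Pf.C 75 0x24588)) (Pf.C 75 0x2458a)) Pf.nil)) (Pf.C 2 99338)) Pf.nil))) (Pf.cons (Pf.B 9 8 (Pf.W 131 9 [] [6,7,8] (Pf.cons (Pf.B 10 8 (Pf.C 3 0x2440a) (Pf.C 2 99338)) (Pf.cons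 (Pf.B 10 8 (Pf.B 10 7 (Pf.W 74 6 [9] [7,8,10] (Pf.cons (Pf.B 11 10 (Pf.B 11 8 (Pf.C 3 0x2c508) (Pf.W 74 7 [11] [8,9,10] (Pf.cons (Pf.B 12 10 (Pf.B 12 8 (Pf.C 3 0x30508) (Pf.C 75 0x2c608)) (Pf.C 75 0x2460a)) Pf.nil))) (Pf.C 75 0x2458a)) Pf.nil)) (Pf.C 2 99210)) (Pf.C 2 99338)) Pf.nil))) (Pf.W 131 9 [] [7,8] (Pf.cons (Pf.C 87 0xe28409) (Pf.cons (Pf.C 88 0xe20509) Pf.nil)))) (Pf.cons (Pf.W 125 9 [] [6,8] (Pf.cons (Pf.B 10 8 (Pf.C 3 0x28308) (Pf.C 128 1288)) Pf.nil)) (Pf.cons (Pf.B 9 8 (Pf.C 2 0x20487) (Pf.W 127 9 [] [7,8] (Pf.cons (Pf.C 84 0x101c509) Pf.nil))) Pf.nil))))))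
 (Pq.cons (Pq.L [6] 1 (Pf.W 142 7 [] [6,8] (Pf.cons (Pf.B 9 8 (Pf.C 2 0x20487) (Pf.W 134 9 [] [6,7,8] (Pf.cons (Pf.B 10 8 (Pf.W 129 10 [] [6,8,9] (Pf.cons (Pf.B 11 9 (Pf.B 11 8 (Pf.W 74 6 [10] [8,9,11] (Pf.cons (Pf.B 12 11 (Pf.B 12 8 (Pf.C 3 0x30588) (Pf.W 74 9 [12] [8,10,11] (Pf.cons (Pf.B 13 11 (Pf.B 13 8 (Pf.C 3 0x34588) (Pf.C 75 0x30688)) (Pf.C 75 0x2868b)) Pf.nil))) (Pf.C 75 0x2860b)) Pf.nil)) (Pf.C 2 99339)) (Pf.C 2 99467)) Pf.nil)) (Pf.C 84 0x121c508)) (Pf.cons (Pf.B 10 8 (Pf.C 2 0x20509) (Pf.C 84 0x121c508)) Pf.nil)))) (Pf.cons (Pf.B 9 8 (Pf.C 2 0x20487) (Pf.W 137 9 [] [7,8] (Pf.cons (Pf.C 81 0x1420389) (Pf.cons (Pf.C 81 0x1420389) (Pf.cons (Pf.C 82 0x101c509) (Pf.cons (Pf.C 82 0x101c509)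 Pf.nil)))))) Pf.nil))))
 (Pq.cons (Pq.L [6] 1 (Pf.C 2 0x20307))
 (Pq.cons (Pq.L [6] 0 (Pf.W 125 7 [] [6,8] (Pf.cons (Pf.B 9 8 (Pf.C 3 0x24308) (Pf.C 128 1160)) Pf.nil)))
 (Pq.cons (Pq.L [6] 1 (Pf.C 2 0x20307))
 (Pq.cons (Pq.L [6] 0 (Pf.W 127 7 [] [6,8] (Pf.cons (Pf.B 9 8 (Pf.C 3 0x24308) (Pf.C 128 1160)) Pf.nil)))
 (Pq.cons (Pq.L [6] 1 (Pf.C 2 0x20307))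
 (Pq.cons (Pq.L [] 1 (Pf.C 128 904))
 (Pq.cons (Pq.L [6] 1 (Pf.W 129 7 [] [6,8] (Pf.cons (Pf.B 9 8 (Pf.W 74 6 [7] [8,9] (Pf.cons (Pf.B 10 9 (Pf.B 10 8 (Pf.C 3 0x28488) (Pf.C 75 0x1c508)) (Pf.C 75 0x1c509)) Pf.nil)) (Pf.C 2 99337)) Pf.nil)))
 (Pq.cons (Pq.L [0,1,6] 1 (Pf.W 74 6 [] [0,1,7,8] (Pf.cons (Pf.B 9 8 (Pf.B 9 7 (Pf.W 74 6 [9] [7,8] (Pf.cons (Pf.B 10 8 (Pf.W 78 6 [7] [8,9,10] (Pf.cons (Pf.B 11 8 (Pf.C 3 0x2c308) (Pf.C 75 0x1c588)) (Pf.cons (Pf.B 11 8 (Pf.B 11 9 (Pf.C 3 0x2440b) (Pf.B 11 7 (Pf.C 87 0xc2c407) (Pf.W 78 6 [7,11] [8,9,10] (Pf.cons (Pf.B 12 8 (Pf.C 3 0x30308) (Pf.C 75 0x1c608)) (Pf.cons (Pf.B 12 11 (Pf.C 2 0x2c606) (Pf.B 12 8 (Pf.B 12 9 (Pf.C 3 0x2440c) (Pf.B 12 7 (Pf.C 87 0xc30407)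 (Pf.C 0 0x90e1858c))) (Pf.C 2 99340))) (Pf.cons (Pf.B 12 8 (Pf.B 12 10 (Pf.C 3 0x2840c) (Pf.B 12 9 (Pf.C 3 0x2440c) (Pf.C 75 0x2848c))) (Pf.C 2 99340)) Pf.nil)))))) (Pf.C 2 99339)) (Pf.cons (Pf.B 11 8 (Pf.B 11 10 (Pf.C 3 0x2840b) (Pf.B 11 9 (Pf.C 3 0x2440b) (Pf.C 75 0x2848b))) (Pf.C 2 99339)) Pf.nil)))) (Pf.C 75 0x1c508)) Pf.nil)) (Pf.C 4 0xe24080)) (Pf.C 75 0x1c488)) Pf.nil)))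
 (Pq.cons (Pq.L [6] 1 (Pf.W 131 7 [] [6,8] (Pf.cons (Pf.B 9 8 (Pf.W 90 0x1c309 [] [8] (Pf.cons (Pf.C 2 0x24506) (Pf.cons (Pf.C 2 0x24506) (Pf.cons (Pf.C 2 0x24506) (Pf.cons (Pf.C 2 0x24506) (Pf.cons (Pf.B 10 8 (Pf.C 3 0x28308) (Pf.C 75 0x1c508)) (Pf.cons (Pf.B 10 8 (Pf.C 3 0x28308) (Pf.C 75 0x1c508)) Pf.nil))))))) (Pf.C 2 99337)) (Pf.cons (Pf.B 9 8 (Pf.W 74 6 [7] [8,9] (Pf.cons (Pf.B 10 9 (Pf.B 10 8 (Pf.C 3 0x28488) (Pf.C 75 0x1c508)) (Pf.C 75 0x1c509)) Pf.nil)) (Pf.C 2 99337)) Pf.nil))))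
 (Pq.cons (Pq.L [0,1,6] 1 (Pf.W 144 7 [] [0,1,6,8] (Pf.cons (Pf.B 9 8 (Pf.W 134 9 [] [6,7,8] (Pf.cons (Pf.B 10 8 (Pf.C 3 0x28488) (Pf.C 75 0x1c508)) (Pf.cons (Pf.B 10 8 (Pf.B 10 7 (Pf.W 125 10 [] [6,8] (Pf.cons (Pf.B 11 8 (Pf.C 3 0x2c308) (Pf.C 128 1416)) Pf.nil)) (Pf.C 88 0x1220507)) (Pf.C 2 0x2440a)) Pf.nil))) (Pf.W 134 9 [] [0,1,6,7,8] (Pf.cons (Pf.B 10 8 (Pf.B 10 7 (Pf.W 129 10 [] [6,7,9] (Pf.cons (Pf.B 11 9 (Pf.B 11 7 (Pf.C 3 0x1c48b) (Pf.C 133 1415)) (Pf.C 2 99467)) Pf.nil)) (Pf.C 4 0xe28080)) (Pf.C 75 0x1c508)) (Pf.cons (Pf.B 10 8 (Pf.C 2 0x20509) (Pf.C 84 0x121c508)) Pf.nil)))) (Pf.cons (Pf.B 9 8 (Pf.W 137 9 [] [6,7,8] (Pf.cons (Pf.B 10 8 (Pf.C 3 0x28488) (Pf.C 75 0x1c508)) (Pf.cons (Pf.B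 10 8 (Pf.C 3 0x28488) (Pf.C 75 0x1c508)) (Pf.cons (Pf.B 10 8 (Pf.B 10 7 (Pf.W 125 10 [] [6,8] (Pf.cons (Pf.B 11 8 (Pf.C 3 0x2c308) (Pf.C 128 1416)) Pf.nil)) (Pf.C 88 0x1220507)) (Pf.C 2 0x2440a)) (Pf.cons (Pf.B 10 8 (Pf.B 10 7 (Pf.W 127 10 [] [6,8] (Pf.cons (Pf.B 11 8 (Pf.C 3 0x2c308) (Pf.C 128 1416)) Pf.nil)) (Pf.C 88 0x1220507)) (Pf.C 2 0x2440a)) Pf.nil))))) (Pf.W 137 9 [] [7,8] (Pf.cons (Pf.C 80 0xe28409) (Pf.cons (Pf.C 80 0xe28409) (Pf.cons (Pf.C 81 0xe20509) (Pf.cons (Pf.C 81 0xe20509) Pf.nil)))))) Pf.nil))))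
 (Pq.cons (Pq.L [] 0 (Pf.X 6 7))
 Pq.nil)))))))))))))))))))))))))))))))))))))))))))))))))))))))))))))))))
theorem hh_o65 : AllRef hh_T hh_G80 (List.take 65 (closeObl (hh_T.sc.get 0) false [157,161,162,138,159,163,164,140,149,150,142,151,152,144,145,153,154,147,155,165,166] [0,0,0,0,0,0,0,0,1,1,1,1,1,1,2,2,2,2,2,2,2] [6] [0] 0xeedbb)) :=
  chkPq_sound hh_o65c _ (by decide +kernel)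
noncomputable def hh_o66c : Pq := (Pq.cons (Pq.L [0,1,6] 1 (Pf.W 134 7 [] [0,1,6,8] (Pf.cons (Pf.B 9 8 (Pf.W 129 9 [] [6,7,8] (Pf.cons (Pf.B 10 8 (Pf.B 10 7 (Pf.C 3 0x2038a) (Pf.C 2 99210)) (Pf.C 130 1288)) Pf.nil)) (Pf.C 4 0x1024080)) (Pf.cons (Pf.B 9 8 (Pf.W 125 9 [] [0,1,6,7,8] (Pf.cons (Pf.B 10 8 (Pf.B 10 7 (Pf.C 3 0x28307) (Pf.W 74 6 [8] [0,1,7,9,10] (Pf.cons (Pf.B 11 10 (Pf.B 11 9 (Pf.B 11 8 (Pf.B 11 7 (Pf.W 74 7 [10] [0,1,8,9,11] (Pf.cons (Pf.B 12 11 (Pf.B 12 9 (Pf.B 12 8 (Pf.C 1 0x90e30588) (Pf.C 4 0x1030080)) (Pf.C 75 0x28609)) (Pf.C 4 0x1630080)) Pf.nil)) (Pf.W 78 6 [10] [0,1,7,8,9,11] (Pf.cons (Pf.B 12 9 (Pf.C 3 0x30309) (Pf.C 75 0x28609)) (Pf.cons (Pf.B 12 9 (Pf.B 12 11 (Pf.C 3 0x2c48c)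 (Pf.B 12 8 (Pf.C 3 0x2048c) (Pf.B 12 10 (Pf.T 12 12 (Pf.cons (Pf.T 12 37 (Pf.cons (Pf.T 12 38 (Pf.cons (Pf.W 78 6 [10,12] [0,1,7,8,9,11] (Pf.cons (Pf.B 13 9 (Pf.C 3 0x34309) (Pf.C 75 0x28689)) (Pf.cons (Pf.B 13 12 (Pf.C 2 0x30686) (Pf.B 13 9 (Pf.B 13 11 (Pf.C 3 0x2c48d) (Pf.B 13 8 (Pf.C 3 0x2048d) (Pf.T 13 12 (Pf.cons (Pf.T 13 37 (Pf.cons (Pf.T 13 38 (Pf.cons (Pf.W 85 8 [7] [0,1,6,9,10,11,12,13] (Pf.cons (Pf.B 14 9 (Pf.C 3 0x2048e) (Pf.B 14 12 (Pf.B 14 10 (Pf.C 3 0x2860e) (Pf.B 14 7 (Pf.C 2 0x1c709) (Pf.B 14 11 (Pf.B 14 6 (Pf.T 14 12 (Pf.cons (Pf.T 14 37 (Pf.cons (Pf.T 14 38 (Pf.cons (Pf.T 14 48 (Pf.cons (Pf.W 74 14 [10] [0,1,8,9,11] (Pf.cons (Pf.B 15 11 (Pf.B 15 9 (Pf.B 15 8 (Pf.C 1 0x91c3c588)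 (Pf.C 4 0x103c080)) (Pf.C 75 0x28789)) (Pf.C 4 0x163c080)) Pf.nil)) (Pf.cons (Pf.C 136 1166) Pf.nil))) Pf.nil)) Pf.nil)) (Pf.cons (Pf.C 81 0x102438e) Pf.nil))) (Pf.C 2 0x1c30e)) (Pf.C 0 0xa162438e)))) (Pf.C 2 0x2460e))) (Pf.cons (Pf.B 14 11 (Pf.B 14 10 (Pf.B 14 12 (Pf.C 3 0x2860e) (Pf.B 14 13 (Pf.C 2 0x3470c) (Pf.C 0 0x8163860d))) (Pf.C 75 0x2050e)) (Pf.C 75 0x2058e)) Pf.nil))) Pf.nil)) Pf.nil)) (Pf.cons (Pf.T 13 39 (Pf.cons (Pf.W 85 8 [7] [0,1,6,9,10,11,12,13] (Pf.cons (Pf.B 14 13 (Pf.B 14 12 (Pf.B 14 10 (Pf.C 3 0x2860e) (Pf.B 14 9 (Pf.C 3 0x2048e) (Pf.B 14 7 (Pf.C 2 0x1c709) (Pf.B 14 11 (Pf.B 14 6 (Pf.T 14 12 (Pf.cons (Pf.T 14 37 (Pf.cons (Pf.T 14 38 (Pf.cons (Pf.T 14 48 (Pf.cons (Pf.W 74 14 [10]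 [0,1,8,9,11] (Pf.cons (Pf.B 15 11 (Pf.B 15 9 (Pf.B 15 8 (Pf.C 1 0x91c3c588) (Pf.C 4 0x103c080)) (Pf.C 75 0x28789)) (Pf.C 4 0x163c080)) Pf.nil)) (Pf.cons (Pf.C 136 1166) Pf.nil))) Pf.nil)) Pf.nil)) (Pf.cons (Pf.C 81 0x102438e) Pf.nil))) (Pf.C 2 0x1c30e)) (Pf.C 0 0xa162438e))))) (Pf.C 2 0x3470c)) (Pf.C 82 0x181870d)) (Pf.cons (Pf.B 14 13 (Pf.B 14 12 (Pf.B 14 10 (Pf.C 3 0x2860e) (Pf.C 75 0x2050e)) (Pf.C 2 0x3470c)) (Pf.C 82 0x181870d)) Pf.nil))) Pf.nil)) Pf.nil))))) (Pf.C 2 99469))) (Pf.cons (Pf.B 13 9 (Pf.B 13 11 (Pf.C 3 0x2c48d) (Pf.B 13 8 (Pf.C 3 0x2048d) (Pf.C 75 0x2c40d))) (Pf.C 2 99469)) Pf.nil)))) Pf.nil)) Pf.nil)) (Pf.cons (Pf.T 12 39 (Pf.cons (Pf.W 78 6 [10,12] [9] (Pf.cons (Pf.B 13 9 (Pf.C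 3 0x34309) (Pf.C 75 0x28689)) (Pf.cons (Pf.B 13 12 (Pf.C 2 0x30686) (Pf.C 81 0x141868c)) (Pf.cons (Pf.B 13 12 (Pf.C 2 0x30686) (Pf.C 81 0x141868c)) Pf.nil)))) Pf.nil)) Pf.nil))) (Pf.T 12 12 (Pf.cons (Pf.T 12 37 (Pf.cons (Pf.T 12 38 (Pf.cons (Pf.W 78 6 [10,12] [0,1,7,8,9,11] (Pf.cons (Pf.B 13 9 (Pf.C 3 0x34309) (Pf.C 75 0x28689)) (Pf.cons (Pf.B 13 12 (Pf.C 2 0x30686) (Pf.B 13 9 (Pf.B 13 11 (Pf.C 3 0x2c48d) (Pf.B 13 10 (Pf.B 13 8 (Pf.C 3 0x2048d) (Pf.T 13 12 (Pf.cons (Pf.T 13 37 (Pf.cons (Pf.T 13 38 (Pf.cons (Pf.W 85 8 [7] [0,1,6,9,10,11,12,13] (Pf.cons (Pf.B 14 9 (Pf.C 3 0x2048e) (Pf.B 14 13 (Pf.B 14 10 (Pf.C 3 0x2868e) (Pf.B 14 7 (Pf.C 2 0x1c709) (Pf.B 14 11 (Pf.B 14 6 (Pf.T 14 12 (Pf.cons (Pf.T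 14 37 (Pf.cons (Pf.T 14 38 (Pf.cons (Pf.T 14 48 (Pf.cons (Pf.W 74 14 [10] [0,1,8,9,11] (Pf.cons (Pf.B 15 11 (Pf.B 15 9 (Pf.B 15 8 (Pf.C 1 0x91c3c588) (Pf.C 4 0x103c080)) (Pf.C 75 0x28789)) (Pf.C 4 0x163c080)) Pf.nil)) (Pf.cons (Pf.C 136 1166) Pf.nil))) Pf.nil)) Pf.nil)) (Pf.cons (Pf.C 81 0x102438e) Pf.nil))) (Pf.C 2 0x1c30e)) (Pf.C 0 0xa162438e)))) (Pf.C 2 0x2468e))) (Pf.cons (Pf.B 14 11 (Pf.B 14 10 (Pf.B 14 13 (Pf.C 3 0x2868e) (Pf.B 14 12 (Pf.C 2 0x3070d) (Pf.C 0 0x8163868c))) (Pf.C 75 0x2050e)) (Pf.C 75 0x2058e)) Pf.nil))) Pf.nil)) Pf.nil)) (Pf.cons (Pf.C 81 0x143030d) Pf.nil)))) (Pf.C 0 0xb141860d))) (Pf.C 2 99469))) (Pf.cons (Pf.B 13 9 (Pf.B 13 11 (Pf.C 3 0x2c48d) (Pf.B 13 8 (Pf.C 3 0x2048d)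 (Pf.C 75 0x2c40d))) (Pf.C 2 99469)) Pf.nil)))) Pf.nil)) Pf.nil)) (Pf.cons (Pf.T 12 39 (Pf.cons (Pf.W 78 6 [10,12] [0,1,7,8,9,11] (Pf.cons (Pf.B 13 9 (Pf.C 3 0x34309) (Pf.C 75 0x28689)) (Pf.cons (Pf.B 13 12 (Pf.C 2 0x30686) (Pf.B 13 9 (Pf.B 13 11 (Pf.C 3 0x2c48d) (Pf.B 13 10 (Pf.B 13 8 (Pf.C 3 0x2048d) (Pf.T 13 12 (Pf.cons (Pf.T 13 37 (Pf.cons (Pf.T 13 38 (Pf.cons (Pf.W 85 8 [7] [0,1,6,9,10,11,12,13] (Pf.cons (Pf.B 14 12 (Pf.B 14 13 (Pf.B 14 10 (Pf.C 3 0x2868e) (Pf.B 14 9 (Pf.C 3 0x2048e) (Pf.B 14 7 (Pf.C 2 0x1c709) (Pf.B 14 11 (Pf.B 14 6 (Pf.T 14 12 (Pf.cons (Pf.T 14 37 (Pf.cons (Pf.T 14 38 (Pf.cons (Pf.T 14 48 (Pf.cons (Pf.W 74 14 [10] [0,1,8,9,11] (Pf.cons (Pf.B 15 11 (Pf.B 15 9 (Pf.B 15 8 (Pf.C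 1 0x91c3c588) (Pf.C 4 0x103c080)) (Pf.C 75 0x28789)) (Pf.C 4 0x163c080)) Pf.nil)) (Pf.cons (Pf.C 136 1166) Pf.nil))) Pf.nil)) Pf.nil)) (Pf.cons (Pf.C 81 0x102438e) Pf.nil))) (Pf.C 2 0x1c30e)) (Pf.C 0 0xa162438e))))) (Pf.C 2 0x3070d)) (Pf.C 82 0x1a1870c)) (Pf.cons (Pf.B 14 12 (Pf.B 14 13 (Pf.B 14 10 (Pf.C 3 0x2868e) (Pf.C 75 0x2050e)) (Pf.C 2 0x3070d)) (Pf.C 82 0x1a1870c)) Pf.nil))) Pf.nil)) Pf.nil)) (Pf.cons (Pf.C 81 0x143030d) Pf.nil)))) (Pf.C 0 0xb141860d))) (Pf.C 2 99469))) (Pf.cons (Pf.B 13 9 (Pf.B 13 11 (Pf.C 3 0x2c48d) (Pf.B 13 8 (Pf.C 3 0x2048d) (Pf.C 75 0x2c40d))) (Pf.C 2 99469)) Pf.nil)))) Pf.nil)) Pf.nil)))))) (Pf.C 2 99468)) (Pf.cons (Pf.B 12 9 (Pf.B 12 11 (Pf.C 3 0x2c48c) (Pf.B 12 8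 (Pf.C 3 0x2048c) (Pf.C 75 0x2c40c))) (Pf.C 2 99468)) Pf.nil))))) (Pf.C 4 0x102c080)) (Pf.C 75 0x28589)) (Pf.C 4 0x142c080)) Pf.nil))) (Pf.C 4 0x1028080)) Pf.nil)) (Pf.W 125 9 [] [8] (Pf.cons (Pf.C 75 0x20509) Pf.nil))) Pf.nil))))
 (Pq.cons (Pq.L [0,1,6] 1 (Pf.W 140 7 [] [0,1,6,8] (Pf.cons (Pf.B 9 8 (Pf.W 134 9 [] [0,1,6,7,8] (Pf.cons (Pf.B 10 8 (Pf.W 129 10 [] [6,8,9] (Pf.cons (Pf.B 11 9 (Pf.B 11 8 (Pf.C 3 0x2048b) (Pf.C 130 1416)) (Pf.C 2 99467)) Pf.nil)) (Pf.C 4 0x1028080)) (Pf.cons (Pf.B 10 7 (Pf.C 2 0x1c509) (Pf.C 136 1287)) Pf.nil))) (Pf.W 134 9 [] [0,1,6,7,8] (Pf.cons (Pf.B 10 8 (Pf.W 129 10 [] [6,7,8] (Pf.cons (Pf.B 11 8 (Pf.B 11 7 (Pf.C 3 0x2038b) (Pf.C 2 99211)) (Pf.C 130 1416)) Pf.nil))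 (Pf.C 4 0x1028080)) (Pf.cons (Pf.B 10 7 (Pf.C 2 0x1c509) (Pf.C 136 1287)) Pf.nil)))) Pf.nil)))
 (Pq.cons (Pq.L [0,1,6] 1 (Pf.W 74 6 [8] [0,1,7] (Pf.cons (Pf.B 9 8 (Pf.B 9 7 (Pf.W 74 7 [] [0,1,8,9] (Pf.cons (Pf.B 10 9 (Pf.B 10 8 (Pf.W 74 7 [10] [0,1,8,9] (Pf.cons (Pf.B 11 10 (Pf.B 11 9 (Pf.B 11 8 (Pf.C 1 0xa0e2c488) (Pf.C 4 0x102c080)) (Pf.C 4 0x122c080)) (Pf.C 4 0x142c080)) Pf.nil)) (Pf.C 4 0x1028080)) (Pf.C 4 0x1228080)) Pf.nil)) (Pf.W 74 7 [9] [0,1,6,8] (Pf.cons (Pf.B 10 9 (Pf.B 10 8 (Pf.W 78 7 [6,8] [0,1,9,10] (Pf.cons (Pf.B 11 10 (Pf.B 11 9 (Pf.B 11 8 (Pf.C 1 0xa0e2440b) (Pf.C 4 0x102c080)) (Pf.C 4 0x122c080)) (Pf.C 4 0x142c080)) (Pf.cons (Pf.B 11 6 (Pf.C 2 99719) (Pf.B 11 10 (Pf.B 11 9 (Pf.B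 11 8 (Pf.T 11 12 (Pf.cons (Pf.T 11 37 (Pf.cons (Pf.T 11 38 (Pf.cons (Pf.W 85 8 [7,11] [0,1,6,9,10] (Pf.cons (Pf.B 12 11 (Pf.C 3 0x2058c) (Pf.B 12 7 (Pf.C 2 0x1c60b) (Pf.B 12 6 (Pf.C 2 99847) (Pf.B 12 9 (Pf.C 0 0xb1230386) (Pf.B 12 10 (Pf.C 1 0xb182440a) (Pf.B 10 6 (Pf.C 0 0x91418607) (Pf.T 12 12 (Pf.cons (Pf.T 12 37 (Pf.cons (Pf.T 12 38 (Pf.cons (Pf.W 90 0x20307 [] [0,1,9,10,11,12] (Pf.cons (Pf.C 2 0x1c686) (Pf.cons (Pf.C 2 0x1c686) (Pf.cons (Pf.C 2 0x1c686) (Pf.cons (Pf.C 2 0x1c686) (Pf.cons (Pf.B 13 10 (Pf.B 13 12 (Pf.B 13 9 (Pf.B 13 8 (Pf.C 1 0xa182440d) (Pf.C 4 0x1034080)) (Pf.C 4 0x1234080)) (Pf.C 0 0xa1a1838c)) (Pf.C 4 0x1434080)) (Pf.cons (Pf.B 13 10 (Pf.B 13 12 (Pf.B 13 11 (Pf.C 86 0x181858d)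 (Pf.C 0 0xc1a1838b)) (Pf.C 0 0xa1a1838c)) (Pf.C 4 0x1434080)) Pf.nil))))))) Pf.nil)) Pf.nil)) (Pf.cons (Pf.C 81 0x101c30c) Pf.nil))))))))) (Pf.cons (Pf.B 12 10 (Pf.B 12 11 (Pf.C 3 0x2858c) (Pf.B 12 9 (Pf.C 1 0xb1820509) (Pf.C 75 0x2048c))) (Pf.C 75 0x2050c)) Pf.nil))) Pf.nil)) Pf.nil)) (Pf.cons (Pf.C 81 0x101c30b) Pf.nil))) (Pf.W 85 8 [7] [6,9,10,11] (Pf.cons (Pf.B 12 7 (Pf.C 3 0x2038c) (Pf.B 12 11 (Pf.C 2 0x2c607) (Pf.B 12 6 (Pf.C 2 99847) (Pf.C 0 0x71030586)))) (Pf.cons (Pf.B 12 10 (Pf.B 12 11 (Pf.C 3 0x2858c) (Pf.B 12 9 (Pf.B 12 7 (Pf.C 2 0x1c60b) (Pf.B 12 6 (Pf.C 2 99847) (Pf.C 0 0xb1230386))) (Pf.C 75 0x2048c))) (Pf.C 75 0x2050c)) Pf.nil)))) (Pf.B 11 8 (Pf.B 10 6 (Pf.T 11 12 (Pf.cons (Pf.T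 11 37 (Pf.cons (Pf.T 11 38 (Pf.cons (Pf.W 90 0x20307 [] [0,1,9,10,11] (Pf.cons (Pf.C 2 0x1c606) (Pf.cons (Pf.C 2 0x1c606) (Pf.cons (Pf.C 2 0x1c606) (Pf.cons (Pf.C 2 0x1c606) (Pf.cons (Pf.T 10 42 (Pf.cons (Pf.W 74 11 [9] [0,1,8,10] (Pf.cons (Pf.B 12 10 (Pf.B 12 9 (Pf.B 12 8 (Pf.C 1 0x91630508) (Pf.C 4 0x1030080)) (Pf.C 4 0x1230080)) (Pf.C 4 0x1430080)) Pf.nil)) Pf.nil)) (Pf.cons (Pf.B 12 10 (Pf.B 12 9 (Pf.B 12 8 (Pf.C 1 0x90c2050c) (Pf.C 4 0x1030080)) (Pf.C 4 0x1230080)) (Pf.C 4 0x1430080)) (Pf.cons (Pf.T 10 43 (Pf.cons (Pf.W 85 8 [7,11] [6,10] (Pf.cons (Pf.B 12 11 (Pf.C 3 0x2058c) (Pf.B 12 10 (Pf.C 86 0x161860a) (Pf.B 12 7 (Pf.C 2 0x1c60b) (Pf.B 12 6 (Pf.C 2 99847) (Pf.C 0 0xb141838c))))) (Pf.cons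 (Pf.B 12 10 (Pf.B 12 11 (Pf.C 3 0x2858c) (Pf.B 12 7 (Pf.C 2 0x1c60b) (Pf.B 12 6 (Pf.C 2 99847) (Pf.C 0 0xb101c30c)))) (Pf.C 75 0x2050c)) Pf.nil))) Pf.nil)) (Pf.cons (Pf.B 12 10 (Pf.B 12 9 (Pf.B 12 8 (Pf.C 1 0x90c2050c) (Pf.C 4 0x1030080)) (Pf.C 4 0x1230080)) (Pf.C 4 0x1430080)) Pf.nil))))))))) Pf.nil)) Pf.nil)) (Pf.cons (Pf.C 81 0x101c30b) Pf.nil))) (Pf.C 0 0xb1424386)) (Pf.C 0 0x9101c30b))) (Pf.B 11 9 (Pf.B 10 6 (Pf.B 11 8 (Pf.T 11 12 (Pf.cons (Pf.T 11 37 (Pf.cons (Pf.T 11 38 (Pf.cons (Pf.W 78 6 [7,11] [0,1,8,9,10] (Pf.cons (Pf.W 85 8 [7,11] [6,9,10] (Pf.cons (Pf.B 12 11 (Pf.C 3 0x2058c) (Pf.B 12 7 (Pf.C 2 0x1c60b) (Pf.B 12 6 (Pf.C 2 99847) (Pf.B 12 10 (Pf.C 0 0x61430587) (Pf.B 12 9 (Pf.C 0 0xb1230386)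 (Pf.C 0 0x6142438c)))))) (Pf.cons (Pf.B 12 9 (Pf.B 12 11 (Pf.C 3 0x2458c) (Pf.B 12 7 (Pf.C 2 0x1c60b) (Pf.B 12 6 (Pf.C 2 99847) (Pf.C 0 0xb101c30c)))) (Pf.C 75 0x2048c)) Pf.nil))) (Pf.cons (Pf.B 12 10 (Pf.B 12 9 (Pf.B 12 8 (Pf.C 1 0x90c2050c) (Pf.C 4 0x1030080)) (Pf.C 4 0x1230080)) (Pf.C 4 0x1430080)) (Pf.cons (Pf.B 12 11 (Pf.C 2 0x2c606) (Pf.B 12 7 (Pf.C 2 0x1c606) (Pf.B 12 10 (Pf.C 0 0x61430587) (Pf.B 12 9 (Pf.C 0 0xb1230386) (Pf.C 0 0x6142438c))))) (Pf.cons (Pf.B 12 11 (Pf.C 2 0x2c606) (Pf.B 12 7 (Pf.C 2 0x1c606) (Pf.B 12 10 (Pf.C 0 0x61430587) (Pf.B 12 9 (Pf.C 0 0xb1230386) (Pf.C 75 0x2848c))))) Pf.nil))))) Pf.nil)) Pf.nil)) (Pf.cons (Pf.C 81 0x101c30b) Pf.nil))) (Pf.W 85 8 [7] [6,9,11] (Pf.cons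 (Pf.B 12 7 (Pf.C 3 0x2038c) (Pf.B 12 11 (Pf.C 2 0x2c607) (Pf.B 12 6 (Pf.C 2 99847) (Pf.C 0 0x71030586)))) (Pf.cons (Pf.B 12 9 (Pf.B 12 11 (Pf.C 3 0x2458c) (Pf.B 12 7 (Pf.C 2 0x1c60b) (Pf.B 12 6 (Pf.C 2 99847) (Pf.C 0 0xb1230386)))) (Pf.C 75 0x2048c)) Pf.nil)))) (Pf.C 0 0xb1228386)) (Pf.B 11 8 (Pf.B 10 6 (Pf.C 0 0x91418587) (Pf.T 11 12 (Pf.cons (Pf.T 11 37 (Pf.cons (Pf.T 11 38 (Pf.cons (Pf.W 90 0x20307 [] [0,1,9,10,11] (Pf.cons (Pf.C 2 0x1c606) (Pf.cons (Pf.C 2 0x1c606) (Pf.cons (Pf.C 2 0x1c606) (Pf.cons (Pf.C 2 0x1c606) (Pf.cons (Pf.B 12 10 (Pf.B 12 11 (Pf.B 12 9 (Pf.B 12 8 (Pf.C 1 0xa162440c) (Pf.C 4 0x1030080)) (Pf.C 4 0x1230080)) (Pf.C 0 0xa181838b)) (Pf.C 4 0x1430080)) (Pf.cons (Pf.B 12 10 (Pf.B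 12 11 (Pf.B 12 9 (Pf.B 12 8 (Pf.C 1 0xa162440c) (Pf.C 4 0x1030080)) (Pf.C 4 0x1230080)) (Pf.C 0 0xa181838b)) (Pf.C 4 0x1430080)) Pf.nil))))))) Pf.nil)) Pf.nil)) (Pf.cons (Pf.C 81 0x101c30b) Pf.nil)))) (Pf.C 0 0x9101c30b))))) (Pf.cons (Pf.B 11 6 (Pf.C 2 99719) (Pf.B 11 10 (Pf.B 11 9 (Pf.B 11 8 (Pf.T 11 13 (Pf.cons (Pf.T 11 40 (Pf.cons (Pf.W 85 8 [7] [0,1,6,9,10,11] (Pf.cons (Pf.B 12 11 (Pf.C 3 0x2058c) (Pf.B 12 7 (Pf.C 2 0x1c60b) (Pf.B 12 6 (Pf.C 2 99847) (Pf.B 12 9 (Pf.C 0 0xb1230386) (Pf.B 12 10 (Pf.C 1 0xb182440a) (Pf.B 10 6 (Pf.C 0 0x91418607) (Pf.T 12 12 (Pf.cons (Pf.T 12 37 (Pf.cons (Pf.T 12 38 (Pf.cons (Pf.W 90 0x20307 [] [0,1,9,10,12] (Pf.cons (Pf.C 2 0x1c686) (Pf.cons (Pf.C 2 0x1c686) (Pf.cons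 (Pf.C 2 0x1c686) (Pf.cons (Pf.C 2 0x1c686) (Pf.cons (Pf.B 13 10 (Pf.B 13 12 (Pf.B 13 9 (Pf.B 13 8 (Pf.C 1 0xa182440d) (Pf.C 4 0x1034080)) (Pf.C 4 0x1234080)) (Pf.C 0 0xa1a1838c)) (Pf.C 4 0x1434080)) (Pf.cons (Pf.B 13 10 (Pf.B 13 12 (Pf.B 13 9 (Pf.B 13 8 (Pf.C 1 0xa182440d) (Pf.C 4 0x1034080)) (Pf.C 4 0x1234080)) (Pf.C 0 0xa1a1838c)) (Pf.C 4 0x1434080)) Pf.nil))))))) Pf.nil)) Pf.nil)) (Pf.cons (Pf.C 81 0x101c30c) Pf.nil))))))))) (Pf.cons (Pf.B 12 10 (Pf.B 12 11 (Pf.C 3 0x2858c) (Pf.B 12 9 (Pf.C 1 0xb1820509) (Pf.C 75 0x2048c))) (Pf.C 75 0x2050c)) Pf.nil))) Pf.nil)) (Pf.cons (Pf.T 11 41 (Pf.cons (Pf.W 85 8 [7] [6,10,11] (Pf.cons (Pf.B 12 11 (Pf.C 3 0x2058c) (Pf.C 84 0xe1860b)) (Pf.cons (Pf.B 12 11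 (Pf.B 12 10 (Pf.C 3 0x2858c) (Pf.C 75 0x2050c)) (Pf.C 84 0xe1860b)) Pf.nil))) Pf.nil)) Pf.nil))) (Pf.T 11 13 (Pf.cons (Pf.T 11 40 (Pf.cons (Pf.C 130 1416) Pf.nil)) (Pf.cons (Pf.C 84 0x101c30b) Pf.nil)))) (Pf.B 11 8 (Pf.B 10 6 (Pf.W 90 0x20307 [] [0,1,9,10,11] (Pf.cons (Pf.C 2 0x1c606) (Pf.cons (Pf.C 2 0x1c606) (Pf.cons (Pf.C 2 0x1c606) (Pf.cons (Pf.C 2 0x1c606) (Pf.cons (Pf.T 10 42 (Pf.cons (Pf.T 11 13 (Pf.cons (Pf.T 11 40 (Pf.cons (Pf.W 85 8 [7] [0,1,6,9,10,11] (Pf.cons (Pf.B 12 11 (Pf.C 3 0x2058c) (Pf.B 12 7 (Pf.C 2 0x1c60b) (Pf.B 12 6 (Pf.C 2 99847) (Pf.B 12 10 (Pf.B 12 9 (Pf.C 1 0x91630508) (Pf.T 12 12 (Pf.cons (Pf.T 12 37 (Pf.cons (Pf.T 12 38 (Pf.cons (Pf.W 74 12 [9] [0,1,8,10] (Pf.cons (Pf.B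 13 10 (Pf.B 13 9 (Pf.B 13 8 (Pf.C 1 0x91834508) (Pf.C 4 0x1034080)) (Pf.C 4 0x1234080)) (Pf.C 4 0x1434080)) Pf.nil)) Pf.nil)) Pf.nil)) (Pf.cons (Pf.C 80 0x142030c) Pf.nil)))) (Pf.C 0 0xb141838c))))) (Pf.cons (Pf.B 12 10 (Pf.B 12 11 (Pf.C 3 0x2858c) (Pf.B 12 7 (Pf.C 2 0x1c60b) (Pf.B 12 6 (Pf.C 2 99847) (Pf.C 0 0xb101c30c)))) (Pf.C 75 0x2050c)) Pf.nil))) Pf.nil)) (Pf.cons (Pf.T 11 41 (Pf.cons (Pf.W 85 8 [7] [6,10,11] (Pf.cons (Pf.B 12 11 (Pf.C 3 0x2058c) (Pf.C 84 0xe1860b)) (Pf.cons (Pf.B 12 11 (Pf.B 12 10 (Pf.C 3 0x2858c) (Pf.C 75 0x2050c)) (Pf.C 84 0xe1860b)) Pf.nil))) Pf.nil)) Pf.nil))) Pf.nil)) (Pf.cons (Pf.B 12 10 (Pf.B 12 9 (Pf.B 12 8 (Pf.C 1 0x90c2050c) (Pf.C 4 0x1030080)) (Pf.C 4 0x1230080))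 (Pf.C 4 0x1430080)) (Pf.cons (Pf.T 10 43 (Pf.cons (Pf.T 11 13 (Pf.cons (Pf.T 11 40 (Pf.cons (Pf.W 85 8 [7] [6,10,11] (Pf.cons (Pf.B 12 11 (Pf.C 3 0x2058c) (Pf.B 12 7 (Pf.C 2 0x1c60b) (Pf.B 12 6 (Pf.C 2 99847) (Pf.B 12 10 (Pf.T 12 12 (Pf.cons (Pf.T 12 37 (Pf.cons (Pf.T 12 38 (Pf.cons (Pf.W 85 8 [7,12] [6,10,11] (Pf.cons (Pf.B 13 12 (Pf.C 3 0x2060d) (Pf.B 13 11 (Pf.C 2 0x2c68c) (Pf.B 13 10 (Pf.C 86 0x181868a) (Pf.B 13 7 (Pf.C 2 0x1c68b) (Pf.C 0 0xc142c38d))))) (Pf.cons (Pf.B 13 10 (Pf.B 13 12 (Pf.C 3 0x2860d) (Pf.B 13 11 (Pf.C 2 0x2c68c) (Pf.B 13 7 (Pf.C 2 0x1c68b) (Pf.B 13 6 (Pf.C 2 99975) (Pf.C 0 0xb101c30d))))) (Pf.C 75 0x2050d)) Pf.nil))) Pf.nil)) Pf.nil)) (Pf.cons (Pf.C 80 0x142030c) Pf.nil)))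 (Pf.C 0 0xb141838c))))) (Pf.cons (Pf.B 12 10 (Pf.B 12 11 (Pf.C 3 0x2858c) (Pf.B 12 7 (Pf.C 2 0x1c60b) (Pf.B 12 6 (Pf.C 2 99847) (Pf.C 0 0xb101c30c)))) (Pf.C 75 0x2050c)) Pf.nil))) Pf.nil)) (Pf.cons (Pf.T 11 41 (Pf.cons (Pf.W 85 8 [7] [6,10,11] (Pf.cons (Pf.B 12 11 (Pf.C 3 0x2058c) (Pf.C 84 0xe1860b)) (Pf.cons (Pf.B 12 11 (Pf.B 12 10 (Pf.C 3 0x2858c) (Pf.C 75 0x2050c)) (Pf.C 84 0xe1860b)) Pf.nil))) Pf.nil)) Pf.nil))) Pf.nil)) (Pf.cons (Pf.B 12 10 (Pf.B 12 9 (Pf.B 12 8 (Pf.C 1 0x90c2050c) (Pf.C 4 0x1030080)) (Pf.C 4 0x1230080)) (Pf.C 4 0x1430080)) Pf.nil))))))))) (Pf.C 0 0xb1424386)) (Pf.C 75 0x2440b))) (Pf.B 11 9 (Pf.B 11 8 (Pf.B 10 6 (Pf.W 78 6 [7,11] [0,1,8,9,10] (Pf.cons (Pf.T 11 13 (Pf.cons (Pf.T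 11 40 (Pf.cons (Pf.W 85 8 [7] [6,9,10,11] (Pf.cons (Pf.B 12 11 (Pf.C 3 0x2058c) (Pf.B 12 7 (Pf.C 2 0x1c60b) (Pf.B 12 6 (Pf.C 2 99847) (Pf.B 12 10 (Pf.C 0 0x61430587) (Pf.B 12 9 (Pf.C 0 0xb1230386) (Pf.C 0 0x6142438c)))))) (Pf.cons (Pf.B 12 9 (Pf.B 12 11 (Pf.C 3 0x2458c) (Pf.B 12 7 (Pf.C 2 0x1c60b) (Pf.B 12 6 (Pf.C 2 99847) (Pf.C 0 0xb101c30c)))) (Pf.C 75 0x2048c)) Pf.nil))) Pf.nil)) (Pf.cons (Pf.C 84 0x141c30b) Pf.nil))) (Pf.cons (Pf.B 12 10 (Pf.B 12 9 (Pf.B 12 8 (Pf.C 1 0x90c2050c) (Pf.C 4 0x1030080)) (Pf.C 4 0x1230080)) (Pf.C 4 0x1430080)) (Pf.cons (Pf.B 12 11 (Pf.C 2 0x2c606) (Pf.B 12 7 (Pf.C 2 0x1c606) (Pf.B 12 10 (Pf.C 0 0x61430587) (Pf.B 12 9 (Pf.C 0 0xb1230386) (Pf.C 0 0x6142438c))))) (Pf.cons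 (Pf.B 12 11 (Pf.C 2 0x2c606) (Pf.B 12 7 (Pf.C 2 0x1c606) (Pf.B 12 10 (Pf.C 0 0x61430587) (Pf.B 12 9 (Pf.C 0 0xb1230386) (Pf.C 75 0x2848c))))) Pf.nil))))) (Pf.C 0 0xb1228386)) (Pf.C 75 0x2840b)) (Pf.C 75 0x2848b)))) Pf.nil)))) (Pf.C 4 0x1028080)) (Pf.C 4 0x1228080)) Pf.nil))) (Pf.C 4 0x1024080)) Pf.nil)))
 (Pq.cons (Pq.L [0,1,6] 1 (Pf.W 137 7 [] [0,1,6,8] (Pf.cons (Pf.B 9 8 (Pf.W 129 9 [] [6,7,8] (Pf.cons (Pf.B 10 8 (Pf.B 10 7 (Pf.C 3 0x2038a) (Pf.C 2 99210)) (Pf.C 130 1288)) Pf.nil)) (Pf.C 4 0x1024080)) (Pf.cons (Pf.B 9 8 (Pf.W 131 9 [] [6,7,8] (Pf.cons (Pf.B 10 7 (Pf.C 3 0x2438a) (Pf.C 2 99210)) (Pf.cons (Pf.B 10 8 (Pf.B 10 7 (Pf.C 3 0x2038a) (Pf.C 2 99210)) (Pf.C 130 1288)) Pf.nil))) (Pf.C 4 0x1024080))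 (Pf.cons (Pf.B 9 8 (Pf.W 125 9 [] [7,8] (Pf.cons (Pf.W 83 9 [7,10] [8] (Pf.cons (Pf.B 11 7 (Pf.C 2 0x1c589) (Pf.C 81 0x1024587)) (Pf.cons (Pf.B 11 7 (Pf.C 2 0x1c589) (Pf.C 81 0x1024587)) (Pf.cons (Pf.C 75 0x28589) Pf.nil)))) Pf.nil)) (Pf.W 125 9 [] [8] (Pf.cons (Pf.C 75 0x20509) Pf.nil))) (Pf.cons (Pf.B 9 8 (Pf.W 127 9 [] [0,1,6,7,8] (Pf.cons (Pf.B 10 8 (Pf.W 74 6 [8] [0,1,7,9,10] (Pf.cons (Pf.B 11 9 (Pf.B 11 8 (Pf.W 85 8 [7] [9,10,11] (Pf.cons (Pf.B 12 9 (Pf.C 3 0x2048c) (Pf.C 84 0x141c609)) (Pf.cons (Pf.B 12 11 (Pf.B 12 9 (Pf.C 3 0x2c48c) (Pf.C 84 0x141c609)) (Pf.C 75 0x2058c)) Pf.nil))) (Pf.C 4 0x102c080)) (Pf.C 75 0x28589)) Pf.nil)) (Pf.C 4 0x1028080)) Pf.nil)) (Pf.W 127 9 [] [8] (Pf.cons (Pf.C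 75 0x20509) Pf.nil))) Pf.nil))))))
 (Pq.cons (Pq.L [0,1,6] 1 (Pf.W 142 7 [] [0,1,6,8] (Pf.cons (Pf.B 9 8 (Pf.W 134 9 [] [0,1,6,7,8] (Pf.cons (Pf.B 10 8 (Pf.W 129 10 [] [6,8,9] (Pf.cons (Pf.B 11 9 (Pf.B 11 8 (Pf.C 3 0x2048b) (Pf.C 130 1416)) (Pf.C 2 99467)) Pf.nil)) (Pf.C 4 0x1028080)) (Pf.cons (Pf.B 10 7 (Pf.C 2 0x1c509) (Pf.C 139 1287)) Pf.nil))) (Pf.W 134 9 [] [0,1,6,7,8] (Pf.cons (Pf.B 10 8 (Pf.W 129 10 [] [6,7,8] (Pf.cons (Pf.B 11 8 (Pf.B 11 7 (Pf.C 3 0x2038b) (Pf.C 2 99211)) (Pf.C 130 1416)) Pf.nil)) (Pf.C 4 0x1028080)) (Pf.cons (Pf.B 10 7 (Pf.C 2 0x1c509) (Pf.C 139 1287)) Pf.nil)))) (Pf.cons (Pf.B 9 8 (Pf.W 137 9 [] [7,8] (Pf.cons (Pf.C 80 0x1028389) (Pf.cons (Pf.C 80 0x1028389) (Pf.cons (Pf.C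 81 0x101c509) (Pf.cons (Pf.C 81 0x101c509) Pf.nil))))) (Pf.W 137 9 [] [0,1,6,7,8] (Pf.cons (Pf.B 10 8 (Pf.W 129 10 [] [6,7,8] (Pf.cons (Pf.B 11 8 (Pf.B 11 7 (Pf.C 3 0x2038b) (Pf.C 2 99211)) (Pf.C 130 1416)) Pf.nil)) (Pf.C 4 0x1028080)) (Pf.cons (Pf.B 10 8 (Pf.B 10 7 (Pf.C 138 1287) (Pf.W 131 10 [] [6,7,8,9] (Pf.cons (Pf.B 11 9 (Pf.C 3 0x2848b) (Pf.C 2 99467)) (Pf.cons (Pf.B 11 8 (Pf.B 11 7 (Pf.C 3 0x2038b) (Pf.C 2 99211)) (Pf.C 130 1416)) Pf.nil)))) (Pf.C 4 0x1028080)) (Pf.cons (Pf.B 10 7 (Pf.C 2 0x1c509) (Pf.C 139 1287)) (Pf.cons (Pf.B 10 7 (Pf.C 2 0x1c509) (Pf.C 139 1287)) Pf.nil)))))) Pf.nil))))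
 (Pq.cons (Pq.L [0,1,6] 1 (Pf.W 74 6 [8] [0,1,7] (Pf.cons (Pf.B 9 8 (Pf.W 74 7 [9] [0,1,6,8] (Pf.cons (Pf.B 10 9 (Pf.B 10 8 (Pf.W 78 6 [7] [0,1,8,9,10] (Pf.cons (Pf.W 78 6 [7,10] [0,1,8,9] (Pf.cons (Pf.B 11 10 (Pf.B 11 9 (Pf.B 11 8 (Pf.C 1 0x90c2050b) (Pf.C 4 0x102c080)) (Pf.C 4 0x122c080)) (Pf.C 4 0x142c080)) (Pf.cons (Pf.B 11 7 (Pf.C 2 0x1c586) (Pf.C 81 0x1018587)) (Pf.cons (Pf.B 11 7 (Pf.C 2 0x1c586) (Pf.C 81 0x1018587)) Pf.nil)))) (Pf.cons (Pf.B 11 10 (Pf.B 11 9 (Pf.B 11 8 (Pf.B 10 6 (Pf.C 1 0x90c2058a) (Pf.W 78 6 [7,11] [0,1,8,9,10] (Pf.cons (Pf.B 12 11 (Pf.B 12 10 (Pf.B 12 9 (Pf.C 1 0xa0c2458c) (Pf.C 4 0x1230080)) (Pf.C 4 0x1430080)) (Pf.C 4 0x1630080)) (Pf.cons (Pf.B 12 7 (Pf.C 2 0x1c606)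 (Pf.C 81 0x1018607)) (Pf.cons (Pf.B 12 7 (Pf.C 2 0x1c606) (Pf.C 81 0x1018607)) Pf.nil))))) (Pf.C 4 0x102c080)) (Pf.C 4 0x122c080)) (Pf.C 4 0x142c080)) (Pf.cons (Pf.B 11 7 (Pf.C 2 0x1c586) (Pf.C 81 0x1018587)) (Pf.cons (Pf.B 11 7 (Pf.C 2 0x1c586) (Pf.C 81 0x1018587)) Pf.nil))))) (Pf.C 4 0x1028080)) (Pf.C 4 0x1228080)) Pf.nil)) (Pf.C 4 0x1024080)) Pf.nil)))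
 (Pq.cons (Pq.L [] 1 (Pf.W 125 7 [] [8] (Pf.cons (Pf.C 75 0x20487) Pf.nil)))
 (Pq.cons (Pq.L [] 1 (Pf.C 130 904))
 (Pq.cons (Pq.L [] 1 (Pf.W 127 7 [] [8] (Pf.cons (Pf.C 75 0x20487) Pf.nil)))
 (Pq.cons (Pq.L [0,1,6] 1 (Pf.W 74 6 [8] [0,1,7] (Pf.cons (Pf.B 9 8 (Pf.W 78 6 [7] [0,1,8,9] (Pf.cons (Pf.B 10 9 (Pf.B 10 8 (Pf.W 78 6 [7,10] [0,1,8,9] (Pf.cons (Pf.B 11 10 (Pf.B 11 9 (Pf.B 11 8 (Pf.C 1 0x90c2050b) (Pf.C 4 0x102c080)) (Pf.C 4 0x122c080)) (Pf.C 4 0x142c080)) (Pf.cons (Pf.B 11 7 (Pf.C 2 0x1c586) (Pf.C 84 0x1018587)) (Pf.cons (Pf.B 11 7 (Pf.C 2 0x1c586) (Pf.C 84 0x1018587)) Pf.nil)))) (Pf.C 4 0x1028080)) (Pf.C 4 0x1228080)) (Pf.cons (Pf.B 10 7 (Pf.C 2 0x1c506) (Pf.C 84 0x1018507)) (Pf.cons (Pf.B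 10 7 (Pf.C 2 0x1c506) (Pf.C 84 0x1018507)) Pf.nil)))) (Pf.C 4 0x1024080)) Pf.nil)))
 (Pq.cons (Pq.L [0,1] 1 (Pf.C 4 0x101c080))
 (Pq.cons (Pq.L [0,1] 1 (Pf.C 4 0x101c080))
 (Pq.cons (Pq.L [0,1] 1 (Pf.C 4 0x101c080))
 (Pq.cons (Pq.L [0,1] 1 (Pf.C 4 0x101c080))
 (Pq.cons (Pq.L [0,1] 1 (Pf.C 4 0x101c080))
 (Pq.cons (Pq.L [] 0 (Pf.X 6 7))
 (Pq.cons (Pq.L [] 1 (Pf.C 145 904))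
 (Pq.cons (Pq.L [0,1,6] 1 (Pf.W 140 7 [] [0,1,6,8] (Pf.cons (Pf.B 9 8 (Pf.C 145 1160) (Pf.W 134 9 [] [0,1,6,7,8] (Pf.cons (Pf.B 10 8 (Pf.W 129 10 [] [6,7,8] (Pf.cons (Pf.B 11 8 (Pf.B 11 7 (Pf.C 3 0x2038b) (Pf.C 2 99211)) (Pf.C 133 1416)) Pf.nil)) (Pf.C 4 0x1028080)) (Pf.cons (Pf.B 10 7 (Pf.C 2 0x1c509) (Pf.C 136 1287)) Pf.nil)))) Pf.nil)))
 (Pq.cons (Pq.L [] 1 (Pf.C 132 904))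
 (Pq.cons (Pq.L [] 1 (Pf.C 145 904))
 (Pq.cons (Pq.L [0,1,6] 1 (Pf.W 142 7 [] [0,1,6,8] (Pf.cons (Pf.B 9 8 (Pf.C 145 1160) (Pf.W 134 9 [] [0,1,6,7,8] (Pf.cons (Pf.B 10 8 (Pf.W 129 10 [] [6,7,8] (Pf.cons (Pf.B 11 8 (Pf.B 11 7 (Pf.C 3 0x2038b) (Pf.C 2 99211)) (Pf.C 133 1416)) Pf.nil)) (Pf.C 4 0x1028080)) (Pf.cons (Pf.B 10 7 (Pf.C 2 0x1c509) (Pf.C 139 1287)) Pf.nil)))) (Pf.cons (Pf.B 9 8 (Pf.C 145 1160) (Pf.W 137 9 [] [0,1,6,7,8] (Pf.cons (Pf.B 10 8 (Pf.W 129 10 [] [6,7,8] (Pf.cons (Pf.B 11 8 (Pf.B 11 7 (Pf.C 3 0x2038b) (Pf.C 2 99211)) (Pf.C 133 1416)) Pf.nil)) (Pf.C 4 0x1028080)) (Pf.cons (Pf.B 10 8 (Pf.B 10 7 (Pf.C 138 1287) (Pf.W 131 10 [] [6,7,8,9] (Pf.cons (Pf.B 11 9 (Pf.C 3 0x2848b) (Pf.C 2 99467))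 (Pf.cons (Pf.B 11 8 (Pf.B 11 7 (Pf.C 3 0x2038b) (Pf.C 2 99211)) (Pf.C 133 1416)) Pf.nil)))) (Pf.C 4 0x1028080)) (Pf.cons (Pf.B 10 7 (Pf.C 2 0x1c509) (Pf.C 139 1287)) (Pf.cons (Pf.B 10 7 (Pf.C 2 0x1c509) (Pf.C 139 1287)) Pf.nil)))))) Pf.nil))))
 (Pq.cons (Pq.L [0,1,6] 1 (Pf.W 74 6 [8] [0,1,7] (Pf.cons (Pf.B 9 8 (Pf.W 74 7 [9] [0,1,6,8] (Pf.cons (Pf.B 10 9 (Pf.B 10 8 (Pf.W 78 6 [7] [0,1,8,9,10] (Pf.cons (Pf.W 78 6 [7,10] [0,1,8,9] (Pf.cons (Pf.B 11 10 (Pf.B 11 9 (Pf.B 11 8 (Pf.C 1 0x90c2050b) (Pf.C 4 0x102c080)) (Pf.C 4 0x122c080)) (Pf.C 4 0x142c080)) (Pf.cons (Pf.B 11 7 (Pf.C 2 0x1c586) (Pf.C 81 0x1018587)) (Pf.cons (Pf.B 11 7 (Pf.C 2 0x1c586) (Pf.C 81 0x1018587)) Pf.nil)))) (Pf.cons (Pf.B 11 10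 (Pf.B 11 9 (Pf.B 11 8 (Pf.B 10 6 (Pf.C 1 0x90c2058a) (Pf.W 78 6 [7,11] [0,1,8,9,10] (Pf.cons (Pf.B 12 11 (Pf.B 12 10 (Pf.B 12 9 (Pf.C 1 0xa0c2458c) (Pf.C 4 0x1230080)) (Pf.C 4 0x1430080)) (Pf.C 4 0x1630080)) (Pf.cons (Pf.B 12 7 (Pf.C 2 0x1c606) (Pf.C 81 0x1018607)) (Pf.cons (Pf.B 12 7 (Pf.C 2 0x1c606) (Pf.C 81 0x1018607)) Pf.nil))))) (Pf.C 4 0x102c080)) (Pf.C 4 0x122c080)) (Pf.C 4 0x142c080)) (Pf.cons (Pf.B 11 7 (Pf.C 2 0x1c586) (Pf.C 81 0x1018587)) (Pf.cons (Pf.B 11 7 (Pf.C 2 0x1c586) (Pf.C 81 0x1018587)) Pf.nil))))) (Pf.C 4 0x1028080)) (Pf.C 4 0x1228080)) Pf.nil)) (Pf.C 4 0x1024080)) Pf.nil)))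
 (Pq.cons (Pq.L [] 1 (Pf.W 125 7 [] [8] (Pf.cons (Pf.C 75 0x20487) Pf.nil)))
 (Pq.cons (Pq.L [] 1 (Pf.C 133 904))
 (Pq.cons (Pq.L [] 1 (Pf.W 127 7 [] [8] (Pf.cons (Pf.C 75 0x20487) Pf.nil)))
 (Pq.cons (Pq.L [0,1,6] 1 (Pf.W 74 6 [8] [0,1,7] (Pf.cons (Pf.B 9 8 (Pf.W 78 6 [7] [0,1,8,9] (Pf.cons (Pf.B 10 9 (Pf.B 10 8 (Pf.W 78 6 [7,10] [0,1,8,9] (Pf.cons (Pf.B 11 10 (Pf.B 11 9 (Pf.B 11 8 (Pf.C 1 0x90c2050b) (Pf.C 4 0x102c080)) (Pf.C 4 0x122c080)) (Pf.C 4 0x142c080)) (Pf.cons (Pf.B 11 7 (Pf.C 2 0x1c586) (Pf.C 84 0x1018587)) (Pf.cons (Pf.B 11 7 (Pf.C 2 0x1c586) (Pf.C 84 0x1018587)) Pf.nil)))) (Pf.C 4 0x1028080)) (Pf.C 4 0x1228080)) (Pf.cons (Pf.B 10 7 (Pf.C 2 0x1c506) (Pf.C 84 0x1018507)) (Pf.cons (Pf.B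 10 7 (Pf.C 2 0x1c506) (Pf.C 84 0x1018507)) Pf.nil)))) (Pf.C 4 0x1024080)) Pf.nil)))
 (Pq.cons (Pq.L [0,1] 1 (Pf.C 4 0x101c080))
 (Pq.cons (Pq.L [0,1] 1 (Pf.C 4 0x101c080))
 (Pq.cons (Pq.L [0,1] 1 (Pf.C 4 0x101c080))
 (Pq.cons (Pq.L [0,1] 1 (Pf.C 4 0x101c080))
 (Pq.cons (Pq.L [0,1] 1 (Pf.C 4 0x101c080))
 Pq.nil)))))))))))))))))))))))))))))))
theorem hh_o66 : AllRef hh_T hh_G80 (List.drop 65 (closeObl (hh_T.sc.get 0) false [157,161,162,138,159,163,164,140,149,150,142,151,152,144,145,153,154,147,155,165,166] [0,0,0,0,0,0,0,0,1,1,1,1,1,1,2,2,2,2,2,2,2] [6] [0] 0xeedbb)) :=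
  chkPq_sound hh_o66c _ (by decide +kernel)
noncomputable def hh_o67c : Pq := (Pq.cons (Pq.L [6] 1 (Pf.T 7 49 (Pf.cons (Pf.W 137 7 [] [6,8] (Pf.cons (Pf.B 9 8 (Pf.C 3 0x24388) (Pf.W 129 9 [] [6,7,8] (Pf.cons (Pf.B 10 8 (Pf.T 8 49 (Pf.cons (Pf.W 137 8 [] [7,9,10] (Pf.cons (Pf.B 11 10 (Pf.C 3 0x2c40a) (Pf.C 75 0x2458a)) (Pf.cons (Pf.B 11 10 (Pf.C 3 0x2c40a) (Pf.C 75 0x2458a)) (Pf.cons (Pf.B 11 7 (Pf.B 11 9 (Pf.C 3 0x2438b) (Pf.W 125 11 [] [9] (Pf.cons (Pf.C 75 0x2460b) Pf.nil))) (Pf.C 2 0x2038b)) (Pf.cons (Pf.B 11 7 (Pf.B 11 9 (Pf.C 3 0x2438b) (Pf.W 127 11 [] [9] (Pf.cons (Pf.C 75 0x2460b) Pf.nil))) (Pf.C 2 0x2038b)) Pf.nil))))) (Pf.cons (Pf.T 8 51 (Pf.cons (Pf.W 142 8 [] [7,9,10] (Pf.cons (Pf.B 11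 10 (Pf.B 11 7 (Pf.B 11 9 (Pf.C 3 0x2438b) (Pf.W 134 11 [] [8,9,10] (Pf.cons (Pf.B 12 10 (Pf.C 3 0x3058a) (Pf.C 75 0x2460a)) (Pf.cons (Pf.B 12 8 (Pf.C 2 0x2060b) (Pf.C 139 1544)) Pf.nil)))) (Pf.C 2 0x2038b)) (Pf.C 2 0x2050b)) (Pf.cons (Pf.B 11 10 (Pf.B 11 7 (Pf.B 11 9 (Pf.C 3 0x2438b) (Pf.W 137 11 [] [8,9,10] (Pf.cons (Pf.B 12 10 (Pf.C 3 0x3058a) (Pf.C 75 0x2460a)) (Pf.cons (Pf.B 12 10 (Pf.C 3 0x3058a) (Pf.C 75 0x2460a)) (Pf.cons (Pf.B 12 8 (Pf.C 2 0x2060b) (Pf.C 139 1544)) (Pf.cons (Pf.B 12 8 (Pf.C 2 0x2060b) (Pf.C 139 1544)) Pf.nil)))))) (Pf.C 2 0x2038b)) (Pf.C 2 0x2050b)) Pf.nil))) Pf.nil)) Pf.nil))) (Pf.C 2 99338)) Pf.nil))) (Pf.cons (Pf.B 9 8 (Pf.C 3 0x24388) (Pf.W 131 9 [] [6,7,8] (Pf.cons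 (Pf.B 10 7 (Pf.C 3 0x2438a) (Pf.C 2 99210)) (Pf.cons (Pf.B 10 8 (Pf.T 8 49 (Pf.cons (Pf.W 137 8 [] [7,9,10] (Pf.cons (Pf.B 11 10 (Pf.C 3 0x2c40a) (Pf.C 75 0x2458a)) (Pf.cons (Pf.B 11 10 (Pf.C 3 0x2c40a) (Pf.C 75 0x2458a)) (Pf.cons (Pf.B 11 9 (Pf.B 11 7 (Pf.C 3 0x2438b) (Pf.C 2 0x2038b)) (Pf.C 88 0xe28589)) (Pf.cons (Pf.B 11 9 (Pf.B 11 7 (Pf.C 3 0x2438b) (Pf.C 2 0x2038b)) (Pf.C 88 0xe28589)) Pf.nil))))) (Pf.cons (Pf.T 8 51 (Pf.cons (Pf.W 142 8 [] [7,9,10] (Pf.cons (Pf.B 11 10 (Pf.B 11 9 (Pf.C 87 0xe2c509) (Pf.B 11 7 (Pf.W 134 11 [] [8,9,10] (Pf.cons (Pf.B 12 10 (Pf.C 3 0x3058a) (Pf.C 75 0x2460a)) (Pf.cons (Pf.B 12 8 (Pf.C 2 0x2060b) (Pf.C 139 1544)) Pf.nil))) (Pf.C 2 0x2038b))) (Pf.C 2 0x2050b))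 (Pf.cons (Pf.B 11 10 (Pf.B 11 9 (Pf.C 87 0xe2c509) (Pf.B 11 7 (Pf.W 137 11 [] [8,9,10] (Pf.cons (Pf.B 12 10 (Pf.C 3 0x3058a) (Pf.C 75 0x2460a)) (Pf.cons (Pf.B 12 10 (Pf.C 3 0x3058a) (Pf.C 75 0x2460a)) (Pf.cons (Pf.B 12 8 (Pf.C 2 0x2060b) (Pf.C 139 1544)) (Pf.cons (Pf.B 12 8 (Pf.C 2 0x2060b) (Pf.C 139 1544)) Pf.nil))))) (Pf.C 2 0x2038b))) (Pf.C 2 0x2050b)) Pf.nil))) Pf.nil)) Pf.nil))) (Pf.C 2 99338)) Pf.nil)))) (Pf.cons (Pf.B 9 8 (Pf.W 125 9 [] [6,7,8] (Pf.cons (Pf.B 10 8 (Pf.C 3 0x28308) (Pf.T 8 49 (Pf.cons (Pf.W 137 8 [] [6,9,10] (Pf.cons (Pf.B 11 9 (Pf.C 3 0x2c409) (Pf.C 75 0x28589)) (Pf.cons (Pf.B 11 9 (Pf.C 3 0x2c409) (Pf.C 75 0x28589)) (Pf.cons (Pf.B 11 10 (Pf.C 3 0x2830b) (Pf.B 11 9 (Pf.W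 74 6 [] [9,10,11] (Pf.cons (Pf.B 12 11 (Pf.B 12 9 (Pf.C 3 0x30589) (Pf.C 75 0x28609)) (Pf.C 75 0x2860b)) Pf.nil)) (Pf.C 2 0x2048b))) (Pf.cons (Pf.B 11 10 (Pf.C 3 0x2830b) (Pf.B 11 9 (Pf.W 74 6 [] [9,10,11] (Pf.cons (Pf.B 12 11 (Pf.B 12 9 (Pf.C 3 0x30589) (Pf.C 75 0x28609)) (Pf.C 75 0x2860b)) Pf.nil)) (Pf.C 2 0x2048b))) Pf.nil))))) (Pf.cons (Pf.T 8 51 (Pf.cons (Pf.W 142 8 [] [6,7,9,10] (Pf.cons (Pf.B 11 10 (Pf.C 3 0x2830b) (Pf.B 11 9 (Pf.B 11 7 (Pf.W 134 11 [] [8,9,10] (Pf.cons (Pf.B 12 9 (Pf.C 3 0x30589) (Pf.C 75 0x28609)) (Pf.cons (Pf.B 12 8 (Pf.C 2 0x2060b) (Pf.C 139 1544)) Pf.nil))) (Pf.C 2 0x2038b)) (Pf.C 2 0x2048b))) (Pf.cons (Pf.B 11 10 (Pf.C 3 0x2830b) (Pf.B 11 9 (Pf.B 11 7 (Pf.W 137 11 []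 [8,9,10] (Pf.cons (Pf.B 12 9 (Pf.C 3 0x30589) (Pf.C 75 0x28609)) (Pf.cons (Pf.B 12 9 (Pf.C 3 0x30589) (Pf.C 75 0x28609)) (Pf.cons (Pf.B 12 8 (Pf.C 2 0x2060b) (Pf.C 139 1544)) (Pf.cons (Pf.B 12 8 (Pf.C 2 0x2060b) (Pf.C 139 1544)) Pf.nil))))) (Pf.C 2 0x2038b)) (Pf.C 2 0x2048b))) Pf.nil))) Pf.nil)) Pf.nil)))) Pf.nil)) (Pf.C 2 0x1c409)) (Pf.cons (Pf.B 9 8 (Pf.W 127 9 [] [6,7,8] (Pf.cons (Pf.B 10 8 (Pf.C 3 0x28308) (Pf.T 8 49 (Pf.cons (Pf.W 137 8 [] [6,9,10] (Pf.cons (Pf.B 11 9 (Pf.C 3 0x2c409) (Pf.C 75 0x28589)) (Pf.cons (Pf.B 11 9 (Pf.C 3 0x2c409) (Pf.C 75 0x28589)) (Pf.cons (Pf.B 11 10 (Pf.C 3 0x2830b) (Pf.B 11 9 (Pf.W 74 6 [] [9,10,11] (Pf.cons (Pf.B 12 11 (Pf.B 12 9 (Pf.C 3 0x30589) (Pf.C 75 0x28609))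 (Pf.C 75 0x2860b)) Pf.nil)) (Pf.C 2 0x2048b))) (Pf.cons (Pf.B 11 10 (Pf.C 3 0x2830b) (Pf.B 11 9 (Pf.W 74 6 [] [9,10,11] (Pf.cons (Pf.B 12 11 (Pf.B 12 9 (Pf.C 3 0x30589) (Pf.C 75 0x28609)) (Pf.C 75 0x2860b)) Pf.nil)) (Pf.C 2 0x2048b))) Pf.nil))))) (Pf.cons (Pf.T 8 51 (Pf.cons (Pf.W 142 8 [] [6,7,9,10] (Pf.cons (Pf.B 11 10 (Pf.C 3 0x2830b) (Pf.B 11 9 (Pf.B 11 7 (Pf.W 134 11 [] [8,9,10] (Pf.cons (Pf.B 12 9 (Pf.C 3 0x30589) (Pf.C 75 0x28609)) (Pf.cons (Pf.B 12 8 (Pf.C 2 0x2060b) (Pf.C 139 1544)) Pf.nil))) (Pf.C 2 0x2038b)) (Pf.C 2 0x2048b))) (Pf.cons (Pf.B 11 10 (Pf.C 3 0x2830b) (Pf.B 11 9 (Pf.B 11 7 (Pf.W 137 11 [] [8,9,10] (Pf.cons (Pf.B 12 9 (Pf.C 3 0x30589) (Pf.C 75 0x28609)) (Pf.cons (Pf.B 12 9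 (Pf.C 3 0x30589) (Pf.C 75 0x28609)) (Pf.cons (Pf.B 12 8 (Pf.C 2 0x2060b) (Pf.C 139 1544)) (Pf.cons (Pf.B 12 8 (Pf.C 2 0x2060b) (Pf.C 139 1544)) Pf.nil))))) (Pf.C 2 0x2038b)) (Pf.C 2 0x2048b))) Pf.nil))) Pf.nil)) Pf.nil)))) Pf.nil)) (Pf.C 2 0x1c409)) Pf.nil))))) (Pf.cons (Pf.T 7 51 (Pf.cons (Pf.W 142 7 [] [6,8] (Pf.cons (Pf.B 9 8 (Pf.W 134 9 [] [6,7,8] (Pf.cons (Pf.B 10 8 (Pf.C 3 0x28488) (Pf.W 129 10 [] [6,7,8,9] (Pf.cons (Pf.B 11 8 (Pf.T 8 49 (Pf.cons (Pf.W 137 8 [] [7,9,10,11] (Pf.cons (Pf.B 12 11 (Pf.C 3 0x3040b) (Pf.C 75 0x2860b)) (Pf.cons (Pf.B 12 11 (Pf.C 3 0x3040b) (Pf.C 75 0x2860b)) (Pf.cons (Pf.B 12 9 (Pf.B 12 10 (Pf.C 3 0x2848c) (Pf.B 12 7 (Pf.W 125 12 [] [10] (Pf.cons (Pf.C 75 0x2868c)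 Pf.nil)) (Pf.C 139 1543))) (Pf.C 2 0x2048c)) (Pf.cons (Pf.B 12 9 (Pf.B 12 10 (Pf.C 3 0x2848c) (Pf.B 12 7 (Pf.W 127 12 [] [10] (Pf.cons (Pf.C 75 0x2868c) Pf.nil)) (Pf.C 139 1543))) (Pf.C 2 0x2048c)) Pf.nil))))) (Pf.cons (Pf.T 8 51 (Pf.cons (Pf.W 142 8 [] [7,9,10,11] (Pf.cons (Pf.B 12 11 (Pf.B 12 9 (Pf.B 12 10 (Pf.C 3 0x2848c) (Pf.B 12 7 (Pf.W 134 12 [] [8,10,11] (Pf.cons (Pf.B 13 11 (Pf.C 3 0x3460b) (Pf.C 75 0x2868b)) (Pf.cons (Pf.B 13 8 (Pf.C 2 0x2068c) (Pf.C 139 1672)) Pf.nil))) (Pf.C 2 0x2038c))) (Pf.C 2 0x2048c)) (Pf.C 2 0x2058c)) (Pf.cons (Pf.B 12 11 (Pf.B 12 9 (Pf.B 12 10 (Pf.C 3 0x2848c) (Pf.B 12 7 (Pf.W 137 12 [] [8,10,11] (Pf.cons (Pf.B 13 11 (Pf.C 3 0x3460b) (Pf.C 75 0x2868b)) (Pf.cons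 (Pf.B 13 11 (Pf.C 3 0x3460b) (Pf.C 75 0x2868b)) (Pf.cons (Pf.B 13 8 (Pf.C 2 0x2068c) (Pf.C 139 1672)) (Pf.cons (Pf.B 13 8 (Pf.C 2 0x2068c) (Pf.C 139 1672)) Pf.nil))))) (Pf.C 2 0x2038c))) (Pf.C 2 0x2048c)) (Pf.C 2 0x2058c)) Pf.nil))) Pf.nil)) Pf.nil))) (Pf.C 2 99339)) Pf.nil))) (Pf.cons (Pf.B 10 7 (Pf.C 2 0x1c509) (Pf.C 139 1287)) Pf.nil))) (Pf.C 2 0x1c409)) (Pf.cons (Pf.B 9 8 (Pf.W 137 9 [] [6,7,8] (Pf.cons (Pf.B 10 8 (Pf.C 3 0x28488) (Pf.W 129 10 [] [6,7,8,9] (Pf.cons (Pf.B 11 8 (Pf.T 8 49 (Pf.cons (Pf.W 137 8 [] [7,9,10,11] (Pf.cons (Pf.B 12 11 (Pf.C 3 0x3040b) (Pf.C 75 0x2860b)) (Pf.cons (Pf.B 12 11 (Pf.C 3 0x3040b) (Pf.C 75 0x2860b)) (Pf.cons (Pf.B 12 9 (Pf.B 12 10 (Pf.C 3 0x2848c) (Pf.B 12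 7 (Pf.W 125 12 [] [10] (Pf.cons (Pf.C 75 0x2868c) Pf.nil)) (Pf.C 139 1543))) (Pf.C 2 0x2048c)) (Pf.cons (Pf.B 12 9 (Pf.B 12 10 (Pf.C 3 0x2848c) (Pf.B 12 7 (Pf.W 127 12 [] [10] (Pf.cons (Pf.C 75 0x2868c) Pf.nil)) (Pf.C 139 1543))) (Pf.C 2 0x2048c)) Pf.nil))))) (Pf.cons (Pf.T 8 51 (Pf.cons (Pf.W 142 8 [] [7,9,10,11] (Pf.cons (Pf.B 12 11 (Pf.B 12 9 (Pf.B 12 10 (Pf.C 3 0x2848c) (Pf.B 12 7 (Pf.W 134 12 [] [8,10,11] (Pf.cons (Pf.B 13 11 (Pf.C 3 0x3460b) (Pf.C 75 0x2868b)) (Pf.cons (Pf.B 13 8 (Pf.C 2 0x2068c) (Pf.C 139 1672)) Pf.nil))) (Pf.C 2 0x2038c))) (Pf.C 2 0x2048c)) (Pf.C 2 0x2058c)) (Pf.cons (Pf.B 12 11 (Pf.B 12 9 (Pf.B 12 10 (Pf.C 3 0x2848c) (Pf.B 12 7 (Pf.W 137 12 [] [8,10,11] (Pf.cons (Pf.B 13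 11 (Pf.C 3 0x3460b) (Pf.C 75 0x2868b)) (Pf.cons (Pf.B 13 11 (Pf.C 3 0x3460b) (Pf.C 75 0x2868b)) (Pf.cons (Pf.B 13 8 (Pf.C 2 0x2068c) (Pf.C 139 1672)) (Pf.cons (Pf.B 13 8 (Pf.C 2 0x2068c) (Pf.C 139 1672)) Pf.nil))))) (Pf.C 2 0x2038c))) (Pf.C 2 0x2048c)) (Pf.C 2 0x2058c)) Pf.nil))) Pf.nil)) Pf.nil))) (Pf.C 2 99339)) Pf.nil))) (Pf.cons (Pf.B 10 8 (Pf.C 3 0x28488) (Pf.B 10 7 (Pf.C 138 1287) (Pf.W 131 10 [] [6,7,8,9] (Pf.cons (Pf.B 11 9 (Pf.C 3 0x2848b) (Pf.C 2 99467)) (Pf.cons (Pf.B 11 8 (Pf.T 8 49 (Pf.cons (Pf.W 137 8 [] [9,10,11] (Pf.cons (Pf.B 12 11 (Pf.C 3 0x3040b) (Pf.C 75 0x2860b)) (Pf.cons (Pf.B 12 11 (Pf.C 3 0x3040b) (Pf.C 75 0x2860b)) (Pf.cons (Pf.B 12 10 (Pf.B 12 9 (Pf.C 3 0x2848c) (Pf.C 2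 0x2048c)) (Pf.C 88 0x122c60a)) (Pf.cons (Pf.B 12 10 (Pf.B 12 9 (Pf.C 3 0x2848c) (Pf.C 2 0x2048c)) (Pf.C 88 0x122c60a)) Pf.nil))))) (Pf.cons (Pf.T 8 51 (Pf.cons (Pf.W 142 8 [] [7,9,10,11] (Pf.cons (Pf.B 12 11 (Pf.B 12 10 (Pf.C 87 0x123058a) (Pf.B 12 9 (Pf.B 12 7 (Pf.W 134 12 [] [9,10,11] (Pf.cons (Pf.B 13 11 (Pf.C 3 0x3460b) (Pf.C 75 0x2868b)) (Pf.cons (Pf.B 13 10 (Pf.B 13 9 (Pf.C 3 0x2848d) (Pf.C 2 0x3048d)) (Pf.C 88 0x122c68a)) Pf.nil))) (Pf.C 2 0x2038c)) (Pf.C 2 0x2048c))) (Pf.C 2 0x2058c)) (Pf.cons (Pf.B 12 11 (Pf.B 12 10 (Pf.C 87 0x123058a) (Pf.B 12 9 (Pf.B 12 7 (Pf.W 137 12 [] [9,10,11] (Pf.cons (Pf.B 13 11 (Pf.C 3 0x3460b) (Pf.C 75 0x2868b)) (Pf.cons (Pf.B 13 11 (Pf.C 3 0x3460b) (Pf.C 75 0x2868b))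 (Pf.cons (Pf.B 13 10 (Pf.B 13 9 (Pf.C 3 0x2848d) (Pf.C 2 0x3048d)) (Pf.C 88 0x122c68a)) (Pf.cons (Pf.B 13 10 (Pf.B 13 9 (Pf.C 3 0x2848d) (Pf.C 2 0x3048d)) (Pf.C 88 0x122c68a)) Pf.nil))))) (Pf.C 2 0x2038c)) (Pf.C 2 0x2048c))) (Pf.C 2 0x2058c)) Pf.nil))) Pf.nil)) Pf.nil))) (Pf.C 2 99339)) Pf.nil))))) (Pf.cons (Pf.B 10 7 (Pf.C 2 0x1c509) (Pf.C 139 1287)) (Pf.cons (Pf.B 10 7 (Pf.C 2 0x1c509) (Pf.C 139 1287)) Pf.nil))))) (Pf.C 2 0x1c409)) Pf.nil))) Pf.nil)) Pf.nil))))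
 (Pq.cons (Pq.L [] 7 (Pf.T 7 49 (Pf.cons (Pf.W 137 7 [] [8,9] (Pf.cons (Pf.C 81 0x1424407) (Pf.cons (Pf.C 81 0x1424407) (Pf.cons (Pf.C 82 0x1220507) (Pf.cons (Pf.C 82 0x1220507) Pf.nil))))) (Pf.cons (Pf.T 7 51 (Pf.cons (Pf.W 142 7 [] [8,9] (Pf.cons (Pf.C 82 0x1220507) (Pf.cons (Pf.W 137 8 [] [7,9] (Pf.cons (Pf.C 81 0x1424388) (Pf.cons (Pf.C 81 0x1424388) (Pf.cons (Pf.C 82 0x121c508) (Pf.cons (Pf.C 82 0x121c508) Pf.nil))))) (Pf.cons (Pf.W 137 9 [] [7,8] (Pf.cons (Pf.C 81 0x1420389) (Pf.cons (Pf.C 81 0x1420389) (Pf.cons (Pf.C 82 0x101c509) (Pf.cons (Pf.C 82 0x101c509) Pf.nil))))) (Pf.cons (Pf.C 82 0x1220507) Pf.nil))))) Pf.nil)) Pf.nil))))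
 (Pq.cons (Pq.L [6] 0 (Pf.B 9 8 (Pf.C 2 0x20486) (Pf.B 9 7 (Pf.C 2 0x1c486) (Pf.C 82 0x1018389))))
 (Pq.cons (Pq.L [6] 1 (Pf.T 7 45 (Pf.cons (Pf.T 8 45 (Pf.cons (Pf.W 127 7 [] [6,8] (Pf.cons (Pf.B 9 8 (Pf.C 3 0x24308) (Pf.W 74 6 [] [7,8,9] (Pf.cons (Pf.B 10 8 (Pf.B 10 7 (Pf.C 3 0x28407) (Pf.C 75 0x24507)) (Pf.C 75 0x24508)) Pf.nil))) Pf.nil)) Pf.nil)) Pf.nil)))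
 (Pq.cons (Pq.L [] 3 (Pf.T 7 45 (Pf.cons (Pf.W 127 7 [] [8,9] (Pf.cons (Pf.C 84 0x1220507) Pf.nil)) Pf.nil)))
 (Pq.cons (Pq.L [6] 0 (Pf.B 9 8 (Pf.C 2 0x20486) (Pf.B 9 7 (Pf.C 2 0x1c486) (Pf.C 84 0x1018389))))
 (Pq.cons (Pq.L [0,1,6] 1 (Pf.W 74 6 [] [0,1,7,8] (Pf.cons (Pf.B 9 8 (Pf.B 9 7 (Pf.W 74 6 [9] [0,1,7,8] (Pf.cons (Pf.B 10 9 (Pf.B 10 8 (Pf.B 10 7 (Pf.C 1 0x90c28407) (Pf.C 4 0xe28080)) (Pf.C 4 0x1028080)) (Pf.C 4 0x1228080)) Pf.nil)) (Pf.C 4 0xe24080)) (Pf.C 4 0x1024080)) Pf.nil)))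
 (Pq.cons (Pq.L [0,1] 1 (Pf.C 4 0x101c080))
 (Pq.cons (Pq.L [6] 0 (Pf.T 7 46 (Pf.cons (Pf.T 8 46 (Pf.cons (Pf.W 129 7 [] [6,8] (Pf.cons (Pf.B 9 8 (Pf.W 129 8 [] [6,7,9] (Pf.cons (Pf.B 10 9 (Pf.C 2 0x24506) (Pf.B 10 7 (Pf.W 85 7 [9] [6,8,10] (Pf.cons (Pf.B 11 10 (Pf.C 3 0x1c50b) (Pf.B 11 9 (Pf.C 2 0x2458a) (Pf.B 11 6 (Pf.C 2 99721) (Pf.C 0 0xa0e2c486)))) (Pf.cons (Pf.B 11 8 (Pf.B 11 9 (Pf.C 3 0x2048b) (Pf.B 11 10 (Pf.C 2 0x28589) (Pf.B 11 6 (Pf.C 2 99721) (Pf.C 0 0x9102c506)))) (Pf.C 75 0x1c40b)) Pf.nil))) (Pf.C 75 0x2038a))) Pf.nil)) (Pf.C 75 0x1c409)) Pf.nil)) Pf.nil)) Pf.nil)))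
 (Pq.cons (Pq.L [0,1] 1 (Pf.C 4 0x101c080))
 (Pq.cons (Pq.L [0,1,6] 1 (Pf.W 74 6 [] [0,1,7,8] (Pf.cons (Pf.B 9 8 (Pf.B 9 7 (Pf.W 74 6 [9] [0,1,7,8] (Pf.cons (Pf.B 10 9 (Pf.B 10 8 (Pf.B 10 7 (Pf.C 1 0x90c28407) (Pf.C 4 0xe28080)) (Pf.C 4 0x1028080)) (Pf.C 4 0x1228080)) Pf.nil)) (Pf.C 4 0xe24080)) (Pf.C 4 0x1024080)) Pf.nil)))
 (Pq.cons (Pq.L [0,1] 1 (Pf.C 4 0x101c080))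
 (Pq.cons (Pq.L [0,1,6] 7 (Pf.T 7 47 (Pf.cons (Pf.W 131 7 [] [0,1,6,8,9] (Pf.cons (Pf.B 10 9 (Pf.B 10 8 (Pf.T 8 47 (Pf.cons (Pf.T 9 47 (Pf.cons (Pf.W 74 10 [] [0,1,8,9] (Pf.cons (Pf.B 11 9 (Pf.B 11 8 (Pf.W 74 10 [11] [0,1,8,9] (Pf.cons (Pf.B 12 11 (Pf.B 12 9 (Pf.B 12 8 (Pf.C 1 0xb1430488) (Pf.C 4 0x1030080)) (Pf.C 4 0x1230080)) (Pf.C 4 0x1630080)) Pf.nil)) (Pf.C 4 0x102c080)) (Pf.C 4 0x122c080)) Pf.nil)) (Pf.cons (Pf.C 132 1289) Pf.nil))) (Pf.cons (Pf.C 132 1288) Pf.nil))) (Pf.T 9 47 (Pf.cons (Pf.W 74 10 [8] [0,1,7,9] (Pf.cons (Pf.B 11 9 (Pf.B 11 8 (Pf.B 11 7 (Pf.C 1 0x8142c487) (Pf.C 4 0xe2c080)) (Pf.C 4 0x102c080)) (Pf.C 4 0x122c080)) Pf.nil)) (Pf.cons (Pf.C 132 1289) Pf.nil)))) (Pf.B 10 8 (Pf.T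 8 47 (Pf.cons (Pf.W 74 10 [9] [0,1,7,8] (Pf.cons (Pf.B 11 9 (Pf.B 11 8 (Pf.B 11 7 (Pf.C 1 0x9142c407) (Pf.C 4 0xe2c080)) (Pf.C 4 0x102c080)) (Pf.C 4 0x122c080)) Pf.nil)) (Pf.cons (Pf.C 132 1288) Pf.nil))) (Pf.T 8 47 (Pf.cons (Pf.W 131 8 [] [6,7,9,10] (Pf.cons (Pf.B 11 10 (Pf.C 2 0x28586) (Pf.B 11 9 (Pf.B 11 7 (Pf.T 9 47 (Pf.cons (Pf.W 76 1160 [] [6,7,10,11] (Pf.cons (Pf.B 12 11 (Pf.C 3 0x2458c) (Pf.B 12 10 (Pf.C 2 0x2860b) (Pf.B 12 7 (Pf.C 1 0xb1820487) (Pf.B 12 6 (Pf.C 2 99850) (Pf.C 0 0xa0e2030c))))) (Pf.cons (Pf.B 12 11 (Pf.C 3 0x2058c) (Pf.B 12 10 (Pf.C 2 0x2860b) (Pf.B 12 7 (Pf.C 1 0xb1824407) (Pf.B 12 6 (Pf.C 2 99850) (Pf.C 0 0xa0e2430c))))) (Pf.cons (Pf.B 12 11 (Pf.C 3 0x2458c) (Pf.B 12 7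 (Pf.C 1 0xb1820487) (Pf.C 75 0x2038c))) (Pf.cons (Pf.B 12 11 (Pf.C 3 0x2058c) (Pf.B 12 7 (Pf.C 1 0xb1824407) (Pf.C 75 0x2438c))) Pf.nil))))) (Pf.cons (Pf.C 132 1417) Pf.nil))) (Pf.T 9 47 (Pf.cons (Pf.W 76 1160 [] [6,7,10,11] (Pf.cons (Pf.B 12 11 (Pf.C 3 0x2458c) (Pf.B 12 10 (Pf.C 2 0x2860b) (Pf.B 12 6 (Pf.C 2 99850) (Pf.C 0 0x81230506)))) (Pf.cons (Pf.B 12 11 (Pf.C 3 0x2058c) (Pf.B 12 10 (Pf.C 2 0x2860b) (Pf.B 12 6 (Pf.C 2 99850) (Pf.C 0 0x91030506)))) (Pf.cons (Pf.B 12 11 (Pf.C 3 0x2458c) (Pf.B 12 10 (Pf.C 2 0x2860b) (Pf.B 12 7 (Pf.B 12 6 (Pf.C 2 99850) (Pf.C 0 0xa0e30586)) (Pf.C 75 0x2038c)))) (Pf.cons (Pf.B 12 11 (Pf.C 3 0x2058c) (Pf.B 12 10 (Pf.C 2 0x2860b) (Pf.B 12 7 (Pf.B 12 6 (Pf.C 2 99850)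 (Pf.C 0 0xa0e30586)) (Pf.C 75 0x2438c)))) Pf.nil))))) (Pf.cons (Pf.C 132 1417) Pf.nil)))) (Pf.C 0 0x9102c506))) (Pf.cons (Pf.B 11 10 (Pf.C 2 0x28586) (Pf.B 11 9 (Pf.C 0 0x8122c506) (Pf.C 75 0x2048b))) Pf.nil))) (Pf.cons (Pf.T 8 52 (Pf.cons (Pf.W 144 8 [] [0,1,6,7,9,10] (Pf.cons (Pf.B 11 10 (Pf.B 11 7 (Pf.C 3 0x1c50b) (Pf.B 11 9 (Pf.W 74 11 [7] [0,1,8,9] (Pf.cons (Pf.B 12 9 (Pf.B 12 8 (Pf.B 12 7 (Pf.C 1 0x71630488) (Pf.C 4 0xe30080)) (Pf.C 4 0x1030080)) (Pf.C 4 0x1230080)) Pf.nil)) (Pf.W 134 11 [] [0,1,7,8,9,10] (Pf.cons (Pf.B 12 9 (Pf.B 12 8 (Pf.B 12 7 (Pf.C 1 0x9161c40c) (Pf.C 4 0xe30080)) (Pf.C 4 0x1030080)) (Pf.C 4 0x1230080)) (Pf.cons (Pf.B 12 10 (Pf.B 12 7 (Pf.C 3 0x1c50c) (Pf.B 12 9 (Pf.B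 12 8 (Pf.W 125 12 [] [7] (Pf.cons (Pf.C 75 0x1c68c) Pf.nil)) (Pf.C 75 0x1c40c)) (Pf.C 75 0x1c48c))) (Pf.C 2 0x2c50c)) Pf.nil))))) (Pf.C 2 99722)) (Pf.cons (Pf.B 11 10 (Pf.B 11 7 (Pf.C 3 0x1c50b) (Pf.B 11 9 (Pf.W 137 11 [] [8,9,6] (Pf.cons (Pf.C 79 0x122060b) (Pf.cons (Pf.W 131 9 [] [6,8,11] (Pf.cons (Pf.B 12 11 (Pf.C 3 0x2458c) (Pf.C 2 99724)) (Pf.cons (Pf.B 12 11 (Pf.B 12 8 (Pf.C 3 0x2058c) (Pf.C 133 1544)) (Pf.C 2 99724)) Pf.nil))) (Pf.cons (Pf.C 79 0x122060b) (Pf.cons (Pf.C 80 0x122060b) (Pf.cons (Pf.C 80 0x122060b) Pf.nil)))))) (Pf.W 137 11 [] [0,1,7,8,9,10] (Pf.cons (Pf.B 12 9 (Pf.B 12 8 (Pf.B 12 7 (Pf.C 1 0x9161c40c) (Pf.C 4 0xe30080)) (Pf.C 4 0x1030080)) (Pf.C 4 0x1230080)) (Pf.cons (Pf.B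 12 9 (Pf.B 12 8 (Pf.B 12 7 (Pf.C 1 0x9161c40c) (Pf.C 4 0xe30080)) (Pf.C 4 0x1030080)) (Pf.C 4 0x1230080)) (Pf.cons (Pf.B 12 10 (Pf.B 12 7 (Pf.C 3 0x1c50c) (Pf.B 12 9 (Pf.B 12 8 (Pf.W 125 12 [] [7] (Pf.cons (Pf.C 75 0x1c68c) Pf.nil)) (Pf.C 75 0x1c40c)) (Pf.C 75 0x1c48c))) (Pf.C 2 0x2c50c)) (Pf.cons (Pf.B 12 10 (Pf.B 12 7 (Pf.C 3 0x1c50c) (Pf.B 12 9 (Pf.B 12 8 (Pf.W 127 12 [] [7] (Pf.cons (Pf.C 75 0x1c68c) Pf.nil)) (Pf.C 75 0x1c40c)) (Pf.C 75 0x1c48c))) (Pf.C 2 0x2c50c)) Pf.nil))))))) (Pf.C 2 99722)) Pf.nil))) Pf.nil)) Pf.nil))))) (Pf.cons (Pf.B 10 9 (Pf.B 10 8 (Pf.T 8 47 (Pf.cons (Pf.W 131 8 [] [0,1,6,7,9,10] (Pf.cons (Pf.B 11 10 (Pf.C 2 0x28586) (Pf.B 11 9 (Pf.T 9 47 (Pf.cons (Pf.W 76 1160 [] [6,10,11]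 (Pf.cons (Pf.B 12 11 (Pf.C 3 0x2458c) (Pf.B 12 10 (Pf.C 2 0x2860b) (Pf.B 12 6 (Pf.C 2 99850) (Pf.C 0 0xb102830c)))) (Pf.cons (Pf.B 12 11 (Pf.C 3 0x2058c) (Pf.B 12 10 (Pf.C 2 0x2860b) (Pf.B 12 6 (Pf.C 2 99850) (Pf.C 0 0xb122830c)))) (Pf.cons (Pf.B 12 11 (Pf.C 3 0x2458c) (Pf.B 12 10 (Pf.C 2 0x2860b) (Pf.B 12 6 (Pf.C 2 99850) (Pf.C 0 0xb102830c)))) (Pf.cons (Pf.B 12 11 (Pf.C 3 0x2058c) (Pf.B 12 10 (Pf.C 2 0x2860b) (Pf.B 12 6 (Pf.C 2 99850) (Pf.C 0 0xb122830c)))) Pf.nil))))) (Pf.cons (Pf.C 132 1417) Pf.nil))) (Pf.B 11 7 (Pf.W 78 6 [10,11] [0,1,7,8,9] (Pf.cons (Pf.B 12 10 (Pf.B 12 9 (Pf.B 12 8 (Pf.B 12 11 (Pf.C 1 0xa162440c) (Pf.B 12 7 (Pf.C 1 0x91630407) (Pf.C 4 0xe30080))) (Pf.C 4 0x1030080)) (Pf.C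 4 0x1230080)) (Pf.C 75 0x1c60a)) (Pf.cons (Pf.B 12 11 (Pf.C 2 0x2c606) (Pf.B 12 10 (Pf.C 2 0x28606) (Pf.B 12 9 (Pf.C 0 0xa1230586) (Pf.B 12 7 (Pf.C 87 0x1630507) (Pf.C 0 0xa121c30c))))) (Pf.cons (Pf.B 12 11 (Pf.C 2 0x2c606) (Pf.B 12 10 (Pf.C 2 0x28606) (Pf.B 12 9 (Pf.C 0 0xa1230586) (Pf.B 12 7 (Pf.C 0 0xb0e30506) (Pf.C 75 0x2438c))))) Pf.nil)))) (Pf.C 0 0xa121c30b)))) (Pf.cons (Pf.B 11 10 (Pf.C 2 0x28586) (Pf.B 11 9 (Pf.B 11 7 (Pf.W 78 6 [10,11] [0,1,7,8,9] (Pf.cons (Pf.B 12 11 (Pf.B 12 10 (Pf.B 12 9 (Pf.B 12 8 (Pf.C 1 0xa162048c) (Pf.C 4 0x1030080)) (Pf.C 4 0x1230080)) (Pf.C 75 0x1c60a)) (Pf.C 75 0x2060b)) (Pf.cons (Pf.B 12 11 (Pf.C 2 0x2c606) (Pf.B 12 10 (Pf.C 2 0x28606) (Pf.B 12 8 (Pf.C 0 0xa1030586)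 (Pf.B 12 7 (Pf.C 0 0xb0e30506) (Pf.C 0 0xa101c30c))))) (Pf.cons (Pf.B 12 11 (Pf.C 2 0x2c606) (Pf.B 12 10 (Pf.C 2 0x28606) (Pf.B 12 8 (Pf.C 0 0xa1030586) (Pf.B 12 7 (Pf.C 0 0xb0e30506) (Pf.C 75 0x2038c))))) Pf.nil)))) (Pf.C 75 0x2038b)) (Pf.C 75 0x2048b))) Pf.nil))) (Pf.cons (Pf.T 8 52 (Pf.cons (Pf.W 144 8 [] [6,10] (Pf.cons (Pf.B 11 10 (Pf.C 3 0x2050b) (Pf.C 2 99722)) (Pf.cons (Pf.B 11 10 (Pf.C 3 0x2050b) (Pf.C 2 99722)) Pf.nil))) Pf.nil)) Pf.nil))) (Pf.C 75 0x1c40a)) (Pf.C 75 0x1c48a)) Pf.nil))) (Pf.cons (Pf.T 7 52 (Pf.cons (Pf.W 144 7 [] [0,1,6,8,9] (Pf.cons (Pf.B 10 9 (Pf.B 10 8 (Pf.W 134 10 [] [0,1,6,7,8,9] (Pf.cons (Pf.B 11 9 (Pf.B 11 8 (Pf.B 11 7 (Pf.W 129 11 [] [6,9,10] (Pf.cons (Pf.B 12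 10 (Pf.B 12 9 (Pf.C 3 0x2450c) (Pf.C 75 0x2c48c)) (Pf.C 2 99596)) Pf.nil)) (Pf.C 4 0xe2c080)) (Pf.C 4 0x102c080)) (Pf.C 4 0x122c080)) (Pf.cons (Pf.B 11 9 (Pf.B 11 8 (Pf.B 11 7 (Pf.W 125 11 [] [0,1,8,9,10] (Pf.cons (Pf.W 74 10 [12] [0,1,8,9,11] (Pf.cons (Pf.B 13 11 (Pf.B 13 9 (Pf.B 13 8 (Pf.C 1 0xb1434488) (Pf.C 4 0x1034080)) (Pf.C 4 0x1234080)) (Pf.C 75 0x3068b)) Pf.nil)) Pf.nil)) (Pf.C 1 0xa161c488)) (Pf.B 11 7 (Pf.C 1 0xa1620487) (Pf.C 75 0x2038b))) (Pf.B 11 8 (Pf.B 11 7 (Pf.C 1 0xa1624407) (Pf.C 75 0x2438b)) (Pf.C 75 0x2440b))) Pf.nil))) (Pf.W 134 10 [] [0,1,6,7,8,9] (Pf.cons (Pf.B 11 9 (Pf.B 11 8 (Pf.B 11 7 (Pf.W 129 11 [] [6,9,10] (Pf.cons (Pf.B 12 10 (Pf.B 12 9 (Pf.C 3 0x2450c) (Pf.C 75 0x2c48c))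 (Pf.C 2 99596)) Pf.nil)) (Pf.C 4 0xe2c080)) (Pf.C 4 0x102c080)) (Pf.C 4 0x122c080)) (Pf.cons (Pf.B 11 9 (Pf.B 11 8 (Pf.B 11 7 (Pf.C 1 0x8142c487) (Pf.W 125 11 [] [7] (Pf.cons (Pf.C 75 0x1c60b) Pf.nil))) (Pf.B 11 7 (Pf.W 125 11 [] [8] (Pf.cons (Pf.C 75 0x2060b) Pf.nil)) (Pf.C 75 0x2038b))) (Pf.B 11 8 (Pf.B 11 7 (Pf.W 125 11 [] [9] (Pf.cons (Pf.C 75 0x2460b) Pf.nil)) (Pf.C 75 0x2438b)) (Pf.C 75 0x2440b))) Pf.nil)))) (Pf.B 10 8 (Pf.W 134 10 [] [0,1,6,7,8,9] (Pf.cons (Pf.B 11 9 (Pf.B 11 8 (Pf.B 11 7 (Pf.W 129 11 [] [6,8,10] (Pf.cons (Pf.B 12 10 (Pf.B 12 8 (Pf.C 3 0x2050c) (Pf.C 75 0x2c40c)) (Pf.C 2 99596)) Pf.nil)) (Pf.C 4 0xe2c080)) (Pf.C 4 0x102c080)) (Pf.C 4 0x122c080)) (Pf.cons (Pf.B 11 9 (Pf.B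 11 8 (Pf.B 11 7 (Pf.C 1 0x9142c407) (Pf.W 125 11 [] [7] (Pf.cons (Pf.C 75 0x1c60b) Pf.nil))) (Pf.B 11 7 (Pf.W 125 11 [] [8] (Pf.cons (Pf.C 75 0x2060b) Pf.nil)) (Pf.C 75 0x2038b))) (Pf.B 11 8 (Pf.B 11 7 (Pf.W 125 11 [] [9] (Pf.cons (Pf.C 75 0x2460b) Pf.nil)) (Pf.C 75 0x2438b)) (Pf.C 75 0x2440b))) Pf.nil))) (Pf.W 134 10 [] [0,1,6,7,8,9] (Pf.cons (Pf.B 11 9 (Pf.B 11 8 (Pf.B 11 7 (Pf.C 1 0x9142038b) (Pf.C 4 0xe2c080)) (Pf.C 4 0x102c080)) (Pf.C 4 0x122c080)) (Pf.cons (Pf.B 11 9 (Pf.B 11 8 (Pf.B 11 7 (Pf.W 125 11 [] [0,1,6,7,8,9,10] (Pf.cons (Pf.B 12 10 (Pf.C 3 0x3030a) (Pf.B 12 9 (Pf.B 12 8 (Pf.B 12 7 (Pf.W 76 1160 [] [7,10,11,12] (Pf.cons (Pf.B 13 11 (Pf.C 3 0x2458d) (Pf.B 13 10 (Pf.C 2 0x2868b) (Pf.B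 13 12 (Pf.B 13 7 (Pf.C 1 0xc1634487) (Pf.C 1 0x81a1c609)) (Pf.C 0 0xb103050d)))) (Pf.cons (Pf.B 13 11 (Pf.C 3 0x2058d) (Pf.B 13 10 (Pf.C 2 0x2868b) (Pf.B 13 12 (Pf.B 13 7 (Pf.C 1 0xc1634407) (Pf.C 1 0x91a1c608)) (Pf.C 0 0xb123050d)))) (Pf.cons (Pf.B 13 12 (Pf.B 13 11 (Pf.C 3 0x2458d) (Pf.B 13 7 (Pf.C 1 0xc1634487) (Pf.C 75 0x2038d))) (Pf.C 75 0x2060d)) (Pf.cons (Pf.B 13 12 (Pf.B 13 11 (Pf.C 3 0x2058d) (Pf.B 13 7 (Pf.C 1 0xc1634407) (Pf.C 75 0x2438d))) (Pf.C 75 0x2460d)) Pf.nil))))) (Pf.C 4 0xe30080)) (Pf.C 4 0x1030080)) (Pf.C 4 0x1230080))) Pf.nil)) (Pf.W 125 11 [] [7] (Pf.cons (Pf.C 75 0x1c60b) Pf.nil))) (Pf.B 11 7 (Pf.W 125 11 [] [8] (Pf.cons (Pf.C 75 0x2060b) Pf.nil)) (Pf.C 75 0x2038b))) (Pf.B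 11 8 (Pf.B 11 7 (Pf.W 125 11 [] [9] (Pf.cons (Pf.C 75 0x2460b) Pf.nil)) (Pf.C 75 0x2438b)) (Pf.C 75 0x2440b))) Pf.nil))))) (Pf.cons (Pf.B 10 9 (Pf.B 10 8 (Pf.C 79 0x121c40a) (Pf.W 137 10 [] [7,9,6] (Pf.cons (Pf.C 79 0x121c58a) (Pf.cons (Pf.W 131 9 [] [6,7,10] (Pf.cons (Pf.B 11 10 (Pf.C 3 0x2450b) (Pf.C 2 99595)) (Pf.cons (Pf.B 11 10 (Pf.B 11 7 (Pf.C 3 0x1c50b) (Pf.C 133 1415)) (Pf.C 2 99595)) Pf.nil))) (Pf.cons (Pf.C 79 0x121c58a) (Pf.cons (Pf.C 80 0x121c58a) (Pf.cons (Pf.C 80 0x121c58a) Pf.nil))))))) (Pf.B 10 8 (Pf.W 137 10 [] [7,8,6] (Pf.cons (Pf.C 79 0x101c58a) (Pf.cons (Pf.W 131 8 [] [6,7,10] (Pf.cons (Pf.B 11 10 (Pf.C 3 0x2050b) (Pf.C 2 99595)) (Pf.cons (Pf.B 11 10 (Pf.B 11 7 (Pf.C 3 0x1c50b)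 (Pf.C 133 1415)) (Pf.C 2 99595)) Pf.nil))) (Pf.cons (Pf.C 79 0x101c58a) (Pf.cons (Pf.C 80 0x101c58a) (Pf.cons (Pf.C 80 0x101c58a) Pf.nil)))))) (Pf.W 137 10 [] [0,1,7,8,9] (Pf.cons (Pf.B 11 9 (Pf.B 11 8 (Pf.B 11 7 (Pf.C 1 0x9142038b) (Pf.C 4 0xe2c080)) (Pf.C 4 0x102c080)) (Pf.C 4 0x122c080)) (Pf.cons (Pf.B 11 9 (Pf.B 11 8 (Pf.B 11 7 (Pf.C 1 0x9142038b) (Pf.C 4 0xe2c080)) (Pf.C 4 0x102c080)) (Pf.C 4 0x122c080)) (Pf.cons (Pf.B 11 9 (Pf.B 11 8 (Pf.W 77 8 [] [7,9,10,11] (Pf.cons (Pf.B 12 11 (Pf.C 3 0x2058c) (Pf.B 12 10 (Pf.C 2 0x2860b) (Pf.C 81 0xe2c60a))) (Pf.cons (Pf.B 12 10 (Pf.B 12 11 (Pf.B 12 9 (Pf.C 3 0x2458c) (Pf.C 75 0x2048c)) (Pf.C 2 0x2860b)) (Pf.C 81 0xe2c60a)) Pf.nil))) (Pf.B 11 7 (Pf.W 125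 11 [] [8] (Pf.cons (Pf.C 75 0x2060b) Pf.nil)) (Pf.C 75 0x2038b))) (Pf.B 11 8 (Pf.B 11 7 (Pf.W 125 11 [] [9] (Pf.cons (Pf.C 75 0x2460b) Pf.nil)) (Pf.C 75 0x2438b)) (Pf.C 75 0x2440b))) (Pf.cons (Pf.B 11 9 (Pf.B 11 8 (Pf.W 77 8 [] [7,9,10,11] (Pf.cons (Pf.B 12 11 (Pf.C 3 0x2058c) (Pf.B 12 10 (Pf.C 2 0x2860b) (Pf.C 81 0xe2c60a))) (Pf.cons (Pf.B 12 10 (Pf.B 12 11 (Pf.B 12 9 (Pf.C 3 0x2458c) (Pf.C 75 0x2048c)) (Pf.C 2 0x2860b)) (Pf.C 81 0xe2c60a)) Pf.nil))) (Pf.B 11 7 (Pf.W 127 11 [] [8] (Pf.cons (Pf.C 75 0x2060b) Pf.nil)) (Pf.C 75 0x2038b))) (Pf.B 11 8 (Pf.B 11 7 (Pf.W 127 11 [] [9] (Pf.cons (Pf.C 75 0x2460b) Pf.nil)) (Pf.C 75 0x2438b)) (Pf.C 75 0x2440b))) Pf.nil))))))) Pf.nil))) Pf.nil)) Pf.nil))))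
 (Pq.cons (Pq.L [0,1] 1 (Pf.C 4 0x101c080))
 Pq.nil))))))))))))))
theorem hh_o67 : AllRef hh_T hh_G81 (hitObl [139,140,143,144,145,146,147,148] hh_h111) :=
  chkPq_sound hh_o67c _ (by decide +kernel)
noncomputable def hh_o68c : Pq := (Pq.cons (Pq.L [] 0 (Pf.C 146 7))
 (Pq.cons (Pq.L [] 0 (Pf.C 147 7))
 (Pq.cons (Pq.L [] 0 (Pf.C 148 7))
 (Pq.cons (Pq.L [] 0 (Pf.C 149 7))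
 (Pq.cons (Pq.L [] 0 (Pf.C 150 7))
 (Pq.cons (Pq.L [] 0 (Pf.C 151 7))
 (Pq.cons (Pq.L [] 0 (Pf.C 152 7))
 (Pq.cons (Pq.L [] 0 (Pf.C 153 7))
 Pq.nil))))))))
theorem hh_o68 : AllRef hh_T hh_G82 (List.map pat1 [167,168,169,170,171,172,173,174]) :=
  chkPq_sound hh_o68c _ (by decide +kernel)
noncomputable def hh_o69c : Pq := (Pq.cons (Pq.L [6] 1 (Pf.C 2 0x20307))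
 (Pq.cons (Pq.L [6] 3 (Pf.B 9 8 (Pf.T 7 44 (Pf.cons (Pf.T 8 48 (Pf.cons (Pf.W 125 7 [] [6,8,9] (Pf.cons (Pf.B 10 9 (Pf.C 3 0x28309) (Pf.T 9 48 (Pf.cons (Pf.W 134 9 [] [6,7,10] (Pf.cons (Pf.B 11 7 (Pf.C 3 0x2c487) (Pf.C 75 0x28587)) (Pf.cons (Pf.B 11 10 (Pf.C 3 0x2830b) (Pf.B 11 7 (Pf.W 74 6 [] [7,10,11] (Pf.cons (Pf.B 12 11 (Pf.B 12 7 (Pf.C 3 0x30587) (Pf.C 75 0x28607)) (Pf.C 75 0x2860b)) Pf.nil)) (Pf.C 2 0x2438b))) Pf.nil))) (Pf.cons (Pf.T 9 50 (Pf.cons (Pf.W 140 9 [] [6,7,8,10] (Pf.cons (Pf.B 11 10 (Pf.C 3 0x2830b) (Pf.B 11 8 (Pf.B 11 7 (Pf.W 134 11 [] [7,9,10] (Pf.cons (Pf.B 12 7 (Pf.C 3 0x30587) (Pf.C 75 0x28607)) (Pf.cons (Pf.B 12 9 (Pf.C 2 0x2460b) (Pf.C 136 1545)) Pf.nil))) (Pf.C 2 0x2438b))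 (Pf.C 2 0x2440b))) Pf.nil)) Pf.nil)) Pf.nil)))) Pf.nil)) (Pf.cons (Pf.C 136 904) Pf.nil))) Pf.nil)) (Pf.C 2 0x1c488)))
 (Pq.cons (Pq.L [6] 1 (Pf.C 2 0x20307))
 Pq.nil)))
theorem hh_o69 : AllRef hh_T hh_G83 (splitObl [137] [138,141,142]) :=
  chkPq_sound hh_o69c _ (by decide +kernel)
noncomputable def hh_o70c : Pq := (Pq.cons (Pq.L [0,1,6] 7 (Pf.B 10 9 (Pf.B 10 8 (Pf.B 9 8 (Pf.T 10 48 (Pf.cons (Pf.W 134 10 [] [6,7,8,9] (Pf.cons (Pf.B 11 9 (Pf.C 3 0x2c509) (Pf.W 129 11 [] [6,7,8,9,10] (Pf.cons (Pf.B 12 9 (Pf.T 9 48 (Pf.cons (Pf.W 134 9 [] [7,8,10,11,12] (Pf.cons (Pf.B 13 12 (Pf.C 3 0x3448c) (Pf.C 75 0x2c68c)) (Pf.cons (Pf.B 13 10 (Pf.B 13 11 (Pf.C 3 0x2c50d) (Pf.B 13 8 (Pf.B 13 7 (Pf.W 125 13 [] [11]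 (Pf.cons (Pf.C 75 0x2c70d) Pf.nil)) (Pf.C 2 0x2438d)) (Pf.C 2 0x2440d))) (Pf.C 2 0x2450d)) Pf.nil))) (Pf.cons (Pf.T 9 50 (Pf.cons (Pf.W 140 9 [] [7,8,10,11,12] (Pf.cons (Pf.B 13 12 (Pf.B 13 10 (Pf.B 13 11 (Pf.C 3 0x2c50d) (Pf.B 13 8 (Pf.B 13 7 (Pf.W 134 13 [] [9,11,12] (Pf.cons (Pf.B 14 12 (Pf.C 3 0x3868c) (Pf.C 75 0x2c70c)) (Pf.cons (Pf.B 14 9 (Pf.C 2 0x2470d) (Pf.C 136 1801)) Pf.nil))) (Pf.C 2 0x2438d)) (Pf.C 2 0x2440d))) (Pf.C 2 0x2450d)) (Pf.C 2 0x2460d)) Pf.nil)) Pf.nil)) Pf.nil))) (Pf.C 2 99468)) Pf.nil))) (Pf.cons (Pf.B 11 9 (Pf.B 11 8 (Pf.B 11 7 (Pf.W 125 11 [] [6,7,8,9,10] (Pf.cons (Pf.B 12 9 (Pf.C 3 0x30309) (Pf.T 9 48 (Pf.cons (Pf.W 134 9 [] [6,7,11,12] (Pf.cons (Pf.B 13 11 (Pf.C 3 0x3448b)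 (Pf.C 75 0x3068b)) (Pf.cons (Pf.B 13 12 (Pf.C 3 0x3030d) (Pf.B 13 11 (Pf.B 13 7 (Pf.W 74 7 [12] [11,13] (Pf.cons (Pf.B 14 13 (Pf.B 14 11 (Pf.C 3 0x3868b) (Pf.C 75 0x3070b)) (Pf.C 75 0x3070d)) Pf.nil)) (Pf.C 2 0x2438d)) (Pf.C 2 0x2458d))) Pf.nil))) (Pf.cons (Pf.T 9 50 (Pf.cons (Pf.W 140 9 [] [6,7,8,10,11,12] (Pf.cons (Pf.B 13 12 (Pf.C 3 0x3030d) (Pf.B 13 11 (Pf.B 13 10 (Pf.B 13 8 (Pf.B 13 7 (Pf.W 134 13 [] [9,11,12] (Pf.cons (Pf.B 14 11 (Pf.C 3 0x3868b) (Pf.C 75 0x3070b)) (Pf.cons (Pf.B 14 9 (Pf.C 2 0x2470d) (Pf.C 136 1801)) Pf.nil))) (Pf.C 2 0x2438d)) (Pf.C 2 0x2440d)) (Pf.C 2 0x2450d)) (Pf.C 2 0x2458d))) Pf.nil)) Pf.nil)) Pf.nil)))) Pf.nil)) (Pf.C 2 0x2838b)) (Pf.C 2 0x2840b)) (Pf.C 2 0x2848b))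 Pf.nil))) (Pf.cons (Pf.T 10 50 (Pf.cons (Pf.W 140 10 [] [6,7,8,9] (Pf.cons (Pf.B 11 9 (Pf.B 11 8 (Pf.B 11 7 (Pf.W 134 11 [] [6,7,8,9,10] (Pf.cons (Pf.B 12 9 (Pf.C 3 0x30589) (Pf.W 129 12 [] [6,7,8,9,10,11] (Pf.cons (Pf.B 13 9 (Pf.T 9 48 (Pf.cons (Pf.W 134 9 [] [7,8,10,11,12,13] (Pf.cons (Pf.B 14 13 (Pf.C 3 0x3848d) (Pf.C 75 0x3070d)) (Pf.cons (Pf.B 14 11 (Pf.B 14 12 (Pf.C 3 0x3058e) (Pf.B 14 10 (Pf.B 14 8 (Pf.B 14 7 (Pf.W 125 14 [] [12] (Pf.cons (Pf.C 75 0x3078e) Pf.nil)) (Pf.C 2 0x2438e)) (Pf.C 2 0x2440e)) (Pf.C 136 1802))) (Pf.C 2 0x2458e)) Pf.nil))) (Pf.cons (Pf.T 9 50 (Pf.cons (Pf.W 140 9 [] [7,8,10,11,12,13] (Pf.cons (Pf.B 14 13 (Pf.B 14 11 (Pf.B 14 12 (Pf.C 3 0x3058e) (Pf.B 14 10 (Pf.B 14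 8 (Pf.B 14 7 (Pf.W 134 14 [] [9,12,13] (Pf.cons (Pf.B 15 13 (Pf.C 3 0x3c70d) (Pf.C 75 0x3078d)) (Pf.cons (Pf.B 15 9 (Pf.C 2 0x2478e) (Pf.C 136 1929)) Pf.nil))) (Pf.C 2 0x2438e)) (Pf.C 2 0x2440e)) (Pf.C 2 0x2450e))) (Pf.C 2 0x2458e)) (Pf.C 2 0x2468e)) Pf.nil)) Pf.nil)) Pf.nil))) (Pf.C 2 99469)) Pf.nil))) (Pf.cons (Pf.B 12 10 (Pf.C 2 0x2860b) (Pf.C 136 1546)) Pf.nil))) (Pf.C 2 0x2838b)) (Pf.C 2 0x2840b)) (Pf.C 2 0x2848b)) Pf.nil)) Pf.nil)) Pf.nil))) (Pf.T 10 48 (Pf.cons (Pf.W 134 10 [] [6,7,8,9] (Pf.cons (Pf.B 11 9 (Pf.C 3 0x2c509) (Pf.B 11 8 (Pf.C 3 0x2c508) (Pf.W 129 11 [] [6,7,8,9,10] (Pf.cons (Pf.B 12 9 (Pf.B 12 8 (Pf.T 9 48 (Pf.cons (Pf.W 134 9 [] [7,8,10,11,12] (Pf.cons (Pf.B 13 12 (Pf.C 3 0x3448c)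 (Pf.C 75 0x2c68c)) (Pf.cons (Pf.B 13 10 (Pf.B 13 11 (Pf.C 3 0x2c50d) (Pf.B 13 8 (Pf.C 2 0x20689) (Pf.B 13 7 (Pf.W 125 13 [] [11] (Pf.cons (Pf.C 75 0x2c70d) Pf.nil)) (Pf.C 2 0x2038d)))) (Pf.C 2 0x2450d)) Pf.nil))) (Pf.cons (Pf.T 9 50 (Pf.cons (Pf.W 140 9 [] [7,8,10,11,12] (Pf.cons (Pf.W 134 8 [] [9,11,12] (Pf.cons (Pf.B 13 12 (Pf.C 3 0x3440c) (Pf.C 75 0x2c68c)) (Pf.cons (Pf.B 13 9 (Pf.C 2 0x24688) (Pf.C 136 1673)) Pf.nil))) (Pf.cons (Pf.B 13 12 (Pf.B 13 10 (Pf.B 13 11 (Pf.C 3 0x2c50d) (Pf.B 13 8 (Pf.C 2 0x20689) (Pf.B 13 7 (Pf.W 134 13 [] [9,11,12] (Pf.cons (Pf.B 14 12 (Pf.C 3 0x3868c) (Pf.C 75 0x2c70c)) (Pf.cons (Pf.B 14 9 (Pf.C 2 0x2470d) (Pf.C 136 1801)) Pf.nil))) (Pf.C 2 0x2038d)))) (Pf.C 2 0x2450d))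 (Pf.C 2 0x2460d)) Pf.nil))) Pf.nil)) Pf.nil))) (Pf.C 2 99340)) (Pf.C 2 99468)) Pf.nil)))) (Pf.cons (Pf.B 11 9 (Pf.B 11 8 (Pf.B 11 7 (Pf.W 125 11 [] [6,7,8,9,10] (Pf.cons (Pf.B 12 9 (Pf.C 3 0x30309) (Pf.B 12 8 (Pf.C 3 0x30308) (Pf.T 9 48 (Pf.cons (Pf.W 134 9 [] [6,11,12] (Pf.cons (Pf.B 13 11 (Pf.C 3 0x3448b) (Pf.C 75 0x3068b)) (Pf.cons (Pf.B 13 12 (Pf.C 3 0x3030d) (Pf.B 13 11 (Pf.W 74 6 [] [11,12,13] (Pf.cons (Pf.B 14 13 (Pf.B 14 11 (Pf.C 3 0x3868b) (Pf.C 75 0x3070b)) (Pf.C 75 0x3070d)) Pf.nil)) (Pf.C 2 0x2458d))) Pf.nil))) (Pf.cons (Pf.T 9 50 (Pf.cons (Pf.W 140 9 [] [6,7,8,10,11,12] (Pf.cons (Pf.W 134 8 [] [9,11,12] (Pf.cons (Pf.B 13 11 (Pf.C 3 0x3440b) (Pf.C 75 0x3068b)) (Pf.cons (Pf.B 13 9 (Pf.C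 2 0x24688) (Pf.C 136 1673)) Pf.nil))) (Pf.cons (Pf.B 13 12 (Pf.C 3 0x3030d) (Pf.B 13 11 (Pf.B 13 10 (Pf.B 13 8 (Pf.C 2 0x20689) (Pf.B 13 7 (Pf.W 134 13 [] [9,11,12] (Pf.cons (Pf.B 14 11 (Pf.C 3 0x3868b) (Pf.C 75 0x3070b)) (Pf.cons (Pf.B 14 9 (Pf.C 2 0x2470d) (Pf.C 136 1801)) Pf.nil))) (Pf.C 2 0x2038d))) (Pf.C 2 0x2450d)) (Pf.C 2 0x2458d))) Pf.nil))) Pf.nil)) Pf.nil))))) Pf.nil)) (Pf.C 2 0x2838b)) (Pf.C 2 0x2840b)) (Pf.C 2 0x2848b)) Pf.nil))) (Pf.cons (Pf.T 10 50 (Pf.cons (Pf.W 140 10 [] [6,7,8,9] (Pf.cons (Pf.B 11 9 (Pf.B 11 8 (Pf.B 11 7 (Pf.W 134 11 [] [6,7,8,9,10] (Pf.cons (Pf.B 12 9 (Pf.C 3 0x30589) (Pf.B 12 8 (Pf.C 3 0x30588) (Pf.W 129 12 [] [6,7,8,9,10,11] (Pf.cons (Pf.B 13 9 (Pf.B 13 8 (Pf.T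 9 48 (Pf.cons (Pf.W 134 9 [] [7,8,10,11,12,13] (Pf.cons (Pf.B 14 13 (Pf.C 3 0x3848d) (Pf.C 75 0x3070d)) (Pf.cons (Pf.B 14 11 (Pf.B 14 12 (Pf.C 3 0x3058e) (Pf.B 14 10 (Pf.B 14 8 (Pf.C 2 0x20709) (Pf.B 14 7 (Pf.W 125 14 [] [12] (Pf.cons (Pf.C 75 0x3078e) Pf.nil)) (Pf.C 2 0x2038e))) (Pf.C 136 1802))) (Pf.C 2 0x2458e)) Pf.nil))) (Pf.cons (Pf.T 9 50 (Pf.cons (Pf.W 140 9 [] [7,8,10,11,12,13] (Pf.cons (Pf.W 134 8 [] [9,12,13] (Pf.cons (Pf.B 14 13 (Pf.C 3 0x3840d) (Pf.C 75 0x3070d)) (Pf.cons (Pf.B 14 9 (Pf.C 2 0x24708) (Pf.C 136 1801)) Pf.nil))) (Pf.cons (Pf.B 14 13 (Pf.B 14 11 (Pf.B 14 12 (Pf.C 3 0x3058e) (Pf.B 14 10 (Pf.B 14 8 (Pf.C 2 0x20709) (Pf.B 14 7 (Pf.W 134 14 [] [9,12,13] (Pf.cons (Pf.B 15 13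 (Pf.C 3 0x3c70d) (Pf.C 75 0x3078d)) (Pf.cons (Pf.B 15 9 (Pf.C 2 0x2478e) (Pf.C 136 1929)) Pf.nil))) (Pf.C 2 0x2038e))) (Pf.C 2 0x2450e))) (Pf.C 2 0x2458e)) (Pf.C 2 0x2468e)) Pf.nil))) Pf.nil)) Pf.nil))) (Pf.C 2 99341)) (Pf.C 2 99469)) Pf.nil)))) (Pf.cons (Pf.B 12 10 (Pf.C 2 0x2860b) (Pf.C 136 1546)) Pf.nil))) (Pf.C 2 0x2838b)) (Pf.C 2 0x2840b)) (Pf.C 2 0x2848b)) Pf.nil)) Pf.nil)) Pf.nil)))) (Pf.B 9 8 (Pf.T 10 48 (Pf.cons (Pf.W 134 10 [] [6,7,8,9] (Pf.cons (Pf.B 11 9 (Pf.C 3 0x2c509) (Pf.W 129 11 [] [6,7,8,9,10] (Pf.cons (Pf.B 12 9 (Pf.T 9 48 (Pf.cons (Pf.W 134 9 [] [7,8,10,11,12] (Pf.cons (Pf.B 13 12 (Pf.C 3 0x3448c) (Pf.C 75 0x2c68c)) (Pf.cons (Pf.B 13 10 (Pf.B 13 11 (Pf.C 3 0x2c50d) (Pf.B 13 8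 (Pf.B 13 7 (Pf.W 125 13 [] [11] (Pf.cons (Pf.C 75 0x2c70d) Pf.nil)) (Pf.C 2 0x2438d)) (Pf.C 2 0x2440d))) (Pf.C 2 0x2450d)) Pf.nil))) (Pf.cons (Pf.T 9 50 (Pf.cons (Pf.W 140 9 [] [7,8,10,11,12] (Pf.cons (Pf.B 13 12 (Pf.B 13 10 (Pf.B 13 11 (Pf.C 3 0x2c50d) (Pf.B 13 8 (Pf.B 13 7 (Pf.W 134 13 [] [9,11,12] (Pf.cons (Pf.B 14 12 (Pf.C 3 0x3868c) (Pf.C 75 0x2c70c)) (Pf.cons (Pf.B 14 9 (Pf.C 2 0x2470d) (Pf.C 136 1801)) Pf.nil))) (Pf.C 2 0x2438d)) (Pf.C 2 0x2440d))) (Pf.C 2 0x2450d)) (Pf.C 2 0x2460d)) Pf.nil)) Pf.nil)) Pf.nil))) (Pf.C 2 99468)) Pf.nil))) (Pf.cons (Pf.B 11 9 (Pf.B 11 8 (Pf.C 2 0x2058a) (Pf.B 11 7 (Pf.T 8 48 (Pf.cons (Pf.W 125 11 [] [6,7,8,9,10] (Pf.cons (Pf.B 12 9 (Pf.C 3 0x30309) (Pf.T 9 48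 (Pf.cons (Pf.W 134 9 [] [6,11,12] (Pf.cons (Pf.B 13 11 (Pf.C 3 0x3448b) (Pf.C 75 0x3068b)) (Pf.cons (Pf.B 13 12 (Pf.C 3 0x3030d) (Pf.B 13 11 (Pf.W 74 6 [] [11,12,13] (Pf.cons (Pf.B 14 13 (Pf.B 14 11 (Pf.C 3 0x3868b) (Pf.C 75 0x3070b)) (Pf.C 75 0x3070d)) Pf.nil)) (Pf.C 2 0x2458d))) Pf.nil))) (Pf.cons (Pf.T 9 50 (Pf.cons (Pf.W 140 9 [] [6,7,8,10,11,12] (Pf.cons (Pf.B 13 12 (Pf.C 3 0x3030d) (Pf.B 13 11 (Pf.B 13 10 (Pf.B 13 8 (Pf.B 13 7 (Pf.W 134 13 [] [9,11,12] (Pf.cons (Pf.B 14 11 (Pf.C 3 0x3868b) (Pf.C 75 0x3070b)) (Pf.cons (Pf.B 14 9 (Pf.C 2 0x2470d) (Pf.C 136 1801)) Pf.nil))) (Pf.C 2 0x2438d)) (Pf.C 2 0x2440d)) (Pf.C 2 0x2450d)) (Pf.C 2 0x2458d))) Pf.nil)) Pf.nil)) Pf.nil)))) Pf.nil)) (Pf.cons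 (Pf.C 136 1416) Pf.nil))) (Pf.C 2 0x2038b))) (Pf.C 2 0x2848b)) Pf.nil))) (Pf.cons (Pf.T 10 50 (Pf.cons (Pf.W 140 10 [] [0,1,6,7,8,9] (Pf.cons (Pf.W 134 8 [] [6,7,9,10] (Pf.cons (Pf.B 11 9 (Pf.C 3 0x2c409) (Pf.W 129 11 [] [6,7,8,9,10] (Pf.cons (Pf.B 12 9 (Pf.T 9 48 (Pf.cons (Pf.W 134 9 [] [7,8,10,11,12] (Pf.cons (Pf.B 13 12 (Pf.C 3 0x3448c) (Pf.C 75 0x2c68c)) (Pf.cons (Pf.B 13 10 (Pf.B 13 8 (Pf.B 13 11 (Pf.C 3 0x2c40d) (Pf.B 13 7 (Pf.W 125 13 [] [11] (Pf.cons (Pf.C 75 0x2c70d) Pf.nil)) (Pf.C 2 0x2438d))) (Pf.C 2 0x2440d)) (Pf.C 136 1674)) Pf.nil))) (Pf.cons (Pf.T 9 50 (Pf.cons (Pf.W 140 9 [] [7,8,10,11,12] (Pf.cons (Pf.B 13 12 (Pf.B 13 10 (Pf.B 13 8 (Pf.B 13 11 (Pf.C 3 0x2c40d) (Pf.B 13 7 (Pf.W 134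 13 [] [9,11,12] (Pf.cons (Pf.B 14 12 (Pf.C 3 0x3868c) (Pf.C 75 0x2c70c)) (Pf.cons (Pf.B 14 9 (Pf.C 2 0x2470d) (Pf.C 136 1801)) Pf.nil))) (Pf.C 2 0x2438d))) (Pf.C 2 0x2440d)) (Pf.C 2 0x2450d)) (Pf.C 2 0x2460d)) Pf.nil)) Pf.nil)) Pf.nil))) (Pf.C 2 99468)) Pf.nil))) (Pf.cons (Pf.B 11 10 (Pf.C 2 0x28588) (Pf.C 136 1418)) Pf.nil))) (Pf.cons (Pf.B 11 9 (Pf.B 11 8 (Pf.C 2 0x2058a) (Pf.B 11 7 (Pf.W 134 11 [] [0,1,6,7,8,9,10] (Pf.cons (Pf.B 12 10 (Pf.C 135 1546) (Pf.B 12 9 (Pf.C 3 0x30589) (Pf.B 12 8 (Pf.T 8 48 (Pf.cons (Pf.W 129 12 [] [6,7,8,9,10,11] (Pf.cons (Pf.B 13 9 (Pf.T 9 48 (Pf.cons (Pf.W 134 9 [] [7,8,10,11,12,13] (Pf.cons (Pf.B 14 13 (Pf.C 3 0x3848d) (Pf.C 75 0x3070d)) (Pf.cons (Pf.B 14 11 (Pf.B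 14 12 (Pf.C 3 0x3058e) (Pf.B 14 10 (Pf.B 14 8 (Pf.B 14 7 (Pf.W 125 14 [] [12] (Pf.cons (Pf.C 75 0x3078e) Pf.nil)) (Pf.C 2 0x2438e)) (Pf.C 2 0x2440e)) (Pf.C 136 1802))) (Pf.C 2 0x2458e)) Pf.nil))) (Pf.cons (Pf.T 9 50 (Pf.cons (Pf.W 140 9 [] [7,8,10,11,12,13] (Pf.cons (Pf.B 14 13 (Pf.B 14 11 (Pf.B 14 12 (Pf.C 3 0x3058e) (Pf.B 14 10 (Pf.B 14 8 (Pf.B 14 7 (Pf.W 134 14 [] [9,12,13] (Pf.cons (Pf.B 15 13 (Pf.C 3 0x3c70d) (Pf.C 75 0x3078d)) (Pf.cons (Pf.B 15 9 (Pf.C 2 0x2478e) (Pf.C 136 1929)) Pf.nil))) (Pf.C 2 0x2438e)) (Pf.C 2 0x2440e)) (Pf.C 2 0x2450e))) (Pf.C 2 0x2458e)) (Pf.C 2 0x2468e)) Pf.nil)) Pf.nil)) Pf.nil))) (Pf.C 2 99469)) Pf.nil)) (Pf.cons (Pf.C 135 1544) Pf.nil))) (Pf.W 129 12 [] [0,1,6,8,10,11]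 (Pf.cons (Pf.B 13 11 (Pf.B 13 10 (Pf.B 13 8 (Pf.W 74 6 [12] [0,1,8,10,11,13] (Pf.cons (Pf.B 14 13 (Pf.B 14 12 (Pf.B 14 11 (Pf.C 3 0x3868b) (Pf.B 14 10 (Pf.C 3 0x3868a) (Pf.B 14 8 (Pf.C 3 0x38688) (Pf.C 0 0xb1838508)))) (Pf.C 4 0x1838080)) (Pf.C 75 0x3070d)) Pf.nil)) (Pf.C 2 99341)) (Pf.C 2 99597)) (Pf.C 2 99725)) Pf.nil))))) (Pf.cons (Pf.B 12 10 (Pf.C 2 0x2860b) (Pf.C 136 1546)) Pf.nil))) (Pf.C 2 0x2038b))) (Pf.C 2 0x2848b)) Pf.nil))) Pf.nil)) Pf.nil))) (Pf.C 2 0x28488))) (Pf.B 10 8 (Pf.B 9 8 (Pf.T 10 48 (Pf.cons (Pf.W 134 10 [] [6,7,8,9] (Pf.cons (Pf.B 11 8 (Pf.C 3 0x2c508) (Pf.B 11 9 (Pf.T 9 48 (Pf.cons (Pf.W 129 11 [] [6,7,8,9,10] (Pf.cons (Pf.B 12 8 (Pf.T 8 48 (Pf.cons (Pf.W 134 8 [] [7,9,10,11,12]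 (Pf.cons (Pf.B 13 12 (Pf.C 3 0x3440c) (Pf.C 75 0x2c68c)) (Pf.cons (Pf.B 13 10 (Pf.B 13 11 (Pf.C 3 0x2c50d) (Pf.B 13 9 (Pf.B 13 7 (Pf.W 125 13 [] [11] (Pf.cons (Pf.C 75 0x2c70d) Pf.nil)) (Pf.C 2 0x2038d)) (Pf.C 2 0x2048d))) (Pf.C 2 0x2050d)) Pf.nil))) (Pf.cons (Pf.T 8 50 (Pf.cons (Pf.W 140 8 [] [7,9,10,11,12] (Pf.cons (Pf.B 13 12 (Pf.B 13 10 (Pf.B 13 11 (Pf.C 3 0x2c50d) (Pf.B 13 9 (Pf.B 13 7 (Pf.W 134 13 [] [8,11,12] (Pf.cons (Pf.B 14 12 (Pf.C 3 0x3868c) (Pf.C 75 0x2c70c)) (Pf.cons (Pf.B 14 8 (Pf.C 2 0x2070d) (Pf.C 136 1800)) Pf.nil))) (Pf.C 2 0x2038d)) (Pf.C 2 0x2048d))) (Pf.C 2 0x2050d)) (Pf.C 2 0x2060d)) Pf.nil)) Pf.nil)) Pf.nil))) (Pf.C 2 99340)) Pf.nil)) (Pf.cons (Pf.C 135 1417) Pf.nil))) (Pf.W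 129 11 [] [6,7,8,9,10] (Pf.cons (Pf.B 12 9 (Pf.B 12 8 (Pf.T 9 48 (Pf.cons (Pf.W 134 9 [] [6,7,8,11,12] (Pf.cons (Pf.B 13 12 (Pf.C 3 0x3448c) (Pf.C 75 0x2c68c)) (Pf.cons (Pf.B 13 12 (Pf.B 13 8 (Pf.B 13 7 (Pf.B 13 11 (Pf.W 125 13 [] [6,11,12] (Pf.cons (Pf.W 74 6 [11] [12,13,14] (Pf.cons (Pf.B 15 13 (Pf.B 15 12 (Pf.C 3 0x3c68c) (Pf.C 75 0x2c78c)) (Pf.C 75 0x3878d)) Pf.nil)) Pf.nil)) (Pf.W 125 13 [] [11] (Pf.cons (Pf.C 75 0x2c70d) Pf.nil))) (Pf.C 2 0x2438d)) (Pf.C 2 0x2440d)) (Pf.C 2 0x2460d)) Pf.nil))) (Pf.cons (Pf.T 9 50 (Pf.cons (Pf.T 8 48 (Pf.cons (Pf.W 134 8 [] [7,9,10,11,12] (Pf.cons (Pf.B 13 12 (Pf.C 3 0x3440c) (Pf.C 75 0x2c68c)) (Pf.cons (Pf.B 13 10 (Pf.B 13 11 (Pf.C 3 0x2c50d) (Pf.B 13 9 (Pf.B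 13 7 (Pf.W 125 13 [] [11] (Pf.cons (Pf.C 75 0x2c70d) Pf.nil)) (Pf.C 2 0x2038d)) (Pf.C 136 1673))) (Pf.C 2 0x2050d)) Pf.nil))) (Pf.cons (Pf.T 8 50 (Pf.cons (Pf.W 140 8 [] [7,9,10,11,12] (Pf.cons (Pf.B 13 12 (Pf.B 13 10 (Pf.B 13 11 (Pf.C 3 0x2c50d) (Pf.B 13 9 (Pf.B 13 7 (Pf.W 134 13 [] [8,11,12] (Pf.cons (Pf.B 14 12 (Pf.C 3 0x3868c) (Pf.C 75 0x2c70c)) (Pf.cons (Pf.B 14 8 (Pf.C 2 0x2070d) (Pf.C 136 1800)) Pf.nil))) (Pf.C 2 0x2038d)) (Pf.C 2 0x2048d))) (Pf.C 2 0x2050d)) (Pf.C 2 0x2060d)) Pf.nil)) Pf.nil)) Pf.nil))) Pf.nil)) Pf.nil))) (Pf.C 2 99340)) (Pf.C 2 99468)) Pf.nil)))) (Pf.cons (Pf.B 11 9 (Pf.C 2 0x2458a) (Pf.B 11 8 (Pf.B 11 7 (Pf.T 9 48 (Pf.cons (Pf.W 125 11 [] [6,7,8,9,10] (Pf.cons (Pf.B 12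 8 (Pf.C 3 0x30308) (Pf.T 8 48 (Pf.cons (Pf.W 134 8 [] [6,11,12] (Pf.cons (Pf.B 13 11 (Pf.C 3 0x3440b) (Pf.C 75 0x3068b)) (Pf.cons (Pf.B 13 12 (Pf.C 3 0x3030d) (Pf.B 13 11 (Pf.W 74 6 [] [11,12,13] (Pf.cons (Pf.B 14 13 (Pf.B 14 11 (Pf.C 3 0x3868b) (Pf.C 75 0x3070b)) (Pf.C 75 0x3070d)) Pf.nil)) (Pf.C 2 0x2058d))) Pf.nil))) (Pf.cons (Pf.T 8 50 (Pf.cons (Pf.W 140 8 [] [6,7,9,10,11,12] (Pf.cons (Pf.B 13 12 (Pf.C 3 0x3030d) (Pf.B 13 11 (Pf.B 13 10 (Pf.B 13 9 (Pf.B 13 7 (Pf.W 134 13 [] [8,11,12] (Pf.cons (Pf.B 14 11 (Pf.C 3 0x3868b) (Pf.C 75 0x3070b)) (Pf.cons (Pf.B 14 8 (Pf.C 2 0x2070d) (Pf.C 136 1800)) Pf.nil))) (Pf.C 2 0x2038d)) (Pf.C 2 0x2048d)) (Pf.C 2 0x2050d)) (Pf.C 2 0x2058d))) Pf.nil)) Pf.nil))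 Pf.nil)))) Pf.nil)) (Pf.cons (Pf.C 136 1417) Pf.nil))) (Pf.C 2 0x2438b)) (Pf.C 2 0x2440b))) Pf.nil))) (Pf.cons (Pf.T 10 50 (Pf.cons (Pf.W 140 10 [] [0,1,6,7,8,9] (Pf.cons (Pf.W 134 9 [] [6,7,8,10] (Pf.cons (Pf.B 11 8 (Pf.C 3 0x2c488) (Pf.W 129 11 [] [6,7,8,9,10] (Pf.cons (Pf.B 12 8 (Pf.T 8 48 (Pf.cons (Pf.W 134 8 [] [7,9,10,11,12] (Pf.cons (Pf.B 13 12 (Pf.C 3 0x3440c) (Pf.C 75 0x2c68c)) (Pf.cons (Pf.B 13 10 (Pf.B 13 9 (Pf.B 13 11 (Pf.C 3 0x2c48d) (Pf.B 13 7 (Pf.W 125 13 [] [11] (Pf.cons (Pf.C 75 0x2c70d) Pf.nil)) (Pf.C 2 0x2038d))) (Pf.C 2 0x2048d)) (Pf.C 136 1674)) Pf.nil))) (Pf.cons (Pf.T 8 50 (Pf.cons (Pf.W 140 8 [] [7,9,10,11,12] (Pf.cons (Pf.B 13 12 (Pf.B 13 10 (Pf.B 13 9 (Pf.B 13 11 (Pf.C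 3 0x2c48d) (Pf.B 13 7 (Pf.W 134 13 [] [8,11,12] (Pf.cons (Pf.B 14 12 (Pf.C 3 0x3868c) (Pf.C 75 0x2c70c)) (Pf.cons (Pf.B 14 8 (Pf.C 2 0x2070d) (Pf.C 136 1800)) Pf.nil))) (Pf.C 2 0x2038d))) (Pf.C 2 0x2048d)) (Pf.C 2 0x2050d)) (Pf.C 2 0x2060d)) Pf.nil)) Pf.nil)) Pf.nil))) (Pf.C 2 99340)) Pf.nil))) (Pf.cons (Pf.B 11 10 (Pf.C 2 0x28589) (Pf.C 136 1418)) Pf.nil))) (Pf.cons (Pf.B 11 9 (Pf.C 2 0x2458a) (Pf.B 11 8 (Pf.B 11 7 (Pf.W 134 11 [] [0,1,6,7,8,9,10] (Pf.cons (Pf.B 12 10 (Pf.C 135 1546) (Pf.B 12 8 (Pf.C 3 0x30588) (Pf.B 12 9 (Pf.T 9 48 (Pf.cons (Pf.W 129 12 [] [6,7,8,9,10,11] (Pf.cons (Pf.B 13 8 (Pf.T 8 48 (Pf.cons (Pf.W 134 8 [] [7,9,10,11,12,13] (Pf.cons (Pf.B 14 13 (Pf.C 3 0x3840d) (Pf.C 75 0x3070d))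 (Pf.cons (Pf.B 14 11 (Pf.B 14 12 (Pf.C 3 0x3058e) (Pf.B 14 10 (Pf.B 14 9 (Pf.B 14 7 (Pf.W 125 14 [] [12] (Pf.cons (Pf.C 75 0x3078e) Pf.nil)) (Pf.C 2 0x2038e)) (Pf.C 2 0x2048e)) (Pf.C 136 1802))) (Pf.C 2 0x2058e)) Pf.nil))) (Pf.cons (Pf.T 8 50 (Pf.cons (Pf.W 140 8 [] [7,9,10,11,12,13] (Pf.cons (Pf.B 14 13 (Pf.B 14 11 (Pf.B 14 12 (Pf.C 3 0x3058e) (Pf.B 14 10 (Pf.B 14 9 (Pf.B 14 7 (Pf.W 134 14 [] [8,12,13] (Pf.cons (Pf.B 15 13 (Pf.C 3 0x3c70d) (Pf.C 75 0x3078d)) (Pf.cons (Pf.B 15 8 (Pf.C 2 0x2078e) (Pf.C 136 1928)) Pf.nil))) (Pf.C 2 0x2038e)) (Pf.C 2 0x2048e)) (Pf.C 2 0x2050e))) (Pf.C 2 0x2058e)) (Pf.C 2 0x2068e)) Pf.nil)) Pf.nil)) Pf.nil))) (Pf.C 2 99341)) Pf.nil)) (Pf.cons (Pf.C 135 1545) Pf.nil)))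 (Pf.W 129 12 [] [0,1,6,9,10,11] (Pf.cons (Pf.B 13 11 (Pf.B 13 10 (Pf.B 13 9 (Pf.W 74 6 [12] [0,1,9,10,11,13] (Pf.cons (Pf.B 14 13 (Pf.B 14 12 (Pf.B 14 11 (Pf.C 3 0x3868b) (Pf.B 14 10 (Pf.C 3 0x3868a) (Pf.B 14 9 (Pf.C 3 0x38689) (Pf.C 0 0xb1838509)))) (Pf.C 4 0x1838080)) (Pf.C 75 0x3070d)) Pf.nil)) (Pf.C 2 99469)) (Pf.C 2 99597)) (Pf.C 2 99725)) Pf.nil))))) (Pf.cons (Pf.B 12 10 (Pf.C 2 0x2860b) (Pf.C 136 1546)) Pf.nil))) (Pf.C 2 0x2438b)) (Pf.C 2 0x2440b))) Pf.nil))) Pf.nil)) Pf.nil))) (Pf.C 2 0x28409)) (Pf.B 9 8 (Pf.C 2 0x2048a) (Pf.T 10 48 (Pf.cons (Pf.W 134 10 [] [0,1,6,7,8,9] (Pf.cons (Pf.B 11 7 (Pf.C 3 0x2c507) (Pf.B 11 9 (Pf.B 11 8 (Pf.T 9 48 (Pf.cons (Pf.T 8 48 (Pf.cons (Pf.W 129 11 [] [6,7,8,9,10]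 (Pf.cons (Pf.B 12 7 (Pf.T 7 48 (Pf.cons (Pf.W 134 7 [] [8,9,10,11,12] (Pf.cons (Pf.B 13 12 (Pf.C 3 0x3438c) (Pf.C 75 0x2c68c)) (Pf.cons (Pf.B 13 10 (Pf.B 13 11 (Pf.C 3 0x2c50d) (Pf.B 13 9 (Pf.B 13 8 (Pf.W 125 13 [] [11] (Pf.cons (Pf.C 75 0x2c70d) Pf.nil)) (Pf.C 2 0x1c40d)) (Pf.C 2 0x1c48d))) (Pf.C 2 0x1c50d)) Pf.nil))) (Pf.cons (Pf.T 7 50 (Pf.cons (Pf.W 140 7 [] [8,9,10,11,12] (Pf.cons (Pf.B 13 12 (Pf.B 13 10 (Pf.B 13 11 (Pf.C 3 0x2c50d) (Pf.B 13 9 (Pf.B 13 8 (Pf.W 134 13 [] [7,11,12] (Pf.cons (Pf.B 14 12 (Pf.C 3 0x3868c) (Pf.C 75 0x2c70c)) (Pf.cons (Pf.B 14 7 (Pf.C 2 0x1c70d) (Pf.C 136 1799)) Pf.nil))) (Pf.C 2 0x1c40d)) (Pf.C 2 0x1c48d))) (Pf.C 2 0x1c50d)) (Pf.C 2 0x1c60d)) Pf.nil)) Pf.nil)) Pf.nil)))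 (Pf.C 2 99212)) Pf.nil)) (Pf.cons (Pf.C 135 1416) Pf.nil))) (Pf.cons (Pf.C 135 1417) Pf.nil))) (Pf.T 9 48 (Pf.cons (Pf.W 129 11 [] [6,7,8,9,10] (Pf.cons (Pf.B 12 8 (Pf.B 12 7 (Pf.T 8 48 (Pf.cons (Pf.W 134 8 [] [6,7,9,10,11,12] (Pf.cons (Pf.B 13 12 (Pf.C 3 0x3440c) (Pf.C 75 0x2c68c)) (Pf.cons (Pf.B 13 12 (Pf.B 13 10 (Pf.C 2 0x28688) (Pf.B 13 9 (Pf.C 2 0x24688) (Pf.B 13 11 (Pf.B 13 7 (Pf.W 125 13 [] [6,11,12] (Pf.cons (Pf.W 74 6 [11] [12,13,14] (Pf.cons (Pf.B 15 13 (Pf.B 15 12 (Pf.C 3 0x3c68c) (Pf.C 75 0x2c78c)) (Pf.C 75 0x3878d)) Pf.nil)) Pf.nil)) (Pf.C 2 0x2038d)) (Pf.C 0 0xa162440d)))) (Pf.C 2 0x2060d)) Pf.nil))) (Pf.cons (Pf.T 8 50 (Pf.cons (Pf.T 7 48 (Pf.cons (Pf.W 134 7 [] [8,9,10,11,12] (Pf.cons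 (Pf.B 13 12 (Pf.C 3 0x3438c) (Pf.C 75 0x2c68c)) (Pf.cons (Pf.B 13 10 (Pf.B 13 11 (Pf.C 3 0x2c50d) (Pf.B 13 9 (Pf.B 13 8 (Pf.W 125 13 [] [11] (Pf.cons (Pf.C 75 0x2c70d) Pf.nil)) (Pf.C 136 1672)) (Pf.C 2 0x1c48d))) (Pf.C 2 0x1c50d)) Pf.nil))) (Pf.cons (Pf.T 7 50 (Pf.cons (Pf.W 140 7 [] [8,9,10,11,12] (Pf.cons (Pf.B 13 12 (Pf.B 13 10 (Pf.B 13 11 (Pf.C 3 0x2c50d) (Pf.B 13 9 (Pf.B 13 8 (Pf.W 134 13 [] [7,11,12] (Pf.cons (Pf.B 14 12 (Pf.C 3 0x3868c) (Pf.C 75 0x2c70c)) (Pf.cons (Pf.B 14 7 (Pf.C 2 0x1c70d) (Pf.C 136 1799)) Pf.nil))) (Pf.C 2 0x1c40d)) (Pf.C 2 0x1c48d))) (Pf.C 2 0x1c50d)) (Pf.C 2 0x1c60d)) Pf.nil)) Pf.nil)) Pf.nil))) Pf.nil)) Pf.nil))) (Pf.C 2 99212)) (Pf.C 2 99340)) Pf.nil)) (Pf.cons (Pf.C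 135 1417) Pf.nil)))) (Pf.B 11 8 (Pf.T 8 48 (Pf.cons (Pf.W 129 11 [] [6,7,8,9,10] (Pf.cons (Pf.B 12 9 (Pf.B 12 7 (Pf.T 9 48 (Pf.cons (Pf.W 134 9 [] [6,7,8,10,11,12] (Pf.cons (Pf.B 13 12 (Pf.C 3 0x3448c) (Pf.C 75 0x2c68c)) (Pf.cons (Pf.B 13 12 (Pf.B 13 10 (Pf.C 2 0x28689) (Pf.B 13 8 (Pf.C 2 0x20689) (Pf.B 13 11 (Pf.B 13 7 (Pf.W 125 13 [] [6,11,12] (Pf.cons (Pf.W 74 6 [11] [12,13,14] (Pf.cons (Pf.B 15 13 (Pf.B 15 12 (Pf.C 3 0x3c68c) (Pf.C 75 0x2c78c)) (Pf.C 75 0x3878d)) Pf.nil)) Pf.nil)) (Pf.C 2 0x2038d)) (Pf.C 0 0xa162048d)))) (Pf.C 2 0x2460d)) Pf.nil))) (Pf.cons (Pf.T 9 50 (Pf.cons (Pf.T 7 48 (Pf.cons (Pf.W 134 7 [] [8,9,10,11,12] (Pf.cons (Pf.B 13 12 (Pf.C 3 0x3438c) (Pf.C 75 0x2c68c)) (Pf.cons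 (Pf.B 13 10 (Pf.B 13 11 (Pf.C 3 0x2c50d) (Pf.B 13 9 (Pf.B 13 8 (Pf.W 125 13 [] [11] (Pf.cons (Pf.C 75 0x2c70d) Pf.nil)) (Pf.C 2 0x1c40d)) (Pf.C 136 1673))) (Pf.C 2 0x1c50d)) Pf.nil))) (Pf.cons (Pf.T 7 50 (Pf.cons (Pf.W 140 7 [] [8,9,10,11,12] (Pf.cons (Pf.B 13 12 (Pf.B 13 10 (Pf.B 13 11 (Pf.C 3 0x2c50d) (Pf.B 13 9 (Pf.B 13 8 (Pf.W 134 13 [] [7,11,12] (Pf.cons (Pf.B 14 12 (Pf.C 3 0x3868c) (Pf.C 75 0x2c70c)) (Pf.cons (Pf.B 14 7 (Pf.C 2 0x1c70d) (Pf.C 136 1799)) Pf.nil))) (Pf.C 2 0x1c40d)) (Pf.C 2 0x1c48d))) (Pf.C 2 0x1c50d)) (Pf.C 2 0x1c60d)) Pf.nil)) Pf.nil)) Pf.nil))) Pf.nil)) Pf.nil))) (Pf.C 2 99212)) (Pf.C 2 99468)) Pf.nil)) (Pf.cons (Pf.C 135 1416) Pf.nil))) (Pf.W 129 11 [] [0,1,6,8,9,10] (Pf.cons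 (Pf.B 12 10 (Pf.B 12 9 (Pf.B 12 8 (Pf.W 74 6 [11] [0,1,8,9,10,12] (Pf.cons (Pf.B 13 12 (Pf.B 13 11 (Pf.B 13 10 (Pf.C 3 0x3460a) (Pf.B 13 9 (Pf.C 3 0x34609) (Pf.B 13 8 (Pf.C 3 0x34608) (Pf.C 0 0xa1634488)))) (Pf.C 4 0x1634080)) (Pf.C 75 0x2c68c)) Pf.nil)) (Pf.C 2 99340)) (Pf.C 2 99468)) (Pf.C 2 99596)) Pf.nil))))) (Pf.cons (Pf.B 11 9 (Pf.C 2 0x2458a) (Pf.B 11 8 (Pf.C 2 0x20589) (Pf.B 11 7 (Pf.T 9 48 (Pf.cons (Pf.T 8 48 (Pf.cons (Pf.W 125 11 [] [6,7,8,9,10] (Pf.cons (Pf.B 12 7 (Pf.C 3 0x30307) (Pf.T 7 48 (Pf.cons (Pf.W 134 7 [] [6,11,12] (Pf.cons (Pf.B 13 11 (Pf.C 3 0x3438b) (Pf.C 75 0x3068b)) (Pf.cons (Pf.B 13 12 (Pf.C 3 0x3030d) (Pf.B 13 11 (Pf.W 74 7 [12] [11,13] (Pf.cons (Pf.B 14 13 (Pf.B 14 11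 (Pf.C 3 0x3868b) (Pf.C 75 0x3070b)) (Pf.C 75 0x3070d)) Pf.nil)) (Pf.C 2 0x1c58d))) Pf.nil))) (Pf.cons (Pf.T 7 50 (Pf.cons (Pf.W 140 7 [] [6,8,9,10,11,12] (Pf.cons (Pf.B 13 12 (Pf.C 3 0x3030d) (Pf.B 13 11 (Pf.B 13 10 (Pf.B 13 9 (Pf.B 13 8 (Pf.W 134 13 [] [7,11,12] (Pf.cons (Pf.B 14 11 (Pf.C 3 0x3868b) (Pf.C 75 0x3070b)) (Pf.cons (Pf.B 14 7 (Pf.C 2 0x1c70d) (Pf.C 136 1799)) Pf.nil))) (Pf.C 2 0x1c40d)) (Pf.C 2 0x1c48d)) (Pf.C 2 0x1c50d)) (Pf.C 2 0x1c58d))) Pf.nil)) Pf.nil)) Pf.nil)))) Pf.nil)) (Pf.cons (Pf.C 136 1416) Pf.nil))) (Pf.cons (Pf.C 136 1417) Pf.nil))) (Pf.C 2 0x2038b)))) Pf.nil))) (Pf.cons (Pf.T 10 50 (Pf.cons (Pf.W 140 10 [] [0,1,6,7,8,9] (Pf.cons (Pf.W 134 8 [] [0,1,6,7,9,10] (Pf.cons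 (Pf.B 11 10 (Pf.C 135 1418) (Pf.B 11 7 (Pf.C 3 0x2c407) (Pf.B 11 9 (Pf.T 9 48 (Pf.cons (Pf.W 129 11 [] [6,7,8,9,10] (Pf.cons (Pf.B 12 7 (Pf.T 7 48 (Pf.cons (Pf.W 134 7 [] [8,9,10,11,12] (Pf.cons (Pf.B 13 12 (Pf.C 3 0x3438c) (Pf.C 75 0x2c68c)) (Pf.cons (Pf.B 13 10 (Pf.B 13 9 (Pf.B 13 11 (Pf.C 3 0x2c48d) (Pf.B 13 8 (Pf.W 125 13 [] [11] (Pf.cons (Pf.C 75 0x2c70d) Pf.nil)) (Pf.C 2 0x1c40d))) (Pf.C 2 0x1c48d)) (Pf.C 136 1674)) Pf.nil))) (Pf.cons (Pf.T 7 50 (Pf.cons (Pf.W 140 7 [] [8,9,10,11,12] (Pf.cons (Pf.B 13 12 (Pf.B 13 10 (Pf.B 13 9 (Pf.B 13 11 (Pf.C 3 0x2c48d) (Pf.B 13 8 (Pf.W 134 13 [] [7,11,12] (Pf.cons (Pf.B 14 12 (Pf.C 3 0x3868c) (Pf.C 75 0x2c70c)) (Pf.cons (Pf.B 14 7 (Pf.C 2 0x1c70d) (Pf.C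 136 1799)) Pf.nil))) (Pf.C 2 0x1c40d))) (Pf.C 2 0x1c48d)) (Pf.C 2 0x1c50d)) (Pf.C 2 0x1c60d)) Pf.nil)) Pf.nil)) Pf.nil))) (Pf.C 2 99212)) Pf.nil)) (Pf.cons (Pf.C 135 1417) Pf.nil))) (Pf.W 129 11 [] [0,1,6,8,9,10] (Pf.cons (Pf.B 12 10 (Pf.B 12 9 (Pf.B 12 8 (Pf.W 74 6 [11] [0,1,8,9,10,12] (Pf.cons (Pf.B 13 12 (Pf.B 13 11 (Pf.B 13 10 (Pf.C 3 0x3460a) (Pf.B 13 9 (Pf.C 3 0x34609) (Pf.B 13 8 (Pf.C 3 0x34608) (Pf.C 0 0x81634509)))) (Pf.C 4 0x1634080)) (Pf.C 75 0x2c68c)) Pf.nil)) (Pf.C 2 99340)) (Pf.C 2 99468)) (Pf.C 2 99596)) Pf.nil))))) (Pf.cons (Pf.B 11 10 (Pf.C 2 0x28588) (Pf.C 136 1418)) Pf.nil))) (Pf.cons (Pf.W 134 9 [] [0,1,6,7,8,10] (Pf.cons (Pf.B 11 10 (Pf.C 135 1418) (Pf.B 11 7 (Pf.C 3 0x2c487)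 (Pf.B 11 8 (Pf.T 8 48 (Pf.cons (Pf.W 129 11 [] [6,7,8,9,10] (Pf.cons (Pf.B 12 7 (Pf.T 7 48 (Pf.cons (Pf.W 134 7 [] [8,9,10,11,12] (Pf.cons (Pf.B 13 12 (Pf.C 3 0x3438c) (Pf.C 75 0x2c68c)) (Pf.cons (Pf.B 13 10 (Pf.B 13 9 (Pf.B 13 11 (Pf.C 3 0x2c48d) (Pf.B 13 8 (Pf.W 125 13 [] [11] (Pf.cons (Pf.C 75 0x2c70d) Pf.nil)) (Pf.C 2 0x1c40d))) (Pf.C 2 0x1c48d)) (Pf.C 136 1674)) Pf.nil))) (Pf.cons (Pf.T 7 50 (Pf.cons (Pf.W 140 7 [] [8,9,10,11,12] (Pf.cons (Pf.B 13 12 (Pf.B 13 10 (Pf.B 13 9 (Pf.B 13 11 (Pf.C 3 0x2c48d) (Pf.B 13 8 (Pf.W 134 13 [] [7,11,12] (Pf.cons (Pf.B 14 12 (Pf.C 3 0x3868c) (Pf.C 75 0x2c70c)) (Pf.cons (Pf.B 14 7 (Pf.C 2 0x1c70d) (Pf.C 136 1799)) Pf.nil))) (Pf.C 2 0x1c40d))) (Pf.C 2 0x1c48d))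 (Pf.C 2 0x1c50d)) (Pf.C 2 0x1c60d)) Pf.nil)) Pf.nil)) Pf.nil))) (Pf.C 2 99212)) Pf.nil)) (Pf.cons (Pf.C 135 1416) Pf.nil))) (Pf.W 129 11 [] [0,1,6,8,9,10] (Pf.cons (Pf.B 12 10 (Pf.B 12 9 (Pf.B 12 8 (Pf.W 74 6 [11] [0,1,8,9,10,12] (Pf.cons (Pf.B 13 12 (Pf.B 13 11 (Pf.B 13 10 (Pf.C 3 0x3460a) (Pf.B 13 9 (Pf.C 3 0x34609) (Pf.B 13 8 (Pf.C 3 0x34608) (Pf.C 0 0x91634508)))) (Pf.C 4 0x1634080)) (Pf.C 75 0x2c68c)) Pf.nil)) (Pf.C 2 99340)) (Pf.C 2 99468)) (Pf.C 2 99596)) Pf.nil))))) (Pf.cons (Pf.B 11 10 (Pf.C 2 0x28589) (Pf.C 136 1418)) Pf.nil))) (Pf.cons (Pf.B 11 9 (Pf.C 2 0x2458a) (Pf.B 11 8 (Pf.C 2 0x20589) (Pf.B 11 7 (Pf.W 134 11 [] [0,1,6,7,8,9,10] (Pf.cons (Pf.B 12 10 (Pf.C 135 1546) (Pf.B 12 7 (Pf.C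 3 0x30587) (Pf.B 12 9 (Pf.B 12 8 (Pf.T 9 48 (Pf.cons (Pf.T 8 48 (Pf.cons (Pf.W 129 12 [] [6,7,8,9,10,11] (Pf.cons (Pf.B 13 7 (Pf.T 7 48 (Pf.cons (Pf.W 134 7 [] [8,9,10,11,12,13] (Pf.cons (Pf.B 14 13 (Pf.C 3 0x3838d) (Pf.C 75 0x3070d)) (Pf.cons (Pf.B 14 11 (Pf.B 14 12 (Pf.C 3 0x3058e) (Pf.B 14 10 (Pf.B 14 9 (Pf.B 14 8 (Pf.W 125 14 [] [12] (Pf.cons (Pf.C 75 0x3078e) Pf.nil)) (Pf.C 2 0x1c40e)) (Pf.C 2 0x1c48e)) (Pf.C 136 1802))) (Pf.C 2 0x1c58e)) Pf.nil))) (Pf.cons (Pf.T 7 50 (Pf.cons (Pf.W 140 7 [] [8,9,10,11,12,13] (Pf.cons (Pf.B 14 13 (Pf.B 14 11 (Pf.B 14 12 (Pf.C 3 0x3058e) (Pf.B 14 10 (Pf.B 14 9 (Pf.B 14 8 (Pf.W 134 14 [] [7,12,13] (Pf.cons (Pf.B 15 13 (Pf.C 3 0x3c70d) (Pf.C 75 0x3078d)) (Pf.cons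 (Pf.B 15 7 (Pf.C 2 0x1c78e) (Pf.C 136 1927)) Pf.nil))) (Pf.C 2 0x1c40e)) (Pf.C 2 0x1c48e)) (Pf.C 2 0x1c50e))) (Pf.C 2 0x1c58e)) (Pf.C 2 0x1c68e)) Pf.nil)) Pf.nil)) Pf.nil))) (Pf.C 2 99213)) Pf.nil)) (Pf.cons (Pf.C 135 1544) Pf.nil))) (Pf.cons (Pf.C 135 1545) Pf.nil))) (Pf.C 0 0xb1824508)) (Pf.W 129 12 [] [0,1,6,7,9,10,11] (Pf.cons (Pf.B 13 11 (Pf.B 13 10 (Pf.B 13 9 (Pf.B 13 7 (Pf.W 74 7 [12] [0,1,9,10,11,13] (Pf.cons (Pf.B 14 13 (Pf.B 14 12 (Pf.B 14 11 (Pf.C 3 0x3868b) (Pf.B 14 10 (Pf.C 3 0x3868a) (Pf.B 14 9 (Pf.C 3 0x38689) (Pf.C 0 0xb1838509)))) (Pf.C 4 0x1838080)) (Pf.C 75 0x3070d)) Pf.nil)) (Pf.C 2 99213)) (Pf.C 2 99469)) (Pf.C 2 99597)) (Pf.C 2 99725)) Pf.nil))))) (Pf.cons (Pf.B 12 10 (Pf.C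 2 0x2860b) (Pf.C 136 1546)) Pf.nil))) (Pf.C 2 0x2038b)))) Pf.nil)))) Pf.nil)) Pf.nil)))))))
 Pq.nil)
theorem hh_o70 : AllRef hh_T hh_G83 (applyObl TD2 1 [137] [0] [(137,0x20000000000000000000000000000000000)]) :=
  chkPq_sound hh_o70c _ (by decide +kernel)
noncomputable def hh_o71c : Pq := (Pq.cons (Pq.L [6] 1 (Pf.C 2 99208))
 (Pq.cons (Pq.L [6] 2 (Pf.C 2 0x24386))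
 Pq.nil))
theorem hh_o71 : AllRef hh_T hh_G83 (splitObl [138] [141,142]) :=
  chkPq_sound hh_o71c _ (by decide +kernel)
noncomputable def hh_o72c : Pq := (Pq.cons (Pq.L [6] 1 (Pf.C 2 0x20386))
 Pq.nil)
theorem hh_o72 : AllRef hh_T hh_G83 (applyObl TD2 1 [138] [0] [(138,0x40000000000000000000000000000000000)]) :=
  chkPq_sound hh_o72c _ (by decide +kernel)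
noncomputable def hh_o73c : Pq := (Pq.cons (Pq.L [6] 1 (Pf.C 2 0x20307))
 Pq.nil)
theorem hh_o73 : AllRef hh_T hh_G83 (splitObl [141] [142]) :=
  chkPq_sound hh_o73c _ (by decide +kernel)
noncomputable def hh_o74c : Pq := (Pq.cons (Pq.L [6] 1 (Pf.T 7 44 (Pf.cons (Pf.T 8 44 (Pf.cons (Pf.W 125 7 [] [6,8] (Pf.cons (Pf.B 11 8 (Pf.C 3 0x2c308) (Pf.W 74 6 [] [7,8,11] (Pf.cons (Pf.B 12 8 (Pf.B 12 7 (Pf.C 3 0x30407) (Pf.C 75 0x2c607)) (Pf.C 75 0x2c608)) Pf.nil))) Pf.nil)) Pf.nil)) Pf.nil)))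
 Pq.nil)
theorem hh_o74 : AllRef hh_T hh_G83 (applyObl TD2 1 [141] [0] [(141,0x200000000000000000000000000000000000)]) :=
  chkPq_sound hh_o74c _ (by decide +kernel)
noncomputable def hh_o75c : Pq := (Pq.cons (Pq.L [6] 1 (Pf.C 2 0x20386))
 Pq.nil)
theorem hh_o75 : AllRef hh_T hh_G83 (applyObl TD2 1 [142] [0] [(142,0x400000000000000000000000000000000000)]) :=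
  chkPq_sound hh_o75c _ (by decide +kernel)
noncomputable def hh_o76c : Pq := (Pq.cons (Pq.L [2] 1 (Pf.C 2 0x1c106))
 (Pq.cons (Pq.L [2] 2 (Pf.C 3 99330))
 (Pq.cons (Pq.L [0] 1 (Pf.C 2 0x1c006))
 (Pq.cons (Pq.L [0] 2 (Pf.C 3 99328))
 (Pq.cons (Pq.L [0] 2 (Pf.C 3 99328))
 (Pq.cons (Pq.L [1] 2 (Pf.C 3 99329))
 (Pq.cons (Pq.L [2] 2 (Pf.C 3 99330))
 (Pq.cons (Pq.L [3] 2 (Pf.C 3 99331))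
 (Pq.cons (Pq.L [4,5] 3 (Pf.B 8 7 (Pf.C 2 0x1c404) (Pf.C 0 0x40c20287)))
 (Pq.cons (Pq.L [4,5] 3 (Pf.B 8 7 (Pf.C 2 0x1c404) (Pf.C 0 0x50c20207)))
 (Pq.cons (Pq.L [4] 2 (Pf.C 3 0x20206))
 (Pq.cons (Pq.L [0,1] 1 (Pf.C 4 0xe18080))
 (Pq.cons (Pq.L [4] 2 (Pf.C 3 0x20206))
 (Pq.cons (Pq.L [2,3] 1 (Pf.C 4 0xe18182))
 (Pq.cons (Pq.L [2,3] 1 (Pf.C 4 0xe18182))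
 (Pq.cons (Pq.L [2,3] 1 (Pf.C 4 0xe18182))
 (Pq.cons (Pq.L [0,1] 1 (Pf.C 4 0xe18080))
 (Pq.cons (Pq.L [0,1] 1 (Pf.C 4 0xe18080))
 (Pq.cons (Pq.L [0,1] 1 (Pf.C 4 0xe18080))
 (Pq.cons (Pq.L [0,1] 1 (Pf.C 4 0xe18080))
 Pq.nil))))))))))))))))))))
theorem hh_o76 : AllRef hh_T hh_G22 (splitObl [49,58] [50,55,51,52,53,54,56,57,59,60]) :=
  chkPq_sound hh_o76c _ (by decide +kernel)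
noncomputable def hh_o77c : Pq := (Pq.cons (Pq.D 0 (Pq.cons (Pq.D 1 (Pq.cons (Pq.L [4] 1 (Pf.C 2 0x1c304))
 (Pq.cons (Pq.D 2 (Pq.cons (Pq.L [4] 2 (Pf.C 2 0x20304))
 (Pq.cons (Pq.L [0,1] 11 (Pf.C 0 0x10c00407))
 Pq.nil))) Pq.nil))) (Pq.cons (Pq.D 1 (Pq.cons (Pq.D 2 (Pq.cons (Pq.L [4] 8 (Pf.C 2 0x20384))
 (Pq.cons (Pq.L [0,1] 2 (Pf.C 4 0x1018080))
 Pq.nil))) (Pq.cons (Pq.L [0,1] 1 (Pf.C 4 0xe18080))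
 Pq.nil))) Pq.nil))) (Pq.cons (Pq.D 0 (Pq.cons (Pq.D 1 (Pq.cons (Pq.D 2 (Pq.cons (Pq.L [] 67 (Pf.C 2 0x20386))
 (Pq.cons (Pq.D 3 (Pq.cons (Pq.L [] 133 (Pf.C 2 0x24386))
 (Pq.cons (Pq.D 4 (Pq.cons (Pq.L [] 265 (Pf.C 2 0x28386))
 (Pq.cons (Pq.L [2,3,4,5] 0x5b81e (Pf.B 11 6 (Pf.B 11 5 (Pf.B 11 4 (Pf.B 11 3 (Pf.C 1 0x9062020b) (Pf.B 11 2 (Pf.C 1 0x9042020b) (Pf.C 0 0xa102c182))) (Pf.C 1 0x5082c488)) (Pf.C 1 0x60a2c488)) (Pf.C 1 0xa1618488)))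
 Pq.nil))) Pq.nil))) Pq.nil))) (Pq.cons (Pq.D 2 (Pq.cons (Pq.D 3 (Pq.cons (Pq.L [4] 2247 (Pf.C 0 0x40e18488))
 (Pq.cons (Pq.L [0,1] 128 (Pf.C 4 0x121c080))
 Pq.nil))) (Pq.cons (Pq.L [0,1] 64 (Pf.C 4 0x101c080))
 Pq.nil))) Pq.nil))) (Pq.cons (Pq.D 1 (Pq.cons (Pq.D 2 (Pq.cons (Pq.L [] 67 (Pf.C 3 99335))
 (Pq.cons (Pq.D 3 (Pq.cons (Pq.L [] 133 (Pf.C 3 99463))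
 (Pq.cons (Pq.D 4 (Pq.cons (Pq.L [] 265 (Pf.C 3 99591))
 (Pq.cons (Pq.L [2,3,4,5] 0x53bdf (Pf.B 11 7 (Pf.C 1 0x90e2030b) (Pf.B 11 5 (Pf.B 11 4 (Pf.B 11 3 (Pf.C 1 0x8061820b) (Pf.B 11 2 (Pf.C 1 0x8041820b) (Pf.C 0 0x30e0850b))) (Pf.C 1 0x5082c406)) (Pf.C 1 0xa1614406))))
 Pq.nil))) Pq.nil))) Pq.nil))) (Pq.cons (Pq.D 2 (Pq.cons (Pq.D 3 (Pq.cons (Pq.L [4,5] 2240 (Pf.C 0 0x50e10488))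
 (Pq.cons (Pq.L [0,1] 133 (Pf.C 0 0x90c1c080))
 Pq.nil))) (Pq.cons (Pq.L [0,1] 67 (Pf.C 0 0x80c1c080))
 Pq.nil))) Pq.nil))) Pq.nil))) Pq.nil))
theorem hh_o77 : AllRef hh_T hh_G22 (applyObl (pairTab (cPaw, cP1S113)) 2 [49,58] [0,0] [(49,0x2000000000000)]) :=
  chkPq_sound hh_o77c _ (by decide +kernel)
noncomputable def hh_o78c : Pq := (Pq.cons (Pq.L [0] 1 (Pf.C 2 0x1c006))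
 (Pq.cons (Pq.L [0] 2 (Pf.C 3 99328))
 (Pq.cons (Pq.L [0] 2 (Pf.C 3 99328))
 (Pq.cons (Pq.L [1] 2 (Pf.C 3 99329))
 (Pq.cons (Pq.L [2,3] 3 (Pf.B 8 7 (Pf.C 2 0x1c402) (Pf.C 0 0x20c20187)))
 (Pq.cons (Pq.L [2,3] 3 (Pf.B 8 7 (Pf.C 2 0x1c402) (Pf.C 0 0x30c20107)))
 (Pq.cons (Pq.L [4] 2 (Pf.C 3 99332))
 (Pq.cons (Pq.L [5] 2 (Pf.C 3 99333))
 (Pq.cons (Pq.L [2] 2 (Pf.C 3 0x20106))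
 (Pq.cons (Pq.L [4,5] 1 (Pf.C 4 0xe18284))
 (Pq.cons (Pq.L [4,5] 1 (Pf.C 4 0xe18284))
 (Pq.cons (Pq.L [4,5] 1 (Pf.C 4 0xe18284))
 (Pq.cons (Pq.L [0,1] 1 (Pf.C 4 0xe18080))
 (Pq.cons (Pq.L [0,1] 1 (Pf.C 4 0xe18080))
 (Pq.cons (Pq.L [0,1] 1 (Pf.C 4 0xe18080))
 (Pq.cons (Pq.L [0,1] 1 (Pf.C 4 0xe18080))
 Pq.nil))))))))))))))))
theorem hh_o78 : AllRef hh_T hh_G22 (splitObl [50,55] [51,52,53,54,56,57,59,60]) :=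
  chkPq_sound hh_o78c _ (by decide +kernel)
noncomputable def hh_o79c : Pq := (Pq.cons (Pq.D 0 (Pq.cons (Pq.D 1 (Pq.cons (Pq.L [2] 1 (Pf.C 2 0x1c302))
 (Pq.cons (Pq.D 2 (Pq.cons (Pq.L [2] 2 (Pf.C 2 0x20302))
 (Pq.cons (Pq.L [0,1] 11 (Pf.C 0 0x10c00407))
 Pq.nil))) Pq.nil))) (Pq.cons (Pq.D 1 (Pq.cons (Pq.D 2 (Pq.cons (Pq.L [2] 8 (Pf.C 2 0x20382))
 (Pq.cons (Pq.L [0,1] 2 (Pf.C 4 0x1018080))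
 Pq.nil))) (Pq.cons (Pq.L [0,1] 1 (Pf.C 4 0xe18080))
 Pq.nil))) Pq.nil))) (Pq.cons (Pq.D 0 (Pq.cons (Pq.D 1 (Pq.cons (Pq.D 2 (Pq.cons (Pq.L [] 67 (Pf.C 2 0x20386))
 (Pq.cons (Pq.D 3 (Pq.cons (Pq.L [] 133 (Pf.C 2 0x24386))
 (Pq.cons (Pq.D 4 (Pq.cons (Pq.L [] 265 (Pf.C 2 0x28386))
 (Pq.cons (Pq.L [4,5] 0x5b81e (Pf.B 11 6 (Pf.B 11 5 (Pf.C 1 0x90a2030b) (Pf.B 11 4 (Pf.C 1 0x9082030b) (Pf.C 0 0xa102c284))) (Pf.C 1 0xa1618488)))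
 Pq.nil))) Pq.nil))) Pq.nil))) (Pq.cons (Pq.D 2 (Pq.cons (Pq.D 3 (Pq.cons (Pq.L [2] 2247 (Pf.C 0 0x20e18488))
 (Pq.cons (Pq.L [0,1] 128 (Pf.C 4 0x121c080))
 Pq.nil))) (Pq.cons (Pq.L [0,1] 64 (Pf.C 4 0x101c080))
 Pq.nil))) Pq.nil))) (Pq.cons (Pq.D 1 (Pq.cons (Pq.D 2 (Pq.cons (Pq.L [] 67 (Pf.C 3 99335))
 (Pq.cons (Pq.D 3 (Pq.cons (Pq.L [] 133 (Pf.C 3 99463))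
 (Pq.cons (Pq.D 4 (Pq.cons (Pq.L [] 265 (Pf.C 3 99591))
 (Pq.cons (Pq.L [3,4,5] 0x53bdf (Pf.B 11 7 (Pf.C 1 0x90e2030b) (Pf.B 11 3 (Pf.B 11 5 (Pf.C 1 0x80a1818b) (Pf.B 11 4 (Pf.C 1 0x8081818b) (Pf.C 0 0x50e1050b))) (Pf.C 1 0xa160c406))))
 Pq.nil))) Pq.nil))) Pq.nil))) (Pq.cons (Pq.D 2 (Pq.cons (Pq.D 3 (Pq.cons (Pq.L [2,3] 2240 (Pf.C 0 0x30e08488))
 (Pq.cons (Pq.L [0,1] 133 (Pf.C 0 0x90c1c080))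
 Pq.nil))) (Pq.cons (Pq.L [0,1] 67 (Pf.C 0 0x80c1c080))
 Pq.nil))) Pq.nil))) Pq.nil))) Pq.nil))
theorem hh_o79 : AllRef hh_T hh_G22 (applyObl (pairTab (cPaw, cP1S113)) 2 [50,55] [0,0] [(50,0x4000000000000)]) :=
  chkPq_sound hh_o79c _ (by decide +kernel)
noncomputable def hh_o80c : Pq := (Pq.cons (Pq.L [0,1] 3 (Pf.B 8 7 (Pf.C 2 0x1c400) (Pf.C 0 0xc20087)))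
 (Pq.cons (Pq.L [0,1] 3 (Pf.B 8 7 (Pf.C 2 0x1c400) (Pf.C 0 0x10c20007)))
 (Pq.cons (Pq.L [2] 2 (Pf.C 3 99330))
 (Pq.cons (Pq.L [3] 2 (Pf.C 3 99331))
 (Pq.cons (Pq.L [4] 2 (Pf.C 3 99332))
 (Pq.cons (Pq.L [5] 2 (Pf.C 3 99333))
 (Pq.cons (Pq.L [2,3] 1 (Pf.C 4 0xe18182))
 (Pq.cons (Pq.L [2,3] 1 (Pf.C 4 0xe18182))
 (Pq.cons (Pq.L [4,5] 1 (Pf.C 4 0xe18284))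
 (Pq.cons (Pq.L [4,5] 1 (Pf.C 4 0xe18284))
 (Pq.cons (Pq.L [2,3] 1 (Pf.C 4 0xe18182))
 (Pq.cons (Pq.L [2,3] 1 (Pf.C 4 0xe18182))
 Pq.nil))))))))))))
theorem hh_o80 : AllRef hh_T hh_G22 (splitObl [51,52] [53,54,56,57,59,60]) :=
  chkPq_sound hh_o80c _ (by decide +kernel)
noncomputable def hh_o81c : Pq := (Pq.cons (Pq.D 0 (Pq.cons (Pq.D 1 (Pq.cons (Pq.L [0] 1 (Pf.C 2 0x1c300))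
 (Pq.cons (Pq.D 2 (Pq.cons (Pq.L [0] 2 (Pf.C 2 0x20300))
 (Pq.cons (Pq.L [2,3] 11 (Pf.C 0 0x30c08407))
 Pq.nil))) Pq.nil))) (Pq.cons (Pq.D 1 (Pq.cons (Pq.D 2 (Pq.cons (Pq.L [0] 8 (Pf.C 2 0x20380))
 (Pq.cons (Pq.L [2,3] 2 (Pf.C 4 0x1018182))
 Pq.nil))) (Pq.cons (Pq.L [2,3] 1 (Pf.C 4 0xe18182))
 Pq.nil))) Pq.nil))) (Pq.cons (Pq.D 0 (Pq.cons (Pq.D 1 (Pq.cons (Pq.D 2 (Pq.cons (Pq.L [] 67 (Pf.C 2 0x20386))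
 (Pq.cons (Pq.D 3 (Pq.cons (Pq.L [] 133 (Pf.C 2 0x24386))
 (Pq.cons (Pq.D 4 (Pq.cons (Pq.L [] 265 (Pf.C 2 0x28386))
 (Pq.cons (Pq.L [4,5] 0x5b81e (Pf.B 11 6 (Pf.B 11 5 (Pf.C 1 0x90a2030b) (Pf.B 11 4 (Pf.C 1 0x9082030b) (Pf.C 0 0xa102c284))) (Pf.C 1 0xa1618488)))
 Pq.nil))) Pq.nil))) Pq.nil))) (Pq.cons (Pq.D 2 (Pq.cons (Pq.D 3 (Pq.cons (Pq.L [0] 2247 (Pf.C 0 0xe18488))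
 (Pq.cons (Pq.L [2,3] 128 (Pf.C 4 0x121c182))
 Pq.nil))) (Pq.cons (Pq.L [2,3] 64 (Pf.C 4 0x101c182))
 Pq.nil))) Pq.nil))) (Pq.cons (Pq.D 1 (Pq.cons (Pq.D 2 (Pq.cons (Pq.L [] 67 (Pf.C 3 99335))
 (Pq.cons (Pq.D 3 (Pq.cons (Pq.L [] 133 (Pf.C 3 99463))
 (Pq.cons (Pq.D 4 (Pq.cons (Pq.L [] 265 (Pf.C 3 99591))
 (Pq.cons (Pq.L [1,4,5] 0x53bdf (Pf.B 11 7 (Pf.C 1 0x90e2030b) (Pf.B 11 1 (Pf.B 11 5 (Pf.C 1 0x80a1808b) (Pf.B 11 4 (Pf.C 1 0x8081808b) (Pf.C 0 0x50e1050b))) (Pf.C 1 0xa1604406))))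
 Pq.nil))) Pq.nil))) Pq.nil))) (Pq.cons (Pq.D 2 (Pq.cons (Pq.D 3 (Pq.cons (Pq.L [0,1] 2240 (Pf.C 0 0x10e00488))
 (Pq.cons (Pq.L [2,3] 133 (Pf.C 0 0x90c1c182))
 Pq.nil))) (Pq.cons (Pq.L [2,3] 67 (Pf.C 0 0x80c1c182))
 Pq.nil))) Pq.nil))) Pq.nil))) Pq.nil))
theorem hh_o81 : AllRef hh_T hh_G22 (applyObl (pairTab (cPaw, cP1S113)) 2 [51,52] [0,0] [(51,0x8000000000000)]) :=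
  chkPq_sound hh_o81c _ (by decide +kernel)
noncomputable def hh_o82c : Pq := (Pq.cons (Pq.L [2,3] 1 (Pf.C 4 0xe18182))
 (Pq.cons (Pq.L [4,5] 1 (Pf.C 4 0xe18284))
 (Pq.cons (Pq.L [4,5] 1 (Pf.C 4 0xe18284))
 (Pq.cons (Pq.L [2,3] 1 (Pf.C 4 0xe18182))
 (Pq.cons (Pq.L [2,3] 1 (Pf.C 4 0xe18182))
 Pq.nil)))))
theorem hh_o82 : AllRef hh_T hh_G22 (splitObl [53] [54,56,57,59,60]) :=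
  chkPq_sound hh_o82c _ (by decide +kernel)
noncomputable def hh_o83c : Pq := (Pq.cons (Pq.L [2,3] 1 (Pf.C 4 0xe18182))
 Pq.nil)
theorem hh_o83 : AllRef hh_T hh_G22 (applyObl TD2 1 [53] [0] []) :=
  chkPq_sound hh_o83c _ (by decide +kernel)
noncomputable def hh_o84c : Pq := (Pq.cons (Pq.L [4,5] 1 (Pf.C 4 0xe18284))
 (Pq.cons (Pq.L [4,5] 1 (Pf.C 4 0xe18284))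
 (Pq.cons (Pq.L [2,3] 1 (Pf.C 4 0xe18182))
 (Pq.cons (Pq.L [2,3] 1 (Pf.C 4 0xe18182))
 Pq.nil))))
theorem hh_o84 : AllRef hh_T hh_G22 (splitObl [54] [56,57,59,60]) :=
  chkPq_sound hh_o84c _ (by decide +kernel)
noncomputable def hh_o85c : Pq := (Pq.cons (Pq.L [2,3] 1 (Pf.C 4 0xe18182))
 Pq.nil)
theorem hh_o85 : AllRef hh_T hh_G22 (applyObl TD2 1 [54] [0] []) :=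
  chkPq_sound hh_o85c _ (by decide +kernel)
noncomputable def hh_o86c : Pq := (Pq.cons (Pq.L [0,1] 1 (Pf.C 4 0xe18080))
 (Pq.cons (Pq.L [0,1] 1 (Pf.C 4 0xe18080))
 (Pq.cons (Pq.L [0,1] 1 (Pf.C 4 0xe18080))
 Pq.nil)))
theorem hh_o86 : AllRef hh_T hh_G22 (splitObl [56] [57,59,60]) :=
  chkPq_sound hh_o86c _ (by decide +kernel)
noncomputable def hh_o87c : Pq := (Pq.cons (Pq.L [0,1] 1 (Pf.C 4 0xe18080))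
 Pq.nil)
theorem hh_o87 : AllRef hh_T hh_G22 (applyObl TD2 1 [56] [0] []) :=
  chkPq_sound hh_o87c _ (by decide +kernel)
noncomputable def hh_o88c : Pq := (Pq.cons (Pq.L [0,1] 1 (Pf.C 4 0xe18080))
 (Pq.cons (Pq.L [0,1] 1 (Pf.C 4 0xe18080))
 Pq.nil))
theorem hh_o88 : AllRef hh_T hh_G22 (splitObl [57] [59,60]) :=
  chkPq_sound hh_o88c _ (by decide +kernel)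
noncomputable def hh_o89c : Pq := (Pq.cons (Pq.L [0,1] 1 (Pf.C 4 0xe18080))
 Pq.nil)
theorem hh_o89 : AllRef hh_T hh_G22 (applyObl TD2 1 [57] [0] []) :=
  chkPq_sound hh_o89c _ (by decide +kernel)
noncomputable def hh_o90c : Pq := (Pq.cons (Pq.L [0,1] 1 (Pf.C 4 0xe18080))
 Pq.nil)
theorem hh_o90 : AllRef hh_T hh_G22 (splitObl [59] [60]) :=
  chkPq_sound hh_o90c _ (by decide +kernel)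
noncomputable def hh_o91c : Pq := (Pq.cons (Pq.L [0,1] 1 (Pf.C 4 0xe18080))
 Pq.nil)
theorem hh_o91 : AllRef hh_T hh_G22 (applyObl TD2 1 [59] [0] []) :=
  chkPq_sound hh_o91c _ (by decide +kernel)
noncomputable def hh_o92c : Pq := (Pq.cons (Pq.L [0,1] 1 (Pf.C 4 0xe18080))
 Pq.nil)
theorem hh_o92 : AllRef hh_T hh_G22 (applyObl TD2 1 [60] [0] []) :=
  chkPq_sound hh_o92c _ (by decide +kernel)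

end Pool.Agent.Lib.MP_849b2e_co
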