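import Pool.Agent.Lib.MP_849b2e_co.AllR
import Pool.Agent.Lib.MP_849b2e_co.Thh
import Pool.Agent.Lib.MP_849b2e_co.Ohh_0
import Pool.Agent.Lib.MP_849b2e_co.Lh2
import Pool.Agent.Lib.MP_849b2e_co.Lh3
import Pool.Agent.Lib.MP_849b2e_co.PairsD

set_option maxRecDepth 100000
set_option linter.all false
namespace Pool.Agent.Lib.MP_849b2e_co

theorem hh_n136  : Bd hh_T hh_G22 [60] :=
  r_apply lem_D2 [0] [] (by decide +kernel) hh_o92
theorem hh_n135  : Bd hh_T hh_G22 [59] :=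
  r_apply lem_D2 [0] [] (by decide +kernel) hh_o91
theorem hh_n134  : Bd hh_T hh_G22 [59,60] :=
  r_split [59] [60] (by decide +kernel) hh_o90 hh_n135 hh_n136
theorem hh_n133  : Bd hh_T hh_G22 [57] :=
  r_apply lem_D2 [0] [] (by decide +kernel) hh_o89
theorem hh_n132  : Bd hh_T hh_G22 [57,59,60] :=
  r_split [57] [59,60] (by decide +kernel) hh_o88 hh_n133 hh_n134
theorem hh_n131  : Bd hh_T hh_G22 [56] :=
  r_apply lem_D2 [0] [] (by decide +kernel) hh_o87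
theorem hh_n130  : Bd hh_T hh_G22 [56,57,59,60] :=
  r_split [56] [57,59,60] (by decide +kernel) hh_o86 hh_n131 hh_n132
theorem hh_n129  : Bd hh_T hh_G22 [54] :=
  r_apply lem_D2 [0] [] (by decide +kernel) hh_o85
theorem hh_n128  : Bd hh_T hh_G22 [54,56,57,59,60] :=
  r_split [54] [56,57,59,60] (by decide +kernel) hh_o84 hh_n129 hh_n130
theorem hh_n127  : Bd hh_T hh_G22 [53] :=
  r_apply lem_D2 [0] [] (by decide +kernel) hh_o83
theorem hh_n126  : Bd hh_T hh_G22 [53,54,56,57,59,60] :=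
  r_split [53] [54,56,57,59,60] (by decide +kernel) hh_o82 hh_n127 hh_n128
theorem hh_n125  : Bd hh_T hh_G22 [51,52] :=
  r_apply (lem_of_bdN (cPaw, cP1S113) ( bdN_paw_d)) [0,0] [(51,0x8000000000000)] (by decide +kernel) hh_o81
theorem hh_n124  : Bd hh_T hh_G22 [51,52,53,54,56,57,59,60] :=
  r_split [51,52] [53,54,56,57,59,60] (by decide +kernel) hh_o80 hh_n125 hh_n126
theorem hh_n123  : Bd hh_T hh_G22 [50,55] :=
  r_apply (lem_of_bdN (cPaw, cP1S113) ( bdN_paw_d)) [0,0] [(50,0x4000000000000)] (by decide +kernel) hh_o79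
theorem hh_n122  : Bd hh_T hh_G22 [50,55,51,52,53,54,56,57,59,60] :=
  r_split [50,55] [51,52,53,54,56,57,59,60] (by decide +kernel) hh_o78 hh_n123 hh_n124
theorem hh_n121  : Bd hh_T hh_G22 [49,58] :=
  r_apply (lem_of_bdN (cPaw, cP1S113) ( bdN_paw_d)) [0,0] [(49,0x2000000000000)] (by decide +kernel) hh_o77
theorem hh_n120  : Bd hh_T hh_G22 [49,58,50,55,51,52,53,54,56,57,59,60] :=
  r_split [49,58] [50,55,51,52,53,54,56,57,59,60] (by decide +kernel) hh_o76 hh_n121 hh_n122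
theorem hh_n119  : Bd hh_T hh_G83 [142] :=
  r_apply lem_D2 [0] [(142,0x400000000000000000000000000000000000)] (by decide +kernel) hh_o75
theorem hh_n118  : Bd hh_T hh_G83 [141] :=
  r_apply lem_D2 [0] [(141,0x200000000000000000000000000000000000)] (by decide +kernel) hh_o74
theorem hh_n117  : Bd hh_T hh_G83 [141,142] :=
  r_split [141] [142] (by decide +kernel) hh_o73 hh_n118 hh_n119
theorem hh_n116  : Bd hh_T hh_G83 [138] :=
  r_apply lem_D2 [0] [(138,0x40000000000000000000000000000000000)] (by decide +kernel) hh_o72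
theorem hh_n115  : Bd hh_T hh_G83 [138,141,142] :=
  r_split [138] [141,142] (by decide +kernel) hh_o71 hh_n116 hh_n117
theorem hh_n114  : Bd hh_T hh_G83 [137] :=
  r_apply lem_D2 [0] [(137,0x20000000000000000000000000000000000)] (by decide +kernel) hh_o70
theorem hh_n113  : Bd hh_T hh_G83 [137,138,141,142] :=
  r_split [137] [138,141,142] (by decide +kernel) hh_o69 hh_n114 hh_n115
theorem hh_n112  : Bd hh_T hh_G82 [137,138,167,168,141,142,169,170,171,172,173,174] :=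
  r_kill [167,168,169,170,171,172,173,174] ⟨175,[],[],[]⟩ hh_G83 [137,138,141,142] (by decide +kernel) hh_o68 hh_n113
theorem hh_n111  : Bd hh_T hh_G81 [137,138,139,140,141,142,143,144,145,146,147,148] :=
  r_hit [139,140,143,144,145,146,147,148] hh_h111 ⟨167,[],[147,148,149,150,151,152,153,154],[]⟩ hh_G82 [137,138,167,168,141,142,169,170,171,172,173,174] (by decide +kernel) hh_o67 hh_n112
theorem hh_n110  : Bd hh_T hh_G81 [157,161,138,159,163,140,149,142,151,144,145,153,147,155,165] :=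
  r_act [] [137,138,139,140,141,142,143,144,145,146,147,148] (by decide +kernel) hh_n111
theorem hh_n109  : Bd hh_T hh_G80 [157,161,162,138,159,163,164,140,149,150,142,151,152,144,145,153,154,147,155,165,166] :=
  r_close false 0 [12,37,38,48,50,39,49,51,13,40,44,41,45,14,42,46,43,47,52] [157,161,162,138,159,163,164,140,149,150,142,151,152,144,145,153,154,147,155,165,166] [0,0,0,0,0,0,0,0,1,1,1,1,1,1,2,2,2,2,2,2,2] [6] [0] 0xeedbb ⟨167,[],[],[]⟩ hh_G81 [157,161,138,159,163,140,149,142,151,144,145,153,147,155,165] (by decide +kernel) (allRef_split 65 hh_o65 hh_o66) hh_n110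
theorem hh_n108  : Bd hh_T hh_G80 [157,158,138,159,160,140,149,150,142,151,152,144,145,153,154,147,155,156] :=
  r_act [50,51,52] [157,161,162,138,159,163,164,140,149,150,142,151,152,144,145,153,154,147,155,165,166] (by decide +kernel) hh_n109
theorem hh_n107  : Bd hh_T hh_G79 [157,158,138,159,160,140,149,150,142,151,152,144,145,153,154,147,155,156] :=
  r_def 156 0 [] [157,159] ⟨165,[53],[145,146],[]⟩ hh_G80 [157,158,138,159,160,140,149,150,142,151,152,144,145,153,154,147,155,156] (by decide +kernel) hh_n108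
theorem hh_n106  : Bd hh_T hh_G78 [157,158,138,159,160,140,149,150,142,151,152,144,145,153,154,147,155,156] :=
  r_def 160 0 [157,159] [] ⟨163,[52],[143,0,144],[]⟩ hh_G79 [157,158,138,159,160,140,149,150,142,151,152,144,145,153,154,147,155,156] (by decide +kernel) hh_n107
theorem hh_n105  : Bd hh_T hh_G77 [157,158,138,159,160,140,149,150,142,151,152,144,145,153,154,147,155,156] :=
  r_def 158 0 [157] [] ⟨161,[51],[141,0,142],[]⟩ hh_G78 [157,158,138,159,160,140,149,150,142,151,152,144,145,153,154,147,155,156] (by decide +kernel) hh_n106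
theorem hh_n104  : Bd hh_T hh_G77 [137,138,139,140,149,150,142,151,152,144,145,153,154,147,155,156] :=
  r_act [48,49] [157,158,138,159,160,140,149,150,142,151,152,144,145,153,154,147,155,156] (by decide +kernel) hh_n105
theorem hh_n103  : Bd hh_T hh_G76 [137,138,139,140,149,150,142,151,152,144,145,153,154,147,155,156] :=
  r_def 139 0 [149,151] [153,155] ⟨159,[50],[138,139,140],[]⟩ hh_G77 [137,138,139,140,149,150,142,151,152,144,145,153,154,147,155,156] (by decide +kernel) hh_n104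
theorem hh_n102  : Bd hh_T hh_G75 [137,138,139,140,149,150,142,151,152,144,145,153,154,147,155,156] :=
  r_def 137 0 [149] [153] ⟨157,[49],[135,136,137],[]⟩ hh_G76 [137,138,139,140,149,150,142,151,152,144,145,153,154,147,155,156] (by decide +kernel) hh_n103
theorem hh_n101  : Bd hh_T hh_G75 [137,138,139,140,141,142,143,144,145,146,147,148] :=
  r_act [44,45,46,47] [137,138,139,140,149,150,142,151,152,144,145,153,154,147,155,156] (by decide +kernel) hh_n102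
theorem hh_n100  : Bd hh_T hh_G74 [137,138,139,140,141,142,143,144,145,146,147,148] :=
  r_def 148 0 [142] [138] ⟨155,[48],[132,133,134],[]⟩ hh_G75 [137,138,139,140,141,142,143,144,145,146,147,148] (by decide +kernel) hh_n101
theorem hh_n99  : Bd hh_T hh_G73 [137,138,139,140,141,142,143,144,145,146,147,148] :=
  r_def 146 0 [142] [] ⟨153,[47],[130,0,131],[]⟩ hh_G74 [137,138,139,140,141,142,143,144,145,146,147,148] (by decide +kernel) hh_n100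
theorem hh_n98  : Bd hh_T hh_G72 [137,138,139,140,141,142,143,144,145,146,147,148] :=
  r_def 143 0 [145] [] ⟨151,[46],[128,0,129],[]⟩ hh_G73 [137,138,139,140,141,142,143,144,145,146,147,148] (by decide +kernel) hh_n99
theorem hh_n97  : Bd hh_T hh_G71 [137,138,139,140,141,142,143,144,145,146,147,148] :=
  r_def 141 0 [145] [] ⟨149,[45],[126,0,127],[]⟩ hh_G72 [137,138,139,140,141,142,143,144,145,146,147,148] (by decide +kernel) hh_n98
theorem hh_n96  : Bd hh_T hh_G71 [76,77,78,79,80,81] :=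
  r_act [37,38,39,40,41,42,43] [137,138,139,140,141,142,143,144,145,146,147,148] (by decide +kernel) hh_n97
theorem hh_n95  : Bd hh_T hh_G70 [76,77,78,79,80,81] :=
  r_psplit 81 [] (PT.br 6 PT.kid PT.kid) ⟨147,[44],[],[]⟩ hh_G71 [76,77,78,79,80,81] (by decide +kernel) hh_o64 hh_n96
theorem hh_n94  : Bd hh_T hh_G69 [76,77,78,79,80,81] :=
  r_psplit 80 [] (PT.br 6 PT.kid PT.kid) ⟨145,[43],[],[]⟩ hh_G70 [76,77,78,79,80,81] (by decide +kernel) hh_o63 hh_n95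
theorem hh_n93  : Bd hh_T hh_G68 [76,77,78,79,80,81] :=
  r_psplit 79 [] (PT.br 6 PT.kid PT.kid) ⟨143,[42],[],[]⟩ hh_G69 [76,77,78,79,80,81] (by decide +kernel) hh_o62 hh_n94
theorem hh_n92  : Bd hh_T hh_G67 [76,77,78,79,80,81] :=
  r_psplit 78 [] (PT.br 6 PT.kid PT.kid) ⟨141,[41],[],[]⟩ hh_G68 [76,77,78,79,80,81] (by decide +kernel) hh_o61 hh_n93
theorem hh_n91  : Bd hh_T hh_G66 [76,77,78,79,80,81] :=
  r_psplit 77 [] (PT.br 6 PT.kid PT.kid) ⟨139,[40],[],[]⟩ hh_G67 [76,77,78,79,80,81] (by decide +kernel) hh_o60 hh_n92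
theorem hh_n90  : Bd hh_T hh_G65 [76,77,78,79,80,81] :=
  r_psplit 136 [] (PT.br 6 PT.kid PT.kid) ⟨137,[39],[],[]⟩ hh_G66 [76,77,78,79,80,81] (by decide +kernel) hh_o59 hh_n91
theorem hh_n89  : Bd hh_T hh_G30 [76,77,78,79,80,81] :=
  r_psplit 76 [6] PT.kid ⟨136,[38],[],[]⟩ hh_G65 [76,77,78,79,80,81] (by decide +kernel) hh_o58 hh_n90
theorem hh_n88  : Bd hh_T hh_G64 [106] :=
  r_apply lem_D2 [0] [(106,0x400000000000000000000000000)] (by decide +kernel) hh_o57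
theorem hh_n87  : Bd hh_T hh_G64 [105,107] :=
  r_apply (lem_of_bdN (cPaw, cP1S113) ( bdN_paw_d)) [0,0] [] (by decide +kernel) hh_o56
theorem hh_n86  : Bd hh_T hh_G64 [105,106,107] :=
  r_split [105,107] [106] (by decide +kernel) hh_o55 hh_n87 hh_n88
theorem hh_n85  : Bd hh_T hh_G63 [129,130,105,106,107,131,132,133,134,135] :=
  r_kill [129,130,131,132,133,134,135] ⟨136,[],[],[]⟩ hh_G64 [105,106,107] (by decide +kernel) hh_o54 hh_n86
theorem hh_n84  : Bd hh_T hh_G62 [102,103,105,106,107,108,109,110,111,112] :=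
  r_hit [102,103,108,109,110,111,112] hh_h84 ⟨129,[],[119,120,121,122,123,124,125],[]⟩ hh_G63 [129,130,105,106,107,131,132,133,134,135] (by decide +kernel) hh_o53 hh_n85
theorem hh_n83  : Bd hh_T hh_G62 [113,123,103,115,125,106,117,127,108,119,110,121,112] :=
  r_act [] [102,103,105,106,107,108,109,110,111,112] (by decide +kernel) hh_n84
theorem hh_n82  : Bd hh_T hh_G61 [113,123,124,103,115,125,126,106,117,127,128,108,119,120,110,121,122,112] :=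
  r_close false 0 [12,23,29,34,13,24,25,30,35,26,31,36,14,27,32,28,33] [113,123,124,103,115,125,126,106,117,127,128,108,119,120,110,121,122,112] [0,0,0,0,1,1,1,1,1,1,1,1,2,2,2,2,2,2] [6] [1] 0x2dbbb ⟨129,[],[],[]⟩ hh_G62 [113,123,103,115,125,106,117,127,108,119,110,121,112] (by decide +kernel) hh_o52 hh_n83
theorem hh_n81  : Bd hh_T hh_G61 [113,114,103,115,116,106,117,118,108,119,120,110,121,122,112] :=
  r_act [34,35,36] [113,123,124,103,115,125,126,106,117,127,128,108,119,120,110,121,122,112] (by decide +kernel) hh_n82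
theorem hh_n80  : Bd hh_T hh_G60 [113,114,103,115,116,106,117,118,108,119,120,110,121,122,112] :=
  r_def 118 0 [115,117] [] ⟨127,[37],[117,0,118],[]⟩ hh_G61 [113,114,103,115,116,106,117,118,108,119,120,110,121,122,112] (by decide +kernel) hh_n81
theorem hh_n79  : Bd hh_T hh_G59 [113,114,103,115,116,106,117,118,108,119,120,110,121,122,112] :=
  r_def 116 0 [115] [] ⟨125,[36],[115,0,116],[]⟩ hh_G60 [113,114,103,115,116,106,117,118,108,119,120,110,121,122,112] (by decide +kernel) hh_n80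
theorem hh_n78  : Bd hh_T hh_G58 [113,114,103,115,116,106,117,118,108,119,120,110,121,122,112] :=
  r_def 114 0 [113] [] ⟨123,[35],[113,0,114],[]⟩ hh_G59 [113,114,103,115,116,106,117,118,108,119,120,110,121,122,112] (by decide +kernel) hh_n79
theorem hh_n77  : Bd hh_T hh_G58 [102,103,105,106,107,108,109,110,111,112] :=
  r_act [29,30,31,32,33] [113,114,103,115,116,106,117,118,108,119,120,110,121,122,112] (by decide +kernel) hh_n78
theorem hh_n76  : Bd hh_T hh_G57 [102,103,105,106,107,108,109,110,111,112] :=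
  r_def 111 0 [106] [] ⟨121,[34],[111,0,112],[]⟩ hh_G58 [102,103,105,106,107,108,109,110,111,112] (by decide +kernel) hh_n77
theorem hh_n75  : Bd hh_T hh_G56 [102,103,105,106,107,108,109,110,111,112] :=
  r_def 109 0 [106] [] ⟨119,[33],[109,0,110],[]⟩ hh_G57 [102,103,105,106,107,108,109,110,111,112] (by decide +kernel) hh_n76
theorem hh_n74  : Bd hh_T hh_G55 [102,103,105,106,107,108,109,110,111,112] :=
  r_def 107 0 [110,112] [] ⟨117,[32],[107,0,108],[]⟩ hh_G56 [102,103,105,106,107,108,109,110,111,112] (by decide +kernel) hh_n75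
theorem hh_n73  : Bd hh_T hh_G54 [102,103,105,106,107,108,109,110,111,112] :=
  r_def 105 0 [110] [] ⟨115,[31],[105,0,106],[]⟩ hh_G55 [102,103,105,106,107,108,109,110,111,112] (by decide +kernel) hh_n74
theorem hh_n72  : Bd hh_T hh_G53 [102,103,105,106,107,108,109,110,111,112] :=
  r_def 102 0 [] [110,112] ⟨113,[30],[103,104],[]⟩ hh_G54 [102,103,105,106,107,108,109,110,111,112] (by decide +kernel) hh_n73
theorem hh_n71  : Bd hh_T hh_G53 [77,78,79,80,81] :=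
  r_act [23,24,25,26,27,28] [102,103,105,106,107,108,109,110,111,112] (by decide +kernel) hh_n72
theorem hh_n70  : Bd hh_T hh_G52 [77,78,79,80,81] :=
  r_psplit 81 [] (PT.br 6 PT.kid PT.kid) ⟨111,[29],[],[]⟩ hh_G53 [77,78,79,80,81] (by decide +kernel) hh_o51 hh_n71
theorem hh_n69  : Bd hh_T hh_G51 [77,78,79,80,81] :=
  r_psplit 80 [] (PT.br 6 PT.kid PT.kid) ⟨109,[28],[],[]⟩ hh_G52 [77,78,79,80,81] (by decide +kernel) hh_o50 hh_n70
theorem hh_n68  : Bd hh_T hh_G50 [77,78,79,80,81] :=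
  r_psplit 79 [] (PT.br 6 PT.kid PT.kid) ⟨107,[27],[],[]⟩ hh_G51 [77,78,79,80,81] (by decide +kernel) hh_o49 hh_n69
theorem hh_n67  : Bd hh_T hh_G49 [77,78,79,80,81] :=
  r_psplit 104 [] (PT.br 6 PT.kid PT.kid) ⟨105,[26],[],[]⟩ hh_G50 [77,78,79,80,81] (by decide +kernel) hh_o48 hh_n68
theorem hh_n66  : Bd hh_T hh_G48 [77,78,79,80,81] :=
  r_psplit 78 [6] PT.kid ⟨104,[25],[],[]⟩ hh_G49 [77,78,79,80,81] (by decide +kernel) hh_o47 hh_n67
theorem hh_n65  : Bd hh_T hh_G32 [77,78,79,80,81] :=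
  r_psplit 77 [] (PT.br 6 PT.kid PT.kid) ⟨102,[24],[],[]⟩ hh_G48 [77,78,79,80,81] (by decide +kernel) hh_o46 hh_n66
theorem hh_n64  : Bd hh_T hh_G47 [88] :=
  r_apply lem_D2 [0] [] (by decide +kernel) hh_o45
theorem hh_n63  : Bd hh_T hh_G46 [98,99,100,88,101] :=
  r_kill [98,99,100,101] ⟨102,[],[],[]⟩ hh_G47 [88] (by decide +kernel) hh_o44 hh_n64
theorem hh_n62  : Bd hh_T hh_G45 [85,86,87,88,91] :=
  r_hit [85,86,87,91] hh_h62 ⟨98,[],[99,100,101,102],[]⟩ hh_G46 [98,99,100,88,101] (by decide +kernel) hh_o43 hh_n63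
theorem hh_n61  : Bd hh_T hh_G45 [85,92,94,88,96] :=
  r_act [] [85,86,87,88,91] (by decide +kernel) hh_n62
theorem hh_n60  : Bd hh_T hh_G44 [85,92,94,88,96,97] :=
  r_kill [97] ⟨98,[],[],[]⟩ hh_G45 [85,92,94,88,96] (by decide +kernel) hh_o42 hh_n61
theorem hh_n59  : Bd hh_T hh_G44 [85,92,94,88,91] :=
  r_act [22] [85,92,94,88,96,97] (by decide +kernel) hh_n60
theorem hh_n58  : Bd hh_T hh_G43 [85,92,94,88,91] :=
  r_def 91 0 [] [92] ⟨96,[23],[97,98],[]⟩ hh_G44 [85,92,94,88,91] (by decide +kernel) hh_n59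
theorem hh_n57  : Bd hh_T hh_G42 [85,92,93,94,95,88,91] :=
  r_close false 0 [12,15,20,13,16,21,14,17,18,19] [85,92,93,94,95,88,91] [0,0,0,1,1,1,2] [6] [2] 107 ⟨96,[],[],[]⟩ hh_G43 [85,92,94,88,91] (by decide +kernel) hh_o41 hh_n58
theorem hh_n56  : Bd hh_T hh_G42 [85,86,87,88,91] :=
  r_act [20,21] [85,92,93,94,95,88,91] (by decide +kernel) hh_n57
theorem hh_n55  : Bd hh_T hh_G41 [85,86,87,88,91] :=
  r_def 87 0 [88] [] ⟨94,[22],[95,0,96],[]⟩ hh_G42 [85,86,87,88,91] (by decide +kernel) hh_n56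
theorem hh_n54  : Bd hh_T hh_G40 [85,86,87,88,91] :=
  r_def 86 0 [85,88] [] ⟨92,[21],[93,0,94],[]⟩ hh_G41 [85,86,87,88,91] (by decide +kernel) hh_n55
theorem hh_n53  : Bd hh_T hh_G39 [85,86,87,88,90,91] :=
  r_kill [90] ⟨92,[],[],[]⟩ hh_G40 [85,86,87,88,91] (by decide +kernel) hh_o40 hh_n54
theorem hh_n52  : Bd hh_T hh_G39 [77,79,80,81] :=
  r_act [15,16,17,18,19] [85,86,87,88,90,91] (by decide +kernel) hh_n53
theorem hh_n51  : Bd hh_T hh_G38 [77,79,80,81] :=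
  r_psplit 81 [] (PT.br 6 PT.kid PT.ref) ⟨91,[20],[],[]⟩ hh_G39 [77,79,80,81] (by decide +kernel) hh_o39 hh_n52
theorem hh_n50  : Bd hh_T hh_G37 [77,79,80,81] :=
  r_psplit 89 [] (PT.br 6 PT.kid PT.ref) ⟨90,[19],[],[]⟩ hh_G38 [77,79,80,81] (by decide +kernel) hh_o38 hh_n51
theorem hh_n49  : Bd hh_T hh_G36 [77,79,80,81] :=
  r_psplit 80 [6] PT.kid ⟨89,[18],[],[]⟩ hh_G37 [77,79,80,81] (by decide +kernel) hh_o37 hh_n50
theorem hh_n48  : Bd hh_T hh_G35 [77,79,80,81] :=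
  r_psplit 79 [] (PT.br 6 PT.kid PT.kid) ⟨87,[17],[],[]⟩ hh_G36 [77,79,80,81] (by decide +kernel) hh_o36 hh_n49
theorem hh_n47  : Bd hh_T hh_G34 [77,79,80,81] :=
  r_psplit 77 [] (PT.br 6 PT.kid PT.kid) ⟨85,[16],[],[]⟩ hh_G35 [77,79,80,81] (by decide +kernel) hh_o35 hh_n48
theorem hh_n46  : Bd hh_T hh_G33 [77,79,81] :=
  r_apply lem_D2 [0,0,0] [(77,0x200000000000000000000),(81,0x20000000000000000000)] (by decide +kernel) hh_o34
theorem hh_n45  : Bd hh_T hh_G31 [77,79,80,81] :=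
  r_ext 80 2 [79] [] [77] [] [0,1,2,3,4,5] ⟨82,[],[],[]⟩ hh_G33 [77,79,81] ⟨84,[],[],[]⟩ hh_G34 [77,79,80,81] (by decide +kernel) hh_o33 hh_n46 hh_n47
theorem hh_n44  : Bd hh_T hh_G29 [77,78,79,80,81] :=
  r_ext 78 2 [77,78,79,80,81] [] [] [] [0,1,2,3,4,5] ⟨82,[],[],[]⟩ hh_G31 [77,79,80,81] ⟨83,[],[0,92],[]⟩ hh_G32 [77,78,79,80,81] (by decide +kernel) hh_o32 hh_n45 hh_n65
theorem hh_n43  : Bd hh_T hh_G28 [76,77,78,79,80,81] :=
  r_ext 76 2 [76,77,78,79] [] [80,81] [] [0,1,2,3,4,5] ⟨82,[],[],[]⟩ hh_G29 [77,78,79,80,81] ⟨82,[],[91],[]⟩ hh_G30 [76,77,78,79,80,81] (by decide +kernel) hh_o31 hh_n44 hh_n89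
theorem hh_n42  : Bd hh_T hh_G28 [67,70,73] :=
  r_act [12,13,14] [76,77,78,79,80,81] (by decide +kernel) hh_n43
theorem hh_n41  : Bd hh_T hh_G27 [67,70,73] :=
  r_def 73 2 [70] [67] ⟨80,[15],[86,87,88,89,90],[]⟩ hh_G28 [67,70,73] (by decide +kernel) hh_n42
theorem hh_n40  : Bd hh_T hh_G26 [67,70,73] :=
  r_def 70 2 [67,70,73] [] ⟨78,[14],[84,0,0,0,85],[]⟩ hh_G27 [67,70,73] (by decide +kernel) hh_n41
theorem hh_n39  : Bd hh_T hh_G25 [67,70,73] :=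
  r_def 67 2 [67,70] [73] ⟨76,[13],[79,80,81,82,83],[]⟩ hh_G26 [67,70,73] (by decide +kernel) hh_n40
theorem hh_n38  : Bd hh_T hh_G24 [64,65,66] :=
  r_block [4,0,1] [7,7,3] [7,7,3] ⟨67,[],[0,0,0,0,0,0,0,0,0,0,0,0,0,0,78],[1]⟩ hh_G25 [67,70,73] (by decide +kernel) hh_o30 hh_n39
theorem hh_n37  : Bd hh_T hh_G23 [62,63,61] :=
  r_twin 0 [7,7,3] ⟨64,[],[0,0,77],[]⟩ hh_G24 [64,65,66] (by decide +kernel) hh_o29 hh_n38
theorem hh_n36  : Bd hh_T hh_G23 [48,61] :=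
  r_act [11] [62,63,61] (by decide +kernel) hh_n37
theorem hh_n35  : Bd hh_T hh_G22 [48,61] :=
  r_def 48 1 [61] [] ⟨62,[12],[75,0,0,76],[]⟩ hh_G23 [48,61] (by decide +kernel) hh_n36
theorem hh_n34  : Bd hh_T hh_G22 [48,49,50,51,52,53,54,55,56,57,58,59,60,61] :=
  r_split [48,61] [49,58,50,55,51,52,53,54,56,57,59,60] (by decide +kernel) hh_o28 hh_n35 hh_n120
theorem hh_n33  : Bd hh_T hh_G22 [1,2] :=
  r_act [8,9,10] [48,49,50,51,52,53,54,55,56,57,58,59,60,61] (by decide +kernel) hh_n34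
theorem hh_n32  : Bd hh_T hh_G21 [1,2] :=
  r_psplit 2 [] (PT.br 0 (PT.br 1 (PT.br 2 PT.ref (PT.br 3 PT.ref (PT.br 4 PT.ref (PT.br 5 PT.ref PT.kid)))) (PT.br 2 PT.ref (PT.br 3 PT.ref (PT.br 4 PT.ref (PT.br 5 PT.ref PT.kid))))) (PT.br 1 (PT.br 2 PT.ref (PT.br 3 PT.ref (PT.br 4 PT.ref (PT.br 5 PT.ref PT.kid)))) (PT.br 2 (PT.br 3 (PT.br 4 PT.ref (PT.br 5 PT.ref PT.kid)) (PT.br 4 PT.ref (PT.br 5 PT.ref PT.kid))) (PT.br 3 (PT.br 4 PT.ref (PT.br 5 PT.ref PT.kid)) (PT.br 4 (PT.br 5 PT.kid PT.kid) (PT.br 5 PT.kid PT.kid)))))) ⟨52,[11],[],[]⟩ hh_G22 [1,2] (by decide +kernel) hh_o27 hh_n33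
theorem hh_n31  : Bd hh_T hh_G20 [1,2] :=
  r_psplit 47 [] (PT.br 0 (PT.br 1 (PT.br 2 (PT.br 3 (PT.br 4 (PT.br 5 PT.kid PT.ref) (PT.br 5 PT.ref PT.kid)) PT.ref) (PT.br 3 PT.ref (PT.br 4 (PT.br 5 PT.kid PT.ref) PT.ref))) PT.ref) (PT.br 1 PT.ref (PT.br 2 (PT.br 3 (PT.br 4 (PT.br 5 PT.kid PT.ref) PT.ref) PT.ref) PT.ref))) ⟨48,[10],[],[]⟩ hh_G21 [1,2] (by decide +kernel) hh_o26 hh_n32
theorem hh_n30  : Bd hh_T hh_G1 [1,2] :=
  r_psplit 1 [0,1,2,3,4,5] PT.kid ⟨47,[9],[],[]⟩ hh_G20 [1,2] (by decide +kernel) hh_o25 hh_n31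
theorem hh_n29  : Bd hh_T hh_G19 [41,42,43,44,45,46] :=
  r_apply lem_D2 [0,0,0,0,0,0] [(41,0x7c0000000000),(42,0x7a0000000000),(43,0x760000000000),(44,0x6e0000000000),(45,0x5e0000000000),(46,0x3e0000000000)] (by decide +kernel) hh_o24
theorem hh_n28  : Bd hh_T hh_G19 [40] :=
  r_apply lem_D2 [0] [(40,0x10000000000)] (by decide +kernel) hh_o23
theorem hh_n27  : Bd hh_T hh_G19 [40,41,42,43,44,45,46] :=
  r_split [40] [41,42,43,44,45,46] (by decide +kernel) hh_o22 hh_n28 hh_n29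
theorem hh_n26  : Bd hh_T hh_G19 [39] :=
  r_apply lem_D2 [0] [(39,0x8000000000)] (by decide +kernel) hh_o21
theorem hh_n25  : Bd hh_T hh_G19 [39,40,41,42,43,44,45,46] :=
  r_split [39] [40,41,42,43,44,45,46] (by decide +kernel) hh_o20 hh_n26 hh_n27
theorem hh_n24  : Bd hh_T hh_G18 [31,32,33,34,35,36,37,38] :=
  r_hit [31,32,33,34,35,36,37,38] hh_h24 ⟨39,[],[0,0,0,0,0,0,0,0,0,0,0,0,0,0,0,0,57,58,59,60,61,62,63,64,65,66,67,68,69,70,71,72,73,74],[]⟩ hh_G19 [39,40,41,42,43,44,45,46] (by decide +kernel) hh_o19 hh_n25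
theorem hh_n23  : Bd hh_T hh_G17 [22,23,24,25,26,27,28,29] :=
  r_hit [22,23,24,25,26,27,28,29] hh_h23 ⟨31,[],[49,50,51,52,53,54,55,56],[]⟩ hh_G18 [31,32,33,34,35,36,37,38] (by decide +kernel) hh_o18 hh_n24
theorem hh_n22  : Bd hh_T hh_G17 [21,30] :=
  r_apply (lem_of_bdN (cPaw, cP1S113) ( bdN_paw_d)) [0,0] [] (by decide +kernel) hh_o17
theorem hh_n21  : Bd hh_T hh_G17 [21,22,23,24,25,26,27,28,29,30] :=
  r_split [21,30] [22,23,24,25,26,27,28,29] (by decide +kernel) hh_o16 hh_n22 hh_n23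
theorem hh_n20  : Bd hh_T hh_G17 [1,2] :=
  r_act [5,6,7] [21,22,23,24,25,26,27,28,29,30] (by decide +kernel) hh_n21
theorem hh_n19  : Bd hh_T hh_G16 [1,2] :=
  r_psplit 2 [] (PT.br 0 (PT.br 1 (PT.br 2 PT.ref (PT.br 3 PT.ref PT.kid)) (PT.br 2 PT.ref (PT.br 3 PT.ref PT.kid))) (PT.br 1 (PT.br 2 PT.ref (PT.br 3 PT.ref PT.kid)) (PT.br 2 (PT.br 3 PT.kid PT.kid) (PT.br 3 PT.kid PT.kid)))) ⟨24,[8],[],[]⟩ hh_G17 [1,2] (by decide +kernel) hh_o15 hh_n20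
theorem hh_n18  : Bd hh_T hh_G15 [1,2] :=
  r_psplit 20 [] (PT.br 0 (PT.br 1 (PT.br 2 (PT.br 3 PT.kid PT.ref) (PT.br 3 PT.ref PT.kid)) PT.ref) (PT.br 1 PT.ref (PT.br 2 (PT.br 3 PT.kid PT.ref) PT.ref))) ⟨21,[7],[],[]⟩ hh_G16 [1,2] (by decide +kernel) hh_o14 hh_n19
theorem hh_n17  : Bd hh_T hh_G3 [1,2] :=
  r_psplit 1 [0,1,2,3] PT.kid ⟨20,[6],[],[]⟩ hh_G15 [1,2] (by decide +kernel) hh_o13 hh_n18
theorem hh_n16  : Bd hh_T hh_G14 [18,14,15,16,17,19] :=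
  r_apply lem_h2 [1,2,3,4,4,5] [] (by decide +kernel) hh_o12
theorem hh_n15  : Bd hh_T hh_G13 [12,7,8,9,10,13] :=
  r_hit [7,8,9,10,12,13] hh_h15 ⟨14,[],[15,16,17,0,0,0,0,18,19,20,21,22,23,24,0,25,0,26,27,28,29,30,31,32,0,33,34,35,36,37,38,39,40,41,42,43,44,45,46,47,48],[]⟩ hh_G14 [18,14,15,16,17,19] (by decide +kernel) (allRef_split 28 hh_o9 (allRef_split 9 hh_o10 hh_o11)) hh_n16
theorem hh_n14  : Bd hh_T hh_G12 [6,7,8,9,10,11] :=
  r_hit [6,11] hh_h14 ⟨12,[],[14],[]⟩ hh_G13 [12,7,8,9,10,13] (by decide +kernel) hh_o8 hh_n15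
theorem hh_n13  : Bd hh_T hh_G12 [3,4,2] :=
  r_act [1,2,3,4] [6,7,8,9,10,11] (by decide +kernel) hh_n14
theorem hh_n12  : Bd hh_T hh_G11 [3,4,2] :=
  r_psplit 2 [] (PT.br 0 (PT.br 1 PT.kid PT.kid) (PT.br 1 PT.kid PT.kid)) ⟨8,[5],[],[]⟩ hh_G12 [3,4,2] (by decide +kernel) hh_o7 hh_n13
theorem hh_n11  : Bd hh_T hh_G10 [3,4,2] :=
  r_psplit 4 [] (PT.br 0 (PT.br 1 PT.kid PT.ref) PT.ref) ⟨7,[4],[],[]⟩ hh_G11 [3,4,2] (by decide +kernel) hh_o6 hh_n12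
theorem hh_n10  : Bd hh_T hh_G9 [3,4,2] :=
  r_psplit 5 [] (PT.br 0 PT.ref (PT.br 1 PT.ref PT.kid)) ⟨6,[3],[],[]⟩ hh_G10 [3,4,2] (by decide +kernel) hh_o5 hh_n11
theorem hh_n9  : Bd hh_T hh_G7 [3,4,2] :=
  r_psplit 3 [0,1] PT.kid ⟨5,[2],[],[]⟩ hh_G9 [3,4,2] (by decide +kernel) hh_o4 hh_n10
theorem hh_n8  : Bd hh_T hh_G8 [4,2] :=
  r_apply lem_h3 [1,2] [] (by decide +kernel) hh_o3
theorem hh_n7  : Bd hh_T hh_G6 [3,4,2] :=
  r_kill [3] ⟨5,[],[],[]⟩ hh_G8 [4,2] (by decide +kernel) hh_o2 hh_n8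
theorem hh_n6  : Bd hh_T hh_G5 [3,4,2] :=
  r_case [3,3] [⟨0,1,true⟩] [] ⟨5,[],[13],[]⟩ hh_G6 [3,4,2] hh_G7 [3,4,2] (by decide +kernel) hh_n7 hh_n9
theorem hh_n5  : Bd hh_T hh_G5 [1,2] :=
  r_act [0] [3,4,2] (by decide +kernel) hh_n6
theorem hh_n4  : Bd hh_T hh_G4 [1,2] :=
  r_def 1 0 [1] [] ⟨3,[1],[11,0,12],[]⟩ hh_G5 [1,2] (by decide +kernel) hh_n5
theorem hh_n3  : Bd hh_T hh_G2 [1,2] :=
  r_learn [[1],[1],[1],[1]] [⟨0,1,true⟩,⟨2,3,true⟩,⟨0,2,false⟩] ⟨3,[],[10],[]⟩ hh_G4 [1,2] (by decide +kernel) hh_o1 hh_n4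
theorem hh_n2  : Bd hh_T hh_G0 [1,2] :=
  r_case [1,1,1,1] [⟨0,1,true⟩,⟨2,3,true⟩,⟨0,2,false⟩,⟨0,3,false⟩,⟨1,2,false⟩,⟨1,3,false⟩] [] ⟨3,[],[9],[]⟩ hh_G2 [1,2] hh_G3 [1,2] (by decide +kernel) hh_n3 hh_n17
theorem hh_n1  : Bd hh_T hh_G0 [1,2] :=
  r_learn [[1],[1],[1],[1],[1],[1]] [⟨0,1,true⟩,⟨2,3,true⟩,⟨4,5,true⟩,⟨0,2,false⟩,⟨0,4,false⟩,⟨2,4,false⟩] ⟨3,[],[],[]⟩ hh_G0 [1,2] (by decide +kernel) hh_o0 hh_n2
theorem hh_n0  : Bd hh_T (pureCtx 2 7) (pureAct 2) :=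
  show Bd _ _ [1,2] from r_case [1,1,1,1,1,1] [⟨0,1,true⟩,⟨2,3,true⟩,⟨4,5,true⟩,⟨0,2,false⟩,⟨0,4,false⟩,⟨2,4,false⟩,⟨0,3,false⟩,⟨0,5,false⟩,⟨1,2,false⟩,⟨1,3,false⟩,⟨1,4,false⟩,⟨1,5,false⟩,⟨2,5,false⟩,⟨3,4,false⟩,⟨3,5,false⟩] [] ⟨3,[],[8],[]⟩ hh_G0 [1,2] hh_G1 [1,2] (by decide +kernel) hh_n1 hh_n30
theorem lem_hh  : Lem hh_T 2 7 := ⟨by decide +kernel, hh_n0⟩

end Pool.Agent.Lib.MP_849b2e_co
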