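import Pool.Agent.Lib.MP_849b2e_co.Rules

set_option maxRecDepth 100000
set_option linter.all false
namespace Pool.Agent.Lib.MP_849b2e_co

noncomputable def h_ty : Tr Ty := (Tr.br (Tr.br (Tr.br (Tr.br (Tr.br (Tr.br (Tr.leaf ⟨1,0,0,0,0⟩) (Tr.leaf ⟨0x104000001,0x7ef8000000,30,1,31⟩)) (Tr.br (Tr.leaf ⟨66565,31736,29,2,31⟩) (Tr.leaf ⟨0x1002004000001,0x5ff8000000,15,16,31⟩))) (Tr.br (Tr.br (Tr.leaf ⟨261,32504,30,1,31⟩) (Tr.leaf ⟨0x10024000001,0x7fd8000000,8,23,31⟩)) (Tr.leaf ⟨0x1000085,32632,2,29,31⟩)))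
 (Tr.br (Tr.br (Tr.br (Tr.leaf ⟨21,32744,16,15,31⟩) (Tr.leaf ⟨0x1004000001,0x6ff8000000,23,8,31⟩)) (Tr.leaf ⟨0x10000d,32752,0,31,31⟩)) (Tr.br (Tr.br (Tr.leaf ⟨4101,28664,23,8,31⟩) (Tr.leaf ⟨0x100204000001,0x7df8000000,1,30,31⟩)) (Tr.leaf ⟨0x14000001,0x7fe8000000,16,15,31⟩)))
)
 (Tr.br (Tr.br (Tr.br (Tr.br (Tr.leaf ⟨5,0,0,0,31⟩) (Tr.leaf ⟨0x404000001,0x7bf8000000,29,2,31⟩)) (Tr.leaf ⟨0x41005,28664,23,8,31⟩)) (Tr.br (Tr.br (Tr.leaf ⟨1029,31736,29,2,31⟩) (Tr.leaf ⟨0x40084000001,0x7f78000000,2,29,31⟩)) (Tr.leaf ⟨0x4000001,0,0,0,31⟩)))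
 (Tr.br (Tr.br (Tr.br (Tr.leaf ⟨69,32696,4,27,31⟩) (Tr.leaf ⟨0x4004000001,0x3ff8000000,31,0,31⟩)) (Tr.leaf ⟨0x400025,32728,8,23,31⟩)) (Tr.br (Tr.br (Tr.leaf ⟨16389,16376,31,0,31⟩) (Tr.leaf ⟨0x400804000001,0x77f8000000,27,4,31⟩)) (Tr.leaf ⟨0x44000001,0x7fb8000000,4,27,31⟩)))
)
)
 (Tr.br (Tr.br (Tr.br (Tr.br (Tr.br (Tr.leaf ⟨3,0,0,0,0⟩) (Tr.leaf ⟨0x204000001,0x7df8000000,1,30,31⟩)) (Tr.br (Tr.leaf ⟨0x20805,30712,27,4,31⟩) (Tr.leaf ⟨0x2004004000001,0x3ff8000000,31,0,31⟩))) (Tr.br (Tr.br (Tr.leaf ⟨517,32248,1,30,31⟩) (Tr.leaf ⟨0x20044000001,0x7fb8000000,4,27,31⟩)) (Tr.leaf ⟨0x2000205,32248,1,30,31⟩)))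
 (Tr.br (Tr.br (Tr.br (Tr.leaf ⟨37,32728,8,23,31⟩) (Tr.leaf ⟨0x2004000001,0x5ff8000000,15,16,31⟩)) (Tr.leaf ⟨0x200015,32744,16,15,31⟩)) (Tr.br (Tr.br (Tr.leaf ⟨8197,24568,15,16,31⟩) (Tr.leaf ⟨0x200404000001,0x7bf8000000,29,2,31⟩)) (Tr.leaf ⟨0x24000001,0x7fd8000000,8,23,31⟩)))
)
 (Tr.br (Tr.br (Tr.br (Tr.br (Tr.leaf ⟨13,32752,0,31,31⟩) (Tr.leaf ⟨0x804000001,0x77f8000000,27,4,31⟩)) (Tr.leaf ⟨0x82005,24568,15,16,31⟩)) (Tr.br (Tr.br (Tr.leaf ⟨2053,30712,27,4,31⟩) (Tr.leaf ⟨0x80104000001,0x7ef8000000,30,1,31⟩)) (Tr.leaf ⟨0xc000001,0x7ff0000000,0,31,31⟩)))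
 (Tr.br (Tr.br (Tr.br (Tr.leaf ⟨133,32632,2,29,31⟩) (Tr.leaf ⟨0x8014000001,0x7fe8000000,16,15,31⟩)) (Tr.leaf ⟨0x800045,32696,4,27,31⟩)) (Tr.br (Tr.br (Tr.leaf ⟨33029,32504,30,1,31⟩) (Tr.leaf ⟨0x801004000001,0x6ff8000000,23,8,31⟩)) (Tr.leaf ⟨0x84000001,0x7f78000000,2,29,31⟩)))
)
)
)

noncomputable def h_ev : Tr Ev := (Tr.br (Tr.br (Tr.leaf ⟨0,[2],31⟩) (Tr.leaf ⟨0,[26],31⟩))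
 (Tr.br (Tr.leaf ⟨2,[3,4,5,6,7,8,9,10,11,12,13,14],0⟩) (Tr.leaf ⟨26,[27,28,29,30,31,32,33,34,35,36,37,38],0⟩))
)

noncomputable def h_ax : Tr Ax := (Tr.br (Tr.br (Tr.br (Tr.br (Tr.br (Tr.br (Tr.br (Tr.br (Tr.leaf ⟨[1,1,1,1,1],[⟨0,1,true⟩,⟨0,2,true⟩,⟨0,3,true⟩,⟨0,4,true⟩,⟨1,2,true⟩,⟨1,3,true⟩,⟨1,4,true⟩,⟨2,3,false⟩,⟨2,4,true⟩,⟨3,4,false⟩],[],0⟩) (Tr.leaf ⟨[0x100000000000,0x200000000000,0x400000000000],[],[],0⟩)) (Tr.leaf ⟨[0x8000000000,0x200000000000,0x400000000000],[],[],0⟩)) (Tr.br (Tr.leaf ⟨[0x200000,0x200000,0x1000000],[⟨0,1,false⟩,⟨0,2,true⟩,⟨1,2,false⟩],[],0⟩) (Tr.leaf ⟨[0x40000000000,0x80000000000,0x200000000000],[⟨0,1,true⟩,⟨0,2,true⟩,⟨1,2,true⟩],[],0⟩))) (Tr.br (Tr.br (Tr.br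 (Tr.leaf ⟨[0x100000,0x200000,0x400000],[],[],0⟩) (Tr.leaf ⟨[0x200000000000,0x2000000000000,0x2000000000000],[⟨0,1,true⟩,⟨0,2,false⟩,⟨1,2,true⟩],[],0⟩)) (Tr.leaf ⟨[0x10000000000,0x400000000000,0x1000000000000],[],[],0⟩)) (Tr.br (Tr.leaf ⟨[0x400000,0x800000,0x1000000],[],[],0⟩) (Tr.leaf ⟨[0x80000000000,0x80000000000,0x1000000000000],[⟨0,1,true⟩,⟨0,2,true⟩,⟨1,2,false⟩],[],0⟩)))) (Tr.br (Tr.br (Tr.br (Tr.br (Tr.leaf ⟨[0x40000],[],[],0⟩) (Tr.leaf ⟨[0x200000000000,0x200000000000,0x1000000000000],[⟨0,1,true⟩,⟨0,2,true⟩,⟨1,2,false⟩],[],0⟩)) (Tr.leaf ⟨[0x10000000000,0x80000000000,0x200000000000],[],[],0⟩)) (Tr.br (Tr.leaf ⟨[0x200000,0x800000,0x2000000],[],[],0⟩) (Tr.leaf ⟨[0x40000000000,0x200000000000,0x2000000000000],[⟨0,1,true⟩,⟨0,2,true⟩,⟨1,2,true⟩],[],0⟩)))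 (Tr.br (Tr.br (Tr.br (Tr.leaf ⟨[0x100000,0x800000,0x800000],[⟨0,1,true⟩,⟨0,2,false⟩,⟨1,2,false⟩],[],0⟩) (Tr.leaf ⟨[0x400000000000,0x2000000000000,0x2000000000000],[⟨0,1,true⟩,⟨0,2,false⟩,⟨1,2,true⟩],[],0⟩)) (Tr.leaf ⟨[0x20000000000,0x200000000000,0x400000000000],[⟨0,1,true⟩,⟨0,2,true⟩,⟨1,2,true⟩],[],0⟩)) (Tr.br (Tr.leaf ⟨[0x800000,0x1000000,0x2000000],[],[],0⟩) (Tr.leaf ⟨[0x80000000000,0x200000000000,0x2000000000000],[⟨0,1,false⟩,⟨0,2,true⟩,⟨1,2,true⟩],[],0⟩)))))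
 (Tr.br (Tr.br (Tr.br (Tr.br (Tr.br (Tr.leaf ⟨[2],[],[],0⟩) (Tr.leaf ⟨[0x100000000000,0x400000000000,0x1000000000000],[],[],0⟩)) (Tr.leaf ⟨[0x8000000000,0x400000000000,0x1000000000000],[⟨0,1,true⟩,⟨0,2,true⟩,⟨1,2,true⟩],[],0⟩)) (Tr.br (Tr.leaf ⟨[0x200000,0x400000,0x1000000],[],[],0⟩) (Tr.leaf ⟨[0x40000000000,0x200000000000,0x200000000000],[⟨0,1,true⟩,⟨0,2,true⟩,⟨1,2,true⟩],[],0⟩))) (Tr.br (Tr.br (Tr.br (Tr.leaf ⟨[0x100000,0x400000,0x400000],[⟨0,1,true⟩,⟨0,2,false⟩,⟨1,2,false⟩],[],0⟩) (Tr.leaf ⟨[0x400000000000,0x800000000000,0x800000000000],[⟨0,1,true⟩,⟨0,2,false⟩,⟨1,2,true⟩],[],0⟩)) (Tr.leaf ⟨[0x20000000000,0x80000000000,0x200000000000],[],[],0⟩)) (Tr.br (Tr.leaf ⟨[0x400000,0x2000000,0x2000000],[⟨0,1,true⟩,⟨0,2,false⟩,⟨1,2,false⟩],[],0⟩)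 (Tr.leaf ⟨[0x80000000000,0x100000000000,0x800000000000],[⟨0,1,true⟩,⟨0,2,true⟩,⟨1,2,true⟩],[],0⟩)))) (Tr.br (Tr.br (Tr.br (Tr.br (Tr.leaf ⟨[0x100000,0x100000,0x800000],[⟨0,1,false⟩,⟨0,2,true⟩,⟨1,2,false⟩],[],0⟩) (Tr.leaf ⟨[0x200000000000,0x800000000000,0x800000000000],[⟨0,1,true⟩,⟨0,2,false⟩,⟨1,2,true⟩],[],0⟩)) (Tr.leaf ⟨[0x10000000000,0x200000000000,0x400000000000],[],[],0⟩)) (Tr.br (Tr.leaf ⟨[0x400000,0x400000,0x800000],[⟨0,1,false⟩,⟨0,2,true⟩,⟨1,2,false⟩],[],0⟩) (Tr.leaf ⟨[0x80000000000,0x80000000000,0x100000000000],[⟨0,1,true⟩,⟨0,2,true⟩,⟨1,2,true⟩],[],0⟩))) (Tr.br (Tr.br (Tr.br (Tr.leaf ⟨[0x100000,0x1000000,0x2000000],[],[],0⟩) (Tr.leaf ⟨[0x800000000000,0x1000000000000,0x2000000000000],[⟨0,1,false⟩,⟨0,2,true⟩,⟨1,2,true⟩],[],0⟩))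 (Tr.leaf ⟨[0x20000000000,0x400000000000,0x800000000000],[⟨0,1,true⟩,⟨0,2,true⟩,⟨1,2,true⟩],[],0⟩)) (Tr.br (Tr.leaf ⟨[0x8000000000,0x80000000000,0x200000000000],[],[],0⟩) (Tr.leaf ⟨[0x80000000000,0x800000000000,0x2000000000000],[⟨0,1,false⟩,⟨0,2,true⟩,⟨1,2,true⟩],[],0⟩)))))
)
 (Tr.br (Tr.br (Tr.br (Tr.br (Tr.br (Tr.br (Tr.leaf ⟨[1,1,1,1,1],[⟨0,1,false⟩,⟨0,2,false⟩,⟨0,3,false⟩,⟨0,4,false⟩,⟨1,2,false⟩,⟨1,3,false⟩,⟨1,4,false⟩,⟨2,3,false⟩,⟨2,4,false⟩,⟨3,4,false⟩],[],0⟩) (Tr.leaf ⟨[0x100000000000,0x200000000000,0x1000000000000],[],[],0⟩)) (Tr.leaf ⟨[0x8000000000,0x200000000000,0x1000000000000],[⟨0,1,true⟩,⟨0,2,true⟩,⟨1,2,true⟩],[],0⟩)) (Tr.br (Tr.leaf ⟨[0x200000,0x400000,0x400000],[⟨0,1,true⟩,⟨0,2,false⟩,⟨1,2,false⟩],[],0⟩)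 (Tr.leaf ⟨[0x40000000000,0x80000000000,0x800000000000],[],[],0⟩))) (Tr.br (Tr.br (Tr.br (Tr.leaf ⟨[0x100000,0x200000,0x1000000],[],[],0⟩) (Tr.leaf ⟨[0x400000000000,0x400000000000,0x1000000000000],[⟨0,1,true⟩,⟨0,2,true⟩,⟨1,2,false⟩],[],0⟩)) (Tr.leaf ⟨[0x10000000000,0x800000000000,0x1000000000000],[⟨0,1,true⟩,⟨0,2,true⟩,⟨1,2,true⟩],[],0⟩)) (Tr.br (Tr.leaf ⟨[0x400000,0x1000000,0x1000000],[⟨0,1,true⟩,⟨0,2,false⟩,⟨1,2,false⟩],[],0⟩) (Tr.leaf ⟨[0x80000000000,0x100000000000,0x200000000000],[⟨0,1,true⟩,⟨0,2,true⟩,⟨1,2,true⟩],[],0⟩)))) (Tr.br (Tr.br (Tr.br (Tr.br (Tr.leaf ⟨[0x100000,0x100000,0x200000],[⟨0,1,false⟩,⟨0,2,true⟩,⟨1,2,false⟩],[],0⟩) (Tr.leaf ⟨[0x200000000000,0x400000000000,0x400000000000],[⟨0,1,true⟩,⟨0,2,false⟩,⟨1,2,true⟩],[],0⟩))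 (Tr.leaf ⟨[0x10000000000,0x80000000000,0x800000000000],[⟨0,1,true⟩,⟨0,2,true⟩,⟨1,2,true⟩],[],0⟩)) (Tr.br (Tr.leaf ⟨[0x200000,0x1000000,0x2000000],[],[],0⟩) (Tr.leaf ⟨[0x40000000000,0x400000000000,0x1000000000000],[],[],0⟩))) (Tr.br (Tr.br (Tr.br (Tr.leaf ⟨[0x100000,0x800000,0x2000000],[],[],0⟩) (Tr.leaf ⟨[0x800000000000,0x800000000000,0x2000000000000],[⟨0,1,true⟩,⟨0,2,true⟩,⟨1,2,false⟩],[],0⟩)) (Tr.leaf ⟨[0x20000000000,0x200000000000,0x1000000000000],[],[],0⟩)) (Tr.br (Tr.leaf ⟨[0x1000000,0x1000000,0x2000000],[⟨0,1,false⟩,⟨0,2,true⟩,⟨1,2,false⟩],[],0⟩) (Tr.leaf ⟨[0x80000000000,0x400000000000,0x2000000000000],[⟨0,1,false⟩,⟨0,2,true⟩,⟨1,2,true⟩],[],0⟩)))))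
 (Tr.br (Tr.br (Tr.br (Tr.br (Tr.br (Tr.leaf ⟨[65536],[],[],0⟩) (Tr.leaf ⟨[0x200000000000,0x200000000000,0x400000000000],[⟨0,1,true⟩,⟨0,2,true⟩,⟨1,2,false⟩],[],0⟩)) (Tr.leaf ⟨[0x8000000000,0x1000000000000,0x1000000000000],[⟨0,1,true⟩,⟨0,2,true⟩,⟨1,2,true⟩],[],0⟩)) (Tr.br (Tr.leaf ⟨[0x200000,0x800000,0x800000],[⟨0,1,true⟩,⟨0,2,false⟩,⟨1,2,false⟩],[],0⟩) (Tr.leaf ⟨[0x40000000000,0x200000000000,0x800000000000],[⟨0,1,true⟩,⟨0,2,true⟩,⟨1,2,true⟩],[],0⟩))) (Tr.br (Tr.br (Tr.br (Tr.leaf ⟨[0x100000,0x400000,0x1000000],[],[],0⟩) (Tr.leaf ⟨[0x400000000000,0x1000000000000,0x1000000000000],[⟨0,1,true⟩,⟨0,2,false⟩,⟨1,2,true⟩],[],0⟩)) (Tr.leaf ⟨[0x20000000000,0x80000000000,0x800000000000],[],[],0⟩))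 (Tr.br (Tr.leaf ⟨[0x800000,0x800000,0x2000000],[⟨0,1,false⟩,⟨0,2,true⟩,⟨1,2,false⟩],[],0⟩) (Tr.leaf ⟨[0x80000000000,0x100000000000,0x2000000000000],[⟨0,1,true⟩,⟨0,2,true⟩,⟨1,2,true⟩],[],0⟩)))) (Tr.br (Tr.br (Tr.br (Tr.br (Tr.leaf ⟨[0x100000,0x100000,0x2000000],[⟨0,1,false⟩,⟨0,2,true⟩,⟨1,2,false⟩],[],0⟩) (Tr.leaf ⟨[0x200000000000,0x1000000000000,0x1000000000000],[⟨0,1,true⟩,⟨0,2,false⟩,⟨1,2,true⟩],[],0⟩)) (Tr.leaf ⟨[0x10000000000,0x200000000000,0x1000000000000],[],[],0⟩)) (Tr.br (Tr.leaf ⟨[0x400000,0x400000,0x2000000],[⟨0,1,false⟩,⟨0,2,true⟩,⟨1,2,false⟩],[],0⟩) (Tr.leaf ⟨[0x80000000000,0x80000000000,0x400000000000],[⟨0,1,true⟩,⟨0,2,true⟩,⟨1,2,false⟩],[],0⟩))) (Tr.br (Tr.br (Tr.br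 (Tr.leaf ⟨[0x200000,0x200000,0x400000],[⟨0,1,false⟩,⟨0,2,true⟩,⟨1,2,false⟩],[],0⟩) (Tr.leaf ⟨[0x1000000000000,0x1000000000000,0x2000000000000],[⟨0,1,true⟩,⟨0,2,true⟩,⟨1,2,false⟩],[],0⟩)) (Tr.leaf ⟨[0x20000000000,0x400000000000,0x2000000000000],[⟨0,1,true⟩,⟨0,2,true⟩,⟨1,2,true⟩],[],0⟩)) (Tr.br (Tr.leaf ⟨[0x8000000000,0x80000000000,0x800000000000],[],[],0⟩) (Tr.leaf ⟨[0x80000000000,0x1000000000000,0x2000000000000],[⟨0,1,false⟩,⟨0,2,true⟩,⟨1,2,true⟩],[],0⟩)))))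
)
)
 (Tr.br (Tr.br (Tr.br (Tr.br (Tr.br (Tr.br (Tr.br (Tr.leaf ⟨[1,1,1,1,1],[⟨0,1,false⟩,⟨0,2,false⟩,⟨0,3,false⟩,⟨0,4,false⟩,⟨1,2,false⟩,⟨1,3,false⟩,⟨1,4,false⟩,⟨2,3,true⟩,⟨2,4,false⟩,⟨3,4,true⟩],[],0⟩) (Tr.leaf ⟨[0x100000000000,0x200000000000,0x800000000000],[],[],0⟩)) (Tr.leaf ⟨[0x8000000000,0x200000000000,0x800000000000],[],[],0⟩)) (Tr.br (Tr.leaf ⟨[0x200000,0x200000,0x2000000],[⟨0,1,false⟩,⟨0,2,true⟩,⟨1,2,false⟩],[],0⟩) (Tr.leaf ⟨[0x40000000000,0x80000000000,0x400000000000],[],[],0⟩))) (Tr.br (Tr.br (Tr.br (Tr.leaf ⟨[0x100000,0x200000,0x800000],[],[],0⟩) (Tr.leaf ⟨[0x400000000000,0x400000000000,0x800000000000],[⟨0,1,true⟩,⟨0,2,true⟩,⟨1,2,false⟩],[],0⟩)) (Tr.leaf ⟨[0x10000000000,0x800000000000,0x800000000000],[⟨0,1,true⟩,⟨0,2,true⟩,⟨1,2,true⟩],[],0⟩))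 (Tr.br (Tr.leaf ⟨[0x400000,0x800000,0x2000000],[],[],0⟩) (Tr.leaf ⟨[0x80000000000,0x80000000000,0x2000000000000],[⟨0,1,true⟩,⟨0,2,true⟩,⟨1,2,false⟩],[],0⟩)))) (Tr.br (Tr.br (Tr.br (Tr.br (Tr.leaf ⟨[0x80000],[],[],0⟩) (Tr.leaf ⟨[0x200000000000,0x200000000000,0x2000000000000],[⟨0,1,true⟩,⟨0,2,true⟩,⟨1,2,false⟩],[],0⟩)) (Tr.leaf ⟨[0x10000000000,0x80000000000,0x400000000000],[],[],0⟩)) (Tr.br (Tr.leaf ⟨[0x200000,0x1000000,0x1000000],[⟨0,1,true⟩,⟨0,2,false⟩,⟨1,2,false⟩],[],0⟩) (Tr.leaf ⟨[0x40000000000,0x400000000000,0x800000000000],[],[],0⟩))) (Tr.br (Tr.br (Tr.br (Tr.leaf ⟨[0x100000,0x800000,0x1000000],[],[],0⟩) (Tr.leaf ⟨[0x800000000000,0x800000000000,0x1000000000000],[⟨0,1,true⟩,⟨0,2,true⟩,⟨1,2,false⟩],[],0⟩))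 (Tr.leaf ⟨[0x20000000000,0x200000000000,0x800000000000],[],[],0⟩)) (Tr.br (Tr.leaf ⟨[0x800000,0x2000000,0x2000000],[⟨0,1,true⟩,⟨0,2,false⟩,⟨1,2,false⟩],[],0⟩) (Tr.leaf ⟨[0x80000000000,0x400000000000,0x400000000000],[⟨0,1,true⟩,⟨0,2,false⟩,⟨1,2,true⟩],[],0⟩)))))
 (Tr.br (Tr.br (Tr.br (Tr.br (Tr.br (Tr.leaf ⟨[32768],[],[],0⟩) (Tr.leaf ⟨[0x100000000000,0x800000000000,0x1000000000000],[],[],0⟩)) (Tr.leaf ⟨[0x8000000000,0x800000000000,0x1000000000000],[⟨0,1,true⟩,⟨0,2,true⟩,⟨1,2,true⟩],[],0⟩)) (Tr.br (Tr.leaf ⟨[0x200000,0x400000,0x2000000],[],[],0⟩) (Tr.leaf ⟨[0x40000000000,0x200000000000,0x400000000000],[⟨0,1,true⟩,⟨0,2,true⟩,⟨1,2,true⟩],[],0⟩))) (Tr.br (Tr.br (Tr.br (Tr.leaf ⟨[0x100000,0x400000,0x800000],[],[],0⟩)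 (Tr.leaf ⟨[0x400000000000,0x800000000000,0x2000000000000],[⟨0,1,false⟩,⟨0,2,true⟩,⟨1,2,true⟩],[],0⟩)) (Tr.leaf ⟨[0x20000000000,0x80000000000,0x400000000000],[⟨0,1,true⟩,⟨0,2,true⟩,⟨1,2,true⟩],[],0⟩)) (Tr.br (Tr.leaf ⟨[0x800000,0x800000,0x1000000],[⟨0,1,false⟩,⟨0,2,true⟩,⟨1,2,false⟩],[],0⟩) (Tr.leaf ⟨[0x80000000000,0x100000000000,0x1000000000000],[⟨0,1,true⟩,⟨0,2,true⟩,⟨1,2,true⟩],[],0⟩)))) (Tr.br (Tr.br (Tr.br (Tr.br (Tr.leaf ⟨[0x100000,0x100000,0x1000000],[⟨0,1,false⟩,⟨0,2,true⟩,⟨1,2,false⟩],[],0⟩) (Tr.leaf ⟨[0x200000000000,0x800000000000,0x2000000000000],[⟨0,1,false⟩,⟨0,2,true⟩,⟨1,2,true⟩],[],0⟩)) (Tr.leaf ⟨[0x10000000000,0x200000000000,0x800000000000],[⟨0,1,true⟩,⟨0,2,true⟩,⟨1,2,true⟩],[],0⟩))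 (Tr.br (Tr.leaf ⟨[0x400000,0x400000,0x1000000],[⟨0,1,false⟩,⟨0,2,true⟩,⟨1,2,false⟩],[],0⟩) (Tr.leaf ⟨[0x80000000000,0x80000000000,0x200000000000],[⟨0,1,true⟩,⟨0,2,true⟩,⟨1,2,false⟩],[],0⟩))) (Tr.br (Tr.br (Tr.br (Tr.leaf ⟨[0x100000,0x2000000,0x2000000],[⟨0,1,true⟩,⟨0,2,false⟩,⟨1,2,false⟩],[],0⟩) (Tr.leaf ⟨[0x800000000000,0x2000000000000,0x2000000000000],[⟨0,1,true⟩,⟨0,2,false⟩,⟨1,2,true⟩],[],0⟩)) (Tr.leaf ⟨[0x20000000000,0x400000000000,0x1000000000000],[⟨0,1,true⟩,⟨0,2,true⟩,⟨1,2,true⟩],[],0⟩)) (Tr.br (Tr.leaf ⟨[0x8000000000,0x80000000000,0x400000000000],[],[],0⟩) (Tr.leaf ⟨[0x80000000000,0x1000000000000,0x1000000000000],[⟨0,1,true⟩,⟨0,2,false⟩,⟨1,2,true⟩],[],0⟩)))))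
)
 (Tr.br (Tr.br (Tr.br (Tr.br (Tr.br (Tr.br (Tr.leaf ⟨[1,1,1,1,1],[⟨0,1,true⟩,⟨0,2,true⟩,⟨0,3,true⟩,⟨0,4,true⟩,⟨1,2,true⟩,⟨1,3,true⟩,⟨1,4,true⟩,⟨2,3,true⟩,⟨2,4,true⟩,⟨3,4,true⟩],[],0⟩) (Tr.leaf ⟨[0x100000000000,0x400000000000,0x800000000000],[],[],0⟩)) (Tr.leaf ⟨[0x8000000000,0x400000000000,0x800000000000],[],[],0⟩)) (Tr.br (Tr.leaf ⟨[0x200000,0x400000,0x800000],[],[],0⟩) (Tr.leaf ⟨[0x40000000000,0x80000000000,0x1000000000000],[],[],0⟩))) (Tr.br (Tr.br (Tr.br (Tr.leaf ⟨[0x100000,0x200000,0x2000000],[],[],0⟩) (Tr.leaf ⟨[0x400000000000,0x400000000000,0x2000000000000],[⟨0,1,true⟩,⟨0,2,true⟩,⟨1,2,false⟩],[],0⟩)) (Tr.leaf ⟨[0x10000000000,0x800000000000,0x2000000000000],[⟨0,1,true⟩,⟨0,2,true⟩,⟨1,2,true⟩],[],0⟩))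 (Tr.br (Tr.leaf ⟨[0x400000,0x1000000,0x2000000],[],[],0⟩) (Tr.leaf ⟨[0x80000000000,0x100000000000,0x400000000000],[⟨0,1,true⟩,⟨0,2,true⟩,⟨1,2,true⟩],[],0⟩)))) (Tr.br (Tr.br (Tr.br (Tr.br (Tr.leaf ⟨[0x100000,0x100000,0x400000],[⟨0,1,false⟩,⟨0,2,true⟩,⟨1,2,false⟩],[],0⟩) (Tr.leaf ⟨[0x200000000000,0x400000000000,0x2000000000000],[⟨0,1,false⟩,⟨0,2,true⟩,⟨1,2,true⟩],[],0⟩)) (Tr.leaf ⟨[0x10000000000,0x80000000000,0x1000000000000],[],[],0⟩)) (Tr.br (Tr.leaf ⟨[0x200000,0x2000000,0x2000000],[⟨0,1,true⟩,⟨0,2,false⟩,⟨1,2,false⟩],[],0⟩) (Tr.leaf ⟨[0x40000000000,0x800000000000,0x1000000000000],[],[],0⟩))) (Tr.br (Tr.br (Tr.br (Tr.leaf ⟨[0x100000,0x1000000,0x1000000],[⟨0,1,true⟩,⟨0,2,false⟩,⟨1,2,false⟩],[],0⟩)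 (Tr.leaf ⟨[0x800000000000,0x1000000000000,0x1000000000000],[⟨0,1,true⟩,⟨0,2,false⟩,⟨1,2,true⟩],[],0⟩)) (Tr.leaf ⟨[0x20000000000,0x400000000000,0x400000000000],[⟨0,1,true⟩,⟨0,2,true⟩,⟨1,2,true⟩],[],0⟩)) (Tr.br (Tr.leaf ⟨[0x1000000,0x2000000,0x2000000],[⟨0,1,true⟩,⟨0,2,false⟩,⟨1,2,false⟩],[],0⟩) (Tr.leaf ⟨[0x80000000000,0x800000000000,0x800000000000],[⟨0,1,true⟩,⟨0,2,false⟩,⟨1,2,true⟩],[],0⟩)))))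
 (Tr.br (Tr.br (Tr.br (Tr.br (Tr.br (Tr.leaf ⟨[0x20000],[],[],0⟩) (Tr.leaf ⟨[0x200000000000,0x200000000000,0x800000000000],[⟨0,1,true⟩,⟨0,2,true⟩,⟨1,2,false⟩],[],0⟩)) (Tr.leaf ⟨[0x8000000000,0x1000000000000,0x2000000000000],[⟨0,1,true⟩,⟨0,2,true⟩,⟨1,2,true⟩],[],0⟩)) (Tr.br (Tr.leaf ⟨[0x200000,0x800000,0x1000000],[],[],0⟩) (Tr.leaf ⟨[0x40000000000,0x200000000000,0x1000000000000],[⟨0,1,true⟩,⟨0,2,true⟩,⟨1,2,true⟩],[],0⟩))) (Tr.br (Tr.br (Tr.br (Tr.leaf ⟨[0x100000,0x400000,0x2000000],[],[],0⟩) (Tr.leaf ⟨[0x400000000000,0x1000000000000,0x2000000000000],[⟨0,1,false⟩,⟨0,2,true⟩,⟨1,2,true⟩],[],0⟩)) (Tr.leaf ⟨[0x20000000000,0x80000000000,0x1000000000000],[],[],0⟩)) (Tr.br (Tr.leaf ⟨[0x800000,0x1000000,0x1000000],[⟨0,1,true⟩,⟨0,2,false⟩,⟨1,2,false⟩],[],0⟩)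 (Tr.leaf ⟨[0x80000000000,0x200000000000,0x200000000000],[⟨0,1,true⟩,⟨0,2,false⟩,⟨1,2,true⟩],[],0⟩)))) (Tr.br (Tr.br (Tr.br (Tr.br (Tr.leaf ⟨[0x100000,0x200000,0x200000],[⟨0,1,true⟩,⟨0,2,false⟩,⟨1,2,false⟩],[],0⟩) (Tr.leaf ⟨[0x200000000000,0x1000000000000,0x2000000000000],[⟨0,1,false⟩,⟨0,2,true⟩,⟨1,2,true⟩],[],0⟩)) (Tr.leaf ⟨[0x10000000000,0x400000000000,0x800000000000],[⟨0,1,true⟩,⟨0,2,true⟩,⟨1,2,true⟩],[],0⟩)) (Tr.br (Tr.leaf ⟨[0x400000,0x800000,0x800000],[⟨0,1,true⟩,⟨0,2,false⟩,⟨1,2,false⟩],[],0⟩) (Tr.leaf ⟨[0x80000000000,0x80000000000,0x800000000000],[⟨0,1,true⟩,⟨0,2,true⟩,⟨1,2,false⟩],[],0⟩))) (Tr.br (Tr.br (Tr.br (Tr.leaf ⟨[0x200000,0x200000,0x800000],[⟨0,1,false⟩,⟨0,2,true⟩,⟨1,2,false⟩],[],0⟩)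 (Tr.leaf ⟨[0x1000000000000,0x2000000000000,0x2000000000000],[⟨0,1,true⟩,⟨0,2,false⟩,⟨1,2,true⟩],[],0⟩)) (Tr.leaf ⟨[0x20000000000,0x800000000000,0x1000000000000],[],[],0⟩)) (Tr.br (Tr.leaf ⟨[0x8000000000,0x80000000000,0x1000000000000],[⟨0,1,true⟩,⟨0,2,true⟩,⟨1,2,true⟩],[],0⟩) (Tr.leaf ⟨[0x80000000000,0x2000000000000,0x2000000000000],[⟨0,1,true⟩,⟨0,2,false⟩,⟨1,2,true⟩],[],0⟩)))))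
)
)
)

noncomputable def h_sc : Tr Sc := (Tr.leaf ⟨[],[]⟩)
noncomputable def h_T : Tab := ⟨50,h_ty,h_ev,h_ax,h_sc⟩
def h_S0 : St := ⟨0,0,0,0,0⟩
def h_G0 : Ctx := ⟨1,0,7,0,0,h_S0,none⟩
def h_S1 : St := ⟨5,0x100000000000040000000000010000000000004000000000001,0,0xf000000000000000000000000000000170000000000000000000000000000001b0000000000000000000000000000001d0000000000000000000000000000001e,31⟩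
def h_G1 : Ctx := ⟨1,0,3,0,0,h_S1,none⟩
def h_G2 : Ctx := ⟨1,0,15,0,0,h_S0,none⟩
def h_S2 : St := ⟨5,0x100000000000040000000000010000000000004000000000001,0xf000000000000000000000000000000170000000000000000000000000000001b0000000000000000000000000000001d0000000000000000000000000000001e,0,31⟩
def h_G3 : Ctx := ⟨1,0,7,0,0,h_S2,none⟩
def h_G4 : Ctx := ⟨2,0,31,0,0,h_S0,none⟩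
def h_G5 : Ctx := ⟨2,0,31,0,2,h_S0,none⟩
def h_G6 : Ctx := ⟨3,1,7,0,0,h_S2,none⟩
def h_G7 : Ctx := ⟨15,3,7,0,0,h_S2,none⟩
def h_G8 : Ctx := ⟨20,3,999,0,0,h_S2,none⟩
def h_G9 : Ctx := ⟨20,3,999,0,0xf8000,h_S2,none⟩
def h_G10 : Ctx := ⟨26,3,0xfffffffffffffe7,0,0xf8000,h_S2,none⟩
def h_G11 : Ctx := ⟨27,4,3,0,0,h_S1,none⟩
def h_G12 : Ctx := ⟨39,12,3,0,0,h_S1,none⟩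
def h_G13 : Ctx := ⟨50,12,0xfffffffffffffffffffffffff000000000000003,0,0,h_S1,none⟩
def h_h2 : List HP := [⟨[0],[],(HT.br true 0 0 (HT.leaf 5) (HT.leaf 5))⟩]
def h_h8 : List HP := [⟨[0],[],(HT.leaf 4)⟩,⟨[1],[],(HT.leaf 4)⟩,⟨[2],[],(HT.leaf 4)⟩,⟨[3],[],(HT.leaf 4)⟩,⟨[4],[],(HT.leaf 4)⟩]
def h_h10 : List HP := [⟨[0,0,1],[⟨0,1,false⟩,⟨0,2,true⟩,⟨1,2,false⟩],(HT.br true 0 0 (HT.leaf 3) (HT.br true 1 1 (HT.leaf 3) (HT.leaf 3)))⟩,⟨[0,0,1],[⟨0,1,false⟩,⟨0,2,true⟩,⟨1,2,true⟩],(HT.br true 0 0 (HT.leaf 4) (HT.br true 1 1 (HT.leaf 3) (HT.br true 2 2 (HT.leaf 4) (HT.leaf 3))))⟩,⟨[0,0,1],[⟨0,1,true⟩,⟨0,2,true⟩,⟨1,2,true⟩],(HT.br true 0 0 (HT.leaf 4) (HT.br true 1 1 (HT.leaf 4) (HT.br true 2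 2 (HT.leaf 4) (HT.leaf 3))))⟩,⟨[0,0,2],[⟨0,1,false⟩,⟨0,2,true⟩,⟨1,2,false⟩],(HT.br true 0 0 (HT.leaf 3) (HT.br true 1 1 (HT.leaf 3) (HT.leaf 3)))⟩,⟨[0,0,2],[⟨0,1,false⟩,⟨0,2,true⟩,⟨1,2,true⟩],(HT.br true 0 0 (HT.leaf 4) (HT.br true 1 1 (HT.leaf 3) (HT.br true 2 2 (HT.leaf 4) (HT.leaf 3))))⟩,⟨[0,0,2],[⟨0,1,true⟩,⟨0,2,true⟩,⟨1,2,true⟩],(HT.br true 0 0 (HT.leaf 4) (HT.br true 1 1 (HT.leaf 4) (HT.br true 2 2 (HT.leaf 4) (HT.leaf 3))))⟩,⟨[0,0,3],[⟨0,1,false⟩,⟨0,2,true⟩,⟨1,2,false⟩],(HT.br true 0 0 (HT.leaf 3) (HT.br true 1 1 (HT.leaf 3) (HT.leaf 3)))⟩,⟨[0,0,3],[⟨0,1,false⟩,⟨0,2,true⟩,⟨1,2,true⟩],(HT.br true 0 0 (HT.leaf 4) (HT.br true 1 1 (HT.leaf 3) (HT.br true 2 2 (HT.leaf 4) (HT.leaf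 3))))⟩,⟨[0,0,3],[⟨0,1,true⟩,⟨0,2,true⟩,⟨1,2,true⟩],(HT.br true 0 0 (HT.leaf 4) (HT.br true 1 1 (HT.leaf 4) (HT.br true 2 2 (HT.leaf 4) (HT.leaf 3))))⟩,⟨[0,0,4],[⟨0,1,false⟩,⟨0,2,true⟩,⟨1,2,false⟩],(HT.br true 0 0 (HT.leaf 3) (HT.br true 1 1 (HT.leaf 3) (HT.leaf 3)))⟩,⟨[0,0,4],[⟨0,1,false⟩,⟨0,2,true⟩,⟨1,2,true⟩],(HT.br true 0 0 (HT.leaf 4) (HT.br true 1 1 (HT.leaf 3) (HT.br true 2 2 (HT.leaf 4) (HT.leaf 3))))⟩,⟨[0,0,4],[⟨0,1,true⟩,⟨0,2,true⟩,⟨1,2,true⟩],(HT.br true 0 0 (HT.leaf 4) (HT.br true 1 1 (HT.leaf 4) (HT.br true 2 2 (HT.leaf 4) (HT.leaf 3))))⟩,⟨[0,0,5],[⟨0,1,false⟩,⟨0,2,true⟩,⟨1,2,false⟩],(HT.br true 0 0 (HT.leaf 3) (HT.br true 1 1 (HT.leaf 3) (HT.leaf 3)))⟩,⟨[0,0,5],[⟨0,1,false⟩,⟨0,2,true⟩,⟨1,2,true⟩],(HT.br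 true 0 0 (HT.leaf 4) (HT.br true 1 1 (HT.leaf 3) (HT.br true 2 2 (HT.leaf 4) (HT.leaf 3))))⟩,⟨[0,0,5],[⟨0,1,true⟩,⟨0,2,true⟩,⟨1,2,true⟩],(HT.br true 0 0 (HT.leaf 4) (HT.br true 1 1 (HT.leaf 4) (HT.br true 2 2 (HT.leaf 4) (HT.leaf 3))))⟩,⟨[0,1,1],[⟨0,1,true⟩,⟨0,2,false⟩,⟨1,2,false⟩],(HT.br true 0 0 (HT.leaf 3) (HT.br true 1 1 (HT.leaf 3) (HT.leaf 3)))⟩,⟨[0,1,1],[⟨0,1,true⟩,⟨0,2,true⟩,⟨1,2,false⟩],(HT.br true 0 0 (HT.leaf 4) (HT.br true 1 1 (HT.leaf 3) (HT.leaf 3)))⟩,⟨[0,1,1],[⟨0,1,true⟩,⟨0,2,true⟩,⟨1,2,true⟩],(HT.br true 0 0 (HT.leaf 4) (HT.br true 1 1 (HT.leaf 3) (HT.leaf 3)))⟩,⟨[0,1,2],[],(HT.br true 0 0 (HT.leaf 4) (HT.br true 1 1 (HT.leaf 4) (HT.br true 2 2 (HT.leaf 4) (HT.br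 false 0 1 (HT.leaf 3) (HT.leaf 3)))))⟩,⟨[0,1,3],[],(HT.br true 0 0 (HT.leaf 4) (HT.br true 1 1 (HT.leaf 4) (HT.br true 2 2 (HT.leaf 4) (HT.br false 0 1 (HT.leaf 3) (HT.leaf 3)))))⟩,⟨[0,1,4],[],(HT.br true 0 0 (HT.leaf 4) (HT.br true 1 1 (HT.leaf 4) (HT.br true 2 2 (HT.leaf 4) (HT.br false 0 1 (HT.leaf 3) (HT.leaf 3)))))⟩,⟨[0,1,5],[],(HT.br true 0 0 (HT.leaf 4) (HT.br true 1 1 (HT.leaf 4) (HT.br true 2 2 (HT.leaf 4) (HT.br false 0 1 (HT.leaf 3) (HT.leaf 3)))))⟩,⟨[0,2,2],[⟨0,1,true⟩,⟨0,2,false⟩,⟨1,2,false⟩],(HT.br true 0 0 (HT.leaf 3) (HT.br true 1 1 (HT.leaf 3) (HT.leaf 3)))⟩,⟨[0,2,2],[⟨0,1,true⟩,⟨0,2,true⟩,⟨1,2,false⟩],(HT.br true 0 0 (HT.leaf 4) (HT.br true 1 1 (HT.leaf 3) (HT.leaf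 3)))⟩,⟨[0,2,2],[⟨0,1,true⟩,⟨0,2,true⟩,⟨1,2,true⟩],(HT.br true 0 0 (HT.leaf 4) (HT.br true 1 1 (HT.leaf 3) (HT.leaf 3)))⟩,⟨[0,2,3],[],(HT.br true 0 0 (HT.leaf 4) (HT.br true 1 1 (HT.leaf 4) (HT.br true 2 2 (HT.leaf 4) (HT.br false 0 1 (HT.leaf 3) (HT.leaf 3)))))⟩,⟨[0,2,4],[],(HT.br true 0 0 (HT.leaf 4) (HT.br true 1 1 (HT.leaf 4) (HT.br true 2 2 (HT.leaf 4) (HT.br false 0 1 (HT.leaf 3) (HT.leaf 3)))))⟩,⟨[0,2,5],[],(HT.br true 0 0 (HT.leaf 4) (HT.br true 1 1 (HT.leaf 4) (HT.br true 2 2 (HT.leaf 4) (HT.br false 0 1 (HT.leaf 3) (HT.leaf 3)))))⟩,⟨[0,3,3],[⟨0,1,true⟩,⟨0,2,false⟩,⟨1,2,false⟩],(HT.br true 0 0 (HT.leaf 3) (HT.br true 1 1 (HT.leaf 3) (HT.leaf 3)))⟩,⟨[0,3,3],[⟨0,1,true⟩,⟨0,2,true⟩,⟨1,2,false⟩],(HT.br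 true 0 0 (HT.leaf 4) (HT.br true 1 1 (HT.leaf 3) (HT.leaf 3)))⟩,⟨[0,3,3],[⟨0,1,true⟩,⟨0,2,true⟩,⟨1,2,true⟩],(HT.br true 0 0 (HT.leaf 4) (HT.br true 1 1 (HT.leaf 3) (HT.leaf 3)))⟩,⟨[0,3,4],[],(HT.br true 0 0 (HT.leaf 4) (HT.br true 1 1 (HT.leaf 4) (HT.br true 2 2 (HT.leaf 4) (HT.br false 0 1 (HT.leaf 3) (HT.leaf 3)))))⟩,⟨[0,3,5],[],(HT.br true 0 0 (HT.leaf 4) (HT.br true 1 1 (HT.leaf 4) (HT.br true 2 2 (HT.leaf 4) (HT.br false 0 1 (HT.leaf 3) (HT.leaf 3)))))⟩,⟨[0,4,4],[⟨0,1,true⟩,⟨0,2,false⟩,⟨1,2,false⟩],(HT.br true 0 0 (HT.leaf 3) (HT.br true 1 1 (HT.leaf 3) (HT.leaf 3)))⟩,⟨[0,4,4],[⟨0,1,true⟩,⟨0,2,true⟩,⟨1,2,false⟩],(HT.br true 0 0 (HT.leaf 4) (HT.br true 1 1 (HT.leaf 3) (HT.leaf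 3)))⟩,⟨[0,4,4],[⟨0,1,true⟩,⟨0,2,true⟩,⟨1,2,true⟩],(HT.br true 0 0 (HT.leaf 4) (HT.br true 1 1 (HT.leaf 3) (HT.leaf 3)))⟩,⟨[0,4,5],[],(HT.br true 0 0 (HT.leaf 4) (HT.br true 1 1 (HT.leaf 4) (HT.br true 2 2 (HT.leaf 4) (HT.br false 0 1 (HT.leaf 3) (HT.leaf 3)))))⟩,⟨[0,5,5],[⟨0,1,true⟩,⟨0,2,false⟩,⟨1,2,false⟩],(HT.br true 0 0 (HT.leaf 3) (HT.br true 1 1 (HT.leaf 3) (HT.leaf 3)))⟩,⟨[0,5,5],[⟨0,1,true⟩,⟨0,2,true⟩,⟨1,2,false⟩],(HT.br true 0 0 (HT.leaf 4) (HT.br true 1 1 (HT.leaf 3) (HT.leaf 3)))⟩,⟨[0,5,5],[⟨0,1,true⟩,⟨0,2,true⟩,⟨1,2,true⟩],(HT.br true 0 0 (HT.leaf 4) (HT.br true 1 1 (HT.leaf 3) (HT.leaf 3)))⟩,⟨[1,1,2],[⟨0,1,false⟩,⟨0,2,true⟩,⟨1,2,false⟩],(HT.br true 0 0 (HT.leaf 3) (HT.leaf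 3))⟩,⟨[1,1,2],[⟨0,1,false⟩,⟨0,2,true⟩,⟨1,2,true⟩],(HT.br true 0 0 (HT.leaf 4) (HT.br true 1 1 (HT.leaf 3) (HT.leaf 4)))⟩,⟨[1,1,2],[⟨0,1,true⟩,⟨0,2,true⟩,⟨1,2,true⟩],(HT.br true 0 0 (HT.leaf 4) (HT.br true 1 1 (HT.leaf 4) (HT.leaf 4)))⟩,⟨[1,1,3],[⟨0,1,false⟩,⟨0,2,true⟩,⟨1,2,false⟩],(HT.br true 0 0 (HT.leaf 3) (HT.leaf 3))⟩,⟨[1,1,3],[⟨0,1,false⟩,⟨0,2,true⟩,⟨1,2,true⟩],(HT.br true 0 0 (HT.leaf 4) (HT.br true 1 1 (HT.leaf 3) (HT.leaf 4)))⟩,⟨[1,1,3],[⟨0,1,true⟩,⟨0,2,true⟩,⟨1,2,true⟩],(HT.br true 0 0 (HT.leaf 4) (HT.br true 1 1 (HT.leaf 4) (HT.leaf 4)))⟩,⟨[1,1,4],[⟨0,1,false⟩,⟨0,2,true⟩,⟨1,2,false⟩],(HT.br true 0 0 (HT.leaf 3) (HT.leaf 3))⟩,⟨[1,1,4],[⟨0,1,false⟩,⟨0,2,true⟩,⟨1,2,true⟩],(HT.br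 true 0 0 (HT.leaf 4) (HT.br true 1 1 (HT.leaf 3) (HT.leaf 4)))⟩,⟨[1,1,4],[⟨0,1,true⟩,⟨0,2,true⟩,⟨1,2,true⟩],(HT.br true 0 0 (HT.leaf 4) (HT.br true 1 1 (HT.leaf 4) (HT.leaf 4)))⟩,⟨[1,1,5],[⟨0,1,false⟩,⟨0,2,true⟩,⟨1,2,false⟩],(HT.br true 0 0 (HT.leaf 3) (HT.leaf 3))⟩,⟨[1,1,5],[⟨0,1,false⟩,⟨0,2,true⟩,⟨1,2,true⟩],(HT.br true 0 0 (HT.leaf 4) (HT.br true 1 1 (HT.leaf 3) (HT.leaf 4)))⟩,⟨[1,1,5],[⟨0,1,true⟩,⟨0,2,true⟩,⟨1,2,true⟩],(HT.br true 0 0 (HT.leaf 4) (HT.br true 1 1 (HT.leaf 4) (HT.leaf 4)))⟩,⟨[1,2,2],[⟨0,1,true⟩,⟨0,2,false⟩,⟨1,2,false⟩],(HT.br true 0 0 (HT.leaf 3) (HT.leaf 3))⟩,⟨[1,2,2],[⟨0,1,true⟩,⟨0,2,true⟩,⟨1,2,false⟩],(HT.br true 0 0 (HT.leaf 4) (HT.leaf 3))⟩,⟨[1,2,2],[⟨0,1,true⟩,⟨0,2,true⟩,⟨1,2,true⟩],(HT.br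 true 0 0 (HT.leaf 4) (HT.leaf 3))⟩,⟨[1,2,3],[],(HT.br true 0 0 (HT.leaf 4) (HT.br true 1 1 (HT.leaf 4) (HT.br true 2 2 (HT.leaf 4) (HT.br false 0 1 (HT.leaf 3) (HT.leaf 3)))))⟩,⟨[1,2,4],[],(HT.br true 0 0 (HT.leaf 4) (HT.br true 1 1 (HT.leaf 4) (HT.br true 2 2 (HT.leaf 4) (HT.br false 0 1 (HT.leaf 3) (HT.leaf 3)))))⟩,⟨[1,2,5],[],(HT.br true 0 0 (HT.leaf 4) (HT.br true 1 1 (HT.leaf 4) (HT.br true 2 2 (HT.leaf 4) (HT.br false 0 1 (HT.leaf 3) (HT.leaf 3)))))⟩,⟨[1,3,3],[⟨0,1,true⟩,⟨0,2,false⟩,⟨1,2,false⟩],(HT.br true 0 0 (HT.leaf 3) (HT.leaf 3))⟩,⟨[1,3,3],[⟨0,1,true⟩,⟨0,2,true⟩,⟨1,2,false⟩],(HT.br true 0 0 (HT.leaf 4) (HT.leaf 3))⟩,⟨[1,3,3],[⟨0,1,true⟩,⟨0,2,true⟩,⟨1,2,true⟩],(HT.br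 true 0 0 (HT.leaf 4) (HT.leaf 3))⟩,⟨[1,3,4],[],(HT.br true 0 0 (HT.leaf 4) (HT.br true 1 1 (HT.leaf 4) (HT.br true 2 2 (HT.leaf 4) (HT.br false 0 1 (HT.leaf 3) (HT.leaf 3)))))⟩,⟨[1,3,5],[],(HT.br true 0 0 (HT.leaf 4) (HT.br true 1 1 (HT.leaf 4) (HT.br true 2 2 (HT.leaf 4) (HT.br false 0 1 (HT.leaf 3) (HT.leaf 3)))))⟩,⟨[1,4,4],[⟨0,1,true⟩,⟨0,2,false⟩,⟨1,2,false⟩],(HT.br true 0 0 (HT.leaf 3) (HT.leaf 3))⟩,⟨[1,4,4],[⟨0,1,true⟩,⟨0,2,true⟩,⟨1,2,false⟩],(HT.br true 0 0 (HT.leaf 4) (HT.leaf 3))⟩,⟨[1,4,4],[⟨0,1,true⟩,⟨0,2,true⟩,⟨1,2,true⟩],(HT.br true 0 0 (HT.leaf 4) (HT.leaf 3))⟩,⟨[1,4,5],[],(HT.br true 0 0 (HT.leaf 4) (HT.br true 1 1 (HT.leaf 4) (HT.br true 2 2 (HT.leaf 4) (HT.br false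 0 1 (HT.leaf 3) (HT.leaf 3)))))⟩,⟨[1,5,5],[⟨0,1,true⟩,⟨0,2,false⟩,⟨1,2,false⟩],(HT.br true 0 0 (HT.leaf 3) (HT.leaf 3))⟩,⟨[1,5,5],[⟨0,1,true⟩,⟨0,2,true⟩,⟨1,2,false⟩],(HT.br true 0 0 (HT.leaf 4) (HT.leaf 3))⟩,⟨[1,5,5],[⟨0,1,true⟩,⟨0,2,true⟩,⟨1,2,true⟩],(HT.br true 0 0 (HT.leaf 4) (HT.leaf 3))⟩,⟨[2,2,3],[⟨0,1,false⟩,⟨0,2,true⟩,⟨1,2,false⟩],(HT.br true 0 0 (HT.leaf 3) (HT.leaf 3))⟩,⟨[2,2,3],[⟨0,1,false⟩,⟨0,2,true⟩,⟨1,2,true⟩],(HT.br true 0 0 (HT.leaf 4) (HT.br true 1 1 (HT.leaf 3) (HT.leaf 4)))⟩,⟨[2,2,3],[⟨0,1,true⟩,⟨0,2,true⟩,⟨1,2,true⟩],(HT.br true 0 0 (HT.leaf 4) (HT.br true 1 1 (HT.leaf 4) (HT.leaf 4)))⟩,⟨[2,2,4],[⟨0,1,false⟩,⟨0,2,true⟩,⟨1,2,false⟩],(HT.br true 0 0 (HT.leaf 3)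 (HT.leaf 3))⟩,⟨[2,2,4],[⟨0,1,false⟩,⟨0,2,true⟩,⟨1,2,true⟩],(HT.br true 0 0 (HT.leaf 4) (HT.br true 1 1 (HT.leaf 3) (HT.leaf 4)))⟩,⟨[2,2,4],[⟨0,1,true⟩,⟨0,2,true⟩,⟨1,2,true⟩],(HT.br true 0 0 (HT.leaf 4) (HT.br true 1 1 (HT.leaf 4) (HT.leaf 4)))⟩,⟨[2,2,5],[⟨0,1,false⟩,⟨0,2,true⟩,⟨1,2,false⟩],(HT.br true 0 0 (HT.leaf 3) (HT.leaf 3))⟩,⟨[2,2,5],[⟨0,1,false⟩,⟨0,2,true⟩,⟨1,2,true⟩],(HT.br true 0 0 (HT.leaf 4) (HT.br true 1 1 (HT.leaf 3) (HT.leaf 4)))⟩,⟨[2,2,5],[⟨0,1,true⟩,⟨0,2,true⟩,⟨1,2,true⟩],(HT.br true 0 0 (HT.leaf 4) (HT.br true 1 1 (HT.leaf 4) (HT.leaf 4)))⟩,⟨[2,3,3],[⟨0,1,true⟩,⟨0,2,false⟩,⟨1,2,false⟩],(HT.br true 0 0 (HT.leaf 3) (HT.leaf 3))⟩,⟨[2,3,3],[⟨0,1,true⟩,⟨0,2,true⟩,⟨1,2,false⟩],(HT.br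 true 0 0 (HT.leaf 4) (HT.leaf 3))⟩,⟨[2,3,3],[⟨0,1,true⟩,⟨0,2,true⟩,⟨1,2,true⟩],(HT.br true 0 0 (HT.leaf 4) (HT.leaf 3))⟩,⟨[2,3,4],[],(HT.br true 0 0 (HT.leaf 4) (HT.br true 1 1 (HT.leaf 4) (HT.br true 2 2 (HT.leaf 4) (HT.br false 0 1 (HT.leaf 3) (HT.leaf 3)))))⟩,⟨[2,3,5],[],(HT.br true 0 0 (HT.leaf 4) (HT.br true 1 1 (HT.leaf 4) (HT.br true 2 2 (HT.leaf 4) (HT.br false 0 1 (HT.leaf 3) (HT.leaf 3)))))⟩,⟨[2,4,4],[⟨0,1,true⟩,⟨0,2,false⟩,⟨1,2,false⟩],(HT.br true 0 0 (HT.leaf 3) (HT.leaf 3))⟩,⟨[2,4,4],[⟨0,1,true⟩,⟨0,2,true⟩,⟨1,2,false⟩],(HT.br true 0 0 (HT.leaf 4) (HT.leaf 3))⟩,⟨[2,4,4],[⟨0,1,true⟩,⟨0,2,true⟩,⟨1,2,true⟩],(HT.br true 0 0 (HT.leaf 4) (HT.leaf 3))⟩,⟨[2,4,5],[],(HT.br true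 0 0 (HT.leaf 4) (HT.br true 1 1 (HT.leaf 4) (HT.br true 2 2 (HT.leaf 4) (HT.br false 0 1 (HT.leaf 3) (HT.leaf 3)))))⟩,⟨[2,5,5],[⟨0,1,true⟩,⟨0,2,false⟩,⟨1,2,false⟩],(HT.br true 0 0 (HT.leaf 3) (HT.leaf 3))⟩,⟨[2,5,5],[⟨0,1,true⟩,⟨0,2,true⟩,⟨1,2,false⟩],(HT.br true 0 0 (HT.leaf 4) (HT.leaf 3))⟩,⟨[2,5,5],[⟨0,1,true⟩,⟨0,2,true⟩,⟨1,2,true⟩],(HT.br true 0 0 (HT.leaf 4) (HT.leaf 3))⟩,⟨[3,3,4],[⟨0,1,false⟩,⟨0,2,true⟩,⟨1,2,false⟩],(HT.br true 0 0 (HT.leaf 3) (HT.leaf 3))⟩,⟨[3,3,4],[⟨0,1,false⟩,⟨0,2,true⟩,⟨1,2,true⟩],(HT.br true 0 0 (HT.leaf 4) (HT.br true 1 1 (HT.leaf 3) (HT.leaf 4)))⟩,⟨[3,3,4],[⟨0,1,true⟩,⟨0,2,true⟩,⟨1,2,true⟩],(HT.br true 0 0 (HT.leaf 4) (HT.br true 1 1 (HT.leaf 4) (HT.leaf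 4)))⟩,⟨[3,3,5],[⟨0,1,false⟩,⟨0,2,true⟩,⟨1,2,false⟩],(HT.br true 0 0 (HT.leaf 3) (HT.leaf 3))⟩,⟨[3,3,5],[⟨0,1,false⟩,⟨0,2,true⟩,⟨1,2,true⟩],(HT.br true 0 0 (HT.leaf 4) (HT.br true 1 1 (HT.leaf 3) (HT.leaf 4)))⟩,⟨[3,3,5],[⟨0,1,true⟩,⟨0,2,true⟩,⟨1,2,true⟩],(HT.br true 0 0 (HT.leaf 4) (HT.br true 1 1 (HT.leaf 4) (HT.leaf 4)))⟩,⟨[3,4,4],[⟨0,1,true⟩,⟨0,2,false⟩,⟨1,2,false⟩],(HT.br true 0 0 (HT.leaf 3) (HT.leaf 3))⟩,⟨[3,4,4],[⟨0,1,true⟩,⟨0,2,true⟩,⟨1,2,false⟩],(HT.br true 0 0 (HT.leaf 4) (HT.leaf 3))⟩,⟨[3,4,4],[⟨0,1,true⟩,⟨0,2,true⟩,⟨1,2,true⟩],(HT.br true 0 0 (HT.leaf 4) (HT.leaf 3))⟩,⟨[3,4,5],[],(HT.br true 0 0 (HT.leaf 4) (HT.br true 1 1 (HT.leaf 4) (HT.br true 2 2 (HT.leaf 4) (HT.br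 false 0 1 (HT.leaf 3) (HT.leaf 3)))))⟩,⟨[3,5,5],[⟨0,1,true⟩,⟨0,2,false⟩,⟨1,2,false⟩],(HT.br true 0 0 (HT.leaf 3) (HT.leaf 3))⟩,⟨[3,5,5],[⟨0,1,true⟩,⟨0,2,true⟩,⟨1,2,false⟩],(HT.br true 0 0 (HT.leaf 4) (HT.leaf 3))⟩,⟨[3,5,5],[⟨0,1,true⟩,⟨0,2,true⟩,⟨1,2,true⟩],(HT.br true 0 0 (HT.leaf 4) (HT.leaf 3))⟩,⟨[4,4,5],[⟨0,1,false⟩,⟨0,2,true⟩,⟨1,2,false⟩],(HT.br true 0 0 (HT.leaf 3) (HT.leaf 3))⟩,⟨[4,4,5],[⟨0,1,false⟩,⟨0,2,true⟩,⟨1,2,true⟩],(HT.br true 0 0 (HT.leaf 4) (HT.br true 1 1 (HT.leaf 3) (HT.leaf 4)))⟩,⟨[4,4,5],[⟨0,1,true⟩,⟨0,2,true⟩,⟨1,2,true⟩],(HT.br true 0 0 (HT.leaf 4) (HT.br true 1 1 (HT.leaf 4) (HT.leaf 4)))⟩,⟨[4,5,5],[⟨0,1,true⟩,⟨0,2,false⟩,⟨1,2,false⟩],(HT.br true 0 0 (HT.leaf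 3) (HT.leaf 3))⟩,⟨[4,5,5],[⟨0,1,true⟩,⟨0,2,true⟩,⟨1,2,false⟩],(HT.br true 0 0 (HT.leaf 4) (HT.leaf 3))⟩,⟨[4,5,5],[⟨0,1,true⟩,⟨0,2,true⟩,⟨1,2,true⟩],(HT.br true 0 0 (HT.leaf 4) (HT.leaf 3))⟩]
def h_h15 : List HP := [⟨[0,0,10],[⟨0,1,true⟩,⟨0,2,true⟩,⟨1,2,false⟩],(HT.leaf 2)⟩,⟨[0,4,6],[],(HT.leaf 2)⟩,⟨[0,4,7],[],(HT.leaf 2)⟩,⟨[0,4,8],[],(HT.leaf 2)⟩,⟨[0,4,9],[⟨0,1,true⟩,⟨0,2,true⟩,⟨1,2,true⟩],(HT.leaf 2)⟩,⟨[0,4,10],[⟨0,1,true⟩,⟨0,2,true⟩,⟨1,2,false⟩],(HT.leaf 2)⟩,⟨[0,4,10],[⟨0,1,true⟩,⟨0,2,false⟩,⟨1,2,true⟩],(HT.leaf 2)⟩,⟨[0,6,7],[],(HT.leaf 2)⟩,⟨[0,6,8],[],(HT.leaf 2)⟩,⟨[0,6,9],[⟨0,1,true⟩,⟨0,2,true⟩,⟨1,2,true⟩],(HT.leaf 2)⟩,⟨[0,6,10],[⟨0,1,true⟩,⟨0,2,true⟩,⟨1,2,false⟩],(HT.leaf 2)⟩,⟨[0,6,10],[⟨0,1,true⟩,⟨0,2,false⟩,⟨1,2,true⟩],(HT.leaf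 2)⟩,⟨[0,7,8],[],(HT.leaf 2)⟩,⟨[0,7,9],[⟨0,1,true⟩,⟨0,2,true⟩,⟨1,2,true⟩],(HT.leaf 2)⟩,⟨[0,7,10],[⟨0,1,true⟩,⟨0,2,true⟩,⟨1,2,false⟩],(HT.leaf 2)⟩,⟨[0,7,10],[⟨0,1,true⟩,⟨0,2,false⟩,⟨1,2,true⟩],(HT.leaf 2)⟩,⟨[0,8,9],[⟨0,1,true⟩,⟨0,2,true⟩,⟨1,2,true⟩],(HT.leaf 2)⟩,⟨[0,8,10],[⟨0,1,true⟩,⟨0,2,true⟩,⟨1,2,false⟩],(HT.leaf 2)⟩,⟨[0,8,10],[⟨0,1,true⟩,⟨0,2,false⟩,⟨1,2,true⟩],(HT.leaf 2)⟩,⟨[0,9,9],[⟨0,1,true⟩,⟨0,2,true⟩,⟨1,2,true⟩],(HT.br true 0 0 (HT.leaf 2) (HT.br true 1 1 (HT.leaf 3) (HT.leaf 3)))⟩,⟨[0,9,10],[⟨0,1,true⟩,⟨0,2,true⟩,⟨1,2,true⟩],(HT.leaf 3)⟩,⟨[0,10,10],[⟨0,1,true⟩,⟨0,2,false⟩,⟨1,2,true⟩],(HT.leaf 3)⟩,⟨[1,1,10],[⟨0,1,true⟩,⟨0,2,true⟩,⟨1,2,false⟩],(HT.leaf 2)⟩,⟨[1,4,6],[],(HT.leaf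 2)⟩,⟨[1,4,7],[],(HT.leaf 2)⟩,⟨[1,4,8],[⟨0,1,true⟩,⟨0,2,true⟩,⟨1,2,true⟩],(HT.leaf 2)⟩,⟨[1,4,9],[],(HT.leaf 2)⟩,⟨[1,4,10],[⟨0,1,true⟩,⟨0,2,true⟩,⟨1,2,false⟩],(HT.leaf 2)⟩,⟨[1,4,10],[⟨0,1,true⟩,⟨0,2,false⟩,⟨1,2,true⟩],(HT.leaf 2)⟩,⟨[1,6,7],[],(HT.leaf 2)⟩,⟨[1,6,8],[⟨0,1,true⟩,⟨0,2,true⟩,⟨1,2,true⟩],(HT.leaf 2)⟩,⟨[1,6,9],[],(HT.leaf 2)⟩,⟨[1,6,10],[⟨0,1,true⟩,⟨0,2,true⟩,⟨1,2,false⟩],(HT.leaf 2)⟩,⟨[1,6,10],[⟨0,1,true⟩,⟨0,2,false⟩,⟨1,2,true⟩],(HT.leaf 2)⟩,⟨[1,7,8],[⟨0,1,true⟩,⟨0,2,true⟩,⟨1,2,true⟩],(HT.leaf 2)⟩,⟨[1,7,9],[],(HT.leaf 2)⟩,⟨[1,7,10],[⟨0,1,true⟩,⟨0,2,true⟩,⟨1,2,false⟩],(HT.leaf 2)⟩,⟨[1,7,10],[⟨0,1,true⟩,⟨0,2,false⟩,⟨1,2,true⟩],(HT.leaf 2)⟩,⟨[1,8,8],[⟨0,1,true⟩,⟨0,2,true⟩,⟨1,2,true⟩],(HT.br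 true 0 0 (HT.leaf 2) (HT.br true 1 1 (HT.leaf 3) (HT.leaf 3)))⟩,⟨[1,8,9],[⟨0,1,true⟩,⟨0,2,true⟩,⟨1,2,true⟩],(HT.leaf 2)⟩,⟨[1,8,10],[⟨0,1,true⟩,⟨0,2,true⟩,⟨1,2,true⟩],(HT.leaf 3)⟩,⟨[1,9,10],[⟨0,1,true⟩,⟨0,2,true⟩,⟨1,2,false⟩],(HT.leaf 2)⟩,⟨[1,9,10],[⟨0,1,true⟩,⟨0,2,false⟩,⟨1,2,true⟩],(HT.leaf 2)⟩,⟨[1,10,10],[⟨0,1,true⟩,⟨0,2,false⟩,⟨1,2,true⟩],(HT.leaf 3)⟩,⟨[2,2,10],[⟨0,1,true⟩,⟨0,2,true⟩,⟨1,2,false⟩],(HT.leaf 2)⟩,⟨[2,4,6],[],(HT.leaf 2)⟩,⟨[2,4,7],[⟨0,1,true⟩,⟨0,2,true⟩,⟨1,2,true⟩],(HT.leaf 2)⟩,⟨[2,4,8],[],(HT.leaf 2)⟩,⟨[2,4,9],[],(HT.leaf 2)⟩,⟨[2,4,10],[⟨0,1,true⟩,⟨0,2,true⟩,⟨1,2,false⟩],(HT.leaf 2)⟩,⟨[2,4,10],[⟨0,1,true⟩,⟨0,2,false⟩,⟨1,2,true⟩],(HT.leaf 2)⟩,⟨[2,6,7],[⟨0,1,true⟩,⟨0,2,true⟩,⟨1,2,true⟩],(HT.leaf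 2)⟩,⟨[2,6,8],[],(HT.leaf 2)⟩,⟨[2,6,9],[],(HT.leaf 2)⟩,⟨[2,6,10],[⟨0,1,true⟩,⟨0,2,true⟩,⟨1,2,false⟩],(HT.leaf 2)⟩,⟨[2,6,10],[⟨0,1,true⟩,⟨0,2,false⟩,⟨1,2,true⟩],(HT.leaf 2)⟩,⟨[2,7,7],[⟨0,1,true⟩,⟨0,2,true⟩,⟨1,2,true⟩],(HT.br true 0 0 (HT.leaf 2) (HT.br true 1 1 (HT.leaf 3) (HT.leaf 3)))⟩,⟨[2,7,8],[⟨0,1,true⟩,⟨0,2,true⟩,⟨1,2,true⟩],(HT.leaf 2)⟩,⟨[2,7,9],[⟨0,1,true⟩,⟨0,2,true⟩,⟨1,2,true⟩],(HT.leaf 2)⟩,⟨[2,7,10],[⟨0,1,true⟩,⟨0,2,true⟩,⟨1,2,true⟩],(HT.leaf 3)⟩,⟨[2,8,9],[],(HT.leaf 2)⟩,⟨[2,8,10],[⟨0,1,true⟩,⟨0,2,true⟩,⟨1,2,false⟩],(HT.leaf 2)⟩,⟨[2,8,10],[⟨0,1,true⟩,⟨0,2,false⟩,⟨1,2,true⟩],(HT.leaf 2)⟩,⟨[2,9,10],[⟨0,1,true⟩,⟨0,2,true⟩,⟨1,2,false⟩],(HT.leaf 2)⟩,⟨[2,9,10],[⟨0,1,true⟩,⟨0,2,false⟩,⟨1,2,true⟩],(HT.leaf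 2)⟩,⟨[2,10,10],[⟨0,1,true⟩,⟨0,2,false⟩,⟨1,2,true⟩],(HT.leaf 3)⟩,⟨[3,3,10],[⟨0,1,true⟩,⟨0,2,true⟩,⟨1,2,false⟩],(HT.leaf 2)⟩,⟨[3,4,6],[⟨0,1,true⟩,⟨0,2,true⟩,⟨1,2,true⟩],(HT.leaf 2)⟩,⟨[3,4,7],[],(HT.leaf 2)⟩,⟨[3,4,8],[],(HT.leaf 2)⟩,⟨[3,4,9],[],(HT.leaf 2)⟩,⟨[3,4,10],[⟨0,1,true⟩,⟨0,2,true⟩,⟨1,2,false⟩],(HT.leaf 2)⟩,⟨[3,4,10],[⟨0,1,true⟩,⟨0,2,false⟩,⟨1,2,true⟩],(HT.leaf 2)⟩,⟨[3,6,6],[⟨0,1,true⟩,⟨0,2,true⟩,⟨1,2,true⟩],(HT.br true 0 0 (HT.leaf 2) (HT.br true 1 1 (HT.leaf 3) (HT.leaf 3)))⟩,⟨[3,6,7],[⟨0,1,true⟩,⟨0,2,true⟩,⟨1,2,true⟩],(HT.leaf 2)⟩,⟨[3,6,8],[⟨0,1,true⟩,⟨0,2,true⟩,⟨1,2,true⟩],(HT.leaf 2)⟩,⟨[3,6,9],[⟨0,1,true⟩,⟨0,2,true⟩,⟨1,2,true⟩],(HT.leaf 2)⟩,⟨[3,6,10],[⟨0,1,true⟩,⟨0,2,true⟩,⟨1,2,true⟩],(HT.leaf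 3)⟩,⟨[3,7,8],[],(HT.leaf 2)⟩,⟨[3,7,9],[],(HT.leaf 2)⟩,⟨[3,7,10],[⟨0,1,true⟩,⟨0,2,true⟩,⟨1,2,false⟩],(HT.leaf 2)⟩,⟨[3,7,10],[⟨0,1,true⟩,⟨0,2,false⟩,⟨1,2,true⟩],(HT.leaf 2)⟩,⟨[3,8,9],[],(HT.leaf 2)⟩,⟨[3,8,10],[⟨0,1,true⟩,⟨0,2,true⟩,⟨1,2,false⟩],(HT.leaf 2)⟩,⟨[3,8,10],[⟨0,1,true⟩,⟨0,2,false⟩,⟨1,2,true⟩],(HT.leaf 2)⟩,⟨[3,9,10],[⟨0,1,true⟩,⟨0,2,true⟩,⟨1,2,false⟩],(HT.leaf 2)⟩,⟨[3,9,10],[⟨0,1,true⟩,⟨0,2,false⟩,⟨1,2,true⟩],(HT.leaf 2)⟩,⟨[3,10,10],[⟨0,1,true⟩,⟨0,2,false⟩,⟨1,2,true⟩],(HT.leaf 3)⟩,⟨[4,4,5],[⟨0,1,true⟩,⟨0,2,true⟩,⟨1,2,true⟩],(HT.leaf 3)⟩,⟨[4,4,6],[⟨0,1,true⟩,⟨0,2,true⟩,⟨1,2,false⟩],(HT.br true 0 0 (HT.leaf 3) (HT.leaf 3))⟩,⟨[4,4,7],[⟨0,1,true⟩,⟨0,2,true⟩,⟨1,2,false⟩],(HT.br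 true 0 0 (HT.leaf 3) (HT.leaf 3))⟩,⟨[4,4,8],[⟨0,1,true⟩,⟨0,2,true⟩,⟨1,2,false⟩],(HT.br true 0 0 (HT.leaf 3) (HT.leaf 3))⟩,⟨[4,4,9],[⟨0,1,true⟩,⟨0,2,true⟩,⟨1,2,false⟩],(HT.br true 0 0 (HT.leaf 3) (HT.leaf 3))⟩,⟨[4,4,10],[⟨0,1,true⟩,⟨0,2,true⟩,⟨1,2,false⟩],(HT.br true 0 0 (HT.leaf 3) (HT.leaf 3))⟩,⟨[4,5,6],[⟨0,1,true⟩,⟨0,2,true⟩,⟨1,2,true⟩],(HT.leaf 2)⟩,⟨[4,5,7],[⟨0,1,true⟩,⟨0,2,true⟩,⟨1,2,true⟩],(HT.leaf 2)⟩,⟨[4,5,8],[⟨0,1,true⟩,⟨0,2,true⟩,⟨1,2,true⟩],(HT.leaf 2)⟩,⟨[4,5,9],[⟨0,1,true⟩,⟨0,2,true⟩,⟨1,2,true⟩],(HT.leaf 2)⟩,⟨[4,5,10],[⟨0,1,true⟩,⟨0,2,true⟩,⟨1,2,true⟩],(HT.leaf 3)⟩,⟨[4,6,6],[⟨0,1,true⟩,⟨0,2,false⟩,⟨1,2,true⟩],(HT.br true 0 0 (HT.leaf 3) (HT.leaf 3))⟩,⟨[4,6,7],[⟨0,1,true⟩,⟨0,2,true⟩,⟨1,2,false⟩],(HT.br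 true 0 0 (HT.leaf 3) (HT.leaf 3))⟩,⟨[4,6,7],[⟨0,1,true⟩,⟨0,2,false⟩,⟨1,2,true⟩],(HT.br true 0 0 (HT.leaf 3) (HT.leaf 3))⟩,⟨[4,6,7],[⟨0,1,false⟩,⟨0,2,true⟩,⟨1,2,true⟩],(HT.br true 0 0 (HT.leaf 3) (HT.leaf 3))⟩,⟨[4,6,8],[⟨0,1,true⟩,⟨0,2,true⟩,⟨1,2,false⟩],(HT.br true 0 0 (HT.leaf 3) (HT.leaf 3))⟩,⟨[4,6,8],[⟨0,1,true⟩,⟨0,2,false⟩,⟨1,2,true⟩],(HT.br true 0 0 (HT.leaf 3) (HT.leaf 3))⟩,⟨[4,6,8],[⟨0,1,false⟩,⟨0,2,true⟩,⟨1,2,true⟩],(HT.br true 0 0 (HT.leaf 3) (HT.leaf 3))⟩,⟨[4,6,9],[⟨0,1,true⟩,⟨0,2,true⟩,⟨1,2,false⟩],(HT.br true 0 0 (HT.leaf 3) (HT.leaf 3))⟩,⟨[4,6,9],[⟨0,1,true⟩,⟨0,2,false⟩,⟨1,2,true⟩],(HT.br true 0 0 (HT.leaf 3) (HT.leaf 3))⟩,⟨[4,6,9],[⟨0,1,false⟩,⟨0,2,true⟩,⟨1,2,true⟩],(HT.br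 true 0 0 (HT.leaf 3) (HT.leaf 3))⟩,⟨[4,6,10],[⟨0,1,true⟩,⟨0,2,true⟩,⟨1,2,false⟩],(HT.br true 0 0 (HT.leaf 3) (HT.leaf 3))⟩,⟨[4,6,10],[⟨0,1,true⟩,⟨0,2,false⟩,⟨1,2,true⟩],(HT.br true 0 0 (HT.leaf 3) (HT.leaf 3))⟩,⟨[4,6,10],[⟨0,1,false⟩,⟨0,2,true⟩,⟨1,2,true⟩],(HT.br true 0 0 (HT.leaf 3) (HT.leaf 3))⟩,⟨[4,7,7],[⟨0,1,true⟩,⟨0,2,false⟩,⟨1,2,true⟩],(HT.br true 0 0 (HT.leaf 3) (HT.leaf 3))⟩,⟨[4,7,8],[⟨0,1,true⟩,⟨0,2,true⟩,⟨1,2,false⟩],(HT.br true 0 0 (HT.leaf 3) (HT.leaf 3))⟩,⟨[4,7,8],[⟨0,1,true⟩,⟨0,2,false⟩,⟨1,2,true⟩],(HT.br true 0 0 (HT.leaf 3) (HT.leaf 3))⟩,⟨[4,7,8],[⟨0,1,false⟩,⟨0,2,true⟩,⟨1,2,true⟩],(HT.br true 0 0 (HT.leaf 3) (HT.leaf 3))⟩,⟨[4,7,9],[⟨0,1,true⟩,⟨0,2,true⟩,⟨1,2,false⟩],(HT.br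 true 0 0 (HT.leaf 3) (HT.leaf 3))⟩,⟨[4,7,9],[⟨0,1,true⟩,⟨0,2,false⟩,⟨1,2,true⟩],(HT.br true 0 0 (HT.leaf 3) (HT.leaf 3))⟩,⟨[4,7,9],[⟨0,1,false⟩,⟨0,2,true⟩,⟨1,2,true⟩],(HT.br true 0 0 (HT.leaf 3) (HT.leaf 3))⟩,⟨[4,7,10],[⟨0,1,true⟩,⟨0,2,true⟩,⟨1,2,false⟩],(HT.br true 0 0 (HT.leaf 3) (HT.leaf 3))⟩,⟨[4,7,10],[⟨0,1,true⟩,⟨0,2,false⟩,⟨1,2,true⟩],(HT.br true 0 0 (HT.leaf 3) (HT.leaf 3))⟩,⟨[4,7,10],[⟨0,1,false⟩,⟨0,2,true⟩,⟨1,2,true⟩],(HT.br true 0 0 (HT.leaf 3) (HT.leaf 3))⟩,⟨[4,8,8],[⟨0,1,true⟩,⟨0,2,false⟩,⟨1,2,true⟩],(HT.br true 0 0 (HT.leaf 3) (HT.leaf 3))⟩,⟨[4,8,9],[⟨0,1,true⟩,⟨0,2,true⟩,⟨1,2,false⟩],(HT.br true 0 0 (HT.leaf 3) (HT.leaf 3))⟩,⟨[4,8,9],[⟨0,1,true⟩,⟨0,2,false⟩,⟨1,2,true⟩],(HT.br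 true 0 0 (HT.leaf 3) (HT.leaf 3))⟩,⟨[4,8,9],[⟨0,1,false⟩,⟨0,2,true⟩,⟨1,2,true⟩],(HT.br true 0 0 (HT.leaf 3) (HT.leaf 3))⟩,⟨[4,8,10],[⟨0,1,true⟩,⟨0,2,true⟩,⟨1,2,false⟩],(HT.br true 0 0 (HT.leaf 3) (HT.leaf 3))⟩,⟨[4,8,10],[⟨0,1,true⟩,⟨0,2,false⟩,⟨1,2,true⟩],(HT.br true 0 0 (HT.leaf 3) (HT.leaf 3))⟩,⟨[4,8,10],[⟨0,1,false⟩,⟨0,2,true⟩,⟨1,2,true⟩],(HT.br true 0 0 (HT.leaf 3) (HT.leaf 3))⟩,⟨[4,9,9],[⟨0,1,true⟩,⟨0,2,false⟩,⟨1,2,true⟩],(HT.br true 0 0 (HT.leaf 3) (HT.leaf 3))⟩,⟨[4,9,10],[⟨0,1,true⟩,⟨0,2,true⟩,⟨1,2,false⟩],(HT.br true 0 0 (HT.leaf 3) (HT.leaf 3))⟩,⟨[4,9,10],[⟨0,1,true⟩,⟨0,2,false⟩,⟨1,2,true⟩],(HT.br true 0 0 (HT.leaf 3) (HT.leaf 3))⟩,⟨[4,9,10],[⟨0,1,false⟩,⟨0,2,true⟩,⟨1,2,true⟩],(HT.br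 true 0 0 (HT.leaf 3) (HT.leaf 3))⟩,⟨[4,10,10],[⟨0,1,true⟩,⟨0,2,false⟩,⟨1,2,true⟩],(HT.br true 0 0 (HT.leaf 3) (HT.leaf 3))⟩,⟨[5,5,10],[⟨0,1,true⟩,⟨0,2,true⟩,⟨1,2,false⟩],(HT.leaf 2)⟩,⟨[5,6,7],[],(HT.leaf 2)⟩,⟨[5,6,8],[],(HT.leaf 2)⟩,⟨[5,6,9],[],(HT.leaf 2)⟩,⟨[5,6,10],[⟨0,1,true⟩,⟨0,2,true⟩,⟨1,2,false⟩],(HT.leaf 2)⟩,⟨[5,6,10],[⟨0,1,true⟩,⟨0,2,false⟩,⟨1,2,true⟩],(HT.leaf 2)⟩,⟨[5,7,8],[],(HT.leaf 2)⟩,⟨[5,7,9],[],(HT.leaf 2)⟩,⟨[5,7,10],[⟨0,1,true⟩,⟨0,2,true⟩,⟨1,2,false⟩],(HT.leaf 2)⟩,⟨[5,7,10],[⟨0,1,true⟩,⟨0,2,false⟩,⟨1,2,true⟩],(HT.leaf 2)⟩,⟨[5,8,9],[],(HT.leaf 2)⟩,⟨[5,8,10],[⟨0,1,true⟩,⟨0,2,true⟩,⟨1,2,false⟩],(HT.leaf 2)⟩,⟨[5,8,10],[⟨0,1,true⟩,⟨0,2,false⟩,⟨1,2,true⟩],(HT.leaf 2)⟩,⟨[5,9,10],[⟨0,1,true⟩,⟨0,2,true⟩,⟨1,2,false⟩],(HT.leaf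 2)⟩,⟨[5,9,10],[⟨0,1,true⟩,⟨0,2,false⟩,⟨1,2,true⟩],(HT.leaf 2)⟩,⟨[5,10,10],[⟨0,1,true⟩,⟨0,2,false⟩,⟨1,2,true⟩],(HT.leaf 3)⟩,⟨[6,6,7],[⟨0,1,true⟩,⟨0,2,true⟩,⟨1,2,false⟩],(HT.br true 0 0 (HT.leaf 3) (HT.leaf 3))⟩,⟨[6,6,8],[⟨0,1,true⟩,⟨0,2,true⟩,⟨1,2,false⟩],(HT.br true 0 0 (HT.leaf 3) (HT.leaf 3))⟩,⟨[6,6,9],[⟨0,1,true⟩,⟨0,2,true⟩,⟨1,2,false⟩],(HT.br true 0 0 (HT.leaf 3) (HT.leaf 3))⟩,⟨[6,6,10],[⟨0,1,true⟩,⟨0,2,true⟩,⟨1,2,false⟩],(HT.br true 0 0 (HT.leaf 3) (HT.leaf 3))⟩,⟨[6,7,7],[⟨0,1,true⟩,⟨0,2,false⟩,⟨1,2,true⟩],(HT.br true 0 0 (HT.leaf 3) (HT.leaf 3))⟩,⟨[6,7,8],[⟨0,1,true⟩,⟨0,2,true⟩,⟨1,2,false⟩],(HT.br true 0 0 (HT.leaf 3) (HT.leaf 3))⟩,⟨[6,7,8],[⟨0,1,true⟩,⟨0,2,false⟩,⟨1,2,true⟩],(HT.br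 true 0 0 (HT.leaf 3) (HT.leaf 3))⟩,⟨[6,7,8],[⟨0,1,false⟩,⟨0,2,true⟩,⟨1,2,true⟩],(HT.br true 0 0 (HT.leaf 3) (HT.leaf 3))⟩,⟨[6,7,9],[⟨0,1,true⟩,⟨0,2,true⟩,⟨1,2,false⟩],(HT.br true 0 0 (HT.leaf 3) (HT.leaf 3))⟩,⟨[6,7,9],[⟨0,1,true⟩,⟨0,2,false⟩,⟨1,2,true⟩],(HT.br true 0 0 (HT.leaf 3) (HT.leaf 3))⟩,⟨[6,7,9],[⟨0,1,false⟩,⟨0,2,true⟩,⟨1,2,true⟩],(HT.br true 0 0 (HT.leaf 3) (HT.leaf 3))⟩,⟨[6,7,10],[⟨0,1,true⟩,⟨0,2,true⟩,⟨1,2,false⟩],(HT.br true 0 0 (HT.leaf 3) (HT.leaf 3))⟩,⟨[6,7,10],[⟨0,1,true⟩,⟨0,2,false⟩,⟨1,2,true⟩],(HT.br true 0 0 (HT.leaf 3) (HT.leaf 3))⟩,⟨[6,7,10],[⟨0,1,false⟩,⟨0,2,true⟩,⟨1,2,true⟩],(HT.br true 0 0 (HT.leaf 3) (HT.leaf 3))⟩,⟨[6,8,8],[⟨0,1,true⟩,⟨0,2,false⟩,⟨1,2,true⟩],(HT.br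 true 0 0 (HT.leaf 3) (HT.leaf 3))⟩,⟨[6,8,9],[⟨0,1,true⟩,⟨0,2,true⟩,⟨1,2,false⟩],(HT.br true 0 0 (HT.leaf 3) (HT.leaf 3))⟩,⟨[6,8,9],[⟨0,1,true⟩,⟨0,2,false⟩,⟨1,2,true⟩],(HT.br true 0 0 (HT.leaf 3) (HT.leaf 3))⟩,⟨[6,8,9],[⟨0,1,false⟩,⟨0,2,true⟩,⟨1,2,true⟩],(HT.br true 0 0 (HT.leaf 3) (HT.leaf 3))⟩,⟨[6,8,10],[⟨0,1,true⟩,⟨0,2,true⟩,⟨1,2,false⟩],(HT.br true 0 0 (HT.leaf 3) (HT.leaf 3))⟩,⟨[6,8,10],[⟨0,1,true⟩,⟨0,2,false⟩,⟨1,2,true⟩],(HT.br true 0 0 (HT.leaf 3) (HT.leaf 3))⟩,⟨[6,8,10],[⟨0,1,false⟩,⟨0,2,true⟩,⟨1,2,true⟩],(HT.br true 0 0 (HT.leaf 3) (HT.leaf 3))⟩,⟨[6,9,9],[⟨0,1,true⟩,⟨0,2,false⟩,⟨1,2,true⟩],(HT.br true 0 0 (HT.leaf 3) (HT.leaf 3))⟩,⟨[6,9,10],[⟨0,1,true⟩,⟨0,2,true⟩,⟨1,2,false⟩],(HT.br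 true 0 0 (HT.leaf 3) (HT.leaf 3))⟩,⟨[6,9,10],[⟨0,1,true⟩,⟨0,2,false⟩,⟨1,2,true⟩],(HT.br true 0 0 (HT.leaf 3) (HT.leaf 3))⟩,⟨[6,9,10],[⟨0,1,false⟩,⟨0,2,true⟩,⟨1,2,true⟩],(HT.br true 0 0 (HT.leaf 3) (HT.leaf 3))⟩,⟨[6,10,10],[⟨0,1,true⟩,⟨0,2,false⟩,⟨1,2,true⟩],(HT.br true 0 0 (HT.leaf 3) (HT.leaf 3))⟩,⟨[7,7,8],[⟨0,1,true⟩,⟨0,2,true⟩,⟨1,2,false⟩],(HT.br true 0 0 (HT.leaf 3) (HT.leaf 3))⟩,⟨[7,7,9],[⟨0,1,true⟩,⟨0,2,true⟩,⟨1,2,false⟩],(HT.br true 0 0 (HT.leaf 3) (HT.leaf 3))⟩,⟨[7,7,10],[⟨0,1,true⟩,⟨0,2,true⟩,⟨1,2,false⟩],(HT.br true 0 0 (HT.leaf 3) (HT.leaf 3))⟩,⟨[7,8,8],[⟨0,1,true⟩,⟨0,2,false⟩,⟨1,2,true⟩],(HT.br true 0 0 (HT.leaf 3) (HT.leaf 3))⟩,⟨[7,8,9],[⟨0,1,true⟩,⟨0,2,true⟩,⟨1,2,false⟩],(HT.br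 true 0 0 (HT.leaf 3) (HT.leaf 3))⟩,⟨[7,8,9],[⟨0,1,true⟩,⟨0,2,false⟩,⟨1,2,true⟩],(HT.br true 0 0 (HT.leaf 3) (HT.leaf 3))⟩,⟨[7,8,9],[⟨0,1,false⟩,⟨0,2,true⟩,⟨1,2,true⟩],(HT.br true 0 0 (HT.leaf 3) (HT.leaf 3))⟩,⟨[7,8,10],[⟨0,1,true⟩,⟨0,2,true⟩,⟨1,2,false⟩],(HT.br true 0 0 (HT.leaf 3) (HT.leaf 3))⟩,⟨[7,8,10],[⟨0,1,true⟩,⟨0,2,false⟩,⟨1,2,true⟩],(HT.br true 0 0 (HT.leaf 3) (HT.leaf 3))⟩,⟨[7,8,10],[⟨0,1,false⟩,⟨0,2,true⟩,⟨1,2,true⟩],(HT.br true 0 0 (HT.leaf 3) (HT.leaf 3))⟩,⟨[7,9,9],[⟨0,1,true⟩,⟨0,2,false⟩,⟨1,2,true⟩],(HT.br true 0 0 (HT.leaf 3) (HT.leaf 3))⟩,⟨[7,9,10],[⟨0,1,true⟩,⟨0,2,true⟩,⟨1,2,false⟩],(HT.br true 0 0 (HT.leaf 3) (HT.leaf 3))⟩,⟨[7,9,10],[⟨0,1,true⟩,⟨0,2,false⟩,⟨1,2,true⟩],(HT.br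 true 0 0 (HT.leaf 3) (HT.leaf 3))⟩,⟨[7,9,10],[⟨0,1,false⟩,⟨0,2,true⟩,⟨1,2,true⟩],(HT.br true 0 0 (HT.leaf 3) (HT.leaf 3))⟩,⟨[7,10,10],[⟨0,1,true⟩,⟨0,2,false⟩,⟨1,2,true⟩],(HT.br true 0 0 (HT.leaf 3) (HT.leaf 3))⟩,⟨[8,8,9],[⟨0,1,true⟩,⟨0,2,true⟩,⟨1,2,false⟩],(HT.br true 0 0 (HT.leaf 3) (HT.leaf 3))⟩,⟨[8,8,10],[⟨0,1,true⟩,⟨0,2,true⟩,⟨1,2,false⟩],(HT.br true 0 0 (HT.leaf 3) (HT.leaf 3))⟩,⟨[8,9,9],[⟨0,1,true⟩,⟨0,2,false⟩,⟨1,2,true⟩],(HT.br true 0 0 (HT.leaf 3) (HT.leaf 3))⟩,⟨[8,9,10],[⟨0,1,true⟩,⟨0,2,true⟩,⟨1,2,false⟩],(HT.br true 0 0 (HT.leaf 3) (HT.leaf 3))⟩,⟨[8,9,10],[⟨0,1,true⟩,⟨0,2,false⟩,⟨1,2,true⟩],(HT.br true 0 0 (HT.leaf 3) (HT.leaf 3))⟩,⟨[8,9,10],[⟨0,1,false⟩,⟨0,2,true⟩,⟨1,2,true⟩],(HT.br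 true 0 0 (HT.leaf 3) (HT.leaf 3))⟩,⟨[8,10,10],[⟨0,1,true⟩,⟨0,2,false⟩,⟨1,2,true⟩],(HT.br true 0 0 (HT.leaf 3) (HT.leaf 3))⟩,⟨[9,9,10],[⟨0,1,true⟩,⟨0,2,true⟩,⟨1,2,false⟩],(HT.br true 0 0 (HT.leaf 3) (HT.leaf 3))⟩,⟨[9,10,10],[⟨0,1,true⟩,⟨0,2,false⟩,⟨1,2,true⟩],(HT.br true 0 0 (HT.leaf 3) (HT.leaf 3))⟩]

end Pool.Agent.Lib.MP_849b2e_co
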