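import Pool.Agent.Lib.MP_849b2e_co.Fast
import Pool.Agent.Lib.MP_849b2e_co.Th
import Pool.Agent.Lib.MP_849b2e_co.Thh

set_option maxRecDepth 100000
set_option linter.all false
namespace Pool.Agent.Lib.MP_849b2e_co

noncomputable def h_o25c : Pq := (Pq.cons (Pq.L [0,1,4] 4095 (Pf.B 13 10 (Pf.B 13 8 (Pf.B 13 5 (Pf.B 11 10 (Pf.C 1 0xd002840b) (Pf.B 10 5 (Pf.C 1 0xd0028405) (Pf.C 1 0xb1414688))) (Pf.C 1 0x1a14588)) (Pf.B 13 5 (Pf.C 1 0x81a00585) (Pf.B 12 8 (Pf.B 12 5 (Pf.C 1 0xb1800405) (Pf.C 0 0x1001468c)) (Pf.C 0 0x1002068c)))) (Pf.B 13 9 (Pf.B 13 8 (Pf.B 13 5 (Pf.B 13 7 (Pf.B 11 7 (Pf.C 1 0xd001c28b) (Pf.B 8 7 (Pf.C 1 0xd001c288) (Pf.C 1 0xb0e20685))) (Pf.B 13 6 (Pf.B 12 9 (Pf.B 12 8 (Pf.B 12 5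 (Pf.C 1 0xb1800405) (Pf.B 12 6 (Pf.B 9 6 (Pf.C 1 0xc1a10309) (Pf.B 9 5 (Pf.B 11 9 (Pf.C 1 0xd002428b) (Pf.C 1 0x8122c685)) (Pf.C 0 0x10014309))) (Pf.C 0 0x5000430c))) (Pf.B 12 6 (Pf.B 9 6 (Pf.C 1 0xc1a10309) (Pf.B 9 5 (Pf.B 11 9 (Pf.C 1 0xd002428b) (Pf.C 1 0x8122c685)) (Pf.C 0 0x10014309))) (Pf.B 11 6 (Pf.B 8 6 (Pf.C 1 0xd0018588) (Pf.C 0 0x10020606)) (Pf.C 0 0x1002c606)))) (Pf.B 12 8 (Pf.B 12 5 (Pf.C 1 0xb1800405) (Pf.B 11 9 (Pf.B 9 5 (Pf.C 1 0xd0024585) (Pf.C 0 0x10014609)) (Pf.C 0 0x1002c609))) (Pf.C 0 0x1002048c))) (Pf.C 0 0x81838d))) (Pf.C 1 0x1a14588)) (Pf.B 13 5 (Pf.C 1 0x81a00585) (Pf.B 12 8 (Pf.B 12 5 (Pf.C 1 0xb1800405) (Pf.C 0 0x1001468c)) (Pf.C 0 0x1002068c)))) (Pf.C 0 0x82450d))))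
 (Pq.cons (Pq.L [1,4] 3648 (Pf.B 12 8 (Pf.B 12 5 (Pf.C 0 0x81814581) (Pf.C 0 0x10830585)) (Pf.C 0 0x10830588)))
 (Pq.cons (Pq.L [0,1,4] 4095 (Pf.B 13 10 (Pf.B 13 9 (Pf.B 13 8 (Pf.B 13 5 (Pf.C 1 0xb1a00405) (Pf.B 13 7 (Pf.B 12 5 (Pf.B 12 8 (Pf.B 13 6 (Pf.B 12 10 (Pf.B 12 9 (Pf.B 11 9 (Pf.C 1 0xc002440b) (Pf.B 11 10 (Pf.B 10 5 (Pf.C 1 0xc0028585) (Pf.C 1 0x8141460b)) (Pf.C 0 0x9080450b))) (Pf.B 12 7 (Pf.B 12 6 (Pf.B 11 6 (Pf.C 1 0xc001828b) (Pf.B 11 7 (Pf.B 8 7 (Pf.C 1 0xc1a2c388) (Pf.C 1 0x50e2060b)) (Pf.C 0 0x6080438b))) (Pf.B 9 6 (Pf.B 8 6 (Pf.C 1 0xd0820486) (Pf.B 11 6 (Pf.C 1 0x80c0028b) (Pf.B 11 7 (Pf.B 8 7 (Pf.C 1 0xc1a2c388) (Pf.C 0 0x60804388)) (Pf.C 0 0x6080438b)))) (Pf.C 0 0x61a24600)))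 (Pf.B 12 6 (Pf.B 11 6 (Pf.C 1 0xc001828b) (Pf.B 11 7 (Pf.B 8 7 (Pf.C 1 0x50e00588) (Pf.B 8 6 (Pf.C 1 0xc1a14308) (Pf.C 0 0x10818388))) (Pf.C 0 0x6080438b))) (Pf.C 0 0x71a1800c)))) (Pf.B 12 9 (Pf.B 11 9 (Pf.C 1 0xc002440b) (Pf.B 11 10 (Pf.B 10 5 (Pf.C 1 0x81400585) (Pf.B 9 5 (Pf.C 1 0xc1a14409) (Pf.C 0 0x10014509))) (Pf.C 0 0x9080450b))) (Pf.C 0 0xa1a2400c))) (Pf.B 12 6 (Pf.B 11 6 (Pf.C 1 0xc001828b) (Pf.C 0 0x1081868b)) (Pf.C 0 0x60a30681))) (Pf.C 1 0x1820585)) (Pf.C 0 0x1001468c)) (Pf.C 0 0x5000438d))) (Pf.B 12 8 (Pf.B 12 5 (Pf.B 13 7 (Pf.B 13 6 (Pf.B 12 10 (Pf.B 12 9 (Pf.B 11 9 (Pf.C 1 0xc002440b) (Pf.B 11 10 (Pf.B 10 5 (Pf.C 1 0xc0028585) (Pf.C 1 0x8141460b)) (Pf.C 0 0x9080450b))) (Pf.B 12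 7 (Pf.B 12 6 (Pf.B 11 6 (Pf.C 1 0xc001828b) (Pf.B 11 7 (Pf.B 8 7 (Pf.C 1 0xc001c588) (Pf.C 1 0x50e2060b)) (Pf.C 0 0x6080438b))) (Pf.B 9 6 (Pf.B 11 10 (Pf.B 10 5 (Pf.C 1 0xc0028585) (Pf.C 1 0x8141460b)) (Pf.B 11 9 (Pf.B 10 5 (Pf.C 1 0xb1420605) (Pf.B 9 5 (Pf.B 11 6 (Pf.C 1 0x9001828b) (Pf.B 11 7 (Pf.B 8 7 (Pf.C 1 0xc001c588) (Pf.C 1 0x50e2060b)) (Pf.C 0 0x6080438b))) (Pf.C 0 0x10014509))) (Pf.C 0 0x1082450b))) (Pf.C 0 0x61a24600))) (Pf.B 12 6 (Pf.B 11 6 (Pf.C 1 0xc001828b) (Pf.B 11 7 (Pf.B 8 7 (Pf.C 1 0x50e00588) (Pf.B 8 6 (Pf.C 1 0xc0018288) (Pf.C 0 0x10818388))) (Pf.C 0 0x6080438b))) (Pf.C 0 0x71a1800c)))) (Pf.B 12 9 (Pf.B 11 9 (Pf.C 1 0xc002440b) (Pf.B 11 10 (Pf.B 10 5 (Pf.C 1 0x81400585) (Pf.B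 9 5 (Pf.C 1 0x80814609) (Pf.C 0 0x10014509))) (Pf.C 0 0x9080450b))) (Pf.C 0 0xa1a2400c))) (Pf.B 11 6 (Pf.B 12 6 (Pf.C 1 0xb081430c) (Pf.C 0 0x61630681)) (Pf.C 0 0x1081868b))) (Pf.B 12 7 (Pf.B 11 7 (Pf.B 8 7 (Pf.C 1 0xc001c588) (Pf.C 0 0x10020687)) (Pf.C 0 0x1002c687)) (Pf.C 0 0x830687))) (Pf.C 1 0x1814588)) (Pf.C 0 0x1002068c))) (Pf.B 11 9 (Pf.B 12 9 (Pf.B 12 8 (Pf.C 1 0xb082048c) (Pf.B 13 8 (Pf.B 13 5 (Pf.C 1 0xb1a00405) (Pf.B 12 5 (Pf.C 1 0x81800585) (Pf.C 0 0x1001468c))) (Pf.C 0 0xc080440d))) (Pf.C 0 0x91630681)) (Pf.C 0 0x1082468b))) (Pf.B 13 8 (Pf.B 13 5 (Pf.C 1 0xb1a00405) (Pf.B 12 10 (Pf.B 12 5 (Pf.B 11 10 (Pf.B 10 5 (Pf.C 1 0xc0028585) (Pf.C 0 0x1001468a)) (Pf.C 0 0x1002c68a)) (Pf.C 0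 0x1001468c)) (Pf.C 0 0x83068a))) (Pf.C 0 0x1002050d))))
 (Pq.cons (Pq.L [0,1] 4032 (Pf.B 13 8 (Pf.B 13 5 (Pf.C 0 0x81a14581) (Pf.B 12 5 (Pf.C 0 0xb1814681) (Pf.C 0 0x1001468c))) (Pf.B 12 8 (Pf.C 0 0xb1820681) (Pf.C 0 0x1002068c))))
 (Pq.cons (Pq.L [0,1] 4095 (Pf.B 13 10 (Pf.B 13 8 (Pf.B 13 5 (Pf.B 11 10 (Pf.C 1 0xd002840b) (Pf.B 10 5 (Pf.C 1 0xd0028405) (Pf.C 1 0xb1414688))) (Pf.C 1 0x1a14588)) (Pf.B 13 5 (Pf.C 1 0x81a00585) (Pf.B 12 8 (Pf.B 12 5 (Pf.C 1 0xb1800405) (Pf.C 0 0x1001468c)) (Pf.C 0 0x1002068c)))) (Pf.B 13 9 (Pf.B 13 8 (Pf.B 13 5 (Pf.B 13 7 (Pf.B 11 7 (Pf.C 1 0xd001c28b) (Pf.B 8 7 (Pf.C 1 0xd001c288) (Pf.C 1 0xb0e20685))) (Pf.B 13 6 (Pf.B 12 10 (Pf.B 12 9 (Pf.B 12 7 (Pf.B 10 7 (Pf.B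 11 10 (Pf.B 10 5 (Pf.B 11 7 (Pf.C 1 0xa001c28b) (Pf.B 8 7 (Pf.C 1 0xa001c288) (Pf.C 1 0xb0e20505))) (Pf.C 1 0x1414588)) (Pf.B 11 9 (Pf.B 10 5 (Pf.C 1 0xb1400405) (Pf.B 9 5 (Pf.C 1 0xd0024585) (Pf.C 0 0x10014509))) (Pf.C 0 0xa182408b))) (Pf.C 0 0x71828680)) (Pf.B 12 6 (Pf.C 0 0xd0c30380) (Pf.B 12 5 (Pf.C 0 0x70a30301) (Pf.C 0 0x61a1408c)))) (Pf.B 12 8 (Pf.B 12 5 (Pf.C 1 0xb1800405) (Pf.B 11 9 (Pf.B 9 5 (Pf.C 1 0xd0024585) (Pf.C 0 0x10014609)) (Pf.C 0 0x1002c609))) (Pf.C 0 0x1002048c))) (Pf.B 12 9 (Pf.C 0 0xd1230500) (Pf.B 12 8 (Pf.C 0 0xa1030481) (Pf.C 0 0x1002048c)))) (Pf.C 0 0x70a34086))) (Pf.C 1 0x1a14588)) (Pf.B 13 5 (Pf.C 1 0x81a00585) (Pf.B 12 8 (Pf.B 12 5 (Pf.C 1 0xb1800405) (Pf.C 0 0x1001468c))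 (Pf.C 0 0x1002068c)))) (Pf.B 13 8 (Pf.C 0 0xa1034481) (Pf.C 0 0x1002048d)))))
 (Pq.cons (Pq.L [0,1] 4032 (Pf.B 13 8 (Pf.B 13 5 (Pf.B 12 8 (Pf.B 12 5 (Pf.C 0 0x81814581) (Pf.C 0 0xb1a1408c)) (Pf.C 0 0xb1a2008c)) (Pf.C 0 0xb1a20085)) (Pf.B 13 5 (Pf.C 0 0xb1a14401) (Pf.B 12 8 (Pf.B 12 5 (Pf.C 0 0x81814581) (Pf.C 0 0x1001468c)) (Pf.C 0 0x1002068c)))))
 (Pq.cons (Pq.L [0,1,2] 63 (Pf.B 9 6 (Pf.C 1 0x60024101) (Pf.B 9 5 (Pf.C 1 0x50024101) (Pf.B 8 6 (Pf.C 1 0x60020101) (Pf.B 10 6 (Pf.C 0 0x91418400) (Pf.B 10 5 (Pf.C 0 0x91414300) (Pf.B 10 7 (Pf.C 0 0x60e28280) (Pf.C 0 0x5020038a))))))))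
 (Pq.cons (Pq.L [0,1,2,3] 0 (Pf.B 10 8 (Pf.C 1 0x31404108) (Pf.B 9 8 (Pf.C 1 0x31208088) (Pf.B 10 9 (Pf.B 8 7 (Pf.C 1 0x30e04108) (Pf.B 10 7 (Pf.B 9 7 (Pf.B 8 6 (Pf.C 1 0x30c08088) (Pf.B 10 6 (Pf.B 9 6 (Pf.B 7 6 (Pf.C 1 0x90418507) (Pf.C 0 0x80600307)) (Pf.C 0 0x80400309)) (Pf.C 0 0x8060030a))) (Pf.C 0 0x80600389)) (Pf.C 0 0x8020038a))) (Pf.C 0 0x8060048a)))))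
 (Pq.cons (Pq.L [0,1,2,3] 0 (Pf.B 10 8 (Pf.C 1 0x21404188) (Pf.B 9 8 (Pf.C 1 0x31208088) (Pf.B 10 9 (Pf.B 8 7 (Pf.C 1 0x20e04188) (Pf.B 10 7 (Pf.B 9 7 (Pf.B 8 6 (Pf.C 1 0x30c08088) (Pf.B 10 6 (Pf.B 9 6 (Pf.B 7 6 (Pf.C 1 0x90618507) (Pf.C 0 0x80400307)) (Pf.C 0 0x80400309)) (Pf.C 0 0x8040030a))) (Pf.C 0 0x80400389)) (Pf.C 0 0x8020038a))) (Pf.C 0 0x8040048a)))))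
 (Pq.cons (Pq.L [0,1,2,3,4] 0 (Pf.B 10 8 (Pf.C 1 0x21404208) (Pf.B 9 8 (Pf.C 1 0x31208088) (Pf.B 10 9 (Pf.B 8 7 (Pf.C 1 0x20e04208) (Pf.B 10 7 (Pf.B 9 7 (Pf.B 8 6 (Pf.C 1 0x30c08088) (Pf.B 10 6 (Pf.B 9 6 (Pf.B 7 6 (Pf.C 1 0x90818507) (Pf.C 0 0x80400307)) (Pf.C 0 0x80400309)) (Pf.C 0 0x8040030a))) (Pf.C 0 0x80400389)) (Pf.C 0 0x8020038a))) (Pf.C 0 0x8040048a)))))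
 (Pq.cons (Pq.L [0,1,2,3] 55 (Pf.B 9 5 (Pf.C 1 0x31208085) (Pf.B 9 7 (Pf.B 9 6 (Pf.B 8 6 (Pf.C 1 0x30c08088) (Pf.B 10 6 (Pf.B 10 7 (Pf.C 1 0x70228486) (Pf.B 10 5 (Pf.B 8 5 (Pf.C 1 0x50020101) (Pf.C 0 0x61414008)) (Pf.C 0 0x21438a))) (Pf.C 0 0x8040030a))) (Pf.C 0 0x50400309)) (Pf.C 0 0x50400389))))
 (Pq.cons (Pq.L [0,1,2,3] 7 (Pf.B 8 6 (Pf.C 1 0x30c08088) (Pf.B 8 7 (Pf.B 8 5 (Pf.C 1 0x20e04288) (Pf.C 0 0x50e20300)) (Pf.C 0 0x420307))))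
 (Pq.cons (Pq.L [0,1,2,3] 0 (Pf.B 10 8 (Pf.C 1 0x21404188) (Pf.B 9 8 (Pf.C 1 0x31204108) (Pf.B 10 9 (Pf.B 8 7 (Pf.C 1 0x20e04188) (Pf.B 10 7 (Pf.B 9 7 (Pf.B 8 6 (Pf.C 1 0x30c04108) (Pf.B 10 6 (Pf.B 9 6 (Pf.B 7 6 (Pf.C 1 0x90618507) (Pf.C 0 0x80200307)) (Pf.C 0 0x80200309)) (Pf.C 0 0x8020030a))) (Pf.C 0 0x80200389)) (Pf.C 0 0x8020038a))) (Pf.C 0 0x8020048a)))))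
 (Pq.cons (Pq.L [0,1,2,3,4] 0 (Pf.B 10 8 (Pf.C 1 0x21404208) (Pf.B 9 8 (Pf.C 1 0x31204108) (Pf.B 10 9 (Pf.B 8 7 (Pf.C 1 0x20e04208) (Pf.B 10 7 (Pf.B 9 7 (Pf.B 8 6 (Pf.C 1 0x30c04108) (Pf.B 10 6 (Pf.B 9 6 (Pf.B 7 6 (Pf.C 1 0x90818507) (Pf.C 0 0x80200307)) (Pf.C 0 0x80200309)) (Pf.C 0 0x8020030a))) (Pf.C 0 0x80200389)) (Pf.C 0 0x8020038a))) (Pf.C 0 0x8020048a)))))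
 (Pq.cons (Pq.L [0,1,2,3] 55 (Pf.B 9 5 (Pf.C 1 0x31204105) (Pf.B 9 7 (Pf.B 9 6 (Pf.B 8 6 (Pf.C 1 0x30c04108) (Pf.B 10 6 (Pf.B 10 7 (Pf.C 1 0x70428486) (Pf.B 10 5 (Pf.B 8 5 (Pf.C 1 0x50020101) (Pf.C 0 0x61414008)) (Pf.C 0 0x21438a))) (Pf.C 0 0x8020030a))) (Pf.C 0 0x50200309)) (Pf.C 0 0x50200389))))
 (Pq.cons (Pq.L [0,1,2,3] 7 (Pf.B 8 6 (Pf.C 1 0x30c04108) (Pf.B 8 7 (Pf.B 8 5 (Pf.C 1 0x20e04288) (Pf.C 0 0x50e20300)) (Pf.C 0 0x220307))))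
 (Pq.cons (Pq.L [0,1,2,3,4] 0 (Pf.B 10 8 (Pf.C 1 0x21404208) (Pf.B 9 8 (Pf.C 1 0x21204188) (Pf.B 10 9 (Pf.B 8 7 (Pf.C 1 0x20e04208) (Pf.B 10 7 (Pf.B 9 7 (Pf.B 8 6 (Pf.C 1 0x20c04188) (Pf.B 10 6 (Pf.B 9 6 (Pf.B 7 6 (Pf.C 1 0x90818507) (Pf.C 0 0x80200307)) (Pf.C 0 0x80200309)) (Pf.C 0 0x8020030a))) (Pf.C 0 0x80200389)) (Pf.C 0 0x8020038a))) (Pf.C 0 0x8020048a)))))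
 (Pq.cons (Pq.L [0,1,2,3] 55 (Pf.B 9 5 (Pf.C 1 0x21204185) (Pf.B 9 7 (Pf.B 9 6 (Pf.B 8 6 (Pf.C 1 0x20c04188) (Pf.B 10 6 (Pf.B 10 7 (Pf.C 1 0x70628486) (Pf.B 10 5 (Pf.B 8 5 (Pf.C 1 0x50020101) (Pf.C 0 0x61414008)) (Pf.C 0 0x21438a))) (Pf.C 0 0x8020030a))) (Pf.C 0 0x50200309)) (Pf.C 0 0x50200389))))
 (Pq.cons (Pq.L [0,1,2,3] 7 (Pf.B 8 6 (Pf.C 1 0x20c04188) (Pf.B 8 7 (Pf.B 8 5 (Pf.C 1 0x20e04288) (Pf.C 0 0x50e20300)) (Pf.C 0 0x220307))))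
 (Pq.cons (Pq.L [0,1,2,4] 55 (Pf.B 9 5 (Pf.C 1 0x21204205) (Pf.B 9 7 (Pf.B 9 6 (Pf.B 8 6 (Pf.C 1 0x20c04208) (Pf.B 10 6 (Pf.B 10 7 (Pf.C 1 0x70828486) (Pf.B 10 5 (Pf.B 8 5 (Pf.C 1 0x50020101) (Pf.C 0 0x61414008)) (Pf.C 0 0x21438a))) (Pf.C 0 0x8020030a))) (Pf.C 0 0x50200309)) (Pf.C 0 0x50200389))))
 (Pq.cons (Pq.L [0,1,2,4] 7 (Pf.B 8 6 (Pf.C 1 0x20c04208) (Pf.B 8 7 (Pf.B 8 5 (Pf.C 1 0x20e04288) (Pf.C 0 0x50e20300)) (Pf.C 0 0x220307))))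
 (Pq.cons (Pq.L [0,1,2] 448 (Pf.B 11 8 (Pf.C 1 0x8002c101) (Pf.B 11 5 (Pf.C 1 0x5002c101) (Pf.B 8 5 (Pf.C 1 0x50020101) (Pf.B 13 8 (Pf.B 13 5 (Pf.B 12 8 (Pf.B 12 5 (Pf.C 0 0x81814580) (Pf.C 0 0xb1a1400c)) (Pf.C 0 0xb1a2000c)) (Pf.C 0 0xb1a20005)) (Pf.B 13 5 (Pf.C 0 0xb1a14400) (Pf.B 12 8 (Pf.B 12 5 (Pf.C 0 0x81814580) (Pf.C 0 0x21468c)) (Pf.C 0 0x22068c))))))))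
 (Pq.cons (Pq.L [0,1,2] 4095 (Pf.B 13 10 (Pf.B 13 9 (Pf.B 13 8 (Pf.B 13 5 (Pf.C 1 0xb1a04405) (Pf.B 12 10 (Pf.B 12 9 (Pf.C 1 0xd022848c) (Pf.B 12 8 (Pf.B 12 5 (Pf.C 1 0x11a1440c) (Pf.C 1 0xb1814401)) (Pf.C 0 0x91430008))) (Pf.B 12 8 (Pf.B 12 5 (Pf.C 1 0x11a1440c) (Pf.C 1 0xb1814401)) (Pf.C 0 0xa040040c)))) (Pf.B 13 7 (Pf.B 13 6 (Pf.B 12 10 (Pf.B 12 9 (Pf.C 1 0xd022848c) (Pf.B 12 8 (Pf.B 12 5 (Pf.B 11 9 (Pf.B 10 5 (Pf.C 1 0x81404605) (Pf.B 10 7 (Pf.B 12 7 (Pf.B 12 6 (Pf.C 1 0xd021c30c) (Pf.B 11 6 (Pf.B 9 6 (Pf.C 1 0xb1a04309) (Pf.C 0 0x61624600)) (Pf.C 0 0xc1a1800b))) (Pf.C 1 0x2181c68a)) (Pf.C 0 0x5020038a))) (Pf.C 0 0xc1a2400b)) (Pf.C 1 0xb1814401)) (Pf.C 0 0x91430008))) (Pf.B 11 10 (Pf.B 10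 5 (Pf.C 1 0x81404585) (Pf.B 10 7 (Pf.B 12 7 (Pf.C 1 0xa1808687) (Pf.B 11 7 (Pf.C 1 0xd1608507) (Pf.C 0 0x41c60b))) (Pf.C 0 0x5020038a))) (Pf.C 0 0x42860b))) (Pf.B 13 5 (Pf.B 11 6 (Pf.B 8 6 (Pf.B 12 10 (Pf.B 12 9 (Pf.C 1 0xd022848c) (Pf.B 12 8 (Pf.B 12 6 (Pf.B 12 5 (Pf.C 1 0x81a0428c) (Pf.C 1 0x60a30401)) (Pf.C 1 0xb1818401)) (Pf.C 0 0x91430008))) (Pf.B 12 8 (Pf.B 12 6 (Pf.B 12 5 (Pf.C 1 0x81a0428c) (Pf.C 1 0x60a30401)) (Pf.C 1 0xb1818401)) (Pf.C 0 0xa040040c))) (Pf.C 0 0xd0400308)) (Pf.C 0 0xd040030b)) (Pf.C 0 0x434305))) (Pf.B 11 7 (Pf.B 8 7 (Pf.C 1 0x50e04588) (Pf.C 0 0x220687)) (Pf.C 0 0x22c687)))) (Pf.B 13 8 (Pf.B 13 5 (Pf.C 1 0xb1a04405) (Pf.B 11 9 (Pf.B 9 5 (Pf.B 12 9 (Pf.B 12 5 (Pf.B 12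 8 (Pf.C 1 0x51a0440c) (Pf.C 1 0x91030281)) (Pf.C 1 0xb1814481)) (Pf.B 12 8 (Pf.B 12 5 (Pf.C 1 0x11a1440c) (Pf.C 1 0xb1814401)) (Pf.C 0 0x9162000c))) (Pf.C 0 0xd0400289)) (Pf.C 0 0xd040048b))) (Pf.C 0 0x434488))) (Pf.B 13 8 (Pf.B 13 5 (Pf.C 1 0xb1a04405) (Pf.B 11 10 (Pf.B 10 5 (Pf.C 1 0x81404585) (Pf.C 0 0x21468a)) (Pf.C 0 0x22c68a))) (Pf.C 0 0x22050d))))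
 (Pq.cons (Pq.L [0,2] 3712 (Pf.B 13 8 (Pf.B 13 5 (Pf.C 0 0x81a14580) (Pf.C 0 0x434585)) (Pf.C 0 0x434588)))
 (Pq.cons (Pq.L [0,1,3] 4095 (Pf.B 13 10 (Pf.B 13 9 (Pf.B 13 8 (Pf.B 13 5 (Pf.C 1 0xb1a04405) (Pf.B 12 10 (Pf.B 12 9 (Pf.C 1 0xd022848c) (Pf.B 12 8 (Pf.B 12 5 (Pf.C 1 0x11a1440c) (Pf.C 1 0xb1814401)) (Pf.C 0 0x91430008))) (Pf.B 12 8 (Pf.B 12 5 (Pf.C 1 0x11a1440c) (Pf.C 1 0xb1814401)) (Pf.C 0 0xa060040c)))) (Pf.B 13 7 (Pf.B 13 6 (Pf.B 12 10 (Pf.B 12 9 (Pf.C 1 0xd022848c) (Pf.B 12 8 (Pf.B 12 5 (Pf.B 11 9 (Pf.B 10 5 (Pf.C 1 0x81404605) (Pf.B 10 7 (Pf.B 12 7 (Pf.B 12 6 (Pf.C 1 0xd021c30c) (Pf.B 11 6 (Pf.B 9 6 (Pf.C 1 0xb1a04309) (Pf.C 0 0x61624600)) (Pf.C 0 0xc1a1800b))) (Pf.C 1 0x3181c68a))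 (Pf.C 0 0x5020038a))) (Pf.C 0 0xc1a2400b)) (Pf.C 1 0xb1814401)) (Pf.C 0 0x91430008))) (Pf.B 11 10 (Pf.B 10 5 (Pf.C 1 0x81404585) (Pf.B 10 7 (Pf.B 12 7 (Pf.C 1 0xa180c687) (Pf.B 11 7 (Pf.C 1 0xd160c507) (Pf.C 0 0x61c60b))) (Pf.C 0 0x5020038a))) (Pf.C 0 0x62860b))) (Pf.B 13 5 (Pf.B 11 6 (Pf.B 8 6 (Pf.B 12 10 (Pf.B 12 9 (Pf.C 1 0xd022848c) (Pf.B 12 8 (Pf.B 12 6 (Pf.B 12 5 (Pf.C 1 0x81a0428c) (Pf.C 1 0x60a30401)) (Pf.C 1 0xb1818401)) (Pf.C 0 0x91430008))) (Pf.B 12 8 (Pf.B 12 6 (Pf.B 12 5 (Pf.C 1 0x81a0428c) (Pf.C 1 0x60a30401)) (Pf.C 1 0xb1818401)) (Pf.C 0 0xa060040c))) (Pf.C 0 0xd0600308)) (Pf.C 0 0xd060030b)) (Pf.C 0 0x634305))) (Pf.B 11 7 (Pf.B 8 7 (Pf.C 1 0x50e04588) (Pf.C 0 0x220687)) (Pf.C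 0 0x22c687)))) (Pf.B 13 8 (Pf.B 13 5 (Pf.C 1 0xb1a04405) (Pf.B 11 9 (Pf.B 9 5 (Pf.B 12 9 (Pf.B 12 5 (Pf.B 12 8 (Pf.C 1 0x51a0440c) (Pf.C 1 0x91030281)) (Pf.C 1 0xb1814481)) (Pf.B 12 8 (Pf.B 12 5 (Pf.C 1 0x11a1440c) (Pf.C 1 0xb1814401)) (Pf.C 0 0x9162000c))) (Pf.C 0 0xd0600289)) (Pf.C 0 0xd060048b))) (Pf.C 0 0x634488))) (Pf.B 13 8 (Pf.B 13 5 (Pf.C 1 0xb1a04405) (Pf.B 11 10 (Pf.B 10 5 (Pf.C 1 0x81404585) (Pf.C 0 0x21468a)) (Pf.C 0 0x22c68a))) (Pf.C 0 0x22050d))))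
 (Pq.cons (Pq.L [0,3] 3712 (Pf.B 13 8 (Pf.B 13 5 (Pf.C 0 0x81a14580) (Pf.C 0 0x634585)) (Pf.C 0 0x634588)))
 (Pq.cons (Pq.L [0,1,4] 4095 (Pf.B 13 10 (Pf.B 13 9 (Pf.B 13 8 (Pf.B 13 5 (Pf.C 1 0xb1a04405) (Pf.B 12 10 (Pf.B 12 9 (Pf.C 1 0xd022848c) (Pf.B 12 8 (Pf.B 12 5 (Pf.C 1 0x11a1440c) (Pf.C 1 0xb1814401)) (Pf.C 0 0x91430008))) (Pf.B 12 8 (Pf.B 12 5 (Pf.C 1 0x11a1440c) (Pf.C 1 0xb1814401)) (Pf.C 0 0xa080040c)))) (Pf.B 13 7 (Pf.B 13 6 (Pf.B 12 10 (Pf.B 12 9 (Pf.C 1 0xd022848c) (Pf.B 12 8 (Pf.B 12 5 (Pf.B 11 9 (Pf.B 10 5 (Pf.C 1 0x81404605) (Pf.B 10 7 (Pf.B 12 7 (Pf.B 12 6 (Pf.C 1 0xd021c30c) (Pf.B 11 6 (Pf.B 9 6 (Pf.C 1 0xb1a04309) (Pf.C 0 0x61624600)) (Pf.C 0 0xc1a1800b))) (Pf.C 1 0x4181c68a))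 (Pf.C 0 0x5020038a))) (Pf.C 0 0xc1a2400b)) (Pf.C 1 0xb1814401)) (Pf.C 0 0x91430008))) (Pf.B 11 10 (Pf.B 10 5 (Pf.C 1 0x81404585) (Pf.B 10 7 (Pf.B 12 7 (Pf.C 1 0xa1810687) (Pf.B 11 7 (Pf.C 1 0xd1610507) (Pf.C 0 0x81c60b))) (Pf.C 0 0x5020038a))) (Pf.C 0 0x82860b))) (Pf.B 13 5 (Pf.B 11 6 (Pf.B 8 6 (Pf.B 12 10 (Pf.B 12 9 (Pf.C 1 0xd022848c) (Pf.B 12 8 (Pf.B 12 6 (Pf.B 12 5 (Pf.C 1 0x81a0428c) (Pf.C 1 0x60a30401)) (Pf.C 1 0xb1818401)) (Pf.C 0 0x91430008))) (Pf.B 12 8 (Pf.B 12 6 (Pf.B 12 5 (Pf.C 1 0x81a0428c) (Pf.C 1 0x60a30401)) (Pf.C 1 0xb1818401)) (Pf.C 0 0xa080040c))) (Pf.C 0 0xd0800308)) (Pf.C 0 0xd080030b)) (Pf.C 0 0x834305))) (Pf.B 11 7 (Pf.B 8 7 (Pf.C 1 0x50e04588) (Pf.C 0 0x220687)) (Pf.C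 0 0x22c687)))) (Pf.B 13 8 (Pf.B 13 5 (Pf.C 1 0xb1a04405) (Pf.B 11 9 (Pf.B 9 5 (Pf.B 12 9 (Pf.B 12 5 (Pf.B 12 8 (Pf.C 1 0x51a0440c) (Pf.C 1 0x91030281)) (Pf.C 1 0xb1814481)) (Pf.B 12 8 (Pf.B 12 5 (Pf.C 1 0x11a1440c) (Pf.C 1 0xb1814401)) (Pf.C 0 0x9162000c))) (Pf.C 0 0xd0800289)) (Pf.C 0 0xd080048b))) (Pf.C 0 0x834488))) (Pf.B 13 8 (Pf.B 13 5 (Pf.C 1 0xb1a04405) (Pf.B 11 10 (Pf.B 10 5 (Pf.C 1 0x81404585) (Pf.C 0 0x21468a)) (Pf.C 0 0x22c68a))) (Pf.C 0 0x22050d))))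
 (Pq.cons (Pq.L [0,4] 3712 (Pf.B 13 8 (Pf.B 13 5 (Pf.C 0 0x81a14580) (Pf.C 0 0x834585)) (Pf.C 0 0x834588)))
 (Pq.cons (Pq.L [0,1] 4095 (Pf.B 13 10 (Pf.B 13 9 (Pf.B 13 8 (Pf.B 13 5 (Pf.C 1 0xb1a04405) (Pf.B 12 10 (Pf.B 12 9 (Pf.C 1 0xd022848c) (Pf.B 12 8 (Pf.B 12 5 (Pf.C 1 0x11a1440c) (Pf.C 1 0xb1814401)) (Pf.C 0 0x91430008))) (Pf.B 11 10 (Pf.B 12 8 (Pf.B 12 5 (Pf.C 1 0x11a1440c) (Pf.C 1 0xb1814401)) (Pf.C 0 0xa162000c)) (Pf.C 0 0xc1a2800b)))) (Pf.B 13 7 (Pf.B 13 6 (Pf.B 13 5 (Pf.B 12 10 (Pf.B 12 9 (Pf.C 1 0xd022848c) (Pf.B 12 8 (Pf.B 12 5 (Pf.C 1 0x81a0428c) (Pf.C 1 0xb1814401)) (Pf.C 0 0x91430008))) (Pf.B 12 8 (Pf.B 12 5 (Pf.C 1 0x81a0428c) (Pf.C 1 0xb1814401)) (Pf.C 0 0xa1a30008))) (Pf.B 12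 10 (Pf.B 12 9 (Pf.C 1 0xd022848c) (Pf.B 12 8 (Pf.B 12 5 (Pf.B 11 9 (Pf.B 10 5 (Pf.C 1 0x81404605) (Pf.B 10 7 (Pf.B 10 6 (Pf.B 12 6 (Pf.C 1 0xd022830c) (Pf.B 11 6 (Pf.B 9 6 (Pf.C 1 0xb1a04309) (Pf.C 0 0x61624600)) (Pf.C 0 0xc1a1800b))) (Pf.C 0 0x60e28280)) (Pf.C 0 0x5020038a))) (Pf.C 0 0xc1a2400b)) (Pf.C 1 0xb1814401)) (Pf.C 0 0x91430008))) (Pf.B 12 8 (Pf.B 12 5 (Pf.B 11 10 (Pf.B 10 5 (Pf.C 1 0x81404585) (Pf.B 10 7 (Pf.B 10 6 (Pf.B 9 6 (Pf.C 1 0xd0228309) (Pf.B 9 7 (Pf.B 9 5 (Pf.B 12 9 (Pf.C 1 0x51a0448c) (Pf.C 1 0x81230281)) (Pf.C 0 0x60e24005)) (Pf.C 1 0x6121c68a))) (Pf.C 0 0x60e28280)) (Pf.C 0 0x5020038a))) (Pf.C 0 0xc1a2800b)) (Pf.C 1 0xb1814401)) (Pf.C 0 0xa1a30008)))) (Pf.B 13 5 (Pf.B 11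 6 (Pf.B 8 6 (Pf.B 12 10 (Pf.B 12 9 (Pf.C 1 0xd022848c) (Pf.B 12 8 (Pf.B 12 6 (Pf.B 12 5 (Pf.C 1 0x81a0428c) (Pf.C 1 0x60a30401)) (Pf.C 1 0xb1818401)) (Pf.C 0 0x91430008))) (Pf.B 12 8 (Pf.B 12 6 (Pf.B 12 5 (Pf.C 1 0x81a0428c) (Pf.C 1 0x60a30401)) (Pf.C 1 0xb1818401)) (Pf.C 0 0xa1a30008))) (Pf.C 0 0xd0a20006)) (Pf.C 0 0xd0a2c006)) (Pf.C 0 0x60e34005))) (Pf.B 11 7 (Pf.B 8 7 (Pf.C 1 0x50e04588) (Pf.C 0 0x220687)) (Pf.C 0 0x22c687)))) (Pf.B 13 8 (Pf.B 13 5 (Pf.C 1 0xb1a04405) (Pf.B 11 9 (Pf.B 9 5 (Pf.B 12 9 (Pf.B 12 5 (Pf.B 12 8 (Pf.C 1 0x51a0440c) (Pf.C 1 0x91030281)) (Pf.C 1 0xb1814481)) (Pf.B 12 8 (Pf.B 12 5 (Pf.C 1 0x11a1440c) (Pf.C 1 0xb1814401)) (Pf.C 0 0x9162000c))) (Pf.C 0 0xd1014009)) (Pf.C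 0 0xd102c009))) (Pf.C 0 0x91434008))) (Pf.B 13 8 (Pf.B 13 5 (Pf.C 1 0xb1a04405) (Pf.B 11 10 (Pf.B 10 5 (Pf.C 1 0x81404585) (Pf.C 0 0x21468a)) (Pf.C 0 0x22c68a))) (Pf.C 0 0x22050d))))
 (Pq.cons (Pq.L [0,1] 4095 (Pf.B 13 10 (Pf.B 13 9 (Pf.B 13 8 (Pf.B 13 5 (Pf.C 0 0x81a14580) (Pf.B 13 7 (Pf.B 13 6 (Pf.B 12 8 (Pf.B 12 5 (Pf.C 0 0x81814580) (Pf.B 12 7 (Pf.B 12 6 (Pf.C 1 0xd021c30c) (Pf.C 0 0x60e30280)) (Pf.C 0 0x71a30280))) (Pf.C 0 0x81a30580)) (Pf.C 0 0x60e34280)) (Pf.C 0 0x5020038d))) (Pf.B 12 8 (Pf.C 0 0xd1820580) (Pf.B 12 10 (Pf.B 12 9 (Pf.C 1 0xd022848c) (Pf.C 0 0x91430400)) (Pf.C 0 0xa1a30400)))) (Pf.B 13 8 (Pf.B 13 5 (Pf.C 0 0x81a14580) (Pf.B 13 7 (Pf.B 13 6 (Pf.B 12 8 (Pf.B 12 5 (Pf.C 0 0x81814580)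 (Pf.B 12 7 (Pf.B 12 6 (Pf.C 1 0xd021c30c) (Pf.C 0 0x60e30280)) (Pf.C 0 0x71a30280))) (Pf.C 0 0x81a30580)) (Pf.C 0 0x60e34280)) (Pf.C 0 0x5020038d))) (Pf.C 0 0x91434008))) (Pf.B 13 8 (Pf.B 13 5 (Pf.C 0 0x81a14580) (Pf.B 13 7 (Pf.B 13 6 (Pf.B 12 8 (Pf.B 12 5 (Pf.C 0 0x81814580) (Pf.B 12 7 (Pf.B 12 6 (Pf.C 1 0xd021c30c) (Pf.C 0 0x60e30280)) (Pf.C 0 0x71a30280))) (Pf.C 0 0x81a30580)) (Pf.C 0 0x60e34280)) (Pf.C 0 0x5020038d))) (Pf.C 0 0x22050d))))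
 (Pq.cons (Pq.L [0,1,2] 4095 (Pf.B 13 10 (Pf.B 13 8 (Pf.B 13 5 (Pf.B 11 10 (Pf.C 1 0xd022840b) (Pf.B 10 5 (Pf.C 1 0x8041468a) (Pf.C 1 0xb1414688))) (Pf.C 1 0x11a14588)) (Pf.B 13 5 (Pf.C 1 0x81a04585) (Pf.B 12 8 (Pf.B 12 5 (Pf.C 1 0xb1804405) (Pf.C 0 0x21468c)) (Pf.C 0 0x22068c)))) (Pf.B 13 9 (Pf.B 13 8 (Pf.B 13 5 (Pf.B 13 7 (Pf.B 11 7 (Pf.C 1 0xd021c28b) (Pf.B 8 7 (Pf.C 1 0xd021c288) (Pf.C 1 0xb0e20685))) (Pf.B 13 6 (Pf.B 12 10 (Pf.B 12 9 (Pf.B 12 7 (Pf.B 10 7 (Pf.B 9 7 (Pf.C 1 0xc1a1c109) (Pf.C 1 0xa121c602)) (Pf.C 0 0x71828680)) (Pf.B 12 6 (Pf.C 0 0xd0c30380) (Pf.B 12 5 (Pf.C 0 0x70a30300) (Pf.C 0 0x61a1400c)))) (Pf.B 12 8 (Pf.B 12 5 (Pf.C 1 0xb1804405) (Pf.B 12 7 (Pf.B 12 6 (Pf.B 10 7 (Pf.B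 10 6 (Pf.C 1 0xc1a28106) (Pf.C 1 0x70c28602)) (Pf.C 0 0x71828680)) (Pf.C 0 0x5020030c)) (Pf.C 0 0xd0a1c00c))) (Pf.C 0 0x22048c))) (Pf.B 12 9 (Pf.C 0 0xd1230500) (Pf.B 12 8 (Pf.C 0 0xa1030480) (Pf.C 0 0x91a2000c)))) (Pf.C 0 0x70a34006))) (Pf.C 1 0x11a14588)) (Pf.B 13 5 (Pf.C 1 0x81a04585) (Pf.B 12 8 (Pf.B 12 5 (Pf.C 1 0xb1804405) (Pf.C 0 0x21468c)) (Pf.C 0 0x22068c)))) (Pf.B 13 8 (Pf.C 0 0xa1034480) (Pf.C 0 0x22048d)))))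
 (Pq.cons (Pq.L [0,2] 3648 (Pf.B 12 8 (Pf.B 12 5 (Pf.C 0 0x81814580) (Pf.C 0 0x430585)) (Pf.C 0 0x430588)))
 (Pq.cons (Pq.L [0,1,2,3] 4095 (Pf.B 13 10 (Pf.B 13 9 (Pf.B 13 8 (Pf.B 13 5 (Pf.C 1 0xb1a04405) (Pf.B 13 7 (Pf.B 13 6 (Pf.B 12 10 (Pf.B 12 9 (Pf.C 1 0xd042848c) (Pf.B 12 8 (Pf.B 12 5 (Pf.C 1 0xb1804405) (Pf.B 12 7 (Pf.B 12 6 (Pf.C 1 0xd041c30c) (Pf.C 0 0x5020030c)) (Pf.C 0 0x5020038c))) (Pf.C 0 0x22048c))) (Pf.B 12 8 (Pf.B 12 5 (Pf.C 1 0xb1804405) (Pf.B 12 7 (Pf.B 12 6 (Pf.C 1 0xd041c30c) (Pf.C 0 0x5020030c)) (Pf.C 0 0x5020038c))) (Pf.C 0 0xa060040c))) (Pf.C 0 0x5020030d)) (Pf.C 0 0x5020038d))) (Pf.B 13 7 (Pf.B 13 6 (Pf.B 12 10 (Pf.B 12 9 (Pf.C 1 0xd042848c) (Pf.B 12 8 (Pf.B 12 5 (Pf.C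 1 0xb1804405) (Pf.B 12 7 (Pf.B 12 6 (Pf.C 1 0xd041c30c) (Pf.C 0 0x5020030c)) (Pf.C 0 0x5020038c))) (Pf.C 0 0x22048c))) (Pf.B 12 8 (Pf.B 12 5 (Pf.C 1 0xb1804405) (Pf.B 12 7 (Pf.B 12 6 (Pf.C 1 0xd041c30c) (Pf.C 0 0x5020030c)) (Pf.C 0 0x5020038c))) (Pf.C 0 0xa060040c))) (Pf.B 11 6 (Pf.B 8 6 (Pf.C 1 0x50c04588) (Pf.C 0 0xd0600308)) (Pf.C 0 0xd060030b))) (Pf.B 11 7 (Pf.B 8 7 (Pf.C 1 0x50e04588) (Pf.C 0 0x220687)) (Pf.C 0 0x22c687)))) (Pf.B 13 8 (Pf.B 13 5 (Pf.C 1 0xb1a04405) (Pf.B 11 9 (Pf.B 9 5 (Pf.C 1 0x81204585) (Pf.C 0 0xd0600289)) (Pf.C 0 0xd060048b))) (Pf.C 0 0x9040040d))) (Pf.B 13 8 (Pf.B 13 5 (Pf.C 1 0xb1a04405) (Pf.B 11 10 (Pf.B 10 5 (Pf.C 1 0x81404585) (Pf.C 0 0x21468a)) (Pf.C 0 0x22c68a)))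 (Pf.C 0 0x22050d))))
 (Pq.cons (Pq.L [0,3] 3712 (Pf.B 13 8 (Pf.B 13 5 (Pf.C 0 0x81a14580) (Pf.C 0 0x634585)) (Pf.C 0 0x634588)))
 (Pq.cons (Pq.L [0,1,2,3] 4095 (Pf.B 13 10 (Pf.B 13 8 (Pf.B 13 5 (Pf.B 11 10 (Pf.C 1 0xd022840b) (Pf.B 10 5 (Pf.C 1 0x8061468a) (Pf.C 1 0xb1414688))) (Pf.C 1 0x11a14588)) (Pf.B 13 5 (Pf.C 1 0x81a04585) (Pf.B 12 8 (Pf.B 12 5 (Pf.C 1 0xb1804405) (Pf.C 0 0xd060028c)) (Pf.C 0 0xd060040c)))) (Pf.B 13 9 (Pf.B 12 10 (Pf.B 13 8 (Pf.B 13 5 (Pf.B 13 7 (Pf.B 11 7 (Pf.C 1 0xd021c28b) (Pf.B 8 7 (Pf.C 1 0xd021c288) (Pf.C 1 0xb0e20685))) (Pf.B 13 6 (Pf.B 12 7 (Pf.B 10 7 (Pf.B 12 9 (Pf.B 12 6 (Pf.B 9 6 (Pf.C 1 0xc1a08309) (Pf.B 9 5 (Pf.B 11 9 (Pf.C 1 0xd022428b) (Pf.C 1 0x8122c685))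 (Pf.C 0 0x214309))) (Pf.B 12 5 (Pf.B 11 6 (Pf.B 10 5 (Pf.C 1 0xc061438a) (Pf.B 11 10 (Pf.C 1 0x5140440b) (Pf.B 11 9 (Pf.B 9 6 (Pf.C 1 0xd042c309) (Pf.B 9 7 (Pf.B 9 5 (Pf.C 1 0xc1a1c289) (Pf.C 0 0xa0600289)) (Pf.C 0 0x61c309))) (Pf.C 0 0xa060048b)))) (Pf.C 0 0x22c606)) (Pf.C 0 0x61a1400c))) (Pf.B 12 8 (Pf.B 12 5 (Pf.C 1 0xb1804405) (Pf.B 11 9 (Pf.B 9 5 (Pf.C 1 0xd0224585) (Pf.C 0 0x214609)) (Pf.C 0 0x22c609))) (Pf.C 0 0x22048c))) (Pf.C 0 0x71828680)) (Pf.C 0 0x430687)) (Pf.C 0 0x41838d))) (Pf.C 1 0x11a14588)) (Pf.B 13 5 (Pf.C 1 0x81a04585) (Pf.B 12 8 (Pf.B 12 5 (Pf.C 1 0xb1804405) (Pf.C 0 0xd060028c)) (Pf.C 0 0xd060040c)))) (Pf.C 0 0x43068a)) (Pf.C 0 0x42450d))))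
 (Pq.cons (Pq.L [0,2] 3648 (Pf.B 12 8 (Pf.B 12 5 (Pf.C 0 0x81814580) (Pf.C 0 0x430585)) (Pf.C 0 0x430588)))
 Pq.nil))))))))))))))))))))))))))))))))))))
theorem h_o25 : AllRef h_T h_G12 (List.take 36 (List.take 66 (List.drop 176 (hitObl [28,29,30,31,32,33,34,35,36,37,38] h_h15)))) :=
  chkPq_sound h_o25c _ (by decide +kernel)
noncomputable def h_o26c : Pq := (Pq.cons (Pq.L [0,1,2,3] 4095 (Pf.B 13 10 (Pf.B 13 9 (Pf.B 13 8 (Pf.B 13 5 (Pf.C 1 0xb1a04405) (Pf.B 13 7 (Pf.B 12 5 (Pf.B 12 8 (Pf.B 13 6 (Pf.B 12 10 (Pf.B 12 9 (Pf.B 11 9 (Pf.C 1 0xc022440b) (Pf.B 11 10 (Pf.B 10 5 (Pf.C 1 0xc0228585) (Pf.C 1 0x8141460b)) (Pf.C 0 0x9040050b))) (Pf.B 12 7 (Pf.B 10 7 (Pf.C 1 0xd180c38a) (Pf.B 10 5 (Pf.B 11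 10 (Pf.C 1 0xc022828b) (Pf.C 1 0x8142c605)) (Pf.C 0 0x21438a))) (Pf.B 12 6 (Pf.B 9 7 (Pf.B 10 7 (Pf.C 1 0x31228687) (Pf.B 10 6 (Pf.B 10 5 (Pf.C 1 0xc1a1430a) (Pf.C 0 0x21438a)) (Pf.C 0 0x41838a))) (Pf.C 0 0x61c609)) (Pf.C 0 0x7060030c)))) (Pf.B 12 9 (Pf.B 11 9 (Pf.C 1 0xc022440b) (Pf.B 11 10 (Pf.B 10 5 (Pf.C 1 0x81404585) (Pf.B 10 7 (Pf.B 11 7 (Pf.C 1 0xd160c507) (Pf.B 11 6 (Pf.B 12 6 (Pf.C 1 0xb041430c) (Pf.B 10 6 (Pf.C 1 0x70c0c68a) (Pf.C 0 0xc0a1800a))) (Pf.C 0 0x7060030b))) (Pf.C 0 0x5020038a))) (Pf.C 0 0x9040050b))) (Pf.C 0 0xa060048c))) (Pf.B 12 6 (Pf.B 11 6 (Pf.C 1 0xc021828b) (Pf.C 0 0xd060030b)) (Pf.C 0 0xd060030c))) (Pf.C 1 0x11820585)) (Pf.C 0 0xd060028c)) (Pf.C 0 0x5020038d))) (Pf.B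 12 8 (Pf.B 12 5 (Pf.B 13 7 (Pf.B 13 6 (Pf.B 13 5 (Pf.B 12 10 (Pf.B 12 9 (Pf.B 11 9 (Pf.C 1 0xc022440b) (Pf.B 11 10 (Pf.B 10 5 (Pf.C 1 0xc1a2c28a) (Pf.C 1 0x8141460b)) (Pf.C 0 0x9040050b))) (Pf.B 12 7 (Pf.B 10 7 (Pf.C 1 0xd180c38a) (Pf.B 10 6 (Pf.B 10 5 (Pf.C 1 0x6061468a) (Pf.C 0 0x21438a)) (Pf.C 0 0x41838a))) (Pf.B 9 7 (Pf.B 10 7 (Pf.C 1 0x31228687) (Pf.B 10 6 (Pf.B 10 5 (Pf.C 1 0x6061468a) (Pf.C 0 0x21438a)) (Pf.C 0 0x41838a))) (Pf.C 0 0x61c609)))) (Pf.B 12 9 (Pf.B 11 9 (Pf.C 1 0xc022440b) (Pf.B 11 10 (Pf.B 10 5 (Pf.C 1 0x81404585) (Pf.B 10 7 (Pf.B 11 7 (Pf.C 1 0xd160c507) (Pf.B 11 6 (Pf.B 12 6 (Pf.C 1 0xb041430c) (Pf.B 10 6 (Pf.C 1 0x70c0c68a) (Pf.C 0 0xc0a1800a))) (Pf.C 0 0x7060030b))) (Pf.C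 0 0x5020038a))) (Pf.C 0 0x9040050b))) (Pf.C 0 0xa060048c))) (Pf.B 12 10 (Pf.B 12 9 (Pf.B 11 9 (Pf.C 1 0xc022440b) (Pf.B 11 10 (Pf.B 10 5 (Pf.C 1 0xc0228585) (Pf.C 1 0x8141460b)) (Pf.C 0 0x9040050b))) (Pf.B 12 7 (Pf.B 10 7 (Pf.C 1 0xd180c38a) (Pf.B 10 5 (Pf.B 11 10 (Pf.C 1 0xc022828b) (Pf.C 1 0x8142c605)) (Pf.C 0 0x21438a))) (Pf.B 12 6 (Pf.B 9 7 (Pf.B 10 7 (Pf.C 1 0x31228687) (Pf.B 10 6 (Pf.B 10 5 (Pf.C 1 0xc1a1430a) (Pf.C 0 0x21438a)) (Pf.C 0 0x41838a))) (Pf.C 0 0x61c609)) (Pf.C 0 0x7060030c)))) (Pf.B 12 9 (Pf.B 11 9 (Pf.C 1 0xc022440b) (Pf.B 11 10 (Pf.B 10 5 (Pf.C 1 0x81404585) (Pf.B 10 7 (Pf.B 11 7 (Pf.C 1 0xd160c507) (Pf.B 11 6 (Pf.B 12 6 (Pf.C 1 0xb041430c) (Pf.B 10 6 (Pf.C 1 0x70c0c68a)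 (Pf.C 0 0xc0a1800a))) (Pf.C 0 0x7060030b))) (Pf.C 0 0x5020038a))) (Pf.C 0 0x9040050b))) (Pf.C 0 0xa060048c)))) (Pf.B 12 6 (Pf.B 11 6 (Pf.C 1 0xc021828b) (Pf.C 0 0xd060030b)) (Pf.C 0 0xd060030c))) (Pf.B 12 7 (Pf.B 11 7 (Pf.B 8 7 (Pf.C 1 0xc021c588) (Pf.C 0 0x220687)) (Pf.C 0 0x22c687)) (Pf.C 0 0x430687))) (Pf.C 1 0x11814588)) (Pf.C 0 0xd060040c))) (Pf.B 12 9 (Pf.B 11 9 (Pf.B 12 8 (Pf.C 1 0xb042048c) (Pf.B 13 8 (Pf.B 13 5 (Pf.C 1 0xb1a04405) (Pf.B 12 5 (Pf.C 1 0x81804585) (Pf.C 0 0xd060028c))) (Pf.C 0 0xc040040d))) (Pf.C 0 0xd060048b)) (Pf.C 0 0xd060048c))) (Pf.B 13 8 (Pf.B 13 5 (Pf.C 1 0xb1a04405) (Pf.B 12 10 (Pf.B 12 5 (Pf.B 11 10 (Pf.B 10 5 (Pf.C 1 0xc0228585) (Pf.C 0 0x21468a)) (Pf.C 0 0x22c68a))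 (Pf.C 0 0xd060028c)) (Pf.C 0 0x43068a))) (Pf.C 0 0x22050d))))
 (Pq.cons (Pq.L [0,3] 3712 (Pf.B 13 8 (Pf.B 13 5 (Pf.C 0 0x81a14580) (Pf.C 0 0x634585)) (Pf.C 0 0x634588)))
 (Pq.cons (Pq.L [0,1,2,4] 4095 (Pf.B 13 10 (Pf.B 13 9 (Pf.B 13 8 (Pf.B 13 5 (Pf.C 1 0xb1a04405) (Pf.B 13 7 (Pf.B 13 6 (Pf.B 12 10 (Pf.B 12 9 (Pf.C 1 0xd042848c) (Pf.B 12 8 (Pf.B 12 5 (Pf.C 1 0xb1804405) (Pf.B 12 7 (Pf.B 12 6 (Pf.C 1 0xd041c30c) (Pf.C 0 0x5020030c)) (Pf.C 0 0x5020038c))) (Pf.C 0 0x22048c))) (Pf.B 12 8 (Pf.B 12 5 (Pf.C 1 0xb1804405) (Pf.B 12 7 (Pf.B 12 6 (Pf.C 1 0xd041c30c) (Pf.C 0 0x5020030c)) (Pf.C 0 0x5020038c))) (Pf.C 0 0xa080040c))) (Pf.C 0 0x5020030d)) (Pf.C 0 0x5020038d))) (Pf.B 13 7 (Pf.B 13 6 (Pf.B 12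 10 (Pf.B 12 9 (Pf.C 1 0xd042848c) (Pf.B 12 8 (Pf.B 12 5 (Pf.C 1 0xb1804405) (Pf.B 12 7 (Pf.B 12 6 (Pf.C 1 0xd041c30c) (Pf.C 0 0x5020030c)) (Pf.C 0 0x5020038c))) (Pf.C 0 0x22048c))) (Pf.B 12 8 (Pf.B 12 5 (Pf.C 1 0xb1804405) (Pf.B 12 7 (Pf.B 12 6 (Pf.C 1 0xd041c30c) (Pf.C 0 0x5020030c)) (Pf.C 0 0x5020038c))) (Pf.C 0 0xa080040c))) (Pf.B 11 6 (Pf.B 8 6 (Pf.C 1 0x50c04588) (Pf.C 0 0xd0800308)) (Pf.C 0 0xd080030b))) (Pf.B 11 7 (Pf.B 8 7 (Pf.C 1 0x50e04588) (Pf.C 0 0x220687)) (Pf.C 0 0x22c687)))) (Pf.B 13 8 (Pf.B 13 5 (Pf.C 1 0xb1a04405) (Pf.B 11 9 (Pf.B 9 5 (Pf.C 1 0x81204585) (Pf.C 0 0xd0800289)) (Pf.C 0 0xd080048b))) (Pf.C 0 0x9040040d))) (Pf.B 13 8 (Pf.B 13 5 (Pf.C 1 0xb1a04405) (Pf.B 11 10 (Pf.B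 10 5 (Pf.C 1 0x81404585) (Pf.C 0 0x21468a)) (Pf.C 0 0x22c68a))) (Pf.C 0 0x22050d))))
 (Pq.cons (Pq.L [0,4] 3712 (Pf.B 13 8 (Pf.B 13 5 (Pf.C 0 0x81a14580) (Pf.C 0 0x834585)) (Pf.C 0 0x834588)))
 (Pq.cons (Pq.L [0,1,2,4] 4095 (Pf.B 13 10 (Pf.B 13 8 (Pf.B 13 5 (Pf.B 11 10 (Pf.C 1 0xd022840b) (Pf.B 10 5 (Pf.C 1 0x8081468a) (Pf.C 1 0xb1414688))) (Pf.C 1 0x11a14588)) (Pf.B 13 5 (Pf.C 1 0x81a04585) (Pf.B 12 8 (Pf.B 12 5 (Pf.C 1 0xb1804405) (Pf.C 0 0xd080028c)) (Pf.C 0 0xd080040c)))) (Pf.B 13 9 (Pf.B 12 10 (Pf.B 13 8 (Pf.B 13 5 (Pf.B 13 7 (Pf.B 11 7 (Pf.C 1 0xd021c28b) (Pf.B 8 7 (Pf.C 1 0xd021c288) (Pf.C 1 0xb0e20685))) (Pf.B 13 6 (Pf.B 12 7 (Pf.B 10 7 (Pf.B 12 9 (Pf.B 12 6 (Pf.B 9 6 (Pf.C 1 0xc1a08309)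 (Pf.B 9 5 (Pf.B 11 9 (Pf.C 1 0xd022428b) (Pf.C 1 0x8122c685)) (Pf.C 0 0x214309))) (Pf.B 12 5 (Pf.B 11 6 (Pf.B 10 5 (Pf.C 1 0xc081438a) (Pf.B 11 10 (Pf.C 1 0x5140440b) (Pf.B 11 9 (Pf.B 9 6 (Pf.C 1 0xd042c309) (Pf.B 9 7 (Pf.B 9 5 (Pf.C 1 0xc1a1c289) (Pf.C 0 0xa0800289)) (Pf.C 0 0x81c309))) (Pf.C 0 0xa080048b)))) (Pf.C 0 0x22c606)) (Pf.C 0 0x61a1400c))) (Pf.B 12 8 (Pf.B 12 5 (Pf.C 1 0xb1804405) (Pf.B 11 9 (Pf.B 9 5 (Pf.C 1 0xd0224585) (Pf.C 0 0x214609)) (Pf.C 0 0x22c609))) (Pf.C 0 0x22048c))) (Pf.C 0 0x71828680)) (Pf.C 0 0x430687)) (Pf.C 0 0x41838d))) (Pf.C 1 0x11a14588)) (Pf.B 13 5 (Pf.C 1 0x81a04585) (Pf.B 12 8 (Pf.B 12 5 (Pf.C 1 0xb1804405) (Pf.C 0 0xd080028c)) (Pf.C 0 0xd080040c)))) (Pf.C 0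 0x43068a)) (Pf.C 0 0x42450d))))
 (Pq.cons (Pq.L [0,2] 3648 (Pf.B 12 8 (Pf.B 12 5 (Pf.C 0 0x81814580) (Pf.C 0 0x430585)) (Pf.C 0 0x430588)))
 (Pq.cons (Pq.L [0,1,2,4] 4095 (Pf.B 13 10 (Pf.B 13 9 (Pf.B 13 8 (Pf.B 13 5 (Pf.C 1 0xb1a04405) (Pf.B 13 7 (Pf.B 12 5 (Pf.B 12 8 (Pf.B 13 6 (Pf.B 12 10 (Pf.B 12 9 (Pf.B 11 9 (Pf.C 1 0xc022440b) (Pf.B 11 10 (Pf.B 10 5 (Pf.C 1 0xc0228585) (Pf.C 1 0x8141460b)) (Pf.C 0 0x9040050b))) (Pf.B 12 7 (Pf.B 10 7 (Pf.C 1 0xd181038a) (Pf.B 10 5 (Pf.B 11 10 (Pf.C 1 0xc022828b) (Pf.C 1 0x8142c605)) (Pf.C 0 0x21438a))) (Pf.B 12 6 (Pf.B 9 7 (Pf.B 10 7 (Pf.C 1 0x41228687) (Pf.B 10 6 (Pf.B 10 5 (Pf.C 1 0xc1a1430a) (Pf.C 0 0x21438a)) (Pf.C 0 0x41838a))) (Pf.C 0 0x81c609)) (Pf.C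 0 0x7080030c)))) (Pf.B 12 9 (Pf.B 11 9 (Pf.C 1 0xc022440b) (Pf.B 11 10 (Pf.B 10 5 (Pf.C 1 0x81404585) (Pf.B 10 7 (Pf.B 11 7 (Pf.C 1 0xd1610507) (Pf.B 11 6 (Pf.B 12 6 (Pf.C 1 0xb041430c) (Pf.B 10 6 (Pf.C 1 0x70c1068a) (Pf.C 0 0xc0a1800a))) (Pf.C 0 0x7080030b))) (Pf.C 0 0x5020038a))) (Pf.C 0 0x9040050b))) (Pf.C 0 0xa080048c))) (Pf.B 12 6 (Pf.B 11 6 (Pf.C 1 0xc021828b) (Pf.C 0 0xd080030b)) (Pf.C 0 0xd080030c))) (Pf.C 1 0x11820585)) (Pf.C 0 0xd080028c)) (Pf.C 0 0x5020038d))) (Pf.B 12 8 (Pf.B 12 5 (Pf.B 13 7 (Pf.B 13 6 (Pf.B 13 5 (Pf.B 12 10 (Pf.B 12 9 (Pf.B 11 9 (Pf.C 1 0xc022440b) (Pf.B 11 10 (Pf.B 10 5 (Pf.C 1 0xc1a2c28a) (Pf.C 1 0x8141460b)) (Pf.C 0 0x9040050b))) (Pf.B 12 7 (Pf.B 10 7 (Pf.C 1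 0xd181038a) (Pf.B 10 6 (Pf.B 10 5 (Pf.C 1 0x6081468a) (Pf.C 0 0x21438a)) (Pf.C 0 0x41838a))) (Pf.B 9 7 (Pf.B 10 7 (Pf.C 1 0x41228687) (Pf.B 10 6 (Pf.B 10 5 (Pf.C 1 0x6081468a) (Pf.C 0 0x21438a)) (Pf.C 0 0x41838a))) (Pf.C 0 0x81c609)))) (Pf.B 12 9 (Pf.B 11 9 (Pf.C 1 0xc022440b) (Pf.B 11 10 (Pf.B 10 5 (Pf.C 1 0x81404585) (Pf.B 10 7 (Pf.B 11 7 (Pf.C 1 0xd1610507) (Pf.B 11 6 (Pf.B 12 6 (Pf.C 1 0xb041430c) (Pf.B 10 6 (Pf.C 1 0x70c1068a) (Pf.C 0 0xc0a1800a))) (Pf.C 0 0x7080030b))) (Pf.C 0 0x5020038a))) (Pf.C 0 0x9040050b))) (Pf.C 0 0xa080048c))) (Pf.B 12 10 (Pf.B 12 9 (Pf.B 11 9 (Pf.C 1 0xc022440b) (Pf.B 11 10 (Pf.B 10 5 (Pf.C 1 0xc0228585) (Pf.C 1 0x8141460b)) (Pf.C 0 0x9040050b))) (Pf.B 12 7 (Pf.B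 10 7 (Pf.C 1 0xd181038a) (Pf.B 10 5 (Pf.B 11 10 (Pf.C 1 0xc022828b) (Pf.C 1 0x8142c605)) (Pf.C 0 0x21438a))) (Pf.B 12 6 (Pf.B 9 7 (Pf.B 10 7 (Pf.C 1 0x41228687) (Pf.B 10 6 (Pf.B 10 5 (Pf.C 1 0xc1a1430a) (Pf.C 0 0x21438a)) (Pf.C 0 0x41838a))) (Pf.C 0 0x81c609)) (Pf.C 0 0x7080030c)))) (Pf.B 12 9 (Pf.B 11 9 (Pf.C 1 0xc022440b) (Pf.B 11 10 (Pf.B 10 5 (Pf.C 1 0x81404585) (Pf.B 10 7 (Pf.B 11 7 (Pf.C 1 0xd1610507) (Pf.B 11 6 (Pf.B 12 6 (Pf.C 1 0xb041430c) (Pf.B 10 6 (Pf.C 1 0x70c1068a) (Pf.C 0 0xc0a1800a))) (Pf.C 0 0x7080030b))) (Pf.C 0 0x5020038a))) (Pf.C 0 0x9040050b))) (Pf.C 0 0xa080048c)))) (Pf.B 12 6 (Pf.B 11 6 (Pf.C 1 0xc021828b) (Pf.C 0 0xd080030b)) (Pf.C 0 0xd080030c))) (Pf.B 12 7 (Pf.B 11 7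 (Pf.B 8 7 (Pf.C 1 0xc021c588) (Pf.C 0 0x220687)) (Pf.C 0 0x22c687)) (Pf.C 0 0x430687))) (Pf.C 1 0x11814588)) (Pf.C 0 0xd080040c))) (Pf.B 12 9 (Pf.B 11 9 (Pf.B 12 8 (Pf.C 1 0xb042048c) (Pf.B 13 8 (Pf.B 13 5 (Pf.C 1 0xb1a04405) (Pf.B 12 5 (Pf.C 1 0x81804585) (Pf.C 0 0xd080028c))) (Pf.C 0 0xc040040d))) (Pf.C 0 0xd080048b)) (Pf.C 0 0xd080048c))) (Pf.B 13 8 (Pf.B 13 5 (Pf.C 1 0xb1a04405) (Pf.B 12 10 (Pf.B 12 5 (Pf.B 11 10 (Pf.B 10 5 (Pf.C 1 0xc0228585) (Pf.C 0 0x21468a)) (Pf.C 0 0x22c68a)) (Pf.C 0 0xd080028c)) (Pf.C 0 0x43068a))) (Pf.C 0 0x22050d))))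
 (Pq.cons (Pq.L [0,4] 3712 (Pf.B 13 8 (Pf.B 13 5 (Pf.C 0 0x81a14580) (Pf.C 0 0x834585)) (Pf.C 0 0x834588)))
 (Pq.cons (Pq.L [0,1,2] 4095 (Pf.B 13 10 (Pf.B 13 9 (Pf.B 13 8 (Pf.B 13 5 (Pf.C 1 0xb1a04405) (Pf.B 13 7 (Pf.B 13 6 (Pf.B 12 10 (Pf.B 12 9 (Pf.C 1 0xd042848c) (Pf.B 12 8 (Pf.B 12 5 (Pf.C 1 0xb1804405) (Pf.B 12 7 (Pf.B 12 6 (Pf.C 1 0xd041c30c) (Pf.C 0 0x5020030c)) (Pf.C 0 0x5020038c))) (Pf.C 0 0x22048c))) (Pf.B 12 8 (Pf.B 12 5 (Pf.C 1 0xb1804405) (Pf.B 12 7 (Pf.B 12 6 (Pf.C 1 0xd041c30c) (Pf.C 0 0x5020030c)) (Pf.C 0 0x5020038c))) (Pf.C 0 0x22050c))) (Pf.C 0 0x5020030d)) (Pf.C 0 0x5020038d))) (Pf.B 13 7 (Pf.B 13 6 (Pf.B 12 10 (Pf.B 12 9 (Pf.C 1 0xd042848c) (Pf.B 12 8 (Pf.B 12 5 (Pf.C 1 0xb1804405)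 (Pf.B 12 7 (Pf.B 12 6 (Pf.C 1 0xd041c30c) (Pf.C 0 0x5020030c)) (Pf.C 0 0x5020038c))) (Pf.C 0 0x22048c))) (Pf.B 12 8 (Pf.B 12 5 (Pf.C 1 0xb1804405) (Pf.B 12 7 (Pf.B 12 6 (Pf.C 1 0xd041c30c) (Pf.C 0 0x5020030c)) (Pf.C 0 0x5020038c))) (Pf.C 0 0x22050c))) (Pf.B 11 6 (Pf.B 8 6 (Pf.C 1 0x50c04588) (Pf.C 0 0x418688)) (Pf.C 0 0x41868b))) (Pf.B 11 7 (Pf.B 8 7 (Pf.C 1 0x50e04588) (Pf.C 0 0x220687)) (Pf.C 0 0x22c687)))) (Pf.B 13 8 (Pf.B 13 5 (Pf.C 1 0xb1a04405) (Pf.B 11 9 (Pf.B 9 5 (Pf.C 1 0x81204585) (Pf.C 0 0x214689)) (Pf.C 0 0x42468b))) (Pf.C 0 0x9040040d))) (Pf.B 13 8 (Pf.B 13 5 (Pf.C 1 0xb1a04405) (Pf.B 11 10 (Pf.B 10 5 (Pf.C 1 0x81404585) (Pf.C 0 0x21468a)) (Pf.C 0 0x22c68a))) (Pf.C 0 0x22050d))))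
 (Pq.cons (Pq.L [0,2] 3648 (Pf.B 12 8 (Pf.B 12 5 (Pf.C 0 0x81814580) (Pf.C 0 0x430585)) (Pf.C 0 0x430588)))
 (Pq.cons (Pq.L [0,1,2] 4095 (Pf.B 13 10 (Pf.B 13 8 (Pf.B 13 5 (Pf.B 11 10 (Pf.C 1 0xd022840b) (Pf.B 10 5 (Pf.C 1 0xd0228405) (Pf.C 1 0xb1414688))) (Pf.C 1 0x11a14588)) (Pf.B 13 5 (Pf.C 1 0x81a04585) (Pf.B 12 8 (Pf.B 12 5 (Pf.C 1 0xb1804405) (Pf.C 0 0x21468c)) (Pf.C 0 0x22068c)))) (Pf.B 13 9 (Pf.B 13 8 (Pf.B 13 5 (Pf.B 13 7 (Pf.B 11 7 (Pf.C 1 0xd021c28b) (Pf.B 8 7 (Pf.C 1 0xd021c288) (Pf.C 1 0xb0e20685))) (Pf.B 13 6 (Pf.B 12 9 (Pf.B 12 8 (Pf.B 12 5 (Pf.C 1 0xb1804405) (Pf.B 12 6 (Pf.B 9 6 (Pf.C 1 0xc1a08309) (Pf.B 9 5 (Pf.B 11 9 (Pf.C 1 0xd022428b) (Pf.C 1 0x8122c685)) (Pf.C 0 0x214309)))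 (Pf.C 0 0x5020030c))) (Pf.B 12 6 (Pf.B 9 6 (Pf.C 1 0xc1a08309) (Pf.B 9 5 (Pf.B 11 9 (Pf.C 1 0xd022428b) (Pf.C 1 0x8122c685)) (Pf.C 0 0x214309))) (Pf.B 11 6 (Pf.B 8 6 (Pf.C 1 0xd0218588) (Pf.C 0 0x220606)) (Pf.C 0 0x22c606)))) (Pf.B 12 8 (Pf.B 12 5 (Pf.C 1 0xb1804405) (Pf.B 11 9 (Pf.B 9 5 (Pf.C 1 0xd0224585) (Pf.C 0 0x214609)) (Pf.C 0 0x22c609))) (Pf.C 0 0x22048c))) (Pf.C 0 0x41838d))) (Pf.C 1 0x11a14588)) (Pf.B 13 5 (Pf.C 1 0x81a04585) (Pf.B 12 8 (Pf.B 12 5 (Pf.C 1 0xb1804405) (Pf.C 0 0x21468c)) (Pf.C 0 0x22068c)))) (Pf.C 0 0x42450d))))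
 (Pq.cons (Pq.L [0,2] 3648 (Pf.B 12 8 (Pf.B 12 5 (Pf.C 0 0x81814580) (Pf.C 0 0x430585)) (Pf.C 0 0x430588)))
 (Pq.cons (Pq.L [0,1,2] 4095 (Pf.B 13 10 (Pf.B 13 9 (Pf.B 13 8 (Pf.B 13 5 (Pf.C 1 0xb1a04405) (Pf.B 13 7 (Pf.B 12 5 (Pf.B 12 8 (Pf.B 13 6 (Pf.B 12 10 (Pf.B 12 9 (Pf.B 11 9 (Pf.C 1 0xc022440b) (Pf.B 11 10 (Pf.B 10 5 (Pf.C 1 0xc0228585) (Pf.C 1 0x8141460b)) (Pf.C 0 0x9040050b))) (Pf.B 12 7 (Pf.B 12 6 (Pf.B 11 6 (Pf.C 1 0xc021828b) (Pf.B 11 7 (Pf.B 8 7 (Pf.C 1 0xc1a2c388) (Pf.C 1 0x50e2060b)) (Pf.C 0 0x6040038b))) (Pf.B 9 6 (Pf.B 8 6 (Pf.C 1 0xd0420486) (Pf.B 11 6 (Pf.C 1 0x80c0428b) (Pf.B 11 7 (Pf.B 8 7 (Pf.C 1 0xc1a2c388) (Pf.C 0 0x60400388)) (Pf.C 0 0x6040038b)))) (Pf.C 0 0x61a24600)))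 (Pf.B 12 6 (Pf.B 11 6 (Pf.C 1 0xc021828b) (Pf.B 11 7 (Pf.B 8 7 (Pf.C 1 0x50e04588) (Pf.B 8 6 (Pf.C 1 0xc1a14308) (Pf.C 0 0x418388))) (Pf.C 0 0x6040038b))) (Pf.C 0 0x71a1800c)))) (Pf.B 12 9 (Pf.B 11 9 (Pf.C 1 0xc022440b) (Pf.B 11 10 (Pf.B 10 5 (Pf.C 1 0x81404585) (Pf.B 9 5 (Pf.C 1 0xc1a14409) (Pf.C 0 0x214509))) (Pf.C 0 0x9040050b))) (Pf.C 0 0xa1a2400c))) (Pf.B 12 6 (Pf.B 11 6 (Pf.C 1 0xc021828b) (Pf.C 0 0x41868b)) (Pf.C 0 0x60a30680))) (Pf.C 1 0x11820585)) (Pf.C 0 0x21468c)) (Pf.C 0 0x5020038d))) (Pf.B 12 8 (Pf.B 12 5 (Pf.B 13 7 (Pf.B 13 6 (Pf.B 12 10 (Pf.B 12 9 (Pf.B 11 9 (Pf.C 1 0xc022440b) (Pf.B 11 10 (Pf.B 10 5 (Pf.C 1 0xc0228585) (Pf.C 1 0x8141460b)) (Pf.C 0 0x9040050b))) (Pf.B 12 7 (Pf.B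 12 6 (Pf.B 11 6 (Pf.C 1 0xc021828b) (Pf.B 11 7 (Pf.B 8 7 (Pf.C 1 0xc021c588) (Pf.C 1 0x50e2060b)) (Pf.C 0 0x6040038b))) (Pf.B 9 6 (Pf.B 11 10 (Pf.B 10 5 (Pf.C 1 0xc0228585) (Pf.C 1 0x8141460b)) (Pf.B 11 9 (Pf.B 10 5 (Pf.C 1 0xb1420605) (Pf.B 9 5 (Pf.B 11 6 (Pf.C 1 0x9021828b) (Pf.B 11 7 (Pf.B 8 7 (Pf.C 1 0xc021c588) (Pf.C 1 0x50e2060b)) (Pf.C 0 0x6040038b))) (Pf.C 0 0x214509))) (Pf.C 0 0x42450b))) (Pf.C 0 0x61a24600))) (Pf.B 12 6 (Pf.B 11 6 (Pf.C 1 0xc021828b) (Pf.B 11 7 (Pf.B 8 7 (Pf.C 1 0x50e04588) (Pf.B 8 6 (Pf.C 1 0xc0218288) (Pf.C 0 0x418388))) (Pf.C 0 0x6040038b))) (Pf.C 0 0x71a1800c)))) (Pf.B 12 9 (Pf.B 11 9 (Pf.C 1 0xc022440b) (Pf.B 11 10 (Pf.B 10 5 (Pf.C 1 0x81404585) (Pf.B 9 5 (Pf.C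 1 0x80414609) (Pf.C 0 0x214509))) (Pf.C 0 0x9040050b))) (Pf.C 0 0xa1a2400c))) (Pf.B 11 6 (Pf.B 12 6 (Pf.C 1 0xb041430c) (Pf.C 0 0x61630680)) (Pf.C 0 0x41868b))) (Pf.B 12 7 (Pf.B 11 7 (Pf.B 8 7 (Pf.C 1 0xc021c588) (Pf.C 0 0x220687)) (Pf.C 0 0x22c687)) (Pf.C 0 0x430687))) (Pf.C 1 0x11814588)) (Pf.C 0 0x22068c))) (Pf.B 11 9 (Pf.B 12 9 (Pf.B 12 8 (Pf.C 1 0xb042048c) (Pf.B 13 8 (Pf.B 13 5 (Pf.C 1 0xb1a04405) (Pf.B 12 5 (Pf.C 1 0x81804585) (Pf.C 0 0x21468c))) (Pf.C 0 0xc040040d))) (Pf.C 0 0x91630680)) (Pf.C 0 0x42468b))) (Pf.B 13 8 (Pf.B 13 5 (Pf.C 1 0xb1a04405) (Pf.B 12 10 (Pf.B 12 5 (Pf.B 11 10 (Pf.B 10 5 (Pf.C 1 0xc0228585) (Pf.C 0 0x21468a)) (Pf.C 0 0x22c68a)) (Pf.C 0 0x21468c)) (Pf.C 0 0x43068a)))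 (Pf.C 0 0x22050d))))
 (Pq.cons (Pq.L [0,1] 4032 (Pf.B 13 8 (Pf.B 13 5 (Pf.C 0 0x81a14580) (Pf.B 12 5 (Pf.C 0 0xb1814680) (Pf.C 0 0x21468c))) (Pf.B 12 8 (Pf.C 0 0xb1820680) (Pf.C 0 0x22068c))))
 (Pq.cons (Pq.L [0,1,3] 4095 (Pf.B 13 10 (Pf.B 13 8 (Pf.B 13 5 (Pf.B 11 10 (Pf.C 1 0xd022840b) (Pf.B 10 5 (Pf.C 1 0x8061468a) (Pf.C 1 0xb1414688))) (Pf.C 1 0x11a14588)) (Pf.B 13 5 (Pf.C 1 0x81a04585) (Pf.B 12 8 (Pf.B 12 5 (Pf.C 1 0xb1804405) (Pf.C 0 0x21468c)) (Pf.C 0 0x22068c)))) (Pf.B 13 9 (Pf.B 13 8 (Pf.B 13 5 (Pf.B 13 7 (Pf.B 11 7 (Pf.C 1 0xd021c28b) (Pf.B 8 7 (Pf.C 1 0xd021c288) (Pf.C 1 0xb0e20685))) (Pf.B 13 6 (Pf.B 12 10 (Pf.B 12 9 (Pf.B 12 7 (Pf.B 10 7 (Pf.B 9 7 (Pf.C 1 0xc1a1c189) (Pf.C 1 0xa121c603))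 (Pf.C 0 0x71828680)) (Pf.B 12 6 (Pf.C 0 0xd0c30380) (Pf.B 12 5 (Pf.C 0 0x70a30300) (Pf.C 0 0x61a1400c)))) (Pf.B 12 8 (Pf.B 12 5 (Pf.C 1 0xb1804405) (Pf.B 12 7 (Pf.B 12 6 (Pf.B 10 7 (Pf.B 10 6 (Pf.C 1 0xc1a28186) (Pf.C 1 0x70c28603)) (Pf.C 0 0x71828680)) (Pf.C 0 0x5020030c)) (Pf.C 0 0xd0a1c00c))) (Pf.C 0 0x22048c))) (Pf.B 12 9 (Pf.C 0 0xd1230500) (Pf.B 12 8 (Pf.C 0 0xa1030480) (Pf.C 0 0x91a2000c)))) (Pf.C 0 0x70a34006))) (Pf.C 1 0x11a14588)) (Pf.B 13 5 (Pf.C 1 0x81a04585) (Pf.B 12 8 (Pf.B 12 5 (Pf.C 1 0xb1804405) (Pf.C 0 0x21468c)) (Pf.C 0 0x22068c)))) (Pf.B 13 8 (Pf.C 0 0xa1034480) (Pf.C 0 0x22048d)))))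
 (Pq.cons (Pq.L [0,3] 3648 (Pf.B 12 8 (Pf.B 12 5 (Pf.C 0 0x81814580) (Pf.C 0 0x630585)) (Pf.C 0 0x630588)))
 (Pq.cons (Pq.L [0,1,3,4] 4095 (Pf.B 13 10 (Pf.B 13 9 (Pf.B 13 8 (Pf.B 13 5 (Pf.C 1 0xb1a04405) (Pf.B 13 7 (Pf.B 13 6 (Pf.B 12 10 (Pf.B 12 9 (Pf.C 1 0xd062848c) (Pf.B 12 8 (Pf.B 12 5 (Pf.C 1 0xb1804405) (Pf.B 12 7 (Pf.B 12 6 (Pf.C 1 0xd061c30c) (Pf.C 0 0x5020030c)) (Pf.C 0 0x5020038c))) (Pf.C 0 0x22048c))) (Pf.B 12 8 (Pf.B 12 5 (Pf.C 1 0xb1804405) (Pf.B 12 7 (Pf.B 12 6 (Pf.C 1 0xd061c30c) (Pf.C 0 0x5020030c)) (Pf.C 0 0x5020038c))) (Pf.C 0 0xa080040c))) (Pf.C 0 0x5020030d)) (Pf.C 0 0x5020038d))) (Pf.B 13 7 (Pf.B 13 6 (Pf.B 12 10 (Pf.B 12 9 (Pf.C 1 0xd062848c) (Pf.B 12 8 (Pf.B 12 5 (Pf.C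 1 0xb1804405) (Pf.B 12 7 (Pf.B 12 6 (Pf.C 1 0xd061c30c) (Pf.C 0 0x5020030c)) (Pf.C 0 0x5020038c))) (Pf.C 0 0x22048c))) (Pf.B 12 8 (Pf.B 12 5 (Pf.C 1 0xb1804405) (Pf.B 12 7 (Pf.B 12 6 (Pf.C 1 0xd061c30c) (Pf.C 0 0x5020030c)) (Pf.C 0 0x5020038c))) (Pf.C 0 0xa080040c))) (Pf.B 11 6 (Pf.B 8 6 (Pf.C 1 0x50c04588) (Pf.C 0 0xd0800308)) (Pf.C 0 0xd080030b))) (Pf.B 11 7 (Pf.B 8 7 (Pf.C 1 0x50e04588) (Pf.C 0 0x220687)) (Pf.C 0 0x22c687)))) (Pf.B 13 8 (Pf.B 13 5 (Pf.C 1 0xb1a04405) (Pf.B 11 9 (Pf.B 9 5 (Pf.C 1 0x81204585) (Pf.C 0 0xd0800289)) (Pf.C 0 0xd080048b))) (Pf.C 0 0x9060040d))) (Pf.B 13 8 (Pf.B 13 5 (Pf.C 1 0xb1a04405) (Pf.B 11 10 (Pf.B 10 5 (Pf.C 1 0x81404585) (Pf.C 0 0x21468a)) (Pf.C 0 0x22c68a)))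 (Pf.C 0 0x22050d))))
 (Pq.cons (Pq.L [0,4] 3712 (Pf.B 13 8 (Pf.B 13 5 (Pf.C 0 0x81a14580) (Pf.C 0 0x834585)) (Pf.C 0 0x834588)))
 (Pq.cons (Pq.L [0,1,3,4] 4095 (Pf.B 13 10 (Pf.B 13 8 (Pf.B 13 5 (Pf.B 11 10 (Pf.C 1 0xd022840b) (Pf.B 10 5 (Pf.C 1 0x8081468a) (Pf.C 1 0xb1414688))) (Pf.C 1 0x11a14588)) (Pf.B 13 5 (Pf.C 1 0x81a04585) (Pf.B 12 8 (Pf.B 12 5 (Pf.C 1 0xb1804405) (Pf.C 0 0xd080028c)) (Pf.C 0 0xd080040c)))) (Pf.B 13 9 (Pf.B 12 10 (Pf.B 13 8 (Pf.B 13 5 (Pf.B 13 7 (Pf.B 11 7 (Pf.C 1 0xd021c28b) (Pf.B 8 7 (Pf.C 1 0xd021c288) (Pf.C 1 0xb0e20685))) (Pf.B 13 6 (Pf.B 12 7 (Pf.B 10 7 (Pf.B 12 9 (Pf.B 12 6 (Pf.B 9 6 (Pf.C 1 0xc1a0c309) (Pf.B 9 5 (Pf.B 11 9 (Pf.C 1 0xd022428b) (Pf.C 1 0x8122c685))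 (Pf.C 0 0x214309))) (Pf.B 12 5 (Pf.B 11 6 (Pf.B 10 5 (Pf.C 1 0xc081438a) (Pf.B 11 10 (Pf.C 1 0x5140440b) (Pf.B 11 9 (Pf.B 9 6 (Pf.C 1 0xd062c309) (Pf.B 9 7 (Pf.B 9 5 (Pf.C 1 0xc1a1c289) (Pf.C 0 0xa0800289)) (Pf.C 0 0x81c309))) (Pf.C 0 0xa080048b)))) (Pf.C 0 0x22c606)) (Pf.C 0 0x61a1400c))) (Pf.B 12 8 (Pf.B 12 5 (Pf.C 1 0xb1804405) (Pf.B 11 9 (Pf.B 9 5 (Pf.C 1 0xd0224585) (Pf.C 0 0x214609)) (Pf.C 0 0x22c609))) (Pf.C 0 0x22048c))) (Pf.C 0 0x71828680)) (Pf.C 0 0x630687)) (Pf.C 0 0x61838d))) (Pf.C 1 0x11a14588)) (Pf.B 13 5 (Pf.C 1 0x81a04585) (Pf.B 12 8 (Pf.B 12 5 (Pf.C 1 0xb1804405) (Pf.C 0 0xd080028c)) (Pf.C 0 0xd080040c)))) (Pf.C 0 0x63068a)) (Pf.C 0 0x62450d))))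
 (Pq.cons (Pq.L [0,3] 3648 (Pf.B 12 8 (Pf.B 12 5 (Pf.C 0 0x81814580) (Pf.C 0 0x630585)) (Pf.C 0 0x630588)))
 (Pq.cons (Pq.L [0,1,3,4] 4095 (Pf.B 13 10 (Pf.B 13 9 (Pf.B 13 8 (Pf.B 13 5 (Pf.C 1 0xb1a04405) (Pf.B 13 7 (Pf.B 12 5 (Pf.B 12 8 (Pf.B 13 6 (Pf.B 12 10 (Pf.B 12 9 (Pf.B 11 9 (Pf.C 1 0xc022440b) (Pf.B 11 10 (Pf.B 10 5 (Pf.C 1 0xc0228585) (Pf.C 1 0x8141460b)) (Pf.C 0 0x9060050b))) (Pf.B 12 7 (Pf.B 10 7 (Pf.C 1 0xd181038a) (Pf.B 10 5 (Pf.B 11 10 (Pf.C 1 0xc022828b) (Pf.C 1 0x8142c605)) (Pf.C 0 0x21438a))) (Pf.B 12 6 (Pf.B 9 7 (Pf.B 10 7 (Pf.C 1 0x41228687) (Pf.B 10 6 (Pf.B 10 5 (Pf.C 1 0xc1a1430a) (Pf.C 0 0x21438a)) (Pf.C 0 0x61838a))) (Pf.C 0 0x81c609)) (Pf.C 0 0x7080030c)))) (Pf.B 12 9 (Pf.B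 11 9 (Pf.C 1 0xc022440b) (Pf.B 11 10 (Pf.B 10 5 (Pf.C 1 0x81404585) (Pf.B 10 7 (Pf.B 11 7 (Pf.C 1 0xd1610507) (Pf.B 11 6 (Pf.B 12 6 (Pf.C 1 0xb061430c) (Pf.B 10 6 (Pf.C 1 0x70c1068a) (Pf.C 0 0xc0a1800a))) (Pf.C 0 0x7080030b))) (Pf.C 0 0x5020038a))) (Pf.C 0 0x9060050b))) (Pf.C 0 0xa080048c))) (Pf.B 12 6 (Pf.B 11 6 (Pf.C 1 0xc021828b) (Pf.C 0 0xd080030b)) (Pf.C 0 0xd080030c))) (Pf.C 1 0x11820585)) (Pf.C 0 0xd080028c)) (Pf.C 0 0x5020038d))) (Pf.B 12 8 (Pf.B 12 5 (Pf.B 13 7 (Pf.B 13 6 (Pf.B 13 5 (Pf.B 12 10 (Pf.B 12 9 (Pf.B 11 9 (Pf.C 1 0xc022440b) (Pf.B 11 10 (Pf.B 10 5 (Pf.C 1 0xc1a2c28a) (Pf.C 1 0x8141460b)) (Pf.C 0 0x9060050b))) (Pf.B 12 7 (Pf.B 10 7 (Pf.C 1 0xd181038a) (Pf.B 10 6 (Pf.B 10 5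 (Pf.C 1 0x6081468a) (Pf.C 0 0x21438a)) (Pf.C 0 0x61838a))) (Pf.B 9 7 (Pf.B 10 7 (Pf.C 1 0x41228687) (Pf.B 10 6 (Pf.B 10 5 (Pf.C 1 0x6081468a) (Pf.C 0 0x21438a)) (Pf.C 0 0x61838a))) (Pf.C 0 0x81c609)))) (Pf.B 12 9 (Pf.B 11 9 (Pf.C 1 0xc022440b) (Pf.B 11 10 (Pf.B 10 5 (Pf.C 1 0x81404585) (Pf.B 10 7 (Pf.B 11 7 (Pf.C 1 0xd1610507) (Pf.B 11 6 (Pf.B 12 6 (Pf.C 1 0xb061430c) (Pf.B 10 6 (Pf.C 1 0x70c1068a) (Pf.C 0 0xc0a1800a))) (Pf.C 0 0x7080030b))) (Pf.C 0 0x5020038a))) (Pf.C 0 0x9060050b))) (Pf.C 0 0xa080048c))) (Pf.B 12 10 (Pf.B 12 9 (Pf.B 11 9 (Pf.C 1 0xc022440b) (Pf.B 11 10 (Pf.B 10 5 (Pf.C 1 0xc0228585) (Pf.C 1 0x8141460b)) (Pf.C 0 0x9060050b))) (Pf.B 12 7 (Pf.B 10 7 (Pf.C 1 0xd181038a) (Pf.B 10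 5 (Pf.B 11 10 (Pf.C 1 0xc022828b) (Pf.C 1 0x8142c605)) (Pf.C 0 0x21438a))) (Pf.B 12 6 (Pf.B 9 7 (Pf.B 10 7 (Pf.C 1 0x41228687) (Pf.B 10 6 (Pf.B 10 5 (Pf.C 1 0xc1a1430a) (Pf.C 0 0x21438a)) (Pf.C 0 0x61838a))) (Pf.C 0 0x81c609)) (Pf.C 0 0x7080030c)))) (Pf.B 12 9 (Pf.B 11 9 (Pf.C 1 0xc022440b) (Pf.B 11 10 (Pf.B 10 5 (Pf.C 1 0x81404585) (Pf.B 10 7 (Pf.B 11 7 (Pf.C 1 0xd1610507) (Pf.B 11 6 (Pf.B 12 6 (Pf.C 1 0xb061430c) (Pf.B 10 6 (Pf.C 1 0x70c1068a) (Pf.C 0 0xc0a1800a))) (Pf.C 0 0x7080030b))) (Pf.C 0 0x5020038a))) (Pf.C 0 0x9060050b))) (Pf.C 0 0xa080048c)))) (Pf.B 12 6 (Pf.B 11 6 (Pf.C 1 0xc021828b) (Pf.C 0 0xd080030b)) (Pf.C 0 0xd080030c))) (Pf.B 12 7 (Pf.B 11 7 (Pf.B 8 7 (Pf.C 1 0xc021c588) (Pf.C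 0 0x220687)) (Pf.C 0 0x22c687)) (Pf.C 0 0x630687))) (Pf.C 1 0x11814588)) (Pf.C 0 0xd080040c))) (Pf.B 12 9 (Pf.B 11 9 (Pf.B 12 8 (Pf.C 1 0xb062048c) (Pf.B 13 8 (Pf.B 13 5 (Pf.C 1 0xb1a04405) (Pf.B 12 5 (Pf.C 1 0x81804585) (Pf.C 0 0xd080028c))) (Pf.C 0 0xc060040d))) (Pf.C 0 0xd080048b)) (Pf.C 0 0xd080048c))) (Pf.B 13 8 (Pf.B 13 5 (Pf.C 1 0xb1a04405) (Pf.B 12 10 (Pf.B 12 5 (Pf.B 11 10 (Pf.B 10 5 (Pf.C 1 0xc0228585) (Pf.C 0 0x21468a)) (Pf.C 0 0x22c68a)) (Pf.C 0 0xd080028c)) (Pf.C 0 0x63068a))) (Pf.C 0 0x22050d))))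
 (Pq.cons (Pq.L [0,4] 3712 (Pf.B 13 8 (Pf.B 13 5 (Pf.C 0 0x81a14580) (Pf.C 0 0x834585)) (Pf.C 0 0x834588)))
 (Pq.cons (Pq.L [0,1,3] 4095 (Pf.B 13 10 (Pf.B 13 9 (Pf.B 13 8 (Pf.B 13 5 (Pf.C 1 0xb1a04405) (Pf.B 13 7 (Pf.B 13 6 (Pf.B 12 10 (Pf.B 12 9 (Pf.C 1 0xd062848c) (Pf.B 12 8 (Pf.B 12 5 (Pf.C 1 0xb1804405) (Pf.B 12 7 (Pf.B 12 6 (Pf.C 1 0xd061c30c) (Pf.C 0 0x5020030c)) (Pf.C 0 0x5020038c))) (Pf.C 0 0x22048c))) (Pf.B 12 8 (Pf.B 12 5 (Pf.C 1 0xb1804405) (Pf.B 12 7 (Pf.B 12 6 (Pf.C 1 0xd061c30c) (Pf.C 0 0x5020030c)) (Pf.C 0 0x5020038c))) (Pf.C 0 0x22050c))) (Pf.C 0 0x5020030d)) (Pf.C 0 0x5020038d))) (Pf.B 13 7 (Pf.B 13 6 (Pf.B 12 10 (Pf.B 12 9 (Pf.C 1 0xd062848c) (Pf.B 12 8 (Pf.B 12 5 (Pf.C 1 0xb1804405)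 (Pf.B 12 7 (Pf.B 12 6 (Pf.C 1 0xd061c30c) (Pf.C 0 0x5020030c)) (Pf.C 0 0x5020038c))) (Pf.C 0 0x22048c))) (Pf.B 12 8 (Pf.B 12 5 (Pf.C 1 0xb1804405) (Pf.B 12 7 (Pf.B 12 6 (Pf.C 1 0xd061c30c) (Pf.C 0 0x5020030c)) (Pf.C 0 0x5020038c))) (Pf.C 0 0x22050c))) (Pf.B 11 6 (Pf.B 8 6 (Pf.C 1 0x50c04588) (Pf.C 0 0x618688)) (Pf.C 0 0x61868b))) (Pf.B 11 7 (Pf.B 8 7 (Pf.C 1 0x50e04588) (Pf.C 0 0x220687)) (Pf.C 0 0x22c687)))) (Pf.B 13 8 (Pf.B 13 5 (Pf.C 1 0xb1a04405) (Pf.B 11 9 (Pf.B 9 5 (Pf.C 1 0x81204585) (Pf.C 0 0x214689)) (Pf.C 0 0x62468b))) (Pf.C 0 0x9060040d))) (Pf.B 13 8 (Pf.B 13 5 (Pf.C 1 0xb1a04405) (Pf.B 11 10 (Pf.B 10 5 (Pf.C 1 0x81404585) (Pf.C 0 0x21468a)) (Pf.C 0 0x22c68a))) (Pf.C 0 0x22050d))))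
 (Pq.cons (Pq.L [0,3] 3648 (Pf.B 12 8 (Pf.B 12 5 (Pf.C 0 0x81814580) (Pf.C 0 0x630585)) (Pf.C 0 0x630588)))
 (Pq.cons (Pq.L [0,1,3] 4095 (Pf.B 13 10 (Pf.B 13 8 (Pf.B 13 5 (Pf.B 11 10 (Pf.C 1 0xd022840b) (Pf.B 10 5 (Pf.C 1 0xd0228405) (Pf.C 1 0xb1414688))) (Pf.C 1 0x11a14588)) (Pf.B 13 5 (Pf.C 1 0x81a04585) (Pf.B 12 8 (Pf.B 12 5 (Pf.C 1 0xb1804405) (Pf.C 0 0x21468c)) (Pf.C 0 0x22068c)))) (Pf.B 13 9 (Pf.B 13 8 (Pf.B 13 5 (Pf.B 13 7 (Pf.B 11 7 (Pf.C 1 0xd021c28b) (Pf.B 8 7 (Pf.C 1 0xd021c288) (Pf.C 1 0xb0e20685))) (Pf.B 13 6 (Pf.B 12 9 (Pf.B 12 8 (Pf.B 12 5 (Pf.C 1 0xb1804405) (Pf.B 12 6 (Pf.B 9 6 (Pf.C 1 0xc1a0c309) (Pf.B 9 5 (Pf.B 11 9 (Pf.C 1 0xd022428b) (Pf.C 1 0x8122c685)) (Pf.C 0 0x214309)))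 (Pf.C 0 0x5020030c))) (Pf.B 12 6 (Pf.B 9 6 (Pf.C 1 0xc1a0c309) (Pf.B 9 5 (Pf.B 11 9 (Pf.C 1 0xd022428b) (Pf.C 1 0x8122c685)) (Pf.C 0 0x214309))) (Pf.B 11 6 (Pf.B 8 6 (Pf.C 1 0xd0218588) (Pf.C 0 0x220606)) (Pf.C 0 0x22c606)))) (Pf.B 12 8 (Pf.B 12 5 (Pf.C 1 0xb1804405) (Pf.B 11 9 (Pf.B 9 5 (Pf.C 1 0xd0224585) (Pf.C 0 0x214609)) (Pf.C 0 0x22c609))) (Pf.C 0 0x22048c))) (Pf.C 0 0x61838d))) (Pf.C 1 0x11a14588)) (Pf.B 13 5 (Pf.C 1 0x81a04585) (Pf.B 12 8 (Pf.B 12 5 (Pf.C 1 0xb1804405) (Pf.C 0 0x21468c)) (Pf.C 0 0x22068c)))) (Pf.C 0 0x62450d))))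
 (Pq.cons (Pq.L [0,3] 3648 (Pf.B 12 8 (Pf.B 12 5 (Pf.C 0 0x81814580) (Pf.C 0 0x630585)) (Pf.C 0 0x630588)))
 (Pq.cons (Pq.L [0,1,3] 4095 (Pf.B 13 10 (Pf.B 13 9 (Pf.B 13 8 (Pf.B 13 5 (Pf.C 1 0xb1a04405) (Pf.B 13 7 (Pf.B 12 5 (Pf.B 12 8 (Pf.B 13 6 (Pf.B 12 10 (Pf.B 12 9 (Pf.B 11 9 (Pf.C 1 0xc022440b) (Pf.B 11 10 (Pf.B 10 5 (Pf.C 1 0xc0228585) (Pf.C 1 0x8141460b)) (Pf.C 0 0x9060050b))) (Pf.B 12 7 (Pf.B 12 6 (Pf.B 11 6 (Pf.C 1 0xc021828b) (Pf.B 11 7 (Pf.B 8 7 (Pf.C 1 0xc1a2c388) (Pf.C 1 0x50e2060b)) (Pf.C 0 0x6060038b))) (Pf.B 9 6 (Pf.B 8 6 (Pf.C 1 0xd0620486) (Pf.B 11 6 (Pf.C 1 0x80c0428b) (Pf.B 11 7 (Pf.B 8 7 (Pf.C 1 0xc1a2c388) (Pf.C 0 0x60600388)) (Pf.C 0 0x6060038b)))) (Pf.C 0 0x61a24600)))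 (Pf.B 12 6 (Pf.B 11 6 (Pf.C 1 0xc021828b) (Pf.B 11 7 (Pf.B 8 7 (Pf.C 1 0x50e04588) (Pf.B 8 6 (Pf.C 1 0xc1a14308) (Pf.C 0 0x618388))) (Pf.C 0 0x6060038b))) (Pf.C 0 0x71a1800c)))) (Pf.B 12 9 (Pf.B 11 9 (Pf.C 1 0xc022440b) (Pf.B 11 10 (Pf.B 10 5 (Pf.C 1 0x81404585) (Pf.B 9 5 (Pf.C 1 0xc1a14409) (Pf.C 0 0x214509))) (Pf.C 0 0x9060050b))) (Pf.C 0 0xa1a2400c))) (Pf.B 12 6 (Pf.B 11 6 (Pf.C 1 0xc021828b) (Pf.C 0 0x61868b)) (Pf.C 0 0x60a30680))) (Pf.C 1 0x11820585)) (Pf.C 0 0x21468c)) (Pf.C 0 0x5020038d))) (Pf.B 12 8 (Pf.B 12 5 (Pf.B 13 7 (Pf.B 13 6 (Pf.B 12 10 (Pf.B 12 9 (Pf.B 11 9 (Pf.C 1 0xc022440b) (Pf.B 11 10 (Pf.B 10 5 (Pf.C 1 0xc0228585) (Pf.C 1 0x8141460b)) (Pf.C 0 0x9060050b))) (Pf.B 12 7 (Pf.B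 12 6 (Pf.B 11 6 (Pf.C 1 0xc021828b) (Pf.B 11 7 (Pf.B 8 7 (Pf.C 1 0xc021c588) (Pf.C 1 0x50e2060b)) (Pf.C 0 0x6060038b))) (Pf.B 9 6 (Pf.B 11 10 (Pf.B 10 5 (Pf.C 1 0xc0228585) (Pf.C 1 0x8141460b)) (Pf.B 11 9 (Pf.B 10 5 (Pf.C 1 0xb1420605) (Pf.B 9 5 (Pf.B 11 6 (Pf.C 1 0x9021828b) (Pf.B 11 7 (Pf.B 8 7 (Pf.C 1 0xc021c588) (Pf.C 1 0x50e2060b)) (Pf.C 0 0x6060038b))) (Pf.C 0 0x214509))) (Pf.C 0 0x62450b))) (Pf.C 0 0x61a24600))) (Pf.B 12 6 (Pf.B 11 6 (Pf.C 1 0xc021828b) (Pf.B 11 7 (Pf.B 8 7 (Pf.C 1 0x50e04588) (Pf.B 8 6 (Pf.C 1 0xc0218288) (Pf.C 0 0x618388))) (Pf.C 0 0x6060038b))) (Pf.C 0 0x71a1800c)))) (Pf.B 12 9 (Pf.B 11 9 (Pf.C 1 0xc022440b) (Pf.B 11 10 (Pf.B 10 5 (Pf.C 1 0x81404585) (Pf.B 9 5 (Pf.C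 1 0x80614609) (Pf.C 0 0x214509))) (Pf.C 0 0x9060050b))) (Pf.C 0 0xa1a2400c))) (Pf.B 11 6 (Pf.B 12 6 (Pf.C 1 0xb061430c) (Pf.C 0 0x61630680)) (Pf.C 0 0x61868b))) (Pf.B 12 7 (Pf.B 11 7 (Pf.B 8 7 (Pf.C 1 0xc021c588) (Pf.C 0 0x220687)) (Pf.C 0 0x22c687)) (Pf.C 0 0x630687))) (Pf.C 1 0x11814588)) (Pf.C 0 0x22068c))) (Pf.B 11 9 (Pf.B 12 9 (Pf.B 12 8 (Pf.C 1 0xb062048c) (Pf.B 13 8 (Pf.B 13 5 (Pf.C 1 0xb1a04405) (Pf.B 12 5 (Pf.C 1 0x81804585) (Pf.C 0 0x21468c))) (Pf.C 0 0xc060040d))) (Pf.C 0 0x91630680)) (Pf.C 0 0x62468b))) (Pf.B 13 8 (Pf.B 13 5 (Pf.C 1 0xb1a04405) (Pf.B 12 10 (Pf.B 12 5 (Pf.B 11 10 (Pf.B 10 5 (Pf.C 1 0xc0228585) (Pf.C 0 0x21468a)) (Pf.C 0 0x22c68a)) (Pf.C 0 0x21468c)) (Pf.C 0 0x63068a)))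 (Pf.C 0 0x22050d))))
 (Pq.cons (Pq.L [0,1] 4032 (Pf.B 13 8 (Pf.B 13 5 (Pf.C 0 0x81a14580) (Pf.B 12 5 (Pf.C 0 0xb1814680) (Pf.C 0 0x21468c))) (Pf.B 12 8 (Pf.C 0 0xb1820680) (Pf.C 0 0x22068c))))
 (Pq.cons (Pq.L [0,1,4] 4095 (Pf.B 13 10 (Pf.B 13 8 (Pf.B 13 5 (Pf.B 11 10 (Pf.C 1 0xd022840b) (Pf.B 10 5 (Pf.C 1 0x8081468a) (Pf.C 1 0xb1414688))) (Pf.C 1 0x11a14588)) (Pf.B 13 5 (Pf.C 1 0x81a04585) (Pf.B 12 8 (Pf.B 12 5 (Pf.C 1 0xb1804405) (Pf.C 0 0x21468c)) (Pf.C 0 0x22068c)))) (Pf.B 13 9 (Pf.B 13 8 (Pf.B 13 5 (Pf.B 13 7 (Pf.B 11 7 (Pf.C 1 0xd021c28b) (Pf.B 8 7 (Pf.C 1 0xd021c288) (Pf.C 1 0xb0e20685))) (Pf.B 13 6 (Pf.B 12 10 (Pf.B 12 9 (Pf.B 12 7 (Pf.B 10 7 (Pf.B 9 7 (Pf.C 1 0xc1a1c209) (Pf.C 1 0xa121c604))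 (Pf.C 0 0x71828680)) (Pf.B 12 6 (Pf.C 0 0xd0c30380) (Pf.B 12 5 (Pf.C 0 0x70a30300) (Pf.C 0 0x61a1400c)))) (Pf.B 12 8 (Pf.B 12 5 (Pf.C 1 0xb1804405) (Pf.B 12 7 (Pf.B 12 6 (Pf.B 10 7 (Pf.B 10 6 (Pf.C 1 0xc1a28206) (Pf.C 1 0x70c28604)) (Pf.C 0 0x71828680)) (Pf.C 0 0x5020030c)) (Pf.C 0 0xd0a1c00c))) (Pf.C 0 0x22048c))) (Pf.B 12 9 (Pf.C 0 0xd1230500) (Pf.B 12 8 (Pf.C 0 0xa1030480) (Pf.C 0 0x91a2000c)))) (Pf.C 0 0x70a34006))) (Pf.C 1 0x11a14588)) (Pf.B 13 5 (Pf.C 1 0x81a04585) (Pf.B 12 8 (Pf.B 12 5 (Pf.C 1 0xb1804405) (Pf.C 0 0x21468c)) (Pf.C 0 0x22068c)))) (Pf.B 13 8 (Pf.C 0 0xa1034480) (Pf.C 0 0x22048d)))))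
 (Pq.cons (Pq.L [0,4] 3648 (Pf.B 12 8 (Pf.B 12 5 (Pf.C 0 0x81814580) (Pf.C 0 0x830585)) (Pf.C 0 0x830588)))
 Pq.nil))))))))))))))))))))))))))))))
theorem h_o26 : AllRef h_T h_G12 (List.drop 36 (List.take 66 (List.drop 176 (hitObl [28,29,30,31,32,33,34,35,36,37,38] h_h15)))) :=
  chkPq_sound h_o26c _ (by decide +kernel)
noncomputable def h_o27c : Pq := (Pq.cons (Pq.L [0,1,4] 4095 (Pf.B 13 10 (Pf.B 13 9 (Pf.B 13 8 (Pf.B 13 5 (Pf.C 1 0xb1a04405) (Pf.B 13 7 (Pf.B 13 6 (Pf.B 12 10 (Pf.B 12 9 (Pf.C 1 0xd082848c) (Pf.B 12 8 (Pf.B 12 5 (Pf.C 1 0xb1804405) (Pf.B 12 7 (Pf.B 12 6 (Pf.C 1 0xd081c30c) (Pf.C 0 0x5020030c)) (Pf.C 0 0x5020038c))) (Pf.C 0 0x22048c))) (Pf.B 12 8 (Pf.B 12 5 (Pf.C 1 0xb1804405)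 (Pf.B 12 7 (Pf.B 12 6 (Pf.C 1 0xd081c30c) (Pf.C 0 0x5020030c)) (Pf.C 0 0x5020038c))) (Pf.C 0 0x22050c))) (Pf.C 0 0x5020030d)) (Pf.C 0 0x5020038d))) (Pf.B 13 7 (Pf.B 13 6 (Pf.B 12 10 (Pf.B 12 9 (Pf.C 1 0xd082848c) (Pf.B 12 8 (Pf.B 12 5 (Pf.C 1 0xb1804405) (Pf.B 12 7 (Pf.B 12 6 (Pf.C 1 0xd081c30c) (Pf.C 0 0x5020030c)) (Pf.C 0 0x5020038c))) (Pf.C 0 0x22048c))) (Pf.B 12 8 (Pf.B 12 5 (Pf.C 1 0xb1804405) (Pf.B 12 7 (Pf.B 12 6 (Pf.C 1 0xd081c30c) (Pf.C 0 0x5020030c)) (Pf.C 0 0x5020038c))) (Pf.C 0 0x22050c))) (Pf.B 11 6 (Pf.B 8 6 (Pf.C 1 0x50c04588) (Pf.C 0 0x818688)) (Pf.C 0 0x81868b))) (Pf.B 11 7 (Pf.B 8 7 (Pf.C 1 0x50e04588) (Pf.C 0 0x220687)) (Pf.C 0 0x22c687)))) (Pf.B 13 8 (Pf.B 13 5 (Pf.C 1 0xb1a04405)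 (Pf.B 11 9 (Pf.B 9 5 (Pf.C 1 0x81204585) (Pf.C 0 0x214689)) (Pf.C 0 0x82468b))) (Pf.C 0 0x9080040d))) (Pf.B 13 8 (Pf.B 13 5 (Pf.C 1 0xb1a04405) (Pf.B 11 10 (Pf.B 10 5 (Pf.C 1 0x81404585) (Pf.C 0 0x21468a)) (Pf.C 0 0x22c68a))) (Pf.C 0 0x22050d))))
 (Pq.cons (Pq.L [0,4] 3648 (Pf.B 12 8 (Pf.B 12 5 (Pf.C 0 0x81814580) (Pf.C 0 0x830585)) (Pf.C 0 0x830588)))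
 (Pq.cons (Pq.L [0,1,4] 4095 (Pf.B 13 10 (Pf.B 13 8 (Pf.B 13 5 (Pf.B 11 10 (Pf.C 1 0xd022840b) (Pf.B 10 5 (Pf.C 1 0xd0228405) (Pf.C 1 0xb1414688))) (Pf.C 1 0x11a14588)) (Pf.B 13 5 (Pf.C 1 0x81a04585) (Pf.B 12 8 (Pf.B 12 5 (Pf.C 1 0xb1804405) (Pf.C 0 0x21468c)) (Pf.C 0 0x22068c)))) (Pf.B 13 9 (Pf.B 13 8 (Pf.B 13 5 (Pf.B 13 7 (Pf.B 11 7 (Pf.C 1 0xd021c28b) (Pf.B 8 7 (Pf.C 1 0xd021c288) (Pf.C 1 0xb0e20685))) (Pf.B 13 6 (Pf.B 12 9 (Pf.B 12 8 (Pf.B 12 5 (Pf.C 1 0xb1804405) (Pf.B 12 6 (Pf.B 9 6 (Pf.C 1 0xc1a10309) (Pf.B 9 5 (Pf.B 11 9 (Pf.C 1 0xd022428b) (Pf.C 1 0x8122c685)) (Pf.C 0 0x214309))) (Pf.C 0 0x5020030c))) (Pf.B 12 6 (Pf.B 9 6 (Pf.C 1 0xc1a10309) (Pf.B 9 5 (Pf.B 11 9 (Pf.C 1 0xd022428b) (Pf.C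 1 0x8122c685)) (Pf.C 0 0x214309))) (Pf.B 11 6 (Pf.B 8 6 (Pf.C 1 0xd0218588) (Pf.C 0 0x220606)) (Pf.C 0 0x22c606)))) (Pf.B 12 8 (Pf.B 12 5 (Pf.C 1 0xb1804405) (Pf.B 11 9 (Pf.B 9 5 (Pf.C 1 0xd0224585) (Pf.C 0 0x214609)) (Pf.C 0 0x22c609))) (Pf.C 0 0x22048c))) (Pf.C 0 0x81838d))) (Pf.C 1 0x11a14588)) (Pf.B 13 5 (Pf.C 1 0x81a04585) (Pf.B 12 8 (Pf.B 12 5 (Pf.C 1 0xb1804405) (Pf.C 0 0x21468c)) (Pf.C 0 0x22068c)))) (Pf.C 0 0x82450d))))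
 (Pq.cons (Pq.L [0,4] 3648 (Pf.B 12 8 (Pf.B 12 5 (Pf.C 0 0x81814580) (Pf.C 0 0x830585)) (Pf.C 0 0x830588)))
 (Pq.cons (Pq.L [0,1,4] 4095 (Pf.B 13 10 (Pf.B 13 9 (Pf.B 13 8 (Pf.B 13 5 (Pf.C 1 0xb1a04405) (Pf.B 13 7 (Pf.B 12 5 (Pf.B 12 8 (Pf.B 13 6 (Pf.B 12 10 (Pf.B 12 9 (Pf.B 11 9 (Pf.C 1 0xc022440b) (Pf.B 11 10 (Pf.B 10 5 (Pf.C 1 0xc0228585) (Pf.C 1 0x8141460b)) (Pf.C 0 0x9080050b))) (Pf.B 12 7 (Pf.B 12 6 (Pf.B 11 6 (Pf.C 1 0xc021828b) (Pf.B 11 7 (Pf.B 8 7 (Pf.C 1 0xc1a2c388) (Pf.C 1 0x50e2060b)) (Pf.C 0 0x6080038b))) (Pf.B 9 6 (Pf.B 8 6 (Pf.C 1 0xd0820486) (Pf.B 11 6 (Pf.C 1 0x80c0428b) (Pf.B 11 7 (Pf.B 8 7 (Pf.C 1 0xc1a2c388) (Pf.C 0 0x60800388)) (Pf.C 0 0x6080038b)))) (Pf.C 0 0x61a24600)))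 (Pf.B 12 6 (Pf.B 11 6 (Pf.C 1 0xc021828b) (Pf.B 11 7 (Pf.B 8 7 (Pf.C 1 0x50e04588) (Pf.B 8 6 (Pf.C 1 0xc1a14308) (Pf.C 0 0x818388))) (Pf.C 0 0x6080038b))) (Pf.C 0 0x71a1800c)))) (Pf.B 12 9 (Pf.B 11 9 (Pf.C 1 0xc022440b) (Pf.B 11 10 (Pf.B 10 5 (Pf.C 1 0x81404585) (Pf.B 9 5 (Pf.C 1 0xc1a14409) (Pf.C 0 0x214509))) (Pf.C 0 0x9080050b))) (Pf.C 0 0xa1a2400c))) (Pf.B 12 6 (Pf.B 11 6 (Pf.C 1 0xc021828b) (Pf.C 0 0x81868b)) (Pf.C 0 0x60a30680))) (Pf.C 1 0x11820585)) (Pf.C 0 0x21468c)) (Pf.C 0 0x5020038d))) (Pf.B 12 8 (Pf.B 12 5 (Pf.B 13 7 (Pf.B 13 6 (Pf.B 12 10 (Pf.B 12 9 (Pf.B 11 9 (Pf.C 1 0xc022440b) (Pf.B 11 10 (Pf.B 10 5 (Pf.C 1 0xc0228585) (Pf.C 1 0x8141460b)) (Pf.C 0 0x9080050b))) (Pf.B 12 7 (Pf.B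 12 6 (Pf.B 11 6 (Pf.C 1 0xc021828b) (Pf.B 11 7 (Pf.B 8 7 (Pf.C 1 0xc021c588) (Pf.C 1 0x50e2060b)) (Pf.C 0 0x6080038b))) (Pf.B 9 6 (Pf.B 11 10 (Pf.B 10 5 (Pf.C 1 0xc0228585) (Pf.C 1 0x8141460b)) (Pf.B 11 9 (Pf.B 10 5 (Pf.C 1 0xb1420605) (Pf.B 9 5 (Pf.B 11 6 (Pf.C 1 0x9021828b) (Pf.B 11 7 (Pf.B 8 7 (Pf.C 1 0xc021c588) (Pf.C 1 0x50e2060b)) (Pf.C 0 0x6080038b))) (Pf.C 0 0x214509))) (Pf.C 0 0x82450b))) (Pf.C 0 0x61a24600))) (Pf.B 12 6 (Pf.B 11 6 (Pf.C 1 0xc021828b) (Pf.B 11 7 (Pf.B 8 7 (Pf.C 1 0x50e04588) (Pf.B 8 6 (Pf.C 1 0xc0218288) (Pf.C 0 0x818388))) (Pf.C 0 0x6080038b))) (Pf.C 0 0x71a1800c)))) (Pf.B 12 9 (Pf.B 11 9 (Pf.C 1 0xc022440b) (Pf.B 11 10 (Pf.B 10 5 (Pf.C 1 0x81404585) (Pf.B 9 5 (Pf.C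 1 0x80814609) (Pf.C 0 0x214509))) (Pf.C 0 0x9080050b))) (Pf.C 0 0xa1a2400c))) (Pf.B 11 6 (Pf.B 12 6 (Pf.C 1 0xb081430c) (Pf.C 0 0x61630680)) (Pf.C 0 0x81868b))) (Pf.B 12 7 (Pf.B 11 7 (Pf.B 8 7 (Pf.C 1 0xc021c588) (Pf.C 0 0x220687)) (Pf.C 0 0x22c687)) (Pf.C 0 0x830687))) (Pf.C 1 0x11814588)) (Pf.C 0 0x22068c))) (Pf.B 11 9 (Pf.B 12 9 (Pf.B 12 8 (Pf.C 1 0xb082048c) (Pf.B 13 8 (Pf.B 13 5 (Pf.C 1 0xb1a04405) (Pf.B 12 5 (Pf.C 1 0x81804585) (Pf.C 0 0x21468c))) (Pf.C 0 0xc080040d))) (Pf.C 0 0x91630680)) (Pf.C 0 0x82468b))) (Pf.B 13 8 (Pf.B 13 5 (Pf.C 1 0xb1a04405) (Pf.B 12 10 (Pf.B 12 5 (Pf.B 11 10 (Pf.B 10 5 (Pf.C 1 0xc0228585) (Pf.C 0 0x21468a)) (Pf.C 0 0x22c68a)) (Pf.C 0 0x21468c)) (Pf.C 0 0x83068a)))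 (Pf.C 0 0x22050d))))
 (Pq.cons (Pq.L [0,1] 4032 (Pf.B 13 8 (Pf.B 13 5 (Pf.C 0 0x81a14580) (Pf.B 12 5 (Pf.C 0 0xb1814680) (Pf.C 0 0x21468c))) (Pf.B 12 8 (Pf.C 0 0xb1820680) (Pf.C 0 0x22068c))))
 (Pq.cons (Pq.L [0,1] 4095 (Pf.B 13 10 (Pf.B 13 8 (Pf.B 13 5 (Pf.B 11 10 (Pf.C 1 0xd022840b) (Pf.B 10 5 (Pf.C 1 0xd0228405) (Pf.C 1 0xb1414688))) (Pf.C 1 0x11a14588)) (Pf.B 13 5 (Pf.C 1 0x81a04585) (Pf.B 12 8 (Pf.B 12 5 (Pf.C 1 0xb1804405) (Pf.C 0 0x21468c)) (Pf.C 0 0x22068c)))) (Pf.B 13 9 (Pf.B 13 8 (Pf.B 13 5 (Pf.B 13 7 (Pf.B 11 7 (Pf.C 1 0xd021c28b) (Pf.B 8 7 (Pf.C 1 0xd021c288) (Pf.C 1 0xb0e20685))) (Pf.B 13 6 (Pf.B 12 10 (Pf.B 12 9 (Pf.B 12 7 (Pf.B 10 7 (Pf.B 11 10 (Pf.B 10 5 (Pf.B 11 7 (Pf.C 1 0xa021c28b)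 (Pf.B 8 7 (Pf.C 1 0xa021c288) (Pf.C 1 0xb0e20505))) (Pf.C 1 0x11414588)) (Pf.B 11 9 (Pf.B 10 5 (Pf.C 1 0xb1404405) (Pf.B 9 5 (Pf.C 1 0xd0224585) (Pf.C 0 0x214509))) (Pf.C 0 0xa182400b))) (Pf.C 0 0x71828680)) (Pf.B 12 6 (Pf.C 0 0xd0c30380) (Pf.B 12 5 (Pf.C 0 0x70a30300) (Pf.C 0 0x61a1400c)))) (Pf.B 12 8 (Pf.B 12 5 (Pf.C 1 0xb1804405) (Pf.B 11 9 (Pf.B 9 5 (Pf.C 1 0xd0224585) (Pf.C 0 0x214609)) (Pf.C 0 0x22c609))) (Pf.C 0 0x22048c))) (Pf.B 12 9 (Pf.C 0 0xd1230500) (Pf.B 12 8 (Pf.C 0 0xa1030480) (Pf.C 0 0x22048c)))) (Pf.C 0 0x70a34006))) (Pf.C 1 0x11a14588)) (Pf.B 13 5 (Pf.C 1 0x81a04585) (Pf.B 12 8 (Pf.B 12 5 (Pf.C 1 0xb1804405) (Pf.C 0 0x21468c)) (Pf.C 0 0x22068c)))) (Pf.B 13 8 (Pf.C 0 0xa1034480)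 (Pf.C 0 0x22048d)))))
 (Pq.cons (Pq.L [0,1] 4032 (Pf.B 13 8 (Pf.B 13 5 (Pf.B 12 8 (Pf.B 12 5 (Pf.C 0 0x81814580) (Pf.C 0 0xb1a1400c)) (Pf.C 0 0xb1a2000c)) (Pf.C 0 0xb1a20005)) (Pf.B 13 5 (Pf.C 0 0xb1a14400) (Pf.B 12 8 (Pf.B 12 5 (Pf.C 0 0x81814580) (Pf.C 0 0x21468c)) (Pf.C 0 0x22068c)))))
 (Pq.cons (Pq.L [0,2,3] 4095 (Pf.B 13 10 (Pf.B 13 9 (Pf.B 13 8 (Pf.B 13 5 (Pf.C 1 0xb1a08405) (Pf.B 12 10 (Pf.B 12 9 (Pf.C 1 0xd042848c) (Pf.B 12 8 (Pf.B 12 5 (Pf.C 1 0x21a1440c) (Pf.C 1 0xb1814402)) (Pf.C 0 0x91430008))) (Pf.B 12 8 (Pf.B 12 5 (Pf.C 1 0x21a1440c) (Pf.C 1 0xb1814402)) (Pf.C 0 0xa060040c)))) (Pf.B 13 7 (Pf.B 13 6 (Pf.B 12 10 (Pf.B 12 9 (Pf.C 1 0xd042848c) (Pf.B 12 8 (Pf.B 12 5 (Pf.B 11 9 (Pf.B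 10 5 (Pf.C 1 0x81408605) (Pf.B 10 7 (Pf.B 12 7 (Pf.B 12 6 (Pf.C 1 0xd041c30c) (Pf.B 11 6 (Pf.B 9 6 (Pf.C 1 0xb1a08309) (Pf.C 0 0x61624600)) (Pf.C 0 0xc1a1800b))) (Pf.C 1 0x3181c68a)) (Pf.C 0 0x5040038a))) (Pf.C 0 0xc1a2400b)) (Pf.C 1 0xb1814402)) (Pf.C 0 0x91430008))) (Pf.B 11 10 (Pf.B 10 5 (Pf.C 1 0x81408585) (Pf.B 10 7 (Pf.B 12 7 (Pf.C 1 0xa180c687) (Pf.B 11 7 (Pf.C 1 0xd160c507) (Pf.C 0 0x61c60b))) (Pf.C 0 0x5040038a))) (Pf.C 0 0x62860b))) (Pf.B 13 5 (Pf.B 11 6 (Pf.B 8 6 (Pf.B 12 10 (Pf.B 12 9 (Pf.C 1 0xd042848c) (Pf.B 12 8 (Pf.B 12 6 (Pf.B 12 5 (Pf.C 1 0x81a0828c) (Pf.C 1 0x60a30402)) (Pf.C 1 0xb1818402)) (Pf.C 0 0x91430008))) (Pf.B 12 8 (Pf.B 12 6 (Pf.B 12 5 (Pf.C 1 0x81a0828c) (Pf.C 1 0x60a30402))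 (Pf.C 1 0xb1818402)) (Pf.C 0 0xa060040c))) (Pf.C 0 0xd0600308)) (Pf.C 0 0xd060030b)) (Pf.C 0 0x634305))) (Pf.B 11 7 (Pf.B 8 7 (Pf.C 1 0x50e08588) (Pf.C 0 0x420687)) (Pf.C 0 0x42c687)))) (Pf.B 13 8 (Pf.B 13 5 (Pf.C 1 0xb1a08405) (Pf.B 11 9 (Pf.B 9 5 (Pf.B 12 9 (Pf.B 12 5 (Pf.B 12 8 (Pf.C 1 0x51a0840c) (Pf.C 1 0x91030282)) (Pf.C 1 0xb1814482)) (Pf.B 12 8 (Pf.B 12 5 (Pf.C 1 0x21a1440c) (Pf.C 1 0xb1814402)) (Pf.C 0 0x9162000c))) (Pf.C 0 0xd0600289)) (Pf.C 0 0xd060048b))) (Pf.C 0 0x634488))) (Pf.B 13 8 (Pf.B 13 5 (Pf.C 1 0xb1a08405) (Pf.B 11 10 (Pf.B 10 5 (Pf.C 1 0x81408585) (Pf.C 0 0x41468a)) (Pf.C 0 0x42c68a))) (Pf.C 0 0x42050d))))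
 (Pq.cons (Pq.L [0,3] 3712 (Pf.B 13 8 (Pf.B 13 5 (Pf.C 0 0x81a14580) (Pf.C 0 0x634585)) (Pf.C 0 0x634588)))
 (Pq.cons (Pq.L [0,2,4] 4095 (Pf.B 13 10 (Pf.B 13 9 (Pf.B 13 8 (Pf.B 13 5 (Pf.C 1 0xb1a08405) (Pf.B 12 10 (Pf.B 12 9 (Pf.C 1 0xd042848c) (Pf.B 12 8 (Pf.B 12 5 (Pf.C 1 0x21a1440c) (Pf.C 1 0xb1814402)) (Pf.C 0 0x91430008))) (Pf.B 12 8 (Pf.B 12 5 (Pf.C 1 0x21a1440c) (Pf.C 1 0xb1814402)) (Pf.C 0 0xa080040c)))) (Pf.B 13 7 (Pf.B 13 6 (Pf.B 12 10 (Pf.B 12 9 (Pf.C 1 0xd042848c) (Pf.B 12 8 (Pf.B 12 5 (Pf.B 11 9 (Pf.B 10 5 (Pf.C 1 0x81408605) (Pf.B 10 7 (Pf.B 12 7 (Pf.B 12 6 (Pf.C 1 0xd041c30c) (Pf.B 11 6 (Pf.B 9 6 (Pf.C 1 0xb1a08309) (Pf.C 0 0x61624600)) (Pf.C 0 0xc1a1800b))) (Pf.C 1 0x4181c68a))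 (Pf.C 0 0x5040038a))) (Pf.C 0 0xc1a2400b)) (Pf.C 1 0xb1814402)) (Pf.C 0 0x91430008))) (Pf.B 11 10 (Pf.B 10 5 (Pf.C 1 0x81408585) (Pf.B 10 7 (Pf.B 12 7 (Pf.C 1 0xa1810687) (Pf.B 11 7 (Pf.C 1 0xd1610507) (Pf.C 0 0x81c60b))) (Pf.C 0 0x5040038a))) (Pf.C 0 0x82860b))) (Pf.B 13 5 (Pf.B 11 6 (Pf.B 8 6 (Pf.B 12 10 (Pf.B 12 9 (Pf.C 1 0xd042848c) (Pf.B 12 8 (Pf.B 12 6 (Pf.B 12 5 (Pf.C 1 0x81a0828c) (Pf.C 1 0x60a30402)) (Pf.C 1 0xb1818402)) (Pf.C 0 0x91430008))) (Pf.B 12 8 (Pf.B 12 6 (Pf.B 12 5 (Pf.C 1 0x81a0828c) (Pf.C 1 0x60a30402)) (Pf.C 1 0xb1818402)) (Pf.C 0 0xa080040c))) (Pf.C 0 0xd0800308)) (Pf.C 0 0xd080030b)) (Pf.C 0 0x834305))) (Pf.B 11 7 (Pf.B 8 7 (Pf.C 1 0x50e08588) (Pf.C 0 0x420687)) (Pf.C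 0 0x42c687)))) (Pf.B 13 8 (Pf.B 13 5 (Pf.C 1 0xb1a08405) (Pf.B 11 9 (Pf.B 9 5 (Pf.B 12 9 (Pf.B 12 5 (Pf.B 12 8 (Pf.C 1 0x51a0840c) (Pf.C 1 0x91030282)) (Pf.C 1 0xb1814482)) (Pf.B 12 8 (Pf.B 12 5 (Pf.C 1 0x21a1440c) (Pf.C 1 0xb1814402)) (Pf.C 0 0x9162000c))) (Pf.C 0 0xd0800289)) (Pf.C 0 0xd080048b))) (Pf.C 0 0x834488))) (Pf.B 13 8 (Pf.B 13 5 (Pf.C 1 0xb1a08405) (Pf.B 11 10 (Pf.B 10 5 (Pf.C 1 0x81408585) (Pf.C 0 0x41468a)) (Pf.C 0 0x42c68a))) (Pf.C 0 0x42050d))))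
 (Pq.cons (Pq.L [0,4] 3712 (Pf.B 13 8 (Pf.B 13 5 (Pf.C 0 0x81a14580) (Pf.C 0 0x834585)) (Pf.C 0 0x834588)))
 (Pq.cons (Pq.L [0,2] 4095 (Pf.B 13 10 (Pf.B 13 9 (Pf.B 13 8 (Pf.B 13 5 (Pf.C 1 0xb1a08405) (Pf.B 12 10 (Pf.B 12 9 (Pf.C 1 0xd042848c) (Pf.B 12 8 (Pf.B 12 5 (Pf.C 1 0x21a1440c) (Pf.C 1 0xb1814402)) (Pf.C 0 0x91430008))) (Pf.B 11 10 (Pf.B 12 8 (Pf.B 12 5 (Pf.C 1 0x21a1440c) (Pf.C 1 0xb1814402)) (Pf.C 0 0xa162000c)) (Pf.C 0 0xc1a2800b)))) (Pf.B 13 7 (Pf.B 13 6 (Pf.B 13 5 (Pf.B 12 10 (Pf.B 12 9 (Pf.C 1 0xd042848c) (Pf.B 12 8 (Pf.B 12 5 (Pf.C 1 0x81a0828c) (Pf.C 1 0xb1814402)) (Pf.C 0 0x91430008))) (Pf.B 12 8 (Pf.B 12 5 (Pf.C 1 0x81a0828c) (Pf.C 1 0xb1814402)) (Pf.C 0 0xa1a30008))) (Pf.B 12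 10 (Pf.B 12 9 (Pf.C 1 0xd042848c) (Pf.B 12 8 (Pf.B 12 5 (Pf.B 11 9 (Pf.B 10 5 (Pf.C 1 0x81408605) (Pf.B 10 7 (Pf.B 10 6 (Pf.B 12 6 (Pf.C 1 0xd042830c) (Pf.B 11 6 (Pf.B 9 6 (Pf.C 1 0xb1a08309) (Pf.C 0 0x61624600)) (Pf.C 0 0xc1a1800b))) (Pf.C 0 0x60e28280)) (Pf.C 0 0x5040038a))) (Pf.C 0 0xc1a2400b)) (Pf.C 1 0xb1814402)) (Pf.C 0 0x91430008))) (Pf.B 12 8 (Pf.B 12 5 (Pf.B 11 10 (Pf.B 10 5 (Pf.C 1 0x81408585) (Pf.B 10 7 (Pf.B 10 6 (Pf.B 9 6 (Pf.C 1 0xd0428309) (Pf.B 9 7 (Pf.B 9 5 (Pf.B 12 9 (Pf.C 1 0x51a0848c) (Pf.C 1 0x81230282)) (Pf.C 0 0x60e24005)) (Pf.C 1 0x6121c68a))) (Pf.C 0 0x60e28280)) (Pf.C 0 0x5040038a))) (Pf.C 0 0xc1a2800b)) (Pf.C 1 0xb1814402)) (Pf.C 0 0xa1a30008)))) (Pf.B 13 5 (Pf.B 11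 6 (Pf.B 8 6 (Pf.B 12 10 (Pf.B 12 9 (Pf.C 1 0xd042848c) (Pf.B 12 8 (Pf.B 12 6 (Pf.B 12 5 (Pf.C 1 0x81a0828c) (Pf.C 1 0x60a30402)) (Pf.C 1 0xb1818402)) (Pf.C 0 0x91430008))) (Pf.B 12 8 (Pf.B 12 6 (Pf.B 12 5 (Pf.C 1 0x81a0828c) (Pf.C 1 0x60a30402)) (Pf.C 1 0xb1818402)) (Pf.C 0 0xa1a30008))) (Pf.C 0 0xd0a20006)) (Pf.C 0 0xd0a2c006)) (Pf.C 0 0x60e34005))) (Pf.B 11 7 (Pf.B 8 7 (Pf.C 1 0x50e08588) (Pf.C 0 0x420687)) (Pf.C 0 0x42c687)))) (Pf.B 13 8 (Pf.B 13 5 (Pf.C 1 0xb1a08405) (Pf.B 11 9 (Pf.B 9 5 (Pf.B 12 9 (Pf.B 12 5 (Pf.B 12 8 (Pf.C 1 0x51a0840c) (Pf.C 1 0x91030282)) (Pf.C 1 0xb1814482)) (Pf.B 12 8 (Pf.B 12 5 (Pf.C 1 0x21a1440c) (Pf.C 1 0xb1814402)) (Pf.C 0 0x9162000c))) (Pf.C 0 0xd1014009)) (Pf.C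 0 0xd102c009))) (Pf.C 0 0x91434008))) (Pf.B 13 8 (Pf.B 13 5 (Pf.C 1 0xb1a08405) (Pf.B 11 10 (Pf.B 10 5 (Pf.C 1 0x81408585) (Pf.C 0 0x41468a)) (Pf.C 0 0x42c68a))) (Pf.C 0 0x42050d))))
 (Pq.cons (Pq.L [0,2] 4095 (Pf.B 13 10 (Pf.B 13 9 (Pf.B 13 8 (Pf.B 13 5 (Pf.C 0 0x81a14580) (Pf.B 13 7 (Pf.B 13 6 (Pf.B 12 8 (Pf.B 12 5 (Pf.C 0 0x81814580) (Pf.B 12 7 (Pf.B 12 6 (Pf.C 1 0xd041c30c) (Pf.C 0 0x60e30280)) (Pf.C 0 0x71a30280))) (Pf.C 0 0x81a30580)) (Pf.C 0 0x60e34280)) (Pf.C 0 0x5040038d))) (Pf.B 12 8 (Pf.C 0 0xd1820580) (Pf.B 12 10 (Pf.B 12 9 (Pf.C 1 0xd042848c) (Pf.C 0 0x91430400)) (Pf.C 0 0xa1a30400)))) (Pf.B 13 8 (Pf.B 13 5 (Pf.C 0 0x81a14580) (Pf.B 13 7 (Pf.B 13 6 (Pf.B 12 8 (Pf.B 12 5 (Pf.C 0 0x81814580)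 (Pf.B 12 7 (Pf.B 12 6 (Pf.C 1 0xd041c30c) (Pf.C 0 0x60e30280)) (Pf.C 0 0x71a30280))) (Pf.C 0 0x81a30580)) (Pf.C 0 0x60e34280)) (Pf.C 0 0x5040038d))) (Pf.C 0 0x91434008))) (Pf.B 13 8 (Pf.B 13 5 (Pf.C 0 0x81a14580) (Pf.B 13 7 (Pf.B 13 6 (Pf.B 12 8 (Pf.B 12 5 (Pf.C 0 0x81814580) (Pf.B 12 7 (Pf.B 12 6 (Pf.C 1 0xd041c30c) (Pf.C 0 0x60e30280)) (Pf.C 0 0x71a30280))) (Pf.C 0 0x81a30580)) (Pf.C 0 0x60e34280)) (Pf.C 0 0x5040038d))) (Pf.C 0 0x42050d))))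
 (Pq.cons (Pq.L [0,2,3] 4095 (Pf.B 13 10 (Pf.B 13 8 (Pf.B 13 5 (Pf.B 11 10 (Pf.C 1 0xd042840b) (Pf.B 10 5 (Pf.C 1 0x8061468a) (Pf.C 1 0xb1414688))) (Pf.C 1 0x21a14588)) (Pf.B 13 5 (Pf.C 1 0x81a08585) (Pf.B 12 8 (Pf.B 12 5 (Pf.C 1 0xb1808405) (Pf.C 0 0x41468c)) (Pf.C 0 0x42068c)))) (Pf.B 13 9 (Pf.B 13 8 (Pf.B 13 5 (Pf.B 13 7 (Pf.B 11 7 (Pf.C 1 0xd041c28b) (Pf.B 8 7 (Pf.C 1 0xd041c288) (Pf.C 1 0xb0e20685))) (Pf.B 13 6 (Pf.B 12 10 (Pf.B 12 9 (Pf.B 12 7 (Pf.B 10 7 (Pf.B 9 7 (Pf.C 1 0xc1a1c189) (Pf.C 1 0xa121c603)) (Pf.C 0 0x71828680)) (Pf.B 12 6 (Pf.C 0 0xd0c30380) (Pf.B 12 5 (Pf.C 0 0x70a30300) (Pf.C 0 0x61a1400c)))) (Pf.B 12 8 (Pf.B 12 5 (Pf.C 1 0xb1808405) (Pf.B 12 7 (Pf.B 12 6 (Pf.B 10 7 (Pf.B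 10 6 (Pf.C 1 0xc1a28186) (Pf.C 1 0x70c28603)) (Pf.C 0 0x71828680)) (Pf.C 0 0x5040030c)) (Pf.C 0 0xd0a1c00c))) (Pf.C 0 0x42048c))) (Pf.B 12 9 (Pf.C 0 0xd1230500) (Pf.B 12 8 (Pf.C 0 0xa1030480) (Pf.C 0 0x91a2000c)))) (Pf.C 0 0x70a34006))) (Pf.C 1 0x21a14588)) (Pf.B 13 5 (Pf.C 1 0x81a08585) (Pf.B 12 8 (Pf.B 12 5 (Pf.C 1 0xb1808405) (Pf.C 0 0x41468c)) (Pf.C 0 0x42068c)))) (Pf.B 13 8 (Pf.C 0 0xa1034480) (Pf.C 0 0x42048d)))))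
 (Pq.cons (Pq.L [0,3] 3648 (Pf.B 12 8 (Pf.B 12 5 (Pf.C 0 0x81814580) (Pf.C 0 0x630585)) (Pf.C 0 0x630588)))
 (Pq.cons (Pq.L [0,2,3,4] 4095 (Pf.B 13 10 (Pf.B 13 9 (Pf.B 13 8 (Pf.B 13 5 (Pf.C 1 0xb1a08405) (Pf.B 13 7 (Pf.B 13 6 (Pf.B 12 10 (Pf.B 12 9 (Pf.C 1 0xd062848c) (Pf.B 12 8 (Pf.B 12 5 (Pf.C 1 0xb1808405) (Pf.B 12 7 (Pf.B 12 6 (Pf.C 1 0xd061c30c) (Pf.C 0 0x5040030c)) (Pf.C 0 0x5040038c))) (Pf.C 0 0x42048c))) (Pf.B 12 8 (Pf.B 12 5 (Pf.C 1 0xb1808405) (Pf.B 12 7 (Pf.B 12 6 (Pf.C 1 0xd061c30c) (Pf.C 0 0x5040030c)) (Pf.C 0 0x5040038c))) (Pf.C 0 0xa080040c))) (Pf.C 0 0x5040030d)) (Pf.C 0 0x5040038d))) (Pf.B 13 7 (Pf.B 13 6 (Pf.B 12 10 (Pf.B 12 9 (Pf.C 1 0xd062848c) (Pf.B 12 8 (Pf.B 12 5 (Pf.C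 1 0xb1808405) (Pf.B 12 7 (Pf.B 12 6 (Pf.C 1 0xd061c30c) (Pf.C 0 0x5040030c)) (Pf.C 0 0x5040038c))) (Pf.C 0 0x42048c))) (Pf.B 12 8 (Pf.B 12 5 (Pf.C 1 0xb1808405) (Pf.B 12 7 (Pf.B 12 6 (Pf.C 1 0xd061c30c) (Pf.C 0 0x5040030c)) (Pf.C 0 0x5040038c))) (Pf.C 0 0xa080040c))) (Pf.B 11 6 (Pf.B 8 6 (Pf.C 1 0x50c08588) (Pf.C 0 0xd0800308)) (Pf.C 0 0xd080030b))) (Pf.B 11 7 (Pf.B 8 7 (Pf.C 1 0x50e08588) (Pf.C 0 0x420687)) (Pf.C 0 0x42c687)))) (Pf.B 13 8 (Pf.B 13 5 (Pf.C 1 0xb1a08405) (Pf.B 11 9 (Pf.B 9 5 (Pf.C 1 0x81208585) (Pf.C 0 0xd0800289)) (Pf.C 0 0xd080048b))) (Pf.C 0 0x9060040d))) (Pf.B 13 8 (Pf.B 13 5 (Pf.C 1 0xb1a08405) (Pf.B 11 10 (Pf.B 10 5 (Pf.C 1 0x81408585) (Pf.C 0 0x41468a)) (Pf.C 0 0x42c68a)))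 (Pf.C 0 0x42050d))))
 (Pq.cons (Pq.L [0,4] 3712 (Pf.B 13 8 (Pf.B 13 5 (Pf.C 0 0x81a14580) (Pf.C 0 0x834585)) (Pf.C 0 0x834588)))
 (Pq.cons (Pq.L [0,2,3,4] 4095 (Pf.B 13 10 (Pf.B 13 8 (Pf.B 13 5 (Pf.B 11 10 (Pf.C 1 0xd042840b) (Pf.B 10 5 (Pf.C 1 0x8081468a) (Pf.C 1 0xb1414688))) (Pf.C 1 0x21a14588)) (Pf.B 13 5 (Pf.C 1 0x81a08585) (Pf.B 12 8 (Pf.B 12 5 (Pf.C 1 0xb1808405) (Pf.C 0 0xd080028c)) (Pf.C 0 0xd080040c)))) (Pf.B 13 9 (Pf.B 12 10 (Pf.B 13 8 (Pf.B 13 5 (Pf.B 13 7 (Pf.B 11 7 (Pf.C 1 0xd041c28b) (Pf.B 8 7 (Pf.C 1 0xd041c288) (Pf.C 1 0xb0e20685))) (Pf.B 13 6 (Pf.B 12 7 (Pf.B 10 7 (Pf.B 12 9 (Pf.B 12 6 (Pf.B 9 6 (Pf.C 1 0xc1a0c309) (Pf.B 9 5 (Pf.B 11 9 (Pf.C 1 0xd042428b) (Pf.C 1 0x8122c685))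 (Pf.C 0 0x414309))) (Pf.B 12 5 (Pf.B 11 6 (Pf.B 10 5 (Pf.C 1 0xc081438a) (Pf.B 11 10 (Pf.C 1 0x5140840b) (Pf.B 11 9 (Pf.B 9 6 (Pf.C 1 0xd062c309) (Pf.B 9 7 (Pf.B 9 5 (Pf.C 1 0xc1a1c289) (Pf.C 0 0xa0800289)) (Pf.C 0 0x81c309))) (Pf.C 0 0xa080048b)))) (Pf.C 0 0x42c606)) (Pf.C 0 0x61a1400c))) (Pf.B 12 8 (Pf.B 12 5 (Pf.C 1 0xb1808405) (Pf.B 11 9 (Pf.B 9 5 (Pf.C 1 0xd0424585) (Pf.C 0 0x414609)) (Pf.C 0 0x42c609))) (Pf.C 0 0x42048c))) (Pf.C 0 0x71828680)) (Pf.C 0 0x630687)) (Pf.C 0 0x61838d))) (Pf.C 1 0x21a14588)) (Pf.B 13 5 (Pf.C 1 0x81a08585) (Pf.B 12 8 (Pf.B 12 5 (Pf.C 1 0xb1808405) (Pf.C 0 0xd080028c)) (Pf.C 0 0xd080040c)))) (Pf.C 0 0x63068a)) (Pf.C 0 0x62450d))))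
 (Pq.cons (Pq.L [0,3] 3648 (Pf.B 12 8 (Pf.B 12 5 (Pf.C 0 0x81814580) (Pf.C 0 0x630585)) (Pf.C 0 0x630588)))
 (Pq.cons (Pq.L [0,2,3,4] 4095 (Pf.B 13 10 (Pf.B 13 9 (Pf.B 13 8 (Pf.B 13 5 (Pf.C 1 0xb1a08405) (Pf.B 13 7 (Pf.B 12 5 (Pf.B 12 8 (Pf.B 13 6 (Pf.B 12 10 (Pf.B 12 9 (Pf.B 11 9 (Pf.C 1 0xc042440b) (Pf.B 11 10 (Pf.B 10 5 (Pf.C 1 0xc0428585) (Pf.C 1 0x8141460b)) (Pf.C 0 0x9060050b))) (Pf.B 12 7 (Pf.B 10 7 (Pf.C 1 0xd181038a) (Pf.B 10 5 (Pf.B 11 10 (Pf.C 1 0xc042828b) (Pf.C 1 0x8142c605)) (Pf.C 0 0x41438a))) (Pf.B 12 6 (Pf.B 9 7 (Pf.B 10 7 (Pf.C 1 0x41228687) (Pf.B 10 6 (Pf.B 10 5 (Pf.C 1 0xc1a1430a) (Pf.C 0 0x41438a)) (Pf.C 0 0x61838a))) (Pf.C 0 0x81c609)) (Pf.C 0 0x7080030c)))) (Pf.B 12 9 (Pf.B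 11 9 (Pf.C 1 0xc042440b) (Pf.B 11 10 (Pf.B 10 5 (Pf.C 1 0x81408585) (Pf.B 10 7 (Pf.B 11 7 (Pf.C 1 0xd1610507) (Pf.B 11 6 (Pf.B 12 6 (Pf.C 1 0xb061430c) (Pf.B 10 6 (Pf.C 1 0x70c1068a) (Pf.C 0 0xc0a1800a))) (Pf.C 0 0x7080030b))) (Pf.C 0 0x5040038a))) (Pf.C 0 0x9060050b))) (Pf.C 0 0xa080048c))) (Pf.B 12 6 (Pf.B 11 6 (Pf.C 1 0xc041828b) (Pf.C 0 0xd080030b)) (Pf.C 0 0xd080030c))) (Pf.C 1 0x21820585)) (Pf.C 0 0xd080028c)) (Pf.C 0 0x5040038d))) (Pf.B 12 8 (Pf.B 12 5 (Pf.B 13 7 (Pf.B 13 6 (Pf.B 13 5 (Pf.B 12 10 (Pf.B 12 9 (Pf.B 11 9 (Pf.C 1 0xc042440b) (Pf.B 11 10 (Pf.B 10 5 (Pf.C 1 0xc1a2c28a) (Pf.C 1 0x8141460b)) (Pf.C 0 0x9060050b))) (Pf.B 12 7 (Pf.B 10 7 (Pf.C 1 0xd181038a) (Pf.B 10 6 (Pf.B 10 5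 (Pf.C 1 0x6081468a) (Pf.C 0 0x41438a)) (Pf.C 0 0x61838a))) (Pf.B 9 7 (Pf.B 10 7 (Pf.C 1 0x41228687) (Pf.B 10 6 (Pf.B 10 5 (Pf.C 1 0x6081468a) (Pf.C 0 0x41438a)) (Pf.C 0 0x61838a))) (Pf.C 0 0x81c609)))) (Pf.B 12 9 (Pf.B 11 9 (Pf.C 1 0xc042440b) (Pf.B 11 10 (Pf.B 10 5 (Pf.C 1 0x81408585) (Pf.B 10 7 (Pf.B 11 7 (Pf.C 1 0xd1610507) (Pf.B 11 6 (Pf.B 12 6 (Pf.C 1 0xb061430c) (Pf.B 10 6 (Pf.C 1 0x70c1068a) (Pf.C 0 0xc0a1800a))) (Pf.C 0 0x7080030b))) (Pf.C 0 0x5040038a))) (Pf.C 0 0x9060050b))) (Pf.C 0 0xa080048c))) (Pf.B 12 10 (Pf.B 12 9 (Pf.B 11 9 (Pf.C 1 0xc042440b) (Pf.B 11 10 (Pf.B 10 5 (Pf.C 1 0xc0428585) (Pf.C 1 0x8141460b)) (Pf.C 0 0x9060050b))) (Pf.B 12 7 (Pf.B 10 7 (Pf.C 1 0xd181038a) (Pf.B 10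 5 (Pf.B 11 10 (Pf.C 1 0xc042828b) (Pf.C 1 0x8142c605)) (Pf.C 0 0x41438a))) (Pf.B 12 6 (Pf.B 9 7 (Pf.B 10 7 (Pf.C 1 0x41228687) (Pf.B 10 6 (Pf.B 10 5 (Pf.C 1 0xc1a1430a) (Pf.C 0 0x41438a)) (Pf.C 0 0x61838a))) (Pf.C 0 0x81c609)) (Pf.C 0 0x7080030c)))) (Pf.B 12 9 (Pf.B 11 9 (Pf.C 1 0xc042440b) (Pf.B 11 10 (Pf.B 10 5 (Pf.C 1 0x81408585) (Pf.B 10 7 (Pf.B 11 7 (Pf.C 1 0xd1610507) (Pf.B 11 6 (Pf.B 12 6 (Pf.C 1 0xb061430c) (Pf.B 10 6 (Pf.C 1 0x70c1068a) (Pf.C 0 0xc0a1800a))) (Pf.C 0 0x7080030b))) (Pf.C 0 0x5040038a))) (Pf.C 0 0x9060050b))) (Pf.C 0 0xa080048c)))) (Pf.B 12 6 (Pf.B 11 6 (Pf.C 1 0xc041828b) (Pf.C 0 0xd080030b)) (Pf.C 0 0xd080030c))) (Pf.B 12 7 (Pf.B 11 7 (Pf.B 8 7 (Pf.C 1 0xc041c588) (Pf.C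 0 0x420687)) (Pf.C 0 0x42c687)) (Pf.C 0 0x630687))) (Pf.C 1 0x21814588)) (Pf.C 0 0xd080040c))) (Pf.B 12 9 (Pf.B 11 9 (Pf.B 12 8 (Pf.C 1 0xb062048c) (Pf.B 13 8 (Pf.B 13 5 (Pf.C 1 0xb1a08405) (Pf.B 12 5 (Pf.C 1 0x81808585) (Pf.C 0 0xd080028c))) (Pf.C 0 0xc060040d))) (Pf.C 0 0xd080048b)) (Pf.C 0 0xd080048c))) (Pf.B 13 8 (Pf.B 13 5 (Pf.C 1 0xb1a08405) (Pf.B 12 10 (Pf.B 12 5 (Pf.B 11 10 (Pf.B 10 5 (Pf.C 1 0xc0428585) (Pf.C 0 0x41468a)) (Pf.C 0 0x42c68a)) (Pf.C 0 0xd080028c)) (Pf.C 0 0x63068a))) (Pf.C 0 0x42050d))))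
 (Pq.cons (Pq.L [0,4] 3712 (Pf.B 13 8 (Pf.B 13 5 (Pf.C 0 0x81a14580) (Pf.C 0 0x834585)) (Pf.C 0 0x834588)))
 (Pq.cons (Pq.L [0,2,3] 4095 (Pf.B 13 10 (Pf.B 13 9 (Pf.B 13 8 (Pf.B 13 5 (Pf.C 1 0xb1a08405) (Pf.B 13 7 (Pf.B 13 6 (Pf.B 12 10 (Pf.B 12 9 (Pf.C 1 0xd062848c) (Pf.B 12 8 (Pf.B 12 5 (Pf.C 1 0xb1808405) (Pf.B 12 7 (Pf.B 12 6 (Pf.C 1 0xd061c30c) (Pf.C 0 0x5040030c)) (Pf.C 0 0x5040038c))) (Pf.C 0 0x42048c))) (Pf.B 12 8 (Pf.B 12 5 (Pf.C 1 0xb1808405) (Pf.B 12 7 (Pf.B 12 6 (Pf.C 1 0xd061c30c) (Pf.C 0 0x5040030c)) (Pf.C 0 0x5040038c))) (Pf.C 0 0x42050c))) (Pf.C 0 0x5040030d)) (Pf.C 0 0x5040038d))) (Pf.B 13 7 (Pf.B 13 6 (Pf.B 12 10 (Pf.B 12 9 (Pf.C 1 0xd062848c) (Pf.B 12 8 (Pf.B 12 5 (Pf.C 1 0xb1808405)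 (Pf.B 12 7 (Pf.B 12 6 (Pf.C 1 0xd061c30c) (Pf.C 0 0x5040030c)) (Pf.C 0 0x5040038c))) (Pf.C 0 0x42048c))) (Pf.B 12 8 (Pf.B 12 5 (Pf.C 1 0xb1808405) (Pf.B 12 7 (Pf.B 12 6 (Pf.C 1 0xd061c30c) (Pf.C 0 0x5040030c)) (Pf.C 0 0x5040038c))) (Pf.C 0 0x42050c))) (Pf.B 11 6 (Pf.B 8 6 (Pf.C 1 0x50c08588) (Pf.C 0 0x618688)) (Pf.C 0 0x61868b))) (Pf.B 11 7 (Pf.B 8 7 (Pf.C 1 0x50e08588) (Pf.C 0 0x420687)) (Pf.C 0 0x42c687)))) (Pf.B 13 8 (Pf.B 13 5 (Pf.C 1 0xb1a08405) (Pf.B 11 9 (Pf.B 9 5 (Pf.C 1 0x81208585) (Pf.C 0 0x414689)) (Pf.C 0 0x62468b))) (Pf.C 0 0x9060040d))) (Pf.B 13 8 (Pf.B 13 5 (Pf.C 1 0xb1a08405) (Pf.B 11 10 (Pf.B 10 5 (Pf.C 1 0x81408585) (Pf.C 0 0x41468a)) (Pf.C 0 0x42c68a))) (Pf.C 0 0x42050d))))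
 (Pq.cons (Pq.L [0,3] 3648 (Pf.B 12 8 (Pf.B 12 5 (Pf.C 0 0x81814580) (Pf.C 0 0x630585)) (Pf.C 0 0x630588)))
 (Pq.cons (Pq.L [0,2,3] 4095 (Pf.B 13 10 (Pf.B 13 8 (Pf.B 13 5 (Pf.B 11 10 (Pf.C 1 0xd042840b) (Pf.B 10 5 (Pf.C 1 0xd0428405) (Pf.C 1 0xb1414688))) (Pf.C 1 0x21a14588)) (Pf.B 13 5 (Pf.C 1 0x81a08585) (Pf.B 12 8 (Pf.B 12 5 (Pf.C 1 0xb1808405) (Pf.C 0 0x41468c)) (Pf.C 0 0x42068c)))) (Pf.B 13 9 (Pf.B 13 8 (Pf.B 13 5 (Pf.B 13 7 (Pf.B 11 7 (Pf.C 1 0xd041c28b) (Pf.B 8 7 (Pf.C 1 0xd041c288) (Pf.C 1 0xb0e20685))) (Pf.B 13 6 (Pf.B 12 9 (Pf.B 12 8 (Pf.B 12 5 (Pf.C 1 0xb1808405) (Pf.B 12 6 (Pf.B 9 6 (Pf.C 1 0xc1a0c309) (Pf.B 9 5 (Pf.B 11 9 (Pf.C 1 0xd042428b) (Pf.C 1 0x8122c685)) (Pf.C 0 0x414309)))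 (Pf.C 0 0x5040030c))) (Pf.B 12 6 (Pf.B 9 6 (Pf.C 1 0xc1a0c309) (Pf.B 9 5 (Pf.B 11 9 (Pf.C 1 0xd042428b) (Pf.C 1 0x8122c685)) (Pf.C 0 0x414309))) (Pf.B 11 6 (Pf.B 8 6 (Pf.C 1 0xd0418588) (Pf.C 0 0x420606)) (Pf.C 0 0x42c606)))) (Pf.B 12 8 (Pf.B 12 5 (Pf.C 1 0xb1808405) (Pf.B 11 9 (Pf.B 9 5 (Pf.C 1 0xd0424585) (Pf.C 0 0x414609)) (Pf.C 0 0x42c609))) (Pf.C 0 0x42048c))) (Pf.C 0 0x61838d))) (Pf.C 1 0x21a14588)) (Pf.B 13 5 (Pf.C 1 0x81a08585) (Pf.B 12 8 (Pf.B 12 5 (Pf.C 1 0xb1808405) (Pf.C 0 0x41468c)) (Pf.C 0 0x42068c)))) (Pf.C 0 0x62450d))))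
 (Pq.cons (Pq.L [0,3] 3648 (Pf.B 12 8 (Pf.B 12 5 (Pf.C 0 0x81814580) (Pf.C 0 0x630585)) (Pf.C 0 0x630588)))
 Pq.nil))))))))))))))))))))))))))
theorem h_o27 : AllRef h_T h_G12 (List.take 26 (List.drop 66 (List.drop 176 (hitObl [28,29,30,31,32,33,34,35,36,37,38] h_h15)))) :=
  chkPq_sound h_o27c _ (by decide +kernel)
noncomputable def h_o28c : Pq := (Pq.cons (Pq.L [0,2,3] 4095 (Pf.B 13 10 (Pf.B 13 9 (Pf.B 13 8 (Pf.B 13 5 (Pf.C 1 0xb1a08405) (Pf.B 13 7 (Pf.B 12 5 (Pf.B 12 8 (Pf.B 13 6 (Pf.B 12 10 (Pf.B 12 9 (Pf.B 11 9 (Pf.C 1 0xc042440b) (Pf.B 11 10 (Pf.B 10 5 (Pf.C 1 0xc0428585) (Pf.C 1 0x8141460b)) (Pf.C 0 0x9060050b))) (Pf.B 12 7 (Pf.B 12 6 (Pf.B 11 6 (Pf.C 1 0xc041828b) (Pf.B 11 7 (Pf.B 8 7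 (Pf.C 1 0xc1a2c388) (Pf.C 1 0x50e2060b)) (Pf.C 0 0x6060038b))) (Pf.B 9 6 (Pf.B 8 6 (Pf.C 1 0xd0620486) (Pf.B 11 6 (Pf.C 1 0x80c0828b) (Pf.B 11 7 (Pf.B 8 7 (Pf.C 1 0xc1a2c388) (Pf.C 0 0x60600388)) (Pf.C 0 0x6060038b)))) (Pf.C 0 0x61a24600))) (Pf.B 12 6 (Pf.B 11 6 (Pf.C 1 0xc041828b) (Pf.B 11 7 (Pf.B 8 7 (Pf.C 1 0x50e08588) (Pf.B 8 6 (Pf.C 1 0xc1a14308) (Pf.C 0 0x618388))) (Pf.C 0 0x6060038b))) (Pf.C 0 0x71a1800c)))) (Pf.B 12 9 (Pf.B 11 9 (Pf.C 1 0xc042440b) (Pf.B 11 10 (Pf.B 10 5 (Pf.C 1 0x81408585) (Pf.B 9 5 (Pf.C 1 0xc1a14409) (Pf.C 0 0x414509))) (Pf.C 0 0x9060050b))) (Pf.C 0 0xa1a2400c))) (Pf.B 12 6 (Pf.B 11 6 (Pf.C 1 0xc041828b) (Pf.C 0 0x61868b)) (Pf.C 0 0x60a30680))) (Pf.C 1 0x21820585))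 (Pf.C 0 0x41468c)) (Pf.C 0 0x5040038d))) (Pf.B 12 8 (Pf.B 12 5 (Pf.B 13 7 (Pf.B 13 6 (Pf.B 12 10 (Pf.B 12 9 (Pf.B 11 9 (Pf.C 1 0xc042440b) (Pf.B 11 10 (Pf.B 10 5 (Pf.C 1 0xc0428585) (Pf.C 1 0x8141460b)) (Pf.C 0 0x9060050b))) (Pf.B 12 7 (Pf.B 12 6 (Pf.B 11 6 (Pf.C 1 0xc041828b) (Pf.B 11 7 (Pf.B 8 7 (Pf.C 1 0xc041c588) (Pf.C 1 0x50e2060b)) (Pf.C 0 0x6060038b))) (Pf.B 9 6 (Pf.B 11 10 (Pf.B 10 5 (Pf.C 1 0xc0428585) (Pf.C 1 0x8141460b)) (Pf.B 11 9 (Pf.B 10 5 (Pf.C 1 0xb1420605) (Pf.B 9 5 (Pf.B 11 6 (Pf.C 1 0x9041828b) (Pf.B 11 7 (Pf.B 8 7 (Pf.C 1 0xc041c588) (Pf.C 1 0x50e2060b)) (Pf.C 0 0x6060038b))) (Pf.C 0 0x414509))) (Pf.C 0 0x62450b))) (Pf.C 0 0x61a24600))) (Pf.B 12 6 (Pf.B 11 6 (Pf.C 1 0xc041828b)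 (Pf.B 11 7 (Pf.B 8 7 (Pf.C 1 0x50e08588) (Pf.B 8 6 (Pf.C 1 0xc0418288) (Pf.C 0 0x618388))) (Pf.C 0 0x6060038b))) (Pf.C 0 0x71a1800c)))) (Pf.B 12 9 (Pf.B 11 9 (Pf.C 1 0xc042440b) (Pf.B 11 10 (Pf.B 10 5 (Pf.C 1 0x81408585) (Pf.B 9 5 (Pf.C 1 0x80614609) (Pf.C 0 0x414509))) (Pf.C 0 0x9060050b))) (Pf.C 0 0xa1a2400c))) (Pf.B 11 6 (Pf.B 12 6 (Pf.C 1 0xb061430c) (Pf.C 0 0x61630680)) (Pf.C 0 0x61868b))) (Pf.B 12 7 (Pf.B 11 7 (Pf.B 8 7 (Pf.C 1 0xc041c588) (Pf.C 0 0x420687)) (Pf.C 0 0x42c687)) (Pf.C 0 0x630687))) (Pf.C 1 0x21814588)) (Pf.C 0 0x42068c))) (Pf.B 11 9 (Pf.B 12 9 (Pf.B 12 8 (Pf.C 1 0xb062048c) (Pf.B 13 8 (Pf.B 13 5 (Pf.C 1 0xb1a08405) (Pf.B 12 5 (Pf.C 1 0x81808585) (Pf.C 0 0x41468c))) (Pf.C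 0 0xc060040d))) (Pf.C 0 0x91630680)) (Pf.C 0 0x62468b))) (Pf.B 13 8 (Pf.B 13 5 (Pf.C 1 0xb1a08405) (Pf.B 12 10 (Pf.B 12 5 (Pf.B 11 10 (Pf.B 10 5 (Pf.C 1 0xc0428585) (Pf.C 0 0x41468a)) (Pf.C 0 0x42c68a)) (Pf.C 0 0x41468c)) (Pf.C 0 0x63068a))) (Pf.C 0 0x42050d))))
 (Pq.cons (Pq.L [0,2] 4032 (Pf.B 13 8 (Pf.B 13 5 (Pf.C 0 0x81a14580) (Pf.B 12 5 (Pf.C 0 0xb1814680) (Pf.C 0 0x41468c))) (Pf.B 12 8 (Pf.C 0 0xb1820680) (Pf.C 0 0x42068c))))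
 (Pq.cons (Pq.L [0,2,4] 4095 (Pf.B 13 10 (Pf.B 13 8 (Pf.B 13 5 (Pf.B 11 10 (Pf.C 1 0xd042840b) (Pf.B 10 5 (Pf.C 1 0x8081468a) (Pf.C 1 0xb1414688))) (Pf.C 1 0x21a14588)) (Pf.B 13 5 (Pf.C 1 0x81a08585) (Pf.B 12 8 (Pf.B 12 5 (Pf.C 1 0xb1808405) (Pf.C 0 0x41468c)) (Pf.C 0 0x42068c)))) (Pf.B 13 9 (Pf.B 13 8 (Pf.B 13 5 (Pf.B 13 7 (Pf.B 11 7 (Pf.C 1 0xd041c28b) (Pf.B 8 7 (Pf.C 1 0xd041c288) (Pf.C 1 0xb0e20685))) (Pf.B 13 6 (Pf.B 12 10 (Pf.B 12 9 (Pf.B 12 7 (Pf.B 10 7 (Pf.B 9 7 (Pf.C 1 0xc1a1c209) (Pf.C 1 0xa121c604)) (Pf.C 0 0x71828680)) (Pf.B 12 6 (Pf.C 0 0xd0c30380) (Pf.B 12 5 (Pf.C 0 0x70a30300) (Pf.C 0 0x61a1400c)))) (Pf.B 12 8 (Pf.B 12 5 (Pf.C 1 0xb1808405) (Pf.B 12 7 (Pf.B 12 6 (Pf.B 10 7 (Pf.B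 10 6 (Pf.C 1 0xc1a28206) (Pf.C 1 0x70c28604)) (Pf.C 0 0x71828680)) (Pf.C 0 0x5040030c)) (Pf.C 0 0xd0a1c00c))) (Pf.C 0 0x42048c))) (Pf.B 12 9 (Pf.C 0 0xd1230500) (Pf.B 12 8 (Pf.C 0 0xa1030480) (Pf.C 0 0x91a2000c)))) (Pf.C 0 0x70a34006))) (Pf.C 1 0x21a14588)) (Pf.B 13 5 (Pf.C 1 0x81a08585) (Pf.B 12 8 (Pf.B 12 5 (Pf.C 1 0xb1808405) (Pf.C 0 0x41468c)) (Pf.C 0 0x42068c)))) (Pf.B 13 8 (Pf.C 0 0xa1034480) (Pf.C 0 0x42048d)))))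
 (Pq.cons (Pq.L [0,4] 3648 (Pf.B 12 8 (Pf.B 12 5 (Pf.C 0 0x81814580) (Pf.C 0 0x830585)) (Pf.C 0 0x830588)))
 (Pq.cons (Pq.L [0,2,4] 4095 (Pf.B 13 10 (Pf.B 13 9 (Pf.B 13 8 (Pf.B 13 5 (Pf.C 1 0xb1a08405) (Pf.B 13 7 (Pf.B 13 6 (Pf.B 12 10 (Pf.B 12 9 (Pf.C 1 0xd082848c) (Pf.B 12 8 (Pf.B 12 5 (Pf.C 1 0xb1808405) (Pf.B 12 7 (Pf.B 12 6 (Pf.C 1 0xd081c30c) (Pf.C 0 0x5040030c)) (Pf.C 0 0x5040038c))) (Pf.C 0 0x42048c))) (Pf.B 12 8 (Pf.B 12 5 (Pf.C 1 0xb1808405) (Pf.B 12 7 (Pf.B 12 6 (Pf.C 1 0xd081c30c) (Pf.C 0 0x5040030c)) (Pf.C 0 0x5040038c))) (Pf.C 0 0x42050c))) (Pf.C 0 0x5040030d)) (Pf.C 0 0x5040038d))) (Pf.B 13 7 (Pf.B 13 6 (Pf.B 12 10 (Pf.B 12 9 (Pf.C 1 0xd082848c) (Pf.B 12 8 (Pf.B 12 5 (Pf.C 1 0xb1808405)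 (Pf.B 12 7 (Pf.B 12 6 (Pf.C 1 0xd081c30c) (Pf.C 0 0x5040030c)) (Pf.C 0 0x5040038c))) (Pf.C 0 0x42048c))) (Pf.B 12 8 (Pf.B 12 5 (Pf.C 1 0xb1808405) (Pf.B 12 7 (Pf.B 12 6 (Pf.C 1 0xd081c30c) (Pf.C 0 0x5040030c)) (Pf.C 0 0x5040038c))) (Pf.C 0 0x42050c))) (Pf.B 11 6 (Pf.B 8 6 (Pf.C 1 0x50c08588) (Pf.C 0 0x818688)) (Pf.C 0 0x81868b))) (Pf.B 11 7 (Pf.B 8 7 (Pf.C 1 0x50e08588) (Pf.C 0 0x420687)) (Pf.C 0 0x42c687)))) (Pf.B 13 8 (Pf.B 13 5 (Pf.C 1 0xb1a08405) (Pf.B 11 9 (Pf.B 9 5 (Pf.C 1 0x81208585) (Pf.C 0 0x414689)) (Pf.C 0 0x82468b))) (Pf.C 0 0x9080040d))) (Pf.B 13 8 (Pf.B 13 5 (Pf.C 1 0xb1a08405) (Pf.B 11 10 (Pf.B 10 5 (Pf.C 1 0x81408585) (Pf.C 0 0x41468a)) (Pf.C 0 0x42c68a))) (Pf.C 0 0x42050d))))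
 (Pq.cons (Pq.L [0,4] 3648 (Pf.B 12 8 (Pf.B 12 5 (Pf.C 0 0x81814580) (Pf.C 0 0x830585)) (Pf.C 0 0x830588)))
 (Pq.cons (Pq.L [0,2,4] 4095 (Pf.B 13 10 (Pf.B 13 8 (Pf.B 13 5 (Pf.B 11 10 (Pf.C 1 0xd042840b) (Pf.B 10 5 (Pf.C 1 0xd0428405) (Pf.C 1 0xb1414688))) (Pf.C 1 0x21a14588)) (Pf.B 13 5 (Pf.C 1 0x81a08585) (Pf.B 12 8 (Pf.B 12 5 (Pf.C 1 0xb1808405) (Pf.C 0 0x41468c)) (Pf.C 0 0x42068c)))) (Pf.B 13 9 (Pf.B 13 8 (Pf.B 13 5 (Pf.B 13 7 (Pf.B 11 7 (Pf.C 1 0xd041c28b) (Pf.B 8 7 (Pf.C 1 0xd041c288) (Pf.C 1 0xb0e20685))) (Pf.B 13 6 (Pf.B 12 9 (Pf.B 12 8 (Pf.B 12 5 (Pf.C 1 0xb1808405) (Pf.B 12 6 (Pf.B 9 6 (Pf.C 1 0xc1a10309) (Pf.B 9 5 (Pf.B 11 9 (Pf.C 1 0xd042428b) (Pf.C 1 0x8122c685)) (Pf.C 0 0x414309)))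 (Pf.C 0 0x5040030c))) (Pf.B 12 6 (Pf.B 9 6 (Pf.C 1 0xc1a10309) (Pf.B 9 5 (Pf.B 11 9 (Pf.C 1 0xd042428b) (Pf.C 1 0x8122c685)) (Pf.C 0 0x414309))) (Pf.B 11 6 (Pf.B 8 6 (Pf.C 1 0xd0418588) (Pf.C 0 0x420606)) (Pf.C 0 0x42c606)))) (Pf.B 12 8 (Pf.B 12 5 (Pf.C 1 0xb1808405) (Pf.B 11 9 (Pf.B 9 5 (Pf.C 1 0xd0424585) (Pf.C 0 0x414609)) (Pf.C 0 0x42c609))) (Pf.C 0 0x42048c))) (Pf.C 0 0x81838d))) (Pf.C 1 0x21a14588)) (Pf.B 13 5 (Pf.C 1 0x81a08585) (Pf.B 12 8 (Pf.B 12 5 (Pf.C 1 0xb1808405) (Pf.C 0 0x41468c)) (Pf.C 0 0x42068c)))) (Pf.C 0 0x82450d))))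
 (Pq.cons (Pq.L [0,4] 3648 (Pf.B 12 8 (Pf.B 12 5 (Pf.C 0 0x81814580) (Pf.C 0 0x830585)) (Pf.C 0 0x830588)))
 (Pq.cons (Pq.L [0,2,4] 4095 (Pf.B 13 10 (Pf.B 13 9 (Pf.B 13 8 (Pf.B 13 5 (Pf.C 1 0xb1a08405) (Pf.B 13 7 (Pf.B 12 5 (Pf.B 12 8 (Pf.B 13 6 (Pf.B 12 10 (Pf.B 12 9 (Pf.B 11 9 (Pf.C 1 0xc042440b) (Pf.B 11 10 (Pf.B 10 5 (Pf.C 1 0xc0428585) (Pf.C 1 0x8141460b)) (Pf.C 0 0x9080050b))) (Pf.B 12 7 (Pf.B 12 6 (Pf.B 11 6 (Pf.C 1 0xc041828b) (Pf.B 11 7 (Pf.B 8 7 (Pf.C 1 0xc1a2c388) (Pf.C 1 0x50e2060b)) (Pf.C 0 0x6080038b))) (Pf.B 9 6 (Pf.B 8 6 (Pf.C 1 0xd0820486) (Pf.B 11 6 (Pf.C 1 0x80c0828b) (Pf.B 11 7 (Pf.B 8 7 (Pf.C 1 0xc1a2c388) (Pf.C 0 0x60800388)) (Pf.C 0 0x6080038b)))) (Pf.C 0 0x61a24600)))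 (Pf.B 12 6 (Pf.B 11 6 (Pf.C 1 0xc041828b) (Pf.B 11 7 (Pf.B 8 7 (Pf.C 1 0x50e08588) (Pf.B 8 6 (Pf.C 1 0xc1a14308) (Pf.C 0 0x818388))) (Pf.C 0 0x6080038b))) (Pf.C 0 0x71a1800c)))) (Pf.B 12 9 (Pf.B 11 9 (Pf.C 1 0xc042440b) (Pf.B 11 10 (Pf.B 10 5 (Pf.C 1 0x81408585) (Pf.B 9 5 (Pf.C 1 0xc1a14409) (Pf.C 0 0x414509))) (Pf.C 0 0x9080050b))) (Pf.C 0 0xa1a2400c))) (Pf.B 12 6 (Pf.B 11 6 (Pf.C 1 0xc041828b) (Pf.C 0 0x81868b)) (Pf.C 0 0x60a30680))) (Pf.C 1 0x21820585)) (Pf.C 0 0x41468c)) (Pf.C 0 0x5040038d))) (Pf.B 12 8 (Pf.B 12 5 (Pf.B 13 7 (Pf.B 13 6 (Pf.B 12 10 (Pf.B 12 9 (Pf.B 11 9 (Pf.C 1 0xc042440b) (Pf.B 11 10 (Pf.B 10 5 (Pf.C 1 0xc0428585) (Pf.C 1 0x8141460b)) (Pf.C 0 0x9080050b))) (Pf.B 12 7 (Pf.B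 12 6 (Pf.B 11 6 (Pf.C 1 0xc041828b) (Pf.B 11 7 (Pf.B 8 7 (Pf.C 1 0xc041c588) (Pf.C 1 0x50e2060b)) (Pf.C 0 0x6080038b))) (Pf.B 9 6 (Pf.B 11 10 (Pf.B 10 5 (Pf.C 1 0xc0428585) (Pf.C 1 0x8141460b)) (Pf.B 11 9 (Pf.B 10 5 (Pf.C 1 0xb1420605) (Pf.B 9 5 (Pf.B 11 6 (Pf.C 1 0x9041828b) (Pf.B 11 7 (Pf.B 8 7 (Pf.C 1 0xc041c588) (Pf.C 1 0x50e2060b)) (Pf.C 0 0x6080038b))) (Pf.C 0 0x414509))) (Pf.C 0 0x82450b))) (Pf.C 0 0x61a24600))) (Pf.B 12 6 (Pf.B 11 6 (Pf.C 1 0xc041828b) (Pf.B 11 7 (Pf.B 8 7 (Pf.C 1 0x50e08588) (Pf.B 8 6 (Pf.C 1 0xc0418288) (Pf.C 0 0x818388))) (Pf.C 0 0x6080038b))) (Pf.C 0 0x71a1800c)))) (Pf.B 12 9 (Pf.B 11 9 (Pf.C 1 0xc042440b) (Pf.B 11 10 (Pf.B 10 5 (Pf.C 1 0x81408585) (Pf.B 9 5 (Pf.C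 1 0x80814609) (Pf.C 0 0x414509))) (Pf.C 0 0x9080050b))) (Pf.C 0 0xa1a2400c))) (Pf.B 11 6 (Pf.B 12 6 (Pf.C 1 0xb081430c) (Pf.C 0 0x61630680)) (Pf.C 0 0x81868b))) (Pf.B 12 7 (Pf.B 11 7 (Pf.B 8 7 (Pf.C 1 0xc041c588) (Pf.C 0 0x420687)) (Pf.C 0 0x42c687)) (Pf.C 0 0x830687))) (Pf.C 1 0x21814588)) (Pf.C 0 0x42068c))) (Pf.B 11 9 (Pf.B 12 9 (Pf.B 12 8 (Pf.C 1 0xb082048c) (Pf.B 13 8 (Pf.B 13 5 (Pf.C 1 0xb1a08405) (Pf.B 12 5 (Pf.C 1 0x81808585) (Pf.C 0 0x41468c))) (Pf.C 0 0xc080040d))) (Pf.C 0 0x91630680)) (Pf.C 0 0x82468b))) (Pf.B 13 8 (Pf.B 13 5 (Pf.C 1 0xb1a08405) (Pf.B 12 10 (Pf.B 12 5 (Pf.B 11 10 (Pf.B 10 5 (Pf.C 1 0xc0428585) (Pf.C 0 0x41468a)) (Pf.C 0 0x42c68a)) (Pf.C 0 0x41468c)) (Pf.C 0 0x83068a)))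 (Pf.C 0 0x42050d))))
 (Pq.cons (Pq.L [0,2] 4032 (Pf.B 13 8 (Pf.B 13 5 (Pf.C 0 0x81a14580) (Pf.B 12 5 (Pf.C 0 0xb1814680) (Pf.C 0 0x41468c))) (Pf.B 12 8 (Pf.C 0 0xb1820680) (Pf.C 0 0x42068c))))
 (Pq.cons (Pq.L [0,2] 4095 (Pf.B 13 10 (Pf.B 13 8 (Pf.B 13 5 (Pf.B 11 10 (Pf.C 1 0xd042840b) (Pf.B 10 5 (Pf.C 1 0xd0428405) (Pf.C 1 0xb1414688))) (Pf.C 1 0x21a14588)) (Pf.B 13 5 (Pf.C 1 0x81a08585) (Pf.B 12 8 (Pf.B 12 5 (Pf.C 1 0xb1808405) (Pf.C 0 0x41468c)) (Pf.C 0 0x42068c)))) (Pf.B 13 9 (Pf.B 13 8 (Pf.B 13 5 (Pf.B 13 7 (Pf.B 11 7 (Pf.C 1 0xd041c28b) (Pf.B 8 7 (Pf.C 1 0xd041c288) (Pf.C 1 0xb0e20685))) (Pf.B 13 6 (Pf.B 12 10 (Pf.B 12 9 (Pf.B 12 7 (Pf.B 10 7 (Pf.B 11 10 (Pf.B 10 5 (Pf.B 11 7 (Pf.C 1 0xa041c28b)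 (Pf.B 8 7 (Pf.C 1 0xa041c288) (Pf.C 1 0xb0e20505))) (Pf.C 1 0x21414588)) (Pf.B 11 9 (Pf.B 10 5 (Pf.C 1 0xb1408405) (Pf.B 9 5 (Pf.C 1 0xd0424585) (Pf.C 0 0x414509))) (Pf.C 0 0xa182400b))) (Pf.C 0 0x71828680)) (Pf.B 12 6 (Pf.C 0 0xd0c30380) (Pf.B 12 5 (Pf.C 0 0x70a30300) (Pf.C 0 0x61a1400c)))) (Pf.B 12 8 (Pf.B 12 5 (Pf.C 1 0xb1808405) (Pf.B 11 9 (Pf.B 9 5 (Pf.C 1 0xd0424585) (Pf.C 0 0x414609)) (Pf.C 0 0x42c609))) (Pf.C 0 0x42048c))) (Pf.B 12 9 (Pf.C 0 0xd1230500) (Pf.B 12 8 (Pf.C 0 0xa1030480) (Pf.C 0 0x42048c)))) (Pf.C 0 0x70a34006))) (Pf.C 1 0x21a14588)) (Pf.B 13 5 (Pf.C 1 0x81a08585) (Pf.B 12 8 (Pf.B 12 5 (Pf.C 1 0xb1808405) (Pf.C 0 0x41468c)) (Pf.C 0 0x42068c)))) (Pf.B 13 8 (Pf.C 0 0xa1034480)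 (Pf.C 0 0x42048d)))))
 (Pq.cons (Pq.L [0,2] 4032 (Pf.B 13 8 (Pf.B 13 5 (Pf.B 12 8 (Pf.B 12 5 (Pf.C 0 0x81814580) (Pf.C 0 0xb1a1400c)) (Pf.C 0 0xb1a2000c)) (Pf.C 0 0xb1a20005)) (Pf.B 13 5 (Pf.C 0 0xb1a14400) (Pf.B 12 8 (Pf.B 12 5 (Pf.C 0 0x81814580) (Pf.C 0 0x41468c)) (Pf.C 0 0x42068c)))))
 (Pq.cons (Pq.L [0,3,4] 4095 (Pf.B 13 10 (Pf.B 13 9 (Pf.B 13 8 (Pf.B 13 5 (Pf.C 1 0xb1a0c405) (Pf.B 12 10 (Pf.B 12 9 (Pf.C 1 0xd062848c) (Pf.B 12 8 (Pf.B 12 5 (Pf.C 1 0x31a1440c) (Pf.C 1 0xb1814403)) (Pf.C 0 0x91430008))) (Pf.B 12 8 (Pf.B 12 5 (Pf.C 1 0x31a1440c) (Pf.C 1 0xb1814403)) (Pf.C 0 0xa080040c)))) (Pf.B 13 7 (Pf.B 13 6 (Pf.B 12 10 (Pf.B 12 9 (Pf.C 1 0xd062848c) (Pf.B 12 8 (Pf.B 12 5 (Pf.B 11 9 (Pf.B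 10 5 (Pf.C 1 0x8140c605) (Pf.B 10 7 (Pf.B 12 7 (Pf.B 12 6 (Pf.C 1 0xd061c30c) (Pf.B 11 6 (Pf.B 9 6 (Pf.C 1 0xb1a0c309) (Pf.C 0 0x61624600)) (Pf.C 0 0xc1a1800b))) (Pf.C 1 0x4181c68a)) (Pf.C 0 0x5060038a))) (Pf.C 0 0xc1a2400b)) (Pf.C 1 0xb1814403)) (Pf.C 0 0x91430008))) (Pf.B 11 10 (Pf.B 10 5 (Pf.C 1 0x8140c585) (Pf.B 10 7 (Pf.B 12 7 (Pf.C 1 0xa1810687) (Pf.B 11 7 (Pf.C 1 0xd1610507) (Pf.C 0 0x81c60b))) (Pf.C 0 0x5060038a))) (Pf.C 0 0x82860b))) (Pf.B 13 5 (Pf.B 11 6 (Pf.B 8 6 (Pf.B 12 10 (Pf.B 12 9 (Pf.C 1 0xd062848c) (Pf.B 12 8 (Pf.B 12 6 (Pf.B 12 5 (Pf.C 1 0x81a0c28c) (Pf.C 1 0x60a30403)) (Pf.C 1 0xb1818403)) (Pf.C 0 0x91430008))) (Pf.B 12 8 (Pf.B 12 6 (Pf.B 12 5 (Pf.C 1 0x81a0c28c) (Pf.C 1 0x60a30403))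 (Pf.C 1 0xb1818403)) (Pf.C 0 0xa080040c))) (Pf.C 0 0xd0800308)) (Pf.C 0 0xd080030b)) (Pf.C 0 0x834305))) (Pf.B 11 7 (Pf.B 8 7 (Pf.C 1 0x50e0c588) (Pf.C 0 0x620687)) (Pf.C 0 0x62c687)))) (Pf.B 13 8 (Pf.B 13 5 (Pf.C 1 0xb1a0c405) (Pf.B 11 9 (Pf.B 9 5 (Pf.B 12 9 (Pf.B 12 5 (Pf.B 12 8 (Pf.C 1 0x51a0c40c) (Pf.C 1 0x91030283)) (Pf.C 1 0xb1814483)) (Pf.B 12 8 (Pf.B 12 5 (Pf.C 1 0x31a1440c) (Pf.C 1 0xb1814403)) (Pf.C 0 0x9162000c))) (Pf.C 0 0xd0800289)) (Pf.C 0 0xd080048b))) (Pf.C 0 0x834488))) (Pf.B 13 8 (Pf.B 13 5 (Pf.C 1 0xb1a0c405) (Pf.B 11 10 (Pf.B 10 5 (Pf.C 1 0x8140c585) (Pf.C 0 0x61468a)) (Pf.C 0 0x62c68a))) (Pf.C 0 0x62050d))))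
 (Pq.cons (Pq.L [0,4] 3712 (Pf.B 13 8 (Pf.B 13 5 (Pf.C 0 0x81a14580) (Pf.C 0 0x834585)) (Pf.C 0 0x834588)))
 (Pq.cons (Pq.L [0,3] 4095 (Pf.B 13 10 (Pf.B 13 9 (Pf.B 13 8 (Pf.B 13 5 (Pf.C 1 0xb1a0c405) (Pf.B 12 10 (Pf.B 12 9 (Pf.C 1 0xd062848c) (Pf.B 12 8 (Pf.B 12 5 (Pf.C 1 0x31a1440c) (Pf.C 1 0xb1814403)) (Pf.C 0 0x91430008))) (Pf.B 11 10 (Pf.B 12 8 (Pf.B 12 5 (Pf.C 1 0x31a1440c) (Pf.C 1 0xb1814403)) (Pf.C 0 0xa162000c)) (Pf.C 0 0xc1a2800b)))) (Pf.B 13 7 (Pf.B 13 6 (Pf.B 13 5 (Pf.B 12 10 (Pf.B 12 9 (Pf.C 1 0xd062848c) (Pf.B 12 8 (Pf.B 12 5 (Pf.C 1 0x81a0c28c) (Pf.C 1 0xb1814403)) (Pf.C 0 0x91430008))) (Pf.B 12 8 (Pf.B 12 5 (Pf.C 1 0x81a0c28c) (Pf.C 1 0xb1814403)) (Pf.C 0 0xa1a30008))) (Pf.B 12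 10 (Pf.B 12 9 (Pf.C 1 0xd062848c) (Pf.B 12 8 (Pf.B 12 5 (Pf.B 11 9 (Pf.B 10 5 (Pf.C 1 0x8140c605) (Pf.B 10 7 (Pf.B 10 6 (Pf.B 12 6 (Pf.C 1 0xd062830c) (Pf.B 11 6 (Pf.B 9 6 (Pf.C 1 0xb1a0c309) (Pf.C 0 0x61624600)) (Pf.C 0 0xc1a1800b))) (Pf.C 0 0x60e28280)) (Pf.C 0 0x5060038a))) (Pf.C 0 0xc1a2400b)) (Pf.C 1 0xb1814403)) (Pf.C 0 0x91430008))) (Pf.B 12 8 (Pf.B 12 5 (Pf.B 11 10 (Pf.B 10 5 (Pf.C 1 0x8140c585) (Pf.B 10 7 (Pf.B 10 6 (Pf.B 9 6 (Pf.C 1 0xd0628309) (Pf.B 9 7 (Pf.B 9 5 (Pf.B 12 9 (Pf.C 1 0x51a0c48c) (Pf.C 1 0x81230283)) (Pf.C 0 0x60e24005)) (Pf.C 1 0x6121c68a))) (Pf.C 0 0x60e28280)) (Pf.C 0 0x5060038a))) (Pf.C 0 0xc1a2800b)) (Pf.C 1 0xb1814403)) (Pf.C 0 0xa1a30008)))) (Pf.B 13 5 (Pf.B 11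 6 (Pf.B 8 6 (Pf.B 12 10 (Pf.B 12 9 (Pf.C 1 0xd062848c) (Pf.B 12 8 (Pf.B 12 6 (Pf.B 12 5 (Pf.C 1 0x81a0c28c) (Pf.C 1 0x60a30403)) (Pf.C 1 0xb1818403)) (Pf.C 0 0x91430008))) (Pf.B 12 8 (Pf.B 12 6 (Pf.B 12 5 (Pf.C 1 0x81a0c28c) (Pf.C 1 0x60a30403)) (Pf.C 1 0xb1818403)) (Pf.C 0 0xa1a30008))) (Pf.C 0 0xd0a20006)) (Pf.C 0 0xd0a2c006)) (Pf.C 0 0x60e34005))) (Pf.B 11 7 (Pf.B 8 7 (Pf.C 1 0x50e0c588) (Pf.C 0 0x620687)) (Pf.C 0 0x62c687)))) (Pf.B 13 8 (Pf.B 13 5 (Pf.C 1 0xb1a0c405) (Pf.B 11 9 (Pf.B 9 5 (Pf.B 12 9 (Pf.B 12 5 (Pf.B 12 8 (Pf.C 1 0x51a0c40c) (Pf.C 1 0x91030283)) (Pf.C 1 0xb1814483)) (Pf.B 12 8 (Pf.B 12 5 (Pf.C 1 0x31a1440c) (Pf.C 1 0xb1814403)) (Pf.C 0 0x9162000c))) (Pf.C 0 0xd1014009)) (Pf.C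 0 0xd102c009))) (Pf.C 0 0x91434008))) (Pf.B 13 8 (Pf.B 13 5 (Pf.C 1 0xb1a0c405) (Pf.B 11 10 (Pf.B 10 5 (Pf.C 1 0x8140c585) (Pf.C 0 0x61468a)) (Pf.C 0 0x62c68a))) (Pf.C 0 0x62050d))))
 (Pq.cons (Pq.L [0,3] 4095 (Pf.B 13 10 (Pf.B 13 9 (Pf.B 13 8 (Pf.B 13 5 (Pf.C 0 0x81a14580) (Pf.B 13 7 (Pf.B 13 6 (Pf.B 12 8 (Pf.B 12 5 (Pf.C 0 0x81814580) (Pf.B 12 7 (Pf.B 12 6 (Pf.C 1 0xd061c30c) (Pf.C 0 0x60e30280)) (Pf.C 0 0x71a30280))) (Pf.C 0 0x81a30580)) (Pf.C 0 0x60e34280)) (Pf.C 0 0x5060038d))) (Pf.B 12 8 (Pf.C 0 0xd1820580) (Pf.B 12 10 (Pf.B 12 9 (Pf.C 1 0xd062848c) (Pf.C 0 0x91430400)) (Pf.C 0 0xa1a30400)))) (Pf.B 13 8 (Pf.B 13 5 (Pf.C 0 0x81a14580) (Pf.B 13 7 (Pf.B 13 6 (Pf.B 12 8 (Pf.B 12 5 (Pf.C 0 0x81814580)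 (Pf.B 12 7 (Pf.B 12 6 (Pf.C 1 0xd061c30c) (Pf.C 0 0x60e30280)) (Pf.C 0 0x71a30280))) (Pf.C 0 0x81a30580)) (Pf.C 0 0x60e34280)) (Pf.C 0 0x5060038d))) (Pf.C 0 0x91434008))) (Pf.B 13 8 (Pf.B 13 5 (Pf.C 0 0x81a14580) (Pf.B 13 7 (Pf.B 13 6 (Pf.B 12 8 (Pf.B 12 5 (Pf.C 0 0x81814580) (Pf.B 12 7 (Pf.B 12 6 (Pf.C 1 0xd061c30c) (Pf.C 0 0x60e30280)) (Pf.C 0 0x71a30280))) (Pf.C 0 0x81a30580)) (Pf.C 0 0x60e34280)) (Pf.C 0 0x5060038d))) (Pf.C 0 0x62050d))))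
 (Pq.cons (Pq.L [0,3,4] 4095 (Pf.B 13 10 (Pf.B 13 8 (Pf.B 13 5 (Pf.B 11 10 (Pf.C 1 0xd062840b) (Pf.B 10 5 (Pf.C 1 0x8081468a) (Pf.C 1 0xb1414688))) (Pf.C 1 0x31a14588)) (Pf.B 13 5 (Pf.C 1 0x81a0c585) (Pf.B 12 8 (Pf.B 12 5 (Pf.C 1 0xb180c405) (Pf.C 0 0x61468c)) (Pf.C 0 0x62068c)))) (Pf.B 13 9 (Pf.B 13 8 (Pf.B 13 5 (Pf.B 13 7 (Pf.B 11 7 (Pf.C 1 0xd061c28b) (Pf.B 8 7 (Pf.C 1 0xd061c288) (Pf.C 1 0xb0e20685))) (Pf.B 13 6 (Pf.B 12 10 (Pf.B 12 9 (Pf.B 12 7 (Pf.B 10 7 (Pf.B 9 7 (Pf.C 1 0xc1a1c209) (Pf.C 1 0xa121c604)) (Pf.C 0 0x71828680)) (Pf.B 12 6 (Pf.C 0 0xd0c30380) (Pf.B 12 5 (Pf.C 0 0x70a30300) (Pf.C 0 0x61a1400c)))) (Pf.B 12 8 (Pf.B 12 5 (Pf.C 1 0xb180c405) (Pf.B 12 7 (Pf.B 12 6 (Pf.B 10 7 (Pf.B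 10 6 (Pf.C 1 0xc1a28206) (Pf.C 1 0x70c28604)) (Pf.C 0 0x71828680)) (Pf.C 0 0x5060030c)) (Pf.C 0 0xd0a1c00c))) (Pf.C 0 0x62048c))) (Pf.B 12 9 (Pf.C 0 0xd1230500) (Pf.B 12 8 (Pf.C 0 0xa1030480) (Pf.C 0 0x91a2000c)))) (Pf.C 0 0x70a34006))) (Pf.C 1 0x31a14588)) (Pf.B 13 5 (Pf.C 1 0x81a0c585) (Pf.B 12 8 (Pf.B 12 5 (Pf.C 1 0xb180c405) (Pf.C 0 0x61468c)) (Pf.C 0 0x62068c)))) (Pf.B 13 8 (Pf.C 0 0xa1034480) (Pf.C 0 0x62048d)))))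
 (Pq.cons (Pq.L [0,4] 3648 (Pf.B 12 8 (Pf.B 12 5 (Pf.C 0 0x81814580) (Pf.C 0 0x830585)) (Pf.C 0 0x830588)))
 (Pq.cons (Pq.L [0,3,4] 4095 (Pf.B 13 10 (Pf.B 13 9 (Pf.B 13 8 (Pf.B 13 5 (Pf.C 1 0xb1a0c405) (Pf.B 13 7 (Pf.B 13 6 (Pf.B 12 10 (Pf.B 12 9 (Pf.C 1 0xd082848c) (Pf.B 12 8 (Pf.B 12 5 (Pf.C 1 0xb180c405) (Pf.B 12 7 (Pf.B 12 6 (Pf.C 1 0xd081c30c) (Pf.C 0 0x5060030c)) (Pf.C 0 0x5060038c))) (Pf.C 0 0x62048c))) (Pf.B 12 8 (Pf.B 12 5 (Pf.C 1 0xb180c405) (Pf.B 12 7 (Pf.B 12 6 (Pf.C 1 0xd081c30c) (Pf.C 0 0x5060030c)) (Pf.C 0 0x5060038c))) (Pf.C 0 0x62050c))) (Pf.C 0 0x5060030d)) (Pf.C 0 0x5060038d))) (Pf.B 13 7 (Pf.B 13 6 (Pf.B 12 10 (Pf.B 12 9 (Pf.C 1 0xd082848c) (Pf.B 12 8 (Pf.B 12 5 (Pf.C 1 0xb180c405)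 (Pf.B 12 7 (Pf.B 12 6 (Pf.C 1 0xd081c30c) (Pf.C 0 0x5060030c)) (Pf.C 0 0x5060038c))) (Pf.C 0 0x62048c))) (Pf.B 12 8 (Pf.B 12 5 (Pf.C 1 0xb180c405) (Pf.B 12 7 (Pf.B 12 6 (Pf.C 1 0xd081c30c) (Pf.C 0 0x5060030c)) (Pf.C 0 0x5060038c))) (Pf.C 0 0x62050c))) (Pf.B 11 6 (Pf.B 8 6 (Pf.C 1 0x50c0c588) (Pf.C 0 0x818688)) (Pf.C 0 0x81868b))) (Pf.B 11 7 (Pf.B 8 7 (Pf.C 1 0x50e0c588) (Pf.C 0 0x620687)) (Pf.C 0 0x62c687)))) (Pf.B 13 8 (Pf.B 13 5 (Pf.C 1 0xb1a0c405) (Pf.B 11 9 (Pf.B 9 5 (Pf.C 1 0x8120c585) (Pf.C 0 0x614689)) (Pf.C 0 0x82468b))) (Pf.C 0 0x9080040d))) (Pf.B 13 8 (Pf.B 13 5 (Pf.C 1 0xb1a0c405) (Pf.B 11 10 (Pf.B 10 5 (Pf.C 1 0x8140c585) (Pf.C 0 0x61468a)) (Pf.C 0 0x62c68a))) (Pf.C 0 0x62050d))))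
 (Pq.cons (Pq.L [0,4] 3648 (Pf.B 12 8 (Pf.B 12 5 (Pf.C 0 0x81814580) (Pf.C 0 0x830585)) (Pf.C 0 0x830588)))
 (Pq.cons (Pq.L [0,3,4] 4095 (Pf.B 13 10 (Pf.B 13 8 (Pf.B 13 5 (Pf.B 11 10 (Pf.C 1 0xd062840b) (Pf.B 10 5 (Pf.C 1 0xd0628405) (Pf.C 1 0xb1414688))) (Pf.C 1 0x31a14588)) (Pf.B 13 5 (Pf.C 1 0x81a0c585) (Pf.B 12 8 (Pf.B 12 5 (Pf.C 1 0xb180c405) (Pf.C 0 0x61468c)) (Pf.C 0 0x62068c)))) (Pf.B 13 9 (Pf.B 13 8 (Pf.B 13 5 (Pf.B 13 7 (Pf.B 11 7 (Pf.C 1 0xd061c28b) (Pf.B 8 7 (Pf.C 1 0xd061c288) (Pf.C 1 0xb0e20685))) (Pf.B 13 6 (Pf.B 12 9 (Pf.B 12 8 (Pf.B 12 5 (Pf.C 1 0xb180c405) (Pf.B 12 6 (Pf.B 9 6 (Pf.C 1 0xc1a10309) (Pf.B 9 5 (Pf.B 11 9 (Pf.C 1 0xd062428b) (Pf.C 1 0x8122c685)) (Pf.C 0 0x614309)))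 (Pf.C 0 0x5060030c))) (Pf.B 12 6 (Pf.B 9 6 (Pf.C 1 0xc1a10309) (Pf.B 9 5 (Pf.B 11 9 (Pf.C 1 0xd062428b) (Pf.C 1 0x8122c685)) (Pf.C 0 0x614309))) (Pf.B 11 6 (Pf.B 8 6 (Pf.C 1 0xd0618588) (Pf.C 0 0x620606)) (Pf.C 0 0x62c606)))) (Pf.B 12 8 (Pf.B 12 5 (Pf.C 1 0xb180c405) (Pf.B 11 9 (Pf.B 9 5 (Pf.C 1 0xd0624585) (Pf.C 0 0x614609)) (Pf.C 0 0x62c609))) (Pf.C 0 0x62048c))) (Pf.C 0 0x81838d))) (Pf.C 1 0x31a14588)) (Pf.B 13 5 (Pf.C 1 0x81a0c585) (Pf.B 12 8 (Pf.B 12 5 (Pf.C 1 0xb180c405) (Pf.C 0 0x61468c)) (Pf.C 0 0x62068c)))) (Pf.C 0 0x82450d))))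
 (Pq.cons (Pq.L [0,4] 3648 (Pf.B 12 8 (Pf.B 12 5 (Pf.C 0 0x81814580) (Pf.C 0 0x830585)) (Pf.C 0 0x830588)))
 (Pq.cons (Pq.L [0,3,4] 4095 (Pf.B 13 10 (Pf.B 13 9 (Pf.B 13 8 (Pf.B 13 5 (Pf.C 1 0xb1a0c405) (Pf.B 13 7 (Pf.B 12 5 (Pf.B 12 8 (Pf.B 13 6 (Pf.B 12 10 (Pf.B 12 9 (Pf.B 11 9 (Pf.C 1 0xc062440b) (Pf.B 11 10 (Pf.B 10 5 (Pf.C 1 0xc0628585) (Pf.C 1 0x8141460b)) (Pf.C 0 0x9080050b))) (Pf.B 12 7 (Pf.B 12 6 (Pf.B 11 6 (Pf.C 1 0xc061828b) (Pf.B 11 7 (Pf.B 8 7 (Pf.C 1 0xc1a2c388) (Pf.C 1 0x50e2060b)) (Pf.C 0 0x6080038b))) (Pf.B 9 6 (Pf.B 8 6 (Pf.C 1 0xd0820486) (Pf.B 11 6 (Pf.C 1 0x80c0c28b) (Pf.B 11 7 (Pf.B 8 7 (Pf.C 1 0xc1a2c388) (Pf.C 0 0x60800388)) (Pf.C 0 0x6080038b)))) (Pf.C 0 0x61a24600)))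 (Pf.B 12 6 (Pf.B 11 6 (Pf.C 1 0xc061828b) (Pf.B 11 7 (Pf.B 8 7 (Pf.C 1 0x50e0c588) (Pf.B 8 6 (Pf.C 1 0xc1a14308) (Pf.C 0 0x818388))) (Pf.C 0 0x6080038b))) (Pf.C 0 0x71a1800c)))) (Pf.B 12 9 (Pf.B 11 9 (Pf.C 1 0xc062440b) (Pf.B 11 10 (Pf.B 10 5 (Pf.C 1 0x8140c585) (Pf.B 9 5 (Pf.C 1 0xc1a14409) (Pf.C 0 0x614509))) (Pf.C 0 0x9080050b))) (Pf.C 0 0xa1a2400c))) (Pf.B 12 6 (Pf.B 11 6 (Pf.C 1 0xc061828b) (Pf.C 0 0x81868b)) (Pf.C 0 0x60a30680))) (Pf.C 1 0x31820585)) (Pf.C 0 0x61468c)) (Pf.C 0 0x5060038d))) (Pf.B 12 8 (Pf.B 12 5 (Pf.B 13 7 (Pf.B 13 6 (Pf.B 12 10 (Pf.B 12 9 (Pf.B 11 9 (Pf.C 1 0xc062440b) (Pf.B 11 10 (Pf.B 10 5 (Pf.C 1 0xc0628585) (Pf.C 1 0x8141460b)) (Pf.C 0 0x9080050b))) (Pf.B 12 7 (Pf.B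 12 6 (Pf.B 11 6 (Pf.C 1 0xc061828b) (Pf.B 11 7 (Pf.B 8 7 (Pf.C 1 0xc061c588) (Pf.C 1 0x50e2060b)) (Pf.C 0 0x6080038b))) (Pf.B 9 6 (Pf.B 11 10 (Pf.B 10 5 (Pf.C 1 0xc0628585) (Pf.C 1 0x8141460b)) (Pf.B 11 9 (Pf.B 10 5 (Pf.C 1 0xb1420605) (Pf.B 9 5 (Pf.B 11 6 (Pf.C 1 0x9061828b) (Pf.B 11 7 (Pf.B 8 7 (Pf.C 1 0xc061c588) (Pf.C 1 0x50e2060b)) (Pf.C 0 0x6080038b))) (Pf.C 0 0x614509))) (Pf.C 0 0x82450b))) (Pf.C 0 0x61a24600))) (Pf.B 12 6 (Pf.B 11 6 (Pf.C 1 0xc061828b) (Pf.B 11 7 (Pf.B 8 7 (Pf.C 1 0x50e0c588) (Pf.B 8 6 (Pf.C 1 0xc0618288) (Pf.C 0 0x818388))) (Pf.C 0 0x6080038b))) (Pf.C 0 0x71a1800c)))) (Pf.B 12 9 (Pf.B 11 9 (Pf.C 1 0xc062440b) (Pf.B 11 10 (Pf.B 10 5 (Pf.C 1 0x8140c585) (Pf.B 9 5 (Pf.C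 1 0x80814609) (Pf.C 0 0x614509))) (Pf.C 0 0x9080050b))) (Pf.C 0 0xa1a2400c))) (Pf.B 11 6 (Pf.B 12 6 (Pf.C 1 0xb081430c) (Pf.C 0 0x61630680)) (Pf.C 0 0x81868b))) (Pf.B 12 7 (Pf.B 11 7 (Pf.B 8 7 (Pf.C 1 0xc061c588) (Pf.C 0 0x620687)) (Pf.C 0 0x62c687)) (Pf.C 0 0x830687))) (Pf.C 1 0x31814588)) (Pf.C 0 0x62068c))) (Pf.B 11 9 (Pf.B 12 9 (Pf.B 12 8 (Pf.C 1 0xb082048c) (Pf.B 13 8 (Pf.B 13 5 (Pf.C 1 0xb1a0c405) (Pf.B 12 5 (Pf.C 1 0x8180c585) (Pf.C 0 0x61468c))) (Pf.C 0 0xc080040d))) (Pf.C 0 0x91630680)) (Pf.C 0 0x82468b))) (Pf.B 13 8 (Pf.B 13 5 (Pf.C 1 0xb1a0c405) (Pf.B 12 10 (Pf.B 12 5 (Pf.B 11 10 (Pf.B 10 5 (Pf.C 1 0xc0628585) (Pf.C 0 0x61468a)) (Pf.C 0 0x62c68a)) (Pf.C 0 0x61468c)) (Pf.C 0 0x83068a)))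 (Pf.C 0 0x62050d))))
 (Pq.cons (Pq.L [0,3] 4032 (Pf.B 13 8 (Pf.B 13 5 (Pf.C 0 0x81a14580) (Pf.B 12 5 (Pf.C 0 0xb1814680) (Pf.C 0 0x61468c))) (Pf.B 12 8 (Pf.C 0 0xb1820680) (Pf.C 0 0x62068c))))
 (Pq.cons (Pq.L [0,3] 4095 (Pf.B 13 10 (Pf.B 13 8 (Pf.B 13 5 (Pf.B 11 10 (Pf.C 1 0xd062840b) (Pf.B 10 5 (Pf.C 1 0xd0628405) (Pf.C 1 0xb1414688))) (Pf.C 1 0x31a14588)) (Pf.B 13 5 (Pf.C 1 0x81a0c585) (Pf.B 12 8 (Pf.B 12 5 (Pf.C 1 0xb180c405) (Pf.C 0 0x61468c)) (Pf.C 0 0x62068c)))) (Pf.B 13 9 (Pf.B 13 8 (Pf.B 13 5 (Pf.B 13 7 (Pf.B 11 7 (Pf.C 1 0xd061c28b) (Pf.B 8 7 (Pf.C 1 0xd061c288) (Pf.C 1 0xb0e20685))) (Pf.B 13 6 (Pf.B 12 10 (Pf.B 12 9 (Pf.B 12 7 (Pf.B 10 7 (Pf.B 11 10 (Pf.B 10 5 (Pf.B 11 7 (Pf.C 1 0xa061c28b)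 (Pf.B 8 7 (Pf.C 1 0xa061c288) (Pf.C 1 0xb0e20505))) (Pf.C 1 0x31414588)) (Pf.B 11 9 (Pf.B 10 5 (Pf.C 1 0xb140c405) (Pf.B 9 5 (Pf.C 1 0xd0624585) (Pf.C 0 0x614509))) (Pf.C 0 0xa182400b))) (Pf.C 0 0x71828680)) (Pf.B 12 6 (Pf.C 0 0xd0c30380) (Pf.B 12 5 (Pf.C 0 0x70a30300) (Pf.C 0 0x61a1400c)))) (Pf.B 12 8 (Pf.B 12 5 (Pf.C 1 0xb180c405) (Pf.B 11 9 (Pf.B 9 5 (Pf.C 1 0xd0624585) (Pf.C 0 0x614609)) (Pf.C 0 0x62c609))) (Pf.C 0 0x62048c))) (Pf.B 12 9 (Pf.C 0 0xd1230500) (Pf.B 12 8 (Pf.C 0 0xa1030480) (Pf.C 0 0x62048c)))) (Pf.C 0 0x70a34006))) (Pf.C 1 0x31a14588)) (Pf.B 13 5 (Pf.C 1 0x81a0c585) (Pf.B 12 8 (Pf.B 12 5 (Pf.C 1 0xb180c405) (Pf.C 0 0x61468c)) (Pf.C 0 0x62068c)))) (Pf.B 13 8 (Pf.C 0 0xa1034480)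 (Pf.C 0 0x62048d)))))
 (Pq.cons (Pq.L [0,3] 4032 (Pf.B 13 8 (Pf.B 13 5 (Pf.B 12 8 (Pf.B 12 5 (Pf.C 0 0x81814580) (Pf.C 0 0xb1a1400c)) (Pf.C 0 0xb1a2000c)) (Pf.C 0 0xb1a20005)) (Pf.B 13 5 (Pf.C 0 0xb1a14400) (Pf.B 12 8 (Pf.B 12 5 (Pf.C 0 0x81814580) (Pf.C 0 0x61468c)) (Pf.C 0 0x62068c)))))
 (Pq.cons (Pq.L [0,4] 4095 (Pf.B 13 10 (Pf.B 13 9 (Pf.B 13 8 (Pf.B 13 5 (Pf.C 1 0xb1a10405) (Pf.B 12 10 (Pf.B 12 9 (Pf.C 1 0xd082848c) (Pf.B 12 8 (Pf.B 12 5 (Pf.C 1 0x41a1440c) (Pf.C 1 0xb1814404)) (Pf.C 0 0x91430008))) (Pf.B 11 10 (Pf.B 12 8 (Pf.B 12 5 (Pf.C 1 0x41a1440c) (Pf.C 1 0xb1814404)) (Pf.C 0 0xa162000c)) (Pf.C 0 0xc1a2800b)))) (Pf.B 13 7 (Pf.B 13 6 (Pf.B 13 5 (Pf.B 12 10 (Pf.B 12 9 (Pf.C 1 0xd082848c)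 (Pf.B 12 8 (Pf.B 12 5 (Pf.C 1 0x81a1028c) (Pf.C 1 0xb1814404)) (Pf.C 0 0x91430008))) (Pf.B 12 8 (Pf.B 12 5 (Pf.C 1 0x81a1028c) (Pf.C 1 0xb1814404)) (Pf.C 0 0xa1a30008))) (Pf.B 12 10 (Pf.B 12 9 (Pf.C 1 0xd082848c) (Pf.B 12 8 (Pf.B 12 5 (Pf.B 11 9 (Pf.B 10 5 (Pf.C 1 0x81410605) (Pf.B 10 7 (Pf.B 10 6 (Pf.B 12 6 (Pf.C 1 0xd082830c) (Pf.B 11 6 (Pf.B 9 6 (Pf.C 1 0xb1a10309) (Pf.C 0 0x61624600)) (Pf.C 0 0xc1a1800b))) (Pf.C 0 0x60e28280)) (Pf.C 0 0x5080038a))) (Pf.C 0 0xc1a2400b)) (Pf.C 1 0xb1814404)) (Pf.C 0 0x91430008))) (Pf.B 12 8 (Pf.B 12 5 (Pf.B 11 10 (Pf.B 10 5 (Pf.C 1 0x81410585) (Pf.B 10 7 (Pf.B 10 6 (Pf.B 9 6 (Pf.C 1 0xd0828309) (Pf.B 9 7 (Pf.B 9 5 (Pf.B 12 9 (Pf.C 1 0x51a1048c) (Pf.C 1 0x81230284))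 (Pf.C 0 0x60e24005)) (Pf.C 1 0x6121c68a))) (Pf.C 0 0x60e28280)) (Pf.C 0 0x5080038a))) (Pf.C 0 0xc1a2800b)) (Pf.C 1 0xb1814404)) (Pf.C 0 0xa1a30008)))) (Pf.B 13 5 (Pf.B 11 6 (Pf.B 8 6 (Pf.B 12 10 (Pf.B 12 9 (Pf.C 1 0xd082848c) (Pf.B 12 8 (Pf.B 12 6 (Pf.B 12 5 (Pf.C 1 0x81a1028c) (Pf.C 1 0x60a30404)) (Pf.C 1 0xb1818404)) (Pf.C 0 0x91430008))) (Pf.B 12 8 (Pf.B 12 6 (Pf.B 12 5 (Pf.C 1 0x81a1028c) (Pf.C 1 0x60a30404)) (Pf.C 1 0xb1818404)) (Pf.C 0 0xa1a30008))) (Pf.C 0 0xd0a20006)) (Pf.C 0 0xd0a2c006)) (Pf.C 0 0x60e34005))) (Pf.B 11 7 (Pf.B 8 7 (Pf.C 1 0x50e10588) (Pf.C 0 0x820687)) (Pf.C 0 0x82c687)))) (Pf.B 13 8 (Pf.B 13 5 (Pf.C 1 0xb1a10405) (Pf.B 11 9 (Pf.B 9 5 (Pf.B 12 9 (Pf.B 12 5 (Pf.B 12 8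 (Pf.C 1 0x51a1040c) (Pf.C 1 0x91030284)) (Pf.C 1 0xb1814484)) (Pf.B 12 8 (Pf.B 12 5 (Pf.C 1 0x41a1440c) (Pf.C 1 0xb1814404)) (Pf.C 0 0x9162000c))) (Pf.C 0 0xd1014009)) (Pf.C 0 0xd102c009))) (Pf.C 0 0x91434008))) (Pf.B 13 8 (Pf.B 13 5 (Pf.C 1 0xb1a10405) (Pf.B 11 10 (Pf.B 10 5 (Pf.C 1 0x81410585) (Pf.C 0 0x81468a)) (Pf.C 0 0x82c68a))) (Pf.C 0 0x82050d))))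
 (Pq.cons (Pq.L [0,4] 4095 (Pf.B 13 10 (Pf.B 13 9 (Pf.B 13 8 (Pf.B 13 5 (Pf.C 0 0x81a14580) (Pf.B 13 7 (Pf.B 13 6 (Pf.B 12 8 (Pf.B 12 5 (Pf.C 0 0x81814580) (Pf.B 12 7 (Pf.B 12 6 (Pf.C 1 0xd081c30c) (Pf.C 0 0x60e30280)) (Pf.C 0 0x71a30280))) (Pf.C 0 0x81a30580)) (Pf.C 0 0x60e34280)) (Pf.C 0 0x5080038d))) (Pf.B 12 8 (Pf.C 0 0xd1820580) (Pf.B 12 10 (Pf.B 12 9 (Pf.C 1 0xd082848c) (Pf.C 0 0x91430400)) (Pf.C 0 0xa1a30400)))) (Pf.B 13 8 (Pf.B 13 5 (Pf.C 0 0x81a14580) (Pf.B 13 7 (Pf.B 13 6 (Pf.B 12 8 (Pf.B 12 5 (Pf.C 0 0x81814580) (Pf.B 12 7 (Pf.B 12 6 (Pf.C 1 0xd081c30c) (Pf.C 0 0x60e30280)) (Pf.C 0 0x71a30280))) (Pf.C 0 0x81a30580)) (Pf.C 0 0x60e34280)) (Pf.C 0 0x5080038d))) (Pf.C 0 0x91434008))) (Pf.B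 13 8 (Pf.B 13 5 (Pf.C 0 0x81a14580) (Pf.B 13 7 (Pf.B 13 6 (Pf.B 12 8 (Pf.B 12 5 (Pf.C 0 0x81814580) (Pf.B 12 7 (Pf.B 12 6 (Pf.C 1 0xd081c30c) (Pf.C 0 0x60e30280)) (Pf.C 0 0x71a30280))) (Pf.C 0 0x81a30580)) (Pf.C 0 0x60e34280)) (Pf.C 0 0x5080038d))) (Pf.C 0 0x82050d))))
 (Pq.cons (Pq.L [0,4] 4095 (Pf.B 13 10 (Pf.B 13 8 (Pf.B 13 5 (Pf.B 11 10 (Pf.C 1 0xd082840b) (Pf.B 10 5 (Pf.C 1 0xd0828405) (Pf.C 1 0xb1414688))) (Pf.C 1 0x41a14588)) (Pf.B 13 5 (Pf.C 1 0x81a10585) (Pf.B 12 8 (Pf.B 12 5 (Pf.C 1 0xb1810405) (Pf.C 0 0x81468c)) (Pf.C 0 0x82068c)))) (Pf.B 13 9 (Pf.B 13 8 (Pf.B 13 5 (Pf.B 13 7 (Pf.B 11 7 (Pf.C 1 0xd081c28b) (Pf.B 8 7 (Pf.C 1 0xd081c288) (Pf.C 1 0xb0e20685))) (Pf.B 13 6 (Pf.B 12 10 (Pf.B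 12 9 (Pf.B 12 7 (Pf.B 10 7 (Pf.B 11 10 (Pf.B 10 5 (Pf.B 11 7 (Pf.C 1 0xa081c28b) (Pf.B 8 7 (Pf.C 1 0xa081c288) (Pf.C 1 0xb0e20505))) (Pf.C 1 0x41414588)) (Pf.B 11 9 (Pf.B 10 5 (Pf.C 1 0xb1410405) (Pf.B 9 5 (Pf.C 1 0xd0824585) (Pf.C 0 0x814509))) (Pf.C 0 0xa182400b))) (Pf.C 0 0x71828680)) (Pf.B 12 6 (Pf.C 0 0xd0c30380) (Pf.B 12 5 (Pf.C 0 0x70a30300) (Pf.C 0 0x61a1400c)))) (Pf.B 12 8 (Pf.B 12 5 (Pf.C 1 0xb1810405) (Pf.B 11 9 (Pf.B 9 5 (Pf.C 1 0xd0824585) (Pf.C 0 0x814609)) (Pf.C 0 0x82c609))) (Pf.C 0 0x82048c))) (Pf.B 12 9 (Pf.C 0 0xd1230500) (Pf.B 12 8 (Pf.C 0 0xa1030480) (Pf.C 0 0x82048c)))) (Pf.C 0 0x70a34006))) (Pf.C 1 0x41a14588)) (Pf.B 13 5 (Pf.C 1 0x81a10585) (Pf.B 12 8 (Pf.B 12 5 (Pf.C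 1 0xb1810405) (Pf.C 0 0x81468c)) (Pf.C 0 0x82068c)))) (Pf.B 13 8 (Pf.C 0 0xa1034480) (Pf.C 0 0x82048d)))))
 (Pq.cons (Pq.L [0,4] 4032 (Pf.B 13 8 (Pf.B 13 5 (Pf.B 12 8 (Pf.B 12 5 (Pf.C 0 0x81814580) (Pf.C 0 0xb1a1400c)) (Pf.C 0 0xb1a2000c)) (Pf.C 0 0xb1a20005)) (Pf.B 13 5 (Pf.C 0 0xb1a14400) (Pf.B 12 8 (Pf.B 12 5 (Pf.C 0 0x81814580) (Pf.C 0 0x81468c)) (Pf.C 0 0x82068c)))))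
 Pq.nil))))))))))))))))))))))))))))))
theorem h_o28 : AllRef h_T h_G12 (List.drop 26 (List.drop 66 (List.drop 176 (hitObl [28,29,30,31,32,33,34,35,36,37,38] h_h15)))) :=
  chkPq_sound h_o28c _ (by decide +kernel)
noncomputable def h_o29c : Pq := (Pq.cons (Pq.L [] 1023 (Pf.C 0 0x9101c305))
 (Pq.cons (Pq.L [] 1023 (Pf.C 1 0x9101c305))
 (Pq.cons (Pq.D 0 (Pq.cons (Pq.D 1 (Pq.cons (Pq.D 2 (Pq.cons (Pq.L [0,1] 7 (Pf.C 1 0x70a18080))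
 (Pq.cons (Pq.L [0,1,4] 2 (Pf.C 1 0x40e14080))
 (Pq.cons (Pq.L [0,1,3] 2 (Pf.C 1 0x30e14080))
 (Pq.cons (Pq.L [0,1,2] 2 (Pf.C 1 0x20e14080))
 (Pq.cons (Pq.L [0,1,2] 2 (Pf.C 1 0x10e14100))
 (Pq.cons (Pq.L [0,1,2] 2 (Pf.C 1 0xe14101))
 Pq.nil))))))) (Pq.cons (Pq.L [0,1,4] 1 (Pf.C 1 0x40c14080))
 (Pq.cons (Pq.L [0,1,3] 1 (Pf.C 1 0x30c14080))
 (Pq.cons (Pq.L [0,1,2] 1 (Pf.C 1 0x20c14080))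
 (Pq.cons (Pq.L [0,1,2] 1 (Pf.C 1 0x10c14100))
 (Pq.cons (Pq.L [0,1,2] 1 (Pf.C 1 0xc14101))
 Pq.nil))))))) (Pq.cons (Pq.D 1 (Pq.cons (Pq.L [0,1,4] 1 (Pf.C 1 0x60a10080))
 (Pq.cons (Pq.D 2 (Pq.cons (Pq.L [0,1,4] 2 (Pf.C 1 0x70a10080))
 (Pq.cons (Pq.L [0,1] 7 (Pf.C 1 0x70a18080))
 (Pq.cons (Pq.L [0,1,3] 2 (Pf.C 1 0x30e14080))
 (Pq.cons (Pq.L [0,1,2] 2 (Pf.C 1 0x20e14080))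
 (Pq.cons (Pq.L [0,1,2] 2 (Pf.C 1 0x10e14100))
 (Pq.cons (Pq.L [0,1,2] 2 (Pf.C 1 0xe14101))
 Pq.nil))))))) (Pq.cons (Pq.L [0,1,3] 1 (Pf.C 1 0x30c14080))
 (Pq.cons (Pq.L [0,1,2] 1 (Pf.C 1 0x20c14080))
 (Pq.cons (Pq.L [0,1,2] 1 (Pf.C 1 0x10c14100))
 (Pq.cons (Pq.L [0,1,2] 1 (Pf.C 1 0xc14101))
 Pq.nil))))))) (Pq.cons (Pq.D 1 (Pq.cons (Pq.L [0,1,3] 1 (Pf.C 1 0x60a0c080))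
 (Pq.cons (Pq.L [0,1,4] 1 (Pf.C 1 0x40c14080))
 (Pq.cons (Pq.D 2 (Pq.cons (Pq.L [0,1,3] 2 (Pf.C 1 0x70a0c080))
 (Pq.cons (Pq.L [0,1,4] 2 (Pf.C 1 0x40e14080))
 (Pq.cons (Pq.L [0,1] 7 (Pf.C 1 0x70a18080))
 (Pq.cons (Pq.L [0,1,2] 2 (Pf.C 1 0x20e14080))
 (Pq.cons (Pq.L [0,1,2] 2 (Pf.C 1 0x10e14100))
 (Pq.cons (Pq.L [0,1,2] 2 (Pf.C 1 0xe14101))
 Pq.nil))))))) (Pq.cons (Pq.L [0,1,2] 1 (Pf.C 1 0x20c14080))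
 (Pq.cons (Pq.L [0,1,2] 1 (Pf.C 1 0x10c14100))
 (Pq.cons (Pq.L [0,1,2] 1 (Pf.C 1 0xc14101))
 Pq.nil))))))) (Pq.cons (Pq.D 1 (Pq.cons (Pq.L [0,1,2] 1 (Pf.C 1 0x60a08080))
 (Pq.cons (Pq.L [0,1,4] 1 (Pf.C 1 0x40c14080))
 (Pq.cons (Pq.L [0,1,3] 1 (Pf.C 1 0x30c14080))
 (Pq.cons (Pq.D 2 (Pq.cons (Pq.L [0,1,2] 2 (Pf.C 1 0x70a08080))
 (Pq.cons (Pq.L [0,1,4] 2 (Pf.C 1 0x40e14080))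
 (Pq.cons (Pq.L [0,1,3] 2 (Pf.C 1 0x30e14080))
 (Pq.cons (Pq.L [0,1] 7 (Pf.C 1 0x70a18080))
 (Pq.cons (Pq.L [0,1,3] 2 (Pf.C 1 0x10e14180))
 (Pq.cons (Pq.L [0,1,3] 2 (Pf.C 1 0xe14181))
 Pq.nil))))))) (Pq.cons (Pq.L [0,1,3] 1 (Pf.C 1 0x10c14180))
 (Pq.cons (Pq.L [0,1,3] 1 (Pf.C 1 0xc14181))
 Pq.nil))))))) (Pq.cons (Pq.D 1 (Pq.cons (Pq.L [0,1,2] 1 (Pf.C 1 0x60a04100))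
 (Pq.cons (Pq.L [0,2,4] 1 (Pf.C 1 0x40c14100))
 (Pq.cons (Pq.L [0,2,3] 1 (Pf.C 1 0x30c14100))
 (Pq.cons (Pq.L [0,2,3] 1 (Pf.C 1 0x20c14180))
 (Pq.cons (Pq.D 2 (Pq.cons (Pq.L [0,1,2] 2 (Pf.C 1 0x70a04100))
 (Pq.cons (Pq.L [0,2,4] 2 (Pf.C 1 0x40e14100))
 (Pq.cons (Pq.L [0,2,3] 2 (Pf.C 1 0x30e14100))
 (Pq.cons (Pq.L [0,2,3] 2 (Pf.C 1 0x20e14180))
 (Pq.cons (Pq.L [0,2] 7 (Pf.C 1 0x70a18100))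
 (Pq.cons (Pq.L [0,2,3] 2 (Pf.C 1 0xe14182))
 Pq.nil))))))) (Pq.cons (Pq.L [0,2,3] 1 (Pf.C 1 0xc14182))
 Pq.nil))))))) (Pq.cons (Pq.D 1 (Pq.cons (Pq.L [0,1,2] 1 (Pf.C 1 0x60a00101))
 (Pq.cons (Pq.L [1,2,4] 1 (Pf.C 1 0x40c14101))
 (Pq.cons (Pq.L [1,2,3] 1 (Pf.C 1 0x30c14101))
 (Pq.cons (Pq.L [1,2,3] 1 (Pf.C 1 0x20c14181))
 (Pq.cons (Pq.L [1,2,3] 1 (Pf.C 1 0x10c14182))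
 (Pq.cons (Pq.D 2 (Pq.cons (Pq.L [0,1,2] 2 (Pf.C 1 0x70a00101))
 (Pq.cons (Pq.L [1,2,4] 2 (Pf.C 1 0x40e14101))
 (Pq.cons (Pq.L [1,2,3] 2 (Pf.C 1 0x30e14101))
 (Pq.cons (Pq.L [1,2,3] 2 (Pf.C 1 0x20e14181))
 (Pq.cons (Pq.L [1,2,3] 2 (Pf.C 1 0x10e14182))
 (Pq.cons (Pq.L [1,2] 7 (Pf.C 1 0x70a18101))
 Pq.nil))))))) Pq.nil))))))) Pq.nil))))))) (Pq.cons (Pq.D 0 (Pq.cons (Pq.D 1 (Pq.cons (Pq.D 2 (Pq.cons (Pq.L [0,1,2] 2 (Pf.C 1 0x20e04005))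
 (Pq.cons (Pq.L [0,1,2] 2 (Pf.C 1 0x20e00085))
 (Pq.cons (Pq.L [0,1,2] 2 (Pf.C 1 0x10e00105))
 (Pq.cons (Pq.L [0,1,3] 2 (Pf.C 1 0x10e00185))
 (Pq.cons (Pq.L [0,1,4] 2 (Pf.C 1 0x10e00205))
 (Pq.cons (Pq.L [0,1] 7 (Pf.C 1 0x10e00305))
 Pq.nil))))))) (Pq.cons (Pq.D 2 (Pq.cons (Pq.L [0,1,2] 2 (Pf.C 1 0x20e04005))
 (Pq.cons (Pq.L [0,1,2] 2 (Pf.C 1 0x20e00085))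
 (Pq.cons (Pq.L [0,1,2] 2 (Pf.C 1 0x10e00105))
 (Pq.cons (Pq.L [0,1,3] 2 (Pf.C 1 0x10e00185))
 (Pq.cons (Pq.L [0,1,4] 2 (Pf.C 1 0x10e00205))
 (Pq.cons (Pq.L [0,1] 7 (Pf.C 1 0x10e00305))
 Pq.nil))))))) (Pq.cons (Pq.D 2 (Pq.cons (Pq.L [0,1,2] 2 (Pf.C 1 0x20e04005))
 (Pq.cons (Pq.L [0,1,2] 2 (Pf.C 1 0x20e00085))
 (Pq.cons (Pq.L [0,1,2] 2 (Pf.C 1 0x10e00105))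
 (Pq.cons (Pq.L [0,1,3] 2 (Pf.C 1 0x10e00185))
 (Pq.cons (Pq.L [0,1,4] 2 (Pf.C 1 0x10e00205))
 (Pq.cons (Pq.L [0,1] 7 (Pf.C 1 0x10e00305))
 Pq.nil))))))) (Pq.cons (Pq.D 2 (Pq.cons (Pq.L [0,1,2] 2 (Pf.C 1 0x20e04005))
 (Pq.cons (Pq.L [0,1,2] 2 (Pf.C 1 0x20e00085))
 (Pq.cons (Pq.L [0,1,2] 2 (Pf.C 1 0x10e00105))
 (Pq.cons (Pq.L [0,1,3] 2 (Pf.C 1 0x10e00185))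
 (Pq.cons (Pq.L [0,1,4] 2 (Pf.C 1 0x10e00205))
 (Pq.cons (Pq.L [0,1] 7 (Pf.C 1 0x10e00305))
 Pq.nil))))))) (Pq.cons (Pq.D 2 (Pq.cons (Pq.L [0,1,2] 2 (Pf.C 1 0x20e04005))
 (Pq.cons (Pq.L [0,1,2] 2 (Pf.C 1 0x20e00085))
 (Pq.cons (Pq.L [0,1,2] 2 (Pf.C 1 0x10e00105))
 (Pq.cons (Pq.L [0,1,3] 2 (Pf.C 1 0x10e00185))
 (Pq.cons (Pq.L [0,1,4] 2 (Pf.C 1 0x10e00205))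
 (Pq.cons (Pq.L [0,2] 7 (Pf.C 1 0x20e00305))
 Pq.nil))))))) (Pq.cons (Pq.D 2 (Pq.cons (Pq.L [0,1,2] 2 (Pf.C 1 0x20e04005))
 (Pq.cons (Pq.L [0,1,2] 2 (Pf.C 1 0x20e00085))
 (Pq.cons (Pq.L [0,1,2] 2 (Pf.C 1 0x10e00105))
 (Pq.cons (Pq.L [0,1,3] 2 (Pf.C 1 0x10e00185))
 (Pq.cons (Pq.L [0,1,4] 2 (Pf.C 1 0x10e00205))
 (Pq.cons (Pq.L [1,2] 7 (Pf.C 1 0x20e04305))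
 Pq.nil))))))) Pq.nil))))))) (Pq.cons (Pq.D 1 (Pq.cons (Pq.D 2 (Pq.cons (Pq.L [0,1,2] 2 (Pf.C 1 0x20e04005))
 (Pq.cons (Pq.L [0,1,2] 2 (Pf.C 1 0x20e00085))
 (Pq.cons (Pq.L [0,1,2] 2 (Pf.C 1 0x10e00105))
 (Pq.cons (Pq.L [0,1,3] 2 (Pf.C 1 0x10e00185))
 (Pq.cons (Pq.L [0,1] 7 (Pf.C 1 0x10e00305))
 (Pq.cons (Pq.L [0,1] 7 (Pf.C 1 0x10e00305))
 Pq.nil))))))) (Pq.cons (Pq.L [0,1,4] 1 (Pf.C 1 0x60814080))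
 (Pq.cons (Pq.D 2 (Pq.cons (Pq.L [0,1,2] 2 (Pf.C 1 0x20e04005))
 (Pq.cons (Pq.L [0,1,2] 2 (Pf.C 1 0x20e00085))
 (Pq.cons (Pq.L [0,1,2] 2 (Pf.C 1 0x10e00105))
 (Pq.cons (Pq.L [0,1,3] 2 (Pf.C 1 0x10e00185))
 (Pq.cons (Pq.L [0,1] 7 (Pf.C 1 0x10e00305))
 (Pq.cons (Pq.L [0,1] 7 (Pf.C 1 0x10e00305))
 Pq.nil))))))) (Pq.cons (Pq.D 2 (Pq.cons (Pq.L [0,1,2] 2 (Pf.C 1 0x20e04005))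
 (Pq.cons (Pq.L [0,1,2] 2 (Pf.C 1 0x20e00085))
 (Pq.cons (Pq.L [0,1,2] 2 (Pf.C 1 0x10e00105))
 (Pq.cons (Pq.L [0,1,3] 2 (Pf.C 1 0x10e00185))
 (Pq.cons (Pq.L [0,1] 7 (Pf.C 1 0x10e00305))
 (Pq.cons (Pq.L [0,1] 7 (Pf.C 1 0x10e00305))
 Pq.nil))))))) (Pq.cons (Pq.D 2 (Pq.cons (Pq.L [0,1,2] 2 (Pf.C 1 0x20e04005))
 (Pq.cons (Pq.L [0,1,2] 2 (Pf.C 1 0x20e00085))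
 (Pq.cons (Pq.L [0,1,2] 2 (Pf.C 1 0x10e00105))
 (Pq.cons (Pq.L [0,1,3] 2 (Pf.C 1 0x10e00185))
 (Pq.cons (Pq.L [0,2] 7 (Pf.C 1 0x20e00305))
 (Pq.cons (Pq.L [0,2] 7 (Pf.C 1 0x20e00305))
 Pq.nil))))))) (Pq.cons (Pq.D 2 (Pq.cons (Pq.L [0,1,2] 2 (Pf.C 1 0x20e04005))
 (Pq.cons (Pq.L [0,1,2] 2 (Pf.C 1 0x20e00085))
 (Pq.cons (Pq.L [0,1,2] 2 (Pf.C 1 0x10e00105))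
 (Pq.cons (Pq.L [0,1,3] 2 (Pf.C 1 0x10e00185))
 (Pq.cons (Pq.L [1,2] 7 (Pf.C 1 0x20e04305))
 (Pq.cons (Pq.L [1,2] 7 (Pf.C 1 0x20e04305))
 Pq.nil))))))) Pq.nil))))))) (Pq.cons (Pq.D 1 (Pq.cons (Pq.D 2 (Pq.cons (Pq.L [0,1,2] 2 (Pf.C 1 0x20e04005))
 (Pq.cons (Pq.L [0,1,2] 2 (Pf.C 1 0x20e00085))
 (Pq.cons (Pq.L [0,1,2] 2 (Pf.C 1 0x10e00105))
 (Pq.cons (Pq.L [0,1] 7 (Pf.C 1 0x10e00305))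
 (Pq.cons (Pq.L [0,1,4] 2 (Pf.C 1 0x10e00205))
 (Pq.cons (Pq.L [0,1] 7 (Pf.C 1 0x10e00305))
 Pq.nil))))))) (Pq.cons (Pq.D 2 (Pq.cons (Pq.L [0,1,2] 2 (Pf.C 1 0x20e04005))
 (Pq.cons (Pq.L [0,1,2] 2 (Pf.C 1 0x20e00085))
 (Pq.cons (Pq.L [0,1,2] 2 (Pf.C 1 0x10e00105))
 (Pq.cons (Pq.L [0,1] 7 (Pf.C 1 0x10e00305))
 (Pq.cons (Pq.L [0,1,4] 2 (Pf.C 1 0x10e00205))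
 (Pq.cons (Pq.L [0,1] 7 (Pf.C 1 0x10e00305))
 Pq.nil))))))) (Pq.cons (Pq.L [0,1,3] 1 (Pf.C 1 0x60614080))
 (Pq.cons (Pq.D 2 (Pq.cons (Pq.L [0,1,2] 2 (Pf.C 1 0x20e04005))
 (Pq.cons (Pq.L [0,1,2] 2 (Pf.C 1 0x20e00085))
 (Pq.cons (Pq.L [0,1,2] 2 (Pf.C 1 0x10e00105))
 (Pq.cons (Pq.L [0,1] 7 (Pf.C 1 0x10e00305))
 (Pq.cons (Pq.L [0,1,4] 2 (Pf.C 1 0x10e00205))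
 (Pq.cons (Pq.L [0,1] 7 (Pf.C 1 0x10e00305))
 Pq.nil))))))) (Pq.cons (Pq.D 2 (Pq.cons (Pq.L [0,1,2] 2 (Pf.C 1 0x20e04005))
 (Pq.cons (Pq.L [0,1,2] 2 (Pf.C 1 0x20e00085))
 (Pq.cons (Pq.L [0,1,2] 2 (Pf.C 1 0x10e00105))
 (Pq.cons (Pq.L [0,2] 7 (Pf.C 1 0x20e00305))
 (Pq.cons (Pq.L [0,1,4] 2 (Pf.C 1 0x10e00205))
 (Pq.cons (Pq.L [0,2] 7 (Pf.C 1 0x20e00305))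
 Pq.nil))))))) (Pq.cons (Pq.D 2 (Pq.cons (Pq.L [0,1,2] 2 (Pf.C 1 0x20e04005))
 (Pq.cons (Pq.L [0,1,2] 2 (Pf.C 1 0x20e00085))
 (Pq.cons (Pq.L [0,1,2] 2 (Pf.C 1 0x10e00105))
 (Pq.cons (Pq.L [1,2] 7 (Pf.C 1 0x20e04305))
 (Pq.cons (Pq.L [0,1,4] 2 (Pf.C 1 0x10e00205))
 (Pq.cons (Pq.L [1,2] 7 (Pf.C 1 0x20e04305))
 Pq.nil))))))) Pq.nil))))))) (Pq.cons (Pq.D 1 (Pq.cons (Pq.D 2 (Pq.cons (Pq.L [0,1,3] 2 (Pf.C 1 0x30e04005))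
 (Pq.cons (Pq.L [0,1,3] 2 (Pf.C 1 0x30e00085))
 (Pq.cons (Pq.L [0,1] 7 (Pf.C 1 0x10e00305))
 (Pq.cons (Pq.L [0,1,3] 2 (Pf.C 1 0x10e00185))
 (Pq.cons (Pq.L [0,1,4] 2 (Pf.C 1 0x10e00205))
 (Pq.cons (Pq.L [0,1] 7 (Pf.C 1 0x10e00305))
 Pq.nil))))))) (Pq.cons (Pq.D 2 (Pq.cons (Pq.L [0,1,3] 2 (Pf.C 1 0x30e04005))
 (Pq.cons (Pq.L [0,1,3] 2 (Pf.C 1 0x30e00085))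
 (Pq.cons (Pq.L [0,1] 7 (Pf.C 1 0x10e00305))
 (Pq.cons (Pq.L [0,1,3] 2 (Pf.C 1 0x10e00185))
 (Pq.cons (Pq.L [0,1,4] 2 (Pf.C 1 0x10e00205))
 (Pq.cons (Pq.L [0,1] 7 (Pf.C 1 0x10e00305))
 Pq.nil))))))) (Pq.cons (Pq.D 2 (Pq.cons (Pq.L [0,1,3] 2 (Pf.C 1 0x30e04005))
 (Pq.cons (Pq.L [0,1,3] 2 (Pf.C 1 0x30e00085))
 (Pq.cons (Pq.L [0,1] 7 (Pf.C 1 0x10e00305))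
 (Pq.cons (Pq.L [0,1,3] 2 (Pf.C 1 0x10e00185))
 (Pq.cons (Pq.L [0,1,4] 2 (Pf.C 1 0x10e00205))
 (Pq.cons (Pq.L [0,1] 7 (Pf.C 1 0x10e00305))
 Pq.nil))))))) (Pq.cons (Pq.L [0,1,2] 1 (Pf.C 1 0x60414080))
 (Pq.cons (Pq.D 2 (Pq.cons (Pq.L [0,1,3] 2 (Pf.C 1 0x30e04005))
 (Pq.cons (Pq.L [0,1,3] 2 (Pf.C 1 0x30e00085))
 (Pq.cons (Pq.L [0,3] 7 (Pf.C 1 0x30e00305))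
 (Pq.cons (Pq.L [0,1,3] 2 (Pf.C 1 0x10e00185))
 (Pq.cons (Pq.L [0,1,4] 2 (Pf.C 1 0x10e00205))
 (Pq.cons (Pq.L [0,3] 7 (Pf.C 1 0x30e00305))
 Pq.nil))))))) (Pq.cons (Pq.D 2 (Pq.cons (Pq.L [0,1,3] 2 (Pf.C 1 0x30e04005))
 (Pq.cons (Pq.L [0,1,3] 2 (Pf.C 1 0x30e00085))
 (Pq.cons (Pq.L [1,3] 7 (Pf.C 1 0x30e04305))
 (Pq.cons (Pq.L [0,1,3] 2 (Pf.C 1 0x10e00185))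
 (Pq.cons (Pq.L [0,1,4] 2 (Pf.C 1 0x10e00205))
 (Pq.cons (Pq.L [1,3] 7 (Pf.C 1 0x30e04305))
 Pq.nil))))))) Pq.nil))))))) (Pq.cons (Pq.D 1 (Pq.cons (Pq.D 2 (Pq.cons (Pq.L [0,2,3] 2 (Pf.C 1 0x30e08005))
 (Pq.cons (Pq.L [0,2] 7 (Pf.C 1 0x20e00305))
 (Pq.cons (Pq.L [0,2,3] 2 (Pf.C 1 0x30e00105))
 (Pq.cons (Pq.L [0,2,3] 2 (Pf.C 1 0x20e00185))
 (Pq.cons (Pq.L [0,2,4] 2 (Pf.C 1 0x20e00205))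
 (Pq.cons (Pq.L [0,2] 7 (Pf.C 1 0x20e00305))
 Pq.nil))))))) (Pq.cons (Pq.D 2 (Pq.cons (Pq.L [0,2,3] 2 (Pf.C 1 0x30e08005))
 (Pq.cons (Pq.L [0,2] 7 (Pf.C 1 0x20e00305))
 (Pq.cons (Pq.L [0,2,3] 2 (Pf.C 1 0x30e00105))
 (Pq.cons (Pq.L [0,2,3] 2 (Pf.C 1 0x20e00185))
 (Pq.cons (Pq.L [0,2,4] 2 (Pf.C 1 0x20e00205))
 (Pq.cons (Pq.L [0,2] 7 (Pf.C 1 0x20e00305))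
 Pq.nil))))))) (Pq.cons (Pq.D 2 (Pq.cons (Pq.L [0,2,3] 2 (Pf.C 1 0x30e08005))
 (Pq.cons (Pq.L [0,2] 7 (Pf.C 1 0x20e00305))
 (Pq.cons (Pq.L [0,2,3] 2 (Pf.C 1 0x30e00105))
 (Pq.cons (Pq.L [0,2,3] 2 (Pf.C 1 0x20e00185))
 (Pq.cons (Pq.L [0,2,4] 2 (Pf.C 1 0x20e00205))
 (Pq.cons (Pq.L [0,2] 7 (Pf.C 1 0x20e00305))
 Pq.nil))))))) (Pq.cons (Pq.D 2 (Pq.cons (Pq.L [0,2,3] 2 (Pf.C 1 0x30e08005))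
 (Pq.cons (Pq.L [0,3] 7 (Pf.C 1 0x30e00305))
 (Pq.cons (Pq.L [0,2,3] 2 (Pf.C 1 0x30e00105))
 (Pq.cons (Pq.L [0,2,3] 2 (Pf.C 1 0x20e00185))
 (Pq.cons (Pq.L [0,2,4] 2 (Pf.C 1 0x20e00205))
 (Pq.cons (Pq.L [0,3] 7 (Pf.C 1 0x30e00305))
 Pq.nil))))))) (Pq.cons (Pq.L [0,1,2] 1 (Pf.C 1 0x60214100))
 (Pq.cons (Pq.D 2 (Pq.cons (Pq.L [0,2,3] 2 (Pf.C 1 0x30e08005))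
 (Pq.cons (Pq.L [2,3] 7 (Pf.C 1 0x30e08305))
 (Pq.cons (Pq.L [0,2,3] 2 (Pf.C 1 0x30e00105))
 (Pq.cons (Pq.L [0,2,3] 2 (Pf.C 1 0x20e00185))
 (Pq.cons (Pq.L [0,2,4] 2 (Pf.C 1 0x20e00205))
 (Pq.cons (Pq.L [2,3] 7 (Pf.C 1 0x30e08305))
 Pq.nil))))))) Pq.nil))))))) (Pq.cons (Pq.D 1 (Pq.cons (Pq.D 2 (Pq.cons (Pq.L [1,2] 7 (Pf.C 1 0x20e04305))
 (Pq.cons (Pq.L [1,2,3] 2 (Pf.C 1 0x30e08085))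
 (Pq.cons (Pq.L [1,2,3] 2 (Pf.C 1 0x30e04105))
 (Pq.cons (Pq.L [1,2,3] 2 (Pf.C 1 0x20e04185))
 (Pq.cons (Pq.L [1,2,4] 2 (Pf.C 1 0x20e04205))
 (Pq.cons (Pq.L [1,2] 7 (Pf.C 1 0x20e04305))
 Pq.nil))))))) (Pq.cons (Pq.D 2 (Pq.cons (Pq.L [1,2] 7 (Pf.C 1 0x20e04305))
 (Pq.cons (Pq.L [1,2,3] 2 (Pf.C 1 0x30e08085))
 (Pq.cons (Pq.L [1,2,3] 2 (Pf.C 1 0x30e04105))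
 (Pq.cons (Pq.L [1,2,3] 2 (Pf.C 1 0x20e04185))
 (Pq.cons (Pq.L [1,2,4] 2 (Pf.C 1 0x20e04205))
 (Pq.cons (Pq.L [1,2] 7 (Pf.C 1 0x20e04305))
 Pq.nil))))))) (Pq.cons (Pq.D 2 (Pq.cons (Pq.L [1,2] 7 (Pf.C 1 0x20e04305))
 (Pq.cons (Pq.L [1,2,3] 2 (Pf.C 1 0x30e08085))
 (Pq.cons (Pq.L [1,2,3] 2 (Pf.C 1 0x30e04105))
 (Pq.cons (Pq.L [1,2,3] 2 (Pf.C 1 0x20e04185))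
 (Pq.cons (Pq.L [1,2,4] 2 (Pf.C 1 0x20e04205))
 (Pq.cons (Pq.L [1,2] 7 (Pf.C 1 0x20e04305))
 Pq.nil))))))) (Pq.cons (Pq.D 2 (Pq.cons (Pq.L [1,3] 7 (Pf.C 1 0x30e04305))
 (Pq.cons (Pq.L [1,2,3] 2 (Pf.C 1 0x30e08085))
 (Pq.cons (Pq.L [1,2,3] 2 (Pf.C 1 0x30e04105))
 (Pq.cons (Pq.L [1,2,3] 2 (Pf.C 1 0x20e04185))
 (Pq.cons (Pq.L [1,2,4] 2 (Pf.C 1 0x20e04205))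
 (Pq.cons (Pq.L [1,3] 7 (Pf.C 1 0x30e04305))
 Pq.nil))))))) (Pq.cons (Pq.D 2 (Pq.cons (Pq.L [2,3] 7 (Pf.C 1 0x30e08305))
 (Pq.cons (Pq.L [1,2,3] 2 (Pf.C 1 0x30e08085))
 (Pq.cons (Pq.L [1,2,3] 2 (Pf.C 1 0x30e04105))
 (Pq.cons (Pq.L [1,2,3] 2 (Pf.C 1 0x20e04185))
 (Pq.cons (Pq.L [1,2,4] 2 (Pf.C 1 0x20e04205))
 (Pq.cons (Pq.L [2,3] 7 (Pf.C 1 0x30e08305))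
 Pq.nil))))))) (Pq.cons (Pq.L [0,1,2] 1 (Pf.C 1 0x60014101))
 Pq.nil))))))) Pq.nil))))))) (Pq.cons (Pq.D 0 (Pq.cons (Pq.D 1 (Pq.cons (Pq.D 2 (Pq.cons (Pq.D 3 (Pq.cons (Pq.L [1] 63 (Pf.C 0 0x60214407))
 (Pq.cons (Pq.L [2] 63 (Pf.C 0 0x60414407))
 (Pq.cons (Pq.L [1] 63 (Pf.C 0 0x60214407))
 (Pq.cons (Pq.L [1] 63 (Pf.C 0 0x60214407))
 (Pq.cons (Pq.L [1] 63 (Pf.C 0 0x60214407))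
 (Pq.cons (Pq.L [1] 63 (Pf.C 0 0x60214407))
 Pq.nil))))))) (Pq.cons (Pq.D 3 (Pq.cons (Pq.L [2] 63 (Pf.C 0 0x60414407))
 (Pq.cons (Pq.L [0] 63 (Pf.C 0 0x60014407))
 (Pq.cons (Pq.L [0] 63 (Pf.C 0 0x60014407))
 (Pq.cons (Pq.L [0] 63 (Pf.C 0 0x60014407))
 (Pq.cons (Pq.L [0] 63 (Pf.C 0 0x60014407))
 (Pq.cons (Pq.L [0] 63 (Pf.C 0 0x60014407))
 Pq.nil))))))) (Pq.cons (Pq.D 3 (Pq.cons (Pq.L [1] 63 (Pf.C 0 0x60214407))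
 (Pq.cons (Pq.L [0] 63 (Pf.C 0 0x60014407))
 (Pq.cons (Pq.L [0] 63 (Pf.C 0 0x60014407))
 (Pq.cons (Pq.L [0] 63 (Pf.C 0 0x60014407))
 (Pq.cons (Pq.L [0] 63 (Pf.C 0 0x60014407))
 (Pq.cons (Pq.L [0] 63 (Pf.C 0 0x60014407))
 Pq.nil))))))) (Pq.cons (Pq.D 3 (Pq.cons (Pq.L [1] 63 (Pf.C 0 0x60214407))
 (Pq.cons (Pq.L [0] 63 (Pf.C 0 0x60014407))
 (Pq.cons (Pq.L [0] 63 (Pf.C 0 0x60014407))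
 (Pq.cons (Pq.L [0] 63 (Pf.C 0 0x60014407))
 (Pq.cons (Pq.L [0] 63 (Pf.C 0 0x60014407))
 (Pq.cons (Pq.L [0] 63 (Pf.C 0 0x60014407))
 Pq.nil))))))) (Pq.cons (Pq.D 3 (Pq.cons (Pq.L [1] 63 (Pf.C 0 0x60214407))
 (Pq.cons (Pq.L [0] 63 (Pf.C 0 0x60014407))
 (Pq.cons (Pq.L [0] 63 (Pf.C 0 0x60014407))
 (Pq.cons (Pq.L [0] 63 (Pf.C 0 0x60014407))
 (Pq.cons (Pq.L [0] 63 (Pf.C 0 0x60014407))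
 (Pq.cons (Pq.L [0] 63 (Pf.C 0 0x60014407))
 Pq.nil))))))) (Pq.cons (Pq.D 3 (Pq.cons (Pq.L [1] 63 (Pf.C 0 0x60214407))
 (Pq.cons (Pq.L [0] 63 (Pf.C 0 0x60014407))
 (Pq.cons (Pq.L [0] 63 (Pf.C 0 0x60014407))
 (Pq.cons (Pq.L [0] 63 (Pf.C 0 0x60014407))
 (Pq.cons (Pq.L [0] 63 (Pf.C 0 0x60014407))
 (Pq.cons (Pq.L [0] 63 (Pf.C 0 0x60014407))
 Pq.nil))))))) Pq.nil))))))) (Pq.cons (Pq.L [0,1,4] 1 (Pf.C 1 0x40c14080))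
 (Pq.cons (Pq.L [0,1,3] 1 (Pf.C 1 0x30c14080))
 (Pq.cons (Pq.L [0,1,2] 1 (Pf.C 1 0x20c14080))
 (Pq.cons (Pq.L [0,1,2] 1 (Pf.C 1 0x10c14100))
 (Pq.cons (Pq.L [0,1,2] 1 (Pf.C 1 0xc14101))
 Pq.nil))))))) (Pq.cons (Pq.D 1 (Pq.cons (Pq.L [0,1,4] 1 (Pf.C 1 0x60a10080))
 (Pq.cons (Pq.D 2 (Pq.cons (Pq.D 3 (Pq.cons (Pq.L [1,4] 38 (Pf.C 0 0x40214407))
 (Pq.cons (Pq.L [] 0 (Pf.C 60 0x20385))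
 (Pq.cons (Pq.L [] 0 (Pf.C 61 0x20385))
 (Pq.cons (Pq.L [] 0 (Pf.C 62 0x20385))
 (Pq.cons (Pq.L [] 38 (Pf.C 63 0x20385))
 (Pq.cons (Pq.L [1,4] 38 (Pf.C 0 0x40214407))
 Pq.nil))))))) (Pq.cons (Pq.D 3 (Pq.cons (Pq.L [] 0 (Pf.C 60 0x1c405))
 (Pq.cons (Pq.L [0,4] 38 (Pf.C 0 0x40014407))
 (Pq.cons (Pq.L [] 0 (Pf.C 64 0x20385))
 (Pq.cons (Pq.L [] 0 (Pf.C 65 0x20385))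
 (Pq.cons (Pq.L [] 38 (Pf.C 66 0x20385))
 (Pq.cons (Pq.L [0,4] 38 (Pf.C 0 0x40014407))
 Pq.nil))))))) (Pq.cons (Pq.D 3 (Pq.cons (Pq.L [] 0 (Pf.C 61 0x1c405))
 (Pq.cons (Pq.L [] 0 (Pf.C 64 0x1c405))
 (Pq.cons (Pq.L [0,4] 38 (Pf.C 0 0x40014407))
 (Pq.cons (Pq.L [] 0 (Pf.C 67 0x20385))
 (Pq.cons (Pq.L [] 38 (Pf.C 68 0x20385))
 (Pq.cons (Pq.L [0,4] 38 (Pf.C 0 0x40014407))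
 Pq.nil))))))) (Pq.cons (Pq.D 3 (Pq.cons (Pq.L [] 0 (Pf.C 62 0x1c405))
 (Pq.cons (Pq.L [] 0 (Pf.C 65 0x1c405))
 (Pq.cons (Pq.L [] 0 (Pf.C 67 0x1c405))
 (Pq.cons (Pq.L [0,4] 38 (Pf.C 0 0x40014407))
 (Pq.cons (Pq.L [] 38 (Pf.C 69 0x20385))
 (Pq.cons (Pq.L [0,4] 38 (Pf.C 0 0x40014407))
 Pq.nil))))))) (Pq.cons (Pq.D 3 (Pq.cons (Pq.L [] 38 (Pf.C 63 0x1c405))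
 (Pq.cons (Pq.L [] 38 (Pf.C 66 0x1c405))
 (Pq.cons (Pq.L [] 38 (Pf.C 68 0x1c405))
 (Pq.cons (Pq.L [] 38 (Pf.C 69 0x1c405))
 (Pq.cons (Pq.L [] 38 (Pf.C 70 0x20385))
 (Pq.cons (Pq.L [] 38 (Pf.C 71 0x20385))
 Pq.nil))))))) (Pq.cons (Pq.D 3 (Pq.cons (Pq.L [1,4] 38 (Pf.C 0 0x40214407))
 (Pq.cons (Pq.L [0,4] 38 (Pf.C 0 0x40014407))
 (Pq.cons (Pq.L [0,4] 38 (Pf.C 0 0x40014407))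
 (Pq.cons (Pq.L [0,4] 38 (Pf.C 0 0x40014407))
 (Pq.cons (Pq.L [] 38 (Pf.C 71 0x1c405))
 (Pq.cons (Pq.L [0,4] 38 (Pf.C 0 0x40014407))
 Pq.nil))))))) Pq.nil))))))) (Pq.cons (Pq.L [0,1,3] 1 (Pf.C 1 0x30c14080))
 (Pq.cons (Pq.L [0,1,2] 1 (Pf.C 1 0x20c14080))
 (Pq.cons (Pq.L [0,1,2] 1 (Pf.C 1 0x10c14100))
 (Pq.cons (Pq.L [0,1,2] 1 (Pf.C 1 0xc14101))
 Pq.nil))))))) (Pq.cons (Pq.D 1 (Pq.cons (Pq.L [0,1,3] 1 (Pf.C 1 0x60a0c080))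
 (Pq.cons (Pq.L [0,1,4] 1 (Pf.C 1 0x40c14080))
 (Pq.cons (Pq.D 2 (Pq.cons (Pq.D 3 (Pq.cons (Pq.L [1,3] 38 (Pf.C 0 0x30214407))
 (Pq.cons (Pq.L [] 0 (Pf.C 72 0x20385))
 (Pq.cons (Pq.L [] 0 (Pf.C 73 0x20385))
 (Pq.cons (Pq.L [] 38 (Pf.C 74 0x20385))
 (Pq.cons (Pq.L [] 0 (Pf.C 75 0x20385))
 (Pq.cons (Pq.L [1,3] 38 (Pf.C 0 0x30214407))
 Pq.nil))))))) (Pq.cons (Pq.D 3 (Pq.cons (Pq.L [] 0 (Pf.C 72 0x1c405))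
 (Pq.cons (Pq.L [0,3] 38 (Pf.C 0 0x30014407))
 (Pq.cons (Pq.L [] 0 (Pf.C 76 0x20385))
 (Pq.cons (Pq.L [] 38 (Pf.C 77 0x20385))
 (Pq.cons (Pq.L [] 0 (Pf.C 78 0x20385))
 (Pq.cons (Pq.L [0,3] 38 (Pf.C 0 0x30014407))
 Pq.nil))))))) (Pq.cons (Pq.D 3 (Pq.cons (Pq.L [] 0 (Pf.C 73 0x1c405))
 (Pq.cons (Pq.L [] 0 (Pf.C 76 0x1c405))
 (Pq.cons (Pq.L [0,3] 38 (Pf.C 0 0x30014407))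
 (Pq.cons (Pq.L [] 38 (Pf.C 79 0x20385))
 (Pq.cons (Pq.L [] 0 (Pf.C 80 0x20385))
 (Pq.cons (Pq.L [0,3] 38 (Pf.C 0 0x30014407))
 Pq.nil))))))) (Pq.cons (Pq.D 3 (Pq.cons (Pq.L [] 38 (Pf.C 74 0x1c405))
 (Pq.cons (Pq.L [] 38 (Pf.C 77 0x1c405))
 (Pq.cons (Pq.L [] 38 (Pf.C 79 0x1c405))
 (Pq.cons (Pq.L [] 38 (Pf.C 81 0x20385))
 (Pq.cons (Pq.L [] 38 (Pf.C 82 0x20385))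
 (Pq.cons (Pq.L [] 38 (Pf.C 83 0x20385))
 Pq.nil))))))) (Pq.cons (Pq.D 3 (Pq.cons (Pq.L [] 0 (Pf.C 75 0x1c405))
 (Pq.cons (Pq.L [] 0 (Pf.C 78 0x1c405))
 (Pq.cons (Pq.L [] 0 (Pf.C 80 0x1c405))
 (Pq.cons (Pq.L [] 38 (Pf.C 82 0x1c405))
 (Pq.cons (Pq.L [0,3] 38 (Pf.C 0 0x30014407))
 (Pq.cons (Pq.L [0,3] 38 (Pf.C 0 0x30014407))
 Pq.nil))))))) (Pq.cons (Pq.D 3 (Pq.cons (Pq.L [1,3] 38 (Pf.C 0 0x30214407))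
 (Pq.cons (Pq.L [0,3] 38 (Pf.C 0 0x30014407))
 (Pq.cons (Pq.L [0,3] 38 (Pf.C 0 0x30014407))
 (Pq.cons (Pq.L [] 38 (Pf.C 83 0x1c405))
 (Pq.cons (Pq.L [0,3] 38 (Pf.C 0 0x30014407))
 (Pq.cons (Pq.L [0,3] 38 (Pf.C 0 0x30014407))
 Pq.nil))))))) Pq.nil))))))) (Pq.cons (Pq.L [0,1,2] 1 (Pf.C 1 0x20c14080))
 (Pq.cons (Pq.L [0,1,2] 1 (Pf.C 1 0x10c14100))
 (Pq.cons (Pq.L [0,1,2] 1 (Pf.C 1 0xc14101))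
 Pq.nil))))))) (Pq.cons (Pq.D 1 (Pq.cons (Pq.L [0,1,2] 1 (Pf.C 1 0x60a08080))
 (Pq.cons (Pq.L [0,1,4] 1 (Pf.C 1 0x40c14080))
 (Pq.cons (Pq.L [0,1,3] 1 (Pf.C 1 0x30c14080))
 (Pq.cons (Pq.D 2 (Pq.cons (Pq.D 3 (Pq.cons (Pq.L [1,2] 38 (Pf.C 0 0x20214407))
 (Pq.cons (Pq.L [] 0 (Pf.C 84 0x20385))
 (Pq.cons (Pq.L [] 38 (Pf.C 85 0x20385))
 (Pq.cons (Pq.L [] 0 (Pf.C 86 0x20385))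
 (Pq.cons (Pq.L [] 0 (Pf.C 87 0x20385))
 (Pq.cons (Pq.L [1,2] 38 (Pf.C 0 0x20214407))
 Pq.nil))))))) (Pq.cons (Pq.D 3 (Pq.cons (Pq.L [] 0 (Pf.C 84 0x1c405))
 (Pq.cons (Pq.L [0,2] 38 (Pf.C 0 0x20014407))
 (Pq.cons (Pq.L [] 38 (Pf.C 88 0x20385))
 (Pq.cons (Pq.L [] 0 (Pf.C 89 0x20385))
 (Pq.cons (Pq.L [] 0 (Pf.C 90 0x20385))
 (Pq.cons (Pq.L [0,2] 38 (Pf.C 0 0x20014407))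
 Pq.nil))))))) (Pq.cons (Pq.D 3 (Pq.cons (Pq.L [] 38 (Pf.C 85 0x1c405))
 (Pq.cons (Pq.L [] 38 (Pf.C 88 0x1c405))
 (Pq.cons (Pq.L [] 38 (Pf.C 91 0x20385))
 (Pq.cons (Pq.L [] 38 (Pf.C 92 0x20385))
 (Pq.cons (Pq.L [] 38 (Pf.C 93 0x20385))
 (Pq.cons (Pq.L [] 38 (Pf.C 94 0x20385))
 Pq.nil))))))) (Pq.cons (Pq.D 3 (Pq.cons (Pq.L [] 0 (Pf.C 86 0x1c405))
 (Pq.cons (Pq.L [] 0 (Pf.C 89 0x1c405))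
 (Pq.cons (Pq.L [] 38 (Pf.C 92 0x1c405))
 (Pq.cons (Pq.L [0,2] 38 (Pf.C 0 0x20014407))
 (Pq.cons (Pq.L [] 0 (Pf.C 95 0x20385))
 (Pq.cons (Pq.L [0,2] 38 (Pf.C 0 0x20014407))
 Pq.nil))))))) (Pq.cons (Pq.D 3 (Pq.cons (Pq.L [] 0 (Pf.C 87 0x1c405))
 (Pq.cons (Pq.L [] 0 (Pf.C 90 0x1c405))
 (Pq.cons (Pq.L [] 38 (Pf.C 93 0x1c405))
 (Pq.cons (Pq.L [] 0 (Pf.C 95 0x1c405))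
 (Pq.cons (Pq.L [0,2] 38 (Pf.C 0 0x20014407))
 (Pq.cons (Pq.L [0,2] 38 (Pf.C 0 0x20014407))
 Pq.nil))))))) (Pq.cons (Pq.D 3 (Pq.cons (Pq.L [1,2] 38 (Pf.C 0 0x20214407))
 (Pq.cons (Pq.L [0,2] 38 (Pf.C 0 0x20014407))
 (Pq.cons (Pq.L [] 38 (Pf.C 94 0x1c405))
 (Pq.cons (Pq.L [0,2] 38 (Pf.C 0 0x20014407))
 (Pq.cons (Pq.L [0,2] 38 (Pf.C 0 0x20014407))
 (Pq.cons (Pq.L [0,2] 38 (Pf.C 0 0x20014407))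
 Pq.nil))))))) Pq.nil))))))) (Pq.cons (Pq.L [0,1,3] 1 (Pf.C 1 0x10c14180))
 (Pq.cons (Pq.L [0,1,3] 1 (Pf.C 1 0xc14181))
 Pq.nil))))))) (Pq.cons (Pq.D 1 (Pq.cons (Pq.L [0,1,2] 1 (Pf.C 1 0x60a04100))
 (Pq.cons (Pq.L [0,2,4] 1 (Pf.C 1 0x40c14100))
 (Pq.cons (Pq.L [0,2,3] 1 (Pf.C 1 0x30c14100))
 (Pq.cons (Pq.L [0,2,3] 1 (Pf.C 1 0x20c14180))
 (Pq.cons (Pq.D 2 (Pq.cons (Pq.D 3 (Pq.cons (Pq.L [1,2] 38 (Pf.C 0 0x10414407))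
 (Pq.cons (Pq.L [] 38 (Pf.C 96 0x20385))
 (Pq.cons (Pq.L [] 0 (Pf.C 97 0x20385))
 (Pq.cons (Pq.L [] 0 (Pf.C 98 0x20385))
 (Pq.cons (Pq.L [] 0 (Pf.C 99 0x20385))
 (Pq.cons (Pq.L [1,2] 38 (Pf.C 0 0x10414407))
 Pq.nil))))))) (Pq.cons (Pq.D 3 (Pq.cons (Pq.L [] 38 (Pf.C 96 0x1c405))
 (Pq.cons (Pq.L [] 38 (Pf.C 100 0x20385))
 (Pq.cons (Pq.L [] 38 (Pf.C 101 0x20385))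
 (Pq.cons (Pq.L [] 38 (Pf.C 102 0x20385))
 (Pq.cons (Pq.L [] 38 (Pf.C 103 0x20385))
 (Pq.cons (Pq.L [] 38 (Pf.C 104 0x20385))
 Pq.nil))))))) (Pq.cons (Pq.D 3 (Pq.cons (Pq.L [] 0 (Pf.C 97 0x1c405))
 (Pq.cons (Pq.L [] 38 (Pf.C 101 0x1c405))
 (Pq.cons (Pq.L [0,1] 38 (Pf.C 0 0x10014407))
 (Pq.cons (Pq.L [] 0 (Pf.C 105 0x20385))
 (Pq.cons (Pq.L [] 0 (Pf.C 106 0x20385))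
 (Pq.cons (Pq.L [0,1] 38 (Pf.C 0 0x10014407))
 Pq.nil))))))) (Pq.cons (Pq.D 3 (Pq.cons (Pq.L [] 0 (Pf.C 98 0x1c405))
 (Pq.cons (Pq.L [] 38 (Pf.C 102 0x1c405))
 (Pq.cons (Pq.L [] 0 (Pf.C 105 0x1c405))
 (Pq.cons (Pq.L [0,1] 38 (Pf.C 0 0x10014407))
 (Pq.cons (Pq.L [] 0 (Pf.C 107 0x20385))
 (Pq.cons (Pq.L [0,1] 38 (Pf.C 0 0x10014407))
 Pq.nil))))))) (Pq.cons (Pq.D 3 (Pq.cons (Pq.L [] 0 (Pf.C 99 0x1c405))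
 (Pq.cons (Pq.L [] 38 (Pf.C 103 0x1c405))
 (Pq.cons (Pq.L [] 0 (Pf.C 106 0x1c405))
 (Pq.cons (Pq.L [] 0 (Pf.C 107 0x1c405))
 (Pq.cons (Pq.L [0,1] 38 (Pf.C 0 0x10014407))
 (Pq.cons (Pq.L [0,1] 38 (Pf.C 0 0x10014407))
 Pq.nil))))))) (Pq.cons (Pq.D 3 (Pq.cons (Pq.L [1,2] 38 (Pf.C 0 0x10414407))
 (Pq.cons (Pq.L [] 38 (Pf.C 104 0x1c405))
 (Pq.cons (Pq.L [0,1] 38 (Pf.C 0 0x10014407))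
 (Pq.cons (Pq.L [0,1] 38 (Pf.C 0 0x10014407))
 (Pq.cons (Pq.L [0,1] 38 (Pf.C 0 0x10014407))
 (Pq.cons (Pq.L [0,1] 38 (Pf.C 0 0x10014407))
 Pq.nil))))))) Pq.nil))))))) (Pq.cons (Pq.L [0,2,3] 1 (Pf.C 1 0xc14182))
 Pq.nil))))))) (Pq.cons (Pq.D 1 (Pq.cons (Pq.L [0,1,2] 1 (Pf.C 1 0x60a00101))
 (Pq.cons (Pq.L [1,2,4] 1 (Pf.C 1 0x40c14101))
 (Pq.cons (Pq.L [1,2,3] 1 (Pf.C 1 0x30c14101))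
 (Pq.cons (Pq.L [1,2,3] 1 (Pf.C 1 0x20c14181))
 (Pq.cons (Pq.L [1,2,3] 1 (Pf.C 1 0x10c14182))
 (Pq.cons (Pq.D 2 (Pq.cons (Pq.D 3 (Pq.cons (Pq.L [] 38 (Pf.C 108 82951))
 (Pq.cons (Pq.L [] 38 (Pf.C 114 0x20287))
 (Pq.cons (Pq.L [] 38 (Pf.C 115 0x20287))
 (Pq.cons (Pq.L [] 38 (Pf.C 116 0x20287))
 (Pq.cons (Pq.L [] 38 (Pf.C 117 0x20287))
 (Pq.cons (Pq.L [] 38 (Pf.C 118 0x20287))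
 Pq.nil))))))) (Pq.cons (Pq.D 3 (Pq.cons (Pq.L [] 38 (Pf.C 114 0x1c288))
 (Pq.cons (Pq.L [0,2] 38 (Pf.C 0 0x414407))
 (Pq.cons (Pq.L [] 0 (Pf.C 128 0x20385))
 (Pq.cons (Pq.L [] 0 (Pf.C 129 0x20385))
 (Pq.cons (Pq.L [] 0 (Pf.C 130 0x20385))
 (Pq.cons (Pq.L [0,2] 38 (Pf.C 0 0x414407))
 Pq.nil))))))) (Pq.cons (Pq.D 3 (Pq.cons (Pq.L [] 38 (Pf.C 115 0x1c288))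
 (Pq.cons (Pq.L [] 0 (Pf.C 128 0x1c405))
 (Pq.cons (Pq.L [0,1] 38 (Pf.C 0 0x214407))
 (Pq.cons (Pq.L [] 0 (Pf.C 131 0x20385))
 (Pq.cons (Pq.L [] 0 (Pf.C 132 0x20385))
 (Pq.cons (Pq.L [0,1] 38 (Pf.C 0 0x214407))
 Pq.nil))))))) (Pq.cons (Pq.D 3 (Pq.cons (Pq.L [] 38 (Pf.C 116 0x1c288))
 (Pq.cons (Pq.L [] 0 (Pf.C 129 0x1c405))
 (Pq.cons (Pq.L [] 0 (Pf.C 131 0x1c405))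
 (Pq.cons (Pq.L [0,1] 38 (Pf.C 0 0x214407))
 (Pq.cons (Pq.L [] 0 (Pf.C 133 0x20385))
 (Pq.cons (Pq.L [0,1] 38 (Pf.C 0 0x214407))
 Pq.nil))))))) (Pq.cons (Pq.D 3 (Pq.cons (Pq.L [] 38 (Pf.C 117 0x1c288))
 (Pq.cons (Pq.L [] 0 (Pf.C 130 0x1c405))
 (Pq.cons (Pq.L [] 0 (Pf.C 132 0x1c405))
 (Pq.cons (Pq.L [] 0 (Pf.C 133 0x1c405))
 (Pq.cons (Pq.L [0,1] 38 (Pf.C 0 0x214407))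
 (Pq.cons (Pq.L [0,1] 38 (Pf.C 0 0x214407))
 Pq.nil))))))) (Pq.cons (Pq.D 3 (Pq.cons (Pq.L [] 38 (Pf.C 118 0x1c288))
 (Pq.cons (Pq.L [0,2] 38 (Pf.C 0 0x414407))
 (Pq.cons (Pq.L [0,1] 38 (Pf.C 0 0x214407))
 (Pq.cons (Pq.L [0,1] 38 (Pf.C 0 0x214407))
 (Pq.cons (Pq.L [0,1] 38 (Pf.C 0 0x214407))
 (Pq.cons (Pq.L [0,1] 38 (Pf.C 0 0x214407))
 Pq.nil))))))) Pq.nil))))))) Pq.nil))))))) Pq.nil))))))) Pq.nil)))))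
theorem h_o29 : AllRef h_T h_G13 (List.take 5 (applyObl hh_T 7 [27,39,40,41,42,43,44,45,46,47,48,49] [1,1,1,1,1,2,1,2,2,2,2,2] [])) :=
  chkPq_sound h_o29c _ (by decide +kernel)
noncomputable def h_o30c : Pq := (Pq.cons (Pq.D 0 (Pq.cons (Pq.D 1 (Pq.cons (Pq.D 2 (Pq.cons (Pq.D 3 (Pq.cons (Pq.L [1] 63 (Pf.C 0 0x80a04386))
 (Pq.cons (Pq.L [2] 63 (Pf.C 0 0x80a08386))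
 (Pq.cons (Pq.L [1] 63 (Pf.C 0 0x80a04386))
 (Pq.cons (Pq.L [1] 63 (Pf.C 0 0x80a04386))
 (Pq.cons (Pq.L [1] 63 (Pf.C 0 0x80a04386))
 (Pq.cons (Pq.L [1] 63 (Pf.C 0 0x80a04386))
 Pq.nil))))))) (Pq.cons (Pq.D 3 (Pq.cons (Pq.L [2] 63 (Pf.C 0 0x80a08386))
 (Pq.cons (Pq.L [2] 63 (Pf.C 0 0x80a08386))
 (Pq.cons (Pq.L [3] 63 (Pf.C 0 0x80a0c386))
 (Pq.cons (Pq.L [2] 63 (Pf.C 0 0x80a08386))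
 (Pq.cons (Pq.L [2] 63 (Pf.C 0 0x80a08386))
 (Pq.cons (Pq.L [2] 63 (Pf.C 0 0x80a08386))
 Pq.nil))))))) (Pq.cons (Pq.D 3 (Pq.cons (Pq.L [1] 63 (Pf.C 0 0x80a04386))
 (Pq.cons (Pq.L [3] 63 (Pf.C 0 0x80a0c386))
 (Pq.cons (Pq.L [1] 63 (Pf.C 0 0x80a04386))
 (Pq.cons (Pq.L [1] 63 (Pf.C 0 0x80a04386))
 (Pq.cons (Pq.L [1] 63 (Pf.C 0 0x80a04386))
 (Pq.cons (Pq.L [1] 63 (Pf.C 0 0x80a04386))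
 Pq.nil))))))) (Pq.cons (Pq.D 3 (Pq.cons (Pq.L [1] 63 (Pf.C 0 0x80a04386))
 (Pq.cons (Pq.L [2] 63 (Pf.C 0 0x80a08386))
 (Pq.cons (Pq.L [1] 63 (Pf.C 0 0x80a04386))
 (Pq.cons (Pq.L [1] 63 (Pf.C 0 0x80a04386))
 (Pq.cons (Pq.L [1] 63 (Pf.C 0 0x80a04386))
 (Pq.cons (Pq.L [1] 63 (Pf.C 0 0x80a04386))
 Pq.nil))))))) (Pq.cons (Pq.D 3 (Pq.cons (Pq.L [1] 63 (Pf.C 0 0x80a04386))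
 (Pq.cons (Pq.L [2] 63 (Pf.C 0 0x80a08386))
 (Pq.cons (Pq.L [1] 63 (Pf.C 0 0x80a04386))
 (Pq.cons (Pq.L [1] 63 (Pf.C 0 0x80a04386))
 (Pq.cons (Pq.L [1] 63 (Pf.C 0 0x80a04386))
 (Pq.cons (Pq.L [1] 63 (Pf.C 0 0x80a04386))
 Pq.nil))))))) (Pq.cons (Pq.D 3 (Pq.cons (Pq.L [1] 63 (Pf.C 0 0x80a04386))
 (Pq.cons (Pq.L [2] 63 (Pf.C 0 0x80a08386))
 (Pq.cons (Pq.L [1] 63 (Pf.C 0 0x80a04386))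
 (Pq.cons (Pq.L [1] 63 (Pf.C 0 0x80a04386))
 (Pq.cons (Pq.L [1] 63 (Pf.C 0 0x80a04386))
 (Pq.cons (Pq.L [1] 63 (Pf.C 0 0x80a04386))
 Pq.nil))))))) Pq.nil))))))) (Pq.cons (Pq.D 2 (Pq.cons (Pq.D 3 (Pq.cons (Pq.L [2] 63 (Pf.C 0 0x80a08386))
 (Pq.cons (Pq.L [2] 63 (Pf.C 0 0x80a08386))
 (Pq.cons (Pq.L [3] 63 (Pf.C 0 0x80a0c386))
 (Pq.cons (Pq.L [2] 63 (Pf.C 0 0x80a08386))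
 (Pq.cons (Pq.L [2] 63 (Pf.C 0 0x80a08386))
 (Pq.cons (Pq.L [2] 63 (Pf.C 0 0x80a08386))
 Pq.nil))))))) (Pq.cons (Pq.D 3 (Pq.cons (Pq.L [2] 63 (Pf.C 0 0x80a08386))
 (Pq.cons (Pq.L [0] 63 (Pf.C 0 0x80a00386))
 (Pq.cons (Pq.L [0] 63 (Pf.C 0 0x80a00386))
 (Pq.cons (Pq.L [0] 63 (Pf.C 0 0x80a00386))
 (Pq.cons (Pq.L [0] 63 (Pf.C 0 0x80a00386))
 (Pq.cons (Pq.L [0] 63 (Pf.C 0 0x80a00386))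
 Pq.nil))))))) (Pq.cons (Pq.D 3 (Pq.cons (Pq.L [3] 63 (Pf.C 0 0x80a0c386))
 (Pq.cons (Pq.L [0] 63 (Pf.C 0 0x80a00386))
 (Pq.cons (Pq.L [0] 63 (Pf.C 0 0x80a00386))
 (Pq.cons (Pq.L [0] 63 (Pf.C 0 0x80a00386))
 (Pq.cons (Pq.L [0] 63 (Pf.C 0 0x80a00386))
 (Pq.cons (Pq.L [0] 63 (Pf.C 0 0x80a00386))
 Pq.nil))))))) (Pq.cons (Pq.D 3 (Pq.cons (Pq.L [2] 63 (Pf.C 0 0x80a08386))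
 (Pq.cons (Pq.L [0] 63 (Pf.C 0 0x80a00386))
 (Pq.cons (Pq.L [0] 63 (Pf.C 0 0x80a00386))
 (Pq.cons (Pq.L [0] 63 (Pf.C 0 0x80a00386))
 (Pq.cons (Pq.L [0] 63 (Pf.C 0 0x80a00386))
 (Pq.cons (Pq.L [0] 63 (Pf.C 0 0x80a00386))
 Pq.nil))))))) (Pq.cons (Pq.D 3 (Pq.cons (Pq.L [2] 63 (Pf.C 0 0x80a08386))
 (Pq.cons (Pq.L [0] 63 (Pf.C 0 0x80a00386))
 (Pq.cons (Pq.L [0] 63 (Pf.C 0 0x80a00386))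
 (Pq.cons (Pq.L [0] 63 (Pf.C 0 0x80a00386))
 (Pq.cons (Pq.L [0] 63 (Pf.C 0 0x80a00386))
 (Pq.cons (Pq.L [0] 63 (Pf.C 0 0x80a00386))
 Pq.nil))))))) (Pq.cons (Pq.D 3 (Pq.cons (Pq.L [2] 63 (Pf.C 0 0x80a08386))
 (Pq.cons (Pq.L [0] 63 (Pf.C 0 0x80a00386))
 (Pq.cons (Pq.L [0] 63 (Pf.C 0 0x80a00386))
 (Pq.cons (Pq.L [0] 63 (Pf.C 0 0x80a00386))
 (Pq.cons (Pq.L [0] 63 (Pf.C 0 0x80a00386))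
 (Pq.cons (Pq.L [0] 63 (Pf.C 0 0x80a00386))
 Pq.nil))))))) Pq.nil))))))) (Pq.cons (Pq.D 2 (Pq.cons (Pq.D 3 (Pq.cons (Pq.L [1] 63 (Pf.C 0 0x80a04386))
 (Pq.cons (Pq.L [3] 63 (Pf.C 0 0x80a0c386))
 (Pq.cons (Pq.L [1] 63 (Pf.C 0 0x80a04386))
 (Pq.cons (Pq.L [1] 63 (Pf.C 0 0x80a04386))
 (Pq.cons (Pq.L [1] 63 (Pf.C 0 0x80a04386))
 (Pq.cons (Pq.L [1] 63 (Pf.C 0 0x80a04386))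
 Pq.nil))))))) (Pq.cons (Pq.D 3 (Pq.cons (Pq.L [3] 63 (Pf.C 0 0x80a0c386))
 (Pq.cons (Pq.L [0] 63 (Pf.C 0 0x80a00386))
 (Pq.cons (Pq.L [0] 63 (Pf.C 0 0x80a00386))
 (Pq.cons (Pq.L [0] 63 (Pf.C 0 0x80a00386))
 (Pq.cons (Pq.L [0] 63 (Pf.C 0 0x80a00386))
 (Pq.cons (Pq.L [0] 63 (Pf.C 0 0x80a00386))
 Pq.nil))))))) (Pq.cons (Pq.D 3 (Pq.cons (Pq.L [1] 63 (Pf.C 0 0x80a04386))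
 (Pq.cons (Pq.L [0] 63 (Pf.C 0 0x80a00386))
 (Pq.cons (Pq.L [0] 63 (Pf.C 0 0x80a00386))
 (Pq.cons (Pq.L [0] 63 (Pf.C 0 0x80a00386))
 (Pq.cons (Pq.L [0] 63 (Pf.C 0 0x80a00386))
 (Pq.cons (Pq.L [0] 63 (Pf.C 0 0x80a00386))
 Pq.nil))))))) (Pq.cons (Pq.D 3 (Pq.cons (Pq.L [1] 63 (Pf.C 0 0x80a04386))
 (Pq.cons (Pq.L [0] 63 (Pf.C 0 0x80a00386))
 (Pq.cons (Pq.L [0] 63 (Pf.C 0 0x80a00386))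
 (Pq.cons (Pq.L [0] 63 (Pf.C 0 0x80a00386))
 (Pq.cons (Pq.L [0] 63 (Pf.C 0 0x80a00386))
 (Pq.cons (Pq.L [0] 63 (Pf.C 0 0x80a00386))
 Pq.nil))))))) (Pq.cons (Pq.D 3 (Pq.cons (Pq.L [1] 63 (Pf.C 0 0x80a04386))
 (Pq.cons (Pq.L [0] 63 (Pf.C 0 0x80a00386))
 (Pq.cons (Pq.L [0] 63 (Pf.C 0 0x80a00386))
 (Pq.cons (Pq.L [0] 63 (Pf.C 0 0x80a00386))
 (Pq.cons (Pq.L [0] 63 (Pf.C 0 0x80a00386))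
 (Pq.cons (Pq.L [0] 63 (Pf.C 0 0x80a00386))
 Pq.nil))))))) (Pq.cons (Pq.D 3 (Pq.cons (Pq.L [1] 63 (Pf.C 0 0x80a04386))
 (Pq.cons (Pq.L [0] 63 (Pf.C 0 0x80a00386))
 (Pq.cons (Pq.L [0] 63 (Pf.C 0 0x80a00386))
 (Pq.cons (Pq.L [0] 63 (Pf.C 0 0x80a00386))
 (Pq.cons (Pq.L [0] 63 (Pf.C 0 0x80a00386))
 (Pq.cons (Pq.L [0] 63 (Pf.C 0 0x80a00386))
 Pq.nil))))))) Pq.nil))))))) (Pq.cons (Pq.D 2 (Pq.cons (Pq.D 3 (Pq.cons (Pq.L [1] 63 (Pf.C 0 0x80a04386))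
 (Pq.cons (Pq.L [2] 63 (Pf.C 0 0x80a08386))
 (Pq.cons (Pq.L [1] 63 (Pf.C 0 0x80a04386))
 (Pq.cons (Pq.L [1] 63 (Pf.C 0 0x80a04386))
 (Pq.cons (Pq.L [1] 63 (Pf.C 0 0x80a04386))
 (Pq.cons (Pq.L [1] 63 (Pf.C 0 0x80a04386))
 Pq.nil))))))) (Pq.cons (Pq.D 3 (Pq.cons (Pq.L [2] 63 (Pf.C 0 0x80a08386))
 (Pq.cons (Pq.L [0] 63 (Pf.C 0 0x80a00386))
 (Pq.cons (Pq.L [0] 63 (Pf.C 0 0x80a00386))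
 (Pq.cons (Pq.L [0] 63 (Pf.C 0 0x80a00386))
 (Pq.cons (Pq.L [0] 63 (Pf.C 0 0x80a00386))
 (Pq.cons (Pq.L [0] 63 (Pf.C 0 0x80a00386))
 Pq.nil))))))) (Pq.cons (Pq.D 3 (Pq.cons (Pq.L [1] 63 (Pf.C 0 0x80a04386))
 (Pq.cons (Pq.L [0] 63 (Pf.C 0 0x80a00386))
 (Pq.cons (Pq.L [0] 63 (Pf.C 0 0x80a00386))
 (Pq.cons (Pq.L [0] 63 (Pf.C 0 0x80a00386))
 (Pq.cons (Pq.L [0] 63 (Pf.C 0 0x80a00386))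
 (Pq.cons (Pq.L [0] 63 (Pf.C 0 0x80a00386))
 Pq.nil))))))) (Pq.cons (Pq.D 3 (Pq.cons (Pq.L [1] 63 (Pf.C 0 0x80a04386))
 (Pq.cons (Pq.L [0] 63 (Pf.C 0 0x80a00386))
 (Pq.cons (Pq.L [0] 63 (Pf.C 0 0x80a00386))
 (Pq.cons (Pq.L [0] 63 (Pf.C 0 0x80a00386))
 (Pq.cons (Pq.L [0] 63 (Pf.C 0 0x80a00386))
 (Pq.cons (Pq.L [0] 63 (Pf.C 0 0x80a00386))
 Pq.nil))))))) (Pq.cons (Pq.D 3 (Pq.cons (Pq.L [1] 63 (Pf.C 0 0x80a04386))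
 (Pq.cons (Pq.L [0] 63 (Pf.C 0 0x80a00386))
 (Pq.cons (Pq.L [0] 63 (Pf.C 0 0x80a00386))
 (Pq.cons (Pq.L [0] 63 (Pf.C 0 0x80a00386))
 (Pq.cons (Pq.L [0] 63 (Pf.C 0 0x80a00386))
 (Pq.cons (Pq.L [0] 63 (Pf.C 0 0x80a00386))
 Pq.nil))))))) (Pq.cons (Pq.D 3 (Pq.cons (Pq.L [1] 63 (Pf.C 0 0x80a04386))
 (Pq.cons (Pq.L [0] 63 (Pf.C 0 0x80a00386))
 (Pq.cons (Pq.L [0] 63 (Pf.C 0 0x80a00386))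
 (Pq.cons (Pq.L [0] 63 (Pf.C 0 0x80a00386))
 (Pq.cons (Pq.L [0] 63 (Pf.C 0 0x80a00386))
 (Pq.cons (Pq.L [0] 63 (Pf.C 0 0x80a00386))
 Pq.nil))))))) Pq.nil))))))) (Pq.cons (Pq.D 2 (Pq.cons (Pq.D 3 (Pq.cons (Pq.L [1] 63 (Pf.C 0 0x80a04386))
 (Pq.cons (Pq.L [2] 63 (Pf.C 0 0x80a08386))
 (Pq.cons (Pq.L [1] 63 (Pf.C 0 0x80a04386))
 (Pq.cons (Pq.L [1] 63 (Pf.C 0 0x80a04386))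
 (Pq.cons (Pq.L [1] 63 (Pf.C 0 0x80a04386))
 (Pq.cons (Pq.L [1] 63 (Pf.C 0 0x80a04386))
 Pq.nil))))))) (Pq.cons (Pq.D 3 (Pq.cons (Pq.L [2] 63 (Pf.C 0 0x80a08386))
 (Pq.cons (Pq.L [0] 63 (Pf.C 0 0x80a00386))
 (Pq.cons (Pq.L [0] 63 (Pf.C 0 0x80a00386))
 (Pq.cons (Pq.L [0] 63 (Pf.C 0 0x80a00386))
 (Pq.cons (Pq.L [0] 63 (Pf.C 0 0x80a00386))
 (Pq.cons (Pq.L [0] 63 (Pf.C 0 0x80a00386))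
 Pq.nil))))))) (Pq.cons (Pq.D 3 (Pq.cons (Pq.L [1] 63 (Pf.C 0 0x80a04386))
 (Pq.cons (Pq.L [0] 63 (Pf.C 0 0x80a00386))
 (Pq.cons (Pq.L [0] 63 (Pf.C 0 0x80a00386))
 (Pq.cons (Pq.L [0] 63 (Pf.C 0 0x80a00386))
 (Pq.cons (Pq.L [0] 63 (Pf.C 0 0x80a00386))
 (Pq.cons (Pq.L [0] 63 (Pf.C 0 0x80a00386))
 Pq.nil))))))) (Pq.cons (Pq.D 3 (Pq.cons (Pq.L [1] 63 (Pf.C 0 0x80a04386))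
 (Pq.cons (Pq.L [0] 63 (Pf.C 0 0x80a00386))
 (Pq.cons (Pq.L [0] 63 (Pf.C 0 0x80a00386))
 (Pq.cons (Pq.L [0] 63 (Pf.C 0 0x80a00386))
 (Pq.cons (Pq.L [0] 63 (Pf.C 0 0x80a00386))
 (Pq.cons (Pq.L [0] 63 (Pf.C 0 0x80a00386))
 Pq.nil))))))) (Pq.cons (Pq.D 3 (Pq.cons (Pq.L [1] 63 (Pf.C 0 0x80a04386))
 (Pq.cons (Pq.L [0] 63 (Pf.C 0 0x80a00386))
 (Pq.cons (Pq.L [0] 63 (Pf.C 0 0x80a00386))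
 (Pq.cons (Pq.L [0] 63 (Pf.C 0 0x80a00386))
 (Pq.cons (Pq.L [0] 63 (Pf.C 0 0x80a00386))
 (Pq.cons (Pq.L [0] 63 (Pf.C 0 0x80a00386))
 Pq.nil))))))) (Pq.cons (Pq.D 3 (Pq.cons (Pq.L [1] 63 (Pf.C 0 0x80a04386))
 (Pq.cons (Pq.L [0] 63 (Pf.C 0 0x80a00386))
 (Pq.cons (Pq.L [0] 63 (Pf.C 0 0x80a00386))
 (Pq.cons (Pq.L [0] 63 (Pf.C 0 0x80a00386))
 (Pq.cons (Pq.L [0] 63 (Pf.C 0 0x80a00386))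
 (Pq.cons (Pq.L [0] 63 (Pf.C 0 0x80a00386))
 Pq.nil))))))) Pq.nil))))))) (Pq.cons (Pq.D 2 (Pq.cons (Pq.D 3 (Pq.cons (Pq.L [1] 63 (Pf.C 0 0x80a04386))
 (Pq.cons (Pq.L [2] 63 (Pf.C 0 0x80a08386))
 (Pq.cons (Pq.L [1] 63 (Pf.C 0 0x80a04386))
 (Pq.cons (Pq.L [1] 63 (Pf.C 0 0x80a04386))
 (Pq.cons (Pq.L [1] 63 (Pf.C 0 0x80a04386))
 (Pq.cons (Pq.L [1] 63 (Pf.C 0 0x80a04386))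
 Pq.nil))))))) (Pq.cons (Pq.D 3 (Pq.cons (Pq.L [2] 63 (Pf.C 0 0x80a08386))
 (Pq.cons (Pq.L [0] 63 (Pf.C 0 0x80a00386))
 (Pq.cons (Pq.L [0] 63 (Pf.C 0 0x80a00386))
 (Pq.cons (Pq.L [0] 63 (Pf.C 0 0x80a00386))
 (Pq.cons (Pq.L [0] 63 (Pf.C 0 0x80a00386))
 (Pq.cons (Pq.L [0] 63 (Pf.C 0 0x80a00386))
 Pq.nil))))))) (Pq.cons (Pq.D 3 (Pq.cons (Pq.L [1] 63 (Pf.C 0 0x80a04386))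
 (Pq.cons (Pq.L [0] 63 (Pf.C 0 0x80a00386))
 (Pq.cons (Pq.L [0] 63 (Pf.C 0 0x80a00386))
 (Pq.cons (Pq.L [0] 63 (Pf.C 0 0x80a00386))
 (Pq.cons (Pq.L [0] 63 (Pf.C 0 0x80a00386))
 (Pq.cons (Pq.L [0] 63 (Pf.C 0 0x80a00386))
 Pq.nil))))))) (Pq.cons (Pq.D 3 (Pq.cons (Pq.L [1] 63 (Pf.C 0 0x80a04386))
 (Pq.cons (Pq.L [0] 63 (Pf.C 0 0x80a00386))
 (Pq.cons (Pq.L [0] 63 (Pf.C 0 0x80a00386))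
 (Pq.cons (Pq.L [0] 63 (Pf.C 0 0x80a00386))
 (Pq.cons (Pq.L [0] 63 (Pf.C 0 0x80a00386))
 (Pq.cons (Pq.L [0] 63 (Pf.C 0 0x80a00386))
 Pq.nil))))))) (Pq.cons (Pq.D 3 (Pq.cons (Pq.L [1] 63 (Pf.C 0 0x80a04386))
 (Pq.cons (Pq.L [0] 63 (Pf.C 0 0x80a00386))
 (Pq.cons (Pq.L [0] 63 (Pf.C 0 0x80a00386))
 (Pq.cons (Pq.L [0] 63 (Pf.C 0 0x80a00386))
 (Pq.cons (Pq.L [0] 63 (Pf.C 0 0x80a00386))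
 (Pq.cons (Pq.L [0] 63 (Pf.C 0 0x80a00386))
 Pq.nil))))))) (Pq.cons (Pq.D 3 (Pq.cons (Pq.L [1] 63 (Pf.C 0 0x80a04386))
 (Pq.cons (Pq.L [0] 63 (Pf.C 0 0x80a00386))
 (Pq.cons (Pq.L [0] 63 (Pf.C 0 0x80a00386))
 (Pq.cons (Pq.L [0] 63 (Pf.C 0 0x80a00386))
 (Pq.cons (Pq.L [0] 63 (Pf.C 0 0x80a00386))
 (Pq.cons (Pq.L [0] 63 (Pf.C 0 0x80a00386))
 Pq.nil))))))) Pq.nil))))))) Pq.nil))))))) (Pq.cons (Pq.D 1 (Pq.cons (Pq.D 2 (Pq.cons (Pq.L [1,4] 11 (Pf.C 0 0x40214386))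
 (Pq.cons (Pq.L [] 0 (Pf.C 60 0x1c305))
 (Pq.cons (Pq.L [] 0 (Pf.C 61 0x1c305))
 (Pq.cons (Pq.L [] 0 (Pf.C 62 0x1c305))
 (Pq.cons (Pq.L [] 11 (Pf.C 63 0x1c305))
 (Pq.cons (Pq.L [1,4] 11 (Pf.C 0 0x40214386))
 Pq.nil))))))) (Pq.cons (Pq.D 2 (Pq.cons (Pq.L [] 0 (Pf.C 60 99205))
 (Pq.cons (Pq.L [0,4] 11 (Pf.C 0 0x40014386))
 (Pq.cons (Pq.L [] 0 (Pf.C 64 0x1c305))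
 (Pq.cons (Pq.L [] 0 (Pf.C 65 0x1c305))
 (Pq.cons (Pq.L [] 11 (Pf.C 66 0x1c305))
 (Pq.cons (Pq.L [0,4] 11 (Pf.C 0 0x40014386))
 Pq.nil))))))) (Pq.cons (Pq.D 2 (Pq.cons (Pq.L [] 0 (Pf.C 61 99205))
 (Pq.cons (Pq.L [] 0 (Pf.C 64 99205))
 (Pq.cons (Pq.L [0,4] 11 (Pf.C 0 0x40014386))
 (Pq.cons (Pq.L [] 0 (Pf.C 67 0x1c305))
 (Pq.cons (Pq.L [] 11 (Pf.C 68 0x1c305))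
 (Pq.cons (Pq.L [0,4] 11 (Pf.C 0 0x40014386))
 Pq.nil))))))) (Pq.cons (Pq.D 2 (Pq.cons (Pq.L [] 0 (Pf.C 62 99205))
 (Pq.cons (Pq.L [] 0 (Pf.C 65 99205))
 (Pq.cons (Pq.L [] 0 (Pf.C 67 99205))
 (Pq.cons (Pq.L [0,4] 11 (Pf.C 0 0x40014386))
 (Pq.cons (Pq.L [] 11 (Pf.C 69 0x1c305))
 (Pq.cons (Pq.L [0,4] 11 (Pf.C 0 0x40014386))
 Pq.nil))))))) (Pq.cons (Pq.D 2 (Pq.cons (Pq.L [] 11 (Pf.C 63 99205))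
 (Pq.cons (Pq.L [] 11 (Pf.C 66 99205))
 (Pq.cons (Pq.L [] 11 (Pf.C 68 99205))
 (Pq.cons (Pq.L [] 11 (Pf.C 69 99205))
 (Pq.cons (Pq.L [] 11 (Pf.C 70 0x1c305))
 (Pq.cons (Pq.L [] 11 (Pf.C 71 0x1c305))
 Pq.nil))))))) (Pq.cons (Pq.D 2 (Pq.cons (Pq.L [1,4] 11 (Pf.C 0 0x40214386))
 (Pq.cons (Pq.L [0,4] 11 (Pf.C 0 0x40014386))
 (Pq.cons (Pq.L [0,4] 11 (Pf.C 0 0x40014386))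
 (Pq.cons (Pq.L [0,4] 11 (Pf.C 0 0x40014386))
 (Pq.cons (Pq.L [] 11 (Pf.C 71 99205))
 (Pq.cons (Pq.L [0,4] 11 (Pf.C 0 0x40014386))
 Pq.nil))))))) Pq.nil))))))) (Pq.cons (Pq.D 1 (Pq.cons (Pq.D 2 (Pq.cons (Pq.L [1,3] 11 (Pf.C 0 0x30214386))
 (Pq.cons (Pq.L [] 0 (Pf.C 72 0x1c305))
 (Pq.cons (Pq.L [] 0 (Pf.C 73 0x1c305))
 (Pq.cons (Pq.L [] 11 (Pf.C 74 0x1c305))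
 (Pq.cons (Pq.L [] 0 (Pf.C 75 0x1c305))
 (Pq.cons (Pq.L [1,3] 11 (Pf.C 0 0x30214386))
 Pq.nil))))))) (Pq.cons (Pq.D 2 (Pq.cons (Pq.L [] 0 (Pf.C 72 99205))
 (Pq.cons (Pq.L [0,3] 11 (Pf.C 0 0x30014386))
 (Pq.cons (Pq.L [] 0 (Pf.C 76 0x1c305))
 (Pq.cons (Pq.L [] 11 (Pf.C 77 0x1c305))
 (Pq.cons (Pq.L [] 0 (Pf.C 78 0x1c305))
 (Pq.cons (Pq.L [0,3] 11 (Pf.C 0 0x30014386))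
 Pq.nil))))))) (Pq.cons (Pq.D 2 (Pq.cons (Pq.L [] 0 (Pf.C 73 99205))
 (Pq.cons (Pq.L [] 0 (Pf.C 76 99205))
 (Pq.cons (Pq.L [0,3] 11 (Pf.C 0 0x30014386))
 (Pq.cons (Pq.L [] 11 (Pf.C 79 0x1c305))
 (Pq.cons (Pq.L [] 0 (Pf.C 80 0x1c305))
 (Pq.cons (Pq.L [0,3] 11 (Pf.C 0 0x30014386))
 Pq.nil))))))) (Pq.cons (Pq.D 2 (Pq.cons (Pq.L [] 11 (Pf.C 74 99205))
 (Pq.cons (Pq.L [] 11 (Pf.C 77 99205))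
 (Pq.cons (Pq.L [] 11 (Pf.C 79 99205))
 (Pq.cons (Pq.L [] 11 (Pf.C 81 0x1c305))
 (Pq.cons (Pq.L [] 11 (Pf.C 82 0x1c305))
 (Pq.cons (Pq.L [] 11 (Pf.C 83 0x1c305))
 Pq.nil))))))) (Pq.cons (Pq.D 2 (Pq.cons (Pq.L [] 0 (Pf.C 75 99205))
 (Pq.cons (Pq.L [] 0 (Pf.C 78 99205))
 (Pq.cons (Pq.L [] 0 (Pf.C 80 99205))
 (Pq.cons (Pq.L [] 11 (Pf.C 82 99205))
 (Pq.cons (Pq.L [0,3] 11 (Pf.C 0 0x30014386))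
 (Pq.cons (Pq.L [0,3] 11 (Pf.C 0 0x30014386))
 Pq.nil))))))) (Pq.cons (Pq.D 2 (Pq.cons (Pq.L [1,3] 11 (Pf.C 0 0x30214386))
 (Pq.cons (Pq.L [0,3] 11 (Pf.C 0 0x30014386))
 (Pq.cons (Pq.L [0,3] 11 (Pf.C 0 0x30014386))
 (Pq.cons (Pq.L [] 11 (Pf.C 83 99205))
 (Pq.cons (Pq.L [0,3] 11 (Pf.C 0 0x30014386))
 (Pq.cons (Pq.L [0,3] 11 (Pf.C 0 0x30014386))
 Pq.nil))))))) Pq.nil))))))) (Pq.cons (Pq.D 1 (Pq.cons (Pq.D 2 (Pq.cons (Pq.L [1,2] 11 (Pf.C 0 0x20214386))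
 (Pq.cons (Pq.L [] 0 (Pf.C 84 0x1c305))
 (Pq.cons (Pq.L [] 11 (Pf.C 85 0x1c305))
 (Pq.cons (Pq.L [] 0 (Pf.C 86 0x1c305))
 (Pq.cons (Pq.L [] 0 (Pf.C 87 0x1c305))
 (Pq.cons (Pq.L [1,2] 11 (Pf.C 0 0x20214386))
 Pq.nil))))))) (Pq.cons (Pq.D 2 (Pq.cons (Pq.L [] 0 (Pf.C 84 99205))
 (Pq.cons (Pq.L [0,2] 11 (Pf.C 0 0x20014386))
 (Pq.cons (Pq.L [] 11 (Pf.C 88 0x1c305))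
 (Pq.cons (Pq.L [] 0 (Pf.C 89 0x1c305))
 (Pq.cons (Pq.L [] 0 (Pf.C 90 0x1c305))
 (Pq.cons (Pq.L [0,2] 11 (Pf.C 0 0x20014386))
 Pq.nil))))))) (Pq.cons (Pq.D 2 (Pq.cons (Pq.L [] 11 (Pf.C 85 99205))
 (Pq.cons (Pq.L [] 11 (Pf.C 88 99205))
 (Pq.cons (Pq.L [] 11 (Pf.C 91 0x1c305))
 (Pq.cons (Pq.L [] 11 (Pf.C 92 0x1c305))
 (Pq.cons (Pq.L [] 11 (Pf.C 93 0x1c305))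
 (Pq.cons (Pq.L [] 11 (Pf.C 94 0x1c305))
 Pq.nil))))))) (Pq.cons (Pq.D 2 (Pq.cons (Pq.L [] 0 (Pf.C 86 99205))
 (Pq.cons (Pq.L [] 0 (Pf.C 89 99205))
 (Pq.cons (Pq.L [] 11 (Pf.C 92 99205))
 (Pq.cons (Pq.L [0,2] 11 (Pf.C 0 0x20014386))
 (Pq.cons (Pq.L [] 0 (Pf.C 95 0x1c305))
 (Pq.cons (Pq.L [0,2] 11 (Pf.C 0 0x20014386))
 Pq.nil))))))) (Pq.cons (Pq.D 2 (Pq.cons (Pq.L [] 0 (Pf.C 87 99205))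
 (Pq.cons (Pq.L [] 0 (Pf.C 90 99205))
 (Pq.cons (Pq.L [] 11 (Pf.C 93 99205))
 (Pq.cons (Pq.L [] 0 (Pf.C 95 99205))
 (Pq.cons (Pq.L [0,2] 11 (Pf.C 0 0x20014386))
 (Pq.cons (Pq.L [0,2] 11 (Pf.C 0 0x20014386))
 Pq.nil))))))) (Pq.cons (Pq.D 2 (Pq.cons (Pq.L [1,2] 11 (Pf.C 0 0x20214386))
 (Pq.cons (Pq.L [0,2] 11 (Pf.C 0 0x20014386))
 (Pq.cons (Pq.L [] 11 (Pf.C 94 99205))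
 (Pq.cons (Pq.L [0,2] 11 (Pf.C 0 0x20014386))
 (Pq.cons (Pq.L [0,2] 11 (Pf.C 0 0x20014386))
 (Pq.cons (Pq.L [0,2] 11 (Pf.C 0 0x20014386))
 Pq.nil))))))) Pq.nil))))))) (Pq.cons (Pq.D 1 (Pq.cons (Pq.D 2 (Pq.cons (Pq.L [1,2] 11 (Pf.C 0 0x10414386))
 (Pq.cons (Pq.L [] 11 (Pf.C 96 0x1c305))
 (Pq.cons (Pq.L [] 0 (Pf.C 97 0x1c305))
 (Pq.cons (Pq.L [] 0 (Pf.C 98 0x1c305))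
 (Pq.cons (Pq.L [] 0 (Pf.C 99 0x1c305))
 (Pq.cons (Pq.L [1,2] 11 (Pf.C 0 0x10414386))
 Pq.nil))))))) (Pq.cons (Pq.D 2 (Pq.cons (Pq.L [] 11 (Pf.C 96 99205))
 (Pq.cons (Pq.L [] 11 (Pf.C 100 0x1c305))
 (Pq.cons (Pq.L [] 11 (Pf.C 101 0x1c305))
 (Pq.cons (Pq.L [] 11 (Pf.C 102 0x1c305))
 (Pq.cons (Pq.L [] 11 (Pf.C 103 0x1c305))
 (Pq.cons (Pq.L [] 11 (Pf.C 104 0x1c305))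
 Pq.nil))))))) (Pq.cons (Pq.D 2 (Pq.cons (Pq.L [] 0 (Pf.C 97 99205))
 (Pq.cons (Pq.L [] 11 (Pf.C 101 99205))
 (Pq.cons (Pq.L [0,1] 11 (Pf.C 0 0x10014386))
 (Pq.cons (Pq.L [] 0 (Pf.C 105 0x1c305))
 (Pq.cons (Pq.L [] 0 (Pf.C 106 0x1c305))
 (Pq.cons (Pq.L [0,1] 11 (Pf.C 0 0x10014386))
 Pq.nil))))))) (Pq.cons (Pq.D 2 (Pq.cons (Pq.L [] 0 (Pf.C 98 99205))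
 (Pq.cons (Pq.L [] 11 (Pf.C 102 99205))
 (Pq.cons (Pq.L [] 0 (Pf.C 105 99205))
 (Pq.cons (Pq.L [0,1] 11 (Pf.C 0 0x10014386))
 (Pq.cons (Pq.L [] 0 (Pf.C 107 0x1c305))
 (Pq.cons (Pq.L [0,1] 11 (Pf.C 0 0x10014386))
 Pq.nil))))))) (Pq.cons (Pq.D 2 (Pq.cons (Pq.L [] 0 (Pf.C 99 99205))
 (Pq.cons (Pq.L [] 11 (Pf.C 103 99205))
 (Pq.cons (Pq.L [] 0 (Pf.C 106 99205))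
 (Pq.cons (Pq.L [] 0 (Pf.C 107 99205))
 (Pq.cons (Pq.L [0,1] 11 (Pf.C 0 0x10014386))
 (Pq.cons (Pq.L [0,1] 11 (Pf.C 0 0x10014386))
 Pq.nil))))))) (Pq.cons (Pq.D 2 (Pq.cons (Pq.L [1,2] 11 (Pf.C 0 0x10414386))
 (Pq.cons (Pq.L [] 11 (Pf.C 104 99205))
 (Pq.cons (Pq.L [0,1] 11 (Pf.C 0 0x10014386))
 (Pq.cons (Pq.L [0,1] 11 (Pf.C 0 0x10014386))
 (Pq.cons (Pq.L [0,1] 11 (Pf.C 0 0x10014386))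
 (Pq.cons (Pq.L [0,1] 11 (Pf.C 0 0x10014386))
 Pq.nil))))))) Pq.nil))))))) (Pq.cons (Pq.D 1 (Pq.cons (Pq.D 2 (Pq.cons (Pq.L [] 11 (Pf.C 108 82822))
 (Pq.cons (Pq.L [] 11 (Pf.C 114 0x1c286))
 (Pq.cons (Pq.L [] 11 (Pf.C 115 0x1c286))
 (Pq.cons (Pq.L [] 11 (Pf.C 116 0x1c286))
 (Pq.cons (Pq.L [] 11 (Pf.C 117 0x1c286))
 (Pq.cons (Pq.L [] 11 (Pf.C 118 0x1c286))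
 Pq.nil))))))) (Pq.cons (Pq.D 2 (Pq.cons (Pq.L [] 11 (Pf.C 114 98951))
 (Pq.cons (Pq.L [0,2] 11 (Pf.C 0 0x414386))
 (Pq.cons (Pq.L [] 0 (Pf.C 128 0x1c305))
 (Pq.cons (Pq.L [] 0 (Pf.C 129 0x1c305))
 (Pq.cons (Pq.L [] 0 (Pf.C 130 0x1c305))
 (Pq.cons (Pq.L [0,2] 11 (Pf.C 0 0x414386))
 Pq.nil))))))) (Pq.cons (Pq.D 2 (Pq.cons (Pq.L [] 11 (Pf.C 115 98951))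
 (Pq.cons (Pq.L [] 0 (Pf.C 128 99205))
 (Pq.cons (Pq.L [0,1] 11 (Pf.C 0 0x214386))
 (Pq.cons (Pq.L [] 0 (Pf.C 131 0x1c305))
 (Pq.cons (Pq.L [] 0 (Pf.C 132 0x1c305))
 (Pq.cons (Pq.L [0,1] 11 (Pf.C 0 0x214386))
 Pq.nil))))))) (Pq.cons (Pq.D 2 (Pq.cons (Pq.L [] 11 (Pf.C 116 98951))
 (Pq.cons (Pq.L [] 0 (Pf.C 129 99205))
 (Pq.cons (Pq.L [] 0 (Pf.C 131 99205))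
 (Pq.cons (Pq.L [0,1] 11 (Pf.C 0 0x214386))
 (Pq.cons (Pq.L [] 0 (Pf.C 133 0x1c305))
 (Pq.cons (Pq.L [0,1] 11 (Pf.C 0 0x214386))
 Pq.nil))))))) (Pq.cons (Pq.D 2 (Pq.cons (Pq.L [] 11 (Pf.C 117 98951))
 (Pq.cons (Pq.L [] 0 (Pf.C 130 99205))
 (Pq.cons (Pq.L [] 0 (Pf.C 132 99205))
 (Pq.cons (Pq.L [] 0 (Pf.C 133 99205))
 (Pq.cons (Pq.L [0,1] 11 (Pf.C 0 0x214386))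
 (Pq.cons (Pq.L [0,1] 11 (Pf.C 0 0x214386))
 Pq.nil))))))) (Pq.cons (Pq.D 2 (Pq.cons (Pq.L [] 11 (Pf.C 118 98951))
 (Pq.cons (Pq.L [0,2] 11 (Pf.C 0 0x414386))
 (Pq.cons (Pq.L [0,1] 11 (Pf.C 0 0x214386))
 (Pq.cons (Pq.L [0,1] 11 (Pf.C 0 0x214386))
 (Pq.cons (Pq.L [0,1] 11 (Pf.C 0 0x214386))
 (Pq.cons (Pq.L [0,1] 11 (Pf.C 0 0x214386))
 Pq.nil))))))) Pq.nil))))))) Pq.nil))))))) Pq.nil)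
theorem h_o30 : AllRef h_T h_G13 (List.take 1 (List.drop 5 (applyObl hh_T 7 [27,39,40,41,42,43,44,45,46,47,48,49] [1,1,1,1,1,2,1,2,2,2,2,2] []))) :=
  chkPq_sound h_o30c _ (by decide +kernel)
noncomputable def h_o31c : Pq := (Pq.cons (Pq.D 0 (Pq.cons (Pq.D 1 (Pq.cons (Pq.D 2 (Pq.cons (Pq.D 3 (Pq.cons (Pq.L [1] 63 (Pf.C 0 0x71018085))
 (Pq.cons (Pq.L [] 21 (Pf.C 109 0x20305))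
 (Pq.cons (Pq.L [] 21 (Pf.C 110 0x20305))
 (Pq.cons (Pq.L [] 21 (Pf.C 111 0x20305))
 (Pq.cons (Pq.L [] 21 (Pf.C 112 0x20305))
 (Pq.cons (Pq.L [] 21 (Pf.C 113 0x20305))
 Pq.nil))))))) (Pq.cons (Pq.L [1,2] 11 (Pf.C 0 0x70208305))
 (Pq.cons (Pq.L [1,2] 11 (Pf.C 0 0x70404305))
 (Pq.cons (Pq.L [1,3] 11 (Pf.C 0 0x70604305))
 (Pq.cons (Pq.L [1,4] 11 (Pf.C 0 0x70804305))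
 (Pq.cons (Pq.D 3 (Pq.cons (Pq.L [] 38 (Pf.C 113 0x1c405))
 (Pq.cons (Pq.L [] 21 (Pf.C 109 0x20305))
 (Pq.cons (Pq.L [] 21 (Pf.C 110 0x20305))
 (Pq.cons (Pq.L [] 21 (Pf.C 111 0x20305))
 (Pq.cons (Pq.L [] 21 (Pf.C 112 0x20305))
 (Pq.cons (Pq.L [] 21 (Pf.C 113 0x20305))
 Pq.nil))))))) Pq.nil))))))) (Pq.cons (Pq.D 2 (Pq.cons (Pq.L [1,2] 11 (Pf.C 0 0x60208385))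
 (Pq.cons (Pq.L [0,2] 11 (Pf.C 0 0x20014386))
 (Pq.cons (Pq.L [2,3] 11 (Pf.C 0 0x7040c305))
 (Pq.cons (Pq.L [2,3] 11 (Pf.C 0 0x70608305))
 (Pq.cons (Pq.L [2,4] 11 (Pf.C 0 0x70808305))
 (Pq.cons (Pq.L [1,2] 11 (Pf.C 0 0x60208385))
 Pq.nil))))))) (Pq.cons (Pq.D 2 (Pq.cons (Pq.L [1,2] 11 (Pf.C 0 0x60404385))
 (Pq.cons (Pq.L [1,3] 11 (Pf.C 0 0x7020c305))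
 (Pq.cons (Pq.L [0,1] 11 (Pf.C 0 0x10014386))
 (Pq.cons (Pq.L [1,3] 11 (Pf.C 0 0x70604305))
 (Pq.cons (Pq.L [1,4] 11 (Pf.C 0 0x70804305))
 (Pq.cons (Pq.L [1,2] 11 (Pf.C 0 0x60404385))
 Pq.nil))))))) (Pq.cons (Pq.D 2 (Pq.cons (Pq.L [1,3] 11 (Pf.C 0 0x60604385))
 (Pq.cons (Pq.L [1,2] 11 (Pf.C 0 0x70208305))
 (Pq.cons (Pq.L [1,2] 11 (Pf.C 0 0x70404305))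
 (Pq.cons (Pq.L [0,1] 11 (Pf.C 0 0x10014386))
 (Pq.cons (Pq.L [1,4] 11 (Pf.C 0 0x70804305))
 (Pq.cons (Pq.L [1,3] 11 (Pf.C 0 0x60604385))
 Pq.nil))))))) (Pq.cons (Pq.D 2 (Pq.cons (Pq.L [1,4] 11 (Pf.C 0 0x60804385))
 (Pq.cons (Pq.L [1,2] 11 (Pf.C 0 0x70208305))
 (Pq.cons (Pq.L [1,2] 11 (Pf.C 0 0x70404305))
 (Pq.cons (Pq.L [1,3] 11 (Pf.C 0 0x70604305))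
 (Pq.cons (Pq.L [0,1] 11 (Pf.C 0 0x10014386))
 (Pq.cons (Pq.L [1,4] 11 (Pf.C 0 0x60804385))
 Pq.nil))))))) (Pq.cons (Pq.D 2 (Pq.cons (Pq.D 3 (Pq.cons (Pq.L [] 21 (Pf.C 113 99333))
 (Pq.cons (Pq.L [] 38 (Pf.C 109 0x20385))
 (Pq.cons (Pq.L [] 38 (Pf.C 110 0x20385))
 (Pq.cons (Pq.L [] 38 (Pf.C 111 0x20385))
 (Pq.cons (Pq.L [] 38 (Pf.C 112 0x20385))
 (Pq.cons (Pq.L [] 38 (Pf.C 113 0x20385))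
 Pq.nil))))))) (Pq.cons (Pq.L [1,2] 11 (Pf.C 0 0x70208305))
 (Pq.cons (Pq.L [1,2] 11 (Pf.C 0 0x70404305))
 (Pq.cons (Pq.L [1,3] 11 (Pf.C 0 0x70604305))
 (Pq.cons (Pq.L [1,4] 11 (Pf.C 0 0x70804305))
 (Pq.cons (Pq.L [0,1] 11 (Pf.C 0 0x10014386))
 Pq.nil))))))) Pq.nil))))))) (Pq.cons (Pq.D 1 (Pq.cons (Pq.D 2 (Pq.cons (Pq.L [1,2] 11 (Pf.C 0 0x20214386))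
 (Pq.cons (Pq.L [0,2] 11 (Pf.C 0 0x60008385))
 (Pq.cons (Pq.L [2,3] 11 (Pf.C 0 0x7040c305))
 (Pq.cons (Pq.L [2,3] 11 (Pf.C 0 0x70608305))
 (Pq.cons (Pq.L [2,4] 11 (Pf.C 0 0x70808305))
 (Pq.cons (Pq.L [0,2] 11 (Pf.C 0 0x60008385))
 Pq.nil))))))) (Pq.cons (Pq.D 2 (Pq.cons (Pq.L [0,2] 11 (Pf.C 0 0x70008305))
 (Pq.cons (Pq.D 3 (Pq.cons (Pq.L [] 21 (Pf.C 119 98952))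
 (Pq.cons (Pq.L [0] 63 (Pf.C 0 0x71018005))
 (Pq.cons (Pq.L [] 21 (Pf.C 134 0x20305))
 (Pq.cons (Pq.L [] 21 (Pf.C 135 0x20305))
 (Pq.cons (Pq.L [] 21 (Pf.C 136 0x20305))
 (Pq.cons (Pq.L [] 21 (Pf.C 137 0x20305))
 Pq.nil))))))) (Pq.cons (Pq.L [0,2] 11 (Pf.C 0 0x70400305))
 (Pq.cons (Pq.L [0,3] 11 (Pf.C 0 0x70600305))
 (Pq.cons (Pq.L [0,4] 11 (Pf.C 0 0x70800305))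
 (Pq.cons (Pq.D 3 (Pq.cons (Pq.L [] 21 (Pf.C 119 98952))
 (Pq.cons (Pq.L [] 38 (Pf.C 137 0x1c405))
 (Pq.cons (Pq.L [] 21 (Pf.C 134 0x20305))
 (Pq.cons (Pq.L [] 21 (Pf.C 135 0x20305))
 (Pq.cons (Pq.L [] 21 (Pf.C 136 0x20305))
 (Pq.cons (Pq.L [] 21 (Pf.C 137 0x20305))
 Pq.nil))))))) Pq.nil))))))) (Pq.cons (Pq.D 2 (Pq.cons (Pq.L [0,3] 11 (Pf.C 0 0x7000c305))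
 (Pq.cons (Pq.L [0,2] 11 (Pf.C 0 0x60400385))
 (Pq.cons (Pq.L [0,1] 11 (Pf.C 0 0x214386))
 (Pq.cons (Pq.L [0,3] 11 (Pf.C 0 0x70600305))
 (Pq.cons (Pq.L [0,4] 11 (Pf.C 0 0x70800305))
 (Pq.cons (Pq.L [0,2] 11 (Pf.C 0 0x60400385))
 Pq.nil))))))) (Pq.cons (Pq.D 2 (Pq.cons (Pq.L [0,2] 11 (Pf.C 0 0x70008305))
 (Pq.cons (Pq.L [0,3] 11 (Pf.C 0 0x60600385))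
 (Pq.cons (Pq.L [0,2] 11 (Pf.C 0 0x70400305))
 (Pq.cons (Pq.L [0,1] 11 (Pf.C 0 0x214386))
 (Pq.cons (Pq.L [0,4] 11 (Pf.C 0 0x70800305))
 (Pq.cons (Pq.L [0,3] 11 (Pf.C 0 0x60600385))
 Pq.nil))))))) (Pq.cons (Pq.D 2 (Pq.cons (Pq.L [0,2] 11 (Pf.C 0 0x70008305))
 (Pq.cons (Pq.L [0,4] 11 (Pf.C 0 0x60800385))
 (Pq.cons (Pq.L [0,2] 11 (Pf.C 0 0x70400305))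
 (Pq.cons (Pq.L [0,3] 11 (Pf.C 0 0x70600305))
 (Pq.cons (Pq.L [0,1] 11 (Pf.C 0 0x214386))
 (Pq.cons (Pq.L [0,4] 11 (Pf.C 0 0x60800385))
 Pq.nil))))))) (Pq.cons (Pq.D 2 (Pq.cons (Pq.L [0,2] 11 (Pf.C 0 0x70008305))
 (Pq.cons (Pq.D 3 (Pq.cons (Pq.L [] 38 (Pf.C 119 0x1c288))
 (Pq.cons (Pq.L [] 21 (Pf.C 137 99333))
 (Pq.cons (Pq.L [] 38 (Pf.C 134 0x20385))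
 (Pq.cons (Pq.L [] 38 (Pf.C 135 0x20385))
 (Pq.cons (Pq.L [] 38 (Pf.C 136 0x20385))
 (Pq.cons (Pq.L [] 38 (Pf.C 137 0x20385))
 Pq.nil))))))) (Pq.cons (Pq.L [0,2] 11 (Pf.C 0 0x70400305))
 (Pq.cons (Pq.L [0,3] 11 (Pf.C 0 0x70600305))
 (Pq.cons (Pq.L [0,4] 11 (Pf.C 0 0x70800305))
 (Pq.cons (Pq.L [0,1] 11 (Pf.C 0 0x214386))
 Pq.nil))))))) Pq.nil))))))) (Pq.cons (Pq.D 1 (Pq.cons (Pq.D 2 (Pq.cons (Pq.L [1,2] 11 (Pf.C 0 0x10414386))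
 (Pq.cons (Pq.L [1,3] 11 (Pf.C 0 0x7020c305))
 (Pq.cons (Pq.L [0,1] 11 (Pf.C 0 0x60004385))
 (Pq.cons (Pq.L [1,3] 11 (Pf.C 0 0x70604305))
 (Pq.cons (Pq.L [1,4] 11 (Pf.C 0 0x70804305))
 (Pq.cons (Pq.L [0,1] 11 (Pf.C 0 0x60004385))
 Pq.nil))))))) (Pq.cons (Pq.D 2 (Pq.cons (Pq.L [0,3] 11 (Pf.C 0 0x7000c305))
 (Pq.cons (Pq.L [0,2] 11 (Pf.C 0 0x414386))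
 (Pq.cons (Pq.L [0,1] 11 (Pf.C 0 0x60200385))
 (Pq.cons (Pq.L [0,3] 11 (Pf.C 0 0x70600305))
 (Pq.cons (Pq.L [0,4] 11 (Pf.C 0 0x70800305))
 (Pq.cons (Pq.L [0,1] 11 (Pf.C 0 0x60200385))
 Pq.nil))))))) (Pq.cons (Pq.D 2 (Pq.cons (Pq.L [0,1] 11 (Pf.C 0 0x70004305))
 (Pq.cons (Pq.L [0,1] 11 (Pf.C 0 0x70200305))
 (Pq.cons (Pq.D 3 (Pq.cons (Pq.L [] 21 (Pf.C 121 98952))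
 (Pq.cons (Pq.L [] 21 (Pf.C 138 98952))
 (Pq.cons (Pq.L [0] 63 (Pf.C 0 0x71018005))
 (Pq.cons (Pq.L [] 21 (Pf.C 145 0x20305))
 (Pq.cons (Pq.L [] 21 (Pf.C 146 0x20305))
 (Pq.cons (Pq.L [] 21 (Pf.C 147 0x20305))
 Pq.nil))))))) (Pq.cons (Pq.L [0,3] 11 (Pf.C 0 0x70600305))
 (Pq.cons (Pq.L [0,4] 11 (Pf.C 0 0x70800305))
 (Pq.cons (Pq.D 3 (Pq.cons (Pq.L [] 21 (Pf.C 121 98952))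
 (Pq.cons (Pq.L [] 21 (Pf.C 138 98952))
 (Pq.cons (Pq.L [] 38 (Pf.C 147 0x1c405))
 (Pq.cons (Pq.L [] 21 (Pf.C 145 0x20305))
 (Pq.cons (Pq.L [] 21 (Pf.C 146 0x20305))
 (Pq.cons (Pq.L [] 21 (Pf.C 147 0x20305))
 Pq.nil))))))) Pq.nil))))))) (Pq.cons (Pq.D 2 (Pq.cons (Pq.L [0,1] 11 (Pf.C 0 0x70004305))
 (Pq.cons (Pq.L [0,1] 11 (Pf.C 0 0x70200305))
 (Pq.cons (Pq.L [0,3] 11 (Pf.C 0 0x60600385))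
 (Pq.cons (Pq.L [0,2] 11 (Pf.C 0 0x414386))
 (Pq.cons (Pq.L [0,4] 11 (Pf.C 0 0x70800305))
 (Pq.cons (Pq.L [0,3] 11 (Pf.C 0 0x60600385))
 Pq.nil))))))) (Pq.cons (Pq.D 2 (Pq.cons (Pq.L [0,1] 11 (Pf.C 0 0x70004305))
 (Pq.cons (Pq.L [0,1] 11 (Pf.C 0 0x70200305))
 (Pq.cons (Pq.L [0,4] 11 (Pf.C 0 0x60800385))
 (Pq.cons (Pq.L [0,3] 11 (Pf.C 0 0x70600305))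
 (Pq.cons (Pq.L [0,2] 11 (Pf.C 0 0x414386))
 (Pq.cons (Pq.L [0,4] 11 (Pf.C 0 0x60800385))
 Pq.nil))))))) (Pq.cons (Pq.D 2 (Pq.cons (Pq.L [0,1] 11 (Pf.C 0 0x70004305))
 (Pq.cons (Pq.L [0,1] 11 (Pf.C 0 0x70200305))
 (Pq.cons (Pq.D 3 (Pq.cons (Pq.L [] 38 (Pf.C 121 0x1c288))
 (Pq.cons (Pq.L [] 38 (Pf.C 138 0x1c288))
 (Pq.cons (Pq.L [] 21 (Pf.C 147 99333))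
 (Pq.cons (Pq.L [] 38 (Pf.C 145 0x20385))
 (Pq.cons (Pq.L [] 38 (Pf.C 146 0x20385))
 (Pq.cons (Pq.L [] 38 (Pf.C 147 0x20385))
 Pq.nil))))))) (Pq.cons (Pq.L [0,3] 11 (Pf.C 0 0x70600305))
 (Pq.cons (Pq.L [0,4] 11 (Pf.C 0 0x70800305))
 (Pq.cons (Pq.L [0,2] 11 (Pf.C 0 0x414386))
 Pq.nil))))))) Pq.nil))))))) (Pq.cons (Pq.D 1 (Pq.cons (Pq.D 2 (Pq.cons (Pq.L [1,3] 11 (Pf.C 0 0x10614386))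
 (Pq.cons (Pq.L [1,2] 11 (Pf.C 0 0x70208305))
 (Pq.cons (Pq.L [1,2] 11 (Pf.C 0 0x70404305))
 (Pq.cons (Pq.L [0,1] 11 (Pf.C 0 0x60004385))
 (Pq.cons (Pq.L [1,4] 11 (Pf.C 0 0x70804305))
 (Pq.cons (Pq.L [0,1] 11 (Pf.C 0 0x60004385))
 Pq.nil))))))) (Pq.cons (Pq.D 2 (Pq.cons (Pq.L [0,2] 11 (Pf.C 0 0x70008305))
 (Pq.cons (Pq.L [0,3] 11 (Pf.C 0 0x614386))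
 (Pq.cons (Pq.L [0,2] 11 (Pf.C 0 0x70400305))
 (Pq.cons (Pq.L [0,1] 11 (Pf.C 0 0x60200385))
 (Pq.cons (Pq.L [0,4] 11 (Pf.C 0 0x70800305))
 (Pq.cons (Pq.L [0,1] 11 (Pf.C 0 0x60200385))
 Pq.nil))))))) (Pq.cons (Pq.D 2 (Pq.cons (Pq.L [0,1] 11 (Pf.C 0 0x70004305))
 (Pq.cons (Pq.L [0,1] 11 (Pf.C 0 0x70200305))
 (Pq.cons (Pq.L [0,3] 11 (Pf.C 0 0x614386))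
 (Pq.cons (Pq.L [0,2] 11 (Pf.C 0 0x60400385))
 (Pq.cons (Pq.L [0,4] 11 (Pf.C 0 0x70800305))
 (Pq.cons (Pq.L [0,2] 11 (Pf.C 0 0x60400385))
 Pq.nil))))))) (Pq.cons (Pq.D 2 (Pq.cons (Pq.L [0,1] 11 (Pf.C 0 0x70004305))
 (Pq.cons (Pq.L [0,1] 11 (Pf.C 0 0x70200305))
 (Pq.cons (Pq.L [0,2] 11 (Pf.C 0 0x70400305))
 (Pq.cons (Pq.D 3 (Pq.cons (Pq.L [] 21 (Pf.C 123 98952))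
 (Pq.cons (Pq.L [] 21 (Pf.C 140 98952))
 (Pq.cons (Pq.L [] 21 (Pf.C 148 98952))
 (Pq.cons (Pq.L [0] 63 (Pf.C 0 0x71018005))
 (Pq.cons (Pq.L [] 21 (Pf.C 153 0x20305))
 (Pq.cons (Pq.L [] 21 (Pf.C 154 0x20305))
 Pq.nil))))))) (Pq.cons (Pq.L [0,4] 11 (Pf.C 0 0x70800305))
 (Pq.cons (Pq.D 3 (Pq.cons (Pq.L [] 21 (Pf.C 123 98952))
 (Pq.cons (Pq.L [] 21 (Pf.C 140 98952))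
 (Pq.cons (Pq.L [] 21 (Pf.C 148 98952))
 (Pq.cons (Pq.L [] 38 (Pf.C 154 0x1c405))
 (Pq.cons (Pq.L [] 21 (Pf.C 153 0x20305))
 (Pq.cons (Pq.L [] 21 (Pf.C 154 0x20305))
 Pq.nil))))))) Pq.nil))))))) (Pq.cons (Pq.D 2 (Pq.cons (Pq.L [0,1] 11 (Pf.C 0 0x70004305))
 (Pq.cons (Pq.L [0,1] 11 (Pf.C 0 0x70200305))
 (Pq.cons (Pq.L [0,2] 11 (Pf.C 0 0x70400305))
 (Pq.cons (Pq.L [0,4] 11 (Pf.C 0 0x60800385))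
 (Pq.cons (Pq.L [0,3] 11 (Pf.C 0 0x614386))
 (Pq.cons (Pq.L [0,4] 11 (Pf.C 0 0x60800385))
 Pq.nil))))))) (Pq.cons (Pq.D 2 (Pq.cons (Pq.L [0,1] 11 (Pf.C 0 0x70004305))
 (Pq.cons (Pq.L [0,1] 11 (Pf.C 0 0x70200305))
 (Pq.cons (Pq.L [0,2] 11 (Pf.C 0 0x70400305))
 (Pq.cons (Pq.D 3 (Pq.cons (Pq.L [] 38 (Pf.C 123 0x1c288))
 (Pq.cons (Pq.L [] 38 (Pf.C 140 0x1c288))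
 (Pq.cons (Pq.L [] 38 (Pf.C 148 0x1c288))
 (Pq.cons (Pq.L [] 21 (Pf.C 154 99333))
 (Pq.cons (Pq.L [] 38 (Pf.C 153 0x20385))
 (Pq.cons (Pq.L [] 38 (Pf.C 154 0x20385))
 Pq.nil))))))) (Pq.cons (Pq.L [0,4] 11 (Pf.C 0 0x70800305))
 (Pq.cons (Pq.L [0,3] 11 (Pf.C 0 0x614386))
 Pq.nil))))))) Pq.nil))))))) (Pq.cons (Pq.D 1 (Pq.cons (Pq.D 2 (Pq.cons (Pq.L [1,4] 11 (Pf.C 0 0x10814386))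
 (Pq.cons (Pq.L [1,2] 11 (Pf.C 0 0x70208305))
 (Pq.cons (Pq.L [1,2] 11 (Pf.C 0 0x70404305))
 (Pq.cons (Pq.L [1,3] 11 (Pf.C 0 0x70604305))
 (Pq.cons (Pq.L [0,1] 11 (Pf.C 0 0x60004385))
 (Pq.cons (Pq.L [0,1] 11 (Pf.C 0 0x60004385))
 Pq.nil))))))) (Pq.cons (Pq.D 2 (Pq.cons (Pq.L [0,2] 11 (Pf.C 0 0x70008305))
 (Pq.cons (Pq.L [0,4] 11 (Pf.C 0 0x814386))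
 (Pq.cons (Pq.L [0,2] 11 (Pf.C 0 0x70400305))
 (Pq.cons (Pq.L [0,3] 11 (Pf.C 0 0x70600305))
 (Pq.cons (Pq.L [0,1] 11 (Pf.C 0 0x60200385))
 (Pq.cons (Pq.L [0,1] 11 (Pf.C 0 0x60200385))
 Pq.nil))))))) (Pq.cons (Pq.D 2 (Pq.cons (Pq.L [0,1] 11 (Pf.C 0 0x70004305))
 (Pq.cons (Pq.L [0,1] 11 (Pf.C 0 0x70200305))
 (Pq.cons (Pq.L [0,4] 11 (Pf.C 0 0x814386))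
 (Pq.cons (Pq.L [0,3] 11 (Pf.C 0 0x70600305))
 (Pq.cons (Pq.L [0,2] 11 (Pf.C 0 0x60400385))
 (Pq.cons (Pq.L [0,2] 11 (Pf.C 0 0x60400385))
 Pq.nil))))))) (Pq.cons (Pq.D 2 (Pq.cons (Pq.L [0,1] 11 (Pf.C 0 0x70004305))
 (Pq.cons (Pq.L [0,1] 11 (Pf.C 0 0x70200305))
 (Pq.cons (Pq.L [0,2] 11 (Pf.C 0 0x70400305))
 (Pq.cons (Pq.L [0,4] 11 (Pf.C 0 0x814386))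
 (Pq.cons (Pq.L [0,3] 11 (Pf.C 0 0x60600385))
 (Pq.cons (Pq.L [0,3] 11 (Pf.C 0 0x60600385))
 Pq.nil))))))) (Pq.cons (Pq.D 2 (Pq.cons (Pq.L [0,1] 11 (Pf.C 0 0x70004305))
 (Pq.cons (Pq.L [0,1] 11 (Pf.C 0 0x70200305))
 (Pq.cons (Pq.L [0,2] 11 (Pf.C 0 0x70400305))
 (Pq.cons (Pq.L [0,3] 11 (Pf.C 0 0x70600305))
 (Pq.cons (Pq.D 3 (Pq.cons (Pq.L [] 21 (Pf.C 125 98952))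
 (Pq.cons (Pq.L [] 21 (Pf.C 142 98952))
 (Pq.cons (Pq.L [] 21 (Pf.C 150 98952))
 (Pq.cons (Pq.L [] 21 (Pf.C 155 98952))
 (Pq.cons (Pq.L [0] 63 (Pf.C 0 0x71018005))
 (Pq.cons (Pq.L [] 21 (Pf.C 158 0x20305))
 Pq.nil))))))) (Pq.cons (Pq.D 3 (Pq.cons (Pq.L [] 21 (Pf.C 125 98952))
 (Pq.cons (Pq.L [] 21 (Pf.C 142 98952))
 (Pq.cons (Pq.L [] 21 (Pf.C 150 98952))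
 (Pq.cons (Pq.L [] 21 (Pf.C 155 98952))
 (Pq.cons (Pq.L [] 38 (Pf.C 158 0x1c405))
 (Pq.cons (Pq.L [] 21 (Pf.C 158 0x20305))
 Pq.nil))))))) Pq.nil))))))) (Pq.cons (Pq.D 2 (Pq.cons (Pq.L [0,1] 11 (Pf.C 0 0x70004305))
 (Pq.cons (Pq.L [0,1] 11 (Pf.C 0 0x70200305))
 (Pq.cons (Pq.L [0,2] 11 (Pf.C 0 0x70400305))
 (Pq.cons (Pq.L [0,3] 11 (Pf.C 0 0x70600305))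
 (Pq.cons (Pq.D 3 (Pq.cons (Pq.L [] 38 (Pf.C 125 0x1c288))
 (Pq.cons (Pq.L [] 38 (Pf.C 142 0x1c288))
 (Pq.cons (Pq.L [] 38 (Pf.C 150 0x1c288))
 (Pq.cons (Pq.L [] 38 (Pf.C 155 0x1c288))
 (Pq.cons (Pq.L [] 21 (Pf.C 158 99333))
 (Pq.cons (Pq.L [] 38 (Pf.C 158 0x20385))
 Pq.nil))))))) (Pq.cons (Pq.L [0,4] 11 (Pf.C 0 0x814386))
 Pq.nil))))))) Pq.nil))))))) (Pq.cons (Pq.D 1 (Pq.cons (Pq.D 2 (Pq.cons (Pq.D 3 (Pq.cons (Pq.L [1] 63 (Pf.C 0 0x71018085))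
 (Pq.cons (Pq.L [] 21 (Pf.C 120 82950))
 (Pq.cons (Pq.L [] 21 (Pf.C 122 82950))
 (Pq.cons (Pq.L [] 21 (Pf.C 124 82950))
 (Pq.cons (Pq.L [] 21 (Pf.C 126 82950))
 (Pq.cons (Pq.L [] 21 (Pf.C 127 0x20286))
 Pq.nil))))))) (Pq.cons (Pq.L [1,2] 11 (Pf.C 0 0x70208305))
 (Pq.cons (Pq.L [1,2] 11 (Pf.C 0 0x70404305))
 (Pq.cons (Pq.L [1,3] 11 (Pf.C 0 0x70604305))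
 (Pq.cons (Pq.L [1,4] 11 (Pf.C 0 0x70804305))
 (Pq.cons (Pq.L [0,1] 11 (Pf.C 0 0x60004385))
 Pq.nil))))))) (Pq.cons (Pq.D 2 (Pq.cons (Pq.L [0,2] 11 (Pf.C 0 0x70008305))
 (Pq.cons (Pq.D 3 (Pq.cons (Pq.L [] 21 (Pf.C 120 82696))
 (Pq.cons (Pq.L [0] 63 (Pf.C 0 0x71018005))
 (Pq.cons (Pq.L [] 21 (Pf.C 139 82950))
 (Pq.cons (Pq.L [] 21 (Pf.C 141 82950))
 (Pq.cons (Pq.L [] 21 (Pf.C 143 82950))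
 (Pq.cons (Pq.L [] 21 (Pf.C 144 0x20286))
 Pq.nil))))))) (Pq.cons (Pq.L [0,2] 11 (Pf.C 0 0x70400305))
 (Pq.cons (Pq.L [0,3] 11 (Pf.C 0 0x70600305))
 (Pq.cons (Pq.L [0,4] 11 (Pf.C 0 0x70800305))
 (Pq.cons (Pq.L [0,1] 11 (Pf.C 0 0x60200385))
 Pq.nil))))))) (Pq.cons (Pq.D 2 (Pq.cons (Pq.L [0,1] 11 (Pf.C 0 0x70004305))
 (Pq.cons (Pq.L [0,1] 11 (Pf.C 0 0x70200305))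
 (Pq.cons (Pq.D 3 (Pq.cons (Pq.L [] 21 (Pf.C 122 82696))
 (Pq.cons (Pq.L [] 21 (Pf.C 139 82696))
 (Pq.cons (Pq.L [0] 63 (Pf.C 0 0x71018005))
 (Pq.cons (Pq.L [] 21 (Pf.C 149 82950))
 (Pq.cons (Pq.L [] 21 (Pf.C 151 82950))
 (Pq.cons (Pq.L [] 21 (Pf.C 152 0x20286))
 Pq.nil))))))) (Pq.cons (Pq.L [0,3] 11 (Pf.C 0 0x70600305))
 (Pq.cons (Pq.L [0,4] 11 (Pf.C 0 0x70800305))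
 (Pq.cons (Pq.L [0,2] 11 (Pf.C 0 0x60400385))
 Pq.nil))))))) (Pq.cons (Pq.D 2 (Pq.cons (Pq.L [0,1] 11 (Pf.C 0 0x70004305))
 (Pq.cons (Pq.L [0,1] 11 (Pf.C 0 0x70200305))
 (Pq.cons (Pq.L [0,2] 11 (Pf.C 0 0x70400305))
 (Pq.cons (Pq.D 3 (Pq.cons (Pq.L [] 21 (Pf.C 124 82696))
 (Pq.cons (Pq.L [] 21 (Pf.C 141 82696))
 (Pq.cons (Pq.L [] 21 (Pf.C 149 82696))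
 (Pq.cons (Pq.L [0] 63 (Pf.C 0 0x71018005))
 (Pq.cons (Pq.L [] 21 (Pf.C 156 82950))
 (Pq.cons (Pq.L [] 21 (Pf.C 157 0x20286))
 Pq.nil))))))) (Pq.cons (Pq.L [0,4] 11 (Pf.C 0 0x70800305))
 (Pq.cons (Pq.L [0,3] 11 (Pf.C 0 0x60600385))
 Pq.nil))))))) (Pq.cons (Pq.D 2 (Pq.cons (Pq.L [0,1] 11 (Pf.C 0 0x70004305))
 (Pq.cons (Pq.L [0,1] 11 (Pf.C 0 0x70200305))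
 (Pq.cons (Pq.L [0,2] 11 (Pf.C 0 0x70400305))
 (Pq.cons (Pq.L [0,3] 11 (Pf.C 0 0x70600305))
 (Pq.cons (Pq.D 3 (Pq.cons (Pq.L [] 21 (Pf.C 126 82696))
 (Pq.cons (Pq.L [] 21 (Pf.C 143 82696))
 (Pq.cons (Pq.L [] 21 (Pf.C 151 82696))
 (Pq.cons (Pq.L [] 21 (Pf.C 156 82696))
 (Pq.cons (Pq.L [0] 63 (Pf.C 0 0x71018005))
 (Pq.cons (Pq.L [] 21 (Pf.C 159 0x20286))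
 Pq.nil))))))) (Pq.cons (Pq.L [0,4] 11 (Pf.C 0 0x60800385))
 Pq.nil))))))) (Pq.cons (Pq.D 2 (Pq.cons (Pq.L [0,1] 11 (Pf.C 0 0x70004305))
 (Pq.cons (Pq.L [0,1] 11 (Pf.C 0 0x70200305))
 (Pq.cons (Pq.L [0,2] 11 (Pf.C 0 0x70400305))
 (Pq.cons (Pq.L [0,3] 11 (Pf.C 0 0x70600305))
 (Pq.cons (Pq.L [0,4] 11 (Pf.C 0 0x70800305))
 (Pq.cons (Pq.D 3 (Pq.cons (Pq.L [] 21 (Pf.C 127 98952))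
 (Pq.cons (Pq.L [] 21 (Pf.C 144 98952))
 (Pq.cons (Pq.L [] 21 (Pf.C 152 98952))
 (Pq.cons (Pq.L [] 21 (Pf.C 157 98952))
 (Pq.cons (Pq.L [] 21 (Pf.C 159 98952))
 (Pq.cons (Pq.L [0] 63 (Pf.C 0 0x71018005))
 Pq.nil))))))) Pq.nil))))))) Pq.nil))))))) Pq.nil))))))) Pq.nil)
theorem h_o31 : AllRef h_T h_G13 (List.drop 1 (List.drop 5 (applyObl hh_T 7 [27,39,40,41,42,43,44,45,46,47,48,49] [1,1,1,1,1,2,1,2,2,2,2,2] []))) :=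
  chkPq_sound h_o31c _ (by decide +kernel)

end Pool.Agent.Lib.MP_849b2e_co
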