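import Pool.Agent.Lib.MP_849b2e_co.AllR
import Pool.Agent.Lib.MP_849b2e_co.Th
import Pool.Agent.Lib.MP_849b2e_co.Oh_0
import Pool.Agent.Lib.MP_849b2e_co.Oh_1
import Pool.Agent.Lib.MP_849b2e_co.Lhh

set_option maxRecDepth 100000
set_option linter.all false
namespace Pool.Agent.Lib.MP_849b2e_co

theorem h_n16  : Bd h_T h_G13 [27,39,40,41,42,43,44,45,46,47,48,49] :=
  r_apply lem_hh [1,1,1,1,1,2,1,2,2,2,2,2] [] (by decide +kernel) (allRef_split 5 h_o29 (allRef_split 1 h_o30 h_o31))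
theorem h_n15  : Bd h_T h_G12 [27,28,29,30,31,32,33,34,35,36,37,38] :=
  r_hit [28,29,30,31,32,33,34,35,36,37,38] h_h15 ⟨39,[],[0,61,62,63,64,0,0,65,66,67,0,0,68,69,0,0,70,0,0,71,72,0,0,73,74,75,76,0,0,77,78,79,0,0,80,81,0,0,82,83,84,0,0,0,0,85,86,87,88,0,0,89,90,91,0,0,92,93,94,95,96,0,0,0,0,0,0,97,98,99,100,0,0,101,102,103,104,105,106,107,0,0,108,0,0,0,0,0,109,110,111,112,113,114,115,116,117,118,119,120,0,0,0,0,0,0,0,0,0,0,0,121,122,0,0,0,0,0,0,0,0,123,124,0,0,0,0,0,125,126,0,0,127,128,0,129,130,131,0,0,132,133,0,0,134,0,0,0,0,0,135,136,137,138,139,0,0,0,0,0,0,0,0,140,141,0,0,0,0,0,142,143,0,0,144,145,146,147,148,149,0,0,0,0,0,150,151,0,0,152,153,154,155,156,0,0,157,158,159,160],[]⟩ h_G13 [27,39,40,41,42,43,44,45,46,47,48,49] (by decide +kernel) (allRef_split 176 (allRef_split 120 (allRef_split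 81 h_o21 h_o22) (allRef_split 26 h_o23 h_o24)) (allRef_split 66 (allRef_split 36 h_o25 h_o26) (allRef_split 26 h_o27 h_o28))) h_n16
theorem h_n14  : Bd h_T h_G12 [0] :=
  r_act [2,3] [27,28,29,30,31,32,33,34,35,36,37,38] (by decide +kernel) h_n15
theorem h_n13  : Bd h_T h_G11 [0] :=
  r_psplit 26 [] (PT.br 0 (PT.br 1 (PT.br 2 (PT.br 3 (PT.br 4 PT.kid PT.kid) (PT.br 4 PT.kid PT.ref)) (PT.br 3 (PT.br 4 PT.kid PT.ref) PT.ref)) (PT.br 2 (PT.br 3 (PT.br 4 PT.kid PT.ref) PT.ref) (PT.br 3 PT.ref (PT.br 4 PT.ref PT.kid)))) (PT.br 1 (PT.br 2 (PT.br 3 (PT.br 4 PT.kid PT.ref) PT.ref) (PT.br 3 PT.ref (PT.br 4 PT.ref PT.kid))) (PT.br 2 (PT.br 3 PT.ref (PT.br 4 PT.ref PT.kid)) (PT.br 3 (PT.br 4 PT.ref PT.kid) (PT.br 4 PT.kid PT.kid))))) ⟨27,[4],[],[]⟩ h_G12 [0] (by decide +kernel) h_o20 h_n14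
theorem h_n12  : Bd h_T h_G1 [0] :=
  r_psplit 0 [0,1,2,3,4] PT.kid ⟨26,[3],[],[]⟩ h_G11 [0] (by decide +kernel) h_o19 h_n13
theorem h_n11  : Bd h_T h_G10 [20,21,22,23,24,25,14] :=
  r_apply lem_hh [2,2,2,2,2,2,1] [(20,0x3f04000),(21,0x3f04000),(22,0x3f04000),(23,0x3f04000),(24,0x3f04000),(25,0x3f04000),(14,0x3f04000)] (by decide +kernel) (allRef_split 6 h_o17 h_o18)
theorem h_n10  : Bd h_T h_G9 [3,4,5,6,7,9,14] :=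
  r_hit [3,4,5,6,7,9] h_h10 ⟨20,[],[11,0,0,12,0,0,13,0,0,14,0,0,15,0,0,16,0,0,17,18,19,20,21,0,0,22,23,24,25,0,0,26,27,28,0,0,29,30,0,0,31,0,0,32,0,0,33,0,0,34,0,0,35,0,0,36,37,38,39,0,0,40,41,42,0,0,43,44,0,0,45,0,0,46,0,0,47,0,0,48,0,0,49,50,51,0,0,52,53,0,0,54,0,0,55,0,0,56,0,0,57,58,0,0,59,0,0,60],[]⟩ h_G10 [20,21,22,23,24,25,14] (by decide +kernel) (allRef_split 167 (allRef_split 83 (allRef_split 43 h_o6 h_o7) (allRef_split 38 h_o8 (allRef_split 19 h_o9 h_o10))) (allRef_split 84 (allRef_split 40 h_o11 h_o12) (allRef_split 43 (allRef_split 23 h_o13 h_o14) (allRef_split 24 h_o15 h_o16)))) h_n11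
theorem h_n9  : Bd h_T h_G8 [3,4,5,6,7,15,9,16,17,18,19,14] :=
  r_kill [15,16,17,18,19] ⟨20,[],[],[]⟩ h_G9 [3,4,5,6,7,9,14] (by decide +kernel) h_o5 h_n10
theorem h_n8  : Bd h_T h_G7 [3,4,5,6,7,8,9,10,11,12,13,14] :=
  r_hit [8,10,11,12,13] h_h8 ⟨15,[],[6,7,8,9,10],[]⟩ h_G8 [3,4,5,6,7,15,9,16,17,18,19,14] (by decide +kernel) h_o4 h_n9
theorem h_n7  : Bd h_T h_G7 [0] :=
  r_act [0,1] [3,4,5,6,7,8,9,10,11,12,13,14] (by decide +kernel) h_n8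
theorem h_n6  : Bd h_T h_G6 [0] :=
  r_psplit 2 [] (PT.br 0 (PT.br 1 (PT.br 2 (PT.br 3 (PT.br 4 PT.kid PT.kid) (PT.br 4 PT.kid PT.ref)) (PT.br 3 (PT.br 4 PT.kid PT.ref) PT.ref)) (PT.br 2 (PT.br 3 (PT.br 4 PT.kid PT.ref) PT.ref) (PT.br 3 PT.ref (PT.br 4 PT.ref PT.kid)))) (PT.br 1 (PT.br 2 (PT.br 3 (PT.br 4 PT.kid PT.ref) PT.ref) (PT.br 3 PT.ref (PT.br 4 PT.ref PT.kid))) (PT.br 2 (PT.br 3 PT.ref (PT.br 4 PT.ref PT.kid)) (PT.br 3 (PT.br 4 PT.ref PT.kid) (PT.br 4 PT.kid PT.kid))))) ⟨3,[2],[],[]⟩ h_G7 [0] (by decide +kernel) h_o3 h_n7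
theorem h_n5  : Bd h_T h_G3 [0] :=
  r_psplit 0 [0,1,2,3,4] PT.kid ⟨2,[1],[],[]⟩ h_G6 [0] (by decide +kernel) h_o2 h_n6
theorem h_n4  : Bd h_T h_G5 [] :=
  r_empty (by decide +kernel) 
theorem h_n3  : Bd h_T h_G4 [1] :=
  r_kill [1] ⟨2,[],[],[]⟩ h_G5 [] (by decide +kernel) h_o1 h_n4
theorem h_n2  : Bd h_T h_G2 [0] :=
  r_hit [0] h_h2 ⟨1,[],[5],[]⟩ h_G4 [1] (by decide +kernel) h_o0 h_n3
theorem h_n1  : Bd h_T h_G0 [0] :=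
  r_case [0,0,0,0,0] [⟨0,1,true⟩,⟨0,2,true⟩,⟨0,3,true⟩,⟨0,4,true⟩,⟨1,2,true⟩,⟨1,3,true⟩,⟨1,4,true⟩,⟨2,3,true⟩,⟨2,4,true⟩,⟨3,4,true⟩] [] ⟨1,[],[4],[]⟩ h_G2 [0] h_G3 [0] (by decide +kernel) h_n2 h_n5
theorem h_n0  : Bd h_T (pureCtx 0 2) (pureAct 0) :=
  show Bd _ _ [0] from r_case [0,0,0,0,0] [⟨0,1,false⟩,⟨0,2,false⟩,⟨0,3,false⟩,⟨0,4,false⟩,⟨1,2,false⟩,⟨1,3,false⟩,⟨1,4,false⟩,⟨2,3,false⟩,⟨2,4,false⟩,⟨3,4,false⟩] [] ⟨1,[],[3],[]⟩ h_G0 [0] h_G1 [0] (by decide +kernel) h_n1 h_n12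
theorem lem_h  : Lem h_T 0 2 := ⟨by decide +kernel, h_n0⟩

end Pool.Agent.Lib.MP_849b2e_co
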