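import Pool.Agent.Lib.MP_849b2e_co.Init

/-!
Soundness of the simple rules.
-/

namespace Pool.Agent.Lib.MP_849b2e_co

variable {T : Tab} {Γ : Ctx} {A : List ℕ}

theorem easy_emb {e : Env} {nt b : ℕ} {ts : List (List ℕ)} {lits : List Lit} {x : ℕ → ℕ}
    (h : Emb (e.ext nt b fun _ => ∅) (cl (ts.map mask) lits) x) :
    ∃ τ, PEmb e ⟨ts, lits, [], []⟩ x τ := by
  obtain ⟨h1, h2, h3⟩ := h
  have hl : (cl (ts.map mask) lits).ts.length = ts.length := by simp [cl]
  have k : ∀ i, ∃ t, i < ts.length → t ∈ ts.getD i [] ∧ x i ∈ e.U t := by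
    intro i
    by_cases hi : i < ts.length
    · obtain ⟨t, ht, hv⟩ := h1 i (by rwa [hl])
      refine ⟨t, fun _ => ⟨?_, (e.ext_empty nt b hv).2⟩⟩
      have e1 : (cl (ts.map mask) lits).ts.getD i 0 = mask (ts.getD i []) := by
        simp [cl, List.getD_eq_getElem?_getD, hi]
      rw [e1, testBit_mask] at ht
      simpa using ht
    · exact ⟨0, fun c => absurd c hi⟩
  choose τ hτ using k
  refine ⟨τ, hτ, fun i hi j hj => h2 i (by rwa [hl]) j (by rwa [hl]), fun l hl' => ?_,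
    fun l hl' => by simp at hl'⟩
  have e1 : flipOf [] (τ l.i) (τ l.j) = false := by
    have : look [] (τ l.i) = 0 := rfl
    simp [flipOf, this]
  have := h3 l hl'
  simp only [Env.ext_E] at this
  simp only [e1, this, Bool.xor_false]

theorem easy_axExt {e : Env} {nt b : ℕ} {l : List Ax}
    (h : ∀ a ∈ l, AxHolds (e.ext nt b fun _ => ∅) a) :
    ExtSem e nt b (axExt l) fun _ => ∅ :=
  ⟨fun o ho => absurd ho (by simp [axExt]), fun v hv => absurd hv (by simp [axExt]), h,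
    fun s hs => absurd hs (by simp [axExt]), fun t ht => absurd ht (by simp [axExt])⟩

theorem easy_learn {e : Env} {nt b : ℕ} {ts : List (List ℕ)} {lits : List Lit}
    (h : ∀ x τ, ¬ PEmb e ⟨ts, lits, [], []⟩ x τ) :
    ExtSem e nt b (learnExt ts lits) fun _ => ∅ := by
  refine easy_axExt fun a ha => ?_
  obtain rfl := List.mem_singleton.1 ha
  refine axHolds_cl.2 fun x hx => ?_
  obtain ⟨τ, hτ⟩ := easy_emb hx
  exact h x τ hτ

theorem easy_cut {e : Env} {A1 A2 : List ℕ} (o : AllRef T Γ (splitObl A1 A2)) (H : Holds T Γ e)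
    {Z W : Finset ℕ} (hZ : Z ⊆ e.un A1) (hW : W ⊆ e.un A2) (hd : ∀ v ∈ W, v ∉ Z) :
    Cut e.E Z W A1.length := by
  have k : ∀ u, ∃ i, u ∈ Z → ∃ h : i < A1.length, u ∈ e.U A1[i] := by
    intro u
    by_cases hu : u ∈ Z
    · obtain ⟨a, ha, hv⟩ := Env.mem_un.1 (hZ hu)
      obtain ⟨i, hi, rfl⟩ := List.getElem_of_mem ha
      exact ⟨i, fun _ => ⟨hi, hv⟩⟩
    · exact ⟨0, fun c => absurd c hu⟩
  choose f hf using k
  refine ⟨f, fun u hu => (hf u hu).1, fun u hu v hv e1 w hw => ?_⟩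
  obtain ⟨h1, hu1⟩ := hf u hu
  obtain ⟨h2, hv1⟩ := hf v hv
  obtain ⟨b, hb, hwb⟩ := Env.mem_un.1 (hW hw)
  have r : Refuted T Γ (mixP A1[f u] b) := o _ (by
    simp only [splitObl, List.mem_flatMap, List.mem_map]
    exact ⟨_, List.getElem_mem h1, b, hb, rfl⟩)
  have hv2 : v ∈ e.U A1[f u] := by simpa only [e1] using hv1
  exact r.mixP H hu1 hv2 hwb (fun c => hd w hw (c ▸ hu)) (fun c => hd w hw (c ▸ hv))

theorem r_empty (h : subD Γ.nt Γ A [] = true) : Bd T Γ A :=
  ⟨0, fun e H => (Mu.empty _ _ _).mono (fun v hv => by simpa using subD_un h H hv) le_rfl⟩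

theorem r_act (evs A' : List ℕ) (h : actOK T Γ evs A A' = true) (k : Bd T Γ A') : Bd T Γ A := by
  obtain ⟨c, hc⟩ := k
  obtain ⟨c', hc'⟩ := Mu.union c Γ.st.n
  refine ⟨c', fun e H => (hc' Γ.md e (e.un A') ((Finset.range Γ.st.n).image e.P)
    (Finset.card_image_le.trans (by simp)) (hc e H)).mono (fun v hv => ?_) le_rfl⟩
  obtain ⟨a, ha, hv⟩ := Env.mem_un.1 hv
  simp only [actOK, allb_eq, List.all_eq_true, orb_eq, andb_eq, Bool.or_eq_true,
    Bool.and_eq_true, bit_eq, ltb_iff, meets_iff] at h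
  rcases h a ha with h1 | ⟨h1, i, h2, h3⟩
  · rcases cover_sound H h1 hv with ⟨s, hs, hvs⟩ | ⟨p, hp, -, rfl⟩
    · simp only [lor_eq, Nat.testBit_or, testBit_mask, Bool.or_eq_true, decide_eq_true_eq] at hs
      rcases hs with hs | hs
      · exact Finset.mem_union_left _ (Env.mem_un.2 ⟨s, hs, hvs⟩)
      · rw [(H.dead s hs).2] at hvs
        simp at hvs
    · exact Finset.mem_union_right _ (Finset.mem_image_of_mem _ (Finset.mem_range.2 hp))
  · simp only [testBit_mask, decide_eq_true_eq] at h3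
    exact Finset.mem_union_left _ (Env.mem_un.2 ⟨i, h3, ((H.ty a h1 v hv).1 i h2).2⟩)

theorem r_kill (em : List ℕ) (I : Ids) (Γ' : Ctx) (A' : List ℕ)
    (h : lin T Γ I (deadExt em) Γ' A A' = true) (o : AllRef T Γ (em.map pat1))
    (k : Bd T Γ' A') : Bd T Γ A := by
  refine bd_lin h (fun e H => ⟨fun _ => ∅, fun o ho => absurd ho (by simp [deadExt]),
    fun v hv => absurd hv (by simp [deadExt]), fun v hv => absurd hv (by simp [deadExt]),
    fun s hs => absurd hs (by simp [deadExt]), fun t ht => ?_⟩) k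
  have ht' : t ∈ em := by simpa [deadExt] using ht
  have r := (o _ (List.mem_map_of_mem ht')).pat1 H
  refine Finset.eq_empty_of_forall_notMem fun v hv => ?_
  have := (e.ext_empty _ _ hv).2
  rw [r] at this
  simp at this

theorem r_learn (ts : List (List ℕ)) (lits : List Lit) (I : Ids) (Γ' : Ctx) (A' : List ℕ)
    (h : lin T Γ I (learnExt ts lits) Γ' A A' = true) (o : AllRef T Γ [⟨ts, lits, [], []⟩])
    (k : Bd T Γ' A') : Bd T Γ A :=
  bd_lin h (fun e H => ⟨fun _ => ∅, easy_learn (o _ (List.mem_singleton_self _) e H)⟩) k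

theorem r_case (ty : List ℕ) (lits : List Lit) (lv : List ℕ) (I : Ids) (Γn : Ctx) (An : List ℕ)
    (Γp : Ctx) (Ap : List ℕ)
    (h : andb (lin T Γ I (learnExt (ty.map fun t => [t]) lits) Γn A An)
      (andb (initOK T Γ (casePat ty lits) lv)
        (andb (Ctx.le Γp (parCtx T Γ (casePat ty lits) lv)) (subD Γ.nt Γp A Ap))) = true)
    (kn : Bd T Γn An) (kp : Bd T Γp Ap) : Bd T Γ A := by
  simp only [andb_eq, Bool.and_eq_true] at h
  obtain ⟨h1, h2, h3, h4⟩ := h
  obtain ⟨cn, kn⟩ := kn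
  obtain ⟨cp, kp⟩ := kp
  refine ⟨max cn cp, fun e H => ?_⟩
  by_cases c : ∃ x τ, PEmb e (casePat ty lits) x τ
  · obtain ⟨x, τ, hx⟩ := c
    exact (mu_par h2 h3 h4 kp H hx).mono subset_rfl (le_max_right _ _)
  · exact (mu_lin h1 kn H (easy_learn fun x τ hx => c ⟨x, τ, hx⟩)).mono subset_rfl
      (le_max_left _ _)

theorem r_ex (a m : ℕ) (In : Ids) (Γn : Ctx) (An : List ℕ) (Ip : Ids) (Γp : Ctx) (Ap : List ℕ)
    (h : andb (ltb a Γ.nt) (andb (lin T Γ In (exNeg a m) Γn A An)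
      (lin T Γ Ip (exPos a m) Γp A Ap)) = true)
    (kn : Bd T Γn An) (kp : Bd T Γp Ap) : Bd T Γ A := by
  simp only [andb_eq, Bool.and_eq_true, ltb_iff] at h
  obtain ⟨h1, h2, h3⟩ := h
  refine bd_two h2 h3 (fun e H => ?_) kn kp
  by_cases c : m + 1 ≤ (e.U a).card
  · refine Or.inr ⟨fun _ => ∅, easy_axExt fun y hy => ?_⟩
    obtain rfl := List.mem_singleton.1 hy
    intro x _ X hX
    have hX' : X.card ≤ m := hX
    obtain ⟨w, hw, hwX⟩ := Finset.exists_mem_notMem_of_card_lt_card (s := X) (t := e.U a) (by omega)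
    refine ⟨w, hwX, fun i hi => absurd hi (by simp), ⟨a, []⟩, List.mem_singleton_self _, ?_,
      fun l hl => absurd hl (by simp)⟩
    rw [e.ext_old _ _ h1]
    exact hw
  · refine Or.inl ⟨fun _ => ∅, easy_axExt fun y hy => ?_⟩
    obtain rfl := List.mem_singleton.1 hy
    refine axHolds_cl.2 fun x hx => c ?_
    obtain ⟨x1, x2, -⟩ := hx
    have hl : (cl (List.replicate (m + 1) (pw a)) []).ts.length = m + 1 := by simp [cl]
    rw [hl] at x1 x2
    have := Finset.card_le_card_of_injOn (s := Finset.range (m + 1)) (t := e.U a) x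
      (fun i hi => ?_) (fun i hi j hj => x2 i (by simpa using hi) j (by simpa using hj))
    · simpa using this
    · have hi' : i < m + 1 := by simpa using hi
      obtain ⟨t, ht, hv⟩ := x1 i hi'
      have e1 : (cl (List.replicate (m + 1) (pw a)) []).ts.getD i 0 = pw a := by
        simp [cl, List.getD_eq_getElem?_getD, hi']
      rw [e1, testBit_pw] at ht
      obtain rfl : a = t := by simpa using ht
      exact (e.ext_empty _ _ hv).2

theorem r_split (A1 A2 : List ℕ) (h : andb (isLW Γ) (subD Γ.nt Γ A (A1 ++ A2)) = true)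
    (o : AllRef T Γ (splitObl A1 A2)) (k1 : Bd T Γ A1) (k2 : Bd T Γ A2) : Bd T Γ A := by
  simp only [andb_eq, Bool.and_eq_true, isLW_iff] at h
  obtain ⟨h1, h2⟩ := h
  obtain ⟨c1, k1⟩ := k1
  obtain ⟨c2, k2⟩ := k2
  refine ⟨(A1.length + 1) + max c1 c2 * (A1.length + 1), fun e H => ?_⟩
  have a1 := k1 e H
  have a2 := k2 e H
  rw [h1] at a1 a2 ⊢
  have b1 : LW e.E (e.un A1) c1 := a1
  have b2 : LW e.E (e.un A2) c2 := a2
  show LW e.E _ _
  refine ((b1.mono subset_rfl (le_max_left c1 c2)).two (b2.mono subset_rfl (le_max_right c1 c2))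
    (easy_cut o H subset_rfl Finset.sdiff_subset fun v hv => (Finset.mem_sdiff.1 hv).2)).mono
    (fun v hv => ?_) le_rfl
  obtain ⟨a, ha, hv⟩ := Env.mem_un.1 (subD_un h2 H hv)
  rcases List.mem_append.1 ha with ha | ha
  · exact Finset.mem_union_left _ (Env.mem_un.2 ⟨a, ha, hv⟩)
  · exact Finset.mem_union_right _ (Env.mem_un.2 ⟨a, ha, hv⟩)

theorem r_sepend (lo hi : List ℕ)
    (h : andb (sepOK T Γ lo hi) (subD Γ.nt Γ A (lo ++ hi)) = true)
    (o : AllRef T Γ (splitObl lo hi)) : Bd T Γ A := by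
  simp only [andb_eq, Bool.and_eq_true] at h
  obtain ⟨h1, h2⟩ := h
  refine ⟨lo.length, fun e H => ?_⟩
  unfold sepOK at h1
  rcases hm : Γ.md with _ | ⟨l', h'⟩
  · simp [hm] at h1
  · simp only [hm, andb_eq, allb_eq, Bool.and_eq_true, List.all_eq_true] at h1
    obtain ⟨d1, d2⟩ := h1
    have sp : ∀ v ∈ e.un A, v ∈ e.un lo ∨ v ∈ e.un hi := by
      intro v hv
      obtain ⟨a, ha, hv⟩ := Env.mem_un.1 (subD_un h2 H hv)
      rcases List.mem_append.1 ha with ha | ha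
      · exact Or.inl (Env.mem_un.2 ⟨a, ha, hv⟩)
      · exact Or.inr (Env.mem_un.2 ⟨a, ha, hv⟩)
    show Sep e.E _ _ _ _
    refine ⟨e.un A ∩ e.un lo, Finset.inter_subset_left, fun v hv a _ => ?_, fun v hv c => ?_,
      easy_cut o H Finset.inter_subset_right (fun v hv => ?_)
        fun v hv => (Finset.mem_sdiff.1 hv).2⟩
    · refine Finset.mem_inter.2 ⟨hv, (sp v hv).resolve_right fun c => ?_⟩
      obtain ⟨s, hs, hvs⟩ := Env.mem_un.1 c
      obtain ⟨t, ht, hvt⟩ := Env.mem_un.1 a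
      exact disj_sound (d2 s hs t ht) H hvs hvt
    · obtain ⟨s, hs, hvs⟩ := Env.mem_un.1 (Finset.mem_inter.1 hv).2
      obtain ⟨t, ht, hvt⟩ := Env.mem_un.1 c
      exact disj_sound (d1 s hs t ht) H hvs hvt
    · obtain ⟨hv1, hv2⟩ := Finset.mem_sdiff.1 hv
      exact (sp v hv1).resolve_left fun c => hv2 (Finset.mem_inter.2 ⟨hv1, c⟩)

end Pool.Agent.Lib.MP_849b2e_co
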