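import Pool.Agent.Lib.MP_849b2e_co.Chk

/-!
The global proof rules: side conditions, proof obligations and context extensions
(programs only; soundness is in the files `R*`).
-/

namespace Pool.Agent.Lib.MP_849b2e_co

/-! ### Context extensions -/

/-- A new type: parent, mask of the offsets of disjoint new types, parameter masks. -/
structure Kid where
  par : ℕ
  sib : ℕ
  p1 : ℕ
  p0 : ℕ
  xp : ℕ

/-- Table positions: first new type, and (shifted by one, `0` = omitted) the positions of the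
new events, axioms and connectivity facts. -/
structure Ids where
  b : ℕ
  ev : List ℕ
  ax : List ℕ
  sc : List ℕ

structure Ext where
  kids : List Kid
  evs : List Ev
  axs : List Ax
  scs : List Sc
  dead : ℕ

noncomputable def lbeq {α : Type} (f : α → α → Bool) (l : List α) : List α → Bool :=
  List.rec (motive := fun _ => List α → Bool) isNil
    (fun a _ ih m => List.rec (motive := fun _ => Bool) false
      (fun b m' _ => andb (f a b) (ih m')) m) l

noncomputable def beqB (a b : Bool) : Bool := Bool.not (Bool.xor a b)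
noncomputable def Ty.beq (x y : Ty) : Bool :=
  andb (Nat.beq x.anc y.anc) (andb (Nat.beq x.dis y.dis) (andb (Nat.beq x.p1 y.p1)
    (andb (Nat.beq x.p0 y.p0) (Nat.beq x.xp y.xp))))
noncomputable def Ev.beq (x y : Ev) : Bool :=
  andb (Nat.beq x.par y.par) (andb (lbeq Nat.beq x.kids y.kids) (Nat.beq x.excl y.excl))
noncomputable def Lit.beq (x y : Lit) : Bool :=
  andb (Nat.beq x.i y.i) (andb (Nat.beq x.j y.j) (beqB x.b y.b))
noncomputable def Dj.beq (x y : Dj) : Bool :=
  andb (Nat.beq x.ty y.ty) (lbeq (fun a b => andb (Nat.beq a.1 b.1) (beqB a.2 b.2)) x.lits y.lits)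
noncomputable def Ax.beq (x y : Ax) : Bool :=
  andb (lbeq Nat.beq x.ts y.ts) (andb (lbeq Lit.beq x.lits y.lits)
    (andb (lbeq Dj.beq x.con y.con) (Nat.beq x.excl y.excl)))
noncomputable def Sc.beq (x y : Sc) : Bool :=
  andb (lbeq Nat.beq x.ts y.ts) (lbeq Nat.beq x.dl y.dl)
noncomputable def mdBeq (x y : Option (List ℕ × List ℕ)) : Bool :=
  match x, y with
  | none, none => true
  | some a, some b => andb (lbeq Nat.beq a.1 b.1) (lbeq Nat.beq a.2 b.2)
  | _, _ => false

noncomputable def allLt (n : ℕ) (l : List ℕ) : Bool := allb (fun t => ltb t n) l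
noncomputable def Ax.wfb (nt : ℕ) (a : Ax) : Bool :=
  andb (allLt (pw nt) a.ts)
    (allb (fun d => andb (ltb d.ty nt) (allb (fun l => ltb l.1 a.ts.length) d.lits)) a.con)
noncomputable def Ev.wfb (nt np : ℕ) (v : Ev) : Bool :=
  andb (ltb v.par nt) (andb (allLt nt v.kids) (ltb v.excl (pw np)))

noncomputable def kidTy (T : Tab) (b o : ℕ) (k : Kid) : Ty :=
  ⟨Nat.lor (T.ty.get k.par).anc (pw (b + o)), Nat.lor (T.ty.get k.par).dis (Nat.shiftLeft k.sib b),
   Nat.lor (T.ty.get k.par).p1 k.p1, Nat.lor (T.ty.get k.par).p0 k.p0,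
   Nat.lor (T.ty.get k.par).xp k.xp⟩

noncomputable def kidOK (T : Tab) (Γ : Ctx) (b m o : ℕ) (k : Kid) : Bool :=
  andb (ltb k.par Γ.nt) (andb (Ty.beq (T.ty.get (b + o)) (kidTy T b o k))
    (andb (ltb k.sib (pw m)) (allLt (pw Γ.st.n) [k.p1, k.p0, k.xp])))

noncomputable def kidsOK (T : Tab) (Γ : Ctx) (b m : ℕ) (l : List Kid) : ℕ → Bool :=
  List.rec (motive := fun _ => ℕ → Bool) (fun _ => true)
    (fun k _ ih o => andb (kidOK T Γ b m o k) (ih (Nat.succ o))) l

noncomputable def idsOK {α : Type} (ok : ℕ → α → Bool) (is : List ℕ) : List α → Bool :=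
  List.rec (motive := fun _ => List α → Bool) (fun _ => true)
    (fun i _ ih m => List.rec (motive := fun _ => Bool) false
      (fun a m' _ => andb (orb (Nat.beq i 0) (ok (Nat.pred i) a)) (ih m')) m) is

noncomputable def idm (l : List ℕ) : ℕ := Nat.shiftRight (mask l) 1

noncomputable def extOK (T : Tab) (Γ : Ctx) (I : Ids) (x : Ext) : Bool :=
  andb (Nat.ble Γ.nt I.b) (andb (Nat.ble (I.b + x.kids.length) T.w)
    (andb (kidsOK T Γ I.b x.kids.length x.kids 0)
    (andb (idsOK (fun i v => andb (Ev.beq (T.ev.get i) v)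
        (Ev.wfb (I.b + x.kids.length) Γ.st.n v)) I.ev x.evs)
    (andb (idsOK (fun i a => andb (Ax.beq (T.ax.get i) a)
        (Ax.wfb (I.b + x.kids.length) a)) I.ax x.axs)
    (andb (idsOK (fun i s => andb (Sc.beq (T.sc.get i) s)
        (allLt (I.b + x.kids.length) s.ts)) I.sc x.scs)
      (ltb x.dead (pw (I.b + x.kids.length))))))))

noncomputable def extCtx (Γ : Ctx) (I : Ids) (x : Ext) : Ctx :=
  ⟨I.b + x.kids.length, Nat.lor Γ.evm (idm I.ev), Nat.lor Γ.axm (idm I.ax),
   Nat.lor Γ.scm (idm I.sc), Nat.lor Γ.dead x.dead, Γ.st, Γ.md⟩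

/-- `Γ'` claims no more than `Γ`. -/
noncomputable def Ctx.le (Γ' Γ : Ctx) : Bool :=
  andb (Nat.beq Γ'.nt Γ.nt) (andb (sub Γ'.evm Γ.evm) (andb (sub Γ'.axm Γ.axm)
    (andb (sub Γ'.scm Γ.scm) (andb (sub Γ'.dead Γ.dead) (andb (Nat.beq Γ'.st.n Γ.st.n)
    (andb (sub Γ'.st.M Γ.st.M) (andb (sub Γ'.st.P1 Γ.st.P1) (andb (sub Γ'.st.P0 Γ.st.P0)
    (andb (sub Γ'.st.live Γ.st.live) (mdBeq Γ'.md Γ.md))))))))))

noncomputable def child (T : Tab) (Γ : Ctx) (I : Ids) (x : Ext) (Γ' : Ctx) : Bool :=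
  andb (extOK T Γ I x) (Ctx.le Γ' (extCtx Γ I x))

/-- Every type of `A` is dead in `Γ'` or listed in `A'`. -/
noncomputable def subD (nt : ℕ) (Γ' : Ctx) (A A' : List ℕ) : Bool :=
  allb (fun a => andb (ltb a nt) (orb (bit Γ'.dead a) (bit (mask A') a))) A

/-- The vertices of a pattern become new parameters. -/
noncomputable def parCtx (T : Tab) (Γ : Ctx) (p : Pat) (lv : List ℕ) : Ctx :=
  ⟨Γ.nt, Γ.evm, Γ.axm, Γ.scm, Γ.dead, initSt T Γ p lv, Γ.md⟩

noncomputable def disj (T : Tab) (nt a b : ℕ) : Bool :=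
  andb (ltb a nt) (andb (ltb b nt) (meets (T.ty.get a).dis (T.ty.get b).anc))

noncomputable def pairDis (T : Tab) (nt : ℕ) (l : List ℕ) : Bool :=
  List.rec (motive := fun _ => Bool) true
    (fun a r ih => andb (ltb a nt) (andb (allb (disj T nt a) r) ih)) l

/-- The type `t` is contained in the type `s`. -/
noncomputable def isAnc (T : Tab) (nt s t : ℕ) : Bool :=
  andb (ltb t nt) (bit (T.ty.get t).anc s)

/-- Types covered by the types in `base`, up to the parameters `exm T evs`. -/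
noncomputable def cover (T : Tab) (Γ : Ctx) (base : ℕ) (evs : List ℕ) : ℕ :=
  List.rec (motive := fun _ => ℕ) base
    (fun i _ c => sel (andb (bit Γ.evm i) (allb (bit c) (T.ev.get i).kids))
      (Nat.lor c (pw (T.ev.get i).par)) c) evs

noncomputable def exm (T : Tab) (evs : List ℕ) : ℕ :=
  List.rec (motive := fun _ => ℕ) 0 (fun i _ m => Nat.lor m (T.ev.get i).excl) evs

def isLW (Γ : Ctx) : Bool := Γ.md.isNone

def cl (ts : List ℕ) (lits : List Lit) : Ax := ⟨ts, lits, [], 0⟩
def pat1 (a : ℕ) : Pat := ⟨[[a]], [], [], []⟩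
def pat2 (a b : ℕ) (β : Bool) : Pat := ⟨[[a], [b]], [⟨0, 1, β⟩], [], []⟩
/-- A vertex of type `b` with a neighbour and a non-neighbour of type `a`. -/
def mixP (a b : ℕ) : Pat := ⟨[[b], [a], [a]], [⟨0, 1, true⟩, ⟨0, 2, false⟩], [], []⟩
def axExt (l : List Ax) : Ext := ⟨[], [], l, [], 0⟩
noncomputable def deadExt (l : List ℕ) : Ext := ⟨[], [], [], [], mask l⟩

/-! ### `act` -/

noncomputable def actOK (T : Tab) (Γ : Ctx) (evs A A' : List ℕ) : Bool :=
  allb (fun a => orb (bit (cover T Γ (Nat.lor (mask A') Γ.dead) evs) a)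
    (andb (ltb a Γ.nt) (meets (T.ty.get a).anc (mask A')))) A

/-! ### `learn`, `case` -/

noncomputable def learnExt (ts : List (List ℕ)) (lits : List Lit) : Ext :=
  axExt [cl (ts.map mask) lits]

def casePat (ty : List ℕ) (lits : List Lit) : Pat := ⟨ty.map fun t => [t], lits, [], []⟩

/-! ### `psplit` -/

inductive PT where
  | kid
  | ref
  | br (p : ℕ) (l r : PT)

def ptKids : PT → ℕ → ℕ → List (ℕ × ℕ)
  | .kid, p1, p0 => [(p1, p0)]
  | .ref, _, _ => []
  | .br p l r, p1, p0 => ptKids l p1 (Nat.lor p0 (pw p)) ++ ptKids r (Nat.lor p1 (pw p)) p0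

def ptObl (a : ℕ) : PT → List Lit → List Pat
  | .kid, _ => []
  | .ref, acc => [⟨[[a]], [], acc, []⟩]
  | .br p l r, acc => ptObl a l (⟨0, p, false⟩ :: acc) ++ ptObl a r (⟨0, p, true⟩ :: acc)

noncomputable def psplitExt (b a : ℕ) (ex : List ℕ) (t : PT) : Ext :=
  let ks := ptKids t 0 0
  ⟨(List.range ks.length).map fun o =>
      ⟨a, Nat.xor (pw ks.length - 1) (pw o), (ks.getD o (0, 0)).1, (ks.getD o (0, 0)).2, mask ex⟩,
   [⟨a, (List.range ks.length).map (b + ·), mask ex⟩], [], [], 0⟩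

/-! ### `def`, `ex` -/

noncomputable def defExt (b a m : ℕ) (B1 B0 : List ℕ) : Ext :=
  ⟨[⟨a, 2, 0, 0, 0⟩, ⟨a, 1, 0, 0, 0⟩], [⟨a, [b, b + 1], 0⟩],
   ⟨[pw b], [], B0.map (fun t => ⟨t, [(0, false)]⟩) ++ B1.map (fun t => ⟨t, [(0, true)]⟩), m⟩ ::
     (List.range (m + 2)).map fun j =>
       cl (pw (b + 1) :: (List.range (m + 1)).map fun i => if i < j then mask B1 else mask B0)
         ((List.range (m + 1)).map fun i => ⟨0, i + 1, decide (i < j)⟩),
   [], 0⟩

def exNeg (a m : ℕ) : Ext := axExt [cl (List.replicate (m + 1) (pw a)) []]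
def exPos (a m : ℕ) : Ext := axExt [⟨[], [], [⟨a, []⟩], m⟩]

/-! ### `block` -/

noncomputable def symRow (s : Sc) (k i : ℕ) : Bool :=
  allb (fun j => beqB (s.d i j) (s.d j i)) (List.range k)

/-- New types: offset `3i` inside the block, `3i+1` before it (or outside it, if row `i` is
symmetric), `3i+2` after it. -/
noncomputable def blockExt (b : ℕ) (A dl kp0 kp1 : List ℕ) : Ext :=
  let k := A.length
  let s : Sc := ⟨(List.range k).map fun i => b + 3 * i, dl⟩
  ⟨(List.range (3 * k)).map fun o =>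
      ⟨A.getD (o / 3) 0, Nat.xor (Nat.shiftLeft 7 (3 * (o / 3))) (pw o), 0, 0, 0⟩,
   (List.range k).map fun i => ⟨A.getD i 0,
      if symRow s k i then [b + 3 * i, b + 3 * i + 1]
      else [b + 3 * i, b + 3 * i + 1, b + 3 * i + 2], 0⟩,
   ((List.range (4 * k)).map fun z =>
      cl [pw (b + 3 * (z / 4) + 1 + z % 4 / 2),
          mask (((List.range k).filter fun j =>
            beqB (if z % 4 / 2 = 0 then s.d (z / 4) j else s.d j (z / 4))
              (decide (z % 2 = 1))).map fun j => b + 3 * j)]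
        [⟨0, 1, decide (z % 2 = 0)⟩]) ++
   ((List.range k).map fun i => ⟨[pw (b + 3 * i)], [],
      ((List.range k).filter fun j => bit (kp0.getD i 0) j).map fun j =>
        ⟨b + 3 * j, [(0, s.arc false i j)]⟩, 0⟩) ++
   ((List.range k).map fun i => ⟨[pw (b + 3 * i)], [],
      ((List.range k).filter fun j => bit (kp1.getD i 0) j).map fun j =>
        ⟨b + 3 * j, [(0, s.arc true i j)]⟩, 0⟩),
   [s], 0⟩

def blockObl1 (A dl kp : List ℕ) (dir : Bool) : List Pat :=
  (List.range A.length).flatMap fun i =>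
    ((List.range A.length).filter fun j => !bit (kp.getD i 0) j).map fun j =>
      pat2 (A.getD i 0) (A.getD j 0) (Sc.arc ⟨[], dl⟩ dir i j)

def blockObl (A dl kp0 kp1 : List ℕ) : List Pat :=
  blockObl1 A dl kp0 false ++ blockObl1 A dl kp1 true

/-! ### `close` -/

/-- The types `cv` (of classes `cs`) cover the strongly connected set up to the parameters `sp`
(of classes `ps`). -/
noncomputable def scOK (T : Tab) (Γ : Ctx) (sci : ℕ) (evs cv cs sp ps : List ℕ) : Bool :=
  let s := T.sc.get sci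
  andb (bit Γ.scm sci)
  (andb (allb (fun i => andb (ltb (cs.getD i 0) s.ts.length)
      (isAnc T Γ.nt (s.ts.getD (cs.getD i 0) 0) (cv.getD i 0))) (List.range cv.length))
  (andb (allb (fun i => andb (ltb (ps.getD i 0) s.ts.length)
      (bit (rowM T.w Γ.st.M (sp.getD i 0)) (s.ts.getD (ps.getD i 0) 0))) (List.range sp.length))
  (andb (allb (bit (cover T Γ (Nat.lor (mask cv) Γ.dead) evs)) s.ts)
  (andb (sub (exm T evs) (mask sp))
    (allb (fun b => allb (notPar T Γ b) sp) cv)))))

/-- `R` is the mask of the positions in `cv` of the types that may be reachable. -/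
def closeObl (s : Sc) (dir : Bool) (cv cs sp ps : List ℕ) (R : ℕ) : List Pat :=
  ((List.range cv.length).filter fun i => !bit R i).flatMap fun i =>
    ((List.range sp.length).map fun q =>
      (⟨[[cv.getD i 0]], [], [⟨0, sp.getD q 0, s.arc dir (ps.getD q 0) (cs.getD i 0)⟩], []⟩ : Pat)) ++
    (((List.range cv.length).filter fun j => bit R j).map fun j =>
      pat2 (cv.getD j 0) (cv.getD i 0) (s.arc dir (cs.getD j 0) (cs.getD i 0)))

noncomputable def closeExt (cv : List ℕ) (R : ℕ) : Ext :=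
  deadExt (((List.range cv.length).filter fun i => !bit R i).map fun i => cv.getD i 0)

/-! ### `twin` -/

/-- `β` is the mask of the positions where adjacent twins are reduced. -/
def twinExt (b : ℕ) (A : List ℕ) (β : ℕ) (kp : List ℕ) : Ext :=
  ⟨A.map fun a => ⟨a, 0, 0, 0, 0⟩, [],
   (List.range A.length).map fun i => ⟨[pw (b + i), pw (b + i)], [⟨0, 1, bit β i⟩],
     ((List.range A.length).filter fun j => bit (kp.getD i 0) j).flatMap fun j =>
       [⟨b + j, [(0, true), (1, false)]⟩, ⟨b + j, [(0, false), (1, true)]⟩], 0⟩,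
   [], 0⟩

def twinObl (A : List ℕ) (β : ℕ) (kp : List ℕ) : List Pat :=
  (List.range A.length).flatMap fun i =>
    ((List.range A.length).filter fun j => !bit (kp.getD i 0) j).map fun j =>
      ⟨[[A.getD i 0], [A.getD i 0], [A.getD j 0]],
        [⟨0, 1, bit β i⟩, ⟨0, 2, true⟩, ⟨1, 2, false⟩], [], []⟩

/-! ### `ext` (extremal vertex) -/

noncomputable def extAx (b a j u : ℕ) (K1 K0 : List ℕ) : Ax :=
  ⟨pw a :: pw b :: (List.range (j + 1)).map fun i => if i < u then mask K1 else mask K0,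
   (List.range (j + 1)).flatMap fun i =>
     [⟨0, i + 2, decide (i < u)⟩, ⟨1, i + 2, !decide (i < u)⟩],
   K1.map (fun t => ⟨t, [(0, false), (1, true)]⟩) ++ K0.map (fun t => ⟨t, [(0, true), (1, false)]⟩),
   j⟩

noncomputable def extExt (b a J : ℕ) (K1 K0 : List ℕ) : Ext :=
  ⟨[⟨a, 0, 0, 0, 0⟩], [],
   (List.range J).flatMap fun j => (List.range (j + 2)).map fun u => extAx b a j u K1 K0, [], 0⟩

noncomputable def extSide (T : Tab) (Γ : Ctx) (a : ℕ) (G1 G0 : List ℕ) : Bool :=
  andb (ltb a Γ.nt) (andb (allb (fun g => allb (disj T Γ.nt g) G0) G1)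
    (allb (fun g => andb (ltb g Γ.nt) (orb (isAnc T Γ.nt g a) (disj T Γ.nt a g))) (G1 ++ G0)))

def extObl (a : ℕ) (R1 R0 : List ℕ) : List Pat :=
  R1.map (fun g => pat2 a g false) ++ R0.map fun g => pat2 a g true

/-! ### `split`, `sepend` -/

def splitObl (A1 A2 : List ℕ) : List Pat := A1.flatMap fun a => A2.map fun b => mixP a b

noncomputable def sepOK (T : Tab) (Γ : Ctx) (lo hi : List ℕ) : Bool :=
  match Γ.md with
  | none => false
  | some m => andb (allb (fun a => allb (disj T Γ.nt a) m.2) lo)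
      (allb (fun b => allb (disj T Γ.nt b) m.1) hi)

/-! ### Pure lemmas and `apply` -/

def pureTy (k t : ℕ) : Ty :=
  if t = 0 then ⟨1, 0, 0, 0, 0⟩
  else ⟨Nat.lor 1 (pw t), Nat.xor (pw (k + 1) - 2) (pw t), 0, 0, 0⟩
def pureCtx (k m : ℕ) : Ctx := ⟨k + 1, 0, pw m - 1, 0, 0, ⟨0, 0, 0, 0, 0⟩, none⟩
def pureAct (k : ℕ) : List ℕ := if k = 0 then [0] else (List.range k).map (· + 1)
noncomputable def pureOK (T : Tab) (k m : ℕ) : Bool :=
  andb (ltb k T.w) (andb (allb (fun t => Ty.beq (T.ty.get t) (pureTy k t)) (List.range (k + 1)))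
    (allb (fun i => andb (isNil (T.ax.get i).con) (andb (Ax.wfb (k + 1) (T.ax.get i))
      (allb (fun l => andb (ltb l.i (T.ax.get i).ts.length) (ltb l.j (T.ax.get i).ts.length))
        (T.ax.get i).lits))) (List.range m)))

/-- A boundedness theorem for graphs with `k` parts and the first `m` axioms of `T`. -/
structure Lem (T : Tab) (k m : ℕ) : Prop where
  ok : pureOK T k m = true
  bd : Bd T (pureCtx k m) (pureAct k)

noncomputable def applyOK (Γ : Ctx) (k : ℕ) (A φ : List ℕ) (F : List (ℕ × ℕ)) : Bool :=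
  andb (isLW Γ) (andb (allb (fun i => bit (mask (pureAct k)) (φ.getD i 0)) (List.range A.length))
    (allb (fun a => allb (fun b => beqB (flipOf F a b) (flipOf F b a)) A) A))

noncomputable def applyObl (TL : Tab) (m : ℕ) (A φ : List ℕ) (F : List (ℕ × ℕ)) : List Pat :=
  (List.range m).map fun z =>
    ⟨(TL.ax.get z).ts.map fun S =>
      ((List.range A.length).filter fun i => meets S (Nat.lor 1 (pw (φ.getD i 0)))).map
        fun i => A.getD i 0,
     (TL.ax.get z).lits, [], F⟩

/-! ### `hit` -/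

/-- Case trees over the adjacency between position `p` and position `q`, inside a copy or
(if `x`) from an earlier to a later copy. -/
inductive HT where
  | leaf (m : ℕ)
  | br (x : Bool) (p q : ℕ) (l r : HT)

structure HP where
  ty : List ℕ
  lits : List Lit
  t : HT

def HT.ok (k : ℕ) : HT → Bool
  | .leaf _ => true
  | .br _ p q l r => ltb p k && ltb q k && HT.ok k l && HT.ok k r

/-- `m` disjoint copies of the pattern, with inner literals `inn` and cross literals `cr`. -/
def hitPat (ty : List ℕ) (m : ℕ) (inn cr : List Lit) : Pat :=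
  ⟨(List.range m).flatMap fun _ => ty.map fun t => [t],
   ((List.range m).flatMap fun i =>
      inn.map fun l => ⟨i * ty.length + l.i, i * ty.length + l.j, l.b⟩) ++
   ((List.range m).flatMap fun j => (List.range j).flatMap fun i =>
      cr.map fun l => ⟨i * ty.length + l.i, j * ty.length + l.j, l.b⟩),
   [], []⟩

def htObl (ty : List ℕ) : HT → List Lit → List Lit → List Pat
  | .leaf m, inn, cr => [hitPat ty m inn cr]
  | .br false p q l r, inn, cr =>
      htObl ty l (⟨p, q, false⟩ :: inn) cr ++ htObl ty r (⟨p, q, true⟩ :: inn) cr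
  | .br true p q l r, inn, cr =>
      htObl ty l inn (⟨p, q, false⟩ :: cr) ++ htObl ty r inn (⟨p, q, true⟩ :: cr)

/-- The entries of `h.ty` are positions in `L`. -/
def hitObl (L : List ℕ) (hs : List HP) : List Pat :=
  hs.flatMap fun h => htObl (h.ty.map fun i => L.getD i 0) h.t h.lits []

def hitExt (b : ℕ) (L : List ℕ) (hs : List HP) : Ext :=
  ⟨L.map fun a => ⟨a, 0, 0, 0, 0⟩, [],
   hs.map fun h => cl (h.ty.map fun i => pw (b + i)) h.lits, [], 0⟩

noncomputable def hitOK (Γ Γ' : Ctx) (b : ℕ) (L : List ℕ) (hs : List HP) (A A' : List ℕ) : Bool :=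
  andb (allb (fun h => andb (ltb 0 h.ty.length) (andb (allLt L.length h.ty)
      (andb (allb (fun l => andb (ltb l.i h.ty.length) (ltb l.j h.ty.length)) h.lits)
        (h.t.ok h.ty.length)))) hs)
    (allb (fun a => andb (ltb a Γ.nt) (orb (bit Γ'.dead a) (orb (bit (mask A') a)
      (anyb (fun i => andb (Nat.beq (L.getD i 0) a) (bit (mask A') (b + i)))
        (List.range L.length))))) A)

/-! ### `odd` -/

def triP (a : ℕ) : Pat := ⟨[[a], [a], [a]], [⟨0, 1, true⟩, ⟨0, 2, true⟩, ⟨1, 2, true⟩], [], []⟩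

def bipExt (b a : ℕ) : Ext :=
  ⟨[⟨a, 2, 0, 0, 0⟩, ⟨a, 1, 0, 0, 0⟩], [⟨a, [b, b + 1], 0⟩],
   [cl [pw b, pw b] [⟨0, 1, true⟩], cl [pw (b + 1), pw (b + 1)] [⟨0, 1, true⟩]], [], 0⟩

def cycCl (b k : ℕ) : Ax :=
  cl (List.replicate (k + 1) (pw b))
    (⟨0, k, true⟩ :: (List.range k).map fun i => ⟨i, i + 1, true⟩)

/-- Offset `0`: a shortest odd cycle inside `a`; offset `1`: the rest of `a`. -/
def oddExt (b a : ℕ) : Ext :=
  ⟨[⟨a, 2, 0, 0, 0⟩, ⟨a, 1, 0, 0, 0⟩], [⟨a, [b, b + 1], 0⟩],
   [⟨[], [], [⟨b, []⟩], 0⟩,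
    ⟨[pw b], [], [⟨b, [(0, true)]⟩], 1⟩,
    ⟨[pw (b + 1), pw b, pw b], [⟨0, 1, true⟩, ⟨0, 2, true⟩], [⟨b, [(1, true), (2, true)]⟩], 0⟩,
    cl [pw a, pw b, pw b, pw b] [⟨0, 1, true⟩, ⟨0, 2, true⟩, ⟨0, 3, true⟩],
    cycCl b 3, cycCl b 5, cycCl b 7], [], 0⟩

/-! ### `window` -/

/-- The new type of the vertices of `A i` in relative layer `j`. -/
def wTy (b n i j : ℕ) : ℕ := b + (i * (n + 2) + j)

/-- Layers at distance `≤ t` (`j = 0`), `t + j` (`1 ≤ j ≤ n`) and `> t + n` (`j = n + 1`) from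
the parameter `p0` of class `sp`; `hd` means `t = 0`. -/
noncomputable def winExt (s : Sc) (dir hd : Bool) (b n p0 sp : ℕ) (A cs kp : List ℕ) : Ext :=
  let k := A.length
  ⟨(List.range (k * (n + 2))).map fun o =>
      let i := o / (n + 2)
      let j := o % (n + 2)
      let β := s.arc dir sp (cs.getD i 0)
      ⟨A.getD i 0, Nat.xor (Nat.shiftLeft (pw (n + 2) - 1) (i * (n + 2))) (pw o),
       if 2 ≤ j then (if β then 0 else pw p0) else if hd && j == 1 && β then pw p0 else 0,
       if 2 ≤ j then (if β then pw p0 else 0) else if hd && j == 1 && !β then pw p0 else 0, 0⟩,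
   (List.range k).map fun i => ⟨A.getD i 0,
      if hd then (List.range (n + 1)).map fun j => wTy b n i (j + 1)
      else (List.range (n + 2)).map fun j => wTy b n i j, 0⟩,
   ((List.range k).flatMap fun i => (List.range n).flatMap fun j => [false, true].map fun β =>
      cl [pw (wTy b n i j),
          mask (((List.range k).filter fun i2 =>
            beqB (s.arc dir (cs.getD i 0) (cs.getD i2 0)) β).flatMap fun i2 =>
              (List.range (n - j)).map fun z => wTy b n i2 (j + 2 + z))]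
        [⟨0, 1, β⟩]) ++
   ((List.range k).flatMap fun i => (List.range n).map fun j =>
      ⟨[pw (wTy b n i (j + 2))], [],
       ((List.range k).filter fun i2 => bit (kp.getD i 0) i2).flatMap fun i2 =>
         (⟨wTy b n i2 (j + 1), [(0, s.arc dir (cs.getD i2 0) (cs.getD i 0))]⟩ : Dj) ::
           (if j + 1 = n then [⟨wTy b n i2 (n + 1), [(0, s.arc dir (cs.getD i2 0) (cs.getD i 0))]⟩]
            else []), 0⟩),
   [], 0⟩

def winObl (s : Sc) (dir : Bool) (A cs kp : List ℕ) : List Pat :=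
  (List.range A.length).flatMap fun j =>
    ((List.range A.length).filter fun i => !bit (kp.getD j 0) i).map fun i =>
      pat2 (A.getD j 0) (A.getD i 0) (s.arc dir (cs.getD i 0) (cs.getD j 0))

/-- The types of relative layers `lo, …, lo + len - 1`. -/
def wSet (b n k lo len : ℕ) : List ℕ :=
  (List.range k).flatMap fun i => (List.range len).map fun j => wTy b n i (lo + j)

def setMd (Γ : Ctx) (lo hi : List ℕ) : Ctx :=
  ⟨Γ.nt, Γ.evm, Γ.axm, Γ.scm, Γ.dead, Γ.st, some (lo, hi)⟩

end Pool.Agent.Lib.MP_849b2e_co
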