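import Pool.Agent.Lib.MP_849b2e_co.Width

/-!
Typed contexts: syntax and semantics.

An environment is a graph on `ℕ` with finite vertex sets `U t` (the types) and distinguished
vertices `P p` (the parameters).  A table `Tab` lists all types, covering events, axioms and
strong-connectivity facts of one proof tree; a context `Ctx` selects the ones that hold.
-/

namespace Pool.Agent.Lib.MP_849b2e_co

/-! ### Bit primitives (kernel accelerated) -/

def bit (m i : ℕ) : Bool := Nat.beq (Nat.land (Nat.shiftRight m i) 1) 1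
def meets (a b : ℕ) : Bool := Nat.ble 1 (Nat.land a b)
def sub (a b : ℕ) : Bool := Nat.beq (Nat.land a b) a
def pw (i : ℕ) : ℕ := Nat.shiftLeft 1 i
noncomputable def andb (a b : Bool) : Bool := Bool.rec false b a
noncomputable def orb (a b : Bool) : Bool := Bool.rec b true a
noncomputable def allb {α : Type} (f : α → Bool) (l : List α) : Bool :=
  List.rec true (fun a _ ih => andb (f a) ih) l
noncomputable def anyb {α : Type} (f : α → Bool) (l : List α) : Bool :=
  List.rec false (fun a _ ih => orb (f a) ih) l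
noncomputable def mask (l : List ℕ) : ℕ := List.rec 0 (fun t _ m => Nat.lor m (pw t)) l
noncomputable def force (x : ℕ) (f : ℕ → Bool) : Bool :=
  Nat.rec (motive := fun _ => Bool) (f 0) (fun n _ => f (Nat.succ n)) x
def ltb (a b : ℕ) : Bool := Nat.ble (Nat.succ a) b

@[simp] theorem bit_eq (m i : ℕ) : bit m i = m.testBit i := by
  have : Nat.land (Nat.shiftRight m i) 1 = (m >>> i) % 2 := Nat.and_one_is_mod _
  unfold bit
  rw [this, Nat.testBit_eq_decide_div_mod_eq, Nat.shiftRight_eq_div_pow]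
  rcases Nat.mod_two_eq_zero_or_one (m / 2 ^ i) with h | h <;> rw [h] <;> rfl

theorem meets_iff {a b : ℕ} : meets a b = true ↔ ∃ i, a.testBit i = true ∧ b.testBit i = true := by
  have e : Nat.land a b = a &&& b := rfl
  unfold meets
  rw [e, Nat.ble_eq]
  constructor
  · intro h
    obtain ⟨i, hi⟩ := Nat.exists_testBit_of_ne_zero (x := a &&& b) (by omega)
    exact ⟨i, by simpa using hi⟩
  · rintro ⟨i, h1, h2⟩
    by_contra c
    have : a &&& b = 0 := by omega
    have h := congrArg (·.testBit i) this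
    simp [h1, h2] at h

theorem sub_iff {a b : ℕ} : sub a b = true ↔ ∀ i, a.testBit i = true → b.testBit i = true := by
  have e : Nat.land a b = a &&& b := rfl
  unfold sub
  rw [e, Nat.beq_eq]
  constructor
  · intro h i hi
    have := congrArg (·.testBit i) h
    simpa [hi] using this
  · intro h
    refine Nat.eq_of_testBit_eq fun i => ?_
    cases hi : a.testBit i
    · simp [hi]
    · simp [hi, h i hi]

theorem pw_eq (i : ℕ) : pw i = 2 ^ i := by
  show 1 <<< i = _
  simp [Nat.shiftLeft_eq]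

@[simp] theorem testBit_pw (i j : ℕ) : (pw i).testBit j = decide (i = j) := by
  rw [pw_eq, Nat.testBit_two_pow]

@[simp] theorem lor_eq (a b : ℕ) : Nat.lor a b = a ||| b := rfl
@[simp] theorem land_eq (a b : ℕ) : Nat.land a b = a &&& b := rfl
@[simp] theorem xor_eq (a b : ℕ) : Nat.xor a b = a ^^^ b := rfl
@[simp] theorem shl_eq (a b : ℕ) : Nat.shiftLeft a b = a <<< b := rfl
@[simp] theorem shr_eq (a b : ℕ) : Nat.shiftRight a b = a >>> b := rfl
@[simp] theorem andb_eq (a b : Bool) : andb a b = (a && b) := by cases a <;> rfl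
@[simp] theorem orb_eq (a b : Bool) : orb a b = (a || b) := by cases a <;> rfl
@[simp] theorem allb_eq {α : Type} (f : α → Bool) (l : List α) : allb f l = l.all f := by
  induction l with
  | nil => rfl
  | cons a l ih => rw [List.all_cons, ← ih, ← andb_eq]; rfl
@[simp] theorem anyb_eq {α : Type} (f : α → Bool) (l : List α) : anyb f l = l.any f := by
  induction l with
  | nil => rfl
  | cons a l ih => rw [List.any_cons, ← ih, ← orb_eq]; rfl
@[simp] theorem force_eq (x : ℕ) (f : ℕ → Bool) : force x f = f x := by cases x <;> rfl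
@[simp] theorem ltb_iff {a b : ℕ} : ltb a b = true ↔ a < b := by
  unfold ltb; rw [Nat.ble_eq]; rfl
@[simp] theorem testBit_mask (l : List ℕ) (t : ℕ) : (mask l).testBit t = decide (t ∈ l) := by
  induction l with
  | nil => simp [mask]
  | cons a l ih =>
    have : mask (a :: l) = mask l ||| pw a := rfl
    rw [this, Nat.testBit_or, ih, testBit_pw]
    by_cases h : a = t
    · simp [h]
    · simp [h, Ne.symm h]

theorem lt_of_testBit_of_lt_pw {m n i : ℕ} (h : m < pw n) (hi : m.testBit i = true) : i < n := by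
  rw [pw_eq] at h
  by_contra c
  have := Nat.testBit_lt_two_pow (lt_of_lt_of_le h (Nat.pow_le_pow_right (by omega) (not_lt.1 c)))
  simp [hi] at this

/-! ### Syntax -/

inductive Tr (α : Type) where
  | leaf (v : α)
  | br (l r : Tr α)

noncomputable def Tr.get {α : Type} (t : Tr α) : ℕ → α :=
  Tr.rec (motive := fun _ => ℕ → α) (fun v _ => v)
    (fun _ _ l r i => Nat.rec (motive := fun _ => α) (l (Nat.shiftRight i 1))
      (fun _ _ => r (Nat.shiftRight i 1)) (Nat.land i 1)) t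

/-- A type: masks of supertypes, of disjoint types, of adjacent, non-adjacent and excluded
parameters. -/
structure Ty where
  anc : ℕ
  dis : ℕ
  p1 : ℕ
  p0 : ℕ
  xp : ℕ

/-- A covering event: every vertex of `par` other than the parameters `excl` lies in a kid. -/
structure Ev where
  par : ℕ
  kids : List ℕ
  excl : ℕ

structure Lit where
  i : ℕ
  j : ℕ
  b : Bool

structure Dj where
  ty : ℕ
  lits : List (ℕ × Bool)

/-- An axiom: for every copy of the pattern `(ts, lits)` and every set of at most `excl` vertices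
there is a further vertex satisfying one of the disjuncts `con`. -/
structure Ax where
  ts : List ℕ
  lits : List Lit
  con : List Dj
  excl : ℕ

/-- Strong connectivity data: types and the matrix of default adjacencies. -/
structure Sc where
  ts : List ℕ
  dl : List ℕ

structure Tab where
  w : ℕ
  ty : Tr Ty
  ev : Tr Ev
  ax : Tr Ax
  sc : Tr Sc

/-- Local state: `n` labels, type masks (stride `w`), known edges and non-edges (stride 128),
and a set of labels known to denote distinct vertices. -/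
structure St where
  n : ℕ
  M : ℕ
  P1 : ℕ
  P0 : ℕ
  live : ℕ

structure Ctx where
  nt : ℕ
  evm : ℕ
  axm : ℕ
  scm : ℕ
  dead : ℕ
  st : St
  md : Option (List ℕ × List ℕ)

/-- A pattern: type sets, literals between its vertices (flipped by `F`), literals to
parameters. -/
structure Pat where
  S : List (List ℕ)
  lits : List Lit
  pl : List Lit
  F : List (ℕ × ℕ)

/-! ### Semantics -/

structure Env where
  E : Adj
  symm : ∀ u v, E u v = E v u
  U : ℕ → Finset ℕ
  P : ℕ → ℕ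

def Env.un (e : Env) (A : List ℕ) : Finset ℕ := A.toFinset.biUnion e.U

@[simp] theorem Env.mem_un {e : Env} {A : List ℕ} {v : ℕ} : v ∈ e.un A ↔ ∃ a ∈ A, v ∈ e.U a := by
  simp [Env.un]

def InTy (e : Env) (S v : ℕ) : Prop := ∃ t, S.testBit t = true ∧ v ∈ e.U t

def Emb (e : Env) (a : Ax) (x : ℕ → ℕ) : Prop :=
  (∀ i < a.ts.length, InTy e (a.ts.getD i 0) (x i)) ∧
  (∀ i < a.ts.length, ∀ j < a.ts.length, x i = x j → i = j) ∧
  ∀ l ∈ a.lits, e.E (x l.i) (x l.j) = l.b

def AxHolds (e : Env) (a : Ax) : Prop :=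
  ∀ x, Emb e a x → ∀ X : Finset ℕ, X.card ≤ a.excl →
    ∃ w, w ∉ X ∧ (∀ i < a.ts.length, w ≠ x i) ∧
      ∃ d ∈ a.con, w ∈ e.U d.ty ∧ ∀ l ∈ d.lits, e.E w (x l.1) = l.2

def Ax.WF (a : Ax) (nt : ℕ) : Prop :=
  (∀ S ∈ a.ts, ∀ t, S.testBit t = true → t < nt) ∧
  ∀ d ∈ a.con, d.ty < nt ∧ ∀ l ∈ d.lits, l.1 < a.ts.length

def TyHolds (e : Env) (nt np t : ℕ) (y : Ty) : Prop :=
  ∀ v ∈ e.U t,
    (∀ s, y.anc.testBit s = true → s < nt ∧ v ∈ e.U s) ∧
    (∀ s, y.dis.testBit s = true → s < nt ∧ v ∉ e.U s) ∧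
    (∀ p, y.p1.testBit p = true → p < np ∧ e.E v (e.P p) = true) ∧
    (∀ p, y.p0.testBit p = true → p < np ∧ e.E v (e.P p) = false) ∧
    (∀ p, y.xp.testBit p = true → p < np ∧ v ≠ e.P p)

def EvSem (e : Env) (v : Ev) : Prop :=
  ∀ x ∈ e.U v.par, (∀ p, v.excl.testBit p = true → x ≠ e.P p) → ∃ k ∈ v.kids, x ∈ e.U k

def Ev.WF (v : Ev) (nt np : ℕ) : Prop :=
  v.par < nt ∧ (∀ k ∈ v.kids, k < nt) ∧ ∀ p, v.excl.testBit p = true → p < np

/-- `s.d i j`: the adjacency between a vertex of class `i` and a later vertex of class `j`. -/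
def Sc.d (s : Sc) (i j : ℕ) : Bool := bit (s.dl.getD i 0) j

/-- The adjacency value of an arc from class `i` to class `j` (reversed arcs if `dir`). -/
def Sc.arc (s : Sc) (dir : Bool) (i j : ℕ) : Bool := if dir then !s.d i j else !s.d j i

def Arc (e : Env) (s : Sc) (dir : Bool) (u v : ℕ) : Prop :=
  u ≠ v ∧ ∃ i < s.ts.length, ∃ j < s.ts.length,
    u ∈ e.U (s.ts.getD i 0) ∧ v ∈ e.U (s.ts.getD j 0) ∧ e.E u v = s.arc dir i j

def ScSem (e : Env) (s : Sc) : Prop :=
  (∀ i < s.ts.length, ∀ j < s.ts.length, ∀ v,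
    v ∈ e.U (s.ts.getD i 0) → v ∈ e.U (s.ts.getD j 0) → i = j) ∧
  ∀ u ∈ e.un s.ts, ∀ v ∈ e.un s.ts, Relation.ReflTransGen (Arc e s false) u v

structure LS (w nt : ℕ) (e : Env) (φ : ℕ → ℕ) (s : St) : Prop where
  n : s.n ≤ 128
  m : ∀ u t, t < w → s.M.testBit (w * u + t) = true → u < s.n ∧ t < nt ∧ φ u ∈ e.U t
  p1 : ∀ u v, v < 128 → s.P1.testBit (128 * u + v) = true →
    u < s.n ∧ v < s.n ∧ e.E (φ u) (φ v) = true
  p0 : ∀ u v, v < 128 → s.P0.testBit (128 * u + v) = true →
    u < s.n ∧ v < s.n ∧ e.E (φ u) (φ v) = false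
  live : ∀ u, s.live.testBit u = true → u < s.n
  inj : ∀ u v, s.live.testBit u = true → s.live.testBit v = true → φ u = φ v → u = v

structure Holds (T : Tab) (Γ : Ctx) (e : Env) : Prop where
  ntw : Γ.nt ≤ T.w
  ty : ∀ t < Γ.nt, TyHolds e Γ.nt Γ.st.n t (T.ty.get t)
  ev : ∀ i, Γ.evm.testBit i = true → (T.ev.get i).WF Γ.nt Γ.st.n ∧ EvSem e (T.ev.get i)
  ax : ∀ i, Γ.axm.testBit i = true → (T.ax.get i).WF Γ.nt ∧ AxHolds e (T.ax.get i)
  sc : ∀ i, Γ.scm.testBit i = true → (∀ t ∈ (T.sc.get i).ts, t < Γ.nt) ∧ ScSem e (T.sc.get i)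
  dead : ∀ t, Γ.dead.testBit t = true → t < Γ.nt ∧ e.U t = ∅
  par : LS T.w Γ.nt e e.P Γ.st
  md : ∀ lo hi, Γ.md = some (lo, hi) → (∀ t ∈ lo, t < Γ.nt) ∧ ∀ t ∈ hi, t < Γ.nt

noncomputable def look (F : List (ℕ × ℕ)) (s : ℕ) : ℕ :=
  List.rec 0 (fun a _ ih => Bool.rec ih a.2 (Nat.beq a.1 s)) F

noncomputable def flipOf (F : List (ℕ × ℕ)) (s t : ℕ) : Bool := bit (look F s) t

def PEmb (e : Env) (p : Pat) (x τ : ℕ → ℕ) : Prop :=
  (∀ i < p.S.length, τ i ∈ p.S.getD i [] ∧ x i ∈ e.U (τ i)) ∧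
  (∀ i < p.S.length, ∀ j < p.S.length, x i = x j → i = j) ∧
  (∀ l ∈ p.lits, e.E (x l.i) (x l.j) = xor l.b (flipOf p.F (τ l.i) (τ l.j))) ∧
  ∀ l ∈ p.pl, e.E (x l.i) (e.P l.j) = l.b

def Refuted (T : Tab) (Γ : Ctx) (p : Pat) : Prop :=
  ∀ e, Holds T Γ e → ∀ x τ, ¬ PEmb e p x τ

def AllRef (T : Tab) (Γ : Ctx) (l : List Pat) : Prop := ∀ p ∈ l, Refuted T Γ p

def Mu (md : Option (List ℕ × List ℕ)) (e : Env) (S : Finset ℕ) (c : ℕ) : Prop :=
  match md with
  | none => LW e.E S c
  | some (lo, hi) => Sep e.E (e.un lo) (e.un hi) S c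

/-- The goal: in all environments satisfying the context, the union of the types `A` has
bounded measure. -/
def Bd (T : Tab) (Γ : Ctx) (A : List ℕ) : Prop :=
  ∃ c, ∀ e, Holds T Γ e → Mu Γ.md e (e.un A) c

theorem Mu.mono {md : Option (List ℕ × List ℕ)} {e : Env} {S S' : Finset ℕ} {c c' : ℕ}
    (h : Mu md e S c) (hS : S' ⊆ S) (hc : c ≤ c') : Mu md e S' c' := by
  rcases md with _ | ⟨lo, hi⟩
  · exact LW.mono h hS hc
  · exact Sep.mono h hS hc

theorem Mu.empty (md : Option (List ℕ × List ℕ)) (e : Env) (c : ℕ) : Mu md e ∅ c := by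
  rcases md with _ | ⟨lo, hi⟩
  · exact LW.empty _ _
  · exact Sep.empty _ _ _ _

theorem Mu.insert {md : Option (List ℕ × List ℕ)} {e : Env} {S : Finset ℕ} {c : ℕ}
    (h : Mu md e S c) (x : ℕ) : Mu md e (insert x S) (3 * c + 6) := by
  rcases md with _ | ⟨lo, hi⟩
  · exact LW.insert h x
  · exact Sep.insert h x

/-- Adding at most `N` vertices. -/
theorem Mu.union (c N : ℕ) : ∃ c', ∀ (md : Option (List ℕ × List ℕ)) (e : Env) (S D : Finset ℕ),
    D.card ≤ N → Mu md e S c → Mu md e (S ∪ D) c' := by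
  induction N with
  | zero =>
    refine ⟨c, fun md e S D hD h => ?_⟩
    have : D = ∅ := Finset.card_eq_zero.1 (by omega)
    simpa [this] using h
  | succ N ih =>
    obtain ⟨c', h'⟩ := ih
    refine ⟨3 * c' + 6, fun md e S D hD h => ?_⟩
    rcases D.eq_empty_or_nonempty with rfl | ⟨x, hx⟩
    · exact (h' md e S ∅ (by simp) h).mono subset_rfl (by omega)
    · refine ((h' md e S (D.erase x) (by rw [Finset.card_erase_of_mem hx]; omega) h).insert
        x).mono (fun v hv => ?_) le_rfl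
      simp only [Finset.mem_union, Finset.mem_insert, Finset.mem_erase] at hv ⊢
      tauto

theorem allRef_split {T : Tab} {Γ : Ctx} {l : List Pat} (n : ℕ) (h1 : AllRef T Γ (l.take n))
    (h2 : AllRef T Γ (l.drop n)) : AllRef T Γ l := by
  intro p hp
  rw [← List.take_append_drop n l, List.mem_append] at hp
  exact hp.elim (h1 p) (h2 p)

theorem allRef_nil (T : Tab) (Γ : Ctx) : AllRef T Γ [] := fun _ h => by simp at h

end Pool.Agent.Lib.MP_849b2e_co
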