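import Pool.Agent.Lib.MP_849b2e_co.Graph
import Pool.Agent.Lib.MP_849b2e_co.Ext

/-!
From pure lemmas to statements about graphs.
-/

namespace Pool.Agent.Lib.MP_849b2e_co

/-- Every copy of the pattern of `a` is an induced copy of `gr n l`. -/
noncomputable def isInd (a : Ax) (n : ℕ) (l : List (ℕ × ℕ)) : Bool :=
  andb (Nat.beq a.ts.length n) (allb (fun j => allb (fun i =>
    anyb (fun z => andb (Nat.beq z.i i) (andb (Nat.beq z.j j) (beqB z.b (adjL l i j)))) a.lits)
      (List.range j)) (List.range n))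

theorem top_adjL_symm (l : List (ℕ × ℕ)) (i j : ℕ) : adjL l i j = adjL l j i := by
  unfold adjL
  congr 1
  funext z
  rw [Bool.or_comm]

theorem top_ind {a : Ax} {n : ℕ} {l : List (ℕ × ℕ)} (h : isInd a n l = true) {e : Env}
    {S : Finset ℕ} (hU : ∀ t, e.U t = S) {x : ℕ → ℕ} (hx : Emb e a x) : IndIn (gr n l) e.E S := by
  simp only [isInd, andb_eq, allb_eq, anyb_eq, Bool.and_eq_true, Nat.beq_eq, List.all_eq_true,
    List.any_eq_true, List.mem_range, beqB_iff] at h
  obtain ⟨hn, h⟩ := h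
  obtain ⟨h1, h2, h3⟩ := hx
  rw [hn] at h1 h2
  have key : ∀ i j, i < j → j < n → e.E (x i) (x j) = adjL l i j := by
    intro i j ij hj
    obtain ⟨z, z1, z2, z3, z4⟩ := h j hj i ij
    rw [← z4, ← h3 z z1, z2, z3]
  refine ⟨fun i => x i, fun i j c => Fin.ext (h2 _ i.2 _ j.2 c), fun i => ?_, fun i j ij => ?_⟩
  · obtain ⟨t, _, ht⟩ := h1 _ i.2
    rwa [hU] at ht
  · rw [gr_adj, and_iff_right ij]
    rcases lt_or_gt_of_ne ij with c | c
    · rw [key _ _ c j.2]
    · rw [e.symm, key _ _ c i.2, top_adjL_symm]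

theorem Lem.bdN {T : Tab} {m : ℕ} (h : Lem T 0 m) (n₁ : ℕ) (l₁ : List (ℕ × ℕ)) (n₂ : ℕ)
    (l₂ : List (ℕ × ℕ))
    (hc : allb (fun i => orb (isInd (T.ax.get i) n₁ l₁) (isInd (T.ax.get i) n₂ l₂))
      (List.range m) = true) : BdN (gr n₁ l₁) (gr n₂ l₂) := by
  obtain ⟨c, k⟩ := h.bd
  have ok := h.ok
  simp only [pureOK, andb_eq, allb_eq, Bool.and_eq_true, List.all_eq_true, List.mem_range,
    ltb_iff, isNil_iff] at ok
  obtain ⟨o1, o2, o3⟩ := ok
  simp only [allb_eq, orb_eq, List.all_eq_true, List.mem_range, Bool.or_eq_true] at hc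
  refine ⟨c, fun E hE S n1 n2 => ?_⟩
  let e : Env := ⟨E, hE, fun _ => S, fun _ => 0⟩
  have H : Holds T (pureCtx 0 m) e := by
    refine ⟨o1, fun t ht v hv => ?_, fun i hi => ?_, fun i hi => ?_, fun i hi => ?_,
      fun i hi => ?_, ⟨Nat.zero_le _, fun u t _ hi => ?_, fun u t _ hi => ?_, fun u t _ hi => ?_,
        fun u hi => ?_, fun u v hi => ?_⟩, fun lo hi hm => ?_⟩
    · rw [Ty.eq_of_beq (o2 t ht)]
      obtain rfl : t = 0 := by
        change t < 0 + 1 at ht
        omega
      simp only [pureTy, pureCtx, if_true, Nat.zero_testBit, Bool.false_eq_true, false_imp_iff,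
        implies_true, and_true]
      intro s hs
      rw [Nat.testBit_one_eq_true_iff_self_eq_zero] at hs
      exact ⟨by omega, hv⟩
    · simp [pureCtx] at hi
    · have im : i < m := by
        have : (2 ^ m - 1).testBit i = true := by
          rw [← pw_eq]
          exact hi
        simpa [Nat.testBit_two_pow_sub_one] using this
      obtain ⟨a1, a2, _⟩ := o3 i im
      refine ⟨Ax.wf_of_wfb a2, fun x hx => ?_⟩
      rcases hc i im with d | d
      · exact absurd (top_ind d (fun _ => rfl) hx) n1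
      · exact absurd (top_ind d (fun _ => rfl) hx) n2
    all_goals simp [pureCtx] at *
  have m := k e H
  have u : e.un (pureAct 0) = S := by
    ext v
    simp [pureAct, e]
  rw [u] at m
  exact m

end Pool.Agent.Lib.MP_849b2e_co
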