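import Pool.Agent.Lib.MP_849b2e_co.Bases
import Pool.Agent.Lib.MP_849b2e_co.Top
import Pool.Agent.Lib.MP_849b2e_co.Bad

/-!
Glue for the unbounded families.
-/

namespace Pool.Agent.Lib.MP_849b2e_co

theorem unbgen_dis {k t s : ℕ} (ht : t < k + 1) (h0 : t ≠ 0)
    (h : (Nat.xor (pw (k + 1) - 2) (pw t)).testBit s = true) : s < k + 1 ∧ s ≠ 0 ∧ s ≠ t := by
  have e : pw (k + 1) - 2 = 2 * (2 ^ k - 1) := by
    rw [pw_eq, pow_succ]
    omega
  have key : ∀ r, (pw (k + 1) - 2).testBit r = decide (r ≠ 0 ∧ r < k + 1) := by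
    intro r
    rw [e]
    rcases r with _ | r
    · simp
    · rw [Nat.testBit_succ, Nat.mul_div_cancel_left _ (by norm_num : 0 < 2),
        Nat.testBit_two_pow_sub_one]
      simp
  rw [xor_eq, Nat.testBit_xor, key, testBit_pw] at h
  by_cases c : t = s
  · subst c
    simp [h0, ht] at h
  · simp only [c, decide_false, Bool.xor_false, decide_eq_true_eq] at h
    exact ⟨h.2, h.1, Ne.symm c⟩

theorem unb_use {k : ℕ} {l : List Ax} (h : Unb k l) {T : Tab} {m : ℕ} (L : Lem T k m)
    (hc : allb (fun i => anyb (Ax.beq (T.ax.get i)) l) (List.range m) = true) : False := by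
  obtain ⟨E, hE, τ, hτ, hl, hun⟩ := h
  obtain ⟨c, hbd⟩ := L.bd
  obtain ⟨S, hS⟩ := hun c
  have ok := L.ok
  simp only [pureOK, andb_eq, allb_eq, Bool.and_eq_true, ltb_iff, List.all_eq_true,
    List.mem_range, isNil_iff] at ok
  obtain ⟨ok1, ok2, ok3⟩ := ok
  simp only [allb_eq, anyb_eq, List.all_eq_true, List.any_eq_true, List.mem_range] at hc
  let e : Env := ⟨E, hE, fun t => if t = 0 then S else S.filter fun v => τ v = t, fun _ => 0⟩
  have hU : ∀ t v, v ∈ e.U t ↔ v ∈ S ∧ (t = 0 ∨ τ v = t) := by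
    intro t v
    show v ∈ (if t = 0 then S else S.filter fun v => τ v = t) ↔ _
    by_cases c : t = 0
    · simp only [c, if_true, true_or, and_true]
    · simp only [c, if_false, false_or, Finset.mem_filter]
  have H : Holds T (pureCtx k m) e := by
    refine ⟨ok1, fun t ht => ?_, fun i hi => ?_, fun i hi => ?_, fun i hi => ?_, fun i hi => ?_,
      ⟨Nat.zero_le _, fun u t _ a => ?_, fun u t _ a => ?_, fun u t _ a => ?_, fun u a => ?_,
        fun u v a => ?_⟩, fun lo hi a => ?_⟩
    · have ht' : t < k + 1 := ht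
      rw [Ty.eq_of_beq (ok2 t ht')]
      intro v hv
      have hv' := (hU t v).1 hv
      unfold pureTy
      by_cases c : t = 0
      · rw [if_pos c]
        refine ⟨fun s hs => ?_, fun s hs => by simp at hs, fun s hs => by simp at hs,
          fun s hs => by simp at hs, fun s hs => by simp at hs⟩
        have : s = 0 := Nat.testBit_one_eq_true_iff_self_eq_zero.1 hs
        subst this
        exact ⟨Nat.succ_pos _, (hU 0 v).2 ⟨hv'.1, Or.inl rfl⟩⟩
      · rw [if_neg c]
        refine ⟨fun s hs => ?_, fun s hs => ?_, fun s hs => by simp at hs,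
          fun s hs => by simp at hs, fun s hs => by simp at hs⟩
        · simp only [lor_eq, Nat.testBit_or, testBit_pw, Bool.or_eq_true, decide_eq_true_eq,
            Nat.testBit_one_eq_true_iff_self_eq_zero] at hs
          rcases hs with rfl | rfl
          · exact ⟨Nat.succ_pos _, (hU 0 v).2 ⟨hv'.1, Or.inl rfl⟩⟩
          · exact ⟨ht, hv⟩
        · obtain ⟨a1, a2, a3⟩ := unbgen_dis ht' c hs
          refine ⟨a1, fun d => ?_⟩
          have d' := ((hU s v).1 d).2.resolve_left a2
          exact a3 (d'.symm.trans (hv'.2.resolve_left c))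
    · simp [pureCtx] at hi
    · have hi' : i < m := by
        have : (pw m - 1).testBit i = true := hi
        rw [pw_eq, Nat.testBit_two_pow_sub_one] at this
        simpa using this
      obtain ⟨_, b2, _⟩ := ok3 i hi'
      refine ⟨Ax.wf_of_wfb b2, fun x hx => ?_⟩
      exfalso
      obtain ⟨a, ha, hb⟩ := hc i hi'
      have ea := Ax.eq_of_beq hb
      rw [ea] at hx
      obtain ⟨x1, x2, x3⟩ := hx
      refine hl a ha x (fun j hj => ?_) x2 x3
      obtain ⟨t, d1, d2⟩ := x1 j hj
      rcases ((hU t _).1 d2).2 with d | d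
      · left
        rwa [d] at d1
      · right
        rwa [d]
    · simp [pureCtx] at hi
    · simp [pureCtx] at hi
    · simp [pureCtx] at a
    · simp [pureCtx] at a
    · simp [pureCtx] at a
    · simp [pureCtx] at a
    · simp [pureCtx] at a
    · simp [pureCtx] at a
  have h4 : LW E (e.un (pureAct k)) c := hbd e H
  refine hS (h4.mono (fun v hv => Env.mem_un.2 ⟨τ v, ?_, (hU _ v).2 ⟨hv, Or.inr rfl⟩⟩) le_rfl)
  have h1 := hτ v
  unfold pureAct
  rw [if_neg (by omega)]
  exact List.mem_map.2 ⟨τ v - 1, List.mem_range.2 (by omega), by omega⟩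

/-- The clause forbidding an induced copy of a graph. -/
def indCl (c : Code) : Ax :=
  cl (List.replicate c.1 1)
    ((List.range c.1).flatMap fun i => (List.range (c.1 - (i + 1))).map fun z =>
      ⟨i, i + 1 + z, adjL c.2 i (i + 1 + z)⟩)

def pairTab (p : Code × Code) : Tab :=
  ⟨1, .leaf ⟨1, 0, 0, 0, 0⟩, .leaf ⟨0, [], 0⟩, .br (.leaf (indCl p.1)) (.leaf (indCl p.2)),
    .leaf ⟨[], []⟩⟩

theorem unbgen_mem {c : Code} {z : Lit} (hz : z ∈ (indCl c).lits) :
    z.i < z.j ∧ z.j < c.1 ∧ z.b = adjL c.2 z.i z.j := by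
  simp only [indCl, cl, List.mem_flatMap, List.mem_map, List.mem_range] at hz
  obtain ⟨i, hi, w, hw, rfl⟩ := hz
  refine ⟨?_, ?_, rfl⟩
  · show i < i + 1 + w
    omega
  · show i + 1 + w < c.1
    omega

theorem unbgen_len (c : Code) : (indCl c).ts.length = c.1 := by
  simp [indCl, cl]

theorem unbgen_ok (c : Code) :
    (indCl c).con = [] ∧ Ax.wfb (0 + 1) (indCl c) = true ∧
      ∀ z ∈ (indCl c).lits, z.i < (indCl c).ts.length ∧ z.j < (indCl c).ts.length := by
  refine ⟨rfl, ?_, fun z hz => ?_⟩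
  · have e : (indCl c).con = [] := rfl
    simp only [Ax.wfb, e, andb_eq, allb_eq, List.all_nil, Bool.and_true, allLt_iff]
    intro t ht
    simp only [indCl, cl, List.mem_replicate] at ht
    rw [ht.2, pw_eq]
    norm_num
  · have := unbgen_mem hz
    rw [unbgen_len]
    omega

theorem unbgen_emb {c : Code} {e : Env} (h : IndIn c.g e.E (e.U 0)) :
    ∃ x, Emb e (indCl c) x := by
  obtain ⟨x, h1, h2, h3⟩ := h
  refine ⟨fun i => if hi : i < c.1 then x ⟨i, hi⟩ else 0, fun i hi => ?_,
    fun i hi j hj d => ?_, fun z hz => ?_⟩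
  · rw [unbgen_len] at hi
    refine ⟨0, ?_, ?_⟩
    · have : (indCl c).ts.getD i 0 = 1 := by
        simp [indCl, cl, hi]
      rw [this]
      rfl
    · simp only [dif_pos hi]
      exact h2 _
  · rw [unbgen_len] at hi hj
    simp only [dif_pos hi, dif_pos hj] at d
    exact congrArg Fin.val (h1 d)
  · obtain ⟨a1, a2, a3⟩ := unbgen_mem hz
    have a0 : z.i < c.1 := by omega
    simp only [dif_pos a0, dif_pos a2]
    have ne : (⟨z.i, a0⟩ : Fin c.1) ≠ ⟨z.j, a2⟩ := fun d => by
      have := congrArg Fin.val d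
      simp only at this
      omega
    have k := h3 _ _ ne
    rw [gr_adj, and_iff_right ne] at k
    rw [a3]
    exact Bool.eq_iff_iff.2 k

theorem lem_of_bdN (p : Code × Code) (h : BdN p.1.g p.2.g) : Lem (pairTab p) 0 2 := by
  have g0 : (pairTab p).ax.get 0 = indCl p.1 := rfl
  have g1 : (pairTab p).ax.get 1 = indCl p.2 := rfl
  refine ⟨?_, ?_⟩
  · simp only [pureOK, andb_eq, allb_eq, Bool.and_eq_true, ltb_iff, List.all_eq_true,
      List.mem_range, isNil_iff]
    refine ⟨Nat.one_pos, fun t ht => ?_, fun i hi => ?_⟩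
    · obtain rfl : t = 0 := by omega
      rfl
    · rcases (by omega : i = 0 ∨ i = 1) with rfl | rfl
      · rw [g0]
        exact unbgen_ok _
      · rw [g1]
        exact unbgen_ok _
  · obtain ⟨c, hc⟩ := h
    refine ⟨c, fun e H => ?_⟩
    have u : e.un (pureAct 0) = e.U 0 := by
      ext v
      simp [pureAct]
    show LW e.E (e.un (pureAct 0)) c
    rw [u]
    refine hc e.E e.symm _ (fun d => ?_) (fun d => ?_)
    · obtain ⟨x, hx⟩ := unbgen_emb d
      have a := (H.ax 0 rfl).2
      rw [g0] at a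
      obtain ⟨w, _, _, z, hz, _⟩ := a x hx ∅ (Nat.zero_le _)
      exact absurd hz List.not_mem_nil
    · obtain ⟨x, hx⟩ := unbgen_emb d
      have a := (H.ax 1 rfl).2
      rw [g1] at a
      obtain ⟨w, _, _, z, hz, _⟩ := a x hx ∅ (Nat.zero_le _)
      exact absurd hz List.not_mem_nil

end Pool.Agent.Lib.MP_849b2e_co
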