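import Pool.Agent.Lib.MP_849b2e_co.Fast
import Pool.Agent.Lib.MP_849b2e_co.AllR
import Pool.Agent.Lib.MP_849b2e_co.UnbGen

set_option maxRecDepth 100000
set_option linter.all false
namespace Pool.Agent.Lib.MP_849b2e_co

noncomputable def u00_ty : Tr Ty := (Tr.br (Tr.br (Tr.leaf ⟨1,0,0,0,0⟩) (Tr.leaf ⟨5,2,0,0,0⟩))
 (Tr.leaf ⟨3,4,0,0,0⟩))

noncomputable def u00_ev : Tr Ev := (Tr.leaf ⟨0,[],0⟩)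
noncomputable def u00_ax : Tr Ax := (Tr.br (Tr.leaf ⟨[2,2],[⟨0,1,true⟩],[],0⟩) (Tr.leaf ⟨[4,4],[⟨0,1,true⟩],[],0⟩))

noncomputable def u00_sc : Tr Sc := (Tr.leaf ⟨[],[]⟩)
noncomputable def u00_T : Tab := ⟨3,u00_ty,u00_ev,u00_ax,u00_sc⟩
noncomputable def u00_o0c : Pq := (Pq.cons (Pq.D 0 (Pq.cons (Pq.D 1 (Pq.cons (Pq.L [] 1 (Pf.C 0 128))
 (Pq.cons (Pq.D 2 (Pq.cons (Pq.L [] 2 (Pf.C 0 256))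
 (Pq.cons (Pq.L [] 4 (Pf.C 1 257))
 Pq.nil))) Pq.nil))) (Pq.cons (Pq.D 1 (Pq.cons (Pq.D 2 (Pq.cons (Pq.L [] 4 (Pf.C 0 257))
 (Pq.cons (Pq.L [] 2 (Pf.C 1 256))
 Pq.nil))) (Pq.cons (Pq.L [] 1 (Pf.C 1 128))
 Pq.nil))) Pq.nil))) (Pq.cons (Pq.D 0 (Pq.cons (Pq.D 1 (Pq.cons (Pq.L [] 1 (Pf.C 0 128))
 (Pq.cons (Pq.D 2 (Pq.cons (Pq.L [] 2 (Pf.C 0 256))
 (Pq.cons (Pq.L [] 4 (Pf.C 1 257))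
 Pq.nil))) Pq.nil))) (Pq.cons (Pq.D 1 (Pq.cons (Pq.D 2 (Pq.cons (Pq.L [] 4 (Pf.C 0 257))
 (Pq.cons (Pq.L [] 2 (Pf.C 1 256))
 Pq.nil))) (Pq.cons (Pq.L [] 1 (Pf.C 1 128))
 Pq.nil))) Pq.nil))) Pq.nil))
theorem u00_o0 : AllRef u00_T (pureCtx 2 2) (applyObl (pairTab (cK3, cK3)) 2 [1,2] [0,0] []) :=
  chkPq_sound u00_o0c _ (by decide +kernel)
theorem u00_n0 (hP : Lem (pairTab (cK3, cK3)) 0 2) : Bd u00_T (pureCtx 2 2) (pureAct 2) :=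
  show Bd _ _ [1,2] from r_apply hP [0,0] [] (by decide +kernel) u00_o0
theorem lem_u00 (hP : Lem (pairTab (cK3, cK3)) 0 2) : Lem u00_T 2 2 := ⟨by decide +kernel, (u00_n0 hP)⟩
theorem nb_u00 (h : Unb  2 axT2) : ¬ BdN cK3.g cK3.g :=
  fun hb => unb_use h (lem_u00 (lem_of_bdN (cK3, cK3) hb)) (by decide +kernel)

noncomputable def u01_ty : Tr Ty := (Tr.br (Tr.br (Tr.leaf ⟨1,0,0,0,0⟩) (Tr.leaf ⟨5,2,0,0,0⟩))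
 (Tr.leaf ⟨3,4,0,0,0⟩))

noncomputable def u01_ev : Tr Ev := (Tr.leaf ⟨0,[],0⟩)
noncomputable def u01_ax : Tr Ax := (Tr.br (Tr.br (Tr.leaf ⟨[2,2],[⟨0,1,true⟩],[],0⟩) (Tr.leaf ⟨[1,1,1,1],[⟨0,1,true⟩,⟨0,3,true⟩,⟨1,2,true⟩,⟨2,3,true⟩],[],0⟩))
 (Tr.leaf ⟨[4,4],[⟨0,1,true⟩],[],0⟩))

noncomputable def u01_sc : Tr Sc := (Tr.leaf ⟨[],[]⟩)
noncomputable def u01_T : Tab := ⟨3,u01_ty,u01_ev,u01_ax,u01_sc⟩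
noncomputable def u01_o0c : Pq := (Pq.cons (Pq.D 0 (Pq.cons (Pq.D 1 (Pq.cons (Pq.L [] 1 (Pf.C 0 128))
 (Pq.cons (Pq.D 2 (Pq.cons (Pq.L [] 2 (Pf.C 0 256))
 (Pq.cons (Pq.L [] 4 (Pf.C 1 257))
 Pq.nil))) Pq.nil))) (Pq.cons (Pq.D 1 (Pq.cons (Pq.D 2 (Pq.cons (Pq.L [] 4 (Pf.C 0 257))
 (Pq.cons (Pq.L [] 2 (Pf.C 1 256))
 Pq.nil))) (Pq.cons (Pq.L [] 1 (Pf.C 1 128))
 Pq.nil))) Pq.nil))) (Pq.cons (Pq.L [] 45 (Pf.C 2 0x608080))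
 Pq.nil))
theorem u01_o0 : AllRef u01_T (pureCtx 2 3) (applyObl (pairTab (cK3, cC4)) 2 [1,2] [0,0] []) :=
  chkPq_sound u01_o0c _ (by decide +kernel)
theorem u01_n0 (hP : Lem (pairTab (cK3, cC4)) 0 2) : Bd u01_T (pureCtx 2 3) (pureAct 2) :=
  show Bd _ _ [1,2] from r_apply hP [0,0] [] (by decide +kernel) u01_o0
theorem lem_u01 (hP : Lem (pairTab (cK3, cC4)) 0 2) : Lem u01_T 2 3 := ⟨by decide +kernel, (u01_n0 hP)⟩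
theorem nb_u01 (h : Unb  2 axT2) : ¬ BdN cK3.g cC4.g :=
  fun hb => unb_use h (lem_u01 (lem_of_bdN (cK3, cC4) hb)) (by decide +kernel)

noncomputable def u02_ty : Tr Ty := (Tr.br (Tr.br (Tr.leaf ⟨1,0,0,0,0⟩) (Tr.leaf ⟨5,2,0,0,0⟩))
 (Tr.leaf ⟨3,4,0,0,0⟩))

noncomputable def u02_ev : Tr Ev := (Tr.leaf ⟨0,[],0⟩)
noncomputable def u02_ax : Tr Ax := (Tr.br (Tr.br (Tr.leaf ⟨[2,2],[⟨0,1,true⟩],[],0⟩) (Tr.leaf ⟨[1,1,1,1,1],[⟨0,1,true⟩,⟨0,2,true⟩,⟨0,3,true⟩,⟨0,4,true⟩],[],0⟩))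
 (Tr.leaf ⟨[4,4],[⟨0,1,true⟩],[],0⟩))

noncomputable def u02_sc : Tr Sc := (Tr.leaf ⟨[],[]⟩)
noncomputable def u02_T : Tab := ⟨3,u02_ty,u02_ev,u02_ax,u02_sc⟩
noncomputable def u02_o0c : Pq := (Pq.cons (Pq.D 0 (Pq.cons (Pq.D 1 (Pq.cons (Pq.L [] 1 (Pf.C 0 128))
 (Pq.cons (Pq.D 2 (Pq.cons (Pq.L [] 2 (Pf.C 0 256))
 (Pq.cons (Pq.L [] 4 (Pf.C 1 257))
 Pq.nil))) Pq.nil))) (Pq.cons (Pq.D 1 (Pq.cons (Pq.D 2 (Pq.cons (Pq.L [] 4 (Pf.C 0 257))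
 (Pq.cons (Pq.L [] 2 (Pf.C 1 256))
 Pq.nil))) (Pq.cons (Pq.L [] 1 (Pf.C 1 128))
 Pq.nil))) Pq.nil))) (Pq.cons (Pq.L [] 15 (Pf.C 2 0x40608080))
 Pq.nil))
theorem u02_o0 : AllRef u02_T (pureCtx 2 3) (applyObl (pairTab (cK3, cK14)) 2 [1,2] [0,0] []) :=
  chkPq_sound u02_o0c _ (by decide +kernel)
theorem u02_n0 (hP : Lem (pairTab (cK3, cK14)) 0 2) : Bd u02_T (pureCtx 2 3) (pureAct 2) :=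
  show Bd _ _ [1,2] from r_apply hP [0,0] [] (by decide +kernel) u02_o0
theorem lem_u02 (hP : Lem (pairTab (cK3, cK14)) 0 2) : Lem u02_T 2 3 := ⟨by decide +kernel, (u02_n0 hP)⟩
theorem nb_u02 (h : Unb  2 axT2) : ¬ BdN cK3.g cK14.g :=
  fun hb => unb_use h (lem_u02 (lem_of_bdN (cK3, cK14) hb)) (by decide +kernel)

noncomputable def u03_ty : Tr Ty := (Tr.br (Tr.br (Tr.leaf ⟨1,0,0,0,0⟩) (Tr.leaf ⟨5,2,0,0,0⟩))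
 (Tr.leaf ⟨3,4,0,0,0⟩))

noncomputable def u03_ev : Tr Ev := (Tr.leaf ⟨0,[],0⟩)
noncomputable def u03_ax : Tr Ax := (Tr.br (Tr.leaf ⟨[2,2],[⟨0,1,true⟩],[],0⟩) (Tr.leaf ⟨[4,4],[⟨0,1,true⟩],[],0⟩))

noncomputable def u03_sc : Tr Sc := (Tr.leaf ⟨[],[]⟩)
noncomputable def u03_T : Tab := ⟨3,u03_ty,u03_ev,u03_ax,u03_sc⟩
noncomputable def u03_o0c : Pq := (Pq.cons (Pq.D 0 (Pq.cons (Pq.D 1 (Pq.cons (Pq.L [] 1 (Pf.C 0 128))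
 (Pq.cons (Pq.D 2 (Pq.cons (Pq.L [] 2 (Pf.C 0 256))
 (Pq.cons (Pq.L [] 4 (Pf.C 1 257))
 Pq.nil))) Pq.nil))) (Pq.cons (Pq.D 1 (Pq.cons (Pq.D 2 (Pq.cons (Pq.L [] 4 (Pf.C 0 257))
 (Pq.cons (Pq.L [] 2 (Pf.C 1 256))
 Pq.nil))) (Pq.cons (Pq.L [] 1 (Pf.C 1 128))
 Pq.nil))) Pq.nil))) (Pq.cons (Pq.D 0 (Pq.cons (Pq.D 1 (Pq.cons (Pq.L [] 1 (Pf.C 0 128))
 (Pq.cons (Pq.D 2 (Pq.cons (Pq.D 3 (Pq.cons (Pq.L [] 128 (Pf.C 0 386))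
 (Pq.cons (Pq.D 4 (Pq.cons (Pq.L [] 8 (Pf.C 0 512))
 (Pq.cons (Pq.L [] 512 (Pf.C 1 515))
 Pq.nil))) Pq.nil))) (Pq.cons (Pq.L [] 16 (Pf.C 1 257))
 Pq.nil))) Pq.nil))) (Pq.cons (Pq.D 1 (Pq.cons (Pq.D 2 (Pq.cons (Pq.L [] 16 (Pf.C 0 257))
 (Pq.cons (Pq.D 3 (Pq.cons (Pq.D 4 (Pq.cons (Pq.L [] 512 (Pf.C 0 515))
 (Pq.cons (Pq.L [] 8 (Pf.C 1 512))
 Pq.nil))) (Pq.cons (Pq.L [] 128 (Pf.C 1 386))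
 Pq.nil))) Pq.nil))) (Pq.cons (Pq.L [] 1 (Pf.C 1 128))
 Pq.nil))) Pq.nil))) Pq.nil))
theorem u03_o0 : AllRef u03_T (pureCtx 2 2) (applyObl (pairTab (cK3, cC5)) 2 [1,2] [0,0] []) :=
  chkPq_sound u03_o0c _ (by decide +kernel)
theorem u03_n0 (hP : Lem (pairTab (cK3, cC5)) 0 2) : Bd u03_T (pureCtx 2 2) (pureAct 2) :=
  show Bd _ _ [1,2] from r_apply hP [0,0] [] (by decide +kernel) u03_o0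
theorem lem_u03 (hP : Lem (pairTab (cK3, cC5)) 0 2) : Lem u03_T 2 2 := ⟨by decide +kernel, (u03_n0 hP)⟩
theorem nb_u03 (h : Unb  2 axT2) : ¬ BdN cK3.g cC5.g :=
  fun hb => unb_use h (lem_u03 (lem_of_bdN (cK3, cC5) hb)) (by decide +kernel)

noncomputable def u04_ty : Tr Ty := (Tr.br (Tr.br (Tr.leaf ⟨1,0,0,0,0⟩) (Tr.leaf ⟨5,2,0,0,0⟩))
 (Tr.leaf ⟨3,4,0,0,0⟩))

noncomputable def u04_ev : Tr Ev := (Tr.leaf ⟨0,[],0⟩)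
noncomputable def u04_ax : Tr Ax := (Tr.br (Tr.br (Tr.leaf ⟨[2,2],[⟨0,1,true⟩],[],0⟩) (Tr.leaf ⟨[1,1,1,1,1,1],[⟨0,1,true⟩,⟨0,5,true⟩,⟨1,2,true⟩,⟨2,3,true⟩,⟨3,4,true⟩,⟨4,5,true⟩],[],0⟩))
 (Tr.leaf ⟨[4,4],[⟨0,1,true⟩],[],0⟩))

noncomputable def u04_sc : Tr Sc := (Tr.leaf ⟨[],[]⟩)
noncomputable def u04_T : Tab := ⟨3,u04_ty,u04_ev,u04_ax,u04_sc⟩
noncomputable def u04_o0c : Pq := (Pq.cons (Pq.D 0 (Pq.cons (Pq.D 1 (Pq.cons (Pq.L [] 1 (Pf.C 0 128))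
 (Pq.cons (Pq.D 2 (Pq.cons (Pq.L [] 2 (Pf.C 0 256))
 (Pq.cons (Pq.L [] 4 (Pf.C 1 257))
 Pq.nil))) Pq.nil))) (Pq.cons (Pq.D 1 (Pq.cons (Pq.D 2 (Pq.cons (Pq.L [] 4 (Pf.C 0 257))
 (Pq.cons (Pq.L [] 2 (Pf.C 1 256))
 Pq.nil))) (Pq.cons (Pq.L [] 1 (Pf.C 1 128))
 Pq.nil))) Pq.nil))) (Pq.cons (Pq.L [] 21041 (Pf.C 2 0x2840608080))
 Pq.nil))
theorem u04_o0 : AllRef u04_T (pureCtx 2 3) (applyObl (pairTab (cK3, cC6)) 2 [1,2] [0,0] []) :=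
  chkPq_sound u04_o0c _ (by decide +kernel)
theorem u04_n0 (hP : Lem (pairTab (cK3, cC6)) 0 2) : Bd u04_T (pureCtx 2 3) (pureAct 2) :=
  show Bd _ _ [1,2] from r_apply hP [0,0] [] (by decide +kernel) u04_o0
theorem lem_u04 (hP : Lem (pairTab (cK3, cC6)) 0 2) : Lem u04_T 2 3 := ⟨by decide +kernel, (u04_n0 hP)⟩
theorem nb_u04 (h : Unb  2 axT2) : ¬ BdN cK3.g cC6.g :=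
  fun hb => unb_use h (lem_u04 (lem_of_bdN (cK3, cC6) hb)) (by decide +kernel)

noncomputable def u05_ty : Tr Ty := (Tr.br (Tr.br (Tr.leaf ⟨1,0,0,0,0⟩) (Tr.leaf ⟨5,2,0,0,0⟩))
 (Tr.leaf ⟨3,4,0,0,0⟩))

noncomputable def u05_ev : Tr Ev := (Tr.leaf ⟨0,[],0⟩)
noncomputable def u05_ax : Tr Ax := (Tr.br (Tr.br (Tr.leaf ⟨[2,2],[⟨0,1,true⟩],[],0⟩) (Tr.leaf ⟨[1,1,1,1,1,1],[⟨0,1,true⟩,⟨0,2,true⟩,⟨0,3,true⟩,⟨1,4,true⟩,⟨1,5,true⟩],[],0⟩))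
 (Tr.leaf ⟨[4,4],[⟨0,1,true⟩],[],0⟩))

noncomputable def u05_sc : Tr Sc := (Tr.leaf ⟨[],[]⟩)
noncomputable def u05_T : Tab := ⟨3,u05_ty,u05_ev,u05_ax,u05_sc⟩
noncomputable def u05_o0c : Pq := (Pq.cons (Pq.D 0 (Pq.cons (Pq.D 1 (Pq.cons (Pq.L [] 1 (Pf.C 0 128))
 (Pq.cons (Pq.D 2 (Pq.cons (Pq.L [] 2 (Pf.C 0 256))
 (Pq.cons (Pq.L [] 4 (Pf.C 1 257))
 Pq.nil))) Pq.nil))) (Pq.cons (Pq.D 1 (Pq.cons (Pq.D 2 (Pq.cons (Pq.L [] 4 (Pf.C 0 257))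
 (Pq.cons (Pq.L [] 2 (Pf.C 1 256))
 Pq.nil))) (Pq.cons (Pq.L [] 1 (Pf.C 1 128))
 Pq.nil))) Pq.nil))) (Pq.cons (Pq.L [] 391 (Pf.C 2 0x2840608080))
 Pq.nil))
theorem u05_o0 : AllRef u05_T (pureCtx 2 3) (applyObl (pairTab (cK3, cH)) 2 [1,2] [0,0] []) :=
  chkPq_sound u05_o0c _ (by decide +kernel)
theorem u05_n0 (hP : Lem (pairTab (cK3, cH)) 0 2) : Bd u05_T (pureCtx 2 3) (pureAct 2) :=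
  show Bd _ _ [1,2] from r_apply hP [0,0] [] (by decide +kernel) u05_o0
theorem lem_u05 (hP : Lem (pairTab (cK3, cH)) 0 2) : Lem u05_T 2 3 := ⟨by decide +kernel, (u05_n0 hP)⟩
theorem nb_u05 (h : Unb  2 axT2) : ¬ BdN cK3.g cH.g :=
  fun hb => unb_use h (lem_u05 (lem_of_bdN (cK3, cH) hb)) (by decide +kernel)

noncomputable def u06_ty : Tr Ty := (Tr.br (Tr.br (Tr.leaf ⟨1,0,0,0,0⟩) (Tr.leaf ⟨5,2,0,0,0⟩))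
 (Tr.leaf ⟨3,4,0,0,0⟩))

noncomputable def u06_ev : Tr Ev := (Tr.leaf ⟨0,[],0⟩)
noncomputable def u06_ax : Tr Ax := (Tr.leaf ⟨[1,1,1,1],[⟨0,1,true⟩,⟨0,3,true⟩,⟨1,2,true⟩,⟨2,3,true⟩],[],0⟩)
noncomputable def u06_sc : Tr Sc := (Tr.leaf ⟨[],[]⟩)
noncomputable def u06_T : Tab := ⟨3,u06_ty,u06_ev,u06_ax,u06_sc⟩
noncomputable def u06_o0c : Pq := (Pq.cons (Pq.L [] 45 (Pf.C 0 0x608080))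
 (Pq.cons (Pq.L [] 45 (Pf.C 0 0x608080))
 Pq.nil))
theorem u06_o0 : AllRef u06_T (pureCtx 2 1) (applyObl (pairTab (cC4, cC4)) 2 [1,2] [0,0] []) :=
  chkPq_sound u06_o0c _ (by decide +kernel)
theorem u06_n0 (hP : Lem (pairTab (cC4, cC4)) 0 2) : Bd u06_T (pureCtx 2 1) (pureAct 2) :=
  show Bd _ _ [1,2] from r_apply hP [0,0] [] (by decide +kernel) u06_o0
theorem lem_u06 (hP : Lem (pairTab (cC4, cC4)) 0 2) : Lem u06_T 2 1 := ⟨by decide +kernel, (u06_n0 hP)⟩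
theorem nb_u06 (h : Unb  2 axT2) : ¬ BdN cC4.g cC4.g :=
  fun hb => unb_use h (lem_u06 (lem_of_bdN (cC4, cC4) hb)) (by decide +kernel)

noncomputable def u07_ty : Tr Ty := (Tr.br (Tr.br (Tr.leaf ⟨1,0,0,0,0⟩) (Tr.leaf ⟨5,2,0,0,0⟩))
 (Tr.leaf ⟨3,4,0,0,0⟩))

noncomputable def u07_ev : Tr Ev := (Tr.leaf ⟨0,[],0⟩)
noncomputable def u07_ax : Tr Ax := (Tr.br (Tr.br (Tr.leaf ⟨[2,2],[⟨0,1,true⟩],[],0⟩) (Tr.leaf ⟨[1,1,1,1],[⟨0,1,true⟩,⟨0,3,true⟩,⟨1,2,true⟩,⟨2,3,true⟩],[],0⟩))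
 (Tr.br (Tr.leaf ⟨[4,4],[⟨0,1,true⟩],[],0⟩) (Tr.leaf ⟨[1,1,1,1,1,1],[⟨0,1,true⟩,⟨0,5,true⟩,⟨1,2,true⟩,⟨2,3,true⟩,⟨3,4,true⟩,⟨4,5,true⟩],[],0⟩))
)

noncomputable def u07_sc : Tr Sc := (Tr.leaf ⟨[],[]⟩)
noncomputable def u07_T : Tab := ⟨3,u07_ty,u07_ev,u07_ax,u07_sc⟩
noncomputable def u07_o0c : Pq := (Pq.cons (Pq.D 0 (Pq.cons (Pq.D 1 (Pq.cons (Pq.L [] 1 (Pf.C 0 128))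
 (Pq.cons (Pq.D 2 (Pq.cons (Pq.L [] 2 (Pf.C 0 256))
 (Pq.cons (Pq.L [] 4 (Pf.C 1 257))
 Pq.nil))) Pq.nil))) (Pq.cons (Pq.D 1 (Pq.cons (Pq.D 2 (Pq.cons (Pq.L [] 4 (Pf.C 0 257))
 (Pq.cons (Pq.L [] 2 (Pf.C 1 256))
 Pq.nil))) (Pq.cons (Pq.L [] 1 (Pf.C 1 128))
 Pq.nil))) Pq.nil))) (Pq.cons (Pq.D 0 (Pq.cons (Pq.D 1 (Pq.cons (Pq.L [] 1 (Pf.C 0 128))
 (Pq.cons (Pq.D 2 (Pq.cons (Pq.D 3 (Pq.cons (Pq.L [] 512 (Pf.C 0 386))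
 (Pq.cons (Pq.D 4 (Pq.cons (Pq.D 5 (Pq.cons (Pq.L [] 12672 (Pf.C 2 0xa0c201))
 (Pq.cons (Pq.L [] 6324 (Pf.C 3 0x2820210180))
 Pq.nil))) (Pq.cons (Pq.D 5 (Pq.cons (Pq.L [] 9516 (Pf.C 3 0x2020214180))
 (Pq.cons (Pq.L [] 3096 (Pf.C 2 0xa08200))
 Pq.nil))) Pq.nil))) Pq.nil))) (Pq.cons (Pq.D 3 (Pq.cons (Pq.D 4 (Pq.cons (Pq.D 5 (Pq.cons (Pq.L [] 3456 (Pf.C 2 0xa08201))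
 (Pq.cons (Pq.L [] 9426 (Pf.C 3 0x2830210100))
 Pq.nil))) (Pq.cons (Pq.D 5 (Pq.cons (Pq.L [] 6474 (Pf.C 3 0x2030214100))
 (Pq.cons (Pq.L [] 12312 (Pf.C 2 0xa0c200))
 Pq.nil))) Pq.nil))) (Pq.cons (Pq.L [] 512 (Pf.C 1 386))
 Pq.nil))) Pq.nil))) Pq.nil))) (Pq.cons (Pq.D 1 (Pq.cons (Pq.D 2 (Pq.cons (Pq.D 3 (Pq.cons (Pq.L [] 512 (Pf.C 0 386))
 (Pq.cons (Pq.D 4 (Pq.cons (Pq.D 5 (Pq.cons (Pq.L [] 12312 (Pf.C 2 0xa0c200))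
 (Pq.cons (Pq.L [] 6474 (Pf.C 3 0x2030214100))
 Pq.nil))) (Pq.cons (Pq.D 5 (Pq.cons (Pq.L [] 9426 (Pf.C 3 0x2830210100))
 (Pq.cons (Pq.L [] 3456 (Pf.C 2 0xa08201))
 Pq.nil))) Pq.nil))) Pq.nil))) (Pq.cons (Pq.D 3 (Pq.cons (Pq.D 4 (Pq.cons (Pq.D 5 (Pq.cons (Pq.L [] 3096 (Pf.C 2 0xa08200))
 (Pq.cons (Pq.L [] 9516 (Pf.C 3 0x2020214180))
 Pq.nil))) (Pq.cons (Pq.D 5 (Pq.cons (Pq.L [] 6324 (Pf.C 3 0x2820210180))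
 (Pq.cons (Pq.L [] 12672 (Pf.C 2 0xa0c201))
 Pq.nil))) Pq.nil))) (Pq.cons (Pq.L [] 512 (Pf.C 1 386))
 Pq.nil))) Pq.nil))) (Pq.cons (Pq.L [] 1 (Pf.C 1 128))
 Pq.nil))) Pq.nil))) Pq.nil))
theorem u07_o0 : AllRef u07_T (pureCtx 2 4) (applyObl (pairTab (cK3, c3P2)) 2 [1,2] [0,0] [(1,4),(2,2)]) :=
  chkPq_sound u07_o0c _ (by decide +kernel)
theorem u07_n0 (hP : Lem (pairTab (cK3, c3P2)) 0 2) : Bd u07_T (pureCtx 2 4) (pureAct 2) :=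
  show Bd _ _ [1,2] from r_apply hP [0,0] [(1,4),(2,2)] (by decide +kernel) u07_o0
theorem lem_u07 (hP : Lem (pairTab (cK3, c3P2)) 0 2) : Lem u07_T 2 4 := ⟨by decide +kernel, (u07_n0 hP)⟩
theorem nb_u07 (h : Unb  2 axT2) : ¬ BdN cK3.g c3P2.g :=
  fun hb => unb_use h (lem_u07 (lem_of_bdN (cK3, c3P2) hb)) (by decide +kernel)

noncomputable def u08_ty : Tr Ty := (Tr.br (Tr.br (Tr.leaf ⟨1,0,0,0,0⟩) (Tr.leaf ⟨5,2,0,0,0⟩))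
 (Tr.leaf ⟨3,4,0,0,0⟩))

noncomputable def u08_ev : Tr Ev := (Tr.leaf ⟨0,[],0⟩)
noncomputable def u08_ax : Tr Ax := (Tr.br (Tr.br (Tr.leaf ⟨[2,2],[⟨0,1,true⟩],[],0⟩) (Tr.leaf ⟨[1,1,1,1],[⟨0,1,true⟩,⟨0,3,true⟩,⟨1,2,true⟩,⟨2,3,true⟩],[],0⟩))
 (Tr.leaf ⟨[4,4],[⟨0,1,true⟩],[],0⟩))

noncomputable def u08_sc : Tr Sc := (Tr.leaf ⟨[],[]⟩)
noncomputable def u08_T : Tab := ⟨3,u08_ty,u08_ev,u08_ax,u08_sc⟩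
noncomputable def u08_o0c : Pq := (Pq.cons (Pq.D 0 (Pq.cons (Pq.D 1 (Pq.cons (Pq.L [] 1 (Pf.C 0 128))
 (Pq.cons (Pq.D 2 (Pq.cons (Pq.L [] 2 (Pf.C 0 256))
 (Pq.cons (Pq.L [] 4 (Pf.C 1 257))
 Pq.nil))) Pq.nil))) (Pq.cons (Pq.D 1 (Pq.cons (Pq.D 2 (Pq.cons (Pq.L [] 4 (Pf.C 0 257))
 (Pq.cons (Pq.L [] 2 (Pf.C 1 256))
 Pq.nil))) (Pq.cons (Pq.L [] 1 (Pf.C 1 128))
 Pq.nil))) Pq.nil))) (Pq.cons (Pq.D 0 (Pq.cons (Pq.D 1 (Pq.cons (Pq.D 2 (Pq.cons (Pq.D 3 (Pq.cons (Pq.L [] 512 (Pf.C 0 386))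
 (Pq.cons (Pq.D 4 (Pq.cons (Pq.D 5 (Pq.cons (Pq.L [] 16384 (Pf.C 0 644))
 (Pq.cons (Pq.L [] 340 (Pf.C 2 0xa04180))
 Pq.nil))) (Pq.cons (Pq.L [] 204 (Pf.C 2 0x804180))
 Pq.nil))) Pq.nil))) (Pq.cons (Pq.D 3 (Pq.cons (Pq.D 4 (Pq.cons (Pq.L [] 4096 (Pf.C 0 515))
 (Pq.cons (Pq.L [] 170 (Pf.C 2 0x804100))
 Pq.nil))) (Pq.cons (Pq.L [] 102 (Pf.C 2 0x604100))
 Pq.nil))) Pq.nil))) (Pq.cons (Pq.D 2 (Pq.cons (Pq.D 3 (Pq.cons (Pq.L [] 512 (Pf.C 0 386))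
 (Pq.cons (Pq.D 4 (Pq.cons (Pq.D 5 (Pq.cons (Pq.L [] 8453 (Pf.C 2 0x614080))
 (Pq.cons (Pq.L [] 2097 (Pf.C 2 0xa08080))
 Pq.nil))) (Pq.cons (Pq.L [] 1065 (Pf.C 2 0x808080))
 Pq.nil))) Pq.nil))) (Pq.cons (Pq.D 3 (Pq.cons (Pq.D 4 (Pq.cons (Pq.L [] 1155 (Pf.C 2 0x410080))
 (Pq.cons (Pq.D 5 (Pq.cons (Pq.L [] 2307 (Pf.C 2 0x414080))
 (Pq.cons (Pq.L [] 8273 (Pf.C 2 0xa0c080))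
 Pq.nil))) Pq.nil))) (Pq.cons (Pq.L [] 512 (Pf.C 1 386))
 Pq.nil))) Pq.nil))) Pq.nil))) (Pq.cons (Pq.D 1 (Pq.cons (Pq.D 2 (Pq.cons (Pq.D 3 (Pq.cons (Pq.L [] 512 (Pf.C 0 386))
 (Pq.cons (Pq.D 4 (Pq.cons (Pq.D 5 (Pq.cons (Pq.L [] 8273 (Pf.C 2 0xa0c080))
 (Pq.cons (Pq.L [] 2307 (Pf.C 2 0x414080))
 Pq.nil))) (Pq.cons (Pq.L [] 1155 (Pf.C 2 0x410080))
 Pq.nil))) Pq.nil))) (Pq.cons (Pq.D 3 (Pq.cons (Pq.D 4 (Pq.cons (Pq.L [] 1065 (Pf.C 2 0x808080))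
 (Pq.cons (Pq.D 5 (Pq.cons (Pq.L [] 2097 (Pf.C 2 0xa08080))
 (Pq.cons (Pq.L [] 8453 (Pf.C 2 0x614080))
 Pq.nil))) Pq.nil))) (Pq.cons (Pq.L [] 512 (Pf.C 1 386))
 Pq.nil))) Pq.nil))) (Pq.cons (Pq.D 2 (Pq.cons (Pq.D 3 (Pq.cons (Pq.L [] 102 (Pf.C 2 0x604100))
 (Pq.cons (Pq.D 4 (Pq.cons (Pq.L [] 170 (Pf.C 2 0x804100))
 (Pq.cons (Pq.L [] 4096 (Pf.C 1 515))
 Pq.nil))) Pq.nil))) (Pq.cons (Pq.D 3 (Pq.cons (Pq.D 4 (Pq.cons (Pq.L [] 204 (Pf.C 2 0x804180))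
 (Pq.cons (Pq.D 5 (Pq.cons (Pq.L [] 340 (Pf.C 2 0xa04180))
 (Pq.cons (Pq.L [] 16384 (Pf.C 1 644))
 Pq.nil))) Pq.nil))) (Pq.cons (Pq.L [] 512 (Pf.C 1 386))
 Pq.nil))) Pq.nil))) Pq.nil))) Pq.nil))) Pq.nil))
theorem u08_o0 : AllRef u08_T (pureCtx 2 3) (applyObl (pairTab (cK3, c2P1P4)) 2 [1,2] [0,0] [(1,4),(2,2)]) :=
  chkPq_sound u08_o0c _ (by decide +kernel)
theorem u08_n0 (hP : Lem (pairTab (cK3, c2P1P4)) 0 2) : Bd u08_T (pureCtx 2 3) (pureAct 2) :=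
  show Bd _ _ [1,2] from r_apply hP [0,0] [(1,4),(2,2)] (by decide +kernel) u08_o0
theorem lem_u08 (hP : Lem (pairTab (cK3, c2P1P4)) 0 2) : Lem u08_T 2 3 := ⟨by decide +kernel, (u08_n0 hP)⟩
theorem nb_u08 (h : Unb  2 axT2) : ¬ BdN cK3.g c2P1P4.g :=
  fun hb => unb_use h (lem_u08 (lem_of_bdN (cK3, c2P1P4) hb)) (by decide +kernel)

noncomputable def u09_ty : Tr Ty := (Tr.br (Tr.br (Tr.leaf ⟨1,0,0,0,0⟩) (Tr.leaf ⟨5,2,0,0,0⟩))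
 (Tr.leaf ⟨3,4,0,0,0⟩))

noncomputable def u09_ev : Tr Ev := (Tr.leaf ⟨0,[],0⟩)
noncomputable def u09_ax : Tr Ax := (Tr.br (Tr.br (Tr.leaf ⟨[2,2],[⟨0,1,true⟩],[],0⟩) (Tr.leaf ⟨[1,1,1,1],[⟨0,1,true⟩,⟨0,3,true⟩,⟨1,2,true⟩,⟨2,3,true⟩],[],0⟩))
 (Tr.br (Tr.leaf ⟨[4,4],[⟨0,1,true⟩],[],0⟩) (Tr.leaf ⟨[1,1,1,1,1],[⟨0,1,true⟩,⟨0,2,true⟩,⟨0,3,true⟩,⟨0,4,true⟩],[],0⟩))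
)

noncomputable def u09_sc : Tr Sc := (Tr.leaf ⟨[],[]⟩)
noncomputable def u09_T : Tab := ⟨3,u09_ty,u09_ev,u09_ax,u09_sc⟩
noncomputable def u09_o0c : Pq := (Pq.cons (Pq.D 0 (Pq.cons (Pq.D 1 (Pq.cons (Pq.L [] 1 (Pf.C 0 128))
 (Pq.cons (Pq.D 2 (Pq.cons (Pq.L [] 2 (Pf.C 0 256))
 (Pq.cons (Pq.L [] 4 (Pf.C 1 257))
 Pq.nil))) Pq.nil))) (Pq.cons (Pq.D 1 (Pq.cons (Pq.D 2 (Pq.cons (Pq.L [] 4 (Pf.C 0 257))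
 (Pq.cons (Pq.L [] 2 (Pf.C 1 256))
 Pq.nil))) (Pq.cons (Pq.L [] 1 (Pf.C 1 128))
 Pq.nil))) Pq.nil))) (Pq.cons (Pq.D 0 (Pq.cons (Pq.D 1 (Pq.cons (Pq.D 2 (Pq.cons (Pq.D 3 (Pq.cons (Pq.L [] 512 (Pf.C 0 386))
 (Pq.cons (Pq.D 4 (Pq.cons (Pq.D 5 (Pq.cons (Pq.L [] 12356 (Pf.C 3 0x50804003))
 (Pq.cons (Pq.L [] 340 (Pf.C 2 0xa04180))
 Pq.nil))) (Pq.cons (Pq.L [] 204 (Pf.C 2 0x804180))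
 Pq.nil))) Pq.nil))) (Pq.cons (Pq.D 3 (Pq.cons (Pq.D 4 (Pq.cons (Pq.D 5 (Pq.cons (Pq.L [] 3106 (Pf.C 3 0x50804002))
 (Pq.cons (Pq.L [] 306 (Pf.C 2 0xa04100))
 Pq.nil))) (Pq.cons (Pq.L [] 170 (Pf.C 2 0x804100))
 Pq.nil))) (Pq.cons (Pq.L [] 102 (Pf.C 2 0x604100))
 Pq.nil))) Pq.nil))) (Pq.cons (Pq.D 2 (Pq.cons (Pq.D 3 (Pq.cons (Pq.L [] 512 (Pf.C 0 386))
 (Pq.cons (Pq.D 4 (Pq.cons (Pq.L [] 4229 (Pf.C 2 0x610080))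
 (Pq.cons (Pq.L [] 1065 (Pf.C 2 0x808080))
 Pq.nil))) Pq.nil))) (Pq.cons (Pq.D 3 (Pq.cons (Pq.D 4 (Pq.cons (Pq.L [] 1155 (Pf.C 2 0x410080))
 (Pq.cons (Pq.L [] 4169 (Pf.C 2 0x80c080))
 Pq.nil))) (Pq.cons (Pq.L [] 512 (Pf.C 1 386))
 Pq.nil))) Pq.nil))) Pq.nil))) (Pq.cons (Pq.D 1 (Pq.cons (Pq.D 2 (Pq.cons (Pq.D 3 (Pq.cons (Pq.L [] 512 (Pf.C 0 386))
 (Pq.cons (Pq.D 4 (Pq.cons (Pq.L [] 4169 (Pf.C 2 0x80c080))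
 (Pq.cons (Pq.L [] 1155 (Pf.C 2 0x410080))
 Pq.nil))) Pq.nil))) (Pq.cons (Pq.D 3 (Pq.cons (Pq.D 4 (Pq.cons (Pq.L [] 1065 (Pf.C 2 0x808080))
 (Pq.cons (Pq.L [] 4229 (Pf.C 2 0x610080))
 Pq.nil))) (Pq.cons (Pq.L [] 512 (Pf.C 1 386))
 Pq.nil))) Pq.nil))) (Pq.cons (Pq.D 2 (Pq.cons (Pq.D 3 (Pq.cons (Pq.L [] 102 (Pf.C 2 0x604100))
 (Pq.cons (Pq.D 4 (Pq.cons (Pq.L [] 170 (Pf.C 2 0x804100))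
 (Pq.cons (Pq.D 5 (Pq.cons (Pq.L [] 306 (Pf.C 2 0xa04100))
 (Pq.cons (Pq.L [] 3106 (Pf.C 3 0x50804002))
 Pq.nil))) Pq.nil))) Pq.nil))) (Pq.cons (Pq.D 3 (Pq.cons (Pq.D 4 (Pq.cons (Pq.L [] 204 (Pf.C 2 0x804180))
 (Pq.cons (Pq.D 5 (Pq.cons (Pq.L [] 340 (Pf.C 2 0xa04180))
 (Pq.cons (Pq.L [] 12356 (Pf.C 3 0x50804003))
 Pq.nil))) Pq.nil))) (Pq.cons (Pq.L [] 512 (Pf.C 1 386))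
 Pq.nil))) Pq.nil))) Pq.nil))) Pq.nil))) Pq.nil))
theorem u09_o0 : AllRef u09_T (pureCtx 2 4) (applyObl (pairTab (cK3, c2P12P2)) 2 [1,2] [0,0] [(1,4),(2,2)]) :=
  chkPq_sound u09_o0c _ (by decide +kernel)
theorem u09_n0 (hP : Lem (pairTab (cK3, c2P12P2)) 0 2) : Bd u09_T (pureCtx 2 4) (pureAct 2) :=
  show Bd _ _ [1,2] from r_apply hP [0,0] [(1,4),(2,2)] (by decide +kernel) u09_o0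
theorem lem_u09 (hP : Lem (pairTab (cK3, c2P12P2)) 0 2) : Lem u09_T 2 4 := ⟨by decide +kernel, (u09_n0 hP)⟩
theorem nb_u09 (h : Unb  2 axT2) : ¬ BdN cK3.g c2P12P2.g :=
  fun hb => unb_use h (lem_u09 (lem_of_bdN (cK3, c2P12P2) hb)) (by decide +kernel)

noncomputable def u10_ty : Tr Ty := (Tr.br (Tr.br (Tr.leaf ⟨1,0,0,0,0⟩) (Tr.leaf ⟨5,2,0,0,0⟩))
 (Tr.leaf ⟨3,4,0,0,0⟩))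

noncomputable def u10_ev : Tr Ev := (Tr.leaf ⟨0,[],0⟩)
noncomputable def u10_ax : Tr Ax := (Tr.br (Tr.br (Tr.leaf ⟨[2,2],[⟨0,1,true⟩],[],0⟩) (Tr.leaf ⟨[1,1,1,1],[⟨0,1,true⟩,⟨0,3,true⟩,⟨1,2,true⟩,⟨2,3,true⟩],[],0⟩))
 (Tr.br (Tr.leaf ⟨[4,4],[⟨0,1,true⟩],[],0⟩) (Tr.leaf ⟨[1,1,1,1,1],[⟨0,1,true⟩,⟨0,2,true⟩,⟨0,3,true⟩,⟨0,4,true⟩],[],0⟩))
)

noncomputable def u10_sc : Tr Sc := (Tr.leaf ⟨[],[]⟩)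
noncomputable def u10_T : Tab := ⟨3,u10_ty,u10_ev,u10_ax,u10_sc⟩
noncomputable def u10_o0c : Pq := (Pq.cons (Pq.D 0 (Pq.cons (Pq.D 1 (Pq.cons (Pq.L [] 1 (Pf.C 0 128))
 (Pq.cons (Pq.D 2 (Pq.cons (Pq.L [] 2 (Pf.C 0 256))
 (Pq.cons (Pq.L [] 4 (Pf.C 1 257))
 Pq.nil))) Pq.nil))) (Pq.cons (Pq.D 1 (Pq.cons (Pq.D 2 (Pq.cons (Pq.L [] 4 (Pf.C 0 257))
 (Pq.cons (Pq.L [] 2 (Pf.C 1 256))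
 Pq.nil))) (Pq.cons (Pq.L [] 1 (Pf.C 1 128))
 Pq.nil))) Pq.nil))) (Pq.cons (Pq.D 0 (Pq.cons (Pq.D 1 (Pq.cons (Pq.D 2 (Pq.cons (Pq.D 3 (Pq.cons (Pq.D 4 (Pq.cons (Pq.D 5 (Pq.cons (Pq.L [] 16384 (Pf.C 0 644))
 (Pq.cons (Pq.L [] 10512 (Pf.C 3 0x30404005))
 Pq.nil))) (Pq.cons (Pq.L [] 5256 (Pf.C 3 0x30404004))
 Pq.nil))) (Pq.cons (Pq.D 4 (Pq.cons (Pq.L [] 4676 (Pf.C 3 0x40404003))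
 (Pq.cons (Pq.L [] 204 (Pf.C 2 0x804180))
 Pq.nil))) Pq.nil))) (Pq.cons (Pq.D 3 (Pq.cons (Pq.D 4 (Pq.cons (Pq.L [] 1570 (Pf.C 3 0x40604002))
 (Pq.cons (Pq.L [] 170 (Pf.C 2 0x804100))
 Pq.nil))) (Pq.cons (Pq.L [] 102 (Pf.C 2 0x604100))
 Pq.nil))) Pq.nil))) (Pq.cons (Pq.D 2 (Pq.cons (Pq.D 3 (Pq.cons (Pq.D 4 (Pq.cons (Pq.L [] 225 (Pf.C 3 0x40608001))
 (Pq.cons (Pq.L [] 1065 (Pf.C 2 0x808080))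
 Pq.nil))) (Pq.cons (Pq.L [] 549 (Pf.C 2 0x608080))
 Pq.nil))) (Pq.cons (Pq.D 3 (Pq.cons (Pq.L [] 579 (Pf.C 2 0x40c080))
 (Pq.cons (Pq.D 4 (Pq.cons (Pq.L [] 1155 (Pf.C 2 0x410080))
 (Pq.cons (Pq.L [] 15 (Pf.C 3 0x40608080))
 Pq.nil))) Pq.nil))) Pq.nil))) Pq.nil))) (Pq.cons (Pq.D 1 (Pq.cons (Pq.D 2 (Pq.cons (Pq.D 3 (Pq.cons (Pq.D 4 (Pq.cons (Pq.L [] 15 (Pf.C 3 0x40608080))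
 (Pq.cons (Pq.L [] 1155 (Pf.C 2 0x410080))
 Pq.nil))) (Pq.cons (Pq.L [] 579 (Pf.C 2 0x40c080))
 Pq.nil))) (Pq.cons (Pq.D 3 (Pq.cons (Pq.L [] 549 (Pf.C 2 0x608080))
 (Pq.cons (Pq.D 4 (Pq.cons (Pq.L [] 1065 (Pf.C 2 0x808080))
 (Pq.cons (Pq.L [] 225 (Pf.C 3 0x40608001))
 Pq.nil))) Pq.nil))) Pq.nil))) (Pq.cons (Pq.D 2 (Pq.cons (Pq.D 3 (Pq.cons (Pq.L [] 102 (Pf.C 2 0x604100))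
 (Pq.cons (Pq.D 4 (Pq.cons (Pq.L [] 170 (Pf.C 2 0x804100))
 (Pq.cons (Pq.L [] 1570 (Pf.C 3 0x40604002))
 Pq.nil))) Pq.nil))) (Pq.cons (Pq.D 3 (Pq.cons (Pq.D 4 (Pq.cons (Pq.L [] 204 (Pf.C 2 0x804180))
 (Pq.cons (Pq.L [] 4676 (Pf.C 3 0x40404003))
 Pq.nil))) (Pq.cons (Pq.D 4 (Pq.cons (Pq.L [] 5256 (Pf.C 3 0x30404004))
 (Pq.cons (Pq.D 5 (Pq.cons (Pq.L [] 10512 (Pf.C 3 0x30404005))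
 (Pq.cons (Pq.L [] 16384 (Pf.C 1 644))
 Pq.nil))) Pq.nil))) Pq.nil))) Pq.nil))) Pq.nil))) Pq.nil))) Pq.nil))
theorem u10_o0 : AllRef u10_T (pureCtx 2 4) (applyObl (pairTab (cK3, c4P1P2)) 2 [1,2] [0,0] [(1,4),(2,2)]) :=
  chkPq_sound u10_o0c _ (by decide +kernel)
theorem u10_n0 (hP : Lem (pairTab (cK3, c4P1P2)) 0 2) : Bd u10_T (pureCtx 2 4) (pureAct 2) :=
  show Bd _ _ [1,2] from r_apply hP [0,0] [(1,4),(2,2)] (by decide +kernel) u10_o0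
theorem lem_u10 (hP : Lem (pairTab (cK3, c4P1P2)) 0 2) : Lem u10_T 2 4 := ⟨by decide +kernel, (u10_n0 hP)⟩
theorem nb_u10 (h : Unb  2 axT2) : ¬ BdN cK3.g c4P1P2.g :=
  fun hb => unb_use h (lem_u10 (lem_of_bdN (cK3, c4P1P2) hb)) (by decide +kernel)

noncomputable def u11_ty : Tr Ty := (Tr.br (Tr.br (Tr.leaf ⟨1,0,0,0,0⟩) (Tr.leaf ⟨5,2,0,0,0⟩))
 (Tr.leaf ⟨3,4,0,0,0⟩))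

noncomputable def u11_ev : Tr Ev := (Tr.leaf ⟨0,[],0⟩)
noncomputable def u11_ax : Tr Ax := (Tr.br (Tr.br (Tr.leaf ⟨[2,2],[⟨0,1,true⟩],[],0⟩) (Tr.leaf ⟨[1,1,1,1],[⟨0,1,true⟩,⟨0,3,true⟩,⟨1,2,true⟩,⟨2,3,true⟩],[],0⟩))
 (Tr.leaf ⟨[4,4],[⟨0,1,true⟩],[],0⟩))

noncomputable def u11_sc : Tr Sc := (Tr.leaf ⟨[],[]⟩)
noncomputable def u11_T : Tab := ⟨3,u11_ty,u11_ev,u11_ax,u11_sc⟩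
noncomputable def u11_o0c : Pq := (Pq.cons (Pq.D 0 (Pq.cons (Pq.D 1 (Pq.cons (Pq.D 2 (Pq.cons (Pq.L [] 2 (Pf.C 0 256))
 (Pq.cons (Pq.D 3 (Pq.cons (Pq.L [] 16 (Pf.C 0 385))
 (Pq.cons (Pq.L [] 32 (Pf.C 1 386))
 Pq.nil))) Pq.nil))) (Pq.cons (Pq.D 2 (Pq.cons (Pq.L [] 2 (Pf.C 0 256))
 (Pq.cons (Pq.L [] 8 (Pf.C 1 257))
 Pq.nil))) Pq.nil))) (Pq.cons (Pq.D 1 (Pq.cons (Pq.D 2 (Pq.cons (Pq.D 3 (Pq.cons (Pq.L [] 16 (Pf.C 0 385))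
 (Pq.cons (Pq.L [] 4 (Pf.C 1 384))
 Pq.nil))) (Pq.cons (Pq.L [] 45 (Pf.C 2 0x608080))
 Pq.nil))) (Pq.cons (Pq.L [] 1 (Pf.C 1 128))
 Pq.nil))) Pq.nil))) (Pq.cons (Pq.D 0 (Pq.cons (Pq.D 1 (Pq.cons (Pq.D 2 (Pq.cons (Pq.L [] 2 (Pf.C 0 256))
 (Pq.cons (Pq.D 3 (Pq.cons (Pq.L [] 4 (Pf.C 0 384))
 (Pq.cons (Pq.L [] 32 (Pf.C 1 386))
 Pq.nil))) Pq.nil))) (Pq.cons (Pq.D 2 (Pq.cons (Pq.L [] 2 (Pf.C 0 256))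
 (Pq.cons (Pq.D 3 (Pq.cons (Pq.L [] 4 (Pf.C 0 384))
 (Pq.cons (Pq.L [] 32 (Pf.C 1 386))
 Pq.nil))) Pq.nil))) Pq.nil))) (Pq.cons (Pq.D 1 (Pq.cons (Pq.D 2 (Pq.cons (Pq.L [] 8 (Pf.C 0 257))
 (Pq.cons (Pq.D 3 (Pq.cons (Pq.L [] 16 (Pf.C 0 385))
 (Pq.cons (Pq.L [] 32 (Pf.C 1 386))
 Pq.nil))) Pq.nil))) (Pq.cons (Pq.L [] 1 (Pf.C 1 128))
 Pq.nil))) Pq.nil))) Pq.nil))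
theorem u11_o0 : AllRef u11_T (pureCtx 2 3) (applyObl (pairTab (cC4, c2P2)) 2 [1,2] [0,0] [(1,2)]) :=
  chkPq_sound u11_o0c _ (by decide +kernel)
theorem u11_n0 (hP : Lem (pairTab (cC4, c2P2)) 0 2) : Bd u11_T (pureCtx 2 3) (pureAct 2) :=
  show Bd _ _ [1,2] from r_apply hP [0,0] [(1,2)] (by decide +kernel) u11_o0
theorem lem_u11 (hP : Lem (pairTab (cC4, c2P2)) 0 2) : Lem u11_T 2 3 := ⟨by decide +kernel, (u11_n0 hP)⟩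
theorem nb_u11 (h : Unb  2 axT2) : ¬ BdN cC4.g c2P2.g :=
  fun hb => unb_use h (lem_u11 (lem_of_bdN (cC4, c2P2) hb)) (by decide +kernel)

noncomputable def u12_ty : Tr Ty := (Tr.br (Tr.br (Tr.br (Tr.leaf ⟨1,0,0,0,0⟩) (Tr.leaf ⟨17,14,0,0,0⟩))
 (Tr.leaf ⟨5,26,0,0,0⟩))
 (Tr.br (Tr.leaf ⟨3,28,0,0,0⟩) (Tr.leaf ⟨9,22,0,0,0⟩))
)

noncomputable def u12_ev : Tr Ev := (Tr.leaf ⟨0,[],0⟩)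
noncomputable def u12_ax : Tr Ax := (Tr.br (Tr.br (Tr.br (Tr.br (Tr.leaf ⟨[8,8],[⟨0,1,true⟩],[],0⟩) (Tr.leaf ⟨[16,2,2],[⟨0,1,true⟩,⟨0,2,true⟩],[],0⟩))
 (Tr.leaf ⟨[6,16,16],[⟨0,1,true⟩,⟨0,2,true⟩],[],0⟩))
 (Tr.br (Tr.br (Tr.leaf ⟨[6,6],[⟨0,1,true⟩],[],0⟩) (Tr.leaf ⟨[1,1,1],[⟨0,1,true⟩,⟨0,2,true⟩,⟨1,2,true⟩],[],0⟩))
 (Tr.leaf ⟨[8,16,16],[⟨0,1,true⟩,⟨0,2,true⟩],[],0⟩))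
)
 (Tr.br (Tr.br (Tr.br (Tr.leaf ⟨[16,16],[⟨0,1,true⟩],[],0⟩) (Tr.leaf ⟨[16,4,4],[⟨0,1,true⟩,⟨0,2,true⟩],[],0⟩))
 (Tr.leaf ⟨[8,6,6],[⟨0,1,true⟩,⟨0,2,true⟩],[],0⟩))
 (Tr.br (Tr.leaf ⟨[6,8,8],[⟨0,1,true⟩,⟨0,2,true⟩],[],0⟩) (Tr.leaf ⟨[16,8,8],[⟨0,1,true⟩,⟨0,2,true⟩],[],0⟩))
)
)

noncomputable def u12_sc : Tr Sc := (Tr.leaf ⟨[],[]⟩)
noncomputable def u12_T : Tab := ⟨5,u12_ty,u12_ev,u12_ax,u12_sc⟩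
noncomputable def u12_o0c : Pq := (Pq.cons (Pq.D 0 (Pq.cons (Pq.D 1 (Pq.cons (Pq.L [] 1 (Pf.C 2 128))
 (Pq.cons (Pq.L [] 1 (Pf.C 2 128))
 (Pq.cons (Pq.D 2 (Pq.cons (Pq.L [] 2 (Pf.C 2 256))
 (Pq.cons (Pq.L [] 2 (Pf.C 2 256))
 (Pq.cons (Pq.L [] 8 (Pf.C 0 257))
 (Pq.cons (Pq.D 3 (Pq.cons (Pq.L [] 4 (Pf.C 2 384))
 (Pq.cons (Pq.L [] 4 (Pf.C 2 384))
 (Pq.cons (Pq.L [] 16 (Pf.C 0 385))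
 (Pq.cons (Pq.L [] 32 (Pf.C 1 386))
 Pq.nil))))) Pq.nil))))) (Pq.cons (Pq.D 2 (Pq.cons (Pq.L [] 2 (Pf.C 2 256))
 (Pq.cons (Pq.L [] 2 (Pf.C 2 256))
 (Pq.cons (Pq.D 3 (Pq.cons (Pq.L [] 4 (Pf.C 2 384))
 (Pq.cons (Pq.L [] 4 (Pf.C 2 384))
 (Pq.cons (Pq.L [] 32 (Pf.C 0 386))
 (Pq.cons (Pq.L [] 16 (Pf.C 1 385))
 Pq.nil))))) (Pq.cons (Pq.L [] 8 (Pf.C 1 257))
 Pq.nil))))) Pq.nil))))) (Pq.cons (Pq.D 1 (Pq.cons (Pq.L [] 1 (Pf.C 2 128))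
 (Pq.cons (Pq.L [] 1 (Pf.C 2 128))
 (Pq.cons (Pq.D 2 (Pq.cons (Pq.L [] 2 (Pf.C 2 256))
 (Pq.cons (Pq.L [] 2 (Pf.C 2 256))
 (Pq.cons (Pq.L [] 8 (Pf.C 0 257))
 (Pq.cons (Pq.D 3 (Pq.cons (Pq.L [] 4 (Pf.C 2 384))
 (Pq.cons (Pq.L [] 4 (Pf.C 2 384))
 (Pq.cons (Pq.L [] 16 (Pf.C 0 385))
 (Pq.cons (Pq.L [] 32 (Pf.C 1 386))
 Pq.nil))))) Pq.nil))))) (Pq.cons (Pq.D 2 (Pq.cons (Pq.L [] 2 (Pf.C 2 256))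
 (Pq.cons (Pq.L [] 2 (Pf.C 2 256))
 (Pq.cons (Pq.D 3 (Pq.cons (Pq.L [] 4 (Pf.C 2 384))
 (Pq.cons (Pq.L [] 4 (Pf.C 2 384))
 (Pq.cons (Pq.L [] 32 (Pf.C 0 386))
 (Pq.cons (Pq.L [] 16 (Pf.C 1 385))
 Pq.nil))))) (Pq.cons (Pq.L [] 8 (Pf.C 1 257))
 Pq.nil))))) Pq.nil))))) (Pq.cons (Pq.D 1 (Pq.cons (Pq.D 2 (Pq.cons (Pq.L [] 8 (Pf.C 2 257))
 (Pq.cons (Pq.L [] 8 (Pf.C 2 257))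
 (Pq.cons (Pq.L [] 2 (Pf.C 0 256))
 (Pq.cons (Pq.D 3 (Pq.cons (Pq.L [] 16 (Pf.C 2 385))
 (Pq.cons (Pq.L [] 16 (Pf.C 2 385))
 (Pq.cons (Pq.L [] 4 (Pf.C 0 384))
 (Pq.cons (Pq.L [] 32 (Pf.C 1 386))
 Pq.nil))))) Pq.nil))))) (Pq.cons (Pq.D 2 (Pq.cons (Pq.L [] 8 (Pf.C 2 257))
 (Pq.cons (Pq.L [] 8 (Pf.C 2 257))
 (Pq.cons (Pq.L [] 2 (Pf.C 0 256))
 (Pq.cons (Pq.D 3 (Pq.cons (Pq.L [] 16 (Pf.C 2 385))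
 (Pq.cons (Pq.L [] 16 (Pf.C 2 385))
 (Pq.cons (Pq.L [] 4 (Pf.C 0 384))
 (Pq.cons (Pq.L [] 32 (Pf.C 1 386))
 Pq.nil))))) Pq.nil))))) (Pq.cons (Pq.L [] 1 (Pf.C 0 128))
 (Pq.cons (Pq.D 2 (Pq.cons (Pq.D 3 (Pq.cons (Pq.L [] 32 (Pf.C 2 386))
 (Pq.cons (Pq.L [] 32 (Pf.C 2 386))
 (Pq.cons (Pq.L [] 4 (Pf.C 0 384))
 (Pq.cons (Pq.L [] 16 (Pf.C 1 385))
 Pq.nil))))) (Pq.cons (Pq.D 3 (Pq.cons (Pq.L [] 32 (Pf.C 2 386))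
 (Pq.cons (Pq.L [] 32 (Pf.C 2 386))
 (Pq.cons (Pq.L [] 4 (Pf.C 0 384))
 (Pq.cons (Pq.L [] 16 (Pf.C 1 385))
 Pq.nil))))) (Pq.cons (Pq.L [] 2 (Pf.C 0 256))
 (Pq.cons (Pq.L [] 8 (Pf.C 1 257))
 Pq.nil))))) Pq.nil))))) (Pq.cons (Pq.D 1 (Pq.cons (Pq.D 2 (Pq.cons (Pq.L [] 8 (Pf.C 2 257))
 (Pq.cons (Pq.L [] 8 (Pf.C 2 257))
 (Pq.cons (Pq.D 3 (Pq.cons (Pq.L [] 16 (Pf.C 2 385))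
 (Pq.cons (Pq.L [] 16 (Pf.C 2 385))
 (Pq.cons (Pq.L [] 32 (Pf.C 0 386))
 (Pq.cons (Pq.L [] 4 (Pf.C 1 384))
 Pq.nil))))) (Pq.cons (Pq.L [] 2 (Pf.C 1 256))
 Pq.nil))))) (Pq.cons (Pq.D 2 (Pq.cons (Pq.L [] 8 (Pf.C 2 257))
 (Pq.cons (Pq.L [] 8 (Pf.C 2 257))
 (Pq.cons (Pq.D 3 (Pq.cons (Pq.L [] 16 (Pf.C 2 385))
 (Pq.cons (Pq.L [] 16 (Pf.C 2 385))
 (Pq.cons (Pq.L [] 32 (Pf.C 0 386))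
 (Pq.cons (Pq.L [] 4 (Pf.C 1 384))
 Pq.nil))))) (Pq.cons (Pq.L [] 2 (Pf.C 1 256))
 Pq.nil))))) (Pq.cons (Pq.D 2 (Pq.cons (Pq.D 3 (Pq.cons (Pq.L [] 32 (Pf.C 2 386))
 (Pq.cons (Pq.L [] 32 (Pf.C 2 386))
 (Pq.cons (Pq.L [] 16 (Pf.C 0 385))
 (Pq.cons (Pq.L [] 4 (Pf.C 1 384))
 Pq.nil))))) (Pq.cons (Pq.D 3 (Pq.cons (Pq.L [] 32 (Pf.C 2 386))
 (Pq.cons (Pq.L [] 32 (Pf.C 2 386))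
 (Pq.cons (Pq.L [] 16 (Pf.C 0 385))
 (Pq.cons (Pq.L [] 4 (Pf.C 1 384))
 Pq.nil))))) (Pq.cons (Pq.L [] 8 (Pf.C 0 257))
 (Pq.cons (Pq.L [] 2 (Pf.C 1 256))
 Pq.nil))))) (Pq.cons (Pq.L [] 1 (Pf.C 1 128))
 Pq.nil))))) Pq.nil))))) (Pq.cons (Pq.D 0 (Pq.cons (Pq.D 1 (Pq.cons (Pq.D 2 (Pq.cons (Pq.D 3 (Pq.cons (Pq.D 4 (Pq.cons (Pq.L [] 512 (Pf.C 2 515))
 (Pq.cons (Pq.L [] 512 (Pf.C 2 515))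
 (Pq.cons (Pq.L [] 72 (Pf.C 5 16388))
 (Pq.cons (Pq.L [] 72 (Pf.C 8 16388))
 Pq.nil))))) (Pq.cons (Pq.D 4 (Pq.cons (Pq.L [] 512 (Pf.C 2 515))
 (Pq.cons (Pq.L [] 512 (Pf.C 2 515))
 (Pq.cons (Pq.L [] 72 (Pf.C 5 16388))
 (Pq.cons (Pq.L [] 72 (Pf.C 8 16388))
 Pq.nil))))) (Pq.cons (Pq.L [] 36 (Pf.C 5 16387))
 (Pq.cons (Pq.L [] 36 (Pf.C 8 16387))
 Pq.nil))))) (Pq.cons (Pq.D 3 (Pq.cons (Pq.D 4 (Pq.cons (Pq.L [] 512 (Pf.C 2 515))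
 (Pq.cons (Pq.L [] 512 (Pf.C 2 515))
 (Pq.cons (Pq.L [] 72 (Pf.C 5 16388))
 (Pq.cons (Pq.L [] 72 (Pf.C 8 16388))
 Pq.nil))))) (Pq.cons (Pq.D 4 (Pq.cons (Pq.L [] 512 (Pf.C 2 515))
 (Pq.cons (Pq.L [] 512 (Pf.C 2 515))
 (Pq.cons (Pq.L [] 72 (Pf.C 5 16388))
 (Pq.cons (Pq.L [] 72 (Pf.C 8 16388))
 Pq.nil))))) (Pq.cons (Pq.L [] 36 (Pf.C 5 16387))
 (Pq.cons (Pq.L [] 36 (Pf.C 8 16387))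
 Pq.nil))))) (Pq.cons (Pq.L [] 18 (Pf.C 5 16386))
 (Pq.cons (Pq.L [] 18 (Pf.C 8 16386))
 Pq.nil))))) (Pq.cons (Pq.D 2 (Pq.cons (Pq.D 3 (Pq.cons (Pq.D 4 (Pq.cons (Pq.L [] 512 (Pf.C 2 515))
 (Pq.cons (Pq.L [] 512 (Pf.C 2 515))
 (Pq.cons (Pq.L [] 72 (Pf.C 5 16388))
 (Pq.cons (Pq.L [] 264 (Pf.C 8 32772))
 Pq.nil))))) (Pq.cons (Pq.D 4 (Pq.cons (Pq.L [] 512 (Pf.C 2 515))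
 (Pq.cons (Pq.L [] 512 (Pf.C 2 515))
 (Pq.cons (Pq.L [] 72 (Pf.C 5 16388))
 (Pq.cons (Pq.L [] 264 (Pf.C 8 32772))
 Pq.nil))))) (Pq.cons (Pq.L [] 36 (Pf.C 5 16387))
 (Pq.cons (Pq.L [] 132 (Pf.C 8 32771))
 Pq.nil))))) (Pq.cons (Pq.D 3 (Pq.cons (Pq.D 4 (Pq.cons (Pq.L [] 512 (Pf.C 2 515))
 (Pq.cons (Pq.L [] 512 (Pf.C 2 515))
 (Pq.cons (Pq.L [] 72 (Pf.C 5 16388))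
 (Pq.cons (Pq.L [] 320 (Pf.C 9 32900))
 Pq.nil))))) (Pq.cons (Pq.D 4 (Pq.cons (Pq.L [] 512 (Pf.C 2 515))
 (Pq.cons (Pq.L [] 512 (Pf.C 2 515))
 (Pq.cons (Pq.L [] 72 (Pf.C 5 16388))
 (Pq.cons (Pq.L [] 320 (Pf.C 9 32900))
 Pq.nil))))) (Pq.cons (Pq.L [] 36 (Pf.C 5 16387))
 (Pq.cons (Pq.L [] 160 (Pf.C 9 32899))
 Pq.nil))))) (Pq.cons (Pq.L [] 18 (Pf.C 5 16386))
 (Pq.cons (Pq.D 3 (Pq.cons (Pq.L [] 130 (Pf.C 8 49154))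
 (Pq.cons (Pq.L [] 144 (Pf.C 9 49282))
 (Pq.cons (Pq.L [] 36 (Pf.C 5 16387))
 (Pq.cons (Pq.L [] 6 (Pf.C 4 49408))
 Pq.nil))))) Pq.nil))))) (Pq.cons (Pq.D 2 (Pq.cons (Pq.L [] 17 (Pf.C 5 32769))
 (Pq.cons (Pq.L [] 17 (Pf.C 5 32769))
 (Pq.cons (Pq.L [] 3 (Pf.C 3 32896))
 (Pq.cons (Pq.L [] 19 (Pf.C 10 32896))
 Pq.nil))))) (Pq.cons (Pq.D 2 (Pq.cons (Pq.L [] 17 (Pf.C 8 32769))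
 (Pq.cons (Pq.D 3 (Pq.cons (Pq.L [] 33 (Pf.C 8 49153))
 (Pq.cons (Pq.L [] 48 (Pf.C 9 49409))
 (Pq.cons (Pq.L [] 132 (Pf.C 5 32771))
 (Pq.cons (Pq.L [] 5 (Pf.C 4 49280))
 Pq.nil))))) (Pq.cons (Pq.L [] 19 (Pf.C 10 32896))
 (Pq.cons (Pq.L [] 3 (Pf.C 4 32896))
 Pq.nil))))) Pq.nil))))) (Pq.cons (Pq.D 1 (Pq.cons (Pq.D 2 (Pq.cons (Pq.D 3 (Pq.cons (Pq.D 4 (Pq.cons (Pq.L [] 512 (Pf.C 2 515))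
 (Pq.cons (Pq.L [] 512 (Pf.C 2 515))
 (Pq.cons (Pq.L [] 72 (Pf.C 5 16388))
 (Pq.cons (Pq.L [] 320 (Pf.C 8 32900))
 Pq.nil))))) (Pq.cons (Pq.D 4 (Pq.cons (Pq.L [] 512 (Pf.C 2 515))
 (Pq.cons (Pq.L [] 512 (Pf.C 2 515))
 (Pq.cons (Pq.L [] 72 (Pf.C 5 16388))
 (Pq.cons (Pq.L [] 320 (Pf.C 8 32900))
 Pq.nil))))) (Pq.cons (Pq.L [] 36 (Pf.C 5 16387))
 (Pq.cons (Pq.L [] 160 (Pf.C 8 32899))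
 Pq.nil))))) (Pq.cons (Pq.D 3 (Pq.cons (Pq.D 4 (Pq.cons (Pq.L [] 512 (Pf.C 2 515))
 (Pq.cons (Pq.L [] 512 (Pf.C 2 515))
 (Pq.cons (Pq.L [] 72 (Pf.C 5 16388))
 (Pq.cons (Pq.L [] 264 (Pf.C 9 32772))
 Pq.nil))))) (Pq.cons (Pq.D 4 (Pq.cons (Pq.L [] 512 (Pf.C 2 515))
 (Pq.cons (Pq.L [] 512 (Pf.C 2 515))
 (Pq.cons (Pq.L [] 72 (Pf.C 5 16388))
 (Pq.cons (Pq.L [] 264 (Pf.C 9 32772))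
 Pq.nil))))) (Pq.cons (Pq.L [] 36 (Pf.C 5 16387))
 (Pq.cons (Pq.L [] 132 (Pf.C 9 32771))
 Pq.nil))))) (Pq.cons (Pq.L [] 18 (Pf.C 5 16386))
 (Pq.cons (Pq.D 3 (Pq.cons (Pq.L [] 144 (Pf.C 8 49282))
 (Pq.cons (Pq.L [] 130 (Pf.C 9 49154))
 (Pq.cons (Pq.L [] 36 (Pf.C 5 16387))
 (Pq.cons (Pq.L [] 6 (Pf.C 4 49408))
 Pq.nil))))) Pq.nil))))) (Pq.cons (Pq.D 2 (Pq.cons (Pq.D 3 (Pq.cons (Pq.D 4 (Pq.cons (Pq.L [] 512 (Pf.C 2 515))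
 (Pq.cons (Pq.L [] 512 (Pf.C 2 515))
 (Pq.cons (Pq.L [] 72 (Pf.C 5 16388))
 (Pq.cons (Pq.L [] 72 (Pf.C 9 16388))
 Pq.nil))))) (Pq.cons (Pq.D 4 (Pq.cons (Pq.L [] 512 (Pf.C 2 515))
 (Pq.cons (Pq.L [] 512 (Pf.C 2 515))
 (Pq.cons (Pq.L [] 72 (Pf.C 5 16388))
 (Pq.cons (Pq.L [] 72 (Pf.C 9 16388))
 Pq.nil))))) (Pq.cons (Pq.L [] 36 (Pf.C 5 16387))
 (Pq.cons (Pq.L [] 36 (Pf.C 9 16387))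
 Pq.nil))))) (Pq.cons (Pq.D 3 (Pq.cons (Pq.D 4 (Pq.cons (Pq.L [] 512 (Pf.C 2 515))
 (Pq.cons (Pq.L [] 512 (Pf.C 2 515))
 (Pq.cons (Pq.L [] 72 (Pf.C 5 16388))
 (Pq.cons (Pq.L [] 72 (Pf.C 9 16388))
 Pq.nil))))) (Pq.cons (Pq.D 4 (Pq.cons (Pq.L [] 512 (Pf.C 2 515))
 (Pq.cons (Pq.L [] 512 (Pf.C 2 515))
 (Pq.cons (Pq.L [] 72 (Pf.C 5 16388))
 (Pq.cons (Pq.L [] 72 (Pf.C 9 16388))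
 Pq.nil))))) (Pq.cons (Pq.L [] 36 (Pf.C 5 16387))
 (Pq.cons (Pq.L [] 36 (Pf.C 9 16387))
 Pq.nil))))) (Pq.cons (Pq.L [] 18 (Pf.C 5 16386))
 (Pq.cons (Pq.L [] 18 (Pf.C 9 16386))
 Pq.nil))))) (Pq.cons (Pq.D 2 (Pq.cons (Pq.L [] 17 (Pf.C 5 32769))
 (Pq.cons (Pq.L [] 17 (Pf.C 5 32769))
 (Pq.cons (Pq.L [] 3 (Pf.C 3 32896))
 (Pq.cons (Pq.L [] 19 (Pf.C 10 32896))
 Pq.nil))))) (Pq.cons (Pq.D 2 (Pq.cons (Pq.D 3 (Pq.cons (Pq.L [] 48 (Pf.C 8 49409))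
 (Pq.cons (Pq.L [] 33 (Pf.C 9 49153))
 (Pq.cons (Pq.L [] 132 (Pf.C 5 32771))
 (Pq.cons (Pq.L [] 5 (Pf.C 4 49280))
 Pq.nil))))) (Pq.cons (Pq.L [] 17 (Pf.C 9 32769))
 (Pq.cons (Pq.L [] 19 (Pf.C 10 32896))
 (Pq.cons (Pq.L [] 3 (Pf.C 4 32896))
 Pq.nil))))) Pq.nil))))) (Pq.cons (Pq.D 1 (Pq.cons (Pq.D 2 (Pq.cons (Pq.L [] 3 (Pf.C 5 32896))
 (Pq.cons (Pq.L [] 3 (Pf.C 5 32896))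
 (Pq.cons (Pq.L [] 17 (Pf.C 3 32769))
 (Pq.cons (Pq.L [] 19 (Pf.C 10 32896))
 Pq.nil))))) (Pq.cons (Pq.D 2 (Pq.cons (Pq.L [] 3 (Pf.C 5 32896))
 (Pq.cons (Pq.L [] 3 (Pf.C 5 32896))
 (Pq.cons (Pq.L [] 17 (Pf.C 3 32769))
 (Pq.cons (Pq.L [] 19 (Pf.C 10 32896))
 Pq.nil))))) (Pq.cons (Pq.D 2 (Pq.cons (Pq.L [] 18 (Pf.C 3 16386))
 (Pq.cons (Pq.L [] 18 (Pf.C 3 16386))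
 (Pq.cons (Pq.D 3 (Pq.cons (Pq.L [] 36 (Pf.C 3 16387))
 (Pq.cons (Pq.L [] 36 (Pf.C 3 16387))
 (Pq.cons (Pq.D 4 (Pq.cons (Pq.L [] 72 (Pf.C 3 16388))
 (Pq.cons (Pq.L [] 72 (Pf.C 3 16388))
 (Pq.cons (Pq.L [] 512 (Pf.C 0 515))
 (Pq.cons (Pq.L [] 72 (Pf.C 7 16388))
 Pq.nil))))) (Pq.cons (Pq.L [] 36 (Pf.C 7 16387))
 Pq.nil))))) (Pq.cons (Pq.L [] 18 (Pf.C 7 16386))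
 Pq.nil))))) (Pq.cons (Pq.D 2 (Pq.cons (Pq.L [] 19 (Pf.C 10 32896))
 (Pq.cons (Pq.L [] 19 (Pf.C 10 32896))
 (Pq.cons (Pq.L [] 17 (Pf.C 7 32769))
 (Pq.cons (Pq.L [] 3 (Pf.C 6 32896))
 Pq.nil))))) Pq.nil))))) (Pq.cons (Pq.D 1 (Pq.cons (Pq.D 2 (Pq.cons (Pq.L [] 3 (Pf.C 8 32896))
 (Pq.cons (Pq.D 3 (Pq.cons (Pq.L [] 5 (Pf.C 8 49280))
 (Pq.cons (Pq.L [] 6 (Pf.C 9 49408))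
 (Pq.cons (Pq.L [] 37 (Pf.C 10 49280))
 (Pq.cons (Pq.L [] 33 (Pf.C 4 49153))
 Pq.nil))))) (Pq.cons (Pq.L [] 19 (Pf.C 10 32896))
 (Pq.cons (Pq.L [] 17 (Pf.C 4 32769))
 Pq.nil))))) (Pq.cons (Pq.D 2 (Pq.cons (Pq.D 3 (Pq.cons (Pq.L [] 6 (Pf.C 8 49408))
 (Pq.cons (Pq.L [] 5 (Pf.C 9 49280))
 (Pq.cons (Pq.L [] 37 (Pf.C 10 49280))
 (Pq.cons (Pq.L [] 33 (Pf.C 4 49153))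
 Pq.nil))))) (Pq.cons (Pq.L [] 3 (Pf.C 9 32896))
 (Pq.cons (Pq.L [] 19 (Pf.C 10 32896))
 (Pq.cons (Pq.L [] 17 (Pf.C 4 32769))
 Pq.nil))))) (Pq.cons (Pq.D 2 (Pq.cons (Pq.L [] 19 (Pf.C 10 32896))
 (Pq.cons (Pq.L [] 19 (Pf.C 10 32896))
 (Pq.cons (Pq.L [] 3 (Pf.C 7 32896))
 (Pq.cons (Pq.L [] 17 (Pf.C 6 32769))
 Pq.nil))))) (Pq.cons (Pq.D 2 (Pq.cons (Pq.L [] 18 (Pf.C 4 16386))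
 (Pq.cons (Pq.L [] 18 (Pf.C 4 16386))
 (Pq.cons (Pq.L [] 18 (Pf.C 6 16386))
 (Pq.cons (Pq.D 3 (Pq.cons (Pq.L [] 36 (Pf.C 4 16387))
 (Pq.cons (Pq.L [] 36 (Pf.C 4 16387))
 (Pq.cons (Pq.L [] 36 (Pf.C 6 16387))
 (Pq.cons (Pq.D 4 (Pq.cons (Pq.L [] 72 (Pf.C 4 16388))
 (Pq.cons (Pq.L [] 72 (Pf.C 4 16388))
 (Pq.cons (Pq.L [] 72 (Pf.C 6 16388))
 (Pq.cons (Pq.L [] 512 (Pf.C 1 515))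
 Pq.nil))))) Pq.nil))))) Pq.nil))))) Pq.nil))))) Pq.nil))))) Pq.nil))
theorem u12_o0 : AllRef u12_T (pureCtx 4 11) (applyObl (pairTab (cK4, c3P1P2)) 2 [1,2,3,4] [0,0,0,0] [(1,24),(2,24),(3,22),(4,14)]) :=
  chkPq_sound u12_o0c _ (by decide +kernel)
theorem u12_n0 (hP : Lem (pairTab (cK4, c3P1P2)) 0 2) : Bd u12_T (pureCtx 4 11) (pureAct 4) :=
  show Bd _ _ [1,2,3,4] from r_apply hP [0,0,0,0] [(1,24),(2,24),(3,22),(4,14)] (by decide +kernel) u12_o0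
theorem lem_u12 (hP : Lem (pairTab (cK4, c3P1P2)) 0 2) : Lem u12_T 4 11 := ⟨by decide +kernel, (u12_n0 hP)⟩
theorem nb_u12 (h : Unb  4 axT4) : ¬ BdN cK4.g c3P1P2.g :=
  fun hb => unb_use h (lem_u12 (lem_of_bdN (cK4, c3P1P2) hb)) (by decide +kernel)

noncomputable def u13_ty : Tr Ty := (Tr.br (Tr.br (Tr.br (Tr.leaf ⟨1,0,0,0,0⟩) (Tr.leaf ⟨17,14,0,0,0⟩))
 (Tr.leaf ⟨5,26,0,0,0⟩))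
 (Tr.br (Tr.leaf ⟨3,28,0,0,0⟩) (Tr.leaf ⟨9,22,0,0,0⟩))
)

noncomputable def u13_ev : Tr Ev := (Tr.leaf ⟨0,[],0⟩)
noncomputable def u13_ax : Tr Ax := (Tr.br (Tr.br (Tr.br (Tr.br (Tr.leaf ⟨[8,8],[⟨0,1,true⟩],[],0⟩) (Tr.leaf ⟨[16,2,2],[⟨0,1,true⟩,⟨0,2,true⟩],[],0⟩))
 (Tr.leaf ⟨[6,16,16],[⟨0,1,true⟩,⟨0,2,true⟩],[],0⟩))
 (Tr.br (Tr.br (Tr.leaf ⟨[6,6],[⟨0,1,true⟩],[],0⟩) (Tr.leaf ⟨[1,1,1],[⟨0,1,true⟩,⟨0,2,true⟩,⟨1,2,true⟩],[],0⟩))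
 (Tr.leaf ⟨[8,16,16],[⟨0,1,true⟩,⟨0,2,true⟩],[],0⟩))
)
 (Tr.br (Tr.br (Tr.br (Tr.leaf ⟨[16,16],[⟨0,1,true⟩],[],0⟩) (Tr.leaf ⟨[16,4,4],[⟨0,1,true⟩,⟨0,2,true⟩],[],0⟩))
 (Tr.leaf ⟨[8,6,6],[⟨0,1,true⟩,⟨0,2,true⟩],[],0⟩))
 (Tr.br (Tr.leaf ⟨[6,8,8],[⟨0,1,true⟩,⟨0,2,true⟩],[],0⟩) (Tr.leaf ⟨[16,8,8],[⟨0,1,true⟩,⟨0,2,true⟩],[],0⟩))
)
)

noncomputable def u13_sc : Tr Sc := (Tr.leaf ⟨[],[]⟩)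
noncomputable def u13_T : Tab := ⟨5,u13_ty,u13_ev,u13_ax,u13_sc⟩
noncomputable def u13_o0c : Pq := (Pq.cons (Pq.D 0 (Pq.cons (Pq.D 1 (Pq.cons (Pq.L [] 1 (Pf.C 2 128))
 (Pq.cons (Pq.L [] 1 (Pf.C 2 128))
 (Pq.cons (Pq.D 2 (Pq.cons (Pq.L [] 2 (Pf.C 2 256))
 (Pq.cons (Pq.L [] 2 (Pf.C 2 256))
 (Pq.cons (Pq.L [] 8 (Pf.C 0 257))
 (Pq.cons (Pq.D 3 (Pq.cons (Pq.L [] 4 (Pf.C 2 384))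
 (Pq.cons (Pq.L [] 4 (Pf.C 2 384))
 (Pq.cons (Pq.L [] 16 (Pf.C 0 385))
 (Pq.cons (Pq.L [] 32 (Pf.C 1 386))
 Pq.nil))))) Pq.nil))))) (Pq.cons (Pq.D 2 (Pq.cons (Pq.L [] 2 (Pf.C 2 256))
 (Pq.cons (Pq.L [] 2 (Pf.C 2 256))
 (Pq.cons (Pq.D 3 (Pq.cons (Pq.L [] 4 (Pf.C 2 384))
 (Pq.cons (Pq.L [] 4 (Pf.C 2 384))
 (Pq.cons (Pq.L [] 32 (Pf.C 0 386))
 (Pq.cons (Pq.L [] 16 (Pf.C 1 385))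
 Pq.nil))))) (Pq.cons (Pq.L [] 8 (Pf.C 1 257))
 Pq.nil))))) Pq.nil))))) (Pq.cons (Pq.D 1 (Pq.cons (Pq.L [] 1 (Pf.C 2 128))
 (Pq.cons (Pq.L [] 1 (Pf.C 2 128))
 (Pq.cons (Pq.D 2 (Pq.cons (Pq.L [] 2 (Pf.C 2 256))
 (Pq.cons (Pq.L [] 2 (Pf.C 2 256))
 (Pq.cons (Pq.L [] 8 (Pf.C 0 257))
 (Pq.cons (Pq.D 3 (Pq.cons (Pq.L [] 4 (Pf.C 2 384))
 (Pq.cons (Pq.L [] 4 (Pf.C 2 384))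
 (Pq.cons (Pq.L [] 16 (Pf.C 0 385))
 (Pq.cons (Pq.L [] 32 (Pf.C 1 386))
 Pq.nil))))) Pq.nil))))) (Pq.cons (Pq.D 2 (Pq.cons (Pq.L [] 2 (Pf.C 2 256))
 (Pq.cons (Pq.L [] 2 (Pf.C 2 256))
 (Pq.cons (Pq.D 3 (Pq.cons (Pq.L [] 4 (Pf.C 2 384))
 (Pq.cons (Pq.L [] 4 (Pf.C 2 384))
 (Pq.cons (Pq.L [] 32 (Pf.C 0 386))
 (Pq.cons (Pq.L [] 16 (Pf.C 1 385))
 Pq.nil))))) (Pq.cons (Pq.L [] 8 (Pf.C 1 257))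
 Pq.nil))))) Pq.nil))))) (Pq.cons (Pq.D 1 (Pq.cons (Pq.D 2 (Pq.cons (Pq.L [] 8 (Pf.C 2 257))
 (Pq.cons (Pq.L [] 8 (Pf.C 2 257))
 (Pq.cons (Pq.L [] 2 (Pf.C 0 256))
 (Pq.cons (Pq.D 3 (Pq.cons (Pq.L [] 16 (Pf.C 2 385))
 (Pq.cons (Pq.L [] 16 (Pf.C 2 385))
 (Pq.cons (Pq.L [] 4 (Pf.C 0 384))
 (Pq.cons (Pq.L [] 32 (Pf.C 1 386))
 Pq.nil))))) Pq.nil))))) (Pq.cons (Pq.D 2 (Pq.cons (Pq.L [] 8 (Pf.C 2 257))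
 (Pq.cons (Pq.L [] 8 (Pf.C 2 257))
 (Pq.cons (Pq.L [] 2 (Pf.C 0 256))
 (Pq.cons (Pq.D 3 (Pq.cons (Pq.L [] 16 (Pf.C 2 385))
 (Pq.cons (Pq.L [] 16 (Pf.C 2 385))
 (Pq.cons (Pq.L [] 4 (Pf.C 0 384))
 (Pq.cons (Pq.L [] 32 (Pf.C 1 386))
 Pq.nil))))) Pq.nil))))) (Pq.cons (Pq.L [] 1 (Pf.C 0 128))
 (Pq.cons (Pq.D 2 (Pq.cons (Pq.D 3 (Pq.cons (Pq.L [] 32 (Pf.C 2 386))
 (Pq.cons (Pq.L [] 32 (Pf.C 2 386))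
 (Pq.cons (Pq.L [] 4 (Pf.C 0 384))
 (Pq.cons (Pq.L [] 16 (Pf.C 1 385))
 Pq.nil))))) (Pq.cons (Pq.D 3 (Pq.cons (Pq.L [] 32 (Pf.C 2 386))
 (Pq.cons (Pq.L [] 32 (Pf.C 2 386))
 (Pq.cons (Pq.L [] 4 (Pf.C 0 384))
 (Pq.cons (Pq.L [] 16 (Pf.C 1 385))
 Pq.nil))))) (Pq.cons (Pq.L [] 2 (Pf.C 0 256))
 (Pq.cons (Pq.L [] 8 (Pf.C 1 257))
 Pq.nil))))) Pq.nil))))) (Pq.cons (Pq.D 1 (Pq.cons (Pq.D 2 (Pq.cons (Pq.L [] 8 (Pf.C 2 257))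
 (Pq.cons (Pq.L [] 8 (Pf.C 2 257))
 (Pq.cons (Pq.D 3 (Pq.cons (Pq.L [] 16 (Pf.C 2 385))
 (Pq.cons (Pq.L [] 16 (Pf.C 2 385))
 (Pq.cons (Pq.L [] 32 (Pf.C 0 386))
 (Pq.cons (Pq.L [] 4 (Pf.C 1 384))
 Pq.nil))))) (Pq.cons (Pq.L [] 2 (Pf.C 1 256))
 Pq.nil))))) (Pq.cons (Pq.D 2 (Pq.cons (Pq.L [] 8 (Pf.C 2 257))
 (Pq.cons (Pq.L [] 8 (Pf.C 2 257))
 (Pq.cons (Pq.D 3 (Pq.cons (Pq.L [] 16 (Pf.C 2 385))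
 (Pq.cons (Pq.L [] 16 (Pf.C 2 385))
 (Pq.cons (Pq.L [] 32 (Pf.C 0 386))
 (Pq.cons (Pq.L [] 4 (Pf.C 1 384))
 Pq.nil))))) (Pq.cons (Pq.L [] 2 (Pf.C 1 256))
 Pq.nil))))) (Pq.cons (Pq.D 2 (Pq.cons (Pq.D 3 (Pq.cons (Pq.L [] 32 (Pf.C 2 386))
 (Pq.cons (Pq.L [] 32 (Pf.C 2 386))
 (Pq.cons (Pq.L [] 16 (Pf.C 0 385))
 (Pq.cons (Pq.L [] 4 (Pf.C 1 384))
 Pq.nil))))) (Pq.cons (Pq.D 3 (Pq.cons (Pq.L [] 32 (Pf.C 2 386))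
 (Pq.cons (Pq.L [] 32 (Pf.C 2 386))
 (Pq.cons (Pq.L [] 16 (Pf.C 0 385))
 (Pq.cons (Pq.L [] 4 (Pf.C 1 384))
 Pq.nil))))) (Pq.cons (Pq.L [] 8 (Pf.C 0 257))
 (Pq.cons (Pq.L [] 2 (Pf.C 1 256))
 Pq.nil))))) (Pq.cons (Pq.L [] 1 (Pf.C 1 128))
 Pq.nil))))) Pq.nil))))) (Pq.cons (Pq.D 0 (Pq.cons (Pq.D 1 (Pq.cons (Pq.D 2 (Pq.cons (Pq.L [] 16 (Pf.C 2 257))
 (Pq.cons (Pq.L [] 16 (Pf.C 2 257))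
 (Pq.cons (Pq.D 3 (Pq.cons (Pq.D 4 (Pq.cons (Pq.L [] 258 (Pf.C 5 65538))
 (Pq.cons (Pq.L [] 258 (Pf.C 5 65538))
 (Pq.cons (Pq.L [] 10 (Pf.C 3 65792))
 (Pq.cons (Pq.L [] 72 (Pf.C 8 16388))
 Pq.nil))))) (Pq.cons (Pq.D 4 (Pq.cons (Pq.L [] 258 (Pf.C 5 65538))
 (Pq.cons (Pq.L [] 258 (Pf.C 5 65538))
 (Pq.cons (Pq.L [] 10 (Pf.C 3 65792))
 (Pq.cons (Pq.L [] 72 (Pf.C 8 16388))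
 Pq.nil))))) (Pq.cons (Pq.L [] 6 (Pf.C 3 49408))
 (Pq.cons (Pq.L [] 36 (Pf.C 8 16387))
 Pq.nil))))) (Pq.cons (Pq.D 3 (Pq.cons (Pq.D 4 (Pq.cons (Pq.L [] 258 (Pf.C 8 65538))
 (Pq.cons (Pq.L [] 512 (Pf.C 2 515))
 (Pq.cons (Pq.L [] 72 (Pf.C 5 16388))
 (Pq.cons (Pq.L [] 10 (Pf.C 4 65792))
 Pq.nil))))) (Pq.cons (Pq.D 4 (Pq.cons (Pq.L [] 258 (Pf.C 8 65538))
 (Pq.cons (Pq.L [] 512 (Pf.C 2 515))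
 (Pq.cons (Pq.L [] 72 (Pf.C 5 16388))
 (Pq.cons (Pq.L [] 10 (Pf.C 4 65792))
 Pq.nil))))) (Pq.cons (Pq.L [] 36 (Pf.C 5 16387))
 (Pq.cons (Pq.L [] 6 (Pf.C 4 49408))
 Pq.nil))))) Pq.nil))))) (Pq.cons (Pq.D 2 (Pq.cons (Pq.L [] 16 (Pf.C 2 257))
 (Pq.cons (Pq.L [] 16 (Pf.C 2 257))
 (Pq.cons (Pq.D 3 (Pq.cons (Pq.D 4 (Pq.cons (Pq.L [] 258 (Pf.C 5 65538))
 (Pq.cons (Pq.L [] 258 (Pf.C 5 65538))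
 (Pq.cons (Pq.L [] 10 (Pf.C 3 65792))
 (Pq.cons (Pq.L [] 266 (Pf.C 10 65792))
 Pq.nil))))) (Pq.cons (Pq.D 4 (Pq.cons (Pq.L [] 258 (Pf.C 5 65538))
 (Pq.cons (Pq.L [] 258 (Pf.C 5 65538))
 (Pq.cons (Pq.L [] 10 (Pf.C 3 65792))
 (Pq.cons (Pq.L [] 266 (Pf.C 10 65792))
 Pq.nil))))) (Pq.cons (Pq.L [] 6 (Pf.C 3 49408))
 (Pq.cons (Pq.D 4 (Pq.cons (Pq.L [] 258 (Pf.C 5 65538))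
 (Pq.cons (Pq.L [] 258 (Pf.C 5 65538))
 (Pq.cons (Pq.L [] 10 (Pf.C 3 65792))
 (Pq.cons (Pq.L [] 12 (Pf.C 4 65920))
 Pq.nil))))) Pq.nil))))) (Pq.cons (Pq.D 3 (Pq.cons (Pq.D 4 (Pq.cons (Pq.L [] 258 (Pf.C 8 65538))
 (Pq.cons (Pq.L [] 512 (Pf.C 2 515))
 (Pq.cons (Pq.L [] 72 (Pf.C 5 16388))
 (Pq.cons (Pq.L [] 10 (Pf.C 4 65792))
 Pq.nil))))) (Pq.cons (Pq.D 4 (Pq.cons (Pq.L [] 258 (Pf.C 8 65538))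
 (Pq.cons (Pq.L [] 512 (Pf.C 2 515))
 (Pq.cons (Pq.L [] 72 (Pf.C 5 16388))
 (Pq.cons (Pq.L [] 10 (Pf.C 4 65792))
 Pq.nil))))) (Pq.cons (Pq.L [] 36 (Pf.C 5 16387))
 (Pq.cons (Pq.L [] 6 (Pf.C 4 49408))
 Pq.nil))))) Pq.nil))))) (Pq.cons (Pq.D 2 (Pq.cons (Pq.D 3 (Pq.cons (Pq.L [] 33 (Pf.C 5 49153))
 (Pq.cons (Pq.L [] 33 (Pf.C 5 49153))
 (Pq.cons (Pq.L [] 5 (Pf.C 3 49280))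
 (Pq.cons (Pq.L [] 37 (Pf.C 10 49280))
 Pq.nil))))) (Pq.cons (Pq.D 3 (Pq.cons (Pq.L [] 33 (Pf.C 5 49153))
 (Pq.cons (Pq.L [] 33 (Pf.C 5 49153))
 (Pq.cons (Pq.L [] 5 (Pf.C 3 49280))
 (Pq.cons (Pq.L [] 37 (Pf.C 10 49280))
 Pq.nil))))) (Pq.cons (Pq.L [] 3 (Pf.C 3 32896))
 (Pq.cons (Pq.D 3 (Pq.cons (Pq.L [] 33 (Pf.C 5 49153))
 (Pq.cons (Pq.L [] 33 (Pf.C 5 49153))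
 (Pq.cons (Pq.L [] 5 (Pf.C 3 49280))
 (Pq.cons (Pq.L [] 6 (Pf.C 4 49408))
 Pq.nil))))) Pq.nil))))) (Pq.cons (Pq.D 2 (Pq.cons (Pq.D 3 (Pq.cons (Pq.L [] 33 (Pf.C 8 49153))
 (Pq.cons (Pq.L [] 128 (Pf.C 2 386))
 (Pq.cons (Pq.L [] 37 (Pf.C 10 49280))
 (Pq.cons (Pq.L [] 5 (Pf.C 4 49280))
 Pq.nil))))) (Pq.cons (Pq.D 3 (Pq.cons (Pq.L [] 33 (Pf.C 8 49153))
 (Pq.cons (Pq.L [] 128 (Pf.C 2 386))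
 (Pq.cons (Pq.L [] 37 (Pf.C 10 49280))
 (Pq.cons (Pq.L [] 5 (Pf.C 4 49280))
 Pq.nil))))) (Pq.cons (Pq.D 3 (Pq.cons (Pq.L [] 33 (Pf.C 8 49153))
 (Pq.cons (Pq.D 4 (Pq.cons (Pq.L [] 258 (Pf.C 5 65538))
 (Pq.cons (Pq.L [] 258 (Pf.C 5 65538))
 (Pq.cons (Pq.L [] 10 (Pf.C 3 65792))
 (Pq.cons (Pq.L [] 9 (Pf.C 4 65664))
 Pq.nil))))) (Pq.cons (Pq.L [] 6 (Pf.C 3 49408))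
 (Pq.cons (Pq.L [] 5 (Pf.C 4 49280))
 Pq.nil))))) (Pq.cons (Pq.L [] 3 (Pf.C 4 32896))
 Pq.nil))))) Pq.nil))))) (Pq.cons (Pq.D 1 (Pq.cons (Pq.D 2 (Pq.cons (Pq.L [] 16 (Pf.C 2 257))
 (Pq.cons (Pq.L [] 16 (Pf.C 2 257))
 (Pq.cons (Pq.D 3 (Pq.cons (Pq.D 4 (Pq.cons (Pq.L [] 258 (Pf.C 5 65538))
 (Pq.cons (Pq.L [] 258 (Pf.C 5 65538))
 (Pq.cons (Pq.L [] 10 (Pf.C 3 65792))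
 (Pq.cons (Pq.L [] 266 (Pf.C 10 65792))
 Pq.nil))))) (Pq.cons (Pq.D 4 (Pq.cons (Pq.L [] 258 (Pf.C 5 65538))
 (Pq.cons (Pq.L [] 258 (Pf.C 5 65538))
 (Pq.cons (Pq.L [] 10 (Pf.C 3 65792))
 (Pq.cons (Pq.L [] 266 (Pf.C 10 65792))
 Pq.nil))))) (Pq.cons (Pq.L [] 6 (Pf.C 3 49408))
 (Pq.cons (Pq.D 4 (Pq.cons (Pq.L [] 258 (Pf.C 5 65538))
 (Pq.cons (Pq.L [] 258 (Pf.C 5 65538))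
 (Pq.cons (Pq.L [] 10 (Pf.C 3 65792))
 (Pq.cons (Pq.L [] 12 (Pf.C 4 65920))
 Pq.nil))))) Pq.nil))))) (Pq.cons (Pq.D 3 (Pq.cons (Pq.D 4 (Pq.cons (Pq.L [] 512 (Pf.C 2 515))
 (Pq.cons (Pq.L [] 258 (Pf.C 9 65538))
 (Pq.cons (Pq.L [] 72 (Pf.C 5 16388))
 (Pq.cons (Pq.L [] 10 (Pf.C 4 65792))
 Pq.nil))))) (Pq.cons (Pq.D 4 (Pq.cons (Pq.L [] 512 (Pf.C 2 515))
 (Pq.cons (Pq.L [] 258 (Pf.C 9 65538))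
 (Pq.cons (Pq.L [] 72 (Pf.C 5 16388))
 (Pq.cons (Pq.L [] 10 (Pf.C 4 65792))
 Pq.nil))))) (Pq.cons (Pq.L [] 36 (Pf.C 5 16387))
 (Pq.cons (Pq.L [] 6 (Pf.C 4 49408))
 Pq.nil))))) Pq.nil))))) (Pq.cons (Pq.D 2 (Pq.cons (Pq.L [] 16 (Pf.C 2 257))
 (Pq.cons (Pq.L [] 16 (Pf.C 2 257))
 (Pq.cons (Pq.D 3 (Pq.cons (Pq.D 4 (Pq.cons (Pq.L [] 258 (Pf.C 5 65538))
 (Pq.cons (Pq.L [] 258 (Pf.C 5 65538))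
 (Pq.cons (Pq.L [] 10 (Pf.C 3 65792))
 (Pq.cons (Pq.L [] 72 (Pf.C 9 16388))
 Pq.nil))))) (Pq.cons (Pq.D 4 (Pq.cons (Pq.L [] 258 (Pf.C 5 65538))
 (Pq.cons (Pq.L [] 258 (Pf.C 5 65538))
 (Pq.cons (Pq.L [] 10 (Pf.C 3 65792))
 (Pq.cons (Pq.L [] 72 (Pf.C 9 16388))
 Pq.nil))))) (Pq.cons (Pq.L [] 6 (Pf.C 3 49408))
 (Pq.cons (Pq.L [] 36 (Pf.C 9 16387))
 Pq.nil))))) (Pq.cons (Pq.D 3 (Pq.cons (Pq.D 4 (Pq.cons (Pq.L [] 512 (Pf.C 2 515))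
 (Pq.cons (Pq.L [] 258 (Pf.C 9 65538))
 (Pq.cons (Pq.L [] 72 (Pf.C 5 16388))
 (Pq.cons (Pq.L [] 10 (Pf.C 4 65792))
 Pq.nil))))) (Pq.cons (Pq.D 4 (Pq.cons (Pq.L [] 512 (Pf.C 2 515))
 (Pq.cons (Pq.L [] 258 (Pf.C 9 65538))
 (Pq.cons (Pq.L [] 72 (Pf.C 5 16388))
 (Pq.cons (Pq.L [] 10 (Pf.C 4 65792))
 Pq.nil))))) (Pq.cons (Pq.L [] 36 (Pf.C 5 16387))
 (Pq.cons (Pq.L [] 6 (Pf.C 4 49408))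
 Pq.nil))))) Pq.nil))))) (Pq.cons (Pq.D 2 (Pq.cons (Pq.D 3 (Pq.cons (Pq.L [] 33 (Pf.C 5 49153))
 (Pq.cons (Pq.L [] 33 (Pf.C 5 49153))
 (Pq.cons (Pq.L [] 5 (Pf.C 3 49280))
 (Pq.cons (Pq.L [] 37 (Pf.C 10 49280))
 Pq.nil))))) (Pq.cons (Pq.D 3 (Pq.cons (Pq.L [] 33 (Pf.C 5 49153))
 (Pq.cons (Pq.L [] 33 (Pf.C 5 49153))
 (Pq.cons (Pq.L [] 5 (Pf.C 3 49280))
 (Pq.cons (Pq.L [] 37 (Pf.C 10 49280))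
 Pq.nil))))) (Pq.cons (Pq.L [] 3 (Pf.C 3 32896))
 (Pq.cons (Pq.D 3 (Pq.cons (Pq.L [] 33 (Pf.C 5 49153))
 (Pq.cons (Pq.L [] 33 (Pf.C 5 49153))
 (Pq.cons (Pq.L [] 5 (Pf.C 3 49280))
 (Pq.cons (Pq.L [] 6 (Pf.C 4 49408))
 Pq.nil))))) Pq.nil))))) (Pq.cons (Pq.D 2 (Pq.cons (Pq.D 3 (Pq.cons (Pq.L [] 128 (Pf.C 2 386))
 (Pq.cons (Pq.L [] 33 (Pf.C 9 49153))
 (Pq.cons (Pq.L [] 37 (Pf.C 10 49280))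
 (Pq.cons (Pq.L [] 5 (Pf.C 4 49280))
 Pq.nil))))) (Pq.cons (Pq.D 3 (Pq.cons (Pq.L [] 128 (Pf.C 2 386))
 (Pq.cons (Pq.L [] 33 (Pf.C 9 49153))
 (Pq.cons (Pq.L [] 37 (Pf.C 10 49280))
 (Pq.cons (Pq.L [] 5 (Pf.C 4 49280))
 Pq.nil))))) (Pq.cons (Pq.D 3 (Pq.cons (Pq.D 4 (Pq.cons (Pq.L [] 258 (Pf.C 5 65538))
 (Pq.cons (Pq.L [] 258 (Pf.C 5 65538))
 (Pq.cons (Pq.L [] 10 (Pf.C 3 65792))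
 (Pq.cons (Pq.L [] 9 (Pf.C 4 65664))
 Pq.nil))))) (Pq.cons (Pq.L [] 33 (Pf.C 9 49153))
 (Pq.cons (Pq.L [] 6 (Pf.C 3 49408))
 (Pq.cons (Pq.L [] 5 (Pf.C 4 49280))
 Pq.nil))))) (Pq.cons (Pq.L [] 3 (Pf.C 4 32896))
 Pq.nil))))) Pq.nil))))) (Pq.cons (Pq.D 1 (Pq.cons (Pq.D 2 (Pq.cons (Pq.L [] 3 (Pf.C 5 32896))
 (Pq.cons (Pq.L [] 3 (Pf.C 5 32896))
 (Pq.cons (Pq.D 3 (Pq.cons (Pq.L [] 5 (Pf.C 5 49280))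
 (Pq.cons (Pq.L [] 5 (Pf.C 5 49280))
 (Pq.cons (Pq.L [] 33 (Pf.C 3 49153))
 (Pq.cons (Pq.L [] 37 (Pf.C 10 49280))
 Pq.nil))))) (Pq.cons (Pq.D 3 (Pq.cons (Pq.L [] 5 (Pf.C 5 49280))
 (Pq.cons (Pq.L [] 5 (Pf.C 5 49280))
 (Pq.cons (Pq.L [] 33 (Pf.C 3 49153))
 (Pq.cons (Pq.L [] 6 (Pf.C 6 49408))
 Pq.nil))))) Pq.nil))))) (Pq.cons (Pq.D 2 (Pq.cons (Pq.L [] 3 (Pf.C 5 32896))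
 (Pq.cons (Pq.L [] 3 (Pf.C 5 32896))
 (Pq.cons (Pq.D 3 (Pq.cons (Pq.L [] 5 (Pf.C 5 49280))
 (Pq.cons (Pq.L [] 5 (Pf.C 5 49280))
 (Pq.cons (Pq.L [] 33 (Pf.C 3 49153))
 (Pq.cons (Pq.L [] 37 (Pf.C 10 49280))
 Pq.nil))))) (Pq.cons (Pq.D 3 (Pq.cons (Pq.L [] 5 (Pf.C 5 49280))
 (Pq.cons (Pq.L [] 5 (Pf.C 5 49280))
 (Pq.cons (Pq.L [] 33 (Pf.C 3 49153))
 (Pq.cons (Pq.L [] 6 (Pf.C 6 49408))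
 Pq.nil))))) Pq.nil))))) (Pq.cons (Pq.D 2 (Pq.cons (Pq.D 3 (Pq.cons (Pq.L [] 36 (Pf.C 3 16387))
 (Pq.cons (Pq.L [] 36 (Pf.C 3 16387))
 (Pq.cons (Pq.D 4 (Pq.cons (Pq.L [] 72 (Pf.C 3 16388))
 (Pq.cons (Pq.L [] 72 (Pf.C 3 16388))
 (Pq.cons (Pq.L [] 258 (Pf.C 3 65538))
 (Pq.cons (Pq.L [] 72 (Pf.C 7 16388))
 Pq.nil))))) (Pq.cons (Pq.L [] 36 (Pf.C 7 16387))
 Pq.nil))))) (Pq.cons (Pq.D 3 (Pq.cons (Pq.L [] 36 (Pf.C 3 16387))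
 (Pq.cons (Pq.L [] 36 (Pf.C 3 16387))
 (Pq.cons (Pq.D 4 (Pq.cons (Pq.L [] 72 (Pf.C 3 16388))
 (Pq.cons (Pq.L [] 72 (Pf.C 3 16388))
 (Pq.cons (Pq.L [] 258 (Pf.C 3 65538))
 (Pq.cons (Pq.L [] 72 (Pf.C 7 16388))
 Pq.nil))))) (Pq.cons (Pq.L [] 36 (Pf.C 7 16387))
 Pq.nil))))) (Pq.cons (Pq.L [] 16 (Pf.C 0 257))
 (Pq.cons (Pq.D 3 (Pq.cons (Pq.L [] 36 (Pf.C 3 16387))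
 (Pq.cons (Pq.L [] 36 (Pf.C 3 16387))
 (Pq.cons (Pq.D 4 (Pq.cons (Pq.L [] 72 (Pf.C 3 16388))
 (Pq.cons (Pq.L [] 72 (Pf.C 3 16388))
 (Pq.cons (Pq.L [] 258 (Pf.C 7 65538))
 (Pq.cons (Pq.L [] 10 (Pf.C 6 65792))
 Pq.nil))))) (Pq.cons (Pq.L [] 6 (Pf.C 6 49408))
 Pq.nil))))) Pq.nil))))) (Pq.cons (Pq.D 2 (Pq.cons (Pq.D 3 (Pq.cons (Pq.L [] 6 (Pf.C 5 49408))
 (Pq.cons (Pq.L [] 6 (Pf.C 5 49408))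
 (Pq.cons (Pq.L [] 33 (Pf.C 7 49153))
 (Pq.cons (Pq.L [] 5 (Pf.C 6 49280))
 Pq.nil))))) (Pq.cons (Pq.D 3 (Pq.cons (Pq.L [] 6 (Pf.C 5 49408))
 (Pq.cons (Pq.L [] 6 (Pf.C 5 49408))
 (Pq.cons (Pq.L [] 33 (Pf.C 7 49153))
 (Pq.cons (Pq.L [] 5 (Pf.C 6 49280))
 Pq.nil))))) (Pq.cons (Pq.D 3 (Pq.cons (Pq.L [] 37 (Pf.C 10 49280))
 (Pq.cons (Pq.L [] 37 (Pf.C 10 49280))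
 (Pq.cons (Pq.L [] 33 (Pf.C 7 49153))
 (Pq.cons (Pq.L [] 5 (Pf.C 6 49280))
 Pq.nil))))) (Pq.cons (Pq.L [] 3 (Pf.C 6 32896))
 Pq.nil))))) Pq.nil))))) (Pq.cons (Pq.D 1 (Pq.cons (Pq.D 2 (Pq.cons (Pq.L [] 3 (Pf.C 8 32896))
 (Pq.cons (Pq.L [] 19 (Pf.C 10 32896))
 (Pq.cons (Pq.D 3 (Pq.cons (Pq.L [] 5 (Pf.C 8 49280))
 (Pq.cons (Pq.D 4 (Pq.cons (Pq.L [] 9 (Pf.C 8 65664))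
 (Pq.cons (Pq.L [] 12 (Pf.C 9 65920))
 (Pq.cons (Pq.L [] 10 (Pf.C 7 65792))
 (Pq.cons (Pq.L [] 65 (Pf.C 4 65537))
 Pq.nil))))) (Pq.cons (Pq.L [] 6 (Pf.C 7 49408))
 (Pq.cons (Pq.L [] 33 (Pf.C 4 49153))
 Pq.nil))))) (Pq.cons (Pq.D 3 (Pq.cons (Pq.L [] 5 (Pf.C 8 49280))
 (Pq.cons (Pq.D 4 (Pq.cons (Pq.L [] 264 (Pf.C 4 32772))
 (Pq.cons (Pq.L [] 264 (Pf.C 4 32772))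
 (Pq.cons (Pq.L [] 264 (Pf.C 6 32772))
 (Pq.cons (Pq.L [] 65 (Pf.C 4 65537))
 Pq.nil))))) (Pq.cons (Pq.L [] 37 (Pf.C 10 49280))
 (Pq.cons (Pq.L [] 33 (Pf.C 4 49153))
 Pq.nil))))) Pq.nil))))) (Pq.cons (Pq.D 2 (Pq.cons (Pq.L [] 19 (Pf.C 10 32896))
 (Pq.cons (Pq.L [] 3 (Pf.C 9 32896))
 (Pq.cons (Pq.D 3 (Pq.cons (Pq.D 4 (Pq.cons (Pq.L [] 12 (Pf.C 8 65920))
 (Pq.cons (Pq.L [] 9 (Pf.C 9 65664))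
 (Pq.cons (Pq.L [] 10 (Pf.C 7 65792))
 (Pq.cons (Pq.L [] 65 (Pf.C 4 65537))
 Pq.nil))))) (Pq.cons (Pq.L [] 5 (Pf.C 9 49280))
 (Pq.cons (Pq.L [] 6 (Pf.C 7 49408))
 (Pq.cons (Pq.L [] 33 (Pf.C 4 49153))
 Pq.nil))))) (Pq.cons (Pq.D 3 (Pq.cons (Pq.D 4 (Pq.cons (Pq.L [] 264 (Pf.C 4 32772))
 (Pq.cons (Pq.L [] 264 (Pf.C 4 32772))
 (Pq.cons (Pq.L [] 264 (Pf.C 6 32772))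
 (Pq.cons (Pq.L [] 65 (Pf.C 4 65537))
 Pq.nil))))) (Pq.cons (Pq.L [] 5 (Pf.C 9 49280))
 (Pq.cons (Pq.L [] 37 (Pf.C 10 49280))
 (Pq.cons (Pq.L [] 33 (Pf.C 4 49153))
 Pq.nil))))) Pq.nil))))) (Pq.cons (Pq.D 2 (Pq.cons (Pq.D 3 (Pq.cons (Pq.L [] 6 (Pf.C 8 49408))
 (Pq.cons (Pq.L [] 37 (Pf.C 10 49280))
 (Pq.cons (Pq.L [] 5 (Pf.C 7 49280))
 (Pq.cons (Pq.L [] 33 (Pf.C 6 49153))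
 Pq.nil))))) (Pq.cons (Pq.D 3 (Pq.cons (Pq.L [] 37 (Pf.C 10 49280))
 (Pq.cons (Pq.L [] 6 (Pf.C 9 49408))
 (Pq.cons (Pq.L [] 5 (Pf.C 7 49280))
 (Pq.cons (Pq.L [] 33 (Pf.C 6 49153))
 Pq.nil))))) (Pq.cons (Pq.L [] 3 (Pf.C 7 32896))
 (Pq.cons (Pq.D 3 (Pq.cons (Pq.L [] 37 (Pf.C 10 49280))
 (Pq.cons (Pq.L [] 37 (Pf.C 10 49280))
 (Pq.cons (Pq.L [] 5 (Pf.C 7 49280))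
 (Pq.cons (Pq.L [] 33 (Pf.C 6 49153))
 Pq.nil))))) Pq.nil))))) (Pq.cons (Pq.D 2 (Pq.cons (Pq.D 3 (Pq.cons (Pq.L [] 36 (Pf.C 4 16387))
 (Pq.cons (Pq.L [] 36 (Pf.C 4 16387))
 (Pq.cons (Pq.L [] 36 (Pf.C 6 16387))
 (Pq.cons (Pq.D 4 (Pq.cons (Pq.L [] 72 (Pf.C 4 16388))
 (Pq.cons (Pq.L [] 72 (Pf.C 4 16388))
 (Pq.cons (Pq.L [] 72 (Pf.C 6 16388))
 (Pq.cons (Pq.L [] 258 (Pf.C 4 65538))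
 Pq.nil))))) Pq.nil))))) (Pq.cons (Pq.D 3 (Pq.cons (Pq.L [] 36 (Pf.C 4 16387))
 (Pq.cons (Pq.L [] 36 (Pf.C 4 16387))
 (Pq.cons (Pq.L [] 36 (Pf.C 6 16387))
 (Pq.cons (Pq.D 4 (Pq.cons (Pq.L [] 72 (Pf.C 4 16388))
 (Pq.cons (Pq.L [] 72 (Pf.C 4 16388))
 (Pq.cons (Pq.L [] 72 (Pf.C 6 16388))
 (Pq.cons (Pq.L [] 258 (Pf.C 4 65538))
 Pq.nil))))) Pq.nil))))) (Pq.cons (Pq.D 3 (Pq.cons (Pq.L [] 36 (Pf.C 4 16387))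
 (Pq.cons (Pq.L [] 36 (Pf.C 4 16387))
 (Pq.cons (Pq.L [] 36 (Pf.C 6 16387))
 (Pq.cons (Pq.D 4 (Pq.cons (Pq.L [] 72 (Pf.C 4 16388))
 (Pq.cons (Pq.L [] 72 (Pf.C 4 16388))
 (Pq.cons (Pq.L [] 72 (Pf.C 6 16388))
 (Pq.cons (Pq.L [] 258 (Pf.C 6 65538))
 Pq.nil))))) Pq.nil))))) (Pq.cons (Pq.L [] 16 (Pf.C 1 257))
 Pq.nil))))) Pq.nil))))) Pq.nil))))) Pq.nil))
theorem u13_o0 : AllRef u13_T (pureCtx 4 11) (applyObl (pairTab (cK4, cP1P4)) 2 [1,2,3,4] [0,0,0,0] [(1,24),(2,24),(3,22),(4,14)]) :=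
  chkPq_sound u13_o0c _ (by decide +kernel)
theorem u13_n0 (hP : Lem (pairTab (cK4, cP1P4)) 0 2) : Bd u13_T (pureCtx 4 11) (pureAct 4) :=
  show Bd _ _ [1,2,3,4] from r_apply hP [0,0,0,0] [(1,24),(2,24),(3,22),(4,14)] (by decide +kernel) u13_o0
theorem lem_u13 (hP : Lem (pairTab (cK4, cP1P4)) 0 2) : Lem u13_T 4 11 := ⟨by decide +kernel, (u13_n0 hP)⟩
theorem nb_u13 (h : Unb  4 axT4) : ¬ BdN cK4.g cP1P4.g :=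
  fun hb => unb_use h (lem_u13 (lem_of_bdN (cK4, cP1P4) hb)) (by decide +kernel)

noncomputable def u14_ty : Tr Ty := (Tr.br (Tr.br (Tr.br (Tr.leaf ⟨1,0,0,0,0⟩) (Tr.leaf ⟨17,14,0,0,0⟩))
 (Tr.leaf ⟨5,26,0,0,0⟩))
 (Tr.br (Tr.leaf ⟨3,28,0,0,0⟩) (Tr.leaf ⟨9,22,0,0,0⟩))
)

noncomputable def u14_ev : Tr Ev := (Tr.leaf ⟨0,[],0⟩)
noncomputable def u14_ax : Tr Ax := (Tr.br (Tr.br (Tr.br (Tr.br (Tr.leaf ⟨[8,8],[⟨0,1,true⟩],[],0⟩) (Tr.leaf ⟨[16,2,2],[⟨0,1,true⟩,⟨0,2,true⟩],[],0⟩))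
 (Tr.leaf ⟨[6,16,16],[⟨0,1,true⟩,⟨0,2,true⟩],[],0⟩))
 (Tr.br (Tr.br (Tr.leaf ⟨[6,6],[⟨0,1,true⟩],[],0⟩) (Tr.leaf ⟨[1,1,1],[⟨0,1,true⟩,⟨0,2,true⟩,⟨1,2,true⟩],[],0⟩))
 (Tr.leaf ⟨[8,16,16],[⟨0,1,true⟩,⟨0,2,true⟩],[],0⟩))
)
 (Tr.br (Tr.br (Tr.br (Tr.leaf ⟨[16,16],[⟨0,1,true⟩],[],0⟩) (Tr.leaf ⟨[16,4,4],[⟨0,1,true⟩,⟨0,2,true⟩],[],0⟩))
 (Tr.leaf ⟨[8,6,6],[⟨0,1,true⟩,⟨0,2,true⟩],[],0⟩))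
 (Tr.br (Tr.leaf ⟨[6,8,8],[⟨0,1,true⟩,⟨0,2,true⟩],[],0⟩) (Tr.leaf ⟨[16,8,8],[⟨0,1,true⟩,⟨0,2,true⟩],[],0⟩))
)
)

noncomputable def u14_sc : Tr Sc := (Tr.leaf ⟨[],[]⟩)
noncomputable def u14_T : Tab := ⟨5,u14_ty,u14_ev,u14_ax,u14_sc⟩
noncomputable def u14_o0c : Pq := (Pq.cons (Pq.D 0 (Pq.cons (Pq.D 1 (Pq.cons (Pq.D 2 (Pq.cons (Pq.D 3 (Pq.cons (Pq.L [] 4 (Pf.C 2 384))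
 (Pq.cons (Pq.L [] 16 (Pf.C 2 385))
 (Pq.cons (Pq.L [] 48 (Pf.C 5 32899))
 (Pq.cons (Pq.L [] 48 (Pf.C 8 32899))
 Pq.nil))))) (Pq.cons (Pq.L [] 2 (Pf.C 2 256))
 (Pq.cons (Pq.L [] 10 (Pf.C 5 16386))
 (Pq.cons (Pq.L [] 10 (Pf.C 8 16386))
 Pq.nil))))) (Pq.cons (Pq.L [] 1 (Pf.C 2 128))
 (Pq.cons (Pq.D 2 (Pq.cons (Pq.L [] 9 (Pf.C 5 32769))
 (Pq.cons (Pq.L [] 2 (Pf.C 2 256))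
 (Pq.cons (Pq.L [] 3 (Pf.C 3 32896))
 (Pq.cons (Pq.L [] 11 (Pf.C 10 32896))
 Pq.nil))))) (Pq.cons (Pq.D 2 (Pq.cons (Pq.L [] 9 (Pf.C 8 32769))
 (Pq.cons (Pq.L [] 2 (Pf.C 2 256))
 (Pq.cons (Pq.L [] 11 (Pf.C 10 32896))
 (Pq.cons (Pq.L [] 3 (Pf.C 4 32896))
 Pq.nil))))) Pq.nil))))) (Pq.cons (Pq.D 1 (Pq.cons (Pq.L [] 1 (Pf.C 2 128))
 (Pq.cons (Pq.D 2 (Pq.cons (Pq.L [] 2 (Pf.C 2 256))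
 (Pq.cons (Pq.D 3 (Pq.cons (Pq.L [] 16 (Pf.C 2 385))
 (Pq.cons (Pq.L [] 4 (Pf.C 2 384))
 (Pq.cons (Pq.L [] 48 (Pf.C 5 32899))
 (Pq.cons (Pq.L [] 48 (Pf.C 9 32899))
 Pq.nil))))) (Pq.cons (Pq.L [] 10 (Pf.C 5 16386))
 (Pq.cons (Pq.L [] 10 (Pf.C 9 16386))
 Pq.nil))))) (Pq.cons (Pq.D 2 (Pq.cons (Pq.L [] 2 (Pf.C 2 256))
 (Pq.cons (Pq.L [] 9 (Pf.C 5 32769))
 (Pq.cons (Pq.L [] 3 (Pf.C 3 32896))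
 (Pq.cons (Pq.L [] 11 (Pf.C 10 32896))
 Pq.nil))))) (Pq.cons (Pq.D 2 (Pq.cons (Pq.L [] 2 (Pf.C 2 256))
 (Pq.cons (Pq.L [] 9 (Pf.C 9 32769))
 (Pq.cons (Pq.L [] 11 (Pf.C 10 32896))
 (Pq.cons (Pq.L [] 3 (Pf.C 4 32896))
 Pq.nil))))) Pq.nil))))) (Pq.cons (Pq.D 1 (Pq.cons (Pq.D 2 (Pq.cons (Pq.L [] 3 (Pf.C 5 32896))
 (Pq.cons (Pq.L [] 3 (Pf.C 5 32896))
 (Pq.cons (Pq.L [] 9 (Pf.C 3 32769))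
 (Pq.cons (Pq.L [] 11 (Pf.C 10 32896))
 Pq.nil))))) (Pq.cons (Pq.D 2 (Pq.cons (Pq.L [] 3 (Pf.C 5 32896))
 (Pq.cons (Pq.L [] 3 (Pf.C 5 32896))
 (Pq.cons (Pq.L [] 9 (Pf.C 3 32769))
 (Pq.cons (Pq.L [] 11 (Pf.C 10 32896))
 Pq.nil))))) (Pq.cons (Pq.D 2 (Pq.cons (Pq.L [] 10 (Pf.C 3 16386))
 (Pq.cons (Pq.L [] 10 (Pf.C 3 16386))
 (Pq.cons (Pq.D 3 (Pq.cons (Pq.L [] 48 (Pf.C 3 32899))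
 (Pq.cons (Pq.L [] 48 (Pf.C 3 32899))
 (Pq.cons (Pq.L [] 4 (Pf.C 0 384))
 (Pq.cons (Pq.L [] 48 (Pf.C 7 32899))
 Pq.nil))))) (Pq.cons (Pq.L [] 10 (Pf.C 7 16386))
 Pq.nil))))) (Pq.cons (Pq.D 2 (Pq.cons (Pq.L [] 11 (Pf.C 10 32896))
 (Pq.cons (Pq.L [] 11 (Pf.C 10 32896))
 (Pq.cons (Pq.L [] 9 (Pf.C 7 32769))
 (Pq.cons (Pq.L [] 3 (Pf.C 6 32896))
 Pq.nil))))) Pq.nil))))) (Pq.cons (Pq.D 1 (Pq.cons (Pq.D 2 (Pq.cons (Pq.L [] 3 (Pf.C 8 32896))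
 (Pq.cons (Pq.L [] 11 (Pf.C 10 32896))
 (Pq.cons (Pq.L [] 11 (Pf.C 10 32896))
 (Pq.cons (Pq.L [] 9 (Pf.C 4 32769))
 Pq.nil))))) (Pq.cons (Pq.D 2 (Pq.cons (Pq.L [] 11 (Pf.C 10 32896))
 (Pq.cons (Pq.L [] 3 (Pf.C 9 32896))
 (Pq.cons (Pq.L [] 11 (Pf.C 10 32896))
 (Pq.cons (Pq.L [] 9 (Pf.C 4 32769))
 Pq.nil))))) (Pq.cons (Pq.D 2 (Pq.cons (Pq.L [] 11 (Pf.C 10 32896))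
 (Pq.cons (Pq.L [] 11 (Pf.C 10 32896))
 (Pq.cons (Pq.L [] 3 (Pf.C 7 32896))
 (Pq.cons (Pq.L [] 9 (Pf.C 6 32769))
 Pq.nil))))) (Pq.cons (Pq.D 2 (Pq.cons (Pq.L [] 10 (Pf.C 4 16386))
 (Pq.cons (Pq.L [] 10 (Pf.C 4 16386))
 (Pq.cons (Pq.L [] 10 (Pf.C 6 16386))
 (Pq.cons (Pq.D 3 (Pq.cons (Pq.L [] 48 (Pf.C 4 32899))
 (Pq.cons (Pq.L [] 48 (Pf.C 4 32899))
 (Pq.cons (Pq.L [] 48 (Pf.C 6 32899))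
 (Pq.cons (Pq.L [] 4 (Pf.C 1 384))
 Pq.nil))))) Pq.nil))))) Pq.nil))))) Pq.nil))))) (Pq.cons (Pq.D 0 (Pq.cons (Pq.D 1 (Pq.cons (Pq.L [] 1 (Pf.C 2 128))
 (Pq.cons (Pq.D 2 (Pq.cons (Pq.L [] 2 (Pf.C 2 256))
 (Pq.cons (Pq.L [] 16 (Pf.C 2 257))
 (Pq.cons (Pq.D 3 (Pq.cons (Pq.L [] 4 (Pf.C 2 384))
 (Pq.cons (Pq.L [] 32 (Pf.C 2 385))
 (Pq.cons (Pq.L [] 128 (Pf.C 0 386))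
 (Pq.cons (Pq.D 4 (Pq.cons (Pq.L [] 8 (Pf.C 2 512))
 (Pq.cons (Pq.L [] 64 (Pf.C 2 513))
 (Pq.cons (Pq.L [] 256 (Pf.C 0 514))
 (Pq.cons (Pq.L [] 512 (Pf.C 1 515))
 Pq.nil))))) Pq.nil))))) (Pq.cons (Pq.D 3 (Pq.cons (Pq.L [] 4 (Pf.C 2 384))
 (Pq.cons (Pq.L [] 32 (Pf.C 2 385))
 (Pq.cons (Pq.D 4 (Pq.cons (Pq.L [] 8 (Pf.C 2 512))
 (Pq.cons (Pq.L [] 64 (Pf.C 2 513))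
 (Pq.cons (Pq.L [] 512 (Pf.C 0 515))
 (Pq.cons (Pq.L [] 256 (Pf.C 1 514))
 Pq.nil))))) (Pq.cons (Pq.L [] 128 (Pf.C 1 386))
 Pq.nil))))) Pq.nil))))) (Pq.cons (Pq.D 2 (Pq.cons (Pq.L [] 2 (Pf.C 2 256))
 (Pq.cons (Pq.D 3 (Pq.cons (Pq.L [] 4 (Pf.C 2 384))
 (Pq.cons (Pq.L [] 128 (Pf.C 2 386))
 (Pq.cons (Pq.L [] 32 (Pf.C 0 385))
 (Pq.cons (Pq.D 4 (Pq.cons (Pq.L [] 8 (Pf.C 2 512))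
 (Pq.cons (Pq.L [] 256 (Pf.C 2 514))
 (Pq.cons (Pq.L [] 64 (Pf.C 0 513))
 (Pq.cons (Pq.L [] 512 (Pf.C 1 515))
 Pq.nil))))) Pq.nil))))) (Pq.cons (Pq.L [] 16 (Pf.C 0 257))
 (Pq.cons (Pq.D 3 (Pq.cons (Pq.L [] 4 (Pf.C 2 384))
 (Pq.cons (Pq.D 4 (Pq.cons (Pq.L [] 8 (Pf.C 2 512))
 (Pq.cons (Pq.L [] 512 (Pf.C 2 515))
 (Pq.cons (Pq.L [] 64 (Pf.C 0 513))
 (Pq.cons (Pq.L [] 256 (Pf.C 1 514))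
 Pq.nil))))) (Pq.cons (Pq.L [] 32 (Pf.C 0 385))
 (Pq.cons (Pq.L [] 128 (Pf.C 1 386))
 Pq.nil))))) Pq.nil))))) (Pq.cons (Pq.D 2 (Pq.cons (Pq.L [] 2 (Pf.C 2 256))
 (Pq.cons (Pq.D 3 (Pq.cons (Pq.L [] 4 (Pf.C 2 384))
 (Pq.cons (Pq.L [] 128 (Pf.C 2 386))
 (Pq.cons (Pq.D 4 (Pq.cons (Pq.L [] 8 (Pf.C 2 512))
 (Pq.cons (Pq.L [] 256 (Pf.C 2 514))
 (Pq.cons (Pq.L [] 512 (Pf.C 0 515))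
 (Pq.cons (Pq.L [] 64 (Pf.C 1 513))
 Pq.nil))))) (Pq.cons (Pq.L [] 32 (Pf.C 1 385))
 Pq.nil))))) (Pq.cons (Pq.D 3 (Pq.cons (Pq.L [] 4 (Pf.C 2 384))
 (Pq.cons (Pq.D 4 (Pq.cons (Pq.L [] 8 (Pf.C 2 512))
 (Pq.cons (Pq.L [] 512 (Pf.C 2 515))
 (Pq.cons (Pq.L [] 256 (Pf.C 0 514))
 (Pq.cons (Pq.L [] 64 (Pf.C 1 513))
 Pq.nil))))) (Pq.cons (Pq.L [] 128 (Pf.C 0 386))
 (Pq.cons (Pq.L [] 32 (Pf.C 1 385))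
 Pq.nil))))) (Pq.cons (Pq.L [] 16 (Pf.C 1 257))
 Pq.nil))))) Pq.nil))))) (Pq.cons (Pq.D 1 (Pq.cons (Pq.D 2 (Pq.cons (Pq.L [] 16 (Pf.C 2 257))
 (Pq.cons (Pq.L [] 2 (Pf.C 2 256))
 (Pq.cons (Pq.D 3 (Pq.cons (Pq.L [] 32 (Pf.C 2 385))
 (Pq.cons (Pq.L [] 4 (Pf.C 2 384))
 (Pq.cons (Pq.L [] 128 (Pf.C 0 386))
 (Pq.cons (Pq.D 4 (Pq.cons (Pq.L [] 64 (Pf.C 2 513))
 (Pq.cons (Pq.L [] 8 (Pf.C 2 512))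
 (Pq.cons (Pq.L [] 256 (Pf.C 0 514))
 (Pq.cons (Pq.L [] 512 (Pf.C 1 515))
 Pq.nil))))) Pq.nil))))) (Pq.cons (Pq.D 3 (Pq.cons (Pq.L [] 32 (Pf.C 2 385))
 (Pq.cons (Pq.L [] 4 (Pf.C 2 384))
 (Pq.cons (Pq.D 4 (Pq.cons (Pq.L [] 64 (Pf.C 2 513))
 (Pq.cons (Pq.L [] 8 (Pf.C 2 512))
 (Pq.cons (Pq.L [] 512 (Pf.C 0 515))
 (Pq.cons (Pq.L [] 256 (Pf.C 1 514))
 Pq.nil))))) (Pq.cons (Pq.L [] 128 (Pf.C 1 386))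
 Pq.nil))))) Pq.nil))))) (Pq.cons (Pq.L [] 1 (Pf.C 2 128))
 (Pq.cons (Pq.D 2 (Pq.cons (Pq.D 3 (Pq.cons (Pq.L [] 128 (Pf.C 2 386))
 (Pq.cons (Pq.L [] 4 (Pf.C 2 384))
 (Pq.cons (Pq.L [] 32 (Pf.C 0 385))
 (Pq.cons (Pq.D 4 (Pq.cons (Pq.L [] 256 (Pf.C 2 514))
 (Pq.cons (Pq.L [] 8 (Pf.C 2 512))
 (Pq.cons (Pq.L [] 64 (Pf.C 0 513))
 (Pq.cons (Pq.L [] 512 (Pf.C 1 515))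
 Pq.nil))))) Pq.nil))))) (Pq.cons (Pq.L [] 2 (Pf.C 2 256))
 (Pq.cons (Pq.L [] 16 (Pf.C 0 257))
 (Pq.cons (Pq.D 3 (Pq.cons (Pq.D 4 (Pq.cons (Pq.L [] 512 (Pf.C 2 515))
 (Pq.cons (Pq.L [] 8 (Pf.C 2 512))
 (Pq.cons (Pq.L [] 64 (Pf.C 0 513))
 (Pq.cons (Pq.L [] 256 (Pf.C 1 514))
 Pq.nil))))) (Pq.cons (Pq.L [] 4 (Pf.C 2 384))
 (Pq.cons (Pq.L [] 32 (Pf.C 0 385))
 (Pq.cons (Pq.L [] 128 (Pf.C 1 386))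
 Pq.nil))))) Pq.nil))))) (Pq.cons (Pq.D 2 (Pq.cons (Pq.D 3 (Pq.cons (Pq.L [] 128 (Pf.C 2 386))
 (Pq.cons (Pq.L [] 4 (Pf.C 2 384))
 (Pq.cons (Pq.D 4 (Pq.cons (Pq.L [] 256 (Pf.C 2 514))
 (Pq.cons (Pq.L [] 8 (Pf.C 2 512))
 (Pq.cons (Pq.L [] 512 (Pf.C 0 515))
 (Pq.cons (Pq.L [] 64 (Pf.C 1 513))
 Pq.nil))))) (Pq.cons (Pq.L [] 32 (Pf.C 1 385))
 Pq.nil))))) (Pq.cons (Pq.L [] 2 (Pf.C 2 256))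
 (Pq.cons (Pq.D 3 (Pq.cons (Pq.D 4 (Pq.cons (Pq.L [] 512 (Pf.C 2 515))
 (Pq.cons (Pq.L [] 8 (Pf.C 2 512))
 (Pq.cons (Pq.L [] 256 (Pf.C 0 514))
 (Pq.cons (Pq.L [] 64 (Pf.C 1 513))
 Pq.nil))))) (Pq.cons (Pq.L [] 4 (Pf.C 2 384))
 (Pq.cons (Pq.L [] 128 (Pf.C 0 386))
 (Pq.cons (Pq.L [] 32 (Pf.C 1 385))
 Pq.nil))))) (Pq.cons (Pq.L [] 16 (Pf.C 1 257))
 Pq.nil))))) Pq.nil))))) (Pq.cons (Pq.D 1 (Pq.cons (Pq.D 2 (Pq.cons (Pq.L [] 16 (Pf.C 2 257))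
 (Pq.cons (Pq.D 3 (Pq.cons (Pq.L [] 32 (Pf.C 2 385))
 (Pq.cons (Pq.L [] 128 (Pf.C 2 386))
 (Pq.cons (Pq.L [] 4 (Pf.C 0 384))
 (Pq.cons (Pq.D 4 (Pq.cons (Pq.L [] 64 (Pf.C 2 513))
 (Pq.cons (Pq.L [] 256 (Pf.C 2 514))
 (Pq.cons (Pq.L [] 8 (Pf.C 0 512))
 (Pq.cons (Pq.L [] 512 (Pf.C 1 515))
 Pq.nil))))) Pq.nil))))) (Pq.cons (Pq.L [] 2 (Pf.C 0 256))
 (Pq.cons (Pq.D 3 (Pq.cons (Pq.L [] 32 (Pf.C 2 385))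
 (Pq.cons (Pq.D 4 (Pq.cons (Pq.L [] 64 (Pf.C 2 513))
 (Pq.cons (Pq.L [] 512 (Pf.C 2 515))
 (Pq.cons (Pq.L [] 8 (Pf.C 0 512))
 (Pq.cons (Pq.L [] 256 (Pf.C 1 514))
 Pq.nil))))) (Pq.cons (Pq.L [] 4 (Pf.C 0 384))
 (Pq.cons (Pq.L [] 128 (Pf.C 1 386))
 Pq.nil))))) Pq.nil))))) (Pq.cons (Pq.D 2 (Pq.cons (Pq.D 3 (Pq.cons (Pq.L [] 128 (Pf.C 2 386))
 (Pq.cons (Pq.L [] 32 (Pf.C 2 385))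
 (Pq.cons (Pq.L [] 4 (Pf.C 0 384))
 (Pq.cons (Pq.D 4 (Pq.cons (Pq.L [] 256 (Pf.C 2 514))
 (Pq.cons (Pq.L [] 64 (Pf.C 2 513))
 (Pq.cons (Pq.L [] 8 (Pf.C 0 512))
 (Pq.cons (Pq.L [] 512 (Pf.C 1 515))
 Pq.nil))))) Pq.nil))))) (Pq.cons (Pq.L [] 16 (Pf.C 2 257))
 (Pq.cons (Pq.L [] 2 (Pf.C 0 256))
 (Pq.cons (Pq.D 3 (Pq.cons (Pq.D 4 (Pq.cons (Pq.L [] 512 (Pf.C 2 515))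
 (Pq.cons (Pq.L [] 64 (Pf.C 2 513))
 (Pq.cons (Pq.L [] 8 (Pf.C 0 512))
 (Pq.cons (Pq.L [] 256 (Pf.C 1 514))
 Pq.nil))))) (Pq.cons (Pq.L [] 32 (Pf.C 2 385))
 (Pq.cons (Pq.L [] 4 (Pf.C 0 384))
 (Pq.cons (Pq.L [] 128 (Pf.C 1 386))
 Pq.nil))))) Pq.nil))))) (Pq.cons (Pq.L [] 1 (Pf.C 0 128))
 (Pq.cons (Pq.D 2 (Pq.cons (Pq.D 3 (Pq.cons (Pq.L [] 128 (Pf.C 2 386))
 (Pq.cons (Pq.D 4 (Pq.cons (Pq.L [] 256 (Pf.C 2 514))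
 (Pq.cons (Pq.L [] 512 (Pf.C 2 515))
 (Pq.cons (Pq.L [] 8 (Pf.C 0 512))
 (Pq.cons (Pq.L [] 64 (Pf.C 1 513))
 Pq.nil))))) (Pq.cons (Pq.L [] 4 (Pf.C 0 384))
 (Pq.cons (Pq.L [] 32 (Pf.C 1 385))
 Pq.nil))))) (Pq.cons (Pq.D 3 (Pq.cons (Pq.D 4 (Pq.cons (Pq.L [] 512 (Pf.C 2 515))
 (Pq.cons (Pq.L [] 256 (Pf.C 2 514))
 (Pq.cons (Pq.L [] 8 (Pf.C 0 512))
 (Pq.cons (Pq.L [] 64 (Pf.C 1 513))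
 Pq.nil))))) (Pq.cons (Pq.L [] 128 (Pf.C 2 386))
 (Pq.cons (Pq.L [] 4 (Pf.C 0 384))
 (Pq.cons (Pq.L [] 32 (Pf.C 1 385))
 Pq.nil))))) (Pq.cons (Pq.L [] 2 (Pf.C 0 256))
 (Pq.cons (Pq.L [] 16 (Pf.C 1 257))
 Pq.nil))))) Pq.nil))))) (Pq.cons (Pq.D 1 (Pq.cons (Pq.D 2 (Pq.cons (Pq.L [] 16 (Pf.C 2 257))
 (Pq.cons (Pq.D 3 (Pq.cons (Pq.L [] 32 (Pf.C 2 385))
 (Pq.cons (Pq.L [] 128 (Pf.C 2 386))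
 (Pq.cons (Pq.D 4 (Pq.cons (Pq.L [] 64 (Pf.C 2 513))
 (Pq.cons (Pq.L [] 256 (Pf.C 2 514))
 (Pq.cons (Pq.L [] 512 (Pf.C 0 515))
 (Pq.cons (Pq.L [] 8 (Pf.C 1 512))
 Pq.nil))))) (Pq.cons (Pq.L [] 4 (Pf.C 1 384))
 Pq.nil))))) (Pq.cons (Pq.D 3 (Pq.cons (Pq.L [] 32 (Pf.C 2 385))
 (Pq.cons (Pq.D 4 (Pq.cons (Pq.L [] 64 (Pf.C 2 513))
 (Pq.cons (Pq.L [] 512 (Pf.C 2 515))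
 (Pq.cons (Pq.L [] 256 (Pf.C 0 514))
 (Pq.cons (Pq.L [] 8 (Pf.C 1 512))
 Pq.nil))))) (Pq.cons (Pq.L [] 128 (Pf.C 0 386))
 (Pq.cons (Pq.L [] 4 (Pf.C 1 384))
 Pq.nil))))) (Pq.cons (Pq.L [] 2 (Pf.C 1 256))
 Pq.nil))))) (Pq.cons (Pq.D 2 (Pq.cons (Pq.D 3 (Pq.cons (Pq.L [] 128 (Pf.C 2 386))
 (Pq.cons (Pq.L [] 32 (Pf.C 2 385))
 (Pq.cons (Pq.D 4 (Pq.cons (Pq.L [] 256 (Pf.C 2 514))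
 (Pq.cons (Pq.L [] 64 (Pf.C 2 513))
 (Pq.cons (Pq.L [] 512 (Pf.C 0 515))
 (Pq.cons (Pq.L [] 8 (Pf.C 1 512))
 Pq.nil))))) (Pq.cons (Pq.L [] 4 (Pf.C 1 384))
 Pq.nil))))) (Pq.cons (Pq.L [] 16 (Pf.C 2 257))
 (Pq.cons (Pq.D 3 (Pq.cons (Pq.D 4 (Pq.cons (Pq.L [] 512 (Pf.C 2 515))
 (Pq.cons (Pq.L [] 64 (Pf.C 2 513))
 (Pq.cons (Pq.L [] 256 (Pf.C 0 514))
 (Pq.cons (Pq.L [] 8 (Pf.C 1 512))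
 Pq.nil))))) (Pq.cons (Pq.L [] 32 (Pf.C 2 385))
 (Pq.cons (Pq.L [] 128 (Pf.C 0 386))
 (Pq.cons (Pq.L [] 4 (Pf.C 1 384))
 Pq.nil))))) (Pq.cons (Pq.L [] 2 (Pf.C 1 256))
 Pq.nil))))) (Pq.cons (Pq.D 2 (Pq.cons (Pq.D 3 (Pq.cons (Pq.L [] 128 (Pf.C 2 386))
 (Pq.cons (Pq.D 4 (Pq.cons (Pq.L [] 256 (Pf.C 2 514))
 (Pq.cons (Pq.L [] 512 (Pf.C 2 515))
 (Pq.cons (Pq.L [] 64 (Pf.C 0 513))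
 (Pq.cons (Pq.L [] 8 (Pf.C 1 512))
 Pq.nil))))) (Pq.cons (Pq.L [] 32 (Pf.C 0 385))
 (Pq.cons (Pq.L [] 4 (Pf.C 1 384))
 Pq.nil))))) (Pq.cons (Pq.D 3 (Pq.cons (Pq.D 4 (Pq.cons (Pq.L [] 512 (Pf.C 2 515))
 (Pq.cons (Pq.L [] 256 (Pf.C 2 514))
 (Pq.cons (Pq.L [] 64 (Pf.C 0 513))
 (Pq.cons (Pq.L [] 8 (Pf.C 1 512))
 Pq.nil))))) (Pq.cons (Pq.L [] 128 (Pf.C 2 386))
 (Pq.cons (Pq.L [] 32 (Pf.C 0 385))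
 (Pq.cons (Pq.L [] 4 (Pf.C 1 384))
 Pq.nil))))) (Pq.cons (Pq.L [] 16 (Pf.C 0 257))
 (Pq.cons (Pq.L [] 2 (Pf.C 1 256))
 Pq.nil))))) (Pq.cons (Pq.L [] 1 (Pf.C 1 128))
 Pq.nil))))) Pq.nil))))) Pq.nil))
theorem u14_o0 : AllRef u14_T (pureCtx 4 11) (applyObl (pairTab (cDia, c5P1)) 2 [1,2,3,4] [0,0,0,0] [(1,2),(2,4),(3,8),(4,16)]) :=
  chkPq_sound u14_o0c _ (by decide +kernel)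
theorem u14_n0 (hP : Lem (pairTab (cDia, c5P1)) 0 2) : Bd u14_T (pureCtx 4 11) (pureAct 4) :=
  show Bd _ _ [1,2,3,4] from r_apply hP [0,0,0,0] [(1,2),(2,4),(3,8),(4,16)] (by decide +kernel) u14_o0
theorem lem_u14 (hP : Lem (pairTab (cDia, c5P1)) 0 2) : Lem u14_T 4 11 := ⟨by decide +kernel, (u14_n0 hP)⟩
theorem nb_u14 (h : Unb  4 axT4) : ¬ BdN cDia.g c5P1.g :=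
  fun hb => unb_use h (lem_u14 (lem_of_bdN (cDia, c5P1) hb)) (by decide +kernel)

noncomputable def u15_ty : Tr Ty := (Tr.br (Tr.br (Tr.leaf ⟨1,0,0,0,0⟩) (Tr.leaf ⟨5,2,0,0,0⟩))
 (Tr.leaf ⟨3,4,0,0,0⟩))

noncomputable def u15_ev : Tr Ev := (Tr.leaf ⟨0,[],0⟩)
noncomputable def u15_ax : Tr Ax := (Tr.br (Tr.br (Tr.leaf ⟨[2,2],[⟨0,1,true⟩],[],0⟩) (Tr.leaf ⟨[2,2,4,4,4],[⟨0,2,true⟩,⟨0,3,true⟩,⟨0,4,false⟩,⟨1,2,true⟩,⟨1,3,false⟩,⟨1,4,true⟩],[],0⟩))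
 (Tr.leaf ⟨[4,4],[⟨0,1,true⟩],[],0⟩))

noncomputable def u15_sc : Tr Sc := (Tr.leaf ⟨[],[]⟩)
noncomputable def u15_T : Tab := ⟨3,u15_ty,u15_ev,u15_ax,u15_sc⟩
noncomputable def u15_o0c : Pq := (Pq.cons (Pq.D 0 (Pq.cons (Pq.D 1 (Pq.cons (Pq.L [] 1 (Pf.C 0 128))
 (Pq.cons (Pq.D 2 (Pq.cons (Pq.L [] 2 (Pf.C 0 256))
 (Pq.cons (Pq.L [] 4 (Pf.C 1 257))
 Pq.nil))) Pq.nil))) (Pq.cons (Pq.D 1 (Pq.cons (Pq.D 2 (Pq.cons (Pq.L [] 4 (Pf.C 0 257))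
 (Pq.cons (Pq.L [] 2 (Pf.C 1 256))
 Pq.nil))) (Pq.cons (Pq.L [] 1 (Pf.C 1 128))
 Pq.nil))) Pq.nil))) (Pq.cons (Pq.D 0 (Pq.cons (Pq.D 1 (Pq.cons (Pq.L [] 1 (Pf.C 0 128))
 (Pq.cons (Pq.D 2 (Pq.cons (Pq.D 3 (Pq.cons (Pq.L [] 512 (Pf.C 0 386))
 (Pq.cons (Pq.D 4 (Pq.cons (Pq.D 5 (Pq.cons (Pq.L [] 16384 (Pf.C 0 644))
 (Pq.cons (Pq.L [] 23200 (Pf.C 2 0x5020c202))
 Pq.nil))) (Pq.cons (Pq.L [] 4096 (Pf.C 1 515))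
 Pq.nil))) Pq.nil))) (Pq.cons (Pq.L [] 32 (Pf.C 1 257))
 Pq.nil))) Pq.nil))) (Pq.cons (Pq.D 1 (Pq.cons (Pq.D 2 (Pq.cons (Pq.L [] 32 (Pf.C 0 257))
 (Pq.cons (Pq.D 3 (Pq.cons (Pq.D 4 (Pq.cons (Pq.L [] 4096 (Pf.C 0 515))
 (Pq.cons (Pq.L [] 4773 (Pf.C 2 0x40008181))
 Pq.nil))) (Pq.cons (Pq.L [] 512 (Pf.C 1 386))
 Pq.nil))) Pq.nil))) (Pq.cons (Pq.L [] 1 (Pf.C 1 128))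
 Pq.nil))) Pq.nil))) Pq.nil))
theorem u15_o0 : AllRef u15_T (pureCtx 2 3) (applyObl (pairTab (cK3, cP6)) 2 [1,2] [0,0] []) :=
  chkPq_sound u15_o0c _ (by decide +kernel)
theorem u15_n0 (hP : Lem (pairTab (cK3, cP6)) 0 2) : Bd u15_T (pureCtx 2 3) (pureAct 2) :=
  show Bd _ _ [1,2] from r_apply hP [0,0] [] (by decide +kernel) u15_o0
theorem lem_u15 (hP : Lem (pairTab (cK3, cP6)) 0 2) : Lem u15_T 2 3 := ⟨by decide +kernel, (u15_n0 hP)⟩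
theorem nb_u15 (h : Unb  2 axL) : ¬ BdN cK3.g cP6.g :=
  fun hb => unb_use h (lem_u15 (lem_of_bdN (cK3, cP6) hb)) (by decide +kernel)

noncomputable def u16_ty : Tr Ty := (Tr.br (Tr.br (Tr.leaf ⟨1,0,0,0,0⟩) (Tr.leaf ⟨5,2,0,0,0⟩))
 (Tr.leaf ⟨3,4,0,0,0⟩))

noncomputable def u16_ev : Tr Ev := (Tr.leaf ⟨0,[],0⟩)
noncomputable def u16_ax : Tr Ax := (Tr.br (Tr.br (Tr.leaf ⟨[2,2],[⟨0,1,true⟩],[],0⟩) (Tr.leaf ⟨[2,2,4,4,4],[⟨0,2,true⟩,⟨0,3,true⟩,⟨0,4,false⟩,⟨1,2,true⟩,⟨1,3,false⟩,⟨1,4,true⟩],[],0⟩))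
 (Tr.leaf ⟨[4,4],[⟨0,1,true⟩],[],0⟩))

noncomputable def u16_sc : Tr Sc := (Tr.leaf ⟨[],[]⟩)
noncomputable def u16_T : Tab := ⟨3,u16_ty,u16_ev,u16_ax,u16_sc⟩
noncomputable def u16_o0c : Pq := (Pq.cons (Pq.D 0 (Pq.cons (Pq.D 1 (Pq.cons (Pq.L [] 1 (Pf.C 0 128))
 (Pq.cons (Pq.D 2 (Pq.cons (Pq.L [] 2 (Pf.C 0 256))
 (Pq.cons (Pq.L [] 4 (Pf.C 1 257))
 Pq.nil))) Pq.nil))) (Pq.cons (Pq.D 1 (Pq.cons (Pq.D 2 (Pq.cons (Pq.L [] 4 (Pf.C 0 257))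
 (Pq.cons (Pq.L [] 2 (Pf.C 1 256))
 Pq.nil))) (Pq.cons (Pq.L [] 1 (Pf.C 1 128))
 Pq.nil))) Pq.nil))) (Pq.cons (Pq.D 0 (Pq.cons (Pq.D 1 (Pq.cons (Pq.L [] 1 (Pf.C 0 128))
 (Pq.cons (Pq.D 2 (Pq.cons (Pq.D 3 (Pq.cons (Pq.L [] 512 (Pf.C 0 386))
 (Pq.cons (Pq.D 4 (Pq.cons (Pq.D 5 (Pq.cons (Pq.L [] 16384 (Pf.C 0 644))
 (Pq.cons (Pq.L [] 2613 (Pf.C 2 0x10614100))
 Pq.nil))) (Pq.cons (Pq.L [] 1581 (Pf.C 2 0x10610100))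
 Pq.nil))) Pq.nil))) (Pq.cons (Pq.D 3 (Pq.cons (Pq.D 4 (Pq.cons (Pq.L [] 4096 (Pf.C 0 515))
 (Pq.cons (Pq.D 5 (Pq.cons (Pq.L [] 18699 (Pf.C 2 0x10808280))
 (Pq.cons (Pq.L [] 8787 (Pf.C 2 0x10414180))
 Pq.nil))) Pq.nil))) (Pq.cons (Pq.L [] 512 (Pf.C 1 386))
 Pq.nil))) Pq.nil))) Pq.nil))) (Pq.cons (Pq.D 1 (Pq.cons (Pq.D 2 (Pq.cons (Pq.D 3 (Pq.cons (Pq.L [] 512 (Pf.C 0 386))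
 (Pq.cons (Pq.D 4 (Pq.cons (Pq.D 5 (Pq.cons (Pq.L [] 16384 (Pf.C 0 644))
 (Pq.cons (Pq.L [] 2883 (Pf.C 2 0x30014082))
 Pq.nil))) (Pq.cons (Pq.L [] 1731 (Pf.C 2 0x30010082))
 Pq.nil))) Pq.nil))) (Pq.cons (Pq.D 3 (Pq.cons (Pq.D 4 (Pq.cons (Pq.L [] 4096 (Pf.C 0 515))
 (Pq.cons (Pq.D 5 (Pq.cons (Pq.L [] 18609 (Pf.C 2 0x40008085))
 (Pq.cons (Pq.L [] 8997 (Pf.C 2 0x20014083))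
 Pq.nil))) Pq.nil))) (Pq.cons (Pq.L [] 512 (Pf.C 1 386))
 Pq.nil))) Pq.nil))) (Pq.cons (Pq.L [] 1 (Pf.C 1 128))
 Pq.nil))) Pq.nil))) Pq.nil))
theorem u16_o0 : AllRef u16_T (pureCtx 2 3) (applyObl (pairTab (cK3, cP2P4)) 2 [1,2] [0,0] [(1,4),(2,2)]) :=
  chkPq_sound u16_o0c _ (by decide +kernel)
theorem u16_n0 (hP : Lem (pairTab (cK3, cP2P4)) 0 2) : Bd u16_T (pureCtx 2 3) (pureAct 2) :=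
  show Bd _ _ [1,2] from r_apply hP [0,0] [(1,4),(2,2)] (by decide +kernel) u16_o0
theorem lem_u16 (hP : Lem (pairTab (cK3, cP2P4)) 0 2) : Lem u16_T 2 3 := ⟨by decide +kernel, (u16_n0 hP)⟩
theorem nb_u16 (h : Unb  2 axL) : ¬ BdN cK3.g cP2P4.g :=
  fun hb => unb_use h (lem_u16 (lem_of_bdN (cK3, cP2P4) hb)) (by decide +kernel)

noncomputable def u17_ty : Tr Ty := (Tr.br (Tr.br (Tr.leaf ⟨1,0,0,0,0⟩) (Tr.leaf ⟨5,10,0,0,0⟩))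
 (Tr.br (Tr.leaf ⟨3,12,0,0,0⟩) (Tr.leaf ⟨9,6,0,0,0⟩))
)

noncomputable def u17_ev : Tr Ev := (Tr.leaf ⟨0,[],0⟩)
noncomputable def u17_ax : Tr Ax := (Tr.br (Tr.br (Tr.leaf ⟨[8,8],[⟨0,1,true⟩],[],0⟩) (Tr.leaf ⟨[2,2,8,8],[⟨0,2,true⟩,⟨0,3,false⟩,⟨1,2,false⟩,⟨1,3,true⟩],[],0⟩))
 (Tr.br (Tr.leaf ⟨[6,6],[⟨0,1,true⟩],[],0⟩) (Tr.leaf ⟨[4,4,8,8],[⟨0,2,true⟩,⟨0,3,false⟩,⟨1,2,false⟩,⟨1,3,true⟩],[],0⟩))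
)

noncomputable def u17_sc : Tr Sc := (Tr.leaf ⟨[],[]⟩)
noncomputable def u17_T : Tab := ⟨4,u17_ty,u17_ev,u17_ax,u17_sc⟩
noncomputable def u17_o0c : Pq := (Pq.cons (Pq.D 0 (Pq.cons (Pq.D 1 (Pq.cons (Pq.L [] 1 (Pf.C 1 128))
 (Pq.cons (Pq.D 2 (Pq.cons (Pq.L [] 2 (Pf.C 1 256))
 (Pq.cons (Pq.L [] 8 (Pf.C 1 257))
 (Pq.cons (Pq.D 3 (Pq.cons (Pq.L [] 4 (Pf.C 1 384))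
 (Pq.cons (Pq.L [] 16 (Pf.C 1 385))
 (Pq.cons (Pq.L [] 32 (Pf.C 0 386))
 Pq.nil)))) Pq.nil)))) (Pq.cons (Pq.D 2 (Pq.cons (Pq.L [] 2 (Pf.C 1 256))
 (Pq.cons (Pq.D 3 (Pq.cons (Pq.L [] 4 (Pf.C 1 384))
 (Pq.cons (Pq.L [] 32 (Pf.C 1 386))
 (Pq.cons (Pq.L [] 16 (Pf.C 0 385))
 Pq.nil)))) (Pq.cons (Pq.L [] 8 (Pf.C 0 257))
 Pq.nil)))) Pq.nil)))) (Pq.cons (Pq.D 1 (Pq.cons (Pq.D 2 (Pq.cons (Pq.L [] 8 (Pf.C 1 257))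
 (Pq.cons (Pq.L [] 2 (Pf.C 1 256))
 (Pq.cons (Pq.D 3 (Pq.cons (Pq.L [] 16 (Pf.C 1 385))
 (Pq.cons (Pq.L [] 4 (Pf.C 1 384))
 (Pq.cons (Pq.L [] 32 (Pf.C 0 386))
 Pq.nil)))) Pq.nil)))) (Pq.cons (Pq.L [] 1 (Pf.C 1 128))
 (Pq.cons (Pq.D 2 (Pq.cons (Pq.D 3 (Pq.cons (Pq.L [] 32 (Pf.C 1 386))
 (Pq.cons (Pq.L [] 4 (Pf.C 1 384))
 (Pq.cons (Pq.L [] 16 (Pf.C 0 385))
 Pq.nil)))) (Pq.cons (Pq.L [] 2 (Pf.C 1 256))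
 (Pq.cons (Pq.L [] 8 (Pf.C 0 257))
 Pq.nil)))) Pq.nil)))) (Pq.cons (Pq.D 1 (Pq.cons (Pq.D 2 (Pq.cons (Pq.L [] 8 (Pf.C 1 257))
 (Pq.cons (Pq.D 3 (Pq.cons (Pq.L [] 16 (Pf.C 1 385))
 (Pq.cons (Pq.L [] 32 (Pf.C 1 386))
 (Pq.cons (Pq.L [] 4 (Pf.C 0 384))
 Pq.nil)))) (Pq.cons (Pq.L [] 2 (Pf.C 0 256))
 Pq.nil)))) (Pq.cons (Pq.D 2 (Pq.cons (Pq.D 3 (Pq.cons (Pq.L [] 32 (Pf.C 1 386))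
 (Pq.cons (Pq.L [] 16 (Pf.C 1 385))
 (Pq.cons (Pq.L [] 4 (Pf.C 0 384))
 Pq.nil)))) (Pq.cons (Pq.L [] 8 (Pf.C 1 257))
 (Pq.cons (Pq.L [] 2 (Pf.C 0 256))
 Pq.nil)))) (Pq.cons (Pq.L [] 1 (Pf.C 0 128))
 Pq.nil)))) Pq.nil)))) (Pq.cons (Pq.D 0 (Pq.cons (Pq.D 1 (Pq.cons (Pq.L [] 1 (Pf.C 1 128))
 (Pq.cons (Pq.D 2 (Pq.cons (Pq.L [] 8 (Pf.C 1 257))
 (Pq.cons (Pq.L [] 2 (Pf.C 1 256))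
 (Pq.cons (Pq.D 3 (Pq.cons (Pq.L [] 16 (Pf.C 1 385))
 (Pq.cons (Pq.L [] 4 (Pf.C 1 384))
 (Pq.cons (Pq.L [] 32 (Pf.C 0 386))
 Pq.nil)))) Pq.nil)))) (Pq.cons (Pq.D 2 (Pq.cons (Pq.D 3 (Pq.cons (Pq.L [] 32 (Pf.C 1 386))
 (Pq.cons (Pq.L [] 4 (Pf.C 1 384))
 (Pq.cons (Pq.L [] 45 (Pf.C 2 0x604100))
 Pq.nil)))) (Pq.cons (Pq.L [] 2 (Pf.C 1 256))
 (Pq.cons (Pq.D 3 (Pq.cons (Pq.L [] 51 (Pf.C 2 0x404180))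
 (Pq.cons (Pq.L [] 4 (Pf.C 1 384))
 (Pq.cons (Pq.L [] 32 (Pf.C 0 386))
 Pq.nil)))) Pq.nil)))) Pq.nil)))) (Pq.cons (Pq.D 1 (Pq.cons (Pq.D 2 (Pq.cons (Pq.L [] 2 (Pf.C 1 256))
 (Pq.cons (Pq.L [] 8 (Pf.C 1 257))
 (Pq.cons (Pq.D 3 (Pq.cons (Pq.L [] 4 (Pf.C 1 384))
 (Pq.cons (Pq.L [] 16 (Pf.C 1 385))
 (Pq.cons (Pq.L [] 32 (Pf.C 0 386))
 Pq.nil)))) Pq.nil)))) (Pq.cons (Pq.L [] 1 (Pf.C 1 128))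
 (Pq.cons (Pq.D 2 (Pq.cons (Pq.L [] 2 (Pf.C 1 256))
 (Pq.cons (Pq.D 3 (Pq.cons (Pq.L [] 4 (Pf.C 1 384))
 (Pq.cons (Pq.L [] 32 (Pf.C 1 386))
 (Pq.cons (Pq.L [] 45 (Pf.C 3 0x604100))
 Pq.nil)))) (Pq.cons (Pq.D 3 (Pq.cons (Pq.L [] 4 (Pf.C 1 384))
 (Pq.cons (Pq.L [] 51 (Pf.C 3 0x404180))
 (Pq.cons (Pq.L [] 32 (Pf.C 0 386))
 Pq.nil)))) Pq.nil)))) Pq.nil)))) (Pq.cons (Pq.D 1 (Pq.cons (Pq.D 2 (Pq.cons (Pq.D 3 (Pq.cons (Pq.L [] 32 (Pf.C 1 386))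
 (Pq.cons (Pq.L [] 16 (Pf.C 1 385))
 (Pq.cons (Pq.L [] 51 (Pf.C 2 0x600101))
 Pq.nil)))) (Pq.cons (Pq.L [] 8 (Pf.C 1 257))
 (Pq.cons (Pq.D 3 (Pq.cons (Pq.L [] 45 (Pf.C 2 0x400181))
 (Pq.cons (Pq.L [] 16 (Pf.C 1 385))
 (Pq.cons (Pq.L [] 32 (Pf.C 0 386))
 Pq.nil)))) Pq.nil)))) (Pq.cons (Pq.D 2 (Pq.cons (Pq.L [] 8 (Pf.C 1 257))
 (Pq.cons (Pq.D 3 (Pq.cons (Pq.L [] 16 (Pf.C 1 385))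
 (Pq.cons (Pq.L [] 32 (Pf.C 1 386))
 (Pq.cons (Pq.L [] 51 (Pf.C 3 0x600101))
 Pq.nil)))) (Pq.cons (Pq.D 3 (Pq.cons (Pq.L [] 16 (Pf.C 1 385))
 (Pq.cons (Pq.L [] 45 (Pf.C 3 0x400181))
 (Pq.cons (Pq.L [] 32 (Pf.C 0 386))
 Pq.nil)))) Pq.nil)))) (Pq.cons (Pq.L [] 1 (Pf.C 0 128))
 Pq.nil)))) Pq.nil)))) Pq.nil))
theorem u17_o0 : AllRef u17_T (pureCtx 3 4) (applyObl (pairTab (cK4, c2P2)) 2 [1,2,3] [0,0,0] [(1,4),(2,2)]) :=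
  chkPq_sound u17_o0c _ (by decide +kernel)
theorem u17_n0 (hP : Lem (pairTab (cK4, c2P2)) 0 2) : Bd u17_T (pureCtx 3 4) (pureAct 3) :=
  show Bd _ _ [1,2,3] from r_apply hP [0,0,0] [(1,4),(2,2)] (by decide +kernel) u17_o0
theorem lem_u17 (hP : Lem (pairTab (cK4, c2P2)) 0 2) : Lem u17_T 3 4 := ⟨by decide +kernel, (u17_n0 hP)⟩
theorem nb_u17 (h : Unb  3 axG1) : ¬ BdN cK4.g c2P2.g :=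
  fun hb => unb_use h (lem_u17 (lem_of_bdN (cK4, c2P2) hb)) (by decide +kernel)

noncomputable def u18_ty : Tr Ty := (Tr.br (Tr.br (Tr.br (Tr.leaf ⟨1,0,0,0,0⟩) (Tr.leaf ⟨17,14,0,0,0⟩))
 (Tr.leaf ⟨5,26,0,0,0⟩))
 (Tr.br (Tr.leaf ⟨3,28,0,0,0⟩) (Tr.leaf ⟨9,22,0,0,0⟩))
)

noncomputable def u18_ev : Tr Ev := (Tr.leaf ⟨0,[],0⟩)
noncomputable def u18_ax : Tr Ax := (Tr.br (Tr.br (Tr.br (Tr.br (Tr.leaf ⟨[8,8],[⟨0,1,true⟩],[],0⟩) (Tr.leaf ⟨[16,8,8],[⟨0,1,true⟩,⟨0,2,true⟩],[],0⟩))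
 (Tr.leaf ⟨[4,8],[⟨0,1,true⟩],[],0⟩))
 (Tr.br (Tr.leaf ⟨[6,6],[⟨0,1,true⟩],[],0⟩) (Tr.leaf ⟨[4,4,16,16],[⟨0,2,true⟩,⟨0,3,false⟩,⟨1,2,false⟩,⟨1,3,true⟩],[],0⟩))
)
 (Tr.br (Tr.br (Tr.leaf ⟨[16,16],[⟨0,1,true⟩],[],0⟩) (Tr.leaf ⟨[2,2,8,8],[⟨0,2,true⟩,⟨0,3,false⟩,⟨1,2,false⟩,⟨1,3,true⟩],[],0⟩))
 (Tr.br (Tr.leaf ⟨[2,16],[⟨0,1,true⟩],[],0⟩) (Tr.leaf ⟨[8,16,16],[⟨0,1,true⟩,⟨0,2,true⟩],[],0⟩))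
)
)

noncomputable def u18_sc : Tr Sc := (Tr.leaf ⟨[],[]⟩)
noncomputable def u18_T : Tab := ⟨5,u18_ty,u18_ev,u18_ax,u18_sc⟩
noncomputable def u18_o0c : Pq := (Pq.cons (Pq.D 0 (Pq.cons (Pq.D 1 (Pq.cons (Pq.L [] 1 (Pf.C 2 128))
 (Pq.cons (Pq.D 2 (Pq.cons (Pq.L [] 2 (Pf.C 2 256))
 (Pq.cons (Pq.L [] 4 (Pf.C 2 257))
 (Pq.cons (Pq.L [] 4 (Pf.C 4 257))
 (Pq.cons (Pq.L [] 2 (Pf.C 3 256))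
 Pq.nil))))) (Pq.cons (Pq.D 2 (Pq.cons (Pq.L [] 2 (Pf.C 2 256))
 (Pq.cons (Pq.L [] 4 (Pf.C 4 130))
 (Pq.cons (Pq.L [] 4 (Pf.C 0 257))
 (Pq.cons (Pq.L [] 2 (Pf.C 3 256))
 Pq.nil))))) (Pq.cons (Pq.L [] 1 (Pf.C 3 128))
 Pq.nil))))) (Pq.cons (Pq.D 1 (Pq.cons (Pq.D 2 (Pq.cons (Pq.L [] 4 (Pf.C 2 257))
 (Pq.cons (Pq.L [] 2 (Pf.C 2 256))
 (Pq.cons (Pq.L [] 2 (Pf.C 4 256))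
 (Pq.cons (Pq.L [] 4 (Pf.C 3 257))
 Pq.nil))))) (Pq.cons (Pq.L [] 1 (Pf.C 2 128))
 (Pq.cons (Pq.L [] 1 (Pf.C 4 128))
 (Pq.cons (Pq.D 2 (Pq.cons (Pq.L [] 4 (Pf.C 3 130))
 (Pq.cons (Pq.L [] 2 (Pf.C 2 256))
 (Pq.cons (Pq.L [] 2 (Pf.C 4 256))
 (Pq.cons (Pq.L [] 4 (Pf.C 1 257))
 Pq.nil))))) Pq.nil))))) (Pq.cons (Pq.D 1 (Pq.cons (Pq.D 2 (Pq.cons (Pq.L [] 4 (Pf.C 2 257))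
 (Pq.cons (Pq.L [] 2 (Pf.C 4 2))
 (Pq.cons (Pq.L [] 2 (Pf.C 0 256))
 (Pq.cons (Pq.L [] 4 (Pf.C 3 257))
 Pq.nil))))) (Pq.cons (Pq.L [] 1 (Pf.C 4 1))
 (Pq.cons (Pq.L [] 1 (Pf.C 0 128))
 (Pq.cons (Pq.D 2 (Pq.cons (Pq.L [] 4 (Pf.C 3 130))
 (Pq.cons (Pq.L [] 2 (Pf.C 4 2))
 (Pq.cons (Pq.L [] 2 (Pf.C 0 256))
 (Pq.cons (Pq.L [] 3 (Pf.C 7 32896))
 Pq.nil))))) Pq.nil))))) (Pq.cons (Pq.D 1 (Pq.cons (Pq.L [] 1 (Pf.C 3 1))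
 (Pq.cons (Pq.D 2 (Pq.cons (Pq.L [] 2 (Pf.C 3 2))
 (Pq.cons (Pq.L [] 4 (Pf.C 2 257))
 (Pq.cons (Pq.L [] 4 (Pf.C 4 257))
 (Pq.cons (Pq.L [] 2 (Pf.C 1 256))
 Pq.nil))))) (Pq.cons (Pq.D 2 (Pq.cons (Pq.L [] 2 (Pf.C 3 2))
 (Pq.cons (Pq.L [] 4 (Pf.C 4 130))
 (Pq.cons (Pq.L [] 3 (Pf.C 8 32896))
 (Pq.cons (Pq.L [] 2 (Pf.C 1 256))
 Pq.nil))))) (Pq.cons (Pq.L [] 1 (Pf.C 1 128))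
 Pq.nil))))) Pq.nil))))) (Pq.cons (Pq.D 0 (Pq.cons (Pq.D 1 (Pq.cons (Pq.L [] 1 (Pf.C 2 128))
 (Pq.cons (Pq.D 2 (Pq.cons (Pq.D 3 (Pq.cons (Pq.L [] 64 (Pf.C 2 385))
 (Pq.cons (Pq.L [] 4 (Pf.C 2 384))
 (Pq.cons (Pq.D 4 (Pq.cons (Pq.L [] 128 (Pf.C 2 513))
 (Pq.cons (Pq.L [] 8 (Pf.C 2 512))
 (Pq.cons (Pq.L [] 4096 (Pf.C 0 515))
 (Pq.cons (Pq.D 5 (Pq.cons (Pq.L [] 256 (Pf.C 2 641))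
 (Pq.cons (Pq.L [] 16 (Pf.C 2 640))
 (Pq.cons (Pq.L [] 20480 (Pf.C 8 82308))
 (Pq.cons (Pq.L [] 16384 (Pf.C 1 644))
 Pq.nil))))) Pq.nil))))) (Pq.cons (Pq.D 4 (Pq.cons (Pq.L [] 128 (Pf.C 2 513))
 (Pq.cons (Pq.L [] 8 (Pf.C 2 512))
 (Pq.cons (Pq.D 5 (Pq.cons (Pq.L [] 256 (Pf.C 2 641))
 (Pq.cons (Pq.L [] 16 (Pf.C 2 640))
 (Pq.cons (Pq.L [] 16384 (Pf.C 0 644))
 (Pq.cons (Pq.L [] 20480 (Pf.C 7 82308))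
 Pq.nil))))) (Pq.cons (Pq.L [] 4096 (Pf.C 1 515))
 Pq.nil))))) Pq.nil))))) (Pq.cons (Pq.L [] 2 (Pf.C 2 256))
 (Pq.cons (Pq.L [] 32 (Pf.C 4 257))
 (Pq.cons (Pq.D 3 (Pq.cons (Pq.L [] 64 (Pf.C 2 385))
 (Pq.cons (Pq.L [] 4 (Pf.C 2 384))
 (Pq.cons (Pq.D 4 (Pq.cons (Pq.L [] 128 (Pf.C 2 513))
 (Pq.cons (Pq.L [] 8 (Pf.C 2 512))
 (Pq.cons (Pq.L [] 4096 (Pf.C 0 515))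
 (Pq.cons (Pq.D 5 (Pq.cons (Pq.L [] 256 (Pf.C 2 641))
 (Pq.cons (Pq.L [] 16 (Pf.C 2 640))
 (Pq.cons (Pq.L [] 20480 (Pf.C 8 82308))
 (Pq.cons (Pq.L [] 16384 (Pf.C 1 644))
 Pq.nil))))) Pq.nil))))) (Pq.cons (Pq.D 4 (Pq.cons (Pq.L [] 128 (Pf.C 2 513))
 (Pq.cons (Pq.L [] 8 (Pf.C 2 512))
 (Pq.cons (Pq.D 5 (Pq.cons (Pq.L [] 256 (Pf.C 2 641))
 (Pq.cons (Pq.L [] 16 (Pf.C 2 640))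
 (Pq.cons (Pq.L [] 16384 (Pf.C 0 644))
 (Pq.cons (Pq.L [] 20480 (Pf.C 7 82308))
 Pq.nil))))) (Pq.cons (Pq.L [] 4096 (Pf.C 1 515))
 Pq.nil))))) Pq.nil))))) Pq.nil))))) (Pq.cons (Pq.D 2 (Pq.cons (Pq.D 3 (Pq.cons (Pq.D 4 (Pq.cons (Pq.L [] 4096 (Pf.C 2 515))
 (Pq.cons (Pq.L [] 8 (Pf.C 2 512))
 (Pq.cons (Pq.L [] 4169 (Pf.C 5 0x804180))
 (Pq.cons (Pq.L [] 4096 (Pf.C 3 515))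
 Pq.nil))))) (Pq.cons (Pq.L [] 4 (Pf.C 2 384))
 (Pq.cons (Pq.D 4 (Pq.cons (Pq.L [] 4229 (Pf.C 5 0x604200))
 (Pq.cons (Pq.L [] 8 (Pf.C 2 512))
 (Pq.cons (Pq.L [] 4096 (Pf.C 0 515))
 (Pq.cons (Pq.D 5 (Pq.cons (Pq.L [] 16384 (Pf.C 3 517))
 (Pq.cons (Pq.L [] 16 (Pf.C 2 640))
 (Pq.cons (Pq.L [] 20480 (Pf.C 8 82308))
 (Pq.cons (Pq.L [] 16384 (Pf.C 1 644))
 Pq.nil))))) Pq.nil))))) (Pq.cons (Pq.D 4 (Pq.cons (Pq.L [] 4096 (Pf.C 3 388))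
 (Pq.cons (Pq.L [] 8 (Pf.C 2 512))
 (Pq.cons (Pq.D 5 (Pq.cons (Pq.L [] 16649 (Pf.C 5 0x804280))
 (Pq.cons (Pq.L [] 16 (Pf.C 2 640))
 (Pq.cons (Pq.L [] 16384 (Pf.C 0 644))
 (Pq.cons (Pq.L [] 20480 (Pf.C 7 82308))
 Pq.nil))))) (Pq.cons (Pq.L [] 4096 (Pf.C 1 515))
 Pq.nil))))) Pq.nil))))) (Pq.cons (Pq.L [] 2 (Pf.C 2 256))
 (Pq.cons (Pq.L [] 32 (Pf.C 0 257))
 (Pq.cons (Pq.D 3 (Pq.cons (Pq.D 4 (Pq.cons (Pq.L [] 4096 (Pf.C 2 515))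
 (Pq.cons (Pq.L [] 8 (Pf.C 2 512))
 (Pq.cons (Pq.L [] 4169 (Pf.C 5 0x804180))
 (Pq.cons (Pq.L [] 4096 (Pf.C 3 515))
 Pq.nil))))) (Pq.cons (Pq.L [] 4 (Pf.C 2 384))
 (Pq.cons (Pq.D 4 (Pq.cons (Pq.L [] 4229 (Pf.C 5 0x604200))
 (Pq.cons (Pq.L [] 8 (Pf.C 2 512))
 (Pq.cons (Pq.L [] 4096 (Pf.C 0 515))
 (Pq.cons (Pq.D 5 (Pq.cons (Pq.L [] 16384 (Pf.C 3 517))
 (Pq.cons (Pq.L [] 16 (Pf.C 2 640))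
 (Pq.cons (Pq.L [] 20480 (Pf.C 8 82308))
 (Pq.cons (Pq.L [] 16384 (Pf.C 1 644))
 Pq.nil))))) Pq.nil))))) (Pq.cons (Pq.D 4 (Pq.cons (Pq.L [] 4096 (Pf.C 3 388))
 (Pq.cons (Pq.L [] 8 (Pf.C 2 512))
 (Pq.cons (Pq.D 5 (Pq.cons (Pq.L [] 16649 (Pf.C 5 0x804280))
 (Pq.cons (Pq.L [] 16 (Pf.C 2 640))
 (Pq.cons (Pq.L [] 16384 (Pf.C 0 644))
 (Pq.cons (Pq.L [] 20480 (Pf.C 7 82308))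
 Pq.nil))))) (Pq.cons (Pq.L [] 4096 (Pf.C 1 515))
 Pq.nil))))) Pq.nil))))) Pq.nil))))) (Pq.cons (Pq.L [] 1 (Pf.C 3 128))
 Pq.nil))))) (Pq.cons (Pq.D 1 (Pq.cons (Pq.D 2 (Pq.cons (Pq.L [] 2 (Pf.C 2 256))
 (Pq.cons (Pq.D 3 (Pq.cons (Pq.L [] 4 (Pf.C 2 384))
 (Pq.cons (Pq.L [] 64 (Pf.C 2 385))
 (Pq.cons (Pq.D 4 (Pq.cons (Pq.L [] 8 (Pf.C 2 512))
 (Pq.cons (Pq.L [] 128 (Pf.C 2 513))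
 (Pq.cons (Pq.L [] 4096 (Pf.C 0 515))
 (Pq.cons (Pq.D 5 (Pq.cons (Pq.L [] 16 (Pf.C 2 640))
 (Pq.cons (Pq.L [] 256 (Pf.C 2 641))
 (Pq.cons (Pq.L [] 20480 (Pf.C 8 82308))
 (Pq.cons (Pq.L [] 16384 (Pf.C 1 644))
 Pq.nil))))) Pq.nil))))) (Pq.cons (Pq.D 4 (Pq.cons (Pq.L [] 8 (Pf.C 2 512))
 (Pq.cons (Pq.L [] 128 (Pf.C 2 513))
 (Pq.cons (Pq.D 5 (Pq.cons (Pq.L [] 16 (Pf.C 2 640))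
 (Pq.cons (Pq.L [] 256 (Pf.C 2 641))
 (Pq.cons (Pq.L [] 16384 (Pf.C 0 644))
 (Pq.cons (Pq.L [] 20480 (Pf.C 7 82308))
 Pq.nil))))) (Pq.cons (Pq.L [] 4096 (Pf.C 1 515))
 Pq.nil))))) Pq.nil))))) (Pq.cons (Pq.D 3 (Pq.cons (Pq.L [] 4 (Pf.C 2 384))
 (Pq.cons (Pq.L [] 64 (Pf.C 2 385))
 (Pq.cons (Pq.D 4 (Pq.cons (Pq.L [] 8 (Pf.C 2 512))
 (Pq.cons (Pq.L [] 128 (Pf.C 2 513))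
 (Pq.cons (Pq.L [] 4096 (Pf.C 0 515))
 (Pq.cons (Pq.D 5 (Pq.cons (Pq.L [] 16 (Pf.C 2 640))
 (Pq.cons (Pq.L [] 256 (Pf.C 2 641))
 (Pq.cons (Pq.L [] 20480 (Pf.C 8 82308))
 (Pq.cons (Pq.L [] 16384 (Pf.C 1 644))
 Pq.nil))))) Pq.nil))))) (Pq.cons (Pq.D 4 (Pq.cons (Pq.L [] 8 (Pf.C 2 512))
 (Pq.cons (Pq.L [] 128 (Pf.C 2 513))
 (Pq.cons (Pq.D 5 (Pq.cons (Pq.L [] 16 (Pf.C 2 640))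
 (Pq.cons (Pq.L [] 256 (Pf.C 2 641))
 (Pq.cons (Pq.L [] 16384 (Pf.C 0 644))
 (Pq.cons (Pq.L [] 20480 (Pf.C 7 82308))
 Pq.nil))))) (Pq.cons (Pq.L [] 4096 (Pf.C 1 515))
 Pq.nil))))) Pq.nil))))) (Pq.cons (Pq.L [] 32 (Pf.C 3 257))
 Pq.nil))))) (Pq.cons (Pq.L [] 1 (Pf.C 2 128))
 (Pq.cons (Pq.L [] 1 (Pf.C 4 128))
 (Pq.cons (Pq.D 2 (Pq.cons (Pq.L [] 2 (Pf.C 2 256))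
 (Pq.cons (Pq.D 3 (Pq.cons (Pq.L [] 4 (Pf.C 2 384))
 (Pq.cons (Pq.D 4 (Pq.cons (Pq.L [] 8 (Pf.C 2 512))
 (Pq.cons (Pq.L [] 4096 (Pf.C 2 515))
 (Pq.cons (Pq.L [] 4096 (Pf.C 4 515))
 (Pq.cons (Pq.L [] 4169 (Pf.C 6 0x804180))
 Pq.nil))))) (Pq.cons (Pq.D 4 (Pq.cons (Pq.L [] 8 (Pf.C 2 512))
 (Pq.cons (Pq.L [] 4096 (Pf.C 4 388))
 (Pq.cons (Pq.L [] 4096 (Pf.C 0 515))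
 (Pq.cons (Pq.D 5 (Pq.cons (Pq.L [] 16 (Pf.C 2 640))
 (Pq.cons (Pq.L [] 16649 (Pf.C 6 0x804280))
 (Pq.cons (Pq.L [] 20480 (Pf.C 8 82308))
 (Pq.cons (Pq.L [] 16384 (Pf.C 1 644))
 Pq.nil))))) Pq.nil))))) (Pq.cons (Pq.D 4 (Pq.cons (Pq.L [] 8 (Pf.C 2 512))
 (Pq.cons (Pq.L [] 4229 (Pf.C 6 0x604200))
 (Pq.cons (Pq.D 5 (Pq.cons (Pq.L [] 16 (Pf.C 2 640))
 (Pq.cons (Pq.L [] 16384 (Pf.C 4 517))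
 (Pq.cons (Pq.L [] 16384 (Pf.C 0 644))
 (Pq.cons (Pq.L [] 20480 (Pf.C 7 82308))
 Pq.nil))))) (Pq.cons (Pq.L [] 4096 (Pf.C 1 515))
 Pq.nil))))) Pq.nil))))) (Pq.cons (Pq.D 3 (Pq.cons (Pq.L [] 4 (Pf.C 2 384))
 (Pq.cons (Pq.D 4 (Pq.cons (Pq.L [] 8 (Pf.C 2 512))
 (Pq.cons (Pq.L [] 4096 (Pf.C 2 515))
 (Pq.cons (Pq.L [] 4096 (Pf.C 4 515))
 (Pq.cons (Pq.L [] 4169 (Pf.C 6 0x804180))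
 Pq.nil))))) (Pq.cons (Pq.D 4 (Pq.cons (Pq.L [] 8 (Pf.C 2 512))
 (Pq.cons (Pq.L [] 4096 (Pf.C 4 388))
 (Pq.cons (Pq.L [] 4096 (Pf.C 0 515))
 (Pq.cons (Pq.D 5 (Pq.cons (Pq.L [] 16 (Pf.C 2 640))
 (Pq.cons (Pq.L [] 16649 (Pf.C 6 0x804280))
 (Pq.cons (Pq.L [] 20480 (Pf.C 8 82308))
 (Pq.cons (Pq.L [] 16384 (Pf.C 1 644))
 Pq.nil))))) Pq.nil))))) (Pq.cons (Pq.D 4 (Pq.cons (Pq.L [] 8 (Pf.C 2 512))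
 (Pq.cons (Pq.L [] 4229 (Pf.C 6 0x604200))
 (Pq.cons (Pq.D 5 (Pq.cons (Pq.L [] 16 (Pf.C 2 640))
 (Pq.cons (Pq.L [] 16384 (Pf.C 4 517))
 (Pq.cons (Pq.L [] 16384 (Pf.C 0 644))
 (Pq.cons (Pq.L [] 20480 (Pf.C 7 82308))
 Pq.nil))))) (Pq.cons (Pq.L [] 4096 (Pf.C 1 515))
 Pq.nil))))) Pq.nil))))) (Pq.cons (Pq.L [] 32 (Pf.C 1 257))
 Pq.nil))))) Pq.nil))))) (Pq.cons (Pq.D 1 (Pq.cons (Pq.D 2 (Pq.cons (Pq.L [] 32 (Pf.C 2 257))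
 (Pq.cons (Pq.D 3 (Pq.cons (Pq.L [] 512 (Pf.C 2 386))
 (Pq.cons (Pq.L [] 64 (Pf.C 2 385))
 (Pq.cons (Pq.D 4 (Pq.cons (Pq.L [] 4169 (Pf.C 5 0x600201))
 (Pq.cons (Pq.L [] 128 (Pf.C 2 513))
 (Pq.cons (Pq.L [] 4096 (Pf.C 0 515))
 (Pq.cons (Pq.D 5 (Pq.cons (Pq.L [] 2048 (Pf.C 2 642))
 (Pq.cons (Pq.L [] 256 (Pf.C 2 641))
 (Pq.cons (Pq.L [] 20480 (Pf.C 8 82308))
 (Pq.cons (Pq.L [] 16384 (Pf.C 1 644))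
 Pq.nil))))) Pq.nil))))) (Pq.cons (Pq.D 4 (Pq.cons (Pq.L [] 1024 (Pf.C 2 514))
 (Pq.cons (Pq.L [] 128 (Pf.C 2 513))
 (Pq.cons (Pq.D 5 (Pq.cons (Pq.L [] 16529 (Pf.C 5 0x800281))
 (Pq.cons (Pq.L [] 256 (Pf.C 2 641))
 (Pq.cons (Pq.L [] 16384 (Pf.C 0 644))
 (Pq.cons (Pq.L [] 20480 (Pf.C 7 82308))
 Pq.nil))))) (Pq.cons (Pq.L [] 4096 (Pf.C 1 515))
 Pq.nil))))) Pq.nil))))) (Pq.cons (Pq.D 3 (Pq.cons (Pq.D 4 (Pq.cons (Pq.L [] 4096 (Pf.C 2 515))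
 (Pq.cons (Pq.L [] 128 (Pf.C 2 513))
 (Pq.cons (Pq.L [] 4229 (Pf.C 5 0x800181))
 (Pq.cons (Pq.L [] 4096 (Pf.C 3 515))
 Pq.nil))))) (Pq.cons (Pq.L [] 64 (Pf.C 2 385))
 (Pq.cons (Pq.D 4 (Pq.cons (Pq.L [] 4169 (Pf.C 5 0x600201))
 (Pq.cons (Pq.L [] 128 (Pf.C 2 513))
 (Pq.cons (Pq.L [] 4096 (Pf.C 0 515))
 (Pq.cons (Pq.D 5 (Pq.cons (Pq.L [] 16384 (Pf.C 3 517))
 (Pq.cons (Pq.L [] 256 (Pf.C 2 641))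
 (Pq.cons (Pq.L [] 20480 (Pf.C 8 82308))
 (Pq.cons (Pq.L [] 16384 (Pf.C 1 644))
 Pq.nil))))) Pq.nil))))) (Pq.cons (Pq.D 4 (Pq.cons (Pq.L [] 4096 (Pf.C 3 388))
 (Pq.cons (Pq.L [] 128 (Pf.C 2 513))
 (Pq.cons (Pq.D 5 (Pq.cons (Pq.L [] 16529 (Pf.C 5 0x800281))
 (Pq.cons (Pq.L [] 256 (Pf.C 2 641))
 (Pq.cons (Pq.L [] 16384 (Pf.C 0 644))
 (Pq.cons (Pq.L [] 20480 (Pf.C 7 82308))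
 Pq.nil))))) (Pq.cons (Pq.L [] 4096 (Pf.C 1 515))
 Pq.nil))))) Pq.nil))))) (Pq.cons (Pq.L [] 32 (Pf.C 3 257))
 Pq.nil))))) (Pq.cons (Pq.L [] 1 (Pf.C 4 1))
 (Pq.cons (Pq.L [] 1 (Pf.C 0 128))
 (Pq.cons (Pq.D 2 (Pq.cons (Pq.L [] 32 (Pf.C 3 130))
 (Pq.cons (Pq.D 3 (Pq.cons (Pq.L [] 512 (Pf.C 2 386))
 (Pq.cons (Pq.D 4 (Pq.cons (Pq.L [] 1024 (Pf.C 2 514))
 (Pq.cons (Pq.L [] 4096 (Pf.C 2 515))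
 (Pq.cons (Pq.L [] 4096 (Pf.C 4 515))
 (Pq.cons (Pq.L [] 5216 (Pf.C 6 0x804182))
 Pq.nil))))) (Pq.cons (Pq.D 4 (Pq.cons (Pq.L [] 1024 (Pf.C 2 514))
 (Pq.cons (Pq.L [] 4096 (Pf.C 4 388))
 (Pq.cons (Pq.L [] 4096 (Pf.C 0 515))
 (Pq.cons (Pq.D 5 (Pq.cons (Pq.L [] 2048 (Pf.C 2 642))
 (Pq.cons (Pq.L [] 17696 (Pf.C 6 0x804282))
 (Pq.cons (Pq.L [] 20480 (Pf.C 8 82308))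
 (Pq.cons (Pq.L [] 16384 (Pf.C 1 644))
 Pq.nil))))) Pq.nil))))) (Pq.cons (Pq.D 4 (Pq.cons (Pq.L [] 1024 (Pf.C 2 514))
 (Pq.cons (Pq.L [] 4768 (Pf.C 6 0x604202))
 (Pq.cons (Pq.D 5 (Pq.cons (Pq.L [] 2048 (Pf.C 2 642))
 (Pq.cons (Pq.L [] 16384 (Pf.C 4 517))
 (Pq.cons (Pq.L [] 16384 (Pf.C 0 644))
 (Pq.cons (Pq.L [] 20480 (Pf.C 7 82308))
 Pq.nil))))) (Pq.cons (Pq.L [] 4096 (Pf.C 1 515))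
 Pq.nil))))) Pq.nil))))) (Pq.cons (Pq.L [] 33 (Pf.C 8 32769))
 (Pq.cons (Pq.L [] 32 (Pf.C 1 257))
 Pq.nil))))) Pq.nil))))) (Pq.cons (Pq.D 1 (Pq.cons (Pq.L [] 1 (Pf.C 3 1))
 (Pq.cons (Pq.D 2 (Pq.cons (Pq.D 3 (Pq.cons (Pq.L [] 64 (Pf.C 2 385))
 (Pq.cons (Pq.L [] 512 (Pf.C 2 386))
 (Pq.cons (Pq.D 4 (Pq.cons (Pq.L [] 128 (Pf.C 2 513))
 (Pq.cons (Pq.L [] 1024 (Pf.C 2 514))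
 (Pq.cons (Pq.L [] 4096 (Pf.C 0 515))
 (Pq.cons (Pq.D 5 (Pq.cons (Pq.L [] 256 (Pf.C 2 641))
 (Pq.cons (Pq.L [] 16529 (Pf.C 6 0x800281))
 (Pq.cons (Pq.L [] 20480 (Pf.C 8 82308))
 (Pq.cons (Pq.L [] 16384 (Pf.C 1 644))
 Pq.nil))))) Pq.nil))))) (Pq.cons (Pq.D 4 (Pq.cons (Pq.L [] 128 (Pf.C 2 513))
 (Pq.cons (Pq.L [] 4169 (Pf.C 6 0x600201))
 (Pq.cons (Pq.D 5 (Pq.cons (Pq.L [] 256 (Pf.C 2 641))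
 (Pq.cons (Pq.L [] 2048 (Pf.C 2 642))
 (Pq.cons (Pq.L [] 16384 (Pf.C 0 644))
 (Pq.cons (Pq.L [] 20480 (Pf.C 7 82308))
 Pq.nil))))) (Pq.cons (Pq.L [] 4096 (Pf.C 1 515))
 Pq.nil))))) Pq.nil))))) (Pq.cons (Pq.L [] 32 (Pf.C 2 257))
 (Pq.cons (Pq.L [] 32 (Pf.C 4 257))
 (Pq.cons (Pq.D 3 (Pq.cons (Pq.L [] 64 (Pf.C 2 385))
 (Pq.cons (Pq.D 4 (Pq.cons (Pq.L [] 128 (Pf.C 2 513))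
 (Pq.cons (Pq.L [] 4096 (Pf.C 2 515))
 (Pq.cons (Pq.L [] 4096 (Pf.C 4 515))
 (Pq.cons (Pq.L [] 4229 (Pf.C 6 0x800181))
 Pq.nil))))) (Pq.cons (Pq.D 4 (Pq.cons (Pq.L [] 128 (Pf.C 2 513))
 (Pq.cons (Pq.L [] 4096 (Pf.C 4 388))
 (Pq.cons (Pq.L [] 4096 (Pf.C 0 515))
 (Pq.cons (Pq.D 5 (Pq.cons (Pq.L [] 256 (Pf.C 2 641))
 (Pq.cons (Pq.L [] 16529 (Pf.C 6 0x800281))
 (Pq.cons (Pq.L [] 20480 (Pf.C 8 82308))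
 (Pq.cons (Pq.L [] 16384 (Pf.C 1 644))
 Pq.nil))))) Pq.nil))))) (Pq.cons (Pq.D 4 (Pq.cons (Pq.L [] 128 (Pf.C 2 513))
 (Pq.cons (Pq.L [] 4169 (Pf.C 6 0x600201))
 (Pq.cons (Pq.D 5 (Pq.cons (Pq.L [] 256 (Pf.C 2 641))
 (Pq.cons (Pq.L [] 16384 (Pf.C 4 517))
 (Pq.cons (Pq.L [] 16384 (Pf.C 0 644))
 (Pq.cons (Pq.L [] 20480 (Pf.C 7 82308))
 Pq.nil))))) (Pq.cons (Pq.L [] 4096 (Pf.C 1 515))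
 Pq.nil))))) Pq.nil))))) Pq.nil))))) (Pq.cons (Pq.D 2 (Pq.cons (Pq.D 3 (Pq.cons (Pq.D 4 (Pq.cons (Pq.L [] 4096 (Pf.C 2 515))
 (Pq.cons (Pq.L [] 1024 (Pf.C 2 514))
 (Pq.cons (Pq.L [] 5216 (Pf.C 5 0x804182))
 (Pq.cons (Pq.L [] 4096 (Pf.C 3 515))
 Pq.nil))))) (Pq.cons (Pq.L [] 512 (Pf.C 2 386))
 (Pq.cons (Pq.D 4 (Pq.cons (Pq.L [] 4768 (Pf.C 5 0x604202))
 (Pq.cons (Pq.L [] 1024 (Pf.C 2 514))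
 (Pq.cons (Pq.L [] 4096 (Pf.C 0 515))
 (Pq.cons (Pq.D 5 (Pq.cons (Pq.L [] 16384 (Pf.C 3 517))
 (Pq.cons (Pq.L [] 2048 (Pf.C 2 642))
 (Pq.cons (Pq.L [] 20480 (Pf.C 8 82308))
 (Pq.cons (Pq.L [] 16384 (Pf.C 1 644))
 Pq.nil))))) Pq.nil))))) (Pq.cons (Pq.D 4 (Pq.cons (Pq.L [] 4096 (Pf.C 3 388))
 (Pq.cons (Pq.L [] 1024 (Pf.C 2 514))
 (Pq.cons (Pq.D 5 (Pq.cons (Pq.L [] 17696 (Pf.C 5 0x804282))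
 (Pq.cons (Pq.L [] 2048 (Pf.C 2 642))
 (Pq.cons (Pq.L [] 16384 (Pf.C 0 644))
 (Pq.cons (Pq.L [] 20480 (Pf.C 7 82308))
 Pq.nil))))) (Pq.cons (Pq.L [] 4096 (Pf.C 1 515))
 Pq.nil))))) Pq.nil))))) (Pq.cons (Pq.L [] 32 (Pf.C 4 130))
 (Pq.cons (Pq.L [] 32 (Pf.C 0 257))
 (Pq.cons (Pq.L [] 33 (Pf.C 7 32769))
 Pq.nil))))) (Pq.cons (Pq.L [] 1 (Pf.C 1 128))
 Pq.nil))))) Pq.nil))))) Pq.nil))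
theorem u18_o0 : AllRef u18_T (pureCtx 4 9) (applyObl (pairTab (cK3, c2P3)) 2 [1,2,3,4] [0,0,0,0] [(1,4),(2,2)]) :=
  chkPq_sound u18_o0c _ (by decide +kernel)
theorem u18_n0 (hP : Lem (pairTab (cK3, c2P3)) 0 2) : Bd u18_T (pureCtx 4 9) (pureAct 4) :=
  show Bd _ _ [1,2,3,4] from r_apply hP [0,0,0,0] [(1,4),(2,2)] (by decide +kernel) u18_o0
theorem lem_u18 (hP : Lem (pairTab (cK3, c2P3)) 0 2) : Lem u18_T 4 9 := ⟨by decide +kernel, (u18_n0 hP)⟩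
theorem nb_u18 (h : Unb  4 axG2) : ¬ BdN cK3.g c2P3.g :=
  fun hb => unb_use h (lem_u18 (lem_of_bdN (cK3, c2P3) hb)) (by decide +kernel)

noncomputable def u19_ty : Tr Ty := (Tr.br (Tr.leaf ⟨1,0,0,0,0⟩) (Tr.leaf ⟨3,0,0,0,0⟩))

noncomputable def u19_ev : Tr Ev := (Tr.leaf ⟨0,[],0⟩)
noncomputable def u19_ax : Tr Ax := (Tr.br (Tr.leaf ⟨[1,1,1,1],[⟨0,1,true⟩,⟨0,3,true⟩,⟨1,2,true⟩,⟨2,3,true⟩],[],0⟩) (Tr.leaf ⟨[1,1,1,1],[⟨0,1,true⟩,⟨0,2,true⟩,⟨0,3,true⟩,⟨1,2,false⟩,⟨1,3,false⟩,⟨2,3,false⟩],[],0⟩))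

noncomputable def u19_sc : Tr Sc := (Tr.leaf ⟨[],[]⟩)
noncomputable def u19_T : Tab := ⟨2,u19_ty,u19_ev,u19_ax,u19_sc⟩
noncomputable def u19_o0c : Pq := (Pq.cons (Pq.L [] 45 (Pf.C 0 0x608080))
 (Pq.cons (Pq.L [] 63 (Pf.C 1 0x608080))
 Pq.nil))
theorem u19_o0 : AllRef u19_T (pureCtx 1 2) (applyObl (pairTab (cK4, cK13)) 2 [1] [0] []) :=
  chkPq_sound u19_o0c _ (by decide +kernel)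
theorem u19_n0 (hP : Lem (pairTab (cK4, cK13)) 0 2) : Bd u19_T (pureCtx 1 2) (pureAct 1) :=
  show Bd _ _ [1] from r_apply hP [0] [] (by decide +kernel) u19_o0
theorem lem_u19 (hP : Lem (pairTab (cK4, cK13)) 0 2) : Lem u19_T 1 2 := ⟨by decide +kernel, (u19_n0 hP)⟩
theorem nb_u19 (h : Unb  1 axLn) : ¬ BdN cK4.g cK13.g :=
  fun hb => unb_use h (lem_u19 (lem_of_bdN (cK4, cK13) hb)) (by decide +kernel)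

noncomputable def u20_ty : Tr Ty := (Tr.br (Tr.leaf ⟨1,0,0,0,0⟩) (Tr.leaf ⟨3,0,0,0,0⟩))

noncomputable def u20_ev : Tr Ev := (Tr.leaf ⟨0,[],0⟩)
noncomputable def u20_ax : Tr Ax := (Tr.br (Tr.leaf ⟨[1,1,1,1],[⟨0,1,true⟩,⟨0,3,true⟩,⟨1,2,true⟩,⟨2,3,true⟩],[],0⟩) (Tr.leaf ⟨[1,1,1,1],[⟨0,1,true⟩,⟨0,2,true⟩,⟨0,3,true⟩,⟨1,2,false⟩,⟨1,3,false⟩,⟨2,3,false⟩],[],0⟩))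

noncomputable def u20_sc : Tr Sc := (Tr.leaf ⟨[],[]⟩)
noncomputable def u20_T : Tab := ⟨2,u20_ty,u20_ev,u20_ax,u20_sc⟩
noncomputable def u20_o0c : Pq := (Pq.cons (Pq.L [] 51 (Pf.C 0 0x40c080))
 (Pq.cons (Pq.L [] 63 (Pf.C 1 0x608080))
 Pq.nil))
theorem u20_o0 : AllRef u20_T (pureCtx 1 2) (applyObl (pairTab (cDia, cK13)) 2 [1] [0] []) :=
  chkPq_sound u20_o0c _ (by decide +kernel)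
theorem u20_n0 (hP : Lem (pairTab (cDia, cK13)) 0 2) : Bd u20_T (pureCtx 1 2) (pureAct 1) :=
  show Bd _ _ [1] from r_apply hP [0] [] (by decide +kernel) u20_o0
theorem lem_u20 (hP : Lem (pairTab (cDia, cK13)) 0 2) : Lem u20_T 1 2 := ⟨by decide +kernel, (u20_n0 hP)⟩
theorem nb_u20 (h : Unb  1 axLn) : ¬ BdN cDia.g cK13.g :=
  fun hb => unb_use h (lem_u20 (lem_of_bdN (cDia, cK13) hb)) (by decide +kernel)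

noncomputable def u21_ty : Tr Ty := (Tr.br (Tr.leaf ⟨1,0,0,0,0⟩) (Tr.leaf ⟨3,0,0,0,0⟩))

noncomputable def u21_ev : Tr Ev := (Tr.leaf ⟨0,[],0⟩)
noncomputable def u21_ax : Tr Ax := (Tr.br (Tr.leaf ⟨[1,1,1,1],[⟨0,1,true⟩,⟨0,3,true⟩,⟨1,2,true⟩,⟨2,3,true⟩],[],0⟩) (Tr.leaf ⟨[1,1,1,1],[⟨0,1,true⟩,⟨0,2,true⟩,⟨0,3,true⟩,⟨1,2,false⟩,⟨1,3,false⟩,⟨2,3,false⟩],[],0⟩))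

noncomputable def u21_sc : Tr Sc := (Tr.leaf ⟨[],[]⟩)
noncomputable def u21_T : Tab := ⟨2,u21_ty,u21_ev,u21_ax,u21_sc⟩
noncomputable def u21_o0c : Pq := (Pq.cons (Pq.L [] 63 (Pf.C 1 0x608080))
 (Pq.cons (Pq.L [] 45 (Pf.C 0 0x608080))
 Pq.nil))
theorem u21_o0 : AllRef u21_T (pureCtx 1 2) (applyObl (pairTab (cK13, cC4)) 2 [1] [0] []) :=
  chkPq_sound u21_o0c _ (by decide +kernel)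
theorem u21_n0 (hP : Lem (pairTab (cK13, cC4)) 0 2) : Bd u21_T (pureCtx 1 2) (pureAct 1) :=
  show Bd _ _ [1] from r_apply hP [0] [] (by decide +kernel) u21_o0
theorem lem_u21 (hP : Lem (pairTab (cK13, cC4)) 0 2) : Lem u21_T 1 2 := ⟨by decide +kernel, (u21_n0 hP)⟩
theorem nb_u21 (h : Unb  1 axLn) : ¬ BdN cK13.g cC4.g :=
  fun hb => unb_use h (lem_u21 (lem_of_bdN (cK13, cC4) hb)) (by decide +kernel)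

noncomputable def u22_ty : Tr Ty := (Tr.br (Tr.leaf ⟨1,0,0,0,0⟩) (Tr.leaf ⟨3,0,0,0,0⟩))

noncomputable def u22_ev : Tr Ev := (Tr.leaf ⟨0,[],0⟩)
noncomputable def u22_ax : Tr Ax := (Tr.leaf ⟨[1,1,1,1],[⟨0,1,true⟩,⟨0,2,false⟩,⟨1,2,true⟩,⟨1,3,false⟩,⟨2,3,true⟩],[],0⟩)
noncomputable def u22_sc : Tr Sc := (Tr.leaf ⟨[],[]⟩)
noncomputable def u22_T : Tab := ⟨2,u22_ty,u22_ev,u22_ax,u22_sc⟩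
noncomputable def u22_o0c : Pq := (Pq.cons (Pq.L [] 59 (Pf.C 0 0x608080))
 (Pq.cons (Pq.L [] 59 (Pf.C 0 0x608080))
 Pq.nil))
theorem u22_o0 : AllRef u22_T (pureCtx 1 1) (applyObl (pairTab (cC4, cP4)) 2 [1] [0] []) :=
  chkPq_sound u22_o0c _ (by decide +kernel)
theorem u22_n0 (hP : Lem (pairTab (cC4, cP4)) 0 2) : Bd u22_T (pureCtx 1 1) (pureAct 1) :=
  show Bd _ _ [1] from r_apply hP [0] [] (by decide +kernel) u22_o0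
theorem lem_u22 (hP : Lem (pairTab (cC4, cP4)) 0 2) : Lem u22_T 1 1 := ⟨by decide +kernel, (u22_n0 hP)⟩
theorem nb_u22 (h : Unb  1 axQ) : ¬ BdN cC4.g cP4.g :=
  fun hb => unb_use h (lem_u22 (lem_of_bdN (cC4, cP4) hb)) (by decide +kernel)

noncomputable def u23_ty : Tr Ty := (Tr.br (Tr.leaf ⟨1,0,0,0,0⟩) (Tr.leaf ⟨3,0,0,0,0⟩))

noncomputable def u23_ev : Tr Ev := (Tr.leaf ⟨0,[],0⟩)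
noncomputable def u23_ax : Tr Ax := (Tr.leaf ⟨[1,1,1,1],[⟨0,1,true⟩,⟨0,2,false⟩,⟨1,2,true⟩,⟨1,3,false⟩,⟨2,3,true⟩],[],0⟩)
noncomputable def u23_sc : Tr Sc := (Tr.leaf ⟨[],[]⟩)
noncomputable def u23_T : Tab := ⟨2,u23_ty,u23_ev,u23_ax,u23_sc⟩
noncomputable def u23_o0c : Pq := (Pq.cons (Pq.L [] 59 (Pf.C 0 0x608080))
 (Pq.cons (Pq.L [] 59 (Pf.C 0 0x608080))
 Pq.nil))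
theorem u23_o0 : AllRef u23_T (pureCtx 1 1) (applyObl (pairTab (cP4, cP4)) 2 [1] [0] []) :=
  chkPq_sound u23_o0c _ (by decide +kernel)
theorem u23_n0 (hP : Lem (pairTab (cP4, cP4)) 0 2) : Bd u23_T (pureCtx 1 1) (pureAct 1) :=
  show Bd _ _ [1] from r_apply hP [0] [] (by decide +kernel) u23_o0
theorem lem_u23 (hP : Lem (pairTab (cP4, cP4)) 0 2) : Lem u23_T 1 1 := ⟨by decide +kernel, (u23_n0 hP)⟩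
theorem nb_u23 (h : Unb  1 axQ) : ¬ BdN cP4.g cP4.g :=
  fun hb => unb_use h (lem_u23 (lem_of_bdN (cP4, cP4) hb)) (by decide +kernel)

end Pool.Agent.Lib.MP_849b2e_co
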